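import Pool.Agent.Lib.MP_5854e1_co.DtD

/-!
# Windows and cells of the rings
-/

set_option autoImplicit false
set_option maxRecDepth 100000
set_option deprecated.oldSectionVars true

namespace Pool.Agent.Lib.MP_5854e1_co.Cz

open Pool.Agent.Lib.MP_5854e1_co

noncomputable section

noncomputable def tv2454 : DT := (.nd (nat_lit 0) (.nd (nat_lit 1) (.nd (nat_lit 2) (.nd (nat_lit 3) (.nd (nat_lit 4) (.nd (nat_lit 5) (.nd (nat_lit 6) 
(.lf (nat_lit 184192) (.g (nat_lit 2908) (.e (nat_lit 57852) (nat_lit 252) (.e (nat_lit 57435) (nat_lit 17) (.e (nat_lit 376842) (nat_lit 11) (.e (nat_lit 426315) (nat_lit 12) (.e (nat_lit 475212) (nat_lit 42) (.e (nat_lit 720931) (nat_lit 21) .nil)))))) (.g (nat_lit 5) .nil .nil))) 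
(.lf (nat_lit 184256) (.g (nat_lit 3520) (.e (nat_lit 57853) (nat_lit 252) (.e (nat_lit 57371) (nat_lit 2) (.e (nat_lit 90158) (nat_lit 11) (.e (nat_lit 24625) (nat_lit 9) (.e (nat_lit 336456) (nat_lit 34) (.e (nat_lit 483365) (nat_lit 18) .nil)))))) (.g (nat_lit 0) .nil .nil)))) (.nd (nat_lit 6) 
(.lf (nat_lit 184224) (.g (nat_lit 1481) (.e (nat_lit 57852) (nat_lit 252) (.e (nat_lit 57445) (nat_lit 19) (.e (nat_lit 393229) (nat_lit 9) (.e (nat_lit 336085) (nat_lit 9) .nil)))) .nil)) 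
(.lf (nat_lit 184288) (.g (nat_lit 2970) (.e (nat_lit 57853) (nat_lit 252) (.e (nat_lit 57377) (nat_lit 3) (.e (nat_lit 98317) (nat_lit 9) (.e (nat_lit 336084) (nat_lit 9) .nil)))) .nil)))) (.nd (nat_lit 5) (.nd (nat_lit 6) 
(.lf (nat_lit 184208) (.g (nat_lit 2921) (.e (nat_lit 57852) (nat_lit 252) (.e (nat_lit 57436) (nat_lit 17) (.e (nat_lit 376842) (nat_lit 11) (.e (nat_lit 426316) (nat_lit 12) (.e (nat_lit 475214) (nat_lit 42) (.e (nat_lit 720932) (nat_lit 21) .nil)))))) (.g (nat_lit 5) .nil .nil))) 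
(.lf (nat_lit 184272) (.g (nat_lit 1065) (.e (nat_lit 57853) (nat_lit 252) (.e (nat_lit 57373) (nat_lit 2) (.e (nat_lit 90158) (nat_lit 11) .nil))) .nil))) (.nd (nat_lit 6) 
(.lf (nat_lit 184240) (.g (nat_lit 2791) (.e (nat_lit 57852) (nat_lit 252) (.e (nat_lit 57446) (nat_lit 19) (.e (nat_lit 393229) (nat_lit 9) (.e (nat_lit 336078) (nat_lit 9) (.e (nat_lit 336324) (nat_lit 18) .nil))))) .nil)) 
(.lf (nat_lit 184304) (.g (nat_lit 4156) (.e (nat_lit 57853) (nat_lit 252) (.e (nat_lit 57377) (nat_lit 3) (.e (nat_lit 98317) (nat_lit 9) (.e (nat_lit 336196) (nat_lit 12) .nil)))) .nil))))) (.nd (nat_lit 4) (.nd (nat_lit 5) (.nd (nat_lit 6) 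
(.lf (nat_lit 184200) (.g (nat_lit 1707) (.e (nat_lit 57852) (nat_lit 252) (.e (nat_lit 57436) (nat_lit 17) (.e (nat_lit 376842) (nat_lit 11) (.e (nat_lit 426198) (nat_lit 9) (.e (nat_lit 433920) (nat_lit 20) (.e (nat_lit 114710) (nat_lit 21) .nil)))))) (.g (nat_lit 4) .nil .nil))) 
(.lf (nat_lit 184264) (.g (nat_lit 2196) (.e (nat_lit 57853) (nat_lit 252) (.e (nat_lit 57371) (nat_lit 2) (.e (nat_lit 90160) (nat_lit 11) (.e (nat_lit 24625) (nat_lit 9) (.e (nat_lit 336456) (nat_lit 34) .nil))))) .nil))) (.nd (nat_lit 6) 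
(.lf (nat_lit 184232) (.g (nat_lit 3340) (.e (nat_lit 57852) (nat_lit 252) (.e (nat_lit 57445) (nat_lit 19) (.e (nat_lit 393229) (nat_lit 9) (.e (nat_lit 336100) (nat_lit 9) .nil)))) .nil)) 
(.lf (nat_lit 184296) (.g (nat_lit 1979) (.e (nat_lit 57853) (nat_lit 252) (.e (nat_lit 57377) (nat_lit 3) (.e (nat_lit 98317) (nat_lit 9) (.e (nat_lit 336088) (nat_lit 9) (.e (nat_lit 336383) (nat_lit 27) .nil))))) .nil)))) (.nd (nat_lit 5) (.nd (nat_lit 6) 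
(.lf (nat_lit 184216) (.g (nat_lit 3978) (.e (nat_lit 57852) (nat_lit 252) (.e (nat_lit 57445) (nat_lit 19) (.e (nat_lit 393229) (nat_lit 9) (.e (nat_lit 335914) (nat_lit 0) .nil)))) .nil)) 
(.lf (nat_lit 184280) (.g (nat_lit 4129) (.e (nat_lit 57853) (nat_lit 252) (.e (nat_lit 57377) (nat_lit 3) (.e (nat_lit 98317) (nat_lit 9) (.e (nat_lit 336020) (nat_lit 3) .nil)))) .nil))) (.nd (nat_lit 6) 
(.lf (nat_lit 184248) (.g (nat_lit 1481) (.e (nat_lit 57852) (nat_lit 252) (.e (nat_lit 57447) (nat_lit 19) (.e (nat_lit 393229) (nat_lit 9) (.e (nat_lit 336085) (nat_lit 9) (.e (nat_lit 336325) (nat_lit 18) .nil))))) .nil)) 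
(.lf (nat_lit 184312) (.g (nat_lit 2922) (.e (nat_lit 57853) (nat_lit 252) (.e (nat_lit 57377) (nat_lit 3) (.e (nat_lit 98317) (nat_lit 9) (.e (nat_lit 336223) (nat_lit 13) (.e (nat_lit 393224) (nat_lit 9) .nil))))) .nil)))))) (.nd (nat_lit 3) (.nd (nat_lit 4) (.nd (nat_lit 5) (.nd (nat_lit 6) 
(.lf (nat_lit 184196) (.g (nat_lit 329) (.e (nat_lit 57852) (nat_lit 252) (.e (nat_lit 57436) (nat_lit 17) (.e (nat_lit 376842) (nat_lit 11) .nil))) .nil)) 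
(.lf (nat_lit 184260) (.g (nat_lit 2318) (.e (nat_lit 57853) (nat_lit 252) (.e (nat_lit 57371) (nat_lit 2) (.e (nat_lit 90158) (nat_lit 11) (.e (nat_lit 24658) (nat_lit 13) (.e (nat_lit 393224) (nat_lit 9) (.e (nat_lit 335996) (nat_lit 1) .nil)))))) (.g (nat_lit 4) .nil .nil)))) (.nd (nat_lit 6) 
(.lf (nat_lit 184228) (.g (nat_lit 1834) (.e (nat_lit 57852) (nat_lit 252) (.e (nat_lit 57445) (nat_lit 19) (.e (nat_lit 393229) (nat_lit 9) (.e (nat_lit 336086) (nat_lit 9) (.e (nat_lit 343808) (nat_lit 18) .nil))))) .nil)) 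
(.lf (nat_lit 184292) (.g (nat_lit 3884) (.e (nat_lit 57853) (nat_lit 252) (.e (nat_lit 57377) (nat_lit 3) (.e (nat_lit 98317) (nat_lit 9) (.e (nat_lit 336086) (nat_lit 9) (.e (nat_lit 336454) (nat_lit 34) (.e (nat_lit 483365) (nat_lit 18) .nil)))))) (.g (nat_lit 0) .nil .nil))))) (.nd (nat_lit 5) (.nd (nat_lit 6) 
(.lf (nat_lit 184212) (.g (nat_lit 3408) (.e (nat_lit 57852) (nat_lit 252) (.e (nat_lit 57445) (nat_lit 19) (.e (nat_lit 393225) (nat_lit 9) (.e (nat_lit 336194) (nat_lit 12) (.e (nat_lit 385066) (nat_lit 26) (.e (nat_lit 532504) (nat_lit 1) .nil)))))) (.g (nat_lit 6) .nil .nil))) 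
(.lf (nat_lit 184276) (.g (nat_lit 4161) (.e (nat_lit 57853) (nat_lit 252) (.e (nat_lit 57377) (nat_lit 3) (.e (nat_lit 98317) (nat_lit 9) (.e (nat_lit 335892) (nat_lit 0) .nil)))) .nil))) (.nd (nat_lit 6) 
(.lf (nat_lit 184244) (.g (nat_lit 2291) (.e (nat_lit 57852) (nat_lit 252) (.e (nat_lit 57447) (nat_lit 19) (.e (nat_lit 393224) (nat_lit 9) (.e (nat_lit 336076) (nat_lit 9) (.e (nat_lit 336324) (nat_lit 18) (.e (nat_lit 204830) (nat_lit 18) .nil)))))) (.g (nat_lit 4) .nil .nil))) 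
(.lf (nat_lit 184308) (.g (nat_lit 4206) (.e (nat_lit 57853) (nat_lit 252) (.e (nat_lit 57377) (nat_lit 3) (.e (nat_lit 98317) (nat_lit 9) (.e (nat_lit 336213) (nat_lit 13) (.e (nat_lit 393225) (nat_lit 9) (.e (nat_lit 335996) (nat_lit 1) .nil)))))) (.g (nat_lit 0) .nil .nil)))))) (.nd (nat_lit 4) (.nd (nat_lit 5) (.nd (nat_lit 6) 
(.lf (nat_lit 184204) (.g (nat_lit 2955) (.e (nat_lit 57852) (nat_lit 252) (.e (nat_lit 57436) (nat_lit 17) (.e (nat_lit 376842) (nat_lit 11) (.e (nat_lit 426314) (nat_lit 12) (.e (nat_lit 475214) (nat_lit 42) (.e (nat_lit 720930) (nat_lit 21) .nil)))))) (.g (nat_lit 5) .nil .nil))) 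
(.lf (nat_lit 184268) (.g (nat_lit 2328) (.e (nat_lit 57853) (nat_lit 252) (.e (nat_lit 57371) (nat_lit 2) (.e (nat_lit 90160) (nat_lit 11) (.e (nat_lit 24655) (nat_lit 13) (.e (nat_lit 393225) (nat_lit 9) .nil))))) .nil))) (.nd (nat_lit 6) 
(.lf (nat_lit 184236) (.g (nat_lit 3541) (.e (nat_lit 57852) (nat_lit 252) (.e (nat_lit 57445) (nat_lit 19) (.e (nat_lit 393229) (nat_lit 9) (.e (nat_lit 336150) (nat_lit 9) (.e (nat_lit 336323) (nat_lit 18) .nil))))) .nil)) 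
(.lf (nat_lit 184300) (.g (nat_lit 4288) (.e (nat_lit 57853) (nat_lit 252) (.e (nat_lit 57377) (nat_lit 3) (.e (nat_lit 98317) (nat_lit 9) (.e (nat_lit 336100) (nat_lit 9) (.e (nat_lit 336412) (nat_lit 27) .nil))))) .nil)))) (.nd (nat_lit 5) (.nd (nat_lit 6) 
(.lf (nat_lit 184220) (.g (nat_lit 2934) (.e (nat_lit 57852) (nat_lit 252) (.e (nat_lit 57445) (nat_lit 19) (.e (nat_lit 393229) (nat_lit 9) (.e (nat_lit 336074) (nat_lit 9) .nil)))) .nil)) 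
(.lf (nat_lit 184284) (.g (nat_lit 3455) (.e (nat_lit 57853) (nat_lit 252) (.e (nat_lit 57377) (nat_lit 3) (.e (nat_lit 98317) (nat_lit 9) (.e (nat_lit 336073) (nat_lit 9) .nil)))) .nil))) (.nd (nat_lit 6) 
(.lf (nat_lit 184252) (.g (nat_lit 3268) (.e (nat_lit 57853) (nat_lit 252) (.e (nat_lit 57370) (nat_lit 2) (.e (nat_lit 90158) (nat_lit 11) (.e (nat_lit 24658) (nat_lit 13) (.e (nat_lit 393225) (nat_lit 9) (.e (nat_lit 335996) (nat_lit 1) .nil)))))) (.g (nat_lit 0) .nil .nil))) 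
(.lf (nat_lit 184316) (.g (nat_lit 1060) (.e (nat_lit 57853) (nat_lit 252) (.e (nat_lit 57378) (nat_lit 3) (.e (nat_lit 98313) (nat_lit 9) .nil))) .nil))))))) (.nd (nat_lit 2) (.nd (nat_lit 3) (.nd (nat_lit 4) (.nd (nat_lit 5) (.nd (nat_lit 6) 
(.lf (nat_lit 184194) (.g (nat_lit 2956) (.e (nat_lit 57852) (nat_lit 252) (.e (nat_lit 57435) (nat_lit 17) (.e (nat_lit 376842) (nat_lit 11) (.e (nat_lit 426316) (nat_lit 12) (.e (nat_lit 475214) (nat_lit 42) (.e (nat_lit 720932) (nat_lit 21) .nil)))))) (.g (nat_lit 5) .nil .nil))) 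
(.lf (nat_lit 184258) (.g (nat_lit 2634) (.e (nat_lit 57853) (nat_lit 252) (.e (nat_lit 57371) (nat_lit 2) (.e (nat_lit 90158) (nat_lit 11) (.e (nat_lit 24655) (nat_lit 13) (.e (nat_lit 393224) (nat_lit 9) (.e (nat_lit 335996) (nat_lit 1) .nil)))))) (.g (nat_lit 4) .nil .nil)))) (.nd (nat_lit 6) 
(.lf (nat_lit 184226) (.g (nat_lit 2435) (.e (nat_lit 57852) (nat_lit 252) (.e (nat_lit 57445) (nat_lit 19) (.e (nat_lit 393229) (nat_lit 9) (.e (nat_lit 336086) (nat_lit 9) (.e (nat_lit 336247) (nat_lit 15) (.e (nat_lit 3249) (nat_lit 197) (.e (nat_lit 532504) (nat_lit 1) .nil))))))) (.g (nat_lit 4) .nil .nil))) 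
(.lf (nat_lit 184290) (.g (nat_lit 2519) (.e (nat_lit 57853) (nat_lit 252) (.e (nat_lit 57377) (nat_lit 3) (.e (nat_lit 98317) (nat_lit 9) (.e (nat_lit 336085) (nat_lit 9) .nil)))) .nil)))) (.nd (nat_lit 5) (.nd (nat_lit 6) 
(.lf (nat_lit 184210) (.g (nat_lit 452) (.e (nat_lit 57852) (nat_lit 252) (.e (nat_lit 57445) (nat_lit 19) (.e (nat_lit 393225) (nat_lit 9) .nil))) .nil)) 
(.lf (nat_lit 184274) (.g (nat_lit 1988) (.e (nat_lit 57853) (nat_lit 252) (.e (nat_lit 57373) (nat_lit 2) (.e (nat_lit 90158) (nat_lit 11) (.e (nat_lit 24658) (nat_lit 13) .nil)))) .nil))) (.nd (nat_lit 6) 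
(.lf (nat_lit 184242) (.g (nat_lit 2822) (.e (nat_lit 57852) (nat_lit 252) (.e (nat_lit 57446) (nat_lit 19) (.e (nat_lit 393229) (nat_lit 9) (.e (nat_lit 336196) (nat_lit 12) (.e (nat_lit 385066) (nat_lit 26) .nil))))) .nil)) 
(.lf (nat_lit 184306) (.g (nat_lit 4180) (.e (nat_lit 57853) (nat_lit 252) (.e (nat_lit 57377) (nat_lit 3) (.e (nat_lit 98317) (nat_lit 9) (.e (nat_lit 336203) (nat_lit 12) .nil)))) .nil))))) (.nd (nat_lit 4) (.nd (nat_lit 5) (.nd (nat_lit 6) 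
(.lf (nat_lit 184202) (.g (nat_lit 2672) (.e (nat_lit 57852) (nat_lit 252) (.e (nat_lit 57436) (nat_lit 17) (.e (nat_lit 376842) (nat_lit 11) (.e (nat_lit 426307) (nat_lit 12) (.e (nat_lit 475212) (nat_lit 42) (.e (nat_lit 720934) (nat_lit 21) .nil)))))) (.g (nat_lit 5) .nil .nil))) 
(.lf (nat_lit 184266) (.g (nat_lit 2116) (.e (nat_lit 57853) (nat_lit 252) (.e (nat_lit 57371) (nat_lit 2) (.e (nat_lit 90160) (nat_lit 11) (.e (nat_lit 24654) (nat_lit 13) (.e (nat_lit 393225) (nat_lit 9) .nil))))) .nil))) (.nd (nat_lit 6) 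
(.lf (nat_lit 184234) (.g (nat_lit 3679) (.e (nat_lit 57852) (nat_lit 252) (.e (nat_lit 57445) (nat_lit 19) (.e (nat_lit 393229) (nat_lit 9) (.e (nat_lit 336107) (nat_lit 9) .nil)))) .nil)) 
(.lf (nat_lit 184298) (.g (nat_lit 3720) (.e (nat_lit 57853) (nat_lit 252) (.e (nat_lit 57377) (nat_lit 3) (.e (nat_lit 98317) (nat_lit 9) (.e (nat_lit 336091) (nat_lit 9) .nil)))) .nil)))) (.nd (nat_lit 5) (.nd (nat_lit 6) 
(.lf (nat_lit 184218) (.g (nat_lit 3949) (.e (nat_lit 57852) (nat_lit 252) (.e (nat_lit 57445) (nat_lit 19) (.e (nat_lit 393229) (nat_lit 9) (.e (nat_lit 336069) (nat_lit 8) .nil)))) .nil)) 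
(.lf (nat_lit 184282) (.g (nat_lit 3638) (.e (nat_lit 57853) (nat_lit 252) (.e (nat_lit 57377) (nat_lit 3) (.e (nat_lit 98317) (nat_lit 9) (.e (nat_lit 336027) (nat_lit 3) .nil)))) .nil))) (.nd (nat_lit 6) 
(.lf (nat_lit 184250) (.g (nat_lit 2311) (.e (nat_lit 57852) (nat_lit 252) (.e (nat_lit 65280) (nat_lit 66) (.e (nat_lit 221210) (nat_lit 22) (.e (nat_lit 196681) (nat_lit 17) (.e (nat_lit 131086) (nat_lit 1) (.e (nat_lit 57854) (nat_lit 252) (.e (nat_lit 57388) (nat_lit 5) (.e (nat_lit 114712) (nat_lit 21) .nil)))))))) (.g (nat_lit 4) .nil .nil))) 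
(.lf (nat_lit 184314) (.g (nat_lit 2498) (.e (nat_lit 57853) (nat_lit 252) (.e (nat_lit 57377) (nat_lit 3) (.e (nat_lit 98317) (nat_lit 9) (.e (nat_lit 343808) (nat_lit 13) .nil)))) .nil)))))) (.nd (nat_lit 3) (.nd (nat_lit 4) (.nd (nat_lit 5) (.nd (nat_lit 6) 
(.lf (nat_lit 184198) (.g (nat_lit 1826) (.e (nat_lit 57852) (nat_lit 252) (.e (nat_lit 57436) (nat_lit 17) (.e (nat_lit 376842) (nat_lit 11) (.e (nat_lit 426188) (nat_lit 9) (.e (nat_lit 426354) (nat_lit 15) .nil))))) .nil)) 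
(.lf (nat_lit 184262) (.g (nat_lit 424) (.e (nat_lit 57853) (nat_lit 252) (.e (nat_lit 57371) (nat_lit 2) (.e (nat_lit 90160) (nat_lit 11) .nil))) .nil))) (.nd (nat_lit 6) 
(.lf (nat_lit 184230) (.g (nat_lit 1278) (.e (nat_lit 57852) (nat_lit 252) (.e (nat_lit 57445) (nat_lit 19) (.e (nat_lit 393229) (nat_lit 9) (.e (nat_lit 336088) (nat_lit 9) .nil)))) .nil)) 
(.lf (nat_lit 184294) (.g (nat_lit 2795) (.e (nat_lit 57853) (nat_lit 252) (.e (nat_lit 57377) (nat_lit 3) (.e (nat_lit 98317) (nat_lit 9) (.e (nat_lit 336087) (nat_lit 9) (.e (nat_lit 336454) (nat_lit 34) .nil))))) .nil)))) (.nd (nat_lit 5) (.nd (nat_lit 6) 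
(.lf (nat_lit 184214) (.g (nat_lit 3195) (.e (nat_lit 57852) (nat_lit 252) (.e (nat_lit 57445) (nat_lit 19) (.e (nat_lit 393225) (nat_lit 9) (.e (nat_lit 336204) (nat_lit 12) (.e (nat_lit 385066) (nat_lit 26) (.e (nat_lit 532502) (nat_lit 1) .nil)))))) (.g (nat_lit 5) .nil .nil))) 
(.lf (nat_lit 184278) (.g (nat_lit 4171) (.e (nat_lit 57853) (nat_lit 252) (.e (nat_lit 57377) (nat_lit 3) (.e (nat_lit 98317) (nat_lit 9) (.e (nat_lit 335895) (nat_lit 0) .nil)))) .nil))) (.nd (nat_lit 6) 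
(.lf (nat_lit 184246) (.g (nat_lit 1034) (.e (nat_lit 57852) (nat_lit 252) (.e (nat_lit 57447) (nat_lit 19) (.e (nat_lit 393225) (nat_lit 9) (.e (nat_lit 336204) (nat_lit 12) .nil)))) .nil)) 
(.lf (nat_lit 184310) (.g (nat_lit 2664) (.e (nat_lit 57853) (nat_lit 252) (.e (nat_lit 57377) (nat_lit 3) (.e (nat_lit 98317) (nat_lit 9) (.e (nat_lit 336221) (nat_lit 13) .nil)))) .nil))))) (.nd (nat_lit 4) (.nd (nat_lit 5) (.nd (nat_lit 6) 
(.lf (nat_lit 184206) (.g (nat_lit 2875) (.e (nat_lit 57852) (nat_lit 252) (.e (nat_lit 57436) (nat_lit 17) (.e (nat_lit 376842) (nat_lit 11) (.e (nat_lit 426315) (nat_lit 12) (.e (nat_lit 475212) (nat_lit 42) (.e (nat_lit 720931) (nat_lit 21) .nil)))))) (.g (nat_lit 5) .nil .nil))) 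
(.lf (nat_lit 184270) (.g (nat_lit 2221) (.e (nat_lit 57853) (nat_lit 252) (.e (nat_lit 57371) (nat_lit 2) (.e (nat_lit 90160) (nat_lit 11) (.e (nat_lit 24658) (nat_lit 13) (.e (nat_lit 393225) (nat_lit 9) .nil))))) .nil))) (.nd (nat_lit 6) 
(.lf (nat_lit 184238) (.g (nat_lit 2555) (.e (nat_lit 57852) (nat_lit 252) (.e (nat_lit 57445) (nat_lit 19) (.e (nat_lit 393229) (nat_lit 9) (.e (nat_lit 336195) (nat_lit 12) .nil)))) .nil)) 
(.lf (nat_lit 184302) (.g (nat_lit 2498) (.e (nat_lit 57853) (nat_lit 252) (.e (nat_lit 57377) (nat_lit 3) (.e (nat_lit 98317) (nat_lit 9) (.e (nat_lit 343808) (nat_lit 9) .nil)))) .nil)))) (.nd (nat_lit 5) (.nd (nat_lit 6) 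
(.lf (nat_lit 184222) (.g (nat_lit 1924) (.e (nat_lit 57852) (nat_lit 252) (.e (nat_lit 57445) (nat_lit 19) (.e (nat_lit 393229) (nat_lit 9) (.e (nat_lit 336077) (nat_lit 9) (.e (nat_lit 336326) (nat_lit 18) .nil))))) .nil)) 
(.lf (nat_lit 184286) (.g (nat_lit 2782) (.e (nat_lit 57853) (nat_lit 252) (.e (nat_lit 57377) (nat_lit 3) (.e (nat_lit 98317) (nat_lit 9) (.e (nat_lit 336075) (nat_lit 9) .nil)))) .nil))) (.nd (nat_lit 6) 
(.lf (nat_lit 184254) (.g (nat_lit 2013) (.e (nat_lit 57853) (nat_lit 252) (.e (nat_lit 57371) (nat_lit 2) (.e (nat_lit 90128) (nat_lit 9) (.e (nat_lit 268) (nat_lit 21) (.e (nat_lit 336219) (nat_lit 13) .nil))))) .nil)) 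
(.lf (nat_lit 184318) (.g (nat_lit 721) (.e (nat_lit 57853) (nat_lit 252) (.e (nat_lit 57378) (nat_lit 3) (.e (nat_lit 98317) (nat_lit 9) .nil))) .nil)))))))) (.nd (nat_lit 1) (.nd (nat_lit 2) (.nd (nat_lit 3) (.nd (nat_lit 4) (.nd (nat_lit 5) (.nd (nat_lit 6) 
(.lf (nat_lit 184193) (.g (nat_lit 2920) (.e (nat_lit 57852) (nat_lit 252) (.e (nat_lit 57435) (nat_lit 17) (.e (nat_lit 376842) (nat_lit 11) (.e (nat_lit 426315) (nat_lit 12) (.e (nat_lit 475212) (nat_lit 42) (.e (nat_lit 720934) (nat_lit 21) .nil)))))) (.g (nat_lit 5) .nil .nil))) 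
(.lf (nat_lit 184257) (.g (nat_lit 1071) (.e (nat_lit 57853) (nat_lit 252) (.e (nat_lit 57371) (nat_lit 2) (.e (nat_lit 90158) (nat_lit 11) (.e (nat_lit 24654) (nat_lit 13) .nil)))) .nil))) (.nd (nat_lit 6) 
(.lf (nat_lit 184225) (.g (nat_lit 1803) (.e (nat_lit 57852) (nat_lit 252) (.e (nat_lit 57445) (nat_lit 19) (.e (nat_lit 393229) (nat_lit 9) (.e (nat_lit 336085) (nat_lit 9) (.e (nat_lit 343808) (nat_lit 18) .nil))))) .nil)) 
(.lf (nat_lit 184289) (.g (nat_lit 3094) (.e (nat_lit 57853) (nat_lit 252) (.e (nat_lit 57377) (nat_lit 3) (.e (nat_lit 98317) (nat_lit 9) (.e (nat_lit 336084) (nat_lit 9) (.e (nat_lit 336454) (nat_lit 34) .nil))))) .nil)))) (.nd (nat_lit 5) (.nd (nat_lit 6) 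
(.lf (nat_lit 184209) (.g (nat_lit 2950) (.e (nat_lit 57852) (nat_lit 252) (.e (nat_lit 57436) (nat_lit 17) (.e (nat_lit 376842) (nat_lit 11) (.e (nat_lit 426316) (nat_lit 12) (.e (nat_lit 475214) (nat_lit 42) (.e (nat_lit 720934) (nat_lit 21) .nil)))))) (.g (nat_lit 5) .nil .nil))) 
(.lf (nat_lit 184273) (.g (nat_lit 1914) (.e (nat_lit 57853) (nat_lit 252) (.e (nat_lit 57373) (nat_lit 2) (.e (nat_lit 90158) (nat_lit 11) (.e (nat_lit 24655) (nat_lit 13) .nil)))) .nil))) (.nd (nat_lit 6) 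
(.lf (nat_lit 184241) (.g (nat_lit 2469) (.e (nat_lit 57852) (nat_lit 252) (.e (nat_lit 57446) (nat_lit 19) (.e (nat_lit 393229) (nat_lit 9) (.e (nat_lit 336086) (nat_lit 9) .nil)))) .nil)) 
(.lf (nat_lit 184305) (.g (nat_lit 4176) (.e (nat_lit 57853) (nat_lit 252) (.e (nat_lit 57377) (nat_lit 3) (.e (nat_lit 98317) (nat_lit 9) (.e (nat_lit 336202) (nat_lit 12) .nil)))) .nil))))) (.nd (nat_lit 4) (.nd (nat_lit 5) (.nd (nat_lit 6) 
(.lf (nat_lit 184201) (.g (nat_lit 1336) (.e (nat_lit 57852) (nat_lit 252) (.e (nat_lit 57436) (nat_lit 17) (.e (nat_lit 376842) (nat_lit 11) (.e (nat_lit 426222) (nat_lit 9) .nil)))) .nil)) 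
(.lf (nat_lit 184265) (.g (nat_lit 1510) (.e (nat_lit 57853) (nat_lit 252) (.e (nat_lit 57371) (nat_lit 2) (.e (nat_lit 90160) (nat_lit 11) (.e (nat_lit 24636) (nat_lit 9) .nil)))) .nil))) (.nd (nat_lit 6) 
(.lf (nat_lit 184233) (.g (nat_lit 4051) (.e (nat_lit 57852) (nat_lit 252) (.e (nat_lit 57445) (nat_lit 19) (.e (nat_lit 393229) (nat_lit 9) (.e (nat_lit 336105) (nat_lit 9) .nil)))) .nil)) 
(.lf (nat_lit 184297) (.g (nat_lit 3996) (.e (nat_lit 57853) (nat_lit 252) (.e (nat_lit 57377) (nat_lit 3) (.e (nat_lit 98317) (nat_lit 9) (.e (nat_lit 336088) (nat_lit 9) (.e (nat_lit 336454) (nat_lit 34) (.e (nat_lit 483365) (nat_lit 18) .nil)))))) (.g (nat_lit 0) .nil .nil))))) (.nd (nat_lit 5) (.nd (nat_lit 6) 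
(.lf (nat_lit 184217) (.g (nat_lit 4032) (.e (nat_lit 57852) (nat_lit 252) (.e (nat_lit 57445) (nat_lit 19) (.e (nat_lit 393229) (nat_lit 9) (.e (nat_lit 336067) (nat_lit 8) .nil)))) .nil)) 
(.lf (nat_lit 184281) (.g (nat_lit 3937) (.e (nat_lit 57853) (nat_lit 252) (.e (nat_lit 57377) (nat_lit 3) (.e (nat_lit 98317) (nat_lit 9) (.e (nat_lit 336026) (nat_lit 3) .nil)))) .nil))) (.nd (nat_lit 6) 
(.lf (nat_lit 184249) (.g (nat_lit 1614) (.e (nat_lit 57852) (nat_lit 252) (.e (nat_lit 57447) (nat_lit 19) (.e (nat_lit 393229) (nat_lit 9) (.e (nat_lit 343808) (nat_lit 9) .nil)))) .nil)) 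
(.lf (nat_lit 184313) (.g (nat_lit 3650) (.e (nat_lit 57853) (nat_lit 252) (.e (nat_lit 57377) (nat_lit 3) (.e (nat_lit 98317) (nat_lit 9) (.e (nat_lit 336223) (nat_lit 13) (.e (nat_lit 393225) (nat_lit 9) (.e (nat_lit 335996) (nat_lit 1) .nil)))))) (.g (nat_lit 0) .nil .nil))))))) (.nd (nat_lit 3) (.nd (nat_lit 4) (.nd (nat_lit 5) (.nd (nat_lit 6) 
(.lf (nat_lit 184197) (.g (nat_lit 2327) (.e (nat_lit 57852) (nat_lit 252) (.e (nat_lit 57436) (nat_lit 17) (.e (nat_lit 376842) (nat_lit 11) (.e (nat_lit 426188) (nat_lit 9) (.e (nat_lit 426350) (nat_lit 15) (.e (nat_lit 2203) (nat_lit 144) (.e (nat_lit 720934) (nat_lit 21) .nil))))))) (.g (nat_lit 4) .nil .nil))) 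
(.lf (nat_lit 184261) (.g (nat_lit 3583) (.e (nat_lit 57853) (nat_lit 252) (.e (nat_lit 57371) (nat_lit 2) (.e (nat_lit 90158) (nat_lit 11) (.e (nat_lit 24658) (nat_lit 13) (.e (nat_lit 393225) (nat_lit 9) (.e (nat_lit 335996) (nat_lit 1) .nil)))))) (.g (nat_lit 0) .nil .nil)))) (.nd (nat_lit 6) 
(.lf (nat_lit 184229) (.g (nat_lit 2498) (.e (nat_lit 57852) (nat_lit 252) (.e (nat_lit 57445) (nat_lit 19) (.e (nat_lit 393229) (nat_lit 9) (.e (nat_lit 336087) (nat_lit 9) .nil)))) .nil)) 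
(.lf (nat_lit 184293) (.g (nat_lit 2405) (.e (nat_lit 57853) (nat_lit 252) (.e (nat_lit 57377) (nat_lit 3) (.e (nat_lit 98317) (nat_lit 9) (.e (nat_lit 336087) (nat_lit 9) .nil)))) .nil)))) (.nd (nat_lit 5) (.nd (nat_lit 6) 
(.lf (nat_lit 184213) (.g (nat_lit 3812) (.e (nat_lit 57852) (nat_lit 252) (.e (nat_lit 57445) (nat_lit 19) (.e (nat_lit 393225) (nat_lit 9) (.e (nat_lit 336196) (nat_lit 12) (.e (nat_lit 385066) (nat_lit 26) (.e (nat_lit 532504) (nat_lit 1) .nil)))))) (.g (nat_lit 6) .nil .nil))) 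
(.lf (nat_lit 184277) (.g (nat_lit 4177) (.e (nat_lit 57853) (nat_lit 252) (.e (nat_lit 57377) (nat_lit 3) (.e (nat_lit 98317) (nat_lit 9) (.e (nat_lit 335894) (nat_lit 0) .nil)))) .nil))) (.nd (nat_lit 6) 
(.lf (nat_lit 184245) (.g (nat_lit 1166) (.e (nat_lit 57852) (nat_lit 252) (.e (nat_lit 57447) (nat_lit 19) (.e (nat_lit 393225) (nat_lit 9) (.e (nat_lit 336196) (nat_lit 12) .nil)))) .nil)) 
(.lf (nat_lit 184309) (.g (nat_lit 1397) (.e (nat_lit 57853) (nat_lit 252) (.e (nat_lit 57377) (nat_lit 3) (.e (nat_lit 98317) (nat_lit 9) (.e (nat_lit 336214) (nat_lit 13) .nil)))) .nil))))) (.nd (nat_lit 4) (.nd (nat_lit 5) (.nd (nat_lit 6) 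
(.lf (nat_lit 184205) (.g (nat_lit 2784) (.e (nat_lit 57852) (nat_lit 252) (.e (nat_lit 57436) (nat_lit 17) (.e (nat_lit 376842) (nat_lit 11) (.e (nat_lit 426315) (nat_lit 12) (.e (nat_lit 475212) (nat_lit 42) (.e (nat_lit 720930) (nat_lit 21) .nil)))))) (.g (nat_lit 5) .nil .nil))) 
(.lf (nat_lit 184269) (.g (nat_lit 2239) (.e (nat_lit 57853) (nat_lit 252) (.e (nat_lit 57371) (nat_lit 2) (.e (nat_lit 90160) (nat_lit 11) (.e (nat_lit 24655) (nat_lit 13) (.e (nat_lit 393229) (nat_lit 9) .nil))))) .nil))) (.nd (nat_lit 6) 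
(.lf (nat_lit 184237) (.g (nat_lit 4073) (.e (nat_lit 57852) (nat_lit 252) (.e (nat_lit 57445) (nat_lit 19) (.e (nat_lit 393229) (nat_lit 9) (.e (nat_lit 336155) (nat_lit 9) .nil)))) .nil)) 
(.lf (nat_lit 184301) (.g (nat_lit 4149) (.e (nat_lit 57853) (nat_lit 252) (.e (nat_lit 57377) (nat_lit 3) (.e (nat_lit 98317) (nat_lit 9) (.e (nat_lit 336150) (nat_lit 9) .nil)))) .nil)))) (.nd (nat_lit 5) (.nd (nat_lit 6) 
(.lf (nat_lit 184221) (.g (nat_lit 2310) (.e (nat_lit 57852) (nat_lit 252) (.e (nat_lit 57445) (nat_lit 19) (.e (nat_lit 393229) (nat_lit 9) (.e (nat_lit 336075) (nat_lit 9) .nil)))) .nil)) 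
(.lf (nat_lit 184285) (.g (nat_lit 3228) (.e (nat_lit 57853) (nat_lit 252) (.e (nat_lit 57377) (nat_lit 3) (.e (nat_lit 98317) (nat_lit 9) (.e (nat_lit 336074) (nat_lit 9) .nil)))) .nil))) (.nd (nat_lit 6) 
(.lf (nat_lit 184253) (.g (nat_lit 563) (.e (nat_lit 57853) (nat_lit 252) (.e (nat_lit 57371) (nat_lit 2) (.e (nat_lit 90128) (nat_lit 9) .nil))) .nil)) 
(.lf (nat_lit 184317) (.g (nat_lit 1022) (.e (nat_lit 57853) (nat_lit 252) (.e (nat_lit 57378) (nat_lit 3) (.e (nat_lit 98316) (nat_lit 9) .nil))) .nil))))))) (.nd (nat_lit 2) (.nd (nat_lit 3) (.nd (nat_lit 4) (.nd (nat_lit 5) (.nd (nat_lit 6) 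
(.lf (nat_lit 184195) (.g (nat_lit 2980) (.e (nat_lit 57852) (nat_lit 252) (.e (nat_lit 57435) (nat_lit 17) (.e (nat_lit 376842) (nat_lit 11) (.e (nat_lit 426316) (nat_lit 12) (.e (nat_lit 475214) (nat_lit 42) (.e (nat_lit 720934) (nat_lit 21) .nil)))))) (.g (nat_lit 5) .nil .nil))) 
(.lf (nat_lit 184259) (.g (nat_lit 4016) (.e (nat_lit 57853) (nat_lit 252) (.e (nat_lit 57371) (nat_lit 2) (.e (nat_lit 90158) (nat_lit 11) (.e (nat_lit 24655) (nat_lit 13) (.e (nat_lit 393225) (nat_lit 9) (.e (nat_lit 335996) (nat_lit 1) .nil)))))) (.g (nat_lit 0) .nil .nil)))) (.nd (nat_lit 6) 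
(.lf (nat_lit 184227) (.g (nat_lit 1814) (.e (nat_lit 57852) (nat_lit 252) (.e (nat_lit 57445) (nat_lit 19) (.e (nat_lit 393229) (nat_lit 9) (.e (nat_lit 336086) (nat_lit 9) (.e (nat_lit 336302) (nat_lit 15) .nil))))) .nil)) 
(.lf (nat_lit 184291) (.g (nat_lit 1216) (.e (nat_lit 57853) (nat_lit 252) (.e (nat_lit 57377) (nat_lit 3) (.e (nat_lit 98317) (nat_lit 9) (.e (nat_lit 336086) (nat_lit 9) .nil)))) .nil)))) (.nd (nat_lit 5) (.nd (nat_lit 6) 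
(.lf (nat_lit 184211) (.g (nat_lit 2942) (.e (nat_lit 57852) (nat_lit 252) (.e (nat_lit 57445) (nat_lit 19) (.e (nat_lit 393225) (nat_lit 9) (.e (nat_lit 336194) (nat_lit 12) (.e (nat_lit 385066) (nat_lit 26) (.e (nat_lit 532502) (nat_lit 1) .nil)))))) (.g (nat_lit 5) .nil .nil))) 
(.lf (nat_lit 184275) (.g (nat_lit 2649) (.e (nat_lit 57853) (nat_lit 252) (.e (nat_lit 57377) (nat_lit 3) (.e (nat_lit 98315) (nat_lit 9) (.e (nat_lit 336209) (nat_lit 13) (.e (nat_lit 393225) (nat_lit 9) (.e (nat_lit 335996) (nat_lit 1) .nil)))))) (.g (nat_lit 0) .nil .nil)))) (.nd (nat_lit 6) 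
(.lf (nat_lit 184243) (.g (nat_lit 1202) (.e (nat_lit 57852) (nat_lit 252) (.e (nat_lit 57447) (nat_lit 19) (.e (nat_lit 393221) (nat_lit 0) (.e (nat_lit 6112) (nat_lit 332) .nil)))) .nil)) 
(.lf (nat_lit 184307) (.g (nat_lit 2813) (.e (nat_lit 57853) (nat_lit 252) (.e (nat_lit 57377) (nat_lit 3) (.e (nat_lit 98317) (nat_lit 9) (.e (nat_lit 336212) (nat_lit 13) .nil)))) .nil))))) (.nd (nat_lit 4) (.nd (nat_lit 5) (.nd (nat_lit 6) 
(.lf (nat_lit 184203) (.g (nat_lit 1649) (.e (nat_lit 57852) (nat_lit 252) (.e (nat_lit 57436) (nat_lit 17) (.e (nat_lit 376842) (nat_lit 11) (.e (nat_lit 426313) (nat_lit 12) (.e (nat_lit 475213) (nat_lit 42) .nil))))) .nil)) 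
(.lf (nat_lit 184267) (.g (nat_lit 2851) (.e (nat_lit 57853) (nat_lit 252) (.e (nat_lit 57371) (nat_lit 2) (.e (nat_lit 90160) (nat_lit 11) (.e (nat_lit 24655) (nat_lit 13) (.e (nat_lit 393224) (nat_lit 9) .nil))))) .nil))) (.nd (nat_lit 6) 
(.lf (nat_lit 184235) (.g (nat_lit 3371) (.e (nat_lit 57852) (nat_lit 252) (.e (nat_lit 57445) (nat_lit 19) (.e (nat_lit 393229) (nat_lit 9) (.e (nat_lit 336150) (nat_lit 9) .nil)))) .nil)) 
(.lf (nat_lit 184299) (.g (nat_lit 4171) (.e (nat_lit 57853) (nat_lit 252) (.e (nat_lit 57377) (nat_lit 3) (.e (nat_lit 98317) (nat_lit 9) (.e (nat_lit 336100) (nat_lit 9) .nil)))) .nil)))) (.nd (nat_lit 5) (.nd (nat_lit 6) 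
(.lf (nat_lit 184219) (.g (nat_lit 1952) (.e (nat_lit 57852) (nat_lit 252) (.e (nat_lit 57445) (nat_lit 19) (.e (nat_lit 393229) (nat_lit 9) (.e (nat_lit 336073) (nat_lit 9) .nil)))) .nil)) 
(.lf (nat_lit 184283) (.g (nat_lit 4306) (.e (nat_lit 57853) (nat_lit 252) (.e (nat_lit 57377) (nat_lit 3) (.e (nat_lit 98317) (nat_lit 9) (.e (nat_lit 336027) (nat_lit 3) (.e (nat_lit 98341) (nat_lit 20) .nil))))) .nil))) (.nd (nat_lit 6) 
(.lf (nat_lit 184251) (.g (nat_lit 3673) (.e (nat_lit 57853) (nat_lit 252) (.e (nat_lit 57370) (nat_lit 2) (.e (nat_lit 90158) (nat_lit 11) (.e (nat_lit 24655) (nat_lit 13) (.e (nat_lit 393225) (nat_lit 9) (.e (nat_lit 335996) (nat_lit 1) .nil)))))) (.g (nat_lit 0) .nil .nil))) 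
(.lf (nat_lit 184315) (.g (nat_lit 1073) (.e (nat_lit 57853) (nat_lit 252) (.e (nat_lit 57378) (nat_lit 3) (.e (nat_lit 98312) (nat_lit 9) .nil))) .nil)))))) (.nd (nat_lit 3) (.nd (nat_lit 4) (.nd (nat_lit 5) (.nd (nat_lit 6) 
(.lf (nat_lit 184199) (.g (nat_lit 1678) (.e (nat_lit 57852) (nat_lit 252) (.e (nat_lit 57436) (nat_lit 17) (.e (nat_lit 376842) (nat_lit 11) (.e (nat_lit 426198) (nat_lit 9) (.e (nat_lit 433920) (nat_lit 20) .nil))))) .nil)) 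
(.lf (nat_lit 184263) (.g (nat_lit 2202) (.e (nat_lit 57853) (nat_lit 252) (.e (nat_lit 57371) (nat_lit 2) (.e (nat_lit 90160) (nat_lit 11) (.e (nat_lit 24625) (nat_lit 9) (.e (nat_lit 336454) (nat_lit 34) .nil))))) .nil))) (.nd (nat_lit 6) 
(.lf (nat_lit 184231) (.g (nat_lit 3213) (.e (nat_lit 57852) (nat_lit 252) (.e (nat_lit 57445) (nat_lit 19) (.e (nat_lit 393229) (nat_lit 9) (.e (nat_lit 336091) (nat_lit 9) .nil)))) .nil)) 
(.lf (nat_lit 184295) (.g (nat_lit 1083) (.e (nat_lit 57853) (nat_lit 252) (.e (nat_lit 57377) (nat_lit 3) (.e (nat_lit 98317) (nat_lit 9) (.e (nat_lit 336088) (nat_lit 9) .nil)))) .nil)))) (.nd (nat_lit 5) (.nd (nat_lit 6) 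
(.lf (nat_lit 184215) (.g (nat_lit 3626) (.e (nat_lit 57852) (nat_lit 252) (.e (nat_lit 57445) (nat_lit 19) (.e (nat_lit 393225) (nat_lit 9) (.e (nat_lit 336204) (nat_lit 12) (.e (nat_lit 385066) (nat_lit 26) (.e (nat_lit 532504) (nat_lit 1) .nil)))))) (.g (nat_lit 6) .nil .nil))) 
(.lf (nat_lit 184279) (.g (nat_lit 4007) (.e (nat_lit 57853) (nat_lit 252) (.e (nat_lit 57377) (nat_lit 3) (.e (nat_lit 98317) (nat_lit 9) (.e (nat_lit 335914) (nat_lit 0) .nil)))) .nil))) (.nd (nat_lit 6) 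
(.lf (nat_lit 184247) (.g (nat_lit 1337) (.e (nat_lit 57852) (nat_lit 252) (.e (nat_lit 57447) (nat_lit 19) (.e (nat_lit 393228) (nat_lit 9) (.e (nat_lit 336196) (nat_lit 12) (.e (nat_lit 385066) (nat_lit 26) .nil))))) .nil)) 
(.lf (nat_lit 184311) (.g (nat_lit 1762) (.e (nat_lit 57853) (nat_lit 252) (.e (nat_lit 57377) (nat_lit 3) (.e (nat_lit 98317) (nat_lit 9) (.e (nat_lit 336222) (nat_lit 13) (.e (nat_lit 393228) (nat_lit 9) .nil))))) .nil))))) (.nd (nat_lit 4) (.nd (nat_lit 5) (.nd (nat_lit 6) 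
(.lf (nat_lit 184207) (.g (nat_lit 2846) (.e (nat_lit 57852) (nat_lit 252) (.e (nat_lit 57436) (nat_lit 17) (.e (nat_lit 376842) (nat_lit 11) (.e (nat_lit 426315) (nat_lit 12) (.e (nat_lit 475212) (nat_lit 42) (.e (nat_lit 720934) (nat_lit 21) .nil)))))) (.g (nat_lit 5) .nil .nil))) 
(.lf (nat_lit 184271) (.g (nat_lit 2213) (.e (nat_lit 57853) (nat_lit 252) (.e (nat_lit 57371) (nat_lit 2) (.e (nat_lit 90160) (nat_lit 11) (.e (nat_lit 24658) (nat_lit 13) (.e (nat_lit 393229) (nat_lit 9) .nil))))) .nil))) (.nd (nat_lit 6) 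
(.lf (nat_lit 184239) (.g (nat_lit 2011) (.e (nat_lit 57852) (nat_lit 252) (.e (nat_lit 57445) (nat_lit 19) (.e (nat_lit 393229) (nat_lit 9) (.e (nat_lit 336202) (nat_lit 12) (.e (nat_lit 385065) (nat_lit 26) .nil))))) .nil)) 
(.lf (nat_lit 184303) (.g (nat_lit 4042) (.e (nat_lit 57853) (nat_lit 252) (.e (nat_lit 57377) (nat_lit 3) (.e (nat_lit 98317) (nat_lit 9) (.e (nat_lit 336194) (nat_lit 12) .nil)))) .nil)))) (.nd (nat_lit 5) (.nd (nat_lit 6) 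
(.lf (nat_lit 184223) (.g (nat_lit 1811) (.e (nat_lit 57852) (nat_lit 252) (.e (nat_lit 57445) (nat_lit 19) (.e (nat_lit 393229) (nat_lit 9) (.e (nat_lit 336084) (nat_lit 9) .nil)))) .nil)) 
(.lf (nat_lit 184287) (.g (nat_lit 3171) (.e (nat_lit 57853) (nat_lit 252) (.e (nat_lit 57377) (nat_lit 3) (.e (nat_lit 98317) (nat_lit 9) (.e (nat_lit 336075) (nat_lit 9) (.e (nat_lit 336454) (nat_lit 34) .nil))))) .nil))) (.nd (nat_lit 6) 
(.lf (nat_lit 184255) (.g (nat_lit 1625) (.e (nat_lit 57853) (nat_lit 252) (.e (nat_lit 57371) (nat_lit 2) (.e (nat_lit 90128) (nat_lit 9) (.e (nat_lit 293) (nat_lit 21) .nil)))) .nil)) 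
(.lf (nat_lit 184319) (.g (nat_lit 1502) (.e (nat_lit 57853) (nat_lit 252) (.e (nat_lit 57378) (nat_lit 3) (.e (nat_lit 98317) (nat_lit 9) (.e (nat_lit 336076) (nat_lit 9) .nil)))) .nil)))))))))

noncomputable def tv2455 : DT := (.nd (nat_lit 0) (.nd (nat_lit 1) (.nd (nat_lit 2) (.nd (nat_lit 3) (.nd (nat_lit 4) (.nd (nat_lit 5) (.nd (nat_lit 6) 
(.lf (nat_lit 184320) (.g (nat_lit 1103) (.e (nat_lit 57853) (nat_lit 252) (.e (nat_lit 57388) (nat_lit 5) (.e (nat_lit 114697) (nat_lit 11) (.e (nat_lit 426258) (nat_lit 9) (.e (nat_lit 426554) (nat_lit 32) .nil))))) .nil)) 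
(.lf (nat_lit 184384) (.g (nat_lit 1757) (.e (nat_lit 57853) (nat_lit 252) (.e (nat_lit 57419) (nat_lit 12) (.e (nat_lit 336213) (nat_lit 13) (.e (nat_lit 393279) (nat_lit 23) .nil)))) .nil))) (.nd (nat_lit 6) 
(.lf (nat_lit 184352) (.g (nat_lit 1974) (.e (nat_lit 57853) (nat_lit 252) (.e (nat_lit 57409) (nat_lit 12) (.e (nat_lit 336211) (nat_lit 13) (.e (nat_lit 393273) (nat_lit 23) (.e (nat_lit 426449) (nat_lit 20) .nil))))) .nil)) 
(.lf (nat_lit 184416) (.g (nat_lit 1768) (.e (nat_lit 57853) (nat_lit 252) (.e (nat_lit 57436) (nat_lit 17) (.e (nat_lit 376842) (nat_lit 11) (.e (nat_lit 426200) (nat_lit 9) (.e (nat_lit 433920) (nat_lit 20) .nil))))) .nil)))) (.nd (nat_lit 5) (.nd (nat_lit 6) 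
(.lf (nat_lit 184336) (.g (nat_lit 997) (.e (nat_lit 57853) (nat_lit 252) (.e (nat_lit 57406) (nat_lit 12) (.e (nat_lit 336455) (nat_lit 34) (.e (nat_lit 483382) (nat_lit 23) .nil)))) .nil)) 
(.lf (nat_lit 184400) (.g (nat_lit 1572) (.e (nat_lit 57853) (nat_lit 252) (.e (nat_lit 57430) (nat_lit 16) (.e (nat_lit 368676) (nat_lit 21) (.e (nat_lit 516174) (nat_lit 14) (.e (nat_lit 474880) (nat_lit 3) (.e (nat_lit 106240) (nat_lit 1) .nil)))))) (.g (nat_lit 4) .nil .nil)))) (.nd (nat_lit 6) 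
(.lf (nat_lit 184368) (.g (nat_lit 2615) (.e (nat_lit 57853) (nat_lit 252) (.e (nat_lit 57412) (nat_lit 12) (.e (nat_lit 336061) (nat_lit 7) (.e (nat_lit 319531) (nat_lit 16) (.e (nat_lit 286755) (nat_lit 10) (.e (nat_lit 344097) (nat_lit 18) (.e (nat_lit 5195) (nat_lit 294) (.e (nat_lit 57368) (nat_lit 1) .nil)))))))) (.g (nat_lit 4) .nil .nil))) 
(.lf (nat_lit 184432) (.g (nat_lit 2198) (.e (nat_lit 57853) (nat_lit 252) (.e (nat_lit 57445) (nat_lit 19) (.e (nat_lit 393229) (nat_lit 9) (.e (nat_lit 336084) (nat_lit 9) .nil)))) .nil))))) (.nd (nat_lit 4) (.nd (nat_lit 5) (.nd (nat_lit 6) 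
(.lf (nat_lit 184328) (.g (nat_lit 1915) (.e (nat_lit 57853) (nat_lit 252) (.e (nat_lit 57406) (nat_lit 12) (.e (nat_lit 336446) (nat_lit 33) (.e (nat_lit 475212) (nat_lit 42) (.e (nat_lit 720956) (nat_lit 25) .nil))))) .nil)) 
(.lf (nat_lit 184392) (.g (nat_lit 2403) (.e (nat_lit 57853) (nat_lit 252) (.e (nat_lit 57424) (nat_lit 14) (.e (nat_lit 352273) (nat_lit 11) (.e (nat_lit 426190) (nat_lit 9) (.e (nat_lit 426448) (nat_lit 20) (.e (nat_lit 114712) (nat_lit 21) .nil)))))) (.g (nat_lit 4) .nil .nil)))) (.nd (nat_lit 6) 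
(.lf (nat_lit 184360) (.g (nat_lit 2777) (.e (nat_lit 57853) (nat_lit 252) (.e (nat_lit 57412) (nat_lit 12) (.e (nat_lit 336061) (nat_lit 7) (.e (nat_lit 319531) (nat_lit 16) (.e (nat_lit 286742) (nat_lit 9) (.e (nat_lit 335997) (nat_lit 1) (.e (nat_lit 57848) (nat_lit 252) (.e (nat_lit 57368) (nat_lit 1) .nil)))))))) (.g (nat_lit 4) .nil .nil))) 
(.lf (nat_lit 184424) (.g (nat_lit 2923) (.e (nat_lit 57853) (nat_lit 252) (.e (nat_lit 57445) (nat_lit 19) (.e (nat_lit 393225) (nat_lit 9) (.e (nat_lit 336088) (nat_lit 9) (.e (nat_lit 336326) (nat_lit 18) (.e (nat_lit 204831) (nat_lit 18) .nil)))))) (.g (nat_lit 5) .nil .nil))))) (.nd (nat_lit 5) (.nd (nat_lit 6) 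
(.lf (nat_lit 184344) (.g (nat_lit 2356) (.e (nat_lit 57853) (nat_lit 252) (.e (nat_lit 57406) (nat_lit 12) (.e (nat_lit 336456) (nat_lit 34) (.e (nat_lit 483403) (nat_lit 26) (.e (nat_lit 385066) (nat_lit 26) .nil))))) .nil)) 
(.lf (nat_lit 184408) (.g (nat_lit 1473) (.e (nat_lit 57853) (nat_lit 252) (.e (nat_lit 57435) (nat_lit 17) (.e (nat_lit 376842) (nat_lit 11) (.e (nat_lit 426258) (nat_lit 9) .nil)))) .nil))) (.nd (nat_lit 6) 
(.lf (nat_lit 184376) (.g (nat_lit 2111) (.e (nat_lit 57853) (nat_lit 252) (.e (nat_lit 57413) (nat_lit 12) (.e (nat_lit 336054) (nat_lit 7) (.e (nat_lit 319534) (nat_lit 16) (.e (nat_lit 286749) (nat_lit 9) (.e (nat_lit 335997) (nat_lit 1) (.e (nat_lit 57848) (nat_lit 252) (.e (nat_lit 57368) (nat_lit 1) .nil)))))))) (.g (nat_lit 4) .nil .nil))) 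
(.lf (nat_lit 184440) (.g (nat_lit 4250) (.e (nat_lit 57853) (nat_lit 252) (.e (nat_lit 57445) (nat_lit 19) (.e (nat_lit 393229) (nat_lit 9) (.e (nat_lit 336088) (nat_lit 9) (.e (nat_lit 336324) (nat_lit 18) (.e (nat_lit 204831) (nat_lit 18) .nil)))))) (.g (nat_lit 0) .nil .nil))))))) (.nd (nat_lit 3) (.nd (nat_lit 4) (.nd (nat_lit 5) (.nd (nat_lit 6) 
(.lf (nat_lit 184324) (.g (nat_lit 730) (.e (nat_lit 57853) (nat_lit 252) (.e (nat_lit 57406) (nat_lit 12) (.e (nat_lit 343808) (nat_lit 13) .nil))) .nil)) 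
(.lf (nat_lit 184388) (.g (nat_lit 2987) (.e (nat_lit 57853) (nat_lit 252) (.e (nat_lit 57421) (nat_lit 13) (.e (nat_lit 344133) (nat_lit 26) (.e (nat_lit 557098) (nat_lit 13) (.e (nat_lit 172061) (nat_lit 1) (.e (nat_lit 164319) (nat_lit 228) (.e (nat_lit 57389) (nat_lit 5) (.e (nat_lit 114712) (nat_lit 21) .nil)))))))) (.g (nat_lit 4) .nil .nil)))) (.nd (nat_lit 6) 
(.lf (nat_lit 184356) (.g (nat_lit 2934) (.e (nat_lit 57853) (nat_lit 252) (.e (nat_lit 57412) (nat_lit 12) (.e (nat_lit 336054) (nat_lit 7) (.e (nat_lit 319534) (nat_lit 16) (.e (nat_lit 286756) (nat_lit 10) (.e (nat_lit 344097) (nat_lit 18) (.e (nat_lit 5195) (nat_lit 294) (.e (nat_lit 57368) (nat_lit 1) .nil)))))))) (.g (nat_lit 5) .nil .nil))) 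
(.lf (nat_lit 184420) (.g (nat_lit 597) (.e (nat_lit 57853) (nat_lit 252) (.e (nat_lit 57445) (nat_lit 19) (.e (nat_lit 393221) (nat_lit 0) .nil))) .nil)))) (.nd (nat_lit 5) (.nd (nat_lit 6) 
(.lf (nat_lit 184340) (.g (nat_lit 1902) (.e (nat_lit 57853) (nat_lit 252) (.e (nat_lit 57406) (nat_lit 12) (.e (nat_lit 336456) (nat_lit 34) (.e (nat_lit 483382) (nat_lit 23) .nil)))) .nil)) 
(.lf (nat_lit 184404) (.g (nat_lit 2449) (.e (nat_lit 57853) (nat_lit 252) (.e (nat_lit 57435) (nat_lit 17) (.e (nat_lit 376842) (nat_lit 11) (.e (nat_lit 426188) (nat_lit 9) (.e (nat_lit 433920) (nat_lit 20) .nil))))) .nil))) (.nd (nat_lit 6) 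
(.lf (nat_lit 184372) (.g (nat_lit 3729) (.e (nat_lit 57853) (nat_lit 252) (.e (nat_lit 57412) (nat_lit 12) (.e (nat_lit 336061) (nat_lit 7) (.e (nat_lit 319533) (nat_lit 16) (.e (nat_lit 286753) (nat_lit 10) (.e (nat_lit 344097) (nat_lit 18) (.e (nat_lit 5195) (nat_lit 294) (.e (nat_lit 57368) (nat_lit 1) .nil)))))))) (.g (nat_lit 5) .nil .nil))) 
(.lf (nat_lit 184436) (.g (nat_lit 2339) (.e (nat_lit 57853) (nat_lit 252) (.e (nat_lit 57445) (nat_lit 19) (.e (nat_lit 393229) (nat_lit 9) (.e (nat_lit 336086) (nat_lit 9) (.e (nat_lit 336270) (nat_lit 15) .nil))))) .nil))))) (.nd (nat_lit 4) (.nd (nat_lit 5) (.nd (nat_lit 6) 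
(.lf (nat_lit 184332) (.g (nat_lit 3039) (.e (nat_lit 57853) (nat_lit 252) (.e (nat_lit 57406) (nat_lit 12) (.e (nat_lit 336454) (nat_lit 34) (.e (nat_lit 483402) (nat_lit 26) (.e (nat_lit 385068) (nat_lit 26) .nil))))) .nil)) 
(.lf (nat_lit 184396) (.g (nat_lit 2132) (.e (nat_lit 57853) (nat_lit 252) (.e (nat_lit 57427) (nat_lit 15) (.e (nat_lit 360450) (nat_lit 0) (.e (nat_lit 6923) (nat_lit 371) .nil)))) .nil))) (.nd (nat_lit 6) 
(.lf (nat_lit 184364) (.g (nat_lit 2911) (.e (nat_lit 57853) (nat_lit 252) (.e (nat_lit 57412) (nat_lit 12) (.e (nat_lit 336061) (nat_lit 7) (.e (nat_lit 319531) (nat_lit 16) (.e (nat_lit 286750) (nat_lit 9) (.e (nat_lit 335986) (nat_lit 1) (.e (nat_lit 57847) (nat_lit 252) (.e (nat_lit 57368) (nat_lit 1) .nil)))))))) (.g (nat_lit 4) .nil .nil))) 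
(.lf (nat_lit 184428) (.g (nat_lit 3117) (.e (nat_lit 57853) (nat_lit 252) (.e (nat_lit 57445) (nat_lit 19) (.e (nat_lit 393229) (nat_lit 9) (.e (nat_lit 336074) (nat_lit 9) .nil)))) .nil)))) (.nd (nat_lit 5) (.nd (nat_lit 6) 
(.lf (nat_lit 184348) (.g (nat_lit 2175) (.e (nat_lit 57853) (nat_lit 252) (.e (nat_lit 57409) (nat_lit 12) (.e (nat_lit 336211) (nat_lit 13) (.e (nat_lit 393268) (nat_lit 23) (.e (nat_lit 426446) (nat_lit 20) (.e (nat_lit 114712) (nat_lit 21) .nil)))))) (.g (nat_lit 4) .nil .nil))) 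
(.lf (nat_lit 184412) (.g (nat_lit 3865) (.e (nat_lit 57853) (nat_lit 252) (.e (nat_lit 57436) (nat_lit 17) (.e (nat_lit 376842) (nat_lit 11) (.e (nat_lit 426188) (nat_lit 9) (.e (nat_lit 426448) (nat_lit 20) (.e (nat_lit 114710) (nat_lit 21) .nil)))))) (.g (nat_lit 0) .nil .nil)))) (.nd (nat_lit 6) 
(.lf (nat_lit 184380) (.g (nat_lit 3592) (.e (nat_lit 57853) (nat_lit 252) (.e (nat_lit 57413) (nat_lit 12) (.e (nat_lit 336060) (nat_lit 7) (.e (nat_lit 319534) (nat_lit 16) (.e (nat_lit 286756) (nat_lit 10) (.e (nat_lit 344097) (nat_lit 18) (.e (nat_lit 5195) (nat_lit 294) (.e (nat_lit 57368) (nat_lit 1) .nil)))))))) (.g (nat_lit 7) .nil .nil))) 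
(.lf (nat_lit 184444) (.g (nat_lit 4028) (.e (nat_lit 57853) (nat_lit 252) (.e (nat_lit 57445) (nat_lit 19) (.e (nat_lit 393229) (nat_lit 9) (.e (nat_lit 336107) (nat_lit 9) .nil)))) .nil))))))) (.nd (nat_lit 2) (.nd (nat_lit 3) (.nd (nat_lit 4) (.nd (nat_lit 5) (.nd (nat_lit 6) 
(.lf (nat_lit 184322) (.g (nat_lit 1656) (.e (nat_lit 57853) (nat_lit 252) (.e (nat_lit 57389) (nat_lit 5) (.e (nat_lit 114698) (nat_lit 11) (.e (nat_lit 426199) (nat_lit 9) (.e (nat_lit 426556) (nat_lit 32) .nil))))) .nil)) 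
(.lf (nat_lit 184386) (.g (nat_lit 1877) (.e (nat_lit 57853) (nat_lit 252) (.e (nat_lit 57421) (nat_lit 13) (.e (nat_lit 344117) (nat_lit 21) (.e (nat_lit 516130) (nat_lit 3) (.e (nat_lit 229120) (nat_lit 1) .nil))))) .nil))) (.nd (nat_lit 6) 
(.lf (nat_lit 184354) (.g (nat_lit 1982) (.e (nat_lit 57853) (nat_lit 252) (.e (nat_lit 57409) (nat_lit 12) (.e (nat_lit 336454) (nat_lit 34) (.e (nat_lit 483408) (nat_lit 26) .nil)))) .nil)) 
(.lf (nat_lit 184418) (.g (nat_lit 1461) (.e (nat_lit 57853) (nat_lit 252) (.e (nat_lit 57436) (nat_lit 17) (.e (nat_lit 376842) (nat_lit 11) (.e (nat_lit 426213) (nat_lit 9) .nil)))) .nil)))) (.nd (nat_lit 5) (.nd (nat_lit 6) 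
(.lf (nat_lit 184338) (.g (nat_lit 2313) (.e (nat_lit 57853) (nat_lit 252) (.e (nat_lit 57406) (nat_lit 12) (.e (nat_lit 336456) (nat_lit 34) (.e (nat_lit 483380) (nat_lit 23) (.e (nat_lit 336324) (nat_lit 18) .nil))))) .nil)) 
(.lf (nat_lit 184402) (.g (nat_lit 1335) (.e (nat_lit 57853) (nat_lit 252) (.e (nat_lit 57431) (nat_lit 16) (.e (nat_lit 368676) (nat_lit 21) (.e (nat_lit 516174) (nat_lit 14) (.e (nat_lit 474880) (nat_lit 3) (.e (nat_lit 106240) (nat_lit 1) .nil)))))) (.g (nat_lit 4) .nil .nil)))) (.nd (nat_lit 6) 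
(.lf (nat_lit 184370) (.g (nat_lit 2520) (.e (nat_lit 57853) (nat_lit 252) (.e (nat_lit 57412) (nat_lit 12) (.e (nat_lit 336061) (nat_lit 7) (.e (nat_lit 319531) (nat_lit 16) (.e (nat_lit 286757) (nat_lit 11) .nil))))) .nil)) 
(.lf (nat_lit 184434) (.g (nat_lit 1885) (.e (nat_lit 57853) (nat_lit 252) (.e (nat_lit 57445) (nat_lit 19) (.e (nat_lit 393229) (nat_lit 9) (.e (nat_lit 336085) (nat_lit 9) .nil)))) .nil))))) (.nd (nat_lit 4) (.nd (nat_lit 5) (.nd (nat_lit 6) 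
(.lf (nat_lit 184330) (.g (nat_lit 276) (.e (nat_lit 57853) (nat_lit 252) (.e (nat_lit 57406) (nat_lit 12) (.e (nat_lit 336454) (nat_lit 34) .nil))) .nil)) 
(.lf (nat_lit 184394) (.g (nat_lit 598) (.e (nat_lit 57853) (nat_lit 252) (.e (nat_lit 57424) (nat_lit 14) (.e (nat_lit 352277) (nat_lit 11) .nil))) .nil))) (.nd (nat_lit 6) 
(.lf (nat_lit 184362) (.g (nat_lit 2789) (.e (nat_lit 57853) (nat_lit 252) (.e (nat_lit 57412) (nat_lit 12) (.e (nat_lit 336061) (nat_lit 7) (.e (nat_lit 319531) (nat_lit 16) (.e (nat_lit 286747) (nat_lit 9) (.e (nat_lit 335997) (nat_lit 1) (.e (nat_lit 57848) (nat_lit 252) (.e (nat_lit 57368) (nat_lit 1) .nil)))))))) (.g (nat_lit 4) .nil .nil))) 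
(.lf (nat_lit 184426) (.g (nat_lit 3951) (.e (nat_lit 57853) (nat_lit 252) (.e (nat_lit 57445) (nat_lit 19) (.e (nat_lit 393229) (nat_lit 9) (.e (nat_lit 335914) (nat_lit 0) .nil)))) .nil)))) (.nd (nat_lit 5) (.nd (nat_lit 6) 
(.lf (nat_lit 184346) (.g (nat_lit 1940) (.e (nat_lit 57853) (nat_lit 252) (.e (nat_lit 57406) (nat_lit 12) (.e (nat_lit 336456) (nat_lit 34) (.e (nat_lit 483405) (nat_lit 26) .nil)))) .nil)) 
(.lf (nat_lit 184410) (.g (nat_lit 746) (.e (nat_lit 57853) (nat_lit 252) (.e (nat_lit 57436) (nat_lit 17) (.e (nat_lit 376839) (nat_lit 11) (.e (nat_lit 426262) (nat_lit 9) .nil)))) .nil))) (.nd (nat_lit 6) 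
(.lf (nat_lit 184378) (.g (nat_lit 2067) (.e (nat_lit 57853) (nat_lit 252) (.e (nat_lit 57413) (nat_lit 12) (.e (nat_lit 336056) (nat_lit 7) (.e (nat_lit 319533) (nat_lit 16) (.e (nat_lit 286753) (nat_lit 10) (.e (nat_lit 344097) (nat_lit 18) (.e (nat_lit 5194) (nat_lit 294) (.e (nat_lit 57368) (nat_lit 1) .nil)))))))) (.g (nat_lit 4) .nil .nil))) 
(.lf (nat_lit 184442) (.g (nat_lit 4067) (.e (nat_lit 57853) (nat_lit 252) (.e (nat_lit 57445) (nat_lit 19) (.e (nat_lit 393229) (nat_lit 9) (.e (nat_lit 336100) (nat_lit 9) .nil)))) .nil)))))) (.nd (nat_lit 3) (.nd (nat_lit 4) (.nd (nat_lit 5) (.nd (nat_lit 6) 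
(.lf (nat_lit 184326) (.g (nat_lit 1255) (.e (nat_lit 57853) (nat_lit 252) (.e (nat_lit 57406) (nat_lit 12) (.e (nat_lit 336367) (nat_lit 27) (.e (nat_lit 426530) (nat_lit 27) .nil)))) .nil)) 
(.lf (nat_lit 184390) (.g (nat_lit 719) (.e (nat_lit 57853) (nat_lit 252) (.e (nat_lit 57423) (nat_lit 14) (.e (nat_lit 352277) (nat_lit 11) .nil))) .nil))) (.nd (nat_lit 6) 
(.lf (nat_lit 184358) (.g (nat_lit 3010) (.e (nat_lit 57853) (nat_lit 252) (.e (nat_lit 57412) (nat_lit 12) (.e (nat_lit 336058) (nat_lit 7) (.e (nat_lit 319534) (nat_lit 16) (.e (nat_lit 286756) (nat_lit 10) (.e (nat_lit 344097) (nat_lit 18) (.e (nat_lit 5194) (nat_lit 294) (.e (nat_lit 57368) (nat_lit 1) .nil)))))))) (.g (nat_lit 5) .nil .nil))) 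
(.lf (nat_lit 184422) (.g (nat_lit 1685) (.e (nat_lit 57853) (nat_lit 252) (.e (nat_lit 57445) (nat_lit 19) (.e (nat_lit 393225) (nat_lit 9) (.e (nat_lit 336075) (nat_lit 9) (.e (nat_lit 336324) (nat_lit 18) .nil))))) .nil)))) (.nd (nat_lit 5) (.nd (nat_lit 6) 
(.lf (nat_lit 184342) (.g (nat_lit 1818) (.e (nat_lit 57853) (nat_lit 252) (.e (nat_lit 57406) (nat_lit 12) (.e (nat_lit 336456) (nat_lit 34) (.e (nat_lit 483402) (nat_lit 26) .nil)))) .nil)) 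
(.lf (nat_lit 184406) (.g (nat_lit 1426) (.e (nat_lit 57853) (nat_lit 252) (.e (nat_lit 57435) (nat_lit 17) (.e (nat_lit 376842) (nat_lit 11) (.e (nat_lit 426204) (nat_lit 9) .nil)))) .nil))) (.nd (nat_lit 6) 
(.lf (nat_lit 184374) (.g (nat_lit 1210) (.e (nat_lit 57853) (nat_lit 252) (.e (nat_lit 57412) (nat_lit 12) (.e (nat_lit 336073) (nat_lit 9) (.e (nat_lit 336428) (nat_lit 29) (.e (nat_lit 450304) (nat_lit 5) .nil))))) .nil)) 
(.lf (nat_lit 184438) (.g (nat_lit 2361) (.e (nat_lit 57853) (nat_lit 252) (.e (nat_lit 57445) (nat_lit 19) (.e (nat_lit 393229) (nat_lit 9) (.e (nat_lit 336086) (nat_lit 9) (.e (nat_lit 343808) (nat_lit 18) .nil))))) .nil))))) (.nd (nat_lit 4) (.nd (nat_lit 5) (.nd (nat_lit 6) 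
(.lf (nat_lit 184334) (.g (nat_lit 1815) (.e (nat_lit 57853) (nat_lit 252) (.e (nat_lit 57406) (nat_lit 12) (.e (nat_lit 336454) (nat_lit 34) (.e (nat_lit 483408) (nat_lit 26) .nil)))) .nil)) 
(.lf (nat_lit 184398) (.g (nat_lit 1931) (.e (nat_lit 57853) (nat_lit 252) (.e (nat_lit 57427) (nat_lit 15) (.e (nat_lit 360451) (nat_lit 0) (.e (nat_lit 6923) (nat_lit 371) .nil)))) .nil))) (.nd (nat_lit 6) 
(.lf (nat_lit 184366) (.g (nat_lit 2520) (.e (nat_lit 57853) (nat_lit 252) (.e (nat_lit 57412) (nat_lit 12) (.e (nat_lit 336061) (nat_lit 7) (.e (nat_lit 319531) (nat_lit 16) (.e (nat_lit 286753) (nat_lit 10) .nil))))) .nil)) 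
(.lf (nat_lit 184430) (.g (nat_lit 4133) (.e (nat_lit 57853) (nat_lit 252) (.e (nat_lit 57445) (nat_lit 19) (.e (nat_lit 393229) (nat_lit 9) (.e (nat_lit 336076) (nat_lit 9) (.e (nat_lit 336324) (nat_lit 18) (.e (nat_lit 204831) (nat_lit 18) .nil)))))) (.g (nat_lit 0) .nil .nil))))) (.nd (nat_lit 5) (.nd (nat_lit 6) 
(.lf (nat_lit 184350) (.g (nat_lit 1948) (.e (nat_lit 57853) (nat_lit 252) (.e (nat_lit 57409) (nat_lit 12) (.e (nat_lit 336211) (nat_lit 13) (.e (nat_lit 393270) (nat_lit 23) (.e (nat_lit 426446) (nat_lit 20) (.e (nat_lit 114712) (nat_lit 21) .nil)))))) (.g (nat_lit 4) .nil .nil))) 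
(.lf (nat_lit 184414) (.g (nat_lit 2347) (.e (nat_lit 57853) (nat_lit 252) (.e (nat_lit 57436) (nat_lit 17) (.e (nat_lit 376842) (nat_lit 11) (.e (nat_lit 426188) (nat_lit 9) (.e (nat_lit 433920) (nat_lit 20) .nil))))) .nil))) (.nd (nat_lit 6) 
(.lf (nat_lit 184382) (.g (nat_lit 1771) (.e (nat_lit 57853) (nat_lit 252) (.e (nat_lit 57419) (nat_lit 12) (.e (nat_lit 336213) (nat_lit 13) (.e (nat_lit 393273) (nat_lit 23) (.e (nat_lit 426448) (nat_lit 20) .nil))))) .nil)) 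
(.lf (nat_lit 184446) (.g (nat_lit 4233) (.e (nat_lit 57853) (nat_lit 252) (.e (nat_lit 57445) (nat_lit 19) (.e (nat_lit 393229) (nat_lit 9) (.e (nat_lit 336155) (nat_lit 9) .nil)))) .nil)))))))) (.nd (nat_lit 1) (.nd (nat_lit 2) (.nd (nat_lit 3) (.nd (nat_lit 4) (.nd (nat_lit 5) (.nd (nat_lit 6) 
(.lf (nat_lit 184321) (.g (nat_lit 1722) (.e (nat_lit 57853) (nat_lit 252) (.e (nat_lit 57388) (nat_lit 5) (.e (nat_lit 114698) (nat_lit 11) (.e (nat_lit 426198) (nat_lit 9) (.e (nat_lit 426556) (nat_lit 32) .nil))))) .nil)) 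
(.lf (nat_lit 184385) (.g (nat_lit 2291) (.e (nat_lit 57853) (nat_lit 252) (.e (nat_lit 57421) (nat_lit 13) (.e (nat_lit 344117) (nat_lit 21) (.e (nat_lit 516129) (nat_lit 3) (.e (nat_lit 229120) (nat_lit 1) .nil))))) .nil))) (.nd (nat_lit 6) 
(.lf (nat_lit 184353) (.g (nat_lit 1001) (.e (nat_lit 57853) (nat_lit 252) (.e (nat_lit 57409) (nat_lit 12) (.e (nat_lit 336454) (nat_lit 34) .nil))) .nil)) 
(.lf (nat_lit 184417) (.g (nat_lit 1361) (.e (nat_lit 57853) (nat_lit 252) (.e (nat_lit 57436) (nat_lit 17) (.e (nat_lit 376842) (nat_lit 11) (.e (nat_lit 426204) (nat_lit 9) .nil)))) .nil)))) (.nd (nat_lit 5) (.nd (nat_lit 6) 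
(.lf (nat_lit 184337) (.g (nat_lit 1772) (.e (nat_lit 57853) (nat_lit 252) (.e (nat_lit 57406) (nat_lit 12) (.e (nat_lit 336456) (nat_lit 34) (.e (nat_lit 483378) (nat_lit 23) .nil)))) .nil)) 
(.lf (nat_lit 184401) (.g (nat_lit 2077) (.e (nat_lit 57853) (nat_lit 252) (.e (nat_lit 57430) (nat_lit 16) (.e (nat_lit 368676) (nat_lit 21) (.e (nat_lit 516176) (nat_lit 14) (.e (nat_lit 474880) (nat_lit 3) (.e (nat_lit 106240) (nat_lit 1) .nil)))))) (.g (nat_lit 4) .nil .nil)))) (.nd (nat_lit 6) 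
(.lf (nat_lit 184369) (.g (nat_lit 3714) (.e (nat_lit 57853) (nat_lit 252) (.e (nat_lit 57412) (nat_lit 12) (.e (nat_lit 336061) (nat_lit 7) (.e (nat_lit 319531) (nat_lit 16) (.e (nat_lit 286756) (nat_lit 10) (.e (nat_lit 344097) (nat_lit 18) (.e (nat_lit 5195) (nat_lit 294) (.e (nat_lit 57368) (nat_lit 1) .nil)))))))) (.g (nat_lit 5) .nil .nil))) 
(.lf (nat_lit 184433) (.g (nat_lit 2425) (.e (nat_lit 57853) (nat_lit 252) (.e (nat_lit 57445) (nat_lit 19) (.e (nat_lit 393229) (nat_lit 9) (.e (nat_lit 336084) (nat_lit 9) (.e (nat_lit 336326) (nat_lit 18) .nil))))) .nil))))) (.nd (nat_lit 4) (.nd (nat_lit 5) (.nd (nat_lit 6) 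
(.lf (nat_lit 184329) (.g (nat_lit 2001) (.e (nat_lit 57853) (nat_lit 252) (.e (nat_lit 57406) (nat_lit 12) (.e (nat_lit 336446) (nat_lit 33) (.e (nat_lit 475214) (nat_lit 42) (.e (nat_lit 720956) (nat_lit 25) .nil))))) .nil)) 
(.lf (nat_lit 184393) (.g (nat_lit 1588) (.e (nat_lit 57853) (nat_lit 252) (.e (nat_lit 57424) (nat_lit 14) (.e (nat_lit 352274) (nat_lit 11) (.e (nat_lit 426190) (nat_lit 9) (.e (nat_lit 426448) (nat_lit 20) .nil))))) .nil))) (.nd (nat_lit 6) 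
(.lf (nat_lit 184361) (.g (nat_lit 2147) (.e (nat_lit 57853) (nat_lit 252) (.e (nat_lit 57412) (nat_lit 12) (.e (nat_lit 336061) (nat_lit 7) (.e (nat_lit 319531) (nat_lit 16) (.e (nat_lit 286743) (nat_lit 9) .nil))))) .nil)) 
(.lf (nat_lit 184425) (.g (nat_lit 1512) (.e (nat_lit 57853) (nat_lit 252) (.e (nat_lit 57445) (nat_lit 19) (.e (nat_lit 393225) (nat_lit 9) (.e (nat_lit 336195) (nat_lit 12) .nil)))) .nil)))) (.nd (nat_lit 5) (.nd (nat_lit 6) 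
(.lf (nat_lit 184345) (.g (nat_lit 1969) (.e (nat_lit 57853) (nat_lit 252) (.e (nat_lit 57406) (nat_lit 12) (.e (nat_lit 336456) (nat_lit 34) (.e (nat_lit 483404) (nat_lit 26) .nil)))) .nil)) 
(.lf (nat_lit 184409) (.g (nat_lit 1062) (.e (nat_lit 57853) (nat_lit 252) (.e (nat_lit 57435) (nat_lit 17) (.e (nat_lit 376842) (nat_lit 11) (.e (nat_lit 426308) (nat_lit 12) .nil)))) .nil))) (.nd (nat_lit 6) 
(.lf (nat_lit 184377) (.g (nat_lit 2471) (.e (nat_lit 57853) (nat_lit 252) (.e (nat_lit 57413) (nat_lit 12) (.e (nat_lit 336054) (nat_lit 7) (.e (nat_lit 319534) (nat_lit 16) (.e (nat_lit 286756) (nat_lit 10) (.e (nat_lit 344097) (nat_lit 18) (.e (nat_lit 5195) (nat_lit 294) (.e (nat_lit 57368) (nat_lit 1) .nil)))))))) (.g (nat_lit 5) .nil .nil))) 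
(.lf (nat_lit 184441) (.g (nat_lit 3916) (.e (nat_lit 57853) (nat_lit 252) (.e (nat_lit 57445) (nat_lit 19) (.e (nat_lit 393229) (nat_lit 9) (.e (nat_lit 336091) (nat_lit 9) .nil)))) .nil)))))) (.nd (nat_lit 3) (.nd (nat_lit 4) (.nd (nat_lit 5) (.nd (nat_lit 6) 
(.lf (nat_lit 184325) (.g (nat_lit 746) (.e (nat_lit 57853) (nat_lit 252) (.e (nat_lit 57406) (nat_lit 12) (.e (nat_lit 336367) (nat_lit 27) .nil))) .nil)) 
(.lf (nat_lit 184389) (.g (nat_lit 706) (.e (nat_lit 57853) (nat_lit 252) (.e (nat_lit 57423) (nat_lit 14) (.e (nat_lit 352276) (nat_lit 11) .nil))) .nil))) (.nd (nat_lit 6) 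
(.lf (nat_lit 184357) (.g (nat_lit 3000) (.e (nat_lit 57853) (nat_lit 252) (.e (nat_lit 57412) (nat_lit 12) (.e (nat_lit 336058) (nat_lit 7) (.e (nat_lit 319533) (nat_lit 16) (.e (nat_lit 286753) (nat_lit 10) (.e (nat_lit 344097) (nat_lit 18) (.e (nat_lit 5195) (nat_lit 294) (.e (nat_lit 57368) (nat_lit 1) .nil)))))))) (.g (nat_lit 5) .nil .nil))) 
(.lf (nat_lit 184421) (.g (nat_lit 1192) (.e (nat_lit 57853) (nat_lit 252) (.e (nat_lit 57445) (nat_lit 19) (.e (nat_lit 393221) (nat_lit 0) (.e (nat_lit 6466) (nat_lit 343) .nil)))) .nil)))) (.nd (nat_lit 5) (.nd (nat_lit 6) 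
(.lf (nat_lit 184341) (.g (nat_lit 2576) (.e (nat_lit 57853) (nat_lit 252) (.e (nat_lit 57406) (nat_lit 12) (.e (nat_lit 336456) (nat_lit 34) (.e (nat_lit 483383) (nat_lit 23) (.e (nat_lit 336326) (nat_lit 18) .nil))))) .nil)) 
(.lf (nat_lit 184405) (.g (nat_lit 1790) (.e (nat_lit 57853) (nat_lit 252) (.e (nat_lit 57435) (nat_lit 17) (.e (nat_lit 376842) (nat_lit 11) (.e (nat_lit 426200) (nat_lit 9) (.e (nat_lit 433920) (nat_lit 20) .nil))))) .nil))) (.nd (nat_lit 6) 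
(.lf (nat_lit 184373) (.g (nat_lit 3429) (.e (nat_lit 57853) (nat_lit 252) (.e (nat_lit 57412) (nat_lit 12) (.e (nat_lit 336061) (nat_lit 7) (.e (nat_lit 319534) (nat_lit 16) (.e (nat_lit 286756) (nat_lit 10) (.e (nat_lit 344097) (nat_lit 18) (.e (nat_lit 5194) (nat_lit 294) (.e (nat_lit 57368) (nat_lit 1) .nil)))))))) (.g (nat_lit 5) .nil .nil))) 
(.lf (nat_lit 184437) (.g (nat_lit 1803) (.e (nat_lit 57853) (nat_lit 252) (.e (nat_lit 57445) (nat_lit 19) (.e (nat_lit 393229) (nat_lit 9) (.e (nat_lit 336086) (nat_lit 9) (.e (nat_lit 336306) (nat_lit 15) .nil))))) .nil))))) (.nd (nat_lit 4) (.nd (nat_lit 5) (.nd (nat_lit 6) 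
(.lf (nat_lit 184333) (.g (nat_lit 2619) (.e (nat_lit 57853) (nat_lit 252) (.e (nat_lit 57406) (nat_lit 12) (.e (nat_lit 336454) (nat_lit 34) (.e (nat_lit 483407) (nat_lit 26) (.e (nat_lit 385068) (nat_lit 26) .nil))))) .nil)) 
(.lf (nat_lit 184397) (.g (nat_lit 2350) (.e (nat_lit 57853) (nat_lit 252) (.e (nat_lit 57427) (nat_lit 15) (.e (nat_lit 360450) (nat_lit 0) (.e (nat_lit 6923) (nat_lit 371) (.e (nat_lit 2628) (nat_lit 164) .nil))))) .nil))) (.nd (nat_lit 6) 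
(.lf (nat_lit 184365) (.g (nat_lit 2726) (.e (nat_lit 57853) (nat_lit 252) (.e (nat_lit 57412) (nat_lit 12) (.e (nat_lit 336061) (nat_lit 7) (.e (nat_lit 319531) (nat_lit 16) (.e (nat_lit 286751) (nat_lit 10) (.e (nat_lit 344097) (nat_lit 18) (.e (nat_lit 5194) (nat_lit 294) (.e (nat_lit 57368) (nat_lit 1) .nil)))))))) (.g (nat_lit 4) .nil .nil))) 
(.lf (nat_lit 184429) (.g (nat_lit 2476) (.e (nat_lit 57853) (nat_lit 252) (.e (nat_lit 57445) (nat_lit 19) (.e (nat_lit 393229) (nat_lit 9) (.e (nat_lit 336075) (nat_lit 9) .nil)))) .nil)))) (.nd (nat_lit 5) (.nd (nat_lit 6) 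
(.lf (nat_lit 184349) (.g (nat_lit 1617) (.e (nat_lit 57853) (nat_lit 252) (.e (nat_lit 57409) (nat_lit 12) (.e (nat_lit 336211) (nat_lit 13) (.e (nat_lit 393268) (nat_lit 23) (.e (nat_lit 426449) (nat_lit 20) .nil))))) .nil)) 
(.lf (nat_lit 184413) (.g (nat_lit 3504) (.e (nat_lit 57853) (nat_lit 252) (.e (nat_lit 57436) (nat_lit 17) (.e (nat_lit 376842) (nat_lit 11) (.e (nat_lit 426188) (nat_lit 9) (.e (nat_lit 426448) (nat_lit 20) (.e (nat_lit 114711) (nat_lit 21) .nil)))))) (.g (nat_lit 6) .nil .nil)))) (.nd (nat_lit 6) 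
(.lf (nat_lit 184381) (.g (nat_lit 1039) (.e (nat_lit 57853) (nat_lit 252) (.e (nat_lit 57419) (nat_lit 12) (.e (nat_lit 336213) (nat_lit 13) (.e (nat_lit 393269) (nat_lit 23) .nil)))) .nil)) 
(.lf (nat_lit 184445) (.g (nat_lit 3845) (.e (nat_lit 57853) (nat_lit 252) (.e (nat_lit 57445) (nat_lit 19) (.e (nat_lit 393229) (nat_lit 9) (.e (nat_lit 336150) (nat_lit 9) .nil)))) .nil))))))) (.nd (nat_lit 2) (.nd (nat_lit 3) (.nd (nat_lit 4) (.nd (nat_lit 5) (.nd (nat_lit 6) 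
(.lf (nat_lit 184323) (.g (nat_lit 754) (.e (nat_lit 57853) (nat_lit 252) (.e (nat_lit 57406) (nat_lit 12) (.e (nat_lit 336211) (nat_lit 13) .nil))) .nil)) 
(.lf (nat_lit 184387) (.g (nat_lit 1610) (.e (nat_lit 57853) (nat_lit 252) (.e (nat_lit 57421) (nat_lit 13) (.e (nat_lit 344130) (nat_lit 26) (.e (nat_lit 557104) (nat_lit 14) (.e (nat_lit 188160) (nat_lit 0) .nil))))) .nil))) (.nd (nat_lit 6) 
(.lf (nat_lit 184355) (.g (nat_lit 2354) (.e (nat_lit 57853) (nat_lit 252) (.e (nat_lit 57412) (nat_lit 12) (.e (nat_lit 336054) (nat_lit 7) (.e (nat_lit 319534) (nat_lit 16) (.e (nat_lit 286756) (nat_lit 10) (.e (nat_lit 344097) (nat_lit 18) (.e (nat_lit 5194) (nat_lit 294) (.e (nat_lit 57368) (nat_lit 1) .nil)))))))) (.g (nat_lit 4) .nil .nil))) 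
(.lf (nat_lit 184419) (.g (nat_lit 1795) (.e (nat_lit 57853) (nat_lit 252) (.e (nat_lit 57440) (nat_lit 18) (.e (nat_lit 385066) (nat_lit 26) (.e (nat_lit 532560) (nat_lit 14) (.e (nat_lit 376860) (nat_lit 21) .nil))))) .nil)))) (.nd (nat_lit 5) (.nd (nat_lit 6) 
(.lf (nat_lit 184339) (.g (nat_lit 2253) (.e (nat_lit 57853) (nat_lit 252) (.e (nat_lit 57406) (nat_lit 12) (.e (nat_lit 336456) (nat_lit 34) (.e (nat_lit 483380) (nat_lit 23) (.e (nat_lit 336326) (nat_lit 18) .nil))))) .nil)) 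
(.lf (nat_lit 184403) (.g (nat_lit 1639) (.e (nat_lit 57853) (nat_lit 252) (.e (nat_lit 57431) (nat_lit 16) (.e (nat_lit 368676) (nat_lit 21) (.e (nat_lit 516176) (nat_lit 14) (.e (nat_lit 474880) (nat_lit 3) (.e (nat_lit 106240) (nat_lit 1) .nil)))))) (.g (nat_lit 4) .nil .nil)))) (.nd (nat_lit 6) 
(.lf (nat_lit 184371) (.g (nat_lit 1898) (.e (nat_lit 57853) (nat_lit 252) (.e (nat_lit 57412) (nat_lit 12) (.e (nat_lit 336061) (nat_lit 7) (.e (nat_lit 319532) (nat_lit 16) (.e (nat_lit 286749) (nat_lit 9) .nil))))) .nil)) 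
(.lf (nat_lit 184435) (.g (nat_lit 1254) (.e (nat_lit 57853) (nat_lit 252) (.e (nat_lit 57445) (nat_lit 19) (.e (nat_lit 393229) (nat_lit 9) (.e (nat_lit 336086) (nat_lit 9) .nil)))) .nil))))) (.nd (nat_lit 4) (.nd (nat_lit 5) (.nd (nat_lit 6) 
(.lf (nat_lit 184331) (.g (nat_lit 3073) (.e (nat_lit 57853) (nat_lit 252) (.e (nat_lit 57406) (nat_lit 12) (.e (nat_lit 336454) (nat_lit 34) (.e (nat_lit 483379) (nat_lit 23) .nil)))) .nil)) 
(.lf (nat_lit 184395) (.g (nat_lit 1129) (.e (nat_lit 57853) (nat_lit 252) (.e (nat_lit 57424) (nat_lit 14) (.e (nat_lit 352277) (nat_lit 11) (.e (nat_lit 426308) (nat_lit 12) .nil)))) .nil))) (.nd (nat_lit 6) 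
(.lf (nat_lit 184363) (.g (nat_lit 3394) (.e (nat_lit 57853) (nat_lit 252) (.e (nat_lit 57412) (nat_lit 12) (.e (nat_lit 336061) (nat_lit 7) (.e (nat_lit 319531) (nat_lit 16) (.e (nat_lit 286749) (nat_lit 9) (.e (nat_lit 335997) (nat_lit 1) (.e (nat_lit 57848) (nat_lit 252) (.e (nat_lit 57368) (nat_lit 1) .nil)))))))) (.g (nat_lit 5) .nil .nil))) 
(.lf (nat_lit 184427) (.g (nat_lit 2246) (.e (nat_lit 57853) (nat_lit 252) (.e (nat_lit 57445) (nat_lit 19) (.e (nat_lit 393229) (nat_lit 9) (.e (nat_lit 336073) (nat_lit 9) .nil)))) .nil)))) (.nd (nat_lit 5) (.nd (nat_lit 6) 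
(.lf (nat_lit 184347) (.g (nat_lit 1747) (.e (nat_lit 57853) (nat_lit 252) (.e (nat_lit 57406) (nat_lit 12) (.e (nat_lit 336456) (nat_lit 34) (.e (nat_lit 483406) (nat_lit 26) .nil)))) .nil)) 
(.lf (nat_lit 184411) (.g (nat_lit 392) (.e (nat_lit 57853) (nat_lit 252) (.e (nat_lit 57436) (nat_lit 17) (.e (nat_lit 376842) (nat_lit 11) .nil))) .nil))) (.nd (nat_lit 6) 
(.lf (nat_lit 184379) (.g (nat_lit 2989) (.e (nat_lit 57853) (nat_lit 252) (.e (nat_lit 57413) (nat_lit 12) (.e (nat_lit 336056) (nat_lit 7) (.e (nat_lit 319534) (nat_lit 16) (.e (nat_lit 286756) (nat_lit 10) (.e (nat_lit 344097) (nat_lit 18) (.e (nat_lit 5195) (nat_lit 294) (.e (nat_lit 57368) (nat_lit 1) .nil)))))))) (.g (nat_lit 5) .nil .nil))) 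
(.lf (nat_lit 184443) (.g (nat_lit 4210) (.e (nat_lit 57853) (nat_lit 252) (.e (nat_lit 57445) (nat_lit 19) (.e (nat_lit 393229) (nat_lit 9) (.e (nat_lit 336105) (nat_lit 9) .nil)))) .nil)))))) (.nd (nat_lit 3) (.nd (nat_lit 4) (.nd (nat_lit 5) (.nd (nat_lit 6) 
(.lf (nat_lit 184327) (.g (nat_lit 1830) (.e (nat_lit 57853) (nat_lit 252) (.e (nat_lit 57406) (nat_lit 12) (.e (nat_lit 336445) (nat_lit 33) (.e (nat_lit 475214) (nat_lit 42) (.e (nat_lit 720956) (nat_lit 25) .nil))))) .nil)) 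
(.lf (nat_lit 184391) (.g (nat_lit 740) (.e (nat_lit 57853) (nat_lit 252) (.e (nat_lit 57424) (nat_lit 14) (.e (nat_lit 352273) (nat_lit 11) .nil))) .nil))) (.nd (nat_lit 6) 
(.lf (nat_lit 184359) (.g (nat_lit 1929) (.e (nat_lit 57853) (nat_lit 252) (.e (nat_lit 57412) (nat_lit 12) (.e (nat_lit 336061) (nat_lit 7) (.e (nat_lit 319529) (nat_lit 16) (.e (nat_lit 286749) (nat_lit 9) .nil))))) .nil)) 
(.lf (nat_lit 184423) (.g (nat_lit 1723) (.e (nat_lit 57853) (nat_lit 252) (.e (nat_lit 57445) (nat_lit 19) (.e (nat_lit 393225) (nat_lit 9) (.e (nat_lit 336077) (nat_lit 9) (.e (nat_lit 336324) (nat_lit 18) .nil))))) .nil)))) (.nd (nat_lit 5) (.nd (nat_lit 6) 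
(.lf (nat_lit 184343) (.g (nat_lit 1712) (.e (nat_lit 57853) (nat_lit 252) (.e (nat_lit 57406) (nat_lit 12) (.e (nat_lit 336456) (nat_lit 34) (.e (nat_lit 483403) (nat_lit 26) .nil)))) .nil)) 
(.lf (nat_lit 184407) (.g (nat_lit 1517) (.e (nat_lit 57853) (nat_lit 252) (.e (nat_lit 57435) (nat_lit 17) (.e (nat_lit 376842) (nat_lit 11) (.e (nat_lit 426213) (nat_lit 9) .nil)))) .nil))) (.nd (nat_lit 6) 
(.lf (nat_lit 184375) (.g (nat_lit 1746) (.e (nat_lit 57853) (nat_lit 252) (.e (nat_lit 57413) (nat_lit 12) (.e (nat_lit 336054) (nat_lit 7) (.e (nat_lit 319533) (nat_lit 16) (.e (nat_lit 286753) (nat_lit 10) (.e (nat_lit 344097) (nat_lit 18) (.e (nat_lit 5195) (nat_lit 294) (.e (nat_lit 57368) (nat_lit 1) .nil)))))))) (.g (nat_lit 4) .nil .nil))) 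
(.lf (nat_lit 184439) (.g (nat_lit 2512) (.e (nat_lit 57853) (nat_lit 252) (.e (nat_lit 57445) (nat_lit 19) (.e (nat_lit 393229) (nat_lit 9) (.e (nat_lit 336087) (nat_lit 9) .nil)))) .nil))))) (.nd (nat_lit 4) (.nd (nat_lit 5) (.nd (nat_lit 6) 
(.lf (nat_lit 184335) (.g (nat_lit 2614) (.e (nat_lit 57853) (nat_lit 252) (.e (nat_lit 57406) (nat_lit 12) (.e (nat_lit 336454) (nat_lit 34) (.e (nat_lit 483408) (nat_lit 26) (.e (nat_lit 385066) (nat_lit 26) .nil))))) .nil)) 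
(.lf (nat_lit 184399) (.g (nat_lit 814) (.e (nat_lit 57853) (nat_lit 252) (.e (nat_lit 57427) (nat_lit 15) (.e (nat_lit 360487) (nat_lit 19) .nil))) .nil))) (.nd (nat_lit 6) 
(.lf (nat_lit 184367) (.g (nat_lit 2340) (.e (nat_lit 57853) (nat_lit 252) (.e (nat_lit 57412) (nat_lit 12) (.e (nat_lit 336061) (nat_lit 7) (.e (nat_lit 319531) (nat_lit 16) (.e (nat_lit 286755) (nat_lit 10) .nil))))) .nil)) 
(.lf (nat_lit 184431) (.g (nat_lit 2242) (.e (nat_lit 57853) (nat_lit 252) (.e (nat_lit 57445) (nat_lit 19) (.e (nat_lit 393229) (nat_lit 9) (.e (nat_lit 336077) (nat_lit 9) (.e (nat_lit 336326) (nat_lit 18) .nil))))) .nil)))) (.nd (nat_lit 5) (.nd (nat_lit 6) 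
(.lf (nat_lit 184351) (.g (nat_lit 2419) (.e (nat_lit 57853) (nat_lit 252) (.e (nat_lit 57409) (nat_lit 12) (.e (nat_lit 336211) (nat_lit 13) (.e (nat_lit 393273) (nat_lit 23) (.e (nat_lit 426446) (nat_lit 20) (.e (nat_lit 114712) (nat_lit 21) .nil)))))) (.g (nat_lit 4) .nil .nil))) 
(.lf (nat_lit 184415) (.g (nat_lit 2821) (.e (nat_lit 57853) (nat_lit 252) (.e (nat_lit 57436) (nat_lit 17) (.e (nat_lit 376842) (nat_lit 11) (.e (nat_lit 426198) (nat_lit 9) (.e (nat_lit 426446) (nat_lit 20) (.e (nat_lit 114712) (nat_lit 21) .nil)))))) (.g (nat_lit 5) .nil .nil)))) (.nd (nat_lit 6) 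
(.lf (nat_lit 184383) (.g (nat_lit 1945) (.e (nat_lit 57853) (nat_lit 252) (.e (nat_lit 57419) (nat_lit 12) (.e (nat_lit 336213) (nat_lit 13) (.e (nat_lit 393273) (nat_lit 23) (.e (nat_lit 426449) (nat_lit 20) .nil))))) .nil)) 
(.lf (nat_lit 184447) (.g (nat_lit 2214) (.e (nat_lit 57853) (nat_lit 252) (.e (nat_lit 57445) (nat_lit 19) (.e (nat_lit 393229) (nat_lit 9) (.e (nat_lit 343808) (nat_lit 9) .nil)))) .nil)))))))))

noncomputable def tv2456 : DT := (.nd (nat_lit 0) (.nd (nat_lit 1) (.nd (nat_lit 2) (.nd (nat_lit 3) (.nd (nat_lit 4) (.nd (nat_lit 5) (.nd (nat_lit 6) 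
(.lf (nat_lit 184448) (.g (nat_lit 2919) (.e (nat_lit 57853) (nat_lit 252) (.e (nat_lit 57445) (nat_lit 19) (.e (nat_lit 393229) (nat_lit 9) (.e (nat_lit 336195) (nat_lit 12) .nil)))) .nil)) 
(.lf (nat_lit 184512) (.g (nat_lit 2706) (.e (nat_lit 57854) (nat_lit 252) (.e (nat_lit 57371) (nat_lit 2) (.e (nat_lit 90158) (nat_lit 11) (.e (nat_lit 24655) (nat_lit 13) (.e (nat_lit 393224) (nat_lit 9) (.e (nat_lit 335988) (nat_lit 1) .nil)))))) (.g (nat_lit 4) .nil .nil)))) (.nd (nat_lit 6) 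
(.lf (nat_lit 184480) (.g (nat_lit 2993) (.e (nat_lit 57854) (nat_lit 252) (.e (nat_lit 57370) (nat_lit 2) (.e (nat_lit 90158) (nat_lit 11) (.e (nat_lit 24655) (nat_lit 13) (.e (nat_lit 393229) (nat_lit 9) (.e (nat_lit 335987) (nat_lit 1) .nil)))))) (.g (nat_lit 5) .nil .nil))) 
(.lf (nat_lit 184544) (.g (nat_lit 1717) (.e (nat_lit 57854) (nat_lit 252) (.e (nat_lit 57371) (nat_lit 2) (.e (nat_lit 90160) (nat_lit 11) (.e (nat_lit 24647) (nat_lit 12) .nil)))) .nil)))) (.nd (nat_lit 5) (.nd (nat_lit 6) 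
(.lf (nat_lit 184464) (.g (nat_lit 3282) (.e (nat_lit 57854) (nat_lit 252) (.e (nat_lit 57347) (nat_lit 0) (.e (nat_lit 2160) (nat_lit 143) (.e (nat_lit 712755) (nat_lit 30) (.e (nat_lit 450588) (nat_lit 10) (.e (nat_lit 573449) (nat_lit 9) (.e (nat_lit 1183) (nat_lit 87) (.e (nat_lit 57848) (nat_lit 252) (.e (nat_lit 57365) (nat_lit 1) .nil))))))))) (.g (nat_lit 5) .nil .nil))) 
(.lf (nat_lit 184528) (.g (nat_lit 2201) (.e (nat_lit 57854) (nat_lit 252) (.e (nat_lit 57371) (nat_lit 2) (.e (nat_lit 90160) (nat_lit 11) (.e (nat_lit 24625) (nat_lit 9) (.e (nat_lit 336366) (nat_lit 27) .nil))))) .nil))) (.nd (nat_lit 6) 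
(.lf (nat_lit 184496) (.g (nat_lit 491) (.e (nat_lit 57854) (nat_lit 252) (.e (nat_lit 57371) (nat_lit 2) (.e (nat_lit 90155) (nat_lit 10) .nil))) .nil)) 
(.lf (nat_lit 184560) (.g (nat_lit 1552) (.e (nat_lit 57854) (nat_lit 252) (.e (nat_lit 57373) (nat_lit 2) (.e (nat_lit 90128) (nat_lit 9) (.e (nat_lit 293) (nat_lit 21) (.e (nat_lit 336119) (nat_lit 9) .nil))))) .nil))))) (.nd (nat_lit 4) (.nd (nat_lit 5) (.nd (nat_lit 6) 
(.lf (nat_lit 184456) (.g (nat_lit 3687) (.e (nat_lit 57853) (nat_lit 252) (.e (nat_lit 57446) (nat_lit 19) (.e (nat_lit 393229) (nat_lit 9) (.e (nat_lit 336076) (nat_lit 9) (.e (nat_lit 336324) (nat_lit 18) (.e (nat_lit 204831) (nat_lit 18) .nil)))))) (.g (nat_lit 0) .nil .nil))) 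
(.lf (nat_lit 184520) (.g (nat_lit 2605) (.e (nat_lit 57854) (nat_lit 252) (.e (nat_lit 57371) (nat_lit 2) (.e (nat_lit 90160) (nat_lit 11) (.e (nat_lit 24607) (nat_lit 3) (.e (nat_lit 98341) (nat_lit 20) .nil))))) .nil))) (.nd (nat_lit 6) 
(.lf (nat_lit 184488) (.g (nat_lit 1229) (.e (nat_lit 57854) (nat_lit 252) (.e (nat_lit 57371) (nat_lit 2) (.e (nat_lit 90128) (nat_lit 9) (.e (nat_lit 309) (nat_lit 23) .nil)))) .nil)) 
(.lf (nat_lit 184552) (.g (nat_lit 3852) (.e (nat_lit 57854) (nat_lit 252) (.e (nat_lit 57371) (nat_lit 2) (.e (nat_lit 90160) (nat_lit 11) (.e (nat_lit 24658) (nat_lit 13) (.e (nat_lit 393225) (nat_lit 9) (.e (nat_lit 335996) (nat_lit 1) .nil)))))) (.g (nat_lit 0) .nil .nil))))) (.nd (nat_lit 5) (.nd (nat_lit 6) 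
(.lf (nat_lit 184472) (.g (nat_lit 3221) (.e (nat_lit 57854) (nat_lit 252) (.e (nat_lit 57366) (nat_lit 1) (.e (nat_lit 57830) (nat_lit 250) (.e (nat_lit 1201) (nat_lit 88) (.e (nat_lit 65583) (nat_lit 7) (.e (nat_lit 319530) (nat_lit 16) (.e (nat_lit 286745) (nat_lit 9) (.e (nat_lit 335989) (nat_lit 1) .nil)))))))) (.g (nat_lit 6) .nil .nil))) 
(.lf (nat_lit 184536) (.g (nat_lit 2274) (.e (nat_lit 57854) (nat_lit 252) (.e (nat_lit 57371) (nat_lit 2) (.e (nat_lit 90160) (nat_lit 11) (.e (nat_lit 24628) (nat_lit 9) (.e (nat_lit 336368) (nat_lit 27) (.e (nat_lit 426501) (nat_lit 27) (.e (nat_lit 335988) (nat_lit 1) .nil))))))) (.g (nat_lit 4) .nil .nil)))) (.nd (nat_lit 6) 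
(.lf (nat_lit 184504) (.g (nat_lit 1526) (.e (nat_lit 57854) (nat_lit 252) (.e (nat_lit 57371) (nat_lit 2) (.e (nat_lit 90157) (nat_lit 11) (.e (nat_lit 24656) (nat_lit 13) .nil)))) .nil)) 
(.lf (nat_lit 184568) (.g (nat_lit 843) (.e (nat_lit 57854) (nat_lit 252) (.e (nat_lit 57373) (nat_lit 2) (.e (nat_lit 90155) (nat_lit 10) .nil))) .nil)))))) (.nd (nat_lit 3) (.nd (nat_lit 4) (.nd (nat_lit 5) (.nd (nat_lit 6) 
(.lf (nat_lit 184452) (.g (nat_lit 2097) (.e (nat_lit 57853) (nat_lit 252) (.e (nat_lit 57445) (nat_lit 19) (.e (nat_lit 393229) (nat_lit 9) (.e (nat_lit 336203) (nat_lit 12) (.e (nat_lit 385065) (nat_lit 26) .nil))))) .nil)) 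
(.lf (nat_lit 184516) (.g (nat_lit 1614) (.e (nat_lit 57854) (nat_lit 252) (.e (nat_lit 57371) (nat_lit 2) (.e (nat_lit 90158) (nat_lit 11) (.e (nat_lit 24658) (nat_lit 13) (.e (nat_lit 401152) (nat_lit 9) .nil))))) .nil))) (.nd (nat_lit 6) 
(.lf (nat_lit 184484) (.g (nat_lit 373) (.e (nat_lit 57854) (nat_lit 252) (.e (nat_lit 57371) (nat_lit 2) (.e (nat_lit 90128) (nat_lit 9) .nil))) .nil)) 
(.lf (nat_lit 184548) (.g (nat_lit 3285) (.e (nat_lit 57854) (nat_lit 252) (.e (nat_lit 57371) (nat_lit 2) (.e (nat_lit 90160) (nat_lit 11) (.e (nat_lit 24655) (nat_lit 13) (.e (nat_lit 393229) (nat_lit 9) (.e (nat_lit 335987) (nat_lit 1) .nil)))))) (.g (nat_lit 5) .nil .nil))))) (.nd (nat_lit 5) (.nd (nat_lit 6) 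
(.lf (nat_lit 184468) (.g (nat_lit 3331) (.e (nat_lit 57854) (nat_lit 252) (.e (nat_lit 57364) (nat_lit 1) (.e (nat_lit 57830) (nat_lit 250) (.e (nat_lit 1201) (nat_lit 88) (.e (nat_lit 65586) (nat_lit 7) (.e (nat_lit 319531) (nat_lit 16) (.e (nat_lit 286742) (nat_lit 9) (.e (nat_lit 335989) (nat_lit 1) .nil)))))))) (.g (nat_lit 6) .nil .nil))) 
(.lf (nat_lit 184532) (.g (nat_lit 3670) (.e (nat_lit 57854) (nat_lit 252) (.e (nat_lit 57371) (nat_lit 2) (.e (nat_lit 90160) (nat_lit 11) (.e (nat_lit 24625) (nat_lit 9) (.e (nat_lit 336456) (nat_lit 34) (.e (nat_lit 483365) (nat_lit 18) .nil)))))) (.g (nat_lit 0) .nil .nil)))) (.nd (nat_lit 6) 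
(.lf (nat_lit 184500) (.g (nat_lit 1416) (.e (nat_lit 57854) (nat_lit 252) (.e (nat_lit 57371) (nat_lit 2) (.e (nat_lit 90156) (nat_lit 11) (.e (nat_lit 24660) (nat_lit 13) (.e (nat_lit 393225) (nat_lit 9) .nil))))) .nil)) 
(.lf (nat_lit 184564) (.g (nat_lit 4166) (.e (nat_lit 57854) (nat_lit 252) (.e (nat_lit 57373) (nat_lit 2) (.e (nat_lit 90128) (nat_lit 9) (.e (nat_lit 307) (nat_lit 22) (.e (nat_lit 344117) (nat_lit 21) (.e (nat_lit 516130) (nat_lit 3) (.e (nat_lit 221215) (nat_lit 23) (.e (nat_lit 204830) (nat_lit 18) .nil)))))))) (.g (nat_lit 5) .nil .nil)))))) 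
(.nd (nat_lit 4) (.nd (nat_lit 5) (.nd (nat_lit 6) 
(.lf (nat_lit 184460) (.g (nat_lit 2628) (.e (nat_lit 57853) (nat_lit 252) (.e (nat_lit 57447) (nat_lit 19) (.e (nat_lit 393229) (nat_lit 9) (.e (nat_lit 336086) (nat_lit 9) (.e (nat_lit 336324) (nat_lit 18) .nil))))) .nil)) 
(.lf (nat_lit 184524) (.g (nat_lit 1724) (.e (nat_lit 57854) (nat_lit 252) (.e (nat_lit 57371) (nat_lit 2) (.e (nat_lit 90160) (nat_lit 11) (.e (nat_lit 24609) (nat_lit 3) .nil)))) .nil))) (.nd (nat_lit 6) 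
(.lf (nat_lit 184492) (.g (nat_lit 1229) (.e (nat_lit 57854) (nat_lit 252) (.e (nat_lit 57371) (nat_lit 2) (.e (nat_lit 90128) (nat_lit 9) (.e (nat_lit 336) (nat_lit 26) .nil)))) .nil)) 
(.lf (nat_lit 184556) (.g (nat_lit 2294) (.e (nat_lit 57854) (nat_lit 252) (.e (nat_lit 57373) (nat_lit 2) (.e (nat_lit 90122) (nat_lit 9) (.e (nat_lit 312) (nat_lit 23) (.e (nat_lit 360192) (nat_lit 18) (.e (nat_lit 483366) (nat_lit 18) .nil)))))) (.g (nat_lit 4) .nil .nil))))) (.nd (nat_lit 5) (.nd (nat_lit 6) 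
(.lf (nat_lit 184476) (.g (nat_lit 3678) (.e (nat_lit 57854) (nat_lit 252) (.e (nat_lit 57366) (nat_lit 1) (.e (nat_lit 57830) (nat_lit 250) (.e (nat_lit 1201) (nat_lit 88) (.e (nat_lit 65586) (nat_lit 7) (.e (nat_lit 319531) (nat_lit 16) (.e (nat_lit 286745) (nat_lit 9) (.e (nat_lit 335989) (nat_lit 1) .nil)))))))) (.g (nat_lit 6) .nil .nil))) 
(.lf (nat_lit 184540) (.g (nat_lit 2215) (.e (nat_lit 57854) (nat_lit 252) (.e (nat_lit 57371) (nat_lit 2) (.e (nat_lit 90160) (nat_lit 11) (.e (nat_lit 24631) (nat_lit 9) (.e (nat_lit 336417) (nat_lit 27) .nil))))) .nil))) (.nd (nat_lit 6) 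
(.lf (nat_lit 184508) (.g (nat_lit 3623) (.e (nat_lit 57854) (nat_lit 252) (.e (nat_lit 57371) (nat_lit 2) (.e (nat_lit 90158) (nat_lit 11) (.e (nat_lit 24625) (nat_lit 9) (.e (nat_lit 336456) (nat_lit 34) (.e (nat_lit 483365) (nat_lit 18) .nil)))))) (.g (nat_lit 0) .nil .nil))) 
(.lf (nat_lit 184572) (.g (nat_lit 385) (.e (nat_lit 57854) (nat_lit 252) (.e (nat_lit 57373) (nat_lit 2) (.e (nat_lit 90158) (nat_lit 11) .nil))) .nil))))))) (.nd (nat_lit 2) (.nd (nat_lit 3) (.nd (nat_lit 4) (.nd (nat_lit 5) (.nd (nat_lit 6) 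
(.lf (nat_lit 184450) (.g (nat_lit 2259) (.e (nat_lit 57853) (nat_lit 252) (.e (nat_lit 57445) (nat_lit 19) (.e (nat_lit 393229) (nat_lit 9) (.e (nat_lit 336202) (nat_lit 12) (.e (nat_lit 385068) (nat_lit 26) .nil))))) .nil)) 
(.lf (nat_lit 184514) (.g (nat_lit 3097) (.e (nat_lit 57854) (nat_lit 252) (.e (nat_lit 57371) (nat_lit 2) (.e (nat_lit 90158) (nat_lit 11) (.e (nat_lit 24655) (nat_lit 13) (.e (nat_lit 393229) (nat_lit 9) (.e (nat_lit 335987) (nat_lit 1) .nil)))))) (.g (nat_lit 5) .nil .nil)))) (.nd (nat_lit 6) 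
(.lf (nat_lit 184482) (.g (nat_lit 553) (.e (nat_lit 57854) (nat_lit 252) (.e (nat_lit 57371) (nat_lit 2) (.e (nat_lit 90121) (nat_lit 9) .nil))) .nil)) 
(.lf (nat_lit 184546) (.g (nat_lit 2557) (.e (nat_lit 57854) (nat_lit 252) (.e (nat_lit 57371) (nat_lit 2) (.e (nat_lit 90160) (nat_lit 11) (.e (nat_lit 24648) (nat_lit 12) (.e (nat_lit 392960) (nat_lit 10) (.e (nat_lit 24598) (nat_lit 1) .nil)))))) (.g (nat_lit 4) .nil .nil))))) (.nd (nat_lit 5) (.nd (nat_lit 6) 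
(.lf (nat_lit 184466) (.g (nat_lit 2412) (.e (nat_lit 57854) (nat_lit 252) (.e (nat_lit 57363) (nat_lit 1) (.e (nat_lit 57847) (nat_lit 252) (.e (nat_lit 57348) (nat_lit 0) (.e (nat_lit 2160) (nat_lit 143) (.e (nat_lit 712755) (nat_lit 30) (.e (nat_lit 450588) (nat_lit 10) (.e (nat_lit 573451) (nat_lit 9) (.e (nat_lit 1177) (nat_lit 87) .nil))))))))) (.g (nat_lit 4) .nil .nil))) 
(.lf (nat_lit 184530) (.g (nat_lit 2040) (.e (nat_lit 57854) (nat_lit 252) (.e (nat_lit 57371) (nat_lit 2) (.e (nat_lit 90160) (nat_lit 11) (.e (nat_lit 24625) (nat_lit 9) (.e (nat_lit 336452) (nat_lit 34) .nil))))) .nil))) (.nd (nat_lit 6) 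
(.lf (nat_lit 184498) (.g (nat_lit 1901) (.e (nat_lit 57854) (nat_lit 252) (.e (nat_lit 57371) (nat_lit 2) (.e (nat_lit 90156) (nat_lit 11) (.e (nat_lit 24655) (nat_lit 13) (.e (nat_lit 393225) (nat_lit 9) .nil))))) .nil)) 
(.lf (nat_lit 184562) (.g (nat_lit 3083) (.e (nat_lit 57854) (nat_lit 252) (.e (nat_lit 57373) (nat_lit 2) (.e (nat_lit 90128) (nat_lit 9) (.e (nat_lit 297) (nat_lit 22) (.e (nat_lit 344132) (nat_lit 26) (.e (nat_lit 557105) (nat_lit 14) (.e (nat_lit 180252) (nat_lit 10) (.e (nat_lit 573458) (nat_lit 9) (.e (nat_lit 1180) (nat_lit 87) .nil))))))))) (.g (nat_lit 4) .nil .nil)))))) 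
(.nd (nat_lit 4) (.nd (nat_lit 5) (.nd (nat_lit 6) 
(.lf (nat_lit 184458) (.g (nat_lit 788) (.e (nat_lit 57853) (nat_lit 252) (.e (nat_lit 57447) (nat_lit 19) (.e (nat_lit 393225) (nat_lit 9) .nil))) .nil)) 
(.lf (nat_lit 184522) (.g (nat_lit 2652) (.e (nat_lit 57854) (nat_lit 252) (.e (nat_lit 57371) (nat_lit 2) (.e (nat_lit 90160) (nat_lit 11) (.e (nat_lit 24608) (nat_lit 3) (.e (nat_lit 98321) (nat_lit 17) .nil))))) .nil))) (.nd (nat_lit 6) 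
(.lf (nat_lit 184490) (.g (nat_lit 1974) (.e (nat_lit 57854) (nat_lit 252) (.e (nat_lit 57371) (nat_lit 2) (.e (nat_lit 90128) (nat_lit 9) (.e (nat_lit 310) (nat_lit 23) (.e (nat_lit 360192) (nat_lit 18) (.e (nat_lit 483364) (nat_lit 18) .nil)))))) (.g (nat_lit 4) .nil .nil))) 
(.lf (nat_lit 184554) (.g (nat_lit 3911) (.e (nat_lit 57854) (nat_lit 252) (.e (nat_lit 57371) (nat_lit 2) (.e (nat_lit 90160) (nat_lit 11) (.e (nat_lit 24658) (nat_lit 13) (.e (nat_lit 393229) (nat_lit 9) (.e (nat_lit 335996) (nat_lit 1) .nil)))))) (.g (nat_lit 0) .nil .nil))))) (.nd (nat_lit 5) (.nd (nat_lit 6) 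
(.lf (nat_lit 184474) (.g (nat_lit 3484) (.e (nat_lit 57854) (nat_lit 252) (.e (nat_lit 57366) (nat_lit 1) (.e (nat_lit 57830) (nat_lit 250) (.e (nat_lit 1201) (nat_lit 88) (.e (nat_lit 65583) (nat_lit 7) (.e (nat_lit 319530) (nat_lit 16) (.e (nat_lit 286750) (nat_lit 9) (.e (nat_lit 335993) (nat_lit 1) .nil)))))))) (.g (nat_lit 6) .nil .nil))) 
(.lf (nat_lit 184538) (.g (nat_lit 1361) (.e (nat_lit 57854) (nat_lit 252) (.e (nat_lit 57371) (nat_lit 2) (.e (nat_lit 90160) (nat_lit 11) (.e (nat_lit 24631) (nat_lit 9) .nil)))) .nil))) (.nd (nat_lit 6) 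
(.lf (nat_lit 184506) (.g (nat_lit 3247) (.e (nat_lit 57854) (nat_lit 252) (.e (nat_lit 57371) (nat_lit 2) (.e (nat_lit 90158) (nat_lit 11) (.e (nat_lit 24608) (nat_lit 3) (.e (nat_lit 98341) (nat_lit 20) (.e (nat_lit 221214) (nat_lit 23) (.e (nat_lit 204830) (nat_lit 18) .nil))))))) (.g (nat_lit 5) .nil .nil))) 
(.lf (nat_lit 184570) (.g (nat_lit 3902) (.e (nat_lit 57854) (nat_lit 252) (.e (nat_lit 57373) (nat_lit 2) (.e (nat_lit 90157) (nat_lit 11) (.e (nat_lit 24655) (nat_lit 13) (.e (nat_lit 393229) (nat_lit 9) (.e (nat_lit 335994) (nat_lit 1) .nil)))))) (.g (nat_lit 6) .nil .nil))))))) (.nd (nat_lit 3) (.nd (nat_lit 4) (.nd (nat_lit 5) (.nd (nat_lit 6) 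
(.lf (nat_lit 184454) (.g (nat_lit 2816) (.e (nat_lit 57853) (nat_lit 252) (.e (nat_lit 57445) (nat_lit 19) (.e (nat_lit 393229) (nat_lit 9) (.e (nat_lit 336203) (nat_lit 12) (.e (nat_lit 385066) (nat_lit 26) (.e (nat_lit 532502) (nat_lit 1) .nil)))))) (.g (nat_lit 4) .nil .nil))) 
(.lf (nat_lit 184518) (.g (nat_lit 1607) (.e (nat_lit 57854) (nat_lit 252) (.e (nat_lit 57371) (nat_lit 2) (.e (nat_lit 90160) (nat_lit 11) (.e (nat_lit 24580) (nat_lit 0) .nil)))) .nil))) (.nd (nat_lit 6) 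
(.lf (nat_lit 184486) (.g (nat_lit 978) (.e (nat_lit 57854) (nat_lit 252) (.e (nat_lit 57371) (nat_lit 2) (.e (nat_lit 90128) (nat_lit 9) (.e (nat_lit 268) (nat_lit 21) .nil)))) .nil)) 
(.lf (nat_lit 184550) (.g (nat_lit 1658) (.e (nat_lit 57854) (nat_lit 252) (.e (nat_lit 57371) (nat_lit 2) (.e (nat_lit 90160) (nat_lit 11) (.e (nat_lit 24656) (nat_lit 13) (.e (nat_lit 393229) (nat_lit 9) .nil))))) .nil)))) (.nd (nat_lit 5) (.nd (nat_lit 6) 
(.lf (nat_lit 184470) (.g (nat_lit 1553) (.e (nat_lit 57854) (nat_lit 252) (.e (nat_lit 57364) (nat_lit 1) (.e (nat_lit 57851) (nat_lit 252) (.e (nat_lit 57347) (nat_lit 0) (.e (nat_lit 2160) (nat_lit 143) .nil))))) .nil)) 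
(.lf (nat_lit 184534) (.g (nat_lit 1958) (.e (nat_lit 57854) (nat_lit 252) (.e (nat_lit 57371) (nat_lit 2) (.e (nat_lit 90160) (nat_lit 11) (.e (nat_lit 24628) (nat_lit 9) (.e (nat_lit 336366) (nat_lit 27) .nil))))) .nil))) (.nd (nat_lit 6) 
(.lf (nat_lit 184502) (.g (nat_lit 1527) (.e (nat_lit 57854) (nat_lit 252) (.e (nat_lit 57371) (nat_lit 2) (.e (nat_lit 90157) (nat_lit 11) (.e (nat_lit 24626) (nat_lit 9) .nil)))) .nil)) 
(.lf (nat_lit 184566) (.g (nat_lit 419) (.e (nat_lit 57854) (nat_lit 252) (.e (nat_lit 57373) (nat_lit 2) (.e (nat_lit 90133) (nat_lit 9) .nil))) .nil))))) (.nd (nat_lit 4) (.nd (nat_lit 5) (.nd (nat_lit 6) 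
(.lf (nat_lit 184462) (.g (nat_lit 1900) (.e (nat_lit 57853) (nat_lit 252) (.e (nat_lit 65280) (nat_lit 66) (.e (nat_lit 221210) (nat_lit 22) (.e (nat_lit 196681) (nat_lit 17) (.e (nat_lit 131086) (nat_lit 1) (.e (nat_lit 57854) (nat_lit 252) (.e (nat_lit 57389) (nat_lit 5) (.e (nat_lit 114712) (nat_lit 21) .nil)))))))) (.g (nat_lit 4) .nil .nil))) 
(.lf (nat_lit 184526) (.g (nat_lit 1306) (.e (nat_lit 57854) (nat_lit 252) (.e (nat_lit 57371) (nat_lit 2) (.e (nat_lit 90160) (nat_lit 11) (.e (nat_lit 24624) (nat_lit 9) (.e (nat_lit 336368) (nat_lit 27) .nil))))) .nil))) (.nd (nat_lit 6) 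
(.lf (nat_lit 184494) (.g (nat_lit 1223) (.e (nat_lit 57854) (nat_lit 252) (.e (nat_lit 57371) (nat_lit 2) (.e (nat_lit 90133) (nat_lit 9) (.e (nat_lit 313) (nat_lit 23) .nil)))) .nil)) 
(.lf (nat_lit 184558) (.g (nat_lit 1076) (.e (nat_lit 57854) (nat_lit 252) (.e (nat_lit 57373) (nat_lit 2) (.e (nat_lit 90128) (nat_lit 9) (.e (nat_lit 268) (nat_lit 21) .nil)))) .nil)))) (.nd (nat_lit 5) (.nd (nat_lit 6) 
(.lf (nat_lit 184478) (.g (nat_lit 3411) (.e (nat_lit 57854) (nat_lit 252) (.e (nat_lit 57370) (nat_lit 2) (.e (nat_lit 90158) (nat_lit 11) (.e (nat_lit 24625) (nat_lit 9) (.e (nat_lit 336456) (nat_lit 34) (.e (nat_lit 483365) (nat_lit 18) .nil)))))) (.g (nat_lit 0) .nil .nil))) 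
(.lf (nat_lit 184542) (.g (nat_lit 1848) (.e (nat_lit 57854) (nat_lit 252) (.e (nat_lit 57371) (nat_lit 2) (.e (nat_lit 90160) (nat_lit 11) (.e (nat_lit 24638) (nat_lit 9) (.e (nat_lit 336387) (nat_lit 27) (.e (nat_lit 426500) (nat_lit 27) (.e (nat_lit 335988) (nat_lit 1) .nil))))))) (.g (nat_lit 4) .nil .nil)))) (.nd (nat_lit 6) 
(.lf (nat_lit 184510) (.g (nat_lit 1309) (.e (nat_lit 57854) (nat_lit 252) (.e (nat_lit 57371) (nat_lit 2) (.e (nat_lit 90158) (nat_lit 11) (.e (nat_lit 24651) (nat_lit 12) .nil)))) .nil)) 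
(.lf (nat_lit 184574) (.g (nat_lit 4401) (.e (nat_lit 57854) (nat_lit 252) (.e (nat_lit 57373) (nat_lit 2) (.e (nat_lit 90158) (nat_lit 11) (.e (nat_lit 24608) (nat_lit 3) (.e (nat_lit 98342) (nat_lit 20) (.e (nat_lit 221214) (nat_lit 23) (.e (nat_lit 204830) (nat_lit 18) .nil))))))) (.g (nat_lit 5) .nil .nil))))))))) 
(.nd (nat_lit 1) (.nd (nat_lit 2) (.nd (nat_lit 3) (.nd (nat_lit 4) (.nd (nat_lit 5) 
(.nd (nat_lit 6) 
(.lf (nat_lit 184449) (.g (nat_lit 1781) (.e (nat_lit 57853) (nat_lit 252) (.e (nat_lit 57445) (nat_lit 19) (.e (nat_lit 393229) (nat_lit 9) (.e (nat_lit 336202) (nat_lit 12) .nil)))) .nil)) 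
(.lf (nat_lit 184513) (.g (nat_lit 4135) (.e (nat_lit 57854) (nat_lit 252) (.e (nat_lit 57371) (nat_lit 2) (.e (nat_lit 90158) (nat_lit 11) (.e (nat_lit 24655) (nat_lit 13) (.e (nat_lit 393225) (nat_lit 9) (.e (nat_lit 335996) (nat_lit 1) .nil)))))) (.g (nat_lit 0) .nil .nil)))) (.nd (nat_lit 6) 
(.lf (nat_lit 184481) (.g (nat_lit 3447) (.e (nat_lit 57854) (nat_lit 252) (.e (nat_lit 57370) (nat_lit 2) (.e (nat_lit 90158) (nat_lit 11) (.e (nat_lit 24658) (nat_lit 13) (.e (nat_lit 393225) (nat_lit 9) (.e (nat_lit 335996) (nat_lit 1) .nil)))))) (.g (nat_lit 0) .nil .nil))) 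
(.lf (nat_lit 184545) (.g (nat_lit 2655) (.e (nat_lit 57854) (nat_lit 252) (.e (nat_lit 57371) (nat_lit 2) (.e (nat_lit 90160) (nat_lit 11) (.e (nat_lit 24648) (nat_lit 12) (.e (nat_lit 392960) (nat_lit 10) (.e (nat_lit 24597) (nat_lit 1) .nil)))))) (.g (nat_lit 4) .nil .nil))))) (.nd (nat_lit 5) (.nd (nat_lit 6) 
(.lf (nat_lit 184465) (.g (nat_lit 3790) (.e (nat_lit 57854) (nat_lit 252) (.e (nat_lit 57363) (nat_lit 1) (.e (nat_lit 57754) (nat_lit 209) (.e (nat_lit 1200) (nat_lit 88) (.e (nat_lit 65619) (nat_lit 10) (.e (nat_lit 344117) (nat_lit 21) (.e (nat_lit 516195) (nat_lit 26) (.e (nat_lit 335996) (nat_lit 1) .nil)))))))) (.g (nat_lit 7) .nil .nil))) 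
(.lf (nat_lit 184529) (.g (nat_lit 2154) (.e (nat_lit 57854) (nat_lit 252) (.e (nat_lit 57371) (nat_lit 2) (.e (nat_lit 90160) (nat_lit 11) (.e (nat_lit 24625) (nat_lit 9) (.e (nat_lit 336370) (nat_lit 27) .nil))))) .nil))) (.nd (nat_lit 6) 
(.lf (nat_lit 184497) (.g (nat_lit 518) (.e (nat_lit 57854) (nat_lit 252) (.e (nat_lit 57371) (nat_lit 2) (.e (nat_lit 90156) (nat_lit 11) .nil))) .nil)) 
(.lf (nat_lit 184561) (.g (nat_lit 937) (.e (nat_lit 57854) (nat_lit 252) (.e (nat_lit 57373) (nat_lit 2) (.e (nat_lit 90128) (nat_lit 9) (.e (nat_lit 297) (nat_lit 22) .nil)))) .nil))))) (.nd (nat_lit 4) (.nd (nat_lit 5) (.nd (nat_lit 6) 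
(.lf (nat_lit 184457) (.g (nat_lit 2769) (.e (nat_lit 57853) (nat_lit 252) (.e (nat_lit 57446) (nat_lit 19) (.e (nat_lit 393229) (nat_lit 9) (.e (nat_lit 336078) (nat_lit 9) (.e (nat_lit 336324) (nat_lit 18) .nil))))) .nil)) 
(.lf (nat_lit 184521) (.g (nat_lit 2794) (.e (nat_lit 57854) (nat_lit 252) (.e (nat_lit 57371) (nat_lit 2) (.e (nat_lit 90160) (nat_lit 11) (.e (nat_lit 24607) (nat_lit 3) (.e (nat_lit 98342) (nat_lit 20) (.e (nat_lit 221215) (nat_lit 23) (.e (nat_lit 204830) (nat_lit 18) .nil))))))) (.g (nat_lit 4) .nil .nil)))) (.nd (nat_lit 6) 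
(.lf (nat_lit 184489) (.g (nat_lit 2200) (.e (nat_lit 57854) (nat_lit 252) (.e (nat_lit 57371) (nat_lit 2) (.e (nat_lit 90128) (nat_lit 9) (.e (nat_lit 310) (nat_lit 23) (.e (nat_lit 352277) (nat_lit 11) (.e (nat_lit 426500) (nat_lit 27) (.e (nat_lit 335988) (nat_lit 1) .nil))))))) (.g (nat_lit 5) .nil .nil))) 
(.lf (nat_lit 184553) (.g (nat_lit 1729) (.e (nat_lit 57854) (nat_lit 252) (.e (nat_lit 57371) (nat_lit 2) (.e (nat_lit 90160) (nat_lit 11) (.e (nat_lit 24658) (nat_lit 13) (.e (nat_lit 393228) (nat_lit 9) .nil))))) .nil)))) (.nd (nat_lit 5) (.nd (nat_lit 6) 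
(.lf (nat_lit 184473) (.g (nat_lit 3289) (.e (nat_lit 57854) (nat_lit 252) (.e (nat_lit 57366) (nat_lit 1) (.e (nat_lit 57830) (nat_lit 250) (.e (nat_lit 1201) (nat_lit 88) (.e (nat_lit 65583) (nat_lit 7) (.e (nat_lit 319530) (nat_lit 16) (.e (nat_lit 286748) (nat_lit 9) (.e (nat_lit 335990) (nat_lit 1) .nil)))))))) (.g (nat_lit 8) .nil .nil))) 
(.lf (nat_lit 184537) (.g (nat_lit 1927) (.e (nat_lit 57854) (nat_lit 252) (.e (nat_lit 57371) (nat_lit 2) (.e (nat_lit 90160) (nat_lit 11) (.e (nat_lit 24628) (nat_lit 9) (.e (nat_lit 336370) (nat_lit 27) .nil))))) .nil))) (.nd (nat_lit 6) 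
(.lf (nat_lit 184505) (.g (nat_lit 307) (.e (nat_lit 57854) (nat_lit 252) (.e (nat_lit 57371) (nat_lit 2) (.e (nat_lit 90158) (nat_lit 11) .nil))) .nil)) 
(.lf (nat_lit 184569) (.g (nat_lit 501) (.e (nat_lit 57854) (nat_lit 252) (.e (nat_lit 57373) (nat_lit 2) (.e (nat_lit 90156) (nat_lit 11) .nil))) .nil)))))) (.nd (nat_lit 3) (.nd (nat_lit 4) (.nd (nat_lit 5) (.nd (nat_lit 6) 
(.lf (nat_lit 184453) (.g (nat_lit 3015) (.e (nat_lit 57853) (nat_lit 252) (.e (nat_lit 57445) (nat_lit 19) (.e (nat_lit 393229) (nat_lit 9) (.e (nat_lit 336203) (nat_lit 12) (.e (nat_lit 385066) (nat_lit 26) (.e (nat_lit 532499) (nat_lit 1) .nil)))))) (.g (nat_lit 4) .nil .nil))) 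
(.lf (nat_lit 184517) (.g (nat_lit 327) (.e (nat_lit 57854) (nat_lit 252) (.e (nat_lit 57371) (nat_lit 2) (.e (nat_lit 90160) (nat_lit 11) .nil))) .nil))) (.nd (nat_lit 6) 
(.lf (nat_lit 184485) (.g (nat_lit 1212) (.e (nat_lit 57854) (nat_lit 252) (.e (nat_lit 57371) (nat_lit 2) (.e (nat_lit 90128) (nat_lit 9) (.e (nat_lit 245) (nat_lit 21) .nil)))) .nil)) 
(.lf (nat_lit 184549) (.g (nat_lit 4153) (.e (nat_lit 57854) (nat_lit 252) (.e (nat_lit 57371) (nat_lit 2) (.e (nat_lit 90160) (nat_lit 11) (.e (nat_lit 24655) (nat_lit 13) (.e (nat_lit 393229) (nat_lit 9) (.e (nat_lit 335996) (nat_lit 1) .nil)))))) (.g (nat_lit 0) .nil .nil))))) (.nd (nat_lit 5) (.nd (nat_lit 6) 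
(.lf (nat_lit 184469) (.g (nat_lit 3664) (.e (nat_lit 57854) (nat_lit 252) (.e (nat_lit 57364) (nat_lit 1) (.e (nat_lit 57830) (nat_lit 250) (.e (nat_lit 1201) (nat_lit 88) (.e (nat_lit 65586) (nat_lit 7) (.e (nat_lit 319531) (nat_lit 16) (.e (nat_lit 286745) (nat_lit 9) (.e (nat_lit 335989) (nat_lit 1) .nil)))))))) (.g (nat_lit 6) .nil .nil))) 
(.lf (nat_lit 184533) (.g (nat_lit 908) (.e (nat_lit 57854) (nat_lit 252) (.e (nat_lit 57371) (nat_lit 2) (.e (nat_lit 90160) (nat_lit 11) (.e (nat_lit 24628) (nat_lit 9) .nil)))) .nil))) (.nd (nat_lit 6) 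
(.lf (nat_lit 184501) (.g (nat_lit 561) (.e (nat_lit 57854) (nat_lit 252) (.e (nat_lit 57371) (nat_lit 2) (.e (nat_lit 90157) (nat_lit 11) .nil))) .nil)) 
(.lf (nat_lit 184565) (.g (nat_lit 2821) (.e (nat_lit 57854) (nat_lit 252) (.e (nat_lit 57373) (nat_lit 2) (.e (nat_lit 90128) (nat_lit 9) (.e (nat_lit 310) (nat_lit 23) (.e (nat_lit 352277) (nat_lit 11) (.e (nat_lit 426500) (nat_lit 27) (.e (nat_lit 335988) (nat_lit 1) .nil))))))) (.g (nat_lit 5) .nil .nil)))))) (.nd (nat_lit 4) (.nd (nat_lit 5) (.nd (nat_lit 6) 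
(.lf (nat_lit 184461) (.g (nat_lit 2203) (.e (nat_lit 57853) (nat_lit 252) (.e (nat_lit 57447) (nat_lit 19) (.e (nat_lit 393229) (nat_lit 9) (.e (nat_lit 336203) (nat_lit 12) .nil)))) .nil)) 
(.lf (nat_lit 184525) (.g (nat_lit 965) (.e (nat_lit 57854) (nat_lit 252) (.e (nat_lit 57371) (nat_lit 2) (.e (nat_lit 90160) (nat_lit 11) (.e (nat_lit 24624) (nat_lit 9) .nil)))) .nil))) (.nd (nat_lit 6) 
(.lf (nat_lit 184493) (.g (nat_lit 554) (.e (nat_lit 57854) (nat_lit 252) (.e (nat_lit 57371) (nat_lit 2) (.e (nat_lit 90133) (nat_lit 9) .nil))) .nil)) 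
(.lf (nat_lit 184557) (.g (nat_lit 323) (.e (nat_lit 57854) (nat_lit 252) (.e (nat_lit 57373) (nat_lit 2) (.e (nat_lit 90128) (nat_lit 9) .nil))) .nil)))) (.nd (nat_lit 5) (.nd (nat_lit 6) 
(.lf (nat_lit 184477) (.g (nat_lit 2537) (.e (nat_lit 57854) (nat_lit 252) (.e (nat_lit 57366) (nat_lit 1) (.e (nat_lit 57847) (nat_lit 252) (.e (nat_lit 57407) (nat_lit 12) (.e (nat_lit 336310) (nat_lit 16) (.e (nat_lit 164178) (nat_lit 154) (.e (nat_lit 57437) (nat_lit 17) (.e (nat_lit 376860) (nat_lit 21) .nil)))))))) (.g (nat_lit 4) .nil .nil))) 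
(.lf (nat_lit 184541) (.g (nat_lit 1629) (.e (nat_lit 57854) (nat_lit 252) (.e (nat_lit 57371) (nat_lit 2) (.e (nat_lit 90160) (nat_lit 11) (.e (nat_lit 24638) (nat_lit 9) (.e (nat_lit 336387) (nat_lit 27) .nil))))) .nil))) (.nd (nat_lit 6) 
(.lf (nat_lit 184509) (.g (nat_lit 1871) (.e (nat_lit 57854) (nat_lit 252) (.e (nat_lit 57371) (nat_lit 2) (.e (nat_lit 90158) (nat_lit 11) (.e (nat_lit 24628) (nat_lit 9) (.e (nat_lit 336370) (nat_lit 27) .nil))))) .nil)) 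
(.lf (nat_lit 184573) (.g (nat_lit 1204) (.e (nat_lit 57854) (nat_lit 252) (.e (nat_lit 57373) (nat_lit 2) (.e (nat_lit 90158) (nat_lit 11) (.e (nat_lit 24608) (nat_lit 3) .nil)))) .nil))))))) (.nd (nat_lit 2) (.nd (nat_lit 3) (.nd (nat_lit 4) (.nd (nat_lit 5) (.nd (nat_lit 6) 
(.lf (nat_lit 184451) (.g (nat_lit 2248) (.e (nat_lit 57853) (nat_lit 252) (.e (nat_lit 57445) (nat_lit 19) (.e (nat_lit 393229) (nat_lit 9) (.e (nat_lit 336203) (nat_lit 12) (.e (nat_lit 385064) (nat_lit 26) .nil))))) .nil)) 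
(.lf (nat_lit 184515) (.g (nat_lit 3701) (.e (nat_lit 57854) (nat_lit 252) (.e (nat_lit 57371) (nat_lit 2) (.e (nat_lit 90158) (nat_lit 11) (.e (nat_lit 24658) (nat_lit 13) (.e (nat_lit 393225) (nat_lit 9) (.e (nat_lit 335996) (nat_lit 1) .nil)))))) (.g (nat_lit 0) .nil .nil)))) (.nd (nat_lit 6) 
(.lf (nat_lit 184483) (.g (nat_lit 1070) (.e (nat_lit 57854) (nat_lit 252) (.e (nat_lit 57371) (nat_lit 2) (.e (nat_lit 90125) (nat_lit 9) (.e (nat_lit 333) (nat_lit 26) (.e (nat_lit 384768) (nat_lit 18) .nil))))) .nil)) 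
(.lf (nat_lit 184547) (.g (nat_lit 2085) (.e (nat_lit 57854) (nat_lit 252) (.e (nat_lit 57371) (nat_lit 2) (.e (nat_lit 90160) (nat_lit 11) (.e (nat_lit 24652) (nat_lit 12) (.e (nat_lit 392960) (nat_lit 10) .nil))))) .nil)))) (.nd (nat_lit 5) (.nd (nat_lit 6) 
(.lf (nat_lit 184467) (.g (nat_lit 3160) (.e (nat_lit 57854) (nat_lit 252) (.e (nat_lit 57364) (nat_lit 1) (.e (nat_lit 57830) (nat_lit 250) (.e (nat_lit 1201) (nat_lit 88) (.e (nat_lit 65583) (nat_lit 7) (.e (nat_lit 319530) (nat_lit 16) (.e (nat_lit 286745) (nat_lit 9) (.e (nat_lit 335989) (nat_lit 1) .nil)))))))) (.g (nat_lit 6) .nil .nil))) 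
(.lf (nat_lit 184531) (.g (nat_lit 3769) (.e (nat_lit 57854) (nat_lit 252) (.e (nat_lit 57371) (nat_lit 2) (.e (nat_lit 90160) (nat_lit 11) (.e (nat_lit 24625) (nat_lit 9) (.e (nat_lit 336454) (nat_lit 34) (.e (nat_lit 483365) (nat_lit 18) .nil)))))) (.g (nat_lit 0) .nil .nil)))) (.nd (nat_lit 6) 
(.lf (nat_lit 184499) (.g (nat_lit 1817) (.e (nat_lit 57854) (nat_lit 252) (.e (nat_lit 57371) (nat_lit 2) (.e (nat_lit 90156) (nat_lit 11) (.e (nat_lit 24655) (nat_lit 13) (.e (nat_lit 393229) (nat_lit 9) .nil))))) .nil)) 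
(.lf (nat_lit 184563) (.g (nat_lit 4085) (.e (nat_lit 57854) (nat_lit 252) (.e (nat_lit 57373) (nat_lit 2) (.e (nat_lit 90128) (nat_lit 9) (.e (nat_lit 307) (nat_lit 22) (.e (nat_lit 344117) (nat_lit 21) (.e (nat_lit 516130) (nat_lit 3) (.e (nat_lit 221214) (nat_lit 23) (.e (nat_lit 204830) (nat_lit 18) .nil)))))))) (.g (nat_lit 5) .nil .nil)))))) 
(.nd (nat_lit 4) (.nd (nat_lit 5) (.nd (nat_lit 6) 
(.lf (nat_lit 184459) (.g (nat_lit 893) (.e (nat_lit 57853) (nat_lit 252) (.e (nat_lit 57447) (nat_lit 19) (.e (nat_lit 393229) (nat_lit 9) .nil))) .nil)) 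
(.lf (nat_lit 184523) (.g (nat_lit 4289) (.e (nat_lit 57854) (nat_lit 252) (.e (nat_lit 57371) (nat_lit 2) (.e (nat_lit 90160) (nat_lit 11) (.e (nat_lit 24608) (nat_lit 3) (.e (nat_lit 98342) (nat_lit 20) (.e (nat_lit 221215) (nat_lit 23) (.e (nat_lit 204830) (nat_lit 18) .nil))))))) (.g (nat_lit 6) .nil .nil)))) (.nd (nat_lit 6) 
(.lf (nat_lit 184491) (.g (nat_lit 1736) (.e (nat_lit 57854) (nat_lit 252) (.e (nat_lit 57371) (nat_lit 2) (.e (nat_lit 90128) (nat_lit 9) (.e (nat_lit 314) (nat_lit 23) (.e (nat_lit 352274) (nat_lit 11) .nil))))) .nil)) 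
(.lf (nat_lit 184555) (.g (nat_lit 1975) (.e (nat_lit 57854) (nat_lit 252) (.e (nat_lit 57371) (nat_lit 2) (.e (nat_lit 90160) (nat_lit 11) (.e (nat_lit 24660) (nat_lit 13) (.e (nat_lit 393229) (nat_lit 9) (.e (nat_lit 335993) (nat_lit 1) .nil)))))) (.g (nat_lit 4) .nil .nil))))) (.nd (nat_lit 5) (.nd (nat_lit 6) 
(.lf (nat_lit 184475) (.g (nat_lit 3345) (.e (nat_lit 57854) (nat_lit 252) (.e (nat_lit 57366) (nat_lit 1) (.e (nat_lit 57830) (nat_lit 250) (.e (nat_lit 1201) (nat_lit 88) (.e (nat_lit 65586) (nat_lit 7) (.e (nat_lit 319531) (nat_lit 16) (.e (nat_lit 286742) (nat_lit 9) (.e (nat_lit 335989) (nat_lit 1) .nil)))))))) (.g (nat_lit 6) .nil .nil))) 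
(.lf (nat_lit 184539) (.g (nat_lit 2216) (.e (nat_lit 57854) (nat_lit 252) (.e (nat_lit 57371) (nat_lit 2) (.e (nat_lit 90160) (nat_lit 11) (.e (nat_lit 24631) (nat_lit 9) (.e (nat_lit 336388) (nat_lit 27) .nil))))) .nil))) (.nd (nat_lit 6) 
(.lf (nat_lit 184507) (.g (nat_lit 2741) (.e (nat_lit 57854) (nat_lit 252) (.e (nat_lit 57371) (nat_lit 2) (.e (nat_lit 90158) (nat_lit 11) (.e (nat_lit 24608) (nat_lit 3) (.e (nat_lit 98342) (nat_lit 20) (.e (nat_lit 221214) (nat_lit 23) (.e (nat_lit 204830) (nat_lit 18) .nil))))))) (.g (nat_lit 4) .nil .nil))) 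
(.lf (nat_lit 184571) (.g (nat_lit 1504) (.e (nat_lit 57854) (nat_lit 252) (.e (nat_lit 57373) (nat_lit 2) (.e (nat_lit 90157) (nat_lit 11) (.e (nat_lit 24660) (nat_lit 13) (.e (nat_lit 393225) (nat_lit 9) .nil))))) .nil)))))) (.nd (nat_lit 3) (.nd (nat_lit 4) (.nd (nat_lit 5) (.nd (nat_lit 6) 
(.lf (nat_lit 184455) (.g (nat_lit 2214) (.e (nat_lit 57853) (nat_lit 252) (.e (nat_lit 57445) (nat_lit 19) (.e (nat_lit 393229) (nat_lit 9) (.e (nat_lit 343808) (nat_lit 12) .nil)))) .nil)) 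
(.lf (nat_lit 184519) (.g (nat_lit 2346) (.e (nat_lit 57854) (nat_lit 252) (.e (nat_lit 57371) (nat_lit 2) (.e (nat_lit 90160) (nat_lit 11) (.e (nat_lit 24580) (nat_lit 0) (.e (nat_lit 6510) (nat_lit 345) .nil))))) .nil))) (.nd (nat_lit 6) 
(.lf (nat_lit 184487) (.g (nat_lit 855) (.e (nat_lit 57854) (nat_lit 252) (.e (nat_lit 57371) (nat_lit 2) (.e (nat_lit 90128) (nat_lit 9) (.e (nat_lit 297) (nat_lit 22) .nil)))) .nil)) 
(.lf (nat_lit 184551) (.g (nat_lit 4230) (.e (nat_lit 57854) (nat_lit 252) (.e (nat_lit 57371) (nat_lit 2) (.e (nat_lit 90160) (nat_lit 11) (.e (nat_lit 24657) (nat_lit 13) (.e (nat_lit 393229) (nat_lit 9) (.e (nat_lit 335996) (nat_lit 1) .nil)))))) (.g (nat_lit 0) .nil .nil))))) (.nd (nat_lit 5) (.nd (nat_lit 6) 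
(.lf (nat_lit 184471) (.g (nat_lit 2698) (.e (nat_lit 57854) (nat_lit 252) (.e (nat_lit 57364) (nat_lit 1) (.e (nat_lit 57851) (nat_lit 252) (.e (nat_lit 57347) (nat_lit 0) (.e (nat_lit 2160) (nat_lit 143) (.e (nat_lit 712755) (nat_lit 30) (.e (nat_lit 450588) (nat_lit 10) (.e (nat_lit 573451) (nat_lit 9) (.e (nat_lit 1177) (nat_lit 87) .nil))))))))) (.g (nat_lit 5) .nil .nil))) 
(.lf (nat_lit 184535) (.g (nat_lit 1955) (.e (nat_lit 57854) (nat_lit 252) (.e (nat_lit 57371) (nat_lit 2) (.e (nat_lit 90160) (nat_lit 11) (.e (nat_lit 24628) (nat_lit 9) (.e (nat_lit 336368) (nat_lit 27) .nil))))) .nil))) (.nd (nat_lit 6) 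
(.lf (nat_lit 184503) (.g (nat_lit 2679) (.e (nat_lit 57854) (nat_lit 252) (.e (nat_lit 57371) (nat_lit 2) (.e (nat_lit 90157) (nat_lit 11) (.e (nat_lit 24627) (nat_lit 9) (.e (nat_lit 336454) (nat_lit 34) (.e (nat_lit 483364) (nat_lit 18) .nil)))))) (.g (nat_lit 4) .nil .nil))) 
(.lf (nat_lit 184567) (.g (nat_lit 588) (.e (nat_lit 57854) (nat_lit 252) (.e (nat_lit 57373) (nat_lit 2) (.e (nat_lit 90153) (nat_lit 10) .nil))) .nil))))) (.nd (nat_lit 4) (.nd (nat_lit 5) (.nd (nat_lit 6) 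
(.lf (nat_lit 184463) (.g (nat_lit 688) (.e (nat_lit 57854) (nat_lit 252) (.e (nat_lit 57347) (nat_lit 0) (.e (nat_lit 2043) (nat_lit 141) (.e (nat_lit 696346) (nat_lit 10) .nil)))) .nil)) 
(.lf (nat_lit 184527) (.g (nat_lit 1306) (.e (nat_lit 57854) (nat_lit 252) (.e (nat_lit 57371) (nat_lit 2) (.e (nat_lit 90160) (nat_lit 11) (.e (nat_lit 24624) (nat_lit 9) (.e (nat_lit 336377) (nat_lit 27) .nil))))) .nil))) (.nd (nat_lit 6) 
(.lf (nat_lit 184495) (.g (nat_lit 1372) (.e (nat_lit 57854) (nat_lit 252) (.e (nat_lit 57371) (nat_lit 2) (.e (nat_lit 90134) (nat_lit 9) (.e (nat_lit 290) (nat_lit 21) .nil)))) .nil)) 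
(.lf (nat_lit 184559) (.g (nat_lit 1348) (.e (nat_lit 57854) (nat_lit 252) (.e (nat_lit 57373) (nat_lit 2) (.e (nat_lit 90128) (nat_lit 9) (.e (nat_lit 293) (nat_lit 21) .nil)))) .nil)))) (.nd (nat_lit 5) (.nd (nat_lit 6) 
(.lf (nat_lit 184479) (.g (nat_lit 3849) (.e (nat_lit 57854) (nat_lit 252) (.e (nat_lit 57370) (nat_lit 2) (.e (nat_lit 90158) (nat_lit 11) (.e (nat_lit 24655) (nat_lit 13) (.e (nat_lit 393225) (nat_lit 9) (.e (nat_lit 335996) (nat_lit 1) .nil)))))) (.g (nat_lit 0) .nil .nil))) 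
(.lf (nat_lit 184543) (.g (nat_lit 1594) (.e (nat_lit 57854) (nat_lit 252) (.e (nat_lit 57371) (nat_lit 2) (.e (nat_lit 90160) (nat_lit 11) (.e (nat_lit 24638) (nat_lit 9) (.e (nat_lit 343808) (nat_lit 34) .nil))))) .nil))) (.nd (nat_lit 6) 
(.lf (nat_lit 184511) (.g (nat_lit 1479) (.e (nat_lit 57854) (nat_lit 252) (.e (nat_lit 57371) (nat_lit 2) (.e (nat_lit 90158) (nat_lit 11) (.e (nat_lit 24654) (nat_lit 13) .nil)))) .nil)) 
(.lf (nat_lit 184575) (.g (nat_lit 4583) (.e (nat_lit 57854) (nat_lit 252) (.e (nat_lit 57373) (nat_lit 2) (.e (nat_lit 90158) (nat_lit 11) (.e (nat_lit 24608) (nat_lit 3) (.e (nat_lit 98342) (nat_lit 20) (.e (nat_lit 221215) (nat_lit 23) (.e (nat_lit 204830) (nat_lit 18) .nil))))))) (.g (nat_lit 5) .nil .nil))))))))))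

noncomputable def tv2457 : DT := (.nd (nat_lit 0) (.nd (nat_lit 1) (.nd (nat_lit 2) (.nd (nat_lit 3) (.nd (nat_lit 4) (.nd (nat_lit 5) (.nd (nat_lit 6) 
(.lf (nat_lit 184576) (.g (nat_lit 938) (.e (nat_lit 57854) (nat_lit 252) (.e (nat_lit 57373) (nat_lit 2) (.e (nat_lit 90158) (nat_lit 11) (.e (nat_lit 24628) (nat_lit 9) .nil)))) .nil)) 
(.lf (nat_lit 184640) (.g (nat_lit 3987) (.e (nat_lit 57854) (nat_lit 252) (.e (nat_lit 57377) (nat_lit 3) (.e (nat_lit 98317) (nat_lit 9) (.e (nat_lit 336026) (nat_lit 3) .nil)))) .nil))) (.nd (nat_lit 6) 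
(.lf (nat_lit 184608) (.g (nat_lit 2356) (.e (nat_lit 57854) (nat_lit 252) (.e (nat_lit 57373) (nat_lit 2) (.e (nat_lit 90160) (nat_lit 11) (.e (nat_lit 24655) (nat_lit 13) (.e (nat_lit 393224) (nat_lit 9) .nil))))) .nil)) 
(.lf (nat_lit 184672) (.g (nat_lit 2859) (.e (nat_lit 57854) (nat_lit 252) (.e (nat_lit 57377) (nat_lit 3) (.e (nat_lit 98317) (nat_lit 9) (.e (nat_lit 336213) (nat_lit 13) (.e (nat_lit 393229) (nat_lit 9) (.e (nat_lit 335993) (nat_lit 1) .nil)))))) (.g (nat_lit 5) .nil .nil))))) (.nd (nat_lit 5) (.nd (nat_lit 6) 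
(.lf (nat_lit 184592) (.g (nat_lit 278) (.e (nat_lit 57854) (nat_lit 252) (.e (nat_lit 57373) (nat_lit 2) (.e (nat_lit 90160) (nat_lit 11) .nil))) .nil)) 
(.lf (nat_lit 184656) (.g (nat_lit 3729) (.e (nat_lit 57854) (nat_lit 252) (.e (nat_lit 57377) (nat_lit 3) (.e (nat_lit 98317) (nat_lit 9) (.e (nat_lit 336088) (nat_lit 9) (.e (nat_lit 336456) (nat_lit 34) (.e (nat_lit 483365) (nat_lit 18) .nil)))))) (.g (nat_lit 0) .nil .nil)))) (.nd (nat_lit 6) 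
(.lf (nat_lit 184624) (.g (nat_lit 2161) (.e (nat_lit 57854) (nat_lit 252) (.e (nat_lit 57377) (nat_lit 3) (.e (nat_lit 98315) (nat_lit 9) (.e (nat_lit 336118) (nat_lit 9) (.e (nat_lit 336453) (nat_lit 34) (.e (nat_lit 483365) (nat_lit 18) .nil)))))) (.g (nat_lit 0) .nil .nil))) 
(.lf (nat_lit 184688) (.g (nat_lit 1620) (.e (nat_lit 57854) (nat_lit 252) (.e (nat_lit 57378) (nat_lit 3) (.e (nat_lit 98317) (nat_lit 9) (.e (nat_lit 336086) (nat_lit 9) (.e (nat_lit 336369) (nat_lit 27) .nil))))) .nil))))) (.nd (nat_lit 4) (.nd (nat_lit 5) (.nd (nat_lit 6) 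
(.lf (nat_lit 184584) (.g (nat_lit 2749) (.e (nat_lit 57854) (nat_lit 252) (.e (nat_lit 57373) (nat_lit 2) (.e (nat_lit 90158) (nat_lit 11) (.e (nat_lit 24655) (nat_lit 13) (.e (nat_lit 393228) (nat_lit 9) .nil))))) .nil)) 
(.lf (nat_lit 184648) (.g (nat_lit 2987) (.e (nat_lit 57854) (nat_lit 252) (.e (nat_lit 57377) (nat_lit 3) (.e (nat_lit 98317) (nat_lit 9) (.e (nat_lit 336084) (nat_lit 9) .nil)))) .nil))) (.nd (nat_lit 6) 
(.lf (nat_lit 184616) (.g (nat_lit 3598) (.e (nat_lit 57854) (nat_lit 252) (.e (nat_lit 57373) (nat_lit 2) (.e (nat_lit 90160) (nat_lit 11) (.e (nat_lit 24660) (nat_lit 13) (.e (nat_lit 393229) (nat_lit 9) (.e (nat_lit 335987) (nat_lit 1) .nil)))))) (.g (nat_lit 5) .nil .nil))) 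
(.lf (nat_lit 184680) (.g (nat_lit 893) (.e (nat_lit 57854) (nat_lit 252) (.e (nat_lit 57378) (nat_lit 3) (.e (nat_lit 98307) (nat_lit 0) .nil))) .nil)))) (.nd (nat_lit 5) (.nd (nat_lit 6) 
(.lf (nat_lit 184600) (.g (nat_lit 2127) (.e (nat_lit 57854) (nat_lit 252) (.e (nat_lit 57373) (nat_lit 2) (.e (nat_lit 90160) (nat_lit 11) (.e (nat_lit 24625) (nat_lit 9) (.e (nat_lit 336455) (nat_lit 34) .nil))))) .nil)) 
(.lf (nat_lit 184664) (.g (nat_lit 4155) (.e (nat_lit 57854) (nat_lit 252) (.e (nat_lit 57377) (nat_lit 3) (.e (nat_lit 98317) (nat_lit 9) (.e (nat_lit 336201) (nat_lit 12) .nil)))) .nil))) (.nd (nat_lit 6) 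
(.lf (nat_lit 184632) (.g (nat_lit 4125) (.e (nat_lit 57854) (nat_lit 252) (.e (nat_lit 57377) (nat_lit 3) (.e (nat_lit 98317) (nat_lit 9) (.e (nat_lit 335899) (nat_lit 0) .nil)))) .nil)) 
(.lf (nat_lit 184696) (.g (nat_lit 455) (.e (nat_lit 57854) (nat_lit 252) (.e (nat_lit 57378) (nat_lit 3) (.e (nat_lit 106240) (nat_lit 10) .nil))) .nil)))))) (.nd (nat_lit 3) (.nd (nat_lit 4) (.nd (nat_lit 5) (.nd (nat_lit 6) 
(.lf (nat_lit 184580) (.g (nat_lit 1947) (.e (nat_lit 57854) (nat_lit 252) (.e (nat_lit 57373) (nat_lit 2) (.e (nat_lit 90158) (nat_lit 11) (.e (nat_lit 24654) (nat_lit 13) (.e (nat_lit 393225) (nat_lit 9) .nil))))) .nil)) 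
(.lf (nat_lit 184644) (.g (nat_lit 4407) (.e (nat_lit 57854) (nat_lit 252) (.e (nat_lit 57377) (nat_lit 3) (.e (nat_lit 98317) (nat_lit 9) (.e (nat_lit 336027) (nat_lit 3) (.e (nat_lit 98341) (nat_lit 20) (.e (nat_lit 221215) (nat_lit 23) (.e (nat_lit 204830) (nat_lit 18) .nil))))))) (.g (nat_lit 5) .nil .nil)))) (.nd (nat_lit 6) 
(.lf (nat_lit 184612) (.g (nat_lit 2784) (.e (nat_lit 57854) (nat_lit 252) (.e (nat_lit 57373) (nat_lit 2) (.e (nat_lit 90160) (nat_lit 11) (.e (nat_lit 24657) (nat_lit 13) (.e (nat_lit 393229) (nat_lit 9) (.e (nat_lit 335986) (nat_lit 1) .nil)))))) (.g (nat_lit 4) .nil .nil))) 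
(.lf (nat_lit 184676) (.g (nat_lit 2568) (.e (nat_lit 57854) (nat_lit 252) (.e (nat_lit 57377) (nat_lit 3) (.e (nat_lit 98317) (nat_lit 9) (.e (nat_lit 343808) (nat_lit 13) .nil)))) .nil)))) (.nd (nat_lit 5) (.nd (nat_lit 6) 
(.lf (nat_lit 184596) (.g (nat_lit 3250) (.e (nat_lit 57854) (nat_lit 252) (.e (nat_lit 57373) (nat_lit 2) (.e (nat_lit 90160) (nat_lit 11) (.e (nat_lit 24607) (nat_lit 3) (.e (nat_lit 98341) (nat_lit 20) (.e (nat_lit 221214) (nat_lit 23) (.e (nat_lit 204830) (nat_lit 18) .nil))))))) (.g (nat_lit 4) .nil .nil))) 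
(.lf (nat_lit 184660) (.g (nat_lit 2568) (.e (nat_lit 57854) (nat_lit 252) (.e (nat_lit 57377) (nat_lit 3) (.e (nat_lit 98317) (nat_lit 9) (.e (nat_lit 343808) (nat_lit 9) .nil)))) .nil))) (.nd (nat_lit 6) 
(.lf (nat_lit 184628) (.g (nat_lit 4138) (.e (nat_lit 57854) (nat_lit 252) (.e (nat_lit 57377) (nat_lit 3) (.e (nat_lit 98317) (nat_lit 9) (.e (nat_lit 335892) (nat_lit 0) .nil)))) .nil)) 
(.lf (nat_lit 184692) (.g (nat_lit 4424) (.e (nat_lit 57854) (nat_lit 252) (.e (nat_lit 57378) (nat_lit 3) (.e (nat_lit 98317) (nat_lit 9) (.e (nat_lit 336213) (nat_lit 13) (.e (nat_lit 393225) (nat_lit 9) (.e (nat_lit 335996) (nat_lit 1) .nil)))))) (.g (nat_lit 0) .nil .nil)))))) (.nd (nat_lit 4) (.nd (nat_lit 5) (.nd (nat_lit 6) 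
(.lf (nat_lit 184588) (.g (nat_lit 3013) (.e (nat_lit 57854) (nat_lit 252) (.e (nat_lit 57373) (nat_lit 2) (.e (nat_lit 90158) (nat_lit 11) (.e (nat_lit 24660) (nat_lit 13) (.e (nat_lit 393229) (nat_lit 9) (.e (nat_lit 335993) (nat_lit 1) .nil)))))) (.g (nat_lit 4) .nil .nil))) 
(.lf (nat_lit 184652) (.g (nat_lit 2400) (.e (nat_lit 57854) (nat_lit 252) (.e (nat_lit 57377) (nat_lit 3) (.e (nat_lit 98317) (nat_lit 9) (.e (nat_lit 336087) (nat_lit 9) .nil)))) .nil))) (.nd (nat_lit 6) 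
(.lf (nat_lit 184620) (.g (nat_lit 313) (.e (nat_lit 57854) (nat_lit 252) (.e (nat_lit 57377) (nat_lit 3) (.e (nat_lit 98313) (nat_lit 9) .nil))) .nil)) 
(.lf (nat_lit 184684) (.g (nat_lit 1771) (.e (nat_lit 57854) (nat_lit 252) (.e (nat_lit 57378) (nat_lit 3) (.e (nat_lit 98313) (nat_lit 9) (.e (nat_lit 336213) (nat_lit 13) (.e (nat_lit 393224) (nat_lit 9) .nil))))) .nil)))) (.nd (nat_lit 5) (.nd (nat_lit 6) 
(.lf (nat_lit 184604) (.g (nat_lit 3148) (.e (nat_lit 57854) (nat_lit 252) (.e (nat_lit 57373) (nat_lit 2) (.e (nat_lit 90160) (nat_lit 11) (.e (nat_lit 24630) (nat_lit 9) (.e (nat_lit 336369) (nat_lit 27) (.e (nat_lit 426501) (nat_lit 27) (.e (nat_lit 335993) (nat_lit 1) .nil))))))) (.g (nat_lit 4) .nil .nil))) 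
(.lf (nat_lit 184668) (.g (nat_lit 2809) (.e (nat_lit 57854) (nat_lit 252) (.e (nat_lit 57377) (nat_lit 3) (.e (nat_lit 98317) (nat_lit 9) (.e (nat_lit 336212) (nat_lit 13) .nil)))) .nil))) (.nd (nat_lit 6) 
(.lf (nat_lit 184636) (.g (nat_lit 4154) (.e (nat_lit 57854) (nat_lit 252) (.e (nat_lit 57377) (nat_lit 3) (.e (nat_lit 98317) (nat_lit 9) (.e (nat_lit 335934) (nat_lit 0) .nil)))) .nil)) 
(.lf (nat_lit 184700) (.g (nat_lit 3028) (.e (nat_lit 57854) (nat_lit 252) (.e (nat_lit 57378) (nat_lit 3) (.e (nat_lit 98333) (nat_lit 18) (.e (nat_lit 164179) (nat_lit 154) (.e (nat_lit 57364) (nat_lit 1) .nil))))) .nil))))))) (.nd (nat_lit 2) (.nd (nat_lit 3) (.nd (nat_lit 4) (.nd (nat_lit 5) (.nd (nat_lit 6) 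
(.lf (nat_lit 184578) (.g (nat_lit 1391) (.e (nat_lit 57854) (nat_lit 252) (.e (nat_lit 57373) (nat_lit 2) (.e (nat_lit 90158) (nat_lit 11) (.e (nat_lit 24629) (nat_lit 9) .nil)))) .nil)) 
(.lf (nat_lit 184642) (.g (nat_lit 2586) (.e (nat_lit 57854) (nat_lit 252) (.e (nat_lit 57377) (nat_lit 3) (.e (nat_lit 98317) (nat_lit 9) (.e (nat_lit 336027) (nat_lit 3) .nil)))) .nil))) (.nd (nat_lit 6) 
(.lf (nat_lit 184610) (.g (nat_lit 3827) (.e (nat_lit 57854) (nat_lit 252) (.e (nat_lit 57373) (nat_lit 2) (.e (nat_lit 90160) (nat_lit 11) (.e (nat_lit 24655) (nat_lit 13) (.e (nat_lit 393229) (nat_lit 9) (.e (nat_lit 335993) (nat_lit 1) .nil)))))) (.g (nat_lit 5) .nil .nil))) 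
(.lf (nat_lit 184674) (.g (nat_lit 2663) (.e (nat_lit 57854) (nat_lit 252) (.e (nat_lit 57377) (nat_lit 3) (.e (nat_lit 98317) (nat_lit 9) (.e (nat_lit 336221) (nat_lit 13) .nil)))) .nil)))) (.nd (nat_lit 5) (.nd (nat_lit 6) 
(.lf (nat_lit 184594) (.g (nat_lit 2289) (.e (nat_lit 57854) (nat_lit 252) (.e (nat_lit 57373) (nat_lit 2) (.e (nat_lit 90160) (nat_lit 11) (.e (nat_lit 24580) (nat_lit 0) (.e (nat_lit 6508) (nat_lit 345) .nil))))) .nil)) 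
(.lf (nat_lit 184658) (.g (nat_lit 4149) (.e (nat_lit 57854) (nat_lit 252) (.e (nat_lit 57377) (nat_lit 3) (.e (nat_lit 98317) (nat_lit 9) (.e (nat_lit 336100) (nat_lit 9) .nil)))) .nil))) (.nd (nat_lit 6) 
(.lf (nat_lit 184626) (.g (nat_lit 625) (.e (nat_lit 57854) (nat_lit 252) (.e (nat_lit 57377) (nat_lit 3) (.e (nat_lit 98316) (nat_lit 9) .nil))) .nil)) 
(.lf (nat_lit 184690) (.g (nat_lit 1382) (.e (nat_lit 57854) (nat_lit 252) (.e (nat_lit 57378) (nat_lit 3) (.e (nat_lit 98317) (nat_lit 9) (.e (nat_lit 336203) (nat_lit 12) .nil)))) .nil))))) (.nd (nat_lit 4) (.nd (nat_lit 5) (.nd (nat_lit 6) 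
(.lf (nat_lit 184586) (.g (nat_lit 4185) (.e (nat_lit 57854) (nat_lit 252) (.e (nat_lit 57373) (nat_lit 2) (.e (nat_lit 90158) (nat_lit 11) (.e (nat_lit 24658) (nat_lit 13) (.e (nat_lit 393225) (nat_lit 9) (.e (nat_lit 335996) (nat_lit 1) .nil)))))) (.g (nat_lit 0) .nil .nil))) 
(.lf (nat_lit 184650) (.g (nat_lit 1246) (.e (nat_lit 57854) (nat_lit 252) (.e (nat_lit 57377) (nat_lit 3) (.e (nat_lit 98317) (nat_lit 9) (.e (nat_lit 336086) (nat_lit 9) .nil)))) .nil))) (.nd (nat_lit 6) 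
(.lf (nat_lit 184618) (.g (nat_lit 1294) (.e (nat_lit 57854) (nat_lit 252) (.e (nat_lit 57373) (nat_lit 2) (.e (nat_lit 90165) (nat_lit 12) (.e (nat_lit 171776) (nat_lit 48) .nil)))) .nil)) 
(.lf (nat_lit 184682) (.g (nat_lit 1572) (.e (nat_lit 57854) (nat_lit 252) (.e (nat_lit 57378) (nat_lit 3) (.e (nat_lit 98312) (nat_lit 9) (.e (nat_lit 336223) (nat_lit 13) (.e (nat_lit 393229) (nat_lit 9) .nil))))) .nil)))) (.nd (nat_lit 5) (.nd (nat_lit 6) 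
(.lf (nat_lit 184602) (.g (nat_lit 2108) (.e (nat_lit 57854) (nat_lit 252) (.e (nat_lit 57373) (nat_lit 2) (.e (nat_lit 90160) (nat_lit 11) (.e (nat_lit 24628) (nat_lit 9) (.e (nat_lit 336370) (nat_lit 27) .nil))))) .nil)) 
(.lf (nat_lit 184666) (.g (nat_lit 3877) (.e (nat_lit 57854) (nat_lit 252) (.e (nat_lit 57377) (nat_lit 3) (.e (nat_lit 98317) (nat_lit 9) (.e (nat_lit 336203) (nat_lit 12) .nil)))) .nil))) (.nd (nat_lit 6) 
(.lf (nat_lit 184634) (.g (nat_lit 4155) (.e (nat_lit 57854) (nat_lit 252) (.e (nat_lit 57377) (nat_lit 3) (.e (nat_lit 98317) (nat_lit 9) (.e (nat_lit 335926) (nat_lit 0) .nil)))) .nil)) 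
(.lf (nat_lit 184698) (.g (nat_lit 4366) (.e (nat_lit 57854) (nat_lit 252) (.e (nat_lit 57378) (nat_lit 3) (.e (nat_lit 106240) (nat_lit 10) (.e (nat_lit 344133) (nat_lit 26) (.e (nat_lit 557105) (nat_lit 14) (.e (nat_lit 180252) (nat_lit 10) (.e (nat_lit 573451) (nat_lit 9) (.e (nat_lit 1177) (nat_lit 87) .nil)))))))) (.g (nat_lit 6) .nil .nil))))))) 
(.nd (nat_lit 3) (.nd (nat_lit 4) (.nd (nat_lit 5) (.nd (nat_lit 6) 
(.lf (nat_lit 184582) (.g (nat_lit 3164) (.e (nat_lit 57854) (nat_lit 252) (.e (nat_lit 57373) (nat_lit 2) (.e (nat_lit 90158) (nat_lit 11) (.e (nat_lit 24655) (nat_lit 13) (.e (nat_lit 393224) (nat_lit 9) (.e (nat_lit 335988) (nat_lit 1) .nil)))))) (.g (nat_lit 4) .nil .nil))) 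
(.lf (nat_lit 184646) (.g (nat_lit 3201) (.e (nat_lit 57854) (nat_lit 252) (.e (nat_lit 57377) (nat_lit 3) (.e (nat_lit 98317) (nat_lit 9) (.e (nat_lit 336074) (nat_lit 9) .nil)))) .nil))) (.nd (nat_lit 6) 
(.lf (nat_lit 184614) (.g (nat_lit 2790) (.e (nat_lit 57854) (nat_lit 252) (.e (nat_lit 57373) (nat_lit 2) (.e (nat_lit 90160) (nat_lit 11) (.e (nat_lit 24658) (nat_lit 13) (.e (nat_lit 393228) (nat_lit 9) (.e (nat_lit 335987) (nat_lit 1) .nil)))))) (.g (nat_lit 4) .nil .nil))) 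
(.lf (nat_lit 184678) (.g (nat_lit 1003) (.e (nat_lit 57854) (nat_lit 252) (.e (nat_lit 57378) (nat_lit 3) (.e (nat_lit 98305) (nat_lit 0) .nil))) .nil)))) (.nd (nat_lit 5) (.nd (nat_lit 6) 
(.lf (nat_lit 184598) (.g (nat_lit 2193) (.e (nat_lit 57854) (nat_lit 252) (.e (nat_lit 57373) (nat_lit 2) (.e (nat_lit 90160) (nat_lit 11) (.e (nat_lit 24608) (nat_lit 3) (.e (nat_lit 98342) (nat_lit 20) .nil))))) .nil)) 
(.lf (nat_lit 184662) (.g (nat_lit 4155) (.e (nat_lit 57854) (nat_lit 252) (.e (nat_lit 57377) (nat_lit 3) (.e (nat_lit 98317) (nat_lit 9) (.e (nat_lit 336195) (nat_lit 12) .nil)))) .nil))) (.nd (nat_lit 6) 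
(.lf (nat_lit 184630) (.g (nat_lit 4155) (.e (nat_lit 57854) (nat_lit 252) (.e (nat_lit 57377) (nat_lit 3) (.e (nat_lit 98317) (nat_lit 9) (.e (nat_lit 335894) (nat_lit 0) .nil)))) .nil)) 
(.lf (nat_lit 184694) (.g (nat_lit 2837) (.e (nat_lit 57854) (nat_lit 252) (.e (nat_lit 57378) (nat_lit 3) (.e (nat_lit 98317) (nat_lit 9) (.e (nat_lit 336213) (nat_lit 13) (.e (nat_lit 393229) (nat_lit 9) (.e (nat_lit 335993) (nat_lit 1) .nil)))))) (.g (nat_lit 4) .nil .nil)))))) (.nd (nat_lit 4) (.nd (nat_lit 5) (.nd (nat_lit 6) 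
(.lf (nat_lit 184590) (.g (nat_lit 1015) (.e (nat_lit 57854) (nat_lit 252) (.e (nat_lit 57373) (nat_lit 2) (.e (nat_lit 90159) (nat_lit 11) (.e (nat_lit 24636) (nat_lit 9) .nil)))) .nil)) 
(.lf (nat_lit 184654) (.g (nat_lit 1016) (.e (nat_lit 57854) (nat_lit 252) (.e (nat_lit 57377) (nat_lit 3) (.e (nat_lit 98317) (nat_lit 9) (.e (nat_lit 336088) (nat_lit 9) .nil)))) .nil))) (.nd (nat_lit 6) 
(.lf (nat_lit 184622) (.g (nat_lit 1157) (.e (nat_lit 57854) (nat_lit 252) (.e (nat_lit 57377) (nat_lit 3) (.e (nat_lit 98313) (nat_lit 9) (.e (nat_lit 336091) (nat_lit 9) (.e (nat_lit 336412) (nat_lit 27) .nil))))) .nil)) 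
(.lf (nat_lit 184686) (.g (nat_lit 2463) (.e (nat_lit 57854) (nat_lit 252) (.e (nat_lit 57378) (nat_lit 3) (.e (nat_lit 98313) (nat_lit 9) (.e (nat_lit 336223) (nat_lit 13) (.e (nat_lit 393229) (nat_lit 9) (.e (nat_lit 335993) (nat_lit 1) .nil)))))) (.g (nat_lit 4) .nil .nil))))) (.nd (nat_lit 5) (.nd (nat_lit 6) 
(.lf (nat_lit 184606) (.g (nat_lit 2134) (.e (nat_lit 57854) (nat_lit 252) (.e (nat_lit 57373) (nat_lit 2) (.e (nat_lit 90160) (nat_lit 11) (.e (nat_lit 24638) (nat_lit 9) (.e (nat_lit 336387) (nat_lit 27) (.e (nat_lit 426500) (nat_lit 27) (.e (nat_lit 335988) (nat_lit 1) .nil))))))) (.g (nat_lit 4) .nil .nil))) 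
(.lf (nat_lit 184670) (.g (nat_lit 2936) (.e (nat_lit 57854) (nat_lit 252) (.e (nat_lit 57377) (nat_lit 3) (.e (nat_lit 98317) (nat_lit 9) (.e (nat_lit 336213) (nat_lit 13) (.e (nat_lit 393224) (nat_lit 9) (.e (nat_lit 335988) (nat_lit 1) .nil)))))) (.g (nat_lit 4) .nil .nil)))) (.nd (nat_lit 6) 
(.lf (nat_lit 184638) (.g (nat_lit 4611) (.e (nat_lit 57854) (nat_lit 252) (.e (nat_lit 57377) (nat_lit 3) (.e (nat_lit 98317) (nat_lit 9) (.e (nat_lit 336021) (nat_lit 3) .nil)))) .nil)) 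
(.lf (nat_lit 184702) (.g (nat_lit 2118) (.e (nat_lit 57854) (nat_lit 252) (.e (nat_lit 57378) (nat_lit 3) (.e (nat_lit 98333) (nat_lit 18) (.e (nat_lit 164399) (nat_lit 256) (.e (nat_lit 57588) (nat_lit 73) .nil))))) .nil)))))))) (.nd (nat_lit 1) (.nd (nat_lit 2) (.nd (nat_lit 3) (.nd (nat_lit 4) (.nd (nat_lit 5) (.nd (nat_lit 6) 
(.lf (nat_lit 184577) (.g (nat_lit 1731) (.e (nat_lit 57854) (nat_lit 252) (.e (nat_lit 57373) (nat_lit 2) (.e (nat_lit 90158) (nat_lit 11) (.e (nat_lit 24628) (nat_lit 9) (.e (nat_lit 336374) (nat_lit 27) .nil))))) .nil)) 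
(.lf (nat_lit 184641) (.g (nat_lit 4188) (.e (nat_lit 57854) (nat_lit 252) (.e (nat_lit 57377) (nat_lit 3) (.e (nat_lit 98317) (nat_lit 9) (.e (nat_lit 336026) (nat_lit 3) (.e (nat_lit 98342) (nat_lit 20) .nil))))) .nil))) (.nd (nat_lit 6) 
(.lf (nat_lit 184609) (.g (nat_lit 2356) (.e (nat_lit 57854) (nat_lit 252) (.e (nat_lit 57373) (nat_lit 2) (.e (nat_lit 90160) (nat_lit 11) (.e (nat_lit 24655) (nat_lit 13) (.e (nat_lit 393228) (nat_lit 9) .nil))))) .nil)) 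
(.lf (nat_lit 184673) (.g (nat_lit 1442) (.e (nat_lit 57854) (nat_lit 252) (.e (nat_lit 57377) (nat_lit 3) (.e (nat_lit 98317) (nat_lit 9) (.e (nat_lit 336214) (nat_lit 13) .nil)))) .nil)))) (.nd (nat_lit 5) (.nd (nat_lit 6) 
(.lf (nat_lit 184593) (.g (nat_lit 1499) (.e (nat_lit 57854) (nat_lit 252) (.e (nat_lit 57373) (nat_lit 2) (.e (nat_lit 90160) (nat_lit 11) (.e (nat_lit 24580) (nat_lit 0) .nil)))) .nil)) 
(.lf (nat_lit 184657) (.g (nat_lit 3682) (.e (nat_lit 57854) (nat_lit 252) (.e (nat_lit 57377) (nat_lit 3) (.e (nat_lit 98317) (nat_lit 9) (.e (nat_lit 336091) (nat_lit 9) .nil)))) .nil))) (.nd (nat_lit 6) 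
(.lf (nat_lit 184625) (.g (nat_lit 1165) (.e (nat_lit 57854) (nat_lit 252) (.e (nat_lit 57377) (nat_lit 3) (.e (nat_lit 98315) (nat_lit 9) (.e (nat_lit 336152) (nat_lit 9) (.e (nat_lit 343808) (nat_lit 34) (.e (nat_lit 483364) (nat_lit 18) .nil)))))) (.g (nat_lit 4) .nil .nil))) 
(.lf (nat_lit 184689) (.g (nat_lit 842) (.e (nat_lit 57854) (nat_lit 252) (.e (nat_lit 57378) (nat_lit 3) (.e (nat_lit 98317) (nat_lit 9) (.e (nat_lit 336088) (nat_lit 9) .nil)))) .nil))))) (.nd (nat_lit 4) (.nd (nat_lit 5) (.nd (nat_lit 6) 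
(.lf (nat_lit 184585) (.g (nat_lit 3857) (.e (nat_lit 57854) (nat_lit 252) (.e (nat_lit 57373) (nat_lit 2) (.e (nat_lit 90158) (nat_lit 11) (.e (nat_lit 24655) (nat_lit 13) (.e (nat_lit 393229) (nat_lit 9) (.e (nat_lit 335993) (nat_lit 1) .nil)))))) (.g (nat_lit 5) .nil .nil))) 
(.lf (nat_lit 184649) (.g (nat_lit 2532) (.e (nat_lit 57854) (nat_lit 252) (.e (nat_lit 57377) (nat_lit 3) (.e (nat_lit 98317) (nat_lit 9) (.e (nat_lit 336085) (nat_lit 9) .nil)))) .nil))) (.nd (nat_lit 6) 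
(.lf (nat_lit 184617) (.g (nat_lit 3219) (.e (nat_lit 57854) (nat_lit 252) (.e (nat_lit 57373) (nat_lit 2) (.e (nat_lit 90160) (nat_lit 11) (.e (nat_lit 24660) (nat_lit 13) (.e (nat_lit 393229) (nat_lit 9) (.e (nat_lit 335993) (nat_lit 1) .nil)))))) (.g (nat_lit 4) .nil .nil))) 
(.lf (nat_lit 184681) (.g (nat_lit 1122) (.e (nat_lit 57854) (nat_lit 252) (.e (nat_lit 57378) (nat_lit 3) (.e (nat_lit 98307) (nat_lit 0) (.e (nat_lit 7936) (nat_lit 347) .nil)))) .nil)))) (.nd (nat_lit 5) (.nd (nat_lit 6) 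
(.lf (nat_lit 184601) (.g (nat_lit 2139) (.e (nat_lit 57854) (nat_lit 252) (.e (nat_lit 57373) (nat_lit 2) (.e (nat_lit 90160) (nat_lit 11) (.e (nat_lit 24628) (nat_lit 9) (.e (nat_lit 336366) (nat_lit 27) .nil))))) .nil)) 
(.lf (nat_lit 184665) (.g (nat_lit 4154) (.e (nat_lit 57854) (nat_lit 252) (.e (nat_lit 57377) (nat_lit 3) (.e (nat_lit 98317) (nat_lit 9) (.e (nat_lit 336202) (nat_lit 12) .nil)))) .nil))) (.nd (nat_lit 6) 
(.lf (nat_lit 184633) (.g (nat_lit 4057) (.e (nat_lit 57854) (nat_lit 252) (.e (nat_lit 57377) (nat_lit 3) (.e (nat_lit 98317) (nat_lit 9) (.e (nat_lit 335914) (nat_lit 0) .nil)))) .nil)) 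
(.lf (nat_lit 184697) (.g (nat_lit 3689) (.e (nat_lit 57854) (nat_lit 252) (.e (nat_lit 57378) (nat_lit 3) (.e (nat_lit 106240) (nat_lit 10) (.e (nat_lit 344132) (nat_lit 26) (.e (nat_lit 557105) (nat_lit 14) (.e (nat_lit 180252) (nat_lit 10) (.e (nat_lit 573458) (nat_lit 9) (.e (nat_lit 1178) (nat_lit 87) .nil)))))))) (.g (nat_lit 6) .nil .nil))))))) 
(.nd (nat_lit 3) (.nd (nat_lit 4) (.nd (nat_lit 5) (.nd (nat_lit 6) 
(.lf (nat_lit 184581) (.g (nat_lit 1934) (.e (nat_lit 57854) (nat_lit 252) (.e (nat_lit 57373) (nat_lit 2) (.e (nat_lit 90158) (nat_lit 11) (.e (nat_lit 24654) (nat_lit 13) (.e (nat_lit 393229) (nat_lit 9) .nil))))) .nil)) 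
(.lf (nat_lit 184645) (.g (nat_lit 3402) (.e (nat_lit 57854) (nat_lit 252) (.e (nat_lit 57377) (nat_lit 3) (.e (nat_lit 98317) (nat_lit 9) (.e (nat_lit 336073) (nat_lit 9) .nil)))) .nil))) (.nd (nat_lit 6) 
(.lf (nat_lit 184613) (.g (nat_lit 3001) (.e (nat_lit 57854) (nat_lit 252) (.e (nat_lit 57373) (nat_lit 2) (.e (nat_lit 90160) (nat_lit 11) (.e (nat_lit 24657) (nat_lit 13) (.e (nat_lit 401152) (nat_lit 9) (.e (nat_lit 335988) (nat_lit 1) .nil)))))) (.g (nat_lit 4) .nil .nil))) 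
(.lf (nat_lit 184677) (.g (nat_lit 346) (.e (nat_lit 57854) (nat_lit 252) (.e (nat_lit 57377) (nat_lit 3) (.e (nat_lit 106240) (nat_lit 9) .nil))) .nil)))) (.nd (nat_lit 5) (.nd (nat_lit 6) 
(.lf (nat_lit 184597) (.g (nat_lit 3505) (.e (nat_lit 57854) (nat_lit 252) (.e (nat_lit 57373) (nat_lit 2) (.e (nat_lit 90160) (nat_lit 11) (.e (nat_lit 24607) (nat_lit 3) (.e (nat_lit 98342) (nat_lit 20) (.e (nat_lit 221214) (nat_lit 23) (.e (nat_lit 204830) (nat_lit 18) .nil))))))) (.g (nat_lit 4) .nil .nil))) 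
(.lf (nat_lit 184661) (.g (nat_lit 3592) (.e (nat_lit 57854) (nat_lit 252) (.e (nat_lit 57377) (nat_lit 3) (.e (nat_lit 98317) (nat_lit 9) (.e (nat_lit 336194) (nat_lit 12) .nil)))) .nil))) (.nd (nat_lit 6) 
(.lf (nat_lit 184629) (.g (nat_lit 4155) (.e (nat_lit 57854) (nat_lit 252) (.e (nat_lit 57377) (nat_lit 3) (.e (nat_lit 98317) (nat_lit 9) (.e (nat_lit 335893) (nat_lit 0) .nil)))) .nil)) 
(.lf (nat_lit 184693) (.g (nat_lit 2977) (.e (nat_lit 57854) (nat_lit 252) (.e (nat_lit 57378) (nat_lit 3) (.e (nat_lit 98317) (nat_lit 9) (.e (nat_lit 336213) (nat_lit 13) (.e (nat_lit 393228) (nat_lit 9) .nil))))) .nil))))) (.nd (nat_lit 4) (.nd (nat_lit 5) (.nd (nat_lit 6) 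
(.lf (nat_lit 184589) (.g (nat_lit 3305) (.e (nat_lit 57854) (nat_lit 252) (.e (nat_lit 57373) (nat_lit 2) (.e (nat_lit 90159) (nat_lit 11) (.e (nat_lit 24628) (nat_lit 9) (.e (nat_lit 336454) (nat_lit 34) (.e (nat_lit 483366) (nat_lit 18) .nil)))))) (.g (nat_lit 6) .nil .nil))) 
(.lf (nat_lit 184653) (.g (nat_lit 2883) (.e (nat_lit 57854) (nat_lit 252) (.e (nat_lit 57377) (nat_lit 3) (.e (nat_lit 98317) (nat_lit 9) (.e (nat_lit 336087) (nat_lit 9) (.e (nat_lit 336455) (nat_lit 34) .nil))))) .nil))) (.nd (nat_lit 6) 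
(.lf (nat_lit 184621) (.g (nat_lit 3622) (.e (nat_lit 57854) (nat_lit 252) (.e (nat_lit 57377) (nat_lit 3) (.e (nat_lit 98313) (nat_lit 9) (.e (nat_lit 336027) (nat_lit 3) (.e (nat_lit 98338) (nat_lit 19) (.e (nat_lit 213013) (nat_lit 9) (.e (nat_lit 2684) (nat_lit 168) (.e (nat_lit 204831) (nat_lit 18) .nil)))))))) (.g (nat_lit 4) .nil .nil))) 
(.lf (nat_lit 184685) (.g (nat_lit 2468) (.e (nat_lit 57854) (nat_lit 252) (.e (nat_lit 57378) (nat_lit 3) (.e (nat_lit 98313) (nat_lit 9) (.e (nat_lit 336213) (nat_lit 13) (.e (nat_lit 393229) (nat_lit 9) (.e (nat_lit 335993) (nat_lit 1) .nil)))))) (.g (nat_lit 4) .nil .nil))))) (.nd (nat_lit 5) (.nd (nat_lit 6) 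
(.lf (nat_lit 184605) (.g (nat_lit 1775) (.e (nat_lit 57854) (nat_lit 252) (.e (nat_lit 57373) (nat_lit 2) (.e (nat_lit 90160) (nat_lit 11) (.e (nat_lit 24631) (nat_lit 9) .nil)))) .nil)) 
(.lf (nat_lit 184669) (.g (nat_lit 2689) (.e (nat_lit 57854) (nat_lit 252) (.e (nat_lit 57377) (nat_lit 3) (.e (nat_lit 98317) (nat_lit 9) (.e (nat_lit 336213) (nat_lit 13) (.e (nat_lit 393224) (nat_lit 9) .nil))))) .nil))) (.nd (nat_lit 6) 
(.lf (nat_lit 184637) (.g (nat_lit 4106) (.e (nat_lit 57854) (nat_lit 252) (.e (nat_lit 57377) (nat_lit 3) (.e (nat_lit 98317) (nat_lit 9) (.e (nat_lit 336020) (nat_lit 3) .nil)))) .nil)) 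
(.lf (nat_lit 184701) (.g (nat_lit 1806) (.e (nat_lit 57854) (nat_lit 252) (.e (nat_lit 57378) (nat_lit 3) (.e (nat_lit 98333) (nat_lit 18) (.e (nat_lit 164383) (nat_lit 254) .nil)))) .nil))))))) (.nd (nat_lit 2) (.nd (nat_lit 3) (.nd (nat_lit 4) (.nd (nat_lit 5) (.nd (nat_lit 6) 
(.lf (nat_lit 184579) (.g (nat_lit 1791) (.e (nat_lit 57854) (nat_lit 252) (.e (nat_lit 57373) (nat_lit 2) (.e (nat_lit 90158) (nat_lit 11) (.e (nat_lit 24630) (nat_lit 9) (.e (nat_lit 336414) (nat_lit 27) .nil))))) .nil)) 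
(.lf (nat_lit 184643) (.g (nat_lit 4652) (.e (nat_lit 57854) (nat_lit 252) (.e (nat_lit 57377) (nat_lit 3) (.e (nat_lit 98317) (nat_lit 9) (.e (nat_lit 336027) (nat_lit 3) (.e (nat_lit 98341) (nat_lit 20) (.e (nat_lit 221214) (nat_lit 23) (.e (nat_lit 204830) (nat_lit 18) .nil))))))) (.g (nat_lit 5) .nil .nil)))) (.nd (nat_lit 6) 
(.lf (nat_lit 184611) (.g (nat_lit 2029) (.e (nat_lit 57854) (nat_lit 252) (.e (nat_lit 57373) (nat_lit 2) (.e (nat_lit 90160) (nat_lit 11) (.e (nat_lit 24657) (nat_lit 13) (.e (nat_lit 393225) (nat_lit 9) .nil))))) .nil)) 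
(.lf (nat_lit 184675) (.g (nat_lit 2854) (.e (nat_lit 57854) (nat_lit 252) (.e (nat_lit 57377) (nat_lit 3) (.e (nat_lit 98317) (nat_lit 9) (.e (nat_lit 336223) (nat_lit 13) (.e (nat_lit 393224) (nat_lit 9) .nil))))) .nil)))) (.nd (nat_lit 5) (.nd (nat_lit 6) 
(.lf (nat_lit 184595) (.g (nat_lit 2365) (.e (nat_lit 57854) (nat_lit 252) (.e (nat_lit 57373) (nat_lit 2) (.e (nat_lit 90160) (nat_lit 11) (.e (nat_lit 24580) (nat_lit 0) (.e (nat_lit 6510) (nat_lit 345) .nil))))) .nil)) 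
(.lf (nat_lit 184659) (.g (nat_lit 4127) (.e (nat_lit 57854) (nat_lit 252) (.e (nat_lit 57377) (nat_lit 3) (.e (nat_lit 98317) (nat_lit 9) (.e (nat_lit 336150) (nat_lit 9) .nil)))) .nil))) (.nd (nat_lit 6) 
(.lf (nat_lit 184627) (.g (nat_lit 267) (.e (nat_lit 57854) (nat_lit 252) (.e (nat_lit 57377) (nat_lit 3) (.e (nat_lit 98317) (nat_lit 9) .nil))) .nil)) 
(.lf (nat_lit 184691) (.g (nat_lit 1754) (.e (nat_lit 57854) (nat_lit 252) (.e (nat_lit 57378) (nat_lit 3) (.e (nat_lit 98317) (nat_lit 9) (.e (nat_lit 336212) (nat_lit 13) (.e (nat_lit 393225) (nat_lit 9) .nil))))) .nil))))) (.nd (nat_lit 4) (.nd (nat_lit 5) (.nd (nat_lit 6) 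
(.lf (nat_lit 184587) (.g (nat_lit 3522) (.e (nat_lit 57854) (nat_lit 252) (.e (nat_lit 57373) (nat_lit 2) (.e (nat_lit 90158) (nat_lit 11) (.e (nat_lit 24658) (nat_lit 13) (.e (nat_lit 393229) (nat_lit 9) (.e (nat_lit 335993) (nat_lit 1) .nil)))))) (.g (nat_lit 5) .nil .nil))) 
(.lf (nat_lit 184651) (.g (nat_lit 1895) (.e (nat_lit 57854) (nat_lit 252) (.e (nat_lit 57377) (nat_lit 3) (.e (nat_lit 98317) (nat_lit 9) (.e (nat_lit 336086) (nat_lit 9) (.e (nat_lit 336395) (nat_lit 27) .nil))))) .nil))) (.nd (nat_lit 6) 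
(.lf (nat_lit 184619) (.g (nat_lit 630) (.e (nat_lit 57854) (nat_lit 252) (.e (nat_lit 57377) (nat_lit 3) (.e (nat_lit 98307) (nat_lit 0) .nil))) .nil)) 
(.lf (nat_lit 184683) (.g (nat_lit 361) (.e (nat_lit 57854) (nat_lit 252) (.e (nat_lit 57378) (nat_lit 3) (.e (nat_lit 98313) (nat_lit 9) .nil))) .nil)))) (.nd (nat_lit 5) (.nd (nat_lit 6) 
(.lf (nat_lit 184603) (.g (nat_lit 3252) (.e (nat_lit 57854) (nat_lit 252) (.e (nat_lit 57373) (nat_lit 2) (.e (nat_lit 90160) (nat_lit 11) (.e (nat_lit 24630) (nat_lit 9) (.e (nat_lit 336369) (nat_lit 27) (.e (nat_lit 426499) (nat_lit 27) (.e (nat_lit 335993) (nat_lit 1) .nil))))))) (.g (nat_lit 4) .nil .nil))) 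
(.lf (nat_lit 184667) (.g (nat_lit 4033) (.e (nat_lit 57854) (nat_lit 252) (.e (nat_lit 57377) (nat_lit 3) (.e (nat_lit 98317) (nat_lit 9) (.e (nat_lit 336204) (nat_lit 12) .nil)))) .nil))) (.nd (nat_lit 6) 
(.lf (nat_lit 184635) (.g (nat_lit 4155) (.e (nat_lit 57854) (nat_lit 252) (.e (nat_lit 57377) (nat_lit 3) (.e (nat_lit 98317) (nat_lit 9) (.e (nat_lit 335933) (nat_lit 0) .nil)))) .nil)) 
(.lf (nat_lit 184699) (.g (nat_lit 3831) (.e (nat_lit 57854) (nat_lit 252) (.e (nat_lit 57378) (nat_lit 3) (.e (nat_lit 106240) (nat_lit 10) (.e (nat_lit 344133) (nat_lit 26) (.e (nat_lit 557105) (nat_lit 14) (.e (nat_lit 180252) (nat_lit 10) (.e (nat_lit 573458) (nat_lit 9) (.e (nat_lit 1178) (nat_lit 87) .nil)))))))) (.g (nat_lit 6) .nil .nil))))))) 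
(.nd (nat_lit 3) (.nd (nat_lit 4) (.nd (nat_lit 5) (.nd (nat_lit 6) 
(.lf (nat_lit 184583) (.g (nat_lit 4633) (.e (nat_lit 57854) (nat_lit 252) (.e (nat_lit 57373) (nat_lit 2) (.e (nat_lit 90158) (nat_lit 11) (.e (nat_lit 24655) (nat_lit 13) (.e (nat_lit 393225) (nat_lit 9) (.e (nat_lit 335996) (nat_lit 1) .nil)))))) (.g (nat_lit 0) .nil .nil))) 
(.lf (nat_lit 184647) (.g (nat_lit 2656) (.e (nat_lit 57854) (nat_lit 252) (.e (nat_lit 57377) (nat_lit 3) (.e (nat_lit 98317) (nat_lit 9) (.e (nat_lit 336075) (nat_lit 9) .nil)))) .nil))) (.nd (nat_lit 6) 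
(.lf (nat_lit 184615) (.g (nat_lit 3633) (.e (nat_lit 57854) (nat_lit 252) (.e (nat_lit 57373) (nat_lit 2) (.e (nat_lit 90160) (nat_lit 11) (.e (nat_lit 24658) (nat_lit 13) (.e (nat_lit 393229) (nat_lit 9) (.e (nat_lit 335993) (nat_lit 1) .nil)))))) (.g (nat_lit 5) .nil .nil))) 
(.lf (nat_lit 184679) (.g (nat_lit 1217) (.e (nat_lit 57854) (nat_lit 252) (.e (nat_lit 57378) (nat_lit 3) (.e (nat_lit 98306) (nat_lit 0) .nil))) .nil)))) (.nd (nat_lit 5) (.nd (nat_lit 6) 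
(.lf (nat_lit 184599) (.g (nat_lit 2118) (.e (nat_lit 57854) (nat_lit 252) (.e (nat_lit 57373) (nat_lit 2) (.e (nat_lit 90160) (nat_lit 11) (.e (nat_lit 24625) (nat_lit 9) (.e (nat_lit 336452) (nat_lit 34) .nil))))) .nil)) 
(.lf (nat_lit 184663) (.g (nat_lit 4093) (.e (nat_lit 57854) (nat_lit 252) (.e (nat_lit 57377) (nat_lit 3) (.e (nat_lit 98317) (nat_lit 9) (.e (nat_lit 336196) (nat_lit 12) .nil)))) .nil))) (.nd (nat_lit 6) 
(.lf (nat_lit 184631) (.g (nat_lit 4148) (.e (nat_lit 57854) (nat_lit 252) (.e (nat_lit 57377) (nat_lit 3) (.e (nat_lit 98317) (nat_lit 9) (.e (nat_lit 335895) (nat_lit 0) .nil)))) .nil)) 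
(.lf (nat_lit 184695) (.g (nat_lit 2585) (.e (nat_lit 57854) (nat_lit 252) (.e (nat_lit 57378) (nat_lit 3) (.e (nat_lit 98317) (nat_lit 9) (.e (nat_lit 336223) (nat_lit 13) (.e (nat_lit 393229) (nat_lit 9) (.e (nat_lit 335993) (nat_lit 1) .nil)))))) (.g (nat_lit 4) .nil .nil)))))) (.nd (nat_lit 4) (.nd (nat_lit 5) (.nd (nat_lit 6) 
(.lf (nat_lit 184591) (.g (nat_lit 1615) (.e (nat_lit 57854) (nat_lit 252) (.e (nat_lit 57373) (nat_lit 2) (.e (nat_lit 90159) (nat_lit 11) (.e (nat_lit 24657) (nat_lit 13) (.e (nat_lit 393228) (nat_lit 9) .nil))))) .nil)) 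
(.lf (nat_lit 184655) (.g (nat_lit 3974) (.e (nat_lit 57854) (nat_lit 252) (.e (nat_lit 57377) (nat_lit 3) (.e (nat_lit 98317) (nat_lit 9) (.e (nat_lit 336088) (nat_lit 9) (.e (nat_lit 336454) (nat_lit 34) (.e (nat_lit 483365) (nat_lit 18) .nil)))))) (.g (nat_lit 0) .nil .nil)))) (.nd (nat_lit 6) 
(.lf (nat_lit 184623) (.g (nat_lit 3598) (.e (nat_lit 57854) (nat_lit 252) (.e (nat_lit 57377) (nat_lit 3) (.e (nat_lit 98313) (nat_lit 9) (.e (nat_lit 336223) (nat_lit 13) (.e (nat_lit 393229) (nat_lit 9) (.e (nat_lit 335996) (nat_lit 1) .nil)))))) (.g (nat_lit 0) .nil .nil))) 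
(.lf (nat_lit 184687) (.g (nat_lit 330) (.e (nat_lit 57854) (nat_lit 252) (.e (nat_lit 57378) (nat_lit 3) (.e (nat_lit 98317) (nat_lit 9) .nil))) .nil)))) (.nd (nat_lit 5) (.nd (nat_lit 6) 
(.lf (nat_lit 184607) (.g (nat_lit 3411) (.e (nat_lit 57854) (nat_lit 252) (.e (nat_lit 57373) (nat_lit 2) (.e (nat_lit 90160) (nat_lit 11) (.e (nat_lit 24648) (nat_lit 12) (.e (nat_lit 392960) (nat_lit 10) (.e (nat_lit 24599) (nat_lit 1) .nil)))))) (.g (nat_lit 4) .nil .nil))) 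
(.lf (nat_lit 184671) (.g (nat_lit 3199) (.e (nat_lit 57854) (nat_lit 252) (.e (nat_lit 57377) (nat_lit 3) (.e (nat_lit 98317) (nat_lit 9) (.e (nat_lit 336213) (nat_lit 13) (.e (nat_lit 393228) (nat_lit 9) .nil))))) .nil))) (.nd (nat_lit 6) 
(.lf (nat_lit 184639) (.g (nat_lit 4074) (.e (nat_lit 57854) (nat_lit 252) (.e (nat_lit 57377) (nat_lit 3) (.e (nat_lit 98317) (nat_lit 9) (.e (nat_lit 336025) (nat_lit 3) .nil)))) .nil)) 
(.lf (nat_lit 184703) (.g (nat_lit 1927) (.e (nat_lit 57854) (nat_lit 252) (.e (nat_lit 57378) (nat_lit 3) (.e (nat_lit 98334) (nat_lit 18) (.e (nat_lit 164383) (nat_lit 254) (.e (nat_lit 1124) (nat_lit 83) .nil))))) .nil)))))))))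

noncomputable def tv2458 : DT := (.nd (nat_lit 0) (.nd (nat_lit 1) (.nd (nat_lit 2) (.nd (nat_lit 3) (.nd (nat_lit 4) (.nd (nat_lit 5) 
(.lf (nat_lit 184704) (.g (nat_lit 1095) (.e (nat_lit 57854) (nat_lit 252) (.e (nat_lit 57378) (nat_lit 3) (.e (nat_lit 98337) (nat_lit 19) (.e (nat_lit 213013) (nat_lit 9) .nil)))) .nil)) 
(.lf (nat_lit 184736) (.g (nat_lit 3707) (.e (nat_lit 57854) (nat_lit 252) (.e (nat_lit 57389) (nat_lit 5) (.e (nat_lit 114711) (nat_lit 21) (.e (nat_lit 57847) (nat_lit 252) (.e (nat_lit 57420) (nat_lit 13) (.e (nat_lit 344117) (nat_lit 21) (.e (nat_lit 516130) (nat_lit 3) (.e (nat_lit 229120) (nat_lit 1) .nil)))))))) (.g (nat_lit 4) .nil .nil)))) (.nd (nat_lit 5) 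
(.lf (nat_lit 184720) (.g (nat_lit 3280) (.e (nat_lit 57854) (nat_lit 252) (.e (nat_lit 57384) (nat_lit 4) (.e (nat_lit 106536) (nat_lit 11) (.e (nat_lit 16466) (nat_lit 13) (.e (nat_lit 483393) (nat_lit 23) (.e (nat_lit 335988) (nat_lit 1) .nil)))))) (.g (nat_lit 0) .nil .nil))) 
(.lf (nat_lit 184752) (.g (nat_lit 3416) (.e (nat_lit 57854) (nat_lit 252) (.e (nat_lit 57389) (nat_lit 5) (.e (nat_lit 114712) (nat_lit 21) (.e (nat_lit 57852) (nat_lit 252) (.e (nat_lit 57421) (nat_lit 13) (.e (nat_lit 344117) (nat_lit 21) (.e (nat_lit 516130) (nat_lit 3) (.e (nat_lit 229120) (nat_lit 1) .nil)))))))) (.g (nat_lit 5) .nil .nil))))) (.nd (nat_lit 4) (.nd (nat_lit 5) 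
(.lf (nat_lit 184712) (.g (nat_lit 3148) (.e (nat_lit 57854) (nat_lit 252) (.e (nat_lit 57384) (nat_lit 4) (.e (nat_lit 106534) (nat_lit 11) (.e (nat_lit 16433) (nat_lit 9) (.e (nat_lit 426555) (nat_lit 32) (.e (nat_lit 376860) (nat_lit 21) .nil)))))) (.g (nat_lit 5) .nil .nil))) 
(.lf (nat_lit 184744) (.g (nat_lit 3506) (.e (nat_lit 57854) (nat_lit 252) (.e (nat_lit 57389) (nat_lit 5) (.e (nat_lit 114711) (nat_lit 21) (.e (nat_lit 57849) (nat_lit 252) (.e (nat_lit 57411) (nat_lit 12) (.e (nat_lit 336019) (nat_lit 3) (.e (nat_lit 98341) (nat_lit 20) (.e (nat_lit 229120) (nat_lit 1) .nil)))))))) (.g (nat_lit 5) .nil .nil)))) (.nd (nat_lit 5) 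
(.lf (nat_lit 184728) (.g (nat_lit 2895) (.e (nat_lit 57854) (nat_lit 252) (.e (nat_lit 57389) (nat_lit 5) (.e (nat_lit 114710) (nat_lit 21) (.e (nat_lit 57830) (nat_lit 250) (.e (nat_lit 1214) (nat_lit 89) (.e (nat_lit 73746) (nat_lit 3) (.e (nat_lit 516129) (nat_lit 3) (.e (nat_lit 229120) (nat_lit 1) .nil)))))))) (.g (nat_lit 4) .nil .nil))) 
(.lf (nat_lit 184760) (.g (nat_lit 3216) (.e (nat_lit 57854) (nat_lit 252) (.e (nat_lit 57389) (nat_lit 5) (.e (nat_lit 114723) (nat_lit 24) (.e (nat_lit 106536) (nat_lit 11) (.e (nat_lit 16482) (nat_lit 27) (.e (nat_lit 335995) (nat_lit 1) (.e (nat_lit 57849) (nat_lit 252) (.e (nat_lit 57365) (nat_lit 1) .nil)))))))) (.g (nat_lit 6) .nil .nil)))))) 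
(.nd (nat_lit 3) (.nd (nat_lit 4) (.nd (nat_lit 5) 
(.lf (nat_lit 184708) (.g (nat_lit 5287) (.e (nat_lit 57854) (nat_lit 252) (.e (nat_lit 57378) (nat_lit 3) (.e (nat_lit 98342) (nat_lit 20) (.e (nat_lit 221215) (nat_lit 23) (.e (nat_lit 204880) (nat_lit 32) (.e (nat_lit 385066) (nat_lit 26) (.e (nat_lit 532502) (nat_lit 1) .nil))))))) (.g (nat_lit 6) .nil .nil))) 
(.lf (nat_lit 184740) (.g (nat_lit 4482) (.e (nat_lit 57854) (nat_lit 252) (.e (nat_lit 57389) (nat_lit 5) (.e (nat_lit 114711) (nat_lit 21) (.e (nat_lit 57848) (nat_lit 252) (.e (nat_lit 57407) (nat_lit 12) (.e (nat_lit 336019) (nat_lit 3) (.e (nat_lit 98341) (nat_lit 20) (.e (nat_lit 229120) (nat_lit 1) .nil)))))))) (.g (nat_lit 6) .nil .nil)))) (.nd (nat_lit 5) 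
(.lf (nat_lit 184724) (.g (nat_lit 2511) (.e (nat_lit 57854) (nat_lit 252) (.e (nat_lit 57388) (nat_lit 5) (.e (nat_lit 114711) (nat_lit 21) (.e (nat_lit 57847) (nat_lit 252) (.e (nat_lit 65280) (nat_lit 66) (.e (nat_lit 221210) (nat_lit 22) (.e (nat_lit 196681) (nat_lit 17) (.e (nat_lit 131086) (nat_lit 1) .nil)))))))) (.g (nat_lit 4) .nil .nil))) 
(.lf (nat_lit 184756) (.g (nat_lit 2528) (.e (nat_lit 57854) (nat_lit 252) (.e (nat_lit 57389) (nat_lit 5) (.e (nat_lit 114722) (nat_lit 24) (.e (nat_lit 106536) (nat_lit 11) (.e (nat_lit 16482) (nat_lit 27) (.e (nat_lit 335995) (nat_lit 1) (.e (nat_lit 57848) (nat_lit 252) (.e (nat_lit 57368) (nat_lit 1) .nil)))))))) (.g (nat_lit 4) .nil .nil))))) (.nd (nat_lit 4) (.nd (nat_lit 5) 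
(.lf (nat_lit 184716) (.g (nat_lit 2121) (.e (nat_lit 57854) (nat_lit 252) (.e (nat_lit 57384) (nat_lit 4) (.e (nat_lit 106534) (nat_lit 11) (.e (nat_lit 16465) (nat_lit 13) (.e (nat_lit 483393) (nat_lit 23) (.e (nat_lit 335987) (nat_lit 1) .nil)))))) (.g (nat_lit 4) .nil .nil))) 
(.lf (nat_lit 184748) (.g (nat_lit 2429) (.e (nat_lit 57854) (nat_lit 252) (.e (nat_lit 57389) (nat_lit 5) (.e (nat_lit 114712) (nat_lit 21) (.e (nat_lit 57830) (nat_lit 250) (.e (nat_lit 1214) (nat_lit 89) (.e (nat_lit 73746) (nat_lit 3) (.e (nat_lit 516131) (nat_lit 3) (.e (nat_lit 229120) (nat_lit 1) .nil)))))))) (.g (nat_lit 4) .nil .nil)))) (.nd (nat_lit 5) 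
(.lf (nat_lit 184732) (.g (nat_lit 6794) (.e (nat_lit 57854) (nat_lit 252) (.e (nat_lit 57389) (nat_lit 5) (.e (nat_lit 114711) (nat_lit 21) (.e (nat_lit 57847) (nat_lit 252) (.e (nat_lit 57407) (nat_lit 12) (.e (nat_lit 336019) (nat_lit 3) (.e (nat_lit 98341) (nat_lit 20) (.e (nat_lit 229120) (nat_lit 1) .nil)))))))) (.g (nat_lit 7) .nil .nil))) 
(.lf (nat_lit 184764) (.g (nat_lit 2916) (.e (nat_lit 57854) (nat_lit 252) (.e (nat_lit 57404) (nat_lit 12) (.e (nat_lit 336054) (nat_lit 7) (.e (nat_lit 319534) (nat_lit 16) (.e (nat_lit 286756) (nat_lit 10) (.e (nat_lit 344097) (nat_lit 18) (.e (nat_lit 5194) (nat_lit 294) (.e (nat_lit 57368) (nat_lit 1) .nil)))))))) (.g (nat_lit 5) .nil .nil))))))) 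
(.nd (nat_lit 2) (.nd (nat_lit 3) (.nd (nat_lit 4) (.nd (nat_lit 5) 
(.lf (nat_lit 184706) (.g (nat_lit 1776) (.e (nat_lit 57854) (nat_lit 252) (.e (nat_lit 57378) (nat_lit 3) (.e (nat_lit 98340) (nat_lit 20) (.e (nat_lit 221214) (nat_lit 23) (.e (nat_lit 204880) (nat_lit 32) .nil))))) .nil)) 
(.lf (nat_lit 184738) (.g (nat_lit 4823) (.e (nat_lit 57854) (nat_lit 252) (.e (nat_lit 57389) (nat_lit 5) (.e (nat_lit 114711) (nat_lit 21) (.e (nat_lit 57847) (nat_lit 252) (.e (nat_lit 57432) (nat_lit 16) (.e (nat_lit 368676) (nat_lit 21) (.e (nat_lit 516129) (nat_lit 3) (.e (nat_lit 229120) (nat_lit 1) .nil)))))))) (.g (nat_lit 7) .nil .nil)))) (.nd (nat_lit 5) 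
(.lf (nat_lit 184722) (.g (nat_lit 1164) (.e (nat_lit 57854) (nat_lit 252) (.e (nat_lit 57388) (nat_lit 5) (.e (nat_lit 114698) (nat_lit 11) (.e (nat_lit 426199) (nat_lit 9) .nil)))) .nil)) 
(.lf (nat_lit 184754) (.g (nat_lit 5924) (.e (nat_lit 57854) (nat_lit 252) (.e (nat_lit 57389) (nat_lit 5) (.e (nat_lit 114712) (nat_lit 21) (.e (nat_lit 57854) (nat_lit 252) (.e (nat_lit 57409) (nat_lit 12) (.e (nat_lit 336019) (nat_lit 3) (.e (nat_lit 98342) (nat_lit 20) (.e (nat_lit 229120) (nat_lit 1) .nil)))))))) (.g (nat_lit 7) .nil .nil))))) (.nd (nat_lit 4) (.nd (nat_lit 5) 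
(.lf (nat_lit 184714) (.g (nat_lit 2304) (.e (nat_lit 57854) (nat_lit 252) (.e (nat_lit 57384) (nat_lit 4) (.e (nat_lit 106534) (nat_lit 11) (.e (nat_lit 16463) (nat_lit 13) (.e (nat_lit 483393) (nat_lit 23) (.e (nat_lit 335987) (nat_lit 1) .nil)))))) (.g (nat_lit 4) .nil .nil))) 
(.lf (nat_lit 184746) (.g (nat_lit 2740) (.e (nat_lit 57854) (nat_lit 252) (.e (nat_lit 57389) (nat_lit 5) (.e (nat_lit 114712) (nat_lit 21) (.e (nat_lit 57830) (nat_lit 250) (.e (nat_lit 1212) (nat_lit 89) (.e (nat_lit 73747) (nat_lit 3) (.e (nat_lit 516129) (nat_lit 3) (.e (nat_lit 229120) (nat_lit 1) .nil)))))))) (.g (nat_lit 4) .nil .nil)))) (.nd (nat_lit 5) 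
(.lf (nat_lit 184730) (.g (nat_lit 2336) (.e (nat_lit 57854) (nat_lit 252) (.e (nat_lit 57389) (nat_lit 5) (.e (nat_lit 114710) (nat_lit 21) (.e (nat_lit 57847) (nat_lit 252) (.e (nat_lit 65280) (nat_lit 66) (.e (nat_lit 221210) (nat_lit 22) (.e (nat_lit 196681) (nat_lit 17) (.e (nat_lit 131086) (nat_lit 1) .nil)))))))) (.g (nat_lit 4) .nil .nil))) 
(.lf (nat_lit 184762) (.g (nat_lit 2055) (.e (nat_lit 57854) (nat_lit 252) (.e (nat_lit 57404) (nat_lit 12) (.e (nat_lit 336054) (nat_lit 7) (.e (nat_lit 319534) (nat_lit 16) (.e (nat_lit 286749) (nat_lit 9) (.e (nat_lit 335997) (nat_lit 1) (.e (nat_lit 57848) (nat_lit 252) (.e (nat_lit 57365) (nat_lit 1) .nil)))))))) (.g (nat_lit 4) .nil .nil)))))) 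
(.nd (nat_lit 3) (.nd (nat_lit 4) (.nd (nat_lit 5) 
(.lf (nat_lit 184710) (.g (nat_lit 3247) (.e (nat_lit 57854) (nat_lit 252) (.e (nat_lit 57382) (nat_lit 4) (.e (nat_lit 106534) (nat_lit 11) (.e (nat_lit 16466) (nat_lit 13) (.e (nat_lit 483393) (nat_lit 23) (.e (nat_lit 335988) (nat_lit 1) .nil)))))) (.g (nat_lit 0) .nil .nil))) 
(.lf (nat_lit 184742) (.g (nat_lit 3457) (.e (nat_lit 57854) (nat_lit 252) (.e (nat_lit 57389) (nat_lit 5) (.e (nat_lit 114711) (nat_lit 21) (.e (nat_lit 57848) (nat_lit 252) (.e (nat_lit 57411) (nat_lit 12) (.e (nat_lit 336019) (nat_lit 3) (.e (nat_lit 98341) (nat_lit 20) (.e (nat_lit 229120) (nat_lit 1) .nil)))))))) (.g (nat_lit 5) .nil .nil)))) (.nd (nat_lit 5) 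
(.lf (nat_lit 184726) (.g (nat_lit 2608) (.e (nat_lit 57854) (nat_lit 252) (.e (nat_lit 57389) (nat_lit 5) (.e (nat_lit 114698) (nat_lit 11) (.e (nat_lit 426315) (nat_lit 12) (.e (nat_lit 483072) (nat_lit 15) (.e (nat_lit 131086) (nat_lit 1) .nil)))))) (.g (nat_lit 4) .nil .nil))) 
(.lf (nat_lit 184758) (.g (nat_lit 2569) (.e (nat_lit 57854) (nat_lit 252) (.e (nat_lit 57389) (nat_lit 5) (.e (nat_lit 114722) (nat_lit 24) (.e (nat_lit 106536) (nat_lit 11) (.e (nat_lit 16483) (nat_lit 27) (.e (nat_lit 335995) (nat_lit 1) (.e (nat_lit 57849) (nat_lit 252) (.e (nat_lit 57365) (nat_lit 1) .nil)))))))) (.g (nat_lit 4) .nil .nil))))) (.nd (nat_lit 4) (.nd (nat_lit 5) 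
(.lf (nat_lit 184718) (.g (nat_lit 3580) (.e (nat_lit 57854) (nat_lit 252) (.e (nat_lit 57384) (nat_lit 4) (.e (nat_lit 106536) (nat_lit 11) (.e (nat_lit 16438) (nat_lit 9) (.e (nat_lit 426555) (nat_lit 32) (.e (nat_lit 376860) (nat_lit 21) .nil)))))) (.g (nat_lit 0) .nil .nil))) 
(.lf (nat_lit 184750) (.g (nat_lit 2788) (.e (nat_lit 57854) (nat_lit 252) (.e (nat_lit 57389) (nat_lit 5) (.e (nat_lit 114712) (nat_lit 21) (.e (nat_lit 57852) (nat_lit 252) (.e (nat_lit 57409) (nat_lit 12) (.e (nat_lit 336019) (nat_lit 3) (.e (nat_lit 98342) (nat_lit 20) (.e (nat_lit 229120) (nat_lit 1) .nil)))))))) (.g (nat_lit 4) .nil .nil)))) (.nd (nat_lit 5) 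
(.lf (nat_lit 184734) (.g (nat_lit 4077) (.e (nat_lit 57854) (nat_lit 252) (.e (nat_lit 57389) (nat_lit 5) (.e (nat_lit 114711) (nat_lit 21) (.e (nat_lit 57847) (nat_lit 252) (.e (nat_lit 57411) (nat_lit 12) (.e (nat_lit 336019) (nat_lit 3) (.e (nat_lit 98341) (nat_lit 20) (.e (nat_lit 229120) (nat_lit 1) .nil)))))))) (.g (nat_lit 5) .nil .nil))) 
(.lf (nat_lit 184766) (.g (nat_lit 3153) (.e (nat_lit 57854) (nat_lit 252) (.e (nat_lit 57404) (nat_lit 12) (.e (nat_lit 336056) (nat_lit 7) (.e (nat_lit 319534) (nat_lit 16) (.e (nat_lit 286756) (nat_lit 10) (.e (nat_lit 344097) (nat_lit 18) (.e (nat_lit 5194) (nat_lit 294) (.e (nat_lit 57368) (nat_lit 1) .nil)))))))) (.g (nat_lit 5) .nil .nil)))))))) 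
(.nd (nat_lit 1) (.nd (nat_lit 2) (.nd (nat_lit 3) (.nd (nat_lit 4) (.nd (nat_lit 5) 
(.lf (nat_lit 184705) (.g (nat_lit 1044) (.e (nat_lit 57854) (nat_lit 252) (.e (nat_lit 57378) (nat_lit 3) (.e (nat_lit 98340) (nat_lit 20) .nil))) .nil)) 
(.lf (nat_lit 184737) (.g (nat_lit 4016) (.e (nat_lit 57854) (nat_lit 252) (.e (nat_lit 57389) (nat_lit 5) (.e (nat_lit 114711) (nat_lit 21) (.e (nat_lit 57847) (nat_lit 252) (.e (nat_lit 57430) (nat_lit 16) (.e (nat_lit 368676) (nat_lit 21) (.e (nat_lit 516131) (nat_lit 3) (.e (nat_lit 229120) (nat_lit 1) .nil)))))))) (.g (nat_lit 6) .nil .nil)))) (.nd (nat_lit 5) 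
(.lf (nat_lit 184721) (.g (nat_lit 2430) (.e (nat_lit 57854) (nat_lit 252) (.e (nat_lit 57388) (nat_lit 5) (.e (nat_lit 114698) (nat_lit 11) (.e (nat_lit 426107) (nat_lit 1) (.e (nat_lit 164421) (nat_lit 272) .nil))))) .nil)) 
(.lf (nat_lit 184753) (.g (nat_lit 6026) (.e (nat_lit 57854) (nat_lit 252) (.e (nat_lit 57389) (nat_lit 5) (.e (nat_lit 114712) (nat_lit 21) (.e (nat_lit 57854) (nat_lit 252) (.e (nat_lit 57409) (nat_lit 12) (.e (nat_lit 336019) (nat_lit 3) (.e (nat_lit 98341) (nat_lit 20) (.e (nat_lit 229120) (nat_lit 1) .nil)))))))) (.g (nat_lit 7) .nil .nil))))) (.nd (nat_lit 4) (.nd (nat_lit 5) 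
(.lf (nat_lit 184713) (.g (nat_lit 3467) (.e (nat_lit 57854) (nat_lit 252) (.e (nat_lit 57384) (nat_lit 4) (.e (nat_lit 106534) (nat_lit 11) (.e (nat_lit 16438) (nat_lit 9) (.e (nat_lit 426555) (nat_lit 32) (.e (nat_lit 376860) (nat_lit 21) .nil)))))) (.g (nat_lit 0) .nil .nil))) 
(.lf (nat_lit 184745) (.g (nat_lit 3328) (.e (nat_lit 57854) (nat_lit 252) (.e (nat_lit 57389) (nat_lit 5) (.e (nat_lit 114711) (nat_lit 21) (.e (nat_lit 57849) (nat_lit 252) (.e (nat_lit 57411) (nat_lit 12) (.e (nat_lit 336019) (nat_lit 3) (.e (nat_lit 98342) (nat_lit 20) (.e (nat_lit 229120) (nat_lit 1) .nil)))))))) (.g (nat_lit 5) .nil .nil)))) (.nd (nat_lit 5) 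
(.lf (nat_lit 184729) (.g (nat_lit 2511) (.e (nat_lit 57854) (nat_lit 252) (.e (nat_lit 57389) (nat_lit 5) (.e (nat_lit 114710) (nat_lit 21) (.e (nat_lit 57847) (nat_lit 252) (.e (nat_lit 57430) (nat_lit 16) (.e (nat_lit 368676) (nat_lit 21) (.e (nat_lit 516129) (nat_lit 3) (.e (nat_lit 229120) (nat_lit 1) .nil)))))))) (.g (nat_lit 4) .nil .nil))) 
(.lf (nat_lit 184761) (.g (nat_lit 2047) (.e (nat_lit 57854) (nat_lit 252) (.e (nat_lit 57389) (nat_lit 5) (.e (nat_lit 114723) (nat_lit 24) (.e (nat_lit 106536) (nat_lit 11) (.e (nat_lit 16483) (nat_lit 27) (.e (nat_lit 335996) (nat_lit 1) (.e (nat_lit 57851) (nat_lit 252) (.e (nat_lit 57364) (nat_lit 1) .nil)))))))) (.g (nat_lit 4) .nil .nil)))))) 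
(.nd (nat_lit 3) (.nd (nat_lit 4) (.nd (nat_lit 5) 
(.lf (nat_lit 184709) (.g (nat_lit 1526) (.e (nat_lit 57854) (nat_lit 252) (.e (nat_lit 57382) (nat_lit 4) (.e (nat_lit 106534) (nat_lit 11) (.e (nat_lit 16444) (nat_lit 9) (.e (nat_lit 426554) (nat_lit 32) .nil))))) .nil)) 
(.lf (nat_lit 184741) (.g (nat_lit 4320) (.e (nat_lit 57854) (nat_lit 252) (.e (nat_lit 57389) (nat_lit 5) (.e (nat_lit 114711) (nat_lit 21) (.e (nat_lit 57848) (nat_lit 252) (.e (nat_lit 57407) (nat_lit 12) (.e (nat_lit 336019) (nat_lit 3) (.e (nat_lit 98342) (nat_lit 20) (.e (nat_lit 229120) (nat_lit 1) .nil)))))))) (.g (nat_lit 6) .nil .nil)))) (.nd (nat_lit 5) 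
(.lf (nat_lit 184725) (.g (nat_lit 1978) (.e (nat_lit 57854) (nat_lit 252) (.e (nat_lit 57388) (nat_lit 5) (.e (nat_lit 114712) (nat_lit 21) (.e (nat_lit 57830) (nat_lit 250) (.e (nat_lit 1214) (nat_lit 89) (.e (nat_lit 73746) (nat_lit 3) (.e (nat_lit 516129) (nat_lit 3) (.e (nat_lit 229120) (nat_lit 1) .nil)))))))) (.g (nat_lit 4) .nil .nil))) 
(.lf (nat_lit 184757) (.g (nat_lit 2849) (.e (nat_lit 57854) (nat_lit 252) (.e (nat_lit 57389) (nat_lit 5) (.e (nat_lit 114722) (nat_lit 24) (.e (nat_lit 106536) (nat_lit 11) (.e (nat_lit 16483) (nat_lit 27) (.e (nat_lit 335995) (nat_lit 1) (.e (nat_lit 57847) (nat_lit 252) (.e (nat_lit 57365) (nat_lit 1) .nil)))))))) (.g (nat_lit 4) .nil .nil))))) (.nd (nat_lit 4) (.nd (nat_lit 5) 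
(.lf (nat_lit 184717) (.g (nat_lit 2242) (.e (nat_lit 57854) (nat_lit 252) (.e (nat_lit 57384) (nat_lit 4) (.e (nat_lit 106535) (nat_lit 11) (.e (nat_lit 16463) (nat_lit 13) (.e (nat_lit 483393) (nat_lit 23) (.e (nat_lit 335987) (nat_lit 1) .nil)))))) (.g (nat_lit 4) .nil .nil))) 
(.lf (nat_lit 184749) (.g (nat_lit 2937) (.e (nat_lit 57854) (nat_lit 252) (.e (nat_lit 57389) (nat_lit 5) (.e (nat_lit 114712) (nat_lit 21) (.e (nat_lit 57852) (nat_lit 252) (.e (nat_lit 57409) (nat_lit 12) (.e (nat_lit 336019) (nat_lit 3) (.e (nat_lit 98341) (nat_lit 20) (.e (nat_lit 229120) (nat_lit 1) .nil)))))))) (.g (nat_lit 4) .nil .nil)))) (.nd (nat_lit 5) 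
(.lf (nat_lit 184733) (.g (nat_lit 6675) (.e (nat_lit 57854) (nat_lit 252) (.e (nat_lit 57389) (nat_lit 5) (.e (nat_lit 114711) (nat_lit 21) (.e (nat_lit 57847) (nat_lit 252) (.e (nat_lit 57407) (nat_lit 12) (.e (nat_lit 336019) (nat_lit 3) (.e (nat_lit 98342) (nat_lit 20) (.e (nat_lit 229120) (nat_lit 1) .nil)))))))) (.g (nat_lit 7) .nil .nil))) 
(.lf (nat_lit 184765) (.g (nat_lit 2331) (.e (nat_lit 57854) (nat_lit 252) (.e (nat_lit 57404) (nat_lit 12) (.e (nat_lit 336056) (nat_lit 7) (.e (nat_lit 319534) (nat_lit 16) (.e (nat_lit 286756) (nat_lit 10) (.e (nat_lit 344097) (nat_lit 18) (.e (nat_lit 5194) (nat_lit 294) (.e (nat_lit 57365) (nat_lit 1) .nil)))))))) (.g (nat_lit 4) .nil .nil))))))) 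
(.nd (nat_lit 2) (.nd (nat_lit 3) (.nd (nat_lit 4) (.nd (nat_lit 5) 
(.lf (nat_lit 184707) (.g (nat_lit 743) (.e (nat_lit 57854) (nat_lit 252) (.e (nat_lit 57378) (nat_lit 3) (.e (nat_lit 98342) (nat_lit 20) (.e (nat_lit 221212) (nat_lit 22) .nil)))) .nil)) 
(.lf (nat_lit 184739) (.g (nat_lit 4104) (.e (nat_lit 57854) (nat_lit 252) (.e (nat_lit 57389) (nat_lit 5) (.e (nat_lit 114711) (nat_lit 21) (.e (nat_lit 57847) (nat_lit 252) (.e (nat_lit 57432) (nat_lit 16) (.e (nat_lit 368676) (nat_lit 21) (.e (nat_lit 516131) (nat_lit 3) (.e (nat_lit 229120) (nat_lit 1) .nil)))))))) (.g (nat_lit 6) .nil .nil)))) (.nd (nat_lit 5) 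
(.lf (nat_lit 184723) (.g (nat_lit 2336) (.e (nat_lit 57854) (nat_lit 252) (.e (nat_lit 57388) (nat_lit 5) (.e (nat_lit 114711) (nat_lit 21) (.e (nat_lit 57847) (nat_lit 252) (.e (nat_lit 57430) (nat_lit 16) (.e (nat_lit 368676) (nat_lit 21) (.e (nat_lit 516129) (nat_lit 3) (.e (nat_lit 229120) (nat_lit 1) .nil)))))))) (.g (nat_lit 4) .nil .nil))) 
(.lf (nat_lit 184755) (.g (nat_lit 2016) (.e (nat_lit 57854) (nat_lit 252) (.e (nat_lit 57389) (nat_lit 5) (.e (nat_lit 114722) (nat_lit 24) (.e (nat_lit 106536) (nat_lit 11) (.e (nat_lit 16482) (nat_lit 27) .nil))))) .nil)))) (.nd (nat_lit 4) (.nd (nat_lit 5) 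
(.lf (nat_lit 184715) (.g (nat_lit 2225) (.e (nat_lit 57854) (nat_lit 252) (.e (nat_lit 57384) (nat_lit 4) (.e (nat_lit 106534) (nat_lit 11) (.e (nat_lit 16464) (nat_lit 13) (.e (nat_lit 483393) (nat_lit 23) (.e (nat_lit 335987) (nat_lit 1) .nil)))))) (.g (nat_lit 4) .nil .nil))) 
(.lf (nat_lit 184747) (.g (nat_lit 4910) (.e (nat_lit 57854) (nat_lit 252) (.e (nat_lit 57389) (nat_lit 5) (.e (nat_lit 114712) (nat_lit 21) (.e (nat_lit 57830) (nat_lit 250) (.e (nat_lit 1214) (nat_lit 89) (.e (nat_lit 73746) (nat_lit 3) (.e (nat_lit 516129) (nat_lit 3) (.e (nat_lit 229120) (nat_lit 1) .nil)))))))) (.g (nat_lit 7) .nil .nil)))) (.nd (nat_lit 5) 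
(.lf (nat_lit 184731) (.g (nat_lit 2441) (.e (nat_lit 57854) (nat_lit 252) (.e (nat_lit 57389) (nat_lit 5) (.e (nat_lit 114710) (nat_lit 21) (.e (nat_lit 57852) (nat_lit 252) (.e (nat_lit 65280) (nat_lit 66) (.e (nat_lit 221212) (nat_lit 22) (.e (nat_lit 196681) (nat_lit 17) (.e (nat_lit 131086) (nat_lit 1) .nil)))))))) (.g (nat_lit 4) .nil .nil))) 
(.lf (nat_lit 184763) (.g (nat_lit 2094) (.e (nat_lit 57854) (nat_lit 252) (.e (nat_lit 57404) (nat_lit 12) (.e (nat_lit 336054) (nat_lit 7) (.e (nat_lit 319534) (nat_lit 16) (.e (nat_lit 286756) (nat_lit 10) (.e (nat_lit 344097) (nat_lit 18) (.e (nat_lit 5194) (nat_lit 294) (.e (nat_lit 57365) (nat_lit 1) .nil)))))))) (.g (nat_lit 4) .nil .nil)))))) 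
(.nd (nat_lit 3) (.nd (nat_lit 4) (.nd (nat_lit 5) 
(.lf (nat_lit 184711) (.g (nat_lit 1635) (.e (nat_lit 57854) (nat_lit 252) (.e (nat_lit 57382) (nat_lit 4) (.e (nat_lit 106536) (nat_lit 11) (.e (nat_lit 16463) (nat_lit 13) (.e (nat_lit 483393) (nat_lit 23) .nil))))) .nil)) 
(.lf (nat_lit 184743) (.g (nat_lit 3279) (.e (nat_lit 57854) (nat_lit 252) (.e (nat_lit 57389) (nat_lit 5) (.e (nat_lit 114711) (nat_lit 21) (.e (nat_lit 57848) (nat_lit 252) (.e (nat_lit 57411) (nat_lit 12) (.e (nat_lit 336019) (nat_lit 3) (.e (nat_lit 98342) (nat_lit 20) (.e (nat_lit 229120) (nat_lit 1) .nil)))))))) (.g (nat_lit 5) .nil .nil)))) (.nd (nat_lit 5) 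
(.lf (nat_lit 184727) (.g (nat_lit 2701) (.e (nat_lit 57854) (nat_lit 252) (.e (nat_lit 57389) (nat_lit 5) (.e (nat_lit 114698) (nat_lit 11) (.e (nat_lit 426315) (nat_lit 12) (.e (nat_lit 483072) (nat_lit 15) (.e (nat_lit 131089) (nat_lit 1) .nil)))))) (.g (nat_lit 4) .nil .nil))) 
(.lf (nat_lit 184759) (.g (nat_lit 2640) (.e (nat_lit 57854) (nat_lit 252) (.e (nat_lit 57389) (nat_lit 5) (.e (nat_lit 114722) (nat_lit 24) (.e (nat_lit 106536) (nat_lit 11) (.e (nat_lit 16483) (nat_lit 27) (.e (nat_lit 335996) (nat_lit 1) (.e (nat_lit 57854) (nat_lit 252) (.e (nat_lit 57366) (nat_lit 1) .nil)))))))) (.g (nat_lit 4) .nil .nil))))) (.nd (nat_lit 4) (.nd (nat_lit 5) 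
(.lf (nat_lit 184719) (.g (nat_lit 2199) (.e (nat_lit 57854) (nat_lit 252) (.e (nat_lit 57384) (nat_lit 4) (.e (nat_lit 106536) (nat_lit 11) (.e (nat_lit 16464) (nat_lit 13) (.e (nat_lit 483393) (nat_lit 23) (.e (nat_lit 335987) (nat_lit 1) .nil)))))) (.g (nat_lit 4) .nil .nil))) 
(.lf (nat_lit 184751) (.g (nat_lit 3552) (.e (nat_lit 57854) (nat_lit 252) (.e (nat_lit 57389) (nat_lit 5) (.e (nat_lit 114712) (nat_lit 21) (.e (nat_lit 57852) (nat_lit 252) (.e (nat_lit 57420) (nat_lit 13) (.e (nat_lit 344117) (nat_lit 21) (.e (nat_lit 516130) (nat_lit 3) (.e (nat_lit 229120) (nat_lit 1) .nil)))))))) (.g (nat_lit 5) .nil .nil)))) (.nd (nat_lit 5) 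
(.lf (nat_lit 184735) (.g (nat_lit 3987) (.e (nat_lit 57854) (nat_lit 252) (.e (nat_lit 57389) (nat_lit 5) (.e (nat_lit 114711) (nat_lit 21) (.e (nat_lit 57847) (nat_lit 252) (.e (nat_lit 57420) (nat_lit 13) (.e (nat_lit 344117) (nat_lit 21) (.e (nat_lit 516129) (nat_lit 3) (.e (nat_lit 229120) (nat_lit 1) .nil)))))))) (.g (nat_lit 5) .nil .nil))) 
(.lf (nat_lit 184767) (.g (nat_lit 2203) (.e (nat_lit 57854) (nat_lit 252) (.e (nat_lit 57404) (nat_lit 12) (.e (nat_lit 336060) (nat_lit 7) (.e (nat_lit 319533) (nat_lit 16) (.e (nat_lit 286753) (nat_lit 10) (.e (nat_lit 344097) (nat_lit 18) (.e (nat_lit 5195) (nat_lit 294) (.e (nat_lit 57363) (nat_lit 1) .nil)))))))) (.g (nat_lit 4) .nil .nil)))))))))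

noncomputable def tv2459 : DT := (.nd (nat_lit 0) (.nd (nat_lit 1) (.nd (nat_lit 2) (.nd (nat_lit 3) (.nd (nat_lit 4) (.nd (nat_lit 5) 
(.lf (nat_lit 184768) (.g (nat_lit 3399) (.e (nat_lit 57854) (nat_lit 252) (.e (nat_lit 57404) (nat_lit 12) (.e (nat_lit 336060) (nat_lit 7) (.e (nat_lit 319534) (nat_lit 16) (.e (nat_lit 286756) (nat_lit 10) (.e (nat_lit 344097) (nat_lit 18) (.e (nat_lit 5195) (nat_lit 294) (.e (nat_lit 57365) (nat_lit 1) .nil)))))))) (.g (nat_lit 7) .nil .nil))) 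
(.lf (nat_lit 184800) (.g (nat_lit 2151) (.e (nat_lit 57854) (nat_lit 252) (.e (nat_lit 57406) (nat_lit 12) (.e (nat_lit 336326) (nat_lit 18) (.e (nat_lit 204869) (nat_lit 29) (.e (nat_lit 368384) (nat_lit 0) .nil))))) .nil))) (.nd (nat_lit 5) 
(.lf (nat_lit 184784) (.g (nat_lit 2285) (.e (nat_lit 57854) (nat_lit 252) (.e (nat_lit 57406) (nat_lit 12) (.e (nat_lit 336326) (nat_lit 18) (.e (nat_lit 204868) (nat_lit 29) (.e (nat_lit 360449) (nat_lit 0) (.e (nat_lit 7695) (nat_lit 412) (.e (nat_lit 57365) (nat_lit 1) .nil))))))) (.g (nat_lit 4) .nil .nil))) 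
(.lf (nat_lit 184816) (.g (nat_lit 3581) (.e (nat_lit 57854) (nat_lit 252) (.e (nat_lit 57406) (nat_lit 12) (.e (nat_lit 336370) (nat_lit 27) (.e (nat_lit 426499) (nat_lit 27) (.e (nat_lit 336196) (nat_lit 12) (.e (nat_lit 385066) (nat_lit 26) (.e (nat_lit 532502) (nat_lit 1) .nil))))))) (.g (nat_lit 5) .nil .nil))))) (.nd (nat_lit 4) (.nd (nat_lit 5) 
(.lf (nat_lit 184776) (.g (nat_lit 2128) (.e (nat_lit 57854) (nat_lit 252) (.e (nat_lit 57406) (nat_lit 12) (.e (nat_lit 336310) (nat_lit 16) (.e (nat_lit 164178) (nat_lit 154) (.e (nat_lit 57437) (nat_lit 17) (.e (nat_lit 376860) (nat_lit 21) (.e (nat_lit 57854) (nat_lit 252) (.e (nat_lit 57364) (nat_lit 1) .nil)))))))) (.g (nat_lit 4) .nil .nil))) 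
(.lf (nat_lit 184808) (.g (nat_lit 3352) (.e (nat_lit 57854) (nat_lit 252) (.e (nat_lit 57406) (nat_lit 12) (.e (nat_lit 336360) (nat_lit 25) (.e (nat_lit 409649) (nat_lit 18) (.e (nat_lit 303140) (nat_lit 10) (.e (nat_lit 434209) (nat_lit 18) (.e (nat_lit 6398) (nat_lit 339) (.e (nat_lit 57368) (nat_lit 1) .nil)))))))) (.g (nat_lit 5) .nil .nil)))) (.nd (nat_lit 5) 
(.lf (nat_lit 184792) (.g (nat_lit 4824) (.e (nat_lit 57854) (nat_lit 252) (.e (nat_lit 57406) (nat_lit 12) (.e (nat_lit 336326) (nat_lit 18) (.e (nat_lit 204869) (nat_lit 29) (.e (nat_lit 360450) (nat_lit 0) (.e (nat_lit 7697) (nat_lit 412) (.e (nat_lit 57366) (nat_lit 1) .nil))))))) (.g (nat_lit 5) .nil .nil))) 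
(.lf (nat_lit 184824) (.g (nat_lit 4237) (.e (nat_lit 57854) (nat_lit 252) (.e (nat_lit 57406) (nat_lit 12) (.e (nat_lit 336446) (nat_lit 33) (.e (nat_lit 475212) (nat_lit 42) (.e (nat_lit 720956) (nat_lit 25) (.e (nat_lit 114711) (nat_lit 21) (.e (nat_lit 57847) (nat_lit 252) (.e (nat_lit 57365) (nat_lit 1) .nil)))))))) (.g (nat_lit 0) .nil .nil)))))) 
(.nd (nat_lit 3) (.nd (nat_lit 4) (.nd (nat_lit 5) 
(.lf (nat_lit 184772) (.g (nat_lit 2123) (.e (nat_lit 57854) (nat_lit 252) (.e (nat_lit 57405) (nat_lit 12) (.e (nat_lit 336450) (nat_lit 33) (.e (nat_lit 475212) (nat_lit 42) (.e (nat_lit 720956) (nat_lit 25) (.e (nat_lit 114711) (nat_lit 21) (.e (nat_lit 57847) (nat_lit 252) (.e (nat_lit 57365) (nat_lit 1) .nil)))))))) (.g (nat_lit 4) .nil .nil))) 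
(.lf (nat_lit 184804) (.g (nat_lit 2586) (.e (nat_lit 57854) (nat_lit 252) (.e (nat_lit 57406) (nat_lit 12) (.e (nat_lit 336360) (nat_lit 25) (.e (nat_lit 409649) (nat_lit 18) (.e (nat_lit 303132) (nat_lit 9) (.e (nat_lit 426109) (nat_lit 1) (.e (nat_lit 164182) (nat_lit 154) (.e (nat_lit 57366) (nat_lit 1) .nil)))))))) (.g (nat_lit 4) .nil .nil)))) (.nd (nat_lit 5) 
(.lf (nat_lit 184788) (.g (nat_lit 2906) (.e (nat_lit 57854) (nat_lit 252) (.e (nat_lit 57406) (nat_lit 12) (.e (nat_lit 336326) (nat_lit 18) (.e (nat_lit 204869) (nat_lit 29) (.e (nat_lit 360448) (nat_lit 0) (.e (nat_lit 7695) (nat_lit 412) (.e (nat_lit 57365) (nat_lit 1) .nil))))))) (.g (nat_lit 4) .nil .nil))) 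
(.lf (nat_lit 184820) (.g (nat_lit 2509) (.e (nat_lit 57854) (nat_lit 252) (.e (nat_lit 57406) (nat_lit 12) (.e (nat_lit 336445) (nat_lit 33) (.e (nat_lit 475214) (nat_lit 42) (.e (nat_lit 720955) (nat_lit 25) (.e (nat_lit 114711) (nat_lit 21) (.e (nat_lit 57847) (nat_lit 252) (.e (nat_lit 57368) (nat_lit 1) .nil)))))))) (.g (nat_lit 4) .nil .nil))))) (.nd (nat_lit 4) (.nd (nat_lit 5) 
(.lf (nat_lit 184780) (.g (nat_lit 3196) (.e (nat_lit 57854) (nat_lit 252) (.e (nat_lit 57406) (nat_lit 12) (.e (nat_lit 336310) (nat_lit 16) (.e (nat_lit 164179) (nat_lit 154) (.e (nat_lit 57437) (nat_lit 17) (.e (nat_lit 376860) (nat_lit 21) (.e (nat_lit 57854) (nat_lit 252) (.e (nat_lit 57366) (nat_lit 1) .nil)))))))) (.g (nat_lit 5) .nil .nil))) 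
(.lf (nat_lit 184812) (.g (nat_lit 3255) (.e (nat_lit 57854) (nat_lit 252) (.e (nat_lit 57406) (nat_lit 12) (.e (nat_lit 336366) (nat_lit 27) (.e (nat_lit 426499) (nat_lit 27) (.e (nat_lit 336196) (nat_lit 12) (.e (nat_lit 385066) (nat_lit 26) (.e (nat_lit 532502) (nat_lit 1) .nil))))))) (.g (nat_lit 4) .nil .nil)))) (.nd (nat_lit 5) 
(.lf (nat_lit 184796) (.g (nat_lit 4209) (.e (nat_lit 57854) (nat_lit 252) (.e (nat_lit 57406) (nat_lit 12) (.e (nat_lit 336326) (nat_lit 18) (.e (nat_lit 204869) (nat_lit 29) (.e (nat_lit 360451) (nat_lit 0) (.e (nat_lit 7697) (nat_lit 412) (.e (nat_lit 57364) (nat_lit 1) .nil))))))) (.g (nat_lit 5) .nil .nil))) 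
(.lf (nat_lit 184828) (.g (nat_lit 4436) (.e (nat_lit 57854) (nat_lit 252) (.e (nat_lit 57406) (nat_lit 12) (.e (nat_lit 336446) (nat_lit 33) (.e (nat_lit 475214) (nat_lit 42) (.e (nat_lit 720956) (nat_lit 25) (.e (nat_lit 114711) (nat_lit 21) (.e (nat_lit 57847) (nat_lit 252) (.e (nat_lit 57365) (nat_lit 1) .nil)))))))) (.g (nat_lit 0) .nil .nil))))))) 
(.nd (nat_lit 2) (.nd (nat_lit 3) (.nd (nat_lit 4) (.nd (nat_lit 5) 
(.lf (nat_lit 184770) (.g (nat_lit 1817) (.e (nat_lit 57854) (nat_lit 252) (.e (nat_lit 57405) (nat_lit 12) (.e (nat_lit 336445) (nat_lit 33) (.e (nat_lit 475214) (nat_lit 42) (.e (nat_lit 720956) (nat_lit 25) (.e (nat_lit 114711) (nat_lit 21) (.e (nat_lit 57847) (nat_lit 252) (.e (nat_lit 57365) (nat_lit 1) .nil)))))))) (.g (nat_lit 4) .nil .nil))) 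
(.lf (nat_lit 184802) (.g (nat_lit 2795) (.e (nat_lit 57854) (nat_lit 252) (.e (nat_lit 57406) (nat_lit 12) (.e (nat_lit 336326) (nat_lit 18) (.e (nat_lit 204869) (nat_lit 29) (.e (nat_lit 360493) (nat_lit 27) (.e (nat_lit 819232) (nat_lit 9) (.e (nat_lit 1182) (nat_lit 87) .nil))))))) (.g (nat_lit 4) .nil .nil)))) (.nd (nat_lit 5) 
(.lf (nat_lit 184786) (.g (nat_lit 1962) (.e (nat_lit 57854) (nat_lit 252) (.e (nat_lit 57406) (nat_lit 12) (.e (nat_lit 336326) (nat_lit 18) (.e (nat_lit 204868) (nat_lit 29) (.e (nat_lit 360456) (nat_lit 0) .nil))))) .nil)) 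
(.lf (nat_lit 184818) (.g (nat_lit 655) (.e (nat_lit 57854) (nat_lit 252) (.e (nat_lit 57406) (nat_lit 12) (.e (nat_lit 336374) (nat_lit 27) .nil))) .nil)))) (.nd (nat_lit 4) (.nd (nat_lit 5) 
(.lf (nat_lit 184778) (.g (nat_lit 2391) (.e (nat_lit 57854) (nat_lit 252) (.e (nat_lit 57406) (nat_lit 12) (.e (nat_lit 336310) (nat_lit 16) (.e (nat_lit 164179) (nat_lit 154) (.e (nat_lit 57436) (nat_lit 17) (.e (nat_lit 376860) (nat_lit 21) (.e (nat_lit 57854) (nat_lit 252) (.e (nat_lit 57366) (nat_lit 1) .nil)))))))) (.g (nat_lit 4) .nil .nil))) 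
(.lf (nat_lit 184810) (.g (nat_lit 3501) (.e (nat_lit 57854) (nat_lit 252) (.e (nat_lit 57406) (nat_lit 12) (.e (nat_lit 336360) (nat_lit 25) (.e (nat_lit 409649) (nat_lit 18) (.e (nat_lit 303140) (nat_lit 10) (.e (nat_lit 434211) (nat_lit 18) (.e (nat_lit 6401) (nat_lit 339) (.e (nat_lit 57368) (nat_lit 1) .nil)))))))) (.g (nat_lit 5) .nil .nil)))) (.nd (nat_lit 5) 
(.lf (nat_lit 184794) (.g (nat_lit 4718) (.e (nat_lit 57854) (nat_lit 252) (.e (nat_lit 57406) (nat_lit 12) (.e (nat_lit 336326) (nat_lit 18) (.e (nat_lit 204869) (nat_lit 29) (.e (nat_lit 360451) (nat_lit 0) (.e (nat_lit 7695) (nat_lit 412) (.e (nat_lit 57365) (nat_lit 1) .nil))))))) (.g (nat_lit 5) .nil .nil))) 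
(.lf (nat_lit 184826) (.g (nat_lit 2193) (.e (nat_lit 57854) (nat_lit 252) (.e (nat_lit 57406) (nat_lit 12) (.e (nat_lit 336446) (nat_lit 33) (.e (nat_lit 475214) (nat_lit 42) (.e (nat_lit 720954) (nat_lit 25) .nil))))) .nil))))) (.nd (nat_lit 3) (.nd (nat_lit 4) (.nd (nat_lit 5) 
(.lf (nat_lit 184774) (.g (nat_lit 551) (.e (nat_lit 57854) (nat_lit 252) (.e (nat_lit 57406) (nat_lit 12) (.e (nat_lit 343808) (nat_lit 13) .nil))) .nil)) 
(.lf (nat_lit 184806) (.g (nat_lit 3691) (.e (nat_lit 57854) (nat_lit 252) (.e (nat_lit 57406) (nat_lit 12) (.e (nat_lit 336360) (nat_lit 25) (.e (nat_lit 409649) (nat_lit 18) (.e (nat_lit 303140) (nat_lit 10) (.e (nat_lit 434199) (nat_lit 18) (.e (nat_lit 6401) (nat_lit 339) (.e (nat_lit 57368) (nat_lit 1) .nil)))))))) (.g (nat_lit 5) .nil .nil)))) (.nd (nat_lit 5) 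
(.lf (nat_lit 184790) (.g (nat_lit 4071) (.e (nat_lit 57854) (nat_lit 252) (.e (nat_lit 57406) (nat_lit 12) (.e (nat_lit 336326) (nat_lit 18) (.e (nat_lit 204869) (nat_lit 29) (.e (nat_lit 360450) (nat_lit 0) (.e (nat_lit 7695) (nat_lit 412) (.e (nat_lit 57364) (nat_lit 1) .nil))))))) (.g (nat_lit 5) .nil .nil))) 
(.lf (nat_lit 184822) (.g (nat_lit 3951) (.e (nat_lit 57854) (nat_lit 252) (.e (nat_lit 57406) (nat_lit 12) (.e (nat_lit 336445) (nat_lit 33) (.e (nat_lit 475214) (nat_lit 42) (.e (nat_lit 720956) (nat_lit 25) (.e (nat_lit 114711) (nat_lit 21) (.e (nat_lit 57847) (nat_lit 252) (.e (nat_lit 57368) (nat_lit 1) .nil)))))))) (.g (nat_lit 7) .nil .nil))))) (.nd (nat_lit 4) (.nd (nat_lit 5) 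
(.lf (nat_lit 184782) (.g (nat_lit 2863) (.e (nat_lit 57854) (nat_lit 252) (.e (nat_lit 57406) (nat_lit 12) (.e (nat_lit 336324) (nat_lit 18) (.e (nat_lit 204868) (nat_lit 29) (.e (nat_lit 360456) (nat_lit 0) .nil))))) .nil)) 
(.lf (nat_lit 184814) (.g (nat_lit 2460) (.e (nat_lit 57854) (nat_lit 252) (.e (nat_lit 57406) (nat_lit 12) (.e (nat_lit 336367) (nat_lit 27) (.e (nat_lit 426546) (nat_lit 30) (.e (nat_lit 360477) (nat_lit 11) (.e (nat_lit 581659) (nat_lit 9) (.e (nat_lit 1178) (nat_lit 87) .nil))))))) (.g (nat_lit 6) .nil .nil)))) (.nd (nat_lit 5) 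
(.lf (nat_lit 184798) (.g (nat_lit 3052) (.e (nat_lit 57854) (nat_lit 252) (.e (nat_lit 57406) (nat_lit 12) (.e (nat_lit 336326) (nat_lit 18) (.e (nat_lit 204869) (nat_lit 29) (.e (nat_lit 360456) (nat_lit 0) (.e (nat_lit 7936) (nat_lit 412) (.e (nat_lit 57364) (nat_lit 1) .nil))))))) (.g (nat_lit 4) .nil .nil))) 
(.lf (nat_lit 184830) (.g (nat_lit 2120) (.e (nat_lit 57854) (nat_lit 252) (.e (nat_lit 57406) (nat_lit 12) (.e (nat_lit 336448) (nat_lit 33) (.e (nat_lit 475212) (nat_lit 42) (.e (nat_lit 720956) (nat_lit 25) (.e (nat_lit 114711) (nat_lit 21) (.e (nat_lit 57847) (nat_lit 252) (.e (nat_lit 57368) (nat_lit 1) .nil)))))))) (.g (nat_lit 4) .nil .nil)))))))) 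
(.nd (nat_lit 1) (.nd (nat_lit 2) (.nd (nat_lit 3) (.nd (nat_lit 4) (.nd (nat_lit 5) 
(.lf (nat_lit 184769) (.g (nat_lit 2552) (.e (nat_lit 57854) (nat_lit 252) (.e (nat_lit 57405) (nat_lit 12) (.e (nat_lit 336053) (nat_lit 7) (.e (nat_lit 319534) (nat_lit 16) (.e (nat_lit 286749) (nat_lit 9) (.e (nat_lit 335997) (nat_lit 1) (.e (nat_lit 57848) (nat_lit 252) (.e (nat_lit 57365) (nat_lit 1) .nil)))))))) (.g (nat_lit 5) .nil .nil))) 
(.lf (nat_lit 184801) (.g (nat_lit 2029) (.e (nat_lit 57854) (nat_lit 252) (.e (nat_lit 57406) (nat_lit 12) (.e (nat_lit 336326) (nat_lit 18) (.e (nat_lit 204869) (nat_lit 29) (.e (nat_lit 360493) (nat_lit 27) .nil))))) .nil))) (.nd (nat_lit 5) 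
(.lf (nat_lit 184785) (.g (nat_lit 2426) (.e (nat_lit 57854) (nat_lit 252) (.e (nat_lit 57406) (nat_lit 12) (.e (nat_lit 336326) (nat_lit 18) (.e (nat_lit 204868) (nat_lit 29) (.e (nat_lit 360449) (nat_lit 0) (.e (nat_lit 7695) (nat_lit 412) (.e (nat_lit 57366) (nat_lit 1) .nil))))))) (.g (nat_lit 4) .nil .nil))) 
(.lf (nat_lit 184817) (.g (nat_lit 660) (.e (nat_lit 57854) (nat_lit 252) (.e (nat_lit 57406) (nat_lit 12) (.e (nat_lit 336372) (nat_lit 27) .nil))) .nil)))) (.nd (nat_lit 4) (.nd (nat_lit 5) 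
(.lf (nat_lit 184777) (.g (nat_lit 2665) (.e (nat_lit 57854) (nat_lit 252) (.e (nat_lit 57406) (nat_lit 12) (.e (nat_lit 336310) (nat_lit 16) (.e (nat_lit 164178) (nat_lit 154) (.e (nat_lit 57437) (nat_lit 17) (.e (nat_lit 376860) (nat_lit 21) (.e (nat_lit 57854) (nat_lit 252) (.e (nat_lit 57366) (nat_lit 1) .nil)))))))) (.g (nat_lit 5) .nil .nil))) 
(.lf (nat_lit 184809) (.g (nat_lit 2535) (.e (nat_lit 57854) (nat_lit 252) (.e (nat_lit 57406) (nat_lit 12) (.e (nat_lit 336360) (nat_lit 25) (.e (nat_lit 409649) (nat_lit 18) (.e (nat_lit 303140) (nat_lit 10) (.e (nat_lit 434211) (nat_lit 18) (.e (nat_lit 6398) (nat_lit 339) (.e (nat_lit 57368) (nat_lit 1) .nil)))))))) (.g (nat_lit 4) .nil .nil)))) (.nd (nat_lit 5) 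
(.lf (nat_lit 184793) (.g (nat_lit 4211) (.e (nat_lit 57854) (nat_lit 252) (.e (nat_lit 57406) (nat_lit 12) (.e (nat_lit 336326) (nat_lit 18) (.e (nat_lit 204869) (nat_lit 29) (.e (nat_lit 360450) (nat_lit 0) (.e (nat_lit 7936) (nat_lit 412) (.e (nat_lit 57368) (nat_lit 1) .nil))))))) (.g (nat_lit 5) .nil .nil))) 
(.lf (nat_lit 184825) (.g (nat_lit 3741) (.e (nat_lit 57854) (nat_lit 252) (.e (nat_lit 57406) (nat_lit 12) (.e (nat_lit 336446) (nat_lit 33) (.e (nat_lit 475212) (nat_lit 42) (.e (nat_lit 720956) (nat_lit 25) (.e (nat_lit 114711) (nat_lit 21) (.e (nat_lit 57847) (nat_lit 252) (.e (nat_lit 57368) (nat_lit 1) .nil)))))))) (.g (nat_lit 7) .nil .nil)))))) 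
(.nd (nat_lit 3) (.nd (nat_lit 4) (.nd (nat_lit 5) 
(.lf (nat_lit 184773) (.g (nat_lit 2045) (.e (nat_lit 57854) (nat_lit 252) (.e (nat_lit 57405) (nat_lit 12) (.e (nat_lit 336450) (nat_lit 33) (.e (nat_lit 475212) (nat_lit 42) (.e (nat_lit 720956) (nat_lit 25) (.e (nat_lit 114711) (nat_lit 21) (.e (nat_lit 57847) (nat_lit 252) (.e (nat_lit 57368) (nat_lit 1) .nil)))))))) (.g (nat_lit 4) .nil .nil))) 
(.lf (nat_lit 184805) (.g (nat_lit 2548) (.e (nat_lit 57854) (nat_lit 252) (.e (nat_lit 57406) (nat_lit 12) (.e (nat_lit 336360) (nat_lit 25) (.e (nat_lit 409649) (nat_lit 18) (.e (nat_lit 303132) (nat_lit 9) (.e (nat_lit 426109) (nat_lit 1) (.e (nat_lit 164183) (nat_lit 154) (.e (nat_lit 57366) (nat_lit 1) .nil)))))))) (.g (nat_lit 4) .nil .nil)))) (.nd (nat_lit 5) 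
(.lf (nat_lit 184789) (.g (nat_lit 3079) (.e (nat_lit 57854) (nat_lit 252) (.e (nat_lit 57406) (nat_lit 12) (.e (nat_lit 336326) (nat_lit 18) (.e (nat_lit 204869) (nat_lit 29) (.e (nat_lit 360448) (nat_lit 0) (.e (nat_lit 7695) (nat_lit 412) (.e (nat_lit 57366) (nat_lit 1) .nil))))))) (.g (nat_lit 4) .nil .nil))) 
(.lf (nat_lit 184821) (.g (nat_lit 4492) (.e (nat_lit 57854) (nat_lit 252) (.e (nat_lit 57406) (nat_lit 12) (.e (nat_lit 336445) (nat_lit 33) (.e (nat_lit 475214) (nat_lit 42) (.e (nat_lit 720956) (nat_lit 25) (.e (nat_lit 114711) (nat_lit 21) (.e (nat_lit 57847) (nat_lit 252) (.e (nat_lit 57365) (nat_lit 1) .nil)))))))) (.g (nat_lit 0) .nil .nil))))) (.nd (nat_lit 4) (.nd (nat_lit 5) 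
(.lf (nat_lit 184781) (.g (nat_lit 1954) (.e (nat_lit 57854) (nat_lit 252) (.e (nat_lit 57406) (nat_lit 12) (.e (nat_lit 336324) (nat_lit 18) (.e (nat_lit 204868) (nat_lit 29) .nil)))) .nil)) 
(.lf (nat_lit 184813) (.g (nat_lit 2905) (.e (nat_lit 57854) (nat_lit 252) (.e (nat_lit 57406) (nat_lit 12) (.e (nat_lit 336367) (nat_lit 27) (.e (nat_lit 426530) (nat_lit 27) (.e (nat_lit 336206) (nat_lit 12) (.e (nat_lit 385068) (nat_lit 26) (.e (nat_lit 532501) (nat_lit 1) .nil))))))) (.g (nat_lit 7) .nil .nil)))) (.nd (nat_lit 5) 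
(.lf (nat_lit 184797) (.g (nat_lit 4691) (.e (nat_lit 57854) (nat_lit 252) (.e (nat_lit 57406) (nat_lit 12) (.e (nat_lit 336326) (nat_lit 18) (.e (nat_lit 204869) (nat_lit 29) (.e (nat_lit 360451) (nat_lit 0) (.e (nat_lit 7697) (nat_lit 412) (.e (nat_lit 57366) (nat_lit 1) .nil))))))) (.g (nat_lit 5) .nil .nil))) 
(.lf (nat_lit 184829) (.g (nat_lit 3940) (.e (nat_lit 57854) (nat_lit 252) (.e (nat_lit 57406) (nat_lit 12) (.e (nat_lit 336446) (nat_lit 33) (.e (nat_lit 475214) (nat_lit 42) (.e (nat_lit 720956) (nat_lit 25) (.e (nat_lit 114711) (nat_lit 21) (.e (nat_lit 57847) (nat_lit 252) (.e (nat_lit 57368) (nat_lit 1) .nil)))))))) (.g (nat_lit 7) .nil .nil))))))) 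
(.nd (nat_lit 2) (.nd (nat_lit 3) (.nd (nat_lit 4) (.nd (nat_lit 5) 
(.lf (nat_lit 184771) (.g (nat_lit 1802) (.e (nat_lit 57854) (nat_lit 252) (.e (nat_lit 57405) (nat_lit 12) (.e (nat_lit 336448) (nat_lit 33) (.e (nat_lit 475214) (nat_lit 42) (.e (nat_lit 720956) (nat_lit 25) (.e (nat_lit 114711) (nat_lit 21) (.e (nat_lit 57847) (nat_lit 252) (.e (nat_lit 57365) (nat_lit 1) .nil)))))))) (.g (nat_lit 4) .nil .nil))) 
(.lf (nat_lit 184803) (.g (nat_lit 2699) (.e (nat_lit 57854) (nat_lit 252) (.e (nat_lit 57406) (nat_lit 12) (.e (nat_lit 336360) (nat_lit 25) (.e (nat_lit 409649) (nat_lit 18) (.e (nat_lit 303132) (nat_lit 9) (.e (nat_lit 426109) (nat_lit 1) (.e (nat_lit 164179) (nat_lit 154) (.e (nat_lit 57364) (nat_lit 1) .nil)))))))) (.g (nat_lit 4) .nil .nil)))) (.nd (nat_lit 5) 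
(.lf (nat_lit 184787) (.g (nat_lit 978) (.e (nat_lit 57854) (nat_lit 252) (.e (nat_lit 57406) (nat_lit 12) (.e (nat_lit 336326) (nat_lit 18) (.e (nat_lit 204869) (nat_lit 29) .nil)))) .nil)) 
(.lf (nat_lit 184819) (.g (nat_lit 660) (.e (nat_lit 57854) (nat_lit 252) (.e (nat_lit 57406) (nat_lit 12) (.e (nat_lit 336379) (nat_lit 27) .nil))) .nil)))) (.nd (nat_lit 4) (.nd (nat_lit 5) 
(.lf (nat_lit 184779) (.g (nat_lit 2659) (.e (nat_lit 57854) (nat_lit 252) (.e (nat_lit 57406) (nat_lit 12) (.e (nat_lit 336310) (nat_lit 16) (.e (nat_lit 164179) (nat_lit 154) (.e (nat_lit 57437) (nat_lit 17) (.e (nat_lit 376860) (nat_lit 21) (.e (nat_lit 57854) (nat_lit 252) (.e (nat_lit 57364) (nat_lit 1) .nil)))))))) (.g (nat_lit 4) .nil .nil))) 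
(.lf (nat_lit 184811) (.g (nat_lit 2780) (.e (nat_lit 57854) (nat_lit 252) (.e (nat_lit 57406) (nat_lit 12) (.e (nat_lit 336360) (nat_lit 25) (.e (nat_lit 409649) (nat_lit 18) (.e (nat_lit 303140) (nat_lit 10) (.e (nat_lit 434286) (nat_lit 42) (.e (nat_lit 688157) (nat_lit 13) (.e (nat_lit 1178) (nat_lit 87) .nil)))))))) (.g (nat_lit 4) .nil .nil)))) (.nd (nat_lit 5) 
(.lf (nat_lit 184795) (.g (nat_lit 4848) (.e (nat_lit 57854) (nat_lit 252) (.e (nat_lit 57406) (nat_lit 12) (.e (nat_lit 336326) (nat_lit 18) (.e (nat_lit 204869) (nat_lit 29) (.e (nat_lit 360451) (nat_lit 0) (.e (nat_lit 7695) (nat_lit 412) (.e (nat_lit 57366) (nat_lit 1) .nil))))))) (.g (nat_lit 5) .nil .nil))) 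
(.lf (nat_lit 184827) (.g (nat_lit 2132) (.e (nat_lit 57854) (nat_lit 252) (.e (nat_lit 57406) (nat_lit 12) (.e (nat_lit 336446) (nat_lit 33) (.e (nat_lit 475214) (nat_lit 42) (.e (nat_lit 720955) (nat_lit 25) .nil))))) .nil))))) (.nd (nat_lit 3) (.nd (nat_lit 4) (.nd (nat_lit 5) 
(.lf (nat_lit 184775) (.g (nat_lit 1157) (.e (nat_lit 57854) (nat_lit 252) (.e (nat_lit 57406) (nat_lit 12) (.e (nat_lit 336240) (nat_lit 15) (.e (nat_lit 3453) (nat_lit 216) .nil)))) .nil)) 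
(.lf (nat_lit 184807) (.g (nat_lit 4305) (.e (nat_lit 57854) (nat_lit 252) (.e (nat_lit 57406) (nat_lit 12) (.e (nat_lit 336360) (nat_lit 25) (.e (nat_lit 409649) (nat_lit 18) (.e (nat_lit 303140) (nat_lit 10) (.e (nat_lit 434209) (nat_lit 18) (.e (nat_lit 6391) (nat_lit 339) (.e (nat_lit 57365) (nat_lit 1) .nil)))))))) (.g (nat_lit 6) .nil .nil)))) (.nd (nat_lit 5) 
(.lf (nat_lit 184791) (.g (nat_lit 4213) (.e (nat_lit 57854) (nat_lit 252) (.e (nat_lit 57406) (nat_lit 12) (.e (nat_lit 336326) (nat_lit 18) (.e (nat_lit 204869) (nat_lit 29) (.e (nat_lit 360450) (nat_lit 0) (.e (nat_lit 7697) (nat_lit 412) (.e (nat_lit 57364) (nat_lit 1) .nil))))))) (.g (nat_lit 5) .nil .nil))) 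
(.lf (nat_lit 184823) (.g (nat_lit 2224) (.e (nat_lit 57854) (nat_lit 252) (.e (nat_lit 57406) (nat_lit 12) (.e (nat_lit 336446) (nat_lit 33) (.e (nat_lit 475212) (nat_lit 42) (.e (nat_lit 720955) (nat_lit 25) (.e (nat_lit 114711) (nat_lit 21) (.e (nat_lit 57847) (nat_lit 252) (.e (nat_lit 57365) (nat_lit 1) .nil)))))))) (.g (nat_lit 4) .nil .nil))))) (.nd (nat_lit 4) (.nd (nat_lit 5) 
(.lf (nat_lit 184783) (.g (nat_lit 1066) (.e (nat_lit 57854) (nat_lit 252) (.e (nat_lit 57406) (nat_lit 12) (.e (nat_lit 336326) (nat_lit 18) (.e (nat_lit 204868) (nat_lit 29) .nil)))) .nil)) 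
(.lf (nat_lit 184815) (.g (nat_lit 655) (.e (nat_lit 57854) (nat_lit 252) (.e (nat_lit 57406) (nat_lit 12) (.e (nat_lit 336369) (nat_lit 27) .nil))) .nil))) (.nd (nat_lit 5) 
(.lf (nat_lit 184799) (.g (nat_lit 2795) (.e (nat_lit 57854) (nat_lit 252) (.e (nat_lit 57406) (nat_lit 12) (.e (nat_lit 336326) (nat_lit 18) (.e (nat_lit 204869) (nat_lit 29) (.e (nat_lit 360456) (nat_lit 0) (.e (nat_lit 7936) (nat_lit 412) (.e (nat_lit 57365) (nat_lit 1) .nil))))))) (.g (nat_lit 4) .nil .nil))) 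
(.lf (nat_lit 184831) (.g (nat_lit 2106) (.e (nat_lit 57854) (nat_lit 252) (.e (nat_lit 57406) (nat_lit 12) (.e (nat_lit 336448) (nat_lit 33) (.e (nat_lit 475214) (nat_lit 42) (.e (nat_lit 720955) (nat_lit 25) .nil))))) .nil))))))))

noncomputable def tv2460 : DT := (.nd (nat_lit 0) (.nd (nat_lit 1) (.nd (nat_lit 2) (.nd (nat_lit 3) (.nd (nat_lit 4) (.nd (nat_lit 5) 
(.lf (nat_lit 184832) (.g (nat_lit 2233) (.e (nat_lit 57854) (nat_lit 252) (.e (nat_lit 57406) (nat_lit 12) (.e (nat_lit 336450) (nat_lit 33) (.e (nat_lit 475212) (nat_lit 42) (.e (nat_lit 720955) (nat_lit 25) .nil))))) .nil)) 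
(.lf (nat_lit 184864) (.g (nat_lit 1421) (.e (nat_lit 57854) (nat_lit 252) (.e (nat_lit 57406) (nat_lit 12) (.e (nat_lit 336456) (nat_lit 34) (.e (nat_lit 491264) (nat_lit 23) .nil)))) .nil))) (.nd (nat_lit 5) 
(.lf (nat_lit 184848) (.g (nat_lit 3740) (.e (nat_lit 57854) (nat_lit 252) (.e (nat_lit 57406) (nat_lit 12) (.e (nat_lit 336454) (nat_lit 34) (.e (nat_lit 483406) (nat_lit 26) (.e (nat_lit 385066) (nat_lit 26) (.e (nat_lit 532504) (nat_lit 1) .nil)))))) (.g (nat_lit 0) .nil .nil))) 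
(.lf (nat_lit 184880) (.g (nat_lit 948) (.e (nat_lit 57854) (nat_lit 252) (.e (nat_lit 57409) (nat_lit 12) (.e (nat_lit 336045) (nat_lit 6) .nil))) .nil)))) (.nd (nat_lit 4) (.nd (nat_lit 5) 
(.lf (nat_lit 184840) (.g (nat_lit 2812) (.e (nat_lit 57854) (nat_lit 252) (.e (nat_lit 57406) (nat_lit 12) (.e (nat_lit 336454) (nat_lit 34) (.e (nat_lit 483381) (nat_lit 23) .nil)))) .nil)) 
(.lf (nat_lit 184872) (.g (nat_lit 1700) (.e (nat_lit 57854) (nat_lit 252) (.e (nat_lit 57406) (nat_lit 12) (.e (nat_lit 336456) (nat_lit 34) (.e (nat_lit 483407) (nat_lit 26) .nil)))) .nil))) (.nd (nat_lit 5) 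
(.lf (nat_lit 184856) (.g (nat_lit 2670) (.e (nat_lit 57854) (nat_lit 252) (.e (nat_lit 57406) (nat_lit 12) (.e (nat_lit 336456) (nat_lit 34) (.e (nat_lit 483379) (nat_lit 23) (.e (nat_lit 336344) (nat_lit 22) (.e (nat_lit 245784) (nat_lit 9) (.e (nat_lit 1171) (nat_lit 87) .nil))))))) (.g (nat_lit 4) .nil .nil))) 
(.lf (nat_lit 184888) (.g (nat_lit 3372) (.e (nat_lit 57854) (nat_lit 252) (.e (nat_lit 57409) (nat_lit 12) (.e (nat_lit 336053) (nat_lit 7) (.e (nat_lit 319534) (nat_lit 16) (.e (nat_lit 286756) (nat_lit 10) (.e (nat_lit 344097) (nat_lit 18) (.e (nat_lit 5195) (nat_lit 294) (.e (nat_lit 57363) (nat_lit 1) .nil)))))))) (.g (nat_lit 5) .nil .nil)))))) 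
(.nd (nat_lit 3) (.nd (nat_lit 4) (.nd (nat_lit 5) 
(.lf (nat_lit 184836) (.g (nat_lit 2907) (.e (nat_lit 57854) (nat_lit 252) (.e (nat_lit 57406) (nat_lit 12) (.e (nat_lit 336452) (nat_lit 34) (.e (nat_lit 483403) (nat_lit 26) (.e (nat_lit 385066) (nat_lit 26) (.e (nat_lit 532502) (nat_lit 1) .nil)))))) (.g (nat_lit 4) .nil .nil))) 
(.lf (nat_lit 184868) (.g (nat_lit 3763) (.e (nat_lit 57854) (nat_lit 252) (.e (nat_lit 57406) (nat_lit 12) (.e (nat_lit 336456) (nat_lit 34) (.e (nat_lit 483403) (nat_lit 26) (.e (nat_lit 385066) (nat_lit 26) (.e (nat_lit 532504) (nat_lit 1) .nil)))))) (.g (nat_lit 0) .nil .nil)))) (.nd (nat_lit 5) 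
(.lf (nat_lit 184852) (.g (nat_lit 3751) (.e (nat_lit 57854) (nat_lit 252) (.e (nat_lit 57406) (nat_lit 12) (.e (nat_lit 336454) (nat_lit 34) (.e (nat_lit 483408) (nat_lit 26) (.e (nat_lit 385068) (nat_lit 26) (.e (nat_lit 532504) (nat_lit 1) .nil)))))) (.g (nat_lit 0) .nil .nil))) 
(.lf (nat_lit 184884) (.g (nat_lit 4062) (.e (nat_lit 57854) (nat_lit 252) (.e (nat_lit 57409) (nat_lit 12) (.e (nat_lit 336053) (nat_lit 7) (.e (nat_lit 319533) (nat_lit 16) (.e (nat_lit 286753) (nat_lit 10) (.e (nat_lit 344097) (nat_lit 18) (.e (nat_lit 5195) (nat_lit 294) (.e (nat_lit 57365) (nat_lit 1) .nil)))))))) (.g (nat_lit 7) .nil .nil))))) (.nd (nat_lit 4) (.nd (nat_lit 5) 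
(.lf (nat_lit 184844) (.g (nat_lit 3456) (.e (nat_lit 57854) (nat_lit 252) (.e (nat_lit 57406) (nat_lit 12) (.e (nat_lit 336454) (nat_lit 34) (.e (nat_lit 483403) (nat_lit 26) (.e (nat_lit 385066) (nat_lit 26) (.e (nat_lit 532504) (nat_lit 1) .nil)))))) (.g (nat_lit 0) .nil .nil))) 
(.lf (nat_lit 184876) (.g (nat_lit 3470) (.e (nat_lit 57854) (nat_lit 252) (.e (nat_lit 57409) (nat_lit 12) (.e (nat_lit 336019) (nat_lit 3) (.e (nat_lit 98341) (nat_lit 20) (.e (nat_lit 221220) (nat_lit 25) (.e (nat_lit 229120) (nat_lit 5) (.e (nat_lit 114710) (nat_lit 21) .nil))))))) (.g (nat_lit 4) .nil .nil)))) (.nd (nat_lit 5) 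
(.lf (nat_lit 184860) (.g (nat_lit 2499) (.e (nat_lit 57854) (nat_lit 252) (.e (nat_lit 57406) (nat_lit 12) (.e (nat_lit 336456) (nat_lit 34) (.e (nat_lit 483383) (nat_lit 23) (.e (nat_lit 336316) (nat_lit 17) .nil))))) .nil)) 
(.lf (nat_lit 184892) (.g (nat_lit 1137) (.e (nat_lit 57854) (nat_lit 252) (.e (nat_lit 57409) (nat_lit 12) (.e (nat_lit 336115) (nat_lit 9) (.e (nat_lit 336380) (nat_lit 27) .nil)))) .nil)))))) (.nd (nat_lit 2) (.nd (nat_lit 3) (.nd (nat_lit 4) (.nd (nat_lit 5) 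
(.lf (nat_lit 184834) (.g (nat_lit 2224) (.e (nat_lit 57854) (nat_lit 252) (.e (nat_lit 57406) (nat_lit 12) (.e (nat_lit 336450) (nat_lit 33) (.e (nat_lit 475212) (nat_lit 42) (.e (nat_lit 720956) (nat_lit 25) .nil))))) .nil)) 
(.lf (nat_lit 184866) (.g (nat_lit 1450) (.e (nat_lit 57854) (nat_lit 252) (.e (nat_lit 57406) (nat_lit 12) (.e (nat_lit 336456) (nat_lit 34) (.e (nat_lit 483402) (nat_lit 26) .nil)))) .nil))) (.nd (nat_lit 5) 
(.lf (nat_lit 184850) (.g (nat_lit 1957) (.e (nat_lit 57854) (nat_lit 252) (.e (nat_lit 57406) (nat_lit 12) (.e (nat_lit 336454) (nat_lit 34) (.e (nat_lit 483408) (nat_lit 26) (.e (nat_lit 385064) (nat_lit 26) .nil))))) .nil)) 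
(.lf (nat_lit 184882) (.g (nat_lit 3647) (.e (nat_lit 57854) (nat_lit 252) (.e (nat_lit 57409) (nat_lit 12) (.e (nat_lit 336053) (nat_lit 7) (.e (nat_lit 319533) (nat_lit 16) (.e (nat_lit 286753) (nat_lit 10) (.e (nat_lit 344097) (nat_lit 18) (.e (nat_lit 5194) (nat_lit 294) (.e (nat_lit 57365) (nat_lit 1) .nil)))))))) (.g (nat_lit 5) .nil .nil))))) (.nd (nat_lit 4) (.nd (nat_lit 5) 
(.lf (nat_lit 184842) (.g (nat_lit 3741) (.e (nat_lit 57854) (nat_lit 252) (.e (nat_lit 57406) (nat_lit 12) (.e (nat_lit 336454) (nat_lit 34) (.e (nat_lit 483402) (nat_lit 26) (.e (nat_lit 385068) (nat_lit 26) (.e (nat_lit 532501) (nat_lit 1) .nil)))))) (.g (nat_lit 6) .nil .nil))) 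
(.lf (nat_lit 184874) (.g (nat_lit 2710) (.e (nat_lit 57854) (nat_lit 252) (.e (nat_lit 57409) (nat_lit 12) (.e (nat_lit 336016) (nat_lit 2) (.e (nat_lit 90177) (nat_lit 15) (.e (nat_lit 188455) (nat_lit 24) (.e (nat_lit 237312) (nat_lit 137) (.e (nat_lit 122889) (nat_lit 1) .nil))))))) (.g (nat_lit 4) .nil .nil)))) (.nd (nat_lit 5) 
(.lf (nat_lit 184858) (.g (nat_lit 1971) (.e (nat_lit 57854) (nat_lit 252) (.e (nat_lit 57406) (nat_lit 12) (.e (nat_lit 336456) (nat_lit 34) (.e (nat_lit 483382) (nat_lit 23) (.e (nat_lit 336322) (nat_lit 18) .nil))))) .nil)) 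
(.lf (nat_lit 184890) (.g (nat_lit 799) (.e (nat_lit 57854) (nat_lit 252) (.e (nat_lit 57409) (nat_lit 12) (.e (nat_lit 336114) (nat_lit 9) .nil))) .nil))))) (.nd (nat_lit 3) (.nd (nat_lit 4) (.nd (nat_lit 5) 
(.lf (nat_lit 184838) (.g (nat_lit 2328) (.e (nat_lit 57854) (nat_lit 252) (.e (nat_lit 57406) (nat_lit 12) (.e (nat_lit 336454) (nat_lit 34) (.e (nat_lit 483378) (nat_lit 23) .nil)))) .nil)) 
(.lf (nat_lit 184870) (.g (nat_lit 1813) (.e (nat_lit 57854) (nat_lit 252) (.e (nat_lit 57406) (nat_lit 12) (.e (nat_lit 336456) (nat_lit 34) (.e (nat_lit 483406) (nat_lit 26) (.e (nat_lit 385065) (nat_lit 26) .nil))))) .nil))) (.nd (nat_lit 5) 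
(.lf (nat_lit 184854) (.g (nat_lit 1366) (.e (nat_lit 57854) (nat_lit 252) (.e (nat_lit 57406) (nat_lit 12) (.e (nat_lit 336456) (nat_lit 34) (.e (nat_lit 483379) (nat_lit 23) .nil)))) .nil)) 
(.lf (nat_lit 184886) (.g (nat_lit 2758) (.e (nat_lit 57854) (nat_lit 252) (.e (nat_lit 57409) (nat_lit 12) (.e (nat_lit 336053) (nat_lit 7) (.e (nat_lit 319534) (nat_lit 16) (.e (nat_lit 286749) (nat_lit 9) (.e (nat_lit 335997) (nat_lit 1) (.e (nat_lit 57849) (nat_lit 252) (.e (nat_lit 57368) (nat_lit 1) .nil)))))))) (.g (nat_lit 4) .nil .nil))))) (.nd (nat_lit 4) (.nd (nat_lit 5) 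
(.lf (nat_lit 184846) (.g (nat_lit 3265) (.e (nat_lit 57854) (nat_lit 252) (.e (nat_lit 57406) (nat_lit 12) (.e (nat_lit 336454) (nat_lit 34) (.e (nat_lit 483404) (nat_lit 26) (.e (nat_lit 385066) (nat_lit 26) .nil))))) .nil)) 
(.lf (nat_lit 184878) (.g (nat_lit 3270) (.e (nat_lit 57854) (nat_lit 252) (.e (nat_lit 57409) (nat_lit 12) (.e (nat_lit 336019) (nat_lit 3) (.e (nat_lit 98342) (nat_lit 20) (.e (nat_lit 221220) (nat_lit 25) (.e (nat_lit 229120) (nat_lit 5) (.e (nat_lit 114710) (nat_lit 21) .nil))))))) (.g (nat_lit 4) .nil .nil)))) (.nd (nat_lit 5) 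
(.lf (nat_lit 184862) (.g (nat_lit 1754) (.e (nat_lit 57854) (nat_lit 252) (.e (nat_lit 57406) (nat_lit 12) (.e (nat_lit 336456) (nat_lit 34) (.e (nat_lit 483384) (nat_lit 23) .nil)))) .nil)) 
(.lf (nat_lit 184894) (.g (nat_lit 805) (.e (nat_lit 57854) (nat_lit 252) (.e (nat_lit 57409) (nat_lit 12) (.e (nat_lit 336120) (nat_lit 9) .nil))) .nil))))))) (.nd (nat_lit 1) (.nd (nat_lit 2) (.nd (nat_lit 3) (.nd (nat_lit 4) (.nd (nat_lit 5) 
(.lf (nat_lit 184833) (.g (nat_lit 2761) (.e (nat_lit 57854) (nat_lit 252) (.e (nat_lit 57406) (nat_lit 12) (.e (nat_lit 336450) (nat_lit 33) (.e (nat_lit 475212) (nat_lit 42) (.e (nat_lit 720955) (nat_lit 25) (.e (nat_lit 114711) (nat_lit 21) (.e (nat_lit 57847) (nat_lit 252) (.e (nat_lit 57365) (nat_lit 1) .nil)))))))) (.g (nat_lit 4) .nil .nil))) 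
(.lf (nat_lit 184865) (.g (nat_lit 2040) (.e (nat_lit 57854) (nat_lit 252) (.e (nat_lit 57406) (nat_lit 12) (.e (nat_lit 336456) (nat_lit 34) (.e (nat_lit 483395) (nat_lit 24) (.e (nat_lit 344136) (nat_lit 29) .nil))))) .nil))) (.nd (nat_lit 5) 
(.lf (nat_lit 184849) (.g (nat_lit 3564) (.e (nat_lit 57854) (nat_lit 252) (.e (nat_lit 57406) (nat_lit 12) (.e (nat_lit 336454) (nat_lit 34) (.e (nat_lit 483407) (nat_lit 26) (.e (nat_lit 385068) (nat_lit 26) (.e (nat_lit 532501) (nat_lit 1) .nil)))))) (.g (nat_lit 6) .nil .nil))) 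
(.lf (nat_lit 184881) (.g (nat_lit 948) (.e (nat_lit 57854) (nat_lit 252) (.e (nat_lit 57409) (nat_lit 12) (.e (nat_lit 336052) (nat_lit 6) .nil))) .nil)))) (.nd (nat_lit 4) (.nd (nat_lit 5) 
(.lf (nat_lit 184841) (.g (nat_lit 1520) (.e (nat_lit 57854) (nat_lit 252) (.e (nat_lit 57406) (nat_lit 12) (.e (nat_lit 336454) (nat_lit 34) (.e (nat_lit 483402) (nat_lit 26) .nil)))) .nil)) 
(.lf (nat_lit 184873) (.g (nat_lit 3091) (.e (nat_lit 57854) (nat_lit 252) (.e (nat_lit 57408) (nat_lit 12) (.e (nat_lit 336454) (nat_lit 34) (.e (nat_lit 483385) (nat_lit 23) .nil)))) .nil))) (.nd (nat_lit 5) 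
(.lf (nat_lit 184857) (.g (nat_lit 2215) (.e (nat_lit 57854) (nat_lit 252) (.e (nat_lit 57406) (nat_lit 12) (.e (nat_lit 336456) (nat_lit 34) (.e (nat_lit 483380) (nat_lit 23) (.e (nat_lit 336316) (nat_lit 17) .nil))))) .nil)) 
(.lf (nat_lit 184889) (.g (nat_lit 4287) (.e (nat_lit 57854) (nat_lit 252) (.e (nat_lit 57409) (nat_lit 12) (.e (nat_lit 336053) (nat_lit 7) (.e (nat_lit 319534) (nat_lit 16) (.e (nat_lit 286756) (nat_lit 10) (.e (nat_lit 344097) (nat_lit 18) (.e (nat_lit 5195) (nat_lit 294) (.e (nat_lit 57365) (nat_lit 1) .nil)))))))) (.g (nat_lit 7) .nil .nil)))))) 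
(.nd (nat_lit 3) (.nd (nat_lit 4) (.nd (nat_lit 5) 
(.lf (nat_lit 184837) (.g (nat_lit 367) (.e (nat_lit 57854) (nat_lit 252) (.e (nat_lit 57406) (nat_lit 12) (.e (nat_lit 336454) (nat_lit 34) .nil))) .nil)) 
(.lf (nat_lit 184869) (.g (nat_lit 1353) (.e (nat_lit 57854) (nat_lit 252) (.e (nat_lit 57406) (nat_lit 12) (.e (nat_lit 336456) (nat_lit 34) (.e (nat_lit 483406) (nat_lit 26) .nil)))) .nil))) (.nd (nat_lit 5) 
(.lf (nat_lit 184853) (.g (nat_lit 429) (.e (nat_lit 57854) (nat_lit 252) (.e (nat_lit 57406) (nat_lit 12) (.e (nat_lit 336456) (nat_lit 34) .nil))) .nil)) 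
(.lf (nat_lit 184885) (.g (nat_lit 2721) (.e (nat_lit 57854) (nat_lit 252) (.e (nat_lit 57409) (nat_lit 12) (.e (nat_lit 336053) (nat_lit 7) (.e (nat_lit 319534) (nat_lit 16) (.e (nat_lit 286749) (nat_lit 9) (.e (nat_lit 335997) (nat_lit 1) (.e (nat_lit 57849) (nat_lit 252) (.e (nat_lit 57365) (nat_lit 1) .nil)))))))) (.g (nat_lit 4) .nil .nil))))) (.nd (nat_lit 4) (.nd (nat_lit 5) 
(.lf (nat_lit 184845) (.g (nat_lit 2926) (.e (nat_lit 57854) (nat_lit 252) (.e (nat_lit 57406) (nat_lit 12) (.e (nat_lit 336454) (nat_lit 34) (.e (nat_lit 483404) (nat_lit 26) .nil)))) .nil)) 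
(.lf (nat_lit 184877) (.g (nat_lit 3398) (.e (nat_lit 57854) (nat_lit 252) (.e (nat_lit 57409) (nat_lit 12) (.e (nat_lit 336019) (nat_lit 3) (.e (nat_lit 98341) (nat_lit 20) (.e (nat_lit 221220) (nat_lit 25) (.e (nat_lit 229120) (nat_lit 5) (.e (nat_lit 114712) (nat_lit 21) .nil))))))) (.g (nat_lit 4) .nil .nil)))) (.nd (nat_lit 5) 
(.lf (nat_lit 184861) (.g (nat_lit 2357) (.e (nat_lit 57854) (nat_lit 252) (.e (nat_lit 57406) (nat_lit 12) (.e (nat_lit 336456) (nat_lit 34) (.e (nat_lit 483383) (nat_lit 23) (.e (nat_lit 336322) (nat_lit 18) .nil))))) .nil)) 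
(.lf (nat_lit 184893) (.g (nat_lit 1242) (.e (nat_lit 57854) (nat_lit 252) (.e (nat_lit 57409) (nat_lit 12) (.e (nat_lit 336115) (nat_lit 9) (.e (nat_lit 336426) (nat_lit 29) (.e (nat_lit 450304) (nat_lit 5) .nil))))) .nil)))))) (.nd (nat_lit 2) (.nd (nat_lit 3) (.nd (nat_lit 4) (.nd (nat_lit 5) 
(.lf (nat_lit 184835) (.g (nat_lit 4802) (.e (nat_lit 57854) (nat_lit 252) (.e (nat_lit 57406) (nat_lit 12) (.e (nat_lit 336450) (nat_lit 33) (.e (nat_lit 475212) (nat_lit 42) (.e (nat_lit 720956) (nat_lit 25) (.e (nat_lit 114711) (nat_lit 21) (.e (nat_lit 57847) (nat_lit 252) (.e (nat_lit 57365) (nat_lit 1) .nil)))))))) (.g (nat_lit 0) .nil .nil))) 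
(.lf (nat_lit 184867) (.g (nat_lit 1396) (.e (nat_lit 57854) (nat_lit 252) (.e (nat_lit 57406) (nat_lit 12) (.e (nat_lit 336456) (nat_lit 34) (.e (nat_lit 483403) (nat_lit 26) .nil)))) .nil))) (.nd (nat_lit 5) 
(.lf (nat_lit 184851) (.g (nat_lit 3344) (.e (nat_lit 57854) (nat_lit 252) (.e (nat_lit 57406) (nat_lit 12) (.e (nat_lit 336454) (nat_lit 34) (.e (nat_lit 483408) (nat_lit 26) (.e (nat_lit 385066) (nat_lit 26) (.e (nat_lit 532499) (nat_lit 1) .nil)))))) (.g (nat_lit 6) .nil .nil))) 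
(.lf (nat_lit 184883) (.g (nat_lit 3166) (.e (nat_lit 57854) (nat_lit 252) (.e (nat_lit 57409) (nat_lit 12) (.e (nat_lit 336053) (nat_lit 7) (.e (nat_lit 319533) (nat_lit 16) (.e (nat_lit 286753) (nat_lit 10) (.e (nat_lit 344097) (nat_lit 18) (.e (nat_lit 5195) (nat_lit 294) (.e (nat_lit 57363) (nat_lit 1) .nil)))))))) (.g (nat_lit 4) .nil .nil))))) (.nd (nat_lit 4) (.nd (nat_lit 5) 
(.lf (nat_lit 184843) (.g (nat_lit 3693) (.e (nat_lit 57854) (nat_lit 252) (.e (nat_lit 57406) (nat_lit 12) (.e (nat_lit 336454) (nat_lit 34) (.e (nat_lit 483402) (nat_lit 26) (.e (nat_lit 385068) (nat_lit 26) (.e (nat_lit 532504) (nat_lit 1) .nil)))))) (.g (nat_lit 6) .nil .nil))) 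
(.lf (nat_lit 184875) (.g (nat_lit 1060) (.e (nat_lit 57854) (nat_lit 252) (.e (nat_lit 57409) (nat_lit 12) (.e (nat_lit 336019) (nat_lit 3) .nil))) .nil))) (.nd (nat_lit 5) 
(.lf (nat_lit 184859) (.g (nat_lit 1242) (.e (nat_lit 57854) (nat_lit 252) (.e (nat_lit 57406) (nat_lit 12) (.e (nat_lit 336456) (nat_lit 34) (.e (nat_lit 483383) (nat_lit 23) .nil)))) .nil)) 
(.lf (nat_lit 184891) (.g (nat_lit 539) (.e (nat_lit 57854) (nat_lit 252) (.e (nat_lit 57409) (nat_lit 12) (.e (nat_lit 336115) (nat_lit 9) .nil))) .nil))))) (.nd (nat_lit 3) (.nd (nat_lit 4) (.nd (nat_lit 5) 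
(.lf (nat_lit 184839) (.g (nat_lit 2952) (.e (nat_lit 57854) (nat_lit 252) (.e (nat_lit 57406) (nat_lit 12) (.e (nat_lit 336454) (nat_lit 34) (.e (nat_lit 483379) (nat_lit 23) .nil)))) .nil)) 
(.lf (nat_lit 184871) (.g (nat_lit 4210) (.e (nat_lit 57854) (nat_lit 252) (.e (nat_lit 57406) (nat_lit 12) (.e (nat_lit 336456) (nat_lit 34) (.e (nat_lit 483406) (nat_lit 26) (.e (nat_lit 385066) (nat_lit 26) (.e (nat_lit 532504) (nat_lit 1) .nil)))))) (.g (nat_lit 0) .nil .nil)))) (.nd (nat_lit 5) 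
(.lf (nat_lit 184855) (.g (nat_lit 1809) (.e (nat_lit 57854) (nat_lit 252) (.e (nat_lit 57406) (nat_lit 12) (.e (nat_lit 336456) (nat_lit 34) (.e (nat_lit 483379) (nat_lit 23) (.e (nat_lit 336325) (nat_lit 18) .nil))))) .nil)) 
(.lf (nat_lit 184887) (.g (nat_lit 3750) (.e (nat_lit 57854) (nat_lit 252) (.e (nat_lit 57409) (nat_lit 12) (.e (nat_lit 336053) (nat_lit 7) (.e (nat_lit 319534) (nat_lit 16) (.e (nat_lit 286756) (nat_lit 10) (.e (nat_lit 344097) (nat_lit 18) (.e (nat_lit 5194) (nat_lit 294) (.e (nat_lit 57365) (nat_lit 1) .nil)))))))) (.g (nat_lit 5) .nil .nil))))) (.nd (nat_lit 4) (.nd (nat_lit 5) 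
(.lf (nat_lit 184847) (.g (nat_lit 3454) (.e (nat_lit 57854) (nat_lit 252) (.e (nat_lit 57406) (nat_lit 12) (.e (nat_lit 336454) (nat_lit 34) (.e (nat_lit 483405) (nat_lit 26) (.e (nat_lit 385068) (nat_lit 26) (.e (nat_lit 532501) (nat_lit 1) .nil)))))) (.g (nat_lit 6) .nil .nil))) 
(.lf (nat_lit 184879) (.g (nat_lit 2842) (.e (nat_lit 57854) (nat_lit 252) (.e (nat_lit 57409) (nat_lit 12) (.e (nat_lit 336019) (nat_lit 3) (.e (nat_lit 98356) (nat_lit 26) (.e (nat_lit 426422) (nat_lit 16) .nil))))) .nil))) (.nd (nat_lit 5) 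
(.lf (nat_lit 184863) (.g (nat_lit 1183) (.e (nat_lit 57854) (nat_lit 252) (.e (nat_lit 57406) (nat_lit 12) (.e (nat_lit 336456) (nat_lit 34) (.e (nat_lit 483391) (nat_lit 23) .nil)))) .nil)) 
(.lf (nat_lit 184895) (.g (nat_lit 893) (.e (nat_lit 57854) (nat_lit 252) (.e (nat_lit 57409) (nat_lit 12) (.e (nat_lit 336122) (nat_lit 9) .nil))) .nil))))))))

noncomputable def tv2461 : DT := (.nd (nat_lit 0) (.nd (nat_lit 1) (.nd (nat_lit 2) (.nd (nat_lit 3) (.nd (nat_lit 4) (.nd (nat_lit 5) 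
(.lf (nat_lit 184896) (.g (nat_lit 948) (.e (nat_lit 57854) (nat_lit 252) (.e (nat_lit 57409) (nat_lit 12) (.e (nat_lit 336138) (nat_lit 9) .nil))) .nil)) 
(.lf (nat_lit 184928) (.g (nat_lit 2580) (.e (nat_lit 57854) (nat_lit 252) (.e (nat_lit 57409) (nat_lit 12) (.e (nat_lit 336310) (nat_lit 16) (.e (nat_lit 164179) (nat_lit 154) (.e (nat_lit 57436) (nat_lit 17) (.e (nat_lit 376860) (nat_lit 21) (.e (nat_lit 57854) (nat_lit 252) (.e (nat_lit 57364) (nat_lit 1) .nil)))))))) (.g (nat_lit 4) .nil .nil)))) (.nd (nat_lit 5) 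
(.lf (nat_lit 184912) (.g (nat_lit 1196) (.e (nat_lit 57854) (nat_lit 252) (.e (nat_lit 57409) (nat_lit 12) (.e (nat_lit 336211) (nat_lit 13) (.e (nat_lit 393279) (nat_lit 23) .nil)))) .nil)) 
(.lf (nat_lit 184944) (.g (nat_lit 3472) (.e (nat_lit 57854) (nat_lit 252) (.e (nat_lit 57409) (nat_lit 12) (.e (nat_lit 336360) (nat_lit 25) (.e (nat_lit 409649) (nat_lit 18) (.e (nat_lit 303140) (nat_lit 10) (.e (nat_lit 434211) (nat_lit 18) (.e (nat_lit 6400) (nat_lit 339) (.e (nat_lit 57368) (nat_lit 1) .nil)))))))) (.g (nat_lit 5) .nil .nil))))) (.nd (nat_lit 4) (.nd (nat_lit 5) 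
(.lf (nat_lit 184904) (.g (nat_lit 2361) (.e (nat_lit 57854) (nat_lit 252) (.e (nat_lit 57409) (nat_lit 12) (.e (nat_lit 336211) (nat_lit 13) (.e (nat_lit 393268) (nat_lit 23) (.e (nat_lit 426361) (nat_lit 15) (.e (nat_lit 2195) (nat_lit 144) (.e (nat_lit 720934) (nat_lit 21) .nil))))))) (.g (nat_lit 4) .nil .nil))) 
(.lf (nat_lit 184936) (.g (nat_lit 2147) (.e (nat_lit 57854) (nat_lit 252) (.e (nat_lit 57409) (nat_lit 12) (.e (nat_lit 336324) (nat_lit 18) (.e (nat_lit 204868) (nat_lit 29) .nil)))) .nil))) (.nd (nat_lit 5) 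
(.lf (nat_lit 184920) (.g (nat_lit 2566) (.e (nat_lit 57854) (nat_lit 252) (.e (nat_lit 57409) (nat_lit 12) (.e (nat_lit 336211) (nat_lit 13) (.e (nat_lit 393295) (nat_lit 26) (.e (nat_lit 475214) (nat_lit 42) (.e (nat_lit 720931) (nat_lit 21) .nil)))))) (.g (nat_lit 5) .nil .nil))) 
(.lf (nat_lit 184952) (.g (nat_lit 2267) (.e (nat_lit 57854) (nat_lit 252) (.e (nat_lit 57409) (nat_lit 12) (.e (nat_lit 336369) (nat_lit 27) (.e (nat_lit 426498) (nat_lit 27) (.e (nat_lit 336076) (nat_lit 9) .nil))))) .nil))))) (.nd (nat_lit 3) (.nd (nat_lit 4) (.nd (nat_lit 5) 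
(.lf (nat_lit 184900) (.g (nat_lit 1327) (.e (nat_lit 57854) (nat_lit 252) (.e (nat_lit 57409) (nat_lit 12) (.e (nat_lit 336210) (nat_lit 13) (.e (nat_lit 393274) (nat_lit 23) (.e (nat_lit 433920) (nat_lit 20) .nil))))) .nil)) 
(.lf (nat_lit 184932) (.g (nat_lit 948) (.e (nat_lit 57854) (nat_lit 252) (.e (nat_lit 57409) (nat_lit 12) (.e (nat_lit 336314) (nat_lit 16) .nil))) .nil))) (.nd (nat_lit 5) 
(.lf (nat_lit 184916) (.g (nat_lit 2779) (.e (nat_lit 57854) (nat_lit 252) (.e (nat_lit 57409) (nat_lit 12) (.e (nat_lit 336211) (nat_lit 13) (.e (nat_lit 393291) (nat_lit 26) (.e (nat_lit 475214) (nat_lit 42) (.e (nat_lit 720934) (nat_lit 21) .nil)))))) (.g (nat_lit 5) .nil .nil))) 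
(.lf (nat_lit 184948) (.g (nat_lit 2848) (.e (nat_lit 57854) (nat_lit 252) (.e (nat_lit 57409) (nat_lit 12) (.e (nat_lit 336369) (nat_lit 27) (.e (nat_lit 426497) (nat_lit 27) (.e (nat_lit 336201) (nat_lit 12) (.e (nat_lit 385068) (nat_lit 26) (.e (nat_lit 532501) (nat_lit 1) .nil))))))) (.g (nat_lit 4) .nil .nil))))) (.nd (nat_lit 4) (.nd (nat_lit 5) 
(.lf (nat_lit 184908) (.g (nat_lit 2499) (.e (nat_lit 57854) (nat_lit 252) (.e (nat_lit 57409) (nat_lit 12) (.e (nat_lit 336211) (nat_lit 13) (.e (nat_lit 393270) (nat_lit 23) (.e (nat_lit 426448) (nat_lit 20) (.e (nat_lit 114712) (nat_lit 21) .nil)))))) (.g (nat_lit 0) .nil .nil))) 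
(.lf (nat_lit 184940) (.g (nat_lit 1736) (.e (nat_lit 57854) (nat_lit 252) (.e (nat_lit 57409) (nat_lit 12) (.e (nat_lit 336360) (nat_lit 25) (.e (nat_lit 409648) (nat_lit 18) (.e (nat_lit 303137) (nat_lit 10) (.e (nat_lit 434200) (nat_lit 18) (.e (nat_lit 6403) (nat_lit 339) (.e (nat_lit 57365) (nat_lit 1) .nil)))))))) (.g (nat_lit 4) .nil .nil)))) (.nd (nat_lit 5) 
(.lf (nat_lit 184924) (.g (nat_lit 4284) (.e (nat_lit 57854) (nat_lit 252) (.e (nat_lit 57409) (nat_lit 12) (.e (nat_lit 336240) (nat_lit 15) (.e (nat_lit 3453) (nat_lit 216) (.e (nat_lit 688185) (nat_lit 18) (.e (nat_lit 81950) (nat_lit 21) (.e (nat_lit 57848) (nat_lit 252) (.e (nat_lit 57365) (nat_lit 1) .nil)))))))) (.g (nat_lit 7) .nil .nil))) 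
(.lf (nat_lit 184956) (.g (nat_lit 2981) (.e (nat_lit 57854) (nat_lit 252) (.e (nat_lit 57409) (nat_lit 12) (.e (nat_lit 336369) (nat_lit 27) (.e (nat_lit 426499) (nat_lit 27) (.e (nat_lit 336194) (nat_lit 12) .nil))))) .nil)))))) (.nd (nat_lit 2) (.nd (nat_lit 3) (.nd (nat_lit 4) (.nd (nat_lit 5) 
(.lf (nat_lit 184898) (.g (nat_lit 866) (.e (nat_lit 57854) (nat_lit 252) (.e (nat_lit 57409) (nat_lit 12) (.e (nat_lit 336148) (nat_lit 9) .nil))) .nil)) 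
(.lf (nat_lit 184930) (.g (nat_lit 3385) (.e (nat_lit 57854) (nat_lit 252) (.e (nat_lit 57409) (nat_lit 12) (.e (nat_lit 336310) (nat_lit 16) (.e (nat_lit 164179) (nat_lit 154) (.e (nat_lit 57437) (nat_lit 17) (.e (nat_lit 376860) (nat_lit 21) (.e (nat_lit 57854) (nat_lit 252) (.e (nat_lit 57364) (nat_lit 1) .nil)))))))) (.g (nat_lit 5) .nil .nil)))) (.nd (nat_lit 5) 
(.lf (nat_lit 184914) (.g (nat_lit 2566) (.e (nat_lit 57854) (nat_lit 252) (.e (nat_lit 57409) (nat_lit 12) (.e (nat_lit 336211) (nat_lit 13) (.e (nat_lit 393291) (nat_lit 26) (.e (nat_lit 475213) (nat_lit 42) (.e (nat_lit 720931) (nat_lit 21) .nil)))))) (.g (nat_lit 6) .nil .nil))) 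
(.lf (nat_lit 184946) (.g (nat_lit 1590) (.e (nat_lit 57854) (nat_lit 252) (.e (nat_lit 57409) (nat_lit 12) (.e (nat_lit 336369) (nat_lit 27) (.e (nat_lit 426497) (nat_lit 27) .nil)))) .nil)))) (.nd (nat_lit 4) (.nd (nat_lit 5) 
(.lf (nat_lit 184906) (.g (nat_lit 1774) (.e (nat_lit 57854) (nat_lit 252) (.e (nat_lit 57409) (nat_lit 12) (.e (nat_lit 336211) (nat_lit 13) (.e (nat_lit 393268) (nat_lit 23) (.e (nat_lit 426361) (nat_lit 15) (.e (nat_lit 2206) (nat_lit 144) (.e (nat_lit 720930) (nat_lit 21) .nil))))))) (.g (nat_lit 4) .nil .nil))) 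
(.lf (nat_lit 184938) (.g (nat_lit 2156) (.e (nat_lit 57854) (nat_lit 252) (.e (nat_lit 57409) (nat_lit 12) (.e (nat_lit 336324) (nat_lit 18) (.e (nat_lit 204869) (nat_lit 29) .nil)))) .nil))) (.nd (nat_lit 5) 
(.lf (nat_lit 184922) (.g (nat_lit 1863) (.e (nat_lit 57854) (nat_lit 252) (.e (nat_lit 57409) (nat_lit 12) (.e (nat_lit 336211) (nat_lit 13) (.e (nat_lit 393296) (nat_lit 26) (.e (nat_lit 475215) (nat_lit 43) .nil))))) .nil)) 
(.lf (nat_lit 184954) (.g (nat_lit 3012) (.e (nat_lit 57854) (nat_lit 252) (.e (nat_lit 57409) (nat_lit 12) (.e (nat_lit 336369) (nat_lit 27) (.e (nat_lit 426498) (nat_lit 27) (.e (nat_lit 336201) (nat_lit 12) (.e (nat_lit 385068) (nat_lit 26) (.e (nat_lit 532504) (nat_lit 1) .nil))))))) (.g (nat_lit 4) .nil .nil)))))) (.nd (nat_lit 3) (.nd (nat_lit 4) (.nd (nat_lit 5) 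
(.lf (nat_lit 184902) (.g (nat_lit 397) (.e (nat_lit 57854) (nat_lit 252) (.e (nat_lit 57409) (nat_lit 12) (.e (nat_lit 336211) (nat_lit 13) .nil))) .nil)) 
(.lf (nat_lit 184934) (.g (nat_lit 3434) (.e (nat_lit 57854) (nat_lit 252) (.e (nat_lit 57409) (nat_lit 12) (.e (nat_lit 336314) (nat_lit 16) (.e (nat_lit 164178) (nat_lit 154) (.e (nat_lit 57437) (nat_lit 17) (.e (nat_lit 376860) (nat_lit 21) (.e (nat_lit 57854) (nat_lit 252) (.e (nat_lit 57366) (nat_lit 1) .nil)))))))) (.g (nat_lit 5) .nil .nil)))) (.nd (nat_lit 5) 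
(.lf (nat_lit 184918) (.g (nat_lit 2571) (.e (nat_lit 57854) (nat_lit 252) (.e (nat_lit 57409) (nat_lit 12) (.e (nat_lit 336211) (nat_lit 13) (.e (nat_lit 393292) (nat_lit 26) (.e (nat_lit 475212) (nat_lit 42) (.e (nat_lit 720931) (nat_lit 21) .nil)))))) (.g (nat_lit 6) .nil .nil))) 
(.lf (nat_lit 184950) (.g (nat_lit 2252) (.e (nat_lit 57854) (nat_lit 252) (.e (nat_lit 57409) (nat_lit 12) (.e (nat_lit 336369) (nat_lit 27) (.e (nat_lit 426497) (nat_lit 27) (.e (nat_lit 336204) (nat_lit 12) .nil))))) .nil)))) (.nd (nat_lit 4) (.nd (nat_lit 5) 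
(.lf (nat_lit 184910) (.g (nat_lit 3577) (.e (nat_lit 57854) (nat_lit 252) (.e (nat_lit 57409) (nat_lit 12) (.e (nat_lit 336211) (nat_lit 13) (.e (nat_lit 393271) (nat_lit 23) (.e (nat_lit 426448) (nat_lit 20) (.e (nat_lit 114710) (nat_lit 21) .nil)))))) (.g (nat_lit 0) .nil .nil))) 
(.lf (nat_lit 184942) (.g (nat_lit 3564) (.e (nat_lit 57854) (nat_lit 252) (.e (nat_lit 57409) (nat_lit 12) (.e (nat_lit 336360) (nat_lit 25) (.e (nat_lit 409649) (nat_lit 18) (.e (nat_lit 303132) (nat_lit 9) (.e (nat_lit 426109) (nat_lit 1) (.e (nat_lit 164177) (nat_lit 154) (.e (nat_lit 57364) (nat_lit 1) .nil)))))))) (.g (nat_lit 5) .nil .nil)))) (.nd (nat_lit 5) 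
(.lf (nat_lit 184926) (.g (nat_lit 737) (.e (nat_lit 57854) (nat_lit 252) (.e (nat_lit 57409) (nat_lit 12) (.e (nat_lit 336310) (nat_lit 16) .nil))) .nil)) 
(.lf (nat_lit 184958) (.g (nat_lit 4284) (.e (nat_lit 57854) (nat_lit 252) (.e (nat_lit 57409) (nat_lit 12) (.e (nat_lit 336369) (nat_lit 27) (.e (nat_lit 426499) (nat_lit 27) (.e (nat_lit 336196) (nat_lit 12) (.e (nat_lit 385066) (nat_lit 26) (.e (nat_lit 532499) (nat_lit 1) .nil))))))) (.g (nat_lit 5) .nil .nil)))))))) 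
(.nd (nat_lit 1) (.nd (nat_lit 2) (.nd (nat_lit 3) (.nd (nat_lit 4) (.nd (nat_lit 5) 
(.lf (nat_lit 184897) (.g (nat_lit 948) (.e (nat_lit 57854) (nat_lit 252) (.e (nat_lit 57409) (nat_lit 12) (.e (nat_lit 336146) (nat_lit 9) .nil))) .nil)) 
(.lf (nat_lit 184929) (.g (nat_lit 3052) (.e (nat_lit 57854) (nat_lit 252) (.e (nat_lit 57409) (nat_lit 12) (.e (nat_lit 336310) (nat_lit 16) (.e (nat_lit 164179) (nat_lit 154) (.e (nat_lit 57436) (nat_lit 17) (.e (nat_lit 376860) (nat_lit 21) (.e (nat_lit 57854) (nat_lit 252) (.e (nat_lit 57366) (nat_lit 1) .nil)))))))) (.g (nat_lit 4) .nil .nil)))) (.nd (nat_lit 5) 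
(.lf (nat_lit 184913) (.g (nat_lit 2546) (.e (nat_lit 57854) (nat_lit 252) (.e (nat_lit 57409) (nat_lit 12) (.e (nat_lit 336211) (nat_lit 13) (.e (nat_lit 393291) (nat_lit 26) (.e (nat_lit 475212) (nat_lit 42) (.e (nat_lit 720934) (nat_lit 21) .nil)))))) (.g (nat_lit 5) .nil .nil))) 
(.lf (nat_lit 184945) (.g (nat_lit 2220) (.e (nat_lit 57854) (nat_lit 252) (.e (nat_lit 57409) (nat_lit 12) (.e (nat_lit 336368) (nat_lit 27) (.e (nat_lit 426499) (nat_lit 27) (.e (nat_lit 336196) (nat_lit 12) .nil))))) .nil)))) (.nd (nat_lit 4) (.nd (nat_lit 5) 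
(.lf (nat_lit 184905) (.g (nat_lit 2692) (.e (nat_lit 57854) (nat_lit 252) (.e (nat_lit 57409) (nat_lit 12) (.e (nat_lit 336211) (nat_lit 13) (.e (nat_lit 393268) (nat_lit 23) (.e (nat_lit 426361) (nat_lit 15) (.e (nat_lit 2203) (nat_lit 144) (.e (nat_lit 720934) (nat_lit 21) .nil))))))) (.g (nat_lit 5) .nil .nil))) 
(.lf (nat_lit 184937) (.g (nat_lit 3062) (.e (nat_lit 57854) (nat_lit 252) (.e (nat_lit 57409) (nat_lit 12) (.e (nat_lit 336324) (nat_lit 18) (.e (nat_lit 204868) (nat_lit 29) (.e (nat_lit 360449) (nat_lit 0) .nil))))) .nil))) (.nd (nat_lit 5) 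
(.lf (nat_lit 184921) (.g (nat_lit 2426) (.e (nat_lit 57854) (nat_lit 252) (.e (nat_lit 57409) (nat_lit 12) (.e (nat_lit 336211) (nat_lit 13) (.e (nat_lit 393296) (nat_lit 26) (.e (nat_lit 475213) (nat_lit 42) (.e (nat_lit 720931) (nat_lit 21) .nil)))))) (.g (nat_lit 5) .nil .nil))) 
(.lf (nat_lit 184953) (.g (nat_lit 2900) (.e (nat_lit 57854) (nat_lit 252) (.e (nat_lit 57409) (nat_lit 12) (.e (nat_lit 336369) (nat_lit 27) (.e (nat_lit 426498) (nat_lit 27) (.e (nat_lit 336201) (nat_lit 12) (.e (nat_lit 385068) (nat_lit 26) (.e (nat_lit 532501) (nat_lit 1) .nil))))))) (.g (nat_lit 4) .nil .nil)))))) (.nd (nat_lit 3) (.nd (nat_lit 4) (.nd (nat_lit 5) 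
(.lf (nat_lit 184901) (.g (nat_lit 1889) (.e (nat_lit 57854) (nat_lit 252) (.e (nat_lit 57409) (nat_lit 12) (.e (nat_lit 336210) (nat_lit 13) (.e (nat_lit 393294) (nat_lit 26) (.e (nat_lit 475213) (nat_lit 42) .nil))))) .nil)) 
(.lf (nat_lit 184933) (.g (nat_lit 2962) (.e (nat_lit 57854) (nat_lit 252) (.e (nat_lit 57409) (nat_lit 12) (.e (nat_lit 336314) (nat_lit 16) (.e (nat_lit 164178) (nat_lit 154) (.e (nat_lit 57437) (nat_lit 17) (.e (nat_lit 376860) (nat_lit 21) (.e (nat_lit 57854) (nat_lit 252) (.e (nat_lit 57364) (nat_lit 1) .nil)))))))) (.g (nat_lit 5) .nil .nil)))) (.nd (nat_lit 5) 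
(.lf (nat_lit 184917) (.g (nat_lit 2105) (.e (nat_lit 57854) (nat_lit 252) (.e (nat_lit 57409) (nat_lit 12) (.e (nat_lit 336211) (nat_lit 13) (.e (nat_lit 393291) (nat_lit 26) (.e (nat_lit 483072) (nat_lit 42) (.e (nat_lit 720934) (nat_lit 21) .nil)))))) (.g (nat_lit 4) .nil .nil))) 
(.lf (nat_lit 184949) (.g (nat_lit 2960) (.e (nat_lit 57854) (nat_lit 252) (.e (nat_lit 57409) (nat_lit 12) (.e (nat_lit 336369) (nat_lit 27) (.e (nat_lit 426497) (nat_lit 27) (.e (nat_lit 336201) (nat_lit 12) (.e (nat_lit 385068) (nat_lit 26) (.e (nat_lit 532504) (nat_lit 1) .nil))))))) (.g (nat_lit 4) .nil .nil))))) (.nd (nat_lit 4) (.nd (nat_lit 5) 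
(.lf (nat_lit 184909) (.g (nat_lit 2816) (.e (nat_lit 57854) (nat_lit 252) (.e (nat_lit 57409) (nat_lit 12) (.e (nat_lit 336211) (nat_lit 13) (.e (nat_lit 393271) (nat_lit 23) (.e (nat_lit 426446) (nat_lit 20) (.e (nat_lit 114712) (nat_lit 21) .nil)))))) (.g (nat_lit 5) .nil .nil))) 
(.lf (nat_lit 184941) (.g (nat_lit 3140) (.e (nat_lit 57854) (nat_lit 252) (.e (nat_lit 57409) (nat_lit 12) (.e (nat_lit 336360) (nat_lit 25) (.e (nat_lit 409648) (nat_lit 18) (.e (nat_lit 303137) (nat_lit 10) (.e (nat_lit 434209) (nat_lit 18) (.e (nat_lit 6391) (nat_lit 339) (.e (nat_lit 57365) (nat_lit 1) .nil)))))))) (.g (nat_lit 6) .nil .nil)))) (.nd (nat_lit 5) 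
(.lf (nat_lit 184925) (.g (nat_lit 869) (.e (nat_lit 57854) (nat_lit 252) (.e (nat_lit 57409) (nat_lit 12) (.e (nat_lit 336258) (nat_lit 15) .nil))) .nil)) 
(.lf (nat_lit 184957) (.g (nat_lit 2720) (.e (nat_lit 57854) (nat_lit 252) (.e (nat_lit 57409) (nat_lit 12) (.e (nat_lit 336369) (nat_lit 27) (.e (nat_lit 426499) (nat_lit 27) (.e (nat_lit 336196) (nat_lit 12) .nil))))) .nil)))))) (.nd (nat_lit 2) (.nd (nat_lit 3) (.nd (nat_lit 4) (.nd (nat_lit 5) 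
(.lf (nat_lit 184899) (.g (nat_lit 507) (.e (nat_lit 57854) (nat_lit 252) (.e (nat_lit 57409) (nat_lit 12) (.e (nat_lit 336210) (nat_lit 13) .nil))) .nil)) 
(.lf (nat_lit 184931) (.g (nat_lit 3857) (.e (nat_lit 57854) (nat_lit 252) (.e (nat_lit 57409) (nat_lit 12) (.e (nat_lit 336310) (nat_lit 16) (.e (nat_lit 164179) (nat_lit 154) (.e (nat_lit 57437) (nat_lit 17) (.e (nat_lit 376860) (nat_lit 21) (.e (nat_lit 57854) (nat_lit 252) (.e (nat_lit 57366) (nat_lit 1) .nil)))))))) (.g (nat_lit 6) .nil .nil)))) (.nd (nat_lit 5) 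
(.lf (nat_lit 184915) (.g (nat_lit 2895) (.e (nat_lit 57854) (nat_lit 252) (.e (nat_lit 57409) (nat_lit 12) (.e (nat_lit 336211) (nat_lit 13) (.e (nat_lit 393291) (nat_lit 26) (.e (nat_lit 475214) (nat_lit 42) (.e (nat_lit 720932) (nat_lit 21) .nil)))))) (.g (nat_lit 5) .nil .nil))) 
(.lf (nat_lit 184947) (.g (nat_lit 4156) (.e (nat_lit 57854) (nat_lit 252) (.e (nat_lit 57409) (nat_lit 12) (.e (nat_lit 336369) (nat_lit 27) (.e (nat_lit 426497) (nat_lit 27) (.e (nat_lit 336194) (nat_lit 12) (.e (nat_lit 385066) (nat_lit 26) (.e (nat_lit 532502) (nat_lit 1) .nil))))))) (.g (nat_lit 5) .nil .nil))))) (.nd (nat_lit 4) (.nd (nat_lit 5) 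
(.lf (nat_lit 184907) (.g (nat_lit 2096) (.e (nat_lit 57854) (nat_lit 252) (.e (nat_lit 57409) (nat_lit 12) (.e (nat_lit 336211) (nat_lit 13) (.e (nat_lit 393268) (nat_lit 23) (.e (nat_lit 433920) (nat_lit 20) .nil))))) .nil)) 
(.lf (nat_lit 184939) (.g (nat_lit 1717) (.e (nat_lit 57854) (nat_lit 252) (.e (nat_lit 57409) (nat_lit 12) (.e (nat_lit 336326) (nat_lit 18) (.e (nat_lit 204869) (nat_lit 29) (.e (nat_lit 368384) (nat_lit 0) .nil))))) .nil))) (.nd (nat_lit 5) 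
(.lf (nat_lit 184923) (.g (nat_lit 481) (.e (nat_lit 57854) (nat_lit 252) (.e (nat_lit 57409) (nat_lit 12) (.e (nat_lit 343808) (nat_lit 13) .nil))) .nil)) 
(.lf (nat_lit 184955) (.g (nat_lit 4573) (.e (nat_lit 57854) (nat_lit 252) (.e (nat_lit 57409) (nat_lit 12) (.e (nat_lit 336369) (nat_lit 27) (.e (nat_lit 426499) (nat_lit 27) (.e (nat_lit 336078) (nat_lit 9) (.e (nat_lit 336324) (nat_lit 18) (.e (nat_lit 204831) (nat_lit 18) .nil))))))) (.g (nat_lit 5) .nil .nil)))))) (.nd (nat_lit 3) (.nd (nat_lit 4) (.nd (nat_lit 5) 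
(.lf (nat_lit 184903) (.g (nat_lit 1631) (.e (nat_lit 57854) (nat_lit 252) (.e (nat_lit 57409) (nat_lit 12) (.e (nat_lit 336211) (nat_lit 13) (.e (nat_lit 393268) (nat_lit 23) (.e (nat_lit 426361) (nat_lit 15) .nil))))) .nil)) 
(.lf (nat_lit 184935) (.g (nat_lit 838) (.e (nat_lit 57854) (nat_lit 252) (.e (nat_lit 57409) (nat_lit 12) (.e (nat_lit 336324) (nat_lit 18) .nil))) .nil))) (.nd (nat_lit 5) 
(.lf (nat_lit 184919) (.g (nat_lit 1624) (.e (nat_lit 57854) (nat_lit 252) (.e (nat_lit 57409) (nat_lit 12) (.e (nat_lit 336211) (nat_lit 13) (.e (nat_lit 393293) (nat_lit 26) (.e (nat_lit 475213) (nat_lit 42) .nil))))) .nil)) 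
(.lf (nat_lit 184951) (.g (nat_lit 1625) (.e (nat_lit 57854) (nat_lit 252) (.e (nat_lit 57409) (nat_lit 12) (.e (nat_lit 336369) (nat_lit 27) (.e (nat_lit 426498) (nat_lit 27) .nil)))) .nil)))) (.nd (nat_lit 4) (.nd (nat_lit 5) 
(.lf (nat_lit 184911) (.g (nat_lit 1838) (.e (nat_lit 57854) (nat_lit 252) (.e (nat_lit 57409) (nat_lit 12) (.e (nat_lit 336211) (nat_lit 13) (.e (nat_lit 393273) (nat_lit 23) (.e (nat_lit 426364) (nat_lit 15) (.e (nat_lit 2201) (nat_lit 144) (.e (nat_lit 720931) (nat_lit 21) .nil))))))) (.g (nat_lit 4) .nil .nil))) 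
(.lf (nat_lit 184943) (.g (nat_lit 3297) (.e (nat_lit 57854) (nat_lit 252) (.e (nat_lit 57409) (nat_lit 12) (.e (nat_lit 336360) (nat_lit 25) (.e (nat_lit 409649) (nat_lit 18) (.e (nat_lit 303140) (nat_lit 10) (.e (nat_lit 434205) (nat_lit 18) (.e (nat_lit 6402) (nat_lit 339) (.e (nat_lit 57368) (nat_lit 1) .nil)))))))) (.g (nat_lit 5) .nil .nil)))) (.nd (nat_lit 5) 
(.lf (nat_lit 184927) (.g (nat_lit 2901) (.e (nat_lit 57854) (nat_lit 252) (.e (nat_lit 57409) (nat_lit 12) (.e (nat_lit 336310) (nat_lit 16) (.e (nat_lit 164178) (nat_lit 154) (.e (nat_lit 57437) (nat_lit 17) (.e (nat_lit 376860) (nat_lit 21) (.e (nat_lit 57854) (nat_lit 252) (.e (nat_lit 57364) (nat_lit 1) .nil)))))))) (.g (nat_lit 5) .nil .nil))) 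
(.lf (nat_lit 184959) (.g (nat_lit 5213) (.e (nat_lit 57854) (nat_lit 252) (.e (nat_lit 57409) (nat_lit 12) (.e (nat_lit 336369) (nat_lit 27) (.e (nat_lit 426499) (nat_lit 27) (.e (nat_lit 336196) (nat_lit 12) (.e (nat_lit 385066) (nat_lit 26) (.e (nat_lit 532502) (nat_lit 1) .nil))))))) (.g (nat_lit 5) .nil .nil)))))))))

noncomputable def tv2462 : DT := (.nd (nat_lit 0) (.nd (nat_lit 1) (.nd (nat_lit 2) (.nd (nat_lit 3) (.nd (nat_lit 4) (.nd (nat_lit 5) (.nd (nat_lit 6) 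
(.lf (nat_lit 184960) (.g (nat_lit 1570) (.e (nat_lit 57854) (nat_lit 252) (.e (nat_lit 57409) (nat_lit 12) (.e (nat_lit 336369) (nat_lit 27) (.e (nat_lit 426501) (nat_lit 27) .nil)))) .nil)) 
(.lf (nat_lit 185024) (.g (nat_lit 2965) (.e (nat_lit 57854) (nat_lit 252) (.e (nat_lit 57412) (nat_lit 12) (.e (nat_lit 336061) (nat_lit 7) (.e (nat_lit 319531) (nat_lit 16) (.e (nat_lit 286750) (nat_lit 9) (.e (nat_lit 335986) (nat_lit 1) (.e (nat_lit 57847) (nat_lit 252) (.e (nat_lit 57368) (nat_lit 1) .nil)))))))) (.g (nat_lit 4) .nil .nil)))) (.nd (nat_lit 6) 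
(.lf (nat_lit 184992) (.g (nat_lit 870) (.e (nat_lit 57854) (nat_lit 252) (.e (nat_lit 57409) (nat_lit 12) (.e (nat_lit 336448) (nat_lit 33) .nil))) .nil)) 
(.lf (nat_lit 185056) (.g (nat_lit 2483) (.e (nat_lit 57854) (nat_lit 252) (.e (nat_lit 57414) (nat_lit 12) (.e (nat_lit 336060) (nat_lit 7) (.e (nat_lit 319534) (nat_lit 16) (.e (nat_lit 286756) (nat_lit 10) (.e (nat_lit 344097) (nat_lit 18) (.e (nat_lit 5195) (nat_lit 294) (.e (nat_lit 57363) (nat_lit 1) .nil)))))))) (.g (nat_lit 4) .nil .nil))))) (.nd (nat_lit 5) (.nd (nat_lit 6) 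
(.lf (nat_lit 184976) (.g (nat_lit 2070) (.e (nat_lit 57854) (nat_lit 252) (.e (nat_lit 57409) (nat_lit 12) (.e (nat_lit 336414) (nat_lit 27) (.e (nat_lit 426503) (nat_lit 27) (.e (nat_lit 336076) (nat_lit 9) .nil))))) .nil)) 
(.lf (nat_lit 185040) (.g (nat_lit 2264) (.e (nat_lit 57854) (nat_lit 252) (.e (nat_lit 57413) (nat_lit 12) (.e (nat_lit 336056) (nat_lit 7) (.e (nat_lit 319534) (nat_lit 16) (.e (nat_lit 286749) (nat_lit 9) (.e (nat_lit 335997) (nat_lit 1) (.e (nat_lit 57848) (nat_lit 252) (.e (nat_lit 57365) (nat_lit 1) .nil)))))))) (.g (nat_lit 4) .nil .nil)))) (.nd (nat_lit 6) 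
(.lf (nat_lit 185008) (.g (nat_lit 2176) (.e (nat_lit 57854) (nat_lit 252) (.e (nat_lit 57409) (nat_lit 12) (.e (nat_lit 336456) (nat_lit 34) (.e (nat_lit 483379) (nat_lit 23) (.e (nat_lit 336344) (nat_lit 22) (.e (nat_lit 245784) (nat_lit 9) (.e (nat_lit 1171) (nat_lit 87) .nil))))))) (.g (nat_lit 4) .nil .nil))) 
(.lf (nat_lit 185072) (.g (nat_lit 1445) (.e (nat_lit 57854) (nat_lit 252) (.e (nat_lit 57430) (nat_lit 16) (.e (nat_lit 368676) (nat_lit 21) (.e (nat_lit 516174) (nat_lit 14) (.e (nat_lit 466967) (nat_lit 20) .nil))))) .nil))))) (.nd (nat_lit 4) (.nd (nat_lit 5) (.nd (nat_lit 6) 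
(.lf (nat_lit 184968) (.g (nat_lit 874) (.e (nat_lit 57854) (nat_lit 252) (.e (nat_lit 57409) (nat_lit 12) (.e (nat_lit 336375) (nat_lit 27) .nil))) .nil)) 
(.lf (nat_lit 185032) (.g (nat_lit 2665) (.e (nat_lit 57854) (nat_lit 252) (.e (nat_lit 57412) (nat_lit 12) (.e (nat_lit 336061) (nat_lit 7) (.e (nat_lit 319531) (nat_lit 16) (.e (nat_lit 286757) (nat_lit 11) (.e (nat_lit 368662) (nat_lit 18) (.e (nat_lit 5195) (nat_lit 294) (.e (nat_lit 57368) (nat_lit 1) .nil)))))))) (.g (nat_lit 4) .nil .nil)))) (.nd (nat_lit 6) 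
(.lf (nat_lit 185000) (.g (nat_lit 5038) (.e (nat_lit 57854) (nat_lit 252) (.e (nat_lit 57409) (nat_lit 12) (.e (nat_lit 336450) (nat_lit 33) (.e (nat_lit 475212) (nat_lit 42) (.e (nat_lit 720956) (nat_lit 25) (.e (nat_lit 114711) (nat_lit 21) (.e (nat_lit 57847) (nat_lit 252) (.e (nat_lit 57365) (nat_lit 1) .nil)))))))) (.g (nat_lit 0) .nil .nil))) 
(.lf (nat_lit 185064) (.g (nat_lit 748) (.e (nat_lit 57854) (nat_lit 252) (.e (nat_lit 57424) (nat_lit 14) (.e (nat_lit 352277) (nat_lit 11) .nil))) .nil)))) (.nd (nat_lit 5) (.nd (nat_lit 6) 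
(.lf (nat_lit 184984) (.g (nat_lit 2361) (.e (nat_lit 57854) (nat_lit 252) (.e (nat_lit 57409) (nat_lit 12) (.e (nat_lit 336446) (nat_lit 33) (.e (nat_lit 475212) (nat_lit 42) (.e (nat_lit 720955) (nat_lit 25) (.e (nat_lit 114711) (nat_lit 21) (.e (nat_lit 57847) (nat_lit 252) (.e (nat_lit 57365) (nat_lit 1) .nil)))))))) (.g (nat_lit 4) .nil .nil))) 
(.lf (nat_lit 185048) (.g (nat_lit 2134) (.e (nat_lit 57854) (nat_lit 252) (.e (nat_lit 57414) (nat_lit 12) (.e (nat_lit 336054) (nat_lit 7) (.e (nat_lit 319534) (nat_lit 16) (.e (nat_lit 286756) (nat_lit 10) (.e (nat_lit 344097) (nat_lit 18) (.e (nat_lit 5195) (nat_lit 294) (.e (nat_lit 57363) (nat_lit 1) .nil)))))))) (.g (nat_lit 4) .nil .nil)))) (.nd (nat_lit 6) 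
(.lf (nat_lit 185016) (.g (nat_lit 3269) (.e (nat_lit 57854) (nat_lit 252) (.e (nat_lit 57412) (nat_lit 12) (.e (nat_lit 336058) (nat_lit 7) (.e (nat_lit 319533) (nat_lit 16) (.e (nat_lit 286753) (nat_lit 10) (.e (nat_lit 344097) (nat_lit 18) (.e (nat_lit 5195) (nat_lit 294) (.e (nat_lit 57368) (nat_lit 1) .nil)))))))) (.g (nat_lit 5) .nil .nil))) 
(.lf (nat_lit 185080) (.g (nat_lit 1561) (.e (nat_lit 57854) (nat_lit 252) (.e (nat_lit 57431) (nat_lit 16) (.e (nat_lit 368676) (nat_lit 21) (.e (nat_lit 516176) (nat_lit 14) (.e (nat_lit 466967) (nat_lit 20) .nil))))) .nil)))))) (.nd (nat_lit 3) (.nd (nat_lit 4) (.nd (nat_lit 5) (.nd (nat_lit 6) 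
(.lf (nat_lit 184964) (.g (nat_lit 2110) (.e (nat_lit 57854) (nat_lit 252) (.e (nat_lit 57409) (nat_lit 12) (.e (nat_lit 336369) (nat_lit 27) (.e (nat_lit 426501) (nat_lit 27) (.e (nat_lit 336204) (nat_lit 12) .nil))))) .nil)) 
(.lf (nat_lit 185028) (.g (nat_lit 2337) (.e (nat_lit 57854) (nat_lit 252) (.e (nat_lit 57412) (nat_lit 12) (.e (nat_lit 336061) (nat_lit 7) (.e (nat_lit 319531) (nat_lit 16) (.e (nat_lit 286755) (nat_lit 10) .nil))))) .nil))) (.nd (nat_lit 6) 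
(.lf (nat_lit 184996) (.g (nat_lit 4768) (.e (nat_lit 57854) (nat_lit 252) (.e (nat_lit 57409) (nat_lit 12) (.e (nat_lit 336448) (nat_lit 33) (.e (nat_lit 475214) (nat_lit 42) (.e (nat_lit 720956) (nat_lit 25) (.e (nat_lit 114711) (nat_lit 21) (.e (nat_lit 57847) (nat_lit 252) (.e (nat_lit 57365) (nat_lit 1) .nil)))))))) (.g (nat_lit 0) .nil .nil))) 
(.lf (nat_lit 185060) (.g (nat_lit 1379) (.e (nat_lit 57854) (nat_lit 252) (.e (nat_lit 57423) (nat_lit 14) (.e (nat_lit 352277) (nat_lit 11) (.e (nat_lit 426189) (nat_lit 9) .nil)))) .nil)))) (.nd (nat_lit 5) (.nd (nat_lit 6) 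
(.lf (nat_lit 184980) (.g (nat_lit 2881) (.e (nat_lit 57854) (nat_lit 252) (.e (nat_lit 57409) (nat_lit 12) (.e (nat_lit 336445) (nat_lit 33) (.e (nat_lit 475214) (nat_lit 42) (.e (nat_lit 720955) (nat_lit 25) (.e (nat_lit 114711) (nat_lit 21) (.e (nat_lit 57847) (nat_lit 252) (.e (nat_lit 57368) (nat_lit 1) .nil)))))))) (.g (nat_lit 4) .nil .nil))) 
(.lf (nat_lit 185044) (.g (nat_lit 2935) (.e (nat_lit 57854) (nat_lit 252) (.e (nat_lit 57413) (nat_lit 12) (.e (nat_lit 336060) (nat_lit 7) (.e (nat_lit 319534) (nat_lit 16) (.e (nat_lit 286756) (nat_lit 10) (.e (nat_lit 344097) (nat_lit 18) (.e (nat_lit 5194) (nat_lit 294) (.e (nat_lit 57365) (nat_lit 1) .nil)))))))) (.g (nat_lit 5) .nil .nil)))) (.nd (nat_lit 6) 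
(.lf (nat_lit 185012) (.g (nat_lit 1366) (.e (nat_lit 57854) (nat_lit 252) (.e (nat_lit 57409) (nat_lit 12) (.e (nat_lit 336456) (nat_lit 34) (.e (nat_lit 483407) (nat_lit 26) .nil)))) .nil)) 
(.lf (nat_lit 185076) (.g (nat_lit 1371) (.e (nat_lit 57854) (nat_lit 252) (.e (nat_lit 57431) (nat_lit 16) (.e (nat_lit 368676) (nat_lit 21) (.e (nat_lit 516131) (nat_lit 3) (.e (nat_lit 221218) (nat_lit 24) .nil))))) .nil))))) (.nd (nat_lit 4) (.nd (nat_lit 5) (.nd (nat_lit 6) 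
(.lf (nat_lit 184972) (.g (nat_lit 1201) (.e (nat_lit 57854) (nat_lit 252) (.e (nat_lit 57409) (nat_lit 12) (.e (nat_lit 336399) (nat_lit 27) (.e (nat_lit 426523) (nat_lit 27) .nil)))) .nil)) 
(.lf (nat_lit 185036) (.g (nat_lit 1959) (.e (nat_lit 57854) (nat_lit 252) (.e (nat_lit 57413) (nat_lit 12) (.e (nat_lit 336054) (nat_lit 7) (.e (nat_lit 319534) (nat_lit 16) (.e (nat_lit 286749) (nat_lit 9) (.e (nat_lit 335997) (nat_lit 1) (.e (nat_lit 57848) (nat_lit 252) (.e (nat_lit 57365) (nat_lit 1) .nil)))))))) (.g (nat_lit 4) .nil .nil)))) (.nd (nat_lit 6) 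
(.lf (nat_lit 185004) (.g (nat_lit 3309) (.e (nat_lit 57854) (nat_lit 252) (.e (nat_lit 57409) (nat_lit 12) (.e (nat_lit 336454) (nat_lit 34) (.e (nat_lit 483408) (nat_lit 26) (.e (nat_lit 385066) (nat_lit 26) (.e (nat_lit 532499) (nat_lit 1) .nil)))))) (.g (nat_lit 6) .nil .nil))) 
(.lf (nat_lit 185068) (.g (nat_lit 744) (.e (nat_lit 57854) (nat_lit 252) (.e (nat_lit 57427) (nat_lit 15) (.e (nat_lit 360483) (nat_lit 15) .nil))) .nil)))) (.nd (nat_lit 5) (.nd (nat_lit 6) 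
(.lf (nat_lit 184988) (.g (nat_lit 3003) (.e (nat_lit 57854) (nat_lit 252) (.e (nat_lit 57409) (nat_lit 12) (.e (nat_lit 336446) (nat_lit 33) (.e (nat_lit 475214) (nat_lit 42) (.e (nat_lit 720955) (nat_lit 25) (.e (nat_lit 114711) (nat_lit 21) (.e (nat_lit 57847) (nat_lit 252) (.e (nat_lit 57368) (nat_lit 1) .nil)))))))) (.g (nat_lit 4) .nil .nil))) 
(.lf (nat_lit 185052) (.g (nat_lit 2467) (.e (nat_lit 57854) (nat_lit 252) (.e (nat_lit 57414) (nat_lit 12) (.e (nat_lit 336056) (nat_lit 7) (.e (nat_lit 319534) (nat_lit 16) (.e (nat_lit 286756) (nat_lit 10) (.e (nat_lit 344097) (nat_lit 18) (.e (nat_lit 5195) (nat_lit 294) (.e (nat_lit 57363) (nat_lit 1) .nil)))))))) (.g (nat_lit 4) .nil .nil)))) (.nd (nat_lit 6) 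
(.lf (nat_lit 185020) (.g (nat_lit 3152) (.e (nat_lit 57854) (nat_lit 252) (.e (nat_lit 57412) (nat_lit 12) (.e (nat_lit 336060) (nat_lit 7) (.e (nat_lit 319534) (nat_lit 16) (.e (nat_lit 286756) (nat_lit 10) (.e (nat_lit 344097) (nat_lit 18) (.e (nat_lit 5195) (nat_lit 294) (.e (nat_lit 57365) (nat_lit 1) .nil)))))))) (.g (nat_lit 5) .nil .nil))) 
(.lf (nat_lit 185084) (.g (nat_lit 1880) (.e (nat_lit 57854) (nat_lit 252) (.e (nat_lit 57435) (nat_lit 17) (.e (nat_lit 376842) (nat_lit 11) (.e (nat_lit 426188) (nat_lit 9) (.e (nat_lit 426444) (nat_lit 19) .nil))))) .nil))))))) (.nd (nat_lit 2) (.nd (nat_lit 3) (.nd (nat_lit 4) (.nd (nat_lit 5) (.nd (nat_lit 6) 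
(.lf (nat_lit 184962) (.g (nat_lit 4022) (.e (nat_lit 57854) (nat_lit 252) (.e (nat_lit 57409) (nat_lit 12) (.e (nat_lit 336369) (nat_lit 27) (.e (nat_lit 426501) (nat_lit 27) (.e (nat_lit 336194) (nat_lit 12) (.e (nat_lit 385066) (nat_lit 26) (.e (nat_lit 532502) (nat_lit 1) .nil))))))) (.g (nat_lit 5) .nil .nil))) 
(.lf (nat_lit 185026) (.g (nat_lit 2299) (.e (nat_lit 57854) (nat_lit 252) (.e (nat_lit 57412) (nat_lit 12) (.e (nat_lit 336061) (nat_lit 7) (.e (nat_lit 319531) (nat_lit 16) (.e (nat_lit 286751) (nat_lit 10) (.e (nat_lit 344097) (nat_lit 18) (.e (nat_lit 5195) (nat_lit 294) (.e (nat_lit 57365) (nat_lit 1) .nil)))))))) (.g (nat_lit 4) .nil .nil)))) (.nd (nat_lit 6) 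
(.lf (nat_lit 184994) (.g (nat_lit 2612) (.e (nat_lit 57854) (nat_lit 252) (.e (nat_lit 57409) (nat_lit 12) (.e (nat_lit 336448) (nat_lit 33) (.e (nat_lit 475214) (nat_lit 42) (.e (nat_lit 720955) (nat_lit 25) (.e (nat_lit 114711) (nat_lit 21) (.e (nat_lit 57847) (nat_lit 252) (.e (nat_lit 57368) (nat_lit 1) .nil)))))))) (.g (nat_lit 4) .nil .nil))) 
(.lf (nat_lit 185058) (.g (nat_lit 708) (.e (nat_lit 57854) (nat_lit 252) (.e (nat_lit 57423) (nat_lit 14) (.e (nat_lit 352276) (nat_lit 11) .nil))) .nil)))) (.nd (nat_lit 5) (.nd (nat_lit 6) 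
(.lf (nat_lit 184978) (.g (nat_lit 4271) (.e (nat_lit 57854) (nat_lit 252) (.e (nat_lit 57409) (nat_lit 12) (.e (nat_lit 336414) (nat_lit 27) (.e (nat_lit 426503) (nat_lit 27) (.e (nat_lit 336196) (nat_lit 12) (.e (nat_lit 385066) (nat_lit 26) (.e (nat_lit 532502) (nat_lit 1) .nil))))))) (.g (nat_lit 5) .nil .nil))) 
(.lf (nat_lit 185042) (.g (nat_lit 3351) (.e (nat_lit 57854) (nat_lit 252) (.e (nat_lit 57413) (nat_lit 12) (.e (nat_lit 336056) (nat_lit 7) (.e (nat_lit 319534) (nat_lit 16) (.e (nat_lit 286756) (nat_lit 10) (.e (nat_lit 344097) (nat_lit 18) (.e (nat_lit 5194) (nat_lit 294) (.e (nat_lit 57368) (nat_lit 1) .nil)))))))) (.g (nat_lit 5) .nil .nil)))) (.nd (nat_lit 6) 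
(.lf (nat_lit 185010) (.g (nat_lit 933) (.e (nat_lit 57854) (nat_lit 252) (.e (nat_lit 57409) (nat_lit 12) (.e (nat_lit 336456) (nat_lit 34) (.e (nat_lit 483402) (nat_lit 26) .nil)))) .nil)) 
(.lf (nat_lit 185074) (.g (nat_lit 2155) (.e (nat_lit 57854) (nat_lit 252) (.e (nat_lit 57430) (nat_lit 16) (.e (nat_lit 368676) (nat_lit 21) (.e (nat_lit 516176) (nat_lit 14) (.e (nat_lit 466967) (nat_lit 20) (.e (nat_lit 2416) (nat_lit 157) (.e (nat_lit 4002) (nat_lit 241) (.e (nat_lit 57368) (nat_lit 1) .nil)))))))) (.g (nat_lit 4) .nil .nil)))))) 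
(.nd (nat_lit 4) (.nd (nat_lit 5) (.nd (nat_lit 6) 
(.lf (nat_lit 184970) (.g (nat_lit 948) (.e (nat_lit 57854) (nat_lit 252) (.e (nat_lit 57409) (nat_lit 12) (.e (nat_lit 336383) (nat_lit 27) .nil))) .nil)) 
(.lf (nat_lit 185034) (.g (nat_lit 3998) (.e (nat_lit 57854) (nat_lit 252) (.e (nat_lit 57412) (nat_lit 12) (.e (nat_lit 336061) (nat_lit 7) (.e (nat_lit 319533) (nat_lit 16) (.e (nat_lit 286753) (nat_lit 10) (.e (nat_lit 344097) (nat_lit 18) (.e (nat_lit 5195) (nat_lit 294) (.e (nat_lit 57368) (nat_lit 1) .nil)))))))) (.g (nat_lit 5) .nil .nil)))) (.nd (nat_lit 6) 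
(.lf (nat_lit 185002) (.g (nat_lit 1121) (.e (nat_lit 57854) (nat_lit 252) (.e (nat_lit 57409) (nat_lit 12) (.e (nat_lit 336454) (nat_lit 34) (.e (nat_lit 483402) (nat_lit 26) .nil)))) .nil)) 
(.lf (nat_lit 185066) (.g (nat_lit 1931) (.e (nat_lit 57854) (nat_lit 252) (.e (nat_lit 57427) (nat_lit 15) (.e (nat_lit 360451) (nat_lit 0) (.e (nat_lit 6923) (nat_lit 371) .nil)))) .nil)))) (.nd (nat_lit 5) (.nd (nat_lit 6) 
(.lf (nat_lit 184986) (.g (nat_lit 2292) (.e (nat_lit 57854) (nat_lit 252) (.e (nat_lit 57409) (nat_lit 12) (.e (nat_lit 336446) (nat_lit 33) (.e (nat_lit 475214) (nat_lit 42) (.e (nat_lit 720954) (nat_lit 25) .nil))))) .nil)) 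
(.lf (nat_lit 185050) (.g (nat_lit 2829) (.e (nat_lit 57854) (nat_lit 252) (.e (nat_lit 57414) (nat_lit 12) (.e (nat_lit 336056) (nat_lit 7) (.e (nat_lit 319533) (nat_lit 16) (.e (nat_lit 286753) (nat_lit 10) (.e (nat_lit 344097) (nat_lit 18) (.e (nat_lit 5195) (nat_lit 294) (.e (nat_lit 57365) (nat_lit 1) .nil)))))))) (.g (nat_lit 5) .nil .nil)))) (.nd (nat_lit 6) 
(.lf (nat_lit 185018) (.g (nat_lit 2408) (.e (nat_lit 57854) (nat_lit 252) (.e (nat_lit 57412) (nat_lit 12) (.e (nat_lit 336060) (nat_lit 7) (.e (nat_lit 319533) (nat_lit 16) (.e (nat_lit 286753) (nat_lit 10) (.e (nat_lit 344097) (nat_lit 18) (.e (nat_lit 5194) (nat_lit 294) (.e (nat_lit 57365) (nat_lit 1) .nil)))))))) (.g (nat_lit 4) .nil .nil))) 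
(.lf (nat_lit 185082) (.g (nat_lit 242) (.e (nat_lit 57854) (nat_lit 252) (.e (nat_lit 57435) (nat_lit 17) (.e (nat_lit 376842) (nat_lit 11) .nil))) .nil)))))) (.nd (nat_lit 3) (.nd (nat_lit 4) (.nd (nat_lit 5) (.nd (nat_lit 6) 
(.lf (nat_lit 184966) (.g (nat_lit 4017) (.e (nat_lit 57854) (nat_lit 252) (.e (nat_lit 57409) (nat_lit 12) (.e (nat_lit 336370) (nat_lit 27) (.e (nat_lit 426499) (nat_lit 27) (.e (nat_lit 336196) (nat_lit 12) (.e (nat_lit 385066) (nat_lit 26) (.e (nat_lit 532502) (nat_lit 1) .nil))))))) (.g (nat_lit 5) .nil .nil))) 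
(.lf (nat_lit 185030) (.g (nat_lit 2705) (.e (nat_lit 57854) (nat_lit 252) (.e (nat_lit 57412) (nat_lit 12) (.e (nat_lit 336061) (nat_lit 7) (.e (nat_lit 319531) (nat_lit 16) (.e (nat_lit 286756) (nat_lit 10) (.e (nat_lit 344097) (nat_lit 18) (.e (nat_lit 5195) (nat_lit 294) (.e (nat_lit 57365) (nat_lit 1) .nil)))))))) (.g (nat_lit 4) .nil .nil)))) (.nd (nat_lit 6) 
(.lf (nat_lit 184998) (.g (nat_lit 1554) (.e (nat_lit 57854) (nat_lit 252) (.e (nat_lit 57409) (nat_lit 12) (.e (nat_lit 336450) (nat_lit 33) (.e (nat_lit 475212) (nat_lit 42) .nil)))) .nil)) 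
(.lf (nat_lit 185062) (.g (nat_lit 2624) (.e (nat_lit 57854) (nat_lit 252) (.e (nat_lit 57423) (nat_lit 14) (.e (nat_lit 352277) (nat_lit 11) (.e (nat_lit 426308) (nat_lit 12) (.e (nat_lit 475214) (nat_lit 42) (.e (nat_lit 720930) (nat_lit 21) .nil)))))) (.g (nat_lit 4) .nil .nil))))) (.nd (nat_lit 5) (.nd (nat_lit 6) 
(.lf (nat_lit 184982) (.g (nat_lit 4811) (.e (nat_lit 57854) (nat_lit 252) (.e (nat_lit 57409) (nat_lit 12) (.e (nat_lit 336445) (nat_lit 33) (.e (nat_lit 475214) (nat_lit 42) (.e (nat_lit 720956) (nat_lit 25) (.e (nat_lit 114711) (nat_lit 21) (.e (nat_lit 57847) (nat_lit 252) (.e (nat_lit 57365) (nat_lit 1) .nil)))))))) (.g (nat_lit 0) .nil .nil))) 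
(.lf (nat_lit 185046) (.g (nat_lit 3466) (.e (nat_lit 57854) (nat_lit 252) (.e (nat_lit 57413) (nat_lit 12) (.e (nat_lit 336060) (nat_lit 7) (.e (nat_lit 319534) (nat_lit 16) (.e (nat_lit 286756) (nat_lit 10) (.e (nat_lit 344097) (nat_lit 18) (.e (nat_lit 5195) (nat_lit 294) (.e (nat_lit 57365) (nat_lit 1) .nil)))))))) (.g (nat_lit 6) .nil .nil)))) (.nd (nat_lit 6) 
(.lf (nat_lit 185014) (.g (nat_lit 2623) (.e (nat_lit 57854) (nat_lit 252) (.e (nat_lit 57412) (nat_lit 12) (.e (nat_lit 336054) (nat_lit 7) (.e (nat_lit 319534) (nat_lit 16) (.e (nat_lit 286756) (nat_lit 10) (.e (nat_lit 344097) (nat_lit 18) (.e (nat_lit 5194) (nat_lit 294) (.e (nat_lit 57368) (nat_lit 1) .nil)))))))) (.g (nat_lit 4) .nil .nil))) 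
(.lf (nat_lit 185078) (.g (nat_lit 1388) (.e (nat_lit 57854) (nat_lit 252) (.e (nat_lit 57431) (nat_lit 16) (.e (nat_lit 368676) (nat_lit 21) (.e (nat_lit 516174) (nat_lit 14) (.e (nat_lit 474880) (nat_lit 3) (.e (nat_lit 106240) (nat_lit 1) .nil)))))) (.g (nat_lit 4) .nil .nil)))))) (.nd (nat_lit 4) (.nd (nat_lit 5) (.nd (nat_lit 6) 
(.lf (nat_lit 184974) (.g (nat_lit 750) (.e (nat_lit 57854) (nat_lit 252) (.e (nat_lit 57409) (nat_lit 12) (.e (nat_lit 336414) (nat_lit 27) .nil))) .nil)) 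
(.lf (nat_lit 185038) (.g (nat_lit 3251) (.e (nat_lit 57854) (nat_lit 252) (.e (nat_lit 57413) (nat_lit 12) (.e (nat_lit 336055) (nat_lit 7) (.e (nat_lit 319534) (nat_lit 16) (.e (nat_lit 286756) (nat_lit 10) (.e (nat_lit 344097) (nat_lit 18) (.e (nat_lit 5195) (nat_lit 294) (.e (nat_lit 57368) (nat_lit 1) .nil)))))))) (.g (nat_lit 5) .nil .nil)))) (.nd (nat_lit 6) 
(.lf (nat_lit 185006) (.g (nat_lit 260) (.e (nat_lit 57854) (nat_lit 252) (.e (nat_lit 57409) (nat_lit 12) (.e (nat_lit 336456) (nat_lit 34) .nil))) .nil)) 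
(.lf (nat_lit 185070) (.g (nat_lit 682) (.e (nat_lit 57854) (nat_lit 252) (.e (nat_lit 57427) (nat_lit 15) (.e (nat_lit 360484) (nat_lit 15) .nil))) .nil)))) (.nd (nat_lit 5) (.nd (nat_lit 6) 
(.lf (nat_lit 184990) (.g (nat_lit 4557) (.e (nat_lit 57854) (nat_lit 252) (.e (nat_lit 57409) (nat_lit 12) (.e (nat_lit 336446) (nat_lit 33) (.e (nat_lit 475214) (nat_lit 42) (.e (nat_lit 720956) (nat_lit 25) (.e (nat_lit 114711) (nat_lit 21) (.e (nat_lit 57847) (nat_lit 252) (.e (nat_lit 57365) (nat_lit 1) .nil)))))))) (.g (nat_lit 0) .nil .nil))) 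
(.lf (nat_lit 185054) (.g (nat_lit 2535) (.e (nat_lit 57854) (nat_lit 252) (.e (nat_lit 57414) (nat_lit 12) (.e (nat_lit 336060) (nat_lit 7) (.e (nat_lit 319533) (nat_lit 16) (.e (nat_lit 286753) (nat_lit 10) (.e (nat_lit 344097) (nat_lit 18) (.e (nat_lit 5194) (nat_lit 294) (.e (nat_lit 57365) (nat_lit 1) .nil)))))))) (.g (nat_lit 5) .nil .nil)))) (.nd (nat_lit 6) 
(.lf (nat_lit 185022) (.g (nat_lit 2924) (.e (nat_lit 57854) (nat_lit 252) (.e (nat_lit 57412) (nat_lit 12) (.e (nat_lit 336061) (nat_lit 7) (.e (nat_lit 319531) (nat_lit 16) (.e (nat_lit 286747) (nat_lit 9) (.e (nat_lit 335997) (nat_lit 1) (.e (nat_lit 57848) (nat_lit 252) (.e (nat_lit 57368) (nat_lit 1) .nil)))))))) (.g (nat_lit 4) .nil .nil))) 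
(.lf (nat_lit 185086) (.g (nat_lit 3400) (.e (nat_lit 57854) (nat_lit 252) (.e (nat_lit 57435) (nat_lit 17) (.e (nat_lit 376842) (nat_lit 11) (.e (nat_lit 426188) (nat_lit 9) (.e (nat_lit 426444) (nat_lit 19) (.e (nat_lit 106520) (nat_lit 9) (.e (nat_lit 1172) (nat_lit 87) .nil))))))) (.g (nat_lit 5) .nil .nil))))))))) 
(.nd (nat_lit 1) (.nd (nat_lit 2) (.nd (nat_lit 3) (.nd (nat_lit 4) (.nd (nat_lit 5) 
(.nd (nat_lit 6) 
(.lf (nat_lit 184961) (.g (nat_lit 2916) (.e (nat_lit 57854) (nat_lit 252) (.e (nat_lit 57409) (nat_lit 12) (.e (nat_lit 336369) (nat_lit 27) (.e (nat_lit 426501) (nat_lit 27) (.e (nat_lit 336194) (nat_lit 12) (.e (nat_lit 385066) (nat_lit 26) (.e (nat_lit 532499) (nat_lit 1) .nil))))))) (.g (nat_lit 4) .nil .nil))) 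
(.lf (nat_lit 185025) (.g (nat_lit 2995) (.e (nat_lit 57854) (nat_lit 252) (.e (nat_lit 57412) (nat_lit 12) (.e (nat_lit 336061) (nat_lit 7) (.e (nat_lit 319531) (nat_lit 16) (.e (nat_lit 286751) (nat_lit 10) (.e (nat_lit 344097) (nat_lit 18) (.e (nat_lit 5194) (nat_lit 294) (.e (nat_lit 57368) (nat_lit 1) .nil)))))))) (.g (nat_lit 4) .nil .nil)))) (.nd (nat_lit 6) 
(.lf (nat_lit 184993) (.g (nat_lit 3116) (.e (nat_lit 57854) (nat_lit 252) (.e (nat_lit 57409) (nat_lit 12) (.e (nat_lit 336448) (nat_lit 33) (.e (nat_lit 475214) (nat_lit 42) (.e (nat_lit 720955) (nat_lit 25) (.e (nat_lit 114711) (nat_lit 21) (.e (nat_lit 57847) (nat_lit 252) (.e (nat_lit 57365) (nat_lit 1) .nil)))))))) (.g (nat_lit 4) .nil .nil))) 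
(.lf (nat_lit 185057) (.g (nat_lit 746) (.e (nat_lit 57854) (nat_lit 252) (.e (nat_lit 57423) (nat_lit 14) (.e (nat_lit 352273) (nat_lit 11) .nil))) .nil)))) (.nd (nat_lit 5) (.nd (nat_lit 6) 
(.lf (nat_lit 184977) (.g (nat_lit 3381) (.e (nat_lit 57854) (nat_lit 252) (.e (nat_lit 57409) (nat_lit 12) (.e (nat_lit 336414) (nat_lit 27) (.e (nat_lit 426503) (nat_lit 27) (.e (nat_lit 336194) (nat_lit 12) (.e (nat_lit 385066) (nat_lit 26) (.e (nat_lit 532502) (nat_lit 1) .nil))))))) (.g (nat_lit 4) .nil .nil))) 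
(.lf (nat_lit 185041) (.g (nat_lit 2523) (.e (nat_lit 57854) (nat_lit 252) (.e (nat_lit 57413) (nat_lit 12) (.e (nat_lit 336056) (nat_lit 7) (.e (nat_lit 319534) (nat_lit 16) (.e (nat_lit 286756) (nat_lit 10) (.e (nat_lit 344097) (nat_lit 18) (.e (nat_lit 5194) (nat_lit 294) (.e (nat_lit 57365) (nat_lit 1) .nil)))))))) (.g (nat_lit 4) .nil .nil)))) (.nd (nat_lit 6) 
(.lf (nat_lit 185009) (.g (nat_lit 1355) (.e (nat_lit 57854) (nat_lit 252) (.e (nat_lit 57409) (nat_lit 12) (.e (nat_lit 336456) (nat_lit 34) (.e (nat_lit 483384) (nat_lit 23) .nil)))) .nil)) 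
(.lf (nat_lit 185073) (.g (nat_lit 1546) (.e (nat_lit 57854) (nat_lit 252) (.e (nat_lit 57430) (nat_lit 16) (.e (nat_lit 368676) (nat_lit 21) (.e (nat_lit 516176) (nat_lit 14) (.e (nat_lit 474880) (nat_lit 3) (.e (nat_lit 106240) (nat_lit 1) .nil)))))) (.g (nat_lit 4) .nil .nil)))))) (.nd (nat_lit 4) (.nd (nat_lit 5) (.nd (nat_lit 6) 
(.lf (nat_lit 184969) (.g (nat_lit 880) (.e (nat_lit 57854) (nat_lit 252) (.e (nat_lit 57409) (nat_lit 12) (.e (nat_lit 336379) (nat_lit 27) .nil))) .nil)) 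
(.lf (nat_lit 185033) (.g (nat_lit 2708) (.e (nat_lit 57854) (nat_lit 252) (.e (nat_lit 57412) (nat_lit 12) (.e (nat_lit 336061) (nat_lit 7) (.e (nat_lit 319533) (nat_lit 16) (.e (nat_lit 286753) (nat_lit 10) (.e (nat_lit 344097) (nat_lit 18) (.e (nat_lit 5195) (nat_lit 294) (.e (nat_lit 57365) (nat_lit 1) .nil)))))))) (.g (nat_lit 4) .nil .nil)))) (.nd (nat_lit 6) 
(.lf (nat_lit 185001) (.g (nat_lit 1577) (.e (nat_lit 57854) (nat_lit 252) (.e (nat_lit 57409) (nat_lit 12) (.e (nat_lit 336454) (nat_lit 34) (.e (nat_lit 483381) (nat_lit 23) .nil)))) .nil)) 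
(.lf (nat_lit 185065) (.g (nat_lit 1381) (.e (nat_lit 57854) (nat_lit 252) (.e (nat_lit 57424) (nat_lit 14) (.e (nat_lit 352277) (nat_lit 11) (.e (nat_lit 426190) (nat_lit 9) .nil)))) .nil)))) (.nd (nat_lit 5) (.nd (nat_lit 6) 
(.lf (nat_lit 184985) (.g (nat_lit 4374) (.e (nat_lit 57854) (nat_lit 252) (.e (nat_lit 57409) (nat_lit 12) (.e (nat_lit 336446) (nat_lit 33) (.e (nat_lit 475212) (nat_lit 42) (.e (nat_lit 720956) (nat_lit 25) (.e (nat_lit 114711) (nat_lit 21) (.e (nat_lit 57847) (nat_lit 252) (.e (nat_lit 57365) (nat_lit 1) .nil)))))))) (.g (nat_lit 0) .nil .nil))) 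
(.lf (nat_lit 185049) (.g (nat_lit 2010) (.e (nat_lit 57854) (nat_lit 252) (.e (nat_lit 57414) (nat_lit 12) (.e (nat_lit 336056) (nat_lit 7) (.e (nat_lit 319533) (nat_lit 16) (.e (nat_lit 286753) (nat_lit 10) (.e (nat_lit 344097) (nat_lit 18) (.e (nat_lit 5195) (nat_lit 294) (.e (nat_lit 57363) (nat_lit 1) .nil)))))))) (.g (nat_lit 4) .nil .nil)))) (.nd (nat_lit 6) 
(.lf (nat_lit 185017) (.g (nat_lit 2581) (.e (nat_lit 57854) (nat_lit 252) (.e (nat_lit 57412) (nat_lit 12) (.e (nat_lit 336058) (nat_lit 7) (.e (nat_lit 319534) (nat_lit 16) (.e (nat_lit 286756) (nat_lit 10) (.e (nat_lit 344097) (nat_lit 18) (.e (nat_lit 5195) (nat_lit 294) (.e (nat_lit 57365) (nat_lit 1) .nil)))))))) (.g (nat_lit 4) .nil .nil))) 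
(.lf (nat_lit 185081) (.g (nat_lit 2156) (.e (nat_lit 57854) (nat_lit 252) (.e (nat_lit 57431) (nat_lit 16) (.e (nat_lit 368676) (nat_lit 21) (.e (nat_lit 516176) (nat_lit 14) (.e (nat_lit 466967) (nat_lit 20) (.e (nat_lit 3266) (nat_lit 199) (.e (nat_lit 548878) (nat_lit 5) (.e (nat_lit 1182) (nat_lit 87) .nil)))))))) (.g (nat_lit 4) .nil .nil))))))) 
(.nd (nat_lit 3) (.nd (nat_lit 4) (.nd (nat_lit 5) (.nd (nat_lit 6) 
(.lf (nat_lit 184965) (.g (nat_lit 1631) (.e (nat_lit 57854) (nat_lit 252) (.e (nat_lit 57409) (nat_lit 12) (.e (nat_lit 336369) (nat_lit 27) (.e (nat_lit 426528) (nat_lit 27) .nil)))) .nil)) 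
(.lf (nat_lit 185029) (.g (nat_lit 2884) (.e (nat_lit 57854) (nat_lit 252) (.e (nat_lit 57412) (nat_lit 12) (.e (nat_lit 336061) (nat_lit 7) (.e (nat_lit 319531) (nat_lit 16) (.e (nat_lit 286755) (nat_lit 10) (.e (nat_lit 344097) (nat_lit 18) (.e (nat_lit 5195) (nat_lit 294) (.e (nat_lit 57368) (nat_lit 1) .nil)))))))) (.g (nat_lit 4) .nil .nil)))) (.nd (nat_lit 6) 
(.lf (nat_lit 184997) (.g (nat_lit 755) (.e (nat_lit 57854) (nat_lit 252) (.e (nat_lit 57409) (nat_lit 12) (.e (nat_lit 336450) (nat_lit 33) .nil))) .nil)) 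
(.lf (nat_lit 185061) (.g (nat_lit 1387) (.e (nat_lit 57854) (nat_lit 252) (.e (nat_lit 57423) (nat_lit 14) (.e (nat_lit 352277) (nat_lit 11) (.e (nat_lit 426307) (nat_lit 12) .nil)))) .nil)))) (.nd (nat_lit 5) (.nd (nat_lit 6) 
(.lf (nat_lit 184981) (.g (nat_lit 2057) (.e (nat_lit 57854) (nat_lit 252) (.e (nat_lit 57409) (nat_lit 12) (.e (nat_lit 336445) (nat_lit 33) (.e (nat_lit 475214) (nat_lit 42) (.e (nat_lit 720956) (nat_lit 25) .nil))))) .nil)) 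
(.lf (nat_lit 185045) (.g (nat_lit 2145) (.e (nat_lit 57854) (nat_lit 252) (.e (nat_lit 57413) (nat_lit 12) (.e (nat_lit 336060) (nat_lit 7) (.e (nat_lit 319534) (nat_lit 16) (.e (nat_lit 286756) (nat_lit 10) (.e (nat_lit 344097) (nat_lit 18) (.e (nat_lit 5195) (nat_lit 294) (.e (nat_lit 57363) (nat_lit 1) .nil)))))))) (.g (nat_lit 4) .nil .nil)))) (.nd (nat_lit 6) 
(.lf (nat_lit 185013) (.g (nat_lit 2709) (.e (nat_lit 57854) (nat_lit 252) (.e (nat_lit 57412) (nat_lit 12) (.e (nat_lit 336054) (nat_lit 7) (.e (nat_lit 319534) (nat_lit 16) (.e (nat_lit 286749) (nat_lit 9) (.e (nat_lit 335997) (nat_lit 1) (.e (nat_lit 57848) (nat_lit 252) (.e (nat_lit 57368) (nat_lit 1) .nil)))))))) (.g (nat_lit 4) .nil .nil))) 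
(.lf (nat_lit 185077) (.g (nat_lit 1374) (.e (nat_lit 57854) (nat_lit 252) (.e (nat_lit 57431) (nat_lit 16) (.e (nat_lit 368676) (nat_lit 21) (.e (nat_lit 516171) (nat_lit 13) (.e (nat_lit 458761) (nat_lit 13) .nil))))) .nil))))) (.nd (nat_lit 4) (.nd (nat_lit 5) (.nd (nat_lit 6) 
(.lf (nat_lit 184973) (.g (nat_lit 948) (.e (nat_lit 57854) (nat_lit 252) (.e (nat_lit 57409) (nat_lit 12) (.e (nat_lit 336400) (nat_lit 27) .nil))) .nil)) 
(.lf (nat_lit 185037) (.g (nat_lit 2375) (.e (nat_lit 57854) (nat_lit 252) (.e (nat_lit 57413) (nat_lit 12) (.e (nat_lit 336055) (nat_lit 7) (.e (nat_lit 319534) (nat_lit 16) (.e (nat_lit 286756) (nat_lit 10) (.e (nat_lit 344097) (nat_lit 18) (.e (nat_lit 5195) (nat_lit 294) (.e (nat_lit 57365) (nat_lit 1) .nil)))))))) (.g (nat_lit 4) .nil .nil)))) (.nd (nat_lit 6) 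
(.lf (nat_lit 185005) (.g (nat_lit 2627) (.e (nat_lit 57854) (nat_lit 252) (.e (nat_lit 57409) (nat_lit 12) (.e (nat_lit 336455) (nat_lit 34) (.e (nat_lit 483403) (nat_lit 26) (.e (nat_lit 385066) (nat_lit 26) (.e (nat_lit 532502) (nat_lit 1) .nil)))))) (.g (nat_lit 4) .nil .nil))) 
(.lf (nat_lit 185069) (.g (nat_lit 1051) (.e (nat_lit 57854) (nat_lit 252) (.e (nat_lit 57427) (nat_lit 15) (.e (nat_lit 360483) (nat_lit 15) (.e (nat_lit 647179) (nat_lit 2) .nil)))) .nil)))) (.nd (nat_lit 5) (.nd (nat_lit 6) 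
(.lf (nat_lit 184989) (.g (nat_lit 1895) (.e (nat_lit 57854) (nat_lit 252) (.e (nat_lit 57409) (nat_lit 12) (.e (nat_lit 336446) (nat_lit 33) (.e (nat_lit 475214) (nat_lit 42) (.e (nat_lit 720956) (nat_lit 25) .nil))))) .nil)) 
(.lf (nat_lit 185053) (.g (nat_lit 3048) (.e (nat_lit 57854) (nat_lit 252) (.e (nat_lit 57414) (nat_lit 12) (.e (nat_lit 336058) (nat_lit 7) (.e (nat_lit 319534) (nat_lit 16) (.e (nat_lit 286756) (nat_lit 10) (.e (nat_lit 344097) (nat_lit 18) (.e (nat_lit 5195) (nat_lit 294) (.e (nat_lit 57368) (nat_lit 1) .nil)))))))) (.g (nat_lit 5) .nil .nil)))) (.nd (nat_lit 6) 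
(.lf (nat_lit 185021) (.g (nat_lit 2912) (.e (nat_lit 57854) (nat_lit 252) (.e (nat_lit 57412) (nat_lit 12) (.e (nat_lit 336061) (nat_lit 7) (.e (nat_lit 319531) (nat_lit 16) (.e (nat_lit 286742) (nat_lit 9) (.e (nat_lit 335997) (nat_lit 1) (.e (nat_lit 57848) (nat_lit 252) (.e (nat_lit 57368) (nat_lit 1) .nil)))))))) (.g (nat_lit 4) .nil .nil))) 
(.lf (nat_lit 185085) (.g (nat_lit 2513) (.e (nat_lit 57854) (nat_lit 252) (.e (nat_lit 57435) (nat_lit 17) (.e (nat_lit 376842) (nat_lit 11) (.e (nat_lit 426188) (nat_lit 9) (.e (nat_lit 426444) (nat_lit 19) (.e (nat_lit 106504) (nat_lit 9) (.e (nat_lit 1178) (nat_lit 87) .nil))))))) (.g (nat_lit 4) .nil .nil)))))))) 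
(.nd (nat_lit 2) (.nd (nat_lit 3) (.nd (nat_lit 4) (.nd (nat_lit 5) (.nd (nat_lit 6) 
(.lf (nat_lit 184963) (.g (nat_lit 2877) (.e (nat_lit 57854) (nat_lit 252) (.e (nat_lit 57409) (nat_lit 12) (.e (nat_lit 336369) (nat_lit 27) (.e (nat_lit 426501) (nat_lit 27) (.e (nat_lit 336201) (nat_lit 12) (.e (nat_lit 385068) (nat_lit 26) (.e (nat_lit 532501) (nat_lit 1) .nil))))))) (.g (nat_lit 4) .nil .nil))) 
(.lf (nat_lit 185027) (.g (nat_lit 2716) (.e (nat_lit 57854) (nat_lit 252) (.e (nat_lit 57412) (nat_lit 12) (.e (nat_lit 336061) (nat_lit 7) (.e (nat_lit 319531) (nat_lit 16) (.e (nat_lit 286753) (nat_lit 10) (.e (nat_lit 344097) (nat_lit 18) (.e (nat_lit 5195) (nat_lit 294) (.e (nat_lit 57368) (nat_lit 1) .nil)))))))) (.g (nat_lit 4) .nil .nil)))) (.nd (nat_lit 6) 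
(.lf (nat_lit 184995) (.g (nat_lit 2027) (.e (nat_lit 57854) (nat_lit 252) (.e (nat_lit 57409) (nat_lit 12) (.e (nat_lit 336448) (nat_lit 33) (.e (nat_lit 475214) (nat_lit 42) (.e (nat_lit 720956) (nat_lit 25) .nil))))) .nil)) 
(.lf (nat_lit 185059) (.g (nat_lit 721) (.e (nat_lit 57854) (nat_lit 252) (.e (nat_lit 57423) (nat_lit 14) (.e (nat_lit 352277) (nat_lit 11) .nil))) .nil)))) (.nd (nat_lit 5) (.nd (nat_lit 6) 
(.lf (nat_lit 184979) (.g (nat_lit 3591) (.e (nat_lit 57854) (nat_lit 252) (.e (nat_lit 57409) (nat_lit 12) (.e (nat_lit 336414) (nat_lit 27) (.e (nat_lit 426503) (nat_lit 27) (.e (nat_lit 336196) (nat_lit 12) (.e (nat_lit 385068) (nat_lit 26) (.e (nat_lit 532501) (nat_lit 1) .nil))))))) (.g (nat_lit 5) .nil .nil))) 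
(.lf (nat_lit 185043) (.g (nat_lit 3076) (.e (nat_lit 57854) (nat_lit 252) (.e (nat_lit 57413) (nat_lit 12) (.e (nat_lit 336060) (nat_lit 7) (.e (nat_lit 319533) (nat_lit 16) (.e (nat_lit 286753) (nat_lit 10) (.e (nat_lit 344097) (nat_lit 18) (.e (nat_lit 5195) (nat_lit 294) (.e (nat_lit 57365) (nat_lit 1) .nil)))))))) (.g (nat_lit 6) .nil .nil)))) (.nd (nat_lit 6) 
(.lf (nat_lit 185011) (.g (nat_lit 3194) (.e (nat_lit 57854) (nat_lit 252) (.e (nat_lit 57409) (nat_lit 12) (.e (nat_lit 336456) (nat_lit 34) (.e (nat_lit 483405) (nat_lit 26) (.e (nat_lit 385068) (nat_lit 26) (.e (nat_lit 532501) (nat_lit 1) .nil)))))) (.g (nat_lit 6) .nil .nil))) 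
(.lf (nat_lit 185075) (.g (nat_lit 2821) (.e (nat_lit 57854) (nat_lit 252) (.e (nat_lit 57430) (nat_lit 16) (.e (nat_lit 368676) (nat_lit 21) (.e (nat_lit 516176) (nat_lit 14) (.e (nat_lit 466972) (nat_lit 21) (.e (nat_lit 171776) (nat_lit 136) (.e (nat_lit 57368) (nat_lit 1) .nil))))))) (.g (nat_lit 4) .nil .nil)))))) (.nd (nat_lit 4) (.nd (nat_lit 5) (.nd (nat_lit 6) 
(.lf (nat_lit 184971) (.g (nat_lit 1094) (.e (nat_lit 57854) (nat_lit 252) (.e (nat_lit 57409) (nat_lit 12) (.e (nat_lit 336395) (nat_lit 27) (.e (nat_lit 426528) (nat_lit 27) .nil)))) .nil)) 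
(.lf (nat_lit 185035) (.g (nat_lit 3000) (.e (nat_lit 57854) (nat_lit 252) (.e (nat_lit 57412) (nat_lit 12) (.e (nat_lit 336061) (nat_lit 7) (.e (nat_lit 319534) (nat_lit 16) (.e (nat_lit 286756) (nat_lit 10) (.e (nat_lit 344097) (nat_lit 18) (.e (nat_lit 5195) (nat_lit 294) (.e (nat_lit 57365) (nat_lit 1) .nil)))))))) (.g (nat_lit 4) .nil .nil)))) (.nd (nat_lit 6) 
(.lf (nat_lit 185003) (.g (nat_lit 1898) (.e (nat_lit 57854) (nat_lit 252) (.e (nat_lit 57409) (nat_lit 12) (.e (nat_lit 336454) (nat_lit 34) (.e (nat_lit 483404) (nat_lit 26) (.e (nat_lit 385066) (nat_lit 26) .nil))))) .nil)) 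
(.lf (nat_lit 185067) (.g (nat_lit 798) (.e (nat_lit 57854) (nat_lit 252) (.e (nat_lit 57427) (nat_lit 15) (.e (nat_lit 360478) (nat_lit 12) .nil))) .nil)))) (.nd (nat_lit 5) (.nd (nat_lit 6) 
(.lf (nat_lit 184987) (.g (nat_lit 2232) (.e (nat_lit 57854) (nat_lit 252) (.e (nat_lit 57409) (nat_lit 12) (.e (nat_lit 336446) (nat_lit 33) (.e (nat_lit 475214) (nat_lit 42) (.e (nat_lit 720955) (nat_lit 25) .nil))))) .nil)) 
(.lf (nat_lit 185051) (.g (nat_lit 2773) (.e (nat_lit 57854) (nat_lit 252) (.e (nat_lit 57414) (nat_lit 12) (.e (nat_lit 336056) (nat_lit 7) (.e (nat_lit 319534) (nat_lit 16) (.e (nat_lit 286756) (nat_lit 10) (.e (nat_lit 344097) (nat_lit 18) (.e (nat_lit 5194) (nat_lit 294) (.e (nat_lit 57365) (nat_lit 1) .nil)))))))) (.g (nat_lit 5) .nil .nil)))) (.nd (nat_lit 6) 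
(.lf (nat_lit 185019) (.g (nat_lit 2615) (.e (nat_lit 57854) (nat_lit 252) (.e (nat_lit 57412) (nat_lit 12) (.e (nat_lit 336060) (nat_lit 7) (.e (nat_lit 319534) (nat_lit 16) (.e (nat_lit 286756) (nat_lit 10) (.e (nat_lit 344097) (nat_lit 18) (.e (nat_lit 5194) (nat_lit 294) (.e (nat_lit 57365) (nat_lit 1) .nil)))))))) (.g (nat_lit 4) .nil .nil))) 
(.lf (nat_lit 185083) (.g (nat_lit 2361) (.e (nat_lit 57854) (nat_lit 252) (.e (nat_lit 57435) (nat_lit 17) (.e (nat_lit 376842) (nat_lit 11) (.e (nat_lit 426188) (nat_lit 9) (.e (nat_lit 426350) (nat_lit 15) .nil))))) .nil)))))) (.nd (nat_lit 3) (.nd (nat_lit 4) (.nd (nat_lit 5) (.nd (nat_lit 6) 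
(.lf (nat_lit 184967) (.g (nat_lit 3447) (.e (nat_lit 57854) (nat_lit 252) (.e (nat_lit 57409) (nat_lit 12) (.e (nat_lit 336370) (nat_lit 27) (.e (nat_lit 426499) (nat_lit 27) (.e (nat_lit 336196) (nat_lit 12) (.e (nat_lit 385068) (nat_lit 26) (.e (nat_lit 532504) (nat_lit 1) .nil))))))) (.g (nat_lit 5) .nil .nil))) 
(.lf (nat_lit 185031) (.g (nat_lit 3983) (.e (nat_lit 57854) (nat_lit 252) (.e (nat_lit 57412) (nat_lit 12) (.e (nat_lit 336061) (nat_lit 7) (.e (nat_lit 319531) (nat_lit 16) (.e (nat_lit 286756) (nat_lit 10) (.e (nat_lit 344097) (nat_lit 18) (.e (nat_lit 5195) (nat_lit 294) (.e (nat_lit 57368) (nat_lit 1) .nil)))))))) (.g (nat_lit 5) .nil .nil)))) (.nd (nat_lit 6) 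
(.lf (nat_lit 184999) (.g (nat_lit 2997) (.e (nat_lit 57854) (nat_lit 252) (.e (nat_lit 57409) (nat_lit 12) (.e (nat_lit 336450) (nat_lit 33) (.e (nat_lit 475212) (nat_lit 42) (.e (nat_lit 720955) (nat_lit 25) (.e (nat_lit 114711) (nat_lit 21) (.e (nat_lit 57847) (nat_lit 252) (.e (nat_lit 57365) (nat_lit 1) .nil)))))))) (.g (nat_lit 4) .nil .nil))) 
(.lf (nat_lit 185063) (.g (nat_lit 2749) (.e (nat_lit 57854) (nat_lit 252) (.e (nat_lit 57423) (nat_lit 14) (.e (nat_lit 352277) (nat_lit 11) (.e (nat_lit 426308) (nat_lit 12) (.e (nat_lit 475214) (nat_lit 42) (.e (nat_lit 720931) (nat_lit 21) .nil)))))) (.g (nat_lit 4) .nil .nil))))) (.nd (nat_lit 5) (.nd (nat_lit 6) 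
(.lf (nat_lit 184983) (.g (nat_lit 4337) (.e (nat_lit 57854) (nat_lit 252) (.e (nat_lit 57409) (nat_lit 12) (.e (nat_lit 336445) (nat_lit 33) (.e (nat_lit 475214) (nat_lit 42) (.e (nat_lit 720956) (nat_lit 25) (.e (nat_lit 114711) (nat_lit 21) (.e (nat_lit 57847) (nat_lit 252) (.e (nat_lit 57368) (nat_lit 1) .nil)))))))) (.g (nat_lit 7) .nil .nil))) 
(.lf (nat_lit 185047) (.g (nat_lit 2440) (.e (nat_lit 57854) (nat_lit 252) (.e (nat_lit 57414) (nat_lit 12) (.e (nat_lit 336054) (nat_lit 7) (.e (nat_lit 319534) (nat_lit 16) (.e (nat_lit 286756) (nat_lit 10) (.e (nat_lit 344097) (nat_lit 18) (.e (nat_lit 5194) (nat_lit 294) (.e (nat_lit 57365) (nat_lit 1) .nil)))))))) (.g (nat_lit 5) .nil .nil)))) (.nd (nat_lit 6) 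
(.lf (nat_lit 185015) (.g (nat_lit 3203) (.e (nat_lit 57854) (nat_lit 252) (.e (nat_lit 57412) (nat_lit 12) (.e (nat_lit 336054) (nat_lit 7) (.e (nat_lit 319534) (nat_lit 16) (.e (nat_lit 286756) (nat_lit 10) (.e (nat_lit 344097) (nat_lit 18) (.e (nat_lit 5195) (nat_lit 294) (.e (nat_lit 57368) (nat_lit 1) .nil)))))))) (.g (nat_lit 5) .nil .nil))) 
(.lf (nat_lit 185079) (.g (nat_lit 1696) (.e (nat_lit 57854) (nat_lit 252) (.e (nat_lit 57431) (nat_lit 16) (.e (nat_lit 368676) (nat_lit 21) (.e (nat_lit 516176) (nat_lit 14) (.e (nat_lit 474880) (nat_lit 3) (.e (nat_lit 106240) (nat_lit 1) .nil)))))) (.g (nat_lit 4) .nil .nil)))))) (.nd (nat_lit 4) (.nd (nat_lit 5) (.nd (nat_lit 6) 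
(.lf (nat_lit 184975) (.g (nat_lit 1392) (.e (nat_lit 57854) (nat_lit 252) (.e (nat_lit 57409) (nat_lit 12) (.e (nat_lit 336414) (nat_lit 27) (.e (nat_lit 426503) (nat_lit 27) .nil)))) .nil)) 
(.lf (nat_lit 185039) (.g (nat_lit 2169) (.e (nat_lit 57854) (nat_lit 252) (.e (nat_lit 57413) (nat_lit 12) (.e (nat_lit 336056) (nat_lit 7) (.e (nat_lit 319533) (nat_lit 16) (.e (nat_lit 286753) (nat_lit 10) (.e (nat_lit 344097) (nat_lit 18) (.e (nat_lit 5194) (nat_lit 294) (.e (nat_lit 57365) (nat_lit 1) .nil)))))))) (.g (nat_lit 4) .nil .nil)))) (.nd (nat_lit 6) 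
(.lf (nat_lit 185007) (.g (nat_lit 1283) (.e (nat_lit 57854) (nat_lit 252) (.e (nat_lit 57409) (nat_lit 12) (.e (nat_lit 336456) (nat_lit 34) (.e (nat_lit 483346) (nat_lit 17) .nil)))) .nil)) 
(.lf (nat_lit 185071) (.g (nat_lit 1409) (.e (nat_lit 57854) (nat_lit 252) (.e (nat_lit 57430) (nat_lit 16) (.e (nat_lit 368676) (nat_lit 21) (.e (nat_lit 516163) (nat_lit 11) .nil)))) .nil)))) (.nd (nat_lit 5) (.nd (nat_lit 6) 
(.lf (nat_lit 184991) (.g (nat_lit 4090) (.e (nat_lit 57854) (nat_lit 252) (.e (nat_lit 57409) (nat_lit 12) (.e (nat_lit 336446) (nat_lit 33) (.e (nat_lit 475214) (nat_lit 42) (.e (nat_lit 720956) (nat_lit 25) (.e (nat_lit 114711) (nat_lit 21) (.e (nat_lit 57847) (nat_lit 252) (.e (nat_lit 57368) (nat_lit 1) .nil)))))))) (.g (nat_lit 7) .nil .nil))) 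
(.lf (nat_lit 185055) (.g (nat_lit 2126) (.e (nat_lit 57854) (nat_lit 252) (.e (nat_lit 57414) (nat_lit 12) (.e (nat_lit 336060) (nat_lit 7) (.e (nat_lit 319533) (nat_lit 16) (.e (nat_lit 286753) (nat_lit 10) (.e (nat_lit 344097) (nat_lit 18) (.e (nat_lit 5195) (nat_lit 294) (.e (nat_lit 57363) (nat_lit 1) .nil)))))))) (.g (nat_lit 4) .nil .nil)))) (.nd (nat_lit 6) 
(.lf (nat_lit 185023) (.g (nat_lit 2488) (.e (nat_lit 57854) (nat_lit 252) (.e (nat_lit 57412) (nat_lit 12) (.e (nat_lit 336061) (nat_lit 7) (.e (nat_lit 319531) (nat_lit 16) (.e (nat_lit 286750) (nat_lit 9) .nil))))) .nil)) 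
(.lf (nat_lit 185087) (.g (nat_lit 2337) (.e (nat_lit 57854) (nat_lit 252) (.e (nat_lit 57435) (nat_lit 17) (.e (nat_lit 376842) (nat_lit 11) (.e (nat_lit 426188) (nat_lit 9) (.e (nat_lit 426444) (nat_lit 19) (.e (nat_lit 106520) (nat_lit 9) (.e (nat_lit 1178) (nat_lit 87) .nil))))))) (.g (nat_lit 4) .nil .nil))))))))))

noncomputable def tv2463 : DT := (.nd (nat_lit 0) (.nd (nat_lit 1) (.nd (nat_lit 2) (.nd (nat_lit 3) (.nd (nat_lit 4) (.nd (nat_lit 5) (.nd (nat_lit 6) 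
(.lf (nat_lit 185088) (.g (nat_lit 2947) (.e (nat_lit 57854) (nat_lit 252) (.e (nat_lit 57435) (nat_lit 17) (.e (nat_lit 376842) (nat_lit 11) (.e (nat_lit 426190) (nat_lit 9) (.e (nat_lit 426448) (nat_lit 20) (.e (nat_lit 114711) (nat_lit 21) .nil)))))) (.g (nat_lit 5) .nil .nil))) 
(.lf (nat_lit 185152) (.g (nat_lit 2976) (.e (nat_lit 57854) (nat_lit 252) (.e (nat_lit 57445) (nat_lit 19) (.e (nat_lit 393229) (nat_lit 9) (.e (nat_lit 336074) (nat_lit 9) .nil)))) .nil))) (.nd (nat_lit 6) 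
(.lf (nat_lit 185120) (.g (nat_lit 2883) (.e (nat_lit 57854) (nat_lit 252) (.e (nat_lit 57436) (nat_lit 17) (.e (nat_lit 376842) (nat_lit 11) (.e (nat_lit 426199) (nat_lit 9) (.e (nat_lit 426448) (nat_lit 20) (.e (nat_lit 114712) (nat_lit 21) .nil)))))) (.g (nat_lit 5) .nil .nil))) 
(.lf (nat_lit 185184) (.g (nat_lit 2859) (.e (nat_lit 57854) (nat_lit 252) (.e (nat_lit 57446) (nat_lit 19) (.e (nat_lit 393229) (nat_lit 9) (.e (nat_lit 336088) (nat_lit 9) (.e (nat_lit 336326) (nat_lit 18) (.e (nat_lit 204831) (nat_lit 18) .nil)))))) (.g (nat_lit 0) .nil .nil))))) (.nd (nat_lit 5) (.nd (nat_lit 6) 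
(.lf (nat_lit 185104) (.g (nat_lit 2837) (.e (nat_lit 57854) (nat_lit 252) (.e (nat_lit 57435) (nat_lit 17) (.e (nat_lit 376842) (nat_lit 11) (.e (nat_lit 426315) (nat_lit 12) (.e (nat_lit 475213) (nat_lit 42) (.e (nat_lit 720931) (nat_lit 21) .nil)))))) (.g (nat_lit 6) .nil .nil))) 
(.lf (nat_lit 185168) (.g (nat_lit 3710) (.e (nat_lit 57854) (nat_lit 252) (.e (nat_lit 57445) (nat_lit 19) (.e (nat_lit 393229) (nat_lit 9) (.e (nat_lit 336091) (nat_lit 9) .nil)))) .nil))) (.nd (nat_lit 6) 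
(.lf (nat_lit 185136) (.g (nat_lit 1411) (.e (nat_lit 57854) (nat_lit 252) (.e (nat_lit 57440) (nat_lit 18) (.e (nat_lit 385068) (nat_lit 26) (.e (nat_lit 532551) (nat_lit 12) .nil)))) .nil)) 
(.lf (nat_lit 185200) (.g (nat_lit 2057) (.e (nat_lit 57854) (nat_lit 252) (.e (nat_lit 57447) (nat_lit 19) (.e (nat_lit 393229) (nat_lit 9) (.e (nat_lit 336086) (nat_lit 9) (.e (nat_lit 336263) (nat_lit 15) .nil))))) .nil))))) (.nd (nat_lit 4) (.nd (nat_lit 5) (.nd (nat_lit 6) 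
(.lf (nat_lit 185096) (.g (nat_lit 2662) (.e (nat_lit 57854) (nat_lit 252) (.e (nat_lit 57435) (nat_lit 17) (.e (nat_lit 376842) (nat_lit 11) (.e (nat_lit 426307) (nat_lit 12) (.e (nat_lit 475212) (nat_lit 42) (.e (nat_lit 720934) (nat_lit 21) .nil)))))) (.g (nat_lit 5) .nil .nil))) 
(.lf (nat_lit 185160) (.g (nat_lit 1711) (.e (nat_lit 57854) (nat_lit 252) (.e (nat_lit 57445) (nat_lit 19) (.e (nat_lit 393229) (nat_lit 9) (.e (nat_lit 336086) (nat_lit 9) (.e (nat_lit 336263) (nat_lit 15) .nil))))) .nil))) (.nd (nat_lit 6) 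
(.lf (nat_lit 185128) (.g (nat_lit 2612) (.e (nat_lit 57854) (nat_lit 252) (.e (nat_lit 57436) (nat_lit 17) (.e (nat_lit 376842) (nat_lit 11) (.e (nat_lit 426315) (nat_lit 12) (.e (nat_lit 475212) (nat_lit 42) (.e (nat_lit 720934) (nat_lit 21) .nil)))))) (.g (nat_lit 5) .nil .nil))) 
(.lf (nat_lit 185192) (.g (nat_lit 3213) (.e (nat_lit 57854) (nat_lit 252) (.e (nat_lit 57447) (nat_lit 19) (.e (nat_lit 393225) (nat_lit 9) (.e (nat_lit 336196) (nat_lit 12) (.e (nat_lit 385066) (nat_lit 26) (.e (nat_lit 532502) (nat_lit 1) .nil)))))) (.g (nat_lit 5) .nil .nil))))) (.nd (nat_lit 5) (.nd (nat_lit 6) 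
(.lf (nat_lit 185112) (.g (nat_lit 2159) (.e (nat_lit 57854) (nat_lit 252) (.e (nat_lit 57436) (nat_lit 17) (.e (nat_lit 376842) (nat_lit 11) (.e (nat_lit 426188) (nat_lit 9) (.e (nat_lit 426350) (nat_lit 15) .nil))))) .nil)) 
(.lf (nat_lit 185176) (.g (nat_lit 1427) (.e (nat_lit 57854) (nat_lit 252) (.e (nat_lit 57445) (nat_lit 19) (.e (nat_lit 393229) (nat_lit 9) (.e (nat_lit 336202) (nat_lit 12) .nil)))) .nil))) (.nd (nat_lit 6) 
(.lf (nat_lit 185144) (.g (nat_lit 3146) (.e (nat_lit 57854) (nat_lit 252) (.e (nat_lit 57445) (nat_lit 19) (.e (nat_lit 393225) (nat_lit 9) (.e (nat_lit 336196) (nat_lit 12) (.e (nat_lit 385066) (nat_lit 26) (.e (nat_lit 532502) (nat_lit 1) .nil)))))) (.g (nat_lit 5) .nil .nil))) 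
(.lf (nat_lit 185208) (.g (nat_lit 1693) (.e (nat_lit 57854) (nat_lit 252) (.e (nat_lit 57447) (nat_lit 19) (.e (nat_lit 393229) (nat_lit 9) (.e (nat_lit 336202) (nat_lit 12) (.e (nat_lit 385065) (nat_lit 26) .nil))))) .nil)))))) (.nd (nat_lit 3) (.nd (nat_lit 4) (.nd (nat_lit 5) (.nd (nat_lit 6) 
(.lf (nat_lit 185092) (.g (nat_lit 1434) (.e (nat_lit 57854) (nat_lit 252) (.e (nat_lit 57435) (nat_lit 17) (.e (nat_lit 376842) (nat_lit 11) (.e (nat_lit 426204) (nat_lit 9) .nil)))) .nil)) 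
(.lf (nat_lit 185156) (.g (nat_lit 1536) (.e (nat_lit 57854) (nat_lit 252) (.e (nat_lit 57445) (nat_lit 19) (.e (nat_lit 393229) (nat_lit 9) (.e (nat_lit 336085) (nat_lit 9) .nil)))) .nil))) (.nd (nat_lit 6) 
(.lf (nat_lit 185124) (.g (nat_lit 2141) (.e (nat_lit 57854) (nat_lit 252) (.e (nat_lit 57436) (nat_lit 17) (.e (nat_lit 376842) (nat_lit 11) (.e (nat_lit 426306) (nat_lit 12) (.e (nat_lit 475201) (nat_lit 40) (.e (nat_lit 704620) (nat_lit 9) (.e (nat_lit 1172) (nat_lit 87) .nil))))))) (.g (nat_lit 4) .nil .nil))) 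
(.lf (nat_lit 185188) (.g (nat_lit 2892) (.e (nat_lit 57854) (nat_lit 252) (.e (nat_lit 57447) (nat_lit 19) (.e (nat_lit 393225) (nat_lit 9) (.e (nat_lit 336088) (nat_lit 9) (.e (nat_lit 336326) (nat_lit 18) (.e (nat_lit 204830) (nat_lit 18) .nil)))))) (.g (nat_lit 5) .nil .nil))))) (.nd (nat_lit 5) (.nd (nat_lit 6) 
(.lf (nat_lit 185108) (.g (nat_lit 513) (.e (nat_lit 57854) (nat_lit 252) (.e (nat_lit 57436) (nat_lit 17) (.e (nat_lit 376839) (nat_lit 11) .nil))) .nil)) 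
(.lf (nat_lit 185172) (.g (nat_lit 2598) (.e (nat_lit 57854) (nat_lit 252) (.e (nat_lit 57445) (nat_lit 19) (.e (nat_lit 393229) (nat_lit 9) (.e (nat_lit 336195) (nat_lit 12) .nil)))) .nil))) (.nd (nat_lit 6) 
(.lf (nat_lit 185140) (.g (nat_lit 621) (.e (nat_lit 57854) (nat_lit 252) (.e (nat_lit 57445) (nat_lit 19) (.e (nat_lit 393217) (nat_lit 0) .nil))) .nil)) 
(.lf (nat_lit 185204) (.g (nat_lit 1953) (.e (nat_lit 57854) (nat_lit 252) (.e (nat_lit 57447) (nat_lit 19) (.e (nat_lit 393229) (nat_lit 9) (.e (nat_lit 336087) (nat_lit 9) (.e (nat_lit 336326) (nat_lit 18) .nil))))) .nil))))) (.nd (nat_lit 4) (.nd (nat_lit 5) (.nd (nat_lit 6) 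
(.lf (nat_lit 185100) (.g (nat_lit 3143) (.e (nat_lit 57854) (nat_lit 252) (.e (nat_lit 57435) (nat_lit 17) (.e (nat_lit 376842) (nat_lit 11) (.e (nat_lit 426314) (nat_lit 12) (.e (nat_lit 475214) (nat_lit 42) (.e (nat_lit 720930) (nat_lit 21) .nil)))))) (.g (nat_lit 5) .nil .nil))) 
(.lf (nat_lit 185164) (.g (nat_lit 2188) (.e (nat_lit 57854) (nat_lit 252) (.e (nat_lit 57445) (nat_lit 19) (.e (nat_lit 393229) (nat_lit 9) (.e (nat_lit 336086) (nat_lit 9) (.e (nat_lit 343808) (nat_lit 18) (.e (nat_lit 204829) (nat_lit 18) .nil)))))) (.g (nat_lit 4) .nil .nil)))) (.nd (nat_lit 6) 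
(.lf (nat_lit 185132) (.g (nat_lit 2457) (.e (nat_lit 57854) (nat_lit 252) (.e (nat_lit 57436) (nat_lit 17) (.e (nat_lit 376860) (nat_lit 21) (.e (nat_lit 57931) (nat_lit 282) (.e (nat_lit 164084) (nat_lit 73) .nil))))) .nil)) 
(.lf (nat_lit 185196) (.g (nat_lit 385) (.e (nat_lit 57854) (nat_lit 252) (.e (nat_lit 57447) (nat_lit 19) (.e (nat_lit 393229) (nat_lit 9) .nil))) .nil)))) (.nd (nat_lit 5) (.nd (nat_lit 6) 
(.lf (nat_lit 185116) (.g (nat_lit 2260) (.e (nat_lit 57854) (nat_lit 252) (.e (nat_lit 57436) (nat_lit 17) (.e (nat_lit 376842) (nat_lit 11) (.e (nat_lit 426188) (nat_lit 9) (.e (nat_lit 426444) (nat_lit 19) (.e (nat_lit 106520) (nat_lit 9) (.e (nat_lit 1178) (nat_lit 87) .nil))))))) (.g (nat_lit 4) .nil .nil))) 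
(.lf (nat_lit 185180) (.g (nat_lit 1884) (.e (nat_lit 57854) (nat_lit 252) (.e (nat_lit 57445) (nat_lit 19) (.e (nat_lit 393229) (nat_lit 9) (.e (nat_lit 336203) (nat_lit 12) (.e (nat_lit 385064) (nat_lit 26) .nil))))) .nil))) (.nd (nat_lit 6) 
(.lf (nat_lit 185148) (.g (nat_lit 3961) (.e (nat_lit 57854) (nat_lit 252) (.e (nat_lit 57445) (nat_lit 19) (.e (nat_lit 393229) (nat_lit 9) (.e (nat_lit 335914) (nat_lit 0) .nil)))) .nil)) 
(.lf (nat_lit 185212) (.g (nat_lit 3768) (.e (nat_lit 57854) (nat_lit 252) (.e (nat_lit 57447) (nat_lit 19) (.e (nat_lit 393229) (nat_lit 9) (.e (nat_lit 336203) (nat_lit 12) (.e (nat_lit 385066) (nat_lit 26) (.e (nat_lit 532499) (nat_lit 1) .nil)))))) (.g (nat_lit 6) .nil .nil)))))))) (.nd (nat_lit 2) (.nd (nat_lit 3) (.nd (nat_lit 4) (.nd (nat_lit 5) (.nd (nat_lit 6) 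
(.lf (nat_lit 185090) (.g (nat_lit 3090) (.e (nat_lit 57854) (nat_lit 252) (.e (nat_lit 57435) (nat_lit 17) (.e (nat_lit 376842) (nat_lit 11) (.e (nat_lit 426199) (nat_lit 9) (.e (nat_lit 426448) (nat_lit 20) (.e (nat_lit 114712) (nat_lit 21) .nil)))))) (.g (nat_lit 5) .nil .nil))) 
(.lf (nat_lit 185154) (.g (nat_lit 1965) (.e (nat_lit 57854) (nat_lit 252) (.e (nat_lit 57445) (nat_lit 19) (.e (nat_lit 393229) (nat_lit 9) (.e (nat_lit 336077) (nat_lit 9) (.e (nat_lit 336326) (nat_lit 18) .nil))))) .nil))) (.nd (nat_lit 6) 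
(.lf (nat_lit 185122) (.g (nat_lit 1465) (.e (nat_lit 57854) (nat_lit 252) (.e (nat_lit 57436) (nat_lit 17) (.e (nat_lit 376842) (nat_lit 11) (.e (nat_lit 426213) (nat_lit 9) .nil)))) .nil)) 
(.lf (nat_lit 185186) (.g (nat_lit 1753) (.e (nat_lit 57854) (nat_lit 252) (.e (nat_lit 57447) (nat_lit 19) (.e (nat_lit 393225) (nat_lit 9) (.e (nat_lit 336077) (nat_lit 9) (.e (nat_lit 336324) (nat_lit 18) .nil))))) .nil)))) (.nd (nat_lit 5) (.nd (nat_lit 6) 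
(.lf (nat_lit 185106) (.g (nat_lit 2819) (.e (nat_lit 57854) (nat_lit 252) (.e (nat_lit 57435) (nat_lit 17) (.e (nat_lit 376842) (nat_lit 11) (.e (nat_lit 426316) (nat_lit 12) (.e (nat_lit 475214) (nat_lit 42) (.e (nat_lit 720934) (nat_lit 21) .nil)))))) (.g (nat_lit 5) .nil .nil))) 
(.lf (nat_lit 185170) (.g (nat_lit 3654) (.e (nat_lit 57854) (nat_lit 252) (.e (nat_lit 57445) (nat_lit 19) (.e (nat_lit 393229) (nat_lit 9) (.e (nat_lit 336107) (nat_lit 9) .nil)))) .nil))) (.nd (nat_lit 6) 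
(.lf (nat_lit 185138) (.g (nat_lit 1513) (.e (nat_lit 57854) (nat_lit 252) (.e (nat_lit 57442) (nat_lit 18) (.e (nat_lit 385068) (nat_lit 26) (.e (nat_lit 532551) (nat_lit 12) .nil)))) .nil)) 
(.lf (nat_lit 185202) (.g (nat_lit 4463) (.e (nat_lit 57854) (nat_lit 252) (.e (nat_lit 57447) (nat_lit 19) (.e (nat_lit 393229) (nat_lit 9) (.e (nat_lit 336086) (nat_lit 9) (.e (nat_lit 336306) (nat_lit 15) (.e (nat_lit 3238) (nat_lit 197) (.e (nat_lit 532500) (nat_lit 1) .nil))))))) (.g (nat_lit 0) .nil .nil)))))) (.nd (nat_lit 4) (.nd (nat_lit 5) (.nd (nat_lit 6) 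
(.lf (nat_lit 185098) (.g (nat_lit 1830) (.e (nat_lit 57854) (nat_lit 252) (.e (nat_lit 57435) (nat_lit 17) (.e (nat_lit 376842) (nat_lit 11) (.e (nat_lit 426313) (nat_lit 12) (.e (nat_lit 475214) (nat_lit 42) .nil))))) .nil)) 
(.lf (nat_lit 185162) (.g (nat_lit 1909) (.e (nat_lit 57854) (nat_lit 252) (.e (nat_lit 57445) (nat_lit 19) (.e (nat_lit 393229) (nat_lit 9) (.e (nat_lit 336086) (nat_lit 9) (.e (nat_lit 336286) (nat_lit 15) .nil))))) .nil))) (.nd (nat_lit 6) 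
(.lf (nat_lit 185130) (.g (nat_lit 2673) (.e (nat_lit 57854) (nat_lit 252) (.e (nat_lit 57436) (nat_lit 17) (.e (nat_lit 376842) (nat_lit 11) (.e (nat_lit 426316) (nat_lit 12) (.e (nat_lit 475214) (nat_lit 42) (.e (nat_lit 720934) (nat_lit 21) .nil)))))) (.g (nat_lit 5) .nil .nil))) 
(.lf (nat_lit 185194) (.g (nat_lit 1622) (.e (nat_lit 57854) (nat_lit 252) (.e (nat_lit 57447) (nat_lit 19) (.e (nat_lit 393228) (nat_lit 9) (.e (nat_lit 336076) (nat_lit 9) (.e (nat_lit 336326) (nat_lit 18) .nil))))) .nil)))) (.nd (nat_lit 5) (.nd (nat_lit 6) 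
(.lf (nat_lit 185114) (.g (nat_lit 2436) (.e (nat_lit 57854) (nat_lit 252) (.e (nat_lit 57436) (nat_lit 17) (.e (nat_lit 376842) (nat_lit 11) (.e (nat_lit 426188) (nat_lit 9) (.e (nat_lit 426444) (nat_lit 19) (.e (nat_lit 106504) (nat_lit 9) (.e (nat_lit 1178) (nat_lit 87) .nil))))))) (.g (nat_lit 4) .nil .nil))) 
(.lf (nat_lit 185178) (.g (nat_lit 3853) (.e (nat_lit 57854) (nat_lit 252) (.e (nat_lit 57445) (nat_lit 19) (.e (nat_lit 393229) (nat_lit 9) (.e (nat_lit 336202) (nat_lit 12) (.e (nat_lit 385068) (nat_lit 26) (.e (nat_lit 532501) (nat_lit 1) .nil)))))) (.g (nat_lit 6) .nil .nil)))) (.nd (nat_lit 6) 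
(.lf (nat_lit 185146) (.g (nat_lit 3425) (.e (nat_lit 57854) (nat_lit 252) (.e (nat_lit 57445) (nat_lit 19) (.e (nat_lit 393225) (nat_lit 9) (.e (nat_lit 336204) (nat_lit 12) (.e (nat_lit 385066) (nat_lit 26) (.e (nat_lit 532504) (nat_lit 1) .nil)))))) (.g (nat_lit 0) .nil .nil))) 
(.lf (nat_lit 185210) (.g (nat_lit 1998) (.e (nat_lit 57854) (nat_lit 252) (.e (nat_lit 57447) (nat_lit 19) (.e (nat_lit 393229) (nat_lit 9) (.e (nat_lit 336203) (nat_lit 12) (.e (nat_lit 385064) (nat_lit 26) .nil))))) .nil)))))) (.nd (nat_lit 3) (.nd (nat_lit 4) (.nd (nat_lit 5) (.nd (nat_lit 6) 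
(.lf (nat_lit 185094) (.g (nat_lit 806) (.e (nat_lit 57854) (nat_lit 252) (.e (nat_lit 57435) (nat_lit 17) (.e (nat_lit 376842) (nat_lit 11) (.e (nat_lit 426298) (nat_lit 11) .nil)))) .nil)) 
(.lf (nat_lit 185158) (.g (nat_lit 808) (.e (nat_lit 57854) (nat_lit 252) (.e (nat_lit 57445) (nat_lit 19) (.e (nat_lit 393229) (nat_lit 9) (.e (nat_lit 336086) (nat_lit 9) .nil)))) .nil))) (.nd (nat_lit 6) 
(.lf (nat_lit 185126) (.g (nat_lit 2773) (.e (nat_lit 57854) (nat_lit 252) (.e (nat_lit 57436) (nat_lit 17) (.e (nat_lit 376842) (nat_lit 11) (.e (nat_lit 426308) (nat_lit 12) (.e (nat_lit 475212) (nat_lit 42) (.e (nat_lit 720934) (nat_lit 21) .nil)))))) (.g (nat_lit 5) .nil .nil))) 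
(.lf (nat_lit 185190) (.g (nat_lit 1388) (.e (nat_lit 57854) (nat_lit 252) (.e (nat_lit 57447) (nat_lit 19) (.e (nat_lit 393225) (nat_lit 9) (.e (nat_lit 336091) (nat_lit 9) .nil)))) .nil)))) (.nd (nat_lit 5) (.nd (nat_lit 6) 
(.lf (nat_lit 185110) (.g (nat_lit 439) (.e (nat_lit 57854) (nat_lit 252) (.e (nat_lit 57436) (nat_lit 17) (.e (nat_lit 376842) (nat_lit 11) .nil))) .nil)) 
(.lf (nat_lit 185174) (.g (nat_lit 3682) (.e (nat_lit 57854) (nat_lit 252) (.e (nat_lit 57445) (nat_lit 19) (.e (nat_lit 393229) (nat_lit 9) (.e (nat_lit 336201) (nat_lit 12) (.e (nat_lit 385068) (nat_lit 26) (.e (nat_lit 532501) (nat_lit 1) .nil)))))) (.g (nat_lit 6) .nil .nil)))) (.nd (nat_lit 6) 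
(.lf (nat_lit 185142) (.g (nat_lit 2869) (.e (nat_lit 57854) (nat_lit 252) (.e (nat_lit 57445) (nat_lit 19) (.e (nat_lit 393225) (nat_lit 9) (.e (nat_lit 336088) (nat_lit 9) (.e (nat_lit 336326) (nat_lit 18) (.e (nat_lit 204831) (nat_lit 18) .nil)))))) (.g (nat_lit 5) .nil .nil))) 
(.lf (nat_lit 185206) (.g (nat_lit 2210) (.e (nat_lit 57854) (nat_lit 252) (.e (nat_lit 57447) (nat_lit 19) (.e (nat_lit 393229) (nat_lit 9) (.e (nat_lit 336193) (nat_lit 12) (.e (nat_lit 385068) (nat_lit 26) .nil))))) .nil))))) (.nd (nat_lit 4) (.nd (nat_lit 5) (.nd (nat_lit 6) 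
(.lf (nat_lit 185102) (.g (nat_lit 2843) (.e (nat_lit 57854) (nat_lit 252) (.e (nat_lit 57435) (nat_lit 17) (.e (nat_lit 376842) (nat_lit 11) (.e (nat_lit 426315) (nat_lit 12) (.e (nat_lit 475212) (nat_lit 42) (.e (nat_lit 720931) (nat_lit 21) .nil)))))) (.g (nat_lit 5) .nil .nil))) 
(.lf (nat_lit 185166) (.g (nat_lit 2227) (.e (nat_lit 57854) (nat_lit 252) (.e (nat_lit 57445) (nat_lit 19) (.e (nat_lit 393229) (nat_lit 9) (.e (nat_lit 336086) (nat_lit 9) (.e (nat_lit 343808) (nat_lit 18) (.e (nat_lit 204831) (nat_lit 18) .nil)))))) (.g (nat_lit 4) .nil .nil)))) (.nd (nat_lit 6) 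
(.lf (nat_lit 185134) (.g (nat_lit 3348) (.e (nat_lit 57854) (nat_lit 252) (.e (nat_lit 57440) (nat_lit 18) (.e (nat_lit 385066) (nat_lit 26) (.e (nat_lit 532560) (nat_lit 14) (.e (nat_lit 376860) (nat_lit 21) (.e (nat_lit 57692) (nat_lit 156) (.e (nat_lit 171776) (nat_lit 62) .nil))))))) (.g (nat_lit 6) .nil .nil))) 
(.lf (nat_lit 185198) (.g (nat_lit 1275) (.e (nat_lit 57854) (nat_lit 252) (.e (nat_lit 57447) (nat_lit 19) (.e (nat_lit 393229) (nat_lit 9) (.e (nat_lit 336085) (nat_lit 9) .nil)))) .nil)))) (.nd (nat_lit 5) (.nd (nat_lit 6) 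
(.lf (nat_lit 185118) (.g (nat_lit 2906) (.e (nat_lit 57854) (nat_lit 252) (.e (nat_lit 57436) (nat_lit 17) (.e (nat_lit 376842) (nat_lit 11) (.e (nat_lit 426190) (nat_lit 9) (.e (nat_lit 426448) (nat_lit 20) (.e (nat_lit 114711) (nat_lit 21) .nil)))))) (.g (nat_lit 5) .nil .nil))) 
(.lf (nat_lit 185182) (.g (nat_lit 1873) (.e (nat_lit 57854) (nat_lit 252) (.e (nat_lit 57445) (nat_lit 19) (.e (nat_lit 393229) (nat_lit 9) (.e (nat_lit 343808) (nat_lit 12) .nil)))) .nil))) (.nd (nat_lit 6) 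
(.lf (nat_lit 185150) (.g (nat_lit 3906) (.e (nat_lit 57854) (nat_lit 252) (.e (nat_lit 57445) (nat_lit 19) (.e (nat_lit 393229) (nat_lit 9) (.e (nat_lit 336069) (nat_lit 8) .nil)))) .nil)) 
(.lf (nat_lit 185214) (.g (nat_lit 406) (.e (nat_lit 57854) (nat_lit 252) (.e (nat_lit 57447) (nat_lit 19) (.e (nat_lit 401152) (nat_lit 14) .nil))) .nil)))))))) (.nd (nat_lit 1) (.nd (nat_lit 2) (.nd (nat_lit 3) (.nd (nat_lit 4) (.nd (nat_lit 5) (.nd (nat_lit 6) 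
(.lf (nat_lit 185089) (.g (nat_lit 2790) (.e (nat_lit 57854) (nat_lit 252) (.e (nat_lit 57435) (nat_lit 17) (.e (nat_lit 376842) (nat_lit 11) (.e (nat_lit 426197) (nat_lit 9) (.e (nat_lit 426448) (nat_lit 20) (.e (nat_lit 114711) (nat_lit 21) .nil)))))) (.g (nat_lit 6) .nil .nil))) 
(.lf (nat_lit 185153) (.g (nat_lit 2368) (.e (nat_lit 57854) (nat_lit 252) (.e (nat_lit 57445) (nat_lit 19) (.e (nat_lit 393229) (nat_lit 9) (.e (nat_lit 336075) (nat_lit 9) .nil)))) .nil))) (.nd (nat_lit 6) 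
(.lf (nat_lit 185121) (.g (nat_lit 1350) (.e (nat_lit 57854) (nat_lit 252) (.e (nat_lit 57436) (nat_lit 17) (.e (nat_lit 376842) (nat_lit 11) (.e (nat_lit 426204) (nat_lit 9) .nil)))) .nil)) 
(.lf (nat_lit 185185) (.g (nat_lit 810) (.e (nat_lit 57854) (nat_lit 252) (.e (nat_lit 57447) (nat_lit 19) (.e (nat_lit 393223) (nat_lit 0) .nil))) .nil)))) (.nd (nat_lit 5) (.nd (nat_lit 6) 
(.lf (nat_lit 185105) (.g (nat_lit 2788) (.e (nat_lit 57854) (nat_lit 252) (.e (nat_lit 57435) (nat_lit 17) (.e (nat_lit 376842) (nat_lit 11) (.e (nat_lit 426316) (nat_lit 12) (.e (nat_lit 475214) (nat_lit 42) (.e (nat_lit 720932) (nat_lit 21) .nil)))))) (.g (nat_lit 5) .nil .nil))) 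
(.lf (nat_lit 185169) (.g (nat_lit 3841) (.e (nat_lit 57854) (nat_lit 252) (.e (nat_lit 57445) (nat_lit 19) (.e (nat_lit 393229) (nat_lit 9) (.e (nat_lit 336100) (nat_lit 9) .nil)))) .nil))) (.nd (nat_lit 6) 
(.lf (nat_lit 185137) (.g (nat_lit 3636) (.e (nat_lit 57854) (nat_lit 252) (.e (nat_lit 57440) (nat_lit 18) (.e (nat_lit 385068) (nat_lit 26) (.e (nat_lit 532560) (nat_lit 14) (.e (nat_lit 376860) (nat_lit 21) (.e (nat_lit 57692) (nat_lit 156) (.e (nat_lit 171776) (nat_lit 62) .nil))))))) (.g (nat_lit 6) .nil .nil))) 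
(.lf (nat_lit 185201) (.g (nat_lit 2055) (.e (nat_lit 57854) (nat_lit 252) (.e (nat_lit 57447) (nat_lit 19) (.e (nat_lit 393229) (nat_lit 9) (.e (nat_lit 336086) (nat_lit 9) (.e (nat_lit 336265) (nat_lit 15) .nil))))) .nil))))) (.nd (nat_lit 4) (.nd (nat_lit 5) (.nd (nat_lit 6) 
(.lf (nat_lit 185097) (.g (nat_lit 2929) (.e (nat_lit 57854) (nat_lit 252) (.e (nat_lit 57435) (nat_lit 17) (.e (nat_lit 376842) (nat_lit 11) (.e (nat_lit 426308) (nat_lit 12) (.e (nat_lit 475212) (nat_lit 42) (.e (nat_lit 720934) (nat_lit 21) .nil)))))) (.g (nat_lit 5) .nil .nil))) 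
(.lf (nat_lit 185161) (.g (nat_lit 1708) (.e (nat_lit 57854) (nat_lit 252) (.e (nat_lit 57445) (nat_lit 19) (.e (nat_lit 393229) (nat_lit 9) (.e (nat_lit 336086) (nat_lit 9) (.e (nat_lit 336265) (nat_lit 15) .nil))))) .nil))) (.nd (nat_lit 6) 
(.lf (nat_lit 185129) (.g (nat_lit 2655) (.e (nat_lit 57854) (nat_lit 252) (.e (nat_lit 57436) (nat_lit 17) (.e (nat_lit 376842) (nat_lit 11) (.e (nat_lit 426316) (nat_lit 12) (.e (nat_lit 475214) (nat_lit 42) (.e (nat_lit 720932) (nat_lit 21) .nil)))))) (.g (nat_lit 5) .nil .nil))) 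
(.lf (nat_lit 185193) (.g (nat_lit 538) (.e (nat_lit 57854) (nat_lit 252) (.e (nat_lit 57447) (nat_lit 19) (.e (nat_lit 393228) (nat_lit 9) .nil))) .nil)))) (.nd (nat_lit 5) (.nd (nat_lit 6) 
(.lf (nat_lit 185113) (.g (nat_lit 2784) (.e (nat_lit 57854) (nat_lit 252) (.e (nat_lit 57436) (nat_lit 17) (.e (nat_lit 376842) (nat_lit 11) (.e (nat_lit 426188) (nat_lit 9) (.e (nat_lit 426442) (nat_lit 19) (.e (nat_lit 106517) (nat_lit 9) (.e (nat_lit 1182) (nat_lit 87) .nil))))))) (.g (nat_lit 4) .nil .nil))) 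
(.lf (nat_lit 185177) (.g (nat_lit 2011) (.e (nat_lit 57854) (nat_lit 252) (.e (nat_lit 57445) (nat_lit 19) (.e (nat_lit 393229) (nat_lit 9) (.e (nat_lit 336202) (nat_lit 12) (.e (nat_lit 385065) (nat_lit 26) .nil))))) .nil))) (.nd (nat_lit 6) 
(.lf (nat_lit 185145) (.g (nat_lit 3874) (.e (nat_lit 57854) (nat_lit 252) (.e (nat_lit 57445) (nat_lit 19) (.e (nat_lit 393225) (nat_lit 9) (.e (nat_lit 336196) (nat_lit 12) (.e (nat_lit 385068) (nat_lit 26) (.e (nat_lit 532501) (nat_lit 1) .nil)))))) (.g (nat_lit 6) .nil .nil))) 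
(.lf (nat_lit 185209) (.g (nat_lit 1080) (.e (nat_lit 57854) (nat_lit 252) (.e (nat_lit 57447) (nat_lit 19) (.e (nat_lit 393229) (nat_lit 9) (.e (nat_lit 336203) (nat_lit 12) .nil)))) .nil)))))) (.nd (nat_lit 3) (.nd (nat_lit 4) (.nd (nat_lit 5) (.nd (nat_lit 6) 
(.lf (nat_lit 185093) (.g (nat_lit 1539) (.e (nat_lit 57854) (nat_lit 252) (.e (nat_lit 57435) (nat_lit 17) (.e (nat_lit 376842) (nat_lit 11) (.e (nat_lit 426213) (nat_lit 9) .nil)))) .nil)) 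
(.lf (nat_lit 185157) (.g (nat_lit 1770) (.e (nat_lit 57854) (nat_lit 252) (.e (nat_lit 57445) (nat_lit 19) (.e (nat_lit 393229) (nat_lit 9) (.e (nat_lit 336085) (nat_lit 9) (.e (nat_lit 336270) (nat_lit 15) .nil))))) .nil))) (.nd (nat_lit 6) 
(.lf (nat_lit 185125) (.g (nat_lit 2472) (.e (nat_lit 57854) (nat_lit 252) (.e (nat_lit 57436) (nat_lit 17) (.e (nat_lit 376842) (nat_lit 11) (.e (nat_lit 426307) (nat_lit 12) (.e (nat_lit 475212) (nat_lit 42) (.e (nat_lit 720934) (nat_lit 21) .nil)))))) (.g (nat_lit 5) .nil .nil))) 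
(.lf (nat_lit 185189) (.g (nat_lit 2823) (.e (nat_lit 57854) (nat_lit 252) (.e (nat_lit 57447) (nat_lit 19) (.e (nat_lit 393225) (nat_lit 9) (.e (nat_lit 336088) (nat_lit 9) (.e (nat_lit 336326) (nat_lit 18) (.e (nat_lit 204831) (nat_lit 18) .nil)))))) (.g (nat_lit 5) .nil .nil))))) (.nd (nat_lit 5) (.nd (nat_lit 6) 
(.lf (nat_lit 185109) (.g (nat_lit 470) (.e (nat_lit 57854) (nat_lit 252) (.e (nat_lit 57436) (nat_lit 17) (.e (nat_lit 376840) (nat_lit 11) .nil))) .nil)) 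
(.lf (nat_lit 185173) (.g (nat_lit 2777) (.e (nat_lit 57854) (nat_lit 252) (.e (nat_lit 57445) (nat_lit 19) (.e (nat_lit 393229) (nat_lit 9) (.e (nat_lit 336195) (nat_lit 12) (.e (nat_lit 385068) (nat_lit 26) .nil))))) .nil))) (.nd (nat_lit 6) 
(.lf (nat_lit 185141) (.g (nat_lit 395) (.e (nat_lit 57854) (nat_lit 252) (.e (nat_lit 57445) (nat_lit 19) (.e (nat_lit 393225) (nat_lit 9) .nil))) .nil)) 
(.lf (nat_lit 185205) (.g (nat_lit 1563) (.e (nat_lit 57854) (nat_lit 252) (.e (nat_lit 57447) (nat_lit 19) (.e (nat_lit 393229) (nat_lit 9) (.e (nat_lit 343808) (nat_lit 9) .nil)))) .nil))))) (.nd (nat_lit 4) (.nd (nat_lit 5) (.nd (nat_lit 6) 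
(.lf (nat_lit 185101) (.g (nat_lit 2853) (.e (nat_lit 57854) (nat_lit 252) (.e (nat_lit 57435) (nat_lit 17) (.e (nat_lit 376842) (nat_lit 11) (.e (nat_lit 426315) (nat_lit 12) (.e (nat_lit 475212) (nat_lit 42) (.e (nat_lit 720930) (nat_lit 21) .nil)))))) (.g (nat_lit 5) .nil .nil))) 
(.lf (nat_lit 185165) (.g (nat_lit 1955) (.e (nat_lit 57854) (nat_lit 252) (.e (nat_lit 57445) (nat_lit 19) (.e (nat_lit 393229) (nat_lit 9) (.e (nat_lit 336086) (nat_lit 9) (.e (nat_lit 343808) (nat_lit 18) (.e (nat_lit 204830) (nat_lit 18) .nil)))))) (.g (nat_lit 4) .nil .nil)))) (.nd (nat_lit 6) 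
(.lf (nat_lit 185133) (.g (nat_lit 2950) (.e (nat_lit 57854) (nat_lit 252) (.e (nat_lit 57436) (nat_lit 17) (.e (nat_lit 376860) (nat_lit 21) (.e (nat_lit 57931) (nat_lit 282) (.e (nat_lit 164084) (nat_lit 73) (.e (nat_lit 335986) (nat_lit 1) (.e (nat_lit 57847) (nat_lit 252) (.e (nat_lit 57368) (nat_lit 1) .nil)))))))) (.g (nat_lit 4) .nil .nil))) 
(.lf (nat_lit 185197) (.g (nat_lit 1917) (.e (nat_lit 57854) (nat_lit 252) (.e (nat_lit 57447) (nat_lit 19) (.e (nat_lit 393229) (nat_lit 9) (.e (nat_lit 336078) (nat_lit 9) (.e (nat_lit 336322) (nat_lit 18) .nil))))) .nil)))) (.nd (nat_lit 5) (.nd (nat_lit 6) 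
(.lf (nat_lit 185117) (.g (nat_lit 3227) (.e (nat_lit 57854) (nat_lit 252) (.e (nat_lit 57436) (nat_lit 17) (.e (nat_lit 376842) (nat_lit 11) (.e (nat_lit 426188) (nat_lit 9) (.e (nat_lit 426448) (nat_lit 20) (.e (nat_lit 114712) (nat_lit 21) .nil)))))) (.g (nat_lit 0) .nil .nil))) 
(.lf (nat_lit 185181) (.g (nat_lit 3568) (.e (nat_lit 57854) (nat_lit 252) (.e (nat_lit 57445) (nat_lit 19) (.e (nat_lit 393229) (nat_lit 9) (.e (nat_lit 336203) (nat_lit 12) (.e (nat_lit 385066) (nat_lit 26) (.e (nat_lit 532499) (nat_lit 1) .nil)))))) (.g (nat_lit 6) .nil .nil)))) (.nd (nat_lit 6) 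
(.lf (nat_lit 185149) (.g (nat_lit 4028) (.e (nat_lit 57854) (nat_lit 252) (.e (nat_lit 57445) (nat_lit 19) (.e (nat_lit 393229) (nat_lit 9) (.e (nat_lit 336067) (nat_lit 8) .nil)))) .nil)) 
(.lf (nat_lit 185213) (.g (nat_lit 406) (.e (nat_lit 57854) (nat_lit 252) (.e (nat_lit 57447) (nat_lit 19) (.e (nat_lit 401152) (nat_lit 11) .nil))) .nil))))))) (.nd (nat_lit 2) (.nd (nat_lit 3) (.nd (nat_lit 4) (.nd (nat_lit 5) (.nd (nat_lit 6) 
(.lf (nat_lit 185091) (.g (nat_lit 1805) (.e (nat_lit 57854) (nat_lit 252) (.e (nat_lit 57435) (nat_lit 17) (.e (nat_lit 376842) (nat_lit 11) (.e (nat_lit 426200) (nat_lit 9) (.e (nat_lit 433920) (nat_lit 20) .nil))))) .nil)) 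
(.lf (nat_lit 185155) (.g (nat_lit 1832) (.e (nat_lit 57854) (nat_lit 252) (.e (nat_lit 57445) (nat_lit 19) (.e (nat_lit 393229) (nat_lit 9) (.e (nat_lit 336084) (nat_lit 9) .nil)))) .nil))) (.nd (nat_lit 6) 
(.lf (nat_lit 185123) (.g (nat_lit 1248) (.e (nat_lit 57854) (nat_lit 252) (.e (nat_lit 57436) (nat_lit 17) (.e (nat_lit 376842) (nat_lit 11) (.e (nat_lit 426298) (nat_lit 11) (.e (nat_lit 458776) (nat_lit 18) .nil))))) .nil)) 
(.lf (nat_lit 185187) (.g (nat_lit 1454) (.e (nat_lit 57854) (nat_lit 252) (.e (nat_lit 57447) (nat_lit 19) (.e (nat_lit 393225) (nat_lit 9) (.e (nat_lit 336084) (nat_lit 9) .nil)))) .nil)))) (.nd (nat_lit 5) (.nd (nat_lit 6) 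
(.lf (nat_lit 185107) (.g (nat_lit 500) (.e (nat_lit 57854) (nat_lit 252) (.e (nat_lit 57436) (nat_lit 17) (.e (nat_lit 376838) (nat_lit 11) .nil))) .nil)) 
(.lf (nat_lit 185171) (.g (nat_lit 3633) (.e (nat_lit 57854) (nat_lit 252) (.e (nat_lit 57445) (nat_lit 19) (.e (nat_lit 393229) (nat_lit 9) (.e (nat_lit 336150) (nat_lit 9) .nil)))) .nil))) (.nd (nat_lit 6) 
(.lf (nat_lit 185139) (.g (nat_lit 3366) (.e (nat_lit 57854) (nat_lit 252) (.e (nat_lit 57442) (nat_lit 18) (.e (nat_lit 385081) (nat_lit 38) (.e (nat_lit 688185) (nat_lit 18) (.e (nat_lit 81950) (nat_lit 21) (.e (nat_lit 57848) (nat_lit 252) (.e (nat_lit 57368) (nat_lit 1) .nil))))))) (.g (nat_lit 0) .nil .nil))) 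
(.lf (nat_lit 185203) (.g (nat_lit 2062) (.e (nat_lit 57854) (nat_lit 252) (.e (nat_lit 57447) (nat_lit 19) (.e (nat_lit 393229) (nat_lit 9) (.e (nat_lit 336086) (nat_lit 9) (.e (nat_lit 343808) (nat_lit 18) .nil))))) .nil))))) (.nd (nat_lit 4) (.nd (nat_lit 5) (.nd (nat_lit 6) 
(.lf (nat_lit 185099) (.g (nat_lit 2779) (.e (nat_lit 57854) (nat_lit 252) (.e (nat_lit 57435) (nat_lit 17) (.e (nat_lit 376842) (nat_lit 11) (.e (nat_lit 426314) (nat_lit 12) (.e (nat_lit 475213) (nat_lit 42) (.e (nat_lit 720931) (nat_lit 21) .nil)))))) (.g (nat_lit 6) .nil .nil))) 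
(.lf (nat_lit 185163) (.g (nat_lit 4233) (.e (nat_lit 57854) (nat_lit 252) (.e (nat_lit 57445) (nat_lit 19) (.e (nat_lit 393229) (nat_lit 9) (.e (nat_lit 336086) (nat_lit 9) (.e (nat_lit 336306) (nat_lit 15) (.e (nat_lit 3238) (nat_lit 197) (.e (nat_lit 532500) (nat_lit 1) .nil))))))) (.g (nat_lit 0) .nil .nil)))) (.nd (nat_lit 6) 
(.lf (nat_lit 185131) (.g (nat_lit 2095) (.e (nat_lit 57854) (nat_lit 252) (.e (nat_lit 57436) (nat_lit 17) (.e (nat_lit 376860) (nat_lit 21) (.e (nat_lit 57930) (nat_lit 282) (.e (nat_lit 164084) (nat_lit 73) .nil))))) .nil)) 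
(.lf (nat_lit 185195) (.g (nat_lit 1567) (.e (nat_lit 57854) (nat_lit 252) (.e (nat_lit 57447) (nat_lit 19) (.e (nat_lit 393228) (nat_lit 9) (.e (nat_lit 336194) (nat_lit 12) (.e (nat_lit 385066) (nat_lit 26) .nil))))) .nil)))) (.nd (nat_lit 5) (.nd (nat_lit 6) 
(.lf (nat_lit 185115) (.g (nat_lit 3245) (.e (nat_lit 57854) (nat_lit 252) (.e (nat_lit 57436) (nat_lit 17) (.e (nat_lit 376842) (nat_lit 11) (.e (nat_lit 426188) (nat_lit 9) (.e (nat_lit 426444) (nat_lit 19) (.e (nat_lit 106520) (nat_lit 9) (.e (nat_lit 1172) (nat_lit 87) .nil))))))) (.g (nat_lit 5) .nil .nil))) 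
(.lf (nat_lit 185179) (.g (nat_lit 2135) (.e (nat_lit 57854) (nat_lit 252) (.e (nat_lit 57445) (nat_lit 19) (.e (nat_lit 393229) (nat_lit 9) (.e (nat_lit 336203) (nat_lit 12) (.e (nat_lit 385058) (nat_lit 22) .nil))))) .nil))) (.nd (nat_lit 6) 
(.lf (nat_lit 185147) (.g (nat_lit 316) (.e (nat_lit 57854) (nat_lit 252) (.e (nat_lit 57445) (nat_lit 19) (.e (nat_lit 393229) (nat_lit 9) .nil))) .nil)) 
(.lf (nat_lit 185211) (.g (nat_lit 2692) (.e (nat_lit 57854) (nat_lit 252) (.e (nat_lit 57447) (nat_lit 19) (.e (nat_lit 393229) (nat_lit 9) (.e (nat_lit 336203) (nat_lit 12) (.e (nat_lit 385065) (nat_lit 26) (.e (nat_lit 532500) (nat_lit 1) .nil)))))) (.g (nat_lit 4) .nil .nil))))))) (.nd (nat_lit 3) (.nd (nat_lit 4) (.nd (nat_lit 5) (.nd (nat_lit 6) 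
(.lf (nat_lit 185095) (.g (nat_lit 2284) (.e (nat_lit 57854) (nat_lit 252) (.e (nat_lit 57435) (nat_lit 17) (.e (nat_lit 376842) (nat_lit 11) (.e (nat_lit 426306) (nat_lit 12) (.e (nat_lit 475201) (nat_lit 40) (.e (nat_lit 704620) (nat_lit 9) (.e (nat_lit 1172) (nat_lit 87) .nil))))))) (.g (nat_lit 4) .nil .nil))) 
(.lf (nat_lit 185159) (.g (nat_lit 1759) (.e (nat_lit 57854) (nat_lit 252) (.e (nat_lit 57445) (nat_lit 19) (.e (nat_lit 393229) (nat_lit 9) (.e (nat_lit 336086) (nat_lit 9) (.e (nat_lit 336260) (nat_lit 15) .nil))))) .nil))) (.nd (nat_lit 6) 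
(.lf (nat_lit 185127) (.g (nat_lit 2646) (.e (nat_lit 57854) (nat_lit 252) (.e (nat_lit 57436) (nat_lit 17) (.e (nat_lit 376842) (nat_lit 11) (.e (nat_lit 426315) (nat_lit 12) (.e (nat_lit 475212) (nat_lit 42) (.e (nat_lit 720931) (nat_lit 21) .nil)))))) (.g (nat_lit 5) .nil .nil))) 
(.lf (nat_lit 185191) (.g (nat_lit 1454) (.e (nat_lit 57854) (nat_lit 252) (.e (nat_lit 57447) (nat_lit 19) (.e (nat_lit 393225) (nat_lit 9) (.e (nat_lit 336195) (nat_lit 12) .nil)))) .nil)))) (.nd (nat_lit 5) (.nd (nat_lit 6) 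
(.lf (nat_lit 185111) (.g (nat_lit 889) (.e (nat_lit 57854) (nat_lit 252) (.e (nat_lit 57436) (nat_lit 17) (.e (nat_lit 376842) (nat_lit 11) (.e (nat_lit 426188) (nat_lit 9) .nil)))) .nil)) 
(.lf (nat_lit 185175) (.g (nat_lit 3674) (.e (nat_lit 57854) (nat_lit 252) (.e (nat_lit 57445) (nat_lit 19) (.e (nat_lit 393229) (nat_lit 9) (.e (nat_lit 336201) (nat_lit 12) (.e (nat_lit 385068) (nat_lit 26) (.e (nat_lit 532504) (nat_lit 1) .nil)))))) (.g (nat_lit 6) .nil .nil)))) (.nd (nat_lit 6) 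
(.lf (nat_lit 185143) (.g (nat_lit 1654) (.e (nat_lit 57854) (nat_lit 252) (.e (nat_lit 57445) (nat_lit 19) (.e (nat_lit 393225) (nat_lit 9) (.e (nat_lit 336195) (nat_lit 12) (.e (nat_lit 385066) (nat_lit 26) .nil))))) .nil)) 
(.lf (nat_lit 185207) (.g (nat_lit 1741) (.e (nat_lit 57854) (nat_lit 252) (.e (nat_lit 57447) (nat_lit 19) (.e (nat_lit 393229) (nat_lit 9) (.e (nat_lit 336195) (nat_lit 12) .nil)))) .nil))))) (.nd (nat_lit 4) (.nd (nat_lit 5) (.nd (nat_lit 6) 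
(.lf (nat_lit 185103) (.g (nat_lit 2802) (.e (nat_lit 57854) (nat_lit 252) (.e (nat_lit 57435) (nat_lit 17) (.e (nat_lit 376842) (nat_lit 11) (.e (nat_lit 426315) (nat_lit 12) (.e (nat_lit 475212) (nat_lit 42) (.e (nat_lit 720934) (nat_lit 21) .nil)))))) (.g (nat_lit 5) .nil .nil))) 
(.lf (nat_lit 185167) (.g (nat_lit 2562) (.e (nat_lit 57854) (nat_lit 252) (.e (nat_lit 57445) (nat_lit 19) (.e (nat_lit 393229) (nat_lit 9) (.e (nat_lit 336087) (nat_lit 9) .nil)))) .nil))) (.nd (nat_lit 6) 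
(.lf (nat_lit 185135) (.g (nat_lit 1195) (.e (nat_lit 57854) (nat_lit 252) (.e (nat_lit 57440) (nat_lit 18) (.e (nat_lit 385068) (nat_lit 26) (.e (nat_lit 532550) (nat_lit 12) .nil)))) .nil)) 
(.lf (nat_lit 185199) (.g (nat_lit 1095) (.e (nat_lit 57854) (nat_lit 252) (.e (nat_lit 57447) (nat_lit 19) (.e (nat_lit 393229) (nat_lit 9) (.e (nat_lit 336086) (nat_lit 9) .nil)))) .nil)))) (.nd (nat_lit 5) (.nd (nat_lit 6) 
(.lf (nat_lit 185119) (.g (nat_lit 2803) (.e (nat_lit 57854) (nat_lit 252) (.e (nat_lit 57436) (nat_lit 17) (.e (nat_lit 376842) (nat_lit 11) (.e (nat_lit 426197) (nat_lit 9) (.e (nat_lit 426448) (nat_lit 20) (.e (nat_lit 114711) (nat_lit 21) .nil)))))) (.g (nat_lit 6) .nil .nil))) 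
(.lf (nat_lit 185183) (.g (nat_lit 275) (.e (nat_lit 57854) (nat_lit 252) (.e (nat_lit 57445) (nat_lit 19) (.e (nat_lit 401152) (nat_lit 11) .nil))) .nil))) (.nd (nat_lit 6) 
(.lf (nat_lit 185151) (.g (nat_lit 2012) (.e (nat_lit 57854) (nat_lit 252) (.e (nat_lit 57445) (nat_lit 19) (.e (nat_lit 393229) (nat_lit 9) (.e (nat_lit 336073) (nat_lit 9) .nil)))) .nil)) 
(.lf (nat_lit 185215) (.g (nat_lit 1662) (.e (nat_lit 57854) (nat_lit 252) (.e (nat_lit 57447) (nat_lit 19) (.e (nat_lit 393234) (nat_lit 17) (.e (nat_lit 2401) (nat_lit 157) .nil)))) .nil)))))))))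

noncomputable def tv2464 : DT := (.nd (nat_lit 0) (.nd (nat_lit 1) (.nd (nat_lit 2) (.nd (nat_lit 3) (.nd (nat_lit 4) (.nd (nat_lit 5) (.nd (nat_lit 6) 
(.lf (nat_lit 185216) (.g (nat_lit 1674) (.e (nat_lit 57854) (nat_lit 252) (.e (nat_lit 57447) (nat_lit 19) (.e (nat_lit 393234) (nat_lit 17) (.e (nat_lit 2405) (nat_lit 157) .nil)))) .nil)) 
(.lf (nat_lit 185280) (.g (nat_lit 1295) (.e (nat_lit 57857) (nat_lit 254) (.e (nat_lit 163920) (nat_lit 14) (.e (nat_lit 442430) (nat_lit 24) (.e (nat_lit 237312) (nat_lit 229) .nil)))) .nil))) (.nd (nat_lit 6) 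
(.lf (nat_lit 185248) (.g (nat_lit 1696) (.e (nat_lit 57857) (nat_lit 254) (.e (nat_lit 163907) (nat_lit 12) (.e (nat_lit 426320) (nat_lit 12) (.e (nat_lit 475193) (nat_lit 38) .nil)))) .nil)) 
(.lf (nat_lit 185312) (.g (nat_lit 1802) (.e (nat_lit 65280) (nat_lit 258) (.e (nat_lit 24651) (nat_lit 12) (.e (nat_lit 385094) (nat_lit 49) (.e (nat_lit 778323) (nat_lit 5) (.e (nat_lit 73794) (nat_lit 46) .nil))))) .nil)))) (.nd (nat_lit 5) (.nd (nat_lit 6) 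
(.lf (nat_lit 185232) (.g (nat_lit 2385) (.e (nat_lit 65280) (nat_lit 252) (.e (nat_lit 57445) (nat_lit 19) (.e (nat_lit 393229) (nat_lit 9) (.e (nat_lit 336086) (nat_lit 9) .nil)))) .nil)) 
(.lf (nat_lit 185296) (.g (nat_lit 473) (.e (nat_lit 57863) (nat_lit 256) (.e (nat_lit 300) (nat_lit 22) (.e (nat_lit 344084) (nat_lit 14) (.e (nat_lit 57865) (nat_lit 256) (.e (nat_lit 300) (nat_lit 22) (.e (nat_lit 344084) (nat_lit 14) .nil)))))) (.g (nat_lit 0) .nil .nil)))) (.nd (nat_lit 6) 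
(.lf (nat_lit 185264) (.g (nat_lit 922) (.e (nat_lit 57857) (nat_lit 254) (.e (nat_lit 163908) (nat_lit 12) (.e (nat_lit 426290) (nat_lit 10) (.e (nat_lit 434269) (nat_lit 36) .nil)))) .nil)) 
(.lf (nat_lit 185328) (.g (nat_lit 3415) (.e (nat_lit 57870) (nat_lit 264) (.e (nat_lit 1181) (nat_lit 87) (.e (nat_lit 57479) (nat_lit 28) (.e (nat_lit 557109) (nat_lit 15) (.e (nat_lit 188452) (nat_lit 23) .nil))))) .nil))))) (.nd (nat_lit 4) (.nd (nat_lit 5) (.nd (nat_lit 6) 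
(.lf (nat_lit 185224) (.g (nat_lit 4135) (.e (nat_lit 65280) (nat_lit 252) (.e (nat_lit 57377) (nat_lit 3) (.e (nat_lit 98317) (nat_lit 9) (.e (nat_lit 336076) (nat_lit 9) .nil)))) .nil)) 
(.lf (nat_lit 185288) (.g (nat_lit 2018) (.e (nat_lit 57859) (nat_lit 255) (.e (nat_lit 229412) (nat_lit 14) (.e (nat_lit 442421) (nat_lit 21) (.e (nat_lit 164320) (nat_lit 229) .nil)))) .nil))) (.nd (nat_lit 6) 
(.lf (nat_lit 185256) (.g (nat_lit 401) (.e (nat_lit 57857) (nat_lit 254) (.e (nat_lit 163908) (nat_lit 12) (.e (nat_lit 426286) (nat_lit 10) .nil))) .nil)) 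
(.lf (nat_lit 185320) (.g (nat_lit 1289) (.e (nat_lit 57869) (nat_lit 264) (.e (nat_lit 1196) (nat_lit 88) (.e (nat_lit 65624) (nat_lit 12) (.e (nat_lit 385094) (nat_lit 49) (.e (nat_lit 778326) (nat_lit 6) .nil))))) .nil)))) (.nd (nat_lit 5) (.nd (nat_lit 6) 
(.lf (nat_lit 185240) (.g (nat_lit 2011) (.e (nat_lit 57856) (nat_lit 253) (.e (nat_lit 122919) (nat_lit 15) (.e (nat_lit 360451) (nat_lit 0) (.e (nat_lit 6923) (nat_lit 371) (.e (nat_lit 2618) (nat_lit 164) .nil))))) .nil)) 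
(.lf (nat_lit 185304) (.g (nat_lit 362) (.e (nat_lit 57864) (nat_lit 256) (.e (nat_lit 280) (nat_lit 21) (.e (nat_lit 335874) (nat_lit 0) (.e (nat_lit 6719) (nat_lit 361) (.e (nat_lit 179968) (nat_lit 31) .nil))))) .nil))) (.nd (nat_lit 6) 
(.lf (nat_lit 185272) (.g (nat_lit 850) (.e (nat_lit 57857) (nat_lit 254) (.e (nat_lit 163920) (nat_lit 14) (.e (nat_lit 442414) (nat_lit 20) (.e (nat_lit 3386) (nat_lit 210) .nil)))) .nil)) 
(.lf (nat_lit 185336) (.g (nat_lit 1906) (.e (nat_lit 57870) (nat_lit 264) (.e (nat_lit 1182) (nat_lit 87) (.e (nat_lit 57480) (nat_lit 28) (.e (nat_lit 557107) (nat_lit 15) (.e (nat_lit 188450) (nat_lit 23) .nil))))) .nil)))))) (.nd (nat_lit 3) (.nd (nat_lit 4) (.nd (nat_lit 5) (.nd (nat_lit 6) 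
(.lf (nat_lit 185220) (.g (nat_lit 1618) (.e (nat_lit 57854) (nat_lit 252) (.e (nat_lit 57447) (nat_lit 19) (.e (nat_lit 393251) (nat_lit 18) (.e (nat_lit 164325) (nat_lit 230) .nil)))) .nil)) 
(.lf (nat_lit 185284) (.g (nat_lit 635) (.e (nat_lit 57857) (nat_lit 254) (.e (nat_lit 163923) (nat_lit 15) (.e (nat_lit 450563) (nat_lit 0) .nil))) .nil))) (.nd (nat_lit 6) 
(.lf (nat_lit 185252) (.g (nat_lit 962) (.e (nat_lit 57857) (nat_lit 254) (.e (nat_lit 163908) (nat_lit 12) (.e (nat_lit 426285) (nat_lit 10) (.e (nat_lit 434266) (nat_lit 35) .nil)))) .nil)) 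
(.lf (nat_lit 185316) (.g (nat_lit 1249) (.e (nat_lit 65280) (nat_lit 258) (.e (nat_lit 24665) (nat_lit 14) (.e (nat_lit 401434) (nat_lit 9) (.e (nat_lit 426550) (nat_lit 31) .nil)))) .nil)))) (.nd (nat_lit 5) (.nd (nat_lit 6) 
(.lf (nat_lit 185236) (.g (nat_lit 1706) (.e (nat_lit 57855) (nat_lit 253) (.e (nat_lit 122919) (nat_lit 15) (.e (nat_lit 360451) (nat_lit 0) (.e (nat_lit 6923) (nat_lit 371) (.e (nat_lit 2619) (nat_lit 164) .nil))))) .nil)) 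
(.lf (nat_lit 185300) (.g (nat_lit 1959) (.e (nat_lit 57864) (nat_lit 256) (.e (nat_lit 59) (nat_lit 0) (.e (nat_lit 1859) (nat_lit 124) (.e (nat_lit 557107) (nat_lit 15) (.e (nat_lit 188447) (nat_lit 22) (.e (nat_lit 196661) (nat_lit 12) (.e (nat_lit 57721) (nat_lit 177) .nil))))))) (.g (nat_lit 7) .nil .nil)))) (.nd (nat_lit 6) 
(.lf (nat_lit 185268) (.g (nat_lit 1406) (.e (nat_lit 57857) (nat_lit 254) (.e (nat_lit 163920) (nat_lit 14) (.e (nat_lit 442374) (nat_lit 0) (.e (nat_lit 2024) (nat_lit 140) .nil)))) .nil)) 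
(.lf (nat_lit 185332) (.g (nat_lit 4305) (.e (nat_lit 57870) (nat_lit 264) (.e (nat_lit 1182) (nat_lit 87) (.e (nat_lit 57479) (nat_lit 28) (.e (nat_lit 557101) (nat_lit 13) (.e (nat_lit 172097) (nat_lit 9) (.e (nat_lit 426140) (nat_lit 3) (.e (nat_lit 204855) (nat_lit 26) (.e (nat_lit 335985) (nat_lit 1) .nil)))))))) (.g (nat_lit 7) .nil .nil)))))) 
(.nd (nat_lit 4) (.nd (nat_lit 5) (.nd (nat_lit 6) 
(.lf (nat_lit 185228) (.g (nat_lit 4274) (.e (nat_lit 65280) (nat_lit 252) (.e (nat_lit 57377) (nat_lit 3) (.e (nat_lit 98317) (nat_lit 9) (.e (nat_lit 336215) (nat_lit 13) .nil)))) .nil)) 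
(.lf (nat_lit 185292) (.g (nat_lit 1385) (.e (nat_lit 57862) (nat_lit 256) (.e (nat_lit 317) (nat_lit 23) (.e (nat_lit 352318) (nat_lit 24) (.e (nat_lit 123182) (nat_lit 264) (.e (nat_lit 1214) (nat_lit 89) .nil))))) .nil))) (.nd (nat_lit 6) 
(.lf (nat_lit 185260) (.g (nat_lit 1640) (.e (nat_lit 57857) (nat_lit 254) (.e (nat_lit 163908) (nat_lit 12) (.e (nat_lit 426286) (nat_lit 10) (.e (nat_lit 434268) (nat_lit 36) (.e (nat_lit 639023) (nat_lit 18) .nil))))) .nil)) 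
(.lf (nat_lit 185324) (.g (nat_lit 3690) (.e (nat_lit 57870) (nat_lit 264) (.e (nat_lit 1171) (nat_lit 87) (.e (nat_lit 57478) (nat_lit 28) (.e (nat_lit 557109) (nat_lit 15) (.e (nat_lit 188452) (nat_lit 23) (.e (nat_lit 204850) (nat_lit 26) (.e (nat_lit 335997) (nat_lit 1) .nil))))))) (.g (nat_lit 0) .nil .nil))))) (.nd (nat_lit 5) (.nd (nat_lit 6) 
(.lf (nat_lit 185244) (.g (nat_lit 2590) (.e (nat_lit 57857) (nat_lit 254) (.e (nat_lit 163902) (nat_lit 12) (.e (nat_lit 426438) (nat_lit 18) (.e (nat_lit 98373) (nat_lit 29) (.e (nat_lit 458496) (nat_lit 24) .nil))))) .nil)) 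
(.lf (nat_lit 185308) (.g (nat_lit 1363) (.e (nat_lit 57865) (nat_lit 256) (.e (nat_lit 257) (nat_lit 21) (.e (nat_lit 336200) (nat_lit 12) (.e (nat_lit 385094) (nat_lit 49) (.e (nat_lit 778323) (nat_lit 5) .nil))))) .nil))) (.nd (nat_lit 6) 
(.lf (nat_lit 185276) (.g (nat_lit 1229) (.e (nat_lit 57857) (nat_lit 254) (.e (nat_lit 163920) (nat_lit 14) (.e (nat_lit 442430) (nat_lit 24) (.e (nat_lit 229629) (nat_lit 226) .nil)))) .nil)) 
(.lf (nat_lit 185340) (.g (nat_lit 1527) (.e (nat_lit 57870) (nat_lit 264) (.e (nat_lit 1188) (nat_lit 88) (.e (nat_lit 65630) (nat_lit 14) (.e (nat_lit 401458) (nat_lit 13) (.e (nat_lit 483393) (nat_lit 23) .nil))))) .nil))))))) (.nd (nat_lit 2) (.nd (nat_lit 3) (.nd (nat_lit 4) (.nd (nat_lit 5) (.nd (nat_lit 6) 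
(.lf (nat_lit 185218) (.g (nat_lit 1570) (.e (nat_lit 57854) (nat_lit 252) (.e (nat_lit 57447) (nat_lit 19) (.e (nat_lit 393238) (nat_lit 17) (.e (nat_lit 3543) (nat_lit 219) .nil)))) .nil)) 
(.lf (nat_lit 185282) (.g (nat_lit 1721) (.e (nat_lit 57857) (nat_lit 254) (.e (nat_lit 163923) (nat_lit 15) (.e (nat_lit 450562) (nat_lit 0) (.e (nat_lit 5122) (nat_lit 292) .nil)))) .nil))) (.nd (nat_lit 6) 
(.lf (nat_lit 185250) (.g (nat_lit 343) (.e (nat_lit 57857) (nat_lit 254) (.e (nat_lit 163908) (nat_lit 12) (.e (nat_lit 426285) (nat_lit 10) .nil))) .nil)) 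
(.lf (nat_lit 185314) (.g (nat_lit 2147) (.e (nat_lit 65280) (nat_lit 258) (.e (nat_lit 24662) (nat_lit 14) (.e (nat_lit 401459) (nat_lit 13) (.e (nat_lit 483350) (nat_lit 17) (.e (nat_lit 6210) (nat_lit 333) .nil))))) .nil)))) (.nd (nat_lit 5) (.nd (nat_lit 6) 
(.lf (nat_lit 185234) (.g (nat_lit 1491) (.e (nat_lit 57855) (nat_lit 253) (.e (nat_lit 122919) (nat_lit 15) (.e (nat_lit 360451) (nat_lit 0) (.e (nat_lit 6923) (nat_lit 371) .nil)))) .nil)) 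
(.lf (nat_lit 185298) (.g (nat_lit 396) (.e (nat_lit 57863) (nat_lit 256) (.e (nat_lit 317) (nat_lit 23) (.e (nat_lit 352264) (nat_lit 0) (.e (nat_lit 3714) (nat_lit 227) (.e (nat_lit 786176) (nat_lit 5) .nil))))) .nil))) (.nd (nat_lit 6) 
(.lf (nat_lit 185266) (.g (nat_lit 909) (.e (nat_lit 57857) (nat_lit 254) (.e (nat_lit 163908) (nat_lit 12) (.e (nat_lit 426309) (nat_lit 12) (.e (nat_lit 475193) (nat_lit 38) (.e (nat_lit 688185) (nat_lit 18) .nil))))) .nil)) 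
(.lf (nat_lit 185330) (.g (nat_lit 2939) (.e (nat_lit 57870) (nat_lit 264) (.e (nat_lit 1182) (nat_lit 87) (.e (nat_lit 57479) (nat_lit 28) (.e (nat_lit 557095) (nat_lit 13) (.e (nat_lit 172097) (nat_lit 9) .nil))))) .nil))))) (.nd (nat_lit 4) (.nd (nat_lit 5) (.nd (nat_lit 6) 
(.lf (nat_lit 185226) (.g (nat_lit 4145) (.e (nat_lit 65280) (nat_lit 252) (.e (nat_lit 57377) (nat_lit 3) (.e (nat_lit 98317) (nat_lit 9) (.e (nat_lit 336086) (nat_lit 9) .nil)))) .nil)) 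
(.lf (nat_lit 185290) (.g (nat_lit 389) (.e (nat_lit 57862) (nat_lit 256) (.e (nat_lit 317) (nat_lit 23) (.e (nat_lit 352264) (nat_lit 0) (.e (nat_lit 3711) (nat_lit 227) (.e (nat_lit 786176) (nat_lit 5) .nil))))) .nil))) (.nd (nat_lit 6) 
(.lf (nat_lit 185258) (.g (nat_lit 985) (.e (nat_lit 57857) (nat_lit 254) (.e (nat_lit 163908) (nat_lit 12) (.e (nat_lit 426286) (nat_lit 10) (.e (nat_lit 434266) (nat_lit 35) .nil)))) .nil)) 
(.lf (nat_lit 185322) (.g (nat_lit 3689) (.e (nat_lit 57870) (nat_lit 264) (.e (nat_lit 1170) (nat_lit 87) (.e (nat_lit 57480) (nat_lit 28) (.e (nat_lit 557109) (nat_lit 15) (.e (nat_lit 188452) (nat_lit 23) (.e (nat_lit 204850) (nat_lit 26) (.e (nat_lit 335997) (nat_lit 1) .nil))))))) (.g (nat_lit 0) .nil .nil))))) (.nd (nat_lit 5) (.nd (nat_lit 6) 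
(.lf (nat_lit 185242) (.g (nat_lit 2226) (.e (nat_lit 57857) (nat_lit 254) (.e (nat_lit 163902) (nat_lit 12) (.e (nat_lit 426428) (nat_lit 17) (.e (nat_lit 90178) (nat_lit 15) (.e (nat_lit 188459) (nat_lit 26) .nil))))) .nil)) 
(.lf (nat_lit 185306) (.g (nat_lit 394) (.e (nat_lit 57864) (nat_lit 256) (.e (nat_lit 317) (nat_lit 23) (.e (nat_lit 352264) (nat_lit 0) (.e (nat_lit 3711) (nat_lit 227) (.e (nat_lit 786176) (nat_lit 5) (.e (nat_lit 73794) (nat_lit 46) .nil)))))) (.g (nat_lit 4) .nil .nil)))) (.nd (nat_lit 6) 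
(.lf (nat_lit 185274) (.g (nat_lit 1013) (.e (nat_lit 57857) (nat_lit 254) (.e (nat_lit 163920) (nat_lit 14) (.e (nat_lit 442420) (nat_lit 21) (.e (nat_lit 164320) (nat_lit 229) .nil)))) .nil)) 
(.lf (nat_lit 185338) (.g (nat_lit 1718) (.e (nat_lit 57870) (nat_lit 264) (.e (nat_lit 1188) (nat_lit 88) (.e (nat_lit 65624) (nat_lit 12) (.e (nat_lit 385092) (nat_lit 49) (.e (nat_lit 778326) (nat_lit 6) (.e (nat_lit 81948) (nat_lit 21) .nil)))))) (.g (nat_lit 4) .nil .nil))))))) (.nd (nat_lit 3) (.nd (nat_lit 4) (.nd (nat_lit 5) (.nd (nat_lit 6) 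
(.lf (nat_lit 185222) (.g (nat_lit 2021) (.e (nat_lit 57854) (nat_lit 252) (.e (nat_lit 57447) (nat_lit 19) (.e (nat_lit 393252) (nat_lit 18) (.e (nat_lit 164330) (nat_lit 230) (.e (nat_lit 171776) (nat_lit 66) .nil))))) .nil)) 
(.lf (nat_lit 185286) (.g (nat_lit 1532) (.e (nat_lit 57857) (nat_lit 254) (.e (nat_lit 163933) (nat_lit 17) (.e (nat_lit 466971) (nat_lit 21) (.e (nat_lit 164308) (nat_lit 226) .nil)))) .nil))) (.nd (nat_lit 6) 
(.lf (nat_lit 185254) (.g (nat_lit 1619) (.e (nat_lit 57857) (nat_lit 254) (.e (nat_lit 163908) (nat_lit 12) (.e (nat_lit 426285) (nat_lit 10) (.e (nat_lit 434268) (nat_lit 36) (.e (nat_lit 639021) (nat_lit 16) .nil))))) .nil)) 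
(.lf (nat_lit 185318) (.g (nat_lit 1289) (.e (nat_lit 57868) (nat_lit 264) (.e (nat_lit 1196) (nat_lit 88) (.e (nat_lit 65624) (nat_lit 12) (.e (nat_lit 385094) (nat_lit 49) (.e (nat_lit 778326) (nat_lit 6) .nil))))) .nil)))) (.nd (nat_lit 5) (.nd (nat_lit 6) 
(.lf (nat_lit 185238) (.g (nat_lit 1690) (.e (nat_lit 57855) (nat_lit 253) (.e (nat_lit 122919) (nat_lit 15) (.e (nat_lit 360451) (nat_lit 0) (.e (nat_lit 6940) (nat_lit 375) .nil)))) .nil)) 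
(.lf (nat_lit 185302) (.g (nat_lit 127) (.e (nat_lit 57864) (nat_lit 256) (.e (nat_lit 280) (nat_lit 21) (.e (nat_lit 335872) (nat_lit 0) .nil))) .nil))) (.nd (nat_lit 6) 
(.lf (nat_lit 185270) (.g (nat_lit 705) (.e (nat_lit 57857) (nat_lit 254) (.e (nat_lit 163920) (nat_lit 14) (.e (nat_lit 442395) (nat_lit 20) .nil))) .nil)) 
(.lf (nat_lit 185334) (.g (nat_lit 5666) (.e (nat_lit 57870) (nat_lit 264) (.e (nat_lit 1182) (nat_lit 87) (.e (nat_lit 57479) (nat_lit 28) (.e (nat_lit 557101) (nat_lit 13) (.e (nat_lit 172115) (nat_lit 10) (.e (nat_lit 434231) (nat_lit 23) (.e (nat_lit 532535) (nat_lit 9) (.e (nat_lit 335992) (nat_lit 1) .nil)))))))) (.g (nat_lit 7) .nil .nil)))))) 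
(.nd (nat_lit 4) (.nd (nat_lit 5) (.nd (nat_lit 6) 
(.lf (nat_lit 185230) (.g (nat_lit 3993) (.e (nat_lit 65280) (nat_lit 252) (.e (nat_lit 57445) (nat_lit 19) (.e (nat_lit 393229) (nat_lit 9) (.e (nat_lit 336076) (nat_lit 9) .nil)))) .nil)) 
(.lf (nat_lit 185294) (.g (nat_lit 384) (.e (nat_lit 57863) (nat_lit 256) (.e (nat_lit 280) (nat_lit 21) (.e (nat_lit 335872) (nat_lit 0) (.e (nat_lit 6719) (nat_lit 361) .nil)))) .nil))) (.nd (nat_lit 6) 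
(.lf (nat_lit 185262) (.g (nat_lit 1068) (.e (nat_lit 57857) (nat_lit 254) (.e (nat_lit 163908) (nat_lit 12) (.e (nat_lit 426286) (nat_lit 10) (.e (nat_lit 434279) (nat_lit 39) .nil)))) .nil)) 
(.lf (nat_lit 185326) (.g (nat_lit 2648) (.e (nat_lit 57870) (nat_lit 264) (.e (nat_lit 1181) (nat_lit 87) (.e (nat_lit 57479) (nat_lit 28) (.e (nat_lit 557095) (nat_lit 13) (.e (nat_lit 172115) (nat_lit 10) .nil))))) .nil)))) (.nd (nat_lit 5) (.nd (nat_lit 6) 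
(.lf (nat_lit 185246) (.g (nat_lit 2552) (.e (nat_lit 57857) (nat_lit 254) (.e (nat_lit 163903) (nat_lit 12) (.e (nat_lit 426428) (nat_lit 17) (.e (nat_lit 90178) (nat_lit 15) (.e (nat_lit 188459) (nat_lit 26) .nil))))) .nil)) 
(.lf (nat_lit 185310) (.g (nat_lit 2712) (.e (nat_lit 65280) (nat_lit 257) (.e (nat_lit 8326) (nat_lit 69) (.e (nat_lit 557098) (nat_lit 13) (.e (nat_lit 172115) (nat_lit 10) (.e (nat_lit 434231) (nat_lit 23) .nil))))) .nil))) (.nd (nat_lit 6) 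
(.lf (nat_lit 185278) (.g (nat_lit 1453) (.e (nat_lit 57857) (nat_lit 254) (.e (nat_lit 163920) (nat_lit 14) (.e (nat_lit 442430) (nat_lit 24) (.e (nat_lit 229630) (nat_lit 226) (.e (nat_lit 1194) (nat_lit 88) .nil))))) .nil)) 
(.lf (nat_lit 185342) (.g (nat_lit 3219) (.e (nat_lit 57870) (nat_lit 264) (.e (nat_lit 1188) (nat_lit 88) (.e (nat_lit 65630) (nat_lit 14) (.e (nat_lit 401459) (nat_lit 13) (.e (nat_lit 483344) (nat_lit 17) (.e (nat_lit 6436) (nat_lit 343) (.e (nat_lit 1183) (nat_lit 87) .nil))))))) (.g (nat_lit 5) .nil .nil))))))))) 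
(.nd (nat_lit 1) (.nd (nat_lit 2) (.nd (nat_lit 3) (.nd (nat_lit 4) (.nd (nat_lit 5) 
(.nd (nat_lit 6) 
(.lf (nat_lit 185217) (.g (nat_lit 786) (.e (nat_lit 57854) (nat_lit 252) (.e (nat_lit 57447) (nat_lit 19) (.e (nat_lit 393238) (nat_lit 17) .nil))) .nil)) 
(.lf (nat_lit 185281) (.g (nat_lit 651) (.e (nat_lit 57857) (nat_lit 254) (.e (nat_lit 163923) (nat_lit 15) (.e (nat_lit 450560) (nat_lit 0) .nil))) .nil))) (.nd (nat_lit 6) 
(.lf (nat_lit 185249) (.g (nat_lit 548) (.e (nat_lit 57857) (nat_lit 254) (.e (nat_lit 163908) (nat_lit 12) (.e (nat_lit 426166) (nat_lit 7) .nil))) .nil)) 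
(.lf (nat_lit 185313) (.g (nat_lit 2119) (.e (nat_lit 65280) (nat_lit 258) (.e (nat_lit 24662) (nat_lit 14) (.e (nat_lit 401438) (nat_lit 9) (.e (nat_lit 426550) (nat_lit 31) (.e (nat_lit 368656) (nat_lit 14) .nil))))) .nil)))) (.nd (nat_lit 5) (.nd (nat_lit 6) 
(.lf (nat_lit 185233) (.g (nat_lit 3322) (.e (nat_lit 65280) (nat_lit 252) (.e (nat_lit 57445) (nat_lit 19) (.e (nat_lit 393229) (nat_lit 9) (.e (nat_lit 336088) (nat_lit 9) .nil)))) .nil)) 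
(.lf (nat_lit 185297) (.g (nat_lit 390) (.e (nat_lit 57863) (nat_lit 256) (.e (nat_lit 317) (nat_lit 23) (.e (nat_lit 352264) (nat_lit 0) (.e (nat_lit 3711) (nat_lit 227) (.e (nat_lit 786176) (nat_lit 5) .nil))))) .nil))) (.nd (nat_lit 6) 
(.lf (nat_lit 185265) (.g (nat_lit 1386) (.e (nat_lit 57857) (nat_lit 254) (.e (nat_lit 163908) (nat_lit 12) (.e (nat_lit 426305) (nat_lit 12) (.e (nat_lit 475193) (nat_lit 38) .nil)))) .nil)) 
(.lf (nat_lit 185329) (.g (nat_lit 2359) (.e (nat_lit 57870) (nat_lit 264) (.e (nat_lit 1181) (nat_lit 87) (.e (nat_lit 57480) (nat_lit 28) (.e (nat_lit 557107) (nat_lit 15) (.e (nat_lit 188450) (nat_lit 23) .nil))))) .nil))))) (.nd (nat_lit 4) (.nd (nat_lit 5) (.nd (nat_lit 6) 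
(.lf (nat_lit 185225) (.g (nat_lit 4246) (.e (nat_lit 65280) (nat_lit 252) (.e (nat_lit 57377) (nat_lit 3) (.e (nat_lit 98317) (nat_lit 9) (.e (nat_lit 336078) (nat_lit 9) .nil)))) .nil)) 
(.lf (nat_lit 185289) (.g (nat_lit 2920) (.e (nat_lit 57862) (nat_lit 256) (.e (nat_lit 60) (nat_lit 0) (.e (nat_lit 1859) (nat_lit 124) (.e (nat_lit 557109) (nat_lit 15) (.e (nat_lit 188449) (nat_lit 22) (.e (nat_lit 196661) (nat_lit 12) (.e (nat_lit 57721) (nat_lit 177) .nil))))))) (.g (nat_lit 0) .nil .nil)))) (.nd (nat_lit 6) 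
(.lf (nat_lit 185257) (.g (nat_lit 1091) (.e (nat_lit 57857) (nat_lit 254) (.e (nat_lit 163908) (nat_lit 12) (.e (nat_lit 426286) (nat_lit 10) (.e (nat_lit 434265) (nat_lit 35) .nil)))) .nil)) 
(.lf (nat_lit 185321) (.g (nat_lit 525) (.e (nat_lit 57870) (nat_lit 264) (.e (nat_lit 992) (nat_lit 81) (.e (nat_lit 1598) (nat_lit 111) (.e (nat_lit 360466) (nat_lit 3) .nil)))) .nil)))) (.nd (nat_lit 5) (.nd (nat_lit 6) 
(.lf (nat_lit 185241) (.g (nat_lit 578) (.e (nat_lit 57857) (nat_lit 254) (.e (nat_lit 163850) (nat_lit 0) (.e (nat_lit 3216) (nat_lit 196) (.e (nat_lit 524320) (nat_lit 12) .nil)))) .nil)) 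
(.lf (nat_lit 185305) (.g (nat_lit 568) (.e (nat_lit 57864) (nat_lit 256) (.e (nat_lit 300) (nat_lit 22) (.e (nat_lit 344084) (nat_lit 14) (.e (nat_lit 57864) (nat_lit 256) (.e (nat_lit 300) (nat_lit 22) (.e (nat_lit 344084) (nat_lit 14) .nil)))))) (.g (nat_lit 0) .nil .nil)))) (.nd (nat_lit 6) 
(.lf (nat_lit 185273) (.g (nat_lit 2025) (.e (nat_lit 57857) (nat_lit 254) (.e (nat_lit 163920) (nat_lit 14) (.e (nat_lit 442419) (nat_lit 21) (.e (nat_lit 164321) (nat_lit 229) (.e (nat_lit 122916) (nat_lit 14) .nil))))) .nil)) 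
(.lf (nat_lit 185337) (.g (nat_lit 4156) (.e (nat_lit 57870) (nat_lit 264) (.e (nat_lit 1182) (nat_lit 87) (.e (nat_lit 57480) (nat_lit 28) (.e (nat_lit 557109) (nat_lit 15) (.e (nat_lit 188452) (nat_lit 23) (.e (nat_lit 204855) (nat_lit 26) (.e (nat_lit 335992) (nat_lit 1) .nil))))))) (.g (nat_lit 6) .nil .nil))))))) (.nd (nat_lit 3) (.nd (nat_lit 4) (.nd (nat_lit 5) (.nd (nat_lit 6) 
(.lf (nat_lit 185221) (.g (nat_lit 807) (.e (nat_lit 57854) (nat_lit 252) (.e (nat_lit 57447) (nat_lit 19) (.e (nat_lit 393252) (nat_lit 18) .nil))) .nil)) 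
(.lf (nat_lit 185285) (.g (nat_lit 1806) (.e (nat_lit 57857) (nat_lit 254) (.e (nat_lit 163923) (nat_lit 15) (.e (nat_lit 450563) (nat_lit 0) (.e (nat_lit 5207) (nat_lit 295) .nil)))) .nil))) (.nd (nat_lit 6) 
(.lf (nat_lit 185253) (.g (nat_lit 1675) (.e (nat_lit 57857) (nat_lit 254) (.e (nat_lit 163908) (nat_lit 12) (.e (nat_lit 426285) (nat_lit 10) (.e (nat_lit 434268) (nat_lit 36) (.e (nat_lit 639005) (nat_lit 13) .nil))))) .nil)) 
(.lf (nat_lit 185317) (.g (nat_lit 1572) (.e (nat_lit 65280) (nat_lit 258) (.e (nat_lit 24665) (nat_lit 14) (.e (nat_lit 401444) (nat_lit 9) (.e (nat_lit 426549) (nat_lit 31) .nil)))) .nil)))) (.nd (nat_lit 5) (.nd (nat_lit 6) 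
(.lf (nat_lit 185237) (.g (nat_lit 2540) (.e (nat_lit 57855) (nat_lit 253) (.e (nat_lit 122919) (nat_lit 15) (.e (nat_lit 360451) (nat_lit 0) (.e (nat_lit 6923) (nat_lit 371) (.e (nat_lit 2628) (nat_lit 164) (.e (nat_lit 179968) (nat_lit 20) (.e (nat_lit 114712) (nat_lit 21) .nil))))))) (.g (nat_lit 5) .nil .nil))) 
(.lf (nat_lit 185301) (.g (nat_lit 2480) (.e (nat_lit 57864) (nat_lit 256) (.e (nat_lit 59) (nat_lit 0) (.e (nat_lit 1859) (nat_lit 124) (.e (nat_lit 557109) (nat_lit 15) (.e (nat_lit 188449) (nat_lit 22) (.e (nat_lit 196661) (nat_lit 12) (.e (nat_lit 57721) (nat_lit 177) .nil))))))) (.g (nat_lit 7) .nil .nil)))) (.nd (nat_lit 6) 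
(.lf (nat_lit 185269) (.g (nat_lit 752) (.e (nat_lit 57857) (nat_lit 254) (.e (nat_lit 163920) (nat_lit 14) (.e (nat_lit 442378) (nat_lit 0) .nil))) .nil)) 
(.lf (nat_lit 185333) (.g (nat_lit 4643) (.e (nat_lit 57870) (nat_lit 264) (.e (nat_lit 1182) (nat_lit 87) (.e (nat_lit 57479) (nat_lit 28) (.e (nat_lit 557101) (nat_lit 13) (.e (nat_lit 172115) (nat_lit 10) (.e (nat_lit 434231) (nat_lit 23) (.e (nat_lit 532535) (nat_lit 9) (.e (nat_lit 335985) (nat_lit 1) .nil)))))))) (.g (nat_lit 7) .nil .nil)))))) 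
(.nd (nat_lit 4) (.nd (nat_lit 5) (.nd (nat_lit 6) 
(.lf (nat_lit 185229) (.g (nat_lit 2794) (.e (nat_lit 65280) (nat_lit 252) (.e (nat_lit 57406) (nat_lit 12) (.e (nat_lit 336454) (nat_lit 34) (.e (nat_lit 483383) (nat_lit 23) .nil)))) .nil)) 
(.lf (nat_lit 185293) (.g (nat_lit 1847) (.e (nat_lit 57863) (nat_lit 256) (.e (nat_lit 257) (nat_lit 21) (.e (nat_lit 336228) (nat_lit 14) (.e (nat_lit 401459) (nat_lit 13) (.e (nat_lit 483354) (nat_lit 17) (.e (nat_lit 6206) (nat_lit 333) .nil)))))) (.g (nat_lit 0) .nil .nil)))) (.nd (nat_lit 6) 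
(.lf (nat_lit 185261) (.g (nat_lit 930) (.e (nat_lit 57857) (nat_lit 254) (.e (nat_lit 163908) (nat_lit 12) (.e (nat_lit 426286) (nat_lit 10) (.e (nat_lit 434276) (nat_lit 39) .nil)))) .nil)) 
(.lf (nat_lit 185325) (.g (nat_lit 2500) (.e (nat_lit 57870) (nat_lit 264) (.e (nat_lit 1172) (nat_lit 87) (.e (nat_lit 57480) (nat_lit 28) (.e (nat_lit 557109) (nat_lit 15) (.e (nat_lit 188458) (nat_lit 25) .nil))))) .nil)))) (.nd (nat_lit 5) (.nd (nat_lit 6) 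
(.lf (nat_lit 185245) (.g (nat_lit 1031) (.e (nat_lit 57857) (nat_lit 254) (.e (nat_lit 163903) (nat_lit 12) (.e (nat_lit 426320) (nat_lit 12) .nil))) .nil)) 
(.lf (nat_lit 185309) (.g (nat_lit 648) (.e (nat_lit 57865) (nat_lit 256) (.e (nat_lit 316) (nat_lit 23) (.e (nat_lit 352267) (nat_lit 0) (.e (nat_lit 3632) (nat_lit 227) .nil)))) .nil))) (.nd (nat_lit 6) 
(.lf (nat_lit 185277) (.g (nat_lit 1453) (.e (nat_lit 57857) (nat_lit 254) (.e (nat_lit 163920) (nat_lit 14) (.e (nat_lit 442430) (nat_lit 24) (.e (nat_lit 229630) (nat_lit 226) (.e (nat_lit 1187) (nat_lit 88) .nil))))) .nil)) 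
(.lf (nat_lit 185341) (.g (nat_lit 2211) (.e (nat_lit 57870) (nat_lit 264) (.e (nat_lit 1188) (nat_lit 88) (.e (nat_lit 65630) (nat_lit 14) (.e (nat_lit 401459) (nat_lit 13) (.e (nat_lit 483343) (nat_lit 17) (.e (nat_lit 6436) (nat_lit 343) (.e (nat_lit 1183) (nat_lit 87) .nil))))))) (.g (nat_lit 4) .nil .nil)))))))) 
(.nd (nat_lit 2) (.nd (nat_lit 3) (.nd (nat_lit 4) (.nd (nat_lit 5) (.nd (nat_lit 6) 
(.lf (nat_lit 185219) (.g (nat_lit 1570) (.e (nat_lit 57854) (nat_lit 252) (.e (nat_lit 57447) (nat_lit 19) (.e (nat_lit 393238) (nat_lit 17) (.e (nat_lit 3545) (nat_lit 219) .nil)))) .nil)) 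
(.lf (nat_lit 185283) (.g (nat_lit 1821) (.e (nat_lit 57857) (nat_lit 254) (.e (nat_lit 163923) (nat_lit 15) (.e (nat_lit 450562) (nat_lit 0) (.e (nat_lit 5207) (nat_lit 295) .nil)))) .nil))) (.nd (nat_lit 6) 
(.lf (nat_lit 185251) (.g (nat_lit 1177) (.e (nat_lit 57857) (nat_lit 254) (.e (nat_lit 163908) (nat_lit 12) (.e (nat_lit 426285) (nat_lit 10) (.e (nat_lit 434265) (nat_lit 35) (.e (nat_lit 630823) (nat_lit 18) .nil))))) .nil)) 
(.lf (nat_lit 185315) (.g (nat_lit 1429) (.e (nat_lit 65280) (nat_lit 258) (.e (nat_lit 24662) (nat_lit 14) (.e (nat_lit 401459) (nat_lit 13) (.e (nat_lit 491264) (nat_lit 17) .nil)))) .nil)))) (.nd (nat_lit 5) (.nd (nat_lit 6) 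
(.lf (nat_lit 185235) (.g (nat_lit 1706) (.e (nat_lit 57855) (nat_lit 253) (.e (nat_lit 122919) (nat_lit 15) (.e (nat_lit 360451) (nat_lit 0) (.e (nat_lit 6923) (nat_lit 371) (.e (nat_lit 2618) (nat_lit 164) .nil))))) .nil)) 
(.lf (nat_lit 185299) (.g (nat_lit 2107) (.e (nat_lit 57863) (nat_lit 256) (.e (nat_lit 317) (nat_lit 23) (.e (nat_lit 352309) (nat_lit 21) (.e (nat_lit 57872) (nat_lit 264) (.e (nat_lit 1209) (nat_lit 89) (.e (nat_lit 73794) (nat_lit 46) .nil)))))) (.g (nat_lit 5) .nil .nil)))) (.nd (nat_lit 6) 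
(.lf (nat_lit 185267) (.g (nat_lit 752) (.e (nat_lit 57857) (nat_lit 254) (.e (nat_lit 163920) (nat_lit 14) (.e (nat_lit 442373) (nat_lit 0) .nil))) .nil)) 
(.lf (nat_lit 185331) (.g (nat_lit 2777) (.e (nat_lit 57870) (nat_lit 264) (.e (nat_lit 1182) (nat_lit 87) (.e (nat_lit 57479) (nat_lit 28) (.e (nat_lit 557095) (nat_lit 13) (.e (nat_lit 172115) (nat_lit 10) .nil))))) .nil))))) (.nd (nat_lit 4) (.nd (nat_lit 5) (.nd (nat_lit 6) 
(.lf (nat_lit 185227) (.g (nat_lit 3691) (.e (nat_lit 65280) (nat_lit 252) (.e (nat_lit 57377) (nat_lit 3) (.e (nat_lit 98317) (nat_lit 9) (.e (nat_lit 336088) (nat_lit 9) .nil)))) .nil)) 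
(.lf (nat_lit 185291) (.g (nat_lit 400) (.e (nat_lit 57862) (nat_lit 256) (.e (nat_lit 317) (nat_lit 23) (.e (nat_lit 352264) (nat_lit 0) (.e (nat_lit 3714) (nat_lit 227) (.e (nat_lit 786176) (nat_lit 5) (.e (nat_lit 73794) (nat_lit 46) .nil)))))) (.g (nat_lit 4) .nil .nil)))) (.nd (nat_lit 6) 
(.lf (nat_lit 185259) (.g (nat_lit 1595) (.e (nat_lit 57857) (nat_lit 254) (.e (nat_lit 163908) (nat_lit 12) (.e (nat_lit 426286) (nat_lit 10) (.e (nat_lit 434268) (nat_lit 36) (.e (nat_lit 639021) (nat_lit 16) .nil))))) .nil)) 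
(.lf (nat_lit 185323) (.g (nat_lit 3748) (.e (nat_lit 57870) (nat_lit 264) (.e (nat_lit 1171) (nat_lit 87) (.e (nat_lit 57478) (nat_lit 28) (.e (nat_lit 557109) (nat_lit 15) (.e (nat_lit 188449) (nat_lit 22) (.e (nat_lit 196666) (nat_lit 13) (.e (nat_lit 65563) (nat_lit 1) .nil))))))) (.g (nat_lit 0) .nil .nil))))) (.nd (nat_lit 5) (.nd (nat_lit 6) 
(.lf (nat_lit 185243) (.g (nat_lit 752) (.e (nat_lit 57857) (nat_lit 254) (.e (nat_lit 163902) (nat_lit 12) (.e (nat_lit 426438) (nat_lit 18) .nil))) .nil)) 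
(.lf (nat_lit 185307) (.g (nat_lit 405) (.e (nat_lit 57864) (nat_lit 256) (.e (nat_lit 317) (nat_lit 23) (.e (nat_lit 352264) (nat_lit 0) (.e (nat_lit 3714) (nat_lit 227) (.e (nat_lit 786176) (nat_lit 5) (.e (nat_lit 73794) (nat_lit 46) .nil)))))) (.g (nat_lit 4) .nil .nil)))) (.nd (nat_lit 6) 
(.lf (nat_lit 185275) (.g (nat_lit 3434) (.e (nat_lit 57857) (nat_lit 254) (.e (nat_lit 163920) (nat_lit 14) (.e (nat_lit 442421) (nat_lit 21) (.e (nat_lit 164319) (nat_lit 228) (.e (nat_lit 57424) (nat_lit 14) (.e (nat_lit 352309) (nat_lit 21) .nil)))))) (.g (nat_lit 0) .nil .nil))) 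
(.lf (nat_lit 185339) (.g (nat_lit 1783) (.e (nat_lit 57870) (nat_lit 264) (.e (nat_lit 1188) (nat_lit 88) (.e (nat_lit 65630) (nat_lit 14) (.e (nat_lit 401457) (nat_lit 13) (.e (nat_lit 483393) (nat_lit 23) .nil))))) .nil)))))) (.nd (nat_lit 3) (.nd (nat_lit 4) (.nd (nat_lit 5) (.nd (nat_lit 6) 
(.lf (nat_lit 185223) (.g (nat_lit 807) (.e (nat_lit 57854) (nat_lit 252) (.e (nat_lit 57447) (nat_lit 19) (.e (nat_lit 393253) (nat_lit 18) .nil))) .nil)) 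
(.lf (nat_lit 185287) (.g (nat_lit 2056) (.e (nat_lit 57858) (nat_lit 255) (.e (nat_lit 229412) (nat_lit 14) (.e (nat_lit 442421) (nat_lit 21) (.e (nat_lit 164320) (nat_lit 229) .nil)))) .nil))) (.nd (nat_lit 6) 
(.lf (nat_lit 185255) (.g (nat_lit 1675) (.e (nat_lit 57857) (nat_lit 254) (.e (nat_lit 163908) (nat_lit 12) (.e (nat_lit 426285) (nat_lit 10) (.e (nat_lit 434268) (nat_lit 36) (.e (nat_lit 639023) (nat_lit 18) .nil))))) .nil)) 
(.lf (nat_lit 185319) (.g (nat_lit 2531) (.e (nat_lit 57868) (nat_lit 264) (.e (nat_lit 1197) (nat_lit 88) (.e (nat_lit 65630) (nat_lit 14) (.e (nat_lit 401459) (nat_lit 13) (.e (nat_lit 483380) (nat_lit 23) .nil))))) .nil)))) (.nd (nat_lit 5) (.nd (nat_lit 6) 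
(.lf (nat_lit 185239) (.g (nat_lit 1796) (.e (nat_lit 57856) (nat_lit 253) (.e (nat_lit 122919) (nat_lit 15) (.e (nat_lit 360451) (nat_lit 0) (.e (nat_lit 6923) (nat_lit 371) .nil)))) .nil)) 
(.lf (nat_lit 185303) (.g (nat_lit 276) (.e (nat_lit 57864) (nat_lit 256) (.e (nat_lit 280) (nat_lit 21) (.e (nat_lit 335874) (nat_lit 0) (.e (nat_lit 6719) (nat_lit 361) .nil)))) .nil))) (.nd (nat_lit 6) 
(.lf (nat_lit 185271) (.g (nat_lit 752) (.e (nat_lit 57857) (nat_lit 254) (.e (nat_lit 163920) (nat_lit 14) (.e (nat_lit 442407) (nat_lit 20) .nil))) .nil)) 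
(.lf (nat_lit 185335) (.g (nat_lit 3390) (.e (nat_lit 57870) (nat_lit 264) (.e (nat_lit 1182) (nat_lit 87) (.e (nat_lit 57479) (nat_lit 28) (.e (nat_lit 557109) (nat_lit 15) (.e (nat_lit 188452) (nat_lit 23) (.e (nat_lit 204816) (nat_lit 17) (.e (nat_lit 6479) (nat_lit 343) (.e (nat_lit 1181) (nat_lit 87) .nil)))))))) (.g (nat_lit 4) .nil .nil)))))) 
(.nd (nat_lit 4) (.nd (nat_lit 5) (.nd (nat_lit 6) 
(.lf (nat_lit 185231) (.g (nat_lit 3805) (.e (nat_lit 65280) (nat_lit 252) (.e (nat_lit 57445) (nat_lit 19) (.e (nat_lit 393229) (nat_lit 9) (.e (nat_lit 336078) (nat_lit 9) .nil)))) .nil)) 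
(.lf (nat_lit 185295) (.g (nat_lit 526) (.e (nat_lit 57863) (nat_lit 256) (.e (nat_lit 300) (nat_lit 22) (.e (nat_lit 344084) (nat_lit 14) (.e (nat_lit 57864) (nat_lit 256) (.e (nat_lit 300) (nat_lit 22) (.e (nat_lit 344084) (nat_lit 14) .nil)))))) (.g (nat_lit 0) .nil .nil)))) (.nd (nat_lit 6) 
(.lf (nat_lit 185263) (.g (nat_lit 1512) (.e (nat_lit 57857) (nat_lit 254) (.e (nat_lit 163908) (nat_lit 12) (.e (nat_lit 426286) (nat_lit 10) (.e (nat_lit 434279) (nat_lit 39) (.e (nat_lit 663580) (nat_lit 9) .nil))))) .nil)) 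
(.lf (nat_lit 185327) (.g (nat_lit 2168) (.e (nat_lit 57870) (nat_lit 264) (.e (nat_lit 1181) (nat_lit 87) (.e (nat_lit 57479) (nat_lit 28) (.e (nat_lit 557100) (nat_lit 13) (.e (nat_lit 172106) (nat_lit 10) .nil))))) .nil)))) (.nd (nat_lit 5) (.nd (nat_lit 6) 
(.lf (nat_lit 185247) (.g (nat_lit 995) (.e (nat_lit 57857) (nat_lit 254) (.e (nat_lit 163906) (nat_lit 12) (.e (nat_lit 426320) (nat_lit 12) (.e (nat_lit 475193) (nat_lit 38) .nil)))) .nil)) 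
(.lf (nat_lit 185311) (.g (nat_lit 550) (.e (nat_lit 65280) (nat_lit 258) (.e (nat_lit 24580) (nat_lit 0) (.e (nat_lit 6720) (nat_lit 361) .nil))) .nil))) (.nd (nat_lit 6) 
(.lf (nat_lit 185279) (.g (nat_lit 3147) (.e (nat_lit 57857) (nat_lit 254) (.e (nat_lit 163920) (nat_lit 14) (.e (nat_lit 442430) (nat_lit 24) (.e (nat_lit 229638) (nat_lit 228) (.e (nat_lit 57424) (nat_lit 14) (.e (nat_lit 352309) (nat_lit 21) .nil)))))) (.g (nat_lit 0) .nil .nil))) 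
(.lf (nat_lit 185343) (.g (nat_lit 3462) (.e (nat_lit 57870) (nat_lit 264) (.e (nat_lit 1188) (nat_lit 88) (.e (nat_lit 65630) (nat_lit 14) (.e (nat_lit 401459) (nat_lit 13) (.e (nat_lit 483344) (nat_lit 17) (.e (nat_lit 6479) (nat_lit 343) (.e (nat_lit 1181) (nat_lit 87) .nil))))))) (.g (nat_lit 5) .nil .nil))))))))))

noncomputable def tv2465 : DT := (.nd (nat_lit 0) (.nd (nat_lit 1) (.nd (nat_lit 2) (.nd (nat_lit 3) (.nd (nat_lit 4) (.nd (nat_lit 5) 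
(.lf (nat_lit 185344) (.g (nat_lit 2442) (.e (nat_lit 57870) (nat_lit 264) (.e (nat_lit 1188) (nat_lit 88) (.e (nat_lit 65630) (nat_lit 14) (.e (nat_lit 401459) (nat_lit 13) (.e (nat_lit 483354) (nat_lit 17) (.e (nat_lit 6493) (nat_lit 343) (.e (nat_lit 1179) (nat_lit 87) .nil))))))) (.g (nat_lit 4) .nil .nil))) 
(.lf (nat_lit 185376) (.g (nat_lit 1738) (.e (nat_lit 57870) (nat_lit 264) (.e (nat_lit 1190) (nat_lit 88) (.e (nat_lit 65619) (nat_lit 10) (.e (nat_lit 344097) (nat_lit 18) (.e (nat_lit 5906) (nat_lit 320) .nil))))) .nil))) (.nd (nat_lit 5) 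
(.lf (nat_lit 185360) (.g (nat_lit 1932) (.e (nat_lit 57870) (nat_lit 264) (.e (nat_lit 1189) (nat_lit 88) (.e (nat_lit 65628) (nat_lit 14) (.e (nat_lit 401459) (nat_lit 13) (.e (nat_lit 483343) (nat_lit 17) (.e (nat_lit 6436) (nat_lit 343) (.e (nat_lit 1183) (nat_lit 87) .nil))))))) (.g (nat_lit 4) .nil .nil))) 
(.lf (nat_lit 185392) (.g (nat_lit 2024) (.e (nat_lit 57870) (nat_lit 264) (.e (nat_lit 1190) (nat_lit 88) (.e (nat_lit 65622) (nat_lit 12) (.e (nat_lit 385105) (nat_lit 50) (.e (nat_lit 786479) (nat_lit 29) .nil))))) .nil)))) (.nd (nat_lit 4) (.nd (nat_lit 5) 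
(.lf (nat_lit 185352) (.g (nat_lit 1251) (.e (nat_lit 57870) (nat_lit 264) (.e (nat_lit 1189) (nat_lit 88) (.e (nat_lit 65622) (nat_lit 12) (.e (nat_lit 385094) (nat_lit 49) (.e (nat_lit 778327) (nat_lit 6) .nil))))) .nil)) 
(.lf (nat_lit 185384) (.g (nat_lit 1691) (.e (nat_lit 57870) (nat_lit 264) (.e (nat_lit 1190) (nat_lit 88) (.e (nat_lit 65619) (nat_lit 10) (.e (nat_lit 344168) (nat_lit 40) (.e (nat_lit 671766) (nat_lit 8) .nil))))) .nil))) (.nd (nat_lit 5) 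
(.lf (nat_lit 185368) (.g (nat_lit 1832) (.e (nat_lit 57870) (nat_lit 264) (.e (nat_lit 1189) (nat_lit 88) (.e (nat_lit 65630) (nat_lit 14) (.e (nat_lit 401457) (nat_lit 13) (.e (nat_lit 491264) (nat_lit 23) .nil))))) .nil)) 
(.lf (nat_lit 185400) (.g (nat_lit 2026) (.e (nat_lit 57870) (nat_lit 264) (.e (nat_lit 1190) (nat_lit 88) (.e (nat_lit 65628) (nat_lit 14) (.e (nat_lit 401435) (nat_lit 9) (.e (nat_lit 426555) (nat_lit 32) .nil))))) .nil))))) (.nd (nat_lit 3) (.nd (nat_lit 4) (.nd (nat_lit 5) 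
(.lf (nat_lit 185348) (.g (nat_lit 1389) (.e (nat_lit 57870) (nat_lit 264) (.e (nat_lit 1189) (nat_lit 88) (.e (nat_lit 65619) (nat_lit 10) (.e (nat_lit 344168) (nat_lit 40) (.e (nat_lit 671766) (nat_lit 8) .nil))))) .nil)) 
(.lf (nat_lit 185380) (.g (nat_lit 2094) (.e (nat_lit 57870) (nat_lit 264) (.e (nat_lit 1190) (nat_lit 88) (.e (nat_lit 65619) (nat_lit 10) (.e (nat_lit 344117) (nat_lit 21) (.e (nat_lit 516135) (nat_lit 5) .nil))))) .nil))) (.nd (nat_lit 5) 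
(.lf (nat_lit 185364) (.g (nat_lit 3092) (.e (nat_lit 57870) (nat_lit 264) (.e (nat_lit 1189) (nat_lit 88) (.e (nat_lit 65628) (nat_lit 14) (.e (nat_lit 401459) (nat_lit 13) (.e (nat_lit 483378) (nat_lit 23) (.e (nat_lit 335997) (nat_lit 1) .nil)))))) (.g (nat_lit 0) .nil .nil))) 
(.lf (nat_lit 185396) (.g (nat_lit 2059) (.e (nat_lit 57870) (nat_lit 264) (.e (nat_lit 1190) (nat_lit 88) (.e (nat_lit 65624) (nat_lit 12) (.e (nat_lit 385093) (nat_lit 49) (.e (nat_lit 778327) (nat_lit 6) .nil))))) .nil)))) (.nd (nat_lit 4) (.nd (nat_lit 5) 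
(.lf (nat_lit 185356) (.g (nat_lit 1750) (.e (nat_lit 57870) (nat_lit 264) (.e (nat_lit 1189) (nat_lit 88) (.e (nat_lit 65628) (nat_lit 14) (.e (nat_lit 401434) (nat_lit 9) (.e (nat_lit 426555) (nat_lit 32) .nil))))) .nil)) 
(.lf (nat_lit 185388) (.g (nat_lit 1044) (.e (nat_lit 57870) (nat_lit 264) (.e (nat_lit 1190) (nat_lit 88) (.e (nat_lit 65622) (nat_lit 12) (.e (nat_lit 385092) (nat_lit 49) .nil)))) .nil))) (.nd (nat_lit 5) 
(.lf (nat_lit 185372) (.g (nat_lit 1563) (.e (nat_lit 57870) (nat_lit 264) (.e (nat_lit 1190) (nat_lit 88) (.e (nat_lit 65604) (nat_lit 9) (.e (nat_lit 335907) (nat_lit 0) (.e (nat_lit 1996) (nat_lit 137) .nil))))) .nil)) 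
(.lf (nat_lit 185404) (.g (nat_lit 1065) (.e (nat_lit 57870) (nat_lit 264) (.e (nat_lit 1190) (nat_lit 88) (.e (nat_lit 65628) (nat_lit 14) (.e (nat_lit 401457) (nat_lit 13) .nil)))) .nil)))))) (.nd (nat_lit 2) (.nd (nat_lit 3) (.nd (nat_lit 4) (.nd (nat_lit 5) 
(.lf (nat_lit 185346) (.g (nat_lit 3974) (.e (nat_lit 57870) (nat_lit 264) (.e (nat_lit 1189) (nat_lit 88) (.e (nat_lit 65619) (nat_lit 10) (.e (nat_lit 344097) (nat_lit 18) (.e (nat_lit 5907) (nat_lit 320) (.e (nat_lit 1221) (nat_lit 90) (.e (nat_lit 81950) (nat_lit 21) .nil))))))) (.g (nat_lit 0) .nil .nil))) 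
(.lf (nat_lit 185378) (.g (nat_lit 4289) (.e (nat_lit 57870) (nat_lit 264) (.e (nat_lit 1190) (nat_lit 88) (.e (nat_lit 65619) (nat_lit 10) (.e (nat_lit 344097) (nat_lit 18) (.e (nat_lit 5907) (nat_lit 320) (.e (nat_lit 1221) (nat_lit 90) (.e (nat_lit 81950) (nat_lit 21) .nil))))))) (.g (nat_lit 0) .nil .nil)))) (.nd (nat_lit 5) 
(.lf (nat_lit 185362) (.g (nat_lit 2251) (.e (nat_lit 57870) (nat_lit 264) (.e (nat_lit 1189) (nat_lit 88) (.e (nat_lit 65628) (nat_lit 14) (.e (nat_lit 401459) (nat_lit 13) (.e (nat_lit 483354) (nat_lit 17) (.e (nat_lit 6493) (nat_lit 343) (.e (nat_lit 1179) (nat_lit 87) .nil))))))) (.g (nat_lit 4) .nil .nil))) 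
(.lf (nat_lit 185394) (.g (nat_lit 1866) (.e (nat_lit 57870) (nat_lit 264) (.e (nat_lit 1190) (nat_lit 88) (.e (nat_lit 65624) (nat_lit 12) (.e (nat_lit 385092) (nat_lit 49) (.e (nat_lit 778327) (nat_lit 6) .nil))))) .nil)))) (.nd (nat_lit 4) (.nd (nat_lit 5) 
(.lf (nat_lit 185354) (.g (nat_lit 1799) (.e (nat_lit 57870) (nat_lit 264) (.e (nat_lit 1189) (nat_lit 88) (.e (nat_lit 65624) (nat_lit 12) (.e (nat_lit 385093) (nat_lit 49) (.e (nat_lit 778327) (nat_lit 6) .nil))))) .nil)) 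
(.lf (nat_lit 185386) (.g (nat_lit 2736) (.e (nat_lit 57870) (nat_lit 264) (.e (nat_lit 1190) (nat_lit 88) (.e (nat_lit 65619) (nat_lit 10) (.e (nat_lit 344169) (nat_lit 40) (.e (nat_lit 671764) (nat_lit 6) (.e (nat_lit 81950) (nat_lit 21) .nil)))))) (.g (nat_lit 0) .nil .nil)))) (.nd (nat_lit 5) 
(.lf (nat_lit 185370) (.g (nat_lit 2668) (.e (nat_lit 57870) (nat_lit 264) (.e (nat_lit 1189) (nat_lit 88) (.e (nat_lit 65630) (nat_lit 14) (.e (nat_lit 401459) (nat_lit 13) (.e (nat_lit 491264) (nat_lit 23) .nil))))) .nil)) 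
(.lf (nat_lit 185402) (.g (nat_lit 1024) (.e (nat_lit 57870) (nat_lit 264) (.e (nat_lit 1190) (nat_lit 88) (.e (nat_lit 65628) (nat_lit 14) (.e (nat_lit 401437) (nat_lit 9) .nil)))) .nil))))) (.nd (nat_lit 3) (.nd (nat_lit 4) (.nd (nat_lit 5) 
(.lf (nat_lit 185350) (.g (nat_lit 1317) (.e (nat_lit 57870) (nat_lit 264) (.e (nat_lit 1189) (nat_lit 88) (.e (nat_lit 65619) (nat_lit 10) (.e (nat_lit 344169) (nat_lit 40) (.e (nat_lit 671766) (nat_lit 8) .nil))))) .nil)) 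
(.lf (nat_lit 185382) (.g (nat_lit 1058) (.e (nat_lit 57870) (nat_lit 264) (.e (nat_lit 1190) (nat_lit 88) (.e (nat_lit 65619) (nat_lit 10) (.e (nat_lit 344168) (nat_lit 40) .nil)))) .nil))) (.nd (nat_lit 5) 
(.lf (nat_lit 185366) (.g (nat_lit 2162) (.e (nat_lit 57870) (nat_lit 264) (.e (nat_lit 1189) (nat_lit 88) (.e (nat_lit 65628) (nat_lit 14) (.e (nat_lit 401459) (nat_lit 13) (.e (nat_lit 483393) (nat_lit 23) .nil))))) .nil)) 
(.lf (nat_lit 185398) (.g (nat_lit 2220) (.e (nat_lit 57870) (nat_lit 264) (.e (nat_lit 1190) (nat_lit 88) (.e (nat_lit 65624) (nat_lit 12) (.e (nat_lit 385105) (nat_lit 50) (.e (nat_lit 786479) (nat_lit 29) .nil))))) .nil)))) (.nd (nat_lit 4) (.nd (nat_lit 5) 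
(.lf (nat_lit 185358) (.g (nat_lit 2893) (.e (nat_lit 57870) (nat_lit 264) (.e (nat_lit 1189) (nat_lit 88) (.e (nat_lit 65628) (nat_lit 14) (.e (nat_lit 401438) (nat_lit 9) (.e (nat_lit 426542) (nat_lit 29) (.e (nat_lit 352309) (nat_lit 21) .nil)))))) (.g (nat_lit 0) .nil .nil))) 
(.lf (nat_lit 185390) (.g (nat_lit 1739) (.e (nat_lit 57870) (nat_lit 264) (.e (nat_lit 1190) (nat_lit 88) (.e (nat_lit 65622) (nat_lit 12) (.e (nat_lit 385094) (nat_lit 49) (.e (nat_lit 778327) (nat_lit 6) .nil))))) .nil))) (.nd (nat_lit 5) 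
(.lf (nat_lit 185374) (.g (nat_lit 1824) (.e (nat_lit 57870) (nat_lit 264) (.e (nat_lit 1190) (nat_lit 88) (.e (nat_lit 65619) (nat_lit 10) (.e (nat_lit 344090) (nat_lit 18) (.e (nat_lit 5896) (nat_lit 320) .nil))))) .nil)) 
(.lf (nat_lit 185406) (.g (nat_lit 1630) (.e (nat_lit 57870) (nat_lit 264) (.e (nat_lit 1190) (nat_lit 88) (.e (nat_lit 65628) (nat_lit 14) (.e (nat_lit 401458) (nat_lit 13) (.e (nat_lit 483383) (nat_lit 23) .nil))))) .nil))))))) (.nd (nat_lit 1) (.nd (nat_lit 2) (.nd (nat_lit 3) (.nd (nat_lit 4) (.nd (nat_lit 5) 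
(.lf (nat_lit 185345) (.g (nat_lit 3434) (.e (nat_lit 57870) (nat_lit 264) (.e (nat_lit 1189) (nat_lit 88) (.e (nat_lit 65619) (nat_lit 10) (.e (nat_lit 344097) (nat_lit 18) (.e (nat_lit 5907) (nat_lit 320) (.e (nat_lit 1219) (nat_lit 90) (.e (nat_lit 81948) (nat_lit 21) .nil))))))) (.g (nat_lit 0) .nil .nil))) 
(.lf (nat_lit 185377) (.g (nat_lit 3768) (.e (nat_lit 57870) (nat_lit 264) (.e (nat_lit 1190) (nat_lit 88) (.e (nat_lit 65619) (nat_lit 10) (.e (nat_lit 344097) (nat_lit 18) (.e (nat_lit 5907) (nat_lit 320) (.e (nat_lit 1219) (nat_lit 90) (.e (nat_lit 81948) (nat_lit 21) .nil))))))) (.g (nat_lit 0) .nil .nil)))) (.nd (nat_lit 5) 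
(.lf (nat_lit 185361) (.g (nat_lit 1972) (.e (nat_lit 57870) (nat_lit 264) (.e (nat_lit 1189) (nat_lit 88) (.e (nat_lit 65628) (nat_lit 14) (.e (nat_lit 401459) (nat_lit 13) (.e (nat_lit 483354) (nat_lit 17) .nil))))) .nil)) 
(.lf (nat_lit 185393) (.g (nat_lit 1757) (.e (nat_lit 57870) (nat_lit 264) (.e (nat_lit 1190) (nat_lit 88) (.e (nat_lit 65623) (nat_lit 12) (.e (nat_lit 385093) (nat_lit 49) (.e (nat_lit 778326) (nat_lit 6) .nil))))) .nil)))) (.nd (nat_lit 4) (.nd (nat_lit 5) 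
(.lf (nat_lit 185353) (.g (nat_lit 1302) (.e (nat_lit 57870) (nat_lit 264) (.e (nat_lit 1189) (nat_lit 88) (.e (nat_lit 65623) (nat_lit 12) (.e (nat_lit 385094) (nat_lit 49) (.e (nat_lit 778327) (nat_lit 6) .nil))))) .nil)) 
(.lf (nat_lit 185385) (.g (nat_lit 1688) (.e (nat_lit 57870) (nat_lit 264) (.e (nat_lit 1190) (nat_lit 88) (.e (nat_lit 65619) (nat_lit 10) (.e (nat_lit 344169) (nat_lit 40) (.e (nat_lit 671744) (nat_lit 0) .nil))))) .nil))) (.nd (nat_lit 5) 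
(.lf (nat_lit 185369) (.g (nat_lit 3882) (.e (nat_lit 57870) (nat_lit 264) (.e (nat_lit 1189) (nat_lit 88) (.e (nat_lit 65630) (nat_lit 14) (.e (nat_lit 401459) (nat_lit 13) (.e (nat_lit 483350) (nat_lit 17) (.e (nat_lit 6490) (nat_lit 343) (.e (nat_lit 1179) (nat_lit 87) .nil))))))) (.g (nat_lit 5) .nil .nil))) 
(.lf (nat_lit 185401) (.g (nat_lit 1400) (.e (nat_lit 57870) (nat_lit 264) (.e (nat_lit 1190) (nat_lit 88) (.e (nat_lit 65628) (nat_lit 14) (.e (nat_lit 401436) (nat_lit 9) (.e (nat_lit 426556) (nat_lit 32) .nil))))) .nil))))) (.nd (nat_lit 3) (.nd (nat_lit 4) (.nd (nat_lit 5) 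
(.lf (nat_lit 185349) (.g (nat_lit 2436) (.e (nat_lit 57870) (nat_lit 264) (.e (nat_lit 1189) (nat_lit 88) (.e (nat_lit 65619) (nat_lit 10) (.e (nat_lit 344169) (nat_lit 40) (.e (nat_lit 671764) (nat_lit 6) (.e (nat_lit 81950) (nat_lit 21) .nil)))))) (.g (nat_lit 0) .nil .nil))) 
(.lf (nat_lit 185381) (.g (nat_lit 3752) (.e (nat_lit 57870) (nat_lit 264) (.e (nat_lit 1190) (nat_lit 88) (.e (nat_lit 65619) (nat_lit 10) (.e (nat_lit 344129) (nat_lit 26) (.e (nat_lit 557084) (nat_lit 10) (.e (nat_lit 8362) (nat_lit 89) (.e (nat_lit 720956) (nat_lit 25) (.e (nat_lit 114712) (nat_lit 21) .nil)))))))) (.g (nat_lit 5) .nil .nil)))) (.nd (nat_lit 5) 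
(.lf (nat_lit 185365) (.g (nat_lit 2398) (.e (nat_lit 57870) (nat_lit 264) (.e (nat_lit 1189) (nat_lit 88) (.e (nat_lit 65628) (nat_lit 14) (.e (nat_lit 401459) (nat_lit 13) (.e (nat_lit 483392) (nat_lit 23) .nil))))) .nil)) 
(.lf (nat_lit 185397) (.g (nat_lit 2143) (.e (nat_lit 57870) (nat_lit 264) (.e (nat_lit 1190) (nat_lit 88) (.e (nat_lit 65624) (nat_lit 12) (.e (nat_lit 385094) (nat_lit 49) (.e (nat_lit 778327) (nat_lit 6) .nil))))) .nil)))) (.nd (nat_lit 4) (.nd (nat_lit 5) 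
(.lf (nat_lit 185357) (.g (nat_lit 1740) (.e (nat_lit 57870) (nat_lit 264) (.e (nat_lit 1189) (nat_lit 88) (.e (nat_lit 65628) (nat_lit 14) (.e (nat_lit 401435) (nat_lit 9) (.e (nat_lit 426555) (nat_lit 32) .nil))))) .nil)) 
(.lf (nat_lit 185389) (.g (nat_lit 1962) (.e (nat_lit 57870) (nat_lit 264) (.e (nat_lit 1190) (nat_lit 88) (.e (nat_lit 65622) (nat_lit 12) (.e (nat_lit 385093) (nat_lit 49) (.e (nat_lit 778327) (nat_lit 6) .nil))))) .nil))) (.nd (nat_lit 5) 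
(.lf (nat_lit 185373) (.g (nat_lit 1849) (.e (nat_lit 57870) (nat_lit 264) (.e (nat_lit 1190) (nat_lit 88) (.e (nat_lit 65604) (nat_lit 9) (.e (nat_lit 335907) (nat_lit 0) (.e (nat_lit 1996) (nat_lit 137) (.e (nat_lit 663569) (nat_lit 6) (.e (nat_lit 81948) (nat_lit 21) .nil))))))) (.g (nat_lit 4) .nil .nil))) 
(.lf (nat_lit 185405) (.g (nat_lit 2194) (.e (nat_lit 57870) (nat_lit 264) (.e (nat_lit 1190) (nat_lit 88) (.e (nat_lit 65628) (nat_lit 14) (.e (nat_lit 401457) (nat_lit 13) (.e (nat_lit 483389) (nat_lit 23) (.e (nat_lit 335997) (nat_lit 1) .nil)))))) (.g (nat_lit 4) .nil .nil))))))) (.nd (nat_lit 2) (.nd (nat_lit 3) (.nd (nat_lit 4) (.nd (nat_lit 5) 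
(.lf (nat_lit 185347) (.g (nat_lit 3408) (.e (nat_lit 57870) (nat_lit 264) (.e (nat_lit 1189) (nat_lit 88) (.e (nat_lit 65619) (nat_lit 10) (.e (nat_lit 344129) (nat_lit 26) (.e (nat_lit 557084) (nat_lit 10) (.e (nat_lit 8362) (nat_lit 89) (.e (nat_lit 720956) (nat_lit 25) (.e (nat_lit 114712) (nat_lit 21) .nil)))))))) (.g (nat_lit 5) .nil .nil))) 
(.lf (nat_lit 185379) (.g (nat_lit 1076) (.e (nat_lit 57870) (nat_lit 264) (.e (nat_lit 1190) (nat_lit 88) (.e (nat_lit 65619) (nat_lit 10) (.e (nat_lit 344117) (nat_lit 21) .nil)))) .nil))) (.nd (nat_lit 5) 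
(.lf (nat_lit 185363) (.g (nat_lit 3478) (.e (nat_lit 57870) (nat_lit 264) (.e (nat_lit 1189) (nat_lit 88) (.e (nat_lit 65628) (nat_lit 14) (.e (nat_lit 401459) (nat_lit 13) (.e (nat_lit 483364) (nat_lit 18) (.e (nat_lit 65280) (nat_lit 217) (.e (nat_lit 57367) (nat_lit 1) .nil))))))) (.g (nat_lit 5) .nil .nil))) 
(.lf (nat_lit 185395) (.g (nat_lit 1869) (.e (nat_lit 57870) (nat_lit 264) (.e (nat_lit 1190) (nat_lit 88) (.e (nat_lit 65624) (nat_lit 12) (.e (nat_lit 385092) (nat_lit 49) (.e (nat_lit 778331) (nat_lit 8) .nil))))) .nil)))) (.nd (nat_lit 4) (.nd (nat_lit 5) 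
(.lf (nat_lit 185355) (.g (nat_lit 1826) (.e (nat_lit 57870) (nat_lit 264) (.e (nat_lit 1189) (nat_lit 88) (.e (nat_lit 65624) (nat_lit 12) (.e (nat_lit 385094) (nat_lit 49) (.e (nat_lit 778327) (nat_lit 6) .nil))))) .nil)) 
(.lf (nat_lit 185387) (.g (nat_lit 1632) (.e (nat_lit 57870) (nat_lit 264) (.e (nat_lit 1190) (nat_lit 88) (.e (nat_lit 65619) (nat_lit 10) (.e (nat_lit 344169) (nat_lit 40) (.e (nat_lit 671766) (nat_lit 8) .nil))))) .nil))) (.nd (nat_lit 5) 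
(.lf (nat_lit 185371) (.g (nat_lit 1543) (.e (nat_lit 57870) (nat_lit 264) (.e (nat_lit 1190) (nat_lit 88) (.e (nat_lit 65604) (nat_lit 9) (.e (nat_lit 335907) (nat_lit 0) (.e (nat_lit 1994) (nat_lit 137) .nil))))) .nil)) 
(.lf (nat_lit 185403) (.g (nat_lit 1517) (.e (nat_lit 57870) (nat_lit 264) (.e (nat_lit 1190) (nat_lit 88) (.e (nat_lit 65628) (nat_lit 14) (.e (nat_lit 401437) (nat_lit 9) (.e (nat_lit 426533) (nat_lit 28) .nil))))) .nil))))) (.nd (nat_lit 3) (.nd (nat_lit 4) (.nd (nat_lit 5) 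
(.lf (nat_lit 185351) (.g (nat_lit 1429) (.e (nat_lit 57870) (nat_lit 264) (.e (nat_lit 1189) (nat_lit 88) (.e (nat_lit 65622) (nat_lit 12) (.e (nat_lit 385093) (nat_lit 49) (.e (nat_lit 778327) (nat_lit 6) .nil))))) .nil)) 
(.lf (nat_lit 185383) (.g (nat_lit 1708) (.e (nat_lit 57870) (nat_lit 264) (.e (nat_lit 1190) (nat_lit 88) (.e (nat_lit 65619) (nat_lit 10) (.e (nat_lit 344168) (nat_lit 40) (.e (nat_lit 671761) (nat_lit 4) .nil))))) .nil))) (.nd (nat_lit 5) 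
(.lf (nat_lit 185367) (.g (nat_lit 3687) (.e (nat_lit 57870) (nat_lit 264) (.e (nat_lit 1189) (nat_lit 88) (.e (nat_lit 65629) (nat_lit 14) (.e (nat_lit 401459) (nat_lit 13) (.e (nat_lit 483364) (nat_lit 18) (.e (nat_lit 65280) (nat_lit 217) (.e (nat_lit 57367) (nat_lit 1) .nil))))))) (.g (nat_lit 5) .nil .nil))) 
(.lf (nat_lit 185399) (.g (nat_lit 2557) (.e (nat_lit 57870) (nat_lit 264) (.e (nat_lit 1190) (nat_lit 88) (.e (nat_lit 65624) (nat_lit 12) (.e (nat_lit 385106) (nat_lit 50) (.e (nat_lit 786479) (nat_lit 29) (.e (nat_lit 352309) (nat_lit 21) .nil)))))) (.g (nat_lit 4) .nil .nil))))) (.nd (nat_lit 4) (.nd (nat_lit 5) 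
(.lf (nat_lit 185359) (.g (nat_lit 1869) (.e (nat_lit 57870) (nat_lit 264) (.e (nat_lit 1189) (nat_lit 88) (.e (nat_lit 65628) (nat_lit 14) (.e (nat_lit 401457) (nat_lit 13) (.e (nat_lit 491264) (nat_lit 23) (.e (nat_lit 335995) (nat_lit 1) .nil)))))) (.g (nat_lit 4) .nil .nil))) 
(.lf (nat_lit 185391) (.g (nat_lit 1527) (.e (nat_lit 57870) (nat_lit 264) (.e (nat_lit 1190) (nat_lit 88) (.e (nat_lit 65622) (nat_lit 12) (.e (nat_lit 385104) (nat_lit 50) (.e (nat_lit 786480) (nat_lit 29) .nil))))) .nil))) (.nd (nat_lit 5) 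
(.lf (nat_lit 185375) (.g (nat_lit 1781) (.e (nat_lit 57870) (nat_lit 264) (.e (nat_lit 1190) (nat_lit 88) (.e (nat_lit 65619) (nat_lit 10) (.e (nat_lit 344097) (nat_lit 18) (.e (nat_lit 5905) (nat_lit 320) .nil))))) .nil)) 
(.lf (nat_lit 185407) (.g (nat_lit 1859) (.e (nat_lit 57870) (nat_lit 264) (.e (nat_lit 1190) (nat_lit 88) (.e (nat_lit 65628) (nat_lit 14) (.e (nat_lit 401458) (nat_lit 13) (.e (nat_lit 491264) (nat_lit 23) .nil))))) .nil))))))))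

noncomputable def tv2466 : DT := (.nd (nat_lit 0) (.nd (nat_lit 1) (.nd (nat_lit 2) (.nd (nat_lit 3) (.nd (nat_lit 4) (.nd (nat_lit 5) 
(.lf (nat_lit 185408) (.g (nat_lit 2224) (.e (nat_lit 57870) (nat_lit 264) (.e (nat_lit 1190) (nat_lit 88) (.e (nat_lit 65628) (nat_lit 14) (.e (nat_lit 401459) (nat_lit 13) (.e (nat_lit 483343) (nat_lit 17) (.e (nat_lit 6436) (nat_lit 343) (.e (nat_lit 1183) (nat_lit 87) .nil))))))) (.g (nat_lit 4) .nil .nil))) 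
(.lf (nat_lit 185440) (.g (nat_lit 1907) (.e (nat_lit 57870) (nat_lit 264) (.e (nat_lit 1199) (nat_lit 88) (.e (nat_lit 65624) (nat_lit 12) (.e (nat_lit 385105) (nat_lit 50) (.e (nat_lit 786479) (nat_lit 29) .nil))))) .nil))) (.nd (nat_lit 5) 
(.lf (nat_lit 185424) (.g (nat_lit 2459) (.e (nat_lit 57870) (nat_lit 264) (.e (nat_lit 1190) (nat_lit 88) (.e (nat_lit 65630) (nat_lit 14) (.e (nat_lit 401459) (nat_lit 13) (.e (nat_lit 483386) (nat_lit 23) .nil))))) .nil)) 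
(.lf (nat_lit 185456) (.g (nat_lit 1024) (.e (nat_lit 57870) (nat_lit 264) (.e (nat_lit 1199) (nat_lit 88) (.e (nat_lit 65630) (nat_lit 14) (.e (nat_lit 401459) (nat_lit 13) .nil)))) .nil)))) (.nd (nat_lit 4) (.nd (nat_lit 5) 
(.lf (nat_lit 185416) (.g (nat_lit 2099) (.e (nat_lit 57870) (nat_lit 264) (.e (nat_lit 1190) (nat_lit 88) (.e (nat_lit 65630) (nat_lit 14) (.e (nat_lit 401456) (nat_lit 13) (.e (nat_lit 483378) (nat_lit 23) .nil))))) .nil)) 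
(.lf (nat_lit 185448) (.g (nat_lit 2610) (.e (nat_lit 57870) (nat_lit 264) (.e (nat_lit 1199) (nat_lit 88) (.e (nat_lit 65629) (nat_lit 14) (.e (nat_lit 401459) (nat_lit 13) (.e (nat_lit 491264) (nat_lit 23) .nil))))) .nil))) (.nd (nat_lit 5) 
(.lf (nat_lit 185432) (.g (nat_lit 1346) (.e (nat_lit 57870) (nat_lit 264) (.e (nat_lit 1199) (nat_lit 88) (.e (nat_lit 65610) (nat_lit 10) (.e (nat_lit 344168) (nat_lit 40) (.e (nat_lit 671766) (nat_lit 8) .nil))))) .nil)) 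
(.lf (nat_lit 185464) (.g (nat_lit 2489) (.e (nat_lit 57870) (nat_lit 264) (.e (nat_lit 1199) (nat_lit 88) (.e (nat_lit 65630) (nat_lit 14) (.e (nat_lit 401459) (nat_lit 13) (.e (nat_lit 483380) (nat_lit 23) .nil))))) .nil))))) (.nd (nat_lit 3) (.nd (nat_lit 4) (.nd (nat_lit 5) 
(.lf (nat_lit 185412) (.g (nat_lit 2547) (.e (nat_lit 57870) (nat_lit 264) (.e (nat_lit 1190) (nat_lit 88) (.e (nat_lit 65628) (nat_lit 14) (.e (nat_lit 401459) (nat_lit 13) (.e (nat_lit 483354) (nat_lit 17) (.e (nat_lit 6493) (nat_lit 343) (.e (nat_lit 1179) (nat_lit 87) .nil))))))) (.g (nat_lit 4) .nil .nil))) 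
(.lf (nat_lit 185444) (.g (nat_lit 3432) (.e (nat_lit 57870) (nat_lit 264) (.e (nat_lit 1199) (nat_lit 88) (.e (nat_lit 65628) (nat_lit 14) (.e (nat_lit 401459) (nat_lit 13) (.e (nat_lit 483364) (nat_lit 18) (.e (nat_lit 65280) (nat_lit 217) (.e (nat_lit 57367) (nat_lit 1) .nil))))))) (.g (nat_lit 5) .nil .nil)))) (.nd (nat_lit 5) 
(.lf (nat_lit 185428) (.g (nat_lit 2066) (.e (nat_lit 57870) (nat_lit 264) (.e (nat_lit 1199) (nat_lit 88) (.e (nat_lit 65610) (nat_lit 10) (.e (nat_lit 344117) (nat_lit 21) (.e (nat_lit 516099) (nat_lit 0) .nil))))) .nil)) 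
(.lf (nat_lit 185460) (.g (nat_lit 3704) (.e (nat_lit 57870) (nat_lit 264) (.e (nat_lit 1199) (nat_lit 88) (.e (nat_lit 65630) (nat_lit 14) (.e (nat_lit 401459) (nat_lit 13) (.e (nat_lit 483344) (nat_lit 17) (.e (nat_lit 6479) (nat_lit 343) (.e (nat_lit 1181) (nat_lit 87) .nil))))))) (.g (nat_lit 5) .nil .nil))))) (.nd (nat_lit 4) (.nd (nat_lit 5) 
(.lf (nat_lit 185420) (.g (nat_lit 2696) (.e (nat_lit 57870) (nat_lit 264) (.e (nat_lit 1190) (nat_lit 88) (.e (nat_lit 65630) (nat_lit 14) (.e (nat_lit 401459) (nat_lit 13) (.e (nat_lit 483344) (nat_lit 17) .nil))))) .nil)) 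
(.lf (nat_lit 185452) (.g (nat_lit 3486) (.e (nat_lit 57870) (nat_lit 264) (.e (nat_lit 1199) (nat_lit 88) (.e (nat_lit 65630) (nat_lit 14) (.e (nat_lit 401437) (nat_lit 9) (.e (nat_lit 426555) (nat_lit 32) (.e (nat_lit 376860) (nat_lit 21) .nil)))))) (.g (nat_lit 0) .nil .nil)))) (.nd (nat_lit 5) 
(.lf (nat_lit 185436) (.g (nat_lit 1241) (.e (nat_lit 57870) (nat_lit 264) (.e (nat_lit 1199) (nat_lit 88) (.e (nat_lit 65622) (nat_lit 12) (.e (nat_lit 385092) (nat_lit 49) (.e (nat_lit 778326) (nat_lit 6) .nil))))) .nil)) 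
(.lf (nat_lit 185468) (.g (nat_lit 1582) (.e (nat_lit 57870) (nat_lit 264) (.e (nat_lit 1200) (nat_lit 88) (.e (nat_lit 65604) (nat_lit 9) (.e (nat_lit 335907) (nat_lit 0) (.e (nat_lit 1996) (nat_lit 137) .nil))))) .nil)))))) (.nd (nat_lit 2) (.nd (nat_lit 3) (.nd (nat_lit 4) (.nd (nat_lit 5) 
(.lf (nat_lit 185410) (.g (nat_lit 2357) (.e (nat_lit 57870) (nat_lit 264) (.e (nat_lit 1190) (nat_lit 88) (.e (nat_lit 65628) (nat_lit 14) (.e (nat_lit 401459) (nat_lit 13) (.e (nat_lit 483347) (nat_lit 17) .nil))))) .nil)) 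
(.lf (nat_lit 185442) (.g (nat_lit 1778) (.e (nat_lit 57870) (nat_lit 264) (.e (nat_lit 1199) (nat_lit 88) (.e (nat_lit 65628) (nat_lit 14) (.e (nat_lit 401457) (nat_lit 13) (.e (nat_lit 491264) (nat_lit 23) (.e (nat_lit 335995) (nat_lit 1) .nil)))))) (.g (nat_lit 4) .nil .nil)))) (.nd (nat_lit 5) 
(.lf (nat_lit 185426) (.g (nat_lit 3561) (.e (nat_lit 57870) (nat_lit 264) (.e (nat_lit 1190) (nat_lit 88) (.e (nat_lit 65630) (nat_lit 14) (.e (nat_lit 401459) (nat_lit 13) (.e (nat_lit 483392) (nat_lit 23) .nil))))) .nil)) 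
(.lf (nat_lit 185458) (.g (nat_lit 2290) (.e (nat_lit 57870) (nat_lit 264) (.e (nat_lit 1199) (nat_lit 88) (.e (nat_lit 65630) (nat_lit 14) (.e (nat_lit 401459) (nat_lit 13) (.e (nat_lit 483344) (nat_lit 17) .nil))))) .nil)))) (.nd (nat_lit 4) (.nd (nat_lit 5) 
(.lf (nat_lit 185418) (.g (nat_lit 2028) (.e (nat_lit 57870) (nat_lit 264) (.e (nat_lit 1190) (nat_lit 88) (.e (nat_lit 65630) (nat_lit 14) (.e (nat_lit 401457) (nat_lit 13) (.e (nat_lit 483393) (nat_lit 23) .nil))))) .nil)) 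
(.lf (nat_lit 185450) (.g (nat_lit 952) (.e (nat_lit 57870) (nat_lit 264) (.e (nat_lit 1199) (nat_lit 88) (.e (nat_lit 65630) (nat_lit 14) (.e (nat_lit 401437) (nat_lit 9) .nil)))) .nil))) (.nd (nat_lit 5) 
(.lf (nat_lit 185434) (.g (nat_lit 1460) (.e (nat_lit 57870) (nat_lit 264) (.e (nat_lit 1199) (nat_lit 88) (.e (nat_lit 65617) (nat_lit 10) (.e (nat_lit 344168) (nat_lit 40) (.e (nat_lit 671744) (nat_lit 0) .nil))))) .nil)) 
(.lf (nat_lit 185466) (.g (nat_lit 3676) (.e (nat_lit 57870) (nat_lit 264) (.e (nat_lit 1199) (nat_lit 88) (.e (nat_lit 65630) (nat_lit 14) (.e (nat_lit 401459) (nat_lit 13) (.e (nat_lit 483393) (nat_lit 23) (.e (nat_lit 335987) (nat_lit 1) .nil)))))) (.g (nat_lit 5) .nil .nil)))))) (.nd (nat_lit 3) (.nd (nat_lit 4) (.nd (nat_lit 5) 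
(.lf (nat_lit 185414) (.g (nat_lit 2648) (.e (nat_lit 57870) (nat_lit 264) (.e (nat_lit 1190) (nat_lit 88) (.e (nat_lit 65628) (nat_lit 14) (.e (nat_lit 401459) (nat_lit 13) (.e (nat_lit 483392) (nat_lit 23) .nil))))) .nil)) 
(.lf (nat_lit 185446) (.g (nat_lit 2266) (.e (nat_lit 57870) (nat_lit 264) (.e (nat_lit 1199) (nat_lit 88) (.e (nat_lit 65629) (nat_lit 14) (.e (nat_lit 401459) (nat_lit 13) (.e (nat_lit 483344) (nat_lit 17) .nil))))) .nil))) (.nd (nat_lit 5) 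
(.lf (nat_lit 185430) (.g (nat_lit 2477) (.e (nat_lit 57870) (nat_lit 264) (.e (nat_lit 1199) (nat_lit 88) (.e (nat_lit 65610) (nat_lit 10) (.e (nat_lit 344117) (nat_lit 21) (.e (nat_lit 516135) (nat_lit 5) .nil))))) .nil)) 
(.lf (nat_lit 185462) (.g (nat_lit 2916) (.e (nat_lit 57870) (nat_lit 264) (.e (nat_lit 1199) (nat_lit 88) (.e (nat_lit 65630) (nat_lit 14) (.e (nat_lit 401459) (nat_lit 13) (.e (nat_lit 483354) (nat_lit 17) .nil))))) .nil)))) (.nd (nat_lit 4) (.nd (nat_lit 5) 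
(.lf (nat_lit 185422) (.g (nat_lit 3167) (.e (nat_lit 57870) (nat_lit 264) (.e (nat_lit 1190) (nat_lit 88) (.e (nat_lit 65630) (nat_lit 14) (.e (nat_lit 401459) (nat_lit 13) (.e (nat_lit 483363) (nat_lit 18) .nil))))) .nil)) 
(.lf (nat_lit 185454) (.g (nat_lit 2631) (.e (nat_lit 57870) (nat_lit 264) (.e (nat_lit 1199) (nat_lit 88) (.e (nat_lit 65630) (nat_lit 14) (.e (nat_lit 401457) (nat_lit 13) (.e (nat_lit 483392) (nat_lit 23) .nil))))) .nil))) (.nd (nat_lit 5) 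
(.lf (nat_lit 185438) (.g (nat_lit 1656) (.e (nat_lit 57870) (nat_lit 264) (.e (nat_lit 1199) (nat_lit 88) (.e (nat_lit 65624) (nat_lit 12) (.e (nat_lit 385092) (nat_lit 49) (.e (nat_lit 778331) (nat_lit 8) .nil))))) .nil)) 
(.lf (nat_lit 185470) (.g (nat_lit 3626) (.e (nat_lit 57870) (nat_lit 264) (.e (nat_lit 1200) (nat_lit 88) (.e (nat_lit 65619) (nat_lit 10) (.e (nat_lit 344097) (nat_lit 18) (.e (nat_lit 5907) (nat_lit 320) (.e (nat_lit 1219) (nat_lit 90) (.e (nat_lit 81948) (nat_lit 21) .nil))))))) (.g (nat_lit 0) .nil .nil)))))))) 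
(.nd (nat_lit 1) (.nd (nat_lit 2) (.nd (nat_lit 3) (.nd (nat_lit 4) (.nd (nat_lit 5) 
(.lf (nat_lit 185409) (.g (nat_lit 1774) (.e (nat_lit 57870) (nat_lit 264) (.e (nat_lit 1190) (nat_lit 88) (.e (nat_lit 65628) (nat_lit 14) (.e (nat_lit 401459) (nat_lit 13) (.e (nat_lit 483344) (nat_lit 17) .nil))))) .nil)) 
(.lf (nat_lit 185441) (.g (nat_lit 1852) (.e (nat_lit 57870) (nat_lit 264) (.e (nat_lit 1199) (nat_lit 88) (.e (nat_lit 65628) (nat_lit 14) (.e (nat_lit 401457) (nat_lit 13) (.e (nat_lit 483389) (nat_lit 23) .nil))))) .nil))) (.nd (nat_lit 5) 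
(.lf (nat_lit 185425) (.g (nat_lit 3379) (.e (nat_lit 57870) (nat_lit 264) (.e (nat_lit 1190) (nat_lit 88) (.e (nat_lit 65630) (nat_lit 14) (.e (nat_lit 401459) (nat_lit 13) (.e (nat_lit 483389) (nat_lit 23) .nil))))) .nil)) 
(.lf (nat_lit 185457) (.g (nat_lit 2919) (.e (nat_lit 57870) (nat_lit 264) (.e (nat_lit 1199) (nat_lit 88) (.e (nat_lit 65630) (nat_lit 14) (.e (nat_lit 401459) (nat_lit 13) (.e (nat_lit 483343) (nat_lit 17) (.e (nat_lit 6436) (nat_lit 343) (.e (nat_lit 1183) (nat_lit 87) .nil))))))) (.g (nat_lit 4) .nil .nil))))) (.nd (nat_lit 4) (.nd (nat_lit 5) 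
(.lf (nat_lit 185417) (.g (nat_lit 2118) (.e (nat_lit 57870) (nat_lit 264) (.e (nat_lit 1190) (nat_lit 88) (.e (nat_lit 65630) (nat_lit 14) (.e (nat_lit 401457) (nat_lit 13) (.e (nat_lit 483389) (nat_lit 23) .nil))))) .nil)) 
(.lf (nat_lit 185449) (.g (nat_lit 1678) (.e (nat_lit 57870) (nat_lit 264) (.e (nat_lit 1199) (nat_lit 88) (.e (nat_lit 65630) (nat_lit 14) (.e (nat_lit 401436) (nat_lit 9) (.e (nat_lit 426556) (nat_lit 32) .nil))))) .nil))) (.nd (nat_lit 5) 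
(.lf (nat_lit 185433) (.g (nat_lit 1586) (.e (nat_lit 57870) (nat_lit 264) (.e (nat_lit 1199) (nat_lit 88) (.e (nat_lit 65610) (nat_lit 10) (.e (nat_lit 344169) (nat_lit 40) (.e (nat_lit 671760) (nat_lit 4) .nil))))) .nil)) 
(.lf (nat_lit 185465) (.g (nat_lit 3119) (.e (nat_lit 57870) (nat_lit 264) (.e (nat_lit 1199) (nat_lit 88) (.e (nat_lit 65630) (nat_lit 14) (.e (nat_lit 401459) (nat_lit 13) (.e (nat_lit 483389) (nat_lit 23) (.e (nat_lit 335997) (nat_lit 1) .nil)))))) (.g (nat_lit 4) .nil .nil)))))) (.nd (nat_lit 3) (.nd (nat_lit 4) (.nd (nat_lit 5) 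
(.lf (nat_lit 185413) (.g (nat_lit 3770) (.e (nat_lit 57870) (nat_lit 264) (.e (nat_lit 1190) (nat_lit 88) (.e (nat_lit 65628) (nat_lit 14) (.e (nat_lit 401459) (nat_lit 13) (.e (nat_lit 483364) (nat_lit 18) (.e (nat_lit 65280) (nat_lit 217) (.e (nat_lit 57367) (nat_lit 1) .nil))))))) (.g (nat_lit 5) .nil .nil))) 
(.lf (nat_lit 185445) (.g (nat_lit 2367) (.e (nat_lit 57870) (nat_lit 264) (.e (nat_lit 1199) (nat_lit 88) (.e (nat_lit 65628) (nat_lit 14) (.e (nat_lit 401459) (nat_lit 13) (.e (nat_lit 483386) (nat_lit 23) (.e (nat_lit 335985) (nat_lit 1) .nil)))))) (.g (nat_lit 5) .nil .nil)))) (.nd (nat_lit 5) 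
(.lf (nat_lit 185429) (.g (nat_lit 2391) (.e (nat_lit 57870) (nat_lit 264) (.e (nat_lit 1199) (nat_lit 88) (.e (nat_lit 65610) (nat_lit 10) (.e (nat_lit 344117) (nat_lit 21) (.e (nat_lit 516099) (nat_lit 0) (.e (nat_lit 7936) (nat_lit 220) (.e (nat_lit 720954) (nat_lit 25) (.e (nat_lit 114710) (nat_lit 21) .nil)))))))) (.g (nat_lit 4) .nil .nil))) 
(.lf (nat_lit 185461) (.g (nat_lit 2829) (.e (nat_lit 57870) (nat_lit 264) (.e (nat_lit 1199) (nat_lit 88) (.e (nat_lit 65630) (nat_lit 14) (.e (nat_lit 401459) (nat_lit 13) (.e (nat_lit 483347) (nat_lit 17) .nil))))) .nil)))) (.nd (nat_lit 4) (.nd (nat_lit 5) 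
(.lf (nat_lit 185421) (.g (nat_lit 4121) (.e (nat_lit 57870) (nat_lit 264) (.e (nat_lit 1190) (nat_lit 88) (.e (nat_lit 65630) (nat_lit 14) (.e (nat_lit 401459) (nat_lit 13) (.e (nat_lit 483350) (nat_lit 17) (.e (nat_lit 6490) (nat_lit 343) (.e (nat_lit 1179) (nat_lit 87) .nil))))))) (.g (nat_lit 5) .nil .nil))) 
(.lf (nat_lit 185453) (.g (nat_lit 1834) (.e (nat_lit 57870) (nat_lit 264) (.e (nat_lit 1199) (nat_lit 88) (.e (nat_lit 65630) (nat_lit 14) (.e (nat_lit 401457) (nat_lit 13) (.e (nat_lit 483389) (nat_lit 23) (.e (nat_lit 335997) (nat_lit 1) .nil)))))) (.g (nat_lit 4) .nil .nil)))) (.nd (nat_lit 5) 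
(.lf (nat_lit 185437) (.g (nat_lit 1652) (.e (nat_lit 57870) (nat_lit 264) (.e (nat_lit 1199) (nat_lit 88) (.e (nat_lit 65624) (nat_lit 12) (.e (nat_lit 385092) (nat_lit 49) (.e (nat_lit 778327) (nat_lit 6) .nil))))) .nil)) 
(.lf (nat_lit 185469) (.g (nat_lit 1812) (.e (nat_lit 57870) (nat_lit 264) (.e (nat_lit 1200) (nat_lit 88) (.e (nat_lit 65604) (nat_lit 9) (.e (nat_lit 335907) (nat_lit 0) (.e (nat_lit 1996) (nat_lit 137) (.e (nat_lit 663569) (nat_lit 6) (.e (nat_lit 81948) (nat_lit 21) .nil))))))) (.g (nat_lit 4) .nil .nil))))))) (.nd (nat_lit 2) (.nd (nat_lit 3) (.nd (nat_lit 4) (.nd (nat_lit 5) 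
(.lf (nat_lit 185411) (.g (nat_lit 2298) (.e (nat_lit 57870) (nat_lit 264) (.e (nat_lit 1190) (nat_lit 88) (.e (nat_lit 65628) (nat_lit 14) (.e (nat_lit 401459) (nat_lit 13) (.e (nat_lit 483354) (nat_lit 17) .nil))))) .nil)) 
(.lf (nat_lit 185443) (.g (nat_lit 2248) (.e (nat_lit 57870) (nat_lit 264) (.e (nat_lit 1199) (nat_lit 88) (.e (nat_lit 65628) (nat_lit 14) (.e (nat_lit 401459) (nat_lit 13) (.e (nat_lit 483354) (nat_lit 17) (.e (nat_lit 6493) (nat_lit 343) (.e (nat_lit 1179) (nat_lit 87) .nil))))))) (.g (nat_lit 4) .nil .nil)))) (.nd (nat_lit 5) 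
(.lf (nat_lit 185427) (.g (nat_lit 2999) (.e (nat_lit 57870) (nat_lit 264) (.e (nat_lit 1190) (nat_lit 88) (.e (nat_lit 65630) (nat_lit 14) (.e (nat_lit 401459) (nat_lit 13) (.e (nat_lit 491264) (nat_lit 23) (.e (nat_lit 335995) (nat_lit 1) .nil)))))) (.g (nat_lit 4) .nil .nil))) 
(.lf (nat_lit 185459) (.g (nat_lit 3461) (.e (nat_lit 57870) (nat_lit 264) (.e (nat_lit 1199) (nat_lit 88) (.e (nat_lit 65630) (nat_lit 14) (.e (nat_lit 401459) (nat_lit 13) (.e (nat_lit 483344) (nat_lit 17) (.e (nat_lit 6436) (nat_lit 343) (.e (nat_lit 1183) (nat_lit 87) .nil))))))) (.g (nat_lit 5) .nil .nil))))) (.nd (nat_lit 4) (.nd (nat_lit 5) 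
(.lf (nat_lit 185419) (.g (nat_lit 1905) (.e (nat_lit 57870) (nat_lit 264) (.e (nat_lit 1190) (nat_lit 88) (.e (nat_lit 65630) (nat_lit 14) (.e (nat_lit 401458) (nat_lit 13) (.e (nat_lit 483393) (nat_lit 23) .nil))))) .nil)) 
(.lf (nat_lit 185451) (.g (nat_lit 3632) (.e (nat_lit 57870) (nat_lit 264) (.e (nat_lit 1199) (nat_lit 88) (.e (nat_lit 65630) (nat_lit 14) (.e (nat_lit 401437) (nat_lit 9) (.e (nat_lit 426555) (nat_lit 32) (.e (nat_lit 376857) (nat_lit 21) .nil)))))) (.g (nat_lit 0) .nil .nil)))) (.nd (nat_lit 5) 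
(.lf (nat_lit 185435) (.g (nat_lit 1509) (.e (nat_lit 57870) (nat_lit 264) (.e (nat_lit 1199) (nat_lit 88) (.e (nat_lit 65617) (nat_lit 10) (.e (nat_lit 344169) (nat_lit 40) (.e (nat_lit 671766) (nat_lit 8) .nil))))) .nil)) 
(.lf (nat_lit 185467) (.g (nat_lit 1562) (.e (nat_lit 57870) (nat_lit 264) (.e (nat_lit 1200) (nat_lit 88) (.e (nat_lit 65604) (nat_lit 9) (.e (nat_lit 335907) (nat_lit 0) (.e (nat_lit 1994) (nat_lit 137) .nil))))) .nil))))) (.nd (nat_lit 3) (.nd (nat_lit 4) (.nd (nat_lit 5) 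
(.lf (nat_lit 185415) (.g (nat_lit 1092) (.e (nat_lit 57870) (nat_lit 264) (.e (nat_lit 1190) (nat_lit 88) (.e (nat_lit 65630) (nat_lit 14) (.e (nat_lit 401437) (nat_lit 9) .nil)))) .nil)) 
(.lf (nat_lit 185447) (.g (nat_lit 4777) (.e (nat_lit 57870) (nat_lit 264) (.e (nat_lit 1199) (nat_lit 88) (.e (nat_lit 65629) (nat_lit 14) (.e (nat_lit 401459) (nat_lit 13) (.e (nat_lit 483350) (nat_lit 17) (.e (nat_lit 6490) (nat_lit 343) (.e (nat_lit 1179) (nat_lit 87) .nil))))))) (.g (nat_lit 5) .nil .nil)))) (.nd (nat_lit 5) 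
(.lf (nat_lit 185431) (.g (nat_lit 2062) (.e (nat_lit 57870) (nat_lit 264) (.e (nat_lit 1199) (nat_lit 88) (.e (nat_lit 65610) (nat_lit 10) (.e (nat_lit 344129) (nat_lit 26) (.e (nat_lit 557084) (nat_lit 10) .nil))))) .nil)) 
(.lf (nat_lit 185463) (.g (nat_lit 3173) (.e (nat_lit 57870) (nat_lit 264) (.e (nat_lit 1199) (nat_lit 88) (.e (nat_lit 65630) (nat_lit 14) (.e (nat_lit 401459) (nat_lit 13) (.e (nat_lit 483354) (nat_lit 17) (.e (nat_lit 6493) (nat_lit 343) (.e (nat_lit 1179) (nat_lit 87) .nil))))))) (.g (nat_lit 4) .nil .nil))))) (.nd (nat_lit 4) (.nd (nat_lit 5) 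
(.lf (nat_lit 185423) (.g (nat_lit 3181) (.e (nat_lit 57870) (nat_lit 264) (.e (nat_lit 1190) (nat_lit 88) (.e (nat_lit 65630) (nat_lit 14) (.e (nat_lit 401459) (nat_lit 13) (.e (nat_lit 483364) (nat_lit 18) .nil))))) .nil)) 
(.lf (nat_lit 185455) (.g (nat_lit 972) (.e (nat_lit 57870) (nat_lit 264) (.e (nat_lit 1199) (nat_lit 88) (.e (nat_lit 65630) (nat_lit 14) (.e (nat_lit 401458) (nat_lit 13) .nil)))) .nil))) (.nd (nat_lit 5) 
(.lf (nat_lit 185439) (.g (nat_lit 1809) (.e (nat_lit 57870) (nat_lit 264) (.e (nat_lit 1199) (nat_lit 88) (.e (nat_lit 65624) (nat_lit 12) (.e (nat_lit 385094) (nat_lit 49) (.e (nat_lit 778327) (nat_lit 6) .nil))))) .nil)) 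
(.lf (nat_lit 185471) (.g (nat_lit 4145) (.e (nat_lit 57870) (nat_lit 264) (.e (nat_lit 1200) (nat_lit 88) (.e (nat_lit 65619) (nat_lit 10) (.e (nat_lit 344097) (nat_lit 18) (.e (nat_lit 5907) (nat_lit 320) (.e (nat_lit 1221) (nat_lit 90) (.e (nat_lit 81950) (nat_lit 21) .nil))))))) (.g (nat_lit 0) .nil .nil)))))))))

noncomputable def tv2467 : DT := (.nd (nat_lit 0) (.nd (nat_lit 1) (.nd (nat_lit 2) (.nd (nat_lit 3) (.nd (nat_lit 4) (.nd (nat_lit 5) 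
(.lf (nat_lit 185472) (.g (nat_lit 1019) (.e (nat_lit 57870) (nat_lit 264) (.e (nat_lit 1200) (nat_lit 88) (.e (nat_lit 65619) (nat_lit 10) (.e (nat_lit 344117) (nat_lit 21) .nil)))) .nil)) 
(.lf (nat_lit 185504) (.g (nat_lit 3149) (.e (nat_lit 57870) (nat_lit 264) (.e (nat_lit 1200) (nat_lit 88) (.e (nat_lit 65629) (nat_lit 14) (.e (nat_lit 401459) (nat_lit 13) (.e (nat_lit 483354) (nat_lit 17) (.e (nat_lit 6493) (nat_lit 343) (.e (nat_lit 1179) (nat_lit 87) .nil))))))) (.g (nat_lit 4) .nil .nil)))) (.nd (nat_lit 5) 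
(.lf (nat_lit 185488) (.g (nat_lit 1416) (.e (nat_lit 57870) (nat_lit 264) (.e (nat_lit 1200) (nat_lit 88) (.e (nat_lit 65628) (nat_lit 14) (.e (nat_lit 401436) (nat_lit 9) (.e (nat_lit 426556) (nat_lit 32) .nil))))) .nil)) 
(.lf (nat_lit 185520) (.g (nat_lit 1562) (.e (nat_lit 57870) (nat_lit 264) (.e (nat_lit 1209) (nat_lit 89) (.e (nat_lit 73781) (nat_lit 32) (.e (nat_lit 3088) (nat_lit 191) (.e (nat_lit 483390) (nat_lit 23) .nil))))) .nil)))) (.nd (nat_lit 4) (.nd (nat_lit 5) 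
(.lf (nat_lit 185480) (.g (nat_lit 1550) (.e (nat_lit 57870) (nat_lit 264) (.e (nat_lit 1200) (nat_lit 88) (.e (nat_lit 65619) (nat_lit 10) (.e (nat_lit 344169) (nat_lit 40) (.e (nat_lit 671766) (nat_lit 8) .nil))))) .nil)) 
(.lf (nat_lit 185512) (.g (nat_lit 3692) (.e (nat_lit 57870) (nat_lit 264) (.e (nat_lit 1200) (nat_lit 88) (.e (nat_lit 65630) (nat_lit 14) (.e (nat_lit 401459) (nat_lit 13) (.e (nat_lit 483350) (nat_lit 17) (.e (nat_lit 6490) (nat_lit 343) (.e (nat_lit 1179) (nat_lit 87) .nil))))))) (.g (nat_lit 5) .nil .nil)))) (.nd (nat_lit 5) 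
(.lf (nat_lit 185496) (.g (nat_lit 2291) (.e (nat_lit 57870) (nat_lit 264) (.e (nat_lit 1200) (nat_lit 88) (.e (nat_lit 65628) (nat_lit 14) (.e (nat_lit 401459) (nat_lit 13) (.e (nat_lit 483354) (nat_lit 17) .nil))))) .nil)) 
(.lf (nat_lit 185528) (.g (nat_lit 2008) (.e (nat_lit 57870) (nat_lit 264) (.e (nat_lit 1209) (nat_lit 89) (.e (nat_lit 73781) (nat_lit 32) (.e (nat_lit 3090) (nat_lit 191) (.e (nat_lit 483392) (nat_lit 23) .nil))))) .nil))))) (.nd (nat_lit 3) (.nd (nat_lit 4) (.nd (nat_lit 5) 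
(.lf (nat_lit 185476) (.g (nat_lit 1603) (.e (nat_lit 57870) (nat_lit 264) (.e (nat_lit 1200) (nat_lit 88) (.e (nat_lit 65619) (nat_lit 10) (.e (nat_lit 344168) (nat_lit 40) (.e (nat_lit 671766) (nat_lit 8) .nil))))) .nil)) 
(.lf (nat_lit 185508) (.g (nat_lit 2046) (.e (nat_lit 57870) (nat_lit 264) (.e (nat_lit 1200) (nat_lit 88) (.e (nat_lit 65630) (nat_lit 14) (.e (nat_lit 401456) (nat_lit 13) (.e (nat_lit 483378) (nat_lit 23) .nil))))) .nil))) (.nd (nat_lit 5) 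
(.lf (nat_lit 185492) (.g (nat_lit 1866) (.e (nat_lit 57870) (nat_lit 264) (.e (nat_lit 1200) (nat_lit 88) (.e (nat_lit 65628) (nat_lit 14) (.e (nat_lit 401458) (nat_lit 13) (.e (nat_lit 491264) (nat_lit 23) .nil))))) .nil)) 
(.lf (nat_lit 185524) (.g (nat_lit 2315) (.e (nat_lit 57870) (nat_lit 264) (.e (nat_lit 1209) (nat_lit 89) (.e (nat_lit 73781) (nat_lit 32) (.e (nat_lit 3089) (nat_lit 191) (.e (nat_lit 483393) (nat_lit 23) (.e (nat_lit 335987) (nat_lit 1) .nil)))))) (.g (nat_lit 5) .nil .nil))))) (.nd (nat_lit 4) (.nd (nat_lit 5) 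
(.lf (nat_lit 185484) (.g (nat_lit 1941) (.e (nat_lit 57870) (nat_lit 264) (.e (nat_lit 1200) (nat_lit 88) (.e (nat_lit 65624) (nat_lit 12) (.e (nat_lit 385092) (nat_lit 49) (.e (nat_lit 778326) (nat_lit 6) (.e (nat_lit 81948) (nat_lit 21) .nil)))))) (.g (nat_lit 4) .nil .nil))) 
(.lf (nat_lit 185516) (.g (nat_lit 445) (.e (nat_lit 57870) (nat_lit 264) (.e (nat_lit 1209) (nat_lit 89) (.e (nat_lit 73779) (nat_lit 32) .nil))) .nil))) (.nd (nat_lit 5) 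
(.lf (nat_lit 185500) (.g (nat_lit 2507) (.e (nat_lit 57870) (nat_lit 264) (.e (nat_lit 1200) (nat_lit 88) (.e (nat_lit 65629) (nat_lit 14) (.e (nat_lit 401459) (nat_lit 13) (.e (nat_lit 483343) (nat_lit 17) .nil))))) .nil)) 
(.lf (nat_lit 185532) (.g (nat_lit 3127) (.e (nat_lit 57870) (nat_lit 264) (.e (nat_lit 1209) (nat_lit 89) (.e (nat_lit 73782) (nat_lit 32) (.e (nat_lit 2857) (nat_lit 184) (.e (nat_lit 426542) (nat_lit 29) (.e (nat_lit 352307) (nat_lit 21) .nil)))))) (.g (nat_lit 0) .nil .nil))))))) (.nd (nat_lit 2) (.nd (nat_lit 3) (.nd (nat_lit 4) (.nd (nat_lit 5) 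
(.lf (nat_lit 185474) (.g (nat_lit 1856) (.e (nat_lit 57870) (nat_lit 264) (.e (nat_lit 1200) (nat_lit 88) (.e (nat_lit 65619) (nat_lit 10) (.e (nat_lit 344168) (nat_lit 40) (.e (nat_lit 671744) (nat_lit 0) (.e (nat_lit 1615) (nat_lit 113) (.e (nat_lit 376859) (nat_lit 21) .nil))))))) (.g (nat_lit 4) .nil .nil))) 
(.lf (nat_lit 185506) (.g (nat_lit 4042) (.e (nat_lit 57870) (nat_lit 264) (.e (nat_lit 1200) (nat_lit 88) (.e (nat_lit 65629) (nat_lit 14) (.e (nat_lit 401459) (nat_lit 13) (.e (nat_lit 483364) (nat_lit 18) (.e (nat_lit 65280) (nat_lit 217) (.e (nat_lit 57367) (nat_lit 1) .nil))))))) (.g (nat_lit 5) .nil .nil)))) (.nd (nat_lit 5) 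
(.lf (nat_lit 185490) (.g (nat_lit 1068) (.e (nat_lit 57870) (nat_lit 264) (.e (nat_lit 1200) (nat_lit 88) (.e (nat_lit 65628) (nat_lit 14) (.e (nat_lit 401457) (nat_lit 13) .nil)))) .nil)) 
(.lf (nat_lit 185522) (.g (nat_lit 1377) (.e (nat_lit 57870) (nat_lit 264) (.e (nat_lit 1209) (nat_lit 89) (.e (nat_lit 73781) (nat_lit 32) (.e (nat_lit 3088) (nat_lit 191) (.e (nat_lit 491264) (nat_lit 23) .nil))))) .nil)))) (.nd (nat_lit 4) (.nd (nat_lit 5) 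
(.lf (nat_lit 185482) (.g (nat_lit 1757) (.e (nat_lit 57870) (nat_lit 264) (.e (nat_lit 1200) (nat_lit 88) (.e (nat_lit 65622) (nat_lit 12) (.e (nat_lit 385105) (nat_lit 50) (.e (nat_lit 786478) (nat_lit 29) .nil))))) .nil)) 
(.lf (nat_lit 185514) (.g (nat_lit 2914) (.e (nat_lit 57870) (nat_lit 264) (.e (nat_lit 1200) (nat_lit 88) (.e (nat_lit 65630) (nat_lit 14) (.e (nat_lit 401459) (nat_lit 13) (.e (nat_lit 483393) (nat_lit 23) .nil))))) .nil))) (.nd (nat_lit 5) 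
(.lf (nat_lit 185498) (.g (nat_lit 3683) (.e (nat_lit 57870) (nat_lit 264) (.e (nat_lit 1200) (nat_lit 88) (.e (nat_lit 65628) (nat_lit 14) (.e (nat_lit 401459) (nat_lit 13) (.e (nat_lit 483364) (nat_lit 18) (.e (nat_lit 65280) (nat_lit 217) (.e (nat_lit 57367) (nat_lit 1) .nil))))))) (.g (nat_lit 5) .nil .nil))) 
(.lf (nat_lit 185530) (.g (nat_lit 408) (.e (nat_lit 57870) (nat_lit 264) (.e (nat_lit 1209) (nat_lit 89) (.e (nat_lit 73782) (nat_lit 32) .nil))) .nil))))) (.nd (nat_lit 3) (.nd (nat_lit 4) (.nd (nat_lit 5) 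
(.lf (nat_lit 185478) (.g (nat_lit 1715) (.e (nat_lit 57870) (nat_lit 264) (.e (nat_lit 1200) (nat_lit 88) (.e (nat_lit 65619) (nat_lit 10) (.e (nat_lit 344169) (nat_lit 40) (.e (nat_lit 671761) (nat_lit 4) .nil))))) .nil)) 
(.lf (nat_lit 185510) (.g (nat_lit 1833) (.e (nat_lit 57870) (nat_lit 264) (.e (nat_lit 1200) (nat_lit 88) (.e (nat_lit 65630) (nat_lit 14) (.e (nat_lit 401457) (nat_lit 13) (.e (nat_lit 483393) (nat_lit 23) .nil))))) .nil))) (.nd (nat_lit 5) 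
(.lf (nat_lit 185494) (.g (nat_lit 1917) (.e (nat_lit 57870) (nat_lit 264) (.e (nat_lit 1200) (nat_lit 88) (.e (nat_lit 65628) (nat_lit 14) (.e (nat_lit 401459) (nat_lit 13) (.e (nat_lit 483344) (nat_lit 17) .nil))))) .nil)) 
(.lf (nat_lit 185526) (.g (nat_lit 2467) (.e (nat_lit 57870) (nat_lit 264) (.e (nat_lit 1209) (nat_lit 89) (.e (nat_lit 73781) (nat_lit 32) (.e (nat_lit 3090) (nat_lit 191) (.e (nat_lit 483350) (nat_lit 17) (.e (nat_lit 6490) (nat_lit 343) (.e (nat_lit 1179) (nat_lit 87) .nil))))))) (.g (nat_lit 5) .nil .nil))))) (.nd (nat_lit 4) (.nd (nat_lit 5) 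
(.lf (nat_lit 185486) (.g (nat_lit 2046) (.e (nat_lit 57870) (nat_lit 264) (.e (nat_lit 1200) (nat_lit 88) (.e (nat_lit 65624) (nat_lit 12) (.e (nat_lit 385093) (nat_lit 49) (.e (nat_lit 778326) (nat_lit 6) (.e (nat_lit 81950) (nat_lit 21) .nil)))))) (.g (nat_lit 4) .nil .nil))) 
(.lf (nat_lit 185518) (.g (nat_lit 462) (.e (nat_lit 57870) (nat_lit 264) (.e (nat_lit 1209) (nat_lit 89) (.e (nat_lit 73781) (nat_lit 32) .nil))) .nil))) (.nd (nat_lit 5) 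
(.lf (nat_lit 185502) (.g (nat_lit 2966) (.e (nat_lit 57870) (nat_lit 264) (.e (nat_lit 1200) (nat_lit 88) (.e (nat_lit 65629) (nat_lit 14) (.e (nat_lit 401459) (nat_lit 13) (.e (nat_lit 483347) (nat_lit 17) .nil))))) .nil)) 
(.lf (nat_lit 185534) (.g (nat_lit 2007) (.e (nat_lit 57870) (nat_lit 264) (.e (nat_lit 1209) (nat_lit 89) (.e (nat_lit 73782) (nat_lit 32) (.e (nat_lit 3088) (nat_lit 191) (.e (nat_lit 483389) (nat_lit 23) (.e (nat_lit 335997) (nat_lit 1) .nil)))))) (.g (nat_lit 4) .nil .nil)))))))) (.nd (nat_lit 1) (.nd (nat_lit 2) (.nd (nat_lit 3) (.nd (nat_lit 4) (.nd (nat_lit 5) 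
(.lf (nat_lit 185473) (.g (nat_lit 3636) (.e (nat_lit 57870) (nat_lit 264) (.e (nat_lit 1200) (nat_lit 88) (.e (nat_lit 65619) (nat_lit 10) (.e (nat_lit 344129) (nat_lit 26) (.e (nat_lit 557084) (nat_lit 10) (.e (nat_lit 8362) (nat_lit 89) (.e (nat_lit 720956) (nat_lit 25) (.e (nat_lit 114712) (nat_lit 21) .nil)))))))) (.g (nat_lit 5) .nil .nil))) 
(.lf (nat_lit 185505) (.g (nat_lit 2998) (.e (nat_lit 57870) (nat_lit 264) (.e (nat_lit 1200) (nat_lit 88) (.e (nat_lit 65629) (nat_lit 14) (.e (nat_lit 401459) (nat_lit 13) (.e (nat_lit 483363) (nat_lit 18) .nil))))) .nil))) (.nd (nat_lit 5) 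
(.lf (nat_lit 185489) (.g (nat_lit 1522) (.e (nat_lit 57870) (nat_lit 264) (.e (nat_lit 1200) (nat_lit 88) (.e (nat_lit 65628) (nat_lit 14) (.e (nat_lit 401437) (nat_lit 9) (.e (nat_lit 426533) (nat_lit 28) .nil))))) .nil)) 
(.lf (nat_lit 185521) (.g (nat_lit 2392) (.e (nat_lit 57870) (nat_lit 264) (.e (nat_lit 1209) (nat_lit 89) (.e (nat_lit 73781) (nat_lit 32) (.e (nat_lit 3088) (nat_lit 191) (.e (nat_lit 483393) (nat_lit 23) (.e (nat_lit 335987) (nat_lit 1) .nil)))))) (.g (nat_lit 5) .nil .nil))))) (.nd (nat_lit 4) (.nd (nat_lit 5) 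
(.lf (nat_lit 185481) (.g (nat_lit 1694) (.e (nat_lit 57870) (nat_lit 264) (.e (nat_lit 1200) (nat_lit 88) (.e (nat_lit 65622) (nat_lit 12) (.e (nat_lit 385093) (nat_lit 49) (.e (nat_lit 778326) (nat_lit 6) .nil))))) .nil)) 
(.lf (nat_lit 185513) (.g (nat_lit 3078) (.e (nat_lit 57870) (nat_lit 264) (.e (nat_lit 1200) (nat_lit 88) (.e (nat_lit 65630) (nat_lit 14) (.e (nat_lit 401459) (nat_lit 13) (.e (nat_lit 483363) (nat_lit 18) .nil))))) .nil))) (.nd (nat_lit 5) 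
(.lf (nat_lit 185497) (.g (nat_lit 2464) (.e (nat_lit 57870) (nat_lit 264) (.e (nat_lit 1200) (nat_lit 88) (.e (nat_lit 65628) (nat_lit 14) (.e (nat_lit 401459) (nat_lit 13) (.e (nat_lit 483354) (nat_lit 17) (.e (nat_lit 6493) (nat_lit 343) (.e (nat_lit 1179) (nat_lit 87) .nil))))))) (.g (nat_lit 4) .nil .nil))) 
(.lf (nat_lit 185529) (.g (nat_lit 1811) (.e (nat_lit 57870) (nat_lit 264) (.e (nat_lit 1209) (nat_lit 89) (.e (nat_lit 73781) (nat_lit 32) (.e (nat_lit 3090) (nat_lit 191) (.e (nat_lit 491264) (nat_lit 23) (.e (nat_lit 335995) (nat_lit 1) .nil)))))) (.g (nat_lit 4) .nil .nil)))))) (.nd (nat_lit 3) (.nd (nat_lit 4) (.nd (nat_lit 5) 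
(.lf (nat_lit 185477) (.g (nat_lit 1654) (.e (nat_lit 57870) (nat_lit 264) (.e (nat_lit 1200) (nat_lit 88) (.e (nat_lit 65619) (nat_lit 10) (.e (nat_lit 344169) (nat_lit 40) (.e (nat_lit 671760) (nat_lit 4) .nil))))) .nil)) 
(.lf (nat_lit 185509) (.g (nat_lit 1732) (.e (nat_lit 57870) (nat_lit 264) (.e (nat_lit 1200) (nat_lit 88) (.e (nat_lit 65630) (nat_lit 14) (.e (nat_lit 401457) (nat_lit 13) (.e (nat_lit 483389) (nat_lit 23) .nil))))) .nil))) (.nd (nat_lit 5) 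
(.lf (nat_lit 185493) (.g (nat_lit 2185) (.e (nat_lit 57870) (nat_lit 264) (.e (nat_lit 1200) (nat_lit 88) (.e (nat_lit 65628) (nat_lit 14) (.e (nat_lit 401459) (nat_lit 13) (.e (nat_lit 483343) (nat_lit 17) .nil))))) .nil)) 
(.lf (nat_lit 185525) (.g (nat_lit 854) (.e (nat_lit 57870) (nat_lit 264) (.e (nat_lit 1209) (nat_lit 89) (.e (nat_lit 73781) (nat_lit 32) (.e (nat_lit 3090) (nat_lit 191) .nil)))) .nil)))) (.nd (nat_lit 4) (.nd (nat_lit 5) 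
(.lf (nat_lit 185485) (.g (nat_lit 1960) (.e (nat_lit 57870) (nat_lit 264) (.e (nat_lit 1200) (nat_lit 88) (.e (nat_lit 65624) (nat_lit 12) (.e (nat_lit 385093) (nat_lit 49) (.e (nat_lit 778326) (nat_lit 6) (.e (nat_lit 81948) (nat_lit 21) .nil)))))) (.g (nat_lit 4) .nil .nil))) 
(.lf (nat_lit 185517) (.g (nat_lit 426) (.e (nat_lit 57870) (nat_lit 264) (.e (nat_lit 1209) (nat_lit 89) (.e (nat_lit 73780) (nat_lit 32) .nil))) .nil))) (.nd (nat_lit 5) 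
(.lf (nat_lit 185501) (.g (nat_lit 2303) (.e (nat_lit 57870) (nat_lit 264) (.e (nat_lit 1200) (nat_lit 88) (.e (nat_lit 65629) (nat_lit 14) (.e (nat_lit 401459) (nat_lit 13) (.e (nat_lit 483344) (nat_lit 17) .nil))))) .nil)) 
(.lf (nat_lit 185533) (.g (nat_lit 3090) (.e (nat_lit 57870) (nat_lit 264) (.e (nat_lit 1209) (nat_lit 89) (.e (nat_lit 73782) (nat_lit 32) (.e (nat_lit 2857) (nat_lit 184) (.e (nat_lit 426542) (nat_lit 29) (.e (nat_lit 352309) (nat_lit 21) .nil)))))) (.g (nat_lit 0) .nil .nil))))))) (.nd (nat_lit 2) (.nd (nat_lit 3) (.nd (nat_lit 4) (.nd (nat_lit 5) 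
(.lf (nat_lit 185475) (.g (nat_lit 1624) (.e (nat_lit 57870) (nat_lit 264) (.e (nat_lit 1200) (nat_lit 88) (.e (nat_lit 65619) (nat_lit 10) (.e (nat_lit 344168) (nat_lit 40) (.e (nat_lit 671761) (nat_lit 4) .nil))))) .nil)) 
(.lf (nat_lit 185507) (.g (nat_lit 3082) (.e (nat_lit 57870) (nat_lit 264) (.e (nat_lit 1200) (nat_lit 88) (.e (nat_lit 65629) (nat_lit 14) (.e (nat_lit 401459) (nat_lit 13) (.e (nat_lit 483393) (nat_lit 23) .nil))))) .nil))) (.nd (nat_lit 5) 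
(.lf (nat_lit 185491) (.g (nat_lit 2073) (.e (nat_lit 57870) (nat_lit 264) (.e (nat_lit 1200) (nat_lit 88) (.e (nat_lit 65628) (nat_lit 14) (.e (nat_lit 401457) (nat_lit 13) (.e (nat_lit 491264) (nat_lit 23) (.e (nat_lit 335995) (nat_lit 1) .nil)))))) (.g (nat_lit 4) .nil .nil))) 
(.lf (nat_lit 185523) (.g (nat_lit 2018) (.e (nat_lit 57870) (nat_lit 264) (.e (nat_lit 1209) (nat_lit 89) (.e (nat_lit 73781) (nat_lit 32) (.e (nat_lit 3089) (nat_lit 191) (.e (nat_lit 483387) (nat_lit 23) (.e (nat_lit 335997) (nat_lit 1) .nil)))))) (.g (nat_lit 4) .nil .nil))))) (.nd (nat_lit 4) (.nd (nat_lit 5) 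
(.lf (nat_lit 185483) (.g (nat_lit 1526) (.e (nat_lit 57870) (nat_lit 264) (.e (nat_lit 1200) (nat_lit 88) (.e (nat_lit 65623) (nat_lit 12) (.e (nat_lit 385094) (nat_lit 49) (.e (nat_lit 778327) (nat_lit 6) .nil))))) .nil)) 
(.lf (nat_lit 185515) (.g (nat_lit 2684) (.e (nat_lit 57870) (nat_lit 264) (.e (nat_lit 1200) (nat_lit 88) (.e (nat_lit 65630) (nat_lit 14) (.e (nat_lit 401459) (nat_lit 13) (.e (nat_lit 491264) (nat_lit 23) .nil))))) .nil))) (.nd (nat_lit 5) 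
(.lf (nat_lit 185499) (.g (nat_lit 2686) (.e (nat_lit 57870) (nat_lit 264) (.e (nat_lit 1200) (nat_lit 88) (.e (nat_lit 65628) (nat_lit 14) (.e (nat_lit 401459) (nat_lit 13) (.e (nat_lit 483392) (nat_lit 23) .nil))))) .nil)) 
(.lf (nat_lit 185531) (.g (nat_lit 2025) (.e (nat_lit 57870) (nat_lit 264) (.e (nat_lit 1209) (nat_lit 89) (.e (nat_lit 73782) (nat_lit 32) (.e (nat_lit 2856) (nat_lit 184) (.e (nat_lit 426556) (nat_lit 32) .nil))))) .nil))))) (.nd (nat_lit 3) (.nd (nat_lit 4) (.nd (nat_lit 5) 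
(.lf (nat_lit 185479) (.g (nat_lit 2575) (.e (nat_lit 57870) (nat_lit 264) (.e (nat_lit 1200) (nat_lit 88) (.e (nat_lit 65619) (nat_lit 10) (.e (nat_lit 344169) (nat_lit 40) (.e (nat_lit 671764) (nat_lit 6) (.e (nat_lit 81950) (nat_lit 21) .nil)))))) (.g (nat_lit 0) .nil .nil))) 
(.lf (nat_lit 185511) (.g (nat_lit 2254) (.e (nat_lit 57870) (nat_lit 264) (.e (nat_lit 1200) (nat_lit 88) (.e (nat_lit 65630) (nat_lit 14) (.e (nat_lit 401459) (nat_lit 13) (.e (nat_lit 483344) (nat_lit 17) .nil))))) .nil))) (.nd (nat_lit 5) 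
(.lf (nat_lit 185495) (.g (nat_lit 2333) (.e (nat_lit 57870) (nat_lit 264) (.e (nat_lit 1200) (nat_lit 88) (.e (nat_lit 65628) (nat_lit 14) (.e (nat_lit 401459) (nat_lit 13) (.e (nat_lit 483347) (nat_lit 17) .nil))))) .nil)) 
(.lf (nat_lit 185527) (.g (nat_lit 1884) (.e (nat_lit 57870) (nat_lit 264) (.e (nat_lit 1209) (nat_lit 89) (.e (nat_lit 73781) (nat_lit 32) (.e (nat_lit 3090) (nat_lit 191) (.e (nat_lit 483389) (nat_lit 23) .nil))))) .nil)))) (.nd (nat_lit 4) (.nd (nat_lit 5) 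
(.lf (nat_lit 185487) (.g (nat_lit 2064) (.e (nat_lit 57870) (nat_lit 264) (.e (nat_lit 1200) (nat_lit 88) (.e (nat_lit 65628) (nat_lit 14) (.e (nat_lit 401435) (nat_lit 9) (.e (nat_lit 426555) (nat_lit 32) .nil))))) .nil)) 
(.lf (nat_lit 185519) (.g (nat_lit 2048) (.e (nat_lit 57870) (nat_lit 264) (.e (nat_lit 1209) (nat_lit 89) (.e (nat_lit 73781) (nat_lit 32) (.e (nat_lit 2856) (nat_lit 184) (.e (nat_lit 426533) (nat_lit 28) (.e (nat_lit 352000) (nat_lit 8) (.e (nat_lit 1181) (nat_lit 87) .nil))))))) (.g (nat_lit 4) .nil .nil)))) (.nd (nat_lit 5) 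
(.lf (nat_lit 185503) (.g (nat_lit 3100) (.e (nat_lit 57870) (nat_lit 264) (.e (nat_lit 1200) (nat_lit 88) (.e (nat_lit 65629) (nat_lit 14) (.e (nat_lit 401459) (nat_lit 13) (.e (nat_lit 483354) (nat_lit 17) .nil))))) .nil)) 
(.lf (nat_lit 185535) (.g (nat_lit 1605) (.e (nat_lit 57870) (nat_lit 264) (.e (nat_lit 1209) (nat_lit 89) (.e (nat_lit 73782) (nat_lit 32) (.e (nat_lit 3089) (nat_lit 191) (.e (nat_lit 491264) (nat_lit 23) .nil))))) .nil))))))))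

noncomputable def tv2468 : DT := (.nd (nat_lit 0) (.nd (nat_lit 1) (.nd (nat_lit 2) (.nd (nat_lit 3) (.nd (nat_lit 4) (.nd (nat_lit 5) 
(.lf (nat_lit 185536) (.g (nat_lit 2073) (.e (nat_lit 57870) (nat_lit 264) (.e (nat_lit 1209) (nat_lit 89) (.e (nat_lit 73782) (nat_lit 32) (.e (nat_lit 3090) (nat_lit 191) (.e (nat_lit 483350) (nat_lit 17) (.e (nat_lit 6490) (nat_lit 343) (.e (nat_lit 1179) (nat_lit 87) .nil))))))) (.g (nat_lit 5) .nil .nil))) 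
(.lf (nat_lit 185568) (.g (nat_lit 2740) (.e (nat_lit 57870) (nat_lit 264) (.e (nat_lit 1219) (nat_lit 90) (.e (nat_lit 81950) (nat_lit 21) (.e (nat_lit 57873) (nat_lit 264) (.e (nat_lit 1190) (nat_lit 88) (.e (nat_lit 65604) (nat_lit 9) (.e (nat_lit 335997) (nat_lit 1) .nil))))))) (.g (nat_lit 5) .nil .nil)))) (.nd (nat_lit 5) 
(.lf (nat_lit 185552) (.g (nat_lit 1361) (.e (nat_lit 57870) (nat_lit 264) (.e (nat_lit 1211) (nat_lit 89) (.e (nat_lit 73782) (nat_lit 32) (.e (nat_lit 3088) (nat_lit 191) (.e (nat_lit 483393) (nat_lit 23) .nil))))) .nil)) 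
(.lf (nat_lit 185584) (.g (nat_lit 791) (.e (nat_lit 57870) (nat_lit 264) (.e (nat_lit 1220) (nat_lit 90) (.e (nat_lit 81931) (nat_lit 20) (.e (nat_lit 1999) (nat_lit 137) .nil)))) .nil)))) (.nd (nat_lit 4) (.nd (nat_lit 5) 
(.lf (nat_lit 185544) (.g (nat_lit 1594) (.e (nat_lit 57870) (nat_lit 264) (.e (nat_lit 1209) (nat_lit 89) (.e (nat_lit 73795) (nat_lit 47) (.e (nat_lit 123165) (nat_lit 256) (.e (nat_lit 318) (nat_lit 23) (.e (nat_lit 352307) (nat_lit 21) .nil)))))) (.g (nat_lit 0) .nil .nil))) 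
(.lf (nat_lit 185576) (.g (nat_lit 1962) (.e (nat_lit 57870) (nat_lit 264) (.e (nat_lit 1219) (nat_lit 90) (.e (nat_lit 81956) (nat_lit 23) (.e (nat_lit 98346) (nat_lit 22) .nil)))) .nil))) (.nd (nat_lit 5) 
(.lf (nat_lit 185560) (.g (nat_lit 443) (.e (nat_lit 57870) (nat_lit 264) (.e (nat_lit 1219) (nat_lit 90) (.e (nat_lit 81931) (nat_lit 20) .nil))) .nil)) 
(.lf (nat_lit 185592) (.g (nat_lit 1734) (.e (nat_lit 57870) (nat_lit 264) (.e (nat_lit 1220) (nat_lit 90) (.e (nat_lit 81948) (nat_lit 21) (.e (nat_lit 57872) (nat_lit 264) (.e (nat_lit 1221) (nat_lit 90) .nil))))) .nil))))) (.nd (nat_lit 3) (.nd (nat_lit 4) (.nd (nat_lit 5) 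
(.lf (nat_lit 185540) (.g (nat_lit 411) (.e (nat_lit 57870) (nat_lit 264) (.e (nat_lit 1209) (nat_lit 89) (.e (nat_lit 73787) (nat_lit 45) .nil))) .nil)) 
(.lf (nat_lit 185572) (.g (nat_lit 1176) (.e (nat_lit 57870) (nat_lit 264) (.e (nat_lit 1219) (nat_lit 90) (.e (nat_lit 81954) (nat_lit 23) (.e (nat_lit 98345) (nat_lit 22) .nil)))) .nil))) (.nd (nat_lit 5) 
(.lf (nat_lit 185556) (.g (nat_lit 1380) (.e (nat_lit 57870) (nat_lit 264) (.e (nat_lit 1211) (nat_lit 89) (.e (nat_lit 73782) (nat_lit 32) (.e (nat_lit 3090) (nat_lit 191) (.e (nat_lit 483386) (nat_lit 23) .nil))))) .nil)) 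
(.lf (nat_lit 185588) (.g (nat_lit 1711) (.e (nat_lit 57870) (nat_lit 264) (.e (nat_lit 1220) (nat_lit 90) (.e (nat_lit 81947) (nat_lit 20) (.e (nat_lit 2006) (nat_lit 138) (.e (nat_lit 671762) (nat_lit 4) .nil))))) .nil)))) (.nd (nat_lit 4) (.nd (nat_lit 5) 
(.lf (nat_lit 185548) (.g (nat_lit 1613) (.e (nat_lit 57870) (nat_lit 264) (.e (nat_lit 1210) (nat_lit 89) (.e (nat_lit 73782) (nat_lit 32) (.e (nat_lit 3090) (nat_lit 191) (.e (nat_lit 483393) (nat_lit 23) .nil))))) .nil)) 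
(.lf (nat_lit 185580) (.g (nat_lit 1251) (.e (nat_lit 57870) (nat_lit 264) (.e (nat_lit 1219) (nat_lit 90) (.e (nat_lit 81957) (nat_lit 24) (.e (nat_lit 123185) (nat_lit 264) (.e (nat_lit 7936) (nat_lit 90) .nil))))) .nil))) (.nd (nat_lit 5) 
(.lf (nat_lit 185564) (.g (nat_lit 1552) (.e (nat_lit 57870) (nat_lit 264) (.e (nat_lit 1219) (nat_lit 90) (.e (nat_lit 81948) (nat_lit 21) (.e (nat_lit 57873) (nat_lit 264) (.e (nat_lit 1189) (nat_lit 88) (.e (nat_lit 65604) (nat_lit 9) (.e (nat_lit 335997) (nat_lit 1) .nil))))))) (.g (nat_lit 4) .nil .nil))) 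
(.lf (nat_lit 185596) (.g (nat_lit 2814) (.e (nat_lit 57870) (nat_lit 264) (.e (nat_lit 1220) (nat_lit 90) (.e (nat_lit 81950) (nat_lit 21) (.e (nat_lit 57872) (nat_lit 264) (.e (nat_lit 1219) (nat_lit 90) (.e (nat_lit 81950) (nat_lit 21) .nil)))))) (.g (nat_lit 5) .nil .nil))))))) (.nd (nat_lit 2) (.nd (nat_lit 3) (.nd (nat_lit 4) (.nd (nat_lit 5) 
(.lf (nat_lit 185538) (.g (nat_lit 547) (.e (nat_lit 57870) (nat_lit 264) (.e (nat_lit 1209) (nat_lit 89) (.e (nat_lit 81664) (nat_lit 36) .nil))) .nil)) 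
(.lf (nat_lit 185570) (.g (nat_lit 958) (.e (nat_lit 57870) (nat_lit 264) (.e (nat_lit 1219) (nat_lit 90) (.e (nat_lit 81954) (nat_lit 23) (.e (nat_lit 106240) (nat_lit 10) .nil)))) .nil))) (.nd (nat_lit 5) 
(.lf (nat_lit 185554) (.g (nat_lit 1230) (.e (nat_lit 57870) (nat_lit 264) (.e (nat_lit 1211) (nat_lit 89) (.e (nat_lit 73782) (nat_lit 32) (.e (nat_lit 3089) (nat_lit 191) (.e (nat_lit 483389) (nat_lit 23) .nil))))) .nil)) 
(.lf (nat_lit 185586) (.g (nat_lit 868) (.e (nat_lit 57870) (nat_lit 264) (.e (nat_lit 1220) (nat_lit 90) (.e (nat_lit 81938) (nat_lit 20) (.e (nat_lit 2005) (nat_lit 138) .nil)))) .nil)))) (.nd (nat_lit 4) (.nd (nat_lit 5) 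
(.lf (nat_lit 185546) (.g (nat_lit 1430) (.e (nat_lit 57870) (nat_lit 264) (.e (nat_lit 1210) (nat_lit 89) (.e (nat_lit 73781) (nat_lit 32) (.e (nat_lit 3090) (nat_lit 191) (.e (nat_lit 483389) (nat_lit 23) .nil))))) .nil)) 
(.lf (nat_lit 185578) (.g (nat_lit 1014) (.e (nat_lit 57870) (nat_lit 264) (.e (nat_lit 1219) (nat_lit 90) (.e (nat_lit 81957) (nat_lit 24) (.e (nat_lit 123185) (nat_lit 264) .nil)))) .nil))) (.nd (nat_lit 5) 
(.lf (nat_lit 185562) (.g (nat_lit 1351) (.e (nat_lit 57870) (nat_lit 264) (.e (nat_lit 1219) (nat_lit 90) (.e (nat_lit 81947) (nat_lit 20) (.e (nat_lit 2006) (nat_lit 138) (.e (nat_lit 671748) (nat_lit 0) .nil))))) .nil)) 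
(.lf (nat_lit 185594) (.g (nat_lit 2773) (.e (nat_lit 57870) (nat_lit 264) (.e (nat_lit 1220) (nat_lit 90) (.e (nat_lit 81950) (nat_lit 21) (.e (nat_lit 57870) (nat_lit 264) (.e (nat_lit 1219) (nat_lit 90) (.e (nat_lit 81948) (nat_lit 21) .nil)))))) (.g (nat_lit 0) .nil .nil)))))) (.nd (nat_lit 3) (.nd (nat_lit 4) (.nd (nat_lit 5) 
(.lf (nat_lit 185542) (.g (nat_lit 389) (.e (nat_lit 57870) (nat_lit 264) (.e (nat_lit 1209) (nat_lit 89) (.e (nat_lit 73794) (nat_lit 46) .nil))) .nil)) 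
(.lf (nat_lit 185574) (.g (nat_lit 2585) (.e (nat_lit 57870) (nat_lit 264) (.e (nat_lit 1219) (nat_lit 90) (.e (nat_lit 81956) (nat_lit 23) (.e (nat_lit 98320) (nat_lit 17) .nil)))) .nil))) (.nd (nat_lit 5) 
(.lf (nat_lit 185558) (.g (nat_lit 220) (.e (nat_lit 57870) (nat_lit 264) (.e (nat_lit 1211) (nat_lit 89) (.e (nat_lit 81664) (nat_lit 39) .nil))) .nil)) 
(.lf (nat_lit 185590) (.g (nat_lit 1918) (.e (nat_lit 57870) (nat_lit 264) (.e (nat_lit 1220) (nat_lit 90) (.e (nat_lit 81948) (nat_lit 21) (.e (nat_lit 57872) (nat_lit 264) (.e (nat_lit 1190) (nat_lit 88) (.e (nat_lit 65604) (nat_lit 9) (.e (nat_lit 335997) (nat_lit 1) .nil))))))) (.g (nat_lit 4) .nil .nil))))) (.nd (nat_lit 4) (.nd (nat_lit 5) 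
(.lf (nat_lit 185550) (.g (nat_lit 1257) (.e (nat_lit 57870) (nat_lit 264) (.e (nat_lit 1211) (nat_lit 89) (.e (nat_lit 73781) (nat_lit 32) (.e (nat_lit 3088) (nat_lit 191) (.e (nat_lit 483390) (nat_lit 23) .nil))))) .nil)) 
(.lf (nat_lit 185582) (.g (nat_lit 1003) (.e (nat_lit 57870) (nat_lit 264) (.e (nat_lit 1219) (nat_lit 90) (.e (nat_lit 81959) (nat_lit 24) (.e (nat_lit 123195) (nat_lit 266) .nil)))) .nil))) (.nd (nat_lit 5) 
(.lf (nat_lit 185566) (.g (nat_lit 1219) (.e (nat_lit 57870) (nat_lit 264) (.e (nat_lit 1219) (nat_lit 90) (.e (nat_lit 81950) (nat_lit 21) (.e (nat_lit 57870) (nat_lit 264) (.e (nat_lit 1219) (nat_lit 90) .nil))))) .nil)) 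
(.lf (nat_lit 185598) (.g (nat_lit 3770) (.e (nat_lit 57870) (nat_lit 264) (.e (nat_lit 1220) (nat_lit 90) (.e (nat_lit 81950) (nat_lit 21) (.e (nat_lit 57873) (nat_lit 264) (.e (nat_lit 1221) (nat_lit 90) (.e (nat_lit 81950) (nat_lit 21) .nil)))))) (.g (nat_lit 0) .nil .nil)))))))) (.nd (nat_lit 1) (.nd (nat_lit 2) (.nd (nat_lit 3) (.nd (nat_lit 4) (.nd (nat_lit 5) 
(.lf (nat_lit 185537) (.g (nat_lit 1939) (.e (nat_lit 57870) (nat_lit 264) (.e (nat_lit 1209) (nat_lit 89) (.e (nat_lit 73782) (nat_lit 32) (.e (nat_lit 3090) (nat_lit 191) (.e (nat_lit 491264) (nat_lit 23) (.e (nat_lit 335995) (nat_lit 1) .nil)))))) (.g (nat_lit 4) .nil .nil))) 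
(.lf (nat_lit 185569) (.g (nat_lit 2039) (.e (nat_lit 57870) (nat_lit 264) (.e (nat_lit 1219) (nat_lit 90) (.e (nat_lit 81950) (nat_lit 21) (.e (nat_lit 57873) (nat_lit 264) (.e (nat_lit 1219) (nat_lit 90) (.e (nat_lit 81948) (nat_lit 21) .nil)))))) (.g (nat_lit 4) .nil .nil)))) (.nd (nat_lit 5) 
(.lf (nat_lit 185553) (.g (nat_lit 1386) (.e (nat_lit 57870) (nat_lit 264) (.e (nat_lit 1211) (nat_lit 89) (.e (nat_lit 73782) (nat_lit 32) (.e (nat_lit 3089) (nat_lit 191) (.e (nat_lit 483387) (nat_lit 23) .nil))))) .nil)) 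
(.lf (nat_lit 185585) (.g (nat_lit 447) (.e (nat_lit 57870) (nat_lit 264) (.e (nat_lit 1220) (nat_lit 90) (.e (nat_lit 81933) (nat_lit 20) .nil))) .nil)))) (.nd (nat_lit 4) (.nd (nat_lit 5) 
(.lf (nat_lit 185545) (.g (nat_lit 1023) (.e (nat_lit 57870) (nat_lit 264) (.e (nat_lit 1210) (nat_lit 89) (.e (nat_lit 73781) (nat_lit 32) (.e (nat_lit 3088) (nat_lit 191) (.e (nat_lit 491264) (nat_lit 23) .nil))))) .nil)) 
(.lf (nat_lit 185577) (.g (nat_lit 3517) (.e (nat_lit 57870) (nat_lit 264) (.e (nat_lit 1219) (nat_lit 90) (.e (nat_lit 81957) (nat_lit 24) (.e (nat_lit 123184) (nat_lit 264) (.e (nat_lit 1222) (nat_lit 90) (.e (nat_lit 81948) (nat_lit 21) .nil)))))) (.g (nat_lit 0) .nil .nil)))) (.nd (nat_lit 5) 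
(.lf (nat_lit 185561) (.g (nat_lit 1205) (.e (nat_lit 57870) (nat_lit 264) (.e (nat_lit 1219) (nat_lit 90) (.e (nat_lit 81947) (nat_lit 20) (.e (nat_lit 2003) (nat_lit 138) (.e (nat_lit 671764) (nat_lit 6) .nil))))) .nil)) 
(.lf (nat_lit 185593) (.g (nat_lit 3236) (.e (nat_lit 57870) (nat_lit 264) (.e (nat_lit 1220) (nat_lit 90) (.e (nat_lit 81950) (nat_lit 21) (.e (nat_lit 57870) (nat_lit 264) (.e (nat_lit 1189) (nat_lit 88) (.e (nat_lit 65604) (nat_lit 9) (.e (nat_lit 335997) (nat_lit 1) .nil))))))) (.g (nat_lit 0) .nil .nil)))))) (.nd (nat_lit 3) (.nd (nat_lit 4) (.nd (nat_lit 5) 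
(.lf (nat_lit 185541) (.g (nat_lit 475) (.e (nat_lit 57870) (nat_lit 264) (.e (nat_lit 1209) (nat_lit 89) (.e (nat_lit 73789) (nat_lit 45) (.e (nat_lit 7936) (nat_lit 104) .nil)))) .nil)) 
(.lf (nat_lit 185573) (.g (nat_lit 1185) (.e (nat_lit 57870) (nat_lit 264) (.e (nat_lit 1219) (nat_lit 90) (.e (nat_lit 81954) (nat_lit 23) (.e (nat_lit 98346) (nat_lit 22) .nil)))) .nil))) (.nd (nat_lit 5) 
(.lf (nat_lit 185557) (.g (nat_lit 1655) (.e (nat_lit 57870) (nat_lit 264) (.e (nat_lit 1211) (nat_lit 89) (.e (nat_lit 73782) (nat_lit 32) (.e (nat_lit 3090) (nat_lit 191) (.e (nat_lit 483393) (nat_lit 23) .nil))))) .nil)) 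
(.lf (nat_lit 185589) (.g (nat_lit 1384) (.e (nat_lit 57870) (nat_lit 264) (.e (nat_lit 1220) (nat_lit 90) (.e (nat_lit 81948) (nat_lit 21) (.e (nat_lit 57871) (nat_lit 264) (.e (nat_lit 1200) (nat_lit 88) .nil))))) .nil)))) (.nd (nat_lit 4) (.nd (nat_lit 5) 
(.lf (nat_lit 185549) (.g (nat_lit 1344) (.e (nat_lit 57870) (nat_lit 264) (.e (nat_lit 1210) (nat_lit 89) (.e (nat_lit 73782) (nat_lit 32) (.e (nat_lit 3090) (nat_lit 191) (.e (nat_lit 491264) (nat_lit 23) .nil))))) .nil)) 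
(.lf (nat_lit 185581) (.g (nat_lit 432) (.e (nat_lit 57870) (nat_lit 264) (.e (nat_lit 1219) (nat_lit 90) (.e (nat_lit 81959) (nat_lit 24) .nil))) .nil))) (.nd (nat_lit 5) 
(.lf (nat_lit 185565) (.g (nat_lit 2551) (.e (nat_lit 57870) (nat_lit 264) (.e (nat_lit 1219) (nat_lit 90) (.e (nat_lit 81948) (nat_lit 21) (.e (nat_lit 57873) (nat_lit 264) (.e (nat_lit 1219) (nat_lit 90) (.e (nat_lit 81948) (nat_lit 21) .nil)))))) (.g (nat_lit 0) .nil .nil))) 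
(.lf (nat_lit 185597) (.g (nat_lit 2482) (.e (nat_lit 57870) (nat_lit 264) (.e (nat_lit 1220) (nat_lit 90) (.e (nat_lit 81950) (nat_lit 21) (.e (nat_lit 57873) (nat_lit 264) (.e (nat_lit 1189) (nat_lit 88) (.e (nat_lit 65604) (nat_lit 9) (.e (nat_lit 335997) (nat_lit 1) .nil))))))) (.g (nat_lit 4) .nil .nil))))))) (.nd (nat_lit 2) (.nd (nat_lit 3) (.nd (nat_lit 4) (.nd (nat_lit 5) 
(.lf (nat_lit 185539) (.g (nat_lit 547) (.e (nat_lit 57870) (nat_lit 264) (.e (nat_lit 1209) (nat_lit 89) (.e (nat_lit 81664) (nat_lit 39) .nil))) .nil)) 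
(.lf (nat_lit 185571) (.g (nat_lit 1129) (.e (nat_lit 57870) (nat_lit 264) (.e (nat_lit 1219) (nat_lit 90) (.e (nat_lit 81954) (nat_lit 23) (.e (nat_lit 98321) (nat_lit 17) (.e (nat_lit 7936) (nat_lit 220) .nil))))) .nil))) (.nd (nat_lit 5) 
(.lf (nat_lit 185555) (.g (nat_lit 1188) (.e (nat_lit 57870) (nat_lit 264) (.e (nat_lit 1211) (nat_lit 89) (.e (nat_lit 73782) (nat_lit 32) (.e (nat_lit 3089) (nat_lit 191) (.e (nat_lit 483393) (nat_lit 23) .nil))))) .nil)) 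
(.lf (nat_lit 185587) (.g (nat_lit 470) (.e (nat_lit 57870) (nat_lit 264) (.e (nat_lit 1220) (nat_lit 90) (.e (nat_lit 81939) (nat_lit 20) .nil))) .nil)))) (.nd (nat_lit 4) (.nd (nat_lit 5) 
(.lf (nat_lit 185547) (.g (nat_lit 1454) (.e (nat_lit 57870) (nat_lit 264) (.e (nat_lit 1210) (nat_lit 89) (.e (nat_lit 73782) (nat_lit 32) (.e (nat_lit 3088) (nat_lit 191) (.e (nat_lit 483389) (nat_lit 23) .nil))))) .nil)) 
(.lf (nat_lit 185579) (.g (nat_lit 2801) (.e (nat_lit 57870) (nat_lit 264) (.e (nat_lit 1219) (nat_lit 90) (.e (nat_lit 81957) (nat_lit 24) (.e (nat_lit 123185) (nat_lit 264) (.e (nat_lit 1222) (nat_lit 90) (.e (nat_lit 81948) (nat_lit 21) .nil)))))) (.g (nat_lit 0) .nil .nil)))) (.nd (nat_lit 5) 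
(.lf (nat_lit 185563) (.g (nat_lit 2734) (.e (nat_lit 57870) (nat_lit 264) (.e (nat_lit 1219) (nat_lit 90) (.e (nat_lit 81948) (nat_lit 21) (.e (nat_lit 57872) (nat_lit 264) (.e (nat_lit 1219) (nat_lit 90) (.e (nat_lit 81948) (nat_lit 21) .nil)))))) (.g (nat_lit 0) .nil .nil))) 
(.lf (nat_lit 185595) (.g (nat_lit 3453) (.e (nat_lit 57870) (nat_lit 264) (.e (nat_lit 1220) (nat_lit 90) (.e (nat_lit 81950) (nat_lit 21) (.e (nat_lit 57872) (nat_lit 264) (.e (nat_lit 1219) (nat_lit 90) (.e (nat_lit 81948) (nat_lit 21) .nil)))))) (.g (nat_lit 0) .nil .nil)))))) (.nd (nat_lit 3) (.nd (nat_lit 4) (.nd (nat_lit 5) 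
(.lf (nat_lit 185543) (.g (nat_lit 1594) (.e (nat_lit 57870) (nat_lit 264) (.e (nat_lit 1209) (nat_lit 89) (.e (nat_lit 73794) (nat_lit 46) (.e (nat_lit 57864) (nat_lit 256) (.e (nat_lit 317) (nat_lit 23) (.e (nat_lit 352307) (nat_lit 21) .nil)))))) (.g (nat_lit 0) .nil .nil))) 
(.lf (nat_lit 185575) (.g (nat_lit 1909) (.e (nat_lit 57870) (nat_lit 264) (.e (nat_lit 1219) (nat_lit 90) (.e (nat_lit 81956) (nat_lit 23) (.e (nat_lit 98321) (nat_lit 17) (.e (nat_lit 7936) (nat_lit 220) .nil))))) .nil))) (.nd (nat_lit 5) 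
(.lf (nat_lit 185559) (.g (nat_lit 381) (.e (nat_lit 57870) (nat_lit 264) (.e (nat_lit 1219) (nat_lit 90) (.e (nat_lit 81922) (nat_lit 0) .nil))) .nil)) 
(.lf (nat_lit 185591) (.g (nat_lit 1863) (.e (nat_lit 57870) (nat_lit 264) (.e (nat_lit 1220) (nat_lit 90) (.e (nat_lit 81948) (nat_lit 21) (.e (nat_lit 57872) (nat_lit 264) (.e (nat_lit 1200) (nat_lit 88) (.e (nat_lit 65604) (nat_lit 9) (.e (nat_lit 335997) (nat_lit 1) .nil))))))) (.g (nat_lit 4) .nil .nil))))) (.nd (nat_lit 4) (.nd (nat_lit 5) 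
(.lf (nat_lit 185551) (.g (nat_lit 1094) (.e (nat_lit 57870) (nat_lit 264) (.e (nat_lit 1211) (nat_lit 89) (.e (nat_lit 73781) (nat_lit 32) (.e (nat_lit 3088) (nat_lit 191) (.e (nat_lit 491264) (nat_lit 23) .nil))))) .nil)) 
(.lf (nat_lit 185583) (.g (nat_lit 437) (.e (nat_lit 57870) (nat_lit 264) (.e (nat_lit 1220) (nat_lit 90) (.e (nat_lit 81931) (nat_lit 20) .nil))) .nil))) (.nd (nat_lit 5) 
(.lf (nat_lit 185567) (.g (nat_lit 1227) (.e (nat_lit 57870) (nat_lit 264) (.e (nat_lit 1219) (nat_lit 90) (.e (nat_lit 81950) (nat_lit 21) (.e (nat_lit 57871) (nat_lit 264) (.e (nat_lit 1219) (nat_lit 90) .nil))))) .nil)) 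
(.lf (nat_lit 185599) (.g (nat_lit 2045) (.e (nat_lit 57870) (nat_lit 264) (.e (nat_lit 1220) (nat_lit 90) (.e (nat_lit 81950) (nat_lit 21) (.e (nat_lit 57873) (nat_lit 264) (.e (nat_lit 7936) (nat_lit 90) .nil))))) .nil))))))))

noncomputable def tv2469 : DT := (.nd (nat_lit 0) (.nd (nat_lit 1) (.nd (nat_lit 2) (.nd (nat_lit 3) (.nd (nat_lit 4) (.nd (nat_lit 5) (.nd (nat_lit 6) 
(.lf (nat_lit 185600) (.g (nat_lit 1773) (.e (nat_lit 57870) (nat_lit 264) (.e (nat_lit 1220) (nat_lit 90) (.e (nat_lit 81950) (nat_lit 21) (.e (nat_lit 65280) (nat_lit 266) .nil)))) .nil)) 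
(.lf (nat_lit 185664) (.g (nat_lit 303) (.e (nat_lit 57870) (nat_lit 264) (.e (nat_lit 1221) (nat_lit 90) (.e (nat_lit 81956) (nat_lit 23) .nil))) .nil))) (.nd (nat_lit 6) 
(.lf (nat_lit 185632) (.g (nat_lit 1226) (.e (nat_lit 57870) (nat_lit 264) (.e (nat_lit 1220) (nat_lit 90) (.e (nat_lit 81959) (nat_lit 24) (.e (nat_lit 123191) (nat_lit 264) .nil)))) .nil)) 
(.lf (nat_lit 185696) (.g (nat_lit 2059) (.e (nat_lit 57870) (nat_lit 264) (.e (nat_lit 1221) (nat_lit 90) (.e (nat_lit 81959) (nat_lit 24) (.e (nat_lit 123182) (nat_lit 264) (.e (nat_lit 7936) (nat_lit 90) .nil))))) .nil)))) (.nd (nat_lit 5) (.nd (nat_lit 6) 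
(.lf (nat_lit 185616) (.g (nat_lit 1948) (.e (nat_lit 57870) (nat_lit 264) (.e (nat_lit 1220) (nat_lit 90) (.e (nat_lit 81956) (nat_lit 23) (.e (nat_lit 98325) (nat_lit 17) (.e (nat_lit 7936) (nat_lit 220) .nil))))) .nil)) 
(.lf (nat_lit 185680) (.g (nat_lit 2724) (.e (nat_lit 57870) (nat_lit 264) (.e (nat_lit 1221) (nat_lit 90) (.e (nat_lit 81956) (nat_lit 23) (.e (nat_lit 98333) (nat_lit 18) .nil)))) .nil))) (.nd (nat_lit 6) 
(.lf (nat_lit 185648) (.g (nat_lit 1958) (.e (nat_lit 57870) (nat_lit 264) (.e (nat_lit 1221) (nat_lit 90) (.e (nat_lit 81948) (nat_lit 21) (.e (nat_lit 57872) (nat_lit 264) (.e (nat_lit 1219) (nat_lit 90) (.e (nat_lit 81948) (nat_lit 21) .nil)))))) (.g (nat_lit 4) .nil .nil))) 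
(.lf (nat_lit 185712) (.g (nat_lit 1429) (.e (nat_lit 57870) (nat_lit 264) (.e (nat_lit 1221) (nat_lit 90) (.e (nat_lit 81959) (nat_lit 24) (.e (nat_lit 123194) (nat_lit 266) .nil)))) .nil))))) (.nd (nat_lit 4) (.nd (nat_lit 5) (.nd (nat_lit 6) 
(.lf (nat_lit 185608) (.g (nat_lit 1783) (.e (nat_lit 57870) (nat_lit 264) (.e (nat_lit 1220) (nat_lit 90) (.e (nat_lit 81956) (nat_lit 23) (.e (nat_lit 98319) (nat_lit 17) .nil)))) .nil)) 
(.lf (nat_lit 185672) (.g (nat_lit 4030) (.e (nat_lit 57870) (nat_lit 264) (.e (nat_lit 1221) (nat_lit 90) (.e (nat_lit 81956) (nat_lit 23) (.e (nat_lit 98320) (nat_lit 17) (.e (nat_lit 3555) (nat_lit 220) .nil))))) .nil))) (.nd (nat_lit 6) 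
(.lf (nat_lit 185640) (.g (nat_lit 1191) (.e (nat_lit 57870) (nat_lit 264) (.e (nat_lit 1221) (nat_lit 90) (.e (nat_lit 81938) (nat_lit 20) (.e (nat_lit 2004) (nat_lit 138) .nil)))) .nil)) 
(.lf (nat_lit 185704) (.g (nat_lit 2210) (.e (nat_lit 57870) (nat_lit 264) (.e (nat_lit 1221) (nat_lit 90) (.e (nat_lit 81959) (nat_lit 24) (.e (nat_lit 123184) (nat_lit 264) (.e (nat_lit 1296) (nat_lit 96) .nil))))) .nil)))) (.nd (nat_lit 5) (.nd (nat_lit 6) 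
(.lf (nat_lit 185624) (.g (nat_lit 2097) (.e (nat_lit 57870) (nat_lit 264) (.e (nat_lit 1220) (nat_lit 90) (.e (nat_lit 81959) (nat_lit 24) (.e (nat_lit 123182) (nat_lit 264) (.e (nat_lit 997) (nat_lit 81) .nil))))) .nil)) 
(.lf (nat_lit 185688) (.g (nat_lit 2280) (.e (nat_lit 57870) (nat_lit 264) (.e (nat_lit 1221) (nat_lit 90) (.e (nat_lit 81959) (nat_lit 24) (.e (nat_lit 123182) (nat_lit 264) (.e (nat_lit 982) (nat_lit 81) (.e (nat_lit 1615) (nat_lit 113) (.e (nat_lit 376859) (nat_lit 21) .nil))))))) (.g (nat_lit 4) .nil .nil)))) (.nd (nat_lit 6) 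
(.lf (nat_lit 185656) (.g (nat_lit 3439) (.e (nat_lit 57870) (nat_lit 264) (.e (nat_lit 1221) (nat_lit 90) (.e (nat_lit 81950) (nat_lit 21) (.e (nat_lit 57873) (nat_lit 264) (.e (nat_lit 1221) (nat_lit 90) (.e (nat_lit 81950) (nat_lit 21) .nil)))))) (.g (nat_lit 0) .nil .nil))) 
(.lf (nat_lit 185720) (.g (nat_lit 2831) (.e (nat_lit 57870) (nat_lit 264) (.e (nat_lit 1221) (nat_lit 90) (.e (nat_lit 81959) (nat_lit 24) (.e (nat_lit 123195) (nat_lit 266) (.e (nat_lit 57412) (nat_lit 12) (.e (nat_lit 336110) (nat_lit 9) (.e (nat_lit 335997) (nat_lit 1) .nil))))))) (.g (nat_lit 5) .nil .nil))))))) (.nd (nat_lit 3) (.nd (nat_lit 4) (.nd (nat_lit 5) (.nd (nat_lit 6) 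
(.lf (nat_lit 185604) (.g (nat_lit 1065) (.e (nat_lit 57870) (nat_lit 264) (.e (nat_lit 1220) (nat_lit 90) (.e (nat_lit 81953) (nat_lit 22) (.e (nat_lit 90165) (nat_lit 12) .nil)))) .nil)) 
(.lf (nat_lit 185668) (.g (nat_lit 2212) (.e (nat_lit 57870) (nat_lit 264) (.e (nat_lit 1221) (nat_lit 90) (.e (nat_lit 81956) (nat_lit 23) (.e (nat_lit 98319) (nat_lit 17) .nil)))) .nil))) (.nd (nat_lit 6) 
(.lf (nat_lit 185636) (.g (nat_lit 587) (.e (nat_lit 57870) (nat_lit 264) (.e (nat_lit 1221) (nat_lit 90) (.e (nat_lit 81921) (nat_lit 0) .nil))) .nil)) 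
(.lf (nat_lit 185700) (.g (nat_lit 1443) (.e (nat_lit 57870) (nat_lit 264) (.e (nat_lit 1221) (nat_lit 90) (.e (nat_lit 81959) (nat_lit 24) (.e (nat_lit 123183) (nat_lit 264) .nil)))) .nil)))) (.nd (nat_lit 5) (.nd (nat_lit 6) 
(.lf (nat_lit 185620) (.g (nat_lit 2376) (.e (nat_lit 57870) (nat_lit 264) (.e (nat_lit 1220) (nat_lit 90) (.e (nat_lit 81956) (nat_lit 23) (.e (nat_lit 98346) (nat_lit 22) .nil)))) .nil)) 
(.lf (nat_lit 185684) (.g (nat_lit 1518) (.e (nat_lit 57870) (nat_lit 264) (.e (nat_lit 1221) (nat_lit 90) (.e (nat_lit 81959) (nat_lit 24) (.e (nat_lit 123181) (nat_lit 264) .nil)))) .nil))) (.nd (nat_lit 6) 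
(.lf (nat_lit 185652) (.g (nat_lit 2557) (.e (nat_lit 57870) (nat_lit 264) (.e (nat_lit 1221) (nat_lit 90) (.e (nat_lit 81950) (nat_lit 21) (.e (nat_lit 57872) (nat_lit 264) (.e (nat_lit 1219) (nat_lit 90) (.e (nat_lit 81950) (nat_lit 21) .nil)))))) (.g (nat_lit 5) .nil .nil))) 
(.lf (nat_lit 185716) (.g (nat_lit 2026) (.e (nat_lit 57870) (nat_lit 264) (.e (nat_lit 1221) (nat_lit 90) (.e (nat_lit 81959) (nat_lit 24) (.e (nat_lit 123195) (nat_lit 266) (.e (nat_lit 57400) (nat_lit 10) (.e (nat_lit 327424) (nat_lit 7) (.e (nat_lit 294925) (nat_lit 1) .nil))))))) (.g (nat_lit 5) .nil .nil)))))) (.nd (nat_lit 4) (.nd (nat_lit 5) (.nd (nat_lit 6) 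
(.lf (nat_lit 185612) (.g (nat_lit 1657) (.e (nat_lit 57870) (nat_lit 264) (.e (nat_lit 1220) (nat_lit 90) (.e (nat_lit 81956) (nat_lit 23) (.e (nat_lit 98321) (nat_lit 17) .nil)))) .nil)) 
(.lf (nat_lit 185676) (.g (nat_lit 2812) (.e (nat_lit 57870) (nat_lit 264) (.e (nat_lit 1221) (nat_lit 90) (.e (nat_lit 81956) (nat_lit 23) (.e (nat_lit 98321) (nat_lit 17) (.e (nat_lit 7936) (nat_lit 220) (.e (nat_lit 720956) (nat_lit 25) (.e (nat_lit 114712) (nat_lit 21) .nil))))))) (.g (nat_lit 4) .nil .nil)))) (.nd (nat_lit 6) 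
(.lf (nat_lit 185644) (.g (nat_lit 1787) (.e (nat_lit 57870) (nat_lit 264) (.e (nat_lit 1221) (nat_lit 90) (.e (nat_lit 81947) (nat_lit 20) (.e (nat_lit 2003) (nat_lit 138) (.e (nat_lit 671764) (nat_lit 6) .nil))))) .nil)) 
(.lf (nat_lit 185708) (.g (nat_lit 1844) (.e (nat_lit 57870) (nat_lit 264) (.e (nat_lit 1221) (nat_lit 90) (.e (nat_lit 81959) (nat_lit 24) (.e (nat_lit 123186) (nat_lit 264) .nil)))) .nil)))) (.nd (nat_lit 5) (.nd (nat_lit 6) 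
(.lf (nat_lit 185628) (.g (nat_lit 1975) (.e (nat_lit 57870) (nat_lit 264) (.e (nat_lit 1220) (nat_lit 90) (.e (nat_lit 81959) (nat_lit 24) (.e (nat_lit 123182) (nat_lit 264) (.e (nat_lit 1224) (nat_lit 90) .nil))))) .nil)) 
(.lf (nat_lit 185692) (.g (nat_lit 2135) (.e (nat_lit 57870) (nat_lit 264) (.e (nat_lit 1221) (nat_lit 90) (.e (nat_lit 81959) (nat_lit 24) (.e (nat_lit 123182) (nat_lit 264) (.e (nat_lit 1028) (nat_lit 81) .nil))))) .nil))) (.nd (nat_lit 6) 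
(.lf (nat_lit 185660) (.g (nat_lit 3260) (.e (nat_lit 57870) (nat_lit 264) (.e (nat_lit 1221) (nat_lit 90) (.e (nat_lit 81953) (nat_lit 22) (.e (nat_lit 90157) (nat_lit 11) (.e (nat_lit 24579) (nat_lit 0) .nil))))) .nil)) 
(.lf (nat_lit 185724) (.g (nat_lit 3228) (.e (nat_lit 57870) (nat_lit 264) (.e (nat_lit 1221) (nat_lit 90) (.e (nat_lit 81959) (nat_lit 24) (.e (nat_lit 123195) (nat_lit 266) (.e (nat_lit 57424) (nat_lit 14) (.e (nat_lit 352309) (nat_lit 21) .nil)))))) (.g (nat_lit 6) .nil .nil)))))))) (.nd (nat_lit 2) (.nd (nat_lit 3) (.nd (nat_lit 4) (.nd (nat_lit 5) (.nd (nat_lit 6) 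
(.lf (nat_lit 185602) (.g (nat_lit 2610) (.e (nat_lit 57870) (nat_lit 264) (.e (nat_lit 1220) (nat_lit 90) (.e (nat_lit 81953) (nat_lit 22) (.e (nat_lit 90157) (nat_lit 11) .nil)))) .nil)) 
(.lf (nat_lit 185666) (.g (nat_lit 2521) (.e (nat_lit 57870) (nat_lit 264) (.e (nat_lit 1221) (nat_lit 90) (.e (nat_lit 81956) (nat_lit 23) (.e (nat_lit 98313) (nat_lit 9) .nil)))) .nil))) (.nd (nat_lit 6) 
(.lf (nat_lit 185634) (.g (nat_lit 1159) (.e (nat_lit 57870) (nat_lit 264) (.e (nat_lit 1220) (nat_lit 90) (.e (nat_lit 81959) (nat_lit 24) (.e (nat_lit 123195) (nat_lit 266) (.e (nat_lit 57438) (nat_lit 17) .nil))))) .nil)) 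
(.lf (nat_lit 185698) (.g (nat_lit 2521) (.e (nat_lit 57870) (nat_lit 264) (.e (nat_lit 1221) (nat_lit 90) (.e (nat_lit 81959) (nat_lit 24) (.e (nat_lit 123182) (nat_lit 264) (.e (nat_lit 1294) (nat_lit 96) .nil))))) .nil)))) (.nd (nat_lit 5) (.nd (nat_lit 6) 
(.lf (nat_lit 185618) (.g (nat_lit 2902) (.e (nat_lit 57870) (nat_lit 264) (.e (nat_lit 1220) (nat_lit 90) (.e (nat_lit 81956) (nat_lit 23) (.e (nat_lit 98345) (nat_lit 22) .nil)))) .nil)) 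
(.lf (nat_lit 185682) (.g (nat_lit 2599) (.e (nat_lit 57870) (nat_lit 264) (.e (nat_lit 1221) (nat_lit 90) (.e (nat_lit 81956) (nat_lit 23) (.e (nat_lit 98346) (nat_lit 22) .nil)))) .nil))) (.nd (nat_lit 6) 
(.lf (nat_lit 185650) (.g (nat_lit 3018) (.e (nat_lit 57870) (nat_lit 264) (.e (nat_lit 1221) (nat_lit 90) (.e (nat_lit 81950) (nat_lit 21) (.e (nat_lit 57870) (nat_lit 264) (.e (nat_lit 1221) (nat_lit 90) (.e (nat_lit 81950) (nat_lit 21) .nil)))))) (.g (nat_lit 0) .nil .nil))) 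
(.lf (nat_lit 185714) (.g (nat_lit 797) (.e (nat_lit 57870) (nat_lit 264) (.e (nat_lit 1221) (nat_lit 90) (.e (nat_lit 81959) (nat_lit 24) (.e (nat_lit 123195) (nat_lit 266) .nil)))) .nil))))) (.nd (nat_lit 4) (.nd (nat_lit 5) (.nd (nat_lit 6) 
(.lf (nat_lit 185610) (.g (nat_lit 3809) (.e (nat_lit 57870) (nat_lit 264) (.e (nat_lit 1220) (nat_lit 90) (.e (nat_lit 81956) (nat_lit 23) (.e (nat_lit 98320) (nat_lit 17) (.e (nat_lit 3555) (nat_lit 220) .nil))))) .nil)) 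
(.lf (nat_lit 185674) (.g (nat_lit 2374) (.e (nat_lit 57870) (nat_lit 264) (.e (nat_lit 1221) (nat_lit 90) (.e (nat_lit 81956) (nat_lit 23) (.e (nat_lit 98321) (nat_lit 17) (.e (nat_lit 7936) (nat_lit 220) .nil))))) .nil))) (.nd (nat_lit 6) 
(.lf (nat_lit 185642) (.g (nat_lit 1361) (.e (nat_lit 57870) (nat_lit 264) (.e (nat_lit 1221) (nat_lit 90) (.e (nat_lit 81938) (nat_lit 20) (.e (nat_lit 2006) (nat_lit 138) (.e (nat_lit 671760) (nat_lit 4) .nil))))) .nil)) 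
(.lf (nat_lit 185706) (.g (nat_lit 3355) (.e (nat_lit 57870) (nat_lit 264) (.e (nat_lit 1221) (nat_lit 90) (.e (nat_lit 81959) (nat_lit 24) (.e (nat_lit 123185) (nat_lit 264) (.e (nat_lit 1222) (nat_lit 90) (.e (nat_lit 81948) (nat_lit 21) .nil)))))) (.g (nat_lit 0) .nil .nil))))) (.nd (nat_lit 5) (.nd (nat_lit 6) 
(.lf (nat_lit 185626) (.g (nat_lit 3691) (.e (nat_lit 57870) (nat_lit 264) (.e (nat_lit 1220) (nat_lit 90) (.e (nat_lit 81959) (nat_lit 24) (.e (nat_lit 123182) (nat_lit 264) (.e (nat_lit 1222) (nat_lit 90) (.e (nat_lit 81948) (nat_lit 21) .nil)))))) (.g (nat_lit 0) .nil .nil))) 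
(.lf (nat_lit 185690) (.g (nat_lit 1897) (.e (nat_lit 57870) (nat_lit 264) (.e (nat_lit 1221) (nat_lit 90) (.e (nat_lit 81959) (nat_lit 24) (.e (nat_lit 123182) (nat_lit 264) (.e (nat_lit 997) (nat_lit 81) .nil))))) .nil))) (.nd (nat_lit 6) 
(.lf (nat_lit 185658) (.g (nat_lit 1555) (.e (nat_lit 57870) (nat_lit 264) (.e (nat_lit 1221) (nat_lit 90) (.e (nat_lit 81950) (nat_lit 21) (.e (nat_lit 65280) (nat_lit 266) .nil)))) .nil)) 
(.lf (nat_lit 185722) (.g (nat_lit 2525) (.e (nat_lit 57870) (nat_lit 264) (.e (nat_lit 1221) (nat_lit 90) (.e (nat_lit 81959) (nat_lit 24) (.e (nat_lit 123195) (nat_lit 266) (.e (nat_lit 57421) (nat_lit 13) (.e (nat_lit 352000) (nat_lit 8) (.e (nat_lit 1181) (nat_lit 87) .nil))))))) (.g (nat_lit 4) .nil .nil))))))) (.nd (nat_lit 3) (.nd (nat_lit 4) (.nd (nat_lit 5) (.nd (nat_lit 6) 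
(.lf (nat_lit 185606) (.g (nat_lit 2302) (.e (nat_lit 57870) (nat_lit 264) (.e (nat_lit 1220) (nat_lit 90) (.e (nat_lit 81956) (nat_lit 23) (.e (nat_lit 98313) (nat_lit 9) .nil)))) .nil)) 
(.lf (nat_lit 185670) (.g (nat_lit 2859) (.e (nat_lit 57870) (nat_lit 264) (.e (nat_lit 1221) (nat_lit 90) (.e (nat_lit 81956) (nat_lit 23) (.e (nat_lit 98319) (nat_lit 17) (.e (nat_lit 7936) (nat_lit 220) .nil))))) .nil))) (.nd (nat_lit 6) 
(.lf (nat_lit 185638) (.g (nat_lit 430) (.e (nat_lit 57870) (nat_lit 264) (.e (nat_lit 1221) (nat_lit 90) (.e (nat_lit 89856) (nat_lit 8) .nil))) .nil)) 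
(.lf (nat_lit 185702) (.g (nat_lit 1346) (.e (nat_lit 57870) (nat_lit 264) (.e (nat_lit 1221) (nat_lit 90) (.e (nat_lit 81959) (nat_lit 24) (.e (nat_lit 123184) (nat_lit 264) .nil)))) .nil)))) (.nd (nat_lit 5) (.nd (nat_lit 6) 
(.lf (nat_lit 185622) (.g (nat_lit 318) (.e (nat_lit 57870) (nat_lit 264) (.e (nat_lit 1220) (nat_lit 90) (.e (nat_lit 81959) (nat_lit 24) .nil))) .nil)) 
(.lf (nat_lit 185686) (.g (nat_lit 962) (.e (nat_lit 57870) (nat_lit 264) (.e (nat_lit 1221) (nat_lit 90) (.e (nat_lit 81959) (nat_lit 24) (.e (nat_lit 123182) (nat_lit 264) .nil)))) .nil))) (.nd (nat_lit 6) 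
(.lf (nat_lit 185654) (.g (nat_lit 2173) (.e (nat_lit 57870) (nat_lit 264) (.e (nat_lit 1221) (nat_lit 90) (.e (nat_lit 81950) (nat_lit 21) (.e (nat_lit 57873) (nat_lit 264) (.e (nat_lit 1189) (nat_lit 88) (.e (nat_lit 65604) (nat_lit 9) (.e (nat_lit 335997) (nat_lit 1) .nil))))))) (.g (nat_lit 4) .nil .nil))) 
(.lf (nat_lit 185718) (.g (nat_lit 2836) (.e (nat_lit 57870) (nat_lit 264) (.e (nat_lit 1221) (nat_lit 90) (.e (nat_lit 81959) (nat_lit 24) (.e (nat_lit 123195) (nat_lit 266) (.e (nat_lit 57412) (nat_lit 12) (.e (nat_lit 336097) (nat_lit 9) (.e (nat_lit 335997) (nat_lit 1) .nil))))))) (.g (nat_lit 5) .nil .nil)))))) (.nd (nat_lit 4) (.nd (nat_lit 5) (.nd (nat_lit 6) 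
(.lf (nat_lit 185614) (.g (nat_lit 2724) (.e (nat_lit 57870) (nat_lit 264) (.e (nat_lit 1220) (nat_lit 90) (.e (nat_lit 81956) (nat_lit 23) (.e (nat_lit 98321) (nat_lit 17) (.e (nat_lit 7936) (nat_lit 220) (.e (nat_lit 720956) (nat_lit 25) (.e (nat_lit 114712) (nat_lit 21) .nil))))))) (.g (nat_lit 4) .nil .nil))) 
(.lf (nat_lit 185678) (.g (nat_lit 2542) (.e (nat_lit 57870) (nat_lit 264) (.e (nat_lit 1221) (nat_lit 90) (.e (nat_lit 81956) (nat_lit 23) (.e (nat_lit 98325) (nat_lit 17) (.e (nat_lit 7936) (nat_lit 220) .nil))))) .nil))) (.nd (nat_lit 6) 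
(.lf (nat_lit 185646) (.g (nat_lit 1650) (.e (nat_lit 57870) (nat_lit 264) (.e (nat_lit 1221) (nat_lit 90) (.e (nat_lit 81947) (nat_lit 20) (.e (nat_lit 2005) (nat_lit 138) (.e (nat_lit 671764) (nat_lit 6) .nil))))) .nil)) 
(.lf (nat_lit 185710) (.g (nat_lit 2139) (.e (nat_lit 57870) (nat_lit 264) (.e (nat_lit 1221) (nat_lit 90) (.e (nat_lit 81959) (nat_lit 24) (.e (nat_lit 123190) (nat_lit 264) .nil)))) .nil)))) (.nd (nat_lit 5) (.nd (nat_lit 6) 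
(.lf (nat_lit 185630) (.g (nat_lit 1104) (.e (nat_lit 57870) (nat_lit 264) (.e (nat_lit 1220) (nat_lit 90) (.e (nat_lit 81959) (nat_lit 24) (.e (nat_lit 123185) (nat_lit 264) .nil)))) .nil)) 
(.lf (nat_lit 185694) (.g (nat_lit 2059) (.e (nat_lit 57870) (nat_lit 264) (.e (nat_lit 1221) (nat_lit 90) (.e (nat_lit 81959) (nat_lit 24) (.e (nat_lit 123182) (nat_lit 264) (.e (nat_lit 7936) (nat_lit 88) .nil))))) .nil))) (.nd (nat_lit 6) 
(.lf (nat_lit 185662) (.g (nat_lit 1074) (.e (nat_lit 57870) (nat_lit 264) (.e (nat_lit 1221) (nat_lit 90) (.e (nat_lit 81953) (nat_lit 22) (.e (nat_lit 90165) (nat_lit 12) .nil)))) .nil)) 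
(.lf (nat_lit 185726) (.g (nat_lit 1246) (.e (nat_lit 57870) (nat_lit 264) (.e (nat_lit 1221) (nat_lit 90) (.e (nat_lit 81959) (nat_lit 24) (.e (nat_lit 123196) (nat_lit 266) .nil)))) .nil)))))))) (.nd (nat_lit 1) (.nd (nat_lit 2) (.nd (nat_lit 3) (.nd (nat_lit 4) (.nd (nat_lit 5) (.nd (nat_lit 6) 
(.lf (nat_lit 185601) (.g (nat_lit 1236) (.e (nat_lit 57870) (nat_lit 264) (.e (nat_lit 1220) (nat_lit 90) (.e (nat_lit 81953) (nat_lit 22) (.e (nat_lit 90134) (nat_lit 9) .nil)))) .nil)) 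
(.lf (nat_lit 185665) (.g (nat_lit 3191) (.e (nat_lit 57870) (nat_lit 264) (.e (nat_lit 1221) (nat_lit 90) (.e (nat_lit 81956) (nat_lit 23) (.e (nat_lit 98312) (nat_lit 9) .nil)))) .nil))) (.nd (nat_lit 6) 
(.lf (nat_lit 185633) (.g (nat_lit 1159) (.e (nat_lit 57870) (nat_lit 264) (.e (nat_lit 1220) (nat_lit 90) (.e (nat_lit 81959) (nat_lit 24) (.e (nat_lit 123194) (nat_lit 266) .nil)))) .nil)) 
(.lf (nat_lit 185697) (.g (nat_lit 2160) (.e (nat_lit 57870) (nat_lit 264) (.e (nat_lit 1221) (nat_lit 90) (.e (nat_lit 81959) (nat_lit 24) (.e (nat_lit 123182) (nat_lit 264) (.e (nat_lit 7936) (nat_lit 90) (.e (nat_lit 81948) (nat_lit 21) .nil)))))) (.g (nat_lit 4) .nil .nil))))) (.nd (nat_lit 5) (.nd (nat_lit 6) 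
(.lf (nat_lit 185617) (.g (nat_lit 2117) (.e (nat_lit 57870) (nat_lit 264) (.e (nat_lit 1220) (nat_lit 90) (.e (nat_lit 81956) (nat_lit 23) (.e (nat_lit 106240) (nat_lit 17) .nil)))) .nil)) 
(.lf (nat_lit 185681) (.g (nat_lit 3075) (.e (nat_lit 57870) (nat_lit 264) (.e (nat_lit 1221) (nat_lit 90) (.e (nat_lit 81956) (nat_lit 23) (.e (nat_lit 98345) (nat_lit 22) .nil)))) .nil))) (.nd (nat_lit 6) 
(.lf (nat_lit 185649) (.g (nat_lit 1759) (.e (nat_lit 57870) (nat_lit 264) (.e (nat_lit 1221) (nat_lit 90) (.e (nat_lit 81948) (nat_lit 21) (.e (nat_lit 57873) (nat_lit 264) (.e (nat_lit 1219) (nat_lit 90) .nil))))) .nil)) 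
(.lf (nat_lit 185713) (.g (nat_lit 1739) (.e (nat_lit 57870) (nat_lit 264) (.e (nat_lit 1221) (nat_lit 90) (.e (nat_lit 81959) (nat_lit 24) (.e (nat_lit 123194) (nat_lit 266) (.e (nat_lit 57438) (nat_lit 17) .nil))))) .nil))))) (.nd (nat_lit 4) (.nd (nat_lit 5) (.nd (nat_lit 6) 
(.lf (nat_lit 185609) (.g (nat_lit 2837) (.e (nat_lit 57870) (nat_lit 264) (.e (nat_lit 1220) (nat_lit 90) (.e (nat_lit 81956) (nat_lit 23) (.e (nat_lit 98320) (nat_lit 17) .nil)))) .nil)) 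
(.lf (nat_lit 185673) (.g (nat_lit 4025) (.e (nat_lit 57870) (nat_lit 264) (.e (nat_lit 1221) (nat_lit 90) (.e (nat_lit 81956) (nat_lit 23) (.e (nat_lit 98320) (nat_lit 17) (.e (nat_lit 3556) (nat_lit 220) .nil))))) .nil))) (.nd (nat_lit 6) 
(.lf (nat_lit 185641) (.g (nat_lit 1051) (.e (nat_lit 57870) (nat_lit 264) (.e (nat_lit 1221) (nat_lit 90) (.e (nat_lit 81938) (nat_lit 20) (.e (nat_lit 2005) (nat_lit 138) .nil)))) .nil)) 
(.lf (nat_lit 185705) (.g (nat_lit 1187) (.e (nat_lit 57870) (nat_lit 264) (.e (nat_lit 1221) (nat_lit 90) (.e (nat_lit 81959) (nat_lit 24) (.e (nat_lit 123185) (nat_lit 264) .nil)))) .nil)))) (.nd (nat_lit 5) (.nd (nat_lit 6) 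
(.lf (nat_lit 185625) (.g (nat_lit 1908) (.e (nat_lit 57870) (nat_lit 264) (.e (nat_lit 1220) (nat_lit 90) (.e (nat_lit 81959) (nat_lit 24) (.e (nat_lit 123182) (nat_lit 264) (.e (nat_lit 1193) (nat_lit 88) .nil))))) .nil)) 
(.lf (nat_lit 185689) (.g (nat_lit 2383) (.e (nat_lit 57870) (nat_lit 264) (.e (nat_lit 1221) (nat_lit 90) (.e (nat_lit 81959) (nat_lit 24) (.e (nat_lit 123182) (nat_lit 264) (.e (nat_lit 996) (nat_lit 81) .nil))))) .nil))) (.nd (nat_lit 6) 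
(.lf (nat_lit 185657) (.g (nat_lit 1848) (.e (nat_lit 57870) (nat_lit 264) (.e (nat_lit 1221) (nat_lit 90) (.e (nat_lit 81950) (nat_lit 21) (.e (nat_lit 57873) (nat_lit 264) (.e (nat_lit 7936) (nat_lit 90) .nil))))) .nil)) 
(.lf (nat_lit 185721) (.g (nat_lit 1873) (.e (nat_lit 57870) (nat_lit 264) (.e (nat_lit 1221) (nat_lit 90) (.e (nat_lit 81959) (nat_lit 24) (.e (nat_lit 123195) (nat_lit 266) (.e (nat_lit 65280) (nat_lit 12) .nil))))) .nil)))))) (.nd (nat_lit 3) (.nd (nat_lit 4) (.nd (nat_lit 5) (.nd (nat_lit 6) 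
(.lf (nat_lit 185605) (.g (nat_lit 1272) (.e (nat_lit 57870) (nat_lit 264) (.e (nat_lit 1220) (nat_lit 90) (.e (nat_lit 81954) (nat_lit 23) (.e (nat_lit 98321) (nat_lit 17) .nil)))) .nil)) 
(.lf (nat_lit 185669) (.g (nat_lit 2861) (.e (nat_lit 57870) (nat_lit 264) (.e (nat_lit 1221) (nat_lit 90) (.e (nat_lit 81956) (nat_lit 23) (.e (nat_lit 98319) (nat_lit 17) (.e (nat_lit 3555) (nat_lit 220) .nil))))) .nil))) (.nd (nat_lit 6) 
(.lf (nat_lit 185637) (.g (nat_lit 474) (.e (nat_lit 57870) (nat_lit 264) (.e (nat_lit 1221) (nat_lit 90) (.e (nat_lit 81923) (nat_lit 0) .nil))) .nil)) 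
(.lf (nat_lit 185701) (.g (nat_lit 2071) (.e (nat_lit 57870) (nat_lit 264) (.e (nat_lit 1221) (nat_lit 90) (.e (nat_lit 81959) (nat_lit 24) (.e (nat_lit 123183) (nat_lit 264) (.e (nat_lit 7936) (nat_lit 90) .nil))))) .nil)))) (.nd (nat_lit 5) (.nd (nat_lit 6) 
(.lf (nat_lit 185621) (.g (nat_lit 1241) (.e (nat_lit 57870) (nat_lit 264) (.e (nat_lit 1220) (nat_lit 90) (.e (nat_lit 81957) (nat_lit 24) (.e (nat_lit 123185) (nat_lit 264) .nil)))) .nil)) 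
(.lf (nat_lit 185685) (.g (nat_lit 1855) (.e (nat_lit 57870) (nat_lit 264) (.e (nat_lit 1221) (nat_lit 90) (.e (nat_lit 81959) (nat_lit 24) (.e (nat_lit 123181) (nat_lit 264) (.e (nat_lit 1218) (nat_lit 90) .nil))))) .nil))) (.nd (nat_lit 6) 
(.lf (nat_lit 185653) (.g (nat_lit 3531) (.e (nat_lit 57870) (nat_lit 264) (.e (nat_lit 1221) (nat_lit 90) (.e (nat_lit 81950) (nat_lit 21) (.e (nat_lit 57872) (nat_lit 264) (.e (nat_lit 1221) (nat_lit 90) (.e (nat_lit 81950) (nat_lit 21) .nil)))))) (.g (nat_lit 0) .nil .nil))) 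
(.lf (nat_lit 185717) (.g (nat_lit 1569) (.e (nat_lit 57870) (nat_lit 264) (.e (nat_lit 1221) (nat_lit 90) (.e (nat_lit 81959) (nat_lit 24) (.e (nat_lit 123195) (nat_lit 266) (.e (nat_lit 57406) (nat_lit 12) .nil))))) .nil))))) (.nd (nat_lit 4) (.nd (nat_lit 5) (.nd (nat_lit 6) 
(.lf (nat_lit 185613) (.g (nat_lit 2652) (.e (nat_lit 57870) (nat_lit 264) (.e (nat_lit 1220) (nat_lit 90) (.e (nat_lit 81956) (nat_lit 23) (.e (nat_lit 98321) (nat_lit 17) (.e (nat_lit 7936) (nat_lit 220) (.e (nat_lit 720913) (nat_lit 20) (.e (nat_lit 2198) (nat_lit 144) (.e (nat_lit 720933) (nat_lit 21) .nil)))))))) (.g (nat_lit 4) .nil .nil))) 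
(.lf (nat_lit 185677) (.g (nat_lit 1904) (.e (nat_lit 57870) (nat_lit 264) (.e (nat_lit 1221) (nat_lit 90) (.e (nat_lit 81956) (nat_lit 23) (.e (nat_lit 98325) (nat_lit 17) .nil)))) .nil))) (.nd (nat_lit 6) 
(.lf (nat_lit 185645) (.g (nat_lit 1253) (.e (nat_lit 57870) (nat_lit 264) (.e (nat_lit 1221) (nat_lit 90) (.e (nat_lit 81947) (nat_lit 20) (.e (nat_lit 2005) (nat_lit 138) .nil)))) .nil)) 
(.lf (nat_lit 185709) (.g (nat_lit 1685) (.e (nat_lit 57870) (nat_lit 264) (.e (nat_lit 1221) (nat_lit 90) (.e (nat_lit 81959) (nat_lit 24) (.e (nat_lit 123188) (nat_lit 264) .nil)))) .nil)))) (.nd (nat_lit 5) (.nd (nat_lit 6) 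
(.lf (nat_lit 185629) (.g (nat_lit 3610) (.e (nat_lit 57870) (nat_lit 264) (.e (nat_lit 1220) (nat_lit 90) (.e (nat_lit 81959) (nat_lit 24) (.e (nat_lit 123184) (nat_lit 264) (.e (nat_lit 1222) (nat_lit 90) (.e (nat_lit 81948) (nat_lit 21) .nil)))))) (.g (nat_lit 0) .nil .nil))) 
(.lf (nat_lit 185693) (.g (nat_lit 2294) (.e (nat_lit 57870) (nat_lit 264) (.e (nat_lit 1221) (nat_lit 90) (.e (nat_lit 81959) (nat_lit 24) (.e (nat_lit 123182) (nat_lit 264) (.e (nat_lit 1187) (nat_lit 88) (.e (nat_lit 65604) (nat_lit 9) (.e (nat_lit 335997) (nat_lit 1) .nil))))))) (.g (nat_lit 4) .nil .nil)))) (.nd (nat_lit 6) 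
(.lf (nat_lit 185661) (.g (nat_lit 2833) (.e (nat_lit 57870) (nat_lit 264) (.e (nat_lit 1221) (nat_lit 90) (.e (nat_lit 81953) (nat_lit 22) (.e (nat_lit 90160) (nat_lit 11) .nil)))) .nil)) 
(.lf (nat_lit 185725) (.g (nat_lit 2734) (.e (nat_lit 57870) (nat_lit 264) (.e (nat_lit 1221) (nat_lit 90) (.e (nat_lit 81959) (nat_lit 24) (.e (nat_lit 123195) (nat_lit 266) (.e (nat_lit 57435) (nat_lit 17) (.e (nat_lit 376858) (nat_lit 21) .nil)))))) (.g (nat_lit 5) .nil .nil)))))))) (.nd (nat_lit 2) (.nd (nat_lit 3) (.nd (nat_lit 4) (.nd (nat_lit 5) (.nd (nat_lit 6) 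
(.lf (nat_lit 185603) (.g (nat_lit 2882) (.e (nat_lit 57870) (nat_lit 264) (.e (nat_lit 1220) (nat_lit 90) (.e (nat_lit 81953) (nat_lit 22) (.e (nat_lit 90160) (nat_lit 11) .nil)))) .nil)) 
(.lf (nat_lit 185667) (.g (nat_lit 3244) (.e (nat_lit 57870) (nat_lit 264) (.e (nat_lit 1221) (nat_lit 90) (.e (nat_lit 81956) (nat_lit 23) (.e (nat_lit 98313) (nat_lit 9) (.e (nat_lit 335995) (nat_lit 1) .nil))))) .nil))) (.nd (nat_lit 6) 
(.lf (nat_lit 185635) (.g (nat_lit 1467) (.e (nat_lit 57870) (nat_lit 264) (.e (nat_lit 1220) (nat_lit 90) (.e (nat_lit 81959) (nat_lit 24) (.e (nat_lit 123198) (nat_lit 266) (.e (nat_lit 57424) (nat_lit 14) .nil))))) .nil)) 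
(.lf (nat_lit 185699) (.g (nat_lit 2059) (.e (nat_lit 57870) (nat_lit 264) (.e (nat_lit 1221) (nat_lit 90) (.e (nat_lit 81959) (nat_lit 24) (.e (nat_lit 123182) (nat_lit 264) (.e (nat_lit 7936) (nat_lit 96) .nil))))) .nil)))) (.nd (nat_lit 5) (.nd (nat_lit 6) 
(.lf (nat_lit 185619) (.g (nat_lit 3206) (.e (nat_lit 57870) (nat_lit 264) (.e (nat_lit 1220) (nat_lit 90) (.e (nat_lit 81956) (nat_lit 23) (.e (nat_lit 98345) (nat_lit 22) (.e (nat_lit 253975) (nat_lit 9) .nil))))) .nil)) 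
(.lf (nat_lit 185683) (.g (nat_lit 369) (.e (nat_lit 57870) (nat_lit 264) (.e (nat_lit 1221) (nat_lit 90) (.e (nat_lit 81959) (nat_lit 24) .nil))) .nil))) (.nd (nat_lit 6) 
(.lf (nat_lit 185651) (.g (nat_lit 3166) (.e (nat_lit 57870) (nat_lit 264) (.e (nat_lit 1221) (nat_lit 90) (.e (nat_lit 81950) (nat_lit 21) (.e (nat_lit 57872) (nat_lit 264) (.e (nat_lit 1219) (nat_lit 90) (.e (nat_lit 81948) (nat_lit 21) .nil)))))) (.g (nat_lit 0) .nil .nil))) 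
(.lf (nat_lit 185715) (.g (nat_lit 1563) (.e (nat_lit 57870) (nat_lit 264) (.e (nat_lit 1221) (nat_lit 90) (.e (nat_lit 81959) (nat_lit 24) (.e (nat_lit 123195) (nat_lit 266) (.e (nat_lit 57350) (nat_lit 0) .nil))))) .nil))))) (.nd (nat_lit 4) (.nd (nat_lit 5) (.nd (nat_lit 6) 
(.lf (nat_lit 185611) (.g (nat_lit 3811) (.e (nat_lit 57870) (nat_lit 264) (.e (nat_lit 1220) (nat_lit 90) (.e (nat_lit 81956) (nat_lit 23) (.e (nat_lit 98320) (nat_lit 17) (.e (nat_lit 3556) (nat_lit 220) .nil))))) .nil)) 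
(.lf (nat_lit 185675) (.g (nat_lit 2778) (.e (nat_lit 57870) (nat_lit 264) (.e (nat_lit 1221) (nat_lit 90) (.e (nat_lit 81956) (nat_lit 23) (.e (nat_lit 98321) (nat_lit 17) (.e (nat_lit 7936) (nat_lit 220) (.e (nat_lit 720913) (nat_lit 20) (.e (nat_lit 2198) (nat_lit 144) (.e (nat_lit 720933) (nat_lit 21) .nil)))))))) (.g (nat_lit 4) .nil .nil)))) (.nd (nat_lit 6) 
(.lf (nat_lit 185643) (.g (nat_lit 582) (.e (nat_lit 57870) (nat_lit 264) (.e (nat_lit 1221) (nat_lit 90) (.e (nat_lit 81939) (nat_lit 20) .nil))) .nil)) 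
(.lf (nat_lit 185707) (.g (nat_lit 1840) (.e (nat_lit 57870) (nat_lit 264) (.e (nat_lit 1221) (nat_lit 90) (.e (nat_lit 81959) (nat_lit 24) (.e (nat_lit 123185) (nat_lit 264) (.e (nat_lit 1296) (nat_lit 96) .nil))))) .nil)))) (.nd (nat_lit 5) (.nd (nat_lit 6) 
(.lf (nat_lit 185627) (.g (nat_lit 2075) (.e (nat_lit 57870) (nat_lit 264) (.e (nat_lit 1220) (nat_lit 90) (.e (nat_lit 81959) (nat_lit 24) (.e (nat_lit 123182) (nat_lit 264) (.e (nat_lit 1223) (nat_lit 90) .nil))))) .nil)) 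
(.lf (nat_lit 185691) (.g (nat_lit 2274) (.e (nat_lit 57870) (nat_lit 264) (.e (nat_lit 1221) (nat_lit 90) (.e (nat_lit 81959) (nat_lit 24) (.e (nat_lit 123182) (nat_lit 264) (.e (nat_lit 1016) (nat_lit 81) (.e (nat_lit 1572) (nat_lit 110) (.e (nat_lit 352309) (nat_lit 21) .nil))))))) (.g (nat_lit 4) .nil .nil)))) (.nd (nat_lit 6) 
(.lf (nat_lit 185659) (.g (nat_lit 2575) (.e (nat_lit 57870) (nat_lit 264) (.e (nat_lit 1221) (nat_lit 90) (.e (nat_lit 81953) (nat_lit 22) (.e (nat_lit 90157) (nat_lit 11) .nil)))) .nil)) 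
(.lf (nat_lit 185723) (.g (nat_lit 2497) (.e (nat_lit 57870) (nat_lit 264) (.e (nat_lit 1221) (nat_lit 90) (.e (nat_lit 81959) (nat_lit 24) (.e (nat_lit 123195) (nat_lit 266) (.e (nat_lit 57422) (nat_lit 13) (.e (nat_lit 352000) (nat_lit 8) (.e (nat_lit 1181) (nat_lit 87) .nil))))))) (.g (nat_lit 4) .nil .nil))))))) (.nd (nat_lit 3) (.nd (nat_lit 4) (.nd (nat_lit 5) (.nd (nat_lit 6) 
(.lf (nat_lit 185607) (.g (nat_lit 3016) (.e (nat_lit 57870) (nat_lit 264) (.e (nat_lit 1220) (nat_lit 90) (.e (nat_lit 81956) (nat_lit 23) (.e (nat_lit 98313) (nat_lit 9) (.e (nat_lit 335995) (nat_lit 1) .nil))))) .nil)) 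
(.lf (nat_lit 185671) (.g (nat_lit 3057) (.e (nat_lit 57870) (nat_lit 264) (.e (nat_lit 1221) (nat_lit 90) (.e (nat_lit 81956) (nat_lit 23) (.e (nat_lit 98320) (nat_lit 17) .nil)))) .nil))) (.nd (nat_lit 6) 
(.lf (nat_lit 185639) (.g (nat_lit 460) (.e (nat_lit 57870) (nat_lit 264) (.e (nat_lit 1221) (nat_lit 90) (.e (nat_lit 81931) (nat_lit 20) .nil))) .nil)) 
(.lf (nat_lit 185703) (.g (nat_lit 3867) (.e (nat_lit 57870) (nat_lit 264) (.e (nat_lit 1221) (nat_lit 90) (.e (nat_lit 81959) (nat_lit 24) (.e (nat_lit 123184) (nat_lit 264) (.e (nat_lit 1222) (nat_lit 90) (.e (nat_lit 81948) (nat_lit 21) .nil)))))) (.g (nat_lit 0) .nil .nil))))) (.nd (nat_lit 5) (.nd (nat_lit 6) 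
(.lf (nat_lit 185623) (.g (nat_lit 1042) (.e (nat_lit 57870) (nat_lit 264) (.e (nat_lit 1220) (nat_lit 90) (.e (nat_lit 81959) (nat_lit 24) (.e (nat_lit 123182) (nat_lit 264) .nil)))) .nil)) 
(.lf (nat_lit 185687) (.g (nat_lit 2191) (.e (nat_lit 57870) (nat_lit 264) (.e (nat_lit 1221) (nat_lit 90) (.e (nat_lit 81959) (nat_lit 24) (.e (nat_lit 123182) (nat_lit 264) (.e (nat_lit 982) (nat_lit 81) .nil))))) .nil))) (.nd (nat_lit 6) 
(.lf (nat_lit 185655) (.g (nat_lit 3080) (.e (nat_lit 57870) (nat_lit 264) (.e (nat_lit 1221) (nat_lit 90) (.e (nat_lit 81950) (nat_lit 21) (.e (nat_lit 57873) (nat_lit 264) (.e (nat_lit 1219) (nat_lit 90) (.e (nat_lit 81948) (nat_lit 21) .nil)))))) (.g (nat_lit 0) .nil .nil))) 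
(.lf (nat_lit 185719) (.g (nat_lit 2778) (.e (nat_lit 57870) (nat_lit 264) (.e (nat_lit 1221) (nat_lit 90) (.e (nat_lit 81959) (nat_lit 24) (.e (nat_lit 123195) (nat_lit 266) (.e (nat_lit 57412) (nat_lit 12) (.e (nat_lit 336104) (nat_lit 9) (.e (nat_lit 335997) (nat_lit 1) .nil))))))) (.g (nat_lit 5) .nil .nil)))))) (.nd (nat_lit 4) (.nd (nat_lit 5) (.nd (nat_lit 6) 
(.lf (nat_lit 185615) (.g (nat_lit 1401) (.e (nat_lit 57870) (nat_lit 264) (.e (nat_lit 1220) (nat_lit 90) (.e (nat_lit 81956) (nat_lit 23) (.e (nat_lit 98325) (nat_lit 17) .nil)))) .nil)) 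
(.lf (nat_lit 185679) (.g (nat_lit 2303) (.e (nat_lit 57870) (nat_lit 264) (.e (nat_lit 1221) (nat_lit 90) (.e (nat_lit 81956) (nat_lit 23) (.e (nat_lit 106240) (nat_lit 17) .nil)))) .nil))) (.nd (nat_lit 6) 
(.lf (nat_lit 185647) (.g (nat_lit 1786) (.e (nat_lit 57870) (nat_lit 264) (.e (nat_lit 1221) (nat_lit 90) (.e (nat_lit 81947) (nat_lit 20) (.e (nat_lit 2006) (nat_lit 138) (.e (nat_lit 671764) (nat_lit 6) .nil))))) .nil)) 
(.lf (nat_lit 185711) (.g (nat_lit 1469) (.e (nat_lit 57870) (nat_lit 264) (.e (nat_lit 1221) (nat_lit 90) (.e (nat_lit 81959) (nat_lit 24) (.e (nat_lit 123191) (nat_lit 264) .nil)))) .nil)))) (.nd (nat_lit 5) (.nd (nat_lit 6) 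
(.lf (nat_lit 185631) (.g (nat_lit 1418) (.e (nat_lit 57870) (nat_lit 264) (.e (nat_lit 1220) (nat_lit 90) (.e (nat_lit 81959) (nat_lit 24) (.e (nat_lit 123185) (nat_lit 264) (.e (nat_lit 7936) (nat_lit 90) .nil))))) .nil)) 
(.lf (nat_lit 185695) (.g (nat_lit 4255) (.e (nat_lit 57870) (nat_lit 264) (.e (nat_lit 1221) (nat_lit 90) (.e (nat_lit 81959) (nat_lit 24) (.e (nat_lit 123182) (nat_lit 264) (.e (nat_lit 1222) (nat_lit 90) (.e (nat_lit 81948) (nat_lit 21) .nil)))))) (.g (nat_lit 0) .nil .nil)))) (.nd (nat_lit 6) 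
(.lf (nat_lit 185663) (.g (nat_lit 1674) (.e (nat_lit 57870) (nat_lit 264) (.e (nat_lit 1221) (nat_lit 90) (.e (nat_lit 81954) (nat_lit 23) (.e (nat_lit 98321) (nat_lit 17) (.e (nat_lit 7936) (nat_lit 220) .nil))))) .nil)) 
(.lf (nat_lit 185727) (.g (nat_lit 1532) (.e (nat_lit 57870) (nat_lit 264) (.e (nat_lit 1221) (nat_lit 90) (.e (nat_lit 81959) (nat_lit 24) (.e (nat_lit 123199) (nat_lit 267) .nil)))) .nil)))))))))

noncomputable def tv2470 : DT := (.nd (nat_lit 0) (.nd (nat_lit 1) (.nd (nat_lit 2) (.nd (nat_lit 3) (.nd (nat_lit 4) (.nd (nat_lit 5) (.nd (nat_lit 6) 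
(.lf (nat_lit 185728) (.g (nat_lit 2267) (.e (nat_lit 57870) (nat_lit 264) (.e (nat_lit 1221) (nat_lit 90) (.e (nat_lit 81959) (nat_lit 24) (.e (nat_lit 123228) (nat_lit 282) (.e (nat_lit 163947) (nat_lit 20) .nil))))) .nil)) 
(.lf (nat_lit 185792) (.g (nat_lit 1780) (.e (nat_lit 57871) (nat_lit 264) (.e (nat_lit 1199) (nat_lit 88) (.e (nat_lit 65617) (nat_lit 10) (.e (nat_lit 344168) (nat_lit 40) (.e (nat_lit 671764) (nat_lit 6) .nil))))) .nil))) (.nd (nat_lit 6) 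
(.lf (nat_lit 185760) (.g (nat_lit 1857) (.e (nat_lit 57871) (nat_lit 264) (.e (nat_lit 1190) (nat_lit 88) (.e (nat_lit 65622) (nat_lit 12) (.e (nat_lit 385106) (nat_lit 50) (.e (nat_lit 786479) (nat_lit 29) .nil))))) .nil)) 
(.lf (nat_lit 185824) (.g (nat_lit 2132) (.e (nat_lit 57871) (nat_lit 264) (.e (nat_lit 1200) (nat_lit 88) (.e (nat_lit 65630) (nat_lit 14) (.e (nat_lit 401456) (nat_lit 13) (.e (nat_lit 483378) (nat_lit 23) .nil))))) .nil)))) (.nd (nat_lit 5) (.nd (nat_lit 6) 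
(.lf (nat_lit 185744) (.g (nat_lit 1808) (.e (nat_lit 57871) (nat_lit 264) (.e (nat_lit 1189) (nat_lit 88) (.e (nat_lit 65624) (nat_lit 12) (.e (nat_lit 385094) (nat_lit 49) (.e (nat_lit 778327) (nat_lit 6) .nil))))) .nil)) 
(.lf (nat_lit 185808) (.g (nat_lit 3592) (.e (nat_lit 57871) (nat_lit 264) (.e (nat_lit 1199) (nat_lit 88) (.e (nat_lit 65630) (nat_lit 14) (.e (nat_lit 401459) (nat_lit 13) (.e (nat_lit 483344) (nat_lit 17) (.e (nat_lit 7936) (nat_lit 343) (.e (nat_lit 1183) (nat_lit 87) .nil))))))) (.g (nat_lit 5) .nil .nil)))) (.nd (nat_lit 6) 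
(.lf (nat_lit 185776) (.g (nat_lit 2186) (.e (nat_lit 57871) (nat_lit 264) (.e (nat_lit 1190) (nat_lit 88) (.e (nat_lit 65630) (nat_lit 14) (.e (nat_lit 401456) (nat_lit 13) (.e (nat_lit 483378) (nat_lit 23) .nil))))) .nil)) 
(.lf (nat_lit 185840) (.g (nat_lit 2947) (.e (nat_lit 57871) (nat_lit 264) (.e (nat_lit 1209) (nat_lit 89) (.e (nat_lit 73782) (nat_lit 32) (.e (nat_lit 2855) (nat_lit 184) (.e (nat_lit 426542) (nat_lit 29) (.e (nat_lit 352307) (nat_lit 21) .nil)))))) (.g (nat_lit 0) .nil .nil)))))) (.nd (nat_lit 4) (.nd (nat_lit 5) (.nd (nat_lit 6) 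
(.lf (nat_lit 185736) (.g (nat_lit 4169) (.e (nat_lit 57871) (nat_lit 264) (.e (nat_lit 1182) (nat_lit 87) (.e (nat_lit 57478) (nat_lit 28) (.e (nat_lit 557100) (nat_lit 13) (.e (nat_lit 172106) (nat_lit 10) (.e (nat_lit 434231) (nat_lit 23) (.e (nat_lit 532535) (nat_lit 9) (.e (nat_lit 335985) (nat_lit 1) .nil)))))))) (.g (nat_lit 7) .nil .nil))) 
(.lf (nat_lit 185800) (.g (nat_lit 3675) (.e (nat_lit 57871) (nat_lit 264) (.e (nat_lit 1199) (nat_lit 88) (.e (nat_lit 65628) (nat_lit 14) (.e (nat_lit 401459) (nat_lit 13) (.e (nat_lit 483350) (nat_lit 17) (.e (nat_lit 7936) (nat_lit 343) (.e (nat_lit 1183) (nat_lit 87) .nil))))))) (.g (nat_lit 5) .nil .nil)))) (.nd (nat_lit 6) 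
(.lf (nat_lit 185768) (.g (nat_lit 2835) (.e (nat_lit 57871) (nat_lit 264) (.e (nat_lit 1190) (nat_lit 88) (.e (nat_lit 65624) (nat_lit 12) (.e (nat_lit 385106) (nat_lit 50) (.e (nat_lit 786479) (nat_lit 29) (.e (nat_lit 352309) (nat_lit 21) .nil)))))) (.g (nat_lit 4) .nil .nil))) 
(.lf (nat_lit 185832) (.g (nat_lit 1924) (.e (nat_lit 57871) (nat_lit 264) (.e (nat_lit 1209) (nat_lit 89) (.e (nat_lit 73780) (nat_lit 32) (.e (nat_lit 2940) (nat_lit 184) (.e (nat_lit 426541) (nat_lit 29) (.e (nat_lit 352307) (nat_lit 21) .nil)))))) (.g (nat_lit 0) .nil .nil))))) (.nd (nat_lit 5) (.nd (nat_lit 6) 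
(.lf (nat_lit 185752) (.g (nat_lit 1120) (.e (nat_lit 57871) (nat_lit 264) (.e (nat_lit 1190) (nat_lit 88) (.e (nat_lit 65619) (nat_lit 10) (.e (nat_lit 344168) (nat_lit 40) .nil)))) .nil)) 
(.lf (nat_lit 185816) (.g (nat_lit 1688) (.e (nat_lit 57871) (nat_lit 264) (.e (nat_lit 1200) (nat_lit 88) (.e (nat_lit 65623) (nat_lit 12) (.e (nat_lit 385094) (nat_lit 49) (.e (nat_lit 778327) (nat_lit 6) .nil))))) .nil))) (.nd (nat_lit 6) 
(.lf (nat_lit 185784) (.g (nat_lit 2974) (.e (nat_lit 57871) (nat_lit 264) (.e (nat_lit 1190) (nat_lit 88) (.e (nat_lit 65630) (nat_lit 14) (.e (nat_lit 401459) (nat_lit 13) (.e (nat_lit 483378) (nat_lit 23) (.e (nat_lit 335997) (nat_lit 1) .nil)))))) (.g (nat_lit 4) .nil .nil))) 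
(.lf (nat_lit 185848) (.g (nat_lit 2522) (.e (nat_lit 57871) (nat_lit 264) (.e (nat_lit 1209) (nat_lit 89) (.e (nat_lit 73782) (nat_lit 32) (.e (nat_lit 3090) (nat_lit 191) (.e (nat_lit 483350) (nat_lit 17) (.e (nat_lit 7936) (nat_lit 343) (.e (nat_lit 1183) (nat_lit 87) .nil))))))) (.g (nat_lit 5) .nil .nil))))))) (.nd (nat_lit 3) (.nd (nat_lit 4) (.nd (nat_lit 5) (.nd (nat_lit 6) 
(.lf (nat_lit 185732) (.g (nat_lit 2882) (.e (nat_lit 57871) (nat_lit 264) (.e (nat_lit 1181) (nat_lit 87) (.e (nat_lit 57479) (nat_lit 28) (.e (nat_lit 557095) (nat_lit 13) (.e (nat_lit 172097) (nat_lit 9) .nil))))) .nil)) 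
(.lf (nat_lit 185796) (.g (nat_lit 2026) (.e (nat_lit 57871) (nat_lit 264) (.e (nat_lit 1199) (nat_lit 88) (.e (nat_lit 65624) (nat_lit 12) (.e (nat_lit 385093) (nat_lit 49) (.e (nat_lit 778323) (nat_lit 5) (.e (nat_lit 81664) (nat_lit 40) (.e (nat_lit 1183) (nat_lit 87) .nil))))))) (.g (nat_lit 4) .nil .nil)))) (.nd (nat_lit 6) 
(.lf (nat_lit 185764) (.g (nat_lit 2223) (.e (nat_lit 57871) (nat_lit 264) (.e (nat_lit 1190) (nat_lit 88) (.e (nat_lit 65624) (nat_lit 12) (.e (nat_lit 385092) (nat_lit 49) (.e (nat_lit 778326) (nat_lit 6) (.e (nat_lit 81948) (nat_lit 21) .nil)))))) (.g (nat_lit 4) .nil .nil))) 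
(.lf (nat_lit 185828) (.g (nat_lit 3221) (.e (nat_lit 57871) (nat_lit 264) (.e (nat_lit 1200) (nat_lit 88) (.e (nat_lit 65630) (nat_lit 14) (.e (nat_lit 401459) (nat_lit 13) (.e (nat_lit 483354) (nat_lit 17) (.e (nat_lit 7936) (nat_lit 343) (.e (nat_lit 1183) (nat_lit 87) .nil))))))) (.g (nat_lit 4) .nil .nil))))) (.nd (nat_lit 5) (.nd (nat_lit 6) 
(.lf (nat_lit 185748) (.g (nat_lit 3988) (.e (nat_lit 57871) (nat_lit 264) (.e (nat_lit 1189) (nat_lit 88) (.e (nat_lit 65630) (nat_lit 14) (.e (nat_lit 401459) (nat_lit 13) (.e (nat_lit 483350) (nat_lit 17) (.e (nat_lit 7936) (nat_lit 343) (.e (nat_lit 1183) (nat_lit 87) .nil))))))) (.g (nat_lit 5) .nil .nil))) 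
(.lf (nat_lit 185812) (.g (nat_lit 1836) (.e (nat_lit 57871) (nat_lit 264) (.e (nat_lit 1200) (nat_lit 88) (.e (nat_lit 65619) (nat_lit 10) (.e (nat_lit 344168) (nat_lit 40) (.e (nat_lit 671761) (nat_lit 4) .nil))))) .nil))) (.nd (nat_lit 6) 
(.lf (nat_lit 185780) (.g (nat_lit 1947) (.e (nat_lit 57871) (nat_lit 264) (.e (nat_lit 1190) (nat_lit 88) (.e (nat_lit 65630) (nat_lit 14) (.e (nat_lit 401458) (nat_lit 13) (.e (nat_lit 483389) (nat_lit 23) .nil))))) .nil)) 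
(.lf (nat_lit 185844) (.g (nat_lit 1929) (.e (nat_lit 57871) (nat_lit 264) (.e (nat_lit 1209) (nat_lit 89) (.e (nat_lit 73782) (nat_lit 32) (.e (nat_lit 3088) (nat_lit 191) (.e (nat_lit 483389) (nat_lit 23) (.e (nat_lit 335997) (nat_lit 1) .nil)))))) (.g (nat_lit 4) .nil .nil)))))) (.nd (nat_lit 4) (.nd (nat_lit 5) (.nd (nat_lit 6) 
(.lf (nat_lit 185740) (.g (nat_lit 2293) (.e (nat_lit 57871) (nat_lit 264) (.e (nat_lit 1188) (nat_lit 88) (.e (nat_lit 65630) (nat_lit 14) (.e (nat_lit 401459) (nat_lit 13) (.e (nat_lit 483350) (nat_lit 17) .nil))))) .nil)) 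
(.lf (nat_lit 185804) (.g (nat_lit 3151) (.e (nat_lit 57871) (nat_lit 264) (.e (nat_lit 1199) (nat_lit 88) (.e (nat_lit 65629) (nat_lit 14) (.e (nat_lit 401459) (nat_lit 13) (.e (nat_lit 483354) (nat_lit 17) .nil))))) .nil))) (.nd (nat_lit 6) 
(.lf (nat_lit 185772) (.g (nat_lit 2608) (.e (nat_lit 57871) (nat_lit 264) (.e (nat_lit 1190) (nat_lit 88) (.e (nat_lit 65628) (nat_lit 14) (.e (nat_lit 401459) (nat_lit 13) (.e (nat_lit 483386) (nat_lit 23) (.e (nat_lit 335985) (nat_lit 1) .nil)))))) (.g (nat_lit 5) .nil .nil))) 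
(.lf (nat_lit 185836) (.g (nat_lit 1729) (.e (nat_lit 57871) (nat_lit 264) (.e (nat_lit 1209) (nat_lit 89) (.e (nat_lit 73781) (nat_lit 32) (.e (nat_lit 3090) (nat_lit 191) (.e (nat_lit 483380) (nat_lit 23) .nil))))) .nil)))) (.nd (nat_lit 5) (.nd (nat_lit 6) 
(.lf (nat_lit 185756) (.g (nat_lit 1689) (.e (nat_lit 57871) (nat_lit 264) (.e (nat_lit 1190) (nat_lit 88) (.e (nat_lit 65622) (nat_lit 12) (.e (nat_lit 385093) (nat_lit 49) (.e (nat_lit 778326) (nat_lit 6) .nil))))) .nil)) 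
(.lf (nat_lit 185820) (.g (nat_lit 2287) (.e (nat_lit 57871) (nat_lit 264) (.e (nat_lit 1200) (nat_lit 88) (.e (nat_lit 65624) (nat_lit 12) (.e (nat_lit 385106) (nat_lit 50) (.e (nat_lit 786479) (nat_lit 29) .nil))))) .nil))) (.nd (nat_lit 6) 
(.lf (nat_lit 185788) (.g (nat_lit 1630) (.e (nat_lit 57871) (nat_lit 264) (.e (nat_lit 1196) (nat_lit 88) (.e (nat_lit 65624) (nat_lit 12) (.e (nat_lit 385093) (nat_lit 49) (.e (nat_lit 778326) (nat_lit 6) .nil))))) .nil)) 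
(.lf (nat_lit 185852) (.g (nat_lit 548) (.e (nat_lit 57871) (nat_lit 264) (.e (nat_lit 1209) (nat_lit 89) (.e (nat_lit 81664) (nat_lit 36) .nil))) .nil))))))) (.nd (nat_lit 2) (.nd (nat_lit 3) (.nd (nat_lit 4) (.nd (nat_lit 5) (.nd (nat_lit 6) 
(.lf (nat_lit 185730) (.g (nat_lit 4282) (.e (nat_lit 57871) (nat_lit 264) (.e (nat_lit 1171) (nat_lit 87) (.e (nat_lit 57478) (nat_lit 28) (.e (nat_lit 557108) (nat_lit 15) (.e (nat_lit 188452) (nat_lit 23) (.e (nat_lit 204852) (nat_lit 26) (.e (nat_lit 343808) (nat_lit 1) .nil))))))) (.g (nat_lit 6) .nil .nil))) 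
(.lf (nat_lit 185794) (.g (nat_lit 1818) (.e (nat_lit 57871) (nat_lit 264) (.e (nat_lit 1199) (nat_lit 88) (.e (nat_lit 65617) (nat_lit 10) (.e (nat_lit 344169) (nat_lit 40) (.e (nat_lit 671766) (nat_lit 8) .nil))))) .nil))) (.nd (nat_lit 6) 
(.lf (nat_lit 185762) (.g (nat_lit 1495) (.e (nat_lit 57871) (nat_lit 264) (.e (nat_lit 1190) (nat_lit 88) (.e (nat_lit 65623) (nat_lit 12) (.e (nat_lit 385094) (nat_lit 49) (.e (nat_lit 778327) (nat_lit 6) .nil))))) .nil)) 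
(.lf (nat_lit 185826) (.g (nat_lit 1661) (.e (nat_lit 57871) (nat_lit 264) (.e (nat_lit 1200) (nat_lit 88) (.e (nat_lit 65630) (nat_lit 14) (.e (nat_lit 401458) (nat_lit 13) (.e (nat_lit 483389) (nat_lit 23) .nil))))) .nil)))) (.nd (nat_lit 5) (.nd (nat_lit 6) 
(.lf (nat_lit 185746) (.g (nat_lit 1684) (.e (nat_lit 57871) (nat_lit 264) (.e (nat_lit 1189) (nat_lit 88) (.e (nat_lit 65630) (nat_lit 14) (.e (nat_lit 401436) (nat_lit 9) (.e (nat_lit 426555) (nat_lit 32) .nil))))) .nil)) 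
(.lf (nat_lit 185810) (.g (nat_lit 2999) (.e (nat_lit 57871) (nat_lit 264) (.e (nat_lit 1199) (nat_lit 88) (.e (nat_lit 65630) (nat_lit 14) (.e (nat_lit 401459) (nat_lit 13) (.e (nat_lit 483389) (nat_lit 23) .nil))))) .nil))) (.nd (nat_lit 6) 
(.lf (nat_lit 185778) (.g (nat_lit 2115) (.e (nat_lit 57871) (nat_lit 264) (.e (nat_lit 1190) (nat_lit 88) (.e (nat_lit 65630) (nat_lit 14) (.e (nat_lit 401457) (nat_lit 13) (.e (nat_lit 483393) (nat_lit 23) .nil))))) .nil)) 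
(.lf (nat_lit 185842) (.g (nat_lit 3293) (.e (nat_lit 57871) (nat_lit 264) (.e (nat_lit 1209) (nat_lit 89) (.e (nat_lit 73782) (nat_lit 32) (.e (nat_lit 2857) (nat_lit 184) (.e (nat_lit 426542) (nat_lit 29) (.e (nat_lit 352309) (nat_lit 21) .nil)))))) (.g (nat_lit 0) .nil .nil)))))) (.nd (nat_lit 4) (.nd (nat_lit 5) (.nd (nat_lit 6) 
(.lf (nat_lit 185738) (.g (nat_lit 2258) (.e (nat_lit 57871) (nat_lit 264) (.e (nat_lit 1188) (nat_lit 88) (.e (nat_lit 65629) (nat_lit 14) (.e (nat_lit 401459) (nat_lit 13) (.e (nat_lit 483343) (nat_lit 17) .nil))))) .nil)) 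
(.lf (nat_lit 185802) (.g (nat_lit 2761) (.e (nat_lit 57871) (nat_lit 264) (.e (nat_lit 1199) (nat_lit 88) (.e (nat_lit 65629) (nat_lit 14) (.e (nat_lit 401459) (nat_lit 13) (.e (nat_lit 483343) (nat_lit 17) (.e (nat_lit 6436) (nat_lit 343) (.e (nat_lit 1183) (nat_lit 87) .nil))))))) (.g (nat_lit 4) .nil .nil)))) (.nd (nat_lit 6) 
(.lf (nat_lit 185770) (.g (nat_lit 2979) (.e (nat_lit 57871) (nat_lit 264) (.e (nat_lit 1190) (nat_lit 88) (.e (nat_lit 65628) (nat_lit 14) (.e (nat_lit 401459) (nat_lit 13) (.e (nat_lit 483344) (nat_lit 17) (.e (nat_lit 7936) (nat_lit 343) (.e (nat_lit 1183) (nat_lit 87) .nil))))))) (.g (nat_lit 5) .nil .nil))) 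
(.lf (nat_lit 185834) (.g (nat_lit 1550) (.e (nat_lit 57871) (nat_lit 264) (.e (nat_lit 1209) (nat_lit 89) (.e (nat_lit 73781) (nat_lit 32) (.e (nat_lit 3088) (nat_lit 191) (.e (nat_lit 483390) (nat_lit 23) .nil))))) .nil)))) (.nd (nat_lit 5) (.nd (nat_lit 6) 
(.lf (nat_lit 185754) (.g (nat_lit 488) (.e (nat_lit 57871) (nat_lit 264) (.e (nat_lit 1190) (nat_lit 88) (.e (nat_lit 65622) (nat_lit 12) .nil))) .nil)) 
(.lf (nat_lit 185818) (.g (nat_lit 1908) (.e (nat_lit 57871) (nat_lit 264) (.e (nat_lit 1200) (nat_lit 88) (.e (nat_lit 65624) (nat_lit 12) (.e (nat_lit 385093) (nat_lit 49) (.e (nat_lit 778326) (nat_lit 6) .nil))))) .nil))) (.nd (nat_lit 6) 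
(.lf (nat_lit 185786) (.g (nat_lit 2547) (.e (nat_lit 57871) (nat_lit 264) (.e (nat_lit 1190) (nat_lit 88) (.e (nat_lit 65630) (nat_lit 14) (.e (nat_lit 401459) (nat_lit 13) (.e (nat_lit 483386) (nat_lit 23) .nil))))) .nil)) 
(.lf (nat_lit 185850) (.g (nat_lit 1756) (.e (nat_lit 57871) (nat_lit 264) (.e (nat_lit 1209) (nat_lit 89) (.e (nat_lit 73782) (nat_lit 32) (.e (nat_lit 3090) (nat_lit 191) (.e (nat_lit 483389) (nat_lit 23) .nil))))) .nil)))))) (.nd (nat_lit 3) (.nd (nat_lit 4) (.nd (nat_lit 5) (.nd (nat_lit 6) 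
(.lf (nat_lit 185734) (.g (nat_lit 3237) (.e (nat_lit 57871) (nat_lit 264) (.e (nat_lit 1181) (nat_lit 87) (.e (nat_lit 57479) (nat_lit 28) (.e (nat_lit 557109) (nat_lit 15) (.e (nat_lit 188458) (nat_lit 25) .nil))))) .nil)) 
(.lf (nat_lit 185798) (.g (nat_lit 1919) (.e (nat_lit 57871) (nat_lit 264) (.e (nat_lit 1199) (nat_lit 88) (.e (nat_lit 65624) (nat_lit 12) (.e (nat_lit 385105) (nat_lit 50) (.e (nat_lit 786479) (nat_lit 29) .nil))))) .nil))) (.nd (nat_lit 6) 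
(.lf (nat_lit 185766) (.g (nat_lit 2299) (.e (nat_lit 57871) (nat_lit 264) (.e (nat_lit 1190) (nat_lit 88) (.e (nat_lit 65624) (nat_lit 12) (.e (nat_lit 385094) (nat_lit 49) (.e (nat_lit 778327) (nat_lit 6) .nil))))) .nil)) 
(.lf (nat_lit 185830) (.g (nat_lit 418) (.e (nat_lit 57871) (nat_lit 264) (.e (nat_lit 1209) (nat_lit 89) (.e (nat_lit 73780) (nat_lit 32) .nil))) .nil)))) (.nd (nat_lit 5) (.nd (nat_lit 6) 
(.lf (nat_lit 185750) (.g (nat_lit 1974) (.e (nat_lit 57871) (nat_lit 264) (.e (nat_lit 1190) (nat_lit 88) (.e (nat_lit 65619) (nat_lit 10) (.e (nat_lit 344097) (nat_lit 18) (.e (nat_lit 5902) (nat_lit 320) .nil))))) .nil)) 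
(.lf (nat_lit 185814) (.g (nat_lit 1919) (.e (nat_lit 57871) (nat_lit 264) (.e (nat_lit 1200) (nat_lit 88) (.e (nat_lit 65619) (nat_lit 10) (.e (nat_lit 344169) (nat_lit 40) (.e (nat_lit 671761) (nat_lit 4) .nil))))) .nil))) (.nd (nat_lit 6) 
(.lf (nat_lit 185782) (.g (nat_lit 4194) (.e (nat_lit 57871) (nat_lit 264) (.e (nat_lit 1190) (nat_lit 88) (.e (nat_lit 65630) (nat_lit 14) (.e (nat_lit 401459) (nat_lit 13) (.e (nat_lit 483350) (nat_lit 17) (.e (nat_lit 7936) (nat_lit 343) (.e (nat_lit 1183) (nat_lit 87) .nil))))))) (.g (nat_lit 5) .nil .nil))) 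
(.lf (nat_lit 185846) (.g (nat_lit 2683) (.e (nat_lit 57871) (nat_lit 264) (.e (nat_lit 1209) (nat_lit 89) (.e (nat_lit 73782) (nat_lit 32) (.e (nat_lit 3089) (nat_lit 191) (.e (nat_lit 483378) (nat_lit 23) (.e (nat_lit 335997) (nat_lit 1) .nil)))))) (.g (nat_lit 0) .nil .nil)))))) (.nd (nat_lit 4) (.nd (nat_lit 5) (.nd (nat_lit 6) 
(.lf (nat_lit 185742) (.g (nat_lit 1757) (.e (nat_lit 57871) (nat_lit 264) (.e (nat_lit 1189) (nat_lit 88) (.e (nat_lit 65624) (nat_lit 12) (.e (nat_lit 385093) (nat_lit 49) (.e (nat_lit 778323) (nat_lit 5) (.e (nat_lit 81664) (nat_lit 40) (.e (nat_lit 1183) (nat_lit 87) .nil))))))) (.g (nat_lit 4) .nil .nil))) 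
(.lf (nat_lit 185806) (.g (nat_lit 2176) (.e (nat_lit 57871) (nat_lit 264) (.e (nat_lit 1199) (nat_lit 88) (.e (nat_lit 65630) (nat_lit 14) (.e (nat_lit 401456) (nat_lit 13) (.e (nat_lit 483378) (nat_lit 23) .nil))))) .nil))) (.nd (nat_lit 6) 
(.lf (nat_lit 185774) (.g (nat_lit 2423) (.e (nat_lit 57871) (nat_lit 264) (.e (nat_lit 1190) (nat_lit 88) (.e (nat_lit 65629) (nat_lit 14) (.e (nat_lit 401459) (nat_lit 13) (.e (nat_lit 483344) (nat_lit 17) .nil))))) .nil)) 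
(.lf (nat_lit 185838) (.g (nat_lit 2792) (.e (nat_lit 57871) (nat_lit 264) (.e (nat_lit 1209) (nat_lit 89) (.e (nat_lit 73782) (nat_lit 32) (.e (nat_lit 2854) (nat_lit 184) (.e (nat_lit 426542) (nat_lit 29) (.e (nat_lit 352307) (nat_lit 21) .nil)))))) (.g (nat_lit 0) .nil .nil))))) (.nd (nat_lit 5) (.nd (nat_lit 6) 
(.lf (nat_lit 185758) (.g (nat_lit 1519) (.e (nat_lit 57871) (nat_lit 264) (.e (nat_lit 1190) (nat_lit 88) (.e (nat_lit 65622) (nat_lit 12) (.e (nat_lit 385104) (nat_lit 50) (.e (nat_lit 786480) (nat_lit 29) .nil))))) .nil)) 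
(.lf (nat_lit 185822) (.g (nat_lit 3287) (.e (nat_lit 57871) (nat_lit 264) (.e (nat_lit 1200) (nat_lit 88) (.e (nat_lit 65629) (nat_lit 14) (.e (nat_lit 401459) (nat_lit 13) (.e (nat_lit 483393) (nat_lit 23) .nil))))) .nil))) (.nd (nat_lit 6) 
(.lf (nat_lit 185790) (.g (nat_lit 1526) (.e (nat_lit 57871) (nat_lit 264) (.e (nat_lit 1199) (nat_lit 88) (.e (nat_lit 65610) (nat_lit 10) (.e (nat_lit 344169) (nat_lit 40) (.e (nat_lit 671761) (nat_lit 4) .nil))))) .nil)) 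
(.lf (nat_lit 185854) (.g (nat_lit 1942) (.e (nat_lit 57871) (nat_lit 264) (.e (nat_lit 1209) (nat_lit 89) (.e (nat_lit 73787) (nat_lit 45) (.e (nat_lit 1378) (nat_lit 104) (.e (nat_lit 303155) (nat_lit 29) (.e (nat_lit 352307) (nat_lit 21) .nil)))))) (.g (nat_lit 0) .nil .nil))))))))) (.nd (nat_lit 1) (.nd (nat_lit 2) (.nd (nat_lit 3) (.nd (nat_lit 4) (.nd (nat_lit 5) (.nd (nat_lit 6) 
(.lf (nat_lit 185729) (.g (nat_lit 1613) (.e (nat_lit 57870) (nat_lit 264) (.e (nat_lit 1221) (nat_lit 90) (.e (nat_lit 81959) (nat_lit 24) (.e (nat_lit 123229) (nat_lit 282) .nil)))) .nil)) 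
(.lf (nat_lit 185793) (.g (nat_lit 1209) (.e (nat_lit 57871) (nat_lit 264) (.e (nat_lit 1199) (nat_lit 88) (.e (nat_lit 65617) (nat_lit 10) (.e (nat_lit 344169) (nat_lit 40) .nil)))) .nil))) (.nd (nat_lit 6) 
(.lf (nat_lit 185761) (.g (nat_lit 1127) (.e (nat_lit 57871) (nat_lit 264) (.e (nat_lit 1190) (nat_lit 88) (.e (nat_lit 65623) (nat_lit 12) (.e (nat_lit 385093) (nat_lit 49) .nil)))) .nil)) 
(.lf (nat_lit 185825) (.g (nat_lit 1841) (.e (nat_lit 57871) (nat_lit 264) (.e (nat_lit 1200) (nat_lit 88) (.e (nat_lit 65630) (nat_lit 14) (.e (nat_lit 401457) (nat_lit 13) (.e (nat_lit 483389) (nat_lit 23) .nil))))) .nil)))) (.nd (nat_lit 5) (.nd (nat_lit 6) 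
(.lf (nat_lit 185745) (.g (nat_lit 3114) (.e (nat_lit 57871) (nat_lit 264) (.e (nat_lit 1189) (nat_lit 88) (.e (nat_lit 65628) (nat_lit 14) (.e (nat_lit 401438) (nat_lit 9) (.e (nat_lit 426542) (nat_lit 29) (.e (nat_lit 352307) (nat_lit 21) .nil)))))) (.g (nat_lit 0) .nil .nil))) 
(.lf (nat_lit 185809) (.g (nat_lit 2626) (.e (nat_lit 57871) (nat_lit 264) (.e (nat_lit 1199) (nat_lit 88) (.e (nat_lit 65630) (nat_lit 14) (.e (nat_lit 401459) (nat_lit 13) (.e (nat_lit 483380) (nat_lit 23) .nil))))) .nil))) (.nd (nat_lit 6) 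
(.lf (nat_lit 185777) (.g (nat_lit 2445) (.e (nat_lit 57871) (nat_lit 264) (.e (nat_lit 1190) (nat_lit 88) (.e (nat_lit 65630) (nat_lit 14) (.e (nat_lit 401457) (nat_lit 13) (.e (nat_lit 483378) (nat_lit 23) (.e (nat_lit 335997) (nat_lit 1) .nil)))))) (.g (nat_lit 4) .nil .nil))) 
(.lf (nat_lit 185841) (.g (nat_lit 3375) (.e (nat_lit 57871) (nat_lit 264) (.e (nat_lit 1209) (nat_lit 89) (.e (nat_lit 73782) (nat_lit 32) (.e (nat_lit 2857) (nat_lit 184) (.e (nat_lit 426542) (nat_lit 29) (.e (nat_lit 352307) (nat_lit 21) .nil)))))) (.g (nat_lit 0) .nil .nil)))))) (.nd (nat_lit 4) (.nd (nat_lit 5) (.nd (nat_lit 6) 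
(.lf (nat_lit 185737) (.g (nat_lit 2768) (.e (nat_lit 57871) (nat_lit 264) (.e (nat_lit 1182) (nat_lit 87) (.e (nat_lit 57479) (nat_lit 28) (.e (nat_lit 557095) (nat_lit 13) (.e (nat_lit 172115) (nat_lit 10) .nil))))) .nil)) 
(.lf (nat_lit 185801) (.g (nat_lit 1936) (.e (nat_lit 57871) (nat_lit 264) (.e (nat_lit 1199) (nat_lit 88) (.e (nat_lit 65628) (nat_lit 14) (.e (nat_lit 401459) (nat_lit 13) (.e (nat_lit 483386) (nat_lit 23) .nil))))) .nil))) (.nd (nat_lit 6) 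
(.lf (nat_lit 185769) (.g (nat_lit 2033) (.e (nat_lit 57871) (nat_lit 264) (.e (nat_lit 1190) (nat_lit 88) (.e (nat_lit 65628) (nat_lit 14) (.e (nat_lit 401457) (nat_lit 13) (.e (nat_lit 483389) (nat_lit 23) .nil))))) .nil)) 
(.lf (nat_lit 185833) (.g (nat_lit 1557) (.e (nat_lit 57871) (nat_lit 264) (.e (nat_lit 1209) (nat_lit 89) (.e (nat_lit 73781) (nat_lit 32) (.e (nat_lit 3088) (nat_lit 191) (.e (nat_lit 483389) (nat_lit 23) .nil))))) .nil)))) (.nd (nat_lit 5) (.nd (nat_lit 6) 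
(.lf (nat_lit 185753) (.g (nat_lit 1783) (.e (nat_lit 57871) (nat_lit 264) (.e (nat_lit 1190) (nat_lit 88) (.e (nat_lit 65619) (nat_lit 10) (.e (nat_lit 344168) (nat_lit 40) (.e (nat_lit 671761) (nat_lit 4) .nil))))) .nil)) 
(.lf (nat_lit 185817) (.g (nat_lit 1839) (.e (nat_lit 57871) (nat_lit 264) (.e (nat_lit 1200) (nat_lit 88) (.e (nat_lit 65624) (nat_lit 12) (.e (nat_lit 385092) (nat_lit 49) (.e (nat_lit 778326) (nat_lit 6) .nil))))) .nil))) (.nd (nat_lit 6) 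
(.lf (nat_lit 185785) (.g (nat_lit 2876) (.e (nat_lit 57871) (nat_lit 264) (.e (nat_lit 1190) (nat_lit 88) (.e (nat_lit 65630) (nat_lit 14) (.e (nat_lit 401459) (nat_lit 13) (.e (nat_lit 483380) (nat_lit 23) .nil))))) .nil)) 
(.lf (nat_lit 185849) (.g (nat_lit 2901) (.e (nat_lit 57871) (nat_lit 264) (.e (nat_lit 1209) (nat_lit 89) (.e (nat_lit 73782) (nat_lit 32) (.e (nat_lit 3090) (nat_lit 191) (.e (nat_lit 483378) (nat_lit 23) (.e (nat_lit 335997) (nat_lit 1) .nil)))))) (.g (nat_lit 0) .nil .nil))))))) (.nd (nat_lit 3) (.nd (nat_lit 4) (.nd (nat_lit 5) (.nd (nat_lit 6) 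
(.lf (nat_lit 185733) (.g (nat_lit 2720) (.e (nat_lit 57871) (nat_lit 264) (.e (nat_lit 1181) (nat_lit 87) (.e (nat_lit 57479) (nat_lit 28) (.e (nat_lit 557095) (nat_lit 13) (.e (nat_lit 172115) (nat_lit 10) .nil))))) .nil)) 
(.lf (nat_lit 185797) (.g (nat_lit 1746) (.e (nat_lit 57871) (nat_lit 264) (.e (nat_lit 1199) (nat_lit 88) (.e (nat_lit 65624) (nat_lit 12) (.e (nat_lit 385093) (nat_lit 49) (.e (nat_lit 778327) (nat_lit 6) .nil))))) .nil))) (.nd (nat_lit 6) 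
(.lf (nat_lit 185765) (.g (nat_lit 2239) (.e (nat_lit 57871) (nat_lit 264) (.e (nat_lit 1190) (nat_lit 88) (.e (nat_lit 65624) (nat_lit 12) (.e (nat_lit 385093) (nat_lit 49) (.e (nat_lit 778327) (nat_lit 6) .nil))))) .nil)) 
(.lf (nat_lit 185829) (.g (nat_lit 448) (.e (nat_lit 57871) (nat_lit 264) (.e (nat_lit 1209) (nat_lit 89) (.e (nat_lit 73779) (nat_lit 32) .nil))) .nil)))) (.nd (nat_lit 5) (.nd (nat_lit 6) 
(.lf (nat_lit 185749) (.g (nat_lit 1838) (.e (nat_lit 57871) (nat_lit 264) (.e (nat_lit 1190) (nat_lit 88) (.e (nat_lit 65619) (nat_lit 10) (.e (nat_lit 344090) (nat_lit 18) (.e (nat_lit 5896) (nat_lit 320) .nil))))) .nil)) 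
(.lf (nat_lit 185813) (.g (nat_lit 1843) (.e (nat_lit 57871) (nat_lit 264) (.e (nat_lit 1200) (nat_lit 88) (.e (nat_lit 65619) (nat_lit 10) (.e (nat_lit 344169) (nat_lit 40) (.e (nat_lit 671760) (nat_lit 4) .nil))))) .nil))) (.nd (nat_lit 6) 
(.lf (nat_lit 185781) (.g (nat_lit 3196) (.e (nat_lit 57871) (nat_lit 264) (.e (nat_lit 1190) (nat_lit 88) (.e (nat_lit 65630) (nat_lit 14) (.e (nat_lit 401459) (nat_lit 13) (.e (nat_lit 483347) (nat_lit 17) (.e (nat_lit 7936) (nat_lit 343) (.e (nat_lit 1183) (nat_lit 87) .nil))))))) (.g (nat_lit 4) .nil .nil))) 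
(.lf (nat_lit 185845) (.g (nat_lit 1655) (.e (nat_lit 57871) (nat_lit 264) (.e (nat_lit 1209) (nat_lit 89) (.e (nat_lit 73782) (nat_lit 32) (.e (nat_lit 3088) (nat_lit 191) (.e (nat_lit 483390) (nat_lit 23) .nil))))) .nil))))) (.nd (nat_lit 4) (.nd (nat_lit 5) (.nd (nat_lit 6) 
(.lf (nat_lit 185741) (.g (nat_lit 1356) (.e (nat_lit 57871) (nat_lit 264) (.e (nat_lit 1189) (nat_lit 88) (.e (nat_lit 65623) (nat_lit 12) (.e (nat_lit 385093) (nat_lit 49) (.e (nat_lit 778326) (nat_lit 6) .nil))))) .nil)) 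
(.lf (nat_lit 185805) (.g (nat_lit 3597) (.e (nat_lit 57871) (nat_lit 264) (.e (nat_lit 1199) (nat_lit 88) (.e (nat_lit 65630) (nat_lit 14) (.e (nat_lit 401454) (nat_lit 12) (.e (nat_lit 475144) (nat_lit 16) .nil))))) .nil))) (.nd (nat_lit 6) 
(.lf (nat_lit 185773) (.g (nat_lit 2675) (.e (nat_lit 57871) (nat_lit 264) (.e (nat_lit 1190) (nat_lit 88) (.e (nat_lit 65629) (nat_lit 14) (.e (nat_lit 401459) (nat_lit 13) (.e (nat_lit 483343) (nat_lit 17) .nil))))) .nil)) 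
(.lf (nat_lit 185837) (.g (nat_lit 1874) (.e (nat_lit 57871) (nat_lit 264) (.e (nat_lit 1209) (nat_lit 89) (.e (nat_lit 73781) (nat_lit 32) (.e (nat_lit 3090) (nat_lit 191) (.e (nat_lit 483389) (nat_lit 23) .nil))))) .nil)))) (.nd (nat_lit 5) (.nd (nat_lit 6) 
(.lf (nat_lit 185757) (.g (nat_lit 1531) (.e (nat_lit 57871) (nat_lit 264) (.e (nat_lit 1190) (nat_lit 88) (.e (nat_lit 65622) (nat_lit 12) (.e (nat_lit 385094) (nat_lit 49) (.e (nat_lit 778326) (nat_lit 6) .nil))))) .nil)) 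
(.lf (nat_lit 185821) (.g (nat_lit 2153) (.e (nat_lit 57871) (nat_lit 264) (.e (nat_lit 1200) (nat_lit 88) (.e (nat_lit 65628) (nat_lit 14) (.e (nat_lit 401457) (nat_lit 13) (.e (nat_lit 483389) (nat_lit 23) .nil))))) .nil))) (.nd (nat_lit 6) 
(.lf (nat_lit 185789) (.g (nat_lit 806) (.e (nat_lit 57871) (nat_lit 264) (.e (nat_lit 1199) (nat_lit 88) (.e (nat_lit 65583) (nat_lit 7) (.e (nat_lit 319539) (nat_lit 19) .nil)))) .nil)) 
(.lf (nat_lit 185853) (.g (nat_lit 548) (.e (nat_lit 57871) (nat_lit 264) (.e (nat_lit 1209) (nat_lit 89) (.e (nat_lit 81664) (nat_lit 39) .nil))) .nil))))))) (.nd (nat_lit 2) (.nd (nat_lit 3) (.nd (nat_lit 4) (.nd (nat_lit 5) (.nd (nat_lit 6) 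
(.lf (nat_lit 185731) (.g (nat_lit 2213) (.e (nat_lit 57871) (nat_lit 264) (.e (nat_lit 1181) (nat_lit 87) (.e (nat_lit 57478) (nat_lit 28) (.e (nat_lit 557107) (nat_lit 15) (.e (nat_lit 188447) (nat_lit 22) .nil))))) .nil)) 
(.lf (nat_lit 185795) (.g (nat_lit 1038) (.e (nat_lit 57871) (nat_lit 264) (.e (nat_lit 1199) (nat_lit 88) (.e (nat_lit 65622) (nat_lit 12) (.e (nat_lit 385092) (nat_lit 49) .nil)))) .nil))) (.nd (nat_lit 6) 
(.lf (nat_lit 185763) (.g (nat_lit 1284) (.e (nat_lit 57871) (nat_lit 264) (.e (nat_lit 1190) (nat_lit 88) (.e (nat_lit 65624) (nat_lit 12) (.e (nat_lit 385092) (nat_lit 49) .nil)))) .nil)) 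
(.lf (nat_lit 185827) (.g (nat_lit 3030) (.e (nat_lit 57871) (nat_lit 264) (.e (nat_lit 1200) (nat_lit 88) (.e (nat_lit 65630) (nat_lit 14) (.e (nat_lit 401459) (nat_lit 13) (.e (nat_lit 483347) (nat_lit 17) (.e (nat_lit 7936) (nat_lit 343) (.e (nat_lit 1183) (nat_lit 87) .nil))))))) (.g (nat_lit 4) .nil .nil))))) (.nd (nat_lit 5) (.nd (nat_lit 6) 
(.lf (nat_lit 185747) (.g (nat_lit 1302) (.e (nat_lit 57871) (nat_lit 264) (.e (nat_lit 1189) (nat_lit 88) (.e (nat_lit 65630) (nat_lit 14) (.e (nat_lit 401437) (nat_lit 9) (.e (nat_lit 426533) (nat_lit 28) .nil))))) .nil)) 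
(.lf (nat_lit 185811) (.g (nat_lit 1658) (.e (nat_lit 57871) (nat_lit 264) (.e (nat_lit 1200) (nat_lit 88) (.e (nat_lit 65604) (nat_lit 9) (.e (nat_lit 335907) (nat_lit 0) (.e (nat_lit 1994) (nat_lit 137) .nil))))) .nil))) (.nd (nat_lit 6) 
(.lf (nat_lit 185779) (.g (nat_lit 2387) (.e (nat_lit 57871) (nat_lit 264) (.e (nat_lit 1190) (nat_lit 88) (.e (nat_lit 65630) (nat_lit 14) (.e (nat_lit 401458) (nat_lit 13) (.e (nat_lit 483387) (nat_lit 23) (.e (nat_lit 335997) (nat_lit 1) .nil)))))) (.g (nat_lit 4) .nil .nil))) 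
(.lf (nat_lit 185843) (.g (nat_lit 2437) (.e (nat_lit 57871) (nat_lit 264) (.e (nat_lit 1209) (nat_lit 89) (.e (nat_lit 73782) (nat_lit 32) (.e (nat_lit 3087) (nat_lit 191) (.e (nat_lit 483378) (nat_lit 23) (.e (nat_lit 335997) (nat_lit 1) .nil)))))) (.g (nat_lit 0) .nil .nil)))))) (.nd (nat_lit 4) (.nd (nat_lit 5) (.nd (nat_lit 6) 
(.lf (nat_lit 185739) (.g (nat_lit 3461) (.e (nat_lit 57871) (nat_lit 264) (.e (nat_lit 1188) (nat_lit 88) (.e (nat_lit 65630) (nat_lit 14) (.e (nat_lit 401438) (nat_lit 9) (.e (nat_lit 426542) (nat_lit 29) (.e (nat_lit 352307) (nat_lit 21) .nil)))))) (.g (nat_lit 0) .nil .nil))) 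
(.lf (nat_lit 185803) (.g (nat_lit 3079) (.e (nat_lit 57871) (nat_lit 264) (.e (nat_lit 1199) (nat_lit 88) (.e (nat_lit 65629) (nat_lit 14) (.e (nat_lit 401459) (nat_lit 13) (.e (nat_lit 483347) (nat_lit 17) (.e (nat_lit 7936) (nat_lit 343) (.e (nat_lit 1183) (nat_lit 87) .nil))))))) (.g (nat_lit 4) .nil .nil)))) (.nd (nat_lit 6) 
(.lf (nat_lit 185771) (.g (nat_lit 2701) (.e (nat_lit 57871) (nat_lit 264) (.e (nat_lit 1190) (nat_lit 88) (.e (nat_lit 65628) (nat_lit 14) (.e (nat_lit 401459) (nat_lit 13) (.e (nat_lit 483383) (nat_lit 23) .nil))))) .nil)) 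
(.lf (nat_lit 185835) (.g (nat_lit 2018) (.e (nat_lit 57871) (nat_lit 264) (.e (nat_lit 1209) (nat_lit 89) (.e (nat_lit 73781) (nat_lit 32) (.e (nat_lit 3089) (nat_lit 191) (.e (nat_lit 483387) (nat_lit 23) (.e (nat_lit 335997) (nat_lit 1) .nil)))))) (.g (nat_lit 4) .nil .nil))))) (.nd (nat_lit 5) (.nd (nat_lit 6) 
(.lf (nat_lit 185755) (.g (nat_lit 963) (.e (nat_lit 57871) (nat_lit 264) (.e (nat_lit 1190) (nat_lit 88) (.e (nat_lit 65622) (nat_lit 12) (.e (nat_lit 385093) (nat_lit 49) .nil)))) .nil)) 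
(.lf (nat_lit 185819) (.g (nat_lit 2214) (.e (nat_lit 57871) (nat_lit 264) (.e (nat_lit 1200) (nat_lit 88) (.e (nat_lit 65624) (nat_lit 12) (.e (nat_lit 385094) (nat_lit 49) (.e (nat_lit 778327) (nat_lit 6) .nil))))) .nil))) (.nd (nat_lit 6) 
(.lf (nat_lit 185787) (.g (nat_lit 3467) (.e (nat_lit 57871) (nat_lit 264) (.e (nat_lit 1190) (nat_lit 88) (.e (nat_lit 65630) (nat_lit 14) (.e (nat_lit 401459) (nat_lit 13) (.e (nat_lit 483389) (nat_lit 23) .nil))))) .nil)) 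
(.lf (nat_lit 185851) (.g (nat_lit 548) (.e (nat_lit 57871) (nat_lit 264) (.e (nat_lit 1209) (nat_lit 89) (.e (nat_lit 81664) (nat_lit 32) .nil))) .nil)))))) (.nd (nat_lit 3) (.nd (nat_lit 4) (.nd (nat_lit 5) (.nd (nat_lit 6) 
(.lf (nat_lit 185735) (.g (nat_lit 2492) (.e (nat_lit 57871) (nat_lit 264) (.e (nat_lit 1181) (nat_lit 87) (.e (nat_lit 57480) (nat_lit 28) (.e (nat_lit 557107) (nat_lit 15) (.e (nat_lit 188450) (nat_lit 23) .nil))))) .nil)) 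
(.lf (nat_lit 185799) (.g (nat_lit 1695) (.e (nat_lit 57871) (nat_lit 264) (.e (nat_lit 1199) (nat_lit 88) (.e (nat_lit 65628) (nat_lit 14) (.e (nat_lit 401458) (nat_lit 13) (.e (nat_lit 483389) (nat_lit 23) .nil))))) .nil))) (.nd (nat_lit 6) 
(.lf (nat_lit 185767) (.g (nat_lit 2325) (.e (nat_lit 57871) (nat_lit 264) (.e (nat_lit 1190) (nat_lit 88) (.e (nat_lit 65624) (nat_lit 12) (.e (nat_lit 385105) (nat_lit 50) (.e (nat_lit 786479) (nat_lit 29) .nil))))) .nil)) 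
(.lf (nat_lit 185831) (.g (nat_lit 1964) (.e (nat_lit 57871) (nat_lit 264) (.e (nat_lit 1209) (nat_lit 89) (.e (nat_lit 73780) (nat_lit 32) (.e (nat_lit 2936) (nat_lit 184) (.e (nat_lit 426541) (nat_lit 29) (.e (nat_lit 352307) (nat_lit 21) .nil)))))) (.g (nat_lit 0) .nil .nil))))) (.nd (nat_lit 5) (.nd (nat_lit 6) 
(.lf (nat_lit 185751) (.g (nat_lit 1699) (.e (nat_lit 57871) (nat_lit 264) (.e (nat_lit 1190) (nat_lit 88) (.e (nat_lit 65619) (nat_lit 10) (.e (nat_lit 344097) (nat_lit 18) (.e (nat_lit 5906) (nat_lit 320) .nil))))) .nil)) 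
(.lf (nat_lit 185815) (.g (nat_lit 1916) (.e (nat_lit 57871) (nat_lit 264) (.e (nat_lit 1200) (nat_lit 88) (.e (nat_lit 65622) (nat_lit 12) (.e (nat_lit 385105) (nat_lit 50) (.e (nat_lit 786478) (nat_lit 29) .nil))))) .nil))) (.nd (nat_lit 6) 
(.lf (nat_lit 185783) (.g (nat_lit 3351) (.e (nat_lit 57871) (nat_lit 264) (.e (nat_lit 1190) (nat_lit 88) (.e (nat_lit 65630) (nat_lit 14) (.e (nat_lit 401459) (nat_lit 13) (.e (nat_lit 483354) (nat_lit 17) (.e (nat_lit 7936) (nat_lit 343) (.e (nat_lit 1183) (nat_lit 87) .nil))))))) (.g (nat_lit 4) .nil .nil))) 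
(.lf (nat_lit 185847) (.g (nat_lit 901) (.e (nat_lit 57871) (nat_lit 264) (.e (nat_lit 1209) (nat_lit 89) (.e (nat_lit 73782) (nat_lit 32) (.e (nat_lit 3090) (nat_lit 191) .nil)))) .nil))))) (.nd (nat_lit 4) (.nd (nat_lit 5) (.nd (nat_lit 6) 
(.lf (nat_lit 185743) (.g (nat_lit 1794) (.e (nat_lit 57871) (nat_lit 264) (.e (nat_lit 1189) (nat_lit 88) (.e (nat_lit 65624) (nat_lit 12) (.e (nat_lit 385093) (nat_lit 49) (.e (nat_lit 778327) (nat_lit 6) .nil))))) .nil)) 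
(.lf (nat_lit 185807) (.g (nat_lit 1798) (.e (nat_lit 57871) (nat_lit 264) (.e (nat_lit 1199) (nat_lit 88) (.e (nat_lit 65630) (nat_lit 14) (.e (nat_lit 401457) (nat_lit 13) (.e (nat_lit 483389) (nat_lit 23) .nil))))) .nil))) (.nd (nat_lit 6) 
(.lf (nat_lit 185775) (.g (nat_lit 2294) (.e (nat_lit 57871) (nat_lit 264) (.e (nat_lit 1190) (nat_lit 88) (.e (nat_lit 65630) (nat_lit 14) (.e (nat_lit 401438) (nat_lit 9) (.e (nat_lit 426555) (nat_lit 32) .nil))))) .nil)) 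
(.lf (nat_lit 185839) (.g (nat_lit 2685) (.e (nat_lit 57871) (nat_lit 264) (.e (nat_lit 1209) (nat_lit 89) (.e (nat_lit 73782) (nat_lit 32) (.e (nat_lit 2854) (nat_lit 184) (.e (nat_lit 426542) (nat_lit 29) (.e (nat_lit 352309) (nat_lit 21) .nil)))))) (.g (nat_lit 0) .nil .nil))))) (.nd (nat_lit 5) (.nd (nat_lit 6) 
(.lf (nat_lit 185759) (.g (nat_lit 2010) (.e (nat_lit 57871) (nat_lit 264) (.e (nat_lit 1190) (nat_lit 88) (.e (nat_lit 65622) (nat_lit 12) (.e (nat_lit 385105) (nat_lit 50) (.e (nat_lit 786479) (nat_lit 29) .nil))))) .nil)) 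
(.lf (nat_lit 185823) (.g (nat_lit 3569) (.e (nat_lit 57871) (nat_lit 264) (.e (nat_lit 1200) (nat_lit 88) (.e (nat_lit 65630) (nat_lit 14) (.e (nat_lit 401454) (nat_lit 12) (.e (nat_lit 475144) (nat_lit 16) .nil))))) .nil))) (.nd (nat_lit 6) 
(.lf (nat_lit 185791) (.g (nat_lit 1294) (.e (nat_lit 57871) (nat_lit 264) (.e (nat_lit 1199) (nat_lit 88) (.e (nat_lit 65617) (nat_lit 10) (.e (nat_lit 344168) (nat_lit 40) .nil)))) .nil)) 
(.lf (nat_lit 185855) (.g (nat_lit 371) (.e (nat_lit 57871) (nat_lit 264) (.e (nat_lit 1209) (nat_lit 89) (.e (nat_lit 73794) (nat_lit 46) .nil))) .nil)))))))))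

noncomputable def tv2471 : DT := (.nd (nat_lit 0) (.nd (nat_lit 1) (.nd (nat_lit 2) (.nd (nat_lit 3) (.nd (nat_lit 4) (.nd (nat_lit 5) 
(.lf (nat_lit 185856) (.g (nat_lit 1860) (.e (nat_lit 57871) (nat_lit 264) (.e (nat_lit 1209) (nat_lit 89) (.e (nat_lit 73794) (nat_lit 46) (.e (nat_lit 57862) (nat_lit 256) (.e (nat_lit 317) (nat_lit 23) (.e (nat_lit 352307) (nat_lit 21) .nil)))))) (.g (nat_lit 0) .nil .nil))) 
(.lf (nat_lit 185888) (.g (nat_lit 1898) (.e (nat_lit 57871) (nat_lit 264) (.e (nat_lit 1220) (nat_lit 90) (.e (nat_lit 81948) (nat_lit 21) (.e (nat_lit 57872) (nat_lit 264) (.e (nat_lit 1190) (nat_lit 88) (.e (nat_lit 65604) (nat_lit 9) (.e (nat_lit 335997) (nat_lit 1) .nil))))))) (.g (nat_lit 4) .nil .nil)))) (.nd (nat_lit 5) 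
(.lf (nat_lit 185872) (.g (nat_lit 2736) (.e (nat_lit 57871) (nat_lit 264) (.e (nat_lit 1219) (nat_lit 90) (.e (nat_lit 81948) (nat_lit 21) (.e (nat_lit 57870) (nat_lit 264) (.e (nat_lit 1190) (nat_lit 88) (.e (nat_lit 65604) (nat_lit 9) (.e (nat_lit 335997) (nat_lit 1) .nil))))))) (.g (nat_lit 0) .nil .nil))) 
(.lf (nat_lit 185904) (.g (nat_lit 3368) (.e (nat_lit 57871) (nat_lit 264) (.e (nat_lit 1220) (nat_lit 90) (.e (nat_lit 81950) (nat_lit 21) (.e (nat_lit 57873) (nat_lit 264) (.e (nat_lit 1219) (nat_lit 90) (.e (nat_lit 81948) (nat_lit 21) .nil)))))) (.g (nat_lit 0) .nil .nil))))) (.nd (nat_lit 4) (.nd (nat_lit 5) 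
(.lf (nat_lit 185864) (.g (nat_lit 826) (.e (nat_lit 57871) (nat_lit 264) (.e (nat_lit 1211) (nat_lit 89) (.e (nat_lit 73782) (nat_lit 32) (.e (nat_lit 3090) (nat_lit 191) .nil)))) .nil)) 
(.lf (nat_lit 185896) (.g (nat_lit 3452) (.e (nat_lit 57871) (nat_lit 264) (.e (nat_lit 1220) (nat_lit 90) (.e (nat_lit 81950) (nat_lit 21) (.e (nat_lit 57871) (nat_lit 264) (.e (nat_lit 1220) (nat_lit 90) (.e (nat_lit 81950) (nat_lit 21) .nil)))))) (.g (nat_lit 0) .nil .nil)))) (.nd (nat_lit 5) 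
(.lf (nat_lit 185880) (.g (nat_lit 1995) (.e (nat_lit 57871) (nat_lit 264) (.e (nat_lit 1219) (nat_lit 90) (.e (nat_lit 81950) (nat_lit 21) (.e (nat_lit 57873) (nat_lit 264) (.e (nat_lit 1219) (nat_lit 90) (.e (nat_lit 81948) (nat_lit 21) .nil)))))) (.g (nat_lit 4) .nil .nil))) 
(.lf (nat_lit 185912) (.g (nat_lit 1929) (.e (nat_lit 57871) (nat_lit 264) (.e (nat_lit 1220) (nat_lit 90) (.e (nat_lit 81959) (nat_lit 24) (.e (nat_lit 123182) (nat_lit 264) (.e (nat_lit 1193) (nat_lit 88) .nil))))) .nil))))) (.nd (nat_lit 3) (.nd (nat_lit 4) (.nd (nat_lit 5) 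
(.lf (nat_lit 185860) (.g (nat_lit 1740) (.e (nat_lit 57871) (nat_lit 264) (.e (nat_lit 1210) (nat_lit 89) (.e (nat_lit 73781) (nat_lit 32) (.e (nat_lit 3087) (nat_lit 191) (.e (nat_lit 483378) (nat_lit 23) (.e (nat_lit 335997) (nat_lit 1) .nil)))))) (.g (nat_lit 0) .nil .nil))) 
(.lf (nat_lit 185892) (.g (nat_lit 3446) (.e (nat_lit 57871) (nat_lit 264) (.e (nat_lit 1220) (nat_lit 90) (.e (nat_lit 81950) (nat_lit 21) (.e (nat_lit 57870) (nat_lit 264) (.e (nat_lit 1200) (nat_lit 88) (.e (nat_lit 65604) (nat_lit 9) (.e (nat_lit 335997) (nat_lit 1) .nil))))))) (.g (nat_lit 0) .nil .nil)))) (.nd (nat_lit 5) 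
(.lf (nat_lit 185876) (.g (nat_lit 2640) (.e (nat_lit 57871) (nat_lit 264) (.e (nat_lit 1219) (nat_lit 90) (.e (nat_lit 81948) (nat_lit 21) (.e (nat_lit 57872) (nat_lit 264) (.e (nat_lit 1219) (nat_lit 90) (.e (nat_lit 81948) (nat_lit 21) .nil)))))) (.g (nat_lit 0) .nil .nil))) 
(.lf (nat_lit 185908) (.g (nat_lit 1730) (.e (nat_lit 57871) (nat_lit 264) (.e (nat_lit 1220) (nat_lit 90) (.e (nat_lit 81956) (nat_lit 23) (.e (nat_lit 98321) (nat_lit 17) .nil)))) .nil)))) (.nd (nat_lit 4) (.nd (nat_lit 5) 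
(.lf (nat_lit 185868) (.g (nat_lit 515) (.e (nat_lit 57871) (nat_lit 264) (.e (nat_lit 1211) (nat_lit 89) (.e (nat_lit 73794) (nat_lit 46) .nil))) .nil)) 
(.lf (nat_lit 185900) (.g (nat_lit 2816) (.e (nat_lit 57871) (nat_lit 264) (.e (nat_lit 1220) (nat_lit 90) (.e (nat_lit 81950) (nat_lit 21) (.e (nat_lit 57872) (nat_lit 264) (.e (nat_lit 1219) (nat_lit 90) (.e (nat_lit 81950) (nat_lit 21) .nil)))))) (.g (nat_lit 5) .nil .nil)))) (.nd (nat_lit 5) 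
(.lf (nat_lit 185884) (.g (nat_lit 452) (.e (nat_lit 57871) (nat_lit 264) (.e (nat_lit 1220) (nat_lit 90) (.e (nat_lit 81931) (nat_lit 20) .nil))) .nil)) 
(.lf (nat_lit 185916) (.g (nat_lit 3046) (.e (nat_lit 57871) (nat_lit 264) (.e (nat_lit 1220) (nat_lit 90) (.e (nat_lit 81959) (nat_lit 24) (.e (nat_lit 123185) (nat_lit 264) (.e (nat_lit 1222) (nat_lit 90) (.e (nat_lit 81948) (nat_lit 21) .nil)))))) (.g (nat_lit 0) .nil .nil))))))) (.nd (nat_lit 2) (.nd (nat_lit 3) (.nd (nat_lit 4) (.nd (nat_lit 5) 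
(.lf (nat_lit 185858) (.g (nat_lit 1831) (.e (nat_lit 57871) (nat_lit 264) (.e (nat_lit 1209) (nat_lit 89) (.e (nat_lit 73795) (nat_lit 47) (.e (nat_lit 123163) (nat_lit 256) (.e (nat_lit 318) (nat_lit 23) (.e (nat_lit 352307) (nat_lit 21) .nil)))))) (.g (nat_lit 0) .nil .nil))) 
(.lf (nat_lit 185890) (.g (nat_lit 3218) (.e (nat_lit 57871) (nat_lit 264) (.e (nat_lit 1220) (nat_lit 90) (.e (nat_lit 81950) (nat_lit 21) (.e (nat_lit 57870) (nat_lit 264) (.e (nat_lit 1189) (nat_lit 88) (.e (nat_lit 65604) (nat_lit 9) (.e (nat_lit 335997) (nat_lit 1) .nil))))))) (.g (nat_lit 0) .nil .nil)))) (.nd (nat_lit 5) 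
(.lf (nat_lit 185874) (.g (nat_lit 3090) (.e (nat_lit 57871) (nat_lit 264) (.e (nat_lit 1219) (nat_lit 90) (.e (nat_lit 81948) (nat_lit 21) (.e (nat_lit 57872) (nat_lit 264) (.e (nat_lit 1190) (nat_lit 88) (.e (nat_lit 65604) (nat_lit 9) (.e (nat_lit 335997) (nat_lit 1) .nil))))))) (.g (nat_lit 0) .nil .nil))) 
(.lf (nat_lit 185906) (.g (nat_lit 2036) (.e (nat_lit 57871) (nat_lit 264) (.e (nat_lit 1220) (nat_lit 90) (.e (nat_lit 81950) (nat_lit 21) (.e (nat_lit 57873) (nat_lit 264) (.e (nat_lit 7936) (nat_lit 90) .nil))))) .nil)))) (.nd (nat_lit 4) (.nd (nat_lit 5) 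
(.lf (nat_lit 185866) (.g (nat_lit 331) (.e (nat_lit 57871) (nat_lit 264) (.e (nat_lit 1211) (nat_lit 89) (.e (nat_lit 81664) (nat_lit 39) .nil))) .nil)) 
(.lf (nat_lit 185898) (.g (nat_lit 3853) (.e (nat_lit 57871) (nat_lit 264) (.e (nat_lit 1220) (nat_lit 90) (.e (nat_lit 81950) (nat_lit 21) (.e (nat_lit 57872) (nat_lit 264) (.e (nat_lit 1200) (nat_lit 88) (.e (nat_lit 65604) (nat_lit 9) (.e (nat_lit 335997) (nat_lit 1) .nil))))))) (.g (nat_lit 0) .nil .nil)))) (.nd (nat_lit 5) 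
(.lf (nat_lit 185882) (.g (nat_lit 3460) (.e (nat_lit 57871) (nat_lit 264) (.e (nat_lit 1219) (nat_lit 90) (.e (nat_lit 81957) (nat_lit 24) (.e (nat_lit 123184) (nat_lit 264) (.e (nat_lit 1222) (nat_lit 90) (.e (nat_lit 81948) (nat_lit 21) .nil)))))) (.g (nat_lit 0) .nil .nil))) 
(.lf (nat_lit 185914) (.g (nat_lit 3565) (.e (nat_lit 57871) (nat_lit 264) (.e (nat_lit 1220) (nat_lit 90) (.e (nat_lit 81959) (nat_lit 24) (.e (nat_lit 123184) (nat_lit 264) (.e (nat_lit 1222) (nat_lit 90) (.e (nat_lit 81948) (nat_lit 21) .nil)))))) (.g (nat_lit 0) .nil .nil)))))) (.nd (nat_lit 3) (.nd (nat_lit 4) (.nd (nat_lit 5) 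
(.lf (nat_lit 185862) (.g (nat_lit 1254) (.e (nat_lit 57871) (nat_lit 264) (.e (nat_lit 1211) (nat_lit 89) (.e (nat_lit 73781) (nat_lit 32) (.e (nat_lit 3089) (nat_lit 191) (.e (nat_lit 483393) (nat_lit 23) .nil))))) .nil)) 
(.lf (nat_lit 185894) (.g (nat_lit 3483) (.e (nat_lit 57871) (nat_lit 264) (.e (nat_lit 1220) (nat_lit 90) (.e (nat_lit 81950) (nat_lit 21) (.e (nat_lit 57870) (nat_lit 264) (.e (nat_lit 1220) (nat_lit 90) (.e (nat_lit 81950) (nat_lit 21) .nil)))))) (.g (nat_lit 0) .nil .nil)))) (.nd (nat_lit 5) 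
(.lf (nat_lit 185878) (.g (nat_lit 2979) (.e (nat_lit 57871) (nat_lit 264) (.e (nat_lit 1219) (nat_lit 90) (.e (nat_lit 81948) (nat_lit 21) (.e (nat_lit 57873) (nat_lit 264) (.e (nat_lit 1200) (nat_lit 88) (.e (nat_lit 65604) (nat_lit 9) (.e (nat_lit 335997) (nat_lit 1) .nil))))))) (.g (nat_lit 0) .nil .nil))) 
(.lf (nat_lit 185910) (.g (nat_lit 336) (.e (nat_lit 57871) (nat_lit 264) (.e (nat_lit 1220) (nat_lit 90) (.e (nat_lit 81959) (nat_lit 24) .nil))) .nil)))) (.nd (nat_lit 4) (.nd (nat_lit 5) 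
(.lf (nat_lit 185870) (.g (nat_lit 1217) (.e (nat_lit 57871) (nat_lit 264) (.e (nat_lit 1219) (nat_lit 90) (.e (nat_lit 81947) (nat_lit 20) (.e (nat_lit 2003) (nat_lit 138) (.e (nat_lit 671764) (nat_lit 6) .nil))))) .nil)) 
(.lf (nat_lit 185902) (.g (nat_lit 2464) (.e (nat_lit 57871) (nat_lit 264) (.e (nat_lit 1220) (nat_lit 90) (.e (nat_lit 81950) (nat_lit 21) (.e (nat_lit 57873) (nat_lit 264) (.e (nat_lit 1189) (nat_lit 88) (.e (nat_lit 65604) (nat_lit 9) (.e (nat_lit 335997) (nat_lit 1) .nil))))))) (.g (nat_lit 4) .nil .nil)))) (.nd (nat_lit 5) 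
(.lf (nat_lit 185886) (.g (nat_lit 960) (.e (nat_lit 57871) (nat_lit 264) (.e (nat_lit 1220) (nat_lit 90) (.e (nat_lit 81938) (nat_lit 20) (.e (nat_lit 1003) (nat_lit 81) .nil)))) .nil)) 
(.lf (nat_lit 185918) (.g (nat_lit 1168) (.e (nat_lit 57871) (nat_lit 264) (.e (nat_lit 1220) (nat_lit 90) (.e (nat_lit 81959) (nat_lit 24) (.e (nat_lit 123194) (nat_lit 266) .nil)))) .nil))))))) (.nd (nat_lit 1) (.nd (nat_lit 2) (.nd (nat_lit 3) (.nd (nat_lit 4) (.nd (nat_lit 5) 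
(.lf (nat_lit 185857) (.g (nat_lit 1865) (.e (nat_lit 57871) (nat_lit 264) (.e (nat_lit 1209) (nat_lit 89) (.e (nat_lit 73794) (nat_lit 46) (.e (nat_lit 57864) (nat_lit 256) (.e (nat_lit 317) (nat_lit 23) (.e (nat_lit 352307) (nat_lit 21) .nil)))))) (.g (nat_lit 0) .nil .nil))) 
(.lf (nat_lit 185889) (.g (nat_lit 1745) (.e (nat_lit 57871) (nat_lit 264) (.e (nat_lit 1220) (nat_lit 90) (.e (nat_lit 81948) (nat_lit 21) (.e (nat_lit 57872) (nat_lit 264) (.e (nat_lit 1221) (nat_lit 90) .nil))))) .nil))) (.nd (nat_lit 5) 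
(.lf (nat_lit 185873) (.g (nat_lit 2678) (.e (nat_lit 57871) (nat_lit 264) (.e (nat_lit 1219) (nat_lit 90) (.e (nat_lit 81948) (nat_lit 21) (.e (nat_lit 57870) (nat_lit 264) (.e (nat_lit 1200) (nat_lit 88) (.e (nat_lit 65604) (nat_lit 9) (.e (nat_lit 335997) (nat_lit 1) .nil))))))) (.g (nat_lit 0) .nil .nil))) 
(.lf (nat_lit 185905) (.g (nat_lit 3735) (.e (nat_lit 57871) (nat_lit 264) (.e (nat_lit 1220) (nat_lit 90) (.e (nat_lit 81950) (nat_lit 21) (.e (nat_lit 57873) (nat_lit 264) (.e (nat_lit 1221) (nat_lit 90) (.e (nat_lit 81950) (nat_lit 21) .nil)))))) (.g (nat_lit 0) .nil .nil))))) (.nd (nat_lit 4) (.nd (nat_lit 5) 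
(.lf (nat_lit 185865) (.g (nat_lit 331) (.e (nat_lit 57871) (nat_lit 264) (.e (nat_lit 1211) (nat_lit 89) (.e (nat_lit 81664) (nat_lit 36) .nil))) .nil)) 
(.lf (nat_lit 185897) (.g (nat_lit 3904) (.e (nat_lit 57871) (nat_lit 264) (.e (nat_lit 1220) (nat_lit 90) (.e (nat_lit 81950) (nat_lit 21) (.e (nat_lit 57872) (nat_lit 264) (.e (nat_lit 1190) (nat_lit 88) (.e (nat_lit 65604) (nat_lit 9) (.e (nat_lit 335997) (nat_lit 1) .nil))))))) (.g (nat_lit 0) .nil .nil)))) (.nd (nat_lit 5) 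
(.lf (nat_lit 185881) (.g (nat_lit 3581) (.e (nat_lit 57871) (nat_lit 264) (.e (nat_lit 1219) (nat_lit 90) (.e (nat_lit 81957) (nat_lit 24) (.e (nat_lit 123182) (nat_lit 264) (.e (nat_lit 1222) (nat_lit 90) (.e (nat_lit 81948) (nat_lit 21) .nil)))))) (.g (nat_lit 0) .nil .nil))) 
(.lf (nat_lit 185913) (.g (nat_lit 1996) (.e (nat_lit 57871) (nat_lit 264) (.e (nat_lit 1220) (nat_lit 90) (.e (nat_lit 81959) (nat_lit 24) (.e (nat_lit 123182) (nat_lit 264) (.e (nat_lit 1224) (nat_lit 90) .nil))))) .nil))))) (.nd (nat_lit 3) (.nd (nat_lit 4) (.nd (nat_lit 5) 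
(.lf (nat_lit 185861) (.g (nat_lit 2058) (.e (nat_lit 57871) (nat_lit 264) (.e (nat_lit 1210) (nat_lit 89) (.e (nat_lit 73781) (nat_lit 32) (.e (nat_lit 3089) (nat_lit 191) (.e (nat_lit 483378) (nat_lit 23) (.e (nat_lit 335997) (nat_lit 1) .nil)))))) (.g (nat_lit 0) .nil .nil))) 
(.lf (nat_lit 185893) (.g (nat_lit 2698) (.e (nat_lit 57871) (nat_lit 264) (.e (nat_lit 1220) (nat_lit 90) (.e (nat_lit 81950) (nat_lit 21) (.e (nat_lit 57870) (nat_lit 264) (.e (nat_lit 1219) (nat_lit 90) (.e (nat_lit 81948) (nat_lit 21) .nil)))))) (.g (nat_lit 0) .nil .nil)))) (.nd (nat_lit 5) 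
(.lf (nat_lit 185877) (.g (nat_lit 1511) (.e (nat_lit 57871) (nat_lit 264) (.e (nat_lit 1219) (nat_lit 90) (.e (nat_lit 81948) (nat_lit 21) (.e (nat_lit 57873) (nat_lit 264) (.e (nat_lit 1189) (nat_lit 88) (.e (nat_lit 65604) (nat_lit 9) (.e (nat_lit 335997) (nat_lit 1) .nil))))))) (.g (nat_lit 4) .nil .nil))) 
(.lf (nat_lit 185909) (.g (nat_lit 2494) (.e (nat_lit 57871) (nat_lit 264) (.e (nat_lit 1220) (nat_lit 90) (.e (nat_lit 81956) (nat_lit 23) (.e (nat_lit 98346) (nat_lit 22) .nil)))) .nil)))) (.nd (nat_lit 4) (.nd (nat_lit 5) 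
(.lf (nat_lit 185869) (.g (nat_lit 356) (.e (nat_lit 57871) (nat_lit 264) (.e (nat_lit 1219) (nat_lit 90) (.e (nat_lit 89856) (nat_lit 0) .nil))) .nil)) 
(.lf (nat_lit 185901) (.g (nat_lit 3746) (.e (nat_lit 57871) (nat_lit 264) (.e (nat_lit 1220) (nat_lit 90) (.e (nat_lit 81950) (nat_lit 21) (.e (nat_lit 57872) (nat_lit 264) (.e (nat_lit 1221) (nat_lit 90) (.e (nat_lit 81950) (nat_lit 21) .nil)))))) (.g (nat_lit 0) .nil .nil)))) (.nd (nat_lit 5) 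
(.lf (nat_lit 185885) (.g (nat_lit 479) (.e (nat_lit 57871) (nat_lit 264) (.e (nat_lit 1220) (nat_lit 90) (.e (nat_lit 81933) (nat_lit 20) .nil))) .nil)) 
(.lf (nat_lit 185917) (.g (nat_lit 1238) (.e (nat_lit 57871) (nat_lit 264) (.e (nat_lit 1220) (nat_lit 90) (.e (nat_lit 81959) (nat_lit 24) (.e (nat_lit 123191) (nat_lit 264) .nil)))) .nil)))))) (.nd (nat_lit 2) (.nd (nat_lit 3) (.nd (nat_lit 4) (.nd (nat_lit 5) 
(.lf (nat_lit 185859) (.g (nat_lit 1883) (.e (nat_lit 57871) (nat_lit 264) (.e (nat_lit 1209) (nat_lit 89) (.e (nat_lit 73795) (nat_lit 47) (.e (nat_lit 123165) (nat_lit 256) (.e (nat_lit 318) (nat_lit 23) (.e (nat_lit 352307) (nat_lit 21) .nil)))))) (.g (nat_lit 0) .nil .nil))) 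
(.lf (nat_lit 185891) (.g (nat_lit 3508) (.e (nat_lit 57871) (nat_lit 264) (.e (nat_lit 1220) (nat_lit 90) (.e (nat_lit 81950) (nat_lit 21) (.e (nat_lit 57870) (nat_lit 264) (.e (nat_lit 1190) (nat_lit 88) (.e (nat_lit 65604) (nat_lit 9) (.e (nat_lit 335997) (nat_lit 1) .nil))))))) (.g (nat_lit 0) .nil .nil)))) (.nd (nat_lit 5) 
(.lf (nat_lit 185875) (.g (nat_lit 3038) (.e (nat_lit 57871) (nat_lit 264) (.e (nat_lit 1219) (nat_lit 90) (.e (nat_lit 81948) (nat_lit 21) (.e (nat_lit 57872) (nat_lit 264) (.e (nat_lit 1200) (nat_lit 88) (.e (nat_lit 65604) (nat_lit 9) (.e (nat_lit 335997) (nat_lit 1) .nil))))))) (.g (nat_lit 0) .nil .nil))) 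
(.lf (nat_lit 185907) (.g (nat_lit 2966) (.e (nat_lit 57871) (nat_lit 264) (.e (nat_lit 1220) (nat_lit 90) (.e (nat_lit 81956) (nat_lit 23) (.e (nat_lit 98320) (nat_lit 17) .nil)))) .nil)))) (.nd (nat_lit 4) (.nd (nat_lit 5) 
(.lf (nat_lit 185867) (.g (nat_lit 1141) (.e (nat_lit 57871) (nat_lit 264) (.e (nat_lit 1211) (nat_lit 89) (.e (nat_lit 73786) (nat_lit 45) (.e (nat_lit 1374) (nat_lit 104) (.e (nat_lit 303155) (nat_lit 29) .nil))))) .nil)) 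
(.lf (nat_lit 185899) (.g (nat_lit 3377) (.e (nat_lit 57871) (nat_lit 264) (.e (nat_lit 1220) (nat_lit 90) (.e (nat_lit 81950) (nat_lit 21) (.e (nat_lit 57872) (nat_lit 264) (.e (nat_lit 1219) (nat_lit 90) (.e (nat_lit 81948) (nat_lit 21) .nil)))))) (.g (nat_lit 0) .nil .nil)))) (.nd (nat_lit 5) 
(.lf (nat_lit 185883) (.g (nat_lit 993) (.e (nat_lit 57871) (nat_lit 264) (.e (nat_lit 1219) (nat_lit 90) (.e (nat_lit 81957) (nat_lit 24) (.e (nat_lit 123185) (nat_lit 264) .nil)))) .nil)) 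
(.lf (nat_lit 185915) (.g (nat_lit 1119) (.e (nat_lit 57871) (nat_lit 264) (.e (nat_lit 1220) (nat_lit 90) (.e (nat_lit 81959) (nat_lit 24) (.e (nat_lit 123185) (nat_lit 264) .nil)))) .nil))))) (.nd (nat_lit 3) (.nd (nat_lit 4) (.nd (nat_lit 5) 
(.lf (nat_lit 185863) (.g (nat_lit 1386) (.e (nat_lit 57871) (nat_lit 264) (.e (nat_lit 1211) (nat_lit 89) (.e (nat_lit 73782) (nat_lit 32) (.e (nat_lit 2857) (nat_lit 184) (.e (nat_lit 426542) (nat_lit 29) .nil))))) .nil)) 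
(.lf (nat_lit 185895) (.g (nat_lit 3229) (.e (nat_lit 57871) (nat_lit 264) (.e (nat_lit 1220) (nat_lit 90) (.e (nat_lit 81950) (nat_lit 21) (.e (nat_lit 57870) (nat_lit 264) (.e (nat_lit 1221) (nat_lit 90) (.e (nat_lit 81950) (nat_lit 21) .nil)))))) (.g (nat_lit 0) .nil .nil)))) (.nd (nat_lit 5) 
(.lf (nat_lit 185879) (.g (nat_lit 2454) (.e (nat_lit 57871) (nat_lit 264) (.e (nat_lit 1219) (nat_lit 90) (.e (nat_lit 81948) (nat_lit 21) (.e (nat_lit 57873) (nat_lit 264) (.e (nat_lit 1219) (nat_lit 90) (.e (nat_lit 81948) (nat_lit 21) .nil)))))) (.g (nat_lit 0) .nil .nil))) 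
(.lf (nat_lit 185911) (.g (nat_lit 1065) (.e (nat_lit 57871) (nat_lit 264) (.e (nat_lit 1220) (nat_lit 90) (.e (nat_lit 81959) (nat_lit 24) (.e (nat_lit 123182) (nat_lit 264) .nil)))) .nil)))) (.nd (nat_lit 4) (.nd (nat_lit 5) 
(.lf (nat_lit 185871) (.g (nat_lit 2439) (.e (nat_lit 57871) (nat_lit 264) (.e (nat_lit 1219) (nat_lit 90) (.e (nat_lit 81948) (nat_lit 21) (.e (nat_lit 57870) (nat_lit 264) (.e (nat_lit 1189) (nat_lit 88) (.e (nat_lit 65604) (nat_lit 9) (.e (nat_lit 335997) (nat_lit 1) .nil))))))) (.g (nat_lit 0) .nil .nil))) 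
(.lf (nat_lit 185903) (.g (nat_lit 3902) (.e (nat_lit 57871) (nat_lit 264) (.e (nat_lit 1220) (nat_lit 90) (.e (nat_lit 81950) (nat_lit 21) (.e (nat_lit 57873) (nat_lit 264) (.e (nat_lit 1200) (nat_lit 88) (.e (nat_lit 65604) (nat_lit 9) (.e (nat_lit 335997) (nat_lit 1) .nil))))))) (.g (nat_lit 0) .nil .nil)))) (.nd (nat_lit 5) 
(.lf (nat_lit 185887) (.g (nat_lit 1223) (.e (nat_lit 57871) (nat_lit 264) (.e (nat_lit 1220) (nat_lit 90) (.e (nat_lit 81947) (nat_lit 20) (.e (nat_lit 2006) (nat_lit 138) .nil)))) .nil)) 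
(.lf (nat_lit 185919) (.g (nat_lit 543) (.e (nat_lit 57871) (nat_lit 264) (.e (nat_lit 1221) (nat_lit 90) (.e (nat_lit 81920) (nat_lit 0) .nil))) .nil))))))))

noncomputable def tv2472 : DT := (.nd (nat_lit 0) (.nd (nat_lit 1) (.nd (nat_lit 2) (.nd (nat_lit 3) (.nd (nat_lit 4) (.nd (nat_lit 5) 
(.lf (nat_lit 185920) (.g (nat_lit 473) (.e (nat_lit 57871) (nat_lit 264) (.e (nat_lit 1221) (nat_lit 90) (.e (nat_lit 89856) (nat_lit 4) .nil))) .nil)) 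
(.lf (nat_lit 185952) (.g (nat_lit 2251) (.e (nat_lit 57871) (nat_lit 264) (.e (nat_lit 1221) (nat_lit 90) (.e (nat_lit 81959) (nat_lit 24) (.e (nat_lit 123185) (nat_lit 264) (.e (nat_lit 1223) (nat_lit 90) .nil))))) .nil))) (.nd (nat_lit 5) 
(.lf (nat_lit 185936) (.g (nat_lit 3326) (.e (nat_lit 57871) (nat_lit 264) (.e (nat_lit 1221) (nat_lit 90) (.e (nat_lit 81956) (nat_lit 23) (.e (nat_lit 98320) (nat_lit 17) .nil)))) .nil)) 
(.lf (nat_lit 185968) (.g (nat_lit 2486) (.e (nat_lit 57872) (nat_lit 264) (.e (nat_lit 1172) (nat_lit 87) (.e (nat_lit 57477) (nat_lit 28) (.e (nat_lit 557107) (nat_lit 15) (.e (nat_lit 188450) (nat_lit 23) (.e (nat_lit 204855) (nat_lit 26) (.e (nat_lit 335985) (nat_lit 1) .nil))))))) (.g (nat_lit 6) .nil .nil))))) (.nd (nat_lit 4) (.nd (nat_lit 5) 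
(.lf (nat_lit 185928) (.g (nat_lit 979) (.e (nat_lit 57871) (nat_lit 264) (.e (nat_lit 1221) (nat_lit 90) (.e (nat_lit 81948) (nat_lit 21) (.e (nat_lit 57870) (nat_lit 264) .nil)))) .nil)) 
(.lf (nat_lit 185960) (.g (nat_lit 1580) (.e (nat_lit 57871) (nat_lit 264) (.e (nat_lit 1221) (nat_lit 90) (.e (nat_lit 81959) (nat_lit 24) (.e (nat_lit 123199) (nat_lit 267) .nil)))) .nil))) (.nd (nat_lit 5) 
(.lf (nat_lit 185944) (.g (nat_lit 3037) (.e (nat_lit 57871) (nat_lit 264) (.e (nat_lit 1221) (nat_lit 90) (.e (nat_lit 81959) (nat_lit 24) (.e (nat_lit 123182) (nat_lit 264) (.e (nat_lit 1016) (nat_lit 81) .nil))))) .nil)) 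
(.lf (nat_lit 185976) (.g (nat_lit 2392) (.e (nat_lit 57872) (nat_lit 264) (.e (nat_lit 1181) (nat_lit 87) (.e (nat_lit 57480) (nat_lit 28) (.e (nat_lit 557107) (nat_lit 15) (.e (nat_lit 188447) (nat_lit 22) .nil))))) .nil))))) (.nd (nat_lit 3) (.nd (nat_lit 4) (.nd (nat_lit 5) 
(.lf (nat_lit 185924) (.g (nat_lit 471) (.e (nat_lit 57871) (nat_lit 264) (.e (nat_lit 1221) (nat_lit 90) (.e (nat_lit 81947) (nat_lit 20) .nil))) .nil)) 
(.lf (nat_lit 185956) (.g (nat_lit 2840) (.e (nat_lit 57871) (nat_lit 264) (.e (nat_lit 1221) (nat_lit 90) (.e (nat_lit 81959) (nat_lit 24) (.e (nat_lit 123195) (nat_lit 266) (.e (nat_lit 57413) (nat_lit 12) .nil))))) .nil))) (.nd (nat_lit 5) 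
(.lf (nat_lit 185940) (.g (nat_lit 2141) (.e (nat_lit 57871) (nat_lit 264) (.e (nat_lit 1221) (nat_lit 90) (.e (nat_lit 81957) (nat_lit 24) (.e (nat_lit 123184) (nat_lit 264) (.e (nat_lit 1222) (nat_lit 90) .nil))))) .nil)) 
(.lf (nat_lit 185972) (.g (nat_lit 897) (.e (nat_lit 57872) (nat_lit 264) (.e (nat_lit 1181) (nat_lit 87) (.e (nat_lit 57469) (nat_lit 26) (.e (nat_lit 540701) (nat_lit 11) .nil)))) .nil)))) (.nd (nat_lit 4) (.nd (nat_lit 5) 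
(.lf (nat_lit 185932) (.g (nat_lit 1163) (.e (nat_lit 57871) (nat_lit 264) (.e (nat_lit 1221) (nat_lit 90) (.e (nat_lit 81948) (nat_lit 21) (.e (nat_lit 57873) (nat_lit 264) .nil)))) .nil)) 
(.lf (nat_lit 185964) (.g (nat_lit 2866) (.e (nat_lit 57872) (nat_lit 264) (.e (nat_lit 1170) (nat_lit 87) (.e (nat_lit 57480) (nat_lit 28) (.e (nat_lit 557107) (nat_lit 15) (.e (nat_lit 188450) (nat_lit 23) (.e (nat_lit 204852) (nat_lit 26) (.e (nat_lit 343808) (nat_lit 1) .nil))))))) (.g (nat_lit 6) .nil .nil)))) (.nd (nat_lit 5) 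
(.lf (nat_lit 185948) (.g (nat_lit 2893) (.e (nat_lit 57871) (nat_lit 264) (.e (nat_lit 1221) (nat_lit 90) (.e (nat_lit 81959) (nat_lit 24) (.e (nat_lit 123182) (nat_lit 264) (.e (nat_lit 7936) (nat_lit 90) .nil))))) .nil)) 
(.lf (nat_lit 185980) (.g (nat_lit 2829) (.e (nat_lit 57872) (nat_lit 264) (.e (nat_lit 1181) (nat_lit 87) (.e (nat_lit 57480) (nat_lit 28) (.e (nat_lit 557109) (nat_lit 15) (.e (nat_lit 188450) (nat_lit 23) .nil))))) .nil)))))) (.nd (nat_lit 2) (.nd (nat_lit 3) (.nd (nat_lit 4) (.nd (nat_lit 5) 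
(.lf (nat_lit 185922) (.g (nat_lit 1426) (.e (nat_lit 57871) (nat_lit 264) (.e (nat_lit 1221) (nat_lit 90) (.e (nat_lit 81938) (nat_lit 20) (.e (nat_lit 2005) (nat_lit 138) .nil)))) .nil)) 
(.lf (nat_lit 185954) (.g (nat_lit 1714) (.e (nat_lit 57871) (nat_lit 264) (.e (nat_lit 1221) (nat_lit 90) (.e (nat_lit 81959) (nat_lit 24) (.e (nat_lit 123195) (nat_lit 266) .nil)))) .nil))) (.nd (nat_lit 5) 
(.lf (nat_lit 185938) (.g (nat_lit 2252) (.e (nat_lit 57871) (nat_lit 264) (.e (nat_lit 1221) (nat_lit 90) (.e (nat_lit 81957) (nat_lit 24) (.e (nat_lit 123182) (nat_lit 264) (.e (nat_lit 1222) (nat_lit 90) .nil))))) .nil)) 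
(.lf (nat_lit 185970) (.g (nat_lit 3843) (.e (nat_lit 57872) (nat_lit 264) (.e (nat_lit 1172) (nat_lit 87) (.e (nat_lit 57478) (nat_lit 28) (.e (nat_lit 557109) (nat_lit 15) (.e (nat_lit 188452) (nat_lit 23) (.e (nat_lit 204852) (nat_lit 26) (.e (nat_lit 343808) (nat_lit 1) .nil))))))) (.g (nat_lit 6) .nil .nil))))) (.nd (nat_lit 4) (.nd (nat_lit 5) 
(.lf (nat_lit 185930) (.g (nat_lit 933) (.e (nat_lit 57871) (nat_lit 264) (.e (nat_lit 1221) (nat_lit 90) (.e (nat_lit 81948) (nat_lit 21) (.e (nat_lit 57872) (nat_lit 264) .nil)))) .nil)) 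
(.lf (nat_lit 185962) (.g (nat_lit 2313) (.e (nat_lit 57872) (nat_lit 264) (.e (nat_lit 1170) (nat_lit 87) (.e (nat_lit 57477) (nat_lit 28) (.e (nat_lit 557107) (nat_lit 15) (.e (nat_lit 188450) (nat_lit 23) (.e (nat_lit 204852) (nat_lit 26) (.e (nat_lit 343808) (nat_lit 1) .nil))))))) (.g (nat_lit 6) .nil .nil)))) (.nd (nat_lit 5) 
(.lf (nat_lit 185946) (.g (nat_lit 2770) (.e (nat_lit 57871) (nat_lit 264) (.e (nat_lit 1221) (nat_lit 90) (.e (nat_lit 81959) (nat_lit 24) (.e (nat_lit 123182) (nat_lit 264) (.e (nat_lit 1218) (nat_lit 90) .nil))))) .nil)) 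
(.lf (nat_lit 185978) (.g (nat_lit 2463) (.e (nat_lit 57872) (nat_lit 264) (.e (nat_lit 1181) (nat_lit 87) (.e (nat_lit 57480) (nat_lit 28) (.e (nat_lit 557108) (nat_lit 15) (.e (nat_lit 188452) (nat_lit 23) .nil))))) .nil))))) (.nd (nat_lit 3) (.nd (nat_lit 4) (.nd (nat_lit 5) 
(.lf (nat_lit 185926) (.g (nat_lit 1231) (.e (nat_lit 57871) (nat_lit 264) (.e (nat_lit 1221) (nat_lit 90) (.e (nat_lit 81947) (nat_lit 20) (.e (nat_lit 2005) (nat_lit 138) .nil)))) .nil)) 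
(.lf (nat_lit 185958) (.g (nat_lit 1536) (.e (nat_lit 57871) (nat_lit 264) (.e (nat_lit 1221) (nat_lit 90) (.e (nat_lit 81959) (nat_lit 24) (.e (nat_lit 123196) (nat_lit 266) .nil)))) .nil))) (.nd (nat_lit 5) 
(.lf (nat_lit 185942) (.g (nat_lit 1641) (.e (nat_lit 57871) (nat_lit 264) (.e (nat_lit 1221) (nat_lit 90) (.e (nat_lit 81959) (nat_lit 24) (.e (nat_lit 123181) (nat_lit 264) .nil)))) .nil)) 
(.lf (nat_lit 185974) (.g (nat_lit 2114) (.e (nat_lit 57872) (nat_lit 264) (.e (nat_lit 1181) (nat_lit 87) (.e (nat_lit 57479) (nat_lit 28) (.e (nat_lit 557100) (nat_lit 13) (.e (nat_lit 172106) (nat_lit 10) .nil))))) .nil)))) (.nd (nat_lit 4) (.nd (nat_lit 5) 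
(.lf (nat_lit 185934) (.g (nat_lit 1498) (.e (nat_lit 57871) (nat_lit 264) (.e (nat_lit 1221) (nat_lit 90) (.e (nat_lit 81950) (nat_lit 21) (.e (nat_lit 57873) (nat_lit 264) .nil)))) .nil)) 
(.lf (nat_lit 185966) (.g (nat_lit 2457) (.e (nat_lit 57872) (nat_lit 264) (.e (nat_lit 1172) (nat_lit 87) (.e (nat_lit 57476) (nat_lit 28) (.e (nat_lit 557107) (nat_lit 15) (.e (nat_lit 188450) (nat_lit 23) (.e (nat_lit 204852) (nat_lit 26) (.e (nat_lit 343808) (nat_lit 1) .nil))))))) (.g (nat_lit 6) .nil .nil)))) (.nd (nat_lit 5) 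
(.lf (nat_lit 185950) (.g (nat_lit 1931) (.e (nat_lit 57871) (nat_lit 264) (.e (nat_lit 1221) (nat_lit 90) (.e (nat_lit 81959) (nat_lit 24) (.e (nat_lit 123184) (nat_lit 264) .nil)))) .nil)) 
(.lf (nat_lit 185982) (.g (nat_lit 5033) (.e (nat_lit 57872) (nat_lit 264) (.e (nat_lit 1181) (nat_lit 87) (.e (nat_lit 57480) (nat_lit 28) (.e (nat_lit 557109) (nat_lit 15) (.e (nat_lit 188452) (nat_lit 23) (.e (nat_lit 204857) (nat_lit 26) (.e (nat_lit 335997) (nat_lit 1) .nil))))))) (.g (nat_lit 5) .nil .nil)))))))) 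
(.nd (nat_lit 1) (.nd (nat_lit 2) (.nd (nat_lit 3) (.nd (nat_lit 4) (.nd (nat_lit 5) 
(.lf (nat_lit 185921) (.g (nat_lit 1439) (.e (nat_lit 57871) (nat_lit 264) (.e (nat_lit 1221) (nat_lit 90) (.e (nat_lit 81938) (nat_lit 20) (.e (nat_lit 2003) (nat_lit 138) .nil)))) .nil)) 
(.lf (nat_lit 185953) (.g (nat_lit 1633) (.e (nat_lit 57871) (nat_lit 264) (.e (nat_lit 1221) (nat_lit 90) (.e (nat_lit 81959) (nat_lit 24) (.e (nat_lit 123191) (nat_lit 264) .nil)))) .nil))) (.nd (nat_lit 5) 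
(.lf (nat_lit 185937) (.g (nat_lit 2871) (.e (nat_lit 57871) (nat_lit 264) (.e (nat_lit 1221) (nat_lit 90) (.e (nat_lit 81956) (nat_lit 23) (.e (nat_lit 98346) (nat_lit 22) .nil)))) .nil)) 
(.lf (nat_lit 185969) (.g (nat_lit 2856) (.e (nat_lit 57872) (nat_lit 264) (.e (nat_lit 1172) (nat_lit 87) (.e (nat_lit 57478) (nat_lit 28) (.e (nat_lit 557107) (nat_lit 15) (.e (nat_lit 188450) (nat_lit 23) (.e (nat_lit 204852) (nat_lit 26) (.e (nat_lit 343808) (nat_lit 1) .nil))))))) (.g (nat_lit 6) .nil .nil))))) (.nd (nat_lit 4) (.nd (nat_lit 5) 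
(.lf (nat_lit 185929) (.g (nat_lit 970) (.e (nat_lit 57871) (nat_lit 264) (.e (nat_lit 1221) (nat_lit 90) (.e (nat_lit 81948) (nat_lit 21) (.e (nat_lit 57871) (nat_lit 264) .nil)))) .nil)) 
(.lf (nat_lit 185961) (.g (nat_lit 1944) (.e (nat_lit 57871) (nat_lit 264) (.e (nat_lit 1221) (nat_lit 90) (.e (nat_lit 81959) (nat_lit 24) (.e (nat_lit 123228) (nat_lit 282) .nil)))) .nil))) (.nd (nat_lit 5) 
(.lf (nat_lit 185945) (.g (nat_lit 2427) (.e (nat_lit 57871) (nat_lit 264) (.e (nat_lit 1221) (nat_lit 90) (.e (nat_lit 81959) (nat_lit 24) (.e (nat_lit 123182) (nat_lit 264) (.e (nat_lit 1214) (nat_lit 89) .nil))))) .nil)) 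
(.lf (nat_lit 185977) (.g (nat_lit 2358) (.e (nat_lit 57872) (nat_lit 264) (.e (nat_lit 1181) (nat_lit 87) (.e (nat_lit 57480) (nat_lit 28) (.e (nat_lit 557107) (nat_lit 15) (.e (nat_lit 188450) (nat_lit 23) .nil))))) .nil))))) (.nd (nat_lit 3) (.nd (nat_lit 4) (.nd (nat_lit 5) 
(.lf (nat_lit 185925) (.g (nat_lit 1366) (.e (nat_lit 57871) (nat_lit 264) (.e (nat_lit 1221) (nat_lit 90) (.e (nat_lit 81947) (nat_lit 20) (.e (nat_lit 2003) (nat_lit 138) .nil)))) .nil)) 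
(.lf (nat_lit 185957) (.g (nat_lit 2433) (.e (nat_lit 57871) (nat_lit 264) (.e (nat_lit 1221) (nat_lit 90) (.e (nat_lit 81959) (nat_lit 24) (.e (nat_lit 123195) (nat_lit 266) (.e (nat_lit 57425) (nat_lit 14) .nil))))) .nil))) (.nd (nat_lit 5) 
(.lf (nat_lit 185941) (.g (nat_lit 463) (.e (nat_lit 57871) (nat_lit 264) (.e (nat_lit 1221) (nat_lit 90) (.e (nat_lit 81959) (nat_lit 24) .nil))) .nil)) 
(.lf (nat_lit 185973) (.g (nat_lit 2602) (.e (nat_lit 57872) (nat_lit 264) (.e (nat_lit 1181) (nat_lit 87) (.e (nat_lit 57479) (nat_lit 28) (.e (nat_lit 557095) (nat_lit 13) (.e (nat_lit 172115) (nat_lit 10) .nil))))) .nil)))) (.nd (nat_lit 4) (.nd (nat_lit 5) 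
(.lf (nat_lit 185933) (.g (nat_lit 1852) (.e (nat_lit 57871) (nat_lit 264) (.e (nat_lit 1221) (nat_lit 90) (.e (nat_lit 81948) (nat_lit 21) (.e (nat_lit 57873) (nat_lit 264) (.e (nat_lit 1190) (nat_lit 88) .nil))))) .nil)) 
(.lf (nat_lit 185965) (.g (nat_lit 3699) (.e (nat_lit 57872) (nat_lit 264) (.e (nat_lit 1170) (nat_lit 87) (.e (nat_lit 57480) (nat_lit 28) (.e (nat_lit 557109) (nat_lit 15) (.e (nat_lit 188452) (nat_lit 23) (.e (nat_lit 204852) (nat_lit 26) (.e (nat_lit 343808) (nat_lit 1) .nil))))))) (.g (nat_lit 6) .nil .nil)))) (.nd (nat_lit 5) 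
(.lf (nat_lit 185949) (.g (nat_lit 1894) (.e (nat_lit 57871) (nat_lit 264) (.e (nat_lit 1221) (nat_lit 90) (.e (nat_lit 81959) (nat_lit 24) (.e (nat_lit 123183) (nat_lit 264) .nil)))) .nil)) 
(.lf (nat_lit 185981) (.g (nat_lit 4495) (.e (nat_lit 57872) (nat_lit 264) (.e (nat_lit 1181) (nat_lit 87) (.e (nat_lit 57480) (nat_lit 28) (.e (nat_lit 557109) (nat_lit 15) (.e (nat_lit 188452) (nat_lit 23) (.e (nat_lit 204852) (nat_lit 26) (.e (nat_lit 343808) (nat_lit 1) .nil))))))) (.g (nat_lit 6) .nil .nil))))))) (.nd (nat_lit 2) (.nd (nat_lit 3) (.nd (nat_lit 4) (.nd (nat_lit 5) 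
(.lf (nat_lit 185923) (.g (nat_lit 1430) (.e (nat_lit 57871) (nat_lit 264) (.e (nat_lit 1221) (nat_lit 90) (.e (nat_lit 81938) (nat_lit 20) (.e (nat_lit 2006) (nat_lit 138) .nil)))) .nil)) 
(.lf (nat_lit 185955) (.g (nat_lit 4137) (.e (nat_lit 57871) (nat_lit 264) (.e (nat_lit 1221) (nat_lit 90) (.e (nat_lit 81959) (nat_lit 24) (.e (nat_lit 123195) (nat_lit 266) (.e (nat_lit 57400) (nat_lit 10) (.e (nat_lit 319490) (nat_lit 0) (.e (nat_lit 5270) (nat_lit 298) (.e (nat_lit 1183) (nat_lit 87) .nil)))))))) (.g (nat_lit 6) .nil .nil)))) (.nd (nat_lit 5) 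
(.lf (nat_lit 185939) (.g (nat_lit 1789) (.e (nat_lit 57871) (nat_lit 264) (.e (nat_lit 1221) (nat_lit 90) (.e (nat_lit 81957) (nat_lit 24) (.e (nat_lit 123183) (nat_lit 264) (.e (nat_lit 1222) (nat_lit 90) .nil))))) .nil)) 
(.lf (nat_lit 185971) (.g (nat_lit 491) (.e (nat_lit 57872) (nat_lit 264) (.e (nat_lit 1181) (nat_lit 87) (.e (nat_lit 57469) (nat_lit 26) .nil))) .nil)))) (.nd (nat_lit 4) (.nd (nat_lit 5) 
(.lf (nat_lit 185931) (.g (nat_lit 1603) (.e (nat_lit 57871) (nat_lit 264) (.e (nat_lit 1221) (nat_lit 90) (.e (nat_lit 81948) (nat_lit 21) (.e (nat_lit 57872) (nat_lit 264) (.e (nat_lit 1190) (nat_lit 88) .nil))))) .nil)) 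
(.lf (nat_lit 185963) (.g (nat_lit 3037) (.e (nat_lit 57872) (nat_lit 264) (.e (nat_lit 1170) (nat_lit 87) (.e (nat_lit 57477) (nat_lit 28) (.e (nat_lit 557108) (nat_lit 15) (.e (nat_lit 188452) (nat_lit 23) (.e (nat_lit 204852) (nat_lit 26) (.e (nat_lit 343808) (nat_lit 1) .nil))))))) (.g (nat_lit 6) .nil .nil)))) (.nd (nat_lit 5) 
(.lf (nat_lit 185947) (.g (nat_lit 2492) (.e (nat_lit 57871) (nat_lit 264) (.e (nat_lit 1221) (nat_lit 90) (.e (nat_lit 81959) (nat_lit 24) (.e (nat_lit 123182) (nat_lit 264) (.e (nat_lit 1222) (nat_lit 90) .nil))))) .nil)) 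
(.lf (nat_lit 185979) (.g (nat_lit 2872) (.e (nat_lit 57872) (nat_lit 264) (.e (nat_lit 1181) (nat_lit 87) (.e (nat_lit 57480) (nat_lit 28) (.e (nat_lit 557109) (nat_lit 15) (.e (nat_lit 188447) (nat_lit 22) .nil))))) .nil))))) (.nd (nat_lit 3) (.nd (nat_lit 4) (.nd (nat_lit 5) 
(.lf (nat_lit 185927) (.g (nat_lit 1813) (.e (nat_lit 57871) (nat_lit 264) (.e (nat_lit 1221) (nat_lit 90) (.e (nat_lit 81947) (nat_lit 20) (.e (nat_lit 2006) (nat_lit 138) (.e (nat_lit 671762) (nat_lit 4) .nil))))) .nil)) 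
(.lf (nat_lit 185959) (.g (nat_lit 1735) (.e (nat_lit 57871) (nat_lit 264) (.e (nat_lit 1221) (nat_lit 90) (.e (nat_lit 81959) (nat_lit 24) (.e (nat_lit 123198) (nat_lit 266) .nil)))) .nil))) (.nd (nat_lit 5) 
(.lf (nat_lit 185943) (.g (nat_lit 1795) (.e (nat_lit 57871) (nat_lit 264) (.e (nat_lit 1221) (nat_lit 90) (.e (nat_lit 81959) (nat_lit 24) (.e (nat_lit 123182) (nat_lit 264) .nil)))) .nil)) 
(.lf (nat_lit 185975) (.g (nat_lit 3417) (.e (nat_lit 57872) (nat_lit 264) (.e (nat_lit 1181) (nat_lit 87) (.e (nat_lit 57479) (nat_lit 28) (.e (nat_lit 557109) (nat_lit 15) (.e (nat_lit 188452) (nat_lit 23) .nil))))) .nil)))) (.nd (nat_lit 4) (.nd (nat_lit 5) 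
(.lf (nat_lit 185935) (.g (nat_lit 2345) (.e (nat_lit 57871) (nat_lit 264) (.e (nat_lit 1221) (nat_lit 90) (.e (nat_lit 81950) (nat_lit 21) (.e (nat_lit 57873) (nat_lit 264) (.e (nat_lit 1189) (nat_lit 88) .nil))))) .nil)) 
(.lf (nat_lit 185967) (.g (nat_lit 3259) (.e (nat_lit 57872) (nat_lit 264) (.e (nat_lit 1172) (nat_lit 87) (.e (nat_lit 57476) (nat_lit 28) (.e (nat_lit 557108) (nat_lit 15) (.e (nat_lit 188452) (nat_lit 23) (.e (nat_lit 204852) (nat_lit 26) (.e (nat_lit 343808) (nat_lit 1) .nil))))))) (.g (nat_lit 6) .nil .nil)))) (.nd (nat_lit 5) 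
(.lf (nat_lit 185951) (.g (nat_lit 1673) (.e (nat_lit 57871) (nat_lit 264) (.e (nat_lit 1221) (nat_lit 90) (.e (nat_lit 81959) (nat_lit 24) (.e (nat_lit 123185) (nat_lit 264) .nil)))) .nil)) 
(.lf (nat_lit 185983) (.g (nat_lit 898) (.e (nat_lit 57872) (nat_lit 264) (.e (nat_lit 1181) (nat_lit 87) (.e (nat_lit 57749) (nat_lit 201) (.e (nat_lit 317) (nat_lit 23) .nil)))) .nil))))))))

noncomputable def tv2473 : DT := (.nd (nat_lit 0) (.nd (nat_lit 1) (.nd (nat_lit 2) (.nd (nat_lit 3) (.nd (nat_lit 4) (.nd (nat_lit 5) (.nd (nat_lit 6) 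
(.lf (nat_lit 185984) (.g (nat_lit 446) (.e (nat_lit 57872) (nat_lit 264) (.e (nat_lit 1181) (nat_lit 87) (.e (nat_lit 65280) (nat_lit 203) .nil))) .nil)) 
(.lf (nat_lit 186048) (.g (nat_lit 2019) (.e (nat_lit 57872) (nat_lit 264) (.e (nat_lit 1190) (nat_lit 88) (.e (nat_lit 65628) (nat_lit 14) (.e (nat_lit 401437) (nat_lit 9) (.e (nat_lit 426530) (nat_lit 27) .nil))))) .nil))) (.nd (nat_lit 6) 
(.lf (nat_lit 186016) (.g (nat_lit 488) (.e (nat_lit 57872) (nat_lit 264) (.e (nat_lit 1190) (nat_lit 88) (.e (nat_lit 65585) (nat_lit 7) .nil))) .nil)) 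
(.lf (nat_lit 186080) (.g (nat_lit 1940) (.e (nat_lit 57872) (nat_lit 264) (.e (nat_lit 1190) (nat_lit 88) (.e (nat_lit 65630) (nat_lit 14) (.e (nat_lit 401458) (nat_lit 13) (.e (nat_lit 491264) (nat_lit 23) .nil))))) .nil)))) (.nd (nat_lit 5) (.nd (nat_lit 6) 
(.lf (nat_lit 186000) (.g (nat_lit 2864) (.e (nat_lit 57872) (nat_lit 264) (.e (nat_lit 1187) (nat_lit 88) (.e (nat_lit 65630) (nat_lit 14) (.e (nat_lit 401459) (nat_lit 13) (.e (nat_lit 483387) (nat_lit 23) .nil))))) .nil)) 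
(.lf (nat_lit 186064) (.g (nat_lit 2397) (.e (nat_lit 57872) (nat_lit 264) (.e (nat_lit 1190) (nat_lit 88) (.e (nat_lit 65629) (nat_lit 14) (.e (nat_lit 401459) (nat_lit 13) (.e (nat_lit 483344) (nat_lit 17) .nil))))) .nil))) (.nd (nat_lit 6) 
(.lf (nat_lit 186032) (.g (nat_lit 2217) (.e (nat_lit 57872) (nat_lit 264) (.e (nat_lit 1190) (nat_lit 88) (.e (nat_lit 65622) (nat_lit 12) (.e (nat_lit 385093) (nat_lit 49) (.e (nat_lit 778253) (nat_lit 0) .nil))))) .nil)) 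
(.lf (nat_lit 186096) (.g (nat_lit 2261) (.e (nat_lit 57872) (nat_lit 264) (.e (nat_lit 1199) (nat_lit 88) (.e (nat_lit 65610) (nat_lit 10) (.e (nat_lit 344097) (nat_lit 18) (.e (nat_lit 5907) (nat_lit 320) (.e (nat_lit 7936) (nat_lit 90) (.e (nat_lit 81950) (nat_lit 21) .nil))))))) (.g (nat_lit 5) .nil .nil)))))) (.nd (nat_lit 4) (.nd (nat_lit 5) (.nd (nat_lit 6) 
(.lf (nat_lit 185992) (.g (nat_lit 4708) (.e (nat_lit 57872) (nat_lit 264) (.e (nat_lit 1182) (nat_lit 87) (.e (nat_lit 57479) (nat_lit 28) (.e (nat_lit 557101) (nat_lit 13) (.e (nat_lit 172115) (nat_lit 10) (.e (nat_lit 434231) (nat_lit 23) (.e (nat_lit 532535) (nat_lit 9) (.e (nat_lit 335985) (nat_lit 1) .nil)))))))) (.g (nat_lit 7) .nil .nil))) 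
(.lf (nat_lit 186056) (.g (nat_lit 2635) (.e (nat_lit 57872) (nat_lit 264) (.e (nat_lit 1190) (nat_lit 88) (.e (nat_lit 65628) (nat_lit 14) (.e (nat_lit 401459) (nat_lit 13) (.e (nat_lit 483354) (nat_lit 17) (.e (nat_lit 6493) (nat_lit 343) (.e (nat_lit 1178) (nat_lit 87) .nil))))))) (.g (nat_lit 4) .nil .nil)))) (.nd (nat_lit 6) 
(.lf (nat_lit 186024) (.g (nat_lit 3321) (.e (nat_lit 57872) (nat_lit 264) (.e (nat_lit 1190) (nat_lit 88) (.e (nat_lit 65619) (nat_lit 10) (.e (nat_lit 344117) (nat_lit 21) (.e (nat_lit 516099) (nat_lit 0) .nil))))) .nil)) 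
(.lf (nat_lit 186088) (.g (nat_lit 3370) (.e (nat_lit 57872) (nat_lit 264) (.e (nat_lit 1190) (nat_lit 88) (.e (nat_lit 65630) (nat_lit 14) (.e (nat_lit 401459) (nat_lit 13) (.e (nat_lit 483389) (nat_lit 23) .nil))))) .nil)))) (.nd (nat_lit 5) (.nd (nat_lit 6) 
(.lf (nat_lit 186008) (.g (nat_lit 1568) (.e (nat_lit 57872) (nat_lit 264) (.e (nat_lit 1188) (nat_lit 88) (.e (nat_lit 65630) (nat_lit 14) (.e (nat_lit 401458) (nat_lit 13) (.e (nat_lit 483389) (nat_lit 23) .nil))))) .nil)) 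
(.lf (nat_lit 186072) (.g (nat_lit 1848) (.e (nat_lit 57872) (nat_lit 264) (.e (nat_lit 1190) (nat_lit 88) (.e (nat_lit 65630) (nat_lit 14) (.e (nat_lit 401436) (nat_lit 9) (.e (nat_lit 426556) (nat_lit 32) .nil))))) .nil))) (.nd (nat_lit 6) 
(.lf (nat_lit 186040) (.g (nat_lit 2537) (.e (nat_lit 57872) (nat_lit 264) (.e (nat_lit 1190) (nat_lit 88) (.e (nat_lit 65624) (nat_lit 12) (.e (nat_lit 385094) (nat_lit 49) (.e (nat_lit 778253) (nat_lit 0) .nil))))) .nil)) 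
(.lf (nat_lit 186104) (.g (nat_lit 1547) (.e (nat_lit 57872) (nat_lit 264) (.e (nat_lit 1199) (nat_lit 88) (.e (nat_lit 65610) (nat_lit 10) (.e (nat_lit 344169) (nat_lit 40) (.e (nat_lit 671760) (nat_lit 4) .nil))))) .nil)))))) (.nd (nat_lit 3) (.nd (nat_lit 4) (.nd (nat_lit 5) (.nd (nat_lit 6) 
(.lf (nat_lit 185988) (.g (nat_lit 2773) (.e (nat_lit 57872) (nat_lit 264) (.e (nat_lit 1182) (nat_lit 87) (.e (nat_lit 57479) (nat_lit 28) (.e (nat_lit 557095) (nat_lit 13) (.e (nat_lit 172115) (nat_lit 10) .nil))))) .nil)) 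
(.lf (nat_lit 186052) (.g (nat_lit 2022) (.e (nat_lit 57872) (nat_lit 264) (.e (nat_lit 1190) (nat_lit 88) (.e (nat_lit 65628) (nat_lit 14) (.e (nat_lit 401458) (nat_lit 13) (.e (nat_lit 483350) (nat_lit 17) .nil))))) .nil))) (.nd (nat_lit 6) 
(.lf (nat_lit 186020) (.g (nat_lit 2532) (.e (nat_lit 57872) (nat_lit 264) (.e (nat_lit 1190) (nat_lit 88) (.e (nat_lit 65619) (nat_lit 10) (.e (nat_lit 344097) (nat_lit 18) (.e (nat_lit 5906) (nat_lit 320) (.e (nat_lit 7936) (nat_lit 90) (.e (nat_lit 81950) (nat_lit 21) .nil))))))) (.g (nat_lit 5) .nil .nil))) 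
(.lf (nat_lit 186084) (.g (nat_lit 3157) (.e (nat_lit 57872) (nat_lit 264) (.e (nat_lit 1190) (nat_lit 88) (.e (nat_lit 65630) (nat_lit 14) (.e (nat_lit 401459) (nat_lit 13) (.e (nat_lit 483347) (nat_lit 17) (.e (nat_lit 7936) (nat_lit 343) (.e (nat_lit 1181) (nat_lit 87) .nil))))))) (.g (nat_lit 4) .nil .nil))))) (.nd (nat_lit 5) (.nd (nat_lit 6) 
(.lf (nat_lit 186004) (.g (nat_lit 2042) (.e (nat_lit 57872) (nat_lit 264) (.e (nat_lit 1188) (nat_lit 88) (.e (nat_lit 65624) (nat_lit 12) (.e (nat_lit 385093) (nat_lit 49) (.e (nat_lit 778327) (nat_lit 6) .nil))))) .nil)) 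
(.lf (nat_lit 186068) (.g (nat_lit 2677) (.e (nat_lit 57872) (nat_lit 264) (.e (nat_lit 1190) (nat_lit 88) (.e (nat_lit 65629) (nat_lit 14) (.e (nat_lit 401459) (nat_lit 13) (.e (nat_lit 483378) (nat_lit 23) .nil))))) .nil))) (.nd (nat_lit 6) 
(.lf (nat_lit 186036) (.g (nat_lit 1875) (.e (nat_lit 57872) (nat_lit 264) (.e (nat_lit 1190) (nat_lit 88) (.e (nat_lit 65624) (nat_lit 12) (.e (nat_lit 385092) (nat_lit 49) (.e (nat_lit 778327) (nat_lit 6) .nil))))) .nil)) 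
(.lf (nat_lit 186100) (.g (nat_lit 3025) (.e (nat_lit 57872) (nat_lit 264) (.e (nat_lit 1199) (nat_lit 88) (.e (nat_lit 65610) (nat_lit 10) (.e (nat_lit 344129) (nat_lit 26) (.e (nat_lit 557084) (nat_lit 10) (.e (nat_lit 8361) (nat_lit 89) (.e (nat_lit 720956) (nat_lit 25) (.e (nat_lit 114711) (nat_lit 21) .nil)))))))) (.g (nat_lit 5) .nil .nil)))))) 
(.nd (nat_lit 4) (.nd (nat_lit 5) (.nd (nat_lit 6) 
(.lf (nat_lit 185996) (.g (nat_lit 2051) (.e (nat_lit 57872) (nat_lit 264) (.e (nat_lit 1182) (nat_lit 87) (.e (nat_lit 57480) (nat_lit 28) (.e (nat_lit 557108) (nat_lit 15) (.e (nat_lit 188452) (nat_lit 23) .nil))))) .nil)) 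
(.lf (nat_lit 186060) (.g (nat_lit 2842) (.e (nat_lit 57872) (nat_lit 264) (.e (nat_lit 1190) (nat_lit 88) (.e (nat_lit 65628) (nat_lit 14) (.e (nat_lit 401459) (nat_lit 13) (.e (nat_lit 483389) (nat_lit 23) (.e (nat_lit 335991) (nat_lit 1) .nil)))))) (.g (nat_lit 4) .nil .nil)))) (.nd (nat_lit 6) 
(.lf (nat_lit 186028) (.g (nat_lit 1707) (.e (nat_lit 57872) (nat_lit 264) (.e (nat_lit 1190) (nat_lit 88) (.e (nat_lit 65619) (nat_lit 10) (.e (nat_lit 344168) (nat_lit 40) (.e (nat_lit 671761) (nat_lit 4) .nil))))) .nil)) 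
(.lf (nat_lit 186092) (.g (nat_lit 1180) (.e (nat_lit 57872) (nat_lit 264) (.e (nat_lit 1196) (nat_lit 88) (.e (nat_lit 65624) (nat_lit 12) (.e (nat_lit 385104) (nat_lit 50) .nil)))) .nil)))) (.nd (nat_lit 5) (.nd (nat_lit 6) 
(.lf (nat_lit 186012) (.g (nat_lit 2573) (.e (nat_lit 57872) (nat_lit 264) (.e (nat_lit 1188) (nat_lit 88) (.e (nat_lit 65630) (nat_lit 14) (.e (nat_lit 401459) (nat_lit 13) (.e (nat_lit 483354) (nat_lit 17) (.e (nat_lit 6493) (nat_lit 343) (.e (nat_lit 1178) (nat_lit 87) .nil))))))) (.g (nat_lit 4) .nil .nil))) 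
(.lf (nat_lit 186076) (.g (nat_lit 2572) (.e (nat_lit 57872) (nat_lit 264) (.e (nat_lit 1190) (nat_lit 88) (.e (nat_lit 65630) (nat_lit 14) (.e (nat_lit 401437) (nat_lit 9) (.e (nat_lit 426556) (nat_lit 32) .nil))))) .nil))) (.nd (nat_lit 6) 
(.lf (nat_lit 186044) (.g (nat_lit 2610) (.e (nat_lit 57872) (nat_lit 264) (.e (nat_lit 1190) (nat_lit 88) (.e (nat_lit 65628) (nat_lit 14) (.e (nat_lit 401437) (nat_lit 9) (.e (nat_lit 426487) (nat_lit 27) .nil))))) .nil)) 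
(.lf (nat_lit 186108) (.g (nat_lit 1612) (.e (nat_lit 57872) (nat_lit 264) (.e (nat_lit 1199) (nat_lit 88) (.e (nat_lit 65617) (nat_lit 10) (.e (nat_lit 344169) (nat_lit 40) (.e (nat_lit 671764) (nat_lit 6) .nil))))) .nil))))))) (.nd (nat_lit 2) (.nd (nat_lit 3) (.nd (nat_lit 4) (.nd (nat_lit 5) (.nd (nat_lit 6) 
(.lf (nat_lit 185986) (.g (nat_lit 2700) (.e (nat_lit 57872) (nat_lit 264) (.e (nat_lit 1182) (nat_lit 87) (.e (nat_lit 57478) (nat_lit 28) (.e (nat_lit 557108) (nat_lit 15) (.e (nat_lit 188452) (nat_lit 23) (.e (nat_lit 204817) (nat_lit 17) (.e (nat_lit 7936) (nat_lit 343) (.e (nat_lit 1181) (nat_lit 87) .nil)))))))) (.g (nat_lit 5) .nil .nil))) 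
(.lf (nat_lit 186050) (.g (nat_lit 1051) (.e (nat_lit 57872) (nat_lit 264) (.e (nat_lit 1190) (nat_lit 88) (.e (nat_lit 65628) (nat_lit 14) (.e (nat_lit 401457) (nat_lit 13) .nil)))) .nil))) (.nd (nat_lit 6) 
(.lf (nat_lit 186018) (.g (nat_lit 2698) (.e (nat_lit 57872) (nat_lit 264) (.e (nat_lit 1190) (nat_lit 88) (.e (nat_lit 65619) (nat_lit 10) (.e (nat_lit 344090) (nat_lit 18) (.e (nat_lit 5896) (nat_lit 320) (.e (nat_lit 7936) (nat_lit 90) (.e (nat_lit 81950) (nat_lit 21) .nil))))))) (.g (nat_lit 5) .nil .nil))) 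
(.lf (nat_lit 186082) (.g (nat_lit 2687) (.e (nat_lit 57872) (nat_lit 264) (.e (nat_lit 1190) (nat_lit 88) (.e (nat_lit 65630) (nat_lit 14) (.e (nat_lit 401459) (nat_lit 13) (.e (nat_lit 483344) (nat_lit 17) .nil))))) .nil)))) (.nd (nat_lit 5) (.nd (nat_lit 6) 
(.lf (nat_lit 186002) (.g (nat_lit 1321) (.e (nat_lit 57872) (nat_lit 264) (.e (nat_lit 1188) (nat_lit 88) (.e (nat_lit 65622) (nat_lit 12) (.e (nat_lit 385105) (nat_lit 50) (.e (nat_lit 786480) (nat_lit 29) .nil))))) .nil)) 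
(.lf (nat_lit 186066) (.g (nat_lit 3107) (.e (nat_lit 57872) (nat_lit 264) (.e (nat_lit 1190) (nat_lit 88) (.e (nat_lit 65629) (nat_lit 14) (.e (nat_lit 401459) (nat_lit 13) (.e (nat_lit 483347) (nat_lit 17) (.e (nat_lit 7936) (nat_lit 343) (.e (nat_lit 1183) (nat_lit 87) .nil))))))) (.g (nat_lit 4) .nil .nil)))) (.nd (nat_lit 6) 
(.lf (nat_lit 186034) (.g (nat_lit 1742) (.e (nat_lit 57872) (nat_lit 264) (.e (nat_lit 1190) (nat_lit 88) (.e (nat_lit 65623) (nat_lit 12) (.e (nat_lit 385105) (nat_lit 50) (.e (nat_lit 786478) (nat_lit 29) .nil))))) .nil)) 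
(.lf (nat_lit 186098) (.g (nat_lit 2500) (.e (nat_lit 57872) (nat_lit 264) (.e (nat_lit 1199) (nat_lit 88) (.e (nat_lit 65610) (nat_lit 10) (.e (nat_lit 344117) (nat_lit 21) (.e (nat_lit 516135) (nat_lit 5) .nil))))) .nil))))) (.nd (nat_lit 4) (.nd (nat_lit 5) (.nd (nat_lit 6) 
(.lf (nat_lit 185994) (.g (nat_lit 4002) (.e (nat_lit 57872) (nat_lit 264) (.e (nat_lit 1182) (nat_lit 87) (.e (nat_lit 57480) (nat_lit 28) (.e (nat_lit 557098) (nat_lit 13) (.e (nat_lit 172097) (nat_lit 9) (.e (nat_lit 426140) (nat_lit 3) (.e (nat_lit 204855) (nat_lit 26) (.e (nat_lit 335985) (nat_lit 1) .nil)))))))) (.g (nat_lit 7) .nil .nil))) 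
(.lf (nat_lit 186058) (.g (nat_lit 2485) (.e (nat_lit 57872) (nat_lit 264) (.e (nat_lit 1190) (nat_lit 88) (.e (nat_lit 65628) (nat_lit 14) (.e (nat_lit 401459) (nat_lit 13) (.e (nat_lit 483364) (nat_lit 18) .nil))))) .nil))) (.nd (nat_lit 6) 
(.lf (nat_lit 186026) (.g (nat_lit 1057) (.e (nat_lit 57872) (nat_lit 264) (.e (nat_lit 1190) (nat_lit 88) (.e (nat_lit 65619) (nat_lit 10) (.e (nat_lit 344168) (nat_lit 40) .nil)))) .nil)) 
(.lf (nat_lit 186090) (.g (nat_lit 1774) (.e (nat_lit 57872) (nat_lit 264) (.e (nat_lit 1190) (nat_lit 88) (.e (nat_lit 65655) (nat_lit 35) (.e (nat_lit 491549) (nat_lit 9) (.e (nat_lit 336018) (nat_lit 3) .nil))))) .nil)))) (.nd (nat_lit 5) (.nd (nat_lit 6) 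
(.lf (nat_lit 186010) (.g (nat_lit 2145) (.e (nat_lit 57872) (nat_lit 264) (.e (nat_lit 1188) (nat_lit 88) (.e (nat_lit 65630) (nat_lit 14) (.e (nat_lit 401459) (nat_lit 13) (.e (nat_lit 483343) (nat_lit 17) .nil))))) .nil)) 
(.lf (nat_lit 186074) (.g (nat_lit 2712) (.e (nat_lit 57872) (nat_lit 264) (.e (nat_lit 1190) (nat_lit 88) (.e (nat_lit 65630) (nat_lit 14) (.e (nat_lit 401437) (nat_lit 9) (.e (nat_lit 426489) (nat_lit 27) .nil))))) .nil))) (.nd (nat_lit 6) 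
(.lf (nat_lit 186042) (.g (nat_lit 2015) (.e (nat_lit 57872) (nat_lit 264) (.e (nat_lit 1190) (nat_lit 88) (.e (nat_lit 65628) (nat_lit 14) (.e (nat_lit 401435) (nat_lit 9) (.e (nat_lit 426555) (nat_lit 32) .nil))))) .nil)) 
(.lf (nat_lit 186106) (.g (nat_lit 1211) (.e (nat_lit 57872) (nat_lit 264) (.e (nat_lit 1199) (nat_lit 88) (.e (nat_lit 65617) (nat_lit 10) (.e (nat_lit 344168) (nat_lit 40) .nil)))) .nil)))))) (.nd (nat_lit 3) (.nd (nat_lit 4) (.nd (nat_lit 5) (.nd (nat_lit 6) 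
(.lf (nat_lit 185990) (.g (nat_lit 4211) (.e (nat_lit 57872) (nat_lit 264) (.e (nat_lit 1182) (nat_lit 87) (.e (nat_lit 57479) (nat_lit 28) (.e (nat_lit 557100) (nat_lit 13) (.e (nat_lit 172106) (nat_lit 10) (.e (nat_lit 434231) (nat_lit 23) (.e (nat_lit 532535) (nat_lit 9) (.e (nat_lit 335985) (nat_lit 1) .nil)))))))) (.g (nat_lit 7) .nil .nil))) 
(.lf (nat_lit 186054) (.g (nat_lit 2187) (.e (nat_lit 57872) (nat_lit 264) (.e (nat_lit 1190) (nat_lit 88) (.e (nat_lit 65628) (nat_lit 14) (.e (nat_lit 401459) (nat_lit 13) (.e (nat_lit 483343) (nat_lit 17) .nil))))) .nil))) (.nd (nat_lit 6) 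
(.lf (nat_lit 186022) (.g (nat_lit 2708) (.e (nat_lit 57872) (nat_lit 264) (.e (nat_lit 1190) (nat_lit 88) (.e (nat_lit 65619) (nat_lit 10) (.e (nat_lit 344097) (nat_lit 18) (.e (nat_lit 5907) (nat_lit 320) (.e (nat_lit 7936) (nat_lit 90) (.e (nat_lit 81950) (nat_lit 21) .nil))))))) (.g (nat_lit 5) .nil .nil))) 
(.lf (nat_lit 186086) (.g (nat_lit 3392) (.e (nat_lit 57872) (nat_lit 264) (.e (nat_lit 1190) (nat_lit 88) (.e (nat_lit 65630) (nat_lit 14) (.e (nat_lit 401459) (nat_lit 13) (.e (nat_lit 483383) (nat_lit 23) .nil))))) .nil)))) (.nd (nat_lit 5) (.nd (nat_lit 6) 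
(.lf (nat_lit 186006) (.g (nat_lit 2649) (.e (nat_lit 57872) (nat_lit 264) (.e (nat_lit 1188) (nat_lit 88) (.e (nat_lit 65629) (nat_lit 14) (.e (nat_lit 401459) (nat_lit 13) (.e (nat_lit 483347) (nat_lit 17) .nil))))) .nil)) 
(.lf (nat_lit 186070) (.g (nat_lit 2747) (.e (nat_lit 57872) (nat_lit 264) (.e (nat_lit 1190) (nat_lit 88) (.e (nat_lit 65629) (nat_lit 14) (.e (nat_lit 401459) (nat_lit 13) (.e (nat_lit 491264) (nat_lit 23) .nil))))) .nil))) (.nd (nat_lit 6) 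
(.lf (nat_lit 186038) (.g (nat_lit 2942) (.e (nat_lit 57872) (nat_lit 264) (.e (nat_lit 1190) (nat_lit 88) (.e (nat_lit 65624) (nat_lit 12) (.e (nat_lit 385093) (nat_lit 49) (.e (nat_lit 778290) (nat_lit 0) .nil))))) .nil)) 
(.lf (nat_lit 186102) (.g (nat_lit 1490) (.e (nat_lit 57872) (nat_lit 264) (.e (nat_lit 1199) (nat_lit 88) (.e (nat_lit 65610) (nat_lit 10) (.e (nat_lit 344169) (nat_lit 40) (.e (nat_lit 671744) (nat_lit 0) .nil))))) .nil))))) (.nd (nat_lit 4) (.nd (nat_lit 5) (.nd (nat_lit 6) 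
(.lf (nat_lit 185998) (.g (nat_lit 2422) (.e (nat_lit 57872) (nat_lit 264) (.e (nat_lit 1187) (nat_lit 88) (.e (nat_lit 65630) (nat_lit 14) (.e (nat_lit 401459) (nat_lit 13) (.e (nat_lit 483343) (nat_lit 17) .nil))))) .nil)) 
(.lf (nat_lit 186062) (.g (nat_lit 2649) (.e (nat_lit 57872) (nat_lit 264) (.e (nat_lit 1190) (nat_lit 88) (.e (nat_lit 65629) (nat_lit 14) (.e (nat_lit 401459) (nat_lit 13) (.e (nat_lit 483343) (nat_lit 17) .nil))))) .nil))) (.nd (nat_lit 6) 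
(.lf (nat_lit 186030) (.g (nat_lit 1777) (.e (nat_lit 57872) (nat_lit 264) (.e (nat_lit 1190) (nat_lit 88) (.e (nat_lit 65619) (nat_lit 10) (.e (nat_lit 344169) (nat_lit 40) (.e (nat_lit 671751) (nat_lit 0) .nil))))) .nil)) 
(.lf (nat_lit 186094) (.g (nat_lit 1131) (.e (nat_lit 57872) (nat_lit 264) (.e (nat_lit 1199) (nat_lit 88) (.e (nat_lit 65610) (nat_lit 10) (.e (nat_lit 344090) (nat_lit 18) .nil)))) .nil)))) (.nd (nat_lit 5) (.nd (nat_lit 6) 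
(.lf (nat_lit 186014) (.g (nat_lit 2853) (.e (nat_lit 57872) (nat_lit 264) (.e (nat_lit 1188) (nat_lit 88) (.e (nat_lit 65630) (nat_lit 14) (.e (nat_lit 401459) (nat_lit 13) (.e (nat_lit 483380) (nat_lit 23) (.e (nat_lit 343808) (nat_lit 1) .nil)))))) (.g (nat_lit 5) .nil .nil))) 
(.lf (nat_lit 186078) (.g (nat_lit 1852) (.e (nat_lit 57872) (nat_lit 264) (.e (nat_lit 1190) (nat_lit 88) (.e (nat_lit 65630) (nat_lit 14) (.e (nat_lit 401458) (nat_lit 13) (.e (nat_lit 483389) (nat_lit 23) .nil))))) .nil))) (.nd (nat_lit 6) 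
(.lf (nat_lit 186046) (.g (nat_lit 2610) (.e (nat_lit 57872) (nat_lit 264) (.e (nat_lit 1190) (nat_lit 88) (.e (nat_lit 65628) (nat_lit 14) (.e (nat_lit 401437) (nat_lit 9) (.e (nat_lit 426491) (nat_lit 27) .nil))))) .nil)) 
(.lf (nat_lit 186110) (.g (nat_lit 2195) (.e (nat_lit 57872) (nat_lit 264) (.e (nat_lit 1199) (nat_lit 88) (.e (nat_lit 65622) (nat_lit 12) (.e (nat_lit 385093) (nat_lit 49) (.e (nat_lit 778253) (nat_lit 0) .nil))))) .nil)))))))) (.nd (nat_lit 1) (.nd (nat_lit 2) (.nd (nat_lit 3) (.nd (nat_lit 4) (.nd (nat_lit 5) (.nd (nat_lit 6) 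
(.lf (nat_lit 185985) (.g (nat_lit 2961) (.e (nat_lit 57872) (nat_lit 264) (.e (nat_lit 1182) (nat_lit 87) (.e (nat_lit 57478) (nat_lit 28) (.e (nat_lit 557107) (nat_lit 15) (.e (nat_lit 188450) (nat_lit 23) (.e (nat_lit 204852) (nat_lit 26) (.e (nat_lit 343808) (nat_lit 1) .nil))))))) (.g (nat_lit 6) .nil .nil))) 
(.lf (nat_lit 186049) (.g (nat_lit 1908) (.e (nat_lit 57872) (nat_lit 264) (.e (nat_lit 1190) (nat_lit 88) (.e (nat_lit 65628) (nat_lit 14) (.e (nat_lit 401438) (nat_lit 9) (.e (nat_lit 426538) (nat_lit 29) .nil))))) .nil))) (.nd (nat_lit 6) 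
(.lf (nat_lit 186017) (.g (nat_lit 528) (.e (nat_lit 57872) (nat_lit 264) (.e (nat_lit 1190) (nat_lit 88) (.e (nat_lit 65595) (nat_lit 9) .nil))) .nil)) 
(.lf (nat_lit 186081) (.g (nat_lit 2921) (.e (nat_lit 57872) (nat_lit 264) (.e (nat_lit 1190) (nat_lit 88) (.e (nat_lit 65630) (nat_lit 14) (.e (nat_lit 401459) (nat_lit 13) (.e (nat_lit 483343) (nat_lit 17) .nil))))) .nil)))) (.nd (nat_lit 5) (.nd (nat_lit 6) 
(.lf (nat_lit 186001) (.g (nat_lit 2401) (.e (nat_lit 57872) (nat_lit 264) (.e (nat_lit 1187) (nat_lit 88) (.e (nat_lit 65630) (nat_lit 14) (.e (nat_lit 401459) (nat_lit 13) (.e (nat_lit 491264) (nat_lit 23) .nil))))) .nil)) 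
(.lf (nat_lit 186065) (.g (nat_lit 2862) (.e (nat_lit 57872) (nat_lit 264) (.e (nat_lit 1190) (nat_lit 88) (.e (nat_lit 65629) (nat_lit 14) (.e (nat_lit 401459) (nat_lit 13) (.e (nat_lit 483344) (nat_lit 17) (.e (nat_lit 6436) (nat_lit 343) (.e (nat_lit 1183) (nat_lit 87) .nil))))))) (.g (nat_lit 4) .nil .nil)))) (.nd (nat_lit 6) 
(.lf (nat_lit 186033) (.g (nat_lit 1718) (.e (nat_lit 57872) (nat_lit 264) (.e (nat_lit 1190) (nat_lit 88) (.e (nat_lit 65623) (nat_lit 12) (.e (nat_lit 385093) (nat_lit 49) (.e (nat_lit 778326) (nat_lit 6) .nil))))) .nil)) 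
(.lf (nat_lit 186097) (.g (nat_lit 2090) (.e (nat_lit 57872) (nat_lit 264) (.e (nat_lit 1199) (nat_lit 88) (.e (nat_lit 65610) (nat_lit 10) (.e (nat_lit 344117) (nat_lit 21) (.e (nat_lit 516099) (nat_lit 0) .nil))))) .nil))))) (.nd (nat_lit 4) (.nd (nat_lit 5) (.nd (nat_lit 6) 
(.lf (nat_lit 185993) (.g (nat_lit 4422) (.e (nat_lit 57872) (nat_lit 264) (.e (nat_lit 1182) (nat_lit 87) (.e (nat_lit 57480) (nat_lit 28) (.e (nat_lit 557098) (nat_lit 13) (.e (nat_lit 172097) (nat_lit 9) (.e (nat_lit 426125) (nat_lit 2) (.e (nat_lit 196666) (nat_lit 13) (.e (nat_lit 65563) (nat_lit 1) .nil)))))))) (.g (nat_lit 7) .nil .nil))) 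
(.lf (nat_lit 186057) (.g (nat_lit 2510) (.e (nat_lit 57872) (nat_lit 264) (.e (nat_lit 1190) (nat_lit 88) (.e (nat_lit 65628) (nat_lit 14) (.e (nat_lit 401459) (nat_lit 13) (.e (nat_lit 483354) (nat_lit 17) (.e (nat_lit 6493) (nat_lit 343) (.e (nat_lit 1179) (nat_lit 87) .nil))))))) (.g (nat_lit 4) .nil .nil)))) (.nd (nat_lit 6) 
(.lf (nat_lit 186025) (.g (nat_lit 2090) (.e (nat_lit 57872) (nat_lit 264) (.e (nat_lit 1190) (nat_lit 88) (.e (nat_lit 65619) (nat_lit 10) (.e (nat_lit 344117) (nat_lit 21) (.e (nat_lit 516135) (nat_lit 5) .nil))))) .nil)) 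
(.lf (nat_lit 186089) (.g (nat_lit 453) (.e (nat_lit 57872) (nat_lit 264) (.e (nat_lit 1190) (nat_lit 88) (.e (nat_lit 65655) (nat_lit 35) .nil))) .nil)))) (.nd (nat_lit 5) (.nd (nat_lit 6) 
(.lf (nat_lit 186009) (.g (nat_lit 1631) (.e (nat_lit 57872) (nat_lit 264) (.e (nat_lit 1188) (nat_lit 88) (.e (nat_lit 65630) (nat_lit 14) (.e (nat_lit 401458) (nat_lit 13) (.e (nat_lit 491264) (nat_lit 23) .nil))))) .nil)) 
(.lf (nat_lit 186073) (.g (nat_lit 2883) (.e (nat_lit 57872) (nat_lit 264) (.e (nat_lit 1190) (nat_lit 88) (.e (nat_lit 65630) (nat_lit 14) (.e (nat_lit 401437) (nat_lit 9) (.e (nat_lit 426487) (nat_lit 27) .nil))))) .nil))) (.nd (nat_lit 6) 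
(.lf (nat_lit 186041) (.g (nat_lit 2123) (.e (nat_lit 57872) (nat_lit 264) (.e (nat_lit 1190) (nat_lit 88) (.e (nat_lit 65624) (nat_lit 12) (.e (nat_lit 385094) (nat_lit 49) (.e (nat_lit 778327) (nat_lit 6) .nil))))) .nil)) 
(.lf (nat_lit 186105) (.g (nat_lit 1846) (.e (nat_lit 57872) (nat_lit 264) (.e (nat_lit 1199) (nat_lit 88) (.e (nat_lit 65617) (nat_lit 10) (.e (nat_lit 344091) (nat_lit 18) (.e (nat_lit 5896) (nat_lit 320) .nil))))) .nil)))))) (.nd (nat_lit 3) (.nd (nat_lit 4) (.nd (nat_lit 5) (.nd (nat_lit 6) 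
(.lf (nat_lit 185989) (.g (nat_lit 1847) (.e (nat_lit 57872) (nat_lit 264) (.e (nat_lit 1182) (nat_lit 87) (.e (nat_lit 57479) (nat_lit 28) (.e (nat_lit 557100) (nat_lit 13) (.e (nat_lit 172106) (nat_lit 10) .nil))))) .nil)) 
(.lf (nat_lit 186053) (.g (nat_lit 1951) (.e (nat_lit 57872) (nat_lit 264) (.e (nat_lit 1190) (nat_lit 88) (.e (nat_lit 65628) (nat_lit 14) (.e (nat_lit 401458) (nat_lit 13) (.e (nat_lit 483389) (nat_lit 23) (.e (nat_lit 335991) (nat_lit 1) .nil)))))) (.g (nat_lit 4) .nil .nil)))) (.nd (nat_lit 6) 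
(.lf (nat_lit 186021) (.g (nat_lit 1827) (.e (nat_lit 57872) (nat_lit 264) (.e (nat_lit 1190) (nat_lit 88) (.e (nat_lit 65619) (nat_lit 10) (.e (nat_lit 344097) (nat_lit 18) (.e (nat_lit 5907) (nat_lit 320) .nil))))) .nil)) 
(.lf (nat_lit 186085) (.g (nat_lit 4133) (.e (nat_lit 57872) (nat_lit 264) (.e (nat_lit 1190) (nat_lit 88) (.e (nat_lit 65630) (nat_lit 14) (.e (nat_lit 401459) (nat_lit 13) (.e (nat_lit 483350) (nat_lit 17) (.e (nat_lit 6490) (nat_lit 343) (.e (nat_lit 1179) (nat_lit 87) .nil))))))) (.g (nat_lit 5) .nil .nil))))) (.nd (nat_lit 5) (.nd (nat_lit 6) 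
(.lf (nat_lit 186005) (.g (nat_lit 1909) (.e (nat_lit 57872) (nat_lit 264) (.e (nat_lit 1188) (nat_lit 88) (.e (nat_lit 65624) (nat_lit 12) (.e (nat_lit 385105) (nat_lit 50) (.e (nat_lit 786479) (nat_lit 29) .nil))))) .nil)) 
(.lf (nat_lit 186069) (.g (nat_lit 3677) (.e (nat_lit 57872) (nat_lit 264) (.e (nat_lit 1190) (nat_lit 88) (.e (nat_lit 65629) (nat_lit 14) (.e (nat_lit 401459) (nat_lit 13) (.e (nat_lit 483392) (nat_lit 23) .nil))))) .nil))) (.nd (nat_lit 6) 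
(.lf (nat_lit 186037) (.g (nat_lit 3133) (.e (nat_lit 57872) (nat_lit 264) (.e (nat_lit 1190) (nat_lit 88) (.e (nat_lit 65624) (nat_lit 12) (.e (nat_lit 385093) (nat_lit 49) (.e (nat_lit 778253) (nat_lit 0) (.e (nat_lit 1557) (nat_lit 110) (.e (nat_lit 352309) (nat_lit 21) .nil))))))) (.g (nat_lit 4) .nil .nil))) 
(.lf (nat_lit 186101) (.g (nat_lit 1405) (.e (nat_lit 57872) (nat_lit 264) (.e (nat_lit 1199) (nat_lit 88) (.e (nat_lit 65610) (nat_lit 10) (.e (nat_lit 344168) (nat_lit 40) (.e (nat_lit 671761) (nat_lit 4) .nil))))) .nil))))) (.nd (nat_lit 4) (.nd (nat_lit 5) (.nd (nat_lit 6) 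
(.lf (nat_lit 185997) (.g (nat_lit 933) (.e (nat_lit 57872) (nat_lit 264) (.e (nat_lit 1187) (nat_lit 88) (.e (nat_lit 65630) (nat_lit 14) (.e (nat_lit 401457) (nat_lit 13) .nil)))) .nil)) 
(.lf (nat_lit 186061) (.g (nat_lit 2559) (.e (nat_lit 57872) (nat_lit 264) (.e (nat_lit 1190) (nat_lit 88) (.e (nat_lit 65628) (nat_lit 14) (.e (nat_lit 401459) (nat_lit 13) (.e (nat_lit 483391) (nat_lit 23) .nil))))) .nil))) (.nd (nat_lit 6) 
(.lf (nat_lit 186029) (.g (nat_lit 1742) (.e (nat_lit 57872) (nat_lit 264) (.e (nat_lit 1190) (nat_lit 88) (.e (nat_lit 65619) (nat_lit 10) (.e (nat_lit 344169) (nat_lit 40) (.e (nat_lit 671747) (nat_lit 0) .nil))))) .nil)) 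
(.lf (nat_lit 186093) (.g (nat_lit 1283) (.e (nat_lit 57872) (nat_lit 264) (.e (nat_lit 1199) (nat_lit 88) (.e (nat_lit 65583) (nat_lit 7) (.e (nat_lit 319539) (nat_lit 19) (.e (nat_lit 311358) (nat_lit 29) .nil))))) .nil)))) (.nd (nat_lit 5) (.nd (nat_lit 6) 
(.lf (nat_lit 186013) (.g (nat_lit 2480) (.e (nat_lit 57872) (nat_lit 264) (.e (nat_lit 1188) (nat_lit 88) (.e (nat_lit 65630) (nat_lit 14) (.e (nat_lit 401459) (nat_lit 13) (.e (nat_lit 483354) (nat_lit 17) (.e (nat_lit 6493) (nat_lit 343) (.e (nat_lit 1179) (nat_lit 87) .nil))))))) (.g (nat_lit 4) .nil .nil))) 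
(.lf (nat_lit 186077) (.g (nat_lit 2091) (.e (nat_lit 57872) (nat_lit 264) (.e (nat_lit 1190) (nat_lit 88) (.e (nat_lit 65630) (nat_lit 14) (.e (nat_lit 401456) (nat_lit 13) (.e (nat_lit 483378) (nat_lit 23) .nil))))) .nil))) (.nd (nat_lit 6) 
(.lf (nat_lit 186045) (.g (nat_lit 2479) (.e (nat_lit 57872) (nat_lit 264) (.e (nat_lit 1190) (nat_lit 88) (.e (nat_lit 65628) (nat_lit 14) (.e (nat_lit 401437) (nat_lit 9) (.e (nat_lit 426489) (nat_lit 27) .nil))))) .nil)) 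
(.lf (nat_lit 186109) (.g (nat_lit 1380) (.e (nat_lit 57872) (nat_lit 264) (.e (nat_lit 1199) (nat_lit 88) (.e (nat_lit 65622) (nat_lit 12) (.e (nat_lit 385092) (nat_lit 49) (.e (nat_lit 778326) (nat_lit 6) .nil))))) .nil))))))) (.nd (nat_lit 2) (.nd (nat_lit 3) (.nd (nat_lit 4) (.nd (nat_lit 5) (.nd (nat_lit 6) 
(.lf (nat_lit 185987) (.g (nat_lit 3943) (.e (nat_lit 57872) (nat_lit 264) (.e (nat_lit 1182) (nat_lit 87) (.e (nat_lit 57478) (nat_lit 28) (.e (nat_lit 557109) (nat_lit 15) (.e (nat_lit 188452) (nat_lit 23) (.e (nat_lit 204852) (nat_lit 26) (.e (nat_lit 343808) (nat_lit 1) .nil))))))) (.g (nat_lit 6) .nil .nil))) 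
(.lf (nat_lit 186051) (.g (nat_lit 2168) (.e (nat_lit 57872) (nat_lit 264) (.e (nat_lit 1190) (nat_lit 88) (.e (nat_lit 65628) (nat_lit 14) (.e (nat_lit 401457) (nat_lit 13) (.e (nat_lit 483389) (nat_lit 23) (.e (nat_lit 335997) (nat_lit 1) .nil)))))) (.g (nat_lit 4) .nil .nil)))) (.nd (nat_lit 6) 
(.lf (nat_lit 186019) (.g (nat_lit 1736) (.e (nat_lit 57872) (nat_lit 264) (.e (nat_lit 1190) (nat_lit 88) (.e (nat_lit 65619) (nat_lit 10) (.e (nat_lit 344097) (nat_lit 18) (.e (nat_lit 5906) (nat_lit 320) .nil))))) .nil)) 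
(.lf (nat_lit 186083) (.g (nat_lit 3003) (.e (nat_lit 57872) (nat_lit 264) (.e (nat_lit 1190) (nat_lit 88) (.e (nat_lit 65630) (nat_lit 14) (.e (nat_lit 401459) (nat_lit 13) (.e (nat_lit 483347) (nat_lit 17) .nil))))) .nil)))) (.nd (nat_lit 5) (.nd (nat_lit 6) 
(.lf (nat_lit 186003) (.g (nat_lit 2621) (.e (nat_lit 57872) (nat_lit 264) (.e (nat_lit 1188) (nat_lit 88) (.e (nat_lit 65624) (nat_lit 12) (.e (nat_lit 385093) (nat_lit 49) (.e (nat_lit 778253) (nat_lit 0) .nil))))) .nil)) 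
(.lf (nat_lit 186067) (.g (nat_lit 3161) (.e (nat_lit 57872) (nat_lit 264) (.e (nat_lit 1190) (nat_lit 88) (.e (nat_lit 65629) (nat_lit 14) (.e (nat_lit 401459) (nat_lit 13) (.e (nat_lit 483354) (nat_lit 17) .nil))))) .nil))) (.nd (nat_lit 6) 
(.lf (nat_lit 186035) (.g (nat_lit 474) (.e (nat_lit 57872) (nat_lit 264) (.e (nat_lit 1190) (nat_lit 88) (.e (nat_lit 65624) (nat_lit 12) .nil))) .nil)) 
(.lf (nat_lit 186099) (.g (nat_lit 2048) (.e (nat_lit 57872) (nat_lit 264) (.e (nat_lit 1199) (nat_lit 88) (.e (nat_lit 65610) (nat_lit 10) (.e (nat_lit 344129) (nat_lit 26) (.e (nat_lit 557084) (nat_lit 10) .nil))))) .nil))))) (.nd (nat_lit 4) (.nd (nat_lit 5) (.nd (nat_lit 6) 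
(.lf (nat_lit 185995) (.g (nat_lit 1902) (.e (nat_lit 57872) (nat_lit 264) (.e (nat_lit 1182) (nat_lit 87) (.e (nat_lit 57480) (nat_lit 28) (.e (nat_lit 557107) (nat_lit 15) (.e (nat_lit 188450) (nat_lit 23) .nil))))) .nil)) 
(.lf (nat_lit 186059) (.g (nat_lit 3309) (.e (nat_lit 57872) (nat_lit 264) (.e (nat_lit 1190) (nat_lit 88) (.e (nat_lit 65628) (nat_lit 14) (.e (nat_lit 401459) (nat_lit 13) (.e (nat_lit 483380) (nat_lit 23) (.e (nat_lit 343808) (nat_lit 1) .nil)))))) (.g (nat_lit 5) .nil .nil)))) (.nd (nat_lit 6) 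
(.lf (nat_lit 186027) (.g (nat_lit 1778) (.e (nat_lit 57872) (nat_lit 264) (.e (nat_lit 1190) (nat_lit 88) (.e (nat_lit 65619) (nat_lit 10) (.e (nat_lit 344168) (nat_lit 40) (.e (nat_lit 671747) (nat_lit 0) .nil))))) .nil)) 
(.lf (nat_lit 186091) (.g (nat_lit 1217) (.e (nat_lit 57872) (nat_lit 264) (.e (nat_lit 1196) (nat_lit 88) (.e (nat_lit 65624) (nat_lit 12) (.e (nat_lit 385092) (nat_lit 49) (.e (nat_lit 778326) (nat_lit 6) .nil))))) .nil)))) (.nd (nat_lit 5) (.nd (nat_lit 6) 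
(.lf (nat_lit 186011) (.g (nat_lit 1932) (.e (nat_lit 57872) (nat_lit 264) (.e (nat_lit 1188) (nat_lit 88) (.e (nat_lit 65630) (nat_lit 14) (.e (nat_lit 401459) (nat_lit 13) (.e (nat_lit 483344) (nat_lit 17) .nil))))) .nil)) 
(.lf (nat_lit 186075) (.g (nat_lit 2883) (.e (nat_lit 57872) (nat_lit 264) (.e (nat_lit 1190) (nat_lit 88) (.e (nat_lit 65630) (nat_lit 14) (.e (nat_lit 401437) (nat_lit 9) (.e (nat_lit 426491) (nat_lit 27) .nil))))) .nil))) (.nd (nat_lit 6) 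
(.lf (nat_lit 186043) (.g (nat_lit 1011) (.e (nat_lit 57872) (nat_lit 264) (.e (nat_lit 1190) (nat_lit 88) (.e (nat_lit 65628) (nat_lit 14) (.e (nat_lit 401437) (nat_lit 9) .nil)))) .nil)) 
(.lf (nat_lit 186107) (.g (nat_lit 1122) (.e (nat_lit 57872) (nat_lit 264) (.e (nat_lit 1199) (nat_lit 88) (.e (nat_lit 65617) (nat_lit 10) (.e (nat_lit 344169) (nat_lit 40) .nil)))) .nil)))))) (.nd (nat_lit 3) (.nd (nat_lit 4) (.nd (nat_lit 5) (.nd (nat_lit 6) 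
(.lf (nat_lit 185991) (.g (nat_lit 4387) (.e (nat_lit 57872) (nat_lit 264) (.e (nat_lit 1182) (nat_lit 87) (.e (nat_lit 57479) (nat_lit 28) (.e (nat_lit 557101) (nat_lit 13) (.e (nat_lit 172097) (nat_lit 9) (.e (nat_lit 426140) (nat_lit 3) (.e (nat_lit 204855) (nat_lit 26) (.e (nat_lit 335985) (nat_lit 1) .nil)))))))) (.g (nat_lit 7) .nil .nil))) 
(.lf (nat_lit 186055) (.g (nat_lit 3113) (.e (nat_lit 57872) (nat_lit 264) (.e (nat_lit 1190) (nat_lit 88) (.e (nat_lit 65628) (nat_lit 14) (.e (nat_lit 401459) (nat_lit 13) (.e (nat_lit 483344) (nat_lit 17) (.e (nat_lit 6434) (nat_lit 343) (.e (nat_lit 1183) (nat_lit 87) .nil))))))) (.g (nat_lit 5) .nil .nil)))) (.nd (nat_lit 6) 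
(.lf (nat_lit 186023) (.g (nat_lit 1071) (.e (nat_lit 57872) (nat_lit 264) (.e (nat_lit 1190) (nat_lit 88) (.e (nat_lit 65619) (nat_lit 10) (.e (nat_lit 344117) (nat_lit 21) .nil)))) .nil)) 
(.lf (nat_lit 186087) (.g (nat_lit 2450) (.e (nat_lit 57872) (nat_lit 264) (.e (nat_lit 1190) (nat_lit 88) (.e (nat_lit 65630) (nat_lit 14) (.e (nat_lit 401459) (nat_lit 13) (.e (nat_lit 483386) (nat_lit 23) .nil))))) .nil)))) (.nd (nat_lit 5) (.nd (nat_lit 6) 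
(.lf (nat_lit 186007) (.g (nat_lit 1788) (.e (nat_lit 57872) (nat_lit 264) (.e (nat_lit 1188) (nat_lit 88) (.e (nat_lit 65630) (nat_lit 14) (.e (nat_lit 401457) (nat_lit 13) (.e (nat_lit 483393) (nat_lit 23) .nil))))) .nil)) 
(.lf (nat_lit 186071) (.g (nat_lit 450) (.e (nat_lit 57872) (nat_lit 264) (.e (nat_lit 1190) (nat_lit 88) (.e (nat_lit 65630) (nat_lit 14) .nil))) .nil))) (.nd (nat_lit 6) 
(.lf (nat_lit 186039) (.g (nat_lit 2073) (.e (nat_lit 57872) (nat_lit 264) (.e (nat_lit 1190) (nat_lit 88) (.e (nat_lit 65624) (nat_lit 12) (.e (nat_lit 385093) (nat_lit 49) (.e (nat_lit 778327) (nat_lit 6) .nil))))) .nil)) 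
(.lf (nat_lit 186103) (.g (nat_lit 1562) (.e (nat_lit 57872) (nat_lit 264) (.e (nat_lit 1199) (nat_lit 88) (.e (nat_lit 65610) (nat_lit 10) (.e (nat_lit 344169) (nat_lit 40) (.e (nat_lit 671747) (nat_lit 0) .nil))))) .nil))))) (.nd (nat_lit 4) (.nd (nat_lit 5) (.nd (nat_lit 6) 
(.lf (nat_lit 185999) (.g (nat_lit 2322) (.e (nat_lit 57872) (nat_lit 264) (.e (nat_lit 1187) (nat_lit 88) (.e (nat_lit 65630) (nat_lit 14) (.e (nat_lit 401459) (nat_lit 13) (.e (nat_lit 483386) (nat_lit 23) .nil))))) .nil)) 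
(.lf (nat_lit 186063) (.g (nat_lit 2652) (.e (nat_lit 57872) (nat_lit 264) (.e (nat_lit 1190) (nat_lit 88) (.e (nat_lit 65629) (nat_lit 14) (.e (nat_lit 401459) (nat_lit 13) (.e (nat_lit 483343) (nat_lit 17) (.e (nat_lit 6436) (nat_lit 343) (.e (nat_lit 1183) (nat_lit 87) .nil))))))) (.g (nat_lit 4) .nil .nil)))) (.nd (nat_lit 6) 
(.lf (nat_lit 186031) (.g (nat_lit 1395) (.e (nat_lit 57872) (nat_lit 264) (.e (nat_lit 1190) (nat_lit 88) (.e (nat_lit 65622) (nat_lit 12) (.e (nat_lit 385092) (nat_lit 49) (.e (nat_lit 778326) (nat_lit 6) .nil))))) .nil)) 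
(.lf (nat_lit 186095) (.g (nat_lit 2235) (.e (nat_lit 57872) (nat_lit 264) (.e (nat_lit 1199) (nat_lit 88) (.e (nat_lit 65610) (nat_lit 10) (.e (nat_lit 344097) (nat_lit 18) (.e (nat_lit 5906) (nat_lit 320) (.e (nat_lit 7936) (nat_lit 90) (.e (nat_lit 81950) (nat_lit 21) .nil))))))) (.g (nat_lit 5) .nil .nil))))) (.nd (nat_lit 5) (.nd (nat_lit 6) 
(.lf (nat_lit 186015) (.g (nat_lit 2393) (.e (nat_lit 57872) (nat_lit 264) (.e (nat_lit 1188) (nat_lit 88) (.e (nat_lit 65630) (nat_lit 14) (.e (nat_lit 401459) (nat_lit 13) (.e (nat_lit 483389) (nat_lit 23) (.e (nat_lit 335991) (nat_lit 1) .nil)))))) (.g (nat_lit 4) .nil .nil))) 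
(.lf (nat_lit 186079) (.g (nat_lit 2128) (.e (nat_lit 57872) (nat_lit 264) (.e (nat_lit 1190) (nat_lit 88) (.e (nat_lit 65630) (nat_lit 14) (.e (nat_lit 401458) (nat_lit 13) (.e (nat_lit 483392) (nat_lit 23) .nil))))) .nil))) (.nd (nat_lit 6) 
(.lf (nat_lit 186047) (.g (nat_lit 2610) (.e (nat_lit 57872) (nat_lit 264) (.e (nat_lit 1190) (nat_lit 88) (.e (nat_lit 65628) (nat_lit 14) (.e (nat_lit 401437) (nat_lit 9) (.e (nat_lit 426505) (nat_lit 27) .nil))))) .nil)) 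
(.lf (nat_lit 186111) (.g (nat_lit 2201) (.e (nat_lit 57872) (nat_lit 264) (.e (nat_lit 1199) (nat_lit 88) (.e (nat_lit 65628) (nat_lit 14) (.e (nat_lit 401437) (nat_lit 9) (.e (nat_lit 426556) (nat_lit 32) .nil))))) .nil)))))))))

noncomputable def tv2474 : DT := (.nd (nat_lit 0) (.nd (nat_lit 1) (.nd (nat_lit 2) (.nd (nat_lit 3) (.nd (nat_lit 4) (.nd (nat_lit 5) 
(.lf (nat_lit 186112) (.g (nat_lit 2037) (.e (nat_lit 57872) (nat_lit 264) (.e (nat_lit 1199) (nat_lit 88) (.e (nat_lit 65628) (nat_lit 14) (.e (nat_lit 401457) (nat_lit 13) (.e (nat_lit 483389) (nat_lit 23) .nil))))) .nil)) 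
(.lf (nat_lit 186144) (.g (nat_lit 3890) (.e (nat_lit 57872) (nat_lit 264) (.e (nat_lit 1199) (nat_lit 88) (.e (nat_lit 65630) (nat_lit 14) (.e (nat_lit 401459) (nat_lit 13) (.e (nat_lit 483350) (nat_lit 17) (.e (nat_lit 7936) (nat_lit 343) (.e (nat_lit 1181) (nat_lit 87) .nil))))))) (.g (nat_lit 5) .nil .nil)))) (.nd (nat_lit 5) 
(.lf (nat_lit 186128) (.g (nat_lit 1635) (.e (nat_lit 57872) (nat_lit 264) (.e (nat_lit 1199) (nat_lit 88) (.e (nat_lit 65630) (nat_lit 14) (.e (nat_lit 401436) (nat_lit 9) (.e (nat_lit 426543) (nat_lit 29) .nil))))) .nil)) 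
(.lf (nat_lit 186160) (.g (nat_lit 328) (.e (nat_lit 57872) (nat_lit 264) (.e (nat_lit 1200) (nat_lit 88) (.e (nat_lit 65622) (nat_lit 12) .nil))) .nil)))) (.nd (nat_lit 4) (.nd (nat_lit 5) 
(.lf (nat_lit 186120) (.g (nat_lit 3654) (.e (nat_lit 57872) (nat_lit 264) (.e (nat_lit 1199) (nat_lit 88) (.e (nat_lit 65628) (nat_lit 14) (.e (nat_lit 401459) (nat_lit 13) (.e (nat_lit 483350) (nat_lit 17) (.e (nat_lit 6490) (nat_lit 343) (.e (nat_lit 1179) (nat_lit 87) .nil))))))) (.g (nat_lit 5) .nil .nil))) 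
(.lf (nat_lit 186152) (.g (nat_lit 1751) (.e (nat_lit 57872) (nat_lit 264) (.e (nat_lit 1200) (nat_lit 88) (.e (nat_lit 65619) (nat_lit 10) (.e (nat_lit 344090) (nat_lit 18) (.e (nat_lit 5896) (nat_lit 320) .nil))))) .nil))) (.nd (nat_lit 5) 
(.lf (nat_lit 186136) (.g (nat_lit 1775) (.e (nat_lit 57872) (nat_lit 264) (.e (nat_lit 1199) (nat_lit 88) (.e (nat_lit 65630) (nat_lit 14) (.e (nat_lit 401457) (nat_lit 13) (.e (nat_lit 483389) (nat_lit 23) .nil))))) .nil)) 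
(.lf (nat_lit 186168) (.g (nat_lit 1996) (.e (nat_lit 57872) (nat_lit 264) (.e (nat_lit 1200) (nat_lit 88) (.e (nat_lit 65624) (nat_lit 12) (.e (nat_lit 385105) (nat_lit 50) (.e (nat_lit 786479) (nat_lit 29) .nil))))) .nil))))) (.nd (nat_lit 3) (.nd (nat_lit 4) (.nd (nat_lit 5) 
(.lf (nat_lit 186116) (.g (nat_lit 2226) (.e (nat_lit 57872) (nat_lit 264) (.e (nat_lit 1199) (nat_lit 88) (.e (nat_lit 65628) (nat_lit 14) (.e (nat_lit 401459) (nat_lit 13) (.e (nat_lit 483343) (nat_lit 17) .nil))))) .nil)) 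
(.lf (nat_lit 186148) (.g (nat_lit 3429) (.e (nat_lit 57872) (nat_lit 264) (.e (nat_lit 1199) (nat_lit 88) (.e (nat_lit 65630) (nat_lit 14) (.e (nat_lit 401459) (nat_lit 13) (.e (nat_lit 483380) (nat_lit 23) (.e (nat_lit 343808) (nat_lit 1) .nil)))))) (.g (nat_lit 5) .nil .nil)))) (.nd (nat_lit 5) 
(.lf (nat_lit 186132) (.g (nat_lit 2162) (.e (nat_lit 57872) (nat_lit 264) (.e (nat_lit 1199) (nat_lit 88) (.e (nat_lit 65630) (nat_lit 14) (.e (nat_lit 401438) (nat_lit 9) (.e (nat_lit 426487) (nat_lit 27) .nil))))) .nil)) 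
(.lf (nat_lit 186164) (.g (nat_lit 1844) (.e (nat_lit 57872) (nat_lit 264) (.e (nat_lit 1200) (nat_lit 88) (.e (nat_lit 65623) (nat_lit 12) (.e (nat_lit 385106) (nat_lit 50) (.e (nat_lit 786479) (nat_lit 29) .nil))))) .nil)))) (.nd (nat_lit 4) (.nd (nat_lit 5) 
(.lf (nat_lit 186124) (.g (nat_lit 5070) (.e (nat_lit 57872) (nat_lit 264) (.e (nat_lit 1199) (nat_lit 88) (.e (nat_lit 65629) (nat_lit 14) (.e (nat_lit 401459) (nat_lit 13) (.e (nat_lit 483350) (nat_lit 17) (.e (nat_lit 7936) (nat_lit 343) (.e (nat_lit 1183) (nat_lit 87) .nil))))))) (.g (nat_lit 5) .nil .nil))) 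
(.lf (nat_lit 186156) (.g (nat_lit 1681) (.e (nat_lit 57872) (nat_lit 264) (.e (nat_lit 1200) (nat_lit 88) (.e (nat_lit 65619) (nat_lit 10) (.e (nat_lit 344168) (nat_lit 40) (.e (nat_lit 671747) (nat_lit 0) .nil))))) .nil))) (.nd (nat_lit 5) 
(.lf (nat_lit 186140) (.g (nat_lit 1779) (.e (nat_lit 57872) (nat_lit 264) (.e (nat_lit 1199) (nat_lit 88) (.e (nat_lit 65630) (nat_lit 14) (.e (nat_lit 401458) (nat_lit 13) (.e (nat_lit 491264) (nat_lit 23) .nil))))) .nil)) 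
(.lf (nat_lit 186172) (.g (nat_lit 2491) (.e (nat_lit 57872) (nat_lit 264) (.e (nat_lit 1200) (nat_lit 88) (.e (nat_lit 65628) (nat_lit 14) (.e (nat_lit 401437) (nat_lit 9) (.e (nat_lit 426489) (nat_lit 27) .nil))))) .nil)))))) (.nd (nat_lit 2) (.nd (nat_lit 3) (.nd (nat_lit 4) (.nd (nat_lit 5) 
(.lf (nat_lit 186114) (.g (nat_lit 1917) (.e (nat_lit 57872) (nat_lit 264) (.e (nat_lit 1199) (nat_lit 88) (.e (nat_lit 65628) (nat_lit 14) (.e (nat_lit 401458) (nat_lit 13) (.e (nat_lit 483392) (nat_lit 23) .nil))))) .nil)) 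
(.lf (nat_lit 186146) (.g (nat_lit 3056) (.e (nat_lit 57872) (nat_lit 264) (.e (nat_lit 1199) (nat_lit 88) (.e (nat_lit 65630) (nat_lit 14) (.e (nat_lit 401459) (nat_lit 13) (.e (nat_lit 483354) (nat_lit 17) (.e (nat_lit 6493) (nat_lit 343) (.e (nat_lit 1179) (nat_lit 87) .nil))))))) (.g (nat_lit 4) .nil .nil)))) (.nd (nat_lit 5) 
(.lf (nat_lit 186130) (.g (nat_lit 2602) (.e (nat_lit 57872) (nat_lit 264) (.e (nat_lit 1199) (nat_lit 88) (.e (nat_lit 65630) (nat_lit 14) (.e (nat_lit 401437) (nat_lit 9) (.e (nat_lit 426505) (nat_lit 27) .nil))))) .nil)) 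
(.lf (nat_lit 186162) (.g (nat_lit 1609) (.e (nat_lit 57872) (nat_lit 264) (.e (nat_lit 1200) (nat_lit 88) (.e (nat_lit 65623) (nat_lit 12) (.e (nat_lit 385093) (nat_lit 49) (.e (nat_lit 778326) (nat_lit 6) .nil))))) .nil)))) (.nd (nat_lit 4) (.nd (nat_lit 5) 
(.lf (nat_lit 186122) (.g (nat_lit 2880) (.e (nat_lit 57872) (nat_lit 264) (.e (nat_lit 1199) (nat_lit 88) (.e (nat_lit 65629) (nat_lit 14) (.e (nat_lit 401459) (nat_lit 13) (.e (nat_lit 483343) (nat_lit 17) (.e (nat_lit 6479) (nat_lit 343) (.e (nat_lit 1181) (nat_lit 87) .nil))))))) (.g (nat_lit 4) .nil .nil))) 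
(.lf (nat_lit 186154) (.g (nat_lit 2377) (.e (nat_lit 57872) (nat_lit 264) (.e (nat_lit 1200) (nat_lit 88) (.e (nat_lit 65619) (nat_lit 10) (.e (nat_lit 344097) (nat_lit 18) (.e (nat_lit 5906) (nat_lit 320) (.e (nat_lit 7936) (nat_lit 90) (.e (nat_lit 81950) (nat_lit 21) .nil))))))) (.g (nat_lit 5) .nil .nil)))) (.nd (nat_lit 5) 
(.lf (nat_lit 186138) (.g (nat_lit 1577) (.e (nat_lit 57872) (nat_lit 264) (.e (nat_lit 1199) (nat_lit 88) (.e (nat_lit 65630) (nat_lit 14) (.e (nat_lit 401458) (nat_lit 13) (.e (nat_lit 483383) (nat_lit 23) .nil))))) .nil)) 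
(.lf (nat_lit 186170) (.g (nat_lit 1027) (.e (nat_lit 57872) (nat_lit 264) (.e (nat_lit 1200) (nat_lit 88) (.e (nat_lit 65628) (nat_lit 14) (.e (nat_lit 401437) (nat_lit 9) .nil)))) .nil))))) (.nd (nat_lit 3) (.nd (nat_lit 4) (.nd (nat_lit 5) 
(.lf (nat_lit 186118) (.g (nat_lit 2401) (.e (nat_lit 57872) (nat_lit 264) (.e (nat_lit 1199) (nat_lit 88) (.e (nat_lit 65628) (nat_lit 14) (.e (nat_lit 401459) (nat_lit 13) (.e (nat_lit 483347) (nat_lit 17) .nil))))) .nil)) 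
(.lf (nat_lit 186150) (.g (nat_lit 3071) (.e (nat_lit 57872) (nat_lit 264) (.e (nat_lit 1199) (nat_lit 88) (.e (nat_lit 65630) (nat_lit 14) (.e (nat_lit 401459) (nat_lit 13) (.e (nat_lit 483389) (nat_lit 23) (.e (nat_lit 335997) (nat_lit 1) .nil)))))) (.g (nat_lit 4) .nil .nil)))) (.nd (nat_lit 5) 
(.lf (nat_lit 186134) (.g (nat_lit 1477) (.e (nat_lit 57872) (nat_lit 264) (.e (nat_lit 1199) (nat_lit 88) (.e (nat_lit 65630) (nat_lit 14) (.e (nat_lit 401454) (nat_lit 12) .nil)))) .nil)) 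
(.lf (nat_lit 186166) (.g (nat_lit 1804) (.e (nat_lit 57872) (nat_lit 264) (.e (nat_lit 1200) (nat_lit 88) (.e (nat_lit 65624) (nat_lit 12) (.e (nat_lit 385093) (nat_lit 49) (.e (nat_lit 778323) (nat_lit 5) .nil))))) .nil)))) (.nd (nat_lit 4) (.nd (nat_lit 5) 
(.lf (nat_lit 186126) (.g (nat_lit 3528) (.e (nat_lit 57872) (nat_lit 264) (.e (nat_lit 1199) (nat_lit 88) (.e (nat_lit 65629) (nat_lit 14) (.e (nat_lit 401459) (nat_lit 13) (.e (nat_lit 483354) (nat_lit 17) (.e (nat_lit 7936) (nat_lit 343) (.e (nat_lit 1183) (nat_lit 87) .nil))))))) (.g (nat_lit 4) .nil .nil))) 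
(.lf (nat_lit 186158) (.g (nat_lit 1587) (.e (nat_lit 57872) (nat_lit 264) (.e (nat_lit 1200) (nat_lit 88) (.e (nat_lit 65619) (nat_lit 10) (.e (nat_lit 344169) (nat_lit 40) (.e (nat_lit 671744) (nat_lit 0) .nil))))) .nil))) (.nd (nat_lit 5) 
(.lf (nat_lit 186142) (.g (nat_lit 2869) (.e (nat_lit 57872) (nat_lit 264) (.e (nat_lit 1199) (nat_lit 88) (.e (nat_lit 65630) (nat_lit 14) (.e (nat_lit 401459) (nat_lit 13) (.e (nat_lit 483343) (nat_lit 17) .nil))))) .nil)) 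
(.lf (nat_lit 186174) (.g (nat_lit 2620) (.e (nat_lit 57872) (nat_lit 264) (.e (nat_lit 1200) (nat_lit 88) (.e (nat_lit 65628) (nat_lit 14) (.e (nat_lit 401437) (nat_lit 9) (.e (nat_lit 426505) (nat_lit 27) .nil))))) .nil))))))) (.nd (nat_lit 1) (.nd (nat_lit 2) (.nd (nat_lit 3) (.nd (nat_lit 4) (.nd (nat_lit 5) 
(.lf (nat_lit 186113) (.g (nat_lit 1608) (.e (nat_lit 57872) (nat_lit 264) (.e (nat_lit 1199) (nat_lit 88) (.e (nat_lit 65628) (nat_lit 14) (.e (nat_lit 401458) (nat_lit 13) (.e (nat_lit 483389) (nat_lit 23) .nil))))) .nil)) 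
(.lf (nat_lit 186145) (.g (nat_lit 3199) (.e (nat_lit 57872) (nat_lit 264) (.e (nat_lit 1199) (nat_lit 88) (.e (nat_lit 65630) (nat_lit 14) (.e (nat_lit 401459) (nat_lit 13) (.e (nat_lit 483354) (nat_lit 17) (.e (nat_lit 6493) (nat_lit 343) (.e (nat_lit 1178) (nat_lit 87) .nil))))))) (.g (nat_lit 4) .nil .nil)))) (.nd (nat_lit 5) 
(.lf (nat_lit 186129) (.g (nat_lit 2458) (.e (nat_lit 57872) (nat_lit 264) (.e (nat_lit 1199) (nat_lit 88) (.e (nat_lit 65630) (nat_lit 14) (.e (nat_lit 401437) (nat_lit 9) (.e (nat_lit 426489) (nat_lit 27) .nil))))) .nil)) 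
(.lf (nat_lit 186161) (.g (nat_lit 1682) (.e (nat_lit 57872) (nat_lit 264) (.e (nat_lit 1200) (nat_lit 88) (.e (nat_lit 65622) (nat_lit 12) (.e (nat_lit 385093) (nat_lit 49) (.e (nat_lit 778326) (nat_lit 6) .nil))))) .nil)))) (.nd (nat_lit 4) (.nd (nat_lit 5) 
(.lf (nat_lit 186121) (.g (nat_lit 2575) (.e (nat_lit 57872) (nat_lit 264) (.e (nat_lit 1199) (nat_lit 88) (.e (nat_lit 65628) (nat_lit 14) (.e (nat_lit 401459) (nat_lit 13) (.e (nat_lit 483389) (nat_lit 23) .nil))))) .nil)) 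
(.lf (nat_lit 186153) (.g (nat_lit 2572) (.e (nat_lit 57872) (nat_lit 264) (.e (nat_lit 1200) (nat_lit 88) (.e (nat_lit 65619) (nat_lit 10) (.e (nat_lit 344090) (nat_lit 18) (.e (nat_lit 5896) (nat_lit 320) (.e (nat_lit 7936) (nat_lit 90) (.e (nat_lit 81950) (nat_lit 21) .nil))))))) (.g (nat_lit 5) .nil .nil)))) (.nd (nat_lit 5) 
(.lf (nat_lit 186137) (.g (nat_lit 2318) (.e (nat_lit 57872) (nat_lit 264) (.e (nat_lit 1199) (nat_lit 88) (.e (nat_lit 65630) (nat_lit 14) (.e (nat_lit 401457) (nat_lit 13) (.e (nat_lit 483393) (nat_lit 23) (.e (nat_lit 335986) (nat_lit 1) .nil)))))) (.g (nat_lit 4) .nil .nil))) 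
(.lf (nat_lit 186169) (.g (nat_lit 2053) (.e (nat_lit 57872) (nat_lit 264) (.e (nat_lit 1200) (nat_lit 88) (.e (nat_lit 65628) (nat_lit 14) (.e (nat_lit 401435) (nat_lit 9) (.e (nat_lit 426555) (nat_lit 32) .nil))))) .nil))))) (.nd (nat_lit 3) (.nd (nat_lit 4) (.nd (nat_lit 5) 
(.lf (nat_lit 186117) (.g (nat_lit 2874) (.e (nat_lit 57872) (nat_lit 264) (.e (nat_lit 1199) (nat_lit 88) (.e (nat_lit 65628) (nat_lit 14) (.e (nat_lit 401459) (nat_lit 13) (.e (nat_lit 483344) (nat_lit 17) (.e (nat_lit 7936) (nat_lit 343) (.e (nat_lit 1183) (nat_lit 87) .nil))))))) (.g (nat_lit 5) .nil .nil))) 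
(.lf (nat_lit 186149) (.g (nat_lit 2940) (.e (nat_lit 57872) (nat_lit 264) (.e (nat_lit 1199) (nat_lit 88) (.e (nat_lit 65630) (nat_lit 14) (.e (nat_lit 401459) (nat_lit 13) (.e (nat_lit 483389) (nat_lit 23) .nil))))) .nil))) (.nd (nat_lit 5) 
(.lf (nat_lit 186133) (.g (nat_lit 2150) (.e (nat_lit 57872) (nat_lit 264) (.e (nat_lit 1199) (nat_lit 88) (.e (nat_lit 65630) (nat_lit 14) (.e (nat_lit 401438) (nat_lit 9) (.e (nat_lit 426489) (nat_lit 27) .nil))))) .nil)) 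
(.lf (nat_lit 186165) (.g (nat_lit 2739) (.e (nat_lit 57872) (nat_lit 264) (.e (nat_lit 1200) (nat_lit 88) (.e (nat_lit 65624) (nat_lit 12) (.e (nat_lit 385093) (nat_lit 49) (.e (nat_lit 778253) (nat_lit 0) .nil))))) .nil)))) (.nd (nat_lit 4) (.nd (nat_lit 5) 
(.lf (nat_lit 186125) (.g (nat_lit 3142) (.e (nat_lit 57872) (nat_lit 264) (.e (nat_lit 1199) (nat_lit 88) (.e (nat_lit 65629) (nat_lit 14) (.e (nat_lit 401459) (nat_lit 13) (.e (nat_lit 483354) (nat_lit 17) .nil))))) .nil)) 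
(.lf (nat_lit 186157) (.g (nat_lit 1616) (.e (nat_lit 57872) (nat_lit 264) (.e (nat_lit 1200) (nat_lit 88) (.e (nat_lit 65619) (nat_lit 10) (.e (nat_lit 344168) (nat_lit 40) (.e (nat_lit 671761) (nat_lit 4) .nil))))) .nil))) (.nd (nat_lit 5) 
(.lf (nat_lit 186141) (.g (nat_lit 3320) (.e (nat_lit 57872) (nat_lit 264) (.e (nat_lit 1199) (nat_lit 88) (.e (nat_lit 65630) (nat_lit 14) (.e (nat_lit 401459) (nat_lit 13) (.e (nat_lit 483342) (nat_lit 17) .nil))))) .nil)) 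
(.lf (nat_lit 186173) (.g (nat_lit 2620) (.e (nat_lit 57872) (nat_lit 264) (.e (nat_lit 1200) (nat_lit 88) (.e (nat_lit 65628) (nat_lit 14) (.e (nat_lit 401437) (nat_lit 9) (.e (nat_lit 426491) (nat_lit 27) .nil))))) .nil)))))) (.nd (nat_lit 2) (.nd (nat_lit 3) (.nd (nat_lit 4) (.nd (nat_lit 5) 
(.lf (nat_lit 186115) (.g (nat_lit 1726) (.e (nat_lit 57872) (nat_lit 264) (.e (nat_lit 1199) (nat_lit 88) (.e (nat_lit 65628) (nat_lit 14) (.e (nat_lit 401458) (nat_lit 13) (.e (nat_lit 491264) (nat_lit 23) .nil))))) .nil)) 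
(.lf (nat_lit 186147) (.g (nat_lit 2603) (.e (nat_lit 57872) (nat_lit 264) (.e (nat_lit 1199) (nat_lit 88) (.e (nat_lit 65630) (nat_lit 14) (.e (nat_lit 401459) (nat_lit 13) (.e (nat_lit 483380) (nat_lit 23) .nil))))) .nil))) (.nd (nat_lit 5) 
(.lf (nat_lit 186131) (.g (nat_lit 2342) (.e (nat_lit 57872) (nat_lit 264) (.e (nat_lit 1199) (nat_lit 88) (.e (nat_lit 65630) (nat_lit 14) (.e (nat_lit 401437) (nat_lit 9) (.e (nat_lit 426539) (nat_lit 29) .nil))))) .nil)) 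
(.lf (nat_lit 186163) (.g (nat_lit 1502) (.e (nat_lit 57872) (nat_lit 264) (.e (nat_lit 1200) (nat_lit 88) (.e (nat_lit 65623) (nat_lit 12) (.e (nat_lit 385094) (nat_lit 49) (.e (nat_lit 778327) (nat_lit 6) .nil))))) .nil)))) (.nd (nat_lit 4) (.nd (nat_lit 5) 
(.lf (nat_lit 186123) (.g (nat_lit 3017) (.e (nat_lit 57872) (nat_lit 264) (.e (nat_lit 1199) (nat_lit 88) (.e (nat_lit 65629) (nat_lit 14) (.e (nat_lit 401459) (nat_lit 13) (.e (nat_lit 483347) (nat_lit 17) .nil))))) .nil)) 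
(.lf (nat_lit 186155) (.g (nat_lit 2536) (.e (nat_lit 57872) (nat_lit 264) (.e (nat_lit 1200) (nat_lit 88) (.e (nat_lit 65619) (nat_lit 10) (.e (nat_lit 344097) (nat_lit 18) (.e (nat_lit 5907) (nat_lit 320) (.e (nat_lit 7936) (nat_lit 90) (.e (nat_lit 81950) (nat_lit 21) .nil))))))) (.g (nat_lit 5) .nil .nil)))) (.nd (nat_lit 5) 
(.lf (nat_lit 186139) (.g (nat_lit 1745) (.e (nat_lit 57872) (nat_lit 264) (.e (nat_lit 1199) (nat_lit 88) (.e (nat_lit 65630) (nat_lit 14) (.e (nat_lit 401458) (nat_lit 13) (.e (nat_lit 483389) (nat_lit 23) (.e (nat_lit 335991) (nat_lit 1) .nil)))))) (.g (nat_lit 4) .nil .nil))) 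
(.lf (nat_lit 186171) (.g (nat_lit 2620) (.e (nat_lit 57872) (nat_lit 264) (.e (nat_lit 1200) (nat_lit 88) (.e (nat_lit 65628) (nat_lit 14) (.e (nat_lit 401437) (nat_lit 9) (.e (nat_lit 426487) (nat_lit 27) .nil))))) .nil))))) (.nd (nat_lit 3) (.nd (nat_lit 4) (.nd (nat_lit 5) 
(.lf (nat_lit 186119) (.g (nat_lit 2696) (.e (nat_lit 57872) (nat_lit 264) (.e (nat_lit 1199) (nat_lit 88) (.e (nat_lit 65628) (nat_lit 14) (.e (nat_lit 401459) (nat_lit 13) (.e (nat_lit 483347) (nat_lit 17) (.e (nat_lit 7936) (nat_lit 343) (.e (nat_lit 1181) (nat_lit 87) .nil))))))) (.g (nat_lit 4) .nil .nil))) 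
(.lf (nat_lit 186151) (.g (nat_lit 1003) (.e (nat_lit 57872) (nat_lit 264) (.e (nat_lit 1200) (nat_lit 88) (.e (nat_lit 65604) (nat_lit 9) (.e (nat_lit 335907) (nat_lit 0) .nil)))) .nil))) (.nd (nat_lit 5) 
(.lf (nat_lit 186135) (.g (nat_lit 2092) (.e (nat_lit 57872) (nat_lit 264) (.e (nat_lit 1199) (nat_lit 88) (.e (nat_lit 65630) (nat_lit 14) (.e (nat_lit 401457) (nat_lit 13) (.e (nat_lit 483346) (nat_lit 17) .nil))))) .nil)) 
(.lf (nat_lit 186167) (.g (nat_lit 2160) (.e (nat_lit 57872) (nat_lit 264) (.e (nat_lit 1200) (nat_lit 88) (.e (nat_lit 65624) (nat_lit 12) (.e (nat_lit 385093) (nat_lit 49) (.e (nat_lit 778327) (nat_lit 6) .nil))))) .nil)))) (.nd (nat_lit 4) (.nd (nat_lit 5) 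
(.lf (nat_lit 186127) (.g (nat_lit 1672) (.e (nat_lit 57872) (nat_lit 264) (.e (nat_lit 1199) (nat_lit 88) (.e (nat_lit 65630) (nat_lit 14) (.e (nat_lit 401436) (nat_lit 9) (.e (nat_lit 426487) (nat_lit 27) .nil))))) .nil)) 
(.lf (nat_lit 186159) (.g (nat_lit 1612) (.e (nat_lit 57872) (nat_lit 264) (.e (nat_lit 1200) (nat_lit 88) (.e (nat_lit 65619) (nat_lit 10) (.e (nat_lit 344169) (nat_lit 40) (.e (nat_lit 671747) (nat_lit 0) .nil))))) .nil))) (.nd (nat_lit 5) 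
(.lf (nat_lit 186143) (.g (nat_lit 2299) (.e (nat_lit 57872) (nat_lit 264) (.e (nat_lit 1199) (nat_lit 88) (.e (nat_lit 65630) (nat_lit 14) (.e (nat_lit 401459) (nat_lit 13) (.e (nat_lit 483344) (nat_lit 17) .nil))))) .nil)) 
(.lf (nat_lit 186175) (.g (nat_lit 2020) (.e (nat_lit 57872) (nat_lit 264) (.e (nat_lit 1200) (nat_lit 88) (.e (nat_lit 65628) (nat_lit 14) (.e (nat_lit 401437) (nat_lit 9) (.e (nat_lit 426530) (nat_lit 27) .nil))))) .nil))))))))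

noncomputable def tv2475 : DT := (.nd (nat_lit 0) (.nd (nat_lit 1) (.nd (nat_lit 2) (.nd (nat_lit 3) (.nd (nat_lit 4) (.nd (nat_lit 5) 
(.lf (nat_lit 186176) (.g (nat_lit 2014) (.e (nat_lit 57872) (nat_lit 264) (.e (nat_lit 1200) (nat_lit 88) (.e (nat_lit 65628) (nat_lit 14) (.e (nat_lit 401438) (nat_lit 9) (.e (nat_lit 426487) (nat_lit 27) .nil))))) .nil)) 
(.lf (nat_lit 186208) (.g (nat_lit 2091) (.e (nat_lit 57872) (nat_lit 264) (.e (nat_lit 1209) (nat_lit 89) (.e (nat_lit 73781) (nat_lit 32) (.e (nat_lit 2856) (nat_lit 184) (.e (nat_lit 426539) (nat_lit 29) .nil))))) .nil))) (.nd (nat_lit 5) 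
(.lf (nat_lit 186192) (.g (nat_lit 2598) (.e (nat_lit 57872) (nat_lit 264) (.e (nat_lit 1200) (nat_lit 88) (.e (nat_lit 65630) (nat_lit 14) (.e (nat_lit 401437) (nat_lit 9) (.e (nat_lit 426487) (nat_lit 27) .nil))))) .nil)) 
(.lf (nat_lit 186224) (.g (nat_lit 1826) (.e (nat_lit 57872) (nat_lit 264) (.e (nat_lit 1209) (nat_lit 89) (.e (nat_lit 73782) (nat_lit 32) (.e (nat_lit 3089) (nat_lit 191) (.e (nat_lit 483389) (nat_lit 23) (.e (nat_lit 335991) (nat_lit 1) .nil)))))) (.g (nat_lit 4) .nil .nil))))) (.nd (nat_lit 4) (.nd (nat_lit 5) 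
(.lf (nat_lit 186184) (.g (nat_lit 2518) (.e (nat_lit 57872) (nat_lit 264) (.e (nat_lit 1200) (nat_lit 88) (.e (nat_lit 65628) (nat_lit 14) (.e (nat_lit 401459) (nat_lit 13) (.e (nat_lit 483354) (nat_lit 17) (.e (nat_lit 6493) (nat_lit 343) (.e (nat_lit 1178) (nat_lit 87) .nil))))))) (.g (nat_lit 4) .nil .nil))) 
(.lf (nat_lit 186216) (.g (nat_lit 808) (.e (nat_lit 57872) (nat_lit 264) (.e (nat_lit 1209) (nat_lit 89) (.e (nat_lit 73782) (nat_lit 32) (.e (nat_lit 2856) (nat_lit 184) .nil)))) .nil))) (.nd (nat_lit 5) 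
(.lf (nat_lit 186200) (.g (nat_lit 3103) (.e (nat_lit 57872) (nat_lit 264) (.e (nat_lit 1200) (nat_lit 88) (.e (nat_lit 65630) (nat_lit 14) (.e (nat_lit 401459) (nat_lit 13) (.e (nat_lit 483347) (nat_lit 17) (.e (nat_lit 7936) (nat_lit 343) (.e (nat_lit 1183) (nat_lit 87) .nil))))))) (.g (nat_lit 4) .nil .nil))) 
(.lf (nat_lit 186232) (.g (nat_lit 513) (.e (nat_lit 57872) (nat_lit 264) (.e (nat_lit 1209) (nat_lit 89) (.e (nat_lit 73791) (nat_lit 45) .nil))) .nil))))) (.nd (nat_lit 3) (.nd (nat_lit 4) (.nd (nat_lit 5) 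
(.lf (nat_lit 186180) (.g (nat_lit 1982) (.e (nat_lit 57872) (nat_lit 264) (.e (nat_lit 1200) (nat_lit 88) (.e (nat_lit 65628) (nat_lit 14) (.e (nat_lit 401457) (nat_lit 13) (.e (nat_lit 483389) (nat_lit 23) .nil))))) .nil)) 
(.lf (nat_lit 186212) (.g (nat_lit 1609) (.e (nat_lit 57872) (nat_lit 264) (.e (nat_lit 1209) (nat_lit 89) (.e (nat_lit 73781) (nat_lit 32) (.e (nat_lit 3088) (nat_lit 191) (.e (nat_lit 483390) (nat_lit 23) .nil))))) .nil))) (.nd (nat_lit 5) 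
(.lf (nat_lit 186196) (.g (nat_lit 1560) (.e (nat_lit 57872) (nat_lit 264) (.e (nat_lit 1200) (nat_lit 88) (.e (nat_lit 65630) (nat_lit 14) (.e (nat_lit 401458) (nat_lit 13) (.e (nat_lit 483389) (nat_lit 23) .nil))))) .nil)) 
(.lf (nat_lit 186228) (.g (nat_lit 503) (.e (nat_lit 57872) (nat_lit 264) (.e (nat_lit 1209) (nat_lit 89) (.e (nat_lit 81664) (nat_lit 32) .nil))) .nil)))) (.nd (nat_lit 4) (.nd (nat_lit 5) 
(.lf (nat_lit 186188) (.g (nat_lit 2516) (.e (nat_lit 57872) (nat_lit 264) (.e (nat_lit 1200) (nat_lit 88) (.e (nat_lit 65629) (nat_lit 14) (.e (nat_lit 401459) (nat_lit 13) (.e (nat_lit 483343) (nat_lit 17) .nil))))) .nil)) 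
(.lf (nat_lit 186220) (.g (nat_lit 3585) (.e (nat_lit 57872) (nat_lit 264) (.e (nat_lit 1209) (nat_lit 89) (.e (nat_lit 73782) (nat_lit 32) (.e (nat_lit 2857) (nat_lit 184) (.e (nat_lit 426542) (nat_lit 29) (.e (nat_lit 352309) (nat_lit 21) .nil)))))) (.g (nat_lit 0) .nil .nil)))) (.nd (nat_lit 5) 
(.lf (nat_lit 186204) (.g (nat_lit 2902) (.e (nat_lit 57872) (nat_lit 264) (.e (nat_lit 1200) (nat_lit 88) (.e (nat_lit 65630) (nat_lit 14) (.e (nat_lit 401459) (nat_lit 13) (.e (nat_lit 483393) (nat_lit 23) .nil))))) .nil)) 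
(.lf (nat_lit 186236) (.g (nat_lit 3240) (.e (nat_lit 57872) (nat_lit 264) (.e (nat_lit 1211) (nat_lit 89) (.e (nat_lit 73781) (nat_lit 32) (.e (nat_lit 2856) (nat_lit 184) (.e (nat_lit 426542) (nat_lit 29) (.e (nat_lit 352309) (nat_lit 21) .nil)))))) (.g (nat_lit 0) .nil .nil))))))) (.nd (nat_lit 2) (.nd (nat_lit 3) (.nd (nat_lit 4) (.nd (nat_lit 5) 
(.lf (nat_lit 186178) (.g (nat_lit 1922) (.e (nat_lit 57872) (nat_lit 264) (.e (nat_lit 1200) (nat_lit 88) (.e (nat_lit 65628) (nat_lit 14) (.e (nat_lit 401438) (nat_lit 9) (.e (nat_lit 426538) (nat_lit 29) .nil))))) .nil)) 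
(.lf (nat_lit 186210) (.g (nat_lit 1696) (.e (nat_lit 57872) (nat_lit 264) (.e (nat_lit 1209) (nat_lit 89) (.e (nat_lit 73781) (nat_lit 32) (.e (nat_lit 2857) (nat_lit 184) (.e (nat_lit 426538) (nat_lit 29) .nil))))) .nil))) (.nd (nat_lit 5) 
(.lf (nat_lit 186194) (.g (nat_lit 2046) (.e (nat_lit 57872) (nat_lit 264) (.e (nat_lit 1200) (nat_lit 88) (.e (nat_lit 65630) (nat_lit 14) (.e (nat_lit 401456) (nat_lit 13) (.e (nat_lit 483378) (nat_lit 23) .nil))))) .nil)) 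
(.lf (nat_lit 186226) (.g (nat_lit 2814) (.e (nat_lit 57872) (nat_lit 264) (.e (nat_lit 1209) (nat_lit 89) (.e (nat_lit 73782) (nat_lit 32) (.e (nat_lit 3090) (nat_lit 191) (.e (nat_lit 483350) (nat_lit 17) (.e (nat_lit 7936) (nat_lit 343) (.e (nat_lit 1183) (nat_lit 87) .nil))))))) (.g (nat_lit 5) .nil .nil))))) (.nd (nat_lit 4) (.nd (nat_lit 5) 
(.lf (nat_lit 186186) (.g (nat_lit 2479) (.e (nat_lit 57872) (nat_lit 264) (.e (nat_lit 1200) (nat_lit 88) (.e (nat_lit 65628) (nat_lit 14) (.e (nat_lit 401459) (nat_lit 13) (.e (nat_lit 483364) (nat_lit 18) .nil))))) .nil)) 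
(.lf (nat_lit 186218) (.g (nat_lit 2062) (.e (nat_lit 57872) (nat_lit 264) (.e (nat_lit 1209) (nat_lit 89) (.e (nat_lit 73782) (nat_lit 32) (.e (nat_lit 2856) (nat_lit 184) (.e (nat_lit 426539) (nat_lit 29) .nil))))) .nil))) (.nd (nat_lit 5) 
(.lf (nat_lit 186202) (.g (nat_lit 3191) (.e (nat_lit 57872) (nat_lit 264) (.e (nat_lit 1200) (nat_lit 88) (.e (nat_lit 65630) (nat_lit 14) (.e (nat_lit 401459) (nat_lit 13) (.e (nat_lit 483354) (nat_lit 17) (.e (nat_lit 7936) (nat_lit 343) (.e (nat_lit 1181) (nat_lit 87) .nil))))))) (.g (nat_lit 4) .nil .nil))) 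
(.lf (nat_lit 186234) (.g (nat_lit 2195) (.e (nat_lit 57872) (nat_lit 264) (.e (nat_lit 1211) (nat_lit 89) (.e (nat_lit 73781) (nat_lit 32) (.e (nat_lit 2854) (nat_lit 184) (.e (nat_lit 426542) (nat_lit 29) (.e (nat_lit 352309) (nat_lit 21) .nil)))))) (.g (nat_lit 0) .nil .nil)))))) (.nd (nat_lit 3) (.nd (nat_lit 4) (.nd (nat_lit 5) 
(.lf (nat_lit 186182) (.g (nat_lit 2172) (.e (nat_lit 57872) (nat_lit 264) (.e (nat_lit 1200) (nat_lit 88) (.e (nat_lit 65628) (nat_lit 14) (.e (nat_lit 401459) (nat_lit 13) (.e (nat_lit 483343) (nat_lit 17) .nil))))) .nil)) 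
(.lf (nat_lit 186214) (.g (nat_lit 2797) (.e (nat_lit 57872) (nat_lit 264) (.e (nat_lit 1209) (nat_lit 89) (.e (nat_lit 73781) (nat_lit 32) (.e (nat_lit 3090) (nat_lit 191) (.e (nat_lit 483350) (nat_lit 17) (.e (nat_lit 6490) (nat_lit 343) (.e (nat_lit 1179) (nat_lit 87) .nil))))))) (.g (nat_lit 5) .nil .nil)))) (.nd (nat_lit 5) 
(.lf (nat_lit 186198) (.g (nat_lit 3123) (.e (nat_lit 57872) (nat_lit 264) (.e (nat_lit 1200) (nat_lit 88) (.e (nat_lit 65630) (nat_lit 14) (.e (nat_lit 401459) (nat_lit 13) (.e (nat_lit 483343) (nat_lit 17) (.e (nat_lit 6479) (nat_lit 343) (.e (nat_lit 1181) (nat_lit 87) .nil))))))) (.g (nat_lit 4) .nil .nil))) 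
(.lf (nat_lit 186230) (.g (nat_lit 503) (.e (nat_lit 57872) (nat_lit 264) (.e (nat_lit 1209) (nat_lit 89) (.e (nat_lit 81664) (nat_lit 39) .nil))) .nil)))) (.nd (nat_lit 4) (.nd (nat_lit 5) 
(.lf (nat_lit 186190) (.g (nat_lit 3111) (.e (nat_lit 57872) (nat_lit 264) (.e (nat_lit 1200) (nat_lit 88) (.e (nat_lit 65629) (nat_lit 14) (.e (nat_lit 401459) (nat_lit 13) (.e (nat_lit 483354) (nat_lit 17) (.e (nat_lit 6493) (nat_lit 343) (.e (nat_lit 1179) (nat_lit 87) .nil))))))) (.g (nat_lit 4) .nil .nil))) 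
(.lf (nat_lit 186222) (.g (nat_lit 1630) (.e (nat_lit 57872) (nat_lit 264) (.e (nat_lit 1209) (nat_lit 89) (.e (nat_lit 73782) (nat_lit 32) (.e (nat_lit 3088) (nat_lit 191) (.e (nat_lit 483387) (nat_lit 23) .nil))))) .nil))) (.nd (nat_lit 5) 
(.lf (nat_lit 186206) (.g (nat_lit 508) (.e (nat_lit 57872) (nat_lit 264) (.e (nat_lit 1209) (nat_lit 89) (.e (nat_lit 73781) (nat_lit 32) .nil))) .nil)) 
(.lf (nat_lit 186238) (.g (nat_lit 1829) (.e (nat_lit 57872) (nat_lit 264) (.e (nat_lit 1211) (nat_lit 89) (.e (nat_lit 73781) (nat_lit 32) (.e (nat_lit 3087) (nat_lit 191) (.e (nat_lit 483378) (nat_lit 23) (.e (nat_lit 335997) (nat_lit 1) .nil)))))) (.g (nat_lit 0) .nil .nil)))))))) (.nd (nat_lit 1) (.nd (nat_lit 2) (.nd (nat_lit 3) (.nd (nat_lit 4) (.nd (nat_lit 5) 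
(.lf (nat_lit 186177) (.g (nat_lit 2018) (.e (nat_lit 57872) (nat_lit 264) (.e (nat_lit 1200) (nat_lit 88) (.e (nat_lit 65628) (nat_lit 14) (.e (nat_lit 401438) (nat_lit 9) (.e (nat_lit 426489) (nat_lit 27) .nil))))) .nil)) 
(.lf (nat_lit 186209) (.g (nat_lit 2409) (.e (nat_lit 57872) (nat_lit 264) (.e (nat_lit 1209) (nat_lit 89) (.e (nat_lit 73781) (nat_lit 32) (.e (nat_lit 2856) (nat_lit 184) (.e (nat_lit 426556) (nat_lit 32) (.e (nat_lit 376859) (nat_lit 21) .nil)))))) (.g (nat_lit 4) .nil .nil)))) (.nd (nat_lit 5) 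
(.lf (nat_lit 186193) (.g (nat_lit 2285) (.e (nat_lit 57872) (nat_lit 264) (.e (nat_lit 1200) (nat_lit 88) (.e (nat_lit 65630) (nat_lit 14) (.e (nat_lit 401437) (nat_lit 9) (.e (nat_lit 426556) (nat_lit 32) .nil))))) .nil)) 
(.lf (nat_lit 186225) (.g (nat_lit 2398) (.e (nat_lit 57872) (nat_lit 264) (.e (nat_lit 1209) (nat_lit 89) (.e (nat_lit 73782) (nat_lit 32) (.e (nat_lit 3090) (nat_lit 191) (.e (nat_lit 483350) (nat_lit 17) (.e (nat_lit 6490) (nat_lit 343) (.e (nat_lit 1179) (nat_lit 87) .nil))))))) (.g (nat_lit 5) .nil .nil))))) (.nd (nat_lit 4) (.nd (nat_lit 5) 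
(.lf (nat_lit 186185) (.g (nat_lit 2422) (.e (nat_lit 57872) (nat_lit 264) (.e (nat_lit 1200) (nat_lit 88) (.e (nat_lit 65628) (nat_lit 14) (.e (nat_lit 401459) (nat_lit 13) (.e (nat_lit 483354) (nat_lit 17) (.e (nat_lit 6493) (nat_lit 343) (.e (nat_lit 1179) (nat_lit 87) .nil))))))) (.g (nat_lit 4) .nil .nil))) 
(.lf (nat_lit 186217) (.g (nat_lit 2599) (.e (nat_lit 57872) (nat_lit 264) (.e (nat_lit 1209) (nat_lit 89) (.e (nat_lit 73782) (nat_lit 32) (.e (nat_lit 2856) (nat_lit 184) (.e (nat_lit 426491) (nat_lit 27) (.e (nat_lit 336157) (nat_lit 9) (.e (nat_lit 335995) (nat_lit 1) .nil))))))) (.g (nat_lit 4) .nil .nil)))) (.nd (nat_lit 5) 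
(.lf (nat_lit 186201) (.g (nat_lit 3671) (.e (nat_lit 57872) (nat_lit 264) (.e (nat_lit 1200) (nat_lit 88) (.e (nat_lit 65630) (nat_lit 14) (.e (nat_lit 401459) (nat_lit 13) (.e (nat_lit 483350) (nat_lit 17) (.e (nat_lit 6490) (nat_lit 343) (.e (nat_lit 1179) (nat_lit 87) .nil))))))) (.g (nat_lit 5) .nil .nil))) 
(.lf (nat_lit 186233) (.g (nat_lit 101) (.e (nat_lit 57872) (nat_lit 264) (.e (nat_lit 1210) (nat_lit 89) (.e (nat_lit 73779) (nat_lit 32) .nil))) .nil))))) (.nd (nat_lit 3) (.nd (nat_lit 4) (.nd (nat_lit 5) 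
(.lf (nat_lit 186181) (.g (nat_lit 1791) (.e (nat_lit 57872) (nat_lit 264) (.e (nat_lit 1200) (nat_lit 88) (.e (nat_lit 65628) (nat_lit 14) (.e (nat_lit 401458) (nat_lit 13) (.e (nat_lit 483389) (nat_lit 23) (.e (nat_lit 335991) (nat_lit 1) .nil)))))) (.g (nat_lit 4) .nil .nil))) 
(.lf (nat_lit 186213) (.g (nat_lit 1609) (.e (nat_lit 57872) (nat_lit 264) (.e (nat_lit 1209) (nat_lit 89) (.e (nat_lit 73781) (nat_lit 32) (.e (nat_lit 3088) (nat_lit 191) (.e (nat_lit 483392) (nat_lit 23) .nil))))) .nil))) (.nd (nat_lit 5) 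
(.lf (nat_lit 186197) (.g (nat_lit 1647) (.e (nat_lit 57872) (nat_lit 264) (.e (nat_lit 1200) (nat_lit 88) (.e (nat_lit 65630) (nat_lit 14) (.e (nat_lit 401458) (nat_lit 13) (.e (nat_lit 491264) (nat_lit 23) .nil))))) .nil)) 
(.lf (nat_lit 186229) (.g (nat_lit 503) (.e (nat_lit 57872) (nat_lit 264) (.e (nat_lit 1209) (nat_lit 89) (.e (nat_lit 81664) (nat_lit 36) .nil))) .nil)))) (.nd (nat_lit 4) (.nd (nat_lit 5) 
(.lf (nat_lit 186189) (.g (nat_lit 3215) (.e (nat_lit 57872) (nat_lit 264) (.e (nat_lit 1200) (nat_lit 88) (.e (nat_lit 65629) (nat_lit 14) (.e (nat_lit 401459) (nat_lit 13) (.e (nat_lit 483354) (nat_lit 17) (.e (nat_lit 6493) (nat_lit 343) (.e (nat_lit 1178) (nat_lit 87) .nil))))))) (.g (nat_lit 4) .nil .nil))) 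
(.lf (nat_lit 186221) (.g (nat_lit 1136) (.e (nat_lit 57872) (nat_lit 264) (.e (nat_lit 1209) (nat_lit 89) (.e (nat_lit 73782) (nat_lit 32) (.e (nat_lit 3087) (nat_lit 191) (.e (nat_lit 483389) (nat_lit 23) .nil))))) .nil))) (.nd (nat_lit 5) 
(.lf (nat_lit 186205) (.g (nat_lit 432) (.e (nat_lit 57872) (nat_lit 264) (.e (nat_lit 1209) (nat_lit 89) (.e (nat_lit 73780) (nat_lit 32) .nil))) .nil)) 
(.lf (nat_lit 186237) (.g (nat_lit 1723) (.e (nat_lit 57872) (nat_lit 264) (.e (nat_lit 1211) (nat_lit 89) (.e (nat_lit 73781) (nat_lit 32) (.e (nat_lit 2856) (nat_lit 184) (.e (nat_lit 426556) (nat_lit 32) .nil))))) .nil)))))) (.nd (nat_lit 2) (.nd (nat_lit 3) (.nd (nat_lit 4) (.nd (nat_lit 5) 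
(.lf (nat_lit 186179) (.g (nat_lit 1057) (.e (nat_lit 57872) (nat_lit 264) (.e (nat_lit 1200) (nat_lit 88) (.e (nat_lit 65628) (nat_lit 14) (.e (nat_lit 401457) (nat_lit 13) .nil)))) .nil)) 
(.lf (nat_lit 186211) (.g (nat_lit 962) (.e (nat_lit 57872) (nat_lit 264) (.e (nat_lit 1209) (nat_lit 89) (.e (nat_lit 73781) (nat_lit 32) (.e (nat_lit 3087) (nat_lit 191) .nil)))) .nil))) (.nd (nat_lit 5) 
(.lf (nat_lit 186195) (.g (nat_lit 1722) (.e (nat_lit 57872) (nat_lit 264) (.e (nat_lit 1200) (nat_lit 88) (.e (nat_lit 65630) (nat_lit 14) (.e (nat_lit 401457) (nat_lit 13) (.e (nat_lit 483389) (nat_lit 23) .nil))))) .nil)) 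
(.lf (nat_lit 186227) (.g (nat_lit 2509) (.e (nat_lit 57872) (nat_lit 264) (.e (nat_lit 1209) (nat_lit 89) (.e (nat_lit 73782) (nat_lit 32) (.e (nat_lit 3090) (nat_lit 191) (.e (nat_lit 483380) (nat_lit 23) (.e (nat_lit 343808) (nat_lit 1) .nil)))))) (.g (nat_lit 5) .nil .nil))))) (.nd (nat_lit 4) (.nd (nat_lit 5) 
(.lf (nat_lit 186187) (.g (nat_lit 3301) (.e (nat_lit 57872) (nat_lit 264) (.e (nat_lit 1200) (nat_lit 88) (.e (nat_lit 65628) (nat_lit 14) (.e (nat_lit 401459) (nat_lit 13) (.e (nat_lit 483380) (nat_lit 23) (.e (nat_lit 343808) (nat_lit 1) .nil)))))) (.g (nat_lit 5) .nil .nil))) 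
(.lf (nat_lit 186219) (.g (nat_lit 3980) (.e (nat_lit 57872) (nat_lit 264) (.e (nat_lit 1209) (nat_lit 89) (.e (nat_lit 73782) (nat_lit 32) (.e (nat_lit 2856) (nat_lit 184) (.e (nat_lit 426542) (nat_lit 29) (.e (nat_lit 352307) (nat_lit 21) .nil)))))) (.g (nat_lit 0) .nil .nil)))) (.nd (nat_lit 5) 
(.lf (nat_lit 186203) (.g (nat_lit 3294) (.e (nat_lit 57872) (nat_lit 264) (.e (nat_lit 1200) (nat_lit 88) (.e (nat_lit 65630) (nat_lit 14) (.e (nat_lit 401459) (nat_lit 13) (.e (nat_lit 483354) (nat_lit 17) (.e (nat_lit 7936) (nat_lit 343) (.e (nat_lit 1183) (nat_lit 87) .nil))))))) (.g (nat_lit 4) .nil .nil))) 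
(.lf (nat_lit 186235) (.g (nat_lit 2045) (.e (nat_lit 57872) (nat_lit 264) (.e (nat_lit 1211) (nat_lit 89) (.e (nat_lit 73781) (nat_lit 32) (.e (nat_lit 2856) (nat_lit 184) (.e (nat_lit 426491) (nat_lit 27) .nil))))) .nil))))) (.nd (nat_lit 3) (.nd (nat_lit 4) (.nd (nat_lit 5) 
(.lf (nat_lit 186183) (.g (nat_lit 3160) (.e (nat_lit 57872) (nat_lit 264) (.e (nat_lit 1200) (nat_lit 88) (.e (nat_lit 65628) (nat_lit 14) (.e (nat_lit 401459) (nat_lit 13) (.e (nat_lit 483344) (nat_lit 17) (.e (nat_lit 7936) (nat_lit 343) (.e (nat_lit 1183) (nat_lit 87) .nil))))))) (.g (nat_lit 5) .nil .nil))) 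
(.lf (nat_lit 186215) (.g (nat_lit 365) (.e (nat_lit 57872) (nat_lit 264) (.e (nat_lit 1209) (nat_lit 89) (.e (nat_lit 73782) (nat_lit 32) .nil))) .nil))) (.nd (nat_lit 5) 
(.lf (nat_lit 186199) (.g (nat_lit 2893) (.e (nat_lit 57872) (nat_lit 264) (.e (nat_lit 1200) (nat_lit 88) (.e (nat_lit 65630) (nat_lit 14) (.e (nat_lit 401459) (nat_lit 13) (.e (nat_lit 483347) (nat_lit 17) .nil))))) .nil)) 
(.lf (nat_lit 186231) (.g (nat_lit 479) (.e (nat_lit 57872) (nat_lit 264) (.e (nat_lit 1209) (nat_lit 89) (.e (nat_lit 73786) (nat_lit 45) .nil))) .nil)))) (.nd (nat_lit 4) (.nd (nat_lit 5) 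
(.lf (nat_lit 186191) (.g (nat_lit 3092) (.e (nat_lit 57872) (nat_lit 264) (.e (nat_lit 1200) (nat_lit 88) (.e (nat_lit 65629) (nat_lit 14) (.e (nat_lit 401459) (nat_lit 13) (.e (nat_lit 483393) (nat_lit 23) .nil))))) .nil)) 
(.lf (nat_lit 186223) (.g (nat_lit 1906) (.e (nat_lit 57872) (nat_lit 264) (.e (nat_lit 1209) (nat_lit 89) (.e (nat_lit 73782) (nat_lit 32) (.e (nat_lit 3088) (nat_lit 191) (.e (nat_lit 483389) (nat_lit 23) (.e (nat_lit 335991) (nat_lit 1) .nil)))))) (.g (nat_lit 4) .nil .nil)))) (.nd (nat_lit 5) 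
(.lf (nat_lit 186207) (.g (nat_lit 2355) (.e (nat_lit 57872) (nat_lit 264) (.e (nat_lit 1209) (nat_lit 89) (.e (nat_lit 73781) (nat_lit 32) (.e (nat_lit 2856) (nat_lit 184) (.e (nat_lit 426491) (nat_lit 27) .nil))))) .nil)) 
(.lf (nat_lit 186239) (.g (nat_lit 2155) (.e (nat_lit 57872) (nat_lit 264) (.e (nat_lit 1211) (nat_lit 89) (.e (nat_lit 73781) (nat_lit 32) (.e (nat_lit 3089) (nat_lit 191) (.e (nat_lit 483378) (nat_lit 23) (.e (nat_lit 335997) (nat_lit 1) .nil)))))) (.g (nat_lit 0) .nil .nil)))))))))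

noncomputable def tv2476 : DT := (.nd (nat_lit 0) (.nd (nat_lit 1) (.nd (nat_lit 2) (.nd (nat_lit 3) (.nd (nat_lit 4) (.nd (nat_lit 5) (.nd (nat_lit 6) 
(.lf (nat_lit 186240) (.g (nat_lit 1063) (.e (nat_lit 57872) (nat_lit 264) (.e (nat_lit 1211) (nat_lit 89) (.e (nat_lit 73781) (nat_lit 32) (.e (nat_lit 3089) (nat_lit 191) (.e (nat_lit 483389) (nat_lit 23) .nil))))) .nil)) 
(.lf (nat_lit 186304) (.g (nat_lit 3427) (.e (nat_lit 57872) (nat_lit 264) (.e (nat_lit 1221) (nat_lit 90) (.e (nat_lit 81947) (nat_lit 20) (.e (nat_lit 2005) (nat_lit 138) (.e (nat_lit 671762) (nat_lit 4) (.e (nat_lit 65604) (nat_lit 9) (.e (nat_lit 335997) (nat_lit 1) .nil))))))) (.g (nat_lit 6) .nil .nil)))) (.nd (nat_lit 6) 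
(.lf (nat_lit 186272) (.g (nat_lit 1670) (.e (nat_lit 57872) (nat_lit 264) (.e (nat_lit 1220) (nat_lit 90) (.e (nat_lit 81938) (nat_lit 20) (.e (nat_lit 2005) (nat_lit 138) (.e (nat_lit 671762) (nat_lit 4) .nil))))) .nil)) 
(.lf (nat_lit 186336) (.g (nat_lit 228) (.e (nat_lit 57872) (nat_lit 264) (.e (nat_lit 1221) (nat_lit 90) (.e (nat_lit 81959) (nat_lit 24) .nil))) .nil)))) (.nd (nat_lit 5) (.nd (nat_lit 6) 
(.lf (nat_lit 186256) (.g (nat_lit 335) (.e (nat_lit 57872) (nat_lit 264) (.e (nat_lit 1219) (nat_lit 90) (.e (nat_lit 81954) (nat_lit 23) .nil))) .nil)) 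
(.lf (nat_lit 186320) (.g (nat_lit 2670) (.e (nat_lit 57872) (nat_lit 264) (.e (nat_lit 1221) (nat_lit 90) (.e (nat_lit 81953) (nat_lit 22) (.e (nat_lit 90157) (nat_lit 11) .nil)))) .nil))) (.nd (nat_lit 6) 
(.lf (nat_lit 186288) (.g (nat_lit 1646) (.e (nat_lit 57872) (nat_lit 264) (.e (nat_lit 1220) (nat_lit 90) (.e (nat_lit 81959) (nat_lit 24) (.e (nat_lit 123185) (nat_lit 264) .nil)))) .nil)) 
(.lf (nat_lit 186352) (.g (nat_lit 1695) (.e (nat_lit 57872) (nat_lit 264) (.e (nat_lit 1221) (nat_lit 90) (.e (nat_lit 81959) (nat_lit 24) (.e (nat_lit 123195) (nat_lit 266) (.e (nat_lit 57403) (nat_lit 11) .nil))))) .nil))))) (.nd (nat_lit 4) (.nd (nat_lit 5) (.nd (nat_lit 6) 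
(.lf (nat_lit 186248) (.g (nat_lit 974) (.e (nat_lit 57872) (nat_lit 264) (.e (nat_lit 1219) (nat_lit 90) (.e (nat_lit 81946) (nat_lit 20) (.e (nat_lit 1014) (nat_lit 81) .nil)))) .nil)) 
(.lf (nat_lit 186312) (.g (nat_lit 1832) (.e (nat_lit 57872) (nat_lit 264) (.e (nat_lit 1221) (nat_lit 90) (.e (nat_lit 81950) (nat_lit 21) (.e (nat_lit 57873) (nat_lit 264) (.e (nat_lit 7936) (nat_lit 90) .nil))))) .nil))) (.nd (nat_lit 6) 
(.lf (nat_lit 186280) (.g (nat_lit 1600) (.e (nat_lit 57872) (nat_lit 264) (.e (nat_lit 1220) (nat_lit 90) (.e (nat_lit 81950) (nat_lit 21) (.e (nat_lit 65280) (nat_lit 267) .nil)))) .nil)) 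
(.lf (nat_lit 186344) (.g (nat_lit 2236) (.e (nat_lit 57872) (nat_lit 264) (.e (nat_lit 1221) (nat_lit 90) (.e (nat_lit 81959) (nat_lit 24) (.e (nat_lit 123189) (nat_lit 264) (.e (nat_lit 7936) (nat_lit 90) .nil))))) .nil)))) (.nd (nat_lit 5) (.nd (nat_lit 6) 
(.lf (nat_lit 186264) (.g (nat_lit 1180) (.e (nat_lit 57872) (nat_lit 264) (.e (nat_lit 1219) (nat_lit 90) (.e (nat_lit 81957) (nat_lit 24) (.e (nat_lit 123199) (nat_lit 267) .nil)))) .nil)) 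
(.lf (nat_lit 186328) (.g (nat_lit 2966) (.e (nat_lit 57872) (nat_lit 264) (.e (nat_lit 1221) (nat_lit 90) (.e (nat_lit 81956) (nat_lit 23) (.e (nat_lit 98320) (nat_lit 17) .nil)))) .nil))) (.nd (nat_lit 6) 
(.lf (nat_lit 186296) (.g (nat_lit 468) (.e (nat_lit 57872) (nat_lit 264) (.e (nat_lit 1221) (nat_lit 90) (.e (nat_lit 81933) (nat_lit 20) .nil))) .nil)) 
(.lf (nat_lit 186360) (.g (nat_lit 1948) (.e (nat_lit 57872) (nat_lit 264) (.e (nat_lit 1221) (nat_lit 90) (.e (nat_lit 81959) (nat_lit 24) (.e (nat_lit 123195) (nat_lit 266) (.e (nat_lit 65280) (nat_lit 14) .nil))))) .nil)))))) (.nd (nat_lit 3) (.nd (nat_lit 4) (.nd (nat_lit 5) (.nd (nat_lit 6) 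
(.lf (nat_lit 186244) (.g (nat_lit 159) (.e (nat_lit 57872) (nat_lit 264) (.e (nat_lit 1211) (nat_lit 89) (.e (nat_lit 81664) (nat_lit 32) .nil))) .nil)) 
(.lf (nat_lit 186308) (.g (nat_lit 3204) (.e (nat_lit 57872) (nat_lit 264) (.e (nat_lit 1221) (nat_lit 90) (.e (nat_lit 81950) (nat_lit 21) (.e (nat_lit 57870) (nat_lit 264) (.e (nat_lit 1189) (nat_lit 88) (.e (nat_lit 65604) (nat_lit 9) (.e (nat_lit 335997) (nat_lit 1) .nil))))))) (.g (nat_lit 0) .nil .nil)))) (.nd (nat_lit 6) 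
(.lf (nat_lit 186276) (.g (nat_lit 1771) (.e (nat_lit 57872) (nat_lit 264) (.e (nat_lit 1220) (nat_lit 90) (.e (nat_lit 81950) (nat_lit 21) (.e (nat_lit 57873) (nat_lit 264) (.e (nat_lit 1189) (nat_lit 88) .nil))))) .nil)) 
(.lf (nat_lit 186340) (.g (nat_lit 2244) (.e (nat_lit 57872) (nat_lit 264) (.e (nat_lit 1221) (nat_lit 90) (.e (nat_lit 81959) (nat_lit 24) (.e (nat_lit 123182) (nat_lit 264) (.e (nat_lit 1000) (nat_lit 81) (.e (nat_lit 1623) (nat_lit 113) (.e (nat_lit 376859) (nat_lit 21) .nil))))))) (.g (nat_lit 4) .nil .nil))))) (.nd (nat_lit 5) (.nd (nat_lit 6) 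
(.lf (nat_lit 186260) (.g (nat_lit 2390) (.e (nat_lit 57872) (nat_lit 264) (.e (nat_lit 1219) (nat_lit 90) (.e (nat_lit 81956) (nat_lit 23) (.e (nat_lit 98346) (nat_lit 22) (.e (nat_lit 253975) (nat_lit 9) .nil))))) .nil)) 
(.lf (nat_lit 186324) (.g (nat_lit 1672) (.e (nat_lit 57872) (nat_lit 264) (.e (nat_lit 1221) (nat_lit 90) (.e (nat_lit 81954) (nat_lit 23) (.e (nat_lit 98345) (nat_lit 22) (.e (nat_lit 253975) (nat_lit 9) .nil))))) .nil))) (.nd (nat_lit 6) 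
(.lf (nat_lit 186292) (.g (nat_lit 544) (.e (nat_lit 57872) (nat_lit 264) (.e (nat_lit 1221) (nat_lit 90) (.e (nat_lit 81929) (nat_lit 20) .nil))) .nil)) 
(.lf (nat_lit 186356) (.g (nat_lit 3081) (.e (nat_lit 57872) (nat_lit 264) (.e (nat_lit 1221) (nat_lit 90) (.e (nat_lit 81959) (nat_lit 24) (.e (nat_lit 123195) (nat_lit 266) (.e (nat_lit 57412) (nat_lit 12) (.e (nat_lit 336110) (nat_lit 9) (.e (nat_lit 335997) (nat_lit 1) .nil))))))) (.g (nat_lit 5) .nil .nil)))))) (.nd (nat_lit 4) (.nd (nat_lit 5) (.nd (nat_lit 6) 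
(.lf (nat_lit 186252) (.g (nat_lit 1832) (.e (nat_lit 57872) (nat_lit 264) (.e (nat_lit 1219) (nat_lit 90) (.e (nat_lit 81948) (nat_lit 21) (.e (nat_lit 57873) (nat_lit 264) (.e (nat_lit 7936) (nat_lit 90) (.e (nat_lit 81950) (nat_lit 21) .nil)))))) (.g (nat_lit 4) .nil .nil))) 
(.lf (nat_lit 186316) (.g (nat_lit 3973) (.e (nat_lit 57872) (nat_lit 264) (.e (nat_lit 1221) (nat_lit 90) (.e (nat_lit 81953) (nat_lit 22) (.e (nat_lit 90121) (nat_lit 9) (.e (nat_lit 305) (nat_lit 22) .nil))))) .nil))) (.nd (nat_lit 6) 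
(.lf (nat_lit 186284) (.g (nat_lit 2940) (.e (nat_lit 57872) (nat_lit 264) (.e (nat_lit 1220) (nat_lit 90) (.e (nat_lit 81956) (nat_lit 23) (.e (nat_lit 98346) (nat_lit 22) .nil)))) .nil)) 
(.lf (nat_lit 186348) (.g (nat_lit 1422) (.e (nat_lit 57872) (nat_lit 264) (.e (nat_lit 1221) (nat_lit 90) (.e (nat_lit 81959) (nat_lit 24) (.e (nat_lit 123194) (nat_lit 266) (.e (nat_lit 57435) (nat_lit 17) .nil))))) .nil)))) (.nd (nat_lit 5) (.nd (nat_lit 6) 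
(.lf (nat_lit 186268) (.g (nat_lit 553) (.e (nat_lit 57872) (nat_lit 264) (.e (nat_lit 1220) (nat_lit 90) (.e (nat_lit 81931) (nat_lit 20) .nil))) .nil)) 
(.lf (nat_lit 186332) (.g (nat_lit 3119) (.e (nat_lit 57872) (nat_lit 264) (.e (nat_lit 1221) (nat_lit 90) (.e (nat_lit 81956) (nat_lit 23) (.e (nat_lit 98345) (nat_lit 22) .nil)))) .nil))) (.nd (nat_lit 6) 
(.lf (nat_lit 186300) (.g (nat_lit 1233) (.e (nat_lit 57872) (nat_lit 264) (.e (nat_lit 1221) (nat_lit 90) (.e (nat_lit 81938) (nat_lit 20) (.e (nat_lit 2005) (nat_lit 138) (.e (nat_lit 671744) (nat_lit 0) .nil))))) .nil)) 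
(.lf (nat_lit 186364) (.g (nat_lit 1178) (.e (nat_lit 57872) (nat_lit 264) (.e (nat_lit 1221) (nat_lit 90) (.e (nat_lit 81959) (nat_lit 24) (.e (nat_lit 123229) (nat_lit 282) .nil)))) .nil))))))) (.nd (nat_lit 2) (.nd (nat_lit 3) (.nd (nat_lit 4) (.nd (nat_lit 5) (.nd (nat_lit 6) 
(.lf (nat_lit 186242) (.g (nat_lit 1221) (.e (nat_lit 57872) (nat_lit 264) (.e (nat_lit 1211) (nat_lit 89) (.e (nat_lit 73782) (nat_lit 32) (.e (nat_lit 3089) (nat_lit 191) (.e (nat_lit 483389) (nat_lit 23) .nil))))) .nil)) 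
(.lf (nat_lit 186306) (.g (nat_lit 1893) (.e (nat_lit 57872) (nat_lit 264) (.e (nat_lit 1221) (nat_lit 90) (.e (nat_lit 81948) (nat_lit 21) (.e (nat_lit 57873) (nat_lit 264) (.e (nat_lit 1189) (nat_lit 88) .nil))))) .nil))) (.nd (nat_lit 6) 
(.lf (nat_lit 186274) (.g (nat_lit 1605) (.e (nat_lit 57872) (nat_lit 264) (.e (nat_lit 1220) (nat_lit 90) (.e (nat_lit 81938) (nat_lit 20) (.e (nat_lit 2006) (nat_lit 138) (.e (nat_lit 671762) (nat_lit 4) .nil))))) .nil)) 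
(.lf (nat_lit 186338) (.g (nat_lit 2523) (.e (nat_lit 57872) (nat_lit 264) (.e (nat_lit 1221) (nat_lit 90) (.e (nat_lit 81959) (nat_lit 24) (.e (nat_lit 123182) (nat_lit 264) (.e (nat_lit 996) (nat_lit 81) (.e (nat_lit 1615) (nat_lit 113) (.e (nat_lit 376859) (nat_lit 21) .nil))))))) (.g (nat_lit 4) .nil .nil))))) (.nd (nat_lit 5) (.nd (nat_lit 6) 
(.lf (nat_lit 186258) (.g (nat_lit 1641) (.e (nat_lit 57872) (nat_lit 264) (.e (nat_lit 1219) (nat_lit 90) (.e (nat_lit 81956) (nat_lit 23) (.e (nat_lit 106240) (nat_lit 10) .nil)))) .nil)) 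
(.lf (nat_lit 186322) (.g (nat_lit 1170) (.e (nat_lit 57872) (nat_lit 264) (.e (nat_lit 1221) (nat_lit 90) (.e (nat_lit 81953) (nat_lit 22) (.e (nat_lit 90165) (nat_lit 12) .nil)))) .nil))) (.nd (nat_lit 6) 
(.lf (nat_lit 186290) (.g (nat_lit 429) (.e (nat_lit 57872) (nat_lit 264) (.e (nat_lit 1221) (nat_lit 90) (.e (nat_lit 81920) (nat_lit 0) .nil))) .nil)) 
(.lf (nat_lit 186354) (.g (nat_lit 3173) (.e (nat_lit 57872) (nat_lit 264) (.e (nat_lit 1221) (nat_lit 90) (.e (nat_lit 81959) (nat_lit 24) (.e (nat_lit 123195) (nat_lit 266) (.e (nat_lit 57412) (nat_lit 12) (.e (nat_lit 336097) (nat_lit 9) (.e (nat_lit 335997) (nat_lit 1) .nil))))))) (.g (nat_lit 5) .nil .nil)))))) (.nd (nat_lit 4) (.nd (nat_lit 5) (.nd (nat_lit 6) 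
(.lf (nat_lit 186250) (.g (nat_lit 1934) (.e (nat_lit 57872) (nat_lit 264) (.e (nat_lit 1219) (nat_lit 90) (.e (nat_lit 81948) (nat_lit 21) (.e (nat_lit 57873) (nat_lit 264) (.e (nat_lit 1189) (nat_lit 88) (.e (nat_lit 65604) (nat_lit 9) (.e (nat_lit 335997) (nat_lit 1) .nil))))))) (.g (nat_lit 4) .nil .nil))) 
(.lf (nat_lit 186314) (.g (nat_lit 563) (.e (nat_lit 57872) (nat_lit 264) (.e (nat_lit 1221) (nat_lit 90) (.e (nat_lit 81953) (nat_lit 22) .nil))) .nil))) (.nd (nat_lit 6) 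
(.lf (nat_lit 186282) (.g (nat_lit 2780) (.e (nat_lit 57872) (nat_lit 264) (.e (nat_lit 1220) (nat_lit 90) (.e (nat_lit 81956) (nat_lit 23) (.e (nat_lit 98321) (nat_lit 17) (.e (nat_lit 7936) (nat_lit 220) .nil))))) .nil)) 
(.lf (nat_lit 186346) (.g (nat_lit 2419) (.e (nat_lit 57872) (nat_lit 264) (.e (nat_lit 1221) (nat_lit 90) (.e (nat_lit 81959) (nat_lit 24) (.e (nat_lit 123191) (nat_lit 264) (.e (nat_lit 1219) (nat_lit 90) (.e (nat_lit 81948) (nat_lit 21) .nil)))))) (.g (nat_lit 6) .nil .nil))))) (.nd (nat_lit 5) (.nd (nat_lit 6) 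
(.lf (nat_lit 186266) (.g (nat_lit 429) (.e (nat_lit 57872) (nat_lit 264) (.e (nat_lit 1219) (nat_lit 90) (.e (nat_lit 81959) (nat_lit 24) .nil))) .nil)) 
(.lf (nat_lit 186330) (.g (nat_lit 1855) (.e (nat_lit 57872) (nat_lit 264) (.e (nat_lit 1221) (nat_lit 90) (.e (nat_lit 81956) (nat_lit 23) (.e (nat_lit 98325) (nat_lit 17) .nil)))) .nil))) (.nd (nat_lit 6) 
(.lf (nat_lit 186298) (.g (nat_lit 1154) (.e (nat_lit 57872) (nat_lit 264) (.e (nat_lit 1221) (nat_lit 90) (.e (nat_lit 81938) (nat_lit 20) (.e (nat_lit 1023) (nat_lit 81) .nil)))) .nil)) 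
(.lf (nat_lit 186362) (.g (nat_lit 1598) (.e (nat_lit 57872) (nat_lit 264) (.e (nat_lit 1221) (nat_lit 90) (.e (nat_lit 81959) (nat_lit 24) (.e (nat_lit 123195) (nat_lit 266) (.e (nat_lit 57438) (nat_lit 17) .nil))))) .nil)))))) (.nd (nat_lit 3) (.nd (nat_lit 4) (.nd (nat_lit 5) (.nd (nat_lit 6) 
(.lf (nat_lit 186246) (.g (nat_lit 281) (.e (nat_lit 57872) (nat_lit 264) (.e (nat_lit 1219) (nat_lit 90) (.e (nat_lit 81935) (nat_lit 20) .nil))) .nil)) 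
(.lf (nat_lit 186310) (.g (nat_lit 1933) (.e (nat_lit 57872) (nat_lit 264) (.e (nat_lit 1221) (nat_lit 90) (.e (nat_lit 81950) (nat_lit 21) (.e (nat_lit 57873) (nat_lit 264) (.e (nat_lit 993) (nat_lit 81) .nil))))) .nil))) (.nd (nat_lit 6) 
(.lf (nat_lit 186278) (.g (nat_lit 1766) (.e (nat_lit 57872) (nat_lit 264) (.e (nat_lit 1220) (nat_lit 90) (.e (nat_lit 81950) (nat_lit 21) (.e (nat_lit 57873) (nat_lit 264) (.e (nat_lit 7936) (nat_lit 90) (.e (nat_lit 81950) (nat_lit 21) .nil)))))) (.g (nat_lit 4) .nil .nil))) 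
(.lf (nat_lit 186342) (.g (nat_lit 2006) (.e (nat_lit 57872) (nat_lit 264) (.e (nat_lit 1221) (nat_lit 90) (.e (nat_lit 81959) (nat_lit 24) (.e (nat_lit 123182) (nat_lit 264) (.e (nat_lit 7936) (nat_lit 88) (.e (nat_lit 65604) (nat_lit 9) (.e (nat_lit 335997) (nat_lit 1) .nil))))))) (.g (nat_lit 4) .nil .nil))))) (.nd (nat_lit 5) (.nd (nat_lit 6) 
(.lf (nat_lit 186262) (.g (nat_lit 1481) (.e (nat_lit 57872) (nat_lit 264) (.e (nat_lit 1219) (nat_lit 90) (.e (nat_lit 81957) (nat_lit 24) (.e (nat_lit 123195) (nat_lit 266) (.e (nat_lit 57406) (nat_lit 12) .nil))))) .nil)) 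
(.lf (nat_lit 186326) (.g (nat_lit 2163) (.e (nat_lit 57872) (nat_lit 264) (.e (nat_lit 1221) (nat_lit 90) (.e (nat_lit 81956) (nat_lit 23) (.e (nat_lit 98319) (nat_lit 17) .nil)))) .nil))) (.nd (nat_lit 6) 
(.lf (nat_lit 186294) (.g (nat_lit 400) (.e (nat_lit 57872) (nat_lit 264) (.e (nat_lit 1221) (nat_lit 90) (.e (nat_lit 81931) (nat_lit 20) .nil))) .nil)) 
(.lf (nat_lit 186358) (.g (nat_lit 2795) (.e (nat_lit 57872) (nat_lit 264) (.e (nat_lit 1221) (nat_lit 90) (.e (nat_lit 81959) (nat_lit 24) (.e (nat_lit 123195) (nat_lit 266) (.e (nat_lit 57421) (nat_lit 13) (.e (nat_lit 352000) (nat_lit 8) (.e (nat_lit 1183) (nat_lit 87) .nil))))))) (.g (nat_lit 4) .nil .nil)))))) (.nd (nat_lit 4) (.nd (nat_lit 5) (.nd (nat_lit 6) 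
(.lf (nat_lit 186254) (.g (nat_lit 1963) (.e (nat_lit 57872) (nat_lit 264) (.e (nat_lit 1219) (nat_lit 90) (.e (nat_lit 81950) (nat_lit 21) (.e (nat_lit 57873) (nat_lit 264) (.e (nat_lit 1189) (nat_lit 88) .nil))))) .nil)) 
(.lf (nat_lit 186318) (.g (nat_lit 2189) (.e (nat_lit 57872) (nat_lit 264) (.e (nat_lit 1221) (nat_lit 90) (.e (nat_lit 81953) (nat_lit 22) (.e (nat_lit 90133) (nat_lit 9) (.e (nat_lit 2744) (nat_lit 174) .nil))))) .nil))) (.nd (nat_lit 6) 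
(.lf (nat_lit 186286) (.g (nat_lit 550) (.e (nat_lit 57872) (nat_lit 264) (.e (nat_lit 1220) (nat_lit 90) (.e (nat_lit 81959) (nat_lit 24) .nil))) .nil)) 
(.lf (nat_lit 186350) (.g (nat_lit 2215) (.e (nat_lit 57872) (nat_lit 264) (.e (nat_lit 1221) (nat_lit 90) (.e (nat_lit 81959) (nat_lit 24) (.e (nat_lit 123195) (nat_lit 266) (.e (nat_lit 57350) (nat_lit 0) (.e (nat_lit 6113) (nat_lit 332) (.e (nat_lit 2777) (nat_lit 178) (.e (nat_lit 286731) (nat_lit 1) .nil)))))))) (.g (nat_lit 4) .nil .nil))))) (.nd (nat_lit 5) (.nd (nat_lit 6) 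
(.lf (nat_lit 186270) (.g (nat_lit 1650) (.e (nat_lit 57872) (nat_lit 264) (.e (nat_lit 1220) (nat_lit 90) (.e (nat_lit 81938) (nat_lit 20) (.e (nat_lit 2003) (nat_lit 138) (.e (nat_lit 671762) (nat_lit 4) .nil))))) .nil)) 
(.lf (nat_lit 186334) (.g (nat_lit 2001) (.e (nat_lit 57872) (nat_lit 264) (.e (nat_lit 1221) (nat_lit 90) (.e (nat_lit 81957) (nat_lit 24) (.e (nat_lit 123184) (nat_lit 264) (.e (nat_lit 7936) (nat_lit 90) .nil))))) .nil))) (.nd (nat_lit 6) 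
(.lf (nat_lit 186302) (.g (nat_lit 490) (.e (nat_lit 57872) (nat_lit 264) (.e (nat_lit 1221) (nat_lit 90) (.e (nat_lit 81947) (nat_lit 20) .nil))) .nil)) 
(.lf (nat_lit 186366) (.g (nat_lit 608) (.e (nat_lit 57873) (nat_lit 264) (.e (nat_lit 1039) (nat_lit 81) (.e (nat_lit 1234) (nat_lit 91) (.e (nat_lit 98048) (nat_lit 6) .nil)))) .nil)))))))) (.nd (nat_lit 1) (.nd (nat_lit 2) (.nd (nat_lit 3) (.nd (nat_lit 4) (.nd (nat_lit 5) (.nd (nat_lit 6) 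
(.lf (nat_lit 186241) (.g (nat_lit 1386) (.e (nat_lit 57872) (nat_lit 264) (.e (nat_lit 1211) (nat_lit 89) (.e (nat_lit 73782) (nat_lit 32) (.e (nat_lit 3088) (nat_lit 191) (.e (nat_lit 483383) (nat_lit 23) .nil))))) .nil)) 
(.lf (nat_lit 186305) (.g (nat_lit 1800) (.e (nat_lit 57872) (nat_lit 264) (.e (nat_lit 1221) (nat_lit 90) (.e (nat_lit 81947) (nat_lit 20) (.e (nat_lit 2006) (nat_lit 138) (.e (nat_lit 671760) (nat_lit 4) .nil))))) .nil))) (.nd (nat_lit 6) 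
(.lf (nat_lit 186273) (.g (nat_lit 1388) (.e (nat_lit 57872) (nat_lit 264) (.e (nat_lit 1220) (nat_lit 90) (.e (nat_lit 81938) (nat_lit 20) (.e (nat_lit 2006) (nat_lit 138) .nil)))) .nil)) 
(.lf (nat_lit 186337) (.g (nat_lit 1477) (.e (nat_lit 57872) (nat_lit 264) (.e (nat_lit 1221) (nat_lit 90) (.e (nat_lit 81959) (nat_lit 24) (.e (nat_lit 123181) (nat_lit 264) (.e (nat_lit 1223) (nat_lit 90) .nil))))) .nil)))) (.nd (nat_lit 5) (.nd (nat_lit 6) 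
(.lf (nat_lit 186257) (.g (nat_lit 976) (.e (nat_lit 57872) (nat_lit 264) (.e (nat_lit 1219) (nat_lit 90) (.e (nat_lit 81954) (nat_lit 23) (.e (nat_lit 106240) (nat_lit 10) .nil)))) .nil)) 
(.lf (nat_lit 186321) (.g (nat_lit 2927) (.e (nat_lit 57872) (nat_lit 264) (.e (nat_lit 1221) (nat_lit 90) (.e (nat_lit 81953) (nat_lit 22) (.e (nat_lit 90160) (nat_lit 11) .nil)))) .nil))) (.nd (nat_lit 6) 
(.lf (nat_lit 186289) (.g (nat_lit 1628) (.e (nat_lit 57872) (nat_lit 264) (.e (nat_lit 1220) (nat_lit 90) (.e (nat_lit 81959) (nat_lit 24) (.e (nat_lit 123195) (nat_lit 266) .nil)))) .nil)) 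
(.lf (nat_lit 186353) (.g (nat_lit 2272) (.e (nat_lit 57872) (nat_lit 264) (.e (nat_lit 1221) (nat_lit 90) (.e (nat_lit 81959) (nat_lit 24) (.e (nat_lit 123195) (nat_lit 266) (.e (nat_lit 57404) (nat_lit 12) .nil))))) .nil))))) (.nd (nat_lit 4) (.nd (nat_lit 5) (.nd (nat_lit 6) 
(.lf (nat_lit 186249) (.g (nat_lit 1031) (.e (nat_lit 57872) (nat_lit 264) (.e (nat_lit 1219) (nat_lit 90) (.e (nat_lit 81947) (nat_lit 20) (.e (nat_lit 2005) (nat_lit 138) (.e (nat_lit 671744) (nat_lit 0) .nil))))) .nil)) 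
(.lf (nat_lit 186313) (.g (nat_lit 2312) (.e (nat_lit 57872) (nat_lit 264) (.e (nat_lit 1221) (nat_lit 90) (.e (nat_lit 81950) (nat_lit 21) (.e (nat_lit 57873) (nat_lit 264) (.e (nat_lit 7936) (nat_lit 90) (.e (nat_lit 81950) (nat_lit 21) .nil)))))) (.g (nat_lit 4) .nil .nil)))) (.nd (nat_lit 6) 
(.lf (nat_lit 186281) (.g (nat_lit 3424) (.e (nat_lit 57872) (nat_lit 264) (.e (nat_lit 1220) (nat_lit 90) (.e (nat_lit 81956) (nat_lit 23) (.e (nat_lit 98320) (nat_lit 17) .nil)))) .nil)) 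
(.lf (nat_lit 186345) (.g (nat_lit 1704) (.e (nat_lit 57872) (nat_lit 264) (.e (nat_lit 1221) (nat_lit 90) (.e (nat_lit 81959) (nat_lit 24) (.e (nat_lit 123190) (nat_lit 264) .nil)))) .nil)))) (.nd (nat_lit 5) (.nd (nat_lit 6) 
(.lf (nat_lit 186265) (.g (nat_lit 422) (.e (nat_lit 57872) (nat_lit 264) (.e (nat_lit 1219) (nat_lit 90) (.e (nat_lit 81958) (nat_lit 24) .nil))) .nil)) 
(.lf (nat_lit 186329) (.g (nat_lit 2365) (.e (nat_lit 57872) (nat_lit 264) (.e (nat_lit 1221) (nat_lit 90) (.e (nat_lit 81956) (nat_lit 23) (.e (nat_lit 98321) (nat_lit 17) (.e (nat_lit 7936) (nat_lit 220) .nil))))) .nil))) (.nd (nat_lit 6) 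
(.lf (nat_lit 186297) (.g (nat_lit 1090) (.e (nat_lit 57872) (nat_lit 264) (.e (nat_lit 1221) (nat_lit 90) (.e (nat_lit 81937) (nat_lit 20) (.e (nat_lit 1063) (nat_lit 81) .nil)))) .nil)) 
(.lf (nat_lit 186361) (.g (nat_lit 3470) (.e (nat_lit 57872) (nat_lit 264) (.e (nat_lit 1221) (nat_lit 90) (.e (nat_lit 81959) (nat_lit 24) (.e (nat_lit 123195) (nat_lit 266) (.e (nat_lit 57435) (nat_lit 17) (.e (nat_lit 376859) (nat_lit 21) .nil)))))) (.g (nat_lit 5) .nil .nil))))))) (.nd (nat_lit 3) (.nd (nat_lit 4) (.nd (nat_lit 5) (.nd (nat_lit 6) 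
(.lf (nat_lit 186245) (.g (nat_lit 352) (.e (nat_lit 57872) (nat_lit 264) (.e (nat_lit 1219) (nat_lit 90) (.e (nat_lit 81922) (nat_lit 0) .nil))) .nil)) 
(.lf (nat_lit 186309) (.g (nat_lit 1318) (.e (nat_lit 57872) (nat_lit 264) (.e (nat_lit 1221) (nat_lit 90) (.e (nat_lit 81950) (nat_lit 21) (.e (nat_lit 57871) (nat_lit 264) (.e (nat_lit 1221) (nat_lit 90) .nil))))) .nil))) (.nd (nat_lit 6) 
(.lf (nat_lit 186277) (.g (nat_lit 1657) (.e (nat_lit 57872) (nat_lit 264) (.e (nat_lit 1220) (nat_lit 90) (.e (nat_lit 81950) (nat_lit 21) (.e (nat_lit 57873) (nat_lit 264) (.e (nat_lit 7936) (nat_lit 90) .nil))))) .nil)) 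
(.lf (nat_lit 186341) (.g (nat_lit 1843) (.e (nat_lit 57872) (nat_lit 264) (.e (nat_lit 1221) (nat_lit 90) (.e (nat_lit 81959) (nat_lit 24) (.e (nat_lit 123182) (nat_lit 264) (.e (nat_lit 1016) (nat_lit 81) .nil))))) .nil)))) (.nd (nat_lit 5) (.nd (nat_lit 6) 
(.lf (nat_lit 186261) (.g (nat_lit 1848) (.e (nat_lit 57872) (nat_lit 264) (.e (nat_lit 1219) (nat_lit 90) (.e (nat_lit 81957) (nat_lit 24) (.e (nat_lit 123182) (nat_lit 264) (.e (nat_lit 1028) (nat_lit 81) .nil))))) .nil)) 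
(.lf (nat_lit 186325) (.g (nat_lit 2471) (.e (nat_lit 57872) (nat_lit 264) (.e (nat_lit 1221) (nat_lit 90) (.e (nat_lit 81956) (nat_lit 23) (.e (nat_lit 98313) (nat_lit 9) .nil)))) .nil))) (.nd (nat_lit 6) 
(.lf (nat_lit 186293) (.g (nat_lit 777) (.e (nat_lit 57872) (nat_lit 264) (.e (nat_lit 1221) (nat_lit 90) (.e (nat_lit 81929) (nat_lit 20) (.e (nat_lit 1103) (nat_lit 81) .nil)))) .nil)) 
(.lf (nat_lit 186357) (.g (nat_lit 2552) (.e (nat_lit 57872) (nat_lit 264) (.e (nat_lit 1221) (nat_lit 90) (.e (nat_lit 81959) (nat_lit 24) (.e (nat_lit 123195) (nat_lit 266) (.e (nat_lit 57420) (nat_lit 13) (.e (nat_lit 352000) (nat_lit 8) (.e (nat_lit 1183) (nat_lit 87) .nil))))))) (.g (nat_lit 4) .nil .nil)))))) (.nd (nat_lit 4) (.nd (nat_lit 5) (.nd (nat_lit 6) 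
(.lf (nat_lit 186253) (.g (nat_lit 2891) (.e (nat_lit 57872) (nat_lit 264) (.e (nat_lit 1219) (nat_lit 90) (.e (nat_lit 81950) (nat_lit 21) (.e (nat_lit 57872) (nat_lit 264) (.e (nat_lit 1219) (nat_lit 90) (.e (nat_lit 81948) (nat_lit 21) .nil)))))) (.g (nat_lit 5) .nil .nil))) 
(.lf (nat_lit 186317) (.g (nat_lit 3051) (.e (nat_lit 57872) (nat_lit 264) (.e (nat_lit 1221) (nat_lit 90) (.e (nat_lit 81953) (nat_lit 22) (.e (nat_lit 90125) (nat_lit 9) .nil)))) .nil))) (.nd (nat_lit 6) 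
(.lf (nat_lit 186285) (.g (nat_lit 550) (.e (nat_lit 57872) (nat_lit 264) (.e (nat_lit 1220) (nat_lit 90) (.e (nat_lit 81958) (nat_lit 24) .nil))) .nil)) 
(.lf (nat_lit 186349) (.g (nat_lit 871) (.e (nat_lit 57872) (nat_lit 264) (.e (nat_lit 1221) (nat_lit 90) (.e (nat_lit 81959) (nat_lit 24) (.e (nat_lit 123195) (nat_lit 266) .nil)))) .nil)))) (.nd (nat_lit 5) (.nd (nat_lit 6) 
(.lf (nat_lit 186269) (.g (nat_lit 1442) (.e (nat_lit 57872) (nat_lit 264) (.e (nat_lit 1220) (nat_lit 90) (.e (nat_lit 81938) (nat_lit 20) (.e (nat_lit 2003) (nat_lit 138) .nil)))) .nil)) 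
(.lf (nat_lit 186333) (.g (nat_lit 2527) (.e (nat_lit 57872) (nat_lit 264) (.e (nat_lit 1221) (nat_lit 90) (.e (nat_lit 81956) (nat_lit 23) (.e (nat_lit 98346) (nat_lit 22) .nil)))) .nil))) (.nd (nat_lit 6) 
(.lf (nat_lit 186301) (.g (nat_lit 542) (.e (nat_lit 57872) (nat_lit 264) (.e (nat_lit 1221) (nat_lit 90) (.e (nat_lit 81943) (nat_lit 20) .nil))) .nil)) 
(.lf (nat_lit 186365) (.g (nat_lit 1514) (.e (nat_lit 57872) (nat_lit 264) (.e (nat_lit 1221) (nat_lit 90) (.e (nat_lit 81959) (nat_lit 24) (.e (nat_lit 123229) (nat_lit 282) (.e (nat_lit 163947) (nat_lit 20) .nil))))) .nil))))))) (.nd (nat_lit 2) (.nd (nat_lit 3) (.nd (nat_lit 4) (.nd (nat_lit 5) (.nd (nat_lit 6) 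
(.lf (nat_lit 186243) (.g (nat_lit 1776) (.e (nat_lit 57872) (nat_lit 264) (.e (nat_lit 1211) (nat_lit 89) (.e (nat_lit 73782) (nat_lit 32) (.e (nat_lit 3090) (nat_lit 191) (.e (nat_lit 483392) (nat_lit 23) .nil))))) .nil)) 
(.lf (nat_lit 186307) (.g (nat_lit 1859) (.e (nat_lit 57872) (nat_lit 264) (.e (nat_lit 1221) (nat_lit 90) (.e (nat_lit 81948) (nat_lit 21) (.e (nat_lit 57873) (nat_lit 264) (.e (nat_lit 7936) (nat_lit 90) .nil))))) .nil))) (.nd (nat_lit 6) 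
(.lf (nat_lit 186275) (.g (nat_lit 550) (.e (nat_lit 57872) (nat_lit 264) (.e (nat_lit 1220) (nat_lit 90) (.e (nat_lit 81948) (nat_lit 21) .nil))) .nil)) 
(.lf (nat_lit 186339) (.g (nat_lit 1779) (.e (nat_lit 57872) (nat_lit 264) (.e (nat_lit 1221) (nat_lit 90) (.e (nat_lit 81959) (nat_lit 24) (.e (nat_lit 123182) (nat_lit 264) (.e (nat_lit 997) (nat_lit 81) (.e (nat_lit 1615) (nat_lit 113) (.e (nat_lit 376858) (nat_lit 21) .nil))))))) (.g (nat_lit 4) .nil .nil))))) (.nd (nat_lit 5) (.nd (nat_lit 6) 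
(.lf (nat_lit 186259) (.g (nat_lit 1941) (.e (nat_lit 57872) (nat_lit 264) (.e (nat_lit 1219) (nat_lit 90) (.e (nat_lit 81956) (nat_lit 23) (.e (nat_lit 98346) (nat_lit 22) .nil)))) .nil)) 
(.lf (nat_lit 186323) (.g (nat_lit 499) (.e (nat_lit 57872) (nat_lit 264) (.e (nat_lit 1221) (nat_lit 90) (.e (nat_lit 81954) (nat_lit 23) .nil))) .nil))) (.nd (nat_lit 6) 
(.lf (nat_lit 186291) (.g (nat_lit 526) (.e (nat_lit 57872) (nat_lit 264) (.e (nat_lit 1221) (nat_lit 90) (.e (nat_lit 81922) (nat_lit 0) .nil))) .nil)) 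
(.lf (nat_lit 186355) (.g (nat_lit 3115) (.e (nat_lit 57872) (nat_lit 264) (.e (nat_lit 1221) (nat_lit 90) (.e (nat_lit 81959) (nat_lit 24) (.e (nat_lit 123195) (nat_lit 266) (.e (nat_lit 57412) (nat_lit 12) (.e (nat_lit 336104) (nat_lit 9) (.e (nat_lit 335997) (nat_lit 1) .nil))))))) (.g (nat_lit 5) .nil .nil)))))) (.nd (nat_lit 4) (.nd (nat_lit 5) (.nd (nat_lit 6) 
(.lf (nat_lit 186251) (.g (nat_lit 1476) (.e (nat_lit 57872) (nat_lit 264) (.e (nat_lit 1219) (nat_lit 90) (.e (nat_lit 81948) (nat_lit 21) (.e (nat_lit 57873) (nat_lit 264) (.e (nat_lit 7936) (nat_lit 90) .nil))))) .nil)) 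
(.lf (nat_lit 186315) (.g (nat_lit 3700) (.e (nat_lit 57872) (nat_lit 264) (.e (nat_lit 1221) (nat_lit 90) (.e (nat_lit 81953) (nat_lit 22) (.e (nat_lit 90121) (nat_lit 9) .nil)))) .nil))) (.nd (nat_lit 6) 
(.lf (nat_lit 186283) (.g (nat_lit 3470) (.e (nat_lit 57872) (nat_lit 264) (.e (nat_lit 1220) (nat_lit 90) (.e (nat_lit 81956) (nat_lit 23) (.e (nat_lit 98345) (nat_lit 22) .nil)))) .nil)) 
(.lf (nat_lit 186347) (.g (nat_lit 1082) (.e (nat_lit 57872) (nat_lit 264) (.e (nat_lit 1221) (nat_lit 90) (.e (nat_lit 81959) (nat_lit 24) (.e (nat_lit 123194) (nat_lit 266) .nil)))) .nil)))) (.nd (nat_lit 5) (.nd (nat_lit 6) 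
(.lf (nat_lit 186267) (.g (nat_lit 528) (.e (nat_lit 57872) (nat_lit 264) (.e (nat_lit 1220) (nat_lit 90) (.e (nat_lit 89856) (nat_lit 8) .nil))) .nil)) 
(.lf (nat_lit 186331) (.g (nat_lit 1964) (.e (nat_lit 57872) (nat_lit 264) (.e (nat_lit 1221) (nat_lit 90) (.e (nat_lit 81956) (nat_lit 23) (.e (nat_lit 98334) (nat_lit 18) .nil)))) .nil))) (.nd (nat_lit 6) 
(.lf (nat_lit 186299) (.g (nat_lit 1154) (.e (nat_lit 57872) (nat_lit 264) (.e (nat_lit 1221) (nat_lit 90) (.e (nat_lit 81938) (nat_lit 20) (.e (nat_lit 2004) (nat_lit 138) .nil)))) .nil)) 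
(.lf (nat_lit 186363) (.g (nat_lit 1226) (.e (nat_lit 57872) (nat_lit 264) (.e (nat_lit 1221) (nat_lit 90) (.e (nat_lit 81959) (nat_lit 24) (.e (nat_lit 123198) (nat_lit 266) .nil)))) .nil)))))) (.nd (nat_lit 3) (.nd (nat_lit 4) (.nd (nat_lit 5) (.nd (nat_lit 6) 
(.lf (nat_lit 186247) (.g (nat_lit 265) (.e (nat_lit 57872) (nat_lit 264) (.e (nat_lit 1219) (nat_lit 90) (.e (nat_lit 81943) (nat_lit 20) .nil))) .nil)) 
(.lf (nat_lit 186311) (.g (nat_lit 2402) (.e (nat_lit 57872) (nat_lit 264) (.e (nat_lit 1221) (nat_lit 90) (.e (nat_lit 81950) (nat_lit 21) (.e (nat_lit 57873) (nat_lit 264) (.e (nat_lit 1189) (nat_lit 88) (.e (nat_lit 65604) (nat_lit 9) (.e (nat_lit 335997) (nat_lit 1) .nil))))))) (.g (nat_lit 4) .nil .nil)))) (.nd (nat_lit 6) 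
(.lf (nat_lit 186279) (.g (nat_lit 1600) (.e (nat_lit 57872) (nat_lit 264) (.e (nat_lit 1220) (nat_lit 90) (.e (nat_lit 81950) (nat_lit 21) (.e (nat_lit 65280) (nat_lit 266) .nil)))) .nil)) 
(.lf (nat_lit 186343) (.g (nat_lit 1698) (.e (nat_lit 57872) (nat_lit 264) (.e (nat_lit 1221) (nat_lit 90) (.e (nat_lit 81959) (nat_lit 24) (.e (nat_lit 123182) (nat_lit 264) (.e (nat_lit 7936) (nat_lit 96) .nil))))) .nil)))) (.nd (nat_lit 5) (.nd (nat_lit 6) 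
(.lf (nat_lit 186263) (.g (nat_lit 1370) (.e (nat_lit 57872) (nat_lit 264) (.e (nat_lit 1219) (nat_lit 90) (.e (nat_lit 81957) (nat_lit 24) (.e (nat_lit 123197) (nat_lit 266) (.e (nat_lit 57406) (nat_lit 12) .nil))))) .nil)) 
(.lf (nat_lit 186327) (.g (nat_lit 2810) (.e (nat_lit 57872) (nat_lit 264) (.e (nat_lit 1221) (nat_lit 90) (.e (nat_lit 81956) (nat_lit 23) (.e (nat_lit 98319) (nat_lit 17) (.e (nat_lit 7936) (nat_lit 220) .nil))))) .nil))) (.nd (nat_lit 6) 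
(.lf (nat_lit 186295) (.g (nat_lit 542) (.e (nat_lit 57872) (nat_lit 264) (.e (nat_lit 1221) (nat_lit 90) (.e (nat_lit 81932) (nat_lit 20) .nil))) .nil)) 
(.lf (nat_lit 186359) (.g (nat_lit 2501) (.e (nat_lit 57872) (nat_lit 264) (.e (nat_lit 1221) (nat_lit 90) (.e (nat_lit 81959) (nat_lit 24) (.e (nat_lit 123195) (nat_lit 266) (.e (nat_lit 57422) (nat_lit 13) (.e (nat_lit 352000) (nat_lit 8) (.e (nat_lit 1183) (nat_lit 87) .nil))))))) (.g (nat_lit 4) .nil .nil)))))) (.nd (nat_lit 4) (.nd (nat_lit 5) (.nd (nat_lit 6) 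
(.lf (nat_lit 186255) (.g (nat_lit 1849) (.e (nat_lit 57872) (nat_lit 264) (.e (nat_lit 1219) (nat_lit 90) (.e (nat_lit 81950) (nat_lit 21) (.e (nat_lit 57873) (nat_lit 264) (.e (nat_lit 7936) (nat_lit 90) .nil))))) .nil)) 
(.lf (nat_lit 186319) (.g (nat_lit 2810) (.e (nat_lit 57872) (nat_lit 264) (.e (nat_lit 1221) (nat_lit 90) (.e (nat_lit 81953) (nat_lit 22) (.e (nat_lit 90134) (nat_lit 9) (.e (nat_lit 2741) (nat_lit 174) (.e (nat_lit 253975) (nat_lit 9) (.e (nat_lit 1281) (nat_lit 94) (.e (nat_lit 114711) (nat_lit 21) .nil)))))))) (.g (nat_lit 4) .nil .nil)))) (.nd (nat_lit 6) 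
(.lf (nat_lit 186287) (.g (nat_lit 1582) (.e (nat_lit 57872) (nat_lit 264) (.e (nat_lit 1220) (nat_lit 90) (.e (nat_lit 81959) (nat_lit 24) (.e (nat_lit 123182) (nat_lit 264) .nil)))) .nil)) 
(.lf (nat_lit 186351) (.g (nat_lit 2120) (.e (nat_lit 57872) (nat_lit 264) (.e (nat_lit 1221) (nat_lit 90) (.e (nat_lit 81959) (nat_lit 24) (.e (nat_lit 123195) (nat_lit 266) (.e (nat_lit 57400) (nat_lit 10) (.e (nat_lit 319490) (nat_lit 0) (.e (nat_lit 5293) (nat_lit 298) (.e (nat_lit 1176) (nat_lit 87) .nil)))))))) (.g (nat_lit 4) .nil .nil))))) (.nd (nat_lit 5) (.nd (nat_lit 6) 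
(.lf (nat_lit 186271) (.g (nat_lit 1428) (.e (nat_lit 57872) (nat_lit 264) (.e (nat_lit 1220) (nat_lit 90) (.e (nat_lit 81938) (nat_lit 20) (.e (nat_lit 2005) (nat_lit 138) .nil)))) .nil)) 
(.lf (nat_lit 186335) (.g (nat_lit 438) (.e (nat_lit 57872) (nat_lit 264) (.e (nat_lit 1221) (nat_lit 90) (.e (nat_lit 81958) (nat_lit 24) .nil))) .nil))) (.nd (nat_lit 6) 
(.lf (nat_lit 186303) (.g (nat_lit 1651) (.e (nat_lit 57872) (nat_lit 264) (.e (nat_lit 1221) (nat_lit 90) (.e (nat_lit 81947) (nat_lit 20) (.e (nat_lit 2005) (nat_lit 138) (.e (nat_lit 671744) (nat_lit 0) .nil))))) .nil)) 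
(.lf (nat_lit 186367) (.g (nat_lit 582) (.e (nat_lit 57873) (nat_lit 264) (.e (nat_lit 1086) (nat_lit 81) (.e (nat_lit 1234) (nat_lit 91) (.e (nat_lit 98048) (nat_lit 6) .nil)))) .nil)))))))))

noncomputable def tv2477 : DT := (.nd (nat_lit 0) (.nd (nat_lit 1) (.nd (nat_lit 2) (.nd (nat_lit 3) (.nd (nat_lit 4) (.nd (nat_lit 5) 
(.lf (nat_lit 186368) (.g (nat_lit 4080) (.e (nat_lit 57873) (nat_lit 264) (.e (nat_lit 1169) (nat_lit 87) (.e (nat_lit 57480) (nat_lit 28) (.e (nat_lit 557108) (nat_lit 15) (.e (nat_lit 188452) (nat_lit 23) (.e (nat_lit 204852) (nat_lit 26) (.e (nat_lit 343808) (nat_lit 1) .nil))))))) (.g (nat_lit 5) .nil .nil))) 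
(.lf (nat_lit 186400) (.g (nat_lit 3988) (.e (nat_lit 57873) (nat_lit 264) (.e (nat_lit 1181) (nat_lit 87) (.e (nat_lit 57480) (nat_lit 28) (.e (nat_lit 557107) (nat_lit 15) (.e (nat_lit 188450) (nat_lit 23) (.e (nat_lit 204855) (nat_lit 26) (.e (nat_lit 335985) (nat_lit 1) .nil))))))) (.g (nat_lit 6) .nil .nil)))) (.nd (nat_lit 5) 
(.lf (nat_lit 186384) (.g (nat_lit 4596) (.e (nat_lit 57873) (nat_lit 264) (.e (nat_lit 1181) (nat_lit 87) (.e (nat_lit 57478) (nat_lit 28) (.e (nat_lit 557101) (nat_lit 13) (.e (nat_lit 172115) (nat_lit 10) (.e (nat_lit 434231) (nat_lit 23) (.e (nat_lit 532535) (nat_lit 9) (.e (nat_lit 335985) (nat_lit 1) .nil)))))))) (.g (nat_lit 8) .nil .nil))) 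
(.lf (nat_lit 186416) (.g (nat_lit 1512) (.e (nat_lit 57873) (nat_lit 264) (.e (nat_lit 1189) (nat_lit 88) (.e (nat_lit 65624) (nat_lit 12) (.e (nat_lit 385092) (nat_lit 49) (.e (nat_lit 778326) (nat_lit 6) .nil))))) .nil)))) (.nd (nat_lit 4) (.nd (nat_lit 5) 
(.lf (nat_lit 186376) (.g (nat_lit 4030) (.e (nat_lit 57873) (nat_lit 264) (.e (nat_lit 1172) (nat_lit 87) (.e (nat_lit 57478) (nat_lit 28) (.e (nat_lit 557109) (nat_lit 15) (.e (nat_lit 188452) (nat_lit 23) (.e (nat_lit 204852) (nat_lit 26) (.e (nat_lit 343808) (nat_lit 1) .nil))))))) (.g (nat_lit 6) .nil .nil))) 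
(.lf (nat_lit 186408) (.g (nat_lit 4049) (.e (nat_lit 57873) (nat_lit 264) (.e (nat_lit 1182) (nat_lit 87) (.e (nat_lit 57478) (nat_lit 28) (.e (nat_lit 557109) (nat_lit 15) (.e (nat_lit 188452) (nat_lit 23) (.e (nat_lit 204852) (nat_lit 26) (.e (nat_lit 343808) (nat_lit 1) .nil))))))) (.g (nat_lit 6) .nil .nil)))) (.nd (nat_lit 5) 
(.lf (nat_lit 186392) (.g (nat_lit 4424) (.e (nat_lit 57873) (nat_lit 264) (.e (nat_lit 1181) (nat_lit 87) (.e (nat_lit 57478) (nat_lit 28) (.e (nat_lit 557109) (nat_lit 15) (.e (nat_lit 188452) (nat_lit 23) (.e (nat_lit 204855) (nat_lit 26) (.e (nat_lit 335985) (nat_lit 1) .nil))))))) (.g (nat_lit 7) .nil .nil))) 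
(.lf (nat_lit 186424) (.g (nat_lit 1690) (.e (nat_lit 57873) (nat_lit 264) (.e (nat_lit 1190) (nat_lit 88) (.e (nat_lit 65623) (nat_lit 12) (.e (nat_lit 385093) (nat_lit 49) (.e (nat_lit 778326) (nat_lit 6) .nil))))) .nil))))) (.nd (nat_lit 3) (.nd (nat_lit 4) (.nd (nat_lit 5) 
(.lf (nat_lit 186372) (.g (nat_lit 3855) (.e (nat_lit 57873) (nat_lit 264) (.e (nat_lit 1170) (nat_lit 87) (.e (nat_lit 57480) (nat_lit 28) (.e (nat_lit 557109) (nat_lit 15) (.e (nat_lit 188452) (nat_lit 23) (.e (nat_lit 204852) (nat_lit 26) (.e (nat_lit 343808) (nat_lit 1) .nil))))))) (.g (nat_lit 6) .nil .nil))) 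
(.lf (nat_lit 186404) (.g (nat_lit 4701) (.e (nat_lit 57873) (nat_lit 264) (.e (nat_lit 1181) (nat_lit 87) (.e (nat_lit 57480) (nat_lit 28) (.e (nat_lit 557109) (nat_lit 15) (.e (nat_lit 188452) (nat_lit 23) (.e (nat_lit 204852) (nat_lit 26) (.e (nat_lit 343808) (nat_lit 1) .nil))))))) (.g (nat_lit 6) .nil .nil)))) (.nd (nat_lit 5) 
(.lf (nat_lit 186388) (.g (nat_lit 5051) (.e (nat_lit 57873) (nat_lit 264) (.e (nat_lit 1181) (nat_lit 87) (.e (nat_lit 57478) (nat_lit 28) (.e (nat_lit 557108) (nat_lit 15) (.e (nat_lit 188452) (nat_lit 23) (.e (nat_lit 204852) (nat_lit 26) (.e (nat_lit 343808) (nat_lit 1) .nil))))))) (.g (nat_lit 6) .nil .nil))) 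
(.lf (nat_lit 186420) (.g (nat_lit 2875) (.e (nat_lit 57873) (nat_lit 264) (.e (nat_lit 1189) (nat_lit 88) (.e (nat_lit 65628) (nat_lit 14) (.e (nat_lit 401459) (nat_lit 13) (.e (nat_lit 483391) (nat_lit 23) (.e (nat_lit 335998) (nat_lit 1) .nil)))))) (.g (nat_lit 4) .nil .nil))))) (.nd (nat_lit 4) (.nd (nat_lit 5) 
(.lf (nat_lit 186380) (.g (nat_lit 4301) (.e (nat_lit 57873) (nat_lit 264) (.e (nat_lit 1181) (nat_lit 87) (.e (nat_lit 57478) (nat_lit 28) (.e (nat_lit 557098) (nat_lit 13) (.e (nat_lit 172097) (nat_lit 9) (.e (nat_lit 426140) (nat_lit 3) (.e (nat_lit 204855) (nat_lit 26) (.e (nat_lit 335985) (nat_lit 1) .nil)))))))) (.g (nat_lit 8) .nil .nil))) 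
(.lf (nat_lit 186412) (.g (nat_lit 4061) (.e (nat_lit 57873) (nat_lit 264) (.e (nat_lit 1182) (nat_lit 87) (.e (nat_lit 57480) (nat_lit 28) (.e (nat_lit 557108) (nat_lit 15) (.e (nat_lit 188452) (nat_lit 23) (.e (nat_lit 204852) (nat_lit 26) (.e (nat_lit 343808) (nat_lit 1) .nil))))))) (.g (nat_lit 6) .nil .nil)))) (.nd (nat_lit 5) 
(.lf (nat_lit 186396) (.g (nat_lit 4433) (.e (nat_lit 57873) (nat_lit 264) (.e (nat_lit 1181) (nat_lit 87) (.e (nat_lit 57480) (nat_lit 28) (.e (nat_lit 557107) (nat_lit 15) (.e (nat_lit 188447) (nat_lit 22) (.e (nat_lit 196666) (nat_lit 13) (.e (nat_lit 65563) (nat_lit 1) .nil))))))) (.g (nat_lit 6) .nil .nil))) 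
(.lf (nat_lit 186428) (.g (nat_lit 2112) (.e (nat_lit 57873) (nat_lit 264) (.e (nat_lit 1190) (nat_lit 88) (.e (nat_lit 65628) (nat_lit 14) (.e (nat_lit 401435) (nat_lit 9) (.e (nat_lit 426555) (nat_lit 32) .nil))))) .nil)))))) (.nd (nat_lit 2) (.nd (nat_lit 3) (.nd (nat_lit 4) (.nd (nat_lit 5) 
(.lf (nat_lit 186370) (.g (nat_lit 3175) (.e (nat_lit 57873) (nat_lit 264) (.e (nat_lit 1170) (nat_lit 87) (.e (nat_lit 57477) (nat_lit 28) (.e (nat_lit 557108) (nat_lit 15) (.e (nat_lit 188452) (nat_lit 23) (.e (nat_lit 204852) (nat_lit 26) (.e (nat_lit 343808) (nat_lit 1) .nil))))))) (.g (nat_lit 6) .nil .nil))) 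
(.lf (nat_lit 186402) (.g (nat_lit 4657) (.e (nat_lit 57873) (nat_lit 264) (.e (nat_lit 1181) (nat_lit 87) (.e (nat_lit 57480) (nat_lit 28) (.e (nat_lit 557108) (nat_lit 15) (.e (nat_lit 188452) (nat_lit 23) (.e (nat_lit 204852) (nat_lit 26) (.e (nat_lit 343808) (nat_lit 1) .nil))))))) (.g (nat_lit 5) .nil .nil)))) (.nd (nat_lit 5) 
(.lf (nat_lit 186386) (.g (nat_lit 3865) (.e (nat_lit 57873) (nat_lit 264) (.e (nat_lit 1181) (nat_lit 87) (.e (nat_lit 57478) (nat_lit 28) (.e (nat_lit 557107) (nat_lit 15) (.e (nat_lit 188447) (nat_lit 22) (.e (nat_lit 196681) (nat_lit 17) (.e (nat_lit 131088) (nat_lit 1) .nil))))))) (.g (nat_lit 5) .nil .nil))) 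
(.lf (nat_lit 186418) (.g (nat_lit 818) (.e (nat_lit 57873) (nat_lit 264) (.e (nat_lit 1189) (nat_lit 88) (.e (nat_lit 65624) (nat_lit 12) (.e (nat_lit 385094) (nat_lit 49) .nil)))) .nil)))) (.nd (nat_lit 4) (.nd (nat_lit 5) 
(.lf (nat_lit 186378) (.g (nat_lit 4706) (.e (nat_lit 57873) (nat_lit 264) (.e (nat_lit 1181) (nat_lit 87) (.e (nat_lit 57478) (nat_lit 28) (.e (nat_lit 557098) (nat_lit 13) (.e (nat_lit 172097) (nat_lit 9) (.e (nat_lit 426125) (nat_lit 2) (.e (nat_lit 196666) (nat_lit 13) (.e (nat_lit 65563) (nat_lit 1) .nil)))))))) (.g (nat_lit 8) .nil .nil))) 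
(.lf (nat_lit 186410) (.g (nat_lit 4578) (.e (nat_lit 57873) (nat_lit 264) (.e (nat_lit 1182) (nat_lit 87) (.e (nat_lit 57479) (nat_lit 28) (.e (nat_lit 557100) (nat_lit 13) (.e (nat_lit 172106) (nat_lit 10) (.e (nat_lit 434231) (nat_lit 23) (.e (nat_lit 532535) (nat_lit 9) (.e (nat_lit 335985) (nat_lit 1) .nil)))))))) (.g (nat_lit 7) .nil .nil)))) (.nd (nat_lit 5) 
(.lf (nat_lit 186394) (.g (nat_lit 5078) (.e (nat_lit 57873) (nat_lit 264) (.e (nat_lit 1181) (nat_lit 87) (.e (nat_lit 57479) (nat_lit 28) (.e (nat_lit 557095) (nat_lit 13) (.e (nat_lit 172115) (nat_lit 10) (.e (nat_lit 434231) (nat_lit 23) (.e (nat_lit 532535) (nat_lit 9) (.e (nat_lit 335985) (nat_lit 1) .nil)))))))) (.g (nat_lit 7) .nil .nil))) 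
(.lf (nat_lit 186426) (.g (nat_lit 1929) (.e (nat_lit 57873) (nat_lit 264) (.e (nat_lit 1190) (nat_lit 88) (.e (nat_lit 65624) (nat_lit 12) (.e (nat_lit 385094) (nat_lit 49) (.e (nat_lit 778327) (nat_lit 6) .nil))))) .nil))))) (.nd (nat_lit 3) (.nd (nat_lit 4) (.nd (nat_lit 5) 
(.lf (nat_lit 186374) (.g (nat_lit 3536) (.e (nat_lit 57873) (nat_lit 264) (.e (nat_lit 1172) (nat_lit 87) (.e (nat_lit 57476) (nat_lit 28) (.e (nat_lit 557108) (nat_lit 15) (.e (nat_lit 188452) (nat_lit 23) (.e (nat_lit 204852) (nat_lit 26) (.e (nat_lit 343808) (nat_lit 1) .nil))))))) (.g (nat_lit 6) .nil .nil))) 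
(.lf (nat_lit 186406) (.g (nat_lit 3072) (.e (nat_lit 57873) (nat_lit 264) (.e (nat_lit 1182) (nat_lit 87) (.e (nat_lit 57478) (nat_lit 28) (.e (nat_lit 557107) (nat_lit 15) (.e (nat_lit 188450) (nat_lit 23) (.e (nat_lit 204852) (nat_lit 26) (.e (nat_lit 343808) (nat_lit 1) .nil))))))) (.g (nat_lit 6) .nil .nil)))) (.nd (nat_lit 5) 
(.lf (nat_lit 186390) (.g (nat_lit 4502) (.e (nat_lit 57873) (nat_lit 264) (.e (nat_lit 1181) (nat_lit 87) (.e (nat_lit 57478) (nat_lit 28) (.e (nat_lit 557109) (nat_lit 15) (.e (nat_lit 188449) (nat_lit 22) (.e (nat_lit 196666) (nat_lit 13) (.e (nat_lit 65565) (nat_lit 1) .nil))))))) (.g (nat_lit 7) .nil .nil))) 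
(.lf (nat_lit 186422) (.g (nat_lit 2052) (.e (nat_lit 57873) (nat_lit 264) (.e (nat_lit 1189) (nat_lit 88) (.e (nat_lit 65630) (nat_lit 14) (.e (nat_lit 401437) (nat_lit 9) (.e (nat_lit 426555) (nat_lit 32) .nil))))) .nil)))) (.nd (nat_lit 4) (.nd (nat_lit 5) 
(.lf (nat_lit 186382) (.g (nat_lit 4518) (.e (nat_lit 57873) (nat_lit 264) (.e (nat_lit 1181) (nat_lit 87) (.e (nat_lit 57478) (nat_lit 28) (.e (nat_lit 557101) (nat_lit 13) (.e (nat_lit 172097) (nat_lit 9) (.e (nat_lit 426125) (nat_lit 2) (.e (nat_lit 196666) (nat_lit 13) (.e (nat_lit 65565) (nat_lit 1) .nil)))))))) (.g (nat_lit 8) .nil .nil))) 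
(.lf (nat_lit 186414) (.g (nat_lit 2986) (.e (nat_lit 57873) (nat_lit 264) (.e (nat_lit 1188) (nat_lit 88) (.e (nat_lit 65629) (nat_lit 14) (.e (nat_lit 401459) (nat_lit 13) (.e (nat_lit 483391) (nat_lit 23) .nil))))) .nil))) (.nd (nat_lit 5) 
(.lf (nat_lit 186398) (.g (nat_lit 4334) (.e (nat_lit 57873) (nat_lit 264) (.e (nat_lit 1181) (nat_lit 87) (.e (nat_lit 57480) (nat_lit 28) (.e (nat_lit 557107) (nat_lit 15) (.e (nat_lit 188447) (nat_lit 22) (.e (nat_lit 196681) (nat_lit 17) (.e (nat_lit 131088) (nat_lit 1) .nil))))))) (.g (nat_lit 5) .nil .nil))) 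
(.lf (nat_lit 186430) (.g (nat_lit 3682) (.e (nat_lit 57873) (nat_lit 264) (.e (nat_lit 1190) (nat_lit 88) (.e (nat_lit 65628) (nat_lit 14) (.e (nat_lit 401459) (nat_lit 13) (.e (nat_lit 483380) (nat_lit 23) (.e (nat_lit 343808) (nat_lit 1) .nil)))))) (.g (nat_lit 5) .nil .nil)))))))) (.nd (nat_lit 1) (.nd (nat_lit 2) (.nd (nat_lit 3) (.nd (nat_lit 4) (.nd (nat_lit 5) 
(.lf (nat_lit 186369) (.g (nat_lit 2452) (.e (nat_lit 57873) (nat_lit 264) (.e (nat_lit 1170) (nat_lit 87) (.e (nat_lit 57477) (nat_lit 28) (.e (nat_lit 557107) (nat_lit 15) (.e (nat_lit 188450) (nat_lit 23) (.e (nat_lit 204852) (nat_lit 26) (.e (nat_lit 343808) (nat_lit 1) .nil))))))) (.g (nat_lit 6) .nil .nil))) 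
(.lf (nat_lit 186401) (.g (nat_lit 3141) (.e (nat_lit 57873) (nat_lit 264) (.e (nat_lit 1181) (nat_lit 87) (.e (nat_lit 57480) (nat_lit 28) (.e (nat_lit 557107) (nat_lit 15) (.e (nat_lit 188450) (nat_lit 23) (.e (nat_lit 204855) (nat_lit 26) (.e (nat_lit 335992) (nat_lit 1) .nil))))))) (.g (nat_lit 4) .nil .nil)))) (.nd (nat_lit 5) 
(.lf (nat_lit 186385) (.g (nat_lit 4090) (.e (nat_lit 57873) (nat_lit 264) (.e (nat_lit 1181) (nat_lit 87) (.e (nat_lit 57478) (nat_lit 28) (.e (nat_lit 557107) (nat_lit 15) (.e (nat_lit 188447) (nat_lit 22) (.e (nat_lit 196666) (nat_lit 13) (.e (nat_lit 65565) (nat_lit 1) .nil))))))) (.g (nat_lit 7) .nil .nil))) 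
(.lf (nat_lit 186417) (.g (nat_lit 1610) (.e (nat_lit 57873) (nat_lit 264) (.e (nat_lit 1189) (nat_lit 88) (.e (nat_lit 65624) (nat_lit 12) (.e (nat_lit 385093) (nat_lit 49) (.e (nat_lit 778326) (nat_lit 6) .nil))))) .nil)))) (.nd (nat_lit 4) (.nd (nat_lit 5) 
(.lf (nat_lit 186377) (.g (nat_lit 2107) (.e (nat_lit 57873) (nat_lit 264) (.e (nat_lit 1181) (nat_lit 87) (.e (nat_lit 57478) (nat_lit 28) (.e (nat_lit 557097) (nat_lit 13) (.e (nat_lit 172097) (nat_lit 9) .nil))))) .nil)) 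
(.lf (nat_lit 186409) (.g (nat_lit 4897) (.e (nat_lit 57873) (nat_lit 264) (.e (nat_lit 1182) (nat_lit 87) (.e (nat_lit 57479) (nat_lit 28) (.e (nat_lit 557095) (nat_lit 13) (.e (nat_lit 172115) (nat_lit 10) (.e (nat_lit 434231) (nat_lit 23) (.e (nat_lit 532535) (nat_lit 9) (.e (nat_lit 335985) (nat_lit 1) .nil)))))))) (.g (nat_lit 7) .nil .nil)))) (.nd (nat_lit 5) 
(.lf (nat_lit 186393) (.g (nat_lit 2482) (.e (nat_lit 57873) (nat_lit 264) (.e (nat_lit 1181) (nat_lit 87) (.e (nat_lit 57479) (nat_lit 28) (.e (nat_lit 557095) (nat_lit 13) (.e (nat_lit 172115) (nat_lit 10) .nil))))) .nil)) 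
(.lf (nat_lit 186425) (.g (nat_lit 1689) (.e (nat_lit 57873) (nat_lit 264) (.e (nat_lit 1190) (nat_lit 88) (.e (nat_lit 65624) (nat_lit 12) (.e (nat_lit 385092) (nat_lit 49) (.e (nat_lit 778331) (nat_lit 8) .nil))))) .nil))))) (.nd (nat_lit 3) (.nd (nat_lit 4) (.nd (nat_lit 5) 
(.lf (nat_lit 186373) (.g (nat_lit 2731) (.e (nat_lit 57873) (nat_lit 264) (.e (nat_lit 1172) (nat_lit 87) (.e (nat_lit 57476) (nat_lit 28) (.e (nat_lit 557107) (nat_lit 15) (.e (nat_lit 188450) (nat_lit 23) (.e (nat_lit 204852) (nat_lit 26) (.e (nat_lit 343808) (nat_lit 1) .nil))))))) (.g (nat_lit 6) .nil .nil))) 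
(.lf (nat_lit 186405) (.g (nat_lit 5755) (.e (nat_lit 57873) (nat_lit 264) (.e (nat_lit 1181) (nat_lit 87) (.e (nat_lit 57480) (nat_lit 28) (.e (nat_lit 557109) (nat_lit 15) (.e (nat_lit 188452) (nat_lit 23) (.e (nat_lit 204858) (nat_lit 26) (.e (nat_lit 335991) (nat_lit 1) .nil))))))) (.g (nat_lit 5) .nil .nil)))) (.nd (nat_lit 5) 
(.lf (nat_lit 186389) (.g (nat_lit 4478) (.e (nat_lit 57873) (nat_lit 264) (.e (nat_lit 1181) (nat_lit 87) (.e (nat_lit 57478) (nat_lit 28) (.e (nat_lit 557109) (nat_lit 15) (.e (nat_lit 188449) (nat_lit 22) (.e (nat_lit 196666) (nat_lit 13) (.e (nat_lit 65563) (nat_lit 1) .nil))))))) (.g (nat_lit 0) .nil .nil))) 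
(.lf (nat_lit 186421) (.g (nat_lit 2002) (.e (nat_lit 57873) (nat_lit 264) (.e (nat_lit 1189) (nat_lit 88) (.e (nat_lit 65630) (nat_lit 14) (.e (nat_lit 401437) (nat_lit 9) (.e (nat_lit 426542) (nat_lit 29) .nil))))) .nil)))) (.nd (nat_lit 4) (.nd (nat_lit 5) 
(.lf (nat_lit 186381) (.g (nat_lit 4683) (.e (nat_lit 57873) (nat_lit 264) (.e (nat_lit 1181) (nat_lit 87) (.e (nat_lit 57478) (nat_lit 28) (.e (nat_lit 557098) (nat_lit 13) (.e (nat_lit 172115) (nat_lit 10) (.e (nat_lit 434231) (nat_lit 23) (.e (nat_lit 532535) (nat_lit 9) (.e (nat_lit 335985) (nat_lit 1) .nil)))))))) (.g (nat_lit 8) .nil .nil))) 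
(.lf (nat_lit 186413) (.g (nat_lit 4291) (.e (nat_lit 57873) (nat_lit 264) (.e (nat_lit 1182) (nat_lit 87) (.e (nat_lit 57480) (nat_lit 28) (.e (nat_lit 557109) (nat_lit 15) (.e (nat_lit 188452) (nat_lit 23) (.e (nat_lit 204855) (nat_lit 26) (.e (nat_lit 335985) (nat_lit 1) .nil))))))) (.g (nat_lit 6) .nil .nil)))) (.nd (nat_lit 5) 
(.lf (nat_lit 186397) (.g (nat_lit 4699) (.e (nat_lit 57873) (nat_lit 264) (.e (nat_lit 1181) (nat_lit 87) (.e (nat_lit 57480) (nat_lit 28) (.e (nat_lit 557107) (nat_lit 15) (.e (nat_lit 188447) (nat_lit 22) (.e (nat_lit 196681) (nat_lit 17) (.e (nat_lit 131086) (nat_lit 1) .nil))))))) (.g (nat_lit 5) .nil .nil))) 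
(.lf (nat_lit 186429) (.g (nat_lit 2544) (.e (nat_lit 57873) (nat_lit 264) (.e (nat_lit 1190) (nat_lit 88) (.e (nat_lit 65628) (nat_lit 14) (.e (nat_lit 401457) (nat_lit 13) (.e (nat_lit 483389) (nat_lit 23) (.e (nat_lit 335991) (nat_lit 1) .nil)))))) (.g (nat_lit 4) .nil .nil))))))) (.nd (nat_lit 2) (.nd (nat_lit 3) (.nd (nat_lit 4) (.nd (nat_lit 5) 
(.lf (nat_lit 186371) (.g (nat_lit 3021) (.e (nat_lit 57873) (nat_lit 264) (.e (nat_lit 1170) (nat_lit 87) (.e (nat_lit 57480) (nat_lit 28) (.e (nat_lit 557107) (nat_lit 15) (.e (nat_lit 188450) (nat_lit 23) (.e (nat_lit 204852) (nat_lit 26) (.e (nat_lit 343808) (nat_lit 1) .nil))))))) (.g (nat_lit 6) .nil .nil))) 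
(.lf (nat_lit 186403) (.g (nat_lit 6817) (.e (nat_lit 57873) (nat_lit 264) (.e (nat_lit 1181) (nat_lit 87) (.e (nat_lit 57480) (nat_lit 28) (.e (nat_lit 557109) (nat_lit 15) (.e (nat_lit 188449) (nat_lit 22) (.e (nat_lit 196681) (nat_lit 17) (.e (nat_lit 131088) (nat_lit 1) .nil))))))) (.g (nat_lit 6) .nil .nil)))) (.nd (nat_lit 5) 
(.lf (nat_lit 186387) (.g (nat_lit 3590) (.e (nat_lit 57873) (nat_lit 264) (.e (nat_lit 1181) (nat_lit 87) (.e (nat_lit 57478) (nat_lit 28) (.e (nat_lit 557107) (nat_lit 15) (.e (nat_lit 188450) (nat_lit 23) (.e (nat_lit 204855) (nat_lit 26) (.e (nat_lit 335985) (nat_lit 1) .nil))))))) (.g (nat_lit 7) .nil .nil))) 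
(.lf (nat_lit 186419) (.g (nat_lit 1003) (.e (nat_lit 57873) (nat_lit 264) (.e (nat_lit 1189) (nat_lit 88) (.e (nat_lit 65628) (nat_lit 14) (.e (nat_lit 401435) (nat_lit 9) .nil)))) .nil)))) (.nd (nat_lit 4) (.nd (nat_lit 5) 
(.lf (nat_lit 186379) (.g (nat_lit 4654) (.e (nat_lit 57873) (nat_lit 264) (.e (nat_lit 1181) (nat_lit 87) (.e (nat_lit 57478) (nat_lit 28) (.e (nat_lit 557098) (nat_lit 13) (.e (nat_lit 172097) (nat_lit 9) (.e (nat_lit 426125) (nat_lit 2) (.e (nat_lit 196666) (nat_lit 13) (.e (nat_lit 65565) (nat_lit 1) .nil)))))))) (.g (nat_lit 8) .nil .nil))) 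
(.lf (nat_lit 186411) (.g (nat_lit 5121) (.e (nat_lit 57873) (nat_lit 264) (.e (nat_lit 1182) (nat_lit 87) (.e (nat_lit 57479) (nat_lit 28) (.e (nat_lit 557101) (nat_lit 13) (.e (nat_lit 172097) (nat_lit 9) (.e (nat_lit 426125) (nat_lit 2) (.e (nat_lit 196666) (nat_lit 13) (.e (nat_lit 65565) (nat_lit 1) .nil)))))))) (.g (nat_lit 8) .nil .nil)))) (.nd (nat_lit 5) 
(.lf (nat_lit 186395) (.g (nat_lit 2680) (.e (nat_lit 57873) (nat_lit 264) (.e (nat_lit 1181) (nat_lit 87) (.e (nat_lit 57480) (nat_lit 28) (.e (nat_lit 557097) (nat_lit 13) (.e (nat_lit 172097) (nat_lit 9) .nil))))) .nil)) 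
(.lf (nat_lit 186427) (.g (nat_lit 2691) (.e (nat_lit 57873) (nat_lit 264) (.e (nat_lit 1190) (nat_lit 88) (.e (nat_lit 65624) (nat_lit 12) (.e (nat_lit 385094) (nat_lit 49) (.e (nat_lit 778327) (nat_lit 6) (.e (nat_lit 81949) (nat_lit 21) .nil)))))) (.g (nat_lit 4) .nil .nil)))))) (.nd (nat_lit 3) (.nd (nat_lit 4) (.nd (nat_lit 5) 
(.lf (nat_lit 186375) (.g (nat_lit 3052) (.e (nat_lit 57873) (nat_lit 264) (.e (nat_lit 1172) (nat_lit 87) (.e (nat_lit 57478) (nat_lit 28) (.e (nat_lit 557107) (nat_lit 15) (.e (nat_lit 188450) (nat_lit 23) (.e (nat_lit 204852) (nat_lit 26) (.e (nat_lit 343808) (nat_lit 1) .nil))))))) (.g (nat_lit 6) .nil .nil))) 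
(.lf (nat_lit 186407) (.g (nat_lit 4222) (.e (nat_lit 57873) (nat_lit 264) (.e (nat_lit 1182) (nat_lit 87) (.e (nat_lit 57478) (nat_lit 28) (.e (nat_lit 557108) (nat_lit 15) (.e (nat_lit 188452) (nat_lit 23) (.e (nat_lit 204852) (nat_lit 26) (.e (nat_lit 343808) (nat_lit 1) .nil))))))) (.g (nat_lit 6) .nil .nil)))) (.nd (nat_lit 5) 
(.lf (nat_lit 186391) (.g (nat_lit 6705) (.e (nat_lit 57873) (nat_lit 264) (.e (nat_lit 1181) (nat_lit 87) (.e (nat_lit 57478) (nat_lit 28) (.e (nat_lit 557109) (nat_lit 15) (.e (nat_lit 188449) (nat_lit 22) (.e (nat_lit 196681) (nat_lit 17) (.e (nat_lit 131086) (nat_lit 1) .nil))))))) (.g (nat_lit 6) .nil .nil))) 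
(.lf (nat_lit 186423) (.g (nat_lit 1131) (.e (nat_lit 57873) (nat_lit 264) (.e (nat_lit 1190) (nat_lit 88) (.e (nat_lit 65619) (nat_lit 10) (.e (nat_lit 344090) (nat_lit 18) .nil)))) .nil)))) (.nd (nat_lit 4) (.nd (nat_lit 5) 
(.lf (nat_lit 186383) (.g (nat_lit 4172) (.e (nat_lit 57873) (nat_lit 264) (.e (nat_lit 1181) (nat_lit 87) (.e (nat_lit 57478) (nat_lit 28) (.e (nat_lit 557101) (nat_lit 13) (.e (nat_lit 172097) (nat_lit 9) (.e (nat_lit 426140) (nat_lit 3) (.e (nat_lit 204855) (nat_lit 26) (.e (nat_lit 335985) (nat_lit 1) .nil)))))))) (.g (nat_lit 8) .nil .nil))) 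
(.lf (nat_lit 186415) (.g (nat_lit 2933) (.e (nat_lit 57873) (nat_lit 264) (.e (nat_lit 1188) (nat_lit 88) (.e (nat_lit 65630) (nat_lit 14) (.e (nat_lit 401459) (nat_lit 13) (.e (nat_lit 483380) (nat_lit 23) (.e (nat_lit 343808) (nat_lit 1) .nil)))))) (.g (nat_lit 5) .nil .nil)))) (.nd (nat_lit 5) 
(.lf (nat_lit 186399) (.g (nat_lit 3573) (.e (nat_lit 57873) (nat_lit 264) (.e (nat_lit 1181) (nat_lit 87) (.e (nat_lit 57480) (nat_lit 28) (.e (nat_lit 557107) (nat_lit 15) (.e (nat_lit 188450) (nat_lit 23) (.e (nat_lit 204852) (nat_lit 26) (.e (nat_lit 343808) (nat_lit 1) .nil))))))) (.g (nat_lit 5) .nil .nil))) 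
(.lf (nat_lit 186431) (.g (nat_lit 2401) (.e (nat_lit 57873) (nat_lit 264) (.e (nat_lit 1190) (nat_lit 88) (.e (nat_lit 65628) (nat_lit 14) (.e (nat_lit 401459) (nat_lit 13) (.e (nat_lit 483381) (nat_lit 23) .nil))))) .nil))))))))

noncomputable def tv2478 : DT := (.nd (nat_lit 0) (.nd (nat_lit 1) (.nd (nat_lit 2) (.nd (nat_lit 3) (.nd (nat_lit 4) (.nd (nat_lit 5) 
(.lf (nat_lit 186432) (.g (nat_lit 2540) (.e (nat_lit 57873) (nat_lit 264) (.e (nat_lit 1190) (nat_lit 88) (.e (nat_lit 65628) (nat_lit 14) (.e (nat_lit 401459) (nat_lit 13) (.e (nat_lit 483393) (nat_lit 23) .nil))))) .nil)) 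
(.lf (nat_lit 186464) (.g (nat_lit 2345) (.e (nat_lit 57873) (nat_lit 264) (.e (nat_lit 1199) (nat_lit 88) (.e (nat_lit 65630) (nat_lit 14) (.e (nat_lit 401456) (nat_lit 13) (.e (nat_lit 483391) (nat_lit 23) .nil))))) .nil))) (.nd (nat_lit 5) 
(.lf (nat_lit 186448) (.g (nat_lit 755) (.e (nat_lit 57873) (nat_lit 264) (.e (nat_lit 1199) (nat_lit 88) (.e (nat_lit 65604) (nat_lit 9) (.e (nat_lit 335997) (nat_lit 1) .nil)))) .nil)) 
(.lf (nat_lit 186480) (.g (nat_lit 3430) (.e (nat_lit 57873) (nat_lit 264) (.e (nat_lit 1200) (nat_lit 88) (.e (nat_lit 65628) (nat_lit 14) (.e (nat_lit 401459) (nat_lit 13) (.e (nat_lit 483380) (nat_lit 23) (.e (nat_lit 343808) (nat_lit 1) .nil)))))) (.g (nat_lit 5) .nil .nil))))) (.nd (nat_lit 4) (.nd (nat_lit 5) 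
(.lf (nat_lit 186440) (.g (nat_lit 3168) (.e (nat_lit 57873) (nat_lit 264) (.e (nat_lit 1190) (nat_lit 88) (.e (nat_lit 65630) (nat_lit 14) (.e (nat_lit 401459) (nat_lit 13) (.e (nat_lit 483386) (nat_lit 23) (.e (nat_lit 335985) (nat_lit 1) .nil)))))) (.g (nat_lit 5) .nil .nil))) 
(.lf (nat_lit 186472) (.g (nat_lit 353) (.e (nat_lit 57873) (nat_lit 264) (.e (nat_lit 1200) (nat_lit 88) (.e (nat_lit 65622) (nat_lit 12) .nil))) .nil))) (.nd (nat_lit 5) 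
(.lf (nat_lit 186456) (.g (nat_lit 2125) (.e (nat_lit 57873) (nat_lit 264) (.e (nat_lit 1199) (nat_lit 88) (.e (nat_lit 65628) (nat_lit 14) (.e (nat_lit 401458) (nat_lit 13) (.e (nat_lit 483389) (nat_lit 23) (.e (nat_lit 335991) (nat_lit 1) .nil)))))) (.g (nat_lit 0) .nil .nil))) 
(.lf (nat_lit 186488) (.g (nat_lit 3205) (.e (nat_lit 57873) (nat_lit 264) (.e (nat_lit 1200) (nat_lit 88) (.e (nat_lit 65630) (nat_lit 14) (.e (nat_lit 401459) (nat_lit 13) (.e (nat_lit 483380) (nat_lit 23) (.e (nat_lit 343808) (nat_lit 1) .nil)))))) (.g (nat_lit 5) .nil .nil)))))) (.nd (nat_lit 3) (.nd (nat_lit 4) (.nd (nat_lit 5) 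
(.lf (nat_lit 186436) (.g (nat_lit 2554) (.e (nat_lit 57873) (nat_lit 264) (.e (nat_lit 1190) (nat_lit 88) (.e (nat_lit 65630) (nat_lit 14) (.e (nat_lit 401459) (nat_lit 13) (.e (nat_lit 483344) (nat_lit 17) .nil))))) .nil)) 
(.lf (nat_lit 186468) (.g (nat_lit 3357) (.e (nat_lit 57873) (nat_lit 264) (.e (nat_lit 1199) (nat_lit 88) (.e (nat_lit 65630) (nat_lit 14) (.e (nat_lit 401459) (nat_lit 13) (.e (nat_lit 483389) (nat_lit 23) (.e (nat_lit 335991) (nat_lit 1) .nil)))))) (.g (nat_lit 4) .nil .nil)))) (.nd (nat_lit 5) 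
(.lf (nat_lit 186452) (.g (nat_lit 1643) (.e (nat_lit 57873) (nat_lit 264) (.e (nat_lit 1199) (nat_lit 88) (.e (nat_lit 65624) (nat_lit 12) (.e (nat_lit 385092) (nat_lit 49) (.e (nat_lit 778327) (nat_lit 6) .nil))))) .nil)) 
(.lf (nat_lit 186484) (.g (nat_lit 3142) (.e (nat_lit 57873) (nat_lit 264) (.e (nat_lit 1200) (nat_lit 88) (.e (nat_lit 65629) (nat_lit 14) (.e (nat_lit 401459) (nat_lit 13) (.e (nat_lit 483389) (nat_lit 23) (.e (nat_lit 335991) (nat_lit 1) .nil)))))) (.g (nat_lit 4) .nil .nil))))) (.nd (nat_lit 4) (.nd (nat_lit 5) 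
(.lf (nat_lit 186444) (.g (nat_lit 1279) (.e (nat_lit 57873) (nat_lit 264) (.e (nat_lit 1196) (nat_lit 88) (.e (nat_lit 65630) (nat_lit 14) (.e (nat_lit 401435) (nat_lit 9) .nil)))) .nil)) 
(.lf (nat_lit 186476) (.g (nat_lit 2119) (.e (nat_lit 57873) (nat_lit 264) (.e (nat_lit 1200) (nat_lit 88) (.e (nat_lit 65628) (nat_lit 14) (.e (nat_lit 401435) (nat_lit 9) (.e (nat_lit 426555) (nat_lit 32) .nil))))) .nil))) (.nd (nat_lit 5) 
(.lf (nat_lit 186460) (.g (nat_lit 3018) (.e (nat_lit 57873) (nat_lit 264) (.e (nat_lit 1199) (nat_lit 88) (.e (nat_lit 65628) (nat_lit 14) (.e (nat_lit 401459) (nat_lit 13) (.e (nat_lit 483389) (nat_lit 23) (.e (nat_lit 335991) (nat_lit 1) .nil)))))) (.g (nat_lit 5) .nil .nil))) 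
(.lf (nat_lit 186492) (.g (nat_lit 1584) (.e (nat_lit 57873) (nat_lit 264) (.e (nat_lit 1210) (nat_lit 89) (.e (nat_lit 73781) (nat_lit 32) (.e (nat_lit 3090) (nat_lit 191) (.e (nat_lit 483386) (nat_lit 23) (.e (nat_lit 335985) (nat_lit 1) .nil)))))) (.g (nat_lit 4) .nil .nil))))))) (.nd (nat_lit 2) (.nd (nat_lit 3) (.nd (nat_lit 4) (.nd (nat_lit 5) 
(.lf (nat_lit 186434) (.g (nat_lit 1991) (.e (nat_lit 57873) (nat_lit 264) (.e (nat_lit 1190) (nat_lit 88) (.e (nat_lit 65630) (nat_lit 14) (.e (nat_lit 401456) (nat_lit 13) (.e (nat_lit 483391) (nat_lit 23) .nil))))) .nil)) 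
(.lf (nat_lit 186466) (.g (nat_lit 3501) (.e (nat_lit 57873) (nat_lit 264) (.e (nat_lit 1199) (nat_lit 88) (.e (nat_lit 65630) (nat_lit 14) (.e (nat_lit 401459) (nat_lit 13) (.e (nat_lit 483380) (nat_lit 23) (.e (nat_lit 343808) (nat_lit 1) .nil)))))) (.g (nat_lit 5) .nil .nil)))) (.nd (nat_lit 5) 
(.lf (nat_lit 186450) (.g (nat_lit 988) (.e (nat_lit 57873) (nat_lit 264) (.e (nat_lit 1199) (nat_lit 88) (.e (nat_lit 65617) (nat_lit 10) (.e (nat_lit 344087) (nat_lit 18) .nil)))) .nil)) 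
(.lf (nat_lit 186482) (.g (nat_lit 3092) (.e (nat_lit 57873) (nat_lit 264) (.e (nat_lit 1200) (nat_lit 88) (.e (nat_lit 65629) (nat_lit 14) (.e (nat_lit 401459) (nat_lit 13) (.e (nat_lit 483380) (nat_lit 23) (.e (nat_lit 343808) (nat_lit 1) .nil)))))) (.g (nat_lit 5) .nil .nil))))) (.nd (nat_lit 4) (.nd (nat_lit 5) 
(.lf (nat_lit 186442) (.g (nat_lit 2175) (.e (nat_lit 57873) (nat_lit 264) (.e (nat_lit 1196) (nat_lit 88) (.e (nat_lit 65624) (nat_lit 12) (.e (nat_lit 385093) (nat_lit 49) (.e (nat_lit 778326) (nat_lit 6) (.e (nat_lit 81948) (nat_lit 21) .nil)))))) (.g (nat_lit 4) .nil .nil))) 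
(.lf (nat_lit 186474) (.g (nat_lit 2458) (.e (nat_lit 57873) (nat_lit 264) (.e (nat_lit 1200) (nat_lit 88) (.e (nat_lit 65624) (nat_lit 12) (.e (nat_lit 385094) (nat_lit 49) (.e (nat_lit 778327) (nat_lit 6) (.e (nat_lit 81949) (nat_lit 21) .nil)))))) (.g (nat_lit 4) .nil .nil)))) (.nd (nat_lit 5) 
(.lf (nat_lit 186458) (.g (nat_lit 3110) (.e (nat_lit 57873) (nat_lit 264) (.e (nat_lit 1199) (nat_lit 88) (.e (nat_lit 65628) (nat_lit 14) (.e (nat_lit 401459) (nat_lit 13) (.e (nat_lit 483380) (nat_lit 23) (.e (nat_lit 343808) (nat_lit 1) .nil)))))) (.g (nat_lit 5) .nil .nil))) 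
(.lf (nat_lit 186490) (.g (nat_lit 3182) (.e (nat_lit 57873) (nat_lit 264) (.e (nat_lit 1209) (nat_lit 89) (.e (nat_lit 73782) (nat_lit 32) (.e (nat_lit 3090) (nat_lit 191) (.e (nat_lit 483380) (nat_lit 23) (.e (nat_lit 343808) (nat_lit 1) .nil)))))) (.g (nat_lit 5) .nil .nil)))))) (.nd (nat_lit 3) (.nd (nat_lit 4) (.nd (nat_lit 5) 
(.lf (nat_lit 186438) (.g (nat_lit 3982) (.e (nat_lit 57873) (nat_lit 264) (.e (nat_lit 1190) (nat_lit 88) (.e (nat_lit 65630) (nat_lit 14) (.e (nat_lit 401459) (nat_lit 13) (.e (nat_lit 483380) (nat_lit 23) (.e (nat_lit 343808) (nat_lit 1) .nil)))))) (.g (nat_lit 5) .nil .nil))) 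
(.lf (nat_lit 186470) (.g (nat_lit 1202) (.e (nat_lit 57873) (nat_lit 264) (.e (nat_lit 1200) (nat_lit 88) (.e (nat_lit 65583) (nat_lit 7) (.e (nat_lit 319539) (nat_lit 19) (.e (nat_lit 311358) (nat_lit 29) .nil))))) .nil))) (.nd (nat_lit 5) 
(.lf (nat_lit 186454) (.g (nat_lit 2057) (.e (nat_lit 57873) (nat_lit 264) (.e (nat_lit 1199) (nat_lit 88) (.e (nat_lit 65628) (nat_lit 14) (.e (nat_lit 401435) (nat_lit 9) (.e (nat_lit 426555) (nat_lit 32) .nil))))) .nil)) 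
(.lf (nat_lit 186486) (.g (nat_lit 2119) (.e (nat_lit 57873) (nat_lit 264) (.e (nat_lit 1200) (nat_lit 88) (.e (nat_lit 65630) (nat_lit 14) (.e (nat_lit 401458) (nat_lit 13) (.e (nat_lit 483389) (nat_lit 23) (.e (nat_lit 335991) (nat_lit 1) .nil)))))) (.g (nat_lit 0) .nil .nil))))) (.nd (nat_lit 4) (.nd (nat_lit 5) 
(.lf (nat_lit 186446) (.g (nat_lit 2223) (.e (nat_lit 57873) (nat_lit 264) (.e (nat_lit 1196) (nat_lit 88) (.e (nat_lit 65630) (nat_lit 14) (.e (nat_lit 401438) (nat_lit 9) (.e (nat_lit 426555) (nat_lit 32) .nil))))) .nil)) 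
(.lf (nat_lit 186478) (.g (nat_lit 2384) (.e (nat_lit 57873) (nat_lit 264) (.e (nat_lit 1200) (nat_lit 88) (.e (nat_lit 65628) (nat_lit 14) (.e (nat_lit 401458) (nat_lit 13) (.e (nat_lit 483389) (nat_lit 23) (.e (nat_lit 335991) (nat_lit 1) .nil)))))) (.g (nat_lit 0) .nil .nil)))) (.nd (nat_lit 5) 
(.lf (nat_lit 186462) (.g (nat_lit 2059) (.e (nat_lit 57873) (nat_lit 264) (.e (nat_lit 1199) (nat_lit 88) (.e (nat_lit 65630) (nat_lit 14) (.e (nat_lit 401435) (nat_lit 9) (.e (nat_lit 426542) (nat_lit 29) .nil))))) .nil)) 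
(.lf (nat_lit 186494) (.g (nat_lit 1996) (.e (nat_lit 57873) (nat_lit 264) (.e (nat_lit 1211) (nat_lit 89) (.e (nat_lit 73781) (nat_lit 32) (.e (nat_lit 3088) (nat_lit 191) (.e (nat_lit 483389) (nat_lit 23) (.e (nat_lit 335991) (nat_lit 1) .nil)))))) (.g (nat_lit 4) .nil .nil)))))))) (.nd (nat_lit 1) (.nd (nat_lit 2) (.nd (nat_lit 3) (.nd (nat_lit 4) (.nd (nat_lit 5) 
(.lf (nat_lit 186433) (.g (nat_lit 2405) (.e (nat_lit 57873) (nat_lit 264) (.e (nat_lit 1190) (nat_lit 88) (.e (nat_lit 65629) (nat_lit 14) (.e (nat_lit 401459) (nat_lit 13) (.e (nat_lit 483380) (nat_lit 23) .nil))))) .nil)) 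
(.lf (nat_lit 186465) (.g (nat_lit 3107) (.e (nat_lit 57873) (nat_lit 264) (.e (nat_lit 1199) (nat_lit 88) (.e (nat_lit 65630) (nat_lit 14) (.e (nat_lit 401458) (nat_lit 13) (.e (nat_lit 483393) (nat_lit 23) (.e (nat_lit 335986) (nat_lit 1) .nil)))))) (.g (nat_lit 0) .nil .nil)))) (.nd (nat_lit 5) 
(.lf (nat_lit 186449) (.g (nat_lit 2149) (.e (nat_lit 57873) (nat_lit 264) (.e (nat_lit 1199) (nat_lit 88) (.e (nat_lit 65610) (nat_lit 10) (.e (nat_lit 344097) (nat_lit 18) (.e (nat_lit 5902) (nat_lit 320) .nil))))) .nil)) 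
(.lf (nat_lit 186481) (.g (nat_lit 2348) (.e (nat_lit 57873) (nat_lit 264) (.e (nat_lit 1200) (nat_lit 88) (.e (nat_lit 65628) (nat_lit 14) (.e (nat_lit 401459) (nat_lit 13) (.e (nat_lit 483381) (nat_lit 23) .nil))))) .nil)))) (.nd (nat_lit 4) (.nd (nat_lit 5) 
(.lf (nat_lit 186441) (.g (nat_lit 3697) (.e (nat_lit 57873) (nat_lit 264) (.e (nat_lit 1190) (nat_lit 88) (.e (nat_lit 65630) (nat_lit 14) (.e (nat_lit 401459) (nat_lit 13) (.e (nat_lit 483389) (nat_lit 23) (.e (nat_lit 335991) (nat_lit 1) .nil)))))) (.g (nat_lit 4) .nil .nil))) 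
(.lf (nat_lit 186473) (.g (nat_lit 1496) (.e (nat_lit 57873) (nat_lit 264) (.e (nat_lit 1200) (nat_lit 88) (.e (nat_lit 65623) (nat_lit 12) (.e (nat_lit 385093) (nat_lit 49) (.e (nat_lit 778326) (nat_lit 6) .nil))))) .nil))) (.nd (nat_lit 5) 
(.lf (nat_lit 186457) (.g (nat_lit 2900) (.e (nat_lit 57873) (nat_lit 264) (.e (nat_lit 1199) (nat_lit 88) (.e (nat_lit 65628) (nat_lit 14) (.e (nat_lit 401458) (nat_lit 13) (.e (nat_lit 483393) (nat_lit 23) (.e (nat_lit 335986) (nat_lit 1) .nil)))))) (.g (nat_lit 0) .nil .nil))) 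
(.lf (nat_lit 186489) (.g (nat_lit 3054) (.e (nat_lit 57873) (nat_lit 264) (.e (nat_lit 1200) (nat_lit 88) (.e (nat_lit 65630) (nat_lit 14) (.e (nat_lit 401459) (nat_lit 13) (.e (nat_lit 483389) (nat_lit 23) .nil))))) .nil))))) (.nd (nat_lit 3) (.nd (nat_lit 4) (.nd (nat_lit 5) 
(.lf (nat_lit 186437) (.g (nat_lit 2662) (.e (nat_lit 57873) (nat_lit 264) (.e (nat_lit 1190) (nat_lit 88) (.e (nat_lit 65630) (nat_lit 14) (.e (nat_lit 401459) (nat_lit 13) (.e (nat_lit 483380) (nat_lit 23) .nil))))) .nil)) 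
(.lf (nat_lit 186469) (.g (nat_lit 4269) (.e (nat_lit 57873) (nat_lit 264) (.e (nat_lit 1199) (nat_lit 88) (.e (nat_lit 65630) (nat_lit 14) (.e (nat_lit 401459) (nat_lit 13) (.e (nat_lit 483393) (nat_lit 23) (.e (nat_lit 335986) (nat_lit 1) .nil)))))) (.g (nat_lit 6) .nil .nil)))) (.nd (nat_lit 5) 
(.lf (nat_lit 186453) (.g (nat_lit 2067) (.e (nat_lit 57873) (nat_lit 264) (.e (nat_lit 1199) (nat_lit 88) (.e (nat_lit 65628) (nat_lit 14) (.e (nat_lit 401434) (nat_lit 9) (.e (nat_lit 426555) (nat_lit 32) .nil))))) .nil)) 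
(.lf (nat_lit 186485) (.g (nat_lit 1848) (.e (nat_lit 57873) (nat_lit 264) (.e (nat_lit 1200) (nat_lit 88) (.e (nat_lit 65630) (nat_lit 14) (.e (nat_lit 401457) (nat_lit 13) (.e (nat_lit 483389) (nat_lit 23) (.e (nat_lit 335991) (nat_lit 1) .nil)))))) (.g (nat_lit 4) .nil .nil))))) (.nd (nat_lit 4) (.nd (nat_lit 5) 
(.lf (nat_lit 186445) (.g (nat_lit 2142) (.e (nat_lit 57873) (nat_lit 264) (.e (nat_lit 1196) (nat_lit 88) (.e (nat_lit 65630) (nat_lit 14) (.e (nat_lit 401437) (nat_lit 9) (.e (nat_lit 426542) (nat_lit 29) .nil))))) .nil)) 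
(.lf (nat_lit 186477) (.g (nat_lit 3365) (.e (nat_lit 57873) (nat_lit 264) (.e (nat_lit 1200) (nat_lit 88) (.e (nat_lit 65628) (nat_lit 14) (.e (nat_lit 401457) (nat_lit 13) (.e (nat_lit 483393) (nat_lit 23) (.e (nat_lit 335986) (nat_lit 1) .nil)))))) (.g (nat_lit 6) .nil .nil)))) (.nd (nat_lit 5) 
(.lf (nat_lit 186461) (.g (nat_lit 2985) (.e (nat_lit 57873) (nat_lit 264) (.e (nat_lit 1199) (nat_lit 88) (.e (nat_lit 65629) (nat_lit 14) (.e (nat_lit 401459) (nat_lit 13) (.e (nat_lit 483393) (nat_lit 23) .nil))))) .nil)) 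
(.lf (nat_lit 186493) (.g (nat_lit 2478) (.e (nat_lit 57873) (nat_lit 264) (.e (nat_lit 1211) (nat_lit 89) (.e (nat_lit 73731) (nat_lit 0) (.e (nat_lit 7122) (nat_lit 382) (.e (nat_lit 1214) (nat_lit 89) (.e (nat_lit 73746) (nat_lit 3) (.e (nat_lit 516129) (nat_lit 3) (.e (nat_lit 229120) (nat_lit 1) .nil)))))))) (.g (nat_lit 4) .nil .nil))))))) 
(.nd (nat_lit 2) (.nd (nat_lit 3) (.nd (nat_lit 4) (.nd (nat_lit 5) 
(.lf (nat_lit 186435) (.g (nat_lit 2452) (.e (nat_lit 57873) (nat_lit 264) (.e (nat_lit 1190) (nat_lit 88) (.e (nat_lit 65630) (nat_lit 14) (.e (nat_lit 401457) (nat_lit 13) (.e (nat_lit 483389) (nat_lit 23) (.e (nat_lit 335991) (nat_lit 1) .nil)))))) (.g (nat_lit 4) .nil .nil))) 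
(.lf (nat_lit 186467) (.g (nat_lit 2863) (.e (nat_lit 57873) (nat_lit 264) (.e (nat_lit 1199) (nat_lit 88) (.e (nat_lit 65630) (nat_lit 14) (.e (nat_lit 401459) (nat_lit 13) (.e (nat_lit 483381) (nat_lit 23) .nil))))) .nil))) (.nd (nat_lit 5) 
(.lf (nat_lit 186451) (.g (nat_lit 1562) (.e (nat_lit 57873) (nat_lit 264) (.e (nat_lit 1199) (nat_lit 88) (.e (nat_lit 65623) (nat_lit 12) (.e (nat_lit 385094) (nat_lit 49) (.e (nat_lit 778326) (nat_lit 6) .nil))))) .nil)) 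
(.lf (nat_lit 186483) (.g (nat_lit 2492) (.e (nat_lit 57873) (nat_lit 264) (.e (nat_lit 1200) (nat_lit 88) (.e (nat_lit 65629) (nat_lit 14) (.e (nat_lit 401459) (nat_lit 13) (.e (nat_lit 483381) (nat_lit 23) (.e (nat_lit 343808) (nat_lit 1) .nil)))))) (.g (nat_lit 4) .nil .nil))))) (.nd (nat_lit 4) (.nd (nat_lit 5) 
(.lf (nat_lit 186443) (.g (nat_lit 2268) (.e (nat_lit 57873) (nat_lit 264) (.e (nat_lit 1196) (nat_lit 88) (.e (nat_lit 65624) (nat_lit 12) (.e (nat_lit 385093) (nat_lit 49) (.e (nat_lit 778326) (nat_lit 6) (.e (nat_lit 81950) (nat_lit 21) .nil)))))) (.g (nat_lit 4) .nil .nil))) 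
(.lf (nat_lit 186475) (.g (nat_lit 2061) (.e (nat_lit 57873) (nat_lit 264) (.e (nat_lit 1200) (nat_lit 88) (.e (nat_lit 65624) (nat_lit 12) (.e (nat_lit 385104) (nat_lit 50) (.e (nat_lit 786480) (nat_lit 29) .nil))))) .nil))) (.nd (nat_lit 5) 
(.lf (nat_lit 186459) (.g (nat_lit 1654) (.e (nat_lit 57873) (nat_lit 264) (.e (nat_lit 1199) (nat_lit 88) (.e (nat_lit 65628) (nat_lit 14) (.e (nat_lit 401459) (nat_lit 13) (.e (nat_lit 483386) (nat_lit 23) .nil))))) .nil)) 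
(.lf (nat_lit 186491) (.g (nat_lit 2226) (.e (nat_lit 57873) (nat_lit 264) (.e (nat_lit 1209) (nat_lit 89) (.e (nat_lit 73782) (nat_lit 32) (.e (nat_lit 3090) (nat_lit 191) (.e (nat_lit 483389) (nat_lit 23) (.e (nat_lit 335991) (nat_lit 1) .nil)))))) (.g (nat_lit 4) .nil .nil)))))) (.nd (nat_lit 3) (.nd (nat_lit 4) (.nd (nat_lit 5) 
(.lf (nat_lit 186439) (.g (nat_lit 2912) (.e (nat_lit 57873) (nat_lit 264) (.e (nat_lit 1190) (nat_lit 88) (.e (nat_lit 65630) (nat_lit 14) (.e (nat_lit 401459) (nat_lit 13) (.e (nat_lit 483381) (nat_lit 23) .nil))))) .nil)) 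
(.lf (nat_lit 186471) (.g (nat_lit 589) (.e (nat_lit 57873) (nat_lit 264) (.e (nat_lit 1200) (nat_lit 88) (.e (nat_lit 65585) (nat_lit 7) (.e (nat_lit 319539) (nat_lit 19) .nil)))) .nil))) (.nd (nat_lit 5) 
(.lf (nat_lit 186455) (.g (nat_lit 2320) (.e (nat_lit 57873) (nat_lit 264) (.e (nat_lit 1199) (nat_lit 88) (.e (nat_lit 65628) (nat_lit 14) (.e (nat_lit 401457) (nat_lit 13) (.e (nat_lit 483389) (nat_lit 23) (.e (nat_lit 335991) (nat_lit 1) .nil)))))) (.g (nat_lit 4) .nil .nil))) 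
(.lf (nat_lit 186487) (.g (nat_lit 2893) (.e (nat_lit 57873) (nat_lit 264) (.e (nat_lit 1200) (nat_lit 88) (.e (nat_lit 65630) (nat_lit 14) (.e (nat_lit 401458) (nat_lit 13) (.e (nat_lit 483393) (nat_lit 23) (.e (nat_lit 335986) (nat_lit 1) .nil)))))) (.g (nat_lit 0) .nil .nil))))) (.nd (nat_lit 4) (.nd (nat_lit 5) 
(.lf (nat_lit 186447) (.g (nat_lit 1715) (.e (nat_lit 57873) (nat_lit 264) (.e (nat_lit 1199) (nat_lit 88) (.e (nat_lit 65583) (nat_lit 7) (.e (nat_lit 319538) (nat_lit 19) (.e (nat_lit 311358) (nat_lit 29) .nil))))) .nil)) 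
(.lf (nat_lit 186479) (.g (nat_lit 3166) (.e (nat_lit 57873) (nat_lit 264) (.e (nat_lit 1200) (nat_lit 88) (.e (nat_lit 65628) (nat_lit 14) (.e (nat_lit 401458) (nat_lit 13) (.e (nat_lit 483393) (nat_lit 23) (.e (nat_lit 335986) (nat_lit 1) .nil)))))) (.g (nat_lit 0) .nil .nil)))) (.nd (nat_lit 5) 
(.lf (nat_lit 186463) (.g (nat_lit 1243) (.e (nat_lit 57873) (nat_lit 264) (.e (nat_lit 1199) (nat_lit 88) (.e (nat_lit 65630) (nat_lit 14) (.e (nat_lit 401456) (nat_lit 13) .nil)))) .nil)) 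
(.lf (nat_lit 186495) (.g (nat_lit 2948) (.e (nat_lit 57873) (nat_lit 264) (.e (nat_lit 1211) (nat_lit 89) (.e (nat_lit 73781) (nat_lit 32) (.e (nat_lit 3088) (nat_lit 191) (.e (nat_lit 483393) (nat_lit 23) (.e (nat_lit 335986) (nat_lit 1) .nil)))))) (.g (nat_lit 6) .nil .nil)))))))))

noncomputable def tv2479 : DT := (.nd (nat_lit 0) (.nd (nat_lit 1) (.nd (nat_lit 2) (.nd (nat_lit 3) (.nd (nat_lit 4) (.nd (nat_lit 5) (.nd (nat_lit 6) 
(.lf (nat_lit 186496) (.g (nat_lit 1999) (.e (nat_lit 57873) (nat_lit 264) (.e (nat_lit 1211) (nat_lit 89) (.e (nat_lit 73781) (nat_lit 32) (.e (nat_lit 3089) (nat_lit 191) (.e (nat_lit 483389) (nat_lit 23) (.e (nat_lit 335991) (nat_lit 1) .nil)))))) (.g (nat_lit 0) .nil .nil))) 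
(.lf (nat_lit 186560) (.g (nat_lit 2012) (.e (nat_lit 65280) (nat_lit 266) (.e (nat_lit 57412) (nat_lit 12) (.e (nat_lit 336226) (nat_lit 14) (.e (nat_lit 401435) (nat_lit 9) (.e (nat_lit 426555) (nat_lit 32) .nil))))) .nil))) (.nd (nat_lit 6) 
(.lf (nat_lit 186528) (.g (nat_lit 3385) (.e (nat_lit 57873) (nat_lit 264) (.e (nat_lit 1221) (nat_lit 90) (.e (nat_lit 81956) (nat_lit 23) (.e (nat_lit 98320) (nat_lit 17) .nil)))) .nil)) 
(.lf (nat_lit 186592) (.g (nat_lit 3585) (.e (nat_lit 57876) (nat_lit 270) (.e (nat_lit 1239) (nat_lit 91) (.e (nat_lit 90170) (nat_lit 13) (.e (nat_lit 172113) (nat_lit 10) (.e (nat_lit 434248) (nat_lit 28) (.e (nat_lit 573452) (nat_lit 9) (.e (nat_lit 11) (nat_lit 0) (.e (nat_lit 7077) (nat_lit 378) .nil)))))))) (.g (nat_lit 6) .nil .nil))))) (.nd (nat_lit 5) (.nd (nat_lit 6) 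
(.lf (nat_lit 186512) (.g (nat_lit 1575) (.e (nat_lit 57873) (nat_lit 264) (.e (nat_lit 1220) (nat_lit 90) (.e (nat_lit 81938) (nat_lit 20) (.e (nat_lit 2003) (nat_lit 138) (.e (nat_lit 671764) (nat_lit 6) .nil))))) .nil)) 
(.lf (nat_lit 186576) (.g (nat_lit 699) (.e (nat_lit 57876) (nat_lit 270) (.e (nat_lit 371) (nat_lit 32) (.e (nat_lit 426546) (nat_lit 30) .nil))) .nil))) (.nd (nat_lit 6) 
(.lf (nat_lit 186544) (.g (nat_lit 1668) (.e (nat_lit 57873) (nat_lit 264) (.e (nat_lit 1221) (nat_lit 90) (.e (nat_lit 81959) (nat_lit 24) (.e (nat_lit 123196) (nat_lit 266) .nil)))) .nil)) 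
(.lf (nat_lit 186608) (.g (nat_lit 2268) (.e (nat_lit 57876) (nat_lit 270) (.e (nat_lit 1256) (nat_lit 92) (.e (nat_lit 98370) (nat_lit 28) (.e (nat_lit 442424) (nat_lit 22) (.e (nat_lit 196661) (nat_lit 12) (.e (nat_lit 57721) (nat_lit 177) .nil)))))) (.g (nat_lit 6) .nil .nil)))))) (.nd (nat_lit 4) (.nd (nat_lit 5) (.nd (nat_lit 6) 
(.lf (nat_lit 186504) (.g (nat_lit 225) (.e (nat_lit 57873) (nat_lit 264) (.e (nat_lit 1219) (nat_lit 90) (.e (nat_lit 89856) (nat_lit 8) .nil))) .nil)) 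
(.lf (nat_lit 186568) (.g (nat_lit 1135) (.e (nat_lit 65280) (nat_lit 267) (.e (nat_lit 122917) (nat_lit 15) (.e (nat_lit 360466) (nat_lit 3) (.e (nat_lit 516100) (nat_lit 0) .nil)))) .nil))) (.nd (nat_lit 6) 
(.lf (nat_lit 186536) (.g (nat_lit 2305) (.e (nat_lit 57873) (nat_lit 264) (.e (nat_lit 1221) (nat_lit 90) (.e (nat_lit 81959) (nat_lit 24) (.e (nat_lit 123183) (nat_lit 264) (.e (nat_lit 1223) (nat_lit 90) .nil))))) .nil)) 
(.lf (nat_lit 186600) (.g (nat_lit 3292) (.e (nat_lit 57876) (nat_lit 270) (.e (nat_lit 1256) (nat_lit 92) (.e (nat_lit 98359) (nat_lit 26) (.e (nat_lit 426286) (nat_lit 10) (.e (nat_lit 434245) (nat_lit 28) (.e (nat_lit 573451) (nat_lit 9) (.e (nat_lit 11) (nat_lit 0) (.e (nat_lit 7079) (nat_lit 378) .nil)))))))) (.g (nat_lit 7) .nil .nil))))) (.nd (nat_lit 5) (.nd (nat_lit 6) 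
(.lf (nat_lit 186520) (.g (nat_lit 651) (.e (nat_lit 57873) (nat_lit 264) (.e (nat_lit 1221) (nat_lit 90) (.e (nat_lit 81922) (nat_lit 0) .nil))) .nil)) 
(.lf (nat_lit 186584) (.g (nat_lit 2002) (.e (nat_lit 57876) (nat_lit 270) (.e (nat_lit 1239) (nat_lit 91) (.e (nat_lit 90170) (nat_lit 13) (.e (nat_lit 172113) (nat_lit 10) (.e (nat_lit 434242) (nat_lit 28) (.e (nat_lit 573451) (nat_lit 9) (.e (nat_lit 13) (nat_lit 0) (.e (nat_lit 7077) (nat_lit 378) .nil)))))))) (.g (nat_lit 4) .nil .nil)))) (.nd (nat_lit 6) 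
(.lf (nat_lit 186552) (.g (nat_lit 1201) (.e (nat_lit 65280) (nat_lit 264) (.e (nat_lit 1212) (nat_lit 89) (.e (nat_lit 73781) (nat_lit 32) (.e (nat_lit 3089) (nat_lit 191) .nil)))) .nil)) 
(.lf (nat_lit 186616) (.g (nat_lit 2685) (.e (nat_lit 57876) (nat_lit 270) (.e (nat_lit 1256) (nat_lit 92) (.e (nat_lit 98373) (nat_lit 29) (.e (nat_lit 450588) (nat_lit 10) (.e (nat_lit 573452) (nat_lit 9) (.e (nat_lit 11) (nat_lit 0) (.e (nat_lit 7077) (nat_lit 378) .nil))))))) (.g (nat_lit 6) .nil .nil))))))) (.nd (nat_lit 3) (.nd (nat_lit 4) (.nd (nat_lit 5) (.nd (nat_lit 6) 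
(.lf (nat_lit 186500) (.g (nat_lit 1977) (.e (nat_lit 57873) (nat_lit 264) (.e (nat_lit 1211) (nat_lit 89) (.e (nat_lit 73782) (nat_lit 32) (.e (nat_lit 3089) (nat_lit 191) (.e (nat_lit 483389) (nat_lit 23) (.e (nat_lit 335991) (nat_lit 1) .nil)))))) (.g (nat_lit 0) .nil .nil))) 
(.lf (nat_lit 186564) (.g (nat_lit 952) (.e (nat_lit 65280) (nat_lit 266) (.e (nat_lit 57437) (nat_lit 17) (.e (nat_lit 376835) (nat_lit 0) (.e (nat_lit 3745) (nat_lit 228) .nil)))) .nil))) (.nd (nat_lit 6) 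
(.lf (nat_lit 186532) (.g (nat_lit 1362) (.e (nat_lit 57873) (nat_lit 264) (.e (nat_lit 1221) (nat_lit 90) (.e (nat_lit 81959) (nat_lit 24) (.e (nat_lit 123182) (nat_lit 264) .nil)))) .nil)) 
(.lf (nat_lit 186596) (.g (nat_lit 1986) (.e (nat_lit 57876) (nat_lit 270) (.e (nat_lit 1239) (nat_lit 91) (.e (nat_lit 90170) (nat_lit 13) (.e (nat_lit 172126) (nat_lit 14) .nil)))) .nil)))) (.nd (nat_lit 5) (.nd (nat_lit 6) 
(.lf (nat_lit 186516) (.g (nat_lit 1462) (.e (nat_lit 57873) (nat_lit 264) (.e (nat_lit 1220) (nat_lit 90) (.e (nat_lit 81959) (nat_lit 24) (.e (nat_lit 123182) (nat_lit 264) .nil)))) .nil)) 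
(.lf (nat_lit 186580) (.g (nat_lit 1757) (.e (nat_lit 57876) (nat_lit 270) (.e (nat_lit 1239) (nat_lit 91) (.e (nat_lit 90170) (nat_lit 13) (.e (nat_lit 172113) (nat_lit 10) (.e (nat_lit 434242) (nat_lit 28) .nil))))) .nil))) (.nd (nat_lit 6) 
(.lf (nat_lit 186548) (.g (nat_lit 539) (.e (nat_lit 65280) (nat_lit 264) (.e (nat_lit 1201) (nat_lit 88) (.e (nat_lit 65610) (nat_lit 10) .nil))) .nil)) 
(.lf (nat_lit 186612) (.g (nat_lit 1453) (.e (nat_lit 57876) (nat_lit 270) (.e (nat_lit 1256) (nat_lit 92) (.e (nat_lit 98372) (nat_lit 29) (.e (nat_lit 450579) (nat_lit 5) (.e (nat_lit 532488) (nat_lit 0) (.e (nat_lit 7936) (nat_lit 333) .nil)))))) (.g (nat_lit 4) .nil .nil)))))) (.nd (nat_lit 4) (.nd (nat_lit 5) (.nd (nat_lit 6) 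
(.lf (nat_lit 186508) (.g (nat_lit 1537) (.e (nat_lit 57873) (nat_lit 264) (.e (nat_lit 1219) (nat_lit 90) (.e (nat_lit 81949) (nat_lit 21) (.e (nat_lit 57870) (nat_lit 264) (.e (nat_lit 1219) (nat_lit 90) .nil))))) .nil)) 
(.lf (nat_lit 186572) (.g (nat_lit 966) (.e (nat_lit 65280) (nat_lit 267) (.e (nat_lit 122919) (nat_lit 15) (.e (nat_lit 360457) (nat_lit 0) (.e (nat_lit 5948) (nat_lit 322) .nil)))) .nil))) (.nd (nat_lit 6) 
(.lf (nat_lit 186540) (.g (nat_lit 1781) (.e (nat_lit 57873) (nat_lit 264) (.e (nat_lit 1221) (nat_lit 90) (.e (nat_lit 81959) (nat_lit 24) (.e (nat_lit 123194) (nat_lit 266) .nil)))) .nil)) 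
(.lf (nat_lit 186604) (.g (nat_lit 2763) (.e (nat_lit 57876) (nat_lit 270) (.e (nat_lit 1256) (nat_lit 92) (.e (nat_lit 98359) (nat_lit 26) (.e (nat_lit 426286) (nat_lit 10) (.e (nat_lit 434248) (nat_lit 28) (.e (nat_lit 573452) (nat_lit 9) (.e (nat_lit 11) (nat_lit 0) (.e (nat_lit 7079) (nat_lit 378) .nil)))))))) (.g (nat_lit 6) .nil .nil))))) (.nd (nat_lit 5) (.nd (nat_lit 6) 
(.lf (nat_lit 186524) (.g (nat_lit 1486) (.e (nat_lit 57873) (nat_lit 264) (.e (nat_lit 1221) (nat_lit 90) (.e (nat_lit 81947) (nat_lit 20) (.e (nat_lit 2005) (nat_lit 138) (.e (nat_lit 671766) (nat_lit 8) .nil))))) .nil)) 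
(.lf (nat_lit 186588) (.g (nat_lit 2042) (.e (nat_lit 57876) (nat_lit 270) (.e (nat_lit 1239) (nat_lit 91) (.e (nat_lit 90170) (nat_lit 13) (.e (nat_lit 172113) (nat_lit 10) (.e (nat_lit 434245) (nat_lit 28) (.e (nat_lit 573451) (nat_lit 9) (.e (nat_lit 11) (nat_lit 0) (.e (nat_lit 7080) (nat_lit 378) .nil)))))))) (.g (nat_lit 4) .nil .nil)))) (.nd (nat_lit 6) 
(.lf (nat_lit 186556) (.g (nat_lit 942) (.e (nat_lit 65280) (nat_lit 266) (.e (nat_lit 57372) (nat_lit 2) (.e (nat_lit 90174) (nat_lit 14) .nil))) .nil)) 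
(.lf (nat_lit 186620) (.g (nat_lit 2442) (.e (nat_lit 57876) (nat_lit 270) (.e (nat_lit 1400) (nat_lit 106) (.e (nat_lit 319533) (nat_lit 16) (.e (nat_lit 286753) (nat_lit 10) (.e (nat_lit 344157) (nat_lit 36) (.e (nat_lit 646912) (nat_lit 1) (.e (nat_lit 57813) (nat_lit 246) .nil))))))) (.g (nat_lit 5) .nil .nil)))))))) 
(.nd (nat_lit 2) (.nd (nat_lit 3) (.nd (nat_lit 4) (.nd (nat_lit 5) (.nd (nat_lit 6) 
(.lf (nat_lit 186498) (.g (nat_lit 2101) (.e (nat_lit 57873) (nat_lit 264) (.e (nat_lit 1211) (nat_lit 89) (.e (nat_lit 73781) (nat_lit 32) (.e (nat_lit 3090) (nat_lit 191) (.e (nat_lit 483389) (nat_lit 23) (.e (nat_lit 335991) (nat_lit 1) .nil)))))) (.g (nat_lit 4) .nil .nil))) 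
(.lf (nat_lit 186562) (.g (nat_lit 1891) (.e (nat_lit 65280) (nat_lit 266) (.e (nat_lit 57412) (nat_lit 12) (.e (nat_lit 336226) (nat_lit 14) (.e (nat_lit 401458) (nat_lit 13) (.e (nat_lit 483393) (nat_lit 23) .nil))))) .nil))) (.nd (nat_lit 6) 
(.lf (nat_lit 186530) (.g (nat_lit 2930) (.e (nat_lit 57873) (nat_lit 264) (.e (nat_lit 1221) (nat_lit 90) (.e (nat_lit 81956) (nat_lit 23) (.e (nat_lit 98346) (nat_lit 22) .nil)))) .nil)) 
(.lf (nat_lit 186594) (.g (nat_lit 3675) (.e (nat_lit 57876) (nat_lit 270) (.e (nat_lit 1239) (nat_lit 91) (.e (nat_lit 90170) (nat_lit 13) (.e (nat_lit 172113) (nat_lit 10) (.e (nat_lit 434248) (nat_lit 28) (.e (nat_lit 573452) (nat_lit 9) (.e (nat_lit 11) (nat_lit 0) (.e (nat_lit 7082) (nat_lit 378) .nil)))))))) (.g (nat_lit 7) .nil .nil))))) (.nd (nat_lit 5) (.nd (nat_lit 6) 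
(.lf (nat_lit 186514) (.g (nat_lit 1465) (.e (nat_lit 57873) (nat_lit 264) (.e (nat_lit 1220) (nat_lit 90) (.e (nat_lit 81938) (nat_lit 20) (.e (nat_lit 2006) (nat_lit 138) (.e (nat_lit 671764) (nat_lit 6) .nil))))) .nil)) 
(.lf (nat_lit 186578) (.g (nat_lit 3946) (.e (nat_lit 57876) (nat_lit 270) (.e (nat_lit 1239) (nat_lit 91) (.e (nat_lit 90170) (nat_lit 13) (.e (nat_lit 172106) (nat_lit 10) (.e (nat_lit 434231) (nat_lit 23) (.e (nat_lit 532490) (nat_lit 0) (.e (nat_lit 6206) (nat_lit 333) .nil))))))) (.g (nat_lit 7) .nil .nil)))) (.nd (nat_lit 6) 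
(.lf (nat_lit 186546) (.g (nat_lit 1719) (.e (nat_lit 57873) (nat_lit 264) (.e (nat_lit 1221) (nat_lit 90) (.e (nat_lit 81959) (nat_lit 24) (.e (nat_lit 123199) (nat_lit 267) .nil)))) .nil)) 
(.lf (nat_lit 186610) (.g (nat_lit 1171) (.e (nat_lit 57876) (nat_lit 270) (.e (nat_lit 1256) (nat_lit 92) (.e (nat_lit 98372) (nat_lit 29) (.e (nat_lit 450571) (nat_lit 1) .nil)))) .nil))))) (.nd (nat_lit 4) (.nd (nat_lit 5) (.nd (nat_lit 6) 
(.lf (nat_lit 186506) (.g (nat_lit 483) (.e (nat_lit 57873) (nat_lit 264) (.e (nat_lit 1219) (nat_lit 90) (.e (nat_lit 81938) (nat_lit 20) .nil))) .nil)) 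
(.lf (nat_lit 186570) (.g (nat_lit 988) (.e (nat_lit 65280) (nat_lit 267) (.e (nat_lit 122919) (nat_lit 15) (.e (nat_lit 360451) (nat_lit 0) (.e (nat_lit 5896) (nat_lit 320) .nil)))) .nil))) (.nd (nat_lit 6) 
(.lf (nat_lit 186538) (.g (nat_lit 1608) (.e (nat_lit 57873) (nat_lit 264) (.e (nat_lit 1221) (nat_lit 90) (.e (nat_lit 81959) (nat_lit 24) (.e (nat_lit 123191) (nat_lit 264) .nil)))) .nil)) 
(.lf (nat_lit 186602) (.g (nat_lit 2472) (.e (nat_lit 57876) (nat_lit 270) (.e (nat_lit 1256) (nat_lit 92) (.e (nat_lit 98359) (nat_lit 26) (.e (nat_lit 426286) (nat_lit 10) (.e (nat_lit 434245) (nat_lit 28) (.e (nat_lit 573468) (nat_lit 10) (.e (nat_lit 16128) (nat_lit 181) .nil))))))) (.g (nat_lit 6) .nil .nil))))) (.nd (nat_lit 5) (.nd (nat_lit 6) 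
(.lf (nat_lit 186522) (.g (nat_lit 672) (.e (nat_lit 57873) (nat_lit 264) (.e (nat_lit 1221) (nat_lit 90) (.e (nat_lit 81935) (nat_lit 20) .nil))) .nil)) 
(.lf (nat_lit 186586) (.g (nat_lit 4017) (.e (nat_lit 57876) (nat_lit 270) (.e (nat_lit 1239) (nat_lit 91) (.e (nat_lit 90170) (nat_lit 13) (.e (nat_lit 172113) (nat_lit 10) (.e (nat_lit 434245) (nat_lit 28) (.e (nat_lit 573451) (nat_lit 9) (.e (nat_lit 11) (nat_lit 0) (.e (nat_lit 7077) (nat_lit 378) .nil)))))))) (.g (nat_lit 7) .nil .nil)))) (.nd (nat_lit 6) 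
(.lf (nat_lit 186554) (.g (nat_lit 2248) (.e (nat_lit 65280) (nat_lit 266) (.e (nat_lit 57371) (nat_lit 2) (.e (nat_lit 90174) (nat_lit 14) (.e (nat_lit 180243) (nat_lit 5) (.e (nat_lit 532508) (nat_lit 2) .nil))))) .nil)) 
(.lf (nat_lit 186618) (.g (nat_lit 3231) (.e (nat_lit 57876) (nat_lit 270) (.e (nat_lit 1256) (nat_lit 92) (.e (nat_lit 98373) (nat_lit 29) (.e (nat_lit 450588) (nat_lit 10) (.e (nat_lit 573457) (nat_lit 9) (.e (nat_lit 13) (nat_lit 0) (.e (nat_lit 7082) (nat_lit 378) .nil))))))) (.g (nat_lit 5) .nil .nil))))))) (.nd (nat_lit 3) (.nd (nat_lit 4) (.nd (nat_lit 5) (.nd (nat_lit 6) 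
(.lf (nat_lit 186502) (.g (nat_lit 1881) (.e (nat_lit 57873) (nat_lit 264) (.e (nat_lit 1211) (nat_lit 89) (.e (nat_lit 73782) (nat_lit 32) (.e (nat_lit 3090) (nat_lit 191) (.e (nat_lit 483389) (nat_lit 23) (.e (nat_lit 335991) (nat_lit 1) .nil)))))) (.g (nat_lit 4) .nil .nil))) 
(.lf (nat_lit 186566) (.g (nat_lit 668) (.e (nat_lit 65280) (nat_lit 267) (.e (nat_lit 122916) (nat_lit 14) (.e (nat_lit 352309) (nat_lit 21) .nil))) .nil))) (.nd (nat_lit 6) 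
(.lf (nat_lit 186534) (.g (nat_lit 2747) (.e (nat_lit 57873) (nat_lit 264) (.e (nat_lit 1221) (nat_lit 90) (.e (nat_lit 81959) (nat_lit 24) (.e (nat_lit 123182) (nat_lit 264) (.e (nat_lit 1218) (nat_lit 90) (.e (nat_lit 81950) (nat_lit 21) .nil)))))) (.g (nat_lit 4) .nil .nil))) 
(.lf (nat_lit 186598) (.g (nat_lit 197) (.e (nat_lit 57876) (nat_lit 270) (.e (nat_lit 1256) (nat_lit 92) (.e (nat_lit 98359) (nat_lit 26) .nil))) .nil)))) (.nd (nat_lit 5) (.nd (nat_lit 6) 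
(.lf (nat_lit 186518) (.g (nat_lit 2774) (.e (nat_lit 57873) (nat_lit 264) (.e (nat_lit 1220) (nat_lit 90) (.e (nat_lit 81959) (nat_lit 24) (.e (nat_lit 123183) (nat_lit 264) (.e (nat_lit 1222) (nat_lit 90) (.e (nat_lit 81948) (nat_lit 21) .nil)))))) (.g (nat_lit 4) .nil .nil))) 
(.lf (nat_lit 186582) (.g (nat_lit 1827) (.e (nat_lit 57876) (nat_lit 270) (.e (nat_lit 1239) (nat_lit 91) (.e (nat_lit 90170) (nat_lit 13) (.e (nat_lit 172113) (nat_lit 10) (.e (nat_lit 434242) (nat_lit 28) (.e (nat_lit 573451) (nat_lit 9) (.e (nat_lit 11) (nat_lit 0) (.e (nat_lit 7081) (nat_lit 378) .nil)))))))) (.g (nat_lit 4) .nil .nil)))) (.nd (nat_lit 6) 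
(.lf (nat_lit 186550) (.g (nat_lit 767) (.e (nat_lit 65280) (nat_lit 264) (.e (nat_lit 1207) (nat_lit 89) (.e (nat_lit 73781) (nat_lit 32) (.e (nat_lit 2856) (nat_lit 184) .nil)))) .nil)) 
(.lf (nat_lit 186614) (.g (nat_lit 1823) (.e (nat_lit 57876) (nat_lit 270) (.e (nat_lit 1256) (nat_lit 92) (.e (nat_lit 98372) (nat_lit 29) (.e (nat_lit 450586) (nat_lit 10) (.e (nat_lit 573452) (nat_lit 9) (.e (nat_lit 11) (nat_lit 0) (.e (nat_lit 7077) (nat_lit 378) .nil))))))) (.g (nat_lit 6) .nil .nil)))))) (.nd (nat_lit 4) (.nd (nat_lit 5) (.nd (nat_lit 6) 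
(.lf (nat_lit 186510) (.g (nat_lit 977) (.e (nat_lit 57873) (nat_lit 264) (.e (nat_lit 1219) (nat_lit 90) (.e (nat_lit 81954) (nat_lit 23) (.e (nat_lit 98321) (nat_lit 17) .nil)))) .nil)) 
(.lf (nat_lit 186574) (.g (nat_lit 808) (.e (nat_lit 57876) (nat_lit 270) (.e (nat_lit 371) (nat_lit 32) (.e (nat_lit 426544) (nat_lit 30) .nil))) .nil))) (.nd (nat_lit 6) 
(.lf (nat_lit 186542) (.g (nat_lit 2208) (.e (nat_lit 57873) (nat_lit 264) (.e (nat_lit 1221) (nat_lit 90) (.e (nat_lit 81959) (nat_lit 24) (.e (nat_lit 123195) (nat_lit 266) (.e (nat_lit 57400) (nat_lit 10) .nil))))) .nil)) 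
(.lf (nat_lit 186606) (.g (nat_lit 1761) (.e (nat_lit 57876) (nat_lit 270) (.e (nat_lit 1256) (nat_lit 92) (.e (nat_lit 98359) (nat_lit 26) (.e (nat_lit 426338) (nat_lit 14) (.e (nat_lit 491540) (nat_lit 3) .nil))))) .nil)))) (.nd (nat_lit 5) (.nd (nat_lit 6) 
(.lf (nat_lit 186526) (.g (nat_lit 1755) (.e (nat_lit 57873) (nat_lit 264) (.e (nat_lit 1221) (nat_lit 90) (.e (nat_lit 81950) (nat_lit 21) (.e (nat_lit 57873) (nat_lit 264) (.e (nat_lit 7936) (nat_lit 90) .nil))))) .nil)) 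
(.lf (nat_lit 186590) (.g (nat_lit 3073) (.e (nat_lit 57876) (nat_lit 270) (.e (nat_lit 1239) (nat_lit 91) (.e (nat_lit 90170) (nat_lit 13) (.e (nat_lit 172113) (nat_lit 10) (.e (nat_lit 434245) (nat_lit 28) (.e (nat_lit 573468) (nat_lit 10) (.e (nat_lit 16128) (nat_lit 181) .nil))))))) (.g (nat_lit 6) .nil .nil)))) (.nd (nat_lit 6) 
(.lf (nat_lit 186558) (.g (nat_lit 2091) (.e (nat_lit 65280) (nat_lit 266) (.e (nat_lit 57375) (nat_lit 2) (.e (nat_lit 90174) (nat_lit 14) (.e (nat_lit 180243) (nat_lit 5) (.e (nat_lit 532508) (nat_lit 2) .nil))))) .nil)) 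
(.lf (nat_lit 186622) (.g (nat_lit 1426) (.e (nat_lit 57876) (nat_lit 270) (.e (nat_lit 1400) (nat_lit 106) (.e (nat_lit 319534) (nat_lit 16) (.e (nat_lit 286756) (nat_lit 10) .nil)))) .nil)))))))) (.nd (nat_lit 1) (.nd (nat_lit 2) (.nd (nat_lit 3) (.nd (nat_lit 4) (.nd (nat_lit 5) (.nd (nat_lit 6) 
(.lf (nat_lit 186497) (.g (nat_lit 2780) (.e (nat_lit 57873) (nat_lit 264) (.e (nat_lit 1211) (nat_lit 89) (.e (nat_lit 73781) (nat_lit 32) (.e (nat_lit 3090) (nat_lit 191) (.e (nat_lit 483380) (nat_lit 23) (.e (nat_lit 343808) (nat_lit 1) .nil)))))) (.g (nat_lit 5) .nil .nil))) 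
(.lf (nat_lit 186561) (.g (nat_lit 2254) (.e (nat_lit 65280) (nat_lit 266) (.e (nat_lit 57412) (nat_lit 12) (.e (nat_lit 336226) (nat_lit 14) (.e (nat_lit 401438) (nat_lit 9) (.e (nat_lit 426555) (nat_lit 32) .nil))))) .nil))) (.nd (nat_lit 6) 
(.lf (nat_lit 186529) (.g (nat_lit 2226) (.e (nat_lit 57873) (nat_lit 264) (.e (nat_lit 1221) (nat_lit 90) (.e (nat_lit 81956) (nat_lit 23) (.e (nat_lit 98321) (nat_lit 17) .nil)))) .nil)) 
(.lf (nat_lit 186593) (.g (nat_lit 3453) (.e (nat_lit 57876) (nat_lit 270) (.e (nat_lit 1239) (nat_lit 91) (.e (nat_lit 90170) (nat_lit 13) (.e (nat_lit 172113) (nat_lit 10) (.e (nat_lit 434248) (nat_lit 28) (.e (nat_lit 573452) (nat_lit 9) (.e (nat_lit 11) (nat_lit 0) (.e (nat_lit 7079) (nat_lit 378) .nil)))))))) (.g (nat_lit 6) .nil .nil))))) (.nd (nat_lit 5) (.nd (nat_lit 6) 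
(.lf (nat_lit 186513) (.g (nat_lit 1315) (.e (nat_lit 57873) (nat_lit 264) (.e (nat_lit 1220) (nat_lit 90) (.e (nat_lit 81938) (nat_lit 20) (.e (nat_lit 2005) (nat_lit 138) .nil)))) .nil)) 
(.lf (nat_lit 186577) (.g (nat_lit 1809) (.e (nat_lit 57876) (nat_lit 270) (.e (nat_lit 1239) (nat_lit 91) (.e (nat_lit 90170) (nat_lit 13) (.e (nat_lit 172097) (nat_lit 9) .nil)))) .nil))) (.nd (nat_lit 6) 
(.lf (nat_lit 186545) (.g (nat_lit 1604) (.e (nat_lit 57873) (nat_lit 264) (.e (nat_lit 1221) (nat_lit 90) (.e (nat_lit 81959) (nat_lit 24) (.e (nat_lit 123198) (nat_lit 266) .nil)))) .nil)) 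
(.lf (nat_lit 186609) (.g (nat_lit 1905) (.e (nat_lit 57876) (nat_lit 270) (.e (nat_lit 1256) (nat_lit 92) (.e (nat_lit 98370) (nat_lit 28) (.e (nat_lit 442427) (nat_lit 23) (.e (nat_lit 212736) (nat_lit 17) .nil))))) .nil))))) (.nd (nat_lit 4) (.nd (nat_lit 5) (.nd (nat_lit 6) 
(.lf (nat_lit 186505) (.g (nat_lit 670) (.e (nat_lit 57873) (nat_lit 264) (.e (nat_lit 1219) (nat_lit 90) (.e (nat_lit 81928) (nat_lit 20) (.e (nat_lit 970) (nat_lit 81) .nil)))) .nil)) 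
(.lf (nat_lit 186569) (.g (nat_lit 622) (.e (nat_lit 65280) (nat_lit 267) (.e (nat_lit 122917) (nat_lit 15) (.e (nat_lit 360486) (nat_lit 18) .nil))) .nil))) (.nd (nat_lit 6) 
(.lf (nat_lit 186537) (.g (nat_lit 1234) (.e (nat_lit 57873) (nat_lit 264) (.e (nat_lit 1221) (nat_lit 90) (.e (nat_lit 81959) (nat_lit 24) (.e (nat_lit 123184) (nat_lit 264) .nil)))) .nil)) 
(.lf (nat_lit 186601) (.g (nat_lit 3396) (.e (nat_lit 57876) (nat_lit 270) (.e (nat_lit 1256) (nat_lit 92) (.e (nat_lit 98359) (nat_lit 26) (.e (nat_lit 426286) (nat_lit 10) (.e (nat_lit 434245) (nat_lit 28) (.e (nat_lit 573451) (nat_lit 9) (.e (nat_lit 11) (nat_lit 0) (.e (nat_lit 7081) (nat_lit 378) .nil)))))))) (.g (nat_lit 7) .nil .nil))))) (.nd (nat_lit 5) (.nd (nat_lit 6) 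
(.lf (nat_lit 186521) (.g (nat_lit 780) (.e (nat_lit 57873) (nat_lit 264) (.e (nat_lit 1221) (nat_lit 90) (.e (nat_lit 81931) (nat_lit 20) (.e (nat_lit 1996) (nat_lit 137) (.e (nat_lit 663569) (nat_lit 6) .nil))))) .nil)) 
(.lf (nat_lit 186585) (.g (nat_lit 2016) (.e (nat_lit 57876) (nat_lit 270) (.e (nat_lit 1239) (nat_lit 91) (.e (nat_lit 90170) (nat_lit 13) (.e (nat_lit 172113) (nat_lit 10) (.e (nat_lit 434242) (nat_lit 28) (.e (nat_lit 573451) (nat_lit 9) (.e (nat_lit 13) (nat_lit 0) (.e (nat_lit 7079) (nat_lit 378) .nil)))))))) (.g (nat_lit 4) .nil .nil)))) (.nd (nat_lit 6) 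
(.lf (nat_lit 186553) (.g (nat_lit 461) (.e (nat_lit 65280) (nat_lit 264) (.e (nat_lit 1212) (nat_lit 89) (.e (nat_lit 73782) (nat_lit 32) .nil))) .nil)) 
(.lf (nat_lit 186617) (.g (nat_lit 2540) (.e (nat_lit 57876) (nat_lit 270) (.e (nat_lit 1256) (nat_lit 92) (.e (nat_lit 98373) (nat_lit 29) (.e (nat_lit 450588) (nat_lit 10) (.e (nat_lit 573452) (nat_lit 9) (.e (nat_lit 11) (nat_lit 0) (.e (nat_lit 7079) (nat_lit 378) .nil))))))) (.g (nat_lit 5) .nil .nil))))))) (.nd (nat_lit 3) (.nd (nat_lit 4) (.nd (nat_lit 5) (.nd (nat_lit 6) 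
(.lf (nat_lit 186501) (.g (nat_lit 2650) (.e (nat_lit 57873) (nat_lit 264) (.e (nat_lit 1211) (nat_lit 89) (.e (nat_lit 73782) (nat_lit 32) (.e (nat_lit 3090) (nat_lit 191) (.e (nat_lit 483380) (nat_lit 23) (.e (nat_lit 343808) (nat_lit 1) .nil)))))) (.g (nat_lit 5) .nil .nil))) 
(.lf (nat_lit 186565) (.g (nat_lit 612) (.e (nat_lit 65280) (nat_lit 267) (.e (nat_lit 122916) (nat_lit 14) (.e (nat_lit 352270) (nat_lit 8) .nil))) .nil))) (.nd (nat_lit 6) 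
(.lf (nat_lit 186533) (.g (nat_lit 2555) (.e (nat_lit 57873) (nat_lit 264) (.e (nat_lit 1221) (nat_lit 90) (.e (nat_lit 81959) (nat_lit 24) (.e (nat_lit 123182) (nat_lit 264) (.e (nat_lit 997) (nat_lit 81) .nil))))) .nil)) 
(.lf (nat_lit 186597) (.g (nat_lit 1587) (.e (nat_lit 57876) (nat_lit 270) (.e (nat_lit 1239) (nat_lit 91) (.e (nat_lit 90176) (nat_lit 15) (.e (nat_lit 188450) (nat_lit 23) .nil)))) .nil)))) (.nd (nat_lit 5) (.nd (nat_lit 6) 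
(.lf (nat_lit 186517) (.g (nat_lit 2729) (.e (nat_lit 57873) (nat_lit 264) (.e (nat_lit 1220) (nat_lit 90) (.e (nat_lit 81959) (nat_lit 24) (.e (nat_lit 123182) (nat_lit 264) (.e (nat_lit 1223) (nat_lit 90) .nil))))) .nil)) 
(.lf (nat_lit 186581) (.g (nat_lit 1817) (.e (nat_lit 57876) (nat_lit 270) (.e (nat_lit 1239) (nat_lit 91) (.e (nat_lit 90170) (nat_lit 13) (.e (nat_lit 172113) (nat_lit 10) (.e (nat_lit 434242) (nat_lit 28) (.e (nat_lit 573451) (nat_lit 9) (.e (nat_lit 11) (nat_lit 0) (.e (nat_lit 7077) (nat_lit 378) .nil)))))))) (.g (nat_lit 4) .nil .nil)))) (.nd (nat_lit 6) 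
(.lf (nat_lit 186549) (.g (nat_lit 1877) (.e (nat_lit 65280) (nat_lit 264) (.e (nat_lit 1201) (nat_lit 88) (.e (nat_lit 65630) (nat_lit 14) (.e (nat_lit 401458) (nat_lit 13) (.e (nat_lit 483393) (nat_lit 23) .nil))))) .nil)) 
(.lf (nat_lit 186613) (.g (nat_lit 1593) (.e (nat_lit 57876) (nat_lit 270) (.e (nat_lit 1256) (nat_lit 92) (.e (nat_lit 98372) (nat_lit 29) (.e (nat_lit 450579) (nat_lit 5) (.e (nat_lit 532489) (nat_lit 0) (.e (nat_lit 7936) (nat_lit 333) .nil)))))) (.g (nat_lit 5) .nil .nil)))))) (.nd (nat_lit 4) (.nd (nat_lit 5) (.nd (nat_lit 6) 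
(.lf (nat_lit 186509) (.g (nat_lit 1808) (.e (nat_lit 57873) (nat_lit 264) (.e (nat_lit 1219) (nat_lit 90) (.e (nat_lit 81949) (nat_lit 21) (.e (nat_lit 57873) (nat_lit 264) (.e (nat_lit 1220) (nat_lit 90) .nil))))) .nil)) 
(.lf (nat_lit 186573) (.g (nat_lit 1090) (.e (nat_lit 65280) (nat_lit 267) (.e (nat_lit 122919) (nat_lit 15) (.e (nat_lit 360486) (nat_lit 18) (.e (nat_lit 671764) (nat_lit 6) .nil)))) .nil))) (.nd (nat_lit 6) 
(.lf (nat_lit 186541) (.g (nat_lit 1708) (.e (nat_lit 57873) (nat_lit 264) (.e (nat_lit 1221) (nat_lit 90) (.e (nat_lit 81959) (nat_lit 24) (.e (nat_lit 123195) (nat_lit 266) .nil)))) .nil)) 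
(.lf (nat_lit 186605) (.g (nat_lit 3008) (.e (nat_lit 57876) (nat_lit 270) (.e (nat_lit 1256) (nat_lit 92) (.e (nat_lit 98359) (nat_lit 26) (.e (nat_lit 426286) (nat_lit 10) (.e (nat_lit 434248) (nat_lit 28) (.e (nat_lit 573452) (nat_lit 9) (.e (nat_lit 11) (nat_lit 0) (.e (nat_lit 7082) (nat_lit 378) .nil)))))))) (.g (nat_lit 7) .nil .nil))))) (.nd (nat_lit 5) (.nd (nat_lit 6) 
(.lf (nat_lit 186525) (.g (nat_lit 1702) (.e (nat_lit 57873) (nat_lit 264) (.e (nat_lit 1221) (nat_lit 90) (.e (nat_lit 81947) (nat_lit 20) (.e (nat_lit 2006) (nat_lit 138) (.e (nat_lit 671744) (nat_lit 0) .nil))))) .nil)) 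
(.lf (nat_lit 186589) (.g (nat_lit 4027) (.e (nat_lit 57876) (nat_lit 270) (.e (nat_lit 1239) (nat_lit 91) (.e (nat_lit 90170) (nat_lit 13) (.e (nat_lit 172113) (nat_lit 10) (.e (nat_lit 434245) (nat_lit 28) (.e (nat_lit 573451) (nat_lit 9) (.e (nat_lit 11) (nat_lit 0) (.e (nat_lit 7081) (nat_lit 378) .nil)))))))) (.g (nat_lit 7) .nil .nil)))) (.nd (nat_lit 6) 
(.lf (nat_lit 186557) (.g (nat_lit 2122) (.e (nat_lit 65280) (nat_lit 266) (.e (nat_lit 57375) (nat_lit 2) (.e (nat_lit 90172) (nat_lit 14) (.e (nat_lit 180244) (nat_lit 5) (.e (nat_lit 532508) (nat_lit 2) .nil))))) .nil)) 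
(.lf (nat_lit 186621) (.g (nat_lit 1190) (.e (nat_lit 57876) (nat_lit 270) (.e (nat_lit 1400) (nat_lit 106) (.e (nat_lit 319534) (nat_lit 16) (.e (nat_lit 286749) (nat_lit 9) .nil)))) .nil))))))) (.nd (nat_lit 2) (.nd (nat_lit 3) (.nd (nat_lit 4) (.nd (nat_lit 5) (.nd (nat_lit 6) 
(.lf (nat_lit 186499) (.g (nat_lit 2052) (.e (nat_lit 57873) (nat_lit 264) (.e (nat_lit 1211) (nat_lit 89) (.e (nat_lit 73782) (nat_lit 32) (.e (nat_lit 3088) (nat_lit 191) (.e (nat_lit 483389) (nat_lit 23) (.e (nat_lit 335991) (nat_lit 1) .nil)))))) (.g (nat_lit 4) .nil .nil))) 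
(.lf (nat_lit 186563) (.g (nat_lit 460) (.e (nat_lit 65280) (nat_lit 266) (.e (nat_lit 57424) (nat_lit 14) (.e (nat_lit 352318) (nat_lit 24) .nil))) .nil))) (.nd (nat_lit 6) 
(.lf (nat_lit 186531) (.g (nat_lit 1781) (.e (nat_lit 57873) (nat_lit 264) (.e (nat_lit 1221) (nat_lit 90) (.e (nat_lit 81959) (nat_lit 24) (.e (nat_lit 123181) (nat_lit 264) .nil)))) .nil)) 
(.lf (nat_lit 186595) (.g (nat_lit 2539) (.e (nat_lit 57876) (nat_lit 270) (.e (nat_lit 1239) (nat_lit 91) (.e (nat_lit 90170) (nat_lit 13) (.e (nat_lit 172115) (nat_lit 10) (.e (nat_lit 434231) (nat_lit 23) .nil))))) .nil)))) (.nd (nat_lit 5) (.nd (nat_lit 6) 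
(.lf (nat_lit 186515) (.g (nat_lit 1694) (.e (nat_lit 57873) (nat_lit 264) (.e (nat_lit 1220) (nat_lit 90) (.e (nat_lit 81950) (nat_lit 21) (.e (nat_lit 57873) (nat_lit 264) (.e (nat_lit 7936) (nat_lit 90) .nil))))) .nil)) 
(.lf (nat_lit 186579) (.g (nat_lit 3660) (.e (nat_lit 57876) (nat_lit 270) (.e (nat_lit 1239) (nat_lit 91) (.e (nat_lit 90170) (nat_lit 13) (.e (nat_lit 172106) (nat_lit 10) (.e (nat_lit 434231) (nat_lit 23) (.e (nat_lit 532490) (nat_lit 0) (.e (nat_lit 7936) (nat_lit 333) .nil))))))) (.g (nat_lit 6) .nil .nil)))) (.nd (nat_lit 6) 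
(.lf (nat_lit 186547) (.g (nat_lit 1637) (.e (nat_lit 57875) (nat_lit 264) (.e (nat_lit 1196) (nat_lit 88) (.e (nat_lit 65624) (nat_lit 12) (.e (nat_lit 385093) (nat_lit 49) (.e (nat_lit 778326) (nat_lit 6) .nil))))) .nil)) 
(.lf (nat_lit 186611) (.g (nat_lit 1634) (.e (nat_lit 57876) (nat_lit 270) (.e (nat_lit 1256) (nat_lit 92) (.e (nat_lit 98372) (nat_lit 29) (.e (nat_lit 450579) (nat_lit 5) (.e (nat_lit 532484) (nat_lit 0) (.e (nat_lit 7936) (nat_lit 333) .nil)))))) (.g (nat_lit 5) .nil .nil)))))) (.nd (nat_lit 4) (.nd (nat_lit 5) (.nd (nat_lit 6) 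
(.lf (nat_lit 186507) (.g (nat_lit 1062) (.e (nat_lit 57873) (nat_lit 264) (.e (nat_lit 1219) (nat_lit 90) (.e (nat_lit 81938) (nat_lit 20) (.e (nat_lit 2006) (nat_lit 138) .nil)))) .nil)) 
(.lf (nat_lit 186571) (.g (nat_lit 929) (.e (nat_lit 65280) (nat_lit 267) (.e (nat_lit 122919) (nat_lit 15) (.e (nat_lit 360451) (nat_lit 0) (.e (nat_lit 5898) (nat_lit 320) (.e (nat_lit 7936) (nat_lit 90) .nil))))) .nil))) (.nd (nat_lit 6) 
(.lf (nat_lit 186539) (.g (nat_lit 1722) (.e (nat_lit 57873) (nat_lit 264) (.e (nat_lit 1221) (nat_lit 90) (.e (nat_lit 81959) (nat_lit 24) (.e (nat_lit 123191) (nat_lit 264) (.e (nat_lit 1219) (nat_lit 90) .nil))))) .nil)) 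
(.lf (nat_lit 186603) (.g (nat_lit 2913) (.e (nat_lit 57876) (nat_lit 270) (.e (nat_lit 1256) (nat_lit 92) (.e (nat_lit 98359) (nat_lit 26) (.e (nat_lit 426286) (nat_lit 10) (.e (nat_lit 434248) (nat_lit 28) (.e (nat_lit 573452) (nat_lit 9) (.e (nat_lit 11) (nat_lit 0) (.e (nat_lit 7077) (nat_lit 378) .nil)))))))) (.g (nat_lit 6) .nil .nil))))) (.nd (nat_lit 5) (.nd (nat_lit 6) 
(.lf (nat_lit 186523) (.g (nat_lit 1187) (.e (nat_lit 57873) (nat_lit 264) (.e (nat_lit 1221) (nat_lit 90) (.e (nat_lit 81938) (nat_lit 20) (.e (nat_lit 2004) (nat_lit 138) .nil)))) .nil)) 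
(.lf (nat_lit 186587) (.g (nat_lit 3930) (.e (nat_lit 57876) (nat_lit 270) (.e (nat_lit 1239) (nat_lit 91) (.e (nat_lit 90170) (nat_lit 13) (.e (nat_lit 172113) (nat_lit 10) (.e (nat_lit 434245) (nat_lit 28) (.e (nat_lit 573451) (nat_lit 9) (.e (nat_lit 11) (nat_lit 0) (.e (nat_lit 7079) (nat_lit 378) .nil)))))))) (.g (nat_lit 7) .nil .nil)))) (.nd (nat_lit 6) 
(.lf (nat_lit 186555) (.g (nat_lit 2073) (.e (nat_lit 65280) (nat_lit 266) (.e (nat_lit 57372) (nat_lit 2) (.e (nat_lit 90172) (nat_lit 14) (.e (nat_lit 180244) (nat_lit 5) (.e (nat_lit 532508) (nat_lit 2) .nil))))) .nil)) 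
(.lf (nat_lit 186619) (.g (nat_lit 1313) (.e (nat_lit 57876) (nat_lit 270) (.e (nat_lit 1400) (nat_lit 106) (.e (nat_lit 319533) (nat_lit 16) (.e (nat_lit 286753) (nat_lit 10) .nil)))) .nil)))))) (.nd (nat_lit 3) (.nd (nat_lit 4) (.nd (nat_lit 5) (.nd (nat_lit 6) 
(.lf (nat_lit 186503) (.g (nat_lit 1901) (.e (nat_lit 57873) (nat_lit 264) (.e (nat_lit 1211) (nat_lit 89) (.e (nat_lit 73789) (nat_lit 45) (.e (nat_lit 1385) (nat_lit 105) (.e (nat_lit 311358) (nat_lit 29) (.e (nat_lit 352307) (nat_lit 21) .nil)))))) (.g (nat_lit 4) .nil .nil))) 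
(.lf (nat_lit 186567) (.g (nat_lit 594) (.e (nat_lit 65280) (nat_lit 267) (.e (nat_lit 122917) (nat_lit 15) (.e (nat_lit 360452) (nat_lit 0) .nil))) .nil))) (.nd (nat_lit 6) 
(.lf (nat_lit 186535) (.g (nat_lit 3179) (.e (nat_lit 57873) (nat_lit 264) (.e (nat_lit 1221) (nat_lit 90) (.e (nat_lit 81959) (nat_lit 24) (.e (nat_lit 123182) (nat_lit 264) (.e (nat_lit 1294) (nat_lit 96) .nil))))) .nil)) 
(.lf (nat_lit 186599) (.g (nat_lit 3397) (.e (nat_lit 57876) (nat_lit 270) (.e (nat_lit 1256) (nat_lit 92) (.e (nat_lit 98359) (nat_lit 26) (.e (nat_lit 426286) (nat_lit 10) (.e (nat_lit 434245) (nat_lit 28) (.e (nat_lit 573451) (nat_lit 9) (.e (nat_lit 11) (nat_lit 0) (.e (nat_lit 7077) (nat_lit 378) .nil)))))))) (.g (nat_lit 7) .nil .nil))))) (.nd (nat_lit 5) (.nd (nat_lit 6) 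
(.lf (nat_lit 186519) (.g (nat_lit 2004) (.e (nat_lit 57873) (nat_lit 264) (.e (nat_lit 1220) (nat_lit 90) (.e (nat_lit 81959) (nat_lit 24) (.e (nat_lit 123185) (nat_lit 264) (.e (nat_lit 1223) (nat_lit 90) .nil))))) .nil)) 
(.lf (nat_lit 186583) (.g (nat_lit 1887) (.e (nat_lit 57876) (nat_lit 270) (.e (nat_lit 1239) (nat_lit 91) (.e (nat_lit 90170) (nat_lit 13) (.e (nat_lit 172113) (nat_lit 10) (.e (nat_lit 434242) (nat_lit 28) (.e (nat_lit 573451) (nat_lit 9) (.e (nat_lit 11) (nat_lit 0) (.e (nat_lit 7082) (nat_lit 378) .nil)))))))) (.g (nat_lit 4) .nil .nil)))) (.nd (nat_lit 6) 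
(.lf (nat_lit 186551) (.g (nat_lit 340) (.e (nat_lit 65280) (nat_lit 264) (.e (nat_lit 1207) (nat_lit 89) (.e (nat_lit 73792) (nat_lit 45) (.e (nat_lit 1386) (nat_lit 105) .nil)))) .nil)) 
(.lf (nat_lit 186615) (.g (nat_lit 1673) (.e (nat_lit 57876) (nat_lit 270) (.e (nat_lit 1256) (nat_lit 92) (.e (nat_lit 98372) (nat_lit 29) (.e (nat_lit 450586) (nat_lit 10) (.e (nat_lit 573452) (nat_lit 9) (.e (nat_lit 11) (nat_lit 0) (.e (nat_lit 7079) (nat_lit 378) .nil))))))) (.g (nat_lit 5) .nil .nil)))))) (.nd (nat_lit 4) (.nd (nat_lit 5) (.nd (nat_lit 6) 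
(.lf (nat_lit 186511) (.g (nat_lit 1964) (.e (nat_lit 57873) (nat_lit 264) (.e (nat_lit 1219) (nat_lit 90) (.e (nat_lit 81959) (nat_lit 24) (.e (nat_lit 123185) (nat_lit 264) (.e (nat_lit 1223) (nat_lit 90) (.e (nat_lit 81950) (nat_lit 21) .nil)))))) (.g (nat_lit 4) .nil .nil))) 
(.lf (nat_lit 186575) (.g (nat_lit 1240) (.e (nat_lit 57876) (nat_lit 270) (.e (nat_lit 371) (nat_lit 32) (.e (nat_lit 426544) (nat_lit 30) (.e (nat_lit 360467) (nat_lit 3) .nil)))) .nil))) (.nd (nat_lit 6) 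
(.lf (nat_lit 186543) (.g (nat_lit 2523) (.e (nat_lit 57873) (nat_lit 264) (.e (nat_lit 1221) (nat_lit 90) (.e (nat_lit 81959) (nat_lit 24) (.e (nat_lit 123195) (nat_lit 266) (.e (nat_lit 57435) (nat_lit 17) .nil))))) .nil)) 
(.lf (nat_lit 186607) (.g (nat_lit 844) (.e (nat_lit 57876) (nat_lit 270) (.e (nat_lit 1256) (nat_lit 92) (.e (nat_lit 98370) (nat_lit 28) (.e (nat_lit 442423) (nat_lit 22) .nil)))) .nil)))) (.nd (nat_lit 5) (.nd (nat_lit 6) 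
(.lf (nat_lit 186527) (.g (nat_lit 645) (.e (nat_lit 57873) (nat_lit 264) (.e (nat_lit 1221) (nat_lit 90) (.e (nat_lit 81956) (nat_lit 23) .nil))) .nil)) 
(.lf (nat_lit 186591) (.g (nat_lit 2127) (.e (nat_lit 57876) (nat_lit 270) (.e (nat_lit 1239) (nat_lit 91) (.e (nat_lit 90170) (nat_lit 13) (.e (nat_lit 172113) (nat_lit 10) (.e (nat_lit 434247) (nat_lit 28) (.e (nat_lit 573457) (nat_lit 9) (.e (nat_lit 11) (nat_lit 0) (.e (nat_lit 7077) (nat_lit 378) .nil)))))))) (.g (nat_lit 4) .nil .nil)))) (.nd (nat_lit 6) 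
(.lf (nat_lit 186559) (.g (nat_lit 1319) (.e (nat_lit 65280) (nat_lit 266) (.e (nat_lit 57379) (nat_lit 3) (.e (nat_lit 98366) (nat_lit 27) (.e (nat_lit 434244) (nat_lit 28) .nil)))) .nil)) 
(.lf (nat_lit 186623) (.g (nat_lit 2743) (.e (nat_lit 57876) (nat_lit 270) (.e (nat_lit 1400) (nat_lit 106) (.e (nat_lit 319534) (nat_lit 16) (.e (nat_lit 286756) (nat_lit 10) (.e (nat_lit 344157) (nat_lit 36) (.e (nat_lit 646912) (nat_lit 1) (.e (nat_lit 57814) (nat_lit 246) .nil))))))) (.g (nat_lit 5) .nil .nil))))))))))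

noncomputable def tv2480 : DT := (.nd (nat_lit 0) (.nd (nat_lit 1) (.nd (nat_lit 2) (.nd (nat_lit 3) (.nd (nat_lit 4) (.nd (nat_lit 5) (.nd (nat_lit 6) 
(.lf (nat_lit 186624) (.g (nat_lit 2208) (.e (nat_lit 57876) (nat_lit 270) (.e (nat_lit 1400) (nat_lit 106) (.e (nat_lit 319534) (nat_lit 16) (.e (nat_lit 286756) (nat_lit 10) (.e (nat_lit 344160) (nat_lit 37) .nil))))) .nil)) 
(.lf (nat_lit 186688) (.g (nat_lit 749) (.e (nat_lit 57883) (nat_lit 270) (.e (nat_lit 371) (nat_lit 32) (.e (nat_lit 426555) (nat_lit 32) (.e (nat_lit 384768) (nat_lit 2) .nil)))) .nil))) (.nd (nat_lit 6) 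
(.lf (nat_lit 186656) (.g (nat_lit 807) (.e (nat_lit 57879) (nat_lit 270) (.e (nat_lit 496) (nat_lit 39) (.e (nat_lit 483377) (nat_lit 22) (.e (nat_lit 327680) (nat_lit 0) .nil)))) .nil)) 
(.lf (nat_lit 186720) (.g (nat_lit 2068) (.e (nat_lit 57884) (nat_lit 270) (.e (nat_lit 1250) (nat_lit 92) (.e (nat_lit 98372) (nat_lit 29) (.e (nat_lit 450579) (nat_lit 5) (.e (nat_lit 532480) (nat_lit 0) (.e (nat_lit 6210) (nat_lit 333) .nil)))))) (.g (nat_lit 4) .nil .nil))))) (.nd (nat_lit 5) (.nd (nat_lit 6) 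
(.lf (nat_lit 186640) (.g (nat_lit 671) (.e (nat_lit 57878) (nat_lit 270) (.e (nat_lit 496) (nat_lit 39) (.e (nat_lit 483379) (nat_lit 23) (.e (nat_lit 343808) (nat_lit 17) .nil)))) .nil)) 
(.lf (nat_lit 186704) (.g (nat_lit 3227) (.e (nat_lit 57884) (nat_lit 270) (.e (nat_lit 982) (nat_lit 81) (.e (nat_lit 1792) (nat_lit 119) (.e (nat_lit 516151) (nat_lit 9) (.e (nat_lit 426211) (nat_lit 9) (.e (nat_lit 426125) (nat_lit 2) (.e (nat_lit 204544) (nat_lit 21) (.e (nat_lit 164281) (nat_lit 222) .nil)))))))) (.g (nat_lit 5) .nil .nil)))) (.nd (nat_lit 6) 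
(.lf (nat_lit 186672) (.g (nat_lit 794) (.e (nat_lit 57881) (nat_lit 270) (.e (nat_lit 496) (nat_lit 39) (.e (nat_lit 483405) (nat_lit 26) (.e (nat_lit 385056) (nat_lit 22) .nil)))) .nil)) 
(.lf (nat_lit 186736) (.g (nat_lit 404) (.e (nat_lit 57884) (nat_lit 270) (.e (nat_lit 1454) (nat_lit 108) (.e (nat_lit 336389) (nat_lit 27) .nil))) .nil))))) (.nd (nat_lit 4) (.nd (nat_lit 5) (.nd (nat_lit 6) 
(.lf (nat_lit 186632) (.g (nat_lit 1918) (.e (nat_lit 57876) (nat_lit 270) (.e (nat_lit 1665) (nat_lit 115) (.e (nat_lit 393301) (nat_lit 27) (.e (nat_lit 491563) (nat_lit 12) (.e (nat_lit 392960) (nat_lit 17) .nil))))) (.g (nat_lit 4) .nil .nil))) 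
(.lf (nat_lit 186696) (.g (nat_lit 1266) (.e (nat_lit 57883) (nat_lit 270) (.e (nat_lit 496) (nat_lit 39) (.e (nat_lit 483380) (nat_lit 23) (.e (nat_lit 336320) (nat_lit 17) (.e (nat_lit 196698) (nat_lit 19) .nil))))) .nil))) (.nd (nat_lit 6) 
(.lf (nat_lit 186664) (.g (nat_lit 1208) (.e (nat_lit 57881) (nat_lit 270) (.e (nat_lit 174) (nat_lit 12) (.e (nat_lit 204877) (nat_lit 31) (.e (nat_lit 376842) (nat_lit 11) (.e (nat_lit 426406) (nat_lit 15) .nil))))) .nil)) 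
(.lf (nat_lit 186728) (.g (nat_lit 2210) (.e (nat_lit 57884) (nat_lit 270) (.e (nat_lit 1250) (nat_lit 92) (.e (nat_lit 98373) (nat_lit 29) (.e (nat_lit 450574) (nat_lit 1) (.e (nat_lit 507648) (nat_lit 3) .nil))))) .nil)))) (.nd (nat_lit 5) (.nd (nat_lit 6) 
(.lf (nat_lit 186648) (.g (nat_lit 634) (.e (nat_lit 57878) (nat_lit 270) (.e (nat_lit 496) (nat_lit 39) (.e (nat_lit 483391) (nat_lit 23) (.e (nat_lit 336317) (nat_lit 17) .nil)))) .nil)) 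
(.lf (nat_lit 186712) (.g (nat_lit 2984) (.e (nat_lit 57884) (nat_lit 270) (.e (nat_lit 1232) (nat_lit 91) (.e (nat_lit 90170) (nat_lit 13) (.e (nat_lit 172106) (nat_lit 10) (.e (nat_lit 434244) (nat_lit 28) (.e (nat_lit 573468) (nat_lit 10) (.e (nat_lit 16128) (nat_lit 181) .nil))))))) (.g (nat_lit 5) .nil .nil)))) (.nd (nat_lit 6) 
(.lf (nat_lit 186680) (.g (nat_lit 779) (.e (nat_lit 57883) (nat_lit 270) (.e (nat_lit 174) (nat_lit 12) (.e (nat_lit 204877) (nat_lit 31) (.e (nat_lit 376840) (nat_lit 11) (.e (nat_lit 426417) (nat_lit 15) .nil))))) .nil)) 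
(.lf (nat_lit 186744) (.g (nat_lit 1237) (.e (nat_lit 57884) (nat_lit 270) (.e (nat_lit 1454) (nat_lit 108) (.e (nat_lit 336389) (nat_lit 27) (.e (nat_lit 426308) (nat_lit 12) .nil)))) .nil)))))) (.nd (nat_lit 3) (.nd (nat_lit 4) (.nd (nat_lit 5) (.nd (nat_lit 6) 
(.lf (nat_lit 186628) (.g (nat_lit 2228) (.e (nat_lit 57876) (nat_lit 270) (.e (nat_lit 1642) (nat_lit 114) (.e (nat_lit 385106) (nat_lit 50) (.e (nat_lit 786483) (nat_lit 30) (.e (nat_lit 360484) (nat_lit 15) .nil))))) .nil)) 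
(.lf (nat_lit 186692) (.g (nat_lit 655) (.e (nat_lit 57883) (nat_lit 270) (.e (nat_lit 496) (nat_lit 39) (.e (nat_lit 483379) (nat_lit 23) (.e (nat_lit 336315) (nat_lit 17) .nil)))) .nil))) (.nd (nat_lit 6) 
(.lf (nat_lit 186660) (.g (nat_lit 1824) (.e (nat_lit 57879) (nat_lit 270) (.e (nat_lit 496) (nat_lit 39) (.e (nat_lit 483380) (nat_lit 23) (.e (nat_lit 336316) (nat_lit 17) (.e (nat_lit 196698) (nat_lit 19) .nil))))) .nil)) 
(.lf (nat_lit 186724) (.g (nat_lit 1892) (.e (nat_lit 57884) (nat_lit 270) (.e (nat_lit 1250) (nat_lit 92) (.e (nat_lit 98372) (nat_lit 29) (.e (nat_lit 450579) (nat_lit 5) (.e (nat_lit 532488) (nat_lit 0) (.e (nat_lit 7936) (nat_lit 333) .nil)))))) (.g (nat_lit 4) .nil .nil))))) (.nd (nat_lit 5) (.nd (nat_lit 6) 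
(.lf (nat_lit 186644) (.g (nat_lit 2005) (.e (nat_lit 57878) (nat_lit 270) (.e (nat_lit 496) (nat_lit 39) (.e (nat_lit 483383) (nat_lit 23) (.e (nat_lit 336316) (nat_lit 17) (.e (nat_lit 196698) (nat_lit 19) .nil))))) .nil)) 
(.lf (nat_lit 186708) (.g (nat_lit 3867) (.e (nat_lit 57884) (nat_lit 270) (.e (nat_lit 1232) (nat_lit 91) (.e (nat_lit 90170) (nat_lit 13) (.e (nat_lit 172106) (nat_lit 10) (.e (nat_lit 434231) (nat_lit 23) (.e (nat_lit 532490) (nat_lit 0) (.e (nat_lit 7936) (nat_lit 333) .nil))))))) (.g (nat_lit 6) .nil .nil)))) (.nd (nat_lit 6) 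
(.lf (nat_lit 186676) (.g (nat_lit 1538) (.e (nat_lit 57883) (nat_lit 270) (.e (nat_lit 162) (nat_lit 11) (.e (nat_lit 196670) (nat_lit 14) (.e (nat_lit 73754) (nat_lit 8) (.e (nat_lit 557105) (nat_lit 14) .nil))))) .nil)) 
(.lf (nat_lit 186740) (.g (nat_lit 2583) (.e (nat_lit 57884) (nat_lit 270) (.e (nat_lit 1454) (nat_lit 108) (.e (nat_lit 336389) (nat_lit 27) (.e (nat_lit 426188) (nat_lit 9) (.e (nat_lit 426444) (nat_lit 19) .nil))))) .nil))))) (.nd (nat_lit 4) (.nd (nat_lit 5) (.nd (nat_lit 6) 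
(.lf (nat_lit 186636) (.g (nat_lit 903) (.e (nat_lit 57878) (nat_lit 270) (.e (nat_lit 371) (nat_lit 32) (.e (nat_lit 426542) (nat_lit 29) (.e (nat_lit 360192) (nat_lit 2) .nil)))) .nil)) 
(.lf (nat_lit 186700) (.g (nat_lit 196) (.e (nat_lit 57883) (nat_lit 270) (.e (nat_lit 496) (nat_lit 39) (.e (nat_lit 483403) (nat_lit 26) .nil))) .nil))) (.nd (nat_lit 6) 
(.lf (nat_lit 186668) (.g (nat_lit 646) (.e (nat_lit 57881) (nat_lit 270) (.e (nat_lit 496) (nat_lit 39) (.e (nat_lit 483379) (nat_lit 23) (.e (nat_lit 343808) (nat_lit 17) .nil)))) .nil)) 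
(.lf (nat_lit 186732) (.g (nat_lit 3375) (.e (nat_lit 57884) (nat_lit 270) (.e (nat_lit 1397) (nat_lit 106) (.e (nat_lit 319504) (nat_lit 10) (.e (nat_lit 618) (nat_lit 48) (.e (nat_lit 557109) (nat_lit 15) (.e (nat_lit 188461) (nat_lit 26) (.e (nat_lit 261888) (nat_lit 15) .nil))))))) (.g (nat_lit 6) .nil .nil))))) (.nd (nat_lit 5) (.nd (nat_lit 6) 
(.lf (nat_lit 186652) (.g (nat_lit 986) (.e (nat_lit 57879) (nat_lit 270) (.e (nat_lit 174) (nat_lit 12) (.e (nat_lit 204869) (nat_lit 29) (.e (nat_lit 360451) (nat_lit 0) .nil)))) .nil)) 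
(.lf (nat_lit 186716) (.g (nat_lit 2471) (.e (nat_lit 57884) (nat_lit 270) (.e (nat_lit 1232) (nat_lit 91) (.e (nat_lit 90170) (nat_lit 13) (.e (nat_lit 172113) (nat_lit 10) (.e (nat_lit 434247) (nat_lit 28) (.e (nat_lit 573457) (nat_lit 9) (.e (nat_lit 13) (nat_lit 0) (.e (nat_lit 7081) (nat_lit 378) .nil)))))))) (.g (nat_lit 4) .nil .nil)))) (.nd (nat_lit 6) 
(.lf (nat_lit 186684) (.g (nat_lit 924) (.e (nat_lit 57883) (nat_lit 270) (.e (nat_lit 371) (nat_lit 32) (.e (nat_lit 426542) (nat_lit 29) (.e (nat_lit 352315) (nat_lit 23) .nil)))) .nil)) 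
(.lf (nat_lit 186748) (.g (nat_lit 2160) (.e (nat_lit 57884) (nat_lit 270) (.e (nat_lit 1544) (nat_lit 109) (.e (nat_lit 344115) (nat_lit 20) (.e (nat_lit 507923) (nat_lit 6) (.e (nat_lit 286747) (nat_lit 9) (.e (nat_lit 336013) (nat_lit 2) (.e (nat_lit 98048) (nat_lit 19) .nil))))))) (.g (nat_lit 6) .nil .nil)))))))) 
(.nd (nat_lit 2) (.nd (nat_lit 3) (.nd (nat_lit 4) (.nd (nat_lit 5) (.nd (nat_lit 6) 
(.lf (nat_lit 186626) (.g (nat_lit 2165) (.e (nat_lit 57876) (nat_lit 270) (.e (nat_lit 1642) (nat_lit 114) (.e (nat_lit 385073) (nat_lit 31) (.e (nat_lit 573493) (nat_lit 15) (.e (nat_lit 81953) (nat_lit 22) (.e (nat_lit 98048) (nat_lit 19) .nil)))))) (.g (nat_lit 5) .nil .nil))) 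
(.lf (nat_lit 186690) (.g (nat_lit 800) (.e (nat_lit 57883) (nat_lit 270) (.e (nat_lit 496) (nat_lit 39) (.e (nat_lit 483377) (nat_lit 22) (.e (nat_lit 327680) (nat_lit 0) .nil)))) .nil))) (.nd (nat_lit 6) 
(.lf (nat_lit 186658) (.g (nat_lit 664) (.e (nat_lit 57879) (nat_lit 270) (.e (nat_lit 496) (nat_lit 39) (.e (nat_lit 483379) (nat_lit 23) (.e (nat_lit 336315) (nat_lit 17) .nil)))) .nil)) 
(.lf (nat_lit 186722) (.g (nat_lit 2004) (.e (nat_lit 57884) (nat_lit 270) (.e (nat_lit 1250) (nat_lit 92) (.e (nat_lit 98372) (nat_lit 29) (.e (nat_lit 450579) (nat_lit 5) (.e (nat_lit 532484) (nat_lit 0) (.e (nat_lit 7936) (nat_lit 333) .nil)))))) (.g (nat_lit 4) .nil .nil))))) (.nd (nat_lit 5) (.nd (nat_lit 6) 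
(.lf (nat_lit 186642) (.g (nat_lit 1275) (.e (nat_lit 57878) (nat_lit 270) (.e (nat_lit 496) (nat_lit 39) (.e (nat_lit 483382) (nat_lit 23) (.e (nat_lit 336316) (nat_lit 17) (.e (nat_lit 196698) (nat_lit 19) .nil))))) .nil)) 
(.lf (nat_lit 186706) (.g (nat_lit 1891) (.e (nat_lit 57884) (nat_lit 270) (.e (nat_lit 1225) (nat_lit 91) (.e (nat_lit 90176) (nat_lit 15) (.e (nat_lit 188447) (nat_lit 22) (.e (nat_lit 196661) (nat_lit 12) (.e (nat_lit 57721) (nat_lit 177) .nil)))))) (.g (nat_lit 4) .nil .nil)))) (.nd (nat_lit 6) 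
(.lf (nat_lit 186674) (.g (nat_lit 1656) (.e (nat_lit 57881) (nat_lit 270) (.e (nat_lit 1065) (nat_lit 81) (.e (nat_lit 1784) (nat_lit 119) (.e (nat_lit 516176) (nat_lit 14) (.e (nat_lit 466975) (nat_lit 22) (.e (nat_lit 196677) (nat_lit 16) (.e (nat_lit 123080) (nat_lit 177) .nil))))))) (.g (nat_lit 4) .nil .nil))) 
(.lf (nat_lit 186738) (.g (nat_lit 1466) (.e (nat_lit 57884) (nat_lit 270) (.e (nat_lit 1454) (nat_lit 108) (.e (nat_lit 336389) (nat_lit 27) (.e (nat_lit 426012) (nat_lit 0) (.e (nat_lit 7936) (nat_lit 406) .nil))))) .nil))))) (.nd (nat_lit 4) (.nd (nat_lit 5) (.nd (nat_lit 6) 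
(.lf (nat_lit 186634) (.g (nat_lit 416) (.e (nat_lit 57878) (nat_lit 270) (.e (nat_lit 371) (nat_lit 32) (.e (nat_lit 426538) (nat_lit 29) .nil))) .nil)) 
(.lf (nat_lit 186698) (.g (nat_lit 1981) (.e (nat_lit 57883) (nat_lit 270) (.e (nat_lit 496) (nat_lit 39) (.e (nat_lit 483383) (nat_lit 23) (.e (nat_lit 336316) (nat_lit 17) (.e (nat_lit 196698) (nat_lit 19) .nil))))) .nil))) (.nd (nat_lit 6) 
(.lf (nat_lit 186666) (.g (nat_lit 1076) (.e (nat_lit 57881) (nat_lit 270) (.e (nat_lit 371) (nat_lit 32) (.e (nat_lit 426546) (nat_lit 30) (.e (nat_lit 360466) (nat_lit 3) (.e (nat_lit 516190) (nat_lit 17) .nil))))) .nil)) 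
(.lf (nat_lit 186730) (.g (nat_lit 3448) (.e (nat_lit 57884) (nat_lit 270) (.e (nat_lit 1250) (nat_lit 92) (.e (nat_lit 98373) (nat_lit 29) (.e (nat_lit 450588) (nat_lit 10) (.e (nat_lit 573452) (nat_lit 9) (.e (nat_lit 11) (nat_lit 0) (.e (nat_lit 7077) (nat_lit 378) .nil))))))) (.g (nat_lit 6) .nil .nil))))) (.nd (nat_lit 5) (.nd (nat_lit 6) 
(.lf (nat_lit 186650) (.g (nat_lit 805) (.e (nat_lit 57878) (nat_lit 270) (.e (nat_lit 496) (nat_lit 39) (.e (nat_lit 483405) (nat_lit 26) (.e (nat_lit 385056) (nat_lit 22) .nil)))) .nil)) 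
(.lf (nat_lit 186714) (.g (nat_lit 2313) (.e (nat_lit 57884) (nat_lit 270) (.e (nat_lit 1232) (nat_lit 91) (.e (nat_lit 90170) (nat_lit 13) (.e (nat_lit 172113) (nat_lit 10) (.e (nat_lit 434247) (nat_lit 28) (.e (nat_lit 573457) (nat_lit 9) (.e (nat_lit 13) (nat_lit 0) (.e (nat_lit 7077) (nat_lit 378) .nil)))))))) (.g (nat_lit 4) .nil .nil)))) (.nd (nat_lit 6) 
(.lf (nat_lit 186682) (.g (nat_lit 768) (.e (nat_lit 57883) (nat_lit 270) (.e (nat_lit 371) (nat_lit 32) (.e (nat_lit 426540) (nat_lit 29) (.e (nat_lit 360192) (nat_lit 2) .nil)))) .nil)) 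
(.lf (nat_lit 186746) (.g (nat_lit 2414) (.e (nat_lit 57884) (nat_lit 270) (.e (nat_lit 1454) (nat_lit 108) (.e (nat_lit 336389) (nat_lit 27) (.e (nat_lit 426343) (nat_lit 14) (.e (nat_lit 491552) (nat_lit 9) .nil))))) .nil)))))) (.nd (nat_lit 3) (.nd (nat_lit 4) (.nd (nat_lit 5) (.nd (nat_lit 6) 
(.lf (nat_lit 186630) (.g (nat_lit 1604) (.e (nat_lit 57876) (nat_lit 270) (.e (nat_lit 1665) (nat_lit 115) (.e (nat_lit 393301) (nat_lit 27) (.e (nat_lit 491551) (nat_lit 9) (.e (nat_lit 336250) (nat_lit 15) .nil))))) .nil)) 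
(.lf (nat_lit 186694) (.g (nat_lit 1347) (.e (nat_lit 57883) (nat_lit 270) (.e (nat_lit 496) (nat_lit 39) (.e (nat_lit 483380) (nat_lit 23) (.e (nat_lit 336315) (nat_lit 17) .nil)))) .nil))) (.nd (nat_lit 6) 
(.lf (nat_lit 186662) (.g (nat_lit 619) (.e (nat_lit 57879) (nat_lit 270) (.e (nat_lit 496) (nat_lit 39) (.e (nat_lit 483391) (nat_lit 23) (.e (nat_lit 336317) (nat_lit 17) .nil)))) .nil)) 
(.lf (nat_lit 186726) (.g (nat_lit 1685) (.e (nat_lit 57884) (nat_lit 270) (.e (nat_lit 1250) (nat_lit 92) (.e (nat_lit 98372) (nat_lit 29) (.e (nat_lit 450579) (nat_lit 5) (.e (nat_lit 540416) (nat_lit 0) (.e (nat_lit 6219) (nat_lit 333) .nil)))))) (.g (nat_lit 4) .nil .nil))))) (.nd (nat_lit 5) (.nd (nat_lit 6) 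
(.lf (nat_lit 186646) (.g (nat_lit 1437) (.e (nat_lit 57878) (nat_lit 270) (.e (nat_lit 496) (nat_lit 39) (.e (nat_lit 483383) (nat_lit 23) (.e (nat_lit 343808) (nat_lit 17) .nil)))) .nil)) 
(.lf (nat_lit 186710) (.g (nat_lit 2279) (.e (nat_lit 57884) (nat_lit 270) (.e (nat_lit 1232) (nat_lit 91) (.e (nat_lit 90170) (nat_lit 13) (.e (nat_lit 172106) (nat_lit 10) (.e (nat_lit 434244) (nat_lit 28) (.e (nat_lit 573451) (nat_lit 9) (.e (nat_lit 11) (nat_lit 0) (.e (nat_lit 7082) (nat_lit 378) .nil)))))))) (.g (nat_lit 4) .nil .nil)))) (.nd (nat_lit 6) 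
(.lf (nat_lit 186678) (.g (nat_lit 1271) (.e (nat_lit 57883) (nat_lit 270) (.e (nat_lit 174) (nat_lit 12) (.e (nat_lit 204863) (nat_lit 27) (.e (nat_lit 344130) (nat_lit 26) .nil)))) .nil)) 
(.lf (nat_lit 186742) (.g (nat_lit 2338) (.e (nat_lit 57884) (nat_lit 270) (.e (nat_lit 1454) (nat_lit 108) (.e (nat_lit 336389) (nat_lit 27) (.e (nat_lit 426190) (nat_lit 9) (.e (nat_lit 426444) (nat_lit 19) .nil))))) .nil))))) (.nd (nat_lit 4) (.nd (nat_lit 5) (.nd (nat_lit 6) 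
(.lf (nat_lit 186638) (.g (nat_lit 1412) (.e (nat_lit 57878) (nat_lit 270) (.e (nat_lit 496) (nat_lit 39) (.e (nat_lit 483378) (nat_lit 23) (.e (nat_lit 336320) (nat_lit 17) (.e (nat_lit 196698) (nat_lit 19) .nil))))) .nil)) 
(.lf (nat_lit 186702) (.g (nat_lit 1324) (.e (nat_lit 57883) (nat_lit 270) (.e (nat_lit 496) (nat_lit 39) (.e (nat_lit 483406) (nat_lit 26) (.e (nat_lit 385057) (nat_lit 22) (.e (nat_lit 499780) (nat_lit 1) .nil))))) .nil))) (.nd (nat_lit 6) 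
(.lf (nat_lit 186670) (.g (nat_lit 699) (.e (nat_lit 57881) (nat_lit 270) (.e (nat_lit 496) (nat_lit 39) (.e (nat_lit 483391) (nat_lit 23) (.e (nat_lit 336317) (nat_lit 17) (.e (nat_lit 196698) (nat_lit 19) .nil))))) .nil)) 
(.lf (nat_lit 186734) (.g (nat_lit 1632) (.e (nat_lit 57884) (nat_lit 270) (.e (nat_lit 1397) (nat_lit 106) (.e (nat_lit 319519) (nat_lit 12) (.e (nat_lit 32787) (nat_lit 9) (.e (nat_lit 65598) (nat_lit 9) (.e (nat_lit 336013) (nat_lit 2) (.e (nat_lit 98048) (nat_lit 19) .nil))))))) (.g (nat_lit 4) .nil .nil))))) (.nd (nat_lit 5) (.nd (nat_lit 6) 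
(.lf (nat_lit 186654) (.g (nat_lit 396) (.e (nat_lit 57879) (nat_lit 270) (.e (nat_lit 371) (nat_lit 32) (.e (nat_lit 426546) (nat_lit 30) .nil))) .nil)) 
(.lf (nat_lit 186718) (.g (nat_lit 2572) (.e (nat_lit 57884) (nat_lit 270) (.e (nat_lit 1232) (nat_lit 91) (.e (nat_lit 90170) (nat_lit 13) (.e (nat_lit 172113) (nat_lit 10) (.e (nat_lit 434248) (nat_lit 28) (.e (nat_lit 573452) (nat_lit 9) (.e (nat_lit 11) (nat_lit 0) (.e (nat_lit 7081) (nat_lit 378) .nil)))))))) (.g (nat_lit 4) .nil .nil)))) (.nd (nat_lit 6) 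
(.lf (nat_lit 186686) (.g (nat_lit 409) (.e (nat_lit 57883) (nat_lit 270) (.e (nat_lit 371) (nat_lit 32) (.e (nat_lit 426546) (nat_lit 30) .nil))) .nil)) 
(.lf (nat_lit 186750) (.g (nat_lit 586) (.e (nat_lit 57884) (nat_lit 270) (.e (nat_lit 1544) (nat_lit 109) (.e (nat_lit 344174) (nat_lit 42) (.e (nat_lit 761867) (nat_lit 5) .nil)))) .nil)))))))) (.nd (nat_lit 1) (.nd (nat_lit 2) (.nd (nat_lit 3) (.nd (nat_lit 4) (.nd (nat_lit 5) (.nd (nat_lit 6) 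
(.lf (nat_lit 186625) (.g (nat_lit 389) (.e (nat_lit 57876) (nat_lit 270) (.e (nat_lit 1642) (nat_lit 114) (.e (nat_lit 385063) (nat_lit 25) .nil))) .nil)) 
(.lf (nat_lit 186689) (.g (nat_lit 1495) (.e (nat_lit 57883) (nat_lit 270) (.e (nat_lit 496) (nat_lit 39) (.e (nat_lit 483376) (nat_lit 22) (.e (nat_lit 327682) (nat_lit 0) (.e (nat_lit 632) (nat_lit 50) (.e (nat_lit 581376) (nat_lit 19) (.e (nat_lit 57811) (nat_lit 246) .nil))))))) (.g (nat_lit 5) .nil .nil)))) (.nd (nat_lit 6) 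
(.lf (nat_lit 186657) (.g (nat_lit 1410) (.e (nat_lit 57879) (nat_lit 270) (.e (nat_lit 496) (nat_lit 39) (.e (nat_lit 483378) (nat_lit 23) (.e (nat_lit 336320) (nat_lit 17) (.e (nat_lit 196698) (nat_lit 19) .nil))))) .nil)) 
(.lf (nat_lit 186721) (.g (nat_lit 1885) (.e (nat_lit 57884) (nat_lit 270) (.e (nat_lit 1250) (nat_lit 92) (.e (nat_lit 98372) (nat_lit 29) (.e (nat_lit 450579) (nat_lit 5) (.e (nat_lit 532480) (nat_lit 0) (.e (nat_lit 6211) (nat_lit 333) .nil)))))) (.g (nat_lit 4) .nil .nil))))) (.nd (nat_lit 5) (.nd (nat_lit 6) 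
(.lf (nat_lit 186641) (.g (nat_lit 1291) (.e (nat_lit 57878) (nat_lit 270) (.e (nat_lit 496) (nat_lit 39) (.e (nat_lit 483380) (nat_lit 23) (.e (nat_lit 336320) (nat_lit 17) (.e (nat_lit 196698) (nat_lit 19) .nil))))) .nil)) 
(.lf (nat_lit 186705) (.g (nat_lit 3619) (.e (nat_lit 57884) (nat_lit 270) (.e (nat_lit 1031) (nat_lit 81) (.e (nat_lit 1801) (nat_lit 119) (.e (nat_lit 516151) (nat_lit 9) (.e (nat_lit 426211) (nat_lit 9) (.e (nat_lit 426125) (nat_lit 2) (.e (nat_lit 204544) (nat_lit 21) (.e (nat_lit 164281) (nat_lit 222) .nil)))))))) (.g (nat_lit 5) .nil .nil)))) (.nd (nat_lit 6) 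
(.lf (nat_lit 186673) (.g (nat_lit 335) (.e (nat_lit 57881) (nat_lit 270) (.e (nat_lit 496) (nat_lit 39) (.e (nat_lit 483407) (nat_lit 26) .nil))) .nil)) 
(.lf (nat_lit 186737) (.g (nat_lit 1339) (.e (nat_lit 57884) (nat_lit 270) (.e (nat_lit 1454) (nat_lit 108) (.e (nat_lit 336389) (nat_lit 27) (.e (nat_lit 426011) (nat_lit 0) .nil)))) .nil))))) (.nd (nat_lit 4) (.nd (nat_lit 5) (.nd (nat_lit 6) 
(.lf (nat_lit 186633) (.g (nat_lit 291) (.e (nat_lit 57877) (nat_lit 270) (.e (nat_lit 1648) (nat_lit 115) (.e (nat_lit 393291) (nat_lit 26) .nil))) .nil)) 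
(.lf (nat_lit 186697) (.g (nat_lit 1218) (.e (nat_lit 57883) (nat_lit 270) (.e (nat_lit 496) (nat_lit 39) (.e (nat_lit 483382) (nat_lit 23) (.e (nat_lit 336316) (nat_lit 17) (.e (nat_lit 196698) (nat_lit 19) .nil))))) .nil))) (.nd (nat_lit 6) 
(.lf (nat_lit 186665) (.g (nat_lit 688) (.e (nat_lit 57881) (nat_lit 270) (.e (nat_lit 371) (nat_lit 32) (.e (nat_lit 426538) (nat_lit 29) (.e (nat_lit 360192) (nat_lit 2) .nil)))) .nil)) 
(.lf (nat_lit 186729) (.g (nat_lit 1557) (.e (nat_lit 57884) (nat_lit 270) (.e (nat_lit 1250) (nat_lit 92) (.e (nat_lit 98373) (nat_lit 29) (.e (nat_lit 458496) (nat_lit 1) .nil)))) .nil)))) (.nd (nat_lit 5) (.nd (nat_lit 6) 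
(.lf (nat_lit 186649) (.g (nat_lit 1719) (.e (nat_lit 57878) (nat_lit 270) (.e (nat_lit 496) (nat_lit 39) (.e (nat_lit 483403) (nat_lit 26) (.e (nat_lit 385057) (nat_lit 22) (.e (nat_lit 499780) (nat_lit 1) .nil))))) .nil)) 
(.lf (nat_lit 186713) (.g (nat_lit 2961) (.e (nat_lit 57884) (nat_lit 270) (.e (nat_lit 1232) (nat_lit 91) (.e (nat_lit 90170) (nat_lit 13) (.e (nat_lit 172113) (nat_lit 10) (.e (nat_lit 434245) (nat_lit 28) (.e (nat_lit 573451) (nat_lit 9) (.e (nat_lit 13) (nat_lit 0) (.e (nat_lit 7081) (nat_lit 378) .nil)))))))) (.g (nat_lit 5) .nil .nil)))) (.nd (nat_lit 6) 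
(.lf (nat_lit 186681) (.g (nat_lit 687) (.e (nat_lit 57883) (nat_lit 270) (.e (nat_lit 371) (nat_lit 32) (.e (nat_lit 426538) (nat_lit 29) (.e (nat_lit 360192) (nat_lit 2) .nil)))) .nil)) 
(.lf (nat_lit 186745) (.g (nat_lit 2831) (.e (nat_lit 57884) (nat_lit 270) (.e (nat_lit 1454) (nat_lit 108) (.e (nat_lit 336389) (nat_lit 27) (.e (nat_lit 426308) (nat_lit 12) (.e (nat_lit 475201) (nat_lit 40) (.e (nat_lit 704841) (nat_lit 15) (.e (nat_lit 57813) (nat_lit 246) .nil))))))) (.g (nat_lit 4) .nil .nil))))))) (.nd (nat_lit 3) (.nd (nat_lit 4) (.nd (nat_lit 5) (.nd (nat_lit 6) 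
(.lf (nat_lit 186629) (.g (nat_lit 708) (.e (nat_lit 57876) (nat_lit 270) (.e (nat_lit 1665) (nat_lit 115) (.e (nat_lit 393234) (nat_lit 17) (.e (nat_lit 7587) (nat_lit 406) .nil)))) .nil)) 
(.lf (nat_lit 186693) (.g (nat_lit 1165) (.e (nat_lit 57883) (nat_lit 270) (.e (nat_lit 496) (nat_lit 39) (.e (nat_lit 483379) (nat_lit 23) (.e (nat_lit 336320) (nat_lit 17) (.e (nat_lit 196698) (nat_lit 19) .nil))))) .nil))) (.nd (nat_lit 6) 
(.lf (nat_lit 186661) (.g (nat_lit 1995) (.e (nat_lit 57879) (nat_lit 270) (.e (nat_lit 496) (nat_lit 39) (.e (nat_lit 483383) (nat_lit 23) (.e (nat_lit 336316) (nat_lit 17) (.e (nat_lit 196698) (nat_lit 19) .nil))))) .nil)) 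
(.lf (nat_lit 186725) (.g (nat_lit 1943) (.e (nat_lit 57884) (nat_lit 270) (.e (nat_lit 1250) (nat_lit 92) (.e (nat_lit 98372) (nat_lit 29) (.e (nat_lit 450579) (nat_lit 5) (.e (nat_lit 532489) (nat_lit 0) (.e (nat_lit 7936) (nat_lit 333) .nil)))))) (.g (nat_lit 4) .nil .nil))))) (.nd (nat_lit 5) (.nd (nat_lit 6) 
(.lf (nat_lit 186645) (.g (nat_lit 1284) (.e (nat_lit 57878) (nat_lit 270) (.e (nat_lit 496) (nat_lit 39) (.e (nat_lit 483383) (nat_lit 23) (.e (nat_lit 336320) (nat_lit 17) (.e (nat_lit 196698) (nat_lit 19) .nil))))) .nil)) 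
(.lf (nat_lit 186709) (.g (nat_lit 3504) (.e (nat_lit 57884) (nat_lit 270) (.e (nat_lit 1232) (nat_lit 91) (.e (nat_lit 90170) (nat_lit 13) (.e (nat_lit 172106) (nat_lit 10) (.e (nat_lit 434231) (nat_lit 23) (.e (nat_lit 540416) (nat_lit 0) (.e (nat_lit 6207) (nat_lit 333) .nil))))))) (.g (nat_lit 5) .nil .nil)))) (.nd (nat_lit 6) 
(.lf (nat_lit 186677) (.g (nat_lit 1993) (.e (nat_lit 57883) (nat_lit 270) (.e (nat_lit 174) (nat_lit 12) (.e (nat_lit 204861) (nat_lit 26) (.e (nat_lit 336213) (nat_lit 13) (.e (nat_lit 393223) (nat_lit 0) .nil))))) .nil)) 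
(.lf (nat_lit 186741) (.g (nat_lit 1458) (.e (nat_lit 57884) (nat_lit 270) (.e (nat_lit 1454) (nat_lit 108) (.e (nat_lit 336389) (nat_lit 27) (.e (nat_lit 426190) (nat_lit 9) .nil)))) .nil))))) (.nd (nat_lit 4) (.nd (nat_lit 5) (.nd (nat_lit 6) 
(.lf (nat_lit 186637) (.g (nat_lit 729) (.e (nat_lit 57878) (nat_lit 270) (.e (nat_lit 371) (nat_lit 32) (.e (nat_lit 426555) (nat_lit 32) (.e (nat_lit 384768) (nat_lit 2) .nil)))) .nil)) 
(.lf (nat_lit 186701) (.g (nat_lit 1716) (.e (nat_lit 57883) (nat_lit 270) (.e (nat_lit 496) (nat_lit 39) (.e (nat_lit 483403) (nat_lit 26) (.e (nat_lit 385057) (nat_lit 22) (.e (nat_lit 499780) (nat_lit 1) .nil))))) .nil))) (.nd (nat_lit 6) 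
(.lf (nat_lit 186669) (.g (nat_lit 1205) (.e (nat_lit 57881) (nat_lit 270) (.e (nat_lit 496) (nat_lit 39) (.e (nat_lit 483382) (nat_lit 23) (.e (nat_lit 336316) (nat_lit 17) (.e (nat_lit 196698) (nat_lit 19) .nil))))) .nil)) 
(.lf (nat_lit 186733) (.g (nat_lit 3723) (.e (nat_lit 57884) (nat_lit 270) (.e (nat_lit 1397) (nat_lit 106) (.e (nat_lit 319505) (nat_lit 10) (.e (nat_lit 618) (nat_lit 48) (.e (nat_lit 557109) (nat_lit 15) (.e (nat_lit 188461) (nat_lit 26) (.e (nat_lit 261888) (nat_lit 15) .nil))))))) (.g (nat_lit 6) .nil .nil))))) (.nd (nat_lit 5) (.nd (nat_lit 6) 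
(.lf (nat_lit 186653) (.g (nat_lit 417) (.e (nat_lit 57879) (nat_lit 270) (.e (nat_lit 371) (nat_lit 32) (.e (nat_lit 426538) (nat_lit 29) .nil))) .nil)) 
(.lf (nat_lit 186717) (.g (nat_lit 2327) (.e (nat_lit 57884) (nat_lit 270) (.e (nat_lit 1232) (nat_lit 91) (.e (nat_lit 90170) (nat_lit 13) (.e (nat_lit 172113) (nat_lit 10) (.e (nat_lit 434248) (nat_lit 28) (.e (nat_lit 573452) (nat_lit 9) (.e (nat_lit 11) (nat_lit 0) (.e (nat_lit 7077) (nat_lit 378) .nil)))))))) (.g (nat_lit 4) .nil .nil)))) (.nd (nat_lit 6) 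
(.lf (nat_lit 186685) (.g (nat_lit 361) (.e (nat_lit 57883) (nat_lit 270) (.e (nat_lit 371) (nat_lit 32) (.e (nat_lit 426544) (nat_lit 30) .nil))) .nil)) 
(.lf (nat_lit 186749) (.g (nat_lit 3685) (.e (nat_lit 57884) (nat_lit 270) (.e (nat_lit 1544) (nat_lit 109) (.e (nat_lit 344126) (nat_lit 25) (.e (nat_lit 548889) (nat_lit 9) (.e (nat_lit 65598) (nat_lit 9) (.e (nat_lit 336013) (nat_lit 2) (.e (nat_lit 98048) (nat_lit 19) .nil))))))) (.g (nat_lit 6) .nil .nil)))))))) 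
(.nd (nat_lit 2) (.nd (nat_lit 3) (.nd (nat_lit 4) (.nd (nat_lit 5) (.nd (nat_lit 6) 
(.lf (nat_lit 186627) (.g (nat_lit 1344) (.e (nat_lit 57876) (nat_lit 270) (.e (nat_lit 1642) (nat_lit 114) (.e (nat_lit 385102) (nat_lit 50) (.e (nat_lit 786483) (nat_lit 30) (.e (nat_lit 360484) (nat_lit 15) .nil))))) .nil)) 
(.lf (nat_lit 186691) (.g (nat_lit 1405) (.e (nat_lit 57883) (nat_lit 270) (.e (nat_lit 496) (nat_lit 39) (.e (nat_lit 483378) (nat_lit 23) (.e (nat_lit 336320) (nat_lit 17) (.e (nat_lit 196698) (nat_lit 19) .nil))))) .nil))) (.nd (nat_lit 6) 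
(.lf (nat_lit 186659) (.g (nat_lit 664) (.e (nat_lit 57879) (nat_lit 270) (.e (nat_lit 496) (nat_lit 39) (.e (nat_lit 483379) (nat_lit 23) (.e (nat_lit 343808) (nat_lit 17) .nil)))) .nil)) 
(.lf (nat_lit 186723) (.g (nat_lit 2394) (.e (nat_lit 57884) (nat_lit 270) (.e (nat_lit 1250) (nat_lit 92) (.e (nat_lit 98372) (nat_lit 29) (.e (nat_lit 450579) (nat_lit 5) (.e (nat_lit 532486) (nat_lit 0) (.e (nat_lit 6212) (nat_lit 333) .nil)))))) (.g (nat_lit 4) .nil .nil))))) (.nd (nat_lit 5) (.nd (nat_lit 6) 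
(.lf (nat_lit 186643) (.g (nat_lit 1082) (.e (nat_lit 57878) (nat_lit 270) (.e (nat_lit 496) (nat_lit 39) (.e (nat_lit 483382) (nat_lit 23) (.e (nat_lit 336320) (nat_lit 17) (.e (nat_lit 196698) (nat_lit 19) .nil))))) .nil)) 
(.lf (nat_lit 186707) (.g (nat_lit 3298) (.e (nat_lit 57884) (nat_lit 270) (.e (nat_lit 1232) (nat_lit 91) (.e (nat_lit 90170) (nat_lit 13) (.e (nat_lit 172106) (nat_lit 10) (.e (nat_lit 434231) (nat_lit 23) (.e (nat_lit 532486) (nat_lit 0) (.e (nat_lit 6210) (nat_lit 333) .nil))))))) (.g (nat_lit 6) .nil .nil)))) (.nd (nat_lit 6) 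
(.lf (nat_lit 186675) (.g (nat_lit 767) (.e (nat_lit 57882) (nat_lit 270) (.e (nat_lit 371) (nat_lit 32) (.e (nat_lit 426542) (nat_lit 29) .nil))) .nil)) 
(.lf (nat_lit 186739) (.g (nat_lit 2317) (.e (nat_lit 57884) (nat_lit 270) (.e (nat_lit 1454) (nat_lit 108) (.e (nat_lit 336389) (nat_lit 27) (.e (nat_lit 426187) (nat_lit 9) (.e (nat_lit 426444) (nat_lit 19) .nil))))) .nil))))) (.nd (nat_lit 4) (.nd (nat_lit 5) (.nd (nat_lit 6) 
(.lf (nat_lit 186635) (.g (nat_lit 405) (.e (nat_lit 57878) (nat_lit 270) (.e (nat_lit 371) (nat_lit 32) (.e (nat_lit 426540) (nat_lit 29) .nil))) .nil)) 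
(.lf (nat_lit 186699) (.g (nat_lit 1296) (.e (nat_lit 57883) (nat_lit 270) (.e (nat_lit 496) (nat_lit 39) (.e (nat_lit 483383) (nat_lit 23) (.e (nat_lit 336320) (nat_lit 17) (.e (nat_lit 196698) (nat_lit 19) .nil))))) .nil))) (.nd (nat_lit 6) 
(.lf (nat_lit 186667) (.g (nat_lit 1405) (.e (nat_lit 57881) (nat_lit 270) (.e (nat_lit 496) (nat_lit 39) (.e (nat_lit 483378) (nat_lit 23) (.e (nat_lit 336320) (nat_lit 17) (.e (nat_lit 196698) (nat_lit 19) .nil))))) .nil)) 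
(.lf (nat_lit 186731) (.g (nat_lit 3246) (.e (nat_lit 57884) (nat_lit 270) (.e (nat_lit 1393) (nat_lit 106) (.e (nat_lit 319505) (nat_lit 10) (.e (nat_lit 618) (nat_lit 48) (.e (nat_lit 557109) (nat_lit 15) (.e (nat_lit 188461) (nat_lit 26) (.e (nat_lit 261888) (nat_lit 15) .nil))))))) (.g (nat_lit 6) .nil .nil))))) (.nd (nat_lit 5) (.nd (nat_lit 6) 
(.lf (nat_lit 186651) (.g (nat_lit 1007) (.e (nat_lit 57878) (nat_lit 270) (.e (nat_lit 1487) (nat_lit 108) (.e (nat_lit 335995) (nat_lit 1) (.e (nat_lit 57684) (nat_lit 155) .nil)))) .nil)) 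
(.lf (nat_lit 186715) (.g (nat_lit 2319) (.e (nat_lit 57884) (nat_lit 270) (.e (nat_lit 1232) (nat_lit 91) (.e (nat_lit 90170) (nat_lit 13) (.e (nat_lit 172113) (nat_lit 10) (.e (nat_lit 434247) (nat_lit 28) (.e (nat_lit 573457) (nat_lit 9) (.e (nat_lit 13) (nat_lit 0) (.e (nat_lit 7079) (nat_lit 378) .nil)))))))) (.g (nat_lit 4) .nil .nil)))) (.nd (nat_lit 6) 
(.lf (nat_lit 186683) (.g (nat_lit 928) (.e (nat_lit 57883) (nat_lit 270) (.e (nat_lit 371) (nat_lit 32) (.e (nat_lit 426542) (nat_lit 29) (.e (nat_lit 360192) (nat_lit 2) .nil)))) .nil)) 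
(.lf (nat_lit 186747) (.g (nat_lit 1224) (.e (nat_lit 57884) (nat_lit 270) (.e (nat_lit 1530) (nat_lit 109) (.e (nat_lit 344156) (nat_lit 36) (.e (nat_lit 638998) (nat_lit 8) (.e (nat_lit 172037) (nat_lit 0) .nil))))) .nil)))))) (.nd (nat_lit 3) (.nd (nat_lit 4) (.nd (nat_lit 5) (.nd (nat_lit 6) 
(.lf (nat_lit 186631) (.g (nat_lit 1492) (.e (nat_lit 57876) (nat_lit 270) (.e (nat_lit 1665) (nat_lit 115) (.e (nat_lit 393301) (nat_lit 27) (.e (nat_lit 491552) (nat_lit 9) (.e (nat_lit 336248) (nat_lit 15) (.e (nat_lit 7079) (nat_lit 378) .nil)))))) (.g (nat_lit 4) .nil .nil))) 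
(.lf (nat_lit 186695) (.g (nat_lit 1814) (.e (nat_lit 57883) (nat_lit 270) (.e (nat_lit 496) (nat_lit 39) (.e (nat_lit 483380) (nat_lit 23) (.e (nat_lit 336316) (nat_lit 17) (.e (nat_lit 196698) (nat_lit 19) .nil))))) .nil))) (.nd (nat_lit 6) 
(.lf (nat_lit 186663) (.g (nat_lit 602) (.e (nat_lit 57880) (nat_lit 270) (.e (nat_lit 174) (nat_lit 12) (.e (nat_lit 204877) (nat_lit 31) (.e (nat_lit 376842) (nat_lit 11) .nil)))) .nil)) 
(.lf (nat_lit 186727) (.g (nat_lit 2064) (.e (nat_lit 57884) (nat_lit 270) (.e (nat_lit 1250) (nat_lit 92) (.e (nat_lit 98372) (nat_lit 29) (.e (nat_lit 450586) (nat_lit 10) (.e (nat_lit 573452) (nat_lit 9) (.e (nat_lit 11) (nat_lit 0) (.e (nat_lit 7077) (nat_lit 378) .nil))))))) (.g (nat_lit 6) .nil .nil))))) (.nd (nat_lit 5) (.nd (nat_lit 6) 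
(.lf (nat_lit 186647) (.g (nat_lit 233) (.e (nat_lit 57878) (nat_lit 270) (.e (nat_lit 496) (nat_lit 39) (.e (nat_lit 483391) (nat_lit 23) .nil))) .nil)) 
(.lf (nat_lit 186711) (.g (nat_lit 2331) (.e (nat_lit 57884) (nat_lit 270) (.e (nat_lit 1232) (nat_lit 91) (.e (nat_lit 90170) (nat_lit 13) (.e (nat_lit 172106) (nat_lit 10) (.e (nat_lit 434244) (nat_lit 28) (.e (nat_lit 573451) (nat_lit 9) (.e (nat_lit 13) (nat_lit 0) (.e (nat_lit 7082) (nat_lit 378) .nil)))))))) (.g (nat_lit 4) .nil .nil)))) (.nd (nat_lit 6) 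
(.lf (nat_lit 186679) (.g (nat_lit 478) (.e (nat_lit 57883) (nat_lit 270) (.e (nat_lit 174) (nat_lit 12) (.e (nat_lit 204876) (nat_lit 31) (.e (nat_lit 376840) (nat_lit 11) .nil)))) .nil)) 
(.lf (nat_lit 186743) (.g (nat_lit 1455) (.e (nat_lit 57884) (nat_lit 270) (.e (nat_lit 1454) (nat_lit 108) (.e (nat_lit 336389) (nat_lit 27) (.e (nat_lit 426306) (nat_lit 12) .nil)))) .nil))))) (.nd (nat_lit 4) (.nd (nat_lit 5) (.nd (nat_lit 6) 
(.lf (nat_lit 186639) (.g (nat_lit 1173) (.e (nat_lit 57878) (nat_lit 270) (.e (nat_lit 496) (nat_lit 39) (.e (nat_lit 483379) (nat_lit 23) (.e (nat_lit 336320) (nat_lit 17) (.e (nat_lit 196698) (nat_lit 19) .nil))))) .nil)) 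
(.lf (nat_lit 186703) (.g (nat_lit 1243) (.e (nat_lit 57883) (nat_lit 270) (.e (nat_lit 500) (nat_lit 40) (.e (nat_lit 491566) (nat_lit 12) (.e (nat_lit 385104) (nat_lit 50) .nil)))) .nil))) (.nd (nat_lit 6) 
(.lf (nat_lit 186671) (.g (nat_lit 722) (.e (nat_lit 57881) (nat_lit 270) (.e (nat_lit 496) (nat_lit 39) (.e (nat_lit 483404) (nat_lit 26) (.e (nat_lit 385057) (nat_lit 22) .nil)))) .nil)) 
(.lf (nat_lit 186735) (.g (nat_lit 2114) (.e (nat_lit 57884) (nat_lit 270) (.e (nat_lit 1397) (nat_lit 106) (.e (nat_lit 319534) (nat_lit 16) (.e (nat_lit 286756) (nat_lit 10) (.e (nat_lit 344157) (nat_lit 36) .nil))))) .nil)))) (.nd (nat_lit 5) (.nd (nat_lit 6) 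
(.lf (nat_lit 186655) (.g (nat_lit 423) (.e (nat_lit 57879) (nat_lit 270) (.e (nat_lit 371) (nat_lit 32) (.e (nat_lit 426555) (nat_lit 32) .nil))) .nil)) 
(.lf (nat_lit 186719) (.g (nat_lit 2308) (.e (nat_lit 57884) (nat_lit 270) (.e (nat_lit 1232) (nat_lit 91) (.e (nat_lit 90176) (nat_lit 15) (.e (nat_lit 188447) (nat_lit 22) (.e (nat_lit 196661) (nat_lit 12) (.e (nat_lit 57721) (nat_lit 177) .nil)))))) (.g (nat_lit 4) .nil .nil)))) (.nd (nat_lit 6) 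
(.lf (nat_lit 186687) (.g (nat_lit 1865) (.e (nat_lit 57883) (nat_lit 270) (.e (nat_lit 371) (nat_lit 32) (.e (nat_lit 426546) (nat_lit 30) (.e (nat_lit 360477) (nat_lit 11) (.e (nat_lit 589568) (nat_lit 19) (.e (nat_lit 57811) (nat_lit 246) .nil)))))) (.g (nat_lit 4) .nil .nil))) 
(.lf (nat_lit 186751) (.g (nat_lit 666) (.e (nat_lit 57884) (nat_lit 270) (.e (nat_lit 1544) (nat_lit 109) (.e (nat_lit 344174) (nat_lit 42) (.e (nat_lit 761868) (nat_lit 5) (.e (nat_lit 1574) (nat_lit 110) .nil))))) .nil)))))))))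

noncomputable def tv2481 : DT := (.nd (nat_lit 0) (.nd (nat_lit 1) (.nd (nat_lit 2) (.nd (nat_lit 3) (.nd (nat_lit 4) (.nd (nat_lit 5) (.nd (nat_lit 6) 
(.lf (nat_lit 186752) (.g (nat_lit 830) (.e (nat_lit 57884) (nat_lit 270) (.e (nat_lit 1544) (nat_lit 109) (.e (nat_lit 344174) (nat_lit 42) (.e (nat_lit 761869) (nat_lit 5) (.e (nat_lit 1574) (nat_lit 110) .nil))))) .nil)) 
(.lf (nat_lit 186816) (.g (nat_lit 1043) (.e (nat_lit 57886) (nat_lit 270) (.e (nat_lit 1656) (nat_lit 115) (.e (nat_lit 393270) (nat_lit 23) (.e (nat_lit 426442) (nat_lit 19) .nil)))) .nil))) (.nd (nat_lit 6) 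
(.lf (nat_lit 186784) (.g (nat_lit 2239) (.e (nat_lit 57884) (nat_lit 270) (.e (nat_lit 1656) (nat_lit 115) (.e (nat_lit 393293) (nat_lit 26) (.e (nat_lit 475201) (nat_lit 40) (.e (nat_lit 704841) (nat_lit 15) (.e (nat_lit 57813) (nat_lit 246) .nil)))))) (.g (nat_lit 6) .nil .nil))) 
(.lf (nat_lit 186848) (.g (nat_lit 1972) (.e (nat_lit 57887) (nat_lit 270) (.e (nat_lit 1656) (nat_lit 115) (.e (nat_lit 393234) (nat_lit 17) (.e (nat_lit 7589) (nat_lit 406) (.e (nat_lit 65632) (nat_lit 15) .nil))))) .nil)))) (.nd (nat_lit 5) (.nd (nat_lit 6) 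
(.lf (nat_lit 186768) (.g (nat_lit 855) (.e (nat_lit 57884) (nat_lit 270) (.e (nat_lit 1656) (nat_lit 115) (.e (nat_lit 393267) (nat_lit 23) (.e (nat_lit 426444) (nat_lit 19) .nil)))) .nil)) 
(.lf (nat_lit 186832) (.g (nat_lit 2360) (.e (nat_lit 57887) (nat_lit 270) (.e (nat_lit 1250) (nat_lit 92) (.e (nat_lit 98382) (nat_lit 31) (.e (nat_lit 466977) (nat_lit 22) (.e (nat_lit 196677) (nat_lit 16) (.e (nat_lit 123080) (nat_lit 177) .nil)))))) (.g (nat_lit 5) .nil .nil)))) (.nd (nat_lit 6) 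
(.lf (nat_lit 186800) (.g (nat_lit 3078) (.e (nat_lit 57884) (nat_lit 270) (.e (nat_lit 1656) (nat_lit 115) (.e (nat_lit 393301) (nat_lit 27) (.e (nat_lit 491551) (nat_lit 9) (.e (nat_lit 336250) (nat_lit 15) (.e (nat_lit 7079) (nat_lit 378) .nil)))))) (.g (nat_lit 4) .nil .nil))) 
(.lf (nat_lit 186864) (.g (nat_lit 1705) (.e (nat_lit 57887) (nat_lit 270) (.e (nat_lit 1656) (nat_lit 115) (.e (nat_lit 393265) (nat_lit 22) (.e (nat_lit 417820) (nat_lit 10) (.e (nat_lit 5612) (nat_lit 312) (.e (nat_lit 78) (nat_lit 0) (.e (nat_lit 6216) (nat_lit 333) .nil))))))) (.g (nat_lit 4) .nil .nil)))))) (.nd (nat_lit 4) (.nd (nat_lit 5) (.nd (nat_lit 6) 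
(.lf (nat_lit 186760) (.g (nat_lit 2673) (.e (nat_lit 57884) (nat_lit 270) (.e (nat_lit 1633) (nat_lit 114) (.e (nat_lit 385105) (nat_lit 50) (.e (nat_lit 786483) (nat_lit 30) (.e (nat_lit 360484) (nat_lit 15) (.e (nat_lit 655104) (nat_lit 15) .nil)))))) (.g (nat_lit 5) .nil .nil))) 
(.lf (nat_lit 186824) (.g (nat_lit 2147) (.e (nat_lit 57886) (nat_lit 270) (.e (nat_lit 1656) (nat_lit 115) (.e (nat_lit 393301) (nat_lit 27) (.e (nat_lit 491563) (nat_lit 12) (.e (nat_lit 392960) (nat_lit 17) .nil))))) .nil))) (.nd (nat_lit 6) 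
(.lf (nat_lit 186792) (.g (nat_lit 1413) (.e (nat_lit 57884) (nat_lit 270) (.e (nat_lit 1656) (nat_lit 115) (.e (nat_lit 393300) (nat_lit 27) (.e (nat_lit 491552) (nat_lit 9) .nil)))) .nil)) 
(.lf (nat_lit 186856) (.g (nat_lit 2499) (.e (nat_lit 57887) (nat_lit 270) (.e (nat_lit 1656) (nat_lit 115) (.e (nat_lit 393260) (nat_lit 21) (.e (nat_lit 409649) (nat_lit 18) (.e (nat_lit 303149) (nat_lit 15) .nil))))) .nil)))) (.nd (nat_lit 5) (.nd (nat_lit 6) 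
(.lf (nat_lit 186776) (.g (nat_lit 2664) (.e (nat_lit 57884) (nat_lit 270) (.e (nat_lit 1656) (nat_lit 115) (.e (nat_lit 393291) (nat_lit 26) (.e (nat_lit 475201) (nat_lit 40) (.e (nat_lit 704839) (nat_lit 15) (.e (nat_lit 57813) (nat_lit 246) .nil)))))) (.g (nat_lit 4) .nil .nil))) 
(.lf (nat_lit 186840) (.g (nat_lit 2245) (.e (nat_lit 57887) (nat_lit 270) (.e (nat_lit 1633) (nat_lit 114) (.e (nat_lit 385106) (nat_lit 50) (.e (nat_lit 786483) (nat_lit 30) (.e (nat_lit 360451) (nat_lit 0) (.e (nat_lit 5441) (nat_lit 306) (.e (nat_lit 92) (nat_lit 1) .nil))))))) (.g (nat_lit 4) .nil .nil)))) (.nd (nat_lit 6) 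
(.lf (nat_lit 186808) (.g (nat_lit 1565) (.e (nat_lit 57886) (nat_lit 270) (.e (nat_lit 1250) (nat_lit 92) (.e (nat_lit 98372) (nat_lit 29) (.e (nat_lit 450579) (nat_lit 5) (.e (nat_lit 540416) (nat_lit 0) (.e (nat_lit 6217) (nat_lit 333) .nil)))))) (.g (nat_lit 4) .nil .nil))) 
(.lf (nat_lit 186872) (.g (nat_lit 598) (.e (nat_lit 57887) (nat_lit 270) (.e (nat_lit 1656) (nat_lit 115) (.e (nat_lit 393290) (nat_lit 26) .nil))) .nil)))))) (.nd (nat_lit 3) (.nd (nat_lit 4) (.nd (nat_lit 5) (.nd (nat_lit 6) 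
(.lf (nat_lit 186756) (.g (nat_lit 4100) (.e (nat_lit 57884) (nat_lit 270) (.e (nat_lit 1633) (nat_lit 114) (.e (nat_lit 385074) (nat_lit 31) (.e (nat_lit 573493) (nat_lit 15) (.e (nat_lit 81962) (nat_lit 25) (.e (nat_lit 147200) (nat_lit 19) .nil)))))) (.g (nat_lit 5) .nil .nil))) 
(.lf (nat_lit 186820) (.g (nat_lit 540) (.e (nat_lit 57886) (nat_lit 270) (.e (nat_lit 1656) (nat_lit 115) (.e (nat_lit 393293) (nat_lit 26) .nil))) .nil))) (.nd (nat_lit 6) 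
(.lf (nat_lit 186788) (.g (nat_lit 1242) (.e (nat_lit 57884) (nat_lit 270) (.e (nat_lit 1656) (nat_lit 115) (.e (nat_lit 393300) (nat_lit 27) (.e (nat_lit 491546) (nat_lit 9) .nil)))) .nil)) 
(.lf (nat_lit 186852) (.g (nat_lit 1261) (.e (nat_lit 57887) (nat_lit 270) (.e (nat_lit 1656) (nat_lit 115) (.e (nat_lit 393260) (nat_lit 21) (.e (nat_lit 409623) (nat_lit 10) .nil)))) .nil)))) (.nd (nat_lit 5) (.nd (nat_lit 6) 
(.lf (nat_lit 186772) (.g (nat_lit 1660) (.e (nat_lit 57884) (nat_lit 270) (.e (nat_lit 1656) (nat_lit 115) (.e (nat_lit 393284) (nat_lit 24) (.e (nat_lit 434276) (nat_lit 39) (.e (nat_lit 671488) (nat_lit 17) (.e (nat_lit 164281) (nat_lit 222) .nil)))))) (.g (nat_lit 4) .nil .nil))) 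
(.lf (nat_lit 186836) (.g (nat_lit 2404) (.e (nat_lit 57887) (nat_lit 270) (.e (nat_lit 1633) (nat_lit 114) (.e (nat_lit 385106) (nat_lit 50) (.e (nat_lit 786483) (nat_lit 30) (.e (nat_lit 360450) (nat_lit 0) (.e (nat_lit 5456) (nat_lit 306) (.e (nat_lit 92) (nat_lit 1) .nil))))))) (.g (nat_lit 4) .nil .nil)))) (.nd (nat_lit 6) 
(.lf (nat_lit 186804) (.g (nat_lit 2450) (.e (nat_lit 57884) (nat_lit 270) (.e (nat_lit 1656) (nat_lit 115) (.e (nat_lit 393301) (nat_lit 27) (.e (nat_lit 491556) (nat_lit 9) (.e (nat_lit 343808) (nat_lit 15) .nil))))) .nil)) 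
(.lf (nat_lit 186868) (.g (nat_lit 425) (.e (nat_lit 57887) (nat_lit 270) (.e (nat_lit 1656) (nat_lit 115) (.e (nat_lit 393270) (nat_lit 23) .nil))) .nil))))) (.nd (nat_lit 4) (.nd (nat_lit 5) (.nd (nat_lit 6) 
(.lf (nat_lit 186764) (.g (nat_lit 512) (.e (nat_lit 57884) (nat_lit 270) (.e (nat_lit 1656) (nat_lit 115) (.e (nat_lit 393232) (nat_lit 17) .nil))) .nil)) 
(.lf (nat_lit 186828) (.g (nat_lit 818) (.e (nat_lit 57887) (nat_lit 270) (.e (nat_lit 1250) (nat_lit 92) (.e (nat_lit 98355) (nat_lit 26) (.e (nat_lit 426270) (nat_lit 9) .nil)))) .nil))) (.nd (nat_lit 6) 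
(.lf (nat_lit 186796) (.g (nat_lit 2354) (.e (nat_lit 57884) (nat_lit 270) (.e (nat_lit 1656) (nat_lit 115) (.e (nat_lit 393300) (nat_lit 27) (.e (nat_lit 491556) (nat_lit 9) (.e (nat_lit 343808) (nat_lit 15) .nil))))) .nil)) 
(.lf (nat_lit 186860) (.g (nat_lit 915) (.e (nat_lit 57887) (nat_lit 270) (.e (nat_lit 1656) (nat_lit 115) (.e (nat_lit 393265) (nat_lit 22) (.e (nat_lit 417792) (nat_lit 0) .nil)))) .nil)))) (.nd (nat_lit 5) (.nd (nat_lit 6) 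
(.lf (nat_lit 186780) (.g (nat_lit 1548) (.e (nat_lit 57884) (nat_lit 270) (.e (nat_lit 1656) (nat_lit 115) (.e (nat_lit 393291) (nat_lit 26) (.e (nat_lit 475220) (nat_lit 44) .nil)))) .nil)) 
(.lf (nat_lit 186844) (.g (nat_lit 494) (.e (nat_lit 57887) (nat_lit 270) (.e (nat_lit 1656) (nat_lit 115) (.e (nat_lit 393233) (nat_lit 17) .nil))) .nil))) (.nd (nat_lit 6) 
(.lf (nat_lit 186812) (.g (nat_lit 1901) (.e (nat_lit 57886) (nat_lit 270) (.e (nat_lit 1633) (nat_lit 114) (.e (nat_lit 385106) (nat_lit 50) (.e (nat_lit 786483) (nat_lit 30) (.e (nat_lit 360484) (nat_lit 15) .nil))))) .nil)) 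
(.lf (nat_lit 186876) (.g (nat_lit 1170) (.e (nat_lit 57887) (nat_lit 270) (.e (nat_lit 1656) (nat_lit 115) (.e (nat_lit 393293) (nat_lit 26) (.e (nat_lit 483072) (nat_lit 40) .nil)))) .nil))))))) (.nd (nat_lit 2) (.nd (nat_lit 3) (.nd (nat_lit 4) (.nd (nat_lit 5) (.nd (nat_lit 6) 
(.lf (nat_lit 186754) (.g (nat_lit 2454) (.e (nat_lit 57884) (nat_lit 270) (.e (nat_lit 1633) (nat_lit 114) (.e (nat_lit 392960) (nat_lit 24) (.e (nat_lit 516151) (nat_lit 9) (.e (nat_lit 426285) (nat_lit 10) (.e (nat_lit 442112) (nat_lit 44) (.e (nat_lit 704845) (nat_lit 15) .nil))))))) (.g (nat_lit 5) .nil .nil))) 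
(.lf (nat_lit 186818) (.g (nat_lit 1376) (.e (nat_lit 57886) (nat_lit 270) (.e (nat_lit 1656) (nat_lit 115) (.e (nat_lit 393291) (nat_lit 26) (.e (nat_lit 475201) (nat_lit 40) .nil)))) .nil))) (.nd (nat_lit 6) 
(.lf (nat_lit 186786) (.g (nat_lit 512) (.e (nat_lit 57884) (nat_lit 270) (.e (nat_lit 1656) (nat_lit 115) (.e (nat_lit 393297) (nat_lit 27) .nil))) .nil)) 
(.lf (nat_lit 186850) (.g (nat_lit 1936) (.e (nat_lit 57887) (nat_lit 270) (.e (nat_lit 1656) (nat_lit 115) (.e (nat_lit 393238) (nat_lit 17) (.e (nat_lit 7101) (nat_lit 380) (.e (nat_lit 164368) (nat_lit 247) .nil))))) .nil)))) (.nd (nat_lit 5) (.nd (nat_lit 6) 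
(.lf (nat_lit 186770) (.g (nat_lit 1434) (.e (nat_lit 57884) (nat_lit 270) (.e (nat_lit 1656) (nat_lit 115) (.e (nat_lit 393282) (nat_lit 24) (.e (nat_lit 434275) (nat_lit 39) (.e (nat_lit 671488) (nat_lit 17) .nil))))) .nil)) 
(.lf (nat_lit 186834) (.g (nat_lit 2087) (.e (nat_lit 57887) (nat_lit 270) (.e (nat_lit 1633) (nat_lit 114) (.e (nat_lit 385106) (nat_lit 50) (.e (nat_lit 786481) (nat_lit 30) (.e (nat_lit 360482) (nat_lit 15) .nil))))) .nil))) (.nd (nat_lit 6) 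
(.lf (nat_lit 186802) (.g (nat_lit 2769) (.e (nat_lit 57884) (nat_lit 270) (.e (nat_lit 1656) (nat_lit 115) (.e (nat_lit 393301) (nat_lit 27) (.e (nat_lit 491552) (nat_lit 9) (.e (nat_lit 336248) (nat_lit 15) (.e (nat_lit 7077) (nat_lit 378) .nil)))))) (.g (nat_lit 5) .nil .nil))) 
(.lf (nat_lit 186866) (.g (nat_lit 3815) (.e (nat_lit 57887) (nat_lit 270) (.e (nat_lit 1656) (nat_lit 115) (.e (nat_lit 393265) (nat_lit 22) (.e (nat_lit 417820) (nat_lit 10) (.e (nat_lit 5626) (nat_lit 312) (.e (nat_lit 76) (nat_lit 0) (.e (nat_lit 6216) (nat_lit 333) .nil))))))) (.g (nat_lit 5) .nil .nil)))))) (.nd (nat_lit 4) (.nd (nat_lit 5) (.nd (nat_lit 6) 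
(.lf (nat_lit 186762) (.g (nat_lit 3138) (.e (nat_lit 57884) (nat_lit 270) (.e (nat_lit 1633) (nat_lit 114) (.e (nat_lit 385106) (nat_lit 50) (.e (nat_lit 786483) (nat_lit 30) (.e (nat_lit 360484) (nat_lit 15) (.e (nat_lit 655104) (nat_lit 15) .nil)))))) (.g (nat_lit 5) .nil .nil))) 
(.lf (nat_lit 186826) (.g (nat_lit 1120) (.e (nat_lit 57887) (nat_lit 270) (.e (nat_lit 1232) (nat_lit 91) (.e (nat_lit 90177) (nat_lit 15) (.e (nat_lit 188447) (nat_lit 22) (.e (nat_lit 196661) (nat_lit 12) .nil))))) .nil))) (.nd (nat_lit 6) 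
(.lf (nat_lit 186794) (.g (nat_lit 2714) (.e (nat_lit 57884) (nat_lit 270) (.e (nat_lit 1656) (nat_lit 115) (.e (nat_lit 393300) (nat_lit 27) (.e (nat_lit 491552) (nat_lit 9) (.e (nat_lit 336250) (nat_lit 15) (.e (nat_lit 7077) (nat_lit 378) .nil)))))) (.g (nat_lit 5) .nil .nil))) 
(.lf (nat_lit 186858) (.g (nat_lit 1619) (.e (nat_lit 57887) (nat_lit 270) (.e (nat_lit 1656) (nat_lit 115) (.e (nat_lit 393263) (nat_lit 22) (.e (nat_lit 417829) (nat_lit 18) (.e (nat_lit 303149) (nat_lit 15) .nil))))) .nil)))) (.nd (nat_lit 5) (.nd (nat_lit 6) 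
(.lf (nat_lit 186778) (.g (nat_lit 2769) (.e (nat_lit 57884) (nat_lit 270) (.e (nat_lit 1656) (nat_lit 115) (.e (nat_lit 393291) (nat_lit 26) (.e (nat_lit 475219) (nat_lit 44) (.e (nat_lit 737286) (nat_lit 0) (.e (nat_lit 4990) (nat_lit 288) .nil)))))) (.g (nat_lit 4) .nil .nil))) 
(.lf (nat_lit 186842) (.g (nat_lit 1871) (.e (nat_lit 57887) (nat_lit 270) (.e (nat_lit 1633) (nat_lit 114) (.e (nat_lit 385106) (nat_lit 50) (.e (nat_lit 786483) (nat_lit 30) (.e (nat_lit 360483) (nat_lit 15) .nil))))) .nil))) (.nd (nat_lit 6) 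
(.lf (nat_lit 186810) (.g (nat_lit 1376) (.e (nat_lit 57886) (nat_lit 270) (.e (nat_lit 1250) (nat_lit 92) (.e (nat_lit 98382) (nat_lit 31) (.e (nat_lit 466974) (nat_lit 22) (.e (nat_lit 196677) (nat_lit 16) .nil))))) .nil)) 
(.lf (nat_lit 186874) (.g (nat_lit 2723) (.e (nat_lit 57887) (nat_lit 270) (.e (nat_lit 1656) (nat_lit 115) (.e (nat_lit 393291) (nat_lit 26) (.e (nat_lit 475219) (nat_lit 44) (.e (nat_lit 737286) (nat_lit 0) (.e (nat_lit 4995) (nat_lit 288) .nil)))))) (.g (nat_lit 6) .nil .nil))))))) (.nd (nat_lit 3) (.nd (nat_lit 4) (.nd (nat_lit 5) (.nd (nat_lit 6) 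
(.lf (nat_lit 186758) (.g (nat_lit 1732) (.e (nat_lit 57884) (nat_lit 270) (.e (nat_lit 1633) (nat_lit 114) (.e (nat_lit 385105) (nat_lit 50) (.e (nat_lit 786481) (nat_lit 30) (.e (nat_lit 360482) (nat_lit 15) .nil))))) .nil)) 
(.lf (nat_lit 186822) (.g (nat_lit 1260) (.e (nat_lit 57886) (nat_lit 270) (.e (nat_lit 1656) (nat_lit 115) (.e (nat_lit 393293) (nat_lit 26) (.e (nat_lit 475201) (nat_lit 40) .nil)))) .nil))) (.nd (nat_lit 6) 
(.lf (nat_lit 186790) (.g (nat_lit 2678) (.e (nat_lit 57884) (nat_lit 270) (.e (nat_lit 1656) (nat_lit 115) (.e (nat_lit 393300) (nat_lit 27) (.e (nat_lit 491551) (nat_lit 9) (.e (nat_lit 336250) (nat_lit 15) (.e (nat_lit 7077) (nat_lit 378) .nil)))))) (.g (nat_lit 4) .nil .nil))) 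
(.lf (nat_lit 186854) (.g (nat_lit 2075) (.e (nat_lit 57887) (nat_lit 270) (.e (nat_lit 1656) (nat_lit 115) (.e (nat_lit 393260) (nat_lit 21) (.e (nat_lit 409646) (nat_lit 18) (.e (nat_lit 303149) (nat_lit 15) (.e (nat_lit 6216) (nat_lit 333) .nil)))))) (.g (nat_lit 4) .nil .nil))))) (.nd (nat_lit 5) (.nd (nat_lit 6) 
(.lf (nat_lit 186774) (.g (nat_lit 851) (.e (nat_lit 57884) (nat_lit 270) (.e (nat_lit 1656) (nat_lit 115) (.e (nat_lit 393290) (nat_lit 26) (.e (nat_lit 475219) (nat_lit 44) .nil)))) .nil)) 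
(.lf (nat_lit 186838) (.g (nat_lit 1995) (.e (nat_lit 57887) (nat_lit 270) (.e (nat_lit 1633) (nat_lit 114) (.e (nat_lit 385106) (nat_lit 50) (.e (nat_lit 786483) (nat_lit 30) (.e (nat_lit 360451) (nat_lit 0) (.e (nat_lit 5440) (nat_lit 306) (.e (nat_lit 90) (nat_lit 1) .nil))))))) (.g (nat_lit 4) .nil .nil)))) (.nd (nat_lit 6) 
(.lf (nat_lit 186806) (.g (nat_lit 1611) (.e (nat_lit 57886) (nat_lit 270) (.e (nat_lit 1250) (nat_lit 92) (.e (nat_lit 98356) (nat_lit 26) (.e (nat_lit 426244) (nat_lit 9) .nil)))) .nil)) 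
(.lf (nat_lit 186870) (.g (nat_lit 1700) (.e (nat_lit 57887) (nat_lit 270) (.e (nat_lit 1656) (nat_lit 115) (.e (nat_lit 393270) (nat_lit 23) (.e (nat_lit 426444) (nat_lit 19) (.e (nat_lit 106556) (nat_lit 15) (.e (nat_lit 57814) (nat_lit 246) .nil)))))) (.g (nat_lit 4) .nil .nil)))))) (.nd (nat_lit 4) (.nd (nat_lit 5) (.nd (nat_lit 6) 
(.lf (nat_lit 186766) (.g (nat_lit 3507) (.e (nat_lit 57884) (nat_lit 270) (.e (nat_lit 1656) (nat_lit 115) (.e (nat_lit 393265) (nat_lit 22) (.e (nat_lit 417820) (nat_lit 10) (.e (nat_lit 5626) (nat_lit 312) (.e (nat_lit 22) (nat_lit 0) (.e (nat_lit 6219) (nat_lit 333) .nil))))))) (.g (nat_lit 5) .nil .nil))) 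
(.lf (nat_lit 186830) (.g (nat_lit 1252) (.e (nat_lit 57887) (nat_lit 270) (.e (nat_lit 1250) (nat_lit 92) (.e (nat_lit 98372) (nat_lit 29) (.e (nat_lit 450571) (nat_lit 1) .nil)))) .nil))) (.nd (nat_lit 6) 
(.lf (nat_lit 186798) (.g (nat_lit 2492) (.e (nat_lit 57884) (nat_lit 270) (.e (nat_lit 1656) (nat_lit 115) (.e (nat_lit 393301) (nat_lit 27) (.e (nat_lit 491551) (nat_lit 9) (.e (nat_lit 336248) (nat_lit 15) .nil))))) .nil)) 
(.lf (nat_lit 186862) (.g (nat_lit 1237) (.e (nat_lit 57887) (nat_lit 270) (.e (nat_lit 1656) (nat_lit 115) (.e (nat_lit 393265) (nat_lit 22) (.e (nat_lit 417820) (nat_lit 10) (.e (nat_lit 5612) (nat_lit 312) .nil))))) .nil)))) (.nd (nat_lit 5) (.nd (nat_lit 6) 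
(.lf (nat_lit 186782) (.g (nat_lit 375) (.e (nat_lit 57884) (nat_lit 270) (.e (nat_lit 1656) (nat_lit 115) (.e (nat_lit 393293) (nat_lit 26) .nil))) .nil)) 
(.lf (nat_lit 186846) (.g (nat_lit 1749) (.e (nat_lit 57887) (nat_lit 270) (.e (nat_lit 1656) (nat_lit 115) (.e (nat_lit 393234) (nat_lit 17) (.e (nat_lit 7587) (nat_lit 406) (.e (nat_lit 65632) (nat_lit 15) .nil))))) .nil))) (.nd (nat_lit 6) 
(.lf (nat_lit 186814) (.g (nat_lit 1658) (.e (nat_lit 57886) (nat_lit 270) (.e (nat_lit 1656) (nat_lit 115) (.e (nat_lit 393234) (nat_lit 17) (.e (nat_lit 7589) (nat_lit 406) .nil)))) .nil)) 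
(.lf (nat_lit 186878) (.g (nat_lit 551) (.e (nat_lit 57887) (nat_lit 270) (.e (nat_lit 1656) (nat_lit 115) (.e (nat_lit 393300) (nat_lit 27) .nil))) .nil)))))))) (.nd (nat_lit 1) (.nd (nat_lit 2) (.nd (nat_lit 3) (.nd (nat_lit 4) (.nd (nat_lit 5) (.nd (nat_lit 6) 
(.lf (nat_lit 186753) (.g (nat_lit 2172) (.e (nat_lit 57884) (nat_lit 270) (.e (nat_lit 1550) (nat_lit 109) (.e (nat_lit 344126) (nat_lit 25) (.e (nat_lit 548889) (nat_lit 9) (.e (nat_lit 65598) (nat_lit 9) .nil))))) .nil)) 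
(.lf (nat_lit 186817) (.g (nat_lit 1032) (.e (nat_lit 57886) (nat_lit 270) (.e (nat_lit 1656) (nat_lit 115) (.e (nat_lit 393270) (nat_lit 23) (.e (nat_lit 426444) (nat_lit 19) .nil)))) .nil))) (.nd (nat_lit 6) 
(.lf (nat_lit 186785) (.g (nat_lit 966) (.e (nat_lit 57884) (nat_lit 270) (.e (nat_lit 1656) (nat_lit 115) (.e (nat_lit 393293) (nat_lit 26) (.e (nat_lit 475218) (nat_lit 44) (.e (nat_lit 737286) (nat_lit 0) .nil))))) .nil)) 
(.lf (nat_lit 186849) (.g (nat_lit 1262) (.e (nat_lit 57887) (nat_lit 270) (.e (nat_lit 1656) (nat_lit 115) (.e (nat_lit 393234) (nat_lit 17) (.e (nat_lit 7936) (nat_lit 406) .nil)))) .nil)))) (.nd (nat_lit 5) (.nd (nat_lit 6) 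
(.lf (nat_lit 186769) (.g (nat_lit 1606) (.e (nat_lit 57884) (nat_lit 270) (.e (nat_lit 1656) (nat_lit 115) (.e (nat_lit 393268) (nat_lit 23) (.e (nat_lit 426444) (nat_lit 19) .nil)))) .nil)) 
(.lf (nat_lit 186833) (.g (nat_lit 2243) (.e (nat_lit 57887) (nat_lit 270) (.e (nat_lit 1633) (nat_lit 114) (.e (nat_lit 385074) (nat_lit 31) (.e (nat_lit 573493) (nat_lit 15) .nil)))) .nil))) (.nd (nat_lit 6) 
(.lf (nat_lit 186801) (.g (nat_lit 2785) (.e (nat_lit 57884) (nat_lit 270) (.e (nat_lit 1656) (nat_lit 115) (.e (nat_lit 393301) (nat_lit 27) (.e (nat_lit 491551) (nat_lit 9) (.e (nat_lit 336250) (nat_lit 15) (.e (nat_lit 7081) (nat_lit 378) .nil)))))) (.g (nat_lit 4) .nil .nil))) 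
(.lf (nat_lit 186865) (.g (nat_lit 3853) (.e (nat_lit 57887) (nat_lit 270) (.e (nat_lit 1656) (nat_lit 115) (.e (nat_lit 393265) (nat_lit 22) (.e (nat_lit 417820) (nat_lit 10) (.e (nat_lit 5626) (nat_lit 312) (.e (nat_lit 25) (nat_lit 0) (.e (nat_lit 6216) (nat_lit 333) .nil))))))) (.g (nat_lit 5) .nil .nil)))))) (.nd (nat_lit 4) (.nd (nat_lit 5) (.nd (nat_lit 6) 
(.lf (nat_lit 186761) (.g (nat_lit 2659) (.e (nat_lit 57884) (nat_lit 270) (.e (nat_lit 1633) (nat_lit 114) (.e (nat_lit 385106) (nat_lit 50) (.e (nat_lit 786481) (nat_lit 30) (.e (nat_lit 360482) (nat_lit 15) (.e (nat_lit 655104) (nat_lit 15) .nil)))))) (.g (nat_lit 4) .nil .nil))) 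
(.lf (nat_lit 186825) (.g (nat_lit 1441) (.e (nat_lit 57887) (nat_lit 270) (.e (nat_lit 1046) (nat_lit 81) (.e (nat_lit 1788) (nat_lit 119) (.e (nat_lit 516163) (nat_lit 11) (.e (nat_lit 442424) (nat_lit 22) .nil))))) .nil))) (.nd (nat_lit 6) 
(.lf (nat_lit 186793) (.g (nat_lit 2633) (.e (nat_lit 57884) (nat_lit 270) (.e (nat_lit 1656) (nat_lit 115) (.e (nat_lit 393300) (nat_lit 27) (.e (nat_lit 491552) (nat_lit 9) (.e (nat_lit 336248) (nat_lit 15) (.e (nat_lit 7081) (nat_lit 378) .nil)))))) (.g (nat_lit 4) .nil .nil))) 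
(.lf (nat_lit 186857) (.g (nat_lit 1538) (.e (nat_lit 57887) (nat_lit 270) (.e (nat_lit 1656) (nat_lit 115) (.e (nat_lit 393263) (nat_lit 22) (.e (nat_lit 417817) (nat_lit 10) (.e (nat_lit 5742) (nat_lit 313) .nil))))) .nil)))) (.nd (nat_lit 5) (.nd (nat_lit 6) 
(.lf (nat_lit 186777) (.g (nat_lit 1379) (.e (nat_lit 57884) (nat_lit 270) (.e (nat_lit 1656) (nat_lit 115) (.e (nat_lit 393291) (nat_lit 26) (.e (nat_lit 475219) (nat_lit 44) .nil)))) .nil)) 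
(.lf (nat_lit 186841) (.g (nat_lit 2171) (.e (nat_lit 57887) (nat_lit 270) (.e (nat_lit 1633) (nat_lit 114) (.e (nat_lit 385106) (nat_lit 50) (.e (nat_lit 786483) (nat_lit 30) (.e (nat_lit 360451) (nat_lit 0) (.e (nat_lit 5442) (nat_lit 306) (.e (nat_lit 92) (nat_lit 1) .nil))))))) (.g (nat_lit 4) .nil .nil)))) (.nd (nat_lit 6) 
(.lf (nat_lit 186809) (.g (nat_lit 883) (.e (nat_lit 57886) (nat_lit 270) (.e (nat_lit 1250) (nat_lit 92) (.e (nat_lit 98380) (nat_lit 31) (.e (nat_lit 466974) (nat_lit 22) .nil)))) .nil)) 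
(.lf (nat_lit 186873) (.g (nat_lit 1949) (.e (nat_lit 57887) (nat_lit 270) (.e (nat_lit 1656) (nat_lit 115) (.e (nat_lit 393291) (nat_lit 26) (.e (nat_lit 475219) (nat_lit 44) (.e (nat_lit 737286) (nat_lit 0) .nil))))) .nil)))))) (.nd (nat_lit 3) (.nd (nat_lit 4) (.nd (nat_lit 5) (.nd (nat_lit 6) 
(.lf (nat_lit 186757) (.g (nat_lit 2271) (.e (nat_lit 57884) (nat_lit 270) (.e (nat_lit 1633) (nat_lit 114) (.e (nat_lit 385102) (nat_lit 50) (.e (nat_lit 786483) (nat_lit 30) (.e (nat_lit 360484) (nat_lit 15) (.e (nat_lit 655104) (nat_lit 15) .nil)))))) (.g (nat_lit 5) .nil .nil))) 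
(.lf (nat_lit 186821) (.g (nat_lit 1356) (.e (nat_lit 57886) (nat_lit 270) (.e (nat_lit 1656) (nat_lit 115) (.e (nat_lit 393293) (nat_lit 26) (.e (nat_lit 475200) (nat_lit 40) .nil)))) .nil))) (.nd (nat_lit 6) 
(.lf (nat_lit 186789) (.g (nat_lit 1880) (.e (nat_lit 57884) (nat_lit 270) (.e (nat_lit 1656) (nat_lit 115) (.e (nat_lit 393300) (nat_lit 27) (.e (nat_lit 491551) (nat_lit 9) (.e (nat_lit 336248) (nat_lit 15) .nil))))) .nil)) 
(.lf (nat_lit 186853) (.g (nat_lit 2255) (.e (nat_lit 57887) (nat_lit 270) (.e (nat_lit 1656) (nat_lit 115) (.e (nat_lit 393260) (nat_lit 21) (.e (nat_lit 409643) (nat_lit 18) (.e (nat_lit 303149) (nat_lit 15) .nil))))) .nil)))) (.nd (nat_lit 5) (.nd (nat_lit 6) 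
(.lf (nat_lit 186773) (.g (nat_lit 512) (.e (nat_lit 57884) (nat_lit 270) (.e (nat_lit 1656) (nat_lit 115) (.e (nat_lit 393290) (nat_lit 26) .nil))) .nil)) 
(.lf (nat_lit 186837) (.g (nat_lit 1694) (.e (nat_lit 57887) (nat_lit 270) (.e (nat_lit 1633) (nat_lit 114) (.e (nat_lit 385106) (nat_lit 50) (.e (nat_lit 786483) (nat_lit 30) (.e (nat_lit 360451) (nat_lit 0) .nil))))) .nil))) (.nd (nat_lit 6) 
(.lf (nat_lit 186805) (.g (nat_lit 2639) (.e (nat_lit 57884) (nat_lit 270) (.e (nat_lit 1656) (nat_lit 115) (.e (nat_lit 393301) (nat_lit 27) (.e (nat_lit 491563) (nat_lit 12) (.e (nat_lit 392960) (nat_lit 17) .nil))))) (.g (nat_lit 4) .nil .nil))) 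
(.lf (nat_lit 186869) (.g (nat_lit 1624) (.e (nat_lit 57887) (nat_lit 270) (.e (nat_lit 1656) (nat_lit 115) (.e (nat_lit 393270) (nat_lit 23) (.e (nat_lit 426442) (nat_lit 19) (.e (nat_lit 106556) (nat_lit 15) (.e (nat_lit 57814) (nat_lit 246) .nil)))))) (.g (nat_lit 4) .nil .nil)))))) (.nd (nat_lit 4) (.nd (nat_lit 5) (.nd (nat_lit 6) 
(.lf (nat_lit 186765) (.g (nat_lit 1147) (.e (nat_lit 57884) (nat_lit 270) (.e (nat_lit 1656) (nat_lit 115) (.e (nat_lit 393232) (nat_lit 17) (.e (nat_lit 7589) (nat_lit 406) .nil)))) .nil)) 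
(.lf (nat_lit 186829) (.g (nat_lit 1674) (.e (nat_lit 57887) (nat_lit 270) (.e (nat_lit 1250) (nat_lit 92) (.e (nat_lit 98369) (nat_lit 28) (.e (nat_lit 442424) (nat_lit 22) (.e (nat_lit 196661) (nat_lit 12) (.e (nat_lit 57721) (nat_lit 177) .nil)))))) (.g (nat_lit 4) .nil .nil)))) (.nd (nat_lit 6) 
(.lf (nat_lit 186797) (.g (nat_lit 1553) (.e (nat_lit 57884) (nat_lit 270) (.e (nat_lit 1656) (nat_lit 115) (.e (nat_lit 393301) (nat_lit 27) (.e (nat_lit 491546) (nat_lit 9) .nil)))) .nil)) 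
(.lf (nat_lit 186861) (.g (nat_lit 983) (.e (nat_lit 57887) (nat_lit 270) (.e (nat_lit 1656) (nat_lit 115) (.e (nat_lit 393265) (nat_lit 22) (.e (nat_lit 417804) (nat_lit 1) .nil)))) .nil)))) (.nd (nat_lit 5) (.nd (nat_lit 6) 
(.lf (nat_lit 186781) (.g (nat_lit 511) (.e (nat_lit 57884) (nat_lit 270) (.e (nat_lit 1656) (nat_lit 115) (.e (nat_lit 393292) (nat_lit 26) .nil))) .nil)) 
(.lf (nat_lit 186845) (.g (nat_lit 1159) (.e (nat_lit 57887) (nat_lit 270) (.e (nat_lit 1656) (nat_lit 115) (.e (nat_lit 393234) (nat_lit 17) (.e (nat_lit 7587) (nat_lit 406) .nil)))) .nil))) (.nd (nat_lit 6) 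
(.lf (nat_lit 186813) (.g (nat_lit 1614) (.e (nat_lit 57886) (nat_lit 270) (.e (nat_lit 1656) (nat_lit 115) (.e (nat_lit 393234) (nat_lit 17) (.e (nat_lit 7587) (nat_lit 406) .nil)))) .nil)) 
(.lf (nat_lit 186877) (.g (nat_lit 1128) (.e (nat_lit 57887) (nat_lit 270) (.e (nat_lit 1656) (nat_lit 115) (.e (nat_lit 393293) (nat_lit 26) (.e (nat_lit 475218) (nat_lit 44) .nil)))) .nil))))))) (.nd (nat_lit 2) (.nd (nat_lit 3) (.nd (nat_lit 4) (.nd (nat_lit 5) (.nd (nat_lit 6) 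
(.lf (nat_lit 186755) (.g (nat_lit 1744) (.e (nat_lit 57884) (nat_lit 270) (.e (nat_lit 1633) (nat_lit 114) (.e (nat_lit 385074) (nat_lit 31) (.e (nat_lit 573491) (nat_lit 15) .nil)))) .nil)) 
(.lf (nat_lit 186819) (.g (nat_lit 1665) (.e (nat_lit 57886) (nat_lit 270) (.e (nat_lit 1656) (nat_lit 115) (.e (nat_lit 393291) (nat_lit 26) (.e (nat_lit 475219) (nat_lit 44) .nil)))) .nil))) (.nd (nat_lit 6) 
(.lf (nat_lit 186787) (.g (nat_lit 1703) (.e (nat_lit 57884) (nat_lit 270) (.e (nat_lit 1656) (nat_lit 115) (.e (nat_lit 393298) (nat_lit 27) (.e (nat_lit 491552) (nat_lit 9) .nil)))) .nil)) 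
(.lf (nat_lit 186851) (.g (nat_lit 1988) (.e (nat_lit 57887) (nat_lit 270) (.e (nat_lit 1656) (nat_lit 115) (.e (nat_lit 393260) (nat_lit 21) (.e (nat_lit 409616) (nat_lit 10) .nil)))) .nil)))) (.nd (nat_lit 5) (.nd (nat_lit 6) 
(.lf (nat_lit 186771) (.g (nat_lit 463) (.e (nat_lit 57884) (nat_lit 270) (.e (nat_lit 1656) (nat_lit 115) (.e (nat_lit 393283) (nat_lit 24) .nil))) .nil)) 
(.lf (nat_lit 186835) (.g (nat_lit 2398) (.e (nat_lit 57887) (nat_lit 270) (.e (nat_lit 1633) (nat_lit 114) (.e (nat_lit 385106) (nat_lit 50) (.e (nat_lit 786483) (nat_lit 30) (.e (nat_lit 360450) (nat_lit 0) (.e (nat_lit 5441) (nat_lit 306) (.e (nat_lit 92) (nat_lit 1) .nil))))))) (.g (nat_lit 4) .nil .nil)))) (.nd (nat_lit 6) 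
(.lf (nat_lit 186803) (.g (nat_lit 1953) (.e (nat_lit 57884) (nat_lit 270) (.e (nat_lit 1656) (nat_lit 115) (.e (nat_lit 393301) (nat_lit 27) (.e (nat_lit 491552) (nat_lit 9) (.e (nat_lit 336250) (nat_lit 15) .nil))))) .nil)) 
(.lf (nat_lit 186867) (.g (nat_lit 1539) (.e (nat_lit 57887) (nat_lit 270) (.e (nat_lit 1656) (nat_lit 115) (.e (nat_lit 393265) (nat_lit 22) (.e (nat_lit 417829) (nat_lit 18) (.e (nat_lit 303149) (nat_lit 15) .nil))))) .nil))))) (.nd (nat_lit 4) (.nd (nat_lit 5) (.nd (nat_lit 6) 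
(.lf (nat_lit 186763) (.g (nat_lit 512) (.e (nat_lit 57884) (nat_lit 270) (.e (nat_lit 1656) (nat_lit 115) (.e (nat_lit 393231) (nat_lit 17) .nil))) .nil)) 
(.lf (nat_lit 186827) (.g (nat_lit 923) (.e (nat_lit 57887) (nat_lit 270) (.e (nat_lit 1232) (nat_lit 91) (.e (nat_lit 90178) (nat_lit 15) (.e (nat_lit 188448) (nat_lit 22) .nil)))) .nil))) (.nd (nat_lit 6) 
(.lf (nat_lit 186795) (.g (nat_lit 2756) (.e (nat_lit 57884) (nat_lit 270) (.e (nat_lit 1656) (nat_lit 115) (.e (nat_lit 393300) (nat_lit 27) (.e (nat_lit 491552) (nat_lit 9) (.e (nat_lit 336250) (nat_lit 15) (.e (nat_lit 7079) (nat_lit 378) .nil)))))) (.g (nat_lit 5) .nil .nil))) 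
(.lf (nat_lit 186859) (.g (nat_lit 424) (.e (nat_lit 57887) (nat_lit 270) (.e (nat_lit 1656) (nat_lit 115) (.e (nat_lit 393265) (nat_lit 22) .nil))) .nil)))) (.nd (nat_lit 5) (.nd (nat_lit 6) 
(.lf (nat_lit 186779) (.g (nat_lit 3313) (.e (nat_lit 57884) (nat_lit 270) (.e (nat_lit 1656) (nat_lit 115) (.e (nat_lit 393291) (nat_lit 26) (.e (nat_lit 475219) (nat_lit 44) (.e (nat_lit 737286) (nat_lit 0) (.e (nat_lit 5001) (nat_lit 288) .nil)))))) (.g (nat_lit 6) .nil .nil))) 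
(.lf (nat_lit 186843) (.g (nat_lit 2959) (.e (nat_lit 57887) (nat_lit 270) (.e (nat_lit 1633) (nat_lit 114) (.e (nat_lit 385106) (nat_lit 50) (.e (nat_lit 786483) (nat_lit 30) (.e (nat_lit 360484) (nat_lit 15) (.e (nat_lit 655104) (nat_lit 15) .nil)))))) (.g (nat_lit 5) .nil .nil)))) (.nd (nat_lit 6) 
(.lf (nat_lit 186811) (.g (nat_lit 1369) (.e (nat_lit 57886) (nat_lit 270) (.e (nat_lit 1250) (nat_lit 92) (.e (nat_lit 98382) (nat_lit 31) (.e (nat_lit 466977) (nat_lit 22) (.e (nat_lit 196677) (nat_lit 16) .nil))))) .nil)) 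
(.lf (nat_lit 186875) (.g (nat_lit 524) (.e (nat_lit 57887) (nat_lit 270) (.e (nat_lit 1656) (nat_lit 115) (.e (nat_lit 393293) (nat_lit 26) .nil))) .nil)))))) (.nd (nat_lit 3) (.nd (nat_lit 4) (.nd (nat_lit 5) (.nd (nat_lit 6) 
(.lf (nat_lit 186759) (.g (nat_lit 853) (.e (nat_lit 57884) (nat_lit 270) (.e (nat_lit 1633) (nat_lit 114) (.e (nat_lit 385105) (nat_lit 50) (.e (nat_lit 786483) (nat_lit 30) .nil)))) .nil)) 
(.lf (nat_lit 186823) (.g (nat_lit 1340) (.e (nat_lit 57886) (nat_lit 270) (.e (nat_lit 1656) (nat_lit 115) (.e (nat_lit 393293) (nat_lit 26) (.e (nat_lit 483072) (nat_lit 40) .nil)))) .nil))) (.nd (nat_lit 6) 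
(.lf (nat_lit 186791) (.g (nat_lit 2716) (.e (nat_lit 57884) (nat_lit 270) (.e (nat_lit 1656) (nat_lit 115) (.e (nat_lit 393300) (nat_lit 27) (.e (nat_lit 491551) (nat_lit 9) (.e (nat_lit 336250) (nat_lit 15) (.e (nat_lit 7079) (nat_lit 378) .nil)))))) (.g (nat_lit 4) .nil .nil))) 
(.lf (nat_lit 186855) (.g (nat_lit 2593) (.e (nat_lit 57887) (nat_lit 270) (.e (nat_lit 1656) (nat_lit 115) (.e (nat_lit 393260) (nat_lit 21) (.e (nat_lit 409648) (nat_lit 18) (.e (nat_lit 303149) (nat_lit 15) .nil))))) .nil)))) (.nd (nat_lit 5) (.nd (nat_lit 6) 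
(.lf (nat_lit 186775) (.g (nat_lit 444) (.e (nat_lit 57884) (nat_lit 270) (.e (nat_lit 1656) (nat_lit 115) (.e (nat_lit 393291) (nat_lit 26) .nil))) .nil)) 
(.lf (nat_lit 186839) (.g (nat_lit 2695) (.e (nat_lit 57887) (nat_lit 270) (.e (nat_lit 1633) (nat_lit 114) (.e (nat_lit 385106) (nat_lit 50) (.e (nat_lit 786483) (nat_lit 30) (.e (nat_lit 360451) (nat_lit 0) (.e (nat_lit 5440) (nat_lit 306) (.e (nat_lit 92) (nat_lit 1) .nil))))))) (.g (nat_lit 5) .nil .nil)))) (.nd (nat_lit 6) 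
(.lf (nat_lit 186807) (.g (nat_lit 1256) (.e (nat_lit 57886) (nat_lit 270) (.e (nat_lit 1250) (nat_lit 92) (.e (nat_lit 98372) (nat_lit 29) (.e (nat_lit 450571) (nat_lit 1) (.e (nat_lit 500083) (nat_lit 21) .nil))))) .nil)) 
(.lf (nat_lit 186871) (.g (nat_lit 476) (.e (nat_lit 57887) (nat_lit 270) (.e (nat_lit 1656) (nat_lit 115) (.e (nat_lit 393289) (nat_lit 25) .nil))) .nil))))) (.nd (nat_lit 4) (.nd (nat_lit 5) (.nd (nat_lit 6) 
(.lf (nat_lit 186767) (.g (nat_lit 859) (.e (nat_lit 57884) (nat_lit 270) (.e (nat_lit 1656) (nat_lit 115) (.e (nat_lit 393267) (nat_lit 23) (.e (nat_lit 426442) (nat_lit 19) .nil)))) .nil)) 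
(.lf (nat_lit 186831) (.g (nat_lit 925) (.e (nat_lit 57887) (nat_lit 270) (.e (nat_lit 1250) (nat_lit 92) (.e (nat_lit 98381) (nat_lit 31) (.e (nat_lit 466974) (nat_lit 22) .nil)))) .nil))) (.nd (nat_lit 6) 
(.lf (nat_lit 186799) (.g (nat_lit 2906) (.e (nat_lit 57884) (nat_lit 270) (.e (nat_lit 1656) (nat_lit 115) (.e (nat_lit 393301) (nat_lit 27) (.e (nat_lit 491551) (nat_lit 9) (.e (nat_lit 336250) (nat_lit 15) (.e (nat_lit 7077) (nat_lit 378) .nil)))))) (.g (nat_lit 4) .nil .nil))) 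
(.lf (nat_lit 186863) (.g (nat_lit 1720) (.e (nat_lit 57887) (nat_lit 270) (.e (nat_lit 1656) (nat_lit 115) (.e (nat_lit 393265) (nat_lit 22) (.e (nat_lit 417820) (nat_lit 10) (.e (nat_lit 5612) (nat_lit 312) (.e (nat_lit 21) (nat_lit 0) (.e (nat_lit 6216) (nat_lit 333) .nil))))))) (.g (nat_lit 4) .nil .nil))))) (.nd (nat_lit 5) (.nd (nat_lit 6) 
(.lf (nat_lit 186783) (.g (nat_lit 1996) (.e (nat_lit 57884) (nat_lit 270) (.e (nat_lit 1656) (nat_lit 115) (.e (nat_lit 393293) (nat_lit 26) (.e (nat_lit 475201) (nat_lit 40) (.e (nat_lit 704839) (nat_lit 15) (.e (nat_lit 57813) (nat_lit 246) .nil)))))) (.g (nat_lit 4) .nil .nil))) 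
(.lf (nat_lit 186847) (.g (nat_lit 2253) (.e (nat_lit 57887) (nat_lit 270) (.e (nat_lit 1656) (nat_lit 115) (.e (nat_lit 393234) (nat_lit 17) (.e (nat_lit 7587) (nat_lit 406) (.e (nat_lit 65632) (nat_lit 15) (.e (nat_lit 7082) (nat_lit 378) .nil)))))) (.g (nat_lit 4) .nil .nil)))) (.nd (nat_lit 6) 
(.lf (nat_lit 186815) (.g (nat_lit 532) (.e (nat_lit 57886) (nat_lit 270) (.e (nat_lit 1656) (nat_lit 115) (.e (nat_lit 393265) (nat_lit 22) .nil))) .nil)) 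
(.lf (nat_lit 186879) (.g (nat_lit 1852) (.e (nat_lit 57887) (nat_lit 270) (.e (nat_lit 1656) (nat_lit 115) (.e (nat_lit 393300) (nat_lit 27) (.e (nat_lit 491572) (nat_lit 14) .nil)))) .nil)))))))))

noncomputable def tv2482 : DT := (.nd (nat_lit 0) (.nd (nat_lit 1) (.nd (nat_lit 2) (.nd (nat_lit 3) (.nd (nat_lit 4) (.nd (nat_lit 5) (.nd (nat_lit 6) 
(.lf (nat_lit 186880) (.g (nat_lit 1985) (.e (nat_lit 57887) (nat_lit 270) (.e (nat_lit 1656) (nat_lit 115) (.e (nat_lit 393301) (nat_lit 27) (.e (nat_lit 491552) (nat_lit 9) .nil)))) .nil)) 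
(.lf (nat_lit 186944) (.g (nat_lit 1428) (.e (nat_lit 57891) (nat_lit 270) (.e (nat_lit 1638) (nat_lit 114) (.e (nat_lit 385107) (nat_lit 51) (.e (nat_lit 794683) (nat_lit 25) .nil)))) .nil))) (.nd (nat_lit 6) 
(.lf (nat_lit 186912) (.g (nat_lit 2632) (.e (nat_lit 57890) (nat_lit 270) (.e (nat_lit 1661) (nat_lit 115) (.e (nat_lit 393260) (nat_lit 21) (.e (nat_lit 409645) (nat_lit 18) (.e (nat_lit 303149) (nat_lit 15) .nil))))) .nil)) 
(.lf (nat_lit 186976) (.g (nat_lit 985) (.e (nat_lit 57891) (nat_lit 270) (.e (nat_lit 1661) (nat_lit 115) (.e (nat_lit 393274) (nat_lit 23) (.e (nat_lit 433920) (nat_lit 19) .nil)))) .nil)))) (.nd (nat_lit 5) (.nd (nat_lit 6) 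
(.lf (nat_lit 186896) (.g (nat_lit 947) (.e (nat_lit 57890) (nat_lit 270) (.e (nat_lit 1253) (nat_lit 92) (.e (nat_lit 98373) (nat_lit 29) (.e (nat_lit 450581) (nat_lit 5) .nil)))) .nil)) 
(.lf (nat_lit 186960) (.g (nat_lit 415) (.e (nat_lit 57891) (nat_lit 270) (.e (nat_lit 1661) (nat_lit 115) (.e (nat_lit 393260) (nat_lit 21) .nil))) .nil))) (.nd (nat_lit 6) 
(.lf (nat_lit 186928) (.g (nat_lit 1806) (.e (nat_lit 57891) (nat_lit 270) (.e (nat_lit 1253) (nat_lit 92) (.e (nat_lit 98358) (nat_lit 26) (.e (nat_lit 426243) (nat_lit 9) .nil)))) .nil)) 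
(.lf (nat_lit 186992) (.g (nat_lit 2181) (.e (nat_lit 57893) (nat_lit 271) (.e (nat_lit 8234) (nat_lit 20) (.e (nat_lit 573484) (nat_lit 13) (.e (nat_lit 65617) (nat_lit 10) .nil)))) .nil))))) (.nd (nat_lit 4) (.nd (nat_lit 5) (.nd (nat_lit 6) 
(.lf (nat_lit 186888) (.g (nat_lit 1776) (.e (nat_lit 57890) (nat_lit 270) (.e (nat_lit 1253) (nat_lit 92) (.e (nat_lit 98358) (nat_lit 26) (.e (nat_lit 426241) (nat_lit 9) .nil)))) .nil)) 
(.lf (nat_lit 186952) (.g (nat_lit 2990) (.e (nat_lit 57891) (nat_lit 270) (.e (nat_lit 1659) (nat_lit 115) (.e (nat_lit 393301) (nat_lit 27) (.e (nat_lit 491563) (nat_lit 12) (.e (nat_lit 392960) (nat_lit 17) .nil))))) (.g (nat_lit 4) .nil .nil)))) (.nd (nat_lit 6) 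
(.lf (nat_lit 186920) (.g (nat_lit 3091) (.e (nat_lit 57890) (nat_lit 270) (.e (nat_lit 1661) (nat_lit 115) (.e (nat_lit 393260) (nat_lit 21) (.e (nat_lit 409651) (nat_lit 19) .nil)))) .nil)) 
(.lf (nat_lit 186984) (.g (nat_lit 2489) (.e (nat_lit 65280) (nat_lit 270) (.e (nat_lit 1661) (nat_lit 115) (.e (nat_lit 393260) (nat_lit 21) (.e (nat_lit 409645) (nat_lit 18) .nil)))) .nil)))) (.nd (nat_lit 5) (.nd (nat_lit 6) 
(.lf (nat_lit 186904) (.g (nat_lit 1643) (.e (nat_lit 57890) (nat_lit 270) (.e (nat_lit 1660) (nat_lit 115) (.e (nat_lit 393260) (nat_lit 21) (.e (nat_lit 409645) (nat_lit 18) .nil)))) .nil)) 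
(.lf (nat_lit 186968) (.g (nat_lit 2180) (.e (nat_lit 57891) (nat_lit 270) (.e (nat_lit 1661) (nat_lit 115) (.e (nat_lit 393260) (nat_lit 21) (.e (nat_lit 409648) (nat_lit 18) (.e (nat_lit 303148) (nat_lit 15) .nil))))) .nil))) (.nd (nat_lit 6) 
(.lf (nat_lit 186936) (.g (nat_lit 1335) (.e (nat_lit 57891) (nat_lit 270) (.e (nat_lit 1427) (nat_lit 108) (.e (nat_lit 336369) (nat_lit 27) (.e (nat_lit 426173) (nat_lit 7) .nil)))) .nil)) 
(.lf (nat_lit 187000) (.g (nat_lit 1373) (.e (nat_lit 57894) (nat_lit 272) (.e (nat_lit 16473) (nat_lit 14) (.e (nat_lit 491526) (nat_lit 0) .nil))) .nil)))))) (.nd (nat_lit 3) (.nd (nat_lit 4) (.nd (nat_lit 5) (.nd (nat_lit 6) 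
(.lf (nat_lit 186884) (.g (nat_lit 1590) (.e (nat_lit 57888) (nat_lit 270) (.e (nat_lit 1656) (nat_lit 115) (.e (nat_lit 393291) (nat_lit 26) (.e (nat_lit 475219) (nat_lit 44) .nil)))) .nil)) 
(.lf (nat_lit 186948) (.g (nat_lit 2269) (.e (nat_lit 57891) (nat_lit 270) (.e (nat_lit 1658) (nat_lit 115) (.e (nat_lit 393301) (nat_lit 27) (.e (nat_lit 491563) (nat_lit 12) (.e (nat_lit 392960) (nat_lit 17) .nil))))) (.g (nat_lit 4) .nil .nil)))) (.nd (nat_lit 6) 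
(.lf (nat_lit 186916) (.g (nat_lit 2223) (.e (nat_lit 57890) (nat_lit 270) (.e (nat_lit 1661) (nat_lit 115) (.e (nat_lit 393260) (nat_lit 21) (.e (nat_lit 409648) (nat_lit 18) (.e (nat_lit 303148) (nat_lit 15) .nil))))) .nil)) 
(.lf (nat_lit 186980) (.g (nat_lit 915) (.e (nat_lit 57891) (nat_lit 270) (.e (nat_lit 1661) (nat_lit 115) (.e (nat_lit 393299) (nat_lit 27) (.e (nat_lit 491552) (nat_lit 9) .nil)))) .nil)))) (.nd (nat_lit 5) (.nd (nat_lit 6) 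
(.lf (nat_lit 186900) (.g (nat_lit 2088) (.e (nat_lit 57890) (nat_lit 270) (.e (nat_lit 1638) (nat_lit 114) (.e (nat_lit 385102) (nat_lit 50) (.e (nat_lit 786483) (nat_lit 30) (.e (nat_lit 360484) (nat_lit 15) (.e (nat_lit 655104) (nat_lit 15) .nil)))))) (.g (nat_lit 5) .nil .nil))) 
(.lf (nat_lit 186964) (.g (nat_lit 2860) (.e (nat_lit 57891) (nat_lit 270) (.e (nat_lit 1661) (nat_lit 115) (.e (nat_lit 393260) (nat_lit 21) (.e (nat_lit 409644) (nat_lit 18) (.e (nat_lit 303149) (nat_lit 15) .nil))))) .nil))) (.nd (nat_lit 6) 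
(.lf (nat_lit 186932) (.g (nat_lit 1839) (.e (nat_lit 57891) (nat_lit 270) (.e (nat_lit 1253) (nat_lit 92) (.e (nat_lit 98373) (nat_lit 29) (.e (nat_lit 450572) (nat_lit 1) .nil)))) .nil)) 
(.lf (nat_lit 186996) (.g (nat_lit 1813) (.e (nat_lit 57894) (nat_lit 272) (.e (nat_lit 16431) (nat_lit 9) (.e (nat_lit 426140) (nat_lit 3) (.e (nat_lit 212736) (nat_lit 15) .nil)))) .nil))))) (.nd (nat_lit 4) (.nd (nat_lit 5) (.nd (nat_lit 6) 
(.lf (nat_lit 186892) (.g (nat_lit 400) (.e (nat_lit 57890) (nat_lit 270) (.e (nat_lit 1253) (nat_lit 92) (.e (nat_lit 98372) (nat_lit 29) .nil))) .nil)) 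
(.lf (nat_lit 186956) (.g (nat_lit 2143) (.e (nat_lit 57891) (nat_lit 270) (.e (nat_lit 1660) (nat_lit 115) (.e (nat_lit 393260) (nat_lit 21) (.e (nat_lit 409649) (nat_lit 18) (.e (nat_lit 303149) (nat_lit 15) .nil))))) .nil))) (.nd (nat_lit 6) 
(.lf (nat_lit 186924) (.g (nat_lit 1563) (.e (nat_lit 57891) (nat_lit 270) (.e (nat_lit 1235) (nat_lit 91) (.e (nat_lit 90170) (nat_lit 13) (.e (nat_lit 172097) (nat_lit 9) .nil)))) .nil)) 
(.lf (nat_lit 186988) (.g (nat_lit 2037) (.e (nat_lit 65280) (nat_lit 270) (.e (nat_lit 1661) (nat_lit 115) (.e (nat_lit 393260) (nat_lit 21) (.e (nat_lit 409649) (nat_lit 18) .nil)))) .nil)))) (.nd (nat_lit 5) (.nd (nat_lit 6) 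
(.lf (nat_lit 186908) (.g (nat_lit 2737) (.e (nat_lit 57890) (nat_lit 270) (.e (nat_lit 1661) (nat_lit 115) (.e (nat_lit 393260) (nat_lit 21) (.e (nat_lit 409617) (nat_lit 10) (.e (nat_lit 7936) (nat_lit 313) .nil))))) .nil)) 
(.lf (nat_lit 186972) (.g (nat_lit 3001) (.e (nat_lit 57891) (nat_lit 270) (.e (nat_lit 1661) (nat_lit 115) (.e (nat_lit 393260) (nat_lit 21) (.e (nat_lit 409650) (nat_lit 19) .nil)))) .nil))) (.nd (nat_lit 6) 
(.lf (nat_lit 186940) (.g (nat_lit 1829) (.e (nat_lit 57891) (nat_lit 270) (.e (nat_lit 1428) (nat_lit 108) (.e (nat_lit 336369) (nat_lit 27) (.e (nat_lit 426173) (nat_lit 7) (.e (nat_lit 409616) (nat_lit 10) (.e (nat_lit 7936) (nat_lit 313) (.e (nat_lit 8541) (nat_lit 226) .nil))))))) (.g (nat_lit 4) .nil .nil))) 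
(.lf (nat_lit 187004) (.g (nat_lit 1406) (.e (nat_lit 57894) (nat_lit 272) (.e (nat_lit 16473) (nat_lit 14) (.e (nat_lit 499456) (nat_lit 18) .nil))) .nil))))))) (.nd (nat_lit 2) (.nd (nat_lit 3) (.nd (nat_lit 4) (.nd (nat_lit 5) (.nd (nat_lit 6) 
(.lf (nat_lit 186882) (.g (nat_lit 3100) (.e (nat_lit 57887) (nat_lit 270) (.e (nat_lit 1656) (nat_lit 115) (.e (nat_lit 393301) (nat_lit 27) (.e (nat_lit 491572) (nat_lit 14) (.e (nat_lit 401465) (nat_lit 15) .nil))))) .nil)) 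
(.lf (nat_lit 186946) (.g (nat_lit 1994) (.e (nat_lit 57891) (nat_lit 270) (.e (nat_lit 1638) (nat_lit 114) (.e (nat_lit 385109) (nat_lit 51) (.e (nat_lit 794683) (nat_lit 25) .nil)))) .nil))) (.nd (nat_lit 6) 
(.lf (nat_lit 186914) (.g (nat_lit 2482) (.e (nat_lit 57890) (nat_lit 270) (.e (nat_lit 1661) (nat_lit 115) (.e (nat_lit 393260) (nat_lit 21) (.e (nat_lit 409647) (nat_lit 18) .nil)))) .nil)) 
(.lf (nat_lit 186978) (.g (nat_lit 3175) (.e (nat_lit 57891) (nat_lit 270) (.e (nat_lit 1661) (nat_lit 115) (.e (nat_lit 393291) (nat_lit 26) (.e (nat_lit 475219) (nat_lit 44) (.e (nat_lit 737286) (nat_lit 0) .nil))))) .nil)))) (.nd (nat_lit 5) (.nd (nat_lit 6) 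
(.lf (nat_lit 186898) (.g (nat_lit 887) (.e (nat_lit 57890) (nat_lit 270) (.e (nat_lit 1428) (nat_lit 108) (.e (nat_lit 336369) (nat_lit 27) (.e (nat_lit 426173) (nat_lit 7) .nil)))) .nil)) 
(.lf (nat_lit 186962) (.g (nat_lit 2100) (.e (nat_lit 57891) (nat_lit 270) (.e (nat_lit 1661) (nat_lit 115) (.e (nat_lit 393260) (nat_lit 21) (.e (nat_lit 409617) (nat_lit 10) .nil)))) .nil))) (.nd (nat_lit 6) 
(.lf (nat_lit 186930) (.g (nat_lit 1806) (.e (nat_lit 57891) (nat_lit 270) (.e (nat_lit 1253) (nat_lit 92) (.e (nat_lit 98358) (nat_lit 26) (.e (nat_lit 426271) (nat_lit 9) .nil)))) .nil)) 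
(.lf (nat_lit 186994) (.g (nat_lit 1920) (.e (nat_lit 57894) (nat_lit 272) (.e (nat_lit 16425) (nat_lit 7) (.e (nat_lit 409648) (nat_lit 18) (.e (nat_lit 303151) (nat_lit 27) .nil)))) .nil))))) (.nd (nat_lit 4) (.nd (nat_lit 5) (.nd (nat_lit 6) 
(.lf (nat_lit 186890) (.g (nat_lit 2069) (.e (nat_lit 57890) (nat_lit 270) (.e (nat_lit 1253) (nat_lit 92) (.e (nat_lit 98358) (nat_lit 26) (.e (nat_lit 426270) (nat_lit 9) (.e (nat_lit 426124) (nat_lit 2) .nil))))) .nil)) 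
(.lf (nat_lit 186954) (.g (nat_lit 1127) (.e (nat_lit 57891) (nat_lit 270) (.e (nat_lit 1660) (nat_lit 115) (.e (nat_lit 393260) (nat_lit 21) (.e (nat_lit 409643) (nat_lit 18) .nil)))) .nil))) (.nd (nat_lit 6) 
(.lf (nat_lit 186922) (.g (nat_lit 1224) (.e (nat_lit 57891) (nat_lit 270) (.e (nat_lit 1234) (nat_lit 91) (.e (nat_lit 90176) (nat_lit 15) (.e (nat_lit 188450) (nat_lit 23) .nil)))) .nil)) 
(.lf (nat_lit 186986) (.g (nat_lit 2632) (.e (nat_lit 65280) (nat_lit 270) (.e (nat_lit 1661) (nat_lit 115) (.e (nat_lit 393260) (nat_lit 21) (.e (nat_lit 409647) (nat_lit 18) .nil)))) .nil)))) (.nd (nat_lit 5) (.nd (nat_lit 6) 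
(.lf (nat_lit 186906) (.g (nat_lit 1091) (.e (nat_lit 57890) (nat_lit 270) (.e (nat_lit 1660) (nat_lit 115) (.e (nat_lit 393260) (nat_lit 21) (.e (nat_lit 409648) (nat_lit 18) .nil)))) .nil)) 
(.lf (nat_lit 186970) (.g (nat_lit 2465) (.e (nat_lit 57891) (nat_lit 270) (.e (nat_lit 1661) (nat_lit 115) (.e (nat_lit 393260) (nat_lit 21) (.e (nat_lit 409649) (nat_lit 18) (.e (nat_lit 303148) (nat_lit 15) .nil))))) .nil))) (.nd (nat_lit 6) 
(.lf (nat_lit 186938) (.g (nat_lit 589) (.e (nat_lit 57891) (nat_lit 270) (.e (nat_lit 1427) (nat_lit 108) (.e (nat_lit 336438) (nat_lit 31) .nil))) .nil)) 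
(.lf (nat_lit 187002) (.g (nat_lit 1305) (.e (nat_lit 57894) (nat_lit 272) (.e (nat_lit 16473) (nat_lit 14) (.e (nat_lit 491558) (nat_lit 10) .nil))) .nil)))))) (.nd (nat_lit 3) (.nd (nat_lit 4) (.nd (nat_lit 5) (.nd (nat_lit 6) 
(.lf (nat_lit 186886) (.g (nat_lit 1224) (.e (nat_lit 57890) (nat_lit 270) (.e (nat_lit 1234) (nat_lit 91) (.e (nat_lit 90176) (nat_lit 15) (.e (nat_lit 188450) (nat_lit 23) .nil)))) .nil)) 
(.lf (nat_lit 186950) (.g (nat_lit 1841) (.e (nat_lit 57891) (nat_lit 270) (.e (nat_lit 1659) (nat_lit 115) (.e (nat_lit 393301) (nat_lit 27) (.e (nat_lit 491551) (nat_lit 9) (.e (nat_lit 336250) (nat_lit 15) .nil))))) .nil))) (.nd (nat_lit 6) 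
(.lf (nat_lit 186918) (.g (nat_lit 2496) (.e (nat_lit 57890) (nat_lit 270) (.e (nat_lit 1661) (nat_lit 115) (.e (nat_lit 393260) (nat_lit 21) (.e (nat_lit 409649) (nat_lit 18) (.e (nat_lit 303148) (nat_lit 15) .nil))))) .nil)) 
(.lf (nat_lit 186982) (.g (nat_lit 458) (.e (nat_lit 65280) (nat_lit 270) (.e (nat_lit 1661) (nat_lit 115) (.e (nat_lit 393260) (nat_lit 21) .nil))) .nil)))) (.nd (nat_lit 5) (.nd (nat_lit 6) 
(.lf (nat_lit 186902) (.g (nat_lit 1292) (.e (nat_lit 57890) (nat_lit 270) (.e (nat_lit 1659) (nat_lit 115) (.e (nat_lit 393301) (nat_lit 27) (.e (nat_lit 491551) (nat_lit 9) .nil)))) .nil)) 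
(.lf (nat_lit 186966) (.g (nat_lit 2349) (.e (nat_lit 57891) (nat_lit 270) (.e (nat_lit 1661) (nat_lit 115) (.e (nat_lit 393260) (nat_lit 21) (.e (nat_lit 409646) (nat_lit 18) (.e (nat_lit 303149) (nat_lit 15) .nil))))) .nil))) (.nd (nat_lit 6) 
(.lf (nat_lit 186934) (.g (nat_lit 1686) (.e (nat_lit 57891) (nat_lit 270) (.e (nat_lit 1253) (nat_lit 92) (.e (nat_lit 98373) (nat_lit 29) (.e (nat_lit 450574) (nat_lit 1) .nil)))) .nil)) 
(.lf (nat_lit 186998) (.g (nat_lit 2748) (.e (nat_lit 57894) (nat_lit 272) (.e (nat_lit 16470) (nat_lit 14) (.e (nat_lit 491571) (nat_lit 13) (.e (nat_lit 401152) (nat_lit 1) .nil)))) .nil))))) (.nd (nat_lit 4) (.nd (nat_lit 5) (.nd (nat_lit 6) 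
(.lf (nat_lit 186894) (.g (nat_lit 1874) (.e (nat_lit 57890) (nat_lit 270) (.e (nat_lit 1253) (nat_lit 92) (.e (nat_lit 98372) (nat_lit 29) (.e (nat_lit 450579) (nat_lit 5) (.e (nat_lit 532480) (nat_lit 0) (.e (nat_lit 6213) (nat_lit 333) .nil)))))) (.g (nat_lit 4) .nil .nil))) 
(.lf (nat_lit 186958) (.g (nat_lit 1440) (.e (nat_lit 57891) (nat_lit 270) (.e (nat_lit 1661) (nat_lit 115) (.e (nat_lit 393238) (nat_lit 17) (.e (nat_lit 7936) (nat_lit 406) .nil)))) .nil))) (.nd (nat_lit 6) 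
(.lf (nat_lit 186926) (.g (nat_lit 999) (.e (nat_lit 57891) (nat_lit 270) (.e (nat_lit 1235) (nat_lit 91) (.e (nat_lit 90178) (nat_lit 15) (.e (nat_lit 188448) (nat_lit 22) .nil)))) .nil)) 
(.lf (nat_lit 186990) (.g (nat_lit 1676) (.e (nat_lit 57893) (nat_lit 271) (.e (nat_lit 8226) (nat_lit 15) (.e (nat_lit 532534) (nat_lit 9) (.e (nat_lit 336211) (nat_lit 13) (.e (nat_lit 393220) (nat_lit 0) (.e (nat_lit 6209) (nat_lit 333) .nil)))))) (.g (nat_lit 4) .nil .nil))))) (.nd (nat_lit 5) (.nd (nat_lit 6) 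
(.lf (nat_lit 186910) (.g (nat_lit 1619) (.e (nat_lit 57890) (nat_lit 270) (.e (nat_lit 1661) (nat_lit 115) (.e (nat_lit 393260) (nat_lit 21) (.e (nat_lit 409643) (nat_lit 18) .nil)))) .nil)) 
(.lf (nat_lit 186974) (.g (nat_lit 1906) (.e (nat_lit 57891) (nat_lit 270) (.e (nat_lit 1661) (nat_lit 115) (.e (nat_lit 393268) (nat_lit 23) (.e (nat_lit 426439) (nat_lit 19) .nil)))) .nil))) (.nd (nat_lit 6) 
(.lf (nat_lit 186942) (.g (nat_lit 2355) (.e (nat_lit 57891) (nat_lit 270) (.e (nat_lit 1638) (nat_lit 114) (.e (nat_lit 385102) (nat_lit 50) (.e (nat_lit 786483) (nat_lit 30) (.e (nat_lit 360484) (nat_lit 15) (.e (nat_lit 655104) (nat_lit 15) .nil)))))) (.g (nat_lit 5) .nil .nil))) 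
(.lf (nat_lit 187006) (.g (nat_lit 852) (.e (nat_lit 57895) (nat_lit 272) (.e (nat_lit 16407) (nat_lit 1) (.e (nat_lit 164325) (nat_lit 230) (.e (nat_lit 163861) (nat_lit 1) .nil)))) .nil)))))))) (.nd (nat_lit 1) (.nd (nat_lit 2) (.nd (nat_lit 3) (.nd (nat_lit 4) (.nd (nat_lit 5) (.nd (nat_lit 6) 
(.lf (nat_lit 186881) (.g (nat_lit 2543) (.e (nat_lit 57887) (nat_lit 270) (.e (nat_lit 1656) (nat_lit 115) (.e (nat_lit 393301) (nat_lit 27) (.e (nat_lit 491563) (nat_lit 12) (.e (nat_lit 392960) (nat_lit 17) .nil))))) (.g (nat_lit 4) .nil .nil))) 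
(.lf (nat_lit 186945) (.g (nat_lit 1874) (.e (nat_lit 57891) (nat_lit 270) (.e (nat_lit 1638) (nat_lit 114) (.e (nat_lit 385109) (nat_lit 51) (.e (nat_lit 794682) (nat_lit 25) .nil)))) .nil))) (.nd (nat_lit 6) 
(.lf (nat_lit 186913) (.g (nat_lit 2392) (.e (nat_lit 57890) (nat_lit 270) (.e (nat_lit 1661) (nat_lit 115) (.e (nat_lit 393260) (nat_lit 21) (.e (nat_lit 409646) (nat_lit 18) (.e (nat_lit 303149) (nat_lit 15) .nil))))) .nil)) 
(.lf (nat_lit 186977) (.g (nat_lit 2699) (.e (nat_lit 57891) (nat_lit 270) (.e (nat_lit 1661) (nat_lit 115) (.e (nat_lit 393291) (nat_lit 26) (.e (nat_lit 475219) (nat_lit 44) .nil)))) .nil)))) (.nd (nat_lit 5) (.nd (nat_lit 6) 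
(.lf (nat_lit 186897) (.g (nat_lit 752) (.e (nat_lit 57890) (nat_lit 270) (.e (nat_lit 1253) (nat_lit 92) (.e (nat_lit 98381) (nat_lit 31) (.e (nat_lit 466974) (nat_lit 22) .nil)))) .nil)) 
(.lf (nat_lit 186961) (.g (nat_lit 2687) (.e (nat_lit 57891) (nat_lit 270) (.e (nat_lit 1661) (nat_lit 115) (.e (nat_lit 393260) (nat_lit 21) (.e (nat_lit 409616) (nat_lit 10) (.e (nat_lit 7936) (nat_lit 313) (.e (nat_lit 8540) (nat_lit 226) .nil)))))) (.g (nat_lit 4) .nil .nil)))) (.nd (nat_lit 6) 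
(.lf (nat_lit 186929) (.g (nat_lit 2005) (.e (nat_lit 57891) (nat_lit 270) (.e (nat_lit 1253) (nat_lit 92) (.e (nat_lit 98358) (nat_lit 26) (.e (nat_lit 426255) (nat_lit 9) (.e (nat_lit 426124) (nat_lit 2) .nil))))) .nil)) 
(.lf (nat_lit 186993) (.g (nat_lit 1381) (.e (nat_lit 65280) (nat_lit 271) (.e (nat_lit 8226) (nat_lit 15) (.e (nat_lit 532558) (nat_lit 14) (.e (nat_lit 376842) (nat_lit 11) (.e (nat_lit 426408) (nat_lit 15) .nil))))) .nil))))) (.nd (nat_lit 4) (.nd (nat_lit 5) (.nd (nat_lit 6) 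
(.lf (nat_lit 186889) (.g (nat_lit 1875) (.e (nat_lit 57890) (nat_lit 270) (.e (nat_lit 1253) (nat_lit 92) (.e (nat_lit 98358) (nat_lit 26) (.e (nat_lit 426255) (nat_lit 9) .nil)))) .nil)) 
(.lf (nat_lit 186953) (.g (nat_lit 1441) (.e (nat_lit 57891) (nat_lit 270) (.e (nat_lit 1660) (nat_lit 115) (.e (nat_lit 393260) (nat_lit 21) (.e (nat_lit 409616) (nat_lit 10) .nil)))) .nil))) (.nd (nat_lit 6) 
(.lf (nat_lit 186921) (.g (nat_lit 2234) (.e (nat_lit 57891) (nat_lit 270) (.e (nat_lit 1234) (nat_lit 91) (.e (nat_lit 90176) (nat_lit 15) (.e (nat_lit 188447) (nat_lit 22) (.e (nat_lit 196661) (nat_lit 12) .nil))))) .nil)) 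
(.lf (nat_lit 186985) (.g (nat_lit 2421) (.e (nat_lit 65280) (nat_lit 270) (.e (nat_lit 1661) (nat_lit 115) (.e (nat_lit 393260) (nat_lit 21) (.e (nat_lit 409646) (nat_lit 18) .nil)))) .nil)))) (.nd (nat_lit 5) (.nd (nat_lit 6) 
(.lf (nat_lit 186905) (.g (nat_lit 1382) (.e (nat_lit 57890) (nat_lit 270) (.e (nat_lit 1660) (nat_lit 115) (.e (nat_lit 393260) (nat_lit 21) (.e (nat_lit 409646) (nat_lit 18) .nil)))) .nil)) 
(.lf (nat_lit 186969) (.g (nat_lit 2172) (.e (nat_lit 57891) (nat_lit 270) (.e (nat_lit 1661) (nat_lit 115) (.e (nat_lit 393260) (nat_lit 21) (.e (nat_lit 409649) (nat_lit 18) (.e (nat_lit 303147) (nat_lit 15) .nil))))) .nil))) (.nd (nat_lit 6) 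
(.lf (nat_lit 186937) (.g (nat_lit 758) (.e (nat_lit 57891) (nat_lit 270) (.e (nat_lit 1427) (nat_lit 108) (.e (nat_lit 336421) (nat_lit 28) .nil))) .nil)) 
(.lf (nat_lit 187001) (.g (nat_lit 1204) (.e (nat_lit 57894) (nat_lit 272) (.e (nat_lit 16473) (nat_lit 14) (.e (nat_lit 491552) (nat_lit 9) .nil))) .nil)))))) (.nd (nat_lit 3) (.nd (nat_lit 4) (.nd (nat_lit 5) (.nd (nat_lit 6) 
(.lf (nat_lit 186885) (.g (nat_lit 1886) (.e (nat_lit 57888) (nat_lit 270) (.e (nat_lit 1656) (nat_lit 115) (.e (nat_lit 393301) (nat_lit 27) (.e (nat_lit 491563) (nat_lit 12) .nil)))) .nil)) 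
(.lf (nat_lit 186949) (.g (nat_lit 1895) (.e (nat_lit 57891) (nat_lit 270) (.e (nat_lit 1659) (nat_lit 115) (.e (nat_lit 393301) (nat_lit 27) (.e (nat_lit 491551) (nat_lit 9) (.e (nat_lit 336248) (nat_lit 15) .nil))))) .nil))) (.nd (nat_lit 6) 
(.lf (nat_lit 186917) (.g (nat_lit 1272) (.e (nat_lit 57890) (nat_lit 270) (.e (nat_lit 1661) (nat_lit 115) (.e (nat_lit 393260) (nat_lit 21) (.e (nat_lit 409649) (nat_lit 18) .nil)))) .nil)) 
(.lf (nat_lit 186981) (.g (nat_lit 2132) (.e (nat_lit 65280) (nat_lit 270) (.e (nat_lit 1239) (nat_lit 91) (.e (nat_lit 90170) (nat_lit 13) (.e (nat_lit 172097) (nat_lit 9) .nil)))) .nil)))) (.nd (nat_lit 5) (.nd (nat_lit 6) 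
(.lf (nat_lit 186901) (.g (nat_lit 881) (.e (nat_lit 57890) (nat_lit 270) (.e (nat_lit 1658) (nat_lit 115) (.e (nat_lit 393301) (nat_lit 27) (.e (nat_lit 491563) (nat_lit 12) .nil)))) .nil)) 
(.lf (nat_lit 186965) (.g (nat_lit 2486) (.e (nat_lit 57891) (nat_lit 270) (.e (nat_lit 1661) (nat_lit 115) (.e (nat_lit 393260) (nat_lit 21) (.e (nat_lit 409645) (nat_lit 18) (.e (nat_lit 303149) (nat_lit 15) .nil))))) .nil))) (.nd (nat_lit 6) 
(.lf (nat_lit 186933) (.g (nat_lit 3093) (.e (nat_lit 57891) (nat_lit 270) (.e (nat_lit 1253) (nat_lit 92) (.e (nat_lit 98373) (nat_lit 29) (.e (nat_lit 450573) (nat_lit 1) (.e (nat_lit 500083) (nat_lit 21) .nil))))) .nil)) 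
(.lf (nat_lit 186997) (.g (nat_lit 733) (.e (nat_lit 57894) (nat_lit 272) (.e (nat_lit 16470) (nat_lit 14) (.e (nat_lit 491571) (nat_lit 13) .nil))) .nil))))) (.nd (nat_lit 4) (.nd (nat_lit 5) (.nd (nat_lit 6) 
(.lf (nat_lit 186893) (.g (nat_lit 991) (.e (nat_lit 57890) (nat_lit 270) (.e (nat_lit 1253) (nat_lit 92) (.e (nat_lit 98372) (nat_lit 29) (.e (nat_lit 450571) (nat_lit 1) .nil)))) .nil)) 
(.lf (nat_lit 186957) (.g (nat_lit 475) (.e (nat_lit 57891) (nat_lit 270) (.e (nat_lit 1661) (nat_lit 115) (.e (nat_lit 393238) (nat_lit 17) .nil))) .nil))) (.nd (nat_lit 6) 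
(.lf (nat_lit 186925) (.g (nat_lit 2044) (.e (nat_lit 57891) (nat_lit 270) (.e (nat_lit 1235) (nat_lit 91) (.e (nat_lit 90170) (nat_lit 13) (.e (nat_lit 172097) (nat_lit 9) (.e (nat_lit 426125) (nat_lit 2) .nil))))) .nil)) 
(.lf (nat_lit 186989) (.g (nat_lit 1673) (.e (nat_lit 57893) (nat_lit 271) (.e (nat_lit 8226) (nat_lit 15) (.e (nat_lit 532534) (nat_lit 9) (.e (nat_lit 336211) (nat_lit 13) (.e (nat_lit 393220) (nat_lit 0) .nil))))) .nil)))) (.nd (nat_lit 5) (.nd (nat_lit 6) 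
(.lf (nat_lit 186909) (.g (nat_lit 2930) (.e (nat_lit 57890) (nat_lit 270) (.e (nat_lit 1661) (nat_lit 115) (.e (nat_lit 393260) (nat_lit 21) (.e (nat_lit 409617) (nat_lit 10) (.e (nat_lit 7936) (nat_lit 313) (.e (nat_lit 8540) (nat_lit 226) .nil)))))) (.g (nat_lit 4) .nil .nil))) 
(.lf (nat_lit 186973) (.g (nat_lit 3013) (.e (nat_lit 57891) (nat_lit 270) (.e (nat_lit 1661) (nat_lit 115) (.e (nat_lit 393260) (nat_lit 21) (.e (nat_lit 409651) (nat_lit 19) .nil)))) .nil))) (.nd (nat_lit 6) 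
(.lf (nat_lit 186941) (.g (nat_lit 1235) (.e (nat_lit 57891) (nat_lit 270) (.e (nat_lit 1428) (nat_lit 108) (.e (nat_lit 336369) (nat_lit 27) (.e (nat_lit 426173) (nat_lit 7) (.e (nat_lit 409648) (nat_lit 18) .nil))))) .nil)) 
(.lf (nat_lit 187005) (.g (nat_lit 1314) (.e (nat_lit 57894) (nat_lit 272) (.e (nat_lit 16483) (nat_lit 27) (.e (nat_lit 336087) (nat_lit 9) (.e (nat_lit 336019) (nat_lit 3) (.e (nat_lit 98309) (nat_lit 0) .nil))))) .nil))))))) (.nd (nat_lit 2) (.nd (nat_lit 3) (.nd (nat_lit 4) (.nd (nat_lit 5) (.nd (nat_lit 6) 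
(.lf (nat_lit 186883) (.g (nat_lit 1457) (.e (nat_lit 57888) (nat_lit 270) (.e (nat_lit 1225) (nat_lit 91) (.e (nat_lit 90176) (nat_lit 15) (.e (nat_lit 188450) (nat_lit 23) (.e (nat_lit 204821) (nat_lit 17) .nil))))) .nil)) 
(.lf (nat_lit 186947) (.g (nat_lit 1673) (.e (nat_lit 57891) (nat_lit 270) (.e (nat_lit 1638) (nat_lit 114) (.e (nat_lit 385109) (nat_lit 51) (.e (nat_lit 794684) (nat_lit 25) .nil)))) .nil))) (.nd (nat_lit 6) 
(.lf (nat_lit 186915) (.g (nat_lit 1235) (.e (nat_lit 57890) (nat_lit 270) (.e (nat_lit 1661) (nat_lit 115) (.e (nat_lit 393260) (nat_lit 21) (.e (nat_lit 409648) (nat_lit 18) .nil)))) .nil)) 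
(.lf (nat_lit 186979) (.g (nat_lit 3578) (.e (nat_lit 57891) (nat_lit 270) (.e (nat_lit 1661) (nat_lit 115) (.e (nat_lit 393291) (nat_lit 26) (.e (nat_lit 475219) (nat_lit 44) (.e (nat_lit 737286) (nat_lit 0) (.e (nat_lit 5003) (nat_lit 288) .nil)))))) (.g (nat_lit 4) .nil .nil))))) (.nd (nat_lit 5) (.nd (nat_lit 6) 
(.lf (nat_lit 186899) (.g (nat_lit 530) (.e (nat_lit 57890) (nat_lit 270) (.e (nat_lit 1638) (nat_lit 114) (.e (nat_lit 385102) (nat_lit 50) .nil))) .nil)) 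
(.lf (nat_lit 186963) (.g (nat_lit 1681) (.e (nat_lit 57891) (nat_lit 270) (.e (nat_lit 1661) (nat_lit 115) (.e (nat_lit 393260) (nat_lit 21) (.e (nat_lit 409623) (nat_lit 10) .nil)))) .nil))) (.nd (nat_lit 6) 
(.lf (nat_lit 186931) (.g (nat_lit 2143) (.e (nat_lit 57891) (nat_lit 270) (.e (nat_lit 1253) (nat_lit 92) (.e (nat_lit 98370) (nat_lit 28) (.e (nat_lit 442427) (nat_lit 23) (.e (nat_lit 204821) (nat_lit 17) .nil))))) .nil)) 
(.lf (nat_lit 186995) (.g (nat_lit 2165) (.e (nat_lit 57894) (nat_lit 272) (.e (nat_lit 16425) (nat_lit 7) (.e (nat_lit 409649) (nat_lit 18) (.e (nat_lit 303151) (nat_lit 27) .nil)))) .nil))))) (.nd (nat_lit 4) (.nd (nat_lit 5) (.nd (nat_lit 6) 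
(.lf (nat_lit 186891) (.g (nat_lit 2279) (.e (nat_lit 57890) (nat_lit 270) (.e (nat_lit 1253) (nat_lit 92) (.e (nat_lit 98370) (nat_lit 28) (.e (nat_lit 442427) (nat_lit 23) (.e (nat_lit 204821) (nat_lit 17) .nil))))) .nil)) 
(.lf (nat_lit 186955) (.g (nat_lit 2134) (.e (nat_lit 57891) (nat_lit 270) (.e (nat_lit 1660) (nat_lit 115) (.e (nat_lit 393260) (nat_lit 21) (.e (nat_lit 409646) (nat_lit 18) (.e (nat_lit 303149) (nat_lit 15) .nil))))) .nil))) (.nd (nat_lit 6) 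
(.lf (nat_lit 186923) (.g (nat_lit 2059) (.e (nat_lit 57891) (nat_lit 270) (.e (nat_lit 1234) (nat_lit 91) (.e (nat_lit 90176) (nat_lit 15) (.e (nat_lit 188450) (nat_lit 23) (.e (nat_lit 204819) (nat_lit 17) .nil))))) .nil)) 
(.lf (nat_lit 186987) (.g (nat_lit 1978) (.e (nat_lit 65280) (nat_lit 270) (.e (nat_lit 1661) (nat_lit 115) (.e (nat_lit 393260) (nat_lit 21) (.e (nat_lit 409648) (nat_lit 18) .nil)))) .nil)))) (.nd (nat_lit 5) (.nd (nat_lit 6) 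
(.lf (nat_lit 186907) (.g (nat_lit 419) (.e (nat_lit 57890) (nat_lit 270) (.e (nat_lit 1661) (nat_lit 115) (.e (nat_lit 393260) (nat_lit 21) .nil))) .nil)) 
(.lf (nat_lit 186971) (.g (nat_lit 3675) (.e (nat_lit 57891) (nat_lit 270) (.e (nat_lit 1661) (nat_lit 115) (.e (nat_lit 393260) (nat_lit 21) (.e (nat_lit 409649) (nat_lit 18) (.e (nat_lit 303149) (nat_lit 15) (.e (nat_lit 6216) (nat_lit 333) .nil)))))) (.g (nat_lit 0) .nil .nil)))) (.nd (nat_lit 6) 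
(.lf (nat_lit 186939) (.g (nat_lit 431) (.e (nat_lit 57891) (nat_lit 270) (.e (nat_lit 1428) (nat_lit 108) (.e (nat_lit 336369) (nat_lit 27) .nil))) .nil)) 
(.lf (nat_lit 187003) (.g (nat_lit 2821) (.e (nat_lit 57894) (nat_lit 272) (.e (nat_lit 16473) (nat_lit 14) (.e (nat_lit 491560) (nat_lit 10) (.e (nat_lit 352000) (nat_lit 46) .nil)))) .nil)))))) (.nd (nat_lit 3) (.nd (nat_lit 4) (.nd (nat_lit 5) (.nd (nat_lit 6) 
(.lf (nat_lit 186887) (.g (nat_lit 1563) (.e (nat_lit 57890) (nat_lit 270) (.e (nat_lit 1235) (nat_lit 91) (.e (nat_lit 90170) (nat_lit 13) (.e (nat_lit 172115) (nat_lit 10) .nil)))) .nil)) 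
(.lf (nat_lit 186951) (.g (nat_lit 1979) (.e (nat_lit 57891) (nat_lit 270) (.e (nat_lit 1659) (nat_lit 115) (.e (nat_lit 393301) (nat_lit 27) (.e (nat_lit 491552) (nat_lit 9) .nil)))) .nil))) (.nd (nat_lit 6) 
(.lf (nat_lit 186919) (.g (nat_lit 3036) (.e (nat_lit 57890) (nat_lit 270) (.e (nat_lit 1661) (nat_lit 115) (.e (nat_lit 393260) (nat_lit 21) (.e (nat_lit 409650) (nat_lit 19) .nil)))) .nil)) 
(.lf (nat_lit 186983) (.g (nat_lit 2555) (.e (nat_lit 65280) (nat_lit 270) (.e (nat_lit 1661) (nat_lit 115) (.e (nat_lit 393260) (nat_lit 21) (.e (nat_lit 409644) (nat_lit 18) .nil)))) .nil)))) (.nd (nat_lit 5) (.nd (nat_lit 6) 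
(.lf (nat_lit 186903) (.g (nat_lit 2798) (.e (nat_lit 57890) (nat_lit 270) (.e (nat_lit 1659) (nat_lit 115) (.e (nat_lit 393301) (nat_lit 27) (.e (nat_lit 491563) (nat_lit 12) (.e (nat_lit 392960) (nat_lit 17) .nil))))) (.g (nat_lit 4) .nil .nil))) 
(.lf (nat_lit 186967) (.g (nat_lit 2924) (.e (nat_lit 57891) (nat_lit 270) (.e (nat_lit 1661) (nat_lit 115) (.e (nat_lit 393260) (nat_lit 21) (.e (nat_lit 409647) (nat_lit 18) (.e (nat_lit 303149) (nat_lit 15) .nil))))) .nil))) (.nd (nat_lit 6) 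
(.lf (nat_lit 186935) (.g (nat_lit 1163) (.e (nat_lit 57891) (nat_lit 270) (.e (nat_lit 1253) (nat_lit 92) (.e (nat_lit 98381) (nat_lit 31) (.e (nat_lit 466974) (nat_lit 22) (.e (nat_lit 196677) (nat_lit 16) .nil))))) .nil)) 
(.lf (nat_lit 186999) (.g (nat_lit 2628) (.e (nat_lit 57894) (nat_lit 272) (.e (nat_lit 16470) (nat_lit 14) (.e (nat_lit 491571) (nat_lit 13) (.e (nat_lit 393235) (nat_lit 17) .nil)))) .nil))))) (.nd (nat_lit 4) (.nd (nat_lit 5) (.nd (nat_lit 6) 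
(.lf (nat_lit 186895) (.g (nat_lit 1682) (.e (nat_lit 57890) (nat_lit 270) (.e (nat_lit 1253) (nat_lit 92) (.e (nat_lit 98373) (nat_lit 29) (.e (nat_lit 458496) (nat_lit 1) .nil)))) .nil)) 
(.lf (nat_lit 186959) (.g (nat_lit 770) (.e (nat_lit 57891) (nat_lit 270) (.e (nat_lit 1661) (nat_lit 115) (.e (nat_lit 393242) (nat_lit 17) (.e (nat_lit 7936) (nat_lit 406) .nil)))) .nil))) (.nd (nat_lit 6) 
(.lf (nat_lit 186927) (.g (nat_lit 1049) (.e (nat_lit 57891) (nat_lit 270) (.e (nat_lit 1235) (nat_lit 91) (.e (nat_lit 90185) (nat_lit 17) (.e (nat_lit 237605) (nat_lit 9) .nil)))) .nil)) 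
(.lf (nat_lit 186991) (.g (nat_lit 1063) (.e (nat_lit 57893) (nat_lit 271) (.e (nat_lit 8226) (nat_lit 15) (.e (nat_lit 532560) (nat_lit 14) (.e (nat_lit 376840) (nat_lit 11) .nil)))) .nil)))) (.nd (nat_lit 5) (.nd (nat_lit 6) 
(.lf (nat_lit 186911) (.g (nat_lit 2381) (.e (nat_lit 57890) (nat_lit 270) (.e (nat_lit 1661) (nat_lit 115) (.e (nat_lit 393260) (nat_lit 21) (.e (nat_lit 409644) (nat_lit 18) .nil)))) .nil)) 
(.lf (nat_lit 186975) (.g (nat_lit 1826) (.e (nat_lit 57891) (nat_lit 270) (.e (nat_lit 1661) (nat_lit 115) (.e (nat_lit 393268) (nat_lit 23) (.e (nat_lit 426444) (nat_lit 19) .nil)))) .nil))) (.nd (nat_lit 6) 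
(.lf (nat_lit 186943) (.g (nat_lit 526) (.e (nat_lit 57891) (nat_lit 270) (.e (nat_lit 1638) (nat_lit 114) (.e (nat_lit 385107) (nat_lit 51) .nil))) .nil)) 
(.lf (nat_lit 187007) (.g (nat_lit 1813) (.e (nat_lit 57895) (nat_lit 272) (.e (nat_lit 16431) (nat_lit 9) (.e (nat_lit 426140) (nat_lit 3) (.e (nat_lit 212736) (nat_lit 15) .nil)))) .nil)))))))))

noncomputable def tv2483 : DT := (.nd (nat_lit 0) (.nd (nat_lit 1) (.nd (nat_lit 2) (.nd (nat_lit 3) (.nd (nat_lit 4) (.nd (nat_lit 5) 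
(.lf (nat_lit 187008) (.g (nat_lit 1383) (.e (nat_lit 57895) (nat_lit 272) (.e (nat_lit 16436) (nat_lit 9) (.e (nat_lit 426131) (nat_lit 3) (.e (nat_lit 212736) (nat_lit 15) .nil)))) .nil)) 
(.lf (nat_lit 187040) (.g (nat_lit 2361) (.e (nat_lit 57895) (nat_lit 272) (.e (nat_lit 16487) (nat_lit 27) (.e (nat_lit 336087) (nat_lit 9) (.e (nat_lit 336019) (nat_lit 3) (.e (nat_lit 98309) (nat_lit 0) (.e (nat_lit 6209) (nat_lit 333) .nil)))))) (.g (nat_lit 0) .nil .nil)))) (.nd (nat_lit 5) 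
(.lf (nat_lit 187024) (.g (nat_lit 210) (.e (nat_lit 57895) (nat_lit 272) (.e (nat_lit 16485) (nat_lit 27) (.e (nat_lit 336150) (nat_lit 9) (.e (nat_lit 336319) (nat_lit 17) .nil)))) .nil)) 
(.lf (nat_lit 187056) (.g (nat_lit 1597) (.e (nat_lit 57895) (nat_lit 272) (.e (nat_lit 16487) (nat_lit 27) (.e (nat_lit 336201) (nat_lit 12) (.e (nat_lit 385057) (nat_lit 22) (.e (nat_lit 499780) (nat_lit 1) (.e (nat_lit 57813) (nat_lit 246) .nil)))))) (.g (nat_lit 5) .nil .nil))))) (.nd (nat_lit 4) (.nd (nat_lit 5) 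
(.lf (nat_lit 187016) (.g (nat_lit 992) (.e (nat_lit 57895) (nat_lit 272) (.e (nat_lit 16461) (nat_lit 12) (.e (nat_lit 475209) (nat_lit 41) (.e (nat_lit 712749) (nat_lit 28) (.e (nat_lit 434256) (nat_lit 31) .nil))))) .nil)) 
(.lf (nat_lit 187048) (.g (nat_lit 1744) (.e (nat_lit 57895) (nat_lit 272) (.e (nat_lit 16487) (nat_lit 27) (.e (nat_lit 336188) (nat_lit 11) (.e (nat_lit 368676) (nat_lit 21) (.e (nat_lit 516191) (nat_lit 17) .nil))))) .nil))) (.nd (nat_lit 5) 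
(.lf (nat_lit 187032) (.g (nat_lit 2331) (.e (nat_lit 57895) (nat_lit 272) (.e (nat_lit 16487) (nat_lit 27) (.e (nat_lit 336076) (nat_lit 9) (.e (nat_lit 336320) (nat_lit 17) (.e (nat_lit 196698) (nat_lit 19) (.e (nat_lit 57810) (nat_lit 246) .nil)))))) (.g (nat_lit 0) .nil .nil))) 
(.lf (nat_lit 187064) (.g (nat_lit 2965) (.e (nat_lit 57896) (nat_lit 273) (.e (nat_lit 57464) (nat_lit 23) (.e (nat_lit 516151) (nat_lit 9) (.e (nat_lit 426170) (nat_lit 7) (.e (nat_lit 409631) (nat_lit 12) (.e (nat_lit 40704) (nat_lit 1) (.e (nat_lit 57813) (nat_lit 246) .nil))))))) (.g (nat_lit 5) .nil .nil)))))) (.nd (nat_lit 3) (.nd (nat_lit 4) (.nd (nat_lit 5) 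
(.lf (nat_lit 187012) (.g (nat_lit 2152) (.e (nat_lit 57895) (nat_lit 272) (.e (nat_lit 16446) (nat_lit 9) (.e (nat_lit 426133) (nat_lit 3) (.e (nat_lit 204811) (nat_lit 9) .nil)))) .nil)) 
(.lf (nat_lit 187044) (.g (nat_lit 2303) (.e (nat_lit 57895) (nat_lit 272) (.e (nat_lit 16487) (nat_lit 27) (.e (nat_lit 336088) (nat_lit 9) (.e (nat_lit 336320) (nat_lit 17) (.e (nat_lit 196698) (nat_lit 19) (.e (nat_lit 57810) (nat_lit 246) .nil)))))) (.g (nat_lit 0) .nil .nil)))) (.nd (nat_lit 5) 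
(.lf (nat_lit 187028) (.g (nat_lit 431) (.e (nat_lit 57895) (nat_lit 272) (.e (nat_lit 16487) (nat_lit 27) (.e (nat_lit 336069) (nat_lit 8) .nil))) .nil)) 
(.lf (nat_lit 187060) (.g (nat_lit 1567) (.e (nat_lit 57895) (nat_lit 272) (.e (nat_lit 16487) (nat_lit 27) (.e (nat_lit 336204) (nat_lit 12) (.e (nat_lit 385057) (nat_lit 22) (.e (nat_lit 499780) (nat_lit 1) .nil))))) .nil)))) (.nd (nat_lit 4) (.nd (nat_lit 5) 
(.lf (nat_lit 187020) (.g (nat_lit 1307) (.e (nat_lit 57895) (nat_lit 272) (.e (nat_lit 16483) (nat_lit 27) (.e (nat_lit 336087) (nat_lit 9) (.e (nat_lit 336019) (nat_lit 3) (.e (nat_lit 98309) (nat_lit 0) .nil))))) .nil)) 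
(.lf (nat_lit 187052) (.g (nat_lit 1195) (.e (nat_lit 57895) (nat_lit 272) (.e (nat_lit 16487) (nat_lit 27) (.e (nat_lit 336195) (nat_lit 12) (.e (nat_lit 385057) (nat_lit 22) (.e (nat_lit 499780) (nat_lit 1) .nil))))) .nil))) (.nd (nat_lit 5) 
(.lf (nat_lit 187036) (.g (nat_lit 1632) (.e (nat_lit 57895) (nat_lit 272) (.e (nat_lit 16487) (nat_lit 27) (.e (nat_lit 336084) (nat_lit 9) (.e (nat_lit 336320) (nat_lit 17) (.e (nat_lit 196698) (nat_lit 19) (.e (nat_lit 57811) (nat_lit 246) .nil)))))) (.g (nat_lit 4) .nil .nil))) 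
(.lf (nat_lit 187068) (.g (nat_lit 1871) (.e (nat_lit 57896) (nat_lit 273) (.e (nat_lit 57464) (nat_lit 23) (.e (nat_lit 516151) (nat_lit 9) (.e (nat_lit 426185) (nat_lit 9) .nil)))) .nil)))))) (.nd (nat_lit 2) (.nd (nat_lit 3) (.nd (nat_lit 4) (.nd (nat_lit 5) 
(.lf (nat_lit 187010) (.g (nat_lit 460) (.e (nat_lit 57895) (nat_lit 272) (.e (nat_lit 16446) (nat_lit 9) (.e (nat_lit 426116) (nat_lit 2) .nil))) .nil)) 
(.lf (nat_lit 187042) (.g (nat_lit 2262) (.e (nat_lit 57895) (nat_lit 272) (.e (nat_lit 16487) (nat_lit 27) (.e (nat_lit 336088) (nat_lit 9) (.e (nat_lit 336320) (nat_lit 17) (.e (nat_lit 196698) (nat_lit 19) (.e (nat_lit 57808) (nat_lit 246) .nil)))))) (.g (nat_lit 0) .nil .nil)))) (.nd (nat_lit 5) 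
(.lf (nat_lit 187026) (.g (nat_lit 952) (.e (nat_lit 57895) (nat_lit 272) (.e (nat_lit 16485) (nat_lit 27) (.e (nat_lit 336152) (nat_lit 9) (.e (nat_lit 336319) (nat_lit 17) (.e (nat_lit 196698) (nat_lit 19) (.e (nat_lit 57808) (nat_lit 246) .nil)))))) (.g (nat_lit 0) .nil .nil))) 
(.lf (nat_lit 187058) (.g (nat_lit 1516) (.e (nat_lit 57895) (nat_lit 272) (.e (nat_lit 16487) (nat_lit 27) (.e (nat_lit 336202) (nat_lit 12) (.e (nat_lit 385057) (nat_lit 22) (.e (nat_lit 499780) (nat_lit 1) .nil))))) .nil)))) (.nd (nat_lit 4) (.nd (nat_lit 5) 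
(.lf (nat_lit 187018) (.g (nat_lit 3100) (.e (nat_lit 57895) (nat_lit 272) (.e (nat_lit 16470) (nat_lit 14) (.e (nat_lit 491571) (nat_lit 13) (.e (nat_lit 401152) (nat_lit 1) .nil)))) .nil)) 
(.lf (nat_lit 187050) (.g (nat_lit 1522) (.e (nat_lit 57895) (nat_lit 272) (.e (nat_lit 16487) (nat_lit 27) (.e (nat_lit 336194) (nat_lit 12) (.e (nat_lit 385057) (nat_lit 22) (.e (nat_lit 499780) (nat_lit 1) .nil))))) .nil))) (.nd (nat_lit 5) 
(.lf (nat_lit 187034) (.g (nat_lit 2000) (.e (nat_lit 57895) (nat_lit 272) (.e (nat_lit 16487) (nat_lit 27) (.e (nat_lit 336078) (nat_lit 9) (.e (nat_lit 336320) (nat_lit 17) (.e (nat_lit 196698) (nat_lit 19) (.e (nat_lit 57808) (nat_lit 246) .nil)))))) (.g (nat_lit 0) .nil .nil))) 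
(.lf (nat_lit 187066) (.g (nat_lit 2532) (.e (nat_lit 57896) (nat_lit 273) (.e (nat_lit 57464) (nat_lit 23) (.e (nat_lit 516151) (nat_lit 9) (.e (nat_lit 426171) (nat_lit 7) (.e (nat_lit 409631) (nat_lit 12) .nil))))) .nil))))) (.nd (nat_lit 3) (.nd (nat_lit 4) (.nd (nat_lit 5) 
(.lf (nat_lit 187014) (.g (nat_lit 3890) (.e (nat_lit 57895) (nat_lit 272) (.e (nat_lit 16461) (nat_lit 12) (.e (nat_lit 475177) (nat_lit 24) (.e (nat_lit 516115) (nat_lit 1) (.e (nat_lit 164399) (nat_lit 256) (.e (nat_lit 57386) (nat_lit 4) (.e (nat_lit 114432) (nat_lit 15) .nil))))))) (.g (nat_lit 6) .nil .nil))) 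
(.lf (nat_lit 187046) (.g (nat_lit 2253) (.e (nat_lit 57895) (nat_lit 272) (.e (nat_lit 16487) (nat_lit 27) (.e (nat_lit 336184) (nat_lit 11) (.e (nat_lit 368676) (nat_lit 21) (.e (nat_lit 516191) (nat_lit 17) (.e (nat_lit 6209) (nat_lit 333) .nil)))))) (.g (nat_lit 0) .nil .nil)))) (.nd (nat_lit 5) 
(.lf (nat_lit 187030) (.g (nat_lit 2290) (.e (nat_lit 57895) (nat_lit 272) (.e (nat_lit 16487) (nat_lit 27) (.e (nat_lit 336076) (nat_lit 9) (.e (nat_lit 336320) (nat_lit 17) (.e (nat_lit 196698) (nat_lit 19) (.e (nat_lit 57808) (nat_lit 246) .nil)))))) (.g (nat_lit 0) .nil .nil))) 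
(.lf (nat_lit 187062) (.g (nat_lit 562) (.e (nat_lit 65280) (nat_lit 272) (.e (nat_lit 16487) (nat_lit 27) (.e (nat_lit 336088) (nat_lit 9) (.e (nat_lit 336019) (nat_lit 3) .nil)))) .nil)))) (.nd (nat_lit 4) (.nd (nat_lit 5) 
(.lf (nat_lit 187022) (.g (nat_lit 1336) (.e (nat_lit 57895) (nat_lit 272) (.e (nat_lit 16483) (nat_lit 27) (.e (nat_lit 336194) (nat_lit 12) (.e (nat_lit 385057) (nat_lit 22) .nil)))) .nil)) 
(.lf (nat_lit 187054) (.g (nat_lit 811) (.e (nat_lit 57895) (nat_lit 272) (.e (nat_lit 16487) (nat_lit 27) (.e (nat_lit 336196) (nat_lit 12) (.e (nat_lit 385062) (nat_lit 23) .nil)))) .nil))) (.nd (nat_lit 5) 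
(.lf (nat_lit 187038) (.g (nat_lit 2279) (.e (nat_lit 57895) (nat_lit 272) (.e (nat_lit 16487) (nat_lit 27) (.e (nat_lit 336086) (nat_lit 9) (.e (nat_lit 336320) (nat_lit 17) (.e (nat_lit 196698) (nat_lit 19) (.e (nat_lit 57810) (nat_lit 246) .nil)))))) (.g (nat_lit 0) .nil .nil))) 
(.lf (nat_lit 187070) (.g (nat_lit 2250) (.e (nat_lit 57896) (nat_lit 273) (.e (nat_lit 57464) (nat_lit 23) (.e (nat_lit 516151) (nat_lit 9) (.e (nat_lit 426208) (nat_lit 9) .nil)))) .nil))))))) (.nd (nat_lit 1) (.nd (nat_lit 2) (.nd (nat_lit 3) (.nd (nat_lit 4) (.nd (nat_lit 5) 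
(.lf (nat_lit 187009) (.g (nat_lit 1158) (.e (nat_lit 57895) (nat_lit 272) (.e (nat_lit 16440) (nat_lit 9) (.e (nat_lit 426140) (nat_lit 3) (.e (nat_lit 212736) (nat_lit 15) .nil)))) .nil)) 
(.lf (nat_lit 187041) (.g (nat_lit 2872) (.e (nat_lit 57895) (nat_lit 272) (.e (nat_lit 16487) (nat_lit 27) (.e (nat_lit 336088) (nat_lit 9) (.e (nat_lit 336019) (nat_lit 3) (.e (nat_lit 98309) (nat_lit 0) (.e (nat_lit 6207) (nat_lit 333) .nil)))))) (.g (nat_lit 0) .nil .nil)))) (.nd (nat_lit 5) 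
(.lf (nat_lit 187025) (.g (nat_lit 1568) (.e (nat_lit 57895) (nat_lit 272) (.e (nat_lit 16485) (nat_lit 27) (.e (nat_lit 336152) (nat_lit 9) (.e (nat_lit 336017) (nat_lit 3) (.e (nat_lit 98309) (nat_lit 0) (.e (nat_lit 6209) (nat_lit 333) .nil)))))) (.g (nat_lit 0) .nil .nil))) 
(.lf (nat_lit 187057) (.g (nat_lit 1603) (.e (nat_lit 57895) (nat_lit 272) (.e (nat_lit 16487) (nat_lit 27) (.e (nat_lit 336201) (nat_lit 12) (.e (nat_lit 385057) (nat_lit 22) (.e (nat_lit 499780) (nat_lit 1) (.e (nat_lit 57816) (nat_lit 246) .nil)))))) (.g (nat_lit 5) .nil .nil))))) (.nd (nat_lit 4) (.nd (nat_lit 5) 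
(.lf (nat_lit 187017) (.g (nat_lit 1085) (.e (nat_lit 57895) (nat_lit 272) (.e (nat_lit 16470) (nat_lit 14) (.e (nat_lit 491571) (nat_lit 13) .nil))) .nil)) 
(.lf (nat_lit 187049) (.g (nat_lit 1502) (.e (nat_lit 57895) (nat_lit 272) (.e (nat_lit 16487) (nat_lit 27) (.e (nat_lit 336193) (nat_lit 12) (.e (nat_lit 385057) (nat_lit 22) .nil)))) .nil))) (.nd (nat_lit 5) 
(.lf (nat_lit 187033) (.g (nat_lit 294) (.e (nat_lit 57895) (nat_lit 272) (.e (nat_lit 16487) (nat_lit 27) (.e (nat_lit 336078) (nat_lit 9) .nil))) .nil)) 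
(.lf (nat_lit 187065) (.g (nat_lit 2558) (.e (nat_lit 57896) (nat_lit 273) (.e (nat_lit 57464) (nat_lit 23) (.e (nat_lit 516151) (nat_lit 9) (.e (nat_lit 426170) (nat_lit 7) (.e (nat_lit 409631) (nat_lit 12) (.e (nat_lit 40704) (nat_lit 1) (.e (nat_lit 57814) (nat_lit 246) .nil))))))) (.g (nat_lit 4) .nil .nil)))))) (.nd (nat_lit 3) (.nd (nat_lit 4) (.nd (nat_lit 5) 
(.lf (nat_lit 187013) (.g (nat_lit 3258) (.e (nat_lit 57895) (nat_lit 272) (.e (nat_lit 16456) (nat_lit 12) (.e (nat_lit 475177) (nat_lit 24) (.e (nat_lit 516115) (nat_lit 1) (.e (nat_lit 164399) (nat_lit 256) .nil))))) .nil)) 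
(.lf (nat_lit 187045) (.g (nat_lit 606) (.e (nat_lit 57895) (nat_lit 272) (.e (nat_lit 16487) (nat_lit 27) (.e (nat_lit 336107) (nat_lit 9) .nil))) .nil))) (.nd (nat_lit 5) 
(.lf (nat_lit 187029) (.g (nat_lit 1633) (.e (nat_lit 57895) (nat_lit 272) (.e (nat_lit 16487) (nat_lit 27) (.e (nat_lit 336074) (nat_lit 9) (.e (nat_lit 336320) (nat_lit 17) (.e (nat_lit 196698) (nat_lit 19) (.e (nat_lit 57811) (nat_lit 246) .nil)))))) (.g (nat_lit 4) .nil .nil))) 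
(.lf (nat_lit 187061) (.g (nat_lit 1203) (.e (nat_lit 65280) (nat_lit 272) (.e (nat_lit 16483) (nat_lit 27) (.e (nat_lit 336087) (nat_lit 9) (.e (nat_lit 336019) (nat_lit 3) (.e (nat_lit 98309) (nat_lit 0) .nil))))) .nil)))) (.nd (nat_lit 4) (.nd (nat_lit 5) 
(.lf (nat_lit 187021) (.g (nat_lit 973) (.e (nat_lit 57895) (nat_lit 272) (.e (nat_lit 16483) (nat_lit 27) (.e (nat_lit 336088) (nat_lit 9) (.e (nat_lit 336320) (nat_lit 17) .nil)))) .nil)) 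
(.lf (nat_lit 187053) (.g (nat_lit 1393) (.e (nat_lit 57895) (nat_lit 272) (.e (nat_lit 16487) (nat_lit 27) (.e (nat_lit 336196) (nat_lit 12) (.e (nat_lit 385057) (nat_lit 22) (.e (nat_lit 499780) (nat_lit 1) .nil))))) .nil))) (.nd (nat_lit 5) 
(.lf (nat_lit 187037) (.g (nat_lit 516) (.e (nat_lit 57895) (nat_lit 272) (.e (nat_lit 16487) (nat_lit 27) (.e (nat_lit 336085) (nat_lit 9) .nil))) .nil)) 
(.lf (nat_lit 187069) (.g (nat_lit 2250) (.e (nat_lit 57896) (nat_lit 273) (.e (nat_lit 57464) (nat_lit 23) (.e (nat_lit 516151) (nat_lit 9) (.e (nat_lit 426207) (nat_lit 9) .nil)))) .nil)))))) (.nd (nat_lit 2) (.nd (nat_lit 3) (.nd (nat_lit 4) (.nd (nat_lit 5) 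
(.lf (nat_lit 187011) (.g (nat_lit 2189) (.e (nat_lit 57895) (nat_lit 272) (.e (nat_lit 16446) (nat_lit 9) (.e (nat_lit 426116) (nat_lit 2) (.e (nat_lit 196656) (nat_lit 11) (.e (nat_lit 16392) (nat_lit 0) .nil))))) .nil)) 
(.lf (nat_lit 187043) (.g (nat_lit 2268) (.e (nat_lit 57895) (nat_lit 272) (.e (nat_lit 16487) (nat_lit 27) (.e (nat_lit 336088) (nat_lit 9) (.e (nat_lit 336320) (nat_lit 17) (.e (nat_lit 196698) (nat_lit 19) (.e (nat_lit 57809) (nat_lit 246) .nil)))))) (.g (nat_lit 0) .nil .nil)))) (.nd (nat_lit 5) 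
(.lf (nat_lit 187027) (.g (nat_lit 997) (.e (nat_lit 57895) (nat_lit 272) (.e (nat_lit 16485) (nat_lit 27) (.e (nat_lit 336152) (nat_lit 9) (.e (nat_lit 336319) (nat_lit 17) (.e (nat_lit 196698) (nat_lit 19) (.e (nat_lit 57810) (nat_lit 246) .nil)))))) (.g (nat_lit 0) .nil .nil))) 
(.lf (nat_lit 187059) (.g (nat_lit 1539) (.e (nat_lit 57895) (nat_lit 272) (.e (nat_lit 16487) (nat_lit 27) (.e (nat_lit 336203) (nat_lit 12) (.e (nat_lit 385057) (nat_lit 22) (.e (nat_lit 499780) (nat_lit 1) .nil))))) .nil)))) (.nd (nat_lit 4) (.nd (nat_lit 5) 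
(.lf (nat_lit 187019) (.g (nat_lit 1174) (.e (nat_lit 57895) (nat_lit 272) (.e (nat_lit 16473) (nat_lit 14) (.e (nat_lit 491560) (nat_lit 10) .nil))) .nil)) 
(.lf (nat_lit 187051) (.g (nat_lit 606) (.e (nat_lit 57895) (nat_lit 272) (.e (nat_lit 16487) (nat_lit 27) (.e (nat_lit 336195) (nat_lit 12) .nil))) .nil))) (.nd (nat_lit 5) 
(.lf (nat_lit 187035) (.g (nat_lit 2045) (.e (nat_lit 57895) (nat_lit 272) (.e (nat_lit 16487) (nat_lit 27) (.e (nat_lit 336078) (nat_lit 9) (.e (nat_lit 336320) (nat_lit 17) (.e (nat_lit 196698) (nat_lit 19) (.e (nat_lit 57810) (nat_lit 246) .nil)))))) (.g (nat_lit 0) .nil .nil))) 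
(.lf (nat_lit 187067) (.g (nat_lit 2671) (.e (nat_lit 57896) (nat_lit 273) (.e (nat_lit 57464) (nat_lit 23) (.e (nat_lit 516151) (nat_lit 9) (.e (nat_lit 426171) (nat_lit 7) (.e (nat_lit 409631) (nat_lit 12) (.e (nat_lit 40704) (nat_lit 1) (.e (nat_lit 57813) (nat_lit 246) .nil))))))) (.g (nat_lit 4) .nil .nil)))))) (.nd (nat_lit 3) (.nd (nat_lit 4) (.nd (nat_lit 5) 
(.lf (nat_lit 187015) (.g (nat_lit 978) (.e (nat_lit 57895) (nat_lit 272) (.e (nat_lit 16461) (nat_lit 12) (.e (nat_lit 475207) (nat_lit 41) (.e (nat_lit 712749) (nat_lit 28) (.e (nat_lit 434256) (nat_lit 31) (.e (nat_lit 605952) (nat_lit 1) .nil)))))) (.g (nat_lit 4) .nil .nil))) 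
(.lf (nat_lit 187047) (.g (nat_lit 2404) (.e (nat_lit 57895) (nat_lit 272) (.e (nat_lit 16487) (nat_lit 27) (.e (nat_lit 336186) (nat_lit 11) (.e (nat_lit 368676) (nat_lit 21) (.e (nat_lit 516191) (nat_lit 17) (.e (nat_lit 6209) (nat_lit 333) .nil)))))) (.g (nat_lit 0) .nil .nil)))) (.nd (nat_lit 5) 
(.lf (nat_lit 187031) (.g (nat_lit 2297) (.e (nat_lit 57895) (nat_lit 272) (.e (nat_lit 16487) (nat_lit 27) (.e (nat_lit 336076) (nat_lit 9) (.e (nat_lit 336320) (nat_lit 17) (.e (nat_lit 196698) (nat_lit 19) (.e (nat_lit 57809) (nat_lit 246) .nil)))))) (.g (nat_lit 0) .nil .nil))) 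
(.lf (nat_lit 187063) (.g (nat_lit 1266) (.e (nat_lit 57896) (nat_lit 273) (.e (nat_lit 57464) (nat_lit 23) (.e (nat_lit 516145) (nat_lit 9) (.e (nat_lit 426270) (nat_lit 9) (.e (nat_lit 426124) (nat_lit 2) .nil))))) .nil)))) (.nd (nat_lit 4) (.nd (nat_lit 5) 
(.lf (nat_lit 187023) (.g (nat_lit 1875) (.e (nat_lit 57895) (nat_lit 272) (.e (nat_lit 16483) (nat_lit 27) (.e (nat_lit 336204) (nat_lit 12) (.e (nat_lit 385057) (nat_lit 22) (.e (nat_lit 499780) (nat_lit 1) .nil))))) .nil)) 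
(.lf (nat_lit 187055) (.g (nat_lit 764) (.e (nat_lit 57895) (nat_lit 272) (.e (nat_lit 16487) (nat_lit 27) (.e (nat_lit 336201) (nat_lit 12) (.e (nat_lit 385057) (nat_lit 22) .nil)))) .nil))) (.nd (nat_lit 5) 
(.lf (nat_lit 187039) (.g (nat_lit 2625) (.e (nat_lit 57895) (nat_lit 272) (.e (nat_lit 16487) (nat_lit 27) (.e (nat_lit 336087) (nat_lit 9) (.e (nat_lit 336019) (nat_lit 3) (.e (nat_lit 98309) (nat_lit 0) (.e (nat_lit 6207) (nat_lit 333) .nil)))))) (.g (nat_lit 0) .nil .nil))) 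
(.lf (nat_lit 187071) (.g (nat_lit 2249) (.e (nat_lit 57896) (nat_lit 273) (.e (nat_lit 57464) (nat_lit 23) (.e (nat_lit 516151) (nat_lit 9) (.e (nat_lit 426209) (nat_lit 9) .nil)))) .nil))))))))

noncomputable def tv2484 : DT := (.nd (nat_lit 0) (.nd (nat_lit 1) (.nd (nat_lit 2) (.nd (nat_lit 3) (.nd (nat_lit 4) (.nd (nat_lit 5) 
(.lf (nat_lit 187072) (.g (nat_lit 2241) (.e (nat_lit 57896) (nat_lit 273) (.e (nat_lit 57464) (nat_lit 23) (.e (nat_lit 516151) (nat_lit 9) (.e (nat_lit 426210) (nat_lit 9) .nil)))) .nil)) 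
(.lf (nat_lit 187104) (.g (nat_lit 1813) (.e (nat_lit 57896) (nat_lit 273) (.e (nat_lit 57464) (nat_lit 23) (.e (nat_lit 516163) (nat_lit 11) (.e (nat_lit 442427) (nat_lit 23) (.e (nat_lit 204816) (nat_lit 17) .nil))))) .nil))) (.nd (nat_lit 5) 
(.lf (nat_lit 187088) (.g (nat_lit 2563) (.e (nat_lit 57896) (nat_lit 273) (.e (nat_lit 57464) (nat_lit 23) (.e (nat_lit 516151) (nat_lit 9) (.e (nat_lit 426286) (nat_lit 10) (.e (nat_lit 434245) (nat_lit 28) (.e (nat_lit 573468) (nat_lit 10) (.e (nat_lit 16128) (nat_lit 181) .nil))))))) (.g (nat_lit 6) .nil .nil))) 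
(.lf (nat_lit 187120) (.g (nat_lit 1711) (.e (nat_lit 57896) (nat_lit 273) (.e (nat_lit 57464) (nat_lit 23) (.e (nat_lit 516165) (nat_lit 12) (.e (nat_lit 450586) (nat_lit 10) (.e (nat_lit 573452) (nat_lit 9) (.e (nat_lit 11) (nat_lit 0) (.e (nat_lit 7079) (nat_lit 378) .nil))))))) (.g (nat_lit 5) .nil .nil))))) (.nd (nat_lit 4) (.nd (nat_lit 5) 
(.lf (nat_lit 187080) (.g (nat_lit 2250) (.e (nat_lit 57896) (nat_lit 273) (.e (nat_lit 57464) (nat_lit 23) (.e (nat_lit 516151) (nat_lit 9) (.e (nat_lit 426219) (nat_lit 9) .nil)))) .nil)) 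
(.lf (nat_lit 187112) (.g (nat_lit 1732) (.e (nat_lit 57896) (nat_lit 273) (.e (nat_lit 57464) (nat_lit 23) (.e (nat_lit 516165) (nat_lit 12) (.e (nat_lit 450579) (nat_lit 5) (.e (nat_lit 532480) (nat_lit 0) (.e (nat_lit 6211) (nat_lit 333) .nil)))))) (.g (nat_lit 4) .nil .nil)))) (.nd (nat_lit 5) 
(.lf (nat_lit 187096) (.g (nat_lit 2774) (.e (nat_lit 57896) (nat_lit 273) (.e (nat_lit 57464) (nat_lit 23) (.e (nat_lit 516151) (nat_lit 9) (.e (nat_lit 426338) (nat_lit 14) (.e (nat_lit 491537) (nat_lit 2) (.e (nat_lit 90133) (nat_lit 9) (.e (nat_lit 2400) (nat_lit 157) (.e (nat_lit 7082) (nat_lit 378) .nil)))))))) (.g (nat_lit 4) .nil .nil))) 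
(.lf (nat_lit 187128) (.g (nat_lit 2436) (.e (nat_lit 57896) (nat_lit 273) (.e (nat_lit 57464) (nat_lit 23) (.e (nat_lit 516166) (nat_lit 12) (.e (nat_lit 450588) (nat_lit 10) (.e (nat_lit 573452) (nat_lit 9) (.e (nat_lit 11) (nat_lit 0) (.e (nat_lit 7077) (nat_lit 378) .nil))))))) (.g (nat_lit 6) .nil .nil)))))) (.nd (nat_lit 3) (.nd (nat_lit 4) (.nd (nat_lit 5) 
(.lf (nat_lit 187076) (.g (nat_lit 2720) (.e (nat_lit 57896) (nat_lit 273) (.e (nat_lit 57464) (nat_lit 23) (.e (nat_lit 516151) (nat_lit 9) (.e (nat_lit 426211) (nat_lit 9) (.e (nat_lit 426140) (nat_lit 3) .nil))))) .nil)) 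
(.lf (nat_lit 187108) (.g (nat_lit 2003) (.e (nat_lit 57896) (nat_lit 273) (.e (nat_lit 57464) (nat_lit 23) (.e (nat_lit 516163) (nat_lit 11) (.e (nat_lit 442427) (nat_lit 23) (.e (nat_lit 212736) (nat_lit 17) (.e (nat_lit 6209) (nat_lit 333) .nil)))))) (.g (nat_lit 4) .nil .nil)))) (.nd (nat_lit 5) 
(.lf (nat_lit 187092) (.g (nat_lit 2576) (.e (nat_lit 57896) (nat_lit 273) (.e (nat_lit 57464) (nat_lit 23) (.e (nat_lit 516151) (nat_lit 9) (.e (nat_lit 426290) (nat_lit 10) (.e (nat_lit 434231) (nat_lit 23) .nil))))) .nil)) 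
(.lf (nat_lit 187124) (.g (nat_lit 983) (.e (nat_lit 57896) (nat_lit 273) (.e (nat_lit 57464) (nat_lit 23) (.e (nat_lit 516166) (nat_lit 12) (.e (nat_lit 458496) (nat_lit 1) .nil)))) .nil)))) (.nd (nat_lit 4) (.nd (nat_lit 5) 
(.lf (nat_lit 187084) (.g (nat_lit 3384) (.e (nat_lit 57896) (nat_lit 273) (.e (nat_lit 57464) (nat_lit 23) (.e (nat_lit 516151) (nat_lit 9) (.e (nat_lit 426285) (nat_lit 10) (.e (nat_lit 434231) (nat_lit 23) .nil))))) .nil)) 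
(.lf (nat_lit 187116) (.g (nat_lit 1604) (.e (nat_lit 57896) (nat_lit 273) (.e (nat_lit 57464) (nat_lit 23) (.e (nat_lit 516165) (nat_lit 12) (.e (nat_lit 450579) (nat_lit 5) (.e (nat_lit 532488) (nat_lit 0) (.e (nat_lit 7936) (nat_lit 333) .nil)))))) (.g (nat_lit 5) .nil .nil)))) (.nd (nat_lit 5) 
(.lf (nat_lit 187100) (.g (nat_lit 2050) (.e (nat_lit 57896) (nat_lit 273) (.e (nat_lit 57464) (nat_lit 23) (.e (nat_lit 516163) (nat_lit 11) (.e (nat_lit 442424) (nat_lit 22) (.e (nat_lit 196683) (nat_lit 18) .nil))))) .nil)) 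
(.lf (nat_lit 187132) (.g (nat_lit 1048) (.e (nat_lit 57896) (nat_lit 273) (.e (nat_lit 57464) (nat_lit 23) (.e (nat_lit 516174) (nat_lit 14) (.e (nat_lit 466975) (nat_lit 22) (.e (nat_lit 196677) (nat_lit 16) .nil))))) .nil)))))) (.nd (nat_lit 2) (.nd (nat_lit 3) (.nd (nat_lit 4) (.nd (nat_lit 5) 
(.lf (nat_lit 187074) (.g (nat_lit 4794) (.e (nat_lit 57896) (nat_lit 273) (.e (nat_lit 57464) (nat_lit 23) (.e (nat_lit 516151) (nat_lit 9) (.e (nat_lit 426211) (nat_lit 9) (.e (nat_lit 426125) (nat_lit 2) (.e (nat_lit 196683) (nat_lit 18) (.e (nat_lit 2525) (nat_lit 157) (.e (nat_lit 5003) (nat_lit 288) .nil)))))))) (.g (nat_lit 5) .nil .nil))) 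
(.lf (nat_lit 187106) (.g (nat_lit 2268) (.e (nat_lit 57896) (nat_lit 273) (.e (nat_lit 57464) (nat_lit 23) (.e (nat_lit 516163) (nat_lit 11) (.e (nat_lit 442427) (nat_lit 23) (.e (nat_lit 204821) (nat_lit 17) (.e (nat_lit 6206) (nat_lit 333) .nil)))))) (.g (nat_lit 6) .nil .nil)))) (.nd (nat_lit 5) 
(.lf (nat_lit 187090) (.g (nat_lit 3402) (.e (nat_lit 57896) (nat_lit 273) (.e (nat_lit 57464) (nat_lit 23) (.e (nat_lit 516151) (nat_lit 9) (.e (nat_lit 426286) (nat_lit 10) (.e (nat_lit 434248) (nat_lit 28) (.e (nat_lit 573452) (nat_lit 9) (.e (nat_lit 13) (nat_lit 0) (.e (nat_lit 7077) (nat_lit 378) .nil)))))))) (.g (nat_lit 0) .nil .nil))) 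
(.lf (nat_lit 187122) (.g (nat_lit 2209) (.e (nat_lit 57896) (nat_lit 273) (.e (nat_lit 57464) (nat_lit 23) (.e (nat_lit 516165) (nat_lit 12) (.e (nat_lit 450586) (nat_lit 10) (.e (nat_lit 573452) (nat_lit 9) (.e (nat_lit 13) (nat_lit 0) (.e (nat_lit 7077) (nat_lit 378) .nil))))))) (.g (nat_lit 0) .nil .nil))))) (.nd (nat_lit 4) (.nd (nat_lit 5) 
(.lf (nat_lit 187082) (.g (nat_lit 2916) (.e (nat_lit 57896) (nat_lit 273) (.e (nat_lit 57464) (nat_lit 23) (.e (nat_lit 516151) (nat_lit 9) (.e (nat_lit 426275) (nat_lit 10) (.e (nat_lit 434231) (nat_lit 23) .nil))))) .nil)) 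
(.lf (nat_lit 187114) (.g (nat_lit 2822) (.e (nat_lit 57896) (nat_lit 273) (.e (nat_lit 57464) (nat_lit 23) (.e (nat_lit 516165) (nat_lit 12) (.e (nat_lit 450579) (nat_lit 5) (.e (nat_lit 532482) (nat_lit 0) (.e (nat_lit 6221) (nat_lit 333) .nil)))))) (.g (nat_lit 0) .nil .nil)))) (.nd (nat_lit 5) 
(.lf (nat_lit 187098) (.g (nat_lit 2085) (.e (nat_lit 57896) (nat_lit 273) (.e (nat_lit 57464) (nat_lit 23) (.e (nat_lit 516163) (nat_lit 11) (.e (nat_lit 442424) (nat_lit 22) (.e (nat_lit 196622) (nat_lit 9) .nil))))) .nil)) 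
(.lf (nat_lit 187130) (.g (nat_lit 2480) (.e (nat_lit 57896) (nat_lit 273) (.e (nat_lit 57464) (nat_lit 23) (.e (nat_lit 516166) (nat_lit 12) (.e (nat_lit 450588) (nat_lit 10) (.e (nat_lit 573452) (nat_lit 9) (.e (nat_lit 11) (nat_lit 0) (.e (nat_lit 7081) (nat_lit 378) .nil))))))) (.g (nat_lit 7) .nil .nil)))))) (.nd (nat_lit 3) (.nd (nat_lit 4) (.nd (nat_lit 5) 
(.lf (nat_lit 187078) (.g (nat_lit 2054) (.e (nat_lit 57896) (nat_lit 273) (.e (nat_lit 57464) (nat_lit 23) (.e (nat_lit 516151) (nat_lit 9) (.e (nat_lit 426216) (nat_lit 9) .nil)))) .nil)) 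
(.lf (nat_lit 187110) (.g (nat_lit 758) (.e (nat_lit 57896) (nat_lit 273) (.e (nat_lit 57464) (nat_lit 23) (.e (nat_lit 516165) (nat_lit 12) (.e (nat_lit 450579) (nat_lit 5) .nil)))) .nil))) (.nd (nat_lit 5) 
(.lf (nat_lit 187094) (.g (nat_lit 1960) (.e (nat_lit 57896) (nat_lit 273) (.e (nat_lit 57464) (nat_lit 23) (.e (nat_lit 516151) (nat_lit 9) (.e (nat_lit 426312) (nat_lit 12) .nil)))) .nil)) 
(.lf (nat_lit 187126) (.g (nat_lit 1415) (.e (nat_lit 57896) (nat_lit 273) (.e (nat_lit 57464) (nat_lit 23) (.e (nat_lit 516166) (nat_lit 12) (.e (nat_lit 450581) (nat_lit 5) (.e (nat_lit 532486) (nat_lit 0) .nil))))) .nil)))) (.nd (nat_lit 4) (.nd (nat_lit 5) 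
(.lf (nat_lit 187086) (.g (nat_lit 3405) (.e (nat_lit 57896) (nat_lit 273) (.e (nat_lit 57464) (nat_lit 23) (.e (nat_lit 516151) (nat_lit 9) (.e (nat_lit 426286) (nat_lit 10) (.e (nat_lit 434245) (nat_lit 28) (.e (nat_lit 573451) (nat_lit 9) (.e (nat_lit 11) (nat_lit 0) (.e (nat_lit 7079) (nat_lit 378) .nil)))))))) (.g (nat_lit 7) .nil .nil))) 
(.lf (nat_lit 187118) (.g (nat_lit 1740) (.e (nat_lit 57896) (nat_lit 273) (.e (nat_lit 57464) (nat_lit 23) (.e (nat_lit 516165) (nat_lit 12) (.e (nat_lit 450580) (nat_lit 5) (.e (nat_lit 532486) (nat_lit 0) .nil))))) .nil))) (.nd (nat_lit 5) 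
(.lf (nat_lit 187102) (.g (nat_lit 1281) (.e (nat_lit 57896) (nat_lit 273) (.e (nat_lit 57464) (nat_lit 23) (.e (nat_lit 516163) (nat_lit 11) (.e (nat_lit 442424) (nat_lit 22) (.e (nat_lit 204544) (nat_lit 21) .nil))))) .nil)) 
(.lf (nat_lit 187134) (.g (nat_lit 2123) (.e (nat_lit 57896) (nat_lit 273) (.e (nat_lit 57480) (nat_lit 28) (.e (nat_lit 557091) (nat_lit 12) (.e (nat_lit 164238) (nat_lit 187) .nil)))) .nil))))))) (.nd (nat_lit 1) (.nd (nat_lit 2) (.nd (nat_lit 3) (.nd (nat_lit 4) (.nd (nat_lit 5) 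
(.lf (nat_lit 187073) (.g (nat_lit 2676) (.e (nat_lit 57896) (nat_lit 273) (.e (nat_lit 57464) (nat_lit 23) (.e (nat_lit 516151) (nat_lit 9) (.e (nat_lit 426211) (nat_lit 9) (.e (nat_lit 426125) (nat_lit 2) .nil))))) .nil)) 
(.lf (nat_lit 187105) (.g (nat_lit 1934) (.e (nat_lit 57896) (nat_lit 273) (.e (nat_lit 57464) (nat_lit 23) (.e (nat_lit 516163) (nat_lit 11) (.e (nat_lit 442427) (nat_lit 23) (.e (nat_lit 204819) (nat_lit 17) (.e (nat_lit 6212) (nat_lit 333) .nil)))))) (.g (nat_lit 4) .nil .nil)))) (.nd (nat_lit 5) 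
(.lf (nat_lit 187089) (.g (nat_lit 3157) (.e (nat_lit 57896) (nat_lit 273) (.e (nat_lit 57464) (nat_lit 23) (.e (nat_lit 516151) (nat_lit 9) (.e (nat_lit 426286) (nat_lit 10) (.e (nat_lit 434248) (nat_lit 28) (.e (nat_lit 573452) (nat_lit 9) (.e (nat_lit 11) (nat_lit 0) (.e (nat_lit 7082) (nat_lit 378) .nil)))))))) (.g (nat_lit 7) .nil .nil))) 
(.lf (nat_lit 187121) (.g (nat_lit 1959) (.e (nat_lit 57896) (nat_lit 273) (.e (nat_lit 57464) (nat_lit 23) (.e (nat_lit 516165) (nat_lit 12) (.e (nat_lit 450586) (nat_lit 10) (.e (nat_lit 573452) (nat_lit 9) (.e (nat_lit 11) (nat_lit 0) (.e (nat_lit 7081) (nat_lit 378) .nil))))))) (.g (nat_lit 7) .nil .nil))))) (.nd (nat_lit 4) (.nd (nat_lit 5) 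
(.lf (nat_lit 187081) (.g (nat_lit 2252) (.e (nat_lit 57896) (nat_lit 273) (.e (nat_lit 57464) (nat_lit 23) (.e (nat_lit 516151) (nat_lit 9) (.e (nat_lit 426275) (nat_lit 10) .nil)))) .nil)) 
(.lf (nat_lit 187113) (.g (nat_lit 2525) (.e (nat_lit 57896) (nat_lit 273) (.e (nat_lit 57464) (nat_lit 23) (.e (nat_lit 516165) (nat_lit 12) (.e (nat_lit 450579) (nat_lit 5) (.e (nat_lit 532480) (nat_lit 0) (.e (nat_lit 6212) (nat_lit 333) .nil)))))) (.g (nat_lit 6) .nil .nil)))) (.nd (nat_lit 5) 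
(.lf (nat_lit 187097) (.g (nat_lit 2782) (.e (nat_lit 57896) (nat_lit 273) (.e (nat_lit 57464) (nat_lit 23) (.e (nat_lit 516151) (nat_lit 9) (.e (nat_lit 426338) (nat_lit 14) (.e (nat_lit 491540) (nat_lit 3) (.e (nat_lit 106240) (nat_lit 17) (.e (nat_lit 7082) (nat_lit 378) .nil))))))) (.g (nat_lit 4) .nil .nil))) 
(.lf (nat_lit 187129) (.g (nat_lit 2243) (.e (nat_lit 57896) (nat_lit 273) (.e (nat_lit 57464) (nat_lit 23) (.e (nat_lit 516166) (nat_lit 12) (.e (nat_lit 450588) (nat_lit 10) (.e (nat_lit 573452) (nat_lit 9) (.e (nat_lit 11) (nat_lit 0) (.e (nat_lit 7079) (nat_lit 378) .nil))))))) (.g (nat_lit 5) .nil .nil)))))) (.nd (nat_lit 3) (.nd (nat_lit 4) (.nd (nat_lit 5) 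
(.lf (nat_lit 187077) (.g (nat_lit 2244) (.e (nat_lit 57896) (nat_lit 273) (.e (nat_lit 57464) (nat_lit 23) (.e (nat_lit 516151) (nat_lit 9) (.e (nat_lit 426214) (nat_lit 9) .nil)))) .nil)) 
(.lf (nat_lit 187109) (.g (nat_lit 883) (.e (nat_lit 57896) (nat_lit 273) (.e (nat_lit 57464) (nat_lit 23) (.e (nat_lit 516165) (nat_lit 12) (.e (nat_lit 458496) (nat_lit 1) .nil)))) .nil))) (.nd (nat_lit 5) 
(.lf (nat_lit 187093) (.g (nat_lit 2246) (.e (nat_lit 57896) (nat_lit 273) (.e (nat_lit 57464) (nat_lit 23) (.e (nat_lit 516151) (nat_lit 9) (.e (nat_lit 426295) (nat_lit 11) .nil)))) .nil)) 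
(.lf (nat_lit 187125) (.g (nat_lit 1034) (.e (nat_lit 57896) (nat_lit 273) (.e (nat_lit 57464) (nat_lit 23) (.e (nat_lit 516166) (nat_lit 12) (.e (nat_lit 450576) (nat_lit 2) .nil)))) .nil)))) (.nd (nat_lit 4) (.nd (nat_lit 5) 
(.lf (nat_lit 187085) (.g (nat_lit 3284) (.e (nat_lit 57896) (nat_lit 273) (.e (nat_lit 57464) (nat_lit 23) (.e (nat_lit 516151) (nat_lit 9) (.e (nat_lit 426285) (nat_lit 10) (.e (nat_lit 434238) (nat_lit 25) .nil))))) .nil)) 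
(.lf (nat_lit 187117) (.g (nat_lit 1611) (.e (nat_lit 57896) (nat_lit 273) (.e (nat_lit 57464) (nat_lit 23) (.e (nat_lit 516165) (nat_lit 12) (.e (nat_lit 450579) (nat_lit 5) (.e (nat_lit 532489) (nat_lit 0) (.e (nat_lit 7936) (nat_lit 333) .nil)))))) (.g (nat_lit 5) .nil .nil)))) (.nd (nat_lit 5) 
(.lf (nat_lit 187101) (.g (nat_lit 1281) (.e (nat_lit 57896) (nat_lit 273) (.e (nat_lit 57464) (nat_lit 23) (.e (nat_lit 516163) (nat_lit 11) (.e (nat_lit 442424) (nat_lit 22) (.e (nat_lit 204544) (nat_lit 18) .nil))))) .nil)) 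
(.lf (nat_lit 187133) (.g (nat_lit 2062) (.e (nat_lit 57896) (nat_lit 273) (.e (nat_lit 57464) (nat_lit 23) (.e (nat_lit 516176) (nat_lit 14) (.e (nat_lit 466977) (nat_lit 22) (.e (nat_lit 196677) (nat_lit 16) (.e (nat_lit 123080) (nat_lit 177) .nil)))))) (.g (nat_lit 5) .nil .nil))))))) (.nd (nat_lit 2) (.nd (nat_lit 3) (.nd (nat_lit 4) (.nd (nat_lit 5) 
(.lf (nat_lit 187075) (.g (nat_lit 3413) (.e (nat_lit 57896) (nat_lit 273) (.e (nat_lit 57464) (nat_lit 23) (.e (nat_lit 516151) (nat_lit 9) (.e (nat_lit 426211) (nat_lit 9) (.e (nat_lit 426125) (nat_lit 2) (.e (nat_lit 204544) (nat_lit 22) (.e (nat_lit 229621) (nat_lit 222) .nil))))))) (.g (nat_lit 5) .nil .nil))) 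
(.lf (nat_lit 187107) (.g (nat_lit 1851) (.e (nat_lit 57896) (nat_lit 273) (.e (nat_lit 57464) (nat_lit 23) (.e (nat_lit 516163) (nat_lit 11) (.e (nat_lit 442427) (nat_lit 23) (.e (nat_lit 204821) (nat_lit 17) (.e (nat_lit 7936) (nat_lit 333) .nil)))))) (.g (nat_lit 5) .nil .nil)))) (.nd (nat_lit 5) 
(.lf (nat_lit 187091) (.g (nat_lit 2250) (.e (nat_lit 57896) (nat_lit 273) (.e (nat_lit 57464) (nat_lit 23) (.e (nat_lit 516151) (nat_lit 9) (.e (nat_lit 426289) (nat_lit 10) .nil)))) .nil)) 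
(.lf (nat_lit 187123) (.g (nat_lit 2063) (.e (nat_lit 57896) (nat_lit 273) (.e (nat_lit 57464) (nat_lit 23) (.e (nat_lit 516165) (nat_lit 12) (.e (nat_lit 450586) (nat_lit 10) (.e (nat_lit 573457) (nat_lit 9) (.e (nat_lit 13) (nat_lit 0) (.e (nat_lit 7077) (nat_lit 378) .nil))))))) (.g (nat_lit 0) .nil .nil))))) (.nd (nat_lit 4) (.nd (nat_lit 5) 
(.lf (nat_lit 187083) (.g (nat_lit 2106) (.e (nat_lit 57896) (nat_lit 273) (.e (nat_lit 57464) (nat_lit 23) (.e (nat_lit 516151) (nat_lit 9) (.e (nat_lit 426285) (nat_lit 10) .nil)))) .nil)) 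
(.lf (nat_lit 187115) (.g (nat_lit 2948) (.e (nat_lit 57896) (nat_lit 273) (.e (nat_lit 57464) (nat_lit 23) (.e (nat_lit 516165) (nat_lit 12) (.e (nat_lit 450579) (nat_lit 5) (.e (nat_lit 532486) (nat_lit 0) (.e (nat_lit 6212) (nat_lit 333) .nil)))))) (.g (nat_lit 6) .nil .nil)))) (.nd (nat_lit 5) 
(.lf (nat_lit 187099) (.g (nat_lit 2106) (.e (nat_lit 57896) (nat_lit 273) (.e (nat_lit 57464) (nat_lit 23) (.e (nat_lit 516163) (nat_lit 11) (.e (nat_lit 442424) (nat_lit 22) (.e (nat_lit 196677) (nat_lit 16) .nil))))) .nil)) 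
(.lf (nat_lit 187131) (.g (nat_lit 2920) (.e (nat_lit 57896) (nat_lit 273) (.e (nat_lit 57464) (nat_lit 23) (.e (nat_lit 516166) (nat_lit 12) (.e (nat_lit 450588) (nat_lit 10) (.e (nat_lit 573452) (nat_lit 9) (.e (nat_lit 13) (nat_lit 0) (.e (nat_lit 7077) (nat_lit 378) .nil))))))) (.g (nat_lit 0) .nil .nil)))))) (.nd (nat_lit 3) (.nd (nat_lit 4) (.nd (nat_lit 5) 
(.lf (nat_lit 187079) (.g (nat_lit 2247) (.e (nat_lit 57896) (nat_lit 273) (.e (nat_lit 57464) (nat_lit 23) (.e (nat_lit 516151) (nat_lit 9) (.e (nat_lit 426218) (nat_lit 9) .nil)))) .nil)) 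
(.lf (nat_lit 187111) (.g (nat_lit 1630) (.e (nat_lit 57896) (nat_lit 273) (.e (nat_lit 57464) (nat_lit 23) (.e (nat_lit 516165) (nat_lit 12) (.e (nat_lit 450579) (nat_lit 5) (.e (nat_lit 532480) (nat_lit 0) (.e (nat_lit 6210) (nat_lit 333) .nil)))))) (.g (nat_lit 4) .nil .nil)))) (.nd (nat_lit 5) 
(.lf (nat_lit 187095) (.g (nat_lit 1761) (.e (nat_lit 57896) (nat_lit 273) (.e (nat_lit 57464) (nat_lit 23) (.e (nat_lit 516151) (nat_lit 9) (.e (nat_lit 426338) (nat_lit 14) .nil)))) .nil)) 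
(.lf (nat_lit 187127) (.g (nat_lit 2234) (.e (nat_lit 57896) (nat_lit 273) (.e (nat_lit 57464) (nat_lit 23) (.e (nat_lit 516166) (nat_lit 12) (.e (nat_lit 450587) (nat_lit 10) (.e (nat_lit 573457) (nat_lit 9) (.e (nat_lit 13) (nat_lit 0) (.e (nat_lit 7077) (nat_lit 378) .nil))))))) (.g (nat_lit 0) .nil .nil))))) (.nd (nat_lit 4) (.nd (nat_lit 5) 
(.lf (nat_lit 187087) (.g (nat_lit 3526) (.e (nat_lit 57896) (nat_lit 273) (.e (nat_lit 57464) (nat_lit 23) (.e (nat_lit 516151) (nat_lit 9) (.e (nat_lit 426286) (nat_lit 10) (.e (nat_lit 434245) (nat_lit 28) (.e (nat_lit 573451) (nat_lit 9) (.e (nat_lit 11) (nat_lit 0) (.e (nat_lit 7081) (nat_lit 378) .nil)))))))) (.g (nat_lit 7) .nil .nil))) 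
(.lf (nat_lit 187119) (.g (nat_lit 1916) (.e (nat_lit 57896) (nat_lit 273) (.e (nat_lit 57464) (nat_lit 23) (.e (nat_lit 516165) (nat_lit 12) (.e (nat_lit 450586) (nat_lit 10) (.e (nat_lit 573452) (nat_lit 9) (.e (nat_lit 11) (nat_lit 0) (.e (nat_lit 7077) (nat_lit 378) .nil))))))) (.g (nat_lit 6) .nil .nil)))) (.nd (nat_lit 5) 
(.lf (nat_lit 187103) (.g (nat_lit 2087) (.e (nat_lit 57896) (nat_lit 273) (.e (nat_lit 57464) (nat_lit 23) (.e (nat_lit 516163) (nat_lit 11) (.e (nat_lit 442424) (nat_lit 22) (.e (nat_lit 196700) (nat_lit 22) .nil))))) .nil)) 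
(.lf (nat_lit 187135) (.g (nat_lit 2114) (.e (nat_lit 65280) (nat_lit 273) (.e (nat_lit 57464) (nat_lit 23) (.e (nat_lit 516151) (nat_lit 9) (.e (nat_lit 426239) (nat_lit 9) .nil)))) .nil))))))))

noncomputable def tv2485 : DT := (.nd (nat_lit 0) (.nd (nat_lit 1) (.nd (nat_lit 2) (.nd (nat_lit 3) (.nd (nat_lit 4) (.nd (nat_lit 5) 
(.lf (nat_lit 187136) (.g (nat_lit 2112) (.e (nat_lit 65280) (nat_lit 273) (.e (nat_lit 57464) (nat_lit 23) (.e (nat_lit 516151) (nat_lit 9) (.e (nat_lit 426268) (nat_lit 9) .nil)))) .nil)) 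
(.lf (nat_lit 187168) (.g (nat_lit 865) (.e (nat_lit 57897) (nat_lit 274) (.e (nat_lit 65653) (nat_lit 27) (.e (nat_lit 426189) (nat_lit 9) (.e (nat_lit 426442) (nat_lit 19) (.e (nat_lit 106556) (nat_lit 15) .nil))))) .nil))) (.nd (nat_lit 5) 
(.lf (nat_lit 187152) (.g (nat_lit 993) (.e (nat_lit 57897) (nat_lit 274) (.e (nat_lit 65653) (nat_lit 27) (.e (nat_lit 426009) (nat_lit 0) (.e (nat_lit 7587) (nat_lit 406) (.e (nat_lit 65632) (nat_lit 15) .nil))))) .nil)) 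
(.lf (nat_lit 187184) (.g (nat_lit 2068) (.e (nat_lit 57897) (nat_lit 274) (.e (nat_lit 65653) (nat_lit 27) (.e (nat_lit 426343) (nat_lit 14) (.e (nat_lit 491552) (nat_lit 9) (.e (nat_lit 336248) (nat_lit 15) (.e (nat_lit 7082) (nat_lit 378) .nil)))))) (.g (nat_lit 5) .nil .nil))))) (.nd (nat_lit 4) (.nd (nat_lit 5) 
(.lf (nat_lit 187144) (.g (nat_lit 1669) (.e (nat_lit 57897) (nat_lit 274) (.e (nat_lit 65571) (nat_lit 3) (.e (nat_lit 98389) (nat_lit 33) (.e (nat_lit 491560) (nat_lit 10) .nil)))) .nil)) 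
(.lf (nat_lit 187176) (.g (nat_lit 676) (.e (nat_lit 57897) (nat_lit 274) (.e (nat_lit 65653) (nat_lit 27) (.e (nat_lit 426307) (nat_lit 12) (.e (nat_lit 475219) (nat_lit 44) (.e (nat_lit 737286) (nat_lit 0) .nil))))) .nil))) (.nd (nat_lit 5) 
(.lf (nat_lit 187160) (.g (nat_lit 1866) (.e (nat_lit 57897) (nat_lit 274) (.e (nat_lit 65653) (nat_lit 27) (.e (nat_lit 426011) (nat_lit 0) (.e (nat_lit 7589) (nat_lit 406) (.e (nat_lit 65632) (nat_lit 15) (.e (nat_lit 7082) (nat_lit 378) .nil)))))) (.g (nat_lit 0) .nil .nil))) 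
(.lf (nat_lit 187192) (.g (nat_lit 1540) (.e (nat_lit 57898) (nat_lit 275) (.e (nat_lit 73729) (nat_lit 0) (.e (nat_lit 7261) (nat_lit 384) (.e (nat_lit 57423) (nat_lit 14) (.e (nat_lit 352257) (nat_lit 0) (.e (nat_lit 7082) (nat_lit 378) .nil)))))) (.g (nat_lit 0) .nil .nil)))))) (.nd (nat_lit 3) (.nd (nat_lit 4) (.nd (nat_lit 5) 
(.lf (nat_lit 187140) (.g (nat_lit 913) (.e (nat_lit 57897) (nat_lit 274) (.e (nat_lit 65571) (nat_lit 3) (.e (nat_lit 98313) (nat_lit 9) .nil))) .nil)) 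
(.lf (nat_lit 187172) (.g (nat_lit 1543) (.e (nat_lit 57897) (nat_lit 274) (.e (nat_lit 65653) (nat_lit 27) (.e (nat_lit 426190) (nat_lit 9) (.e (nat_lit 426442) (nat_lit 19) (.e (nat_lit 106556) (nat_lit 15) (.e (nat_lit 57808) (nat_lit 246) .nil)))))) (.g (nat_lit 6) .nil .nil)))) (.nd (nat_lit 5) 
(.lf (nat_lit 187156) (.g (nat_lit 1088) (.e (nat_lit 57897) (nat_lit 274) (.e (nat_lit 65653) (nat_lit 27) (.e (nat_lit 426010) (nat_lit 0) (.e (nat_lit 7589) (nat_lit 406) (.e (nat_lit 65632) (nat_lit 15) (.e (nat_lit 7077) (nat_lit 378) .nil)))))) (.g (nat_lit 0) .nil .nil))) 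
(.lf (nat_lit 187188) (.g (nat_lit 1167) (.e (nat_lit 57898) (nat_lit 275) (.e (nat_lit 73729) (nat_lit 0) (.e (nat_lit 7125) (nat_lit 382) (.e (nat_lit 1222) (nat_lit 90) .nil)))) .nil)))) (.nd (nat_lit 4) (.nd (nat_lit 5) 
(.lf (nat_lit 187148) (.g (nat_lit 540) (.e (nat_lit 57897) (nat_lit 274) (.e (nat_lit 65648) (nat_lit 26) (.e (nat_lit 417796) (nat_lit 0) (.e (nat_lit 5406) (nat_lit 302) .nil)))) .nil)) 
(.lf (nat_lit 187180) (.g (nat_lit 1740) (.e (nat_lit 57897) (nat_lit 274) (.e (nat_lit 65653) (nat_lit 27) (.e (nat_lit 426308) (nat_lit 12) (.e (nat_lit 475201) (nat_lit 40) (.e (nat_lit 704841) (nat_lit 15) (.e (nat_lit 57808) (nat_lit 246) .nil)))))) (.g (nat_lit 6) .nil .nil)))) (.nd (nat_lit 5) 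
(.lf (nat_lit 187164) (.g (nat_lit 935) (.e (nat_lit 57897) (nat_lit 274) (.e (nat_lit 65653) (nat_lit 27) (.e (nat_lit 426012) (nat_lit 0) (.e (nat_lit 7936) (nat_lit 406) .nil)))) .nil)) 
(.lf (nat_lit 187196) (.g (nat_lit 1880) (.e (nat_lit 57898) (nat_lit 275) (.e (nat_lit 73729) (nat_lit 0) (.e (nat_lit 7263) (nat_lit 384) (.e (nat_lit 57424) (nat_lit 14) (.e (nat_lit 352257) (nat_lit 0) .nil))))) .nil)))))) (.nd (nat_lit 2) (.nd (nat_lit 3) (.nd (nat_lit 4) (.nd (nat_lit 5) 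
(.lf (nat_lit 187138) (.g (nat_lit 1007) (.e (nat_lit 57897) (nat_lit 274) (.e (nat_lit 65565) (nat_lit 1) (.e (nat_lit 57684) (nat_lit 155) (.e (nat_lit 122914) (nat_lit 14) (.e (nat_lit 352257) (nat_lit 0) .nil))))) .nil)) 
(.lf (nat_lit 187170) (.g (nat_lit 1012) (.e (nat_lit 57897) (nat_lit 274) (.e (nat_lit 65653) (nat_lit 27) (.e (nat_lit 426189) (nat_lit 9) (.e (nat_lit 426444) (nat_lit 19) (.e (nat_lit 106556) (nat_lit 15) (.e (nat_lit 57813) (nat_lit 246) .nil)))))) (.g (nat_lit 4) .nil .nil)))) (.nd (nat_lit 5) 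
(.lf (nat_lit 187154) (.g (nat_lit 938) (.e (nat_lit 57897) (nat_lit 274) (.e (nat_lit 65653) (nat_lit 27) (.e (nat_lit 426009) (nat_lit 0) (.e (nat_lit 7589) (nat_lit 406) (.e (nat_lit 65632) (nat_lit 15) (.e (nat_lit 7082) (nat_lit 378) .nil)))))) (.g (nat_lit 0) .nil .nil))) 
(.lf (nat_lit 187186) (.g (nat_lit 1505) (.e (nat_lit 57897) (nat_lit 274) (.e (nat_lit 65653) (nat_lit 27) (.e (nat_lit 426344) (nat_lit 14) (.e (nat_lit 491552) (nat_lit 9) (.e (nat_lit 336248) (nat_lit 15) (.e (nat_lit 7079) (nat_lit 378) .nil)))))) (.g (nat_lit 4) .nil .nil))))) (.nd (nat_lit 4) (.nd (nat_lit 5) 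
(.lf (nat_lit 187146) (.g (nat_lit 521) (.e (nat_lit 57897) (nat_lit 274) (.e (nat_lit 65632) (nat_lit 15) (.e (nat_lit 7082) (nat_lit 378) (.e (nat_lit 57897) (nat_lit 274) (.e (nat_lit 65632) (nat_lit 15) (.e (nat_lit 7081) (nat_lit 378) .nil)))))) (.g (nat_lit 0) .nil .nil))) 
(.lf (nat_lit 187178) (.g (nat_lit 1314) (.e (nat_lit 57897) (nat_lit 274) (.e (nat_lit 65653) (nat_lit 27) (.e (nat_lit 426308) (nat_lit 12) (.e (nat_lit 475201) (nat_lit 40) (.e (nat_lit 704839) (nat_lit 15) .nil))))) .nil))) (.nd (nat_lit 5) 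
(.lf (nat_lit 187162) (.g (nat_lit 1835) (.e (nat_lit 57897) (nat_lit 274) (.e (nat_lit 65653) (nat_lit 27) (.e (nat_lit 426012) (nat_lit 0) (.e (nat_lit 7589) (nat_lit 406) (.e (nat_lit 65632) (nat_lit 15) (.e (nat_lit 7077) (nat_lit 378) .nil)))))) (.g (nat_lit 0) .nil .nil))) 
(.lf (nat_lit 187194) (.g (nat_lit 371) (.e (nat_lit 57898) (nat_lit 275) (.e (nat_lit 73729) (nat_lit 0) (.e (nat_lit 7263) (nat_lit 384) .nil))) .nil))))) (.nd (nat_lit 3) (.nd (nat_lit 4) (.nd (nat_lit 5) 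
(.lf (nat_lit 187142) (.g (nat_lit 792) (.e (nat_lit 57897) (nat_lit 274) (.e (nat_lit 65571) (nat_lit 3) (.e (nat_lit 98389) (nat_lit 33) .nil))) .nil)) 
(.lf (nat_lit 187174) (.g (nat_lit 1467) (.e (nat_lit 57897) (nat_lit 274) (.e (nat_lit 65653) (nat_lit 27) (.e (nat_lit 426190) (nat_lit 9) (.e (nat_lit 426442) (nat_lit 19) (.e (nat_lit 106556) (nat_lit 15) (.e (nat_lit 57814) (nat_lit 246) .nil)))))) (.g (nat_lit 6) .nil .nil)))) (.nd (nat_lit 5) 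
(.lf (nat_lit 187158) (.g (nat_lit 2194) (.e (nat_lit 57897) (nat_lit 274) (.e (nat_lit 65653) (nat_lit 27) (.e (nat_lit 426011) (nat_lit 0) (.e (nat_lit 7587) (nat_lit 406) (.e (nat_lit 65632) (nat_lit 15) (.e (nat_lit 7077) (nat_lit 378) .nil)))))) (.g (nat_lit 6) .nil .nil))) 
(.lf (nat_lit 187190) (.g (nat_lit 1593) (.e (nat_lit 57898) (nat_lit 275) (.e (nat_lit 73729) (nat_lit 0) (.e (nat_lit 7261) (nat_lit 384) (.e (nat_lit 57423) (nat_lit 14) (.e (nat_lit 352257) (nat_lit 0) (.e (nat_lit 7077) (nat_lit 378) .nil)))))) (.g (nat_lit 0) .nil .nil))))) (.nd (nat_lit 4) (.nd (nat_lit 5) 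
(.lf (nat_lit 187150) (.g (nat_lit 535) (.e (nat_lit 57897) (nat_lit 274) (.e (nat_lit 65652) (nat_lit 27) (.e (nat_lit 425989) (nat_lit 0) (.e (nat_lit 7588) (nat_lit 406) (.e (nat_lit 65632) (nat_lit 15) (.e (nat_lit 7081) (nat_lit 378) .nil)))))) (.g (nat_lit 0) .nil .nil))) 
(.lf (nat_lit 187182) (.g (nat_lit 1097) (.e (nat_lit 57897) (nat_lit 274) (.e (nat_lit 65653) (nat_lit 27) (.e (nat_lit 426343) (nat_lit 14) (.e (nat_lit 491546) (nat_lit 9) .nil)))) .nil))) (.nd (nat_lit 5) 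
(.lf (nat_lit 187166) (.g (nat_lit 1434) (.e (nat_lit 57897) (nat_lit 274) (.e (nat_lit 65653) (nat_lit 27) (.e (nat_lit 426188) (nat_lit 9) (.e (nat_lit 426444) (nat_lit 19) (.e (nat_lit 106556) (nat_lit 15) .nil))))) .nil)) 
(.lf (nat_lit 187198) (.g (nat_lit 1981) (.e (nat_lit 57898) (nat_lit 275) (.e (nat_lit 73729) (nat_lit 0) (.e (nat_lit 7265) (nat_lit 384) (.e (nat_lit 57423) (nat_lit 14) (.e (nat_lit 352257) (nat_lit 0) (.e (nat_lit 7081) (nat_lit 378) .nil)))))) (.g (nat_lit 0) .nil .nil)))))))) (.nd (nat_lit 1) (.nd (nat_lit 2) (.nd (nat_lit 3) (.nd (nat_lit 4) (.nd (nat_lit 5) 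
(.lf (nat_lit 187137) (.g (nat_lit 1493) (.e (nat_lit 57897) (nat_lit 274) (.e (nat_lit 65565) (nat_lit 1) (.e (nat_lit 57683) (nat_lit 155) (.e (nat_lit 122914) (nat_lit 14) (.e (nat_lit 352257) (nat_lit 0) .nil))))) .nil)) 
(.lf (nat_lit 187169) (.g (nat_lit 1069) (.e (nat_lit 57897) (nat_lit 274) (.e (nat_lit 65653) (nat_lit 27) (.e (nat_lit 426189) (nat_lit 9) (.e (nat_lit 426444) (nat_lit 19) (.e (nat_lit 106556) (nat_lit 15) (.e (nat_lit 57808) (nat_lit 246) .nil)))))) (.g (nat_lit 4) .nil .nil)))) (.nd (nat_lit 5) 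
(.lf (nat_lit 187153) (.g (nat_lit 947) (.e (nat_lit 57897) (nat_lit 274) (.e (nat_lit 65653) (nat_lit 27) (.e (nat_lit 426009) (nat_lit 0) (.e (nat_lit 7589) (nat_lit 406) (.e (nat_lit 65632) (nat_lit 15) (.e (nat_lit 7077) (nat_lit 378) .nil)))))) (.g (nat_lit 0) .nil .nil))) 
(.lf (nat_lit 187185) (.g (nat_lit 1871) (.e (nat_lit 57897) (nat_lit 274) (.e (nat_lit 65653) (nat_lit 27) (.e (nat_lit 426343) (nat_lit 14) (.e (nat_lit 491556) (nat_lit 9) (.e (nat_lit 343808) (nat_lit 15) .nil))))) .nil)))) (.nd (nat_lit 4) (.nd (nat_lit 5) 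
(.lf (nat_lit 187145) (.g (nat_lit 568) (.e (nat_lit 57897) (nat_lit 274) (.e (nat_lit 65632) (nat_lit 15) (.e (nat_lit 7081) (nat_lit 378) (.e (nat_lit 57897) (nat_lit 274) (.e (nat_lit 65632) (nat_lit 15) (.e (nat_lit 7081) (nat_lit 378) .nil)))))) (.g (nat_lit 0) .nil .nil))) 
(.lf (nat_lit 187177) (.g (nat_lit 849) (.e (nat_lit 57897) (nat_lit 274) (.e (nat_lit 65653) (nat_lit 27) (.e (nat_lit 426308) (nat_lit 12) (.e (nat_lit 475200) (nat_lit 40) .nil)))) .nil))) (.nd (nat_lit 5) 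
(.lf (nat_lit 187161) (.g (nat_lit 1363) (.e (nat_lit 57897) (nat_lit 274) (.e (nat_lit 65653) (nat_lit 27) (.e (nat_lit 426011) (nat_lit 0) (.e (nat_lit 7936) (nat_lit 406) .nil)))) .nil)) 
(.lf (nat_lit 187193) (.g (nat_lit 1623) (.e (nat_lit 57898) (nat_lit 275) (.e (nat_lit 73729) (nat_lit 0) (.e (nat_lit 7261) (nat_lit 384) (.e (nat_lit 57424) (nat_lit 14) (.e (nat_lit 352257) (nat_lit 0) .nil))))) .nil))))) (.nd (nat_lit 3) (.nd (nat_lit 4) (.nd (nat_lit 5) 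
(.lf (nat_lit 187141) (.g (nat_lit 1025) (.e (nat_lit 57897) (nat_lit 274) (.e (nat_lit 65571) (nat_lit 3) (.e (nat_lit 98320) (nat_lit 17) .nil))) .nil)) 
(.lf (nat_lit 187173) (.g (nat_lit 1506) (.e (nat_lit 57897) (nat_lit 274) (.e (nat_lit 65653) (nat_lit 27) (.e (nat_lit 426190) (nat_lit 9) (.e (nat_lit 426442) (nat_lit 19) (.e (nat_lit 106556) (nat_lit 15) (.e (nat_lit 57813) (nat_lit 246) .nil)))))) (.g (nat_lit 6) .nil .nil)))) (.nd (nat_lit 5) 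
(.lf (nat_lit 187157) (.g (nat_lit 553) (.e (nat_lit 57897) (nat_lit 274) (.e (nat_lit 65653) (nat_lit 27) (.e (nat_lit 426010) (nat_lit 0) (.e (nat_lit 7936) (nat_lit 406) .nil)))) .nil)) 
(.lf (nat_lit 187189) (.g (nat_lit 389) (.e (nat_lit 57898) (nat_lit 275) (.e (nat_lit 73729) (nat_lit 0) (.e (nat_lit 7261) (nat_lit 384) .nil))) .nil)))) (.nd (nat_lit 4) (.nd (nat_lit 5) 
(.lf (nat_lit 187149) (.g (nat_lit 584) (.e (nat_lit 57897) (nat_lit 274) (.e (nat_lit 65652) (nat_lit 27) (.e (nat_lit 425984) (nat_lit 0) (.e (nat_lit 7588) (nat_lit 406) (.e (nat_lit 65632) (nat_lit 15) (.e (nat_lit 7081) (nat_lit 378) .nil)))))) (.g (nat_lit 0) .nil .nil))) 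
(.lf (nat_lit 187181) (.g (nat_lit 767) (.e (nat_lit 57897) (nat_lit 274) (.e (nat_lit 65653) (nat_lit 27) (.e (nat_lit 426342) (nat_lit 14) (.e (nat_lit 491552) (nat_lit 9) (.e (nat_lit 336250) (nat_lit 15) .nil))))) .nil))) (.nd (nat_lit 5) 
(.lf (nat_lit 187165) (.g (nat_lit 1254) (.e (nat_lit 57897) (nat_lit 274) (.e (nat_lit 65653) (nat_lit 27) (.e (nat_lit 426187) (nat_lit 9) (.e (nat_lit 426444) (nat_lit 19) (.e (nat_lit 106556) (nat_lit 15) .nil))))) .nil)) 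
(.lf (nat_lit 187197) (.g (nat_lit 1982) (.e (nat_lit 57898) (nat_lit 275) (.e (nat_lit 73729) (nat_lit 0) (.e (nat_lit 7265) (nat_lit 384) (.e (nat_lit 57423) (nat_lit 14) (.e (nat_lit 352257) (nat_lit 0) (.e (nat_lit 7077) (nat_lit 378) .nil)))))) (.g (nat_lit 0) .nil .nil))))))) (.nd (nat_lit 2) (.nd (nat_lit 3) (.nd (nat_lit 4) (.nd (nat_lit 5) 
(.lf (nat_lit 187139) (.g (nat_lit 1293) (.e (nat_lit 57897) (nat_lit 274) (.e (nat_lit 65565) (nat_lit 1) (.e (nat_lit 57684) (nat_lit 155) (.e (nat_lit 122914) (nat_lit 14) (.e (nat_lit 352257) (nat_lit 0) (.e (nat_lit 7079) (nat_lit 378) .nil)))))) (.g (nat_lit 5) .nil .nil))) 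
(.lf (nat_lit 187171) (.g (nat_lit 1012) (.e (nat_lit 57897) (nat_lit 274) (.e (nat_lit 65653) (nat_lit 27) (.e (nat_lit 426189) (nat_lit 9) (.e (nat_lit 426444) (nat_lit 19) (.e (nat_lit 106556) (nat_lit 15) (.e (nat_lit 57814) (nat_lit 246) .nil)))))) (.g (nat_lit 4) .nil .nil)))) (.nd (nat_lit 5) 
(.lf (nat_lit 187155) (.g (nat_lit 1085) (.e (nat_lit 57897) (nat_lit 274) (.e (nat_lit 65653) (nat_lit 27) (.e (nat_lit 426010) (nat_lit 0) (.e (nat_lit 7587) (nat_lit 406) (.e (nat_lit 65632) (nat_lit 15) .nil))))) .nil)) 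
(.lf (nat_lit 187187) (.g (nat_lit 1449) (.e (nat_lit 57897) (nat_lit 274) (.e (nat_lit 65653) (nat_lit 27) (.e (nat_lit 426344) (nat_lit 14) (.e (nat_lit 491563) (nat_lit 12) (.e (nat_lit 392960) (nat_lit 17) .nil))))) (.g (nat_lit 4) .nil .nil))))) (.nd (nat_lit 4) (.nd (nat_lit 5) 
(.lf (nat_lit 187147) (.g (nat_lit 901) (.e (nat_lit 57897) (nat_lit 274) (.e (nat_lit 65633) (nat_lit 15) (.e (nat_lit 7088) (nat_lit 379) (.e (nat_lit 123213) (nat_lit 274) (.e (nat_lit 65632) (nat_lit 15) (.e (nat_lit 7081) (nat_lit 378) .nil)))))) (.g (nat_lit 0) .nil .nil))) 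
(.lf (nat_lit 187179) (.g (nat_lit 1283) (.e (nat_lit 57897) (nat_lit 274) (.e (nat_lit 65653) (nat_lit 27) (.e (nat_lit 426308) (nat_lit 12) (.e (nat_lit 475201) (nat_lit 40) (.e (nat_lit 704841) (nat_lit 15) .nil))))) .nil))) (.nd (nat_lit 5) 
(.lf (nat_lit 187163) (.g (nat_lit 1823) (.e (nat_lit 57897) (nat_lit 274) (.e (nat_lit 65653) (nat_lit 27) (.e (nat_lit 426012) (nat_lit 0) (.e (nat_lit 7589) (nat_lit 406) (.e (nat_lit 65632) (nat_lit 15) (.e (nat_lit 7082) (nat_lit 378) .nil)))))) (.g (nat_lit 0) .nil .nil))) 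
(.lf (nat_lit 187195) (.g (nat_lit 1819) (.e (nat_lit 57898) (nat_lit 275) (.e (nat_lit 73729) (nat_lit 0) (.e (nat_lit 7263) (nat_lit 384) (.e (nat_lit 57423) (nat_lit 14) (.e (nat_lit 352257) (nat_lit 0) (.e (nat_lit 7082) (nat_lit 378) .nil)))))) (.g (nat_lit 0) .nil .nil)))))) (.nd (nat_lit 3) (.nd (nat_lit 4) (.nd (nat_lit 5) 
(.lf (nat_lit 187143) (.g (nat_lit 2423) (.e (nat_lit 57897) (nat_lit 274) (.e (nat_lit 65571) (nat_lit 3) (.e (nat_lit 98389) (nat_lit 33) (.e (nat_lit 491546) (nat_lit 9) (.e (nat_lit 336013) (nat_lit 2) (.e (nat_lit 98048) (nat_lit 19) .nil)))))) (.g (nat_lit 4) .nil .nil))) 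
(.lf (nat_lit 187175) (.g (nat_lit 1586) (.e (nat_lit 57897) (nat_lit 274) (.e (nat_lit 65653) (nat_lit 27) (.e (nat_lit 426190) (nat_lit 9) (.e (nat_lit 426444) (nat_lit 19) (.e (nat_lit 106556) (nat_lit 15) (.e (nat_lit 57814) (nat_lit 246) .nil)))))) (.g (nat_lit 0) .nil .nil)))) (.nd (nat_lit 5) 
(.lf (nat_lit 187159) (.g (nat_lit 1872) (.e (nat_lit 57897) (nat_lit 274) (.e (nat_lit 65653) (nat_lit 27) (.e (nat_lit 426011) (nat_lit 0) (.e (nat_lit 7589) (nat_lit 406) (.e (nat_lit 65632) (nat_lit 15) (.e (nat_lit 7077) (nat_lit 378) .nil)))))) (.g (nat_lit 0) .nil .nil))) 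
(.lf (nat_lit 187191) (.g (nat_lit 1594) (.e (nat_lit 57898) (nat_lit 275) (.e (nat_lit 73729) (nat_lit 0) (.e (nat_lit 7261) (nat_lit 384) (.e (nat_lit 57423) (nat_lit 14) (.e (nat_lit 352257) (nat_lit 0) (.e (nat_lit 7081) (nat_lit 378) .nil)))))) (.g (nat_lit 0) .nil .nil))))) (.nd (nat_lit 4) (.nd (nat_lit 5) 
(.lf (nat_lit 187151) (.g (nat_lit 965) (.e (nat_lit 57897) (nat_lit 274) (.e (nat_lit 65652) (nat_lit 27) (.e (nat_lit 426234) (nat_lit 9) (.e (nat_lit 426443) (nat_lit 19) (.e (nat_lit 106556) (nat_lit 15) (.e (nat_lit 57808) (nat_lit 246) .nil)))))) (.g (nat_lit 6) .nil .nil))) 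
(.lf (nat_lit 187183) (.g (nat_lit 1773) (.e (nat_lit 57897) (nat_lit 274) (.e (nat_lit 65653) (nat_lit 27) (.e (nat_lit 426343) (nat_lit 14) (.e (nat_lit 491552) (nat_lit 9) (.e (nat_lit 336248) (nat_lit 15) (.e (nat_lit 7079) (nat_lit 378) .nil)))))) (.g (nat_lit 4) .nil .nil)))) (.nd (nat_lit 5) 
(.lf (nat_lit 187167) (.g (nat_lit 1460) (.e (nat_lit 57897) (nat_lit 274) (.e (nat_lit 65653) (nat_lit 27) (.e (nat_lit 426188) (nat_lit 9) (.e (nat_lit 426444) (nat_lit 19) (.e (nat_lit 106556) (nat_lit 15) (.e (nat_lit 57808) (nat_lit 246) .nil)))))) (.g (nat_lit 4) .nil .nil))) 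
(.lf (nat_lit 187199) (.g (nat_lit 1935) (.e (nat_lit 57898) (nat_lit 275) (.e (nat_lit 73729) (nat_lit 0) (.e (nat_lit 7265) (nat_lit 384) (.e (nat_lit 57423) (nat_lit 14) (.e (nat_lit 352257) (nat_lit 0) (.e (nat_lit 7082) (nat_lit 378) .nil)))))) (.g (nat_lit 0) .nil .nil)))))))))

noncomputable def tv2486 : DT := (.nd (nat_lit 0) (.nd (nat_lit 1) (.nd (nat_lit 2) (.nd (nat_lit 3) (.nd (nat_lit 4) (.nd (nat_lit 5) 
(.lf (nat_lit 187200) (.g (nat_lit 969) (.e (nat_lit 57898) (nat_lit 275) (.e (nat_lit 73729) (nat_lit 0) (.e (nat_lit 7265) (nat_lit 384) (.e (nat_lit 57424) (nat_lit 14) .nil)))) .nil)) 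
(.lf (nat_lit 187232) (.g (nat_lit 1328) (.e (nat_lit 57898) (nat_lit 275) (.e (nat_lit 73746) (nat_lit 3) (.e (nat_lit 516195) (nat_lit 26) (.e (nat_lit 335995) (nat_lit 1) .nil)))) .nil))) (.nd (nat_lit 5) 
(.lf (nat_lit 187216) (.g (nat_lit 1562) (.e (nat_lit 57898) (nat_lit 275) (.e (nat_lit 73732) (nat_lit 0) (.e (nat_lit 7272) (nat_lit 385) (.e (nat_lit 122914) (nat_lit 14) (.e (nat_lit 352257) (nat_lit 0) (.e (nat_lit 7077) (nat_lit 378) .nil)))))) (.g (nat_lit 0) .nil .nil))) 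
(.lf (nat_lit 187248) (.g (nat_lit 620) (.e (nat_lit 57898) (nat_lit 275) (.e (nat_lit 73773) (nat_lit 25) (.e (nat_lit 770057) (nat_lit 5) (.e (nat_lit 1575) (nat_lit 110) (.e (nat_lit 352257) (nat_lit 0) (.e (nat_lit 7077) (nat_lit 378) .nil)))))) (.g (nat_lit 0) .nil .nil))))) (.nd (nat_lit 4) (.nd (nat_lit 5) 
(.lf (nat_lit 187208) (.g (nat_lit 1780) (.e (nat_lit 57898) (nat_lit 275) (.e (nat_lit 73731) (nat_lit 0) (.e (nat_lit 7265) (nat_lit 384) (.e (nat_lit 57424) (nat_lit 14) (.e (nat_lit 352257) (nat_lit 0) .nil))))) .nil)) 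
(.lf (nat_lit 187240) (.g (nat_lit 765) (.e (nat_lit 57898) (nat_lit 275) (.e (nat_lit 73753) (nat_lit 8) (.e (nat_lit 557087) (nat_lit 11) .nil))) .nil))) (.nd (nat_lit 5) 
(.lf (nat_lit 187224) (.g (nat_lit 1075) (.e (nat_lit 57898) (nat_lit 275) (.e (nat_lit 73733) (nat_lit 0) (.e (nat_lit 7272) (nat_lit 385) (.e (nat_lit 122914) (nat_lit 14) .nil)))) .nil)) 
(.lf (nat_lit 187256) (.g (nat_lit 638) (.e (nat_lit 57898) (nat_lit 275) (.e (nat_lit 73774) (nat_lit 26) (.e (nat_lit 778339) (nat_lit 9) (.e (nat_lit 311) (nat_lit 23) (.e (nat_lit 352257) (nat_lit 0) (.e (nat_lit 7077) (nat_lit 378) .nil)))))) (.g (nat_lit 0) .nil .nil)))))) (.nd (nat_lit 3) (.nd (nat_lit 4) (.nd (nat_lit 5) 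
(.lf (nat_lit 187204) (.g (nat_lit 1492) (.e (nat_lit 57898) (nat_lit 275) (.e (nat_lit 73729) (nat_lit 0) (.e (nat_lit 7266) (nat_lit 384) (.e (nat_lit 57425) (nat_lit 14) .nil)))) .nil)) 
(.lf (nat_lit 187236) (.g (nat_lit 734) (.e (nat_lit 57898) (nat_lit 275) (.e (nat_lit 73747) (nat_lit 3) (.e (nat_lit 516195) (nat_lit 26) .nil))) .nil))) (.nd (nat_lit 5) 
(.lf (nat_lit 187220) (.g (nat_lit 1221) (.e (nat_lit 57898) (nat_lit 275) (.e (nat_lit 73732) (nat_lit 0) (.e (nat_lit 7273) (nat_lit 385) (.e (nat_lit 122914) (nat_lit 14) (.e (nat_lit 352257) (nat_lit 0) (.e (nat_lit 7077) (nat_lit 378) .nil)))))) (.g (nat_lit 0) .nil .nil))) 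
(.lf (nat_lit 187252) (.g (nat_lit 794) (.e (nat_lit 57898) (nat_lit 275) (.e (nat_lit 73773) (nat_lit 25) (.e (nat_lit 770058) (nat_lit 5) (.e (nat_lit 1575) (nat_lit 110) (.e (nat_lit 352257) (nat_lit 0) (.e (nat_lit 7081) (nat_lit 378) .nil)))))) (.g (nat_lit 0) .nil .nil))))) (.nd (nat_lit 4) (.nd (nat_lit 5) 
(.lf (nat_lit 187212) (.g (nat_lit 1656) (.e (nat_lit 57898) (nat_lit 275) (.e (nat_lit 73732) (nat_lit 0) (.e (nat_lit 7270) (nat_lit 385) (.e (nat_lit 122914) (nat_lit 14) (.e (nat_lit 352257) (nat_lit 0) (.e (nat_lit 7082) (nat_lit 378) .nil)))))) (.g (nat_lit 0) .nil .nil))) 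
(.lf (nat_lit 187244) (.g (nat_lit 813) (.e (nat_lit 57898) (nat_lit 275) (.e (nat_lit 73772) (nat_lit 24) (.e (nat_lit 761866) (nat_lit 5) (.e (nat_lit 1574) (nat_lit 110) (.e (nat_lit 352257) (nat_lit 0) (.e (nat_lit 7081) (nat_lit 378) .nil)))))) (.g (nat_lit 0) .nil .nil)))) (.nd (nat_lit 5) 
(.lf (nat_lit 187228) (.g (nat_lit 1421) (.e (nat_lit 57898) (nat_lit 275) (.e (nat_lit 73746) (nat_lit 3) (.e (nat_lit 516179) (nat_lit 15) (.e (nat_lit 475214) (nat_lit 42) .nil)))) .nil)) 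
(.lf (nat_lit 187260) (.g (nat_lit 991) (.e (nat_lit 57898) (nat_lit 275) (.e (nat_lit 73775) (nat_lit 26) (.e (nat_lit 778360) (nat_lit 9) (.e (nat_lit 312) (nat_lit 23) (.e (nat_lit 352257) (nat_lit 0) (.e (nat_lit 7082) (nat_lit 378) .nil)))))) (.g (nat_lit 0) .nil .nil))))))) (.nd (nat_lit 2) (.nd (nat_lit 3) (.nd (nat_lit 4) (.nd (nat_lit 5) 
(.lf (nat_lit 187202) (.g (nat_lit 1513) (.e (nat_lit 57898) (nat_lit 275) (.e (nat_lit 73729) (nat_lit 0) (.e (nat_lit 7265) (nat_lit 384) (.e (nat_lit 57425) (nat_lit 14) (.e (nat_lit 352257) (nat_lit 0) .nil))))) .nil)) 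
(.lf (nat_lit 187234) (.g (nat_lit 1314) (.e (nat_lit 57898) (nat_lit 275) (.e (nat_lit 73746) (nat_lit 3) (.e (nat_lit 516195) (nat_lit 26) (.e (nat_lit 335996) (nat_lit 1) .nil)))) .nil))) (.nd (nat_lit 5) 
(.lf (nat_lit 187218) (.g (nat_lit 1532) (.e (nat_lit 57898) (nat_lit 275) (.e (nat_lit 73732) (nat_lit 0) (.e (nat_lit 7272) (nat_lit 385) (.e (nat_lit 122914) (nat_lit 14) (.e (nat_lit 352257) (nat_lit 0) (.e (nat_lit 7082) (nat_lit 378) .nil)))))) (.g (nat_lit 0) .nil .nil))) 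
(.lf (nat_lit 187250) (.g (nat_lit 579) (.e (nat_lit 57898) (nat_lit 275) (.e (nat_lit 73773) (nat_lit 25) (.e (nat_lit 770057) (nat_lit 5) (.e (nat_lit 1575) (nat_lit 110) (.e (nat_lit 352257) (nat_lit 0) (.e (nat_lit 7082) (nat_lit 378) .nil)))))) (.g (nat_lit 0) .nil .nil))))) (.nd (nat_lit 4) (.nd (nat_lit 5) 
(.lf (nat_lit 187210) (.g (nat_lit 1692) (.e (nat_lit 57898) (nat_lit 275) (.e (nat_lit 73732) (nat_lit 0) (.e (nat_lit 7270) (nat_lit 385) (.e (nat_lit 122914) (nat_lit 14) (.e (nat_lit 352257) (nat_lit 0) (.e (nat_lit 7077) (nat_lit 378) .nil)))))) (.g (nat_lit 0) .nil .nil))) 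
(.lf (nat_lit 187242) (.g (nat_lit 4255) (.e (nat_lit 57898) (nat_lit 275) (.e (nat_lit 73753) (nat_lit 8) (.e (nat_lit 557087) (nat_lit 11) (.e (nat_lit 24617) (nat_lit 7) (.e (nat_lit 319490) (nat_lit 0) .nil))))) .nil))) (.nd (nat_lit 5) 
(.lf (nat_lit 187226) (.g (nat_lit 816) (.e (nat_lit 57898) (nat_lit 275) (.e (nat_lit 73733) (nat_lit 0) (.e (nat_lit 7273) (nat_lit 385) (.e (nat_lit 122914) (nat_lit 14) .nil)))) .nil)) 
(.lf (nat_lit 187258) (.g (nat_lit 595) (.e (nat_lit 57898) (nat_lit 275) (.e (nat_lit 73774) (nat_lit 26) (.e (nat_lit 778339) (nat_lit 9) (.e (nat_lit 311) (nat_lit 23) (.e (nat_lit 352257) (nat_lit 0) (.e (nat_lit 7082) (nat_lit 378) .nil)))))) (.g (nat_lit 0) .nil .nil)))))) (.nd (nat_lit 3) (.nd (nat_lit 4) (.nd (nat_lit 5) 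
(.lf (nat_lit 187206) (.g (nat_lit 515) (.e (nat_lit 57898) (nat_lit 275) (.e (nat_lit 73731) (nat_lit 0) (.e (nat_lit 7263) (nat_lit 384) .nil))) .nil)) 
(.lf (nat_lit 187238) (.g (nat_lit 1301) (.e (nat_lit 57898) (nat_lit 275) (.e (nat_lit 73747) (nat_lit 3) (.e (nat_lit 516195) (nat_lit 26) (.e (nat_lit 335996) (nat_lit 1) .nil)))) .nil))) (.nd (nat_lit 5) 
(.lf (nat_lit 187222) (.g (nat_lit 1186) (.e (nat_lit 57898) (nat_lit 275) (.e (nat_lit 73732) (nat_lit 0) (.e (nat_lit 7273) (nat_lit 385) (.e (nat_lit 122914) (nat_lit 14) (.e (nat_lit 352257) (nat_lit 0) (.e (nat_lit 7082) (nat_lit 378) .nil)))))) (.g (nat_lit 0) .nil .nil))) 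
(.lf (nat_lit 187254) (.g (nat_lit 584) (.e (nat_lit 57898) (nat_lit 275) (.e (nat_lit 73774) (nat_lit 26) (.e (nat_lit 778334) (nat_lit 9) (.e (nat_lit 311) (nat_lit 23) (.e (nat_lit 352257) (nat_lit 0) (.e (nat_lit 7082) (nat_lit 378) .nil)))))) (.g (nat_lit 0) .nil .nil))))) (.nd (nat_lit 4) (.nd (nat_lit 5) 
(.lf (nat_lit 187214) (.g (nat_lit 1599) (.e (nat_lit 57898) (nat_lit 275) (.e (nat_lit 73732) (nat_lit 0) (.e (nat_lit 7271) (nat_lit 385) (.e (nat_lit 122914) (nat_lit 14) (.e (nat_lit 352257) (nat_lit 0) (.e (nat_lit 7082) (nat_lit 378) .nil)))))) (.g (nat_lit 0) .nil .nil))) 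
(.lf (nat_lit 187246) (.g (nat_lit 705) (.e (nat_lit 57898) (nat_lit 275) (.e (nat_lit 73773) (nat_lit 25) (.e (nat_lit 770055) (nat_lit 5) (.e (nat_lit 1575) (nat_lit 110) (.e (nat_lit 352257) (nat_lit 0) (.e (nat_lit 7081) (nat_lit 378) .nil)))))) (.g (nat_lit 0) .nil .nil)))) (.nd (nat_lit 5) 
(.lf (nat_lit 187230) (.g (nat_lit 1113) (.e (nat_lit 57898) (nat_lit 275) (.e (nat_lit 73746) (nat_lit 3) (.e (nat_lit 516191) (nat_lit 17) (.e (nat_lit 6209) (nat_lit 333) .nil)))) .nil)) 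
(.lf (nat_lit 187262) (.g (nat_lit 1440) (.e (nat_lit 57898) (nat_lit 275) (.e (nat_lit 73775) (nat_lit 26) (.e (nat_lit 778361) (nat_lit 9) (.e (nat_lit 312) (nat_lit 23) (.e (nat_lit 352257) (nat_lit 0) (.e (nat_lit 7082) (nat_lit 378) .nil)))))) (.g (nat_lit 0) .nil .nil)))))))) (.nd (nat_lit 1) (.nd (nat_lit 2) (.nd (nat_lit 3) (.nd (nat_lit 4) (.nd (nat_lit 5) 
(.lf (nat_lit 187201) (.g (nat_lit 2207) (.e (nat_lit 57898) (nat_lit 275) (.e (nat_lit 73729) (nat_lit 0) (.e (nat_lit 7265) (nat_lit 384) (.e (nat_lit 57424) (nat_lit 14) (.e (nat_lit 352256) (nat_lit 0) .nil))))) .nil)) 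
(.lf (nat_lit 187233) (.g (nat_lit 1927) (.e (nat_lit 57898) (nat_lit 275) (.e (nat_lit 73746) (nat_lit 3) (.e (nat_lit 516195) (nat_lit 26) (.e (nat_lit 335995) (nat_lit 1) (.e (nat_lit 57848) (nat_lit 252) .nil))))) .nil))) (.nd (nat_lit 5) 
(.lf (nat_lit 187217) (.g (nat_lit 1567) (.e (nat_lit 57898) (nat_lit 275) (.e (nat_lit 73732) (nat_lit 0) (.e (nat_lit 7272) (nat_lit 385) (.e (nat_lit 122914) (nat_lit 14) (.e (nat_lit 352257) (nat_lit 0) (.e (nat_lit 7081) (nat_lit 378) .nil)))))) (.g (nat_lit 0) .nil .nil))) 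
(.lf (nat_lit 187249) (.g (nat_lit 625) (.e (nat_lit 57898) (nat_lit 275) (.e (nat_lit 73773) (nat_lit 25) (.e (nat_lit 770057) (nat_lit 5) (.e (nat_lit 1575) (nat_lit 110) (.e (nat_lit 352257) (nat_lit 0) (.e (nat_lit 7081) (nat_lit 378) .nil)))))) (.g (nat_lit 0) .nil .nil))))) (.nd (nat_lit 4) (.nd (nat_lit 5) 
(.lf (nat_lit 187209) (.g (nat_lit 897) (.e (nat_lit 57898) (nat_lit 275) (.e (nat_lit 73731) (nat_lit 0) (.e (nat_lit 7265) (nat_lit 384) (.e (nat_lit 57425) (nat_lit 14) .nil)))) .nil)) 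
(.lf (nat_lit 187241) (.g (nat_lit 1973) (.e (nat_lit 57898) (nat_lit 275) (.e (nat_lit 73753) (nat_lit 8) (.e (nat_lit 557087) (nat_lit 11) (.e (nat_lit 24617) (nat_lit 7) .nil)))) .nil))) (.nd (nat_lit 5) 
(.lf (nat_lit 187225) (.g (nat_lit 1783) (.e (nat_lit 57898) (nat_lit 275) (.e (nat_lit 73733) (nat_lit 0) (.e (nat_lit 7272) (nat_lit 385) (.e (nat_lit 122916) (nat_lit 14) (.e (nat_lit 352257) (nat_lit 0) .nil))))) .nil)) 
(.lf (nat_lit 187257) (.g (nat_lit 639) (.e (nat_lit 57898) (nat_lit 275) (.e (nat_lit 73774) (nat_lit 26) (.e (nat_lit 778339) (nat_lit 9) (.e (nat_lit 311) (nat_lit 23) (.e (nat_lit 352257) (nat_lit 0) (.e (nat_lit 7081) (nat_lit 378) .nil)))))) (.g (nat_lit 0) .nil .nil)))))) (.nd (nat_lit 3) (.nd (nat_lit 4) (.nd (nat_lit 5) 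
(.lf (nat_lit 187205) (.g (nat_lit 1333) (.e (nat_lit 57898) (nat_lit 275) (.e (nat_lit 73731) (nat_lit 0) (.e (nat_lit 7261) (nat_lit 384) (.e (nat_lit 57423) (nat_lit 14) (.e (nat_lit 352257) (nat_lit 0) .nil))))) .nil)) 
(.lf (nat_lit 187237) (.g (nat_lit 1873) (.e (nat_lit 57898) (nat_lit 275) (.e (nat_lit 73747) (nat_lit 3) (.e (nat_lit 516195) (nat_lit 26) (.e (nat_lit 335995) (nat_lit 1) (.e (nat_lit 57848) (nat_lit 252) .nil))))) .nil))) (.nd (nat_lit 5) 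
(.lf (nat_lit 187221) (.g (nat_lit 1223) (.e (nat_lit 57898) (nat_lit 275) (.e (nat_lit 73732) (nat_lit 0) (.e (nat_lit 7273) (nat_lit 385) (.e (nat_lit 122914) (nat_lit 14) (.e (nat_lit 352257) (nat_lit 0) (.e (nat_lit 7081) (nat_lit 378) .nil)))))) (.g (nat_lit 0) .nil .nil))) 
(.lf (nat_lit 187253) (.g (nat_lit 743) (.e (nat_lit 57898) (nat_lit 275) (.e (nat_lit 73773) (nat_lit 25) (.e (nat_lit 770058) (nat_lit 5) (.e (nat_lit 1575) (nat_lit 110) (.e (nat_lit 352257) (nat_lit 0) (.e (nat_lit 7082) (nat_lit 378) .nil)))))) (.g (nat_lit 0) .nil .nil))))) (.nd (nat_lit 4) (.nd (nat_lit 5) 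
(.lf (nat_lit 187213) (.g (nat_lit 970) (.e (nat_lit 57898) (nat_lit 275) (.e (nat_lit 73732) (nat_lit 0) (.e (nat_lit 7270) (nat_lit 385) (.e (nat_lit 122916) (nat_lit 14) .nil)))) .nil)) 
(.lf (nat_lit 187245) (.g (nat_lit 696) (.e (nat_lit 57898) (nat_lit 275) (.e (nat_lit 73773) (nat_lit 25) (.e (nat_lit 770055) (nat_lit 5) (.e (nat_lit 1575) (nat_lit 110) (.e (nat_lit 352257) (nat_lit 0) (.e (nat_lit 7077) (nat_lit 378) .nil)))))) (.g (nat_lit 0) .nil .nil)))) (.nd (nat_lit 5) 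
(.lf (nat_lit 187229) (.g (nat_lit 637) (.e (nat_lit 57898) (nat_lit 275) (.e (nat_lit 73746) (nat_lit 3) (.e (nat_lit 516191) (nat_lit 17) .nil))) .nil)) 
(.lf (nat_lit 187261) (.g (nat_lit 1479) (.e (nat_lit 57898) (nat_lit 275) (.e (nat_lit 73775) (nat_lit 26) (.e (nat_lit 778361) (nat_lit 9) (.e (nat_lit 312) (nat_lit 23) (.e (nat_lit 352257) (nat_lit 0) (.e (nat_lit 7077) (nat_lit 378) .nil)))))) (.g (nat_lit 0) .nil .nil))))))) (.nd (nat_lit 2) (.nd (nat_lit 3) (.nd (nat_lit 4) (.nd (nat_lit 5) 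
(.lf (nat_lit 187203) (.g (nat_lit 2160) (.e (nat_lit 57898) (nat_lit 275) (.e (nat_lit 73729) (nat_lit 0) (.e (nat_lit 7266) (nat_lit 384) (.e (nat_lit 57423) (nat_lit 14) (.e (nat_lit 352257) (nat_lit 0) (.e (nat_lit 7082) (nat_lit 378) .nil)))))) (.g (nat_lit 0) .nil .nil))) 
(.lf (nat_lit 187235) (.g (nat_lit 2212) (.e (nat_lit 57898) (nat_lit 275) (.e (nat_lit 73746) (nat_lit 3) (.e (nat_lit 516195) (nat_lit 26) (.e (nat_lit 335996) (nat_lit 1) (.e (nat_lit 57851) (nat_lit 252) .nil))))) .nil))) (.nd (nat_lit 5) 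
(.lf (nat_lit 187219) (.g (nat_lit 864) (.e (nat_lit 57898) (nat_lit 275) (.e (nat_lit 73732) (nat_lit 0) (.e (nat_lit 7272) (nat_lit 385) (.e (nat_lit 122916) (nat_lit 14) .nil)))) .nil)) 
(.lf (nat_lit 187251) (.g (nat_lit 787) (.e (nat_lit 57898) (nat_lit 275) (.e (nat_lit 73773) (nat_lit 25) (.e (nat_lit 770058) (nat_lit 5) (.e (nat_lit 1575) (nat_lit 110) (.e (nat_lit 352257) (nat_lit 0) (.e (nat_lit 7077) (nat_lit 378) .nil)))))) (.g (nat_lit 0) .nil .nil))))) (.nd (nat_lit 4) (.nd (nat_lit 5) 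
(.lf (nat_lit 187211) (.g (nat_lit 1698) (.e (nat_lit 57898) (nat_lit 275) (.e (nat_lit 73732) (nat_lit 0) (.e (nat_lit 7270) (nat_lit 385) (.e (nat_lit 122914) (nat_lit 14) (.e (nat_lit 352257) (nat_lit 0) (.e (nat_lit 7081) (nat_lit 378) .nil)))))) (.g (nat_lit 0) .nil .nil))) 
(.lf (nat_lit 187243) (.g (nat_lit 809) (.e (nat_lit 57898) (nat_lit 275) (.e (nat_lit 73772) (nat_lit 24) (.e (nat_lit 761866) (nat_lit 5) (.e (nat_lit 1574) (nat_lit 110) (.e (nat_lit 352257) (nat_lit 0) (.e (nat_lit 7077) (nat_lit 378) .nil)))))) (.g (nat_lit 0) .nil .nil)))) (.nd (nat_lit 5) 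
(.lf (nat_lit 187227) (.g (nat_lit 1545) (.e (nat_lit 57898) (nat_lit 275) (.e (nat_lit 73746) (nat_lit 3) (.e (nat_lit 516146) (nat_lit 9) (.e (nat_lit 426448) (nat_lit 20) .nil)))) .nil)) 
(.lf (nat_lit 187259) (.g (nat_lit 995) (.e (nat_lit 57898) (nat_lit 275) (.e (nat_lit 73775) (nat_lit 26) (.e (nat_lit 778359) (nat_lit 9) (.e (nat_lit 312) (nat_lit 23) (.e (nat_lit 352257) (nat_lit 0) (.e (nat_lit 7082) (nat_lit 378) .nil)))))) (.g (nat_lit 0) .nil .nil)))))) (.nd (nat_lit 3) (.nd (nat_lit 4) (.nd (nat_lit 5) 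
(.lf (nat_lit 187207) (.g (nat_lit 1573) (.e (nat_lit 57898) (nat_lit 275) (.e (nat_lit 73731) (nat_lit 0) (.e (nat_lit 7265) (nat_lit 384) (.e (nat_lit 57423) (nat_lit 14) (.e (nat_lit 352257) (nat_lit 0) .nil))))) .nil)) 
(.lf (nat_lit 187239) (.g (nat_lit 1171) (.e (nat_lit 57898) (nat_lit 275) (.e (nat_lit 73751) (nat_lit 7) (.e (nat_lit 548889) (nat_lit 9) (.e (nat_lit 65598) (nat_lit 9) .nil)))) .nil))) (.nd (nat_lit 5) 
(.lf (nat_lit 187223) (.g (nat_lit 1229) (.e (nat_lit 57898) (nat_lit 275) (.e (nat_lit 73733) (nat_lit 0) (.e (nat_lit 7270) (nat_lit 385) (.e (nat_lit 122914) (nat_lit 14) .nil)))) .nil)) 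
(.lf (nat_lit 187255) (.g (nat_lit 494) (.e (nat_lit 57898) (nat_lit 275) (.e (nat_lit 73774) (nat_lit 26) (.e (nat_lit 778337) (nat_lit 9) (.e (nat_lit 311) (nat_lit 23) (.e (nat_lit 352257) (nat_lit 0) (.e (nat_lit 7082) (nat_lit 378) .nil)))))) (.g (nat_lit 0) .nil .nil))))) (.nd (nat_lit 4) (.nd (nat_lit 5) 
(.lf (nat_lit 187215) (.g (nat_lit 855) (.e (nat_lit 57898) (nat_lit 275) (.e (nat_lit 73732) (nat_lit 0) (.e (nat_lit 7271) (nat_lit 385) (.e (nat_lit 122916) (nat_lit 14) .nil)))) .nil)) 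
(.lf (nat_lit 187247) (.g (nat_lit 656) (.e (nat_lit 57898) (nat_lit 275) (.e (nat_lit 73773) (nat_lit 25) (.e (nat_lit 770055) (nat_lit 5) (.e (nat_lit 1575) (nat_lit 110) (.e (nat_lit 352257) (nat_lit 0) (.e (nat_lit 7082) (nat_lit 378) .nil)))))) (.g (nat_lit 0) .nil .nil)))) (.nd (nat_lit 5) 
(.lf (nat_lit 187231) (.g (nat_lit 679) (.e (nat_lit 57898) (nat_lit 275) (.e (nat_lit 73746) (nat_lit 3) (.e (nat_lit 516195) (nat_lit 26) .nil))) .nil)) 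
(.lf (nat_lit 187263) (.g (nat_lit 2053) (.e (nat_lit 57898) (nat_lit 275) (.e (nat_lit 73775) (nat_lit 26) (.e (nat_lit 778362) (nat_lit 9) (.e (nat_lit 312) (nat_lit 23) (.e (nat_lit 352257) (nat_lit 0) (.e (nat_lit 7077) (nat_lit 378) .nil)))))) (.g (nat_lit 0) .nil .nil)))))))))

noncomputable def tv2487 : DT := (.nd (nat_lit 0) (.nd (nat_lit 1) (.nd (nat_lit 2) (.nd (nat_lit 3) (.nd (nat_lit 4) (.nd (nat_lit 5) 
(.lf (nat_lit 187264) (.g (nat_lit 2011) (.e (nat_lit 57898) (nat_lit 275) (.e (nat_lit 73775) (nat_lit 26) (.e (nat_lit 778362) (nat_lit 9) (.e (nat_lit 312) (nat_lit 23) (.e (nat_lit 352257) (nat_lit 0) (.e (nat_lit 7082) (nat_lit 378) .nil)))))) (.g (nat_lit 0) .nil .nil))) 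
(.lf (nat_lit 187296) (.g (nat_lit 707) (.e (nat_lit 57900) (nat_lit 276) (.e (nat_lit 122936) (nat_lit 23) (.e (nat_lit 516176) (nat_lit 14) (.e (nat_lit 466981) (nat_lit 23) .nil)))) .nil))) (.nd (nat_lit 5) 
(.lf (nat_lit 187280) (.g (nat_lit 2170) (.e (nat_lit 57900) (nat_lit 276) (.e (nat_lit 122936) (nat_lit 23) (.e (nat_lit 516146) (nat_lit 9) (.e (nat_lit 426272) (nat_lit 10) (.e (nat_lit 434233) (nat_lit 23) (.e (nat_lit 532486) (nat_lit 0) (.e (nat_lit 6212) (nat_lit 333) .nil))))))) (.g (nat_lit 6) .nil .nil))) 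
(.lf (nat_lit 187312) (.g (nat_lit 4176) (.e (nat_lit 57902) (nat_lit 277) (.e (nat_lit 131094) (nat_lit 2) (.e (nat_lit 90185) (nat_lit 17) (.e (nat_lit 237582) (nat_lit 1) (.e (nat_lit 164332) (nat_lit 230) (.e (nat_lit 163869) (nat_lit 2) (.e (nat_lit 204544) (nat_lit 19) .nil))))))) (.g (nat_lit 6) .nil .nil))))) (.nd (nat_lit 4) (.nd (nat_lit 5) 
(.lf (nat_lit 187272) (.g (nat_lit 189) (.e (nat_lit 57899) (nat_lit 276) (.e (nat_lit 122936) (nat_lit 23) (.e (nat_lit 516176) (nat_lit 14) .nil))) .nil)) 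
(.lf (nat_lit 187304) (.g (nat_lit 1390) (.e (nat_lit 57902) (nat_lit 277) (.e (nat_lit 131086) (nat_lit 1) (.e (nat_lit 57683) (nat_lit 155) (.e (nat_lit 122914) (nat_lit 14) (.e (nat_lit 352257) (nat_lit 0) (.e (nat_lit 7081) (nat_lit 378) .nil)))))) (.g (nat_lit 4) .nil .nil)))) (.nd (nat_lit 5) 
(.lf (nat_lit 187288) (.g (nat_lit 1155) (.e (nat_lit 57900) (nat_lit 276) (.e (nat_lit 122936) (nat_lit 23) (.e (nat_lit 516176) (nat_lit 14) (.e (nat_lit 466967) (nat_lit 20) .nil)))) .nil)) 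
(.lf (nat_lit 187320) (.g (nat_lit 1074) (.e (nat_lit 57902) (nat_lit 277) (.e (nat_lit 131138) (nat_lit 27) (.e (nat_lit 426234) (nat_lit 9) (.e (nat_lit 426443) (nat_lit 19) (.e (nat_lit 106556) (nat_lit 15) (.e (nat_lit 57809) (nat_lit 246) .nil)))))) (.g (nat_lit 0) .nil .nil)))))) (.nd (nat_lit 3) (.nd (nat_lit 4) (.nd (nat_lit 5) 
(.lf (nat_lit 187268) (.g (nat_lit 1802) (.e (nat_lit 57898) (nat_lit 275) (.e (nat_lit 73775) (nat_lit 26) (.e (nat_lit 778466) (nat_lit 11) (.e (nat_lit 24648) (nat_lit 12) (.e (nat_lit 392960) (nat_lit 17) .nil))))) .nil)) 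
(.lf (nat_lit 187300) (.g (nat_lit 200) (.e (nat_lit 57900) (nat_lit 276) (.e (nat_lit 122936) (nat_lit 23) (.e (nat_lit 516177) (nat_lit 14) .nil))) .nil))) (.nd (nat_lit 5) 
(.lf (nat_lit 187284) (.g (nat_lit 1647) (.e (nat_lit 57900) (nat_lit 276) (.e (nat_lit 122936) (nat_lit 23) (.e (nat_lit 516151) (nat_lit 9) (.e (nat_lit 426285) (nat_lit 10) .nil)))) .nil)) 
(.lf (nat_lit 187316) (.g (nat_lit 1231) (.e (nat_lit 57902) (nat_lit 277) (.e (nat_lit 131098) (nat_lit 3) (.e (nat_lit 98389) (nat_lit 33) (.e (nat_lit 491546) (nat_lit 9) (.e (nat_lit 336013) (nat_lit 2) (.e (nat_lit 98048) (nat_lit 19) .nil)))))) (.g (nat_lit 5) .nil .nil))))) (.nd (nat_lit 4) (.nd (nat_lit 5) 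
(.lf (nat_lit 187276) (.g (nat_lit 1280) (.e (nat_lit 57900) (nat_lit 276) (.e (nat_lit 122936) (nat_lit 23) (.e (nat_lit 516131) (nat_lit 3) (.e (nat_lit 221219) (nat_lit 24) (.e (nat_lit 213003) (nat_lit 9) .nil))))) .nil)) 
(.lf (nat_lit 187308) (.g (nat_lit 1059) (.e (nat_lit 57902) (nat_lit 277) (.e (nat_lit 131088) (nat_lit 1) (.e (nat_lit 57684) (nat_lit 155) (.e (nat_lit 122914) (nat_lit 14) (.e (nat_lit 352257) (nat_lit 0) (.e (nat_lit 7077) (nat_lit 378) .nil)))))) (.g (nat_lit 4) .nil .nil)))) (.nd (nat_lit 5) 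
(.lf (nat_lit 187292) (.g (nat_lit 1939) (.e (nat_lit 57900) (nat_lit 276) (.e (nat_lit 122936) (nat_lit 23) (.e (nat_lit 516176) (nat_lit 14) (.e (nat_lit 466977) (nat_lit 22) (.e (nat_lit 196622) (nat_lit 9) .nil))))) .nil)) 
(.lf (nat_lit 187324) (.g (nat_lit 1022) (.e (nat_lit 57902) (nat_lit 277) (.e (nat_lit 131138) (nat_lit 27) (.e (nat_lit 426260) (nat_lit 9) (.e (nat_lit 426443) (nat_lit 19) (.e (nat_lit 106556) (nat_lit 15) (.e (nat_lit 57811) (nat_lit 246) .nil)))))) (.g (nat_lit 0) .nil .nil))))))) (.nd (nat_lit 2) (.nd (nat_lit 3) (.nd (nat_lit 4) (.nd (nat_lit 5) 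
(.lf (nat_lit 187266) (.g (nat_lit 1991) (.e (nat_lit 57898) (nat_lit 275) (.e (nat_lit 73775) (nat_lit 26) (.e (nat_lit 778464) (nat_lit 11) (.e (nat_lit 24665) (nat_lit 14) (.e (nat_lit 401465) (nat_lit 15) .nil))))) .nil)) 
(.lf (nat_lit 187298) (.g (nat_lit 2421) (.e (nat_lit 57900) (nat_lit 276) (.e (nat_lit 122936) (nat_lit 23) (.e (nat_lit 516176) (nat_lit 14) (.e (nat_lit 466981) (nat_lit 23) (.e (nat_lit 204821) (nat_lit 17) (.e (nat_lit 6206) (nat_lit 333) .nil)))))) (.g (nat_lit 6) .nil .nil)))) (.nd (nat_lit 5) 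
(.lf (nat_lit 187282) (.g (nat_lit 1623) (.e (nat_lit 57900) (nat_lit 276) (.e (nat_lit 122936) (nat_lit 23) (.e (nat_lit 516146) (nat_lit 9) (.e (nat_lit 426294) (nat_lit 11) (.e (nat_lit 466688) (nat_lit 19) (.e (nat_lit 500056) (nat_lit 17) (.e (nat_lit 65280) (nat_lit 177) .nil))))))) (.g (nat_lit 6) .nil .nil))) 
(.lf (nat_lit 187314) (.g (nat_lit 818) (.e (nat_lit 57902) (nat_lit 277) (.e (nat_lit 131095) (nat_lit 3) (.e (nat_lit 98389) (nat_lit 33) (.e (nat_lit 491546) (nat_lit 9) (.e (nat_lit 336013) (nat_lit 2) (.e (nat_lit 98048) (nat_lit 19) .nil)))))) (.g (nat_lit 4) .nil .nil))))) (.nd (nat_lit 4) (.nd (nat_lit 5) 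
(.lf (nat_lit 187274) (.g (nat_lit 739) (.e (nat_lit 57900) (nat_lit 276) (.e (nat_lit 122936) (nat_lit 23) (.e (nat_lit 516131) (nat_lit 3) (.e (nat_lit 221218) (nat_lit 24) .nil)))) .nil)) 
(.lf (nat_lit 187306) (.g (nat_lit 1137) (.e (nat_lit 57902) (nat_lit 277) (.e (nat_lit 131088) (nat_lit 1) (.e (nat_lit 57683) (nat_lit 155) (.e (nat_lit 122914) (nat_lit 14) (.e (nat_lit 352257) (nat_lit 0) .nil))))) .nil))) (.nd (nat_lit 5) 
(.lf (nat_lit 187290) (.g (nat_lit 1470) (.e (nat_lit 57900) (nat_lit 276) (.e (nat_lit 122936) (nat_lit 23) (.e (nat_lit 516176) (nat_lit 14) (.e (nat_lit 466976) (nat_lit 22) (.e (nat_lit 196661) (nat_lit 12) (.e (nat_lit 65280) (nat_lit 177) .nil)))))) (.g (nat_lit 4) .nil .nil))) 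
(.lf (nat_lit 187322) (.g (nat_lit 1046) (.e (nat_lit 57902) (nat_lit 277) (.e (nat_lit 131138) (nat_lit 27) (.e (nat_lit 426234) (nat_lit 9) (.e (nat_lit 426443) (nat_lit 19) (.e (nat_lit 106556) (nat_lit 15) (.e (nat_lit 57813) (nat_lit 246) .nil)))))) (.g (nat_lit 0) .nil .nil)))))) (.nd (nat_lit 3) (.nd (nat_lit 4) (.nd (nat_lit 5) 
(.lf (nat_lit 187270) (.g (nat_lit 651) (.e (nat_lit 65280) (nat_lit 275) (.e (nat_lit 73731) (nat_lit 0) (.e (nat_lit 7266) (nat_lit 384) (.e (nat_lit 57423) (nat_lit 14) .nil)))) .nil)) 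
(.lf (nat_lit 187302) (.g (nat_lit 1204) (.e (nat_lit 57902) (nat_lit 277) (.e (nat_lit 131086) (nat_lit 1) (.e (nat_lit 57683) (nat_lit 155) (.e (nat_lit 122914) (nat_lit 14) (.e (nat_lit 352257) (nat_lit 0) .nil))))) .nil))) (.nd (nat_lit 5) 
(.lf (nat_lit 187286) (.g (nat_lit 697) (.e (nat_lit 57900) (nat_lit 276) (.e (nat_lit 122936) (nat_lit 23) (.e (nat_lit 516165) (nat_lit 12) (.e (nat_lit 450579) (nat_lit 5) .nil)))) .nil)) 
(.lf (nat_lit 187318) (.g (nat_lit 1010) (.e (nat_lit 57902) (nat_lit 277) (.e (nat_lit 131138) (nat_lit 27) (.e (nat_lit 426230) (nat_lit 9) (.e (nat_lit 426443) (nat_lit 19) (.e (nat_lit 106556) (nat_lit 15) (.e (nat_lit 57811) (nat_lit 246) .nil)))))) (.g (nat_lit 0) .nil .nil))))) (.nd (nat_lit 4) (.nd (nat_lit 5) 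
(.lf (nat_lit 187278) (.g (nat_lit 1181) (.e (nat_lit 57900) (nat_lit 276) (.e (nat_lit 122936) (nat_lit 23) (.e (nat_lit 516146) (nat_lit 9) (.e (nat_lit 426241) (nat_lit 9) .nil)))) .nil)) 
(.lf (nat_lit 187310) (.g (nat_lit 4103) (.e (nat_lit 57902) (nat_lit 277) (.e (nat_lit 131091) (nat_lit 2) (.e (nat_lit 90185) (nat_lit 17) (.e (nat_lit 237582) (nat_lit 1) (.e (nat_lit 164332) (nat_lit 230) (.e (nat_lit 163869) (nat_lit 2) (.e (nat_lit 204544) (nat_lit 19) .nil))))))) (.g (nat_lit 6) .nil .nil)))) (.nd (nat_lit 5) 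
(.lf (nat_lit 187294) (.g (nat_lit 1958) (.e (nat_lit 57900) (nat_lit 276) (.e (nat_lit 122936) (nat_lit 23) (.e (nat_lit 516176) (nat_lit 14) (.e (nat_lit 466977) (nat_lit 22) (.e (nat_lit 196677) (nat_lit 16) (.e (nat_lit 130816) (nat_lit 177) .nil)))))) (.g (nat_lit 5) .nil .nil))) 
(.lf (nat_lit 187326) (.g (nat_lit 652) (.e (nat_lit 57902) (nat_lit 277) (.e (nat_lit 131138) (nat_lit 27) (.e (nat_lit 426262) (nat_lit 9) (.e (nat_lit 426441) (nat_lit 19) (.e (nat_lit 106556) (nat_lit 15) (.e (nat_lit 57816) (nat_lit 246) .nil)))))) (.g (nat_lit 4) .nil .nil)))))))) (.nd (nat_lit 1) (.nd (nat_lit 2) (.nd (nat_lit 3) (.nd (nat_lit 4) (.nd (nat_lit 5) 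
(.lf (nat_lit 187265) (.g (nat_lit 1853) (.e (nat_lit 57898) (nat_lit 275) (.e (nat_lit 73775) (nat_lit 26) (.e (nat_lit 778362) (nat_lit 9) (.e (nat_lit 314) (nat_lit 23) (.e (nat_lit 360192) (nat_lit 0) .nil))))) .nil)) 
(.lf (nat_lit 187297) (.g (nat_lit 1661) (.e (nat_lit 57900) (nat_lit 276) (.e (nat_lit 122936) (nat_lit 23) (.e (nat_lit 516176) (nat_lit 14) (.e (nat_lit 466981) (nat_lit 23) (.e (nat_lit 204814) (nat_lit 17) .nil))))) .nil))) (.nd (nat_lit 5) 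
(.lf (nat_lit 187281) (.g (nat_lit 1084) (.e (nat_lit 57900) (nat_lit 276) (.e (nat_lit 122936) (nat_lit 23) (.e (nat_lit 516146) (nat_lit 9) (.e (nat_lit 426294) (nat_lit 11) .nil)))) .nil)) 
(.lf (nat_lit 187313) (.g (nat_lit 4013) (.e (nat_lit 57902) (nat_lit 277) (.e (nat_lit 131094) (nat_lit 2) (.e (nat_lit 90185) (nat_lit 17) (.e (nat_lit 237585) (nat_lit 1) (.e (nat_lit 164332) (nat_lit 230) (.e (nat_lit 163869) (nat_lit 2) (.e (nat_lit 204544) (nat_lit 19) .nil))))))) (.g (nat_lit 6) .nil .nil))))) (.nd (nat_lit 4) (.nd (nat_lit 5) 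
(.lf (nat_lit 187273) (.g (nat_lit 2324) (.e (nat_lit 57899) (nat_lit 276) (.e (nat_lit 122936) (nat_lit 23) (.e (nat_lit 516176) (nat_lit 14) (.e (nat_lit 466977) (nat_lit 22) (.e (nat_lit 196677) (nat_lit 16) (.e (nat_lit 123080) (nat_lit 177) .nil)))))) (.g (nat_lit 6) .nil .nil))) 
(.lf (nat_lit 187305) (.g (nat_lit 943) (.e (nat_lit 57902) (nat_lit 277) (.e (nat_lit 131086) (nat_lit 1) (.e (nat_lit 57684) (nat_lit 155) (.e (nat_lit 122914) (nat_lit 14) (.e (nat_lit 352257) (nat_lit 0) .nil))))) .nil))) (.nd (nat_lit 5) 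
(.lf (nat_lit 187289) (.g (nat_lit 1385) (.e (nat_lit 57900) (nat_lit 276) (.e (nat_lit 122936) (nat_lit 23) (.e (nat_lit 516176) (nat_lit 14) (.e (nat_lit 466976) (nat_lit 22) (.e (nat_lit 196622) (nat_lit 9) .nil))))) .nil)) 
(.lf (nat_lit 187321) (.g (nat_lit 1071) (.e (nat_lit 57902) (nat_lit 277) (.e (nat_lit 131138) (nat_lit 27) (.e (nat_lit 426234) (nat_lit 9) (.e (nat_lit 426443) (nat_lit 19) (.e (nat_lit 106556) (nat_lit 15) (.e (nat_lit 57811) (nat_lit 246) .nil)))))) (.g (nat_lit 0) .nil .nil)))))) (.nd (nat_lit 3) (.nd (nat_lit 4) (.nd (nat_lit 5) 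
(.lf (nat_lit 187269) (.g (nat_lit 569) (.e (nat_lit 65280) (nat_lit 275) (.e (nat_lit 73729) (nat_lit 0) (.e (nat_lit 7266) (nat_lit 384) (.e (nat_lit 57423) (nat_lit 14) .nil)))) .nil)) 
(.lf (nat_lit 187301) (.g (nat_lit 1367) (.e (nat_lit 57900) (nat_lit 276) (.e (nat_lit 122936) (nat_lit 23) (.e (nat_lit 516177) (nat_lit 14) (.e (nat_lit 466977) (nat_lit 22) (.e (nat_lit 196619) (nat_lit 9) (.e (nat_lit 1103) (nat_lit 81) (.e (nat_lit 6209) (nat_lit 333) .nil))))))) (.g (nat_lit 4) .nil .nil)))) (.nd (nat_lit 5) 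
(.lf (nat_lit 187285) (.g (nat_lit 1483) (.e (nat_lit 57900) (nat_lit 276) (.e (nat_lit 122936) (nat_lit 23) (.e (nat_lit 516163) (nat_lit 11) (.e (nat_lit 442427) (nat_lit 23) (.e (nat_lit 204821) (nat_lit 17) (.e (nat_lit 7936) (nat_lit 333) .nil)))))) (.g (nat_lit 4) .nil .nil))) 
(.lf (nat_lit 187317) (.g (nat_lit 1013) (.e (nat_lit 57902) (nat_lit 277) (.e (nat_lit 131138) (nat_lit 27) (.e (nat_lit 426230) (nat_lit 9) (.e (nat_lit 426443) (nat_lit 19) (.e (nat_lit 106556) (nat_lit 15) (.e (nat_lit 57809) (nat_lit 246) .nil)))))) (.g (nat_lit 0) .nil .nil))))) (.nd (nat_lit 4) (.nd (nat_lit 5) 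
(.lf (nat_lit 187277) (.g (nat_lit 1181) (.e (nat_lit 57900) (nat_lit 276) (.e (nat_lit 122936) (nat_lit 23) (.e (nat_lit 516146) (nat_lit 9) (.e (nat_lit 426238) (nat_lit 9) .nil)))) .nil)) 
(.lf (nat_lit 187309) (.g (nat_lit 474) (.e (nat_lit 57902) (nat_lit 277) (.e (nat_lit 131089) (nat_lit 1) (.e (nat_lit 57665) (nat_lit 152) (.e (nat_lit 7936) (nat_lit 90) .nil)))) .nil))) (.nd (nat_lit 5) 
(.lf (nat_lit 187293) (.g (nat_lit 2324) (.e (nat_lit 57900) (nat_lit 276) (.e (nat_lit 122936) (nat_lit 23) (.e (nat_lit 516176) (nat_lit 14) (.e (nat_lit 466977) (nat_lit 22) (.e (nat_lit 196677) (nat_lit 16) (.e (nat_lit 123079) (nat_lit 177) .nil)))))) (.g (nat_lit 6) .nil .nil))) 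
(.lf (nat_lit 187325) (.g (nat_lit 998) (.e (nat_lit 57902) (nat_lit 277) (.e (nat_lit 131138) (nat_lit 27) (.e (nat_lit 426260) (nat_lit 9) (.e (nat_lit 426443) (nat_lit 19) (.e (nat_lit 106556) (nat_lit 15) (.e (nat_lit 57813) (nat_lit 246) .nil)))))) (.g (nat_lit 0) .nil .nil))))))) (.nd (nat_lit 2) (.nd (nat_lit 3) (.nd (nat_lit 4) (.nd (nat_lit 5) 
(.lf (nat_lit 187267) (.g (nat_lit 2313) (.e (nat_lit 57898) (nat_lit 275) (.e (nat_lit 73775) (nat_lit 26) (.e (nat_lit 778465) (nat_lit 11) (.e (nat_lit 24665) (nat_lit 14) (.e (nat_lit 401465) (nat_lit 15) .nil))))) .nil)) 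
(.lf (nat_lit 187299) (.g (nat_lit 1791) (.e (nat_lit 57900) (nat_lit 276) (.e (nat_lit 122936) (nat_lit 23) (.e (nat_lit 516176) (nat_lit 14) (.e (nat_lit 466981) (nat_lit 23) (.e (nat_lit 204821) (nat_lit 17) (.e (nat_lit 7936) (nat_lit 333) .nil)))))) (.g (nat_lit 4) .nil .nil)))) (.nd (nat_lit 5) 
(.lf (nat_lit 187283) (.g (nat_lit 1224) (.e (nat_lit 57900) (nat_lit 276) (.e (nat_lit 122936) (nat_lit 23) (.e (nat_lit 516150) (nat_lit 9) (.e (nat_lit 426294) (nat_lit 11) (.e (nat_lit 466688) (nat_lit 19) (.e (nat_lit 500056) (nat_lit 17) (.e (nat_lit 65280) (nat_lit 177) .nil))))))) (.g (nat_lit 6) .nil .nil))) 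
(.lf (nat_lit 187315) (.g (nat_lit 987) (.e (nat_lit 57902) (nat_lit 277) (.e (nat_lit 131096) (nat_lit 3) (.e (nat_lit 98389) (nat_lit 33) (.e (nat_lit 491546) (nat_lit 9) (.e (nat_lit 336013) (nat_lit 2) (.e (nat_lit 98048) (nat_lit 19) .nil)))))) (.g (nat_lit 5) .nil .nil))))) (.nd (nat_lit 4) (.nd (nat_lit 5) 
(.lf (nat_lit 187275) (.g (nat_lit 782) (.e (nat_lit 57900) (nat_lit 276) (.e (nat_lit 122936) (nat_lit 23) (.e (nat_lit 516131) (nat_lit 3) (.e (nat_lit 221219) (nat_lit 24) .nil)))) .nil)) 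
(.lf (nat_lit 187307) (.g (nat_lit 849) (.e (nat_lit 57902) (nat_lit 277) (.e (nat_lit 131088) (nat_lit 1) (.e (nat_lit 57684) (nat_lit 155) (.e (nat_lit 122914) (nat_lit 14) (.e (nat_lit 352257) (nat_lit 0) .nil))))) .nil))) (.nd (nat_lit 5) 
(.lf (nat_lit 187291) (.g (nat_lit 1013) (.e (nat_lit 57900) (nat_lit 276) (.e (nat_lit 122936) (nat_lit 23) (.e (nat_lit 516176) (nat_lit 14) (.e (nat_lit 466977) (nat_lit 22) .nil)))) .nil)) 
(.lf (nat_lit 187323) (.g (nat_lit 1025) (.e (nat_lit 57902) (nat_lit 277) (.e (nat_lit 131138) (nat_lit 27) (.e (nat_lit 426260) (nat_lit 9) (.e (nat_lit 426443) (nat_lit 19) (.e (nat_lit 106556) (nat_lit 15) (.e (nat_lit 57809) (nat_lit 246) .nil)))))) (.g (nat_lit 0) .nil .nil)))))) (.nd (nat_lit 3) (.nd (nat_lit 4) (.nd (nat_lit 5) 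
(.lf (nat_lit 187271) (.g (nat_lit 971) (.e (nat_lit 65280) (nat_lit 275) (.e (nat_lit 73775) (nat_lit 26) (.e (nat_lit 778362) (nat_lit 9) (.e (nat_lit 312) (nat_lit 23) .nil)))) .nil)) 
(.lf (nat_lit 187303) (.g (nat_lit 1249) (.e (nat_lit 57902) (nat_lit 277) (.e (nat_lit 131086) (nat_lit 1) (.e (nat_lit 57683) (nat_lit 155) (.e (nat_lit 122914) (nat_lit 14) (.e (nat_lit 352257) (nat_lit 0) (.e (nat_lit 7077) (nat_lit 378) .nil)))))) (.g (nat_lit 4) .nil .nil)))) (.nd (nat_lit 5) 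
(.lf (nat_lit 187287) (.g (nat_lit 4765) (.e (nat_lit 57900) (nat_lit 276) (.e (nat_lit 122936) (nat_lit 23) (.e (nat_lit 516166) (nat_lit 12) (.e (nat_lit 450588) (nat_lit 10) (.e (nat_lit 573452) (nat_lit 9) (.e (nat_lit 13) (nat_lit 0) (.e (nat_lit 7081) (nat_lit 378) .nil))))))) (.g (nat_lit 4) .nil .nil))) 
(.lf (nat_lit 187319) (.g (nat_lit 985) (.e (nat_lit 57902) (nat_lit 277) (.e (nat_lit 131138) (nat_lit 27) (.e (nat_lit 426230) (nat_lit 9) (.e (nat_lit 426443) (nat_lit 19) (.e (nat_lit 106556) (nat_lit 15) (.e (nat_lit 57813) (nat_lit 246) .nil)))))) (.g (nat_lit 0) .nil .nil))))) (.nd (nat_lit 4) (.nd (nat_lit 5) 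
(.lf (nat_lit 187279) (.g (nat_lit 1181) (.e (nat_lit 57900) (nat_lit 276) (.e (nat_lit 122936) (nat_lit 23) (.e (nat_lit 516146) (nat_lit 9) (.e (nat_lit 426255) (nat_lit 9) .nil)))) .nil)) 
(.lf (nat_lit 187311) (.g (nat_lit 4057) (.e (nat_lit 57902) (nat_lit 277) (.e (nat_lit 131091) (nat_lit 2) (.e (nat_lit 90185) (nat_lit 17) (.e (nat_lit 237585) (nat_lit 1) (.e (nat_lit 164332) (nat_lit 230) (.e (nat_lit 163869) (nat_lit 2) (.e (nat_lit 204544) (nat_lit 19) .nil))))))) (.g (nat_lit 6) .nil .nil)))) (.nd (nat_lit 5) 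
(.lf (nat_lit 187295) (.g (nat_lit 1287) (.e (nat_lit 57900) (nat_lit 276) (.e (nat_lit 122936) (nat_lit 23) (.e (nat_lit 516176) (nat_lit 14) (.e (nat_lit 466979) (nat_lit 23) .nil)))) .nil)) 
(.lf (nat_lit 187327) (.g (nat_lit 1040) (.e (nat_lit 57902) (nat_lit 277) (.e (nat_lit 131138) (nat_lit 27) (.e (nat_lit 426262) (nat_lit 9) (.e (nat_lit 426443) (nat_lit 19) (.e (nat_lit 106556) (nat_lit 15) (.e (nat_lit 57809) (nat_lit 246) .nil)))))) (.g (nat_lit 0) .nil .nil)))))))))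

noncomputable def tv2488 : DT := (.nd (nat_lit 0) (.nd (nat_lit 1) (.nd (nat_lit 2) (.nd (nat_lit 3) (.nd (nat_lit 4) (.nd (nat_lit 5) 
(.lf (nat_lit 187328) (.g (nat_lit 1037) (.e (nat_lit 57902) (nat_lit 277) (.e (nat_lit 131138) (nat_lit 27) (.e (nat_lit 426262) (nat_lit 9) (.e (nat_lit 426443) (nat_lit 19) (.e (nat_lit 106556) (nat_lit 15) (.e (nat_lit 57811) (nat_lit 246) .nil)))))) (.g (nat_lit 0) .nil .nil))) 
(.lf (nat_lit 187360) (.g (nat_lit 1724) (.e (nat_lit 57902) (nat_lit 277) (.e (nat_lit 131140) (nat_lit 27) (.e (nat_lit 426190) (nat_lit 9) (.e (nat_lit 426444) (nat_lit 19) (.e (nat_lit 106556) (nat_lit 15) (.e (nat_lit 57813) (nat_lit 246) .nil)))))) (.g (nat_lit 0) .nil .nil)))) (.nd (nat_lit 5) 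
(.lf (nat_lit 187344) (.g (nat_lit 1401) (.e (nat_lit 57902) (nat_lit 277) (.e (nat_lit 131140) (nat_lit 27) (.e (nat_lit 426188) (nat_lit 9) (.e (nat_lit 426366) (nat_lit 15) (.e (nat_lit 2100) (nat_lit 142) .nil))))) .nil)) 
(.lf (nat_lit 187376) (.g (nat_lit 1207) (.e (nat_lit 57902) (nat_lit 277) (.e (nat_lit 131140) (nat_lit 27) (.e (nat_lit 426199) (nat_lit 9) (.e (nat_lit 426442) (nat_lit 19) (.e (nat_lit 106556) (nat_lit 15) (.e (nat_lit 57814) (nat_lit 246) .nil)))))) (.g (nat_lit 4) .nil .nil))))) (.nd (nat_lit 4) (.nd (nat_lit 5) 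
(.lf (nat_lit 187336) (.g (nat_lit 2063) (.e (nat_lit 57902) (nat_lit 277) (.e (nat_lit 131140) (nat_lit 27) (.e (nat_lit 426172) (nat_lit 7) (.e (nat_lit 409645) (nat_lit 18) (.e (nat_lit 303149) (nat_lit 15) .nil))))) .nil)) 
(.lf (nat_lit 187368) (.g (nat_lit 1045) (.e (nat_lit 57902) (nat_lit 277) (.e (nat_lit 131140) (nat_lit 27) (.e (nat_lit 426196) (nat_lit 9) (.e (nat_lit 426444) (nat_lit 19) (.e (nat_lit 106556) (nat_lit 15) (.e (nat_lit 57814) (nat_lit 246) .nil)))))) (.g (nat_lit 4) .nil .nil)))) (.nd (nat_lit 5) 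
(.lf (nat_lit 187352) (.g (nat_lit 951) (.e (nat_lit 57902) (nat_lit 277) (.e (nat_lit 131140) (nat_lit 27) (.e (nat_lit 426189) (nat_lit 9) (.e (nat_lit 426442) (nat_lit 19) (.e (nat_lit 106556) (nat_lit 15) .nil))))) .nil)) 
(.lf (nat_lit 187384) (.g (nat_lit 1835) (.e (nat_lit 57902) (nat_lit 277) (.e (nat_lit 131140) (nat_lit 27) (.e (nat_lit 426200) (nat_lit 9) (.e (nat_lit 426444) (nat_lit 19) (.e (nat_lit 106556) (nat_lit 15) (.e (nat_lit 57813) (nat_lit 246) .nil)))))) (.g (nat_lit 0) .nil .nil)))))) (.nd (nat_lit 3) (.nd (nat_lit 4) (.nd (nat_lit 5) 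
(.lf (nat_lit 187332) (.g (nat_lit 1944) (.e (nat_lit 57902) (nat_lit 277) (.e (nat_lit 131140) (nat_lit 27) (.e (nat_lit 426011) (nat_lit 0) (.e (nat_lit 7589) (nat_lit 406) (.e (nat_lit 65632) (nat_lit 15) (.e (nat_lit 7082) (nat_lit 378) .nil)))))) (.g (nat_lit 0) .nil .nil))) 
(.lf (nat_lit 187364) (.g (nat_lit 1019) (.e (nat_lit 57902) (nat_lit 277) (.e (nat_lit 131140) (nat_lit 27) (.e (nat_lit 426196) (nat_lit 9) (.e (nat_lit 426444) (nat_lit 19) (.e (nat_lit 106556) (nat_lit 15) (.e (nat_lit 57809) (nat_lit 246) .nil)))))) (.g (nat_lit 4) .nil .nil)))) (.nd (nat_lit 5) 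
(.lf (nat_lit 187348) (.g (nat_lit 1144) (.e (nat_lit 57902) (nat_lit 277) (.e (nat_lit 131140) (nat_lit 27) (.e (nat_lit 426188) (nat_lit 9) (.e (nat_lit 426440) (nat_lit 19) .nil)))) .nil)) 
(.lf (nat_lit 187380) (.g (nat_lit 1622) (.e (nat_lit 57902) (nat_lit 277) (.e (nat_lit 131140) (nat_lit 27) (.e (nat_lit 426200) (nat_lit 9) (.e (nat_lit 426442) (nat_lit 19) (.e (nat_lit 106556) (nat_lit 15) (.e (nat_lit 57810) (nat_lit 246) .nil)))))) (.g (nat_lit 4) .nil .nil))))) (.nd (nat_lit 4) (.nd (nat_lit 5) 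
(.lf (nat_lit 187340) (.g (nat_lit 429) (.e (nat_lit 57902) (nat_lit 277) (.e (nat_lit 131140) (nat_lit 27) (.e (nat_lit 426187) (nat_lit 9) .nil))) .nil)) 
(.lf (nat_lit 187372) (.g (nat_lit 328) (.e (nat_lit 57902) (nat_lit 277) (.e (nat_lit 131140) (nat_lit 27) (.e (nat_lit 426199) (nat_lit 9) .nil))) .nil))) (.nd (nat_lit 5) 
(.lf (nat_lit 187356) (.g (nat_lit 1038) (.e (nat_lit 57902) (nat_lit 277) (.e (nat_lit 131140) (nat_lit 27) (.e (nat_lit 426189) (nat_lit 9) (.e (nat_lit 426442) (nat_lit 19) (.e (nat_lit 106556) (nat_lit 15) (.e (nat_lit 57815) (nat_lit 246) .nil)))))) (.g (nat_lit 4) .nil .nil))) 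
(.lf (nat_lit 187388) (.g (nat_lit 224) (.e (nat_lit 57902) (nat_lit 277) (.e (nat_lit 131140) (nat_lit 27) (.e (nat_lit 426306) (nat_lit 12) .nil))) .nil)))))) (.nd (nat_lit 2) (.nd (nat_lit 3) (.nd (nat_lit 4) (.nd (nat_lit 5) 
(.lf (nat_lit 187330) (.g (nat_lit 1127) (.e (nat_lit 57902) (nat_lit 277) (.e (nat_lit 131140) (nat_lit 27) (.e (nat_lit 426009) (nat_lit 0) (.e (nat_lit 7587) (nat_lit 406) (.e (nat_lit 65632) (nat_lit 15) .nil))))) .nil)) 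
(.lf (nat_lit 187362) (.g (nat_lit 993) (.e (nat_lit 57902) (nat_lit 277) (.e (nat_lit 131140) (nat_lit 27) (.e (nat_lit 426196) (nat_lit 9) (.e (nat_lit 426444) (nat_lit 19) (.e (nat_lit 106556) (nat_lit 15) .nil))))) .nil))) (.nd (nat_lit 5) 
(.lf (nat_lit 187346) (.g (nat_lit 1769) (.e (nat_lit 57902) (nat_lit 277) (.e (nat_lit 131140) (nat_lit 27) (.e (nat_lit 426188) (nat_lit 9) (.e (nat_lit 426439) (nat_lit 19) (.e (nat_lit 106556) (nat_lit 15) (.e (nat_lit 57810) (nat_lit 246) .nil)))))) (.g (nat_lit 6) .nil .nil))) 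
(.lf (nat_lit 187378) (.g (nat_lit 1307) (.e (nat_lit 57902) (nat_lit 277) (.e (nat_lit 131140) (nat_lit 27) (.e (nat_lit 426199) (nat_lit 9) (.e (nat_lit 426442) (nat_lit 19) (.e (nat_lit 106556) (nat_lit 15) (.e (nat_lit 57816) (nat_lit 246) .nil)))))) (.g (nat_lit 4) .nil .nil))))) (.nd (nat_lit 4) (.nd (nat_lit 5) 
(.lf (nat_lit 187338) (.g (nat_lit 369) (.e (nat_lit 57902) (nat_lit 277) (.e (nat_lit 131140) (nat_lit 27) (.e (nat_lit 426186) (nat_lit 9) .nil))) .nil)) 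
(.lf (nat_lit 187370) (.g (nat_lit 1715) (.e (nat_lit 57902) (nat_lit 277) (.e (nat_lit 131140) (nat_lit 27) (.e (nat_lit 426198) (nat_lit 9) (.e (nat_lit 426444) (nat_lit 19) (.e (nat_lit 106556) (nat_lit 15) (.e (nat_lit 57813) (nat_lit 246) .nil)))))) (.g (nat_lit 0) .nil .nil)))) (.nd (nat_lit 5) 
(.lf (nat_lit 187354) (.g (nat_lit 1008) (.e (nat_lit 57902) (nat_lit 277) (.e (nat_lit 131140) (nat_lit 27) (.e (nat_lit 426189) (nat_lit 9) (.e (nat_lit 426442) (nat_lit 19) (.e (nat_lit 106556) (nat_lit 15) (.e (nat_lit 57810) (nat_lit 246) .nil)))))) (.g (nat_lit 4) .nil .nil))) 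
(.lf (nat_lit 187386) (.g (nat_lit 414) (.e (nat_lit 57902) (nat_lit 277) (.e (nat_lit 131140) (nat_lit 27) (.e (nat_lit 426258) (nat_lit 9) .nil))) .nil))))) (.nd (nat_lit 3) (.nd (nat_lit 4) (.nd (nat_lit 5) 
(.lf (nat_lit 187334) (.g (nat_lit 379) (.e (nat_lit 57902) (nat_lit 277) (.e (nat_lit 131140) (nat_lit 27) (.e (nat_lit 426070) (nat_lit 0) .nil))) .nil)) 
(.lf (nat_lit 187366) (.g (nat_lit 998) (.e (nat_lit 57902) (nat_lit 277) (.e (nat_lit 131140) (nat_lit 27) (.e (nat_lit 426196) (nat_lit 9) (.e (nat_lit 426444) (nat_lit 19) (.e (nat_lit 106556) (nat_lit 15) (.e (nat_lit 57811) (nat_lit 246) .nil)))))) (.g (nat_lit 4) .nil .nil)))) (.nd (nat_lit 5) 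
(.lf (nat_lit 187350) (.g (nat_lit 1918) (.e (nat_lit 57902) (nat_lit 277) (.e (nat_lit 131140) (nat_lit 27) (.e (nat_lit 426188) (nat_lit 9) (.e (nat_lit 426444) (nat_lit 19) (.e (nat_lit 106556) (nat_lit 15) (.e (nat_lit 57813) (nat_lit 246) .nil)))))) (.g (nat_lit 0) .nil .nil))) 
(.lf (nat_lit 187382) (.g (nat_lit 1652) (.e (nat_lit 57902) (nat_lit 277) (.e (nat_lit 131140) (nat_lit 27) (.e (nat_lit 426200) (nat_lit 9) (.e (nat_lit 426442) (nat_lit 19) (.e (nat_lit 106556) (nat_lit 15) (.e (nat_lit 57815) (nat_lit 246) .nil)))))) (.g (nat_lit 4) .nil .nil))))) (.nd (nat_lit 4) (.nd (nat_lit 5) 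
(.lf (nat_lit 187342) (.g (nat_lit 1110) (.e (nat_lit 57902) (nat_lit 277) (.e (nat_lit 131140) (nat_lit 27) (.e (nat_lit 426188) (nat_lit 9) (.e (nat_lit 426359) (nat_lit 15) .nil)))) .nil)) 
(.lf (nat_lit 187374) (.g (nat_lit 1289) (.e (nat_lit 57902) (nat_lit 277) (.e (nat_lit 131140) (nat_lit 27) (.e (nat_lit 426199) (nat_lit 9) (.e (nat_lit 426442) (nat_lit 19) (.e (nat_lit 106556) (nat_lit 15) (.e (nat_lit 57810) (nat_lit 246) .nil)))))) (.g (nat_lit 4) .nil .nil)))) (.nd (nat_lit 5) 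
(.lf (nat_lit 187358) (.g (nat_lit 1331) (.e (nat_lit 57902) (nat_lit 277) (.e (nat_lit 131140) (nat_lit 27) (.e (nat_lit 426189) (nat_lit 9) (.e (nat_lit 426444) (nat_lit 19) (.e (nat_lit 106556) (nat_lit 15) (.e (nat_lit 57811) (nat_lit 246) .nil)))))) (.g (nat_lit 5) .nil .nil))) 
(.lf (nat_lit 187390) (.g (nat_lit 1267) (.e (nat_lit 57902) (nat_lit 277) (.e (nat_lit 131140) (nat_lit 27) (.e (nat_lit 426306) (nat_lit 12) (.e (nat_lit 475200) (nat_lit 40) (.e (nat_lit 704841) (nat_lit 15) .nil))))) .nil))))))) (.nd (nat_lit 1) (.nd (nat_lit 2) (.nd (nat_lit 3) (.nd (nat_lit 4) (.nd (nat_lit 5) 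
(.lf (nat_lit 187329) (.g (nat_lit 1011) (.e (nat_lit 57902) (nat_lit 277) (.e (nat_lit 131138) (nat_lit 27) (.e (nat_lit 426262) (nat_lit 9) (.e (nat_lit 426443) (nat_lit 19) (.e (nat_lit 106556) (nat_lit 15) (.e (nat_lit 57813) (nat_lit 246) .nil)))))) (.g (nat_lit 0) .nil .nil))) 
(.lf (nat_lit 187361) (.g (nat_lit 1705) (.e (nat_lit 57902) (nat_lit 277) (.e (nat_lit 131140) (nat_lit 27) (.e (nat_lit 426190) (nat_lit 9) (.e (nat_lit 426444) (nat_lit 19) (.e (nat_lit 106556) (nat_lit 15) (.e (nat_lit 57816) (nat_lit 246) .nil)))))) (.g (nat_lit 0) .nil .nil)))) (.nd (nat_lit 5) 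
(.lf (nat_lit 187345) (.g (nat_lit 1191) (.e (nat_lit 57902) (nat_lit 277) (.e (nat_lit 131140) (nat_lit 27) (.e (nat_lit 426188) (nat_lit 9) (.e (nat_lit 426371) (nat_lit 15) .nil)))) .nil)) 
(.lf (nat_lit 187377) (.g (nat_lit 1319) (.e (nat_lit 57902) (nat_lit 277) (.e (nat_lit 131140) (nat_lit 27) (.e (nat_lit 426199) (nat_lit 9) (.e (nat_lit 426442) (nat_lit 19) (.e (nat_lit 106556) (nat_lit 15) (.e (nat_lit 57815) (nat_lit 246) .nil)))))) (.g (nat_lit 4) .nil .nil))))) (.nd (nat_lit 4) (.nd (nat_lit 5) 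
(.lf (nat_lit 187337) (.g (nat_lit 1747) (.e (nat_lit 57902) (nat_lit 277) (.e (nat_lit 131140) (nat_lit 27) (.e (nat_lit 426172) (nat_lit 7) (.e (nat_lit 409649) (nat_lit 18) (.e (nat_lit 303149) (nat_lit 15) .nil))))) .nil)) 
(.lf (nat_lit 187369) (.g (nat_lit 1048) (.e (nat_lit 57902) (nat_lit 277) (.e (nat_lit 131140) (nat_lit 27) (.e (nat_lit 426196) (nat_lit 9) (.e (nat_lit 426444) (nat_lit 19) (.e (nat_lit 106556) (nat_lit 15) (.e (nat_lit 57815) (nat_lit 246) .nil)))))) (.g (nat_lit 4) .nil .nil)))) (.nd (nat_lit 5) 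
(.lf (nat_lit 187353) (.g (nat_lit 1054) (.e (nat_lit 57902) (nat_lit 277) (.e (nat_lit 131140) (nat_lit 27) (.e (nat_lit 426189) (nat_lit 9) (.e (nat_lit 426442) (nat_lit 19) (.e (nat_lit 106556) (nat_lit 15) (.e (nat_lit 57809) (nat_lit 246) .nil)))))) (.g (nat_lit 4) .nil .nil))) 
(.lf (nat_lit 187385) (.g (nat_lit 1819) (.e (nat_lit 57902) (nat_lit 277) (.e (nat_lit 131140) (nat_lit 27) (.e (nat_lit 426200) (nat_lit 9) (.e (nat_lit 426444) (nat_lit 19) (.e (nat_lit 106556) (nat_lit 15) (.e (nat_lit 57816) (nat_lit 246) .nil)))))) (.g (nat_lit 0) .nil .nil)))))) (.nd (nat_lit 3) (.nd (nat_lit 4) (.nd (nat_lit 5) 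
(.lf (nat_lit 187333) (.g (nat_lit 479) (.e (nat_lit 57902) (nat_lit 277) (.e (nat_lit 131140) (nat_lit 27) (.e (nat_lit 426035) (nat_lit 0) (.e (nat_lit 7936) (nat_lit 406) .nil)))) .nil)) 
(.lf (nat_lit 187365) (.g (nat_lit 1042) (.e (nat_lit 57902) (nat_lit 277) (.e (nat_lit 131140) (nat_lit 27) (.e (nat_lit 426196) (nat_lit 9) (.e (nat_lit 426444) (nat_lit 19) (.e (nat_lit 106556) (nat_lit 15) (.e (nat_lit 57810) (nat_lit 246) .nil)))))) (.g (nat_lit 4) .nil .nil)))) (.nd (nat_lit 5) 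
(.lf (nat_lit 187349) (.g (nat_lit 1933) (.e (nat_lit 57902) (nat_lit 277) (.e (nat_lit 131140) (nat_lit 27) (.e (nat_lit 426188) (nat_lit 9) (.e (nat_lit 426442) (nat_lit 19) (.e (nat_lit 106556) (nat_lit 15) (.e (nat_lit 57815) (nat_lit 246) .nil)))))) (.g (nat_lit 6) .nil .nil))) 
(.lf (nat_lit 187381) (.g (nat_lit 1542) (.e (nat_lit 57902) (nat_lit 277) (.e (nat_lit 131140) (nat_lit 27) (.e (nat_lit 426200) (nat_lit 9) (.e (nat_lit 426442) (nat_lit 19) (.e (nat_lit 106556) (nat_lit 15) (.e (nat_lit 57814) (nat_lit 246) .nil)))))) (.g (nat_lit 4) .nil .nil))))) (.nd (nat_lit 4) (.nd (nat_lit 5) 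
(.lf (nat_lit 187341) (.g (nat_lit 268) (.e (nat_lit 57902) (nat_lit 277) (.e (nat_lit 131140) (nat_lit 27) (.e (nat_lit 426188) (nat_lit 9) .nil))) .nil)) 
(.lf (nat_lit 187373) (.g (nat_lit 1204) (.e (nat_lit 57902) (nat_lit 277) (.e (nat_lit 131140) (nat_lit 27) (.e (nat_lit 426199) (nat_lit 9) (.e (nat_lit 426442) (nat_lit 19) (.e (nat_lit 106556) (nat_lit 15) (.e (nat_lit 57808) (nat_lit 246) .nil)))))) (.g (nat_lit 4) .nil .nil)))) (.nd (nat_lit 5) 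
(.lf (nat_lit 187357) (.g (nat_lit 1026) (.e (nat_lit 57902) (nat_lit 277) (.e (nat_lit 131140) (nat_lit 27) (.e (nat_lit 426189) (nat_lit 9) (.e (nat_lit 426442) (nat_lit 19) (.e (nat_lit 106556) (nat_lit 15) (.e (nat_lit 57816) (nat_lit 246) .nil)))))) (.g (nat_lit 4) .nil .nil))) 
(.lf (nat_lit 187389) (.g (nat_lit 901) (.e (nat_lit 57902) (nat_lit 277) (.e (nat_lit 131140) (nat_lit 27) (.e (nat_lit 426306) (nat_lit 12) (.e (nat_lit 475195) (nat_lit 40) .nil)))) .nil)))))) (.nd (nat_lit 2) (.nd (nat_lit 3) (.nd (nat_lit 4) (.nd (nat_lit 5) 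
(.lf (nat_lit 187331) (.g (nat_lit 227) (.e (nat_lit 57902) (nat_lit 277) (.e (nat_lit 131140) (nat_lit 27) (.e (nat_lit 426011) (nat_lit 0) .nil))) .nil)) 
(.lf (nat_lit 187363) (.g (nat_lit 1027) (.e (nat_lit 57902) (nat_lit 277) (.e (nat_lit 131140) (nat_lit 27) (.e (nat_lit 426196) (nat_lit 9) (.e (nat_lit 426444) (nat_lit 19) (.e (nat_lit 106556) (nat_lit 15) (.e (nat_lit 57808) (nat_lit 246) .nil)))))) (.g (nat_lit 4) .nil .nil)))) (.nd (nat_lit 5) 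
(.lf (nat_lit 187347) (.g (nat_lit 1820) (.e (nat_lit 57902) (nat_lit 277) (.e (nat_lit 131140) (nat_lit 27) (.e (nat_lit 426188) (nat_lit 9) (.e (nat_lit 426439) (nat_lit 19) (.e (nat_lit 106556) (nat_lit 15) (.e (nat_lit 57816) (nat_lit 246) .nil)))))) (.g (nat_lit 6) .nil .nil))) 
(.lf (nat_lit 187379) (.g (nat_lit 1540) (.e (nat_lit 57902) (nat_lit 277) (.e (nat_lit 131140) (nat_lit 27) (.e (nat_lit 426200) (nat_lit 9) (.e (nat_lit 426442) (nat_lit 19) (.e (nat_lit 106556) (nat_lit 15) .nil))))) .nil)))) (.nd (nat_lit 4) (.nd (nat_lit 5) 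
(.lf (nat_lit 187339) (.g (nat_lit 1249) (.e (nat_lit 57902) (nat_lit 277) (.e (nat_lit 131140) (nat_lit 27) (.e (nat_lit 426186) (nat_lit 9) (.e (nat_lit 426442) (nat_lit 19) (.e (nat_lit 106556) (nat_lit 15) (.e (nat_lit 57816) (nat_lit 246) .nil)))))) (.g (nat_lit 6) .nil .nil))) 
(.lf (nat_lit 187371) (.g (nat_lit 1692) (.e (nat_lit 57902) (nat_lit 277) (.e (nat_lit 131140) (nat_lit 27) (.e (nat_lit 426198) (nat_lit 9) (.e (nat_lit 426444) (nat_lit 19) (.e (nat_lit 106556) (nat_lit 15) (.e (nat_lit 57816) (nat_lit 246) .nil)))))) (.g (nat_lit 0) .nil .nil)))) (.nd (nat_lit 5) 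
(.lf (nat_lit 187355) (.g (nat_lit 1029) (.e (nat_lit 57902) (nat_lit 277) (.e (nat_lit 131140) (nat_lit 27) (.e (nat_lit 426189) (nat_lit 9) (.e (nat_lit 426442) (nat_lit 19) (.e (nat_lit 106556) (nat_lit 15) (.e (nat_lit 57811) (nat_lit 246) .nil)))))) (.g (nat_lit 4) .nil .nil))) 
(.lf (nat_lit 187387) (.g (nat_lit 1252) (.e (nat_lit 57902) (nat_lit 277) (.e (nat_lit 131140) (nat_lit 27) (.e (nat_lit 426258) (nat_lit 9) (.e (nat_lit 426443) (nat_lit 19) (.e (nat_lit 106556) (nat_lit 15) (.e (nat_lit 57811) (nat_lit 246) .nil)))))) (.g (nat_lit 6) .nil .nil)))))) (.nd (nat_lit 3) (.nd (nat_lit 4) (.nd (nat_lit 5) 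
(.lf (nat_lit 187335) (.g (nat_lit 379) (.e (nat_lit 57902) (nat_lit 277) (.e (nat_lit 131140) (nat_lit 27) (.e (nat_lit 426075) (nat_lit 0) .nil))) .nil)) 
(.lf (nat_lit 187367) (.g (nat_lit 999) (.e (nat_lit 57902) (nat_lit 277) (.e (nat_lit 131140) (nat_lit 27) (.e (nat_lit 426196) (nat_lit 9) (.e (nat_lit 426444) (nat_lit 19) (.e (nat_lit 106556) (nat_lit 15) (.e (nat_lit 57813) (nat_lit 246) .nil)))))) (.g (nat_lit 4) .nil .nil)))) (.nd (nat_lit 5) 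
(.lf (nat_lit 187351) (.g (nat_lit 1901) (.e (nat_lit 57902) (nat_lit 277) (.e (nat_lit 131140) (nat_lit 27) (.e (nat_lit 426188) (nat_lit 9) (.e (nat_lit 426444) (nat_lit 19) (.e (nat_lit 106556) (nat_lit 15) (.e (nat_lit 57816) (nat_lit 246) .nil)))))) (.g (nat_lit 0) .nil .nil))) 
(.lf (nat_lit 187383) (.g (nat_lit 1638) (.e (nat_lit 57902) (nat_lit 277) (.e (nat_lit 131140) (nat_lit 27) (.e (nat_lit 426200) (nat_lit 9) (.e (nat_lit 426442) (nat_lit 19) (.e (nat_lit 106556) (nat_lit 15) (.e (nat_lit 57816) (nat_lit 246) .nil)))))) (.g (nat_lit 4) .nil .nil))))) (.nd (nat_lit 4) (.nd (nat_lit 5) 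
(.lf (nat_lit 187343) (.g (nat_lit 1104) (.e (nat_lit 57902) (nat_lit 277) (.e (nat_lit 131140) (nat_lit 27) (.e (nat_lit 426188) (nat_lit 9) (.e (nat_lit 426366) (nat_lit 15) .nil)))) .nil)) 
(.lf (nat_lit 187375) (.g (nat_lit 1198) (.e (nat_lit 57902) (nat_lit 277) (.e (nat_lit 131140) (nat_lit 27) (.e (nat_lit 426199) (nat_lit 9) (.e (nat_lit 426442) (nat_lit 19) (.e (nat_lit 106556) (nat_lit 15) (.e (nat_lit 57813) (nat_lit 246) .nil)))))) (.g (nat_lit 4) .nil .nil)))) (.nd (nat_lit 5) 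
(.lf (nat_lit 187359) (.g (nat_lit 1720) (.e (nat_lit 57902) (nat_lit 277) (.e (nat_lit 131140) (nat_lit 27) (.e (nat_lit 426190) (nat_lit 9) (.e (nat_lit 426442) (nat_lit 19) (.e (nat_lit 106556) (nat_lit 15) (.e (nat_lit 57815) (nat_lit 246) .nil)))))) (.g (nat_lit 6) .nil .nil))) 
(.lf (nat_lit 187391) (.g (nat_lit 1552) (.e (nat_lit 57902) (nat_lit 277) (.e (nat_lit 131140) (nat_lit 27) (.e (nat_lit 426306) (nat_lit 12) (.e (nat_lit 475201) (nat_lit 40) (.e (nat_lit 704841) (nat_lit 15) .nil))))) .nil))))))))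

noncomputable def tv2489 : DT := (.nd (nat_lit 0) (.nd (nat_lit 1) (.nd (nat_lit 2) (.nd (nat_lit 3) (.nd (nat_lit 4) (.nd (nat_lit 5) (.nd (nat_lit 6) 
(.lf (nat_lit 187392) (.g (nat_lit 1235) (.e (nat_lit 57902) (nat_lit 277) (.e (nat_lit 131140) (nat_lit 27) (.e (nat_lit 426306) (nat_lit 12) (.e (nat_lit 483072) (nat_lit 40) .nil)))) .nil)) 
(.lf (nat_lit 187456) (.g (nat_lit 3373) (.e (nat_lit 57924) (nat_lit 282) (.e (nat_lit 163867) (nat_lit 2) (.e (nat_lit 196670) (nat_lit 14) (.e (nat_lit 73746) (nat_lit 3) (.e (nat_lit 516131) (nat_lit 3) (.e (nat_lit 221212) (nat_lit 22) (.e (nat_lit 196632) (nat_lit 9) (.e (nat_lit 1180) (nat_lit 87) .nil)))))))) (.g (nat_lit 7) .nil .nil)))) (.nd (nat_lit 6) 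
(.lf (nat_lit 187424) (.g (nat_lit 2145) (.e (nat_lit 57902) (nat_lit 277) (.e (nat_lit 131140) (nat_lit 27) (.e (nat_lit 426343) (nat_lit 14) (.e (nat_lit 491552) (nat_lit 9) (.e (nat_lit 336248) (nat_lit 15) (.e (nat_lit 7082) (nat_lit 378) .nil)))))) (.g (nat_lit 5) .nil .nil))) 
(.lf (nat_lit 187488) (.g (nat_lit 1418) (.e (nat_lit 57924) (nat_lit 282) (.e (nat_lit 163871) (nat_lit 2) (.e (nat_lit 196674) (nat_lit 15) (.e (nat_lit 89856) (nat_lit 18) .nil)))) .nil)))) (.nd (nat_lit 5) (.nd (nat_lit 6) 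
(.lf (nat_lit 187408) (.g (nat_lit 1002) (.e (nat_lit 57902) (nat_lit 277) (.e (nat_lit 131140) (nat_lit 27) (.e (nat_lit 426308) (nat_lit 12) (.e (nat_lit 483072) (nat_lit 40) .nil)))) .nil)) 
(.lf (nat_lit 187472) (.g (nat_lit 1535) (.e (nat_lit 57924) (nat_lit 282) (.e (nat_lit 163868) (nat_lit 2) (.e (nat_lit 196672) (nat_lit 15) (.e (nat_lit 81925) (nat_lit 11) (.e (nat_lit 426500) (nat_lit 27) .nil))))) .nil))) (.nd (nat_lit 6) 
(.lf (nat_lit 187440) (.g (nat_lit 2935) (.e (nat_lit 57921) (nat_lit 280) (.e (nat_lit 57378) (nat_lit 3) (.e (nat_lit 98388) (nat_lit 33) (.e (nat_lit 491571) (nat_lit 13) (.e (nat_lit 393225) (nat_lit 9) .nil))))) .nil)) 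
(.lf (nat_lit 187504) (.g (nat_lit 2257) (.e (nat_lit 57924) (nat_lit 282) (.e (nat_lit 163875) (nat_lit 3) (.e (nat_lit 204861) (nat_lit 26) (.e (nat_lit 336076) (nat_lit 9) (.e (nat_lit 336372) (nat_lit 27) .nil))))) .nil))))) (.nd (nat_lit 4) (.nd (nat_lit 5) (.nd (nat_lit 6) 
(.lf (nat_lit 187400) (.g (nat_lit 1062) (.e (nat_lit 57902) (nat_lit 277) (.e (nat_lit 131140) (nat_lit 27) (.e (nat_lit 426308) (nat_lit 12) (.e (nat_lit 475200) (nat_lit 40) .nil)))) .nil)) 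
(.lf (nat_lit 187464) (.g (nat_lit 1420) (.e (nat_lit 57924) (nat_lit 282) (.e (nat_lit 163867) (nat_lit 2) (.e (nat_lit 196672) (nat_lit 15) (.e (nat_lit 89856) (nat_lit 11) .nil)))) .nil))) (.nd (nat_lit 6) 
(.lf (nat_lit 187432) (.g (nat_lit 1740) (.e (nat_lit 57921) (nat_lit 280) (.e (nat_lit 57375) (nat_lit 2) (.e (nat_lit 90172) (nat_lit 14) (.e (nat_lit 180232) (nat_lit 0) .nil)))) .nil)) 
(.lf (nat_lit 187496) (.g (nat_lit 2410) (.e (nat_lit 57924) (nat_lit 282) (.e (nat_lit 163874) (nat_lit 3) (.e (nat_lit 204861) (nat_lit 26) (.e (nat_lit 336075) (nat_lit 9) (.e (nat_lit 336454) (nat_lit 34) .nil))))) .nil)))) (.nd (nat_lit 5) (.nd (nat_lit 6) 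
(.lf (nat_lit 187416) (.g (nat_lit 1285) (.e (nat_lit 57902) (nat_lit 277) (.e (nat_lit 131140) (nat_lit 27) (.e (nat_lit 426316) (nat_lit 12) (.e (nat_lit 475197) (nat_lit 40) .nil)))) .nil)) 
(.lf (nat_lit 187480) (.g (nat_lit 2718) (.e (nat_lit 57924) (nat_lit 282) (.e (nat_lit 163870) (nat_lit 2) (.e (nat_lit 196666) (nat_lit 13) (.e (nat_lit 65625) (nat_lit 13) (.e (nat_lit 393225) (nat_lit 9) .nil))))) .nil))) (.nd (nat_lit 6) 
(.lf (nat_lit 187448) (.g (nat_lit 1915) (.e (nat_lit 57924) (nat_lit 282) (.e (nat_lit 163867) (nat_lit 2) (.e (nat_lit 196670) (nat_lit 14) (.e (nat_lit 73746) (nat_lit 3) (.e (nat_lit 516129) (nat_lit 3) .nil))))) .nil)) 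
(.lf (nat_lit 187512) (.g (nat_lit 990) (.e (nat_lit 57924) (nat_lit 282) (.e (nat_lit 163875) (nat_lit 3) (.e (nat_lit 204873) (nat_lit 30) .nil))) .nil)))))) (.nd (nat_lit 3) (.nd (nat_lit 4) (.nd (nat_lit 5) (.nd (nat_lit 6) 
(.lf (nat_lit 187396) (.g (nat_lit 379) (.e (nat_lit 57902) (nat_lit 277) (.e (nat_lit 131140) (nat_lit 27) (.e (nat_lit 426307) (nat_lit 12) .nil))) .nil)) 
(.lf (nat_lit 187460) (.g (nat_lit 4705) (.e (nat_lit 57924) (nat_lit 282) (.e (nat_lit 163867) (nat_lit 2) (.e (nat_lit 196670) (nat_lit 14) (.e (nat_lit 73754) (nat_lit 8) (.e (nat_lit 557105) (nat_lit 14) (.e (nat_lit 180252) (nat_lit 10) (.e (nat_lit 573451) (nat_lit 9) (.e (nat_lit 1175) (nat_lit 87) .nil)))))))) (.g (nat_lit 7) .nil .nil)))) (.nd (nat_lit 6) 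
(.lf (nat_lit 187428) (.g (nat_lit 2463) (.e (nat_lit 57904) (nat_lit 278) (.e (nat_lit 68) (nat_lit 0) (.e (nat_lit 1349) (nat_lit 102) (.e (nat_lit 286759) (nat_lit 12) (.e (nat_lit 385094) (nat_lit 49) .nil))))) .nil)) 
(.lf (nat_lit 187492) (.g (nat_lit 2175) (.e (nat_lit 57924) (nat_lit 282) (.e (nat_lit 163873) (nat_lit 3) (.e (nat_lit 204862) (nat_lit 27) (.e (nat_lit 344117) (nat_lit 21) (.e (nat_lit 516130) (nat_lit 3) .nil))))) .nil)))) (.nd (nat_lit 5) (.nd (nat_lit 6) 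
(.lf (nat_lit 187412) (.g (nat_lit 1371) (.e (nat_lit 57902) (nat_lit 277) (.e (nat_lit 131140) (nat_lit 27) (.e (nat_lit 426315) (nat_lit 12) (.e (nat_lit 475216) (nat_lit 44) (.e (nat_lit 737288) (nat_lit 0) (.e (nat_lit 4993) (nat_lit 288) .nil)))))) (.g (nat_lit 4) .nil .nil))) 
(.lf (nat_lit 187476) (.g (nat_lit 1832) (.e (nat_lit 57924) (nat_lit 282) (.e (nat_lit 163869) (nat_lit 2) (.e (nat_lit 196670) (nat_lit 14) (.e (nat_lit 73746) (nat_lit 3) .nil)))) .nil))) (.nd (nat_lit 6) 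
(.lf (nat_lit 187444) (.g (nat_lit 721) (.e (nat_lit 57924) (nat_lit 282) (.e (nat_lit 163867) (nat_lit 2) (.e (nat_lit 196617) (nat_lit 9) .nil))) .nil)) 
(.lf (nat_lit 187508) (.g (nat_lit 2506) (.e (nat_lit 57924) (nat_lit 282) (.e (nat_lit 163875) (nat_lit 3) (.e (nat_lit 204862) (nat_lit 27) (.e (nat_lit 344117) (nat_lit 21) (.e (nat_lit 516122) (nat_lit 2) .nil))))) .nil))))) (.nd (nat_lit 4) (.nd (nat_lit 5) (.nd (nat_lit 6) 
(.lf (nat_lit 187404) (.g (nat_lit 1624) (.e (nat_lit 57902) (nat_lit 277) (.e (nat_lit 131140) (nat_lit 27) (.e (nat_lit 426308) (nat_lit 12) (.e (nat_lit 475201) (nat_lit 40) (.e (nat_lit 704839) (nat_lit 15) (.e (nat_lit 57816) (nat_lit 246) .nil)))))) (.g (nat_lit 4) .nil .nil))) 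
(.lf (nat_lit 187468) (.g (nat_lit 2308) (.e (nat_lit 57924) (nat_lit 282) (.e (nat_lit 163868) (nat_lit 2) (.e (nat_lit 196668) (nat_lit 14) (.e (nat_lit 73747) (nat_lit 3) (.e (nat_lit 516130) (nat_lit 3) .nil))))) .nil))) (.nd (nat_lit 6) 
(.lf (nat_lit 187436) (.g (nat_lit 2508) (.e (nat_lit 57921) (nat_lit 280) (.e (nat_lit 57377) (nat_lit 3) (.e (nat_lit 98388) (nat_lit 33) (.e (nat_lit 491571) (nat_lit 13) (.e (nat_lit 393225) (nat_lit 9) .nil))))) .nil)) 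
(.lf (nat_lit 187500) (.g (nat_lit 2557) (.e (nat_lit 57924) (nat_lit 282) (.e (nat_lit 163874) (nat_lit 3) (.e (nat_lit 204861) (nat_lit 26) (.e (nat_lit 336213) (nat_lit 13) (.e (nat_lit 393225) (nat_lit 9) .nil))))) .nil)))) (.nd (nat_lit 5) (.nd (nat_lit 6) 
(.lf (nat_lit 187420) (.g (nat_lit 2030) (.e (nat_lit 57902) (nat_lit 277) (.e (nat_lit 131140) (nat_lit 27) (.e (nat_lit 426316) (nat_lit 12) (.e (nat_lit 475219) (nat_lit 44) (.e (nat_lit 737286) (nat_lit 0) (.e (nat_lit 4995) (nat_lit 288) .nil)))))) (.g (nat_lit 4) .nil .nil))) 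
(.lf (nat_lit 187484) (.g (nat_lit 2132) (.e (nat_lit 57924) (nat_lit 282) (.e (nat_lit 163871) (nat_lit 2) (.e (nat_lit 196670) (nat_lit 14) (.e (nat_lit 73746) (nat_lit 3) (.e (nat_lit 516127) (nat_lit 2) .nil))))) .nil))) (.nd (nat_lit 6) 
(.lf (nat_lit 187452) (.g (nat_lit 1971) (.e (nat_lit 57924) (nat_lit 282) (.e (nat_lit 163867) (nat_lit 2) (.e (nat_lit 196670) (nat_lit 14) (.e (nat_lit 73746) (nat_lit 3) (.e (nat_lit 516131) (nat_lit 3) .nil))))) .nil)) 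
(.lf (nat_lit 187516) (.g (nat_lit 2083) (.e (nat_lit 57924) (nat_lit 282) (.e (nat_lit 163903) (nat_lit 12) (.e (nat_lit 426555) (nat_lit 32) (.e (nat_lit 376862) (nat_lit 22) (.e (nat_lit 90160) (nat_lit 11) .nil))))) .nil))))))) (.nd (nat_lit 2) (.nd (nat_lit 3) (.nd (nat_lit 4) (.nd (nat_lit 5) (.nd (nat_lit 6) 
(.lf (nat_lit 187394) (.g (nat_lit 1117) (.e (nat_lit 57902) (nat_lit 277) (.e (nat_lit 131140) (nat_lit 27) (.e (nat_lit 426306) (nat_lit 12) (.e (nat_lit 475217) (nat_lit 44) .nil)))) .nil)) 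
(.lf (nat_lit 187458) (.g (nat_lit 1790) (.e (nat_lit 57924) (nat_lit 282) (.e (nat_lit 163867) (nat_lit 2) (.e (nat_lit 196670) (nat_lit 14) (.e (nat_lit 73748) (nat_lit 3) (.e (nat_lit 516131) (nat_lit 3) .nil))))) .nil))) (.nd (nat_lit 6) 
(.lf (nat_lit 187426) (.g (nat_lit 2119) (.e (nat_lit 57902) (nat_lit 277) (.e (nat_lit 131140) (nat_lit 27) (.e (nat_lit 426344) (nat_lit 14) (.e (nat_lit 491563) (nat_lit 12) (.e (nat_lit 392960) (nat_lit 17) .nil))))) .nil)) 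
(.lf (nat_lit 187490) (.g (nat_lit 781) (.e (nat_lit 57924) (nat_lit 282) (.e (nat_lit 163873) (nat_lit 3) (.e (nat_lit 204859) (nat_lit 26) .nil))) .nil)))) (.nd (nat_lit 5) (.nd (nat_lit 6) 
(.lf (nat_lit 187410) (.g (nat_lit 927) (.e (nat_lit 57902) (nat_lit 277) (.e (nat_lit 131140) (nat_lit 27) (.e (nat_lit 426313) (nat_lit 12) (.e (nat_lit 475220) (nat_lit 44) (.e (nat_lit 745216) (nat_lit 0) .nil))))) .nil)) 
(.lf (nat_lit 187474) (.g (nat_lit 1483) (.e (nat_lit 57924) (nat_lit 282) (.e (nat_lit 163868) (nat_lit 2) (.e (nat_lit 196681) (nat_lit 17) (.e (nat_lit 131105) (nat_lit 9) .nil)))) .nil))) (.nd (nat_lit 6) 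
(.lf (nat_lit 187442) (.g (nat_lit 2384) (.e (nat_lit 57921) (nat_lit 280) (.e (nat_lit 57379) (nat_lit 3) (.e (nat_lit 98384) (nat_lit 32) (.e (nat_lit 475201) (nat_lit 40) (.e (nat_lit 704547) (nat_lit 0) .nil))))) .nil)) 
(.lf (nat_lit 187506) (.g (nat_lit 1865) (.e (nat_lit 57924) (nat_lit 282) (.e (nat_lit 163875) (nat_lit 3) (.e (nat_lit 204861) (nat_lit 26) (.e (nat_lit 336213) (nat_lit 13) (.e (nat_lit 393229) (nat_lit 9) .nil))))) .nil))))) (.nd (nat_lit 4) (.nd (nat_lit 5) (.nd (nat_lit 6) 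
(.lf (nat_lit 187402) (.g (nat_lit 1674) (.e (nat_lit 57902) (nat_lit 277) (.e (nat_lit 131140) (nat_lit 27) (.e (nat_lit 426308) (nat_lit 12) (.e (nat_lit 475201) (nat_lit 40) (.e (nat_lit 704839) (nat_lit 15) (.e (nat_lit 57813) (nat_lit 246) .nil)))))) (.g (nat_lit 4) .nil .nil))) 
(.lf (nat_lit 187466) (.g (nat_lit 916) (.e (nat_lit 57924) (nat_lit 282) (.e (nat_lit 163868) (nat_lit 2) (.e (nat_lit 196663) (nat_lit 13) .nil))) .nil))) (.nd (nat_lit 6) 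
(.lf (nat_lit 187434) (.g (nat_lit 1341) (.e (nat_lit 57921) (nat_lit 280) (.e (nat_lit 57377) (nat_lit 3) (.e (nat_lit 98388) (nat_lit 33) (.e (nat_lit 491569) (nat_lit 13) .nil)))) .nil)) 
(.lf (nat_lit 187498) (.g (nat_lit 2717) (.e (nat_lit 57924) (nat_lit 282) (.e (nat_lit 163874) (nat_lit 3) (.e (nat_lit 204861) (nat_lit 26) (.e (nat_lit 336076) (nat_lit 9) (.e (nat_lit 336454) (nat_lit 34) .nil))))) .nil)))) (.nd (nat_lit 5) (.nd (nat_lit 6) 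
(.lf (nat_lit 187418) (.g (nat_lit 2106) (.e (nat_lit 57902) (nat_lit 277) (.e (nat_lit 131140) (nat_lit 27) (.e (nat_lit 426316) (nat_lit 12) (.e (nat_lit 475201) (nat_lit 40) (.e (nat_lit 704841) (nat_lit 15) (.e (nat_lit 57816) (nat_lit 246) .nil)))))) (.g (nat_lit 6) .nil .nil))) 
(.lf (nat_lit 187482) (.g (nat_lit 927) (.e (nat_lit 57924) (nat_lit 282) (.e (nat_lit 163871) (nat_lit 2) (.e (nat_lit 196665) (nat_lit 13) .nil))) .nil))) (.nd (nat_lit 6) 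
(.lf (nat_lit 187450) (.g (nat_lit 2030) (.e (nat_lit 57924) (nat_lit 282) (.e (nat_lit 163867) (nat_lit 2) (.e (nat_lit 196670) (nat_lit 14) (.e (nat_lit 73746) (nat_lit 3) (.e (nat_lit 516129) (nat_lit 3) (.e (nat_lit 221210) (nat_lit 22) (.e (nat_lit 196632) (nat_lit 9) (.e (nat_lit 1178) (nat_lit 87) .nil)))))))) (.g (nat_lit 4) .nil .nil))) 
(.lf (nat_lit 187514) (.g (nat_lit 2349) (.e (nat_lit 57924) (nat_lit 282) (.e (nat_lit 163903) (nat_lit 12) (.e (nat_lit 426544) (nat_lit 30) (.e (nat_lit 360467) (nat_lit 3) (.e (nat_lit 516195) (nat_lit 26) .nil))))) .nil)))))) (.nd (nat_lit 3) (.nd (nat_lit 4) (.nd (nat_lit 5) (.nd (nat_lit 6) 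
(.lf (nat_lit 187398) (.g (nat_lit 908) (.e (nat_lit 57902) (nat_lit 277) (.e (nat_lit 131140) (nat_lit 27) (.e (nat_lit 426307) (nat_lit 12) (.e (nat_lit 475219) (nat_lit 44) (.e (nat_lit 737286) (nat_lit 0) (.e (nat_lit 4995) (nat_lit 288) .nil)))))) (.g (nat_lit 4) .nil .nil))) 
(.lf (nat_lit 187462) (.g (nat_lit 959) (.e (nat_lit 57924) (nat_lit 282) (.e (nat_lit 163867) (nat_lit 2) (.e (nat_lit 196672) (nat_lit 15) (.e (nat_lit 81927) (nat_lit 11) .nil)))) .nil))) (.nd (nat_lit 6) 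
(.lf (nat_lit 187430) (.g (nat_lit 950) (.e (nat_lit 57921) (nat_lit 280) (.e (nat_lit 57372) (nat_lit 2) (.e (nat_lit 90172) (nat_lit 14) .nil))) .nil)) 
(.lf (nat_lit 187494) (.g (nat_lit 1218) (.e (nat_lit 57924) (nat_lit 282) (.e (nat_lit 163873) (nat_lit 3) (.e (nat_lit 204865) (nat_lit 28) (.e (nat_lit 352277) (nat_lit 11) .nil)))) .nil)))) (.nd (nat_lit 5) (.nd (nat_lit 6) 
(.lf (nat_lit 187414) (.g (nat_lit 1016) (.e (nat_lit 57902) (nat_lit 277) (.e (nat_lit 131140) (nat_lit 27) (.e (nat_lit 426315) (nat_lit 12) (.e (nat_lit 475217) (nat_lit 44) .nil)))) .nil)) 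
(.lf (nat_lit 187478) (.g (nat_lit 925) (.e (nat_lit 57924) (nat_lit 282) (.e (nat_lit 163869) (nat_lit 2) (.e (nat_lit 196672) (nat_lit 15) .nil))) .nil))) (.nd (nat_lit 6) 
(.lf (nat_lit 187446) (.g (nat_lit 1358) (.e (nat_lit 57924) (nat_lit 282) (.e (nat_lit 163867) (nat_lit 2) (.e (nat_lit 196664) (nat_lit 13) (.e (nat_lit 65627) (nat_lit 13) (.e (nat_lit 393225) (nat_lit 9) .nil))))) .nil)) 
(.lf (nat_lit 187510) (.g (nat_lit 713) (.e (nat_lit 57924) (nat_lit 282) (.e (nat_lit 163875) (nat_lit 3) (.e (nat_lit 204865) (nat_lit 28) (.e (nat_lit 352277) (nat_lit 11) .nil)))) .nil))))) (.nd (nat_lit 4) (.nd (nat_lit 5) (.nd (nat_lit 6) 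
(.lf (nat_lit 187406) (.g (nat_lit 1961) (.e (nat_lit 57902) (nat_lit 277) (.e (nat_lit 131140) (nat_lit 27) (.e (nat_lit 426308) (nat_lit 12) (.e (nat_lit 475201) (nat_lit 40) (.e (nat_lit 704841) (nat_lit 15) (.e (nat_lit 57816) (nat_lit 246) .nil)))))) (.g (nat_lit 6) .nil .nil))) 
(.lf (nat_lit 187470) (.g (nat_lit 2445) (.e (nat_lit 57924) (nat_lit 282) (.e (nat_lit 163868) (nat_lit 2) (.e (nat_lit 196670) (nat_lit 14) (.e (nat_lit 73746) (nat_lit 3) (.e (nat_lit 516129) (nat_lit 3) .nil))))) .nil))) (.nd (nat_lit 6) 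
(.lf (nat_lit 187438) (.g (nat_lit 2623) (.e (nat_lit 57921) (nat_lit 280) (.e (nat_lit 57378) (nat_lit 3) (.e (nat_lit 98384) (nat_lit 32) (.e (nat_lit 475201) (nat_lit 40) (.e (nat_lit 704547) (nat_lit 0) .nil))))) .nil)) 
(.lf (nat_lit 187502) (.g (nat_lit 388) (.e (nat_lit 57924) (nat_lit 282) (.e (nat_lit 163875) (nat_lit 3) (.e (nat_lit 204861) (nat_lit 26) .nil))) .nil)))) (.nd (nat_lit 5) (.nd (nat_lit 6) 
(.lf (nat_lit 187422) (.g (nat_lit 383) (.e (nat_lit 57902) (nat_lit 277) (.e (nat_lit 131140) (nat_lit 27) (.e (nat_lit 426341) (nat_lit 14) .nil))) .nil)) 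
(.lf (nat_lit 187486) (.g (nat_lit 915) (.e (nat_lit 57924) (nat_lit 282) (.e (nat_lit 163871) (nat_lit 2) (.e (nat_lit 196672) (nat_lit 15) (.e (nat_lit 81927) (nat_lit 11) .nil)))) .nil))) (.nd (nat_lit 6) 
(.lf (nat_lit 187454) (.g (nat_lit 2999) (.e (nat_lit 57924) (nat_lit 282) (.e (nat_lit 163867) (nat_lit 2) (.e (nat_lit 196670) (nat_lit 14) (.e (nat_lit 73746) (nat_lit 3) (.e (nat_lit 516131) (nat_lit 3) (.e (nat_lit 221212) (nat_lit 22) (.e (nat_lit 196625) (nat_lit 9) (.e (nat_lit 1175) (nat_lit 87) .nil)))))))) (.g (nat_lit 6) .nil .nil))) 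
(.lf (nat_lit 187518) (.g (nat_lit 2151) (.e (nat_lit 57924) (nat_lit 282) (.e (nat_lit 163903) (nat_lit 12) (.e (nat_lit 426555) (nat_lit 32) (.e (nat_lit 376865) (nat_lit 22) (.e (nat_lit 90160) (nat_lit 11) .nil))))) .nil)))))))) (.nd (nat_lit 1) (.nd (nat_lit 2) (.nd (nat_lit 3) (.nd (nat_lit 4) (.nd (nat_lit 5) (.nd (nat_lit 6) 
(.lf (nat_lit 187393) (.g (nat_lit 957) (.e (nat_lit 57902) (nat_lit 277) (.e (nat_lit 131140) (nat_lit 27) (.e (nat_lit 426306) (nat_lit 12) (.e (nat_lit 475216) (nat_lit 44) .nil)))) .nil)) 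
(.lf (nat_lit 187457) (.g (nat_lit 1416) (.e (nat_lit 57924) (nat_lit 282) (.e (nat_lit 163867) (nat_lit 2) (.e (nat_lit 196670) (nat_lit 14) (.e (nat_lit 73748) (nat_lit 3) .nil)))) .nil))) (.nd (nat_lit 6) 
(.lf (nat_lit 187425) (.g (nat_lit 1911) (.e (nat_lit 57902) (nat_lit 277) (.e (nat_lit 131140) (nat_lit 27) (.e (nat_lit 426343) (nat_lit 14) (.e (nat_lit 491556) (nat_lit 9) (.e (nat_lit 343808) (nat_lit 15) .nil))))) .nil)) 
(.lf (nat_lit 187489) (.g (nat_lit 824) (.e (nat_lit 57924) (nat_lit 282) (.e (nat_lit 163873) (nat_lit 3) (.e (nat_lit 204853) (nat_lit 26) .nil))) .nil)))) (.nd (nat_lit 5) (.nd (nat_lit 6) 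
(.lf (nat_lit 187409) (.g (nat_lit 965) (.e (nat_lit 57902) (nat_lit 277) (.e (nat_lit 131140) (nat_lit 27) (.e (nat_lit 426313) (nat_lit 12) (.e (nat_lit 475220) (nat_lit 44) (.e (nat_lit 737286) (nat_lit 0) .nil))))) .nil)) 
(.lf (nat_lit 187473) (.g (nat_lit 906) (.e (nat_lit 57924) (nat_lit 282) (.e (nat_lit 163868) (nat_lit 2) (.e (nat_lit 196672) (nat_lit 15) (.e (nat_lit 81927) (nat_lit 11) .nil)))) .nil))) (.nd (nat_lit 6) 
(.lf (nat_lit 187441) (.g (nat_lit 1100) (.e (nat_lit 57921) (nat_lit 280) (.e (nat_lit 57378) (nat_lit 3) (.e (nat_lit 98389) (nat_lit 33) .nil))) .nil)) 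
(.lf (nat_lit 187505) (.g (nat_lit 1628) (.e (nat_lit 57924) (nat_lit 282) (.e (nat_lit 163875) (nat_lit 3) (.e (nat_lit 204861) (nat_lit 26) (.e (nat_lit 336078) (nat_lit 9) .nil)))) .nil))))) (.nd (nat_lit 4) (.nd (nat_lit 5) (.nd (nat_lit 6) 
(.lf (nat_lit 187401) (.g (nat_lit 1475) (.e (nat_lit 57902) (nat_lit 277) (.e (nat_lit 131140) (nat_lit 27) (.e (nat_lit 426308) (nat_lit 12) (.e (nat_lit 475201) (nat_lit 40) (.e (nat_lit 704839) (nat_lit 15) (.e (nat_lit 57809) (nat_lit 246) .nil)))))) (.g (nat_lit 4) .nil .nil))) 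
(.lf (nat_lit 187465) (.g (nat_lit 1744) (.e (nat_lit 57924) (nat_lit 282) (.e (nat_lit 163867) (nat_lit 2) (.e (nat_lit 196681) (nat_lit 17) (.e (nat_lit 131109) (nat_lit 9) (.e (nat_lit 336454) (nat_lit 34) .nil))))) .nil))) (.nd (nat_lit 6) 
(.lf (nat_lit 187433) (.g (nat_lit 1763) (.e (nat_lit 57921) (nat_lit 280) (.e (nat_lit 57375) (nat_lit 2) (.e (nat_lit 90172) (nat_lit 14) (.e (nat_lit 180233) (nat_lit 0) .nil)))) .nil)) 
(.lf (nat_lit 187497) (.g (nat_lit 2099) (.e (nat_lit 57924) (nat_lit 282) (.e (nat_lit 163874) (nat_lit 3) (.e (nat_lit 204861) (nat_lit 26) (.e (nat_lit 336076) (nat_lit 9) .nil)))) .nil)))) (.nd (nat_lit 5) (.nd (nat_lit 6) 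
(.lf (nat_lit 187417) (.g (nat_lit 1593) (.e (nat_lit 57902) (nat_lit 277) (.e (nat_lit 131140) (nat_lit 27) (.e (nat_lit 426316) (nat_lit 12) (.e (nat_lit 475201) (nat_lit 40) (.e (nat_lit 704841) (nat_lit 15) .nil))))) .nil)) 
(.lf (nat_lit 187481) (.g (nat_lit 1526) (.e (nat_lit 57924) (nat_lit 282) (.e (nat_lit 163870) (nat_lit 2) (.e (nat_lit 196666) (nat_lit 13) (.e (nat_lit 65627) (nat_lit 13) .nil)))) .nil))) (.nd (nat_lit 6) 
(.lf (nat_lit 187449) (.g (nat_lit 2052) (.e (nat_lit 57924) (nat_lit 282) (.e (nat_lit 163867) (nat_lit 2) (.e (nat_lit 196670) (nat_lit 14) (.e (nat_lit 73746) (nat_lit 3) (.e (nat_lit 516129) (nat_lit 3) (.e (nat_lit 221210) (nat_lit 22) (.e (nat_lit 196625) (nat_lit 9) (.e (nat_lit 1177) (nat_lit 87) .nil)))))))) (.g (nat_lit 4) .nil .nil))) 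
(.lf (nat_lit 187513) (.g (nat_lit 2208) (.e (nat_lit 57924) (nat_lit 282) (.e (nat_lit 163902) (nat_lit 12) (.e (nat_lit 426555) (nat_lit 32) (.e (nat_lit 376865) (nat_lit 22) (.e (nat_lit 90158) (nat_lit 11) .nil))))) .nil)))))) (.nd (nat_lit 3) (.nd (nat_lit 4) (.nd (nat_lit 5) (.nd (nat_lit 6) 
(.lf (nat_lit 187397) (.g (nat_lit 928) (.e (nat_lit 57902) (nat_lit 277) (.e (nat_lit 131140) (nat_lit 27) (.e (nat_lit 426307) (nat_lit 12) (.e (nat_lit 475201) (nat_lit 40) (.e (nat_lit 704841) (nat_lit 15) .nil))))) .nil)) 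
(.lf (nat_lit 187461) (.g (nat_lit 3624) (.e (nat_lit 57924) (nat_lit 282) (.e (nat_lit 163867) (nat_lit 2) (.e (nat_lit 196670) (nat_lit 14) (.e (nat_lit 73755) (nat_lit 8) (.e (nat_lit 557105) (nat_lit 14) (.e (nat_lit 180252) (nat_lit 10) (.e (nat_lit 573451) (nat_lit 9) (.e (nat_lit 1177) (nat_lit 87) .nil)))))))) (.g (nat_lit 5) .nil .nil)))) (.nd (nat_lit 6) 
(.lf (nat_lit 187429) (.g (nat_lit 2119) (.e (nat_lit 65280) (nat_lit 278) (.e (nat_lit 71) (nat_lit 0) (.e (nat_lit 1349) (nat_lit 102) (.e (nat_lit 286759) (nat_lit 12) (.e (nat_lit 385094) (nat_lit 49) .nil))))) .nil)) 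
(.lf (nat_lit 187493) (.g (nat_lit 766) (.e (nat_lit 57924) (nat_lit 282) (.e (nat_lit 163873) (nat_lit 3) (.e (nat_lit 204865) (nat_lit 28) .nil))) .nil)))) (.nd (nat_lit 5) (.nd (nat_lit 6) 
(.lf (nat_lit 187413) (.g (nat_lit 1242) (.e (nat_lit 57902) (nat_lit 277) (.e (nat_lit 131140) (nat_lit 27) (.e (nat_lit 426315) (nat_lit 12) (.e (nat_lit 475216) (nat_lit 44) (.e (nat_lit 745216) (nat_lit 0) .nil))))) .nil)) 
(.lf (nat_lit 187477) (.g (nat_lit 2542) (.e (nat_lit 57924) (nat_lit 282) (.e (nat_lit 163869) (nat_lit 2) (.e (nat_lit 196670) (nat_lit 14) (.e (nat_lit 73746) (nat_lit 3) (.e (nat_lit 516129) (nat_lit 3) .nil))))) .nil))) (.nd (nat_lit 6) 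
(.lf (nat_lit 187445) (.g (nat_lit 831) (.e (nat_lit 57924) (nat_lit 282) (.e (nat_lit 163867) (nat_lit 2) (.e (nat_lit 196662) (nat_lit 13) .nil))) .nil)) 
(.lf (nat_lit 187509) (.g (nat_lit 2218) (.e (nat_lit 57924) (nat_lit 282) (.e (nat_lit 163875) (nat_lit 3) (.e (nat_lit 204863) (nat_lit 27) (.e (nat_lit 344117) (nat_lit 21) (.e (nat_lit 516130) (nat_lit 3) .nil))))) .nil))))) (.nd (nat_lit 4) (.nd (nat_lit 5) (.nd (nat_lit 6) 
(.lf (nat_lit 187405) (.g (nat_lit 1461) (.e (nat_lit 57902) (nat_lit 277) (.e (nat_lit 131140) (nat_lit 27) (.e (nat_lit 426308) (nat_lit 12) (.e (nat_lit 475201) (nat_lit 40) (.e (nat_lit 704841) (nat_lit 15) .nil))))) .nil)) 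
(.lf (nat_lit 187469) (.g (nat_lit 1643) (.e (nat_lit 57924) (nat_lit 282) (.e (nat_lit 163868) (nat_lit 2) (.e (nat_lit 196670) (nat_lit 14) (.e (nat_lit 73746) (nat_lit 3) .nil)))) .nil))) (.nd (nat_lit 6) 
(.lf (nat_lit 187437) (.g (nat_lit 1169) (.e (nat_lit 57921) (nat_lit 280) (.e (nat_lit 57377) (nat_lit 3) (.e (nat_lit 98389) (nat_lit 33) (.e (nat_lit 491546) (nat_lit 9) .nil)))) .nil)) 
(.lf (nat_lit 187501) (.g (nat_lit 536) (.e (nat_lit 57924) (nat_lit 282) (.e (nat_lit 163875) (nat_lit 3) (.e (nat_lit 204859) (nat_lit 26) .nil))) .nil)))) (.nd (nat_lit 5) (.nd (nat_lit 6) 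
(.lf (nat_lit 187421) (.g (nat_lit 1442) (.e (nat_lit 57902) (nat_lit 277) (.e (nat_lit 131140) (nat_lit 27) (.e (nat_lit 426316) (nat_lit 12) (.e (nat_lit 475220) (nat_lit 44) (.e (nat_lit 737286) (nat_lit 0) .nil))))) .nil)) 
(.lf (nat_lit 187485) (.g (nat_lit 1660) (.e (nat_lit 57924) (nat_lit 282) (.e (nat_lit 163871) (nat_lit 2) (.e (nat_lit 196672) (nat_lit 15) (.e (nat_lit 81925) (nat_lit 11) (.e (nat_lit 426500) (nat_lit 27) .nil))))) .nil))) (.nd (nat_lit 6) 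
(.lf (nat_lit 187453) (.g (nat_lit 2636) (.e (nat_lit 57924) (nat_lit 282) (.e (nat_lit 163867) (nat_lit 2) (.e (nat_lit 196670) (nat_lit 14) (.e (nat_lit 73746) (nat_lit 3) (.e (nat_lit 516131) (nat_lit 3) (.e (nat_lit 221212) (nat_lit 22) (.e (nat_lit 196625) (nat_lit 9) (.e (nat_lit 1174) (nat_lit 87) .nil)))))))) (.g (nat_lit 5) .nil .nil))) 
(.lf (nat_lit 187517) (.g (nat_lit 2048) (.e (nat_lit 57924) (nat_lit 282) (.e (nat_lit 163903) (nat_lit 12) (.e (nat_lit 426555) (nat_lit 32) (.e (nat_lit 376865) (nat_lit 22) (.e (nat_lit 90158) (nat_lit 11) .nil))))) .nil))))))) (.nd (nat_lit 2) (.nd (nat_lit 3) (.nd (nat_lit 4) (.nd (nat_lit 5) (.nd (nat_lit 6) 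
(.lf (nat_lit 187395) (.g (nat_lit 886) (.e (nat_lit 57902) (nat_lit 277) (.e (nat_lit 131140) (nat_lit 27) (.e (nat_lit 426306) (nat_lit 12) (.e (nat_lit 475219) (nat_lit 44) .nil)))) .nil)) 
(.lf (nat_lit 187459) (.g (nat_lit 4921) (.e (nat_lit 57924) (nat_lit 282) (.e (nat_lit 163867) (nat_lit 2) (.e (nat_lit 196670) (nat_lit 14) (.e (nat_lit 73753) (nat_lit 8) (.e (nat_lit 557105) (nat_lit 14) (.e (nat_lit 180252) (nat_lit 10) (.e (nat_lit 573451) (nat_lit 9) (.e (nat_lit 1177) (nat_lit 87) .nil)))))))) (.g (nat_lit 7) .nil .nil)))) (.nd (nat_lit 6) 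
(.lf (nat_lit 187427) (.g (nat_lit 873) (.e (nat_lit 57902) (nat_lit 277) (.e (nat_lit 139008) (nat_lit 27) (.e (nat_lit 426340) (nat_lit 14) (.e (nat_lit 491566) (nat_lit 12) (.e (nat_lit 392960) (nat_lit 17) .nil))))) (.g (nat_lit 4) .nil .nil))) 
(.lf (nat_lit 187491) (.g (nat_lit 1921) (.e (nat_lit 57924) (nat_lit 282) (.e (nat_lit 163873) (nat_lit 3) (.e (nat_lit 204861) (nat_lit 26) (.e (nat_lit 336076) (nat_lit 9) (.e (nat_lit 336374) (nat_lit 27) .nil))))) .nil)))) (.nd (nat_lit 5) (.nd (nat_lit 6) 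
(.lf (nat_lit 187411) (.g (nat_lit 176) (.e (nat_lit 57902) (nat_lit 277) (.e (nat_lit 131140) (nat_lit 27) (.e (nat_lit 426315) (nat_lit 12) .nil))) .nil)) 
(.lf (nat_lit 187475) (.g (nat_lit 1485) (.e (nat_lit 57924) (nat_lit 282) (.e (nat_lit 163868) (nat_lit 2) (.e (nat_lit 196681) (nat_lit 17) (.e (nat_lit 131109) (nat_lit 9) .nil)))) .nil))) (.nd (nat_lit 6) 
(.lf (nat_lit 187443) (.g (nat_lit 2708) (.e (nat_lit 57921) (nat_lit 280) (.e (nat_lit 57379) (nat_lit 3) (.e (nat_lit 98387) (nat_lit 33) (.e (nat_lit 491571) (nat_lit 13) (.e (nat_lit 393225) (nat_lit 9) .nil))))) .nil)) 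
(.lf (nat_lit 187507) (.g (nat_lit 1716) (.e (nat_lit 57924) (nat_lit 282) (.e (nat_lit 163875) (nat_lit 3) (.e (nat_lit 204861) (nat_lit 26) (.e (nat_lit 336214) (nat_lit 13) .nil)))) .nil))))) (.nd (nat_lit 4) (.nd (nat_lit 5) (.nd (nat_lit 6) 
(.lf (nat_lit 187403) (.g (nat_lit 1611) (.e (nat_lit 57902) (nat_lit 277) (.e (nat_lit 131140) (nat_lit 27) (.e (nat_lit 426308) (nat_lit 12) (.e (nat_lit 475201) (nat_lit 40) (.e (nat_lit 704839) (nat_lit 15) (.e (nat_lit 57814) (nat_lit 246) .nil)))))) (.g (nat_lit 4) .nil .nil))) 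
(.lf (nat_lit 187467) (.g (nat_lit 2349) (.e (nat_lit 57924) (nat_lit 282) (.e (nat_lit 163868) (nat_lit 2) (.e (nat_lit 196663) (nat_lit 13) (.e (nat_lit 65571) (nat_lit 3) (.e (nat_lit 98341) (nat_lit 20) .nil))))) .nil))) (.nd (nat_lit 6) 
(.lf (nat_lit 187435) (.g (nat_lit 1341) (.e (nat_lit 57921) (nat_lit 280) (.e (nat_lit 57377) (nat_lit 3) (.e (nat_lit 98388) (nat_lit 33) (.e (nat_lit 491570) (nat_lit 13) .nil)))) .nil)) 
(.lf (nat_lit 187499) (.g (nat_lit 2088) (.e (nat_lit 57924) (nat_lit 282) (.e (nat_lit 163874) (nat_lit 3) (.e (nat_lit 204861) (nat_lit 26) (.e (nat_lit 336213) (nat_lit 13) .nil)))) .nil)))) (.nd (nat_lit 5) (.nd (nat_lit 6) 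
(.lf (nat_lit 187419) (.g (nat_lit 1373) (.e (nat_lit 57902) (nat_lit 277) (.e (nat_lit 131140) (nat_lit 27) (.e (nat_lit 426316) (nat_lit 12) (.e (nat_lit 475218) (nat_lit 44) (.e (nat_lit 737286) (nat_lit 0) .nil))))) .nil)) 
(.lf (nat_lit 187483) (.g (nat_lit 2110) (.e (nat_lit 57924) (nat_lit 282) (.e (nat_lit 163871) (nat_lit 2) (.e (nat_lit 196670) (nat_lit 14) (.e (nat_lit 73746) (nat_lit 3) (.e (nat_lit 516124) (nat_lit 2) .nil))))) .nil))) (.nd (nat_lit 6) 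
(.lf (nat_lit 187451) (.g (nat_lit 2167) (.e (nat_lit 57924) (nat_lit 282) (.e (nat_lit 163867) (nat_lit 2) (.e (nat_lit 196670) (nat_lit 14) (.e (nat_lit 73746) (nat_lit 3) (.e (nat_lit 516130) (nat_lit 3) .nil))))) .nil)) 
(.lf (nat_lit 187515) (.g (nat_lit 1153) (.e (nat_lit 57924) (nat_lit 282) (.e (nat_lit 163903) (nat_lit 12) (.e (nat_lit 426546) (nat_lit 30) .nil))) .nil)))))) (.nd (nat_lit 3) (.nd (nat_lit 4) (.nd (nat_lit 5) (.nd (nat_lit 6) 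
(.lf (nat_lit 187399) (.g (nat_lit 1036) (.e (nat_lit 57902) (nat_lit 277) (.e (nat_lit 131140) (nat_lit 27) (.e (nat_lit 426308) (nat_lit 12) (.e (nat_lit 475195) (nat_lit 40) .nil)))) .nil)) 
(.lf (nat_lit 187463) (.g (nat_lit 1221) (.e (nat_lit 57924) (nat_lit 282) (.e (nat_lit 163867) (nat_lit 2) (.e (nat_lit 196672) (nat_lit 15) (.e (nat_lit 81927) (nat_lit 11) (.e (nat_lit 426500) (nat_lit 27) .nil))))) .nil))) (.nd (nat_lit 6) 
(.lf (nat_lit 187431) (.g (nat_lit 764) (.e (nat_lit 57921) (nat_lit 280) (.e (nat_lit 57375) (nat_lit 2) (.e (nat_lit 90172) (nat_lit 14) .nil))) .nil)) 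
(.lf (nat_lit 187495) (.g (nat_lit 753) (.e (nat_lit 57924) (nat_lit 282) (.e (nat_lit 163873) (nat_lit 3) (.e (nat_lit 204878) (nat_lit 31) .nil))) .nil)))) (.nd (nat_lit 5) (.nd (nat_lit 6) 
(.lf (nat_lit 187415) (.g (nat_lit 254) (.e (nat_lit 57902) (nat_lit 277) (.e (nat_lit 131140) (nat_lit 27) (.e (nat_lit 426316) (nat_lit 12) .nil))) .nil)) 
(.lf (nat_lit 187479) (.g (nat_lit 2660) (.e (nat_lit 57924) (nat_lit 282) (.e (nat_lit 163870) (nat_lit 2) (.e (nat_lit 196666) (nat_lit 13) (.e (nat_lit 65569) (nat_lit 3) (.e (nat_lit 98342) (nat_lit 20) .nil))))) .nil))) (.nd (nat_lit 6) 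
(.lf (nat_lit 187447) (.g (nat_lit 1541) (.e (nat_lit 57924) (nat_lit 282) (.e (nat_lit 163867) (nat_lit 2) (.e (nat_lit 196665) (nat_lit 13) (.e (nat_lit 65625) (nat_lit 13) (.e (nat_lit 393225) (nat_lit 9) .nil))))) .nil)) 
(.lf (nat_lit 187511) (.g (nat_lit 978) (.e (nat_lit 57924) (nat_lit 282) (.e (nat_lit 163875) (nat_lit 3) (.e (nat_lit 204872) (nat_lit 30) .nil))) .nil))))) (.nd (nat_lit 4) (.nd (nat_lit 5) (.nd (nat_lit 6) 
(.lf (nat_lit 187407) (.g (nat_lit 1023) (.e (nat_lit 57902) (nat_lit 277) (.e (nat_lit 131140) (nat_lit 27) (.e (nat_lit 426308) (nat_lit 12) (.e (nat_lit 475205) (nat_lit 40) .nil)))) .nil)) 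
(.lf (nat_lit 187471) (.g (nat_lit 2449) (.e (nat_lit 57924) (nat_lit 282) (.e (nat_lit 163868) (nat_lit 2) (.e (nat_lit 196670) (nat_lit 14) (.e (nat_lit 73746) (nat_lit 3) (.e (nat_lit 516131) (nat_lit 3) .nil))))) .nil))) (.nd (nat_lit 6) 
(.lf (nat_lit 187439) (.g (nat_lit 1151) (.e (nat_lit 57921) (nat_lit 280) (.e (nat_lit 57378) (nat_lit 3) (.e (nat_lit 98386) (nat_lit 32) .nil))) .nil)) 
(.lf (nat_lit 187503) (.g (nat_lit 2232) (.e (nat_lit 57924) (nat_lit 282) (.e (nat_lit 163875) (nat_lit 3) (.e (nat_lit 204861) (nat_lit 26) (.e (nat_lit 336076) (nat_lit 9) (.e (nat_lit 336367) (nat_lit 27) .nil))))) .nil)))) (.nd (nat_lit 5) (.nd (nat_lit 6) 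
(.lf (nat_lit 187423) (.g (nat_lit 1937) (.e (nat_lit 57902) (nat_lit 277) (.e (nat_lit 131140) (nat_lit 27) (.e (nat_lit 426343) (nat_lit 14) (.e (nat_lit 491552) (nat_lit 9) (.e (nat_lit 336248) (nat_lit 15) (.e (nat_lit 7077) (nat_lit 378) .nil)))))) (.g (nat_lit 4) .nil .nil))) 
(.lf (nat_lit 187487) (.g (nat_lit 2048) (.e (nat_lit 57924) (nat_lit 282) (.e (nat_lit 163871) (nat_lit 2) (.e (nat_lit 196674) (nat_lit 15) (.e (nat_lit 81925) (nat_lit 11) (.e (nat_lit 426500) (nat_lit 27) .nil))))) .nil))) (.nd (nat_lit 6) 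
(.lf (nat_lit 187455) (.g (nat_lit 2798) (.e (nat_lit 57924) (nat_lit 282) (.e (nat_lit 163867) (nat_lit 2) (.e (nat_lit 196670) (nat_lit 14) (.e (nat_lit 73746) (nat_lit 3) (.e (nat_lit 516131) (nat_lit 3) (.e (nat_lit 221212) (nat_lit 22) (.e (nat_lit 196628) (nat_lit 9) (.e (nat_lit 1184) (nat_lit 87) .nil)))))))) (.g (nat_lit 5) .nil .nil))) 
(.lf (nat_lit 187519) (.g (nat_lit 1997) (.e (nat_lit 57924) (nat_lit 282) (.e (nat_lit 163905) (nat_lit 12) (.e (nat_lit 426555) (nat_lit 32) (.e (nat_lit 376862) (nat_lit 22) .nil)))) .nil)))))))))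

noncomputable def tv2490 : DT := (.nd (nat_lit 0) (.nd (nat_lit 1) (.nd (nat_lit 2) (.nd (nat_lit 3) (.nd (nat_lit 4) (.nd (nat_lit 5) (.nd (nat_lit 6) 
(.lf (nat_lit 187520) (.g (nat_lit 1227) (.e (nat_lit 57924) (nat_lit 282) (.e (nat_lit 163907) (nat_lit 12) (.e (nat_lit 426544) (nat_lit 30) .nil))) .nil)) 
(.lf (nat_lit 187584) (.g (nat_lit 1575) (.e (nat_lit 57925) (nat_lit 282) (.e (nat_lit 163907) (nat_lit 12) (.e (nat_lit 426555) (nat_lit 32) (.e (nat_lit 376867) (nat_lit 23) (.e (nat_lit 98313) (nat_lit 9) .nil))))) .nil))) (.nd (nat_lit 6) 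
(.lf (nat_lit 187552) (.g (nat_lit 2634) (.e (nat_lit 57925) (nat_lit 282) (.e (nat_lit 163869) (nat_lit 2) (.e (nat_lit 196670) (nat_lit 14) (.e (nat_lit 73746) (nat_lit 3) (.e (nat_lit 516124) (nat_lit 2) .nil))))) .nil)) 
(.lf (nat_lit 187616) (.g (nat_lit 2358) (.e (nat_lit 57926) (nat_lit 282) (.e (nat_lit 163869) (nat_lit 2) (.e (nat_lit 196670) (nat_lit 14) (.e (nat_lit 73746) (nat_lit 3) (.e (nat_lit 516131) (nat_lit 3) (.e (nat_lit 221212) (nat_lit 22) (.e (nat_lit 196625) (nat_lit 9) (.e (nat_lit 1169) (nat_lit 87) .nil)))))))) (.g (nat_lit 4) .nil .nil))))) (.nd (nat_lit 5) (.nd (nat_lit 6) 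
(.lf (nat_lit 187536) (.g (nat_lit 2781) (.e (nat_lit 57925) (nat_lit 282) (.e (nat_lit 163867) (nat_lit 2) (.e (nat_lit 196670) (nat_lit 14) (.e (nat_lit 73755) (nat_lit 8) (.e (nat_lit 557105) (nat_lit 14) (.e (nat_lit 180252) (nat_lit 10) (.e (nat_lit 573451) (nat_lit 9) (.e (nat_lit 1174) (nat_lit 87) .nil)))))))) (.g (nat_lit 4) .nil .nil))) 
(.lf (nat_lit 187600) (.g (nat_lit 2816) (.e (nat_lit 57926) (nat_lit 282) (.e (nat_lit 163868) (nat_lit 2) (.e (nat_lit 196670) (nat_lit 14) (.e (nat_lit 73746) (nat_lit 3) (.e (nat_lit 516131) (nat_lit 3) (.e (nat_lit 221212) (nat_lit 22) (.e (nat_lit 196632) (nat_lit 9) (.e (nat_lit 1170) (nat_lit 87) .nil)))))))) (.g (nat_lit 4) .nil .nil)))) (.nd (nat_lit 6) 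
(.lf (nat_lit 187568) (.g (nat_lit 928) (.e (nat_lit 57925) (nat_lit 282) (.e (nat_lit 163875) (nat_lit 3) (.e (nat_lit 204859) (nat_lit 26) (.e (nat_lit 336209) (nat_lit 13) .nil)))) .nil)) 
(.lf (nat_lit 187632) (.g (nat_lit 1583) (.e (nat_lit 57926) (nat_lit 282) (.e (nat_lit 163871) (nat_lit 2) (.e (nat_lit 196665) (nat_lit 13) (.e (nat_lit 65625) (nat_lit 13) (.e (nat_lit 393225) (nat_lit 9) .nil))))) .nil))))) (.nd (nat_lit 4) (.nd (nat_lit 5) (.nd (nat_lit 6) 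
(.lf (nat_lit 187528) (.g (nat_lit 721) (.e (nat_lit 57925) (nat_lit 282) (.e (nat_lit 163867) (nat_lit 2) (.e (nat_lit 196663) (nat_lit 13) .nil))) .nil)) 
(.lf (nat_lit 187592) (.g (nat_lit 2017) (.e (nat_lit 57926) (nat_lit 282) (.e (nat_lit 163867) (nat_lit 2) (.e (nat_lit 196674) (nat_lit 15) (.e (nat_lit 81925) (nat_lit 11) (.e (nat_lit 426500) (nat_lit 27) .nil))))) .nil))) (.nd (nat_lit 6) 
(.lf (nat_lit 187560) (.g (nat_lit 2095) (.e (nat_lit 57925) (nat_lit 282) (.e (nat_lit 163870) (nat_lit 2) (.e (nat_lit 196670) (nat_lit 14) (.e (nat_lit 73746) (nat_lit 3) (.e (nat_lit 516129) (nat_lit 3) .nil))))) .nil)) 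
(.lf (nat_lit 187624) (.g (nat_lit 2628) (.e (nat_lit 57926) (nat_lit 282) (.e (nat_lit 163869) (nat_lit 2) (.e (nat_lit 196670) (nat_lit 14) (.e (nat_lit 73754) (nat_lit 8) (.e (nat_lit 557105) (nat_lit 14) (.e (nat_lit 180252) (nat_lit 10) (.e (nat_lit 573452) (nat_lit 9) (.e (nat_lit 1175) (nat_lit 87) .nil)))))))) (.g (nat_lit 4) .nil .nil))))) (.nd (nat_lit 5) (.nd (nat_lit 6) 
(.lf (nat_lit 187544) (.g (nat_lit 1100) (.e (nat_lit 57925) (nat_lit 282) (.e (nat_lit 163868) (nat_lit 2) (.e (nat_lit 196672) (nat_lit 15) (.e (nat_lit 81925) (nat_lit 11) .nil)))) .nil)) 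
(.lf (nat_lit 187608) (.g (nat_lit 2062) (.e (nat_lit 57926) (nat_lit 282) (.e (nat_lit 163868) (nat_lit 2) (.e (nat_lit 196681) (nat_lit 17) (.e (nat_lit 131124) (nat_lit 13) .nil)))) .nil))) (.nd (nat_lit 6) 
(.lf (nat_lit 187576) (.g (nat_lit 887) (.e (nat_lit 57925) (nat_lit 282) (.e (nat_lit 163875) (nat_lit 3) (.e (nat_lit 204873) (nat_lit 30) .nil))) .nil)) 
(.lf (nat_lit 187640) (.g (nat_lit 2214) (.e (nat_lit 57926) (nat_lit 282) (.e (nat_lit 163873) (nat_lit 3) (.e (nat_lit 204862) (nat_lit 27) (.e (nat_lit 344117) (nat_lit 21) (.e (nat_lit 516130) (nat_lit 3) .nil))))) .nil)))))) (.nd (nat_lit 3) (.nd (nat_lit 4) (.nd (nat_lit 5) (.nd (nat_lit 6) 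
(.lf (nat_lit 187524) (.g (nat_lit 3780) (.e (nat_lit 57924) (nat_lit 282) (.e (nat_lit 163923) (nat_lit 15) (.e (nat_lit 450587) (nat_lit 10) (.e (nat_lit 573475) (nat_lit 12) (.e (nat_lit 57359) (nat_lit 0) .nil))))) .nil)) 
(.lf (nat_lit 187588) (.g (nat_lit 2201) (.e (nat_lit 57926) (nat_lit 282) (.e (nat_lit 163866) (nat_lit 2) (.e (nat_lit 196666) (nat_lit 13) (.e (nat_lit 65625) (nat_lit 13) (.e (nat_lit 393225) (nat_lit 9) .nil))))) .nil))) (.nd (nat_lit 6) 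
(.lf (nat_lit 187556) (.g (nat_lit 2539) (.e (nat_lit 57925) (nat_lit 282) (.e (nat_lit 163870) (nat_lit 2) (.e (nat_lit 196666) (nat_lit 13) (.e (nat_lit 65571) (nat_lit 3) (.e (nat_lit 98341) (nat_lit 20) .nil))))) .nil)) 
(.lf (nat_lit 187620) (.g (nat_lit 4756) (.e (nat_lit 57926) (nat_lit 282) (.e (nat_lit 163869) (nat_lit 2) (.e (nat_lit 196670) (nat_lit 14) (.e (nat_lit 73753) (nat_lit 8) (.e (nat_lit 557105) (nat_lit 14) (.e (nat_lit 180252) (nat_lit 10) (.e (nat_lit 573451) (nat_lit 9) (.e (nat_lit 1169) (nat_lit 87) .nil)))))))) (.g (nat_lit 7) .nil .nil))))) (.nd (nat_lit 5) (.nd (nat_lit 6) 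
(.lf (nat_lit 187540) (.g (nat_lit 2199) (.e (nat_lit 57925) (nat_lit 282) (.e (nat_lit 163868) (nat_lit 2) (.e (nat_lit 196668) (nat_lit 14) (.e (nat_lit 73746) (nat_lit 3) (.e (nat_lit 516129) (nat_lit 3) .nil))))) .nil)) 
(.lf (nat_lit 187604) (.g (nat_lit 1150) (.e (nat_lit 57926) (nat_lit 282) (.e (nat_lit 163868) (nat_lit 2) (.e (nat_lit 196672) (nat_lit 15) (.e (nat_lit 81927) (nat_lit 11) .nil)))) .nil))) (.nd (nat_lit 6) 
(.lf (nat_lit 187572) (.g (nat_lit 1989) (.e (nat_lit 57925) (nat_lit 282) (.e (nat_lit 163875) (nat_lit 3) (.e (nat_lit 204863) (nat_lit 27) (.e (nat_lit 344117) (nat_lit 21) (.e (nat_lit 516130) (nat_lit 3) .nil))))) .nil)) 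
(.lf (nat_lit 187636) (.g (nat_lit 2336) (.e (nat_lit 57926) (nat_lit 282) (.e (nat_lit 163872) (nat_lit 3) (.e (nat_lit 204863) (nat_lit 27) (.e (nat_lit 344117) (nat_lit 21) (.e (nat_lit 516129) (nat_lit 3) .nil))))) .nil))))) (.nd (nat_lit 4) (.nd (nat_lit 5) (.nd (nat_lit 6) 
(.lf (nat_lit 187532) (.g (nat_lit 2487) (.e (nat_lit 57925) (nat_lit 282) (.e (nat_lit 163867) (nat_lit 2) (.e (nat_lit 196670) (nat_lit 14) (.e (nat_lit 73746) (nat_lit 3) (.e (nat_lit 516131) (nat_lit 3) (.e (nat_lit 221212) (nat_lit 22) (.e (nat_lit 196624) (nat_lit 9) (.e (nat_lit 1186) (nat_lit 87) .nil)))))))) (.g (nat_lit 4) .nil .nil))) 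
(.lf (nat_lit 187596) (.g (nat_lit 638) (.e (nat_lit 57926) (nat_lit 282) (.e (nat_lit 163868) (nat_lit 2) (.e (nat_lit 196666) (nat_lit 13) .nil))) .nil))) (.nd (nat_lit 6) 
(.lf (nat_lit 187564) (.g (nat_lit 651) (.e (nat_lit 57925) (nat_lit 282) (.e (nat_lit 163871) (nat_lit 2) (.e (nat_lit 196674) (nat_lit 15) .nil))) .nil)) 
(.lf (nat_lit 187628) (.g (nat_lit 1114) (.e (nat_lit 57926) (nat_lit 282) (.e (nat_lit 163870) (nat_lit 2) (.e (nat_lit 196630) (nat_lit 9) (.e (nat_lit 1573) (nat_lit 110) .nil)))) .nil)))) (.nd (nat_lit 5) (.nd (nat_lit 6) 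
(.lf (nat_lit 187548) (.g (nat_lit 902) (.e (nat_lit 57925) (nat_lit 282) (.e (nat_lit 163869) (nat_lit 2) (.e (nat_lit 196668) (nat_lit 14) .nil))) .nil)) 
(.lf (nat_lit 187612) (.g (nat_lit 1729) (.e (nat_lit 57926) (nat_lit 282) (.e (nat_lit 163869) (nat_lit 2) (.e (nat_lit 196670) (nat_lit 14) (.e (nat_lit 73746) (nat_lit 3) (.e (nat_lit 516129) (nat_lit 3) .nil))))) .nil))) (.nd (nat_lit 6) 
(.lf (nat_lit 187580) (.g (nat_lit 1690) (.e (nat_lit 57925) (nat_lit 282) (.e (nat_lit 163905) (nat_lit 12) (.e (nat_lit 426555) (nat_lit 32) (.e (nat_lit 376867) (nat_lit 23) .nil)))) .nil)) 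
(.lf (nat_lit 187644) (.g (nat_lit 1545) (.e (nat_lit 57926) (nat_lit 282) (.e (nat_lit 163873) (nat_lit 3) (.e (nat_lit 204866) (nat_lit 28) (.e (nat_lit 360192) (nat_lit 18) .nil)))) .nil))))))) (.nd (nat_lit 2) (.nd (nat_lit 3) (.nd (nat_lit 4) (.nd (nat_lit 5) (.nd (nat_lit 6) 
(.lf (nat_lit 187522) (.g (nat_lit 2145) (.e (nat_lit 57924) (nat_lit 282) (.e (nat_lit 163907) (nat_lit 12) (.e (nat_lit 426555) (nat_lit 32) (.e (nat_lit 376865) (nat_lit 22) (.e (nat_lit 90160) (nat_lit 11) .nil))))) .nil)) 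
(.lf (nat_lit 187586) (.g (nat_lit 1810) (.e (nat_lit 57926) (nat_lit 282) (.e (nat_lit 163865) (nat_lit 2) (.e (nat_lit 196666) (nat_lit 13) (.e (nat_lit 65625) (nat_lit 13) (.e (nat_lit 393225) (nat_lit 9) .nil))))) .nil))) (.nd (nat_lit 6) 
(.lf (nat_lit 187554) (.g (nat_lit 905) (.e (nat_lit 57925) (nat_lit 282) (.e (nat_lit 163869) (nat_lit 2) (.e (nat_lit 196672) (nat_lit 15) .nil))) .nil)) 
(.lf (nat_lit 187618) (.g (nat_lit 2940) (.e (nat_lit 57926) (nat_lit 282) (.e (nat_lit 163869) (nat_lit 2) (.e (nat_lit 196670) (nat_lit 14) (.e (nat_lit 73746) (nat_lit 3) (.e (nat_lit 516131) (nat_lit 3) (.e (nat_lit 221212) (nat_lit 22) (.e (nat_lit 196628) (nat_lit 9) (.e (nat_lit 1184) (nat_lit 87) .nil)))))))) (.g (nat_lit 5) .nil .nil))))) (.nd (nat_lit 5) (.nd (nat_lit 6) 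
(.lf (nat_lit 187538) (.g (nat_lit 1300) (.e (nat_lit 57925) (nat_lit 282) (.e (nat_lit 163867) (nat_lit 2) (.e (nat_lit 196672) (nat_lit 15) (.e (nat_lit 89856) (nat_lit 18) .nil)))) .nil)) 
(.lf (nat_lit 187602) (.g (nat_lit 2981) (.e (nat_lit 57926) (nat_lit 282) (.e (nat_lit 163868) (nat_lit 2) (.e (nat_lit 196670) (nat_lit 14) (.e (nat_lit 73753) (nat_lit 8) (.e (nat_lit 557105) (nat_lit 14) (.e (nat_lit 180252) (nat_lit 10) (.e (nat_lit 573451) (nat_lit 9) (.e (nat_lit 1169) (nat_lit 87) .nil)))))))) (.g (nat_lit 4) .nil .nil)))) (.nd (nat_lit 6) 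
(.lf (nat_lit 187570) (.g (nat_lit 2304) (.e (nat_lit 57925) (nat_lit 282) (.e (nat_lit 163875) (nat_lit 3) (.e (nat_lit 204862) (nat_lit 27) (.e (nat_lit 344117) (nat_lit 21) (.e (nat_lit 516122) (nat_lit 2) .nil))))) .nil)) 
(.lf (nat_lit 187634) (.g (nat_lit 751) (.e (nat_lit 57926) (nat_lit 282) (.e (nat_lit 163871) (nat_lit 2) (.e (nat_lit 196673) (nat_lit 15) .nil))) .nil))))) (.nd (nat_lit 4) (.nd (nat_lit 5) (.nd (nat_lit 6) 
(.lf (nat_lit 187530) (.g (nat_lit 2308) (.e (nat_lit 57925) (nat_lit 282) (.e (nat_lit 163867) (nat_lit 2) (.e (nat_lit 196670) (nat_lit 14) (.e (nat_lit 73746) (nat_lit 3) (.e (nat_lit 516124) (nat_lit 2) .nil))))) .nil)) 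
(.lf (nat_lit 187594) (.g (nat_lit 1419) (.e (nat_lit 57926) (nat_lit 282) (.e (nat_lit 163867) (nat_lit 2) (.e (nat_lit 196674) (nat_lit 15) (.e (nat_lit 89856) (nat_lit 18) .nil)))) .nil))) (.nd (nat_lit 6) 
(.lf (nat_lit 187562) (.g (nat_lit 1073) (.e (nat_lit 57925) (nat_lit 282) (.e (nat_lit 163871) (nat_lit 2) (.e (nat_lit 196672) (nat_lit 15) (.e (nat_lit 81927) (nat_lit 11) (.e (nat_lit 426500) (nat_lit 27) .nil))))) .nil)) 
(.lf (nat_lit 187626) (.g (nat_lit 1039) (.e (nat_lit 57926) (nat_lit 282) (.e (nat_lit 163869) (nat_lit 2) (.e (nat_lit 196674) (nat_lit 15) (.e (nat_lit 81925) (nat_lit 11) .nil)))) .nil)))) (.nd (nat_lit 5) (.nd (nat_lit 6) 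
(.lf (nat_lit 187546) (.g (nat_lit 2479) (.e (nat_lit 57925) (nat_lit 282) (.e (nat_lit 163869) (nat_lit 2) (.e (nat_lit 196666) (nat_lit 13) (.e (nat_lit 65569) (nat_lit 3) .nil)))) .nil)) 
(.lf (nat_lit 187610) (.g (nat_lit 401) (.e (nat_lit 57926) (nat_lit 282) (.e (nat_lit 163869) (nat_lit 2) (.e (nat_lit 196630) (nat_lit 9) .nil))) .nil))) (.nd (nat_lit 6) 
(.lf (nat_lit 187578) (.g (nat_lit 1835) (.e (nat_lit 57925) (nat_lit 282) (.e (nat_lit 163905) (nat_lit 12) (.e (nat_lit 426555) (nat_lit 32) (.e (nat_lit 376862) (nat_lit 22) .nil)))) .nil)) 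
(.lf (nat_lit 187642) (.g (nat_lit 753) (.e (nat_lit 57926) (nat_lit 282) (.e (nat_lit 163873) (nat_lit 3) (.e (nat_lit 204865) (nat_lit 28) .nil))) .nil)))))) (.nd (nat_lit 3) (.nd (nat_lit 4) (.nd (nat_lit 5) (.nd (nat_lit 6) 
(.lf (nat_lit 187526) (.g (nat_lit 2795) (.e (nat_lit 57924) (nat_lit 282) (.e (nat_lit 163923) (nat_lit 15) (.e (nat_lit 450587) (nat_lit 10) (.e (nat_lit 573475) (nat_lit 12) (.e (nat_lit 57516) (nat_lit 42) (.e (nat_lit 671748) (nat_lit 0) (.e (nat_lit 1278) (nat_lit 94) (.e (nat_lit 114712) (nat_lit 21) .nil)))))))) (.g (nat_lit 4) .nil .nil))) 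
(.lf (nat_lit 187590) (.g (nat_lit 1747) (.e (nat_lit 57926) (nat_lit 282) (.e (nat_lit 163867) (nat_lit 2) (.e (nat_lit 196665) (nat_lit 13) (.e (nat_lit 65625) (nat_lit 13) (.e (nat_lit 393225) (nat_lit 9) .nil))))) .nil))) (.nd (nat_lit 6) 
(.lf (nat_lit 187558) (.g (nat_lit 2489) (.e (nat_lit 57925) (nat_lit 282) (.e (nat_lit 163870) (nat_lit 2) (.e (nat_lit 196666) (nat_lit 13) (.e (nat_lit 65625) (nat_lit 13) (.e (nat_lit 393225) (nat_lit 9) .nil))))) .nil)) 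
(.lf (nat_lit 187622) (.g (nat_lit 4784) (.e (nat_lit 57926) (nat_lit 282) (.e (nat_lit 163869) (nat_lit 2) (.e (nat_lit 196670) (nat_lit 14) (.e (nat_lit 73754) (nat_lit 8) (.e (nat_lit 557105) (nat_lit 14) (.e (nat_lit 180252) (nat_lit 10) (.e (nat_lit 573451) (nat_lit 9) (.e (nat_lit 1169) (nat_lit 87) .nil)))))))) (.g (nat_lit 6) .nil .nil))))) (.nd (nat_lit 5) (.nd (nat_lit 6) 
(.lf (nat_lit 187542) (.g (nat_lit 2435) (.e (nat_lit 57925) (nat_lit 282) (.e (nat_lit 163868) (nat_lit 2) (.e (nat_lit 196668) (nat_lit 14) (.e (nat_lit 73747) (nat_lit 3) (.e (nat_lit 516130) (nat_lit 3) .nil))))) .nil)) 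
(.lf (nat_lit 187606) (.g (nat_lit 1256) (.e (nat_lit 57926) (nat_lit 282) (.e (nat_lit 163868) (nat_lit 2) (.e (nat_lit 196674) (nat_lit 15) (.e (nat_lit 81925) (nat_lit 11) .nil)))) .nil))) (.nd (nat_lit 6) 
(.lf (nat_lit 187574) (.g (nat_lit 1354) (.e (nat_lit 57925) (nat_lit 282) (.e (nat_lit 163875) (nat_lit 3) (.e (nat_lit 204866) (nat_lit 28) (.e (nat_lit 360192) (nat_lit 18) .nil)))) .nil)) 
(.lf (nat_lit 187638) (.g (nat_lit 1966) (.e (nat_lit 57926) (nat_lit 282) (.e (nat_lit 163873) (nat_lit 3) (.e (nat_lit 204854) (nat_lit 26) (.e (nat_lit 336211) (nat_lit 13) .nil)))) .nil))))) (.nd (nat_lit 4) (.nd (nat_lit 5) (.nd (nat_lit 6) 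
(.lf (nat_lit 187534) (.g (nat_lit 2805) (.e (nat_lit 57925) (nat_lit 282) (.e (nat_lit 163867) (nat_lit 2) (.e (nat_lit 196670) (nat_lit 14) (.e (nat_lit 73746) (nat_lit 3) (.e (nat_lit 516131) (nat_lit 3) (.e (nat_lit 221212) (nat_lit 22) (.e (nat_lit 196625) (nat_lit 9) (.e (nat_lit 1175) (nat_lit 87) .nil)))))))) (.g (nat_lit 5) .nil .nil))) 
(.lf (nat_lit 187598) (.g (nat_lit 2175) (.e (nat_lit 57926) (nat_lit 282) (.e (nat_lit 163868) (nat_lit 2) (.e (nat_lit 196670) (nat_lit 14) (.e (nat_lit 73746) (nat_lit 3) (.e (nat_lit 516127) (nat_lit 2) .nil))))) .nil))) (.nd (nat_lit 6) 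
(.lf (nat_lit 187566) (.g (nat_lit 872) (.e (nat_lit 57925) (nat_lit 282) (.e (nat_lit 163874) (nat_lit 3) (.e (nat_lit 204861) (nat_lit 26) .nil))) .nil)) 
(.lf (nat_lit 187630) (.g (nat_lit 1613) (.e (nat_lit 57926) (nat_lit 282) (.e (nat_lit 163870) (nat_lit 2) (.e (nat_lit 196666) (nat_lit 13) (.e (nat_lit 65627) (nat_lit 13) .nil)))) .nil)))) (.nd (nat_lit 5) (.nd (nat_lit 6) 
(.lf (nat_lit 187550) (.g (nat_lit 2322) (.e (nat_lit 57925) (nat_lit 282) (.e (nat_lit 163869) (nat_lit 2) (.e (nat_lit 196668) (nat_lit 14) (.e (nat_lit 73747) (nat_lit 3) (.e (nat_lit 516131) (nat_lit 3) .nil))))) .nil)) 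
(.lf (nat_lit 187614) (.g (nat_lit 1991) (.e (nat_lit 57926) (nat_lit 282) (.e (nat_lit 163869) (nat_lit 2) (.e (nat_lit 196670) (nat_lit 14) (.e (nat_lit 73746) (nat_lit 3) (.e (nat_lit 516130) (nat_lit 3) .nil))))) .nil))) (.nd (nat_lit 6) 
(.lf (nat_lit 187582) (.g (nat_lit 1227) (.e (nat_lit 57925) (nat_lit 282) (.e (nat_lit 163907) (nat_lit 12) (.e (nat_lit 426544) (nat_lit 30) .nil))) .nil)) 
(.lf (nat_lit 187646) (.g (nat_lit 1130) (.e (nat_lit 57926) (nat_lit 282) (.e (nat_lit 163874) (nat_lit 3) (.e (nat_lit 204816) (nat_lit 17) .nil))) .nil)))))))) (.nd (nat_lit 1) (.nd (nat_lit 2) (.nd (nat_lit 3) (.nd (nat_lit 4) (.nd (nat_lit 5) (.nd (nat_lit 6) 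
(.lf (nat_lit 187521) (.g (nat_lit 2079) (.e (nat_lit 57924) (nat_lit 282) (.e (nat_lit 163907) (nat_lit 12) (.e (nat_lit 426555) (nat_lit 32) (.e (nat_lit 376862) (nat_lit 22) (.e (nat_lit 90160) (nat_lit 11) .nil))))) .nil)) 
(.lf (nat_lit 187585) (.g (nat_lit 1601) (.e (nat_lit 57925) (nat_lit 282) (.e (nat_lit 163907) (nat_lit 12) (.e (nat_lit 426555) (nat_lit 32) (.e (nat_lit 376869) (nat_lit 23) (.e (nat_lit 98313) (nat_lit 9) .nil))))) .nil))) (.nd (nat_lit 6) 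
(.lf (nat_lit 187553) (.g (nat_lit 2342) (.e (nat_lit 57925) (nat_lit 282) (.e (nat_lit 163869) (nat_lit 2) (.e (nat_lit 196670) (nat_lit 14) (.e (nat_lit 73746) (nat_lit 3) (.e (nat_lit 516131) (nat_lit 3) .nil))))) .nil)) 
(.lf (nat_lit 187617) (.g (nat_lit 3353) (.e (nat_lit 57926) (nat_lit 282) (.e (nat_lit 163869) (nat_lit 2) (.e (nat_lit 196670) (nat_lit 14) (.e (nat_lit 73746) (nat_lit 3) (.e (nat_lit 516131) (nat_lit 3) (.e (nat_lit 221212) (nat_lit 22) (.e (nat_lit 196625) (nat_lit 9) (.e (nat_lit 1174) (nat_lit 87) .nil)))))))) (.g (nat_lit 6) .nil .nil))))) (.nd (nat_lit 5) (.nd (nat_lit 6) 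
(.lf (nat_lit 187537) (.g (nat_lit 1477) (.e (nat_lit 57925) (nat_lit 282) (.e (nat_lit 163867) (nat_lit 2) (.e (nat_lit 196672) (nat_lit 15) (.e (nat_lit 81925) (nat_lit 11) (.e (nat_lit 426500) (nat_lit 27) .nil))))) .nil)) 
(.lf (nat_lit 187601) (.g (nat_lit 1546) (.e (nat_lit 57926) (nat_lit 282) (.e (nat_lit 163868) (nat_lit 2) (.e (nat_lit 196670) (nat_lit 14) (.e (nat_lit 73748) (nat_lit 3) .nil)))) .nil))) (.nd (nat_lit 6) 
(.lf (nat_lit 187569) (.g (nat_lit 1397) (.e (nat_lit 57925) (nat_lit 282) (.e (nat_lit 163875) (nat_lit 3) (.e (nat_lit 204861) (nat_lit 26) (.e (nat_lit 336076) (nat_lit 9) .nil)))) .nil)) 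
(.lf (nat_lit 187633) (.g (nat_lit 683) (.e (nat_lit 57926) (nat_lit 282) (.e (nat_lit 163871) (nat_lit 2) (.e (nat_lit 196666) (nat_lit 13) .nil))) .nil))))) (.nd (nat_lit 4) (.nd (nat_lit 5) (.nd (nat_lit 6) 
(.lf (nat_lit 187529) (.g (nat_lit 2185) (.e (nat_lit 57925) (nat_lit 282) (.e (nat_lit 163867) (nat_lit 2) (.e (nat_lit 196663) (nat_lit 13) (.e (nat_lit 65571) (nat_lit 3) (.e (nat_lit 98341) (nat_lit 20) .nil))))) .nil)) 
(.lf (nat_lit 187593) (.g (nat_lit 1419) (.e (nat_lit 57926) (nat_lit 282) (.e (nat_lit 163867) (nat_lit 2) (.e (nat_lit 196674) (nat_lit 15) (.e (nat_lit 89856) (nat_lit 11) .nil)))) .nil))) (.nd (nat_lit 6) 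
(.lf (nat_lit 187561) (.g (nat_lit 2101) (.e (nat_lit 57925) (nat_lit 282) (.e (nat_lit 163871) (nat_lit 2) (.e (nat_lit 196670) (nat_lit 14) (.e (nat_lit 73746) (nat_lit 3) (.e (nat_lit 516126) (nat_lit 2) .nil))))) .nil)) 
(.lf (nat_lit 187625) (.g (nat_lit 622) (.e (nat_lit 57926) (nat_lit 282) (.e (nat_lit 163869) (nat_lit 2) (.e (nat_lit 196673) (nat_lit 15) .nil))) .nil)))) (.nd (nat_lit 5) (.nd (nat_lit 6) 
(.lf (nat_lit 187545) (.g (nat_lit 1196) (.e (nat_lit 57925) (nat_lit 282) (.e (nat_lit 163868) (nat_lit 2) (.e (nat_lit 196672) (nat_lit 15) (.e (nat_lit 89856) (nat_lit 18) .nil)))) .nil)) 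
(.lf (nat_lit 187609) (.g (nat_lit 1682) (.e (nat_lit 57926) (nat_lit 282) (.e (nat_lit 163868) (nat_lit 2) (.e (nat_lit 196681) (nat_lit 17) (.e (nat_lit 131128) (nat_lit 13) (.e (nat_lit 393224) (nat_lit 9) .nil))))) .nil))) (.nd (nat_lit 6) 
(.lf (nat_lit 187577) (.g (nat_lit 2013) (.e (nat_lit 57925) (nat_lit 282) (.e (nat_lit 163875) (nat_lit 3) (.e (nat_lit 204873) (nat_lit 30) (.e (nat_lit 368676) (nat_lit 21) (.e (nat_lit 516131) (nat_lit 3) .nil))))) .nil)) 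
(.lf (nat_lit 187641) (.g (nat_lit 2814) (.e (nat_lit 57926) (nat_lit 282) (.e (nat_lit 163873) (nat_lit 3) (.e (nat_lit 204863) (nat_lit 27) (.e (nat_lit 344117) (nat_lit 21) (.e (nat_lit 516130) (nat_lit 3) .nil))))) .nil)))))) (.nd (nat_lit 3) (.nd (nat_lit 4) (.nd (nat_lit 5) (.nd (nat_lit 6) 
(.lf (nat_lit 187525) (.g (nat_lit 2754) (.e (nat_lit 57924) (nat_lit 282) (.e (nat_lit 163923) (nat_lit 15) (.e (nat_lit 450587) (nat_lit 10) (.e (nat_lit 573475) (nat_lit 12) (.e (nat_lit 57515) (nat_lit 42) .nil))))) .nil)) 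
(.lf (nat_lit 187589) (.g (nat_lit 1676) (.e (nat_lit 57926) (nat_lit 282) (.e (nat_lit 163866) (nat_lit 2) (.e (nat_lit 196670) (nat_lit 14) (.e (nat_lit 73746) (nat_lit 3) (.e (nat_lit 516124) (nat_lit 2) .nil))))) .nil))) (.nd (nat_lit 6) 
(.lf (nat_lit 187557) (.g (nat_lit 1983) (.e (nat_lit 57925) (nat_lit 282) (.e (nat_lit 163870) (nat_lit 2) (.e (nat_lit 196666) (nat_lit 13) (.e (nat_lit 65625) (nat_lit 13) .nil)))) .nil)) 
(.lf (nat_lit 187621) (.g (nat_lit 4727) (.e (nat_lit 57926) (nat_lit 282) (.e (nat_lit 163869) (nat_lit 2) (.e (nat_lit 196670) (nat_lit 14) (.e (nat_lit 73753) (nat_lit 8) (.e (nat_lit 557105) (nat_lit 14) (.e (nat_lit 180252) (nat_lit 10) (.e (nat_lit 573451) (nat_lit 9) (.e (nat_lit 1175) (nat_lit 87) .nil)))))))) (.g (nat_lit 7) .nil .nil))))) (.nd (nat_lit 5) (.nd (nat_lit 6) 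
(.lf (nat_lit 187541) (.g (nat_lit 2232) (.e (nat_lit 57925) (nat_lit 282) (.e (nat_lit 163868) (nat_lit 2) (.e (nat_lit 196668) (nat_lit 14) (.e (nat_lit 73746) (nat_lit 3) (.e (nat_lit 516131) (nat_lit 3) .nil))))) .nil)) 
(.lf (nat_lit 187605) (.g (nat_lit 868) (.e (nat_lit 57926) (nat_lit 282) (.e (nat_lit 163868) (nat_lit 2) (.e (nat_lit 196673) (nat_lit 15) (.e (nat_lit 89856) (nat_lit 18) .nil)))) .nil))) (.nd (nat_lit 6) 
(.lf (nat_lit 187573) (.g (nat_lit 1875) (.e (nat_lit 57925) (nat_lit 282) (.e (nat_lit 163875) (nat_lit 3) (.e (nat_lit 204863) (nat_lit 27) (.e (nat_lit 344120) (nat_lit 21) .nil)))) .nil)) 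
(.lf (nat_lit 187637) (.g (nat_lit 747) (.e (nat_lit 57926) (nat_lit 282) (.e (nat_lit 163873) (nat_lit 3) (.e (nat_lit 204851) (nat_lit 26) .nil))) .nil))))) (.nd (nat_lit 4) (.nd (nat_lit 5) (.nd (nat_lit 6) 
(.lf (nat_lit 187533) (.g (nat_lit 2809) (.e (nat_lit 57925) (nat_lit 282) (.e (nat_lit 163867) (nat_lit 2) (.e (nat_lit 196670) (nat_lit 14) (.e (nat_lit 73746) (nat_lit 3) (.e (nat_lit 516131) (nat_lit 3) (.e (nat_lit 221212) (nat_lit 22) (.e (nat_lit 196625) (nat_lit 9) (.e (nat_lit 1174) (nat_lit 87) .nil)))))))) (.g (nat_lit 5) .nil .nil))) 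
(.lf (nat_lit 187597) (.g (nat_lit 2148) (.e (nat_lit 57926) (nat_lit 282) (.e (nat_lit 163868) (nat_lit 2) (.e (nat_lit 196670) (nat_lit 14) (.e (nat_lit 73746) (nat_lit 3) (.e (nat_lit 516126) (nat_lit 2) .nil))))) .nil))) (.nd (nat_lit 6) 
(.lf (nat_lit 187565) (.g (nat_lit 2072) (.e (nat_lit 57925) (nat_lit 282) (.e (nat_lit 163871) (nat_lit 2) (.e (nat_lit 196674) (nat_lit 15) (.e (nat_lit 81925) (nat_lit 11) (.e (nat_lit 426500) (nat_lit 27) .nil))))) .nil)) 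
(.lf (nat_lit 187629) (.g (nat_lit 2577) (.e (nat_lit 57926) (nat_lit 282) (.e (nat_lit 163870) (nat_lit 2) (.e (nat_lit 196666) (nat_lit 13) (.e (nat_lit 65625) (nat_lit 13) (.e (nat_lit 393229) (nat_lit 9) .nil))))) .nil)))) (.nd (nat_lit 5) (.nd (nat_lit 6) 
(.lf (nat_lit 187549) (.g (nat_lit 2476) (.e (nat_lit 57925) (nat_lit 282) (.e (nat_lit 163869) (nat_lit 2) (.e (nat_lit 196668) (nat_lit 14) (.e (nat_lit 73747) (nat_lit 3) (.e (nat_lit 516129) (nat_lit 3) .nil))))) .nil)) 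
(.lf (nat_lit 187613) (.g (nat_lit 2027) (.e (nat_lit 57926) (nat_lit 282) (.e (nat_lit 163869) (nat_lit 2) (.e (nat_lit 196670) (nat_lit 14) (.e (nat_lit 73746) (nat_lit 3) (.e (nat_lit 516129) (nat_lit 3) (.e (nat_lit 221210) (nat_lit 22) (.e (nat_lit 196628) (nat_lit 9) (.e (nat_lit 1184) (nat_lit 87) .nil)))))))) (.g (nat_lit 4) .nil .nil)))) (.nd (nat_lit 6) 
(.lf (nat_lit 187581) (.g (nat_lit 1713) (.e (nat_lit 57925) (nat_lit 282) (.e (nat_lit 163905) (nat_lit 12) (.e (nat_lit 426555) (nat_lit 32) (.e (nat_lit 376869) (nat_lit 23) .nil)))) .nil)) 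
(.lf (nat_lit 187645) (.g (nat_lit 674) (.e (nat_lit 57926) (nat_lit 282) (.e (nat_lit 163873) (nat_lit 3) (.e (nat_lit 204878) (nat_lit 31) .nil))) .nil))))))) (.nd (nat_lit 2) (.nd (nat_lit 3) (.nd (nat_lit 4) (.nd (nat_lit 5) (.nd (nat_lit 6) 
(.lf (nat_lit 187523) (.g (nat_lit 2901) (.e (nat_lit 57924) (nat_lit 282) (.e (nat_lit 163923) (nat_lit 15) (.e (nat_lit 450587) (nat_lit 10) (.e (nat_lit 573456) (nat_lit 9) (.e (nat_lit 1288) (nat_lit 95) .nil))))) .nil)) 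
(.lf (nat_lit 187587) (.g (nat_lit 924) (.e (nat_lit 57926) (nat_lit 282) (.e (nat_lit 163866) (nat_lit 2) (.e (nat_lit 196630) (nat_lit 9) (.e (nat_lit 1573) (nat_lit 110) .nil)))) .nil))) (.nd (nat_lit 6) 
(.lf (nat_lit 187555) (.g (nat_lit 2732) (.e (nat_lit 57925) (nat_lit 282) (.e (nat_lit 163870) (nat_lit 2) (.e (nat_lit 196666) (nat_lit 13) (.e (nat_lit 65569) (nat_lit 3) (.e (nat_lit 98341) (nat_lit 20) .nil))))) .nil)) 
(.lf (nat_lit 187619) (.g (nat_lit 1653) (.e (nat_lit 57926) (nat_lit 282) (.e (nat_lit 163869) (nat_lit 2) (.e (nat_lit 196670) (nat_lit 14) (.e (nat_lit 73748) (nat_lit 3) .nil)))) .nil)))) (.nd (nat_lit 5) (.nd (nat_lit 6) 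
(.lf (nat_lit 187539) (.g (nat_lit 1279) (.e (nat_lit 57925) (nat_lit 282) (.e (nat_lit 163867) (nat_lit 2) (.e (nat_lit 196674) (nat_lit 15) (.e (nat_lit 81925) (nat_lit 11) .nil)))) .nil)) 
(.lf (nat_lit 187603) (.g (nat_lit 2943) (.e (nat_lit 57926) (nat_lit 282) (.e (nat_lit 163868) (nat_lit 2) (.e (nat_lit 196670) (nat_lit 14) (.e (nat_lit 73753) (nat_lit 8) (.e (nat_lit 557105) (nat_lit 14) (.e (nat_lit 180252) (nat_lit 10) (.e (nat_lit 573451) (nat_lit 9) (.e (nat_lit 1175) (nat_lit 87) .nil)))))))) (.g (nat_lit 4) .nil .nil)))) (.nd (nat_lit 6) 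
(.lf (nat_lit 187571) (.g (nat_lit 3121) (.e (nat_lit 57925) (nat_lit 282) (.e (nat_lit 163875) (nat_lit 3) (.e (nat_lit 204863) (nat_lit 27) (.e (nat_lit 344117) (nat_lit 21) (.e (nat_lit 516099) (nat_lit 0) .nil))))) .nil)) 
(.lf (nat_lit 187635) (.g (nat_lit 872) (.e (nat_lit 57926) (nat_lit 282) (.e (nat_lit 163871) (nat_lit 2) (.e (nat_lit 196674) (nat_lit 15) (.e (nat_lit 89856) (nat_lit 11) .nil)))) .nil))))) (.nd (nat_lit 4) (.nd (nat_lit 5) (.nd (nat_lit 6) 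
(.lf (nat_lit 187531) (.g (nat_lit 2160) (.e (nat_lit 57925) (nat_lit 282) (.e (nat_lit 163867) (nat_lit 2) (.e (nat_lit 196670) (nat_lit 14) (.e (nat_lit 73746) (nat_lit 3) (.e (nat_lit 516131) (nat_lit 3) .nil))))) .nil)) 
(.lf (nat_lit 187595) (.g (nat_lit 1430) (.e (nat_lit 57926) (nat_lit 282) (.e (nat_lit 163867) (nat_lit 2) (.e (nat_lit 196681) (nat_lit 17) (.e (nat_lit 131105) (nat_lit 9) .nil)))) .nil))) (.nd (nat_lit 6) 
(.lf (nat_lit 187563) (.g (nat_lit 1081) (.e (nat_lit 57925) (nat_lit 282) (.e (nat_lit 163871) (nat_lit 2) (.e (nat_lit 196672) (nat_lit 15) (.e (nat_lit 89856) (nat_lit 11) .nil)))) .nil)) 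
(.lf (nat_lit 187627) (.g (nat_lit 1469) (.e (nat_lit 57926) (nat_lit 282) (.e (nat_lit 163869) (nat_lit 2) (.e (nat_lit 196681) (nat_lit 17) (.e (nat_lit 131124) (nat_lit 13) .nil)))) .nil)))) (.nd (nat_lit 5) (.nd (nat_lit 6) 
(.lf (nat_lit 187547) (.g (nat_lit 1946) (.e (nat_lit 57925) (nat_lit 282) (.e (nat_lit 163869) (nat_lit 2) (.e (nat_lit 196666) (nat_lit 13) (.e (nat_lit 65571) (nat_lit 3) .nil)))) .nil)) 
(.lf (nat_lit 187611) (.g (nat_lit 2059) (.e (nat_lit 57926) (nat_lit 282) (.e (nat_lit 163869) (nat_lit 2) (.e (nat_lit 196666) (nat_lit 13) (.e (nat_lit 65626) (nat_lit 13) .nil)))) .nil))) (.nd (nat_lit 6) 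
(.lf (nat_lit 187579) (.g (nat_lit 1824) (.e (nat_lit 57925) (nat_lit 282) (.e (nat_lit 163905) (nat_lit 12) (.e (nat_lit 426555) (nat_lit 32) (.e (nat_lit 376865) (nat_lit 22) .nil)))) .nil)) 
(.lf (nat_lit 187643) (.g (nat_lit 2019) (.e (nat_lit 57926) (nat_lit 282) (.e (nat_lit 163873) (nat_lit 3) (.e (nat_lit 204866) (nat_lit 28) (.e (nat_lit 352277) (nat_lit 11) (.e (nat_lit 426500) (nat_lit 27) .nil))))) .nil)))))) (.nd (nat_lit 3) (.nd (nat_lit 4) (.nd (nat_lit 5) (.nd (nat_lit 6) 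
(.lf (nat_lit 187527) (.g (nat_lit 701) (.e (nat_lit 57924) (nat_lit 282) (.e (nat_lit 163931) (nat_lit 17) (.e (nat_lit 466975) (nat_lit 22) .nil))) .nil)) 
(.lf (nat_lit 187591) (.g (nat_lit 2186) (.e (nat_lit 57926) (nat_lit 282) (.e (nat_lit 163867) (nat_lit 2) (.e (nat_lit 196670) (nat_lit 14) (.e (nat_lit 73746) (nat_lit 3) (.e (nat_lit 516131) (nat_lit 3) .nil))))) .nil))) (.nd (nat_lit 6) 
(.lf (nat_lit 187559) (.g (nat_lit 1412) (.e (nat_lit 57925) (nat_lit 282) (.e (nat_lit 163870) (nat_lit 2) (.e (nat_lit 196666) (nat_lit 13) (.e (nat_lit 65627) (nat_lit 13) .nil)))) .nil)) 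
(.lf (nat_lit 187623) (.g (nat_lit 4755) (.e (nat_lit 57926) (nat_lit 282) (.e (nat_lit 163869) (nat_lit 2) (.e (nat_lit 196670) (nat_lit 14) (.e (nat_lit 73754) (nat_lit 8) (.e (nat_lit 557105) (nat_lit 14) (.e (nat_lit 180252) (nat_lit 10) (.e (nat_lit 573451) (nat_lit 9) (.e (nat_lit 1175) (nat_lit 87) .nil)))))))) (.g (nat_lit 6) .nil .nil))))) (.nd (nat_lit 5) (.nd (nat_lit 6) 
(.lf (nat_lit 187543) (.g (nat_lit 1881) (.e (nat_lit 57925) (nat_lit 282) (.e (nat_lit 163868) (nat_lit 2) (.e (nat_lit 196670) (nat_lit 14) (.e (nat_lit 73746) (nat_lit 3) .nil)))) .nil)) 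
(.lf (nat_lit 187607) (.g (nat_lit 1240) (.e (nat_lit 57926) (nat_lit 282) (.e (nat_lit 163868) (nat_lit 2) (.e (nat_lit 196674) (nat_lit 15) (.e (nat_lit 89856) (nat_lit 18) .nil)))) .nil))) (.nd (nat_lit 6) 
(.lf (nat_lit 187575) (.g (nat_lit 1699) (.e (nat_lit 57925) (nat_lit 282) (.e (nat_lit 163875) (nat_lit 3) (.e (nat_lit 204872) (nat_lit 30) (.e (nat_lit 368676) (nat_lit 21) (.e (nat_lit 516131) (nat_lit 3) .nil))))) .nil)) 
(.lf (nat_lit 187639) (.g (nat_lit 2721) (.e (nat_lit 57926) (nat_lit 282) (.e (nat_lit 163873) (nat_lit 3) (.e (nat_lit 204861) (nat_lit 26) (.e (nat_lit 336076) (nat_lit 9) (.e (nat_lit 336456) (nat_lit 34) (.e (nat_lit 483364) (nat_lit 18) .nil)))))) (.g (nat_lit 5) .nil .nil)))))) (.nd (nat_lit 4) (.nd (nat_lit 5) (.nd (nat_lit 6) 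
(.lf (nat_lit 187535) (.g (nat_lit 1615) (.e (nat_lit 57925) (nat_lit 282) (.e (nat_lit 163867) (nat_lit 2) (.e (nat_lit 196670) (nat_lit 14) (.e (nat_lit 73748) (nat_lit 3) .nil)))) .nil)) 
(.lf (nat_lit 187599) (.g (nat_lit 2594) (.e (nat_lit 57926) (nat_lit 282) (.e (nat_lit 163868) (nat_lit 2) (.e (nat_lit 196670) (nat_lit 14) (.e (nat_lit 73746) (nat_lit 3) (.e (nat_lit 516131) (nat_lit 3) (.e (nat_lit 221212) (nat_lit 22) (.e (nat_lit 196624) (nat_lit 9) (.e (nat_lit 1186) (nat_lit 87) .nil)))))))) (.g (nat_lit 4) .nil .nil)))) (.nd (nat_lit 6) 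
(.lf (nat_lit 187567) (.g (nat_lit 1974) (.e (nat_lit 57925) (nat_lit 282) (.e (nat_lit 163874) (nat_lit 3) (.e (nat_lit 204861) (nat_lit 26) (.e (nat_lit 336213) (nat_lit 13) .nil)))) .nil)) 
(.lf (nat_lit 187631) (.g (nat_lit 1346) (.e (nat_lit 57926) (nat_lit 282) (.e (nat_lit 163870) (nat_lit 2) (.e (nat_lit 196672) (nat_lit 15) (.e (nat_lit 81927) (nat_lit 11) (.e (nat_lit 426500) (nat_lit 27) .nil))))) .nil)))) (.nd (nat_lit 5) (.nd (nat_lit 6) 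
(.lf (nat_lit 187551) (.g (nat_lit 1832) (.e (nat_lit 57925) (nat_lit 282) (.e (nat_lit 163869) (nat_lit 2) (.e (nat_lit 196670) (nat_lit 14) (.e (nat_lit 73746) (nat_lit 3) .nil)))) .nil)) 
(.lf (nat_lit 187615) (.g (nat_lit 1794) (.e (nat_lit 57926) (nat_lit 282) (.e (nat_lit 163869) (nat_lit 2) (.e (nat_lit 196670) (nat_lit 14) (.e (nat_lit 73746) (nat_lit 3) (.e (nat_lit 516131) (nat_lit 3) .nil))))) .nil))) (.nd (nat_lit 6) 
(.lf (nat_lit 187583) (.g (nat_lit 1439) (.e (nat_lit 57925) (nat_lit 282) (.e (nat_lit 163907) (nat_lit 12) (.e (nat_lit 426555) (nat_lit 32) (.e (nat_lit 376862) (nat_lit 22) .nil)))) .nil)) 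
(.lf (nat_lit 187647) (.g (nat_lit 873) (.e (nat_lit 57926) (nat_lit 282) (.e (nat_lit 163874) (nat_lit 3) (.e (nat_lit 204850) (nat_lit 26) .nil))) .nil)))))))))

noncomputable def tv2491 : DT := (.nd (nat_lit 0) (.nd (nat_lit 1) (.nd (nat_lit 2) (.nd (nat_lit 3) (.nd (nat_lit 4) (.nd (nat_lit 5) (.nd (nat_lit 6) 
(.lf (nat_lit 187648) (.g (nat_lit 2490) (.e (nat_lit 57926) (nat_lit 282) (.e (nat_lit 163874) (nat_lit 3) (.e (nat_lit 204852) (nat_lit 26) (.e (nat_lit 336211) (nat_lit 13) (.e (nat_lit 393228) (nat_lit 9) .nil))))) .nil)) 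
(.lf (nat_lit 187712) (.g (nat_lit 1092) (.e (nat_lit 57926) (nat_lit 282) (.e (nat_lit 163943) (nat_lit 19) (.e (nat_lit 483412) (nat_lit 27) .nil))) .nil))) (.nd (nat_lit 6) 
(.lf (nat_lit 187680) (.g (nat_lit 1647) (.e (nat_lit 57926) (nat_lit 282) (.e (nat_lit 163875) (nat_lit 3) (.e (nat_lit 204863) (nat_lit 27) (.e (nat_lit 344120) (nat_lit 21) .nil)))) .nil)) 
(.lf (nat_lit 187744) (.g (nat_lit 1323) (.e (nat_lit 57927) (nat_lit 282) (.e (nat_lit 163868) (nat_lit 2) (.e (nat_lit 196663) (nat_lit 13) (.e (nat_lit 65625) (nat_lit 13) (.e (nat_lit 393225) (nat_lit 9) .nil))))) .nil)))) (.nd (nat_lit 5) (.nd (nat_lit 6) 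
(.lf (nat_lit 187664) (.g (nat_lit 250) (.e (nat_lit 57926) (nat_lit 282) (.e (nat_lit 163874) (nat_lit 3) (.e (nat_lit 204877) (nat_lit 31) .nil))) .nil)) 
(.lf (nat_lit 187728) (.g (nat_lit 814) (.e (nat_lit 57927) (nat_lit 282) (.e (nat_lit 163867) (nat_lit 2) (.e (nat_lit 196663) (nat_lit 13) .nil))) .nil))) (.nd (nat_lit 6) 
(.lf (nat_lit 187696) (.g (nat_lit 955) (.e (nat_lit 57926) (nat_lit 282) (.e (nat_lit 163905) (nat_lit 12) (.e (nat_lit 426542) (nat_lit 29) (.e (nat_lit 352310) (nat_lit 22) .nil)))) .nil)) 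
(.lf (nat_lit 187760) (.g (nat_lit 925) (.e (nat_lit 57927) (nat_lit 282) (.e (nat_lit 163868) (nat_lit 2) (.e (nat_lit 196672) (nat_lit 15) (.e (nat_lit 81927) (nat_lit 11) .nil)))) .nil))))) (.nd (nat_lit 4) (.nd (nat_lit 5) (.nd (nat_lit 6) 
(.lf (nat_lit 187656) (.g (nat_lit 2573) (.e (nat_lit 57926) (nat_lit 282) (.e (nat_lit 163874) (nat_lit 3) (.e (nat_lit 204861) (nat_lit 26) (.e (nat_lit 336076) (nat_lit 9) (.e (nat_lit 336454) (nat_lit 34) (.e (nat_lit 483362) (nat_lit 18) .nil)))))) (.g (nat_lit 4) .nil .nil))) 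
(.lf (nat_lit 187720) (.g (nat_lit 2386) (.e (nat_lit 57927) (nat_lit 282) (.e (nat_lit 163866) (nat_lit 2) (.e (nat_lit 196666) (nat_lit 13) (.e (nat_lit 65571) (nat_lit 3) (.e (nat_lit 98341) (nat_lit 20) .nil))))) .nil))) (.nd (nat_lit 6) 
(.lf (nat_lit 187688) (.g (nat_lit 755) (.e (nat_lit 57926) (nat_lit 282) (.e (nat_lit 163902) (nat_lit 12) (.e (nat_lit 426546) (nat_lit 30) .nil))) .nil)) 
(.lf (nat_lit 187752) (.g (nat_lit 2674) (.e (nat_lit 57927) (nat_lit 282) (.e (nat_lit 163868) (nat_lit 2) (.e (nat_lit 196669) (nat_lit 14) (.e (nat_lit 73755) (nat_lit 8) (.e (nat_lit 557105) (nat_lit 14) (.e (nat_lit 180252) (nat_lit 10) (.e (nat_lit 573451) (nat_lit 9) (.e (nat_lit 1173) (nat_lit 87) .nil)))))))) (.g (nat_lit 4) .nil .nil))))) (.nd (nat_lit 5) (.nd (nat_lit 6) 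
(.lf (nat_lit 187672) (.g (nat_lit 2805) (.e (nat_lit 57926) (nat_lit 282) (.e (nat_lit 163875) (nat_lit 3) (.e (nat_lit 204861) (nat_lit 26) (.e (nat_lit 336076) (nat_lit 9) (.e (nat_lit 336454) (nat_lit 34) (.e (nat_lit 483362) (nat_lit 18) .nil)))))) (.g (nat_lit 4) .nil .nil))) 
(.lf (nat_lit 187736) (.g (nat_lit 1318) (.e (nat_lit 57927) (nat_lit 282) (.e (nat_lit 163868) (nat_lit 2) (.e (nat_lit 196626) (nat_lit 9) (.e (nat_lit 1559) (nat_lit 110) .nil)))) .nil))) (.nd (nat_lit 6) 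
(.lf (nat_lit 187704) (.g (nat_lit 489) (.e (nat_lit 57926) (nat_lit 282) (.e (nat_lit 163932) (nat_lit 17) (.e (nat_lit 466977) (nat_lit 22) .nil))) .nil)) 
(.lf (nat_lit 187768) (.g (nat_lit 1884) (.e (nat_lit 57927) (nat_lit 282) (.e (nat_lit 163869) (nat_lit 2) (.e (nat_lit 196666) (nat_lit 13) (.e (nat_lit 65627) (nat_lit 13) (.e (nat_lit 393228) (nat_lit 9) .nil))))) .nil)))))) (.nd (nat_lit 3) (.nd (nat_lit 4) (.nd (nat_lit 5) (.nd (nat_lit 6) 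
(.lf (nat_lit 187652) (.g (nat_lit 1001) (.e (nat_lit 57926) (nat_lit 282) (.e (nat_lit 163874) (nat_lit 3) (.e (nat_lit 204860) (nat_lit 26) .nil))) .nil)) 
(.lf (nat_lit 187716) (.g (nat_lit 774) (.e (nat_lit 57927) (nat_lit 282) (.e (nat_lit 163843) (nat_lit 0) (.e (nat_lit 3114) (nat_lit 193) (.e (nat_lit 500069) (nat_lit 19) .nil)))) .nil))) (.nd (nat_lit 6) 
(.lf (nat_lit 187684) (.g (nat_lit 1365) (.e (nat_lit 57926) (nat_lit 282) (.e (nat_lit 163900) (nat_lit 12) (.e (nat_lit 426555) (nat_lit 32) (.e (nat_lit 376867) (nat_lit 23) (.e (nat_lit 98313) (nat_lit 9) .nil))))) .nil)) 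
(.lf (nat_lit 187748) (.g (nat_lit 3001) (.e (nat_lit 57927) (nat_lit 282) (.e (nat_lit 163868) (nat_lit 2) (.e (nat_lit 196666) (nat_lit 13) (.e (nat_lit 65569) (nat_lit 3) (.e (nat_lit 98341) (nat_lit 20) .nil))))) .nil)))) (.nd (nat_lit 5) (.nd (nat_lit 6) 
(.lf (nat_lit 187668) (.g (nat_lit 1566) (.e (nat_lit 57926) (nat_lit 282) (.e (nat_lit 163875) (nat_lit 3) (.e (nat_lit 204855) (nat_lit 26) (.e (nat_lit 336212) (nat_lit 13) .nil)))) .nil)) 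
(.lf (nat_lit 187732) (.g (nat_lit 1397) (.e (nat_lit 57927) (nat_lit 282) (.e (nat_lit 163867) (nat_lit 2) (.e (nat_lit 196674) (nat_lit 15) (.e (nat_lit 81925) (nat_lit 11) .nil)))) .nil))) (.nd (nat_lit 6) 
(.lf (nat_lit 187700) (.g (nat_lit 1859) (.e (nat_lit 57926) (nat_lit 282) (.e (nat_lit 163907) (nat_lit 12) (.e (nat_lit 426544) (nat_lit 30) (.e (nat_lit 360466) (nat_lit 3) (.e (nat_lit 516195) (nat_lit 26) .nil))))) .nil)) 
(.lf (nat_lit 187764) (.g (nat_lit 1120) (.e (nat_lit 57927) (nat_lit 282) (.e (nat_lit 163869) (nat_lit 2) (.e (nat_lit 196630) (nat_lit 9) (.e (nat_lit 1573) (nat_lit 110) (.e (nat_lit 360192) (nat_lit 18) .nil))))) .nil))))) (.nd (nat_lit 4) (.nd (nat_lit 5) (.nd (nat_lit 6) 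
(.lf (nat_lit 187660) (.g (nat_lit 4590) (.e (nat_lit 57926) (nat_lit 282) (.e (nat_lit 163874) (nat_lit 3) (.e (nat_lit 204864) (nat_lit 27) (.e (nat_lit 344132) (nat_lit 26) (.e (nat_lit 557105) (nat_lit 14) (.e (nat_lit 180252) (nat_lit 10) (.e (nat_lit 573451) (nat_lit 9) (.e (nat_lit 1169) (nat_lit 87) .nil)))))))) (.g (nat_lit 6) .nil .nil))) 
(.lf (nat_lit 187724) (.g (nat_lit 1675) (.e (nat_lit 57927) (nat_lit 282) (.e (nat_lit 163866) (nat_lit 2) (.e (nat_lit 196670) (nat_lit 14) (.e (nat_lit 73746) (nat_lit 3) (.e (nat_lit 516126) (nat_lit 2) .nil))))) .nil))) (.nd (nat_lit 6) 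
(.lf (nat_lit 187692) (.g (nat_lit 1283) (.e (nat_lit 57926) (nat_lit 282) (.e (nat_lit 163903) (nat_lit 12) (.e (nat_lit 426546) (nat_lit 30) (.e (nat_lit 360466) (nat_lit 3) .nil)))) .nil)) 
(.lf (nat_lit 187756) (.g (nat_lit 2592) (.e (nat_lit 57927) (nat_lit 282) (.e (nat_lit 163868) (nat_lit 2) (.e (nat_lit 196670) (nat_lit 14) (.e (nat_lit 73746) (nat_lit 3) (.e (nat_lit 516131) (nat_lit 3) (.e (nat_lit 221212) (nat_lit 22) (.e (nat_lit 196632) (nat_lit 9) (.e (nat_lit 1170) (nat_lit 87) .nil)))))))) (.g (nat_lit 4) .nil .nil))))) (.nd (nat_lit 5) (.nd (nat_lit 6) 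
(.lf (nat_lit 187676) (.g (nat_lit 3572) (.e (nat_lit 57926) (nat_lit 282) (.e (nat_lit 163875) (nat_lit 3) (.e (nat_lit 204861) (nat_lit 26) (.e (nat_lit 336213) (nat_lit 13) (.e (nat_lit 393224) (nat_lit 9) (.e (nat_lit 335988) (nat_lit 1) .nil)))))) (.g (nat_lit 4) .nil .nil))) 
(.lf (nat_lit 187740) (.g (nat_lit 1150) (.e (nat_lit 57927) (nat_lit 282) (.e (nat_lit 163868) (nat_lit 2) (.e (nat_lit 196635) (nat_lit 9) (.e (nat_lit 1560) (nat_lit 110) .nil)))) .nil))) (.nd (nat_lit 6) 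
(.lf (nat_lit 187708) (.g (nat_lit 1565) (.e (nat_lit 57926) (nat_lit 282) (.e (nat_lit 163933) (nat_lit 17) (.e (nat_lit 466972) (nat_lit 21) (.e (nat_lit 164384) (nat_lit 254) .nil)))) .nil)) 
(.lf (nat_lit 187772) (.g (nat_lit 2373) (.e (nat_lit 57927) (nat_lit 282) (.e (nat_lit 163869) (nat_lit 2) (.e (nat_lit 196670) (nat_lit 14) (.e (nat_lit 73746) (nat_lit 3) (.e (nat_lit 516131) (nat_lit 3) (.e (nat_lit 221212) (nat_lit 22) (.e (nat_lit 196625) (nat_lit 9) (.e (nat_lit 1174) (nat_lit 87) .nil)))))))) (.g (nat_lit 4) .nil .nil)))))))) 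
(.nd (nat_lit 2) (.nd (nat_lit 3) (.nd (nat_lit 4) (.nd (nat_lit 5) (.nd (nat_lit 6) 
(.lf (nat_lit 187650) (.g (nat_lit 1041) (.e (nat_lit 57926) (nat_lit 282) (.e (nat_lit 163874) (nat_lit 3) (.e (nat_lit 204856) (nat_lit 26) .nil))) .nil)) 
(.lf (nat_lit 187714) (.g (nat_lit 2358) (.e (nat_lit 57926) (nat_lit 282) (.e (nat_lit 163943) (nat_lit 19) (.e (nat_lit 483413) (nat_lit 27) (.e (nat_lit 401418) (nat_lit 0) .nil)))) .nil))) (.nd (nat_lit 6) 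
(.lf (nat_lit 187682) (.g (nat_lit 819) (.e (nat_lit 57926) (nat_lit 282) (.e (nat_lit 163875) (nat_lit 3) (.e (nat_lit 204875) (nat_lit 31) .nil))) .nil)) 
(.lf (nat_lit 187746) (.g (nat_lit 800) (.e (nat_lit 57927) (nat_lit 282) (.e (nat_lit 163868) (nat_lit 2) (.e (nat_lit 196664) (nat_lit 13) .nil))) .nil)))) (.nd (nat_lit 5) (.nd (nat_lit 6) 
(.lf (nat_lit 187666) (.g (nat_lit 737) (.e (nat_lit 57926) (nat_lit 282) (.e (nat_lit 163875) (nat_lit 3) (.e (nat_lit 204850) (nat_lit 26) .nil))) .nil)) 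
(.lf (nat_lit 187730) (.g (nat_lit 2278) (.e (nat_lit 57927) (nat_lit 282) (.e (nat_lit 163867) (nat_lit 2) (.e (nat_lit 196670) (nat_lit 14) (.e (nat_lit 73746) (nat_lit 3) (.e (nat_lit 516131) (nat_lit 3) .nil))))) .nil))) (.nd (nat_lit 6) 
(.lf (nat_lit 187698) (.g (nat_lit 569) (.e (nat_lit 57926) (nat_lit 282) (.e (nat_lit 163905) (nat_lit 12) (.e (nat_lit 426556) (nat_lit 32) .nil))) .nil)) 
(.lf (nat_lit 187762) (.g (nat_lit 818) (.e (nat_lit 57927) (nat_lit 282) (.e (nat_lit 163868) (nat_lit 2) (.e (nat_lit 196679) (nat_lit 17) .nil))) .nil))))) (.nd (nat_lit 4) (.nd (nat_lit 5) (.nd (nat_lit 6) 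
(.lf (nat_lit 187658) (.g (nat_lit 1014) (.e (nat_lit 57926) (nat_lit 282) (.e (nat_lit 163874) (nat_lit 3) (.e (nat_lit 204864) (nat_lit 27) .nil))) .nil)) 
(.lf (nat_lit 187722) (.g (nat_lit 2315) (.e (nat_lit 57927) (nat_lit 282) (.e (nat_lit 163866) (nat_lit 2) (.e (nat_lit 196666) (nat_lit 13) (.e (nat_lit 65625) (nat_lit 13) (.e (nat_lit 393229) (nat_lit 9) .nil))))) .nil))) (.nd (nat_lit 6) 
(.lf (nat_lit 187690) (.g (nat_lit 828) (.e (nat_lit 57926) (nat_lit 282) (.e (nat_lit 163902) (nat_lit 12) (.e (nat_lit 426556) (nat_lit 32) .nil))) .nil)) 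
(.lf (nat_lit 187754) (.g (nat_lit 1881) (.e (nat_lit 57927) (nat_lit 282) (.e (nat_lit 163868) (nat_lit 2) (.e (nat_lit 196670) (nat_lit 14) (.e (nat_lit 73746) (nat_lit 3) (.e (nat_lit 516122) (nat_lit 2) .nil))))) .nil)))) (.nd (nat_lit 5) (.nd (nat_lit 6) 
(.lf (nat_lit 187674) (.g (nat_lit 3964) (.e (nat_lit 57926) (nat_lit 282) (.e (nat_lit 163875) (nat_lit 3) (.e (nat_lit 204861) (nat_lit 26) (.e (nat_lit 336076) (nat_lit 9) (.e (nat_lit 336454) (nat_lit 34) (.e (nat_lit 483364) (nat_lit 18) .nil)))))) (.g (nat_lit 0) .nil .nil))) 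
(.lf (nat_lit 187738) (.g (nat_lit 1671) (.e (nat_lit 57927) (nat_lit 282) (.e (nat_lit 163868) (nat_lit 2) (.e (nat_lit 196630) (nat_lit 9) (.e (nat_lit 1573) (nat_lit 110) .nil)))) .nil))) (.nd (nat_lit 6) 
(.lf (nat_lit 187706) (.g (nat_lit 2210) (.e (nat_lit 57926) (nat_lit 282) (.e (nat_lit 163932) (nat_lit 17) (.e (nat_lit 466977) (nat_lit 22) (.e (nat_lit 196624) (nat_lit 9) (.e (nat_lit 489) (nat_lit 38) .nil))))) .nil)) 
(.lf (nat_lit 187770) (.g (nat_lit 1831) (.e (nat_lit 57927) (nat_lit 282) (.e (nat_lit 163869) (nat_lit 2) (.e (nat_lit 196670) (nat_lit 14) (.e (nat_lit 73746) (nat_lit 3) (.e (nat_lit 516131) (nat_lit 3) .nil))))) .nil)))))) (.nd (nat_lit 3) (.nd (nat_lit 4) (.nd (nat_lit 5) (.nd (nat_lit 6) 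
(.lf (nat_lit 187654) (.g (nat_lit 1261) (.e (nat_lit 57926) (nat_lit 282) (.e (nat_lit 163874) (nat_lit 3) (.e (nat_lit 204861) (nat_lit 26) (.e (nat_lit 336076) (nat_lit 9) .nil)))) .nil)) 
(.lf (nat_lit 187718) (.g (nat_lit 1250) (.e (nat_lit 57927) (nat_lit 282) (.e (nat_lit 163866) (nat_lit 2) (.e (nat_lit 196665) (nat_lit 13) (.e (nat_lit 65625) (nat_lit 13) (.e (nat_lit 393229) (nat_lit 9) .nil))))) .nil))) (.nd (nat_lit 6) 
(.lf (nat_lit 187686) (.g (nat_lit 820) (.e (nat_lit 57926) (nat_lit 282) (.e (nat_lit 163902) (nat_lit 12) (.e (nat_lit 426538) (nat_lit 29) .nil))) .nil)) 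
(.lf (nat_lit 187750) (.g (nat_lit 2171) (.e (nat_lit 57927) (nat_lit 282) (.e (nat_lit 163868) (nat_lit 2) (.e (nat_lit 196666) (nat_lit 13) (.e (nat_lit 65627) (nat_lit 13) .nil)))) .nil)))) (.nd (nat_lit 5) (.nd (nat_lit 6) 
(.lf (nat_lit 187670) (.g (nat_lit 1397) (.e (nat_lit 57926) (nat_lit 282) (.e (nat_lit 163875) (nat_lit 3) (.e (nat_lit 204861) (nat_lit 26) (.e (nat_lit 336075) (nat_lit 9) .nil)))) .nil)) 
(.lf (nat_lit 187734) (.g (nat_lit 980) (.e (nat_lit 57927) (nat_lit 282) (.e (nat_lit 163868) (nat_lit 2) (.e (nat_lit 196624) (nat_lit 9) (.e (nat_lit 1577) (nat_lit 110) .nil)))) .nil))) (.nd (nat_lit 6) 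
(.lf (nat_lit 187702) (.g (nat_lit 2149) (.e (nat_lit 57926) (nat_lit 282) (.e (nat_lit 163907) (nat_lit 12) (.e (nat_lit 426555) (nat_lit 32) (.e (nat_lit 376868) (nat_lit 23) .nil)))) .nil)) 
(.lf (nat_lit 187766) (.g (nat_lit 1552) (.e (nat_lit 57927) (nat_lit 282) (.e (nat_lit 163869) (nat_lit 2) (.e (nat_lit 196665) (nat_lit 13) (.e (nat_lit 65625) (nat_lit 13) (.e (nat_lit 393229) (nat_lit 9) .nil))))) .nil))))) (.nd (nat_lit 4) (.nd (nat_lit 5) (.nd (nat_lit 6) 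
(.lf (nat_lit 187662) (.g (nat_lit 4552) (.e (nat_lit 57926) (nat_lit 282) (.e (nat_lit 163874) (nat_lit 3) (.e (nat_lit 204864) (nat_lit 27) (.e (nat_lit 344132) (nat_lit 26) (.e (nat_lit 557105) (nat_lit 14) (.e (nat_lit 180252) (nat_lit 10) (.e (nat_lit 573451) (nat_lit 9) (.e (nat_lit 1175) (nat_lit 87) .nil)))))))) (.g (nat_lit 6) .nil .nil))) 
(.lf (nat_lit 187726) (.g (nat_lit 1414) (.e (nat_lit 57927) (nat_lit 282) (.e (nat_lit 163866) (nat_lit 2) (.e (nat_lit 196672) (nat_lit 15) (.e (nat_lit 81927) (nat_lit 11) (.e (nat_lit 426497) (nat_lit 27) .nil))))) .nil))) (.nd (nat_lit 6) 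
(.lf (nat_lit 187694) (.g (nat_lit 1020) (.e (nat_lit 57926) (nat_lit 282) (.e (nat_lit 163903) (nat_lit 12) (.e (nat_lit 426555) (nat_lit 32) (.e (nat_lit 376869) (nat_lit 23) .nil)))) .nil)) 
(.lf (nat_lit 187758) (.g (nat_lit 2999) (.e (nat_lit 57927) (nat_lit 282) (.e (nat_lit 163868) (nat_lit 2) (.e (nat_lit 196670) (nat_lit 14) (.e (nat_lit 73753) (nat_lit 8) (.e (nat_lit 557105) (nat_lit 14) (.e (nat_lit 180252) (nat_lit 10) (.e (nat_lit 573451) (nat_lit 9) (.e (nat_lit 1169) (nat_lit 87) .nil)))))))) (.g (nat_lit 4) .nil .nil))))) (.nd (nat_lit 5) (.nd (nat_lit 6) 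
(.lf (nat_lit 187678) (.g (nat_lit 3030) (.e (nat_lit 57926) (nat_lit 282) (.e (nat_lit 163875) (nat_lit 3) (.e (nat_lit 204863) (nat_lit 27) (.e (nat_lit 344117) (nat_lit 21) (.e (nat_lit 516099) (nat_lit 0) .nil))))) .nil)) 
(.lf (nat_lit 187742) (.g (nat_lit 961) (.e (nat_lit 57927) (nat_lit 282) (.e (nat_lit 163868) (nat_lit 2) (.e (nat_lit 196658) (nat_lit 12) .nil))) .nil))) (.nd (nat_lit 6) 
(.lf (nat_lit 187710) (.g (nat_lit 1876) (.e (nat_lit 57926) (nat_lit 282) (.e (nat_lit 163943) (nat_lit 19) (.e (nat_lit 483344) (nat_lit 17) (.e (nat_lit 6714) (nat_lit 360) .nil)))) .nil)) 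
(.lf (nat_lit 187774) (.g (nat_lit 2383) (.e (nat_lit 57927) (nat_lit 282) (.e (nat_lit 163869) (nat_lit 2) (.e (nat_lit 196670) (nat_lit 14) (.e (nat_lit 73746) (nat_lit 3) (.e (nat_lit 516131) (nat_lit 3) (.e (nat_lit 221212) (nat_lit 22) (.e (nat_lit 196632) (nat_lit 9) (.e (nat_lit 1171) (nat_lit 87) .nil)))))))) (.g (nat_lit 4) .nil .nil))))))))) 
(.nd (nat_lit 1) (.nd (nat_lit 2) (.nd (nat_lit 3) (.nd (nat_lit 4) (.nd (nat_lit 5) 
(.nd (nat_lit 6) 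
(.lf (nat_lit 187649) (.g (nat_lit 1751) (.e (nat_lit 57926) (nat_lit 282) (.e (nat_lit 163874) (nat_lit 3) (.e (nat_lit 204855) (nat_lit 26) (.e (nat_lit 336217) (nat_lit 13) .nil)))) .nil)) 
(.lf (nat_lit 187713) (.g (nat_lit 2447) (.e (nat_lit 57926) (nat_lit 282) (.e (nat_lit 163943) (nat_lit 19) (.e (nat_lit 483413) (nat_lit 27) (.e (nat_lit 401413) (nat_lit 0) (.e (nat_lit 3304) (nat_lit 202) .nil))))) .nil))) (.nd (nat_lit 6) 
(.lf (nat_lit 187681) (.g (nat_lit 819) (.e (nat_lit 57926) (nat_lit 282) (.e (nat_lit 163875) (nat_lit 3) (.e (nat_lit 204867) (nat_lit 28) .nil))) .nil)) 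
(.lf (nat_lit 187745) (.g (nat_lit 1454) (.e (nat_lit 57927) (nat_lit 282) (.e (nat_lit 163868) (nat_lit 2) (.e (nat_lit 196663) (nat_lit 13) (.e (nat_lit 65625) (nat_lit 13) (.e (nat_lit 393229) (nat_lit 9) .nil))))) .nil)))) (.nd (nat_lit 5) (.nd (nat_lit 6) 
(.lf (nat_lit 187665) (.g (nat_lit 876) (.e (nat_lit 57926) (nat_lit 282) (.e (nat_lit 163874) (nat_lit 3) (.e (nat_lit 204877) (nat_lit 31) (.e (nat_lit 376840) (nat_lit 11) (.e (nat_lit 426522) (nat_lit 27) .nil))))) .nil)) 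
(.lf (nat_lit 187729) (.g (nat_lit 2110) (.e (nat_lit 57927) (nat_lit 282) (.e (nat_lit 163867) (nat_lit 2) (.e (nat_lit 196668) (nat_lit 14) (.e (nat_lit 73747) (nat_lit 3) (.e (nat_lit 516131) (nat_lit 3) .nil))))) .nil))) (.nd (nat_lit 6) 
(.lf (nat_lit 187697) (.g (nat_lit 1550) (.e (nat_lit 57926) (nat_lit 282) (.e (nat_lit 163905) (nat_lit 12) (.e (nat_lit 426555) (nat_lit 32) (.e (nat_lit 376866) (nat_lit 23) .nil)))) .nil)) 
(.lf (nat_lit 187761) (.g (nat_lit 1660) (.e (nat_lit 57927) (nat_lit 282) (.e (nat_lit 163868) (nat_lit 2) (.e (nat_lit 196674) (nat_lit 15) (.e (nat_lit 81925) (nat_lit 11) (.e (nat_lit 426500) (nat_lit 27) .nil))))) .nil))))) (.nd (nat_lit 4) (.nd (nat_lit 5) (.nd (nat_lit 6) 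
(.lf (nat_lit 187657) (.g (nat_lit 1812) (.e (nat_lit 57926) (nat_lit 282) (.e (nat_lit 163874) (nat_lit 3) (.e (nat_lit 204861) (nat_lit 26) (.e (nat_lit 336077) (nat_lit 9) .nil)))) .nil)) 
(.lf (nat_lit 187721) (.g (nat_lit 1709) (.e (nat_lit 57927) (nat_lit 282) (.e (nat_lit 163866) (nat_lit 2) (.e (nat_lit 196666) (nat_lit 13) (.e (nat_lit 65625) (nat_lit 13) .nil)))) .nil))) (.nd (nat_lit 6) 
(.lf (nat_lit 187689) (.g (nat_lit 908) (.e (nat_lit 57926) (nat_lit 282) (.e (nat_lit 163902) (nat_lit 12) (.e (nat_lit 426553) (nat_lit 32) .nil))) .nil)) 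
(.lf (nat_lit 187753) (.g (nat_lit 2680) (.e (nat_lit 57927) (nat_lit 282) (.e (nat_lit 163868) (nat_lit 2) (.e (nat_lit 196669) (nat_lit 14) (.e (nat_lit 73755) (nat_lit 8) (.e (nat_lit 557105) (nat_lit 14) (.e (nat_lit 180252) (nat_lit 10) (.e (nat_lit 573451) (nat_lit 9) (.e (nat_lit 1174) (nat_lit 87) .nil)))))))) (.g (nat_lit 4) .nil .nil))))) (.nd (nat_lit 5) (.nd (nat_lit 6) 
(.lf (nat_lit 187673) (.g (nat_lit 4349) (.e (nat_lit 57926) (nat_lit 282) (.e (nat_lit 163875) (nat_lit 3) (.e (nat_lit 204861) (nat_lit 26) (.e (nat_lit 336076) (nat_lit 9) (.e (nat_lit 336454) (nat_lit 34) (.e (nat_lit 483363) (nat_lit 18) .nil)))))) (.g (nat_lit 0) .nil .nil))) 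
(.lf (nat_lit 187737) (.g (nat_lit 1318) (.e (nat_lit 57927) (nat_lit 282) (.e (nat_lit 163868) (nat_lit 2) (.e (nat_lit 196626) (nat_lit 9) (.e (nat_lit 1576) (nat_lit 110) .nil)))) .nil))) (.nd (nat_lit 6) 
(.lf (nat_lit 187705) (.g (nat_lit 1393) (.e (nat_lit 57926) (nat_lit 282) (.e (nat_lit 163932) (nat_lit 17) (.e (nat_lit 466977) (nat_lit 22) (.e (nat_lit 196624) (nat_lit 9) .nil)))) .nil)) 
(.lf (nat_lit 187769) (.g (nat_lit 2067) (.e (nat_lit 57927) (nat_lit 282) (.e (nat_lit 163869) (nat_lit 2) (.e (nat_lit 196668) (nat_lit 14) (.e (nat_lit 73747) (nat_lit 3) (.e (nat_lit 516130) (nat_lit 3) .nil))))) .nil)))))) (.nd (nat_lit 3) (.nd (nat_lit 4) (.nd (nat_lit 5) (.nd (nat_lit 6) 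
(.lf (nat_lit 187653) (.g (nat_lit 2415) (.e (nat_lit 57926) (nat_lit 282) (.e (nat_lit 163874) (nat_lit 3) (.e (nat_lit 204861) (nat_lit 26) (.e (nat_lit 336075) (nat_lit 9) (.e (nat_lit 336454) (nat_lit 34) (.e (nat_lit 483362) (nat_lit 18) .nil)))))) (.g (nat_lit 4) .nil .nil))) 
(.lf (nat_lit 187717) (.g (nat_lit 1198) (.e (nat_lit 57927) (nat_lit 282) (.e (nat_lit 163866) (nat_lit 2) (.e (nat_lit 196630) (nat_lit 9) (.e (nat_lit 1559) (nat_lit 110) (.e (nat_lit 360192) (nat_lit 18) .nil))))) .nil))) (.nd (nat_lit 6) 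
(.lf (nat_lit 187685) (.g (nat_lit 1477) (.e (nat_lit 57926) (nat_lit 282) (.e (nat_lit 163900) (nat_lit 12) (.e (nat_lit 426555) (nat_lit 32) (.e (nat_lit 376869) (nat_lit 23) (.e (nat_lit 98313) (nat_lit 9) .nil))))) .nil)) 
(.lf (nat_lit 187749) (.g (nat_lit 2323) (.e (nat_lit 57927) (nat_lit 282) (.e (nat_lit 163868) (nat_lit 2) (.e (nat_lit 196666) (nat_lit 13) (.e (nat_lit 65625) (nat_lit 13) .nil)))) .nil)))) (.nd (nat_lit 5) (.nd (nat_lit 6) 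
(.lf (nat_lit 187669) (.g (nat_lit 1784) (.e (nat_lit 57926) (nat_lit 282) (.e (nat_lit 163875) (nat_lit 3) (.e (nat_lit 204855) (nat_lit 26) (.e (nat_lit 336217) (nat_lit 13) .nil)))) .nil)) 
(.lf (nat_lit 187733) (.g (nat_lit 1089) (.e (nat_lit 57927) (nat_lit 282) (.e (nat_lit 163868) (nat_lit 2) (.e (nat_lit 196624) (nat_lit 9) (.e (nat_lit 1526) (nat_lit 109) .nil)))) .nil))) (.nd (nat_lit 6) 
(.lf (nat_lit 187701) (.g (nat_lit 1717) (.e (nat_lit 57926) (nat_lit 282) (.e (nat_lit 163907) (nat_lit 12) (.e (nat_lit 426546) (nat_lit 30) (.e (nat_lit 360466) (nat_lit 3) (.e (nat_lit 516195) (nat_lit 26) .nil))))) .nil)) 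
(.lf (nat_lit 187765) (.g (nat_lit 1469) (.e (nat_lit 57927) (nat_lit 282) (.e (nat_lit 163869) (nat_lit 2) (.e (nat_lit 196665) (nat_lit 13) (.e (nat_lit 65625) (nat_lit 13) (.e (nat_lit 393225) (nat_lit 9) .nil))))) .nil))))) (.nd (nat_lit 4) (.nd (nat_lit 5) (.nd (nat_lit 6) 
(.lf (nat_lit 187661) (.g (nat_lit 4609) (.e (nat_lit 57926) (nat_lit 282) (.e (nat_lit 163874) (nat_lit 3) (.e (nat_lit 204864) (nat_lit 27) (.e (nat_lit 344132) (nat_lit 26) (.e (nat_lit 557105) (nat_lit 14) (.e (nat_lit 180252) (nat_lit 10) (.e (nat_lit 573451) (nat_lit 9) (.e (nat_lit 1174) (nat_lit 87) .nil)))))))) (.g (nat_lit 6) .nil .nil))) 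
(.lf (nat_lit 187725) (.g (nat_lit 1144) (.e (nat_lit 57927) (nat_lit 282) (.e (nat_lit 163866) (nat_lit 2) (.e (nat_lit 196672) (nat_lit 15) (.e (nat_lit 81925) (nat_lit 11) .nil)))) .nil))) (.nd (nat_lit 6) 
(.lf (nat_lit 187693) (.g (nat_lit 1773) (.e (nat_lit 57926) (nat_lit 282) (.e (nat_lit 163903) (nat_lit 12) (.e (nat_lit 426555) (nat_lit 32) (.e (nat_lit 376868) (nat_lit 23) .nil)))) .nil)) 
(.lf (nat_lit 187757) (.g (nat_lit 1448) (.e (nat_lit 57927) (nat_lit 282) (.e (nat_lit 163868) (nat_lit 2) (.e (nat_lit 196670) (nat_lit 14) (.e (nat_lit 73748) (nat_lit 3) .nil)))) .nil)))) (.nd (nat_lit 5) (.nd (nat_lit 6) 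
(.lf (nat_lit 187677) (.g (nat_lit 1221) (.e (nat_lit 57926) (nat_lit 282) (.e (nat_lit 163875) (nat_lit 3) (.e (nat_lit 204862) (nat_lit 27) (.e (nat_lit 344116) (nat_lit 21) .nil)))) .nil)) 
(.lf (nat_lit 187741) (.g (nat_lit 961) (.e (nat_lit 57927) (nat_lit 282) (.e (nat_lit 163868) (nat_lit 2) (.e (nat_lit 196638) (nat_lit 9) .nil))) .nil))) (.nd (nat_lit 6) 
(.lf (nat_lit 187709) (.g (nat_lit 1539) (.e (nat_lit 57926) (nat_lit 282) (.e (nat_lit 163941) (nat_lit 19) (.e (nat_lit 483408) (nat_lit 26) (.e (nat_lit 392960) (nat_lit 24) .nil)))) .nil)) 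
(.lf (nat_lit 187773) (.g (nat_lit 2314) (.e (nat_lit 57927) (nat_lit 282) (.e (nat_lit 163869) (nat_lit 2) (.e (nat_lit 196670) (nat_lit 14) (.e (nat_lit 73746) (nat_lit 3) (.e (nat_lit 516131) (nat_lit 3) (.e (nat_lit 221212) (nat_lit 22) (.e (nat_lit 196628) (nat_lit 9) (.e (nat_lit 1184) (nat_lit 87) .nil)))))))) (.g (nat_lit 4) .nil .nil)))))))) 
(.nd (nat_lit 2) (.nd (nat_lit 3) (.nd (nat_lit 4) (.nd (nat_lit 5) (.nd (nat_lit 6) 
(.lf (nat_lit 187651) (.g (nat_lit 1128) (.e (nat_lit 57926) (nat_lit 282) (.e (nat_lit 163874) (nat_lit 3) (.e (nat_lit 204857) (nat_lit 26) .nil))) .nil)) 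
(.lf (nat_lit 187715) (.g (nat_lit 1133) (.e (nat_lit 57926) (nat_lit 282) (.e (nat_lit 164083) (nat_lit 73) (.e (nat_lit 336027) (nat_lit 3) (.e (nat_lit 98366) (nat_lit 27) .nil)))) .nil))) (.nd (nat_lit 6) 
(.lf (nat_lit 187683) (.g (nat_lit 819) (.e (nat_lit 57926) (nat_lit 282) (.e (nat_lit 163875) (nat_lit 3) (.e (nat_lit 204878) (nat_lit 31) .nil))) .nil)) 
(.lf (nat_lit 187747) (.g (nat_lit 2260) (.e (nat_lit 57927) (nat_lit 282) (.e (nat_lit 163868) (nat_lit 2) (.e (nat_lit 196664) (nat_lit 13) (.e (nat_lit 65571) (nat_lit 3) (.e (nat_lit 98338) (nat_lit 19) .nil))))) .nil)))) (.nd (nat_lit 5) (.nd (nat_lit 6) 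
(.lf (nat_lit 187667) (.g (nat_lit 819) (.e (nat_lit 57926) (nat_lit 282) (.e (nat_lit 163875) (nat_lit 3) (.e (nat_lit 204853) (nat_lit 26) .nil))) .nil)) 
(.lf (nat_lit 187731) (.g (nat_lit 759) (.e (nat_lit 57927) (nat_lit 282) (.e (nat_lit 163867) (nat_lit 2) (.e (nat_lit 196674) (nat_lit 15) .nil))) .nil))) (.nd (nat_lit 6) 
(.lf (nat_lit 187699) (.g (nat_lit 1323) (.e (nat_lit 57926) (nat_lit 282) (.e (nat_lit 163907) (nat_lit 12) (.e (nat_lit 426538) (nat_lit 29) (.e (nat_lit 352315) (nat_lit 23) .nil)))) .nil)) 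
(.lf (nat_lit 187763) (.g (nat_lit 680) (.e (nat_lit 57927) (nat_lit 282) (.e (nat_lit 163868) (nat_lit 2) (.e (nat_lit 196682) (nat_lit 17) .nil))) .nil))))) (.nd (nat_lit 4) (.nd (nat_lit 5) (.nd (nat_lit 6) 
(.lf (nat_lit 187659) (.g (nat_lit 2627) (.e (nat_lit 57926) (nat_lit 282) (.e (nat_lit 163874) (nat_lit 3) (.e (nat_lit 204864) (nat_lit 27) (.e (nat_lit 344117) (nat_lit 21) (.e (nat_lit 516130) (nat_lit 3) .nil))))) .nil)) 
(.lf (nat_lit 187723) (.g (nat_lit 1758) (.e (nat_lit 57927) (nat_lit 282) (.e (nat_lit 163866) (nat_lit 2) (.e (nat_lit 196668) (nat_lit 14) (.e (nat_lit 73747) (nat_lit 3) (.e (nat_lit 516130) (nat_lit 3) .nil))))) .nil))) (.nd (nat_lit 6) 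
(.lf (nat_lit 187691) (.g (nat_lit 1041) (.e (nat_lit 57926) (nat_lit 282) (.e (nat_lit 163902) (nat_lit 12) (.e (nat_lit 426556) (nat_lit 32) (.e (nat_lit 376869) (nat_lit 23) .nil)))) .nil)) 
(.lf (nat_lit 187755) (.g (nat_lit 1914) (.e (nat_lit 57927) (nat_lit 282) (.e (nat_lit 163868) (nat_lit 2) (.e (nat_lit 196670) (nat_lit 14) (.e (nat_lit 73746) (nat_lit 3) (.e (nat_lit 516126) (nat_lit 2) .nil))))) .nil)))) (.nd (nat_lit 5) (.nd (nat_lit 6) 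
(.lf (nat_lit 187675) (.g (nat_lit 1409) (.e (nat_lit 57926) (nat_lit 282) (.e (nat_lit 163875) (nat_lit 3) (.e (nat_lit 204861) (nat_lit 26) (.e (nat_lit 336213) (nat_lit 13) .nil)))) .nil)) 
(.lf (nat_lit 187739) (.g (nat_lit 932) (.e (nat_lit 57927) (nat_lit 282) (.e (nat_lit 163868) (nat_lit 2) (.e (nat_lit 196635) (nat_lit 9) .nil))) .nil))) (.nd (nat_lit 6) 
(.lf (nat_lit 187707) (.g (nat_lit 2080) (.e (nat_lit 57926) (nat_lit 282) (.e (nat_lit 163932) (nat_lit 17) (.e (nat_lit 466977) (nat_lit 22) (.e (nat_lit 196656) (nat_lit 11) (.e (nat_lit 24320) (nat_lit 15) .nil))))) .nil)) 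
(.lf (nat_lit 187771) (.g (nat_lit 2726) (.e (nat_lit 57927) (nat_lit 282) (.e (nat_lit 163869) (nat_lit 2) (.e (nat_lit 196670) (nat_lit 14) (.e (nat_lit 73746) (nat_lit 3) (.e (nat_lit 516131) (nat_lit 3) (.e (nat_lit 221212) (nat_lit 22) (.e (nat_lit 196625) (nat_lit 9) (.e (nat_lit 1173) (nat_lit 87) .nil)))))))) (.g (nat_lit 4) .nil .nil))))))) 
(.nd (nat_lit 3) (.nd (nat_lit 4) (.nd (nat_lit 5) (.nd (nat_lit 6) 
(.lf (nat_lit 187655) (.g (nat_lit 2113) (.e (nat_lit 57926) (nat_lit 282) (.e (nat_lit 163874) (nat_lit 3) (.e (nat_lit 204861) (nat_lit 26) (.e (nat_lit 336076) (nat_lit 9) (.e (nat_lit 336377) (nat_lit 27) .nil))))) .nil)) 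
(.lf (nat_lit 187719) (.g (nat_lit 2285) (.e (nat_lit 57927) (nat_lit 282) (.e (nat_lit 163866) (nat_lit 2) (.e (nat_lit 196666) (nat_lit 13) (.e (nat_lit 65569) (nat_lit 3) (.e (nat_lit 98342) (nat_lit 20) .nil))))) .nil))) (.nd (nat_lit 6) 
(.lf (nat_lit 187687) (.g (nat_lit 2190) (.e (nat_lit 57926) (nat_lit 282) (.e (nat_lit 163902) (nat_lit 12) (.e (nat_lit 426538) (nat_lit 29) (.e (nat_lit 352315) (nat_lit 23) (.e (nat_lit 98313) (nat_lit 9) .nil))))) .nil)) 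
(.lf (nat_lit 187751) (.g (nat_lit 1584) (.e (nat_lit 57927) (nat_lit 282) (.e (nat_lit 163868) (nat_lit 2) (.e (nat_lit 196668) (nat_lit 14) (.e (nat_lit 73748) (nat_lit 3) .nil)))) .nil)))) (.nd (nat_lit 5) (.nd (nat_lit 6) 
(.lf (nat_lit 187671) (.g (nat_lit 1388) (.e (nat_lit 57926) (nat_lit 282) (.e (nat_lit 163875) (nat_lit 3) (.e (nat_lit 204861) (nat_lit 26) (.e (nat_lit 336076) (nat_lit 9) .nil)))) .nil)) 
(.lf (nat_lit 187735) (.g (nat_lit 926) (.e (nat_lit 57927) (nat_lit 282) (.e (nat_lit 163868) (nat_lit 2) (.e (nat_lit 196624) (nat_lit 9) (.e (nat_lit 1602) (nat_lit 112) .nil)))) .nil))) (.nd (nat_lit 6) 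
(.lf (nat_lit 187703) (.g (nat_lit 680) (.e (nat_lit 57926) (nat_lit 282) (.e (nat_lit 163931) (nat_lit 17) (.e (nat_lit 466980) (nat_lit 23) .nil))) .nil)) 
(.lf (nat_lit 187767) (.g (nat_lit 1884) (.e (nat_lit 57927) (nat_lit 282) (.e (nat_lit 163869) (nat_lit 2) (.e (nat_lit 196666) (nat_lit 13) (.e (nat_lit 65627) (nat_lit 13) (.e (nat_lit 393224) (nat_lit 9) .nil))))) .nil))))) (.nd (nat_lit 4) (.nd (nat_lit 5) (.nd (nat_lit 6) 
(.lf (nat_lit 187663) (.g (nat_lit 1135) (.e (nat_lit 57926) (nat_lit 282) (.e (nat_lit 163874) (nat_lit 3) (.e (nat_lit 204867) (nat_lit 28) .nil))) .nil)) 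
(.lf (nat_lit 187727) (.g (nat_lit 1663) (.e (nat_lit 57927) (nat_lit 282) (.e (nat_lit 163866) (nat_lit 2) (.e (nat_lit 196674) (nat_lit 15) (.e (nat_lit 81925) (nat_lit 11) (.e (nat_lit 426500) (nat_lit 27) .nil))))) .nil))) (.nd (nat_lit 6) 
(.lf (nat_lit 187695) (.g (nat_lit 969) (.e (nat_lit 57926) (nat_lit 282) (.e (nat_lit 163903) (nat_lit 12) (.e (nat_lit 426556) (nat_lit 32) .nil))) .nil)) 
(.lf (nat_lit 187759) (.g (nat_lit 1849) (.e (nat_lit 57927) (nat_lit 282) (.e (nat_lit 163868) (nat_lit 2) (.e (nat_lit 196672) (nat_lit 15) (.e (nat_lit 81925) (nat_lit 11) .nil)))) .nil)))) (.nd (nat_lit 5) (.nd (nat_lit 6) 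
(.lf (nat_lit 187679) (.g (nat_lit 2200) (.e (nat_lit 57926) (nat_lit 282) (.e (nat_lit 163875) (nat_lit 3) (.e (nat_lit 204863) (nat_lit 27) (.e (nat_lit 344117) (nat_lit 21) (.e (nat_lit 516123) (nat_lit 2) .nil))))) .nil)) 
(.lf (nat_lit 187743) (.g (nat_lit 833) (.e (nat_lit 57927) (nat_lit 282) (.e (nat_lit 163868) (nat_lit 2) (.e (nat_lit 196663) (nat_lit 13) (.e (nat_lit 65592) (nat_lit 9) .nil)))) .nil))) (.nd (nat_lit 6) 
(.lf (nat_lit 187711) (.g (nat_lit 1855) (.e (nat_lit 57926) (nat_lit 282) (.e (nat_lit 163943) (nat_lit 19) (.e (nat_lit 483350) (nat_lit 17) (.e (nat_lit 1994) (nat_lit 137) .nil)))) .nil)) 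
(.lf (nat_lit 187775) (.g (nat_lit 1858) (.e (nat_lit 57927) (nat_lit 282) (.e (nat_lit 163869) (nat_lit 2) (.e (nat_lit 196670) (nat_lit 14) (.e (nat_lit 73748) (nat_lit 3) .nil)))) .nil)))))))))

noncomputable def tv2492 : DT := (.nd (nat_lit 0) (.nd (nat_lit 1) (.nd (nat_lit 2) (.nd (nat_lit 3) (.nd (nat_lit 4) (.nd (nat_lit 5) (.nd (nat_lit 6) 
(.lf (nat_lit 187776) (.g (nat_lit 4310) (.e (nat_lit 57927) (nat_lit 282) (.e (nat_lit 163869) (nat_lit 2) (.e (nat_lit 196670) (nat_lit 14) (.e (nat_lit 73753) (nat_lit 8) (.e (nat_lit 557105) (nat_lit 14) (.e (nat_lit 180252) (nat_lit 10) (.e (nat_lit 573451) (nat_lit 9) (.e (nat_lit 1169) (nat_lit 87) .nil)))))))) (.g (nat_lit 6) .nil .nil))) 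
(.lf (nat_lit 187840) (.g (nat_lit 1676) (.e (nat_lit 57927) (nat_lit 282) (.e (nat_lit 163874) (nat_lit 3) (.e (nat_lit 204855) (nat_lit 26) (.e (nat_lit 336218) (nat_lit 13) (.e (nat_lit 393229) (nat_lit 9) .nil))))) .nil))) (.nd (nat_lit 6) 
(.lf (nat_lit 187808) (.g (nat_lit 2178) (.e (nat_lit 57927) (nat_lit 282) (.e (nat_lit 163873) (nat_lit 3) (.e (nat_lit 204862) (nat_lit 27) (.e (nat_lit 344117) (nat_lit 21) (.e (nat_lit 516123) (nat_lit 2) .nil))))) .nil)) 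
(.lf (nat_lit 187872) (.g (nat_lit 1202) (.e (nat_lit 57927) (nat_lit 282) (.e (nat_lit 163874) (nat_lit 3) (.e (nat_lit 204878) (nat_lit 31) .nil))) .nil)))) (.nd (nat_lit 5) (.nd (nat_lit 6) 
(.lf (nat_lit 187792) (.g (nat_lit 1036) (.e (nat_lit 57927) (nat_lit 282) (.e (nat_lit 163871) (nat_lit 2) (.e (nat_lit 196674) (nat_lit 15) (.e (nat_lit 89856) (nat_lit 11) .nil)))) .nil)) 
(.lf (nat_lit 187856) (.g (nat_lit 3039) (.e (nat_lit 57927) (nat_lit 282) (.e (nat_lit 163874) (nat_lit 3) (.e (nat_lit 204863) (nat_lit 27) (.e (nat_lit 344117) (nat_lit 21) (.e (nat_lit 516129) (nat_lit 3) (.e (nat_lit 221204) (nat_lit 20) (.e (nat_lit 3253) (nat_lit 197) (.e (nat_lit 532501) (nat_lit 1) .nil)))))))) (.g (nat_lit 4) .nil .nil)))) (.nd (nat_lit 6) 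
(.lf (nat_lit 187824) (.g (nat_lit 1749) (.e (nat_lit 57927) (nat_lit 282) (.e (nat_lit 163873) (nat_lit 3) (.e (nat_lit 204876) (nat_lit 31) (.e (nat_lit 376842) (nat_lit 11) (.e (nat_lit 426500) (nat_lit 27) .nil))))) .nil)) 
(.lf (nat_lit 187888) (.g (nat_lit 1343) (.e (nat_lit 57927) (nat_lit 282) (.e (nat_lit 163875) (nat_lit 3) (.e (nat_lit 204861) (nat_lit 26) (.e (nat_lit 336214) (nat_lit 13) .nil)))) .nil))))) (.nd (nat_lit 4) (.nd (nat_lit 5) (.nd (nat_lit 6) 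
(.lf (nat_lit 187784) (.g (nat_lit 1698) (.e (nat_lit 57927) (nat_lit 282) (.e (nat_lit 163870) (nat_lit 2) (.e (nat_lit 196666) (nat_lit 13) (.e (nat_lit 65627) (nat_lit 13) (.e (nat_lit 393225) (nat_lit 9) .nil))))) .nil)) 
(.lf (nat_lit 187848) (.g (nat_lit 3105) (.e (nat_lit 57927) (nat_lit 282) (.e (nat_lit 163874) (nat_lit 3) (.e (nat_lit 204861) (nat_lit 26) (.e (nat_lit 336213) (nat_lit 13) (.e (nat_lit 393224) (nat_lit 9) .nil))))) .nil))) (.nd (nat_lit 6) 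
(.lf (nat_lit 187816) (.g (nat_lit 3371) (.e (nat_lit 57927) (nat_lit 282) (.e (nat_lit 163873) (nat_lit 3) (.e (nat_lit 204863) (nat_lit 27) (.e (nat_lit 344117) (nat_lit 21) (.e (nat_lit 516130) (nat_lit 3) (.e (nat_lit 221215) (nat_lit 23) (.e (nat_lit 204830) (nat_lit 18) .nil))))))) (.g (nat_lit 4) .nil .nil))) 
(.lf (nat_lit 187880) (.g (nat_lit 1210) (.e (nat_lit 57927) (nat_lit 282) (.e (nat_lit 163875) (nat_lit 3) (.e (nat_lit 204861) (nat_lit 26) (.e (nat_lit 336076) (nat_lit 9) .nil)))) .nil)))) (.nd (nat_lit 5) (.nd (nat_lit 6) 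
(.lf (nat_lit 187800) (.g (nat_lit 1342) (.e (nat_lit 57927) (nat_lit 282) (.e (nat_lit 163873) (nat_lit 3) (.e (nat_lit 204861) (nat_lit 26) (.e (nat_lit 336075) (nat_lit 9) (.e (nat_lit 336377) (nat_lit 27) .nil))))) .nil)) 
(.lf (nat_lit 187864) (.g (nat_lit 1223) (.e (nat_lit 57927) (nat_lit 282) (.e (nat_lit 163874) (nat_lit 3) (.e (nat_lit 204867) (nat_lit 28) .nil))) .nil))) (.nd (nat_lit 6) 
(.lf (nat_lit 187832) (.g (nat_lit 1477) (.e (nat_lit 57927) (nat_lit 282) (.e (nat_lit 163874) (nat_lit 3) (.e (nat_lit 204851) (nat_lit 26) (.e (nat_lit 336211) (nat_lit 13) .nil)))) .nil)) 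
(.lf (nat_lit 187896) (.g (nat_lit 1972) (.e (nat_lit 57927) (nat_lit 282) (.e (nat_lit 163875) (nat_lit 3) (.e (nat_lit 204863) (nat_lit 27) (.e (nat_lit 344120) (nat_lit 21) (.e (nat_lit 516131) (nat_lit 3) .nil))))) .nil)))))) (.nd (nat_lit 3) (.nd (nat_lit 4) (.nd (nat_lit 5) (.nd (nat_lit 6) 
(.lf (nat_lit 187780) (.g (nat_lit 1091) (.e (nat_lit 57927) (nat_lit 282) (.e (nat_lit 163869) (nat_lit 2) (.e (nat_lit 196674) (nat_lit 15) (.e (nat_lit 89856) (nat_lit 18) .nil)))) .nil)) 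
(.lf (nat_lit 187844) (.g (nat_lit 1078) (.e (nat_lit 57927) (nat_lit 282) (.e (nat_lit 163874) (nat_lit 3) (.e (nat_lit 204861) (nat_lit 26) (.e (nat_lit 336076) (nat_lit 9) .nil)))) .nil))) (.nd (nat_lit 6) 
(.lf (nat_lit 187812) (.g (nat_lit 3029) (.e (nat_lit 57927) (nat_lit 282) (.e (nat_lit 163873) (nat_lit 3) (.e (nat_lit 204863) (nat_lit 27) (.e (nat_lit 344117) (nat_lit 21) (.e (nat_lit 516123) (nat_lit 2) .nil))))) .nil)) 
(.lf (nat_lit 187876) (.g (nat_lit 2200) (.e (nat_lit 57927) (nat_lit 282) (.e (nat_lit 163875) (nat_lit 3) (.e (nat_lit 204855) (nat_lit 26) (.e (nat_lit 336212) (nat_lit 13) (.e (nat_lit 393229) (nat_lit 9) .nil))))) .nil)))) (.nd (nat_lit 5) (.nd (nat_lit 6) 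
(.lf (nat_lit 187796) (.g (nat_lit 3120) (.e (nat_lit 57927) (nat_lit 282) (.e (nat_lit 163873) (nat_lit 3) (.e (nat_lit 204854) (nat_lit 26) (.e (nat_lit 336019) (nat_lit 3) (.e (nat_lit 98341) (nat_lit 20) .nil))))) .nil)) 
(.lf (nat_lit 187860) (.g (nat_lit 2705) (.e (nat_lit 57927) (nat_lit 282) (.e (nat_lit 163874) (nat_lit 3) (.e (nat_lit 204864) (nat_lit 27) (.e (nat_lit 344130) (nat_lit 26) (.e (nat_lit 557104) (nat_lit 14) (.e (nat_lit 180252) (nat_lit 10) (.e (nat_lit 573451) (nat_lit 9) (.e (nat_lit 1173) (nat_lit 87) .nil)))))))) (.g (nat_lit 4) .nil .nil)))) (.nd (nat_lit 6) 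
(.lf (nat_lit 187828) (.g (nat_lit 1225) (.e (nat_lit 57927) (nat_lit 282) (.e (nat_lit 163874) (nat_lit 3) (.e (nat_lit 204816) (nat_lit 17) .nil))) .nil)) 
(.lf (nat_lit 187892) (.g (nat_lit 2285) (.e (nat_lit 57927) (nat_lit 282) (.e (nat_lit 163875) (nat_lit 3) (.e (nat_lit 204863) (nat_lit 27) (.e (nat_lit 344117) (nat_lit 21) (.e (nat_lit 516123) (nat_lit 2) .nil))))) .nil))))) (.nd (nat_lit 4) (.nd (nat_lit 5) (.nd (nat_lit 6) 
(.lf (nat_lit 187788) (.g (nat_lit 1282) (.e (nat_lit 57927) (nat_lit 282) (.e (nat_lit 163871) (nat_lit 2) (.e (nat_lit 196663) (nat_lit 13) (.e (nat_lit 65627) (nat_lit 13) .nil)))) .nil)) 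
(.lf (nat_lit 187852) (.g (nat_lit 2011) (.e (nat_lit 57927) (nat_lit 282) (.e (nat_lit 163874) (nat_lit 3) (.e (nat_lit 204861) (nat_lit 26) (.e (nat_lit 336220) (nat_lit 13) (.e (nat_lit 393229) (nat_lit 9) .nil))))) .nil))) (.nd (nat_lit 6) 
(.lf (nat_lit 187820) (.g (nat_lit 1056) (.e (nat_lit 57927) (nat_lit 282) (.e (nat_lit 163873) (nat_lit 3) (.e (nat_lit 204867) (nat_lit 28) (.e (nat_lit 360192) (nat_lit 18) .nil)))) .nil)) 
(.lf (nat_lit 187884) (.g (nat_lit 3439) (.e (nat_lit 57927) (nat_lit 282) (.e (nat_lit 163875) (nat_lit 3) (.e (nat_lit 204861) (nat_lit 26) (.e (nat_lit 336213) (nat_lit 13) (.e (nat_lit 393224) (nat_lit 9) (.e (nat_lit 335988) (nat_lit 1) .nil)))))) (.g (nat_lit 4) .nil .nil))))) (.nd (nat_lit 5) (.nd (nat_lit 6) 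
(.lf (nat_lit 187804) (.g (nat_lit 2776) (.e (nat_lit 57927) (nat_lit 282) (.e (nat_lit 163873) (nat_lit 3) (.e (nat_lit 204861) (nat_lit 26) (.e (nat_lit 336213) (nat_lit 13) (.e (nat_lit 393224) (nat_lit 9) .nil))))) .nil)) 
(.lf (nat_lit 187868) (.g (nat_lit 1082) (.e (nat_lit 57927) (nat_lit 282) (.e (nat_lit 163874) (nat_lit 3) (.e (nat_lit 204877) (nat_lit 31) (.e (nat_lit 376838) (nat_lit 11) .nil)))) .nil))) (.nd (nat_lit 6) 
(.lf (nat_lit 187836) (.g (nat_lit 1842) (.e (nat_lit 57927) (nat_lit 282) (.e (nat_lit 163874) (nat_lit 3) (.e (nat_lit 204853) (nat_lit 26) (.e (nat_lit 336211) (nat_lit 13) (.e (nat_lit 393225) (nat_lit 9) .nil))))) .nil)) 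
(.lf (nat_lit 187900) (.g (nat_lit 2557) (.e (nat_lit 57927) (nat_lit 282) (.e (nat_lit 163884) (nat_lit 5) (.e (nat_lit 221210) (nat_lit 22) (.e (nat_lit 196653) (nat_lit 11) (.e (nat_lit 16458) (nat_lit 12) (.e (nat_lit 475177) (nat_lit 24) (.e (nat_lit 524032) (nat_lit 18) .nil))))))) (.g (nat_lit 5) .nil .nil)))))))) 
(.nd (nat_lit 2) (.nd (nat_lit 3) (.nd (nat_lit 4) (.nd (nat_lit 5) (.nd (nat_lit 6) 
(.lf (nat_lit 187778) (.g (nat_lit 2889) (.e (nat_lit 57927) (nat_lit 282) (.e (nat_lit 163869) (nat_lit 2) (.e (nat_lit 196670) (nat_lit 14) (.e (nat_lit 73755) (nat_lit 8) (.e (nat_lit 557105) (nat_lit 14) (.e (nat_lit 180252) (nat_lit 10) (.e (nat_lit 573451) (nat_lit 9) (.e (nat_lit 1169) (nat_lit 87) .nil)))))))) (.g (nat_lit 4) .nil .nil))) 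
(.lf (nat_lit 187842) (.g (nat_lit 1072) (.e (nat_lit 57927) (nat_lit 282) (.e (nat_lit 163874) (nat_lit 3) (.e (nat_lit 204861) (nat_lit 26) (.e (nat_lit 336075) (nat_lit 9) .nil)))) .nil))) (.nd (nat_lit 6) 
(.lf (nat_lit 187810) (.g (nat_lit 3965) (.e (nat_lit 57927) (nat_lit 282) (.e (nat_lit 163873) (nat_lit 3) (.e (nat_lit 204862) (nat_lit 27) (.e (nat_lit 344117) (nat_lit 21) (.e (nat_lit 516130) (nat_lit 3) (.e (nat_lit 221214) (nat_lit 23) (.e (nat_lit 204830) (nat_lit 18) .nil))))))) (.g (nat_lit 5) .nil .nil))) 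
(.lf (nat_lit 187874) (.g (nat_lit 982) (.e (nat_lit 57927) (nat_lit 282) (.e (nat_lit 163875) (nat_lit 3) (.e (nat_lit 204851) (nat_lit 26) (.e (nat_lit 336211) (nat_lit 13) .nil)))) .nil)))) (.nd (nat_lit 5) (.nd (nat_lit 6) 
(.lf (nat_lit 187794) (.g (nat_lit 901) (.e (nat_lit 57927) (nat_lit 282) (.e (nat_lit 163873) (nat_lit 3) (.e (nat_lit 204850) (nat_lit 26) .nil))) .nil)) 
(.lf (nat_lit 187858) (.g (nat_lit 2578) (.e (nat_lit 57927) (nat_lit 282) (.e (nat_lit 163874) (nat_lit 3) (.e (nat_lit 204864) (nat_lit 27) (.e (nat_lit 344117) (nat_lit 21) (.e (nat_lit 516130) (nat_lit 3) .nil))))) .nil))) (.nd (nat_lit 6) 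
(.lf (nat_lit 187826) (.g (nat_lit 1303) (.e (nat_lit 57927) (nat_lit 282) (.e (nat_lit 163873) (nat_lit 3) (.e (nat_lit 204877) (nat_lit 31) (.e (nat_lit 384768) (nat_lit 18) .nil)))) .nil)) 
(.lf (nat_lit 187890) (.g (nat_lit 2065) (.e (nat_lit 57927) (nat_lit 282) (.e (nat_lit 163875) (nat_lit 3) (.e (nat_lit 204862) (nat_lit 27) (.e (nat_lit 344117) (nat_lit 21) (.e (nat_lit 516122) (nat_lit 2) .nil))))) .nil))))) (.nd (nat_lit 4) (.nd (nat_lit 5) (.nd (nat_lit 6) 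
(.lf (nat_lit 187786) (.g (nat_lit 1257) (.e (nat_lit 57927) (nat_lit 282) (.e (nat_lit 163870) (nat_lit 2) (.e (nat_lit 196672) (nat_lit 15) (.e (nat_lit 81927) (nat_lit 11) .nil)))) .nil)) 
(.lf (nat_lit 187850) (.g (nat_lit 2604) (.e (nat_lit 57927) (nat_lit 282) (.e (nat_lit 163874) (nat_lit 3) (.e (nat_lit 204861) (nat_lit 26) (.e (nat_lit 336213) (nat_lit 13) (.e (nat_lit 393227) (nat_lit 9) .nil))))) .nil))) (.nd (nat_lit 6) 
(.lf (nat_lit 187818) (.g (nat_lit 901) (.e (nat_lit 57927) (nat_lit 282) (.e (nat_lit 163873) (nat_lit 3) (.e (nat_lit 204864) (nat_lit 27) .nil))) .nil)) 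
(.lf (nat_lit 187882) (.g (nat_lit 1626) (.e (nat_lit 57927) (nat_lit 282) (.e (nat_lit 163875) (nat_lit 3) (.e (nat_lit 204861) (nat_lit 26) (.e (nat_lit 336077) (nat_lit 9) (.e (nat_lit 336454) (nat_lit 34) .nil))))) .nil)))) (.nd (nat_lit 5) (.nd (nat_lit 6) 
(.lf (nat_lit 187802) (.g (nat_lit 1778) (.e (nat_lit 57927) (nat_lit 282) (.e (nat_lit 163873) (nat_lit 3) (.e (nat_lit 204861) (nat_lit 26) (.e (nat_lit 336076) (nat_lit 9) (.e (nat_lit 336372) (nat_lit 27) .nil))))) .nil)) 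
(.lf (nat_lit 187866) (.g (nat_lit 2671) (.e (nat_lit 57927) (nat_lit 282) (.e (nat_lit 163874) (nat_lit 3) (.e (nat_lit 204874) (nat_lit 30) (.e (nat_lit 368676) (nat_lit 21) (.e (nat_lit 516100) (nat_lit 0) .nil))))) .nil))) (.nd (nat_lit 6) 
(.lf (nat_lit 187834) (.g (nat_lit 1613) (.e (nat_lit 57927) (nat_lit 282) (.e (nat_lit 163874) (nat_lit 3) (.e (nat_lit 204852) (nat_lit 26) (.e (nat_lit 343808) (nat_lit 13) .nil)))) .nil)) 
(.lf (nat_lit 187898) (.g (nat_lit 701) (.e (nat_lit 57927) (nat_lit 282) (.e (nat_lit 163884) (nat_lit 5) (.e (nat_lit 221208) (nat_lit 21) .nil))) .nil)))))) (.nd (nat_lit 3) (.nd (nat_lit 4) (.nd (nat_lit 5) (.nd (nat_lit 6) 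
(.lf (nat_lit 187782) (.g (nat_lit 1305) (.e (nat_lit 57927) (nat_lit 282) (.e (nat_lit 163870) (nat_lit 2) (.e (nat_lit 196630) (nat_lit 9) (.e (nat_lit 1573) (nat_lit 110) .nil)))) .nil)) 
(.lf (nat_lit 187846) (.g (nat_lit 1957) (.e (nat_lit 57927) (nat_lit 282) (.e (nat_lit 163874) (nat_lit 3) (.e (nat_lit 204861) (nat_lit 26) (.e (nat_lit 336076) (nat_lit 9) (.e (nat_lit 336374) (nat_lit 27) .nil))))) .nil))) (.nd (nat_lit 6) 
(.lf (nat_lit 187814) (.g (nat_lit 3618) (.e (nat_lit 57927) (nat_lit 282) (.e (nat_lit 163873) (nat_lit 3) (.e (nat_lit 204863) (nat_lit 27) (.e (nat_lit 344117) (nat_lit 21) (.e (nat_lit 516130) (nat_lit 3) (.e (nat_lit 221204) (nat_lit 20) (.e (nat_lit 3253) (nat_lit 197) (.e (nat_lit 532501) (nat_lit 1) .nil)))))))) (.g (nat_lit 4) .nil .nil))) 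
(.lf (nat_lit 187878) (.g (nat_lit 1077) (.e (nat_lit 57927) (nat_lit 282) (.e (nat_lit 163875) (nat_lit 3) (.e (nat_lit 204859) (nat_lit 26) (.e (nat_lit 336209) (nat_lit 13) (.e (nat_lit 393227) (nat_lit 9) (.e (nat_lit 343808) (nat_lit 1) .nil)))))) (.g (nat_lit 4) .nil .nil))))) (.nd (nat_lit 5) (.nd (nat_lit 6) 
(.lf (nat_lit 187798) (.g (nat_lit 2191) (.e (nat_lit 57927) (nat_lit 282) (.e (nat_lit 163873) (nat_lit 3) (.e (nat_lit 204855) (nat_lit 26) (.e (nat_lit 336212) (nat_lit 13) (.e (nat_lit 393229) (nat_lit 9) .nil))))) .nil)) 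
(.lf (nat_lit 187862) (.g (nat_lit 4223) (.e (nat_lit 57927) (nat_lit 282) (.e (nat_lit 163874) (nat_lit 3) (.e (nat_lit 204864) (nat_lit 27) (.e (nat_lit 344132) (nat_lit 26) (.e (nat_lit 557105) (nat_lit 14) (.e (nat_lit 180252) (nat_lit 10) (.e (nat_lit 573451) (nat_lit 9) (.e (nat_lit 1169) (nat_lit 87) .nil)))))))) (.g (nat_lit 6) .nil .nil)))) (.nd (nat_lit 6) 
(.lf (nat_lit 187830) (.g (nat_lit 1172) (.e (nat_lit 57927) (nat_lit 282) (.e (nat_lit 163874) (nat_lit 3) (.e (nat_lit 204850) (nat_lit 26) (.e (nat_lit 336224) (nat_lit 13) .nil)))) .nil)) 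
(.lf (nat_lit 187894) (.g (nat_lit 1983) (.e (nat_lit 57927) (nat_lit 282) (.e (nat_lit 163875) (nat_lit 3) (.e (nat_lit 204863) (nat_lit 27) (.e (nat_lit 344117) (nat_lit 21) (.e (nat_lit 516130) (nat_lit 3) .nil))))) .nil))))) (.nd (nat_lit 4) (.nd (nat_lit 5) (.nd (nat_lit 6) 
(.lf (nat_lit 187790) (.g (nat_lit 2074) (.e (nat_lit 57927) (nat_lit 282) (.e (nat_lit 163871) (nat_lit 2) (.e (nat_lit 196668) (nat_lit 14) (.e (nat_lit 73747) (nat_lit 3) (.e (nat_lit 516130) (nat_lit 3) .nil))))) .nil)) 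
(.lf (nat_lit 187854) (.g (nat_lit 3139) (.e (nat_lit 57927) (nat_lit 282) (.e (nat_lit 163874) (nat_lit 3) (.e (nat_lit 204863) (nat_lit 27) (.e (nat_lit 344117) (nat_lit 21) (.e (nat_lit 516099) (nat_lit 0) .nil))))) .nil))) (.nd (nat_lit 6) 
(.lf (nat_lit 187822) (.g (nat_lit 901) (.e (nat_lit 57927) (nat_lit 282) (.e (nat_lit 163873) (nat_lit 3) (.e (nat_lit 204875) (nat_lit 31) .nil))) .nil)) 
(.lf (nat_lit 187886) (.g (nat_lit 2987) (.e (nat_lit 57927) (nat_lit 282) (.e (nat_lit 163875) (nat_lit 3) (.e (nat_lit 204861) (nat_lit 26) (.e (nat_lit 336213) (nat_lit 13) (.e (nat_lit 393226) (nat_lit 9) .nil))))) .nil)))) (.nd (nat_lit 5) (.nd (nat_lit 6) 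
(.lf (nat_lit 187806) (.g (nat_lit 4148) (.e (nat_lit 57927) (nat_lit 282) (.e (nat_lit 163873) (nat_lit 3) (.e (nat_lit 204862) (nat_lit 27) (.e (nat_lit 344117) (nat_lit 21) (.e (nat_lit 516099) (nat_lit 0) (.e (nat_lit 3771) (nat_lit 229) (.e (nat_lit 794673) (nat_lit 23) (.e (nat_lit 204829) (nat_lit 18) .nil)))))))) (.g (nat_lit 4) .nil .nil))) 
(.lf (nat_lit 187870) (.g (nat_lit 997) (.e (nat_lit 57927) (nat_lit 282) (.e (nat_lit 163874) (nat_lit 3) (.e (nat_lit 204877) (nat_lit 31) (.e (nat_lit 376840) (nat_lit 11) .nil)))) .nil))) (.nd (nat_lit 6) 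
(.lf (nat_lit 187838) (.g (nat_lit 2990) (.e (nat_lit 57927) (nat_lit 282) (.e (nat_lit 163874) (nat_lit 3) (.e (nat_lit 204854) (nat_lit 26) (.e (nat_lit 336211) (nat_lit 13) (.e (nat_lit 393225) (nat_lit 9) (.e (nat_lit 335987) (nat_lit 1) .nil)))))) (.g (nat_lit 5) .nil .nil))) 
(.lf (nat_lit 187902) (.g (nat_lit 2122) (.e (nat_lit 57927) (nat_lit 282) (.e (nat_lit 163884) (nat_lit 5) (.e (nat_lit 221210) (nat_lit 22) (.e (nat_lit 196654) (nat_lit 11) (.e (nat_lit 16458) (nat_lit 12) .nil))))) .nil)))))))) (.nd (nat_lit 1) (.nd (nat_lit 2) (.nd (nat_lit 3) (.nd (nat_lit 4) (.nd (nat_lit 5) (.nd (nat_lit 6) 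
(.lf (nat_lit 187777) (.g (nat_lit 2912) (.e (nat_lit 57927) (nat_lit 282) (.e (nat_lit 163869) (nat_lit 2) (.e (nat_lit 196670) (nat_lit 14) (.e (nat_lit 73754) (nat_lit 8) (.e (nat_lit 557105) (nat_lit 14) (.e (nat_lit 180252) (nat_lit 10) (.e (nat_lit 573451) (nat_lit 9) (.e (nat_lit 7936) (nat_lit 87) .nil)))))))) (.g (nat_lit 4) .nil .nil))) 
(.lf (nat_lit 187841) (.g (nat_lit 1027) (.e (nat_lit 57927) (nat_lit 282) (.e (nat_lit 163874) (nat_lit 3) (.e (nat_lit 204856) (nat_lit 26) .nil))) .nil))) (.nd (nat_lit 6) 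
(.lf (nat_lit 187809) (.g (nat_lit 3994) (.e (nat_lit 57927) (nat_lit 282) (.e (nat_lit 163873) (nat_lit 3) (.e (nat_lit 204862) (nat_lit 27) (.e (nat_lit 344117) (nat_lit 21) (.e (nat_lit 516130) (nat_lit 3) (.e (nat_lit 221204) (nat_lit 20) (.e (nat_lit 3253) (nat_lit 197) (.e (nat_lit 532501) (nat_lit 1) .nil)))))))) (.g (nat_lit 5) .nil .nil))) 
(.lf (nat_lit 187873) (.g (nat_lit 781) (.e (nat_lit 57927) (nat_lit 282) (.e (nat_lit 163875) (nat_lit 3) (.e (nat_lit 204850) (nat_lit 26) .nil))) .nil)))) (.nd (nat_lit 5) (.nd (nat_lit 6) 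
(.lf (nat_lit 187793) (.g (nat_lit 1375) (.e (nat_lit 57927) (nat_lit 282) (.e (nat_lit 163873) (nat_lit 3) (.e (nat_lit 204816) (nat_lit 17) (.e (nat_lit 6437) (nat_lit 343) .nil)))) .nil)) 
(.lf (nat_lit 187857) (.g (nat_lit 977) (.e (nat_lit 57927) (nat_lit 282) (.e (nat_lit 163874) (nat_lit 3) (.e (nat_lit 204864) (nat_lit 27) .nil))) .nil))) (.nd (nat_lit 6) 
(.lf (nat_lit 187825) (.g (nat_lit 1938) (.e (nat_lit 57927) (nat_lit 282) (.e (nat_lit 163873) (nat_lit 3) (.e (nat_lit 204877) (nat_lit 31) (.e (nat_lit 376842) (nat_lit 11) (.e (nat_lit 426500) (nat_lit 27) .nil))))) .nil)) 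
(.lf (nat_lit 187889) (.g (nat_lit 1391) (.e (nat_lit 57927) (nat_lit 282) (.e (nat_lit 163875) (nat_lit 3) (.e (nat_lit 204861) (nat_lit 26) (.e (nat_lit 336220) (nat_lit 13) .nil)))) .nil))))) (.nd (nat_lit 4) (.nd (nat_lit 5) (.nd (nat_lit 6) 
(.lf (nat_lit 187785) (.g (nat_lit 1953) (.e (nat_lit 57927) (nat_lit 282) (.e (nat_lit 163870) (nat_lit 2) (.e (nat_lit 196666) (nat_lit 13) (.e (nat_lit 65627) (nat_lit 13) (.e (nat_lit 393228) (nat_lit 9) .nil))))) .nil)) 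
(.lf (nat_lit 187849) (.g (nat_lit 3530) (.e (nat_lit 57927) (nat_lit 282) (.e (nat_lit 163874) (nat_lit 3) (.e (nat_lit 204861) (nat_lit 26) (.e (nat_lit 336213) (nat_lit 13) (.e (nat_lit 393224) (nat_lit 9) (.e (nat_lit 335988) (nat_lit 1) .nil)))))) (.g (nat_lit 4) .nil .nil)))) (.nd (nat_lit 6) 
(.lf (nat_lit 187817) (.g (nat_lit 2001) (.e (nat_lit 57927) (nat_lit 282) (.e (nat_lit 163873) (nat_lit 3) (.e (nat_lit 204863) (nat_lit 27) (.e (nat_lit 344120) (nat_lit 21) .nil)))) .nil)) 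
(.lf (nat_lit 187881) (.g (nat_lit 2540) (.e (nat_lit 57927) (nat_lit 282) (.e (nat_lit 163875) (nat_lit 3) (.e (nat_lit 204861) (nat_lit 26) (.e (nat_lit 336076) (nat_lit 9) (.e (nat_lit 336454) (nat_lit 34) (.e (nat_lit 483362) (nat_lit 18) .nil)))))) (.g (nat_lit 5) .nil .nil))))) (.nd (nat_lit 5) (.nd (nat_lit 6) 
(.lf (nat_lit 187801) (.g (nat_lit 1897) (.e (nat_lit 57927) (nat_lit 282) (.e (nat_lit 163873) (nat_lit 3) (.e (nat_lit 204861) (nat_lit 26) (.e (nat_lit 336076) (nat_lit 9) (.e (nat_lit 336366) (nat_lit 27) .nil))))) .nil)) 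
(.lf (nat_lit 187865) (.g (nat_lit 1379) (.e (nat_lit 57927) (nat_lit 282) (.e (nat_lit 163874) (nat_lit 3) (.e (nat_lit 204867) (nat_lit 28) (.e (nat_lit 352277) (nat_lit 11) .nil)))) .nil))) (.nd (nat_lit 6) 
(.lf (nat_lit 187833) (.g (nat_lit 1722) (.e (nat_lit 57927) (nat_lit 282) (.e (nat_lit 163874) (nat_lit 3) (.e (nat_lit 204852) (nat_lit 26) (.e (nat_lit 336211) (nat_lit 13) .nil)))) .nil)) 
(.lf (nat_lit 187897) (.g (nat_lit 861) (.e (nat_lit 57927) (nat_lit 282) (.e (nat_lit 163875) (nat_lit 3) (.e (nat_lit 204875) (nat_lit 31) .nil))) .nil)))))) (.nd (nat_lit 3) (.nd (nat_lit 4) (.nd (nat_lit 5) (.nd (nat_lit 6) 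
(.lf (nat_lit 187781) (.g (nat_lit 1063) (.e (nat_lit 57927) (nat_lit 282) (.e (nat_lit 163869) (nat_lit 2) (.e (nat_lit 196681) (nat_lit 17) (.e (nat_lit 131124) (nat_lit 13) .nil)))) .nil)) 
(.lf (nat_lit 187845) (.g (nat_lit 2183) (.e (nat_lit 57927) (nat_lit 282) (.e (nat_lit 163874) (nat_lit 3) (.e (nat_lit 204861) (nat_lit 26) (.e (nat_lit 336076) (nat_lit 9) (.e (nat_lit 336368) (nat_lit 27) .nil))))) .nil))) (.nd (nat_lit 6) 
(.lf (nat_lit 187813) (.g (nat_lit 2734) (.e (nat_lit 57927) (nat_lit 282) (.e (nat_lit 163873) (nat_lit 3) (.e (nat_lit 204863) (nat_lit 27) (.e (nat_lit 344117) (nat_lit 21) (.e (nat_lit 516130) (nat_lit 3) .nil))))) .nil)) 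
(.lf (nat_lit 187877) (.g (nat_lit 861) (.e (nat_lit 57927) (nat_lit 282) (.e (nat_lit 163875) (nat_lit 3) (.e (nat_lit 204858) (nat_lit 26) .nil))) .nil)))) (.nd (nat_lit 5) (.nd (nat_lit 6) 
(.lf (nat_lit 187797) (.g (nat_lit 2595) (.e (nat_lit 57927) (nat_lit 282) (.e (nat_lit 163873) (nat_lit 3) (.e (nat_lit 204854) (nat_lit 26) (.e (nat_lit 336211) (nat_lit 13) (.e (nat_lit 393225) (nat_lit 9) .nil))))) .nil)) 
(.lf (nat_lit 187861) (.g (nat_lit 2798) (.e (nat_lit 57927) (nat_lit 282) (.e (nat_lit 163874) (nat_lit 3) (.e (nat_lit 204864) (nat_lit 27) (.e (nat_lit 344130) (nat_lit 26) (.e (nat_lit 557104) (nat_lit 14) (.e (nat_lit 180252) (nat_lit 10) (.e (nat_lit 573451) (nat_lit 9) (.e (nat_lit 1174) (nat_lit 87) .nil)))))))) (.g (nat_lit 4) .nil .nil)))) (.nd (nat_lit 6) 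
(.lf (nat_lit 187829) (.g (nat_lit 943) (.e (nat_lit 57927) (nat_lit 282) (.e (nat_lit 163874) (nat_lit 3) (.e (nat_lit 204850) (nat_lit 26) .nil))) .nil)) 
(.lf (nat_lit 187893) (.g (nat_lit 2179) (.e (nat_lit 57927) (nat_lit 282) (.e (nat_lit 163875) (nat_lit 3) (.e (nat_lit 204863) (nat_lit 27) (.e (nat_lit 344117) (nat_lit 21) (.e (nat_lit 516129) (nat_lit 3) .nil))))) .nil))))) (.nd (nat_lit 4) (.nd (nat_lit 5) (.nd (nat_lit 6) 
(.lf (nat_lit 187789) (.g (nat_lit 1396) (.e (nat_lit 57927) (nat_lit 282) (.e (nat_lit 163871) (nat_lit 2) (.e (nat_lit 196664) (nat_lit 13) (.e (nat_lit 65627) (nat_lit 13) (.e (nat_lit 393225) (nat_lit 9) .nil))))) .nil)) 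
(.lf (nat_lit 187853) (.g (nat_lit 3225) (.e (nat_lit 57927) (nat_lit 282) (.e (nat_lit 163874) (nat_lit 3) (.e (nat_lit 204862) (nat_lit 27) (.e (nat_lit 344117) (nat_lit 21) (.e (nat_lit 516099) (nat_lit 0) .nil))))) .nil))) (.nd (nat_lit 6) 
(.lf (nat_lit 187821) (.g (nat_lit 1906) (.e (nat_lit 57927) (nat_lit 282) (.e (nat_lit 163873) (nat_lit 3) (.e (nat_lit 204873) (nat_lit 30) (.e (nat_lit 368676) (nat_lit 21) (.e (nat_lit 516129) (nat_lit 3) .nil))))) .nil)) 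
(.lf (nat_lit 187885) (.g (nat_lit 2546) (.e (nat_lit 57927) (nat_lit 282) (.e (nat_lit 163875) (nat_lit 3) (.e (nat_lit 204861) (nat_lit 26) (.e (nat_lit 336213) (nat_lit 13) (.e (nat_lit 393225) (nat_lit 9) (.e (nat_lit 343808) (nat_lit 1) .nil)))))) (.g (nat_lit 5) .nil .nil))))) (.nd (nat_lit 5) (.nd (nat_lit 6) 
(.lf (nat_lit 187805) (.g (nat_lit 2274) (.e (nat_lit 57927) (nat_lit 282) (.e (nat_lit 163873) (nat_lit 3) (.e (nat_lit 204861) (nat_lit 26) (.e (nat_lit 336213) (nat_lit 13) (.e (nat_lit 393227) (nat_lit 9) .nil))))) .nil)) 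
(.lf (nat_lit 187869) (.g (nat_lit 1077) (.e (nat_lit 57927) (nat_lit 282) (.e (nat_lit 163874) (nat_lit 3) (.e (nat_lit 204877) (nat_lit 31) (.e (nat_lit 376839) (nat_lit 11) .nil)))) .nil))) (.nd (nat_lit 6) 
(.lf (nat_lit 187837) (.g (nat_lit 1708) (.e (nat_lit 57927) (nat_lit 282) (.e (nat_lit 163874) (nat_lit 3) (.e (nat_lit 204854) (nat_lit 26) (.e (nat_lit 336210) (nat_lit 13) .nil)))) .nil)) 
(.lf (nat_lit 187901) (.g (nat_lit 3920) (.e (nat_lit 57927) (nat_lit 282) (.e (nat_lit 163884) (nat_lit 5) (.e (nat_lit 221210) (nat_lit 22) (.e (nat_lit 196654) (nat_lit 11) (.e (nat_lit 16456) (nat_lit 12) (.e (nat_lit 475177) (nat_lit 24) (.e (nat_lit 524032) (nat_lit 18) .nil))))))) (.g (nat_lit 6) .nil .nil)))))))) 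
(.nd (nat_lit 2) (.nd (nat_lit 3) (.nd (nat_lit 4) (.nd (nat_lit 5) (.nd (nat_lit 6) 
(.lf (nat_lit 187779) (.g (nat_lit 994) (.e (nat_lit 57927) (nat_lit 282) (.e (nat_lit 163869) (nat_lit 2) (.e (nat_lit 196672) (nat_lit 15) (.e (nat_lit 81927) (nat_lit 11) .nil)))) .nil)) 
(.lf (nat_lit 187843) (.g (nat_lit 3314) (.e (nat_lit 57927) (nat_lit 282) (.e (nat_lit 163874) (nat_lit 3) (.e (nat_lit 204861) (nat_lit 26) (.e (nat_lit 336075) (nat_lit 9) (.e (nat_lit 336456) (nat_lit 34) (.e (nat_lit 483364) (nat_lit 18) .nil)))))) (.g (nat_lit 0) .nil .nil)))) (.nd (nat_lit 6) 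
(.lf (nat_lit 187811) (.g (nat_lit 4103) (.e (nat_lit 57927) (nat_lit 282) (.e (nat_lit 163873) (nat_lit 3) (.e (nat_lit 204863) (nat_lit 27) (.e (nat_lit 344117) (nat_lit 21) (.e (nat_lit 516099) (nat_lit 0) (.e (nat_lit 3771) (nat_lit 229) (.e (nat_lit 794673) (nat_lit 23) (.e (nat_lit 204829) (nat_lit 18) .nil)))))))) (.g (nat_lit 4) .nil .nil))) 
(.lf (nat_lit 187875) (.g (nat_lit 1327) (.e (nat_lit 57927) (nat_lit 282) (.e (nat_lit 163875) (nat_lit 3) (.e (nat_lit 204852) (nat_lit 26) (.e (nat_lit 336211) (nat_lit 13) .nil)))) .nil)))) (.nd (nat_lit 5) (.nd (nat_lit 6) 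
(.lf (nat_lit 187795) (.g (nat_lit 759) (.e (nat_lit 57927) (nat_lit 282) (.e (nat_lit 163873) (nat_lit 3) (.e (nat_lit 204853) (nat_lit 26) .nil))) .nil)) 
(.lf (nat_lit 187859) (.g (nat_lit 3377) (.e (nat_lit 57927) (nat_lit 282) (.e (nat_lit 163874) (nat_lit 3) (.e (nat_lit 204864) (nat_lit 27) (.e (nat_lit 344130) (nat_lit 26) (.e (nat_lit 557104) (nat_lit 14) (.e (nat_lit 180252) (nat_lit 10) (.e (nat_lit 573451) (nat_lit 9) (.e (nat_lit 1169) (nat_lit 87) .nil)))))))) (.g (nat_lit 5) .nil .nil)))) (.nd (nat_lit 6) 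
(.lf (nat_lit 187827) (.g (nat_lit 810) (.e (nat_lit 57927) (nat_lit 282) (.e (nat_lit 163873) (nat_lit 3) (.e (nat_lit 204878) (nat_lit 31) (.e (nat_lit 376839) (nat_lit 11) .nil)))) .nil)) 
(.lf (nat_lit 187891) (.g (nat_lit 2197) (.e (nat_lit 57927) (nat_lit 282) (.e (nat_lit 163875) (nat_lit 3) (.e (nat_lit 204863) (nat_lit 27) (.e (nat_lit 344117) (nat_lit 21) (.e (nat_lit 516122) (nat_lit 2) .nil))))) .nil))))) (.nd (nat_lit 4) (.nd (nat_lit 5) (.nd (nat_lit 6) 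
(.lf (nat_lit 187787) (.g (nat_lit 1954) (.e (nat_lit 57927) (nat_lit 282) (.e (nat_lit 163870) (nat_lit 2) (.e (nat_lit 196674) (nat_lit 15) (.e (nat_lit 81925) (nat_lit 11) (.e (nat_lit 426500) (nat_lit 27) .nil))))) .nil)) 
(.lf (nat_lit 187851) (.g (nat_lit 3405) (.e (nat_lit 57927) (nat_lit 282) (.e (nat_lit 163874) (nat_lit 3) (.e (nat_lit 204861) (nat_lit 26) (.e (nat_lit 336213) (nat_lit 13) (.e (nat_lit 393229) (nat_lit 9) (.e (nat_lit 335986) (nat_lit 1) .nil)))))) (.g (nat_lit 0) .nil .nil)))) (.nd (nat_lit 6) 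
(.lf (nat_lit 187819) (.g (nat_lit 1486) (.e (nat_lit 57927) (nat_lit 282) (.e (nat_lit 163873) (nat_lit 3) (.e (nat_lit 204865) (nat_lit 28) (.e (nat_lit 352277) (nat_lit 11) (.e (nat_lit 426500) (nat_lit 27) .nil))))) .nil)) 
(.lf (nat_lit 187883) (.g (nat_lit 2994) (.e (nat_lit 57927) (nat_lit 282) (.e (nat_lit 163875) (nat_lit 3) (.e (nat_lit 204861) (nat_lit 26) (.e (nat_lit 336213) (nat_lit 13) (.e (nat_lit 393224) (nat_lit 9) .nil))))) .nil)))) (.nd (nat_lit 5) (.nd (nat_lit 6) 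
(.lf (nat_lit 187803) (.g (nat_lit 1729) (.e (nat_lit 57927) (nat_lit 282) (.e (nat_lit 163873) (nat_lit 3) (.e (nat_lit 204861) (nat_lit 26) (.e (nat_lit 336076) (nat_lit 9) (.e (nat_lit 336374) (nat_lit 27) .nil))))) .nil)) 
(.lf (nat_lit 187867) (.g (nat_lit 772) (.e (nat_lit 57927) (nat_lit 282) (.e (nat_lit 163874) (nat_lit 3) (.e (nat_lit 204876) (nat_lit 31) (.e (nat_lit 376840) (nat_lit 11) .nil)))) .nil))) (.nd (nat_lit 6) 
(.lf (nat_lit 187835) (.g (nat_lit 1294) (.e (nat_lit 57927) (nat_lit 282) (.e (nat_lit 163874) (nat_lit 3) (.e (nat_lit 204853) (nat_lit 26) (.e (nat_lit 336211) (nat_lit 13) .nil)))) .nil)) 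
(.lf (nat_lit 187899) (.g (nat_lit 2400) (.e (nat_lit 57927) (nat_lit 282) (.e (nat_lit 163884) (nat_lit 5) (.e (nat_lit 221210) (nat_lit 22) (.e (nat_lit 196653) (nat_lit 11) (.e (nat_lit 16456) (nat_lit 12) (.e (nat_lit 475177) (nat_lit 24) (.e (nat_lit 524032) (nat_lit 18) .nil))))))) (.g (nat_lit 4) .nil .nil))))))) (.nd (nat_lit 3) (.nd (nat_lit 4) (.nd (nat_lit 5) (.nd (nat_lit 6) 
(.lf (nat_lit 187783) (.g (nat_lit 1953) (.e (nat_lit 57927) (nat_lit 282) (.e (nat_lit 163870) (nat_lit 2) (.e (nat_lit 196666) (nat_lit 13) (.e (nat_lit 65627) (nat_lit 13) (.e (nat_lit 393224) (nat_lit 9) .nil))))) .nil)) 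
(.lf (nat_lit 187847) (.g (nat_lit 1930) (.e (nat_lit 57927) (nat_lit 282) (.e (nat_lit 163874) (nat_lit 3) (.e (nat_lit 204861) (nat_lit 26) (.e (nat_lit 336076) (nat_lit 9) (.e (nat_lit 336377) (nat_lit 27) .nil))))) .nil))) (.nd (nat_lit 6) 
(.lf (nat_lit 187815) (.g (nat_lit 3612) (.e (nat_lit 57927) (nat_lit 282) (.e (nat_lit 163873) (nat_lit 3) (.e (nat_lit 204863) (nat_lit 27) (.e (nat_lit 344117) (nat_lit 21) (.e (nat_lit 516130) (nat_lit 3) (.e (nat_lit 221214) (nat_lit 23) (.e (nat_lit 204830) (nat_lit 18) .nil))))))) (.g (nat_lit 4) .nil .nil))) 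
(.lf (nat_lit 187879) (.g (nat_lit 1175) (.e (nat_lit 57927) (nat_lit 282) (.e (nat_lit 163875) (nat_lit 3) (.e (nat_lit 204861) (nat_lit 26) (.e (nat_lit 336075) (nat_lit 9) .nil)))) .nil)))) (.nd (nat_lit 5) (.nd (nat_lit 6) 
(.lf (nat_lit 187799) (.g (nat_lit 977) (.e (nat_lit 57927) (nat_lit 282) (.e (nat_lit 163873) (nat_lit 3) (.e (nat_lit 204859) (nat_lit 26) (.e (nat_lit 336209) (nat_lit 13) .nil)))) .nil)) 
(.lf (nat_lit 187863) (.g (nat_lit 2757) (.e (nat_lit 57927) (nat_lit 282) (.e (nat_lit 163874) (nat_lit 3) (.e (nat_lit 204864) (nat_lit 27) (.e (nat_lit 344132) (nat_lit 26) (.e (nat_lit 557105) (nat_lit 14) (.e (nat_lit 180252) (nat_lit 10) (.e (nat_lit 573451) (nat_lit 9) (.e (nat_lit 7936) (nat_lit 87) .nil)))))))) (.g (nat_lit 4) .nil .nil)))) (.nd (nat_lit 6) 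
(.lf (nat_lit 187831) (.g (nat_lit 1031) (.e (nat_lit 57927) (nat_lit 282) (.e (nat_lit 163874) (nat_lit 3) (.e (nat_lit 204851) (nat_lit 26) .nil))) .nil)) 
(.lf (nat_lit 187895) (.g (nat_lit 1795) (.e (nat_lit 57927) (nat_lit 282) (.e (nat_lit 163875) (nat_lit 3) (.e (nat_lit 204863) (nat_lit 27) (.e (nat_lit 344118) (nat_lit 21) .nil)))) .nil))))) (.nd (nat_lit 4) (.nd (nat_lit 5) (.nd (nat_lit 6) 
(.lf (nat_lit 187791) (.g (nat_lit 1799) (.e (nat_lit 57927) (nat_lit 282) (.e (nat_lit 163871) (nat_lit 2) (.e (nat_lit 196672) (nat_lit 15) (.e (nat_lit 81925) (nat_lit 11) (.e (nat_lit 426500) (nat_lit 27) .nil))))) .nil)) 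
(.lf (nat_lit 187855) (.g (nat_lit 2301) (.e (nat_lit 57927) (nat_lit 282) (.e (nat_lit 163874) (nat_lit 3) (.e (nat_lit 204863) (nat_lit 27) (.e (nat_lit 344117) (nat_lit 21) (.e (nat_lit 516123) (nat_lit 2) .nil))))) .nil))) (.nd (nat_lit 6) 
(.lf (nat_lit 187823) (.g (nat_lit 758) (.e (nat_lit 57927) (nat_lit 282) (.e (nat_lit 163873) (nat_lit 3) (.e (nat_lit 204876) (nat_lit 31) .nil))) .nil)) 
(.lf (nat_lit 187887) (.g (nat_lit 2752) (.e (nat_lit 57927) (nat_lit 282) (.e (nat_lit 163875) (nat_lit 3) (.e (nat_lit 204861) (nat_lit 26) (.e (nat_lit 336213) (nat_lit 13) (.e (nat_lit 393227) (nat_lit 9) (.e (nat_lit 343808) (nat_lit 1) .nil)))))) (.g (nat_lit 5) .nil .nil))))) (.nd (nat_lit 5) (.nd (nat_lit 6) 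
(.lf (nat_lit 187807) (.g (nat_lit 2517) (.e (nat_lit 57927) (nat_lit 282) (.e (nat_lit 163873) (nat_lit 3) (.e (nat_lit 204862) (nat_lit 27) (.e (nat_lit 344117) (nat_lit 21) (.e (nat_lit 516122) (nat_lit 2) .nil))))) .nil)) 
(.lf (nat_lit 187871) (.g (nat_lit 1723) (.e (nat_lit 57927) (nat_lit 282) (.e (nat_lit 163874) (nat_lit 3) (.e (nat_lit 204877) (nat_lit 31) (.e (nat_lit 376842) (nat_lit 11) (.e (nat_lit 426517) (nat_lit 27) .nil))))) .nil))) (.nd (nat_lit 6) 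
(.lf (nat_lit 187839) (.g (nat_lit 1593) (.e (nat_lit 57927) (nat_lit 282) (.e (nat_lit 163874) (nat_lit 3) (.e (nat_lit 204854) (nat_lit 26) (.e (nat_lit 336211) (nat_lit 13) (.e (nat_lit 393226) (nat_lit 9) .nil))))) .nil)) 
(.lf (nat_lit 187903) (.g (nat_lit 3845) (.e (nat_lit 57927) (nat_lit 282) (.e (nat_lit 163884) (nat_lit 5) (.e (nat_lit 221210) (nat_lit 22) (.e (nat_lit 196654) (nat_lit 11) (.e (nat_lit 16459) (nat_lit 12) (.e (nat_lit 475177) (nat_lit 24) (.e (nat_lit 524032) (nat_lit 18) .nil))))))) (.g (nat_lit 6) .nil .nil))))))))))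

noncomputable def tv2493 : DT := (.nd (nat_lit 0) (.nd (nat_lit 1) (.nd (nat_lit 2) (.nd (nat_lit 3) (.nd (nat_lit 4) (.nd (nat_lit 5) (.nd (nat_lit 6) 
(.lf (nat_lit 187904) (.g (nat_lit 2261) (.e (nat_lit 57927) (nat_lit 282) (.e (nat_lit 163884) (nat_lit 5) (.e (nat_lit 221210) (nat_lit 22) (.e (nat_lit 196654) (nat_lit 11) (.e (nat_lit 16461) (nat_lit 12) (.e (nat_lit 475177) (nat_lit 24) (.e (nat_lit 524032) (nat_lit 18) .nil))))))) (.g (nat_lit 4) .nil .nil))) 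
(.lf (nat_lit 187968) (.g (nat_lit 966) (.e (nat_lit 57927) (nat_lit 282) (.e (nat_lit 163943) (nat_lit 19) (.e (nat_lit 483412) (nat_lit 27) .nil))) .nil))) (.nd (nat_lit 6) 
(.lf (nat_lit 187936) (.g (nat_lit 1471) (.e (nat_lit 57927) (nat_lit 282) (.e (nat_lit 163905) (nat_lit 12) (.e (nat_lit 426542) (nat_lit 29) (.e (nat_lit 352315) (nat_lit 23) (.e (nat_lit 106240) (nat_lit 9) .nil))))) .nil)) 
(.lf (nat_lit 188000) (.g (nat_lit 2107) (.e (nat_lit 57928) (nat_lit 282) (.e (nat_lit 163871) (nat_lit 2) (.e (nat_lit 196670) (nat_lit 14) (.e (nat_lit 73746) (nat_lit 3) (.e (nat_lit 516124) (nat_lit 2) .nil))))) .nil)))) (.nd (nat_lit 5) (.nd (nat_lit 6) 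
(.lf (nat_lit 187920) (.g (nat_lit 4490) (.e (nat_lit 57927) (nat_lit 282) (.e (nat_lit 163903) (nat_lit 12) (.e (nat_lit 426472) (nat_lit 25) (.e (nat_lit 319531) (nat_lit 16) (.e (nat_lit 286735) (nat_lit 3) (.e (nat_lit 98342) (nat_lit 20) (.e (nat_lit 229120) (nat_lit 1) .nil))))))) (.g (nat_lit 6) .nil .nil))) 
(.lf (nat_lit 187984) (.g (nat_lit 1082) (.e (nat_lit 57928) (nat_lit 282) (.e (nat_lit 163868) (nat_lit 2) (.e (nat_lit 196672) (nat_lit 15) (.e (nat_lit 89856) (nat_lit 11) .nil)))) .nil))) (.nd (nat_lit 6) 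
(.lf (nat_lit 187952) (.g (nat_lit 2202) (.e (nat_lit 57927) (nat_lit 282) (.e (nat_lit 163933) (nat_lit 17) (.e (nat_lit 466972) (nat_lit 21) (.e (nat_lit 164403) (nat_lit 256) (.e (nat_lit 57409) (nat_lit 12) (.e (nat_lit 336336) (nat_lit 20) (.e (nat_lit 229120) (nat_lit 1) .nil))))))) (.g (nat_lit 4) .nil .nil))) 
(.lf (nat_lit 188016) (.g (nat_lit 2078) (.e (nat_lit 57928) (nat_lit 282) (.e (nat_lit 163875) (nat_lit 3) (.e (nat_lit 204861) (nat_lit 26) (.e (nat_lit 336076) (nat_lit 9) (.e (nat_lit 336456) (nat_lit 34) .nil))))) .nil))))) (.nd (nat_lit 4) (.nd (nat_lit 5) (.nd (nat_lit 6) 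
(.lf (nat_lit 187912) (.g (nat_lit 2199) (.e (nat_lit 57927) (nat_lit 282) (.e (nat_lit 163886) (nat_lit 5) (.e (nat_lit 221212) (nat_lit 22) (.e (nat_lit 196654) (nat_lit 11) (.e (nat_lit 16458) (nat_lit 12) (.e (nat_lit 475177) (nat_lit 24) (.e (nat_lit 524032) (nat_lit 18) .nil))))))) (.g (nat_lit 4) .nil .nil))) 
(.lf (nat_lit 187976) (.g (nat_lit 1709) (.e (nat_lit 57928) (nat_lit 282) (.e (nat_lit 163868) (nat_lit 2) (.e (nat_lit 196670) (nat_lit 14) (.e (nat_lit 73746) (nat_lit 3) .nil)))) .nil))) (.nd (nat_lit 6) 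
(.lf (nat_lit 187944) (.g (nat_lit 2283) (.e (nat_lit 57927) (nat_lit 282) (.e (nat_lit 163907) (nat_lit 12) (.e (nat_lit 426555) (nat_lit 32) (.e (nat_lit 376866) (nat_lit 23) (.e (nat_lit 98317) (nat_lit 9) .nil))))) .nil)) 
(.lf (nat_lit 188008) (.g (nat_lit 589) (.e (nat_lit 57928) (nat_lit 282) (.e (nat_lit 163873) (nat_lit 3) (.e (nat_lit 204861) (nat_lit 26) .nil))) .nil)))) (.nd (nat_lit 5) (.nd (nat_lit 6) 
(.lf (nat_lit 187928) (.g (nat_lit 1328) (.e (nat_lit 57927) (nat_lit 282) (.e (nat_lit 163903) (nat_lit 12) (.e (nat_lit 426553) (nat_lit 32) (.e (nat_lit 376868) (nat_lit 23) (.e (nat_lit 98317) (nat_lit 9) .nil))))) .nil)) 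
(.lf (nat_lit 187992) (.g (nat_lit 2342) (.e (nat_lit 57928) (nat_lit 282) (.e (nat_lit 163869) (nat_lit 2) (.e (nat_lit 196670) (nat_lit 14) (.e (nat_lit 73746) (nat_lit 3) (.e (nat_lit 516131) (nat_lit 3) .nil))))) .nil))) (.nd (nat_lit 6) 
(.lf (nat_lit 187960) (.g (nat_lit 819) (.e (nat_lit 57927) (nat_lit 282) (.e (nat_lit 163943) (nat_lit 19) (.e (nat_lit 483350) (nat_lit 17) .nil))) .nil)) 
(.lf (nat_lit 188024) (.g (nat_lit 1960) (.e (nat_lit 57928) (nat_lit 282) (.e (nat_lit 163905) (nat_lit 12) (.e (nat_lit 426555) (nat_lit 32) (.e (nat_lit 376862) (nat_lit 22) .nil)))) .nil)))))) (.nd (nat_lit 3) (.nd (nat_lit 4) (.nd (nat_lit 5) (.nd (nat_lit 6) 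
(.lf (nat_lit 187908) (.g (nat_lit 1912) (.e (nat_lit 57927) (nat_lit 282) (.e (nat_lit 163885) (nat_lit 5) (.e (nat_lit 221212) (nat_lit 22) (.e (nat_lit 196656) (nat_lit 11) (.e (nat_lit 16425) (nat_lit 7) .nil))))) .nil)) 
(.lf (nat_lit 187972) (.g (nat_lit 738) (.e (nat_lit 57927) (nat_lit 282) (.e (nat_lit 163944) (nat_lit 19) (.e (nat_lit 483405) (nat_lit 26) .nil))) .nil))) (.nd (nat_lit 6) 
(.lf (nat_lit 187940) (.g (nat_lit 555) (.e (nat_lit 57927) (nat_lit 282) (.e (nat_lit 163905) (nat_lit 12) (.e (nat_lit 426556) (nat_lit 32) .nil))) .nil)) 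
(.lf (nat_lit 188004) (.g (nat_lit 959) (.e (nat_lit 57928) (nat_lit 282) (.e (nat_lit 163871) (nat_lit 2) (.e (nat_lit 196672) (nat_lit 15) (.e (nat_lit 81927) (nat_lit 11) .nil)))) .nil)))) (.nd (nat_lit 5) (.nd (nat_lit 6) 
(.lf (nat_lit 187924) (.g (nat_lit 979) (.e (nat_lit 57927) (nat_lit 282) (.e (nat_lit 163903) (nat_lit 12) (.e (nat_lit 426544) (nat_lit 30) (.e (nat_lit 360466) (nat_lit 3) .nil)))) .nil)) 
(.lf (nat_lit 187988) (.g (nat_lit 2634) (.e (nat_lit 57928) (nat_lit 282) (.e (nat_lit 163869) (nat_lit 2) (.e (nat_lit 196670) (nat_lit 14) (.e (nat_lit 73746) (nat_lit 3) (.e (nat_lit 516124) (nat_lit 2) .nil))))) .nil))) (.nd (nat_lit 6) 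
(.lf (nat_lit 187956) (.g (nat_lit 2624) (.e (nat_lit 57927) (nat_lit 282) (.e (nat_lit 163941) (nat_lit 19) (.e (nat_lit 483403) (nat_lit 26) (.e (nat_lit 385066) (nat_lit 26) (.e (nat_lit 532499) (nat_lit 1) .nil))))) .nil)) 
(.lf (nat_lit 188020) (.g (nat_lit 1682) (.e (nat_lit 57928) (nat_lit 282) (.e (nat_lit 163875) (nat_lit 3) (.e (nat_lit 204872) (nat_lit 30) (.e (nat_lit 368676) (nat_lit 21) (.e (nat_lit 516131) (nat_lit 3) .nil))))) .nil))))) (.nd (nat_lit 4) (.nd (nat_lit 5) (.nd (nat_lit 6) 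
(.lf (nat_lit 187916) (.g (nat_lit 2042) (.e (nat_lit 57927) (nat_lit 282) (.e (nat_lit 163902) (nat_lit 12) (.e (nat_lit 426544) (nat_lit 30) (.e (nat_lit 360467) (nat_lit 3) (.e (nat_lit 516195) (nat_lit 26) .nil))))) .nil)) 
(.lf (nat_lit 187980) (.g (nat_lit 2514) (.e (nat_lit 57928) (nat_lit 282) (.e (nat_lit 163868) (nat_lit 2) (.e (nat_lit 196670) (nat_lit 14) (.e (nat_lit 73746) (nat_lit 3) (.e (nat_lit 516131) (nat_lit 3) .nil))))) .nil))) (.nd (nat_lit 6) 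
(.lf (nat_lit 187948) (.g (nat_lit 2114) (.e (nat_lit 57927) (nat_lit 282) (.e (nat_lit 163907) (nat_lit 12) (.e (nat_lit 426555) (nat_lit 32) (.e (nat_lit 376868) (nat_lit 23) .nil)))) .nil)) 
(.lf (nat_lit 188012) (.g (nat_lit 1975) (.e (nat_lit 57928) (nat_lit 282) (.e (nat_lit 163874) (nat_lit 3) (.e (nat_lit 204861) (nat_lit 26) (.e (nat_lit 336076) (nat_lit 9) .nil)))) .nil)))) (.nd (nat_lit 5) (.nd (nat_lit 6) 
(.lf (nat_lit 187932) (.g (nat_lit 668) (.e (nat_lit 57927) (nat_lit 282) (.e (nat_lit 163903) (nat_lit 12) (.e (nat_lit 426556) (nat_lit 32) .nil))) .nil)) 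
(.lf (nat_lit 187996) (.g (nat_lit 2397) (.e (nat_lit 57928) (nat_lit 282) (.e (nat_lit 163871) (nat_lit 2) (.e (nat_lit 196663) (nat_lit 13) (.e (nat_lit 65571) (nat_lit 3) (.e (nat_lit 98341) (nat_lit 20) .nil))))) .nil))) (.nd (nat_lit 6) 
(.lf (nat_lit 187964) (.g (nat_lit 1805) (.e (nat_lit 57927) (nat_lit 282) (.e (nat_lit 163943) (nat_lit 19) (.e (nat_lit 483397) (nat_lit 25) (.e (nat_lit 368676) (nat_lit 21) (.e (nat_lit 516195) (nat_lit 26) .nil))))) .nil)) 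
(.lf (nat_lit 188028) (.g (nat_lit 2068) (.e (nat_lit 57928) (nat_lit 282) (.e (nat_lit 163907) (nat_lit 12) (.e (nat_lit 426555) (nat_lit 32) (.e (nat_lit 376865) (nat_lit 22) (.e (nat_lit 90158) (nat_lit 11) .nil))))) .nil))))))) (.nd (nat_lit 2) (.nd (nat_lit 3) (.nd (nat_lit 4) (.nd (nat_lit 5) (.nd (nat_lit 6) 
(.lf (nat_lit 187906) (.g (nat_lit 701) (.e (nat_lit 57927) (nat_lit 282) (.e (nat_lit 163884) (nat_lit 5) (.e (nat_lit 221214) (nat_lit 23) .nil))) .nil)) 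
(.lf (nat_lit 187970) (.g (nat_lit 1127) (.e (nat_lit 57927) (nat_lit 282) (.e (nat_lit 163944) (nat_lit 19) (.e (nat_lit 483394) (nat_lit 24) (.e (nat_lit 344117) (nat_lit 21) .nil)))) .nil))) (.nd (nat_lit 6) 
(.lf (nat_lit 187938) (.g (nat_lit 387) (.e (nat_lit 57927) (nat_lit 282) (.e (nat_lit 163905) (nat_lit 12) (.e (nat_lit 426546) (nat_lit 30) .nil))) .nil)) 
(.lf (nat_lit 188002) (.g (nat_lit 2129) (.e (nat_lit 57928) (nat_lit 282) (.e (nat_lit 163871) (nat_lit 2) (.e (nat_lit 196670) (nat_lit 14) (.e (nat_lit 73746) (nat_lit 3) (.e (nat_lit 516127) (nat_lit 2) .nil))))) .nil)))) (.nd (nat_lit 5) (.nd (nat_lit 6) 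
(.lf (nat_lit 187922) (.g (nat_lit 1154) (.e (nat_lit 57927) (nat_lit 282) (.e (nat_lit 163903) (nat_lit 12) (.e (nat_lit 426539) (nat_lit 29) (.e (nat_lit 352315) (nat_lit 23) .nil)))) .nil)) 
(.lf (nat_lit 187986) (.g (nat_lit 2476) (.e (nat_lit 57928) (nat_lit 282) (.e (nat_lit 163869) (nat_lit 2) (.e (nat_lit 196668) (nat_lit 14) (.e (nat_lit 73747) (nat_lit 3) (.e (nat_lit 516129) (nat_lit 3) .nil))))) .nil))) (.nd (nat_lit 6) 
(.lf (nat_lit 187954) (.g (nat_lit 629) (.e (nat_lit 57927) (nat_lit 282) (.e (nat_lit 163941) (nat_lit 19) (.e (nat_lit 483399) (nat_lit 25) .nil))) .nil)) 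
(.lf (nat_lit 188018) (.g (nat_lit 1203) (.e (nat_lit 57928) (nat_lit 282) (.e (nat_lit 163875) (nat_lit 3) (.e (nat_lit 204865) (nat_lit 28) (.e (nat_lit 352277) (nat_lit 11) (.e (nat_lit 426500) (nat_lit 27) .nil))))) .nil))))) (.nd (nat_lit 4) (.nd (nat_lit 5) (.nd (nat_lit 6) 
(.lf (nat_lit 187914) (.g (nat_lit 2380) (.e (nat_lit 57927) (nat_lit 282) (.e (nat_lit 163886) (nat_lit 5) (.e (nat_lit 221212) (nat_lit 22) (.e (nat_lit 196654) (nat_lit 11) (.e (nat_lit 16461) (nat_lit 12) (.e (nat_lit 475177) (nat_lit 24) (.e (nat_lit 524032) (nat_lit 18) .nil))))))) (.g (nat_lit 5) .nil .nil))) 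
(.lf (nat_lit 187978) (.g (nat_lit 2679) (.e (nat_lit 57928) (nat_lit 282) (.e (nat_lit 163868) (nat_lit 2) (.e (nat_lit 196670) (nat_lit 14) (.e (nat_lit 73746) (nat_lit 3) (.e (nat_lit 516127) (nat_lit 2) .nil))))) .nil))) (.nd (nat_lit 6) 
(.lf (nat_lit 187946) (.g (nat_lit 1505) (.e (nat_lit 57927) (nat_lit 282) (.e (nat_lit 163907) (nat_lit 12) (.e (nat_lit 426555) (nat_lit 32) (.e (nat_lit 376867) (nat_lit 23) (.e (nat_lit 98314) (nat_lit 9) .nil))))) .nil)) 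
(.lf (nat_lit 188010) (.g (nat_lit 862) (.e (nat_lit 57928) (nat_lit 282) (.e (nat_lit 163874) (nat_lit 3) (.e (nat_lit 204861) (nat_lit 26) .nil))) .nil)))) (.nd (nat_lit 5) (.nd (nat_lit 6) 
(.lf (nat_lit 187930) (.g (nat_lit 968) (.e (nat_lit 57927) (nat_lit 282) (.e (nat_lit 163903) (nat_lit 12) (.e (nat_lit 426555) (nat_lit 32) (.e (nat_lit 376867) (nat_lit 23) .nil)))) .nil)) 
(.lf (nat_lit 187994) (.g (nat_lit 2259) (.e (nat_lit 57928) (nat_lit 282) (.e (nat_lit 163870) (nat_lit 2) (.e (nat_lit 196666) (nat_lit 13) (.e (nat_lit 65625) (nat_lit 13) .nil)))) .nil))) (.nd (nat_lit 6) 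
(.lf (nat_lit 187962) (.g (nat_lit 2272) (.e (nat_lit 57927) (nat_lit 282) (.e (nat_lit 163943) (nat_lit 19) (.e (nat_lit 483393) (nat_lit 23) (.e (nat_lit 336027) (nat_lit 3) (.e (nat_lit 98317) (nat_lit 9) .nil))))) .nil)) 
(.lf (nat_lit 188026) (.g (nat_lit 2067) (.e (nat_lit 57928) (nat_lit 282) (.e (nat_lit 163907) (nat_lit 12) (.e (nat_lit 426555) (nat_lit 32) (.e (nat_lit 376862) (nat_lit 22) (.e (nat_lit 90158) (nat_lit 11) .nil))))) .nil)))))) (.nd (nat_lit 3) (.nd (nat_lit 4) (.nd (nat_lit 5) (.nd (nat_lit 6) 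
(.lf (nat_lit 187910) (.g (nat_lit 3000) (.e (nat_lit 57927) (nat_lit 282) (.e (nat_lit 163886) (nat_lit 5) (.e (nat_lit 221212) (nat_lit 22) (.e (nat_lit 196653) (nat_lit 11) (.e (nat_lit 16458) (nat_lit 12) (.e (nat_lit 475177) (nat_lit 24) (.e (nat_lit 524032) (nat_lit 18) .nil))))))) (.g (nat_lit 6) .nil .nil))) 
(.lf (nat_lit 187974) (.g (nat_lit 530) (.e (nat_lit 57928) (nat_lit 282) (.e (nat_lit 163868) (nat_lit 2) (.e (nat_lit 196668) (nat_lit 14) .nil))) .nil))) (.nd (nat_lit 6) 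
(.lf (nat_lit 187942) (.g (nat_lit 1585) (.e (nat_lit 57927) (nat_lit 282) (.e (nat_lit 163906) (nat_lit 12) (.e (nat_lit 426555) (nat_lit 32) (.e (nat_lit 376869) (nat_lit 23) (.e (nat_lit 98316) (nat_lit 9) .nil))))) .nil)) 
(.lf (nat_lit 188006) (.g (nat_lit 2055) (.e (nat_lit 57928) (nat_lit 282) (.e (nat_lit 163871) (nat_lit 2) (.e (nat_lit 196674) (nat_lit 15) (.e (nat_lit 81925) (nat_lit 11) (.e (nat_lit 426500) (nat_lit 27) .nil))))) .nil)))) (.nd (nat_lit 5) (.nd (nat_lit 6) 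
(.lf (nat_lit 187926) (.g (nat_lit 2480) (.e (nat_lit 57927) (nat_lit 282) (.e (nat_lit 163903) (nat_lit 12) (.e (nat_lit 426545) (nat_lit 30) (.e (nat_lit 360475) (nat_lit 8) (.e (nat_lit 564992) (nat_lit 0) .nil))))) .nil)) 
(.lf (nat_lit 187990) (.g (nat_lit 2630) (.e (nat_lit 57928) (nat_lit 282) (.e (nat_lit 163869) (nat_lit 2) (.e (nat_lit 196670) (nat_lit 14) (.e (nat_lit 73746) (nat_lit 3) (.e (nat_lit 516127) (nat_lit 2) .nil))))) .nil))) (.nd (nat_lit 6) 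
(.lf (nat_lit 187958) (.g (nat_lit 606) (.e (nat_lit 57927) (nat_lit 282) (.e (nat_lit 163941) (nat_lit 19) (.e (nat_lit 483408) (nat_lit 26) .nil))) .nil)) 
(.lf (nat_lit 188022) (.g (nat_lit 2218) (.e (nat_lit 57928) (nat_lit 282) (.e (nat_lit 163903) (nat_lit 12) (.e (nat_lit 426555) (nat_lit 32) (.e (nat_lit 376865) (nat_lit 22) (.e (nat_lit 90158) (nat_lit 11) .nil))))) .nil))))) (.nd (nat_lit 4) (.nd (nat_lit 5) (.nd (nat_lit 6) 
(.lf (nat_lit 187918) (.g (nat_lit 4026) (.e (nat_lit 57927) (nat_lit 282) (.e (nat_lit 163903) (nat_lit 12) (.e (nat_lit 426472) (nat_lit 25) (.e (nat_lit 319530) (nat_lit 16) (.e (nat_lit 286735) (nat_lit 3) (.e (nat_lit 98342) (nat_lit 20) (.e (nat_lit 229120) (nat_lit 1) .nil))))))) (.g (nat_lit 6) .nil .nil))) 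
(.lf (nat_lit 187982) (.g (nat_lit 803) (.e (nat_lit 57928) (nat_lit 282) (.e (nat_lit 163868) (nat_lit 2) (.e (nat_lit 196672) (nat_lit 15) (.e (nat_lit 81927) (nat_lit 11) .nil)))) .nil))) (.nd (nat_lit 6) 
(.lf (nat_lit 187950) (.g (nat_lit 1560) (.e (nat_lit 57927) (nat_lit 282) (.e (nat_lit 163907) (nat_lit 12) (.e (nat_lit 426555) (nat_lit 32) (.e (nat_lit 376869) (nat_lit 23) (.e (nat_lit 98314) (nat_lit 9) .nil))))) .nil)) 
(.lf (nat_lit 188014) (.g (nat_lit 1829) (.e (nat_lit 57928) (nat_lit 282) (.e (nat_lit 163875) (nat_lit 3) (.e (nat_lit 204861) (nat_lit 26) (.e (nat_lit 336075) (nat_lit 9) (.e (nat_lit 336456) (nat_lit 34) .nil))))) .nil)))) (.nd (nat_lit 5) (.nd (nat_lit 6) 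
(.lf (nat_lit 187934) (.g (nat_lit 1488) (.e (nat_lit 57927) (nat_lit 282) (.e (nat_lit 163904) (nat_lit 12) (.e (nat_lit 426555) (nat_lit 32) (.e (nat_lit 376868) (nat_lit 23) (.e (nat_lit 98317) (nat_lit 9) .nil))))) .nil)) 
(.lf (nat_lit 187998) (.g (nat_lit 1929) (.e (nat_lit 57928) (nat_lit 282) (.e (nat_lit 163871) (nat_lit 2) (.e (nat_lit 196668) (nat_lit 14) (.e (nat_lit 73746) (nat_lit 3) (.e (nat_lit 516124) (nat_lit 2) .nil))))) .nil))) (.nd (nat_lit 6) 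
(.lf (nat_lit 187966) (.g (nat_lit 3401) (.e (nat_lit 57927) (nat_lit 282) (.e (nat_lit 163943) (nat_lit 19) (.e (nat_lit 483406) (nat_lit 26) (.e (nat_lit 385066) (nat_lit 26) (.e (nat_lit 532499) (nat_lit 1) .nil))))) .nil)) 
(.lf (nat_lit 188030) (.g (nat_lit 980) (.e (nat_lit 57929) (nat_lit 282) (.e (nat_lit 163842) (nat_lit 0) (.e (nat_lit 7593) (nat_lit 407) (.e (nat_lit 73736) (nat_lit 0) .nil)))) .nil)))))))) (.nd (nat_lit 1) (.nd (nat_lit 2) (.nd (nat_lit 3) (.nd (nat_lit 4) (.nd (nat_lit 5) (.nd (nat_lit 6) 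
(.lf (nat_lit 187905) (.g (nat_lit 2284) (.e (nat_lit 57927) (nat_lit 282) (.e (nat_lit 163884) (nat_lit 5) (.e (nat_lit 221210) (nat_lit 22) (.e (nat_lit 196655) (nat_lit 11) (.e (nat_lit 16458) (nat_lit 12) (.e (nat_lit 475177) (nat_lit 24) (.e (nat_lit 524032) (nat_lit 18) .nil))))))) (.g (nat_lit 4) .nil .nil))) 
(.lf (nat_lit 187969) (.g (nat_lit 2327) (.e (nat_lit 57927) (nat_lit 282) (.e (nat_lit 163943) (nat_lit 19) (.e (nat_lit 483413) (nat_lit 27) (.e (nat_lit 401413) (nat_lit 0) (.e (nat_lit 3304) (nat_lit 202) .nil))))) .nil))) (.nd (nat_lit 6) 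
(.lf (nat_lit 187937) (.g (nat_lit 2028) (.e (nat_lit 57927) (nat_lit 282) (.e (nat_lit 163905) (nat_lit 12) (.e (nat_lit 426545) (nat_lit 30) (.e (nat_lit 360475) (nat_lit 8) (.e (nat_lit 564992) (nat_lit 0) .nil))))) .nil)) 
(.lf (nat_lit 188001) (.g (nat_lit 2104) (.e (nat_lit 57928) (nat_lit 282) (.e (nat_lit 163871) (nat_lit 2) (.e (nat_lit 196670) (nat_lit 14) (.e (nat_lit 73746) (nat_lit 3) (.e (nat_lit 516126) (nat_lit 2) .nil))))) .nil)))) (.nd (nat_lit 5) (.nd (nat_lit 6) 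
(.lf (nat_lit 187921) (.g (nat_lit 1447) (.e (nat_lit 57927) (nat_lit 282) (.e (nat_lit 163903) (nat_lit 12) (.e (nat_lit 426538) (nat_lit 29) (.e (nat_lit 352313) (nat_lit 23) (.e (nat_lit 98317) (nat_lit 9) .nil))))) .nil)) 
(.lf (nat_lit 187985) (.g (nat_lit 1946) (.e (nat_lit 57928) (nat_lit 282) (.e (nat_lit 163869) (nat_lit 2) (.e (nat_lit 196666) (nat_lit 13) (.e (nat_lit 65571) (nat_lit 3) .nil)))) .nil))) (.nd (nat_lit 6) 
(.lf (nat_lit 187953) (.g (nat_lit 988) (.e (nat_lit 57927) (nat_lit 282) (.e (nat_lit 163933) (nat_lit 17) (.e (nat_lit 466981) (nat_lit 23) (.e (nat_lit 212736) (nat_lit 15) .nil)))) .nil)) 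
(.lf (nat_lit 188017) (.g (nat_lit 858) (.e (nat_lit 57928) (nat_lit 282) (.e (nat_lit 163875) (nat_lit 3) (.e (nat_lit 204865) (nat_lit 28) (.e (nat_lit 352276) (nat_lit 11) .nil)))) .nil))))) (.nd (nat_lit 4) (.nd (nat_lit 5) (.nd (nat_lit 6) 
(.lf (nat_lit 187913) (.g (nat_lit 3720) (.e (nat_lit 57927) (nat_lit 282) (.e (nat_lit 163886) (nat_lit 5) (.e (nat_lit 221212) (nat_lit 22) (.e (nat_lit 196654) (nat_lit 11) (.e (nat_lit 16459) (nat_lit 12) (.e (nat_lit 475177) (nat_lit 24) (.e (nat_lit 524032) (nat_lit 18) .nil))))))) (.g (nat_lit 6) .nil .nil))) 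
(.lf (nat_lit 187977) (.g (nat_lit 2654) (.e (nat_lit 57928) (nat_lit 282) (.e (nat_lit 163868) (nat_lit 2) (.e (nat_lit 196670) (nat_lit 14) (.e (nat_lit 73746) (nat_lit 3) (.e (nat_lit 516124) (nat_lit 2) .nil))))) .nil))) (.nd (nat_lit 6) 
(.lf (nat_lit 187945) (.g (nat_lit 964) (.e (nat_lit 57927) (nat_lit 282) (.e (nat_lit 163907) (nat_lit 12) (.e (nat_lit 426555) (nat_lit 32) (.e (nat_lit 376867) (nat_lit 23) .nil)))) .nil)) 
(.lf (nat_lit 188009) (.g (nat_lit 1247) (.e (nat_lit 57928) (nat_lit 282) (.e (nat_lit 163873) (nat_lit 3) (.e (nat_lit 204861) (nat_lit 26) (.e (nat_lit 336075) (nat_lit 9) .nil)))) .nil)))) (.nd (nat_lit 5) (.nd (nat_lit 6) 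
(.lf (nat_lit 187929) (.g (nat_lit 1992) (.e (nat_lit 57927) (nat_lit 282) (.e (nat_lit 163903) (nat_lit 12) (.e (nat_lit 426555) (nat_lit 32) (.e (nat_lit 376865) (nat_lit 22) (.e (nat_lit 90157) (nat_lit 11) .nil))))) .nil)) 
(.lf (nat_lit 187993) (.g (nat_lit 2805) (.e (nat_lit 57928) (nat_lit 282) (.e (nat_lit 163870) (nat_lit 2) (.e (nat_lit 196666) (nat_lit 13) (.e (nat_lit 65571) (nat_lit 3) (.e (nat_lit 98341) (nat_lit 20) .nil))))) .nil))) (.nd (nat_lit 6) 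
(.lf (nat_lit 187961) (.g (nat_lit 835) (.e (nat_lit 57927) (nat_lit 282) (.e (nat_lit 163943) (nat_lit 19) (.e (nat_lit 483380) (nat_lit 23) .nil))) .nil)) 
(.lf (nat_lit 188025) (.g (nat_lit 1949) (.e (nat_lit 57928) (nat_lit 282) (.e (nat_lit 163905) (nat_lit 12) (.e (nat_lit 426555) (nat_lit 32) (.e (nat_lit 376865) (nat_lit 22) .nil)))) .nil)))))) (.nd (nat_lit 3) (.nd (nat_lit 4) (.nd (nat_lit 5) (.nd (nat_lit 6) 
(.lf (nat_lit 187909) (.g (nat_lit 1544) (.e (nat_lit 57927) (nat_lit 282) (.e (nat_lit 163885) (nat_lit 5) (.e (nat_lit 221215) (nat_lit 23) (.e (nat_lit 204813) (nat_lit 9) .nil)))) .nil)) 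
(.lf (nat_lit 187973) (.g (nat_lit 2659) (.e (nat_lit 57927) (nat_lit 282) (.e (nat_lit 164084) (nat_lit 73) (.e (nat_lit 336004) (nat_lit 2) (.e (nat_lit 90185) (nat_lit 17) (.e (nat_lit 237584) (nat_lit 1) (.e (nat_lit 164327) (nat_lit 230) (.e (nat_lit 163875) (nat_lit 3) (.e (nat_lit 204829) (nat_lit 18) .nil)))))))) (.g (nat_lit 4) .nil .nil)))) (.nd (nat_lit 6) 
(.lf (nat_lit 187941) (.g (nat_lit 695) (.e (nat_lit 57927) (nat_lit 282) (.e (nat_lit 163905) (nat_lit 12) (.e (nat_lit 426556) (nat_lit 32) (.e (nat_lit 376868) (nat_lit 23) .nil)))) .nil)) 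
(.lf (nat_lit 188005) (.g (nat_lit 1150) (.e (nat_lit 57928) (nat_lit 282) (.e (nat_lit 163871) (nat_lit 2) (.e (nat_lit 196672) (nat_lit 15) (.e (nat_lit 89856) (nat_lit 11) .nil)))) .nil)))) (.nd (nat_lit 5) (.nd (nat_lit 6) 
(.lf (nat_lit 187925) (.g (nat_lit 962) (.e (nat_lit 57927) (nat_lit 282) (.e (nat_lit 163903) (nat_lit 12) (.e (nat_lit 426545) (nat_lit 30) .nil))) .nil)) 
(.lf (nat_lit 187989) (.g (nat_lit 2603) (.e (nat_lit 57928) (nat_lit 282) (.e (nat_lit 163869) (nat_lit 2) (.e (nat_lit 196670) (nat_lit 14) (.e (nat_lit 73746) (nat_lit 3) (.e (nat_lit 516126) (nat_lit 2) .nil))))) .nil))) (.nd (nat_lit 6) 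
(.lf (nat_lit 187957) (.g (nat_lit 1179) (.e (nat_lit 57927) (nat_lit 282) (.e (nat_lit 163941) (nat_lit 19) (.e (nat_lit 483405) (nat_lit 26) (.e (nat_lit 385062) (nat_lit 23) .nil)))) .nil)) 
(.lf (nat_lit 188021) (.g (nat_lit 826) (.e (nat_lit 57928) (nat_lit 282) (.e (nat_lit 163903) (nat_lit 12) (.e (nat_lit 426555) (nat_lit 32) .nil))) .nil))))) (.nd (nat_lit 4) (.nd (nat_lit 5) (.nd (nat_lit 6) 
(.lf (nat_lit 187917) (.g (nat_lit 4133) (.e (nat_lit 57927) (nat_lit 282) (.e (nat_lit 163903) (nat_lit 12) (.e (nat_lit 426472) (nat_lit 25) (.e (nat_lit 319530) (nat_lit 16) (.e (nat_lit 286735) (nat_lit 3) (.e (nat_lit 98341) (nat_lit 20) (.e (nat_lit 229120) (nat_lit 1) .nil))))))) (.g (nat_lit 6) .nil .nil))) 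
(.lf (nat_lit 187981) (.g (nat_lit 2638) (.e (nat_lit 57928) (nat_lit 282) (.e (nat_lit 163868) (nat_lit 2) (.e (nat_lit 196670) (nat_lit 14) (.e (nat_lit 73746) (nat_lit 3) (.e (nat_lit 516131) (nat_lit 3) (.e (nat_lit 221212) (nat_lit 22) (.e (nat_lit 196624) (nat_lit 9) (.e (nat_lit 1186) (nat_lit 87) .nil)))))))) (.g (nat_lit 4) .nil .nil)))) (.nd (nat_lit 6) 
(.lf (nat_lit 187949) (.g (nat_lit 1494) (.e (nat_lit 57927) (nat_lit 282) (.e (nat_lit 163907) (nat_lit 12) (.e (nat_lit 426555) (nat_lit 32) (.e (nat_lit 376869) (nat_lit 23) (.e (nat_lit 98312) (nat_lit 9) .nil))))) .nil)) 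
(.lf (nat_lit 188013) (.g (nat_lit 1474) (.e (nat_lit 57928) (nat_lit 282) (.e (nat_lit 163875) (nat_lit 3) (.e (nat_lit 204861) (nat_lit 26) (.e (nat_lit 336075) (nat_lit 9) .nil)))) .nil)))) (.nd (nat_lit 5) (.nd (nat_lit 6) 
(.lf (nat_lit 187933) (.g (nat_lit 832) (.e (nat_lit 57927) (nat_lit 282) (.e (nat_lit 163903) (nat_lit 12) (.e (nat_lit 426556) (nat_lit 32) (.e (nat_lit 376869) (nat_lit 23) .nil)))) .nil)) 
(.lf (nat_lit 187997) (.g (nat_lit 2124) (.e (nat_lit 57928) (nat_lit 282) (.e (nat_lit 163871) (nat_lit 2) (.e (nat_lit 196663) (nat_lit 13) (.e (nat_lit 65571) (nat_lit 3) (.e (nat_lit 98342) (nat_lit 20) .nil))))) .nil))) (.nd (nat_lit 6) 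
(.lf (nat_lit 187965) (.g (nat_lit 2206) (.e (nat_lit 57927) (nat_lit 282) (.e (nat_lit 163943) (nat_lit 19) (.e (nat_lit 483403) (nat_lit 26) (.e (nat_lit 385066) (nat_lit 26) .nil)))) .nil)) 
(.lf (nat_lit 188029) (.g (nat_lit 2125) (.e (nat_lit 57928) (nat_lit 282) (.e (nat_lit 163907) (nat_lit 12) (.e (nat_lit 426555) (nat_lit 32) (.e (nat_lit 376865) (nat_lit 22) (.e (nat_lit 90160) (nat_lit 11) .nil))))) .nil))))))) (.nd (nat_lit 2) (.nd (nat_lit 3) (.nd (nat_lit 4) (.nd (nat_lit 5) (.nd (nat_lit 6) 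
(.lf (nat_lit 187907) (.g (nat_lit 1337) (.e (nat_lit 57927) (nat_lit 282) (.e (nat_lit 163885) (nat_lit 5) (.e (nat_lit 221212) (nat_lit 22) (.e (nat_lit 196655) (nat_lit 11) .nil)))) .nil)) 
(.lf (nat_lit 187971) (.g (nat_lit 1601) (.e (nat_lit 57927) (nat_lit 282) (.e (nat_lit 163944) (nat_lit 19) (.e (nat_lit 483399) (nat_lit 25) (.e (nat_lit 368676) (nat_lit 21) (.e (nat_lit 516195) (nat_lit 26) .nil))))) .nil))) (.nd (nat_lit 6) 
(.lf (nat_lit 187939) (.g (nat_lit 1519) (.e (nat_lit 57927) (nat_lit 282) (.e (nat_lit 163905) (nat_lit 12) (.e (nat_lit 426546) (nat_lit 30) (.e (nat_lit 360466) (nat_lit 3) (.e (nat_lit 516198) (nat_lit 26) .nil))))) .nil)) 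
(.lf (nat_lit 188003) (.g (nat_lit 1616) (.e (nat_lit 57928) (nat_lit 282) (.e (nat_lit 163871) (nat_lit 2) (.e (nat_lit 196672) (nat_lit 15) (.e (nat_lit 81925) (nat_lit 11) (.e (nat_lit 426500) (nat_lit 27) .nil))))) .nil)))) (.nd (nat_lit 5) (.nd (nat_lit 6) 
(.lf (nat_lit 187923) (.g (nat_lit 987) (.e (nat_lit 57927) (nat_lit 282) (.e (nat_lit 163903) (nat_lit 12) (.e (nat_lit 426542) (nat_lit 29) .nil))) .nil)) 
(.lf (nat_lit 187987) (.g (nat_lit 1832) (.e (nat_lit 57928) (nat_lit 282) (.e (nat_lit 163869) (nat_lit 2) (.e (nat_lit 196670) (nat_lit 14) (.e (nat_lit 73746) (nat_lit 3) .nil)))) .nil))) (.nd (nat_lit 6) 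
(.lf (nat_lit 187955) (.g (nat_lit 1670) (.e (nat_lit 57927) (nat_lit 282) (.e (nat_lit 163941) (nat_lit 19) (.e (nat_lit 483403) (nat_lit 26) (.e (nat_lit 385066) (nat_lit 26) .nil)))) .nil)) 
(.lf (nat_lit 188019) (.g (nat_lit 959) (.e (nat_lit 57928) (nat_lit 282) (.e (nat_lit 163875) (nat_lit 3) (.e (nat_lit 204865) (nat_lit 28) (.e (nat_lit 360192) (nat_lit 18) .nil)))) .nil))))) (.nd (nat_lit 4) (.nd (nat_lit 5) (.nd (nat_lit 6) 
(.lf (nat_lit 187915) (.g (nat_lit 2789) (.e (nat_lit 57927) (nat_lit 282) (.e (nat_lit 163886) (nat_lit 5) (.e (nat_lit 221212) (nat_lit 22) (.e (nat_lit 196655) (nat_lit 11) (.e (nat_lit 16458) (nat_lit 12) (.e (nat_lit 475177) (nat_lit 24) (.e (nat_lit 524032) (nat_lit 18) .nil))))))) (.g (nat_lit 6) .nil .nil))) 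
(.lf (nat_lit 187979) (.g (nat_lit 2511) (.e (nat_lit 57928) (nat_lit 282) (.e (nat_lit 163868) (nat_lit 2) (.e (nat_lit 196670) (nat_lit 14) (.e (nat_lit 73746) (nat_lit 3) (.e (nat_lit 516129) (nat_lit 3) .nil))))) .nil))) (.nd (nat_lit 6) 
(.lf (nat_lit 187947) (.g (nat_lit 1441) (.e (nat_lit 57927) (nat_lit 282) (.e (nat_lit 163907) (nat_lit 12) (.e (nat_lit 426555) (nat_lit 32) (.e (nat_lit 376867) (nat_lit 23) (.e (nat_lit 98316) (nat_lit 9) .nil))))) .nil)) 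
(.lf (nat_lit 188011) (.g (nat_lit 1914) (.e (nat_lit 57928) (nat_lit 282) (.e (nat_lit 163874) (nat_lit 3) (.e (nat_lit 204861) (nat_lit 26) (.e (nat_lit 336075) (nat_lit 9) .nil)))) .nil)))) (.nd (nat_lit 5) (.nd (nat_lit 6) 
(.lf (nat_lit 187931) (.g (nat_lit 2081) (.e (nat_lit 57927) (nat_lit 282) (.e (nat_lit 163903) (nat_lit 12) (.e (nat_lit 426555) (nat_lit 32) (.e (nat_lit 376868) (nat_lit 23) (.e (nat_lit 98317) (nat_lit 9) .nil))))) .nil)) 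
(.lf (nat_lit 187995) (.g (nat_lit 2072) (.e (nat_lit 57928) (nat_lit 282) (.e (nat_lit 163870) (nat_lit 2) (.e (nat_lit 196666) (nat_lit 13) (.e (nat_lit 65627) (nat_lit 13) (.e (nat_lit 393225) (nat_lit 9) .nil))))) .nil))) (.nd (nat_lit 6) 
(.lf (nat_lit 187963) (.g (nat_lit 1688) (.e (nat_lit 57927) (nat_lit 282) (.e (nat_lit 163943) (nat_lit 19) (.e (nat_lit 483394) (nat_lit 24) (.e (nat_lit 344117) (nat_lit 21) (.e (nat_lit 516194) (nat_lit 26) .nil))))) .nil)) 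
(.lf (nat_lit 188027) (.g (nat_lit 2141) (.e (nat_lit 57928) (nat_lit 282) (.e (nat_lit 163907) (nat_lit 12) (.e (nat_lit 426555) (nat_lit 32) (.e (nat_lit 376862) (nat_lit 22) (.e (nat_lit 90160) (nat_lit 11) .nil))))) .nil)))))) (.nd (nat_lit 3) (.nd (nat_lit 4) (.nd (nat_lit 5) (.nd (nat_lit 6) 
(.lf (nat_lit 187911) (.g (nat_lit 3743) (.e (nat_lit 57927) (nat_lit 282) (.e (nat_lit 163886) (nat_lit 5) (.e (nat_lit 221212) (nat_lit 22) (.e (nat_lit 196654) (nat_lit 11) (.e (nat_lit 16456) (nat_lit 12) (.e (nat_lit 475177) (nat_lit 24) (.e (nat_lit 524032) (nat_lit 18) .nil))))))) (.g (nat_lit 6) .nil .nil))) 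
(.lf (nat_lit 187975) (.g (nat_lit 1994) (.e (nat_lit 57928) (nat_lit 282) (.e (nat_lit 163868) (nat_lit 2) (.e (nat_lit 196668) (nat_lit 14) (.e (nat_lit 73747) (nat_lit 3) (.e (nat_lit 516131) (nat_lit 3) .nil))))) .nil))) (.nd (nat_lit 6) 
(.lf (nat_lit 187943) (.g (nat_lit 820) (.e (nat_lit 57927) (nat_lit 282) (.e (nat_lit 163907) (nat_lit 12) (.e (nat_lit 426546) (nat_lit 30) .nil))) .nil)) 
(.lf (nat_lit 188007) (.g (nat_lit 1425) (.e (nat_lit 57928) (nat_lit 282) (.e (nat_lit 163871) (nat_lit 2) (.e (nat_lit 196674) (nat_lit 15) (.e (nat_lit 89856) (nat_lit 18) .nil)))) .nil)))) (.nd (nat_lit 5) (.nd (nat_lit 6) 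
(.lf (nat_lit 187927) (.g (nat_lit 1975) (.e (nat_lit 57927) (nat_lit 282) (.e (nat_lit 163903) (nat_lit 12) (.e (nat_lit 426546) (nat_lit 30) (.e (nat_lit 360466) (nat_lit 3) (.e (nat_lit 516198) (nat_lit 26) .nil))))) .nil)) 
(.lf (nat_lit 187991) (.g (nat_lit 2542) (.e (nat_lit 57928) (nat_lit 282) (.e (nat_lit 163869) (nat_lit 2) (.e (nat_lit 196670) (nat_lit 14) (.e (nat_lit 73746) (nat_lit 3) (.e (nat_lit 516129) (nat_lit 3) .nil))))) .nil))) (.nd (nat_lit 6) 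
(.lf (nat_lit 187959) (.g (nat_lit 1887) (.e (nat_lit 57927) (nat_lit 282) (.e (nat_lit 163943) (nat_lit 19) (.e (nat_lit 483344) (nat_lit 17) (.e (nat_lit 6714) (nat_lit 360) .nil)))) .nil)) 
(.lf (nat_lit 188023) (.g (nat_lit 2330) (.e (nat_lit 57928) (nat_lit 282) (.e (nat_lit 163903) (nat_lit 12) (.e (nat_lit 426555) (nat_lit 32) (.e (nat_lit 376865) (nat_lit 22) (.e (nat_lit 90160) (nat_lit 11) .nil))))) .nil))))) (.nd (nat_lit 4) (.nd (nat_lit 5) (.nd (nat_lit 6) 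
(.lf (nat_lit 187919) (.g (nat_lit 4349) (.e (nat_lit 57927) (nat_lit 282) (.e (nat_lit 163903) (nat_lit 12) (.e (nat_lit 426472) (nat_lit 25) (.e (nat_lit 319531) (nat_lit 16) (.e (nat_lit 286735) (nat_lit 3) (.e (nat_lit 98341) (nat_lit 20) (.e (nat_lit 229120) (nat_lit 1) .nil))))))) (.g (nat_lit 6) .nil .nil))) 
(.lf (nat_lit 187983) (.g (nat_lit 1016) (.e (nat_lit 57928) (nat_lit 282) (.e (nat_lit 163868) (nat_lit 2) (.e (nat_lit 196672) (nat_lit 15) (.e (nat_lit 81927) (nat_lit 11) (.e (nat_lit 426500) (nat_lit 27) .nil))))) .nil))) (.nd (nat_lit 6) 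
(.lf (nat_lit 187951) (.g (nat_lit 3364) (.e (nat_lit 57927) (nat_lit 282) (.e (nat_lit 163933) (nat_lit 17) (.e (nat_lit 466972) (nat_lit 21) (.e (nat_lit 164403) (nat_lit 256) (.e (nat_lit 57406) (nat_lit 12) (.e (nat_lit 336336) (nat_lit 20) (.e (nat_lit 229120) (nat_lit 1) .nil))))))) (.g (nat_lit 5) .nil .nil))) 
(.lf (nat_lit 188015) (.g (nat_lit 1335) (.e (nat_lit 57928) (nat_lit 282) (.e (nat_lit 163875) (nat_lit 3) (.e (nat_lit 204861) (nat_lit 26) (.e (nat_lit 336076) (nat_lit 9) .nil)))) .nil)))) (.nd (nat_lit 5) (.nd (nat_lit 6) 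
(.lf (nat_lit 187935) (.g (nat_lit 1569) (.e (nat_lit 57927) (nat_lit 282) (.e (nat_lit 163905) (nat_lit 12) (.e (nat_lit 426540) (nat_lit 29) (.e (nat_lit 352314) (nat_lit 23) (.e (nat_lit 98317) (nat_lit 9) .nil))))) .nil)) 
(.lf (nat_lit 187999) (.g (nat_lit 2035) (.e (nat_lit 57928) (nat_lit 282) (.e (nat_lit 163871) (nat_lit 2) (.e (nat_lit 196670) (nat_lit 14) (.e (nat_lit 73746) (nat_lit 3) (.e (nat_lit 516122) (nat_lit 2) .nil))))) .nil))) (.nd (nat_lit 6) 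
(.lf (nat_lit 187967) (.g (nat_lit 1100) (.e (nat_lit 57927) (nat_lit 282) (.e (nat_lit 163943) (nat_lit 19) (.e (nat_lit 483411) (nat_lit 27) .nil))) .nil)) 
(.lf (nat_lit 188031) (.g (nat_lit 1350) (.e (nat_lit 57929) (nat_lit 282) (.e (nat_lit 163866) (nat_lit 2) (.e (nat_lit 196672) (nat_lit 15) (.e (nat_lit 81927) (nat_lit 11) (.e (nat_lit 426500) (nat_lit 27) .nil))))) .nil)))))))))

noncomputable def tv2494 : DT := (.nd (nat_lit 0) (.nd (nat_lit 1) (.nd (nat_lit 2) (.nd (nat_lit 3) (.nd (nat_lit 4) (.nd (nat_lit 5) (.nd (nat_lit 6) 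
(.lf (nat_lit 188032) (.g (nat_lit 2016) (.e (nat_lit 57929) (nat_lit 282) (.e (nat_lit 163867) (nat_lit 2) (.e (nat_lit 196663) (nat_lit 13) (.e (nat_lit 65571) (nat_lit 3) (.e (nat_lit 98341) (nat_lit 20) .nil))))) .nil)) 
(.lf (nat_lit 188096) (.g (nat_lit 807) (.e (nat_lit 57929) (nat_lit 282) (.e (nat_lit 163913) (nat_lit 12) (.e (nat_lit 426554) (nat_lit 32) .nil))) .nil))) (.nd (nat_lit 6) 
(.lf (nat_lit 188064) (.g (nat_lit 832) (.e (nat_lit 57929) (nat_lit 282) (.e (nat_lit 163873) (nat_lit 3) (.e (nat_lit 204877) (nat_lit 31) .nil))) .nil)) 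
(.lf (nat_lit 188128) (.g (nat_lit 2227) (.e (nat_lit 57930) (nat_lit 282) (.e (nat_lit 163869) (nat_lit 2) (.e (nat_lit 196670) (nat_lit 14) (.e (nat_lit 73746) (nat_lit 3) (.e (nat_lit 516129) (nat_lit 3) .nil))))) .nil)))) (.nd (nat_lit 5) (.nd (nat_lit 6) 
(.lf (nat_lit 188048) (.g (nat_lit 2152) (.e (nat_lit 57929) (nat_lit 282) (.e (nat_lit 163869) (nat_lit 2) (.e (nat_lit 196670) (nat_lit 14) (.e (nat_lit 73746) (nat_lit 3) (.e (nat_lit 516131) (nat_lit 3) (.e (nat_lit 221212) (nat_lit 22) (.e (nat_lit 196617) (nat_lit 9) (.e (nat_lit 1182) (nat_lit 87) .nil)))))))) (.g (nat_lit 4) .nil .nil))) 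
(.lf (nat_lit 188112) (.g (nat_lit 3411) (.e (nat_lit 57930) (nat_lit 282) (.e (nat_lit 163867) (nat_lit 2) (.e (nat_lit 196670) (nat_lit 14) (.e (nat_lit 73746) (nat_lit 3) (.e (nat_lit 516131) (nat_lit 3) (.e (nat_lit 221212) (nat_lit 22) (.e (nat_lit 196625) (nat_lit 9) (.e (nat_lit 1177) (nat_lit 87) .nil)))))))) (.g (nat_lit 6) .nil .nil)))) (.nd (nat_lit 6) 
(.lf (nat_lit 188080) (.g (nat_lit 2766) (.e (nat_lit 57929) (nat_lit 282) (.e (nat_lit 163874) (nat_lit 3) (.e (nat_lit 204864) (nat_lit 27) (.e (nat_lit 344117) (nat_lit 21) (.e (nat_lit 516130) (nat_lit 3) .nil))))) .nil)) 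
(.lf (nat_lit 188144) (.g (nat_lit 513) (.e (nat_lit 57930) (nat_lit 282) (.e (nat_lit 163873) (nat_lit 3) (.e (nat_lit 212736) (nat_lit 26) .nil))) .nil))))) (.nd (nat_lit 4) (.nd (nat_lit 5) (.nd (nat_lit 6) 
(.lf (nat_lit 188040) (.g (nat_lit 1205) (.e (nat_lit 57929) (nat_lit 282) (.e (nat_lit 163869) (nat_lit 2) (.e (nat_lit 196670) (nat_lit 14) (.e (nat_lit 73746) (nat_lit 3) .nil)))) .nil)) 
(.lf (nat_lit 188104) (.g (nat_lit 517) (.e (nat_lit 57930) (nat_lit 282) (.e (nat_lit 163867) (nat_lit 2) (.e (nat_lit 196625) (nat_lit 9) .nil))) .nil))) (.nd (nat_lit 6) 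
(.lf (nat_lit 188072) (.g (nat_lit 2884) (.e (nat_lit 57929) (nat_lit 282) (.e (nat_lit 163874) (nat_lit 3) (.e (nat_lit 204859) (nat_lit 26) (.e (nat_lit 336209) (nat_lit 13) (.e (nat_lit 393225) (nat_lit 9) (.e (nat_lit 335995) (nat_lit 1) .nil)))))) (.g (nat_lit 0) .nil .nil))) 
(.lf (nat_lit 188136) (.g (nat_lit 1767) (.e (nat_lit 57930) (nat_lit 282) (.e (nat_lit 163869) (nat_lit 2) (.e (nat_lit 196681) (nat_lit 17) (.e (nat_lit 131124) (nat_lit 13) .nil)))) .nil)))) (.nd (nat_lit 5) (.nd (nat_lit 6) 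
(.lf (nat_lit 188056) (.g (nat_lit 1112) (.e (nat_lit 57929) (nat_lit 282) (.e (nat_lit 163873) (nat_lit 3) (.e (nat_lit 204859) (nat_lit 26) (.e (nat_lit 336116) (nat_lit 9) .nil)))) .nil)) 
(.lf (nat_lit 188120) (.g (nat_lit 1548) (.e (nat_lit 57930) (nat_lit 282) (.e (nat_lit 163869) (nat_lit 2) (.e (nat_lit 196665) (nat_lit 13) (.e (nat_lit 65625) (nat_lit 13) .nil)))) .nil))) (.nd (nat_lit 6) 
(.lf (nat_lit 188088) (.g (nat_lit 356) (.e (nat_lit 57929) (nat_lit 282) (.e (nat_lit 163874) (nat_lit 3) (.e (nat_lit 204877) (nat_lit 31) .nil))) .nil)) 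
(.lf (nat_lit 188152) (.g (nat_lit 602) (.e (nat_lit 57930) (nat_lit 282) (.e (nat_lit 163874) (nat_lit 3) (.e (nat_lit 204859) (nat_lit 26) .nil))) .nil)))))) (.nd (nat_lit 3) (.nd (nat_lit 4) (.nd (nat_lit 5) (.nd (nat_lit 6) 
(.lf (nat_lit 188036) (.g (nat_lit 1295) (.e (nat_lit 57929) (nat_lit 282) (.e (nat_lit 163867) (nat_lit 2) (.e (nat_lit 196674) (nat_lit 15) (.e (nat_lit 89856) (nat_lit 18) .nil)))) .nil)) 
(.lf (nat_lit 188100) (.g (nat_lit 743) (.e (nat_lit 57929) (nat_lit 282) (.e (nat_lit 163923) (nat_lit 15) (.e (nat_lit 450573) (nat_lit 1) .nil))) .nil))) (.nd (nat_lit 6) 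
(.lf (nat_lit 188068) (.g (nat_lit 1566) (.e (nat_lit 57929) (nat_lit 282) (.e (nat_lit 163874) (nat_lit 3) (.e (nat_lit 204850) (nat_lit 26) (.e (nat_lit 336224) (nat_lit 13) (.e (nat_lit 393225) (nat_lit 9) .nil))))) .nil)) 
(.lf (nat_lit 188132) (.g (nat_lit 4339) (.e (nat_lit 57930) (nat_lit 282) (.e (nat_lit 163869) (nat_lit 2) (.e (nat_lit 196670) (nat_lit 14) (.e (nat_lit 73753) (nat_lit 8) (.e (nat_lit 557105) (nat_lit 14) (.e (nat_lit 180252) (nat_lit 10) (.e (nat_lit 573451) (nat_lit 9) (.e (nat_lit 1177) (nat_lit 87) .nil)))))))) (.g (nat_lit 6) .nil .nil))))) (.nd (nat_lit 5) (.nd (nat_lit 6) 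
(.lf (nat_lit 188052) (.g (nat_lit 3302) (.e (nat_lit 57929) (nat_lit 282) (.e (nat_lit 163869) (nat_lit 2) (.e (nat_lit 196670) (nat_lit 14) (.e (nat_lit 73746) (nat_lit 3) (.e (nat_lit 516131) (nat_lit 3) (.e (nat_lit 221212) (nat_lit 22) (.e (nat_lit 196635) (nat_lit 9) (.e (nat_lit 1182) (nat_lit 87) .nil)))))))) (.g (nat_lit 6) .nil .nil))) 
(.lf (nat_lit 188116) (.g (nat_lit 2778) (.e (nat_lit 57930) (nat_lit 282) (.e (nat_lit 163867) (nat_lit 2) (.e (nat_lit 196670) (nat_lit 14) (.e (nat_lit 73755) (nat_lit 8) (.e (nat_lit 557105) (nat_lit 14) (.e (nat_lit 180252) (nat_lit 10) (.e (nat_lit 573451) (nat_lit 9) (.e (nat_lit 1174) (nat_lit 87) .nil)))))))) (.g (nat_lit 4) .nil .nil)))) (.nd (nat_lit 6) 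
(.lf (nat_lit 188084) (.g (nat_lit 637) (.e (nat_lit 57929) (nat_lit 282) (.e (nat_lit 163874) (nat_lit 3) (.e (nat_lit 204872) (nat_lit 30) .nil))) .nil)) 
(.lf (nat_lit 188148) (.g (nat_lit 725) (.e (nat_lit 57930) (nat_lit 282) (.e (nat_lit 163873) (nat_lit 3) (.e (nat_lit 204876) (nat_lit 31) .nil))) .nil))))) (.nd (nat_lit 4) (.nd (nat_lit 5) (.nd (nat_lit 6) 
(.lf (nat_lit 188044) (.g (nat_lit 2004) (.e (nat_lit 57929) (nat_lit 282) (.e (nat_lit 163869) (nat_lit 2) (.e (nat_lit 196670) (nat_lit 14) (.e (nat_lit 73746) (nat_lit 3) (.e (nat_lit 516127) (nat_lit 2) .nil))))) .nil)) 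
(.lf (nat_lit 188108) (.g (nat_lit 2490) (.e (nat_lit 57930) (nat_lit 282) (.e (nat_lit 163867) (nat_lit 2) (.e (nat_lit 196670) (nat_lit 14) (.e (nat_lit 73746) (nat_lit 3) (.e (nat_lit 516129) (nat_lit 3) (.e (nat_lit 221210) (nat_lit 22) (.e (nat_lit 196632) (nat_lit 9) (.e (nat_lit 1178) (nat_lit 87) .nil)))))))) (.g (nat_lit 4) .nil .nil)))) (.nd (nat_lit 6) 
(.lf (nat_lit 188076) (.g (nat_lit 1654) (.e (nat_lit 57929) (nat_lit 282) (.e (nat_lit 163874) (nat_lit 3) (.e (nat_lit 204861) (nat_lit 26) (.e (nat_lit 336213) (nat_lit 13) (.e (nat_lit 393225) (nat_lit 9) .nil))))) .nil)) 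
(.lf (nat_lit 188140) (.g (nat_lit 723) (.e (nat_lit 57930) (nat_lit 282) (.e (nat_lit 163873) (nat_lit 3) (.e (nat_lit 204853) (nat_lit 26) .nil))) .nil)))) (.nd (nat_lit 5) (.nd (nat_lit 6) 
(.lf (nat_lit 188060) (.g (nat_lit 2860) (.e (nat_lit 57929) (nat_lit 282) (.e (nat_lit 163873) (nat_lit 3) (.e (nat_lit 204863) (nat_lit 27) (.e (nat_lit 344117) (nat_lit 21) (.e (nat_lit 516130) (nat_lit 3) .nil))))) .nil)) 
(.lf (nat_lit 188124) (.g (nat_lit 1565) (.e (nat_lit 57930) (nat_lit 282) (.e (nat_lit 163869) (nat_lit 2) (.e (nat_lit 196666) (nat_lit 13) (.e (nat_lit 65627) (nat_lit 13) .nil)))) .nil))) (.nd (nat_lit 6) 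
(.lf (nat_lit 188092) (.g (nat_lit 837) (.e (nat_lit 57929) (nat_lit 282) (.e (nat_lit 163902) (nat_lit 12) (.e (nat_lit 426556) (nat_lit 32) .nil))) .nil)) 
(.lf (nat_lit 188156) (.g (nat_lit 2123) (.e (nat_lit 57930) (nat_lit 282) (.e (nat_lit 163874) (nat_lit 3) (.e (nat_lit 204861) (nat_lit 26) (.e (nat_lit 336215) (nat_lit 13) (.e (nat_lit 393229) (nat_lit 9) .nil))))) .nil))))))) (.nd (nat_lit 2) (.nd (nat_lit 3) (.nd (nat_lit 4) (.nd (nat_lit 5) (.nd (nat_lit 6) 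
(.lf (nat_lit 188034) (.g (nat_lit 2024) (.e (nat_lit 57929) (nat_lit 282) (.e (nat_lit 163867) (nat_lit 2) (.e (nat_lit 196670) (nat_lit 14) (.e (nat_lit 73746) (nat_lit 3) (.e (nat_lit 516129) (nat_lit 3) .nil))))) .nil)) 
(.lf (nat_lit 188098) (.g (nat_lit 2419) (.e (nat_lit 57929) (nat_lit 282) (.e (nat_lit 163920) (nat_lit 14) (.e (nat_lit 442427) (nat_lit 23) (.e (nat_lit 204809) (nat_lit 9) (.e (nat_lit 433920) (nat_lit 20) .nil))))) .nil))) (.nd (nat_lit 6) 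
(.lf (nat_lit 188066) (.g (nat_lit 1197) (.e (nat_lit 57929) (nat_lit 282) (.e (nat_lit 163874) (nat_lit 3) (.e (nat_lit 204816) (nat_lit 17) .nil))) .nil)) 
(.lf (nat_lit 188130) (.g (nat_lit 2027) (.e (nat_lit 57930) (nat_lit 282) (.e (nat_lit 163869) (nat_lit 2) (.e (nat_lit 196670) (nat_lit 14) (.e (nat_lit 73746) (nat_lit 3) (.e (nat_lit 516131) (nat_lit 3) .nil))))) .nil)))) (.nd (nat_lit 5) (.nd (nat_lit 6) 
(.lf (nat_lit 188050) (.g (nat_lit 2392) (.e (nat_lit 57929) (nat_lit 282) (.e (nat_lit 163869) (nat_lit 2) (.e (nat_lit 196670) (nat_lit 14) (.e (nat_lit 73746) (nat_lit 3) (.e (nat_lit 516131) (nat_lit 3) (.e (nat_lit 221212) (nat_lit 22) (.e (nat_lit 196632) (nat_lit 9) (.e (nat_lit 1180) (nat_lit 87) .nil)))))))) (.g (nat_lit 5) .nil .nil))) 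
(.lf (nat_lit 188114) (.g (nat_lit 4891) (.e (nat_lit 57930) (nat_lit 282) (.e (nat_lit 163867) (nat_lit 2) (.e (nat_lit 196670) (nat_lit 14) (.e (nat_lit 73754) (nat_lit 8) (.e (nat_lit 557105) (nat_lit 14) (.e (nat_lit 180252) (nat_lit 10) (.e (nat_lit 573451) (nat_lit 9) (.e (nat_lit 1177) (nat_lit 87) .nil)))))))) (.g (nat_lit 7) .nil .nil)))) (.nd (nat_lit 6) 
(.lf (nat_lit 188082) (.g (nat_lit 2767) (.e (nat_lit 57929) (nat_lit 282) (.e (nat_lit 163874) (nat_lit 3) (.e (nat_lit 204864) (nat_lit 27) (.e (nat_lit 344132) (nat_lit 26) (.e (nat_lit 557105) (nat_lit 14) (.e (nat_lit 180252) (nat_lit 10) (.e (nat_lit 573458) (nat_lit 9) (.e (nat_lit 1178) (nat_lit 87) .nil)))))))) (.g (nat_lit 4) .nil .nil))) 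
(.lf (nat_lit 188146) (.g (nat_lit 1464) (.e (nat_lit 57930) (nat_lit 282) (.e (nat_lit 163873) (nat_lit 3) (.e (nat_lit 204866) (nat_lit 28) (.e (nat_lit 360192) (nat_lit 18) .nil)))) .nil))))) (.nd (nat_lit 4) (.nd (nat_lit 5) (.nd (nat_lit 6) 
(.lf (nat_lit 188042) (.g (nat_lit 2008) (.e (nat_lit 57929) (nat_lit 282) (.e (nat_lit 163869) (nat_lit 2) (.e (nat_lit 196670) (nat_lit 14) (.e (nat_lit 73746) (nat_lit 3) (.e (nat_lit 516124) (nat_lit 2) .nil))))) .nil)) 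
(.lf (nat_lit 188106) (.g (nat_lit 2082) (.e (nat_lit 57930) (nat_lit 282) (.e (nat_lit 163867) (nat_lit 2) (.e (nat_lit 196668) (nat_lit 14) (.e (nat_lit 73747) (nat_lit 3) (.e (nat_lit 516130) (nat_lit 3) .nil))))) .nil))) (.nd (nat_lit 6) 
(.lf (nat_lit 188074) (.g (nat_lit 1147) (.e (nat_lit 57929) (nat_lit 282) (.e (nat_lit 163874) (nat_lit 3) (.e (nat_lit 204861) (nat_lit 26) (.e (nat_lit 336075) (nat_lit 9) .nil)))) .nil)) 
(.lf (nat_lit 188138) (.g (nat_lit 1454) (.e (nat_lit 57930) (nat_lit 282) (.e (nat_lit 163869) (nat_lit 2) (.e (nat_lit 196681) (nat_lit 17) (.e (nat_lit 131128) (nat_lit 13) (.e (nat_lit 393229) (nat_lit 9) .nil))))) .nil)))) (.nd (nat_lit 5) (.nd (nat_lit 6) 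
(.lf (nat_lit 188058) (.g (nat_lit 1002) (.e (nat_lit 57929) (nat_lit 282) (.e (nat_lit 163873) (nat_lit 3) (.e (nat_lit 204861) (nat_lit 26) (.e (nat_lit 336213) (nat_lit 13) .nil)))) .nil)) 
(.lf (nat_lit 188122) (.g (nat_lit 2267) (.e (nat_lit 57930) (nat_lit 282) (.e (nat_lit 163869) (nat_lit 2) (.e (nat_lit 196666) (nat_lit 13) (.e (nat_lit 65625) (nat_lit 13) .nil)))) .nil))) (.nd (nat_lit 6) 
(.lf (nat_lit 188090) (.g (nat_lit 1480) (.e (nat_lit 57929) (nat_lit 282) (.e (nat_lit 163900) (nat_lit 12) (.e (nat_lit 426555) (nat_lit 32) (.e (nat_lit 376869) (nat_lit 23) (.e (nat_lit 98313) (nat_lit 9) .nil))))) .nil)) 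
(.lf (nat_lit 188154) (.g (nat_lit 1876) (.e (nat_lit 57930) (nat_lit 282) (.e (nat_lit 163874) (nat_lit 3) (.e (nat_lit 204861) (nat_lit 26) (.e (nat_lit 336213) (nat_lit 13) (.e (nat_lit 393229) (nat_lit 9) .nil))))) .nil)))))) (.nd (nat_lit 3) (.nd (nat_lit 4) (.nd (nat_lit 5) (.nd (nat_lit 6) 
(.lf (nat_lit 188038) (.g (nat_lit 1694) (.e (nat_lit 57929) (nat_lit 282) (.e (nat_lit 163869) (nat_lit 2) (.e (nat_lit 196666) (nat_lit 13) (.e (nat_lit 65591) (nat_lit 9) .nil)))) .nil)) 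
(.lf (nat_lit 188102) (.g (nat_lit 2926) (.e (nat_lit 57929) (nat_lit 282) (.e (nat_lit 164084) (nat_lit 73) (.e (nat_lit 336027) (nat_lit 3) (.e (nat_lit 98358) (nat_lit 26) (.e (nat_lit 426112) (nat_lit 1) .nil))))) .nil))) (.nd (nat_lit 6) 
(.lf (nat_lit 188070) (.g (nat_lit 1054) (.e (nat_lit 57929) (nat_lit 282) (.e (nat_lit 163874) (nat_lit 3) (.e (nat_lit 204856) (nat_lit 26) .nil))) .nil)) 
(.lf (nat_lit 188134) (.g (nat_lit 2985) (.e (nat_lit 57930) (nat_lit 282) (.e (nat_lit 163869) (nat_lit 2) (.e (nat_lit 196670) (nat_lit 14) (.e (nat_lit 73755) (nat_lit 8) (.e (nat_lit 557105) (nat_lit 14) .nil))))) .nil)))) (.nd (nat_lit 5) (.nd (nat_lit 6) 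
(.lf (nat_lit 188054) (.g (nat_lit 1766) (.e (nat_lit 57929) (nat_lit 282) (.e (nat_lit 163869) (nat_lit 2) (.e (nat_lit 196674) (nat_lit 15) (.e (nat_lit 81925) (nat_lit 11) (.e (nat_lit 426500) (nat_lit 27) .nil))))) .nil)) 
(.lf (nat_lit 188118) (.g (nat_lit 926) (.e (nat_lit 57930) (nat_lit 282) (.e (nat_lit 163867) (nat_lit 2) (.e (nat_lit 196681) (nat_lit 17) (.e (nat_lit 131109) (nat_lit 9) .nil)))) .nil))) (.nd (nat_lit 6) 
(.lf (nat_lit 188086) (.g (nat_lit 999) (.e (nat_lit 57929) (nat_lit 282) (.e (nat_lit 163874) (nat_lit 3) (.e (nat_lit 204875) (nat_lit 31) (.e (nat_lit 384768) (nat_lit 18) .nil)))) .nil)) 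
(.lf (nat_lit 188150) (.g (nat_lit 2396) (.e (nat_lit 57930) (nat_lit 282) (.e (nat_lit 163874) (nat_lit 3) (.e (nat_lit 204854) (nat_lit 26) (.e (nat_lit 336019) (nat_lit 3) (.e (nat_lit 98342) (nat_lit 20) .nil))))) .nil))))) (.nd (nat_lit 4) (.nd (nat_lit 5) (.nd (nat_lit 6) 
(.lf (nat_lit 188046) (.g (nat_lit 2021) (.e (nat_lit 57929) (nat_lit 282) (.e (nat_lit 163869) (nat_lit 2) (.e (nat_lit 196670) (nat_lit 14) (.e (nat_lit 73746) (nat_lit 3) (.e (nat_lit 516130) (nat_lit 3) .nil))))) .nil)) 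
(.lf (nat_lit 188110) (.g (nat_lit 1945) (.e (nat_lit 57930) (nat_lit 282) (.e (nat_lit 163867) (nat_lit 2) (.e (nat_lit 196670) (nat_lit 14) (.e (nat_lit 73746) (nat_lit 3) (.e (nat_lit 516131) (nat_lit 3) .nil))))) .nil))) (.nd (nat_lit 6) 
(.lf (nat_lit 188078) (.g (nat_lit 922) (.e (nat_lit 57929) (nat_lit 282) (.e (nat_lit 163874) (nat_lit 3) (.e (nat_lit 204862) (nat_lit 27) .nil))) .nil)) 
(.lf (nat_lit 188142) (.g (nat_lit 2214) (.e (nat_lit 57930) (nat_lit 282) (.e (nat_lit 163873) (nat_lit 3) (.e (nat_lit 204861) (nat_lit 26) (.e (nat_lit 336215) (nat_lit 13) (.e (nat_lit 393229) (nat_lit 9) (.e (nat_lit 335996) (nat_lit 1) .nil)))))) (.g (nat_lit 5) .nil .nil))))) (.nd (nat_lit 5) (.nd (nat_lit 6) 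
(.lf (nat_lit 188062) (.g (nat_lit 832) (.e (nat_lit 57929) (nat_lit 282) (.e (nat_lit 163873) (nat_lit 3) (.e (nat_lit 204872) (nat_lit 30) .nil))) .nil)) 
(.lf (nat_lit 188126) (.g (nat_lit 739) (.e (nat_lit 57930) (nat_lit 282) (.e (nat_lit 163869) (nat_lit 2) (.e (nat_lit 196670) (nat_lit 14) .nil))) .nil))) (.nd (nat_lit 6) 
(.lf (nat_lit 188094) (.g (nat_lit 1601) (.e (nat_lit 57929) (nat_lit 282) (.e (nat_lit 163905) (nat_lit 12) (.e (nat_lit 426542) (nat_lit 29) (.e (nat_lit 352315) (nat_lit 23) (.e (nat_lit 98316) (nat_lit 9) .nil))))) .nil)) 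
(.lf (nat_lit 188158) (.g (nat_lit 2251) (.e (nat_lit 57930) (nat_lit 282) (.e (nat_lit 163874) (nat_lit 3) (.e (nat_lit 204863) (nat_lit 27) (.e (nat_lit 344117) (nat_lit 21) (.e (nat_lit 516130) (nat_lit 3) .nil))))) .nil)))))))) (.nd (nat_lit 1) (.nd (nat_lit 2) (.nd (nat_lit 3) (.nd (nat_lit 4) (.nd (nat_lit 5) (.nd (nat_lit 6) 
(.lf (nat_lit 188033) (.g (nat_lit 2034) (.e (nat_lit 57929) (nat_lit 282) (.e (nat_lit 163867) (nat_lit 2) (.e (nat_lit 196668) (nat_lit 14) (.e (nat_lit 73746) (nat_lit 3) (.e (nat_lit 516131) (nat_lit 3) .nil))))) .nil)) 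
(.lf (nat_lit 188097) (.g (nat_lit 2627) (.e (nat_lit 57929) (nat_lit 282) (.e (nat_lit 163920) (nat_lit 14) (.e (nat_lit 442424) (nat_lit 22) (.e (nat_lit 196653) (nat_lit 11) (.e (nat_lit 24320) (nat_lit 20) .nil))))) .nil))) (.nd (nat_lit 6) 
(.lf (nat_lit 188065) (.g (nat_lit 1127) (.e (nat_lit 57929) (nat_lit 282) (.e (nat_lit 163873) (nat_lit 3) (.e (nat_lit 204878) (nat_lit 31) (.e (nat_lit 384768) (nat_lit 18) .nil)))) .nil)) 
(.lf (nat_lit 188129) (.g (nat_lit 3124) (.e (nat_lit 57930) (nat_lit 282) (.e (nat_lit 163869) (nat_lit 2) (.e (nat_lit 196670) (nat_lit 14) (.e (nat_lit 73746) (nat_lit 3) (.e (nat_lit 516129) (nat_lit 3) (.e (nat_lit 221210) (nat_lit 22) (.e (nat_lit 196635) (nat_lit 9) (.e (nat_lit 1182) (nat_lit 87) .nil)))))))) (.g (nat_lit 5) .nil .nil))))) (.nd (nat_lit 5) (.nd (nat_lit 6) 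
(.lf (nat_lit 188049) (.g (nat_lit 2491) (.e (nat_lit 57929) (nat_lit 282) (.e (nat_lit 163869) (nat_lit 2) (.e (nat_lit 196670) (nat_lit 14) (.e (nat_lit 73746) (nat_lit 3) (.e (nat_lit 516131) (nat_lit 3) (.e (nat_lit 221212) (nat_lit 22) (.e (nat_lit 196632) (nat_lit 9) (.e (nat_lit 1178) (nat_lit 87) .nil)))))))) (.g (nat_lit 5) .nil .nil))) 
(.lf (nat_lit 188113) (.g (nat_lit 4774) (.e (nat_lit 57930) (nat_lit 282) (.e (nat_lit 163867) (nat_lit 2) (.e (nat_lit 196670) (nat_lit 14) (.e (nat_lit 73753) (nat_lit 8) (.e (nat_lit 557105) (nat_lit 14) (.e (nat_lit 180252) (nat_lit 10) (.e (nat_lit 573451) (nat_lit 9) (.e (nat_lit 1177) (nat_lit 87) .nil)))))))) (.g (nat_lit 7) .nil .nil)))) (.nd (nat_lit 6) 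
(.lf (nat_lit 188081) (.g (nat_lit 2704) (.e (nat_lit 57929) (nat_lit 282) (.e (nat_lit 163874) (nat_lit 3) (.e (nat_lit 204864) (nat_lit 27) (.e (nat_lit 344130) (nat_lit 26) (.e (nat_lit 557104) (nat_lit 14) (.e (nat_lit 180252) (nat_lit 10) (.e (nat_lit 573451) (nat_lit 9) (.e (nat_lit 1175) (nat_lit 87) .nil)))))))) (.g (nat_lit 4) .nil .nil))) 
(.lf (nat_lit 188145) (.g (nat_lit 2133) (.e (nat_lit 57930) (nat_lit 282) (.e (nat_lit 163873) (nat_lit 3) (.e (nat_lit 204862) (nat_lit 27) (.e (nat_lit 344117) (nat_lit 21) (.e (nat_lit 516130) (nat_lit 3) .nil))))) .nil))))) (.nd (nat_lit 4) (.nd (nat_lit 5) (.nd (nat_lit 6) 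
(.lf (nat_lit 188041) (.g (nat_lit 1914) (.e (nat_lit 57929) (nat_lit 282) (.e (nat_lit 163869) (nat_lit 2) (.e (nat_lit 196670) (nat_lit 14) (.e (nat_lit 73746) (nat_lit 3) (.e (nat_lit 516122) (nat_lit 2) .nil))))) .nil)) 
(.lf (nat_lit 188105) (.g (nat_lit 1592) (.e (nat_lit 57930) (nat_lit 282) (.e (nat_lit 163867) (nat_lit 2) (.e (nat_lit 196665) (nat_lit 13) (.e (nat_lit 65625) (nat_lit 13) (.e (nat_lit 393229) (nat_lit 9) .nil))))) .nil))) (.nd (nat_lit 6) 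
(.lf (nat_lit 188073) (.g (nat_lit 3009) (.e (nat_lit 57929) (nat_lit 282) (.e (nat_lit 163874) (nat_lit 3) (.e (nat_lit 204859) (nat_lit 26) (.e (nat_lit 336209) (nat_lit 13) (.e (nat_lit 393225) (nat_lit 9) (.e (nat_lit 335996) (nat_lit 1) .nil)))))) (.g (nat_lit 0) .nil .nil))) 
(.lf (nat_lit 188137) (.g (nat_lit 1458) (.e (nat_lit 57930) (nat_lit 282) (.e (nat_lit 163869) (nat_lit 2) (.e (nat_lit 196681) (nat_lit 17) (.e (nat_lit 131125) (nat_lit 13) (.e (nat_lit 393229) (nat_lit 9) .nil))))) .nil)))) (.nd (nat_lit 5) (.nd (nat_lit 6) 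
(.lf (nat_lit 188057) (.g (nat_lit 1114) (.e (nat_lit 57929) (nat_lit 282) (.e (nat_lit 163873) (nat_lit 3) (.e (nat_lit 204859) (nat_lit 26) (.e (nat_lit 336118) (nat_lit 9) .nil)))) .nil)) 
(.lf (nat_lit 188121) (.g (nat_lit 3003) (.e (nat_lit 57930) (nat_lit 282) (.e (nat_lit 163869) (nat_lit 2) (.e (nat_lit 196666) (nat_lit 13) (.e (nat_lit 65569) (nat_lit 3) (.e (nat_lit 98341) (nat_lit 20) .nil))))) .nil))) (.nd (nat_lit 6) 
(.lf (nat_lit 188089) (.g (nat_lit 1197) (.e (nat_lit 57929) (nat_lit 282) (.e (nat_lit 163874) (nat_lit 3) (.e (nat_lit 204878) (nat_lit 31) .nil))) .nil)) 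
(.lf (nat_lit 188153) (.g (nat_lit 1359) (.e (nat_lit 57930) (nat_lit 282) (.e (nat_lit 163874) (nat_lit 3) (.e (nat_lit 204861) (nat_lit 26) (.e (nat_lit 336075) (nat_lit 9) .nil)))) .nil)))))) (.nd (nat_lit 3) (.nd (nat_lit 4) (.nd (nat_lit 5) (.nd (nat_lit 6) 
(.lf (nat_lit 188037) (.g (nat_lit 1865) (.e (nat_lit 57929) (nat_lit 282) (.e (nat_lit 163869) (nat_lit 2) (.e (nat_lit 196666) (nat_lit 13) (.e (nat_lit 65569) (nat_lit 3) (.e (nat_lit 98342) (nat_lit 20) .nil))))) .nil)) 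
(.lf (nat_lit 188101) (.g (nat_lit 715) (.e (nat_lit 57929) (nat_lit 282) (.e (nat_lit 163941) (nat_lit 19) (.e (nat_lit 483394) (nat_lit 24) .nil))) .nil))) (.nd (nat_lit 6) 
(.lf (nat_lit 188069) (.g (nat_lit 1847) (.e (nat_lit 57929) (nat_lit 282) (.e (nat_lit 163874) (nat_lit 3) (.e (nat_lit 204855) (nat_lit 26) (.e (nat_lit 336217) (nat_lit 13) .nil)))) .nil)) 
(.lf (nat_lit 188133) (.g (nat_lit 2758) (.e (nat_lit 57930) (nat_lit 282) (.e (nat_lit 163869) (nat_lit 2) (.e (nat_lit 196670) (nat_lit 14) (.e (nat_lit 73753) (nat_lit 8) (.e (nat_lit 557105) (nat_lit 14) (.e (nat_lit 180252) (nat_lit 10) (.e (nat_lit 573458) (nat_lit 9) (.e (nat_lit 1178) (nat_lit 87) .nil)))))))) (.g (nat_lit 4) .nil .nil))))) (.nd (nat_lit 5) (.nd (nat_lit 6) 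
(.lf (nat_lit 188053) (.g (nat_lit 1811) (.e (nat_lit 57929) (nat_lit 282) (.e (nat_lit 163869) (nat_lit 2) (.e (nat_lit 196670) (nat_lit 14) (.e (nat_lit 73748) (nat_lit 3) .nil)))) .nil)) 
(.lf (nat_lit 188117) (.g (nat_lit 520) (.e (nat_lit 57930) (nat_lit 282) (.e (nat_lit 163867) (nat_lit 2) (.e (nat_lit 196673) (nat_lit 15) .nil))) .nil))) (.nd (nat_lit 6) 
(.lf (nat_lit 188085) (.g (nat_lit 1401) (.e (nat_lit 57929) (nat_lit 282) (.e (nat_lit 163874) (nat_lit 3) (.e (nat_lit 204872) (nat_lit 30) (.e (nat_lit 368676) (nat_lit 21) (.e (nat_lit 516131) (nat_lit 3) .nil))))) .nil)) 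
(.lf (nat_lit 188149) (.g (nat_lit 2205) (.e (nat_lit 57930) (nat_lit 282) (.e (nat_lit 163874) (nat_lit 3) (.e (nat_lit 204854) (nat_lit 26) (.e (nat_lit 336019) (nat_lit 3) (.e (nat_lit 98341) (nat_lit 20) .nil))))) .nil))))) (.nd (nat_lit 4) (.nd (nat_lit 5) (.nd (nat_lit 6) 
(.lf (nat_lit 188045) (.g (nat_lit 1916) (.e (nat_lit 57929) (nat_lit 282) (.e (nat_lit 163869) (nat_lit 2) (.e (nat_lit 196670) (nat_lit 14) (.e (nat_lit 73746) (nat_lit 3) (.e (nat_lit 516129) (nat_lit 3) .nil))))) .nil)) 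
(.lf (nat_lit 188109) (.g (nat_lit 2311) (.e (nat_lit 57930) (nat_lit 282) (.e (nat_lit 163867) (nat_lit 2) (.e (nat_lit 196670) (nat_lit 14) (.e (nat_lit 73746) (nat_lit 3) (.e (nat_lit 516129) (nat_lit 3) (.e (nat_lit 221210) (nat_lit 22) (.e (nat_lit 196632) (nat_lit 9) (.e (nat_lit 1180) (nat_lit 87) .nil)))))))) (.g (nat_lit 4) .nil .nil)))) (.nd (nat_lit 6) 
(.lf (nat_lit 188077) (.g (nat_lit 1805) (.e (nat_lit 57929) (nat_lit 282) (.e (nat_lit 163874) (nat_lit 3) (.e (nat_lit 204861) (nat_lit 26) (.e (nat_lit 336213) (nat_lit 13) (.e (nat_lit 393229) (nat_lit 9) .nil))))) .nil)) 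
(.lf (nat_lit 188141) (.g (nat_lit 725) (.e (nat_lit 57930) (nat_lit 282) (.e (nat_lit 163873) (nat_lit 3) (.e (nat_lit 204859) (nat_lit 26) .nil))) .nil)))) (.nd (nat_lit 5) (.nd (nat_lit 6) 
(.lf (nat_lit 188061) (.g (nat_lit 1591) (.e (nat_lit 57929) (nat_lit 282) (.e (nat_lit 163873) (nat_lit 3) (.e (nat_lit 204866) (nat_lit 28) (.e (nat_lit 360192) (nat_lit 18) .nil)))) .nil)) 
(.lf (nat_lit 188125) (.g (nat_lit 2393) (.e (nat_lit 57930) (nat_lit 282) (.e (nat_lit 163869) (nat_lit 2) (.e (nat_lit 196668) (nat_lit 14) (.e (nat_lit 73747) (nat_lit 3) (.e (nat_lit 516130) (nat_lit 3) .nil))))) .nil))) (.nd (nat_lit 6) 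
(.lf (nat_lit 188093) (.g (nat_lit 1762) (.e (nat_lit 57929) (nat_lit 282) (.e (nat_lit 163905) (nat_lit 12) (.e (nat_lit 426538) (nat_lit 29) (.e (nat_lit 352315) (nat_lit 23) (.e (nat_lit 98313) (nat_lit 9) .nil))))) .nil)) 
(.lf (nat_lit 188157) (.g (nat_lit 1404) (.e (nat_lit 57930) (nat_lit 282) (.e (nat_lit 163874) (nat_lit 3) (.e (nat_lit 204862) (nat_lit 27) (.e (nat_lit 344117) (nat_lit 21) .nil)))) .nil))))))) (.nd (nat_lit 2) (.nd (nat_lit 3) (.nd (nat_lit 4) (.nd (nat_lit 5) (.nd (nat_lit 6) 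
(.lf (nat_lit 188035) (.g (nat_lit 2062) (.e (nat_lit 57929) (nat_lit 282) (.e (nat_lit 163867) (nat_lit 2) (.e (nat_lit 196670) (nat_lit 14) (.e (nat_lit 73746) (nat_lit 3) (.e (nat_lit 516131) (nat_lit 3) .nil))))) .nil)) 
(.lf (nat_lit 188099) (.g (nat_lit 1406) (.e (nat_lit 57929) (nat_lit 282) (.e (nat_lit 163920) (nat_lit 14) (.e (nat_lit 442433) (nat_lit 25) (.e (nat_lit 245788) (nat_lit 11) .nil)))) .nil))) (.nd (nat_lit 6) 
(.lf (nat_lit 188067) (.g (nat_lit 941) (.e (nat_lit 57929) (nat_lit 282) (.e (nat_lit 163874) (nat_lit 3) (.e (nat_lit 204850) (nat_lit 26) .nil))) .nil)) 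
(.lf (nat_lit 188131) (.g (nat_lit 3112) (.e (nat_lit 57930) (nat_lit 282) (.e (nat_lit 163869) (nat_lit 2) (.e (nat_lit 196670) (nat_lit 14) (.e (nat_lit 73746) (nat_lit 3) (.e (nat_lit 516131) (nat_lit 3) (.e (nat_lit 221212) (nat_lit 22) (.e (nat_lit 196625) (nat_lit 9) (.e (nat_lit 1177) (nat_lit 87) .nil)))))))) (.g (nat_lit 6) .nil .nil))))) (.nd (nat_lit 5) (.nd (nat_lit 6) 
(.lf (nat_lit 188051) (.g (nat_lit 3633) (.e (nat_lit 57929) (nat_lit 282) (.e (nat_lit 163869) (nat_lit 2) (.e (nat_lit 196670) (nat_lit 14) (.e (nat_lit 73746) (nat_lit 3) (.e (nat_lit 516131) (nat_lit 3) (.e (nat_lit 221212) (nat_lit 22) (.e (nat_lit 196635) (nat_lit 9) (.e (nat_lit 1181) (nat_lit 87) .nil)))))))) (.g (nat_lit 6) .nil .nil))) 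
(.lf (nat_lit 188115) (.g (nat_lit 3824) (.e (nat_lit 57930) (nat_lit 282) (.e (nat_lit 163867) (nat_lit 2) (.e (nat_lit 196670) (nat_lit 14) (.e (nat_lit 73754) (nat_lit 8) (.e (nat_lit 557105) (nat_lit 14) (.e (nat_lit 180252) (nat_lit 10) (.e (nat_lit 573458) (nat_lit 9) (.e (nat_lit 1178) (nat_lit 87) .nil)))))))) (.g (nat_lit 6) .nil .nil)))) (.nd (nat_lit 6) 
(.lf (nat_lit 188083) (.g (nat_lit 1203) (.e (nat_lit 57929) (nat_lit 282) (.e (nat_lit 163874) (nat_lit 3) (.e (nat_lit 204867) (nat_lit 28) .nil))) .nil)) 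
(.lf (nat_lit 188147) (.g (nat_lit 1508) (.e (nat_lit 57930) (nat_lit 282) (.e (nat_lit 163873) (nat_lit 3) (.e (nat_lit 204872) (nat_lit 30) (.e (nat_lit 368676) (nat_lit 21) (.e (nat_lit 516131) (nat_lit 3) .nil))))) .nil))))) (.nd (nat_lit 4) (.nd (nat_lit 5) (.nd (nat_lit 6) 
(.lf (nat_lit 188043) (.g (nat_lit 1976) (.e (nat_lit 57929) (nat_lit 282) (.e (nat_lit 163869) (nat_lit 2) (.e (nat_lit 196670) (nat_lit 14) (.e (nat_lit 73746) (nat_lit 3) (.e (nat_lit 516126) (nat_lit 2) .nil))))) .nil)) 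
(.lf (nat_lit 188107) (.g (nat_lit 2094) (.e (nat_lit 57930) (nat_lit 282) (.e (nat_lit 163867) (nat_lit 2) (.e (nat_lit 196670) (nat_lit 14) (.e (nat_lit 73746) (nat_lit 3) (.e (nat_lit 516124) (nat_lit 2) .nil))))) .nil))) (.nd (nat_lit 6) 
(.lf (nat_lit 188075) (.g (nat_lit 2442) (.e (nat_lit 57929) (nat_lit 282) (.e (nat_lit 163874) (nat_lit 3) (.e (nat_lit 204861) (nat_lit 26) (.e (nat_lit 336078) (nat_lit 9) (.e (nat_lit 336454) (nat_lit 34) .nil))))) .nil)) 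
(.lf (nat_lit 188139) (.g (nat_lit 723) (.e (nat_lit 57930) (nat_lit 282) (.e (nat_lit 163873) (nat_lit 3) (.e (nat_lit 204851) (nat_lit 26) .nil))) .nil)))) (.nd (nat_lit 5) (.nd (nat_lit 6) 
(.lf (nat_lit 188059) (.g (nat_lit 2260) (.e (nat_lit 57929) (nat_lit 282) (.e (nat_lit 163873) (nat_lit 3) (.e (nat_lit 204862) (nat_lit 27) (.e (nat_lit 344117) (nat_lit 21) (.e (nat_lit 516130) (nat_lit 3) .nil))))) .nil)) 
(.lf (nat_lit 188123) (.g (nat_lit 2839) (.e (nat_lit 57930) (nat_lit 282) (.e (nat_lit 163869) (nat_lit 2) (.e (nat_lit 196666) (nat_lit 13) (.e (nat_lit 65626) (nat_lit 13) .nil)))) .nil))) (.nd (nat_lit 6) 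
(.lf (nat_lit 188091) (.g (nat_lit 1179) (.e (nat_lit 57929) (nat_lit 282) (.e (nat_lit 163902) (nat_lit 12) (.e (nat_lit 426538) (nat_lit 29) (.e (nat_lit 352315) (nat_lit 23) .nil)))) .nil)) 
(.lf (nat_lit 188155) (.g (nat_lit 1579) (.e (nat_lit 57930) (nat_lit 282) (.e (nat_lit 163874) (nat_lit 3) (.e (nat_lit 204861) (nat_lit 26) (.e (nat_lit 336214) (nat_lit 13) .nil)))) .nil)))))) (.nd (nat_lit 3) (.nd (nat_lit 4) (.nd (nat_lit 5) (.nd (nat_lit 6) 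
(.lf (nat_lit 188039) (.g (nat_lit 2422) (.e (nat_lit 57929) (nat_lit 282) (.e (nat_lit 163869) (nat_lit 2) (.e (nat_lit 196666) (nat_lit 13) (.e (nat_lit 65626) (nat_lit 13) (.e (nat_lit 393225) (nat_lit 9) .nil))))) .nil)) 
(.lf (nat_lit 188103) (.g (nat_lit 798) (.e (nat_lit 57930) (nat_lit 282) (.e (nat_lit 163867) (nat_lit 2) (.e (nat_lit 196617) (nat_lit 9) (.e (nat_lit 1559) (nat_lit 110) .nil)))) .nil))) (.nd (nat_lit 6) 
(.lf (nat_lit 188071) (.g (nat_lit 991) (.e (nat_lit 57929) (nat_lit 282) (.e (nat_lit 163874) (nat_lit 3) (.e (nat_lit 204859) (nat_lit 26) (.e (nat_lit 336113) (nat_lit 9) .nil)))) .nil)) 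
(.lf (nat_lit 188135) (.g (nat_lit 873) (.e (nat_lit 57930) (nat_lit 282) (.e (nat_lit 163869) (nat_lit 2) (.e (nat_lit 196673) (nat_lit 15) .nil))) .nil)))) (.nd (nat_lit 5) (.nd (nat_lit 6) 
(.lf (nat_lit 188055) (.g (nat_lit 3244) (.e (nat_lit 57929) (nat_lit 282) (.e (nat_lit 163873) (nat_lit 3) (.e (nat_lit 204854) (nat_lit 26) (.e (nat_lit 336019) (nat_lit 3) (.e (nat_lit 98342) (nat_lit 20) .nil))))) .nil)) 
(.lf (nat_lit 188119) (.g (nat_lit 918) (.e (nat_lit 57930) (nat_lit 282) (.e (nat_lit 163869) (nat_lit 2) (.e (nat_lit 196663) (nat_lit 13) .nil))) .nil))) (.nd (nat_lit 6) 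
(.lf (nat_lit 188087) (.g (nat_lit 357) (.e (nat_lit 57929) (nat_lit 282) (.e (nat_lit 163874) (nat_lit 3) (.e (nat_lit 204876) (nat_lit 31) .nil))) .nil)) 
(.lf (nat_lit 188151) (.g (nat_lit 2432) (.e (nat_lit 57930) (nat_lit 282) (.e (nat_lit 163874) (nat_lit 3) (.e (nat_lit 204854) (nat_lit 26) (.e (nat_lit 336211) (nat_lit 13) (.e (nat_lit 393225) (nat_lit 9) .nil))))) .nil))))) (.nd (nat_lit 4) (.nd (nat_lit 5) (.nd (nat_lit 6) 
(.lf (nat_lit 188047) (.g (nat_lit 1716) (.e (nat_lit 57929) (nat_lit 282) (.e (nat_lit 163869) (nat_lit 2) (.e (nat_lit 196670) (nat_lit 14) (.e (nat_lit 73746) (nat_lit 3) (.e (nat_lit 516131) (nat_lit 3) .nil))))) .nil)) 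
(.lf (nat_lit 188111) (.g (nat_lit 2806) (.e (nat_lit 57930) (nat_lit 282) (.e (nat_lit 163867) (nat_lit 2) (.e (nat_lit 196670) (nat_lit 14) (.e (nat_lit 73746) (nat_lit 3) (.e (nat_lit 516131) (nat_lit 3) (.e (nat_lit 221212) (nat_lit 22) (.e (nat_lit 196625) (nat_lit 9) (.e (nat_lit 1174) (nat_lit 87) .nil)))))))) (.g (nat_lit 5) .nil .nil)))) (.nd (nat_lit 6) 
(.lf (nat_lit 188079) (.g (nat_lit 3490) (.e (nat_lit 57929) (nat_lit 282) (.e (nat_lit 163874) (nat_lit 3) (.e (nat_lit 204862) (nat_lit 27) (.e (nat_lit 344117) (nat_lit 21) (.e (nat_lit 516099) (nat_lit 0) .nil))))) .nil)) 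
(.lf (nat_lit 188143) (.g (nat_lit 1310) (.e (nat_lit 57930) (nat_lit 282) (.e (nat_lit 163873) (nat_lit 3) (.e (nat_lit 204861) (nat_lit 26) (.e (nat_lit 336222) (nat_lit 13) (.e (nat_lit 393229) (nat_lit 9) .nil))))) .nil)))) (.nd (nat_lit 5) (.nd (nat_lit 6) 
(.lf (nat_lit 188063) (.g (nat_lit 781) (.e (nat_lit 57929) (nat_lit 282) (.e (nat_lit 163873) (nat_lit 3) (.e (nat_lit 204876) (nat_lit 31) .nil))) .nil)) 
(.lf (nat_lit 188127) (.g (nat_lit 2319) (.e (nat_lit 57930) (nat_lit 282) (.e (nat_lit 163869) (nat_lit 2) (.e (nat_lit 196670) (nat_lit 14) (.e (nat_lit 73746) (nat_lit 3) (.e (nat_lit 516124) (nat_lit 2) .nil))))) .nil))) (.nd (nat_lit 6) 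
(.lf (nat_lit 188095) (.g (nat_lit 529) (.e (nat_lit 57929) (nat_lit 282) (.e (nat_lit 163905) (nat_lit 12) (.e (nat_lit 426556) (nat_lit 32) .nil))) .nil)) 
(.lf (nat_lit 188159) (.g (nat_lit 932) (.e (nat_lit 57930) (nat_lit 282) (.e (nat_lit 163874) (nat_lit 3) (.e (nat_lit 204865) (nat_lit 28) (.e (nat_lit 360192) (nat_lit 18) .nil)))) .nil)))))))))

noncomputable def tv2495 : DT := (.nd (nat_lit 0) (.nd (nat_lit 1) (.nd (nat_lit 2) (.nd (nat_lit 3) (.nd (nat_lit 4) (.nd (nat_lit 5) (.nd (nat_lit 6) 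
(.lf (nat_lit 188160) (.g (nat_lit 1181) (.e (nat_lit 57930) (nat_lit 282) (.e (nat_lit 163874) (nat_lit 3) (.e (nat_lit 204866) (nat_lit 28) (.e (nat_lit 360192) (nat_lit 18) .nil)))) .nil)) 
(.lf (nat_lit 188224) (.g (nat_lit 2036) (.e (nat_lit 57931) (nat_lit 282) (.e (nat_lit 163867) (nat_lit 2) (.e (nat_lit 196670) (nat_lit 14) (.e (nat_lit 73748) (nat_lit 3) (.e (nat_lit 516131) (nat_lit 3) .nil))))) .nil))) (.nd (nat_lit 6) 
(.lf (nat_lit 188192) (.g (nat_lit 2986) (.e (nat_lit 57930) (nat_lit 282) (.e (nat_lit 163923) (nat_lit 15) (.e (nat_lit 450588) (nat_lit 10) (.e (nat_lit 573475) (nat_lit 12) (.e (nat_lit 57360) (nat_lit 0) .nil))))) .nil)) 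
(.lf (nat_lit 188256) (.g (nat_lit 4757) (.e (nat_lit 57931) (nat_lit 282) (.e (nat_lit 163869) (nat_lit 2) (.e (nat_lit 196670) (nat_lit 14) (.e (nat_lit 73753) (nat_lit 8) (.e (nat_lit 557105) (nat_lit 14) (.e (nat_lit 180252) (nat_lit 10) (.e (nat_lit 573451) (nat_lit 9) (.e (nat_lit 1177) (nat_lit 87) .nil)))))))) (.g (nat_lit 7) .nil .nil))))) (.nd (nat_lit 5) (.nd (nat_lit 6) 
(.lf (nat_lit 188176) (.g (nat_lit 2377) (.e (nat_lit 57930) (nat_lit 282) (.e (nat_lit 163920) (nat_lit 14) (.e (nat_lit 442424) (nat_lit 22) (.e (nat_lit 196652) (nat_lit 11) (.e (nat_lit 24320) (nat_lit 20) .nil))))) .nil)) 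
(.lf (nat_lit 188240) (.g (nat_lit 574) (.e (nat_lit 57931) (nat_lit 282) (.e (nat_lit 163869) (nat_lit 2) (.e (nat_lit 196665) (nat_lit 13) .nil))) .nil))) (.nd (nat_lit 6) 
(.lf (nat_lit 188208) (.g (nat_lit 1590) (.e (nat_lit 57931) (nat_lit 282) (.e (nat_lit 163867) (nat_lit 2) (.e (nat_lit 196662) (nat_lit 13) (.e (nat_lit 65625) (nat_lit 13) (.e (nat_lit 393229) (nat_lit 9) .nil))))) .nil)) 
(.lf (nat_lit 188272) (.g (nat_lit 746) (.e (nat_lit 57931) (nat_lit 282) (.e (nat_lit 163873) (nat_lit 3) (.e (nat_lit 204853) (nat_lit 26) .nil))) .nil))))) (.nd (nat_lit 4) (.nd (nat_lit 5) (.nd (nat_lit 6) 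
(.lf (nat_lit 188168) (.g (nat_lit 2230) (.e (nat_lit 57930) (nat_lit 282) (.e (nat_lit 163902) (nat_lit 12) (.e (nat_lit 426544) (nat_lit 30) (.e (nat_lit 360467) (nat_lit 3) (.e (nat_lit 516199) (nat_lit 26) .nil))))) .nil)) 
(.lf (nat_lit 188232) (.g (nat_lit 3355) (.e (nat_lit 57931) (nat_lit 282) (.e (nat_lit 163867) (nat_lit 2) (.e (nat_lit 196670) (nat_lit 14) (.e (nat_lit 73755) (nat_lit 8) (.e (nat_lit 557105) (nat_lit 14) (.e (nat_lit 180252) (nat_lit 10) (.e (nat_lit 573451) (nat_lit 9) (.e (nat_lit 1177) (nat_lit 87) .nil)))))))) (.g (nat_lit 4) .nil .nil)))) (.nd (nat_lit 6) 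
(.lf (nat_lit 188200) (.g (nat_lit 2444) (.e (nat_lit 57931) (nat_lit 282) (.e (nat_lit 163866) (nat_lit 2) (.e (nat_lit 196670) (nat_lit 14) (.e (nat_lit 73746) (nat_lit 3) (.e (nat_lit 516131) (nat_lit 3) (.e (nat_lit 221212) (nat_lit 22) (.e (nat_lit 196635) (nat_lit 9) (.e (nat_lit 1182) (nat_lit 87) .nil)))))))) (.g (nat_lit 4) .nil .nil))) 
(.lf (nat_lit 188264) (.g (nat_lit 3554) (.e (nat_lit 57931) (nat_lit 282) (.e (nat_lit 163869) (nat_lit 2) (.e (nat_lit 196670) (nat_lit 14) (.e (nat_lit 73755) (nat_lit 8) (.e (nat_lit 557105) (nat_lit 14) (.e (nat_lit 180252) (nat_lit 10) (.e (nat_lit 573451) (nat_lit 9) (.e (nat_lit 1169) (nat_lit 87) .nil)))))))) (.g (nat_lit 4) .nil .nil))))) (.nd (nat_lit 5) (.nd (nat_lit 6) 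
(.lf (nat_lit 188184) (.g (nat_lit 1496) (.e (nat_lit 57930) (nat_lit 282) (.e (nat_lit 163923) (nat_lit 15) (.e (nat_lit 450587) (nat_lit 10) (.e (nat_lit 573454) (nat_lit 9) .nil)))) .nil)) 
(.lf (nat_lit 188248) (.g (nat_lit 3468) (.e (nat_lit 57931) (nat_lit 282) (.e (nat_lit 163869) (nat_lit 2) (.e (nat_lit 196670) (nat_lit 14) (.e (nat_lit 73746) (nat_lit 3) (.e (nat_lit 516129) (nat_lit 3) (.e (nat_lit 221210) (nat_lit 22) (.e (nat_lit 196635) (nat_lit 9) (.e (nat_lit 1182) (nat_lit 87) .nil)))))))) (.g (nat_lit 5) .nil .nil)))) (.nd (nat_lit 6) 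
(.lf (nat_lit 188216) (.g (nat_lit 2746) (.e (nat_lit 57931) (nat_lit 282) (.e (nat_lit 163867) (nat_lit 2) (.e (nat_lit 196670) (nat_lit 14) (.e (nat_lit 73746) (nat_lit 3) (.e (nat_lit 516129) (nat_lit 3) (.e (nat_lit 221210) (nat_lit 22) (.e (nat_lit 196617) (nat_lit 9) (.e (nat_lit 1182) (nat_lit 87) .nil)))))))) (.g (nat_lit 4) .nil .nil))) 
(.lf (nat_lit 188280) (.g (nat_lit 1537) (.e (nat_lit 57931) (nat_lit 282) (.e (nat_lit 163873) (nat_lit 3) (.e (nat_lit 204862) (nat_lit 27) (.e (nat_lit 344117) (nat_lit 21) .nil)))) .nil)))))) (.nd (nat_lit 3) (.nd (nat_lit 4) (.nd (nat_lit 5) (.nd (nat_lit 6) 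
(.lf (nat_lit 188164) (.g (nat_lit 2326) (.e (nat_lit 57930) (nat_lit 282) (.e (nat_lit 163896) (nat_lit 10) (.e (nat_lit 409648) (nat_lit 18) (.e (nat_lit 303133) (nat_lit 9) (.e (nat_lit 433920) (nat_lit 32) .nil))))) .nil)) 
(.lf (nat_lit 188228) (.g (nat_lit 4223) (.e (nat_lit 57931) (nat_lit 282) (.e (nat_lit 163867) (nat_lit 2) (.e (nat_lit 196670) (nat_lit 14) (.e (nat_lit 73754) (nat_lit 8) (.e (nat_lit 557105) (nat_lit 14) (.e (nat_lit 180252) (nat_lit 10) (.e (nat_lit 573451) (nat_lit 9) (.e (nat_lit 1169) (nat_lit 87) .nil)))))))) (.g (nat_lit 6) .nil .nil)))) (.nd (nat_lit 6) 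
(.lf (nat_lit 188196) (.g (nat_lit 3228) (.e (nat_lit 57930) (nat_lit 282) (.e (nat_lit 164077) (nat_lit 61) (.e (nat_lit 1800) (nat_lit 119) (.e (nat_lit 516176) (nat_lit 14) (.e (nat_lit 466977) (nat_lit 22) (.e (nat_lit 196681) (nat_lit 17) (.e (nat_lit 131089) (nat_lit 1) .nil))))))) (.g (nat_lit 6) .nil .nil))) 
(.lf (nat_lit 188260) (.g (nat_lit 5097) (.e (nat_lit 57931) (nat_lit 282) (.e (nat_lit 163869) (nat_lit 2) (.e (nat_lit 196670) (nat_lit 14) (.e (nat_lit 73754) (nat_lit 8) (.e (nat_lit 557105) (nat_lit 14) (.e (nat_lit 180252) (nat_lit 10) (.e (nat_lit 573451) (nat_lit 9) (.e (nat_lit 1174) (nat_lit 87) .nil)))))))) (.g (nat_lit 6) .nil .nil))))) (.nd (nat_lit 5) (.nd (nat_lit 6) 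
(.lf (nat_lit 188180) (.g (nat_lit 783) (.e (nat_lit 57930) (nat_lit 282) (.e (nat_lit 163923) (nat_lit 15) (.e (nat_lit 450570) (nat_lit 1) .nil))) .nil)) 
(.lf (nat_lit 188244) (.g (nat_lit 4600) (.e (nat_lit 57931) (nat_lit 282) (.e (nat_lit 163869) (nat_lit 2) (.e (nat_lit 196669) (nat_lit 14) (.e (nat_lit 73755) (nat_lit 8) (.e (nat_lit 557105) (nat_lit 14) (.e (nat_lit 180252) (nat_lit 10) (.e (nat_lit 573451) (nat_lit 9) (.e (nat_lit 1174) (nat_lit 87) .nil)))))))) (.g (nat_lit 6) .nil .nil)))) (.nd (nat_lit 6) 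
(.lf (nat_lit 188212) (.g (nat_lit 2038) (.e (nat_lit 57931) (nat_lit 282) (.e (nat_lit 163867) (nat_lit 2) (.e (nat_lit 196668) (nat_lit 14) (.e (nat_lit 73747) (nat_lit 3) (.e (nat_lit 516130) (nat_lit 3) .nil))))) .nil)) 
(.lf (nat_lit 188276) (.g (nat_lit 597) (.e (nat_lit 57931) (nat_lit 282) (.e (nat_lit 163873) (nat_lit 3) (.e (nat_lit 204859) (nat_lit 26) .nil))) .nil))))) (.nd (nat_lit 4) (.nd (nat_lit 5) (.nd (nat_lit 6) 
(.lf (nat_lit 188172) (.g (nat_lit 1861) (.e (nat_lit 57930) (nat_lit 282) (.e (nat_lit 163905) (nat_lit 12) (.e (nat_lit 426555) (nat_lit 32) (.e (nat_lit 376862) (nat_lit 22) (.e (nat_lit 90158) (nat_lit 11) .nil))))) .nil)) 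
(.lf (nat_lit 188236) (.g (nat_lit 497) (.e (nat_lit 57931) (nat_lit 282) (.e (nat_lit 163869) (nat_lit 2) (.e (nat_lit 196630) (nat_lit 9) .nil))) .nil))) (.nd (nat_lit 6) 
(.lf (nat_lit 188204) (.g (nat_lit 886) (.e (nat_lit 57931) (nat_lit 282) (.e (nat_lit 163867) (nat_lit 2) (.e (nat_lit 196624) (nat_lit 9) (.e (nat_lit 1577) (nat_lit 110) .nil)))) .nil)) 
(.lf (nat_lit 188268) (.g (nat_lit 887) (.e (nat_lit 57931) (nat_lit 282) (.e (nat_lit 163873) (nat_lit 3) (.e (nat_lit 204850) (nat_lit 26) .nil))) .nil)))) (.nd (nat_lit 5) (.nd (nat_lit 6) 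
(.lf (nat_lit 188188) (.g (nat_lit 3148) (.e (nat_lit 57930) (nat_lit 282) (.e (nat_lit 163923) (nat_lit 15) (.e (nat_lit 450588) (nat_lit 10) (.e (nat_lit 573451) (nat_lit 9) (.e (nat_lit 1286) (nat_lit 95) .nil))))) .nil)) 
(.lf (nat_lit 188252) (.g (nat_lit 3898) (.e (nat_lit 57931) (nat_lit 282) (.e (nat_lit 163869) (nat_lit 2) (.e (nat_lit 196670) (nat_lit 14) (.e (nat_lit 73746) (nat_lit 3) (.e (nat_lit 516131) (nat_lit 3) (.e (nat_lit 221212) (nat_lit 22) (.e (nat_lit 196632) (nat_lit 9) (.e (nat_lit 1180) (nat_lit 87) .nil)))))))) (.g (nat_lit 7) .nil .nil)))) (.nd (nat_lit 6) 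
(.lf (nat_lit 188220) (.g (nat_lit 2439) (.e (nat_lit 57931) (nat_lit 282) (.e (nat_lit 163867) (nat_lit 2) (.e (nat_lit 196670) (nat_lit 14) (.e (nat_lit 73746) (nat_lit 3) (.e (nat_lit 516131) (nat_lit 3) (.e (nat_lit 221212) (nat_lit 22) (.e (nat_lit 196632) (nat_lit 9) (.e (nat_lit 1170) (nat_lit 87) .nil)))))))) (.g (nat_lit 4) .nil .nil))) 
(.lf (nat_lit 188284) (.g (nat_lit 887) (.e (nat_lit 57931) (nat_lit 282) (.e (nat_lit 163873) (nat_lit 3) (.e (nat_lit 204864) (nat_lit 27) .nil))) .nil))))))) (.nd (nat_lit 2) (.nd (nat_lit 3) (.nd (nat_lit 4) (.nd (nat_lit 5) (.nd (nat_lit 6) 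
(.lf (nat_lit 188162) (.g (nat_lit 1600) (.e (nat_lit 57930) (nat_lit 282) (.e (nat_lit 163896) (nat_lit 10) (.e (nat_lit 409616) (nat_lit 10) (.e (nat_lit 5792) (nat_lit 319) .nil)))) .nil)) 
(.lf (nat_lit 188226) (.g (nat_lit 4652) (.e (nat_lit 57931) (nat_lit 282) (.e (nat_lit 163867) (nat_lit 2) (.e (nat_lit 196670) (nat_lit 14) (.e (nat_lit 73753) (nat_lit 8) (.e (nat_lit 557105) (nat_lit 14) (.e (nat_lit 180252) (nat_lit 10) (.e (nat_lit 573451) (nat_lit 9) (.e (nat_lit 1177) (nat_lit 87) .nil)))))))) (.g (nat_lit 6) .nil .nil)))) (.nd (nat_lit 6) 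
(.lf (nat_lit 188194) (.g (nat_lit 1313) (.e (nat_lit 57930) (nat_lit 282) (.e (nat_lit 163931) (nat_lit 17) (.e (nat_lit 466975) (nat_lit 22) (.e (nat_lit 196654) (nat_lit 11) (.e (nat_lit 24320) (nat_lit 20) .nil))))) .nil)) 
(.lf (nat_lit 188258) (.g (nat_lit 2536) (.e (nat_lit 57931) (nat_lit 282) (.e (nat_lit 163869) (nat_lit 2) (.e (nat_lit 196670) (nat_lit 14) (.e (nat_lit 73753) (nat_lit 8) (.e (nat_lit 557105) (nat_lit 14) (.e (nat_lit 180252) (nat_lit 10) (.e (nat_lit 573458) (nat_lit 9) (.e (nat_lit 1180) (nat_lit 87) .nil)))))))) (.g (nat_lit 4) .nil .nil))))) (.nd (nat_lit 5) (.nd (nat_lit 6) 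
(.lf (nat_lit 188178) (.g (nat_lit 2772) (.e (nat_lit 57930) (nat_lit 282) (.e (nat_lit 163920) (nat_lit 14) (.e (nat_lit 442424) (nat_lit 22) (.e (nat_lit 196655) (nat_lit 11) (.e (nat_lit 24320) (nat_lit 20) .nil))))) .nil)) 
(.lf (nat_lit 188242) (.g (nat_lit 1847) (.e (nat_lit 57931) (nat_lit 282) (.e (nat_lit 163869) (nat_lit 2) (.e (nat_lit 196666) (nat_lit 13) (.e (nat_lit 65627) (nat_lit 13) (.e (nat_lit 393229) (nat_lit 9) .nil))))) .nil))) (.nd (nat_lit 6) 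
(.lf (nat_lit 188210) (.g (nat_lit 2192) (.e (nat_lit 57931) (nat_lit 282) (.e (nat_lit 163867) (nat_lit 2) (.e (nat_lit 196666) (nat_lit 13) (.e (nat_lit 65625) (nat_lit 13) .nil)))) .nil)) 
(.lf (nat_lit 188274) (.g (nat_lit 3174) (.e (nat_lit 57931) (nat_lit 282) (.e (nat_lit 163873) (nat_lit 3) (.e (nat_lit 204854) (nat_lit 26) (.e (nat_lit 336019) (nat_lit 3) (.e (nat_lit 98342) (nat_lit 20) .nil))))) .nil))))) (.nd (nat_lit 4) (.nd (nat_lit 5) (.nd (nat_lit 6) 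
(.lf (nat_lit 188170) (.g (nat_lit 1857) (.e (nat_lit 57930) (nat_lit 282) (.e (nat_lit 163902) (nat_lit 12) (.e (nat_lit 426555) (nat_lit 32) (.e (nat_lit 376862) (nat_lit 22) (.e (nat_lit 90160) (nat_lit 11) .nil))))) .nil)) 
(.lf (nat_lit 188234) (.g (nat_lit 669) (.e (nat_lit 57931) (nat_lit 282) (.e (nat_lit 163869) (nat_lit 2) (.e (nat_lit 196626) (nat_lit 9) .nil))) .nil))) (.nd (nat_lit 6) 
(.lf (nat_lit 188202) (.g (nat_lit 995) (.e (nat_lit 57931) (nat_lit 282) (.e (nat_lit 163867) (nat_lit 2) (.e (nat_lit 196624) (nat_lit 9) (.e (nat_lit 1511) (nat_lit 108) .nil)))) .nil)) 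
(.lf (nat_lit 188266) (.g (nat_lit 3639) (.e (nat_lit 57931) (nat_lit 282) (.e (nat_lit 163869) (nat_lit 2) (.e (nat_lit 196670) (nat_lit 14) (.e (nat_lit 73755) (nat_lit 8) (.e (nat_lit 557105) (nat_lit 14) (.e (nat_lit 180252) (nat_lit 10) (.e (nat_lit 573451) (nat_lit 9) (.e (nat_lit 1177) (nat_lit 87) .nil)))))))) (.g (nat_lit 4) .nil .nil))))) (.nd (nat_lit 5) (.nd (nat_lit 6) 
(.lf (nat_lit 188186) (.g (nat_lit 1679) (.e (nat_lit 57930) (nat_lit 282) (.e (nat_lit 163923) (nat_lit 15) (.e (nat_lit 450588) (nat_lit 10) (.e (nat_lit 581376) (nat_lit 4) .nil)))) .nil)) 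
(.lf (nat_lit 188250) (.g (nat_lit 3402) (.e (nat_lit 57931) (nat_lit 282) (.e (nat_lit 163869) (nat_lit 2) (.e (nat_lit 196670) (nat_lit 14) (.e (nat_lit 73746) (nat_lit 3) (.e (nat_lit 516131) (nat_lit 3) (.e (nat_lit 221212) (nat_lit 22) (.e (nat_lit 196625) (nat_lit 9) (.e (nat_lit 1174) (nat_lit 87) .nil)))))))) (.g (nat_lit 5) .nil .nil)))) (.nd (nat_lit 6) 
(.lf (nat_lit 188218) (.g (nat_lit 2880) (.e (nat_lit 57931) (nat_lit 282) (.e (nat_lit 163867) (nat_lit 2) (.e (nat_lit 196670) (nat_lit 14) (.e (nat_lit 73746) (nat_lit 3) (.e (nat_lit 516131) (nat_lit 3) (.e (nat_lit 221212) (nat_lit 22) (.e (nat_lit 196625) (nat_lit 9) (.e (nat_lit 1177) (nat_lit 87) .nil)))))))) (.g (nat_lit 4) .nil .nil))) 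
(.lf (nat_lit 188282) (.g (nat_lit 2805) (.e (nat_lit 57931) (nat_lit 282) (.e (nat_lit 163873) (nat_lit 3) (.e (nat_lit 204863) (nat_lit 27) (.e (nat_lit 344117) (nat_lit 21) (.e (nat_lit 516130) (nat_lit 3) .nil))))) .nil)))))) (.nd (nat_lit 3) (.nd (nat_lit 4) (.nd (nat_lit 5) (.nd (nat_lit 6) 
(.lf (nat_lit 188166) (.g (nat_lit 2342) (.e (nat_lit 57930) (nat_lit 282) (.e (nat_lit 163896) (nat_lit 10) (.e (nat_lit 409649) (nat_lit 18) (.e (nat_lit 303133) (nat_lit 9) (.e (nat_lit 433920) (nat_lit 32) .nil))))) .nil)) 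
(.lf (nat_lit 188230) (.g (nat_lit 2809) (.e (nat_lit 57931) (nat_lit 282) (.e (nat_lit 163867) (nat_lit 2) (.e (nat_lit 196670) (nat_lit 14) (.e (nat_lit 73755) (nat_lit 8) (.e (nat_lit 557105) (nat_lit 14) (.e (nat_lit 180252) (nat_lit 10) (.e (nat_lit 573451) (nat_lit 9) (.e (nat_lit 1169) (nat_lit 87) .nil)))))))) (.g (nat_lit 4) .nil .nil)))) (.nd (nat_lit 6) 
(.lf (nat_lit 188198) (.g (nat_lit 753) (.e (nat_lit 57930) (nat_lit 282) (.e (nat_lit 164088) (nat_lit 73) (.e (nat_lit 336004) (nat_lit 2) (.e (nat_lit 90158) (nat_lit 11) .nil)))) .nil)) 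
(.lf (nat_lit 188262) (.g (nat_lit 3965) (.e (nat_lit 57931) (nat_lit 282) (.e (nat_lit 163869) (nat_lit 2) (.e (nat_lit 196670) (nat_lit 14) (.e (nat_lit 73754) (nat_lit 8) (.e (nat_lit 557105) (nat_lit 14) (.e (nat_lit 180252) (nat_lit 10) (.e (nat_lit 573458) (nat_lit 9) (.e (nat_lit 1178) (nat_lit 87) .nil)))))))) (.g (nat_lit 5) .nil .nil))))) (.nd (nat_lit 5) (.nd (nat_lit 6) 
(.lf (nat_lit 188182) (.g (nat_lit 1949) (.e (nat_lit 57930) (nat_lit 282) (.e (nat_lit 163923) (nat_lit 15) (.e (nat_lit 450587) (nat_lit 10) (.e (nat_lit 581376) (nat_lit 0) .nil)))) .nil)) 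
(.lf (nat_lit 188246) (.g (nat_lit 2505) (.e (nat_lit 57931) (nat_lit 282) (.e (nat_lit 163869) (nat_lit 2) (.e (nat_lit 196669) (nat_lit 14) (.e (nat_lit 73755) (nat_lit 8) (.e (nat_lit 557105) (nat_lit 14) (.e (nat_lit 180252) (nat_lit 10) (.e (nat_lit 573458) (nat_lit 9) (.e (nat_lit 1180) (nat_lit 87) .nil)))))))) (.g (nat_lit 4) .nil .nil)))) (.nd (nat_lit 6) 
(.lf (nat_lit 188214) (.g (nat_lit 4118) (.e (nat_lit 57931) (nat_lit 282) (.e (nat_lit 163867) (nat_lit 2) (.e (nat_lit 196669) (nat_lit 14) (.e (nat_lit 73755) (nat_lit 8) (.e (nat_lit 557105) (nat_lit 14) (.e (nat_lit 180252) (nat_lit 10) (.e (nat_lit 573451) (nat_lit 9) (.e (nat_lit 1177) (nat_lit 87) .nil)))))))) (.g (nat_lit 6) .nil .nil))) 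
(.lf (nat_lit 188278) (.g (nat_lit 2755) (.e (nat_lit 57931) (nat_lit 282) (.e (nat_lit 163873) (nat_lit 3) (.e (nat_lit 204861) (nat_lit 26) (.e (nat_lit 336213) (nat_lit 13) (.e (nat_lit 393224) (nat_lit 9) .nil))))) .nil))))) (.nd (nat_lit 4) (.nd (nat_lit 5) (.nd (nat_lit 6) 
(.lf (nat_lit 188174) (.g (nat_lit 1891) (.e (nat_lit 57930) (nat_lit 282) (.e (nat_lit 163905) (nat_lit 12) (.e (nat_lit 426555) (nat_lit 32) (.e (nat_lit 376865) (nat_lit 22) (.e (nat_lit 90158) (nat_lit 11) .nil))))) .nil)) 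
(.lf (nat_lit 188238) (.g (nat_lit 531) (.e (nat_lit 57931) (nat_lit 282) (.e (nat_lit 163869) (nat_lit 2) (.e (nat_lit 196664) (nat_lit 13) .nil))) .nil))) (.nd (nat_lit 6) 
(.lf (nat_lit 188206) (.g (nat_lit 1705) (.e (nat_lit 57931) (nat_lit 282) (.e (nat_lit 163867) (nat_lit 2) (.e (nat_lit 196630) (nat_lit 9) (.e (nat_lit 1573) (nat_lit 110) (.e (nat_lit 360192) (nat_lit 18) .nil))))) .nil)) 
(.lf (nat_lit 188270) (.g (nat_lit 1830) (.e (nat_lit 57931) (nat_lit 282) (.e (nat_lit 163873) (nat_lit 3) (.e (nat_lit 204851) (nat_lit 26) (.e (nat_lit 336211) (nat_lit 13) (.e (nat_lit 393225) (nat_lit 9) .nil))))) .nil)))) (.nd (nat_lit 5) (.nd (nat_lit 6) 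
(.lf (nat_lit 188190) (.g (nat_lit 4100) (.e (nat_lit 57930) (nat_lit 282) (.e (nat_lit 163923) (nat_lit 15) (.e (nat_lit 450588) (nat_lit 10) (.e (nat_lit 573474) (nat_lit 12) (.e (nat_lit 57360) (nat_lit 0) .nil))))) .nil)) 
(.lf (nat_lit 188254) (.g (nat_lit 2371) (.e (nat_lit 57931) (nat_lit 282) (.e (nat_lit 163869) (nat_lit 2) (.e (nat_lit 196670) (nat_lit 14) (.e (nat_lit 73748) (nat_lit 3) (.e (nat_lit 516131) (nat_lit 3) .nil))))) .nil))) (.nd (nat_lit 6) 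
(.lf (nat_lit 188222) (.g (nat_lit 4318) (.e (nat_lit 57931) (nat_lit 282) (.e (nat_lit 163867) (nat_lit 2) (.e (nat_lit 196670) (nat_lit 14) (.e (nat_lit 73746) (nat_lit 3) (.e (nat_lit 516131) (nat_lit 3) (.e (nat_lit 221212) (nat_lit 22) (.e (nat_lit 196635) (nat_lit 9) (.e (nat_lit 1181) (nat_lit 87) .nil)))))))) (.g (nat_lit 6) .nil .nil))) 
(.lf (nat_lit 188286) (.g (nat_lit 887) (.e (nat_lit 57931) (nat_lit 282) (.e (nat_lit 163873) (nat_lit 3) (.e (nat_lit 204867) (nat_lit 28) .nil))) .nil)))))))) (.nd (nat_lit 1) (.nd (nat_lit 2) (.nd (nat_lit 3) (.nd (nat_lit 4) (.nd (nat_lit 5) (.nd (nat_lit 6) 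
(.lf (nat_lit 188161) (.g (nat_lit 767) (.e (nat_lit 57930) (nat_lit 282) (.e (nat_lit 163874) (nat_lit 3) (.e (nat_lit 204876) (nat_lit 31) .nil))) .nil)) 
(.lf (nat_lit 188225) (.g (nat_lit 4457) (.e (nat_lit 57931) (nat_lit 282) (.e (nat_lit 163867) (nat_lit 2) (.e (nat_lit 196670) (nat_lit 14) (.e (nat_lit 73753) (nat_lit 8) (.e (nat_lit 557105) (nat_lit 14) (.e (nat_lit 180252) (nat_lit 10) (.e (nat_lit 573451) (nat_lit 9) (.e (nat_lit 1174) (nat_lit 87) .nil)))))))) (.g (nat_lit 6) .nil .nil)))) (.nd (nat_lit 6) 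
(.lf (nat_lit 188193) (.g (nat_lit 1319) (.e (nat_lit 57930) (nat_lit 282) (.e (nat_lit 163931) (nat_lit 17) (.e (nat_lit 466974) (nat_lit 22) (.e (nat_lit 196654) (nat_lit 11) .nil)))) .nil)) 
(.lf (nat_lit 188257) (.g (nat_lit 3083) (.e (nat_lit 57931) (nat_lit 282) (.e (nat_lit 163869) (nat_lit 2) (.e (nat_lit 196670) (nat_lit 14) (.e (nat_lit 73753) (nat_lit 8) (.e (nat_lit 557105) (nat_lit 14) (.e (nat_lit 180252) (nat_lit 10) (.e (nat_lit 573458) (nat_lit 9) (.e (nat_lit 1178) (nat_lit 87) .nil)))))))) (.g (nat_lit 5) .nil .nil))))) (.nd (nat_lit 5) (.nd (nat_lit 6) 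
(.lf (nat_lit 188177) (.g (nat_lit 2604) (.e (nat_lit 57930) (nat_lit 282) (.e (nat_lit 163920) (nat_lit 14) (.e (nat_lit 442424) (nat_lit 22) (.e (nat_lit 196654) (nat_lit 11) (.e (nat_lit 24320) (nat_lit 20) .nil))))) .nil)) 
(.lf (nat_lit 188241) (.g (nat_lit 2363) (.e (nat_lit 57931) (nat_lit 282) (.e (nat_lit 163869) (nat_lit 2) (.e (nat_lit 196666) (nat_lit 13) (.e (nat_lit 65626) (nat_lit 13) (.e (nat_lit 393225) (nat_lit 9) .nil))))) .nil))) (.nd (nat_lit 6) 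
(.lf (nat_lit 188209) (.g (nat_lit 1685) (.e (nat_lit 57931) (nat_lit 282) (.e (nat_lit 163867) (nat_lit 2) (.e (nat_lit 196663) (nat_lit 13) (.e (nat_lit 65569) (nat_lit 3) (.e (nat_lit 98341) (nat_lit 20) .nil))))) .nil)) 
(.lf (nat_lit 188273) (.g (nat_lit 3144) (.e (nat_lit 57931) (nat_lit 282) (.e (nat_lit 163873) (nat_lit 3) (.e (nat_lit 204854) (nat_lit 26) (.e (nat_lit 336019) (nat_lit 3) (.e (nat_lit 98341) (nat_lit 20) .nil))))) .nil))))) (.nd (nat_lit 4) (.nd (nat_lit 5) (.nd (nat_lit 6) 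
(.lf (nat_lit 188169) (.g (nat_lit 1042) (.e (nat_lit 57930) (nat_lit 282) (.e (nat_lit 163902) (nat_lit 12) (.e (nat_lit 426546) (nat_lit 30) (.e (nat_lit 360466) (nat_lit 3) .nil)))) .nil)) 
(.lf (nat_lit 188233) (.g (nat_lit 1133) (.e (nat_lit 57931) (nat_lit 282) (.e (nat_lit 163869) (nat_lit 2) (.e (nat_lit 196625) (nat_lit 9) (.e (nat_lit 1569) (nat_lit 110) (.e (nat_lit 360192) (nat_lit 18) .nil))))) .nil))) (.nd (nat_lit 6) 
(.lf (nat_lit 188201) (.g (nat_lit 492) (.e (nat_lit 57931) (nat_lit 282) (.e (nat_lit 163867) (nat_lit 2) (.e (nat_lit 196617) (nat_lit 9) .nil))) .nil)) 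
(.lf (nat_lit 188265) (.g (nat_lit 3611) (.e (nat_lit 57931) (nat_lit 282) (.e (nat_lit 163869) (nat_lit 2) (.e (nat_lit 196670) (nat_lit 14) (.e (nat_lit 73755) (nat_lit 8) (.e (nat_lit 557105) (nat_lit 14) (.e (nat_lit 180252) (nat_lit 10) (.e (nat_lit 573451) (nat_lit 9) (.e (nat_lit 1174) (nat_lit 87) .nil)))))))) (.g (nat_lit 4) .nil .nil))))) (.nd (nat_lit 5) (.nd (nat_lit 6) 
(.lf (nat_lit 188185) (.g (nat_lit 2914) (.e (nat_lit 57930) (nat_lit 282) (.e (nat_lit 163923) (nat_lit 15) (.e (nat_lit 450587) (nat_lit 10) (.e (nat_lit 573475) (nat_lit 12) (.e (nat_lit 57346) (nat_lit 0) .nil))))) .nil)) 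
(.lf (nat_lit 188249) (.g (nat_lit 1675) (.e (nat_lit 57931) (nat_lit 282) (.e (nat_lit 163869) (nat_lit 2) (.e (nat_lit 196670) (nat_lit 14) (.e (nat_lit 73746) (nat_lit 3) (.e (nat_lit 516131) (nat_lit 3) .nil))))) .nil))) (.nd (nat_lit 6) 
(.lf (nat_lit 188217) (.g (nat_lit 2775) (.e (nat_lit 57931) (nat_lit 282) (.e (nat_lit 163867) (nat_lit 2) (.e (nat_lit 196670) (nat_lit 14) (.e (nat_lit 73746) (nat_lit 3) (.e (nat_lit 516131) (nat_lit 3) (.e (nat_lit 221212) (nat_lit 22) (.e (nat_lit 196625) (nat_lit 9) (.e (nat_lit 1174) (nat_lit 87) .nil)))))))) (.g (nat_lit 4) .nil .nil))) 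
(.lf (nat_lit 188281) (.g (nat_lit 2241) (.e (nat_lit 57931) (nat_lit 282) (.e (nat_lit 163873) (nat_lit 3) (.e (nat_lit 204862) (nat_lit 27) (.e (nat_lit 344117) (nat_lit 21) (.e (nat_lit 516130) (nat_lit 3) .nil))))) .nil)))))) (.nd (nat_lit 3) (.nd (nat_lit 4) (.nd (nat_lit 5) (.nd (nat_lit 6) 
(.lf (nat_lit 188165) (.g (nat_lit 1828) (.e (nat_lit 57930) (nat_lit 282) (.e (nat_lit 163896) (nat_lit 10) (.e (nat_lit 409649) (nat_lit 18) (.e (nat_lit 303128) (nat_lit 9) .nil)))) .nil)) 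
(.lf (nat_lit 188229) (.g (nat_lit 4574) (.e (nat_lit 57931) (nat_lit 282) (.e (nat_lit 163867) (nat_lit 2) (.e (nat_lit 196670) (nat_lit 14) (.e (nat_lit 73754) (nat_lit 8) (.e (nat_lit 557105) (nat_lit 14) (.e (nat_lit 180252) (nat_lit 10) (.e (nat_lit 573451) (nat_lit 9) (.e (nat_lit 1174) (nat_lit 87) .nil)))))))) (.g (nat_lit 6) .nil .nil)))) (.nd (nat_lit 6) 
(.lf (nat_lit 188197) (.g (nat_lit 2777) (.e (nat_lit 57930) (nat_lit 282) (.e (nat_lit 164084) (nat_lit 73) (.e (nat_lit 336021) (nat_lit 3) (.e (nat_lit 98313) (nat_lit 9) (.e (nat_lit 335996) (nat_lit 1) (.e (nat_lit 57854) (nat_lit 252) (.e (nat_lit 57389) (nat_lit 5) (.e (nat_lit 114712) (nat_lit 21) .nil)))))))) (.g (nat_lit 4) .nil .nil))) 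
(.lf (nat_lit 188261) (.g (nat_lit 5125) (.e (nat_lit 57931) (nat_lit 282) (.e (nat_lit 163869) (nat_lit 2) (.e (nat_lit 196670) (nat_lit 14) (.e (nat_lit 73754) (nat_lit 8) (.e (nat_lit 557105) (nat_lit 14) (.e (nat_lit 180252) (nat_lit 10) (.e (nat_lit 573451) (nat_lit 9) (.e (nat_lit 1177) (nat_lit 87) .nil)))))))) (.g (nat_lit 6) .nil .nil))))) (.nd (nat_lit 5) (.nd (nat_lit 6) 
(.lf (nat_lit 188181) (.g (nat_lit 783) (.e (nat_lit 57930) (nat_lit 282) (.e (nat_lit 163923) (nat_lit 15) (.e (nat_lit 450580) (nat_lit 5) .nil))) .nil)) 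
(.lf (nat_lit 188245) (.g (nat_lit 4614) (.e (nat_lit 57931) (nat_lit 282) (.e (nat_lit 163869) (nat_lit 2) (.e (nat_lit 196669) (nat_lit 14) (.e (nat_lit 73755) (nat_lit 8) (.e (nat_lit 557105) (nat_lit 14) (.e (nat_lit 180252) (nat_lit 10) (.e (nat_lit 573451) (nat_lit 9) (.e (nat_lit 1177) (nat_lit 87) .nil)))))))) (.g (nat_lit 6) .nil .nil)))) (.nd (nat_lit 6) 
(.lf (nat_lit 188213) (.g (nat_lit 1768) (.e (nat_lit 57931) (nat_lit 282) (.e (nat_lit 163867) (nat_lit 2) (.e (nat_lit 196668) (nat_lit 14) (.e (nat_lit 73747) (nat_lit 3) (.e (nat_lit 516131) (nat_lit 3) .nil))))) .nil)) 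
(.lf (nat_lit 188277) (.g (nat_lit 887) (.e (nat_lit 57931) (nat_lit 282) (.e (nat_lit 163873) (nat_lit 3) (.e (nat_lit 204860) (nat_lit 26) .nil))) .nil))))) (.nd (nat_lit 4) (.nd (nat_lit 5) (.nd (nat_lit 6) 
(.lf (nat_lit 188173) (.g (nat_lit 1935) (.e (nat_lit 57930) (nat_lit 282) (.e (nat_lit 163905) (nat_lit 12) (.e (nat_lit 426555) (nat_lit 32) (.e (nat_lit 376862) (nat_lit 22) (.e (nat_lit 90160) (nat_lit 11) .nil))))) .nil)) 
(.lf (nat_lit 188237) (.g (nat_lit 1274) (.e (nat_lit 57931) (nat_lit 282) (.e (nat_lit 163869) (nat_lit 2) (.e (nat_lit 196630) (nat_lit 9) (.e (nat_lit 1504) (nat_lit 108) .nil)))) .nil))) (.nd (nat_lit 6) 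
(.lf (nat_lit 188205) (.g (nat_lit 670) (.e (nat_lit 57931) (nat_lit 282) (.e (nat_lit 163867) (nat_lit 2) (.e (nat_lit 196626) (nat_lit 9) .nil))) .nil)) 
(.lf (nat_lit 188269) (.g (nat_lit 1934) (.e (nat_lit 57931) (nat_lit 282) (.e (nat_lit 163873) (nat_lit 3) (.e (nat_lit 204851) (nat_lit 26) (.e (nat_lit 336019) (nat_lit 3) (.e (nat_lit 98342) (nat_lit 20) .nil))))) .nil)))) (.nd (nat_lit 5) (.nd (nat_lit 6) 
(.lf (nat_lit 188189) (.g (nat_lit 2137) (.e (nat_lit 57930) (nat_lit 282) (.e (nat_lit 163923) (nat_lit 15) (.e (nat_lit 450588) (nat_lit 10) (.e (nat_lit 573474) (nat_lit 12) .nil)))) .nil)) 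
(.lf (nat_lit 188253) (.g (nat_lit 1881) (.e (nat_lit 57931) (nat_lit 282) (.e (nat_lit 163869) (nat_lit 2) (.e (nat_lit 196670) (nat_lit 14) (.e (nat_lit 73748) (nat_lit 3) .nil)))) .nil))) (.nd (nat_lit 6) 
(.lf (nat_lit 188221) (.g (nat_lit 3387) (.e (nat_lit 57931) (nat_lit 282) (.e (nat_lit 163867) (nat_lit 2) (.e (nat_lit 196670) (nat_lit 14) (.e (nat_lit 73746) (nat_lit 3) (.e (nat_lit 516131) (nat_lit 3) (.e (nat_lit 221212) (nat_lit 22) (.e (nat_lit 196632) (nat_lit 9) (.e (nat_lit 1178) (nat_lit 87) .nil)))))))) (.g (nat_lit 5) .nil .nil))) 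
(.lf (nat_lit 188285) (.g (nat_lit 1897) (.e (nat_lit 57931) (nat_lit 282) (.e (nat_lit 163873) (nat_lit 3) (.e (nat_lit 204866) (nat_lit 28) (.e (nat_lit 352276) (nat_lit 11) .nil)))) .nil))))))) (.nd (nat_lit 2) (.nd (nat_lit 3) (.nd (nat_lit 4) (.nd (nat_lit 5) (.nd (nat_lit 6) 
(.lf (nat_lit 188163) (.g (nat_lit 1264) (.e (nat_lit 57930) (nat_lit 282) (.e (nat_lit 163896) (nat_lit 10) (.e (nat_lit 409618) (nat_lit 10) (.e (nat_lit 5766) (nat_lit 316) .nil)))) .nil)) 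
(.lf (nat_lit 188227) (.g (nat_lit 2999) (.e (nat_lit 57931) (nat_lit 282) (.e (nat_lit 163867) (nat_lit 2) (.e (nat_lit 196670) (nat_lit 14) (.e (nat_lit 73753) (nat_lit 8) (.e (nat_lit 557105) (nat_lit 14) (.e (nat_lit 180252) (nat_lit 10) (.e (nat_lit 573458) (nat_lit 9) (.e (nat_lit 1178) (nat_lit 87) .nil)))))))) (.g (nat_lit 4) .nil .nil)))) (.nd (nat_lit 6) 
(.lf (nat_lit 188195) (.g (nat_lit 1587) (.e (nat_lit 57930) (nat_lit 282) (.e (nat_lit 163931) (nat_lit 17) (.e (nat_lit 466977) (nat_lit 22) (.e (nat_lit 196654) (nat_lit 11) .nil)))) .nil)) 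
(.lf (nat_lit 188259) (.g (nat_lit 5040) (.e (nat_lit 57931) (nat_lit 282) (.e (nat_lit 163869) (nat_lit 2) (.e (nat_lit 196670) (nat_lit 14) (.e (nat_lit 73754) (nat_lit 8) (.e (nat_lit 557105) (nat_lit 14) (.e (nat_lit 180252) (nat_lit 10) (.e (nat_lit 573451) (nat_lit 9) (.e (nat_lit 1169) (nat_lit 87) .nil)))))))) (.g (nat_lit 6) .nil .nil))))) (.nd (nat_lit 5) (.nd (nat_lit 6) 
(.lf (nat_lit 188179) (.g (nat_lit 912) (.e (nat_lit 57930) (nat_lit 282) (.e (nat_lit 163920) (nat_lit 14) (.e (nat_lit 442432) (nat_lit 25) .nil))) .nil)) 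
(.lf (nat_lit 188243) (.g (nat_lit 4291) (.e (nat_lit 57931) (nat_lit 282) (.e (nat_lit 163869) (nat_lit 2) (.e (nat_lit 196669) (nat_lit 14) (.e (nat_lit 73755) (nat_lit 8) (.e (nat_lit 557105) (nat_lit 14) (.e (nat_lit 180252) (nat_lit 10) (.e (nat_lit 573451) (nat_lit 9) (.e (nat_lit 1169) (nat_lit 87) .nil)))))))) (.g (nat_lit 6) .nil .nil)))) (.nd (nat_lit 6) 
(.lf (nat_lit 188211) (.g (nat_lit 2039) (.e (nat_lit 57931) (nat_lit 282) (.e (nat_lit 163867) (nat_lit 2) (.e (nat_lit 196666) (nat_lit 13) (.e (nat_lit 65627) (nat_lit 13) .nil)))) .nil)) 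
(.lf (nat_lit 188275) (.g (nat_lit 2620) (.e (nat_lit 57931) (nat_lit 282) (.e (nat_lit 163873) (nat_lit 3) (.e (nat_lit 204854) (nat_lit 26) (.e (nat_lit 336211) (nat_lit 13) (.e (nat_lit 393225) (nat_lit 9) .nil))))) .nil))))) (.nd (nat_lit 4) (.nd (nat_lit 5) (.nd (nat_lit 6) 
(.lf (nat_lit 188171) (.g (nat_lit 1392) (.e (nat_lit 57930) (nat_lit 282) (.e (nat_lit 163905) (nat_lit 12) (.e (nat_lit 426542) (nat_lit 29) (.e (nat_lit 352315) (nat_lit 23) .nil)))) .nil)) 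
(.lf (nat_lit 188235) (.g (nat_lit 1021) (.e (nat_lit 57931) (nat_lit 282) (.e (nat_lit 163869) (nat_lit 2) (.e (nat_lit 196626) (nat_lit 9) (.e (nat_lit 1559) (nat_lit 110) .nil)))) .nil))) (.nd (nat_lit 6) 
(.lf (nat_lit 188203) (.g (nat_lit 995) (.e (nat_lit 57931) (nat_lit 282) (.e (nat_lit 163867) (nat_lit 2) (.e (nat_lit 196624) (nat_lit 9) (.e (nat_lit 1526) (nat_lit 109) .nil)))) .nil)) 
(.lf (nat_lit 188267) (.g (nat_lit 667) (.e (nat_lit 57931) (nat_lit 282) (.e (nat_lit 163869) (nat_lit 2) (.e (nat_lit 196681) (nat_lit 17) (.e (nat_lit 131125) (nat_lit 13) .nil)))) .nil)))) (.nd (nat_lit 5) (.nd (nat_lit 6) 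
(.lf (nat_lit 188187) (.g (nat_lit 2846) (.e (nat_lit 57930) (nat_lit 282) (.e (nat_lit 163923) (nat_lit 15) (.e (nat_lit 450588) (nat_lit 10) (.e (nat_lit 573449) (nat_lit 9) (.e (nat_lit 1288) (nat_lit 95) .nil))))) .nil)) 
(.lf (nat_lit 188251) (.g (nat_lit 3388) (.e (nat_lit 57931) (nat_lit 282) (.e (nat_lit 163869) (nat_lit 2) (.e (nat_lit 196670) (nat_lit 14) (.e (nat_lit 73746) (nat_lit 3) (.e (nat_lit 516131) (nat_lit 3) (.e (nat_lit 221212) (nat_lit 22) (.e (nat_lit 196628) (nat_lit 9) (.e (nat_lit 1184) (nat_lit 87) .nil)))))))) (.g (nat_lit 5) .nil .nil)))) (.nd (nat_lit 6) 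
(.lf (nat_lit 188219) (.g (nat_lit 2297) (.e (nat_lit 57931) (nat_lit 282) (.e (nat_lit 163867) (nat_lit 2) (.e (nat_lit 196670) (nat_lit 14) (.e (nat_lit 73746) (nat_lit 3) (.e (nat_lit 516131) (nat_lit 3) (.e (nat_lit 221212) (nat_lit 22) (.e (nat_lit 196628) (nat_lit 9) (.e (nat_lit 1184) (nat_lit 87) .nil)))))))) (.g (nat_lit 4) .nil .nil))) 
(.lf (nat_lit 188283) (.g (nat_lit 3614) (.e (nat_lit 57931) (nat_lit 282) (.e (nat_lit 163873) (nat_lit 3) (.e (nat_lit 204863) (nat_lit 27) (.e (nat_lit 344117) (nat_lit 21) (.e (nat_lit 516130) (nat_lit 3) (.e (nat_lit 221204) (nat_lit 20) (.e (nat_lit 3253) (nat_lit 197) (.e (nat_lit 532503) (nat_lit 1) .nil)))))))) (.g (nat_lit 4) .nil .nil))))))) 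
(.nd (nat_lit 3) (.nd (nat_lit 4) (.nd (nat_lit 5) (.nd (nat_lit 6) 
(.lf (nat_lit 188167) (.g (nat_lit 2154) (.e (nat_lit 57930) (nat_lit 282) (.e (nat_lit 163902) (nat_lit 12) (.e (nat_lit 426538) (nat_lit 29) (.e (nat_lit 352315) (nat_lit 23) (.e (nat_lit 98313) (nat_lit 9) .nil))))) .nil)) 
(.lf (nat_lit 188231) (.g (nat_lit 3160) (.e (nat_lit 57931) (nat_lit 282) (.e (nat_lit 163867) (nat_lit 2) (.e (nat_lit 196670) (nat_lit 14) (.e (nat_lit 73755) (nat_lit 8) (.e (nat_lit 557105) (nat_lit 14) (.e (nat_lit 180252) (nat_lit 10) (.e (nat_lit 573451) (nat_lit 9) (.e (nat_lit 1174) (nat_lit 87) .nil)))))))) (.g (nat_lit 4) .nil .nil)))) (.nd (nat_lit 6) 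
(.lf (nat_lit 188199) (.g (nat_lit 2466) (.e (nat_lit 57930) (nat_lit 282) (.e (nat_lit 164088) (nat_lit 73) (.e (nat_lit 336021) (nat_lit 3) (.e (nat_lit 98313) (nat_lit 9) (.e (nat_lit 335996) (nat_lit 1) (.e (nat_lit 57854) (nat_lit 252) (.e (nat_lit 57389) (nat_lit 5) (.e (nat_lit 114712) (nat_lit 21) .nil)))))))) (.g (nat_lit 4) .nil .nil))) 
(.lf (nat_lit 188263) (.g (nat_lit 3418) (.e (nat_lit 57931) (nat_lit 282) (.e (nat_lit 163869) (nat_lit 2) (.e (nat_lit 196670) (nat_lit 14) (.e (nat_lit 73754) (nat_lit 8) (.e (nat_lit 557105) (nat_lit 14) (.e (nat_lit 180252) (nat_lit 10) (.e (nat_lit 573458) (nat_lit 9) (.e (nat_lit 1180) (nat_lit 87) .nil)))))))) (.g (nat_lit 4) .nil .nil))))) (.nd (nat_lit 5) (.nd (nat_lit 6) 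
(.lf (nat_lit 188183) (.g (nat_lit 1949) (.e (nat_lit 57930) (nat_lit 282) (.e (nat_lit 163923) (nat_lit 15) (.e (nat_lit 450587) (nat_lit 10) (.e (nat_lit 581376) (nat_lit 4) .nil)))) .nil)) 
(.lf (nat_lit 188247) (.g (nat_lit 1875) (.e (nat_lit 57931) (nat_lit 282) (.e (nat_lit 163869) (nat_lit 2) (.e (nat_lit 196670) (nat_lit 14) (.e (nat_lit 73746) (nat_lit 3) (.e (nat_lit 516129) (nat_lit 3) .nil))))) .nil))) (.nd (nat_lit 6) 
(.lf (nat_lit 188215) (.g (nat_lit 2449) (.e (nat_lit 57931) (nat_lit 282) (.e (nat_lit 163867) (nat_lit 2) (.e (nat_lit 196669) (nat_lit 14) (.e (nat_lit 73755) (nat_lit 8) (.e (nat_lit 557105) (nat_lit 14) (.e (nat_lit 180252) (nat_lit 10) (.e (nat_lit 573458) (nat_lit 9) (.e (nat_lit 1178) (nat_lit 87) .nil)))))))) (.g (nat_lit 4) .nil .nil))) 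
(.lf (nat_lit 188279) (.g (nat_lit 3324) (.e (nat_lit 57931) (nat_lit 282) (.e (nat_lit 163873) (nat_lit 3) (.e (nat_lit 204861) (nat_lit 26) (.e (nat_lit 336213) (nat_lit 13) (.e (nat_lit 393229) (nat_lit 9) (.e (nat_lit 335996) (nat_lit 1) .nil)))))) (.g (nat_lit 0) .nil .nil)))))) (.nd (nat_lit 4) (.nd (nat_lit 5) (.nd (nat_lit 6) 
(.lf (nat_lit 188175) (.g (nat_lit 1938) (.e (nat_lit 57930) (nat_lit 282) (.e (nat_lit 163905) (nat_lit 12) (.e (nat_lit 426555) (nat_lit 32) (.e (nat_lit 376865) (nat_lit 22) (.e (nat_lit 90160) (nat_lit 11) .nil))))) .nil)) 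
(.lf (nat_lit 188239) (.g (nat_lit 1082) (.e (nat_lit 57931) (nat_lit 282) (.e (nat_lit 163869) (nat_lit 2) (.e (nat_lit 196664) (nat_lit 13) (.e (nat_lit 65627) (nat_lit 13) (.e (nat_lit 393225) (nat_lit 9) .nil))))) .nil))) (.nd (nat_lit 6) 
(.lf (nat_lit 188207) (.g (nat_lit 672) (.e (nat_lit 57931) (nat_lit 282) (.e (nat_lit 163867) (nat_lit 2) (.e (nat_lit 196635) (nat_lit 9) .nil))) .nil)) 
(.lf (nat_lit 188271) (.g (nat_lit 1923) (.e (nat_lit 57931) (nat_lit 282) (.e (nat_lit 163873) (nat_lit 3) (.e (nat_lit 204852) (nat_lit 26) (.e (nat_lit 336211) (nat_lit 13) .nil)))) .nil)))) (.nd (nat_lit 5) (.nd (nat_lit 6) 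
(.lf (nat_lit 188191) (.g (nat_lit 3760) (.e (nat_lit 57930) (nat_lit 282) (.e (nat_lit 163923) (nat_lit 15) (.e (nat_lit 450588) (nat_lit 10) (.e (nat_lit 573474) (nat_lit 12) (.e (nat_lit 57516) (nat_lit 42) .nil))))) .nil)) 
(.lf (nat_lit 188255) (.g (nat_lit 4672) (.e (nat_lit 57931) (nat_lit 282) (.e (nat_lit 163869) (nat_lit 2) (.e (nat_lit 196670) (nat_lit 14) (.e (nat_lit 73753) (nat_lit 8) (.e (nat_lit 557105) (nat_lit 14) (.e (nat_lit 180252) (nat_lit 10) (.e (nat_lit 573451) (nat_lit 9) (.e (nat_lit 1169) (nat_lit 87) .nil)))))))) (.g (nat_lit 6) .nil .nil)))) (.nd (nat_lit 6) 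
(.lf (nat_lit 188223) (.g (nat_lit 1665) (.e (nat_lit 57931) (nat_lit 282) (.e (nat_lit 163867) (nat_lit 2) (.e (nat_lit 196670) (nat_lit 14) (.e (nat_lit 73748) (nat_lit 3) .nil)))) .nil)) 
(.lf (nat_lit 188287) (.g (nat_lit 887) (.e (nat_lit 57931) (nat_lit 282) (.e (nat_lit 163873) (nat_lit 3) (.e (nat_lit 204875) (nat_lit 31) .nil))) .nil)))))))))

noncomputable def tv2496 : DT := (.nd (nat_lit 0) (.nd (nat_lit 1) (.nd (nat_lit 2) (.nd (nat_lit 3) (.nd (nat_lit 4) (.nd (nat_lit 5) (.nd (nat_lit 6) 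
(.lf (nat_lit 188288) (.g (nat_lit 1177) (.e (nat_lit 57931) (nat_lit 282) (.e (nat_lit 163873) (nat_lit 3) (.e (nat_lit 204876) (nat_lit 31) (.e (nat_lit 376842) (nat_lit 11) .nil)))) .nil)) 
(.lf (nat_lit 188352) (.g (nat_lit 1812) (.e (nat_lit 57931) (nat_lit 282) (.e (nat_lit 163905) (nat_lit 12) (.e (nat_lit 426538) (nat_lit 29) (.e (nat_lit 352315) (nat_lit 23) (.e (nat_lit 98313) (nat_lit 9) .nil))))) .nil))) (.nd (nat_lit 6) 
(.lf (nat_lit 188320) (.g (nat_lit 2717) (.e (nat_lit 57931) (nat_lit 282) (.e (nat_lit 163874) (nat_lit 3) (.e (nat_lit 204864) (nat_lit 27) (.e (nat_lit 344117) (nat_lit 21) (.e (nat_lit 516130) (nat_lit 3) .nil))))) .nil)) 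
(.lf (nat_lit 188384) (.g (nat_lit 2061) (.e (nat_lit 65539) (nat_lit 0) (.e (nat_lit 1878) (nat_lit 126) (.e (nat_lit 573488) (nat_lit 14) (.e (nat_lit 73755) (nat_lit 8) (.e (nat_lit 557098) (nat_lit 13) .nil))))) .nil)))) (.nd (nat_lit 5) (.nd (nat_lit 6) 
(.lf (nat_lit 188304) (.g (nat_lit 3049) (.e (nat_lit 57931) (nat_lit 282) (.e (nat_lit 163874) (nat_lit 3) (.e (nat_lit 204859) (nat_lit 26) (.e (nat_lit 336209) (nat_lit 13) (.e (nat_lit 393225) (nat_lit 9) (.e (nat_lit 335996) (nat_lit 1) .nil)))))) (.g (nat_lit 0) .nil .nil))) 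
(.lf (nat_lit 188368) (.g (nat_lit 3457) (.e (nat_lit 57931) (nat_lit 282) (.e (nat_lit 164084) (nat_lit 73) (.e (nat_lit 336027) (nat_lit 3) (.e (nat_lit 98365) (nat_lit 26) (.e (nat_lit 426100) (nat_lit 1) (.e (nat_lit 164330) (nat_lit 230) (.e (nat_lit 163874) (nat_lit 3) (.e (nat_lit 204831) (nat_lit 18) .nil)))))))) (.g (nat_lit 5) .nil .nil)))) (.nd (nat_lit 6) 
(.lf (nat_lit 188336) (.g (nat_lit 1084) (.e (nat_lit 57931) (nat_lit 282) (.e (nat_lit 163874) (nat_lit 3) (.e (nat_lit 204877) (nat_lit 31) (.e (nat_lit 376838) (nat_lit 11) .nil)))) .nil)) 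
(.lf (nat_lit 188400) (.g (nat_lit 1631) (.e (nat_lit 65542) (nat_lit 0) (.e (nat_lit 6113) (nat_lit 332) (.e (nat_lit 1374) (nat_lit 104) (.e (nat_lit 311040) (nat_lit 30) .nil)))) .nil))))) (.nd (nat_lit 4) (.nd (nat_lit 5) (.nd (nat_lit 6) 
(.lf (nat_lit 188296) (.g (nat_lit 1817) (.e (nat_lit 57931) (nat_lit 282) (.e (nat_lit 163874) (nat_lit 3) (.e (nat_lit 204853) (nat_lit 26) (.e (nat_lit 336211) (nat_lit 13) (.e (nat_lit 393225) (nat_lit 9) .nil))))) .nil)) 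
(.lf (nat_lit 188360) (.g (nat_lit 1141) (.e (nat_lit 57931) (nat_lit 282) (.e (nat_lit 163943) (nat_lit 19) (.e (nat_lit 483406) (nat_lit 26) .nil))) .nil))) (.nd (nat_lit 6) 
(.lf (nat_lit 188328) (.g (nat_lit 4877) (.e (nat_lit 57931) (nat_lit 282) (.e (nat_lit 163874) (nat_lit 3) (.e (nat_lit 204864) (nat_lit 27) (.e (nat_lit 344133) (nat_lit 26) (.e (nat_lit 557105) (nat_lit 14) (.e (nat_lit 180252) (nat_lit 10) (.e (nat_lit 573451) (nat_lit 9) (.e (nat_lit 1174) (nat_lit 87) .nil)))))))) (.g (nat_lit 6) .nil .nil))) 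
(.lf (nat_lit 188392) (.g (nat_lit 1439) (.e (nat_lit 65540) (nat_lit 0) (.e (nat_lit 6218) (nat_lit 333) (.e (nat_lit 57819) (nat_lit 248) (.e (nat_lit 164359) (nat_lit 246) (.e (nat_lit 2963) (nat_lit 185) .nil))))) .nil)))) (.nd (nat_lit 5) (.nd (nat_lit 6) 
(.lf (nat_lit 188312) (.g (nat_lit 2032) (.e (nat_lit 57931) (nat_lit 282) (.e (nat_lit 163874) (nat_lit 3) (.e (nat_lit 204861) (nat_lit 26) (.e (nat_lit 336220) (nat_lit 13) (.e (nat_lit 393229) (nat_lit 9) .nil))))) .nil)) 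
(.lf (nat_lit 188376) (.g (nat_lit 2249) (.e (nat_lit 65536) (nat_lit 0) (.e (nat_lit 6113) (nat_lit 332) (.e (nat_lit 1374) (nat_lit 104) (.e (nat_lit 303155) (nat_lit 29) .nil)))) .nil))) (.nd (nat_lit 6) 
(.lf (nat_lit 188344) (.g (nat_lit 1718) (.e (nat_lit 57931) (nat_lit 282) (.e (nat_lit 163902) (nat_lit 12) (.e (nat_lit 426544) (nat_lit 30) (.e (nat_lit 360466) (nat_lit 3) (.e (nat_lit 516195) (nat_lit 26) .nil))))) .nil)) 
(.lf (nat_lit 188408) (.g (nat_lit 4474) (.e (nat_lit 65543) (nat_lit 0) (.e (nat_lit 1994) (nat_lit 137) (.e (nat_lit 663565) (nat_lit 3) (.e (nat_lit 57478) (nat_lit 28) (.e (nat_lit 557101) (nat_lit 13) (.e (nat_lit 172097) (nat_lit 9) (.e (nat_lit 426125) (nat_lit 2) (.e (nat_lit 196666) (nat_lit 13) .nil)))))))) (.g (nat_lit 8) .nil .nil))))))) 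
(.nd (nat_lit 3) (.nd (nat_lit 4) (.nd (nat_lit 5) (.nd (nat_lit 6) 
(.lf (nat_lit 188292) (.g (nat_lit 1260) (.e (nat_lit 57931) (nat_lit 282) (.e (nat_lit 163874) (nat_lit 3) (.e (nat_lit 204821) (nat_lit 17) .nil))) .nil)) 
(.lf (nat_lit 188356) (.g (nat_lit 1277) (.e (nat_lit 57931) (nat_lit 282) (.e (nat_lit 163905) (nat_lit 12) (.e (nat_lit 426555) (nat_lit 32) (.e (nat_lit 376866) (nat_lit 23) .nil)))) .nil))) (.nd (nat_lit 6) 
(.lf (nat_lit 188324) (.g (nat_lit 4976) (.e (nat_lit 57931) (nat_lit 282) (.e (nat_lit 163874) (nat_lit 3) (.e (nat_lit 204864) (nat_lit 27) (.e (nat_lit 344132) (nat_lit 26) (.e (nat_lit 557105) (nat_lit 14) (.e (nat_lit 180252) (nat_lit 10) (.e (nat_lit 573451) (nat_lit 9) (.e (nat_lit 1174) (nat_lit 87) .nil)))))))) (.g (nat_lit 6) .nil .nil))) 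
(.lf (nat_lit 188388) (.g (nat_lit 2127) (.e (nat_lit 65540) (nat_lit 0) (.e (nat_lit 6113) (nat_lit 332) (.e (nat_lit 1374) (nat_lit 104) (.e (nat_lit 303155) (nat_lit 29) .nil)))) .nil)))) (.nd (nat_lit 5) (.nd (nat_lit 6) 
(.lf (nat_lit 188308) (.g (nat_lit 3788) (.e (nat_lit 57931) (nat_lit 282) (.e (nat_lit 163874) (nat_lit 3) (.e (nat_lit 204861) (nat_lit 26) (.e (nat_lit 336213) (nat_lit 13) (.e (nat_lit 393224) (nat_lit 9) (.e (nat_lit 335988) (nat_lit 1) .nil)))))) (.g (nat_lit 4) .nil .nil))) 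
(.lf (nat_lit 188372) (.g (nat_lit 2308) (.e (nat_lit 65536) (nat_lit 0) (.e (nat_lit 1774) (nat_lit 118) (.e (nat_lit 507923) (nat_lit 6) (.e (nat_lit 286749) (nat_lit 9) (.e (nat_lit 336028) (nat_lit 3) (.e (nat_lit 98325) (nat_lit 17) (.e (nat_lit 7936) (nat_lit 406) .nil))))))) (.g (nat_lit 6) .nil .nil)))) (.nd (nat_lit 6) 
(.lf (nat_lit 188340) (.g (nat_lit 1859) (.e (nat_lit 57931) (nat_lit 282) (.e (nat_lit 163896) (nat_lit 10) (.e (nat_lit 409649) (nat_lit 18) (.e (nat_lit 303132) (nat_lit 9) (.e (nat_lit 433920) (nat_lit 32) .nil))))) .nil)) 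
(.lf (nat_lit 188404) (.g (nat_lit 1111) (.e (nat_lit 65542) (nat_lit 0) (.e (nat_lit 6218) (nat_lit 333) (.e (nat_lit 57819) (nat_lit 248) (.e (nat_lit 164359) (nat_lit 246) (.e (nat_lit 2973) (nat_lit 185) .nil))))) .nil))))) (.nd (nat_lit 4) (.nd (nat_lit 5) (.nd (nat_lit 6) 
(.lf (nat_lit 188300) (.g (nat_lit 1797) (.e (nat_lit 57931) (nat_lit 282) (.e (nat_lit 163874) (nat_lit 3) (.e (nat_lit 204855) (nat_lit 26) (.e (nat_lit 336020) (nat_lit 3) .nil)))) .nil)) 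
(.lf (nat_lit 188364) (.g (nat_lit 3120) (.e (nat_lit 57931) (nat_lit 282) (.e (nat_lit 164084) (nat_lit 73) (.e (nat_lit 335996) (nat_lit 1) (.e (nat_lit 57854) (nat_lit 252) (.e (nat_lit 57363) (nat_lit 1) (.e (nat_lit 57847) (nat_lit 252) (.e (nat_lit 57437) (nat_lit 17) (.e (nat_lit 376860) (nat_lit 21) .nil)))))))) (.g (nat_lit 4) .nil .nil)))) (.nd (nat_lit 6) 
(.lf (nat_lit 188332) (.g (nat_lit 1977) (.e (nat_lit 57931) (nat_lit 282) (.e (nat_lit 163874) (nat_lit 3) (.e (nat_lit 204867) (nat_lit 28) (.e (nat_lit 352277) (nat_lit 11) (.e (nat_lit 426500) (nat_lit 27) .nil))))) .nil)) 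
(.lf (nat_lit 188396) (.g (nat_lit 1913) (.e (nat_lit 65541) (nat_lit 0) (.e (nat_lit 6113) (nat_lit 332) (.e (nat_lit 1374) (nat_lit 104) (.e (nat_lit 303155) (nat_lit 29) .nil)))) .nil)))) (.nd (nat_lit 5) (.nd (nat_lit 6) 
(.lf (nat_lit 188316) (.g (nat_lit 2936) (.e (nat_lit 57931) (nat_lit 282) (.e (nat_lit 163874) (nat_lit 3) (.e (nat_lit 204863) (nat_lit 27) (.e (nat_lit 344117) (nat_lit 21) (.e (nat_lit 516130) (nat_lit 3) (.e (nat_lit 221212) (nat_lit 22) (.e (nat_lit 196635) (nat_lit 9) (.e (nat_lit 1182) (nat_lit 87) .nil)))))))) (.g (nat_lit 4) .nil .nil))) 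
(.lf (nat_lit 188380) (.g (nat_lit 1688) (.e (nat_lit 65537) (nat_lit 0) (.e (nat_lit 6113) (nat_lit 332) (.e (nat_lit 1376) (nat_lit 104) (.e (nat_lit 311040) (nat_lit 30) .nil)))) .nil))) (.nd (nat_lit 6) 
(.lf (nat_lit 188348) (.g (nat_lit 1856) (.e (nat_lit 57931) (nat_lit 282) (.e (nat_lit 163902) (nat_lit 12) (.e (nat_lit 426555) (nat_lit 32) (.e (nat_lit 376868) (nat_lit 23) .nil)))) .nil)) 
(.lf (nat_lit 188412) (.g (nat_lit 1838) (.e (nat_lit 65543) (nat_lit 0) (.e (nat_lit 6113) (nat_lit 332) (.e (nat_lit 1374) (nat_lit 104) (.e (nat_lit 303155) (nat_lit 29) .nil)))) .nil))))))) (.nd (nat_lit 2) (.nd (nat_lit 3) (.nd (nat_lit 4) (.nd (nat_lit 5) (.nd (nat_lit 6) 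
(.lf (nat_lit 188290) (.g (nat_lit 798) (.e (nat_lit 57931) (nat_lit 282) (.e (nat_lit 163873) (nat_lit 3) (.e (nat_lit 204877) (nat_lit 31) .nil))) .nil)) 
(.lf (nat_lit 188354) (.g (nat_lit 1241) (.e (nat_lit 57931) (nat_lit 282) (.e (nat_lit 163905) (nat_lit 12) (.e (nat_lit 426545) (nat_lit 30) (.e (nat_lit 360467) (nat_lit 3) (.e (nat_lit 516195) (nat_lit 26) .nil))))) .nil))) (.nd (nat_lit 6) 
(.lf (nat_lit 188322) (.g (nat_lit 4329) (.e (nat_lit 57931) (nat_lit 282) (.e (nat_lit 163874) (nat_lit 3) (.e (nat_lit 204864) (nat_lit 27) (.e (nat_lit 344130) (nat_lit 26) (.e (nat_lit 557104) (nat_lit 14) (.e (nat_lit 180252) (nat_lit 10) (.e (nat_lit 573451) (nat_lit 9) (.e (nat_lit 1177) (nat_lit 87) .nil)))))))) (.g (nat_lit 6) .nil .nil))) 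
(.lf (nat_lit 188386) (.g (nat_lit 2119) (.e (nat_lit 65539) (nat_lit 0) (.e (nat_lit 6113) (nat_lit 332) (.e (nat_lit 1374) (nat_lit 104) (.e (nat_lit 311040) (nat_lit 30) .nil)))) .nil)))) (.nd (nat_lit 5) (.nd (nat_lit 6) 
(.lf (nat_lit 188306) (.g (nat_lit 1007) (.e (nat_lit 57931) (nat_lit 282) (.e (nat_lit 163874) (nat_lit 3) (.e (nat_lit 204861) (nat_lit 26) (.e (nat_lit 336075) (nat_lit 9) .nil)))) .nil)) 
(.lf (nat_lit 188370) (.g (nat_lit 1710) (.e (nat_lit 57931) (nat_lit 282) (.e (nat_lit 171776) (nat_lit 79) (.e (nat_lit 385105) (nat_lit 50) (.e (nat_lit 786483) (nat_lit 30) (.e (nat_lit 360484) (nat_lit 15) (.e (nat_lit 647195) (nat_lit 9) (.e (nat_lit 1182) (nat_lit 87) .nil))))))) (.g (nat_lit 4) .nil .nil)))) (.nd (nat_lit 6) 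
(.lf (nat_lit 188338) (.g (nat_lit 1406) (.e (nat_lit 57931) (nat_lit 282) (.e (nat_lit 163896) (nat_lit 10) (.e (nat_lit 409648) (nat_lit 18) (.e (nat_lit 303129) (nat_lit 9) .nil)))) .nil)) 
(.lf (nat_lit 188402) (.g (nat_lit 499) (.e (nat_lit 65542) (nat_lit 0) (.e (nat_lit 6218) (nat_lit 333) (.e (nat_lit 65280) (nat_lit 108) .nil))) .nil))))) (.nd (nat_lit 4) (.nd (nat_lit 5) (.nd (nat_lit 6) 
(.lf (nat_lit 188298) (.g (nat_lit 2211) (.e (nat_lit 57931) (nat_lit 282) (.e (nat_lit 163874) (nat_lit 3) (.e (nat_lit 204854) (nat_lit 26) (.e (nat_lit 336210) (nat_lit 13) (.e (nat_lit 393229) (nat_lit 9) .nil))))) .nil)) 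
(.lf (nat_lit 188362) (.g (nat_lit 2015) (.e (nat_lit 57931) (nat_lit 282) (.e (nat_lit 163947) (nat_lit 20) (.e (nat_lit 491563) (nat_lit 12) (.e (nat_lit 385102) (nat_lit 50) .nil)))) .nil))) (.nd (nat_lit 6) 
(.lf (nat_lit 188330) (.g (nat_lit 3807) (.e (nat_lit 57931) (nat_lit 282) (.e (nat_lit 163874) (nat_lit 3) (.e (nat_lit 204864) (nat_lit 27) (.e (nat_lit 344133) (nat_lit 26) (.e (nat_lit 557105) (nat_lit 14) (.e (nat_lit 180252) (nat_lit 10) (.e (nat_lit 573458) (nat_lit 9) (.e (nat_lit 1178) (nat_lit 87) .nil)))))))) (.g (nat_lit 5) .nil .nil))) 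
(.lf (nat_lit 188394) (.g (nat_lit 1454) (.e (nat_lit 65541) (nat_lit 0) (.e (nat_lit 1999) (nat_lit 137) (.e (nat_lit 663565) (nat_lit 3) (.e (nat_lit 57478) (nat_lit 28) (.e (nat_lit 557109) (nat_lit 15) .nil))))) .nil)))) (.nd (nat_lit 5) (.nd (nat_lit 6) 
(.lf (nat_lit 188314) (.g (nat_lit 3083) (.e (nat_lit 57931) (nat_lit 282) (.e (nat_lit 163874) (nat_lit 3) (.e (nat_lit 204862) (nat_lit 27) (.e (nat_lit 344117) (nat_lit 21) (.e (nat_lit 516130) (nat_lit 3) (.e (nat_lit 221212) (nat_lit 22) (.e (nat_lit 196635) (nat_lit 9) (.e (nat_lit 1182) (nat_lit 87) .nil)))))))) (.g (nat_lit 4) .nil .nil))) 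
(.lf (nat_lit 188378) (.g (nat_lit 2167) (.e (nat_lit 65537) (nat_lit 0) (.e (nat_lit 6113) (nat_lit 332) (.e (nat_lit 1374) (nat_lit 104) (.e (nat_lit 303155) (nat_lit 29) .nil)))) .nil))) (.nd (nat_lit 6) 
(.lf (nat_lit 188346) (.g (nat_lit 3230) (.e (nat_lit 57931) (nat_lit 282) (.e (nat_lit 163902) (nat_lit 12) (.e (nat_lit 426545) (nat_lit 30) (.e (nat_lit 360475) (nat_lit 8) (.e (nat_lit 557119) (nat_lit 18) (.e (nat_lit 2783) (nat_lit 179) (.e (nat_lit 294925) (nat_lit 1) .nil))))))) (.g (nat_lit 5) .nil .nil))) 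
(.lf (nat_lit 188410) (.g (nat_lit 3748) (.e (nat_lit 65543) (nat_lit 0) (.e (nat_lit 1999) (nat_lit 137) (.e (nat_lit 663565) (nat_lit 3) (.e (nat_lit 57478) (nat_lit 28) (.e (nat_lit 557107) (nat_lit 15) (.e (nat_lit 188447) (nat_lit 22) (.e (nat_lit 196666) (nat_lit 13) .nil))))))) (.g (nat_lit 7) .nil .nil))))))) (.nd (nat_lit 3) (.nd (nat_lit 4) (.nd (nat_lit 5) (.nd (nat_lit 6) 
(.lf (nat_lit 188294) (.g (nat_lit 1003) (.e (nat_lit 57931) (nat_lit 282) (.e (nat_lit 163874) (nat_lit 3) (.e (nat_lit 204851) (nat_lit 26) .nil))) .nil)) 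
(.lf (nat_lit 188358) (.g (nat_lit 627) (.e (nat_lit 57931) (nat_lit 282) (.e (nat_lit 163941) (nat_lit 19) (.e (nat_lit 483394) (nat_lit 24) .nil))) .nil))) (.nd (nat_lit 6) 
(.lf (nat_lit 188326) (.g (nat_lit 4230) (.e (nat_lit 57931) (nat_lit 282) (.e (nat_lit 163874) (nat_lit 3) (.e (nat_lit 204864) (nat_lit 27) (.e (nat_lit 344133) (nat_lit 26) (.e (nat_lit 557105) (nat_lit 14) (.e (nat_lit 180252) (nat_lit 10) (.e (nat_lit 573449) (nat_lit 9) (.e (nat_lit 1183) (nat_lit 87) .nil)))))))) (.g (nat_lit 5) .nil .nil))) 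
(.lf (nat_lit 188390) (.g (nat_lit 1778) (.e (nat_lit 65540) (nat_lit 0) (.e (nat_lit 6113) (nat_lit 332) (.e (nat_lit 1376) (nat_lit 104) (.e (nat_lit 311040) (nat_lit 30) .nil)))) .nil)))) (.nd (nat_lit 5) (.nd (nat_lit 6) 
(.lf (nat_lit 188310) (.g (nat_lit 3388) (.e (nat_lit 57931) (nat_lit 282) (.e (nat_lit 163874) (nat_lit 3) (.e (nat_lit 204861) (nat_lit 26) (.e (nat_lit 336213) (nat_lit 13) (.e (nat_lit 393225) (nat_lit 9) (.e (nat_lit 335993) (nat_lit 1) .nil)))))) (.g (nat_lit 5) .nil .nil))) 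
(.lf (nat_lit 188374) (.g (nat_lit 2227) (.e (nat_lit 65536) (nat_lit 0) (.e (nat_lit 1788) (nat_lit 119) (.e (nat_lit 516195) (nat_lit 26) (.e (nat_lit 336288) (nat_lit 15) (.e (nat_lit 7936) (nat_lit 195) .nil))))) .nil))) (.nd (nat_lit 6) 
(.lf (nat_lit 188342) (.g (nat_lit 1764) (.e (nat_lit 57931) (nat_lit 282) (.e (nat_lit 163902) (nat_lit 12) (.e (nat_lit 426538) (nat_lit 29) (.e (nat_lit 352315) (nat_lit 23) (.e (nat_lit 98312) (nat_lit 9) .nil))))) .nil)) 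
(.lf (nat_lit 188406) (.g (nat_lit 419) (.e (nat_lit 65542) (nat_lit 0) (.e (nat_lit 6218) (nat_lit 333) (.e (nat_lit 57863) (nat_lit 256) .nil))) .nil))))) (.nd (nat_lit 4) (.nd (nat_lit 5) (.nd (nat_lit 6) 
(.lf (nat_lit 188302) (.g (nat_lit 365) (.e (nat_lit 57931) (nat_lit 282) (.e (nat_lit 163874) (nat_lit 3) (.e (nat_lit 204858) (nat_lit 26) .nil))) .nil)) 
(.lf (nat_lit 188366) (.g (nat_lit 2463) (.e (nat_lit 57931) (nat_lit 282) (.e (nat_lit 164084) (nat_lit 73) (.e (nat_lit 336021) (nat_lit 3) (.e (nat_lit 98313) (nat_lit 9) (.e (nat_lit 335996) (nat_lit 1) .nil))))) .nil))) (.nd (nat_lit 6) 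
(.lf (nat_lit 188334) (.g (nat_lit 2559) (.e (nat_lit 57931) (nat_lit 282) (.e (nat_lit 163874) (nat_lit 3) (.e (nat_lit 204872) (nat_lit 30) (.e (nat_lit 368676) (nat_lit 21) (.e (nat_lit 516131) (nat_lit 3) (.e (nat_lit 221212) (nat_lit 22) (.e (nat_lit 196632) (nat_lit 9) (.e (nat_lit 1180) (nat_lit 87) .nil)))))))) (.g (nat_lit 5) .nil .nil))) 
(.lf (nat_lit 188398) (.g (nat_lit 1658) (.e (nat_lit 65541) (nat_lit 0) (.e (nat_lit 6113) (nat_lit 332) (.e (nat_lit 1376) (nat_lit 104) (.e (nat_lit 311040) (nat_lit 30) .nil)))) .nil)))) (.nd (nat_lit 5) (.nd (nat_lit 6) 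
(.lf (nat_lit 188318) (.g (nat_lit 3167) (.e (nat_lit 57931) (nat_lit 282) (.e (nat_lit 163874) (nat_lit 3) (.e (nat_lit 204863) (nat_lit 27) (.e (nat_lit 344133) (nat_lit 26) (.e (nat_lit 557105) (nat_lit 14) (.e (nat_lit 180252) (nat_lit 10) (.e (nat_lit 573451) (nat_lit 9) (.e (nat_lit 1177) (nat_lit 87) .nil)))))))) (.g (nat_lit 4) .nil .nil))) 
(.lf (nat_lit 188382) (.g (nat_lit 1142) (.e (nat_lit 65537) (nat_lit 0) (.e (nat_lit 6681) (nat_lit 357) (.e (nat_lit 2664) (nat_lit 167) (.e (nat_lit 196672) (nat_lit 15) (.e (nat_lit 81943) (nat_lit 20) .nil))))) .nil))) (.nd (nat_lit 6) 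
(.lf (nat_lit 188350) (.g (nat_lit 1218) (.e (nat_lit 57931) (nat_lit 282) (.e (nat_lit 163904) (nat_lit 12) (.e (nat_lit 426555) (nat_lit 32) (.e (nat_lit 376868) (nat_lit 23) .nil)))) .nil)) 
(.lf (nat_lit 188414) (.g (nat_lit 2161) (.e (nat_lit 65543) (nat_lit 0) (.e (nat_lit 6113) (nat_lit 332) (.e (nat_lit 1374) (nat_lit 104) (.e (nat_lit 311040) (nat_lit 30) .nil)))) .nil)))))))) (.nd (nat_lit 1) (.nd (nat_lit 2) (.nd (nat_lit 3) (.nd (nat_lit 4) (.nd (nat_lit 5) (.nd (nat_lit 6) 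
(.lf (nat_lit 188289) (.g (nat_lit 1128) (.e (nat_lit 57931) (nat_lit 282) (.e (nat_lit 163873) (nat_lit 3) (.e (nat_lit 204876) (nat_lit 31) (.e (nat_lit 384768) (nat_lit 18) .nil)))) .nil)) 
(.lf (nat_lit 188353) (.g (nat_lit 1652) (.e (nat_lit 57931) (nat_lit 282) (.e (nat_lit 163905) (nat_lit 12) (.e (nat_lit 426544) (nat_lit 30) (.e (nat_lit 360466) (nat_lit 3) (.e (nat_lit 516195) (nat_lit 26) .nil))))) .nil))) (.nd (nat_lit 6) 
(.lf (nat_lit 188321) (.g (nat_lit 3653) (.e (nat_lit 57931) (nat_lit 282) (.e (nat_lit 163874) (nat_lit 3) (.e (nat_lit 204864) (nat_lit 27) (.e (nat_lit 344117) (nat_lit 21) (.e (nat_lit 516130) (nat_lit 3) (.e (nat_lit 221204) (nat_lit 20) (.e (nat_lit 3253) (nat_lit 197) (.e (nat_lit 532503) (nat_lit 1) .nil)))))))) (.g (nat_lit 4) .nil .nil))) 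
(.lf (nat_lit 188385) (.g (nat_lit 1620) (.e (nat_lit 65539) (nat_lit 0) (.e (nat_lit 6113) (nat_lit 332) (.e (nat_lit 1374) (nat_lit 104) (.e (nat_lit 303155) (nat_lit 29) .nil)))) .nil)))) (.nd (nat_lit 5) (.nd (nat_lit 6) 
(.lf (nat_lit 188305) (.g (nat_lit 1027) (.e (nat_lit 57931) (nat_lit 282) (.e (nat_lit 163874) (nat_lit 3) (.e (nat_lit 204860) (nat_lit 26) .nil))) .nil)) 
(.lf (nat_lit 188369) (.g (nat_lit 1079) (.e (nat_lit 57931) (nat_lit 282) (.e (nat_lit 164084) (nat_lit 73) (.e (nat_lit 336027) (nat_lit 3) (.e (nat_lit 98384) (nat_lit 32) .nil)))) .nil))) (.nd (nat_lit 6) 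
(.lf (nat_lit 188337) (.g (nat_lit 1658) (.e (nat_lit 57931) (nat_lit 282) (.e (nat_lit 163896) (nat_lit 10) (.e (nat_lit 409616) (nat_lit 10) (.e (nat_lit 5767) (nat_lit 316) .nil)))) .nil)) 
(.lf (nat_lit 188401) (.g (nat_lit 560) (.e (nat_lit 65542) (nat_lit 0) (.e (nat_lit 6218) (nat_lit 333) (.e (nat_lit 57606) (nat_lit 107) .nil))) .nil))))) (.nd (nat_lit 4) (.nd (nat_lit 5) (.nd (nat_lit 6) 
(.lf (nat_lit 188297) (.g (nat_lit 3346) (.e (nat_lit 57931) (nat_lit 282) (.e (nat_lit 163874) (nat_lit 3) (.e (nat_lit 204854) (nat_lit 26) (.e (nat_lit 336019) (nat_lit 3) (.e (nat_lit 98342) (nat_lit 20) (.e (nat_lit 221212) (nat_lit 22) (.e (nat_lit 196635) (nat_lit 9) (.e (nat_lit 1182) (nat_lit 87) .nil)))))))) (.g (nat_lit 5) .nil .nil))) 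
(.lf (nat_lit 188361) (.g (nat_lit 987) (.e (nat_lit 57931) (nat_lit 282) (.e (nat_lit 163947) (nat_lit 20) (.e (nat_lit 491558) (nat_lit 10) (.e (nat_lit 344169) (nat_lit 40) .nil)))) .nil))) (.nd (nat_lit 6) 
(.lf (nat_lit 188329) (.g (nat_lit 5072) (.e (nat_lit 57931) (nat_lit 282) (.e (nat_lit 163874) (nat_lit 3) (.e (nat_lit 204864) (nat_lit 27) (.e (nat_lit 344133) (nat_lit 26) (.e (nat_lit 557105) (nat_lit 14) (.e (nat_lit 180252) (nat_lit 10) (.e (nat_lit 573451) (nat_lit 9) (.e (nat_lit 1177) (nat_lit 87) .nil)))))))) (.g (nat_lit 6) .nil .nil))) 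
(.lf (nat_lit 188393) (.g (nat_lit 1275) (.e (nat_lit 65540) (nat_lit 0) (.e (nat_lit 6218) (nat_lit 333) (.e (nat_lit 57819) (nat_lit 248) (.e (nat_lit 164359) (nat_lit 246) (.e (nat_lit 2973) (nat_lit 185) .nil))))) .nil)))) (.nd (nat_lit 5) (.nd (nat_lit 6) 
(.lf (nat_lit 188313) (.g (nat_lit 3425) (.e (nat_lit 57931) (nat_lit 282) (.e (nat_lit 163874) (nat_lit 3) (.e (nat_lit 204862) (nat_lit 27) (.e (nat_lit 344117) (nat_lit 21) (.e (nat_lit 516099) (nat_lit 0) .nil))))) .nil)) 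
(.lf (nat_lit 188377) (.g (nat_lit 1756) (.e (nat_lit 65537) (nat_lit 0) (.e (nat_lit 1873) (nat_lit 126) (.e (nat_lit 573489) (nat_lit 14) (.e (nat_lit 73755) (nat_lit 8) (.e (nat_lit 557098) (nat_lit 13) .nil))))) .nil))) (.nd (nat_lit 6) 
(.lf (nat_lit 188345) (.g (nat_lit 2017) (.e (nat_lit 57931) (nat_lit 282) (.e (nat_lit 163902) (nat_lit 12) (.e (nat_lit 426545) (nat_lit 30) (.e (nat_lit 360475) (nat_lit 8) (.e (nat_lit 564992) (nat_lit 4) .nil))))) .nil)) 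
(.lf (nat_lit 188409) (.g (nat_lit 3748) (.e (nat_lit 65543) (nat_lit 0) (.e (nat_lit 1998) (nat_lit 137) (.e (nat_lit 663565) (nat_lit 3) (.e (nat_lit 57478) (nat_lit 28) (.e (nat_lit 557107) (nat_lit 15) (.e (nat_lit 188447) (nat_lit 22) (.e (nat_lit 196666) (nat_lit 13) .nil))))))) (.g (nat_lit 7) .nil .nil))))))) (.nd (nat_lit 3) (.nd (nat_lit 4) (.nd (nat_lit 5) (.nd (nat_lit 6) 
(.lf (nat_lit 188293) (.g (nat_lit 855) (.e (nat_lit 57931) (nat_lit 282) (.e (nat_lit 163874) (nat_lit 3) (.e (nat_lit 204850) (nat_lit 26) .nil))) .nil)) 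
(.lf (nat_lit 188357) (.g (nat_lit 834) (.e (nat_lit 57931) (nat_lit 282) (.e (nat_lit 163905) (nat_lit 12) (.e (nat_lit 426555) (nat_lit 32) (.e (nat_lit 376867) (nat_lit 23) .nil)))) .nil))) (.nd (nat_lit 6) 
(.lf (nat_lit 188325) (.g (nat_lit 3557) (.e (nat_lit 57931) (nat_lit 282) (.e (nat_lit 163874) (nat_lit 3) (.e (nat_lit 204864) (nat_lit 27) (.e (nat_lit 344132) (nat_lit 26) (.e (nat_lit 557105) (nat_lit 14) (.e (nat_lit 180252) (nat_lit 10) (.e (nat_lit 573458) (nat_lit 9) (.e (nat_lit 1180) (nat_lit 87) .nil)))))))) (.g (nat_lit 5) .nil .nil))) 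
(.lf (nat_lit 188389) (.g (nat_lit 1787) (.e (nat_lit 65540) (nat_lit 0) (.e (nat_lit 6113) (nat_lit 332) (.e (nat_lit 1376) (nat_lit 104) (.e (nat_lit 303155) (nat_lit 29) .nil)))) .nil)))) (.nd (nat_lit 5) (.nd (nat_lit 6) 
(.lf (nat_lit 188309) (.g (nat_lit 4702) (.e (nat_lit 57931) (nat_lit 282) (.e (nat_lit 163874) (nat_lit 3) (.e (nat_lit 204861) (nat_lit 26) (.e (nat_lit 336213) (nat_lit 13) (.e (nat_lit 393225) (nat_lit 9) (.e (nat_lit 335988) (nat_lit 1) .nil)))))) (.g (nat_lit 0) .nil .nil))) 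
(.lf (nat_lit 188373) (.g (nat_lit 1228) (.e (nat_lit 65536) (nat_lit 0) (.e (nat_lit 1788) (nat_lit 119) (.e (nat_lit 516185) (nat_lit 16) (.e (nat_lit 491558) (nat_lit 10) .nil)))) .nil))) (.nd (nat_lit 6) 
(.lf (nat_lit 188341) (.g (nat_lit 1009) (.e (nat_lit 57931) (nat_lit 282) (.e (nat_lit 163902) (nat_lit 12) (.e (nat_lit 426502) (nat_lit 27) (.e (nat_lit 336186) (nat_lit 11) .nil)))) .nil)) 
(.lf (nat_lit 188405) (.g (nat_lit 418) (.e (nat_lit 65542) (nat_lit 0) (.e (nat_lit 6218) (nat_lit 333) (.e (nat_lit 57862) (nat_lit 256) .nil))) .nil))))) (.nd (nat_lit 4) (.nd (nat_lit 5) (.nd (nat_lit 6) 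
(.lf (nat_lit 188301) (.g (nat_lit 1019) (.e (nat_lit 57931) (nat_lit 282) (.e (nat_lit 163874) (nat_lit 3) (.e (nat_lit 204856) (nat_lit 26) .nil))) .nil)) 
(.lf (nat_lit 188365) (.g (nat_lit 4897) (.e (nat_lit 57931) (nat_lit 282) (.e (nat_lit 164084) (nat_lit 73) (.e (nat_lit 336012) (nat_lit 2) (.e (nat_lit 90185) (nat_lit 17) (.e (nat_lit 237582) (nat_lit 1) (.e (nat_lit 164332) (nat_lit 230) (.e (nat_lit 163874) (nat_lit 3) (.e (nat_lit 204831) (nat_lit 18) .nil)))))))) (.g (nat_lit 7) .nil .nil)))) (.nd (nat_lit 6) 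
(.lf (nat_lit 188333) (.g (nat_lit 2303) (.e (nat_lit 57931) (nat_lit 282) (.e (nat_lit 163874) (nat_lit 3) (.e (nat_lit 204872) (nat_lit 30) (.e (nat_lit 368676) (nat_lit 21) (.e (nat_lit 516131) (nat_lit 3) (.e (nat_lit 221212) (nat_lit 22) (.e (nat_lit 196632) (nat_lit 9) (.e (nat_lit 1178) (nat_lit 87) .nil)))))))) (.g (nat_lit 4) .nil .nil))) 
(.lf (nat_lit 188397) (.g (nat_lit 1506) (.e (nat_lit 65541) (nat_lit 0) (.e (nat_lit 6113) (nat_lit 332) (.e (nat_lit 1376) (nat_lit 104) (.e (nat_lit 303155) (nat_lit 29) .nil)))) .nil)))) (.nd (nat_lit 5) (.nd (nat_lit 6) 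
(.lf (nat_lit 188317) (.g (nat_lit 2985) (.e (nat_lit 57931) (nat_lit 282) (.e (nat_lit 163874) (nat_lit 3) (.e (nat_lit 204863) (nat_lit 27) (.e (nat_lit 344132) (nat_lit 26) (.e (nat_lit 557105) (nat_lit 14) (.e (nat_lit 180252) (nat_lit 10) (.e (nat_lit 573451) (nat_lit 9) (.e (nat_lit 1177) (nat_lit 87) .nil)))))))) (.g (nat_lit 4) .nil .nil))) 
(.lf (nat_lit 188381) (.g (nat_lit 1378) (.e (nat_lit 65537) (nat_lit 0) (.e (nat_lit 6218) (nat_lit 333) (.e (nat_lit 57819) (nat_lit 248) (.e (nat_lit 164359) (nat_lit 246) (.e (nat_lit 2979) (nat_lit 185) .nil))))) .nil))) (.nd (nat_lit 6) 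
(.lf (nat_lit 188349) (.g (nat_lit 1413) (.e (nat_lit 57931) (nat_lit 282) (.e (nat_lit 163902) (nat_lit 12) (.e (nat_lit 426556) (nat_lit 32) (.e (nat_lit 376862) (nat_lit 22) (.e (nat_lit 90158) (nat_lit 11) .nil))))) .nil)) 
(.lf (nat_lit 188413) (.g (nat_lit 1934) (.e (nat_lit 65543) (nat_lit 0) (.e (nat_lit 6113) (nat_lit 332) (.e (nat_lit 1374) (nat_lit 104) (.e (nat_lit 303155) (nat_lit 29) (.e (nat_lit 352287) (nat_lit 20) .nil))))) .nil))))))) (.nd (nat_lit 2) (.nd (nat_lit 3) (.nd (nat_lit 4) (.nd (nat_lit 5) (.nd (nat_lit 6) 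
(.lf (nat_lit 188291) (.g (nat_lit 1260) (.e (nat_lit 57931) (nat_lit 282) (.e (nat_lit 163874) (nat_lit 3) (.e (nat_lit 204816) (nat_lit 17) .nil))) .nil)) 
(.lf (nat_lit 188355) (.g (nat_lit 2624) (.e (nat_lit 57931) (nat_lit 282) (.e (nat_lit 163905) (nat_lit 12) (.e (nat_lit 426545) (nat_lit 30) (.e (nat_lit 360475) (nat_lit 8) (.e (nat_lit 557119) (nat_lit 18) (.e (nat_lit 2783) (nat_lit 179) (.e (nat_lit 294925) (nat_lit 1) .nil))))))) (.g (nat_lit 5) .nil .nil)))) (.nd (nat_lit 6) 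
(.lf (nat_lit 188323) (.g (nat_lit 4700) (.e (nat_lit 57931) (nat_lit 282) (.e (nat_lit 163874) (nat_lit 3) (.e (nat_lit 204864) (nat_lit 27) (.e (nat_lit 344132) (nat_lit 26) (.e (nat_lit 557105) (nat_lit 14) (.e (nat_lit 180252) (nat_lit 10) (.e (nat_lit 573451) (nat_lit 9) (.e (nat_lit 1169) (nat_lit 87) .nil)))))))) (.g (nat_lit 6) .nil .nil))) 
(.lf (nat_lit 188387) (.g (nat_lit 1136) (.e (nat_lit 65539) (nat_lit 0) (.e (nat_lit 6113) (nat_lit 332) (.e (nat_lit 1376) (nat_lit 104) (.e (nat_lit 303155) (nat_lit 29) .nil)))) .nil)))) (.nd (nat_lit 5) (.nd (nat_lit 6) 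
(.lf (nat_lit 188307) (.g (nat_lit 1022) (.e (nat_lit 57931) (nat_lit 282) (.e (nat_lit 163874) (nat_lit 3) (.e (nat_lit 204861) (nat_lit 26) (.e (nat_lit 336076) (nat_lit 9) .nil)))) .nil)) 
(.lf (nat_lit 188371) (.g (nat_lit 2714) (.e (nat_lit 65536) (nat_lit 0) (.e (nat_lit 1774) (nat_lit 118) (.e (nat_lit 507923) (nat_lit 6) (.e (nat_lit 286747) (nat_lit 9) (.e (nat_lit 336013) (nat_lit 2) (.e (nat_lit 90165) (nat_lit 12) (.e (nat_lit 171776) (nat_lit 191) .nil))))))) (.g (nat_lit 6) .nil .nil)))) (.nd (nat_lit 6) 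
(.lf (nat_lit 188339) (.g (nat_lit 1963) (.e (nat_lit 57931) (nat_lit 282) (.e (nat_lit 163896) (nat_lit 10) (.e (nat_lit 409649) (nat_lit 18) (.e (nat_lit 303128) (nat_lit 9) .nil)))) .nil)) 
(.lf (nat_lit 188403) (.g (nat_lit 1275) (.e (nat_lit 65542) (nat_lit 0) (.e (nat_lit 6218) (nat_lit 333) (.e (nat_lit 57819) (nat_lit 248) (.e (nat_lit 164359) (nat_lit 246) (.e (nat_lit 2963) (nat_lit 185) .nil))))) .nil))))) (.nd (nat_lit 4) (.nd (nat_lit 5) (.nd (nat_lit 6) 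
(.lf (nat_lit 188299) (.g (nat_lit 1435) (.e (nat_lit 57931) (nat_lit 282) (.e (nat_lit 163874) (nat_lit 3) (.e (nat_lit 204854) (nat_lit 26) (.e (nat_lit 336211) (nat_lit 13) (.e (nat_lit 393225) (nat_lit 9) .nil))))) .nil)) 
(.lf (nat_lit 188363) (.g (nat_lit 2766) (.e (nat_lit 57931) (nat_lit 282) (.e (nat_lit 164084) (nat_lit 73) (.e (nat_lit 335996) (nat_lit 1) (.e (nat_lit 57852) (nat_lit 252) (.e (nat_lit 57363) (nat_lit 1) .nil))))) .nil))) (.nd (nat_lit 6) 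
(.lf (nat_lit 188331) (.g (nat_lit 1264) (.e (nat_lit 57931) (nat_lit 282) (.e (nat_lit 163874) (nat_lit 3) (.e (nat_lit 204867) (nat_lit 28) .nil))) .nil)) 
(.lf (nat_lit 188395) (.g (nat_lit 99) (.e (nat_lit 65541) (nat_lit 0) (.e (nat_lit 2375) (nat_lit 154) (.e (nat_lit 802826) (nat_lit 11) .nil))) .nil)))) (.nd (nat_lit 5) (.nd (nat_lit 6) 
(.lf (nat_lit 188315) (.g (nat_lit 4032) (.e (nat_lit 57931) (nat_lit 282) (.e (nat_lit 163874) (nat_lit 3) (.e (nat_lit 204862) (nat_lit 27) (.e (nat_lit 344117) (nat_lit 21) (.e (nat_lit 516130) (nat_lit 3) (.e (nat_lit 221215) (nat_lit 23) (.e (nat_lit 204828) (nat_lit 18) .nil))))))) (.g (nat_lit 5) .nil .nil))) 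
(.lf (nat_lit 188379) (.g (nat_lit 1691) (.e (nat_lit 65537) (nat_lit 0) (.e (nat_lit 6113) (nat_lit 332) (.e (nat_lit 1376) (nat_lit 104) (.e (nat_lit 303155) (nat_lit 29) .nil)))) .nil))) (.nd (nat_lit 6) 
(.lf (nat_lit 188347) (.g (nat_lit 1913) (.e (nat_lit 57931) (nat_lit 282) (.e (nat_lit 163902) (nat_lit 12) (.e (nat_lit 426555) (nat_lit 32) (.e (nat_lit 376866) (nat_lit 23) (.e (nat_lit 98317) (nat_lit 9) .nil))))) .nil)) 
(.lf (nat_lit 188411) (.g (nat_lit 4087) (.e (nat_lit 65543) (nat_lit 0) (.e (nat_lit 1999) (nat_lit 137) (.e (nat_lit 663565) (nat_lit 3) (.e (nat_lit 57478) (nat_lit 28) (.e (nat_lit 557109) (nat_lit 15) (.e (nat_lit 188449) (nat_lit 22) (.e (nat_lit 196666) (nat_lit 13) .nil))))))) (.g (nat_lit 7) .nil .nil))))))) (.nd (nat_lit 3) (.nd (nat_lit 4) (.nd (nat_lit 5) (.nd (nat_lit 6) 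
(.lf (nat_lit 188295) (.g (nat_lit 2066) (.e (nat_lit 57931) (nat_lit 282) (.e (nat_lit 163874) (nat_lit 3) (.e (nat_lit 204851) (nat_lit 26) (.e (nat_lit 336211) (nat_lit 13) (.e (nat_lit 393224) (nat_lit 9) .nil))))) .nil)) 
(.lf (nat_lit 188359) (.g (nat_lit 1501) (.e (nat_lit 57931) (nat_lit 282) (.e (nat_lit 163941) (nat_lit 19) (.e (nat_lit 483408) (nat_lit 26) (.e (nat_lit 392960) (nat_lit 24) .nil)))) .nil))) (.nd (nat_lit 6) 
(.lf (nat_lit 188327) (.g (nat_lit 4601) (.e (nat_lit 57931) (nat_lit 282) (.e (nat_lit 163874) (nat_lit 3) (.e (nat_lit 204864) (nat_lit 27) (.e (nat_lit 344133) (nat_lit 26) (.e (nat_lit 557105) (nat_lit 14) (.e (nat_lit 180252) (nat_lit 10) (.e (nat_lit 573451) (nat_lit 9) (.e (nat_lit 1169) (nat_lit 87) .nil)))))))) (.g (nat_lit 6) .nil .nil))) 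
(.lf (nat_lit 188391) (.g (nat_lit 760) (.e (nat_lit 65540) (nat_lit 0) (.e (nat_lit 6218) (nat_lit 333) (.e (nat_lit 57819) (nat_lit 248) (.e (nat_lit 164359) (nat_lit 246) .nil)))) .nil)))) (.nd (nat_lit 5) (.nd (nat_lit 6) 
(.lf (nat_lit 188311) (.g (nat_lit 3750) (.e (nat_lit 57931) (nat_lit 282) (.e (nat_lit 163874) (nat_lit 3) (.e (nat_lit 204861) (nat_lit 26) (.e (nat_lit 336213) (nat_lit 13) (.e (nat_lit 393229) (nat_lit 9) (.e (nat_lit 335996) (nat_lit 1) .nil)))))) (.g (nat_lit 0) .nil .nil))) 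
(.lf (nat_lit 188375) (.g (nat_lit 850) (.e (nat_lit 65536) (nat_lit 0) (.e (nat_lit 2270) (nat_lit 149) (.e (nat_lit 761868) (nat_lit 5) (.e (nat_lit 1574) (nat_lit 110) (.e (nat_lit 360192) (nat_lit 12) .nil))))) .nil))) (.nd (nat_lit 6) 
(.lf (nat_lit 188343) (.g (nat_lit 1724) (.e (nat_lit 57931) (nat_lit 282) (.e (nat_lit 163902) (nat_lit 12) (.e (nat_lit 426539) (nat_lit 29) (.e (nat_lit 352315) (nat_lit 23) (.e (nat_lit 98313) (nat_lit 9) .nil))))) .nil)) 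
(.lf (nat_lit 188407) (.g (nat_lit 430) (.e (nat_lit 65542) (nat_lit 0) (.e (nat_lit 6218) (nat_lit 333) (.e (nat_lit 57864) (nat_lit 256) .nil))) .nil))))) (.nd (nat_lit 4) (.nd (nat_lit 5) (.nd (nat_lit 6) 
(.lf (nat_lit 188303) (.g (nat_lit 363) (.e (nat_lit 57931) (nat_lit 282) (.e (nat_lit 163874) (nat_lit 3) (.e (nat_lit 204859) (nat_lit 26) .nil))) .nil)) 
(.lf (nat_lit 188367) (.g (nat_lit 4700) (.e (nat_lit 57931) (nat_lit 282) (.e (nat_lit 164084) (nat_lit 73) (.e (nat_lit 336027) (nat_lit 3) (.e (nat_lit 98365) (nat_lit 26) (.e (nat_lit 426099) (nat_lit 1) (.e (nat_lit 164332) (nat_lit 230) (.e (nat_lit 163874) (nat_lit 3) (.e (nat_lit 204831) (nat_lit 18) .nil)))))))) (.g (nat_lit 7) .nil .nil)))) (.nd (nat_lit 6) 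
(.lf (nat_lit 188335) (.g (nat_lit 3626) (.e (nat_lit 57931) (nat_lit 282) (.e (nat_lit 163874) (nat_lit 3) (.e (nat_lit 204872) (nat_lit 30) (.e (nat_lit 368676) (nat_lit 21) (.e (nat_lit 516131) (nat_lit 3) (.e (nat_lit 221212) (nat_lit 22) (.e (nat_lit 196635) (nat_lit 9) (.e (nat_lit 1182) (nat_lit 87) .nil)))))))) (.g (nat_lit 6) .nil .nil))) 
(.lf (nat_lit 188399) (.g (nat_lit 1237) (.e (nat_lit 65542) (nat_lit 0) (.e (nat_lit 6113) (nat_lit 332) (.e (nat_lit 1374) (nat_lit 104) (.e (nat_lit 303155) (nat_lit 29) .nil)))) .nil)))) (.nd (nat_lit 5) (.nd (nat_lit 6) 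
(.lf (nat_lit 188319) (.g (nat_lit 1104) (.e (nat_lit 57931) (nat_lit 282) (.e (nat_lit 163874) (nat_lit 3) (.e (nat_lit 204864) (nat_lit 27) .nil))) .nil)) 
(.lf (nat_lit 188383) (.g (nat_lit 693) (.e (nat_lit 65538) (nat_lit 0) (.e (nat_lit 6510) (nat_lit 345) (.e (nat_lit 16471) (nat_lit 14) (.e (nat_lit 491560) (nat_lit 10) .nil)))) .nil))) (.nd (nat_lit 6) 
(.lf (nat_lit 188351) (.g (nat_lit 558) (.e (nat_lit 57931) (nat_lit 282) (.e (nat_lit 163905) (nat_lit 12) (.e (nat_lit 426482) (nat_lit 27) .nil))) .nil)) 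
(.lf (nat_lit 188415) (.g (nat_lit 1271) (.e (nat_lit 65543) (nat_lit 0) (.e (nat_lit 6113) (nat_lit 332) (.e (nat_lit 1376) (nat_lit 104) (.e (nat_lit 303155) (nat_lit 29) .nil)))) .nil)))))))))

noncomputable def tv2497 : DT := (.nd (nat_lit 0) (.nd (nat_lit 1) (.nd (nat_lit 2) (.nd (nat_lit 3) (.nd (nat_lit 4) (.nd (nat_lit 5) (.nd (nat_lit 6) 
(.lf (nat_lit 188416) (.g (nat_lit 466) (.e (nat_lit 65543) (nat_lit 0) (.e (nat_lit 6218) (nat_lit 333) (.e (nat_lit 57819) (nat_lit 248) .nil))) .nil)) 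
(.lf (nat_lit 188480) (.g (nat_lit 2732) (.e (nat_lit 65552) (nat_lit 0) (.e (nat_lit 1858) (nat_lit 124) (.e (nat_lit 557100) (nat_lit 13) (.e (nat_lit 172138) (nat_lit 15) .nil)))) .nil))) (.nd (nat_lit 6) 
(.lf (nat_lit 188448) (.g (nat_lit 2036) (.e (nat_lit 65547) (nat_lit 0) (.e (nat_lit 1842) (nat_lit 123) (.e (nat_lit 548889) (nat_lit 9) (.e (nat_lit 65619) (nat_lit 10) (.e (nat_lit 344117) (nat_lit 21) .nil))))) .nil)) 
(.lf (nat_lit 188512) (.g (nat_lit 1299) (.e (nat_lit 65559) (nat_lit 0) (.e (nat_lit 1842) (nat_lit 123) (.e (nat_lit 548874) (nat_lit 5) (.e (nat_lit 1598) (nat_lit 111) .nil)))) .nil)))) (.nd (nat_lit 5) (.nd (nat_lit 6) 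
(.lf (nat_lit 188432) (.g (nat_lit 819) (.e (nat_lit 65546) (nat_lit 0) (.e (nat_lit 2281) (nat_lit 150) (.e (nat_lit 770057) (nat_lit 5) (.e (nat_lit 1575) (nat_lit 110) .nil)))) .nil)) 
(.lf (nat_lit 188496) (.g (nat_lit 2033) (.e (nat_lit 65553) (nat_lit 0) (.e (nat_lit 1842) (nat_lit 123) (.e (nat_lit 548889) (nat_lit 9) (.e (nat_lit 65619) (nat_lit 10) (.e (nat_lit 344117) (nat_lit 21) .nil))))) .nil))) (.nd (nat_lit 6) 
(.lf (nat_lit 188464) (.g (nat_lit 2453) (.e (nat_lit 65550) (nat_lit 0) (.e (nat_lit 1788) (nat_lit 119) (.e (nat_lit 516151) (nat_lit 9) (.e (nat_lit 426285) (nat_lit 10) .nil)))) .nil)) 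
(.lf (nat_lit 188528) (.g (nat_lit 4570) (.e (nat_lit 65563) (nat_lit 1) (.e (nat_lit 57873) (nat_lit 264) (.e (nat_lit 1181) (nat_lit 87) (.e (nat_lit 57478) (nat_lit 28) (.e (nat_lit 557101) (nat_lit 13) (.e (nat_lit 172097) (nat_lit 9) (.e (nat_lit 426125) (nat_lit 2) (.e (nat_lit 196666) (nat_lit 13) .nil)))))))) (.g (nat_lit 8) .nil .nil)))))) 
(.nd (nat_lit 4) (.nd (nat_lit 5) (.nd (nat_lit 6) 
(.lf (nat_lit 188424) (.g (nat_lit 1470) (.e (nat_lit 65546) (nat_lit 0) (.e (nat_lit 1842) (nat_lit 123) (.e (nat_lit 548874) (nat_lit 5) (.e (nat_lit 1598) (nat_lit 111) .nil)))) .nil)) 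
(.lf (nat_lit 188488) (.g (nat_lit 847) (.e (nat_lit 65553) (nat_lit 0) (.e (nat_lit 1842) (nat_lit 123) (.e (nat_lit 548872) (nat_lit 5) (.e (nat_lit 1598) (nat_lit 111) .nil)))) .nil))) (.nd (nat_lit 6) 
(.lf (nat_lit 188456) (.g (nat_lit 2414) (.e (nat_lit 65550) (nat_lit 0) (.e (nat_lit 1788) (nat_lit 119) (.e (nat_lit 516106) (nat_lit 0) (.e (nat_lit 3579) (nat_lit 223) (.e (nat_lit 745476) (nat_lit 0) .nil))))) .nil)) 
(.lf (nat_lit 188520) (.g (nat_lit 1295) (.e (nat_lit 65563) (nat_lit 1) (.e (nat_lit 57683) (nat_lit 155) (.e (nat_lit 122916) (nat_lit 14) (.e (nat_lit 352271) (nat_lit 9) .nil)))) .nil)))) (.nd (nat_lit 5) (.nd (nat_lit 6) 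
(.lf (nat_lit 188440) (.g (nat_lit 954) (.e (nat_lit 65546) (nat_lit 0) (.e (nat_lit 2281) (nat_lit 150) (.e (nat_lit 770073) (nat_lit 9) (.e (nat_lit 73755) (nat_lit 8) .nil)))) .nil)) 
(.lf (nat_lit 188504) (.g (nat_lit 1795) (.e (nat_lit 65558) (nat_lit 0) (.e (nat_lit 1858) (nat_lit 124) (.e (nat_lit 557093) (nat_lit 12) (.e (nat_lit 164239) (nat_lit 187) .nil)))) .nil))) (.nd (nat_lit 6) 
(.lf (nat_lit 188472) (.g (nat_lit 3963) (.e (nat_lit 65550) (nat_lit 0) (.e (nat_lit 1788) (nat_lit 119) (.e (nat_lit 516166) (nat_lit 12) (.e (nat_lit 450588) (nat_lit 10) (.e (nat_lit 573503) (nat_lit 18) .nil))))) .nil)) 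
(.lf (nat_lit 188536) (.g (nat_lit 2797) (.e (nat_lit 65563) (nat_lit 1) (.e (nat_lit 57926) (nat_lit 282) (.e (nat_lit 163943) (nat_lit 19) (.e (nat_lit 483413) (nat_lit 27) (.e (nat_lit 401408) (nat_lit 0) .nil))))) .nil)))))) (.nd (nat_lit 3) (.nd (nat_lit 4) (.nd (nat_lit 5) (.nd (nat_lit 6) 
(.lf (nat_lit 188420) (.g (nat_lit 1380) (.e (nat_lit 65543) (nat_lit 0) (.e (nat_lit 6218) (nat_lit 333) (.e (nat_lit 57819) (nat_lit 248) (.e (nat_lit 164359) (nat_lit 246) (.e (nat_lit 2979) (nat_lit 185) (.e (nat_lit 434269) (nat_lit 36) (.e (nat_lit 639021) (nat_lit 16) .nil))))))) (.g (nat_lit 4) .nil .nil))) 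
(.lf (nat_lit 188484) (.g (nat_lit 2968) (.e (nat_lit 65552) (nat_lit 0) (.e (nat_lit 1858) (nat_lit 124) (.e (nat_lit 557105) (nat_lit 14) (.e (nat_lit 180252) (nat_lit 10) (.e (nat_lit 573474) (nat_lit 12) .nil))))) .nil))) (.nd (nat_lit 6) 
(.lf (nat_lit 188452) (.g (nat_lit 3170) (.e (nat_lit 65549) (nat_lit 0) (.e (nat_lit 1858) (nat_lit 124) (.e (nat_lit 557100) (nat_lit 13) (.e (nat_lit 172138) (nat_lit 15) (.e (nat_lit 2175) (nat_lit 143) .nil))))) .nil)) 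
(.lf (nat_lit 188516) (.g (nat_lit 2842) (.e (nat_lit 65563) (nat_lit 1) (.e (nat_lit 57681) (nat_lit 155) (.e (nat_lit 122919) (nat_lit 15) (.e (nat_lit 360451) (nat_lit 0) (.e (nat_lit 7261) (nat_lit 384) (.e (nat_lit 57347) (nat_lit 0) (.e (nat_lit 7936) (nat_lit 347) .nil))))))) (.g (nat_lit 5) .nil .nil))))) (.nd (nat_lit 5) (.nd (nat_lit 6) 
(.lf (nat_lit 188436) (.g (nat_lit 1623) (.e (nat_lit 65546) (nat_lit 0) (.e (nat_lit 2281) (nat_lit 150) (.e (nat_lit 770073) (nat_lit 9) (.e (nat_lit 73753) (nat_lit 8) (.e (nat_lit 557103) (nat_lit 14) .nil))))) .nil)) 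
(.lf (nat_lit 188500) (.g (nat_lit 3883) (.e (nat_lit 65558) (nat_lit 0) (.e (nat_lit 1809) (nat_lit 120) (.e (nat_lit 524322) (nat_lit 12) (.e (nat_lit 450588) (nat_lit 10) (.e (nat_lit 573474) (nat_lit 12) (.e (nat_lit 57572) (nat_lit 54) (.e (nat_lit 770072) (nat_lit 8) .nil))))))) (.g (nat_lit 7) .nil .nil)))) (.nd (nat_lit 6) 
(.lf (nat_lit 188468) (.g (nat_lit 4459) (.e (nat_lit 65550) (nat_lit 0) (.e (nat_lit 1788) (nat_lit 119) (.e (nat_lit 516166) (nat_lit 12) (.e (nat_lit 450587) (nat_lit 10) (.e (nat_lit 573475) (nat_lit 12) .nil))))) .nil)) 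
(.lf (nat_lit 188532) (.g (nat_lit 1874) (.e (nat_lit 65563) (nat_lit 1) (.e (nat_lit 57926) (nat_lit 282) (.e (nat_lit 163941) (nat_lit 19) (.e (nat_lit 483345) (nat_lit 17) (.e (nat_lit 6714) (nat_lit 360) .nil))))) .nil))))) (.nd (nat_lit 4) (.nd (nat_lit 5) (.nd (nat_lit 6) 
(.lf (nat_lit 188428) (.g (nat_lit 2055) (.e (nat_lit 65546) (nat_lit 0) (.e (nat_lit 1842) (nat_lit 123) (.e (nat_lit 548889) (nat_lit 9) (.e (nat_lit 65617) (nat_lit 10) (.e (nat_lit 344133) (nat_lit 26) .nil))))) .nil)) 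
(.lf (nat_lit 188492) (.g (nat_lit 1690) (.e (nat_lit 65553) (nat_lit 0) (.e (nat_lit 1842) (nat_lit 123) (.e (nat_lit 548874) (nat_lit 5) (.e (nat_lit 1598) (nat_lit 111) (.e (nat_lit 360466) (nat_lit 3) (.e (nat_lit 516104) (nat_lit 0) (.e (nat_lit 7936) (nat_lit 406) .nil))))))) (.g (nat_lit 4) .nil .nil)))) (.nd (nat_lit 6) 
(.lf (nat_lit 188460) (.g (nat_lit 1968) (.e (nat_lit 65550) (nat_lit 0) (.e (nat_lit 1788) (nat_lit 119) (.e (nat_lit 516151) (nat_lit 9) (.e (nat_lit 426171) (nat_lit 7) .nil)))) .nil)) 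
(.lf (nat_lit 188524) (.g (nat_lit 895) (.e (nat_lit 65563) (nat_lit 1) (.e (nat_lit 57849) (nat_lit 252) (.e (nat_lit 57367) (nat_lit 1) .nil))) .nil)))) (.nd (nat_lit 5) (.nd (nat_lit 6) 
(.lf (nat_lit 188444) (.g (nat_lit 2045) (.e (nat_lit 65546) (nat_lit 0) (.e (nat_lit 2281) (nat_lit 150) (.e (nat_lit 770073) (nat_lit 9) (.e (nat_lit 73755) (nat_lit 8) (.e (nat_lit 557104) (nat_lit 14) .nil))))) .nil)) 
(.lf (nat_lit 188508) (.g (nat_lit 2801) (.e (nat_lit 65558) (nat_lit 0) (.e (nat_lit 1858) (nat_lit 124) (.e (nat_lit 557105) (nat_lit 14) (.e (nat_lit 180252) (nat_lit 10) (.e (nat_lit 573474) (nat_lit 12) .nil))))) .nil))) (.nd (nat_lit 6) 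
(.lf (nat_lit 188476) (.g (nat_lit 625) (.e (nat_lit 65551) (nat_lit 0) (.e (nat_lit 1840) (nat_lit 123) (.e (nat_lit 548874) (nat_lit 5) (.e (nat_lit 1598) (nat_lit 111) .nil)))) .nil)) 
(.lf (nat_lit 188540) (.g (nat_lit 1872) (.e (nat_lit 65563) (nat_lit 1) (.e (nat_lit 57927) (nat_lit 282) (.e (nat_lit 163943) (nat_lit 19) (.e (nat_lit 483410) (nat_lit 27) .nil)))) .nil))))))) (.nd (nat_lit 2) (.nd (nat_lit 3) (.nd (nat_lit 4) (.nd (nat_lit 5) (.nd (nat_lit 6) 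
(.lf (nat_lit 188418) (.g (nat_lit 1207) (.e (nat_lit 65543) (nat_lit 0) (.e (nat_lit 6218) (nat_lit 333) (.e (nat_lit 57819) (nat_lit 248) (.e (nat_lit 164359) (nat_lit 246) (.e (nat_lit 2973) (nat_lit 185) .nil))))) .nil)) 
(.lf (nat_lit 188482) (.g (nat_lit 1493) (.e (nat_lit 65552) (nat_lit 0) (.e (nat_lit 1858) (nat_lit 124) (.e (nat_lit 557105) (nat_lit 14) (.e (nat_lit 180252) (nat_lit 10) .nil)))) .nil))) (.nd (nat_lit 6) 
(.lf (nat_lit 188450) (.g (nat_lit 2498) (.e (nat_lit 65549) (nat_lit 0) (.e (nat_lit 1788) (nat_lit 119) (.e (nat_lit 516106) (nat_lit 0) (.e (nat_lit 3579) (nat_lit 223) (.e (nat_lit 745476) (nat_lit 0) .nil))))) .nil)) 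
(.lf (nat_lit 188514) (.g (nat_lit 1607) (.e (nat_lit 65561) (nat_lit 0) (.e (nat_lit 1800) (nat_lit 119) (.e (nat_lit 516120) (nat_lit 1) (.e (nat_lit 164183) (nat_lit 154) (.e (nat_lit 57379) (nat_lit 3) .nil))))) .nil)))) (.nd (nat_lit 5) (.nd (nat_lit 6) 
(.lf (nat_lit 188434) (.g (nat_lit 1031) (.e (nat_lit 65546) (nat_lit 0) (.e (nat_lit 2281) (nat_lit 150) (.e (nat_lit 770058) (nat_lit 5) (.e (nat_lit 1575) (nat_lit 110) .nil)))) .nil)) 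
(.lf (nat_lit 188498) (.g (nat_lit 2707) (.e (nat_lit 65558) (nat_lit 0) (.e (nat_lit 1774) (nat_lit 118) (.e (nat_lit 507923) (nat_lit 6) (.e (nat_lit 286747) (nat_lit 9) (.e (nat_lit 336013) (nat_lit 2) (.e (nat_lit 90165) (nat_lit 12) (.e (nat_lit 171776) (nat_lit 191) .nil))))))) (.g (nat_lit 6) .nil .nil)))) (.nd (nat_lit 6) 
(.lf (nat_lit 188466) (.g (nat_lit 1914) (.e (nat_lit 65550) (nat_lit 0) (.e (nat_lit 1788) (nat_lit 119) (.e (nat_lit 516151) (nat_lit 9) (.e (nat_lit 426286) (nat_lit 10) (.e (nat_lit 434245) (nat_lit 28) .nil))))) .nil)) 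
(.lf (nat_lit 188530) (.g (nat_lit 4302) (.e (nat_lit 65563) (nat_lit 1) (.e (nat_lit 57873) (nat_lit 264) (.e (nat_lit 1182) (nat_lit 87) (.e (nat_lit 57478) (nat_lit 28) (.e (nat_lit 557109) (nat_lit 15) (.e (nat_lit 188449) (nat_lit 22) (.e (nat_lit 196666) (nat_lit 13) .nil))))))) (.g (nat_lit 0) .nil .nil)))))) (.nd (nat_lit 4) (.nd (nat_lit 5) (.nd (nat_lit 6) 
(.lf (nat_lit 188426) (.g (nat_lit 1517) (.e (nat_lit 65546) (nat_lit 0) (.e (nat_lit 1842) (nat_lit 123) (.e (nat_lit 548889) (nat_lit 9) (.e (nat_lit 65610) (nat_lit 10) .nil)))) .nil)) 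
(.lf (nat_lit 188490) (.g (nat_lit 1462) (.e (nat_lit 65553) (nat_lit 0) (.e (nat_lit 1842) (nat_lit 123) (.e (nat_lit 548874) (nat_lit 5) (.e (nat_lit 1598) (nat_lit 111) .nil)))) .nil))) (.nd (nat_lit 6) 
(.lf (nat_lit 188458) (.g (nat_lit 3646) (.e (nat_lit 65550) (nat_lit 0) (.e (nat_lit 1788) (nat_lit 119) (.e (nat_lit 516151) (nat_lit 9) (.e (nat_lit 426170) (nat_lit 7) (.e (nat_lit 409616) (nat_lit 10) .nil))))) .nil)) 
(.lf (nat_lit 188522) (.g (nat_lit 2496) (.e (nat_lit 65563) (nat_lit 1) (.e (nat_lit 57847) (nat_lit 252) (.e (nat_lit 57365) (nat_lit 1) (.e (nat_lit 57852) (nat_lit 252) (.e (nat_lit 57427) (nat_lit 15) .nil))))) .nil)))) (.nd (nat_lit 5) (.nd (nat_lit 6) 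
(.lf (nat_lit 188442) (.g (nat_lit 2048) (.e (nat_lit 65546) (nat_lit 0) (.e (nat_lit 2281) (nat_lit 150) (.e (nat_lit 770073) (nat_lit 9) (.e (nat_lit 73755) (nat_lit 8) (.e (nat_lit 557103) (nat_lit 14) .nil))))) .nil)) 
(.lf (nat_lit 188506) (.g (nat_lit 2665) (.e (nat_lit 65558) (nat_lit 0) (.e (nat_lit 1858) (nat_lit 124) (.e (nat_lit 557100) (nat_lit 13) (.e (nat_lit 172137) (nat_lit 15) .nil)))) .nil))) (.nd (nat_lit 6) 
(.lf (nat_lit 188474) (.g (nat_lit 2368) (.e (nat_lit 65550) (nat_lit 0) (.e (nat_lit 1788) (nat_lit 119) (.e (nat_lit 516185) (nat_lit 16) (.e (nat_lit 491560) (nat_lit 10) (.e (nat_lit 344117) (nat_lit 21) .nil))))) .nil)) 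
(.lf (nat_lit 188538) (.g (nat_lit 438) (.e (nat_lit 65563) (nat_lit 1) (.e (nat_lit 57927) (nat_lit 282) (.e (nat_lit 163943) (nat_lit 19) .nil))) .nil)))))) (.nd (nat_lit 3) (.nd (nat_lit 4) (.nd (nat_lit 5) (.nd (nat_lit 6) 
(.lf (nat_lit 188422) (.g (nat_lit 680) (.e (nat_lit 65545) (nat_lit 0) (.e (nat_lit 1836) (nat_lit 123) (.e (nat_lit 548891) (nat_lit 11) (.e (nat_lit 81956) (nat_lit 23) .nil)))) .nil)) 
(.lf (nat_lit 188486) (.g (nat_lit 3879) (.e (nat_lit 65553) (nat_lit 0) (.e (nat_lit 1809) (nat_lit 120) (.e (nat_lit 524322) (nat_lit 12) (.e (nat_lit 450588) (nat_lit 10) (.e (nat_lit 573474) (nat_lit 12) (.e (nat_lit 57572) (nat_lit 54) (.e (nat_lit 770072) (nat_lit 8) .nil))))))) (.g (nat_lit 7) .nil .nil)))) (.nd (nat_lit 6) 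
(.lf (nat_lit 188454) (.g (nat_lit 2798) (.e (nat_lit 65549) (nat_lit 0) (.e (nat_lit 1859) (nat_lit 124) (.e (nat_lit 557091) (nat_lit 12) (.e (nat_lit 163999) (nat_lit 38) (.e (nat_lit 639017) (nat_lit 15) .nil))))) .nil)) 
(.lf (nat_lit 188518) (.g (nat_lit 2552) (.e (nat_lit 65563) (nat_lit 1) (.e (nat_lit 57681) (nat_lit 155) (.e (nat_lit 122919) (nat_lit 15) (.e (nat_lit 360451) (nat_lit 0) (.e (nat_lit 7265) (nat_lit 384) (.e (nat_lit 57354) (nat_lit 0) (.e (nat_lit 7936) (nat_lit 347) .nil))))))) (.g (nat_lit 4) .nil .nil))))) (.nd (nat_lit 5) (.nd (nat_lit 6) 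
(.lf (nat_lit 188438) (.g (nat_lit 944) (.e (nat_lit 65546) (nat_lit 0) (.e (nat_lit 2281) (nat_lit 150) (.e (nat_lit 770073) (nat_lit 9) (.e (nat_lit 73754) (nat_lit 8) .nil)))) .nil)) 
(.lf (nat_lit 188502) (.g (nat_lit 1109) (.e (nat_lit 65558) (nat_lit 0) (.e (nat_lit 1841) (nat_lit 123) (.e (nat_lit 548874) (nat_lit 5) (.e (nat_lit 1598) (nat_lit 111) (.e (nat_lit 360466) (nat_lit 3) (.e (nat_lit 516104) (nat_lit 0) (.e (nat_lit 7936) (nat_lit 406) .nil))))))) (.g (nat_lit 4) .nil .nil)))) (.nd (nat_lit 6) 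
(.lf (nat_lit 188470) (.g (nat_lit 3252) (.e (nat_lit 65550) (nat_lit 0) (.e (nat_lit 1788) (nat_lit 119) (.e (nat_lit 516166) (nat_lit 12) (.e (nat_lit 450588) (nat_lit 10) (.e (nat_lit 573473) (nat_lit 12) .nil))))) .nil)) 
(.lf (nat_lit 188534) (.g (nat_lit 2465) (.e (nat_lit 65563) (nat_lit 1) (.e (nat_lit 57926) (nat_lit 282) (.e (nat_lit 163943) (nat_lit 19) (.e (nat_lit 483345) (nat_lit 17) (.e (nat_lit 6714) (nat_lit 360) .nil))))) .nil))))) (.nd (nat_lit 4) (.nd (nat_lit 5) (.nd (nat_lit 6) 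
(.lf (nat_lit 188430) (.g (nat_lit 2147) (.e (nat_lit 65546) (nat_lit 0) (.e (nat_lit 2004) (nat_lit 138) (.e (nat_lit 671759) (nat_lit 3) (.e (nat_lit 57480) (nat_lit 28) (.e (nat_lit 557101) (nat_lit 13) .nil))))) .nil)) 
(.lf (nat_lit 188494) (.g (nat_lit 1966) (.e (nat_lit 65553) (nat_lit 0) (.e (nat_lit 1842) (nat_lit 123) (.e (nat_lit 548889) (nat_lit 9) (.e (nat_lit 65598) (nat_lit 9) (.e (nat_lit 336028) (nat_lit 3) .nil))))) .nil))) (.nd (nat_lit 6) 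
(.lf (nat_lit 188462) (.g (nat_lit 4240) (.e (nat_lit 65550) (nat_lit 0) (.e (nat_lit 1788) (nat_lit 119) (.e (nat_lit 516151) (nat_lit 9) (.e (nat_lit 426211) (nat_lit 9) (.e (nat_lit 426125) (nat_lit 2) .nil))))) .nil)) 
(.lf (nat_lit 188526) (.g (nat_lit 1713) (.e (nat_lit 65563) (nat_lit 1) (.e (nat_lit 57849) (nat_lit 252) (.e (nat_lit 57377) (nat_lit 3) (.e (nat_lit 106240) (nat_lit 11) .nil)))) .nil)))) (.nd (nat_lit 5) (.nd (nat_lit 6) 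
(.lf (nat_lit 188446) (.g (nat_lit 3748) (.e (nat_lit 65547) (nat_lit 0) (.e (nat_lit 1809) (nat_lit 120) (.e (nat_lit 524322) (nat_lit 12) (.e (nat_lit 450588) (nat_lit 10) (.e (nat_lit 573474) (nat_lit 12) (.e (nat_lit 57572) (nat_lit 54) (.e (nat_lit 770072) (nat_lit 8) .nil))))))) (.g (nat_lit 7) .nil .nil))) 
(.lf (nat_lit 188510) (.g (nat_lit 2806) (.e (nat_lit 65558) (nat_lit 0) (.e (nat_lit 2005) (nat_lit 138) (.e (nat_lit 671759) (nat_lit 3) (.e (nat_lit 57479) (nat_lit 28) (.e (nat_lit 557109) (nat_lit 15) (.e (nat_lit 188458) (nat_lit 25) (.e (nat_lit 245790) (nat_lit 13) .nil))))))) (.g (nat_lit 7) .nil .nil)))) (.nd (nat_lit 6) 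
(.lf (nat_lit 188478) (.g (nat_lit 3797) (.e (nat_lit 65552) (nat_lit 0) (.e (nat_lit 1809) (nat_lit 120) (.e (nat_lit 524322) (nat_lit 12) (.e (nat_lit 450588) (nat_lit 10) (.e (nat_lit 573474) (nat_lit 12) (.e (nat_lit 57572) (nat_lit 54) (.e (nat_lit 770072) (nat_lit 8) .nil))))))) (.g (nat_lit 7) .nil .nil))) 
(.lf (nat_lit 188542) (.g (nat_lit 2061) (.e (nat_lit 65563) (nat_lit 1) (.e (nat_lit 57931) (nat_lit 282) (.e (nat_lit 163941) (nat_lit 19) (.e (nat_lit 483345) (nat_lit 17) (.e (nat_lit 6712) (nat_lit 360) .nil))))) .nil)))))))) (.nd (nat_lit 1) (.nd (nat_lit 2) (.nd (nat_lit 3) (.nd (nat_lit 4) (.nd (nat_lit 5) (.nd (nat_lit 6) 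
(.lf (nat_lit 188417) (.g (nat_lit 1378) (.e (nat_lit 65543) (nat_lit 0) (.e (nat_lit 6218) (nat_lit 333) (.e (nat_lit 57819) (nat_lit 248) (.e (nat_lit 164359) (nat_lit 246) (.e (nat_lit 2959) (nat_lit 185) .nil))))) .nil)) 
(.lf (nat_lit 188481) (.g (nat_lit 3330) (.e (nat_lit 65552) (nat_lit 0) (.e (nat_lit 1858) (nat_lit 124) (.e (nat_lit 557100) (nat_lit 13) (.e (nat_lit 172138) (nat_lit 15) (.e (nat_lit 2175) (nat_lit 143) .nil))))) .nil))) (.nd (nat_lit 6) 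
(.lf (nat_lit 188449) (.g (nat_lit 273) (.e (nat_lit 65547) (nat_lit 0) (.e (nat_lit 6223) (nat_lit 334) (.e (nat_lit 123165) (nat_lit 256) .nil))) .nil)) 
(.lf (nat_lit 188513) (.g (nat_lit 656) (.e (nat_lit 65561) (nat_lit 0) (.e (nat_lit 1800) (nat_lit 119) (.e (nat_lit 516119) (nat_lit 1) .nil))) .nil)))) (.nd (nat_lit 5) (.nd (nat_lit 6) 
(.lf (nat_lit 188433) (.g (nat_lit 1146) (.e (nat_lit 65546) (nat_lit 0) (.e (nat_lit 2281) (nat_lit 150) (.e (nat_lit 770058) (nat_lit 5) (.e (nat_lit 1548) (nat_lit 109) .nil)))) .nil)) 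
(.lf (nat_lit 188497) (.g (nat_lit 456) (.e (nat_lit 65553) (nat_lit 0) (.e (nat_lit 1842) (nat_lit 123) (.e (nat_lit 548891) (nat_lit 11) .nil))) .nil))) (.nd (nat_lit 6) 
(.lf (nat_lit 188465) (.g (nat_lit 4068) (.e (nat_lit 65550) (nat_lit 0) (.e (nat_lit 1788) (nat_lit 119) (.e (nat_lit 516151) (nat_lit 9) (.e (nat_lit 426285) (nat_lit 10) (.e (nat_lit 434229) (nat_lit 22) .nil))))) .nil)) 
(.lf (nat_lit 188529) (.g (nat_lit 4050) (.e (nat_lit 65563) (nat_lit 1) (.e (nat_lit 57873) (nat_lit 264) (.e (nat_lit 1181) (nat_lit 87) (.e (nat_lit 57478) (nat_lit 28) (.e (nat_lit 557107) (nat_lit 15) (.e (nat_lit 188447) (nat_lit 22) (.e (nat_lit 196666) (nat_lit 13) .nil))))))) (.g (nat_lit 7) .nil .nil)))))) (.nd (nat_lit 4) (.nd (nat_lit 5) (.nd (nat_lit 6) 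
(.lf (nat_lit 188425) (.g (nat_lit 1243) (.e (nat_lit 65546) (nat_lit 0) (.e (nat_lit 1842) (nat_lit 123) (.e (nat_lit 548874) (nat_lit 5) (.e (nat_lit 1599) (nat_lit 111) .nil)))) .nil)) 
(.lf (nat_lit 188489) (.g (nat_lit 997) (.e (nat_lit 65553) (nat_lit 0) (.e (nat_lit 1842) (nat_lit 123) (.e (nat_lit 548873) (nat_lit 5) (.e (nat_lit 1598) (nat_lit 111) (.e (nat_lit 360466) (nat_lit 3) .nil))))) .nil))) (.nd (nat_lit 6) 
(.lf (nat_lit 188457) (.g (nat_lit 2517) (.e (nat_lit 65550) (nat_lit 0) (.e (nat_lit 1788) (nat_lit 119) (.e (nat_lit 516151) (nat_lit 9) (.e (nat_lit 426170) (nat_lit 7) .nil)))) .nil)) 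
(.lf (nat_lit 188521) (.g (nat_lit 1327) (.e (nat_lit 65563) (nat_lit 1) (.e (nat_lit 57684) (nat_lit 155) (.e (nat_lit 122914) (nat_lit 14) (.e (nat_lit 352271) (nat_lit 9) (.e (nat_lit 409602) (nat_lit 0) (.e (nat_lit 5404) (nat_lit 302) .nil)))))) (.g (nat_lit 5) .nil .nil))))) (.nd (nat_lit 5) (.nd (nat_lit 6) 
(.lf (nat_lit 188441) (.g (nat_lit 2008) (.e (nat_lit 65546) (nat_lit 0) (.e (nat_lit 2281) (nat_lit 150) (.e (nat_lit 770073) (nat_lit 9) (.e (nat_lit 73755) (nat_lit 8) (.e (nat_lit 557067) (nat_lit 9) .nil))))) .nil)) 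
(.lf (nat_lit 188505) (.g (nat_lit 2032) (.e (nat_lit 65558) (nat_lit 0) (.e (nat_lit 1858) (nat_lit 124) (.e (nat_lit 557093) (nat_lit 12) (.e (nat_lit 164239) (nat_lit 187) (.e (nat_lit 1428) (nat_lit 108) .nil))))) .nil))) (.nd (nat_lit 6) 
(.lf (nat_lit 188473) (.g (nat_lit 1253) (.e (nat_lit 65550) (nat_lit 0) (.e (nat_lit 1788) (nat_lit 119) (.e (nat_lit 516185) (nat_lit 16) (.e (nat_lit 491558) (nat_lit 10) .nil)))) .nil)) 
(.lf (nat_lit 188537) (.g (nat_lit 1819) (.e (nat_lit 65563) (nat_lit 1) (.e (nat_lit 57927) (nat_lit 282) (.e (nat_lit 163941) (nat_lit 19) (.e (nat_lit 483345) (nat_lit 17) (.e (nat_lit 6714) (nat_lit 360) .nil))))) .nil)))))) (.nd (nat_lit 3) (.nd (nat_lit 4) (.nd (nat_lit 5) (.nd (nat_lit 6) 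
(.lf (nat_lit 188421) (.g (nat_lit 433) (.e (nat_lit 65543) (nat_lit 0) (.e (nat_lit 6218) (nat_lit 333) (.e (nat_lit 57864) (nat_lit 256) .nil))) .nil)) 
(.lf (nat_lit 188485) (.g (nat_lit 2791) (.e (nat_lit 65552) (nat_lit 0) (.e (nat_lit 1858) (nat_lit 124) (.e (nat_lit 557105) (nat_lit 14) (.e (nat_lit 180252) (nat_lit 10) (.e (nat_lit 573475) (nat_lit 12) .nil))))) .nil))) (.nd (nat_lit 6) 
(.lf (nat_lit 188453) (.g (nat_lit 2870) (.e (nat_lit 65549) (nat_lit 0) (.e (nat_lit 1858) (nat_lit 124) (.e (nat_lit 557105) (nat_lit 14) (.e (nat_lit 180252) (nat_lit 10) (.e (nat_lit 573473) (nat_lit 12) .nil))))) .nil)) 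
(.lf (nat_lit 188517) (.g (nat_lit 4863) (.e (nat_lit 65563) (nat_lit 1) (.e (nat_lit 57681) (nat_lit 155) (.e (nat_lit 122919) (nat_lit 15) (.e (nat_lit 360451) (nat_lit 0) (.e (nat_lit 7265) (nat_lit 384) (.e (nat_lit 57347) (nat_lit 0) (.e (nat_lit 7936) (nat_lit 347) .nil))))))) (.g (nat_lit 6) .nil .nil))))) (.nd (nat_lit 5) (.nd (nat_lit 6) 
(.lf (nat_lit 188437) (.g (nat_lit 1486) (.e (nat_lit 65546) (nat_lit 0) (.e (nat_lit 2281) (nat_lit 150) (.e (nat_lit 770073) (nat_lit 9) (.e (nat_lit 73753) (nat_lit 8) (.e (nat_lit 557105) (nat_lit 14) .nil))))) .nil)) 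
(.lf (nat_lit 188501) (.g (nat_lit 1196) (.e (nat_lit 65558) (nat_lit 0) (.e (nat_lit 1841) (nat_lit 123) (.e (nat_lit 548874) (nat_lit 5) (.e (nat_lit 1598) (nat_lit 111) (.e (nat_lit 360466) (nat_lit 3) (.e (nat_lit 516100) (nat_lit 0) (.e (nat_lit 7936) (nat_lit 406) .nil))))))) (.g (nat_lit 4) .nil .nil)))) (.nd (nat_lit 6) 
(.lf (nat_lit 188469) (.g (nat_lit 2438) (.e (nat_lit 65550) (nat_lit 0) (.e (nat_lit 1788) (nat_lit 119) (.e (nat_lit 516166) (nat_lit 12) (.e (nat_lit 450587) (nat_lit 10) (.e (nat_lit 573477) (nat_lit 12) .nil))))) .nil)) 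
(.lf (nat_lit 188533) (.g (nat_lit 488) (.e (nat_lit 65563) (nat_lit 1) (.e (nat_lit 57926) (nat_lit 282) (.e (nat_lit 163943) (nat_lit 19) .nil))) .nil))))) (.nd (nat_lit 4) (.nd (nat_lit 5) (.nd (nat_lit 6) 
(.lf (nat_lit 188429) (.g (nat_lit 2043) (.e (nat_lit 65546) (nat_lit 0) (.e (nat_lit 1842) (nat_lit 123) (.e (nat_lit 548889) (nat_lit 9) (.e (nat_lit 65619) (nat_lit 10) (.e (nat_lit 344117) (nat_lit 21) .nil))))) .nil)) 
(.lf (nat_lit 188493) (.g (nat_lit 475) (.e (nat_lit 65553) (nat_lit 0) (.e (nat_lit 1842) (nat_lit 123) (.e (nat_lit 548889) (nat_lit 9) .nil))) .nil))) (.nd (nat_lit 6) 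
(.lf (nat_lit 188461) (.g (nat_lit 3267) (.e (nat_lit 65550) (nat_lit 0) (.e (nat_lit 1788) (nat_lit 119) (.e (nat_lit 516151) (nat_lit 9) (.e (nat_lit 426173) (nat_lit 7) (.e (nat_lit 409617) (nat_lit 10) .nil))))) .nil)) 
(.lf (nat_lit 188525) (.g (nat_lit 3099) (.e (nat_lit 65563) (nat_lit 1) (.e (nat_lit 57849) (nat_lit 252) (.e (nat_lit 57372) (nat_lit 2) (.e (nat_lit 90160) (nat_lit 11) (.e (nat_lit 24665) (nat_lit 14) .nil))))) .nil)))) (.nd (nat_lit 5) (.nd (nat_lit 6) 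
(.lf (nat_lit 188445) (.g (nat_lit 1104) (.e (nat_lit 65546) (nat_lit 0) (.e (nat_lit 2281) (nat_lit 150) (.e (nat_lit 770074) (nat_lit 10) (.e (nat_lit 81921) (nat_lit 0) .nil)))) .nil)) 
(.lf (nat_lit 188509) (.g (nat_lit 2624) (.e (nat_lit 65558) (nat_lit 0) (.e (nat_lit 1858) (nat_lit 124) (.e (nat_lit 557105) (nat_lit 14) (.e (nat_lit 180252) (nat_lit 10) (.e (nat_lit 573475) (nat_lit 12) .nil))))) .nil))) (.nd (nat_lit 6) 
(.lf (nat_lit 188477) (.g (nat_lit 1462) (.e (nat_lit 65551) (nat_lit 0) (.e (nat_lit 1842) (nat_lit 123) (.e (nat_lit 548874) (nat_lit 5) (.e (nat_lit 1598) (nat_lit 111) .nil)))) .nil)) 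
(.lf (nat_lit 188541) (.g (nat_lit 1717) (.e (nat_lit 65563) (nat_lit 1) (.e (nat_lit 57931) (nat_lit 282) (.e (nat_lit 163941) (nat_lit 19) (.e (nat_lit 483344) (nat_lit 17) .nil)))) .nil))))))) (.nd (nat_lit 2) (.nd (nat_lit 3) (.nd (nat_lit 4) (.nd (nat_lit 5) (.nd (nat_lit 6) 
(.lf (nat_lit 188419) (.g (nat_lit 1304) (.e (nat_lit 65543) (nat_lit 0) (.e (nat_lit 6218) (nat_lit 333) (.e (nat_lit 57819) (nat_lit 248) (.e (nat_lit 164359) (nat_lit 246) (.e (nat_lit 2979) (nat_lit 185) .nil))))) .nil)) 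
(.lf (nat_lit 188483) (.g (nat_lit 3172) (.e (nat_lit 65552) (nat_lit 0) (.e (nat_lit 1858) (nat_lit 124) (.e (nat_lit 557105) (nat_lit 14) (.e (nat_lit 180252) (nat_lit 10) (.e (nat_lit 581376) (nat_lit 4) .nil))))) .nil))) (.nd (nat_lit 6) 
(.lf (nat_lit 188451) (.g (nat_lit 2032) (.e (nat_lit 65549) (nat_lit 0) (.e (nat_lit 1858) (nat_lit 124) (.e (nat_lit 557091) (nat_lit 12) (.e (nat_lit 163999) (nat_lit 38) .nil)))) .nil)) 
(.lf (nat_lit 188515) (.g (nat_lit 547) (.e (nat_lit 65563) (nat_lit 1) (.e (nat_lit 57655) (nat_lit 152) (.e (nat_lit 1217) (nat_lit 90) (.e (nat_lit 89856) (nat_lit 9) .nil)))) .nil)))) (.nd (nat_lit 5) (.nd (nat_lit 6) 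
(.lf (nat_lit 188435) (.g (nat_lit 1036) (.e (nat_lit 65546) (nat_lit 0) (.e (nat_lit 2281) (nat_lit 150) (.e (nat_lit 770073) (nat_lit 9) (.e (nat_lit 73753) (nat_lit 8) .nil)))) .nil)) 
(.lf (nat_lit 188499) (.g (nat_lit 2301) (.e (nat_lit 65558) (nat_lit 0) (.e (nat_lit 1774) (nat_lit 118) (.e (nat_lit 507923) (nat_lit 6) (.e (nat_lit 286749) (nat_lit 9) (.e (nat_lit 336028) (nat_lit 3) (.e (nat_lit 98325) (nat_lit 17) (.e (nat_lit 7936) (nat_lit 406) .nil))))))) (.g (nat_lit 6) .nil .nil)))) (.nd (nat_lit 6) 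
(.lf (nat_lit 188467) (.g (nat_lit 1553) (.e (nat_lit 65550) (nat_lit 0) (.e (nat_lit 1788) (nat_lit 119) (.e (nat_lit 516166) (nat_lit 12) (.e (nat_lit 458496) (nat_lit 3) .nil)))) .nil)) 
(.lf (nat_lit 188531) (.g (nat_lit 5181) (.e (nat_lit 65563) (nat_lit 1) (.e (nat_lit 57873) (nat_lit 264) (.e (nat_lit 1182) (nat_lit 87) (.e (nat_lit 57479) (nat_lit 28) (.e (nat_lit 557101) (nat_lit 13) (.e (nat_lit 172097) (nat_lit 9) (.e (nat_lit 426125) (nat_lit 2) (.e (nat_lit 196666) (nat_lit 13) .nil)))))))) (.g (nat_lit 8) .nil .nil)))))) 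
(.nd (nat_lit 4) (.nd (nat_lit 5) (.nd (nat_lit 6) 
(.lf (nat_lit 188427) (.g (nat_lit 2101) (.e (nat_lit 65546) (nat_lit 0) (.e (nat_lit 1842) (nat_lit 123) (.e (nat_lit 548889) (nat_lit 9) (.e (nat_lit 65617) (nat_lit 10) (.e (nat_lit 344130) (nat_lit 26) .nil))))) .nil)) 
(.lf (nat_lit 188491) (.g (nat_lit 1636) (.e (nat_lit 65553) (nat_lit 0) (.e (nat_lit 1842) (nat_lit 123) (.e (nat_lit 548874) (nat_lit 5) (.e (nat_lit 1598) (nat_lit 111) (.e (nat_lit 360466) (nat_lit 3) .nil))))) .nil))) (.nd (nat_lit 6) 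
(.lf (nat_lit 188459) (.g (nat_lit 3646) (.e (nat_lit 65550) (nat_lit 0) (.e (nat_lit 1788) (nat_lit 119) (.e (nat_lit 516151) (nat_lit 9) (.e (nat_lit 426170) (nat_lit 7) (.e (nat_lit 409617) (nat_lit 10) .nil))))) .nil)) 
(.lf (nat_lit 188523) (.g (nat_lit 1492) (.e (nat_lit 65563) (nat_lit 1) (.e (nat_lit 57847) (nat_lit 252) (.e (nat_lit 57365) (nat_lit 1) (.e (nat_lit 57926) (nat_lit 282) .nil)))) .nil)))) (.nd (nat_lit 5) (.nd (nat_lit 6) 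
(.lf (nat_lit 188443) (.g (nat_lit 3483) (.e (nat_lit 65546) (nat_lit 0) (.e (nat_lit 2281) (nat_lit 150) (.e (nat_lit 770073) (nat_lit 9) (.e (nat_lit 73755) (nat_lit 8) (.e (nat_lit 557103) (nat_lit 14) (.e (nat_lit 180229) (nat_lit 0) (.e (nat_lit 5820) (nat_lit 320) (.e (nat_lit 1201) (nat_lit 88) .nil)))))))) (.g (nat_lit 5) .nil .nil))) 
(.lf (nat_lit 188507) (.g (nat_lit 2566) (.e (nat_lit 65558) (nat_lit 0) (.e (nat_lit 1858) (nat_lit 124) (.e (nat_lit 557100) (nat_lit 13) (.e (nat_lit 172138) (nat_lit 15) .nil)))) .nil))) (.nd (nat_lit 6) 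
(.lf (nat_lit 188475) (.g (nat_lit 893) (.e (nat_lit 65550) (nat_lit 0) (.e (nat_lit 2270) (nat_lit 149) (.e (nat_lit 761868) (nat_lit 5) (.e (nat_lit 1574) (nat_lit 110) (.e (nat_lit 352271) (nat_lit 9) .nil))))) .nil)) 
(.lf (nat_lit 188539) (.g (nat_lit 1893) (.e (nat_lit 65563) (nat_lit 1) (.e (nat_lit 57927) (nat_lit 282) (.e (nat_lit 163943) (nat_lit 19) (.e (nat_lit 483345) (nat_lit 17) .nil)))) .nil)))))) (.nd (nat_lit 3) (.nd (nat_lit 4) (.nd (nat_lit 5) (.nd (nat_lit 6) 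
(.lf (nat_lit 188423) (.g (nat_lit 1640) (.e (nat_lit 65546) (nat_lit 0) (.e (nat_lit 1842) (nat_lit 123) (.e (nat_lit 548874) (nat_lit 5) (.e (nat_lit 1589) (nat_lit 111) (.e (nat_lit 360473) (nat_lit 8) .nil))))) .nil)) 
(.lf (nat_lit 188487) (.g (nat_lit 1068) (.e (nat_lit 65553) (nat_lit 0) (.e (nat_lit 1841) (nat_lit 123) (.e (nat_lit 548874) (nat_lit 5) (.e (nat_lit 1598) (nat_lit 111) (.e (nat_lit 360466) (nat_lit 3) .nil))))) .nil))) (.nd (nat_lit 6) 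
(.lf (nat_lit 188455) (.g (nat_lit 2010) (.e (nat_lit 65549) (nat_lit 0) (.e (nat_lit 1859) (nat_lit 124) (.e (nat_lit 557098) (nat_lit 13) (.e (nat_lit 172133) (nat_lit 15) (.e (nat_lit 2175) (nat_lit 143) .nil))))) .nil)) 
(.lf (nat_lit 188519) (.g (nat_lit 1925) (.e (nat_lit 65563) (nat_lit 1) (.e (nat_lit 57683) (nat_lit 155) (.e (nat_lit 122914) (nat_lit 14) (.e (nat_lit 352271) (nat_lit 9) (.e (nat_lit 409602) (nat_lit 0) (.e (nat_lit 5404) (nat_lit 302) .nil)))))) (.g (nat_lit 5) .nil .nil))))) (.nd (nat_lit 5) (.nd (nat_lit 6) 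
(.lf (nat_lit 188439) (.g (nat_lit 2912) (.e (nat_lit 65546) (nat_lit 0) (.e (nat_lit 2281) (nat_lit 150) (.e (nat_lit 770073) (nat_lit 9) (.e (nat_lit 73754) (nat_lit 8) (.e (nat_lit 557105) (nat_lit 14) (.e (nat_lit 180233) (nat_lit 0) (.e (nat_lit 5815) (nat_lit 320) (.e (nat_lit 1201) (nat_lit 88) .nil)))))))) (.g (nat_lit 5) .nil .nil))) 
(.lf (nat_lit 188503) (.g (nat_lit 1331) (.e (nat_lit 65558) (nat_lit 0) (.e (nat_lit 1842) (nat_lit 123) (.e (nat_lit 548874) (nat_lit 5) (.e (nat_lit 1598) (nat_lit 111) .nil)))) .nil))) (.nd (nat_lit 6) 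
(.lf (nat_lit 188471) (.g (nat_lit 2125) (.e (nat_lit 65550) (nat_lit 0) (.e (nat_lit 1788) (nat_lit 119) (.e (nat_lit 516166) (nat_lit 12) (.e (nat_lit 450588) (nat_lit 10) (.e (nat_lit 573475) (nat_lit 12) .nil))))) .nil)) 
(.lf (nat_lit 188535) (.g (nat_lit 1931) (.e (nat_lit 65563) (nat_lit 1) (.e (nat_lit 57926) (nat_lit 282) (.e (nat_lit 163943) (nat_lit 19) (.e (nat_lit 483410) (nat_lit 27) .nil)))) .nil))))) (.nd (nat_lit 4) (.nd (nat_lit 5) (.nd (nat_lit 6) 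
(.lf (nat_lit 188431) (.g (nat_lit 538) (.e (nat_lit 65546) (nat_lit 0) (.e (nat_lit 2281) (nat_lit 150) (.e (nat_lit 770056) (nat_lit 5) .nil))) .nil)) 
(.lf (nat_lit 188495) (.g (nat_lit 1490) (.e (nat_lit 65553) (nat_lit 0) (.e (nat_lit 1842) (nat_lit 123) (.e (nat_lit 548889) (nat_lit 9) (.e (nat_lit 65617) (nat_lit 10) .nil)))) .nil))) (.nd (nat_lit 6) 
(.lf (nat_lit 188463) (.g (nat_lit 6493) (.e (nat_lit 65550) (nat_lit 0) (.e (nat_lit 1788) (nat_lit 119) (.e (nat_lit 516151) (nat_lit 9) (.e (nat_lit 426211) (nat_lit 9) (.e (nat_lit 426125) (nat_lit 2) (.e (nat_lit 196615) (nat_lit 0) (.e (nat_lit 60) (nat_lit 0) (.e (nat_lit 2030) (nat_lit 140) (.e (nat_lit 688177) (nat_lit 16) .nil))))))))) (.g (nat_lit 5) .nil .nil))) 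
(.lf (nat_lit 188527) (.g (nat_lit 4062) (.e (nat_lit 65563) (nat_lit 1) (.e (nat_lit 57873) (nat_lit 264) (.e (nat_lit 1170) (nat_lit 87) (.e (nat_lit 57480) (nat_lit 28) (.e (nat_lit 557109) (nat_lit 15) (.e (nat_lit 188449) (nat_lit 22) (.e (nat_lit 196666) (nat_lit 13) .nil))))))) (.g (nat_lit 0) .nil .nil))))) (.nd (nat_lit 5) (.nd (nat_lit 6) 
(.lf (nat_lit 188447) (.g (nat_lit 1462) (.e (nat_lit 65547) (nat_lit 0) (.e (nat_lit 1842) (nat_lit 123) (.e (nat_lit 548874) (nat_lit 5) (.e (nat_lit 1598) (nat_lit 111) .nil)))) .nil)) 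
(.lf (nat_lit 188511) (.g (nat_lit 845) (.e (nat_lit 65558) (nat_lit 0) (.e (nat_lit 2270) (nat_lit 149) (.e (nat_lit 761868) (nat_lit 5) (.e (nat_lit 1574) (nat_lit 110) (.e (nat_lit 352271) (nat_lit 9) .nil))))) .nil))) (.nd (nat_lit 6) 
(.lf (nat_lit 188479) (.g (nat_lit 1793) (.e (nat_lit 65552) (nat_lit 0) (.e (nat_lit 1858) (nat_lit 124) (.e (nat_lit 557093) (nat_lit 12) (.e (nat_lit 164239) (nat_lit 187) .nil)))) .nil)) 
(.lf (nat_lit 188543) (.g (nat_lit 2100) (.e (nat_lit 65563) (nat_lit 1) (.e (nat_lit 57931) (nat_lit 282) (.e (nat_lit 163941) (nat_lit 19) (.e (nat_lit 483345) (nat_lit 17) (.e (nat_lit 6714) (nat_lit 360) .nil))))) .nil)))))))))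

noncomputable def tv2498 : DT := (.nd (nat_lit 0) (.nd (nat_lit 1) (.nd (nat_lit 2) (.nd (nat_lit 3) (.nd (nat_lit 4) (.nd (nat_lit 5) 
(.lf (nat_lit 188544) (.g (nat_lit 2479) (.e (nat_lit 65563) (nat_lit 1) (.e (nat_lit 57931) (nat_lit 282) (.e (nat_lit 163941) (nat_lit 19) (.e (nat_lit 483346) (nat_lit 17) (.e (nat_lit 6712) (nat_lit 360) .nil))))) .nil)) 
(.lf (nat_lit 188576) (.g (nat_lit 575) (.e (nat_lit 65565) (nat_lit 1) (.e (nat_lit 57872) (nat_lit 264) (.e (nat_lit 1211) (nat_lit 89) (.e (nat_lit 81664) (nat_lit 37) .nil)))) .nil))) (.nd (nat_lit 5) 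
(.lf (nat_lit 188560) (.g (nat_lit 2743) (.e (nat_lit 65565) (nat_lit 1) (.e (nat_lit 57848) (nat_lit 252) (.e (nat_lit 57365) (nat_lit 1) (.e (nat_lit 57854) (nat_lit 252) (.e (nat_lit 57409) (nat_lit 12) (.e (nat_lit 336182) (nat_lit 11) (.e (nat_lit 368689) (nat_lit 34) (.e (nat_lit 622616) (nat_lit 9) .nil)))))))) (.g (nat_lit 5) .nil .nil))) 
(.lf (nat_lit 188592) (.g (nat_lit 3751) (.e (nat_lit 65566) (nat_lit 2) (.e (nat_lit 90170) (nat_lit 13) (.e (nat_lit 172106) (nat_lit 10) (.e (nat_lit 434231) (nat_lit 23) (.e (nat_lit 532481) (nat_lit 0) (.e (nat_lit 979) (nat_lit 81) (.e (nat_lit 4490) (nat_lit 263) (.e (nat_lit 1199) (nat_lit 88) .nil)))))))) (.g (nat_lit 5) .nil .nil))))) (.nd (nat_lit 4) (.nd (nat_lit 5) 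
(.lf (nat_lit 188552) (.g (nat_lit 1017) (.e (nat_lit 65565) (nat_lit 1) (.e (nat_lit 57683) (nat_lit 155) (.e (nat_lit 122914) (nat_lit 14) (.e (nat_lit 352258) (nat_lit 0) .nil)))) .nil)) 
(.lf (nat_lit 188584) (.g (nat_lit 3624) (.e (nat_lit 65566) (nat_lit 2) (.e (nat_lit 90170) (nat_lit 13) (.e (nat_lit 172082) (nat_lit 7) (.e (nat_lit 409612) (nat_lit 10) (.e (nat_lit 632) (nat_lit 50) (.e (nat_lit 573473) (nat_lit 12) (.e (nat_lit 57521) (nat_lit 44) (.e (nat_lit 688177) (nat_lit 16) .nil)))))))) (.g (nat_lit 5) .nil .nil)))) (.nd (nat_lit 5) 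
(.lf (nat_lit 188568) (.g (nat_lit 2641) (.e (nat_lit 65565) (nat_lit 1) (.e (nat_lit 57849) (nat_lit 252) (.e (nat_lit 57368) (nat_lit 1) (.e (nat_lit 57854) (nat_lit 252) (.e (nat_lit 57426) (nat_lit 15) (.e (nat_lit 360478) (nat_lit 12) (.e (nat_lit 622616) (nat_lit 9) .nil))))))) (.g (nat_lit 4) .nil .nil))) 
(.lf (nat_lit 188600) (.g (nat_lit 2454) (.e (nat_lit 65566) (nat_lit 2) (.e (nat_lit 90170) (nat_lit 13) (.e (nat_lit 172106) (nat_lit 10) (.e (nat_lit 434231) (nat_lit 23) (.e (nat_lit 532483) (nat_lit 0) (.e (nat_lit 1068) (nat_lit 81) (.e (nat_lit 4490) (nat_lit 263) (.e (nat_lit 1199) (nat_lit 88) .nil)))))))) (.g (nat_lit 4) .nil .nil)))))) (.nd (nat_lit 3) (.nd (nat_lit 4) (.nd (nat_lit 5) 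
(.lf (nat_lit 188548) (.g (nat_lit 805) (.e (nat_lit 65564) (nat_lit 1) (.e (nat_lit 57849) (nat_lit 252) (.e (nat_lit 57379) (nat_lit 3) .nil))) .nil)) 
(.lf (nat_lit 188580) (.g (nat_lit 657) (.e (nat_lit 65566) (nat_lit 2) (.e (nat_lit 90170) (nat_lit 13) (.e (nat_lit 172079) (nat_lit 7) .nil))) .nil))) (.nd (nat_lit 5) 
(.lf (nat_lit 188564) (.g (nat_lit 830) (.e (nat_lit 65565) (nat_lit 1) (.e (nat_lit 57849) (nat_lit 252) (.e (nat_lit 57367) (nat_lit 1) .nil))) .nil)) 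
(.lf (nat_lit 188596) (.g (nat_lit 2327) (.e (nat_lit 65566) (nat_lit 2) (.e (nat_lit 90170) (nat_lit 13) (.e (nat_lit 172106) (nat_lit 10) (.e (nat_lit 434231) (nat_lit 23) (.e (nat_lit 532482) (nat_lit 0) (.e (nat_lit 981) (nat_lit 81) (.e (nat_lit 4490) (nat_lit 263) (.e (nat_lit 1190) (nat_lit 88) .nil)))))))) (.g (nat_lit 4) .nil .nil))))) (.nd (nat_lit 4) (.nd (nat_lit 5) 
(.lf (nat_lit 188556) (.g (nat_lit 1088) (.e (nat_lit 65565) (nat_lit 1) (.e (nat_lit 57683) (nat_lit 155) (.e (nat_lit 122916) (nat_lit 14) (.e (nat_lit 352272) (nat_lit 10) .nil)))) .nil)) 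
(.lf (nat_lit 188588) (.g (nat_lit 2309) (.e (nat_lit 65566) (nat_lit 2) (.e (nat_lit 90170) (nat_lit 13) (.e (nat_lit 172106) (nat_lit 10) (.e (nat_lit 434229) (nat_lit 22) (.e (nat_lit 524291) (nat_lit 0) (.e (nat_lit 3390) (nat_lit 210) (.e (nat_lit 639021) (nat_lit 16) .nil))))))) (.g (nat_lit 4) .nil .nil)))) (.nd (nat_lit 5) 
(.lf (nat_lit 188572) (.g (nat_lit 1564) (.e (nat_lit 65565) (nat_lit 1) (.e (nat_lit 57849) (nat_lit 252) (.e (nat_lit 57379) (nat_lit 3) (.e (nat_lit 106240) (nat_lit 11) .nil)))) .nil)) 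
(.lf (nat_lit 188604) (.g (nat_lit 2960) (.e (nat_lit 65566) (nat_lit 2) (.e (nat_lit 90170) (nat_lit 13) (.e (nat_lit 172106) (nat_lit 10) (.e (nat_lit 434231) (nat_lit 23) (.e (nat_lit 532490) (nat_lit 0) (.e (nat_lit 990) (nat_lit 81) (.e (nat_lit 4500) (nat_lit 263) (.e (nat_lit 1199) (nat_lit 88) .nil)))))))) (.g (nat_lit 5) .nil .nil))))))) 
(.nd (nat_lit 2) (.nd (nat_lit 3) (.nd (nat_lit 4) (.nd (nat_lit 5) 
(.lf (nat_lit 188546) (.g (nat_lit 2501) (.e (nat_lit 65564) (nat_lit 1) (.e (nat_lit 57681) (nat_lit 155) (.e (nat_lit 122919) (nat_lit 15) (.e (nat_lit 360451) (nat_lit 0) (.e (nat_lit 7265) (nat_lit 384) (.e (nat_lit 57354) (nat_lit 0) (.e (nat_lit 7936) (nat_lit 347) .nil))))))) (.g (nat_lit 4) .nil .nil))) 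
(.lf (nat_lit 188578) (.g (nat_lit 207) (.e (nat_lit 65566) (nat_lit 2) (.e (nat_lit 90165) (nat_lit 12) (.e (nat_lit 171776) (nat_lit 192) .nil))) .nil))) (.nd (nat_lit 5) 
(.lf (nat_lit 188562) (.g (nat_lit 3294) (.e (nat_lit 65565) (nat_lit 1) (.e (nat_lit 57848) (nat_lit 252) (.e (nat_lit 57368) (nat_lit 1) (.e (nat_lit 57854) (nat_lit 252) (.e (nat_lit 57427) (nat_lit 15) (.e (nat_lit 360478) (nat_lit 12) (.e (nat_lit 622616) (nat_lit 9) .nil))))))) (.g (nat_lit 5) .nil .nil))) 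
(.lf (nat_lit 188594) (.g (nat_lit 2945) (.e (nat_lit 65566) (nat_lit 2) (.e (nat_lit 90170) (nat_lit 13) (.e (nat_lit 172106) (nat_lit 10) (.e (nat_lit 434231) (nat_lit 23) (.e (nat_lit 532482) (nat_lit 0) (.e (nat_lit 969) (nat_lit 81) (.e (nat_lit 4491) (nat_lit 263) (.e (nat_lit 1190) (nat_lit 88) .nil)))))))) (.g (nat_lit 5) .nil .nil))))) (.nd (nat_lit 4) (.nd (nat_lit 5) 
(.lf (nat_lit 188554) (.g (nat_lit 1175) (.e (nat_lit 65565) (nat_lit 1) (.e (nat_lit 57683) (nat_lit 155) (.e (nat_lit 122916) (nat_lit 14) (.e (nat_lit 352257) (nat_lit 0) .nil)))) .nil)) 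
(.lf (nat_lit 188586) (.g (nat_lit 1473) (.e (nat_lit 65566) (nat_lit 2) (.e (nat_lit 90170) (nat_lit 13) (.e (nat_lit 172106) (nat_lit 10) (.e (nat_lit 434229) (nat_lit 22) .nil)))) .nil))) (.nd (nat_lit 5) 
(.lf (nat_lit 188570) (.g (nat_lit 3568) (.e (nat_lit 65565) (nat_lit 1) (.e (nat_lit 57849) (nat_lit 252) (.e (nat_lit 57375) (nat_lit 2) (.e (nat_lit 90160) (nat_lit 11) (.e (nat_lit 24665) (nat_lit 14) (.e (nat_lit 401414) (nat_lit 0) (.e (nat_lit 3578) (nat_lit 223) (.e (nat_lit 745491) (nat_lit 4) .nil)))))))) (.g (nat_lit 4) .nil .nil))) 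
(.lf (nat_lit 188602) (.g (nat_lit 1174) (.e (nat_lit 65566) (nat_lit 2) (.e (nat_lit 90170) (nat_lit 13) (.e (nat_lit 172106) (nat_lit 10) (.e (nat_lit 434231) (nat_lit 23) (.e (nat_lit 532486) (nat_lit 0) .nil))))) .nil))))) (.nd (nat_lit 3) (.nd (nat_lit 4) (.nd (nat_lit 5) 
(.lf (nat_lit 188550) (.g (nat_lit 648) (.e (nat_lit 65565) (nat_lit 1) (.e (nat_lit 57681) (nat_lit 155) (.e (nat_lit 122917) (nat_lit 15) .nil))) .nil)) 
(.lf (nat_lit 188582) (.g (nat_lit 942) (.e (nat_lit 65566) (nat_lit 2) (.e (nat_lit 90170) (nat_lit 13) (.e (nat_lit 172082) (nat_lit 7) .nil))) .nil))) (.nd (nat_lit 5) 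
(.lf (nat_lit 188566) (.g (nat_lit 2925) (.e (nat_lit 65565) (nat_lit 1) (.e (nat_lit 57849) (nat_lit 252) (.e (nat_lit 57368) (nat_lit 1) (.e (nat_lit 57851) (nat_lit 252) (.e (nat_lit 57427) (nat_lit 15) (.e (nat_lit 360478) (nat_lit 12) (.e (nat_lit 622616) (nat_lit 9) .nil))))))) (.g (nat_lit 5) .nil .nil))) 
(.lf (nat_lit 188598) (.g (nat_lit 2470) (.e (nat_lit 65566) (nat_lit 2) (.e (nat_lit 90170) (nat_lit 13) (.e (nat_lit 172106) (nat_lit 10) (.e (nat_lit 434231) (nat_lit 23) (.e (nat_lit 532483) (nat_lit 0) (.e (nat_lit 1036) (nat_lit 81) (.e (nat_lit 4511) (nat_lit 263) (.e (nat_lit 1196) (nat_lit 88) .nil)))))))) (.g (nat_lit 4) .nil .nil))))) (.nd (nat_lit 4) (.nd (nat_lit 5) 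
(.lf (nat_lit 188558) (.g (nat_lit 1273) (.e (nat_lit 65565) (nat_lit 1) (.e (nat_lit 57684) (nat_lit 155) (.e (nat_lit 122916) (nat_lit 14) (.e (nat_lit 352272) (nat_lit 10) (.e (nat_lit 417796) (nat_lit 0) (.e (nat_lit 5402) (nat_lit 302) .nil)))))) (.g (nat_lit 5) .nil .nil))) 
(.lf (nat_lit 188590) (.g (nat_lit 1885) (.e (nat_lit 65566) (nat_lit 2) (.e (nat_lit 90170) (nat_lit 13) (.e (nat_lit 172106) (nat_lit 10) (.e (nat_lit 434229) (nat_lit 22) (.e (nat_lit 524330) (nat_lit 17) .nil))))) .nil))) (.nd (nat_lit 5) 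
(.lf (nat_lit 188574) (.g (nat_lit 105) (.e (nat_lit 65565) (nat_lit 1) (.e (nat_lit 57871) (nat_lit 264) (.e (nat_lit 1209) (nat_lit 89) .nil))) .nil)) 
(.lf (nat_lit 188606) (.g (nat_lit 2947) (.e (nat_lit 65566) (nat_lit 2) (.e (nat_lit 90170) (nat_lit 13) (.e (nat_lit 172106) (nat_lit 10) (.e (nat_lit 434231) (nat_lit 23) (.e (nat_lit 532490) (nat_lit 0) (.e (nat_lit 991) (nat_lit 81) (.e (nat_lit 4500) (nat_lit 263) (.e (nat_lit 1188) (nat_lit 88) .nil)))))))) (.g (nat_lit 5) .nil .nil)))))))) 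
(.nd (nat_lit 1) (.nd (nat_lit 2) (.nd (nat_lit 3) (.nd (nat_lit 4) (.nd (nat_lit 5) 
(.lf (nat_lit 188545) (.g (nat_lit 4518) (.e (nat_lit 65564) (nat_lit 1) (.e (nat_lit 57681) (nat_lit 155) (.e (nat_lit 122919) (nat_lit 15) (.e (nat_lit 360451) (nat_lit 0) (.e (nat_lit 7265) (nat_lit 384) (.e (nat_lit 57347) (nat_lit 0) (.e (nat_lit 7936) (nat_lit 347) .nil))))))) (.g (nat_lit 6) .nil .nil))) 
(.lf (nat_lit 188577) (.g (nat_lit 4472) (.e (nat_lit 65565) (nat_lit 1) (.e (nat_lit 57873) (nat_lit 264) (.e (nat_lit 1181) (nat_lit 87) (.e (nat_lit 57480) (nat_lit 28) (.e (nat_lit 557107) (nat_lit 15) (.e (nat_lit 188447) (nat_lit 22) (.e (nat_lit 196666) (nat_lit 13) .nil))))))) (.g (nat_lit 7) .nil .nil)))) (.nd (nat_lit 5) 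
(.lf (nat_lit 188561) (.g (nat_lit 2042) (.e (nat_lit 65565) (nat_lit 1) (.e (nat_lit 57848) (nat_lit 252) (.e (nat_lit 57367) (nat_lit 1) (.e (nat_lit 57847) (nat_lit 252) (.e (nat_lit 57411) (nat_lit 12) (.e (nat_lit 336182) (nat_lit 11) (.e (nat_lit 368689) (nat_lit 34) (.e (nat_lit 622616) (nat_lit 9) .nil)))))))) (.g (nat_lit 5) .nil .nil))) 
(.lf (nat_lit 188593) (.g (nat_lit 3982) (.e (nat_lit 65566) (nat_lit 2) (.e (nat_lit 90170) (nat_lit 13) (.e (nat_lit 172106) (nat_lit 10) (.e (nat_lit 434231) (nat_lit 23) (.e (nat_lit 532481) (nat_lit 0) (.e (nat_lit 1050) (nat_lit 81) (.e (nat_lit 4491) (nat_lit 263) (.e (nat_lit 1190) (nat_lit 88) .nil)))))))) (.g (nat_lit 5) .nil .nil))))) (.nd (nat_lit 4) (.nd (nat_lit 5) 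
(.lf (nat_lit 188553) (.g (nat_lit 1092) (.e (nat_lit 65565) (nat_lit 1) (.e (nat_lit 57683) (nat_lit 155) (.e (nat_lit 122914) (nat_lit 14) (.e (nat_lit 352258) (nat_lit 0) (.e (nat_lit 7088) (nat_lit 379) .nil))))) .nil)) 
(.lf (nat_lit 188585) (.g (nat_lit 3900) (.e (nat_lit 65566) (nat_lit 2) (.e (nat_lit 90170) (nat_lit 13) (.e (nat_lit 172082) (nat_lit 7) (.e (nat_lit 409617) (nat_lit 10) (.e (nat_lit 632) (nat_lit 50) (.e (nat_lit 573475) (nat_lit 12) (.e (nat_lit 57520) (nat_lit 44) (.e (nat_lit 688177) (nat_lit 16) .nil)))))))) (.g (nat_lit 5) .nil .nil)))) (.nd (nat_lit 5) 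
(.lf (nat_lit 188569) (.g (nat_lit 3760) (.e (nat_lit 65565) (nat_lit 1) (.e (nat_lit 57849) (nat_lit 252) (.e (nat_lit 57368) (nat_lit 1) (.e (nat_lit 57854) (nat_lit 252) (.e (nat_lit 57427) (nat_lit 15) (.e (nat_lit 360478) (nat_lit 12) (.e (nat_lit 622616) (nat_lit 9) .nil))))))) (.g (nat_lit 5) .nil .nil))) 
(.lf (nat_lit 188601) (.g (nat_lit 2045) (.e (nat_lit 65566) (nat_lit 2) (.e (nat_lit 90170) (nat_lit 13) (.e (nat_lit 172106) (nat_lit 10) (.e (nat_lit 434231) (nat_lit 23) (.e (nat_lit 532485) (nat_lit 0) (.e (nat_lit 1906) (nat_lit 129) (.e (nat_lit 598038) (nat_lit 8) .nil))))))) (.g (nat_lit 4) .nil .nil)))))) (.nd (nat_lit 3) (.nd (nat_lit 4) (.nd (nat_lit 5) 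
(.lf (nat_lit 188549) (.g (nat_lit 601) (.e (nat_lit 65565) (nat_lit 1) (.e (nat_lit 57681) (nat_lit 155) (.e (nat_lit 122914) (nat_lit 14) .nil))) .nil)) 
(.lf (nat_lit 188581) (.g (nat_lit 4020) (.e (nat_lit 65566) (nat_lit 2) (.e (nat_lit 90170) (nat_lit 13) (.e (nat_lit 172079) (nat_lit 7) (.e (nat_lit 409611) (nat_lit 10) (.e (nat_lit 604) (nat_lit 45) (.e (nat_lit 532501) (nat_lit 1) (.e (nat_lit 57830) (nat_lit 250) (.e (nat_lit 1201) (nat_lit 88) .nil)))))))) (.g (nat_lit 8) .nil .nil)))) (.nd (nat_lit 5) 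
(.lf (nat_lit 188565) (.g (nat_lit 1909) (.e (nat_lit 65565) (nat_lit 1) (.e (nat_lit 57849) (nat_lit 252) (.e (nat_lit 57367) (nat_lit 1) (.e (nat_lit 57844) (nat_lit 252) (.e (nat_lit 57427) (nat_lit 15) (.e (nat_lit 360478) (nat_lit 12) (.e (nat_lit 622616) (nat_lit 9) .nil))))))) (.g (nat_lit 4) .nil .nil))) 
(.lf (nat_lit 188597) (.g (nat_lit 2643) (.e (nat_lit 65566) (nat_lit 2) (.e (nat_lit 90170) (nat_lit 13) (.e (nat_lit 172106) (nat_lit 10) (.e (nat_lit 434231) (nat_lit 23) (.e (nat_lit 532483) (nat_lit 0) (.e (nat_lit 1036) (nat_lit 81) (.e (nat_lit 4511) (nat_lit 263) (.e (nat_lit 1187) (nat_lit 88) .nil)))))))) (.g (nat_lit 4) .nil .nil))))) (.nd (nat_lit 4) (.nd (nat_lit 5) 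
(.lf (nat_lit 188557) (.g (nat_lit 1399) (.e (nat_lit 65565) (nat_lit 1) (.e (nat_lit 57684) (nat_lit 155) (.e (nat_lit 122914) (nat_lit 14) (.e (nat_lit 352272) (nat_lit 10) (.e (nat_lit 417795) (nat_lit 0) (.e (nat_lit 5401) (nat_lit 302) .nil)))))) (.g (nat_lit 6) .nil .nil))) 
(.lf (nat_lit 188589) (.g (nat_lit 3092) (.e (nat_lit 65566) (nat_lit 2) (.e (nat_lit 90170) (nat_lit 13) (.e (nat_lit 172106) (nat_lit 10) (.e (nat_lit 434229) (nat_lit 22) (.e (nat_lit 524291) (nat_lit 0) (.e (nat_lit 3391) (nat_lit 210) (.e (nat_lit 639021) (nat_lit 16) .nil))))))) (.g (nat_lit 7) .nil .nil)))) (.nd (nat_lit 5) 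
(.lf (nat_lit 188573) (.g (nat_lit 2941) (.e (nat_lit 65565) (nat_lit 1) (.e (nat_lit 57849) (nat_lit 252) (.e (nat_lit 57379) (nat_lit 3) (.e (nat_lit 98334) (nat_lit 18) (.e (nat_lit 164399) (nat_lit 256) .nil))))) .nil)) 
(.lf (nat_lit 188605) (.g (nat_lit 3039) (.e (nat_lit 65566) (nat_lit 2) (.e (nat_lit 90170) (nat_lit 13) (.e (nat_lit 172106) (nat_lit 10) (.e (nat_lit 434231) (nat_lit 23) (.e (nat_lit 532490) (nat_lit 0) (.e (nat_lit 990) (nat_lit 81) (.e (nat_lit 4500) (nat_lit 263) (.e (nat_lit 1200) (nat_lit 88) .nil)))))))) (.g (nat_lit 5) .nil .nil))))))) 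
(.nd (nat_lit 2) (.nd (nat_lit 3) (.nd (nat_lit 4) (.nd (nat_lit 5) 
(.lf (nat_lit 188547) (.g (nat_lit 1854) (.e (nat_lit 65564) (nat_lit 1) (.e (nat_lit 57849) (nat_lit 252) (.e (nat_lit 57377) (nat_lit 3) (.e (nat_lit 106240) (nat_lit 11) .nil)))) .nil)) 
(.lf (nat_lit 188579) (.g (nat_lit 958) (.e (nat_lit 65566) (nat_lit 2) (.e (nat_lit 90170) (nat_lit 13) (.e (nat_lit 172077) (nat_lit 7) .nil))) .nil))) (.nd (nat_lit 5) 
(.lf (nat_lit 188563) (.g (nat_lit 2391) (.e (nat_lit 65565) (nat_lit 1) (.e (nat_lit 57849) (nat_lit 252) (.e (nat_lit 57365) (nat_lit 1) (.e (nat_lit 57854) (nat_lit 252) (.e (nat_lit 57426) (nat_lit 15) .nil))))) .nil)) 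
(.lf (nat_lit 188595) (.g (nat_lit 2808) (.e (nat_lit 65566) (nat_lit 2) (.e (nat_lit 90170) (nat_lit 13) (.e (nat_lit 172106) (nat_lit 10) (.e (nat_lit 434231) (nat_lit 23) (.e (nat_lit 532482) (nat_lit 0) (.e (nat_lit 971) (nat_lit 81) (.e (nat_lit 4493) (nat_lit 263) (.e (nat_lit 1199) (nat_lit 88) .nil)))))))) (.g (nat_lit 5) .nil .nil))))) (.nd (nat_lit 4) (.nd (nat_lit 5) 
(.lf (nat_lit 188555) (.g (nat_lit 1363) (.e (nat_lit 65565) (nat_lit 1) (.e (nat_lit 57683) (nat_lit 155) (.e (nat_lit 122916) (nat_lit 14) (.e (nat_lit 352271) (nat_lit 9) .nil)))) .nil)) 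
(.lf (nat_lit 188587) (.g (nat_lit 2256) (.e (nat_lit 65566) (nat_lit 2) (.e (nat_lit 90170) (nat_lit 13) (.e (nat_lit 172106) (nat_lit 10) (.e (nat_lit 434229) (nat_lit 22) (.e (nat_lit 524291) (nat_lit 0) (.e (nat_lit 3381) (nat_lit 209) (.e (nat_lit 630821) (nat_lit 16) .nil))))))) (.g (nat_lit 4) .nil .nil)))) (.nd (nat_lit 5) 
(.lf (nat_lit 188571) (.g (nat_lit 1370) (.e (nat_lit 65565) (nat_lit 1) (.e (nat_lit 57849) (nat_lit 252) (.e (nat_lit 57377) (nat_lit 3) (.e (nat_lit 98317) (nat_lit 9) .nil)))) .nil)) 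
(.lf (nat_lit 188603) (.g (nat_lit 2955) (.e (nat_lit 65566) (nat_lit 2) (.e (nat_lit 90170) (nat_lit 13) (.e (nat_lit 172106) (nat_lit 10) (.e (nat_lit 434231) (nat_lit 23) (.e (nat_lit 532490) (nat_lit 0) (.e (nat_lit 990) (nat_lit 81) (.e (nat_lit 4500) (nat_lit 263) (.e (nat_lit 1190) (nat_lit 88) .nil)))))))) (.g (nat_lit 5) .nil .nil)))))) (.nd (nat_lit 3) (.nd (nat_lit 4) (.nd (nat_lit 5) 
(.lf (nat_lit 188551) (.g (nat_lit 4546) (.e (nat_lit 65565) (nat_lit 1) (.e (nat_lit 57681) (nat_lit 155) (.e (nat_lit 122919) (nat_lit 15) (.e (nat_lit 360451) (nat_lit 0) (.e (nat_lit 7265) (nat_lit 384) (.e (nat_lit 57347) (nat_lit 0) (.e (nat_lit 7936) (nat_lit 347) .nil))))))) (.g (nat_lit 6) .nil .nil))) 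
(.lf (nat_lit 188583) (.g (nat_lit 1548) (.e (nat_lit 65566) (nat_lit 2) (.e (nat_lit 90170) (nat_lit 13) (.e (nat_lit 172082) (nat_lit 7) (.e (nat_lit 409612) (nat_lit 10) .nil)))) .nil))) (.nd (nat_lit 5) 
(.lf (nat_lit 188567) (.g (nat_lit 3812) (.e (nat_lit 65565) (nat_lit 1) (.e (nat_lit 57849) (nat_lit 252) (.e (nat_lit 57368) (nat_lit 1) (.e (nat_lit 57854) (nat_lit 252) (.e (nat_lit 57409) (nat_lit 12) (.e (nat_lit 336182) (nat_lit 11) (.e (nat_lit 368689) (nat_lit 34) (.e (nat_lit 622616) (nat_lit 9) .nil)))))))) (.g (nat_lit 5) .nil .nil))) 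
(.lf (nat_lit 188599) (.g (nat_lit 2615) (.e (nat_lit 65566) (nat_lit 2) (.e (nat_lit 90170) (nat_lit 13) (.e (nat_lit 172106) (nat_lit 10) (.e (nat_lit 434231) (nat_lit 23) (.e (nat_lit 532483) (nat_lit 0) (.e (nat_lit 1068) (nat_lit 81) (.e (nat_lit 4490) (nat_lit 263) (.e (nat_lit 1190) (nat_lit 88) .nil)))))))) (.g (nat_lit 4) .nil .nil))))) (.nd (nat_lit 4) (.nd (nat_lit 5) 
(.lf (nat_lit 188559) (.g (nat_lit 2496) (.e (nat_lit 65565) (nat_lit 1) (.e (nat_lit 57847) (nat_lit 252) (.e (nat_lit 57365) (nat_lit 1) (.e (nat_lit 57852) (nat_lit 252) (.e (nat_lit 57427) (nat_lit 15) .nil))))) .nil)) 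
(.lf (nat_lit 188591) (.g (nat_lit 3912) (.e (nat_lit 65566) (nat_lit 2) (.e (nat_lit 90170) (nat_lit 13) (.e (nat_lit 172106) (nat_lit 10) (.e (nat_lit 434231) (nat_lit 23) (.e (nat_lit 532481) (nat_lit 0) (.e (nat_lit 979) (nat_lit 81) (.e (nat_lit 4490) (nat_lit 263) (.e (nat_lit 1190) (nat_lit 88) .nil)))))))) (.g (nat_lit 5) .nil .nil)))) (.nd (nat_lit 5) 
(.lf (nat_lit 188575) (.g (nat_lit 1205) (.e (nat_lit 65565) (nat_lit 1) (.e (nat_lit 57872) (nat_lit 264) (.e (nat_lit 1209) (nat_lit 89) (.e (nat_lit 81664) (nat_lit 37) .nil)))) .nil)) 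
(.lf (nat_lit 188607) (.g (nat_lit 3013) (.e (nat_lit 65566) (nat_lit 2) (.e (nat_lit 90170) (nat_lit 13) (.e (nat_lit 172106) (nat_lit 10) (.e (nat_lit 434231) (nat_lit 23) (.e (nat_lit 532490) (nat_lit 0) (.e (nat_lit 991) (nat_lit 81) (.e (nat_lit 4500) (nat_lit 263) (.e (nat_lit 1189) (nat_lit 88) .nil)))))))) (.g (nat_lit 5) .nil .nil)))))))))

noncomputable def tv2499 : DT := (.nd (nat_lit 0) (.nd (nat_lit 1) (.nd (nat_lit 2) (.nd (nat_lit 3) (.nd (nat_lit 4) (.nd (nat_lit 5) 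
(.lf (nat_lit 188608) (.g (nat_lit 2901) (.e (nat_lit 65566) (nat_lit 2) (.e (nat_lit 90170) (nat_lit 13) (.e (nat_lit 172106) (nat_lit 10) (.e (nat_lit 434231) (nat_lit 23) (.e (nat_lit 532490) (nat_lit 0) (.e (nat_lit 1907) (nat_lit 129) (.e (nat_lit 598038) (nat_lit 8) .nil))))))) (.g (nat_lit 5) .nil .nil))) 
(.lf (nat_lit 188640) (.g (nat_lit 2214) (.e (nat_lit 65566) (nat_lit 2) (.e (nat_lit 90170) (nat_lit 13) (.e (nat_lit 172106) (nat_lit 10) (.e (nat_lit 434231) (nat_lit 23) (.e (nat_lit 540416) (nat_lit 18) (.e (nat_lit 164163) (nat_lit 152) (.e (nat_lit 1190) (nat_lit 88) .nil))))))) (.g (nat_lit 4) .nil .nil)))) (.nd (nat_lit 5) 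
(.lf (nat_lit 188624) (.g (nat_lit 3677) (.e (nat_lit 65566) (nat_lit 2) (.e (nat_lit 90170) (nat_lit 13) (.e (nat_lit 172106) (nat_lit 10) (.e (nat_lit 434231) (nat_lit 23) (.e (nat_lit 532500) (nat_lit 1) (.e (nat_lit 65280) (nat_lit 221) (.e (nat_lit 1194) (nat_lit 88) .nil))))))) (.g (nat_lit 5) .nil .nil))) 
(.lf (nat_lit 188656) (.g (nat_lit 2226) (.e (nat_lit 65566) (nat_lit 2) (.e (nat_lit 90170) (nat_lit 13) (.e (nat_lit 172106) (nat_lit 10) (.e (nat_lit 434244) (nat_lit 28) (.e (nat_lit 573468) (nat_lit 10) (.e (nat_lit 8194) (nat_lit 0) (.e (nat_lit 4443) (nat_lit 263) (.e (nat_lit 1195) (nat_lit 88) .nil)))))))) (.g (nat_lit 5) .nil .nil))))) (.nd (nat_lit 4) (.nd (nat_lit 5) 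
(.lf (nat_lit 188616) (.g (nat_lit 3754) (.e (nat_lit 65566) (nat_lit 2) (.e (nat_lit 90170) (nat_lit 13) (.e (nat_lit 172106) (nat_lit 10) (.e (nat_lit 434231) (nat_lit 23) (.e (nat_lit 532499) (nat_lit 1) (.e (nat_lit 65280) (nat_lit 221) (.e (nat_lit 1197) (nat_lit 88) .nil))))))) (.g (nat_lit 5) .nil .nil))) 
(.lf (nat_lit 188648) (.g (nat_lit 1572) (.e (nat_lit 65566) (nat_lit 2) (.e (nat_lit 90170) (nat_lit 13) (.e (nat_lit 172106) (nat_lit 10) (.e (nat_lit 434241) (nat_lit 27) .nil)))) .nil))) (.nd (nat_lit 5) 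
(.lf (nat_lit 188632) (.g (nat_lit 2269) (.e (nat_lit 65566) (nat_lit 2) (.e (nat_lit 90170) (nat_lit 13) (.e (nat_lit 172106) (nat_lit 10) (.e (nat_lit 434231) (nat_lit 23) (.e (nat_lit 532577) (nat_lit 17) .nil))))) .nil)) 
(.lf (nat_lit 188664) (.g (nat_lit 2378) (.e (nat_lit 65566) (nat_lit 2) (.e (nat_lit 90170) (nat_lit 13) (.e (nat_lit 172106) (nat_lit 10) (.e (nat_lit 434244) (nat_lit 28) (.e (nat_lit 573473) (nat_lit 12) (.e (nat_lit 57354) (nat_lit 0) (.e (nat_lit 7147) (nat_lit 382) (.e (nat_lit 1203) (nat_lit 88) .nil)))))))) (.g (nat_lit 4) .nil .nil)))))) 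
(.nd (nat_lit 3) (.nd (nat_lit 4) (.nd (nat_lit 5) 
(.lf (nat_lit 188612) (.g (nat_lit 3397) (.e (nat_lit 65566) (nat_lit 2) (.e (nat_lit 90170) (nat_lit 13) (.e (nat_lit 172106) (nat_lit 10) (.e (nat_lit 434231) (nat_lit 23) (.e (nat_lit 532499) (nat_lit 1) (.e (nat_lit 57767) (nat_lit 221) (.e (nat_lit 1197) (nat_lit 88) .nil))))))) (.g (nat_lit 5) .nil .nil))) 
(.lf (nat_lit 188644) (.g (nat_lit 2198) (.e (nat_lit 65566) (nat_lit 2) (.e (nat_lit 90170) (nat_lit 13) (.e (nat_lit 172106) (nat_lit 10) (.e (nat_lit 434231) (nat_lit 23) (.e (nat_lit 540416) (nat_lit 18) (.e (nat_lit 164166) (nat_lit 152) (.e (nat_lit 1200) (nat_lit 88) .nil))))))) (.g (nat_lit 4) .nil .nil)))) (.nd (nat_lit 5) 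
(.lf (nat_lit 188628) (.g (nat_lit 2029) (.e (nat_lit 65566) (nat_lit 2) (.e (nat_lit 90170) (nat_lit 13) (.e (nat_lit 172106) (nat_lit 10) (.e (nat_lit 434231) (nat_lit 23) (.e (nat_lit 532516) (nat_lit 4) .nil))))) .nil)) 
(.lf (nat_lit 188660) (.g (nat_lit 2356) (.e (nat_lit 65566) (nat_lit 2) (.e (nat_lit 90170) (nat_lit 13) (.e (nat_lit 172106) (nat_lit 10) (.e (nat_lit 434244) (nat_lit 28) (.e (nat_lit 573473) (nat_lit 12) (.e (nat_lit 57348) (nat_lit 0) (.e (nat_lit 7125) (nat_lit 382) (.e (nat_lit 1193) (nat_lit 88) .nil)))))))) (.g (nat_lit 4) .nil .nil))))) (.nd (nat_lit 4) (.nd (nat_lit 5) 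
(.lf (nat_lit 188620) (.g (nat_lit 3605) (.e (nat_lit 65566) (nat_lit 2) (.e (nat_lit 90170) (nat_lit 13) (.e (nat_lit 172106) (nat_lit 10) (.e (nat_lit 434231) (nat_lit 23) (.e (nat_lit 532500) (nat_lit 1) (.e (nat_lit 57767) (nat_lit 221) (.e (nat_lit 1197) (nat_lit 88) .nil))))))) (.g (nat_lit 5) .nil .nil))) 
(.lf (nat_lit 188652) (.g (nat_lit 1943) (.e (nat_lit 65566) (nat_lit 2) (.e (nat_lit 90170) (nat_lit 13) (.e (nat_lit 172106) (nat_lit 10) (.e (nat_lit 434244) (nat_lit 28) (.e (nat_lit 573468) (nat_lit 10) (.e (nat_lit 8193) (nat_lit 0) (.e (nat_lit 4441) (nat_lit 263) (.e (nat_lit 1201) (nat_lit 88) .nil)))))))) (.g (nat_lit 5) .nil .nil)))) (.nd (nat_lit 5) 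
(.lf (nat_lit 188636) (.g (nat_lit 2193) (.e (nat_lit 65566) (nat_lit 2) (.e (nat_lit 90170) (nat_lit 13) (.e (nat_lit 172106) (nat_lit 10) (.e (nat_lit 434231) (nat_lit 23) (.e (nat_lit 540416) (nat_lit 17) (.e (nat_lit 3459) (nat_lit 216) (.e (nat_lit 688176) (nat_lit 16) .nil))))))) (.g (nat_lit 4) .nil .nil))) 
(.lf (nat_lit 188668) (.g (nat_lit 2947) (.e (nat_lit 65566) (nat_lit 2) (.e (nat_lit 90170) (nat_lit 13) (.e (nat_lit 172106) (nat_lit 10) (.e (nat_lit 434244) (nat_lit 28) (.e (nat_lit 573474) (nat_lit 12) (.e (nat_lit 57344) (nat_lit 0) (.e (nat_lit 7124) (nat_lit 382) (.e (nat_lit 1201) (nat_lit 88) .nil)))))))) (.g (nat_lit 5) .nil .nil))))))) 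
(.nd (nat_lit 2) (.nd (nat_lit 3) (.nd (nat_lit 4) (.nd (nat_lit 5) 
(.lf (nat_lit 188610) (.g (nat_lit 3339) (.e (nat_lit 65566) (nat_lit 2) (.e (nat_lit 90170) (nat_lit 13) (.e (nat_lit 172106) (nat_lit 10) (.e (nat_lit 434231) (nat_lit 23) (.e (nat_lit 532499) (nat_lit 1) (.e (nat_lit 57766) (nat_lit 221) (.e (nat_lit 1187) (nat_lit 88) .nil))))))) (.g (nat_lit 5) .nil .nil))) 
(.lf (nat_lit 188642) (.g (nat_lit 2109) (.e (nat_lit 65566) (nat_lit 2) (.e (nat_lit 90170) (nat_lit 13) (.e (nat_lit 172106) (nat_lit 10) (.e (nat_lit 434231) (nat_lit 23) (.e (nat_lit 540416) (nat_lit 18) (.e (nat_lit 164164) (nat_lit 152) (.e (nat_lit 1200) (nat_lit 88) .nil))))))) (.g (nat_lit 4) .nil .nil)))) (.nd (nat_lit 5) 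
(.lf (nat_lit 188626) (.g (nat_lit 2640) (.e (nat_lit 65566) (nat_lit 2) (.e (nat_lit 90170) (nat_lit 13) (.e (nat_lit 172106) (nat_lit 10) (.e (nat_lit 434231) (nat_lit 23) (.e (nat_lit 532500) (nat_lit 1) (.e (nat_lit 65280) (nat_lit 221) (.e (nat_lit 1202) (nat_lit 88) .nil))))))) (.g (nat_lit 4) .nil .nil))) 
(.lf (nat_lit 188658) (.g (nat_lit 2259) (.e (nat_lit 65566) (nat_lit 2) (.e (nat_lit 90170) (nat_lit 13) (.e (nat_lit 172106) (nat_lit 10) (.e (nat_lit 434244) (nat_lit 28) (.e (nat_lit 573473) (nat_lit 12) .nil))))) .nil)))) (.nd (nat_lit 4) (.nd (nat_lit 5) 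
(.lf (nat_lit 188618) (.g (nat_lit 3733) (.e (nat_lit 65566) (nat_lit 2) (.e (nat_lit 90170) (nat_lit 13) (.e (nat_lit 172106) (nat_lit 10) (.e (nat_lit 434231) (nat_lit 23) (.e (nat_lit 532500) (nat_lit 1) (.e (nat_lit 57766) (nat_lit 221) (.e (nat_lit 1187) (nat_lit 88) .nil))))))) (.g (nat_lit 5) .nil .nil))) 
(.lf (nat_lit 188650) (.g (nat_lit 2475) (.e (nat_lit 65566) (nat_lit 2) (.e (nat_lit 90170) (nat_lit 13) (.e (nat_lit 172106) (nat_lit 10) (.e (nat_lit 434244) (nat_lit 28) (.e (nat_lit 573468) (nat_lit 10) (.e (nat_lit 8192) (nat_lit 0) (.e (nat_lit 4441) (nat_lit 263) (.e (nat_lit 1195) (nat_lit 88) .nil)))))))) (.g (nat_lit 5) .nil .nil)))) (.nd (nat_lit 5) 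
(.lf (nat_lit 188634) (.g (nat_lit 2075) (.e (nat_lit 65566) (nat_lit 2) (.e (nat_lit 90170) (nat_lit 13) (.e (nat_lit 172106) (nat_lit 10) (.e (nat_lit 434231) (nat_lit 23) (.e (nat_lit 540416) (nat_lit 17) (.e (nat_lit 3458) (nat_lit 216) (.e (nat_lit 688176) (nat_lit 16) .nil))))))) (.g (nat_lit 4) .nil .nil))) 
(.lf (nat_lit 188666) (.g (nat_lit 3583) (.e (nat_lit 65566) (nat_lit 2) (.e (nat_lit 90170) (nat_lit 13) (.e (nat_lit 172106) (nat_lit 10) (.e (nat_lit 434244) (nat_lit 28) (.e (nat_lit 573473) (nat_lit 12) (.e (nat_lit 57571) (nat_lit 54) (.e (nat_lit 770072) (nat_lit 8) .nil))))))) (.g (nat_lit 5) .nil .nil)))))) (.nd (nat_lit 3) (.nd (nat_lit 4) (.nd (nat_lit 5) 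
(.lf (nat_lit 188614) (.g (nat_lit 3841) (.e (nat_lit 65566) (nat_lit 2) (.e (nat_lit 90170) (nat_lit 13) (.e (nat_lit 172106) (nat_lit 10) (.e (nat_lit 434231) (nat_lit 23) (.e (nat_lit 532499) (nat_lit 1) (.e (nat_lit 65280) (nat_lit 221) (.e (nat_lit 1189) (nat_lit 88) .nil))))))) (.g (nat_lit 5) .nil .nil))) 
(.lf (nat_lit 188646) (.g (nat_lit 2092) (.e (nat_lit 65566) (nat_lit 2) (.e (nat_lit 90170) (nat_lit 13) (.e (nat_lit 172106) (nat_lit 10) (.e (nat_lit 434231) (nat_lit 23) (.e (nat_lit 540416) (nat_lit 18) (.e (nat_lit 164167) (nat_lit 152) (.e (nat_lit 1200) (nat_lit 88) .nil))))))) (.g (nat_lit 4) .nil .nil)))) (.nd (nat_lit 5) 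
(.lf (nat_lit 188630) (.g (nat_lit 2199) (.e (nat_lit 65566) (nat_lit 2) (.e (nat_lit 90170) (nat_lit 13) (.e (nat_lit 172106) (nat_lit 10) (.e (nat_lit 434231) (nat_lit 23) (.e (nat_lit 532517) (nat_lit 4) (.e (nat_lit 130816) (nat_lit 221) (.e (nat_lit 1199) (nat_lit 88) .nil))))))) (.g (nat_lit 4) .nil .nil))) 
(.lf (nat_lit 188662) (.g (nat_lit 3600) (.e (nat_lit 65566) (nat_lit 2) (.e (nat_lit 90170) (nat_lit 13) (.e (nat_lit 172106) (nat_lit 10) (.e (nat_lit 434244) (nat_lit 28) (.e (nat_lit 573473) (nat_lit 12) (.e (nat_lit 57352) (nat_lit 0) (.e (nat_lit 7125) (nat_lit 382) (.e (nat_lit 1201) (nat_lit 88) .nil)))))))) (.g (nat_lit 5) .nil .nil))))) (.nd (nat_lit 4) (.nd (nat_lit 5) 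
(.lf (nat_lit 188622) (.g (nat_lit 2584) (.e (nat_lit 65566) (nat_lit 2) (.e (nat_lit 90170) (nat_lit 13) (.e (nat_lit 172106) (nat_lit 10) (.e (nat_lit 434231) (nat_lit 23) (.e (nat_lit 532500) (nat_lit 1) (.e (nat_lit 65280) (nat_lit 221) (.e (nat_lit 1191) (nat_lit 88) .nil))))))) (.g (nat_lit 4) .nil .nil))) 
(.lf (nat_lit 188654) (.g (nat_lit 2221) (.e (nat_lit 65566) (nat_lit 2) (.e (nat_lit 90170) (nat_lit 13) (.e (nat_lit 172106) (nat_lit 10) (.e (nat_lit 434244) (nat_lit 28) (.e (nat_lit 573468) (nat_lit 10) (.e (nat_lit 8193) (nat_lit 0) (.e (nat_lit 4450) (nat_lit 263) (.e (nat_lit 1199) (nat_lit 88) .nil)))))))) (.g (nat_lit 5) .nil .nil)))) (.nd (nat_lit 5) 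
(.lf (nat_lit 188638) (.g (nat_lit 2055) (.e (nat_lit 65566) (nat_lit 2) (.e (nat_lit 90170) (nat_lit 13) (.e (nat_lit 172106) (nat_lit 10) (.e (nat_lit 434231) (nat_lit 23) (.e (nat_lit 540416) (nat_lit 18) .nil))))) .nil)) 
(.lf (nat_lit 188670) (.g (nat_lit 3139) (.e (nat_lit 65566) (nat_lit 2) (.e (nat_lit 90170) (nat_lit 13) (.e (nat_lit 172106) (nat_lit 10) (.e (nat_lit 434244) (nat_lit 28) (.e (nat_lit 573474) (nat_lit 12) (.e (nat_lit 57347) (nat_lit 0) (.e (nat_lit 7125) (nat_lit 382) (.e (nat_lit 1193) (nat_lit 88) .nil)))))))) (.g (nat_lit 5) .nil .nil)))))))) 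
(.nd (nat_lit 1) (.nd (nat_lit 2) (.nd (nat_lit 3) (.nd (nat_lit 4) (.nd (nat_lit 5) 
(.lf (nat_lit 188609) (.g (nat_lit 2803) (.e (nat_lit 65566) (nat_lit 2) (.e (nat_lit 90170) (nat_lit 13) (.e (nat_lit 172106) (nat_lit 10) (.e (nat_lit 434231) (nat_lit 23) (.e (nat_lit 532490) (nat_lit 0) (.e (nat_lit 1910) (nat_lit 129) (.e (nat_lit 598038) (nat_lit 8) .nil))))))) (.g (nat_lit 5) .nil .nil))) 
(.lf (nat_lit 188641) (.g (nat_lit 2149) (.e (nat_lit 65566) (nat_lit 2) (.e (nat_lit 90170) (nat_lit 13) (.e (nat_lit 172106) (nat_lit 10) (.e (nat_lit 434231) (nat_lit 23) (.e (nat_lit 540416) (nat_lit 18) (.e (nat_lit 164164) (nat_lit 152) (.e (nat_lit 1199) (nat_lit 88) .nil))))))) (.g (nat_lit 4) .nil .nil)))) (.nd (nat_lit 5) 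
(.lf (nat_lit 188625) (.g (nat_lit 3583) (.e (nat_lit 65566) (nat_lit 2) (.e (nat_lit 90170) (nat_lit 13) (.e (nat_lit 172106) (nat_lit 10) (.e (nat_lit 434231) (nat_lit 23) (.e (nat_lit 532500) (nat_lit 1) (.e (nat_lit 65280) (nat_lit 221) (.e (nat_lit 1196) (nat_lit 88) .nil))))))) (.g (nat_lit 5) .nil .nil))) 
(.lf (nat_lit 188657) (.g (nat_lit 2335) (.e (nat_lit 65566) (nat_lit 2) (.e (nat_lit 90170) (nat_lit 13) (.e (nat_lit 172106) (nat_lit 10) (.e (nat_lit 434244) (nat_lit 28) (.e (nat_lit 573468) (nat_lit 10) (.e (nat_lit 8194) (nat_lit 0) (.e (nat_lit 4448) (nat_lit 263) (.e (nat_lit 1199) (nat_lit 88) .nil)))))))) (.g (nat_lit 5) .nil .nil))))) (.nd (nat_lit 4) (.nd (nat_lit 5) 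
(.lf (nat_lit 188617) (.g (nat_lit 2505) (.e (nat_lit 65566) (nat_lit 2) (.e (nat_lit 90170) (nat_lit 13) (.e (nat_lit 172106) (nat_lit 10) (.e (nat_lit 434231) (nat_lit 23) (.e (nat_lit 532500) (nat_lit 1) .nil))))) .nil)) 
(.lf (nat_lit 188649) (.g (nat_lit 4449) (.e (nat_lit 65566) (nat_lit 2) (.e (nat_lit 90170) (nat_lit 13) (.e (nat_lit 172106) (nat_lit 10) (.e (nat_lit 434243) (nat_lit 28) (.e (nat_lit 573474) (nat_lit 12) (.e (nat_lit 57572) (nat_lit 54) (.e (nat_lit 770072) (nat_lit 8) .nil))))))) (.g (nat_lit 7) .nil .nil)))) (.nd (nat_lit 5) 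
(.lf (nat_lit 188633) (.g (nat_lit 2491) (.e (nat_lit 65566) (nat_lit 2) (.e (nat_lit 90170) (nat_lit 13) (.e (nat_lit 172106) (nat_lit 10) (.e (nat_lit 434231) (nat_lit 23) (.e (nat_lit 540416) (nat_lit 17) (.e (nat_lit 3455) (nat_lit 216) (.e (nat_lit 688176) (nat_lit 16) .nil))))))) (.g (nat_lit 4) .nil .nil))) 
(.lf (nat_lit 188665) (.g (nat_lit 2326) (.e (nat_lit 65566) (nat_lit 2) (.e (nat_lit 90170) (nat_lit 13) (.e (nat_lit 172106) (nat_lit 10) (.e (nat_lit 434244) (nat_lit 28) (.e (nat_lit 573473) (nat_lit 12) (.e (nat_lit 57354) (nat_lit 0) (.e (nat_lit 7147) (nat_lit 382) (.e (nat_lit 1204) (nat_lit 88) .nil)))))))) (.g (nat_lit 4) .nil .nil)))))) 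
(.nd (nat_lit 3) (.nd (nat_lit 4) (.nd (nat_lit 5) 
(.lf (nat_lit 188613) (.g (nat_lit 3789) (.e (nat_lit 65566) (nat_lit 2) (.e (nat_lit 90170) (nat_lit 13) (.e (nat_lit 172106) (nat_lit 10) (.e (nat_lit 434231) (nat_lit 23) (.e (nat_lit 532499) (nat_lit 1) (.e (nat_lit 65280) (nat_lit 221) (.e (nat_lit 1188) (nat_lit 88) .nil))))))) (.g (nat_lit 5) .nil .nil))) 
(.lf (nat_lit 188645) (.g (nat_lit 2244) (.e (nat_lit 65566) (nat_lit 2) (.e (nat_lit 90170) (nat_lit 13) (.e (nat_lit 172106) (nat_lit 10) (.e (nat_lit 434231) (nat_lit 23) (.e (nat_lit 540416) (nat_lit 18) (.e (nat_lit 164167) (nat_lit 152) (.e (nat_lit 1199) (nat_lit 88) .nil))))))) (.g (nat_lit 4) .nil .nil)))) (.nd (nat_lit 5) 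
(.lf (nat_lit 188629) (.g (nat_lit 2195) (.e (nat_lit 65566) (nat_lit 2) (.e (nat_lit 90170) (nat_lit 13) (.e (nat_lit 172106) (nat_lit 10) (.e (nat_lit 434231) (nat_lit 23) (.e (nat_lit 532517) (nat_lit 4) (.e (nat_lit 123116) (nat_lit 221) (.e (nat_lit 1200) (nat_lit 88) .nil))))))) (.g (nat_lit 4) .nil .nil))) 
(.lf (nat_lit 188661) (.g (nat_lit 3651) (.e (nat_lit 65566) (nat_lit 2) (.e (nat_lit 90170) (nat_lit 13) (.e (nat_lit 172106) (nat_lit 10) (.e (nat_lit 434244) (nat_lit 28) (.e (nat_lit 573473) (nat_lit 12) (.e (nat_lit 57348) (nat_lit 0) (.e (nat_lit 7236) (nat_lit 382) (.e (nat_lit 1199) (nat_lit 88) .nil)))))))) (.g (nat_lit 5) .nil .nil))))) (.nd (nat_lit 4) (.nd (nat_lit 5) 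
(.lf (nat_lit 188621) (.g (nat_lit 3852) (.e (nat_lit 65566) (nat_lit 2) (.e (nat_lit 90170) (nat_lit 13) (.e (nat_lit 172106) (nat_lit 10) (.e (nat_lit 434231) (nat_lit 23) (.e (nat_lit 532500) (nat_lit 1) (.e (nat_lit 65280) (nat_lit 221) (.e (nat_lit 1190) (nat_lit 88) .nil))))))) (.g (nat_lit 5) .nil .nil))) 
(.lf (nat_lit 188653) (.g (nat_lit 2019) (.e (nat_lit 65566) (nat_lit 2) (.e (nat_lit 90170) (nat_lit 13) (.e (nat_lit 172106) (nat_lit 10) (.e (nat_lit 434244) (nat_lit 28) (.e (nat_lit 573468) (nat_lit 10) (.e (nat_lit 8193) (nat_lit 0) (.e (nat_lit 4448) (nat_lit 263) (.e (nat_lit 1199) (nat_lit 88) .nil)))))))) (.g (nat_lit 5) .nil .nil)))) (.nd (nat_lit 5) 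
(.lf (nat_lit 188637) (.g (nat_lit 2548) (.e (nat_lit 65566) (nat_lit 2) (.e (nat_lit 90170) (nat_lit 13) (.e (nat_lit 172106) (nat_lit 10) (.e (nat_lit 434231) (nat_lit 23) (.e (nat_lit 540416) (nat_lit 17) (.e (nat_lit 3460) (nat_lit 216) (.e (nat_lit 688176) (nat_lit 16) .nil))))))) (.g (nat_lit 4) .nil .nil))) 
(.lf (nat_lit 188669) (.g (nat_lit 3158) (.e (nat_lit 65566) (nat_lit 2) (.e (nat_lit 90170) (nat_lit 13) (.e (nat_lit 172106) (nat_lit 10) (.e (nat_lit 434244) (nat_lit 28) (.e (nat_lit 573474) (nat_lit 12) (.e (nat_lit 57344) (nat_lit 0) (.e (nat_lit 7236) (nat_lit 382) (.e (nat_lit 1199) (nat_lit 88) .nil)))))))) (.g (nat_lit 5) .nil .nil))))))) 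
(.nd (nat_lit 2) (.nd (nat_lit 3) (.nd (nat_lit 4) (.nd (nat_lit 5) 
(.lf (nat_lit 188611) (.g (nat_lit 3708) (.e (nat_lit 65566) (nat_lit 2) (.e (nat_lit 90170) (nat_lit 13) (.e (nat_lit 172106) (nat_lit 10) (.e (nat_lit 434231) (nat_lit 23) (.e (nat_lit 532499) (nat_lit 1) (.e (nat_lit 57767) (nat_lit 221) (.e (nat_lit 1196) (nat_lit 88) .nil))))))) (.g (nat_lit 5) .nil .nil))) 
(.lf (nat_lit 188643) (.g (nat_lit 2230) (.e (nat_lit 65566) (nat_lit 2) (.e (nat_lit 90170) (nat_lit 13) (.e (nat_lit 172106) (nat_lit 10) (.e (nat_lit 434231) (nat_lit 23) (.e (nat_lit 540416) (nat_lit 18) (.e (nat_lit 164165) (nat_lit 152) (.e (nat_lit 1199) (nat_lit 88) .nil))))))) (.g (nat_lit 4) .nil .nil)))) (.nd (nat_lit 5) 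
(.lf (nat_lit 188627) (.g (nat_lit 3631) (.e (nat_lit 65566) (nat_lit 2) (.e (nat_lit 90170) (nat_lit 13) (.e (nat_lit 172106) (nat_lit 10) (.e (nat_lit 434231) (nat_lit 23) (.e (nat_lit 532500) (nat_lit 1) (.e (nat_lit 65280) (nat_lit 221) (.e (nat_lit 1204) (nat_lit 88) .nil))))))) (.g (nat_lit 5) .nil .nil))) 
(.lf (nat_lit 188659) (.g (nat_lit 4872) (.e (nat_lit 65566) (nat_lit 2) (.e (nat_lit 90170) (nat_lit 13) (.e (nat_lit 172106) (nat_lit 10) (.e (nat_lit 434244) (nat_lit 28) (.e (nat_lit 573473) (nat_lit 12) (.e (nat_lit 57348) (nat_lit 0) (.e (nat_lit 7124) (nat_lit 382) (.e (nat_lit 1201) (nat_lit 88) .nil)))))))) (.g (nat_lit 0) .nil .nil))))) (.nd (nat_lit 4) (.nd (nat_lit 5) 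
(.lf (nat_lit 188619) (.g (nat_lit 3463) (.e (nat_lit 65566) (nat_lit 2) (.e (nat_lit 90170) (nat_lit 13) (.e (nat_lit 172106) (nat_lit 10) (.e (nat_lit 434231) (nat_lit 23) (.e (nat_lit 532500) (nat_lit 1) (.e (nat_lit 57766) (nat_lit 221) (.e (nat_lit 1196) (nat_lit 88) .nil))))))) (.g (nat_lit 5) .nil .nil))) 
(.lf (nat_lit 188651) (.g (nat_lit 2455) (.e (nat_lit 65566) (nat_lit 2) (.e (nat_lit 90170) (nat_lit 13) (.e (nat_lit 172106) (nat_lit 10) (.e (nat_lit 434244) (nat_lit 28) (.e (nat_lit 573468) (nat_lit 10) (.e (nat_lit 8192) (nat_lit 0) (.e (nat_lit 4448) (nat_lit 263) (.e (nat_lit 1200) (nat_lit 88) .nil)))))))) (.g (nat_lit 5) .nil .nil)))) (.nd (nat_lit 5) 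
(.lf (nat_lit 188635) (.g (nat_lit 2602) (.e (nat_lit 65566) (nat_lit 2) (.e (nat_lit 90170) (nat_lit 13) (.e (nat_lit 172106) (nat_lit 10) (.e (nat_lit 434231) (nat_lit 23) (.e (nat_lit 540416) (nat_lit 17) (.e (nat_lit 3458) (nat_lit 216) (.e (nat_lit 688178) (nat_lit 16) .nil))))))) (.g (nat_lit 4) .nil .nil))) 
(.lf (nat_lit 188667) (.g (nat_lit 4960) (.e (nat_lit 65566) (nat_lit 2) (.e (nat_lit 90170) (nat_lit 13) (.e (nat_lit 172106) (nat_lit 10) (.e (nat_lit 434244) (nat_lit 28) (.e (nat_lit 573473) (nat_lit 12) (.e (nat_lit 57572) (nat_lit 54) (.e (nat_lit 770072) (nat_lit 8) .nil))))))) (.g (nat_lit 0) .nil .nil)))))) (.nd (nat_lit 3) (.nd (nat_lit 4) (.nd (nat_lit 5) 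
(.lf (nat_lit 188615) (.g (nat_lit 3533) (.e (nat_lit 65566) (nat_lit 2) (.e (nat_lit 90170) (nat_lit 13) (.e (nat_lit 172106) (nat_lit 10) (.e (nat_lit 434231) (nat_lit 23) (.e (nat_lit 532499) (nat_lit 1) (.e (nat_lit 65280) (nat_lit 221) (.e (nat_lit 1190) (nat_lit 88) .nil))))))) (.g (nat_lit 5) .nil .nil))) 
(.lf (nat_lit 188647) (.g (nat_lit 1737) (.e (nat_lit 65566) (nat_lit 2) (.e (nat_lit 90170) (nat_lit 13) (.e (nat_lit 172106) (nat_lit 10) (.e (nat_lit 434240) (nat_lit 27) .nil)))) .nil))) (.nd (nat_lit 5) 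
(.lf (nat_lit 188631) (.g (nat_lit 3076) (.e (nat_lit 65566) (nat_lit 2) (.e (nat_lit 90170) (nat_lit 13) (.e (nat_lit 172106) (nat_lit 10) (.e (nat_lit 434231) (nat_lit 23) (.e (nat_lit 532576) (nat_lit 17) (.e (nat_lit 3452) (nat_lit 216) (.e (nat_lit 688178) (nat_lit 16) .nil))))))) (.g (nat_lit 4) .nil .nil))) 
(.lf (nat_lit 188663) (.g (nat_lit 4804) (.e (nat_lit 65566) (nat_lit 2) (.e (nat_lit 90170) (nat_lit 13) (.e (nat_lit 172106) (nat_lit 10) (.e (nat_lit 434244) (nat_lit 28) (.e (nat_lit 573473) (nat_lit 12) (.e (nat_lit 57353) (nat_lit 0) (.e (nat_lit 7124) (nat_lit 382) (.e (nat_lit 1201) (nat_lit 88) .nil)))))))) (.g (nat_lit 0) .nil .nil))))) (.nd (nat_lit 4) (.nd (nat_lit 5) 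
(.lf (nat_lit 188623) (.g (nat_lit 2746) (.e (nat_lit 65566) (nat_lit 2) (.e (nat_lit 90170) (nat_lit 13) (.e (nat_lit 172106) (nat_lit 10) (.e (nat_lit 434231) (nat_lit 23) (.e (nat_lit 532500) (nat_lit 1) (.e (nat_lit 65280) (nat_lit 221) (.e (nat_lit 1192) (nat_lit 88) .nil))))))) (.g (nat_lit 4) .nil .nil))) 
(.lf (nat_lit 188655) (.g (nat_lit 2187) (.e (nat_lit 65566) (nat_lit 2) (.e (nat_lit 90170) (nat_lit 13) (.e (nat_lit 172106) (nat_lit 10) (.e (nat_lit 434244) (nat_lit 28) (.e (nat_lit 573468) (nat_lit 10) (.e (nat_lit 8194) (nat_lit 0) (.e (nat_lit 4441) (nat_lit 263) (.e (nat_lit 1195) (nat_lit 88) .nil)))))))) (.g (nat_lit 5) .nil .nil)))) (.nd (nat_lit 5) 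
(.lf (nat_lit 188639) (.g (nat_lit 2406) (.e (nat_lit 65566) (nat_lit 2) (.e (nat_lit 90170) (nat_lit 13) (.e (nat_lit 172106) (nat_lit 10) (.e (nat_lit 434231) (nat_lit 23) (.e (nat_lit 540416) (nat_lit 18) (.e (nat_lit 164152) (nat_lit 152) (.e (nat_lit 1195) (nat_lit 88) .nil))))))) (.g (nat_lit 4) .nil .nil))) 
(.lf (nat_lit 188671) (.g (nat_lit 3603) (.e (nat_lit 65566) (nat_lit 2) (.e (nat_lit 90170) (nat_lit 13) (.e (nat_lit 172106) (nat_lit 10) (.e (nat_lit 434244) (nat_lit 28) (.e (nat_lit 573474) (nat_lit 12) (.e (nat_lit 57347) (nat_lit 0) (.e (nat_lit 7236) (nat_lit 382) (.e (nat_lit 1199) (nat_lit 88) .nil)))))))) (.g (nat_lit 5) .nil .nil)))))))))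

noncomputable def tv2500 : DT := (.nd (nat_lit 0) (.nd (nat_lit 1) (.nd (nat_lit 2) (.nd (nat_lit 3) (.nd (nat_lit 4) (.nd (nat_lit 5) 
(.lf (nat_lit 188672) (.g (nat_lit 3977) (.e (nat_lit 65566) (nat_lit 2) (.e (nat_lit 90170) (nat_lit 13) (.e (nat_lit 172106) (nat_lit 10) (.e (nat_lit 434244) (nat_lit 28) (.e (nat_lit 573474) (nat_lit 12) (.e (nat_lit 57348) (nat_lit 0) (.e (nat_lit 7122) (nat_lit 382) (.e (nat_lit 1201) (nat_lit 88) .nil)))))))) (.g (nat_lit 6) .nil .nil))) 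
(.lf (nat_lit 188704) (.g (nat_lit 3480) (.e (nat_lit 65566) (nat_lit 2) (.e (nat_lit 90170) (nat_lit 13) (.e (nat_lit 172113) (nat_lit 10) (.e (nat_lit 434245) (nat_lit 28) (.e (nat_lit 573474) (nat_lit 12) (.e (nat_lit 57571) (nat_lit 54) (.e (nat_lit 770071) (nat_lit 8) .nil))))))) (.g (nat_lit 5) .nil .nil)))) (.nd (nat_lit 5) 
(.lf (nat_lit 188688) (.g (nat_lit 1129) (.e (nat_lit 65566) (nat_lit 2) (.e (nat_lit 90170) (nat_lit 13) (.e (nat_lit 172113) (nat_lit 10) (.e (nat_lit 434242) (nat_lit 28) .nil)))) .nil)) 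
(.lf (nat_lit 188720) (.g (nat_lit 2864) (.e (nat_lit 65566) (nat_lit 2) (.e (nat_lit 90170) (nat_lit 13) (.e (nat_lit 172113) (nat_lit 10) (.e (nat_lit 434248) (nat_lit 28) (.e (nat_lit 573475) (nat_lit 12) (.e (nat_lit 57347) (nat_lit 0) (.e (nat_lit 7125) (nat_lit 382) (.e (nat_lit 1191) (nat_lit 88) .nil)))))))) (.g (nat_lit 4) .nil .nil))))) (.nd (nat_lit 4) (.nd (nat_lit 5) 
(.lf (nat_lit 188680) (.g (nat_lit 4390) (.e (nat_lit 65566) (nat_lit 2) (.e (nat_lit 90170) (nat_lit 13) (.e (nat_lit 172106) (nat_lit 10) (.e (nat_lit 434244) (nat_lit 28) (.e (nat_lit 573474) (nat_lit 12) (.e (nat_lit 57354) (nat_lit 0) (.e (nat_lit 7147) (nat_lit 382) (.e (nat_lit 1203) (nat_lit 88) .nil)))))))) (.g (nat_lit 6) .nil .nil))) 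
(.lf (nat_lit 188712) (.g (nat_lit 2114) (.e (nat_lit 65566) (nat_lit 2) (.e (nat_lit 90170) (nat_lit 13) (.e (nat_lit 172113) (nat_lit 10) (.e (nat_lit 434248) (nat_lit 28) (.e (nat_lit 573473) (nat_lit 12) .nil))))) .nil))) (.nd (nat_lit 5) 
(.lf (nat_lit 188696) (.g (nat_lit 2760) (.e (nat_lit 65566) (nat_lit 2) (.e (nat_lit 90170) (nat_lit 13) (.e (nat_lit 172113) (nat_lit 10) (.e (nat_lit 434245) (nat_lit 28) (.e (nat_lit 573474) (nat_lit 12) (.e (nat_lit 57347) (nat_lit 0) (.e (nat_lit 7125) (nat_lit 382) (.e (nat_lit 1191) (nat_lit 88) .nil)))))))) (.g (nat_lit 4) .nil .nil))) 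
(.lf (nat_lit 188728) (.g (nat_lit 2344) (.e (nat_lit 65566) (nat_lit 2) (.e (nat_lit 90170) (nat_lit 13) (.e (nat_lit 172113) (nat_lit 10) (.e (nat_lit 434248) (nat_lit 28) (.e (nat_lit 573475) (nat_lit 12) (.e (nat_lit 57572) (nat_lit 54) (.e (nat_lit 770070) (nat_lit 8) .nil))))))) (.g (nat_lit 4) .nil .nil)))))) (.nd (nat_lit 3) (.nd (nat_lit 4) (.nd (nat_lit 5) 
(.lf (nat_lit 188676) (.g (nat_lit 1958) (.e (nat_lit 65566) (nat_lit 2) (.e (nat_lit 90170) (nat_lit 13) (.e (nat_lit 172106) (nat_lit 10) (.e (nat_lit 434244) (nat_lit 28) (.e (nat_lit 573474) (nat_lit 12) (.e (nat_lit 57351) (nat_lit 0) (.e (nat_lit 7122) (nat_lit 382) (.e (nat_lit 1191) (nat_lit 88) .nil)))))))) (.g (nat_lit 4) .nil .nil))) 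
(.lf (nat_lit 188708) (.g (nat_lit 2418) (.e (nat_lit 65566) (nat_lit 2) (.e (nat_lit 90170) (nat_lit 13) (.e (nat_lit 172113) (nat_lit 10) (.e (nat_lit 434247) (nat_lit 28) (.e (nat_lit 573477) (nat_lit 12) (.e (nat_lit 57570) (nat_lit 54) (.e (nat_lit 770070) (nat_lit 8) .nil))))))) (.g (nat_lit 4) .nil .nil)))) (.nd (nat_lit 5) 
(.lf (nat_lit 188692) (.g (nat_lit 2099) (.e (nat_lit 65566) (nat_lit 2) (.e (nat_lit 90170) (nat_lit 13) (.e (nat_lit 172113) (nat_lit 10) (.e (nat_lit 434245) (nat_lit 28) (.e (nat_lit 573451) (nat_lit 9) .nil))))) .nil)) 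
(.lf (nat_lit 188724) (.g (nat_lit 4406) (.e (nat_lit 65566) (nat_lit 2) (.e (nat_lit 90170) (nat_lit 13) (.e (nat_lit 172113) (nat_lit 10) (.e (nat_lit 434248) (nat_lit 28) (.e (nat_lit 573475) (nat_lit 12) (.e (nat_lit 57353) (nat_lit 0) (.e (nat_lit 7125) (nat_lit 382) (.e (nat_lit 1201) (nat_lit 88) .nil)))))))) (.g (nat_lit 8) .nil .nil))))) (.nd (nat_lit 4) (.nd (nat_lit 5) 
(.lf (nat_lit 188684) (.g (nat_lit 1993) (.e (nat_lit 65566) (nat_lit 2) (.e (nat_lit 90170) (nat_lit 13) (.e (nat_lit 172106) (nat_lit 10) (.e (nat_lit 434244) (nat_lit 28) (.e (nat_lit 573474) (nat_lit 12) (.e (nat_lit 65280) (nat_lit 0) (.e (nat_lit 7236) (nat_lit 382) (.e (nat_lit 1199) (nat_lit 88) .nil)))))))) (.g (nat_lit 4) .nil .nil))) 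
(.lf (nat_lit 188716) (.g (nat_lit 3193) (.e (nat_lit 65566) (nat_lit 2) (.e (nat_lit 90170) (nat_lit 13) (.e (nat_lit 172113) (nat_lit 10) (.e (nat_lit 434248) (nat_lit 28) (.e (nat_lit 573475) (nat_lit 12) (.e (nat_lit 57344) (nat_lit 0) (.e (nat_lit 7122) (nat_lit 382) (.e (nat_lit 1201) (nat_lit 88) .nil)))))))) (.g (nat_lit 5) .nil .nil)))) (.nd (nat_lit 5) 
(.lf (nat_lit 188700) (.g (nat_lit 3709) (.e (nat_lit 65566) (nat_lit 2) (.e (nat_lit 90170) (nat_lit 13) (.e (nat_lit 172113) (nat_lit 10) (.e (nat_lit 434245) (nat_lit 28) (.e (nat_lit 573474) (nat_lit 12) (.e (nat_lit 57352) (nat_lit 0) (.e (nat_lit 7122) (nat_lit 382) (.e (nat_lit 1201) (nat_lit 88) .nil)))))))) (.g (nat_lit 5) .nil .nil))) 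
(.lf (nat_lit 188732) (.g (nat_lit 772) (.e (nat_lit 65566) (nat_lit 2) (.e (nat_lit 90172) (nat_lit 14) (.e (nat_lit 180285) (nat_lit 45) .nil))) .nil)))))) (.nd (nat_lit 2) (.nd (nat_lit 3) (.nd (nat_lit 4) (.nd (nat_lit 5) 
(.lf (nat_lit 188674) (.g (nat_lit 5037) (.e (nat_lit 65566) (nat_lit 2) (.e (nat_lit 90170) (nat_lit 13) (.e (nat_lit 172106) (nat_lit 10) (.e (nat_lit 434244) (nat_lit 28) (.e (nat_lit 573474) (nat_lit 12) (.e (nat_lit 57348) (nat_lit 0) (.e (nat_lit 7125) (nat_lit 382) (.e (nat_lit 1201) (nat_lit 88) .nil)))))))) (.g (nat_lit 8) .nil .nil))) 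
(.lf (nat_lit 188706) (.g (nat_lit 4285) (.e (nat_lit 65566) (nat_lit 2) (.e (nat_lit 90170) (nat_lit 13) (.e (nat_lit 172113) (nat_lit 10) (.e (nat_lit 434247) (nat_lit 28) (.e (nat_lit 573474) (nat_lit 12) (.e (nat_lit 57572) (nat_lit 54) (.e (nat_lit 770072) (nat_lit 8) .nil))))))) (.g (nat_lit 6) .nil .nil)))) (.nd (nat_lit 5) 
(.lf (nat_lit 188690) (.g (nat_lit 4095) (.e (nat_lit 65566) (nat_lit 2) (.e (nat_lit 90170) (nat_lit 13) (.e (nat_lit 172113) (nat_lit 10) (.e (nat_lit 434242) (nat_lit 28) (.e (nat_lit 573474) (nat_lit 12) (.e (nat_lit 57348) (nat_lit 0) (.e (nat_lit 7236) (nat_lit 382) (.e (nat_lit 1199) (nat_lit 88) .nil)))))))) (.g (nat_lit 5) .nil .nil))) 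
(.lf (nat_lit 188722) (.g (nat_lit 2575) (.e (nat_lit 65566) (nat_lit 2) (.e (nat_lit 90170) (nat_lit 13) (.e (nat_lit 172113) (nat_lit 10) (.e (nat_lit 434248) (nat_lit 28) (.e (nat_lit 573475) (nat_lit 12) (.e (nat_lit 57348) (nat_lit 0) (.e (nat_lit 7125) (nat_lit 382) (.e (nat_lit 1193) (nat_lit 88) .nil)))))))) (.g (nat_lit 4) .nil .nil))))) (.nd (nat_lit 4) (.nd (nat_lit 5) 
(.lf (nat_lit 188682) (.g (nat_lit 3099) (.e (nat_lit 65566) (nat_lit 2) (.e (nat_lit 90170) (nat_lit 13) (.e (nat_lit 172106) (nat_lit 10) (.e (nat_lit 434244) (nat_lit 28) (.e (nat_lit 573474) (nat_lit 12) (.e (nat_lit 57356) (nat_lit 0) (.e (nat_lit 7147) (nat_lit 382) (.e (nat_lit 1203) (nat_lit 88) .nil)))))))) (.g (nat_lit 5) .nil .nil))) 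
(.lf (nat_lit 188714) (.g (nat_lit 4217) (.e (nat_lit 65566) (nat_lit 2) (.e (nat_lit 90170) (nat_lit 13) (.e (nat_lit 172113) (nat_lit 10) (.e (nat_lit 434248) (nat_lit 28) (.e (nat_lit 573473) (nat_lit 12) (.e (nat_lit 57353) (nat_lit 0) (.e (nat_lit 7124) (nat_lit 382) (.e (nat_lit 1201) (nat_lit 88) .nil)))))))) (.g (nat_lit 0) .nil .nil)))) (.nd (nat_lit 5) 
(.lf (nat_lit 188698) (.g (nat_lit 4158) (.e (nat_lit 65566) (nat_lit 2) (.e (nat_lit 90170) (nat_lit 13) (.e (nat_lit 172113) (nat_lit 10) (.e (nat_lit 434245) (nat_lit 28) (.e (nat_lit 573474) (nat_lit 12) (.e (nat_lit 57348) (nat_lit 0) (.e (nat_lit 7122) (nat_lit 382) (.e (nat_lit 1201) (nat_lit 88) .nil)))))))) (.g (nat_lit 6) .nil .nil))) 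
(.lf (nat_lit 188730) (.g (nat_lit 2421) (.e (nat_lit 65566) (nat_lit 2) (.e (nat_lit 90170) (nat_lit 13) (.e (nat_lit 172113) (nat_lit 10) (.e (nat_lit 434248) (nat_lit 28) (.e (nat_lit 573476) (nat_lit 12) (.e (nat_lit 57353) (nat_lit 0) (.e (nat_lit 7125) (nat_lit 382) (.e (nat_lit 1201) (nat_lit 88) .nil)))))))) (.g (nat_lit 4) .nil .nil)))))) 
(.nd (nat_lit 3) (.nd (nat_lit 4) (.nd (nat_lit 5) 
(.lf (nat_lit 188678) (.g (nat_lit 2059) (.e (nat_lit 65566) (nat_lit 2) (.e (nat_lit 90170) (nat_lit 13) (.e (nat_lit 172106) (nat_lit 10) (.e (nat_lit 434244) (nat_lit 28) (.e (nat_lit 573474) (nat_lit 12) (.e (nat_lit 57351) (nat_lit 0) (.e (nat_lit 7236) (nat_lit 382) (.e (nat_lit 1199) (nat_lit 88) .nil)))))))) (.g (nat_lit 4) .nil .nil))) 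
(.lf (nat_lit 188710) (.g (nat_lit 2385) (.e (nat_lit 65566) (nat_lit 2) (.e (nat_lit 90170) (nat_lit 13) (.e (nat_lit 172113) (nat_lit 10) (.e (nat_lit 434247) (nat_lit 28) (.e (nat_lit 573478) (nat_lit 12) (.e (nat_lit 57352) (nat_lit 0) (.e (nat_lit 7125) (nat_lit 382) (.e (nat_lit 1201) (nat_lit 88) .nil)))))))) (.g (nat_lit 4) .nil .nil)))) (.nd (nat_lit 5) 
(.lf (nat_lit 188694) (.g (nat_lit 1993) (.e (nat_lit 65566) (nat_lit 2) (.e (nat_lit 90170) (nat_lit 13) (.e (nat_lit 172113) (nat_lit 10) (.e (nat_lit 434245) (nat_lit 28) (.e (nat_lit 573474) (nat_lit 12) .nil))))) .nil)) 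
(.lf (nat_lit 188726) (.g (nat_lit 2620) (.e (nat_lit 65566) (nat_lit 2) (.e (nat_lit 90170) (nat_lit 13) (.e (nat_lit 172113) (nat_lit 10) (.e (nat_lit 434248) (nat_lit 28) (.e (nat_lit 573475) (nat_lit 12) (.e (nat_lit 57571) (nat_lit 54) (.e (nat_lit 770070) (nat_lit 8) .nil))))))) (.g (nat_lit 4) .nil .nil))))) (.nd (nat_lit 4) (.nd (nat_lit 5) 
(.lf (nat_lit 188686) (.g (nat_lit 942) (.e (nat_lit 65566) (nat_lit 2) (.e (nat_lit 90170) (nat_lit 13) (.e (nat_lit 172107) (nat_lit 10) .nil))) .nil)) 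
(.lf (nat_lit 188718) (.g (nat_lit 2602) (.e (nat_lit 65566) (nat_lit 2) (.e (nat_lit 90170) (nat_lit 13) (.e (nat_lit 172113) (nat_lit 10) (.e (nat_lit 434248) (nat_lit 28) (.e (nat_lit 573475) (nat_lit 12) (.e (nat_lit 57345) (nat_lit 0) (.e (nat_lit 7125) (nat_lit 382) (.e (nat_lit 1201) (nat_lit 88) .nil)))))))) (.g (nat_lit 4) .nil .nil)))) (.nd (nat_lit 5) 
(.lf (nat_lit 188702) (.g (nat_lit 2573) (.e (nat_lit 65566) (nat_lit 2) (.e (nat_lit 90170) (nat_lit 13) (.e (nat_lit 172113) (nat_lit 10) (.e (nat_lit 434245) (nat_lit 28) (.e (nat_lit 573474) (nat_lit 12) (.e (nat_lit 57570) (nat_lit 54) (.e (nat_lit 770070) (nat_lit 8) .nil))))))) (.g (nat_lit 4) .nil .nil))) 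
(.lf (nat_lit 188734) (.g (nat_lit 423) (.e (nat_lit 65566) (nat_lit 2) (.e (nat_lit 90176) (nat_lit 15) (.e (nat_lit 188450) (nat_lit 23) .nil))) .nil))))))) (.nd (nat_lit 1) (.nd (nat_lit 2) (.nd (nat_lit 3) (.nd (nat_lit 4) (.nd (nat_lit 5) 
(.lf (nat_lit 188673) (.g (nat_lit 2209) (.e (nat_lit 65566) (nat_lit 2) (.e (nat_lit 90170) (nat_lit 13) (.e (nat_lit 172106) (nat_lit 10) (.e (nat_lit 434244) (nat_lit 28) (.e (nat_lit 573474) (nat_lit 12) (.e (nat_lit 57348) (nat_lit 0) (.e (nat_lit 7125) (nat_lit 382) (.e (nat_lit 1193) (nat_lit 88) .nil)))))))) (.g (nat_lit 4) .nil .nil))) 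
(.lf (nat_lit 188705) (.g (nat_lit 2778) (.e (nat_lit 65566) (nat_lit 2) (.e (nat_lit 90170) (nat_lit 13) (.e (nat_lit 172113) (nat_lit 10) (.e (nat_lit 434245) (nat_lit 28) (.e (nat_lit 573474) (nat_lit 12) (.e (nat_lit 57572) (nat_lit 54) (.e (nat_lit 770070) (nat_lit 8) .nil))))))) (.g (nat_lit 4) .nil .nil)))) (.nd (nat_lit 5) 
(.lf (nat_lit 188689) (.g (nat_lit 3617) (.e (nat_lit 65566) (nat_lit 2) (.e (nat_lit 90170) (nat_lit 13) (.e (nat_lit 172113) (nat_lit 10) (.e (nat_lit 434242) (nat_lit 28) (.e (nat_lit 573474) (nat_lit 12) (.e (nat_lit 57347) (nat_lit 0) (.e (nat_lit 7236) (nat_lit 382) (.e (nat_lit 1199) (nat_lit 88) .nil)))))))) (.g (nat_lit 5) .nil .nil))) 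
(.lf (nat_lit 188721) (.g (nat_lit 3443) (.e (nat_lit 65566) (nat_lit 2) (.e (nat_lit 90170) (nat_lit 13) (.e (nat_lit 172113) (nat_lit 10) (.e (nat_lit 434248) (nat_lit 28) (.e (nat_lit 573475) (nat_lit 12) (.e (nat_lit 57347) (nat_lit 0) (.e (nat_lit 7125) (nat_lit 382) (.e (nat_lit 1193) (nat_lit 88) .nil)))))))) (.g (nat_lit 5) .nil .nil))))) (.nd (nat_lit 4) (.nd (nat_lit 5) 
(.lf (nat_lit 188681) (.g (nat_lit 4339) (.e (nat_lit 65566) (nat_lit 2) (.e (nat_lit 90170) (nat_lit 13) (.e (nat_lit 172106) (nat_lit 10) (.e (nat_lit 434244) (nat_lit 28) (.e (nat_lit 573474) (nat_lit 12) (.e (nat_lit 57354) (nat_lit 0) (.e (nat_lit 7147) (nat_lit 382) (.e (nat_lit 1204) (nat_lit 88) .nil)))))))) (.g (nat_lit 6) .nil .nil))) 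
(.lf (nat_lit 188713) (.g (nat_lit 4297) (.e (nat_lit 65566) (nat_lit 2) (.e (nat_lit 90170) (nat_lit 13) (.e (nat_lit 172113) (nat_lit 10) (.e (nat_lit 434248) (nat_lit 28) (.e (nat_lit 573473) (nat_lit 12) (.e (nat_lit 57348) (nat_lit 0) (.e (nat_lit 7124) (nat_lit 382) (.e (nat_lit 1201) (nat_lit 88) .nil)))))))) (.g (nat_lit 0) .nil .nil)))) (.nd (nat_lit 5) 
(.lf (nat_lit 188697) (.g (nat_lit 3342) (.e (nat_lit 65566) (nat_lit 2) (.e (nat_lit 90170) (nat_lit 13) (.e (nat_lit 172113) (nat_lit 10) (.e (nat_lit 434245) (nat_lit 28) (.e (nat_lit 573474) (nat_lit 12) (.e (nat_lit 57347) (nat_lit 0) (.e (nat_lit 7125) (nat_lit 382) (.e (nat_lit 1193) (nat_lit 88) .nil)))))))) (.g (nat_lit 5) .nil .nil))) 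
(.lf (nat_lit 188729) (.g (nat_lit 4949) (.e (nat_lit 65566) (nat_lit 2) (.e (nat_lit 90170) (nat_lit 13) (.e (nat_lit 172113) (nat_lit 10) (.e (nat_lit 434248) (nat_lit 28) (.e (nat_lit 573475) (nat_lit 12) (.e (nat_lit 57572) (nat_lit 54) (.e (nat_lit 770072) (nat_lit 8) .nil))))))) (.g (nat_lit 0) .nil .nil)))))) (.nd (nat_lit 3) (.nd (nat_lit 4) (.nd (nat_lit 5) 
(.lf (nat_lit 188677) (.g (nat_lit 2003) (.e (nat_lit 65566) (nat_lit 2) (.e (nat_lit 90170) (nat_lit 13) (.e (nat_lit 172106) (nat_lit 10) (.e (nat_lit 434244) (nat_lit 28) (.e (nat_lit 573474) (nat_lit 12) (.e (nat_lit 57351) (nat_lit 0) (.e (nat_lit 7125) (nat_lit 382) (.e (nat_lit 1193) (nat_lit 88) .nil)))))))) (.g (nat_lit 4) .nil .nil))) 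
(.lf (nat_lit 188709) (.g (nat_lit 2129) (.e (nat_lit 65566) (nat_lit 2) (.e (nat_lit 90170) (nat_lit 13) (.e (nat_lit 172113) (nat_lit 10) (.e (nat_lit 434247) (nat_lit 28) (.e (nat_lit 573478) (nat_lit 12) .nil))))) .nil))) (.nd (nat_lit 5) 
(.lf (nat_lit 188693) (.g (nat_lit 2002) (.e (nat_lit 65566) (nat_lit 2) (.e (nat_lit 90170) (nat_lit 13) (.e (nat_lit 172113) (nat_lit 10) (.e (nat_lit 434245) (nat_lit 28) (.e (nat_lit 573473) (nat_lit 12) .nil))))) .nil)) 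
(.lf (nat_lit 188725) (.g (nat_lit 2678) (.e (nat_lit 65566) (nat_lit 2) (.e (nat_lit 90170) (nat_lit 13) (.e (nat_lit 172113) (nat_lit 10) (.e (nat_lit 434248) (nat_lit 28) (.e (nat_lit 573475) (nat_lit 12) (.e (nat_lit 57570) (nat_lit 54) (.e (nat_lit 770070) (nat_lit 8) .nil))))))) (.g (nat_lit 4) .nil .nil))))) (.nd (nat_lit 4) (.nd (nat_lit 5) 
(.lf (nat_lit 188685) (.g (nat_lit 2309) (.e (nat_lit 65566) (nat_lit 2) (.e (nat_lit 90170) (nat_lit 13) (.e (nat_lit 172106) (nat_lit 10) (.e (nat_lit 434244) (nat_lit 28) (.e (nat_lit 573474) (nat_lit 12) (.e (nat_lit 57570) (nat_lit 54) (.e (nat_lit 770070) (nat_lit 8) .nil))))))) (.g (nat_lit 4) .nil .nil))) 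
(.lf (nat_lit 188717) (.g (nat_lit 2334) (.e (nat_lit 65566) (nat_lit 2) (.e (nat_lit 90170) (nat_lit 13) (.e (nat_lit 172113) (nat_lit 10) (.e (nat_lit 434248) (nat_lit 28) (.e (nat_lit 573475) (nat_lit 12) (.e (nat_lit 57344) (nat_lit 0) (.e (nat_lit 7124) (nat_lit 382) (.e (nat_lit 1201) (nat_lit 88) .nil)))))))) (.g (nat_lit 4) .nil .nil)))) (.nd (nat_lit 5) 
(.lf (nat_lit 188701) (.g (nat_lit 3590) (.e (nat_lit 65566) (nat_lit 2) (.e (nat_lit 90170) (nat_lit 13) (.e (nat_lit 172113) (nat_lit 10) (.e (nat_lit 434245) (nat_lit 28) (.e (nat_lit 573474) (nat_lit 12) (.e (nat_lit 57353) (nat_lit 0) (.e (nat_lit 7124) (nat_lit 382) (.e (nat_lit 1201) (nat_lit 88) .nil)))))))) (.g (nat_lit 5) .nil .nil))) 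
(.lf (nat_lit 188733) (.g (nat_lit 539) (.e (nat_lit 65566) (nat_lit 2) (.e (nat_lit 90176) (nat_lit 15) (.e (nat_lit 188447) (nat_lit 22) .nil))) .nil)))))) (.nd (nat_lit 2) (.nd (nat_lit 3) (.nd (nat_lit 4) (.nd (nat_lit 5) 
(.lf (nat_lit 188675) (.g (nat_lit 3308) (.e (nat_lit 65566) (nat_lit 2) (.e (nat_lit 90170) (nat_lit 13) (.e (nat_lit 172106) (nat_lit 10) (.e (nat_lit 434244) (nat_lit 28) (.e (nat_lit 573474) (nat_lit 12) (.e (nat_lit 57348) (nat_lit 0) (.e (nat_lit 7236) (nat_lit 382) (.e (nat_lit 1199) (nat_lit 88) .nil)))))))) (.g (nat_lit 5) .nil .nil))) 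
(.lf (nat_lit 188707) (.g (nat_lit 2804) (.e (nat_lit 65566) (nat_lit 2) (.e (nat_lit 90170) (nat_lit 13) (.e (nat_lit 172113) (nat_lit 10) (.e (nat_lit 434247) (nat_lit 28) (.e (nat_lit 573475) (nat_lit 12) (.e (nat_lit 57347) (nat_lit 0) (.e (nat_lit 7125) (nat_lit 382) (.e (nat_lit 1201) (nat_lit 88) .nil)))))))) (.g (nat_lit 4) .nil .nil)))) (.nd (nat_lit 5) 
(.lf (nat_lit 188691) (.g (nat_lit 1879) (.e (nat_lit 65566) (nat_lit 2) (.e (nat_lit 90170) (nat_lit 13) (.e (nat_lit 172113) (nat_lit 10) (.e (nat_lit 434245) (nat_lit 28) (.e (nat_lit 573449) (nat_lit 9) .nil))))) .nil)) 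
(.lf (nat_lit 188723) (.g (nat_lit 4812) (.e (nat_lit 65566) (nat_lit 2) (.e (nat_lit 90170) (nat_lit 13) (.e (nat_lit 172113) (nat_lit 10) (.e (nat_lit 434248) (nat_lit 28) (.e (nat_lit 573475) (nat_lit 12) (.e (nat_lit 57348) (nat_lit 0) (.e (nat_lit 7125) (nat_lit 382) (.e (nat_lit 1201) (nat_lit 88) .nil)))))))) (.g (nat_lit 0) .nil .nil))))) (.nd (nat_lit 4) (.nd (nat_lit 5) 
(.lf (nat_lit 188683) (.g (nat_lit 3062) (.e (nat_lit 65566) (nat_lit 2) (.e (nat_lit 90170) (nat_lit 13) (.e (nat_lit 172106) (nat_lit 10) (.e (nat_lit 434244) (nat_lit 28) (.e (nat_lit 573474) (nat_lit 12) (.e (nat_lit 57356) (nat_lit 0) (.e (nat_lit 7147) (nat_lit 382) (.e (nat_lit 1204) (nat_lit 88) .nil)))))))) (.g (nat_lit 5) .nil .nil))) 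
(.lf (nat_lit 188715) (.g (nat_lit 2143) (.e (nat_lit 65566) (nat_lit 2) (.e (nat_lit 90170) (nat_lit 13) (.e (nat_lit 172113) (nat_lit 10) (.e (nat_lit 434248) (nat_lit 28) (.e (nat_lit 573475) (nat_lit 12) .nil))))) .nil))) (.nd (nat_lit 5) 
(.lf (nat_lit 188699) (.g (nat_lit 5218) (.e (nat_lit 65566) (nat_lit 2) (.e (nat_lit 90170) (nat_lit 13) (.e (nat_lit 172113) (nat_lit 10) (.e (nat_lit 434245) (nat_lit 28) (.e (nat_lit 573474) (nat_lit 12) (.e (nat_lit 57348) (nat_lit 0) (.e (nat_lit 7125) (nat_lit 382) (.e (nat_lit 1201) (nat_lit 88) .nil)))))))) (.g (nat_lit 8) .nil .nil))) 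
(.lf (nat_lit 188731) (.g (nat_lit 2826) (.e (nat_lit 65566) (nat_lit 2) (.e (nat_lit 90170) (nat_lit 13) (.e (nat_lit 172120) (nat_lit 12) (.e (nat_lit 475179) (nat_lit 24) (.e (nat_lit 516102) (nat_lit 0) .nil))))) .nil))))) (.nd (nat_lit 3) (.nd (nat_lit 4) (.nd (nat_lit 5) 
(.lf (nat_lit 188679) (.g (nat_lit 3293) (.e (nat_lit 65566) (nat_lit 2) (.e (nat_lit 90170) (nat_lit 13) (.e (nat_lit 172106) (nat_lit 10) (.e (nat_lit 434244) (nat_lit 28) (.e (nat_lit 573474) (nat_lit 12) (.e (nat_lit 57353) (nat_lit 0) (.e (nat_lit 7122) (nat_lit 382) (.e (nat_lit 1201) (nat_lit 88) .nil)))))))) (.g (nat_lit 5) .nil .nil))) 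
(.lf (nat_lit 188711) (.g (nat_lit 4179) (.e (nat_lit 65566) (nat_lit 2) (.e (nat_lit 90170) (nat_lit 13) (.e (nat_lit 172113) (nat_lit 10) (.e (nat_lit 434247) (nat_lit 28) (.e (nat_lit 573478) (nat_lit 12) (.e (nat_lit 57353) (nat_lit 0) (.e (nat_lit 7125) (nat_lit 382) (.e (nat_lit 1201) (nat_lit 88) .nil)))))))) (.g (nat_lit 8) .nil .nil)))) (.nd (nat_lit 5) 
(.lf (nat_lit 188695) (.g (nat_lit 4210) (.e (nat_lit 65566) (nat_lit 2) (.e (nat_lit 90170) (nat_lit 13) (.e (nat_lit 172113) (nat_lit 10) (.e (nat_lit 434245) (nat_lit 28) (.e (nat_lit 573474) (nat_lit 12) (.e (nat_lit 57347) (nat_lit 0) (.e (nat_lit 7122) (nat_lit 382) (.e (nat_lit 1201) (nat_lit 88) .nil)))))))) (.g (nat_lit 6) .nil .nil))) 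
(.lf (nat_lit 188727) (.g (nat_lit 3380) (.e (nat_lit 65566) (nat_lit 2) (.e (nat_lit 90170) (nat_lit 13) (.e (nat_lit 172113) (nat_lit 10) (.e (nat_lit 434248) (nat_lit 28) (.e (nat_lit 573475) (nat_lit 12) (.e (nat_lit 57571) (nat_lit 54) (.e (nat_lit 770071) (nat_lit 8) .nil))))))) (.g (nat_lit 5) .nil .nil))))) (.nd (nat_lit 4) (.nd (nat_lit 5) 
(.lf (nat_lit 188687) (.g (nat_lit 468) (.e (nat_lit 65566) (nat_lit 2) (.e (nat_lit 90170) (nat_lit 13) (.e (nat_lit 172113) (nat_lit 10) .nil))) .nil)) 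
(.lf (nat_lit 188719) (.g (nat_lit 3705) (.e (nat_lit 65566) (nat_lit 2) (.e (nat_lit 90170) (nat_lit 13) (.e (nat_lit 172113) (nat_lit 10) (.e (nat_lit 434248) (nat_lit 28) (.e (nat_lit 573475) (nat_lit 12) (.e (nat_lit 57345) (nat_lit 0) (.e (nat_lit 7236) (nat_lit 382) (.e (nat_lit 1199) (nat_lit 88) .nil)))))))) (.g (nat_lit 5) .nil .nil)))) (.nd (nat_lit 5) 
(.lf (nat_lit 188703) (.g (nat_lit 2717) (.e (nat_lit 65566) (nat_lit 2) (.e (nat_lit 90170) (nat_lit 13) (.e (nat_lit 172113) (nat_lit 10) (.e (nat_lit 434245) (nat_lit 28) (.e (nat_lit 573474) (nat_lit 12) (.e (nat_lit 57571) (nat_lit 54) (.e (nat_lit 770070) (nat_lit 8) .nil))))))) (.g (nat_lit 4) .nil .nil))) 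
(.lf (nat_lit 188735) (.g (nat_lit 1933) (.e (nat_lit 65566) (nat_lit 2) (.e (nat_lit 90176) (nat_lit 15) (.e (nat_lit 188450) (nat_lit 23) (.e (nat_lit 204803) (nat_lit 0) .nil)))) .nil))))))))

noncomputable def tv2501 : DT := (.nd (nat_lit 0) (.nd (nat_lit 1) (.nd (nat_lit 2) (.nd (nat_lit 3) (.nd (nat_lit 4) (.nd (nat_lit 5) 
(.lf (nat_lit 188736) (.g (nat_lit 1842) (.e (nat_lit 65566) (nat_lit 2) (.e (nat_lit 90176) (nat_lit 15) (.e (nat_lit 188450) (nat_lit 23) (.e (nat_lit 204807) (nat_lit 0) .nil)))) .nil)) 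
(.lf (nat_lit 188768) (.g (nat_lit 1827) (.e (nat_lit 65567) (nat_lit 2) (.e (nat_lit 90176) (nat_lit 15) (.e (nat_lit 188450) (nat_lit 23) (.e (nat_lit 204814) (nat_lit 17) .nil)))) .nil))) (.nd (nat_lit 5) 
(.lf (nat_lit 188752) (.g (nat_lit 2703) (.e (nat_lit 65567) (nat_lit 2) (.e (nat_lit 90170) (nat_lit 13) (.e (nat_lit 172113) (nat_lit 10) (.e (nat_lit 434245) (nat_lit 28) (.e (nat_lit 573474) (nat_lit 12) (.e (nat_lit 57354) (nat_lit 0) (.e (nat_lit 7147) (nat_lit 382) (.e (nat_lit 1204) (nat_lit 88) .nil)))))))) (.g (nat_lit 4) .nil .nil))) 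
(.lf (nat_lit 188784) (.g (nat_lit 1474) (.e (nat_lit 65568) (nat_lit 2) (.e (nat_lit 90165) (nat_lit 12) (.e (nat_lit 171776) (nat_lit 192) (.e (nat_lit 73746) (nat_lit 3) (.e (nat_lit 516105) (nat_lit 0) (.e (nat_lit 7936) (nat_lit 406) .nil)))))) (.g (nat_lit 4) .nil .nil))))) (.nd (nat_lit 4) (.nd (nat_lit 5) 
(.lf (nat_lit 188744) (.g (nat_lit 1033) (.e (nat_lit 65567) (nat_lit 2) (.e (nat_lit 90165) (nat_lit 12) (.e (nat_lit 171776) (nat_lit 192) (.e (nat_lit 73746) (nat_lit 3) (.e (nat_lit 516104) (nat_lit 0) (.e (nat_lit 7936) (nat_lit 406) .nil)))))) (.g (nat_lit 5) .nil .nil))) 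
(.lf (nat_lit 188776) (.g (nat_lit 1094) (.e (nat_lit 65568) (nat_lit 2) (.e (nat_lit 98048) (nat_lit 2) (.e (nat_lit 16465) (nat_lit 13) (.e (nat_lit 483331) (nat_lit 0) (.e (nat_lit 7936) (nat_lit 406) .nil))))) (.g (nat_lit 4) .nil .nil)))) (.nd (nat_lit 5) 
(.lf (nat_lit 188760) (.g (nat_lit 2461) (.e (nat_lit 65567) (nat_lit 2) (.e (nat_lit 90170) (nat_lit 13) (.e (nat_lit 172113) (nat_lit 10) (.e (nat_lit 434248) (nat_lit 28) (.e (nat_lit 573475) (nat_lit 12) .nil))))) .nil)) 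
(.lf (nat_lit 188792) (.g (nat_lit 2042) (.e (nat_lit 65568) (nat_lit 2) (.e (nat_lit 90170) (nat_lit 13) (.e (nat_lit 172106) (nat_lit 10) (.e (nat_lit 434228) (nat_lit 22) .nil)))) .nil))))) (.nd (nat_lit 3) (.nd (nat_lit 4) (.nd (nat_lit 5) 
(.lf (nat_lit 188740) (.g (nat_lit 575) (.e (nat_lit 65566) (nat_lit 2) (.e (nat_lit 90176) (nat_lit 15) (.e (nat_lit 188456) (nat_lit 25) .nil))) .nil)) 
(.lf (nat_lit 188772) (.g (nat_lit 4355) (.e (nat_lit 65567) (nat_lit 2) (.e (nat_lit 90178) (nat_lit 15) (.e (nat_lit 188440) (nat_lit 20) (.e (nat_lit 3307) (nat_lit 202) (.e (nat_lit 573474) (nat_lit 12) (.e (nat_lit 57572) (nat_lit 54) (.e (nat_lit 770072) (nat_lit 8) .nil))))))) (.g (nat_lit 6) .nil .nil)))) (.nd (nat_lit 5) 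
(.lf (nat_lit 188756) (.g (nat_lit 2601) (.e (nat_lit 65567) (nat_lit 2) (.e (nat_lit 90170) (nat_lit 13) (.e (nat_lit 172113) (nat_lit 10) (.e (nat_lit 434247) (nat_lit 28) (.e (nat_lit 573477) (nat_lit 12) .nil))))) .nil)) 
(.lf (nat_lit 188788) (.g (nat_lit 3729) (.e (nat_lit 65568) (nat_lit 2) (.e (nat_lit 90170) (nat_lit 13) (.e (nat_lit 172079) (nat_lit 7) (.e (nat_lit 409611) (nat_lit 10) (.e (nat_lit 632) (nat_lit 50) (.e (nat_lit 573473) (nat_lit 12) (.e (nat_lit 57521) (nat_lit 44) (.e (nat_lit 688177) (nat_lit 16) .nil)))))))) (.g (nat_lit 6) .nil .nil))))) (.nd (nat_lit 4) (.nd (nat_lit 5) 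
(.lf (nat_lit 188748) (.g (nat_lit 1445) (.e (nat_lit 65567) (nat_lit 2) (.e (nat_lit 90170) (nat_lit 13) (.e (nat_lit 172113) (nat_lit 10) (.e (nat_lit 434242) (nat_lit 28) .nil)))) .nil)) 
(.lf (nat_lit 188780) (.g (nat_lit 1853) (.e (nat_lit 65568) (nat_lit 2) (.e (nat_lit 90134) (nat_lit 9) (.e (nat_lit 214) (nat_lit 19) (.e (nat_lit 319499) (nat_lit 10) .nil)))) .nil))) (.nd (nat_lit 5) 
(.lf (nat_lit 188764) (.g (nat_lit 2783) (.e (nat_lit 65567) (nat_lit 2) (.e (nat_lit 90170) (nat_lit 13) (.e (nat_lit 172113) (nat_lit 10) (.e (nat_lit 434248) (nat_lit 28) (.e (nat_lit 573475) (nat_lit 12) (.e (nat_lit 57570) (nat_lit 54) (.e (nat_lit 770072) (nat_lit 8) .nil))))))) (.g (nat_lit 4) .nil .nil))) 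
(.lf (nat_lit 188796) (.g (nat_lit 3675) (.e (nat_lit 65568) (nat_lit 2) (.e (nat_lit 90170) (nat_lit 13) (.e (nat_lit 172106) (nat_lit 10) (.e (nat_lit 434229) (nat_lit 22) (.e (nat_lit 524291) (nat_lit 0) (.e (nat_lit 3391) (nat_lit 210) (.e (nat_lit 639021) (nat_lit 16) .nil))))))) (.g (nat_lit 7) .nil .nil))))))) (.nd (nat_lit 2) (.nd (nat_lit 3) (.nd (nat_lit 4) (.nd (nat_lit 5) 
(.lf (nat_lit 188738) (.g (nat_lit 1501) (.e (nat_lit 65566) (nat_lit 2) (.e (nat_lit 90176) (nat_lit 15) (.e (nat_lit 188450) (nat_lit 23) (.e (nat_lit 212736) (nat_lit 1) .nil)))) .nil)) 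
(.lf (nat_lit 188770) (.g (nat_lit 2308) (.e (nat_lit 65567) (nat_lit 2) (.e (nat_lit 90177) (nat_lit 15) (.e (nat_lit 188452) (nat_lit 23) (.e (nat_lit 204816) (nat_lit 17) .nil)))) .nil))) (.nd (nat_lit 5) 
(.lf (nat_lit 188754) (.g (nat_lit 2749) (.e (nat_lit 65567) (nat_lit 2) (.e (nat_lit 90170) (nat_lit 13) (.e (nat_lit 172113) (nat_lit 10) (.e (nat_lit 434245) (nat_lit 28) (.e (nat_lit 573474) (nat_lit 12) (.e (nat_lit 57572) (nat_lit 54) (.e (nat_lit 770072) (nat_lit 8) .nil))))))) (.g (nat_lit 4) .nil .nil))) 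
(.lf (nat_lit 188786) (.g (nat_lit 609) (.e (nat_lit 65568) (nat_lit 2) (.e (nat_lit 90170) (nat_lit 13) (.e (nat_lit 172079) (nat_lit 7) .nil))) .nil)))) (.nd (nat_lit 4) (.nd (nat_lit 5) 
(.lf (nat_lit 188746) (.g (nat_lit 2240) (.e (nat_lit 65567) (nat_lit 2) (.e (nat_lit 90170) (nat_lit 13) (.e (nat_lit 172106) (nat_lit 10) (.e (nat_lit 434231) (nat_lit 23) .nil)))) .nil)) 
(.lf (nat_lit 188778) (.g (nat_lit 1170) (.e (nat_lit 65568) (nat_lit 2) (.e (nat_lit 98048) (nat_lit 2) (.e (nat_lit 16473) (nat_lit 14) (.e (nat_lit 491580) (nat_lit 27) (.e (nat_lit 426365) (nat_lit 15) (.e (nat_lit 6516) (nat_lit 347) .nil)))))) (.g (nat_lit 4) .nil .nil)))) (.nd (nat_lit 5) 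
(.lf (nat_lit 188762) (.g (nat_lit 2969) (.e (nat_lit 65567) (nat_lit 2) (.e (nat_lit 90170) (nat_lit 13) (.e (nat_lit 172113) (nat_lit 10) (.e (nat_lit 434248) (nat_lit 28) (.e (nat_lit 573475) (nat_lit 12) (.e (nat_lit 57351) (nat_lit 0) (.e (nat_lit 7125) (nat_lit 382) (.e (nat_lit 1201) (nat_lit 88) .nil)))))))) (.g (nat_lit 4) .nil .nil))) 
(.lf (nat_lit 188794) (.g (nat_lit 4017) (.e (nat_lit 65568) (nat_lit 2) (.e (nat_lit 90170) (nat_lit 13) (.e (nat_lit 172106) (nat_lit 10) (.e (nat_lit 434229) (nat_lit 22) (.e (nat_lit 524291) (nat_lit 0) (.e (nat_lit 3390) (nat_lit 210) (.e (nat_lit 639020) (nat_lit 16) .nil))))))) (.g (nat_lit 7) .nil .nil)))))) (.nd (nat_lit 3) (.nd (nat_lit 4) (.nd (nat_lit 5) 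
(.lf (nat_lit 188742) (.g (nat_lit 1828) (.e (nat_lit 65566) (nat_lit 2) (.e (nat_lit 90178) (nat_lit 15) (.e (nat_lit 188440) (nat_lit 20) (.e (nat_lit 3307) (nat_lit 202) (.e (nat_lit 573475) (nat_lit 12) .nil))))) .nil)) 
(.lf (nat_lit 188774) (.g (nat_lit 1378) (.e (nat_lit 65568) (nat_lit 2) (.e (nat_lit 98048) (nat_lit 2) (.e (nat_lit 16463) (nat_lit 13) (.e (nat_lit 483331) (nat_lit 0) (.e (nat_lit 7936) (nat_lit 406) .nil))))) (.g (nat_lit 4) .nil .nil)))) (.nd (nat_lit 5) 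
(.lf (nat_lit 188758) (.g (nat_lit 2433) (.e (nat_lit 65567) (nat_lit 2) (.e (nat_lit 90170) (nat_lit 13) (.e (nat_lit 172113) (nat_lit 10) (.e (nat_lit 434248) (nat_lit 28) (.e (nat_lit 573473) (nat_lit 12) .nil))))) .nil)) 
(.lf (nat_lit 188790) (.g (nat_lit 1875) (.e (nat_lit 65568) (nat_lit 2) (.e (nat_lit 90170) (nat_lit 13) (.e (nat_lit 172106) (nat_lit 10) (.e (nat_lit 434219) (nat_lit 19) .nil)))) .nil)))) (.nd (nat_lit 4) (.nd (nat_lit 5) 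
(.lf (nat_lit 188750) (.g (nat_lit 2347) (.e (nat_lit 65567) (nat_lit 2) (.e (nat_lit 90170) (nat_lit 13) (.e (nat_lit 172113) (nat_lit 10) (.e (nat_lit 434245) (nat_lit 28) (.e (nat_lit 573474) (nat_lit 12) .nil))))) .nil)) 
(.lf (nat_lit 188782) (.g (nat_lit 1571) (.e (nat_lit 65568) (nat_lit 2) (.e (nat_lit 90165) (nat_lit 12) (.e (nat_lit 171776) (nat_lit 192) (.e (nat_lit 73746) (nat_lit 3) (.e (nat_lit 516100) (nat_lit 0) (.e (nat_lit 7936) (nat_lit 406) .nil)))))) (.g (nat_lit 5) .nil .nil)))) (.nd (nat_lit 5) 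
(.lf (nat_lit 188766) (.g (nat_lit 1615) (.e (nat_lit 65567) (nat_lit 2) (.e (nat_lit 90176) (nat_lit 15) (.e (nat_lit 188450) (nat_lit 23) (.e (nat_lit 212736) (nat_lit 0) .nil)))) .nil)) 
(.lf (nat_lit 188798) (.g (nat_lit 1713) (.e (nat_lit 65568) (nat_lit 2) (.e (nat_lit 90170) (nat_lit 13) (.e (nat_lit 172106) (nat_lit 10) (.e (nat_lit 434231) (nat_lit 23) (.e (nat_lit 532480) (nat_lit 0) (.e (nat_lit 1908) (nat_lit 129) (.e (nat_lit 598039) (nat_lit 8) .nil))))))) (.g (nat_lit 4) .nil .nil)))))))) 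
(.nd (nat_lit 1) (.nd (nat_lit 2) (.nd (nat_lit 3) (.nd (nat_lit 4) (.nd (nat_lit 5) 
(.lf (nat_lit 188737) (.g (nat_lit 1501) (.e (nat_lit 65566) (nat_lit 2) (.e (nat_lit 90176) (nat_lit 15) (.e (nat_lit 188450) (nat_lit 23) (.e (nat_lit 212736) (nat_lit 0) .nil)))) .nil)) 
(.lf (nat_lit 188769) (.g (nat_lit 1444) (.e (nat_lit 65567) (nat_lit 2) (.e (nat_lit 90176) (nat_lit 15) (.e (nat_lit 188450) (nat_lit 23) (.e (nat_lit 204830) (nat_lit 18) .nil)))) .nil))) (.nd (nat_lit 5) 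
(.lf (nat_lit 188753) (.g (nat_lit 2679) (.e (nat_lit 65567) (nat_lit 2) (.e (nat_lit 90170) (nat_lit 13) (.e (nat_lit 172113) (nat_lit 10) (.e (nat_lit 434245) (nat_lit 28) (.e (nat_lit 573474) (nat_lit 12) (.e (nat_lit 57570) (nat_lit 54) (.e (nat_lit 770072) (nat_lit 8) .nil))))))) (.g (nat_lit 4) .nil .nil))) 
(.lf (nat_lit 188785) (.g (nat_lit 1355) (.e (nat_lit 65568) (nat_lit 2) (.e (nat_lit 90170) (nat_lit 13) (.e (nat_lit 172061) (nat_lit 1) (.e (nat_lit 164327) (nat_lit 230) .nil)))) .nil)))) (.nd (nat_lit 4) (.nd (nat_lit 5) 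
(.lf (nat_lit 188745) (.g (nat_lit 1040) (.e (nat_lit 65567) (nat_lit 2) (.e (nat_lit 90165) (nat_lit 12) (.e (nat_lit 171776) (nat_lit 192) (.e (nat_lit 73746) (nat_lit 3) (.e (nat_lit 516105) (nat_lit 0) (.e (nat_lit 7936) (nat_lit 406) .nil)))))) (.g (nat_lit 5) .nil .nil))) 
(.lf (nat_lit 188777) (.g (nat_lit 1127) (.e (nat_lit 65568) (nat_lit 2) (.e (nat_lit 98048) (nat_lit 2) (.e (nat_lit 16468) (nat_lit 13) (.e (nat_lit 483333) (nat_lit 0) (.e (nat_lit 7936) (nat_lit 406) .nil))))) (.g (nat_lit 4) .nil .nil)))) (.nd (nat_lit 5) 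
(.lf (nat_lit 188761) (.g (nat_lit 3045) (.e (nat_lit 65567) (nat_lit 2) (.e (nat_lit 90170) (nat_lit 13) (.e (nat_lit 172113) (nat_lit 10) (.e (nat_lit 434248) (nat_lit 28) (.e (nat_lit 573475) (nat_lit 12) (.e (nat_lit 57348) (nat_lit 0) (.e (nat_lit 7125) (nat_lit 382) (.e (nat_lit 1201) (nat_lit 88) .nil)))))))) (.g (nat_lit 4) .nil .nil))) 
(.lf (nat_lit 188793) (.g (nat_lit 1740) (.e (nat_lit 65568) (nat_lit 2) (.e (nat_lit 90170) (nat_lit 13) (.e (nat_lit 172106) (nat_lit 10) (.e (nat_lit 434229) (nat_lit 22) .nil)))) .nil))))) (.nd (nat_lit 3) (.nd (nat_lit 4) (.nd (nat_lit 5) 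
(.lf (nat_lit 188741) (.g (nat_lit 881) (.e (nat_lit 65566) (nat_lit 2) (.e (nat_lit 90176) (nat_lit 15) (.e (nat_lit 188456) (nat_lit 25) (.e (nat_lit 245761) (nat_lit 0) .nil)))) .nil)) 
(.lf (nat_lit 188773) (.g (nat_lit 1346) (.e (nat_lit 65568) (nat_lit 2) (.e (nat_lit 98048) (nat_lit 2) (.e (nat_lit 16463) (nat_lit 13) (.e (nat_lit 483329) (nat_lit 0) (.e (nat_lit 7936) (nat_lit 406) .nil))))) (.g (nat_lit 4) .nil .nil)))) (.nd (nat_lit 5) 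
(.lf (nat_lit 188757) (.g (nat_lit 2429) (.e (nat_lit 65567) (nat_lit 2) (.e (nat_lit 90170) (nat_lit 13) (.e (nat_lit 172113) (nat_lit 10) (.e (nat_lit 434247) (nat_lit 28) (.e (nat_lit 573478) (nat_lit 12) .nil))))) .nil)) 
(.lf (nat_lit 188789) (.g (nat_lit 905) (.e (nat_lit 65568) (nat_lit 2) (.e (nat_lit 90170) (nat_lit 13) (.e (nat_lit 172082) (nat_lit 7) .nil))) .nil)))) (.nd (nat_lit 4) (.nd (nat_lit 5) 
(.lf (nat_lit 188749) (.g (nat_lit 2344) (.e (nat_lit 65567) (nat_lit 2) (.e (nat_lit 90170) (nat_lit 13) (.e (nat_lit 172113) (nat_lit 10) (.e (nat_lit 434245) (nat_lit 28) (.e (nat_lit 573473) (nat_lit 12) .nil))))) .nil)) 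
(.lf (nat_lit 188781) (.g (nat_lit 3710) (.e (nat_lit 65568) (nat_lit 2) (.e (nat_lit 90164) (nat_lit 12) (.e (nat_lit 164017) (nat_lit 44) (.e (nat_lit 688170) (nat_lit 15) (.e (nat_lit 57480) (nat_lit 28) (.e (nat_lit 557105) (nat_lit 14) (.e (nat_lit 180252) (nat_lit 10) (.e (nat_lit 573481) (nat_lit 13) .nil)))))))) (.g (nat_lit 7) .nil .nil)))) (.nd (nat_lit 5) 
(.lf (nat_lit 188765) (.g (nat_lit 772) (.e (nat_lit 65567) (nat_lit 2) (.e (nat_lit 90172) (nat_lit 14) (.e (nat_lit 188160) (nat_lit 33) .nil))) .nil)) 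
(.lf (nat_lit 188797) (.g (nat_lit 2153) (.e (nat_lit 65568) (nat_lit 2) (.e (nat_lit 90170) (nat_lit 13) (.e (nat_lit 172106) (nat_lit 10) (.e (nat_lit 434229) (nat_lit 22) (.e (nat_lit 524330) (nat_lit 17) .nil))))) .nil)))))) (.nd (nat_lit 2) (.nd (nat_lit 3) (.nd (nat_lit 4) (.nd (nat_lit 5) 
(.lf (nat_lit 188739) (.g (nat_lit 1354) (.e (nat_lit 65566) (nat_lit 2) (.e (nat_lit 90176) (nat_lit 15) (.e (nat_lit 188450) (nat_lit 23) (.e (nat_lit 204830) (nat_lit 18) .nil)))) .nil)) 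
(.lf (nat_lit 188771) (.g (nat_lit 1194) (.e (nat_lit 65567) (nat_lit 2) (.e (nat_lit 90178) (nat_lit 15) (.e (nat_lit 188440) (nat_lit 20) (.e (nat_lit 3307) (nat_lit 202) .nil)))) .nil))) (.nd (nat_lit 5) 
(.lf (nat_lit 188755) (.g (nat_lit 2758) (.e (nat_lit 65567) (nat_lit 2) (.e (nat_lit 90170) (nat_lit 13) (.e (nat_lit 172113) (nat_lit 10) (.e (nat_lit 434247) (nat_lit 28) (.e (nat_lit 573475) (nat_lit 12) (.e (nat_lit 57572) (nat_lit 54) (.e (nat_lit 770072) (nat_lit 8) .nil))))))) (.g (nat_lit 4) .nil .nil))) 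
(.lf (nat_lit 188787) (.g (nat_lit 1189) (.e (nat_lit 65568) (nat_lit 2) (.e (nat_lit 90170) (nat_lit 13) (.e (nat_lit 172079) (nat_lit 7) (.e (nat_lit 409611) (nat_lit 10) .nil)))) .nil)))) (.nd (nat_lit 4) (.nd (nat_lit 5) 
(.lf (nat_lit 188747) (.g (nat_lit 3100) (.e (nat_lit 65567) (nat_lit 2) (.e (nat_lit 90170) (nat_lit 13) (.e (nat_lit 172106) (nat_lit 10) (.e (nat_lit 434231) (nat_lit 23) (.e (nat_lit 532500) (nat_lit 1) .nil))))) .nil)) 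
(.lf (nat_lit 188779) (.g (nat_lit 1031) (.e (nat_lit 65568) (nat_lit 2) (.e (nat_lit 90133) (nat_lit 9) (.e (nat_lit 2397) (nat_lit 157) (.e (nat_lit 7593) (nat_lit 407) (.e (nat_lit 73744) (nat_lit 2) .nil))))) .nil))) (.nd (nat_lit 5) 
(.lf (nat_lit 188763) (.g (nat_lit 2508) (.e (nat_lit 65567) (nat_lit 2) (.e (nat_lit 90170) (nat_lit 13) (.e (nat_lit 172113) (nat_lit 10) (.e (nat_lit 434248) (nat_lit 28) (.e (nat_lit 573475) (nat_lit 12) (.e (nat_lit 57354) (nat_lit 0) (.e (nat_lit 7147) (nat_lit 382) (.e (nat_lit 1203) (nat_lit 88) .nil)))))))) (.g (nat_lit 4) .nil .nil))) 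
(.lf (nat_lit 188795) (.g (nat_lit 2953) (.e (nat_lit 65568) (nat_lit 2) (.e (nat_lit 90170) (nat_lit 13) (.e (nat_lit 172106) (nat_lit 10) (.e (nat_lit 434229) (nat_lit 22) (.e (nat_lit 524291) (nat_lit 0) (.e (nat_lit 3390) (nat_lit 210) (.e (nat_lit 639021) (nat_lit 16) .nil))))))) (.g (nat_lit 4) .nil .nil)))))) (.nd (nat_lit 3) (.nd (nat_lit 4) (.nd (nat_lit 5) 
(.lf (nat_lit 188743) (.g (nat_lit 1174) (.e (nat_lit 65567) (nat_lit 2) (.e (nat_lit 90165) (nat_lit 12) (.e (nat_lit 171776) (nat_lit 192) (.e (nat_lit 73746) (nat_lit 3) (.e (nat_lit 516100) (nat_lit 0) (.e (nat_lit 7936) (nat_lit 406) .nil)))))) (.g (nat_lit 5) .nil .nil))) 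
(.lf (nat_lit 188775) (.g (nat_lit 1447) (.e (nat_lit 65568) (nat_lit 2) (.e (nat_lit 98048) (nat_lit 2) (.e (nat_lit 16465) (nat_lit 13) (.e (nat_lit 483329) (nat_lit 0) (.e (nat_lit 7936) (nat_lit 406) .nil))))) (.g (nat_lit 4) .nil .nil)))) (.nd (nat_lit 5) 
(.lf (nat_lit 188759) (.g (nat_lit 2682) (.e (nat_lit 65567) (nat_lit 2) (.e (nat_lit 90170) (nat_lit 13) (.e (nat_lit 172113) (nat_lit 10) (.e (nat_lit 434248) (nat_lit 28) (.e (nat_lit 573474) (nat_lit 12) (.e (nat_lit 57572) (nat_lit 54) (.e (nat_lit 770072) (nat_lit 8) .nil))))))) (.g (nat_lit 4) .nil .nil))) 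
(.lf (nat_lit 188791) (.g (nat_lit 2040) (.e (nat_lit 65568) (nat_lit 2) (.e (nat_lit 90170) (nat_lit 13) (.e (nat_lit 172106) (nat_lit 10) (.e (nat_lit 442112) (nat_lit 21) .nil)))) .nil)))) (.nd (nat_lit 4) (.nd (nat_lit 5) 
(.lf (nat_lit 188751) (.g (nat_lit 3791) (.e (nat_lit 65567) (nat_lit 2) (.e (nat_lit 90170) (nat_lit 13) (.e (nat_lit 172113) (nat_lit 10) (.e (nat_lit 434245) (nat_lit 28) (.e (nat_lit 573474) (nat_lit 12) (.e (nat_lit 57347) (nat_lit 0) (.e (nat_lit 7125) (nat_lit 382) (.e (nat_lit 1201) (nat_lit 88) .nil)))))))) (.g (nat_lit 5) .nil .nil))) 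
(.lf (nat_lit 188783) (.g (nat_lit 1432) (.e (nat_lit 65568) (nat_lit 2) (.e (nat_lit 90165) (nat_lit 12) (.e (nat_lit 171776) (nat_lit 192) (.e (nat_lit 73746) (nat_lit 3) (.e (nat_lit 516104) (nat_lit 0) (.e (nat_lit 7936) (nat_lit 406) .nil)))))) (.g (nat_lit 4) .nil .nil)))) (.nd (nat_lit 5) 
(.lf (nat_lit 188767) (.g (nat_lit 1615) (.e (nat_lit 65567) (nat_lit 2) (.e (nat_lit 90176) (nat_lit 15) (.e (nat_lit 188450) (nat_lit 23) (.e (nat_lit 212736) (nat_lit 1) .nil)))) .nil)) 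
(.lf (nat_lit 188799) (.g (nat_lit 4301) (.e (nat_lit 65568) (nat_lit 2) (.e (nat_lit 90170) (nat_lit 13) (.e (nat_lit 172106) (nat_lit 10) (.e (nat_lit 434231) (nat_lit 23) (.e (nat_lit 532481) (nat_lit 0) (.e (nat_lit 984) (nat_lit 81) (.e (nat_lit 4500) (nat_lit 263) (.e (nat_lit 1190) (nat_lit 88) .nil)))))))) (.g (nat_lit 5) .nil .nil)))))))))

noncomputable def tv2502 : DT := (.nd (nat_lit 0) (.nd (nat_lit 1) (.nd (nat_lit 2) (.nd (nat_lit 3) (.nd (nat_lit 4) (.nd (nat_lit 5) 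
(.lf (nat_lit 188800) (.g (nat_lit 3831) (.e (nat_lit 65568) (nat_lit 2) (.e (nat_lit 90170) (nat_lit 13) (.e (nat_lit 172106) (nat_lit 10) (.e (nat_lit 434231) (nat_lit 23) (.e (nat_lit 532481) (nat_lit 0) (.e (nat_lit 984) (nat_lit 81) (.e (nat_lit 4500) (nat_lit 263) (.e (nat_lit 1200) (nat_lit 88) .nil)))))))) (.g (nat_lit 5) .nil .nil))) 
(.lf (nat_lit 188832) (.g (nat_lit 1868) (.e (nat_lit 65568) (nat_lit 2) (.e (nat_lit 90170) (nat_lit 13) (.e (nat_lit 172106) (nat_lit 10) (.e (nat_lit 434231) (nat_lit 23) (.e (nat_lit 532490) (nat_lit 0) (.e (nat_lit 1040) (nat_lit 81) (.e (nat_lit 4511) (nat_lit 263) (.e (nat_lit 1197) (nat_lit 88) .nil)))))))) (.g (nat_lit 4) .nil .nil)))) (.nd (nat_lit 5) 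
(.lf (nat_lit 188816) (.g (nat_lit 2821) (.e (nat_lit 65568) (nat_lit 2) (.e (nat_lit 90170) (nat_lit 13) (.e (nat_lit 172106) (nat_lit 10) (.e (nat_lit 434231) (nat_lit 23) (.e (nat_lit 532483) (nat_lit 0) (.e (nat_lit 982) (nat_lit 81) (.e (nat_lit 4452) (nat_lit 263) (.e (nat_lit 1202) (nat_lit 88) .nil)))))))) (.g (nat_lit 4) .nil .nil))) 
(.lf (nat_lit 188848) (.g (nat_lit 2538) (.e (nat_lit 65568) (nat_lit 2) (.e (nat_lit 90170) (nat_lit 13) (.e (nat_lit 172106) (nat_lit 10) (.e (nat_lit 434231) (nat_lit 23) (.e (nat_lit 532499) (nat_lit 1) (.e (nat_lit 57767) (nat_lit 221) (.e (nat_lit 7936) (nat_lit 88) .nil))))))) (.g (nat_lit 4) .nil .nil))))) (.nd (nat_lit 4) (.nd (nat_lit 5) 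
(.lf (nat_lit 188808) (.g (nat_lit 4684) (.e (nat_lit 65568) (nat_lit 2) (.e (nat_lit 90170) (nat_lit 13) (.e (nat_lit 172106) (nat_lit 10) (.e (nat_lit 434231) (nat_lit 23) (.e (nat_lit 532481) (nat_lit 0) (.e (nat_lit 1911) (nat_lit 129) (.e (nat_lit 598039) (nat_lit 8) .nil))))))) (.g (nat_lit 6) .nil .nil))) 
(.lf (nat_lit 188840) (.g (nat_lit 2676) (.e (nat_lit 65568) (nat_lit 2) (.e (nat_lit 90170) (nat_lit 13) (.e (nat_lit 172106) (nat_lit 10) (.e (nat_lit 434231) (nat_lit 23) (.e (nat_lit 532490) (nat_lit 0) (.e (nat_lit 1910) (nat_lit 129) (.e (nat_lit 598038) (nat_lit 8) .nil))))))) (.g (nat_lit 5) .nil .nil)))) (.nd (nat_lit 5) 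
(.lf (nat_lit 188824) (.g (nat_lit 2481) (.e (nat_lit 65568) (nat_lit 2) (.e (nat_lit 90170) (nat_lit 13) (.e (nat_lit 172106) (nat_lit 10) (.e (nat_lit 434231) (nat_lit 23) (.e (nat_lit 532483) (nat_lit 0) (.e (nat_lit 1912) (nat_lit 129) (.e (nat_lit 598037) (nat_lit 8) .nil))))))) (.g (nat_lit 4) .nil .nil))) 
(.lf (nat_lit 188856) (.g (nat_lit 4046) (.e (nat_lit 65568) (nat_lit 2) (.e (nat_lit 90170) (nat_lit 13) (.e (nat_lit 172106) (nat_lit 10) (.e (nat_lit 434231) (nat_lit 23) (.e (nat_lit 532499) (nat_lit 1) (.e (nat_lit 65280) (nat_lit 221) (.e (nat_lit 1199) (nat_lit 88) .nil))))))) (.g (nat_lit 5) .nil .nil)))))) (.nd (nat_lit 3) (.nd (nat_lit 4) (.nd (nat_lit 5) 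
(.lf (nat_lit 188804) (.g (nat_lit 3972) (.e (nat_lit 65568) (nat_lit 2) (.e (nat_lit 90170) (nat_lit 13) (.e (nat_lit 172106) (nat_lit 10) (.e (nat_lit 434231) (nat_lit 23) (.e (nat_lit 532481) (nat_lit 0) (.e (nat_lit 996) (nat_lit 81) (.e (nat_lit 4500) (nat_lit 263) (.e (nat_lit 1200) (nat_lit 88) .nil)))))))) (.g (nat_lit 5) .nil .nil))) 
(.lf (nat_lit 188836) (.g (nat_lit 3254) (.e (nat_lit 65568) (nat_lit 2) (.e (nat_lit 90170) (nat_lit 13) (.e (nat_lit 172106) (nat_lit 10) (.e (nat_lit 434231) (nat_lit 23) (.e (nat_lit 532490) (nat_lit 0) (.e (nat_lit 1905) (nat_lit 129) (.e (nat_lit 598039) (nat_lit 8) .nil))))))) (.g (nat_lit 5) .nil .nil)))) (.nd (nat_lit 5) 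
(.lf (nat_lit 188820) (.g (nat_lit 2486) (.e (nat_lit 65568) (nat_lit 2) (.e (nat_lit 90170) (nat_lit 13) (.e (nat_lit 172106) (nat_lit 10) (.e (nat_lit 434231) (nat_lit 23) (.e (nat_lit 532483) (nat_lit 0) (.e (nat_lit 1036) (nat_lit 81) (.e (nat_lit 4511) (nat_lit 263) (.e (nat_lit 1187) (nat_lit 88) .nil)))))))) (.g (nat_lit 4) .nil .nil))) 
(.lf (nat_lit 188852) (.g (nat_lit 2992) (.e (nat_lit 65568) (nat_lit 2) (.e (nat_lit 90170) (nat_lit 13) (.e (nat_lit 172106) (nat_lit 10) (.e (nat_lit 434231) (nat_lit 23) (.e (nat_lit 532499) (nat_lit 1) (.e (nat_lit 65280) (nat_lit 221) (.e (nat_lit 1194) (nat_lit 88) .nil))))))) (.g (nat_lit 4) .nil .nil))))) (.nd (nat_lit 4) (.nd (nat_lit 5) 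
(.lf (nat_lit 188812) (.g (nat_lit 2579) (.e (nat_lit 65568) (nat_lit 2) (.e (nat_lit 90170) (nat_lit 13) (.e (nat_lit 172106) (nat_lit 10) (.e (nat_lit 434231) (nat_lit 23) (.e (nat_lit 532482) (nat_lit 0) (.e (nat_lit 1053) (nat_lit 81) (.e (nat_lit 4490) (nat_lit 263) (.e (nat_lit 1190) (nat_lit 88) .nil)))))))) (.g (nat_lit 4) .nil .nil))) 
(.lf (nat_lit 188844) (.g (nat_lit 2549) (.e (nat_lit 65568) (nat_lit 2) (.e (nat_lit 90170) (nat_lit 13) (.e (nat_lit 172106) (nat_lit 10) (.e (nat_lit 434231) (nat_lit 23) (.e (nat_lit 532499) (nat_lit 1) (.e (nat_lit 57765) (nat_lit 221) (.e (nat_lit 7936) (nat_lit 88) .nil))))))) (.g (nat_lit 4) .nil .nil)))) (.nd (nat_lit 5) 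
(.lf (nat_lit 188828) (.g (nat_lit 2941) (.e (nat_lit 65568) (nat_lit 2) (.e (nat_lit 90170) (nat_lit 13) (.e (nat_lit 172106) (nat_lit 10) (.e (nat_lit 434231) (nat_lit 23) (.e (nat_lit 532490) (nat_lit 0) (.e (nat_lit 990) (nat_lit 81) (.e (nat_lit 4500) (nat_lit 263) (.e (nat_lit 1188) (nat_lit 88) .nil)))))))) (.g (nat_lit 5) .nil .nil))) 
(.lf (nat_lit 188860) (.g (nat_lit 3576) (.e (nat_lit 65568) (nat_lit 2) (.e (nat_lit 90170) (nat_lit 13) (.e (nat_lit 172106) (nat_lit 10) (.e (nat_lit 434231) (nat_lit 23) (.e (nat_lit 532500) (nat_lit 1) (.e (nat_lit 57766) (nat_lit 221) (.e (nat_lit 1187) (nat_lit 88) .nil))))))) (.g (nat_lit 5) .nil .nil))))))) (.nd (nat_lit 2) (.nd (nat_lit 3) (.nd (nat_lit 4) (.nd (nat_lit 5) 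
(.lf (nat_lit 188802) (.g (nat_lit 4045) (.e (nat_lit 65568) (nat_lit 2) (.e (nat_lit 90170) (nat_lit 13) (.e (nat_lit 172106) (nat_lit 10) (.e (nat_lit 434231) (nat_lit 23) (.e (nat_lit 532481) (nat_lit 0) (.e (nat_lit 996) (nat_lit 81) (.e (nat_lit 4484) (nat_lit 263) (.e (nat_lit 1196) (nat_lit 88) .nil)))))))) (.g (nat_lit 5) .nil .nil))) 
(.lf (nat_lit 188834) (.g (nat_lit 2468) (.e (nat_lit 65568) (nat_lit 2) (.e (nat_lit 90170) (nat_lit 13) (.e (nat_lit 172106) (nat_lit 10) (.e (nat_lit 434231) (nat_lit 23) (.e (nat_lit 532490) (nat_lit 0) (.e (nat_lit 1086) (nat_lit 81) (.e (nat_lit 4490) (nat_lit 263) (.e (nat_lit 1199) (nat_lit 88) .nil)))))))) (.g (nat_lit 5) .nil .nil)))) (.nd (nat_lit 5) 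
(.lf (nat_lit 188818) (.g (nat_lit 3357) (.e (nat_lit 65568) (nat_lit 2) (.e (nat_lit 90170) (nat_lit 13) (.e (nat_lit 172106) (nat_lit 10) (.e (nat_lit 434231) (nat_lit 23) (.e (nat_lit 532483) (nat_lit 0) (.e (nat_lit 1030) (nat_lit 81) (.e (nat_lit 4506) (nat_lit 263) (.e (nat_lit 7936) (nat_lit 88) .nil)))))))) (.g (nat_lit 7) .nil .nil))) 
(.lf (nat_lit 188850) (.g (nat_lit 4039) (.e (nat_lit 65568) (nat_lit 2) (.e (nat_lit 90170) (nat_lit 13) (.e (nat_lit 172106) (nat_lit 10) (.e (nat_lit 434231) (nat_lit 23) (.e (nat_lit 532499) (nat_lit 1) (.e (nat_lit 65280) (nat_lit 221) (.e (nat_lit 1189) (nat_lit 88) .nil))))))) (.g (nat_lit 5) .nil .nil))))) (.nd (nat_lit 4) (.nd (nat_lit 5) 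
(.lf (nat_lit 188810) (.g (nat_lit 2595) (.e (nat_lit 65568) (nat_lit 2) (.e (nat_lit 90170) (nat_lit 13) (.e (nat_lit 172106) (nat_lit 10) (.e (nat_lit 434231) (nat_lit 23) (.e (nat_lit 532482) (nat_lit 0) (.e (nat_lit 969) (nat_lit 81) (.e (nat_lit 4490) (nat_lit 263) (.e (nat_lit 1190) (nat_lit 88) .nil)))))))) (.g (nat_lit 4) .nil .nil))) 
(.lf (nat_lit 188842) (.g (nat_lit 2836) (.e (nat_lit 65568) (nat_lit 2) (.e (nat_lit 90170) (nat_lit 13) (.e (nat_lit 172106) (nat_lit 10) (.e (nat_lit 434231) (nat_lit 23) (.e (nat_lit 532491) (nat_lit 0) (.e (nat_lit 1908) (nat_lit 129) (.e (nat_lit 598039) (nat_lit 8) .nil))))))) (.g (nat_lit 4) .nil .nil)))) (.nd (nat_lit 5) 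
(.lf (nat_lit 188826) (.g (nat_lit 2389) (.e (nat_lit 65568) (nat_lit 2) (.e (nat_lit 90170) (nat_lit 13) (.e (nat_lit 172106) (nat_lit 10) (.e (nat_lit 434231) (nat_lit 23) (.e (nat_lit 532485) (nat_lit 0) (.e (nat_lit 1906) (nat_lit 129) (.e (nat_lit 598039) (nat_lit 8) .nil))))))) (.g (nat_lit 4) .nil .nil))) 
(.lf (nat_lit 188858) (.g (nat_lit 3613) (.e (nat_lit 65568) (nat_lit 2) (.e (nat_lit 90170) (nat_lit 13) (.e (nat_lit 172106) (nat_lit 10) (.e (nat_lit 434231) (nat_lit 23) (.e (nat_lit 532499) (nat_lit 1) (.e (nat_lit 65280) (nat_lit 221) (.e (nat_lit 1202) (nat_lit 88) .nil))))))) (.g (nat_lit 5) .nil .nil)))))) (.nd (nat_lit 3) (.nd (nat_lit 4) (.nd (nat_lit 5) 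
(.lf (nat_lit 188806) (.g (nat_lit 3455) (.e (nat_lit 65568) (nat_lit 2) (.e (nat_lit 90170) (nat_lit 13) (.e (nat_lit 172106) (nat_lit 10) (.e (nat_lit 434231) (nat_lit 23) (.e (nat_lit 532481) (nat_lit 0) (.e (nat_lit 1050) (nat_lit 81) (.e (nat_lit 4490) (nat_lit 263) (.e (nat_lit 1190) (nat_lit 88) .nil)))))))) (.g (nat_lit 4) .nil .nil))) 
(.lf (nat_lit 188838) (.g (nat_lit 2929) (.e (nat_lit 65568) (nat_lit 2) (.e (nat_lit 90170) (nat_lit 13) (.e (nat_lit 172106) (nat_lit 10) (.e (nat_lit 434231) (nat_lit 23) (.e (nat_lit 532490) (nat_lit 0) (.e (nat_lit 1909) (nat_lit 129) (.e (nat_lit 598038) (nat_lit 8) .nil))))))) (.g (nat_lit 5) .nil .nil)))) (.nd (nat_lit 5) 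
(.lf (nat_lit 188822) (.g (nat_lit 2416) (.e (nat_lit 65568) (nat_lit 2) (.e (nat_lit 90170) (nat_lit 13) (.e (nat_lit 172106) (nat_lit 10) (.e (nat_lit 434231) (nat_lit 23) (.e (nat_lit 532483) (nat_lit 0) (.e (nat_lit 1905) (nat_lit 129) (.e (nat_lit 598039) (nat_lit 8) .nil))))))) (.g (nat_lit 4) .nil .nil))) 
(.lf (nat_lit 188854) (.g (nat_lit 4065) (.e (nat_lit 65568) (nat_lit 2) (.e (nat_lit 90170) (nat_lit 13) (.e (nat_lit 172106) (nat_lit 10) (.e (nat_lit 434231) (nat_lit 23) (.e (nat_lit 532499) (nat_lit 1) (.e (nat_lit 65280) (nat_lit 221) (.e (nat_lit 1196) (nat_lit 88) .nil))))))) (.g (nat_lit 5) .nil .nil))))) (.nd (nat_lit 4) (.nd (nat_lit 5) 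
(.lf (nat_lit 188814) (.g (nat_lit 2453) (.e (nat_lit 65568) (nat_lit 2) (.e (nat_lit 90170) (nat_lit 13) (.e (nat_lit 172106) (nat_lit 10) (.e (nat_lit 434231) (nat_lit 23) (.e (nat_lit 532482) (nat_lit 0) (.e (nat_lit 1913) (nat_lit 129) (.e (nat_lit 598039) (nat_lit 8) .nil))))))) (.g (nat_lit 4) .nil .nil))) 
(.lf (nat_lit 188846) (.g (nat_lit 3409) (.e (nat_lit 65568) (nat_lit 2) (.e (nat_lit 90170) (nat_lit 13) (.e (nat_lit 172106) (nat_lit 10) (.e (nat_lit 434231) (nat_lit 23) (.e (nat_lit 532499) (nat_lit 1) (.e (nat_lit 57766) (nat_lit 221) (.e (nat_lit 1197) (nat_lit 88) .nil))))))) (.g (nat_lit 5) .nil .nil)))) (.nd (nat_lit 5) 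
(.lf (nat_lit 188830) (.g (nat_lit 3076) (.e (nat_lit 65568) (nat_lit 2) (.e (nat_lit 90170) (nat_lit 13) (.e (nat_lit 172106) (nat_lit 10) (.e (nat_lit 434231) (nat_lit 23) (.e (nat_lit 532490) (nat_lit 0) (.e (nat_lit 991) (nat_lit 81) (.e (nat_lit 4500) (nat_lit 263) (.e (nat_lit 1199) (nat_lit 88) .nil)))))))) (.g (nat_lit 5) .nil .nil))) 
(.lf (nat_lit 188862) (.g (nat_lit 2686) (.e (nat_lit 65568) (nat_lit 2) (.e (nat_lit 90170) (nat_lit 13) (.e (nat_lit 172106) (nat_lit 10) (.e (nat_lit 434231) (nat_lit 23) (.e (nat_lit 532500) (nat_lit 1) (.e (nat_lit 57766) (nat_lit 221) (.e (nat_lit 7936) (nat_lit 88) .nil))))))) (.g (nat_lit 4) .nil .nil)))))))) 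
(.nd (nat_lit 1) (.nd (nat_lit 2) (.nd (nat_lit 3) (.nd (nat_lit 4) (.nd (nat_lit 5) 
(.lf (nat_lit 188801) (.g (nat_lit 3857) (.e (nat_lit 65568) (nat_lit 2) (.e (nat_lit 90170) (nat_lit 13) (.e (nat_lit 172106) (nat_lit 10) (.e (nat_lit 434231) (nat_lit 23) (.e (nat_lit 532481) (nat_lit 0) (.e (nat_lit 996) (nat_lit 81) (.e (nat_lit 4452) (nat_lit 263) (.e (nat_lit 1202) (nat_lit 88) .nil)))))))) (.g (nat_lit 5) .nil .nil))) 
(.lf (nat_lit 188833) (.g (nat_lit 3675) (.e (nat_lit 65568) (nat_lit 2) (.e (nat_lit 90170) (nat_lit 13) (.e (nat_lit 172106) (nat_lit 10) (.e (nat_lit 434231) (nat_lit 23) (.e (nat_lit 532490) (nat_lit 0) (.e (nat_lit 1074) (nat_lit 81) (.e (nat_lit 4490) (nat_lit 263) (.e (nat_lit 1190) (nat_lit 88) .nil)))))))) (.g (nat_lit 5) .nil .nil)))) (.nd (nat_lit 5) 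
(.lf (nat_lit 188817) (.g (nat_lit 2431) (.e (nat_lit 65568) (nat_lit 2) (.e (nat_lit 90170) (nat_lit 13) (.e (nat_lit 172106) (nat_lit 10) (.e (nat_lit 434231) (nat_lit 23) (.e (nat_lit 532483) (nat_lit 0) (.e (nat_lit 996) (nat_lit 81) (.e (nat_lit 4500) (nat_lit 263) (.e (nat_lit 1190) (nat_lit 88) .nil)))))))) (.g (nat_lit 4) .nil .nil))) 
(.lf (nat_lit 188849) (.g (nat_lit 4276) (.e (nat_lit 65568) (nat_lit 2) (.e (nat_lit 90170) (nat_lit 13) (.e (nat_lit 172106) (nat_lit 10) (.e (nat_lit 434231) (nat_lit 23) (.e (nat_lit 532499) (nat_lit 1) (.e (nat_lit 65280) (nat_lit 221) (.e (nat_lit 1188) (nat_lit 88) .nil))))))) (.g (nat_lit 5) .nil .nil))))) (.nd (nat_lit 4) (.nd (nat_lit 5) 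
(.lf (nat_lit 188809) (.g (nat_lit 3438) (.e (nat_lit 65568) (nat_lit 2) (.e (nat_lit 90170) (nat_lit 13) (.e (nat_lit 172106) (nat_lit 10) (.e (nat_lit 434231) (nat_lit 23) (.e (nat_lit 532481) (nat_lit 0) (.e (nat_lit 1912) (nat_lit 129) (.e (nat_lit 598037) (nat_lit 8) .nil))))))) (.g (nat_lit 5) .nil .nil))) 
(.lf (nat_lit 188841) (.g (nat_lit 3101) (.e (nat_lit 65568) (nat_lit 2) (.e (nat_lit 90170) (nat_lit 13) (.e (nat_lit 172106) (nat_lit 10) (.e (nat_lit 434231) (nat_lit 23) (.e (nat_lit 532490) (nat_lit 0) (.e (nat_lit 1910) (nat_lit 129) (.e (nat_lit 598039) (nat_lit 8) .nil))))))) (.g (nat_lit 5) .nil .nil)))) (.nd (nat_lit 5) 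
(.lf (nat_lit 188825) (.g (nat_lit 2986) (.e (nat_lit 65568) (nat_lit 2) (.e (nat_lit 90170) (nat_lit 13) (.e (nat_lit 172106) (nat_lit 10) (.e (nat_lit 434231) (nat_lit 23) (.e (nat_lit 532483) (nat_lit 0) (.e (nat_lit 7936) (nat_lit 129) (.e (nat_lit 598038) (nat_lit 8) .nil))))))) (.g (nat_lit 4) .nil .nil))) 
(.lf (nat_lit 188857) (.g (nat_lit 4138) (.e (nat_lit 65568) (nat_lit 2) (.e (nat_lit 90170) (nat_lit 13) (.e (nat_lit 172106) (nat_lit 10) (.e (nat_lit 434231) (nat_lit 23) (.e (nat_lit 532499) (nat_lit 1) (.e (nat_lit 65280) (nat_lit 221) (.e (nat_lit 1200) (nat_lit 88) .nil))))))) (.g (nat_lit 5) .nil .nil)))))) (.nd (nat_lit 3) (.nd (nat_lit 4) (.nd (nat_lit 5) 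
(.lf (nat_lit 188805) (.g (nat_lit 4114) (.e (nat_lit 65568) (nat_lit 2) (.e (nat_lit 90170) (nat_lit 13) (.e (nat_lit 172106) (nat_lit 10) (.e (nat_lit 434231) (nat_lit 23) (.e (nat_lit 532481) (nat_lit 0) (.e (nat_lit 997) (nat_lit 81) (.e (nat_lit 4500) (nat_lit 263) (.e (nat_lit 1190) (nat_lit 88) .nil)))))))) (.g (nat_lit 5) .nil .nil))) 
(.lf (nat_lit 188837) (.g (nat_lit 2774) (.e (nat_lit 65568) (nat_lit 2) (.e (nat_lit 90170) (nat_lit 13) (.e (nat_lit 172106) (nat_lit 10) (.e (nat_lit 434231) (nat_lit 23) (.e (nat_lit 532490) (nat_lit 0) (.e (nat_lit 1907) (nat_lit 129) (.e (nat_lit 598038) (nat_lit 8) .nil))))))) (.g (nat_lit 5) .nil .nil)))) (.nd (nat_lit 5) 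
(.lf (nat_lit 188821) (.g (nat_lit 2465) (.e (nat_lit 65568) (nat_lit 2) (.e (nat_lit 90170) (nat_lit 13) (.e (nat_lit 172106) (nat_lit 10) (.e (nat_lit 434231) (nat_lit 23) (.e (nat_lit 532483) (nat_lit 0) (.e (nat_lit 1036) (nat_lit 81) (.e (nat_lit 4511) (nat_lit 263) (.e (nat_lit 1197) (nat_lit 88) .nil)))))))) (.g (nat_lit 4) .nil .nil))) 
(.lf (nat_lit 188853) (.g (nat_lit 2994) (.e (nat_lit 65568) (nat_lit 2) (.e (nat_lit 90170) (nat_lit 13) (.e (nat_lit 172106) (nat_lit 10) (.e (nat_lit 434231) (nat_lit 23) (.e (nat_lit 532499) (nat_lit 1) (.e (nat_lit 65280) (nat_lit 221) (.e (nat_lit 1195) (nat_lit 88) .nil))))))) (.g (nat_lit 4) .nil .nil))))) (.nd (nat_lit 4) (.nd (nat_lit 5) 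
(.lf (nat_lit 188813) (.g (nat_lit 2806) (.e (nat_lit 65568) (nat_lit 2) (.e (nat_lit 90170) (nat_lit 13) (.e (nat_lit 172106) (nat_lit 10) (.e (nat_lit 434231) (nat_lit 23) (.e (nat_lit 532482) (nat_lit 0) (.e (nat_lit 1904) (nat_lit 129) (.e (nat_lit 598039) (nat_lit 8) .nil))))))) (.g (nat_lit 5) .nil .nil))) 
(.lf (nat_lit 188845) (.g (nat_lit 3882) (.e (nat_lit 65568) (nat_lit 2) (.e (nat_lit 90170) (nat_lit 13) (.e (nat_lit 172106) (nat_lit 10) (.e (nat_lit 434231) (nat_lit 23) (.e (nat_lit 532499) (nat_lit 1) (.e (nat_lit 57766) (nat_lit 221) (.e (nat_lit 1196) (nat_lit 88) .nil))))))) (.g (nat_lit 5) .nil .nil)))) (.nd (nat_lit 5) 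
(.lf (nat_lit 188829) (.g (nat_lit 3235) (.e (nat_lit 65568) (nat_lit 2) (.e (nat_lit 90170) (nat_lit 13) (.e (nat_lit 172106) (nat_lit 10) (.e (nat_lit 434231) (nat_lit 23) (.e (nat_lit 532490) (nat_lit 0) (.e (nat_lit 991) (nat_lit 81) (.e (nat_lit 4500) (nat_lit 263) (.e (nat_lit 1189) (nat_lit 88) .nil)))))))) (.g (nat_lit 5) .nil .nil))) 
(.lf (nat_lit 188861) (.g (nat_lit 3815) (.e (nat_lit 65568) (nat_lit 2) (.e (nat_lit 90170) (nat_lit 13) (.e (nat_lit 172106) (nat_lit 10) (.e (nat_lit 434231) (nat_lit 23) (.e (nat_lit 532500) (nat_lit 1) (.e (nat_lit 57766) (nat_lit 221) (.e (nat_lit 1197) (nat_lit 88) .nil))))))) (.g (nat_lit 5) .nil .nil))))))) (.nd (nat_lit 2) (.nd (nat_lit 3) (.nd (nat_lit 4) (.nd (nat_lit 5) 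
(.lf (nat_lit 188803) (.g (nat_lit 4442) (.e (nat_lit 65568) (nat_lit 2) (.e (nat_lit 90170) (nat_lit 13) (.e (nat_lit 172106) (nat_lit 10) (.e (nat_lit 434231) (nat_lit 23) (.e (nat_lit 532481) (nat_lit 0) (.e (nat_lit 996) (nat_lit 81) (.e (nat_lit 4500) (nat_lit 263) (.e (nat_lit 1190) (nat_lit 88) .nil)))))))) (.g (nat_lit 5) .nil .nil))) 
(.lf (nat_lit 188835) (.g (nat_lit 2706) (.e (nat_lit 65568) (nat_lit 2) (.e (nat_lit 90170) (nat_lit 13) (.e (nat_lit 172106) (nat_lit 10) (.e (nat_lit 434231) (nat_lit 23) (.e (nat_lit 532490) (nat_lit 0) (.e (nat_lit 1086) (nat_lit 81) (.e (nat_lit 4490) (nat_lit 263) (.e (nat_lit 1200) (nat_lit 88) .nil)))))))) (.g (nat_lit 5) .nil .nil)))) (.nd (nat_lit 5) 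
(.lf (nat_lit 188819) (.g (nat_lit 2657) (.e (nat_lit 65568) (nat_lit 2) (.e (nat_lit 90170) (nat_lit 13) (.e (nat_lit 172106) (nat_lit 10) (.e (nat_lit 434231) (nat_lit 23) (.e (nat_lit 532483) (nat_lit 0) (.e (nat_lit 1036) (nat_lit 81) (.e (nat_lit 4506) (nat_lit 263) (.e (nat_lit 7936) (nat_lit 88) .nil)))))))) (.g (nat_lit 4) .nil .nil))) 
(.lf (nat_lit 188851) (.g (nat_lit 2729) (.e (nat_lit 65568) (nat_lit 2) (.e (nat_lit 90170) (nat_lit 13) (.e (nat_lit 172106) (nat_lit 10) (.e (nat_lit 434231) (nat_lit 23) (.e (nat_lit 532499) (nat_lit 1) (.e (nat_lit 65280) (nat_lit 221) (.e (nat_lit 1192) (nat_lit 88) .nil))))))) (.g (nat_lit 4) .nil .nil))))) (.nd (nat_lit 4) (.nd (nat_lit 5) 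
(.lf (nat_lit 188811) (.g (nat_lit 2448) (.e (nat_lit 65568) (nat_lit 2) (.e (nat_lit 90170) (nat_lit 13) (.e (nat_lit 172106) (nat_lit 10) (.e (nat_lit 434231) (nat_lit 23) (.e (nat_lit 532482) (nat_lit 0) (.e (nat_lit 979) (nat_lit 81) (.e (nat_lit 4490) (nat_lit 263) (.e (nat_lit 1200) (nat_lit 88) .nil)))))))) (.g (nat_lit 4) .nil .nil))) 
(.lf (nat_lit 188843) (.g (nat_lit 2477) (.e (nat_lit 65568) (nat_lit 2) (.e (nat_lit 90170) (nat_lit 13) (.e (nat_lit 172106) (nat_lit 10) (.e (nat_lit 434231) (nat_lit 23) (.e (nat_lit 532498) (nat_lit 1) (.e (nat_lit 57766) (nat_lit 221) (.e (nat_lit 1196) (nat_lit 88) .nil))))))) (.g (nat_lit 4) .nil .nil)))) (.nd (nat_lit 5) 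
(.lf (nat_lit 188827) (.g (nat_lit 3026) (.e (nat_lit 65568) (nat_lit 2) (.e (nat_lit 90170) (nat_lit 13) (.e (nat_lit 172106) (nat_lit 10) (.e (nat_lit 434231) (nat_lit 23) (.e (nat_lit 532490) (nat_lit 0) (.e (nat_lit 989) (nat_lit 81) (.e (nat_lit 4500) (nat_lit 263) (.e (nat_lit 1190) (nat_lit 88) .nil)))))))) (.g (nat_lit 5) .nil .nil))) 
(.lf (nat_lit 188859) (.g (nat_lit 3172) (.e (nat_lit 65568) (nat_lit 2) (.e (nat_lit 90170) (nat_lit 13) (.e (nat_lit 172106) (nat_lit 10) (.e (nat_lit 434231) (nat_lit 23) (.e (nat_lit 532500) (nat_lit 1) (.e (nat_lit 57765) (nat_lit 221) (.e (nat_lit 7936) (nat_lit 88) .nil))))))) (.g (nat_lit 4) .nil .nil)))))) (.nd (nat_lit 3) (.nd (nat_lit 4) (.nd (nat_lit 5) 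
(.lf (nat_lit 188807) (.g (nat_lit 4263) (.e (nat_lit 65568) (nat_lit 2) (.e (nat_lit 90170) (nat_lit 13) (.e (nat_lit 172106) (nat_lit 10) (.e (nat_lit 434231) (nat_lit 23) (.e (nat_lit 532481) (nat_lit 0) (.e (nat_lit 1906) (nat_lit 129) (.e (nat_lit 598038) (nat_lit 8) .nil))))))) (.g (nat_lit 5) .nil .nil))) 
(.lf (nat_lit 188839) (.g (nat_lit 2543) (.e (nat_lit 65568) (nat_lit 2) (.e (nat_lit 90170) (nat_lit 13) (.e (nat_lit 172106) (nat_lit 10) (.e (nat_lit 434231) (nat_lit 23) (.e (nat_lit 532490) (nat_lit 0) (.e (nat_lit 1909) (nat_lit 129) (.e (nat_lit 598039) (nat_lit 8) .nil))))))) (.g (nat_lit 5) .nil .nil)))) (.nd (nat_lit 5) 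
(.lf (nat_lit 188823) (.g (nat_lit 2574) (.e (nat_lit 65568) (nat_lit 2) (.e (nat_lit 90170) (nat_lit 13) (.e (nat_lit 172106) (nat_lit 10) (.e (nat_lit 434231) (nat_lit 23) (.e (nat_lit 532483) (nat_lit 0) (.e (nat_lit 1911) (nat_lit 129) (.e (nat_lit 598039) (nat_lit 8) .nil))))))) (.g (nat_lit 4) .nil .nil))) 
(.lf (nat_lit 188855) (.g (nat_lit 4309) (.e (nat_lit 65568) (nat_lit 2) (.e (nat_lit 90170) (nat_lit 13) (.e (nat_lit 172106) (nat_lit 10) (.e (nat_lit 434231) (nat_lit 23) (.e (nat_lit 532499) (nat_lit 1) (.e (nat_lit 65280) (nat_lit 221) (.e (nat_lit 1197) (nat_lit 88) .nil))))))) (.g (nat_lit 5) .nil .nil))))) (.nd (nat_lit 4) (.nd (nat_lit 5) 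
(.lf (nat_lit 188815) (.g (nat_lit 2130) (.e (nat_lit 65568) (nat_lit 2) (.e (nat_lit 90170) (nat_lit 13) (.e (nat_lit 172106) (nat_lit 10) (.e (nat_lit 434231) (nat_lit 23) (.e (nat_lit 532483) (nat_lit 0) .nil))))) .nil)) 
(.lf (nat_lit 188847) (.g (nat_lit 2822) (.e (nat_lit 65568) (nat_lit 2) (.e (nat_lit 90170) (nat_lit 13) (.e (nat_lit 172106) (nat_lit 10) (.e (nat_lit 434231) (nat_lit 23) (.e (nat_lit 532499) (nat_lit 1) (.e (nat_lit 57767) (nat_lit 221) (.e (nat_lit 1187) (nat_lit 88) .nil))))))) (.g (nat_lit 4) .nil .nil)))) (.nd (nat_lit 5) 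
(.lf (nat_lit 188831) (.g (nat_lit 2686) (.e (nat_lit 65568) (nat_lit 2) (.e (nat_lit 90170) (nat_lit 13) (.e (nat_lit 172106) (nat_lit 10) (.e (nat_lit 434231) (nat_lit 23) (.e (nat_lit 532490) (nat_lit 0) (.e (nat_lit 1040) (nat_lit 81) (.e (nat_lit 4511) (nat_lit 263) (.e (nat_lit 1196) (nat_lit 88) .nil)))))))) (.g (nat_lit 5) .nil .nil))) 
(.lf (nat_lit 188863) (.g (nat_lit 3043) (.e (nat_lit 65568) (nat_lit 2) (.e (nat_lit 90170) (nat_lit 13) (.e (nat_lit 172106) (nat_lit 10) (.e (nat_lit 434231) (nat_lit 23) (.e (nat_lit 532500) (nat_lit 1) (.e (nat_lit 57767) (nat_lit 221) (.e (nat_lit 1187) (nat_lit 88) .nil))))))) (.g (nat_lit 4) .nil .nil)))))))))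

noncomputable def tv2503 : DT := (.nd (nat_lit 0) (.nd (nat_lit 1) (.nd (nat_lit 2) (.nd (nat_lit 3) (.nd (nat_lit 4) (.nd (nat_lit 5) 
(.lf (nat_lit 188864) (.g (nat_lit 2759) (.e (nat_lit 65568) (nat_lit 2) (.e (nat_lit 90170) (nat_lit 13) (.e (nat_lit 172106) (nat_lit 10) (.e (nat_lit 434231) (nat_lit 23) (.e (nat_lit 532500) (nat_lit 1) (.e (nat_lit 57767) (nat_lit 221) (.e (nat_lit 7936) (nat_lit 88) .nil))))))) (.g (nat_lit 4) .nil .nil))) 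
(.lf (nat_lit 188896) (.g (nat_lit 4647) (.e (nat_lit 65568) (nat_lit 2) (.e (nat_lit 90170) (nat_lit 13) (.e (nat_lit 172106) (nat_lit 10) (.e (nat_lit 434242) (nat_lit 28) (.e (nat_lit 573474) (nat_lit 12) (.e (nat_lit 57572) (nat_lit 54) (.e (nat_lit 770072) (nat_lit 8) .nil))))))) (.g (nat_lit 5) .nil .nil)))) (.nd (nat_lit 5) 
(.lf (nat_lit 188880) (.g (nat_lit 2803) (.e (nat_lit 65568) (nat_lit 2) (.e (nat_lit 90170) (nat_lit 13) (.e (nat_lit 172106) (nat_lit 10) (.e (nat_lit 434231) (nat_lit 23) (.e (nat_lit 532517) (nat_lit 4) (.e (nat_lit 123116) (nat_lit 221) (.e (nat_lit 1199) (nat_lit 88) .nil))))))) (.g (nat_lit 4) .nil .nil))) 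
(.lf (nat_lit 188912) (.g (nat_lit 2663) (.e (nat_lit 65568) (nat_lit 2) (.e (nat_lit 90170) (nat_lit 13) (.e (nat_lit 172106) (nat_lit 10) (.e (nat_lit 434244) (nat_lit 28) (.e (nat_lit 573468) (nat_lit 10) (.e (nat_lit 8192) (nat_lit 0) (.e (nat_lit 4450) (nat_lit 263) (.e (nat_lit 1196) (nat_lit 88) .nil)))))))) (.g (nat_lit 5) .nil .nil))))) (.nd (nat_lit 4) (.nd (nat_lit 5) 
(.lf (nat_lit 188872) (.g (nat_lit 3944) (.e (nat_lit 65568) (nat_lit 2) (.e (nat_lit 90170) (nat_lit 13) (.e (nat_lit 172106) (nat_lit 10) (.e (nat_lit 434231) (nat_lit 23) (.e (nat_lit 532500) (nat_lit 1) (.e (nat_lit 65280) (nat_lit 221) (.e (nat_lit 1202) (nat_lit 88) .nil))))))) (.g (nat_lit 5) .nil .nil))) 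
(.lf (nat_lit 188904) (.g (nat_lit 3021) (.e (nat_lit 65568) (nat_lit 2) (.e (nat_lit 90170) (nat_lit 13) (.e (nat_lit 172106) (nat_lit 10) (.e (nat_lit 434244) (nat_lit 28) (.e (nat_lit 573468) (nat_lit 10) (.e (nat_lit 8192) (nat_lit 0) (.e (nat_lit 4439) (nat_lit 263) (.e (nat_lit 1190) (nat_lit 88) .nil)))))))) (.g (nat_lit 5) .nil .nil)))) (.nd (nat_lit 5) 
(.lf (nat_lit 188888) (.g (nat_lit 2681) (.e (nat_lit 65568) (nat_lit 2) (.e (nat_lit 90170) (nat_lit 13) (.e (nat_lit 172106) (nat_lit 10) (.e (nat_lit 434231) (nat_lit 23) (.e (nat_lit 540416) (nat_lit 17) (.e (nat_lit 3461) (nat_lit 216) (.e (nat_lit 688177) (nat_lit 16) .nil))))))) (.g (nat_lit 4) .nil .nil))) 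
(.lf (nat_lit 188920) (.g (nat_lit 2095) (.e (nat_lit 65568) (nat_lit 2) (.e (nat_lit 90170) (nat_lit 13) (.e (nat_lit 172106) (nat_lit 10) (.e (nat_lit 434244) (nat_lit 28) (.e (nat_lit 573468) (nat_lit 10) (.e (nat_lit 8193) (nat_lit 0) (.e (nat_lit 4450) (nat_lit 263) (.e (nat_lit 1198) (nat_lit 88) .nil)))))))) (.g (nat_lit 4) .nil .nil)))))) (.nd (nat_lit 3) (.nd (nat_lit 4) (.nd (nat_lit 5) 
(.lf (nat_lit 188868) (.g (nat_lit 3060) (.e (nat_lit 65568) (nat_lit 2) (.e (nat_lit 90170) (nat_lit 13) (.e (nat_lit 172106) (nat_lit 10) (.e (nat_lit 434231) (nat_lit 23) (.e (nat_lit 532500) (nat_lit 1) (.e (nat_lit 65280) (nat_lit 221) (.e (nat_lit 1192) (nat_lit 88) .nil))))))) (.g (nat_lit 4) .nil .nil))) 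
(.lf (nat_lit 188900) (.g (nat_lit 2362) (.e (nat_lit 65568) (nat_lit 2) (.e (nat_lit 90170) (nat_lit 13) (.e (nat_lit 172106) (nat_lit 10) (.e (nat_lit 434244) (nat_lit 28) (.e (nat_lit 573451) (nat_lit 9) (.e (nat_lit 1030) (nat_lit 81) (.e (nat_lit 2279) (nat_lit 150) (.e (nat_lit 770071) (nat_lit 8) .nil)))))))) (.g (nat_lit 5) .nil .nil)))) (.nd (nat_lit 5) 
(.lf (nat_lit 188884) (.g (nat_lit 2832) (.e (nat_lit 65568) (nat_lit 2) (.e (nat_lit 90170) (nat_lit 13) (.e (nat_lit 172106) (nat_lit 10) (.e (nat_lit 434231) (nat_lit 23) (.e (nat_lit 532574) (nat_lit 17) (.e (nat_lit 7936) (nat_lit 216) (.e (nat_lit 688177) (nat_lit 16) .nil))))))) (.g (nat_lit 4) .nil .nil))) 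
(.lf (nat_lit 188916) (.g (nat_lit 2579) (.e (nat_lit 65568) (nat_lit 2) (.e (nat_lit 90170) (nat_lit 13) (.e (nat_lit 172106) (nat_lit 10) (.e (nat_lit 434244) (nat_lit 28) (.e (nat_lit 573468) (nat_lit 10) (.e (nat_lit 8193) (nat_lit 0) (.e (nat_lit 4439) (nat_lit 263) (.e (nat_lit 1200) (nat_lit 88) .nil)))))))) (.g (nat_lit 5) .nil .nil))))) (.nd (nat_lit 4) (.nd (nat_lit 5) 
(.lf (nat_lit 188876) (.g (nat_lit 2200) (.e (nat_lit 65568) (nat_lit 2) (.e (nat_lit 90170) (nat_lit 13) (.e (nat_lit 172106) (nat_lit 10) (.e (nat_lit 434231) (nat_lit 23) (.e (nat_lit 532516) (nat_lit 4) (.e (nat_lit 130816) (nat_lit 221) (.e (nat_lit 1190) (nat_lit 88) .nil))))))) (.g (nat_lit 4) .nil .nil))) 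
(.lf (nat_lit 188908) (.g (nat_lit 2901) (.e (nat_lit 65568) (nat_lit 2) (.e (nat_lit 90170) (nat_lit 13) (.e (nat_lit 172106) (nat_lit 10) (.e (nat_lit 434244) (nat_lit 28) (.e (nat_lit 573468) (nat_lit 10) (.e (nat_lit 8192) (nat_lit 0) (.e (nat_lit 4445) (nat_lit 263) (.e (nat_lit 1198) (nat_lit 88) .nil)))))))) (.g (nat_lit 5) .nil .nil)))) (.nd (nat_lit 5) 
(.lf (nat_lit 188892) (.g (nat_lit 2143) (.e (nat_lit 65568) (nat_lit 2) (.e (nat_lit 90170) (nat_lit 13) (.e (nat_lit 172106) (nat_lit 10) (.e (nat_lit 434231) (nat_lit 23) (.e (nat_lit 540416) (nat_lit 18) (.e (nat_lit 164162) (nat_lit 152) (.e (nat_lit 1188) (nat_lit 88) .nil))))))) (.g (nat_lit 4) .nil .nil))) 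
(.lf (nat_lit 188924) (.g (nat_lit 2076) (.e (nat_lit 65568) (nat_lit 2) (.e (nat_lit 90170) (nat_lit 13) (.e (nat_lit 172106) (nat_lit 10) (.e (nat_lit 434244) (nat_lit 28) (.e (nat_lit 573468) (nat_lit 10) (.e (nat_lit 8194) (nat_lit 0) (.e (nat_lit 4444) (nat_lit 263) (.e (nat_lit 1195) (nat_lit 88) .nil)))))))) (.g (nat_lit 4) .nil .nil))))))) 
(.nd (nat_lit 2) (.nd (nat_lit 3) (.nd (nat_lit 4) (.nd (nat_lit 5) 
(.lf (nat_lit 188866) (.g (nat_lit 4370) (.e (nat_lit 65568) (nat_lit 2) (.e (nat_lit 90170) (nat_lit 13) (.e (nat_lit 172106) (nat_lit 10) (.e (nat_lit 434231) (nat_lit 23) (.e (nat_lit 532500) (nat_lit 1) (.e (nat_lit 65280) (nat_lit 221) (.e (nat_lit 1189) (nat_lit 88) .nil))))))) (.g (nat_lit 5) .nil .nil))) 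
(.lf (nat_lit 188898) (.g (nat_lit 2033) (.e (nat_lit 65568) (nat_lit 2) (.e (nat_lit 90170) (nat_lit 13) (.e (nat_lit 172106) (nat_lit 10) (.e (nat_lit 434244) (nat_lit 28) (.e (nat_lit 573449) (nat_lit 9) (.e (nat_lit 1183) (nat_lit 87) (.e (nat_lit 57655) (nat_lit 152) (.e (nat_lit 1203) (nat_lit 88) .nil)))))))) (.g (nat_lit 4) .nil .nil)))) (.nd (nat_lit 5) 
(.lf (nat_lit 188882) (.g (nat_lit 2776) (.e (nat_lit 65568) (nat_lit 2) (.e (nat_lit 90170) (nat_lit 13) (.e (nat_lit 172106) (nat_lit 10) (.e (nat_lit 434231) (nat_lit 23) (.e (nat_lit 532517) (nat_lit 4) (.e (nat_lit 130816) (nat_lit 221) (.e (nat_lit 1190) (nat_lit 88) .nil))))))) (.g (nat_lit 4) .nil .nil))) 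
(.lf (nat_lit 188914) (.g (nat_lit 2618) (.e (nat_lit 65568) (nat_lit 2) (.e (nat_lit 90170) (nat_lit 13) (.e (nat_lit 172106) (nat_lit 10) (.e (nat_lit 434244) (nat_lit 28) (.e (nat_lit 573468) (nat_lit 10) (.e (nat_lit 8192) (nat_lit 0) (.e (nat_lit 4450) (nat_lit 263) (.e (nat_lit 1199) (nat_lit 88) .nil)))))))) (.g (nat_lit 5) .nil .nil))))) (.nd (nat_lit 4) (.nd (nat_lit 5) 
(.lf (nat_lit 188874) (.g (nat_lit 2832) (.e (nat_lit 65568) (nat_lit 2) (.e (nat_lit 90170) (nat_lit 13) (.e (nat_lit 172106) (nat_lit 10) (.e (nat_lit 434231) (nat_lit 23) (.e (nat_lit 532516) (nat_lit 4) (.e (nat_lit 123116) (nat_lit 221) (.e (nat_lit 1190) (nat_lit 88) .nil))))))) (.g (nat_lit 4) .nil .nil))) 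
(.lf (nat_lit 188906) (.g (nat_lit 2874) (.e (nat_lit 65568) (nat_lit 2) (.e (nat_lit 90170) (nat_lit 13) (.e (nat_lit 172106) (nat_lit 10) (.e (nat_lit 434244) (nat_lit 28) (.e (nat_lit 573468) (nat_lit 10) (.e (nat_lit 8192) (nat_lit 0) (.e (nat_lit 4441) (nat_lit 263) (.e (nat_lit 1195) (nat_lit 88) .nil)))))))) (.g (nat_lit 5) .nil .nil)))) (.nd (nat_lit 5) 
(.lf (nat_lit 188890) (.g (nat_lit 2176) (.e (nat_lit 65568) (nat_lit 2) (.e (nat_lit 90170) (nat_lit 13) (.e (nat_lit 172106) (nat_lit 10) (.e (nat_lit 434231) (nat_lit 23) (.e (nat_lit 540416) (nat_lit 18) (.e (nat_lit 164148) (nat_lit 152) (.e (nat_lit 1195) (nat_lit 88) .nil))))))) (.g (nat_lit 4) .nil .nil))) 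
(.lf (nat_lit 188922) (.g (nat_lit 2586) (.e (nat_lit 65568) (nat_lit 2) (.e (nat_lit 90170) (nat_lit 13) (.e (nat_lit 172106) (nat_lit 10) (.e (nat_lit 434244) (nat_lit 28) (.e (nat_lit 573468) (nat_lit 10) (.e (nat_lit 8194) (nat_lit 0) (.e (nat_lit 4441) (nat_lit 263) (.e (nat_lit 1195) (nat_lit 88) .nil)))))))) (.g (nat_lit 5) .nil .nil)))))) (.nd (nat_lit 3) (.nd (nat_lit 4) (.nd (nat_lit 5) 
(.lf (nat_lit 188870) (.g (nat_lit 3325) (.e (nat_lit 65568) (nat_lit 2) (.e (nat_lit 90170) (nat_lit 13) (.e (nat_lit 172106) (nat_lit 10) (.e (nat_lit 434231) (nat_lit 23) (.e (nat_lit 532500) (nat_lit 1) (.e (nat_lit 65280) (nat_lit 221) (.e (nat_lit 1195) (nat_lit 88) .nil))))))) (.g (nat_lit 4) .nil .nil))) 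
(.lf (nat_lit 188902) (.g (nat_lit 1032) (.e (nat_lit 65568) (nat_lit 2) (.e (nat_lit 90170) (nat_lit 13) (.e (nat_lit 172106) (nat_lit 10) (.e (nat_lit 434244) (nat_lit 28) (.e (nat_lit 573458) (nat_lit 9) .nil))))) .nil))) (.nd (nat_lit 5) 
(.lf (nat_lit 188886) (.g (nat_lit 2665) (.e (nat_lit 65568) (nat_lit 2) (.e (nat_lit 90170) (nat_lit 13) (.e (nat_lit 172106) (nat_lit 10) (.e (nat_lit 434231) (nat_lit 23) (.e (nat_lit 532577) (nat_lit 17) (.e (nat_lit 7936) (nat_lit 216) (.e (nat_lit 688177) (nat_lit 16) .nil))))))) (.g (nat_lit 4) .nil .nil))) 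
(.lf (nat_lit 188918) (.g (nat_lit 2359) (.e (nat_lit 65568) (nat_lit 2) (.e (nat_lit 90170) (nat_lit 13) (.e (nat_lit 172106) (nat_lit 10) (.e (nat_lit 434244) (nat_lit 28) (.e (nat_lit 573468) (nat_lit 10) (.e (nat_lit 8193) (nat_lit 0) (.e (nat_lit 4445) (nat_lit 263) (.e (nat_lit 1198) (nat_lit 88) .nil)))))))) (.g (nat_lit 5) .nil .nil))))) (.nd (nat_lit 4) (.nd (nat_lit 5) 
(.lf (nat_lit 188878) (.g (nat_lit 2479) (.e (nat_lit 65568) (nat_lit 2) (.e (nat_lit 90170) (nat_lit 13) (.e (nat_lit 172106) (nat_lit 10) (.e (nat_lit 434231) (nat_lit 23) (.e (nat_lit 532517) (nat_lit 4) (.e (nat_lit 123116) (nat_lit 221) (.e (nat_lit 1188) (nat_lit 88) .nil))))))) (.g (nat_lit 4) .nil .nil))) 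
(.lf (nat_lit 188910) (.g (nat_lit 2977) (.e (nat_lit 65568) (nat_lit 2) (.e (nat_lit 90170) (nat_lit 13) (.e (nat_lit 172106) (nat_lit 10) (.e (nat_lit 434244) (nat_lit 28) (.e (nat_lit 573468) (nat_lit 10) (.e (nat_lit 8192) (nat_lit 0) (.e (nat_lit 4448) (nat_lit 263) (.e (nat_lit 1198) (nat_lit 88) .nil)))))))) (.g (nat_lit 5) .nil .nil)))) (.nd (nat_lit 5) 
(.lf (nat_lit 188894) (.g (nat_lit 2528) (.e (nat_lit 65568) (nat_lit 2) (.e (nat_lit 90170) (nat_lit 13) (.e (nat_lit 172106) (nat_lit 10) (.e (nat_lit 434231) (nat_lit 23) (.e (nat_lit 540416) (nat_lit 18) (.e (nat_lit 164167) (nat_lit 152) (.e (nat_lit 1196) (nat_lit 88) .nil))))))) (.g (nat_lit 4) .nil .nil))) 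
(.lf (nat_lit 188926) (.g (nat_lit 2483) (.e (nat_lit 65568) (nat_lit 2) (.e (nat_lit 90170) (nat_lit 13) (.e (nat_lit 172106) (nat_lit 10) (.e (nat_lit 434244) (nat_lit 28) (.e (nat_lit 573468) (nat_lit 10) (.e (nat_lit 8194) (nat_lit 0) (.e (nat_lit 4448) (nat_lit 263) (.e (nat_lit 1198) (nat_lit 88) .nil)))))))) (.g (nat_lit 5) .nil .nil)))))))) 
(.nd (nat_lit 1) (.nd (nat_lit 2) (.nd (nat_lit 3) (.nd (nat_lit 4) (.nd (nat_lit 5) 
(.lf (nat_lit 188865) (.g (nat_lit 3256) (.e (nat_lit 65568) (nat_lit 2) (.e (nat_lit 90170) (nat_lit 13) (.e (nat_lit 172106) (nat_lit 10) (.e (nat_lit 434231) (nat_lit 23) (.e (nat_lit 532500) (nat_lit 1) (.e (nat_lit 65280) (nat_lit 221) (.e (nat_lit 1187) (nat_lit 88) .nil))))))) (.g (nat_lit 4) .nil .nil))) 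
(.lf (nat_lit 188897) (.g (nat_lit 2160) (.e (nat_lit 65568) (nat_lit 2) (.e (nat_lit 90170) (nat_lit 13) (.e (nat_lit 172106) (nat_lit 10) (.e (nat_lit 434244) (nat_lit 28) (.e (nat_lit 581376) (nat_lit 3) (.e (nat_lit 164017) (nat_lit 44) (.e (nat_lit 688177) (nat_lit 16) .nil))))))) (.g (nat_lit 4) .nil .nil)))) (.nd (nat_lit 5) 
(.lf (nat_lit 188881) (.g (nat_lit 2218) (.e (nat_lit 65568) (nat_lit 2) (.e (nat_lit 90170) (nat_lit 13) (.e (nat_lit 172106) (nat_lit 10) (.e (nat_lit 434231) (nat_lit 23) (.e (nat_lit 532517) (nat_lit 4) (.e (nat_lit 130816) (nat_lit 221) (.e (nat_lit 1188) (nat_lit 88) .nil))))))) (.g (nat_lit 4) .nil .nil))) 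
(.lf (nat_lit 188913) (.g (nat_lit 2711) (.e (nat_lit 65568) (nat_lit 2) (.e (nat_lit 90170) (nat_lit 13) (.e (nat_lit 172106) (nat_lit 10) (.e (nat_lit 434244) (nat_lit 28) (.e (nat_lit 573468) (nat_lit 10) (.e (nat_lit 8192) (nat_lit 0) (.e (nat_lit 4450) (nat_lit 263) (.e (nat_lit 1198) (nat_lit 88) .nil)))))))) (.g (nat_lit 5) .nil .nil))))) (.nd (nat_lit 4) (.nd (nat_lit 5) 
(.lf (nat_lit 188873) (.g (nat_lit 2311) (.e (nat_lit 65568) (nat_lit 2) (.e (nat_lit 90170) (nat_lit 13) (.e (nat_lit 172106) (nat_lit 10) (.e (nat_lit 434231) (nat_lit 23) (.e (nat_lit 532516) (nat_lit 4) (.e (nat_lit 123116) (nat_lit 221) (.e (nat_lit 1188) (nat_lit 88) .nil))))))) (.g (nat_lit 4) .nil .nil))) 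
(.lf (nat_lit 188905) (.g (nat_lit 2811) (.e (nat_lit 65568) (nat_lit 2) (.e (nat_lit 90170) (nat_lit 13) (.e (nat_lit 172106) (nat_lit 10) (.e (nat_lit 434244) (nat_lit 28) (.e (nat_lit 573468) (nat_lit 10) (.e (nat_lit 8192) (nat_lit 0) (.e (nat_lit 4439) (nat_lit 263) (.e (nat_lit 1200) (nat_lit 88) .nil)))))))) (.g (nat_lit 5) .nil .nil)))) (.nd (nat_lit 5) 
(.lf (nat_lit 188889) (.g (nat_lit 2083) (.e (nat_lit 65568) (nat_lit 2) (.e (nat_lit 90170) (nat_lit 13) (.e (nat_lit 172106) (nat_lit 10) (.e (nat_lit 434231) (nat_lit 23) (.e (nat_lit 540416) (nat_lit 18) .nil))))) .nil)) 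
(.lf (nat_lit 188921) (.g (nat_lit 2548) (.e (nat_lit 65568) (nat_lit 2) (.e (nat_lit 90170) (nat_lit 13) (.e (nat_lit 172106) (nat_lit 10) (.e (nat_lit 434244) (nat_lit 28) (.e (nat_lit 573468) (nat_lit 10) (.e (nat_lit 8194) (nat_lit 0) (.e (nat_lit 4439) (nat_lit 263) (.e (nat_lit 1200) (nat_lit 88) .nil)))))))) (.g (nat_lit 5) .nil .nil)))))) (.nd (nat_lit 3) (.nd (nat_lit 4) (.nd (nat_lit 5) 
(.lf (nat_lit 188869) (.g (nat_lit 3323) (.e (nat_lit 65568) (nat_lit 2) (.e (nat_lit 90170) (nat_lit 13) (.e (nat_lit 172106) (nat_lit 10) (.e (nat_lit 434231) (nat_lit 23) (.e (nat_lit 532500) (nat_lit 1) (.e (nat_lit 65280) (nat_lit 221) (.e (nat_lit 1194) (nat_lit 88) .nil))))))) (.g (nat_lit 4) .nil .nil))) 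
(.lf (nat_lit 188901) (.g (nat_lit 2604) (.e (nat_lit 65568) (nat_lit 2) (.e (nat_lit 90170) (nat_lit 13) (.e (nat_lit 172106) (nat_lit 10) (.e (nat_lit 434244) (nat_lit 28) (.e (nat_lit 573451) (nat_lit 9) (.e (nat_lit 1032) (nat_lit 81) (.e (nat_lit 2279) (nat_lit 150) (.e (nat_lit 770071) (nat_lit 8) .nil)))))))) (.g (nat_lit 5) .nil .nil)))) (.nd (nat_lit 5) 
(.lf (nat_lit 188885) (.g (nat_lit 3056) (.e (nat_lit 65568) (nat_lit 2) (.e (nat_lit 90170) (nat_lit 13) (.e (nat_lit 172106) (nat_lit 10) (.e (nat_lit 434231) (nat_lit 23) (.e (nat_lit 532576) (nat_lit 17) (.e (nat_lit 7936) (nat_lit 216) (.e (nat_lit 688177) (nat_lit 16) .nil))))))) (.g (nat_lit 4) .nil .nil))) 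
(.lf (nat_lit 188917) (.g (nat_lit 2100) (.e (nat_lit 65568) (nat_lit 2) (.e (nat_lit 90170) (nat_lit 13) (.e (nat_lit 172106) (nat_lit 10) (.e (nat_lit 434244) (nat_lit 28) (.e (nat_lit 573468) (nat_lit 10) (.e (nat_lit 8193) (nat_lit 0) (.e (nat_lit 4441) (nat_lit 263) (.e (nat_lit 1195) (nat_lit 88) .nil)))))))) (.g (nat_lit 4) .nil .nil))))) (.nd (nat_lit 4) (.nd (nat_lit 5) 
(.lf (nat_lit 188877) (.g (nat_lit 2082) (.e (nat_lit 65568) (nat_lit 2) (.e (nat_lit 90170) (nat_lit 13) (.e (nat_lit 172106) (nat_lit 10) (.e (nat_lit 434231) (nat_lit 23) (.e (nat_lit 532517) (nat_lit 4) .nil))))) .nil)) 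
(.lf (nat_lit 188909) (.g (nat_lit 2477) (.e (nat_lit 65568) (nat_lit 2) (.e (nat_lit 90170) (nat_lit 13) (.e (nat_lit 172106) (nat_lit 10) (.e (nat_lit 434244) (nat_lit 28) (.e (nat_lit 573468) (nat_lit 10) (.e (nat_lit 8192) (nat_lit 0) (.e (nat_lit 4447) (nat_lit 263) (.e (nat_lit 1196) (nat_lit 88) .nil)))))))) (.g (nat_lit 5) .nil .nil)))) (.nd (nat_lit 5) 
(.lf (nat_lit 188893) (.g (nat_lit 2446) (.e (nat_lit 65568) (nat_lit 2) (.e (nat_lit 90170) (nat_lit 13) (.e (nat_lit 172106) (nat_lit 10) (.e (nat_lit 434231) (nat_lit 23) (.e (nat_lit 540416) (nat_lit 18) (.e (nat_lit 164162) (nat_lit 152) (.e (nat_lit 1196) (nat_lit 88) .nil))))))) (.g (nat_lit 4) .nil .nil))) 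
(.lf (nat_lit 188925) (.g (nat_lit 2730) (.e (nat_lit 65568) (nat_lit 2) (.e (nat_lit 90170) (nat_lit 13) (.e (nat_lit 172106) (nat_lit 10) (.e (nat_lit 434244) (nat_lit 28) (.e (nat_lit 573468) (nat_lit 10) (.e (nat_lit 8194) (nat_lit 0) (.e (nat_lit 4445) (nat_lit 263) (.e (nat_lit 1198) (nat_lit 88) .nil)))))))) (.g (nat_lit 5) .nil .nil))))))) 
(.nd (nat_lit 2) (.nd (nat_lit 3) (.nd (nat_lit 4) (.nd (nat_lit 5) 
(.lf (nat_lit 188867) (.g (nat_lit 2601) (.e (nat_lit 65568) (nat_lit 2) (.e (nat_lit 90170) (nat_lit 13) (.e (nat_lit 172106) (nat_lit 10) (.e (nat_lit 434231) (nat_lit 23) (.e (nat_lit 532500) (nat_lit 1) (.e (nat_lit 65280) (nat_lit 221) (.e (nat_lit 1191) (nat_lit 88) .nil))))))) (.g (nat_lit 4) .nil .nil))) 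
(.lf (nat_lit 188899) (.g (nat_lit 2681) (.e (nat_lit 65568) (nat_lit 2) (.e (nat_lit 90170) (nat_lit 13) (.e (nat_lit 172106) (nat_lit 10) (.e (nat_lit 434244) (nat_lit 28) (.e (nat_lit 573451) (nat_lit 9) (.e (nat_lit 982) (nat_lit 81) (.e (nat_lit 2283) (nat_lit 150) (.e (nat_lit 770071) (nat_lit 8) .nil)))))))) (.g (nat_lit 5) .nil .nil)))) (.nd (nat_lit 5) 
(.lf (nat_lit 188883) (.g (nat_lit 2132) (.e (nat_lit 65568) (nat_lit 2) (.e (nat_lit 90170) (nat_lit 13) (.e (nat_lit 172106) (nat_lit 10) (.e (nat_lit 434231) (nat_lit 23) (.e (nat_lit 532517) (nat_lit 4) (.e (nat_lit 130816) (nat_lit 221) (.e (nat_lit 1199) (nat_lit 88) .nil))))))) (.g (nat_lit 4) .nil .nil))) 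
(.lf (nat_lit 188915) (.g (nat_lit 3021) (.e (nat_lit 65568) (nat_lit 2) (.e (nat_lit 90170) (nat_lit 13) (.e (nat_lit 172106) (nat_lit 10) (.e (nat_lit 434244) (nat_lit 28) (.e (nat_lit 573468) (nat_lit 10) (.e (nat_lit 8192) (nat_lit 0) (.e (nat_lit 4450) (nat_lit 263) (.e (nat_lit 1200) (nat_lit 88) .nil)))))))) (.g (nat_lit 5) .nil .nil))))) (.nd (nat_lit 4) (.nd (nat_lit 5) 
(.lf (nat_lit 188875) (.g (nat_lit 2635) (.e (nat_lit 65568) (nat_lit 2) (.e (nat_lit 90170) (nat_lit 13) (.e (nat_lit 172106) (nat_lit 10) (.e (nat_lit 434231) (nat_lit 23) (.e (nat_lit 532516) (nat_lit 4) (.e (nat_lit 123116) (nat_lit 221) (.e (nat_lit 1199) (nat_lit 88) .nil))))))) (.g (nat_lit 4) .nil .nil))) 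
(.lf (nat_lit 188907) (.g (nat_lit 2227) (.e (nat_lit 65568) (nat_lit 2) (.e (nat_lit 90170) (nat_lit 13) (.e (nat_lit 172106) (nat_lit 10) (.e (nat_lit 434244) (nat_lit 28) (.e (nat_lit 573468) (nat_lit 10) (.e (nat_lit 8192) (nat_lit 0) (.e (nat_lit 4444) (nat_lit 263) (.e (nat_lit 1195) (nat_lit 88) .nil)))))))) (.g (nat_lit 4) .nil .nil)))) (.nd (nat_lit 5) 
(.lf (nat_lit 188891) (.g (nat_lit 2541) (.e (nat_lit 65568) (nat_lit 2) (.e (nat_lit 90170) (nat_lit 13) (.e (nat_lit 172106) (nat_lit 10) (.e (nat_lit 434231) (nat_lit 23) (.e (nat_lit 540416) (nat_lit 18) (.e (nat_lit 164152) (nat_lit 152) (.e (nat_lit 1195) (nat_lit 88) .nil))))))) (.g (nat_lit 4) .nil .nil))) 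
(.lf (nat_lit 188923) (.g (nat_lit 2625) (.e (nat_lit 65568) (nat_lit 2) (.e (nat_lit 90170) (nat_lit 13) (.e (nat_lit 172106) (nat_lit 10) (.e (nat_lit 434244) (nat_lit 28) (.e (nat_lit 573468) (nat_lit 10) (.e (nat_lit 8194) (nat_lit 0) (.e (nat_lit 4443) (nat_lit 263) (.e (nat_lit 1195) (nat_lit 88) .nil)))))))) (.g (nat_lit 5) .nil .nil)))))) (.nd (nat_lit 3) (.nd (nat_lit 4) (.nd (nat_lit 5) 
(.lf (nat_lit 188871) (.g (nat_lit 3457) (.e (nat_lit 65568) (nat_lit 2) (.e (nat_lit 90170) (nat_lit 13) (.e (nat_lit 172106) (nat_lit 10) (.e (nat_lit 434231) (nat_lit 23) (.e (nat_lit 532500) (nat_lit 1) (.e (nat_lit 65280) (nat_lit 221) (.e (nat_lit 1198) (nat_lit 88) .nil))))))) (.g (nat_lit 4) .nil .nil))) 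
(.lf (nat_lit 188903) (.g (nat_lit 2607) (.e (nat_lit 65568) (nat_lit 2) (.e (nat_lit 90170) (nat_lit 13) (.e (nat_lit 172106) (nat_lit 10) (.e (nat_lit 434244) (nat_lit 28) (.e (nat_lit 573467) (nat_lit 10) .nil))))) .nil))) (.nd (nat_lit 5) 
(.lf (nat_lit 188887) (.g (nat_lit 2401) (.e (nat_lit 65568) (nat_lit 2) (.e (nat_lit 90170) (nat_lit 13) (.e (nat_lit 172106) (nat_lit 10) (.e (nat_lit 434231) (nat_lit 23) (.e (nat_lit 540416) (nat_lit 17) (.e (nat_lit 3454) (nat_lit 216) (.e (nat_lit 688174) (nat_lit 16) .nil))))))) (.g (nat_lit 4) .nil .nil))) 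
(.lf (nat_lit 188919) (.g (nat_lit 2679) (.e (nat_lit 65568) (nat_lit 2) (.e (nat_lit 90170) (nat_lit 13) (.e (nat_lit 172106) (nat_lit 10) (.e (nat_lit 434244) (nat_lit 28) (.e (nat_lit 573468) (nat_lit 10) (.e (nat_lit 8193) (nat_lit 0) (.e (nat_lit 4448) (nat_lit 263) (.e (nat_lit 1200) (nat_lit 88) .nil)))))))) (.g (nat_lit 5) .nil .nil))))) (.nd (nat_lit 4) (.nd (nat_lit 5) 
(.lf (nat_lit 188879) (.g (nat_lit 3000) (.e (nat_lit 65568) (nat_lit 2) (.e (nat_lit 90170) (nat_lit 13) (.e (nat_lit 172106) (nat_lit 10) (.e (nat_lit 434231) (nat_lit 23) (.e (nat_lit 532517) (nat_lit 4) (.e (nat_lit 123116) (nat_lit 221) (.e (nat_lit 1190) (nat_lit 88) .nil))))))) (.g (nat_lit 4) .nil .nil))) 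
(.lf (nat_lit 188911) (.g (nat_lit 2610) (.e (nat_lit 65568) (nat_lit 2) (.e (nat_lit 90170) (nat_lit 13) (.e (nat_lit 172106) (nat_lit 10) (.e (nat_lit 434244) (nat_lit 28) (.e (nat_lit 573468) (nat_lit 10) (.e (nat_lit 8192) (nat_lit 0) (.e (nat_lit 4448) (nat_lit 263) (.e (nat_lit 1199) (nat_lit 88) .nil)))))))) (.g (nat_lit 5) .nil .nil)))) (.nd (nat_lit 5) 
(.lf (nat_lit 188895) (.g (nat_lit 2481) (.e (nat_lit 65568) (nat_lit 2) (.e (nat_lit 90170) (nat_lit 13) (.e (nat_lit 172106) (nat_lit 10) (.e (nat_lit 434231) (nat_lit 23) (.e (nat_lit 540416) (nat_lit 18) (.e (nat_lit 164170) (nat_lit 152) (.e (nat_lit 1196) (nat_lit 88) .nil))))))) (.g (nat_lit 4) .nil .nil))) 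
(.lf (nat_lit 188927) (.g (nat_lit 2563) (.e (nat_lit 65568) (nat_lit 2) (.e (nat_lit 90170) (nat_lit 13) (.e (nat_lit 172106) (nat_lit 10) (.e (nat_lit 434244) (nat_lit 28) (.e (nat_lit 573468) (nat_lit 10) (.e (nat_lit 8194) (nat_lit 0) (.e (nat_lit 4450) (nat_lit 263) (.e (nat_lit 1196) (nat_lit 88) .nil)))))))) (.g (nat_lit 5) .nil .nil)))))))))

noncomputable def tv2504 : DT := (.nd (nat_lit 0) (.nd (nat_lit 1) (.nd (nat_lit 2) (.nd (nat_lit 3) (.nd (nat_lit 4) (.nd (nat_lit 5) 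
(.lf (nat_lit 188928) (.g (nat_lit 2611) (.e (nat_lit 65568) (nat_lit 2) (.e (nat_lit 90170) (nat_lit 13) (.e (nat_lit 172106) (nat_lit 10) (.e (nat_lit 434244) (nat_lit 28) (.e (nat_lit 573468) (nat_lit 10) (.e (nat_lit 8194) (nat_lit 0) (.e (nat_lit 4450) (nat_lit 263) (.e (nat_lit 1198) (nat_lit 88) .nil)))))))) (.g (nat_lit 5) .nil .nil))) 
(.lf (nat_lit 188960) (.g (nat_lit 2559) (.e (nat_lit 65568) (nat_lit 2) (.e (nat_lit 90170) (nat_lit 13) (.e (nat_lit 172106) (nat_lit 10) (.e (nat_lit 434244) (nat_lit 28) (.e (nat_lit 573495) (nat_lit 16) .nil))))) .nil))) (.nd (nat_lit 5) 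
(.lf (nat_lit 188944) (.g (nat_lit 2785) (.e (nat_lit 65568) (nat_lit 2) (.e (nat_lit 90170) (nat_lit 13) (.e (nat_lit 172106) (nat_lit 10) (.e (nat_lit 434244) (nat_lit 28) (.e (nat_lit 573474) (nat_lit 12) (.e (nat_lit 57347) (nat_lit 0) (.e (nat_lit 7125) (nat_lit 382) (.e (nat_lit 1191) (nat_lit 88) .nil)))))))) (.g (nat_lit 4) .nil .nil))) 
(.lf (nat_lit 188976) (.g (nat_lit 4444) (.e (nat_lit 65568) (nat_lit 2) (.e (nat_lit 90170) (nat_lit 13) (.e (nat_lit 172113) (nat_lit 10) (.e (nat_lit 434245) (nat_lit 28) (.e (nat_lit 573474) (nat_lit 12) (.e (nat_lit 57347) (nat_lit 0) (.e (nat_lit 7122) (nat_lit 382) (.e (nat_lit 1201) (nat_lit 88) .nil)))))))) (.g (nat_lit 6) .nil .nil))))) (.nd (nat_lit 4) (.nd (nat_lit 5) 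
(.lf (nat_lit 188936) (.g (nat_lit 5600) (.e (nat_lit 65568) (nat_lit 2) (.e (nat_lit 90170) (nat_lit 13) (.e (nat_lit 172106) (nat_lit 10) (.e (nat_lit 434244) (nat_lit 28) (.e (nat_lit 573473) (nat_lit 12) (.e (nat_lit 57572) (nat_lit 54) (.e (nat_lit 770072) (nat_lit 8) .nil))))))) (.g (nat_lit 0) .nil .nil))) 
(.lf (nat_lit 188968) (.g (nat_lit 3282) (.e (nat_lit 65568) (nat_lit 2) (.e (nat_lit 90170) (nat_lit 13) (.e (nat_lit 172113) (nat_lit 10) (.e (nat_lit 434242) (nat_lit 28) (.e (nat_lit 573474) (nat_lit 12) (.e (nat_lit 57351) (nat_lit 0) (.e (nat_lit 7125) (nat_lit 382) (.e (nat_lit 1201) (nat_lit 88) .nil)))))))) (.g (nat_lit 5) .nil .nil)))) (.nd (nat_lit 5) 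
(.lf (nat_lit 188952) (.g (nat_lit 4565) (.e (nat_lit 65568) (nat_lit 2) (.e (nat_lit 90170) (nat_lit 13) (.e (nat_lit 172106) (nat_lit 10) (.e (nat_lit 434244) (nat_lit 28) (.e (nat_lit 573474) (nat_lit 12) (.e (nat_lit 57354) (nat_lit 0) (.e (nat_lit 7147) (nat_lit 382) (.e (nat_lit 1203) (nat_lit 88) .nil)))))))) (.g (nat_lit 6) .nil .nil))) 
(.lf (nat_lit 188984) (.g (nat_lit 3635) (.e (nat_lit 65568) (nat_lit 2) (.e (nat_lit 90170) (nat_lit 13) (.e (nat_lit 172113) (nat_lit 10) (.e (nat_lit 434245) (nat_lit 28) (.e (nat_lit 573474) (nat_lit 12) (.e (nat_lit 57354) (nat_lit 0) (.e (nat_lit 7147) (nat_lit 382) (.e (nat_lit 1203) (nat_lit 88) .nil)))))))) (.g (nat_lit 5) .nil .nil)))))) 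
(.nd (nat_lit 3) (.nd (nat_lit 4) (.nd (nat_lit 5) 
(.lf (nat_lit 188932) (.g (nat_lit 2840) (.e (nat_lit 65568) (nat_lit 2) (.e (nat_lit 90170) (nat_lit 13) (.e (nat_lit 172106) (nat_lit 10) (.e (nat_lit 434244) (nat_lit 28) (.e (nat_lit 573473) (nat_lit 12) (.e (nat_lit 57352) (nat_lit 0) (.e (nat_lit 7124) (nat_lit 382) (.e (nat_lit 1201) (nat_lit 88) .nil)))))))) (.g (nat_lit 4) .nil .nil))) 
(.lf (nat_lit 188964) (.g (nat_lit 3665) (.e (nat_lit 65568) (nat_lit 2) (.e (nat_lit 90170) (nat_lit 13) (.e (nat_lit 172113) (nat_lit 10) (.e (nat_lit 434242) (nat_lit 28) (.e (nat_lit 573474) (nat_lit 12) (.e (nat_lit 57347) (nat_lit 0) (.e (nat_lit 7236) (nat_lit 382) (.e (nat_lit 1199) (nat_lit 88) .nil)))))))) (.g (nat_lit 5) .nil .nil)))) (.nd (nat_lit 5) 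
(.lf (nat_lit 188948) (.g (nat_lit 5445) (.e (nat_lit 65568) (nat_lit 2) (.e (nat_lit 90170) (nat_lit 13) (.e (nat_lit 172106) (nat_lit 10) (.e (nat_lit 434244) (nat_lit 28) (.e (nat_lit 573474) (nat_lit 12) (.e (nat_lit 57348) (nat_lit 0) (.e (nat_lit 7125) (nat_lit 382) (.e (nat_lit 1201) (nat_lit 88) .nil)))))))) (.g (nat_lit 8) .nil .nil))) 
(.lf (nat_lit 188980) (.g (nat_lit 5498) (.e (nat_lit 65568) (nat_lit 2) (.e (nat_lit 90170) (nat_lit 13) (.e (nat_lit 172113) (nat_lit 10) (.e (nat_lit 434245) (nat_lit 28) (.e (nat_lit 573474) (nat_lit 12) (.e (nat_lit 57348) (nat_lit 0) (.e (nat_lit 7125) (nat_lit 382) (.e (nat_lit 1201) (nat_lit 88) .nil)))))))) (.g (nat_lit 8) .nil .nil))))) (.nd (nat_lit 4) (.nd (nat_lit 5) 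
(.lf (nat_lit 188940) (.g (nat_lit 2494) (.e (nat_lit 65568) (nat_lit 2) (.e (nat_lit 90170) (nat_lit 13) (.e (nat_lit 172106) (nat_lit 10) (.e (nat_lit 434244) (nat_lit 28) (.e (nat_lit 573474) (nat_lit 12) (.e (nat_lit 57345) (nat_lit 0) (.e (nat_lit 7236) (nat_lit 382) (.e (nat_lit 1199) (nat_lit 88) .nil)))))))) (.g (nat_lit 4) .nil .nil))) 
(.lf (nat_lit 188972) (.g (nat_lit 1255) (.e (nat_lit 65568) (nat_lit 2) (.e (nat_lit 90170) (nat_lit 13) (.e (nat_lit 172113) (nat_lit 10) (.e (nat_lit 434245) (nat_lit 28) .nil)))) .nil))) (.nd (nat_lit 5) 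
(.lf (nat_lit 188956) (.g (nat_lit 2365) (.e (nat_lit 65568) (nat_lit 2) (.e (nat_lit 90170) (nat_lit 13) (.e (nat_lit 172106) (nat_lit 10) (.e (nat_lit 434244) (nat_lit 28) (.e (nat_lit 573474) (nat_lit 12) (.e (nat_lit 57568) (nat_lit 53) (.e (nat_lit 769792) (nat_lit 8) .nil))))))) (.g (nat_lit 4) .nil .nil))) 
(.lf (nat_lit 188988) (.g (nat_lit 2774) (.e (nat_lit 65568) (nat_lit 2) (.e (nat_lit 90170) (nat_lit 13) (.e (nat_lit 172113) (nat_lit 10) (.e (nat_lit 434245) (nat_lit 28) (.e (nat_lit 573474) (nat_lit 12) (.e (nat_lit 57572) (nat_lit 54) (.e (nat_lit 770070) (nat_lit 8) .nil))))))) (.g (nat_lit 4) .nil .nil))))))) (.nd (nat_lit 2) (.nd (nat_lit 3) (.nd (nat_lit 4) (.nd (nat_lit 5) 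
(.lf (nat_lit 188930) (.g (nat_lit 2550) (.e (nat_lit 65568) (nat_lit 2) (.e (nat_lit 90170) (nat_lit 13) (.e (nat_lit 172106) (nat_lit 10) (.e (nat_lit 434244) (nat_lit 28) (.e (nat_lit 573473) (nat_lit 12) .nil))))) .nil)) 
(.lf (nat_lit 188962) (.g (nat_lit 442) (.e (nat_lit 65568) (nat_lit 2) (.e (nat_lit 90170) (nat_lit 13) (.e (nat_lit 172113) (nat_lit 10) .nil))) .nil))) (.nd (nat_lit 5) 
(.lf (nat_lit 188946) (.g (nat_lit 3337) (.e (nat_lit 65568) (nat_lit 2) (.e (nat_lit 90170) (nat_lit 13) (.e (nat_lit 172106) (nat_lit 10) (.e (nat_lit 434244) (nat_lit 28) (.e (nat_lit 573474) (nat_lit 12) (.e (nat_lit 57347) (nat_lit 0) (.e (nat_lit 7236) (nat_lit 382) (.e (nat_lit 1199) (nat_lit 88) .nil)))))))) (.g (nat_lit 5) .nil .nil))) 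
(.lf (nat_lit 188978) (.g (nat_lit 4079) (.e (nat_lit 65568) (nat_lit 2) (.e (nat_lit 90170) (nat_lit 13) (.e (nat_lit 172113) (nat_lit 10) (.e (nat_lit 434245) (nat_lit 28) (.e (nat_lit 573474) (nat_lit 12) (.e (nat_lit 57347) (nat_lit 0) (.e (nat_lit 7236) (nat_lit 382) (.e (nat_lit 1199) (nat_lit 88) .nil)))))))) (.g (nat_lit 5) .nil .nil))))) (.nd (nat_lit 4) (.nd (nat_lit 5) 
(.lf (nat_lit 188938) (.g (nat_lit 3417) (.e (nat_lit 65568) (nat_lit 2) (.e (nat_lit 90170) (nat_lit 13) (.e (nat_lit 172106) (nat_lit 10) (.e (nat_lit 434244) (nat_lit 28) (.e (nat_lit 573474) (nat_lit 12) (.e (nat_lit 57344) (nat_lit 0) (.e (nat_lit 7124) (nat_lit 382) (.e (nat_lit 1201) (nat_lit 88) .nil)))))))) (.g (nat_lit 5) .nil .nil))) 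
(.lf (nat_lit 188970) (.g (nat_lit 3819) (.e (nat_lit 65568) (nat_lit 2) (.e (nat_lit 90170) (nat_lit 13) (.e (nat_lit 172113) (nat_lit 10) (.e (nat_lit 434242) (nat_lit 28) (.e (nat_lit 573474) (nat_lit 12) (.e (nat_lit 57570) (nat_lit 54) (.e (nat_lit 770072) (nat_lit 8) .nil))))))) (.g (nat_lit 5) .nil .nil)))) (.nd (nat_lit 5) 
(.lf (nat_lit 188954) (.g (nat_lit 2036) (.e (nat_lit 65568) (nat_lit 2) (.e (nat_lit 90170) (nat_lit 13) (.e (nat_lit 172106) (nat_lit 10) (.e (nat_lit 434244) (nat_lit 28) (.e (nat_lit 573474) (nat_lit 12) (.e (nat_lit 65280) (nat_lit 0) (.e (nat_lit 7124) (nat_lit 382) (.e (nat_lit 1201) (nat_lit 88) .nil)))))))) (.g (nat_lit 4) .nil .nil))) 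
(.lf (nat_lit 188986) (.g (nat_lit 2716) (.e (nat_lit 65568) (nat_lit 2) (.e (nat_lit 90170) (nat_lit 13) (.e (nat_lit 172113) (nat_lit 10) (.e (nat_lit 434245) (nat_lit 28) (.e (nat_lit 573474) (nat_lit 12) (.e (nat_lit 57571) (nat_lit 54) (.e (nat_lit 770070) (nat_lit 8) .nil))))))) (.g (nat_lit 4) .nil .nil)))))) (.nd (nat_lit 3) (.nd (nat_lit 4) (.nd (nat_lit 5) 
(.lf (nat_lit 188934) (.g (nat_lit 2553) (.e (nat_lit 65568) (nat_lit 2) (.e (nat_lit 90170) (nat_lit 13) (.e (nat_lit 172106) (nat_lit 10) (.e (nat_lit 434244) (nat_lit 28) (.e (nat_lit 573473) (nat_lit 12) (.e (nat_lit 57354) (nat_lit 0) (.e (nat_lit 7147) (nat_lit 382) (.e (nat_lit 1203) (nat_lit 88) .nil)))))))) (.g (nat_lit 4) .nil .nil))) 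
(.lf (nat_lit 188966) (.g (nat_lit 3202) (.e (nat_lit 65568) (nat_lit 2) (.e (nat_lit 90170) (nat_lit 13) (.e (nat_lit 172113) (nat_lit 10) (.e (nat_lit 434242) (nat_lit 28) (.e (nat_lit 573474) (nat_lit 12) (.e (nat_lit 57351) (nat_lit 0) (.e (nat_lit 7122) (nat_lit 382) (.e (nat_lit 1201) (nat_lit 88) .nil)))))))) (.g (nat_lit 5) .nil .nil)))) (.nd (nat_lit 5) 
(.lf (nat_lit 188950) (.g (nat_lit 4474) (.e (nat_lit 65568) (nat_lit 2) (.e (nat_lit 90170) (nat_lit 13) (.e (nat_lit 172106) (nat_lit 10) (.e (nat_lit 434244) (nat_lit 28) (.e (nat_lit 573474) (nat_lit 12) (.e (nat_lit 57352) (nat_lit 0) (.e (nat_lit 7122) (nat_lit 382) (.e (nat_lit 1201) (nat_lit 88) .nil)))))))) (.g (nat_lit 5) .nil .nil))) 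
(.lf (nat_lit 188982) (.g (nat_lit 3953) (.e (nat_lit 65568) (nat_lit 2) (.e (nat_lit 90170) (nat_lit 13) (.e (nat_lit 172113) (nat_lit 10) (.e (nat_lit 434245) (nat_lit 28) (.e (nat_lit 573474) (nat_lit 12) (.e (nat_lit 57352) (nat_lit 0) (.e (nat_lit 7122) (nat_lit 382) (.e (nat_lit 1201) (nat_lit 88) .nil)))))))) (.g (nat_lit 5) .nil .nil))))) (.nd (nat_lit 4) (.nd (nat_lit 5) 
(.lf (nat_lit 188942) (.g (nat_lit 2669) (.e (nat_lit 65568) (nat_lit 2) (.e (nat_lit 90170) (nat_lit 13) (.e (nat_lit 172106) (nat_lit 10) (.e (nat_lit 434244) (nat_lit 28) (.e (nat_lit 573474) (nat_lit 12) (.e (nat_lit 57346) (nat_lit 0) (.e (nat_lit 7233) (nat_lit 382) (.e (nat_lit 1200) (nat_lit 88) .nil)))))))) (.g (nat_lit 4) .nil .nil))) 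
(.lf (nat_lit 188974) (.g (nat_lit 2762) (.e (nat_lit 65568) (nat_lit 2) (.e (nat_lit 90170) (nat_lit 13) (.e (nat_lit 172113) (nat_lit 10) (.e (nat_lit 434245) (nat_lit 28) (.e (nat_lit 573473) (nat_lit 12) (.e (nat_lit 57347) (nat_lit 0) (.e (nat_lit 7122) (nat_lit 382) (.e (nat_lit 1201) (nat_lit 88) .nil)))))))) (.g (nat_lit 4) .nil .nil)))) (.nd (nat_lit 5) 
(.lf (nat_lit 188958) (.g (nat_lit 2644) (.e (nat_lit 65568) (nat_lit 2) (.e (nat_lit 90170) (nat_lit 13) (.e (nat_lit 172106) (nat_lit 10) (.e (nat_lit 434244) (nat_lit 28) (.e (nat_lit 573474) (nat_lit 12) (.e (nat_lit 57572) (nat_lit 54) (.e (nat_lit 770070) (nat_lit 8) .nil))))))) (.g (nat_lit 4) .nil .nil))) 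
(.lf (nat_lit 188990) (.g (nat_lit 3620) (.e (nat_lit 65568) (nat_lit 2) (.e (nat_lit 90170) (nat_lit 13) (.e (nat_lit 172113) (nat_lit 10) (.e (nat_lit 434247) (nat_lit 28) (.e (nat_lit 573477) (nat_lit 12) (.e (nat_lit 57351) (nat_lit 0) (.e (nat_lit 7122) (nat_lit 382) (.e (nat_lit 1201) (nat_lit 88) .nil)))))))) (.g (nat_lit 5) .nil .nil)))))))) 
(.nd (nat_lit 1) (.nd (nat_lit 2) (.nd (nat_lit 3) (.nd (nat_lit 4) (.nd (nat_lit 5) 
(.lf (nat_lit 188929) (.g (nat_lit 3100) (.e (nat_lit 65568) (nat_lit 2) (.e (nat_lit 90170) (nat_lit 13) (.e (nat_lit 172106) (nat_lit 10) (.e (nat_lit 434244) (nat_lit 28) (.e (nat_lit 573468) (nat_lit 10) (.e (nat_lit 8195) (nat_lit 0) (.e (nat_lit 4490) (nat_lit 263) (.e (nat_lit 1190) (nat_lit 88) .nil)))))))) (.g (nat_lit 5) .nil .nil))) 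
(.lf (nat_lit 188961) (.g (nat_lit 2071) (.e (nat_lit 65568) (nat_lit 2) (.e (nat_lit 90170) (nat_lit 13) (.e (nat_lit 172106) (nat_lit 10) (.e (nat_lit 434246) (nat_lit 28) .nil)))) .nil))) (.nd (nat_lit 5) 
(.lf (nat_lit 188945) (.g (nat_lit 2348) (.e (nat_lit 65568) (nat_lit 2) (.e (nat_lit 90170) (nat_lit 13) (.e (nat_lit 172106) (nat_lit 10) (.e (nat_lit 434244) (nat_lit 28) (.e (nat_lit 573474) (nat_lit 12) (.e (nat_lit 57347) (nat_lit 0) (.e (nat_lit 7125) (nat_lit 382) (.e (nat_lit 1192) (nat_lit 88) .nil)))))))) (.g (nat_lit 4) .nil .nil))) 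
(.lf (nat_lit 188977) (.g (nat_lit 3069) (.e (nat_lit 65568) (nat_lit 2) (.e (nat_lit 90170) (nat_lit 13) (.e (nat_lit 172113) (nat_lit 10) (.e (nat_lit 434245) (nat_lit 28) (.e (nat_lit 573474) (nat_lit 12) (.e (nat_lit 57347) (nat_lit 0) (.e (nat_lit 7125) (nat_lit 382) (.e (nat_lit 1191) (nat_lit 88) .nil)))))))) (.g (nat_lit 4) .nil .nil))))) (.nd (nat_lit 4) (.nd (nat_lit 5) 
(.lf (nat_lit 188937) (.g (nat_lit 2032) (.e (nat_lit 65568) (nat_lit 2) (.e (nat_lit 90170) (nat_lit 13) (.e (nat_lit 172106) (nat_lit 10) (.e (nat_lit 434244) (nat_lit 28) (.e (nat_lit 573474) (nat_lit 12) .nil))))) .nil)) 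
(.lf (nat_lit 188969) (.g (nat_lit 3550) (.e (nat_lit 65568) (nat_lit 2) (.e (nat_lit 90170) (nat_lit 13) (.e (nat_lit 172113) (nat_lit 10) (.e (nat_lit 434242) (nat_lit 28) (.e (nat_lit 573474) (nat_lit 12) (.e (nat_lit 57570) (nat_lit 54) (.e (nat_lit 770071) (nat_lit 8) .nil))))))) (.g (nat_lit 5) .nil .nil)))) (.nd (nat_lit 5) 
(.lf (nat_lit 188953) (.g (nat_lit 3274) (.e (nat_lit 65568) (nat_lit 2) (.e (nat_lit 90170) (nat_lit 13) (.e (nat_lit 172106) (nat_lit 10) (.e (nat_lit 434244) (nat_lit 28) (.e (nat_lit 573474) (nat_lit 12) (.e (nat_lit 57356) (nat_lit 0) (.e (nat_lit 7147) (nat_lit 382) (.e (nat_lit 1203) (nat_lit 88) .nil)))))))) (.g (nat_lit 5) .nil .nil))) 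
(.lf (nat_lit 188985) (.g (nat_lit 2572) (.e (nat_lit 65568) (nat_lit 2) (.e (nat_lit 90170) (nat_lit 13) (.e (nat_lit 172113) (nat_lit 10) (.e (nat_lit 434245) (nat_lit 28) (.e (nat_lit 573474) (nat_lit 12) (.e (nat_lit 57570) (nat_lit 54) (.e (nat_lit 770070) (nat_lit 8) .nil))))))) (.g (nat_lit 4) .nil .nil)))))) (.nd (nat_lit 3) (.nd (nat_lit 4) (.nd (nat_lit 5) 
(.lf (nat_lit 188933) (.g (nat_lit 4049) (.e (nat_lit 65568) (nat_lit 2) (.e (nat_lit 90170) (nat_lit 13) (.e (nat_lit 172106) (nat_lit 10) (.e (nat_lit 434244) (nat_lit 28) (.e (nat_lit 573473) (nat_lit 12) (.e (nat_lit 57352) (nat_lit 0) (.e (nat_lit 7125) (nat_lit 382) (.e (nat_lit 1201) (nat_lit 88) .nil)))))))) (.g (nat_lit 5) .nil .nil))) 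
(.lf (nat_lit 188965) (.g (nat_lit 4143) (.e (nat_lit 65568) (nat_lit 2) (.e (nat_lit 90170) (nat_lit 13) (.e (nat_lit 172113) (nat_lit 10) (.e (nat_lit 434242) (nat_lit 28) (.e (nat_lit 573474) (nat_lit 12) (.e (nat_lit 57348) (nat_lit 0) (.e (nat_lit 7236) (nat_lit 382) (.e (nat_lit 1199) (nat_lit 88) .nil)))))))) (.g (nat_lit 5) .nil .nil)))) (.nd (nat_lit 5) 
(.lf (nat_lit 188949) (.g (nat_lit 2239) (.e (nat_lit 65568) (nat_lit 2) (.e (nat_lit 90170) (nat_lit 13) (.e (nat_lit 172106) (nat_lit 10) (.e (nat_lit 434244) (nat_lit 28) (.e (nat_lit 573474) (nat_lit 12) (.e (nat_lit 57351) (nat_lit 0) (.e (nat_lit 7122) (nat_lit 382) (.e (nat_lit 1191) (nat_lit 88) .nil)))))))) (.g (nat_lit 4) .nil .nil))) 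
(.lf (nat_lit 188981) (.g (nat_lit 4346) (.e (nat_lit 65568) (nat_lit 2) (.e (nat_lit 90170) (nat_lit 13) (.e (nat_lit 172113) (nat_lit 10) (.e (nat_lit 434245) (nat_lit 28) (.e (nat_lit 573474) (nat_lit 12) (.e (nat_lit 57348) (nat_lit 0) (.e (nat_lit 7236) (nat_lit 382) (.e (nat_lit 1199) (nat_lit 88) .nil)))))))) (.g (nat_lit 5) .nil .nil))))) (.nd (nat_lit 4) (.nd (nat_lit 5) 
(.lf (nat_lit 188941) (.g (nat_lit 2356) (.e (nat_lit 65568) (nat_lit 2) (.e (nat_lit 90170) (nat_lit 13) (.e (nat_lit 172106) (nat_lit 10) (.e (nat_lit 434244) (nat_lit 28) (.e (nat_lit 573474) (nat_lit 12) (.e (nat_lit 57346) (nat_lit 0) (.e (nat_lit 7136) (nat_lit 382) (.e (nat_lit 1198) (nat_lit 88) .nil)))))))) (.g (nat_lit 4) .nil .nil))) 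
(.lf (nat_lit 188973) (.g (nat_lit 1960) (.e (nat_lit 65568) (nat_lit 2) (.e (nat_lit 90170) (nat_lit 13) (.e (nat_lit 172113) (nat_lit 10) (.e (nat_lit 434245) (nat_lit 28) (.e (nat_lit 573473) (nat_lit 12) .nil))))) .nil))) (.nd (nat_lit 5) 
(.lf (nat_lit 188957) (.g (nat_lit 2810) (.e (nat_lit 65568) (nat_lit 2) (.e (nat_lit 90170) (nat_lit 13) (.e (nat_lit 172106) (nat_lit 10) (.e (nat_lit 434244) (nat_lit 28) (.e (nat_lit 573474) (nat_lit 12) (.e (nat_lit 57570) (nat_lit 54) (.e (nat_lit 770070) (nat_lit 8) .nil))))))) (.g (nat_lit 4) .nil .nil))) 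
(.lf (nat_lit 188989) (.g (nat_lit 3090) (.e (nat_lit 65568) (nat_lit 2) (.e (nat_lit 90170) (nat_lit 13) (.e (nat_lit 172113) (nat_lit 10) (.e (nat_lit 434247) (nat_lit 28) (.e (nat_lit 573475) (nat_lit 12) (.e (nat_lit 57347) (nat_lit 0) (.e (nat_lit 7125) (nat_lit 382) (.e (nat_lit 1201) (nat_lit 88) .nil)))))))) (.g (nat_lit 4) .nil .nil))))))) 
(.nd (nat_lit 2) (.nd (nat_lit 3) (.nd (nat_lit 4) (.nd (nat_lit 5) 
(.lf (nat_lit 188931) (.g (nat_lit 2592) (.e (nat_lit 65568) (nat_lit 2) (.e (nat_lit 90170) (nat_lit 13) (.e (nat_lit 172106) (nat_lit 10) (.e (nat_lit 434244) (nat_lit 28) (.e (nat_lit 573473) (nat_lit 12) (.e (nat_lit 57351) (nat_lit 0) (.e (nat_lit 7125) (nat_lit 382) (.e (nat_lit 1201) (nat_lit 88) .nil)))))))) (.g (nat_lit 4) .nil .nil))) 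
(.lf (nat_lit 188963) (.g (nat_lit 1083) (.e (nat_lit 65568) (nat_lit 2) (.e (nat_lit 90170) (nat_lit 13) (.e (nat_lit 172113) (nat_lit 10) (.e (nat_lit 434242) (nat_lit 28) .nil)))) .nil))) (.nd (nat_lit 5) 
(.lf (nat_lit 188947) (.g (nat_lit 4340) (.e (nat_lit 65568) (nat_lit 2) (.e (nat_lit 90170) (nat_lit 13) (.e (nat_lit 172106) (nat_lit 10) (.e (nat_lit 434244) (nat_lit 28) (.e (nat_lit 573474) (nat_lit 12) (.e (nat_lit 57348) (nat_lit 0) (.e (nat_lit 7122) (nat_lit 382) (.e (nat_lit 1201) (nat_lit 88) .nil)))))))) (.g (nat_lit 6) .nil .nil))) 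
(.lf (nat_lit 188979) (.g (nat_lit 4393) (.e (nat_lit 65568) (nat_lit 2) (.e (nat_lit 90170) (nat_lit 13) (.e (nat_lit 172113) (nat_lit 10) (.e (nat_lit 434245) (nat_lit 28) (.e (nat_lit 573474) (nat_lit 12) (.e (nat_lit 57348) (nat_lit 0) (.e (nat_lit 7122) (nat_lit 382) (.e (nat_lit 1201) (nat_lit 88) .nil)))))))) (.g (nat_lit 6) .nil .nil))))) (.nd (nat_lit 4) (.nd (nat_lit 5) 
(.lf (nat_lit 188939) (.g (nat_lit 3227) (.e (nat_lit 65568) (nat_lit 2) (.e (nat_lit 90170) (nat_lit 13) (.e (nat_lit 172106) (nat_lit 10) (.e (nat_lit 434244) (nat_lit 28) (.e (nat_lit 573474) (nat_lit 12) (.e (nat_lit 57345) (nat_lit 0) (.e (nat_lit 7122) (nat_lit 382) (.e (nat_lit 1201) (nat_lit 88) .nil)))))))) (.g (nat_lit 5) .nil .nil))) 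
(.lf (nat_lit 188971) (.g (nat_lit 3629) (.e (nat_lit 65568) (nat_lit 2) (.e (nat_lit 90170) (nat_lit 13) (.e (nat_lit 172113) (nat_lit 10) (.e (nat_lit 434242) (nat_lit 28) (.e (nat_lit 573474) (nat_lit 12) (.e (nat_lit 57571) (nat_lit 54) (.e (nat_lit 770072) (nat_lit 8) .nil))))))) (.g (nat_lit 5) .nil .nil)))) (.nd (nat_lit 5) 
(.lf (nat_lit 188955) (.g (nat_lit 2080) (.e (nat_lit 65568) (nat_lit 2) (.e (nat_lit 90170) (nat_lit 13) (.e (nat_lit 172106) (nat_lit 10) (.e (nat_lit 434244) (nat_lit 28) (.e (nat_lit 573474) (nat_lit 12) (.e (nat_lit 65280) (nat_lit 0) (.e (nat_lit 7125) (nat_lit 382) (.e (nat_lit 1201) (nat_lit 88) .nil)))))))) (.g (nat_lit 4) .nil .nil))) 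
(.lf (nat_lit 188987) (.g (nat_lit 3988) (.e (nat_lit 65568) (nat_lit 2) (.e (nat_lit 90170) (nat_lit 13) (.e (nat_lit 172113) (nat_lit 10) (.e (nat_lit 434245) (nat_lit 28) (.e (nat_lit 573474) (nat_lit 12) (.e (nat_lit 57571) (nat_lit 54) (.e (nat_lit 770071) (nat_lit 8) .nil))))))) (.g (nat_lit 5) .nil .nil)))))) (.nd (nat_lit 3) (.nd (nat_lit 4) (.nd (nat_lit 5) 
(.lf (nat_lit 188935) (.g (nat_lit 3497) (.e (nat_lit 65568) (nat_lit 2) (.e (nat_lit 90170) (nat_lit 13) (.e (nat_lit 172106) (nat_lit 10) (.e (nat_lit 434244) (nat_lit 28) (.e (nat_lit 573473) (nat_lit 12) (.e (nat_lit 57571) (nat_lit 54) (.e (nat_lit 770071) (nat_lit 8) .nil))))))) (.g (nat_lit 5) .nil .nil))) 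
(.lf (nat_lit 188967) (.g (nat_lit 3029) (.e (nat_lit 65568) (nat_lit 2) (.e (nat_lit 90170) (nat_lit 13) (.e (nat_lit 172113) (nat_lit 10) (.e (nat_lit 434242) (nat_lit 28) (.e (nat_lit 573474) (nat_lit 12) (.e (nat_lit 57351) (nat_lit 0) (.e (nat_lit 7124) (nat_lit 382) (.e (nat_lit 1201) (nat_lit 88) .nil)))))))) (.g (nat_lit 5) .nil .nil)))) (.nd (nat_lit 5) 
(.lf (nat_lit 188951) (.g (nat_lit 3656) (.e (nat_lit 65568) (nat_lit 2) (.e (nat_lit 90170) (nat_lit 13) (.e (nat_lit 172106) (nat_lit 10) (.e (nat_lit 434244) (nat_lit 28) (.e (nat_lit 573474) (nat_lit 12) (.e (nat_lit 57353) (nat_lit 0) (.e (nat_lit 7122) (nat_lit 382) (.e (nat_lit 1201) (nat_lit 88) .nil)))))))) (.g (nat_lit 5) .nil .nil))) 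
(.lf (nat_lit 188983) (.g (nat_lit 3902) (.e (nat_lit 65568) (nat_lit 2) (.e (nat_lit 90170) (nat_lit 13) (.e (nat_lit 172113) (nat_lit 10) (.e (nat_lit 434245) (nat_lit 28) (.e (nat_lit 573474) (nat_lit 12) (.e (nat_lit 57353) (nat_lit 0) (.e (nat_lit 7124) (nat_lit 382) (.e (nat_lit 1201) (nat_lit 88) .nil)))))))) (.g (nat_lit 5) .nil .nil))))) (.nd (nat_lit 4) (.nd (nat_lit 5) 
(.lf (nat_lit 188943) (.g (nat_lit 4953) (.e (nat_lit 65568) (nat_lit 2) (.e (nat_lit 90170) (nat_lit 13) (.e (nat_lit 172106) (nat_lit 10) (.e (nat_lit 434244) (nat_lit 28) (.e (nat_lit 573474) (nat_lit 12) (.e (nat_lit 57347) (nat_lit 0) (.e (nat_lit 7122) (nat_lit 382) (.e (nat_lit 1201) (nat_lit 88) .nil)))))))) (.g (nat_lit 6) .nil .nil))) 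
(.lf (nat_lit 188975) (.g (nat_lit 1951) (.e (nat_lit 65568) (nat_lit 2) (.e (nat_lit 90170) (nat_lit 13) (.e (nat_lit 172113) (nat_lit 10) (.e (nat_lit 434245) (nat_lit 28) (.e (nat_lit 573474) (nat_lit 12) .nil))))) .nil))) (.nd (nat_lit 5) 
(.lf (nat_lit 188959) (.g (nat_lit 2915) (.e (nat_lit 65568) (nat_lit 2) (.e (nat_lit 90170) (nat_lit 13) (.e (nat_lit 172106) (nat_lit 10) (.e (nat_lit 434244) (nat_lit 28) (.e (nat_lit 573476) (nat_lit 12) (.e (nat_lit 57353) (nat_lit 0) (.e (nat_lit 7125) (nat_lit 382) (.e (nat_lit 1201) (nat_lit 88) .nil)))))))) (.g (nat_lit 4) .nil .nil))) 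
(.lf (nat_lit 188991) (.g (nat_lit 2413) (.e (nat_lit 65568) (nat_lit 2) (.e (nat_lit 90170) (nat_lit 13) (.e (nat_lit 172113) (nat_lit 10) (.e (nat_lit 434247) (nat_lit 28) (.e (nat_lit 573477) (nat_lit 12) (.e (nat_lit 57570) (nat_lit 54) (.e (nat_lit 770070) (nat_lit 8) .nil))))))) (.g (nat_lit 4) .nil .nil)))))))))

noncomputable def tv2505 : DT := (.nd (nat_lit 0) (.nd (nat_lit 1) (.nd (nat_lit 2) (.nd (nat_lit 3) (.nd (nat_lit 4) (.nd (nat_lit 5) 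
(.lf (nat_lit 188992) (.g (nat_lit 2083) (.e (nat_lit 65568) (nat_lit 2) (.e (nat_lit 90170) (nat_lit 13) (.e (nat_lit 172113) (nat_lit 10) (.e (nat_lit 434247) (nat_lit 28) (.e (nat_lit 573478) (nat_lit 12) .nil))))) .nil)) 
(.lf (nat_lit 189024) (.g (nat_lit 3091) (.e (nat_lit 65569) (nat_lit 3) (.e (nat_lit 98333) (nat_lit 18) (.e (nat_lit 164182) (nat_lit 154) (.e (nat_lit 57378) (nat_lit 3) (.e (nat_lit 98340) (nat_lit 20) (.e (nat_lit 221211) (nat_lit 22) (.e (nat_lit 196666) (nat_lit 13) .nil))))))) (.g (nat_lit 4) .nil .nil)))) (.nd (nat_lit 5) 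
(.lf (nat_lit 189008) (.g (nat_lit 4701) (.e (nat_lit 65568) (nat_lit 2) (.e (nat_lit 90170) (nat_lit 13) (.e (nat_lit 172113) (nat_lit 10) (.e (nat_lit 434248) (nat_lit 28) (.e (nat_lit 573475) (nat_lit 12) (.e (nat_lit 57353) (nat_lit 0) (.e (nat_lit 7125) (nat_lit 382) (.e (nat_lit 1201) (nat_lit 88) .nil)))))))) (.g (nat_lit 8) .nil .nil))) 
(.lf (nat_lit 189040) (.g (nat_lit 3123) (.e (nat_lit 65569) (nat_lit 3) (.e (nat_lit 98349) (nat_lit 24) (.e (nat_lit 409645) (nat_lit 18) (.e (nat_lit 303119) (nat_lit 3) (.e (nat_lit 204821) (nat_lit 17) (.e (nat_lit 7936) (nat_lit 347) .nil)))))) (.g (nat_lit 5) .nil .nil))))) (.nd (nat_lit 4) (.nd (nat_lit 5) 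
(.lf (nat_lit 189000) (.g (nat_lit 3426) (.e (nat_lit 65568) (nat_lit 2) (.e (nat_lit 90170) (nat_lit 13) (.e (nat_lit 172113) (nat_lit 10) (.e (nat_lit 434248) (nat_lit 28) (.e (nat_lit 573475) (nat_lit 12) (.e (nat_lit 57344) (nat_lit 0) (.e (nat_lit 7122) (nat_lit 382) (.e (nat_lit 1201) (nat_lit 88) .nil)))))))) (.g (nat_lit 5) .nil .nil))) 
(.lf (nat_lit 189032) (.g (nat_lit 2083) (.e (nat_lit 65569) (nat_lit 3) (.e (nat_lit 98342) (nat_lit 20) (.e (nat_lit 221214) (nat_lit 23) (.e (nat_lit 204829) (nat_lit 18) (.e (nat_lit 57927) (nat_lit 282) .nil))))) .nil))) (.nd (nat_lit 5) 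
(.lf (nat_lit 189016) (.g (nat_lit 549) (.e (nat_lit 65568) (nat_lit 2) (.e (nat_lit 90170) (nat_lit 13) (.e (nat_lit 172126) (nat_lit 14) .nil))) .nil)) 
(.lf (nat_lit 189048) (.g (nat_lit 3130) (.e (nat_lit 65569) (nat_lit 3) (.e (nat_lit 98350) (nat_lit 24) (.e (nat_lit 409646) (nat_lit 18) (.e (nat_lit 303117) (nat_lit 2) (.e (nat_lit 196661) (nat_lit 12) .nil))))) .nil))))) (.nd (nat_lit 3) (.nd (nat_lit 4) (.nd (nat_lit 5) 
(.lf (nat_lit 188996) (.g (nat_lit 2071) (.e (nat_lit 65568) (nat_lit 2) (.e (nat_lit 90170) (nat_lit 13) (.e (nat_lit 172113) (nat_lit 10) (.e (nat_lit 434248) (nat_lit 28) (.e (nat_lit 573473) (nat_lit 12) .nil))))) .nil)) 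
(.lf (nat_lit 189028) (.g (nat_lit 3838) (.e (nat_lit 65569) (nat_lit 3) (.e (nat_lit 98335) (nat_lit 18) (.e (nat_lit 164183) (nat_lit 154) (.e (nat_lit 57378) (nat_lit 3) (.e (nat_lit 98341) (nat_lit 20) (.e (nat_lit 221211) (nat_lit 22) (.e (nat_lit 196666) (nat_lit 13) .nil))))))) (.g (nat_lit 5) .nil .nil)))) (.nd (nat_lit 5) 
(.lf (nat_lit 189012) (.g (nat_lit 2342) (.e (nat_lit 65568) (nat_lit 2) (.e (nat_lit 90170) (nat_lit 13) (.e (nat_lit 172113) (nat_lit 10) (.e (nat_lit 434248) (nat_lit 28) (.e (nat_lit 573475) (nat_lit 12) (.e (nat_lit 57572) (nat_lit 54) (.e (nat_lit 770070) (nat_lit 8) .nil))))))) (.g (nat_lit 4) .nil .nil))) 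
(.lf (nat_lit 189044) (.g (nat_lit 1886) (.e (nat_lit 65569) (nat_lit 3) (.e (nat_lit 98350) (nat_lit 24) (.e (nat_lit 409616) (nat_lit 10) (.e (nat_lit 5355) (nat_lit 298) .nil)))) .nil)))) (.nd (nat_lit 4) (.nd (nat_lit 5) 
(.lf (nat_lit 189004) (.g (nat_lit 4654) (.e (nat_lit 65568) (nat_lit 2) (.e (nat_lit 90170) (nat_lit 13) (.e (nat_lit 172113) (nat_lit 10) (.e (nat_lit 434248) (nat_lit 28) (.e (nat_lit 573475) (nat_lit 12) (.e (nat_lit 57347) (nat_lit 0) (.e (nat_lit 7122) (nat_lit 382) (.e (nat_lit 1201) (nat_lit 88) .nil)))))))) (.g (nat_lit 6) .nil .nil))) 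
(.lf (nat_lit 189036) (.g (nat_lit 1541) (.e (nat_lit 65569) (nat_lit 3) (.e (nat_lit 98342) (nat_lit 20) (.e (nat_lit 221215) (nat_lit 23) (.e (nat_lit 204829) (nat_lit 18) (.e (nat_lit 57927) (nat_lit 282) .nil))))) .nil))) (.nd (nat_lit 5) 
(.lf (nat_lit 189020) (.g (nat_lit 1848) (.e (nat_lit 65568) (nat_lit 2) (.e (nat_lit 90176) (nat_lit 15) (.e (nat_lit 188450) (nat_lit 23) (.e (nat_lit 212736) (nat_lit 0) .nil)))) .nil)) 
(.lf (nat_lit 189052) (.g (nat_lit 2681) (.e (nat_lit 65569) (nat_lit 3) (.e (nat_lit 98350) (nat_lit 24) (.e (nat_lit 409648) (nat_lit 18) (.e (nat_lit 303119) (nat_lit 3) (.e (nat_lit 204819) (nat_lit 17) .nil))))) .nil)))))) (.nd (nat_lit 2) (.nd (nat_lit 3) (.nd (nat_lit 4) (.nd (nat_lit 5) 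
(.lf (nat_lit 188994) (.g (nat_lit 4471) (.e (nat_lit 65568) (nat_lit 2) (.e (nat_lit 90170) (nat_lit 13) (.e (nat_lit 172113) (nat_lit 10) (.e (nat_lit 434247) (nat_lit 28) (.e (nat_lit 573478) (nat_lit 12) (.e (nat_lit 57353) (nat_lit 0) (.e (nat_lit 7125) (nat_lit 382) (.e (nat_lit 1201) (nat_lit 88) .nil)))))))) (.g (nat_lit 8) .nil .nil))) 
(.lf (nat_lit 189026) (.g (nat_lit 4692) (.e (nat_lit 65569) (nat_lit 3) (.e (nat_lit 98334) (nat_lit 18) (.e (nat_lit 164180) (nat_lit 154) (.e (nat_lit 57379) (nat_lit 3) (.e (nat_lit 98342) (nat_lit 20) (.e (nat_lit 221211) (nat_lit 22) (.e (nat_lit 196666) (nat_lit 13) .nil))))))) (.g (nat_lit 0) .nil .nil)))) (.nd (nat_lit 5) 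
(.lf (nat_lit 189010) (.g (nat_lit 2676) (.e (nat_lit 65568) (nat_lit 2) (.e (nat_lit 90170) (nat_lit 13) (.e (nat_lit 172113) (nat_lit 10) (.e (nat_lit 434248) (nat_lit 28) (.e (nat_lit 573475) (nat_lit 12) (.e (nat_lit 57570) (nat_lit 54) (.e (nat_lit 770070) (nat_lit 8) .nil))))))) (.g (nat_lit 4) .nil .nil))) 
(.lf (nat_lit 189042) (.g (nat_lit 2477) (.e (nat_lit 65569) (nat_lit 3) (.e (nat_lit 98349) (nat_lit 24) (.e (nat_lit 409646) (nat_lit 18) (.e (nat_lit 303119) (nat_lit 3) (.e (nat_lit 204819) (nat_lit 17) (.e (nat_lit 7936) (nat_lit 347) .nil)))))) (.g (nat_lit 4) .nil .nil))))) (.nd (nat_lit 4) (.nd (nat_lit 5) 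
(.lf (nat_lit 189002) (.g (nat_lit 3383) (.e (nat_lit 65568) (nat_lit 2) (.e (nat_lit 90170) (nat_lit 13) (.e (nat_lit 172113) (nat_lit 10) (.e (nat_lit 434248) (nat_lit 28) (.e (nat_lit 573475) (nat_lit 12) (.e (nat_lit 57344) (nat_lit 0) (.e (nat_lit 7236) (nat_lit 382) (.e (nat_lit 1199) (nat_lit 88) .nil)))))))) (.g (nat_lit 4) .nil .nil))) 
(.lf (nat_lit 189034) (.g (nat_lit 2216) (.e (nat_lit 65569) (nat_lit 3) (.e (nat_lit 98342) (nat_lit 20) (.e (nat_lit 221214) (nat_lit 23) (.e (nat_lit 204830) (nat_lit 18) (.e (nat_lit 57927) (nat_lit 282) .nil))))) .nil))) (.nd (nat_lit 5) 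
(.lf (nat_lit 189018) (.g (nat_lit 1024) (.e (nat_lit 65568) (nat_lit 2) (.e (nat_lit 90172) (nat_lit 14) (.e (nat_lit 180285) (nat_lit 45) .nil))) .nil)) 
(.lf (nat_lit 189050) (.g (nat_lit 3016) (.e (nat_lit 65569) (nat_lit 3) (.e (nat_lit 98350) (nat_lit 24) (.e (nat_lit 409646) (nat_lit 18) (.e (nat_lit 303119) (nat_lit 3) (.e (nat_lit 204821) (nat_lit 17) (.e (nat_lit 7936) (nat_lit 347) .nil)))))) (.g (nat_lit 4) .nil .nil)))))) (.nd (nat_lit 3) (.nd (nat_lit 4) (.nd (nat_lit 5) 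
(.lf (nat_lit 188998) (.g (nat_lit 2792) (.e (nat_lit 65568) (nat_lit 2) (.e (nat_lit 90170) (nat_lit 13) (.e (nat_lit 172113) (nat_lit 10) (.e (nat_lit 434248) (nat_lit 28) (.e (nat_lit 573473) (nat_lit 12) (.e (nat_lit 57571) (nat_lit 54) (.e (nat_lit 770071) (nat_lit 8) .nil))))))) (.g (nat_lit 4) .nil .nil))) 
(.lf (nat_lit 189030) (.g (nat_lit 731) (.e (nat_lit 65569) (nat_lit 3) (.e (nat_lit 98341) (nat_lit 20) (.e (nat_lit 221212) (nat_lit 22) .nil))) .nil))) (.nd (nat_lit 5) 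
(.lf (nat_lit 189014) (.g (nat_lit 661) (.e (nat_lit 65568) (nat_lit 2) (.e (nat_lit 90170) (nat_lit 13) (.e (nat_lit 172115) (nat_lit 10) .nil))) .nil)) 
(.lf (nat_lit 189046) (.g (nat_lit 2145) (.e (nat_lit 65569) (nat_lit 3) (.e (nat_lit 98350) (nat_lit 24) (.e (nat_lit 409644) (nat_lit 18) (.e (nat_lit 303119) (nat_lit 3) (.e (nat_lit 204819) (nat_lit 17) .nil))))) .nil)))) (.nd (nat_lit 4) (.nd (nat_lit 5) 
(.lf (nat_lit 189006) (.g (nat_lit 4167) (.e (nat_lit 65568) (nat_lit 2) (.e (nat_lit 90170) (nat_lit 13) (.e (nat_lit 172113) (nat_lit 10) (.e (nat_lit 434248) (nat_lit 28) (.e (nat_lit 573475) (nat_lit 12) (.e (nat_lit 57347) (nat_lit 0) (.e (nat_lit 7236) (nat_lit 382) (.e (nat_lit 1199) (nat_lit 88) .nil)))))))) (.g (nat_lit 5) .nil .nil))) 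
(.lf (nat_lit 189038) (.g (nat_lit 2281) (.e (nat_lit 65569) (nat_lit 3) (.e (nat_lit 98349) (nat_lit 24) (.e (nat_lit 409644) (nat_lit 18) (.e (nat_lit 303119) (nat_lit 3) (.e (nat_lit 204819) (nat_lit 17) (.e (nat_lit 7936) (nat_lit 347) .nil)))))) (.g (nat_lit 4) .nil .nil)))) (.nd (nat_lit 5) 
(.lf (nat_lit 189022) (.g (nat_lit 2627) (.e (nat_lit 65569) (nat_lit 3) (.e (nat_lit 98333) (nat_lit 18) (.e (nat_lit 164179) (nat_lit 154) (.e (nat_lit 57354) (nat_lit 0) (.e (nat_lit 1799) (nat_lit 119) .nil))))) .nil)) 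
(.lf (nat_lit 189054) (.g (nat_lit 1917) (.e (nat_lit 65569) (nat_lit 3) (.e (nat_lit 98350) (nat_lit 24) (.e (nat_lit 409649) (nat_lit 18) (.e (nat_lit 303119) (nat_lit 3) .nil)))) .nil))))))) (.nd (nat_lit 1) (.nd (nat_lit 2) (.nd (nat_lit 3) (.nd (nat_lit 4) (.nd (nat_lit 5) 
(.lf (nat_lit 188993) (.g (nat_lit 2702) (.e (nat_lit 65568) (nat_lit 2) (.e (nat_lit 90170) (nat_lit 13) (.e (nat_lit 172113) (nat_lit 10) (.e (nat_lit 434247) (nat_lit 28) (.e (nat_lit 573478) (nat_lit 12) (.e (nat_lit 57352) (nat_lit 0) (.e (nat_lit 7125) (nat_lit 382) (.e (nat_lit 1201) (nat_lit 88) .nil)))))))) (.g (nat_lit 4) .nil .nil))) 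
(.lf (nat_lit 189025) (.g (nat_lit 2957) (.e (nat_lit 65569) (nat_lit 3) (.e (nat_lit 98334) (nat_lit 18) (.e (nat_lit 164180) (nat_lit 154) (.e (nat_lit 57378) (nat_lit 3) (.e (nat_lit 98340) (nat_lit 20) (.e (nat_lit 221211) (nat_lit 22) (.e (nat_lit 196666) (nat_lit 13) .nil))))))) (.g (nat_lit 4) .nil .nil)))) (.nd (nat_lit 5) 
(.lf (nat_lit 189009) (.g (nat_lit 3089) (.e (nat_lit 65568) (nat_lit 2) (.e (nat_lit 90170) (nat_lit 13) (.e (nat_lit 172113) (nat_lit 10) (.e (nat_lit 434248) (nat_lit 28) (.e (nat_lit 573475) (nat_lit 12) (.e (nat_lit 57354) (nat_lit 0) (.e (nat_lit 7147) (nat_lit 382) (.e (nat_lit 1203) (nat_lit 88) .nil)))))))) (.g (nat_lit 4) .nil .nil))) 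
(.lf (nat_lit 189041) (.g (nat_lit 1702) (.e (nat_lit 65569) (nat_lit 3) (.e (nat_lit 98349) (nat_lit 24) (.e (nat_lit 409646) (nat_lit 18) (.e (nat_lit 303117) (nat_lit 2) .nil)))) .nil)))) (.nd (nat_lit 4) (.nd (nat_lit 5) 
(.lf (nat_lit 189001) (.g (nat_lit 2675) (.e (nat_lit 65568) (nat_lit 2) (.e (nat_lit 90170) (nat_lit 13) (.e (nat_lit 172113) (nat_lit 10) (.e (nat_lit 434248) (nat_lit 28) (.e (nat_lit 573475) (nat_lit 12) (.e (nat_lit 57344) (nat_lit 0) (.e (nat_lit 7124) (nat_lit 382) (.e (nat_lit 1201) (nat_lit 88) .nil)))))))) (.g (nat_lit 4) .nil .nil))) 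
(.lf (nat_lit 189033) (.g (nat_lit 2365) (.e (nat_lit 65569) (nat_lit 3) (.e (nat_lit 98342) (nat_lit 20) (.e (nat_lit 221214) (nat_lit 23) (.e (nat_lit 204829) (nat_lit 18) (.e (nat_lit 57928) (nat_lit 282) .nil))))) .nil))) (.nd (nat_lit 5) 
(.lf (nat_lit 189017) (.g (nat_lit 772) (.e (nat_lit 65568) (nat_lit 2) (.e (nat_lit 90172) (nat_lit 14) (.e (nat_lit 188160) (nat_lit 33) .nil))) .nil)) 
(.lf (nat_lit 189049) (.g (nat_lit 2308) (.e (nat_lit 65569) (nat_lit 3) (.e (nat_lit 98350) (nat_lit 24) (.e (nat_lit 409646) (nat_lit 18) (.e (nat_lit 303119) (nat_lit 3) (.e (nat_lit 204819) (nat_lit 17) (.e (nat_lit 7936) (nat_lit 347) .nil)))))) (.g (nat_lit 4) .nil .nil)))))) (.nd (nat_lit 3) (.nd (nat_lit 4) (.nd (nat_lit 5) 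
(.lf (nat_lit 188997) (.g (nat_lit 2827) (.e (nat_lit 65568) (nat_lit 2) (.e (nat_lit 90170) (nat_lit 13) (.e (nat_lit 172113) (nat_lit 10) (.e (nat_lit 434248) (nat_lit 28) (.e (nat_lit 573473) (nat_lit 12) (.e (nat_lit 57347) (nat_lit 0) (.e (nat_lit 7122) (nat_lit 382) (.e (nat_lit 1201) (nat_lit 88) .nil)))))))) (.g (nat_lit 4) .nil .nil))) 
(.lf (nat_lit 189029) (.g (nat_lit 1580) (.e (nat_lit 65569) (nat_lit 3) (.e (nat_lit 98341) (nat_lit 20) (.e (nat_lit 221210) (nat_lit 22) (.e (nat_lit 196660) (nat_lit 12) .nil)))) .nil))) (.nd (nat_lit 5) 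
(.lf (nat_lit 189013) (.g (nat_lit 2716) (.e (nat_lit 65568) (nat_lit 2) (.e (nat_lit 90170) (nat_lit 13) (.e (nat_lit 172113) (nat_lit 10) (.e (nat_lit 434248) (nat_lit 28) (.e (nat_lit 573476) (nat_lit 12) (.e (nat_lit 57353) (nat_lit 0) (.e (nat_lit 7125) (nat_lit 382) (.e (nat_lit 1201) (nat_lit 88) .nil)))))))) (.g (nat_lit 4) .nil .nil))) 
(.lf (nat_lit 189045) (.g (nat_lit 1688) (.e (nat_lit 65569) (nat_lit 3) (.e (nat_lit 98350) (nat_lit 24) (.e (nat_lit 409617) (nat_lit 10) (.e (nat_lit 5355) (nat_lit 298) .nil)))) .nil)))) (.nd (nat_lit 4) (.nd (nat_lit 5) 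
(.lf (nat_lit 189005) (.g (nat_lit 3172) (.e (nat_lit 65568) (nat_lit 2) (.e (nat_lit 90170) (nat_lit 13) (.e (nat_lit 172113) (nat_lit 10) (.e (nat_lit 434248) (nat_lit 28) (.e (nat_lit 573475) (nat_lit 12) (.e (nat_lit 57347) (nat_lit 0) (.e (nat_lit 7125) (nat_lit 382) (.e (nat_lit 1191) (nat_lit 88) .nil)))))))) (.g (nat_lit 4) .nil .nil))) 
(.lf (nat_lit 189037) (.g (nat_lit 1942) (.e (nat_lit 65569) (nat_lit 3) (.e (nat_lit 98342) (nat_lit 20) (.e (nat_lit 221215) (nat_lit 23) (.e (nat_lit 204829) (nat_lit 18) (.e (nat_lit 57928) (nat_lit 282) .nil))))) .nil))) (.nd (nat_lit 5) 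
(.lf (nat_lit 189021) (.g (nat_lit 2068) (.e (nat_lit 65568) (nat_lit 2) (.e (nat_lit 90178) (nat_lit 15) (.e (nat_lit 188440) (nat_lit 20) (.e (nat_lit 3307) (nat_lit 202) (.e (nat_lit 573472) (nat_lit 12) .nil))))) .nil)) 
(.lf (nat_lit 189053) (.g (nat_lit 3009) (.e (nat_lit 65569) (nat_lit 3) (.e (nat_lit 98350) (nat_lit 24) (.e (nat_lit 409648) (nat_lit 18) (.e (nat_lit 303119) (nat_lit 3) (.e (nat_lit 204821) (nat_lit 17) .nil))))) .nil)))))) (.nd (nat_lit 2) (.nd (nat_lit 3) (.nd (nat_lit 4) (.nd (nat_lit 5) 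
(.lf (nat_lit 188995) (.g (nat_lit 2164) (.e (nat_lit 65568) (nat_lit 2) (.e (nat_lit 90170) (nat_lit 13) (.e (nat_lit 172113) (nat_lit 10) (.e (nat_lit 434248) (nat_lit 28) (.e (nat_lit 573452) (nat_lit 9) .nil))))) .nil)) 
(.lf (nat_lit 189027) (.g (nat_lit 3271) (.e (nat_lit 65569) (nat_lit 3) (.e (nat_lit 98335) (nat_lit 18) (.e (nat_lit 164179) (nat_lit 154) (.e (nat_lit 57378) (nat_lit 3) (.e (nat_lit 98340) (nat_lit 20) .nil))))) .nil))) (.nd (nat_lit 5) 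
(.lf (nat_lit 189011) (.g (nat_lit 2618) (.e (nat_lit 65568) (nat_lit 2) (.e (nat_lit 90170) (nat_lit 13) (.e (nat_lit 172113) (nat_lit 10) (.e (nat_lit 434248) (nat_lit 28) (.e (nat_lit 573475) (nat_lit 12) (.e (nat_lit 57571) (nat_lit 54) (.e (nat_lit 770070) (nat_lit 8) .nil))))))) (.g (nat_lit 4) .nil .nil))) 
(.lf (nat_lit 189043) (.g (nat_lit 3077) (.e (nat_lit 65569) (nat_lit 3) (.e (nat_lit 98349) (nat_lit 24) (.e (nat_lit 409646) (nat_lit 18) (.e (nat_lit 303119) (nat_lit 3) (.e (nat_lit 204821) (nat_lit 17) (.e (nat_lit 7936) (nat_lit 347) .nil)))))) (.g (nat_lit 5) .nil .nil))))) (.nd (nat_lit 4) (.nd (nat_lit 5) 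
(.lf (nat_lit 189003) (.g (nat_lit 2935) (.e (nat_lit 65568) (nat_lit 2) (.e (nat_lit 90170) (nat_lit 13) (.e (nat_lit 172113) (nat_lit 10) (.e (nat_lit 434248) (nat_lit 28) (.e (nat_lit 573475) (nat_lit 12) (.e (nat_lit 57345) (nat_lit 0) (.e (nat_lit 7125) (nat_lit 382) (.e (nat_lit 1201) (nat_lit 88) .nil)))))))) (.g (nat_lit 4) .nil .nil))) 
(.lf (nat_lit 189035) (.g (nat_lit 1434) (.e (nat_lit 65569) (nat_lit 3) (.e (nat_lit 98342) (nat_lit 20) (.e (nat_lit 221215) (nat_lit 23) (.e (nat_lit 204814) (nat_lit 17) (.e (nat_lit 1996) (nat_lit 137) .nil))))) .nil))) (.nd (nat_lit 5) 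
(.lf (nat_lit 189019) (.g (nat_lit 656) (.e (nat_lit 65568) (nat_lit 2) (.e (nat_lit 90176) (nat_lit 15) (.e (nat_lit 188450) (nat_lit 23) .nil))) .nil)) 
(.lf (nat_lit 189051) (.g (nat_lit 706) (.e (nat_lit 65569) (nat_lit 3) (.e (nat_lit 98350) (nat_lit 24) (.e (nat_lit 409648) (nat_lit 18) .nil))) .nil))))) (.nd (nat_lit 3) (.nd (nat_lit 4) (.nd (nat_lit 5) 
(.lf (nat_lit 188999) (.g (nat_lit 2100) (.e (nat_lit 65568) (nat_lit 2) (.e (nat_lit 90170) (nat_lit 13) (.e (nat_lit 172113) (nat_lit 10) (.e (nat_lit 434248) (nat_lit 28) (.e (nat_lit 573475) (nat_lit 12) .nil))))) .nil)) 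
(.lf (nat_lit 189031) (.g (nat_lit 758) (.e (nat_lit 65569) (nat_lit 3) (.e (nat_lit 98342) (nat_lit 20) (.e (nat_lit 221210) (nat_lit 22) .nil))) .nil))) (.nd (nat_lit 5) 
(.lf (nat_lit 189015) (.g (nat_lit 2147) (.e (nat_lit 65568) (nat_lit 2) (.e (nat_lit 90170) (nat_lit 13) (.e (nat_lit 172120) (nat_lit 12) (.e (nat_lit 475179) (nat_lit 24) .nil)))) .nil)) 
(.lf (nat_lit 189047) (.g (nat_lit 2745) (.e (nat_lit 65569) (nat_lit 3) (.e (nat_lit 98350) (nat_lit 24) (.e (nat_lit 409645) (nat_lit 18) (.e (nat_lit 303119) (nat_lit 3) (.e (nat_lit 204821) (nat_lit 17) (.e (nat_lit 7936) (nat_lit 347) .nil)))))) (.g (nat_lit 4) .nil .nil))))) (.nd (nat_lit 4) (.nd (nat_lit 5) 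
(.lf (nat_lit 189007) (.g (nat_lit 3530) (.e (nat_lit 65568) (nat_lit 2) (.e (nat_lit 90170) (nat_lit 13) (.e (nat_lit 172113) (nat_lit 10) (.e (nat_lit 434248) (nat_lit 28) (.e (nat_lit 573475) (nat_lit 12) (.e (nat_lit 57353) (nat_lit 0) (.e (nat_lit 7122) (nat_lit 382) (.e (nat_lit 1201) (nat_lit 88) .nil)))))))) (.g (nat_lit 5) .nil .nil))) 
(.lf (nat_lit 189039) (.g (nat_lit 1603) (.e (nat_lit 65569) (nat_lit 3) (.e (nat_lit 98349) (nat_lit 24) (.e (nat_lit 409645) (nat_lit 18) (.e (nat_lit 303117) (nat_lit 2) .nil)))) .nil))) (.nd (nat_lit 5) 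
(.lf (nat_lit 189023) (.g (nat_lit 2016) (.e (nat_lit 65569) (nat_lit 3) (.e (nat_lit 98333) (nat_lit 18) (.e (nat_lit 164179) (nat_lit 154) (.e (nat_lit 57376) (nat_lit 3) .nil)))) .nil)) 
(.lf (nat_lit 189055) (.g (nat_lit 3077) (.e (nat_lit 65569) (nat_lit 3) (.e (nat_lit 98350) (nat_lit 24) (.e (nat_lit 409649) (nat_lit 18) (.e (nat_lit 303119) (nat_lit 3) (.e (nat_lit 204821) (nat_lit 17) .nil))))) .nil))))))))

noncomputable def tv2506 : DT := (.nd (nat_lit 0) (.nd (nat_lit 1) (.nd (nat_lit 2) (.nd (nat_lit 3) (.nd (nat_lit 4) (.nd (nat_lit 5) (.nd (nat_lit 6) 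
(.lf (nat_lit 189056) (.g (nat_lit 4099) (.e (nat_lit 65569) (nat_lit 3) (.e (nat_lit 98356) (nat_lit 26) (.e (nat_lit 426422) (nat_lit 16) (.e (nat_lit 57688) (nat_lit 156) (.e (nat_lit 163874) (nat_lit 3) (.e (nat_lit 204830) (nat_lit 18) (.e (nat_lit 57830) (nat_lit 250) (.e (nat_lit 1201) (nat_lit 88) .nil)))))))) (.g (nat_lit 5) .nil .nil))) 
(.lf (nat_lit 189120) (.g (nat_lit 2312) (.e (nat_lit 65569) (nat_lit 3) (.e (nat_lit 98372) (nat_lit 29) (.e (nat_lit 450579) (nat_lit 5) (.e (nat_lit 532501) (nat_lit 1) (.e (nat_lit 65280) (nat_lit 221) (.e (nat_lit 1196) (nat_lit 88) .nil)))))) (.g (nat_lit 4) .nil .nil)))) (.nd (nat_lit 6) 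
(.lf (nat_lit 189088) (.g (nat_lit 2054) (.e (nat_lit 65569) (nat_lit 3) (.e (nat_lit 98359) (nat_lit 26) (.e (nat_lit 426286) (nat_lit 10) (.e (nat_lit 434247) (nat_lit 28) (.e (nat_lit 573472) (nat_lit 12) .nil))))) .nil)) 
(.lf (nat_lit 189152) (.g (nat_lit 4008) (.e (nat_lit 65569) (nat_lit 3) (.e (nat_lit 98372) (nat_lit 29) (.e (nat_lit 450588) (nat_lit 10) (.e (nat_lit 573473) (nat_lit 12) (.e (nat_lit 57353) (nat_lit 0) (.e (nat_lit 7125) (nat_lit 382) (.e (nat_lit 1201) (nat_lit 88) .nil))))))) (.g (nat_lit 4) .nil .nil))))) (.nd (nat_lit 5) (.nd (nat_lit 6) 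
(.lf (nat_lit 189072) (.g (nat_lit 1387) (.e (nat_lit 65569) (nat_lit 3) (.e (nat_lit 98359) (nat_lit 26) (.e (nat_lit 426285) (nat_lit 10) (.e (nat_lit 434229) (nat_lit 22) .nil)))) .nil)) 
(.lf (nat_lit 189136) (.g (nat_lit 2518) (.e (nat_lit 65569) (nat_lit 3) (.e (nat_lit 98372) (nat_lit 29) (.e (nat_lit 450586) (nat_lit 10) (.e (nat_lit 573475) (nat_lit 12) (.e (nat_lit 57345) (nat_lit 0) (.e (nat_lit 7236) (nat_lit 382) (.e (nat_lit 1199) (nat_lit 88) .nil))))))) (.g (nat_lit 4) .nil .nil)))) (.nd (nat_lit 6) 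
(.lf (nat_lit 189104) (.g (nat_lit 775) (.e (nat_lit 65569) (nat_lit 3) (.e (nat_lit 98370) (nat_lit 28) (.e (nat_lit 442414) (nat_lit 20) .nil))) .nil)) 
(.lf (nat_lit 189168) (.g (nat_lit 721) (.e (nat_lit 65569) (nat_lit 3) (.e (nat_lit 98373) (nat_lit 29) (.e (nat_lit 450584) (nat_lit 9) .nil))) .nil))))) (.nd (nat_lit 4) (.nd (nat_lit 5) (.nd (nat_lit 6) 
(.lf (nat_lit 189064) (.g (nat_lit 3713) (.e (nat_lit 65569) (nat_lit 3) (.e (nat_lit 98359) (nat_lit 26) (.e (nat_lit 426171) (nat_lit 7) (.e (nat_lit 409616) (nat_lit 10) (.e (nat_lit 632) (nat_lit 50) (.e (nat_lit 573478) (nat_lit 12) (.e (nat_lit 57520) (nat_lit 44) (.e (nat_lit 688177) (nat_lit 16) .nil)))))))) (.g (nat_lit 5) .nil .nil))) 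
(.lf (nat_lit 189128) (.g (nat_lit 2679) (.e (nat_lit 65569) (nat_lit 3) (.e (nat_lit 98372) (nat_lit 29) (.e (nat_lit 450579) (nat_lit 5) (.e (nat_lit 532504) (nat_lit 1) (.e (nat_lit 65280) (nat_lit 221) (.e (nat_lit 1199) (nat_lit 88) .nil)))))) (.g (nat_lit 4) .nil .nil)))) (.nd (nat_lit 6) 
(.lf (nat_lit 189096) (.g (nat_lit 4794) (.e (nat_lit 65569) (nat_lit 3) (.e (nat_lit 98359) (nat_lit 26) (.e (nat_lit 426286) (nat_lit 10) (.e (nat_lit 434248) (nat_lit 28) (.e (nat_lit 573475) (nat_lit 12) (.e (nat_lit 57348) (nat_lit 0) (.e (nat_lit 7125) (nat_lit 382) (.e (nat_lit 1201) (nat_lit 88) .nil)))))))) (.g (nat_lit 8) .nil .nil))) 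
(.lf (nat_lit 189160) (.g (nat_lit 4129) (.e (nat_lit 65569) (nat_lit 3) (.e (nat_lit 98372) (nat_lit 29) (.e (nat_lit 450588) (nat_lit 10) (.e (nat_lit 573475) (nat_lit 12) (.e (nat_lit 57348) (nat_lit 0) (.e (nat_lit 7125) (nat_lit 382) (.e (nat_lit 1201) (nat_lit 88) .nil))))))) (.g (nat_lit 4) .nil .nil))))) (.nd (nat_lit 5) (.nd (nat_lit 6) 
(.lf (nat_lit 189080) (.g (nat_lit 1833) (.e (nat_lit 65569) (nat_lit 3) (.e (nat_lit 98359) (nat_lit 26) (.e (nat_lit 426286) (nat_lit 10) (.e (nat_lit 434245) (nat_lit 28) (.e (nat_lit 573474) (nat_lit 12) .nil))))) .nil)) 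
(.lf (nat_lit 189144) (.g (nat_lit 3510) (.e (nat_lit 65569) (nat_lit 3) (.e (nat_lit 98372) (nat_lit 29) (.e (nat_lit 450588) (nat_lit 10) (.e (nat_lit 573473) (nat_lit 12) (.e (nat_lit 57347) (nat_lit 0) .nil))))) .nil))) (.nd (nat_lit 6) 
(.lf (nat_lit 189112) (.g (nat_lit 1502) (.e (nat_lit 65569) (nat_lit 3) (.e (nat_lit 98372) (nat_lit 29) (.e (nat_lit 458496) (nat_lit 3) (.e (nat_lit 516097) (nat_lit 0) (.e (nat_lit 3377) (nat_lit 209) (.e (nat_lit 630821) (nat_lit 16) .nil)))))) (.g (nat_lit 4) .nil .nil))) 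
(.lf (nat_lit 189176) (.g (nat_lit 1840) (.e (nat_lit 65569) (nat_lit 3) (.e (nat_lit 98373) (nat_lit 29) (.e (nat_lit 450588) (nat_lit 10) (.e (nat_lit 573449) (nat_lit 9) .nil)))) .nil)))))) (.nd (nat_lit 3) (.nd (nat_lit 4) (.nd (nat_lit 5) (.nd (nat_lit 6) 
(.lf (nat_lit 189060) (.g (nat_lit 828) (.e (nat_lit 65569) (nat_lit 3) (.e (nat_lit 98359) (nat_lit 26) (.e (nat_lit 426166) (nat_lit 7) .nil))) .nil)) 
(.lf (nat_lit 189124) (.g (nat_lit 2753) (.e (nat_lit 65569) (nat_lit 3) (.e (nat_lit 98372) (nat_lit 29) (.e (nat_lit 450579) (nat_lit 5) (.e (nat_lit 532504) (nat_lit 1) (.e (nat_lit 57766) (nat_lit 221) .nil))))) .nil))) (.nd (nat_lit 6) 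
(.lf (nat_lit 189092) (.g (nat_lit 4525) (.e (nat_lit 65569) (nat_lit 3) (.e (nat_lit 98359) (nat_lit 26) (.e (nat_lit 426286) (nat_lit 10) (.e (nat_lit 434248) (nat_lit 28) (.e (nat_lit 573473) (nat_lit 12) (.e (nat_lit 57353) (nat_lit 0) (.e (nat_lit 7125) (nat_lit 382) (.e (nat_lit 1201) (nat_lit 88) .nil)))))))) (.g (nat_lit 0) .nil .nil))) 
(.lf (nat_lit 189156) (.g (nat_lit 3682) (.e (nat_lit 65569) (nat_lit 3) (.e (nat_lit 98372) (nat_lit 29) (.e (nat_lit 450588) (nat_lit 10) (.e (nat_lit 573475) (nat_lit 12) (.e (nat_lit 57347) (nat_lit 0) (.e (nat_lit 7122) (nat_lit 382) (.e (nat_lit 1201) (nat_lit 88) .nil))))))) (.g (nat_lit 4) .nil .nil))))) (.nd (nat_lit 5) (.nd (nat_lit 6) 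
(.lf (nat_lit 189076) (.g (nat_lit 3995) (.e (nat_lit 65569) (nat_lit 3) (.e (nat_lit 98359) (nat_lit 26) (.e (nat_lit 426286) (nat_lit 10) (.e (nat_lit 434242) (nat_lit 28) (.e (nat_lit 573474) (nat_lit 12) (.e (nat_lit 57348) (nat_lit 0) (.e (nat_lit 7125) (nat_lit 382) (.e (nat_lit 1201) (nat_lit 88) .nil)))))))) (.g (nat_lit 5) .nil .nil))) 
(.lf (nat_lit 189140) (.g (nat_lit 1085) (.e (nat_lit 65569) (nat_lit 3) (.e (nat_lit 98372) (nat_lit 29) (.e (nat_lit 450587) (nat_lit 10) (.e (nat_lit 573477) (nat_lit 12) .nil)))) .nil))) (.nd (nat_lit 6) 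
(.lf (nat_lit 189108) (.g (nat_lit 1837) (.e (nat_lit 65569) (nat_lit 3) (.e (nat_lit 98370) (nat_lit 28) (.e (nat_lit 442427) (nat_lit 23) (.e (nat_lit 212736) (nat_lit 0) .nil)))) .nil)) 
(.lf (nat_lit 189172) (.g (nat_lit 4449) (.e (nat_lit 65569) (nat_lit 3) (.e (nat_lit 98373) (nat_lit 29) (.e (nat_lit 450587) (nat_lit 10) (.e (nat_lit 573474) (nat_lit 12) .nil)))) .nil))))) (.nd (nat_lit 4) (.nd (nat_lit 5) (.nd (nat_lit 6) 
(.lf (nat_lit 189068) (.g (nat_lit 3656) (.e (nat_lit 65569) (nat_lit 3) (.e (nat_lit 98359) (nat_lit 26) (.e (nat_lit 426211) (nat_lit 9) (.e (nat_lit 426125) (nat_lit 2) (.e (nat_lit 196615) (nat_lit 0) .nil))))) .nil)) 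
(.lf (nat_lit 189132) (.g (nat_lit 1303) (.e (nat_lit 65569) (nat_lit 3) (.e (nat_lit 98372) (nat_lit 29) (.e (nat_lit 450586) (nat_lit 10) (.e (nat_lit 573472) (nat_lit 12) .nil)))) .nil))) (.nd (nat_lit 6) 
(.lf (nat_lit 189100) (.g (nat_lit 3345) (.e (nat_lit 65569) (nat_lit 3) (.e (nat_lit 98359) (nat_lit 26) (.e (nat_lit 426286) (nat_lit 10) (.e (nat_lit 434248) (nat_lit 28) (.e (nat_lit 573475) (nat_lit 12) (.e (nat_lit 57571) (nat_lit 54) (.e (nat_lit 770071) (nat_lit 8) .nil))))))) (.g (nat_lit 5) .nil .nil))) 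
(.lf (nat_lit 189164) (.g (nat_lit 3674) (.e (nat_lit 65569) (nat_lit 3) (.e (nat_lit 98372) (nat_lit 29) (.e (nat_lit 450588) (nat_lit 10) (.e (nat_lit 573475) (nat_lit 12) (.e (nat_lit 57570) (nat_lit 54) (.e (nat_lit 770072) (nat_lit 8) .nil)))))) (.g (nat_lit 4) .nil .nil))))) (.nd (nat_lit 5) (.nd (nat_lit 6) 
(.lf (nat_lit 189084) (.g (nat_lit 3129) (.e (nat_lit 65569) (nat_lit 3) (.e (nat_lit 98359) (nat_lit 26) (.e (nat_lit 426286) (nat_lit 10) (.e (nat_lit 434245) (nat_lit 28) (.e (nat_lit 573474) (nat_lit 12) (.e (nat_lit 57354) (nat_lit 0) (.e (nat_lit 7147) (nat_lit 382) (.e (nat_lit 1203) (nat_lit 88) .nil)))))))) (.g (nat_lit 5) .nil .nil))) 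
(.lf (nat_lit 189148) (.g (nat_lit 3363) (.e (nat_lit 65569) (nat_lit 3) (.e (nat_lit 98372) (nat_lit 29) (.e (nat_lit 450588) (nat_lit 10) (.e (nat_lit 573473) (nat_lit 12) (.e (nat_lit 57352) (nat_lit 0) .nil))))) .nil))) (.nd (nat_lit 6) 
(.lf (nat_lit 189116) (.g (nat_lit 2208) (.e (nat_lit 65569) (nat_lit 3) (.e (nat_lit 98372) (nat_lit 29) (.e (nat_lit 450579) (nat_lit 5) (.e (nat_lit 532501) (nat_lit 1) (.e (nat_lit 57766) (nat_lit 221) .nil))))) .nil)) 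
(.lf (nat_lit 189180) (.g (nat_lit 1466) (.e (nat_lit 65569) (nat_lit 3) (.e (nat_lit 98373) (nat_lit 29) (.e (nat_lit 450588) (nat_lit 10) (.e (nat_lit 573473) (nat_lit 12) .nil)))) .nil))))))) (.nd (nat_lit 2) (.nd (nat_lit 3) (.nd (nat_lit 4) (.nd (nat_lit 5) (.nd (nat_lit 6) 
(.lf (nat_lit 189058) (.g (nat_lit 1339) (.e (nat_lit 65569) (nat_lit 3) (.e (nat_lit 98356) (nat_lit 26) (.e (nat_lit 426448) (nat_lit 20) (.e (nat_lit 122624) (nat_lit 2) .nil)))) .nil)) 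
(.lf (nat_lit 189122) (.g (nat_lit 2051) (.e (nat_lit 65569) (nat_lit 3) (.e (nat_lit 98372) (nat_lit 29) (.e (nat_lit 450579) (nat_lit 5) (.e (nat_lit 532503) (nat_lit 1) (.e (nat_lit 65280) (nat_lit 221) .nil))))) .nil))) (.nd (nat_lit 6) 
(.lf (nat_lit 189090) (.g (nat_lit 2451) (.e (nat_lit 65569) (nat_lit 3) (.e (nat_lit 98359) (nat_lit 26) (.e (nat_lit 426286) (nat_lit 10) (.e (nat_lit 434248) (nat_lit 28) (.e (nat_lit 581376) (nat_lit 3) .nil))))) .nil)) 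
(.lf (nat_lit 189154) (.g (nat_lit 4030) (.e (nat_lit 65569) (nat_lit 3) (.e (nat_lit 98372) (nat_lit 29) (.e (nat_lit 450588) (nat_lit 10) (.e (nat_lit 573473) (nat_lit 12) (.e (nat_lit 57572) (nat_lit 54) (.e (nat_lit 770072) (nat_lit 8) .nil)))))) (.g (nat_lit 4) .nil .nil))))) (.nd (nat_lit 5) (.nd (nat_lit 6) 
(.lf (nat_lit 189074) (.g (nat_lit 1176) (.e (nat_lit 65569) (nat_lit 3) (.e (nat_lit 98359) (nat_lit 26) (.e (nat_lit 426286) (nat_lit 10) (.e (nat_lit 434242) (nat_lit 28) .nil)))) .nil)) 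
(.lf (nat_lit 189138) (.g (nat_lit 2226) (.e (nat_lit 65569) (nat_lit 3) (.e (nat_lit 98372) (nat_lit 29) (.e (nat_lit 450586) (nat_lit 10) (.e (nat_lit 573475) (nat_lit 12) (.e (nat_lit 57353) (nat_lit 0) .nil))))) .nil))) (.nd (nat_lit 6) 
(.lf (nat_lit 189106) (.g (nat_lit 1748) (.e (nat_lit 65569) (nat_lit 3) (.e (nat_lit 98370) (nat_lit 28) (.e (nat_lit 442424) (nat_lit 22) (.e (nat_lit 196612) (nat_lit 0) .nil)))) .nil)) 
(.lf (nat_lit 189170) (.g (nat_lit 2510) (.e (nat_lit 65569) (nat_lit 3) (.e (nat_lit 98373) (nat_lit 29) (.e (nat_lit 450587) (nat_lit 10) (.e (nat_lit 573472) (nat_lit 12) .nil)))) .nil))))) (.nd (nat_lit 4) (.nd (nat_lit 5) (.nd (nat_lit 6) 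
(.lf (nat_lit 189066) (.g (nat_lit 1390) (.e (nat_lit 65569) (nat_lit 3) (.e (nat_lit 98359) (nat_lit 26) (.e (nat_lit 426211) (nat_lit 9) (.e (nat_lit 426125) (nat_lit 2) .nil)))) .nil)) 
(.lf (nat_lit 189130) (.g (nat_lit 4020) (.e (nat_lit 65569) (nat_lit 3) (.e (nat_lit 98372) (nat_lit 29) (.e (nat_lit 450585) (nat_lit 10) (.e (nat_lit 573474) (nat_lit 12) (.e (nat_lit 57572) (nat_lit 54) (.e (nat_lit 770072) (nat_lit 8) .nil)))))) (.g (nat_lit 5) .nil .nil)))) (.nd (nat_lit 6) 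
(.lf (nat_lit 189098) (.g (nat_lit 2499) (.e (nat_lit 65569) (nat_lit 3) (.e (nat_lit 98359) (nat_lit 26) (.e (nat_lit 426286) (nat_lit 10) (.e (nat_lit 434248) (nat_lit 28) (.e (nat_lit 573475) (nat_lit 12) (.e (nat_lit 57354) (nat_lit 0) (.e (nat_lit 7147) (nat_lit 382) (.e (nat_lit 1204) (nat_lit 88) .nil)))))))) (.g (nat_lit 4) .nil .nil))) 
(.lf (nat_lit 189162) (.g (nat_lit 3735) (.e (nat_lit 65569) (nat_lit 3) (.e (nat_lit 98372) (nat_lit 29) (.e (nat_lit 450588) (nat_lit 10) (.e (nat_lit 573475) (nat_lit 12) (.e (nat_lit 57353) (nat_lit 0) .nil))))) .nil)))) (.nd (nat_lit 5) (.nd (nat_lit 6) 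
(.lf (nat_lit 189082) (.g (nat_lit 3706) (.e (nat_lit 65569) (nat_lit 3) (.e (nat_lit 98359) (nat_lit 26) (.e (nat_lit 426286) (nat_lit 10) (.e (nat_lit 434245) (nat_lit 28) (.e (nat_lit 573474) (nat_lit 12) (.e (nat_lit 57352) (nat_lit 0) (.e (nat_lit 7122) (nat_lit 382) (.e (nat_lit 1201) (nat_lit 88) .nil)))))))) (.g (nat_lit 5) .nil .nil))) 
(.lf (nat_lit 189146) (.g (nat_lit 3341) (.e (nat_lit 65569) (nat_lit 3) (.e (nat_lit 98372) (nat_lit 29) (.e (nat_lit 450588) (nat_lit 10) (.e (nat_lit 573473) (nat_lit 12) (.e (nat_lit 57348) (nat_lit 0) .nil))))) .nil))) (.nd (nat_lit 6) 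
(.lf (nat_lit 189114) (.g (nat_lit 1272) (.e (nat_lit 65569) (nat_lit 3) (.e (nat_lit 98372) (nat_lit 29) (.e (nat_lit 450579) (nat_lit 5) (.e (nat_lit 532484) (nat_lit 0) .nil)))) .nil)) 
(.lf (nat_lit 189178) (.g (nat_lit 3537) (.e (nat_lit 65569) (nat_lit 3) (.e (nat_lit 98373) (nat_lit 29) (.e (nat_lit 450588) (nat_lit 10) (.e (nat_lit 573452) (nat_lit 9) (.e (nat_lit 996) (nat_lit 81) .nil))))) .nil)))))) (.nd (nat_lit 3) (.nd (nat_lit 4) (.nd (nat_lit 5) (.nd (nat_lit 6) 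
(.lf (nat_lit 189062) (.g (nat_lit 2967) (.e (nat_lit 65569) (nat_lit 3) (.e (nat_lit 98359) (nat_lit 26) (.e (nat_lit 426171) (nat_lit 7) (.e (nat_lit 409616) (nat_lit 10) (.e (nat_lit 604) (nat_lit 45) (.e (nat_lit 532501) (nat_lit 1) (.e (nat_lit 57830) (nat_lit 250) (.e (nat_lit 1201) (nat_lit 88) .nil)))))))) (.g (nat_lit 4) .nil .nil))) 
(.lf (nat_lit 189126) (.g (nat_lit 2054) (.e (nat_lit 65569) (nat_lit 3) (.e (nat_lit 98372) (nat_lit 29) (.e (nat_lit 450579) (nat_lit 5) (.e (nat_lit 532504) (nat_lit 1) (.e (nat_lit 65280) (nat_lit 221) .nil))))) .nil))) (.nd (nat_lit 6) 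
(.lf (nat_lit 189094) (.g (nat_lit 3614) (.e (nat_lit 65569) (nat_lit 3) (.e (nat_lit 98359) (nat_lit 26) (.e (nat_lit 426286) (nat_lit 10) (.e (nat_lit 434248) (nat_lit 28) (.e (nat_lit 573475) (nat_lit 12) (.e (nat_lit 57345) (nat_lit 0) (.e (nat_lit 7236) (nat_lit 382) (.e (nat_lit 1199) (nat_lit 88) .nil)))))))) (.g (nat_lit 5) .nil .nil))) 
(.lf (nat_lit 189158) (.g (nat_lit 3684) (.e (nat_lit 65569) (nat_lit 3) (.e (nat_lit 98372) (nat_lit 29) (.e (nat_lit 450588) (nat_lit 10) (.e (nat_lit 573475) (nat_lit 12) (.e (nat_lit 57348) (nat_lit 0) .nil))))) .nil)))) (.nd (nat_lit 5) (.nd (nat_lit 6) 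
(.lf (nat_lit 189078) (.g (nat_lit 1827) (.e (nat_lit 65569) (nat_lit 3) (.e (nat_lit 98359) (nat_lit 26) (.e (nat_lit 426286) (nat_lit 10) (.e (nat_lit 434245) (nat_lit 28) (.e (nat_lit 573473) (nat_lit 12) .nil))))) .nil)) 
(.lf (nat_lit 189142) (.g (nat_lit 2926) (.e (nat_lit 65569) (nat_lit 3) (.e (nat_lit 98372) (nat_lit 29) (.e (nat_lit 450588) (nat_lit 10) (.e (nat_lit 573451) (nat_lit 9) .nil)))) .nil))) (.nd (nat_lit 6) 
(.lf (nat_lit 189110) (.g (nat_lit 1690) (.e (nat_lit 65569) (nat_lit 3) (.e (nat_lit 98370) (nat_lit 28) (.e (nat_lit 442430) (nat_lit 24) (.e (nat_lit 229519) (nat_lit 125) .nil)))) .nil)) 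
(.lf (nat_lit 189174) (.g (nat_lit 1359) (.e (nat_lit 65569) (nat_lit 3) (.e (nat_lit 98373) (nat_lit 29) (.e (nat_lit 450587) (nat_lit 10) (.e (nat_lit 573477) (nat_lit 12) .nil)))) .nil))))) (.nd (nat_lit 4) (.nd (nat_lit 5) (.nd (nat_lit 6) 
(.lf (nat_lit 189070) (.g (nat_lit 3592) (.e (nat_lit 65569) (nat_lit 3) (.e (nat_lit 98359) (nat_lit 26) (.e (nat_lit 426211) (nat_lit 9) (.e (nat_lit 426125) (nat_lit 2) (.e (nat_lit 196616) (nat_lit 0) .nil))))) .nil)) 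
(.lf (nat_lit 189134) (.g (nat_lit 1892) (.e (nat_lit 65569) (nat_lit 3) (.e (nat_lit 98372) (nat_lit 29) (.e (nat_lit 450586) (nat_lit 10) (.e (nat_lit 573473) (nat_lit 12) (.e (nat_lit 57571) (nat_lit 54) .nil))))) .nil))) (.nd (nat_lit 6) 
(.lf (nat_lit 189102) (.g (nat_lit 509) (.e (nat_lit 65569) (nat_lit 3) (.e (nat_lit 98370) (nat_lit 28) (.e (nat_lit 450304) (nat_lit 3) .nil))) .nil)) 
(.lf (nat_lit 189166) (.g (nat_lit 685) (.e (nat_lit 65569) (nat_lit 3) (.e (nat_lit 98373) (nat_lit 29) (.e (nat_lit 450562) (nat_lit 0) .nil))) .nil)))) (.nd (nat_lit 5) (.nd (nat_lit 6) 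
(.lf (nat_lit 189086) (.g (nat_lit 2569) (.e (nat_lit 65569) (nat_lit 3) (.e (nat_lit 98359) (nat_lit 26) (.e (nat_lit 426286) (nat_lit 10) (.e (nat_lit 434245) (nat_lit 28) (.e (nat_lit 573474) (nat_lit 12) (.e (nat_lit 65280) (nat_lit 0) (.e (nat_lit 7236) (nat_lit 382) (.e (nat_lit 1199) (nat_lit 88) .nil)))))))) (.g (nat_lit 4) .nil .nil))) 
(.lf (nat_lit 189150) (.g (nat_lit 3358) (.e (nat_lit 65569) (nat_lit 3) (.e (nat_lit 98372) (nat_lit 29) (.e (nat_lit 450588) (nat_lit 10) (.e (nat_lit 573473) (nat_lit 12) (.e (nat_lit 57353) (nat_lit 0) .nil))))) .nil))) (.nd (nat_lit 6) 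
(.lf (nat_lit 189118) (.g (nat_lit 2009) (.e (nat_lit 65569) (nat_lit 3) (.e (nat_lit 98372) (nat_lit 29) (.e (nat_lit 450579) (nat_lit 5) (.e (nat_lit 532501) (nat_lit 1) (.e (nat_lit 65280) (nat_lit 221) .nil))))) .nil)) 
(.lf (nat_lit 189182) (.g (nat_lit 4725) (.e (nat_lit 65569) (nat_lit 3) (.e (nat_lit 98373) (nat_lit 29) (.e (nat_lit 450588) (nat_lit 10) (.e (nat_lit 573473) (nat_lit 12) (.e (nat_lit 57353) (nat_lit 0) (.e (nat_lit 7125) (nat_lit 382) (.e (nat_lit 1201) (nat_lit 88) .nil))))))) (.g (nat_lit 0) .nil .nil))))))))) 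
(.nd (nat_lit 1) (.nd (nat_lit 2) (.nd (nat_lit 3) (.nd (nat_lit 4) (.nd (nat_lit 5) 
(.nd (nat_lit 6) 
(.lf (nat_lit 189057) (.g (nat_lit 2813) (.e (nat_lit 65569) (nat_lit 3) (.e (nat_lit 98356) (nat_lit 26) (.e (nat_lit 426422) (nat_lit 16) (.e (nat_lit 57688) (nat_lit 156) (.e (nat_lit 163874) (nat_lit 3) (.e (nat_lit 204831) (nat_lit 18) (.e (nat_lit 57830) (nat_lit 250) (.e (nat_lit 1201) (nat_lit 88) .nil)))))))) (.g (nat_lit 4) .nil .nil))) 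
(.lf (nat_lit 189121) (.g (nat_lit 2469) (.e (nat_lit 65569) (nat_lit 3) (.e (nat_lit 98372) (nat_lit 29) (.e (nat_lit 450579) (nat_lit 5) (.e (nat_lit 532501) (nat_lit 1) (.e (nat_lit 65280) (nat_lit 221) (.e (nat_lit 1197) (nat_lit 88) .nil)))))) (.g (nat_lit 4) .nil .nil)))) (.nd (nat_lit 6) 
(.lf (nat_lit 189089) (.g (nat_lit 2054) (.e (nat_lit 65569) (nat_lit 3) (.e (nat_lit 98359) (nat_lit 26) (.e (nat_lit 426286) (nat_lit 10) (.e (nat_lit 434247) (nat_lit 28) (.e (nat_lit 573473) (nat_lit 12) .nil))))) .nil)) 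
(.lf (nat_lit 189153) (.g (nat_lit 3818) (.e (nat_lit 65569) (nat_lit 3) (.e (nat_lit 98372) (nat_lit 29) (.e (nat_lit 450588) (nat_lit 10) (.e (nat_lit 573473) (nat_lit 12) (.e (nat_lit 57572) (nat_lit 54) (.e (nat_lit 770071) (nat_lit 8) .nil)))))) (.g (nat_lit 4) .nil .nil))))) (.nd (nat_lit 5) (.nd (nat_lit 6) 
(.lf (nat_lit 189073) (.g (nat_lit 1217) (.e (nat_lit 65569) (nat_lit 3) (.e (nat_lit 98359) (nat_lit 26) (.e (nat_lit 426286) (nat_lit 10) (.e (nat_lit 434241) (nat_lit 27) .nil)))) .nil)) 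
(.lf (nat_lit 189137) (.g (nat_lit 2373) (.e (nat_lit 65569) (nat_lit 3) (.e (nat_lit 98372) (nat_lit 29) (.e (nat_lit 450586) (nat_lit 10) (.e (nat_lit 573475) (nat_lit 12) (.e (nat_lit 57348) (nat_lit 0) (.e (nat_lit 7236) (nat_lit 382) (.e (nat_lit 1199) (nat_lit 88) .nil))))))) (.g (nat_lit 4) .nil .nil)))) (.nd (nat_lit 6) 
(.lf (nat_lit 189105) (.g (nat_lit 482) (.e (nat_lit 65569) (nat_lit 3) (.e (nat_lit 98370) (nat_lit 28) (.e (nat_lit 442424) (nat_lit 22) .nil))) .nil)) 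
(.lf (nat_lit 189169) (.g (nat_lit 4594) (.e (nat_lit 65569) (nat_lit 3) (.e (nat_lit 98373) (nat_lit 29) (.e (nat_lit 450585) (nat_lit 10) (.e (nat_lit 573474) (nat_lit 12) (.e (nat_lit 57572) (nat_lit 54) (.e (nat_lit 770071) (nat_lit 8) .nil)))))) (.g (nat_lit 5) .nil .nil)))))) (.nd (nat_lit 4) (.nd (nat_lit 5) (.nd (nat_lit 6) 
(.lf (nat_lit 189065) (.g (nat_lit 4344) (.e (nat_lit 65569) (nat_lit 3) (.e (nat_lit 98359) (nat_lit 26) (.e (nat_lit 426173) (nat_lit 7) (.e (nat_lit 409617) (nat_lit 10) (.e (nat_lit 632) (nat_lit 50) (.e (nat_lit 573475) (nat_lit 12) (.e (nat_lit 57520) (nat_lit 44) (.e (nat_lit 688177) (nat_lit 16) .nil)))))))) (.g (nat_lit 6) .nil .nil))) 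
(.lf (nat_lit 189129) (.g (nat_lit 3205) (.e (nat_lit 65569) (nat_lit 3) (.e (nat_lit 98372) (nat_lit 29) (.e (nat_lit 450585) (nat_lit 10) (.e (nat_lit 573474) (nat_lit 12) (.e (nat_lit 57572) (nat_lit 54) (.e (nat_lit 770071) (nat_lit 8) .nil)))))) (.g (nat_lit 4) .nil .nil)))) (.nd (nat_lit 6) 
(.lf (nat_lit 189097) (.g (nat_lit 2506) (.e (nat_lit 65569) (nat_lit 3) (.e (nat_lit 98359) (nat_lit 26) (.e (nat_lit 426286) (nat_lit 10) (.e (nat_lit 434248) (nat_lit 28) (.e (nat_lit 573475) (nat_lit 12) (.e (nat_lit 57354) (nat_lit 0) (.e (nat_lit 7147) (nat_lit 382) (.e (nat_lit 1203) (nat_lit 88) .nil)))))))) (.g (nat_lit 4) .nil .nil))) 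
(.lf (nat_lit 189161) (.g (nat_lit 3743) (.e (nat_lit 65569) (nat_lit 3) (.e (nat_lit 98372) (nat_lit 29) (.e (nat_lit 450588) (nat_lit 10) (.e (nat_lit 573475) (nat_lit 12) (.e (nat_lit 57351) (nat_lit 0) (.e (nat_lit 7124) (nat_lit 382) (.e (nat_lit 1201) (nat_lit 88) .nil))))))) (.g (nat_lit 4) .nil .nil))))) (.nd (nat_lit 5) (.nd (nat_lit 6) 
(.lf (nat_lit 189081) (.g (nat_lit 2187) (.e (nat_lit 65569) (nat_lit 3) (.e (nat_lit 98359) (nat_lit 26) (.e (nat_lit 426286) (nat_lit 10) (.e (nat_lit 434245) (nat_lit 28) (.e (nat_lit 573474) (nat_lit 12) (.e (nat_lit 57347) (nat_lit 0) (.e (nat_lit 7125) (nat_lit 382) (.e (nat_lit 1193) (nat_lit 88) .nil)))))))) (.g (nat_lit 4) .nil .nil))) 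
(.lf (nat_lit 189145) (.g (nat_lit 3860) (.e (nat_lit 65569) (nat_lit 3) (.e (nat_lit 98372) (nat_lit 29) (.e (nat_lit 450588) (nat_lit 10) (.e (nat_lit 573473) (nat_lit 12) (.e (nat_lit 57347) (nat_lit 0) (.e (nat_lit 7125) (nat_lit 382) (.e (nat_lit 1201) (nat_lit 88) .nil))))))) (.g (nat_lit 4) .nil .nil)))) (.nd (nat_lit 6) 
(.lf (nat_lit 189113) (.g (nat_lit 406) (.e (nat_lit 65569) (nat_lit 3) (.e (nat_lit 98372) (nat_lit 29) (.e (nat_lit 450579) (nat_lit 5) .nil))) .nil)) 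
(.lf (nat_lit 189177) (.g (nat_lit 2817) (.e (nat_lit 65569) (nat_lit 3) (.e (nat_lit 98373) (nat_lit 29) (.e (nat_lit 450588) (nat_lit 10) (.e (nat_lit 573452) (nat_lit 9) .nil)))) .nil)))))) (.nd (nat_lit 3) (.nd (nat_lit 4) (.nd (nat_lit 5) (.nd (nat_lit 6) 
(.lf (nat_lit 189061) (.g (nat_lit 2529) (.e (nat_lit 65569) (nat_lit 3) (.e (nat_lit 98359) (nat_lit 26) (.e (nat_lit 426171) (nat_lit 7) (.e (nat_lit 409616) (nat_lit 10) (.e (nat_lit 604) (nat_lit 45) .nil))))) .nil)) 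
(.lf (nat_lit 189125) (.g (nat_lit 3311) (.e (nat_lit 65569) (nat_lit 3) (.e (nat_lit 98372) (nat_lit 29) (.e (nat_lit 450579) (nat_lit 5) (.e (nat_lit 532504) (nat_lit 1) (.e (nat_lit 57766) (nat_lit 221) (.e (nat_lit 1196) (nat_lit 88) .nil)))))) (.g (nat_lit 4) .nil .nil)))) (.nd (nat_lit 6) 
(.lf (nat_lit 189093) (.g (nat_lit 1933) (.e (nat_lit 65569) (nat_lit 3) (.e (nat_lit 98359) (nat_lit 26) (.e (nat_lit 426286) (nat_lit 10) (.e (nat_lit 434248) (nat_lit 28) (.e (nat_lit 573475) (nat_lit 12) .nil))))) .nil)) 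
(.lf (nat_lit 189157) (.g (nat_lit 4871) (.e (nat_lit 65569) (nat_lit 3) (.e (nat_lit 98372) (nat_lit 29) (.e (nat_lit 450588) (nat_lit 10) (.e (nat_lit 573475) (nat_lit 12) (.e (nat_lit 57347) (nat_lit 0) (.e (nat_lit 7125) (nat_lit 382) (.e (nat_lit 1201) (nat_lit 88) .nil))))))) (.g (nat_lit 5) .nil .nil))))) (.nd (nat_lit 5) (.nd (nat_lit 6) 
(.lf (nat_lit 189077) (.g (nat_lit 2198) (.e (nat_lit 65569) (nat_lit 3) (.e (nat_lit 98359) (nat_lit 26) (.e (nat_lit 426286) (nat_lit 10) (.e (nat_lit 434245) (nat_lit 28) (.e (nat_lit 581376) (nat_lit 3) .nil))))) .nil)) 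
(.lf (nat_lit 189141) (.g (nat_lit 2632) (.e (nat_lit 65569) (nat_lit 3) (.e (nat_lit 98372) (nat_lit 29) (.e (nat_lit 450588) (nat_lit 10) (.e (nat_lit 581376) (nat_lit 3) .nil)))) .nil))) (.nd (nat_lit 6) 
(.lf (nat_lit 189109) (.g (nat_lit 1837) (.e (nat_lit 65569) (nat_lit 3) (.e (nat_lit 98370) (nat_lit 28) (.e (nat_lit 442427) (nat_lit 23) (.e (nat_lit 212736) (nat_lit 1) .nil)))) .nil)) 
(.lf (nat_lit 189173) (.g (nat_lit 3167) (.e (nat_lit 65569) (nat_lit 3) (.e (nat_lit 98373) (nat_lit 29) (.e (nat_lit 450587) (nat_lit 10) (.e (nat_lit 573475) (nat_lit 12) .nil)))) .nil))))) (.nd (nat_lit 4) (.nd (nat_lit 5) (.nd (nat_lit 6) 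
(.lf (nat_lit 189069) (.g (nat_lit 3865) (.e (nat_lit 65569) (nat_lit 3) (.e (nat_lit 98359) (nat_lit 26) (.e (nat_lit 426211) (nat_lit 9) (.e (nat_lit 426125) (nat_lit 2) (.e (nat_lit 196615) (nat_lit 0) (.e (nat_lit 42) (nat_lit 0) (.e (nat_lit 2024) (nat_lit 140) (.e (nat_lit 688177) (nat_lit 16) .nil)))))))) (.g (nat_lit 4) .nil .nil))) 
(.lf (nat_lit 189133) (.g (nat_lit 3837) (.e (nat_lit 65569) (nat_lit 3) (.e (nat_lit 98372) (nat_lit 29) (.e (nat_lit 450586) (nat_lit 10) (.e (nat_lit 573473) (nat_lit 12) (.e (nat_lit 57353) (nat_lit 0) (.e (nat_lit 7125) (nat_lit 382) (.e (nat_lit 1201) (nat_lit 88) .nil))))))) (.g (nat_lit 0) .nil .nil)))) (.nd (nat_lit 6) 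
(.lf (nat_lit 189101) (.g (nat_lit 2164) (.e (nat_lit 65569) (nat_lit 3) (.e (nat_lit 98359) (nat_lit 26) (.e (nat_lit 426286) (nat_lit 10) (.e (nat_lit 434248) (nat_lit 28) (.e (nat_lit 573476) (nat_lit 12) .nil))))) .nil)) 
(.lf (nat_lit 189165) (.g (nat_lit 3807) (.e (nat_lit 65569) (nat_lit 3) (.e (nat_lit 98372) (nat_lit 29) (.e (nat_lit 450588) (nat_lit 10) (.e (nat_lit 573475) (nat_lit 12) (.e (nat_lit 57571) (nat_lit 54) .nil))))) .nil)))) (.nd (nat_lit 5) (.nd (nat_lit 6) 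
(.lf (nat_lit 189085) (.g (nat_lit 3124) (.e (nat_lit 65569) (nat_lit 3) (.e (nat_lit 98359) (nat_lit 26) (.e (nat_lit 426286) (nat_lit 10) (.e (nat_lit 434245) (nat_lit 28) (.e (nat_lit 573474) (nat_lit 12) (.e (nat_lit 57354) (nat_lit 0) (.e (nat_lit 7147) (nat_lit 382) (.e (nat_lit 1204) (nat_lit 88) .nil)))))))) (.g (nat_lit 5) .nil .nil))) 
(.lf (nat_lit 189149) (.g (nat_lit 3784) (.e (nat_lit 65569) (nat_lit 3) (.e (nat_lit 98372) (nat_lit 29) (.e (nat_lit 450588) (nat_lit 10) (.e (nat_lit 573473) (nat_lit 12) (.e (nat_lit 57352) (nat_lit 0) (.e (nat_lit 7122) (nat_lit 382) (.e (nat_lit 1201) (nat_lit 88) .nil))))))) (.g (nat_lit 4) .nil .nil)))) (.nd (nat_lit 6) 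
(.lf (nat_lit 189117) (.g (nat_lit 2248) (.e (nat_lit 65569) (nat_lit 3) (.e (nat_lit 98372) (nat_lit 29) (.e (nat_lit 450579) (nat_lit 5) (.e (nat_lit 532501) (nat_lit 1) (.e (nat_lit 57767) (nat_lit 221) (.e (nat_lit 1197) (nat_lit 88) .nil)))))) (.g (nat_lit 4) .nil .nil))) 
(.lf (nat_lit 189181) (.g (nat_lit 4471) (.e (nat_lit 65569) (nat_lit 3) (.e (nat_lit 98373) (nat_lit 29) (.e (nat_lit 450588) (nat_lit 10) (.e (nat_lit 573473) (nat_lit 12) (.e (nat_lit 57347) (nat_lit 0) (.e (nat_lit 7125) (nat_lit 382) (.e (nat_lit 1201) (nat_lit 88) .nil))))))) (.g (nat_lit 6) .nil .nil)))))))) 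
(.nd (nat_lit 2) (.nd (nat_lit 3) (.nd (nat_lit 4) (.nd (nat_lit 5) (.nd (nat_lit 6) 
(.lf (nat_lit 189059) (.g (nat_lit 1152) (.e (nat_lit 65569) (nat_lit 3) (.e (nat_lit 98358) (nat_lit 26) (.e (nat_lit 426294) (nat_lit 11) .nil))) .nil)) 
(.lf (nat_lit 189123) (.g (nat_lit 2444) (.e (nat_lit 65569) (nat_lit 3) (.e (nat_lit 98372) (nat_lit 29) (.e (nat_lit 450579) (nat_lit 5) (.e (nat_lit 532503) (nat_lit 1) (.e (nat_lit 65280) (nat_lit 221) (.e (nat_lit 1199) (nat_lit 88) .nil)))))) (.g (nat_lit 4) .nil .nil)))) (.nd (nat_lit 6) 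
(.lf (nat_lit 189091) (.g (nat_lit 1923) (.e (nat_lit 65569) (nat_lit 3) (.e (nat_lit 98359) (nat_lit 26) (.e (nat_lit 426286) (nat_lit 10) (.e (nat_lit 434248) (nat_lit 28) (.e (nat_lit 573473) (nat_lit 12) .nil))))) .nil)) 
(.lf (nat_lit 189155) (.g (nat_lit 2011) (.e (nat_lit 65569) (nat_lit 3) (.e (nat_lit 98372) (nat_lit 29) (.e (nat_lit 450588) (nat_lit 10) (.e (nat_lit 573475) (nat_lit 12) .nil)))) .nil)))) (.nd (nat_lit 5) (.nd (nat_lit 6) 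
(.lf (nat_lit 189075) (.g (nat_lit 3556) (.e (nat_lit 65569) (nat_lit 3) (.e (nat_lit 98359) (nat_lit 26) (.e (nat_lit 426286) (nat_lit 10) (.e (nat_lit 434242) (nat_lit 28) (.e (nat_lit 573474) (nat_lit 12) (.e (nat_lit 57348) (nat_lit 0) (.e (nat_lit 7124) (nat_lit 382) (.e (nat_lit 1201) (nat_lit 88) .nil)))))))) (.g (nat_lit 5) .nil .nil))) 
(.lf (nat_lit 189139) (.g (nat_lit 1254) (.e (nat_lit 65569) (nat_lit 3) (.e (nat_lit 98372) (nat_lit 29) (.e (nat_lit 450586) (nat_lit 10) (.e (nat_lit 573503) (nat_lit 18) .nil)))) .nil))) (.nd (nat_lit 6) 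
(.lf (nat_lit 189107) (.g (nat_lit 523) (.e (nat_lit 65569) (nat_lit 3) (.e (nat_lit 98370) (nat_lit 28) (.e (nat_lit 442427) (nat_lit 23) .nil))) .nil)) 
(.lf (nat_lit 189171) (.g (nat_lit 3888) (.e (nat_lit 65569) (nat_lit 3) (.e (nat_lit 98373) (nat_lit 29) (.e (nat_lit 450587) (nat_lit 10) (.e (nat_lit 573473) (nat_lit 12) .nil)))) .nil))))) (.nd (nat_lit 4) (.nd (nat_lit 5) (.nd (nat_lit 6) 
(.lf (nat_lit 189067) (.g (nat_lit 3901) (.e (nat_lit 65569) (nat_lit 3) (.e (nat_lit 98359) (nat_lit 26) (.e (nat_lit 426211) (nat_lit 9) (.e (nat_lit 426125) (nat_lit 2) (.e (nat_lit 196612) (nat_lit 0) .nil))))) .nil)) 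
(.lf (nat_lit 189131) (.g (nat_lit 2305) (.e (nat_lit 65569) (nat_lit 3) (.e (nat_lit 98372) (nat_lit 29) (.e (nat_lit 450586) (nat_lit 10) (.e (nat_lit 573451) (nat_lit 9) (.e (nat_lit 1035) (nat_lit 81) .nil))))) .nil))) (.nd (nat_lit 6) 
(.lf (nat_lit 189099) (.g (nat_lit 2506) (.e (nat_lit 65569) (nat_lit 3) (.e (nat_lit 98359) (nat_lit 26) (.e (nat_lit 426286) (nat_lit 10) (.e (nat_lit 434248) (nat_lit 28) (.e (nat_lit 573475) (nat_lit 12) (.e (nat_lit 65280) (nat_lit 0) (.e (nat_lit 7236) (nat_lit 382) (.e (nat_lit 1199) (nat_lit 88) .nil)))))))) (.g (nat_lit 4) .nil .nil))) 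
(.lf (nat_lit 189163) (.g (nat_lit 3541) (.e (nat_lit 65569) (nat_lit 3) (.e (nat_lit 98372) (nat_lit 29) (.e (nat_lit 450588) (nat_lit 10) (.e (nat_lit 573475) (nat_lit 12) (.e (nat_lit 57570) (nat_lit 54) (.e (nat_lit 770071) (nat_lit 8) .nil)))))) (.g (nat_lit 4) .nil .nil))))) (.nd (nat_lit 5) (.nd (nat_lit 6) 
(.lf (nat_lit 189083) (.g (nat_lit 3529) (.e (nat_lit 65569) (nat_lit 3) (.e (nat_lit 98359) (nat_lit 26) (.e (nat_lit 426286) (nat_lit 10) (.e (nat_lit 434245) (nat_lit 28) (.e (nat_lit 573474) (nat_lit 12) (.e (nat_lit 57353) (nat_lit 0) (.e (nat_lit 7124) (nat_lit 382) (.e (nat_lit 1201) (nat_lit 88) .nil)))))))) (.g (nat_lit 5) .nil .nil))) 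
(.lf (nat_lit 189147) (.g (nat_lit 3798) (.e (nat_lit 65569) (nat_lit 3) (.e (nat_lit 98372) (nat_lit 29) (.e (nat_lit 450588) (nat_lit 10) (.e (nat_lit 573473) (nat_lit 12) (.e (nat_lit 57348) (nat_lit 0) (.e (nat_lit 7124) (nat_lit 382) (.e (nat_lit 1201) (nat_lit 88) .nil))))))) (.g (nat_lit 4) .nil .nil)))) (.nd (nat_lit 6) 
(.lf (nat_lit 189115) (.g (nat_lit 1561) (.e (nat_lit 65569) (nat_lit 3) (.e (nat_lit 98372) (nat_lit 29) (.e (nat_lit 450579) (nat_lit 5) (.e (nat_lit 532499) (nat_lit 1) (.e (nat_lit 65280) (nat_lit 221) .nil))))) .nil)) 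
(.lf (nat_lit 189179) (.g (nat_lit 3161) (.e (nat_lit 65569) (nat_lit 3) (.e (nat_lit 98373) (nat_lit 29) (.e (nat_lit 450588) (nat_lit 10) (.e (nat_lit 573472) (nat_lit 12) .nil)))) .nil)))))) (.nd (nat_lit 3) (.nd (nat_lit 4) (.nd (nat_lit 5) (.nd (nat_lit 6) 
(.lf (nat_lit 189063) (.g (nat_lit 2977) (.e (nat_lit 65569) (nat_lit 3) (.e (nat_lit 98359) (nat_lit 26) (.e (nat_lit 426171) (nat_lit 7) (.e (nat_lit 409616) (nat_lit 10) (.e (nat_lit 604) (nat_lit 45) (.e (nat_lit 532504) (nat_lit 1) (.e (nat_lit 57829) (nat_lit 250) (.e (nat_lit 1201) (nat_lit 88) .nil)))))))) (.g (nat_lit 4) .nil .nil))) 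
(.lf (nat_lit 189127) (.g (nat_lit 2449) (.e (nat_lit 65569) (nat_lit 3) (.e (nat_lit 98372) (nat_lit 29) (.e (nat_lit 450579) (nat_lit 5) (.e (nat_lit 532504) (nat_lit 1) (.e (nat_lit 65280) (nat_lit 221) (.e (nat_lit 1197) (nat_lit 88) .nil)))))) (.g (nat_lit 4) .nil .nil)))) (.nd (nat_lit 6) 
(.lf (nat_lit 189095) (.g (nat_lit 2199) (.e (nat_lit 65569) (nat_lit 3) (.e (nat_lit 98359) (nat_lit 26) (.e (nat_lit 426286) (nat_lit 10) (.e (nat_lit 434248) (nat_lit 28) (.e (nat_lit 573475) (nat_lit 12) (.e (nat_lit 57347) (nat_lit 0) (.e (nat_lit 7125) (nat_lit 382) (.e (nat_lit 1193) (nat_lit 88) .nil)))))))) (.g (nat_lit 4) .nil .nil))) 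
(.lf (nat_lit 189159) (.g (nat_lit 3803) (.e (nat_lit 65569) (nat_lit 3) (.e (nat_lit 98372) (nat_lit 29) (.e (nat_lit 450588) (nat_lit 10) (.e (nat_lit 573475) (nat_lit 12) (.e (nat_lit 57348) (nat_lit 0) (.e (nat_lit 7124) (nat_lit 382) (.e (nat_lit 1201) (nat_lit 88) .nil))))))) (.g (nat_lit 4) .nil .nil))))) (.nd (nat_lit 5) (.nd (nat_lit 6) 
(.lf (nat_lit 189079) (.g (nat_lit 4422) (.e (nat_lit 65569) (nat_lit 3) (.e (nat_lit 98359) (nat_lit 26) (.e (nat_lit 426286) (nat_lit 10) (.e (nat_lit 434245) (nat_lit 28) (.e (nat_lit 573473) (nat_lit 12) (.e (nat_lit 57353) (nat_lit 0) (.e (nat_lit 7125) (nat_lit 382) (.e (nat_lit 1201) (nat_lit 88) .nil)))))))) (.g (nat_lit 0) .nil .nil))) 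
(.lf (nat_lit 189143) (.g (nat_lit 2051) (.e (nat_lit 65569) (nat_lit 3) (.e (nat_lit 98372) (nat_lit 29) (.e (nat_lit 450588) (nat_lit 10) (.e (nat_lit 573473) (nat_lit 12) .nil)))) .nil))) (.nd (nat_lit 6) 
(.lf (nat_lit 189111) (.g (nat_lit 679) (.e (nat_lit 65569) (nat_lit 3) (.e (nat_lit 98370) (nat_lit 28) (.e (nat_lit 442433) (nat_lit 25) .nil))) .nil)) 
(.lf (nat_lit 189175) (.g (nat_lit 1307) (.e (nat_lit 65569) (nat_lit 3) (.e (nat_lit 98373) (nat_lit 29) (.e (nat_lit 450587) (nat_lit 10) (.e (nat_lit 573478) (nat_lit 12) .nil)))) .nil))))) (.nd (nat_lit 4) (.nd (nat_lit 5) (.nd (nat_lit 6) 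
(.lf (nat_lit 189071) (.g (nat_lit 626) (.e (nat_lit 65569) (nat_lit 3) (.e (nat_lit 98359) (nat_lit 26) (.e (nat_lit 426285) (nat_lit 10) .nil))) .nil)) 
(.lf (nat_lit 189135) (.g (nat_lit 2011) (.e (nat_lit 65569) (nat_lit 3) (.e (nat_lit 98372) (nat_lit 29) (.e (nat_lit 450586) (nat_lit 10) (.e (nat_lit 573475) (nat_lit 12) (.e (nat_lit 57344) (nat_lit 0) .nil))))) .nil))) (.nd (nat_lit 6) 
(.lf (nat_lit 189103) (.g (nat_lit 667) (.e (nat_lit 65569) (nat_lit 3) (.e (nat_lit 98370) (nat_lit 28) (.e (nat_lit 442394) (nat_lit 20) .nil))) .nil)) 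
(.lf (nat_lit 189167) (.g (nat_lit 1396) (.e (nat_lit 65569) (nat_lit 3) (.e (nat_lit 98373) (nat_lit 29) (.e (nat_lit 458496) (nat_lit 3) (.e (nat_lit 516097) (nat_lit 0) (.e (nat_lit 3377) (nat_lit 209) (.e (nat_lit 630821) (nat_lit 16) .nil)))))) (.g (nat_lit 4) .nil .nil))))) (.nd (nat_lit 5) (.nd (nat_lit 6) 
(.lf (nat_lit 189087) (.g (nat_lit 3348) (.e (nat_lit 65569) (nat_lit 3) (.e (nat_lit 98359) (nat_lit 26) (.e (nat_lit 426286) (nat_lit 10) (.e (nat_lit 434245) (nat_lit 28) (.e (nat_lit 573474) (nat_lit 12) (.e (nat_lit 57571) (nat_lit 54) (.e (nat_lit 770071) (nat_lit 8) .nil))))))) (.g (nat_lit 5) .nil .nil))) 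
(.lf (nat_lit 189151) (.g (nat_lit 3744) (.e (nat_lit 65569) (nat_lit 3) (.e (nat_lit 98372) (nat_lit 29) (.e (nat_lit 450588) (nat_lit 10) (.e (nat_lit 573473) (nat_lit 12) (.e (nat_lit 57353) (nat_lit 0) (.e (nat_lit 7124) (nat_lit 382) (.e (nat_lit 1201) (nat_lit 88) .nil))))))) (.g (nat_lit 4) .nil .nil)))) (.nd (nat_lit 6) 
(.lf (nat_lit 189119) (.g (nat_lit 2382) (.e (nat_lit 65569) (nat_lit 3) (.e (nat_lit 98372) (nat_lit 29) (.e (nat_lit 450579) (nat_lit 5) (.e (nat_lit 532501) (nat_lit 1) (.e (nat_lit 65280) (nat_lit 221) (.e (nat_lit 1189) (nat_lit 88) .nil)))))) (.g (nat_lit 4) .nil .nil))) 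
(.lf (nat_lit 189183) (.g (nat_lit 2385) (.e (nat_lit 65569) (nat_lit 3) (.e (nat_lit 98373) (nat_lit 29) (.e (nat_lit 450588) (nat_lit 10) (.e (nat_lit 573473) (nat_lit 12) (.e (nat_lit 57354) (nat_lit 0) .nil))))) .nil)))))))))

noncomputable def tv2507 : DT := (.nd (nat_lit 0) (.nd (nat_lit 1) (.nd (nat_lit 2) (.nd (nat_lit 3) (.nd (nat_lit 4) (.nd (nat_lit 5) (.nd (nat_lit 6) 
(.lf (nat_lit 189184) (.g (nat_lit 2601) (.e (nat_lit 65569) (nat_lit 3) (.e (nat_lit 98373) (nat_lit 29) (.e (nat_lit 450588) (nat_lit 10) (.e (nat_lit 573473) (nat_lit 12) (.e (nat_lit 57570) (nat_lit 54) .nil))))) .nil)) 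
(.lf (nat_lit 189248) (.g (nat_lit 1810) (.e (nat_lit 65570) (nat_lit 3) (.e (nat_lit 98333) (nat_lit 18) (.e (nat_lit 164196) (nat_lit 158) (.e (nat_lit 1086) (nat_lit 81) .nil)))) .nil))) (.nd (nat_lit 6) 
(.lf (nat_lit 189216) (.g (nat_lit 2342) (.e (nat_lit 65569) (nat_lit 3) (.e (nat_lit 98389) (nat_lit 33) (.e (nat_lit 491558) (nat_lit 10) (.e (nat_lit 344117) (nat_lit 21) (.e (nat_lit 516098) (nat_lit 0) (.e (nat_lit 7587) (nat_lit 406) .nil)))))) (.g (nat_lit 4) .nil .nil))) 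
(.lf (nat_lit 189280) (.g (nat_lit 1291) (.e (nat_lit 65570) (nat_lit 3) (.e (nat_lit 98350) (nat_lit 24) (.e (nat_lit 409647) (nat_lit 18) (.e (nat_lit 303118) (nat_lit 3) .nil)))) .nil)))) (.nd (nat_lit 5) (.nd (nat_lit 6) 
(.lf (nat_lit 189200) (.g (nat_lit 1672) (.e (nat_lit 65569) (nat_lit 3) (.e (nat_lit 98388) (nat_lit 33) (.e (nat_lit 491560) (nat_lit 10) (.e (nat_lit 344115) (nat_lit 20) .nil)))) .nil)) 
(.lf (nat_lit 189264) (.g (nat_lit 2400) (.e (nat_lit 65570) (nat_lit 3) (.e (nat_lit 98350) (nat_lit 24) (.e (nat_lit 409617) (nat_lit 10) (.e (nat_lit 5355) (nat_lit 298) (.e (nat_lit 1235) (nat_lit 91) (.e (nat_lit 90165) (nat_lit 12) (.e (nat_lit 171776) (nat_lit 191) .nil))))))) (.g (nat_lit 4) .nil .nil)))) (.nd (nat_lit 6) 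
(.lf (nat_lit 189232) (.g (nat_lit 1528) (.e (nat_lit 65570) (nat_lit 3) (.e (nat_lit 98319) (nat_lit 17) (.e (nat_lit 7593) (nat_lit 407) (.e (nat_lit 73746) (nat_lit 3) (.e (nat_lit 516105) (nat_lit 0) (.e (nat_lit 7936) (nat_lit 406) .nil)))))) (.g (nat_lit 4) .nil .nil))) 
(.lf (nat_lit 189296) (.g (nat_lit 1696) (.e (nat_lit 65570) (nat_lit 3) (.e (nat_lit 98359) (nat_lit 26) (.e (nat_lit 426286) (nat_lit 10) (.e (nat_lit 434245) (nat_lit 28) .nil)))) .nil))))) (.nd (nat_lit 4) (.nd (nat_lit 5) (.nd (nat_lit 6) 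
(.lf (nat_lit 189192) (.g (nat_lit 3624) (.e (nat_lit 65569) (nat_lit 3) (.e (nat_lit 98373) (nat_lit 29) (.e (nat_lit 450588) (nat_lit 10) (.e (nat_lit 573503) (nat_lit 18) (.e (nat_lit 1014) (nat_lit 81) (.e (nat_lit 720) (nat_lit 64) (.e (nat_lit 688177) (nat_lit 16) .nil))))))) (.g (nat_lit 4) .nil .nil))) 
(.lf (nat_lit 189256) (.g (nat_lit 1877) (.e (nat_lit 65570) (nat_lit 3) (.e (nat_lit 98342) (nat_lit 20) (.e (nat_lit 221212) (nat_lit 22) (.e (nat_lit 196660) (nat_lit 12) .nil)))) .nil))) (.nd (nat_lit 6) 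
(.lf (nat_lit 189224) (.g (nat_lit 1943) (.e (nat_lit 65569) (nat_lit 3) (.e (nat_lit 98389) (nat_lit 33) (.e (nat_lit 491560) (nat_lit 10) (.e (nat_lit 344115) (nat_lit 20) (.e (nat_lit 507908) (nat_lit 0) (.e (nat_lit 5401) (nat_lit 302) .nil)))))) (.g (nat_lit 4) .nil .nil))) 
(.lf (nat_lit 189288) (.g (nat_lit 2736) (.e (nat_lit 65570) (nat_lit 3) (.e (nat_lit 98350) (nat_lit 24) (.e (nat_lit 409649) (nat_lit 18) (.e (nat_lit 303118) (nat_lit 3) (.e (nat_lit 204819) (nat_lit 17) .nil))))) .nil)))) (.nd (nat_lit 5) (.nd (nat_lit 6) 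
(.lf (nat_lit 189208) (.g (nat_lit 1920) (.e (nat_lit 65569) (nat_lit 3) (.e (nat_lit 98389) (nat_lit 33) (.e (nat_lit 491558) (nat_lit 10) (.e (nat_lit 344115) (nat_lit 20) (.e (nat_lit 507906) (nat_lit 0) (.e (nat_lit 5405) (nat_lit 302) .nil)))))) (.g (nat_lit 4) .nil .nil))) 
(.lf (nat_lit 189272) (.g (nat_lit 2431) (.e (nat_lit 65570) (nat_lit 3) (.e (nat_lit 98350) (nat_lit 24) (.e (nat_lit 409644) (nat_lit 18) (.e (nat_lit 303119) (nat_lit 3) (.e (nat_lit 204821) (nat_lit 17) .nil))))) .nil))) (.nd (nat_lit 6) 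
(.lf (nat_lit 189240) (.g (nat_lit 2222) (.e (nat_lit 65570) (nat_lit 3) (.e (nat_lit 98333) (nat_lit 18) (.e (nat_lit 164179) (nat_lit 154) (.e (nat_lit 57347) (nat_lit 0) .nil)))) .nil)) 
(.lf (nat_lit 189304) (.g (nat_lit 2388) (.e (nat_lit 65570) (nat_lit 3) (.e (nat_lit 98372) (nat_lit 29) (.e (nat_lit 450579) (nat_lit 5) (.e (nat_lit 532501) (nat_lit 1) (.e (nat_lit 57766) (nat_lit 221) .nil))))) .nil)))))) (.nd (nat_lit 3) (.nd (nat_lit 4) (.nd (nat_lit 5) (.nd (nat_lit 6) 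
(.lf (nat_lit 189188) (.g (nat_lit 3351) (.e (nat_lit 65569) (nat_lit 3) (.e (nat_lit 98373) (nat_lit 29) (.e (nat_lit 450588) (nat_lit 10) (.e (nat_lit 573475) (nat_lit 12) (.e (nat_lit 57571) (nat_lit 54) (.e (nat_lit 770071) (nat_lit 8) .nil)))))) (.g (nat_lit 4) .nil .nil))) 
(.lf (nat_lit 189252) (.g (nat_lit 841) (.e (nat_lit 65570) (nat_lit 3) (.e (nat_lit 98334) (nat_lit 18) (.e (nat_lit 171776) (nat_lit 160) .nil))) .nil))) (.nd (nat_lit 6) 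
(.lf (nat_lit 189220) (.g (nat_lit 1760) (.e (nat_lit 65569) (nat_lit 3) (.e (nat_lit 98389) (nat_lit 33) (.e (nat_lit 491560) (nat_lit 10) (.e (nat_lit 344115) (nat_lit 20) (.e (nat_lit 507906) (nat_lit 0) (.e (nat_lit 5405) (nat_lit 302) .nil)))))) (.g (nat_lit 4) .nil .nil))) 
(.lf (nat_lit 189284) (.g (nat_lit 2796) (.e (nat_lit 65570) (nat_lit 3) (.e (nat_lit 98350) (nat_lit 24) (.e (nat_lit 409648) (nat_lit 18) (.e (nat_lit 303119) (nat_lit 3) (.e (nat_lit 204819) (nat_lit 17) (.e (nat_lit 7936) (nat_lit 347) .nil)))))) (.g (nat_lit 4) .nil .nil))))) (.nd (nat_lit 5) (.nd (nat_lit 6) 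
(.lf (nat_lit 189204) (.g (nat_lit 2583) (.e (nat_lit 65569) (nat_lit 3) (.e (nat_lit 98388) (nat_lit 33) (.e (nat_lit 491560) (nat_lit 10) (.e (nat_lit 344115) (nat_lit 20) (.e (nat_lit 507908) (nat_lit 0) (.e (nat_lit 5406) (nat_lit 302) .nil)))))) (.g (nat_lit 4) .nil .nil))) 
(.lf (nat_lit 189268) (.g (nat_lit 2307) (.e (nat_lit 65570) (nat_lit 3) (.e (nat_lit 98350) (nat_lit 24) (.e (nat_lit 409641) (nat_lit 17) (.e (nat_lit 294928) (nat_lit 2) (.e (nat_lit 90165) (nat_lit 12) .nil))))) .nil))) (.nd (nat_lit 6) 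
(.lf (nat_lit 189236) (.g (nat_lit 2949) (.e (nat_lit 65570) (nat_lit 3) (.e (nat_lit 98323) (nat_lit 17) (.e (nat_lit 6989) (nat_lit 377) (.e (nat_lit 2777) (nat_lit 178) (.e (nat_lit 286733) (nat_lit 2) .nil))))) .nil)) 
(.lf (nat_lit 189300) (.g (nat_lit 617) (.e (nat_lit 65570) (nat_lit 3) (.e (nat_lit 98370) (nat_lit 28) (.e (nat_lit 442427) (nat_lit 23) .nil))) .nil))))) (.nd (nat_lit 4) (.nd (nat_lit 5) (.nd (nat_lit 6) 
(.lf (nat_lit 189196) (.g (nat_lit 273) (.e (nat_lit 65569) (nat_lit 3) (.e (nat_lit 98381) (nat_lit 31) (.e (nat_lit 466977) (nat_lit 22) .nil))) .nil)) 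
(.lf (nat_lit 189260) (.g (nat_lit 3375) (.e (nat_lit 65570) (nat_lit 3) (.e (nat_lit 98349) (nat_lit 24) (.e (nat_lit 409645) (nat_lit 18) (.e (nat_lit 303119) (nat_lit 3) (.e (nat_lit 204821) (nat_lit 17) (.e (nat_lit 7936) (nat_lit 347) .nil)))))) (.g (nat_lit 5) .nil .nil)))) (.nd (nat_lit 6) 
(.lf (nat_lit 189228) (.g (nat_lit 2239) (.e (nat_lit 65569) (nat_lit 3) (.e (nat_lit 98389) (nat_lit 33) (.e (nat_lit 491560) (nat_lit 10) (.e (nat_lit 344117) (nat_lit 21) (.e (nat_lit 516098) (nat_lit 0) (.e (nat_lit 7587) (nat_lit 406) .nil)))))) (.g (nat_lit 4) .nil .nil))) 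
(.lf (nat_lit 189292) (.g (nat_lit 1812) (.e (nat_lit 65570) (nat_lit 3) (.e (nat_lit 98350) (nat_lit 24) (.e (nat_lit 417536) (nat_lit 18) (.e (nat_lit 303119) (nat_lit 3) (.e (nat_lit 204821) (nat_lit 17) (.e (nat_lit 7936) (nat_lit 347) .nil)))))) (.g (nat_lit 4) .nil .nil))))) (.nd (nat_lit 5) (.nd (nat_lit 6) 
(.lf (nat_lit 189212) (.g (nat_lit 1930) (.e (nat_lit 65569) (nat_lit 3) (.e (nat_lit 98389) (nat_lit 33) (.e (nat_lit 491558) (nat_lit 10) (.e (nat_lit 344115) (nat_lit 20) (.e (nat_lit 507908) (nat_lit 0) (.e (nat_lit 5401) (nat_lit 302) .nil)))))) (.g (nat_lit 4) .nil .nil))) 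
(.lf (nat_lit 189276) (.g (nat_lit 3115) (.e (nat_lit 65570) (nat_lit 3) (.e (nat_lit 98350) (nat_lit 24) (.e (nat_lit 409645) (nat_lit 18) (.e (nat_lit 303119) (nat_lit 3) (.e (nat_lit 204821) (nat_lit 17) (.e (nat_lit 7936) (nat_lit 347) .nil)))))) (.g (nat_lit 4) .nil .nil)))) (.nd (nat_lit 6) 
(.lf (nat_lit 189244) (.g (nat_lit 2231) (.e (nat_lit 65570) (nat_lit 3) (.e (nat_lit 98333) (nat_lit 18) (.e (nat_lit 164179) (nat_lit 154) (.e (nat_lit 57349) (nat_lit 0) .nil)))) .nil)) 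
(.lf (nat_lit 189308) (.g (nat_lit 2520) (.e (nat_lit 65570) (nat_lit 3) (.e (nat_lit 98372) (nat_lit 29) (.e (nat_lit 450579) (nat_lit 5) (.e (nat_lit 532503) (nat_lit 1) (.e (nat_lit 65280) (nat_lit 221) (.e (nat_lit 1189) (nat_lit 88) .nil)))))) (.g (nat_lit 4) .nil .nil)))))))) (.nd (nat_lit 2) (.nd (nat_lit 3) (.nd (nat_lit 4) (.nd (nat_lit 5) (.nd (nat_lit 6) 
(.lf (nat_lit 189186) (.g (nat_lit 1578) (.e (nat_lit 65569) (nat_lit 3) (.e (nat_lit 98373) (nat_lit 29) (.e (nat_lit 450588) (nat_lit 10) (.e (nat_lit 573475) (nat_lit 12) .nil)))) .nil)) 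
(.lf (nat_lit 189250) (.g (nat_lit 1758) (.e (nat_lit 65570) (nat_lit 3) (.e (nat_lit 98334) (nat_lit 18) (.e (nat_lit 164182) (nat_lit 154) (.e (nat_lit 57357) (nat_lit 0) .nil)))) .nil))) (.nd (nat_lit 6) 
(.lf (nat_lit 189218) (.g (nat_lit 1354) (.e (nat_lit 65569) (nat_lit 3) (.e (nat_lit 98389) (nat_lit 33) (.e (nat_lit 491560) (nat_lit 10) (.e (nat_lit 344105) (nat_lit 19) .nil)))) .nil)) 
(.lf (nat_lit 189282) (.g (nat_lit 2407) (.e (nat_lit 65570) (nat_lit 3) (.e (nat_lit 98350) (nat_lit 24) (.e (nat_lit 409647) (nat_lit 18) (.e (nat_lit 303119) (nat_lit 3) (.e (nat_lit 204821) (nat_lit 17) (.e (nat_lit 7936) (nat_lit 347) .nil)))))) (.g (nat_lit 4) .nil .nil))))) (.nd (nat_lit 5) (.nd (nat_lit 6) 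
(.lf (nat_lit 189202) (.g (nat_lit 2547) (.e (nat_lit 65569) (nat_lit 3) (.e (nat_lit 98388) (nat_lit 33) (.e (nat_lit 491560) (nat_lit 10) (.e (nat_lit 344115) (nat_lit 20) (.e (nat_lit 507907) (nat_lit 0) (.e (nat_lit 5406) (nat_lit 302) .nil)))))) (.g (nat_lit 4) .nil .nil))) 
(.lf (nat_lit 189266) (.g (nat_lit 1344) (.e (nat_lit 65570) (nat_lit 3) (.e (nat_lit 98350) (nat_lit 24) (.e (nat_lit 409640) (nat_lit 17) (.e (nat_lit 294928) (nat_lit 2) .nil)))) .nil))) (.nd (nat_lit 6) 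
(.lf (nat_lit 189234) (.g (nat_lit 2051) (.e (nat_lit 65570) (nat_lit 3) (.e (nat_lit 98320) (nat_lit 17) (.e (nat_lit 7593) (nat_lit 407) (.e (nat_lit 73746) (nat_lit 3) (.e (nat_lit 516104) (nat_lit 0) (.e (nat_lit 7936) (nat_lit 406) .nil)))))) (.g (nat_lit 5) .nil .nil))) 
(.lf (nat_lit 189298) (.g (nat_lit 2604) (.e (nat_lit 65570) (nat_lit 3) (.e (nat_lit 98367) (nat_lit 27) (.e (nat_lit 434275) (nat_lit 39) (.e (nat_lit 663580) (nat_lit 9) (.e (nat_lit 2663) (nat_lit 167) .nil))))) .nil))))) (.nd (nat_lit 4) (.nd (nat_lit 5) (.nd (nat_lit 6) 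
(.lf (nat_lit 189194) (.g (nat_lit 2946) (.e (nat_lit 65569) (nat_lit 3) (.e (nat_lit 98374) (nat_lit 29) (.e (nat_lit 450585) (nat_lit 10) (.e (nat_lit 573474) (nat_lit 12) (.e (nat_lit 57572) (nat_lit 54) (.e (nat_lit 770072) (nat_lit 8) .nil)))))) (.g (nat_lit 4) .nil .nil))) 
(.lf (nat_lit 189258) (.g (nat_lit 2852) (.e (nat_lit 65570) (nat_lit 3) (.e (nat_lit 98349) (nat_lit 24) (.e (nat_lit 409645) (nat_lit 18) (.e (nat_lit 303117) (nat_lit 2) (.e (nat_lit 196661) (nat_lit 12) .nil))))) .nil))) (.nd (nat_lit 6) 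
(.lf (nat_lit 189226) (.g (nat_lit 1915) (.e (nat_lit 65569) (nat_lit 3) (.e (nat_lit 98389) (nat_lit 33) (.e (nat_lit 491560) (nat_lit 10) (.e (nat_lit 344115) (nat_lit 20) (.e (nat_lit 507908) (nat_lit 0) (.e (nat_lit 5405) (nat_lit 302) .nil)))))) (.g (nat_lit 4) .nil .nil))) 
(.lf (nat_lit 189290) (.g (nat_lit 2488) (.e (nat_lit 65570) (nat_lit 3) (.e (nat_lit 98350) (nat_lit 24) (.e (nat_lit 409649) (nat_lit 18) (.e (nat_lit 303119) (nat_lit 3) (.e (nat_lit 204819) (nat_lit 17) (.e (nat_lit 7936) (nat_lit 347) .nil)))))) (.g (nat_lit 4) .nil .nil))))) (.nd (nat_lit 5) (.nd (nat_lit 6) 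
(.lf (nat_lit 189210) (.g (nat_lit 2323) (.e (nat_lit 65569) (nat_lit 3) (.e (nat_lit 98389) (nat_lit 33) (.e (nat_lit 491558) (nat_lit 10) (.e (nat_lit 344115) (nat_lit 20) (.e (nat_lit 507907) (nat_lit 0) (.e (nat_lit 5403) (nat_lit 302) .nil)))))) (.g (nat_lit 5) .nil .nil))) 
(.lf (nat_lit 189274) (.g (nat_lit 2989) (.e (nat_lit 65570) (nat_lit 3) (.e (nat_lit 98350) (nat_lit 24) (.e (nat_lit 409645) (nat_lit 18) (.e (nat_lit 303119) (nat_lit 3) (.e (nat_lit 204817) (nat_lit 17) .nil))))) .nil))) (.nd (nat_lit 6) 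
(.lf (nat_lit 189242) (.g (nat_lit 3085) (.e (nat_lit 65570) (nat_lit 3) (.e (nat_lit 98333) (nat_lit 18) (.e (nat_lit 164179) (nat_lit 154) (.e (nat_lit 57347) (nat_lit 0) (.e (nat_lit 1854) (nat_lit 124) .nil))))) .nil)) 
(.lf (nat_lit 189306) (.g (nat_lit 2187) (.e (nat_lit 65570) (nat_lit 3) (.e (nat_lit 98372) (nat_lit 29) (.e (nat_lit 450579) (nat_lit 5) (.e (nat_lit 532501) (nat_lit 1) (.e (nat_lit 65280) (nat_lit 221) .nil))))) .nil)))))) (.nd (nat_lit 3) (.nd (nat_lit 4) (.nd (nat_lit 5) (.nd (nat_lit 6) 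
(.lf (nat_lit 189190) (.g (nat_lit 1967) (.e (nat_lit 65569) (nat_lit 3) (.e (nat_lit 98373) (nat_lit 29) (.e (nat_lit 450588) (nat_lit 10) (.e (nat_lit 573503) (nat_lit 18) .nil)))) .nil)) 
(.lf (nat_lit 189254) (.g (nat_lit 746) (.e (nat_lit 65570) (nat_lit 3) (.e (nat_lit 98335) (nat_lit 18) (.e (nat_lit 171776) (nat_lit 160) .nil))) .nil))) (.nd (nat_lit 6) 
(.lf (nat_lit 189222) (.g (nat_lit 2300) (.e (nat_lit 65569) (nat_lit 3) (.e (nat_lit 98389) (nat_lit 33) (.e (nat_lit 491560) (nat_lit 10) (.e (nat_lit 344115) (nat_lit 20) (.e (nat_lit 507907) (nat_lit 0) (.e (nat_lit 5403) (nat_lit 302) .nil)))))) (.g (nat_lit 5) .nil .nil))) 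
(.lf (nat_lit 189286) (.g (nat_lit 2628) (.e (nat_lit 65570) (nat_lit 3) (.e (nat_lit 98350) (nat_lit 24) (.e (nat_lit 409649) (nat_lit 18) (.e (nat_lit 303117) (nat_lit 2) (.e (nat_lit 196661) (nat_lit 12) .nil))))) .nil)))) (.nd (nat_lit 5) (.nd (nat_lit 6) 
(.lf (nat_lit 189206) (.g (nat_lit 2879) (.e (nat_lit 65569) (nat_lit 3) (.e (nat_lit 98389) (nat_lit 33) (.e (nat_lit 491546) (nat_lit 9) (.e (nat_lit 336028) (nat_lit 3) (.e (nat_lit 98325) (nat_lit 17) (.e (nat_lit 7936) (nat_lit 406) .nil)))))) (.g (nat_lit 5) .nil .nil))) 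
(.lf (nat_lit 189270) (.g (nat_lit 2348) (.e (nat_lit 65570) (nat_lit 3) (.e (nat_lit 98350) (nat_lit 24) (.e (nat_lit 409643) (nat_lit 18) (.e (nat_lit 303119) (nat_lit 3) (.e (nat_lit 204821) (nat_lit 17) (.e (nat_lit 7936) (nat_lit 347) .nil)))))) (.g (nat_lit 4) .nil .nil)))) (.nd (nat_lit 6) 
(.lf (nat_lit 189238) (.g (nat_lit 687) (.e (nat_lit 65570) (nat_lit 3) (.e (nat_lit 98333) (nat_lit 18) (.e (nat_lit 164151) (nat_lit 152) .nil))) .nil)) 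
(.lf (nat_lit 189302) (.g (nat_lit 1444) (.e (nat_lit 65570) (nat_lit 3) (.e (nat_lit 98372) (nat_lit 29) (.e (nat_lit 450579) (nat_lit 5) (.e (nat_lit 532484) (nat_lit 0) .nil)))) .nil))))) (.nd (nat_lit 4) (.nd (nat_lit 5) (.nd (nat_lit 6) 
(.lf (nat_lit 189198) (.g (nat_lit 1367) (.e (nat_lit 65569) (nat_lit 3) (.e (nat_lit 98381) (nat_lit 31) (.e (nat_lit 466977) (nat_lit 22) (.e (nat_lit 196649) (nat_lit 10) .nil)))) .nil)) 
(.lf (nat_lit 189262) (.g (nat_lit 2601) (.e (nat_lit 65570) (nat_lit 3) (.e (nat_lit 98349) (nat_lit 24) (.e (nat_lit 409646) (nat_lit 18) (.e (nat_lit 303119) (nat_lit 3) (.e (nat_lit 204819) (nat_lit 17) (.e (nat_lit 7936) (nat_lit 347) .nil)))))) (.g (nat_lit 4) .nil .nil)))) (.nd (nat_lit 6) 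
(.lf (nat_lit 189230) (.g (nat_lit 1087) (.e (nat_lit 65569) (nat_lit 3) (.e (nat_lit 98389) (nat_lit 33) (.e (nat_lit 491560) (nat_lit 10) (.e (nat_lit 344118) (nat_lit 21) .nil)))) .nil)) 
(.lf (nat_lit 189294) (.g (nat_lit 747) (.e (nat_lit 65570) (nat_lit 3) (.e (nat_lit 98359) (nat_lit 26) (.e (nat_lit 426211) (nat_lit 9) .nil))) .nil)))) (.nd (nat_lit 5) (.nd (nat_lit 6) 
(.lf (nat_lit 189214) (.g (nat_lit 1919) (.e (nat_lit 65569) (nat_lit 3) (.e (nat_lit 98389) (nat_lit 33) (.e (nat_lit 491558) (nat_lit 10) (.e (nat_lit 344115) (nat_lit 20) (.e (nat_lit 507908) (nat_lit 0) (.e (nat_lit 5405) (nat_lit 302) .nil)))))) (.g (nat_lit 4) .nil .nil))) 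
(.lf (nat_lit 189278) (.g (nat_lit 3035) (.e (nat_lit 65570) (nat_lit 3) (.e (nat_lit 98350) (nat_lit 24) (.e (nat_lit 409646) (nat_lit 18) (.e (nat_lit 303119) (nat_lit 3) (.e (nat_lit 204819) (nat_lit 17) (.e (nat_lit 7936) (nat_lit 347) .nil)))))) (.g (nat_lit 5) .nil .nil)))) (.nd (nat_lit 6) 
(.lf (nat_lit 189246) (.g (nat_lit 2899) (.e (nat_lit 65570) (nat_lit 3) (.e (nat_lit 98333) (nat_lit 18) (.e (nat_lit 164179) (nat_lit 154) (.e (nat_lit 57379) (nat_lit 3) (.e (nat_lit 98341) (nat_lit 20) .nil))))) .nil)) 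
(.lf (nat_lit 189310) (.g (nat_lit 2195) (.e (nat_lit 65570) (nat_lit 3) (.e (nat_lit 98372) (nat_lit 29) (.e (nat_lit 450579) (nat_lit 5) (.e (nat_lit 532504) (nat_lit 1) (.e (nat_lit 65280) (nat_lit 221) .nil))))) .nil)))))))) (.nd (nat_lit 1) (.nd (nat_lit 2) (.nd (nat_lit 3) (.nd (nat_lit 4) (.nd (nat_lit 5) (.nd (nat_lit 6) 
(.lf (nat_lit 189185) (.g (nat_lit 3191) (.e (nat_lit 65569) (nat_lit 3) (.e (nat_lit 98373) (nat_lit 29) (.e (nat_lit 450588) (nat_lit 10) (.e (nat_lit 573474) (nat_lit 12) (.e (nat_lit 57572) (nat_lit 54) (.e (nat_lit 770071) (nat_lit 8) .nil)))))) (.g (nat_lit 4) .nil .nil))) 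
(.lf (nat_lit 189249) (.g (nat_lit 923) (.e (nat_lit 65570) (nat_lit 3) (.e (nat_lit 98333) (nat_lit 18) (.e (nat_lit 171776) (nat_lit 160) .nil))) .nil))) (.nd (nat_lit 6) 
(.lf (nat_lit 189217) (.g (nat_lit 2022) (.e (nat_lit 65569) (nat_lit 3) (.e (nat_lit 98389) (nat_lit 33) (.e (nat_lit 491558) (nat_lit 10) (.e (nat_lit 344117) (nat_lit 21) (.e (nat_lit 516106) (nat_lit 0) (.e (nat_lit 7936) (nat_lit 406) .nil)))))) (.g (nat_lit 4) .nil .nil))) 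
(.lf (nat_lit 189281) (.g (nat_lit 2459) (.e (nat_lit 65570) (nat_lit 3) (.e (nat_lit 98350) (nat_lit 24) (.e (nat_lit 409647) (nat_lit 18) (.e (nat_lit 303119) (nat_lit 3) (.e (nat_lit 204819) (nat_lit 17) (.e (nat_lit 7936) (nat_lit 347) .nil)))))) (.g (nat_lit 4) .nil .nil))))) (.nd (nat_lit 5) (.nd (nat_lit 6) 
(.lf (nat_lit 189201) (.g (nat_lit 2359) (.e (nat_lit 65569) (nat_lit 3) (.e (nat_lit 98388) (nat_lit 33) (.e (nat_lit 491560) (nat_lit 10) (.e (nat_lit 344115) (nat_lit 20) (.e (nat_lit 507907) (nat_lit 0) .nil))))) .nil)) 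
(.lf (nat_lit 189265) (.g (nat_lit 1383) (.e (nat_lit 65570) (nat_lit 3) (.e (nat_lit 98350) (nat_lit 24) (.e (nat_lit 409623) (nat_lit 10) (.e (nat_lit 5664) (nat_lit 312) (.e (nat_lit 2679) (nat_lit 168) .nil))))) .nil))) (.nd (nat_lit 6) 
(.lf (nat_lit 189233) (.g (nat_lit 2300) (.e (nat_lit 65570) (nat_lit 3) (.e (nat_lit 98320) (nat_lit 17) (.e (nat_lit 7593) (nat_lit 407) (.e (nat_lit 73746) (nat_lit 3) (.e (nat_lit 516100) (nat_lit 0) (.e (nat_lit 7936) (nat_lit 406) .nil)))))) (.g (nat_lit 5) .nil .nil))) 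
(.lf (nat_lit 189297) (.g (nat_lit 892) (.e (nat_lit 65570) (nat_lit 3) (.e (nat_lit 98367) (nat_lit 27) (.e (nat_lit 442112) (nat_lit 1) .nil))) .nil))))) (.nd (nat_lit 4) (.nd (nat_lit 5) (.nd (nat_lit 6) 
(.lf (nat_lit 189193) (.g (nat_lit 2531) (.e (nat_lit 65569) (nat_lit 3) (.e (nat_lit 98373) (nat_lit 29) (.e (nat_lit 450588) (nat_lit 10) (.e (nat_lit 581376) (nat_lit 18) .nil)))) .nil)) 
(.lf (nat_lit 189257) (.g (nat_lit 2568) (.e (nat_lit 65570) (nat_lit 3) (.e (nat_lit 98349) (nat_lit 24) (.e (nat_lit 409644) (nat_lit 18) (.e (nat_lit 303119) (nat_lit 3) (.e (nat_lit 204819) (nat_lit 17) (.e (nat_lit 7936) (nat_lit 347) .nil)))))) (.g (nat_lit 5) .nil .nil)))) (.nd (nat_lit 6) 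
(.lf (nat_lit 189225) (.g (nat_lit 2499) (.e (nat_lit 65569) (nat_lit 3) (.e (nat_lit 98389) (nat_lit 33) (.e (nat_lit 491560) (nat_lit 10) (.e (nat_lit 344115) (nat_lit 20) (.e (nat_lit 507908) (nat_lit 0) (.e (nat_lit 5403) (nat_lit 302) .nil)))))) (.g (nat_lit 5) .nil .nil))) 
(.lf (nat_lit 189289) (.g (nat_lit 2551) (.e (nat_lit 65570) (nat_lit 3) (.e (nat_lit 98350) (nat_lit 24) (.e (nat_lit 409649) (nat_lit 18) (.e (nat_lit 303119) (nat_lit 3) (.e (nat_lit 204817) (nat_lit 17) .nil))))) .nil)))) (.nd (nat_lit 5) (.nd (nat_lit 6) 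
(.lf (nat_lit 189209) (.g (nat_lit 1931) (.e (nat_lit 65569) (nat_lit 3) (.e (nat_lit 98389) (nat_lit 33) (.e (nat_lit 491558) (nat_lit 10) (.e (nat_lit 344115) (nat_lit 20) (.e (nat_lit 507907) (nat_lit 0) (.e (nat_lit 5401) (nat_lit 302) .nil)))))) (.g (nat_lit 4) .nil .nil))) 
(.lf (nat_lit 189273) (.g (nat_lit 3106) (.e (nat_lit 65570) (nat_lit 3) (.e (nat_lit 98350) (nat_lit 24) (.e (nat_lit 409645) (nat_lit 18) (.e (nat_lit 303117) (nat_lit 2) (.e (nat_lit 196661) (nat_lit 12) .nil))))) .nil))) (.nd (nat_lit 6) 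
(.lf (nat_lit 189241) (.g (nat_lit 3142) (.e (nat_lit 65570) (nat_lit 3) (.e (nat_lit 98333) (nat_lit 18) (.e (nat_lit 164179) (nat_lit 154) (.e (nat_lit 57347) (nat_lit 0) (.e (nat_lit 1846) (nat_lit 124) .nil))))) .nil)) 
(.lf (nat_lit 189305) (.g (nat_lit 2143) (.e (nat_lit 65570) (nat_lit 3) (.e (nat_lit 98372) (nat_lit 29) (.e (nat_lit 450579) (nat_lit 5) (.e (nat_lit 532501) (nat_lit 1) (.e (nat_lit 57767) (nat_lit 221) .nil))))) .nil)))))) (.nd (nat_lit 3) (.nd (nat_lit 4) (.nd (nat_lit 5) (.nd (nat_lit 6) 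
(.lf (nat_lit 189189) (.g (nat_lit 2673) (.e (nat_lit 65569) (nat_lit 3) (.e (nat_lit 98373) (nat_lit 29) (.e (nat_lit 450588) (nat_lit 10) (.e (nat_lit 573478) (nat_lit 12) .nil)))) .nil)) 
(.lf (nat_lit 189253) (.g (nat_lit 887) (.e (nat_lit 65570) (nat_lit 3) (.e (nat_lit 98335) (nat_lit 18) (.e (nat_lit 164179) (nat_lit 154) .nil))) .nil))) (.nd (nat_lit 6) 
(.lf (nat_lit 189221) (.g (nat_lit 1898) (.e (nat_lit 65569) (nat_lit 3) (.e (nat_lit 98389) (nat_lit 33) (.e (nat_lit 491560) (nat_lit 10) (.e (nat_lit 344115) (nat_lit 20) (.e (nat_lit 507907) (nat_lit 0) (.e (nat_lit 5401) (nat_lit 302) .nil)))))) (.g (nat_lit 4) .nil .nil))) 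
(.lf (nat_lit 189285) (.g (nat_lit 3103) (.e (nat_lit 65570) (nat_lit 3) (.e (nat_lit 98350) (nat_lit 24) (.e (nat_lit 409648) (nat_lit 18) (.e (nat_lit 303119) (nat_lit 3) (.e (nat_lit 204821) (nat_lit 17) (.e (nat_lit 7936) (nat_lit 347) .nil)))))) (.g (nat_lit 4) .nil .nil))))) (.nd (nat_lit 5) (.nd (nat_lit 6) 
(.lf (nat_lit 189205) (.g (nat_lit 2436) (.e (nat_lit 65569) (nat_lit 3) (.e (nat_lit 98389) (nat_lit 33) (.e (nat_lit 491546) (nat_lit 9) (.e (nat_lit 336013) (nat_lit 2) (.e (nat_lit 90165) (nat_lit 12) (.e (nat_lit 171776) (nat_lit 191) .nil)))))) (.g (nat_lit 5) .nil .nil))) 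
(.lf (nat_lit 189269) (.g (nat_lit 2600) (.e (nat_lit 65570) (nat_lit 3) (.e (nat_lit 98350) (nat_lit 24) (.e (nat_lit 409643) (nat_lit 18) (.e (nat_lit 303119) (nat_lit 3) (.e (nat_lit 204819) (nat_lit 17) (.e (nat_lit 7936) (nat_lit 347) .nil)))))) (.g (nat_lit 5) .nil .nil)))) (.nd (nat_lit 6) 
(.lf (nat_lit 189237) (.g (nat_lit 1082) (.e (nat_lit 65570) (nat_lit 3) (.e (nat_lit 98333) (nat_lit 18) (.e (nat_lit 164150) (nat_lit 152) .nil))) .nil)) 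
(.lf (nat_lit 189301) (.g (nat_lit 597) (.e (nat_lit 65570) (nat_lit 3) (.e (nat_lit 98372) (nat_lit 29) (.e (nat_lit 458496) (nat_lit 3) .nil))) .nil))))) (.nd (nat_lit 4) (.nd (nat_lit 5) (.nd (nat_lit 6) 
(.lf (nat_lit 189197) (.g (nat_lit 1740) (.e (nat_lit 65569) (nat_lit 3) (.e (nat_lit 98381) (nat_lit 31) (.e (nat_lit 466977) (nat_lit 22) (.e (nat_lit 196624) (nat_lit 9) (.e (nat_lit 3) (nat_lit 0) .nil))))) .nil)) 
(.lf (nat_lit 189261) (.g (nat_lit 2717) (.e (nat_lit 65570) (nat_lit 3) (.e (nat_lit 98349) (nat_lit 24) (.e (nat_lit 409646) (nat_lit 18) (.e (nat_lit 303117) (nat_lit 2) (.e (nat_lit 196661) (nat_lit 12) .nil))))) .nil))) (.nd (nat_lit 6) 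
(.lf (nat_lit 189229) (.g (nat_lit 2596) (.e (nat_lit 65569) (nat_lit 3) (.e (nat_lit 98389) (nat_lit 33) (.e (nat_lit 491560) (nat_lit 10) (.e (nat_lit 344117) (nat_lit 21) (.e (nat_lit 516099) (nat_lit 0) .nil))))) .nil)) 
(.lf (nat_lit 189293) (.g (nat_lit 1924) (.e (nat_lit 65570) (nat_lit 3) (.e (nat_lit 98353) (nat_lit 25) (.e (nat_lit 417828) (nat_lit 18) (.e (nat_lit 303119) (nat_lit 3) (.e (nat_lit 204819) (nat_lit 17) .nil))))) .nil)))) (.nd (nat_lit 5) (.nd (nat_lit 6) 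
(.lf (nat_lit 189213) (.g (nat_lit 2500) (.e (nat_lit 65569) (nat_lit 3) (.e (nat_lit 98389) (nat_lit 33) (.e (nat_lit 491558) (nat_lit 10) (.e (nat_lit 344115) (nat_lit 20) (.e (nat_lit 507908) (nat_lit 0) (.e (nat_lit 5403) (nat_lit 302) .nil)))))) (.g (nat_lit 5) .nil .nil))) 
(.lf (nat_lit 189277) (.g (nat_lit 3094) (.e (nat_lit 65570) (nat_lit 3) (.e (nat_lit 98350) (nat_lit 24) (.e (nat_lit 409646) (nat_lit 18) (.e (nat_lit 303117) (nat_lit 2) (.e (nat_lit 196661) (nat_lit 12) .nil))))) .nil))) (.nd (nat_lit 6) 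
(.lf (nat_lit 189245) (.g (nat_lit 2309) (.e (nat_lit 65570) (nat_lit 3) (.e (nat_lit 98333) (nat_lit 18) (.e (nat_lit 164179) (nat_lit 154) (.e (nat_lit 57355) (nat_lit 0) (.e (nat_lit 1858) (nat_lit 124) .nil))))) .nil)) 
(.lf (nat_lit 189309) (.g (nat_lit 2894) (.e (nat_lit 65570) (nat_lit 3) (.e (nat_lit 98372) (nat_lit 29) (.e (nat_lit 450579) (nat_lit 5) (.e (nat_lit 532504) (nat_lit 1) (.e (nat_lit 57766) (nat_lit 221) .nil))))) .nil))))))) (.nd (nat_lit 2) (.nd (nat_lit 3) (.nd (nat_lit 4) (.nd (nat_lit 5) (.nd (nat_lit 6) 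
(.lf (nat_lit 189187) (.g (nat_lit 4129) (.e (nat_lit 65569) (nat_lit 3) (.e (nat_lit 98373) (nat_lit 29) (.e (nat_lit 450588) (nat_lit 10) (.e (nat_lit 573475) (nat_lit 12) (.e (nat_lit 57347) (nat_lit 0) (.e (nat_lit 7236) (nat_lit 382) (.e (nat_lit 1199) (nat_lit 88) .nil))))))) (.g (nat_lit 5) .nil .nil))) 
(.lf (nat_lit 189251) (.g (nat_lit 955) (.e (nat_lit 65570) (nat_lit 3) (.e (nat_lit 98334) (nat_lit 18) (.e (nat_lit 164195) (nat_lit 158) .nil))) .nil))) (.nd (nat_lit 6) 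
(.lf (nat_lit 189219) (.g (nat_lit 1215) (.e (nat_lit 65569) (nat_lit 3) (.e (nat_lit 98389) (nat_lit 33) (.e (nat_lit 491560) (nat_lit 10) (.e (nat_lit 344114) (nat_lit 20) .nil)))) .nil)) 
(.lf (nat_lit 189283) (.g (nat_lit 3059) (.e (nat_lit 65570) (nat_lit 3) (.e (nat_lit 98350) (nat_lit 24) (.e (nat_lit 409648) (nat_lit 18) (.e (nat_lit 303117) (nat_lit 2) (.e (nat_lit 196661) (nat_lit 12) .nil))))) .nil)))) (.nd (nat_lit 5) (.nd (nat_lit 6) 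
(.lf (nat_lit 189203) (.g (nat_lit 2360) (.e (nat_lit 65569) (nat_lit 3) (.e (nat_lit 98388) (nat_lit 33) (.e (nat_lit 491560) (nat_lit 10) (.e (nat_lit 344115) (nat_lit 20) (.e (nat_lit 507908) (nat_lit 0) .nil))))) .nil)) 
(.lf (nat_lit 189267) (.g (nat_lit 580) (.e (nat_lit 65570) (nat_lit 3) (.e (nat_lit 98350) (nat_lit 24) (.e (nat_lit 409641) (nat_lit 17) .nil))) .nil))) (.nd (nat_lit 6) 
(.lf (nat_lit 189235) (.g (nat_lit 2127) (.e (nat_lit 65570) (nat_lit 3) (.e (nat_lit 98320) (nat_lit 17) (.e (nat_lit 7593) (nat_lit 407) (.e (nat_lit 73746) (nat_lit 3) (.e (nat_lit 516105) (nat_lit 0) (.e (nat_lit 7936) (nat_lit 406) .nil)))))) (.g (nat_lit 5) .nil .nil))) 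
(.lf (nat_lit 189299) (.g (nat_lit 708) (.e (nat_lit 65570) (nat_lit 3) (.e (nat_lit 98370) (nat_lit 28) (.e (nat_lit 442424) (nat_lit 22) .nil))) .nil))))) (.nd (nat_lit 4) (.nd (nat_lit 5) (.nd (nat_lit 6) 
(.lf (nat_lit 189195) (.g (nat_lit 1116) (.e (nat_lit 65569) (nat_lit 3) (.e (nat_lit 98381) (nat_lit 31) (.e (nat_lit 466947) (nat_lit 0) (.e (nat_lit 7936) (nat_lit 121) .nil)))) .nil)) 
(.lf (nat_lit 189259) (.g (nat_lit 3303) (.e (nat_lit 65570) (nat_lit 3) (.e (nat_lit 98349) (nat_lit 24) (.e (nat_lit 409645) (nat_lit 18) (.e (nat_lit 303119) (nat_lit 3) (.e (nat_lit 204819) (nat_lit 17) (.e (nat_lit 7936) (nat_lit 347) .nil)))))) (.g (nat_lit 5) .nil .nil)))) (.nd (nat_lit 6) 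
(.lf (nat_lit 189227) (.g (nat_lit 2640) (.e (nat_lit 65569) (nat_lit 3) (.e (nat_lit 98389) (nat_lit 33) (.e (nat_lit 491560) (nat_lit 10) (.e (nat_lit 344117) (nat_lit 21) (.e (nat_lit 516097) (nat_lit 0) (.e (nat_lit 7587) (nat_lit 406) .nil)))))) (.g (nat_lit 4) .nil .nil))) 
(.lf (nat_lit 189291) (.g (nat_lit 3487) (.e (nat_lit 65570) (nat_lit 3) (.e (nat_lit 98350) (nat_lit 24) (.e (nat_lit 409649) (nat_lit 18) (.e (nat_lit 303119) (nat_lit 3) (.e (nat_lit 204821) (nat_lit 17) (.e (nat_lit 7936) (nat_lit 347) .nil)))))) (.g (nat_lit 5) .nil .nil))))) (.nd (nat_lit 5) (.nd (nat_lit 6) 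
(.lf (nat_lit 189211) (.g (nat_lit 1865) (.e (nat_lit 65569) (nat_lit 3) (.e (nat_lit 98389) (nat_lit 33) (.e (nat_lit 491558) (nat_lit 10) (.e (nat_lit 344115) (nat_lit 20) (.e (nat_lit 507907) (nat_lit 0) (.e (nat_lit 5405) (nat_lit 302) .nil)))))) (.g (nat_lit 4) .nil .nil))) 
(.lf (nat_lit 189275) (.g (nat_lit 3398) (.e (nat_lit 65570) (nat_lit 3) (.e (nat_lit 98350) (nat_lit 24) (.e (nat_lit 409645) (nat_lit 18) (.e (nat_lit 303119) (nat_lit 3) (.e (nat_lit 204819) (nat_lit 17) (.e (nat_lit 7936) (nat_lit 347) .nil)))))) (.g (nat_lit 5) .nil .nil)))) (.nd (nat_lit 6) 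
(.lf (nat_lit 189243) (.g (nat_lit 2233) (.e (nat_lit 65570) (nat_lit 3) (.e (nat_lit 98333) (nat_lit 18) (.e (nat_lit 164179) (nat_lit 154) (.e (nat_lit 57348) (nat_lit 0) .nil)))) .nil)) 
(.lf (nat_lit 189307) (.g (nat_lit 2163) (.e (nat_lit 65570) (nat_lit 3) (.e (nat_lit 98372) (nat_lit 29) (.e (nat_lit 450579) (nat_lit 5) (.e (nat_lit 532503) (nat_lit 1) (.e (nat_lit 65280) (nat_lit 221) .nil))))) .nil)))))) (.nd (nat_lit 3) (.nd (nat_lit 4) (.nd (nat_lit 5) (.nd (nat_lit 6) 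
(.lf (nat_lit 189191) (.g (nat_lit 3237) (.e (nat_lit 65569) (nat_lit 3) (.e (nat_lit 98373) (nat_lit 29) (.e (nat_lit 450588) (nat_lit 10) (.e (nat_lit 573503) (nat_lit 18) (.e (nat_lit 988) (nat_lit 81) .nil))))) .nil)) 
(.lf (nat_lit 189255) (.g (nat_lit 992) (.e (nat_lit 65570) (nat_lit 3) (.e (nat_lit 98342) (nat_lit 20) (.e (nat_lit 221212) (nat_lit 22) .nil))) .nil))) (.nd (nat_lit 6) 
(.lf (nat_lit 189223) (.g (nat_lit 1844) (.e (nat_lit 65569) (nat_lit 3) (.e (nat_lit 98389) (nat_lit 33) (.e (nat_lit 491560) (nat_lit 10) (.e (nat_lit 344115) (nat_lit 20) (.e (nat_lit 507907) (nat_lit 0) (.e (nat_lit 5405) (nat_lit 302) .nil)))))) (.g (nat_lit 4) .nil .nil))) 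
(.lf (nat_lit 189287) (.g (nat_lit 2967) (.e (nat_lit 65570) (nat_lit 3) (.e (nat_lit 98350) (nat_lit 24) (.e (nat_lit 409649) (nat_lit 18) (.e (nat_lit 303118) (nat_lit 3) (.e (nat_lit 204817) (nat_lit 17) .nil))))) .nil)))) (.nd (nat_lit 5) (.nd (nat_lit 6) 
(.lf (nat_lit 189207) (.g (nat_lit 1963) (.e (nat_lit 65569) (nat_lit 3) (.e (nat_lit 98389) (nat_lit 33) (.e (nat_lit 491558) (nat_lit 10) (.e (nat_lit 344107) (nat_lit 19) (.e (nat_lit 499825) (nat_lit 5) .nil))))) .nil)) 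
(.lf (nat_lit 189271) (.g (nat_lit 3043) (.e (nat_lit 65570) (nat_lit 3) (.e (nat_lit 98350) (nat_lit 24) (.e (nat_lit 409644) (nat_lit 18) (.e (nat_lit 303119) (nat_lit 3) (.e (nat_lit 204819) (nat_lit 17) (.e (nat_lit 7936) (nat_lit 347) .nil)))))) (.g (nat_lit 5) .nil .nil)))) (.nd (nat_lit 6) 
(.lf (nat_lit 189239) (.g (nat_lit 1140) (.e (nat_lit 65570) (nat_lit 3) (.e (nat_lit 98333) (nat_lit 18) (.e (nat_lit 164161) (nat_lit 152) .nil))) .nil)) 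
(.lf (nat_lit 189303) (.g (nat_lit 1733) (.e (nat_lit 65570) (nat_lit 3) (.e (nat_lit 98372) (nat_lit 29) (.e (nat_lit 450579) (nat_lit 5) (.e (nat_lit 532499) (nat_lit 1) (.e (nat_lit 65280) (nat_lit 221) .nil))))) .nil))))) (.nd (nat_lit 4) (.nd (nat_lit 5) (.nd (nat_lit 6) 
(.lf (nat_lit 189199) (.g (nat_lit 1428) (.e (nat_lit 65569) (nat_lit 3) (.e (nat_lit 98381) (nat_lit 31) (.e (nat_lit 466977) (nat_lit 22) (.e (nat_lit 196677) (nat_lit 16) (.e (nat_lit 122946) (nat_lit 33) .nil))))) .nil)) 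
(.lf (nat_lit 189263) (.g (nat_lit 2815) (.e (nat_lit 65570) (nat_lit 3) (.e (nat_lit 98349) (nat_lit 24) (.e (nat_lit 409646) (nat_lit 18) (.e (nat_lit 303119) (nat_lit 3) (.e (nat_lit 204821) (nat_lit 17) (.e (nat_lit 7936) (nat_lit 347) .nil)))))) (.g (nat_lit 4) .nil .nil)))) (.nd (nat_lit 6) 
(.lf (nat_lit 189231) (.g (nat_lit 1453) (.e (nat_lit 65570) (nat_lit 3) (.e (nat_lit 98319) (nat_lit 17) (.e (nat_lit 7593) (nat_lit 407) (.e (nat_lit 73746) (nat_lit 3) (.e (nat_lit 516104) (nat_lit 0) (.e (nat_lit 7936) (nat_lit 406) .nil)))))) (.g (nat_lit 4) .nil .nil))) 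
(.lf (nat_lit 189295) (.g (nat_lit 3788) (.e (nat_lit 65570) (nat_lit 3) (.e (nat_lit 98359) (nat_lit 26) (.e (nat_lit 426211) (nat_lit 9) (.e (nat_lit 426125) (nat_lit 2) (.e (nat_lit 196615) (nat_lit 0) .nil))))) .nil)))) (.nd (nat_lit 5) (.nd (nat_lit 6) 
(.lf (nat_lit 189215) (.g (nat_lit 2561) (.e (nat_lit 65569) (nat_lit 3) (.e (nat_lit 98389) (nat_lit 33) (.e (nat_lit 491558) (nat_lit 10) (.e (nat_lit 344117) (nat_lit 21) (.e (nat_lit 516097) (nat_lit 0) (.e (nat_lit 7587) (nat_lit 406) .nil)))))) (.g (nat_lit 4) .nil .nil))) 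
(.lf (nat_lit 189279) (.g (nat_lit 3357) (.e (nat_lit 65570) (nat_lit 3) (.e (nat_lit 98350) (nat_lit 24) (.e (nat_lit 409646) (nat_lit 18) (.e (nat_lit 303119) (nat_lit 3) (.e (nat_lit 204821) (nat_lit 17) (.e (nat_lit 7936) (nat_lit 347) .nil)))))) (.g (nat_lit 5) .nil .nil)))) (.nd (nat_lit 6) 
(.lf (nat_lit 189247) (.g (nat_lit 2679) (.e (nat_lit 65570) (nat_lit 3) (.e (nat_lit 98333) (nat_lit 18) (.e (nat_lit 164182) (nat_lit 154) (.e (nat_lit 57379) (nat_lit 3) (.e (nat_lit 98342) (nat_lit 20) .nil))))) .nil)) 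
(.lf (nat_lit 189311) (.g (nat_lit 1231) (.e (nat_lit 65570) (nat_lit 3) (.e (nat_lit 98372) (nat_lit 29) (.e (nat_lit 450579) (nat_lit 5) (.e (nat_lit 540416) (nat_lit 17) .nil)))) .nil)))))))))

noncomputable def tv2508 : DT := (.nd (nat_lit 0) (.nd (nat_lit 1) (.nd (nat_lit 2) (.nd (nat_lit 3) (.nd (nat_lit 4) (.nd (nat_lit 5) (.nd (nat_lit 6) 
(.lf (nat_lit 189312) (.g (nat_lit 640) (.e (nat_lit 65570) (nat_lit 3) (.e (nat_lit 98372) (nat_lit 29) (.e (nat_lit 450586) (nat_lit 10) .nil))) .nil)) 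
(.lf (nat_lit 189376) (.g (nat_lit 3320) (.e (nat_lit 65570) (nat_lit 3) (.e (nat_lit 98373) (nat_lit 29) (.e (nat_lit 450588) (nat_lit 10) (.e (nat_lit 573475) (nat_lit 12) (.e (nat_lit 57351) (nat_lit 0) (.e (nat_lit 7124) (nat_lit 382) (.e (nat_lit 1193) (nat_lit 88) .nil))))))) (.g (nat_lit 4) .nil .nil)))) (.nd (nat_lit 6) 
(.lf (nat_lit 189344) (.g (nat_lit 2592) (.e (nat_lit 65570) (nat_lit 3) (.e (nat_lit 98373) (nat_lit 29) (.e (nat_lit 450588) (nat_lit 10) (.e (nat_lit 573473) (nat_lit 12) (.e (nat_lit 57357) (nat_lit 0) .nil))))) .nil)) 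
(.lf (nat_lit 189408) (.g (nat_lit 3504) (.e (nat_lit 65571) (nat_lit 3) (.e (nat_lit 98320) (nat_lit 17) (.e (nat_lit 7593) (nat_lit 407) (.e (nat_lit 73746) (nat_lit 3) (.e (nat_lit 516097) (nat_lit 0) (.e (nat_lit 7585) (nat_lit 406) .nil)))))) (.g (nat_lit 5) .nil .nil))))) (.nd (nat_lit 5) (.nd (nat_lit 6) 
(.lf (nat_lit 189328) (.g (nat_lit 1246) (.e (nat_lit 65570) (nat_lit 3) (.e (nat_lit 98373) (nat_lit 29) (.e (nat_lit 450587) (nat_lit 10) (.e (nat_lit 573478) (nat_lit 12) .nil)))) .nil)) 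
(.lf (nat_lit 189392) (.g (nat_lit 1149) (.e (nat_lit 65570) (nat_lit 3) (.e (nat_lit 98389) (nat_lit 33) (.e (nat_lit 491558) (nat_lit 10) (.e (nat_lit 344117) (nat_lit 21) .nil)))) .nil))) (.nd (nat_lit 6) 
(.lf (nat_lit 189360) (.g (nat_lit 3945) (.e (nat_lit 65570) (nat_lit 3) (.e (nat_lit 98373) (nat_lit 29) (.e (nat_lit 450588) (nat_lit 10) (.e (nat_lit 573475) (nat_lit 12) (.e (nat_lit 57345) (nat_lit 0) (.e (nat_lit 7236) (nat_lit 382) (.e (nat_lit 1200) (nat_lit 88) .nil))))))) (.g (nat_lit 4) .nil .nil))) 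
(.lf (nat_lit 189424) (.g (nat_lit 2690) (.e (nat_lit 65571) (nat_lit 3) (.e (nat_lit 98342) (nat_lit 20) (.e (nat_lit 221214) (nat_lit 23) (.e (nat_lit 204830) (nat_lit 18) (.e (nat_lit 57930) (nat_lit 282) .nil))))) .nil))))) (.nd (nat_lit 4) (.nd (nat_lit 5) (.nd (nat_lit 6) 
(.lf (nat_lit 189320) (.g (nat_lit 998) (.e (nat_lit 65570) (nat_lit 3) (.e (nat_lit 98373) (nat_lit 29) (.e (nat_lit 458496) (nat_lit 3) .nil))) .nil)) 
(.lf (nat_lit 189384) (.g (nat_lit 3403) (.e (nat_lit 65570) (nat_lit 3) (.e (nat_lit 98373) (nat_lit 29) (.e (nat_lit 450588) (nat_lit 10) (.e (nat_lit 573475) (nat_lit 12) (.e (nat_lit 57572) (nat_lit 54) (.e (nat_lit 770071) (nat_lit 8) .nil)))))) (.g (nat_lit 4) .nil .nil)))) (.nd (nat_lit 6) 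
(.lf (nat_lit 189352) (.g (nat_lit 3559) (.e (nat_lit 65570) (nat_lit 3) (.e (nat_lit 98373) (nat_lit 29) (.e (nat_lit 450588) (nat_lit 10) (.e (nat_lit 573475) (nat_lit 12) (.e (nat_lit 57344) (nat_lit 0) (.e (nat_lit 7219) (nat_lit 382) (.e (nat_lit 1194) (nat_lit 88) .nil))))))) (.g (nat_lit 4) .nil .nil))) 
(.lf (nat_lit 189416) (.g (nat_lit 683) (.e (nat_lit 65571) (nat_lit 3) (.e (nat_lit 98334) (nat_lit 18) (.e (nat_lit 164195) (nat_lit 158) .nil))) .nil)))) (.nd (nat_lit 5) (.nd (nat_lit 6) 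
(.lf (nat_lit 189336) (.g (nat_lit 3124) (.e (nat_lit 65570) (nat_lit 3) (.e (nat_lit 98373) (nat_lit 29) (.e (nat_lit 450588) (nat_lit 10) (.e (nat_lit 573473) (nat_lit 12) (.e (nat_lit 57348) (nat_lit 0) (.e (nat_lit 7119) (nat_lit 382) (.e (nat_lit 1193) (nat_lit 88) .nil))))))) (.g (nat_lit 4) .nil .nil))) 
(.lf (nat_lit 189400) (.g (nat_lit 1313) (.e (nat_lit 65570) (nat_lit 3) (.e (nat_lit 98389) (nat_lit 33) (.e (nat_lit 491560) (nat_lit 10) (.e (nat_lit 344118) (nat_lit 21) .nil)))) .nil))) (.nd (nat_lit 6) 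
(.lf (nat_lit 189368) (.g (nat_lit 3910) (.e (nat_lit 65570) (nat_lit 3) (.e (nat_lit 98373) (nat_lit 29) (.e (nat_lit 450588) (nat_lit 10) (.e (nat_lit 573475) (nat_lit 12) (.e (nat_lit 57347) (nat_lit 0) (.e (nat_lit 7125) (nat_lit 382) (.e (nat_lit 1191) (nat_lit 88) .nil))))))) (.g (nat_lit 5) .nil .nil))) 
(.lf (nat_lit 189432) (.g (nat_lit 2786) (.e (nat_lit 65571) (nat_lit 3) (.e (nat_lit 98349) (nat_lit 24) (.e (nat_lit 409645) (nat_lit 18) (.e (nat_lit 303117) (nat_lit 2) (.e (nat_lit 196661) (nat_lit 12) .nil))))) .nil)))))) (.nd (nat_lit 3) (.nd (nat_lit 4) (.nd (nat_lit 5) (.nd (nat_lit 6) 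
(.lf (nat_lit 189316) (.g (nat_lit 2532) (.e (nat_lit 65570) (nat_lit 3) (.e (nat_lit 98372) (nat_lit 29) (.e (nat_lit 450586) (nat_lit 10) (.e (nat_lit 573474) (nat_lit 12) .nil)))) .nil)) 
(.lf (nat_lit 189380) (.g (nat_lit 3866) (.e (nat_lit 65570) (nat_lit 3) (.e (nat_lit 98373) (nat_lit 29) (.e (nat_lit 450588) (nat_lit 10) (.e (nat_lit 573475) (nat_lit 12) (.e (nat_lit 57356) (nat_lit 0) (.e (nat_lit 7147) (nat_lit 382) (.e (nat_lit 1204) (nat_lit 88) .nil))))))) (.g (nat_lit 6) .nil .nil)))) (.nd (nat_lit 6) 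
(.lf (nat_lit 189348) (.g (nat_lit 3544) (.e (nat_lit 65570) (nat_lit 3) (.e (nat_lit 98373) (nat_lit 29) (.e (nat_lit 450588) (nat_lit 10) (.e (nat_lit 573475) (nat_lit 12) (.e (nat_lit 57344) (nat_lit 0) (.e (nat_lit 7126) (nat_lit 382) (.e (nat_lit 1194) (nat_lit 88) .nil))))))) (.g (nat_lit 4) .nil .nil))) 
(.lf (nat_lit 189412) (.g (nat_lit 2993) (.e (nat_lit 65571) (nat_lit 3) (.e (nat_lit 98320) (nat_lit 17) (.e (nat_lit 7593) (nat_lit 407) (.e (nat_lit 73753) (nat_lit 8) (.e (nat_lit 557067) (nat_lit 9) (.e (nat_lit 20) (nat_lit 0) (.e (nat_lit 6516) (nat_lit 347) .nil))))))) (.g (nat_lit 4) .nil .nil))))) (.nd (nat_lit 5) (.nd (nat_lit 6) 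
(.lf (nat_lit 189332) (.g (nat_lit 2849) (.e (nat_lit 65570) (nat_lit 3) (.e (nat_lit 98373) (nat_lit 29) (.e (nat_lit 450588) (nat_lit 10) (.e (nat_lit 573467) (nat_lit 10) .nil)))) .nil)) 
(.lf (nat_lit 189396) (.g (nat_lit 1532) (.e (nat_lit 65570) (nat_lit 3) (.e (nat_lit 98389) (nat_lit 33) (.e (nat_lit 491560) (nat_lit 10) (.e (nat_lit 344109) (nat_lit 19) .nil)))) .nil))) (.nd (nat_lit 6) 
(.lf (nat_lit 189364) (.g (nat_lit 3268) (.e (nat_lit 65570) (nat_lit 3) (.e (nat_lit 98373) (nat_lit 29) (.e (nat_lit 450588) (nat_lit 10) (.e (nat_lit 573475) (nat_lit 12) (.e (nat_lit 57347) (nat_lit 0) (.e (nat_lit 7119) (nat_lit 382) (.e (nat_lit 1193) (nat_lit 88) .nil))))))) (.g (nat_lit 4) .nil .nil))) 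
(.lf (nat_lit 189428) (.g (nat_lit 2010) (.e (nat_lit 65571) (nat_lit 3) (.e (nat_lit 98342) (nat_lit 20) (.e (nat_lit 221215) (nat_lit 23) (.e (nat_lit 204831) (nat_lit 18) (.e (nat_lit 57931) (nat_lit 282) .nil))))) .nil))))) (.nd (nat_lit 4) (.nd (nat_lit 5) (.nd (nat_lit 6) 
(.lf (nat_lit 189324) (.g (nat_lit 2058) (.e (nat_lit 65570) (nat_lit 3) (.e (nat_lit 98373) (nat_lit 29) (.e (nat_lit 450587) (nat_lit 10) (.e (nat_lit 573475) (nat_lit 12) .nil)))) .nil)) 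
(.lf (nat_lit 189388) (.g (nat_lit 3564) (.e (nat_lit 65570) (nat_lit 3) (.e (nat_lit 98388) (nat_lit 33) (.e (nat_lit 491560) (nat_lit 10) (.e (nat_lit 344117) (nat_lit 21) (.e (nat_lit 516099) (nat_lit 0) (.e (nat_lit 7936) (nat_lit 406) .nil)))))) (.g (nat_lit 4) .nil .nil)))) (.nd (nat_lit 6) 
(.lf (nat_lit 189356) (.g (nat_lit 3623) (.e (nat_lit 65570) (nat_lit 3) (.e (nat_lit 98373) (nat_lit 29) (.e (nat_lit 450588) (nat_lit 10) (.e (nat_lit 573475) (nat_lit 12) (.e (nat_lit 57345) (nat_lit 0) (.e (nat_lit 7136) (nat_lit 382) (.e (nat_lit 1200) (nat_lit 88) .nil))))))) (.g (nat_lit 4) .nil .nil))) 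
(.lf (nat_lit 189420) (.g (nat_lit 2141) (.e (nat_lit 65571) (nat_lit 3) (.e (nat_lit 98342) (nat_lit 20) (.e (nat_lit 221213) (nat_lit 23) (.e (nat_lit 204829) (nat_lit 18) (.e (nat_lit 57928) (nat_lit 282) .nil))))) .nil)))) (.nd (nat_lit 5) (.nd (nat_lit 6) 
(.lf (nat_lit 189340) (.g (nat_lit 3180) (.e (nat_lit 65570) (nat_lit 3) (.e (nat_lit 98373) (nat_lit 29) (.e (nat_lit 450588) (nat_lit 10) (.e (nat_lit 573473) (nat_lit 12) (.e (nat_lit 57352) (nat_lit 0) (.e (nat_lit 7122) (nat_lit 382) (.e (nat_lit 1191) (nat_lit 88) .nil))))))) (.g (nat_lit 4) .nil .nil))) 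
(.lf (nat_lit 189404) (.g (nat_lit 2373) (.e (nat_lit 65571) (nat_lit 3) (.e (nat_lit 98319) (nat_lit 17) (.e (nat_lit 7593) (nat_lit 407) (.e (nat_lit 73746) (nat_lit 3) (.e (nat_lit 516104) (nat_lit 0) (.e (nat_lit 7936) (nat_lit 406) .nil)))))) (.g (nat_lit 5) .nil .nil)))) (.nd (nat_lit 6) 
(.lf (nat_lit 189372) (.g (nat_lit 3308) (.e (nat_lit 65570) (nat_lit 3) (.e (nat_lit 98373) (nat_lit 29) (.e (nat_lit 450588) (nat_lit 10) (.e (nat_lit 573475) (nat_lit 12) (.e (nat_lit 57348) (nat_lit 0) (.e (nat_lit 7119) (nat_lit 382) (.e (nat_lit 1194) (nat_lit 88) .nil))))))) (.g (nat_lit 4) .nil .nil))) 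
(.lf (nat_lit 189436) (.g (nat_lit 2835) (.e (nat_lit 65571) (nat_lit 3) (.e (nat_lit 98349) (nat_lit 24) (.e (nat_lit 409646) (nat_lit 18) (.e (nat_lit 303117) (nat_lit 2) (.e (nat_lit 196661) (nat_lit 12) (.e (nat_lit 65280) (nat_lit 191) .nil)))))) (.g (nat_lit 4) .nil .nil)))))))) (.nd (nat_lit 2) (.nd (nat_lit 3) (.nd (nat_lit 4) (.nd (nat_lit 5) (.nd (nat_lit 6) 
(.lf (nat_lit 189314) (.g (nat_lit 2157) (.e (nat_lit 65570) (nat_lit 3) (.e (nat_lit 98372) (nat_lit 29) (.e (nat_lit 450586) (nat_lit 10) (.e (nat_lit 573473) (nat_lit 12) (.e (nat_lit 57347) (nat_lit 0) .nil))))) .nil)) 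
(.lf (nat_lit 189378) (.g (nat_lit 3335) (.e (nat_lit 65570) (nat_lit 3) (.e (nat_lit 98373) (nat_lit 29) (.e (nat_lit 450588) (nat_lit 10) (.e (nat_lit 573475) (nat_lit 12) (.e (nat_lit 57351) (nat_lit 0) (.e (nat_lit 7220) (nat_lit 382) (.e (nat_lit 1194) (nat_lit 88) .nil))))))) (.g (nat_lit 4) .nil .nil)))) (.nd (nat_lit 6) 
(.lf (nat_lit 189346) (.g (nat_lit 3152) (.e (nat_lit 65570) (nat_lit 3) (.e (nat_lit 98373) (nat_lit 29) (.e (nat_lit 450588) (nat_lit 10) (.e (nat_lit 573474) (nat_lit 12) (.e (nat_lit 57572) (nat_lit 54) .nil))))) .nil)) 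
(.lf (nat_lit 189410) (.g (nat_lit 2301) (.e (nat_lit 65571) (nat_lit 3) (.e (nat_lit 98320) (nat_lit 17) (.e (nat_lit 7593) (nat_lit 407) (.e (nat_lit 73746) (nat_lit 3) (.e (nat_lit 516104) (nat_lit 0) (.e (nat_lit 7936) (nat_lit 406) .nil)))))) (.g (nat_lit 5) .nil .nil))))) (.nd (nat_lit 5) (.nd (nat_lit 6) 
(.lf (nat_lit 189330) (.g (nat_lit 2497) (.e (nat_lit 65570) (nat_lit 3) (.e (nat_lit 98373) (nat_lit 29) (.e (nat_lit 450588) (nat_lit 10) (.e (nat_lit 573449) (nat_lit 9) .nil)))) .nil)) 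
(.lf (nat_lit 189394) (.g (nat_lit 2350) (.e (nat_lit 65570) (nat_lit 3) (.e (nat_lit 98389) (nat_lit 33) (.e (nat_lit 491558) (nat_lit 10) (.e (nat_lit 344117) (nat_lit 21) (.e (nat_lit 516098) (nat_lit 0) (.e (nat_lit 7589) (nat_lit 406) .nil)))))) (.g (nat_lit 4) .nil .nil)))) (.nd (nat_lit 6) 
(.lf (nat_lit 189362) (.g (nat_lit 3561) (.e (nat_lit 65570) (nat_lit 3) (.e (nat_lit 98373) (nat_lit 29) (.e (nat_lit 450588) (nat_lit 10) (.e (nat_lit 573475) (nat_lit 12) (.e (nat_lit 57346) (nat_lit 0) (.e (nat_lit 7233) (nat_lit 382) (.e (nat_lit 1189) (nat_lit 88) .nil))))))) (.g (nat_lit 4) .nil .nil))) 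
(.lf (nat_lit 189426) (.g (nat_lit 2251) (.e (nat_lit 65571) (nat_lit 3) (.e (nat_lit 98342) (nat_lit 20) (.e (nat_lit 221214) (nat_lit 23) (.e (nat_lit 204831) (nat_lit 18) (.e (nat_lit 57931) (nat_lit 282) .nil))))) .nil))))) (.nd (nat_lit 4) (.nd (nat_lit 5) (.nd (nat_lit 6) 
(.lf (nat_lit 189322) (.g (nat_lit 2341) (.e (nat_lit 65570) (nat_lit 3) (.e (nat_lit 98373) (nat_lit 29) (.e (nat_lit 450587) (nat_lit 10) (.e (nat_lit 573472) (nat_lit 12) .nil)))) .nil)) 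
(.lf (nat_lit 189386) (.g (nat_lit 2080) (.e (nat_lit 65570) (nat_lit 3) (.e (nat_lit 98373) (nat_lit 29) (.e (nat_lit 450588) (nat_lit 10) (.e (nat_lit 573503) (nat_lit 18) .nil)))) .nil))) (.nd (nat_lit 6) 
(.lf (nat_lit 189354) (.g (nat_lit 2852) (.e (nat_lit 65570) (nat_lit 3) (.e (nat_lit 98373) (nat_lit 29) (.e (nat_lit 450588) (nat_lit 10) (.e (nat_lit 573475) (nat_lit 12) (.e (nat_lit 57345) (nat_lit 0) .nil))))) .nil)) 
(.lf (nat_lit 189418) (.g (nat_lit 1237) (.e (nat_lit 65571) (nat_lit 3) (.e (nat_lit 98342) (nat_lit 20) (.e (nat_lit 221212) (nat_lit 22) (.e (nat_lit 196659) (nat_lit 12) .nil)))) .nil)))) (.nd (nat_lit 5) (.nd (nat_lit 6) 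
(.lf (nat_lit 189338) (.g (nat_lit 5500) (.e (nat_lit 65570) (nat_lit 3) (.e (nat_lit 98373) (nat_lit 29) (.e (nat_lit 450588) (nat_lit 10) (.e (nat_lit 573473) (nat_lit 12) (.e (nat_lit 57348) (nat_lit 0) (.e (nat_lit 7125) (nat_lit 382) (.e (nat_lit 1201) (nat_lit 88) .nil))))))) (.g (nat_lit 0) .nil .nil))) 
(.lf (nat_lit 189402) (.g (nat_lit 1328) (.e (nat_lit 65571) (nat_lit 3) (.e (nat_lit 98313) (nat_lit 9) (.e (nat_lit 336288) (nat_lit 15) (.e (nat_lit 7936) (nat_lit 195) .nil)))) .nil))) (.nd (nat_lit 6) 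
(.lf (nat_lit 189370) (.g (nat_lit 4063) (.e (nat_lit 65570) (nat_lit 3) (.e (nat_lit 98373) (nat_lit 29) (.e (nat_lit 450588) (nat_lit 10) (.e (nat_lit 573475) (nat_lit 12) (.e (nat_lit 57347) (nat_lit 0) (.e (nat_lit 7236) (nat_lit 382) (.e (nat_lit 1189) (nat_lit 88) .nil))))))) (.g (nat_lit 5) .nil .nil))) 
(.lf (nat_lit 189434) (.g (nat_lit 3424) (.e (nat_lit 65571) (nat_lit 3) (.e (nat_lit 98349) (nat_lit 24) (.e (nat_lit 409645) (nat_lit 18) (.e (nat_lit 303119) (nat_lit 3) (.e (nat_lit 204819) (nat_lit 17) (.e (nat_lit 7936) (nat_lit 347) .nil)))))) (.g (nat_lit 5) .nil .nil))))))) (.nd (nat_lit 3) (.nd (nat_lit 4) (.nd (nat_lit 5) (.nd (nat_lit 6) 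
(.lf (nat_lit 189318) (.g (nat_lit 1418) (.e (nat_lit 65570) (nat_lit 3) (.e (nat_lit 98372) (nat_lit 29) (.e (nat_lit 450586) (nat_lit 10) (.e (nat_lit 573477) (nat_lit 12) .nil)))) .nil)) 
(.lf (nat_lit 189382) (.g (nat_lit 3008) (.e (nat_lit 65570) (nat_lit 3) (.e (nat_lit 98373) (nat_lit 29) (.e (nat_lit 450588) (nat_lit 10) (.e (nat_lit 573475) (nat_lit 12) (.e (nat_lit 57569) (nat_lit 53) (.e (nat_lit 769792) (nat_lit 8) .nil)))))) (.g (nat_lit 4) .nil .nil)))) (.nd (nat_lit 6) 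
(.lf (nat_lit 189350) (.g (nat_lit 3150) (.e (nat_lit 65570) (nat_lit 3) (.e (nat_lit 98373) (nat_lit 29) (.e (nat_lit 450588) (nat_lit 10) (.e (nat_lit 573475) (nat_lit 12) (.e (nat_lit 57344) (nat_lit 0) (.e (nat_lit 7147) (nat_lit 382) (.e (nat_lit 1203) (nat_lit 88) .nil))))))) (.g (nat_lit 4) .nil .nil))) 
(.lf (nat_lit 189414) (.g (nat_lit 2547) (.e (nat_lit 65571) (nat_lit 3) (.e (nat_lit 98333) (nat_lit 18) (.e (nat_lit 164179) (nat_lit 154) (.e (nat_lit 57379) (nat_lit 3) (.e (nat_lit 98340) (nat_lit 20) .nil))))) .nil)))) (.nd (nat_lit 5) (.nd (nat_lit 6) 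
(.lf (nat_lit 189334) (.g (nat_lit 4082) (.e (nat_lit 65570) (nat_lit 3) (.e (nat_lit 98373) (nat_lit 29) (.e (nat_lit 450588) (nat_lit 10) (.e (nat_lit 573473) (nat_lit 12) (.e (nat_lit 57347) (nat_lit 0) (.e (nat_lit 7125) (nat_lit 382) (.e (nat_lit 1193) (nat_lit 88) .nil))))))) (.g (nat_lit 5) .nil .nil))) 
(.lf (nat_lit 189398) (.g (nat_lit 2164) (.e (nat_lit 65570) (nat_lit 3) (.e (nat_lit 98389) (nat_lit 33) (.e (nat_lit 491560) (nat_lit 10) (.e (nat_lit 344117) (nat_lit 21) (.e (nat_lit 516098) (nat_lit 0) (.e (nat_lit 7589) (nat_lit 406) .nil)))))) (.g (nat_lit 4) .nil .nil)))) (.nd (nat_lit 6) 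
(.lf (nat_lit 189366) (.g (nat_lit 3125) (.e (nat_lit 65570) (nat_lit 3) (.e (nat_lit 98373) (nat_lit 29) (.e (nat_lit 450588) (nat_lit 10) (.e (nat_lit 573475) (nat_lit 12) (.e (nat_lit 57347) (nat_lit 0) (.e (nat_lit 7122) (nat_lit 382) (.e (nat_lit 1191) (nat_lit 88) .nil))))))) (.g (nat_lit 4) .nil .nil))) 
(.lf (nat_lit 189430) (.g (nat_lit 510) (.e (nat_lit 65571) (nat_lit 3) (.e (nat_lit 98349) (nat_lit 24) (.e (nat_lit 409644) (nat_lit 18) .nil))) .nil))))) (.nd (nat_lit 4) (.nd (nat_lit 5) (.nd (nat_lit 6) 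
(.lf (nat_lit 189326) (.g (nat_lit 3299) (.e (nat_lit 65570) (nat_lit 3) (.e (nat_lit 98373) (nat_lit 29) (.e (nat_lit 450587) (nat_lit 10) (.e (nat_lit 573475) (nat_lit 12) (.e (nat_lit 57349) (nat_lit 0) .nil))))) .nil)) 
(.lf (nat_lit 189390) (.g (nat_lit 2798) (.e (nat_lit 65570) (nat_lit 3) (.e (nat_lit 98389) (nat_lit 33) (.e (nat_lit 491546) (nat_lit 9) (.e (nat_lit 336028) (nat_lit 3) (.e (nat_lit 98325) (nat_lit 17) (.e (nat_lit 7936) (nat_lit 406) .nil)))))) (.g (nat_lit 5) .nil .nil)))) (.nd (nat_lit 6) 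
(.lf (nat_lit 189358) (.g (nat_lit 3080) (.e (nat_lit 65570) (nat_lit 3) (.e (nat_lit 98373) (nat_lit 29) (.e (nat_lit 450588) (nat_lit 10) (.e (nat_lit 573475) (nat_lit 12) (.e (nat_lit 57345) (nat_lit 0) (.e (nat_lit 7221) (nat_lit 382) (.e (nat_lit 1194) (nat_lit 88) .nil))))))) (.g (nat_lit 4) .nil .nil))) 
(.lf (nat_lit 189422) (.g (nat_lit 2296) (.e (nat_lit 65571) (nat_lit 3) (.e (nat_lit 98342) (nat_lit 20) (.e (nat_lit 221214) (nat_lit 23) (.e (nat_lit 204829) (nat_lit 18) (.e (nat_lit 57925) (nat_lit 282) .nil))))) .nil)))) (.nd (nat_lit 5) (.nd (nat_lit 6) 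
(.lf (nat_lit 189342) (.g (nat_lit 5165) (.e (nat_lit 65570) (nat_lit 3) (.e (nat_lit 98373) (nat_lit 29) (.e (nat_lit 450588) (nat_lit 10) (.e (nat_lit 573473) (nat_lit 12) (.e (nat_lit 57353) (nat_lit 0) (.e (nat_lit 7124) (nat_lit 382) (.e (nat_lit 1201) (nat_lit 88) .nil))))))) (.g (nat_lit 0) .nil .nil))) 
(.lf (nat_lit 189406) (.g (nat_lit 345) (.e (nat_lit 65571) (nat_lit 3) (.e (nat_lit 98320) (nat_lit 17) (.e (nat_lit 7495) (nat_lit 402) .nil))) .nil))) (.nd (nat_lit 6) 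
(.lf (nat_lit 189374) (.g (nat_lit 3688) (.e (nat_lit 65570) (nat_lit 3) (.e (nat_lit 98373) (nat_lit 29) (.e (nat_lit 450588) (nat_lit 10) (.e (nat_lit 573475) (nat_lit 12) (.e (nat_lit 57348) (nat_lit 0) (.e (nat_lit 7126) (nat_lit 382) (.e (nat_lit 1194) (nat_lit 88) .nil))))))) (.g (nat_lit 4) .nil .nil))) 
(.lf (nat_lit 189438) (.g (nat_lit 3073) (.e (nat_lit 65571) (nat_lit 3) (.e (nat_lit 98349) (nat_lit 24) (.e (nat_lit 409646) (nat_lit 18) (.e (nat_lit 303119) (nat_lit 3) (.e (nat_lit 204819) (nat_lit 17) (.e (nat_lit 7936) (nat_lit 347) .nil)))))) (.g (nat_lit 5) .nil .nil))))))))) (.nd (nat_lit 1) (.nd (nat_lit 2) (.nd (nat_lit 3) (.nd (nat_lit 4) (.nd (nat_lit 5) (.nd (nat_lit 6) 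
(.lf (nat_lit 189313) (.g (nat_lit 1271) (.e (nat_lit 65570) (nat_lit 3) (.e (nat_lit 98372) (nat_lit 29) (.e (nat_lit 450586) (nat_lit 10) (.e (nat_lit 573473) (nat_lit 12) .nil)))) .nil)) 
(.lf (nat_lit 189377) (.g (nat_lit 4022) (.e (nat_lit 65570) (nat_lit 3) (.e (nat_lit 98373) (nat_lit 29) (.e (nat_lit 450588) (nat_lit 10) (.e (nat_lit 573475) (nat_lit 12) (.e (nat_lit 57351) (nat_lit 0) (.e (nat_lit 7125) (nat_lit 382) (.e (nat_lit 1193) (nat_lit 88) .nil))))))) (.g (nat_lit 6) .nil .nil)))) (.nd (nat_lit 6) 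
(.lf (nat_lit 189345) (.g (nat_lit 3556) (.e (nat_lit 65570) (nat_lit 3) (.e (nat_lit 98373) (nat_lit 29) (.e (nat_lit 450588) (nat_lit 10) (.e (nat_lit 573473) (nat_lit 12) (.e (nat_lit 57569) (nat_lit 53) (.e (nat_lit 769792) (nat_lit 8) .nil)))))) (.g (nat_lit 5) .nil .nil))) 
(.lf (nat_lit 189409) (.g (nat_lit 2554) (.e (nat_lit 65571) (nat_lit 3) (.e (nat_lit 98320) (nat_lit 17) (.e (nat_lit 7593) (nat_lit 407) (.e (nat_lit 73746) (nat_lit 3) (.e (nat_lit 516100) (nat_lit 0) (.e (nat_lit 7936) (nat_lit 406) .nil)))))) (.g (nat_lit 5) .nil .nil))))) (.nd (nat_lit 5) (.nd (nat_lit 6) 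
(.lf (nat_lit 189329) (.g (nat_lit 2817) (.e (nat_lit 65570) (nat_lit 3) (.e (nat_lit 98373) (nat_lit 29) (.e (nat_lit 450588) (nat_lit 10) (.e (nat_lit 581376) (nat_lit 3) .nil)))) .nil)) 
(.lf (nat_lit 189393) (.g (nat_lit 2493) (.e (nat_lit 65570) (nat_lit 3) (.e (nat_lit 98389) (nat_lit 33) (.e (nat_lit 491558) (nat_lit 10) (.e (nat_lit 344117) (nat_lit 21) (.e (nat_lit 516097) (nat_lit 0) (.e (nat_lit 7589) (nat_lit 406) .nil)))))) (.g (nat_lit 4) .nil .nil)))) (.nd (nat_lit 6) 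
(.lf (nat_lit 189361) (.g (nat_lit 2883) (.e (nat_lit 65570) (nat_lit 3) (.e (nat_lit 98373) (nat_lit 29) (.e (nat_lit 450588) (nat_lit 10) (.e (nat_lit 573475) (nat_lit 12) (.e (nat_lit 57346) (nat_lit 0) .nil))))) .nil)) 
(.lf (nat_lit 189425) (.g (nat_lit 2382) (.e (nat_lit 65571) (nat_lit 3) (.e (nat_lit 98342) (nat_lit 20) (.e (nat_lit 221214) (nat_lit 23) (.e (nat_lit 204831) (nat_lit 18) (.e (nat_lit 57924) (nat_lit 282) .nil))))) .nil))))) (.nd (nat_lit 4) (.nd (nat_lit 5) (.nd (nat_lit 6) 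
(.lf (nat_lit 189321) (.g (nat_lit 2272) (.e (nat_lit 65570) (nat_lit 3) (.e (nat_lit 98373) (nat_lit 29) (.e (nat_lit 450585) (nat_lit 10) (.e (nat_lit 573474) (nat_lit 12) .nil)))) .nil)) 
(.lf (nat_lit 189385) (.g (nat_lit 2990) (.e (nat_lit 65570) (nat_lit 3) (.e (nat_lit 98373) (nat_lit 29) (.e (nat_lit 450588) (nat_lit 10) (.e (nat_lit 573495) (nat_lit 16) .nil)))) .nil))) (.nd (nat_lit 6) 
(.lf (nat_lit 189353) (.g (nat_lit 3831) (.e (nat_lit 65570) (nat_lit 3) (.e (nat_lit 98373) (nat_lit 29) (.e (nat_lit 450588) (nat_lit 10) (.e (nat_lit 573475) (nat_lit 12) (.e (nat_lit 57344) (nat_lit 0) (.e (nat_lit 7236) (nat_lit 382) (.e (nat_lit 1199) (nat_lit 88) .nil))))))) (.g (nat_lit 4) .nil .nil))) 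
(.lf (nat_lit 189417) (.g (nat_lit 974) (.e (nat_lit 65571) (nat_lit 3) (.e (nat_lit 98342) (nat_lit 20) (.e (nat_lit 221204) (nat_lit 20) (.e (nat_lit 7936) (nat_lit 195) .nil)))) .nil)))) (.nd (nat_lit 5) (.nd (nat_lit 6) 
(.lf (nat_lit 189337) (.g (nat_lit 3401) (.e (nat_lit 65570) (nat_lit 3) (.e (nat_lit 98373) (nat_lit 29) (.e (nat_lit 450588) (nat_lit 10) (.e (nat_lit 573473) (nat_lit 12) (.e (nat_lit 57348) (nat_lit 0) (.e (nat_lit 7119) (nat_lit 382) (.e (nat_lit 1195) (nat_lit 88) .nil))))))) (.g (nat_lit 4) .nil .nil))) 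
(.lf (nat_lit 189401) (.g (nat_lit 1943) (.e (nat_lit 65571) (nat_lit 3) (.e (nat_lit 98313) (nat_lit 9) (.e (nat_lit 336027) (nat_lit 3) (.e (nat_lit 98323) (nat_lit 17) (.e (nat_lit 7936) (nat_lit 222) .nil))))) .nil))) (.nd (nat_lit 6) 
(.lf (nat_lit 189369) (.g (nat_lit 4106) (.e (nat_lit 65570) (nat_lit 3) (.e (nat_lit 98373) (nat_lit 29) (.e (nat_lit 450588) (nat_lit 10) (.e (nat_lit 573475) (nat_lit 12) (.e (nat_lit 57347) (nat_lit 0) (.e (nat_lit 7126) (nat_lit 382) (.e (nat_lit 1194) (nat_lit 88) .nil))))))) (.g (nat_lit 5) .nil .nil))) 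
(.lf (nat_lit 189433) (.g (nat_lit 3079) (.e (nat_lit 65571) (nat_lit 3) (.e (nat_lit 98349) (nat_lit 24) (.e (nat_lit 409645) (nat_lit 18) (.e (nat_lit 303119) (nat_lit 3) (.e (nat_lit 204817) (nat_lit 17) .nil))))) .nil)))))) (.nd (nat_lit 3) (.nd (nat_lit 4) (.nd (nat_lit 5) (.nd (nat_lit 6) 
(.lf (nat_lit 189317) (.g (nat_lit 2439) (.e (nat_lit 65570) (nat_lit 3) (.e (nat_lit 98372) (nat_lit 29) (.e (nat_lit 450586) (nat_lit 10) (.e (nat_lit 573475) (nat_lit 12) (.e (nat_lit 57348) (nat_lit 0) .nil))))) .nil)) 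
(.lf (nat_lit 189381) (.g (nat_lit 3548) (.e (nat_lit 65570) (nat_lit 3) (.e (nat_lit 98373) (nat_lit 29) (.e (nat_lit 450588) (nat_lit 10) (.e (nat_lit 573475) (nat_lit 12) (.e (nat_lit 57568) (nat_lit 53) (.e (nat_lit 769792) (nat_lit 8) .nil)))))) (.g (nat_lit 5) .nil .nil)))) (.nd (nat_lit 6) 
(.lf (nat_lit 189349) (.g (nat_lit 3592) (.e (nat_lit 65570) (nat_lit 3) (.e (nat_lit 98373) (nat_lit 29) (.e (nat_lit 450588) (nat_lit 10) (.e (nat_lit 573475) (nat_lit 12) (.e (nat_lit 57344) (nat_lit 0) (.e (nat_lit 7128) (nat_lit 382) (.e (nat_lit 1194) (nat_lit 88) .nil))))))) (.g (nat_lit 4) .nil .nil))) 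
(.lf (nat_lit 189413) (.g (nat_lit 2947) (.e (nat_lit 65571) (nat_lit 3) (.e (nat_lit 98323) (nat_lit 17) (.e (nat_lit 6989) (nat_lit 377) (.e (nat_lit 2777) (nat_lit 178) (.e (nat_lit 286733) (nat_lit 2) .nil))))) .nil)))) (.nd (nat_lit 5) (.nd (nat_lit 6) 
(.lf (nat_lit 189333) (.g (nat_lit 1728) (.e (nat_lit 65570) (nat_lit 3) (.e (nat_lit 98373) (nat_lit 29) (.e (nat_lit 450588) (nat_lit 10) (.e (nat_lit 573473) (nat_lit 12) .nil)))) .nil)) 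
(.lf (nat_lit 189397) (.g (nat_lit 1928) (.e (nat_lit 65570) (nat_lit 3) (.e (nat_lit 98389) (nat_lit 33) (.e (nat_lit 491560) (nat_lit 10) (.e (nat_lit 344116) (nat_lit 21) .nil)))) .nil))) (.nd (nat_lit 6) 
(.lf (nat_lit 189365) (.g (nat_lit 3545) (.e (nat_lit 65570) (nat_lit 3) (.e (nat_lit 98373) (nat_lit 29) (.e (nat_lit 450588) (nat_lit 10) (.e (nat_lit 573475) (nat_lit 12) (.e (nat_lit 57347) (nat_lit 0) (.e (nat_lit 7119) (nat_lit 382) (.e (nat_lit 1195) (nat_lit 88) .nil))))))) (.g (nat_lit 4) .nil .nil))) 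
(.lf (nat_lit 189429) (.g (nat_lit 1320) (.e (nat_lit 65571) (nat_lit 3) (.e (nat_lit 98349) (nat_lit 24) (.e (nat_lit 409641) (nat_lit 17) (.e (nat_lit 294928) (nat_lit 2) .nil)))) .nil))))) (.nd (nat_lit 4) (.nd (nat_lit 5) (.nd (nat_lit 6) 
(.lf (nat_lit 189325) (.g (nat_lit 3056) (.e (nat_lit 65570) (nat_lit 3) (.e (nat_lit 98373) (nat_lit 29) (.e (nat_lit 450587) (nat_lit 10) (.e (nat_lit 573475) (nat_lit 12) (.e (nat_lit 57346) (nat_lit 0) .nil))))) .nil)) 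
(.lf (nat_lit 189389) (.g (nat_lit 1531) (.e (nat_lit 65570) (nat_lit 3) (.e (nat_lit 98388) (nat_lit 33) (.e (nat_lit 491560) (nat_lit 10) (.e (nat_lit 344118) (nat_lit 21) .nil)))) .nil))) (.nd (nat_lit 6) 
(.lf (nat_lit 189357) (.g (nat_lit 3590) (.e (nat_lit 65570) (nat_lit 3) (.e (nat_lit 98373) (nat_lit 29) (.e (nat_lit 450588) (nat_lit 10) (.e (nat_lit 573475) (nat_lit 12) (.e (nat_lit 57345) (nat_lit 0) (.e (nat_lit 7218) (nat_lit 382) (.e (nat_lit 1194) (nat_lit 88) .nil))))))) (.g (nat_lit 4) .nil .nil))) 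
(.lf (nat_lit 189421) (.g (nat_lit 1494) (.e (nat_lit 65571) (nat_lit 3) (.e (nat_lit 98342) (nat_lit 20) (.e (nat_lit 221214) (nat_lit 23) (.e (nat_lit 204819) (nat_lit 17) .nil)))) .nil)))) (.nd (nat_lit 5) (.nd (nat_lit 6) 
(.lf (nat_lit 189341) (.g (nat_lit 3412) (.e (nat_lit 65570) (nat_lit 3) (.e (nat_lit 98373) (nat_lit 29) (.e (nat_lit 450588) (nat_lit 10) (.e (nat_lit 573473) (nat_lit 12) (.e (nat_lit 57353) (nat_lit 0) (.e (nat_lit 7124) (nat_lit 382) (.e (nat_lit 1193) (nat_lit 88) .nil))))))) (.g (nat_lit 4) .nil .nil))) 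
(.lf (nat_lit 189405) (.g (nat_lit 2419) (.e (nat_lit 65571) (nat_lit 3) (.e (nat_lit 98319) (nat_lit 17) (.e (nat_lit 7593) (nat_lit 407) (.e (nat_lit 73746) (nat_lit 3) (.e (nat_lit 516105) (nat_lit 0) (.e (nat_lit 7936) (nat_lit 406) .nil)))))) (.g (nat_lit 5) .nil .nil)))) (.nd (nat_lit 6) 
(.lf (nat_lit 189373) (.g (nat_lit 3373) (.e (nat_lit 65570) (nat_lit 3) (.e (nat_lit 98373) (nat_lit 29) (.e (nat_lit 450588) (nat_lit 10) (.e (nat_lit 573475) (nat_lit 12) (.e (nat_lit 57348) (nat_lit 0) (.e (nat_lit 7124) (nat_lit 382) (.e (nat_lit 1193) (nat_lit 88) .nil))))))) (.g (nat_lit 4) .nil .nil))) 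
(.lf (nat_lit 189437) (.g (nat_lit 3062) (.e (nat_lit 65571) (nat_lit 3) (.e (nat_lit 98349) (nat_lit 24) (.e (nat_lit 409646) (nat_lit 18) (.e (nat_lit 303119) (nat_lit 3) (.e (nat_lit 204817) (nat_lit 17) .nil))))) .nil))))))) (.nd (nat_lit 2) (.nd (nat_lit 3) (.nd (nat_lit 4) (.nd (nat_lit 5) (.nd (nat_lit 6) 
(.lf (nat_lit 189315) (.g (nat_lit 2040) (.e (nat_lit 65570) (nat_lit 3) (.e (nat_lit 98372) (nat_lit 29) (.e (nat_lit 450586) (nat_lit 10) (.e (nat_lit 573473) (nat_lit 12) (.e (nat_lit 57348) (nat_lit 0) .nil))))) .nil)) 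
(.lf (nat_lit 189379) (.g (nat_lit 3639) (.e (nat_lit 65570) (nat_lit 3) (.e (nat_lit 98373) (nat_lit 29) (.e (nat_lit 450588) (nat_lit 10) (.e (nat_lit 573475) (nat_lit 12) (.e (nat_lit 57353) (nat_lit 0) (.e (nat_lit 7125) (nat_lit 382) (.e (nat_lit 1193) (nat_lit 88) .nil))))))) (.g (nat_lit 4) .nil .nil)))) (.nd (nat_lit 6) 
(.lf (nat_lit 189347) (.g (nat_lit 1739) (.e (nat_lit 65570) (nat_lit 3) (.e (nat_lit 98373) (nat_lit 29) (.e (nat_lit 450588) (nat_lit 10) (.e (nat_lit 573475) (nat_lit 12) .nil)))) .nil)) 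
(.lf (nat_lit 189411) (.g (nat_lit 2348) (.e (nat_lit 65571) (nat_lit 3) (.e (nat_lit 98320) (nat_lit 17) (.e (nat_lit 7593) (nat_lit 407) (.e (nat_lit 73746) (nat_lit 3) (.e (nat_lit 516105) (nat_lit 0) (.e (nat_lit 7936) (nat_lit 406) .nil)))))) (.g (nat_lit 5) .nil .nil))))) (.nd (nat_lit 5) (.nd (nat_lit 6) 
(.lf (nat_lit 189331) (.g (nat_lit 2339) (.e (nat_lit 65570) (nat_lit 3) (.e (nat_lit 98373) (nat_lit 29) (.e (nat_lit 450588) (nat_lit 10) (.e (nat_lit 573452) (nat_lit 9) .nil)))) .nil)) 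
(.lf (nat_lit 189395) (.g (nat_lit 1894) (.e (nat_lit 65570) (nat_lit 3) (.e (nat_lit 98389) (nat_lit 33) (.e (nat_lit 491560) (nat_lit 10) (.e (nat_lit 344105) (nat_lit 19) (.e (nat_lit 499910) (nat_lit 8) .nil))))) .nil))) (.nd (nat_lit 6) 
(.lf (nat_lit 189363) (.g (nat_lit 3167) (.e (nat_lit 65570) (nat_lit 3) (.e (nat_lit 98373) (nat_lit 29) (.e (nat_lit 450588) (nat_lit 10) (.e (nat_lit 573475) (nat_lit 12) (.e (nat_lit 57347) (nat_lit 0) (.e (nat_lit 7119) (nat_lit 382) (.e (nat_lit 1191) (nat_lit 88) .nil))))))) (.g (nat_lit 4) .nil .nil))) 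
(.lf (nat_lit 189427) (.g (nat_lit 2499) (.e (nat_lit 65571) (nat_lit 3) (.e (nat_lit 98342) (nat_lit 20) (.e (nat_lit 221215) (nat_lit 23) (.e (nat_lit 204830) (nat_lit 18) (.e (nat_lit 57930) (nat_lit 282) .nil))))) .nil))))) (.nd (nat_lit 4) (.nd (nat_lit 5) (.nd (nat_lit 6) 
(.lf (nat_lit 189323) (.g (nat_lit 2888) (.e (nat_lit 65570) (nat_lit 3) (.e (nat_lit 98373) (nat_lit 29) (.e (nat_lit 450587) (nat_lit 10) (.e (nat_lit 573473) (nat_lit 12) .nil)))) .nil)) 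
(.lf (nat_lit 189387) (.g (nat_lit 3735) (.e (nat_lit 65570) (nat_lit 3) (.e (nat_lit 98373) (nat_lit 29) (.e (nat_lit 450588) (nat_lit 10) (.e (nat_lit 573503) (nat_lit 18) (.e (nat_lit 1015) (nat_lit 81) (.e (nat_lit 720) (nat_lit 64) (.e (nat_lit 688178) (nat_lit 16) .nil))))))) (.g (nat_lit 4) .nil .nil)))) (.nd (nat_lit 6) 
(.lf (nat_lit 189355) (.g (nat_lit 3298) (.e (nat_lit 65570) (nat_lit 3) (.e (nat_lit 98373) (nat_lit 29) (.e (nat_lit 450588) (nat_lit 10) (.e (nat_lit 573475) (nat_lit 12) (.e (nat_lit 57345) (nat_lit 0) (.e (nat_lit 7126) (nat_lit 382) (.e (nat_lit 1194) (nat_lit 88) .nil))))))) (.g (nat_lit 4) .nil .nil))) 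
(.lf (nat_lit 189419) (.g (nat_lit 3037) (.e (nat_lit 65571) (nat_lit 3) (.e (nat_lit 98342) (nat_lit 20) (.e (nat_lit 221212) (nat_lit 22) (.e (nat_lit 196659) (nat_lit 12) (.e (nat_lit 57507) (nat_lit 39) (.e (nat_lit 647203) (nat_lit 14) (.e (nat_lit 1139) (nat_lit 84) (.e (nat_lit 32787) (nat_lit 9) .nil)))))))) (.g (nat_lit 6) .nil .nil))))) (.nd (nat_lit 5) (.nd (nat_lit 6) 
(.lf (nat_lit 189339) (.g (nat_lit 3198) (.e (nat_lit 65570) (nat_lit 3) (.e (nat_lit 98373) (nat_lit 29) (.e (nat_lit 450588) (nat_lit 10) (.e (nat_lit 573473) (nat_lit 12) (.e (nat_lit 57350) (nat_lit 0) (.e (nat_lit 7159) (nat_lit 382) (.e (nat_lit 1202) (nat_lit 88) .nil))))))) (.g (nat_lit 4) .nil .nil))) 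
(.lf (nat_lit 189403) (.g (nat_lit 2626) (.e (nat_lit 65571) (nat_lit 3) (.e (nat_lit 98319) (nat_lit 17) (.e (nat_lit 7593) (nat_lit 407) (.e (nat_lit 73746) (nat_lit 3) (.e (nat_lit 516100) (nat_lit 0) (.e (nat_lit 7936) (nat_lit 406) .nil)))))) (.g (nat_lit 5) .nil .nil)))) (.nd (nat_lit 6) 
(.lf (nat_lit 189371) (.g (nat_lit 4361) (.e (nat_lit 65570) (nat_lit 3) (.e (nat_lit 98373) (nat_lit 29) (.e (nat_lit 450588) (nat_lit 10) (.e (nat_lit 573475) (nat_lit 12) (.e (nat_lit 57347) (nat_lit 0) (.e (nat_lit 7236) (nat_lit 382) (.e (nat_lit 1200) (nat_lit 88) .nil))))))) (.g (nat_lit 5) .nil .nil))) 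
(.lf (nat_lit 189435) (.g (nat_lit 3094) (.e (nat_lit 65571) (nat_lit 3) (.e (nat_lit 98349) (nat_lit 24) (.e (nat_lit 409645) (nat_lit 18) (.e (nat_lit 303119) (nat_lit 3) (.e (nat_lit 204821) (nat_lit 17) (.e (nat_lit 7936) (nat_lit 347) .nil)))))) (.g (nat_lit 4) .nil .nil))))))) (.nd (nat_lit 3) (.nd (nat_lit 4) (.nd (nat_lit 5) (.nd (nat_lit 6) 
(.lf (nat_lit 189319) (.g (nat_lit 2153) (.e (nat_lit 65570) (nat_lit 3) (.e (nat_lit 98372) (nat_lit 29) (.e (nat_lit 450588) (nat_lit 10) (.e (nat_lit 573475) (nat_lit 12) .nil)))) .nil)) 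
(.lf (nat_lit 189383) (.g (nat_lit 2928) (.e (nat_lit 65570) (nat_lit 3) (.e (nat_lit 98373) (nat_lit 29) (.e (nat_lit 450588) (nat_lit 10) (.e (nat_lit 573475) (nat_lit 12) (.e (nat_lit 57571) (nat_lit 54) .nil))))) .nil))) (.nd (nat_lit 6) 
(.lf (nat_lit 189351) (.g (nat_lit 3319) (.e (nat_lit 65570) (nat_lit 3) (.e (nat_lit 98373) (nat_lit 29) (.e (nat_lit 450588) (nat_lit 10) (.e (nat_lit 573475) (nat_lit 12) (.e (nat_lit 57344) (nat_lit 0) (.e (nat_lit 7147) (nat_lit 382) (.e (nat_lit 1204) (nat_lit 88) .nil))))))) (.g (nat_lit 4) .nil .nil))) 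
(.lf (nat_lit 189415) (.g (nat_lit 1085) (.e (nat_lit 65571) (nat_lit 3) (.e (nat_lit 98334) (nat_lit 18) (.e (nat_lit 164161) (nat_lit 152) (.e (nat_lit 1286) (nat_lit 95) .nil)))) .nil)))) (.nd (nat_lit 5) (.nd (nat_lit 6) 
(.lf (nat_lit 189335) (.g (nat_lit 2354) (.e (nat_lit 65570) (nat_lit 3) (.e (nat_lit 98373) (nat_lit 29) (.e (nat_lit 450588) (nat_lit 10) (.e (nat_lit 573473) (nat_lit 12) (.e (nat_lit 57348) (nat_lit 0) .nil))))) .nil)) 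
(.lf (nat_lit 189399) (.g (nat_lit 2948) (.e (nat_lit 65570) (nat_lit 3) (.e (nat_lit 98389) (nat_lit 33) (.e (nat_lit 491560) (nat_lit 10) (.e (nat_lit 344117) (nat_lit 21) (.e (nat_lit 516099) (nat_lit 0) (.e (nat_lit 7936) (nat_lit 406) .nil)))))) (.g (nat_lit 4) .nil .nil)))) (.nd (nat_lit 6) 
(.lf (nat_lit 189367) (.g (nat_lit 4141) (.e (nat_lit 65570) (nat_lit 3) (.e (nat_lit 98373) (nat_lit 29) (.e (nat_lit 450588) (nat_lit 10) (.e (nat_lit 573475) (nat_lit 12) (.e (nat_lit 57347) (nat_lit 0) (.e (nat_lit 7124) (nat_lit 382) (.e (nat_lit 1193) (nat_lit 88) .nil))))))) (.g (nat_lit 5) .nil .nil))) 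
(.lf (nat_lit 189431) (.g (nat_lit 2592) (.e (nat_lit 65571) (nat_lit 3) (.e (nat_lit 98349) (nat_lit 24) (.e (nat_lit 409644) (nat_lit 18) (.e (nat_lit 303119) (nat_lit 3) (.e (nat_lit 204819) (nat_lit 17) (.e (nat_lit 7936) (nat_lit 347) .nil)))))) (.g (nat_lit 5) .nil .nil)))))) (.nd (nat_lit 4) (.nd (nat_lit 5) (.nd (nat_lit 6) 
(.lf (nat_lit 189327) (.g (nat_lit 1265) (.e (nat_lit 65570) (nat_lit 3) (.e (nat_lit 98373) (nat_lit 29) (.e (nat_lit 450587) (nat_lit 10) (.e (nat_lit 573477) (nat_lit 12) .nil)))) .nil)) 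
(.lf (nat_lit 189391) (.g (nat_lit 1074) (.e (nat_lit 65570) (nat_lit 3) (.e (nat_lit 98389) (nat_lit 33) (.e (nat_lit 491558) (nat_lit 10) (.e (nat_lit 344115) (nat_lit 20) .nil)))) .nil))) (.nd (nat_lit 6) 
(.lf (nat_lit 189359) (.g (nat_lit 3647) (.e (nat_lit 65570) (nat_lit 3) (.e (nat_lit 98373) (nat_lit 29) (.e (nat_lit 450588) (nat_lit 10) (.e (nat_lit 573475) (nat_lit 12) (.e (nat_lit 57345) (nat_lit 0) (.e (nat_lit 7236) (nat_lit 382) (.e (nat_lit 1189) (nat_lit 88) .nil))))))) (.g (nat_lit 4) .nil .nil))) 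
(.lf (nat_lit 189423) (.g (nat_lit 2305) (.e (nat_lit 65571) (nat_lit 3) (.e (nat_lit 98342) (nat_lit 20) (.e (nat_lit 221214) (nat_lit 23) (.e (nat_lit 204829) (nat_lit 18) (.e (nat_lit 57931) (nat_lit 282) .nil))))) .nil)))) (.nd (nat_lit 5) (.nd (nat_lit 6) 
(.lf (nat_lit 189343) (.g (nat_lit 4315) (.e (nat_lit 65570) (nat_lit 3) (.e (nat_lit 98373) (nat_lit 29) (.e (nat_lit 450588) (nat_lit 10) (.e (nat_lit 573473) (nat_lit 12) (.e (nat_lit 57353) (nat_lit 0) (.e (nat_lit 7125) (nat_lit 382) (.e (nat_lit 1193) (nat_lit 88) .nil))))))) (.g (nat_lit 6) .nil .nil))) 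
(.lf (nat_lit 189407) (.g (nat_lit 2693) (.e (nat_lit 65571) (nat_lit 3) (.e (nat_lit 98320) (nat_lit 17) (.e (nat_lit 7591) (nat_lit 407) (.e (nat_lit 73747) (nat_lit 3) (.e (nat_lit 516106) (nat_lit 0) (.e (nat_lit 7936) (nat_lit 406) .nil)))))) (.g (nat_lit 5) .nil .nil)))) (.nd (nat_lit 6) 
(.lf (nat_lit 189375) (.g (nat_lit 3253) (.e (nat_lit 65570) (nat_lit 3) (.e (nat_lit 98373) (nat_lit 29) (.e (nat_lit 450588) (nat_lit 10) (.e (nat_lit 573475) (nat_lit 12) (.e (nat_lit 57351) (nat_lit 0) (.e (nat_lit 7122) (nat_lit 382) (.e (nat_lit 1191) (nat_lit 88) .nil))))))) (.g (nat_lit 4) .nil .nil))) 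
(.lf (nat_lit 189439) (.g (nat_lit 2885) (.e (nat_lit 65571) (nat_lit 3) (.e (nat_lit 98349) (nat_lit 24) (.e (nat_lit 409646) (nat_lit 18) (.e (nat_lit 303119) (nat_lit 3) (.e (nat_lit 204821) (nat_lit 17) (.e (nat_lit 7936) (nat_lit 347) .nil)))))) (.g (nat_lit 5) .nil .nil))))))))))

noncomputable def tv2509 : DT := (.nd (nat_lit 0) (.nd (nat_lit 1) (.nd (nat_lit 2) (.nd (nat_lit 3) (.nd (nat_lit 4) (.nd (nat_lit 5) 
(.lf (nat_lit 189440) (.g (nat_lit 4043) (.e (nat_lit 65571) (nat_lit 3) (.e (nat_lit 98350) (nat_lit 24) (.e (nat_lit 409616) (nat_lit 10) (.e (nat_lit 5355) (nat_lit 298) (.e (nat_lit 1235) (nat_lit 91) (.e (nat_lit 90165) (nat_lit 12) (.e (nat_lit 171776) (nat_lit 191) .nil))))))) (.g (nat_lit 5) .nil .nil))) 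
(.lf (nat_lit 189472) (.g (nat_lit 1612) (.e (nat_lit 65571) (nat_lit 3) (.e (nat_lit 98350) (nat_lit 24) (.e (nat_lit 409647) (nat_lit 18) (.e (nat_lit 303119) (nat_lit 3) .nil)))) .nil))) (.nd (nat_lit 5) 
(.lf (nat_lit 189456) (.g (nat_lit 2466) (.e (nat_lit 65571) (nat_lit 3) (.e (nat_lit 98350) (nat_lit 24) (.e (nat_lit 409644) (nat_lit 18) (.e (nat_lit 303119) (nat_lit 3) (.e (nat_lit 204817) (nat_lit 17) .nil))))) .nil)) 
(.lf (nat_lit 189488) (.g (nat_lit 3978) (.e (nat_lit 65571) (nat_lit 3) (.e (nat_lit 98350) (nat_lit 24) (.e (nat_lit 409648) (nat_lit 18) (.e (nat_lit 303119) (nat_lit 3) (.e (nat_lit 204819) (nat_lit 17) (.e (nat_lit 7936) (nat_lit 347) .nil)))))) (.g (nat_lit 5) .nil .nil))))) (.nd (nat_lit 4) (.nd (nat_lit 5) 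
(.lf (nat_lit 189448) (.g (nat_lit 1810) (.e (nat_lit 65571) (nat_lit 3) (.e (nat_lit 98350) (nat_lit 24) (.e (nat_lit 409641) (nat_lit 17) (.e (nat_lit 294930) (nat_lit 3) .nil)))) .nil)) 
(.lf (nat_lit 189480) (.g (nat_lit 2754) (.e (nat_lit 65571) (nat_lit 3) (.e (nat_lit 98350) (nat_lit 24) (.e (nat_lit 409648) (nat_lit 18) (.e (nat_lit 303118) (nat_lit 3) (.e (nat_lit 204816) (nat_lit 17) .nil))))) .nil))) (.nd (nat_lit 5) 
(.lf (nat_lit 189464) (.g (nat_lit 2757) (.e (nat_lit 65571) (nat_lit 3) (.e (nat_lit 98350) (nat_lit 24) (.e (nat_lit 409645) (nat_lit 18) (.e (nat_lit 303119) (nat_lit 3) (.e (nat_lit 204830) (nat_lit 18) .nil))))) .nil)) 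
(.lf (nat_lit 189496) (.g (nat_lit 3433) (.e (nat_lit 65571) (nat_lit 3) (.e (nat_lit 98350) (nat_lit 24) (.e (nat_lit 409649) (nat_lit 18) (.e (nat_lit 303118) (nat_lit 3) (.e (nat_lit 212736) (nat_lit 17) (.e (nat_lit 6516) (nat_lit 347) .nil)))))) (.g (nat_lit 4) .nil .nil)))))) (.nd (nat_lit 3) (.nd (nat_lit 4) (.nd (nat_lit 5) 
(.lf (nat_lit 189444) (.g (nat_lit 1192) (.e (nat_lit 65571) (nat_lit 3) (.e (nat_lit 98350) (nat_lit 24) (.e (nat_lit 409617) (nat_lit 10) (.e (nat_lit 5762) (nat_lit 315) .nil)))) .nil)) 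
(.lf (nat_lit 189476) (.g (nat_lit 2370) (.e (nat_lit 65571) (nat_lit 3) (.e (nat_lit 98350) (nat_lit 24) (.e (nat_lit 409648) (nat_lit 18) (.e (nat_lit 303116) (nat_lit 2) (.e (nat_lit 196628) (nat_lit 9) .nil))))) .nil))) (.nd (nat_lit 5) 
(.lf (nat_lit 189460) (.g (nat_lit 4088) (.e (nat_lit 65571) (nat_lit 3) (.e (nat_lit 98350) (nat_lit 24) (.e (nat_lit 409645) (nat_lit 18) (.e (nat_lit 303119) (nat_lit 3) (.e (nat_lit 204816) (nat_lit 17) (.e (nat_lit 6517) (nat_lit 347) .nil)))))) (.g (nat_lit 4) .nil .nil))) 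
(.lf (nat_lit 189492) (.g (nat_lit 4135) (.e (nat_lit 65571) (nat_lit 3) (.e (nat_lit 98350) (nat_lit 24) (.e (nat_lit 409649) (nat_lit 18) (.e (nat_lit 303117) (nat_lit 2) (.e (nat_lit 196661) (nat_lit 12) (.e (nat_lit 65280) (nat_lit 191) .nil)))))) (.g (nat_lit 5) .nil .nil))))) (.nd (nat_lit 4) (.nd (nat_lit 5) 
(.lf (nat_lit 189452) (.g (nat_lit 2640) (.e (nat_lit 65571) (nat_lit 3) (.e (nat_lit 98350) (nat_lit 24) (.e (nat_lit 409643) (nat_lit 18) (.e (nat_lit 303119) (nat_lit 3) (.e (nat_lit 204817) (nat_lit 17) (.e (nat_lit 7936) (nat_lit 347) .nil)))))) (.g (nat_lit 4) .nil .nil))) 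
(.lf (nat_lit 189484) (.g (nat_lit 3519) (.e (nat_lit 65571) (nat_lit 3) (.e (nat_lit 98350) (nat_lit 24) (.e (nat_lit 409648) (nat_lit 18) (.e (nat_lit 303118) (nat_lit 3) (.e (nat_lit 212736) (nat_lit 17) (.e (nat_lit 6516) (nat_lit 347) .nil)))))) (.g (nat_lit 4) .nil .nil)))) (.nd (nat_lit 5) 
(.lf (nat_lit 189468) (.g (nat_lit 3164) (.e (nat_lit 65571) (nat_lit 3) (.e (nat_lit 98350) (nat_lit 24) (.e (nat_lit 409646) (nat_lit 18) (.e (nat_lit 303119) (nat_lit 3) (.e (nat_lit 204817) (nat_lit 17) (.e (nat_lit 7936) (nat_lit 347) .nil)))))) (.g (nat_lit 4) .nil .nil))) 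
(.lf (nat_lit 189500) (.g (nat_lit 3492) (.e (nat_lit 65571) (nat_lit 3) (.e (nat_lit 98350) (nat_lit 24) (.e (nat_lit 409649) (nat_lit 18) (.e (nat_lit 303119) (nat_lit 3) (.e (nat_lit 204819) (nat_lit 17) (.e (nat_lit 7936) (nat_lit 347) .nil)))))) (.g (nat_lit 5) .nil .nil))))))) (.nd (nat_lit 2) (.nd (nat_lit 3) (.nd (nat_lit 4) (.nd (nat_lit 5) 
(.lf (nat_lit 189442) (.g (nat_lit 2822) (.e (nat_lit 65571) (nat_lit 3) (.e (nat_lit 98350) (nat_lit 24) (.e (nat_lit 409617) (nat_lit 10) (.e (nat_lit 5355) (nat_lit 298) (.e (nat_lit 1234) (nat_lit 91) (.e (nat_lit 90165) (nat_lit 12) (.e (nat_lit 171776) (nat_lit 191) .nil))))))) (.g (nat_lit 4) .nil .nil))) 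
(.lf (nat_lit 189474) (.g (nat_lit 3593) (.e (nat_lit 65571) (nat_lit 3) (.e (nat_lit 98350) (nat_lit 24) (.e (nat_lit 409647) (nat_lit 18) (.e (nat_lit 303119) (nat_lit 3) (.e (nat_lit 204819) (nat_lit 17) (.e (nat_lit 7936) (nat_lit 347) .nil)))))) (.g (nat_lit 5) .nil .nil)))) (.nd (nat_lit 5) 
(.lf (nat_lit 189458) (.g (nat_lit 2504) (.e (nat_lit 65571) (nat_lit 3) (.e (nat_lit 98350) (nat_lit 24) (.e (nat_lit 409644) (nat_lit 18) (.e (nat_lit 303119) (nat_lit 3) (.e (nat_lit 204821) (nat_lit 17) (.e (nat_lit 7936) (nat_lit 347) .nil)))))) (.g (nat_lit 4) .nil .nil))) 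
(.lf (nat_lit 189490) (.g (nat_lit 2843) (.e (nat_lit 65571) (nat_lit 3) (.e (nat_lit 98350) (nat_lit 24) (.e (nat_lit 409649) (nat_lit 18) (.e (nat_lit 303116) (nat_lit 2) (.e (nat_lit 196661) (nat_lit 12) (.e (nat_lit 65280) (nat_lit 191) .nil)))))) (.g (nat_lit 4) .nil .nil))))) (.nd (nat_lit 4) (.nd (nat_lit 5) 
(.lf (nat_lit 189450) (.g (nat_lit 2663) (.e (nat_lit 65571) (nat_lit 3) (.e (nat_lit 98350) (nat_lit 24) (.e (nat_lit 409643) (nat_lit 18) (.e (nat_lit 303117) (nat_lit 2) (.e (nat_lit 196661) (nat_lit 12) (.e (nat_lit 65280) (nat_lit 191) .nil)))))) (.g (nat_lit 4) .nil .nil))) 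
(.lf (nat_lit 189482) (.g (nat_lit 3978) (.e (nat_lit 65571) (nat_lit 3) (.e (nat_lit 98350) (nat_lit 24) (.e (nat_lit 409648) (nat_lit 18) (.e (nat_lit 303118) (nat_lit 3) (.e (nat_lit 204817) (nat_lit 17) (.e (nat_lit 7936) (nat_lit 347) .nil)))))) (.g (nat_lit 4) .nil .nil)))) (.nd (nat_lit 5) 
(.lf (nat_lit 189466) (.g (nat_lit 4201) (.e (nat_lit 65571) (nat_lit 3) (.e (nat_lit 98350) (nat_lit 24) (.e (nat_lit 409646) (nat_lit 18) (.e (nat_lit 303117) (nat_lit 2) (.e (nat_lit 196661) (nat_lit 12) (.e (nat_lit 65280) (nat_lit 191) .nil)))))) (.g (nat_lit 5) .nil .nil))) 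
(.lf (nat_lit 189498) (.g (nat_lit 2640) (.e (nat_lit 65571) (nat_lit 3) (.e (nat_lit 98350) (nat_lit 24) (.e (nat_lit 409649) (nat_lit 18) (.e (nat_lit 303119) (nat_lit 3) (.e (nat_lit 204816) (nat_lit 17) .nil))))) .nil))))) (.nd (nat_lit 3) (.nd (nat_lit 4) (.nd (nat_lit 5) 
(.lf (nat_lit 189446) (.g (nat_lit 1776) (.e (nat_lit 65571) (nat_lit 3) (.e (nat_lit 98350) (nat_lit 24) (.e (nat_lit 409641) (nat_lit 17) (.e (nat_lit 294927) (nat_lit 2) .nil)))) .nil)) 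
(.lf (nat_lit 189478) (.g (nat_lit 3508) (.e (nat_lit 65571) (nat_lit 3) (.e (nat_lit 98350) (nat_lit 24) (.e (nat_lit 409648) (nat_lit 18) (.e (nat_lit 303117) (nat_lit 2) (.e (nat_lit 196628) (nat_lit 9) (.e (nat_lit 968) (nat_lit 81) (.e (nat_lit 6516) (nat_lit 347) .nil))))))) (.g (nat_lit 4) .nil .nil)))) (.nd (nat_lit 5) 
(.lf (nat_lit 189462) (.g (nat_lit 4393) (.e (nat_lit 65571) (nat_lit 3) (.e (nat_lit 98350) (nat_lit 24) (.e (nat_lit 409645) (nat_lit 18) (.e (nat_lit 303119) (nat_lit 3) (.e (nat_lit 204819) (nat_lit 17) (.e (nat_lit 7936) (nat_lit 347) .nil)))))) (.g (nat_lit 5) .nil .nil))) 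
(.lf (nat_lit 189494) (.g (nat_lit 3632) (.e (nat_lit 65571) (nat_lit 3) (.e (nat_lit 98350) (nat_lit 24) (.e (nat_lit 409649) (nat_lit 18) (.e (nat_lit 303118) (nat_lit 3) (.e (nat_lit 204817) (nat_lit 17) (.e (nat_lit 7936) (nat_lit 347) .nil)))))) (.g (nat_lit 4) .nil .nil))))) (.nd (nat_lit 4) (.nd (nat_lit 5) 
(.lf (nat_lit 189454) (.g (nat_lit 2782) (.e (nat_lit 65571) (nat_lit 3) (.e (nat_lit 98350) (nat_lit 24) (.e (nat_lit 409643) (nat_lit 18) (.e (nat_lit 303119) (nat_lit 3) (.e (nat_lit 204821) (nat_lit 17) (.e (nat_lit 7936) (nat_lit 347) .nil)))))) (.g (nat_lit 4) .nil .nil))) 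
(.lf (nat_lit 189486) (.g (nat_lit 4523) (.e (nat_lit 65571) (nat_lit 3) (.e (nat_lit 98350) (nat_lit 24) (.e (nat_lit 409648) (nat_lit 18) (.e (nat_lit 303119) (nat_lit 3) (.e (nat_lit 204816) (nat_lit 17) (.e (nat_lit 6517) (nat_lit 347) .nil)))))) (.g (nat_lit 5) .nil .nil)))) (.nd (nat_lit 5) 
(.lf (nat_lit 189470) (.g (nat_lit 3658) (.e (nat_lit 65571) (nat_lit 3) (.e (nat_lit 98350) (nat_lit 24) (.e (nat_lit 409646) (nat_lit 18) (.e (nat_lit 303119) (nat_lit 3) (.e (nat_lit 204821) (nat_lit 17) (.e (nat_lit 7936) (nat_lit 347) .nil)))))) (.g (nat_lit 5) .nil .nil))) 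
(.lf (nat_lit 189502) (.g (nat_lit 2746) (.e (nat_lit 65571) (nat_lit 3) (.e (nat_lit 98350) (nat_lit 24) (.e (nat_lit 409649) (nat_lit 18) (.e (nat_lit 303119) (nat_lit 3) (.e (nat_lit 212736) (nat_lit 17) (.e (nat_lit 6516) (nat_lit 347) .nil)))))) (.g (nat_lit 4) .nil .nil)))))))) (.nd (nat_lit 1) (.nd (nat_lit 2) (.nd (nat_lit 3) (.nd (nat_lit 4) (.nd (nat_lit 5) 
(.lf (nat_lit 189441) (.g (nat_lit 3229) (.e (nat_lit 65571) (nat_lit 3) (.e (nat_lit 98350) (nat_lit 24) (.e (nat_lit 409616) (nat_lit 10) (.e (nat_lit 5355) (nat_lit 298) (.e (nat_lit 1252) (nat_lit 92) (.e (nat_lit 98320) (nat_lit 17) (.e (nat_lit 7587) (nat_lit 406) .nil))))))) (.g (nat_lit 4) .nil .nil))) 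
(.lf (nat_lit 189473) (.g (nat_lit 2928) (.e (nat_lit 65571) (nat_lit 3) (.e (nat_lit 98350) (nat_lit 24) (.e (nat_lit 409647) (nat_lit 18) (.e (nat_lit 303119) (nat_lit 3) (.e (nat_lit 204817) (nat_lit 17) (.e (nat_lit 7936) (nat_lit 347) .nil)))))) (.g (nat_lit 4) .nil .nil)))) (.nd (nat_lit 5) 
(.lf (nat_lit 189457) (.g (nat_lit 3664) (.e (nat_lit 65571) (nat_lit 3) (.e (nat_lit 98350) (nat_lit 24) (.e (nat_lit 409644) (nat_lit 18) (.e (nat_lit 303119) (nat_lit 3) (.e (nat_lit 204819) (nat_lit 17) (.e (nat_lit 7936) (nat_lit 347) .nil)))))) (.g (nat_lit 5) .nil .nil))) 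
(.lf (nat_lit 189489) (.g (nat_lit 3883) (.e (nat_lit 65571) (nat_lit 3) (.e (nat_lit 98350) (nat_lit 24) (.e (nat_lit 409648) (nat_lit 18) (.e (nat_lit 303119) (nat_lit 3) (.e (nat_lit 204821) (nat_lit 17) (.e (nat_lit 7936) (nat_lit 347) .nil)))))) (.g (nat_lit 5) .nil .nil))))) (.nd (nat_lit 4) (.nd (nat_lit 5) 
(.lf (nat_lit 189449) (.g (nat_lit 1985) (.e (nat_lit 65571) (nat_lit 3) (.e (nat_lit 98350) (nat_lit 24) (.e (nat_lit 409642) (nat_lit 17) (.e (nat_lit 294928) (nat_lit 2) .nil)))) .nil)) 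
(.lf (nat_lit 189481) (.g (nat_lit 4617) (.e (nat_lit 65571) (nat_lit 3) (.e (nat_lit 98350) (nat_lit 24) (.e (nat_lit 409648) (nat_lit 18) (.e (nat_lit 303118) (nat_lit 3) (.e (nat_lit 204816) (nat_lit 17) (.e (nat_lit 6517) (nat_lit 347) .nil)))))) (.g (nat_lit 5) .nil .nil)))) (.nd (nat_lit 5) 
(.lf (nat_lit 189465) (.g (nat_lit 3075) (.e (nat_lit 65571) (nat_lit 3) (.e (nat_lit 98350) (nat_lit 24) (.e (nat_lit 409646) (nat_lit 18) (.e (nat_lit 303117) (nat_lit 2) (.e (nat_lit 196628) (nat_lit 9) .nil))))) .nil)) 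
(.lf (nat_lit 189497) (.g (nat_lit 2716) (.e (nat_lit 65571) (nat_lit 3) (.e (nat_lit 98350) (nat_lit 24) (.e (nat_lit 409649) (nat_lit 18) (.e (nat_lit 303118) (nat_lit 3) (.e (nat_lit 204830) (nat_lit 18) .nil))))) .nil))))) (.nd (nat_lit 3) (.nd (nat_lit 4) (.nd (nat_lit 5) 
(.lf (nat_lit 189445) (.g (nat_lit 538) (.e (nat_lit 65571) (nat_lit 3) (.e (nat_lit 98350) (nat_lit 24) (.e (nat_lit 409618) (nat_lit 10) .nil))) .nil)) 
(.lf (nat_lit 189477) (.g (nat_lit 3112) (.e (nat_lit 65571) (nat_lit 3) (.e (nat_lit 98350) (nat_lit 24) (.e (nat_lit 409648) (nat_lit 18) (.e (nat_lit 303116) (nat_lit 2) (.e (nat_lit 196661) (nat_lit 12) (.e (nat_lit 65280) (nat_lit 191) .nil)))))) (.g (nat_lit 4) .nil .nil)))) (.nd (nat_lit 5) 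
(.lf (nat_lit 189461) (.g (nat_lit 3432) (.e (nat_lit 65571) (nat_lit 3) (.e (nat_lit 98350) (nat_lit 24) (.e (nat_lit 409645) (nat_lit 18) (.e (nat_lit 303119) (nat_lit 3) (.e (nat_lit 204817) (nat_lit 17) (.e (nat_lit 7936) (nat_lit 347) .nil)))))) (.g (nat_lit 4) .nil .nil))) 
(.lf (nat_lit 189493) (.g (nat_lit 4206) (.e (nat_lit 65571) (nat_lit 3) (.e (nat_lit 98350) (nat_lit 24) (.e (nat_lit 409649) (nat_lit 18) (.e (nat_lit 303118) (nat_lit 3) (.e (nat_lit 204816) (nat_lit 17) (.e (nat_lit 6517) (nat_lit 347) .nil)))))) (.g (nat_lit 5) .nil .nil))))) (.nd (nat_lit 4) (.nd (nat_lit 5) 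
(.lf (nat_lit 189453) (.g (nat_lit 3436) (.e (nat_lit 65571) (nat_lit 3) (.e (nat_lit 98350) (nat_lit 24) (.e (nat_lit 409643) (nat_lit 18) (.e (nat_lit 303119) (nat_lit 3) (.e (nat_lit 204819) (nat_lit 17) (.e (nat_lit 7936) (nat_lit 347) .nil)))))) (.g (nat_lit 5) .nil .nil))) 
(.lf (nat_lit 189485) (.g (nat_lit 2836) (.e (nat_lit 65571) (nat_lit 3) (.e (nat_lit 98350) (nat_lit 24) (.e (nat_lit 409648) (nat_lit 18) (.e (nat_lit 303118) (nat_lit 3) (.e (nat_lit 204830) (nat_lit 18) .nil))))) .nil))) (.nd (nat_lit 5) 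
(.lf (nat_lit 189469) (.g (nat_lit 3738) (.e (nat_lit 65571) (nat_lit 3) (.e (nat_lit 98350) (nat_lit 24) (.e (nat_lit 409646) (nat_lit 18) (.e (nat_lit 303119) (nat_lit 3) (.e (nat_lit 204819) (nat_lit 17) (.e (nat_lit 7936) (nat_lit 347) .nil)))))) (.g (nat_lit 5) .nil .nil))) 
(.lf (nat_lit 189501) (.g (nat_lit 4089) (.e (nat_lit 65571) (nat_lit 3) (.e (nat_lit 98350) (nat_lit 24) (.e (nat_lit 409649) (nat_lit 18) (.e (nat_lit 303119) (nat_lit 3) (.e (nat_lit 204821) (nat_lit 17) (.e (nat_lit 7936) (nat_lit 347) .nil)))))) (.g (nat_lit 5) .nil .nil))))))) (.nd (nat_lit 2) (.nd (nat_lit 3) (.nd (nat_lit 4) (.nd (nat_lit 5) 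
(.lf (nat_lit 189443) (.g (nat_lit 4129) (.e (nat_lit 65571) (nat_lit 3) (.e (nat_lit 98350) (nat_lit 24) (.e (nat_lit 409617) (nat_lit 10) (.e (nat_lit 5355) (nat_lit 298) (.e (nat_lit 1235) (nat_lit 91) (.e (nat_lit 90165) (nat_lit 12) (.e (nat_lit 171776) (nat_lit 191) .nil))))))) (.g (nat_lit 6) .nil .nil))) 
(.lf (nat_lit 189475) (.g (nat_lit 3139) (.e (nat_lit 65571) (nat_lit 3) (.e (nat_lit 98350) (nat_lit 24) (.e (nat_lit 409647) (nat_lit 18) (.e (nat_lit 303119) (nat_lit 3) (.e (nat_lit 204821) (nat_lit 17) (.e (nat_lit 7936) (nat_lit 347) .nil)))))) (.g (nat_lit 4) .nil .nil)))) (.nd (nat_lit 5) 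
(.lf (nat_lit 189459) (.g (nat_lit 3674) (.e (nat_lit 65571) (nat_lit 3) (.e (nat_lit 98350) (nat_lit 24) (.e (nat_lit 409645) (nat_lit 18) (.e (nat_lit 303117) (nat_lit 2) (.e (nat_lit 196661) (nat_lit 12) (.e (nat_lit 65280) (nat_lit 191) .nil)))))) (.g (nat_lit 4) .nil .nil))) 
(.lf (nat_lit 189491) (.g (nat_lit 3292) (.e (nat_lit 65571) (nat_lit 3) (.e (nat_lit 98350) (nat_lit 24) (.e (nat_lit 409649) (nat_lit 18) (.e (nat_lit 303117) (nat_lit 2) (.e (nat_lit 196628) (nat_lit 9) (.e (nat_lit 968) (nat_lit 81) (.e (nat_lit 6516) (nat_lit 347) .nil))))))) (.g (nat_lit 4) .nil .nil))))) (.nd (nat_lit 4) (.nd (nat_lit 5) 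
(.lf (nat_lit 189451) (.g (nat_lit 3051) (.e (nat_lit 65571) (nat_lit 3) (.e (nat_lit 98350) (nat_lit 24) (.e (nat_lit 409643) (nat_lit 18) (.e (nat_lit 303119) (nat_lit 3) (.e (nat_lit 204816) (nat_lit 17) (.e (nat_lit 6517) (nat_lit 347) .nil)))))) (.g (nat_lit 4) .nil .nil))) 
(.lf (nat_lit 189483) (.g (nat_lit 3436) (.e (nat_lit 65571) (nat_lit 3) (.e (nat_lit 98350) (nat_lit 24) (.e (nat_lit 409648) (nat_lit 18) (.e (nat_lit 303118) (nat_lit 3) (.e (nat_lit 204819) (nat_lit 17) (.e (nat_lit 7936) (nat_lit 347) .nil)))))) (.g (nat_lit 4) .nil .nil)))) (.nd (nat_lit 5) 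
(.lf (nat_lit 189467) (.g (nat_lit 3814) (.e (nat_lit 65571) (nat_lit 3) (.e (nat_lit 98350) (nat_lit 24) (.e (nat_lit 409646) (nat_lit 18) (.e (nat_lit 303119) (nat_lit 3) (.e (nat_lit 204816) (nat_lit 17) (.e (nat_lit 6517) (nat_lit 347) .nil)))))) (.g (nat_lit 4) .nil .nil))) 
(.lf (nat_lit 189499) (.g (nat_lit 3898) (.e (nat_lit 65571) (nat_lit 3) (.e (nat_lit 98350) (nat_lit 24) (.e (nat_lit 409649) (nat_lit 18) (.e (nat_lit 303119) (nat_lit 3) (.e (nat_lit 204817) (nat_lit 17) (.e (nat_lit 7936) (nat_lit 347) .nil)))))) (.g (nat_lit 5) .nil .nil)))))) (.nd (nat_lit 3) (.nd (nat_lit 4) (.nd (nat_lit 5) 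
(.lf (nat_lit 189447) (.g (nat_lit 3911) (.e (nat_lit 65571) (nat_lit 3) (.e (nat_lit 98350) (nat_lit 24) (.e (nat_lit 409641) (nat_lit 17) (.e (nat_lit 294928) (nat_lit 2) (.e (nat_lit 90165) (nat_lit 12) (.e (nat_lit 171776) (nat_lit 191) .nil)))))) (.g (nat_lit 5) .nil .nil))) 
(.lf (nat_lit 189479) (.g (nat_lit 4169) (.e (nat_lit 65571) (nat_lit 3) (.e (nat_lit 98350) (nat_lit 24) (.e (nat_lit 409648) (nat_lit 18) (.e (nat_lit 303117) (nat_lit 2) (.e (nat_lit 196661) (nat_lit 12) (.e (nat_lit 65280) (nat_lit 191) .nil)))))) (.g (nat_lit 4) .nil .nil)))) (.nd (nat_lit 5) 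
(.lf (nat_lit 189463) (.g (nat_lit 3708) (.e (nat_lit 65571) (nat_lit 3) (.e (nat_lit 98350) (nat_lit 24) (.e (nat_lit 409645) (nat_lit 18) (.e (nat_lit 303119) (nat_lit 3) (.e (nat_lit 204821) (nat_lit 17) (.e (nat_lit 7936) (nat_lit 347) .nil)))))) (.g (nat_lit 4) .nil .nil))) 
(.lf (nat_lit 189495) (.g (nat_lit 3233) (.e (nat_lit 65571) (nat_lit 3) (.e (nat_lit 98350) (nat_lit 24) (.e (nat_lit 409649) (nat_lit 18) (.e (nat_lit 303118) (nat_lit 3) (.e (nat_lit 204819) (nat_lit 17) (.e (nat_lit 7936) (nat_lit 347) .nil)))))) (.g (nat_lit 4) .nil .nil))))) (.nd (nat_lit 4) (.nd (nat_lit 5) 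
(.lf (nat_lit 189455) (.g (nat_lit 2425) (.e (nat_lit 65571) (nat_lit 3) (.e (nat_lit 98350) (nat_lit 24) (.e (nat_lit 409644) (nat_lit 18) (.e (nat_lit 303117) (nat_lit 2) (.e (nat_lit 196661) (nat_lit 12) .nil))))) .nil)) 
(.lf (nat_lit 189487) (.g (nat_lit 4480) (.e (nat_lit 65571) (nat_lit 3) (.e (nat_lit 98350) (nat_lit 24) (.e (nat_lit 409648) (nat_lit 18) (.e (nat_lit 303119) (nat_lit 3) (.e (nat_lit 204817) (nat_lit 17) (.e (nat_lit 7936) (nat_lit 347) .nil)))))) (.g (nat_lit 5) .nil .nil)))) (.nd (nat_lit 5) 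
(.lf (nat_lit 189471) (.g (nat_lit 3127) (.e (nat_lit 65571) (nat_lit 3) (.e (nat_lit 98350) (nat_lit 24) (.e (nat_lit 409647) (nat_lit 18) (.e (nat_lit 303117) (nat_lit 2) (.e (nat_lit 196661) (nat_lit 12) (.e (nat_lit 65280) (nat_lit 191) .nil)))))) (.g (nat_lit 4) .nil .nil))) 
(.lf (nat_lit 189503) (.g (nat_lit 3035) (.e (nat_lit 65571) (nat_lit 3) (.e (nat_lit 98350) (nat_lit 24) (.e (nat_lit 409649) (nat_lit 18) (.e (nat_lit 303119) (nat_lit 3) (.e (nat_lit 204829) (nat_lit 18) .nil))))) .nil))))))))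

noncomputable def tv2510 : DT := (.nd (nat_lit 0) (.nd (nat_lit 1) (.nd (nat_lit 2) (.nd (nat_lit 3) (.nd (nat_lit 4) (.nd (nat_lit 5) 
(.lf (nat_lit 189504) (.g (nat_lit 4047) (.e (nat_lit 65571) (nat_lit 3) (.e (nat_lit 98350) (nat_lit 24) (.e (nat_lit 409649) (nat_lit 18) (.e (nat_lit 303119) (nat_lit 3) (.e (nat_lit 204829) (nat_lit 18) (.e (nat_lit 57761) (nat_lit 215) (.e (nat_lit 1190) (nat_lit 88) .nil))))))) (.g (nat_lit 4) .nil .nil))) 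
(.lf (nat_lit 189536) (.g (nat_lit 3242) (.e (nat_lit 65571) (nat_lit 3) (.e (nat_lit 98359) (nat_lit 26) (.e (nat_lit 426211) (nat_lit 9) (.e (nat_lit 426125) (nat_lit 2) (.e (nat_lit 196686) (nat_lit 18) .nil))))) .nil))) (.nd (nat_lit 5) 
(.lf (nat_lit 189520) (.g (nat_lit 2841) (.e (nat_lit 65571) (nat_lit 3) (.e (nat_lit 98359) (nat_lit 26) (.e (nat_lit 426171) (nat_lit 7) (.e (nat_lit 409617) (nat_lit 10) (.e (nat_lit 632) (nat_lit 50) (.e (nat_lit 573475) (nat_lit 12) (.e (nat_lit 57520) (nat_lit 44) (.e (nat_lit 688174) (nat_lit 16) .nil)))))))) (.g (nat_lit 4) .nil .nil))) 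
(.lf (nat_lit 189552) (.g (nat_lit 4328) (.e (nat_lit 65571) (nat_lit 3) (.e (nat_lit 98359) (nat_lit 26) (.e (nat_lit 426286) (nat_lit 10) (.e (nat_lit 434245) (nat_lit 28) (.e (nat_lit 573473) (nat_lit 12) (.e (nat_lit 57353) (nat_lit 0) (.e (nat_lit 7124) (nat_lit 382) (.e (nat_lit 1201) (nat_lit 88) .nil)))))))) (.g (nat_lit 0) .nil .nil))))) (.nd (nat_lit 4) (.nd (nat_lit 5) 
(.lf (nat_lit 189512) (.g (nat_lit 2548) (.e (nat_lit 65571) (nat_lit 3) (.e (nat_lit 98350) (nat_lit 24) (.e (nat_lit 417536) (nat_lit 18) (.e (nat_lit 303119) (nat_lit 3) (.e (nat_lit 204821) (nat_lit 17) (.e (nat_lit 7936) (nat_lit 347) .nil)))))) (.g (nat_lit 4) .nil .nil))) 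
(.lf (nat_lit 189544) (.g (nat_lit 2499) (.e (nat_lit 65571) (nat_lit 3) (.e (nat_lit 98359) (nat_lit 26) (.e (nat_lit 426285) (nat_lit 10) (.e (nat_lit 434248) (nat_lit 28) (.e (nat_lit 573474) (nat_lit 12) .nil))))) .nil))) (.nd (nat_lit 5) 
(.lf (nat_lit 189528) (.g (nat_lit 4148) (.e (nat_lit 65571) (nat_lit 3) (.e (nat_lit 98359) (nat_lit 26) (.e (nat_lit 426211) (nat_lit 9) (.e (nat_lit 426125) (nat_lit 2) (.e (nat_lit 196615) (nat_lit 0) (.e (nat_lit 60) (nat_lit 0) (.e (nat_lit 2030) (nat_lit 140) (.e (nat_lit 688173) (nat_lit 16) .nil)))))))) (.g (nat_lit 4) .nil .nil))) 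
(.lf (nat_lit 189560) (.g (nat_lit 3709) (.e (nat_lit 65571) (nat_lit 3) (.e (nat_lit 98359) (nat_lit 26) (.e (nat_lit 426286) (nat_lit 10) (.e (nat_lit 434245) (nat_lit 28) (.e (nat_lit 573474) (nat_lit 12) (.e (nat_lit 57353) (nat_lit 0) (.e (nat_lit 7124) (nat_lit 382) (.e (nat_lit 1201) (nat_lit 88) .nil)))))))) (.g (nat_lit 5) .nil .nil)))))) 
(.nd (nat_lit 3) (.nd (nat_lit 4) (.nd (nat_lit 5) 
(.lf (nat_lit 189508) (.g (nat_lit 3491) (.e (nat_lit 65571) (nat_lit 3) (.e (nat_lit 98350) (nat_lit 24) (.e (nat_lit 409649) (nat_lit 18) (.e (nat_lit 303119) (nat_lit 3) (.e (nat_lit 204830) (nat_lit 18) (.e (nat_lit 57762) (nat_lit 215) (.e (nat_lit 1199) (nat_lit 88) .nil))))))) (.g (nat_lit 4) .nil .nil))) 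
(.lf (nat_lit 189540) (.g (nat_lit 3745) (.e (nat_lit 65571) (nat_lit 3) (.e (nat_lit 98359) (nat_lit 26) (.e (nat_lit 426211) (nat_lit 9) (.e (nat_lit 426125) (nat_lit 2) (.e (nat_lit 196699) (nat_lit 20) .nil))))) .nil))) (.nd (nat_lit 5) 
(.lf (nat_lit 189524) (.g (nat_lit 3728) (.e (nat_lit 65571) (nat_lit 3) (.e (nat_lit 98359) (nat_lit 26) (.e (nat_lit 426211) (nat_lit 9) (.e (nat_lit 426125) (nat_lit 2) (.e (nat_lit 196615) (nat_lit 0) .nil))))) .nil)) 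
(.lf (nat_lit 189556) (.g (nat_lit 2508) (.e (nat_lit 65571) (nat_lit 3) (.e (nat_lit 98359) (nat_lit 26) (.e (nat_lit 426286) (nat_lit 10) (.e (nat_lit 434245) (nat_lit 28) (.e (nat_lit 573474) (nat_lit 12) (.e (nat_lit 57347) (nat_lit 0) (.e (nat_lit 7125) (nat_lit 382) (.e (nat_lit 1191) (nat_lit 88) .nil)))))))) (.g (nat_lit 4) .nil .nil))))) (.nd (nat_lit 4) (.nd (nat_lit 5) 
(.lf (nat_lit 189516) (.g (nat_lit 846) (.e (nat_lit 65571) (nat_lit 3) (.e (nat_lit 98359) (nat_lit 26) (.e (nat_lit 426166) (nat_lit 7) .nil))) .nil)) 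
(.lf (nat_lit 189548) (.g (nat_lit 1107) (.e (nat_lit 65571) (nat_lit 3) (.e (nat_lit 98359) (nat_lit 26) (.e (nat_lit 426286) (nat_lit 10) (.e (nat_lit 434245) (nat_lit 28) .nil)))) .nil))) (.nd (nat_lit 5) 
(.lf (nat_lit 189532) (.g (nat_lit 3808) (.e (nat_lit 65571) (nat_lit 3) (.e (nat_lit 98359) (nat_lit 26) (.e (nat_lit 426211) (nat_lit 9) (.e (nat_lit 426125) (nat_lit 2) (.e (nat_lit 196616) (nat_lit 0) (.e (nat_lit 59) (nat_lit 0) (.e (nat_lit 2030) (nat_lit 140) (.e (nat_lit 688178) (nat_lit 16) .nil)))))))) (.g (nat_lit 4) .nil .nil))) 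
(.lf (nat_lit 189564) (.g (nat_lit 2624) (.e (nat_lit 65571) (nat_lit 3) (.e (nat_lit 98359) (nat_lit 26) (.e (nat_lit 426286) (nat_lit 10) (.e (nat_lit 434245) (nat_lit 28) (.e (nat_lit 573474) (nat_lit 12) (.e (nat_lit 57572) (nat_lit 54) (.e (nat_lit 770070) (nat_lit 8) .nil))))))) (.g (nat_lit 4) .nil .nil))))))) (.nd (nat_lit 2) (.nd (nat_lit 3) (.nd (nat_lit 4) (.nd (nat_lit 5) 
(.lf (nat_lit 189506) (.g (nat_lit 4120) (.e (nat_lit 65571) (nat_lit 3) (.e (nat_lit 98350) (nat_lit 24) (.e (nat_lit 409649) (nat_lit 18) (.e (nat_lit 303119) (nat_lit 3) (.e (nat_lit 204830) (nat_lit 18) (.e (nat_lit 57760) (nat_lit 215) (.e (nat_lit 1190) (nat_lit 88) .nil))))))) (.g (nat_lit 4) .nil .nil))) 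
(.lf (nat_lit 189538) (.g (nat_lit 3932) (.e (nat_lit 65571) (nat_lit 3) (.e (nat_lit 98359) (nat_lit 26) (.e (nat_lit 426211) (nat_lit 9) (.e (nat_lit 426125) (nat_lit 2) (.e (nat_lit 196686) (nat_lit 18) (.e (nat_lit 1118) (nat_lit 82) (.e (nat_lit 8418) (nat_lit 132) (.e (nat_lit 1190) (nat_lit 88) .nil)))))))) (.g (nat_lit 4) .nil .nil)))) (.nd (nat_lit 5) 
(.lf (nat_lit 189522) (.g (nat_lit 1462) (.e (nat_lit 65571) (nat_lit 3) (.e (nat_lit 98359) (nat_lit 26) (.e (nat_lit 426211) (nat_lit 9) (.e (nat_lit 426125) (nat_lit 2) .nil)))) .nil)) 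
(.lf (nat_lit 189554) (.g (nat_lit 1826) (.e (nat_lit 65571) (nat_lit 3) (.e (nat_lit 98359) (nat_lit 26) (.e (nat_lit 426286) (nat_lit 10) (.e (nat_lit 434245) (nat_lit 28) (.e (nat_lit 573474) (nat_lit 12) .nil))))) .nil)))) (.nd (nat_lit 4) (.nd (nat_lit 5) 
(.lf (nat_lit 189514) (.g (nat_lit 2748) (.e (nat_lit 65571) (nat_lit 3) (.e (nat_lit 98353) (nat_lit 25) (.e (nat_lit 417828) (nat_lit 18) (.e (nat_lit 303119) (nat_lit 3) (.e (nat_lit 204819) (nat_lit 17) (.e (nat_lit 7936) (nat_lit 347) .nil)))))) (.g (nat_lit 4) .nil .nil))) 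
(.lf (nat_lit 189546) (.g (nat_lit 1141) (.e (nat_lit 65571) (nat_lit 3) (.e (nat_lit 98359) (nat_lit 26) (.e (nat_lit 426286) (nat_lit 10) (.e (nat_lit 434242) (nat_lit 28) .nil)))) .nil))) (.nd (nat_lit 5) 
(.lf (nat_lit 189530) (.g (nat_lit 3664) (.e (nat_lit 65571) (nat_lit 3) (.e (nat_lit 98359) (nat_lit 26) (.e (nat_lit 426211) (nat_lit 9) (.e (nat_lit 426125) (nat_lit 2) (.e (nat_lit 196616) (nat_lit 0) .nil))))) .nil)) 
(.lf (nat_lit 189562) (.g (nat_lit 2448) (.e (nat_lit 65571) (nat_lit 3) (.e (nat_lit 98359) (nat_lit 26) (.e (nat_lit 426286) (nat_lit 10) (.e (nat_lit 434245) (nat_lit 28) (.e (nat_lit 573474) (nat_lit 12) (.e (nat_lit 57570) (nat_lit 54) (.e (nat_lit 770070) (nat_lit 8) .nil))))))) (.g (nat_lit 4) .nil .nil)))))) (.nd (nat_lit 3) (.nd (nat_lit 4) (.nd (nat_lit 5) 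
(.lf (nat_lit 189510) (.g (nat_lit 2024) (.e (nat_lit 65571) (nat_lit 3) (.e (nat_lit 98350) (nat_lit 24) (.e (nat_lit 417536) (nat_lit 18) (.e (nat_lit 303119) (nat_lit 3) (.e (nat_lit 204817) (nat_lit 17) (.e (nat_lit 7936) (nat_lit 347) .nil)))))) (.g (nat_lit 4) .nil .nil))) 
(.lf (nat_lit 189542) (.g (nat_lit 836) (.e (nat_lit 65571) (nat_lit 3) (.e (nat_lit 98359) (nat_lit 26) (.e (nat_lit 426282) (nat_lit 10) .nil))) .nil))) (.nd (nat_lit 5) 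
(.lf (nat_lit 189526) (.g (nat_lit 3821) (.e (nat_lit 65571) (nat_lit 3) (.e (nat_lit 98359) (nat_lit 26) (.e (nat_lit 426211) (nat_lit 9) (.e (nat_lit 426125) (nat_lit 2) (.e (nat_lit 196615) (nat_lit 0) (.e (nat_lit 59) (nat_lit 0) (.e (nat_lit 2030) (nat_lit 140) (.e (nat_lit 688174) (nat_lit 16) .nil)))))))) (.g (nat_lit 4) .nil .nil))) 
(.lf (nat_lit 189558) (.g (nat_lit 4657) (.e (nat_lit 65571) (nat_lit 3) (.e (nat_lit 98359) (nat_lit 26) (.e (nat_lit 426286) (nat_lit 10) (.e (nat_lit 434245) (nat_lit 28) (.e (nat_lit 573474) (nat_lit 12) (.e (nat_lit 57351) (nat_lit 0) (.e (nat_lit 7124) (nat_lit 382) (.e (nat_lit 1201) (nat_lit 88) .nil)))))))) (.g (nat_lit 0) .nil .nil))))) (.nd (nat_lit 4) (.nd (nat_lit 5) 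
(.lf (nat_lit 189518) (.g (nat_lit 2045) (.e (nat_lit 65571) (nat_lit 3) (.e (nat_lit 98359) (nat_lit 26) (.e (nat_lit 426171) (nat_lit 7) (.e (nat_lit 409617) (nat_lit 10) (.e (nat_lit 632) (nat_lit 50) .nil))))) .nil)) 
(.lf (nat_lit 189550) (.g (nat_lit 1820) (.e (nat_lit 65571) (nat_lit 3) (.e (nat_lit 98359) (nat_lit 26) (.e (nat_lit 426286) (nat_lit 10) (.e (nat_lit 434245) (nat_lit 28) (.e (nat_lit 573473) (nat_lit 12) .nil))))) .nil))) (.nd (nat_lit 5) 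
(.lf (nat_lit 189534) (.g (nat_lit 2514) (.e (nat_lit 65571) (nat_lit 3) (.e (nat_lit 98359) (nat_lit 26) (.e (nat_lit 426211) (nat_lit 9) (.e (nat_lit 426125) (nat_lit 2) (.e (nat_lit 204544) (nat_lit 7) (.e (nat_lit 229446) (nat_lit 37) (.e (nat_lit 630821) (nat_lit 16) .nil))))))) (.g (nat_lit 4) .nil .nil))) 
(.lf (nat_lit 189566) (.g (nat_lit 2047) (.e (nat_lit 65571) (nat_lit 3) (.e (nat_lit 98359) (nat_lit 26) (.e (nat_lit 426286) (nat_lit 10) (.e (nat_lit 434247) (nat_lit 28) (.e (nat_lit 573472) (nat_lit 12) .nil))))) .nil))))))) (.nd (nat_lit 1) (.nd (nat_lit 2) (.nd (nat_lit 3) (.nd (nat_lit 4) (.nd (nat_lit 5) 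
(.lf (nat_lit 189505) (.g (nat_lit 3035) (.e (nat_lit 65571) (nat_lit 3) (.e (nat_lit 98350) (nat_lit 24) (.e (nat_lit 409649) (nat_lit 18) (.e (nat_lit 303119) (nat_lit 3) (.e (nat_lit 204830) (nat_lit 18) .nil))))) .nil)) 
(.lf (nat_lit 189537) (.g (nat_lit 3904) (.e (nat_lit 65571) (nat_lit 3) (.e (nat_lit 98359) (nat_lit 26) (.e (nat_lit 426211) (nat_lit 9) (.e (nat_lit 426125) (nat_lit 2) (.e (nat_lit 196686) (nat_lit 18) (.e (nat_lit 1117) (nat_lit 82) (.e (nat_lit 8418) (nat_lit 132) (.e (nat_lit 1190) (nat_lit 88) .nil)))))))) (.g (nat_lit 4) .nil .nil)))) (.nd (nat_lit 5) 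
(.lf (nat_lit 189521) (.g (nat_lit 2627) (.e (nat_lit 65571) (nat_lit 3) (.e (nat_lit 98359) (nat_lit 26) (.e (nat_lit 426173) (nat_lit 7) (.e (nat_lit 409616) (nat_lit 10) (.e (nat_lit 604) (nat_lit 45) .nil))))) .nil)) 
(.lf (nat_lit 189553) (.g (nat_lit 2287) (.e (nat_lit 65571) (nat_lit 3) (.e (nat_lit 98359) (nat_lit 26) (.e (nat_lit 426286) (nat_lit 10) (.e (nat_lit 434245) (nat_lit 28) (.e (nat_lit 573473) (nat_lit 12) (.e (nat_lit 57354) (nat_lit 0) (.e (nat_lit 7147) (nat_lit 382) (.e (nat_lit 1203) (nat_lit 88) .nil)))))))) (.g (nat_lit 4) .nil .nil))))) (.nd (nat_lit 4) (.nd (nat_lit 5) 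
(.lf (nat_lit 189513) (.g (nat_lit 2428) (.e (nat_lit 65571) (nat_lit 3) (.e (nat_lit 98353) (nat_lit 25) (.e (nat_lit 417827) (nat_lit 17) (.e (nat_lit 294928) (nat_lit 2) (.e (nat_lit 90165) (nat_lit 12) (.e (nat_lit 171776) (nat_lit 191) .nil)))))) (.g (nat_lit 5) .nil .nil))) 
(.lf (nat_lit 189545) (.g (nat_lit 374) (.e (nat_lit 65571) (nat_lit 3) (.e (nat_lit 98359) (nat_lit 26) (.e (nat_lit 426286) (nat_lit 10) .nil))) .nil))) (.nd (nat_lit 5) 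
(.lf (nat_lit 189529) (.g (nat_lit 3909) (.e (nat_lit 65571) (nat_lit 3) (.e (nat_lit 98359) (nat_lit 26) (.e (nat_lit 426211) (nat_lit 9) (.e (nat_lit 426125) (nat_lit 2) (.e (nat_lit 196615) (nat_lit 0) (.e (nat_lit 60) (nat_lit 0) (.e (nat_lit 2030) (nat_lit 140) (.e (nat_lit 688175) (nat_lit 16) .nil)))))))) (.g (nat_lit 4) .nil .nil))) 
(.lf (nat_lit 189561) (.g (nat_lit 3928) (.e (nat_lit 65571) (nat_lit 3) (.e (nat_lit 98359) (nat_lit 26) (.e (nat_lit 426286) (nat_lit 10) (.e (nat_lit 434245) (nat_lit 28) (.e (nat_lit 573474) (nat_lit 12) (.e (nat_lit 57354) (nat_lit 0) (.e (nat_lit 7147) (nat_lit 382) (.e (nat_lit 1203) (nat_lit 88) .nil)))))))) (.g (nat_lit 6) .nil .nil)))))) 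
(.nd (nat_lit 3) (.nd (nat_lit 4) (.nd (nat_lit 5) 
(.lf (nat_lit 189509) (.g (nat_lit 3621) (.e (nat_lit 65571) (nat_lit 3) (.e (nat_lit 98350) (nat_lit 24) (.e (nat_lit 409649) (nat_lit 18) (.e (nat_lit 303119) (nat_lit 3) (.e (nat_lit 204830) (nat_lit 18) (.e (nat_lit 57762) (nat_lit 215) (.e (nat_lit 1200) (nat_lit 88) .nil))))))) (.g (nat_lit 4) .nil .nil))) 
(.lf (nat_lit 189541) (.g (nat_lit 772) (.e (nat_lit 65571) (nat_lit 3) (.e (nat_lit 98359) (nat_lit 26) (.e (nat_lit 426212) (nat_lit 9) .nil))) .nil))) (.nd (nat_lit 5) 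
(.lf (nat_lit 189525) (.g (nat_lit 4261) (.e (nat_lit 65571) (nat_lit 3) (.e (nat_lit 98359) (nat_lit 26) (.e (nat_lit 426211) (nat_lit 9) (.e (nat_lit 426125) (nat_lit 2) (.e (nat_lit 196615) (nat_lit 0) (.e (nat_lit 42) (nat_lit 0) (.e (nat_lit 2024) (nat_lit 140) (.e (nat_lit 688177) (nat_lit 16) .nil)))))))) (.g (nat_lit 4) .nil .nil))) 
(.lf (nat_lit 189557) (.g (nat_lit 2299) (.e (nat_lit 65571) (nat_lit 3) (.e (nat_lit 98359) (nat_lit 26) (.e (nat_lit 426286) (nat_lit 10) (.e (nat_lit 434245) (nat_lit 28) (.e (nat_lit 573474) (nat_lit 12) (.e (nat_lit 57348) (nat_lit 0) (.e (nat_lit 7125) (nat_lit 382) (.e (nat_lit 1192) (nat_lit 88) .nil)))))))) (.g (nat_lit 4) .nil .nil))))) (.nd (nat_lit 4) (.nd (nat_lit 5) 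
(.lf (nat_lit 189517) (.g (nat_lit 822) (.e (nat_lit 65571) (nat_lit 3) (.e (nat_lit 98359) (nat_lit 26) (.e (nat_lit 426171) (nat_lit 7) .nil))) .nil)) 
(.lf (nat_lit 189549) (.g (nat_lit 1892) (.e (nat_lit 65571) (nat_lit 3) (.e (nat_lit 98359) (nat_lit 26) (.e (nat_lit 426286) (nat_lit 10) (.e (nat_lit 434245) (nat_lit 28) (.e (nat_lit 573451) (nat_lit 9) .nil))))) .nil))) (.nd (nat_lit 5) 
(.lf (nat_lit 189533) (.g (nat_lit 1800) (.e (nat_lit 65571) (nat_lit 3) (.e (nat_lit 98359) (nat_lit 26) (.e (nat_lit 426211) (nat_lit 9) (.e (nat_lit 426125) (nat_lit 2) (.e (nat_lit 204544) (nat_lit 0) .nil))))) .nil)) 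
(.lf (nat_lit 189565) (.g (nat_lit 1189) (.e (nat_lit 65571) (nat_lit 3) (.e (nat_lit 98359) (nat_lit 26) (.e (nat_lit 426286) (nat_lit 10) (.e (nat_lit 434247) (nat_lit 28) .nil)))) .nil)))))) (.nd (nat_lit 2) (.nd (nat_lit 3) (.nd (nat_lit 4) (.nd (nat_lit 5) 
(.lf (nat_lit 189507) (.g (nat_lit 4334) (.e (nat_lit 65571) (nat_lit 3) (.e (nat_lit 98350) (nat_lit 24) (.e (nat_lit 409649) (nat_lit 18) (.e (nat_lit 303119) (nat_lit 3) (.e (nat_lit 204830) (nat_lit 18) (.e (nat_lit 57761) (nat_lit 215) (.e (nat_lit 1190) (nat_lit 88) .nil))))))) (.g (nat_lit 4) .nil .nil))) 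
(.lf (nat_lit 189539) (.g (nat_lit 3618) (.e (nat_lit 65571) (nat_lit 3) (.e (nat_lit 98359) (nat_lit 26) (.e (nat_lit 426211) (nat_lit 9) (.e (nat_lit 426125) (nat_lit 2) (.e (nat_lit 196697) (nat_lit 19) .nil))))) .nil))) (.nd (nat_lit 5) 
(.lf (nat_lit 189523) (.g (nat_lit 3992) (.e (nat_lit 65571) (nat_lit 3) (.e (nat_lit 98359) (nat_lit 26) (.e (nat_lit 426211) (nat_lit 9) (.e (nat_lit 426125) (nat_lit 2) (.e (nat_lit 196612) (nat_lit 0) (.e (nat_lit 59) (nat_lit 0) (.e (nat_lit 2030) (nat_lit 140) (.e (nat_lit 688177) (nat_lit 16) .nil)))))))) (.g (nat_lit 4) .nil .nil))) 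
(.lf (nat_lit 189555) (.g (nat_lit 5270) (.e (nat_lit 65571) (nat_lit 3) (.e (nat_lit 98359) (nat_lit 26) (.e (nat_lit 426286) (nat_lit 10) (.e (nat_lit 434245) (nat_lit 28) (.e (nat_lit 573474) (nat_lit 12) (.e (nat_lit 57347) (nat_lit 0) (.e (nat_lit 7124) (nat_lit 382) (.e (nat_lit 1201) (nat_lit 88) .nil)))))))) (.g (nat_lit 0) .nil .nil))))) (.nd (nat_lit 4) (.nd (nat_lit 5) 
(.lf (nat_lit 189515) (.g (nat_lit 3464) (.e (nat_lit 65571) (nat_lit 3) (.e (nat_lit 98356) (nat_lit 26) (.e (nat_lit 426422) (nat_lit 16) (.e (nat_lit 57686) (nat_lit 156) (.e (nat_lit 163875) (nat_lit 3) (.e (nat_lit 204830) (nat_lit 18) (.e (nat_lit 57830) (nat_lit 250) (.e (nat_lit 1201) (nat_lit 88) .nil)))))))) (.g (nat_lit 5) .nil .nil))) 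
(.lf (nat_lit 189547) (.g (nat_lit 3689) (.e (nat_lit 65571) (nat_lit 3) (.e (nat_lit 98359) (nat_lit 26) (.e (nat_lit 426286) (nat_lit 10) (.e (nat_lit 434242) (nat_lit 28) (.e (nat_lit 573474) (nat_lit 12) (.e (nat_lit 57348) (nat_lit 0) (.e (nat_lit 7124) (nat_lit 382) (.e (nat_lit 1201) (nat_lit 88) .nil)))))))) (.g (nat_lit 5) .nil .nil)))) (.nd (nat_lit 5) 
(.lf (nat_lit 189531) (.g (nat_lit 3779) (.e (nat_lit 65571) (nat_lit 3) (.e (nat_lit 98359) (nat_lit 26) (.e (nat_lit 426211) (nat_lit 9) (.e (nat_lit 426125) (nat_lit 2) (.e (nat_lit 196616) (nat_lit 0) (.e (nat_lit 59) (nat_lit 0) (.e (nat_lit 2030) (nat_lit 140) (.e (nat_lit 688174) (nat_lit 16) .nil)))))))) (.g (nat_lit 4) .nil .nil))) 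
(.lf (nat_lit 189563) (.g (nat_lit 2414) (.e (nat_lit 65571) (nat_lit 3) (.e (nat_lit 98359) (nat_lit 26) (.e (nat_lit 426286) (nat_lit 10) (.e (nat_lit 434245) (nat_lit 28) (.e (nat_lit 573474) (nat_lit 12) (.e (nat_lit 57571) (nat_lit 54) (.e (nat_lit 770070) (nat_lit 8) .nil))))))) (.g (nat_lit 4) .nil .nil)))))) (.nd (nat_lit 3) (.nd (nat_lit 4) (.nd (nat_lit 5) 
(.lf (nat_lit 189511) (.g (nat_lit 2958) (.e (nat_lit 65571) (nat_lit 3) (.e (nat_lit 98350) (nat_lit 24) (.e (nat_lit 417536) (nat_lit 18) (.e (nat_lit 303119) (nat_lit 3) (.e (nat_lit 204819) (nat_lit 17) (.e (nat_lit 7936) (nat_lit 347) .nil)))))) (.g (nat_lit 5) .nil .nil))) 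
(.lf (nat_lit 189543) (.g (nat_lit 638) (.e (nat_lit 65571) (nat_lit 3) (.e (nat_lit 98359) (nat_lit 26) (.e (nat_lit 426285) (nat_lit 10) .nil))) .nil))) (.nd (nat_lit 5) 
(.lf (nat_lit 189527) (.g (nat_lit 3850) (.e (nat_lit 65571) (nat_lit 3) (.e (nat_lit 98359) (nat_lit 26) (.e (nat_lit 426211) (nat_lit 9) (.e (nat_lit 426125) (nat_lit 2) (.e (nat_lit 196615) (nat_lit 0) (.e (nat_lit 59) (nat_lit 0) (.e (nat_lit 2030) (nat_lit 140) (.e (nat_lit 688178) (nat_lit 16) .nil)))))))) (.g (nat_lit 4) .nil .nil))) 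
(.lf (nat_lit 189559) (.g (nat_lit 3898) (.e (nat_lit 65571) (nat_lit 3) (.e (nat_lit 98359) (nat_lit 26) (.e (nat_lit 426286) (nat_lit 10) (.e (nat_lit 434245) (nat_lit 28) (.e (nat_lit 573474) (nat_lit 12) (.e (nat_lit 57352) (nat_lit 0) (.e (nat_lit 7122) (nat_lit 382) (.e (nat_lit 1201) (nat_lit 88) .nil)))))))) (.g (nat_lit 5) .nil .nil))))) (.nd (nat_lit 4) (.nd (nat_lit 5) 
(.lf (nat_lit 189519) (.g (nat_lit 3572) (.e (nat_lit 65571) (nat_lit 3) (.e (nat_lit 98359) (nat_lit 26) (.e (nat_lit 426171) (nat_lit 7) (.e (nat_lit 409617) (nat_lit 10) (.e (nat_lit 632) (nat_lit 50) (.e (nat_lit 573473) (nat_lit 12) (.e (nat_lit 57521) (nat_lit 44) (.e (nat_lit 688178) (nat_lit 16) .nil)))))))) (.g (nat_lit 5) .nil .nil))) 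
(.lf (nat_lit 189551) (.g (nat_lit 4390) (.e (nat_lit 65571) (nat_lit 3) (.e (nat_lit 98359) (nat_lit 26) (.e (nat_lit 426286) (nat_lit 10) (.e (nat_lit 434245) (nat_lit 28) (.e (nat_lit 573473) (nat_lit 12) (.e (nat_lit 57348) (nat_lit 0) (.e (nat_lit 7124) (nat_lit 382) (.e (nat_lit 1201) (nat_lit 88) .nil)))))))) (.g (nat_lit 0) .nil .nil)))) (.nd (nat_lit 5) 
(.lf (nat_lit 189535) (.g (nat_lit 3468) (.e (nat_lit 65571) (nat_lit 3) (.e (nat_lit 98359) (nat_lit 26) (.e (nat_lit 426211) (nat_lit 9) (.e (nat_lit 426125) (nat_lit 2) (.e (nat_lit 196683) (nat_lit 18) .nil))))) .nil)) 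
(.lf (nat_lit 189567) (.g (nat_lit 2047) (.e (nat_lit 65571) (nat_lit 3) (.e (nat_lit 98359) (nat_lit 26) (.e (nat_lit 426286) (nat_lit 10) (.e (nat_lit 434247) (nat_lit 28) (.e (nat_lit 573473) (nat_lit 12) .nil))))) .nil))))))))

noncomputable def tv2511 : DT := (.nd (nat_lit 0) (.nd (nat_lit 1) (.nd (nat_lit 2) (.nd (nat_lit 3) (.nd (nat_lit 4) (.nd (nat_lit 5) (.nd (nat_lit 6) 
(.lf (nat_lit 189568) (.g (nat_lit 1853) (.e (nat_lit 65571) (nat_lit 3) (.e (nat_lit 98359) (nat_lit 26) (.e (nat_lit 426286) (nat_lit 10) (.e (nat_lit 434247) (nat_lit 28) (.e (nat_lit 573477) (nat_lit 12) .nil))))) .nil)) 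
(.lf (nat_lit 189632) (.g (nat_lit 3175) (.e (nat_lit 65571) (nat_lit 3) (.e (nat_lit 98372) (nat_lit 29) (.e (nat_lit 450579) (nat_lit 5) (.e (nat_lit 532501) (nat_lit 1) (.e (nat_lit 57766) (nat_lit 221) (.e (nat_lit 1187) (nat_lit 88) .nil)))))) (.g (nat_lit 4) .nil .nil)))) (.nd (nat_lit 6) 
(.lf (nat_lit 189600) (.g (nat_lit 3962) (.e (nat_lit 65571) (nat_lit 3) (.e (nat_lit 98367) (nat_lit 27) (.e (nat_lit 434275) (nat_lit 39) (.e (nat_lit 663580) (nat_lit 9) (.e (nat_lit 2663) (nat_lit 167) (.e (nat_lit 196649) (nat_lit 10) (.e (nat_lit 16128) (nat_lit 195) .nil))))))) (.g (nat_lit 6) .nil .nil))) 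
(.lf (nat_lit 189664) (.g (nat_lit 2189) (.e (nat_lit 65571) (nat_lit 3) (.e (nat_lit 98372) (nat_lit 29) (.e (nat_lit 450586) (nat_lit 10) (.e (nat_lit 573475) (nat_lit 12) (.e (nat_lit 57346) (nat_lit 0) .nil))))) .nil)))) (.nd (nat_lit 5) (.nd (nat_lit 6) 
(.lf (nat_lit 189584) (.g (nat_lit 2479) (.e (nat_lit 65571) (nat_lit 3) (.e (nat_lit 98359) (nat_lit 26) (.e (nat_lit 426286) (nat_lit 10) (.e (nat_lit 434248) (nat_lit 28) (.e (nat_lit 573475) (nat_lit 12) (.e (nat_lit 57570) (nat_lit 54) (.e (nat_lit 770070) (nat_lit 8) .nil))))))) (.g (nat_lit 4) .nil .nil))) 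
(.lf (nat_lit 189648) (.g (nat_lit 990) (.e (nat_lit 65571) (nat_lit 3) (.e (nat_lit 98372) (nat_lit 29) (.e (nat_lit 450579) (nat_lit 5) (.e (nat_lit 540416) (nat_lit 17) .nil)))) .nil))) (.nd (nat_lit 6) 
(.lf (nat_lit 189616) (.g (nat_lit 386) (.e (nat_lit 65571) (nat_lit 3) (.e (nat_lit 98370) (nat_lit 28) (.e (nat_lit 442427) (nat_lit 23) .nil))) .nil)) 
(.lf (nat_lit 189680) (.g (nat_lit 1538) (.e (nat_lit 65571) (nat_lit 3) (.e (nat_lit 98372) (nat_lit 29) (.e (nat_lit 450587) (nat_lit 10) (.e (nat_lit 573475) (nat_lit 12) .nil)))) .nil))))) (.nd (nat_lit 4) (.nd (nat_lit 5) (.nd (nat_lit 6) 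
(.lf (nat_lit 189576) (.g (nat_lit 1926) (.e (nat_lit 65571) (nat_lit 3) (.e (nat_lit 98359) (nat_lit 26) (.e (nat_lit 426286) (nat_lit 10) (.e (nat_lit 434248) (nat_lit 28) (.e (nat_lit 573475) (nat_lit 12) .nil))))) .nil)) 
(.lf (nat_lit 189640) (.g (nat_lit 2788) (.e (nat_lit 65571) (nat_lit 3) (.e (nat_lit 98372) (nat_lit 29) (.e (nat_lit 450579) (nat_lit 5) (.e (nat_lit 532503) (nat_lit 1) (.e (nat_lit 65280) (nat_lit 221) (.e (nat_lit 1197) (nat_lit 88) .nil)))))) (.g (nat_lit 4) .nil .nil)))) (.nd (nat_lit 6) 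
(.lf (nat_lit 189608) (.g (nat_lit 597) (.e (nat_lit 65571) (nat_lit 3) (.e (nat_lit 98370) (nat_lit 28) (.e (nat_lit 442374) (nat_lit 0) .nil))) .nil)) 
(.lf (nat_lit 189672) (.g (nat_lit 1695) (.e (nat_lit 65571) (nat_lit 3) (.e (nat_lit 98372) (nat_lit 29) (.e (nat_lit 450586) (nat_lit 10) (.e (nat_lit 573475) (nat_lit 12) (.e (nat_lit 65280) (nat_lit 0) .nil))))) .nil)))) (.nd (nat_lit 5) (.nd (nat_lit 6) 
(.lf (nat_lit 189592) (.g (nat_lit 3367) (.e (nat_lit 65571) (nat_lit 3) (.e (nat_lit 98366) (nat_lit 27) (.e (nat_lit 434275) (nat_lit 39) (.e (nat_lit 663580) (nat_lit 9) (.e (nat_lit 2667) (nat_lit 167) (.e (nat_lit 196649) (nat_lit 10) (.e (nat_lit 16128) (nat_lit 195) .nil))))))) (.g (nat_lit 5) .nil .nil))) 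
(.lf (nat_lit 189656) (.g (nat_lit 2391) (.e (nat_lit 65571) (nat_lit 3) (.e (nat_lit 98372) (nat_lit 29) (.e (nat_lit 450586) (nat_lit 10) (.e (nat_lit 573473) (nat_lit 12) (.e (nat_lit 57353) (nat_lit 0) (.e (nat_lit 7125) (nat_lit 382) (.e (nat_lit 1192) (nat_lit 88) .nil))))))) (.g (nat_lit 4) .nil .nil)))) (.nd (nat_lit 6) 
(.lf (nat_lit 189624) (.g (nat_lit 483) (.e (nat_lit 65571) (nat_lit 3) (.e (nat_lit 98372) (nat_lit 29) (.e (nat_lit 458496) (nat_lit 3) .nil))) .nil)) 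
(.lf (nat_lit 189688) (.g (nat_lit 2969) (.e (nat_lit 65571) (nat_lit 3) (.e (nat_lit 98372) (nat_lit 29) (.e (nat_lit 450588) (nat_lit 10) (.e (nat_lit 573468) (nat_lit 10) .nil)))) .nil)))))) (.nd (nat_lit 3) (.nd (nat_lit 4) (.nd (nat_lit 5) (.nd (nat_lit 6) 
(.lf (nat_lit 189572) (.g (nat_lit 1916) (.e (nat_lit 65571) (nat_lit 3) (.e (nat_lit 98359) (nat_lit 26) (.e (nat_lit 426286) (nat_lit 10) (.e (nat_lit 434248) (nat_lit 28) (.e (nat_lit 573473) (nat_lit 12) .nil))))) .nil)) 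
(.lf (nat_lit 189636) (.g (nat_lit 3068) (.e (nat_lit 65571) (nat_lit 3) (.e (nat_lit 98372) (nat_lit 29) (.e (nat_lit 450579) (nat_lit 5) (.e (nat_lit 532501) (nat_lit 1) (.e (nat_lit 65280) (nat_lit 221) (.e (nat_lit 1202) (nat_lit 88) .nil)))))) (.g (nat_lit 4) .nil .nil)))) (.nd (nat_lit 6) 
(.lf (nat_lit 189604) (.g (nat_lit 3482) (.e (nat_lit 65571) (nat_lit 3) (.e (nat_lit 98367) (nat_lit 27) (.e (nat_lit 434275) (nat_lit 39) (.e (nat_lit 663580) (nat_lit 9) (.e (nat_lit 2667) (nat_lit 167) (.e (nat_lit 196651) (nat_lit 10) (.e (nat_lit 16128) (nat_lit 195) .nil))))))) (.g (nat_lit 5) .nil .nil))) 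
(.lf (nat_lit 189668) (.g (nat_lit 2338) (.e (nat_lit 65571) (nat_lit 3) (.e (nat_lit 98372) (nat_lit 29) (.e (nat_lit 450586) (nat_lit 10) (.e (nat_lit 573475) (nat_lit 12) (.e (nat_lit 57348) (nat_lit 0) (.e (nat_lit 7236) (nat_lit 382) (.e (nat_lit 1190) (nat_lit 88) .nil))))))) (.g (nat_lit 4) .nil .nil))))) (.nd (nat_lit 5) (.nd (nat_lit 6) 
(.lf (nat_lit 189588) (.g (nat_lit 1852) (.e (nat_lit 65571) (nat_lit 3) (.e (nat_lit 98359) (nat_lit 26) (.e (nat_lit 426338) (nat_lit 14) (.e (nat_lit 491577) (nat_lit 15) .nil)))) .nil)) 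
(.lf (nat_lit 189652) (.g (nat_lit 2594) (.e (nat_lit 65571) (nat_lit 3) (.e (nat_lit 98372) (nat_lit 29) (.e (nat_lit 450586) (nat_lit 10) (.e (nat_lit 573473) (nat_lit 12) (.e (nat_lit 57348) (nat_lit 0) (.e (nat_lit 7119) (nat_lit 382) (.e (nat_lit 1192) (nat_lit 88) .nil))))))) (.g (nat_lit 4) .nil .nil)))) (.nd (nat_lit 6) 
(.lf (nat_lit 189620) (.g (nat_lit 1270) (.e (nat_lit 65571) (nat_lit 3) (.e (nat_lit 98370) (nat_lit 28) (.e (nat_lit 442427) (nat_lit 23) (.e (nat_lit 204821) (nat_lit 17) .nil)))) .nil)) 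
(.lf (nat_lit 189684) (.g (nat_lit 2478) (.e (nat_lit 65571) (nat_lit 3) (.e (nat_lit 98372) (nat_lit 29) (.e (nat_lit 450588) (nat_lit 10) (.e (nat_lit 573449) (nat_lit 9) .nil)))) .nil))))) (.nd (nat_lit 4) (.nd (nat_lit 5) (.nd (nat_lit 6) 
(.lf (nat_lit 189580) (.g (nat_lit 2522) (.e (nat_lit 65571) (nat_lit 3) (.e (nat_lit 98359) (nat_lit 26) (.e (nat_lit 426286) (nat_lit 10) (.e (nat_lit 434248) (nat_lit 28) (.e (nat_lit 573475) (nat_lit 12) (.e (nat_lit 57347) (nat_lit 0) (.e (nat_lit 7125) (nat_lit 382) (.e (nat_lit 1191) (nat_lit 88) .nil)))))))) (.g (nat_lit 4) .nil .nil))) 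
(.lf (nat_lit 189644) (.g (nat_lit 3225) (.e (nat_lit 65571) (nat_lit 3) (.e (nat_lit 98372) (nat_lit 29) (.e (nat_lit 450579) (nat_lit 5) (.e (nat_lit 532504) (nat_lit 1) (.e (nat_lit 57766) (nat_lit 221) (.e (nat_lit 1197) (nat_lit 88) .nil)))))) (.g (nat_lit 4) .nil .nil)))) (.nd (nat_lit 6) 
(.lf (nat_lit 189612) (.g (nat_lit 510) (.e (nat_lit 65571) (nat_lit 3) (.e (nat_lit 98370) (nat_lit 28) (.e (nat_lit 442424) (nat_lit 22) .nil))) .nil)) 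
(.lf (nat_lit 189676) (.g (nat_lit 2432) (.e (nat_lit 65571) (nat_lit 3) (.e (nat_lit 98372) (nat_lit 29) (.e (nat_lit 450586) (nat_lit 10) (.e (nat_lit 573475) (nat_lit 12) (.e (nat_lit 57572) (nat_lit 54) (.e (nat_lit 770070) (nat_lit 8) .nil)))))) (.g (nat_lit 4) .nil .nil))))) (.nd (nat_lit 5) (.nd (nat_lit 6) 
(.lf (nat_lit 189596) (.g (nat_lit 1686) (.e (nat_lit 65571) (nat_lit 3) (.e (nat_lit 98367) (nat_lit 27) (.e (nat_lit 434208) (nat_lit 18) (.e (nat_lit 5968) (nat_lit 324) .nil)))) .nil)) 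
(.lf (nat_lit 189660) (.g (nat_lit 2174) (.e (nat_lit 65571) (nat_lit 3) (.e (nat_lit 98372) (nat_lit 29) (.e (nat_lit 450586) (nat_lit 10) (.e (nat_lit 573473) (nat_lit 12) (.e (nat_lit 57572) (nat_lit 54) (.e (nat_lit 770070) (nat_lit 8) .nil)))))) (.g (nat_lit 4) .nil .nil)))) (.nd (nat_lit 6) 
(.lf (nat_lit 189628) (.g (nat_lit 1584) (.e (nat_lit 65571) (nat_lit 3) (.e (nat_lit 98372) (nat_lit 29) (.e (nat_lit 450579) (nat_lit 5) (.e (nat_lit 532484) (nat_lit 0) (.e (nat_lit 996) (nat_lit 81) .nil))))) .nil)) 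
(.lf (nat_lit 189692) (.g (nat_lit 4326) (.e (nat_lit 65571) (nat_lit 3) (.e (nat_lit 98372) (nat_lit 29) (.e (nat_lit 450588) (nat_lit 10) (.e (nat_lit 573473) (nat_lit 12) (.e (nat_lit 57348) (nat_lit 0) (.e (nat_lit 7122) (nat_lit 382) (.e (nat_lit 1201) (nat_lit 88) .nil))))))) (.g (nat_lit 4) .nil .nil)))))))) 
(.nd (nat_lit 2) (.nd (nat_lit 3) (.nd (nat_lit 4) (.nd (nat_lit 5) (.nd (nat_lit 6) 
(.lf (nat_lit 189570) (.g (nat_lit 2754) (.e (nat_lit 65571) (nat_lit 3) (.e (nat_lit 98359) (nat_lit 26) (.e (nat_lit 426286) (nat_lit 10) (.e (nat_lit 434248) (nat_lit 28) (.e (nat_lit 573467) (nat_lit 10) .nil))))) .nil)) 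
(.lf (nat_lit 189634) (.g (nat_lit 2861) (.e (nat_lit 65571) (nat_lit 3) (.e (nat_lit 98372) (nat_lit 29) (.e (nat_lit 450579) (nat_lit 5) (.e (nat_lit 532501) (nat_lit 1) (.e (nat_lit 57767) (nat_lit 221) (.e (nat_lit 1197) (nat_lit 88) .nil)))))) (.g (nat_lit 4) .nil .nil)))) (.nd (nat_lit 6) 
(.lf (nat_lit 189602) (.g (nat_lit 2888) (.e (nat_lit 65571) (nat_lit 3) (.e (nat_lit 98367) (nat_lit 27) (.e (nat_lit 434275) (nat_lit 39) (.e (nat_lit 663580) (nat_lit 9) (.e (nat_lit 2666) (nat_lit 167) .nil))))) .nil)) 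
(.lf (nat_lit 189666) (.g (nat_lit 2920) (.e (nat_lit 65571) (nat_lit 3) (.e (nat_lit 98372) (nat_lit 29) (.e (nat_lit 450586) (nat_lit 10) (.e (nat_lit 573475) (nat_lit 12) (.e (nat_lit 57347) (nat_lit 0) (.e (nat_lit 7125) (nat_lit 382) (.e (nat_lit 1191) (nat_lit 88) .nil))))))) (.g (nat_lit 4) .nil .nil))))) (.nd (nat_lit 5) (.nd (nat_lit 6) 
(.lf (nat_lit 189586) (.g (nat_lit 2156) (.e (nat_lit 65571) (nat_lit 3) (.e (nat_lit 98359) (nat_lit 26) (.e (nat_lit 426286) (nat_lit 10) (.e (nat_lit 434248) (nat_lit 28) (.e (nat_lit 573476) (nat_lit 12) .nil))))) .nil)) 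
(.lf (nat_lit 189650) (.g (nat_lit 1432) (.e (nat_lit 65571) (nat_lit 3) (.e (nat_lit 98372) (nat_lit 29) (.e (nat_lit 450586) (nat_lit 10) (.e (nat_lit 581376) (nat_lit 3) .nil)))) .nil))) (.nd (nat_lit 6) 
(.lf (nat_lit 189618) (.g (nat_lit 1485) (.e (nat_lit 65571) (nat_lit 3) (.e (nat_lit 98370) (nat_lit 28) (.e (nat_lit 442427) (nat_lit 23) (.e (nat_lit 212736) (nat_lit 1) .nil)))) .nil)) 
(.lf (nat_lit 189682) (.g (nat_lit 2634) (.e (nat_lit 65571) (nat_lit 3) (.e (nat_lit 98372) (nat_lit 29) (.e (nat_lit 450588) (nat_lit 10) (.e (nat_lit 581376) (nat_lit 0) .nil)))) .nil))))) (.nd (nat_lit 4) (.nd (nat_lit 5) (.nd (nat_lit 6) 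
(.lf (nat_lit 189578) (.g (nat_lit 3597) (.e (nat_lit 65571) (nat_lit 3) (.e (nat_lit 98359) (nat_lit 26) (.e (nat_lit 426286) (nat_lit 10) (.e (nat_lit 434248) (nat_lit 28) (.e (nat_lit 573475) (nat_lit 12) (.e (nat_lit 57345) (nat_lit 0) (.e (nat_lit 7236) (nat_lit 382) (.e (nat_lit 1199) (nat_lit 88) .nil)))))))) (.g (nat_lit 5) .nil .nil))) 
(.lf (nat_lit 189642) (.g (nat_lit 2725) (.e (nat_lit 65571) (nat_lit 3) (.e (nat_lit 98372) (nat_lit 29) (.e (nat_lit 450579) (nat_lit 5) (.e (nat_lit 532503) (nat_lit 1) (.e (nat_lit 65280) (nat_lit 221) (.e (nat_lit 1202) (nat_lit 88) .nil)))))) (.g (nat_lit 4) .nil .nil)))) (.nd (nat_lit 6) 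
(.lf (nat_lit 189610) (.g (nat_lit 576) (.e (nat_lit 65571) (nat_lit 3) (.e (nat_lit 98370) (nat_lit 28) (.e (nat_lit 442394) (nat_lit 20) .nil))) .nil)) 
(.lf (nat_lit 189674) (.g (nat_lit 2805) (.e (nat_lit 65571) (nat_lit 3) (.e (nat_lit 98372) (nat_lit 29) (.e (nat_lit 450586) (nat_lit 10) (.e (nat_lit 573475) (nat_lit 12) (.e (nat_lit 57570) (nat_lit 54) (.e (nat_lit 770070) (nat_lit 8) .nil)))))) (.g (nat_lit 4) .nil .nil))))) (.nd (nat_lit 5) (.nd (nat_lit 6) 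
(.lf (nat_lit 189594) (.g (nat_lit 1117) (.e (nat_lit 65571) (nat_lit 3) (.e (nat_lit 98366) (nat_lit 27) (.e (nat_lit 434276) (nat_lit 39) (.e (nat_lit 663580) (nat_lit 9) .nil)))) .nil)) 
(.lf (nat_lit 189658) (.g (nat_lit 1585) (.e (nat_lit 65571) (nat_lit 3) (.e (nat_lit 98372) (nat_lit 29) (.e (nat_lit 450586) (nat_lit 10) (.e (nat_lit 573473) (nat_lit 12) (.e (nat_lit 57569) (nat_lit 53) .nil))))) .nil))) (.nd (nat_lit 6) 
(.lf (nat_lit 189626) (.g (nat_lit 400) (.e (nat_lit 65571) (nat_lit 3) (.e (nat_lit 98372) (nat_lit 29) (.e (nat_lit 450579) (nat_lit 5) .nil))) .nil)) 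
(.lf (nat_lit 189690) (.g (nat_lit 4351) (.e (nat_lit 65571) (nat_lit 3) (.e (nat_lit 98372) (nat_lit 29) (.e (nat_lit 450588) (nat_lit 10) (.e (nat_lit 573473) (nat_lit 12) (.e (nat_lit 57347) (nat_lit 0) (.e (nat_lit 7124) (nat_lit 382) (.e (nat_lit 1201) (nat_lit 88) .nil))))))) (.g (nat_lit 4) .nil .nil))))))) (.nd (nat_lit 3) (.nd (nat_lit 4) (.nd (nat_lit 5) (.nd (nat_lit 6) 
(.lf (nat_lit 189574) (.g (nat_lit 4433) (.e (nat_lit 65571) (nat_lit 3) (.e (nat_lit 98359) (nat_lit 26) (.e (nat_lit 426286) (nat_lit 10) (.e (nat_lit 434248) (nat_lit 28) (.e (nat_lit 573473) (nat_lit 12) (.e (nat_lit 57353) (nat_lit 0) (.e (nat_lit 7124) (nat_lit 382) (.e (nat_lit 1201) (nat_lit 88) .nil)))))))) (.g (nat_lit 0) .nil .nil))) 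
(.lf (nat_lit 189638) (.g (nat_lit 2895) (.e (nat_lit 65571) (nat_lit 3) (.e (nat_lit 98372) (nat_lit 29) (.e (nat_lit 450579) (nat_lit 5) (.e (nat_lit 532503) (nat_lit 1) (.e (nat_lit 65280) (nat_lit 221) (.e (nat_lit 1188) (nat_lit 88) .nil)))))) (.g (nat_lit 4) .nil .nil)))) (.nd (nat_lit 6) 
(.lf (nat_lit 189606) (.g (nat_lit 736) (.e (nat_lit 65571) (nat_lit 3) (.e (nat_lit 98367) (nat_lit 27) (.e (nat_lit 434278) (nat_lit 39) .nil))) .nil)) 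
(.lf (nat_lit 189670) (.g (nat_lit 3434) (.e (nat_lit 65571) (nat_lit 3) (.e (nat_lit 98372) (nat_lit 29) (.e (nat_lit 450586) (nat_lit 10) (.e (nat_lit 573475) (nat_lit 12) (.e (nat_lit 57354) (nat_lit 0) (.e (nat_lit 7147) (nat_lit 382) (.e (nat_lit 1203) (nat_lit 88) .nil))))))) (.g (nat_lit 5) .nil .nil))))) (.nd (nat_lit 5) (.nd (nat_lit 6) 
(.lf (nat_lit 189590) (.g (nat_lit 2722) (.e (nat_lit 65571) (nat_lit 3) (.e (nat_lit 98366) (nat_lit 27) (.e (nat_lit 434275) (nat_lit 39) (.e (nat_lit 663580) (nat_lit 9) (.e (nat_lit 2663) (nat_lit 167) (.e (nat_lit 196651) (nat_lit 10) (.e (nat_lit 16128) (nat_lit 195) .nil))))))) (.g (nat_lit 4) .nil .nil))) 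
(.lf (nat_lit 189654) (.g (nat_lit 1817) (.e (nat_lit 65571) (nat_lit 3) (.e (nat_lit 98372) (nat_lit 29) (.e (nat_lit 450586) (nat_lit 10) (.e (nat_lit 573473) (nat_lit 12) (.e (nat_lit 57350) (nat_lit 0) .nil))))) .nil))) (.nd (nat_lit 6) 
(.lf (nat_lit 189622) (.g (nat_lit 591) (.e (nat_lit 65571) (nat_lit 3) (.e (nat_lit 98370) (nat_lit 28) (.e (nat_lit 442433) (nat_lit 25) .nil))) .nil)) 
(.lf (nat_lit 189686) (.g (nat_lit 2209) (.e (nat_lit 65571) (nat_lit 3) (.e (nat_lit 98372) (nat_lit 29) (.e (nat_lit 450588) (nat_lit 10) (.e (nat_lit 573452) (nat_lit 9) .nil)))) .nil))))) (.nd (nat_lit 4) (.nd (nat_lit 5) (.nd (nat_lit 6) 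
(.lf (nat_lit 189582) (.g (nat_lit 4635) (.e (nat_lit 65571) (nat_lit 3) (.e (nat_lit 98359) (nat_lit 26) (.e (nat_lit 426286) (nat_lit 10) (.e (nat_lit 434248) (nat_lit 28) (.e (nat_lit 573475) (nat_lit 12) (.e (nat_lit 57351) (nat_lit 0) (.e (nat_lit 7124) (nat_lit 382) (.e (nat_lit 1201) (nat_lit 88) .nil)))))))) (.g (nat_lit 0) .nil .nil))) 
(.lf (nat_lit 189646) (.g (nat_lit 3005) (.e (nat_lit 65571) (nat_lit 3) (.e (nat_lit 98372) (nat_lit 29) (.e (nat_lit 450579) (nat_lit 5) (.e (nat_lit 532504) (nat_lit 1) (.e (nat_lit 65280) (nat_lit 221) (.e (nat_lit 1202) (nat_lit 88) .nil)))))) (.g (nat_lit 4) .nil .nil)))) (.nd (nat_lit 6) 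
(.lf (nat_lit 189614) (.g (nat_lit 1626) (.e (nat_lit 65571) (nat_lit 3) (.e (nat_lit 98370) (nat_lit 28) (.e (nat_lit 442424) (nat_lit 22) (.e (nat_lit 196622) (nat_lit 9) .nil)))) .nil)) 
(.lf (nat_lit 189678) (.g (nat_lit 956) (.e (nat_lit 65571) (nat_lit 3) (.e (nat_lit 98372) (nat_lit 29) (.e (nat_lit 450586) (nat_lit 10) (.e (nat_lit 573478) (nat_lit 12) .nil)))) .nil)))) (.nd (nat_lit 5) (.nd (nat_lit 6) 
(.lf (nat_lit 189598) (.g (nat_lit 805) (.e (nat_lit 65571) (nat_lit 3) (.e (nat_lit 98367) (nat_lit 27) (.e (nat_lit 434256) (nat_lit 31) .nil))) .nil)) 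
(.lf (nat_lit 189662) (.g (nat_lit 1939) (.e (nat_lit 65571) (nat_lit 3) (.e (nat_lit 98372) (nat_lit 29) (.e (nat_lit 450586) (nat_lit 10) (.e (nat_lit 573475) (nat_lit 12) (.e (nat_lit 57344) (nat_lit 0) .nil))))) .nil))) (.nd (nat_lit 6) 
(.lf (nat_lit 189630) (.g (nat_lit 1427) (.e (nat_lit 65571) (nat_lit 3) (.e (nat_lit 98372) (nat_lit 29) (.e (nat_lit 450579) (nat_lit 5) (.e (nat_lit 532489) (nat_lit 0) .nil)))) .nil)) 
(.lf (nat_lit 189694) (.g (nat_lit 3500) (.e (nat_lit 65571) (nat_lit 3) (.e (nat_lit 98372) (nat_lit 29) (.e (nat_lit 450588) (nat_lit 10) (.e (nat_lit 573473) (nat_lit 12) (.e (nat_lit 57350) (nat_lit 0) .nil))))) .nil)))))))) (.nd (nat_lit 1) (.nd (nat_lit 2) (.nd (nat_lit 3) (.nd (nat_lit 4) (.nd (nat_lit 5) (.nd (nat_lit 6) 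
(.lf (nat_lit 189569) (.g (nat_lit 3859) (.e (nat_lit 65571) (nat_lit 3) (.e (nat_lit 98359) (nat_lit 26) (.e (nat_lit 426286) (nat_lit 10) (.e (nat_lit 434247) (nat_lit 28) (.e (nat_lit 573478) (nat_lit 12) (.e (nat_lit 57351) (nat_lit 0) (.e (nat_lit 7124) (nat_lit 382) (.e (nat_lit 1201) (nat_lit 88) .nil)))))))) (.g (nat_lit 0) .nil .nil))) 
(.lf (nat_lit 189633) (.g (nat_lit 2871) (.e (nat_lit 65571) (nat_lit 3) (.e (nat_lit 98372) (nat_lit 29) (.e (nat_lit 450579) (nat_lit 5) (.e (nat_lit 532501) (nat_lit 1) (.e (nat_lit 57766) (nat_lit 221) (.e (nat_lit 1197) (nat_lit 88) .nil)))))) (.g (nat_lit 4) .nil .nil)))) (.nd (nat_lit 6) 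
(.lf (nat_lit 189601) (.g (nat_lit 2642) (.e (nat_lit 65571) (nat_lit 3) (.e (nat_lit 98367) (nat_lit 27) (.e (nat_lit 434275) (nat_lit 39) (.e (nat_lit 663580) (nat_lit 9) (.e (nat_lit 2663) (nat_lit 167) (.e (nat_lit 196651) (nat_lit 10) (.e (nat_lit 16128) (nat_lit 195) .nil))))))) (.g (nat_lit 4) .nil .nil))) 
(.lf (nat_lit 189665) (.g (nat_lit 2475) (.e (nat_lit 65571) (nat_lit 3) (.e (nat_lit 98372) (nat_lit 29) (.e (nat_lit 450586) (nat_lit 10) (.e (nat_lit 573475) (nat_lit 12) (.e (nat_lit 57346) (nat_lit 0) (.e (nat_lit 7133) (nat_lit 382) (.e (nat_lit 1190) (nat_lit 88) .nil))))))) (.g (nat_lit 4) .nil .nil))))) (.nd (nat_lit 5) (.nd (nat_lit 6) 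
(.lf (nat_lit 189585) (.g (nat_lit 2410) (.e (nat_lit 65571) (nat_lit 3) (.e (nat_lit 98359) (nat_lit 26) (.e (nat_lit 426286) (nat_lit 10) (.e (nat_lit 434248) (nat_lit 28) (.e (nat_lit 573475) (nat_lit 12) (.e (nat_lit 57571) (nat_lit 54) (.e (nat_lit 770070) (nat_lit 8) .nil))))))) (.g (nat_lit 4) .nil .nil))) 
(.lf (nat_lit 189649) (.g (nat_lit 4751) (.e (nat_lit 65571) (nat_lit 3) (.e (nat_lit 98372) (nat_lit 29) (.e (nat_lit 450585) (nat_lit 10) (.e (nat_lit 573474) (nat_lit 12) (.e (nat_lit 57572) (nat_lit 54) (.e (nat_lit 770071) (nat_lit 8) .nil)))))) (.g (nat_lit 5) .nil .nil)))) (.nd (nat_lit 6) 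
(.lf (nat_lit 189617) (.g (nat_lit 1485) (.e (nat_lit 65571) (nat_lit 3) (.e (nat_lit 98370) (nat_lit 28) (.e (nat_lit 442427) (nat_lit 23) (.e (nat_lit 212736) (nat_lit 0) .nil)))) .nil)) 
(.lf (nat_lit 189681) (.g (nat_lit 441) (.e (nat_lit 65571) (nat_lit 3) (.e (nat_lit 98372) (nat_lit 29) (.e (nat_lit 450588) (nat_lit 10) .nil))) .nil))))) (.nd (nat_lit 4) (.nd (nat_lit 5) (.nd (nat_lit 6) 
(.lf (nat_lit 189577) (.g (nat_lit 3371) (.e (nat_lit 65571) (nat_lit 3) (.e (nat_lit 98359) (nat_lit 26) (.e (nat_lit 426286) (nat_lit 10) (.e (nat_lit 434248) (nat_lit 28) (.e (nat_lit 573475) (nat_lit 12) (.e (nat_lit 57344) (nat_lit 0) (.e (nat_lit 7122) (nat_lit 382) (.e (nat_lit 1201) (nat_lit 88) .nil)))))))) (.g (nat_lit 5) .nil .nil))) 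
(.lf (nat_lit 189641) (.g (nat_lit 2850) (.e (nat_lit 65571) (nat_lit 3) (.e (nat_lit 98372) (nat_lit 29) (.e (nat_lit 450579) (nat_lit 5) (.e (nat_lit 532503) (nat_lit 1) (.e (nat_lit 65280) (nat_lit 221) (.e (nat_lit 1199) (nat_lit 88) .nil)))))) (.g (nat_lit 4) .nil .nil)))) (.nd (nat_lit 6) 
(.lf (nat_lit 189609) (.g (nat_lit 550) (.e (nat_lit 65571) (nat_lit 3) (.e (nat_lit 98370) (nat_lit 28) (.e (nat_lit 450304) (nat_lit 3) .nil))) .nil)) 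
(.lf (nat_lit 189673) (.g (nat_lit 1776) (.e (nat_lit 65571) (nat_lit 3) (.e (nat_lit 98372) (nat_lit 29) (.e (nat_lit 450586) (nat_lit 10) (.e (nat_lit 573475) (nat_lit 12) (.e (nat_lit 57568) (nat_lit 53) .nil))))) .nil)))) (.nd (nat_lit 5) (.nd (nat_lit 6) 
(.lf (nat_lit 189593) (.g (nat_lit 3525) (.e (nat_lit 65571) (nat_lit 3) (.e (nat_lit 98366) (nat_lit 27) (.e (nat_lit 434275) (nat_lit 39) (.e (nat_lit 663580) (nat_lit 9) (.e (nat_lit 2667) (nat_lit 167) (.e (nat_lit 196651) (nat_lit 10) (.e (nat_lit 16128) (nat_lit 195) .nil))))))) (.g (nat_lit 5) .nil .nil))) 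
(.lf (nat_lit 189657) (.g (nat_lit 2977) (.e (nat_lit 65571) (nat_lit 3) (.e (nat_lit 98372) (nat_lit 29) (.e (nat_lit 450586) (nat_lit 10) (.e (nat_lit 573473) (nat_lit 12) (.e (nat_lit 57354) (nat_lit 0) (.e (nat_lit 7147) (nat_lit 382) (.e (nat_lit 1203) (nat_lit 88) .nil))))))) (.g (nat_lit 5) .nil .nil)))) (.nd (nat_lit 6) 
(.lf (nat_lit 189625) (.g (nat_lit 513) (.e (nat_lit 65571) (nat_lit 3) (.e (nat_lit 98372) (nat_lit 29) (.e (nat_lit 450577) (nat_lit 4) .nil))) .nil)) 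
(.lf (nat_lit 189689) (.g (nat_lit 2053) (.e (nat_lit 65571) (nat_lit 3) (.e (nat_lit 98372) (nat_lit 29) (.e (nat_lit 450588) (nat_lit 10) (.e (nat_lit 573473) (nat_lit 12) .nil)))) .nil)))))) (.nd (nat_lit 3) (.nd (nat_lit 4) (.nd (nat_lit 5) (.nd (nat_lit 6) 
(.lf (nat_lit 189573) (.g (nat_lit 4512) (.e (nat_lit 65571) (nat_lit 3) (.e (nat_lit 98359) (nat_lit 26) (.e (nat_lit 426286) (nat_lit 10) (.e (nat_lit 434248) (nat_lit 28) (.e (nat_lit 573473) (nat_lit 12) (.e (nat_lit 57348) (nat_lit 0) (.e (nat_lit 7124) (nat_lit 382) (.e (nat_lit 1201) (nat_lit 88) .nil)))))))) (.g (nat_lit 0) .nil .nil))) 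
(.lf (nat_lit 189637) (.g (nat_lit 2316) (.e (nat_lit 65571) (nat_lit 3) (.e (nat_lit 98372) (nat_lit 29) (.e (nat_lit 450579) (nat_lit 5) (.e (nat_lit 532503) (nat_lit 1) (.e (nat_lit 57766) (nat_lit 221) .nil))))) .nil))) (.nd (nat_lit 6) 
(.lf (nat_lit 189605) (.g (nat_lit 2333) (.e (nat_lit 65571) (nat_lit 3) (.e (nat_lit 98367) (nat_lit 27) (.e (nat_lit 434276) (nat_lit 39) (.e (nat_lit 663580) (nat_lit 9) (.e (nat_lit 2663) (nat_lit 167) (.e (nat_lit 196649) (nat_lit 10) (.e (nat_lit 16128) (nat_lit 195) .nil))))))) (.g (nat_lit 4) .nil .nil))) 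
(.lf (nat_lit 189669) (.g (nat_lit 2627) (.e (nat_lit 65571) (nat_lit 3) (.e (nat_lit 98372) (nat_lit 29) (.e (nat_lit 450586) (nat_lit 10) (.e (nat_lit 573475) (nat_lit 12) (.e (nat_lit 57351) (nat_lit 0) (.e (nat_lit 7122) (nat_lit 382) (.e (nat_lit 1191) (nat_lit 88) .nil))))))) (.g (nat_lit 4) .nil .nil))))) (.nd (nat_lit 5) (.nd (nat_lit 6) 
(.lf (nat_lit 189589) (.g (nat_lit 4042) (.e (nat_lit 65571) (nat_lit 3) (.e (nat_lit 98366) (nat_lit 27) (.e (nat_lit 434275) (nat_lit 39) (.e (nat_lit 663580) (nat_lit 9) (.e (nat_lit 2663) (nat_lit 167) (.e (nat_lit 196649) (nat_lit 10) (.e (nat_lit 16128) (nat_lit 195) .nil))))))) (.g (nat_lit 6) .nil .nil))) 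
(.lf (nat_lit 189653) (.g (nat_lit 2521) (.e (nat_lit 65571) (nat_lit 3) (.e (nat_lit 98372) (nat_lit 29) (.e (nat_lit 450586) (nat_lit 10) (.e (nat_lit 573473) (nat_lit 12) (.e (nat_lit 57348) (nat_lit 0) (.e (nat_lit 7125) (nat_lit 382) (.e (nat_lit 1192) (nat_lit 88) .nil))))))) (.g (nat_lit 4) .nil .nil)))) (.nd (nat_lit 6) 
(.lf (nat_lit 189621) (.g (nat_lit 1410) (.e (nat_lit 65571) (nat_lit 3) (.e (nat_lit 98370) (nat_lit 28) (.e (nat_lit 442430) (nat_lit 24) (.e (nat_lit 237312) (nat_lit 124) .nil)))) .nil)) 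
(.lf (nat_lit 189685) (.g (nat_lit 2964) (.e (nat_lit 65571) (nat_lit 3) (.e (nat_lit 98372) (nat_lit 29) (.e (nat_lit 450588) (nat_lit 10) (.e (nat_lit 573451) (nat_lit 9) .nil)))) .nil))))) (.nd (nat_lit 4) (.nd (nat_lit 5) (.nd (nat_lit 6) 
(.lf (nat_lit 189581) (.g (nat_lit 2692) (.e (nat_lit 65571) (nat_lit 3) (.e (nat_lit 98359) (nat_lit 26) (.e (nat_lit 426286) (nat_lit 10) (.e (nat_lit 434248) (nat_lit 28) (.e (nat_lit 573475) (nat_lit 12) (.e (nat_lit 57347) (nat_lit 0) (.e (nat_lit 7125) (nat_lit 382) (.e (nat_lit 1192) (nat_lit 88) .nil)))))))) (.g (nat_lit 4) .nil .nil))) 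
(.lf (nat_lit 189645) (.g (nat_lit 2910) (.e (nat_lit 65571) (nat_lit 3) (.e (nat_lit 98372) (nat_lit 29) (.e (nat_lit 450579) (nat_lit 5) (.e (nat_lit 532504) (nat_lit 1) (.e (nat_lit 65280) (nat_lit 221) (.e (nat_lit 1198) (nat_lit 88) .nil)))))) (.g (nat_lit 4) .nil .nil)))) (.nd (nat_lit 6) 
(.lf (nat_lit 189613) (.g (nat_lit 973) (.e (nat_lit 65571) (nat_lit 3) (.e (nat_lit 98370) (nat_lit 28) (.e (nat_lit 442424) (nat_lit 22) (.e (nat_lit 204544) (nat_lit 0) .nil)))) .nil)) 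
(.lf (nat_lit 189677) (.g (nat_lit 2389) (.e (nat_lit 65571) (nat_lit 3) (.e (nat_lit 98372) (nat_lit 29) (.e (nat_lit 450586) (nat_lit 10) (.e (nat_lit 573477) (nat_lit 12) (.e (nat_lit 57570) (nat_lit 54) (.e (nat_lit 770070) (nat_lit 8) .nil)))))) (.g (nat_lit 4) .nil .nil))))) (.nd (nat_lit 5) (.nd (nat_lit 6) 
(.lf (nat_lit 189597) (.g (nat_lit 2078) (.e (nat_lit 65571) (nat_lit 3) (.e (nat_lit 98367) (nat_lit 27) (.e (nat_lit 434209) (nat_lit 18) (.e (nat_lit 5224) (nat_lit 296) (.e (nat_lit 163871) (nat_lit 2) .nil))))) .nil)) 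
(.lf (nat_lit 189661) (.g (nat_lit 3459) (.e (nat_lit 65571) (nat_lit 3) (.e (nat_lit 98372) (nat_lit 29) (.e (nat_lit 450586) (nat_lit 10) (.e (nat_lit 573474) (nat_lit 12) (.e (nat_lit 57572) (nat_lit 54) (.e (nat_lit 770071) (nat_lit 8) .nil)))))) (.g (nat_lit 5) .nil .nil)))) (.nd (nat_lit 6) 
(.lf (nat_lit 189629) (.g (nat_lit 2415) (.e (nat_lit 65571) (nat_lit 3) (.e (nat_lit 98372) (nat_lit 29) (.e (nat_lit 450579) (nat_lit 5) (.e (nat_lit 532484) (nat_lit 0) (.e (nat_lit 1911) (nat_lit 129) (.e (nat_lit 598039) (nat_lit 8) .nil)))))) (.g (nat_lit 4) .nil .nil))) 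
(.lf (nat_lit 189693) (.g (nat_lit 4063) (.e (nat_lit 65571) (nat_lit 3) (.e (nat_lit 98372) (nat_lit 29) (.e (nat_lit 450588) (nat_lit 10) (.e (nat_lit 573473) (nat_lit 12) (.e (nat_lit 57348) (nat_lit 0) (.e (nat_lit 7236) (nat_lit 382) (.e (nat_lit 1199) (nat_lit 88) .nil))))))) (.g (nat_lit 4) .nil .nil)))))))) 
(.nd (nat_lit 2) (.nd (nat_lit 3) (.nd (nat_lit 4) (.nd (nat_lit 5) (.nd (nat_lit 6) 
(.lf (nat_lit 189571) (.g (nat_lit 2586) (.e (nat_lit 65571) (nat_lit 3) (.e (nat_lit 98359) (nat_lit 26) (.e (nat_lit 426286) (nat_lit 10) (.e (nat_lit 434248) (nat_lit 28) (.e (nat_lit 573468) (nat_lit 10) .nil))))) .nil)) 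
(.lf (nat_lit 189635) (.g (nat_lit 2977) (.e (nat_lit 65571) (nat_lit 3) (.e (nat_lit 98372) (nat_lit 29) (.e (nat_lit 450579) (nat_lit 5) (.e (nat_lit 532501) (nat_lit 1) (.e (nat_lit 65280) (nat_lit 221) (.e (nat_lit 1198) (nat_lit 88) .nil)))))) (.g (nat_lit 4) .nil .nil)))) (.nd (nat_lit 6) 
(.lf (nat_lit 189603) (.g (nat_lit 3324) (.e (nat_lit 65571) (nat_lit 3) (.e (nat_lit 98367) (nat_lit 27) (.e (nat_lit 434275) (nat_lit 39) (.e (nat_lit 663580) (nat_lit 9) (.e (nat_lit 2667) (nat_lit 167) (.e (nat_lit 196649) (nat_lit 10) (.e (nat_lit 16128) (nat_lit 195) .nil))))))) (.g (nat_lit 5) .nil .nil))) 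
(.lf (nat_lit 189667) (.g (nat_lit 3120) (.e (nat_lit 65571) (nat_lit 3) (.e (nat_lit 98372) (nat_lit 29) (.e (nat_lit 450586) (nat_lit 10) (.e (nat_lit 573475) (nat_lit 12) (.e (nat_lit 57347) (nat_lit 0) (.e (nat_lit 7125) (nat_lit 382) (.e (nat_lit 1192) (nat_lit 88) .nil))))))) (.g (nat_lit 4) .nil .nil))))) (.nd (nat_lit 5) (.nd (nat_lit 6) 
(.lf (nat_lit 189587) (.g (nat_lit 2127) (.e (nat_lit 65571) (nat_lit 3) (.e (nat_lit 98359) (nat_lit 26) (.e (nat_lit 426338) (nat_lit 14) (.e (nat_lit 491540) (nat_lit 3) (.e (nat_lit 98335) (nat_lit 18) .nil))))) .nil)) 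
(.lf (nat_lit 189651) (.g (nat_lit 1321) (.e (nat_lit 65571) (nat_lit 3) (.e (nat_lit 98372) (nat_lit 29) (.e (nat_lit 450586) (nat_lit 10) (.e (nat_lit 573472) (nat_lit 12) .nil)))) .nil))) (.nd (nat_lit 6) 
(.lf (nat_lit 189619) (.g (nat_lit 2045) (.e (nat_lit 65571) (nat_lit 3) (.e (nat_lit 98370) (nat_lit 28) (.e (nat_lit 442427) (nat_lit 23) (.e (nat_lit 204819) (nat_lit 17) .nil)))) .nil)) 
(.lf (nat_lit 189683) (.g (nat_lit 2634) (.e (nat_lit 65571) (nat_lit 3) (.e (nat_lit 98372) (nat_lit 29) (.e (nat_lit 450588) (nat_lit 10) (.e (nat_lit 581376) (nat_lit 3) .nil)))) .nil))))) (.nd (nat_lit 4) (.nd (nat_lit 5) (.nd (nat_lit 6) 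
(.lf (nat_lit 189579) (.g (nat_lit 5297) (.e (nat_lit 65571) (nat_lit 3) (.e (nat_lit 98359) (nat_lit 26) (.e (nat_lit 426286) (nat_lit 10) (.e (nat_lit 434248) (nat_lit 28) (.e (nat_lit 573475) (nat_lit 12) (.e (nat_lit 57347) (nat_lit 0) (.e (nat_lit 7124) (nat_lit 382) (.e (nat_lit 1201) (nat_lit 88) .nil)))))))) (.g (nat_lit 0) .nil .nil))) 
(.lf (nat_lit 189643) (.g (nat_lit 3529) (.e (nat_lit 65571) (nat_lit 3) (.e (nat_lit 98372) (nat_lit 29) (.e (nat_lit 450579) (nat_lit 5) (.e (nat_lit 532504) (nat_lit 1) (.e (nat_lit 57766) (nat_lit 221) (.e (nat_lit 1187) (nat_lit 88) .nil)))))) (.g (nat_lit 4) .nil .nil)))) (.nd (nat_lit 6) 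
(.lf (nat_lit 189611) (.g (nat_lit 971) (.e (nat_lit 65571) (nat_lit 3) (.e (nat_lit 98370) (nat_lit 28) (.e (nat_lit 442396) (nat_lit 20) (.e (nat_lit 3207) (nat_lit 195) .nil)))) .nil)) 
(.lf (nat_lit 189675) (.g (nat_lit 2494) (.e (nat_lit 65571) (nat_lit 3) (.e (nat_lit 98372) (nat_lit 29) (.e (nat_lit 450586) (nat_lit 10) (.e (nat_lit 573475) (nat_lit 12) (.e (nat_lit 57571) (nat_lit 54) (.e (nat_lit 770070) (nat_lit 8) .nil)))))) (.g (nat_lit 4) .nil .nil))))) (.nd (nat_lit 5) (.nd (nat_lit 6) 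
(.lf (nat_lit 189595) (.g (nat_lit 1943) (.e (nat_lit 65571) (nat_lit 3) (.e (nat_lit 98366) (nat_lit 27) (.e (nat_lit 434276) (nat_lit 39) (.e (nat_lit 663580) (nat_lit 9) (.e (nat_lit 2663) (nat_lit 167) (.e (nat_lit 196649) (nat_lit 10) (.e (nat_lit 16128) (nat_lit 195) .nil))))))) (.g (nat_lit 4) .nil .nil))) 
(.lf (nat_lit 189659) (.g (nat_lit 1910) (.e (nat_lit 65571) (nat_lit 3) (.e (nat_lit 98372) (nat_lit 29) (.e (nat_lit 450586) (nat_lit 10) (.e (nat_lit 573473) (nat_lit 12) (.e (nat_lit 57570) (nat_lit 54) .nil))))) .nil))) (.nd (nat_lit 6) 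
(.lf (nat_lit 189627) (.g (nat_lit 1287) (.e (nat_lit 65571) (nat_lit 3) (.e (nat_lit 98372) (nat_lit 29) (.e (nat_lit 450579) (nat_lit 5) (.e (nat_lit 532484) (nat_lit 0) .nil)))) .nil)) 
(.lf (nat_lit 189691) (.g (nat_lit 3344) (.e (nat_lit 65571) (nat_lit 3) (.e (nat_lit 98372) (nat_lit 29) (.e (nat_lit 450588) (nat_lit 10) (.e (nat_lit 573473) (nat_lit 12) (.e (nat_lit 57348) (nat_lit 0) .nil))))) .nil)))))) (.nd (nat_lit 3) (.nd (nat_lit 4) (.nd (nat_lit 5) (.nd (nat_lit 6) 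
(.lf (nat_lit 189575) (.g (nat_lit 2495) (.e (nat_lit 65571) (nat_lit 3) (.e (nat_lit 98359) (nat_lit 26) (.e (nat_lit 426286) (nat_lit 10) (.e (nat_lit 434248) (nat_lit 28) (.e (nat_lit 573473) (nat_lit 12) (.e (nat_lit 57354) (nat_lit 0) (.e (nat_lit 7147) (nat_lit 382) (.e (nat_lit 1203) (nat_lit 88) .nil)))))))) (.g (nat_lit 4) .nil .nil))) 
(.lf (nat_lit 189639) (.g (nat_lit 2806) (.e (nat_lit 65571) (nat_lit 3) (.e (nat_lit 98372) (nat_lit 29) (.e (nat_lit 450579) (nat_lit 5) (.e (nat_lit 532503) (nat_lit 1) (.e (nat_lit 65280) (nat_lit 221) (.e (nat_lit 1189) (nat_lit 88) .nil)))))) (.g (nat_lit 4) .nil .nil)))) (.nd (nat_lit 6) 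
(.lf (nat_lit 189607) (.g (nat_lit 747) (.e (nat_lit 65571) (nat_lit 3) (.e (nat_lit 98370) (nat_lit 28) (.e (nat_lit 442368) (nat_lit 0) .nil))) .nil)) 
(.lf (nat_lit 189671) (.g (nat_lit 2566) (.e (nat_lit 65571) (nat_lit 3) (.e (nat_lit 98372) (nat_lit 29) (.e (nat_lit 450586) (nat_lit 10) (.e (nat_lit 573475) (nat_lit 12) (.e (nat_lit 57356) (nat_lit 0) (.e (nat_lit 7147) (nat_lit 382) (.e (nat_lit 1203) (nat_lit 88) .nil))))))) (.g (nat_lit 4) .nil .nil))))) (.nd (nat_lit 5) (.nd (nat_lit 6) 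
(.lf (nat_lit 189591) (.g (nat_lit 2519) (.e (nat_lit 65571) (nat_lit 3) (.e (nat_lit 98366) (nat_lit 27) (.e (nat_lit 434275) (nat_lit 39) (.e (nat_lit 663580) (nat_lit 9) (.e (nat_lit 2666) (nat_lit 167) .nil))))) .nil)) 
(.lf (nat_lit 189655) (.g (nat_lit 2422) (.e (nat_lit 65571) (nat_lit 3) (.e (nat_lit 98372) (nat_lit 29) (.e (nat_lit 450586) (nat_lit 10) (.e (nat_lit 573473) (nat_lit 12) (.e (nat_lit 57352) (nat_lit 0) (.e (nat_lit 7122) (nat_lit 382) (.e (nat_lit 1191) (nat_lit 88) .nil))))))) (.g (nat_lit 4) .nil .nil)))) (.nd (nat_lit 6) 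
(.lf (nat_lit 189623) (.g (nat_lit 483) (.e (nat_lit 65571) (nat_lit 3) (.e (nat_lit 98372) (nat_lit 29) (.e (nat_lit 458496) (nat_lit 1) .nil))) .nil)) 
(.lf (nat_lit 189687) (.g (nat_lit 3065) (.e (nat_lit 65571) (nat_lit 3) (.e (nat_lit 98372) (nat_lit 29) (.e (nat_lit 450588) (nat_lit 10) (.e (nat_lit 573467) (nat_lit 10) .nil)))) .nil))))) (.nd (nat_lit 4) (.nd (nat_lit 5) (.nd (nat_lit 6) 
(.lf (nat_lit 189583) (.g (nat_lit 3304) (.e (nat_lit 65571) (nat_lit 3) (.e (nat_lit 98359) (nat_lit 26) (.e (nat_lit 426286) (nat_lit 10) (.e (nat_lit 434248) (nat_lit 28) (.e (nat_lit 573475) (nat_lit 12) (.e (nat_lit 57354) (nat_lit 0) (.e (nat_lit 7147) (nat_lit 382) (.e (nat_lit 1203) (nat_lit 88) .nil)))))))) (.g (nat_lit 5) .nil .nil))) 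
(.lf (nat_lit 189647) (.g (nat_lit 1814) (.e (nat_lit 65571) (nat_lit 3) (.e (nat_lit 98372) (nat_lit 29) (.e (nat_lit 450579) (nat_lit 5) (.e (nat_lit 532517) (nat_lit 4) .nil)))) .nil))) (.nd (nat_lit 6) 
(.lf (nat_lit 189615) (.g (nat_lit 2059) (.e (nat_lit 65571) (nat_lit 3) (.e (nat_lit 98370) (nat_lit 28) (.e (nat_lit 442424) (nat_lit 22) (.e (nat_lit 196661) (nat_lit 12) (.e (nat_lit 57489) (nat_lit 33) .nil))))) .nil)) 
(.lf (nat_lit 189679) (.g (nat_lit 1432) (.e (nat_lit 65571) (nat_lit 3) (.e (nat_lit 98372) (nat_lit 29) (.e (nat_lit 450586) (nat_lit 10) (.e (nat_lit 581376) (nat_lit 18) .nil)))) .nil)))) (.nd (nat_lit 5) (.nd (nat_lit 6) 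
(.lf (nat_lit 189599) (.g (nat_lit 734) (.e (nat_lit 65571) (nat_lit 3) (.e (nat_lit 98367) (nat_lit 27) (.e (nat_lit 434275) (nat_lit 39) .nil))) .nil)) 
(.lf (nat_lit 189663) (.g (nat_lit 2922) (.e (nat_lit 65571) (nat_lit 3) (.e (nat_lit 98372) (nat_lit 29) (.e (nat_lit 450586) (nat_lit 10) (.e (nat_lit 573475) (nat_lit 12) (.e (nat_lit 57344) (nat_lit 0) (.e (nat_lit 7236) (nat_lit 382) (.e (nat_lit 1199) (nat_lit 88) .nil))))))) (.g (nat_lit 4) .nil .nil)))) (.nd (nat_lit 6) 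
(.lf (nat_lit 189631) (.g (nat_lit 2434) (.e (nat_lit 65571) (nat_lit 3) (.e (nat_lit 98372) (nat_lit 29) (.e (nat_lit 450579) (nat_lit 5) (.e (nat_lit 532499) (nat_lit 1) (.e (nat_lit 57767) (nat_lit 221) .nil))))) .nil)) 
(.lf (nat_lit 189695) (.g (nat_lit 4134) (.e (nat_lit 65571) (nat_lit 3) (.e (nat_lit 98372) (nat_lit 29) (.e (nat_lit 450588) (nat_lit 10) (.e (nat_lit 573473) (nat_lit 12) (.e (nat_lit 57353) (nat_lit 0) (.e (nat_lit 7122) (nat_lit 382) (.e (nat_lit 1201) (nat_lit 88) .nil))))))) (.g (nat_lit 4) .nil .nil))))))))))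

noncomputable def tv2512 : DT := (.nd (nat_lit 0) (.nd (nat_lit 1) (.nd (nat_lit 2) (.nd (nat_lit 3) (.nd (nat_lit 4) (.nd (nat_lit 5) (.nd (nat_lit 6) 
(.lf (nat_lit 189696) (.g (nat_lit 3504) (.e (nat_lit 65571) (nat_lit 3) (.e (nat_lit 98372) (nat_lit 29) (.e (nat_lit 450588) (nat_lit 10) (.e (nat_lit 573473) (nat_lit 12) (.e (nat_lit 57354) (nat_lit 0) .nil))))) .nil)) 
(.lf (nat_lit 189760) (.g (nat_lit 3547) (.e (nat_lit 65571) (nat_lit 3) (.e (nat_lit 98373) (nat_lit 29) (.e (nat_lit 450588) (nat_lit 10) (.e (nat_lit 573467) (nat_lit 10) (.e (nat_lit 8194) (nat_lit 0) .nil))))) .nil))) (.nd (nat_lit 6) 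
(.lf (nat_lit 189728) (.g (nat_lit 5145) (.e (nat_lit 65571) (nat_lit 3) (.e (nat_lit 98373) (nat_lit 29) (.e (nat_lit 450585) (nat_lit 10) (.e (nat_lit 573474) (nat_lit 12) (.e (nat_lit 57572) (nat_lit 54) (.e (nat_lit 770071) (nat_lit 8) .nil)))))) (.g (nat_lit 5) .nil .nil))) 
(.lf (nat_lit 189792) (.g (nat_lit 2672) (.e (nat_lit 65571) (nat_lit 3) (.e (nat_lit 98373) (nat_lit 29) (.e (nat_lit 450588) (nat_lit 10) (.e (nat_lit 573473) (nat_lit 12) (.e (nat_lit 57571) (nat_lit 54) (.e (nat_lit 770070) (nat_lit 8) .nil)))))) (.g (nat_lit 4) .nil .nil))))) (.nd (nat_lit 5) (.nd (nat_lit 6) 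
(.lf (nat_lit 189712) (.g (nat_lit 3421) (.e (nat_lit 65571) (nat_lit 3) (.e (nat_lit 98372) (nat_lit 29) (.e (nat_lit 450588) (nat_lit 10) (.e (nat_lit 573475) (nat_lit 12) (.e (nat_lit 57570) (nat_lit 54) (.e (nat_lit 770070) (nat_lit 8) .nil)))))) (.g (nat_lit 4) .nil .nil))) 
(.lf (nat_lit 189776) (.g (nat_lit 3036) (.e (nat_lit 65571) (nat_lit 3) (.e (nat_lit 98373) (nat_lit 29) (.e (nat_lit 450588) (nat_lit 10) (.e (nat_lit 573473) (nat_lit 12) (.e (nat_lit 57348) (nat_lit 0) (.e (nat_lit 7125) (nat_lit 382) (.e (nat_lit 1191) (nat_lit 88) .nil))))))) (.g (nat_lit 4) .nil .nil)))) (.nd (nat_lit 6) 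
(.lf (nat_lit 189744) (.g (nat_lit 3116) (.e (nat_lit 65571) (nat_lit 3) (.e (nat_lit 98373) (nat_lit 29) (.e (nat_lit 450587) (nat_lit 10) (.e (nat_lit 573477) (nat_lit 12) (.e (nat_lit 57570) (nat_lit 54) (.e (nat_lit 770070) (nat_lit 8) .nil)))))) (.g (nat_lit 5) .nil .nil))) 
(.lf (nat_lit 189808) (.g (nat_lit 3270) (.e (nat_lit 65571) (nat_lit 3) (.e (nat_lit 98373) (nat_lit 29) (.e (nat_lit 450588) (nat_lit 10) (.e (nat_lit 573475) (nat_lit 12) (.e (nat_lit 57347) (nat_lit 0) (.e (nat_lit 7124) (nat_lit 382) (.e (nat_lit 1192) (nat_lit 88) .nil))))))) (.g (nat_lit 4) .nil .nil)))))) (.nd (nat_lit 4) (.nd (nat_lit 5) (.nd (nat_lit 6) 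
(.lf (nat_lit 189704) (.g (nat_lit 3686) (.e (nat_lit 65571) (nat_lit 3) (.e (nat_lit 98372) (nat_lit 29) (.e (nat_lit 450588) (nat_lit 10) (.e (nat_lit 573475) (nat_lit 12) (.e (nat_lit 57348) (nat_lit 0) .nil))))) .nil)) 
(.lf (nat_lit 189768) (.g (nat_lit 2889) (.e (nat_lit 65571) (nat_lit 3) (.e (nat_lit 98373) (nat_lit 29) (.e (nat_lit 450588) (nat_lit 10) (.e (nat_lit 573473) (nat_lit 12) (.e (nat_lit 57345) (nat_lit 0) (.e (nat_lit 7236) (nat_lit 382) (.e (nat_lit 1190) (nat_lit 88) .nil))))))) (.g (nat_lit 4) .nil .nil)))) (.nd (nat_lit 6) 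
(.lf (nat_lit 189736) (.g (nat_lit 3882) (.e (nat_lit 65571) (nat_lit 3) (.e (nat_lit 98373) (nat_lit 29) (.e (nat_lit 450587) (nat_lit 10) (.e (nat_lit 573473) (nat_lit 12) .nil)))) .nil)) 
(.lf (nat_lit 189800) (.g (nat_lit 3300) (.e (nat_lit 65571) (nat_lit 3) (.e (nat_lit 98373) (nat_lit 29) (.e (nat_lit 450588) (nat_lit 10) (.e (nat_lit 573475) (nat_lit 12) (.e (nat_lit 57345) (nat_lit 0) (.e (nat_lit 7236) (nat_lit 382) (.e (nat_lit 1188) (nat_lit 88) .nil))))))) (.g (nat_lit 4) .nil .nil))))) (.nd (nat_lit 5) (.nd (nat_lit 6) 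
(.lf (nat_lit 189720) (.g (nat_lit 2031) (.e (nat_lit 65571) (nat_lit 3) (.e (nat_lit 98373) (nat_lit 29) (.e (nat_lit 458496) (nat_lit 3) (.e (nat_lit 516097) (nat_lit 0) (.e (nat_lit 3382) (nat_lit 209) (.e (nat_lit 630820) (nat_lit 16) .nil)))))) (.g (nat_lit 4) .nil .nil))) 
(.lf (nat_lit 189784) (.g (nat_lit 2921) (.e (nat_lit 65571) (nat_lit 3) (.e (nat_lit 98373) (nat_lit 29) (.e (nat_lit 450588) (nat_lit 10) (.e (nat_lit 573473) (nat_lit 12) (.e (nat_lit 57353) (nat_lit 0) (.e (nat_lit 7125) (nat_lit 382) (.e (nat_lit 1191) (nat_lit 88) .nil))))))) (.g (nat_lit 4) .nil .nil)))) (.nd (nat_lit 6) 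
(.lf (nat_lit 189752) (.g (nat_lit 2995) (.e (nat_lit 65571) (nat_lit 3) (.e (nat_lit 98373) (nat_lit 29) (.e (nat_lit 450587) (nat_lit 10) (.e (nat_lit 573502) (nat_lit 18) .nil)))) .nil)) 
(.lf (nat_lit 189816) (.g (nat_lit 2900) (.e (nat_lit 65571) (nat_lit 3) (.e (nat_lit 98373) (nat_lit 29) (.e (nat_lit 450588) (nat_lit 10) (.e (nat_lit 573475) (nat_lit 12) (.e (nat_lit 57348) (nat_lit 0) (.e (nat_lit 7125) (nat_lit 382) (.e (nat_lit 1191) (nat_lit 88) .nil))))))) (.g (nat_lit 4) .nil .nil))))))) (.nd (nat_lit 3) (.nd (nat_lit 4) (.nd (nat_lit 5) (.nd (nat_lit 6) 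
(.lf (nat_lit 189700) (.g (nat_lit 3775) (.e (nat_lit 65571) (nat_lit 3) (.e (nat_lit 98372) (nat_lit 29) (.e (nat_lit 450588) (nat_lit 10) (.e (nat_lit 573475) (nat_lit 12) (.e (nat_lit 57346) (nat_lit 0) .nil))))) .nil)) 
(.lf (nat_lit 189764) (.g (nat_lit 2366) (.e (nat_lit 65571) (nat_lit 3) (.e (nat_lit 98373) (nat_lit 29) (.e (nat_lit 450588) (nat_lit 10) (.e (nat_lit 573468) (nat_lit 10) (.e (nat_lit 8195) (nat_lit 0) (.e (nat_lit 4491) (nat_lit 263) (.e (nat_lit 1190) (nat_lit 88) .nil))))))) (.g (nat_lit 4) .nil .nil)))) (.nd (nat_lit 6) 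
(.lf (nat_lit 189732) (.g (nat_lit 2517) (.e (nat_lit 65571) (nat_lit 3) (.e (nat_lit 98373) (nat_lit 29) (.e (nat_lit 450587) (nat_lit 10) (.e (nat_lit 581376) (nat_lit 3) .nil)))) .nil)) 
(.lf (nat_lit 189796) (.g (nat_lit 2421) (.e (nat_lit 65571) (nat_lit 3) (.e (nat_lit 98373) (nat_lit 29) (.e (nat_lit 450588) (nat_lit 10) (.e (nat_lit 573475) (nat_lit 12) (.e (nat_lit 57344) (nat_lit 0) .nil))))) .nil)))) (.nd (nat_lit 5) (.nd (nat_lit 6) 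
(.lf (nat_lit 189716) (.g (nat_lit 614) (.e (nat_lit 65571) (nat_lit 3) (.e (nat_lit 98373) (nat_lit 29) (.e (nat_lit 450563) (nat_lit 0) .nil))) .nil)) 
(.lf (nat_lit 189780) (.g (nat_lit 3604) (.e (nat_lit 65571) (nat_lit 3) (.e (nat_lit 98373) (nat_lit 29) (.e (nat_lit 450588) (nat_lit 10) (.e (nat_lit 573473) (nat_lit 12) (.e (nat_lit 57348) (nat_lit 0) (.e (nat_lit 7236) (nat_lit 382) (.e (nat_lit 1200) (nat_lit 88) .nil))))))) (.g (nat_lit 4) .nil .nil)))) (.nd (nat_lit 6) 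
(.lf (nat_lit 189748) (.g (nat_lit 2516) (.e (nat_lit 65571) (nat_lit 3) (.e (nat_lit 98373) (nat_lit 29) (.e (nat_lit 450587) (nat_lit 10) (.e (nat_lit 573478) (nat_lit 12) (.e (nat_lit 57356) (nat_lit 0) (.e (nat_lit 7147) (nat_lit 382) (.e (nat_lit 1203) (nat_lit 88) .nil))))))) (.g (nat_lit 4) .nil .nil))) 
(.lf (nat_lit 189812) (.g (nat_lit 3532) (.e (nat_lit 65571) (nat_lit 3) (.e (nat_lit 98373) (nat_lit 29) (.e (nat_lit 450588) (nat_lit 10) (.e (nat_lit 573475) (nat_lit 12) (.e (nat_lit 57347) (nat_lit 0) (.e (nat_lit 7236) (nat_lit 382) (.e (nat_lit 1196) (nat_lit 88) .nil))))))) (.g (nat_lit 4) .nil .nil)))))) (.nd (nat_lit 4) (.nd (nat_lit 5) (.nd (nat_lit 6) 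
(.lf (nat_lit 189708) (.g (nat_lit 3737) (.e (nat_lit 65571) (nat_lit 3) (.e (nat_lit 98372) (nat_lit 29) (.e (nat_lit 450588) (nat_lit 10) (.e (nat_lit 573475) (nat_lit 12) (.e (nat_lit 57353) (nat_lit 0) .nil))))) .nil)) 
(.lf (nat_lit 189772) (.g (nat_lit 2229) (.e (nat_lit 65571) (nat_lit 3) (.e (nat_lit 98373) (nat_lit 29) (.e (nat_lit 450588) (nat_lit 10) (.e (nat_lit 573473) (nat_lit 12) (.e (nat_lit 57348) (nat_lit 0) .nil))))) .nil))) (.nd (nat_lit 6) 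
(.lf (nat_lit 189740) (.g (nat_lit 3542) (.e (nat_lit 65571) (nat_lit 3) (.e (nat_lit 98373) (nat_lit 29) (.e (nat_lit 450587) (nat_lit 10) (.e (nat_lit 573475) (nat_lit 12) (.e (nat_lit 57572) (nat_lit 54) .nil))))) .nil)) 
(.lf (nat_lit 189804) (.g (nat_lit 3215) (.e (nat_lit 65571) (nat_lit 3) (.e (nat_lit 98373) (nat_lit 29) (.e (nat_lit 450588) (nat_lit 10) (.e (nat_lit 573475) (nat_lit 12) (.e (nat_lit 57347) (nat_lit 0) (.e (nat_lit 7119) (nat_lit 382) (.e (nat_lit 1191) (nat_lit 88) .nil))))))) (.g (nat_lit 4) .nil .nil))))) (.nd (nat_lit 5) (.nd (nat_lit 6) 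
(.lf (nat_lit 189724) (.g (nat_lit 498) (.e (nat_lit 65571) (nat_lit 3) (.e (nat_lit 98373) (nat_lit 29) (.e (nat_lit 450579) (nat_lit 5) .nil))) .nil)) 
(.lf (nat_lit 189788) (.g (nat_lit 2468) (.e (nat_lit 65571) (nat_lit 3) (.e (nat_lit 98373) (nat_lit 29) (.e (nat_lit 450588) (nat_lit 10) (.e (nat_lit 573473) (nat_lit 12) (.e (nat_lit 57357) (nat_lit 0) .nil))))) .nil))) (.nd (nat_lit 6) 
(.lf (nat_lit 189756) (.g (nat_lit 2736) (.e (nat_lit 65571) (nat_lit 3) (.e (nat_lit 98373) (nat_lit 29) (.e (nat_lit 450588) (nat_lit 10) (.e (nat_lit 573449) (nat_lit 9) (.e (nat_lit 974) (nat_lit 81) .nil))))) .nil)) 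
(.lf (nat_lit 189820) (.g (nat_lit 3301) (.e (nat_lit 65571) (nat_lit 3) (.e (nat_lit 98373) (nat_lit 29) (.e (nat_lit 450588) (nat_lit 10) (.e (nat_lit 573475) (nat_lit 12) (.e (nat_lit 57351) (nat_lit 0) (.e (nat_lit 7122) (nat_lit 382) (.e (nat_lit 1191) (nat_lit 88) .nil))))))) (.g (nat_lit 4) .nil .nil)))))))) 
(.nd (nat_lit 2) (.nd (nat_lit 3) (.nd (nat_lit 4) (.nd (nat_lit 5) (.nd (nat_lit 6) 
(.lf (nat_lit 189698) (.g (nat_lit 3376) (.e (nat_lit 65571) (nat_lit 3) (.e (nat_lit 98372) (nat_lit 29) (.e (nat_lit 450588) (nat_lit 10) (.e (nat_lit 573475) (nat_lit 12) (.e (nat_lit 57344) (nat_lit 0) .nil))))) .nil)) 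
(.lf (nat_lit 189762) (.g (nat_lit 2142) (.e (nat_lit 65571) (nat_lit 3) (.e (nat_lit 98373) (nat_lit 29) (.e (nat_lit 450588) (nat_lit 10) (.e (nat_lit 573468) (nat_lit 10) (.e (nat_lit 8193) (nat_lit 0) .nil))))) .nil))) (.nd (nat_lit 6) 
(.lf (nat_lit 189730) (.g (nat_lit 4749) (.e (nat_lit 65571) (nat_lit 3) (.e (nat_lit 98373) (nat_lit 29) (.e (nat_lit 450587) (nat_lit 10) (.e (nat_lit 573443) (nat_lit 0) .nil)))) .nil)) 
(.lf (nat_lit 189794) (.g (nat_lit 2310) (.e (nat_lit 65571) (nat_lit 3) (.e (nat_lit 98373) (nat_lit 29) (.e (nat_lit 450588) (nat_lit 10) (.e (nat_lit 573474) (nat_lit 12) (.e (nat_lit 57572) (nat_lit 54) .nil))))) .nil)))) (.nd (nat_lit 5) (.nd (nat_lit 6) 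
(.lf (nat_lit 189714) (.g (nat_lit 3164) (.e (nat_lit 65571) (nat_lit 3) (.e (nat_lit 98372) (nat_lit 29) (.e (nat_lit 450588) (nat_lit 10) (.e (nat_lit 573503) (nat_lit 18) (.e (nat_lit 1014) (nat_lit 81) .nil))))) .nil)) 
(.lf (nat_lit 189778) (.g (nat_lit 3752) (.e (nat_lit 65571) (nat_lit 3) (.e (nat_lit 98373) (nat_lit 29) (.e (nat_lit 450588) (nat_lit 10) (.e (nat_lit 573473) (nat_lit 12) (.e (nat_lit 57348) (nat_lit 0) (.e (nat_lit 7236) (nat_lit 382) (.e (nat_lit 1188) (nat_lit 88) .nil))))))) (.g (nat_lit 4) .nil .nil)))) (.nd (nat_lit 6) 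
(.lf (nat_lit 189746) (.g (nat_lit 1622) (.e (nat_lit 65571) (nat_lit 3) (.e (nat_lit 98373) (nat_lit 29) (.e (nat_lit 450587) (nat_lit 10) (.e (nat_lit 573478) (nat_lit 12) (.e (nat_lit 57344) (nat_lit 0) .nil))))) .nil)) 
(.lf (nat_lit 189810) (.g (nat_lit 3926) (.e (nat_lit 65571) (nat_lit 3) (.e (nat_lit 98373) (nat_lit 29) (.e (nat_lit 450588) (nat_lit 10) (.e (nat_lit 573475) (nat_lit 12) (.e (nat_lit 57347) (nat_lit 0) (.e (nat_lit 7125) (nat_lit 382) (.e (nat_lit 1192) (nat_lit 88) .nil))))))) (.g (nat_lit 5) .nil .nil)))))) (.nd (nat_lit 4) (.nd (nat_lit 5) (.nd (nat_lit 6) 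
(.lf (nat_lit 189706) (.g (nat_lit 4925) (.e (nat_lit 65571) (nat_lit 3) (.e (nat_lit 98372) (nat_lit 29) (.e (nat_lit 450588) (nat_lit 10) (.e (nat_lit 573475) (nat_lit 12) (.e (nat_lit 57348) (nat_lit 0) (.e (nat_lit 7124) (nat_lit 382) (.e (nat_lit 1201) (nat_lit 88) .nil))))))) (.g (nat_lit 4) .nil .nil))) 
(.lf (nat_lit 189770) (.g (nat_lit 4006) (.e (nat_lit 65571) (nat_lit 3) (.e (nat_lit 98373) (nat_lit 29) (.e (nat_lit 450588) (nat_lit 10) (.e (nat_lit 573473) (nat_lit 12) (.e (nat_lit 57347) (nat_lit 0) (.e (nat_lit 7124) (nat_lit 382) (.e (nat_lit 1201) (nat_lit 88) .nil))))))) (.g (nat_lit 5) .nil .nil)))) (.nd (nat_lit 6) 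
(.lf (nat_lit 189738) (.g (nat_lit 4512) (.e (nat_lit 65571) (nat_lit 3) (.e (nat_lit 98373) (nat_lit 29) (.e (nat_lit 450587) (nat_lit 10) (.e (nat_lit 573474) (nat_lit 12) .nil)))) .nil)) 
(.lf (nat_lit 189802) (.g (nat_lit 3580) (.e (nat_lit 65571) (nat_lit 3) (.e (nat_lit 98373) (nat_lit 29) (.e (nat_lit 450588) (nat_lit 10) (.e (nat_lit 573475) (nat_lit 12) (.e (nat_lit 57346) (nat_lit 0) (.e (nat_lit 7136) (nat_lit 382) (.e (nat_lit 1198) (nat_lit 88) .nil))))))) (.g (nat_lit 4) .nil .nil))))) (.nd (nat_lit 5) (.nd (nat_lit 6) 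
(.lf (nat_lit 189722) (.g (nat_lit 743) (.e (nat_lit 65571) (nat_lit 3) (.e (nat_lit 98373) (nat_lit 29) (.e (nat_lit 450577) (nat_lit 4) .nil))) .nil)) 
(.lf (nat_lit 189786) (.g (nat_lit 3383) (.e (nat_lit 65571) (nat_lit 3) (.e (nat_lit 98373) (nat_lit 29) (.e (nat_lit 450588) (nat_lit 10) (.e (nat_lit 573473) (nat_lit 12) (.e (nat_lit 57353) (nat_lit 0) (.e (nat_lit 7236) (nat_lit 382) (.e (nat_lit 1199) (nat_lit 88) .nil))))))) (.g (nat_lit 4) .nil .nil)))) (.nd (nat_lit 6) 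
(.lf (nat_lit 189754) (.g (nat_lit 2003) (.e (nat_lit 65571) (nat_lit 3) (.e (nat_lit 98373) (nat_lit 29) (.e (nat_lit 450588) (nat_lit 10) (.e (nat_lit 581376) (nat_lit 3) .nil)))) .nil)) 
(.lf (nat_lit 189818) (.g (nat_lit 3546) (.e (nat_lit 65571) (nat_lit 3) (.e (nat_lit 98373) (nat_lit 29) (.e (nat_lit 450588) (nat_lit 10) (.e (nat_lit 573475) (nat_lit 12) (.e (nat_lit 57348) (nat_lit 0) (.e (nat_lit 7236) (nat_lit 382) (.e (nat_lit 1188) (nat_lit 88) .nil))))))) (.g (nat_lit 4) .nil .nil))))))) (.nd (nat_lit 3) (.nd (nat_lit 4) (.nd (nat_lit 5) (.nd (nat_lit 6) 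
(.lf (nat_lit 189702) (.g (nat_lit 5483) (.e (nat_lit 65571) (nat_lit 3) (.e (nat_lit 98372) (nat_lit 29) (.e (nat_lit 450588) (nat_lit 10) (.e (nat_lit 573475) (nat_lit 12) (.e (nat_lit 57347) (nat_lit 0) (.e (nat_lit 7124) (nat_lit 382) (.e (nat_lit 1201) (nat_lit 88) .nil))))))) (.g (nat_lit 5) .nil .nil))) 
(.lf (nat_lit 189766) (.g (nat_lit 3134) (.e (nat_lit 65571) (nat_lit 3) (.e (nat_lit 98373) (nat_lit 29) (.e (nat_lit 450588) (nat_lit 10) (.e (nat_lit 573472) (nat_lit 12) .nil)))) .nil))) (.nd (nat_lit 6) 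
(.lf (nat_lit 189734) (.g (nat_lit 2576) (.e (nat_lit 65571) (nat_lit 3) (.e (nat_lit 98373) (nat_lit 29) (.e (nat_lit 450587) (nat_lit 10) (.e (nat_lit 573472) (nat_lit 12) .nil)))) .nil)) 
(.lf (nat_lit 189798) (.g (nat_lit 2547) (.e (nat_lit 65571) (nat_lit 3) (.e (nat_lit 98373) (nat_lit 29) (.e (nat_lit 450588) (nat_lit 10) (.e (nat_lit 573475) (nat_lit 12) (.e (nat_lit 57344) (nat_lit 0) (.e (nat_lit 7147) (nat_lit 382) (.e (nat_lit 1203) (nat_lit 88) .nil))))))) (.g (nat_lit 4) .nil .nil))))) (.nd (nat_lit 5) (.nd (nat_lit 6) 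
(.lf (nat_lit 189718) (.g (nat_lit 780) (.e (nat_lit 65571) (nat_lit 3) (.e (nat_lit 98373) (nat_lit 29) (.e (nat_lit 450575) (nat_lit 1) .nil))) .nil)) 
(.lf (nat_lit 189782) (.g (nat_lit 3227) (.e (nat_lit 65571) (nat_lit 3) (.e (nat_lit 98373) (nat_lit 29) (.e (nat_lit 450588) (nat_lit 10) (.e (nat_lit 573473) (nat_lit 12) (.e (nat_lit 57352) (nat_lit 0) (.e (nat_lit 7122) (nat_lit 382) (.e (nat_lit 1191) (nat_lit 88) .nil))))))) (.g (nat_lit 4) .nil .nil)))) (.nd (nat_lit 6) 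
(.lf (nat_lit 189750) (.g (nat_lit 2925) (.e (nat_lit 65571) (nat_lit 3) (.e (nat_lit 98373) (nat_lit 29) (.e (nat_lit 450587) (nat_lit 10) (.e (nat_lit 573478) (nat_lit 12) (.e (nat_lit 57570) (nat_lit 54) (.e (nat_lit 770070) (nat_lit 8) .nil)))))) (.g (nat_lit 5) .nil .nil))) 
(.lf (nat_lit 189814) (.g (nat_lit 2845) (.e (nat_lit 65571) (nat_lit 3) (.e (nat_lit 98373) (nat_lit 29) (.e (nat_lit 450588) (nat_lit 10) (.e (nat_lit 573475) (nat_lit 12) (.e (nat_lit 57348) (nat_lit 0) (.e (nat_lit 7119) (nat_lit 382) (.e (nat_lit 1191) (nat_lit 88) .nil))))))) (.g (nat_lit 4) .nil .nil)))))) (.nd (nat_lit 4) (.nd (nat_lit 5) (.nd (nat_lit 6) 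
(.lf (nat_lit 189710) (.g (nat_lit 4527) (.e (nat_lit 65571) (nat_lit 3) (.e (nat_lit 98372) (nat_lit 29) (.e (nat_lit 450588) (nat_lit 10) (.e (nat_lit 573475) (nat_lit 12) (.e (nat_lit 57353) (nat_lit 0) (.e (nat_lit 7125) (nat_lit 382) (.e (nat_lit 1201) (nat_lit 88) .nil))))))) (.g (nat_lit 4) .nil .nil))) 
(.lf (nat_lit 189774) (.g (nat_lit 3156) (.e (nat_lit 65571) (nat_lit 3) (.e (nat_lit 98373) (nat_lit 29) (.e (nat_lit 450588) (nat_lit 10) (.e (nat_lit 573473) (nat_lit 12) (.e (nat_lit 57348) (nat_lit 0) (.e (nat_lit 7119) (nat_lit 382) (.e (nat_lit 1192) (nat_lit 88) .nil))))))) (.g (nat_lit 4) .nil .nil)))) (.nd (nat_lit 6) 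
(.lf (nat_lit 189742) (.g (nat_lit 1675) (.e (nat_lit 65571) (nat_lit 3) (.e (nat_lit 98373) (nat_lit 29) (.e (nat_lit 450587) (nat_lit 10) (.e (nat_lit 573477) (nat_lit 12) (.e (nat_lit 57352) (nat_lit 0) .nil))))) .nil)) 
(.lf (nat_lit 189806) (.g (nat_lit 3173) (.e (nat_lit 65571) (nat_lit 3) (.e (nat_lit 98373) (nat_lit 29) (.e (nat_lit 450588) (nat_lit 10) (.e (nat_lit 573475) (nat_lit 12) (.e (nat_lit 57347) (nat_lit 0) (.e (nat_lit 7122) (nat_lit 382) (.e (nat_lit 1191) (nat_lit 88) .nil))))))) (.g (nat_lit 4) .nil .nil))))) (.nd (nat_lit 5) (.nd (nat_lit 6) 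
(.lf (nat_lit 189726) (.g (nat_lit 1693) (.e (nat_lit 65571) (nat_lit 3) (.e (nat_lit 98373) (nat_lit 29) (.e (nat_lit 450579) (nat_lit 5) (.e (nat_lit 532504) (nat_lit 1) .nil)))) .nil)) 
(.lf (nat_lit 189790) (.g (nat_lit 2989) (.e (nat_lit 65571) (nat_lit 3) (.e (nat_lit 98373) (nat_lit 29) (.e (nat_lit 450588) (nat_lit 10) (.e (nat_lit 573473) (nat_lit 12) (.e (nat_lit 57569) (nat_lit 53) (.e (nat_lit 769792) (nat_lit 8) .nil)))))) (.g (nat_lit 5) .nil .nil)))) (.nd (nat_lit 6) 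
(.lf (nat_lit 189758) (.g (nat_lit 2789) (.e (nat_lit 65571) (nat_lit 3) (.e (nat_lit 98373) (nat_lit 29) (.e (nat_lit 450588) (nat_lit 10) (.e (nat_lit 573452) (nat_lit 9) .nil)))) .nil)) 
(.lf (nat_lit 189822) (.g (nat_lit 3199) (.e (nat_lit 65571) (nat_lit 3) (.e (nat_lit 98373) (nat_lit 29) (.e (nat_lit 450588) (nat_lit 10) (.e (nat_lit 573475) (nat_lit 12) (.e (nat_lit 57353) (nat_lit 0) (.e (nat_lit 7122) (nat_lit 382) (.e (nat_lit 1201) (nat_lit 88) .nil))))))) (.g (nat_lit 4) .nil .nil))))))))) 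
(.nd (nat_lit 1) (.nd (nat_lit 2) (.nd (nat_lit 3) (.nd (nat_lit 4) (.nd (nat_lit 5) 
(.nd (nat_lit 6) 
(.lf (nat_lit 189697) (.g (nat_lit 2014) (.e (nat_lit 65571) (nat_lit 3) (.e (nat_lit 98372) (nat_lit 29) (.e (nat_lit 450588) (nat_lit 10) (.e (nat_lit 573475) (nat_lit 12) .nil)))) .nil)) 
(.lf (nat_lit 189761) (.g (nat_lit 2163) (.e (nat_lit 65571) (nat_lit 3) (.e (nat_lit 98373) (nat_lit 29) (.e (nat_lit 450588) (nat_lit 10) (.e (nat_lit 573468) (nat_lit 10) (.e (nat_lit 8192) (nat_lit 0) .nil))))) .nil))) (.nd (nat_lit 6) 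
(.lf (nat_lit 189729) (.g (nat_lit 1036) (.e (nat_lit 65571) (nat_lit 3) (.e (nat_lit 98373) (nat_lit 29) (.e (nat_lit 450586) (nat_lit 10) (.e (nat_lit 573475) (nat_lit 12) .nil)))) .nil)) 
(.lf (nat_lit 189793) (.g (nat_lit 2953) (.e (nat_lit 65571) (nat_lit 3) (.e (nat_lit 98373) (nat_lit 29) (.e (nat_lit 450588) (nat_lit 10) (.e (nat_lit 573473) (nat_lit 12) (.e (nat_lit 57572) (nat_lit 54) (.e (nat_lit 770070) (nat_lit 8) .nil)))))) (.g (nat_lit 4) .nil .nil))))) (.nd (nat_lit 5) (.nd (nat_lit 6) 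
(.lf (nat_lit 189713) (.g (nat_lit 5199) (.e (nat_lit 65571) (nat_lit 3) (.e (nat_lit 98372) (nat_lit 29) (.e (nat_lit 450588) (nat_lit 10) (.e (nat_lit 573475) (nat_lit 12) (.e (nat_lit 57572) (nat_lit 54) (.e (nat_lit 770071) (nat_lit 8) .nil)))))) (.g (nat_lit 5) .nil .nil))) 
(.lf (nat_lit 189777) (.g (nat_lit 3083) (.e (nat_lit 65571) (nat_lit 3) (.e (nat_lit 98373) (nat_lit 29) (.e (nat_lit 450588) (nat_lit 10) (.e (nat_lit 573473) (nat_lit 12) (.e (nat_lit 57348) (nat_lit 0) (.e (nat_lit 7125) (nat_lit 382) (.e (nat_lit 1192) (nat_lit 88) .nil))))))) (.g (nat_lit 4) .nil .nil)))) (.nd (nat_lit 6) 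
(.lf (nat_lit 189745) (.g (nat_lit 1345) (.e (nat_lit 65571) (nat_lit 3) (.e (nat_lit 98373) (nat_lit 29) (.e (nat_lit 450587) (nat_lit 10) (.e (nat_lit 573478) (nat_lit 12) .nil)))) .nil)) 
(.lf (nat_lit 189809) (.g (nat_lit 3956) (.e (nat_lit 65571) (nat_lit 3) (.e (nat_lit 98373) (nat_lit 29) (.e (nat_lit 450588) (nat_lit 10) (.e (nat_lit 573475) (nat_lit 12) (.e (nat_lit 57347) (nat_lit 0) (.e (nat_lit 7125) (nat_lit 382) (.e (nat_lit 1191) (nat_lit 88) .nil))))))) (.g (nat_lit 5) .nil .nil)))))) (.nd (nat_lit 4) (.nd (nat_lit 5) (.nd (nat_lit 6) 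
(.lf (nat_lit 189705) (.g (nat_lit 4279) (.e (nat_lit 65571) (nat_lit 3) (.e (nat_lit 98372) (nat_lit 29) (.e (nat_lit 450588) (nat_lit 10) (.e (nat_lit 573475) (nat_lit 12) (.e (nat_lit 57348) (nat_lit 0) (.e (nat_lit 7122) (nat_lit 382) (.e (nat_lit 1201) (nat_lit 88) .nil))))))) (.g (nat_lit 4) .nil .nil))) 
(.lf (nat_lit 189769) (.g (nat_lit 2545) (.e (nat_lit 65571) (nat_lit 3) (.e (nat_lit 98373) (nat_lit 29) (.e (nat_lit 450588) (nat_lit 10) (.e (nat_lit 573473) (nat_lit 12) (.e (nat_lit 57346) (nat_lit 0) .nil))))) .nil))) (.nd (nat_lit 6) 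
(.lf (nat_lit 189737) (.g (nat_lit 4512) (.e (nat_lit 65571) (nat_lit 3) (.e (nat_lit 98373) (nat_lit 29) (.e (nat_lit 450587) (nat_lit 10) (.e (nat_lit 573473) (nat_lit 12) (.e (nat_lit 57572) (nat_lit 54) .nil))))) .nil)) 
(.lf (nat_lit 189801) (.g (nat_lit 2621) (.e (nat_lit 65571) (nat_lit 3) (.e (nat_lit 98373) (nat_lit 29) (.e (nat_lit 450588) (nat_lit 10) (.e (nat_lit 573475) (nat_lit 12) (.e (nat_lit 57346) (nat_lit 0) .nil))))) .nil)))) (.nd (nat_lit 5) (.nd (nat_lit 6) 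
(.lf (nat_lit 189721) (.g (nat_lit 2199) (.e (nat_lit 65571) (nat_lit 3) (.e (nat_lit 98373) (nat_lit 29) (.e (nat_lit 458496) (nat_lit 3) (.e (nat_lit 516115) (nat_lit 1) (.e (nat_lit 164311) (nat_lit 226) (.e (nat_lit 1194) (nat_lit 88) .nil)))))) (.g (nat_lit 4) .nil .nil))) 
(.lf (nat_lit 189785) (.g (nat_lit 2941) (.e (nat_lit 65571) (nat_lit 3) (.e (nat_lit 98373) (nat_lit 29) (.e (nat_lit 450588) (nat_lit 10) (.e (nat_lit 573473) (nat_lit 12) (.e (nat_lit 57353) (nat_lit 0) (.e (nat_lit 7125) (nat_lit 382) (.e (nat_lit 1192) (nat_lit 88) .nil))))))) (.g (nat_lit 4) .nil .nil)))) (.nd (nat_lit 6) 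
(.lf (nat_lit 189753) (.g (nat_lit 5007) (.e (nat_lit 65571) (nat_lit 3) (.e (nat_lit 98373) (nat_lit 29) (.e (nat_lit 450587) (nat_lit 10) (.e (nat_lit 573503) (nat_lit 18) .nil)))) .nil)) 
(.lf (nat_lit 189817) (.g (nat_lit 2972) (.e (nat_lit 65571) (nat_lit 3) (.e (nat_lit 98373) (nat_lit 29) (.e (nat_lit 450588) (nat_lit 10) (.e (nat_lit 573475) (nat_lit 12) (.e (nat_lit 57348) (nat_lit 0) (.e (nat_lit 7125) (nat_lit 382) (.e (nat_lit 1192) (nat_lit 88) .nil))))))) (.g (nat_lit 4) .nil .nil))))))) (.nd (nat_lit 3) (.nd (nat_lit 4) (.nd (nat_lit 5) (.nd (nat_lit 6) 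
(.lf (nat_lit 189701) (.g (nat_lit 3463) (.e (nat_lit 65571) (nat_lit 3) (.e (nat_lit 98372) (nat_lit 29) (.e (nat_lit 450588) (nat_lit 10) (.e (nat_lit 573475) (nat_lit 12) (.e (nat_lit 57347) (nat_lit 0) .nil))))) .nil)) 
(.lf (nat_lit 189765) (.g (nat_lit 2307) (.e (nat_lit 65571) (nat_lit 3) (.e (nat_lit 98373) (nat_lit 29) (.e (nat_lit 450588) (nat_lit 10) (.e (nat_lit 573468) (nat_lit 10) (.e (nat_lit 8196) (nat_lit 0) (.e (nat_lit 4491) (nat_lit 263) (.e (nat_lit 1190) (nat_lit 88) .nil))))))) (.g (nat_lit 4) .nil .nil)))) (.nd (nat_lit 6) 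
(.lf (nat_lit 189733) (.g (nat_lit 1999) (.e (nat_lit 65571) (nat_lit 3) (.e (nat_lit 98373) (nat_lit 29) (.e (nat_lit 450587) (nat_lit 10) (.e (nat_lit 573454) (nat_lit 9) (.e (nat_lit 968) (nat_lit 81) .nil))))) .nil)) 
(.lf (nat_lit 189797) (.g (nat_lit 3152) (.e (nat_lit 65571) (nat_lit 3) (.e (nat_lit 98373) (nat_lit 29) (.e (nat_lit 450588) (nat_lit 10) (.e (nat_lit 573475) (nat_lit 12) (.e (nat_lit 57344) (nat_lit 0) (.e (nat_lit 7122) (nat_lit 382) (.e (nat_lit 1201) (nat_lit 88) .nil))))))) (.g (nat_lit 4) .nil .nil))))) (.nd (nat_lit 5) (.nd (nat_lit 6) 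
(.lf (nat_lit 189717) (.g (nat_lit 1339) (.e (nat_lit 65571) (nat_lit 3) (.e (nat_lit 98373) (nat_lit 29) (.e (nat_lit 450574) (nat_lit 1) (.e (nat_lit 499846) (nat_lit 5) .nil)))) .nil)) 
(.lf (nat_lit 189781) (.g (nat_lit 2545) (.e (nat_lit 65571) (nat_lit 3) (.e (nat_lit 98373) (nat_lit 29) (.e (nat_lit 450588) (nat_lit 10) (.e (nat_lit 573473) (nat_lit 12) (.e (nat_lit 57351) (nat_lit 0) .nil))))) .nil))) (.nd (nat_lit 6) 
(.lf (nat_lit 189749) (.g (nat_lit 2146) (.e (nat_lit 65571) (nat_lit 3) (.e (nat_lit 98373) (nat_lit 29) (.e (nat_lit 450587) (nat_lit 10) (.e (nat_lit 573478) (nat_lit 12) (.e (nat_lit 57568) (nat_lit 53) (.e (nat_lit 769792) (nat_lit 8) .nil)))))) (.g (nat_lit 5) .nil .nil))) 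
(.lf (nat_lit 189813) (.g (nat_lit 3568) (.e (nat_lit 65571) (nat_lit 3) (.e (nat_lit 98373) (nat_lit 29) (.e (nat_lit 450588) (nat_lit 10) (.e (nat_lit 573475) (nat_lit 12) (.e (nat_lit 57347) (nat_lit 0) (.e (nat_lit 7236) (nat_lit 382) (.e (nat_lit 1200) (nat_lit 88) .nil))))))) (.g (nat_lit 4) .nil .nil)))))) (.nd (nat_lit 4) (.nd (nat_lit 5) (.nd (nat_lit 6) 
(.lf (nat_lit 189709) (.g (nat_lit 4180) (.e (nat_lit 65571) (nat_lit 3) (.e (nat_lit 98372) (nat_lit 29) (.e (nat_lit 450588) (nat_lit 10) (.e (nat_lit 573475) (nat_lit 12) (.e (nat_lit 57353) (nat_lit 0) (.e (nat_lit 7124) (nat_lit 382) (.e (nat_lit 1201) (nat_lit 88) .nil))))))) (.g (nat_lit 4) .nil .nil))) 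
(.lf (nat_lit 189773) (.g (nat_lit 3070) (.e (nat_lit 65571) (nat_lit 3) (.e (nat_lit 98373) (nat_lit 29) (.e (nat_lit 450588) (nat_lit 10) (.e (nat_lit 573473) (nat_lit 12) (.e (nat_lit 57348) (nat_lit 0) (.e (nat_lit 7119) (nat_lit 382) (.e (nat_lit 1191) (nat_lit 88) .nil))))))) (.g (nat_lit 4) .nil .nil)))) (.nd (nat_lit 6) 
(.lf (nat_lit 189741) (.g (nat_lit 1390) (.e (nat_lit 65571) (nat_lit 3) (.e (nat_lit 98373) (nat_lit 29) (.e (nat_lit 450587) (nat_lit 10) (.e (nat_lit 573477) (nat_lit 12) .nil)))) .nil)) 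
(.lf (nat_lit 189805) (.g (nat_lit 3301) (.e (nat_lit 65571) (nat_lit 3) (.e (nat_lit 98373) (nat_lit 29) (.e (nat_lit 450588) (nat_lit 10) (.e (nat_lit 573475) (nat_lit 12) (.e (nat_lit 57347) (nat_lit 0) (.e (nat_lit 7119) (nat_lit 382) (.e (nat_lit 1192) (nat_lit 88) .nil))))))) (.g (nat_lit 4) .nil .nil))))) (.nd (nat_lit 5) (.nd (nat_lit 6) 
(.lf (nat_lit 189725) (.g (nat_lit 1701) (.e (nat_lit 65571) (nat_lit 3) (.e (nat_lit 98373) (nat_lit 29) (.e (nat_lit 450579) (nat_lit 5) (.e (nat_lit 532501) (nat_lit 1) .nil)))) .nil)) 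
(.lf (nat_lit 189789) (.g (nat_lit 3251) (.e (nat_lit 65571) (nat_lit 3) (.e (nat_lit 98373) (nat_lit 29) (.e (nat_lit 450588) (nat_lit 10) (.e (nat_lit 573473) (nat_lit 12) (.e (nat_lit 65280) (nat_lit 0) (.e (nat_lit 7236) (nat_lit 382) (.e (nat_lit 1199) (nat_lit 88) .nil))))))) (.g (nat_lit 4) .nil .nil)))) (.nd (nat_lit 6) 
(.lf (nat_lit 189757) (.g (nat_lit 2647) (.e (nat_lit 65571) (nat_lit 3) (.e (nat_lit 98373) (nat_lit 29) (.e (nat_lit 450588) (nat_lit 10) (.e (nat_lit 573451) (nat_lit 9) .nil)))) .nil)) 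
(.lf (nat_lit 189821) (.g (nat_lit 2522) (.e (nat_lit 65571) (nat_lit 3) (.e (nat_lit 98373) (nat_lit 29) (.e (nat_lit 450588) (nat_lit 10) (.e (nat_lit 573475) (nat_lit 12) (.e (nat_lit 57353) (nat_lit 0) .nil))))) .nil))))))) (.nd (nat_lit 2) (.nd (nat_lit 3) (.nd (nat_lit 4) (.nd (nat_lit 5) (.nd (nat_lit 6) 
(.lf (nat_lit 189699) (.g (nat_lit 3737) (.e (nat_lit 65571) (nat_lit 3) (.e (nat_lit 98372) (nat_lit 29) (.e (nat_lit 450588) (nat_lit 10) (.e (nat_lit 573475) (nat_lit 12) (.e (nat_lit 57345) (nat_lit 0) .nil))))) .nil)) 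
(.lf (nat_lit 189763) (.g (nat_lit 2141) (.e (nat_lit 65571) (nat_lit 3) (.e (nat_lit 98373) (nat_lit 29) (.e (nat_lit 450588) (nat_lit 10) (.e (nat_lit 573468) (nat_lit 10) (.e (nat_lit 8194) (nat_lit 0) .nil))))) .nil))) (.nd (nat_lit 6) 
(.lf (nat_lit 189731) (.g (nat_lit 2517) (.e (nat_lit 65571) (nat_lit 3) (.e (nat_lit 98373) (nat_lit 29) (.e (nat_lit 450587) (nat_lit 10) (.e (nat_lit 581376) (nat_lit 0) .nil)))) .nil)) 
(.lf (nat_lit 189795) (.g (nat_lit 1436) (.e (nat_lit 65571) (nat_lit 3) (.e (nat_lit 98373) (nat_lit 29) (.e (nat_lit 450588) (nat_lit 10) (.e (nat_lit 573475) (nat_lit 12) .nil)))) .nil)))) (.nd (nat_lit 5) (.nd (nat_lit 6) 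
(.lf (nat_lit 189715) (.g (nat_lit 2383) (.e (nat_lit 65571) (nat_lit 3) (.e (nat_lit 98373) (nat_lit 29) (.e (nat_lit 450562) (nat_lit 0) (.e (nat_lit 4275) (nat_lit 252) .nil)))) .nil)) 
(.lf (nat_lit 189779) (.g (nat_lit 3568) (.e (nat_lit 65571) (nat_lit 3) (.e (nat_lit 98373) (nat_lit 29) (.e (nat_lit 450588) (nat_lit 10) (.e (nat_lit 573473) (nat_lit 12) (.e (nat_lit 57348) (nat_lit 0) (.e (nat_lit 7236) (nat_lit 382) (.e (nat_lit 1196) (nat_lit 88) .nil))))))) (.g (nat_lit 4) .nil .nil)))) (.nd (nat_lit 6) 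
(.lf (nat_lit 189747) (.g (nat_lit 2636) (.e (nat_lit 65571) (nat_lit 3) (.e (nat_lit 98373) (nat_lit 29) (.e (nat_lit 450587) (nat_lit 10) (.e (nat_lit 573478) (nat_lit 12) (.e (nat_lit 57351) (nat_lit 0) (.e (nat_lit 7122) (nat_lit 382) (.e (nat_lit 1191) (nat_lit 88) .nil))))))) (.g (nat_lit 4) .nil .nil))) 
(.lf (nat_lit 189811) (.g (nat_lit 3716) (.e (nat_lit 65571) (nat_lit 3) (.e (nat_lit 98373) (nat_lit 29) (.e (nat_lit 450588) (nat_lit 10) (.e (nat_lit 573475) (nat_lit 12) (.e (nat_lit 57347) (nat_lit 0) (.e (nat_lit 7236) (nat_lit 382) (.e (nat_lit 1188) (nat_lit 88) .nil))))))) (.g (nat_lit 4) .nil .nil)))))) (.nd (nat_lit 4) (.nd (nat_lit 5) (.nd (nat_lit 6) 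
(.lf (nat_lit 189707) (.g (nat_lit 4000) (.e (nat_lit 65571) (nat_lit 3) (.e (nat_lit 98372) (nat_lit 29) (.e (nat_lit 450588) (nat_lit 10) (.e (nat_lit 573475) (nat_lit 12) (.e (nat_lit 57348) (nat_lit 0) (.e (nat_lit 7236) (nat_lit 382) (.e (nat_lit 1199) (nat_lit 88) .nil))))))) (.g (nat_lit 4) .nil .nil))) 
(.lf (nat_lit 189771) (.g (nat_lit 2783) (.e (nat_lit 65571) (nat_lit 3) (.e (nat_lit 98373) (nat_lit 29) (.e (nat_lit 450588) (nat_lit 10) (.e (nat_lit 573473) (nat_lit 12) (.e (nat_lit 57347) (nat_lit 0) (.e (nat_lit 7125) (nat_lit 382) (.e (nat_lit 1191) (nat_lit 88) .nil))))))) (.g (nat_lit 4) .nil .nil)))) (.nd (nat_lit 6) 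
(.lf (nat_lit 189739) (.g (nat_lit 3218) (.e (nat_lit 65571) (nat_lit 3) (.e (nat_lit 98373) (nat_lit 29) (.e (nat_lit 450587) (nat_lit 10) (.e (nat_lit 573475) (nat_lit 12) .nil)))) .nil)) 
(.lf (nat_lit 189803) (.g (nat_lit 3976) (.e (nat_lit 65571) (nat_lit 3) (.e (nat_lit 98373) (nat_lit 29) (.e (nat_lit 450588) (nat_lit 10) (.e (nat_lit 573475) (nat_lit 12) (.e (nat_lit 57346) (nat_lit 0) (.e (nat_lit 7136) (nat_lit 382) (.e (nat_lit 1200) (nat_lit 88) .nil))))))) (.g (nat_lit 4) .nil .nil))))) (.nd (nat_lit 5) (.nd (nat_lit 6) 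
(.lf (nat_lit 189723) (.g (nat_lit 834) (.e (nat_lit 65571) (nat_lit 3) (.e (nat_lit 98373) (nat_lit 29) (.e (nat_lit 450577) (nat_lit 4) (.e (nat_lit 532224) (nat_lit 17) .nil)))) .nil)) 
(.lf (nat_lit 189787) (.g (nat_lit 3651) (.e (nat_lit 65571) (nat_lit 3) (.e (nat_lit 98373) (nat_lit 29) (.e (nat_lit 450588) (nat_lit 10) (.e (nat_lit 573473) (nat_lit 12) (.e (nat_lit 57354) (nat_lit 0) (.e (nat_lit 7147) (nat_lit 382) (.e (nat_lit 1203) (nat_lit 88) .nil))))))) (.g (nat_lit 5) .nil .nil)))) (.nd (nat_lit 6) 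
(.lf (nat_lit 189755) (.g (nat_lit 1818) (.e (nat_lit 65571) (nat_lit 3) (.e (nat_lit 98373) (nat_lit 29) (.e (nat_lit 450588) (nat_lit 10) (.e (nat_lit 573449) (nat_lit 9) .nil)))) .nil)) 
(.lf (nat_lit 189819) (.g (nat_lit 3362) (.e (nat_lit 65571) (nat_lit 3) (.e (nat_lit 98373) (nat_lit 29) (.e (nat_lit 450588) (nat_lit 10) (.e (nat_lit 573475) (nat_lit 12) (.e (nat_lit 57348) (nat_lit 0) (.e (nat_lit 7236) (nat_lit 382) (.e (nat_lit 1196) (nat_lit 88) .nil))))))) (.g (nat_lit 4) .nil .nil))))))) (.nd (nat_lit 3) (.nd (nat_lit 4) (.nd (nat_lit 5) (.nd (nat_lit 6) 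
(.lf (nat_lit 189703) (.g (nat_lit 4037) (.e (nat_lit 65571) (nat_lit 3) (.e (nat_lit 98372) (nat_lit 29) (.e (nat_lit 450588) (nat_lit 10) (.e (nat_lit 573475) (nat_lit 12) (.e (nat_lit 57347) (nat_lit 0) (.e (nat_lit 7236) (nat_lit 382) (.e (nat_lit 1199) (nat_lit 88) .nil))))))) (.g (nat_lit 4) .nil .nil))) 
(.lf (nat_lit 189767) (.g (nat_lit 1409) (.e (nat_lit 65571) (nat_lit 3) (.e (nat_lit 98373) (nat_lit 29) (.e (nat_lit 450588) (nat_lit 10) (.e (nat_lit 573473) (nat_lit 12) .nil)))) .nil))) (.nd (nat_lit 6) 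
(.lf (nat_lit 189735) (.g (nat_lit 3767) (.e (nat_lit 65571) (nat_lit 3) (.e (nat_lit 98373) (nat_lit 29) (.e (nat_lit 450587) (nat_lit 10) (.e (nat_lit 573472) (nat_lit 12) (.e (nat_lit 57570) (nat_lit 54) (.e (nat_lit 770070) (nat_lit 8) .nil)))))) (.g (nat_lit 4) .nil .nil))) 
(.lf (nat_lit 189799) (.g (nat_lit 2446) (.e (nat_lit 65571) (nat_lit 3) (.e (nat_lit 98373) (nat_lit 29) (.e (nat_lit 450588) (nat_lit 10) (.e (nat_lit 573475) (nat_lit 12) (.e (nat_lit 57345) (nat_lit 0) .nil))))) .nil)))) (.nd (nat_lit 5) (.nd (nat_lit 6) 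
(.lf (nat_lit 189719) (.g (nat_lit 245) (.e (nat_lit 65571) (nat_lit 3) (.e (nat_lit 98373) (nat_lit 29) (.e (nat_lit 458496) (nat_lit 3) .nil))) .nil)) 
(.lf (nat_lit 189783) (.g (nat_lit 2887) (.e (nat_lit 65571) (nat_lit 3) (.e (nat_lit 98373) (nat_lit 29) (.e (nat_lit 450588) (nat_lit 10) (.e (nat_lit 573473) (nat_lit 12) (.e (nat_lit 57352) (nat_lit 0) (.e (nat_lit 7236) (nat_lit 382) (.e (nat_lit 1190) (nat_lit 88) .nil))))))) (.g (nat_lit 4) .nil .nil)))) (.nd (nat_lit 6) 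
(.lf (nat_lit 189751) (.g (nat_lit 4912) (.e (nat_lit 65571) (nat_lit 3) (.e (nat_lit 98373) (nat_lit 29) (.e (nat_lit 450587) (nat_lit 10) (.e (nat_lit 573499) (nat_lit 18) .nil)))) .nil)) 
(.lf (nat_lit 189815) (.g (nat_lit 2931) (.e (nat_lit 65571) (nat_lit 3) (.e (nat_lit 98373) (nat_lit 29) (.e (nat_lit 450588) (nat_lit 10) (.e (nat_lit 573475) (nat_lit 12) (.e (nat_lit 57348) (nat_lit 0) (.e (nat_lit 7119) (nat_lit 382) (.e (nat_lit 1192) (nat_lit 88) .nil))))))) (.g (nat_lit 4) .nil .nil)))))) (.nd (nat_lit 4) (.nd (nat_lit 5) (.nd (nat_lit 6) 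
(.lf (nat_lit 189711) (.g (nat_lit 4126) (.e (nat_lit 65571) (nat_lit 3) (.e (nat_lit 98372) (nat_lit 29) (.e (nat_lit 450588) (nat_lit 10) (.e (nat_lit 573475) (nat_lit 12) (.e (nat_lit 57354) (nat_lit 0) (.e (nat_lit 7147) (nat_lit 382) (.e (nat_lit 1203) (nat_lit 88) .nil))))))) (.g (nat_lit 4) .nil .nil))) 
(.lf (nat_lit 189775) (.g (nat_lit 2847) (.e (nat_lit 65571) (nat_lit 3) (.e (nat_lit 98373) (nat_lit 29) (.e (nat_lit 450588) (nat_lit 10) (.e (nat_lit 573473) (nat_lit 12) (.e (nat_lit 57348) (nat_lit 0) (.e (nat_lit 7122) (nat_lit 382) (.e (nat_lit 1191) (nat_lit 88) .nil))))))) (.g (nat_lit 4) .nil .nil)))) (.nd (nat_lit 6) 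
(.lf (nat_lit 189743) (.g (nat_lit 2709) (.e (nat_lit 65571) (nat_lit 3) (.e (nat_lit 98373) (nat_lit 29) (.e (nat_lit 450587) (nat_lit 10) (.e (nat_lit 573477) (nat_lit 12) (.e (nat_lit 57352) (nat_lit 0) (.e (nat_lit 7122) (nat_lit 382) (.e (nat_lit 1191) (nat_lit 88) .nil))))))) (.g (nat_lit 4) .nil .nil))) 
(.lf (nat_lit 189807) (.g (nat_lit 3053) (.e (nat_lit 65571) (nat_lit 3) (.e (nat_lit 98373) (nat_lit 29) (.e (nat_lit 450588) (nat_lit 10) (.e (nat_lit 573475) (nat_lit 12) (.e (nat_lit 57347) (nat_lit 0) (.e (nat_lit 7124) (nat_lit 382) (.e (nat_lit 1191) (nat_lit 88) .nil))))))) (.g (nat_lit 4) .nil .nil))))) (.nd (nat_lit 5) (.nd (nat_lit 6) 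
(.lf (nat_lit 189727) (.g (nat_lit 2886) (.e (nat_lit 65571) (nat_lit 3) (.e (nat_lit 98373) (nat_lit 29) (.e (nat_lit 450585) (nat_lit 10) (.e (nat_lit 573474) (nat_lit 12) (.e (nat_lit 57572) (nat_lit 54) (.e (nat_lit 770070) (nat_lit 8) .nil)))))) (.g (nat_lit 4) .nil .nil))) 
(.lf (nat_lit 189791) (.g (nat_lit 2545) (.e (nat_lit 65571) (nat_lit 3) (.e (nat_lit 98373) (nat_lit 29) (.e (nat_lit 450588) (nat_lit 10) (.e (nat_lit 573473) (nat_lit 12) (.e (nat_lit 57570) (nat_lit 54) .nil))))) .nil))) (.nd (nat_lit 6) 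
(.lf (nat_lit 189759) (.g (nat_lit 2701) (.e (nat_lit 65571) (nat_lit 3) (.e (nat_lit 98373) (nat_lit 29) (.e (nat_lit 450588) (nat_lit 10) (.e (nat_lit 573467) (nat_lit 10) .nil)))) .nil)) 
(.lf (nat_lit 189823) (.g (nat_lit 4389) (.e (nat_lit 65571) (nat_lit 3) (.e (nat_lit 98373) (nat_lit 29) (.e (nat_lit 450588) (nat_lit 10) (.e (nat_lit 573475) (nat_lit 12) (.e (nat_lit 57354) (nat_lit 0) (.e (nat_lit 7147) (nat_lit 382) (.e (nat_lit 1203) (nat_lit 88) .nil))))))) (.g (nat_lit 6) .nil .nil))))))))))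

noncomputable def tv2513 : DT := (.nd (nat_lit 0) (.nd (nat_lit 1) (.nd (nat_lit 2) (.nd (nat_lit 3) (.nd (nat_lit 4) (.nd (nat_lit 5) 
(.lf (nat_lit 189824) (.g (nat_lit 3136) (.e (nat_lit 65571) (nat_lit 3) (.e (nat_lit 98373) (nat_lit 29) (.e (nat_lit 450588) (nat_lit 10) (.e (nat_lit 573475) (nat_lit 12) (.e (nat_lit 57356) (nat_lit 0) (.e (nat_lit 7147) (nat_lit 382) (.e (nat_lit 1203) (nat_lit 88) .nil))))))) (.g (nat_lit 4) .nil .nil))) 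
(.lf (nat_lit 189856) (.g (nat_lit 3734) (.e (nat_lit 65571) (nat_lit 3) (.e (nat_lit 98389) (nat_lit 33) (.e (nat_lit 491558) (nat_lit 10) (.e (nat_lit 344117) (nat_lit 21) (.e (nat_lit 516097) (nat_lit 0) (.e (nat_lit 7585) (nat_lit 406) .nil)))))) (.g (nat_lit 5) .nil .nil)))) (.nd (nat_lit 5) 
(.lf (nat_lit 189840) (.g (nat_lit 888) (.e (nat_lit 65571) (nat_lit 3) (.e (nat_lit 98380) (nat_lit 31) (.e (nat_lit 466947) (nat_lit 0) (.e (nat_lit 1823) (nat_lit 122) .nil)))) .nil)) 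
(.lf (nat_lit 189872) (.g (nat_lit 2513) (.e (nat_lit 65571) (nat_lit 3) (.e (nat_lit 98389) (nat_lit 33) (.e (nat_lit 491560) (nat_lit 10) (.e (nat_lit 344118) (nat_lit 21) (.e (nat_lit 516106) (nat_lit 0) (.e (nat_lit 7936) (nat_lit 406) .nil)))))) (.g (nat_lit 5) .nil .nil))))) (.nd (nat_lit 4) (.nd (nat_lit 5) 
(.lf (nat_lit 189832) (.g (nat_lit 2560) (.e (nat_lit 65571) (nat_lit 3) (.e (nat_lit 98373) (nat_lit 29) (.e (nat_lit 450588) (nat_lit 10) (.e (nat_lit 573478) (nat_lit 12) .nil)))) .nil)) 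
(.lf (nat_lit 189864) (.g (nat_lit 2667) (.e (nat_lit 65571) (nat_lit 3) (.e (nat_lit 98389) (nat_lit 33) (.e (nat_lit 491560) (nat_lit 10) (.e (nat_lit 344115) (nat_lit 20) (.e (nat_lit 507907) (nat_lit 0) (.e (nat_lit 5402) (nat_lit 302) .nil)))))) (.g (nat_lit 4) .nil .nil)))) (.nd (nat_lit 5) 
(.lf (nat_lit 189848) (.g (nat_lit 3699) (.e (nat_lit 65571) (nat_lit 3) (.e (nat_lit 98388) (nat_lit 33) (.e (nat_lit 491560) (nat_lit 10) (.e (nat_lit 344117) (nat_lit 21) (.e (nat_lit 516106) (nat_lit 0) (.e (nat_lit 7936) (nat_lit 406) .nil)))))) (.g (nat_lit 5) .nil .nil))) 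
(.lf (nat_lit 189880) (.g (nat_lit 5165) (.e (nat_lit 65572) (nat_lit 4) (.e (nat_lit 123182) (nat_lit 264) (.e (nat_lit 1183) (nat_lit 87) (.e (nat_lit 57478) (nat_lit 28) (.e (nat_lit 557101) (nat_lit 13) (.e (nat_lit 172097) (nat_lit 9) (.e (nat_lit 426125) (nat_lit 2) (.e (nat_lit 196666) (nat_lit 13) .nil)))))))) (.g (nat_lit 8) .nil .nil)))))) 
(.nd (nat_lit 3) (.nd (nat_lit 4) (.nd (nat_lit 5) 
(.lf (nat_lit 189828) (.g (nat_lit 3525) (.e (nat_lit 65571) (nat_lit 3) (.e (nat_lit 98373) (nat_lit 29) (.e (nat_lit 450588) (nat_lit 10) (.e (nat_lit 573475) (nat_lit 12) (.e (nat_lit 57570) (nat_lit 54) (.e (nat_lit 770070) (nat_lit 8) .nil)))))) (.g (nat_lit 5) .nil .nil))) 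
(.lf (nat_lit 189860) (.g (nat_lit 2842) (.e (nat_lit 65571) (nat_lit 3) (.e (nat_lit 98389) (nat_lit 33) (.e (nat_lit 491560) (nat_lit 10) (.e (nat_lit 344105) (nat_lit 19) (.e (nat_lit 499910) (nat_lit 8) (.e (nat_lit 171776) (nat_lit 191) .nil)))))) (.g (nat_lit 5) .nil .nil)))) (.nd (nat_lit 5) 
(.lf (nat_lit 189844) (.g (nat_lit 3398) (.e (nat_lit 65571) (nat_lit 3) (.e (nat_lit 98387) (nat_lit 33) (.e (nat_lit 491566) (nat_lit 12) (.e (nat_lit 385068) (nat_lit 26) (.e (nat_lit 532486) (nat_lit 0) (.e (nat_lit 2012) (nat_lit 139) (.e (nat_lit 679961) (nat_lit 9) .nil))))))) (.g (nat_lit 4) .nil .nil))) 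
(.lf (nat_lit 189876) (.g (nat_lit 3454) (.e (nat_lit 73472) (nat_lit 3) (.e (nat_lit 98373) (nat_lit 29) (.e (nat_lit 450588) (nat_lit 10) (.e (nat_lit 573474) (nat_lit 12) .nil)))) .nil)))) (.nd (nat_lit 4) (.nd (nat_lit 5) 
(.lf (nat_lit 189836) (.g (nat_lit 3318) (.e (nat_lit 65571) (nat_lit 3) (.e (nat_lit 98373) (nat_lit 29) (.e (nat_lit 450588) (nat_lit 10) (.e (nat_lit 573503) (nat_lit 18) (.e (nat_lit 988) (nat_lit 81) .nil))))) .nil)) 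
(.lf (nat_lit 189868) (.g (nat_lit 3740) (.e (nat_lit 65571) (nat_lit 3) (.e (nat_lit 98389) (nat_lit 33) (.e (nat_lit 491560) (nat_lit 10) (.e (nat_lit 344117) (nat_lit 21) (.e (nat_lit 516097) (nat_lit 0) (.e (nat_lit 7585) (nat_lit 406) .nil)))))) (.g (nat_lit 5) .nil .nil)))) (.nd (nat_lit 5) 
(.lf (nat_lit 189852) (.g (nat_lit 1883) (.e (nat_lit 65571) (nat_lit 3) (.e (nat_lit 98389) (nat_lit 33) (.e (nat_lit 491558) (nat_lit 10) (.e (nat_lit 344107) (nat_lit 19) (.e (nat_lit 499825) (nat_lit 5) .nil))))) .nil)) 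
(.lf (nat_lit 189884) (.g (nat_lit 984) (.e (nat_lit 65572) (nat_lit 4) (.e (nat_lit 123184) (nat_lit 264) (.e (nat_lit 1201) (nat_lit 88) (.e (nat_lit 65630) (nat_lit 14) .nil)))) .nil)))))) (.nd (nat_lit 2) (.nd (nat_lit 3) (.nd (nat_lit 4) (.nd (nat_lit 5) 
(.lf (nat_lit 189826) (.g (nat_lit 2735) (.e (nat_lit 65571) (nat_lit 3) (.e (nat_lit 98373) (nat_lit 29) (.e (nat_lit 450588) (nat_lit 10) (.e (nat_lit 573475) (nat_lit 12) (.e (nat_lit 57568) (nat_lit 53) (.e (nat_lit 769792) (nat_lit 8) .nil)))))) (.g (nat_lit 5) .nil .nil))) 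
(.lf (nat_lit 189858) (.g (nat_lit 1224) (.e (nat_lit 65571) (nat_lit 3) (.e (nat_lit 98389) (nat_lit 33) (.e (nat_lit 491558) (nat_lit 10) (.e (nat_lit 344119) (nat_lit 21) .nil)))) .nil))) (.nd (nat_lit 5) 
(.lf (nat_lit 189842) (.g (nat_lit 1971) (.e (nat_lit 65571) (nat_lit 3) (.e (nat_lit 98381) (nat_lit 31) (.e (nat_lit 466977) (nat_lit 22) (.e (nat_lit 196649) (nat_lit 10) (.e (nat_lit 8249) (nat_lit 34) .nil))))) .nil)) 
(.lf (nat_lit 189874) (.g (nat_lit 2865) (.e (nat_lit 65571) (nat_lit 3) (.e (nat_lit 98389) (nat_lit 33) (.e (nat_lit 491560) (nat_lit 10) (.e (nat_lit 344129) (nat_lit 26) (.e (nat_lit 557090) (nat_lit 12) .nil))))) .nil)))) (.nd (nat_lit 4) (.nd (nat_lit 5) 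
(.lf (nat_lit 189834) (.g (nat_lit 1942) (.e (nat_lit 65571) (nat_lit 3) (.e (nat_lit 98373) (nat_lit 29) (.e (nat_lit 450588) (nat_lit 10) (.e (nat_lit 573503) (nat_lit 18) .nil)))) .nil)) 
(.lf (nat_lit 189866) (.g (nat_lit 1678) (.e (nat_lit 65571) (nat_lit 3) (.e (nat_lit 98389) (nat_lit 33) (.e (nat_lit 491560) (nat_lit 10) (.e (nat_lit 344116) (nat_lit 21) .nil)))) .nil))) (.nd (nat_lit 5) 
(.lf (nat_lit 189850) (.g (nat_lit 3324) (.e (nat_lit 65571) (nat_lit 3) (.e (nat_lit 98389) (nat_lit 33) (.e (nat_lit 491546) (nat_lit 9) (.e (nat_lit 336013) (nat_lit 2) (.e (nat_lit 90165) (nat_lit 12) (.e (nat_lit 171776) (nat_lit 191) .nil)))))) (.g (nat_lit 5) .nil .nil))) 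
(.lf (nat_lit 189882) (.g (nat_lit 5003) (.e (nat_lit 65572) (nat_lit 4) (.e (nat_lit 123182) (nat_lit 264) (.e (nat_lit 1183) (nat_lit 87) (.e (nat_lit 57478) (nat_lit 28) (.e (nat_lit 557109) (nat_lit 15) (.e (nat_lit 188449) (nat_lit 22) (.e (nat_lit 196666) (nat_lit 13) .nil))))))) (.g (nat_lit 7) .nil .nil)))))) (.nd (nat_lit 3) (.nd (nat_lit 4) (.nd (nat_lit 5) 
(.lf (nat_lit 189830) (.g (nat_lit 3170) (.e (nat_lit 65571) (nat_lit 3) (.e (nat_lit 98373) (nat_lit 29) (.e (nat_lit 450588) (nat_lit 10) (.e (nat_lit 573475) (nat_lit 12) (.e (nat_lit 57572) (nat_lit 54) (.e (nat_lit 770070) (nat_lit 8) .nil)))))) (.g (nat_lit 4) .nil .nil))) 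
(.lf (nat_lit 189862) (.g (nat_lit 2528) (.e (nat_lit 65571) (nat_lit 3) (.e (nat_lit 98389) (nat_lit 33) (.e (nat_lit 491560) (nat_lit 10) (.e (nat_lit 344109) (nat_lit 19) (.e (nat_lit 499910) (nat_lit 8) (.e (nat_lit 171776) (nat_lit 191) .nil)))))) (.g (nat_lit 5) .nil .nil)))) (.nd (nat_lit 5) 
(.lf (nat_lit 189846) (.g (nat_lit 1527) (.e (nat_lit 65571) (nat_lit 3) (.e (nat_lit 98388) (nat_lit 33) (.e (nat_lit 491560) (nat_lit 10) (.e (nat_lit 344115) (nat_lit 20) .nil)))) .nil)) 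
(.lf (nat_lit 189878) (.g (nat_lit 3541) (.e (nat_lit 65572) (nat_lit 4) (.e (nat_lit 123182) (nat_lit 264) (.e (nat_lit 1175) (nat_lit 87) (.e (nat_lit 57476) (nat_lit 28) (.e (nat_lit 557107) (nat_lit 15) (.e (nat_lit 188447) (nat_lit 22) (.e (nat_lit 196666) (nat_lit 13) .nil))))))) (.g (nat_lit 7) .nil .nil))))) (.nd (nat_lit 4) (.nd (nat_lit 5) 
(.lf (nat_lit 189838) (.g (nat_lit 2003) (.e (nat_lit 65571) (nat_lit 3) (.e (nat_lit 98373) (nat_lit 29) (.e (nat_lit 450588) (nat_lit 10) (.e (nat_lit 581376) (nat_lit 18) .nil)))) .nil)) 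
(.lf (nat_lit 189870) (.g (nat_lit 3832) (.e (nat_lit 65571) (nat_lit 3) (.e (nat_lit 98389) (nat_lit 33) (.e (nat_lit 491560) (nat_lit 10) (.e (nat_lit 344117) (nat_lit 21) (.e (nat_lit 516099) (nat_lit 0) (.e (nat_lit 7936) (nat_lit 406) .nil)))))) (.g (nat_lit 5) .nil .nil)))) (.nd (nat_lit 5) 
(.lf (nat_lit 189854) (.g (nat_lit 3254) (.e (nat_lit 65571) (nat_lit 3) (.e (nat_lit 98389) (nat_lit 33) (.e (nat_lit 491558) (nat_lit 10) (.e (nat_lit 344115) (nat_lit 20) (.e (nat_lit 507906) (nat_lit 0) (.e (nat_lit 5402) (nat_lit 302) .nil)))))) (.g (nat_lit 6) .nil .nil))) 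
(.lf (nat_lit 189886) (.g (nat_lit 3897) (.e (nat_lit 65572) (nat_lit 4) (.e (nat_lit 123185) (nat_lit 264) (.e (nat_lit 1173) (nat_lit 87) (.e (nat_lit 57480) (nat_lit 28) (.e (nat_lit 557098) (nat_lit 13) (.e (nat_lit 172097) (nat_lit 9) (.e (nat_lit 426125) (nat_lit 2) (.e (nat_lit 196666) (nat_lit 13) .nil)))))))) (.g (nat_lit 0) .nil .nil)))))))) 
(.nd (nat_lit 1) (.nd (nat_lit 2) (.nd (nat_lit 3) (.nd (nat_lit 4) (.nd (nat_lit 5) 
(.lf (nat_lit 189825) (.g (nat_lit 3371) (.e (nat_lit 65571) (nat_lit 3) (.e (nat_lit 98373) (nat_lit 29) (.e (nat_lit 450588) (nat_lit 10) (.e (nat_lit 573475) (nat_lit 12) (.e (nat_lit 65280) (nat_lit 0) (.e (nat_lit 7236) (nat_lit 382) (.e (nat_lit 1199) (nat_lit 88) .nil))))))) (.g (nat_lit 4) .nil .nil))) 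
(.lf (nat_lit 189857) (.g (nat_lit 3525) (.e (nat_lit 65571) (nat_lit 3) (.e (nat_lit 98389) (nat_lit 33) (.e (nat_lit 491558) (nat_lit 10) (.e (nat_lit 344117) (nat_lit 21) (.e (nat_lit 516106) (nat_lit 0) (.e (nat_lit 7936) (nat_lit 406) .nil)))))) (.g (nat_lit 5) .nil .nil)))) (.nd (nat_lit 5) 
(.lf (nat_lit 189841) (.g (nat_lit 278) (.e (nat_lit 65571) (nat_lit 3) (.e (nat_lit 98381) (nat_lit 31) (.e (nat_lit 466977) (nat_lit 22) .nil))) .nil)) 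
(.lf (nat_lit 189873) (.g (nat_lit 1790) (.e (nat_lit 65571) (nat_lit 3) (.e (nat_lit 98389) (nat_lit 33) (.e (nat_lit 491560) (nat_lit 10) (.e (nat_lit 344123) (nat_lit 24) .nil)))) .nil)))) (.nd (nat_lit 4) (.nd (nat_lit 5) 
(.lf (nat_lit 189833) (.g (nat_lit 2835) (.e (nat_lit 65571) (nat_lit 3) (.e (nat_lit 98373) (nat_lit 29) (.e (nat_lit 450588) (nat_lit 10) (.e (nat_lit 573495) (nat_lit 16) .nil)))) .nil)) 
(.lf (nat_lit 189865) (.g (nat_lit 3282) (.e (nat_lit 65571) (nat_lit 3) (.e (nat_lit 98389) (nat_lit 33) (.e (nat_lit 491560) (nat_lit 10) (.e (nat_lit 344115) (nat_lit 20) (.e (nat_lit 507908) (nat_lit 0) (.e (nat_lit 5402) (nat_lit 302) .nil)))))) (.g (nat_lit 6) .nil .nil)))) (.nd (nat_lit 5) 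
(.lf (nat_lit 189849) (.g (nat_lit 1480) (.e (nat_lit 65571) (nat_lit 3) (.e (nat_lit 98388) (nat_lit 33) (.e (nat_lit 491560) (nat_lit 10) (.e (nat_lit 344118) (nat_lit 21) .nil)))) .nil)) 
(.lf (nat_lit 189881) (.g (nat_lit 4572) (.e (nat_lit 65572) (nat_lit 4) (.e (nat_lit 123182) (nat_lit 264) (.e (nat_lit 1183) (nat_lit 87) (.e (nat_lit 57478) (nat_lit 28) (.e (nat_lit 557107) (nat_lit 15) (.e (nat_lit 188447) (nat_lit 22) (.e (nat_lit 196666) (nat_lit 13) .nil))))))) (.g (nat_lit 7) .nil .nil)))))) (.nd (nat_lit 3) (.nd (nat_lit 4) (.nd (nat_lit 5) 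
(.lf (nat_lit 189829) (.g (nat_lit 3461) (.e (nat_lit 65571) (nat_lit 3) (.e (nat_lit 98373) (nat_lit 29) (.e (nat_lit 450588) (nat_lit 10) (.e (nat_lit 573475) (nat_lit 12) (.e (nat_lit 57571) (nat_lit 54) (.e (nat_lit 770070) (nat_lit 8) .nil)))))) (.g (nat_lit 4) .nil .nil))) 
(.lf (nat_lit 189861) (.g (nat_lit 2125) (.e (nat_lit 65571) (nat_lit 3) (.e (nat_lit 98389) (nat_lit 33) (.e (nat_lit 491560) (nat_lit 10) (.e (nat_lit 344108) (nat_lit 19) (.e (nat_lit 499910) (nat_lit 8) .nil))))) .nil))) (.nd (nat_lit 5) 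
(.lf (nat_lit 189845) (.g (nat_lit 1999) (.e (nat_lit 65571) (nat_lit 3) (.e (nat_lit 98388) (nat_lit 33) (.e (nat_lit 491546) (nat_lit 9) (.e (nat_lit 336013) (nat_lit 2) (.e (nat_lit 90165) (nat_lit 12) .nil))))) .nil)) 
(.lf (nat_lit 189877) (.g (nat_lit 4272) (.e (nat_lit 65572) (nat_lit 4) (.e (nat_lit 123182) (nat_lit 264) (.e (nat_lit 1175) (nat_lit 87) (.e (nat_lit 57476) (nat_lit 28) (.e (nat_lit 557097) (nat_lit 13) (.e (nat_lit 172097) (nat_lit 9) (.e (nat_lit 426125) (nat_lit 2) (.e (nat_lit 196666) (nat_lit 13) .nil)))))))) (.g (nat_lit 8) .nil .nil))))) (.nd (nat_lit 4) (.nd (nat_lit 5) 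
(.lf (nat_lit 189837) (.g (nat_lit 4351) (.e (nat_lit 65571) (nat_lit 3) (.e (nat_lit 98373) (nat_lit 29) (.e (nat_lit 450588) (nat_lit 10) (.e (nat_lit 573503) (nat_lit 18) (.e (nat_lit 1014) (nat_lit 81) (.e (nat_lit 720) (nat_lit 64) (.e (nat_lit 688177) (nat_lit 16) .nil))))))) (.g (nat_lit 4) .nil .nil))) 
(.lf (nat_lit 189869) (.g (nat_lit 2818) (.e (nat_lit 65571) (nat_lit 3) (.e (nat_lit 98389) (nat_lit 33) (.e (nat_lit 491560) (nat_lit 10) (.e (nat_lit 344117) (nat_lit 21) (.e (nat_lit 516098) (nat_lit 0) (.e (nat_lit 7585) (nat_lit 406) .nil)))))) (.g (nat_lit 4) .nil .nil)))) (.nd (nat_lit 5) 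
(.lf (nat_lit 189853) (.g (nat_lit 3040) (.e (nat_lit 65571) (nat_lit 3) (.e (nat_lit 98389) (nat_lit 33) (.e (nat_lit 491558) (nat_lit 10) (.e (nat_lit 344115) (nat_lit 20) (.e (nat_lit 507906) (nat_lit 0) (.e (nat_lit 5400) (nat_lit 302) .nil)))))) (.g (nat_lit 4) .nil .nil))) 
(.lf (nat_lit 189885) (.g (nat_lit 3969) (.e (nat_lit 65572) (nat_lit 4) (.e (nat_lit 123185) (nat_lit 264) (.e (nat_lit 1173) (nat_lit 87) (.e (nat_lit 57479) (nat_lit 28) (.e (nat_lit 557101) (nat_lit 13) (.e (nat_lit 172097) (nat_lit 9) (.e (nat_lit 426125) (nat_lit 2) (.e (nat_lit 196666) (nat_lit 13) .nil)))))))) (.g (nat_lit 0) .nil .nil))))))) 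
(.nd (nat_lit 2) (.nd (nat_lit 3) (.nd (nat_lit 4) (.nd (nat_lit 5) 
(.lf (nat_lit 189827) (.g (nat_lit 2497) (.e (nat_lit 65571) (nat_lit 3) (.e (nat_lit 98373) (nat_lit 29) (.e (nat_lit 450588) (nat_lit 10) (.e (nat_lit 573475) (nat_lit 12) (.e (nat_lit 57569) (nat_lit 53) .nil))))) .nil)) 
(.lf (nat_lit 189859) (.g (nat_lit 1223) (.e (nat_lit 65571) (nat_lit 3) (.e (nat_lit 98389) (nat_lit 33) (.e (nat_lit 491559) (nat_lit 10) (.e (nat_lit 344117) (nat_lit 21) .nil)))) .nil))) (.nd (nat_lit 5) 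
(.lf (nat_lit 189843) (.g (nat_lit 1407) (.e (nat_lit 65571) (nat_lit 3) (.e (nat_lit 98387) (nat_lit 33) (.e (nat_lit 491560) (nat_lit 10) (.e (nat_lit 344115) (nat_lit 20) .nil)))) .nil)) 
(.lf (nat_lit 189875) (.g (nat_lit 2592) (.e (nat_lit 73472) (nat_lit 3) (.e (nat_lit 98373) (nat_lit 29) (.e (nat_lit 450587) (nat_lit 10) (.e (nat_lit 573475) (nat_lit 12) .nil)))) .nil)))) (.nd (nat_lit 4) (.nd (nat_lit 5) 
(.lf (nat_lit 189835) (.g (nat_lit 3321) (.e (nat_lit 65571) (nat_lit 3) (.e (nat_lit 98373) (nat_lit 29) (.e (nat_lit 450588) (nat_lit 10) (.e (nat_lit 573503) (nat_lit 18) (.e (nat_lit 982) (nat_lit 81) .nil))))) .nil)) 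
(.lf (nat_lit 189867) (.g (nat_lit 2607) (.e (nat_lit 65571) (nat_lit 3) (.e (nat_lit 98389) (nat_lit 33) (.e (nat_lit 491560) (nat_lit 10) (.e (nat_lit 344116) (nat_lit 21) (.e (nat_lit 516106) (nat_lit 0) (.e (nat_lit 7936) (nat_lit 406) .nil)))))) (.g (nat_lit 4) .nil .nil)))) (.nd (nat_lit 5) 
(.lf (nat_lit 189851) (.g (nat_lit 3161) (.e (nat_lit 65571) (nat_lit 3) (.e (nat_lit 98389) (nat_lit 33) (.e (nat_lit 491546) (nat_lit 9) (.e (nat_lit 336028) (nat_lit 3) (.e (nat_lit 98325) (nat_lit 17) (.e (nat_lit 7936) (nat_lit 406) .nil)))))) (.g (nat_lit 5) .nil .nil))) 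
(.lf (nat_lit 189883) (.g (nat_lit 2720) (.e (nat_lit 65572) (nat_lit 4) (.e (nat_lit 123182) (nat_lit 264) (.e (nat_lit 1183) (nat_lit 87) (.e (nat_lit 57480) (nat_lit 28) (.e (nat_lit 557097) (nat_lit 13) .nil))))) .nil))))) (.nd (nat_lit 3) (.nd (nat_lit 4) (.nd (nat_lit 5) 
(.lf (nat_lit 189831) (.g (nat_lit 3122) (.e (nat_lit 65571) (nat_lit 3) (.e (nat_lit 98373) (nat_lit 29) (.e (nat_lit 450588) (nat_lit 10) (.e (nat_lit 573477) (nat_lit 12) .nil)))) .nil)) 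
(.lf (nat_lit 189863) (.g (nat_lit 3142) (.e (nat_lit 65571) (nat_lit 3) (.e (nat_lit 98389) (nat_lit 33) (.e (nat_lit 491560) (nat_lit 10) (.e (nat_lit 344115) (nat_lit 20) (.e (nat_lit 507906) (nat_lit 0) (.e (nat_lit 5402) (nat_lit 302) .nil)))))) (.g (nat_lit 5) .nil .nil)))) (.nd (nat_lit 5) 
(.lf (nat_lit 189847) (.g (nat_lit 4111) (.e (nat_lit 65571) (nat_lit 3) (.e (nat_lit 98388) (nat_lit 33) (.e (nat_lit 491560) (nat_lit 10) (.e (nat_lit 344117) (nat_lit 21) (.e (nat_lit 516099) (nat_lit 0) (.e (nat_lit 7936) (nat_lit 406) .nil)))))) (.g (nat_lit 4) .nil .nil))) 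
(.lf (nat_lit 189879) (.g (nat_lit 5388) (.e (nat_lit 65572) (nat_lit 4) (.e (nat_lit 123182) (nat_lit 264) (.e (nat_lit 1183) (nat_lit 87) (.e (nat_lit 57478) (nat_lit 28) (.e (nat_lit 557098) (nat_lit 13) (.e (nat_lit 172097) (nat_lit 9) (.e (nat_lit 426125) (nat_lit 2) (.e (nat_lit 196666) (nat_lit 13) .nil)))))))) (.g (nat_lit 8) .nil .nil))))) (.nd (nat_lit 4) (.nd (nat_lit 5) 
(.lf (nat_lit 189839) (.g (nat_lit 354) (.e (nat_lit 65571) (nat_lit 3) (.e (nat_lit 98374) (nat_lit 29) (.e (nat_lit 458496) (nat_lit 3) .nil))) .nil)) 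
(.lf (nat_lit 189871) (.g (nat_lit 3878) (.e (nat_lit 65571) (nat_lit 3) (.e (nat_lit 98389) (nat_lit 33) (.e (nat_lit 491560) (nat_lit 10) (.e (nat_lit 344117) (nat_lit 21) (.e (nat_lit 516106) (nat_lit 0) (.e (nat_lit 7936) (nat_lit 406) .nil)))))) (.g (nat_lit 5) .nil .nil)))) (.nd (nat_lit 5) 
(.lf (nat_lit 189855) (.g (nat_lit 2640) (.e (nat_lit 65571) (nat_lit 3) (.e (nat_lit 98389) (nat_lit 33) (.e (nat_lit 491558) (nat_lit 10) (.e (nat_lit 344115) (nat_lit 20) (.e (nat_lit 507907) (nat_lit 0) (.e (nat_lit 5402) (nat_lit 302) .nil)))))) (.g (nat_lit 4) .nil .nil))) 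
(.lf (nat_lit 189887) (.g (nat_lit 3064) (.e (nat_lit 65572) (nat_lit 4) (.e (nat_lit 123185) (nat_lit 264) (.e (nat_lit 1173) (nat_lit 87) (.e (nat_lit 57480) (nat_lit 28) (.e (nat_lit 557107) (nat_lit 15) (.e (nat_lit 188447) (nat_lit 22) (.e (nat_lit 196666) (nat_lit 13) .nil))))))) (.g (nat_lit 0) .nil .nil)))))))))

noncomputable def tv2514 : DT := (.nd (nat_lit 0) (.nd (nat_lit 1) (.nd (nat_lit 2) (.nd (nat_lit 3) (.nd (nat_lit 4) (.nd (nat_lit 5) 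
(.lf (nat_lit 189888) (.g (nat_lit 5109) (.e (nat_lit 65572) (nat_lit 4) (.e (nat_lit 123185) (nat_lit 264) (.e (nat_lit 1183) (nat_lit 87) (.e (nat_lit 57479) (nat_lit 28) (.e (nat_lit 557101) (nat_lit 13) (.e (nat_lit 172097) (nat_lit 9) (.e (nat_lit 426125) (nat_lit 2) (.e (nat_lit 196666) (nat_lit 13) .nil)))))))) (.g (nat_lit 0) .nil .nil))) 
(.lf (nat_lit 189920) (.g (nat_lit 1345) (.e (nat_lit 65574) (nat_lit 4) (.e (nat_lit 123197) (nat_lit 266) (.e (nat_lit 57445) (nat_lit 19) (.e (nat_lit 393249) (nat_lit 17) .nil)))) .nil))) (.nd (nat_lit 5) 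
(.lf (nat_lit 189904) (.g (nat_lit 3269) (.e (nat_lit 65574) (nat_lit 4) (.e (nat_lit 123184) (nat_lit 264) (.e (nat_lit 1201) (nat_lit 88) (.e (nat_lit 65630) (nat_lit 14) (.e (nat_lit 401454) (nat_lit 12) (.e (nat_lit 483072) (nat_lit 12) .nil)))))) (.g (nat_lit 5) .nil .nil))) 
(.lf (nat_lit 189936) (.g (nat_lit 1547) (.e (nat_lit 65578) (nat_lit 6) (.e (nat_lit 147463) (nat_lit 9) (.e (nat_lit 249) (nat_lit 21) (.e (nat_lit 336215) (nat_lit 13) (.e (nat_lit 393245) (nat_lit 17) .nil))))) .nil)))) (.nd (nat_lit 4) (.nd (nat_lit 5) 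
(.lf (nat_lit 189896) (.g (nat_lit 2779) (.e (nat_lit 65574) (nat_lit 4) (.e (nat_lit 123182) (nat_lit 264) (.e (nat_lit 1183) (nat_lit 87) (.e (nat_lit 57480) (nat_lit 28) (.e (nat_lit 557097) (nat_lit 13) .nil))))) .nil)) 
(.lf (nat_lit 189928) (.g (nat_lit 1107) (.e (nat_lit 65575) (nat_lit 5) (.e (nat_lit 139276) (nat_lit 2) (.e (nat_lit 16438) (nat_lit 9) (.e (nat_lit 426562) (nat_lit 33) (.e (nat_lit 392960) (nat_lit 4) .nil))))) .nil))) (.nd (nat_lit 5) 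
(.lf (nat_lit 189912) (.g (nat_lit 3219) (.e (nat_lit 65574) (nat_lit 4) (.e (nat_lit 123195) (nat_lit 266) (.e (nat_lit 57389) (nat_lit 5) (.e (nat_lit 114723) (nat_lit 24) (.e (nat_lit 106536) (nat_lit 11) (.e (nat_lit 16386) (nat_lit 0) (.e (nat_lit 7587) (nat_lit 406) .nil))))))) (.g (nat_lit 5) .nil .nil))) 
(.lf (nat_lit 189944) (.g (nat_lit 1310) (.e (nat_lit 65578) (nat_lit 6) (.e (nat_lit 147467) (nat_lit 9) (.e (nat_lit 297) (nat_lit 22) (.e (nat_lit 344127) (nat_lit 26) (.e (nat_lit 557104) (nat_lit 14) .nil))))) .nil))))) (.nd (nat_lit 3) (.nd (nat_lit 4) (.nd (nat_lit 5) 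
(.lf (nat_lit 189892) (.g (nat_lit 6222) (.e (nat_lit 65573) (nat_lit 4) (.e (nat_lit 123182) (nat_lit 264) (.e (nat_lit 1183) (nat_lit 87) (.e (nat_lit 57480) (nat_lit 28) (.e (nat_lit 557098) (nat_lit 13) (.e (nat_lit 172097) (nat_lit 9) (.e (nat_lit 426125) (nat_lit 2) (.e (nat_lit 196666) (nat_lit 13) .nil)))))))) (.g (nat_lit 8) .nil .nil))) 
(.lf (nat_lit 189924) (.g (nat_lit 1517) (.e (nat_lit 65574) (nat_lit 4) (.e (nat_lit 123198) (nat_lit 266) (.e (nat_lit 57445) (nat_lit 19) (.e (nat_lit 393249) (nat_lit 17) .nil)))) .nil))) (.nd (nat_lit 5) 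
(.lf (nat_lit 189908) (.g (nat_lit 3147) (.e (nat_lit 65574) (nat_lit 4) (.e (nat_lit 123185) (nat_lit 264) (.e (nat_lit 1201) (nat_lit 88) (.e (nat_lit 65630) (nat_lit 14) (.e (nat_lit 401454) (nat_lit 12) (.e (nat_lit 483072) (nat_lit 12) .nil)))))) (.g (nat_lit 5) .nil .nil))) 
(.lf (nat_lit 189940) (.g (nat_lit 678) (.e (nat_lit 65578) (nat_lit 6) (.e (nat_lit 147465) (nat_lit 9) (.e (nat_lit 334) (nat_lit 26) (.e (nat_lit 384768) (nat_lit 15) .nil)))) .nil)))) (.nd (nat_lit 4) (.nd (nat_lit 5) 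
(.lf (nat_lit 189900) (.g (nat_lit 1703) (.e (nat_lit 65574) (nat_lit 4) (.e (nat_lit 123182) (nat_lit 264) (.e (nat_lit 1201) (nat_lit 88) (.e (nat_lit 65629) (nat_lit 14) .nil)))) .nil)) 
(.lf (nat_lit 189932) (.g (nat_lit 807) (.e (nat_lit 65577) (nat_lit 5) (.e (nat_lit 139276) (nat_lit 2) (.e (nat_lit 16468) (nat_lit 13) (.e (nat_lit 483333) (nat_lit 0) (.e (nat_lit 7936) (nat_lit 406) .nil))))) (.g (nat_lit 4) .nil .nil)))) (.nd (nat_lit 5) 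
(.lf (nat_lit 189916) (.g (nat_lit 1273) (.e (nat_lit 65574) (nat_lit 4) (.e (nat_lit 123197) (nat_lit 266) (.e (nat_lit 57406) (nat_lit 12) (.e (nat_lit 336424) (nat_lit 28) .nil)))) .nil)) 
(.lf (nat_lit 189948) (.g (nat_lit 2734) (.e (nat_lit 65578) (nat_lit 6) (.e (nat_lit 147467) (nat_lit 9) (.e (nat_lit 297) (nat_lit 22) (.e (nat_lit 344131) (nat_lit 26) (.e (nat_lit 557105) (nat_lit 14) (.e (nat_lit 180262) (nat_lit 21) (.e (nat_lit 663567) (nat_lit 4) .nil))))))) (.g (nat_lit 5) .nil .nil))))))) (.nd (nat_lit 2) (.nd (nat_lit 3) (.nd (nat_lit 4) (.nd (nat_lit 5) 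
(.lf (nat_lit 189890) (.g (nat_lit 1387) (.e (nat_lit 65572) (nat_lit 4) (.e (nat_lit 123197) (nat_lit 266) (.e (nat_lit 57445) (nat_lit 19) (.e (nat_lit 393237) (nat_lit 17) .nil)))) .nil)) 
(.lf (nat_lit 189922) (.g (nat_lit 2902) (.e (nat_lit 65574) (nat_lit 4) (.e (nat_lit 123197) (nat_lit 266) (.e (nat_lit 57445) (nat_lit 19) (.e (nat_lit 393251) (nat_lit 18) (.e (nat_lit 164406) (nat_lit 258) (.e (nat_lit 163868) (nat_lit 2) (.e (nat_lit 196663) (nat_lit 13) .nil))))))) (.g (nat_lit 4) .nil .nil)))) (.nd (nat_lit 5) 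
(.lf (nat_lit 189906) (.g (nat_lit 4704) (.e (nat_lit 65574) (nat_lit 4) (.e (nat_lit 123185) (nat_lit 264) (.e (nat_lit 1183) (nat_lit 87) (.e (nat_lit 57480) (nat_lit 28) (.e (nat_lit 557109) (nat_lit 15) (.e (nat_lit 188449) (nat_lit 22) (.e (nat_lit 196666) (nat_lit 13) .nil))))))) (.g (nat_lit 0) .nil .nil))) 
(.lf (nat_lit 189938) (.g (nat_lit 1391) (.e (nat_lit 65578) (nat_lit 6) (.e (nat_lit 147463) (nat_lit 9) (.e (nat_lit 249) (nat_lit 21) (.e (nat_lit 336215) (nat_lit 13) (.e (nat_lit 401152) (nat_lit 17) .nil))))) .nil)))) (.nd (nat_lit 4) (.nd (nat_lit 5) 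
(.lf (nat_lit 189898) (.g (nat_lit 2087) (.e (nat_lit 65574) (nat_lit 4) (.e (nat_lit 123182) (nat_lit 264) (.e (nat_lit 1201) (nat_lit 88) (.e (nat_lit 65617) (nat_lit 10) (.e (nat_lit 344161) (nat_lit 37) .nil))))) .nil)) 
(.lf (nat_lit 189930) (.g (nat_lit 1395) (.e (nat_lit 65577) (nat_lit 5) (.e (nat_lit 139276) (nat_lit 2) (.e (nat_lit 16438) (nat_lit 9) (.e (nat_lit 426558) (nat_lit 33) (.e (nat_lit 392960) (nat_lit 4) .nil))))) (.g (nat_lit 4) .nil .nil)))) (.nd (nat_lit 5) 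
(.lf (nat_lit 189914) (.g (nat_lit 495) (.e (nat_lit 65574) (nat_lit 4) (.e (nat_lit 123195) (nat_lit 266) (.e (nat_lit 57427) (nat_lit 15) .nil))) .nil)) 
(.lf (nat_lit 189946) (.g (nat_lit 1181) (.e (nat_lit 65578) (nat_lit 6) (.e (nat_lit 147467) (nat_lit 9) (.e (nat_lit 297) (nat_lit 22) (.e (nat_lit 344131) (nat_lit 26) (.e (nat_lit 557098) (nat_lit 13) .nil))))) .nil))))) (.nd (nat_lit 3) (.nd (nat_lit 4) (.nd (nat_lit 5) 
(.lf (nat_lit 189894) (.g (nat_lit 530) (.e (nat_lit 65574) (nat_lit 4) (.e (nat_lit 123182) (nat_lit 264) (.e (nat_lit 1183) (nat_lit 87) .nil))) .nil)) 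
(.lf (nat_lit 189926) (.g (nat_lit 1128) (.e (nat_lit 65574) (nat_lit 4) (.e (nat_lit 123217) (nat_lit 278) (.e (nat_lit 1130) (nat_lit 83) (.e (nat_lit 16473) (nat_lit 14) (.e (nat_lit 491560) (nat_lit 10) .nil))))) .nil))) (.nd (nat_lit 5) 
(.lf (nat_lit 189910) (.g (nat_lit 385) (.e (nat_lit 65574) (nat_lit 4) (.e (nat_lit 123195) (nat_lit 266) (.e (nat_lit 57354) (nat_lit 0) .nil))) .nil)) 
(.lf (nat_lit 189942) (.g (nat_lit 1214) (.e (nat_lit 65578) (nat_lit 6) (.e (nat_lit 147467) (nat_lit 9) (.e (nat_lit 293) (nat_lit 21) (.e (nat_lit 336116) (nat_lit 9) (.e (nat_lit 336437) (nat_lit 31) (.e (nat_lit 466688) (nat_lit 4) .nil)))))) (.g (nat_lit 5) .nil .nil))))) (.nd (nat_lit 4) (.nd (nat_lit 5) 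
(.lf (nat_lit 189902) (.g (nat_lit 1350) (.e (nat_lit 65574) (nat_lit 4) (.e (nat_lit 123182) (nat_lit 264) (.e (nat_lit 1214) (nat_lit 89) (.e (nat_lit 81664) (nat_lit 37) .nil)))) .nil)) 
(.lf (nat_lit 189934) (.g (nat_lit 1879) (.e (nat_lit 65578) (nat_lit 6) (.e (nat_lit 147463) (nat_lit 9) (.e (nat_lit 249) (nat_lit 21) (.e (nat_lit 336215) (nat_lit 13) (.e (nat_lit 393242) (nat_lit 17) (.e (nat_lit 7936) (nat_lit 406) .nil)))))) (.g (nat_lit 5) .nil .nil)))) (.nd (nat_lit 5) 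
(.lf (nat_lit 189918) (.g (nat_lit 1980) (.e (nat_lit 65574) (nat_lit 4) (.e (nat_lit 123197) (nat_lit 266) (.e (nat_lit 57445) (nat_lit 19) (.e (nat_lit 393232) (nat_lit 17) (.e (nat_lit 2399) (nat_lit 157) .nil))))) .nil)) 
(.lf (nat_lit 189950) (.g (nat_lit 1420) (.e (nat_lit 65578) (nat_lit 6) (.e (nat_lit 147467) (nat_lit 9) (.e (nat_lit 297) (nat_lit 22) (.e (nat_lit 344132) (nat_lit 26) (.e (nat_lit 557101) (nat_lit 13) .nil))))) .nil))))))) (.nd (nat_lit 1) (.nd (nat_lit 2) (.nd (nat_lit 3) (.nd (nat_lit 4) (.nd (nat_lit 5) 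
(.lf (nat_lit 189889) (.g (nat_lit 4563) (.e (nat_lit 65572) (nat_lit 4) (.e (nat_lit 123185) (nat_lit 264) (.e (nat_lit 1183) (nat_lit 87) (.e (nat_lit 57480) (nat_lit 28) (.e (nat_lit 557109) (nat_lit 15) (.e (nat_lit 188449) (nat_lit 22) (.e (nat_lit 196666) (nat_lit 13) .nil))))))) (.g (nat_lit 0) .nil .nil))) 
(.lf (nat_lit 189921) (.g (nat_lit 1944) (.e (nat_lit 65574) (nat_lit 4) (.e (nat_lit 123197) (nat_lit 266) (.e (nat_lit 57445) (nat_lit 19) (.e (nat_lit 393249) (nat_lit 17) (.e (nat_lit 2442) (nat_lit 157) (.e (nat_lit 5968) (nat_lit 324) (.e (nat_lit 163871) (nat_lit 2) (.e (nat_lit 196663) (nat_lit 13) .nil)))))))) (.g (nat_lit 4) .nil .nil)))) (.nd (nat_lit 5) 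
(.lf (nat_lit 189905) (.g (nat_lit 1010) (.e (nat_lit 65574) (nat_lit 4) (.e (nat_lit 123184) (nat_lit 264) (.e (nat_lit 1212) (nat_lit 89) (.e (nat_lit 81664) (nat_lit 37) .nil)))) .nil)) 
(.lf (nat_lit 189937) (.g (nat_lit 1547) (.e (nat_lit 65578) (nat_lit 6) (.e (nat_lit 147463) (nat_lit 9) (.e (nat_lit 249) (nat_lit 21) (.e (nat_lit 336215) (nat_lit 13) (.e (nat_lit 393248) (nat_lit 17) .nil))))) .nil)))) (.nd (nat_lit 4) (.nd (nat_lit 5) 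
(.lf (nat_lit 189897) (.g (nat_lit 2092) (.e (nat_lit 65574) (nat_lit 4) (.e (nat_lit 123182) (nat_lit 264) (.e (nat_lit 1201) (nat_lit 88) (.e (nat_lit 65583) (nat_lit 7) (.e (nat_lit 319530) (nat_lit 16) (.e (nat_lit 286763) (nat_lit 15) (.e (nat_lit 7936) (nat_lit 406) .nil))))))) (.g (nat_lit 4) .nil .nil))) 
(.lf (nat_lit 189929) (.g (nat_lit 1328) (.e (nat_lit 65577) (nat_lit 5) (.e (nat_lit 139276) (nat_lit 2) (.e (nat_lit 16433) (nat_lit 9) (.e (nat_lit 426558) (nat_lit 33) .nil)))) .nil))) (.nd (nat_lit 5) 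
(.lf (nat_lit 189913) (.g (nat_lit 2953) (.e (nat_lit 65574) (nat_lit 4) (.e (nat_lit 123195) (nat_lit 266) (.e (nat_lit 57389) (nat_lit 5) (.e (nat_lit 114723) (nat_lit 24) (.e (nat_lit 106536) (nat_lit 11) (.e (nat_lit 16387) (nat_lit 0) (.e (nat_lit 7587) (nat_lit 406) .nil))))))) (.g (nat_lit 5) .nil .nil))) 
(.lf (nat_lit 189945) (.g (nat_lit 786) (.e (nat_lit 65578) (nat_lit 6) (.e (nat_lit 147467) (nat_lit 9) (.e (nat_lit 297) (nat_lit 22) (.e (nat_lit 344131) (nat_lit 26) .nil)))) .nil))))) (.nd (nat_lit 3) (.nd (nat_lit 4) (.nd (nat_lit 5) 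
(.lf (nat_lit 189893) (.g (nat_lit 5401) (.e (nat_lit 65573) (nat_lit 4) (.e (nat_lit 123182) (nat_lit 264) (.e (nat_lit 1183) (nat_lit 87) (.e (nat_lit 57480) (nat_lit 28) (.e (nat_lit 557109) (nat_lit 15) (.e (nat_lit 188449) (nat_lit 22) (.e (nat_lit 196666) (nat_lit 13) .nil))))))) (.g (nat_lit 7) .nil .nil))) 
(.lf (nat_lit 189925) (.g (nat_lit 2180) (.e (nat_lit 65574) (nat_lit 4) (.e (nat_lit 123198) (nat_lit 266) (.e (nat_lit 57447) (nat_lit 19) (.e (nat_lit 393234) (nat_lit 17) (.e (nat_lit 2398) (nat_lit 157) (.e (nat_lit 5968) (nat_lit 324) (.e (nat_lit 163868) (nat_lit 2) (.e (nat_lit 196663) (nat_lit 13) .nil)))))))) (.g (nat_lit 4) .nil .nil)))) (.nd (nat_lit 5) 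
(.lf (nat_lit 189909) (.g (nat_lit 2255) (.e (nat_lit 65574) (nat_lit 4) (.e (nat_lit 123194) (nat_lit 266) (.e (nat_lit 57390) (nat_lit 5) (.e (nat_lit 114723) (nat_lit 24) (.e (nat_lit 106536) (nat_lit 11) (.e (nat_lit 16386) (nat_lit 0) (.e (nat_lit 7587) (nat_lit 406) .nil))))))) (.g (nat_lit 5) .nil .nil))) 
(.lf (nat_lit 189941) (.g (nat_lit 1931) (.e (nat_lit 65578) (nat_lit 6) (.e (nat_lit 147467) (nat_lit 9) (.e (nat_lit 255) (nat_lit 21) (.e (nat_lit 336088) (nat_lit 9) (.e (nat_lit 336438) (nat_lit 31) (.e (nat_lit 466688) (nat_lit 4) .nil)))))) (.g (nat_lit 5) .nil .nil))))) (.nd (nat_lit 4) (.nd (nat_lit 5) 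
(.lf (nat_lit 189901) (.g (nat_lit 1164) (.e (nat_lit 65574) (nat_lit 4) (.e (nat_lit 123182) (nat_lit 264) (.e (nat_lit 1212) (nat_lit 89) (.e (nat_lit 81664) (nat_lit 37) .nil)))) .nil)) 
(.lf (nat_lit 189933) (.g (nat_lit 1547) (.e (nat_lit 65578) (nat_lit 6) (.e (nat_lit 147463) (nat_lit 9) (.e (nat_lit 249) (nat_lit 21) (.e (nat_lit 336215) (nat_lit 13) (.e (nat_lit 393235) (nat_lit 17) .nil))))) .nil))) (.nd (nat_lit 5) 
(.lf (nat_lit 189917) (.g (nat_lit 220) (.e (nat_lit 65574) (nat_lit 4) (.e (nat_lit 123197) (nat_lit 266) (.e (nat_lit 57445) (nat_lit 19) .nil))) .nil)) 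
(.lf (nat_lit 189949) (.g (nat_lit 2217) (.e (nat_lit 65578) (nat_lit 6) (.e (nat_lit 147467) (nat_lit 9) (.e (nat_lit 297) (nat_lit 22) (.e (nat_lit 344131) (nat_lit 26) (.e (nat_lit 557105) (nat_lit 14) (.e (nat_lit 180264) (nat_lit 21) (.e (nat_lit 663566) (nat_lit 4) .nil))))))) (.g (nat_lit 5) .nil .nil))))))) (.nd (nat_lit 2) (.nd (nat_lit 3) (.nd (nat_lit 4) (.nd (nat_lit 5) 
(.lf (nat_lit 189891) (.g (nat_lit 2950) (.e (nat_lit 65573) (nat_lit 4) (.e (nat_lit 123182) (nat_lit 264) (.e (nat_lit 1183) (nat_lit 87) (.e (nat_lit 57480) (nat_lit 28) (.e (nat_lit 557097) (nat_lit 13) .nil))))) .nil)) 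
(.lf (nat_lit 189923) (.g (nat_lit 2261) (.e (nat_lit 65574) (nat_lit 4) (.e (nat_lit 123197) (nat_lit 266) (.e (nat_lit 57445) (nat_lit 19) (.e (nat_lit 393252) (nat_lit 18) (.e (nat_lit 164406) (nat_lit 258) .nil))))) .nil))) (.nd (nat_lit 5) 
(.lf (nat_lit 189907) (.g (nat_lit 2583) (.e (nat_lit 65574) (nat_lit 4) (.e (nat_lit 123185) (nat_lit 264) (.e (nat_lit 1201) (nat_lit 88) (.e (nat_lit 65628) (nat_lit 14) (.e (nat_lit 401454) (nat_lit 12) (.e (nat_lit 483072) (nat_lit 12) .nil)))))) (.g (nat_lit 5) .nil .nil))) 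
(.lf (nat_lit 189939) (.g (nat_lit 1537) (.e (nat_lit 65578) (nat_lit 6) (.e (nat_lit 147463) (nat_lit 9) (.e (nat_lit 249) (nat_lit 21) (.e (nat_lit 336215) (nat_lit 13) (.e (nat_lit 401152) (nat_lit 17) (.e (nat_lit 7585) (nat_lit 406) .nil)))))) (.g (nat_lit 4) .nil .nil))))) (.nd (nat_lit 4) (.nd (nat_lit 5) 
(.lf (nat_lit 189899) (.g (nat_lit 3509) (.e (nat_lit 65574) (nat_lit 4) (.e (nat_lit 123182) (nat_lit 264) (.e (nat_lit 1201) (nat_lit 88) (.e (nat_lit 65628) (nat_lit 14) (.e (nat_lit 401454) (nat_lit 12) (.e (nat_lit 483072) (nat_lit 12) .nil)))))) (.g (nat_lit 5) .nil .nil))) 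
(.lf (nat_lit 189931) (.g (nat_lit 1384) (.e (nat_lit 65577) (nat_lit 5) (.e (nat_lit 139276) (nat_lit 2) (.e (nat_lit 16438) (nat_lit 9) (.e (nat_lit 426562) (nat_lit 33) (.e (nat_lit 392960) (nat_lit 4) .nil))))) (.g (nat_lit 4) .nil .nil)))) (.nd (nat_lit 5) 
(.lf (nat_lit 189915) (.g (nat_lit 1618) (.e (nat_lit 65574) (nat_lit 4) (.e (nat_lit 123195) (nat_lit 266) (.e (nat_lit 57427) (nat_lit 15) (.e (nat_lit 360484) (nat_lit 15) .nil)))) .nil)) 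
(.lf (nat_lit 189947) (.g (nat_lit 2055) (.e (nat_lit 65578) (nat_lit 6) (.e (nat_lit 147467) (nat_lit 9) (.e (nat_lit 297) (nat_lit 22) (.e (nat_lit 344131) (nat_lit 26) (.e (nat_lit 557103) (nat_lit 14) (.e (nat_lit 180263) (nat_lit 21) (.e (nat_lit 663566) (nat_lit 4) .nil))))))) (.g (nat_lit 5) .nil .nil)))))) (.nd (nat_lit 3) (.nd (nat_lit 4) (.nd (nat_lit 5) 
(.lf (nat_lit 189895) (.g (nat_lit 4277) (.e (nat_lit 65574) (nat_lit 4) (.e (nat_lit 123182) (nat_lit 264) (.e (nat_lit 1183) (nat_lit 87) (.e (nat_lit 57479) (nat_lit 28) (.e (nat_lit 557095) (nat_lit 13) (.e (nat_lit 172097) (nat_lit 9) (.e (nat_lit 426125) (nat_lit 2) (.e (nat_lit 196666) (nat_lit 13) .nil)))))))) (.g (nat_lit 5) .nil .nil))) 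
(.lf (nat_lit 189927) (.g (nat_lit 2156) (.e (nat_lit 73472) (nat_lit 4) (.e (nat_lit 123182) (nat_lit 264) (.e (nat_lit 1183) (nat_lit 87) (.e (nat_lit 57478) (nat_lit 28) (.e (nat_lit 557107) (nat_lit 15) .nil))))) .nil))) (.nd (nat_lit 5) 
(.lf (nat_lit 189911) (.g (nat_lit 5321) (.e (nat_lit 65574) (nat_lit 4) (.e (nat_lit 123195) (nat_lit 266) (.e (nat_lit 57354) (nat_lit 0) (.e (nat_lit 1855) (nat_lit 124) (.e (nat_lit 557109) (nat_lit 15) (.e (nat_lit 188449) (nat_lit 22) (.e (nat_lit 196666) (nat_lit 13) .nil))))))) (.g (nat_lit 7) .nil .nil))) 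
(.lf (nat_lit 189943) (.g (nat_lit 907) (.e (nat_lit 65578) (nat_lit 6) (.e (nat_lit 147467) (nat_lit 9) (.e (nat_lit 293) (nat_lit 21) (.e (nat_lit 336119) (nat_lit 9) (.e (nat_lit 336437) (nat_lit 31) .nil))))) .nil)))) (.nd (nat_lit 4) (.nd (nat_lit 5) 
(.lf (nat_lit 189903) (.g (nat_lit 2002) (.e (nat_lit 65574) (nat_lit 4) (.e (nat_lit 123184) (nat_lit 264) (.e (nat_lit 1191) (nat_lit 88) (.e (nat_lit 65630) (nat_lit 14) (.e (nat_lit 401454) (nat_lit 12) (.e (nat_lit 483072) (nat_lit 12) .nil)))))) (.g (nat_lit 5) .nil .nil))) 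
(.lf (nat_lit 189935) (.g (nat_lit 1547) (.e (nat_lit 65578) (nat_lit 6) (.e (nat_lit 147463) (nat_lit 9) (.e (nat_lit 249) (nat_lit 21) (.e (nat_lit 336215) (nat_lit 13) (.e (nat_lit 393243) (nat_lit 17) .nil))))) .nil))) (.nd (nat_lit 5) 
(.lf (nat_lit 189919) (.g (nat_lit 1356) (.e (nat_lit 65574) (nat_lit 4) (.e (nat_lit 123197) (nat_lit 266) (.e (nat_lit 57445) (nat_lit 19) (.e (nat_lit 393237) (nat_lit 17) .nil)))) .nil)) 
(.lf (nat_lit 189951) (.g (nat_lit 2743) (.e (nat_lit 65578) (nat_lit 6) (.e (nat_lit 147467) (nat_lit 9) (.e (nat_lit 297) (nat_lit 22) (.e (nat_lit 344132) (nat_lit 26) (.e (nat_lit 557105) (nat_lit 14) (.e (nat_lit 180264) (nat_lit 21) (.e (nat_lit 663566) (nat_lit 4) .nil))))))) (.g (nat_lit 6) .nil .nil)))))))))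

noncomputable def tv2515 : DT := (.nd (nat_lit 0) (.nd (nat_lit 1) (.nd (nat_lit 2) (.nd (nat_lit 3) (.nd (nat_lit 4) (.nd (nat_lit 5) (.nd (nat_lit 6) 
(.lf (nat_lit 189952) (.g (nat_lit 3033) (.e (nat_lit 65578) (nat_lit 6) (.e (nat_lit 147467) (nat_lit 9) (.e (nat_lit 297) (nat_lit 22) (.e (nat_lit 344132) (nat_lit 26) (.e (nat_lit 557105) (nat_lit 14) (.e (nat_lit 180265) (nat_lit 21) (.e (nat_lit 663566) (nat_lit 4) .nil))))))) (.g (nat_lit 6) .nil .nil))) 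
(.lf (nat_lit 190016) (.g (nat_lit 785) (.e (nat_lit 65579) (nat_lit 6) (.e (nat_lit 147492) (nat_lit 11) (.e (nat_lit 24657) (nat_lit 13) (.e (nat_lit 393242) (nat_lit 17) .nil)))) .nil))) (.nd (nat_lit 6) 
(.lf (nat_lit 189984) (.g (nat_lit 1837) (.e (nat_lit 65578) (nat_lit 6) (.e (nat_lit 147495) (nat_lit 11) (.e (nat_lit 24655) (nat_lit 13) (.e (nat_lit 393249) (nat_lit 17) (.e (nat_lit 7936) (nat_lit 406) .nil))))) (.g (nat_lit 4) .nil .nil))) 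
(.lf (nat_lit 190048) (.g (nat_lit 314) (.e (nat_lit 65580) (nat_lit 6) (.e (nat_lit 147467) (nat_lit 9) (.e (nat_lit 304) (nat_lit 22) .nil))) .nil)))) (.nd (nat_lit 5) (.nd (nat_lit 6) 
(.lf (nat_lit 189968) (.g (nat_lit 1344) (.e (nat_lit 65578) (nat_lit 6) (.e (nat_lit 147494) (nat_lit 11) (.e (nat_lit 24657) (nat_lit 13) (.e (nat_lit 393239) (nat_lit 17) .nil)))) .nil)) 
(.lf (nat_lit 190032) (.g (nat_lit 256) (.e (nat_lit 65580) (nat_lit 6) (.e (nat_lit 147467) (nat_lit 9) (.e (nat_lit 297) (nat_lit 22) .nil))) .nil))) (.nd (nat_lit 6) 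
(.lf (nat_lit 190000) (.g (nat_lit 1782) (.e (nat_lit 65578) (nat_lit 6) (.e (nat_lit 147496) (nat_lit 11) (.e (nat_lit 24625) (nat_lit 9) (.e (nat_lit 336436) (nat_lit 31) .nil)))) .nil)) 
(.lf (nat_lit 190064) (.g (nat_lit 1138) (.e (nat_lit 65580) (nat_lit 6) (.e (nat_lit 147492) (nat_lit 11) (.e (nat_lit 24664) (nat_lit 14) (.e (nat_lit 401472) (nat_lit 28) .nil)))) .nil))))) (.nd (nat_lit 4) (.nd (nat_lit 5) (.nd (nat_lit 6) 
(.lf (nat_lit 189960) (.g (nat_lit 1493) (.e (nat_lit 65578) (nat_lit 6) (.e (nat_lit 147492) (nat_lit 11) (.e (nat_lit 24657) (nat_lit 13) (.e (nat_lit 393247) (nat_lit 17) .nil)))) .nil)) 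
(.lf (nat_lit 190024) (.g (nat_lit 1568) (.e (nat_lit 65580) (nat_lit 6) (.e (nat_lit 147463) (nat_lit 9) (.e (nat_lit 249) (nat_lit 21) (.e (nat_lit 336215) (nat_lit 13) (.e (nat_lit 393245) (nat_lit 17) (.e (nat_lit 7936) (nat_lit 406) .nil)))))) (.g (nat_lit 4) .nil .nil)))) (.nd (nat_lit 6) 
(.lf (nat_lit 189992) (.g (nat_lit 1494) (.e (nat_lit 65578) (nat_lit 6) (.e (nat_lit 147495) (nat_lit 11) (.e (nat_lit 24660) (nat_lit 13) (.e (nat_lit 393235) (nat_lit 17) (.e (nat_lit 7936) (nat_lit 406) .nil))))) (.g (nat_lit 4) .nil .nil))) 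
(.lf (nat_lit 190056) (.g (nat_lit 978) (.e (nat_lit 65580) (nat_lit 6) (.e (nat_lit 147492) (nat_lit 11) (.e (nat_lit 24650) (nat_lit 12) (.e (nat_lit 385041) (nat_lit 19) (.e (nat_lit 171776) (nat_lit 97) (.e (nat_lit 622616) (nat_lit 9) .nil)))))) (.g (nat_lit 4) .nil .nil))))) (.nd (nat_lit 5) (.nd (nat_lit 6) 
(.lf (nat_lit 189976) (.g (nat_lit 1121) (.e (nat_lit 65578) (nat_lit 6) (.e (nat_lit 147495) (nat_lit 11) (.e (nat_lit 24626) (nat_lit 9) (.e (nat_lit 336438) (nat_lit 31) .nil)))) .nil)) 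
(.lf (nat_lit 190040) (.g (nat_lit 1445) (.e (nat_lit 65580) (nat_lit 6) (.e (nat_lit 147467) (nat_lit 9) (.e (nat_lit 297) (nat_lit 22) (.e (nat_lit 344132) (nat_lit 26) (.e (nat_lit 557101) (nat_lit 13) .nil))))) .nil))) (.nd (nat_lit 6) 
(.lf (nat_lit 190008) (.g (nat_lit 1896) (.e (nat_lit 65578) (nat_lit 6) (.e (nat_lit 147496) (nat_lit 11) (.e (nat_lit 24655) (nat_lit 13) (.e (nat_lit 393249) (nat_lit 17) (.e (nat_lit 7936) (nat_lit 406) .nil))))) (.g (nat_lit 4) .nil .nil))) 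
(.lf (nat_lit 190072) (.g (nat_lit 2748) (.e (nat_lit 65580) (nat_lit 6) (.e (nat_lit 147494) (nat_lit 11) (.e (nat_lit 24655) (nat_lit 13) (.e (nat_lit 393232) (nat_lit 17) (.e (nat_lit 7587) (nat_lit 406) .nil))))) (.g (nat_lit 4) .nil .nil))))))) (.nd (nat_lit 3) (.nd (nat_lit 4) (.nd (nat_lit 5) (.nd (nat_lit 6) 
(.lf (nat_lit 189956) (.g (nat_lit 228) (.e (nat_lit 65578) (nat_lit 6) (.e (nat_lit 147467) (nat_lit 9) (.e (nat_lit 314) (nat_lit 23) .nil))) .nil)) 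
(.lf (nat_lit 190020) (.g (nat_lit 268) (.e (nat_lit 65580) (nat_lit 6) (.e (nat_lit 147463) (nat_lit 9) (.e (nat_lit 249) (nat_lit 21) .nil))) .nil))) (.nd (nat_lit 6) 
(.lf (nat_lit 189988) (.g (nat_lit 3163) (.e (nat_lit 65578) (nat_lit 6) (.e (nat_lit 147495) (nat_lit 11) (.e (nat_lit 24658) (nat_lit 13) (.e (nat_lit 393234) (nat_lit 17) (.e (nat_lit 7589) (nat_lit 406) .nil))))) (.g (nat_lit 5) .nil .nil))) 
(.lf (nat_lit 190052) (.g (nat_lit 1007) (.e (nat_lit 65580) (nat_lit 6) (.e (nat_lit 147467) (nat_lit 9) (.e (nat_lit 314) (nat_lit 23) (.e (nat_lit 360192) (nat_lit 10) .nil)))) .nil)))) (.nd (nat_lit 5) (.nd (nat_lit 6) 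
(.lf (nat_lit 189972) (.g (nat_lit 1129) (.e (nat_lit 65578) (nat_lit 6) (.e (nat_lit 147494) (nat_lit 11) (.e (nat_lit 24657) (nat_lit 13) (.e (nat_lit 393249) (nat_lit 17) (.e (nat_lit 7936) (nat_lit 406) .nil))))) (.g (nat_lit 4) .nil .nil))) 
(.lf (nat_lit 190036) (.g (nat_lit 815) (.e (nat_lit 65580) (nat_lit 6) (.e (nat_lit 147467) (nat_lit 9) (.e (nat_lit 297) (nat_lit 22) (.e (nat_lit 344131) (nat_lit 26) .nil)))) .nil))) (.nd (nat_lit 6) 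
(.lf (nat_lit 190004) (.g (nat_lit 440) (.e (nat_lit 65578) (nat_lit 6) (.e (nat_lit 147496) (nat_lit 11) (.e (nat_lit 24654) (nat_lit 13) .nil))) .nil)) 
(.lf (nat_lit 190068) (.g (nat_lit 743) (.e (nat_lit 65580) (nat_lit 6) (.e (nat_lit 147493) (nat_lit 11) (.e (nat_lit 24660) (nat_lit 13) (.e (nat_lit 393230) (nat_lit 17) .nil)))) .nil))))) (.nd (nat_lit 4) (.nd (nat_lit 5) (.nd (nat_lit 6) 
(.lf (nat_lit 189964) (.g (nat_lit 1376) (.e (nat_lit 65578) (nat_lit 6) (.e (nat_lit 147494) (nat_lit 11) (.e (nat_lit 24628) (nat_lit 9) (.e (nat_lit 336438) (nat_lit 31) (.e (nat_lit 466688) (nat_lit 4) .nil))))) .nil)) 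
(.lf (nat_lit 190028) (.g (nat_lit 1547) (.e (nat_lit 65580) (nat_lit 6) (.e (nat_lit 147463) (nat_lit 9) (.e (nat_lit 249) (nat_lit 21) (.e (nat_lit 336215) (nat_lit 13) (.e (nat_lit 401152) (nat_lit 17) (.e (nat_lit 7587) (nat_lit 406) .nil)))))) (.g (nat_lit 4) .nil .nil)))) (.nd (nat_lit 6) 
(.lf (nat_lit 189996) (.g (nat_lit 1046) (.e (nat_lit 65578) (nat_lit 6) (.e (nat_lit 147495) (nat_lit 11) (.e (nat_lit 24660) (nat_lit 13) (.e (nat_lit 393249) (nat_lit 17) .nil)))) .nil)) 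
(.lf (nat_lit 190060) (.g (nat_lit 1314) (.e (nat_lit 65580) (nat_lit 6) (.e (nat_lit 147492) (nat_lit 11) (.e (nat_lit 24657) (nat_lit 13) (.e (nat_lit 393238) (nat_lit 17) .nil)))) .nil)))) (.nd (nat_lit 5) (.nd (nat_lit 6) 
(.lf (nat_lit 189980) (.g (nat_lit 1041) (.e (nat_lit 65578) (nat_lit 6) (.e (nat_lit 147495) (nat_lit 11) (.e (nat_lit 24654) (nat_lit 13) (.e (nat_lit 393238) (nat_lit 17) .nil)))) .nil)) 
(.lf (nat_lit 190044) (.g (nat_lit 3045) (.e (nat_lit 65580) (nat_lit 6) (.e (nat_lit 147467) (nat_lit 9) (.e (nat_lit 297) (nat_lit 22) (.e (nat_lit 344133) (nat_lit 26) (.e (nat_lit 557098) (nat_lit 13) (.e (nat_lit 172032) (nat_lit 0) (.e (nat_lit 3434) (nat_lit 214) (.e (nat_lit 671762) (nat_lit 4) .nil)))))))) (.g (nat_lit 5) .nil .nil)))) (.nd (nat_lit 6) 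
(.lf (nat_lit 190012) (.g (nat_lit 1139) (.e (nat_lit 65578) (nat_lit 6) (.e (nat_lit 147496) (nat_lit 11) (.e (nat_lit 24658) (nat_lit 13) (.e (nat_lit 393233) (nat_lit 17) .nil)))) .nil)) 
(.lf (nat_lit 190076) (.g (nat_lit 1348) (.e (nat_lit 65580) (nat_lit 6) (.e (nat_lit 147494) (nat_lit 11) (.e (nat_lit 24657) (nat_lit 13) (.e (nat_lit 393230) (nat_lit 17) .nil)))) .nil))))))) (.nd (nat_lit 2) (.nd (nat_lit 3) (.nd (nat_lit 4) (.nd (nat_lit 5) (.nd (nat_lit 6) 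
(.lf (nat_lit 189954) (.g (nat_lit 2652) (.e (nat_lit 65578) (nat_lit 6) (.e (nat_lit 147467) (nat_lit 9) (.e (nat_lit 297) (nat_lit 22) (.e (nat_lit 344133) (nat_lit 26) (.e (nat_lit 557098) (nat_lit 13) (.e (nat_lit 172032) (nat_lit 0) (.e (nat_lit 3421) (nat_lit 213) (.e (nat_lit 663567) (nat_lit 4) .nil)))))))) (.g (nat_lit 5) .nil .nil))) 
(.lf (nat_lit 190018) (.g (nat_lit 2364) (.e (nat_lit 65580) (nat_lit 6) (.e (nat_lit 147461) (nat_lit 0) (.e (nat_lit 1580) (nat_lit 111) (.e (nat_lit 360474) (nat_lit 8) (.e (nat_lit 557091) (nat_lit 12) .nil))))) .nil))) (.nd (nat_lit 6) 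
(.lf (nat_lit 189986) (.g (nat_lit 475) (.e (nat_lit 65578) (nat_lit 6) (.e (nat_lit 147495) (nat_lit 11) (.e (nat_lit 24658) (nat_lit 13) .nil))) .nil)) 
(.lf (nat_lit 190050) (.g (nat_lit 228) (.e (nat_lit 65580) (nat_lit 6) (.e (nat_lit 147467) (nat_lit 9) (.e (nat_lit 314) (nat_lit 23) .nil))) .nil)))) (.nd (nat_lit 5) (.nd (nat_lit 6) 
(.lf (nat_lit 189970) (.g (nat_lit 1278) (.e (nat_lit 65578) (nat_lit 6) (.e (nat_lit 147494) (nat_lit 11) (.e (nat_lit 24657) (nat_lit 13) (.e (nat_lit 393244) (nat_lit 17) .nil)))) .nil)) 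
(.lf (nat_lit 190034) (.g (nat_lit 1346) (.e (nat_lit 65580) (nat_lit 6) (.e (nat_lit 147467) (nat_lit 9) (.e (nat_lit 297) (nat_lit 22) (.e (nat_lit 344127) (nat_lit 26) (.e (nat_lit 557104) (nat_lit 14) .nil))))) .nil))) (.nd (nat_lit 6) 
(.lf (nat_lit 190002) (.g (nat_lit 2032) (.e (nat_lit 65578) (nat_lit 6) (.e (nat_lit 147496) (nat_lit 11) (.e (nat_lit 24628) (nat_lit 9) (.e (nat_lit 336438) (nat_lit 31) (.e (nat_lit 466688) (nat_lit 4) .nil))))) (.g (nat_lit 4) .nil .nil))) 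
(.lf (nat_lit 190066) (.g (nat_lit 1274) (.e (nat_lit 65580) (nat_lit 6) (.e (nat_lit 147493) (nat_lit 11) (.e (nat_lit 24655) (nat_lit 13) (.e (nat_lit 393249) (nat_lit 17) (.e (nat_lit 7936) (nat_lit 406) .nil))))) (.g (nat_lit 4) .nil .nil)))))) (.nd (nat_lit 4) (.nd (nat_lit 5) (.nd (nat_lit 6) 
(.lf (nat_lit 189962) (.g (nat_lit 869) (.e (nat_lit 65578) (nat_lit 6) (.e (nat_lit 147492) (nat_lit 11) (.e (nat_lit 24657) (nat_lit 13) (.e (nat_lit 401152) (nat_lit 17) .nil)))) .nil)) 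
(.lf (nat_lit 190026) (.g (nat_lit 1970) (.e (nat_lit 65580) (nat_lit 6) (.e (nat_lit 147463) (nat_lit 9) (.e (nat_lit 249) (nat_lit 21) (.e (nat_lit 336215) (nat_lit 13) (.e (nat_lit 393249) (nat_lit 17) (.e (nat_lit 7936) (nat_lit 406) .nil)))))) (.g (nat_lit 5) .nil .nil)))) (.nd (nat_lit 6) 
(.lf (nat_lit 189994) (.g (nat_lit 1047) (.e (nat_lit 65578) (nat_lit 6) (.e (nat_lit 147495) (nat_lit 11) (.e (nat_lit 24660) (nat_lit 13) (.e (nat_lit 393243) (nat_lit 17) .nil)))) .nil)) 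
(.lf (nat_lit 190058) (.g (nat_lit 1213) (.e (nat_lit 65580) (nat_lit 6) (.e (nat_lit 147492) (nat_lit 11) (.e (nat_lit 24655) (nat_lit 13) (.e (nat_lit 393249) (nat_lit 17) (.e (nat_lit 7936) (nat_lit 406) .nil))))) .nil)))) (.nd (nat_lit 5) (.nd (nat_lit 6) 
(.lf (nat_lit 189978) (.g (nat_lit 1969) (.e (nat_lit 65578) (nat_lit 6) (.e (nat_lit 147495) (nat_lit 11) (.e (nat_lit 24654) (nat_lit 13) (.e (nat_lit 393234) (nat_lit 17) (.e (nat_lit 7587) (nat_lit 406) .nil))))) (.g (nat_lit 4) .nil .nil))) 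
(.lf (nat_lit 190042) (.g (nat_lit 3271) (.e (nat_lit 65580) (nat_lit 6) (.e (nat_lit 147467) (nat_lit 9) (.e (nat_lit 297) (nat_lit 22) (.e (nat_lit 344132) (nat_lit 26) (.e (nat_lit 557105) (nat_lit 14) (.e (nat_lit 180265) (nat_lit 21) (.e (nat_lit 663566) (nat_lit 4) .nil))))))) (.g (nat_lit 6) .nil .nil)))) (.nd (nat_lit 6) 
(.lf (nat_lit 190010) (.g (nat_lit 1423) (.e (nat_lit 65578) (nat_lit 6) (.e (nat_lit 147496) (nat_lit 11) (.e (nat_lit 24656) (nat_lit 13) (.e (nat_lit 393249) (nat_lit 17) (.e (nat_lit 7936) (nat_lit 406) .nil))))) (.g (nat_lit 4) .nil .nil))) 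
(.lf (nat_lit 190074) (.g (nat_lit 1624) (.e (nat_lit 65580) (nat_lit 6) (.e (nat_lit 147494) (nat_lit 11) (.e (nat_lit 24655) (nat_lit 13) (.e (nat_lit 393249) (nat_lit 17) (.e (nat_lit 7936) (nat_lit 406) .nil))))) (.g (nat_lit 4) .nil .nil))))))) (.nd (nat_lit 3) (.nd (nat_lit 4) (.nd (nat_lit 5) (.nd (nat_lit 6) 
(.lf (nat_lit 189958) (.g (nat_lit 1261) (.e (nat_lit 65578) (nat_lit 6) (.e (nat_lit 147492) (nat_lit 11) (.e (nat_lit 24655) (nat_lit 13) (.e (nat_lit 393249) (nat_lit 17) (.e (nat_lit 7936) (nat_lit 406) .nil))))) .nil)) 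
(.lf (nat_lit 190022) (.g (nat_lit 1977) (.e (nat_lit 65580) (nat_lit 6) (.e (nat_lit 147463) (nat_lit 9) (.e (nat_lit 249) (nat_lit 21) (.e (nat_lit 336215) (nat_lit 13) (.e (nat_lit 393242) (nat_lit 17) (.e (nat_lit 7936) (nat_lit 406) .nil)))))) (.g (nat_lit 5) .nil .nil)))) (.nd (nat_lit 6) 
(.lf (nat_lit 189990) (.g (nat_lit 1795) (.e (nat_lit 65578) (nat_lit 6) (.e (nat_lit 147495) (nat_lit 11) (.e (nat_lit 24658) (nat_lit 13) (.e (nat_lit 393240) (nat_lit 17) .nil)))) .nil)) 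
(.lf (nat_lit 190054) (.g (nat_lit 1852) (.e (nat_lit 65580) (nat_lit 6) (.e (nat_lit 147476) (nat_lit 9) (.e (nat_lit 290) (nat_lit 21) (.e (nat_lit 336222) (nat_lit 13) (.e (nat_lit 393238) (nat_lit 17) (.e (nat_lit 7936) (nat_lit 406) .nil)))))) (.g (nat_lit 5) .nil .nil))))) (.nd (nat_lit 5) (.nd (nat_lit 6) 
(.lf (nat_lit 189974) (.g (nat_lit 1318) (.e (nat_lit 65578) (nat_lit 6) (.e (nat_lit 147494) (nat_lit 11) (.e (nat_lit 24660) (nat_lit 13) (.e (nat_lit 393238) (nat_lit 17) (.e (nat_lit 7936) (nat_lit 406) .nil))))) .nil)) 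
(.lf (nat_lit 190038) (.g (nat_lit 2546) (.e (nat_lit 65580) (nat_lit 6) (.e (nat_lit 147467) (nat_lit 9) (.e (nat_lit 297) (nat_lit 22) (.e (nat_lit 344131) (nat_lit 26) (.e (nat_lit 557105) (nat_lit 14) (.e (nat_lit 180264) (nat_lit 21) (.e (nat_lit 663566) (nat_lit 4) .nil))))))) (.g (nat_lit 5) .nil .nil)))) (.nd (nat_lit 6) 
(.lf (nat_lit 190006) (.g (nat_lit 1081) (.e (nat_lit 65578) (nat_lit 6) (.e (nat_lit 147496) (nat_lit 11) (.e (nat_lit 24655) (nat_lit 13) (.e (nat_lit 393233) (nat_lit 17) .nil)))) .nil)) 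
(.lf (nat_lit 190070) (.g (nat_lit 1212) (.e (nat_lit 65580) (nat_lit 6) (.e (nat_lit 147494) (nat_lit 11) (.e (nat_lit 24628) (nat_lit 9) (.e (nat_lit 336438) (nat_lit 31) (.e (nat_lit 466688) (nat_lit 4) .nil))))) .nil))))) (.nd (nat_lit 4) (.nd (nat_lit 5) (.nd (nat_lit 6) 
(.lf (nat_lit 189966) (.g (nat_lit 1639) (.e (nat_lit 65578) (nat_lit 6) (.e (nat_lit 147494) (nat_lit 11) (.e (nat_lit 24655) (nat_lit 13) (.e (nat_lit 393249) (nat_lit 17) (.e (nat_lit 7936) (nat_lit 406) .nil))))) (.g (nat_lit 4) .nil .nil))) 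
(.lf (nat_lit 190030) (.g (nat_lit 1211) (.e (nat_lit 65580) (nat_lit 6) (.e (nat_lit 147467) (nat_lit 9) (.e (nat_lit 293) (nat_lit 21) (.e (nat_lit 336116) (nat_lit 9) (.e (nat_lit 336437) (nat_lit 31) (.e (nat_lit 466688) (nat_lit 4) .nil)))))) (.g (nat_lit 5) .nil .nil)))) (.nd (nat_lit 6) 
(.lf (nat_lit 189998) (.g (nat_lit 1334) (.e (nat_lit 65578) (nat_lit 6) (.e (nat_lit 147496) (nat_lit 11) (.e (nat_lit 24625) (nat_lit 9) (.e (nat_lit 336367) (nat_lit 27) (.e (nat_lit 425986) (nat_lit 0) .nil))))) .nil)) 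
(.lf (nat_lit 190062) (.g (nat_lit 1310) (.e (nat_lit 65580) (nat_lit 6) (.e (nat_lit 147492) (nat_lit 11) (.e (nat_lit 24657) (nat_lit 13) (.e (nat_lit 393248) (nat_lit 17) .nil)))) .nil)))) (.nd (nat_lit 5) (.nd (nat_lit 6) 
(.lf (nat_lit 189982) (.g (nat_lit 1531) (.e (nat_lit 65578) (nat_lit 6) (.e (nat_lit 147495) (nat_lit 11) (.e (nat_lit 24655) (nat_lit 13) (.e (nat_lit 393233) (nat_lit 17) .nil)))) .nil)) 
(.lf (nat_lit 190046) (.g (nat_lit 2774) (.e (nat_lit 65580) (nat_lit 6) (.e (nat_lit 147467) (nat_lit 9) (.e (nat_lit 297) (nat_lit 22) (.e (nat_lit 344133) (nat_lit 26) (.e (nat_lit 557103) (nat_lit 14) (.e (nat_lit 180263) (nat_lit 21) (.e (nat_lit 663566) (nat_lit 4) .nil))))))) (.g (nat_lit 5) .nil .nil)))) (.nd (nat_lit 6) 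
(.lf (nat_lit 190014) (.g (nat_lit 1637) (.e (nat_lit 65578) (nat_lit 6) (.e (nat_lit 147496) (nat_lit 11) (.e (nat_lit 24658) (nat_lit 13) (.e (nat_lit 393249) (nat_lit 17) (.e (nat_lit 7936) (nat_lit 406) .nil))))) (.g (nat_lit 4) .nil .nil))) 
(.lf (nat_lit 190078) (.g (nat_lit 1197) (.e (nat_lit 65580) (nat_lit 6) (.e (nat_lit 147494) (nat_lit 11) (.e (nat_lit 24657) (nat_lit 13) (.e (nat_lit 393239) (nat_lit 17) .nil)))) .nil)))))))) (.nd (nat_lit 1) (.nd (nat_lit 2) (.nd (nat_lit 3) (.nd (nat_lit 4) (.nd (nat_lit 5) (.nd (nat_lit 6) 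
(.lf (nat_lit 189953) (.g (nat_lit 1576) (.e (nat_lit 65578) (nat_lit 6) (.e (nat_lit 147467) (nat_lit 9) (.e (nat_lit 297) (nat_lit 22) (.e (nat_lit 344133) (nat_lit 26) (.e (nat_lit 557098) (nat_lit 13) .nil))))) .nil)) 
(.lf (nat_lit 190017) (.g (nat_lit 1619) (.e (nat_lit 65579) (nat_lit 6) (.e (nat_lit 147495) (nat_lit 11) (.e (nat_lit 24658) (nat_lit 13) (.e (nat_lit 393234) (nat_lit 17) .nil)))) .nil))) (.nd (nat_lit 6) 
(.lf (nat_lit 189985) (.g (nat_lit 1515) (.e (nat_lit 65578) (nat_lit 6) (.e (nat_lit 147495) (nat_lit 11) (.e (nat_lit 24657) (nat_lit 13) (.e (nat_lit 393249) (nat_lit 17) .nil)))) .nil)) 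
(.lf (nat_lit 190049) (.g (nat_lit 312) (.e (nat_lit 65580) (nat_lit 6) (.e (nat_lit 147467) (nat_lit 9) (.e (nat_lit 312) (nat_lit 23) .nil))) .nil)))) (.nd (nat_lit 5) (.nd (nat_lit 6) 
(.lf (nat_lit 189969) (.g (nat_lit 969) (.e (nat_lit 65578) (nat_lit 6) (.e (nat_lit 147494) (nat_lit 11) (.e (nat_lit 24657) (nat_lit 13) (.e (nat_lit 393242) (nat_lit 17) .nil)))) .nil)) 
(.lf (nat_lit 190033) (.g (nat_lit 1687) (.e (nat_lit 65580) (nat_lit 6) (.e (nat_lit 147467) (nat_lit 9) (.e (nat_lit 297) (nat_lit 22) (.e (nat_lit 344119) (nat_lit 21) (.e (nat_lit 516131) (nat_lit 3) (.e (nat_lit 221219) (nat_lit 24) (.e (nat_lit 220928) (nat_lit 4) .nil))))))) (.g (nat_lit 6) .nil .nil)))) (.nd (nat_lit 6) 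
(.lf (nat_lit 190001) (.g (nat_lit 1821) (.e (nat_lit 65578) (nat_lit 6) (.e (nat_lit 147496) (nat_lit 11) (.e (nat_lit 24628) (nat_lit 9) (.e (nat_lit 336436) (nat_lit 31) .nil)))) .nil)) 
(.lf (nat_lit 190065) (.g (nat_lit 1035) (.e (nat_lit 65580) (nat_lit 6) (.e (nat_lit 147493) (nat_lit 11) (.e (nat_lit 24625) (nat_lit 9) (.e (nat_lit 336438) (nat_lit 31) .nil)))) .nil))))) (.nd (nat_lit 4) (.nd (nat_lit 5) (.nd (nat_lit 6) 
(.lf (nat_lit 189961) (.g (nat_lit 1392) (.e (nat_lit 65578) (nat_lit 6) (.e (nat_lit 147492) (nat_lit 11) (.e (nat_lit 24657) (nat_lit 13) (.e (nat_lit 393248) (nat_lit 17) .nil)))) .nil)) 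
(.lf (nat_lit 190025) (.g (nat_lit 1451) (.e (nat_lit 65580) (nat_lit 6) (.e (nat_lit 147463) (nat_lit 9) (.e (nat_lit 249) (nat_lit 21) (.e (nat_lit 336215) (nat_lit 13) (.e (nat_lit 393248) (nat_lit 17) .nil))))) .nil))) (.nd (nat_lit 6) 
(.lf (nat_lit 189993) (.g (nat_lit 1801) (.e (nat_lit 65578) (nat_lit 6) (.e (nat_lit 147495) (nat_lit 11) (.e (nat_lit 24660) (nat_lit 13) (.e (nat_lit 393238) (nat_lit 17) (.e (nat_lit 7936) (nat_lit 406) .nil))))) (.g (nat_lit 4) .nil .nil))) 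
(.lf (nat_lit 190057) (.g (nat_lit 1195) (.e (nat_lit 65580) (nat_lit 6) (.e (nat_lit 147492) (nat_lit 11) (.e (nat_lit 24655) (nat_lit 13) (.e (nat_lit 393233) (nat_lit 17) .nil)))) .nil)))) (.nd (nat_lit 5) (.nd (nat_lit 6) 
(.lf (nat_lit 189977) (.g (nat_lit 1016) (.e (nat_lit 65578) (nat_lit 6) (.e (nat_lit 147495) (nat_lit 11) (.e (nat_lit 24654) (nat_lit 13) (.e (nat_lit 393233) (nat_lit 17) .nil)))) .nil)) 
(.lf (nat_lit 190041) (.g (nat_lit 2654) (.e (nat_lit 65580) (nat_lit 6) (.e (nat_lit 147467) (nat_lit 9) (.e (nat_lit 297) (nat_lit 22) (.e (nat_lit 344132) (nat_lit 26) (.e (nat_lit 557105) (nat_lit 14) (.e (nat_lit 180262) (nat_lit 21) (.e (nat_lit 663567) (nat_lit 4) .nil))))))) (.g (nat_lit 5) .nil .nil)))) (.nd (nat_lit 6) 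
(.lf (nat_lit 190009) (.g (nat_lit 534) (.e (nat_lit 65578) (nat_lit 6) (.e (nat_lit 147496) (nat_lit 11) (.e (nat_lit 24656) (nat_lit 13) .nil))) .nil)) 
(.lf (nat_lit 190073) (.g (nat_lit 1590) (.e (nat_lit 65580) (nat_lit 6) (.e (nat_lit 147494) (nat_lit 11) (.e (nat_lit 24655) (nat_lit 13) (.e (nat_lit 393237) (nat_lit 17) .nil)))) .nil)))))) (.nd (nat_lit 3) (.nd (nat_lit 4) (.nd (nat_lit 5) (.nd (nat_lit 6) 
(.lf (nat_lit 189957) (.g (nat_lit 1017) (.e (nat_lit 65578) (nat_lit 6) (.e (nat_lit 147492) (nat_lit 11) (.e (nat_lit 24628) (nat_lit 9) (.e (nat_lit 336438) (nat_lit 31) (.e (nat_lit 466688) (nat_lit 4) .nil))))) (.g (nat_lit 4) .nil .nil))) 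
(.lf (nat_lit 190021) (.g (nat_lit 1539) (.e (nat_lit 65580) (nat_lit 6) (.e (nat_lit 147463) (nat_lit 9) (.e (nat_lit 249) (nat_lit 21) (.e (nat_lit 336215) (nat_lit 13) (.e (nat_lit 393235) (nat_lit 17) (.e (nat_lit 7936) (nat_lit 406) .nil)))))) (.g (nat_lit 4) .nil .nil)))) (.nd (nat_lit 6) 
(.lf (nat_lit 189989) (.g (nat_lit 2408) (.e (nat_lit 65578) (nat_lit 6) (.e (nat_lit 147495) (nat_lit 11) (.e (nat_lit 24658) (nat_lit 13) (.e (nat_lit 393238) (nat_lit 17) (.e (nat_lit 7936) (nat_lit 406) .nil))))) .nil)) 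
(.lf (nat_lit 190053) (.g (nat_lit 314) (.e (nat_lit 65580) (nat_lit 6) (.e (nat_lit 147467) (nat_lit 9) (.e (nat_lit 336) (nat_lit 26) .nil))) .nil)))) (.nd (nat_lit 5) (.nd (nat_lit 6) 
(.lf (nat_lit 189973) (.g (nat_lit 1589) (.e (nat_lit 65578) (nat_lit 6) (.e (nat_lit 147494) (nat_lit 11) (.e (nat_lit 24658) (nat_lit 13) (.e (nat_lit 393234) (nat_lit 17) .nil)))) .nil)) 
(.lf (nat_lit 190037) (.g (nat_lit 2384) (.e (nat_lit 65580) (nat_lit 6) (.e (nat_lit 147467) (nat_lit 9) (.e (nat_lit 297) (nat_lit 22) (.e (nat_lit 344131) (nat_lit 26) (.e (nat_lit 557103) (nat_lit 14) (.e (nat_lit 180263) (nat_lit 21) (.e (nat_lit 663566) (nat_lit 4) .nil))))))) (.g (nat_lit 5) .nil .nil)))) (.nd (nat_lit 6) 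
(.lf (nat_lit 190005) (.g (nat_lit 1489) (.e (nat_lit 65578) (nat_lit 6) (.e (nat_lit 147496) (nat_lit 11) (.e (nat_lit 24655) (nat_lit 13) (.e (nat_lit 393232) (nat_lit 17) .nil)))) .nil)) 
(.lf (nat_lit 190069) (.g (nat_lit 1385) (.e (nat_lit 65580) (nat_lit 6) (.e (nat_lit 147493) (nat_lit 11) (.e (nat_lit 24660) (nat_lit 13) (.e (nat_lit 393238) (nat_lit 17) (.e (nat_lit 7936) (nat_lit 406) .nil))))) (.g (nat_lit 4) .nil .nil)))))) (.nd (nat_lit 4) (.nd (nat_lit 5) (.nd (nat_lit 6) 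
(.lf (nat_lit 189965) (.g (nat_lit 1715) (.e (nat_lit 65578) (nat_lit 6) (.e (nat_lit 147494) (nat_lit 11) (.e (nat_lit 24655) (nat_lit 13) (.e (nat_lit 393237) (nat_lit 17) .nil)))) .nil)) 
(.lf (nat_lit 190029) (.g (nat_lit 1928) (.e (nat_lit 65580) (nat_lit 6) (.e (nat_lit 147467) (nat_lit 9) (.e (nat_lit 255) (nat_lit 21) (.e (nat_lit 336088) (nat_lit 9) (.e (nat_lit 336438) (nat_lit 31) (.e (nat_lit 466688) (nat_lit 4) .nil)))))) (.g (nat_lit 5) .nil .nil)))) (.nd (nat_lit 6) 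
(.lf (nat_lit 189997) (.g (nat_lit 2208) (.e (nat_lit 65578) (nat_lit 6) (.e (nat_lit 147495) (nat_lit 11) (.e (nat_lit 24665) (nat_lit 14) (.e (nat_lit 401472) (nat_lit 28) (.e (nat_lit 344150) (nat_lit 34) .nil))))) .nil)) 
(.lf (nat_lit 190061) (.g (nat_lit 1396) (.e (nat_lit 65580) (nat_lit 6) (.e (nat_lit 147492) (nat_lit 11) (.e (nat_lit 24657) (nat_lit 13) (.e (nat_lit 393247) (nat_lit 17) .nil)))) .nil)))) (.nd (nat_lit 5) (.nd (nat_lit 6) 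
(.lf (nat_lit 189981) (.g (nat_lit 504) (.e (nat_lit 65578) (nat_lit 6) (.e (nat_lit 147495) (nat_lit 11) (.e (nat_lit 24655) (nat_lit 13) .nil))) .nil)) 
(.lf (nat_lit 190045) (.g (nat_lit 1601) (.e (nat_lit 65580) (nat_lit 6) (.e (nat_lit 147467) (nat_lit 9) (.e (nat_lit 297) (nat_lit 22) (.e (nat_lit 344133) (nat_lit 26) (.e (nat_lit 557103) (nat_lit 14) .nil))))) .nil))) (.nd (nat_lit 6) 
(.lf (nat_lit 190013) (.g (nat_lit 1596) (.e (nat_lit 65578) (nat_lit 6) (.e (nat_lit 147496) (nat_lit 11) (.e (nat_lit 24658) (nat_lit 13) (.e (nat_lit 393237) (nat_lit 17) .nil)))) .nil)) 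
(.lf (nat_lit 190077) (.g (nat_lit 1477) (.e (nat_lit 65580) (nat_lit 6) (.e (nat_lit 147494) (nat_lit 11) (.e (nat_lit 24657) (nat_lit 13) (.e (nat_lit 393235) (nat_lit 17) (.e (nat_lit 7936) (nat_lit 406) .nil))))) .nil))))))) (.nd (nat_lit 2) (.nd (nat_lit 3) (.nd (nat_lit 4) (.nd (nat_lit 5) (.nd (nat_lit 6) 
(.lf (nat_lit 189955) (.g (nat_lit 1496) (.e (nat_lit 65578) (nat_lit 6) (.e (nat_lit 147467) (nat_lit 9) (.e (nat_lit 307) (nat_lit 22) (.e (nat_lit 344129) (nat_lit 26) (.e (nat_lit 557097) (nat_lit 13) .nil))))) .nil)) 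
(.lf (nat_lit 190019) (.g (nat_lit 1814) (.e (nat_lit 65580) (nat_lit 6) (.e (nat_lit 155392) (nat_lit 0) (.e (nat_lit 1598) (nat_lit 111) (.e (nat_lit 360466) (nat_lit 3) (.e (nat_lit 516117) (nat_lit 1) (.e (nat_lit 164170) (nat_lit 152) (.e (nat_lit 1196) (nat_lit 88) .nil))))))) (.g (nat_lit 5) .nil .nil)))) (.nd (nat_lit 6) 
(.lf (nat_lit 189987) (.g (nat_lit 1241) (.e (nat_lit 65578) (nat_lit 6) (.e (nat_lit 147495) (nat_lit 11) (.e (nat_lit 24658) (nat_lit 13) (.e (nat_lit 393233) (nat_lit 17) .nil)))) .nil)) 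
(.lf (nat_lit 190051) (.g (nat_lit 1074) (.e (nat_lit 65580) (nat_lit 6) (.e (nat_lit 147467) (nat_lit 9) (.e (nat_lit 314) (nat_lit 23) (.e (nat_lit 352264) (nat_lit 0) .nil)))) .nil)))) (.nd (nat_lit 5) (.nd (nat_lit 6) 
(.lf (nat_lit 189971) (.g (nat_lit 1331) (.e (nat_lit 65578) (nat_lit 6) (.e (nat_lit 147494) (nat_lit 11) (.e (nat_lit 24657) (nat_lit 13) (.e (nat_lit 393248) (nat_lit 17) .nil)))) .nil)) 
(.lf (nat_lit 190035) (.g (nat_lit 2509) (.e (nat_lit 65580) (nat_lit 6) (.e (nat_lit 147467) (nat_lit 9) (.e (nat_lit 297) (nat_lit 22) (.e (nat_lit 344127) (nat_lit 26) (.e (nat_lit 557104) (nat_lit 14) (.e (nat_lit 180262) (nat_lit 21) (.e (nat_lit 663567) (nat_lit 4) .nil))))))) (.g (nat_lit 5) .nil .nil)))) (.nd (nat_lit 6) 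
(.lf (nat_lit 190003) (.g (nat_lit 555) (.e (nat_lit 65578) (nat_lit 6) (.e (nat_lit 147496) (nat_lit 11) (.e (nat_lit 24631) (nat_lit 9) .nil))) .nil)) 
(.lf (nat_lit 190067) (.g (nat_lit 749) (.e (nat_lit 65580) (nat_lit 6) (.e (nat_lit 147493) (nat_lit 11) (.e (nat_lit 24657) (nat_lit 13) (.e (nat_lit 393242) (nat_lit 17) .nil)))) .nil))))) (.nd (nat_lit 4) (.nd (nat_lit 5) (.nd (nat_lit 6) 
(.lf (nat_lit 189963) (.g (nat_lit 1034) (.e (nat_lit 65578) (nat_lit 6) (.e (nat_lit 147493) (nat_lit 11) (.e (nat_lit 24627) (nat_lit 9) (.e (nat_lit 336438) (nat_lit 31) (.e (nat_lit 466688) (nat_lit 4) .nil))))) .nil)) 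
(.lf (nat_lit 190027) (.g (nat_lit 1296) (.e (nat_lit 65580) (nat_lit 6) (.e (nat_lit 147463) (nat_lit 9) (.e (nat_lit 249) (nat_lit 21) (.e (nat_lit 336215) (nat_lit 13) (.e (nat_lit 401152) (nat_lit 17) .nil))))) .nil))) (.nd (nat_lit 6) 
(.lf (nat_lit 189995) (.g (nat_lit 1016) (.e (nat_lit 65578) (nat_lit 6) (.e (nat_lit 147495) (nat_lit 11) (.e (nat_lit 24660) (nat_lit 13) (.e (nat_lit 393245) (nat_lit 17) .nil)))) .nil)) 
(.lf (nat_lit 190059) (.g (nat_lit 1356) (.e (nat_lit 65580) (nat_lit 6) (.e (nat_lit 147492) (nat_lit 11) (.e (nat_lit 24657) (nat_lit 13) (.e (nat_lit 393232) (nat_lit 17) (.e (nat_lit 7936) (nat_lit 406) .nil))))) .nil)))) (.nd (nat_lit 5) (.nd (nat_lit 6) 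
(.lf (nat_lit 189979) (.g (nat_lit 1717) (.e (nat_lit 65578) (nat_lit 6) (.e (nat_lit 147495) (nat_lit 11) (.e (nat_lit 24654) (nat_lit 13) (.e (nat_lit 393234) (nat_lit 17) (.e (nat_lit 7936) (nat_lit 406) .nil))))) .nil)) 
(.lf (nat_lit 190043) (.g (nat_lit 1611) (.e (nat_lit 65580) (nat_lit 6) (.e (nat_lit 147467) (nat_lit 9) (.e (nat_lit 297) (nat_lit 22) (.e (nat_lit 344133) (nat_lit 26) (.e (nat_lit 557098) (nat_lit 13) .nil))))) .nil))) (.nd (nat_lit 6) 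
(.lf (nat_lit 190011) (.g (nat_lit 397) (.e (nat_lit 65578) (nat_lit 6) (.e (nat_lit 147496) (nat_lit 11) (.e (nat_lit 24658) (nat_lit 13) .nil))) .nil)) 
(.lf (nat_lit 190075) (.g (nat_lit 276) (.e (nat_lit 65580) (nat_lit 6) (.e (nat_lit 147494) (nat_lit 11) (.e (nat_lit 24657) (nat_lit 13) .nil))) .nil)))))) (.nd (nat_lit 3) (.nd (nat_lit 4) (.nd (nat_lit 5) (.nd (nat_lit 6) 
(.lf (nat_lit 189959) (.g (nat_lit 1399) (.e (nat_lit 65578) (nat_lit 6) (.e (nat_lit 147492) (nat_lit 11) (.e (nat_lit 24657) (nat_lit 13) (.e (nat_lit 393232) (nat_lit 17) (.e (nat_lit 7936) (nat_lit 406) .nil))))) .nil)) 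
(.lf (nat_lit 190023) (.g (nat_lit 1451) (.e (nat_lit 65580) (nat_lit 6) (.e (nat_lit 147463) (nat_lit 9) (.e (nat_lit 249) (nat_lit 21) (.e (nat_lit 336215) (nat_lit 13) (.e (nat_lit 393243) (nat_lit 17) .nil))))) .nil))) (.nd (nat_lit 6) 
(.lf (nat_lit 189991) (.g (nat_lit 435) (.e (nat_lit 65578) (nat_lit 6) (.e (nat_lit 147495) (nat_lit 11) (.e (nat_lit 24660) (nat_lit 13) .nil))) .nil)) 
(.lf (nat_lit 190055) (.g (nat_lit 1113) (.e (nat_lit 65580) (nat_lit 6) (.e (nat_lit 147492) (nat_lit 11) (.e (nat_lit 24628) (nat_lit 9) (.e (nat_lit 336438) (nat_lit 31) (.e (nat_lit 466688) (nat_lit 4) .nil))))) (.g (nat_lit 4) .nil .nil))))) (.nd (nat_lit 5) (.nd (nat_lit 6) 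
(.lf (nat_lit 189975) (.g (nat_lit 545) (.e (nat_lit 65578) (nat_lit 6) (.e (nat_lit 147495) (nat_lit 11) (.e (nat_lit 24624) (nat_lit 9) .nil))) .nil)) 
(.lf (nat_lit 190039) (.g (nat_lit 2839) (.e (nat_lit 65580) (nat_lit 6) (.e (nat_lit 147467) (nat_lit 9) (.e (nat_lit 297) (nat_lit 22) (.e (nat_lit 344131) (nat_lit 26) (.e (nat_lit 557105) (nat_lit 14) (.e (nat_lit 180265) (nat_lit 21) (.e (nat_lit 663566) (nat_lit 4) .nil))))))) (.g (nat_lit 6) .nil .nil)))) (.nd (nat_lit 6) 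
(.lf (nat_lit 190007) (.g (nat_lit 1501) (.e (nat_lit 65578) (nat_lit 6) (.e (nat_lit 147496) (nat_lit 11) (.e (nat_lit 24655) (nat_lit 13) (.e (nat_lit 393241) (nat_lit 17) .nil)))) .nil)) 
(.lf (nat_lit 190071) (.g (nat_lit 836) (.e (nat_lit 65580) (nat_lit 6) (.e (nat_lit 147494) (nat_lit 11) (.e (nat_lit 24650) (nat_lit 12) (.e (nat_lit 385041) (nat_lit 19) (.e (nat_lit 171776) (nat_lit 97) .nil))))) .nil))))) (.nd (nat_lit 4) (.nd (nat_lit 5) (.nd (nat_lit 6) 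
(.lf (nat_lit 189967) (.g (nat_lit 1427) (.e (nat_lit 65578) (nat_lit 6) (.e (nat_lit 147494) (nat_lit 11) (.e (nat_lit 24657) (nat_lit 13) (.e (nat_lit 393235) (nat_lit 17) .nil)))) .nil)) 
(.lf (nat_lit 190031) (.g (nat_lit 906) (.e (nat_lit 65580) (nat_lit 6) (.e (nat_lit 147467) (nat_lit 9) (.e (nat_lit 293) (nat_lit 21) (.e (nat_lit 336119) (nat_lit 9) (.e (nat_lit 336437) (nat_lit 31) .nil))))) .nil))) (.nd (nat_lit 6) 
(.lf (nat_lit 189999) (.g (nat_lit 1299) (.e (nat_lit 65578) (nat_lit 6) (.e (nat_lit 147496) (nat_lit 11) (.e (nat_lit 24625) (nat_lit 9) (.e (nat_lit 336423) (nat_lit 28) .nil)))) .nil)) 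
(.lf (nat_lit 190063) (.g (nat_lit 2661) (.e (nat_lit 65580) (nat_lit 6) (.e (nat_lit 147492) (nat_lit 11) (.e (nat_lit 24658) (nat_lit 13) (.e (nat_lit 393234) (nat_lit 17) (.e (nat_lit 7587) (nat_lit 406) .nil))))) (.g (nat_lit 4) .nil .nil))))) (.nd (nat_lit 5) (.nd (nat_lit 6) 
(.lf (nat_lit 189983) (.g (nat_lit 1787) (.e (nat_lit 65578) (nat_lit 6) (.e (nat_lit 147495) (nat_lit 11) (.e (nat_lit 24655) (nat_lit 13) (.e (nat_lit 393237) (nat_lit 17) .nil)))) .nil)) 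
(.lf (nat_lit 190047) (.g (nat_lit 3529) (.e (nat_lit 65580) (nat_lit 6) (.e (nat_lit 147467) (nat_lit 9) (.e (nat_lit 297) (nat_lit 22) (.e (nat_lit 344133) (nat_lit 26) (.e (nat_lit 557105) (nat_lit 14) (.e (nat_lit 180264) (nat_lit 21) (.e (nat_lit 663566) (nat_lit 4) .nil))))))) (.g (nat_lit 6) .nil .nil)))) (.nd (nat_lit 6) 
(.lf (nat_lit 190015) (.g (nat_lit 1659) (.e (nat_lit 65579) (nat_lit 6) (.e (nat_lit 147476) (nat_lit 9) (.e (nat_lit 290) (nat_lit 21) (.e (nat_lit 336213) (nat_lit 13) (.e (nat_lit 393233) (nat_lit 17) .nil))))) .nil)) 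
(.lf (nat_lit 190079) (.g (nat_lit 1156) (.e (nat_lit 65580) (nat_lit 6) (.e (nat_lit 147494) (nat_lit 11) (.e (nat_lit 24657) (nat_lit 13) (.e (nat_lit 393242) (nat_lit 17) (.e (nat_lit 7936) (nat_lit 406) .nil))))) .nil)))))))))


end

end Pool.Agent.Lib.MP_5854e1_co.Cz
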