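import Pool.Agent.Lib.MP_5854e1_co.DtD

/-!
# Windows and cells of the rings
-/

set_option autoImplicit false
set_option maxRecDepth 100000
set_option deprecated.oldSectionVars true

namespace Pool.Agent.Lib.MP_5854e1_co.Cz

open Pool.Agent.Lib.MP_5854e1_co

noncomputable section

noncomputable def tv2594 : DT := (.nd (nat_lit 0) (.nd (nat_lit 1) (.nd (nat_lit 2) (.nd (nat_lit 3) (.nd (nat_lit 4) (.nd (nat_lit 5) (.nd (nat_lit 6) 
(.lf (nat_lit 195968) (.g (nat_lit 1566) (.e (nat_lit 65627) (nat_lit 13) (.e (nat_lit 393301) (nat_lit 27) (.e (nat_lit 491560) (nat_lit 10) (.e (nat_lit 344090) (nat_lit 18) (.e (nat_lit 7130) (nat_lit 382) .nil))))) .nil)) 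
(.lf (nat_lit 196032) (.g (nat_lit 3872) (.e (nat_lit 65628) (nat_lit 14) (.e (nat_lit 401428) (nat_lit 3) (.e (nat_lit 204869) (nat_lit 29) (.e (nat_lit 360451) (nat_lit 0) (.e (nat_lit 3957) (nat_lit 239) .nil))))) .nil))) (.nd (nat_lit 6) 
(.lf (nat_lit 196000) (.g (nat_lit 1253) (.e (nat_lit 65628) (nat_lit 14) (.e (nat_lit 401425) (nat_lit 2) (.e (nat_lit 196630) (nat_lit 9) (.e (nat_lit 1549) (nat_lit 109) .nil)))) .nil)) 
(.lf (nat_lit 196064) (.g (nat_lit 2983) (.e (nat_lit 65628) (nat_lit 14) (.e (nat_lit 401436) (nat_lit 9) (.e (nat_lit 426542) (nat_lit 29) (.e (nat_lit 352309) (nat_lit 21) (.e (nat_lit 57872) (nat_lit 264) (.e (nat_lit 1200) (nat_lit 88) .nil)))))) (.g (nat_lit 0) .nil .nil))))) (.nd (nat_lit 5) (.nd (nat_lit 6) 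
(.lf (nat_lit 195984) (.g (nat_lit 1975) (.e (nat_lit 65627) (nat_lit 13) (.e (nat_lit 393301) (nat_lit 27) (.e (nat_lit 491560) (nat_lit 10) (.e (nat_lit 352000) (nat_lit 18) .nil)))) .nil)) 
(.lf (nat_lit 196048) (.g (nat_lit 1695) (.e (nat_lit 65628) (nat_lit 14) (.e (nat_lit 401432) (nat_lit 7) (.e (nat_lit 409646) (nat_lit 18) (.e (nat_lit 303127) (nat_lit 9) .nil)))) .nil))) (.nd (nat_lit 6) 
(.lf (nat_lit 196016) (.g (nat_lit 840) (.e (nat_lit 65628) (nat_lit 14) (.e (nat_lit 401428) (nat_lit 3) (.e (nat_lit 204816) (nat_lit 17) (.e (nat_lit 6437) (nat_lit 343) .nil)))) .nil)) 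
(.lf (nat_lit 196080) (.g (nat_lit 2090) (.e (nat_lit 65628) (nat_lit 14) (.e (nat_lit 401437) (nat_lit 9) (.e (nat_lit 426530) (nat_lit 27) (.e (nat_lit 336119) (nat_lit 9) (.e (nat_lit 336329) (nat_lit 19) (.e (nat_lit 220928) (nat_lit 4) .nil)))))) (.g (nat_lit 4) .nil .nil)))))) (.nd (nat_lit 4) (.nd (nat_lit 5) (.nd (nat_lit 6) 
(.lf (nat_lit 195976) (.g (nat_lit 1551) (.e (nat_lit 65627) (nat_lit 13) (.e (nat_lit 393301) (nat_lit 27) (.e (nat_lit 491560) (nat_lit 10) (.e (nat_lit 344096) (nat_lit 18) .nil)))) .nil)) 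
(.lf (nat_lit 196040) (.g (nat_lit 2724) (.e (nat_lit 65628) (nat_lit 14) (.e (nat_lit 401428) (nat_lit 3) (.e (nat_lit 204869) (nat_lit 29) (.e (nat_lit 360455) (nat_lit 0) (.e (nat_lit 3982) (nat_lit 239) .nil))))) .nil))) (.nd (nat_lit 6) 
(.lf (nat_lit 196008) (.g (nat_lit 1754) (.e (nat_lit 65628) (nat_lit 14) (.e (nat_lit 401425) (nat_lit 2) (.e (nat_lit 196666) (nat_lit 13) (.e (nat_lit 65599) (nat_lit 9) (.e (nat_lit 343808) (nat_lit 15) .nil))))) .nil)) 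
(.lf (nat_lit 196072) (.g (nat_lit 1594) (.e (nat_lit 65628) (nat_lit 14) (.e (nat_lit 401436) (nat_lit 9) (.e (nat_lit 426555) (nat_lit 32) (.e (nat_lit 376870) (nat_lit 24) .nil)))) .nil)))) (.nd (nat_lit 5) (.nd (nat_lit 6) 
(.lf (nat_lit 195992) (.g (nat_lit 2631) (.e (nat_lit 65627) (nat_lit 13) (.e (nat_lit 393301) (nat_lit 27) (.e (nat_lit 491563) (nat_lit 12) (.e (nat_lit 385046) (nat_lit 21) .nil)))) .nil)) 
(.lf (nat_lit 196056) (.g (nat_lit 2649) (.e (nat_lit 65628) (nat_lit 14) (.e (nat_lit 401436) (nat_lit 9) (.e (nat_lit 426542) (nat_lit 29) (.e (nat_lit 352307) (nat_lit 21) (.e (nat_lit 57871) (nat_lit 264) (.e (nat_lit 1189) (nat_lit 88) .nil)))))) (.g (nat_lit 0) .nil .nil)))) (.nd (nat_lit 6) 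
(.lf (nat_lit 196024) (.g (nat_lit 2566) (.e (nat_lit 65628) (nat_lit 14) (.e (nat_lit 401428) (nat_lit 3) (.e (nat_lit 204869) (nat_lit 29) (.e (nat_lit 360448) (nat_lit 0) (.e (nat_lit 3915) (nat_lit 239) .nil))))) .nil)) 
(.lf (nat_lit 196088) (.g (nat_lit 1302) (.e (nat_lit 65628) (nat_lit 14) (.e (nat_lit 401437) (nat_lit 9) (.e (nat_lit 426540) (nat_lit 29) (.e (nat_lit 352258) (nat_lit 0) .nil)))) .nil)))))) (.nd (nat_lit 3) (.nd (nat_lit 4) (.nd (nat_lit 5) (.nd (nat_lit 6) 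
(.lf (nat_lit 195972) (.g (nat_lit 2083) (.e (nat_lit 65627) (nat_lit 13) (.e (nat_lit 393301) (nat_lit 27) (.e (nat_lit 491560) (nat_lit 10) (.e (nat_lit 344093) (nat_lit 18) .nil)))) .nil)) 
(.lf (nat_lit 196036) (.g (nat_lit 3767) (.e (nat_lit 65628) (nat_lit 14) (.e (nat_lit 401428) (nat_lit 3) (.e (nat_lit 204869) (nat_lit 29) (.e (nat_lit 360451) (nat_lit 0) (.e (nat_lit 3986) (nat_lit 239) .nil))))) .nil))) (.nd (nat_lit 6) 
(.lf (nat_lit 196004) (.g (nat_lit 3034) (.e (nat_lit 65628) (nat_lit 14) (.e (nat_lit 401425) (nat_lit 2) (.e (nat_lit 196663) (nat_lit 13) (.e (nat_lit 65630) (nat_lit 14) (.e (nat_lit 401425) (nat_lit 2) (.e (nat_lit 196665) (nat_lit 13) .nil)))))) (.g (nat_lit 4) .nil .nil))) 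
(.lf (nat_lit 196068) (.g (nat_lit 2898) (.e (nat_lit 65628) (nat_lit 14) (.e (nat_lit 401436) (nat_lit 9) (.e (nat_lit 426555) (nat_lit 32) (.e (nat_lit 376857) (nat_lit 21) (.e (nat_lit 57870) (nat_lit 264) (.e (nat_lit 1189) (nat_lit 88) .nil)))))) (.g (nat_lit 6) .nil .nil))))) (.nd (nat_lit 5) (.nd (nat_lit 6) 
(.lf (nat_lit 195988) (.g (nat_lit 815) (.e (nat_lit 65627) (nat_lit 13) (.e (nat_lit 393301) (nat_lit 27) (.e (nat_lit 491561) (nat_lit 11) .nil))) .nil)) 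
(.lf (nat_lit 196052) (.g (nat_lit 2180) (.e (nat_lit 65628) (nat_lit 14) (.e (nat_lit 401436) (nat_lit 9) (.e (nat_lit 426542) (nat_lit 29) (.e (nat_lit 352290) (nat_lit 20) (.e (nat_lit 2003) (nat_lit 138) (.e (nat_lit 671762) (nat_lit 4) .nil)))))) (.g (nat_lit 0) .nil .nil)))) (.nd (nat_lit 6) 
(.lf (nat_lit 196020) (.g (nat_lit 2747) (.e (nat_lit 65628) (nat_lit 14) (.e (nat_lit 401428) (nat_lit 3) (.e (nat_lit 204866) (nat_lit 28) (.e (nat_lit 352318) (nat_lit 24) (.e (nat_lit 123040) (nat_lit 140) (.e (nat_lit 1200) (nat_lit 88) .nil)))))) (.g (nat_lit 4) .nil .nil))) 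
(.lf (nat_lit 196084) (.g (nat_lit 3841) (.e (nat_lit 65628) (nat_lit 14) (.e (nat_lit 401437) (nat_lit 9) (.e (nat_lit 426538) (nat_lit 29) (.e (nat_lit 352318) (nat_lit 24) (.e (nat_lit 123182) (nat_lit 264) (.e (nat_lit 1193) (nat_lit 88) .nil)))))) (.g (nat_lit 6) .nil .nil)))))) (.nd (nat_lit 4) (.nd (nat_lit 5) (.nd (nat_lit 6) 
(.lf (nat_lit 195980) (.g (nat_lit 2205) (.e (nat_lit 65627) (nat_lit 13) (.e (nat_lit 393301) (nat_lit 27) (.e (nat_lit 491560) (nat_lit 10) (.e (nat_lit 344097) (nat_lit 18) (.e (nat_lit 7223) (nat_lit 382) .nil))))) .nil)) 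
(.lf (nat_lit 196044) (.g (nat_lit 2829) (.e (nat_lit 65628) (nat_lit 14) (.e (nat_lit 401428) (nat_lit 3) (.e (nat_lit 204869) (nat_lit 29) (.e (nat_lit 360456) (nat_lit 0) (.e (nat_lit 3982) (nat_lit 239) .nil))))) .nil))) (.nd (nat_lit 6) 
(.lf (nat_lit 196012) (.g (nat_lit 736) (.e (nat_lit 65628) (nat_lit 14) (.e (nat_lit 401425) (nat_lit 2) (.e (nat_lit 196671) (nat_lit 15) .nil))) .nil)) 
(.lf (nat_lit 196076) (.g (nat_lit 3103) (.e (nat_lit 65628) (nat_lit 14) (.e (nat_lit 401437) (nat_lit 9) (.e (nat_lit 426489) (nat_lit 27) (.e (nat_lit 336157) (nat_lit 9) (.e (nat_lit 335995) (nat_lit 1) (.e (nat_lit 57872) (nat_lit 264) (.e (nat_lit 1200) (nat_lit 88) .nil))))))) (.g (nat_lit 5) .nil .nil))))) (.nd (nat_lit 5) (.nd (nat_lit 6) 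
(.lf (nat_lit 195996) (.g (nat_lit 3016) (.e (nat_lit 65627) (nat_lit 13) (.e (nat_lit 393301) (nat_lit 27) (.e (nat_lit 491563) (nat_lit 12) (.e (nat_lit 385053) (nat_lit 21) .nil)))) .nil)) 
(.lf (nat_lit 196060) (.g (nat_lit 3325) (.e (nat_lit 65628) (nat_lit 14) (.e (nat_lit 401436) (nat_lit 9) (.e (nat_lit 426542) (nat_lit 29) (.e (nat_lit 352307) (nat_lit 21) (.e (nat_lit 57873) (nat_lit 264) (.e (nat_lit 1200) (nat_lit 88) .nil)))))) (.g (nat_lit 0) .nil .nil)))) (.nd (nat_lit 6) 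
(.lf (nat_lit 196028) (.g (nat_lit 3515) (.e (nat_lit 65628) (nat_lit 14) (.e (nat_lit 401428) (nat_lit 3) (.e (nat_lit 204869) (nat_lit 29) (.e (nat_lit 360450) (nat_lit 0) (.e (nat_lit 3950) (nat_lit 239) (.e (nat_lit 1197) (nat_lit 88) .nil)))))) (.g (nat_lit 4) .nil .nil))) 
(.lf (nat_lit 196092) (.g (nat_lit 2008) (.e (nat_lit 65628) (nat_lit 14) (.e (nat_lit 401437) (nat_lit 9) (.e (nat_lit 426540) (nat_lit 29) (.e (nat_lit 352270) (nat_lit 8) (.e (nat_lit 270080) (nat_lit 4) .nil))))) (.g (nat_lit 4) .nil .nil)))))))) (.nd (nat_lit 2) (.nd (nat_lit 3) (.nd (nat_lit 4) (.nd (nat_lit 5) (.nd (nat_lit 6) 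
(.lf (nat_lit 195970) (.g (nat_lit 1562) (.e (nat_lit 65627) (nat_lit 13) (.e (nat_lit 393301) (nat_lit 27) (.e (nat_lit 491560) (nat_lit 10) (.e (nat_lit 344091) (nat_lit 18) .nil)))) .nil)) 
(.lf (nat_lit 196034) (.g (nat_lit 3676) (.e (nat_lit 65628) (nat_lit 14) (.e (nat_lit 401428) (nat_lit 3) (.e (nat_lit 204869) (nat_lit 29) (.e (nat_lit 360451) (nat_lit 0) (.e (nat_lit 3982) (nat_lit 239) .nil))))) .nil))) (.nd (nat_lit 6) 
(.lf (nat_lit 196002) (.g (nat_lit 712) (.e (nat_lit 65628) (nat_lit 14) (.e (nat_lit 401425) (nat_lit 2) (.e (nat_lit 196662) (nat_lit 13) .nil))) .nil)) 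
(.lf (nat_lit 196066) (.g (nat_lit 3232) (.e (nat_lit 65628) (nat_lit 14) (.e (nat_lit 401436) (nat_lit 9) (.e (nat_lit 426542) (nat_lit 29) (.e (nat_lit 352316) (nat_lit 24) (.e (nat_lit 123182) (nat_lit 264) (.e (nat_lit 1201) (nat_lit 88) .nil)))))) (.g (nat_lit 6) .nil .nil))))) (.nd (nat_lit 5) (.nd (nat_lit 6) 
(.lf (nat_lit 195986) (.g (nat_lit 1991) (.e (nat_lit 65627) (nat_lit 13) (.e (nat_lit 393301) (nat_lit 27) (.e (nat_lit 491560) (nat_lit 10) (.e (nat_lit 344174) (nat_lit 42) (.e (nat_lit 769792) (nat_lit 8) .nil))))) (.g (nat_lit 4) .nil .nil))) 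
(.lf (nat_lit 196050) (.g (nat_lit 1311) (.e (nat_lit 65628) (nat_lit 14) (.e (nat_lit 401436) (nat_lit 9) (.e (nat_lit 426542) (nat_lit 29) (.e (nat_lit 352264) (nat_lit 0) (.e (nat_lit 3714) (nat_lit 227) (.e (nat_lit 786176) (nat_lit 4) .nil)))))) (.g (nat_lit 4) .nil .nil)))) (.nd (nat_lit 6) 
(.lf (nat_lit 196018) (.g (nat_lit 3966) (.e (nat_lit 65628) (nat_lit 14) (.e (nat_lit 401428) (nat_lit 3) (.e (nat_lit 204866) (nat_lit 28) (.e (nat_lit 352303) (nat_lit 20) (.e (nat_lit 1842) (nat_lit 123) (.e (nat_lit 548889) (nat_lit 9) .nil)))))) (.g (nat_lit 0) .nil .nil))) 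
(.lf (nat_lit 196082) (.g (nat_lit 819) (.e (nat_lit 65628) (nat_lit 14) (.e (nat_lit 401437) (nat_lit 9) (.e (nat_lit 426533) (nat_lit 28) (.e (nat_lit 344086) (nat_lit 17) .nil)))) .nil))))) (.nd (nat_lit 4) (.nd (nat_lit 5) (.nd (nat_lit 6) 
(.lf (nat_lit 195978) (.g (nat_lit 2091) (.e (nat_lit 65627) (nat_lit 13) (.e (nat_lit 393301) (nat_lit 27) (.e (nat_lit 491560) (nat_lit 10) (.e (nat_lit 344097) (nat_lit 18) (.e (nat_lit 7144) (nat_lit 382) .nil))))) .nil)) 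
(.lf (nat_lit 196042) (.g (nat_lit 3157) (.e (nat_lit 65628) (nat_lit 14) (.e (nat_lit 401428) (nat_lit 3) (.e (nat_lit 204869) (nat_lit 29) (.e (nat_lit 360456) (nat_lit 0) (.e (nat_lit 3962) (nat_lit 239) (.e (nat_lit 1190) (nat_lit 88) .nil)))))) (.g (nat_lit 4) .nil .nil)))) (.nd (nat_lit 6) 
(.lf (nat_lit 196010) (.g (nat_lit 1716) (.e (nat_lit 65628) (nat_lit 14) (.e (nat_lit 401425) (nat_lit 2) (.e (nat_lit 196670) (nat_lit 14) (.e (nat_lit 73786) (nat_lit 45) .nil)))) .nil)) 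
(.lf (nat_lit 196074) (.g (nat_lit 1406) (.e (nat_lit 65628) (nat_lit 14) (.e (nat_lit 401437) (nat_lit 9) (.e (nat_lit 426482) (nat_lit 27) (.e (nat_lit 336164) (nat_lit 10) .nil)))) .nil)))) (.nd (nat_lit 5) (.nd (nat_lit 6) 
(.lf (nat_lit 195994) (.g (nat_lit 2983) (.e (nat_lit 65627) (nat_lit 13) (.e (nat_lit 393301) (nat_lit 27) (.e (nat_lit 491563) (nat_lit 12) (.e (nat_lit 385050) (nat_lit 21) .nil)))) .nil)) 
(.lf (nat_lit 196058) (.g (nat_lit 2971) (.e (nat_lit 65628) (nat_lit 14) (.e (nat_lit 401436) (nat_lit 9) (.e (nat_lit 426542) (nat_lit 29) (.e (nat_lit 352307) (nat_lit 21) (.e (nat_lit 57872) (nat_lit 264) (.e (nat_lit 1200) (nat_lit 88) .nil)))))) (.g (nat_lit 0) .nil .nil)))) (.nd (nat_lit 6) 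
(.lf (nat_lit 196026) (.g (nat_lit 1514) (.e (nat_lit 65628) (nat_lit 14) (.e (nat_lit 401428) (nat_lit 3) (.e (nat_lit 204869) (nat_lit 29) (.e (nat_lit 360449) (nat_lit 0) .nil)))) .nil)) 
(.lf (nat_lit 196090) (.g (nat_lit 1548) (.e (nat_lit 65628) (nat_lit 14) (.e (nat_lit 401437) (nat_lit 9) (.e (nat_lit 426540) (nat_lit 29) (.e (nat_lit 352261) (nat_lit 0) .nil)))) .nil)))))) (.nd (nat_lit 3) (.nd (nat_lit 4) (.nd (nat_lit 5) (.nd (nat_lit 6) 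
(.lf (nat_lit 195974) (.g (nat_lit 1468) (.e (nat_lit 65627) (nat_lit 13) (.e (nat_lit 393301) (nat_lit 27) (.e (nat_lit 491560) (nat_lit 10) (.e (nat_lit 344094) (nat_lit 18) (.e (nat_lit 7200) (nat_lit 382) .nil))))) .nil)) 
(.lf (nat_lit 196038) (.g (nat_lit 2550) (.e (nat_lit 65628) (nat_lit 14) (.e (nat_lit 401428) (nat_lit 3) (.e (nat_lit 204869) (nat_lit 29) (.e (nat_lit 360455) (nat_lit 0) (.e (nat_lit 3962) (nat_lit 239) .nil))))) .nil))) (.nd (nat_lit 6) 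
(.lf (nat_lit 196006) (.g (nat_lit 333) (.e (nat_lit 65628) (nat_lit 14) (.e (nat_lit 401425) (nat_lit 2) (.e (nat_lit 196666) (nat_lit 13) .nil))) .nil)) 
(.lf (nat_lit 196070) (.g (nat_lit 1852) (.e (nat_lit 65628) (nat_lit 14) (.e (nat_lit 401436) (nat_lit 9) (.e (nat_lit 426555) (nat_lit 32) (.e (nat_lit 376859) (nat_lit 21) (.e (nat_lit 57871) (nat_lit 264) (.e (nat_lit 1189) (nat_lit 88) .nil)))))) (.g (nat_lit 4) .nil .nil))))) (.nd (nat_lit 5) (.nd (nat_lit 6) 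
(.lf (nat_lit 195990) (.g (nat_lit 2577) (.e (nat_lit 65627) (nat_lit 13) (.e (nat_lit 393301) (nat_lit 27) (.e (nat_lit 491563) (nat_lit 12) (.e (nat_lit 385044) (nat_lit 21) .nil)))) .nil)) 
(.lf (nat_lit 196054) (.g (nat_lit 2693) (.e (nat_lit 65628) (nat_lit 14) (.e (nat_lit 401436) (nat_lit 9) (.e (nat_lit 426542) (nat_lit 29) (.e (nat_lit 352307) (nat_lit 21) (.e (nat_lit 57870) (nat_lit 264) (.e (nat_lit 1190) (nat_lit 88) .nil)))))) (.g (nat_lit 0) .nil .nil)))) (.nd (nat_lit 6) 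
(.lf (nat_lit 196022) (.g (nat_lit 1440) (.e (nat_lit 65628) (nat_lit 14) (.e (nat_lit 401428) (nat_lit 3) (.e (nat_lit 204868) (nat_lit 29) (.e (nat_lit 360456) (nat_lit 0) (.e (nat_lit 3962) (nat_lit 239) .nil))))) .nil)) 
(.lf (nat_lit 196086) (.g (nat_lit 2584) (.e (nat_lit 65628) (nat_lit 14) (.e (nat_lit 401437) (nat_lit 9) (.e (nat_lit 426538) (nat_lit 29) (.e (nat_lit 352318) (nat_lit 24) (.e (nat_lit 123185) (nat_lit 264) (.e (nat_lit 1193) (nat_lit 88) .nil)))))) (.g (nat_lit 4) .nil .nil)))))) (.nd (nat_lit 4) (.nd (nat_lit 5) (.nd (nat_lit 6) 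
(.lf (nat_lit 195982) (.g (nat_lit 1638) (.e (nat_lit 65627) (nat_lit 13) (.e (nat_lit 393301) (nat_lit 27) (.e (nat_lit 491560) (nat_lit 10) (.e (nat_lit 344099) (nat_lit 18) .nil)))) .nil)) 
(.lf (nat_lit 196046) (.g (nat_lit 1390) (.e (nat_lit 65628) (nat_lit 14) (.e (nat_lit 401428) (nat_lit 3) (.e (nat_lit 204869) (nat_lit 29) (.e (nat_lit 368384) (nat_lit 0) .nil)))) .nil))) (.nd (nat_lit 6) 
(.lf (nat_lit 196014) (.g (nat_lit 2399) (.e (nat_lit 65628) (nat_lit 14) (.e (nat_lit 401425) (nat_lit 2) (.e (nat_lit 196672) (nat_lit 15) (.e (nat_lit 81947) (nat_lit 20) (.e (nat_lit 1842) (nat_lit 123) .nil))))) .nil)) 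
(.lf (nat_lit 196078) (.g (nat_lit 2417) (.e (nat_lit 65628) (nat_lit 14) (.e (nat_lit 401437) (nat_lit 9) (.e (nat_lit 426530) (nat_lit 27) (.e (nat_lit 336116) (nat_lit 9) (.e (nat_lit 336331) (nat_lit 19) (.e (nat_lit 220928) (nat_lit 4) .nil)))))) (.g (nat_lit 4) .nil .nil))))) (.nd (nat_lit 5) (.nd (nat_lit 6) 
(.lf (nat_lit 195998) (.g (nat_lit 2810) (.e (nat_lit 73472) (nat_lit 13) (.e (nat_lit 393301) (nat_lit 27) (.e (nat_lit 491559) (nat_lit 10) (.e (nat_lit 344177) (nat_lit 43) (.e (nat_lit 770070) (nat_lit 8) .nil))))) .nil)) 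
(.lf (nat_lit 196062) (.g (nat_lit 2584) (.e (nat_lit 65628) (nat_lit 14) (.e (nat_lit 401436) (nat_lit 9) (.e (nat_lit 426542) (nat_lit 29) (.e (nat_lit 352309) (nat_lit 21) (.e (nat_lit 57870) (nat_lit 264) (.e (nat_lit 1200) (nat_lit 88) .nil)))))) (.g (nat_lit 0) .nil .nil)))) (.nd (nat_lit 6) 
(.lf (nat_lit 196030) (.g (nat_lit 4074) (.e (nat_lit 65628) (nat_lit 14) (.e (nat_lit 401428) (nat_lit 3) (.e (nat_lit 204869) (nat_lit 29) (.e (nat_lit 360451) (nat_lit 0) (.e (nat_lit 3950) (nat_lit 239) (.e (nat_lit 1196) (nat_lit 88) .nil)))))) (.g (nat_lit 4) .nil .nil))) 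
(.lf (nat_lit 196094) (.g (nat_lit 1600) (.e (nat_lit 65628) (nat_lit 14) (.e (nat_lit 401437) (nat_lit 9) (.e (nat_lit 426540) (nat_lit 29) (.e (nat_lit 352308) (nat_lit 21) .nil)))) .nil)))))))) (.nd (nat_lit 1) (.nd (nat_lit 2) (.nd (nat_lit 3) (.nd (nat_lit 4) (.nd (nat_lit 5) (.nd (nat_lit 6) 
(.lf (nat_lit 195969) (.g (nat_lit 1573) (.e (nat_lit 65627) (nat_lit 13) (.e (nat_lit 393301) (nat_lit 27) (.e (nat_lit 491560) (nat_lit 10) (.e (nat_lit 344090) (nat_lit 18) (.e (nat_lit 7236) (nat_lit 382) .nil))))) .nil)) 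
(.lf (nat_lit 196033) (.g (nat_lit 3739) (.e (nat_lit 65628) (nat_lit 14) (.e (nat_lit 401428) (nat_lit 3) (.e (nat_lit 204869) (nat_lit 29) (.e (nat_lit 360451) (nat_lit 0) (.e (nat_lit 3959) (nat_lit 239) .nil))))) .nil))) (.nd (nat_lit 6) 
(.lf (nat_lit 196001) (.g (nat_lit 1220) (.e (nat_lit 65628) (nat_lit 14) (.e (nat_lit 401425) (nat_lit 2) (.e (nat_lit 196661) (nat_lit 12) (.e (nat_lit 57723) (nat_lit 180) .nil)))) .nil)) 
(.lf (nat_lit 196065) (.g (nat_lit 3131) (.e (nat_lit 65628) (nat_lit 14) (.e (nat_lit 401436) (nat_lit 9) (.e (nat_lit 426542) (nat_lit 29) (.e (nat_lit 352309) (nat_lit 21) (.e (nat_lit 57873) (nat_lit 264) (.e (nat_lit 1200) (nat_lit 88) .nil)))))) (.g (nat_lit 0) .nil .nil))))) (.nd (nat_lit 5) (.nd (nat_lit 6) 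
(.lf (nat_lit 195985) (.g (nat_lit 1908) (.e (nat_lit 65627) (nat_lit 13) (.e (nat_lit 393301) (nat_lit 27) (.e (nat_lit 491560) (nat_lit 10) (.e (nat_lit 344173) (nat_lit 42) (.e (nat_lit 769792) (nat_lit 8) .nil))))) (.g (nat_lit 4) .nil .nil))) 
(.lf (nat_lit 196049) (.g (nat_lit 670) (.e (nat_lit 65628) (nat_lit 14) (.e (nat_lit 401435) (nat_lit 9) (.e (nat_lit 426538) (nat_lit 29) .nil))) .nil))) (.nd (nat_lit 6) 
(.lf (nat_lit 196017) (.g (nat_lit 4452) (.e (nat_lit 65628) (nat_lit 14) (.e (nat_lit 401428) (nat_lit 3) (.e (nat_lit 204861) (nat_lit 26) (.e (nat_lit 336204) (nat_lit 12) (.e (nat_lit 385074) (nat_lit 31) (.e (nat_lit 573482) (nat_lit 13) .nil)))))) (.g (nat_lit 5) .nil .nil))) 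
(.lf (nat_lit 196081) (.g (nat_lit 2347) (.e (nat_lit 65628) (nat_lit 14) (.e (nat_lit 401437) (nat_lit 9) (.e (nat_lit 426530) (nat_lit 27) (.e (nat_lit 336119) (nat_lit 9) (.e (nat_lit 336331) (nat_lit 19) (.e (nat_lit 220928) (nat_lit 4) .nil)))))) (.g (nat_lit 4) .nil .nil)))))) (.nd (nat_lit 4) (.nd (nat_lit 5) (.nd (nat_lit 6) 
(.lf (nat_lit 195977) (.g (nat_lit 1261) (.e (nat_lit 65627) (nat_lit 13) (.e (nat_lit 393301) (nat_lit 27) (.e (nat_lit 491560) (nat_lit 10) (.e (nat_lit 344097) (nat_lit 18) .nil)))) .nil)) 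
(.lf (nat_lit 196041) (.g (nat_lit 2868) (.e (nat_lit 65628) (nat_lit 14) (.e (nat_lit 401428) (nat_lit 3) (.e (nat_lit 204869) (nat_lit 29) (.e (nat_lit 360456) (nat_lit 0) (.e (nat_lit 3962) (nat_lit 239) .nil))))) .nil))) (.nd (nat_lit 6) 
(.lf (nat_lit 196009) (.g (nat_lit 417) (.e (nat_lit 65628) (nat_lit 14) (.e (nat_lit 401425) (nat_lit 2) (.e (nat_lit 196668) (nat_lit 14) .nil))) .nil)) 
(.lf (nat_lit 196073) (.g (nat_lit 426) (.e (nat_lit 65628) (nat_lit 14) (.e (nat_lit 401437) (nat_lit 9) (.e (nat_lit 426482) (nat_lit 27) .nil))) .nil)))) (.nd (nat_lit 5) (.nd (nat_lit 6) 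
(.lf (nat_lit 195993) (.g (nat_lit 3016) (.e (nat_lit 65627) (nat_lit 13) (.e (nat_lit 393301) (nat_lit 27) (.e (nat_lit 491563) (nat_lit 12) (.e (nat_lit 385048) (nat_lit 21) .nil)))) .nil)) 
(.lf (nat_lit 196057) (.g (nat_lit 2990) (.e (nat_lit 65628) (nat_lit 14) (.e (nat_lit 401436) (nat_lit 9) (.e (nat_lit 426542) (nat_lit 29) (.e (nat_lit 352307) (nat_lit 21) (.e (nat_lit 57872) (nat_lit 264) (.e (nat_lit 1190) (nat_lit 88) .nil)))))) (.g (nat_lit 0) .nil .nil)))) (.nd (nat_lit 6) 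
(.lf (nat_lit 196025) (.g (nat_lit 3011) (.e (nat_lit 65628) (nat_lit 14) (.e (nat_lit 401428) (nat_lit 3) (.e (nat_lit 204869) (nat_lit 29) (.e (nat_lit 360448) (nat_lit 0) (.e (nat_lit 3975) (nat_lit 239) (.e (nat_lit 1190) (nat_lit 88) .nil)))))) (.g (nat_lit 4) .nil .nil))) 
(.lf (nat_lit 196089) (.g (nat_lit 2378) (.e (nat_lit 65628) (nat_lit 14) (.e (nat_lit 401437) (nat_lit 9) (.e (nat_lit 426540) (nat_lit 29) (.e (nat_lit 352258) (nat_lit 0) (.e (nat_lit 3716) (nat_lit 227) (.e (nat_lit 786176) (nat_lit 4) .nil)))))) (.g (nat_lit 4) .nil .nil))))))) (.nd (nat_lit 3) (.nd (nat_lit 4) (.nd (nat_lit 5) (.nd (nat_lit 6) 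
(.lf (nat_lit 195973) (.g (nat_lit 1177) (.e (nat_lit 65627) (nat_lit 13) (.e (nat_lit 393301) (nat_lit 27) (.e (nat_lit 491560) (nat_lit 10) (.e (nat_lit 344094) (nat_lit 18) .nil)))) .nil)) 
(.lf (nat_lit 196037) (.g (nat_lit 2839) (.e (nat_lit 65628) (nat_lit 14) (.e (nat_lit 401428) (nat_lit 3) (.e (nat_lit 204869) (nat_lit 29) (.e (nat_lit 360454) (nat_lit 0) (.e (nat_lit 3982) (nat_lit 239) .nil))))) .nil))) (.nd (nat_lit 6) 
(.lf (nat_lit 196005) (.g (nat_lit 584) (.e (nat_lit 65628) (nat_lit 14) (.e (nat_lit 401425) (nat_lit 2) (.e (nat_lit 196665) (nat_lit 13) .nil))) .nil)) 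
(.lf (nat_lit 196069) (.g (nat_lit 2702) (.e (nat_lit 65628) (nat_lit 14) (.e (nat_lit 401436) (nat_lit 9) (.e (nat_lit 426555) (nat_lit 32) (.e (nat_lit 376859) (nat_lit 21) (.e (nat_lit 57870) (nat_lit 264) (.e (nat_lit 1189) (nat_lit 88) .nil)))))) (.g (nat_lit 6) .nil .nil))))) (.nd (nat_lit 5) (.nd (nat_lit 6) 
(.lf (nat_lit 195989) (.g (nat_lit 2448) (.e (nat_lit 65627) (nat_lit 13) (.e (nat_lit 393301) (nat_lit 27) (.e (nat_lit 491563) (nat_lit 12) (.e (nat_lit 385043) (nat_lit 21) .nil)))) .nil)) 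
(.lf (nat_lit 196053) (.g (nat_lit 2156) (.e (nat_lit 65628) (nat_lit 14) (.e (nat_lit 401436) (nat_lit 9) (.e (nat_lit 426542) (nat_lit 29) (.e (nat_lit 352297) (nat_lit 20) (.e (nat_lit 2003) (nat_lit 138) (.e (nat_lit 671762) (nat_lit 4) .nil)))))) (.g (nat_lit 0) .nil .nil)))) (.nd (nat_lit 6) 
(.lf (nat_lit 196021) (.g (nat_lit 1797) (.e (nat_lit 65628) (nat_lit 14) (.e (nat_lit 401428) (nat_lit 3) (.e (nat_lit 204866) (nat_lit 28) (.e (nat_lit 352318) (nat_lit 24) (.e (nat_lit 123043) (nat_lit 140) .nil))))) .nil)) 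
(.lf (nat_lit 196085) (.g (nat_lit 3884) (.e (nat_lit 65628) (nat_lit 14) (.e (nat_lit 401437) (nat_lit 9) (.e (nat_lit 426538) (nat_lit 29) (.e (nat_lit 352318) (nat_lit 24) (.e (nat_lit 123182) (nat_lit 264) (.e (nat_lit 1201) (nat_lit 88) .nil)))))) (.g (nat_lit 0) .nil .nil)))))) (.nd (nat_lit 4) (.nd (nat_lit 5) (.nd (nat_lit 6) 
(.lf (nat_lit 195981) (.g (nat_lit 2205) (.e (nat_lit 65627) (nat_lit 13) (.e (nat_lit 393301) (nat_lit 27) (.e (nat_lit 491560) (nat_lit 10) (.e (nat_lit 344097) (nat_lit 18) (.e (nat_lit 7225) (nat_lit 382) .nil))))) .nil)) 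
(.lf (nat_lit 196045) (.g (nat_lit 2928) (.e (nat_lit 65628) (nat_lit 14) (.e (nat_lit 401428) (nat_lit 3) (.e (nat_lit 204869) (nat_lit 29) (.e (nat_lit 360457) (nat_lit 0) (.e (nat_lit 3962) (nat_lit 239) .nil))))) .nil))) (.nd (nat_lit 6) 
(.lf (nat_lit 196013) (.g (nat_lit 451) (.e (nat_lit 65628) (nat_lit 14) (.e (nat_lit 401425) (nat_lit 2) (.e (nat_lit 196672) (nat_lit 15) .nil))) .nil)) 
(.lf (nat_lit 196077) (.g (nat_lit 2161) (.e (nat_lit 65628) (nat_lit 14) (.e (nat_lit 401437) (nat_lit 9) (.e (nat_lit 426509) (nat_lit 27) (.e (nat_lit 336110) (nat_lit 9) (.e (nat_lit 335907) (nat_lit 0) (.e (nat_lit 1996) (nat_lit 137) (.e (nat_lit 663567) (nat_lit 4) .nil))))))) (.g (nat_lit 5) .nil .nil))))) (.nd (nat_lit 5) (.nd (nat_lit 6) 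
(.lf (nat_lit 195997) (.g (nat_lit 2419) (.e (nat_lit 65627) (nat_lit 13) (.e (nat_lit 393301) (nat_lit 27) (.e (nat_lit 491563) (nat_lit 12) (.e (nat_lit 385077) (nat_lit 34) .nil)))) .nil)) 
(.lf (nat_lit 196061) (.g (nat_lit 2622) (.e (nat_lit 65628) (nat_lit 14) (.e (nat_lit 401436) (nat_lit 9) (.e (nat_lit 426542) (nat_lit 29) (.e (nat_lit 352309) (nat_lit 21) (.e (nat_lit 57870) (nat_lit 264) (.e (nat_lit 1190) (nat_lit 88) .nil)))))) (.g (nat_lit 0) .nil .nil)))) (.nd (nat_lit 6) 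
(.lf (nat_lit 196029) (.g (nat_lit 3735) (.e (nat_lit 65628) (nat_lit 14) (.e (nat_lit 401428) (nat_lit 3) (.e (nat_lit 204869) (nat_lit 29) (.e (nat_lit 360450) (nat_lit 0) (.e (nat_lit 3957) (nat_lit 239) .nil))))) .nil)) 
(.lf (nat_lit 196093) (.g (nat_lit 1600) (.e (nat_lit 65628) (nat_lit 14) (.e (nat_lit 401437) (nat_lit 9) (.e (nat_lit 426540) (nat_lit 29) (.e (nat_lit 352307) (nat_lit 21) .nil)))) .nil))))))) (.nd (nat_lit 2) (.nd (nat_lit 3) (.nd (nat_lit 4) (.nd (nat_lit 5) (.nd (nat_lit 6) 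
(.lf (nat_lit 195971) (.g (nat_lit 2405) (.e (nat_lit 65627) (nat_lit 13) (.e (nat_lit 393301) (nat_lit 27) (.e (nat_lit 491560) (nat_lit 10) (.e (nat_lit 344092) (nat_lit 18) .nil)))) .nil)) 
(.lf (nat_lit 196035) (.g (nat_lit 3884) (.e (nat_lit 65628) (nat_lit 14) (.e (nat_lit 401428) (nat_lit 3) (.e (nat_lit 204869) (nat_lit 29) (.e (nat_lit 360451) (nat_lit 0) (.e (nat_lit 3982) (nat_lit 239) (.e (nat_lit 1196) (nat_lit 88) .nil)))))) (.g (nat_lit 4) .nil .nil)))) (.nd (nat_lit 6) 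
(.lf (nat_lit 196003) (.g (nat_lit 2991) (.e (nat_lit 65628) (nat_lit 14) (.e (nat_lit 401425) (nat_lit 2) (.e (nat_lit 196662) (nat_lit 13) (.e (nat_lit 65630) (nat_lit 14) (.e (nat_lit 401425) (nat_lit 2) (.e (nat_lit 196666) (nat_lit 13) .nil)))))) (.g (nat_lit 4) .nil .nil))) 
(.lf (nat_lit 196067) (.g (nat_lit 2383) (.e (nat_lit 65628) (nat_lit 14) (.e (nat_lit 401436) (nat_lit 9) (.e (nat_lit 426546) (nat_lit 30) (.e (nat_lit 360486) (nat_lit 18) (.e (nat_lit 671762) (nat_lit 4) .nil))))) (.g (nat_lit 0) .nil .nil))))) (.nd (nat_lit 5) (.nd (nat_lit 6) 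
(.lf (nat_lit 195987) (.g (nat_lit 2259) (.e (nat_lit 65627) (nat_lit 13) (.e (nat_lit 393301) (nat_lit 27) (.e (nat_lit 491560) (nat_lit 10) (.e (nat_lit 344177) (nat_lit 43) (.e (nat_lit 770070) (nat_lit 8) .nil))))) .nil)) 
(.lf (nat_lit 196051) (.g (nat_lit 862) (.e (nat_lit 65628) (nat_lit 14) (.e (nat_lit 401436) (nat_lit 9) (.e (nat_lit 426542) (nat_lit 29) (.e (nat_lit 352290) (nat_lit 20) (.e (nat_lit 1023) (nat_lit 81) .nil))))) .nil))) (.nd (nat_lit 6) 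
(.lf (nat_lit 196019) (.g (nat_lit 2497) (.e (nat_lit 65628) (nat_lit 14) (.e (nat_lit 401428) (nat_lit 3) (.e (nat_lit 204866) (nat_lit 28) (.e (nat_lit 352318) (nat_lit 24) (.e (nat_lit 123040) (nat_lit 140) (.e (nat_lit 1190) (nat_lit 88) .nil)))))) (.g (nat_lit 4) .nil .nil))) 
(.lf (nat_lit 196083) (.g (nat_lit 1606) (.e (nat_lit 65628) (nat_lit 14) (.e (nat_lit 401437) (nat_lit 9) (.e (nat_lit 426538) (nat_lit 29) (.e (nat_lit 352307) (nat_lit 21) (.e (nat_lit 57873) (nat_lit 264) .nil))))) .nil))))) (.nd (nat_lit 4) (.nd (nat_lit 5) (.nd (nat_lit 6) 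
(.lf (nat_lit 195979) (.g (nat_lit 3051) (.e (nat_lit 65627) (nat_lit 13) (.e (nat_lit 393301) (nat_lit 27) (.e (nat_lit 491560) (nat_lit 10) (.e (nat_lit 344097) (nat_lit 18) (.e (nat_lit 7160) (nat_lit 382) (.e (nat_lit 1202) (nat_lit 88) .nil)))))) (.g (nat_lit 4) .nil .nil))) 
(.lf (nat_lit 196043) (.g (nat_lit 3593) (.e (nat_lit 65628) (nat_lit 14) (.e (nat_lit 401428) (nat_lit 3) (.e (nat_lit 204869) (nat_lit 29) (.e (nat_lit 360456) (nat_lit 0) (.e (nat_lit 3962) (nat_lit 239) (.e (nat_lit 1200) (nat_lit 88) .nil)))))) (.g (nat_lit 4) .nil .nil)))) (.nd (nat_lit 6) 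
(.lf (nat_lit 196011) (.g (nat_lit 1216) (.e (nat_lit 65628) (nat_lit 14) (.e (nat_lit 401425) (nat_lit 2) (.e (nat_lit 196670) (nat_lit 14) (.e (nat_lit 81664) (nat_lit 45) .nil)))) .nil)) 
(.lf (nat_lit 196075) (.g (nat_lit 3138) (.e (nat_lit 65628) (nat_lit 14) (.e (nat_lit 401437) (nat_lit 9) (.e (nat_lit 426489) (nat_lit 27) (.e (nat_lit 336157) (nat_lit 9) (.e (nat_lit 335995) (nat_lit 1) (.e (nat_lit 57872) (nat_lit 264) (.e (nat_lit 1190) (nat_lit 88) .nil))))))) (.g (nat_lit 5) .nil .nil))))) (.nd (nat_lit 5) (.nd (nat_lit 6) 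
(.lf (nat_lit 195995) (.g (nat_lit 3016) (.e (nat_lit 65627) (nat_lit 13) (.e (nat_lit 393301) (nat_lit 27) (.e (nat_lit 491563) (nat_lit 12) (.e (nat_lit 385051) (nat_lit 21) .nil)))) .nil)) 
(.lf (nat_lit 196059) (.g (nat_lit 3450) (.e (nat_lit 65628) (nat_lit 14) (.e (nat_lit 401436) (nat_lit 9) (.e (nat_lit 426542) (nat_lit 29) (.e (nat_lit 352307) (nat_lit 21) (.e (nat_lit 57873) (nat_lit 264) (.e (nat_lit 1190) (nat_lit 88) .nil)))))) (.g (nat_lit 0) .nil .nil)))) (.nd (nat_lit 6) 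
(.lf (nat_lit 196027) (.g (nat_lit 3811) (.e (nat_lit 65628) (nat_lit 14) (.e (nat_lit 401428) (nat_lit 3) (.e (nat_lit 204869) (nat_lit 29) (.e (nat_lit 360450) (nat_lit 0) (.e (nat_lit 3950) (nat_lit 239) (.e (nat_lit 1196) (nat_lit 88) .nil)))))) (.g (nat_lit 4) .nil .nil))) 
(.lf (nat_lit 196091) (.g (nat_lit 1274) (.e (nat_lit 65628) (nat_lit 14) (.e (nat_lit 401437) (nat_lit 9) (.e (nat_lit 426540) (nat_lit 29) (.e (nat_lit 352262) (nat_lit 0) .nil)))) .nil)))))) (.nd (nat_lit 3) (.nd (nat_lit 4) (.nd (nat_lit 5) (.nd (nat_lit 6) 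
(.lf (nat_lit 195975) (.g (nat_lit 2297) (.e (nat_lit 65627) (nat_lit 13) (.e (nat_lit 393301) (nat_lit 27) (.e (nat_lit 491560) (nat_lit 10) (.e (nat_lit 344095) (nat_lit 18) .nil)))) .nil)) 
(.lf (nat_lit 196039) (.g (nat_lit 3251) (.e (nat_lit 65628) (nat_lit 14) (.e (nat_lit 401428) (nat_lit 3) (.e (nat_lit 204869) (nat_lit 29) (.e (nat_lit 360455) (nat_lit 0) (.e (nat_lit 3962) (nat_lit 239) (.e (nat_lit 1190) (nat_lit 88) .nil)))))) (.g (nat_lit 4) .nil .nil)))) (.nd (nat_lit 6) 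
(.lf (nat_lit 196007) (.g (nat_lit 1906) (.e (nat_lit 65628) (nat_lit 14) (.e (nat_lit 401425) (nat_lit 2) (.e (nat_lit 196666) (nat_lit 13) (.e (nat_lit 65540) (nat_lit 0) .nil)))) .nil)) 
(.lf (nat_lit 196071) (.g (nat_lit 2166) (.e (nat_lit 65628) (nat_lit 14) (.e (nat_lit 401436) (nat_lit 9) (.e (nat_lit 426555) (nat_lit 32) (.e (nat_lit 376859) (nat_lit 21) (.e (nat_lit 57871) (nat_lit 264) (.e (nat_lit 1200) (nat_lit 88) .nil)))))) (.g (nat_lit 4) .nil .nil))))) (.nd (nat_lit 5) (.nd (nat_lit 6) 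
(.lf (nat_lit 195991) (.g (nat_lit 2583) (.e (nat_lit 65627) (nat_lit 13) (.e (nat_lit 393301) (nat_lit 27) (.e (nat_lit 491563) (nat_lit 12) (.e (nat_lit 385045) (nat_lit 21) .nil)))) .nil)) 
(.lf (nat_lit 196055) (.g (nat_lit 2645) (.e (nat_lit 65628) (nat_lit 14) (.e (nat_lit 401436) (nat_lit 9) (.e (nat_lit 426542) (nat_lit 29) (.e (nat_lit 352307) (nat_lit 21) (.e (nat_lit 57870) (nat_lit 264) (.e (nat_lit 1200) (nat_lit 88) .nil)))))) (.g (nat_lit 0) .nil .nil)))) (.nd (nat_lit 6) 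
(.lf (nat_lit 196023) (.g (nat_lit 1314) (.e (nat_lit 65628) (nat_lit 14) (.e (nat_lit 401428) (nat_lit 3) (.e (nat_lit 204869) (nat_lit 29) (.e (nat_lit 360448) (nat_lit 0) .nil)))) .nil)) 
(.lf (nat_lit 196087) (.g (nat_lit 662) (.e (nat_lit 65628) (nat_lit 14) (.e (nat_lit 401437) (nat_lit 9) (.e (nat_lit 426539) (nat_lit 29) .nil))) .nil))))) (.nd (nat_lit 4) (.nd (nat_lit 5) (.nd (nat_lit 6) 
(.lf (nat_lit 195983) (.g (nat_lit 2389) (.e (nat_lit 65627) (nat_lit 13) (.e (nat_lit 393301) (nat_lit 27) (.e (nat_lit 491560) (nat_lit 10) (.e (nat_lit 344101) (nat_lit 18) .nil)))) .nil)) 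
(.lf (nat_lit 196047) (.g (nat_lit 2157) (.e (nat_lit 65628) (nat_lit 14) (.e (nat_lit 401428) (nat_lit 3) (.e (nat_lit 204869) (nat_lit 29) (.e (nat_lit 360471) (nat_lit 7) (.e (nat_lit 548888) (nat_lit 9) .nil))))) (.g (nat_lit 4) .nil .nil)))) (.nd (nat_lit 6) 
(.lf (nat_lit 196015) (.g (nat_lit 2045) (.e (nat_lit 65628) (nat_lit 14) (.e (nat_lit 401425) (nat_lit 2) (.e (nat_lit 196681) (nat_lit 17) (.e (nat_lit 131102) (nat_lit 7) .nil)))) .nil)) 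
(.lf (nat_lit 196079) (.g (nat_lit 1582) (.e (nat_lit 65628) (nat_lit 14) (.e (nat_lit 401437) (nat_lit 9) (.e (nat_lit 426530) (nat_lit 27) (.e (nat_lit 336118) (nat_lit 9) (.e (nat_lit 336331) (nat_lit 19) .nil))))) .nil)))) (.nd (nat_lit 5) (.nd (nat_lit 6) 
(.lf (nat_lit 195999) (.g (nat_lit 698) (.e (nat_lit 65628) (nat_lit 14) (.e (nat_lit 401425) (nat_lit 2) (.e (nat_lit 196622) (nat_lit 9) .nil))) .nil)) 
(.lf (nat_lit 196063) (.g (nat_lit 3006) (.e (nat_lit 65628) (nat_lit 14) (.e (nat_lit 401436) (nat_lit 9) (.e (nat_lit 426542) (nat_lit 29) (.e (nat_lit 352309) (nat_lit 21) (.e (nat_lit 57872) (nat_lit 264) (.e (nat_lit 1190) (nat_lit 88) .nil)))))) (.g (nat_lit 0) .nil .nil)))) (.nd (nat_lit 6) 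
(.lf (nat_lit 196031) (.g (nat_lit 3778) (.e (nat_lit 65628) (nat_lit 14) (.e (nat_lit 401428) (nat_lit 3) (.e (nat_lit 204869) (nat_lit 29) (.e (nat_lit 360451) (nat_lit 0) (.e (nat_lit 3950) (nat_lit 239) (.e (nat_lit 1197) (nat_lit 88) .nil)))))) (.g (nat_lit 4) .nil .nil))) 
(.lf (nat_lit 196095) (.g (nat_lit 344) (.e (nat_lit 65628) (nat_lit 14) (.e (nat_lit 401437) (nat_lit 9) (.e (nat_lit 426542) (nat_lit 29) .nil))) .nil)))))))))

noncomputable def tv2595 : DT := (.nd (nat_lit 0) (.nd (nat_lit 1) (.nd (nat_lit 2) (.nd (nat_lit 3) (.nd (nat_lit 4) (.nd (nat_lit 5) 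
(.lf (nat_lit 196096) (.g (nat_lit 1463) (.e (nat_lit 65628) (nat_lit 14) (.e (nat_lit 401437) (nat_lit 9) (.e (nat_lit 426542) (nat_lit 29) (.e (nat_lit 352263) (nat_lit 0) .nil)))) .nil)) 
(.lf (nat_lit 196128) (.g (nat_lit 2372) (.e (nat_lit 65628) (nat_lit 14) (.e (nat_lit 401437) (nat_lit 9) (.e (nat_lit 426544) (nat_lit 30) (.e (nat_lit 360453) (nat_lit 0) (.e (nat_lit 5905) (nat_lit 320) (.e (nat_lit 1189) (nat_lit 88) .nil)))))) (.g (nat_lit 4) .nil .nil)))) (.nd (nat_lit 5) 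
(.lf (nat_lit 196112) (.g (nat_lit 3066) (.e (nat_lit 65628) (nat_lit 14) (.e (nat_lit 401437) (nat_lit 9) (.e (nat_lit 426542) (nat_lit 29) (.e (nat_lit 352309) (nat_lit 21) (.e (nat_lit 57870) (nat_lit 264) (.e (nat_lit 1189) (nat_lit 88) .nil)))))) (.g (nat_lit 0) .nil .nil))) 
(.lf (nat_lit 196144) (.g (nat_lit 1990) (.e (nat_lit 65628) (nat_lit 14) (.e (nat_lit 401437) (nat_lit 9) (.e (nat_lit 426555) (nat_lit 32) (.e (nat_lit 376836) (nat_lit 0) .nil)))) .nil)))) (.nd (nat_lit 4) (.nd (nat_lit 5) 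
(.lf (nat_lit 196104) (.g (nat_lit 2849) (.e (nat_lit 65628) (nat_lit 14) (.e (nat_lit 401437) (nat_lit 9) (.e (nat_lit 426542) (nat_lit 29) (.e (nat_lit 352297) (nat_lit 20) (.e (nat_lit 2003) (nat_lit 138) (.e (nat_lit 671762) (nat_lit 4) .nil)))))) (.g (nat_lit 0) .nil .nil))) 
(.lf (nat_lit 196136) (.g (nat_lit 1908) (.e (nat_lit 65628) (nat_lit 14) (.e (nat_lit 401437) (nat_lit 9) (.e (nat_lit 426546) (nat_lit 30) (.e (nat_lit 360449) (nat_lit 0) (.e (nat_lit 5896) (nat_lit 320) .nil))))) .nil))) (.nd (nat_lit 5) 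
(.lf (nat_lit 196120) (.g (nat_lit 3101) (.e (nat_lit 65628) (nat_lit 14) (.e (nat_lit 401437) (nat_lit 9) (.e (nat_lit 426542) (nat_lit 29) (.e (nat_lit 352316) (nat_lit 24) (.e (nat_lit 123185) (nat_lit 264) (.e (nat_lit 1201) (nat_lit 88) .nil)))))) (.g (nat_lit 0) .nil .nil))) 
(.lf (nat_lit 196152) (.g (nat_lit 1990) (.e (nat_lit 65628) (nat_lit 14) (.e (nat_lit 401437) (nat_lit 9) (.e (nat_lit 426555) (nat_lit 32) (.e (nat_lit 376858) (nat_lit 21) .nil)))) .nil))))) (.nd (nat_lit 3) (.nd (nat_lit 4) (.nd (nat_lit 5) 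
(.lf (nat_lit 196100) (.g (nat_lit 1054) (.e (nat_lit 65628) (nat_lit 14) (.e (nat_lit 401437) (nat_lit 9) (.e (nat_lit 426542) (nat_lit 29) (.e (nat_lit 352290) (nat_lit 20) .nil)))) .nil)) 
(.lf (nat_lit 196132) (.g (nat_lit 2965) (.e (nat_lit 65628) (nat_lit 14) (.e (nat_lit 401437) (nat_lit 9) (.e (nat_lit 426544) (nat_lit 30) (.e (nat_lit 360486) (nat_lit 18) (.e (nat_lit 671760) (nat_lit 4) .nil))))) (.g (nat_lit 5) .nil .nil)))) (.nd (nat_lit 5) 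
(.lf (nat_lit 196116) (.g (nat_lit 3520) (.e (nat_lit 65628) (nat_lit 14) (.e (nat_lit 401437) (nat_lit 9) (.e (nat_lit 426542) (nat_lit 29) (.e (nat_lit 352309) (nat_lit 21) (.e (nat_lit 57873) (nat_lit 264) (.e (nat_lit 1199) (nat_lit 88) .nil)))))) (.g (nat_lit 0) .nil .nil))) 
(.lf (nat_lit 196148) (.g (nat_lit 1992) (.e (nat_lit 65628) (nat_lit 14) (.e (nat_lit 401437) (nat_lit 9) (.e (nat_lit 426555) (nat_lit 32) (.e (nat_lit 376857) (nat_lit 21) (.e (nat_lit 57871) (nat_lit 264) .nil))))) .nil)))) (.nd (nat_lit 4) (.nd (nat_lit 5) 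
(.lf (nat_lit 196108) (.g (nat_lit 3334) (.e (nat_lit 65628) (nat_lit 14) (.e (nat_lit 401437) (nat_lit 9) (.e (nat_lit 426542) (nat_lit 29) (.e (nat_lit 352307) (nat_lit 21) (.e (nat_lit 57871) (nat_lit 264) (.e (nat_lit 1189) (nat_lit 88) .nil)))))) (.g (nat_lit 0) .nil .nil))) 
(.lf (nat_lit 196140) (.g (nat_lit 1443) (.e (nat_lit 65628) (nat_lit 14) (.e (nat_lit 401437) (nat_lit 9) (.e (nat_lit 426546) (nat_lit 30) (.e (nat_lit 360454) (nat_lit 0) .nil)))) .nil))) (.nd (nat_lit 5) 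
(.lf (nat_lit 196124) (.g (nat_lit 415) (.e (nat_lit 65628) (nat_lit 14) (.e (nat_lit 401437) (nat_lit 9) (.e (nat_lit 426544) (nat_lit 30) .nil))) .nil)) 
(.lf (nat_lit 196156) (.g (nat_lit 3259) (.e (nat_lit 65628) (nat_lit 14) (.e (nat_lit 401437) (nat_lit 9) (.e (nat_lit 426555) (nat_lit 32) (.e (nat_lit 376870) (nat_lit 24) (.e (nat_lit 123182) (nat_lit 264) (.e (nat_lit 1193) (nat_lit 88) .nil)))))) (.g (nat_lit 5) .nil .nil))))))) (.nd (nat_lit 2) (.nd (nat_lit 3) (.nd (nat_lit 4) (.nd (nat_lit 5) 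
(.lf (nat_lit 196098) (.g (nat_lit 2343) (.e (nat_lit 65628) (nat_lit 14) (.e (nat_lit 401437) (nat_lit 9) (.e (nat_lit 426542) (nat_lit 29) (.e (nat_lit 352264) (nat_lit 0) (.e (nat_lit 3715) (nat_lit 227) (.e (nat_lit 786176) (nat_lit 4) .nil)))))) (.g (nat_lit 5) .nil .nil))) 
(.lf (nat_lit 196130) (.g (nat_lit 893) (.e (nat_lit 65628) (nat_lit 14) (.e (nat_lit 401437) (nat_lit 9) (.e (nat_lit 426544) (nat_lit 30) (.e (nat_lit 360457) (nat_lit 0) .nil)))) .nil))) (.nd (nat_lit 5) 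
(.lf (nat_lit 196114) (.g (nat_lit 3669) (.e (nat_lit 65628) (nat_lit 14) (.e (nat_lit 401437) (nat_lit 9) (.e (nat_lit 426542) (nat_lit 29) (.e (nat_lit 352309) (nat_lit 21) (.e (nat_lit 57872) (nat_lit 264) (.e (nat_lit 1190) (nat_lit 88) .nil)))))) (.g (nat_lit 0) .nil .nil))) 
(.lf (nat_lit 196146) (.g (nat_lit 1936) (.e (nat_lit 65628) (nat_lit 14) (.e (nat_lit 401437) (nat_lit 9) (.e (nat_lit 426555) (nat_lit 32) (.e (nat_lit 376847) (nat_lit 20) .nil)))) .nil)))) (.nd (nat_lit 4) (.nd (nat_lit 5) 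
(.lf (nat_lit 196106) (.g (nat_lit 3143) (.e (nat_lit 65628) (nat_lit 14) (.e (nat_lit 401437) (nat_lit 9) (.e (nat_lit 426542) (nat_lit 29) (.e (nat_lit 352307) (nat_lit 21) (.e (nat_lit 57870) (nat_lit 264) (.e (nat_lit 1189) (nat_lit 88) .nil)))))) (.g (nat_lit 0) .nil .nil))) 
(.lf (nat_lit 196138) (.g (nat_lit 3444) (.e (nat_lit 65628) (nat_lit 14) (.e (nat_lit 401437) (nat_lit 9) (.e (nat_lit 426546) (nat_lit 30) (.e (nat_lit 360452) (nat_lit 0) (.e (nat_lit 5907) (nat_lit 320) (.e (nat_lit 1199) (nat_lit 88) .nil)))))) (.g (nat_lit 0) .nil .nil)))) (.nd (nat_lit 5) 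
(.lf (nat_lit 196122) (.g (nat_lit 4206) (.e (nat_lit 65628) (nat_lit 14) (.e (nat_lit 401437) (nat_lit 9) (.e (nat_lit 426542) (nat_lit 29) (.e (nat_lit 352318) (nat_lit 24) (.e (nat_lit 123182) (nat_lit 264) (.e (nat_lit 1201) (nat_lit 88) .nil)))))) (.g (nat_lit 6) .nil .nil))) 
(.lf (nat_lit 196154) (.g (nat_lit 2261) (.e (nat_lit 65628) (nat_lit 14) (.e (nat_lit 401437) (nat_lit 9) (.e (nat_lit 426555) (nat_lit 32) (.e (nat_lit 376859) (nat_lit 21) (.e (nat_lit 57873) (nat_lit 264) (.e (nat_lit 1189) (nat_lit 88) .nil)))))) (.g (nat_lit 4) .nil .nil)))))) (.nd (nat_lit 3) (.nd (nat_lit 4) (.nd (nat_lit 5) 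
(.lf (nat_lit 196102) (.g (nat_lit 2847) (.e (nat_lit 65628) (nat_lit 14) (.e (nat_lit 401437) (nat_lit 9) (.e (nat_lit 426542) (nat_lit 29) (.e (nat_lit 352290) (nat_lit 20) (.e (nat_lit 2003) (nat_lit 138) (.e (nat_lit 671762) (nat_lit 4) .nil)))))) (.g (nat_lit 0) .nil .nil))) 
(.lf (nat_lit 196134) (.g (nat_lit 1414) (.e (nat_lit 65628) (nat_lit 14) (.e (nat_lit 401437) (nat_lit 9) (.e (nat_lit 426546) (nat_lit 30) (.e (nat_lit 360448) (nat_lit 0) .nil)))) .nil))) (.nd (nat_lit 5) 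
(.lf (nat_lit 196118) (.g (nat_lit 4179) (.e (nat_lit 65628) (nat_lit 14) (.e (nat_lit 401437) (nat_lit 9) (.e (nat_lit 426542) (nat_lit 29) (.e (nat_lit 352316) (nat_lit 24) (.e (nat_lit 123182) (nat_lit 264) (.e (nat_lit 1193) (nat_lit 88) .nil)))))) (.g (nat_lit 6) .nil .nil))) 
(.lf (nat_lit 196150) (.g (nat_lit 2375) (.e (nat_lit 65628) (nat_lit 14) (.e (nat_lit 401437) (nat_lit 9) (.e (nat_lit 426555) (nat_lit 32) (.e (nat_lit 376857) (nat_lit 21) (.e (nat_lit 57873) (nat_lit 264) (.e (nat_lit 1189) (nat_lit 88) .nil)))))) (.g (nat_lit 4) .nil .nil))))) (.nd (nat_lit 4) (.nd (nat_lit 5) 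
(.lf (nat_lit 196110) (.g (nat_lit 4126) (.e (nat_lit 65628) (nat_lit 14) (.e (nat_lit 401437) (nat_lit 9) (.e (nat_lit 426542) (nat_lit 29) (.e (nat_lit 352307) (nat_lit 21) (.e (nat_lit 57873) (nat_lit 264) (.e (nat_lit 1190) (nat_lit 88) .nil)))))) (.g (nat_lit 0) .nil .nil))) 
(.lf (nat_lit 196142) (.g (nat_lit 3251) (.e (nat_lit 65628) (nat_lit 14) (.e (nat_lit 401437) (nat_lit 9) (.e (nat_lit 426546) (nat_lit 30) (.e (nat_lit 360486) (nat_lit 18) (.e (nat_lit 671760) (nat_lit 4) .nil))))) (.g (nat_lit 5) .nil .nil)))) (.nd (nat_lit 5) 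
(.lf (nat_lit 196126) (.g (nat_lit 1327) (.e (nat_lit 65628) (nat_lit 14) (.e (nat_lit 401437) (nat_lit 9) (.e (nat_lit 426544) (nat_lit 30) (.e (nat_lit 360452) (nat_lit 0) .nil)))) .nil)) 
(.lf (nat_lit 196158) (.g (nat_lit 1840) (.e (nat_lit 65628) (nat_lit 14) (.e (nat_lit 401438) (nat_lit 9) (.e (nat_lit 426482) (nat_lit 27) (.e (nat_lit 336092) (nat_lit 9) (.e (nat_lit 335907) (nat_lit 0) .nil))))) .nil))))))) (.nd (nat_lit 1) (.nd (nat_lit 2) (.nd (nat_lit 3) (.nd (nat_lit 4) (.nd (nat_lit 5) 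
(.lf (nat_lit 196097) (.g (nat_lit 2517) (.e (nat_lit 65628) (nat_lit 14) (.e (nat_lit 401437) (nat_lit 9) (.e (nat_lit 426542) (nat_lit 29) (.e (nat_lit 352264) (nat_lit 0) (.e (nat_lit 3714) (nat_lit 227) (.e (nat_lit 786176) (nat_lit 4) .nil)))))) (.g (nat_lit 5) .nil .nil))) 
(.lf (nat_lit 196129) (.g (nat_lit 3355) (.e (nat_lit 65628) (nat_lit 14) (.e (nat_lit 401437) (nat_lit 9) (.e (nat_lit 426544) (nat_lit 30) (.e (nat_lit 360453) (nat_lit 0) (.e (nat_lit 5907) (nat_lit 320) (.e (nat_lit 1199) (nat_lit 88) .nil)))))) (.g (nat_lit 0) .nil .nil)))) (.nd (nat_lit 5) 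
(.lf (nat_lit 196113) (.g (nat_lit 3289) (.e (nat_lit 65628) (nat_lit 14) (.e (nat_lit 401437) (nat_lit 9) (.e (nat_lit 426542) (nat_lit 29) (.e (nat_lit 352309) (nat_lit 21) (.e (nat_lit 57870) (nat_lit 264) (.e (nat_lit 1190) (nat_lit 88) .nil)))))) (.g (nat_lit 0) .nil .nil))) 
(.lf (nat_lit 196145) (.g (nat_lit 1827) (.e (nat_lit 65628) (nat_lit 14) (.e (nat_lit 401437) (nat_lit 9) (.e (nat_lit 426555) (nat_lit 32) (.e (nat_lit 376844) (nat_lit 20) .nil)))) .nil)))) (.nd (nat_lit 4) (.nd (nat_lit 5) 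
(.lf (nat_lit 196105) (.g (nat_lit 1019) (.e (nat_lit 65628) (nat_lit 14) (.e (nat_lit 401437) (nat_lit 9) (.e (nat_lit 426542) (nat_lit 29) (.e (nat_lit 352307) (nat_lit 21) .nil)))) .nil)) 
(.lf (nat_lit 196137) (.g (nat_lit 2756) (.e (nat_lit 65628) (nat_lit 14) (.e (nat_lit 401437) (nat_lit 9) (.e (nat_lit 426546) (nat_lit 30) (.e (nat_lit 360452) (nat_lit 0) (.e (nat_lit 5906) (nat_lit 320) (.e (nat_lit 1200) (nat_lit 88) .nil)))))) (.g (nat_lit 5) .nil .nil)))) (.nd (nat_lit 5) 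
(.lf (nat_lit 196121) (.g (nat_lit 3458) (.e (nat_lit 65628) (nat_lit 14) (.e (nat_lit 401437) (nat_lit 9) (.e (nat_lit 426542) (nat_lit 29) (.e (nat_lit 352317) (nat_lit 24) (.e (nat_lit 123182) (nat_lit 264) (.e (nat_lit 1193) (nat_lit 88) .nil)))))) (.g (nat_lit 5) .nil .nil))) 
(.lf (nat_lit 196153) (.g (nat_lit 2362) (.e (nat_lit 65628) (nat_lit 14) (.e (nat_lit 401437) (nat_lit 9) (.e (nat_lit 426555) (nat_lit 32) (.e (nat_lit 376859) (nat_lit 21) (.e (nat_lit 57871) (nat_lit 264) (.e (nat_lit 1189) (nat_lit 88) .nil)))))) (.g (nat_lit 4) .nil .nil)))))) (.nd (nat_lit 3) (.nd (nat_lit 4) (.nd (nat_lit 5) 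
(.lf (nat_lit 196101) (.g (nat_lit 1234) (.e (nat_lit 65628) (nat_lit 14) (.e (nat_lit 401437) (nat_lit 9) (.e (nat_lit 426542) (nat_lit 29) (.e (nat_lit 352290) (nat_lit 20) (.e (nat_lit 1023) (nat_lit 81) .nil))))) .nil)) 
(.lf (nat_lit 196133) (.g (nat_lit 428) (.e (nat_lit 65628) (nat_lit 14) (.e (nat_lit 401437) (nat_lit 9) (.e (nat_lit 426546) (nat_lit 30) .nil))) .nil))) (.nd (nat_lit 5) 
(.lf (nat_lit 196117) (.g (nat_lit 3790) (.e (nat_lit 65628) (nat_lit 14) (.e (nat_lit 401437) (nat_lit 9) (.e (nat_lit 426542) (nat_lit 29) (.e (nat_lit 352309) (nat_lit 21) (.e (nat_lit 57873) (nat_lit 264) (.e (nat_lit 1200) (nat_lit 88) .nil)))))) (.g (nat_lit 0) .nil .nil))) 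
(.lf (nat_lit 196149) (.g (nat_lit 3648) (.e (nat_lit 65628) (nat_lit 14) (.e (nat_lit 401437) (nat_lit 9) (.e (nat_lit 426555) (nat_lit 32) (.e (nat_lit 376857) (nat_lit 21) (.e (nat_lit 57872) (nat_lit 264) (.e (nat_lit 1190) (nat_lit 88) .nil)))))) (.g (nat_lit 0) .nil .nil))))) (.nd (nat_lit 4) (.nd (nat_lit 5) 
(.lf (nat_lit 196109) (.g (nat_lit 3663) (.e (nat_lit 65628) (nat_lit 14) (.e (nat_lit 401437) (nat_lit 9) (.e (nat_lit 426542) (nat_lit 29) (.e (nat_lit 352307) (nat_lit 21) (.e (nat_lit 57872) (nat_lit 264) (.e (nat_lit 1190) (nat_lit 88) .nil)))))) (.g (nat_lit 0) .nil .nil))) 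
(.lf (nat_lit 196141) (.g (nat_lit 2736) (.e (nat_lit 65628) (nat_lit 14) (.e (nat_lit 401437) (nat_lit 9) (.e (nat_lit 426546) (nat_lit 30) (.e (nat_lit 360456) (nat_lit 0) (.e (nat_lit 5818) (nat_lit 320) (.e (nat_lit 1201) (nat_lit 88) .nil)))))) (.g (nat_lit 0) .nil .nil)))) (.nd (nat_lit 5) 
(.lf (nat_lit 196125) (.g (nat_lit 1329) (.e (nat_lit 65628) (nat_lit 14) (.e (nat_lit 401437) (nat_lit 9) (.e (nat_lit 426544) (nat_lit 30) (.e (nat_lit 360449) (nat_lit 0) .nil)))) .nil)) 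
(.lf (nat_lit 196157) (.g (nat_lit 357) (.e (nat_lit 65628) (nat_lit 14) (.e (nat_lit 401438) (nat_lit 9) (.e (nat_lit 426482) (nat_lit 27) .nil))) .nil)))))) (.nd (nat_lit 2) (.nd (nat_lit 3) (.nd (nat_lit 4) (.nd (nat_lit 5) 
(.lf (nat_lit 196099) (.g (nat_lit 1350) (.e (nat_lit 65628) (nat_lit 14) (.e (nat_lit 401437) (nat_lit 9) (.e (nat_lit 426542) (nat_lit 29) (.e (nat_lit 352283) (nat_lit 20) (.e (nat_lit 1996) (nat_lit 137) .nil))))) .nil)) 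
(.lf (nat_lit 196131) (.g (nat_lit 2945) (.e (nat_lit 65628) (nat_lit 14) (.e (nat_lit 401437) (nat_lit 9) (.e (nat_lit 426544) (nat_lit 30) (.e (nat_lit 360457) (nat_lit 0) (.e (nat_lit 5818) (nat_lit 320) (.e (nat_lit 1201) (nat_lit 88) .nil)))))) (.g (nat_lit 0) .nil .nil)))) (.nd (nat_lit 5) 
(.lf (nat_lit 196115) (.g (nat_lit 2326) (.e (nat_lit 65628) (nat_lit 14) (.e (nat_lit 401437) (nat_lit 9) (.e (nat_lit 426542) (nat_lit 29) (.e (nat_lit 352309) (nat_lit 21) (.e (nat_lit 57873) (nat_lit 264) (.e (nat_lit 1189) (nat_lit 88) .nil)))))) (.g (nat_lit 4) .nil .nil))) 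
(.lf (nat_lit 196147) (.g (nat_lit 1978) (.e (nat_lit 65628) (nat_lit 14) (.e (nat_lit 401437) (nat_lit 9) (.e (nat_lit 426555) (nat_lit 32) (.e (nat_lit 376856) (nat_lit 21) .nil)))) .nil)))) (.nd (nat_lit 4) (.nd (nat_lit 5) 
(.lf (nat_lit 196107) (.g (nat_lit 3365) (.e (nat_lit 65628) (nat_lit 14) (.e (nat_lit 401437) (nat_lit 9) (.e (nat_lit 426542) (nat_lit 29) (.e (nat_lit 352307) (nat_lit 21) (.e (nat_lit 57870) (nat_lit 264) (.e (nat_lit 1190) (nat_lit 88) .nil)))))) (.g (nat_lit 0) .nil .nil))) 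
(.lf (nat_lit 196139) (.g (nat_lit 3802) (.e (nat_lit 65628) (nat_lit 14) (.e (nat_lit 401437) (nat_lit 9) (.e (nat_lit 426546) (nat_lit 30) (.e (nat_lit 360452) (nat_lit 0) (.e (nat_lit 5907) (nat_lit 320) (.e (nat_lit 1200) (nat_lit 88) .nil)))))) (.g (nat_lit 0) .nil .nil)))) (.nd (nat_lit 5) 
(.lf (nat_lit 196123) (.g (nat_lit 3143) (.e (nat_lit 65628) (nat_lit 14) (.e (nat_lit 401437) (nat_lit 9) (.e (nat_lit 426542) (nat_lit 29) (.e (nat_lit 352318) (nat_lit 24) (.e (nat_lit 123185) (nat_lit 264) (.e (nat_lit 1201) (nat_lit 88) .nil)))))) (.g (nat_lit 0) .nil .nil))) 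
(.lf (nat_lit 196155) (.g (nat_lit 3474) (.e (nat_lit 65628) (nat_lit 14) (.e (nat_lit 401437) (nat_lit 9) (.e (nat_lit 426555) (nat_lit 32) (.e (nat_lit 376859) (nat_lit 21) (.e (nat_lit 57873) (nat_lit 264) (.e (nat_lit 1199) (nat_lit 88) .nil)))))) (.g (nat_lit 0) .nil .nil)))))) (.nd (nat_lit 3) (.nd (nat_lit 4) (.nd (nat_lit 5) 
(.lf (nat_lit 196103) (.g (nat_lit 1463) (.e (nat_lit 65628) (nat_lit 14) (.e (nat_lit 401437) (nat_lit 9) (.e (nat_lit 426542) (nat_lit 29) (.e (nat_lit 352294) (nat_lit 20) .nil)))) .nil)) 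
(.lf (nat_lit 196135) (.g (nat_lit 1414) (.e (nat_lit 65628) (nat_lit 14) (.e (nat_lit 401437) (nat_lit 9) (.e (nat_lit 426546) (nat_lit 30) (.e (nat_lit 360449) (nat_lit 0) .nil)))) .nil))) (.nd (nat_lit 5) 
(.lf (nat_lit 196119) (.g (nat_lit 3507) (.e (nat_lit 65628) (nat_lit 14) (.e (nat_lit 401437) (nat_lit 9) (.e (nat_lit 426542) (nat_lit 29) (.e (nat_lit 352316) (nat_lit 24) (.e (nat_lit 123185) (nat_lit 264) (.e (nat_lit 1193) (nat_lit 88) .nil)))))) (.g (nat_lit 6) .nil .nil))) 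
(.lf (nat_lit 196151) (.g (nat_lit 3513) (.e (nat_lit 65628) (nat_lit 14) (.e (nat_lit 401437) (nat_lit 9) (.e (nat_lit 426555) (nat_lit 32) (.e (nat_lit 376857) (nat_lit 21) (.e (nat_lit 57873) (nat_lit 264) (.e (nat_lit 1199) (nat_lit 88) .nil)))))) (.g (nat_lit 0) .nil .nil))))) (.nd (nat_lit 4) (.nd (nat_lit 5) 
(.lf (nat_lit 196111) (.g (nat_lit 3734) (.e (nat_lit 65628) (nat_lit 14) (.e (nat_lit 401437) (nat_lit 9) (.e (nat_lit 426542) (nat_lit 29) (.e (nat_lit 352307) (nat_lit 21) (.e (nat_lit 57873) (nat_lit 264) (.e (nat_lit 1199) (nat_lit 88) .nil)))))) (.g (nat_lit 0) .nil .nil))) 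
(.lf (nat_lit 196143) (.g (nat_lit 2497) (.e (nat_lit 65628) (nat_lit 14) (.e (nat_lit 401437) (nat_lit 9) (.e (nat_lit 426546) (nat_lit 30) (.e (nat_lit 360486) (nat_lit 18) (.e (nat_lit 671761) (nat_lit 4) .nil))))) (.g (nat_lit 4) .nil .nil)))) (.nd (nat_lit 5) 
(.lf (nat_lit 196127) (.g (nat_lit 2530) (.e (nat_lit 65628) (nat_lit 14) (.e (nat_lit 401437) (nat_lit 9) (.e (nat_lit 426544) (nat_lit 30) (.e (nat_lit 360452) (nat_lit 0) (.e (nat_lit 5907) (nat_lit 320) (.e (nat_lit 1199) (nat_lit 88) .nil)))))) (.g (nat_lit 4) .nil .nil))) 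
(.lf (nat_lit 196159) (.g (nat_lit 1472) (.e (nat_lit 65628) (nat_lit 14) (.e (nat_lit 401438) (nat_lit 9) (.e (nat_lit 426482) (nat_lit 27) (.e (nat_lit 336093) (nat_lit 9) .nil)))) .nil))))))))

noncomputable def tv2596 : DT := (.nd (nat_lit 0) (.nd (nat_lit 1) (.nd (nat_lit 2) (.nd (nat_lit 3) (.nd (nat_lit 4) (.nd (nat_lit 5) 
(.lf (nat_lit 196160) (.g (nat_lit 1849) (.e (nat_lit 65628) (nat_lit 14) (.e (nat_lit 401438) (nat_lit 9) (.e (nat_lit 426482) (nat_lit 27) (.e (nat_lit 336101) (nat_lit 9) (.e (nat_lit 335907) (nat_lit 0) .nil))))) .nil)) 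
(.lf (nat_lit 196192) (.g (nat_lit 3454) (.e (nat_lit 65628) (nat_lit 14) (.e (nat_lit 401438) (nat_lit 9) (.e (nat_lit 426546) (nat_lit 30) (.e (nat_lit 360452) (nat_lit 0) (.e (nat_lit 5905) (nat_lit 320) (.e (nat_lit 1190) (nat_lit 88) .nil)))))) (.g (nat_lit 0) .nil .nil)))) (.nd (nat_lit 5) 
(.lf (nat_lit 196176) (.g (nat_lit 3504) (.e (nat_lit 65628) (nat_lit 14) (.e (nat_lit 401438) (nat_lit 9) (.e (nat_lit 426542) (nat_lit 29) (.e (nat_lit 352309) (nat_lit 21) (.e (nat_lit 57872) (nat_lit 264) (.e (nat_lit 1190) (nat_lit 88) .nil)))))) (.g (nat_lit 0) .nil .nil))) 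
(.lf (nat_lit 196208) (.g (nat_lit 418) (.e (nat_lit 65628) (nat_lit 14) (.e (nat_lit 401454) (nat_lit 12) (.e (nat_lit 483072) (nat_lit 13) .nil))) .nil)))) (.nd (nat_lit 4) (.nd (nat_lit 5) 
(.lf (nat_lit 196168) (.g (nat_lit 1573) (.e (nat_lit 65628) (nat_lit 14) (.e (nat_lit 401438) (nat_lit 9) (.e (nat_lit 426542) (nat_lit 29) (.e (nat_lit 352264) (nat_lit 0) (.e (nat_lit 3715) (nat_lit 227) (.e (nat_lit 786176) (nat_lit 4) .nil)))))) (.g (nat_lit 4) .nil .nil))) 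
(.lf (nat_lit 196200) (.g (nat_lit 2380) (.e (nat_lit 65628) (nat_lit 14) (.e (nat_lit 401438) (nat_lit 9) (.e (nat_lit 426555) (nat_lit 32) (.e (nat_lit 376859) (nat_lit 21) (.e (nat_lit 57871) (nat_lit 264) (.e (nat_lit 1189) (nat_lit 88) .nil)))))) (.g (nat_lit 4) .nil .nil)))) (.nd (nat_lit 5) 
(.lf (nat_lit 196184) (.g (nat_lit 1827) (.e (nat_lit 65628) (nat_lit 14) (.e (nat_lit 401438) (nat_lit 9) (.e (nat_lit 426544) (nat_lit 30) (.e (nat_lit 360453) (nat_lit 0) (.e (nat_lit 5907) (nat_lit 320) (.e (nat_lit 1189) (nat_lit 88) .nil)))))) (.g (nat_lit 4) .nil .nil))) 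
(.lf (nat_lit 196216) (.g (nat_lit 1154) (.e (nat_lit 65628) (nat_lit 14) (.e (nat_lit 401454) (nat_lit 12) (.e (nat_lit 475188) (nat_lit 33) .nil))) .nil))))) (.nd (nat_lit 3) (.nd (nat_lit 4) (.nd (nat_lit 5) 
(.lf (nat_lit 196164) (.g (nat_lit 664) (.e (nat_lit 65628) (nat_lit 14) (.e (nat_lit 401438) (nat_lit 9) (.e (nat_lit 426539) (nat_lit 29) .nil))) .nil)) 
(.lf (nat_lit 196196) (.g (nat_lit 656) (.e (nat_lit 65628) (nat_lit 14) (.e (nat_lit 401438) (nat_lit 9) (.e (nat_lit 426546) (nat_lit 30) (.e (nat_lit 368384) (nat_lit 0) .nil)))) .nil))) (.nd (nat_lit 5) 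
(.lf (nat_lit 196180) (.g (nat_lit 4052) (.e (nat_lit 65628) (nat_lit 14) (.e (nat_lit 401438) (nat_lit 9) (.e (nat_lit 426542) (nat_lit 29) (.e (nat_lit 352318) (nat_lit 24) (.e (nat_lit 123182) (nat_lit 264) (.e (nat_lit 1193) (nat_lit 88) .nil)))))) (.g (nat_lit 6) .nil .nil))) 
(.lf (nat_lit 196212) (.g (nat_lit 1305) (.e (nat_lit 65628) (nat_lit 14) (.e (nat_lit 401454) (nat_lit 12) (.e (nat_lit 475151) (nat_lit 17) .nil))) .nil)))) (.nd (nat_lit 4) (.nd (nat_lit 5) 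
(.lf (nat_lit 196172) (.g (nat_lit 2929) (.e (nat_lit 65628) (nat_lit 14) (.e (nat_lit 401438) (nat_lit 9) (.e (nat_lit 426542) (nat_lit 29) (.e (nat_lit 352307) (nat_lit 21) (.e (nat_lit 57870) (nat_lit 264) (.e (nat_lit 1189) (nat_lit 88) .nil)))))) (.g (nat_lit 0) .nil .nil))) 
(.lf (nat_lit 196204) (.g (nat_lit 1285) (.e (nat_lit 65628) (nat_lit 14) (.e (nat_lit 401454) (nat_lit 12) (.e (nat_lit 475142) (nat_lit 8) .nil))) .nil))) (.nd (nat_lit 5) 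
(.lf (nat_lit 196188) (.g (nat_lit 821) (.e (nat_lit 65628) (nat_lit 14) (.e (nat_lit 401438) (nat_lit 9) (.e (nat_lit 426544) (nat_lit 30) (.e (nat_lit 368384) (nat_lit 0) .nil)))) .nil)) 
(.lf (nat_lit 196220) (.g (nat_lit 2939) (.e (nat_lit 65628) (nat_lit 14) (.e (nat_lit 401454) (nat_lit 12) (.e (nat_lit 475212) (nat_lit 42) (.e (nat_lit 720955) (nat_lit 25) (.e (nat_lit 114712) (nat_lit 21) (.e (nat_lit 57665) (nat_lit 152) (.e (nat_lit 7936) (nat_lit 88) .nil))))))) (.g (nat_lit 5) .nil .nil))))))) (.nd (nat_lit 2) (.nd (nat_lit 3) (.nd (nat_lit 4) (.nd (nat_lit 5) 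
(.lf (nat_lit 196162) (.g (nat_lit 442) (.e (nat_lit 65628) (nat_lit 14) (.e (nat_lit 401438) (nat_lit 9) (.e (nat_lit 426530) (nat_lit 27) .nil))) .nil)) 
(.lf (nat_lit 196194) (.g (nat_lit 3290) (.e (nat_lit 65628) (nat_lit 14) (.e (nat_lit 401438) (nat_lit 9) (.e (nat_lit 426546) (nat_lit 30) (.e (nat_lit 360452) (nat_lit 0) (.e (nat_lit 5907) (nat_lit 320) (.e (nat_lit 1200) (nat_lit 88) .nil)))))) (.g (nat_lit 0) .nil .nil)))) (.nd (nat_lit 5) 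
(.lf (nat_lit 196178) (.g (nat_lit 3309) (.e (nat_lit 65628) (nat_lit 14) (.e (nat_lit 401438) (nat_lit 9) (.e (nat_lit 426542) (nat_lit 29) (.e (nat_lit 352309) (nat_lit 21) (.e (nat_lit 57873) (nat_lit 264) (.e (nat_lit 1199) (nat_lit 88) .nil)))))) (.g (nat_lit 0) .nil .nil))) 
(.lf (nat_lit 196210) (.g (nat_lit 2357) (.e (nat_lit 65628) (nat_lit 14) (.e (nat_lit 401454) (nat_lit 12) (.e (nat_lit 475144) (nat_lit 16) (.e (nat_lit 2777) (nat_lit 178) (.e (nat_lit 286731) (nat_lit 1) .nil))))) .nil)))) (.nd (nat_lit 4) (.nd (nat_lit 5) 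
(.lf (nat_lit 196170) (.g (nat_lit 1107) (.e (nat_lit 65628) (nat_lit 14) (.e (nat_lit 401438) (nat_lit 9) (.e (nat_lit 426542) (nat_lit 29) (.e (nat_lit 352290) (nat_lit 20) (.e (nat_lit 1023) (nat_lit 81) .nil))))) .nil)) 
(.lf (nat_lit 196202) (.g (nat_lit 794) (.e (nat_lit 65628) (nat_lit 14) (.e (nat_lit 401438) (nat_lit 9) (.e (nat_lit 426556) (nat_lit 32) (.e (nat_lit 376859) (nat_lit 21) .nil)))) .nil))) (.nd (nat_lit 5) 
(.lf (nat_lit 196186) (.g (nat_lit 2322) (.e (nat_lit 65628) (nat_lit 14) (.e (nat_lit 401438) (nat_lit 9) (.e (nat_lit 426544) (nat_lit 30) (.e (nat_lit 360457) (nat_lit 0) (.e (nat_lit 5818) (nat_lit 320) (.e (nat_lit 1193) (nat_lit 88) .nil)))))) (.g (nat_lit 5) .nil .nil))) 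
(.lf (nat_lit 196218) (.g (nat_lit 1338) (.e (nat_lit 65628) (nat_lit 14) (.e (nat_lit 401454) (nat_lit 12) (.e (nat_lit 475209) (nat_lit 41) (.e (nat_lit 712736) (nat_lit 24) .nil)))) .nil))))) (.nd (nat_lit 3) (.nd (nat_lit 4) (.nd (nat_lit 5) 
(.lf (nat_lit 196166) (.g (nat_lit 341) (.e (nat_lit 65628) (nat_lit 14) (.e (nat_lit 401438) (nat_lit 9) (.e (nat_lit 426542) (nat_lit 29) .nil))) .nil)) 
(.lf (nat_lit 196198) (.g (nat_lit 523) (.e (nat_lit 65628) (nat_lit 14) (.e (nat_lit 401438) (nat_lit 9) (.e (nat_lit 426555) (nat_lit 32) .nil))) .nil))) (.nd (nat_lit 5) 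
(.lf (nat_lit 196182) (.g (nat_lit 2895) (.e (nat_lit 65628) (nat_lit 14) (.e (nat_lit 401438) (nat_lit 9) (.e (nat_lit 426542) (nat_lit 29) (.e (nat_lit 352318) (nat_lit 24) (.e (nat_lit 123185) (nat_lit 264) (.e (nat_lit 1201) (nat_lit 88) .nil)))))) (.g (nat_lit 0) .nil .nil))) 
(.lf (nat_lit 196214) (.g (nat_lit 842) (.e (nat_lit 65628) (nat_lit 14) (.e (nat_lit 401454) (nat_lit 12) (.e (nat_lit 475155) (nat_lit 21) .nil))) .nil)))) (.nd (nat_lit 4) (.nd (nat_lit 5) 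
(.lf (nat_lit 196174) (.g (nat_lit 3450) (.e (nat_lit 65628) (nat_lit 14) (.e (nat_lit 401438) (nat_lit 9) (.e (nat_lit 426542) (nat_lit 29) (.e (nat_lit 352307) (nat_lit 21) (.e (nat_lit 57872) (nat_lit 264) (.e (nat_lit 1190) (nat_lit 88) .nil)))))) (.g (nat_lit 0) .nil .nil))) 
(.lf (nat_lit 196206) (.g (nat_lit 1151) (.e (nat_lit 65628) (nat_lit 14) (.e (nat_lit 401454) (nat_lit 12) (.e (nat_lit 475143) (nat_lit 8) .nil))) .nil))) (.nd (nat_lit 5) 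
(.lf (nat_lit 196190) (.g (nat_lit 3003) (.e (nat_lit 65628) (nat_lit 14) (.e (nat_lit 401438) (nat_lit 9) (.e (nat_lit 426544) (nat_lit 30) (.e (nat_lit 360486) (nat_lit 18) (.e (nat_lit 671762) (nat_lit 4) .nil))))) (.g (nat_lit 0) .nil .nil))) 
(.lf (nat_lit 196222) (.g (nat_lit 3375) (.e (nat_lit 65628) (nat_lit 14) (.e (nat_lit 401454) (nat_lit 12) (.e (nat_lit 475212) (nat_lit 42) (.e (nat_lit 720956) (nat_lit 25) (.e (nat_lit 114712) (nat_lit 21) (.e (nat_lit 57665) (nat_lit 152) (.e (nat_lit 7936) (nat_lit 88) .nil))))))) (.g (nat_lit 6) .nil .nil)))))))) 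
(.nd (nat_lit 1) (.nd (nat_lit 2) (.nd (nat_lit 3) (.nd (nat_lit 4) (.nd (nat_lit 5) 
(.lf (nat_lit 196161) (.g (nat_lit 1909) (.e (nat_lit 65628) (nat_lit 14) (.e (nat_lit 401438) (nat_lit 9) (.e (nat_lit 426482) (nat_lit 27) (.e (nat_lit 336140) (nat_lit 9) (.e (nat_lit 335995) (nat_lit 1) .nil))))) .nil)) 
(.lf (nat_lit 196193) (.g (nat_lit 2239) (.e (nat_lit 65628) (nat_lit 14) (.e (nat_lit 401438) (nat_lit 9) (.e (nat_lit 426546) (nat_lit 30) (.e (nat_lit 360452) (nat_lit 0) (.e (nat_lit 5906) (nat_lit 320) (.e (nat_lit 1200) (nat_lit 88) .nil)))))) (.g (nat_lit 5) .nil .nil)))) (.nd (nat_lit 5) 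
(.lf (nat_lit 196177) (.g (nat_lit 2115) (.e (nat_lit 65628) (nat_lit 14) (.e (nat_lit 401438) (nat_lit 9) (.e (nat_lit 426542) (nat_lit 29) (.e (nat_lit 352309) (nat_lit 21) (.e (nat_lit 57873) (nat_lit 264) (.e (nat_lit 1189) (nat_lit 88) .nil)))))) (.g (nat_lit 4) .nil .nil))) 
(.lf (nat_lit 196209) (.g (nat_lit 1105) (.e (nat_lit 65628) (nat_lit 14) (.e (nat_lit 401454) (nat_lit 12) (.e (nat_lit 475144) (nat_lit 16) .nil))) .nil)))) (.nd (nat_lit 4) (.nd (nat_lit 5) 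
(.lf (nat_lit 196169) (.g (nat_lit 1288) (.e (nat_lit 65628) (nat_lit 14) (.e (nat_lit 401438) (nat_lit 9) (.e (nat_lit 426542) (nat_lit 29) (.e (nat_lit 352283) (nat_lit 20) (.e (nat_lit 1996) (nat_lit 137) .nil))))) .nil)) 
(.lf (nat_lit 196201) (.g (nat_lit 2280) (.e (nat_lit 65628) (nat_lit 14) (.e (nat_lit 401438) (nat_lit 9) (.e (nat_lit 426555) (nat_lit 32) (.e (nat_lit 376859) (nat_lit 21) (.e (nat_lit 57873) (nat_lit 264) (.e (nat_lit 1189) (nat_lit 88) .nil)))))) (.g (nat_lit 4) .nil .nil)))) (.nd (nat_lit 5) 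
(.lf (nat_lit 196185) (.g (nat_lit 3383) (.e (nat_lit 65628) (nat_lit 14) (.e (nat_lit 401438) (nat_lit 9) (.e (nat_lit 426544) (nat_lit 30) (.e (nat_lit 360453) (nat_lit 0) (.e (nat_lit 5907) (nat_lit 320) (.e (nat_lit 1200) (nat_lit 88) .nil)))))) (.g (nat_lit 0) .nil .nil))) 
(.lf (nat_lit 196217) (.g (nat_lit 920) (.e (nat_lit 65628) (nat_lit 14) (.e (nat_lit 401454) (nat_lit 12) (.e (nat_lit 475193) (nat_lit 38) .nil))) .nil))))) (.nd (nat_lit 3) (.nd (nat_lit 4) (.nd (nat_lit 5) 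
(.lf (nat_lit 196165) (.g (nat_lit 1508) (.e (nat_lit 65628) (nat_lit 14) (.e (nat_lit 401438) (nat_lit 9) (.e (nat_lit 426540) (nat_lit 29) (.e (nat_lit 352270) (nat_lit 8) (.e (nat_lit 270080) (nat_lit 4) .nil))))) (.g (nat_lit 4) .nil .nil))) 
(.lf (nat_lit 196197) (.g (nat_lit 2088) (.e (nat_lit 65628) (nat_lit 14) (.e (nat_lit 401438) (nat_lit 9) (.e (nat_lit 426546) (nat_lit 30) (.e (nat_lit 360486) (nat_lit 18) (.e (nat_lit 671760) (nat_lit 4) .nil))))) (.g (nat_lit 4) .nil .nil)))) (.nd (nat_lit 5) 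
(.lf (nat_lit 196181) (.g (nat_lit 3966) (.e (nat_lit 65628) (nat_lit 14) (.e (nat_lit 401438) (nat_lit 9) (.e (nat_lit 426542) (nat_lit 29) (.e (nat_lit 352318) (nat_lit 24) (.e (nat_lit 123182) (nat_lit 264) (.e (nat_lit 1201) (nat_lit 88) .nil)))))) (.g (nat_lit 6) .nil .nil))) 
(.lf (nat_lit 196213) (.g (nat_lit 1135) (.e (nat_lit 65628) (nat_lit 14) (.e (nat_lit 401454) (nat_lit 12) (.e (nat_lit 475154) (nat_lit 20) .nil))) .nil)))) (.nd (nat_lit 4) (.nd (nat_lit 5) 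
(.lf (nat_lit 196173) (.g (nat_lit 3155) (.e (nat_lit 65628) (nat_lit 14) (.e (nat_lit 401438) (nat_lit 9) (.e (nat_lit 426542) (nat_lit 29) (.e (nat_lit 352307) (nat_lit 21) (.e (nat_lit 57870) (nat_lit 264) (.e (nat_lit 1190) (nat_lit 88) .nil)))))) (.g (nat_lit 0) .nil .nil))) 
(.lf (nat_lit 196205) (.g (nat_lit 1770) (.e (nat_lit 65628) (nat_lit 14) (.e (nat_lit 401454) (nat_lit 12) (.e (nat_lit 475142) (nat_lit 8) (.e (nat_lit 1458) (nat_lit 108) (.e (nat_lit 335997) (nat_lit 1) .nil))))) .nil))) (.nd (nat_lit 5) 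
(.lf (nat_lit 196189) (.g (nat_lit 2046) (.e (nat_lit 65628) (nat_lit 14) (.e (nat_lit 401438) (nat_lit 9) (.e (nat_lit 426544) (nat_lit 30) (.e (nat_lit 360486) (nat_lit 18) (.e (nat_lit 671760) (nat_lit 4) .nil))))) (.g (nat_lit 4) .nil .nil))) 
(.lf (nat_lit 196221) (.g (nat_lit 1464) (.e (nat_lit 65628) (nat_lit 14) (.e (nat_lit 401454) (nat_lit 12) (.e (nat_lit 475212) (nat_lit 42) (.e (nat_lit 720956) (nat_lit 25) .nil)))) .nil)))))) (.nd (nat_lit 2) (.nd (nat_lit 3) (.nd (nat_lit 4) (.nd (nat_lit 5) 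
(.lf (nat_lit 196163) (.g (nat_lit 568) (.e (nat_lit 65628) (nat_lit 14) (.e (nat_lit 401438) (nat_lit 9) (.e (nat_lit 426538) (nat_lit 29) .nil))) .nil)) 
(.lf (nat_lit 196195) (.g (nat_lit 2218) (.e (nat_lit 65628) (nat_lit 14) (.e (nat_lit 401438) (nat_lit 9) (.e (nat_lit 426546) (nat_lit 30) (.e (nat_lit 360456) (nat_lit 0) (.e (nat_lit 5818) (nat_lit 320) (.e (nat_lit 1201) (nat_lit 88) .nil)))))) (.g (nat_lit 0) .nil .nil)))) (.nd (nat_lit 5) 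
(.lf (nat_lit 196179) (.g (nat_lit 2894) (.e (nat_lit 65628) (nat_lit 14) (.e (nat_lit 401438) (nat_lit 9) (.e (nat_lit 426542) (nat_lit 29) (.e (nat_lit 352316) (nat_lit 24) (.e (nat_lit 123185) (nat_lit 264) (.e (nat_lit 1201) (nat_lit 88) .nil)))))) (.g (nat_lit 0) .nil .nil))) 
(.lf (nat_lit 196211) (.g (nat_lit 1194) (.e (nat_lit 65628) (nat_lit 14) (.e (nat_lit 401454) (nat_lit 12) (.e (nat_lit 475144) (nat_lit 16) (.e (nat_lit 2781) (nat_lit 178) .nil)))) .nil)))) (.nd (nat_lit 4) (.nd (nat_lit 5) 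
(.lf (nat_lit 196171) (.g (nat_lit 2711) (.e (nat_lit 65628) (nat_lit 14) (.e (nat_lit 401438) (nat_lit 9) (.e (nat_lit 426542) (nat_lit 29) (.e (nat_lit 352297) (nat_lit 20) (.e (nat_lit 2003) (nat_lit 138) (.e (nat_lit 671762) (nat_lit 4) .nil)))))) (.g (nat_lit 0) .nil .nil))) 
(.lf (nat_lit 196203) (.g (nat_lit 1195) (.e (nat_lit 65628) (nat_lit 14) (.e (nat_lit 401454) (nat_lit 12) (.e (nat_lit 475141) (nat_lit 8) .nil))) .nil))) (.nd (nat_lit 5) 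
(.lf (nat_lit 196187) (.g (nat_lit 2590) (.e (nat_lit 65628) (nat_lit 14) (.e (nat_lit 401438) (nat_lit 9) (.e (nat_lit 426544) (nat_lit 30) (.e (nat_lit 360457) (nat_lit 0) (.e (nat_lit 5818) (nat_lit 320) (.e (nat_lit 1201) (nat_lit 88) .nil)))))) (.g (nat_lit 0) .nil .nil))) 
(.lf (nat_lit 196219) (.g (nat_lit 812) (.e (nat_lit 65628) (nat_lit 14) (.e (nat_lit 401454) (nat_lit 12) (.e (nat_lit 475212) (nat_lit 42) .nil))) .nil))))) (.nd (nat_lit 3) (.nd (nat_lit 4) (.nd (nat_lit 5) 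
(.lf (nat_lit 196167) (.g (nat_lit 1163) (.e (nat_lit 65628) (nat_lit 14) (.e (nat_lit 401438) (nat_lit 9) (.e (nat_lit 426542) (nat_lit 29) (.e (nat_lit 352263) (nat_lit 0) .nil)))) .nil)) 
(.lf (nat_lit 196199) (.g (nat_lit 2308) (.e (nat_lit 65628) (nat_lit 14) (.e (nat_lit 401438) (nat_lit 9) (.e (nat_lit 426555) (nat_lit 32) (.e (nat_lit 376857) (nat_lit 21) (.e (nat_lit 57873) (nat_lit 264) (.e (nat_lit 1189) (nat_lit 88) .nil)))))) (.g (nat_lit 4) .nil .nil)))) (.nd (nat_lit 5) 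
(.lf (nat_lit 196183) (.g (nat_lit 411) (.e (nat_lit 65628) (nat_lit 14) (.e (nat_lit 401438) (nat_lit 9) (.e (nat_lit 426544) (nat_lit 30) .nil))) .nil)) 
(.lf (nat_lit 196215) (.g (nat_lit 1189) (.e (nat_lit 65628) (nat_lit 14) (.e (nat_lit 401454) (nat_lit 12) (.e (nat_lit 475155) (nat_lit 21) (.e (nat_lit 4708) (nat_lit 275) .nil)))) .nil)))) (.nd (nat_lit 4) (.nd (nat_lit 5) 
(.lf (nat_lit 196175) (.g (nat_lit 3120) (.e (nat_lit 65628) (nat_lit 14) (.e (nat_lit 401438) (nat_lit 9) (.e (nat_lit 426542) (nat_lit 29) (.e (nat_lit 352309) (nat_lit 21) (.e (nat_lit 57870) (nat_lit 264) (.e (nat_lit 1190) (nat_lit 88) .nil)))))) (.g (nat_lit 0) .nil .nil))) 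
(.lf (nat_lit 196207) (.g (nat_lit 1490) (.e (nat_lit 65628) (nat_lit 14) (.e (nat_lit 401454) (nat_lit 12) (.e (nat_lit 483072) (nat_lit 8) (.e (nat_lit 1515) (nat_lit 108) (.e (nat_lit 336331) (nat_lit 19) (.e (nat_lit 220928) (nat_lit 4) .nil)))))) (.g (nat_lit 4) .nil .nil)))) (.nd (nat_lit 5) 
(.lf (nat_lit 196191) (.g (nat_lit 408) (.e (nat_lit 65628) (nat_lit 14) (.e (nat_lit 401438) (nat_lit 9) (.e (nat_lit 426546) (nat_lit 30) .nil))) .nil)) 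
(.lf (nat_lit 196223) (.g (nat_lit 1308) (.e (nat_lit 65628) (nat_lit 14) (.e (nat_lit 401454) (nat_lit 12) (.e (nat_lit 475213) (nat_lit 42) .nil))) .nil))))))))

noncomputable def tv2597 : DT := (.nd (nat_lit 0) (.nd (nat_lit 1) (.nd (nat_lit 2) (.nd (nat_lit 3) (.nd (nat_lit 4) (.nd (nat_lit 5) (.nd (nat_lit 6) 
(.lf (nat_lit 196224) (.g (nat_lit 1494) (.e (nat_lit 65628) (nat_lit 14) (.e (nat_lit 401454) (nat_lit 12) (.e (nat_lit 475213) (nat_lit 42) (.e (nat_lit 720956) (nat_lit 25) .nil)))) .nil)) 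
(.lf (nat_lit 196288) (.g (nat_lit 703) (.e (nat_lit 65628) (nat_lit 14) (.e (nat_lit 401457) (nat_lit 13) (.e (nat_lit 483405) (nat_lit 26) .nil))) .nil))) (.nd (nat_lit 6) 
(.lf (nat_lit 196256) (.g (nat_lit 546) (.e (nat_lit 65628) (nat_lit 14) (.e (nat_lit 401457) (nat_lit 13) (.e (nat_lit 483391) (nat_lit 23) .nil))) .nil)) 
(.lf (nat_lit 196320) (.g (nat_lit 3421) (.e (nat_lit 65628) (nat_lit 14) (.e (nat_lit 401458) (nat_lit 13) (.e (nat_lit 483383) (nat_lit 23) (.e (nat_lit 336000) (nat_lit 1) (.e (nat_lit 57873) (nat_lit 264) (.e (nat_lit 1200) (nat_lit 88) .nil)))))) (.g (nat_lit 0) .nil .nil))))) (.nd (nat_lit 5) (.nd (nat_lit 6) 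
(.lf (nat_lit 196240) (.g (nat_lit 2465) (.e (nat_lit 65628) (nat_lit 14) (.e (nat_lit 401456) (nat_lit 13) (.e (nat_lit 483395) (nat_lit 24) (.e (nat_lit 344168) (nat_lit 40) (.e (nat_lit 671762) (nat_lit 4) .nil))))) (.g (nat_lit 4) .nil .nil))) 
(.lf (nat_lit 196304) (.g (nat_lit 1514) (.e (nat_lit 65628) (nat_lit 14) (.e (nat_lit 401458) (nat_lit 13) (.e (nat_lit 483350) (nat_lit 17) (.e (nat_lit 7936) (nat_lit 343) .nil)))) .nil))) (.nd (nat_lit 6) 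
(.lf (nat_lit 196272) (.g (nat_lit 2505) (.e (nat_lit 65628) (nat_lit 14) (.e (nat_lit 401457) (nat_lit 13) (.e (nat_lit 483394) (nat_lit 24) (.e (nat_lit 344097) (nat_lit 18) (.e (nat_lit 5907) (nat_lit 320) (.e (nat_lit 1199) (nat_lit 88) .nil)))))) (.g (nat_lit 4) .nil .nil))) 
(.lf (nat_lit 196336) (.g (nat_lit 1692) (.e (nat_lit 65628) (nat_lit 14) (.e (nat_lit 401458) (nat_lit 13) (.e (nat_lit 483392) (nat_lit 23) (.e (nat_lit 335995) (nat_lit 1) (.e (nat_lit 57870) (nat_lit 264) .nil))))) .nil))))) (.nd (nat_lit 4) (.nd (nat_lit 5) (.nd (nat_lit 6) 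
(.lf (nat_lit 196232) (.g (nat_lit 1416) (.e (nat_lit 65628) (nat_lit 14) (.e (nat_lit 401456) (nat_lit 13) (.e (nat_lit 483378) (nat_lit 23) (.e (nat_lit 335907) (nat_lit 0) .nil)))) .nil)) 
(.lf (nat_lit 196296) (.g (nat_lit 648) (.e (nat_lit 65628) (nat_lit 14) (.e (nat_lit 401457) (nat_lit 13) (.e (nat_lit 483408) (nat_lit 26) .nil))) .nil))) (.nd (nat_lit 6) 
(.lf (nat_lit 196264) (.g (nat_lit 2544) (.e (nat_lit 65628) (nat_lit 14) (.e (nat_lit 401457) (nat_lit 13) (.e (nat_lit 483393) (nat_lit 23) (.e (nat_lit 335995) (nat_lit 1) (.e (nat_lit 57870) (nat_lit 264) (.e (nat_lit 1199) (nat_lit 88) .nil)))))) (.g (nat_lit 4) .nil .nil))) 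
(.lf (nat_lit 196328) (.g (nat_lit 2022) (.e (nat_lit 65628) (nat_lit 14) (.e (nat_lit 401458) (nat_lit 13) (.e (nat_lit 483388) (nat_lit 23) (.e (nat_lit 335907) (nat_lit 0) (.e (nat_lit 1996) (nat_lit 137) (.e (nat_lit 663567) (nat_lit 4) .nil)))))) (.g (nat_lit 4) .nil .nil))))) (.nd (nat_lit 5) (.nd (nat_lit 6) 
(.lf (nat_lit 196248) (.g (nat_lit 1631) (.e (nat_lit 65628) (nat_lit 14) (.e (nat_lit 401457) (nat_lit 13) (.e (nat_lit 483383) (nat_lit 23) (.e (nat_lit 336000) (nat_lit 1) (.e (nat_lit 57870) (nat_lit 264) .nil))))) .nil)) 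
(.lf (nat_lit 196312) (.g (nat_lit 1855) (.e (nat_lit 65628) (nat_lit 14) (.e (nat_lit 401458) (nat_lit 13) (.e (nat_lit 483380) (nat_lit 23) (.e (nat_lit 336332) (nat_lit 19) (.e (nat_lit 220928) (nat_lit 4) .nil))))) (.g (nat_lit 4) .nil .nil)))) (.nd (nat_lit 6) 
(.lf (nat_lit 196280) (.g (nat_lit 3433) (.e (nat_lit 65628) (nat_lit 14) (.e (nat_lit 401457) (nat_lit 13) (.e (nat_lit 483395) (nat_lit 24) (.e (nat_lit 344097) (nat_lit 18) (.e (nat_lit 5906) (nat_lit 320) (.e (nat_lit 1190) (nat_lit 88) .nil)))))) (.g (nat_lit 0) .nil .nil))) 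
(.lf (nat_lit 196344) (.g (nat_lit 1866) (.e (nat_lit 65628) (nat_lit 14) (.e (nat_lit 401458) (nat_lit 13) (.e (nat_lit 491264) (nat_lit 23) (.e (nat_lit 335995) (nat_lit 1) (.e (nat_lit 57872) (nat_lit 264) (.e (nat_lit 1200) (nat_lit 88) .nil)))))) (.g (nat_lit 4) .nil .nil))))))) (.nd (nat_lit 3) (.nd (nat_lit 4) (.nd (nat_lit 5) (.nd (nat_lit 6) 
(.lf (nat_lit 196228) (.g (nat_lit 2484) (.e (nat_lit 65628) (nat_lit 14) (.e (nat_lit 401454) (nat_lit 12) (.e (nat_lit 475214) (nat_lit 42) (.e (nat_lit 720955) (nat_lit 25) .nil)))) .nil)) 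
(.lf (nat_lit 196292) (.g (nat_lit 2173) (.e (nat_lit 65628) (nat_lit 14) (.e (nat_lit 401457) (nat_lit 13) (.e (nat_lit 483406) (nat_lit 26) (.e (nat_lit 385096) (nat_lit 49) (.e (nat_lit 786176) (nat_lit 4) .nil))))) (.g (nat_lit 4) .nil .nil)))) (.nd (nat_lit 6) 
(.lf (nat_lit 196260) (.g (nat_lit 1129) (.e (nat_lit 65628) (nat_lit 14) (.e (nat_lit 401457) (nat_lit 13) (.e (nat_lit 483393) (nat_lit 23) (.e (nat_lit 335988) (nat_lit 1) .nil)))) .nil)) 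
(.lf (nat_lit 196324) (.g (nat_lit 1999) (.e (nat_lit 65628) (nat_lit 14) (.e (nat_lit 401458) (nat_lit 13) (.e (nat_lit 483383) (nat_lit 23) (.e (nat_lit 336357) (nat_lit 24) (.e (nat_lit 270080) (nat_lit 4) .nil))))) (.g (nat_lit 4) .nil .nil))))) (.nd (nat_lit 5) (.nd (nat_lit 6) 
(.lf (nat_lit 196244) (.g (nat_lit 2768) (.e (nat_lit 65628) (nat_lit 14) (.e (nat_lit 401457) (nat_lit 13) (.e (nat_lit 483378) (nat_lit 23) (.e (nat_lit 335997) (nat_lit 1) (.e (nat_lit 57870) (nat_lit 264) (.e (nat_lit 1189) (nat_lit 88) .nil)))))) (.g (nat_lit 0) .nil .nil))) 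
(.lf (nat_lit 196308) (.g (nat_lit 2463) (.e (nat_lit 65628) (nat_lit 14) (.e (nat_lit 401458) (nat_lit 13) (.e (nat_lit 483378) (nat_lit 23) (.e (nat_lit 335997) (nat_lit 1) (.e (nat_lit 57870) (nat_lit 264) (.e (nat_lit 1199) (nat_lit 88) .nil)))))) (.g (nat_lit 0) .nil .nil)))) (.nd (nat_lit 6) 
(.lf (nat_lit 196276) (.g (nat_lit 417) (.e (nat_lit 65628) (nat_lit 14) (.e (nat_lit 401457) (nat_lit 13) (.e (nat_lit 483395) (nat_lit 24) .nil))) .nil)) 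
(.lf (nat_lit 196340) (.g (nat_lit 1195) (.e (nat_lit 65628) (nat_lit 14) (.e (nat_lit 401458) (nat_lit 13) (.e (nat_lit 483393) (nat_lit 23) (.e (nat_lit 335892) (nat_lit 0) (.e (nat_lit 1995) (nat_lit 137) .nil))))) .nil))))) (.nd (nat_lit 4) (.nd (nat_lit 5) (.nd (nat_lit 6) 
(.lf (nat_lit 196236) (.g (nat_lit 927) (.e (nat_lit 65628) (nat_lit 14) (.e (nat_lit 401456) (nat_lit 13) (.e (nat_lit 483393) (nat_lit 23) .nil))) .nil)) 
(.lf (nat_lit 196300) (.g (nat_lit 1908) (.e (nat_lit 65628) (nat_lit 14) (.e (nat_lit 401457) (nat_lit 13) (.e (nat_lit 483413) (nat_lit 27) (.e (nat_lit 401421) (nat_lit 1) .nil)))) .nil))) (.nd (nat_lit 6) 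
(.lf (nat_lit 196268) (.g (nat_lit 2327) (.e (nat_lit 65628) (nat_lit 14) (.e (nat_lit 401457) (nat_lit 13) (.e (nat_lit 483394) (nat_lit 24) (.e (nat_lit 344097) (nat_lit 18) (.e (nat_lit 5905) (nat_lit 320) (.e (nat_lit 1189) (nat_lit 88) .nil)))))) (.g (nat_lit 4) .nil .nil))) 
(.lf (nat_lit 196332) (.g (nat_lit 1242) (.e (nat_lit 65628) (nat_lit 14) (.e (nat_lit 401458) (nat_lit 13) (.e (nat_lit 483391) (nat_lit 23) (.e (nat_lit 335998) (nat_lit 1) (.e (nat_lit 57872) (nat_lit 264) .nil))))) .nil)))) (.nd (nat_lit 5) (.nd (nat_lit 6) 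
(.lf (nat_lit 196252) (.g (nat_lit 691) (.e (nat_lit 65628) (nat_lit 14) (.e (nat_lit 401457) (nat_lit 13) (.e (nat_lit 483387) (nat_lit 23) .nil))) .nil)) 
(.lf (nat_lit 196316) (.g (nat_lit 1701) (.e (nat_lit 65628) (nat_lit 14) (.e (nat_lit 401458) (nat_lit 13) (.e (nat_lit 483383) (nat_lit 23) (.e (nat_lit 335999) (nat_lit 1) (.e (nat_lit 57872) (nat_lit 264) .nil))))) .nil))) (.nd (nat_lit 6) 
(.lf (nat_lit 196284) (.g (nat_lit 3029) (.e (nat_lit 65628) (nat_lit 14) (.e (nat_lit 401457) (nat_lit 13) (.e (nat_lit 483395) (nat_lit 24) (.e (nat_lit 344168) (nat_lit 40) (.e (nat_lit 671762) (nat_lit 4) .nil))))) (.g (nat_lit 5) .nil .nil))) 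
(.lf (nat_lit 196348) (.g (nat_lit 880) (.e (nat_lit 65628) (nat_lit 14) (.e (nat_lit 401458) (nat_lit 13) (.e (nat_lit 483394) (nat_lit 24) (.e (nat_lit 344100) (nat_lit 18) .nil)))) .nil))))))) (.nd (nat_lit 2) (.nd (nat_lit 3) (.nd (nat_lit 4) (.nd (nat_lit 5) (.nd (nat_lit 6) 
(.lf (nat_lit 196226) (.g (nat_lit 3200) (.e (nat_lit 65628) (nat_lit 14) (.e (nat_lit 401454) (nat_lit 12) (.e (nat_lit 475213) (nat_lit 42) (.e (nat_lit 720956) (nat_lit 25) (.e (nat_lit 114712) (nat_lit 21) (.e (nat_lit 57665) (nat_lit 152) (.e (nat_lit 7936) (nat_lit 88) .nil))))))) (.g (nat_lit 4) .nil .nil))) 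
(.lf (nat_lit 196290) (.g (nat_lit 585) (.e (nat_lit 65628) (nat_lit 14) (.e (nat_lit 401457) (nat_lit 13) (.e (nat_lit 483406) (nat_lit 26) .nil))) .nil))) (.nd (nat_lit 6) 
(.lf (nat_lit 196258) (.g (nat_lit 626) (.e (nat_lit 65628) (nat_lit 14) (.e (nat_lit 401457) (nat_lit 13) (.e (nat_lit 483393) (nat_lit 23) .nil))) .nil)) 
(.lf (nat_lit 196322) (.g (nat_lit 1920) (.e (nat_lit 65628) (nat_lit 14) (.e (nat_lit 401458) (nat_lit 13) (.e (nat_lit 483383) (nat_lit 23) (.e (nat_lit 336330) (nat_lit 19) (.e (nat_lit 220928) (nat_lit 4) .nil))))) (.g (nat_lit 4) .nil .nil))))) (.nd (nat_lit 5) (.nd (nat_lit 6) 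
(.lf (nat_lit 196242) (.g (nat_lit 1580) (.e (nat_lit 65628) (nat_lit 14) (.e (nat_lit 401457) (nat_lit 13) (.e (nat_lit 483346) (nat_lit 17) (.e (nat_lit 6203) (nat_lit 332) .nil)))) .nil)) 
(.lf (nat_lit 196306) (.g (nat_lit 2526) (.e (nat_lit 65628) (nat_lit 14) (.e (nat_lit 401458) (nat_lit 13) (.e (nat_lit 483372) (nat_lit 21) (.e (nat_lit 319516) (nat_lit 11) .nil)))) .nil))) (.nd (nat_lit 6) 
(.lf (nat_lit 196274) (.g (nat_lit 2009) (.e (nat_lit 65628) (nat_lit 14) (.e (nat_lit 401457) (nat_lit 13) (.e (nat_lit 483394) (nat_lit 24) (.e (nat_lit 344168) (nat_lit 40) (.e (nat_lit 671762) (nat_lit 4) .nil))))) (.g (nat_lit 4) .nil .nil))) 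
(.lf (nat_lit 196338) (.g (nat_lit 2373) (.e (nat_lit 65628) (nat_lit 14) (.e (nat_lit 401458) (nat_lit 13) (.e (nat_lit 483392) (nat_lit 23) (.e (nat_lit 335995) (nat_lit 1) (.e (nat_lit 57872) (nat_lit 264) (.e (nat_lit 1200) (nat_lit 88) .nil)))))) (.g (nat_lit 4) .nil .nil)))))) (.nd (nat_lit 4) (.nd (nat_lit 5) (.nd (nat_lit 6) 
(.lf (nat_lit 196234) (.g (nat_lit 966) (.e (nat_lit 65628) (nat_lit 14) (.e (nat_lit 401456) (nat_lit 13) (.e (nat_lit 483387) (nat_lit 23) .nil))) .nil)) 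
(.lf (nat_lit 196298) (.g (nat_lit 475) (.e (nat_lit 65628) (nat_lit 14) (.e (nat_lit 401457) (nat_lit 13) (.e (nat_lit 483413) (nat_lit 27) .nil))) .nil))) (.nd (nat_lit 6) 
(.lf (nat_lit 196266) (.g (nat_lit 1231) (.e (nat_lit 65628) (nat_lit 14) (.e (nat_lit 401457) (nat_lit 13) (.e (nat_lit 483393) (nat_lit 23) (.e (nat_lit 336033) (nat_lit 4) .nil)))) .nil)) 
(.lf (nat_lit 196330) (.g (nat_lit 805) (.e (nat_lit 65628) (nat_lit 14) (.e (nat_lit 401458) (nat_lit 13) (.e (nat_lit 483391) (nat_lit 23) (.e (nat_lit 335872) (nat_lit 0) .nil)))) .nil)))) (.nd (nat_lit 5) (.nd (nat_lit 6) 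
(.lf (nat_lit 196250) (.g (nat_lit 691) (.e (nat_lit 65628) (nat_lit 14) (.e (nat_lit 401457) (nat_lit 13) (.e (nat_lit 483384) (nat_lit 23) .nil))) .nil)) 
(.lf (nat_lit 196314) (.g (nat_lit 1565) (.e (nat_lit 65628) (nat_lit 14) (.e (nat_lit 401458) (nat_lit 13) (.e (nat_lit 483383) (nat_lit 23) (.e (nat_lit 335939) (nat_lit 0) .nil)))) .nil))) (.nd (nat_lit 6) 
(.lf (nat_lit 196282) (.g (nat_lit 2111) (.e (nat_lit 65628) (nat_lit 14) (.e (nat_lit 401457) (nat_lit 13) (.e (nat_lit 483395) (nat_lit 24) (.e (nat_lit 344168) (nat_lit 40) (.e (nat_lit 671760) (nat_lit 4) .nil))))) (.g (nat_lit 4) .nil .nil))) 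
(.lf (nat_lit 196346) (.g (nat_lit 3232) (.e (nat_lit 65628) (nat_lit 14) (.e (nat_lit 401458) (nat_lit 13) (.e (nat_lit 483394) (nat_lit 24) (.e (nat_lit 344097) (nat_lit 18) (.e (nat_lit 5907) (nat_lit 320) (.e (nat_lit 1199) (nat_lit 88) .nil)))))) (.g (nat_lit 0) .nil .nil))))))) (.nd (nat_lit 3) (.nd (nat_lit 4) (.nd (nat_lit 5) (.nd (nat_lit 6) 
(.lf (nat_lit 196230) (.g (nat_lit 2142) (.e (nat_lit 65628) (nat_lit 14) (.e (nat_lit 401454) (nat_lit 12) (.e (nat_lit 475214) (nat_lit 42) (.e (nat_lit 720956) (nat_lit 25) .nil)))) .nil)) 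
(.lf (nat_lit 196294) (.g (nat_lit 1766) (.e (nat_lit 65628) (nat_lit 14) (.e (nat_lit 401457) (nat_lit 13) (.e (nat_lit 483406) (nat_lit 26) (.e (nat_lit 385100) (nat_lit 49) .nil)))) .nil))) (.nd (nat_lit 6) 
(.lf (nat_lit 196262) (.g (nat_lit 1310) (.e (nat_lit 65628) (nat_lit 14) (.e (nat_lit 401457) (nat_lit 13) (.e (nat_lit 483393) (nat_lit 23) (.e (nat_lit 335994) (nat_lit 1) .nil)))) .nil)) 
(.lf (nat_lit 196326) (.g (nat_lit 1114) (.e (nat_lit 65628) (nat_lit 14) (.e (nat_lit 401458) (nat_lit 13) (.e (nat_lit 483386) (nat_lit 23) (.e (nat_lit 335992) (nat_lit 1) .nil)))) .nil)))) (.nd (nat_lit 5) (.nd (nat_lit 6) 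
(.lf (nat_lit 196246) (.g (nat_lit 691) (.e (nat_lit 65628) (nat_lit 14) (.e (nat_lit 401457) (nat_lit 13) (.e (nat_lit 483382) (nat_lit 23) .nil))) .nil)) 
(.lf (nat_lit 196310) (.g (nat_lit 1564) (.e (nat_lit 65628) (nat_lit 14) (.e (nat_lit 401458) (nat_lit 13) (.e (nat_lit 483379) (nat_lit 23) (.e (nat_lit 336330) (nat_lit 19) (.e (nat_lit 220928) (nat_lit 4) .nil))))) (.g (nat_lit 4) .nil .nil)))) (.nd (nat_lit 6) 
(.lf (nat_lit 196278) (.g (nat_lit 2086) (.e (nat_lit 65628) (nat_lit 14) (.e (nat_lit 401457) (nat_lit 13) (.e (nat_lit 483395) (nat_lit 24) (.e (nat_lit 344090) (nat_lit 18) (.e (nat_lit 5896) (nat_lit 320) .nil))))) .nil)) 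
(.lf (nat_lit 196342) (.g (nat_lit 484) (.e (nat_lit 65628) (nat_lit 14) (.e (nat_lit 401458) (nat_lit 13) (.e (nat_lit 491264) (nat_lit 23) .nil))) .nil))))) (.nd (nat_lit 4) (.nd (nat_lit 5) (.nd (nat_lit 6) 
(.lf (nat_lit 196238) (.g (nat_lit 665) (.e (nat_lit 65628) (nat_lit 14) (.e (nat_lit 401456) (nat_lit 13) (.e (nat_lit 483395) (nat_lit 24) .nil))) .nil)) 
(.lf (nat_lit 196302) (.g (nat_lit 2146) (.e (nat_lit 65628) (nat_lit 14) (.e (nat_lit 401457) (nat_lit 13) (.e (nat_lit 483413) (nat_lit 27) (.e (nat_lit 401463) (nat_lit 15) .nil)))) .nil))) (.nd (nat_lit 6) 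
(.lf (nat_lit 196270) (.g (nat_lit 2533) (.e (nat_lit 65628) (nat_lit 14) (.e (nat_lit 401457) (nat_lit 13) (.e (nat_lit 483394) (nat_lit 24) (.e (nat_lit 344097) (nat_lit 18) (.e (nat_lit 5906) (nat_lit 320) (.e (nat_lit 1190) (nat_lit 88) .nil)))))) (.g (nat_lit 4) .nil .nil))) 
(.lf (nat_lit 196334) (.g (nat_lit 3245) (.e (nat_lit 65628) (nat_lit 14) (.e (nat_lit 401458) (nat_lit 13) (.e (nat_lit 483391) (nat_lit 23) (.e (nat_lit 335998) (nat_lit 1) (.e (nat_lit 57873) (nat_lit 264) (.e (nat_lit 1200) (nat_lit 88) .nil)))))) (.g (nat_lit 0) .nil .nil))))) (.nd (nat_lit 5) (.nd (nat_lit 6) 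
(.lf (nat_lit 196254) (.g (nat_lit 1903) (.e (nat_lit 65628) (nat_lit 14) (.e (nat_lit 401457) (nat_lit 13) (.e (nat_lit 483389) (nat_lit 23) (.e (nat_lit 335997) (nat_lit 1) (.e (nat_lit 57870) (nat_lit 264) (.e (nat_lit 1189) (nat_lit 88) .nil)))))) (.g (nat_lit 4) .nil .nil))) 
(.lf (nat_lit 196318) (.g (nat_lit 1844) (.e (nat_lit 65628) (nat_lit 14) (.e (nat_lit 401458) (nat_lit 13) (.e (nat_lit 483383) (nat_lit 23) (.e (nat_lit 336000) (nat_lit 1) (.e (nat_lit 57870) (nat_lit 264) (.e (nat_lit 1199) (nat_lit 88) .nil)))))) (.g (nat_lit 4) .nil .nil)))) (.nd (nat_lit 6) 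
(.lf (nat_lit 196286) (.g (nat_lit 2893) (.e (nat_lit 65628) (nat_lit 14) (.e (nat_lit 401457) (nat_lit 13) (.e (nat_lit 483395) (nat_lit 24) (.e (nat_lit 344169) (nat_lit 40) (.e (nat_lit 671761) (nat_lit 4) .nil))))) (.g (nat_lit 5) .nil .nil))) 
(.lf (nat_lit 196350) (.g (nat_lit 2422) (.e (nat_lit 65628) (nat_lit 14) (.e (nat_lit 401458) (nat_lit 13) (.e (nat_lit 483394) (nat_lit 24) (.e (nat_lit 344169) (nat_lit 40) (.e (nat_lit 671760) (nat_lit 4) .nil))))) (.g (nat_lit 4) .nil .nil))))))))) (.nd (nat_lit 1) (.nd (nat_lit 2) (.nd (nat_lit 3) (.nd (nat_lit 4) (.nd (nat_lit 5) (.nd (nat_lit 6) 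
(.lf (nat_lit 196225) (.g (nat_lit 1738) (.e (nat_lit 65628) (nat_lit 14) (.e (nat_lit 401454) (nat_lit 12) (.e (nat_lit 475213) (nat_lit 42) (.e (nat_lit 720956) (nat_lit 25) (.e (nat_lit 114712) (nat_lit 21) .nil))))) .nil)) 
(.lf (nat_lit 196289) (.g (nat_lit 2003) (.e (nat_lit 65628) (nat_lit 14) (.e (nat_lit 401457) (nat_lit 13) (.e (nat_lit 483405) (nat_lit 26) (.e (nat_lit 385100) (nat_lit 49) (.e (nat_lit 786176) (nat_lit 4) .nil))))) (.g (nat_lit 4) .nil .nil)))) (.nd (nat_lit 6) 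
(.lf (nat_lit 196257) (.g (nat_lit 1521) (.e (nat_lit 65628) (nat_lit 14) (.e (nat_lit 401457) (nat_lit 13) (.e (nat_lit 483391) (nat_lit 23) (.e (nat_lit 336331) (nat_lit 19) (.e (nat_lit 220928) (nat_lit 4) .nil))))) (.g (nat_lit 4) .nil .nil))) 
(.lf (nat_lit 196321) (.g (nat_lit 1565) (.e (nat_lit 65628) (nat_lit 14) (.e (nat_lit 401458) (nat_lit 13) (.e (nat_lit 483383) (nat_lit 23) (.e (nat_lit 336029) (nat_lit 4) .nil)))) .nil)))) (.nd (nat_lit 5) (.nd (nat_lit 6) 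
(.lf (nat_lit 196241) (.g (nat_lit 966) (.e (nat_lit 65628) (nat_lit 14) (.e (nat_lit 401456) (nat_lit 13) (.e (nat_lit 483399) (nat_lit 25) .nil))) .nil)) 
(.lf (nat_lit 196305) (.g (nat_lit 545) (.e (nat_lit 65628) (nat_lit 14) (.e (nat_lit 401458) (nat_lit 13) (.e (nat_lit 483372) (nat_lit 21) .nil))) .nil))) (.nd (nat_lit 6) 
(.lf (nat_lit 196273) (.g (nat_lit 1233) (.e (nat_lit 65628) (nat_lit 14) (.e (nat_lit 401457) (nat_lit 13) (.e (nat_lit 483394) (nat_lit 24) (.e (nat_lit 344100) (nat_lit 18) .nil)))) .nil)) 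
(.lf (nat_lit 196337) (.g (nat_lit 2413) (.e (nat_lit 65628) (nat_lit 14) (.e (nat_lit 401458) (nat_lit 13) (.e (nat_lit 483392) (nat_lit 23) (.e (nat_lit 335995) (nat_lit 1) (.e (nat_lit 57872) (nat_lit 264) (.e (nat_lit 1190) (nat_lit 88) .nil)))))) (.g (nat_lit 4) .nil .nil)))))) (.nd (nat_lit 4) (.nd (nat_lit 5) (.nd (nat_lit 6) 
(.lf (nat_lit 196233) (.g (nat_lit 966) (.e (nat_lit 65628) (nat_lit 14) (.e (nat_lit 401456) (nat_lit 13) (.e (nat_lit 483386) (nat_lit 23) .nil))) .nil)) 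
(.lf (nat_lit 196297) (.g (nat_lit 1599) (.e (nat_lit 65628) (nat_lit 14) (.e (nat_lit 401457) (nat_lit 13) (.e (nat_lit 483408) (nat_lit 26) (.e (nat_lit 385100) (nat_lit 49) .nil)))) .nil))) (.nd (nat_lit 6) 
(.lf (nat_lit 196265) (.g (nat_lit 3226) (.e (nat_lit 65628) (nat_lit 14) (.e (nat_lit 401457) (nat_lit 13) (.e (nat_lit 483393) (nat_lit 23) (.e (nat_lit 335996) (nat_lit 1) (.e (nat_lit 57870) (nat_lit 264) (.e (nat_lit 1189) (nat_lit 88) .nil)))))) (.g (nat_lit 5) .nil .nil))) 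
(.lf (nat_lit 196329) (.g (nat_lit 1802) (.e (nat_lit 65628) (nat_lit 14) (.e (nat_lit 401458) (nat_lit 13) (.e (nat_lit 483389) (nat_lit 23) (.e (nat_lit 335997) (nat_lit 1) (.e (nat_lit 57871) (nat_lit 264) (.e (nat_lit 1189) (nat_lit 88) .nil)))))) (.g (nat_lit 4) .nil .nil))))) (.nd (nat_lit 5) (.nd (nat_lit 6) 
(.lf (nat_lit 196249) (.g (nat_lit 2269) (.e (nat_lit 65628) (nat_lit 14) (.e (nat_lit 401457) (nat_lit 13) (.e (nat_lit 483383) (nat_lit 23) (.e (nat_lit 336332) (nat_lit 19) (.e (nat_lit 220928) (nat_lit 4) .nil))))) (.g (nat_lit 4) .nil .nil))) 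
(.lf (nat_lit 196313) (.g (nat_lit 946) (.e (nat_lit 65628) (nat_lit 14) (.e (nat_lit 401458) (nat_lit 13) (.e (nat_lit 483383) (nat_lit 23) (.e (nat_lit 335878) (nat_lit 0) .nil)))) .nil))) (.nd (nat_lit 6) 
(.lf (nat_lit 196281) (.g (nat_lit 1435) (.e (nat_lit 65628) (nat_lit 14) (.e (nat_lit 401457) (nat_lit 13) (.e (nat_lit 483395) (nat_lit 24) (.e (nat_lit 352000) (nat_lit 39) .nil)))) .nil)) 
(.lf (nat_lit 196345) (.g (nat_lit 3353) (.e (nat_lit 65628) (nat_lit 14) (.e (nat_lit 401458) (nat_lit 13) (.e (nat_lit 483394) (nat_lit 24) (.e (nat_lit 344097) (nat_lit 18) (.e (nat_lit 5906) (nat_lit 320) (.e (nat_lit 1190) (nat_lit 88) .nil)))))) (.g (nat_lit 0) .nil .nil))))))) (.nd (nat_lit 3) (.nd (nat_lit 4) (.nd (nat_lit 5) (.nd (nat_lit 6) 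
(.lf (nat_lit 196229) (.g (nat_lit 4302) (.e (nat_lit 65628) (nat_lit 14) (.e (nat_lit 401454) (nat_lit 12) (.e (nat_lit 475214) (nat_lit 42) (.e (nat_lit 720955) (nat_lit 25) (.e (nat_lit 114712) (nat_lit 21) (.e (nat_lit 57665) (nat_lit 152) (.e (nat_lit 7936) (nat_lit 88) .nil))))))) (.g (nat_lit 5) .nil .nil))) 
(.lf (nat_lit 196293) (.g (nat_lit 2012) (.e (nat_lit 65628) (nat_lit 14) (.e (nat_lit 401457) (nat_lit 13) (.e (nat_lit 483406) (nat_lit 26) (.e (nat_lit 385099) (nat_lit 49) (.e (nat_lit 786176) (nat_lit 4) .nil))))) (.g (nat_lit 4) .nil .nil)))) (.nd (nat_lit 6) 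
(.lf (nat_lit 196261) (.g (nat_lit 1308) (.e (nat_lit 65628) (nat_lit 14) (.e (nat_lit 401457) (nat_lit 13) (.e (nat_lit 483393) (nat_lit 23) (.e (nat_lit 335993) (nat_lit 1) .nil)))) .nil)) 
(.lf (nat_lit 196325) (.g (nat_lit 1032) (.e (nat_lit 65628) (nat_lit 14) (.e (nat_lit 401458) (nat_lit 13) (.e (nat_lit 483386) (nat_lit 23) (.e (nat_lit 335985) (nat_lit 1) .nil)))) .nil)))) (.nd (nat_lit 5) (.nd (nat_lit 6) 
(.lf (nat_lit 196245) (.g (nat_lit 3162) (.e (nat_lit 65628) (nat_lit 14) (.e (nat_lit 401457) (nat_lit 13) (.e (nat_lit 483378) (nat_lit 23) (.e (nat_lit 335997) (nat_lit 1) (.e (nat_lit 57872) (nat_lit 264) (.e (nat_lit 1190) (nat_lit 88) .nil)))))) (.g (nat_lit 0) .nil .nil))) 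
(.lf (nat_lit 196309) (.g (nat_lit 2917) (.e (nat_lit 65628) (nat_lit 14) (.e (nat_lit 401458) (nat_lit 13) (.e (nat_lit 483378) (nat_lit 23) (.e (nat_lit 335997) (nat_lit 1) (.e (nat_lit 57872) (nat_lit 264) (.e (nat_lit 1190) (nat_lit 88) .nil)))))) (.g (nat_lit 0) .nil .nil)))) (.nd (nat_lit 6) 
(.lf (nat_lit 196277) (.g (nat_lit 1254) (.e (nat_lit 65628) (nat_lit 14) (.e (nat_lit 401457) (nat_lit 13) (.e (nat_lit 483395) (nat_lit 24) (.e (nat_lit 344088) (nat_lit 18) .nil)))) .nil)) 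
(.lf (nat_lit 196341) (.g (nat_lit 1024) (.e (nat_lit 65628) (nat_lit 14) (.e (nat_lit 401458) (nat_lit 13) (.e (nat_lit 483393) (nat_lit 23) (.e (nat_lit 335994) (nat_lit 1) .nil)))) .nil))))) (.nd (nat_lit 4) (.nd (nat_lit 5) (.nd (nat_lit 6) 
(.lf (nat_lit 196237) (.g (nat_lit 2188) (.e (nat_lit 65628) (nat_lit 14) (.e (nat_lit 401456) (nat_lit 13) (.e (nat_lit 483394) (nat_lit 24) (.e (nat_lit 344097) (nat_lit 18) (.e (nat_lit 5907) (nat_lit 320) .nil))))) .nil)) 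
(.lf (nat_lit 196301) (.g (nat_lit 2112) (.e (nat_lit 65628) (nat_lit 14) (.e (nat_lit 401457) (nat_lit 13) (.e (nat_lit 483413) (nat_lit 27) (.e (nat_lit 401421) (nat_lit 1) (.e (nat_lit 164421) (nat_lit 272) .nil))))) .nil))) (.nd (nat_lit 6) 
(.lf (nat_lit 196269) (.g (nat_lit 2628) (.e (nat_lit 65628) (nat_lit 14) (.e (nat_lit 401457) (nat_lit 13) (.e (nat_lit 483394) (nat_lit 24) (.e (nat_lit 344097) (nat_lit 18) (.e (nat_lit 5905) (nat_lit 320) (.e (nat_lit 1190) (nat_lit 88) .nil)))))) (.g (nat_lit 4) .nil .nil))) 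
(.lf (nat_lit 196333) (.g (nat_lit 2980) (.e (nat_lit 65628) (nat_lit 14) (.e (nat_lit 401458) (nat_lit 13) (.e (nat_lit 483391) (nat_lit 23) (.e (nat_lit 335998) (nat_lit 1) (.e (nat_lit 57873) (nat_lit 264) (.e (nat_lit 1199) (nat_lit 88) .nil)))))) (.g (nat_lit 0) .nil .nil))))) (.nd (nat_lit 5) (.nd (nat_lit 6) 
(.lf (nat_lit 196253) (.g (nat_lit 876) (.e (nat_lit 65628) (nat_lit 14) (.e (nat_lit 401457) (nat_lit 13) (.e (nat_lit 483388) (nat_lit 23) (.e (nat_lit 335907) (nat_lit 0) .nil)))) .nil)) 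
(.lf (nat_lit 196317) (.g (nat_lit 2134) (.e (nat_lit 65628) (nat_lit 14) (.e (nat_lit 401458) (nat_lit 13) (.e (nat_lit 483383) (nat_lit 23) (.e (nat_lit 336000) (nat_lit 1) (.e (nat_lit 57870) (nat_lit 264) (.e (nat_lit 1189) (nat_lit 88) .nil)))))) (.g (nat_lit 4) .nil .nil)))) (.nd (nat_lit 6) 
(.lf (nat_lit 196285) (.g (nat_lit 2439) (.e (nat_lit 65628) (nat_lit 14) (.e (nat_lit 401457) (nat_lit 13) (.e (nat_lit 483395) (nat_lit 24) (.e (nat_lit 344169) (nat_lit 40) (.e (nat_lit 671760) (nat_lit 4) .nil))))) (.g (nat_lit 4) .nil .nil))) 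
(.lf (nat_lit 196349) (.g (nat_lit 2188) (.e (nat_lit 65628) (nat_lit 14) (.e (nat_lit 401458) (nat_lit 13) (.e (nat_lit 483394) (nat_lit 24) (.e (nat_lit 344168) (nat_lit 40) (.e (nat_lit 671760) (nat_lit 4) .nil))))) (.g (nat_lit 4) .nil .nil)))))))) (.nd (nat_lit 2) (.nd (nat_lit 3) (.nd (nat_lit 4) (.nd (nat_lit 5) (.nd (nat_lit 6) 
(.lf (nat_lit 196227) (.g (nat_lit 1265) (.e (nat_lit 65628) (nat_lit 14) (.e (nat_lit 401454) (nat_lit 12) (.e (nat_lit 475214) (nat_lit 42) .nil))) .nil)) 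
(.lf (nat_lit 196291) (.g (nat_lit 1767) (.e (nat_lit 65628) (nat_lit 14) (.e (nat_lit 401457) (nat_lit 13) (.e (nat_lit 483406) (nat_lit 26) (.e (nat_lit 385091) (nat_lit 49) .nil)))) .nil))) (.nd (nat_lit 6) 
(.lf (nat_lit 196259) (.g (nat_lit 2291) (.e (nat_lit 65628) (nat_lit 14) (.e (nat_lit 401457) (nat_lit 13) (.e (nat_lit 483393) (nat_lit 23) (.e (nat_lit 335894) (nat_lit 0) (.e (nat_lit 1997) (nat_lit 137) .nil))))) .nil)) 
(.lf (nat_lit 196323) (.g (nat_lit 2127) (.e (nat_lit 65628) (nat_lit 14) (.e (nat_lit 401458) (nat_lit 13) (.e (nat_lit 483383) (nat_lit 23) (.e (nat_lit 336332) (nat_lit 19) (.e (nat_lit 220928) (nat_lit 4) .nil))))) (.g (nat_lit 4) .nil .nil))))) (.nd (nat_lit 5) (.nd (nat_lit 6) 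
(.lf (nat_lit 196243) (.g (nat_lit 569) (.e (nat_lit 65628) (nat_lit 14) (.e (nat_lit 401457) (nat_lit 13) (.e (nat_lit 483377) (nat_lit 22) .nil))) .nil)) 
(.lf (nat_lit 196307) (.g (nat_lit 1955) (.e (nat_lit 65628) (nat_lit 14) (.e (nat_lit 401458) (nat_lit 13) (.e (nat_lit 483378) (nat_lit 23) (.e (nat_lit 335907) (nat_lit 0) (.e (nat_lit 1996) (nat_lit 137) (.e (nat_lit 663567) (nat_lit 4) .nil)))))) (.g (nat_lit 4) .nil .nil)))) (.nd (nat_lit 6) 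
(.lf (nat_lit 196275) (.g (nat_lit 2243) (.e (nat_lit 65628) (nat_lit 14) (.e (nat_lit 401457) (nat_lit 13) (.e (nat_lit 483394) (nat_lit 24) (.e (nat_lit 344169) (nat_lit 40) (.e (nat_lit 671762) (nat_lit 4) .nil))))) (.g (nat_lit 4) .nil .nil))) 
(.lf (nat_lit 196339) (.g (nat_lit 431) (.e (nat_lit 65628) (nat_lit 14) (.e (nat_lit 401458) (nat_lit 13) (.e (nat_lit 483393) (nat_lit 23) .nil))) .nil))))) (.nd (nat_lit 4) (.nd (nat_lit 5) (.nd (nat_lit 6) 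
(.lf (nat_lit 196235) (.g (nat_lit 1273) (.e (nat_lit 65628) (nat_lit 14) (.e (nat_lit 401456) (nat_lit 13) (.e (nat_lit 483391) (nat_lit 23) (.e (nat_lit 335998) (nat_lit 1) .nil)))) .nil)) 
(.lf (nat_lit 196299) (.g (nat_lit 1841) (.e (nat_lit 65628) (nat_lit 14) (.e (nat_lit 401457) (nat_lit 13) (.e (nat_lit 483413) (nat_lit 27) (.e (nat_lit 401420) (nat_lit 1) .nil)))) .nil))) (.nd (nat_lit 6) 
(.lf (nat_lit 196267) (.g (nat_lit 1887) (.e (nat_lit 65628) (nat_lit 14) (.e (nat_lit 401457) (nat_lit 13) (.e (nat_lit 483394) (nat_lit 24) (.e (nat_lit 344090) (nat_lit 18) (.e (nat_lit 5896) (nat_lit 320) .nil))))) .nil)) 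
(.lf (nat_lit 196331) (.g (nat_lit 658) (.e (nat_lit 65628) (nat_lit 14) (.e (nat_lit 401458) (nat_lit 13) (.e (nat_lit 483391) (nat_lit 23) (.e (nat_lit 335998) (nat_lit 1) .nil)))) .nil)))) (.nd (nat_lit 5) (.nd (nat_lit 6) 
(.lf (nat_lit 196251) (.g (nat_lit 1832) (.e (nat_lit 65628) (nat_lit 14) (.e (nat_lit 401457) (nat_lit 13) (.e (nat_lit 483385) (nat_lit 23) (.e (nat_lit 336332) (nat_lit 19) (.e (nat_lit 220928) (nat_lit 4) .nil))))) (.g (nat_lit 4) .nil .nil))) 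
(.lf (nat_lit 196315) (.g (nat_lit 1432) (.e (nat_lit 65628) (nat_lit 14) (.e (nat_lit 401458) (nat_lit 13) (.e (nat_lit 483383) (nat_lit 23) (.e (nat_lit 335999) (nat_lit 1) .nil)))) .nil))) (.nd (nat_lit 6) 
(.lf (nat_lit 196283) (.g (nat_lit 2899) (.e (nat_lit 65628) (nat_lit 14) (.e (nat_lit 401457) (nat_lit 13) (.e (nat_lit 483395) (nat_lit 24) (.e (nat_lit 344168) (nat_lit 40) (.e (nat_lit 671761) (nat_lit 4) .nil))))) (.g (nat_lit 4) .nil .nil))) 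
(.lf (nat_lit 196347) (.g (nat_lit 3547) (.e (nat_lit 65628) (nat_lit 14) (.e (nat_lit 401458) (nat_lit 13) (.e (nat_lit 483394) (nat_lit 24) (.e (nat_lit 344097) (nat_lit 18) (.e (nat_lit 5907) (nat_lit 320) (.e (nat_lit 1200) (nat_lit 88) .nil)))))) (.g (nat_lit 0) .nil .nil))))))) (.nd (nat_lit 3) (.nd (nat_lit 4) (.nd (nat_lit 5) (.nd (nat_lit 6) 
(.lf (nat_lit 196231) (.g (nat_lit 4166) (.e (nat_lit 65628) (nat_lit 14) (.e (nat_lit 401454) (nat_lit 12) (.e (nat_lit 475214) (nat_lit 42) (.e (nat_lit 720956) (nat_lit 25) (.e (nat_lit 114712) (nat_lit 21) (.e (nat_lit 57665) (nat_lit 152) (.e (nat_lit 7936) (nat_lit 88) .nil))))))) (.g (nat_lit 5) .nil .nil))) 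
(.lf (nat_lit 196295) (.g (nat_lit 1351) (.e (nat_lit 65628) (nat_lit 14) (.e (nat_lit 401457) (nat_lit 13) (.e (nat_lit 483406) (nat_lit 26) (.e (nat_lit 392960) (nat_lit 49) .nil)))) .nil))) (.nd (nat_lit 6) 
(.lf (nat_lit 196263) (.g (nat_lit 2681) (.e (nat_lit 65628) (nat_lit 14) (.e (nat_lit 401457) (nat_lit 13) (.e (nat_lit 483393) (nat_lit 23) (.e (nat_lit 335995) (nat_lit 1) (.e (nat_lit 57870) (nat_lit 264) (.e (nat_lit 1189) (nat_lit 88) .nil)))))) (.g (nat_lit 4) .nil .nil))) 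
(.lf (nat_lit 196327) (.g (nat_lit 1122) (.e (nat_lit 65628) (nat_lit 14) (.e (nat_lit 401458) (nat_lit 13) (.e (nat_lit 483386) (nat_lit 23) (.e (nat_lit 336030) (nat_lit 4) .nil)))) .nil)))) (.nd (nat_lit 5) (.nd (nat_lit 6) 
(.lf (nat_lit 196247) (.g (nat_lit 1273) (.e (nat_lit 65628) (nat_lit 14) (.e (nat_lit 401457) (nat_lit 13) (.e (nat_lit 483383) (nat_lit 23) (.e (nat_lit 335878) (nat_lit 0) .nil)))) .nil)) 
(.lf (nat_lit 196311) (.g (nat_lit 1725) (.e (nat_lit 65628) (nat_lit 14) (.e (nat_lit 401458) (nat_lit 13) (.e (nat_lit 483379) (nat_lit 23) (.e (nat_lit 336332) (nat_lit 19) (.e (nat_lit 220928) (nat_lit 4) .nil))))) (.g (nat_lit 4) .nil .nil)))) (.nd (nat_lit 6) 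
(.lf (nat_lit 196279) (.g (nat_lit 2623) (.e (nat_lit 65628) (nat_lit 14) (.e (nat_lit 401457) (nat_lit 13) (.e (nat_lit 483395) (nat_lit 24) (.e (nat_lit 344090) (nat_lit 18) (.e (nat_lit 5896) (nat_lit 320) (.e (nat_lit 1199) (nat_lit 88) .nil)))))) (.g (nat_lit 4) .nil .nil))) 
(.lf (nat_lit 196343) (.g (nat_lit 1883) (.e (nat_lit 65628) (nat_lit 14) (.e (nat_lit 401458) (nat_lit 13) (.e (nat_lit 491264) (nat_lit 23) (.e (nat_lit 335995) (nat_lit 1) (.e (nat_lit 57872) (nat_lit 264) (.e (nat_lit 1190) (nat_lit 88) .nil)))))) (.g (nat_lit 4) .nil .nil)))))) (.nd (nat_lit 4) (.nd (nat_lit 5) (.nd (nat_lit 6) 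
(.lf (nat_lit 196239) (.g (nat_lit 2172) (.e (nat_lit 65628) (nat_lit 14) (.e (nat_lit 401456) (nat_lit 13) (.e (nat_lit 483395) (nat_lit 24) (.e (nat_lit 344090) (nat_lit 18) (.e (nat_lit 5896) (nat_lit 320) .nil))))) .nil)) 
(.lf (nat_lit 196303) (.g (nat_lit 1745) (.e (nat_lit 65628) (nat_lit 14) (.e (nat_lit 401458) (nat_lit 13) (.e (nat_lit 483350) (nat_lit 17) (.e (nat_lit 6490) (nat_lit 343) .nil)))) .nil))) (.nd (nat_lit 6) 
(.lf (nat_lit 196271) (.g (nat_lit 2479) (.e (nat_lit 65628) (nat_lit 14) (.e (nat_lit 401457) (nat_lit 13) (.e (nat_lit 483394) (nat_lit 24) (.e (nat_lit 344097) (nat_lit 18) (.e (nat_lit 5906) (nat_lit 320) (.e (nat_lit 1200) (nat_lit 88) .nil)))))) (.g (nat_lit 4) .nil .nil))) 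
(.lf (nat_lit 196335) (.g (nat_lit 1386) (.e (nat_lit 65628) (nat_lit 14) (.e (nat_lit 401458) (nat_lit 13) (.e (nat_lit 483391) (nat_lit 23) (.e (nat_lit 336331) (nat_lit 19) (.e (nat_lit 220928) (nat_lit 4) .nil))))) (.g (nat_lit 4) .nil .nil))))) (.nd (nat_lit 5) (.nd (nat_lit 6) 
(.lf (nat_lit 196255) (.g (nat_lit 691) (.e (nat_lit 65628) (nat_lit 14) (.e (nat_lit 401457) (nat_lit 13) (.e (nat_lit 483390) (nat_lit 23) .nil))) .nil)) 
(.lf (nat_lit 196319) (.g (nat_lit 3153) (.e (nat_lit 65628) (nat_lit 14) (.e (nat_lit 401458) (nat_lit 13) (.e (nat_lit 483383) (nat_lit 23) (.e (nat_lit 336000) (nat_lit 1) (.e (nat_lit 57873) (nat_lit 264) (.e (nat_lit 1199) (nat_lit 88) .nil)))))) (.g (nat_lit 0) .nil .nil)))) (.nd (nat_lit 6) 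
(.lf (nat_lit 196287) (.g (nat_lit 693) (.e (nat_lit 65628) (nat_lit 14) (.e (nat_lit 401457) (nat_lit 13) (.e (nat_lit 483403) (nat_lit 26) .nil))) .nil)) 
(.lf (nat_lit 196351) (.g (nat_lit 2418) (.e (nat_lit 65628) (nat_lit 14) (.e (nat_lit 401458) (nat_lit 13) (.e (nat_lit 483394) (nat_lit 24) (.e (nat_lit 344169) (nat_lit 40) (.e (nat_lit 671761) (nat_lit 4) .nil))))) (.g (nat_lit 4) .nil .nil))))))))))

noncomputable def tv2598 : DT := (.nd (nat_lit 0) (.nd (nat_lit 1) (.nd (nat_lit 2) (.nd (nat_lit 3) (.nd (nat_lit 4) (.nd (nat_lit 5) (.nd (nat_lit 6) 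
(.lf (nat_lit 196352) (.g (nat_lit 1418) (.e (nat_lit 65628) (nat_lit 14) (.e (nat_lit 401458) (nat_lit 13) (.e (nat_lit 483395) (nat_lit 24) (.e (nat_lit 344088) (nat_lit 18) (.e (nat_lit 5896) (nat_lit 320) .nil))))) .nil)) 
(.lf (nat_lit 196416) (.g (nat_lit 1975) (.e (nat_lit 65628) (nat_lit 14) (.e (nat_lit 401459) (nat_lit 13) (.e (nat_lit 483350) (nat_lit 17) (.e (nat_lit 6240) (nat_lit 336) .nil)))) .nil))) (.nd (nat_lit 6) 
(.lf (nat_lit 196384) (.g (nat_lit 1231) (.e (nat_lit 65628) (nat_lit 14) (.e (nat_lit 401459) (nat_lit 13) (.e (nat_lit 483344) (nat_lit 17) (.e (nat_lit 6445) (nat_lit 343) .nil)))) .nil)) 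
(.lf (nat_lit 196448) (.g (nat_lit 3929) (.e (nat_lit 65628) (nat_lit 14) (.e (nat_lit 401459) (nat_lit 13) (.e (nat_lit 483372) (nat_lit 21) (.e (nat_lit 319502) (nat_lit 10) .nil)))) .nil)))) (.nd (nat_lit 5) (.nd (nat_lit 6) 
(.lf (nat_lit 196368) (.g (nat_lit 2376) (.e (nat_lit 65628) (nat_lit 14) (.e (nat_lit 401458) (nat_lit 13) (.e (nat_lit 483396) (nat_lit 24) (.e (nat_lit 344169) (nat_lit 40) (.e (nat_lit 671761) (nat_lit 4) .nil))))) (.g (nat_lit 4) .nil .nil))) 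
(.lf (nat_lit 196432) (.g (nat_lit 4607) (.e (nat_lit 65628) (nat_lit 14) (.e (nat_lit 401459) (nat_lit 13) (.e (nat_lit 483372) (nat_lit 21) (.e (nat_lit 319490) (nat_lit 0) (.e (nat_lit 75) (nat_lit 0) (.e (nat_lit 5841) (nat_lit 320) (.e (nat_lit 1194) (nat_lit 88) .nil))))))) (.g (nat_lit 4) .nil .nil)))) (.nd (nat_lit 6) 
(.lf (nat_lit 196400) (.g (nat_lit 2893) (.e (nat_lit 65628) (nat_lit 14) (.e (nat_lit 401459) (nat_lit 13) (.e (nat_lit 483344) (nat_lit 17) (.e (nat_lit 6712) (nat_lit 360) (.e (nat_lit 163990) (nat_lit 34) (.e (nat_lit 606226) (nat_lit 4) .nil)))))) (.g (nat_lit 4) .nil .nil))) 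
(.lf (nat_lit 196464) (.g (nat_lit 1689) (.e (nat_lit 65628) (nat_lit 14) (.e (nat_lit 401459) (nat_lit 13) (.e (nat_lit 483375) (nat_lit 22) (.e (nat_lit 327680) (nat_lit 0) .nil)))) .nil))))) (.nd (nat_lit 4) (.nd (nat_lit 5) (.nd (nat_lit 6) 
(.lf (nat_lit 196360) (.g (nat_lit 2718) (.e (nat_lit 65628) (nat_lit 14) (.e (nat_lit 401458) (nat_lit 13) (.e (nat_lit 483395) (nat_lit 24) (.e (nat_lit 344169) (nat_lit 40) (.e (nat_lit 671761) (nat_lit 4) .nil))))) (.g (nat_lit 5) .nil .nil))) 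
(.lf (nat_lit 196424) (.g (nat_lit 1750) (.e (nat_lit 65628) (nat_lit 14) (.e (nat_lit 401459) (nat_lit 13) (.e (nat_lit 483364) (nat_lit 18) (.e (nat_lit 65280) (nat_lit 230) .nil)))) .nil))) (.nd (nat_lit 6) 
(.lf (nat_lit 196392) (.g (nat_lit 2895) (.e (nat_lit 65628) (nat_lit 14) (.e (nat_lit 401459) (nat_lit 13) (.e (nat_lit 483344) (nat_lit 17) (.e (nat_lit 6712) (nat_lit 360) (.e (nat_lit 163844) (nat_lit 0) (.e (nat_lit 4598) (nat_lit 269) (.e (nat_lit 1196) (nat_lit 88) .nil))))))) (.g (nat_lit 4) .nil .nil))) 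
(.lf (nat_lit 196456) (.g (nat_lit 3532) (.e (nat_lit 65628) (nat_lit 14) (.e (nat_lit 401459) (nat_lit 13) (.e (nat_lit 483372) (nat_lit 21) (.e (nat_lit 319511) (nat_lit 10) .nil)))) .nil)))) (.nd (nat_lit 5) (.nd (nat_lit 6) 
(.lf (nat_lit 196376) (.g (nat_lit 1528) (.e (nat_lit 65628) (nat_lit 14) (.e (nat_lit 401458) (nat_lit 13) (.e (nat_lit 483406) (nat_lit 26) (.e (nat_lit 385100) (nat_lit 49) .nil)))) .nil)) 
(.lf (nat_lit 196440) (.g (nat_lit 2283) (.e (nat_lit 65628) (nat_lit 14) (.e (nat_lit 401459) (nat_lit 13) (.e (nat_lit 483372) (nat_lit 21) (.e (nat_lit 327424) (nat_lit 0) .nil)))) .nil))) (.nd (nat_lit 6) 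
(.lf (nat_lit 196408) (.g (nat_lit 2472) (.e (nat_lit 65628) (nat_lit 14) (.e (nat_lit 401459) (nat_lit 13) (.e (nat_lit 483344) (nat_lit 17) (.e (nat_lit 6714) (nat_lit 360) (.e (nat_lit 163990) (nat_lit 34) (.e (nat_lit 606226) (nat_lit 4) .nil)))))) (.g (nat_lit 4) .nil .nil))) 
(.lf (nat_lit 196472) (.g (nat_lit 2251) (.e (nat_lit 65628) (nat_lit 14) (.e (nat_lit 401459) (nat_lit 13) (.e (nat_lit 483379) (nat_lit 23) (.e (nat_lit 336330) (nat_lit 19) (.e (nat_lit 220928) (nat_lit 4) .nil))))) (.g (nat_lit 4) .nil .nil))))))) (.nd (nat_lit 3) (.nd (nat_lit 4) (.nd (nat_lit 5) (.nd (nat_lit 6) 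
(.lf (nat_lit 196356) (.g (nat_lit 2556) (.e (nat_lit 65628) (nat_lit 14) (.e (nat_lit 401458) (nat_lit 13) (.e (nat_lit 483395) (nat_lit 24) (.e (nat_lit 344168) (nat_lit 40) (.e (nat_lit 671760) (nat_lit 4) .nil))))) (.g (nat_lit 4) .nil .nil))) 
(.lf (nat_lit 196420) (.g (nat_lit 1854) (.e (nat_lit 65628) (nat_lit 14) (.e (nat_lit 401459) (nat_lit 13) (.e (nat_lit 483350) (nat_lit 17) (.e (nat_lit 7936) (nat_lit 343) .nil)))) .nil))) (.nd (nat_lit 6) 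
(.lf (nat_lit 196388) (.g (nat_lit 3007) (.e (nat_lit 65628) (nat_lit 14) (.e (nat_lit 401459) (nat_lit 13) (.e (nat_lit 483344) (nat_lit 17) (.e (nat_lit 6513) (nat_lit 346) (.e (nat_lit 57354) (nat_lit 0) (.e (nat_lit 5907) (nat_lit 320) (.e (nat_lit 1200) (nat_lit 88) .nil))))))) (.g (nat_lit 5) .nil .nil))) 
(.lf (nat_lit 196452) (.g (nat_lit 5023) (.e (nat_lit 65628) (nat_lit 14) (.e (nat_lit 401459) (nat_lit 13) (.e (nat_lit 483372) (nat_lit 21) (.e (nat_lit 319504) (nat_lit 10) (.e (nat_lit 34) (nat_lit 0) .nil))))) .nil)))) (.nd (nat_lit 5) (.nd (nat_lit 6) 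
(.lf (nat_lit 196372) (.g (nat_lit 765) (.e (nat_lit 65628) (nat_lit 14) (.e (nat_lit 401458) (nat_lit 13) (.e (nat_lit 483400) (nat_lit 25) (.e (nat_lit 368662) (nat_lit 18) .nil)))) .nil)) 
(.lf (nat_lit 196436) (.g (nat_lit 3876) (.e (nat_lit 65628) (nat_lit 14) (.e (nat_lit 401459) (nat_lit 13) (.e (nat_lit 483372) (nat_lit 21) (.e (nat_lit 319491) (nat_lit 0) .nil)))) .nil))) (.nd (nat_lit 6) 
(.lf (nat_lit 196404) (.g (nat_lit 3272) (.e (nat_lit 65628) (nat_lit 14) (.e (nat_lit 401459) (nat_lit 13) (.e (nat_lit 483344) (nat_lit 17) (.e (nat_lit 6714) (nat_lit 360) (.e (nat_lit 163850) (nat_lit 0) (.e (nat_lit 4605) (nat_lit 269) (.e (nat_lit 1196) (nat_lit 88) .nil))))))) (.g (nat_lit 5) .nil .nil))) 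
(.lf (nat_lit 196468) (.g (nat_lit 510) (.e (nat_lit 65628) (nat_lit 14) (.e (nat_lit 401459) (nat_lit 13) (.e (nat_lit 483378) (nat_lit 23) .nil))) .nil))))) (.nd (nat_lit 4) (.nd (nat_lit 5) (.nd (nat_lit 6) 
(.lf (nat_lit 196364) (.g (nat_lit 2509) (.e (nat_lit 65628) (nat_lit 14) (.e (nat_lit 401458) (nat_lit 13) (.e (nat_lit 483396) (nat_lit 24) (.e (nat_lit 344097) (nat_lit 18) (.e (nat_lit 5907) (nat_lit 320) (.e (nat_lit 1199) (nat_lit 88) .nil)))))) (.g (nat_lit 4) .nil .nil))) 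
(.lf (nat_lit 196428) (.g (nat_lit 3073) (.e (nat_lit 65628) (nat_lit 14) (.e (nat_lit 401459) (nat_lit 13) (.e (nat_lit 483372) (nat_lit 21) (.e (nat_lit 319490) (nat_lit 0) .nil)))) .nil))) (.nd (nat_lit 6) 
(.lf (nat_lit 196396) (.g (nat_lit 2523) (.e (nat_lit 65628) (nat_lit 14) (.e (nat_lit 401459) (nat_lit 13) (.e (nat_lit 483344) (nat_lit 17) (.e (nat_lit 6712) (nat_lit 360) (.e (nat_lit 163988) (nat_lit 34) (.e (nat_lit 606226) (nat_lit 4) .nil)))))) (.g (nat_lit 4) .nil .nil))) 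
(.lf (nat_lit 196460) (.g (nat_lit 3628) (.e (nat_lit 65628) (nat_lit 14) (.e (nat_lit 401459) (nat_lit 13) (.e (nat_lit 483372) (nat_lit 21) (.e (nat_lit 319516) (nat_lit 11) .nil)))) .nil)))) (.nd (nat_lit 5) (.nd (nat_lit 6) 
(.lf (nat_lit 196380) (.g (nat_lit 2834) (.e (nat_lit 65628) (nat_lit 14) (.e (nat_lit 401459) (nat_lit 13) (.e (nat_lit 483343) (nat_lit 17) (.e (nat_lit 6714) (nat_lit 360) (.e (nat_lit 163843) (nat_lit 0) (.e (nat_lit 4598) (nat_lit 269) (.e (nat_lit 1200) (nat_lit 88) .nil))))))) (.g (nat_lit 5) .nil .nil))) 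
(.lf (nat_lit 196444) (.g (nat_lit 3959) (.e (nat_lit 65628) (nat_lit 14) (.e (nat_lit 401459) (nat_lit 13) (.e (nat_lit 483372) (nat_lit 21) (.e (nat_lit 319497) (nat_lit 10) .nil)))) .nil))) (.nd (nat_lit 6) 
(.lf (nat_lit 196412) (.g (nat_lit 1484) (.e (nat_lit 65628) (nat_lit 14) (.e (nat_lit 401459) (nat_lit 13) (.e (nat_lit 483350) (nat_lit 17) (.e (nat_lit 6113) (nat_lit 332) .nil)))) .nil)) 
(.lf (nat_lit 196476) (.g (nat_lit 2272) (.e (nat_lit 65628) (nat_lit 14) (.e (nat_lit 401459) (nat_lit 13) (.e (nat_lit 483380) (nat_lit 23) (.e (nat_lit 335880) (nat_lit 0) .nil)))) .nil))))))) (.nd (nat_lit 2) (.nd (nat_lit 3) (.nd (nat_lit 4) (.nd (nat_lit 5) (.nd (nat_lit 6) 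
(.lf (nat_lit 196354) (.g (nat_lit 3253) (.e (nat_lit 65628) (nat_lit 14) (.e (nat_lit 401458) (nat_lit 13) (.e (nat_lit 483395) (nat_lit 24) (.e (nat_lit 344097) (nat_lit 18) (.e (nat_lit 5906) (nat_lit 320) (.e (nat_lit 1190) (nat_lit 88) .nil)))))) (.g (nat_lit 0) .nil .nil))) 
(.lf (nat_lit 196418) (.g (nat_lit 2154) (.e (nat_lit 65628) (nat_lit 14) (.e (nat_lit 401459) (nat_lit 13) (.e (nat_lit 483350) (nat_lit 17) (.e (nat_lit 6475) (nat_lit 343) (.e (nat_lit 7936) (nat_lit 18) .nil))))) .nil))) (.nd (nat_lit 6) 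
(.lf (nat_lit 196386) (.g (nat_lit 2588) (.e (nat_lit 65628) (nat_lit 14) (.e (nat_lit 401459) (nat_lit 13) (.e (nat_lit 483344) (nat_lit 17) (.e (nat_lit 6445) (nat_lit 343) (.e (nat_lit 182) (nat_lit 13) (.e (nat_lit 220928) (nat_lit 4) .nil)))))) (.g (nat_lit 4) .nil .nil))) 
(.lf (nat_lit 196450) (.g (nat_lit 3857) (.e (nat_lit 65628) (nat_lit 14) (.e (nat_lit 401459) (nat_lit 13) (.e (nat_lit 483372) (nat_lit 21) (.e (nat_lit 319503) (nat_lit 10) .nil)))) .nil)))) (.nd (nat_lit 5) (.nd (nat_lit 6) 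
(.lf (nat_lit 196370) (.g (nat_lit 2298) (.e (nat_lit 65628) (nat_lit 14) (.e (nat_lit 401458) (nat_lit 13) (.e (nat_lit 483398) (nat_lit 25) (.e (nat_lit 368662) (nat_lit 18) (.e (nat_lit 5905) (nat_lit 320) (.e (nat_lit 1189) (nat_lit 88) .nil)))))) (.g (nat_lit 5) .nil .nil))) 
(.lf (nat_lit 196434) (.g (nat_lit 4843) (.e (nat_lit 65628) (nat_lit 14) (.e (nat_lit 401459) (nat_lit 13) (.e (nat_lit 483372) (nat_lit 21) (.e (nat_lit 319490) (nat_lit 0) (.e (nat_lit 75) (nat_lit 0) (.e (nat_lit 5902) (nat_lit 320) (.e (nat_lit 1190) (nat_lit 88) .nil))))))) (.g (nat_lit 4) .nil .nil)))) (.nd (nat_lit 6) 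
(.lf (nat_lit 196402) (.g (nat_lit 3365) (.e (nat_lit 65628) (nat_lit 14) (.e (nat_lit 401459) (nat_lit 13) (.e (nat_lit 483344) (nat_lit 17) (.e (nat_lit 6714) (nat_lit 360) (.e (nat_lit 163843) (nat_lit 0) (.e (nat_lit 4598) (nat_lit 269) (.e (nat_lit 1196) (nat_lit 88) .nil))))))) (.g (nat_lit 5) .nil .nil))) 
(.lf (nat_lit 196466) (.g (nat_lit 3505) (.e (nat_lit 65628) (nat_lit 14) (.e (nat_lit 401459) (nat_lit 13) (.e (nat_lit 483375) (nat_lit 22) (.e (nat_lit 327692) (nat_lit 1) (.e (nat_lit 8435) (nat_lit 138) (.e (nat_lit 1194) (nat_lit 88) .nil)))))) (.g (nat_lit 6) .nil .nil)))))) (.nd (nat_lit 4) (.nd (nat_lit 5) (.nd (nat_lit 6) 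
(.lf (nat_lit 196362) (.g (nat_lit 2591) (.e (nat_lit 65628) (nat_lit 14) (.e (nat_lit 401458) (nat_lit 13) (.e (nat_lit 483396) (nat_lit 24) (.e (nat_lit 344097) (nat_lit 18) (.e (nat_lit 5906) (nat_lit 320) (.e (nat_lit 1190) (nat_lit 88) .nil)))))) (.g (nat_lit 4) .nil .nil))) 
(.lf (nat_lit 196426) (.g (nat_lit 4541) (.e (nat_lit 65628) (nat_lit 14) (.e (nat_lit 401459) (nat_lit 13) (.e (nat_lit 483372) (nat_lit 21) (.e (nat_lit 319488) (nat_lit 0) .nil)))) .nil))) (.nd (nat_lit 6) 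
(.lf (nat_lit 196394) (.g (nat_lit 2790) (.e (nat_lit 65628) (nat_lit 14) (.e (nat_lit 401459) (nat_lit 13) (.e (nat_lit 483344) (nat_lit 17) (.e (nat_lit 6712) (nat_lit 360) (.e (nat_lit 163850) (nat_lit 0) (.e (nat_lit 4605) (nat_lit 269) (.e (nat_lit 1196) (nat_lit 88) .nil))))))) (.g (nat_lit 4) .nil .nil))) 
(.lf (nat_lit 196458) (.g (nat_lit 3360) (.e (nat_lit 65628) (nat_lit 14) (.e (nat_lit 401459) (nat_lit 13) (.e (nat_lit 483372) (nat_lit 21) (.e (nat_lit 319514) (nat_lit 11) .nil)))) .nil)))) (.nd (nat_lit 5) (.nd (nat_lit 6) 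
(.lf (nat_lit 196378) (.g (nat_lit 555) (.e (nat_lit 65628) (nat_lit 14) (.e (nat_lit 401459) (nat_lit 13) (.e (nat_lit 483343) (nat_lit 17) .nil))) .nil)) 
(.lf (nat_lit 196442) (.g (nat_lit 3735) (.e (nat_lit 65628) (nat_lit 14) (.e (nat_lit 401459) (nat_lit 13) (.e (nat_lit 483372) (nat_lit 21) (.e (nat_lit 319496) (nat_lit 10) .nil)))) .nil))) (.nd (nat_lit 6) 
(.lf (nat_lit 196410) (.g (nat_lit 1026) (.e (nat_lit 65628) (nat_lit 14) (.e (nat_lit 401459) (nat_lit 13) (.e (nat_lit 483347) (nat_lit 17) (.e (nat_lit 6198) (nat_lit 332) .nil)))) .nil)) 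
(.lf (nat_lit 196474) (.g (nat_lit 656) (.e (nat_lit 65628) (nat_lit 14) (.e (nat_lit 401459) (nat_lit 13) (.e (nat_lit 483380) (nat_lit 23) .nil))) .nil)))))) (.nd (nat_lit 3) (.nd (nat_lit 4) (.nd (nat_lit 5) (.nd (nat_lit 6) 
(.lf (nat_lit 196358) (.g (nat_lit 3302) (.e (nat_lit 65628) (nat_lit 14) (.e (nat_lit 401458) (nat_lit 13) (.e (nat_lit 483395) (nat_lit 24) (.e (nat_lit 344168) (nat_lit 40) (.e (nat_lit 671762) (nat_lit 4) .nil))))) (.g (nat_lit 0) .nil .nil))) 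
(.lf (nat_lit 196422) (.g (nat_lit 618) (.e (nat_lit 65628) (nat_lit 14) (.e (nat_lit 401459) (nat_lit 13) (.e (nat_lit 483354) (nat_lit 17) .nil))) .nil))) (.nd (nat_lit 6) 
(.lf (nat_lit 196390) (.g (nat_lit 3794) (.e (nat_lit 65628) (nat_lit 14) (.e (nat_lit 401459) (nat_lit 13) (.e (nat_lit 483344) (nat_lit 17) (.e (nat_lit 6514) (nat_lit 346) (.e (nat_lit 57354) (nat_lit 0) (.e (nat_lit 5907) (nat_lit 320) (.e (nat_lit 1190) (nat_lit 88) .nil))))))) (.g (nat_lit 6) .nil .nil))) 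
(.lf (nat_lit 196454) (.g (nat_lit 3406) (.e (nat_lit 65628) (nat_lit 14) (.e (nat_lit 401459) (nat_lit 13) (.e (nat_lit 483372) (nat_lit 21) (.e (nat_lit 319505) (nat_lit 10) .nil)))) .nil)))) (.nd (nat_lit 5) (.nd (nat_lit 6) 
(.lf (nat_lit 196374) (.g (nat_lit 1840) (.e (nat_lit 65628) (nat_lit 14) (.e (nat_lit 401458) (nat_lit 13) (.e (nat_lit 483406) (nat_lit 26) (.e (nat_lit 385096) (nat_lit 49) (.e (nat_lit 786176) (nat_lit 4) .nil))))) (.g (nat_lit 4) .nil .nil))) 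
(.lf (nat_lit 196438) (.g (nat_lit 4435) (.e (nat_lit 65628) (nat_lit 14) (.e (nat_lit 401459) (nat_lit 13) (.e (nat_lit 483372) (nat_lit 21) (.e (nat_lit 319494) (nat_lit 0) .nil)))) .nil))) (.nd (nat_lit 6) 
(.lf (nat_lit 196406) (.g (nat_lit 2484) (.e (nat_lit 65628) (nat_lit 14) (.e (nat_lit 401459) (nat_lit 13) (.e (nat_lit 483344) (nat_lit 17) (.e (nat_lit 6714) (nat_lit 360) (.e (nat_lit 163989) (nat_lit 34) (.e (nat_lit 606226) (nat_lit 4) .nil)))))) (.g (nat_lit 4) .nil .nil))) 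
(.lf (nat_lit 196470) (.g (nat_lit 3453) (.e (nat_lit 65628) (nat_lit 14) (.e (nat_lit 401459) (nat_lit 13) (.e (nat_lit 483378) (nat_lit 23) (.e (nat_lit 335997) (nat_lit 1) (.e (nat_lit 57872) (nat_lit 264) (.e (nat_lit 1190) (nat_lit 88) .nil)))))) (.g (nat_lit 0) .nil .nil)))))) (.nd (nat_lit 4) (.nd (nat_lit 5) (.nd (nat_lit 6) 
(.lf (nat_lit 196366) (.g (nat_lit 2508) (.e (nat_lit 65628) (nat_lit 14) (.e (nat_lit 401458) (nat_lit 13) (.e (nat_lit 483396) (nat_lit 24) (.e (nat_lit 344168) (nat_lit 40) (.e (nat_lit 671762) (nat_lit 4) .nil))))) (.g (nat_lit 5) .nil .nil))) 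
(.lf (nat_lit 196430) (.g (nat_lit 4292) (.e (nat_lit 65628) (nat_lit 14) (.e (nat_lit 401459) (nat_lit 13) (.e (nat_lit 483372) (nat_lit 21) (.e (nat_lit 319490) (nat_lit 0) (.e (nat_lit 63) (nat_lit 0) .nil))))) .nil))) (.nd (nat_lit 6) 
(.lf (nat_lit 196398) (.g (nat_lit 2901) (.e (nat_lit 65628) (nat_lit 14) (.e (nat_lit 401459) (nat_lit 13) (.e (nat_lit 483344) (nat_lit 17) (.e (nat_lit 6712) (nat_lit 360) (.e (nat_lit 163989) (nat_lit 34) (.e (nat_lit 606226) (nat_lit 4) .nil)))))) (.g (nat_lit 4) .nil .nil))) 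
(.lf (nat_lit 196462) (.g (nat_lit 2798) (.e (nat_lit 65628) (nat_lit 14) (.e (nat_lit 401459) (nat_lit 13) (.e (nat_lit 483374) (nat_lit 22) (.e (nat_lit 327684) (nat_lit 0) (.e (nat_lit 81) (nat_lit 0) (.e (nat_lit 5827) (nat_lit 320) (.e (nat_lit 1194) (nat_lit 88) .nil))))))) (.g (nat_lit 4) .nil .nil))))) (.nd (nat_lit 5) (.nd (nat_lit 6) 
(.lf (nat_lit 196382) (.g (nat_lit 1705) (.e (nat_lit 65628) (nat_lit 14) (.e (nat_lit 401459) (nat_lit 13) (.e (nat_lit 483344) (nat_lit 17) (.e (nat_lit 6203) (nat_lit 332) (.e (nat_lit 2544) (nat_lit 158) .nil))))) .nil)) 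
(.lf (nat_lit 196446) (.g (nat_lit 4628) (.e (nat_lit 65628) (nat_lit 14) (.e (nat_lit 401459) (nat_lit 13) (.e (nat_lit 483372) (nat_lit 21) (.e (nat_lit 319499) (nat_lit 10) .nil)))) .nil))) (.nd (nat_lit 6) 
(.lf (nat_lit 196414) (.g (nat_lit 3546) (.e (nat_lit 65628) (nat_lit 14) (.e (nat_lit 401459) (nat_lit 13) (.e (nat_lit 483350) (nat_lit 17) (.e (nat_lit 6113) (nat_lit 332) (.e (nat_lit 2538) (nat_lit 158) (.e (nat_lit 8433) (nat_lit 138) (.e (nat_lit 1193) (nat_lit 88) .nil))))))) (.g (nat_lit 4) .nil .nil))) 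
(.lf (nat_lit 196478) (.g (nat_lit 2306) (.e (nat_lit 65628) (nat_lit 14) (.e (nat_lit 401459) (nat_lit 13) (.e (nat_lit 483380) (nat_lit 23) (.e (nat_lit 335971) (nat_lit 0) .nil)))) .nil)))))))) (.nd (nat_lit 1) (.nd (nat_lit 2) (.nd (nat_lit 3) (.nd (nat_lit 4) (.nd (nat_lit 5) (.nd (nat_lit 6) 
(.lf (nat_lit 196353) (.g (nat_lit 1857) (.e (nat_lit 65628) (nat_lit 14) (.e (nat_lit 401458) (nat_lit 13) (.e (nat_lit 483395) (nat_lit 24) (.e (nat_lit 344090) (nat_lit 18) (.e (nat_lit 5896) (nat_lit 320) (.e (nat_lit 7936) (nat_lit 88) .nil)))))) (.g (nat_lit 4) .nil .nil))) 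
(.lf (nat_lit 196417) (.g (nat_lit 1992) (.e (nat_lit 65628) (nat_lit 14) (.e (nat_lit 401459) (nat_lit 13) (.e (nat_lit 483350) (nat_lit 17) (.e (nat_lit 6475) (nat_lit 343) .nil)))) .nil))) (.nd (nat_lit 6) 
(.lf (nat_lit 196385) (.g (nat_lit 1584) (.e (nat_lit 65628) (nat_lit 14) (.e (nat_lit 401459) (nat_lit 13) (.e (nat_lit 483344) (nat_lit 17) (.e (nat_lit 6445) (nat_lit 343) (.e (nat_lit 180) (nat_lit 13) .nil))))) .nil)) 
(.lf (nat_lit 196449) (.g (nat_lit 4292) (.e (nat_lit 65628) (nat_lit 14) (.e (nat_lit 401459) (nat_lit 13) (.e (nat_lit 483372) (nat_lit 21) (.e (nat_lit 319502) (nat_lit 10) (.e (nat_lit 660) (nat_lit 54) .nil))))) .nil)))) (.nd (nat_lit 5) (.nd (nat_lit 6) 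
(.lf (nat_lit 196369) (.g (nat_lit 610) (.e (nat_lit 65628) (nat_lit 14) (.e (nat_lit 401458) (nat_lit 13) (.e (nat_lit 483397) (nat_lit 25) .nil))) .nil)) 
(.lf (nat_lit 196433) (.g (nat_lit 4374) (.e (nat_lit 65628) (nat_lit 14) (.e (nat_lit 401459) (nat_lit 13) (.e (nat_lit 483372) (nat_lit 21) (.e (nat_lit 319490) (nat_lit 0) (.e (nat_lit 75) (nat_lit 0) (.e (nat_lit 5902) (nat_lit 320) (.e (nat_lit 1189) (nat_lit 88) .nil))))))) (.g (nat_lit 4) .nil .nil)))) (.nd (nat_lit 6) 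
(.lf (nat_lit 196401) (.g (nat_lit 3194) (.e (nat_lit 65628) (nat_lit 14) (.e (nat_lit 401459) (nat_lit 13) (.e (nat_lit 483344) (nat_lit 17) (.e (nat_lit 6714) (nat_lit 360) (.e (nat_lit 163843) (nat_lit 0) (.e (nat_lit 4598) (nat_lit 269) (.e (nat_lit 1190) (nat_lit 88) .nil))))))) (.g (nat_lit 5) .nil .nil))) 
(.lf (nat_lit 196465) (.g (nat_lit 1621) (.e (nat_lit 65628) (nat_lit 14) (.e (nat_lit 401459) (nat_lit 13) (.e (nat_lit 483375) (nat_lit 22) (.e (nat_lit 327692) (nat_lit 1) .nil)))) .nil))))) (.nd (nat_lit 4) (.nd (nat_lit 5) (.nd (nat_lit 6) 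
(.lf (nat_lit 196361) (.g (nat_lit 1702) (.e (nat_lit 65628) (nat_lit 14) (.e (nat_lit 401458) (nat_lit 13) (.e (nat_lit 483396) (nat_lit 24) (.e (nat_lit 344091) (nat_lit 18) (.e (nat_lit 5896) (nat_lit 320) .nil))))) .nil)) 
(.lf (nat_lit 196425) (.g (nat_lit 1750) (.e (nat_lit 65628) (nat_lit 14) (.e (nat_lit 401459) (nat_lit 13) (.e (nat_lit 483364) (nat_lit 18) (.e (nat_lit 65280) (nat_lit 231) .nil)))) .nil))) (.nd (nat_lit 6) 
(.lf (nat_lit 196393) (.g (nat_lit 3645) (.e (nat_lit 65628) (nat_lit 14) (.e (nat_lit 401459) (nat_lit 13) (.e (nat_lit 483344) (nat_lit 17) (.e (nat_lit 6712) (nat_lit 360) (.e (nat_lit 163850) (nat_lit 0) (.e (nat_lit 4605) (nat_lit 269) (.e (nat_lit 1190) (nat_lit 88) .nil))))))) (.g (nat_lit 5) .nil .nil))) 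
(.lf (nat_lit 196457) (.g (nat_lit 2283) (.e (nat_lit 65628) (nat_lit 14) (.e (nat_lit 401459) (nat_lit 13) (.e (nat_lit 483372) (nat_lit 21) (.e (nat_lit 327424) (nat_lit 10) .nil)))) .nil)))) (.nd (nat_lit 5) (.nd (nat_lit 6) 
(.lf (nat_lit 196377) (.g (nat_lit 980) (.e (nat_lit 65628) (nat_lit 14) (.e (nat_lit 401458) (nat_lit 13) (.e (nat_lit 483406) (nat_lit 26) (.e (nat_lit 392960) (nat_lit 49) .nil)))) .nil)) 
(.lf (nat_lit 196441) (.g (nat_lit 2283) (.e (nat_lit 65628) (nat_lit 14) (.e (nat_lit 401459) (nat_lit 13) (.e (nat_lit 483372) (nat_lit 21) (.e (nat_lit 327424) (nat_lit 1) .nil)))) .nil))) (.nd (nat_lit 6) 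
(.lf (nat_lit 196409) (.g (nat_lit 743) (.e (nat_lit 65628) (nat_lit 14) (.e (nat_lit 401459) (nat_lit 13) (.e (nat_lit 483347) (nat_lit 17) .nil))) .nil)) 
(.lf (nat_lit 196473) (.g (nat_lit 2334) (.e (nat_lit 65628) (nat_lit 14) (.e (nat_lit 401459) (nat_lit 13) (.e (nat_lit 483379) (nat_lit 23) (.e (nat_lit 336332) (nat_lit 19) (.e (nat_lit 220928) (nat_lit 4) .nil))))) (.g (nat_lit 4) .nil .nil))))))) (.nd (nat_lit 3) (.nd (nat_lit 4) (.nd (nat_lit 5) (.nd (nat_lit 6) 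
(.lf (nat_lit 196357) (.g (nat_lit 2806) (.e (nat_lit 65628) (nat_lit 14) (.e (nat_lit 401458) (nat_lit 13) (.e (nat_lit 483395) (nat_lit 24) (.e (nat_lit 344168) (nat_lit 40) (.e (nat_lit 671761) (nat_lit 4) .nil))))) (.g (nat_lit 5) .nil .nil))) 
(.lf (nat_lit 196421) (.g (nat_lit 1989) (.e (nat_lit 65628) (nat_lit 14) (.e (nat_lit 401459) (nat_lit 13) (.e (nat_lit 483350) (nat_lit 17) (.e (nat_lit 6702) (nat_lit 358) .nil)))) .nil))) (.nd (nat_lit 6) 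
(.lf (nat_lit 196389) (.g (nat_lit 3760) (.e (nat_lit 65628) (nat_lit 14) (.e (nat_lit 401459) (nat_lit 13) (.e (nat_lit 483344) (nat_lit 17) (.e (nat_lit 6514) (nat_lit 346) (.e (nat_lit 57354) (nat_lit 0) (.e (nat_lit 5906) (nat_lit 320) (.e (nat_lit 1199) (nat_lit 88) .nil))))))) (.g (nat_lit 6) .nil .nil))) 
(.lf (nat_lit 196453) (.g (nat_lit 4692) (.e (nat_lit 65628) (nat_lit 14) (.e (nat_lit 401459) (nat_lit 13) (.e (nat_lit 483372) (nat_lit 21) (.e (nat_lit 319504) (nat_lit 10) (.e (nat_lit 658) (nat_lit 54) .nil))))) .nil)))) (.nd (nat_lit 5) (.nd (nat_lit 6) 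
(.lf (nat_lit 196373) (.g (nat_lit 1734) (.e (nat_lit 65628) (nat_lit 14) (.e (nat_lit 401458) (nat_lit 13) (.e (nat_lit 483403) (nat_lit 26) (.e (nat_lit 385096) (nat_lit 49) (.e (nat_lit 786176) (nat_lit 4) .nil))))) (.g (nat_lit 4) .nil .nil))) 
(.lf (nat_lit 196437) (.g (nat_lit 3979) (.e (nat_lit 65628) (nat_lit 14) (.e (nat_lit 401459) (nat_lit 13) (.e (nat_lit 483372) (nat_lit 21) (.e (nat_lit 319492) (nat_lit 0) .nil)))) .nil))) (.nd (nat_lit 6) 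
(.lf (nat_lit 196405) (.g (nat_lit 3380) (.e (nat_lit 65628) (nat_lit 14) (.e (nat_lit 401459) (nat_lit 13) (.e (nat_lit 483344) (nat_lit 17) (.e (nat_lit 6714) (nat_lit 360) (.e (nat_lit 163850) (nat_lit 0) (.e (nat_lit 4606) (nat_lit 269) (.e (nat_lit 1196) (nat_lit 88) .nil))))))) (.g (nat_lit 5) .nil .nil))) 
(.lf (nat_lit 196469) (.g (nat_lit 3001) (.e (nat_lit 65628) (nat_lit 14) (.e (nat_lit 401459) (nat_lit 13) (.e (nat_lit 483378) (nat_lit 23) (.e (nat_lit 335997) (nat_lit 1) (.e (nat_lit 57870) (nat_lit 264) (.e (nat_lit 1199) (nat_lit 88) .nil)))))) (.g (nat_lit 0) .nil .nil)))))) (.nd (nat_lit 4) (.nd (nat_lit 5) (.nd (nat_lit 6) 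
(.lf (nat_lit 196365) (.g (nat_lit 2608) (.e (nat_lit 65628) (nat_lit 14) (.e (nat_lit 401458) (nat_lit 13) (.e (nat_lit 483396) (nat_lit 24) (.e (nat_lit 344100) (nat_lit 18) (.e (nat_lit 5907) (nat_lit 320) (.e (nat_lit 1199) (nat_lit 88) .nil)))))) (.g (nat_lit 5) .nil .nil))) 
(.lf (nat_lit 196429) (.g (nat_lit 4311) (.e (nat_lit 65628) (nat_lit 14) (.e (nat_lit 401459) (nat_lit 13) (.e (nat_lit 483372) (nat_lit 21) (.e (nat_lit 319490) (nat_lit 0) (.e (nat_lit 59) (nat_lit 0) .nil))))) .nil))) (.nd (nat_lit 6) 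
(.lf (nat_lit 196397) (.g (nat_lit 2486) (.e (nat_lit 65628) (nat_lit 14) (.e (nat_lit 401459) (nat_lit 13) (.e (nat_lit 483344) (nat_lit 17) (.e (nat_lit 6712) (nat_lit 360) (.e (nat_lit 163989) (nat_lit 34) (.e (nat_lit 606225) (nat_lit 4) .nil)))))) (.g (nat_lit 4) .nil .nil))) 
(.lf (nat_lit 196461) (.g (nat_lit 737) (.e (nat_lit 65628) (nat_lit 14) (.e (nat_lit 401459) (nat_lit 13) (.e (nat_lit 483374) (nat_lit 22) .nil))) .nil)))) (.nd (nat_lit 5) (.nd (nat_lit 6) 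
(.lf (nat_lit 196381) (.g (nat_lit 2771) (.e (nat_lit 65628) (nat_lit 14) (.e (nat_lit 401459) (nat_lit 13) (.e (nat_lit 483344) (nat_lit 17) (.e (nat_lit 6152) (nat_lit 332) (.e (nat_lit 2545) (nat_lit 158) (.e (nat_lit 8435) (nat_lit 138) (.e (nat_lit 1194) (nat_lit 88) .nil))))))) (.g (nat_lit 5) .nil .nil))) 
(.lf (nat_lit 196445) (.g (nat_lit 4678) (.e (nat_lit 65628) (nat_lit 14) (.e (nat_lit 401459) (nat_lit 13) (.e (nat_lit 483372) (nat_lit 21) (.e (nat_lit 319498) (nat_lit 10) .nil)))) .nil))) (.nd (nat_lit 6) 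
(.lf (nat_lit 196413) (.g (nat_lit 2633) (.e (nat_lit 65628) (nat_lit 14) (.e (nat_lit 401459) (nat_lit 13) (.e (nat_lit 483350) (nat_lit 17) (.e (nat_lit 6113) (nat_lit 332) (.e (nat_lit 1109) (nat_lit 82) .nil))))) .nil)) 
(.lf (nat_lit 196477) (.g (nat_lit 2247) (.e (nat_lit 65628) (nat_lit 14) (.e (nat_lit 401459) (nat_lit 13) (.e (nat_lit 483380) (nat_lit 23) (.e (nat_lit 335883) (nat_lit 0) .nil)))) .nil))))))) (.nd (nat_lit 2) (.nd (nat_lit 3) (.nd (nat_lit 4) (.nd (nat_lit 5) (.nd (nat_lit 6) 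
(.lf (nat_lit 196355) (.g (nat_lit 3136) (.e (nat_lit 65628) (nat_lit 14) (.e (nat_lit 401458) (nat_lit 13) (.e (nat_lit 483395) (nat_lit 24) (.e (nat_lit 344097) (nat_lit 18) (.e (nat_lit 5907) (nat_lit 320) (.e (nat_lit 1199) (nat_lit 88) .nil)))))) (.g (nat_lit 0) .nil .nil))) 
(.lf (nat_lit 196419) (.g (nat_lit 1803) (.e (nat_lit 65628) (nat_lit 14) (.e (nat_lit 401459) (nat_lit 13) (.e (nat_lit 483350) (nat_lit 17) (.e (nat_lit 6490) (nat_lit 343) .nil)))) .nil))) (.nd (nat_lit 6) 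
(.lf (nat_lit 196387) (.g (nat_lit 3375) (.e (nat_lit 65628) (nat_lit 14) (.e (nat_lit 401459) (nat_lit 13) (.e (nat_lit 483344) (nat_lit 17) (.e (nat_lit 6513) (nat_lit 346) (.e (nat_lit 57354) (nat_lit 0) (.e (nat_lit 5905) (nat_lit 320) (.e (nat_lit 1189) (nat_lit 88) .nil))))))) (.g (nat_lit 6) .nil .nil))) 
(.lf (nat_lit 196451) (.g (nat_lit 3595) (.e (nat_lit 65628) (nat_lit 14) (.e (nat_lit 401459) (nat_lit 13) (.e (nat_lit 483372) (nat_lit 21) (.e (nat_lit 319504) (nat_lit 10) .nil)))) .nil)))) (.nd (nat_lit 5) (.nd (nat_lit 6) 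
(.lf (nat_lit 196371) (.g (nat_lit 2097) (.e (nat_lit 65628) (nat_lit 14) (.e (nat_lit 401458) (nat_lit 13) (.e (nat_lit 483399) (nat_lit 25) (.e (nat_lit 368695) (nat_lit 40) (.e (nat_lit 671761) (nat_lit 4) .nil))))) (.g (nat_lit 4) .nil .nil))) 
(.lf (nat_lit 196435) (.g (nat_lit 4192) (.e (nat_lit 65628) (nat_lit 14) (.e (nat_lit 401459) (nat_lit 13) (.e (nat_lit 483372) (nat_lit 21) (.e (nat_lit 319490) (nat_lit 0) (.e (nat_lit 79) (nat_lit 0) .nil))))) .nil))) (.nd (nat_lit 6) 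
(.lf (nat_lit 196403) (.g (nat_lit 3767) (.e (nat_lit 65628) (nat_lit 14) (.e (nat_lit 401459) (nat_lit 13) (.e (nat_lit 483344) (nat_lit 17) (.e (nat_lit 6714) (nat_lit 360) (.e (nat_lit 163843) (nat_lit 0) (.e (nat_lit 4598) (nat_lit 269) (.e (nat_lit 1199) (nat_lit 88) .nil))))))) (.g (nat_lit 6) .nil .nil))) 
(.lf (nat_lit 196467) (.g (nat_lit 1621) (.e (nat_lit 65628) (nat_lit 14) (.e (nat_lit 401459) (nat_lit 13) (.e (nat_lit 483375) (nat_lit 22) (.e (nat_lit 335616) (nat_lit 1) .nil)))) .nil))))) (.nd (nat_lit 4) (.nd (nat_lit 5) (.nd (nat_lit 6) 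
(.lf (nat_lit 196363) (.g (nat_lit 2541) (.e (nat_lit 65628) (nat_lit 14) (.e (nat_lit 401458) (nat_lit 13) (.e (nat_lit 483396) (nat_lit 24) (.e (nat_lit 344097) (nat_lit 18) (.e (nat_lit 5906) (nat_lit 320) (.e (nat_lit 1200) (nat_lit 88) .nil)))))) (.g (nat_lit 4) .nil .nil))) 
(.lf (nat_lit 196427) (.g (nat_lit 4658) (.e (nat_lit 65628) (nat_lit 14) (.e (nat_lit 401459) (nat_lit 13) (.e (nat_lit 483372) (nat_lit 21) (.e (nat_lit 319489) (nat_lit 0) .nil)))) .nil))) (.nd (nat_lit 6) 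
(.lf (nat_lit 196395) (.g (nat_lit 2853) (.e (nat_lit 65628) (nat_lit 14) (.e (nat_lit 401459) (nat_lit 13) (.e (nat_lit 483344) (nat_lit 17) (.e (nat_lit 6712) (nat_lit 360) (.e (nat_lit 163850) (nat_lit 0) (.e (nat_lit 4606) (nat_lit 269) (.e (nat_lit 1196) (nat_lit 88) .nil))))))) (.g (nat_lit 4) .nil .nil))) 
(.lf (nat_lit 196459) (.g (nat_lit 4633) (.e (nat_lit 65628) (nat_lit 14) (.e (nat_lit 401459) (nat_lit 13) (.e (nat_lit 483372) (nat_lit 21) (.e (nat_lit 319515) (nat_lit 11) .nil)))) .nil)))) (.nd (nat_lit 5) (.nd (nat_lit 6) 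
(.lf (nat_lit 196379) (.g (nat_lit 2721) (.e (nat_lit 65628) (nat_lit 14) (.e (nat_lit 401459) (nat_lit 13) (.e (nat_lit 483343) (nat_lit 17) (.e (nat_lit 6514) (nat_lit 346) (.e (nat_lit 57354) (nat_lit 0) (.e (nat_lit 5907) (nat_lit 320) (.e (nat_lit 1199) (nat_lit 88) .nil))))))) (.g (nat_lit 5) .nil .nil))) 
(.lf (nat_lit 196443) (.g (nat_lit 4201) (.e (nat_lit 65628) (nat_lit 14) (.e (nat_lit 401459) (nat_lit 13) (.e (nat_lit 483372) (nat_lit 21) (.e (nat_lit 319496) (nat_lit 10) (.e (nat_lit 660) (nat_lit 54) .nil))))) .nil))) (.nd (nat_lit 6) 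
(.lf (nat_lit 196411) (.g (nat_lit 616) (.e (nat_lit 65628) (nat_lit 14) (.e (nat_lit 401459) (nat_lit 13) (.e (nat_lit 483350) (nat_lit 17) .nil))) .nil)) 
(.lf (nat_lit 196475) (.g (nat_lit 2236) (.e (nat_lit 65628) (nat_lit 14) (.e (nat_lit 401459) (nat_lit 13) (.e (nat_lit 483380) (nat_lit 23) (.e (nat_lit 335873) (nat_lit 0) .nil)))) .nil)))))) (.nd (nat_lit 3) (.nd (nat_lit 4) (.nd (nat_lit 5) (.nd (nat_lit 6) 
(.lf (nat_lit 196359) (.g (nat_lit 2742) (.e (nat_lit 65628) (nat_lit 14) (.e (nat_lit 401458) (nat_lit 13) (.e (nat_lit 483395) (nat_lit 24) (.e (nat_lit 344169) (nat_lit 40) (.e (nat_lit 671760) (nat_lit 4) .nil))))) (.g (nat_lit 5) .nil .nil))) 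
(.lf (nat_lit 196423) (.g (nat_lit 876) (.e (nat_lit 65628) (nat_lit 14) (.e (nat_lit 401459) (nat_lit 13) (.e (nat_lit 483364) (nat_lit 18) .nil))) .nil))) (.nd (nat_lit 6) 
(.lf (nat_lit 196391) (.g (nat_lit 3589) (.e (nat_lit 65628) (nat_lit 14) (.e (nat_lit 401459) (nat_lit 13) (.e (nat_lit 483344) (nat_lit 17) (.e (nat_lit 6514) (nat_lit 346) (.e (nat_lit 57354) (nat_lit 0) (.e (nat_lit 5907) (nat_lit 320) (.e (nat_lit 1199) (nat_lit 88) .nil))))))) (.g (nat_lit 6) .nil .nil))) 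
(.lf (nat_lit 196455) (.g (nat_lit 4722) (.e (nat_lit 65628) (nat_lit 14) (.e (nat_lit 401459) (nat_lit 13) (.e (nat_lit 483372) (nat_lit 21) (.e (nat_lit 319505) (nat_lit 10) (.e (nat_lit 658) (nat_lit 54) .nil))))) .nil)))) (.nd (nat_lit 5) (.nd (nat_lit 6) 
(.lf (nat_lit 196375) (.g (nat_lit 1882) (.e (nat_lit 65628) (nat_lit 14) (.e (nat_lit 401458) (nat_lit 13) (.e (nat_lit 483406) (nat_lit 26) (.e (nat_lit 385099) (nat_lit 49) (.e (nat_lit 786176) (nat_lit 4) .nil))))) (.g (nat_lit 4) .nil .nil))) 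
(.lf (nat_lit 196439) (.g (nat_lit 4611) (.e (nat_lit 65628) (nat_lit 14) (.e (nat_lit 401459) (nat_lit 13) (.e (nat_lit 483372) (nat_lit 21) (.e (nat_lit 319495) (nat_lit 0) .nil)))) .nil))) (.nd (nat_lit 6) 
(.lf (nat_lit 196407) (.g (nat_lit 2510) (.e (nat_lit 65628) (nat_lit 14) (.e (nat_lit 401459) (nat_lit 13) (.e (nat_lit 483344) (nat_lit 17) (.e (nat_lit 6714) (nat_lit 360) (.e (nat_lit 163990) (nat_lit 34) (.e (nat_lit 606225) (nat_lit 4) .nil)))))) (.g (nat_lit 4) .nil .nil))) 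
(.lf (nat_lit 196471) (.g (nat_lit 598) (.e (nat_lit 65628) (nat_lit 14) (.e (nat_lit 401459) (nat_lit 13) (.e (nat_lit 483379) (nat_lit 23) .nil))) .nil))))) (.nd (nat_lit 4) (.nd (nat_lit 5) (.nd (nat_lit 6) 
(.lf (nat_lit 196367) (.g (nat_lit 2784) (.e (nat_lit 65628) (nat_lit 14) (.e (nat_lit 401458) (nat_lit 13) (.e (nat_lit 483396) (nat_lit 24) (.e (nat_lit 344169) (nat_lit 40) (.e (nat_lit 671760) (nat_lit 4) .nil))))) (.g (nat_lit 4) .nil .nil))) 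
(.lf (nat_lit 196431) (.g (nat_lit 4065) (.e (nat_lit 65628) (nat_lit 14) (.e (nat_lit 401459) (nat_lit 13) (.e (nat_lit 483372) (nat_lit 21) (.e (nat_lit 319490) (nat_lit 0) (.e (nat_lit 75) (nat_lit 0) .nil))))) .nil))) (.nd (nat_lit 6) 
(.lf (nat_lit 196399) (.g (nat_lit 2988) (.e (nat_lit 65628) (nat_lit 14) (.e (nat_lit 401459) (nat_lit 13) (.e (nat_lit 483344) (nat_lit 17) (.e (nat_lit 6712) (nat_lit 360) (.e (nat_lit 163990) (nat_lit 34) (.e (nat_lit 606225) (nat_lit 4) .nil)))))) (.g (nat_lit 4) .nil .nil))) 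
(.lf (nat_lit 196463) (.g (nat_lit 706) (.e (nat_lit 65628) (nat_lit 14) (.e (nat_lit 401459) (nat_lit 13) (.e (nat_lit 483375) (nat_lit 22) .nil))) .nil)))) (.nd (nat_lit 5) (.nd (nat_lit 6) 
(.lf (nat_lit 196383) (.g (nat_lit 2797) (.e (nat_lit 65628) (nat_lit 14) (.e (nat_lit 401459) (nat_lit 13) (.e (nat_lit 483344) (nat_lit 17) (.e (nat_lit 6434) (nat_lit 343) (.e (nat_lit 1288) (nat_lit 95) (.e (nat_lit 123182) (nat_lit 264) (.e (nat_lit 1193) (nat_lit 88) .nil))))))) (.g (nat_lit 5) .nil .nil))) 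
(.lf (nat_lit 196447) (.g (nat_lit 3913) (.e (nat_lit 65628) (nat_lit 14) (.e (nat_lit 401459) (nat_lit 13) (.e (nat_lit 483372) (nat_lit 21) (.e (nat_lit 319500) (nat_lit 10) .nil)))) .nil))) (.nd (nat_lit 6) 
(.lf (nat_lit 196415) (.g (nat_lit 1940) (.e (nat_lit 65628) (nat_lit 14) (.e (nat_lit 401459) (nat_lit 13) (.e (nat_lit 483350) (nat_lit 17) (.e (nat_lit 6239) (nat_lit 336) .nil)))) .nil)) 
(.lf (nat_lit 196479) (.g (nat_lit 2300) (.e (nat_lit 65628) (nat_lit 14) (.e (nat_lit 401459) (nat_lit 13) (.e (nat_lit 483380) (nat_lit 23) (.e (nat_lit 335972) (nat_lit 0) .nil)))) .nil)))))))))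

noncomputable def tv2599 : DT := (.nd (nat_lit 0) (.nd (nat_lit 1) (.nd (nat_lit 2) (.nd (nat_lit 3) (.nd (nat_lit 4) (.nd (nat_lit 5) 
(.lf (nat_lit 196480) (.g (nat_lit 2270) (.e (nat_lit 65628) (nat_lit 14) (.e (nat_lit 401459) (nat_lit 13) (.e (nat_lit 483380) (nat_lit 23) (.e (nat_lit 335999) (nat_lit 1) .nil)))) .nil)) 
(.lf (nat_lit 196512) (.g (nat_lit 3114) (.e (nat_lit 65628) (nat_lit 14) (.e (nat_lit 401459) (nat_lit 13) (.e (nat_lit 483383) (nat_lit 23) (.e (nat_lit 336332) (nat_lit 19) (.e (nat_lit 220928) (nat_lit 4) .nil))))) (.g (nat_lit 4) .nil .nil)))) (.nd (nat_lit 5) 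
(.lf (nat_lit 196496) (.g (nat_lit 2018) (.e (nat_lit 65628) (nat_lit 14) (.e (nat_lit 401459) (nat_lit 13) (.e (nat_lit 483380) (nat_lit 23) (.e (nat_lit 336296) (nat_lit 15) .nil)))) .nil)) 
(.lf (nat_lit 196528) (.g (nat_lit 1510) (.e (nat_lit 65628) (nat_lit 14) (.e (nat_lit 401459) (nat_lit 13) (.e (nat_lit 483391) (nat_lit 23) (.e (nat_lit 335998) (nat_lit 1) (.e (nat_lit 57873) (nat_lit 264) .nil))))) .nil)))) (.nd (nat_lit 4) (.nd (nat_lit 5) 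
(.lf (nat_lit 196488) (.g (nat_lit 2280) (.e (nat_lit 65628) (nat_lit 14) (.e (nat_lit 401459) (nat_lit 13) (.e (nat_lit 483380) (nat_lit 23) (.e (nat_lit 336252) (nat_lit 15) .nil)))) .nil)) 
(.lf (nat_lit 196520) (.g (nat_lit 589) (.e (nat_lit 65628) (nat_lit 14) (.e (nat_lit 401459) (nat_lit 13) (.e (nat_lit 483387) (nat_lit 23) .nil))) .nil))) (.nd (nat_lit 5) 
(.lf (nat_lit 196504) (.g (nat_lit 2490) (.e (nat_lit 65628) (nat_lit 14) (.e (nat_lit 401459) (nat_lit 13) (.e (nat_lit 483380) (nat_lit 23) (.e (nat_lit 336357) (nat_lit 24) (.e (nat_lit 270080) (nat_lit 4) .nil))))) (.g (nat_lit 4) .nil .nil))) 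
(.lf (nat_lit 196536) (.g (nat_lit 2958) (.e (nat_lit 65628) (nat_lit 14) (.e (nat_lit 401459) (nat_lit 13) (.e (nat_lit 483393) (nat_lit 23) (.e (nat_lit 335987) (nat_lit 1) (.e (nat_lit 57870) (nat_lit 264) (.e (nat_lit 1189) (nat_lit 88) .nil)))))) (.g (nat_lit 5) .nil .nil)))))) (.nd (nat_lit 3) (.nd (nat_lit 4) (.nd (nat_lit 5) 
(.lf (nat_lit 196484) (.g (nat_lit 3053) (.e (nat_lit 65628) (nat_lit 14) (.e (nat_lit 401459) (nat_lit 13) (.e (nat_lit 483380) (nat_lit 23) (.e (nat_lit 336242) (nat_lit 15) (.e (nat_lit 3684) (nat_lit 227) (.e (nat_lit 786176) (nat_lit 4) .nil)))))) (.g (nat_lit 4) .nil .nil))) 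
(.lf (nat_lit 196516) (.g (nat_lit 2352) (.e (nat_lit 65628) (nat_lit 14) (.e (nat_lit 401459) (nat_lit 13) (.e (nat_lit 483386) (nat_lit 23) (.e (nat_lit 335992) (nat_lit 1) (.e (nat_lit 57870) (nat_lit 264) (.e (nat_lit 1199) (nat_lit 88) .nil)))))) (.g (nat_lit 5) .nil .nil)))) (.nd (nat_lit 5) 
(.lf (nat_lit 196500) (.g (nat_lit 2467) (.e (nat_lit 65628) (nat_lit 14) (.e (nat_lit 401459) (nat_lit 13) (.e (nat_lit 483380) (nat_lit 23) (.e (nat_lit 336327) (nat_lit 19) (.e (nat_lit 220928) (nat_lit 4) .nil))))) (.g (nat_lit 4) .nil .nil))) 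
(.lf (nat_lit 196532) (.g (nat_lit 812) (.e (nat_lit 65628) (nat_lit 14) (.e (nat_lit 401459) (nat_lit 13) (.e (nat_lit 483392) (nat_lit 23) .nil))) .nil)))) (.nd (nat_lit 4) (.nd (nat_lit 5) 
(.lf (nat_lit 196492) (.g (nat_lit 2473) (.e (nat_lit 65628) (nat_lit 14) (.e (nat_lit 401459) (nat_lit 13) (.e (nat_lit 483380) (nat_lit 23) (.e (nat_lit 336258) (nat_lit 15) (.e (nat_lit 3653) (nat_lit 227) (.e (nat_lit 786176) (nat_lit 4) .nil)))))) (.g (nat_lit 4) .nil .nil))) 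
(.lf (nat_lit 196524) (.g (nat_lit 711) (.e (nat_lit 65628) (nat_lit 14) (.e (nat_lit 401459) (nat_lit 13) (.e (nat_lit 483389) (nat_lit 23) .nil))) .nil))) (.nd (nat_lit 5) 
(.lf (nat_lit 196508) (.g (nat_lit 2116) (.e (nat_lit 65628) (nat_lit 14) (.e (nat_lit 401459) (nat_lit 13) (.e (nat_lit 483381) (nat_lit 23) (.e (nat_lit 336357) (nat_lit 24) (.e (nat_lit 270080) (nat_lit 4) .nil))))) (.g (nat_lit 4) .nil .nil))) 
(.lf (nat_lit 196540) (.g (nat_lit 610) (.e (nat_lit 65628) (nat_lit 14) (.e (nat_lit 401459) (nat_lit 13) (.e (nat_lit 491264) (nat_lit 23) .nil))) .nil)))))) (.nd (nat_lit 2) (.nd (nat_lit 3) (.nd (nat_lit 4) (.nd (nat_lit 5) 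
(.lf (nat_lit 196482) (.g (nat_lit 1410) (.e (nat_lit 65628) (nat_lit 14) (.e (nat_lit 401459) (nat_lit 13) (.e (nat_lit 483380) (nat_lit 23) (.e (nat_lit 343808) (nat_lit 4) .nil)))) .nil)) 
(.lf (nat_lit 196514) (.g (nat_lit 2810) (.e (nat_lit 65628) (nat_lit 14) (.e (nat_lit 401459) (nat_lit 13) (.e (nat_lit 483386) (nat_lit 23) (.e (nat_lit 335928) (nat_lit 0) (.e (nat_lit 2003) (nat_lit 138) (.e (nat_lit 671762) (nat_lit 4) .nil)))))) (.g (nat_lit 0) .nil .nil)))) (.nd (nat_lit 5) 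
(.lf (nat_lit 196498) (.g (nat_lit 3392) (.e (nat_lit 65628) (nat_lit 14) (.e (nat_lit 401459) (nat_lit 13) (.e (nat_lit 483380) (nat_lit 23) (.e (nat_lit 336306) (nat_lit 15) (.e (nat_lit 3619) (nat_lit 227) (.e (nat_lit 778321) (nat_lit 4) .nil)))))) (.g (nat_lit 4) .nil .nil))) 
(.lf (nat_lit 196530) (.g (nat_lit 976) (.e (nat_lit 65628) (nat_lit 14) (.e (nat_lit 401459) (nat_lit 13) (.e (nat_lit 483391) (nat_lit 23) (.e (nat_lit 336300) (nat_lit 15) .nil)))) .nil)))) (.nd (nat_lit 4) (.nd (nat_lit 5) 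
(.lf (nat_lit 196490) (.g (nat_lit 1649) (.e (nat_lit 65628) (nat_lit 14) (.e (nat_lit 401459) (nat_lit 13) (.e (nat_lit 483380) (nat_lit 23) (.e (nat_lit 336258) (nat_lit 15) .nil)))) .nil)) 
(.lf (nat_lit 196522) (.g (nat_lit 3241) (.e (nat_lit 65628) (nat_lit 14) (.e (nat_lit 401459) (nat_lit 13) (.e (nat_lit 483387) (nat_lit 23) (.e (nat_lit 335997) (nat_lit 1) (.e (nat_lit 57870) (nat_lit 264) (.e (nat_lit 1189) (nat_lit 88) .nil)))))) (.g (nat_lit 6) .nil .nil)))) (.nd (nat_lit 5) 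
(.lf (nat_lit 196506) (.g (nat_lit 2155) (.e (nat_lit 65628) (nat_lit 14) (.e (nat_lit 401459) (nat_lit 13) (.e (nat_lit 483381) (nat_lit 23) (.e (nat_lit 336330) (nat_lit 19) (.e (nat_lit 220928) (nat_lit 4) .nil))))) (.g (nat_lit 4) .nil .nil))) 
(.lf (nat_lit 196538) (.g (nat_lit 2164) (.e (nat_lit 65628) (nat_lit 14) (.e (nat_lit 401459) (nat_lit 13) (.e (nat_lit 483393) (nat_lit 23) (.e (nat_lit 335995) (nat_lit 1) (.e (nat_lit 57873) (nat_lit 264) .nil))))) .nil))))) (.nd (nat_lit 3) (.nd (nat_lit 4) (.nd (nat_lit 5) 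
(.lf (nat_lit 196486) (.g (nat_lit 2172) (.e (nat_lit 65628) (nat_lit 14) (.e (nat_lit 401459) (nat_lit 13) (.e (nat_lit 483380) (nat_lit 23) (.e (nat_lit 336249) (nat_lit 15) .nil)))) .nil)) 
(.lf (nat_lit 196518) (.g (nat_lit 1894) (.e (nat_lit 65628) (nat_lit 14) (.e (nat_lit 401459) (nat_lit 13) (.e (nat_lit 483386) (nat_lit 23) (.e (nat_lit 336290) (nat_lit 15) (.e (nat_lit 3714) (nat_lit 227) (.e (nat_lit 786176) (nat_lit 4) .nil)))))) (.g (nat_lit 5) .nil .nil)))) (.nd (nat_lit 5) 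
(.lf (nat_lit 196502) (.g (nat_lit 2835) (.e (nat_lit 65628) (nat_lit 14) (.e (nat_lit 401459) (nat_lit 13) (.e (nat_lit 483380) (nat_lit 23) (.e (nat_lit 336332) (nat_lit 19) (.e (nat_lit 220928) (nat_lit 4) .nil))))) (.g (nat_lit 4) .nil .nil))) 
(.lf (nat_lit 196534) (.g (nat_lit 3230) (.e (nat_lit 65628) (nat_lit 14) (.e (nat_lit 401459) (nat_lit 13) (.e (nat_lit 483393) (nat_lit 23) (.e (nat_lit 335986) (nat_lit 1) (.e (nat_lit 57871) (nat_lit 264) (.e (nat_lit 1189) (nat_lit 88) .nil)))))) (.g (nat_lit 5) .nil .nil))))) (.nd (nat_lit 4) (.nd (nat_lit 5) 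
(.lf (nat_lit 196494) (.g (nat_lit 3049) (.e (nat_lit 65628) (nat_lit 14) (.e (nat_lit 401459) (nat_lit 13) (.e (nat_lit 483380) (nat_lit 23) (.e (nat_lit 336261) (nat_lit 15) (.e (nat_lit 3635) (nat_lit 227) (.e (nat_lit 778321) (nat_lit 4) .nil)))))) (.g (nat_lit 4) .nil .nil))) 
(.lf (nat_lit 196526) (.g (nat_lit 2584) (.e (nat_lit 65628) (nat_lit 14) (.e (nat_lit 401459) (nat_lit 13) (.e (nat_lit 483389) (nat_lit 23) (.e (nat_lit 335997) (nat_lit 1) (.e (nat_lit 57871) (nat_lit 264) (.e (nat_lit 1189) (nat_lit 88) .nil)))))) (.g (nat_lit 4) .nil .nil)))) (.nd (nat_lit 5) 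
(.lf (nat_lit 196510) (.g (nat_lit 2085) (.e (nat_lit 65628) (nat_lit 14) (.e (nat_lit 401459) (nat_lit 13) (.e (nat_lit 483383) (nat_lit 23) (.e (nat_lit 335999) (nat_lit 1) .nil)))) .nil)) 
(.lf (nat_lit 196542) (.g (nat_lit 1792) (.e (nat_lit 65628) (nat_lit 14) (.e (nat_lit 401459) (nat_lit 13) (.e (nat_lit 483394) (nat_lit 24) (.e (nat_lit 344097) (nat_lit 18) (.e (nat_lit 5906) (nat_lit 320) .nil))))) .nil))))))) (.nd (nat_lit 1) (.nd (nat_lit 2) (.nd (nat_lit 3) (.nd (nat_lit 4) (.nd (nat_lit 5) 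
(.lf (nat_lit 196481) (.g (nat_lit 2063) (.e (nat_lit 65628) (nat_lit 14) (.e (nat_lit 401459) (nat_lit 13) (.e (nat_lit 483380) (nat_lit 23) (.e (nat_lit 336000) (nat_lit 1) .nil)))) .nil)) 
(.lf (nat_lit 196513) (.g (nat_lit 399) (.e (nat_lit 65628) (nat_lit 14) (.e (nat_lit 401459) (nat_lit 13) (.e (nat_lit 483386) (nat_lit 23) .nil))) .nil))) (.nd (nat_lit 5) 
(.lf (nat_lit 196497) (.g (nat_lit 2274) (.e (nat_lit 65628) (nat_lit 14) (.e (nat_lit 401459) (nat_lit 13) (.e (nat_lit 483380) (nat_lit 23) (.e (nat_lit 336299) (nat_lit 15) .nil)))) .nil)) 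
(.lf (nat_lit 196529) (.g (nat_lit 3670) (.e (nat_lit 65628) (nat_lit 14) (.e (nat_lit 401459) (nat_lit 13) (.e (nat_lit 483391) (nat_lit 23) (.e (nat_lit 335998) (nat_lit 1) (.e (nat_lit 57873) (nat_lit 264) (.e (nat_lit 1199) (nat_lit 88) .nil)))))) (.g (nat_lit 6) .nil .nil))))) (.nd (nat_lit 4) (.nd (nat_lit 5) 
(.lf (nat_lit 196489) (.g (nat_lit 2601) (.e (nat_lit 65628) (nat_lit 14) (.e (nat_lit 401459) (nat_lit 13) (.e (nat_lit 483380) (nat_lit 23) (.e (nat_lit 336257) (nat_lit 15) (.e (nat_lit 3672) (nat_lit 227) (.e (nat_lit 786176) (nat_lit 4) .nil)))))) (.g (nat_lit 4) .nil .nil))) 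
(.lf (nat_lit 196521) (.g (nat_lit 966) (.e (nat_lit 65628) (nat_lit 14) (.e (nat_lit 401459) (nat_lit 13) (.e (nat_lit 483387) (nat_lit 23) (.e (nat_lit 335997) (nat_lit 1) .nil)))) .nil))) (.nd (nat_lit 5) 
(.lf (nat_lit 196505) (.g (nat_lit 629) (.e (nat_lit 65628) (nat_lit 14) (.e (nat_lit 401459) (nat_lit 13) (.e (nat_lit 483381) (nat_lit 23) .nil))) .nil)) 
(.lf (nat_lit 196537) (.g (nat_lit 3170) (.e (nat_lit 65628) (nat_lit 14) (.e (nat_lit 401459) (nat_lit 13) (.e (nat_lit 483393) (nat_lit 23) (.e (nat_lit 335995) (nat_lit 1) (.e (nat_lit 57870) (nat_lit 264) (.e (nat_lit 1199) (nat_lit 88) .nil)))))) (.g (nat_lit 4) .nil .nil)))))) (.nd (nat_lit 3) (.nd (nat_lit 4) (.nd (nat_lit 5) 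
(.lf (nat_lit 196485) (.g (nat_lit 2185) (.e (nat_lit 65628) (nat_lit 14) (.e (nat_lit 401459) (nat_lit 13) (.e (nat_lit 483380) (nat_lit 23) (.e (nat_lit 336245) (nat_lit 15) .nil)))) .nil)) 
(.lf (nat_lit 196517) (.g (nat_lit 3810) (.e (nat_lit 65628) (nat_lit 14) (.e (nat_lit 401459) (nat_lit 13) (.e (nat_lit 483386) (nat_lit 23) (.e (nat_lit 336030) (nat_lit 4) (.e (nat_lit 123182) (nat_lit 264) (.e (nat_lit 1193) (nat_lit 88) .nil)))))) (.g (nat_lit 0) .nil .nil)))) (.nd (nat_lit 5) 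
(.lf (nat_lit 196501) (.g (nat_lit 2551) (.e (nat_lit 65628) (nat_lit 14) (.e (nat_lit 401459) (nat_lit 13) (.e (nat_lit 483380) (nat_lit 23) (.e (nat_lit 336330) (nat_lit 19) (.e (nat_lit 220928) (nat_lit 4) .nil))))) (.g (nat_lit 4) .nil .nil))) 
(.lf (nat_lit 196533) (.g (nat_lit 671) (.e (nat_lit 65628) (nat_lit 14) (.e (nat_lit 401459) (nat_lit 13) (.e (nat_lit 483393) (nat_lit 23) .nil))) .nil)))) (.nd (nat_lit 4) (.nd (nat_lit 5) 
(.lf (nat_lit 196493) (.g (nat_lit 2411) (.e (nat_lit 65628) (nat_lit 14) (.e (nat_lit 401459) (nat_lit 13) (.e (nat_lit 483380) (nat_lit 23) (.e (nat_lit 336258) (nat_lit 15) (.e (nat_lit 3659) (nat_lit 227) (.e (nat_lit 786176) (nat_lit 4) .nil)))))) (.g (nat_lit 4) .nil .nil))) 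
(.lf (nat_lit 196525) (.g (nat_lit 2600) (.e (nat_lit 65628) (nat_lit 14) (.e (nat_lit 401459) (nat_lit 13) (.e (nat_lit 483389) (nat_lit 23) (.e (nat_lit 335997) (nat_lit 1) (.e (nat_lit 57870) (nat_lit 264) (.e (nat_lit 1199) (nat_lit 88) .nil)))))) (.g (nat_lit 4) .nil .nil)))) (.nd (nat_lit 5) 
(.lf (nat_lit 196509) (.g (nat_lit 1603) (.e (nat_lit 65628) (nat_lit 14) (.e (nat_lit 401459) (nat_lit 13) (.e (nat_lit 483383) (nat_lit 23) (.e (nat_lit 335878) (nat_lit 0) .nil)))) .nil)) 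
(.lf (nat_lit 196541) (.g (nat_lit 2686) (.e (nat_lit 65628) (nat_lit 14) (.e (nat_lit 401459) (nat_lit 13) (.e (nat_lit 483394) (nat_lit 24) (.e (nat_lit 344090) (nat_lit 18) (.e (nat_lit 5896) (nat_lit 320) (.e (nat_lit 1190) (nat_lit 88) .nil)))))) (.g (nat_lit 4) .nil .nil))))))) (.nd (nat_lit 2) (.nd (nat_lit 3) (.nd (nat_lit 4) (.nd (nat_lit 5) 
(.lf (nat_lit 196483) (.g (nat_lit 3614) (.e (nat_lit 65628) (nat_lit 14) (.e (nat_lit 401459) (nat_lit 13) (.e (nat_lit 483380) (nat_lit 23) (.e (nat_lit 336240) (nat_lit 15) (.e (nat_lit 3637) (nat_lit 227) (.e (nat_lit 778321) (nat_lit 4) .nil)))))) (.g (nat_lit 5) .nil .nil))) 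
(.lf (nat_lit 196515) (.g (nat_lit 2593) (.e (nat_lit 65628) (nat_lit 14) (.e (nat_lit 401459) (nat_lit 13) (.e (nat_lit 483386) (nat_lit 23) (.e (nat_lit 335985) (nat_lit 1) (.e (nat_lit 57870) (nat_lit 264) (.e (nat_lit 1189) (nat_lit 88) .nil)))))) (.g (nat_lit 0) .nil .nil)))) (.nd (nat_lit 5) 
(.lf (nat_lit 196499) (.g (nat_lit 1684) (.e (nat_lit 65628) (nat_lit 14) (.e (nat_lit 401459) (nat_lit 13) (.e (nat_lit 483380) (nat_lit 23) (.e (nat_lit 336310) (nat_lit 16) .nil)))) .nil)) 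
(.lf (nat_lit 196531) (.g (nat_lit 2207) (.e (nat_lit 65628) (nat_lit 14) (.e (nat_lit 401459) (nat_lit 13) (.e (nat_lit 483391) (nat_lit 23) (.e (nat_lit 336331) (nat_lit 19) (.e (nat_lit 220928) (nat_lit 4) .nil))))) (.g (nat_lit 4) .nil .nil))))) (.nd (nat_lit 4) (.nd (nat_lit 5) 
(.lf (nat_lit 196491) (.g (nat_lit 2490) (.e (nat_lit 65628) (nat_lit 14) (.e (nat_lit 401459) (nat_lit 13) (.e (nat_lit 483380) (nat_lit 23) (.e (nat_lit 336258) (nat_lit 15) (.e (nat_lit 3648) (nat_lit 227) (.e (nat_lit 786176) (nat_lit 4) .nil)))))) (.g (nat_lit 4) .nil .nil))) 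
(.lf (nat_lit 196523) (.g (nat_lit 885) (.e (nat_lit 65628) (nat_lit 14) (.e (nat_lit 401459) (nat_lit 13) (.e (nat_lit 483388) (nat_lit 23) .nil))) .nil))) (.nd (nat_lit 5) 
(.lf (nat_lit 196507) (.g (nat_lit 2228) (.e (nat_lit 65628) (nat_lit 14) (.e (nat_lit 401459) (nat_lit 13) (.e (nat_lit 483381) (nat_lit 23) (.e (nat_lit 336332) (nat_lit 19) (.e (nat_lit 220928) (nat_lit 4) .nil))))) (.g (nat_lit 4) .nil .nil))) 
(.lf (nat_lit 196539) (.g (nat_lit 1407) (.e (nat_lit 65628) (nat_lit 14) (.e (nat_lit 401459) (nat_lit 13) (.e (nat_lit 483393) (nat_lit 23) (.e (nat_lit 336288) (nat_lit 15) .nil)))) .nil))))) (.nd (nat_lit 3) (.nd (nat_lit 4) (.nd (nat_lit 5) 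
(.lf (nat_lit 196487) (.g (nat_lit 2300) (.e (nat_lit 65628) (nat_lit 14) (.e (nat_lit 401459) (nat_lit 13) (.e (nat_lit 483380) (nat_lit 23) (.e (nat_lit 336251) (nat_lit 15) .nil)))) .nil)) 
(.lf (nat_lit 196519) (.g (nat_lit 1659) (.e (nat_lit 65628) (nat_lit 14) (.e (nat_lit 401459) (nat_lit 13) (.e (nat_lit 483386) (nat_lit 23) (.e (nat_lit 336290) (nat_lit 15) (.e (nat_lit 3715) (nat_lit 227) (.e (nat_lit 786176) (nat_lit 4) .nil)))))) (.g (nat_lit 4) .nil .nil)))) (.nd (nat_lit 5) 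
(.lf (nat_lit 196503) (.g (nat_lit 2539) (.e (nat_lit 65628) (nat_lit 14) (.e (nat_lit 401459) (nat_lit 13) (.e (nat_lit 483380) (nat_lit 23) (.e (nat_lit 336355) (nat_lit 24) (.e (nat_lit 270080) (nat_lit 4) .nil))))) (.g (nat_lit 4) .nil .nil))) 
(.lf (nat_lit 196535) (.g (nat_lit 3690) (.e (nat_lit 65628) (nat_lit 14) (.e (nat_lit 401459) (nat_lit 13) (.e (nat_lit 483393) (nat_lit 23) (.e (nat_lit 335986) (nat_lit 1) (.e (nat_lit 57873) (nat_lit 264) (.e (nat_lit 1199) (nat_lit 88) .nil)))))) (.g (nat_lit 6) .nil .nil))))) (.nd (nat_lit 4) (.nd (nat_lit 5) 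
(.lf (nat_lit 196495) (.g (nat_lit 2787) (.e (nat_lit 65628) (nat_lit 14) (.e (nat_lit 401459) (nat_lit 13) (.e (nat_lit 483380) (nat_lit 23) (.e (nat_lit 336261) (nat_lit 15) (.e (nat_lit 3721) (nat_lit 227) (.e (nat_lit 786176) (nat_lit 4) .nil)))))) (.g (nat_lit 5) .nil .nil))) 
(.lf (nat_lit 196527) (.g (nat_lit 638) (.e (nat_lit 65628) (nat_lit 14) (.e (nat_lit 401459) (nat_lit 13) (.e (nat_lit 483391) (nat_lit 23) .nil))) .nil))) (.nd (nat_lit 5) 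
(.lf (nat_lit 196511) (.g (nat_lit 2836) (.e (nat_lit 65628) (nat_lit 14) (.e (nat_lit 401459) (nat_lit 13) (.e (nat_lit 483383) (nat_lit 23) (.e (nat_lit 336306) (nat_lit 15) (.e (nat_lit 3619) (nat_lit 227) .nil))))) .nil)) 
(.lf (nat_lit 196543) (.g (nat_lit 3853) (.e (nat_lit 65628) (nat_lit 14) (.e (nat_lit 401459) (nat_lit 13) (.e (nat_lit 483394) (nat_lit 24) (.e (nat_lit 344097) (nat_lit 18) (.e (nat_lit 5906) (nat_lit 320) (.e (nat_lit 1190) (nat_lit 88) .nil)))))) (.g (nat_lit 0) .nil .nil)))))))))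

noncomputable def tv2600 : DT := (.nd (nat_lit 0) (.nd (nat_lit 1) (.nd (nat_lit 2) (.nd (nat_lit 3) (.nd (nat_lit 4) (.nd (nat_lit 5) 
(.lf (nat_lit 196544) (.g (nat_lit 3789) (.e (nat_lit 65628) (nat_lit 14) (.e (nat_lit 401459) (nat_lit 13) (.e (nat_lit 483394) (nat_lit 24) (.e (nat_lit 344097) (nat_lit 18) (.e (nat_lit 5906) (nat_lit 320) (.e (nat_lit 1200) (nat_lit 88) .nil)))))) (.g (nat_lit 0) .nil .nil))) 
(.lf (nat_lit 196576) (.g (nat_lit 4034) (.e (nat_lit 65628) (nat_lit 14) (.e (nat_lit 401459) (nat_lit 13) (.e (nat_lit 483402) (nat_lit 26) (.e (nat_lit 385094) (nat_lit 49) (.e (nat_lit 778321) (nat_lit 4) .nil))))) (.g (nat_lit 0) .nil .nil)))) (.nd (nat_lit 5) 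
(.lf (nat_lit 196560) (.g (nat_lit 2841) (.e (nat_lit 65628) (nat_lit 14) (.e (nat_lit 401459) (nat_lit 13) (.e (nat_lit 483397) (nat_lit 25) (.e (nat_lit 368662) (nat_lit 18) (.e (nat_lit 5907) (nat_lit 320) (.e (nat_lit 1199) (nat_lit 88) .nil)))))) (.g (nat_lit 4) .nil .nil))) 
(.lf (nat_lit 196592) (.g (nat_lit 2184) (.e (nat_lit 65628) (nat_lit 14) (.e (nat_lit 401459) (nat_lit 13) (.e (nat_lit 483404) (nat_lit 26) (.e (nat_lit 385100) (nat_lit 49) (.e (nat_lit 786176) (nat_lit 4) .nil))))) (.g (nat_lit 4) .nil .nil))))) (.nd (nat_lit 4) (.nd (nat_lit 5) 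
(.lf (nat_lit 196552) (.g (nat_lit 3390) (.e (nat_lit 65628) (nat_lit 14) (.e (nat_lit 401459) (nat_lit 13) (.e (nat_lit 483395) (nat_lit 24) (.e (nat_lit 344097) (nat_lit 18) (.e (nat_lit 5907) (nat_lit 320) (.e (nat_lit 1199) (nat_lit 88) .nil)))))) (.g (nat_lit 0) .nil .nil))) 
(.lf (nat_lit 196584) (.g (nat_lit 2479) (.e (nat_lit 65628) (nat_lit 14) (.e (nat_lit 401459) (nat_lit 13) (.e (nat_lit 483403) (nat_lit 26) (.e (nat_lit 385090) (nat_lit 49) (.e (nat_lit 786176) (nat_lit 4) .nil))))) (.g (nat_lit 4) .nil .nil)))) (.nd (nat_lit 5) 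
(.lf (nat_lit 196568) (.g (nat_lit 3003) (.e (nat_lit 65628) (nat_lit 14) (.e (nat_lit 401459) (nat_lit 13) (.e (nat_lit 483399) (nat_lit 25) (.e (nat_lit 368662) (nat_lit 18) (.e (nat_lit 5905) (nat_lit 320) (.e (nat_lit 1189) (nat_lit 88) .nil)))))) (.g (nat_lit 5) .nil .nil))) 
(.lf (nat_lit 196600) (.g (nat_lit 1942) (.e (nat_lit 65628) (nat_lit 14) (.e (nat_lit 401459) (nat_lit 13) (.e (nat_lit 483411) (nat_lit 27) (.e (nat_lit 401413) (nat_lit 0) .nil)))) .nil))))) (.nd (nat_lit 3) (.nd (nat_lit 4) (.nd (nat_lit 5) 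
(.lf (nat_lit 196548) (.g (nat_lit 2500) (.e (nat_lit 65628) (nat_lit 14) (.e (nat_lit 401459) (nat_lit 13) (.e (nat_lit 483394) (nat_lit 24) (.e (nat_lit 344168) (nat_lit 40) (.e (nat_lit 671761) (nat_lit 4) .nil))))) (.g (nat_lit 4) .nil .nil))) 
(.lf (nat_lit 196580) (.g (nat_lit 2930) (.e (nat_lit 65628) (nat_lit 14) (.e (nat_lit 401459) (nat_lit 13) (.e (nat_lit 483403) (nat_lit 26) (.e (nat_lit 385047) (nat_lit 21) .nil)))) .nil))) (.nd (nat_lit 5) 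
(.lf (nat_lit 196564) (.g (nat_lit 3309) (.e (nat_lit 65628) (nat_lit 14) (.e (nat_lit 401459) (nat_lit 13) (.e (nat_lit 483398) (nat_lit 25) (.e (nat_lit 368662) (nat_lit 18) (.e (nat_lit 5905) (nat_lit 320) (.e (nat_lit 1189) (nat_lit 88) .nil)))))) (.g (nat_lit 5) .nil .nil))) 
(.lf (nat_lit 196596) (.g (nat_lit 1798) (.e (nat_lit 65628) (nat_lit 14) (.e (nat_lit 401459) (nat_lit 13) (.e (nat_lit 483410) (nat_lit 27) (.e (nat_lit 401462) (nat_lit 15) (.e (nat_lit 1009) (nat_lit 81) .nil))))) .nil)))) (.nd (nat_lit 4) (.nd (nat_lit 5) 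
(.lf (nat_lit 196556) (.g (nat_lit 3111) (.e (nat_lit 65628) (nat_lit 14) (.e (nat_lit 401459) (nat_lit 13) (.e (nat_lit 483395) (nat_lit 24) (.e (nat_lit 344169) (nat_lit 40) (.e (nat_lit 671760) (nat_lit 4) .nil))))) (.g (nat_lit 5) .nil .nil))) 
(.lf (nat_lit 196588) (.g (nat_lit 555) (.e (nat_lit 65628) (nat_lit 14) (.e (nat_lit 401459) (nat_lit 13) (.e (nat_lit 483404) (nat_lit 26) .nil))) .nil))) (.nd (nat_lit 5) 
(.lf (nat_lit 196572) (.g (nat_lit 823) (.e (nat_lit 65628) (nat_lit 14) (.e (nat_lit 401459) (nat_lit 13) (.e (nat_lit 483400) (nat_lit 25) (.e (nat_lit 368662) (nat_lit 18) .nil)))) .nil)) 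
(.lf (nat_lit 196604) (.g (nat_lit 3109) (.e (nat_lit 65628) (nat_lit 14) (.e (nat_lit 401459) (nat_lit 13) (.e (nat_lit 483411) (nat_lit 27) (.e (nat_lit 401414) (nat_lit 0) (.e (nat_lit 2426) (nat_lit 157) (.e (nat_lit 4588) (nat_lit 269) (.e (nat_lit 1196) (nat_lit 88) .nil))))))) (.g (nat_lit 4) .nil .nil))))))) (.nd (nat_lit 2) (.nd (nat_lit 3) (.nd (nat_lit 4) (.nd (nat_lit 5) 
(.lf (nat_lit 196546) (.g (nat_lit 4046) (.e (nat_lit 65628) (nat_lit 14) (.e (nat_lit 401459) (nat_lit 13) (.e (nat_lit 483394) (nat_lit 24) (.e (nat_lit 344097) (nat_lit 18) (.e (nat_lit 5907) (nat_lit 320) (.e (nat_lit 1200) (nat_lit 88) .nil)))))) (.g (nat_lit 0) .nil .nil))) 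
(.lf (nat_lit 196578) (.g (nat_lit 2899) (.e (nat_lit 65628) (nat_lit 14) (.e (nat_lit 401459) (nat_lit 13) (.e (nat_lit 483403) (nat_lit 26) (.e (nat_lit 385044) (nat_lit 21) .nil)))) .nil))) (.nd (nat_lit 5) 
(.lf (nat_lit 196562) (.g (nat_lit 1092) (.e (nat_lit 65628) (nat_lit 14) (.e (nat_lit 401459) (nat_lit 13) (.e (nat_lit 483398) (nat_lit 25) (.e (nat_lit 368662) (nat_lit 18) .nil)))) .nil)) 
(.lf (nat_lit 196594) (.g (nat_lit 1849) (.e (nat_lit 65628) (nat_lit 14) (.e (nat_lit 401459) (nat_lit 13) (.e (nat_lit 483410) (nat_lit 27) (.e (nat_lit 401416) (nat_lit 0) (.e (nat_lit 2449) (nat_lit 157) .nil))))) .nil)))) (.nd (nat_lit 4) (.nd (nat_lit 5) 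
(.lf (nat_lit 196554) (.g (nat_lit 2937) (.e (nat_lit 65628) (nat_lit 14) (.e (nat_lit 401459) (nat_lit 13) (.e (nat_lit 483395) (nat_lit 24) (.e (nat_lit 344168) (nat_lit 40) (.e (nat_lit 671760) (nat_lit 4) .nil))))) (.g (nat_lit 0) .nil .nil))) 
(.lf (nat_lit 196586) (.g (nat_lit 2812) (.e (nat_lit 65628) (nat_lit 14) (.e (nat_lit 401459) (nat_lit 13) (.e (nat_lit 483403) (nat_lit 26) (.e (nat_lit 385096) (nat_lit 49) (.e (nat_lit 786176) (nat_lit 4) .nil))))) (.g (nat_lit 4) .nil .nil)))) (.nd (nat_lit 5) 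
(.lf (nat_lit 196570) (.g (nat_lit 1120) (.e (nat_lit 65628) (nat_lit 14) (.e (nat_lit 401459) (nat_lit 13) (.e (nat_lit 483399) (nat_lit 25) (.e (nat_lit 368665) (nat_lit 18) .nil)))) .nil)) 
(.lf (nat_lit 196602) (.g (nat_lit 2975) (.e (nat_lit 65628) (nat_lit 14) (.e (nat_lit 401459) (nat_lit 13) (.e (nat_lit 483411) (nat_lit 27) (.e (nat_lit 401414) (nat_lit 0) (.e (nat_lit 2416) (nat_lit 157) (.e (nat_lit 4598) (nat_lit 269) (.e (nat_lit 1200) (nat_lit 88) .nil))))))) (.g (nat_lit 4) .nil .nil)))))) (.nd (nat_lit 3) (.nd (nat_lit 4) (.nd (nat_lit 5) 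
(.lf (nat_lit 196550) (.g (nat_lit 2746) (.e (nat_lit 65628) (nat_lit 14) (.e (nat_lit 401459) (nat_lit 13) (.e (nat_lit 483394) (nat_lit 24) (.e (nat_lit 344169) (nat_lit 40) (.e (nat_lit 671761) (nat_lit 4) .nil))))) (.g (nat_lit 4) .nil .nil))) 
(.lf (nat_lit 196582) (.g (nat_lit 2978) (.e (nat_lit 65628) (nat_lit 14) (.e (nat_lit 401459) (nat_lit 13) (.e (nat_lit 483403) (nat_lit 26) (.e (nat_lit 385053) (nat_lit 21) .nil)))) .nil))) (.nd (nat_lit 5) 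
(.lf (nat_lit 196566) (.g (nat_lit 3570) (.e (nat_lit 65628) (nat_lit 14) (.e (nat_lit 401459) (nat_lit 13) (.e (nat_lit 483398) (nat_lit 25) (.e (nat_lit 368662) (nat_lit 18) (.e (nat_lit 5907) (nat_lit 320) (.e (nat_lit 1200) (nat_lit 88) .nil)))))) (.g (nat_lit 0) .nil .nil))) 
(.lf (nat_lit 196598) (.g (nat_lit 1284) (.e (nat_lit 65628) (nat_lit 14) (.e (nat_lit 401459) (nat_lit 13) (.e (nat_lit 483411) (nat_lit 27) (.e (nat_lit 401408) (nat_lit 0) .nil)))) .nil)))) (.nd (nat_lit 4) (.nd (nat_lit 5) 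
(.lf (nat_lit 196558) (.g (nat_lit 2928) (.e (nat_lit 65628) (nat_lit 14) (.e (nat_lit 401459) (nat_lit 13) (.e (nat_lit 483396) (nat_lit 24) (.e (nat_lit 344169) (nat_lit 40) (.e (nat_lit 671762) (nat_lit 4) .nil))))) (.g (nat_lit 4) .nil .nil))) 
(.lf (nat_lit 196590) (.g (nat_lit 2276) (.e (nat_lit 65628) (nat_lit 14) (.e (nat_lit 401459) (nat_lit 13) (.e (nat_lit 483404) (nat_lit 26) (.e (nat_lit 385096) (nat_lit 49) (.e (nat_lit 786176) (nat_lit 4) .nil))))) (.g (nat_lit 4) .nil .nil)))) (.nd (nat_lit 5) 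
(.lf (nat_lit 196574) (.g (nat_lit 1037) (.e (nat_lit 65628) (nat_lit 14) (.e (nat_lit 401459) (nat_lit 13) (.e (nat_lit 483402) (nat_lit 26) .nil))) .nil)) 
(.lf (nat_lit 196606) (.g (nat_lit 3237) (.e (nat_lit 65628) (nat_lit 14) (.e (nat_lit 401459) (nat_lit 13) (.e (nat_lit 483411) (nat_lit 27) (.e (nat_lit 401414) (nat_lit 0) (.e (nat_lit 2458) (nat_lit 157) (.e (nat_lit 4605) (nat_lit 269) (.e (nat_lit 1196) (nat_lit 88) .nil))))))) (.g (nat_lit 4) .nil .nil)))))))) 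
(.nd (nat_lit 1) (.nd (nat_lit 2) (.nd (nat_lit 3) (.nd (nat_lit 4) (.nd (nat_lit 5) 
(.lf (nat_lit 196545) (.g (nat_lit 2432) (.e (nat_lit 65628) (nat_lit 14) (.e (nat_lit 401459) (nat_lit 13) (.e (nat_lit 483394) (nat_lit 24) (.e (nat_lit 344097) (nat_lit 18) (.e (nat_lit 5907) (nat_lit 320) (.e (nat_lit 1189) (nat_lit 88) .nil)))))) (.g (nat_lit 4) .nil .nil))) 
(.lf (nat_lit 196577) (.g (nat_lit 2164) (.e (nat_lit 65628) (nat_lit 14) (.e (nat_lit 401459) (nat_lit 13) (.e (nat_lit 483403) (nat_lit 26) (.e (nat_lit 385043) (nat_lit 21) .nil)))) .nil))) (.nd (nat_lit 5) 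
(.lf (nat_lit 196561) (.g (nat_lit 682) (.e (nat_lit 65628) (nat_lit 14) (.e (nat_lit 401459) (nat_lit 13) (.e (nat_lit 483398) (nat_lit 25) .nil))) .nil)) 
(.lf (nat_lit 196593) (.g (nat_lit 1904) (.e (nat_lit 65628) (nat_lit 14) (.e (nat_lit 401459) (nat_lit 13) (.e (nat_lit 483406) (nat_lit 26) (.e (nat_lit 385100) (nat_lit 49) .nil)))) .nil)))) (.nd (nat_lit 4) (.nd (nat_lit 5) 
(.lf (nat_lit 196553) (.g (nat_lit 2298) (.e (nat_lit 65628) (nat_lit 14) (.e (nat_lit 401459) (nat_lit 13) (.e (nat_lit 483395) (nat_lit 24) (.e (nat_lit 344167) (nat_lit 40) (.e (nat_lit 671761) (nat_lit 4) .nil))))) (.g (nat_lit 4) .nil .nil))) 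
(.lf (nat_lit 196585) (.g (nat_lit 2621) (.e (nat_lit 65628) (nat_lit 14) (.e (nat_lit 401459) (nat_lit 13) (.e (nat_lit 483403) (nat_lit 26) (.e (nat_lit 385095) (nat_lit 49) .nil)))) .nil))) (.nd (nat_lit 5) 
(.lf (nat_lit 196569) (.g (nat_lit 3247) (.e (nat_lit 65628) (nat_lit 14) (.e (nat_lit 401459) (nat_lit 13) (.e (nat_lit 483399) (nat_lit 25) (.e (nat_lit 368662) (nat_lit 18) (.e (nat_lit 5907) (nat_lit 320) (.e (nat_lit 1199) (nat_lit 88) .nil)))))) (.g (nat_lit 6) .nil .nil))) 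
(.lf (nat_lit 196601) (.g (nat_lit 1182) (.e (nat_lit 65628) (nat_lit 14) (.e (nat_lit 401459) (nat_lit 13) (.e (nat_lit 483411) (nat_lit 27) (.e (nat_lit 401414) (nat_lit 0) .nil)))) .nil))))) (.nd (nat_lit 3) (.nd (nat_lit 4) (.nd (nat_lit 5) 
(.lf (nat_lit 196549) (.g (nat_lit 3039) (.e (nat_lit 65628) (nat_lit 14) (.e (nat_lit 401459) (nat_lit 13) (.e (nat_lit 483394) (nat_lit 24) (.e (nat_lit 344169) (nat_lit 40) (.e (nat_lit 671760) (nat_lit 4) .nil))))) (.g (nat_lit 4) .nil .nil))) 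
(.lf (nat_lit 196581) (.g (nat_lit 3045) (.e (nat_lit 65628) (nat_lit 14) (.e (nat_lit 401459) (nat_lit 13) (.e (nat_lit 483403) (nat_lit 26) (.e (nat_lit 385051) (nat_lit 21) .nil)))) .nil))) (.nd (nat_lit 5) 
(.lf (nat_lit 196565) (.g (nat_lit 2485) (.e (nat_lit 65628) (nat_lit 14) (.e (nat_lit 401459) (nat_lit 13) (.e (nat_lit 483398) (nat_lit 25) (.e (nat_lit 368662) (nat_lit 18) (.e (nat_lit 5907) (nat_lit 320) (.e (nat_lit 1189) (nat_lit 88) .nil)))))) (.g (nat_lit 4) .nil .nil))) 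
(.lf (nat_lit 196597) (.g (nat_lit 1239) (.e (nat_lit 65628) (nat_lit 14) (.e (nat_lit 401459) (nat_lit 13) (.e (nat_lit 483410) (nat_lit 27) (.e (nat_lit 401463) (nat_lit 15) .nil)))) .nil)))) (.nd (nat_lit 4) (.nd (nat_lit 5) 
(.lf (nat_lit 196557) (.g (nat_lit 1590) (.e (nat_lit 65628) (nat_lit 14) (.e (nat_lit 401459) (nat_lit 13) (.e (nat_lit 483396) (nat_lit 24) (.e (nat_lit 344093) (nat_lit 18) .nil)))) .nil)) 
(.lf (nat_lit 196589) (.g (nat_lit 2701) (.e (nat_lit 65628) (nat_lit 14) (.e (nat_lit 401459) (nat_lit 13) (.e (nat_lit 483404) (nat_lit 26) (.e (nat_lit 385090) (nat_lit 49) (.e (nat_lit 778321) (nat_lit 4) .nil))))) (.g (nat_lit 5) .nil .nil)))) (.nd (nat_lit 5) 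
(.lf (nat_lit 196573) (.g (nat_lit 3159) (.e (nat_lit 65628) (nat_lit 14) (.e (nat_lit 401459) (nat_lit 13) (.e (nat_lit 483400) (nat_lit 25) (.e (nat_lit 368662) (nat_lit 18) (.e (nat_lit 5905) (nat_lit 320) (.e (nat_lit 1189) (nat_lit 88) .nil)))))) (.g (nat_lit 5) .nil .nil))) 
(.lf (nat_lit 196605) (.g (nat_lit 2728) (.e (nat_lit 65628) (nat_lit 14) (.e (nat_lit 401459) (nat_lit 13) (.e (nat_lit 483411) (nat_lit 27) (.e (nat_lit 401414) (nat_lit 0) (.e (nat_lit 2438) (nat_lit 157) (.e (nat_lit 4604) (nat_lit 269) (.e (nat_lit 1189) (nat_lit 88) .nil))))))) (.g (nat_lit 4) .nil .nil))))))) (.nd (nat_lit 2) (.nd (nat_lit 3) (.nd (nat_lit 4) (.nd (nat_lit 5) 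
(.lf (nat_lit 196547) (.g (nat_lit 2857) (.e (nat_lit 65628) (nat_lit 14) (.e (nat_lit 401459) (nat_lit 13) (.e (nat_lit 483394) (nat_lit 24) (.e (nat_lit 344168) (nat_lit 40) (.e (nat_lit 671760) (nat_lit 4) .nil))))) (.g (nat_lit 4) .nil .nil))) 
(.lf (nat_lit 196579) (.g (nat_lit 2947) (.e (nat_lit 65628) (nat_lit 14) (.e (nat_lit 401459) (nat_lit 13) (.e (nat_lit 483403) (nat_lit 26) (.e (nat_lit 385045) (nat_lit 21) .nil)))) .nil))) (.nd (nat_lit 5) 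
(.lf (nat_lit 196563) (.g (nat_lit 1901) (.e (nat_lit 65628) (nat_lit 14) (.e (nat_lit 401459) (nat_lit 13) (.e (nat_lit 483398) (nat_lit 25) (.e (nat_lit 368662) (nat_lit 18) (.e (nat_lit 5902) (nat_lit 320) .nil))))) .nil)) 
(.lf (nat_lit 196595) (.g (nat_lit 1249) (.e (nat_lit 65628) (nat_lit 14) (.e (nat_lit 401459) (nat_lit 13) (.e (nat_lit 483410) (nat_lit 27) (.e (nat_lit 401418) (nat_lit 0) .nil)))) .nil)))) (.nd (nat_lit 4) (.nd (nat_lit 5) 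
(.lf (nat_lit 196555) (.g (nat_lit 3144) (.e (nat_lit 65628) (nat_lit 14) (.e (nat_lit 401459) (nat_lit 13) (.e (nat_lit 483395) (nat_lit 24) (.e (nat_lit 344168) (nat_lit 40) (.e (nat_lit 671761) (nat_lit 4) .nil))))) (.g (nat_lit 0) .nil .nil))) 
(.lf (nat_lit 196587) (.g (nat_lit 2934) (.e (nat_lit 65628) (nat_lit 14) (.e (nat_lit 401459) (nat_lit 13) (.e (nat_lit 483403) (nat_lit 26) (.e (nat_lit 385100) (nat_lit 49) (.e (nat_lit 786176) (nat_lit 4) .nil))))) (.g (nat_lit 4) .nil .nil)))) (.nd (nat_lit 5) 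
(.lf (nat_lit 196571) (.g (nat_lit 2920) (.e (nat_lit 65628) (nat_lit 14) (.e (nat_lit 401459) (nat_lit 13) (.e (nat_lit 483399) (nat_lit 25) (.e (nat_lit 368695) (nat_lit 40) (.e (nat_lit 671761) (nat_lit 4) .nil))))) (.g (nat_lit 4) .nil .nil))) 
(.lf (nat_lit 196603) (.g (nat_lit 3137) (.e (nat_lit 65628) (nat_lit 14) (.e (nat_lit 401459) (nat_lit 13) (.e (nat_lit 483411) (nat_lit 27) (.e (nat_lit 401414) (nat_lit 0) (.e (nat_lit 2423) (nat_lit 157) (.e (nat_lit 4616) (nat_lit 269) (.e (nat_lit 1190) (nat_lit 88) .nil))))))) (.g (nat_lit 4) .nil .nil)))))) (.nd (nat_lit 3) (.nd (nat_lit 4) (.nd (nat_lit 5) 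
(.lf (nat_lit 196551) (.g (nat_lit 2299) (.e (nat_lit 65628) (nat_lit 14) (.e (nat_lit 401459) (nat_lit 13) (.e (nat_lit 483395) (nat_lit 24) (.e (nat_lit 344090) (nat_lit 18) (.e (nat_lit 5896) (nat_lit 320) (.e (nat_lit 7936) (nat_lit 88) .nil)))))) (.g (nat_lit 4) .nil .nil))) 
(.lf (nat_lit 196583) (.g (nat_lit 3371) (.e (nat_lit 65628) (nat_lit 14) (.e (nat_lit 401459) (nat_lit 13) (.e (nat_lit 483403) (nat_lit 26) (.e (nat_lit 385090) (nat_lit 49) (.e (nat_lit 778321) (nat_lit 4) .nil))))) (.g (nat_lit 5) .nil .nil)))) (.nd (nat_lit 5) 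
(.lf (nat_lit 196567) (.g (nat_lit 526) (.e (nat_lit 65628) (nat_lit 14) (.e (nat_lit 401459) (nat_lit 13) (.e (nat_lit 483399) (nat_lit 25) .nil))) .nil)) 
(.lf (nat_lit 196599) (.g (nat_lit 1947) (.e (nat_lit 65628) (nat_lit 14) (.e (nat_lit 401459) (nat_lit 13) (.e (nat_lit 483411) (nat_lit 27) (.e (nat_lit 401411) (nat_lit 0) .nil)))) .nil)))) (.nd (nat_lit 4) (.nd (nat_lit 5) 
(.lf (nat_lit 196559) (.g (nat_lit 973) (.e (nat_lit 65628) (nat_lit 14) (.e (nat_lit 401459) (nat_lit 13) (.e (nat_lit 483397) (nat_lit 25) .nil))) .nil)) 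
(.lf (nat_lit 196591) (.g (nat_lit 2006) (.e (nat_lit 65628) (nat_lit 14) (.e (nat_lit 401459) (nat_lit 13) (.e (nat_lit 483404) (nat_lit 26) (.e (nat_lit 385099) (nat_lit 49) (.e (nat_lit 786176) (nat_lit 4) .nil))))) (.g (nat_lit 4) .nil .nil)))) (.nd (nat_lit 5) 
(.lf (nat_lit 196575) (.g (nat_lit 4136) (.e (nat_lit 65628) (nat_lit 14) (.e (nat_lit 401459) (nat_lit 13) (.e (nat_lit 483402) (nat_lit 26) (.e (nat_lit 385093) (nat_lit 49) (.e (nat_lit 778321) (nat_lit 4) .nil))))) (.g (nat_lit 0) .nil .nil))) 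
(.lf (nat_lit 196607) (.g (nat_lit 3263) (.e (nat_lit 65628) (nat_lit 14) (.e (nat_lit 401459) (nat_lit 13) (.e (nat_lit 483411) (nat_lit 27) (.e (nat_lit 401414) (nat_lit 0) (.e (nat_lit 2458) (nat_lit 157) (.e (nat_lit 4606) (nat_lit 269) (.e (nat_lit 1196) (nat_lit 88) .nil))))))) (.g (nat_lit 4) .nil .nil)))))))))

noncomputable def tv2601 : DT := (.nd (nat_lit 0) (.nd (nat_lit 1) (.nd (nat_lit 2) (.nd (nat_lit 3) (.nd (nat_lit 4) (.nd (nat_lit 5) (.nd (nat_lit 6) 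
(.lf (nat_lit 196608) (.g (nat_lit 1878) (.e (nat_lit 65628) (nat_lit 14) (.e (nat_lit 401459) (nat_lit 13) (.e (nat_lit 483411) (nat_lit 27) (.e (nat_lit 401414) (nat_lit 0) (.e (nat_lit 3343) (nat_lit 206) .nil))))) .nil)) 
(.lf (nat_lit 196672) (.g (nat_lit 2841) (.e (nat_lit 65629) (nat_lit 14) (.e (nat_lit 401459) (nat_lit 13) (.e (nat_lit 483344) (nat_lit 17) (.e (nat_lit 6712) (nat_lit 360) (.e (nat_lit 163990) (nat_lit 34) (.e (nat_lit 606225) (nat_lit 4) .nil)))))) (.g (nat_lit 4) .nil .nil)))) (.nd (nat_lit 6) 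
(.lf (nat_lit 196640) (.g (nat_lit 1326) (.e (nat_lit 65629) (nat_lit 14) (.e (nat_lit 401454) (nat_lit 12) (.e (nat_lit 475188) (nat_lit 33) .nil))) .nil)) 
(.lf (nat_lit 196704) (.g (nat_lit 3123) (.e (nat_lit 65629) (nat_lit 14) (.e (nat_lit 401459) (nat_lit 13) (.e (nat_lit 483372) (nat_lit 21) (.e (nat_lit 327424) (nat_lit 10) .nil)))) .nil)))) (.nd (nat_lit 5) (.nd (nat_lit 6) 
(.lf (nat_lit 196624) (.g (nat_lit 955) (.e (nat_lit 65629) (nat_lit 14) (.e (nat_lit 401425) (nat_lit 2) (.e (nat_lit 196671) (nat_lit 15) .nil))) .nil)) 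
(.lf (nat_lit 196688) (.g (nat_lit 3394) (.e (nat_lit 65629) (nat_lit 14) (.e (nat_lit 401459) (nat_lit 13) (.e (nat_lit 483372) (nat_lit 21) (.e (nat_lit 319490) (nat_lit 0) .nil)))) .nil))) (.nd (nat_lit 6) 
(.lf (nat_lit 196656) (.g (nat_lit 2296) (.e (nat_lit 65629) (nat_lit 14) (.e (nat_lit 401457) (nat_lit 13) (.e (nat_lit 483394) (nat_lit 24) (.e (nat_lit 344168) (nat_lit 40) (.e (nat_lit 671762) (nat_lit 4) .nil))))) (.g (nat_lit 4) .nil .nil))) 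
(.lf (nat_lit 196720) (.g (nat_lit 759) (.e (nat_lit 65629) (nat_lit 14) (.e (nat_lit 401459) (nat_lit 13) (.e (nat_lit 483388) (nat_lit 23) .nil))) .nil))))) (.nd (nat_lit 4) (.nd (nat_lit 5) (.nd (nat_lit 6) 
(.lf (nat_lit 196616) (.g (nat_lit 1193) (.e (nat_lit 65628) (nat_lit 14) (.e (nat_lit 401459) (nat_lit 13) (.e (nat_lit 483411) (nat_lit 27) (.e (nat_lit 409344) (nat_lit 1) .nil)))) .nil)) 
(.lf (nat_lit 196680) (.g (nat_lit 2105) (.e (nat_lit 65629) (nat_lit 14) (.e (nat_lit 401459) (nat_lit 13) (.e (nat_lit 483350) (nat_lit 17) (.e (nat_lit 7936) (nat_lit 343) .nil)))) .nil))) (.nd (nat_lit 6) 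
(.lf (nat_lit 196648) (.g (nat_lit 2677) (.e (nat_lit 65629) (nat_lit 14) (.e (nat_lit 401454) (nat_lit 12) (.e (nat_lit 475214) (nat_lit 42) (.e (nat_lit 720949) (nat_lit 24) .nil)))) .nil)) 
(.lf (nat_lit 196712) (.g (nat_lit 1076) (.e (nat_lit 65629) (nat_lit 14) (.e (nat_lit 401459) (nat_lit 13) (.e (nat_lit 483375) (nat_lit 22) (.e (nat_lit 335616) (nat_lit 1) .nil)))) .nil)))) (.nd (nat_lit 5) (.nd (nat_lit 6) 
(.lf (nat_lit 196632) (.g (nat_lit 1684) (.e (nat_lit 65629) (nat_lit 14) (.e (nat_lit 401437) (nat_lit 9) (.e (nat_lit 426542) (nat_lit 29) (.e (nat_lit 352303) (nat_lit 20) .nil)))) .nil)) 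
(.lf (nat_lit 196696) (.g (nat_lit 4131) (.e (nat_lit 65629) (nat_lit 14) (.e (nat_lit 401459) (nat_lit 13) (.e (nat_lit 483372) (nat_lit 21) (.e (nat_lit 319496) (nat_lit 10) .nil)))) .nil))) (.nd (nat_lit 6) 
(.lf (nat_lit 196664) (.g (nat_lit 1006) (.e (nat_lit 65629) (nat_lit 14) (.e (nat_lit 401459) (nat_lit 13) (.e (nat_lit 483344) (nat_lit 17) (.e (nat_lit 6434) (nat_lit 343) .nil)))) .nil)) 
(.lf (nat_lit 196728) (.g (nat_lit 2803) (.e (nat_lit 65629) (nat_lit 14) (.e (nat_lit 401459) (nat_lit 13) (.e (nat_lit 491264) (nat_lit 23) (.e (nat_lit 335995) (nat_lit 1) (.e (nat_lit 57870) (nat_lit 264) (.e (nat_lit 1189) (nat_lit 88) .nil)))))) (.g (nat_lit 5) .nil .nil))))))) (.nd (nat_lit 3) (.nd (nat_lit 4) (.nd (nat_lit 5) (.nd (nat_lit 6) 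
(.lf (nat_lit 196612) (.g (nat_lit 3022) (.e (nat_lit 65628) (nat_lit 14) (.e (nat_lit 401459) (nat_lit 13) (.e (nat_lit 483411) (nat_lit 27) (.e (nat_lit 401414) (nat_lit 0) (.e (nat_lit 3349) (nat_lit 206) (.e (nat_lit 606224) (nat_lit 4) .nil)))))) (.g (nat_lit 4) .nil .nil))) 
(.lf (nat_lit 196676) (.g (nat_lit 829) (.e (nat_lit 65629) (nat_lit 14) (.e (nat_lit 401459) (nat_lit 13) (.e (nat_lit 483350) (nat_lit 17) .nil))) .nil))) (.nd (nat_lit 6) 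
(.lf (nat_lit 196644) (.g (nat_lit 1015) (.e (nat_lit 65629) (nat_lit 14) (.e (nat_lit 401454) (nat_lit 12) (.e (nat_lit 475212) (nat_lit 42) .nil))) .nil)) 
(.lf (nat_lit 196708) (.g (nat_lit 4404) (.e (nat_lit 65629) (nat_lit 14) (.e (nat_lit 401459) (nat_lit 13) (.e (nat_lit 483372) (nat_lit 21) (.e (nat_lit 319516) (nat_lit 11) (.e (nat_lit 8484) (nat_lit 168) .nil))))) .nil)))) (.nd (nat_lit 5) (.nd (nat_lit 6) 
(.lf (nat_lit 196628) (.g (nat_lit 1688) (.e (nat_lit 65629) (nat_lit 14) (.e (nat_lit 401428) (nat_lit 3) (.e (nat_lit 204866) (nat_lit 28) (.e (nat_lit 352302) (nat_lit 20) (.e (nat_lit 1841) (nat_lit 123) .nil))))) .nil)) 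
(.lf (nat_lit 196692) (.g (nat_lit 4659) (.e (nat_lit 65629) (nat_lit 14) (.e (nat_lit 401459) (nat_lit 13) (.e (nat_lit 483372) (nat_lit 21) (.e (nat_lit 319494) (nat_lit 0) .nil)))) .nil))) (.nd (nat_lit 6) 
(.lf (nat_lit 196660) (.g (nat_lit 2720) (.e (nat_lit 65629) (nat_lit 14) (.e (nat_lit 401458) (nat_lit 13) (.e (nat_lit 483396) (nat_lit 24) (.e (nat_lit 344168) (nat_lit 40) (.e (nat_lit 671762) (nat_lit 4) .nil))))) (.g (nat_lit 5) .nil .nil))) 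
(.lf (nat_lit 196724) (.g (nat_lit 4659) (.e (nat_lit 65629) (nat_lit 14) (.e (nat_lit 401459) (nat_lit 13) (.e (nat_lit 483391) (nat_lit 23) (.e (nat_lit 335998) (nat_lit 1) (.e (nat_lit 57873) (nat_lit 264) (.e (nat_lit 1200) (nat_lit 88) .nil)))))) (.g (nat_lit 0) .nil .nil)))))) (.nd (nat_lit 4) (.nd (nat_lit 5) (.nd (nat_lit 6) 
(.lf (nat_lit 196620) (.g (nat_lit 3215) (.e (nat_lit 65629) (nat_lit 14) (.e (nat_lit 401424) (nat_lit 2) (.e (nat_lit 196672) (nat_lit 15) (.e (nat_lit 81943) (nat_lit 20) (.e (nat_lit 1841) (nat_lit 123) (.e (nat_lit 548889) (nat_lit 9) .nil)))))) (.g (nat_lit 0) .nil .nil))) 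
(.lf (nat_lit 196684) (.g (nat_lit 1612) (.e (nat_lit 65629) (nat_lit 14) (.e (nat_lit 401459) (nat_lit 13) (.e (nat_lit 483363) (nat_lit 18) (.e (nat_lit 65280) (nat_lit 217) .nil)))) .nil))) (.nd (nat_lit 6) 
(.lf (nat_lit 196652) (.g (nat_lit 2917) (.e (nat_lit 65629) (nat_lit 14) (.e (nat_lit 401456) (nat_lit 13) (.e (nat_lit 483394) (nat_lit 24) (.e (nat_lit 344169) (nat_lit 40) (.e (nat_lit 671762) (nat_lit 4) .nil))))) (.g (nat_lit 4) .nil .nil))) 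
(.lf (nat_lit 196716) (.g (nat_lit 2060) (.e (nat_lit 65629) (nat_lit 14) (.e (nat_lit 401459) (nat_lit 13) (.e (nat_lit 483379) (nat_lit 23) (.e (nat_lit 336330) (nat_lit 19) (.e (nat_lit 220928) (nat_lit 4) .nil))))) (.g (nat_lit 4) .nil .nil))))) (.nd (nat_lit 5) (.nd (nat_lit 6) 
(.lf (nat_lit 196636) (.g (nat_lit 599) (.e (nat_lit 65629) (nat_lit 14) (.e (nat_lit 401444) (nat_lit 9) (.e (nat_lit 426552) (nat_lit 32) .nil))) .nil)) 
(.lf (nat_lit 196700) (.g (nat_lit 4206) (.e (nat_lit 65629) (nat_lit 14) (.e (nat_lit 401459) (nat_lit 13) (.e (nat_lit 483372) (nat_lit 21) (.e (nat_lit 319502) (nat_lit 10) .nil)))) .nil))) (.nd (nat_lit 6) 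
(.lf (nat_lit 196668) (.g (nat_lit 4474) (.e (nat_lit 65629) (nat_lit 14) (.e (nat_lit 401459) (nat_lit 13) (.e (nat_lit 483344) (nat_lit 17) (.e (nat_lit 6514) (nat_lit 346) (.e (nat_lit 57354) (nat_lit 0) (.e (nat_lit 5905) (nat_lit 320) (.e (nat_lit 1200) (nat_lit 88) .nil))))))) (.g (nat_lit 6) .nil .nil))) 
(.lf (nat_lit 196732) (.g (nat_lit 4280) (.e (nat_lit 65629) (nat_lit 14) (.e (nat_lit 401459) (nat_lit 13) (.e (nat_lit 483395) (nat_lit 24) (.e (nat_lit 344168) (nat_lit 40) (.e (nat_lit 671762) (nat_lit 4) .nil))))) (.g (nat_lit 0) .nil .nil)))))))) (.nd (nat_lit 2) (.nd (nat_lit 3) (.nd (nat_lit 4) (.nd (nat_lit 5) (.nd (nat_lit 6) 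
(.lf (nat_lit 196610) (.g (nat_lit 3277) (.e (nat_lit 65628) (nat_lit 14) (.e (nat_lit 401459) (nat_lit 13) (.e (nat_lit 483411) (nat_lit 27) (.e (nat_lit 401414) (nat_lit 0) (.e (nat_lit 3343) (nat_lit 206) (.e (nat_lit 606226) (nat_lit 4) .nil)))))) (.g (nat_lit 4) .nil .nil))) 
(.lf (nat_lit 196674) (.g (nat_lit 969) (.e (nat_lit 65629) (nat_lit 14) (.e (nat_lit 401459) (nat_lit 13) (.e (nat_lit 483347) (nat_lit 17) (.e (nat_lit 6198) (nat_lit 332) .nil)))) .nil))) (.nd (nat_lit 6) 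
(.lf (nat_lit 196642) (.g (nat_lit 1094) (.e (nat_lit 65629) (nat_lit 14) (.e (nat_lit 401454) (nat_lit 12) (.e (nat_lit 475193) (nat_lit 38) .nil))) .nil)) 
(.lf (nat_lit 196706) (.g (nat_lit 4883) (.e (nat_lit 65629) (nat_lit 14) (.e (nat_lit 401459) (nat_lit 13) (.e (nat_lit 483372) (nat_lit 21) (.e (nat_lit 319515) (nat_lit 11) .nil)))) .nil)))) (.nd (nat_lit 5) (.nd (nat_lit 6) 
(.lf (nat_lit 196626) (.g (nat_lit 2266) (.e (nat_lit 65629) (nat_lit 14) (.e (nat_lit 401425) (nat_lit 2) (.e (nat_lit 196681) (nat_lit 17) (.e (nat_lit 131109) (nat_lit 9) (.e (nat_lit 335878) (nat_lit 0) .nil))))) .nil)) 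
(.lf (nat_lit 196690) (.g (nat_lit 4551) (.e (nat_lit 65629) (nat_lit 14) (.e (nat_lit 401459) (nat_lit 13) (.e (nat_lit 483372) (nat_lit 21) (.e (nat_lit 319491) (nat_lit 0) .nil)))) .nil))) (.nd (nat_lit 6) 
(.lf (nat_lit 196658) (.g (nat_lit 3765) (.e (nat_lit 65629) (nat_lit 14) (.e (nat_lit 401457) (nat_lit 13) (.e (nat_lit 483395) (nat_lit 24) (.e (nat_lit 344169) (nat_lit 40) (.e (nat_lit 671762) (nat_lit 4) .nil))))) (.g (nat_lit 0) .nil .nil))) 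
(.lf (nat_lit 196722) (.g (nat_lit 718) (.e (nat_lit 65629) (nat_lit 14) (.e (nat_lit 401459) (nat_lit 13) (.e (nat_lit 483391) (nat_lit 23) .nil))) .nil))))) (.nd (nat_lit 4) (.nd (nat_lit 5) (.nd (nat_lit 6) 
(.lf (nat_lit 196618) (.g (nat_lit 1736) (.e (nat_lit 65628) (nat_lit 14) (.e (nat_lit 401459) (nat_lit 13) (.e (nat_lit 483411) (nat_lit 27) (.e (nat_lit 401463) (nat_lit 15) .nil)))) .nil)) 
(.lf (nat_lit 196682) (.g (nat_lit 710) (.e (nat_lit 65629) (nat_lit 14) (.e (nat_lit 401459) (nat_lit 13) (.e (nat_lit 483354) (nat_lit 17) .nil))) .nil))) (.nd (nat_lit 6) 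
(.lf (nat_lit 196650) (.g (nat_lit 2286) (.e (nat_lit 65629) (nat_lit 14) (.e (nat_lit 401454) (nat_lit 12) (.e (nat_lit 475214) (nat_lit 42) (.e (nat_lit 720956) (nat_lit 25) .nil)))) .nil)) 
(.lf (nat_lit 196714) (.g (nat_lit 3501) (.e (nat_lit 65629) (nat_lit 14) (.e (nat_lit 401459) (nat_lit 13) (.e (nat_lit 483378) (nat_lit 23) (.e (nat_lit 335997) (nat_lit 1) (.e (nat_lit 57870) (nat_lit 264) (.e (nat_lit 1189) (nat_lit 88) .nil)))))) (.g (nat_lit 6) .nil .nil))))) (.nd (nat_lit 5) (.nd (nat_lit 6) 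
(.lf (nat_lit 196634) (.g (nat_lit 674) (.e (nat_lit 65629) (nat_lit 14) (.e (nat_lit 401438) (nat_lit 9) (.e (nat_lit 426482) (nat_lit 27) .nil))) .nil)) 
(.lf (nat_lit 196698) (.g (nat_lit 4839) (.e (nat_lit 65629) (nat_lit 14) (.e (nat_lit 401459) (nat_lit 13) (.e (nat_lit 483372) (nat_lit 21) (.e (nat_lit 319499) (nat_lit 10) .nil)))) .nil))) (.nd (nat_lit 6) 
(.lf (nat_lit 196666) (.g (nat_lit 3275) (.e (nat_lit 65629) (nat_lit 14) (.e (nat_lit 401459) (nat_lit 13) (.e (nat_lit 483344) (nat_lit 17) (.e (nat_lit 6513) (nat_lit 346) (.e (nat_lit 57354) (nat_lit 0) (.e (nat_lit 5905) (nat_lit 320) (.e (nat_lit 1189) (nat_lit 88) .nil))))))) (.g (nat_lit 5) .nil .nil))) 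
(.lf (nat_lit 196730) (.g (nat_lit 4294) (.e (nat_lit 65629) (nat_lit 14) (.e (nat_lit 401459) (nat_lit 13) (.e (nat_lit 483394) (nat_lit 24) (.e (nat_lit 344168) (nat_lit 40) (.e (nat_lit 671762) (nat_lit 4) .nil))))) (.g (nat_lit 5) .nil .nil))))))) (.nd (nat_lit 3) (.nd (nat_lit 4) (.nd (nat_lit 5) (.nd (nat_lit 6) 
(.lf (nat_lit 196614) (.g (nat_lit 1735) (.e (nat_lit 65628) (nat_lit 14) (.e (nat_lit 401459) (nat_lit 13) (.e (nat_lit 483411) (nat_lit 27) (.e (nat_lit 401416) (nat_lit 0) .nil)))) .nil)) 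
(.lf (nat_lit 196678) (.g (nat_lit 3151) (.e (nat_lit 65629) (nat_lit 14) (.e (nat_lit 401459) (nat_lit 13) (.e (nat_lit 483350) (nat_lit 17) (.e (nat_lit 6113) (nat_lit 332) (.e (nat_lit 1109) (nat_lit 82) .nil))))) .nil))) (.nd (nat_lit 6) 
(.lf (nat_lit 196646) (.g (nat_lit 1602) (.e (nat_lit 65629) (nat_lit 14) (.e (nat_lit 401454) (nat_lit 12) (.e (nat_lit 475213) (nat_lit 42) (.e (nat_lit 720956) (nat_lit 25) .nil)))) .nil)) 
(.lf (nat_lit 196710) (.g (nat_lit 1118) (.e (nat_lit 65629) (nat_lit 14) (.e (nat_lit 401459) (nat_lit 13) (.e (nat_lit 483375) (nat_lit 22) (.e (nat_lit 327680) (nat_lit 0) .nil)))) .nil)))) (.nd (nat_lit 5) (.nd (nat_lit 6) 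
(.lf (nat_lit 196630) (.g (nat_lit 1877) (.e (nat_lit 65629) (nat_lit 14) (.e (nat_lit 401437) (nat_lit 9) (.e (nat_lit 426540) (nat_lit 29) (.e (nat_lit 352295) (nat_lit 20) .nil)))) .nil)) 
(.lf (nat_lit 196694) (.g (nat_lit 3123) (.e (nat_lit 65629) (nat_lit 14) (.e (nat_lit 401459) (nat_lit 13) (.e (nat_lit 483372) (nat_lit 21) (.e (nat_lit 327424) (nat_lit 0) .nil)))) .nil))) (.nd (nat_lit 6) 
(.lf (nat_lit 196662) (.g (nat_lit 3087) (.e (nat_lit 65629) (nat_lit 14) (.e (nat_lit 401459) (nat_lit 13) (.e (nat_lit 483343) (nat_lit 17) (.e (nat_lit 6514) (nat_lit 346) (.e (nat_lit 57354) (nat_lit 0) (.e (nat_lit 5905) (nat_lit 320) (.e (nat_lit 1189) (nat_lit 88) .nil))))))) (.g (nat_lit 5) .nil .nil))) 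
(.lf (nat_lit 196726) (.g (nat_lit 1063) (.e (nat_lit 65629) (nat_lit 14) (.e (nat_lit 401459) (nat_lit 13) (.e (nat_lit 483392) (nat_lit 23) .nil))) .nil))))) (.nd (nat_lit 4) (.nd (nat_lit 5) (.nd (nat_lit 6) 
(.lf (nat_lit 196622) (.g (nat_lit 2283) (.e (nat_lit 65629) (nat_lit 14) (.e (nat_lit 401425) (nat_lit 2) (.e (nat_lit 196666) (nat_lit 13) (.e (nat_lit 65611) (nat_lit 10) .nil)))) .nil)) 
(.lf (nat_lit 196686) (.g (nat_lit 4875) (.e (nat_lit 65629) (nat_lit 14) (.e (nat_lit 401459) (nat_lit 13) (.e (nat_lit 483372) (nat_lit 21) (.e (nat_lit 319488) (nat_lit 0) .nil)))) .nil))) (.nd (nat_lit 6) 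
(.lf (nat_lit 196654) (.g (nat_lit 3634) (.e (nat_lit 65629) (nat_lit 14) (.e (nat_lit 401456) (nat_lit 13) (.e (nat_lit 483395) (nat_lit 24) (.e (nat_lit 344169) (nat_lit 40) (.e (nat_lit 671762) (nat_lit 4) .nil))))) (.g (nat_lit 0) .nil .nil))) 
(.lf (nat_lit 196718) (.g (nat_lit 1743) (.e (nat_lit 65629) (nat_lit 14) (.e (nat_lit 401459) (nat_lit 13) (.e (nat_lit 483381) (nat_lit 23) (.e (nat_lit 336330) (nat_lit 19) (.e (nat_lit 220928) (nat_lit 4) .nil))))) (.g (nat_lit 4) .nil .nil))))) (.nd (nat_lit 5) (.nd (nat_lit 6) 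
(.lf (nat_lit 196638) (.g (nat_lit 1277) (.e (nat_lit 65629) (nat_lit 14) (.e (nat_lit 401454) (nat_lit 12) (.e (nat_lit 475144) (nat_lit 16) .nil))) .nil)) 
(.lf (nat_lit 196702) (.g (nat_lit 4618) (.e (nat_lit 65629) (nat_lit 14) (.e (nat_lit 401459) (nat_lit 13) (.e (nat_lit 483372) (nat_lit 21) (.e (nat_lit 319504) (nat_lit 10) .nil)))) .nil))) (.nd (nat_lit 6) 
(.lf (nat_lit 196670) (.g (nat_lit 3394) (.e (nat_lit 65629) (nat_lit 14) (.e (nat_lit 401459) (nat_lit 13) (.e (nat_lit 483344) (nat_lit 17) (.e (nat_lit 6619) (nat_lit 357) (.e (nat_lit 2612) (nat_lit 163) (.e (nat_lit 164423) (nat_lit 272) (.e (nat_lit 1200) (nat_lit 88) .nil))))))) (.g (nat_lit 5) .nil .nil))) 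
(.lf (nat_lit 196734) (.g (nat_lit 3873) (.e (nat_lit 65629) (nat_lit 14) (.e (nat_lit 401459) (nat_lit 13) (.e (nat_lit 483396) (nat_lit 24) (.e (nat_lit 344169) (nat_lit 40) (.e (nat_lit 671762) (nat_lit 4) .nil))))) (.g (nat_lit 0) .nil .nil))))))))) (.nd (nat_lit 1) (.nd (nat_lit 2) (.nd (nat_lit 3) (.nd (nat_lit 4) (.nd (nat_lit 5) (.nd (nat_lit 6) 
(.lf (nat_lit 196609) (.g (nat_lit 3129) (.e (nat_lit 65628) (nat_lit 14) (.e (nat_lit 401459) (nat_lit 13) (.e (nat_lit 483411) (nat_lit 27) (.e (nat_lit 401414) (nat_lit 0) (.e (nat_lit 3343) (nat_lit 206) (.e (nat_lit 606225) (nat_lit 4) .nil)))))) (.g (nat_lit 4) .nil .nil))) 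
(.lf (nat_lit 196673) (.g (nat_lit 2911) (.e (nat_lit 65629) (nat_lit 14) (.e (nat_lit 401459) (nat_lit 13) (.e (nat_lit 483344) (nat_lit 17) (.e (nat_lit 6712) (nat_lit 360) (.e (nat_lit 163990) (nat_lit 34) (.e (nat_lit 606226) (nat_lit 4) .nil)))))) (.g (nat_lit 4) .nil .nil)))) (.nd (nat_lit 6) 
(.lf (nat_lit 196641) (.g (nat_lit 1586) (.e (nat_lit 65629) (nat_lit 14) (.e (nat_lit 401454) (nat_lit 12) (.e (nat_lit 475188) (nat_lit 33) (.e (nat_lit 589871) (nat_lit 18) .nil)))) .nil)) 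
(.lf (nat_lit 196705) (.g (nat_lit 4036) (.e (nat_lit 65629) (nat_lit 14) (.e (nat_lit 401459) (nat_lit 13) (.e (nat_lit 483372) (nat_lit 21) (.e (nat_lit 319514) (nat_lit 11) .nil)))) .nil)))) (.nd (nat_lit 5) (.nd (nat_lit 6) 
(.lf (nat_lit 196625) (.g (nat_lit 924) (.e (nat_lit 65629) (nat_lit 14) (.e (nat_lit 401425) (nat_lit 2) (.e (nat_lit 196673) (nat_lit 15) .nil))) .nil)) 
(.lf (nat_lit 196689) (.g (nat_lit 4386) (.e (nat_lit 65629) (nat_lit 14) (.e (nat_lit 401459) (nat_lit 13) (.e (nat_lit 483372) (nat_lit 21) (.e (nat_lit 319490) (nat_lit 0) (.e (nat_lit 75) (nat_lit 0) .nil))))) .nil))) (.nd (nat_lit 6) 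
(.lf (nat_lit 196657) (.g (nat_lit 3463) (.e (nat_lit 65629) (nat_lit 14) (.e (nat_lit 401457) (nat_lit 13) (.e (nat_lit 483395) (nat_lit 24) (.e (nat_lit 344168) (nat_lit 40) (.e (nat_lit 671762) (nat_lit 4) .nil))))) (.g (nat_lit 5) .nil .nil))) 
(.lf (nat_lit 196721) (.g (nat_lit 1492) (.e (nat_lit 65629) (nat_lit 14) (.e (nat_lit 401459) (nat_lit 13) (.e (nat_lit 483388) (nat_lit 23) (.e (nat_lit 335997) (nat_lit 1) (.e (nat_lit 57870) (nat_lit 264) .nil))))) .nil))))) (.nd (nat_lit 4) (.nd (nat_lit 5) (.nd (nat_lit 6) 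
(.lf (nat_lit 196617) (.g (nat_lit 1696) (.e (nat_lit 65628) (nat_lit 14) (.e (nat_lit 401459) (nat_lit 13) (.e (nat_lit 483411) (nat_lit 27) (.e (nat_lit 401429) (nat_lit 4) .nil)))) .nil)) 
(.lf (nat_lit 196681) (.g (nat_lit 2358) (.e (nat_lit 65629) (nat_lit 14) (.e (nat_lit 401459) (nat_lit 13) (.e (nat_lit 483350) (nat_lit 17) (.e (nat_lit 6702) (nat_lit 358) .nil)))) .nil))) (.nd (nat_lit 6) 
(.lf (nat_lit 196649) (.g (nat_lit 2628) (.e (nat_lit 65629) (nat_lit 14) (.e (nat_lit 401454) (nat_lit 12) (.e (nat_lit 475214) (nat_lit 42) (.e (nat_lit 720955) (nat_lit 25) .nil)))) .nil)) 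
(.lf (nat_lit 196713) (.g (nat_lit 2685) (.e (nat_lit 65629) (nat_lit 14) (.e (nat_lit 401459) (nat_lit 13) (.e (nat_lit 483378) (nat_lit 23) (.e (nat_lit 335928) (nat_lit 0) (.e (nat_lit 2005) (nat_lit 138) (.e (nat_lit 671762) (nat_lit 4) .nil)))))) (.g (nat_lit 4) .nil .nil))))) (.nd (nat_lit 5) (.nd (nat_lit 6) 
(.lf (nat_lit 196633) (.g (nat_lit 3026) (.e (nat_lit 65629) (nat_lit 14) (.e (nat_lit 401437) (nat_lit 9) (.e (nat_lit 426544) (nat_lit 30) (.e (nat_lit 360486) (nat_lit 18) (.e (nat_lit 671762) (nat_lit 4) .nil))))) (.g (nat_lit 5) .nil .nil))) 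
(.lf (nat_lit 196697) (.g (nat_lit 4216) (.e (nat_lit 65629) (nat_lit 14) (.e (nat_lit 401459) (nat_lit 13) (.e (nat_lit 483372) (nat_lit 21) (.e (nat_lit 319497) (nat_lit 10) .nil)))) .nil))) (.nd (nat_lit 6) 
(.lf (nat_lit 196665) (.g (nat_lit 3595) (.e (nat_lit 65629) (nat_lit 14) (.e (nat_lit 401459) (nat_lit 13) (.e (nat_lit 483344) (nat_lit 17) (.e (nat_lit 6436) (nat_lit 343) (.e (nat_lit 1183) (nat_lit 87) (.e (nat_lit 57871) (nat_lit 264) (.e (nat_lit 1189) (nat_lit 88) .nil))))))) (.g (nat_lit 5) .nil .nil))) 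
(.lf (nat_lit 196729) (.g (nat_lit 2864) (.e (nat_lit 65629) (nat_lit 14) (.e (nat_lit 401459) (nat_lit 13) (.e (nat_lit 491264) (nat_lit 23) (.e (nat_lit 335995) (nat_lit 1) (.e (nat_lit 57872) (nat_lit 264) (.e (nat_lit 1199) (nat_lit 88) .nil)))))) (.g (nat_lit 4) .nil .nil))))))) (.nd (nat_lit 3) (.nd (nat_lit 4) (.nd (nat_lit 5) (.nd (nat_lit 6) 
(.lf (nat_lit 196613) (.g (nat_lit 1944) (.e (nat_lit 65628) (nat_lit 14) (.e (nat_lit 401459) (nat_lit 13) (.e (nat_lit 483411) (nat_lit 27) (.e (nat_lit 401415) (nat_lit 0) .nil)))) .nil)) 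
(.lf (nat_lit 196677) (.g (nat_lit 2002) (.e (nat_lit 65629) (nat_lit 14) (.e (nat_lit 401459) (nat_lit 13) (.e (nat_lit 483350) (nat_lit 17) (.e (nat_lit 6113) (nat_lit 332) .nil)))) .nil))) (.nd (nat_lit 6) 
(.lf (nat_lit 196645) (.g (nat_lit 1604) (.e (nat_lit 65629) (nat_lit 14) (.e (nat_lit 401454) (nat_lit 12) (.e (nat_lit 475212) (nat_lit 42) (.e (nat_lit 720956) (nat_lit 25) .nil)))) .nil)) 
(.lf (nat_lit 196709) (.g (nat_lit 676) (.e (nat_lit 65629) (nat_lit 14) (.e (nat_lit 401459) (nat_lit 13) (.e (nat_lit 483374) (nat_lit 22) (.e (nat_lit 327692) (nat_lit 1) .nil)))) .nil)))) (.nd (nat_lit 5) (.nd (nat_lit 6) 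
(.lf (nat_lit 196629) (.g (nat_lit 670) (.e (nat_lit 65629) (nat_lit 14) (.e (nat_lit 401435) (nat_lit 9) (.e (nat_lit 426542) (nat_lit 29) .nil))) .nil)) 
(.lf (nat_lit 196693) (.g (nat_lit 4868) (.e (nat_lit 65629) (nat_lit 14) (.e (nat_lit 401459) (nat_lit 13) (.e (nat_lit 483372) (nat_lit 21) (.e (nat_lit 319495) (nat_lit 0) .nil)))) .nil))) (.nd (nat_lit 6) 
(.lf (nat_lit 196661) (.g (nat_lit 760) (.e (nat_lit 65629) (nat_lit 14) (.e (nat_lit 401459) (nat_lit 13) (.e (nat_lit 483342) (nat_lit 17) .nil))) .nil)) 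
(.lf (nat_lit 196725) (.g (nat_lit 1080) (.e (nat_lit 65629) (nat_lit 14) (.e (nat_lit 401459) (nat_lit 13) (.e (nat_lit 483391) (nat_lit 23) (.e (nat_lit 336035) (nat_lit 4) .nil)))) .nil))))) (.nd (nat_lit 4) (.nd (nat_lit 5) (.nd (nat_lit 6) 
(.lf (nat_lit 196621) (.g (nat_lit 1248) (.e (nat_lit 65629) (nat_lit 14) (.e (nat_lit 401424) (nat_lit 2) (.e (nat_lit 196674) (nat_lit 15) (.e (nat_lit 81947) (nat_lit 20) .nil)))) .nil)) 
(.lf (nat_lit 196685) (.g (nat_lit 1568) (.e (nat_lit 65629) (nat_lit 14) (.e (nat_lit 401459) (nat_lit 13) (.e (nat_lit 483371) (nat_lit 21) (.e (nat_lit 319516) (nat_lit 11) .nil)))) .nil))) (.nd (nat_lit 6) 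
(.lf (nat_lit 196653) (.g (nat_lit 3264) (.e (nat_lit 65629) (nat_lit 14) (.e (nat_lit 401456) (nat_lit 13) (.e (nat_lit 483395) (nat_lit 24) (.e (nat_lit 344168) (nat_lit 40) (.e (nat_lit 671762) (nat_lit 4) .nil))))) (.g (nat_lit 5) .nil .nil))) 
(.lf (nat_lit 196717) (.g (nat_lit 1097) (.e (nat_lit 65629) (nat_lit 14) (.e (nat_lit 401459) (nat_lit 13) (.e (nat_lit 483380) (nat_lit 23) (.e (nat_lit 336261) (nat_lit 15) .nil)))) .nil)))) (.nd (nat_lit 5) (.nd (nat_lit 6) 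
(.lf (nat_lit 196637) (.g (nat_lit 1284) (.e (nat_lit 65629) (nat_lit 14) (.e (nat_lit 401454) (nat_lit 12) (.e (nat_lit 475142) (nat_lit 8) .nil))) .nil)) 
(.lf (nat_lit 196701) (.g (nat_lit 4068) (.e (nat_lit 65629) (nat_lit 14) (.e (nat_lit 401459) (nat_lit 13) (.e (nat_lit 483372) (nat_lit 21) (.e (nat_lit 319503) (nat_lit 10) .nil)))) .nil))) (.nd (nat_lit 6) 
(.lf (nat_lit 196669) (.g (nat_lit 4463) (.e (nat_lit 65629) (nat_lit 14) (.e (nat_lit 401459) (nat_lit 13) (.e (nat_lit 483344) (nat_lit 17) (.e (nat_lit 6514) (nat_lit 346) (.e (nat_lit 57354) (nat_lit 0) (.e (nat_lit 5906) (nat_lit 320) (.e (nat_lit 1200) (nat_lit 88) .nil))))))) (.g (nat_lit 6) .nil .nil))) 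
(.lf (nat_lit 196733) (.g (nat_lit 4220) (.e (nat_lit 65629) (nat_lit 14) (.e (nat_lit 401459) (nat_lit 13) (.e (nat_lit 483395) (nat_lit 24) (.e (nat_lit 344169) (nat_lit 40) (.e (nat_lit 671762) (nat_lit 4) .nil))))) (.g (nat_lit 0) .nil .nil)))))))) (.nd (nat_lit 2) (.nd (nat_lit 3) (.nd (nat_lit 4) (.nd (nat_lit 5) (.nd (nat_lit 6) 
(.lf (nat_lit 196611) (.g (nat_lit 3045) (.e (nat_lit 65628) (nat_lit 14) (.e (nat_lit 401459) (nat_lit 13) (.e (nat_lit 483411) (nat_lit 27) (.e (nat_lit 401414) (nat_lit 0) (.e (nat_lit 3348) (nat_lit 206) (.e (nat_lit 606224) (nat_lit 4) .nil)))))) (.g (nat_lit 4) .nil .nil))) 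
(.lf (nat_lit 196675) (.g (nat_lit 984) (.e (nat_lit 65629) (nat_lit 14) (.e (nat_lit 401459) (nat_lit 13) (.e (nat_lit 483347) (nat_lit 17) (.e (nat_lit 7936) (nat_lit 343) .nil)))) .nil))) (.nd (nat_lit 6) 
(.lf (nat_lit 196643) (.g (nat_lit 997) (.e (nat_lit 65629) (nat_lit 14) (.e (nat_lit 401454) (nat_lit 12) (.e (nat_lit 475209) (nat_lit 41) .nil))) .nil)) 
(.lf (nat_lit 196707) (.g (nat_lit 4338) (.e (nat_lit 65629) (nat_lit 14) (.e (nat_lit 401459) (nat_lit 13) (.e (nat_lit 483372) (nat_lit 21) (.e (nat_lit 319516) (nat_lit 11) .nil)))) .nil)))) (.nd (nat_lit 5) (.nd (nat_lit 6) 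
(.lf (nat_lit 196627) (.g (nat_lit 1288) (.e (nat_lit 65629) (nat_lit 14) (.e (nat_lit 401428) (nat_lit 3) (.e (nat_lit 204866) (nat_lit 28) (.e (nat_lit 352290) (nat_lit 20) .nil)))) .nil)) 
(.lf (nat_lit 196691) (.g (nat_lit 4365) (.e (nat_lit 65629) (nat_lit 14) (.e (nat_lit 401459) (nat_lit 13) (.e (nat_lit 483372) (nat_lit 21) (.e (nat_lit 319492) (nat_lit 0) .nil)))) .nil))) (.nd (nat_lit 6) 
(.lf (nat_lit 196659) (.g (nat_lit 793) (.e (nat_lit 65629) (nat_lit 14) (.e (nat_lit 401458) (nat_lit 13) (.e (nat_lit 483393) (nat_lit 23) .nil))) .nil)) 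
(.lf (nat_lit 196723) (.g (nat_lit 3535) (.e (nat_lit 65629) (nat_lit 14) (.e (nat_lit 401459) (nat_lit 13) (.e (nat_lit 483391) (nat_lit 23) (.e (nat_lit 335998) (nat_lit 1) (.e (nat_lit 57873) (nat_lit 264) (.e (nat_lit 1190) (nat_lit 88) .nil)))))) (.g (nat_lit 4) .nil .nil)))))) (.nd (nat_lit 4) (.nd (nat_lit 5) (.nd (nat_lit 6) 
(.lf (nat_lit 196619) (.g (nat_lit 1136) (.e (nat_lit 65629) (nat_lit 14) (.e (nat_lit 401424) (nat_lit 2) (.e (nat_lit 196668) (nat_lit 14) (.e (nat_lit 73789) (nat_lit 45) .nil)))) .nil)) 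
(.lf (nat_lit 196683) (.g (nat_lit 695) (.e (nat_lit 65629) (nat_lit 14) (.e (nat_lit 401459) (nat_lit 13) (.e (nat_lit 483363) (nat_lit 18) .nil))) .nil))) (.nd (nat_lit 6) 
(.lf (nat_lit 196651) (.g (nat_lit 1202) (.e (nat_lit 65629) (nat_lit 14) (.e (nat_lit 401454) (nat_lit 12) (.e (nat_lit 475218) (nat_lit 44) .nil))) .nil)) 
(.lf (nat_lit 196715) (.g (nat_lit 3257) (.e (nat_lit 65629) (nat_lit 14) (.e (nat_lit 401459) (nat_lit 13) (.e (nat_lit 483378) (nat_lit 23) (.e (nat_lit 335997) (nat_lit 1) (.e (nat_lit 57871) (nat_lit 264) (.e (nat_lit 1189) (nat_lit 88) .nil)))))) (.g (nat_lit 5) .nil .nil))))) (.nd (nat_lit 5) (.nd (nat_lit 6) 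
(.lf (nat_lit 196635) (.g (nat_lit 1309) (.e (nat_lit 65629) (nat_lit 14) (.e (nat_lit 401438) (nat_lit 9) (.e (nat_lit 426542) (nat_lit 29) (.e (nat_lit 352303) (nat_lit 20) .nil)))) .nil)) 
(.lf (nat_lit 196699) (.g (nat_lit 4170) (.e (nat_lit 65629) (nat_lit 14) (.e (nat_lit 401459) (nat_lit 13) (.e (nat_lit 483372) (nat_lit 21) (.e (nat_lit 319500) (nat_lit 10) .nil)))) .nil))) (.nd (nat_lit 6) 
(.lf (nat_lit 196667) (.g (nat_lit 3376) (.e (nat_lit 65629) (nat_lit 14) (.e (nat_lit 401459) (nat_lit 13) (.e (nat_lit 483344) (nat_lit 17) (.e (nat_lit 6513) (nat_lit 346) (.e (nat_lit 57354) (nat_lit 0) (.e (nat_lit 5907) (nat_lit 320) (.e (nat_lit 1200) (nat_lit 88) .nil))))))) (.g (nat_lit 5) .nil .nil))) 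
(.lf (nat_lit 196731) (.g (nat_lit 4334) (.e (nat_lit 65629) (nat_lit 14) (.e (nat_lit 401459) (nat_lit 13) (.e (nat_lit 483394) (nat_lit 24) (.e (nat_lit 344169) (nat_lit 40) (.e (nat_lit 671762) (nat_lit 4) .nil))))) (.g (nat_lit 0) .nil .nil))))))) (.nd (nat_lit 3) (.nd (nat_lit 4) (.nd (nat_lit 5) (.nd (nat_lit 6) 
(.lf (nat_lit 196615) (.g (nat_lit 1928) (.e (nat_lit 65628) (nat_lit 14) (.e (nat_lit 401459) (nat_lit 13) (.e (nat_lit 483411) (nat_lit 27) (.e (nat_lit 401417) (nat_lit 0) .nil)))) .nil)) 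
(.lf (nat_lit 196679) (.g (nat_lit 2361) (.e (nat_lit 65629) (nat_lit 14) (.e (nat_lit 401459) (nat_lit 13) (.e (nat_lit 483350) (nat_lit 17) (.e (nat_lit 6475) (nat_lit 343) .nil)))) .nil))) (.nd (nat_lit 6) 
(.lf (nat_lit 196647) (.g (nat_lit 1252) (.e (nat_lit 65629) (nat_lit 14) (.e (nat_lit 401454) (nat_lit 12) (.e (nat_lit 475214) (nat_lit 42) .nil))) .nil)) 
(.lf (nat_lit 196711) (.g (nat_lit 1108) (.e (nat_lit 65629) (nat_lit 14) (.e (nat_lit 401459) (nat_lit 13) (.e (nat_lit 483375) (nat_lit 22) (.e (nat_lit 327692) (nat_lit 1) .nil)))) .nil)))) (.nd (nat_lit 5) (.nd (nat_lit 6) 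
(.lf (nat_lit 196631) (.g (nat_lit 624) (.e (nat_lit 65629) (nat_lit 14) (.e (nat_lit 401437) (nat_lit 9) (.e (nat_lit 426542) (nat_lit 29) .nil))) .nil)) 
(.lf (nat_lit 196695) (.g (nat_lit 3123) (.e (nat_lit 65629) (nat_lit 14) (.e (nat_lit 401459) (nat_lit 13) (.e (nat_lit 483372) (nat_lit 21) (.e (nat_lit 327424) (nat_lit 1) .nil)))) .nil))) (.nd (nat_lit 6) 
(.lf (nat_lit 196663) (.g (nat_lit 3123) (.e (nat_lit 65629) (nat_lit 14) (.e (nat_lit 401459) (nat_lit 13) (.e (nat_lit 483343) (nat_lit 17) (.e (nat_lit 6714) (nat_lit 360) (.e (nat_lit 163843) (nat_lit 0) (.e (nat_lit 4598) (nat_lit 269) (.e (nat_lit 1200) (nat_lit 88) .nil))))))) (.g (nat_lit 5) .nil .nil))) 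
(.lf (nat_lit 196727) (.g (nat_lit 3643) (.e (nat_lit 65629) (nat_lit 14) (.e (nat_lit 401459) (nat_lit 13) (.e (nat_lit 483393) (nat_lit 23) (.e (nat_lit 335995) (nat_lit 1) (.e (nat_lit 57872) (nat_lit 264) (.e (nat_lit 1200) (nat_lit 88) .nil)))))) (.g (nat_lit 4) .nil .nil)))))) (.nd (nat_lit 4) (.nd (nat_lit 5) (.nd (nat_lit 6) 
(.lf (nat_lit 196623) (.g (nat_lit 2095) (.e (nat_lit 65629) (nat_lit 14) (.e (nat_lit 401425) (nat_lit 2) (.e (nat_lit 196666) (nat_lit 13) (.e (nat_lit 65619) (nat_lit 10) .nil)))) .nil)) 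
(.lf (nat_lit 196687) (.g (nat_lit 4914) (.e (nat_lit 65629) (nat_lit 14) (.e (nat_lit 401459) (nat_lit 13) (.e (nat_lit 483372) (nat_lit 21) (.e (nat_lit 319489) (nat_lit 0) .nil)))) .nil))) (.nd (nat_lit 6) 
(.lf (nat_lit 196655) (.g (nat_lit 972) (.e (nat_lit 65629) (nat_lit 14) (.e (nat_lit 401456) (nat_lit 13) (.e (nat_lit 483396) (nat_lit 24) .nil))) .nil)) 
(.lf (nat_lit 196719) (.g (nat_lit 3095) (.e (nat_lit 65629) (nat_lit 14) (.e (nat_lit 401459) (nat_lit 13) (.e (nat_lit 483387) (nat_lit 23) (.e (nat_lit 335997) (nat_lit 1) (.e (nat_lit 57870) (nat_lit 264) (.e (nat_lit 1189) (nat_lit 88) .nil)))))) (.g (nat_lit 4) .nil .nil))))) (.nd (nat_lit 5) (.nd (nat_lit 6) 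
(.lf (nat_lit 196639) (.g (nat_lit 1307) (.e (nat_lit 65629) (nat_lit 14) (.e (nat_lit 401454) (nat_lit 12) (.e (nat_lit 475154) (nat_lit 20) .nil))) .nil)) 
(.lf (nat_lit 196703) (.g (nat_lit 3801) (.e (nat_lit 65629) (nat_lit 14) (.e (nat_lit 401459) (nat_lit 13) (.e (nat_lit 483372) (nat_lit 21) (.e (nat_lit 319505) (nat_lit 10) .nil)))) .nil))) (.nd (nat_lit 6) 
(.lf (nat_lit 196671) (.g (nat_lit 2919) (.e (nat_lit 65629) (nat_lit 14) (.e (nat_lit 401459) (nat_lit 13) (.e (nat_lit 483344) (nat_lit 17) (.e (nat_lit 6712) (nat_lit 360) (.e (nat_lit 163989) (nat_lit 34) (.e (nat_lit 606226) (nat_lit 4) .nil)))))) (.g (nat_lit 4) .nil .nil))) 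
(.lf (nat_lit 196735) (.g (nat_lit 882) (.e (nat_lit 65629) (nat_lit 14) (.e (nat_lit 401459) (nat_lit 13) (.e (nat_lit 483397) (nat_lit 25) .nil))) .nil)))))))))

noncomputable def tv2602 : DT := (.nd (nat_lit 0) (.nd (nat_lit 1) (.nd (nat_lit 2) (.nd (nat_lit 3) (.nd (nat_lit 4) (.nd (nat_lit 5) (.nd (nat_lit 6) 
(.lf (nat_lit 196736) (.g (nat_lit 2770) (.e (nat_lit 65629) (nat_lit 14) (.e (nat_lit 401459) (nat_lit 13) (.e (nat_lit 483398) (nat_lit 25) (.e (nat_lit 368662) (nat_lit 18) (.e (nat_lit 5905) (nat_lit 320) (.e (nat_lit 1189) (nat_lit 88) .nil)))))) (.g (nat_lit 4) .nil .nil))) 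
(.lf (nat_lit 196800) (.g (nat_lit 1794) (.e (nat_lit 65630) (nat_lit 14) (.e (nat_lit 401425) (nat_lit 2) (.e (nat_lit 196666) (nat_lit 13) (.e (nat_lit 65617) (nat_lit 10) (.e (nat_lit 344089) (nat_lit 18) .nil))))) .nil))) (.nd (nat_lit 6) 
(.lf (nat_lit 196768) (.g (nat_lit 1614) (.e (nat_lit 65630) (nat_lit 14) (.e (nat_lit 401425) (nat_lit 2) (.e (nat_lit 196624) (nat_lit 9) (.e (nat_lit 1602) (nat_lit 112) .nil)))) .nil)) 
(.lf (nat_lit 196832) (.g (nat_lit 2979) (.e (nat_lit 65630) (nat_lit 14) (.e (nat_lit 401425) (nat_lit 2) (.e (nat_lit 196674) (nat_lit 15) (.e (nat_lit 81946) (nat_lit 20) (.e (nat_lit 1841) (nat_lit 123) (.e (nat_lit 548887) (nat_lit 9) .nil)))))) (.g (nat_lit 4) .nil .nil))))) (.nd (nat_lit 5) (.nd (nat_lit 6) 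
(.lf (nat_lit 196752) (.g (nat_lit 3990) (.e (nat_lit 65629) (nat_lit 14) (.e (nat_lit 401459) (nat_lit 13) (.e (nat_lit 483411) (nat_lit 27) (.e (nat_lit 401414) (nat_lit 0) (.e (nat_lit 2442) (nat_lit 157) (.e (nat_lit 4598) (nat_lit 269) (.e (nat_lit 1200) (nat_lit 88) .nil))))))) (.g (nat_lit 4) .nil .nil))) 
(.lf (nat_lit 196816) (.g (nat_lit 1875) (.e (nat_lit 65630) (nat_lit 14) (.e (nat_lit 401425) (nat_lit 2) (.e (nat_lit 196666) (nat_lit 13) (.e (nat_lit 65619) (nat_lit 10) .nil)))) .nil))) (.nd (nat_lit 6) 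
(.lf (nat_lit 196784) (.g (nat_lit 2148) (.e (nat_lit 65630) (nat_lit 14) (.e (nat_lit 401425) (nat_lit 2) (.e (nat_lit 196666) (nat_lit 13) (.e (nat_lit 65583) (nat_lit 7) (.e (nat_lit 319518) (nat_lit 12) .nil))))) .nil)) 
(.lf (nat_lit 196848) (.g (nat_lit 2945) (.e (nat_lit 65630) (nat_lit 14) (.e (nat_lit 401428) (nat_lit 3) (.e (nat_lit 204849) (nat_lit 25) (.e (nat_lit 327699) (nat_lit 8) (.e (nat_lit 303116) (nat_lit 2) (.e (nat_lit 196663) (nat_lit 13) .nil)))))) (.g (nat_lit 5) .nil .nil)))))) (.nd (nat_lit 4) (.nd (nat_lit 5) (.nd (nat_lit 6) 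
(.lf (nat_lit 196744) (.g (nat_lit 1194) (.e (nat_lit 65629) (nat_lit 14) (.e (nat_lit 401459) (nat_lit 13) (.e (nat_lit 483403) (nat_lit 26) (.e (nat_lit 385049) (nat_lit 21) .nil)))) .nil)) 
(.lf (nat_lit 196808) (.g (nat_lit 2247) (.e (nat_lit 65630) (nat_lit 14) (.e (nat_lit 401425) (nat_lit 2) (.e (nat_lit 196666) (nat_lit 13) (.e (nat_lit 65617) (nat_lit 10) (.e (nat_lit 344096) (nat_lit 18) (.e (nat_lit 3950) (nat_lit 239) (.e (nat_lit 1187) (nat_lit 88) .nil))))))) (.g (nat_lit 4) .nil .nil)))) (.nd (nat_lit 6) 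
(.lf (nat_lit 196776) (.g (nat_lit 688) (.e (nat_lit 65630) (nat_lit 14) (.e (nat_lit 401425) (nat_lit 2) (.e (nat_lit 196660) (nat_lit 12) .nil))) .nil)) 
(.lf (nat_lit 196840) (.g (nat_lit 2579) (.e (nat_lit 65630) (nat_lit 14) (.e (nat_lit 401427) (nat_lit 3) (.e (nat_lit 204861) (nat_lit 26) (.e (nat_lit 336194) (nat_lit 12) (.e (nat_lit 385072) (nat_lit 31) (.e (nat_lit 573480) (nat_lit 13) .nil)))))) (.g (nat_lit 4) .nil .nil))))) (.nd (nat_lit 5) (.nd (nat_lit 6) 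
(.lf (nat_lit 196760) (.g (nat_lit 3533) (.e (nat_lit 65629) (nat_lit 14) (.e (nat_lit 401459) (nat_lit 13) (.e (nat_lit 483411) (nat_lit 27) (.e (nat_lit 401414) (nat_lit 0) (.e (nat_lit 3348) (nat_lit 206) (.e (nat_lit 606225) (nat_lit 4) .nil)))))) (.g (nat_lit 4) .nil .nil))) 
(.lf (nat_lit 196824) (.g (nat_lit 700) (.e (nat_lit 65630) (nat_lit 14) (.e (nat_lit 401425) (nat_lit 2) (.e (nat_lit 196667) (nat_lit 14) (.e (nat_lit 81664) (nat_lit 35) .nil)))) .nil))) (.nd (nat_lit 6) 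
(.lf (nat_lit 196792) (.g (nat_lit 4126) (.e (nat_lit 65630) (nat_lit 14) (.e (nat_lit 401425) (nat_lit 2) (.e (nat_lit 196666) (nat_lit 13) (.e (nat_lit 65610) (nat_lit 10) (.e (nat_lit 344097) (nat_lit 18) (.e (nat_lit 3946) (nat_lit 239) (.e (nat_lit 1187) (nat_lit 88) .nil))))))) (.g (nat_lit 5) .nil .nil))) 
(.lf (nat_lit 196856) (.g (nat_lit 1624) (.e (nat_lit 65630) (nat_lit 14) (.e (nat_lit 401428) (nat_lit 3) (.e (nat_lit 204861) (nat_lit 26) (.e (nat_lit 336086) (nat_lit 9) (.e (nat_lit 336306) (nat_lit 15) .nil))))) .nil)))))) (.nd (nat_lit 3) (.nd (nat_lit 4) (.nd (nat_lit 5) (.nd (nat_lit 6) 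
(.lf (nat_lit 196740) (.g (nat_lit 1617) (.e (nat_lit 65629) (nat_lit 14) (.e (nat_lit 401459) (nat_lit 13) (.e (nat_lit 483403) (nat_lit 26) (.e (nat_lit 385043) (nat_lit 21) .nil)))) .nil)) 
(.lf (nat_lit 196804) (.g (nat_lit 2405) (.e (nat_lit 65630) (nat_lit 14) (.e (nat_lit 401425) (nat_lit 2) (.e (nat_lit 196666) (nat_lit 13) (.e (nat_lit 65617) (nat_lit 10) (.e (nat_lit 344091) (nat_lit 18) (.e (nat_lit 3986) (nat_lit 239) (.e (nat_lit 1187) (nat_lit 88) .nil))))))) (.g (nat_lit 4) .nil .nil)))) (.nd (nat_lit 6) 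
(.lf (nat_lit 196772) (.g (nat_lit 2786) (.e (nat_lit 65630) (nat_lit 14) (.e (nat_lit 401425) (nat_lit 2) (.e (nat_lit 196628) (nat_lit 9) (.e (nat_lit 1512) (nat_lit 108) (.e (nat_lit 335874) (nat_lit 0) (.e (nat_lit 6713) (nat_lit 360) (.e (nat_lit 163950) (nat_lit 21) (.e (nat_lit 507648) (nat_lit 18) .nil)))))))) (.g (nat_lit 6) .nil .nil))) 
(.lf (nat_lit 196836) (.g (nat_lit 3221) (.e (nat_lit 65630) (nat_lit 14) (.e (nat_lit 401425) (nat_lit 2) (.e (nat_lit 196681) (nat_lit 17) (.e (nat_lit 131120) (nat_lit 12) (.e (nat_lit 385074) (nat_lit 31) (.e (nat_lit 573483) (nat_lit 13) .nil)))))) (.g (nat_lit 6) .nil .nil))))) (.nd (nat_lit 5) (.nd (nat_lit 6) 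
(.lf (nat_lit 196756) (.g (nat_lit 3460) (.e (nat_lit 65629) (nat_lit 14) (.e (nat_lit 401459) (nat_lit 13) (.e (nat_lit 483411) (nat_lit 27) (.e (nat_lit 401414) (nat_lit 0) (.e (nat_lit 3347) (nat_lit 206) (.e (nat_lit 606224) (nat_lit 4) .nil)))))) (.g (nat_lit 4) .nil .nil))) 
(.lf (nat_lit 196820) (.g (nat_lit 3833) (.e (nat_lit 65630) (nat_lit 14) (.e (nat_lit 401425) (nat_lit 2) (.e (nat_lit 196666) (nat_lit 13) (.e (nat_lit 65628) (nat_lit 14) (.e (nat_lit 401425) (nat_lit 2) (.e (nat_lit 196663) (nat_lit 13) .nil)))))) (.g (nat_lit 0) .nil .nil)))) (.nd (nat_lit 6) 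
(.lf (nat_lit 196788) (.g (nat_lit 2470) (.e (nat_lit 65630) (nat_lit 14) (.e (nat_lit 401425) (nat_lit 2) (.e (nat_lit 196666) (nat_lit 13) (.e (nat_lit 65610) (nat_lit 10) (.e (nat_lit 344090) (nat_lit 18) .nil))))) .nil)) 
(.lf (nat_lit 196852) (.g (nat_lit 3159) (.e (nat_lit 65630) (nat_lit 14) (.e (nat_lit 401428) (nat_lit 3) (.e (nat_lit 204855) (nat_lit 26) (.e (nat_lit 336226) (nat_lit 14) (.e (nat_lit 401424) (nat_lit 2) (.e (nat_lit 196663) (nat_lit 13) .nil)))))) (.g (nat_lit 5) .nil .nil)))))) (.nd (nat_lit 4) (.nd (nat_lit 5) (.nd (nat_lit 6) 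
(.lf (nat_lit 196748) (.g (nat_lit 2471) (.e (nat_lit 65629) (nat_lit 14) (.e (nat_lit 401459) (nat_lit 13) (.e (nat_lit 483403) (nat_lit 26) (.e (nat_lit 385097) (nat_lit 49) .nil)))) .nil)) 
(.lf (nat_lit 196812) (.g (nat_lit 1774) (.e (nat_lit 65630) (nat_lit 14) (.e (nat_lit 401425) (nat_lit 2) (.e (nat_lit 196666) (nat_lit 13) (.e (nat_lit 65617) (nat_lit 10) (.e (nat_lit 344125) (nat_lit 25) .nil))))) .nil))) (.nd (nat_lit 6) 
(.lf (nat_lit 196780) (.g (nat_lit 1962) (.e (nat_lit 65630) (nat_lit 14) (.e (nat_lit 401425) (nat_lit 2) (.e (nat_lit 196666) (nat_lit 13) (.e (nat_lit 65538) (nat_lit 0) (.e (nat_lit 6696) (nat_lit 357) .nil))))) .nil)) 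
(.lf (nat_lit 196844) (.g (nat_lit 3176) (.e (nat_lit 65630) (nat_lit 14) (.e (nat_lit 401427) (nat_lit 3) (.e (nat_lit 204861) (nat_lit 26) (.e (nat_lit 336230) (nat_lit 14) (.e (nat_lit 401423) (nat_lit 2) (.e (nat_lit 196663) (nat_lit 13) .nil)))))) (.g (nat_lit 5) .nil .nil))))) (.nd (nat_lit 5) (.nd (nat_lit 6) 
(.lf (nat_lit 196764) (.g (nat_lit 1436) (.e (nat_lit 65630) (nat_lit 14) (.e (nat_lit 401423) (nat_lit 2) (.e (nat_lit 196670) (nat_lit 14) (.e (nat_lit 73792) (nat_lit 45) .nil)))) .nil)) 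
(.lf (nat_lit 196828) (.g (nat_lit 730) (.e (nat_lit 65630) (nat_lit 14) (.e (nat_lit 401425) (nat_lit 2) (.e (nat_lit 196671) (nat_lit 15) .nil))) .nil))) (.nd (nat_lit 6) 
(.lf (nat_lit 196796) (.g (nat_lit 2749) (.e (nat_lit 65630) (nat_lit 14) (.e (nat_lit 401425) (nat_lit 2) (.e (nat_lit 196666) (nat_lit 13) (.e (nat_lit 65610) (nat_lit 10) (.e (nat_lit 344125) (nat_lit 25) .nil))))) .nil)) 
(.lf (nat_lit 196860) (.g (nat_lit 3203) (.e (nat_lit 65630) (nat_lit 14) (.e (nat_lit 401428) (nat_lit 3) (.e (nat_lit 204861) (nat_lit 26) (.e (nat_lit 336203) (nat_lit 12) (.e (nat_lit 385073) (nat_lit 31) (.e (nat_lit 573480) (nat_lit 13) .nil)))))) (.g (nat_lit 6) .nil .nil)))))))) (.nd (nat_lit 2) (.nd (nat_lit 3) (.nd (nat_lit 4) (.nd (nat_lit 5) (.nd (nat_lit 6) 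
(.lf (nat_lit 196738) (.g (nat_lit 4025) (.e (nat_lit 65629) (nat_lit 14) (.e (nat_lit 401459) (nat_lit 13) (.e (nat_lit 483399) (nat_lit 25) (.e (nat_lit 368695) (nat_lit 40) (.e (nat_lit 671762) (nat_lit 4) .nil))))) (.g (nat_lit 0) .nil .nil))) 
(.lf (nat_lit 196802) (.g (nat_lit 3084) (.e (nat_lit 65630) (nat_lit 14) (.e (nat_lit 401425) (nat_lit 2) (.e (nat_lit 196666) (nat_lit 13) (.e (nat_lit 65617) (nat_lit 10) (.e (nat_lit 344091) (nat_lit 18) (.e (nat_lit 3985) (nat_lit 239) (.e (nat_lit 1187) (nat_lit 88) .nil))))))) (.g (nat_lit 5) .nil .nil)))) (.nd (nat_lit 6) 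
(.lf (nat_lit 196770) (.g (nat_lit 2823) (.e (nat_lit 65630) (nat_lit 14) (.e (nat_lit 401425) (nat_lit 2) (.e (nat_lit 196628) (nat_lit 9) (.e (nat_lit 1512) (nat_lit 108) (.e (nat_lit 335872) (nat_lit 0) (.e (nat_lit 6713) (nat_lit 360) (.e (nat_lit 163950) (nat_lit 21) (.e (nat_lit 507648) (nat_lit 18) .nil)))))))) (.g (nat_lit 6) .nil .nil))) 
(.lf (nat_lit 196834) (.g (nat_lit 1187) (.e (nat_lit 65630) (nat_lit 14) (.e (nat_lit 401425) (nat_lit 2) (.e (nat_lit 196674) (nat_lit 15) (.e (nat_lit 81959) (nat_lit 24) .nil)))) .nil)))) (.nd (nat_lit 5) (.nd (nat_lit 6) 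
(.lf (nat_lit 196754) (.g (nat_lit 3430) (.e (nat_lit 65629) (nat_lit 14) (.e (nat_lit 401459) (nat_lit 13) (.e (nat_lit 483411) (nat_lit 27) (.e (nat_lit 401414) (nat_lit 0) (.e (nat_lit 3346) (nat_lit 206) (.e (nat_lit 606224) (nat_lit 4) .nil)))))) (.g (nat_lit 4) .nil .nil))) 
(.lf (nat_lit 196818) (.g (nat_lit 2852) (.e (nat_lit 65630) (nat_lit 14) (.e (nat_lit 401425) (nat_lit 2) (.e (nat_lit 196666) (nat_lit 13) (.e (nat_lit 65624) (nat_lit 12) (.e (nat_lit 385047) (nat_lit 21) .nil))))) .nil))) (.nd (nat_lit 6) 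
(.lf (nat_lit 196786) (.g (nat_lit 1822) (.e (nat_lit 65630) (nat_lit 14) (.e (nat_lit 401425) (nat_lit 2) (.e (nat_lit 196666) (nat_lit 13) (.e (nat_lit 65587) (nat_lit 8) .nil)))) .nil)) 
(.lf (nat_lit 196850) (.g (nat_lit 1361) (.e (nat_lit 65630) (nat_lit 14) (.e (nat_lit 401428) (nat_lit 3) (.e (nat_lit 204854) (nat_lit 26) (.e (nat_lit 336115) (nat_lit 9) (.e (nat_lit 343808) (nat_lit 15) .nil))))) .nil))))) (.nd (nat_lit 4) (.nd (nat_lit 5) (.nd (nat_lit 6) 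
(.lf (nat_lit 196746) (.g (nat_lit 2105) (.e (nat_lit 65629) (nat_lit 14) (.e (nat_lit 401459) (nat_lit 13) (.e (nat_lit 483403) (nat_lit 26) (.e (nat_lit 385095) (nat_lit 49) .nil)))) .nil)) 
(.lf (nat_lit 196810) (.g (nat_lit 1942) (.e (nat_lit 65630) (nat_lit 14) (.e (nat_lit 401425) (nat_lit 2) (.e (nat_lit 196666) (nat_lit 13) (.e (nat_lit 65617) (nat_lit 10) (.e (nat_lit 344096) (nat_lit 18) (.e (nat_lit 3982) (nat_lit 239) (.e (nat_lit 1196) (nat_lit 88) .nil))))))) (.g (nat_lit 4) .nil .nil)))) (.nd (nat_lit 6) 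
(.lf (nat_lit 196778) (.g (nat_lit 551) (.e (nat_lit 65630) (nat_lit 14) (.e (nat_lit 401425) (nat_lit 2) (.e (nat_lit 196665) (nat_lit 13) .nil))) .nil)) 
(.lf (nat_lit 196842) (.g (nat_lit 2880) (.e (nat_lit 65630) (nat_lit 14) (.e (nat_lit 401427) (nat_lit 3) (.e (nat_lit 204861) (nat_lit 26) (.e (nat_lit 336204) (nat_lit 12) (.e (nat_lit 385074) (nat_lit 31) (.e (nat_lit 573480) (nat_lit 13) .nil)))))) (.g (nat_lit 4) .nil .nil))))) (.nd (nat_lit 5) (.nd (nat_lit 6) 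
(.lf (nat_lit 196762) (.g (nat_lit 3510) (.e (nat_lit 65629) (nat_lit 14) (.e (nat_lit 401459) (nat_lit 13) (.e (nat_lit 483411) (nat_lit 27) (.e (nat_lit 401414) (nat_lit 0) (.e (nat_lit 3349) (nat_lit 206) (.e (nat_lit 606225) (nat_lit 4) .nil)))))) (.g (nat_lit 4) .nil .nil))) 
(.lf (nat_lit 196826) (.g (nat_lit 2998) (.e (nat_lit 65630) (nat_lit 14) (.e (nat_lit 401425) (nat_lit 2) (.e (nat_lit 196670) (nat_lit 14) (.e (nat_lit 73792) (nat_lit 45) (.e (nat_lit 1141) (nat_lit 84) (.e (nat_lit 32786) (nat_lit 9) .nil)))))) (.g (nat_lit 5) .nil .nil)))) (.nd (nat_lit 6) 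
(.lf (nat_lit 196794) (.g (nat_lit 3922) (.e (nat_lit 65630) (nat_lit 14) (.e (nat_lit 401425) (nat_lit 2) (.e (nat_lit 196666) (nat_lit 13) (.e (nat_lit 65610) (nat_lit 10) (.e (nat_lit 344097) (nat_lit 18) (.e (nat_lit 3984) (nat_lit 239) (.e (nat_lit 1196) (nat_lit 88) .nil))))))) (.g (nat_lit 5) .nil .nil))) 
(.lf (nat_lit 196858) (.g (nat_lit 2983) (.e (nat_lit 65630) (nat_lit 14) (.e (nat_lit 401428) (nat_lit 3) (.e (nat_lit 204861) (nat_lit 26) (.e (nat_lit 336194) (nat_lit 12) (.e (nat_lit 385072) (nat_lit 31) (.e (nat_lit 573480) (nat_lit 13) .nil)))))) (.g (nat_lit 5) .nil .nil))))))) (.nd (nat_lit 3) (.nd (nat_lit 4) (.nd (nat_lit 5) (.nd (nat_lit 6) 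
(.lf (nat_lit 196742) (.g (nat_lit 2707) (.e (nat_lit 65629) (nat_lit 14) (.e (nat_lit 401459) (nat_lit 13) (.e (nat_lit 483403) (nat_lit 26) (.e (nat_lit 385045) (nat_lit 21) (.e (nat_lit 7450) (nat_lit 396) .nil))))) .nil)) 
(.lf (nat_lit 196806) (.g (nat_lit 2711) (.e (nat_lit 65630) (nat_lit 14) (.e (nat_lit 401425) (nat_lit 2) (.e (nat_lit 196666) (nat_lit 13) (.e (nat_lit 65617) (nat_lit 10) (.e (nat_lit 344095) (nat_lit 18) (.e (nat_lit 3959) (nat_lit 239) (.e (nat_lit 1197) (nat_lit 88) .nil))))))) (.g (nat_lit 4) .nil .nil)))) (.nd (nat_lit 6) 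
(.lf (nat_lit 196774) (.g (nat_lit 1357) (.e (nat_lit 65630) (nat_lit 14) (.e (nat_lit 401425) (nat_lit 2) (.e (nat_lit 196630) (nat_lit 9) (.e (nat_lit 1573) (nat_lit 110) .nil)))) .nil)) 
(.lf (nat_lit 196838) (.g (nat_lit 991) (.e (nat_lit 65630) (nat_lit 14) (.e (nat_lit 401425) (nat_lit 2) (.e (nat_lit 196681) (nat_lit 17) (.e (nat_lit 131129) (nat_lit 14) .nil)))) .nil)))) (.nd (nat_lit 5) (.nd (nat_lit 6) 
(.lf (nat_lit 196758) (.g (nat_lit 3465) (.e (nat_lit 65629) (nat_lit 14) (.e (nat_lit 401459) (nat_lit 13) (.e (nat_lit 483411) (nat_lit 27) (.e (nat_lit 401414) (nat_lit 0) (.e (nat_lit 3347) (nat_lit 206) (.e (nat_lit 606226) (nat_lit 4) .nil)))))) (.g (nat_lit 4) .nil .nil))) 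
(.lf (nat_lit 196822) (.g (nat_lit 3278) (.e (nat_lit 65630) (nat_lit 14) (.e (nat_lit 401425) (nat_lit 2) (.e (nat_lit 196666) (nat_lit 13) (.e (nat_lit 65630) (nat_lit 14) (.e (nat_lit 401425) (nat_lit 2) (.e (nat_lit 196662) (nat_lit 13) .nil)))))) (.g (nat_lit 4) .nil .nil)))) (.nd (nat_lit 6) 
(.lf (nat_lit 196790) (.g (nat_lit 2952) (.e (nat_lit 65630) (nat_lit 14) (.e (nat_lit 401425) (nat_lit 2) (.e (nat_lit 196666) (nat_lit 13) (.e (nat_lit 65610) (nat_lit 10) (.e (nat_lit 344090) (nat_lit 18) (.e (nat_lit 3985) (nat_lit 239) (.e (nat_lit 1197) (nat_lit 88) .nil))))))) (.g (nat_lit 4) .nil .nil))) 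
(.lf (nat_lit 196854) (.g (nat_lit 1918) (.e (nat_lit 65630) (nat_lit 14) (.e (nat_lit 401428) (nat_lit 3) (.e (nat_lit 204859) (nat_lit 26) (.e (nat_lit 336206) (nat_lit 12) (.e (nat_lit 385074) (nat_lit 31) (.e (nat_lit 573483) (nat_lit 13) .nil)))))) (.g (nat_lit 4) .nil .nil)))))) (.nd (nat_lit 4) (.nd (nat_lit 5) (.nd (nat_lit 6) 
(.lf (nat_lit 196750) (.g (nat_lit 2088) (.e (nat_lit 65629) (nat_lit 14) (.e (nat_lit 401459) (nat_lit 13) (.e (nat_lit 483410) (nat_lit 27) (.e (nat_lit 401414) (nat_lit 0) (.e (nat_lit 2458) (nat_lit 157) .nil))))) .nil)) 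
(.lf (nat_lit 196814) (.g (nat_lit 3054) (.e (nat_lit 65630) (nat_lit 14) (.e (nat_lit 401425) (nat_lit 2) (.e (nat_lit 196666) (nat_lit 13) (.e (nat_lit 65617) (nat_lit 10) (.e (nat_lit 344126) (nat_lit 25) (.e (nat_lit 548888) (nat_lit 9) .nil)))))) (.g (nat_lit 5) .nil .nil)))) (.nd (nat_lit 6) 
(.lf (nat_lit 196782) (.g (nat_lit 1395) (.e (nat_lit 65630) (nat_lit 14) (.e (nat_lit 401425) (nat_lit 2) (.e (nat_lit 196666) (nat_lit 13) (.e (nat_lit 65553) (nat_lit 0) .nil)))) .nil)) 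
(.lf (nat_lit 196846) (.g (nat_lit 2159) (.e (nat_lit 65630) (nat_lit 14) (.e (nat_lit 401427) (nat_lit 3) (.e (nat_lit 204868) (nat_lit 29) (.e (nat_lit 360471) (nat_lit 7) (.e (nat_lit 548889) (nat_lit 9) .nil))))) (.g (nat_lit 4) .nil .nil))))) (.nd (nat_lit 5) (.nd (nat_lit 6) 
(.lf (nat_lit 196766) (.g (nat_lit 1373) (.e (nat_lit 65630) (nat_lit 14) (.e (nat_lit 401424) (nat_lit 2) (.e (nat_lit 196670) (nat_lit 14) (.e (nat_lit 73791) (nat_lit 45) .nil)))) .nil)) 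
(.lf (nat_lit 196830) (.g (nat_lit 1526) (.e (nat_lit 65630) (nat_lit 14) (.e (nat_lit 401425) (nat_lit 2) (.e (nat_lit 196672) (nat_lit 15) (.e (nat_lit 81957) (nat_lit 24) .nil)))) .nil))) (.nd (nat_lit 6) 
(.lf (nat_lit 196798) (.g (nat_lit 3585) (.e (nat_lit 65630) (nat_lit 14) (.e (nat_lit 401425) (nat_lit 2) (.e (nat_lit 196666) (nat_lit 13) (.e (nat_lit 65610) (nat_lit 10) (.e (nat_lit 344126) (nat_lit 25) (.e (nat_lit 556800) (nat_lit 9) .nil)))))) (.g (nat_lit 5) .nil .nil))) 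
(.lf (nat_lit 196862) (.g (nat_lit 3544) (.e (nat_lit 65630) (nat_lit 14) (.e (nat_lit 401428) (nat_lit 3) (.e (nat_lit 204861) (nat_lit 26) (.e (nat_lit 336229) (nat_lit 14) (.e (nat_lit 401423) (nat_lit 2) (.e (nat_lit 196663) (nat_lit 13) .nil)))))) (.g (nat_lit 5) .nil .nil))))))))) (.nd (nat_lit 1) (.nd (nat_lit 2) (.nd (nat_lit 3) (.nd (nat_lit 4) (.nd (nat_lit 5) (.nd (nat_lit 6) 
(.lf (nat_lit 196737) (.g (nat_lit 3908) (.e (nat_lit 65629) (nat_lit 14) (.e (nat_lit 401459) (nat_lit 13) (.e (nat_lit 483398) (nat_lit 25) (.e (nat_lit 368695) (nat_lit 40) (.e (nat_lit 671762) (nat_lit 4) .nil))))) (.g (nat_lit 0) .nil .nil))) 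
(.lf (nat_lit 196801) (.g (nat_lit 3336) (.e (nat_lit 65630) (nat_lit 14) (.e (nat_lit 401425) (nat_lit 2) (.e (nat_lit 196666) (nat_lit 13) (.e (nat_lit 65617) (nat_lit 10) (.e (nat_lit 344091) (nat_lit 18) (.e (nat_lit 3959) (nat_lit 239) (.e (nat_lit 1197) (nat_lit 88) .nil))))))) (.g (nat_lit 5) .nil .nil)))) (.nd (nat_lit 6) 
(.lf (nat_lit 196769) (.g (nat_lit 192) (.e (nat_lit 65630) (nat_lit 14) (.e (nat_lit 401425) (nat_lit 2) (.e (nat_lit 196628) (nat_lit 9) .nil))) .nil)) 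
(.lf (nat_lit 196833) (.g (nat_lit 3336) (.e (nat_lit 65630) (nat_lit 14) (.e (nat_lit 401425) (nat_lit 2) (.e (nat_lit 196674) (nat_lit 15) (.e (nat_lit 81946) (nat_lit 20) (.e (nat_lit 1842) (nat_lit 123) (.e (nat_lit 548887) (nat_lit 9) .nil)))))) (.g (nat_lit 5) .nil .nil))))) (.nd (nat_lit 5) (.nd (nat_lit 6) 
(.lf (nat_lit 196753) (.g (nat_lit 3338) (.e (nat_lit 65629) (nat_lit 14) (.e (nat_lit 401459) (nat_lit 13) (.e (nat_lit 483411) (nat_lit 27) (.e (nat_lit 401414) (nat_lit 0) (.e (nat_lit 3343) (nat_lit 206) (.e (nat_lit 606226) (nat_lit 4) .nil)))))) (.g (nat_lit 4) .nil .nil))) 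
(.lf (nat_lit 196817) (.g (nat_lit 2655) (.e (nat_lit 65630) (nat_lit 14) (.e (nat_lit 401425) (nat_lit 2) (.e (nat_lit 196666) (nat_lit 13) (.e (nat_lit 65624) (nat_lit 12) (.e (nat_lit 385046) (nat_lit 21) .nil))))) .nil))) (.nd (nat_lit 6) 
(.lf (nat_lit 196785) (.g (nat_lit 1679) (.e (nat_lit 65630) (nat_lit 14) (.e (nat_lit 401425) (nat_lit 2) (.e (nat_lit 196666) (nat_lit 13) (.e (nat_lit 65586) (nat_lit 7) (.e (nat_lit 319517) (nat_lit 12) .nil))))) .nil)) 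
(.lf (nat_lit 196849) (.g (nat_lit 3927) (.e (nat_lit 65630) (nat_lit 14) (.e (nat_lit 401428) (nat_lit 3) (.e (nat_lit 204849) (nat_lit 25) (.e (nat_lit 327699) (nat_lit 8) (.e (nat_lit 303117) (nat_lit 2) (.e (nat_lit 196663) (nat_lit 13) .nil)))))) (.g (nat_lit 5) .nil .nil)))))) (.nd (nat_lit 4) (.nd (nat_lit 5) (.nd (nat_lit 6) 
(.lf (nat_lit 196745) (.g (nat_lit 2498) (.e (nat_lit 65629) (nat_lit 14) (.e (nat_lit 401459) (nat_lit 13) (.e (nat_lit 483403) (nat_lit 26) (.e (nat_lit 385051) (nat_lit 21) .nil)))) .nil)) 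
(.lf (nat_lit 196809) (.g (nat_lit 1990) (.e (nat_lit 65630) (nat_lit 14) (.e (nat_lit 401425) (nat_lit 2) (.e (nat_lit 196666) (nat_lit 13) (.e (nat_lit 65617) (nat_lit 10) (.e (nat_lit 344096) (nat_lit 18) (.e (nat_lit 3959) (nat_lit 239) (.e (nat_lit 1196) (nat_lit 88) .nil))))))) (.g (nat_lit 4) .nil .nil)))) (.nd (nat_lit 6) 
(.lf (nat_lit 196777) (.g (nat_lit 1135) (.e (nat_lit 65630) (nat_lit 14) (.e (nat_lit 401425) (nat_lit 2) (.e (nat_lit 196661) (nat_lit 12) (.e (nat_lit 57520) (nat_lit 44) .nil)))) .nil)) 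
(.lf (nat_lit 196841) (.g (nat_lit 2849) (.e (nat_lit 65630) (nat_lit 14) (.e (nat_lit 401427) (nat_lit 3) (.e (nat_lit 204861) (nat_lit 26) (.e (nat_lit 336194) (nat_lit 12) (.e (nat_lit 385073) (nat_lit 31) (.e (nat_lit 573480) (nat_lit 13) .nil)))))) (.g (nat_lit 4) .nil .nil))))) (.nd (nat_lit 5) (.nd (nat_lit 6) 
(.lf (nat_lit 196761) (.g (nat_lit 3599) (.e (nat_lit 65629) (nat_lit 14) (.e (nat_lit 401459) (nat_lit 13) (.e (nat_lit 483411) (nat_lit 27) (.e (nat_lit 401414) (nat_lit 0) (.e (nat_lit 3349) (nat_lit 206) (.e (nat_lit 606224) (nat_lit 4) .nil)))))) (.g (nat_lit 4) .nil .nil))) 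
(.lf (nat_lit 196825) (.g (nat_lit 231) (.e (nat_lit 65630) (nat_lit 14) (.e (nat_lit 401425) (nat_lit 2) (.e (nat_lit 196670) (nat_lit 14) .nil))) .nil))) (.nd (nat_lit 6) 
(.lf (nat_lit 196793) (.g (nat_lit 3786) (.e (nat_lit 65630) (nat_lit 14) (.e (nat_lit 401425) (nat_lit 2) (.e (nat_lit 196666) (nat_lit 13) (.e (nat_lit 65610) (nat_lit 10) (.e (nat_lit 344097) (nat_lit 18) (.e (nat_lit 3946) (nat_lit 239) (.e (nat_lit 1197) (nat_lit 88) .nil))))))) (.g (nat_lit 4) .nil .nil))) 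
(.lf (nat_lit 196857) (.g (nat_lit 2156) (.e (nat_lit 65630) (nat_lit 14) (.e (nat_lit 401428) (nat_lit 3) (.e (nat_lit 204861) (nat_lit 26) (.e (nat_lit 336194) (nat_lit 12) (.e (nat_lit 385049) (nat_lit 21) (.e (nat_lit 4194) (nat_lit 251) (.e (nat_lit 1196) (nat_lit 88) .nil))))))) (.g (nat_lit 4) .nil .nil))))))) (.nd (nat_lit 3) (.nd (nat_lit 4) (.nd (nat_lit 5) (.nd (nat_lit 6) 
(.lf (nat_lit 196741) (.g (nat_lit 2352) (.e (nat_lit 65629) (nat_lit 14) (.e (nat_lit 401459) (nat_lit 13) (.e (nat_lit 483403) (nat_lit 26) (.e (nat_lit 385044) (nat_lit 21) .nil)))) .nil)) 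
(.lf (nat_lit 196805) (.g (nat_lit 2016) (.e (nat_lit 65630) (nat_lit 14) (.e (nat_lit 401425) (nat_lit 2) (.e (nat_lit 196666) (nat_lit 13) (.e (nat_lit 65617) (nat_lit 10) (.e (nat_lit 344091) (nat_lit 18) (.e (nat_lit 3986) (nat_lit 239) (.e (nat_lit 1196) (nat_lit 88) .nil))))))) (.g (nat_lit 4) .nil .nil)))) (.nd (nat_lit 6) 
(.lf (nat_lit 196773) (.g (nat_lit 540) (.e (nat_lit 65630) (nat_lit 14) (.e (nat_lit 401425) (nat_lit 2) (.e (nat_lit 196630) (nat_lit 9) .nil))) .nil)) 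
(.lf (nat_lit 196837) (.g (nat_lit 3204) (.e (nat_lit 65630) (nat_lit 14) (.e (nat_lit 401425) (nat_lit 2) (.e (nat_lit 196681) (nat_lit 17) (.e (nat_lit 131123) (nat_lit 12) (.e (nat_lit 385074) (nat_lit 31) (.e (nat_lit 573483) (nat_lit 13) .nil)))))) (.g (nat_lit 5) .nil .nil))))) (.nd (nat_lit 5) (.nd (nat_lit 6) 
(.lf (nat_lit 196757) (.g (nat_lit 3526) (.e (nat_lit 65629) (nat_lit 14) (.e (nat_lit 401459) (nat_lit 13) (.e (nat_lit 483411) (nat_lit 27) (.e (nat_lit 401414) (nat_lit 0) (.e (nat_lit 3347) (nat_lit 206) (.e (nat_lit 606225) (nat_lit 4) .nil)))))) (.g (nat_lit 4) .nil .nil))) 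
(.lf (nat_lit 196821) (.g (nat_lit 3059) (.e (nat_lit 65630) (nat_lit 14) (.e (nat_lit 401425) (nat_lit 2) (.e (nat_lit 196666) (nat_lit 13) (.e (nat_lit 65630) (nat_lit 14) (.e (nat_lit 401423) (nat_lit 2) (.e (nat_lit 196663) (nat_lit 13) .nil)))))) (.g (nat_lit 4) .nil .nil)))) (.nd (nat_lit 6) 
(.lf (nat_lit 196789) (.g (nat_lit 3121) (.e (nat_lit 65630) (nat_lit 14) (.e (nat_lit 401425) (nat_lit 2) (.e (nat_lit 196666) (nat_lit 13) (.e (nat_lit 65610) (nat_lit 10) (.e (nat_lit 344090) (nat_lit 18) (.e (nat_lit 3959) (nat_lit 239) (.e (nat_lit 1197) (nat_lit 88) .nil))))))) (.g (nat_lit 4) .nil .nil))) 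
(.lf (nat_lit 196853) (.g (nat_lit 2572) (.e (nat_lit 65630) (nat_lit 14) (.e (nat_lit 401428) (nat_lit 3) (.e (nat_lit 204855) (nat_lit 26) (.e (nat_lit 336226) (nat_lit 14) (.e (nat_lit 401424) (nat_lit 2) (.e (nat_lit 196666) (nat_lit 13) .nil)))))) (.g (nat_lit 4) .nil .nil)))))) (.nd (nat_lit 4) (.nd (nat_lit 5) (.nd (nat_lit 6) 
(.lf (nat_lit 196749) (.g (nat_lit 2957) (.e (nat_lit 65629) (nat_lit 14) (.e (nat_lit 401459) (nat_lit 13) (.e (nat_lit 483404) (nat_lit 26) (.e (nat_lit 385096) (nat_lit 49) (.e (nat_lit 786176) (nat_lit 4) .nil))))) (.g (nat_lit 4) .nil .nil))) 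
(.lf (nat_lit 196813) (.g (nat_lit 1930) (.e (nat_lit 65630) (nat_lit 14) (.e (nat_lit 401425) (nat_lit 2) (.e (nat_lit 196666) (nat_lit 13) (.e (nat_lit 65617) (nat_lit 10) (.e (nat_lit 344125) (nat_lit 25) (.e (nat_lit 548887) (nat_lit 9) .nil)))))) (.g (nat_lit 4) .nil .nil)))) (.nd (nat_lit 6) 
(.lf (nat_lit 196781) (.g (nat_lit 1822) (.e (nat_lit 65630) (nat_lit 14) (.e (nat_lit 401425) (nat_lit 2) (.e (nat_lit 196666) (nat_lit 13) (.e (nat_lit 65540) (nat_lit 0) .nil)))) .nil)) 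
(.lf (nat_lit 196845) (.g (nat_lit 2583) (.e (nat_lit 65630) (nat_lit 14) (.e (nat_lit 401427) (nat_lit 3) (.e (nat_lit 204861) (nat_lit 26) (.e (nat_lit 336231) (nat_lit 14) (.e (nat_lit 401424) (nat_lit 2) (.e (nat_lit 196663) (nat_lit 13) .nil)))))) (.g (nat_lit 4) .nil .nil))))) (.nd (nat_lit 5) (.nd (nat_lit 6) 
(.lf (nat_lit 196765) (.g (nat_lit 2735) (.e (nat_lit 65630) (nat_lit 14) (.e (nat_lit 401424) (nat_lit 2) (.e (nat_lit 196666) (nat_lit 13) (.e (nat_lit 65624) (nat_lit 12) (.e (nat_lit 385074) (nat_lit 31) .nil))))) .nil)) 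
(.lf (nat_lit 196829) (.g (nat_lit 1635) (.e (nat_lit 65630) (nat_lit 14) (.e (nat_lit 401425) (nat_lit 2) (.e (nat_lit 196672) (nat_lit 15) (.e (nat_lit 81939) (nat_lit 20) .nil)))) .nil))) (.nd (nat_lit 6) 
(.lf (nat_lit 196797) (.g (nat_lit 3651) (.e (nat_lit 65630) (nat_lit 14) (.e (nat_lit 401425) (nat_lit 2) (.e (nat_lit 196666) (nat_lit 13) (.e (nat_lit 65610) (nat_lit 10) (.e (nat_lit 344126) (nat_lit 25) (.e (nat_lit 548888) (nat_lit 9) .nil)))))) (.g (nat_lit 5) .nil .nil))) 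
(.lf (nat_lit 196861) (.g (nat_lit 3354) (.e (nat_lit 65630) (nat_lit 14) (.e (nat_lit 401428) (nat_lit 3) (.e (nat_lit 204861) (nat_lit 26) (.e (nat_lit 336204) (nat_lit 12) (.e (nat_lit 385074) (nat_lit 31) (.e (nat_lit 573480) (nat_lit 13) .nil)))))) (.g (nat_lit 6) .nil .nil)))))))) (.nd (nat_lit 2) (.nd (nat_lit 3) (.nd (nat_lit 4) (.nd (nat_lit 5) (.nd (nat_lit 6) 
(.lf (nat_lit 196739) (.g (nat_lit 3708) (.e (nat_lit 65629) (nat_lit 14) (.e (nat_lit 401459) (nat_lit 13) (.e (nat_lit 483400) (nat_lit 25) (.e (nat_lit 368695) (nat_lit 40) (.e (nat_lit 671762) (nat_lit 4) .nil))))) (.g (nat_lit 0) .nil .nil))) 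
(.lf (nat_lit 196803) (.g (nat_lit 3067) (.e (nat_lit 65630) (nat_lit 14) (.e (nat_lit 401425) (nat_lit 2) (.e (nat_lit 196666) (nat_lit 13) (.e (nat_lit 65617) (nat_lit 10) (.e (nat_lit 344091) (nat_lit 18) (.e (nat_lit 3985) (nat_lit 239) (.e (nat_lit 1196) (nat_lit 88) .nil))))))) (.g (nat_lit 5) .nil .nil)))) (.nd (nat_lit 6) 
(.lf (nat_lit 196771) (.g (nat_lit 2613) (.e (nat_lit 65630) (nat_lit 14) (.e (nat_lit 401425) (nat_lit 2) (.e (nat_lit 196628) (nat_lit 9) (.e (nat_lit 1512) (nat_lit 108) (.e (nat_lit 335874) (nat_lit 0) (.e (nat_lit 6713) (nat_lit 360) (.e (nat_lit 163950) (nat_lit 21) (.e (nat_lit 500060) (nat_lit 18) .nil)))))))) (.g (nat_lit 4) .nil .nil))) 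
(.lf (nat_lit 196835) (.g (nat_lit 2133) (.e (nat_lit 65630) (nat_lit 14) (.e (nat_lit 401425) (nat_lit 2) (.e (nat_lit 196681) (nat_lit 17) (.e (nat_lit 131120) (nat_lit 12) (.e (nat_lit 385072) (nat_lit 31) (.e (nat_lit 573480) (nat_lit 13) .nil)))))) (.g (nat_lit 4) .nil .nil))))) (.nd (nat_lit 5) (.nd (nat_lit 6) 
(.lf (nat_lit 196755) (.g (nat_lit 3381) (.e (nat_lit 65629) (nat_lit 14) (.e (nat_lit 401459) (nat_lit 13) (.e (nat_lit 483411) (nat_lit 27) (.e (nat_lit 401414) (nat_lit 0) (.e (nat_lit 3346) (nat_lit 206) (.e (nat_lit 606225) (nat_lit 4) .nil)))))) (.g (nat_lit 4) .nil .nil))) 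
(.lf (nat_lit 196819) (.g (nat_lit 3604) (.e (nat_lit 65630) (nat_lit 14) (.e (nat_lit 401425) (nat_lit 2) (.e (nat_lit 196666) (nat_lit 13) (.e (nat_lit 65624) (nat_lit 12) (.e (nat_lit 385074) (nat_lit 31) (.e (nat_lit 573482) (nat_lit 13) .nil)))))) (.g (nat_lit 5) .nil .nil)))) (.nd (nat_lit 6) 
(.lf (nat_lit 196787) (.g (nat_lit 1822) (.e (nat_lit 65630) (nat_lit 14) (.e (nat_lit 401425) (nat_lit 2) (.e (nat_lit 196666) (nat_lit 13) (.e (nat_lit 65588) (nat_lit 8) .nil)))) .nil)) 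
(.lf (nat_lit 196851) (.g (nat_lit 2294) (.e (nat_lit 65630) (nat_lit 14) (.e (nat_lit 401428) (nat_lit 3) (.e (nat_lit 204854) (nat_lit 26) (.e (nat_lit 336208) (nat_lit 12) (.e (nat_lit 385073) (nat_lit 31) (.e (nat_lit 573480) (nat_lit 13) .nil)))))) (.g (nat_lit 4) .nil .nil)))))) (.nd (nat_lit 4) (.nd (nat_lit 5) (.nd (nat_lit 6) 
(.lf (nat_lit 196747) (.g (nat_lit 2653) (.e (nat_lit 65629) (nat_lit 14) (.e (nat_lit 401459) (nat_lit 13) (.e (nat_lit 483403) (nat_lit 26) (.e (nat_lit 385096) (nat_lit 49) (.e (nat_lit 786176) (nat_lit 4) .nil))))) (.g (nat_lit 4) .nil .nil))) 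
(.lf (nat_lit 196811) (.g (nat_lit 2313) (.e (nat_lit 65630) (nat_lit 14) (.e (nat_lit 401425) (nat_lit 2) (.e (nat_lit 196666) (nat_lit 13) (.e (nat_lit 65617) (nat_lit 10) (.e (nat_lit 344096) (nat_lit 18) (.e (nat_lit 3982) (nat_lit 239) (.e (nat_lit 1197) (nat_lit 88) .nil))))))) (.g (nat_lit 4) .nil .nil)))) (.nd (nat_lit 6) 
(.lf (nat_lit 196779) (.g (nat_lit 1679) (.e (nat_lit 65630) (nat_lit 14) (.e (nat_lit 401425) (nat_lit 2) (.e (nat_lit 196666) (nat_lit 13) (.e (nat_lit 65536) (nat_lit 0) .nil)))) .nil)) 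
(.lf (nat_lit 196843) (.g (nat_lit 2893) (.e (nat_lit 65630) (nat_lit 14) (.e (nat_lit 401427) (nat_lit 3) (.e (nat_lit 204861) (nat_lit 26) (.e (nat_lit 336229) (nat_lit 14) (.e (nat_lit 401423) (nat_lit 2) (.e (nat_lit 196663) (nat_lit 13) .nil)))))) (.g (nat_lit 4) .nil .nil))))) (.nd (nat_lit 5) (.nd (nat_lit 6) 
(.lf (nat_lit 196763) (.g (nat_lit 2504) (.e (nat_lit 65630) (nat_lit 14) (.e (nat_lit 401422) (nat_lit 1) (.e (nat_lit 164179) (nat_lit 154) (.e (nat_lit 57411) (nat_lit 12) (.e (nat_lit 336182) (nat_lit 11) (.e (nat_lit 368698) (nat_lit 43) (.e (nat_lit 770071) (nat_lit 8) .nil))))))) (.g (nat_lit 4) .nil .nil))) 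
(.lf (nat_lit 196827) (.g (nat_lit 874) (.e (nat_lit 65630) (nat_lit 14) (.e (nat_lit 401425) (nat_lit 2) (.e (nat_lit 196670) (nat_lit 14) (.e (nat_lit 81664) (nat_lit 45) .nil)))) .nil))) (.nd (nat_lit 6) 
(.lf (nat_lit 196795) (.g (nat_lit 3797) (.e (nat_lit 65630) (nat_lit 14) (.e (nat_lit 401425) (nat_lit 2) (.e (nat_lit 196666) (nat_lit 13) (.e (nat_lit 65610) (nat_lit 10) (.e (nat_lit 344097) (nat_lit 18) (.e (nat_lit 3984) (nat_lit 239) (.e (nat_lit 1197) (nat_lit 88) .nil))))))) (.g (nat_lit 4) .nil .nil))) 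
(.lf (nat_lit 196859) (.g (nat_lit 3313) (.e (nat_lit 65630) (nat_lit 14) (.e (nat_lit 401428) (nat_lit 3) (.e (nat_lit 204861) (nat_lit 26) (.e (nat_lit 336194) (nat_lit 12) (.e (nat_lit 385073) (nat_lit 31) (.e (nat_lit 573480) (nat_lit 13) .nil)))))) (.g (nat_lit 0) .nil .nil))))))) (.nd (nat_lit 3) (.nd (nat_lit 4) (.nd (nat_lit 5) (.nd (nat_lit 6) 
(.lf (nat_lit 196743) (.g (nat_lit 2498) (.e (nat_lit 65629) (nat_lit 14) (.e (nat_lit 401459) (nat_lit 13) (.e (nat_lit 483403) (nat_lit 26) (.e (nat_lit 385048) (nat_lit 21) .nil)))) .nil)) 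
(.lf (nat_lit 196807) (.g (nat_lit 2355) (.e (nat_lit 65630) (nat_lit 14) (.e (nat_lit 401425) (nat_lit 2) (.e (nat_lit 196666) (nat_lit 13) (.e (nat_lit 65617) (nat_lit 10) (.e (nat_lit 344096) (nat_lit 18) (.e (nat_lit 3928) (nat_lit 239) (.e (nat_lit 1203) (nat_lit 88) .nil))))))) (.g (nat_lit 4) .nil .nil)))) (.nd (nat_lit 6) 
(.lf (nat_lit 196775) (.g (nat_lit 648) (.e (nat_lit 65630) (nat_lit 14) (.e (nat_lit 401425) (nat_lit 2) (.e (nat_lit 204544) (nat_lit 9) .nil))) .nil)) 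
(.lf (nat_lit 196839) (.g (nat_lit 2262) (.e (nat_lit 65630) (nat_lit 14) (.e (nat_lit 401427) (nat_lit 3) (.e (nat_lit 204859) (nat_lit 26) (.e (nat_lit 336206) (nat_lit 12) (.e (nat_lit 385074) (nat_lit 31) (.e (nat_lit 573480) (nat_lit 13) .nil)))))) (.g (nat_lit 4) .nil .nil))))) (.nd (nat_lit 5) (.nd (nat_lit 6) 
(.lf (nat_lit 196759) (.g (nat_lit 3622) (.e (nat_lit 65629) (nat_lit 14) (.e (nat_lit 401459) (nat_lit 13) (.e (nat_lit 483411) (nat_lit 27) (.e (nat_lit 401414) (nat_lit 0) (.e (nat_lit 3348) (nat_lit 206) (.e (nat_lit 606224) (nat_lit 4) .nil)))))) (.g (nat_lit 4) .nil .nil))) 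
(.lf (nat_lit 196823) (.g (nat_lit 4226) (.e (nat_lit 65630) (nat_lit 14) (.e (nat_lit 401425) (nat_lit 2) (.e (nat_lit 196666) (nat_lit 13) (.e (nat_lit 65630) (nat_lit 14) (.e (nat_lit 401425) (nat_lit 2) (.e (nat_lit 196663) (nat_lit 13) .nil)))))) (.g (nat_lit 0) .nil .nil)))) (.nd (nat_lit 6) 
(.lf (nat_lit 196791) (.g (nat_lit 2473) (.e (nat_lit 65630) (nat_lit 14) (.e (nat_lit 401425) (nat_lit 2) (.e (nat_lit 196666) (nat_lit 13) (.e (nat_lit 65610) (nat_lit 10) (.e (nat_lit 344097) (nat_lit 18) .nil))))) .nil)) 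
(.lf (nat_lit 196855) (.g (nat_lit 1604) (.e (nat_lit 65630) (nat_lit 14) (.e (nat_lit 401428) (nat_lit 3) (.e (nat_lit 204861) (nat_lit 26) (.e (nat_lit 336076) (nat_lit 9) (.e (nat_lit 336240) (nat_lit 15) .nil))))) .nil))))) (.nd (nat_lit 4) (.nd (nat_lit 5) (.nd (nat_lit 6) 
(.lf (nat_lit 196751) (.g (nat_lit 2313) (.e (nat_lit 65629) (nat_lit 14) (.e (nat_lit 401459) (nat_lit 13) (.e (nat_lit 483411) (nat_lit 27) (.e (nat_lit 401413) (nat_lit 0) .nil)))) .nil)) 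
(.lf (nat_lit 196815) (.g (nat_lit 2944) (.e (nat_lit 65630) (nat_lit 14) (.e (nat_lit 401425) (nat_lit 2) (.e (nat_lit 196666) (nat_lit 13) (.e (nat_lit 65617) (nat_lit 10) (.e (nat_lit 344126) (nat_lit 25) (.e (nat_lit 556800) (nat_lit 9) .nil)))))) (.g (nat_lit 5) .nil .nil)))) (.nd (nat_lit 6) 
(.lf (nat_lit 196783) (.g (nat_lit 1329) (.e (nat_lit 65630) (nat_lit 14) (.e (nat_lit 401425) (nat_lit 2) (.e (nat_lit 196666) (nat_lit 13) (.e (nat_lit 65581) (nat_lit 7) .nil)))) .nil)) 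
(.lf (nat_lit 196847) (.g (nat_lit 2236) (.e (nat_lit 65630) (nat_lit 14) (.e (nat_lit 401428) (nat_lit 3) (.e (nat_lit 204849) (nat_lit 25) (.e (nat_lit 327698) (nat_lit 8) (.e (nat_lit 303116) (nat_lit 2) (.e (nat_lit 196663) (nat_lit 13) .nil)))))) (.g (nat_lit 4) .nil .nil))))) (.nd (nat_lit 5) (.nd (nat_lit 6) 
(.lf (nat_lit 196767) (.g (nat_lit 669) (.e (nat_lit 65630) (nat_lit 14) (.e (nat_lit 401425) (nat_lit 2) (.e (nat_lit 196622) (nat_lit 9) .nil))) .nil)) 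
(.lf (nat_lit 196831) (.g (nat_lit 1554) (.e (nat_lit 65630) (nat_lit 14) (.e (nat_lit 401425) (nat_lit 2) (.e (nat_lit 196672) (nat_lit 15) (.e (nat_lit 81959) (nat_lit 24) .nil)))) .nil))) (.nd (nat_lit 6) 
(.lf (nat_lit 196799) (.g (nat_lit 2257) (.e (nat_lit 65630) (nat_lit 14) (.e (nat_lit 401425) (nat_lit 2) (.e (nat_lit 196666) (nat_lit 13) (.e (nat_lit 65611) (nat_lit 10) (.e (nat_lit 344126) (nat_lit 25) .nil))))) .nil)) 
(.lf (nat_lit 196863) (.g (nat_lit 2488) (.e (nat_lit 65630) (nat_lit 14) (.e (nat_lit 401428) (nat_lit 3) (.e (nat_lit 204861) (nat_lit 26) (.e (nat_lit 336229) (nat_lit 14) (.e (nat_lit 401424) (nat_lit 2) (.e (nat_lit 196663) (nat_lit 13) .nil)))))) (.g (nat_lit 4) .nil .nil))))))))))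

noncomputable def tv2603 : DT := (.nd (nat_lit 0) (.nd (nat_lit 1) (.nd (nat_lit 2) (.nd (nat_lit 3) (.nd (nat_lit 4) 
(.lf (nat_lit 196864) (.g (nat_lit 3437) (.e (nat_lit 65630) (nat_lit 14) (.e (nat_lit 401428) (nat_lit 3) (.e (nat_lit 204861) (nat_lit 26) (.e (nat_lit 336230) (nat_lit 14) (.e (nat_lit 401423) (nat_lit 2) (.e (nat_lit 196663) (nat_lit 13) .nil)))))) (.g (nat_lit 6) .nil .nil))) 
(.lf (nat_lit 196880) (.g (nat_lit 3111) (.e (nat_lit 65630) (nat_lit 14) (.e (nat_lit 401428) (nat_lit 3) (.e (nat_lit 204866) (nat_lit 28) (.e (nat_lit 352318) (nat_lit 24) (.e (nat_lit 130816) (nat_lit 140) (.e (nat_lit 1203) (nat_lit 88) .nil)))))) (.g (nat_lit 4) .nil .nil)))) (.nd (nat_lit 4) 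
(.lf (nat_lit 196872) (.g (nat_lit 2216) (.e (nat_lit 65630) (nat_lit 14) (.e (nat_lit 401428) (nat_lit 3) (.e (nat_lit 204863) (nat_lit 27) (.e (nat_lit 344141) (nat_lit 30) .nil)))) .nil)) 
(.lf (nat_lit 196888) (.g (nat_lit 3243) (.e (nat_lit 65630) (nat_lit 14) (.e (nat_lit 401428) (nat_lit 3) (.e (nat_lit 204869) (nat_lit 29) (.e (nat_lit 360448) (nat_lit 0) (.e (nat_lit 3917) (nat_lit 239) (.e (nat_lit 1194) (nat_lit 88) .nil)))))) (.g (nat_lit 4) .nil .nil))))) (.nd (nat_lit 3) (.nd (nat_lit 4) 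
(.lf (nat_lit 196868) (.g (nat_lit 1989) (.e (nat_lit 65630) (nat_lit 14) (.e (nat_lit 401428) (nat_lit 3) (.e (nat_lit 204861) (nat_lit 26) (.e (nat_lit 336232) (nat_lit 14) (.e (nat_lit 401423) (nat_lit 2) .nil))))) .nil)) 
(.lf (nat_lit 196884) (.g (nat_lit 1296) (.e (nat_lit 65630) (nat_lit 14) (.e (nat_lit 401428) (nat_lit 3) (.e (nat_lit 204869) (nat_lit 29) (.e (nat_lit 360448) (nat_lit 0) .nil)))) .nil))) (.nd (nat_lit 4) 
(.lf (nat_lit 196876) (.g (nat_lit 974) (.e (nat_lit 65630) (nat_lit 14) (.e (nat_lit 401428) (nat_lit 3) (.e (nat_lit 204866) (nat_lit 28) (.e (nat_lit 352318) (nat_lit 24) .nil)))) .nil)) 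
(.lf (nat_lit 196892) (.g (nat_lit 2848) (.e (nat_lit 65630) (nat_lit 14) (.e (nat_lit 401428) (nat_lit 3) (.e (nat_lit 204869) (nat_lit 29) (.e (nat_lit 360448) (nat_lit 0) (.e (nat_lit 3925) (nat_lit 239) (.e (nat_lit 1196) (nat_lit 88) .nil)))))) (.g (nat_lit 4) .nil .nil)))))) (.nd (nat_lit 2) (.nd (nat_lit 3) (.nd (nat_lit 4) 
(.lf (nat_lit 196866) (.g (nat_lit 2910) (.e (nat_lit 65630) (nat_lit 14) (.e (nat_lit 401428) (nat_lit 3) (.e (nat_lit 204861) (nat_lit 26) (.e (nat_lit 336231) (nat_lit 14) (.e (nat_lit 401423) (nat_lit 2) (.e (nat_lit 196663) (nat_lit 13) .nil)))))) (.g (nat_lit 4) .nil .nil))) 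
(.lf (nat_lit 196882) (.g (nat_lit 2604) (.e (nat_lit 65630) (nat_lit 14) (.e (nat_lit 401428) (nat_lit 3) (.e (nat_lit 204868) (nat_lit 29) (.e (nat_lit 360471) (nat_lit 7) (.e (nat_lit 548888) (nat_lit 9) .nil))))) (.g (nat_lit 4) .nil .nil)))) (.nd (nat_lit 4) 
(.lf (nat_lit 196874) (.g (nat_lit 1098) (.e (nat_lit 65630) (nat_lit 14) (.e (nat_lit 401428) (nat_lit 3) (.e (nat_lit 204866) (nat_lit 28) (.e (nat_lit 352268) (nat_lit 6) .nil)))) .nil)) 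
(.lf (nat_lit 196890) (.g (nat_lit 3401) (.e (nat_lit 65630) (nat_lit 14) (.e (nat_lit 401428) (nat_lit 3) (.e (nat_lit 204869) (nat_lit 29) (.e (nat_lit 360448) (nat_lit 0) (.e (nat_lit 3920) (nat_lit 239) (.e (nat_lit 1191) (nat_lit 88) .nil)))))) (.g (nat_lit 4) .nil .nil))))) (.nd (nat_lit 3) (.nd (nat_lit 4) 
(.lf (nat_lit 196870) (.g (nat_lit 2339) (.e (nat_lit 65630) (nat_lit 14) (.e (nat_lit 401428) (nat_lit 3) (.e (nat_lit 204863) (nat_lit 27) (.e (nat_lit 344078) (nat_lit 13) .nil)))) .nil)) 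
(.lf (nat_lit 196886) (.g (nat_lit 3429) (.e (nat_lit 65630) (nat_lit 14) (.e (nat_lit 401428) (nat_lit 3) (.e (nat_lit 204869) (nat_lit 29) (.e (nat_lit 360448) (nat_lit 0) (.e (nat_lit 3915) (nat_lit 239) (.e (nat_lit 1191) (nat_lit 88) .nil)))))) (.g (nat_lit 4) .nil .nil)))) (.nd (nat_lit 4) 
(.lf (nat_lit 196878) (.g (nat_lit 3031) (.e (nat_lit 65630) (nat_lit 14) (.e (nat_lit 401428) (nat_lit 3) (.e (nat_lit 204866) (nat_lit 28) (.e (nat_lit 352318) (nat_lit 24) (.e (nat_lit 123041) (nat_lit 140) (.e (nat_lit 1196) (nat_lit 88) .nil)))))) (.g (nat_lit 4) .nil .nil))) 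
(.lf (nat_lit 196894) (.g (nat_lit 3051) (.e (nat_lit 65630) (nat_lit 14) (.e (nat_lit 401428) (nat_lit 3) (.e (nat_lit 204869) (nat_lit 29) (.e (nat_lit 360448) (nat_lit 0) (.e (nat_lit 3925) (nat_lit 239) (.e (nat_lit 1200) (nat_lit 88) .nil)))))) (.g (nat_lit 4) .nil .nil))))))) (.nd (nat_lit 1) (.nd (nat_lit 2) (.nd (nat_lit 3) (.nd (nat_lit 4) 
(.lf (nat_lit 196865) (.g (nat_lit 3242) (.e (nat_lit 65630) (nat_lit 14) (.e (nat_lit 401428) (nat_lit 3) (.e (nat_lit 204861) (nat_lit 26) (.e (nat_lit 336230) (nat_lit 14) (.e (nat_lit 401424) (nat_lit 2) (.e (nat_lit 196663) (nat_lit 13) .nil)))))) (.g (nat_lit 6) .nil .nil))) 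
(.lf (nat_lit 196881) (.g (nat_lit 1479) (.e (nat_lit 65630) (nat_lit 14) (.e (nat_lit 401428) (nat_lit 3) (.e (nat_lit 204868) (nat_lit 29) (.e (nat_lit 360457) (nat_lit 0) (.e (nat_lit 3982) (nat_lit 239) .nil))))) .nil))) (.nd (nat_lit 4) 
(.lf (nat_lit 196873) (.g (nat_lit 1546) (.e (nat_lit 65630) (nat_lit 14) (.e (nat_lit 401428) (nat_lit 3) (.e (nat_lit 204866) (nat_lit 28) (.e (nat_lit 352266) (nat_lit 0) (.e (nat_lit 3304) (nat_lit 202) .nil))))) .nil)) 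
(.lf (nat_lit 196889) (.g (nat_lit 2628) (.e (nat_lit 65630) (nat_lit 14) (.e (nat_lit 401428) (nat_lit 3) (.e (nat_lit 204869) (nat_lit 29) (.e (nat_lit 360448) (nat_lit 0) (.e (nat_lit 3920) (nat_lit 239) .nil))))) .nil)))) (.nd (nat_lit 3) (.nd (nat_lit 4) 
(.lf (nat_lit 196869) (.g (nat_lit 2437) (.e (nat_lit 65630) (nat_lit 14) (.e (nat_lit 401428) (nat_lit 3) (.e (nat_lit 204861) (nat_lit 26) (.e (nat_lit 336232) (nat_lit 14) (.e (nat_lit 401424) (nat_lit 2) (.e (nat_lit 196663) (nat_lit 13) .nil)))))) (.g (nat_lit 4) .nil .nil))) 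
(.lf (nat_lit 196885) (.g (nat_lit 2712) (.e (nat_lit 65630) (nat_lit 14) (.e (nat_lit 401428) (nat_lit 3) (.e (nat_lit 204869) (nat_lit 29) (.e (nat_lit 360448) (nat_lit 0) (.e (nat_lit 3913) (nat_lit 239) (.e (nat_lit 1191) (nat_lit 88) .nil)))))) (.g (nat_lit 4) .nil .nil)))) (.nd (nat_lit 4) 
(.lf (nat_lit 196877) (.g (nat_lit 2730) (.e (nat_lit 65630) (nat_lit 14) (.e (nat_lit 401428) (nat_lit 3) (.e (nat_lit 204866) (nat_lit 28) (.e (nat_lit 352318) (nat_lit 24) (.e (nat_lit 123039) (nat_lit 140) (.e (nat_lit 1196) (nat_lit 88) .nil)))))) (.g (nat_lit 4) .nil .nil))) 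
(.lf (nat_lit 196893) (.g (nat_lit 2804) (.e (nat_lit 65630) (nat_lit 14) (.e (nat_lit 401428) (nat_lit 3) (.e (nat_lit 204869) (nat_lit 29) (.e (nat_lit 360448) (nat_lit 0) (.e (nat_lit 3925) (nat_lit 239) (.e (nat_lit 1198) (nat_lit 88) .nil)))))) (.g (nat_lit 4) .nil .nil)))))) (.nd (nat_lit 2) (.nd (nat_lit 3) (.nd (nat_lit 4) 
(.lf (nat_lit 196867) (.g (nat_lit 3129) (.e (nat_lit 65630) (nat_lit 14) (.e (nat_lit 401428) (nat_lit 3) (.e (nat_lit 204861) (nat_lit 26) (.e (nat_lit 336231) (nat_lit 14) (.e (nat_lit 401424) (nat_lit 2) (.e (nat_lit 196663) (nat_lit 13) .nil)))))) (.g (nat_lit 4) .nil .nil))) 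
(.lf (nat_lit 196883) (.g (nat_lit 3323) (.e (nat_lit 65630) (nat_lit 14) (.e (nat_lit 401428) (nat_lit 3) (.e (nat_lit 204868) (nat_lit 29) (.e (nat_lit 360471) (nat_lit 7) (.e (nat_lit 548889) (nat_lit 9) .nil))))) (.g (nat_lit 0) .nil .nil)))) (.nd (nat_lit 4) 
(.lf (nat_lit 196875) (.g (nat_lit 2186) (.e (nat_lit 65630) (nat_lit 14) (.e (nat_lit 401428) (nat_lit 3) (.e (nat_lit 204866) (nat_lit 28) (.e (nat_lit 352309) (nat_lit 21) (.e (nat_lit 57642) (nat_lit 140) .nil))))) .nil)) 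
(.lf (nat_lit 196891) (.g (nat_lit 3054) (.e (nat_lit 65630) (nat_lit 14) (.e (nat_lit 401428) (nat_lit 3) (.e (nat_lit 204869) (nat_lit 29) (.e (nat_lit 360448) (nat_lit 0) (.e (nat_lit 3923) (nat_lit 239) (.e (nat_lit 1196) (nat_lit 88) .nil)))))) (.g (nat_lit 4) .nil .nil))))) (.nd (nat_lit 3) (.nd (nat_lit 4) 
(.lf (nat_lit 196871) (.g (nat_lit 1669) (.e (nat_lit 65630) (nat_lit 14) (.e (nat_lit 401428) (nat_lit 3) (.e (nat_lit 204863) (nat_lit 27) (.e (nat_lit 344084) (nat_lit 14) .nil)))) .nil)) 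
(.lf (nat_lit 196887) (.g (nat_lit 3124) (.e (nat_lit 65630) (nat_lit 14) (.e (nat_lit 401428) (nat_lit 3) (.e (nat_lit 204869) (nat_lit 29) (.e (nat_lit 360448) (nat_lit 0) (.e (nat_lit 3916) (nat_lit 239) (.e (nat_lit 1194) (nat_lit 88) .nil)))))) (.g (nat_lit 4) .nil .nil)))) (.nd (nat_lit 4) 
(.lf (nat_lit 196879) (.g (nat_lit 2362) (.e (nat_lit 65630) (nat_lit 14) (.e (nat_lit 401428) (nat_lit 3) (.e (nat_lit 204866) (nat_lit 28) (.e (nat_lit 352318) (nat_lit 24) (.e (nat_lit 123041) (nat_lit 140) (.e (nat_lit 7936) (nat_lit 88) .nil)))))) (.g (nat_lit 4) .nil .nil))) 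
(.lf (nat_lit 196895) (.g (nat_lit 2922) (.e (nat_lit 65630) (nat_lit 14) (.e (nat_lit 401428) (nat_lit 3) (.e (nat_lit 204869) (nat_lit 29) (.e (nat_lit 360448) (nat_lit 0) (.e (nat_lit 3927) (nat_lit 239) (.e (nat_lit 1196) (nat_lit 88) .nil)))))) (.g (nat_lit 4) .nil .nil))))))))

noncomputable def tv2604 : DT := (.nd (nat_lit 0) (.nd (nat_lit 1) (.nd (nat_lit 2) (.nd (nat_lit 3) (.nd (nat_lit 4) 
(.lf (nat_lit 196896) (.g (nat_lit 3007) (.e (nat_lit 65630) (nat_lit 14) (.e (nat_lit 401428) (nat_lit 3) (.e (nat_lit 204869) (nat_lit 29) (.e (nat_lit 360448) (nat_lit 0) (.e (nat_lit 3927) (nat_lit 239) (.e (nat_lit 1199) (nat_lit 88) .nil)))))) (.g (nat_lit 4) .nil .nil))) 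
(.lf (nat_lit 196912) (.g (nat_lit 3275) (.e (nat_lit 65630) (nat_lit 14) (.e (nat_lit 401428) (nat_lit 3) (.e (nat_lit 204869) (nat_lit 29) (.e (nat_lit 360448) (nat_lit 0) (.e (nat_lit 3972) (nat_lit 239) (.e (nat_lit 1199) (nat_lit 88) .nil)))))) (.g (nat_lit 4) .nil .nil)))) (.nd (nat_lit 4) 
(.lf (nat_lit 196904) (.g (nat_lit 3430) (.e (nat_lit 65630) (nat_lit 14) (.e (nat_lit 401428) (nat_lit 3) (.e (nat_lit 204869) (nat_lit 29) (.e (nat_lit 360448) (nat_lit 0) (.e (nat_lit 3947) (nat_lit 239) (.e (nat_lit 1196) (nat_lit 88) .nil)))))) (.g (nat_lit 4) .nil .nil))) 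
(.lf (nat_lit 196920) (.g (nat_lit 3122) (.e (nat_lit 65630) (nat_lit 14) (.e (nat_lit 401428) (nat_lit 3) (.e (nat_lit 204869) (nat_lit 29) (.e (nat_lit 360448) (nat_lit 0) (.e (nat_lit 3985) (nat_lit 239) (.e (nat_lit 1197) (nat_lit 88) .nil)))))) (.g (nat_lit 4) .nil .nil))))) (.nd (nat_lit 3) (.nd (nat_lit 4) 
(.lf (nat_lit 196900) (.g (nat_lit 3450) (.e (nat_lit 65630) (nat_lit 14) (.e (nat_lit 401428) (nat_lit 3) (.e (nat_lit 204869) (nat_lit 29) (.e (nat_lit 360448) (nat_lit 0) (.e (nat_lit 3943) (nat_lit 239) (.e (nat_lit 1196) (nat_lit 88) .nil)))))) (.g (nat_lit 4) .nil .nil))) 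
(.lf (nat_lit 196916) (.g (nat_lit 2653) (.e (nat_lit 65630) (nat_lit 14) (.e (nat_lit 401428) (nat_lit 3) (.e (nat_lit 204869) (nat_lit 29) (.e (nat_lit 360448) (nat_lit 0) (.e (nat_lit 3982) (nat_lit 239) .nil))))) .nil))) (.nd (nat_lit 4) 
(.lf (nat_lit 196908) (.g (nat_lit 2911) (.e (nat_lit 65630) (nat_lit 14) (.e (nat_lit 401428) (nat_lit 3) (.e (nat_lit 204869) (nat_lit 29) (.e (nat_lit 360448) (nat_lit 0) (.e (nat_lit 3971) (nat_lit 239) (.e (nat_lit 1196) (nat_lit 88) .nil)))))) (.g (nat_lit 4) .nil .nil))) 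
(.lf (nat_lit 196924) (.g (nat_lit 2892) (.e (nat_lit 65630) (nat_lit 14) (.e (nat_lit 401428) (nat_lit 3) (.e (nat_lit 204869) (nat_lit 29) (.e (nat_lit 360448) (nat_lit 0) (.e (nat_lit 3989) (nat_lit 239) (.e (nat_lit 1197) (nat_lit 88) .nil)))))) (.g (nat_lit 4) .nil .nil)))))) (.nd (nat_lit 2) (.nd (nat_lit 3) (.nd (nat_lit 4) 
(.lf (nat_lit 196898) (.g (nat_lit 2653) (.e (nat_lit 65630) (nat_lit 14) (.e (nat_lit 401428) (nat_lit 3) (.e (nat_lit 204869) (nat_lit 29) (.e (nat_lit 360448) (nat_lit 0) (.e (nat_lit 3938) (nat_lit 239) .nil))))) .nil)) 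
(.lf (nat_lit 196914) (.g (nat_lit 3168) (.e (nat_lit 65630) (nat_lit 14) (.e (nat_lit 401428) (nat_lit 3) (.e (nat_lit 204869) (nat_lit 29) (.e (nat_lit 360448) (nat_lit 0) (.e (nat_lit 3977) (nat_lit 239) (.e (nat_lit 1196) (nat_lit 88) .nil)))))) (.g (nat_lit 4) .nil .nil)))) (.nd (nat_lit 4) 
(.lf (nat_lit 196906) (.g (nat_lit 2578) (.e (nat_lit 65630) (nat_lit 14) (.e (nat_lit 401428) (nat_lit 3) (.e (nat_lit 204869) (nat_lit 29) (.e (nat_lit 360448) (nat_lit 0) (.e (nat_lit 3971) (nat_lit 239) .nil))))) .nil)) 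
(.lf (nat_lit 196922) (.g (nat_lit 3033) (.e (nat_lit 65630) (nat_lit 14) (.e (nat_lit 401428) (nat_lit 3) (.e (nat_lit 204869) (nat_lit 29) (.e (nat_lit 360448) (nat_lit 0) (.e (nat_lit 3986) (nat_lit 239) (.e (nat_lit 1197) (nat_lit 88) .nil)))))) (.g (nat_lit 4) .nil .nil))))) (.nd (nat_lit 3) (.nd (nat_lit 4) 
(.lf (nat_lit 196902) (.g (nat_lit 3431) (.e (nat_lit 65630) (nat_lit 14) (.e (nat_lit 401428) (nat_lit 3) (.e (nat_lit 204869) (nat_lit 29) (.e (nat_lit 360448) (nat_lit 0) (.e (nat_lit 3945) (nat_lit 239) (.e (nat_lit 1196) (nat_lit 88) .nil)))))) (.g (nat_lit 4) .nil .nil))) 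
(.lf (nat_lit 196918) (.g (nat_lit 3291) (.e (nat_lit 65630) (nat_lit 14) (.e (nat_lit 401428) (nat_lit 3) (.e (nat_lit 204869) (nat_lit 29) (.e (nat_lit 360448) (nat_lit 0) (.e (nat_lit 3984) (nat_lit 239) (.e (nat_lit 1196) (nat_lit 88) .nil)))))) (.g (nat_lit 4) .nil .nil)))) (.nd (nat_lit 4) 
(.lf (nat_lit 196910) (.g (nat_lit 3272) (.e (nat_lit 65630) (nat_lit 14) (.e (nat_lit 401428) (nat_lit 3) (.e (nat_lit 204869) (nat_lit 29) (.e (nat_lit 360448) (nat_lit 0) (.e (nat_lit 3972) (nat_lit 239) (.e (nat_lit 1190) (nat_lit 88) .nil)))))) (.g (nat_lit 4) .nil .nil))) 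
(.lf (nat_lit 196926) (.g (nat_lit 3180) (.e (nat_lit 65630) (nat_lit 14) (.e (nat_lit 401428) (nat_lit 3) (.e (nat_lit 204869) (nat_lit 29) (.e (nat_lit 360449) (nat_lit 0) (.e (nat_lit 3957) (nat_lit 239) .nil))))) .nil)))))) (.nd (nat_lit 1) (.nd (nat_lit 2) (.nd (nat_lit 3) (.nd (nat_lit 4) 
(.lf (nat_lit 196897) (.g (nat_lit 2653) (.e (nat_lit 65630) (nat_lit 14) (.e (nat_lit 401428) (nat_lit 3) (.e (nat_lit 204869) (nat_lit 29) (.e (nat_lit 360448) (nat_lit 0) (.e (nat_lit 3937) (nat_lit 239) .nil))))) .nil)) 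
(.lf (nat_lit 196913) (.g (nat_lit 2983) (.e (nat_lit 65630) (nat_lit 14) (.e (nat_lit 401428) (nat_lit 3) (.e (nat_lit 204869) (nat_lit 29) (.e (nat_lit 360448) (nat_lit 0) (.e (nat_lit 3975) (nat_lit 239) (.e (nat_lit 1196) (nat_lit 88) .nil)))))) (.g (nat_lit 4) .nil .nil)))) (.nd (nat_lit 4) 
(.lf (nat_lit 196905) (.g (nat_lit 3355) (.e (nat_lit 65630) (nat_lit 14) (.e (nat_lit 401428) (nat_lit 3) (.e (nat_lit 204869) (nat_lit 29) (.e (nat_lit 360448) (nat_lit 0) (.e (nat_lit 3947) (nat_lit 239) (.e (nat_lit 1197) (nat_lit 88) .nil)))))) (.g (nat_lit 4) .nil .nil))) 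
(.lf (nat_lit 196921) (.g (nat_lit 3347) (.e (nat_lit 65630) (nat_lit 14) (.e (nat_lit 401428) (nat_lit 3) (.e (nat_lit 204869) (nat_lit 29) (.e (nat_lit 360448) (nat_lit 0) (.e (nat_lit 3986) (nat_lit 239) (.e (nat_lit 1196) (nat_lit 88) .nil)))))) (.g (nat_lit 4) .nil .nil))))) (.nd (nat_lit 3) (.nd (nat_lit 4) 
(.lf (nat_lit 196901) (.g (nat_lit 3406) (.e (nat_lit 65630) (nat_lit 14) (.e (nat_lit 401428) (nat_lit 3) (.e (nat_lit 204869) (nat_lit 29) (.e (nat_lit 360448) (nat_lit 0) (.e (nat_lit 3943) (nat_lit 239) (.e (nat_lit 1197) (nat_lit 88) .nil)))))) (.g (nat_lit 4) .nil .nil))) 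
(.lf (nat_lit 196917) (.g (nat_lit 2787) (.e (nat_lit 65630) (nat_lit 14) (.e (nat_lit 401428) (nat_lit 3) (.e (nat_lit 204869) (nat_lit 29) (.e (nat_lit 360448) (nat_lit 0) (.e (nat_lit 3983) (nat_lit 239) (.e (nat_lit 1197) (nat_lit 88) .nil)))))) (.g (nat_lit 4) .nil .nil)))) (.nd (nat_lit 4) 
(.lf (nat_lit 196909) (.g (nat_lit 3026) (.e (nat_lit 65630) (nat_lit 14) (.e (nat_lit 401428) (nat_lit 3) (.e (nat_lit 204869) (nat_lit 29) (.e (nat_lit 360448) (nat_lit 0) (.e (nat_lit 3971) (nat_lit 239) (.e (nat_lit 1199) (nat_lit 88) .nil)))))) (.g (nat_lit 4) .nil .nil))) 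
(.lf (nat_lit 196925) (.g (nat_lit 2653) (.e (nat_lit 65630) (nat_lit 14) (.e (nat_lit 401428) (nat_lit 3) (.e (nat_lit 204869) (nat_lit 29) (.e (nat_lit 360448) (nat_lit 0) (.e (nat_lit 7936) (nat_lit 239) .nil))))) .nil))))) (.nd (nat_lit 2) (.nd (nat_lit 3) (.nd (nat_lit 4) 
(.lf (nat_lit 196899) (.g (nat_lit 3021) (.e (nat_lit 65630) (nat_lit 14) (.e (nat_lit 401428) (nat_lit 3) (.e (nat_lit 204869) (nat_lit 29) (.e (nat_lit 360448) (nat_lit 0) (.e (nat_lit 3939) (nat_lit 239) (.e (nat_lit 1196) (nat_lit 88) .nil)))))) (.g (nat_lit 4) .nil .nil))) 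
(.lf (nat_lit 196915) (.g (nat_lit 2920) (.e (nat_lit 65630) (nat_lit 14) (.e (nat_lit 401428) (nat_lit 3) (.e (nat_lit 204869) (nat_lit 29) (.e (nat_lit 360448) (nat_lit 0) (.e (nat_lit 3977) (nat_lit 239) (.e (nat_lit 1197) (nat_lit 88) .nil)))))) (.g (nat_lit 4) .nil .nil)))) (.nd (nat_lit 4) 
(.lf (nat_lit 196907) (.g (nat_lit 3270) (.e (nat_lit 65630) (nat_lit 14) (.e (nat_lit 401428) (nat_lit 3) (.e (nat_lit 204869) (nat_lit 29) (.e (nat_lit 360448) (nat_lit 0) (.e (nat_lit 3971) (nat_lit 239) (.e (nat_lit 1188) (nat_lit 88) .nil)))))) (.g (nat_lit 4) .nil .nil))) 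
(.lf (nat_lit 196923) (.g (nat_lit 2915) (.e (nat_lit 65630) (nat_lit 14) (.e (nat_lit 401428) (nat_lit 3) (.e (nat_lit 204869) (nat_lit 29) (.e (nat_lit 360448) (nat_lit 0) (.e (nat_lit 3989) (nat_lit 239) (.e (nat_lit 1196) (nat_lit 88) .nil)))))) (.g (nat_lit 4) .nil .nil))))) (.nd (nat_lit 3) (.nd (nat_lit 4) 
(.lf (nat_lit 196903) (.g (nat_lit 3349) (.e (nat_lit 65630) (nat_lit 14) (.e (nat_lit 401428) (nat_lit 3) (.e (nat_lit 204869) (nat_lit 29) (.e (nat_lit 360448) (nat_lit 0) (.e (nat_lit 3945) (nat_lit 239) (.e (nat_lit 1197) (nat_lit 88) .nil)))))) (.g (nat_lit 4) .nil .nil))) 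
(.lf (nat_lit 196919) (.g (nat_lit 2840) (.e (nat_lit 65630) (nat_lit 14) (.e (nat_lit 401428) (nat_lit 3) (.e (nat_lit 204869) (nat_lit 29) (.e (nat_lit 360448) (nat_lit 0) (.e (nat_lit 3984) (nat_lit 239) (.e (nat_lit 1197) (nat_lit 88) .nil)))))) (.g (nat_lit 4) .nil .nil)))) (.nd (nat_lit 4) 
(.lf (nat_lit 196911) (.g (nat_lit 3147) (.e (nat_lit 65630) (nat_lit 14) (.e (nat_lit 401428) (nat_lit 3) (.e (nat_lit 204869) (nat_lit 29) (.e (nat_lit 360448) (nat_lit 0) (.e (nat_lit 3972) (nat_lit 239) (.e (nat_lit 1196) (nat_lit 88) .nil)))))) (.g (nat_lit 4) .nil .nil))) 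
(.lf (nat_lit 196927) (.g (nat_lit 3929) (.e (nat_lit 65630) (nat_lit 14) (.e (nat_lit 401428) (nat_lit 3) (.e (nat_lit 204869) (nat_lit 29) (.e (nat_lit 360450) (nat_lit 0) (.e (nat_lit 3950) (nat_lit 239) (.e (nat_lit 7936) (nat_lit 88) .nil)))))) (.g (nat_lit 4) .nil .nil))))))))

noncomputable def tv2605 : DT := (.nd (nat_lit 0) (.nd (nat_lit 1) (.nd (nat_lit 2) (.nd (nat_lit 3) (.nd (nat_lit 4) (.nd (nat_lit 5) 
(.lf (nat_lit 196928) (.g (nat_lit 4470) (.e (nat_lit 65630) (nat_lit 14) (.e (nat_lit 401428) (nat_lit 3) (.e (nat_lit 204869) (nat_lit 29) (.e (nat_lit 360450) (nat_lit 0) (.e (nat_lit 3957) (nat_lit 239) (.e (nat_lit 1194) (nat_lit 88) .nil)))))) (.g (nat_lit 4) .nil .nil))) 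
(.lf (nat_lit 196960) (.g (nat_lit 2929) (.e (nat_lit 65630) (nat_lit 14) (.e (nat_lit 401428) (nat_lit 3) (.e (nat_lit 204869) (nat_lit 29) (.e (nat_lit 360455) (nat_lit 0) (.e (nat_lit 3966) (nat_lit 239) (.e (nat_lit 1196) (nat_lit 88) .nil)))))) (.g (nat_lit 4) .nil .nil)))) (.nd (nat_lit 5) 
(.lf (nat_lit 196944) (.g (nat_lit 4643) (.e (nat_lit 65630) (nat_lit 14) (.e (nat_lit 401428) (nat_lit 3) (.e (nat_lit 204869) (nat_lit 29) (.e (nat_lit 360451) (nat_lit 0) (.e (nat_lit 3957) (nat_lit 239) (.e (nat_lit 1194) (nat_lit 88) .nil)))))) (.g (nat_lit 4) .nil .nil))) 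
(.lf (nat_lit 196976) (.g (nat_lit 641) (.e (nat_lit 65630) (nat_lit 14) (.e (nat_lit 401435) (nat_lit 9) (.e (nat_lit 426538) (nat_lit 29) .nil))) .nil)))) (.nd (nat_lit 4) (.nd (nat_lit 5) 
(.lf (nat_lit 196936) (.g (nat_lit 3138) (.e (nat_lit 65630) (nat_lit 14) (.e (nat_lit 401428) (nat_lit 3) (.e (nat_lit 204869) (nat_lit 29) (.e (nat_lit 360450) (nat_lit 0) (.e (nat_lit 7936) (nat_lit 239) (.e (nat_lit 1203) (nat_lit 88) .nil)))))) (.g (nat_lit 4) .nil .nil))) 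
(.lf (nat_lit 196968) (.g (nat_lit 4003) (.e (nat_lit 65630) (nat_lit 14) (.e (nat_lit 401428) (nat_lit 3) (.e (nat_lit 204869) (nat_lit 29) (.e (nat_lit 360471) (nat_lit 7) (.e (nat_lit 548889) (nat_lit 9) .nil))))) (.g (nat_lit 0) .nil .nil)))) (.nd (nat_lit 5) 
(.lf (nat_lit 196952) (.g (nat_lit 3689) (.e (nat_lit 65630) (nat_lit 14) (.e (nat_lit 401428) (nat_lit 3) (.e (nat_lit 204869) (nat_lit 29) (.e (nat_lit 360452) (nat_lit 0) (.e (nat_lit 3946) (nat_lit 239) (.e (nat_lit 1196) (nat_lit 88) .nil)))))) (.g (nat_lit 4) .nil .nil))) 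
(.lf (nat_lit 196984) (.g (nat_lit 1126) (.e (nat_lit 65630) (nat_lit 14) (.e (nat_lit 401435) (nat_lit 9) (.e (nat_lit 426542) (nat_lit 29) (.e (nat_lit 352307) (nat_lit 21) .nil)))) .nil))))) (.nd (nat_lit 3) (.nd (nat_lit 4) (.nd (nat_lit 5) 
(.lf (nat_lit 196932) (.g (nat_lit 3856) (.e (nat_lit 65630) (nat_lit 14) (.e (nat_lit 401428) (nat_lit 3) (.e (nat_lit 204869) (nat_lit 29) (.e (nat_lit 360450) (nat_lit 0) (.e (nat_lit 3983) (nat_lit 239) (.e (nat_lit 1196) (nat_lit 88) .nil)))))) (.g (nat_lit 4) .nil .nil))) 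
(.lf (nat_lit 196964) (.g (nat_lit 3523) (.e (nat_lit 65630) (nat_lit 14) (.e (nat_lit 401428) (nat_lit 3) (.e (nat_lit 204869) (nat_lit 29) (.e (nat_lit 360457) (nat_lit 0) (.e (nat_lit 3962) (nat_lit 239) (.e (nat_lit 1199) (nat_lit 88) .nil)))))) (.g (nat_lit 4) .nil .nil)))) (.nd (nat_lit 5) 
(.lf (nat_lit 196948) (.g (nat_lit 4308) (.e (nat_lit 65630) (nat_lit 14) (.e (nat_lit 401428) (nat_lit 3) (.e (nat_lit 204869) (nat_lit 29) (.e (nat_lit 360451) (nat_lit 0) (.e (nat_lit 3986) (nat_lit 239) (.e (nat_lit 1196) (nat_lit 88) .nil)))))) (.g (nat_lit 4) .nil .nil))) 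
(.lf (nat_lit 196980) (.g (nat_lit 1596) (.e (nat_lit 65630) (nat_lit 14) (.e (nat_lit 401435) (nat_lit 9) (.e (nat_lit 426540) (nat_lit 29) (.e (nat_lit 352270) (nat_lit 8) (.e (nat_lit 270080) (nat_lit 4) .nil))))) (.g (nat_lit 4) .nil .nil))))) (.nd (nat_lit 4) (.nd (nat_lit 5) 
(.lf (nat_lit 196940) (.g (nat_lit 4440) (.e (nat_lit 65630) (nat_lit 14) (.e (nat_lit 401428) (nat_lit 3) (.e (nat_lit 204869) (nat_lit 29) (.e (nat_lit 360451) (nat_lit 0) (.e (nat_lit 3930) (nat_lit 239) (.e (nat_lit 7936) (nat_lit 88) .nil)))))) (.g (nat_lit 4) .nil .nil))) 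
(.lf (nat_lit 196972) (.g (nat_lit 2463) (.e (nat_lit 65630) (nat_lit 14) (.e (nat_lit 401428) (nat_lit 3) (.e (nat_lit 204877) (nat_lit 31) (.e (nat_lit 376860) (nat_lit 21) (.e (nat_lit 57642) (nat_lit 140) (.e (nat_lit 1196) (nat_lit 88) .nil)))))) (.g (nat_lit 4) .nil .nil)))) (.nd (nat_lit 5) 
(.lf (nat_lit 196956) (.g (nat_lit 2849) (.e (nat_lit 65630) (nat_lit 14) (.e (nat_lit 401428) (nat_lit 3) (.e (nat_lit 204869) (nat_lit 29) (.e (nat_lit 360454) (nat_lit 0) (.e (nat_lit 3942) (nat_lit 239) .nil))))) .nil)) 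
(.lf (nat_lit 196988) (.g (nat_lit 2559) (.e (nat_lit 65630) (nat_lit 14) (.e (nat_lit 401435) (nat_lit 9) (.e (nat_lit 426544) (nat_lit 30) (.e (nat_lit 360453) (nat_lit 0) (.e (nat_lit 5907) (nat_lit 320) (.e (nat_lit 1190) (nat_lit 88) .nil)))))) (.g (nat_lit 5) .nil .nil))))))) (.nd (nat_lit 2) (.nd (nat_lit 3) (.nd (nat_lit 4) (.nd (nat_lit 5) 
(.lf (nat_lit 196930) (.g (nat_lit 3965) (.e (nat_lit 65630) (nat_lit 14) (.e (nat_lit 401428) (nat_lit 3) (.e (nat_lit 204869) (nat_lit 29) (.e (nat_lit 360450) (nat_lit 0) (.e (nat_lit 3982) (nat_lit 239) (.e (nat_lit 1196) (nat_lit 88) .nil)))))) (.g (nat_lit 4) .nil .nil))) 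
(.lf (nat_lit 196962) (.g (nat_lit 3044) (.e (nat_lit 65630) (nat_lit 14) (.e (nat_lit 401428) (nat_lit 3) (.e (nat_lit 204869) (nat_lit 29) (.e (nat_lit 360457) (nat_lit 0) (.e (nat_lit 3962) (nat_lit 239) (.e (nat_lit 1188) (nat_lit 88) .nil)))))) (.g (nat_lit 4) .nil .nil)))) (.nd (nat_lit 5) 
(.lf (nat_lit 196946) (.g (nat_lit 4594) (.e (nat_lit 65630) (nat_lit 14) (.e (nat_lit 401428) (nat_lit 3) (.e (nat_lit 204869) (nat_lit 29) (.e (nat_lit 360451) (nat_lit 0) (.e (nat_lit 3959) (nat_lit 239) (.e (nat_lit 1197) (nat_lit 88) .nil)))))) (.g (nat_lit 4) .nil .nil))) 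
(.lf (nat_lit 196978) (.g (nat_lit 1194) (.e (nat_lit 65630) (nat_lit 14) (.e (nat_lit 401435) (nat_lit 9) (.e (nat_lit 426540) (nat_lit 29) (.e (nat_lit 352257) (nat_lit 0) .nil)))) .nil)))) (.nd (nat_lit 4) (.nd (nat_lit 5) 
(.lf (nat_lit 196938) (.g (nat_lit 4420) (.e (nat_lit 65630) (nat_lit 14) (.e (nat_lit 401428) (nat_lit 3) (.e (nat_lit 204869) (nat_lit 29) (.e (nat_lit 360451) (nat_lit 0) (.e (nat_lit 3928) (nat_lit 239) (.e (nat_lit 1202) (nat_lit 88) .nil)))))) (.g (nat_lit 4) .nil .nil))) 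
(.lf (nat_lit 196970) (.g (nat_lit 1562) (.e (nat_lit 65630) (nat_lit 14) (.e (nat_lit 401428) (nat_lit 3) (.e (nat_lit 204869) (nat_lit 29) (.e (nat_lit 368384) (nat_lit 7) .nil)))) .nil))) (.nd (nat_lit 5) 
(.lf (nat_lit 196954) (.g (nat_lit 3104) (.e (nat_lit 65630) (nat_lit 14) (.e (nat_lit 401428) (nat_lit 3) (.e (nat_lit 204869) (nat_lit 29) (.e (nat_lit 360453) (nat_lit 0) (.e (nat_lit 3946) (nat_lit 239) .nil))))) .nil)) 
(.lf (nat_lit 196986) (.g (nat_lit 424) (.e (nat_lit 65630) (nat_lit 14) (.e (nat_lit 401435) (nat_lit 9) (.e (nat_lit 426544) (nat_lit 30) .nil))) .nil))))) (.nd (nat_lit 3) (.nd (nat_lit 4) (.nd (nat_lit 5) 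
(.lf (nat_lit 196934) (.g (nat_lit 3066) (.e (nat_lit 65630) (nat_lit 14) (.e (nat_lit 401428) (nat_lit 3) (.e (nat_lit 204869) (nat_lit 29) (.e (nat_lit 360450) (nat_lit 0) (.e (nat_lit 7936) (nat_lit 239) .nil))))) .nil)) 
(.lf (nat_lit 196966) (.g (nat_lit 1562) (.e (nat_lit 65630) (nat_lit 14) (.e (nat_lit 401428) (nat_lit 3) (.e (nat_lit 204869) (nat_lit 29) (.e (nat_lit 368384) (nat_lit 0) .nil)))) .nil))) (.nd (nat_lit 5) 
(.lf (nat_lit 196950) (.g (nat_lit 3813) (.e (nat_lit 65630) (nat_lit 14) (.e (nat_lit 401428) (nat_lit 3) (.e (nat_lit 204869) (nat_lit 29) (.e (nat_lit 360451) (nat_lit 0) (.e (nat_lit 7936) (nat_lit 239) .nil))))) .nil)) 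
(.lf (nat_lit 196982) (.g (nat_lit 434) (.e (nat_lit 65630) (nat_lit 14) (.e (nat_lit 401435) (nat_lit 9) (.e (nat_lit 426542) (nat_lit 29) .nil))) .nil)))) (.nd (nat_lit 4) (.nd (nat_lit 5) 
(.lf (nat_lit 196942) (.g (nat_lit 4186) (.e (nat_lit 65630) (nat_lit 14) (.e (nat_lit 401428) (nat_lit 3) (.e (nat_lit 204869) (nat_lit 29) (.e (nat_lit 360451) (nat_lit 0) (.e (nat_lit 3950) (nat_lit 239) (.e (nat_lit 7936) (nat_lit 88) .nil)))))) (.g (nat_lit 4) .nil .nil))) 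
(.lf (nat_lit 196974) (.g (nat_lit 1913) (.e (nat_lit 65630) (nat_lit 14) (.e (nat_lit 401434) (nat_lit 9) (.e (nat_lit 426555) (nat_lit 32) (.e (nat_lit 376857) (nat_lit 21) (.e (nat_lit 57873) (nat_lit 264) .nil))))) .nil))) (.nd (nat_lit 5) 
(.lf (nat_lit 196958) (.g (nat_lit 3413) (.e (nat_lit 65630) (nat_lit 14) (.e (nat_lit 401428) (nat_lit 3) (.e (nat_lit 204869) (nat_lit 29) (.e (nat_lit 360454) (nat_lit 0) (.e (nat_lit 3982) (nat_lit 239) (.e (nat_lit 1196) (nat_lit 88) .nil)))))) (.g (nat_lit 4) .nil .nil))) 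
(.lf (nat_lit 196990) (.g (nat_lit 2986) (.e (nat_lit 65630) (nat_lit 14) (.e (nat_lit 401435) (nat_lit 9) (.e (nat_lit 426546) (nat_lit 30) (.e (nat_lit 360486) (nat_lit 18) (.e (nat_lit 671762) (nat_lit 4) .nil))))) (.g (nat_lit 0) .nil .nil)))))))) (.nd (nat_lit 1) (.nd (nat_lit 2) (.nd (nat_lit 3) (.nd (nat_lit 4) (.nd (nat_lit 5) 
(.lf (nat_lit 196929) (.g (nat_lit 4306) (.e (nat_lit 65630) (nat_lit 14) (.e (nat_lit 401428) (nat_lit 3) (.e (nat_lit 204869) (nat_lit 29) (.e (nat_lit 360450) (nat_lit 0) (.e (nat_lit 3959) (nat_lit 239) (.e (nat_lit 1197) (nat_lit 88) .nil)))))) (.g (nat_lit 4) .nil .nil))) 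
(.lf (nat_lit 196961) (.g (nat_lit 3607) (.e (nat_lit 65630) (nat_lit 14) (.e (nat_lit 401428) (nat_lit 3) (.e (nat_lit 204869) (nat_lit 29) (.e (nat_lit 360456) (nat_lit 0) (.e (nat_lit 3962) (nat_lit 239) (.e (nat_lit 1196) (nat_lit 88) .nil)))))) (.g (nat_lit 4) .nil .nil)))) (.nd (nat_lit 5) 
(.lf (nat_lit 196945) (.g (nat_lit 3637) (.e (nat_lit 65630) (nat_lit 14) (.e (nat_lit 401428) (nat_lit 3) (.e (nat_lit 204869) (nat_lit 29) (.e (nat_lit 360451) (nat_lit 0) (.e (nat_lit 3959) (nat_lit 239) .nil))))) .nil)) 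
(.lf (nat_lit 196977) (.g (nat_lit 649) (.e (nat_lit 65630) (nat_lit 14) (.e (nat_lit 401435) (nat_lit 9) (.e (nat_lit 426539) (nat_lit 29) .nil))) .nil)))) (.nd (nat_lit 4) (.nd (nat_lit 5) 
(.lf (nat_lit 196937) (.g (nat_lit 3490) (.e (nat_lit 65630) (nat_lit 14) (.e (nat_lit 401428) (nat_lit 3) (.e (nat_lit 204869) (nat_lit 29) (.e (nat_lit 360451) (nat_lit 0) (.e (nat_lit 3928) (nat_lit 239) .nil))))) .nil)) 
(.lf (nat_lit 196969) (.g (nat_lit 3640) (.e (nat_lit 65630) (nat_lit 14) (.e (nat_lit 401428) (nat_lit 3) (.e (nat_lit 204869) (nat_lit 29) (.e (nat_lit 360471) (nat_lit 7) (.e (nat_lit 556800) (nat_lit 9) .nil))))) (.g (nat_lit 4) .nil .nil)))) (.nd (nat_lit 5) 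
(.lf (nat_lit 196953) (.g (nat_lit 3686) (.e (nat_lit 65630) (nat_lit 14) (.e (nat_lit 401428) (nat_lit 3) (.e (nat_lit 204869) (nat_lit 29) (.e (nat_lit 360452) (nat_lit 0) (.e (nat_lit 3946) (nat_lit 239) (.e (nat_lit 1197) (nat_lit 88) .nil)))))) (.g (nat_lit 4) .nil .nil))) 
(.lf (nat_lit 196985) (.g (nat_lit 1122) (.e (nat_lit 65630) (nat_lit 14) (.e (nat_lit 401435) (nat_lit 9) (.e (nat_lit 426542) (nat_lit 29) (.e (nat_lit 352309) (nat_lit 21) .nil)))) .nil))))) (.nd (nat_lit 3) (.nd (nat_lit 4) (.nd (nat_lit 5) 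
(.lf (nat_lit 196933) (.g (nat_lit 3967) (.e (nat_lit 65630) (nat_lit 14) (.e (nat_lit 401428) (nat_lit 3) (.e (nat_lit 204869) (nat_lit 29) (.e (nat_lit 360450) (nat_lit 0) (.e (nat_lit 3983) (nat_lit 239) (.e (nat_lit 1197) (nat_lit 88) .nil)))))) (.g (nat_lit 4) .nil .nil))) 
(.lf (nat_lit 196965) (.g (nat_lit 3129) (.e (nat_lit 65630) (nat_lit 14) (.e (nat_lit 401428) (nat_lit 3) (.e (nat_lit 204869) (nat_lit 29) (.e (nat_lit 360457) (nat_lit 0) (.e (nat_lit 3962) (nat_lit 239) (.e (nat_lit 1200) (nat_lit 88) .nil)))))) (.g (nat_lit 4) .nil .nil)))) (.nd (nat_lit 5) 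
(.lf (nat_lit 196949) (.g (nat_lit 3994) (.e (nat_lit 65630) (nat_lit 14) (.e (nat_lit 401428) (nat_lit 3) (.e (nat_lit 204869) (nat_lit 29) (.e (nat_lit 360451) (nat_lit 0) (.e (nat_lit 3986) (nat_lit 239) (.e (nat_lit 1197) (nat_lit 88) .nil)))))) (.g (nat_lit 4) .nil .nil))) 
(.lf (nat_lit 196981) (.g (nat_lit 1154) (.e (nat_lit 65630) (nat_lit 14) (.e (nat_lit 401435) (nat_lit 9) (.e (nat_lit 426540) (nat_lit 29) (.e (nat_lit 352287) (nat_lit 20) .nil)))) .nil)))) (.nd (nat_lit 4) (.nd (nat_lit 5) 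
(.lf (nat_lit 196941) (.g (nat_lit 4749) (.e (nat_lit 65630) (nat_lit 14) (.e (nat_lit 401428) (nat_lit 3) (.e (nat_lit 204869) (nat_lit 29) (.e (nat_lit 360451) (nat_lit 0) (.e (nat_lit 3933) (nat_lit 239) (.e (nat_lit 7936) (nat_lit 88) .nil)))))) (.g (nat_lit 4) .nil .nil))) 
(.lf (nat_lit 196973) (.g (nat_lit 1248) (.e (nat_lit 65630) (nat_lit 14) (.e (nat_lit 401434) (nat_lit 9) (.e (nat_lit 426540) (nat_lit 29) (.e (nat_lit 352262) (nat_lit 0) .nil)))) .nil))) (.nd (nat_lit 5) 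
(.lf (nat_lit 196957) (.g (nat_lit 2878) (.e (nat_lit 65630) (nat_lit 14) (.e (nat_lit 401428) (nat_lit 3) (.e (nat_lit 204869) (nat_lit 29) (.e (nat_lit 360454) (nat_lit 0) (.e (nat_lit 3946) (nat_lit 239) .nil))))) .nil)) 
(.lf (nat_lit 196989) (.g (nat_lit 1864) (.e (nat_lit 65630) (nat_lit 14) (.e (nat_lit 401435) (nat_lit 9) (.e (nat_lit 426544) (nat_lit 30) (.e (nat_lit 360486) (nat_lit 18) (.e (nat_lit 671760) (nat_lit 4) .nil))))) (.g (nat_lit 4) .nil .nil))))))) (.nd (nat_lit 2) (.nd (nat_lit 3) (.nd (nat_lit 4) (.nd (nat_lit 5) 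
(.lf (nat_lit 196931) (.g (nat_lit 4001) (.e (nat_lit 65630) (nat_lit 14) (.e (nat_lit 401428) (nat_lit 3) (.e (nat_lit 204869) (nat_lit 29) (.e (nat_lit 360450) (nat_lit 0) (.e (nat_lit 3982) (nat_lit 239) (.e (nat_lit 1197) (nat_lit 88) .nil)))))) (.g (nat_lit 4) .nil .nil))) 
(.lf (nat_lit 196963) (.g (nat_lit 3703) (.e (nat_lit 65630) (nat_lit 14) (.e (nat_lit 401428) (nat_lit 3) (.e (nat_lit 204869) (nat_lit 29) (.e (nat_lit 360457) (nat_lit 0) (.e (nat_lit 3962) (nat_lit 239) (.e (nat_lit 1190) (nat_lit 88) .nil)))))) (.g (nat_lit 4) .nil .nil)))) (.nd (nat_lit 5) 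
(.lf (nat_lit 196947) (.g (nat_lit 3665) (.e (nat_lit 65630) (nat_lit 14) (.e (nat_lit 401428) (nat_lit 3) (.e (nat_lit 204869) (nat_lit 29) (.e (nat_lit 360451) (nat_lit 0) (.e (nat_lit 3986) (nat_lit 239) .nil))))) .nil)) 
(.lf (nat_lit 196979) (.g (nat_lit 1613) (.e (nat_lit 65630) (nat_lit 14) (.e (nat_lit 401435) (nat_lit 9) (.e (nat_lit 426540) (nat_lit 29) (.e (nat_lit 352258) (nat_lit 0) (.e (nat_lit 3716) (nat_lit 227) (.e (nat_lit 786176) (nat_lit 4) .nil)))))) (.g (nat_lit 4) .nil .nil))))) (.nd (nat_lit 4) (.nd (nat_lit 5) 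
(.lf (nat_lit 196939) (.g (nat_lit 4554) (.e (nat_lit 65630) (nat_lit 14) (.e (nat_lit 401428) (nat_lit 3) (.e (nat_lit 204869) (nat_lit 29) (.e (nat_lit 360451) (nat_lit 0) (.e (nat_lit 3928) (nat_lit 239) (.e (nat_lit 1203) (nat_lit 88) .nil)))))) (.g (nat_lit 4) .nil .nil))) 
(.lf (nat_lit 196971) (.g (nat_lit 1906) (.e (nat_lit 65630) (nat_lit 14) (.e (nat_lit 401428) (nat_lit 3) (.e (nat_lit 204870) (nat_lit 29) (.e (nat_lit 360471) (nat_lit 7) (.e (nat_lit 548887) (nat_lit 9) .nil))))) (.g (nat_lit 4) .nil .nil)))) (.nd (nat_lit 5) 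
(.lf (nat_lit 196955) (.g (nat_lit 3178) (.e (nat_lit 65630) (nat_lit 14) (.e (nat_lit 401428) (nat_lit 3) (.e (nat_lit 204869) (nat_lit 29) (.e (nat_lit 360453) (nat_lit 0) (.e (nat_lit 3982) (nat_lit 239) .nil))))) .nil)) 
(.lf (nat_lit 196987) (.g (nat_lit 2737) (.e (nat_lit 65630) (nat_lit 14) (.e (nat_lit 401435) (nat_lit 9) (.e (nat_lit 426544) (nat_lit 30) (.e (nat_lit 360453) (nat_lit 0) (.e (nat_lit 5907) (nat_lit 320) (.e (nat_lit 1188) (nat_lit 88) .nil)))))) (.g (nat_lit 5) .nil .nil)))))) (.nd (nat_lit 3) (.nd (nat_lit 4) (.nd (nat_lit 5) 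
(.lf (nat_lit 196935) (.g (nat_lit 3175) (.e (nat_lit 65630) (nat_lit 14) (.e (nat_lit 401428) (nat_lit 3) (.e (nat_lit 204869) (nat_lit 29) (.e (nat_lit 360450) (nat_lit 0) (.e (nat_lit 7936) (nat_lit 239) (.e (nat_lit 1191) (nat_lit 88) .nil)))))) (.g (nat_lit 4) .nil .nil))) 
(.lf (nat_lit 196967) (.g (nat_lit 3555) (.e (nat_lit 65630) (nat_lit 14) (.e (nat_lit 401428) (nat_lit 3) (.e (nat_lit 204869) (nat_lit 29) (.e (nat_lit 360471) (nat_lit 7) (.e (nat_lit 548888) (nat_lit 9) .nil))))) (.g (nat_lit 0) .nil .nil)))) (.nd (nat_lit 5) 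
(.lf (nat_lit 196951) (.g (nat_lit 3357) (.e (nat_lit 65630) (nat_lit 14) (.e (nat_lit 401428) (nat_lit 3) (.e (nat_lit 204869) (nat_lit 29) (.e (nat_lit 360452) (nat_lit 0) (.e (nat_lit 3946) (nat_lit 239) .nil))))) .nil)) 
(.lf (nat_lit 196983) (.g (nat_lit 1514) (.e (nat_lit 65630) (nat_lit 14) (.e (nat_lit 401435) (nat_lit 9) (.e (nat_lit 426542) (nat_lit 29) (.e (nat_lit 352267) (nat_lit 0) .nil)))) .nil)))) (.nd (nat_lit 4) (.nd (nat_lit 5) 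
(.lf (nat_lit 196943) (.g (nat_lit 3770) (.e (nat_lit 65630) (nat_lit 14) (.e (nat_lit 401428) (nat_lit 3) (.e (nat_lit 204869) (nat_lit 29) (.e (nat_lit 360451) (nat_lit 0) (.e (nat_lit 3957) (nat_lit 239) .nil))))) .nil)) 
(.lf (nat_lit 196975) (.g (nat_lit 1927) (.e (nat_lit 65630) (nat_lit 14) (.e (nat_lit 401434) (nat_lit 9) (.e (nat_lit 426555) (nat_lit 32) (.e (nat_lit 376859) (nat_lit 21) (.e (nat_lit 57873) (nat_lit 264) .nil))))) .nil))) (.nd (nat_lit 5) 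
(.lf (nat_lit 196959) (.g (nat_lit 3449) (.e (nat_lit 65630) (nat_lit 14) (.e (nat_lit 401428) (nat_lit 3) (.e (nat_lit 204869) (nat_lit 29) (.e (nat_lit 360454) (nat_lit 0) (.e (nat_lit 3982) (nat_lit 239) (.e (nat_lit 1197) (nat_lit 88) .nil)))))) (.g (nat_lit 4) .nil .nil))) 
(.lf (nat_lit 196991) (.g (nat_lit 402) (.e (nat_lit 65630) (nat_lit 14) (.e (nat_lit 401435) (nat_lit 9) (.e (nat_lit 426555) (nat_lit 32) .nil))) .nil))))))))

noncomputable def tv2606 : DT := (.nd (nat_lit 0) (.nd (nat_lit 1) (.nd (nat_lit 2) (.nd (nat_lit 3) (.nd (nat_lit 4) (.nd (nat_lit 5) 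
(.lf (nat_lit 196992) (.g (nat_lit 1053) (.e (nat_lit 65630) (nat_lit 14) (.e (nat_lit 401435) (nat_lit 9) (.e (nat_lit 426555) (nat_lit 32) (.e (nat_lit 376857) (nat_lit 21) .nil)))) .nil)) 
(.lf (nat_lit 197024) (.g (nat_lit 2521) (.e (nat_lit 65630) (nat_lit 14) (.e (nat_lit 401436) (nat_lit 9) (.e (nat_lit 426555) (nat_lit 32) (.e (nat_lit 376860) (nat_lit 21) (.e (nat_lit 57870) (nat_lit 264) (.e (nat_lit 1189) (nat_lit 88) .nil)))))) (.g (nat_lit 4) .nil .nil)))) (.nd (nat_lit 5) 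
(.lf (nat_lit 197008) (.g (nat_lit 2204) (.e (nat_lit 65630) (nat_lit 14) (.e (nat_lit 401436) (nat_lit 9) (.e (nat_lit 426542) (nat_lit 29) (.e (nat_lit 352309) (nat_lit 21) (.e (nat_lit 57870) (nat_lit 264) (.e (nat_lit 1189) (nat_lit 88) .nil)))))) (.g (nat_lit 4) .nil .nil))) 
(.lf (nat_lit 197040) (.g (nat_lit 1000) (.e (nat_lit 65630) (nat_lit 14) (.e (nat_lit 401437) (nat_lit 9) (.e (nat_lit 426489) (nat_lit 27) (.e (nat_lit 343808) (nat_lit 12) .nil)))) .nil)))) (.nd (nat_lit 4) (.nd (nat_lit 5) 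
(.lf (nat_lit 197000) (.g (nat_lit 1568) (.e (nat_lit 65630) (nat_lit 14) (.e (nat_lit 401436) (nat_lit 9) (.e (nat_lit 426506) (nat_lit 27) (.e (nat_lit 336205) (nat_lit 12) (.e (nat_lit 385094) (nat_lit 49) (.e (nat_lit 778320) (nat_lit 4) .nil)))))) (.g (nat_lit 4) .nil .nil))) 
(.lf (nat_lit 197032) (.g (nat_lit 1330) (.e (nat_lit 65630) (nat_lit 14) (.e (nat_lit 401437) (nat_lit 9) (.e (nat_lit 426482) (nat_lit 27) (.e (nat_lit 336164) (nat_lit 10) .nil)))) .nil))) (.nd (nat_lit 5) 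
(.lf (nat_lit 197016) (.g (nat_lit 1888) (.e (nat_lit 65630) (nat_lit 14) (.e (nat_lit 401436) (nat_lit 9) (.e (nat_lit 426544) (nat_lit 30) (.e (nat_lit 360486) (nat_lit 18) (.e (nat_lit 671761) (nat_lit 4) .nil))))) (.g (nat_lit 4) .nil .nil))) 
(.lf (nat_lit 197048) (.g (nat_lit 2474) (.e (nat_lit 65630) (nat_lit 14) (.e (nat_lit 401437) (nat_lit 9) (.e (nat_lit 426509) (nat_lit 27) (.e (nat_lit 336177) (nat_lit 10) (.e (nat_lit 344097) (nat_lit 18) (.e (nat_lit 5907) (nat_lit 320) (.e (nat_lit 1200) (nat_lit 88) .nil))))))) (.g (nat_lit 5) .nil .nil)))))) (.nd (nat_lit 3) (.nd (nat_lit 4) (.nd (nat_lit 5) 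
(.lf (nat_lit 196996) (.g (nat_lit 1977) (.e (nat_lit 65630) (nat_lit 14) (.e (nat_lit 401435) (nat_lit 9) (.e (nat_lit 426555) (nat_lit 32) (.e (nat_lit 376859) (nat_lit 21) (.e (nat_lit 57871) (nat_lit 264) .nil))))) .nil)) 
(.lf (nat_lit 197028) (.g (nat_lit 2912) (.e (nat_lit 65630) (nat_lit 14) (.e (nat_lit 401437) (nat_lit 9) (.e (nat_lit 426479) (nat_lit 27) (.e (nat_lit 336208) (nat_lit 12) (.e (nat_lit 385094) (nat_lit 49) (.e (nat_lit 778320) (nat_lit 4) .nil)))))) (.g (nat_lit 4) .nil .nil)))) (.nd (nat_lit 5) 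
(.lf (nat_lit 197012) (.g (nat_lit 1869) (.e (nat_lit 65630) (nat_lit 14) (.e (nat_lit 401436) (nat_lit 9) (.e (nat_lit 426542) (nat_lit 29) (.e (nat_lit 352316) (nat_lit 24) (.e (nat_lit 123183) (nat_lit 264) (.e (nat_lit 1191) (nat_lit 88) .nil)))))) (.g (nat_lit 4) .nil .nil))) 
(.lf (nat_lit 197044) (.g (nat_lit 935) (.e (nat_lit 65630) (nat_lit 14) (.e (nat_lit 401437) (nat_lit 9) (.e (nat_lit 426504) (nat_lit 27) .nil))) .nil)))) (.nd (nat_lit 4) (.nd (nat_lit 5) 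
(.lf (nat_lit 197004) (.g (nat_lit 2050) (.e (nat_lit 65630) (nat_lit 14) (.e (nat_lit 401436) (nat_lit 9) (.e (nat_lit 426542) (nat_lit 29) (.e (nat_lit 352264) (nat_lit 0) (.e (nat_lit 3714) (nat_lit 227) (.e (nat_lit 786176) (nat_lit 4) .nil)))))) (.g (nat_lit 5) .nil .nil))) 
(.lf (nat_lit 197036) (.g (nat_lit 3854) (.e (nat_lit 65630) (nat_lit 14) (.e (nat_lit 401437) (nat_lit 9) (.e (nat_lit 426482) (nat_lit 27) (.e (nat_lit 336205) (nat_lit 12) (.e (nat_lit 385094) (nat_lit 49) (.e (nat_lit 778320) (nat_lit 4) .nil)))))) (.g (nat_lit 0) .nil .nil)))) (.nd (nat_lit 5) 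
(.lf (nat_lit 197020) (.g (nat_lit 2748) (.e (nat_lit 65630) (nat_lit 14) (.e (nat_lit 401436) (nat_lit 9) (.e (nat_lit 426555) (nat_lit 32) (.e (nat_lit 376857) (nat_lit 21) (.e (nat_lit 57870) (nat_lit 264) (.e (nat_lit 1189) (nat_lit 88) .nil)))))) (.g (nat_lit 4) .nil .nil))) 
(.lf (nat_lit 197052) (.g (nat_lit 914) (.e (nat_lit 65630) (nat_lit 14) (.e (nat_lit 401437) (nat_lit 9) (.e (nat_lit 426512) (nat_lit 27) .nil))) .nil)))))) (.nd (nat_lit 2) (.nd (nat_lit 3) (.nd (nat_lit 4) (.nd (nat_lit 5) 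
(.lf (nat_lit 196994) (.g (nat_lit 2743) (.e (nat_lit 65630) (nat_lit 14) (.e (nat_lit 401435) (nat_lit 9) (.e (nat_lit 426555) (nat_lit 32) (.e (nat_lit 376857) (nat_lit 21) (.e (nat_lit 57872) (nat_lit 264) (.e (nat_lit 1200) (nat_lit 88) .nil)))))) (.g (nat_lit 4) .nil .nil))) 
(.lf (nat_lit 197026) (.g (nat_lit 3289) (.e (nat_lit 65630) (nat_lit 14) (.e (nat_lit 401437) (nat_lit 9) (.e (nat_lit 426478) (nat_lit 27) (.e (nat_lit 336200) (nat_lit 12) (.e (nat_lit 385094) (nat_lit 49) (.e (nat_lit 778320) (nat_lit 4) .nil)))))) (.g (nat_lit 5) .nil .nil)))) (.nd (nat_lit 5) 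
(.lf (nat_lit 197010) (.g (nat_lit 1948) (.e (nat_lit 65630) (nat_lit 14) (.e (nat_lit 401436) (nat_lit 9) (.e (nat_lit 426542) (nat_lit 29) (.e (nat_lit 352316) (nat_lit 24) (.e (nat_lit 123182) (nat_lit 264) (.e (nat_lit 1191) (nat_lit 88) .nil)))))) (.g (nat_lit 4) .nil .nil))) 
(.lf (nat_lit 197042) (.g (nat_lit 848) (.e (nat_lit 65630) (nat_lit 14) (.e (nat_lit 401437) (nat_lit 9) (.e (nat_lit 426495) (nat_lit 27) .nil))) .nil)))) (.nd (nat_lit 4) (.nd (nat_lit 5) 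
(.lf (nat_lit 197002) (.g (nat_lit 1643) (.e (nat_lit 65630) (nat_lit 14) (.e (nat_lit 401436) (nat_lit 9) (.e (nat_lit 426540) (nat_lit 29) (.e (nat_lit 352270) (nat_lit 8) (.e (nat_lit 270080) (nat_lit 4) .nil))))) (.g (nat_lit 4) .nil .nil))) 
(.lf (nat_lit 197034) (.g (nat_lit 2449) (.e (nat_lit 65630) (nat_lit 14) (.e (nat_lit 401437) (nat_lit 9) (.e (nat_lit 426482) (nat_lit 27) (.e (nat_lit 336205) (nat_lit 12) (.e (nat_lit 385092) (nat_lit 49) (.e (nat_lit 778320) (nat_lit 4) .nil)))))) (.g (nat_lit 4) .nil .nil)))) (.nd (nat_lit 5) 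
(.lf (nat_lit 197018) (.g (nat_lit 2402) (.e (nat_lit 65630) (nat_lit 14) (.e (nat_lit 401436) (nat_lit 9) (.e (nat_lit 426546) (nat_lit 30) (.e (nat_lit 360452) (nat_lit 0) (.e (nat_lit 5905) (nat_lit 320) (.e (nat_lit 1199) (nat_lit 88) .nil)))))) (.g (nat_lit 5) .nil .nil))) 
(.lf (nat_lit 197050) (.g (nat_lit 2583) (.e (nat_lit 65630) (nat_lit 14) (.e (nat_lit 401437) (nat_lit 9) (.e (nat_lit 426509) (nat_lit 27) (.e (nat_lit 336200) (nat_lit 12) (.e (nat_lit 385094) (nat_lit 49) (.e (nat_lit 778320) (nat_lit 4) .nil)))))) (.g (nat_lit 5) .nil .nil)))))) (.nd (nat_lit 3) (.nd (nat_lit 4) (.nd (nat_lit 5) 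
(.lf (nat_lit 196998) (.g (nat_lit 1830) (.e (nat_lit 65630) (nat_lit 14) (.e (nat_lit 401435) (nat_lit 9) (.e (nat_lit 426555) (nat_lit 32) (.e (nat_lit 376870) (nat_lit 24) .nil)))) .nil)) 
(.lf (nat_lit 197030) (.g (nat_lit 3313) (.e (nat_lit 65630) (nat_lit 14) (.e (nat_lit 401437) (nat_lit 9) (.e (nat_lit 426480) (nat_lit 27) (.e (nat_lit 336200) (nat_lit 12) (.e (nat_lit 385094) (nat_lit 49) (.e (nat_lit 778320) (nat_lit 4) .nil)))))) (.g (nat_lit 5) .nil .nil)))) (.nd (nat_lit 5) 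
(.lf (nat_lit 197014) (.g (nat_lit 2116) (.e (nat_lit 65630) (nat_lit 14) (.e (nat_lit 401436) (nat_lit 9) (.e (nat_lit 426542) (nat_lit 29) (.e (nat_lit 352318) (nat_lit 24) (.e (nat_lit 123183) (nat_lit 264) (.e (nat_lit 1191) (nat_lit 88) .nil)))))) (.g (nat_lit 4) .nil .nil))) 
(.lf (nat_lit 197046) (.g (nat_lit 2578) (.e (nat_lit 65630) (nat_lit 14) (.e (nat_lit 401437) (nat_lit 9) (.e (nat_lit 426509) (nat_lit 27) (.e (nat_lit 336099) (nat_lit 9) (.e (nat_lit 335907) (nat_lit 0) (.e (nat_lit 1996) (nat_lit 137) (.e (nat_lit 663566) (nat_lit 4) .nil))))))) (.g (nat_lit 5) .nil .nil))))) (.nd (nat_lit 4) (.nd (nat_lit 5) 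
(.lf (nat_lit 197006) (.g (nat_lit 2271) (.e (nat_lit 65630) (nat_lit 14) (.e (nat_lit 401436) (nat_lit 9) (.e (nat_lit 426542) (nat_lit 29) (.e (nat_lit 352307) (nat_lit 21) (.e (nat_lit 57870) (nat_lit 264) (.e (nat_lit 1189) (nat_lit 88) .nil)))))) (.g (nat_lit 4) .nil .nil))) 
(.lf (nat_lit 197038) (.g (nat_lit 3023) (.e (nat_lit 65630) (nat_lit 14) (.e (nat_lit 401437) (nat_lit 9) (.e (nat_lit 426489) (nat_lit 27) (.e (nat_lit 336157) (nat_lit 9) (.e (nat_lit 335995) (nat_lit 1) (.e (nat_lit 57872) (nat_lit 264) (.e (nat_lit 1199) (nat_lit 88) .nil))))))) (.g (nat_lit 5) .nil .nil)))) (.nd (nat_lit 5) 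
(.lf (nat_lit 197022) (.g (nat_lit 2545) (.e (nat_lit 65630) (nat_lit 14) (.e (nat_lit 401436) (nat_lit 9) (.e (nat_lit 426555) (nat_lit 32) (.e (nat_lit 376859) (nat_lit 21) (.e (nat_lit 57870) (nat_lit 264) (.e (nat_lit 1189) (nat_lit 88) .nil)))))) (.g (nat_lit 4) .nil .nil))) 
(.lf (nat_lit 197054) (.g (nat_lit 1094) (.e (nat_lit 65630) (nat_lit 14) (.e (nat_lit 401437) (nat_lit 9) (.e (nat_lit 426530) (nat_lit 27) (.e (nat_lit 335874) (nat_lit 0) .nil)))) .nil))))))) (.nd (nat_lit 1) (.nd (nat_lit 2) (.nd (nat_lit 3) (.nd (nat_lit 4) (.nd (nat_lit 5) 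
(.lf (nat_lit 196993) (.g (nat_lit 3222) (.e (nat_lit 65630) (nat_lit 14) (.e (nat_lit 401435) (nat_lit 9) (.e (nat_lit 426555) (nat_lit 32) (.e (nat_lit 376857) (nat_lit 21) (.e (nat_lit 57870) (nat_lit 264) (.e (nat_lit 1188) (nat_lit 88) .nil)))))) (.g (nat_lit 5) .nil .nil))) 
(.lf (nat_lit 197025) (.g (nat_lit 1670) (.e (nat_lit 65630) (nat_lit 14) (.e (nat_lit 401436) (nat_lit 9) (.e (nat_lit 426556) (nat_lit 32) (.e (nat_lit 376859) (nat_lit 21) (.e (nat_lit 57872) (nat_lit 264) (.e (nat_lit 1188) (nat_lit 88) .nil)))))) (.g (nat_lit 4) .nil .nil)))) (.nd (nat_lit 5) 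
(.lf (nat_lit 197009) (.g (nat_lit 2132) (.e (nat_lit 65630) (nat_lit 14) (.e (nat_lit 401436) (nat_lit 9) (.e (nat_lit 426542) (nat_lit 29) (.e (nat_lit 352309) (nat_lit 21) (.e (nat_lit 57871) (nat_lit 264) (.e (nat_lit 1189) (nat_lit 88) .nil)))))) (.g (nat_lit 4) .nil .nil))) 
(.lf (nat_lit 197041) (.g (nat_lit 2788) (.e (nat_lit 65630) (nat_lit 14) (.e (nat_lit 401437) (nat_lit 9) (.e (nat_lit 426493) (nat_lit 27) (.e (nat_lit 336193) (nat_lit 12) (.e (nat_lit 385093) (nat_lit 49) (.e (nat_lit 778320) (nat_lit 4) .nil)))))) (.g (nat_lit 5) .nil .nil))))) (.nd (nat_lit 4) (.nd (nat_lit 5) 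
(.lf (nat_lit 197001) (.g (nat_lit 1727) (.e (nat_lit 65630) (nat_lit 14) (.e (nat_lit 401436) (nat_lit 9) (.e (nat_lit 426540) (nat_lit 29) (.e (nat_lit 352258) (nat_lit 0) (.e (nat_lit 3716) (nat_lit 227) (.e (nat_lit 786176) (nat_lit 4) .nil)))))) (.g (nat_lit 4) .nil .nil))) 
(.lf (nat_lit 197033) (.g (nat_lit 3622) (.e (nat_lit 65630) (nat_lit 14) (.e (nat_lit 401437) (nat_lit 9) (.e (nat_lit 426482) (nat_lit 27) (.e (nat_lit 336193) (nat_lit 12) (.e (nat_lit 385093) (nat_lit 49) (.e (nat_lit 778320) (nat_lit 4) .nil)))))) (.g (nat_lit 5) .nil .nil)))) (.nd (nat_lit 5) 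
(.lf (nat_lit 197017) (.g (nat_lit 2035) (.e (nat_lit 65630) (nat_lit 14) (.e (nat_lit 401436) (nat_lit 9) (.e (nat_lit 426546) (nat_lit 30) (.e (nat_lit 360452) (nat_lit 0) (.e (nat_lit 5905) (nat_lit 320) (.e (nat_lit 1189) (nat_lit 88) .nil)))))) (.g (nat_lit 4) .nil .nil))) 
(.lf (nat_lit 197049) (.g (nat_lit 3719) (.e (nat_lit 65630) (nat_lit 14) (.e (nat_lit 401437) (nat_lit 9) (.e (nat_lit 426509) (nat_lit 27) (.e (nat_lit 336193) (nat_lit 12) (.e (nat_lit 385094) (nat_lit 49) (.e (nat_lit 778320) (nat_lit 4) .nil)))))) (.g (nat_lit 6) .nil .nil)))))) (.nd (nat_lit 3) (.nd (nat_lit 4) (.nd (nat_lit 5) 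
(.lf (nat_lit 196997) (.g (nat_lit 2653) (.e (nat_lit 65630) (nat_lit 14) (.e (nat_lit 401435) (nat_lit 9) (.e (nat_lit 426555) (nat_lit 32) (.e (nat_lit 376860) (nat_lit 21) (.e (nat_lit 57870) (nat_lit 264) (.e (nat_lit 1200) (nat_lit 88) .nil)))))) (.g (nat_lit 4) .nil .nil))) 
(.lf (nat_lit 197029) (.g (nat_lit 845) (.e (nat_lit 65630) (nat_lit 14) (.e (nat_lit 401437) (nat_lit 9) (.e (nat_lit 426480) (nat_lit 27) .nil))) .nil))) (.nd (nat_lit 5) 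
(.lf (nat_lit 197013) (.g (nat_lit 4166) (.e (nat_lit 65630) (nat_lit 14) (.e (nat_lit 401436) (nat_lit 9) (.e (nat_lit 426542) (nat_lit 29) (.e (nat_lit 352318) (nat_lit 24) (.e (nat_lit 123182) (nat_lit 264) (.e (nat_lit 1201) (nat_lit 88) .nil)))))) (.g (nat_lit 0) .nil .nil))) 
(.lf (nat_lit 197045) (.g (nat_lit 2699) (.e (nat_lit 65630) (nat_lit 14) (.e (nat_lit 401437) (nat_lit 9) (.e (nat_lit 426509) (nat_lit 27) (.e (nat_lit 336099) (nat_lit 9) (.e (nat_lit 335907) (nat_lit 0) (.e (nat_lit 1994) (nat_lit 137) (.e (nat_lit 663566) (nat_lit 4) .nil))))))) (.g (nat_lit 5) .nil .nil))))) (.nd (nat_lit 4) (.nd (nat_lit 5) 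
(.lf (nat_lit 197005) (.g (nat_lit 833) (.e (nat_lit 65630) (nat_lit 14) (.e (nat_lit 401436) (nat_lit 9) (.e (nat_lit 426542) (nat_lit 29) (.e (nat_lit 352290) (nat_lit 20) (.e (nat_lit 1023) (nat_lit 81) .nil))))) .nil)) 
(.lf (nat_lit 197037) (.g (nat_lit 939) (.e (nat_lit 65630) (nat_lit 14) (.e (nat_lit 401437) (nat_lit 9) (.e (nat_lit 426487) (nat_lit 27) .nil))) .nil))) (.nd (nat_lit 5) 
(.lf (nat_lit 197021) (.g (nat_lit 3513) (.e (nat_lit 65630) (nat_lit 14) (.e (nat_lit 401436) (nat_lit 9) (.e (nat_lit 426555) (nat_lit 32) (.e (nat_lit 376857) (nat_lit 21) (.e (nat_lit 57873) (nat_lit 264) (.e (nat_lit 1199) (nat_lit 88) .nil)))))) (.g (nat_lit 0) .nil .nil))) 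
(.lf (nat_lit 197053) (.g (nat_lit 908) (.e (nat_lit 65630) (nat_lit 14) (.e (nat_lit 401437) (nat_lit 9) (.e (nat_lit 426516) (nat_lit 27) .nil))) .nil)))))) (.nd (nat_lit 2) (.nd (nat_lit 3) (.nd (nat_lit 4) (.nd (nat_lit 5) 
(.lf (nat_lit 196995) (.g (nat_lit 1056) (.e (nat_lit 65630) (nat_lit 14) (.e (nat_lit 401435) (nat_lit 9) (.e (nat_lit 426555) (nat_lit 32) (.e (nat_lit 376859) (nat_lit 21) .nil)))) .nil)) 
(.lf (nat_lit 197027) (.g (nat_lit 2692) (.e (nat_lit 65630) (nat_lit 14) (.e (nat_lit 401437) (nat_lit 9) (.e (nat_lit 426479) (nat_lit 27) (.e (nat_lit 336208) (nat_lit 12) (.e (nat_lit 385093) (nat_lit 49) (.e (nat_lit 778320) (nat_lit 4) .nil)))))) (.g (nat_lit 4) .nil .nil)))) (.nd (nat_lit 5) 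
(.lf (nat_lit 197011) (.g (nat_lit 4092) (.e (nat_lit 65630) (nat_lit 14) (.e (nat_lit 401436) (nat_lit 9) (.e (nat_lit 426542) (nat_lit 29) (.e (nat_lit 352316) (nat_lit 24) (.e (nat_lit 123182) (nat_lit 264) (.e (nat_lit 1201) (nat_lit 88) .nil)))))) (.g (nat_lit 0) .nil .nil))) 
(.lf (nat_lit 197043) (.g (nat_lit 908) (.e (nat_lit 65630) (nat_lit 14) (.e (nat_lit 401437) (nat_lit 9) (.e (nat_lit 426496) (nat_lit 27) .nil))) .nil)))) (.nd (nat_lit 4) (.nd (nat_lit 5) 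
(.lf (nat_lit 197003) (.g (nat_lit 1788) (.e (nat_lit 65630) (nat_lit 14) (.e (nat_lit 401436) (nat_lit 9) (.e (nat_lit 426542) (nat_lit 29) (.e (nat_lit 352264) (nat_lit 0) (.e (nat_lit 3711) (nat_lit 227) (.e (nat_lit 786176) (nat_lit 4) .nil)))))) (.g (nat_lit 4) .nil .nil))) 
(.lf (nat_lit 197035) (.g (nat_lit 4315) (.e (nat_lit 65630) (nat_lit 14) (.e (nat_lit 401437) (nat_lit 9) (.e (nat_lit 426482) (nat_lit 27) (.e (nat_lit 336205) (nat_lit 12) (.e (nat_lit 385093) (nat_lit 49) (.e (nat_lit 778320) (nat_lit 4) .nil)))))) (.g (nat_lit 0) .nil .nil)))) (.nd (nat_lit 5) 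
(.lf (nat_lit 197019) (.g (nat_lit 2282) (.e (nat_lit 65630) (nat_lit 14) (.e (nat_lit 401436) (nat_lit 9) (.e (nat_lit 426546) (nat_lit 30) (.e (nat_lit 360486) (nat_lit 18) (.e (nat_lit 671760) (nat_lit 4) .nil))))) (.g (nat_lit 0) .nil .nil))) 
(.lf (nat_lit 197051) (.g (nat_lit 2521) (.e (nat_lit 65630) (nat_lit 14) (.e (nat_lit 401437) (nat_lit 9) (.e (nat_lit 426509) (nat_lit 27) (.e (nat_lit 336205) (nat_lit 12) (.e (nat_lit 385094) (nat_lit 49) (.e (nat_lit 778320) (nat_lit 4) .nil)))))) (.g (nat_lit 5) .nil .nil)))))) (.nd (nat_lit 3) (.nd (nat_lit 4) (.nd (nat_lit 5) 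
(.lf (nat_lit 196999) (.g (nat_lit 1691) (.e (nat_lit 65630) (nat_lit 14) (.e (nat_lit 401436) (nat_lit 9) (.e (nat_lit 426480) (nat_lit 27) (.e (nat_lit 336200) (nat_lit 12) (.e (nat_lit 385094) (nat_lit 49) (.e (nat_lit 778320) (nat_lit 4) .nil)))))) (.g (nat_lit 4) .nil .nil))) 
(.lf (nat_lit 197031) (.g (nat_lit 367) (.e (nat_lit 65630) (nat_lit 14) (.e (nat_lit 401437) (nat_lit 9) (.e (nat_lit 426482) (nat_lit 27) .nil))) .nil))) (.nd (nat_lit 5) 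
(.lf (nat_lit 197015) (.g (nat_lit 1811) (.e (nat_lit 65630) (nat_lit 14) (.e (nat_lit 401436) (nat_lit 9) (.e (nat_lit 426544) (nat_lit 30) (.e (nat_lit 360457) (nat_lit 0) (.e (nat_lit 5818) (nat_lit 320) (.e (nat_lit 1191) (nat_lit 88) .nil)))))) (.g (nat_lit 4) .nil .nil))) 
(.lf (nat_lit 197047) (.g (nat_lit 2946) (.e (nat_lit 65630) (nat_lit 14) (.e (nat_lit 401437) (nat_lit 9) (.e (nat_lit 426509) (nat_lit 27) (.e (nat_lit 336176) (nat_lit 10) (.e (nat_lit 344169) (nat_lit 40) (.e (nat_lit 671762) (nat_lit 4) .nil)))))) (.g (nat_lit 4) .nil .nil))))) (.nd (nat_lit 4) (.nd (nat_lit 5) 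
(.lf (nat_lit 197007) (.g (nat_lit 3641) (.e (nat_lit 65630) (nat_lit 14) (.e (nat_lit 401436) (nat_lit 9) (.e (nat_lit 426542) (nat_lit 29) (.e (nat_lit 352307) (nat_lit 21) (.e (nat_lit 57873) (nat_lit 264) (.e (nat_lit 1190) (nat_lit 88) .nil)))))) (.g (nat_lit 0) .nil .nil))) 
(.lf (nat_lit 197039) (.g (nat_lit 2520) (.e (nat_lit 65630) (nat_lit 14) (.e (nat_lit 401437) (nat_lit 9) (.e (nat_lit 426489) (nat_lit 27) (.e (nat_lit 336206) (nat_lit 12) (.e (nat_lit 385094) (nat_lit 49) (.e (nat_lit 778320) (nat_lit 4) .nil)))))) (.g (nat_lit 4) .nil .nil)))) (.nd (nat_lit 5) 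
(.lf (nat_lit 197023) (.g (nat_lit 3451) (.e (nat_lit 65630) (nat_lit 14) (.e (nat_lit 401436) (nat_lit 9) (.e (nat_lit 426555) (nat_lit 32) (.e (nat_lit 376859) (nat_lit 21) (.e (nat_lit 57873) (nat_lit 264) (.e (nat_lit 1199) (nat_lit 88) .nil)))))) (.g (nat_lit 0) .nil .nil))) 
(.lf (nat_lit 197055) (.g (nat_lit 1734) (.e (nat_lit 65630) (nat_lit 14) (.e (nat_lit 401437) (nat_lit 9) (.e (nat_lit 426530) (nat_lit 27) (.e (nat_lit 336118) (nat_lit 9) (.e (nat_lit 336331) (nat_lit 19) .nil))))) .nil))))))))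

noncomputable def tv2607 : DT := (.nd (nat_lit 0) (.nd (nat_lit 1) (.nd (nat_lit 2) (.nd (nat_lit 3) (.nd (nat_lit 4) (.nd (nat_lit 5) 
(.lf (nat_lit 197056) (.g (nat_lit 2248) (.e (nat_lit 65630) (nat_lit 14) (.e (nat_lit 401437) (nat_lit 9) (.e (nat_lit 426530) (nat_lit 27) (.e (nat_lit 336119) (nat_lit 9) (.e (nat_lit 336331) (nat_lit 19) (.e (nat_lit 220928) (nat_lit 4) .nil)))))) (.g (nat_lit 4) .nil .nil))) 
(.lf (nat_lit 197088) (.g (nat_lit 3977) (.e (nat_lit 65630) (nat_lit 14) (.e (nat_lit 401437) (nat_lit 9) (.e (nat_lit 426542) (nat_lit 29) (.e (nat_lit 352307) (nat_lit 21) (.e (nat_lit 57873) (nat_lit 264) (.e (nat_lit 1190) (nat_lit 88) .nil)))))) (.g (nat_lit 0) .nil .nil)))) (.nd (nat_lit 5) 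
(.lf (nat_lit 197072) (.g (nat_lit 1456) (.e (nat_lit 65630) (nat_lit 14) (.e (nat_lit 401437) (nat_lit 9) (.e (nat_lit 426542) (nat_lit 29) (.e (nat_lit 352263) (nat_lit 0) (.e (nat_lit 3681) (nat_lit 227) .nil))))) .nil)) 
(.lf (nat_lit 197104) (.g (nat_lit 3620) (.e (nat_lit 65630) (nat_lit 14) (.e (nat_lit 401437) (nat_lit 9) (.e (nat_lit 426544) (nat_lit 30) (.e (nat_lit 360453) (nat_lit 0) (.e (nat_lit 5907) (nat_lit 320) (.e (nat_lit 1190) (nat_lit 88) .nil)))))) (.g (nat_lit 6) .nil .nil))))) (.nd (nat_lit 4) (.nd (nat_lit 5) 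
(.lf (nat_lit 197064) (.g (nat_lit 2653) (.e (nat_lit 65630) (nat_lit 14) (.e (nat_lit 401437) (nat_lit 9) (.e (nat_lit 426538) (nat_lit 29) (.e (nat_lit 352318) (nat_lit 24) (.e (nat_lit 123183) (nat_lit 264) (.e (nat_lit 1191) (nat_lit 88) .nil)))))) (.g (nat_lit 4) .nil .nil))) 
(.lf (nat_lit 197096) (.g (nat_lit 3140) (.e (nat_lit 65630) (nat_lit 14) (.e (nat_lit 401437) (nat_lit 9) (.e (nat_lit 426542) (nat_lit 29) (.e (nat_lit 352318) (nat_lit 24) (.e (nat_lit 123182) (nat_lit 264) (.e (nat_lit 1191) (nat_lit 88) .nil)))))) (.g (nat_lit 5) .nil .nil)))) (.nd (nat_lit 5) 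
(.lf (nat_lit 197080) (.g (nat_lit 2375) (.e (nat_lit 65630) (nat_lit 14) (.e (nat_lit 401437) (nat_lit 9) (.e (nat_lit 426542) (nat_lit 29) (.e (nat_lit 352290) (nat_lit 20) (.e (nat_lit 2005) (nat_lit 138) (.e (nat_lit 671760) (nat_lit 4) .nil)))))) (.g (nat_lit 5) .nil .nil))) 
(.lf (nat_lit 197112) (.g (nat_lit 2705) (.e (nat_lit 65630) (nat_lit 14) (.e (nat_lit 401437) (nat_lit 9) (.e (nat_lit 426546) (nat_lit 30) (.e (nat_lit 360452) (nat_lit 0) (.e (nat_lit 5906) (nat_lit 320) (.e (nat_lit 1199) (nat_lit 88) .nil)))))) (.g (nat_lit 5) .nil .nil)))))) (.nd (nat_lit 3) (.nd (nat_lit 4) (.nd (nat_lit 5) 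
(.lf (nat_lit 197060) (.g (nat_lit 484) (.e (nat_lit 65630) (nat_lit 14) (.e (nat_lit 401437) (nat_lit 9) (.e (nat_lit 426538) (nat_lit 29) .nil))) .nil)) 
(.lf (nat_lit 197092) (.g (nat_lit 4594) (.e (nat_lit 65630) (nat_lit 14) (.e (nat_lit 401437) (nat_lit 9) (.e (nat_lit 426542) (nat_lit 29) (.e (nat_lit 352316) (nat_lit 24) (.e (nat_lit 123182) (nat_lit 264) (.e (nat_lit 1201) (nat_lit 88) .nil)))))) (.g (nat_lit 0) .nil .nil)))) (.nd (nat_lit 5) 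
(.lf (nat_lit 197076) (.g (nat_lit 2533) (.e (nat_lit 65630) (nat_lit 14) (.e (nat_lit 401437) (nat_lit 9) (.e (nat_lit 426542) (nat_lit 29) (.e (nat_lit 352264) (nat_lit 0) (.e (nat_lit 3715) (nat_lit 227) (.e (nat_lit 778319) (nat_lit 4) .nil)))))) (.g (nat_lit 5) .nil .nil))) 
(.lf (nat_lit 197108) (.g (nat_lit 2900) (.e (nat_lit 65630) (nat_lit 14) (.e (nat_lit 401437) (nat_lit 9) (.e (nat_lit 426544) (nat_lit 30) (.e (nat_lit 360486) (nat_lit 18) (.e (nat_lit 671761) (nat_lit 4) .nil))))) (.g (nat_lit 5) .nil .nil))))) (.nd (nat_lit 4) (.nd (nat_lit 5) 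
(.lf (nat_lit 197068) (.g (nat_lit 2193) (.e (nat_lit 65630) (nat_lit 14) (.e (nat_lit 401437) (nat_lit 9) (.e (nat_lit 426540) (nat_lit 29) (.e (nat_lit 352270) (nat_lit 8) (.e (nat_lit 270080) (nat_lit 4) .nil))))) (.g (nat_lit 4) .nil .nil))) 
(.lf (nat_lit 197100) (.g (nat_lit 2636) (.e (nat_lit 65630) (nat_lit 14) (.e (nat_lit 401437) (nat_lit 9) (.e (nat_lit 426542) (nat_lit 29) (.e (nat_lit 352318) (nat_lit 24) (.e (nat_lit 123185) (nat_lit 264) (.e (nat_lit 1191) (nat_lit 88) .nil)))))) (.g (nat_lit 4) .nil .nil)))) (.nd (nat_lit 5) 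
(.lf (nat_lit 197084) (.g (nat_lit 1375) (.e (nat_lit 65630) (nat_lit 14) (.e (nat_lit 401437) (nat_lit 9) (.e (nat_lit 426542) (nat_lit 29) (.e (nat_lit 352302) (nat_lit 20) .nil)))) .nil)) 
(.lf (nat_lit 197116) (.g (nat_lit 2524) (.e (nat_lit 65630) (nat_lit 14) (.e (nat_lit 401437) (nat_lit 9) (.e (nat_lit 426546) (nat_lit 30) (.e (nat_lit 360456) (nat_lit 0) (.e (nat_lit 5818) (nat_lit 320) (.e (nat_lit 1191) (nat_lit 88) .nil)))))) (.g (nat_lit 5) .nil .nil))))))) (.nd (nat_lit 2) (.nd (nat_lit 3) (.nd (nat_lit 4) (.nd (nat_lit 5) 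
(.lf (nat_lit 197058) (.g (nat_lit 936) (.e (nat_lit 65630) (nat_lit 14) (.e (nat_lit 401437) (nat_lit 9) (.e (nat_lit 426531) (nat_lit 27) .nil))) .nil)) 
(.lf (nat_lit 197090) (.g (nat_lit 3156) (.e (nat_lit 65630) (nat_lit 14) (.e (nat_lit 401437) (nat_lit 9) (.e (nat_lit 426542) (nat_lit 29) (.e (nat_lit 352309) (nat_lit 21) (.e (nat_lit 57872) (nat_lit 264) (.e (nat_lit 1188) (nat_lit 88) .nil)))))) (.g (nat_lit 5) .nil .nil)))) (.nd (nat_lit 5) 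
(.lf (nat_lit 197074) (.g (nat_lit 2489) (.e (nat_lit 65630) (nat_lit 14) (.e (nat_lit 401437) (nat_lit 9) (.e (nat_lit 426542) (nat_lit 29) (.e (nat_lit 352264) (nat_lit 0) (.e (nat_lit 3714) (nat_lit 227) (.e (nat_lit 778319) (nat_lit 4) .nil)))))) (.g (nat_lit 5) .nil .nil))) 
(.lf (nat_lit 197106) (.g (nat_lit 3422) (.e (nat_lit 65630) (nat_lit 14) (.e (nat_lit 401437) (nat_lit 9) (.e (nat_lit 426544) (nat_lit 30) (.e (nat_lit 360457) (nat_lit 0) (.e (nat_lit 5818) (nat_lit 320) (.e (nat_lit 1201) (nat_lit 88) .nil)))))) (.g (nat_lit 0) .nil .nil))))) (.nd (nat_lit 4) (.nd (nat_lit 5) 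
(.lf (nat_lit 197066) (.g (nat_lit 1620) (.e (nat_lit 65630) (nat_lit 14) (.e (nat_lit 401437) (nat_lit 9) (.e (nat_lit 426540) (nat_lit 29) (.e (nat_lit 352257) (nat_lit 0) .nil)))) .nil)) 
(.lf (nat_lit 197098) (.g (nat_lit 3013) (.e (nat_lit 65630) (nat_lit 14) (.e (nat_lit 401437) (nat_lit 9) (.e (nat_lit 426542) (nat_lit 29) (.e (nat_lit 352318) (nat_lit 24) (.e (nat_lit 123183) (nat_lit 264) (.e (nat_lit 1191) (nat_lit 88) .nil)))))) (.g (nat_lit 5) .nil .nil)))) (.nd (nat_lit 5) 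
(.lf (nat_lit 197082) (.g (nat_lit 1375) (.e (nat_lit 65630) (nat_lit 14) (.e (nat_lit 401437) (nat_lit 9) (.e (nat_lit 426542) (nat_lit 29) (.e (nat_lit 352294) (nat_lit 20) .nil)))) .nil)) 
(.lf (nat_lit 197114) (.g (nat_lit 3752) (.e (nat_lit 65630) (nat_lit 14) (.e (nat_lit 401437) (nat_lit 9) (.e (nat_lit 426546) (nat_lit 30) (.e (nat_lit 360452) (nat_lit 0) (.e (nat_lit 5907) (nat_lit 320) (.e (nat_lit 1199) (nat_lit 88) .nil)))))) (.g (nat_lit 0) .nil .nil)))))) (.nd (nat_lit 3) (.nd (nat_lit 4) (.nd (nat_lit 5) 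
(.lf (nat_lit 197062) (.g (nat_lit 2631) (.e (nat_lit 65630) (nat_lit 14) (.e (nat_lit 401437) (nat_lit 9) (.e (nat_lit 426538) (nat_lit 29) (.e (nat_lit 352309) (nat_lit 21) (.e (nat_lit 57872) (nat_lit 264) (.e (nat_lit 1188) (nat_lit 88) .nil)))))) (.g (nat_lit 4) .nil .nil))) 
(.lf (nat_lit 197094) (.g (nat_lit 2688) (.e (nat_lit 65630) (nat_lit 14) (.e (nat_lit 401437) (nat_lit 9) (.e (nat_lit 426542) (nat_lit 29) (.e (nat_lit 352316) (nat_lit 24) (.e (nat_lit 123184) (nat_lit 264) (.e (nat_lit 1191) (nat_lit 88) .nil)))))) (.g (nat_lit 4) .nil .nil)))) (.nd (nat_lit 5) 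
(.lf (nat_lit 197078) (.g (nat_lit 986) (.e (nat_lit 65630) (nat_lit 14) (.e (nat_lit 401437) (nat_lit 9) (.e (nat_lit 426542) (nat_lit 29) (.e (nat_lit 352290) (nat_lit 20) .nil)))) .nil)) 
(.lf (nat_lit 197110) (.g (nat_lit 1927) (.e (nat_lit 65630) (nat_lit 14) (.e (nat_lit 401437) (nat_lit 9) (.e (nat_lit 426546) (nat_lit 30) (.e (nat_lit 360449) (nat_lit 0) (.e (nat_lit 5896) (nat_lit 320) .nil))))) .nil)))) (.nd (nat_lit 4) (.nd (nat_lit 5) 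
(.lf (nat_lit 197070) (.g (nat_lit 319) (.e (nat_lit 65630) (nat_lit 14) (.e (nat_lit 401437) (nat_lit 9) (.e (nat_lit 426542) (nat_lit 29) .nil))) .nil)) 
(.lf (nat_lit 197102) (.g (nat_lit 2015) (.e (nat_lit 65630) (nat_lit 14) (.e (nat_lit 401437) (nat_lit 9) (.e (nat_lit 426544) (nat_lit 30) (.e (nat_lit 360452) (nat_lit 0) (.e (nat_lit 5905) (nat_lit 320) .nil))))) .nil))) (.nd (nat_lit 5) 
(.lf (nat_lit 197086) (.g (nat_lit 3150) (.e (nat_lit 65630) (nat_lit 14) (.e (nat_lit 401437) (nat_lit 9) (.e (nat_lit 426542) (nat_lit 29) (.e (nat_lit 352307) (nat_lit 21) (.e (nat_lit 57872) (nat_lit 264) (.e (nat_lit 1188) (nat_lit 88) .nil)))))) (.g (nat_lit 5) .nil .nil))) 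
(.lf (nat_lit 197118) (.g (nat_lit 998) (.e (nat_lit 65630) (nat_lit 14) (.e (nat_lit 401437) (nat_lit 9) (.e (nat_lit 426546) (nat_lit 30) (.e (nat_lit 368384) (nat_lit 0) .nil)))) .nil))))))) (.nd (nat_lit 1) (.nd (nat_lit 2) (.nd (nat_lit 3) (.nd (nat_lit 4) (.nd (nat_lit 5) 
(.lf (nat_lit 197057) (.g (nat_lit 1399) (.e (nat_lit 65630) (nat_lit 14) (.e (nat_lit 401437) (nat_lit 9) (.e (nat_lit 426530) (nat_lit 27) (.e (nat_lit 336131) (nat_lit 9) .nil)))) .nil)) 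
(.lf (nat_lit 197089) (.g (nat_lit 2877) (.e (nat_lit 65630) (nat_lit 14) (.e (nat_lit 401437) (nat_lit 9) (.e (nat_lit 426542) (nat_lit 29) (.e (nat_lit 352309) (nat_lit 21) (.e (nat_lit 57871) (nat_lit 264) (.e (nat_lit 1189) (nat_lit 88) .nil)))))) (.g (nat_lit 4) .nil .nil)))) (.nd (nat_lit 5) 
(.lf (nat_lit 197073) (.g (nat_lit 2573) (.e (nat_lit 65630) (nat_lit 14) (.e (nat_lit 401437) (nat_lit 9) (.e (nat_lit 426542) (nat_lit 29) (.e (nat_lit 352264) (nat_lit 0) (.e (nat_lit 3711) (nat_lit 227) (.e (nat_lit 778319) (nat_lit 4) .nil)))))) (.g (nat_lit 5) .nil .nil))) 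
(.lf (nat_lit 197105) (.g (nat_lit 2738) (.e (nat_lit 65630) (nat_lit 14) (.e (nat_lit 401437) (nat_lit 9) (.e (nat_lit 426544) (nat_lit 30) (.e (nat_lit 360457) (nat_lit 0) (.e (nat_lit 5818) (nat_lit 320) (.e (nat_lit 1191) (nat_lit 88) .nil)))))) (.g (nat_lit 5) .nil .nil))))) (.nd (nat_lit 4) (.nd (nat_lit 5) 
(.lf (nat_lit 197065) (.g (nat_lit 2719) (.e (nat_lit 65630) (nat_lit 14) (.e (nat_lit 401437) (nat_lit 9) (.e (nat_lit 426538) (nat_lit 29) (.e (nat_lit 352318) (nat_lit 24) (.e (nat_lit 123184) (nat_lit 264) (.e (nat_lit 1191) (nat_lit 88) .nil)))))) (.g (nat_lit 5) .nil .nil))) 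
(.lf (nat_lit 197097) (.g (nat_lit 4659) (.e (nat_lit 65630) (nat_lit 14) (.e (nat_lit 401437) (nat_lit 9) (.e (nat_lit 426542) (nat_lit 29) (.e (nat_lit 352318) (nat_lit 24) (.e (nat_lit 123182) (nat_lit 264) (.e (nat_lit 1201) (nat_lit 88) .nil)))))) (.g (nat_lit 0) .nil .nil)))) (.nd (nat_lit 5) 
(.lf (nat_lit 197081) (.g (nat_lit 2456) (.e (nat_lit 65630) (nat_lit 14) (.e (nat_lit 401437) (nat_lit 9) (.e (nat_lit 426542) (nat_lit 29) (.e (nat_lit 352290) (nat_lit 20) (.e (nat_lit 2006) (nat_lit 138) (.e (nat_lit 671760) (nat_lit 4) .nil)))))) (.g (nat_lit 5) .nil .nil))) 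
(.lf (nat_lit 197113) (.g (nat_lit 3567) (.e (nat_lit 65630) (nat_lit 14) (.e (nat_lit 401437) (nat_lit 9) (.e (nat_lit 426546) (nat_lit 30) (.e (nat_lit 360452) (nat_lit 0) (.e (nat_lit 5907) (nat_lit 320) (.e (nat_lit 1188) (nat_lit 88) .nil)))))) (.g (nat_lit 0) .nil .nil)))))) (.nd (nat_lit 3) (.nd (nat_lit 4) (.nd (nat_lit 5) 
(.lf (nat_lit 197061) (.g (nat_lit 1019) (.e (nat_lit 65630) (nat_lit 14) (.e (nat_lit 401437) (nat_lit 9) (.e (nat_lit 426538) (nat_lit 29) (.e (nat_lit 352307) (nat_lit 21) .nil)))) .nil)) 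
(.lf (nat_lit 197093) (.g (nat_lit 2790) (.e (nat_lit 65630) (nat_lit 14) (.e (nat_lit 401437) (nat_lit 9) (.e (nat_lit 426542) (nat_lit 29) (.e (nat_lit 352316) (nat_lit 24) (.e (nat_lit 123183) (nat_lit 264) (.e (nat_lit 1191) (nat_lit 88) .nil)))))) (.g (nat_lit 4) .nil .nil)))) (.nd (nat_lit 5) 
(.lf (nat_lit 197077) (.g (nat_lit 2314) (.e (nat_lit 65630) (nat_lit 14) (.e (nat_lit 401437) (nat_lit 9) (.e (nat_lit 426542) (nat_lit 29) (.e (nat_lit 352264) (nat_lit 0) (.e (nat_lit 3715) (nat_lit 227) (.e (nat_lit 786176) (nat_lit 4) .nil)))))) (.g (nat_lit 5) .nil .nil))) 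
(.lf (nat_lit 197109) (.g (nat_lit 1402) (.e (nat_lit 65630) (nat_lit 14) (.e (nat_lit 401437) (nat_lit 9) (.e (nat_lit 426546) (nat_lit 30) (.e (nat_lit 360448) (nat_lit 0) .nil)))) .nil)))) (.nd (nat_lit 4) (.nd (nat_lit 5) 
(.lf (nat_lit 197069) (.g (nat_lit 1623) (.e (nat_lit 65630) (nat_lit 14) (.e (nat_lit 401437) (nat_lit 9) (.e (nat_lit 426540) (nat_lit 29) (.e (nat_lit 352295) (nat_lit 20) .nil)))) .nil)) 
(.lf (nat_lit 197101) (.g (nat_lit 1345) (.e (nat_lit 65630) (nat_lit 14) (.e (nat_lit 401437) (nat_lit 9) (.e (nat_lit 426544) (nat_lit 30) (.e (nat_lit 360452) (nat_lit 0) .nil)))) .nil))) (.nd (nat_lit 5) 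
(.lf (nat_lit 197085) (.g (nat_lit 1545) (.e (nat_lit 65630) (nat_lit 14) (.e (nat_lit 401437) (nat_lit 9) (.e (nat_lit 426542) (nat_lit 29) (.e (nat_lit 352303) (nat_lit 20) (.e (nat_lit 2006) (nat_lit 138) .nil))))) .nil)) 
(.lf (nat_lit 197117) (.g (nat_lit 3243) (.e (nat_lit 65630) (nat_lit 14) (.e (nat_lit 401437) (nat_lit 9) (.e (nat_lit 426546) (nat_lit 30) (.e (nat_lit 360456) (nat_lit 0) (.e (nat_lit 5818) (nat_lit 320) (.e (nat_lit 1201) (nat_lit 88) .nil)))))) (.g (nat_lit 0) .nil .nil))))))) (.nd (nat_lit 2) (.nd (nat_lit 3) (.nd (nat_lit 4) (.nd (nat_lit 5) 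
(.lf (nat_lit 197059) (.g (nat_lit 830) (.e (nat_lit 65630) (nat_lit 14) (.e (nat_lit 401437) (nat_lit 9) (.e (nat_lit 426533) (nat_lit 28) (.e (nat_lit 344086) (nat_lit 17) .nil)))) .nil)) 
(.lf (nat_lit 197091) (.g (nat_lit 3167) (.e (nat_lit 65630) (nat_lit 14) (.e (nat_lit 401437) (nat_lit 9) (.e (nat_lit 426542) (nat_lit 29) (.e (nat_lit 352309) (nat_lit 21) (.e (nat_lit 57873) (nat_lit 264) (.e (nat_lit 1188) (nat_lit 88) .nil)))))) (.g (nat_lit 5) .nil .nil)))) (.nd (nat_lit 5) 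
(.lf (nat_lit 197075) (.g (nat_lit 2488) (.e (nat_lit 65630) (nat_lit 14) (.e (nat_lit 401437) (nat_lit 9) (.e (nat_lit 426542) (nat_lit 29) (.e (nat_lit 352264) (nat_lit 0) (.e (nat_lit 3714) (nat_lit 227) (.e (nat_lit 786176) (nat_lit 4) .nil)))))) (.g (nat_lit 5) .nil .nil))) 
(.lf (nat_lit 197107) (.g (nat_lit 968) (.e (nat_lit 65630) (nat_lit 14) (.e (nat_lit 401437) (nat_lit 9) (.e (nat_lit 426544) (nat_lit 30) (.e (nat_lit 368384) (nat_lit 0) .nil)))) .nil)))) (.nd (nat_lit 4) (.nd (nat_lit 5) 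
(.lf (nat_lit 197067) (.g (nat_lit 2360) (.e (nat_lit 65630) (nat_lit 14) (.e (nat_lit 401437) (nat_lit 9) (.e (nat_lit 426540) (nat_lit 29) (.e (nat_lit 352258) (nat_lit 0) (.e (nat_lit 3716) (nat_lit 227) (.e (nat_lit 786176) (nat_lit 4) .nil)))))) (.g (nat_lit 5) .nil .nil))) 
(.lf (nat_lit 197099) (.g (nat_lit 3050) (.e (nat_lit 65630) (nat_lit 14) (.e (nat_lit 401437) (nat_lit 9) (.e (nat_lit 426542) (nat_lit 29) (.e (nat_lit 352318) (nat_lit 24) (.e (nat_lit 123184) (nat_lit 264) (.e (nat_lit 1191) (nat_lit 88) .nil)))))) (.g (nat_lit 5) .nil .nil)))) (.nd (nat_lit 5) 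
(.lf (nat_lit 197083) (.g (nat_lit 2339) (.e (nat_lit 65630) (nat_lit 14) (.e (nat_lit 401437) (nat_lit 9) (.e (nat_lit 426542) (nat_lit 29) (.e (nat_lit 352297) (nat_lit 20) (.e (nat_lit 2004) (nat_lit 138) (.e (nat_lit 671760) (nat_lit 4) .nil)))))) (.g (nat_lit 5) .nil .nil))) 
(.lf (nat_lit 197115) (.g (nat_lit 1462) (.e (nat_lit 65630) (nat_lit 14) (.e (nat_lit 401437) (nat_lit 9) (.e (nat_lit 426546) (nat_lit 30) (.e (nat_lit 360454) (nat_lit 0) .nil)))) .nil))))) (.nd (nat_lit 3) (.nd (nat_lit 4) (.nd (nat_lit 5) 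
(.lf (nat_lit 197063) (.g (nat_lit 3135) (.e (nat_lit 65630) (nat_lit 14) (.e (nat_lit 401437) (nat_lit 9) (.e (nat_lit 426538) (nat_lit 29) (.e (nat_lit 352309) (nat_lit 21) (.e (nat_lit 57872) (nat_lit 264) (.e (nat_lit 1199) (nat_lit 88) .nil)))))) (.g (nat_lit 5) .nil .nil))) 
(.lf (nat_lit 197095) (.g (nat_lit 2517) (.e (nat_lit 65630) (nat_lit 14) (.e (nat_lit 401437) (nat_lit 9) (.e (nat_lit 426542) (nat_lit 29) (.e (nat_lit 352316) (nat_lit 24) (.e (nat_lit 123185) (nat_lit 264) (.e (nat_lit 1191) (nat_lit 88) .nil)))))) (.g (nat_lit 4) .nil .nil)))) (.nd (nat_lit 5) 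
(.lf (nat_lit 197079) (.g (nat_lit 1166) (.e (nat_lit 65630) (nat_lit 14) (.e (nat_lit 401437) (nat_lit 9) (.e (nat_lit 426542) (nat_lit 29) (.e (nat_lit 352290) (nat_lit 20) (.e (nat_lit 1023) (nat_lit 81) .nil))))) .nil)) 
(.lf (nat_lit 197111) (.g (nat_lit 3250) (.e (nat_lit 65630) (nat_lit 14) (.e (nat_lit 401437) (nat_lit 9) (.e (nat_lit 426546) (nat_lit 30) (.e (nat_lit 360452) (nat_lit 0) (.e (nat_lit 5905) (nat_lit 320) (.e (nat_lit 1189) (nat_lit 88) .nil)))))) (.g (nat_lit 5) .nil .nil))))) (.nd (nat_lit 4) (.nd (nat_lit 5) 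
(.lf (nat_lit 197071) (.g (nat_lit 1375) (.e (nat_lit 65630) (nat_lit 14) (.e (nat_lit 401437) (nat_lit 9) (.e (nat_lit 426542) (nat_lit 29) (.e (nat_lit 352263) (nat_lit 0) .nil)))) .nil)) 
(.lf (nat_lit 197103) (.g (nat_lit 2624) (.e (nat_lit 65630) (nat_lit 14) (.e (nat_lit 401437) (nat_lit 9) (.e (nat_lit 426544) (nat_lit 30) (.e (nat_lit 360452) (nat_lit 0) (.e (nat_lit 5907) (nat_lit 320) (.e (nat_lit 1200) (nat_lit 88) .nil)))))) (.g (nat_lit 4) .nil .nil)))) (.nd (nat_lit 5) 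
(.lf (nat_lit 197087) (.g (nat_lit 3384) (.e (nat_lit 65630) (nat_lit 14) (.e (nat_lit 401437) (nat_lit 9) (.e (nat_lit 426542) (nat_lit 29) (.e (nat_lit 352307) (nat_lit 21) (.e (nat_lit 57873) (nat_lit 264) (.e (nat_lit 1188) (nat_lit 88) .nil)))))) (.g (nat_lit 5) .nil .nil))) 
(.lf (nat_lit 197119) (.g (nat_lit 3416) (.e (nat_lit 65630) (nat_lit 14) (.e (nat_lit 401437) (nat_lit 9) (.e (nat_lit 426546) (nat_lit 30) (.e (nat_lit 360486) (nat_lit 18) (.e (nat_lit 671761) (nat_lit 4) .nil))))) (.g (nat_lit 5) .nil .nil)))))))))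

noncomputable def tv2608 : DT := (.nd (nat_lit 0) (.nd (nat_lit 1) (.nd (nat_lit 2) (.nd (nat_lit 3) (.nd (nat_lit 4) (.nd (nat_lit 5) 
(.lf (nat_lit 197120) (.g (nat_lit 764) (.e (nat_lit 65630) (nat_lit 14) (.e (nat_lit 401437) (nat_lit 9) (.e (nat_lit 426553) (nat_lit 32) (.e (nat_lit 376835) (nat_lit 0) .nil)))) .nil)) 
(.lf (nat_lit 197152) (.g (nat_lit 1699) (.e (nat_lit 65630) (nat_lit 14) (.e (nat_lit 401438) (nat_lit 9) (.e (nat_lit 426540) (nat_lit 29) (.e (nat_lit 352270) (nat_lit 8) (.e (nat_lit 270080) (nat_lit 4) .nil))))) (.g (nat_lit 4) .nil .nil)))) (.nd (nat_lit 5) 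
(.lf (nat_lit 197136) (.g (nat_lit 1641) (.e (nat_lit 65630) (nat_lit 14) (.e (nat_lit 401438) (nat_lit 9) (.e (nat_lit 426482) (nat_lit 27) (.e (nat_lit 336140) (nat_lit 9) .nil)))) .nil)) 
(.lf (nat_lit 197168) (.g (nat_lit 2348) (.e (nat_lit 65630) (nat_lit 14) (.e (nat_lit 401438) (nat_lit 9) (.e (nat_lit 426542) (nat_lit 29) (.e (nat_lit 352317) (nat_lit 24) (.e (nat_lit 123183) (nat_lit 264) (.e (nat_lit 1191) (nat_lit 88) .nil)))))) (.g (nat_lit 5) .nil .nil))))) (.nd (nat_lit 4) (.nd (nat_lit 5) 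
(.lf (nat_lit 197128) (.g (nat_lit 3795) (.e (nat_lit 65630) (nat_lit 14) (.e (nat_lit 401437) (nat_lit 9) (.e (nat_lit 426555) (nat_lit 32) (.e (nat_lit 376857) (nat_lit 21) (.e (nat_lit 57873) (nat_lit 264) (.e (nat_lit 1190) (nat_lit 88) .nil)))))) (.g (nat_lit 6) .nil .nil))) 
(.lf (nat_lit 197160) (.g (nat_lit 2813) (.e (nat_lit 65630) (nat_lit 14) (.e (nat_lit 401438) (nat_lit 9) (.e (nat_lit 426542) (nat_lit 29) (.e (nat_lit 352307) (nat_lit 21) (.e (nat_lit 57871) (nat_lit 264) (.e (nat_lit 1189) (nat_lit 88) .nil)))))) (.g (nat_lit 5) .nil .nil)))) (.nd (nat_lit 5) 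
(.lf (nat_lit 197144) (.g (nat_lit 2293) (.e (nat_lit 65630) (nat_lit 14) (.e (nat_lit 401438) (nat_lit 9) (.e (nat_lit 426493) (nat_lit 27) (.e (nat_lit 336193) (nat_lit 12) (.e (nat_lit 385093) (nat_lit 49) (.e (nat_lit 778320) (nat_lit 4) .nil)))))) (.g (nat_lit 5) .nil .nil))) 
(.lf (nat_lit 197176) (.g (nat_lit 2427) (.e (nat_lit 65630) (nat_lit 14) (.e (nat_lit 401438) (nat_lit 9) (.e (nat_lit 426544) (nat_lit 30) (.e (nat_lit 360457) (nat_lit 0) (.e (nat_lit 5818) (nat_lit 320) (.e (nat_lit 1191) (nat_lit 88) .nil)))))) (.g (nat_lit 5) .nil .nil)))))) (.nd (nat_lit 3) (.nd (nat_lit 4) (.nd (nat_lit 5) 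
(.lf (nat_lit 197124) (.g (nat_lit 1805) (.e (nat_lit 65630) (nat_lit 14) (.e (nat_lit 401437) (nat_lit 9) (.e (nat_lit 426555) (nat_lit 32) (.e (nat_lit 376844) (nat_lit 20) .nil)))) .nil)) 
(.lf (nat_lit 197156) (.g (nat_lit 2546) (.e (nat_lit 65630) (nat_lit 14) (.e (nat_lit 401438) (nat_lit 9) (.e (nat_lit 426542) (nat_lit 29) (.e (nat_lit 352283) (nat_lit 20) (.e (nat_lit 1999) (nat_lit 137) (.e (nat_lit 663566) (nat_lit 4) .nil)))))) (.g (nat_lit 6) .nil .nil)))) (.nd (nat_lit 5) 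
(.lf (nat_lit 197140) (.g (nat_lit 2757) (.e (nat_lit 65630) (nat_lit 14) (.e (nat_lit 401438) (nat_lit 9) (.e (nat_lit 426482) (nat_lit 27) (.e (nat_lit 336205) (nat_lit 12) (.e (nat_lit 385092) (nat_lit 49) (.e (nat_lit 778320) (nat_lit 4) .nil)))))) (.g (nat_lit 4) .nil .nil))) 
(.lf (nat_lit 197172) (.g (nat_lit 3068) (.e (nat_lit 65630) (nat_lit 14) (.e (nat_lit 401438) (nat_lit 9) (.e (nat_lit 426542) (nat_lit 29) (.e (nat_lit 352318) (nat_lit 24) (.e (nat_lit 123183) (nat_lit 264) (.e (nat_lit 1191) (nat_lit 88) .nil)))))) (.g (nat_lit 6) .nil .nil))))) (.nd (nat_lit 4) (.nd (nat_lit 5) 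
(.lf (nat_lit 197132) (.g (nat_lit 2991) (.e (nat_lit 65630) (nat_lit 14) (.e (nat_lit 401437) (nat_lit 9) (.e (nat_lit 426555) (nat_lit 32) (.e (nat_lit 376860) (nat_lit 21) (.e (nat_lit 57870) (nat_lit 264) (.e (nat_lit 1189) (nat_lit 88) .nil)))))) (.g (nat_lit 4) .nil .nil))) 
(.lf (nat_lit 197164) (.g (nat_lit 2461) (.e (nat_lit 65630) (nat_lit 14) (.e (nat_lit 401438) (nat_lit 9) (.e (nat_lit 426542) (nat_lit 29) (.e (nat_lit 352309) (nat_lit 21) (.e (nat_lit 57872) (nat_lit 264) (.e (nat_lit 1187) (nat_lit 88) .nil)))))) (.g (nat_lit 4) .nil .nil)))) (.nd (nat_lit 5) 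
(.lf (nat_lit 197148) (.g (nat_lit 1626) (.e (nat_lit 65630) (nat_lit 14) (.e (nat_lit 401438) (nat_lit 9) (.e (nat_lit 426509) (nat_lit 27) (.e (nat_lit 336205) (nat_lit 12) (.e (nat_lit 385094) (nat_lit 49) (.e (nat_lit 778320) (nat_lit 4) .nil)))))) (.g (nat_lit 4) .nil .nil))) 
(.lf (nat_lit 197180) (.g (nat_lit 356) (.e (nat_lit 65630) (nat_lit 14) (.e (nat_lit 401438) (nat_lit 9) (.e (nat_lit 426546) (nat_lit 30) .nil))) .nil)))))) (.nd (nat_lit 2) (.nd (nat_lit 3) (.nd (nat_lit 4) (.nd (nat_lit 5) 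
(.lf (nat_lit 197122) (.g (nat_lit 1965) (.e (nat_lit 65630) (nat_lit 14) (.e (nat_lit 401437) (nat_lit 9) (.e (nat_lit 426555) (nat_lit 32) (.e (nat_lit 376834) (nat_lit 0) .nil)))) .nil)) 
(.lf (nat_lit 197154) (.g (nat_lit 273) (.e (nat_lit 65630) (nat_lit 14) (.e (nat_lit 401438) (nat_lit 9) (.e (nat_lit 426542) (nat_lit 29) .nil))) .nil))) (.nd (nat_lit 5) 
(.lf (nat_lit 197138) (.g (nat_lit 2699) (.e (nat_lit 65630) (nat_lit 14) (.e (nat_lit 401438) (nat_lit 9) (.e (nat_lit 426482) (nat_lit 27) (.e (nat_lit 336193) (nat_lit 12) (.e (nat_lit 385094) (nat_lit 49) .nil))))) .nil)) 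
(.lf (nat_lit 197170) (.g (nat_lit 1521) (.e (nat_lit 65630) (nat_lit 14) (.e (nat_lit 401438) (nat_lit 9) (.e (nat_lit 426542) (nat_lit 29) (.e (nat_lit 352318) (nat_lit 24) (.e (nat_lit 123181) (nat_lit 264) .nil))))) .nil)))) (.nd (nat_lit 4) (.nd (nat_lit 5) 
(.lf (nat_lit 197130) (.g (nat_lit 3081) (.e (nat_lit 65630) (nat_lit 14) (.e (nat_lit 401437) (nat_lit 9) (.e (nat_lit 426555) (nat_lit 32) (.e (nat_lit 376859) (nat_lit 21) (.e (nat_lit 57870) (nat_lit 264) (.e (nat_lit 1189) (nat_lit 88) .nil)))))) (.g (nat_lit 4) .nil .nil))) 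
(.lf (nat_lit 197162) (.g (nat_lit 2969) (.e (nat_lit 65630) (nat_lit 14) (.e (nat_lit 401438) (nat_lit 9) (.e (nat_lit 426542) (nat_lit 29) (.e (nat_lit 352309) (nat_lit 21) (.e (nat_lit 57870) (nat_lit 264) (.e (nat_lit 1188) (nat_lit 88) .nil)))))) (.g (nat_lit 0) .nil .nil)))) (.nd (nat_lit 5) 
(.lf (nat_lit 197146) (.g (nat_lit 2824) (.e (nat_lit 65630) (nat_lit 14) (.e (nat_lit 401438) (nat_lit 9) (.e (nat_lit 426509) (nat_lit 27) (.e (nat_lit 336193) (nat_lit 12) (.e (nat_lit 385094) (nat_lit 49) (.e (nat_lit 778320) (nat_lit 4) .nil)))))) (.g (nat_lit 5) .nil .nil))) 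
(.lf (nat_lit 197178) (.g (nat_lit 722) (.e (nat_lit 65630) (nat_lit 14) (.e (nat_lit 401438) (nat_lit 9) (.e (nat_lit 426544) (nat_lit 30) (.e (nat_lit 368384) (nat_lit 0) .nil)))) .nil))))) (.nd (nat_lit 3) (.nd (nat_lit 4) (.nd (nat_lit 5) 
(.lf (nat_lit 197126) (.g (nat_lit 1951) (.e (nat_lit 65630) (nat_lit 14) (.e (nat_lit 401437) (nat_lit 9) (.e (nat_lit 426555) (nat_lit 32) (.e (nat_lit 376856) (nat_lit 21) .nil)))) .nil)) 
(.lf (nat_lit 197158) (.g (nat_lit 2070) (.e (nat_lit 65630) (nat_lit 14) (.e (nat_lit 401438) (nat_lit 9) (.e (nat_lit 426542) (nat_lit 29) (.e (nat_lit 352297) (nat_lit 20) (.e (nat_lit 7936) (nat_lit 137) (.e (nat_lit 663566) (nat_lit 4) .nil)))))) (.g (nat_lit 4) .nil .nil)))) (.nd (nat_lit 5) 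
(.lf (nat_lit 197142) (.g (nat_lit 1888) (.e (nat_lit 65630) (nat_lit 14) (.e (nat_lit 401438) (nat_lit 9) (.e (nat_lit 426484) (nat_lit 27) (.e (nat_lit 336206) (nat_lit 12) (.e (nat_lit 385094) (nat_lit 49) (.e (nat_lit 778320) (nat_lit 4) .nil)))))) (.g (nat_lit 4) .nil .nil))) 
(.lf (nat_lit 197174) (.g (nat_lit 362) (.e (nat_lit 65630) (nat_lit 14) (.e (nat_lit 401438) (nat_lit 9) (.e (nat_lit 426544) (nat_lit 30) .nil))) .nil)))) (.nd (nat_lit 4) (.nd (nat_lit 5) 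
(.lf (nat_lit 197134) (.g (nat_lit 637) (.e (nat_lit 65630) (nat_lit 14) (.e (nat_lit 401438) (nat_lit 9) (.e (nat_lit 426478) (nat_lit 27) .nil))) .nil)) 
(.lf (nat_lit 197166) (.g (nat_lit 3509) (.e (nat_lit 65630) (nat_lit 14) (.e (nat_lit 401438) (nat_lit 9) (.e (nat_lit 426542) (nat_lit 29) (.e (nat_lit 352309) (nat_lit 21) (.e (nat_lit 57873) (nat_lit 264) (.e (nat_lit 1190) (nat_lit 88) .nil)))))) (.g (nat_lit 6) .nil .nil)))) (.nd (nat_lit 5) 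
(.lf (nat_lit 197150) (.g (nat_lit 623) (.e (nat_lit 65630) (nat_lit 14) (.e (nat_lit 401438) (nat_lit 9) (.e (nat_lit 426539) (nat_lit 29) .nil))) .nil)) 
(.lf (nat_lit 197182) (.g (nat_lit 2700) (.e (nat_lit 65630) (nat_lit 14) (.e (nat_lit 401438) (nat_lit 9) (.e (nat_lit 426546) (nat_lit 30) (.e (nat_lit 360452) (nat_lit 0) (.e (nat_lit 5905) (nat_lit 320) (.e (nat_lit 1200) (nat_lit 88) .nil)))))) (.g (nat_lit 5) .nil .nil)))))))) (.nd (nat_lit 1) (.nd (nat_lit 2) (.nd (nat_lit 3) (.nd (nat_lit 4) (.nd (nat_lit 5) 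
(.lf (nat_lit 197121) (.g (nat_lit 395) (.e (nat_lit 65630) (nat_lit 14) (.e (nat_lit 401437) (nat_lit 9) (.e (nat_lit 426555) (nat_lit 32) .nil))) .nil)) 
(.lf (nat_lit 197153) (.g (nat_lit 869) (.e (nat_lit 65630) (nat_lit 14) (.e (nat_lit 401438) (nat_lit 9) (.e (nat_lit 426540) (nat_lit 29) (.e (nat_lit 352287) (nat_lit 20) .nil)))) .nil))) (.nd (nat_lit 5) 
(.lf (nat_lit 197137) (.g (nat_lit 3792) (.e (nat_lit 65630) (nat_lit 14) (.e (nat_lit 401438) (nat_lit 9) (.e (nat_lit 426482) (nat_lit 27) (.e (nat_lit 336193) (nat_lit 12) (.e (nat_lit 385093) (nat_lit 49) (.e (nat_lit 778320) (nat_lit 4) .nil)))))) (.g (nat_lit 5) .nil .nil))) 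
(.lf (nat_lit 197169) (.g (nat_lit 2507) (.e (nat_lit 65630) (nat_lit 14) (.e (nat_lit 401438) (nat_lit 9) (.e (nat_lit 426542) (nat_lit 29) (.e (nat_lit 352317) (nat_lit 24) (.e (nat_lit 123184) (nat_lit 264) (.e (nat_lit 1191) (nat_lit 88) .nil)))))) (.g (nat_lit 5) .nil .nil))))) (.nd (nat_lit 4) (.nd (nat_lit 5) 
(.lf (nat_lit 197129) (.g (nat_lit 1965) (.e (nat_lit 65630) (nat_lit 14) (.e (nat_lit 401437) (nat_lit 9) (.e (nat_lit 426555) (nat_lit 32) (.e (nat_lit 376858) (nat_lit 21) .nil)))) .nil)) 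
(.lf (nat_lit 197161) (.g (nat_lit 3377) (.e (nat_lit 65630) (nat_lit 14) (.e (nat_lit 401438) (nat_lit 9) (.e (nat_lit 426542) (nat_lit 29) (.e (nat_lit 352307) (nat_lit 21) (.e (nat_lit 57872) (nat_lit 264) (.e (nat_lit 1188) (nat_lit 88) .nil)))))) (.g (nat_lit 0) .nil .nil)))) (.nd (nat_lit 5) 
(.lf (nat_lit 197145) (.g (nat_lit 2912) (.e (nat_lit 65630) (nat_lit 14) (.e (nat_lit 401438) (nat_lit 9) (.e (nat_lit 426509) (nat_lit 27) (.e (nat_lit 336193) (nat_lit 12) (.e (nat_lit 385093) (nat_lit 49) (.e (nat_lit 778320) (nat_lit 4) .nil)))))) (.g (nat_lit 5) .nil .nil))) 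
(.lf (nat_lit 197177) (.g (nat_lit 3140) (.e (nat_lit 65630) (nat_lit 14) (.e (nat_lit 401438) (nat_lit 9) (.e (nat_lit 426544) (nat_lit 30) (.e (nat_lit 360457) (nat_lit 0) (.e (nat_lit 5818) (nat_lit 320) (.e (nat_lit 1201) (nat_lit 88) .nil)))))) (.g (nat_lit 0) .nil .nil)))))) (.nd (nat_lit 3) (.nd (nat_lit 4) (.nd (nat_lit 5) 
(.lf (nat_lit 197125) (.g (nat_lit 1817) (.e (nat_lit 65630) (nat_lit 14) (.e (nat_lit 401437) (nat_lit 9) (.e (nat_lit 426555) (nat_lit 32) (.e (nat_lit 376847) (nat_lit 20) .nil)))) .nil)) 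
(.lf (nat_lit 197157) (.g (nat_lit 767) (.e (nat_lit 65630) (nat_lit 14) (.e (nat_lit 401438) (nat_lit 9) (.e (nat_lit 426542) (nat_lit 29) (.e (nat_lit 352290) (nat_lit 20) .nil)))) .nil))) (.nd (nat_lit 5) 
(.lf (nat_lit 197141) (.g (nat_lit 4527) (.e (nat_lit 65630) (nat_lit 14) (.e (nat_lit 401438) (nat_lit 9) (.e (nat_lit 426482) (nat_lit 27) (.e (nat_lit 336205) (nat_lit 12) (.e (nat_lit 385093) (nat_lit 49) (.e (nat_lit 778320) (nat_lit 4) .nil)))))) (.g (nat_lit 0) .nil .nil))) 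
(.lf (nat_lit 197173) (.g (nat_lit 3118) (.e (nat_lit 65630) (nat_lit 14) (.e (nat_lit 401438) (nat_lit 9) (.e (nat_lit 426542) (nat_lit 29) (.e (nat_lit 352318) (nat_lit 24) (.e (nat_lit 123184) (nat_lit 264) (.e (nat_lit 1191) (nat_lit 88) .nil)))))) (.g (nat_lit 6) .nil .nil))))) (.nd (nat_lit 4) (.nd (nat_lit 5) 
(.lf (nat_lit 197133) (.g (nat_lit 629) (.e (nat_lit 65630) (nat_lit 14) (.e (nat_lit 401437) (nat_lit 9) (.e (nat_lit 426556) (nat_lit 32) .nil))) .nil)) 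
(.lf (nat_lit 197165) (.g (nat_lit 3419) (.e (nat_lit 65630) (nat_lit 14) (.e (nat_lit 401438) (nat_lit 9) (.e (nat_lit 426542) (nat_lit 29) (.e (nat_lit 352309) (nat_lit 21) (.e (nat_lit 57872) (nat_lit 264) (.e (nat_lit 1188) (nat_lit 88) .nil)))))) (.g (nat_lit 0) .nil .nil)))) (.nd (nat_lit 5) 
(.lf (nat_lit 197149) (.g (nat_lit 733) (.e (nat_lit 65630) (nat_lit 14) (.e (nat_lit 401438) (nat_lit 9) (.e (nat_lit 426538) (nat_lit 29) (.e (nat_lit 352318) (nat_lit 24) .nil)))) .nil)) 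
(.lf (nat_lit 197181) (.g (nat_lit 2704) (.e (nat_lit 65630) (nat_lit 14) (.e (nat_lit 401438) (nat_lit 9) (.e (nat_lit 426546) (nat_lit 30) (.e (nat_lit 360452) (nat_lit 0) (.e (nat_lit 5905) (nat_lit 320) (.e (nat_lit 1189) (nat_lit 88) .nil)))))) (.g (nat_lit 5) .nil .nil))))))) (.nd (nat_lit 2) (.nd (nat_lit 3) (.nd (nat_lit 4) (.nd (nat_lit 5) 
(.lf (nat_lit 197123) (.g (nat_lit 1965) (.e (nat_lit 65630) (nat_lit 14) (.e (nat_lit 401437) (nat_lit 9) (.e (nat_lit 426555) (nat_lit 32) (.e (nat_lit 376836) (nat_lit 0) .nil)))) .nil)) 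
(.lf (nat_lit 197155) (.g (nat_lit 2120) (.e (nat_lit 65630) (nat_lit 14) (.e (nat_lit 401438) (nat_lit 9) (.e (nat_lit 426542) (nat_lit 29) (.e (nat_lit 352264) (nat_lit 0) (.e (nat_lit 3714) (nat_lit 227) (.e (nat_lit 786176) (nat_lit 4) .nil)))))) (.g (nat_lit 5) .nil .nil)))) (.nd (nat_lit 5) 
(.lf (nat_lit 197139) (.g (nat_lit 3177) (.e (nat_lit 65630) (nat_lit 14) (.e (nat_lit 401438) (nat_lit 9) (.e (nat_lit 426482) (nat_lit 27) (.e (nat_lit 336198) (nat_lit 12) (.e (nat_lit 385094) (nat_lit 49) (.e (nat_lit 778320) (nat_lit 4) .nil)))))) (.g (nat_lit 5) .nil .nil))) 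
(.lf (nat_lit 197171) (.g (nat_lit 4382) (.e (nat_lit 65630) (nat_lit 14) (.e (nat_lit 401438) (nat_lit 9) (.e (nat_lit 426542) (nat_lit 29) (.e (nat_lit 352318) (nat_lit 24) (.e (nat_lit 123182) (nat_lit 264) (.e (nat_lit 1201) (nat_lit 88) .nil)))))) (.g (nat_lit 0) .nil .nil))))) (.nd (nat_lit 4) (.nd (nat_lit 5) 
(.lf (nat_lit 197131) (.g (nat_lit 3341) (.e (nat_lit 65630) (nat_lit 14) (.e (nat_lit 401437) (nat_lit 9) (.e (nat_lit 426555) (nat_lit 32) (.e (nat_lit 376859) (nat_lit 21) (.e (nat_lit 57872) (nat_lit 264) (.e (nat_lit 1188) (nat_lit 88) .nil)))))) (.g (nat_lit 5) .nil .nil))) 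
(.lf (nat_lit 197163) (.g (nat_lit 2639) (.e (nat_lit 65630) (nat_lit 14) (.e (nat_lit 401438) (nat_lit 9) (.e (nat_lit 426542) (nat_lit 29) (.e (nat_lit 352309) (nat_lit 21) (.e (nat_lit 57871) (nat_lit 264) (.e (nat_lit 1189) (nat_lit 88) .nil)))))) (.g (nat_lit 5) .nil .nil)))) (.nd (nat_lit 5) 
(.lf (nat_lit 197147) (.g (nat_lit 1688) (.e (nat_lit 65630) (nat_lit 14) (.e (nat_lit 401438) (nat_lit 9) (.e (nat_lit 426509) (nat_lit 27) (.e (nat_lit 336200) (nat_lit 12) (.e (nat_lit 385094) (nat_lit 49) (.e (nat_lit 778320) (nat_lit 4) .nil)))))) (.g (nat_lit 4) .nil .nil))) 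
(.lf (nat_lit 197179) (.g (nat_lit 2436) (.e (nat_lit 65630) (nat_lit 14) (.e (nat_lit 401438) (nat_lit 9) (.e (nat_lit 426544) (nat_lit 30) (.e (nat_lit 360486) (nat_lit 18) (.e (nat_lit 671760) (nat_lit 4) .nil))))) (.g (nat_lit 0) .nil .nil)))))) (.nd (nat_lit 3) (.nd (nat_lit 4) (.nd (nat_lit 5) 
(.lf (nat_lit 197127) (.g (nat_lit 3206) (.e (nat_lit 65630) (nat_lit 14) (.e (nat_lit 401437) (nat_lit 9) (.e (nat_lit 426555) (nat_lit 32) (.e (nat_lit 376857) (nat_lit 21) (.e (nat_lit 57870) (nat_lit 264) (.e (nat_lit 1188) (nat_lit 88) .nil)))))) (.g (nat_lit 5) .nil .nil))) 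
(.lf (nat_lit 197159) (.g (nat_lit 3010) (.e (nat_lit 65630) (nat_lit 14) (.e (nat_lit 401438) (nat_lit 9) (.e (nat_lit 426542) (nat_lit 29) (.e (nat_lit 352307) (nat_lit 21) (.e (nat_lit 57870) (nat_lit 264) (.e (nat_lit 1188) (nat_lit 88) .nil)))))) (.g (nat_lit 0) .nil .nil)))) (.nd (nat_lit 5) 
(.lf (nat_lit 197143) (.g (nat_lit 2025) (.e (nat_lit 65630) (nat_lit 14) (.e (nat_lit 401438) (nat_lit 9) (.e (nat_lit 426484) (nat_lit 27) (.e (nat_lit 336208) (nat_lit 12) (.e (nat_lit 385094) (nat_lit 49) (.e (nat_lit 778320) (nat_lit 4) .nil)))))) (.g (nat_lit 4) .nil .nil))) 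
(.lf (nat_lit 197175) (.g (nat_lit 2448) (.e (nat_lit 65630) (nat_lit 14) (.e (nat_lit 401438) (nat_lit 9) (.e (nat_lit 426544) (nat_lit 30) (.e (nat_lit 360453) (nat_lit 0) (.e (nat_lit 5907) (nat_lit 320) (.e (nat_lit 1196) (nat_lit 88) .nil)))))) (.g (nat_lit 4) .nil .nil))))) (.nd (nat_lit 4) (.nd (nat_lit 5) 
(.lf (nat_lit 197135) (.g (nat_lit 1641) (.e (nat_lit 65630) (nat_lit 14) (.e (nat_lit 401438) (nat_lit 9) (.e (nat_lit 426482) (nat_lit 27) (.e (nat_lit 336102) (nat_lit 9) .nil)))) .nil)) 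
(.lf (nat_lit 197167) (.g (nat_lit 4371) (.e (nat_lit 65630) (nat_lit 14) (.e (nat_lit 401438) (nat_lit 9) (.e (nat_lit 426542) (nat_lit 29) (.e (nat_lit 352316) (nat_lit 24) (.e (nat_lit 123182) (nat_lit 264) (.e (nat_lit 1201) (nat_lit 88) .nil)))))) (.g (nat_lit 0) .nil .nil)))) (.nd (nat_lit 5) 
(.lf (nat_lit 197151) (.g (nat_lit 409) (.e (nat_lit 65630) (nat_lit 14) (.e (nat_lit 401438) (nat_lit 9) (.e (nat_lit 426540) (nat_lit 29) .nil))) .nil)) 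
(.lf (nat_lit 197183) (.g (nat_lit 1837) (.e (nat_lit 65630) (nat_lit 14) (.e (nat_lit 401438) (nat_lit 9) (.e (nat_lit 426546) (nat_lit 30) (.e (nat_lit 360452) (nat_lit 0) (.e (nat_lit 5906) (nat_lit 320) (.e (nat_lit 1188) (nat_lit 88) .nil)))))) (.g (nat_lit 4) .nil .nil)))))))))

noncomputable def tv2609 : DT := (.nd (nat_lit 0) (.nd (nat_lit 1) (.nd (nat_lit 2) (.nd (nat_lit 3) (.nd (nat_lit 4) (.nd (nat_lit 5) 
(.lf (nat_lit 197184) (.g (nat_lit 2299) (.e (nat_lit 65630) (nat_lit 14) (.e (nat_lit 401438) (nat_lit 9) (.e (nat_lit 426546) (nat_lit 30) (.e (nat_lit 360452) (nat_lit 0) (.e (nat_lit 5906) (nat_lit 320) (.e (nat_lit 1199) (nat_lit 88) .nil)))))) (.g (nat_lit 5) .nil .nil))) 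
(.lf (nat_lit 197216) (.g (nat_lit 1174) (.e (nat_lit 65630) (nat_lit 14) (.e (nat_lit 401454) (nat_lit 12) (.e (nat_lit 475152) (nat_lit 17) .nil))) .nil))) (.nd (nat_lit 5) 
(.lf (nat_lit 197200) (.g (nat_lit 514) (.e (nat_lit 65630) (nat_lit 14) (.e (nat_lit 401444) (nat_lit 9) (.e (nat_lit 426541) (nat_lit 29) .nil))) .nil)) 
(.lf (nat_lit 197232) (.g (nat_lit 3212) (.e (nat_lit 65630) (nat_lit 14) (.e (nat_lit 401454) (nat_lit 12) (.e (nat_lit 475193) (nat_lit 38) (.e (nat_lit 688182) (nat_lit 17) (.e (nat_lit 73759) (nat_lit 13) (.e (nat_lit 598038) (nat_lit 8) .nil)))))) (.g (nat_lit 0) .nil .nil))))) (.nd (nat_lit 4) (.nd (nat_lit 5) 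
(.lf (nat_lit 197192) (.g (nat_lit 1828) (.e (nat_lit 65630) (nat_lit 14) (.e (nat_lit 401438) (nat_lit 9) (.e (nat_lit 426555) (nat_lit 32) (.e (nat_lit 376843) (nat_lit 20) .nil)))) .nil)) 
(.lf (nat_lit 197224) (.g (nat_lit 1169) (.e (nat_lit 65630) (nat_lit 14) (.e (nat_lit 401454) (nat_lit 12) (.e (nat_lit 475162) (nat_lit 21) .nil))) .nil))) (.nd (nat_lit 5) 
(.lf (nat_lit 197208) (.g (nat_lit 1132) (.e (nat_lit 65630) (nat_lit 14) (.e (nat_lit 401454) (nat_lit 12) (.e (nat_lit 475141) (nat_lit 8) .nil))) .nil)) 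
(.lf (nat_lit 197240) (.g (nat_lit 3137) (.e (nat_lit 65630) (nat_lit 14) (.e (nat_lit 401454) (nat_lit 12) (.e (nat_lit 475212) (nat_lit 42) (.e (nat_lit 720956) (nat_lit 25) (.e (nat_lit 114712) (nat_lit 21) (.e (nat_lit 57665) (nat_lit 152) (.e (nat_lit 7936) (nat_lit 88) .nil))))))) (.g (nat_lit 6) .nil .nil)))))) (.nd (nat_lit 3) (.nd (nat_lit 4) (.nd (nat_lit 5) 
(.lf (nat_lit 197188) (.g (nat_lit 2772) (.e (nat_lit 65630) (nat_lit 14) (.e (nat_lit 401438) (nat_lit 9) (.e (nat_lit 426546) (nat_lit 30) (.e (nat_lit 360456) (nat_lit 0) (.e (nat_lit 5818) (nat_lit 320) (.e (nat_lit 1201) (nat_lit 88) .nil)))))) (.g (nat_lit 0) .nil .nil))) 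
(.lf (nat_lit 197220) (.g (nat_lit 1080) (.e (nat_lit 65630) (nat_lit 14) (.e (nat_lit 401454) (nat_lit 12) (.e (nat_lit 475156) (nat_lit 21) .nil))) .nil))) (.nd (nat_lit 5) 
(.lf (nat_lit 197204) (.g (nat_lit 2208) (.e (nat_lit 65630) (nat_lit 14) (.e (nat_lit 401453) (nat_lit 12) (.e (nat_lit 475214) (nat_lit 42) (.e (nat_lit 720955) (nat_lit 25) .nil)))) .nil)) 
(.lf (nat_lit 197236) (.g (nat_lit 516) (.e (nat_lit 65630) (nat_lit 14) (.e (nat_lit 401454) (nat_lit 12) (.e (nat_lit 475212) (nat_lit 42) .nil))) .nil)))) (.nd (nat_lit 4) (.nd (nat_lit 5) 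
(.lf (nat_lit 197196) (.g (nat_lit 2421) (.e (nat_lit 65630) (nat_lit 14) (.e (nat_lit 401438) (nat_lit 9) (.e (nat_lit 426555) (nat_lit 32) (.e (nat_lit 376859) (nat_lit 21) (.e (nat_lit 57871) (nat_lit 264) (.e (nat_lit 1188) (nat_lit 88) .nil)))))) (.g (nat_lit 4) .nil .nil))) 
(.lf (nat_lit 197228) (.g (nat_lit 1128) (.e (nat_lit 65630) (nat_lit 14) (.e (nat_lit 401454) (nat_lit 12) (.e (nat_lit 475163) (nat_lit 21) (.e (nat_lit 6407) (nat_lit 340) (.e (nat_lit 122913) (nat_lit 13) .nil))))) .nil))) (.nd (nat_lit 5) 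
(.lf (nat_lit 197212) (.g (nat_lit 511) (.e (nat_lit 65630) (nat_lit 14) (.e (nat_lit 401454) (nat_lit 12) (.e (nat_lit 483072) (nat_lit 15) .nil))) .nil)) 
(.lf (nat_lit 197244) (.g (nat_lit 716) (.e (nat_lit 65630) (nat_lit 14) (.e (nat_lit 401454) (nat_lit 12) (.e (nat_lit 475214) (nat_lit 42) .nil))) .nil)))))) (.nd (nat_lit 2) (.nd (nat_lit 3) (.nd (nat_lit 4) (.nd (nat_lit 5) 
(.lf (nat_lit 197186) (.g (nat_lit 3275) (.e (nat_lit 65630) (nat_lit 14) (.e (nat_lit 401438) (nat_lit 9) (.e (nat_lit 426546) (nat_lit 30) (.e (nat_lit 360452) (nat_lit 0) (.e (nat_lit 5907) (nat_lit 320) (.e (nat_lit 1190) (nat_lit 88) .nil)))))) (.g (nat_lit 6) .nil .nil))) 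
(.lf (nat_lit 197218) (.g (nat_lit 1088) (.e (nat_lit 65630) (nat_lit 14) (.e (nat_lit 401454) (nat_lit 12) (.e (nat_lit 475154) (nat_lit 20) .nil))) .nil))) (.nd (nat_lit 5) 
(.lf (nat_lit 197202) (.g (nat_lit 1984) (.e (nat_lit 65630) (nat_lit 14) (.e (nat_lit 401452) (nat_lit 12) (.e (nat_lit 475214) (nat_lit 42) (.e (nat_lit 720955) (nat_lit 25) .nil)))) .nil)) 
(.lf (nat_lit 197234) (.g (nat_lit 990) (.e (nat_lit 65630) (nat_lit 14) (.e (nat_lit 401454) (nat_lit 12) (.e (nat_lit 475194) (nat_lit 39) .nil))) .nil)))) (.nd (nat_lit 4) (.nd (nat_lit 5) 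
(.lf (nat_lit 197194) (.g (nat_lit 3455) (.e (nat_lit 65630) (nat_lit 14) (.e (nat_lit 401438) (nat_lit 9) (.e (nat_lit 426555) (nat_lit 32) (.e (nat_lit 376857) (nat_lit 21) (.e (nat_lit 57870) (nat_lit 264) (.e (nat_lit 1189) (nat_lit 88) .nil)))))) (.g (nat_lit 5) .nil .nil))) 
(.lf (nat_lit 197226) (.g (nat_lit 1399) (.e (nat_lit 65630) (nat_lit 14) (.e (nat_lit 401454) (nat_lit 12) (.e (nat_lit 475162) (nat_lit 21) (.e (nat_lit 6381) (nat_lit 338) .nil)))) .nil))) (.nd (nat_lit 5) 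
(.lf (nat_lit 197210) (.g (nat_lit 511) (.e (nat_lit 65630) (nat_lit 14) (.e (nat_lit 401454) (nat_lit 12) (.e (nat_lit 483072) (nat_lit 8) .nil))) .nil)) 
(.lf (nat_lit 197242) (.g (nat_lit 3875) (.e (nat_lit 65630) (nat_lit 14) (.e (nat_lit 401454) (nat_lit 12) (.e (nat_lit 475213) (nat_lit 42) (.e (nat_lit 720956) (nat_lit 25) (.e (nat_lit 114711) (nat_lit 21) (.e (nat_lit 57654) (nat_lit 152) (.e (nat_lit 1203) (nat_lit 88) .nil))))))) (.g (nat_lit 5) .nil .nil)))))) (.nd (nat_lit 3) (.nd (nat_lit 4) (.nd (nat_lit 5) 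
(.lf (nat_lit 197190) (.g (nat_lit 637) (.e (nat_lit 65630) (nat_lit 14) (.e (nat_lit 401438) (nat_lit 9) (.e (nat_lit 426553) (nat_lit 32) .nil))) .nil)) 
(.lf (nat_lit 197222) (.g (nat_lit 1174) (.e (nat_lit 65630) (nat_lit 14) (.e (nat_lit 401454) (nat_lit 12) (.e (nat_lit 475160) (nat_lit 21) .nil))) .nil))) (.nd (nat_lit 5) 
(.lf (nat_lit 197206) (.g (nat_lit 1169) (.e (nat_lit 65630) (nat_lit 14) (.e (nat_lit 401454) (nat_lit 12) (.e (nat_lit 475140) (nat_lit 0) .nil))) .nil)) 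
(.lf (nat_lit 197238) (.g (nat_lit 3716) (.e (nat_lit 65630) (nat_lit 14) (.e (nat_lit 401454) (nat_lit 12) (.e (nat_lit 475212) (nat_lit 42) (.e (nat_lit 720956) (nat_lit 25) (.e (nat_lit 114711) (nat_lit 21) (.e (nat_lit 57651) (nat_lit 152) (.e (nat_lit 1203) (nat_lit 88) .nil))))))) (.g (nat_lit 5) .nil .nil))))) (.nd (nat_lit 4) (.nd (nat_lit 5) 
(.lf (nat_lit 197198) (.g (nat_lit 3259) (.e (nat_lit 65630) (nat_lit 14) (.e (nat_lit 401438) (nat_lit 9) (.e (nat_lit 426555) (nat_lit 32) (.e (nat_lit 376860) (nat_lit 21) (.e (nat_lit 57870) (nat_lit 264) (.e (nat_lit 1189) (nat_lit 88) .nil)))))) (.g (nat_lit 4) .nil .nil))) 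
(.lf (nat_lit 197230) (.g (nat_lit 895) (.e (nat_lit 65630) (nat_lit 14) (.e (nat_lit 401454) (nat_lit 12) (.e (nat_lit 475192) (nat_lit 37) .nil))) .nil))) (.nd (nat_lit 5) 
(.lf (nat_lit 197214) (.g (nat_lit 3025) (.e (nat_lit 65630) (nat_lit 14) (.e (nat_lit 401454) (nat_lit 12) (.e (nat_lit 475144) (nat_lit 16) (.e (nat_lit 2777) (nat_lit 178) (.e (nat_lit 286731) (nat_lit 1) (.e (nat_lit 57871) (nat_lit 264) (.e (nat_lit 1188) (nat_lit 88) .nil))))))) (.g (nat_lit 4) .nil .nil))) 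
(.lf (nat_lit 197246) (.g (nat_lit 4363) (.e (nat_lit 65630) (nat_lit 14) (.e (nat_lit 401454) (nat_lit 12) (.e (nat_lit 475214) (nat_lit 42) (.e (nat_lit 720955) (nat_lit 25) (.e (nat_lit 114712) (nat_lit 21) (.e (nat_lit 57651) (nat_lit 152) (.e (nat_lit 1203) (nat_lit 88) .nil))))))) (.g (nat_lit 6) .nil .nil)))))))) 
(.nd (nat_lit 1) (.nd (nat_lit 2) (.nd (nat_lit 3) (.nd (nat_lit 4) (.nd (nat_lit 5) 
(.lf (nat_lit 197185) (.g (nat_lit 3224) (.e (nat_lit 65630) (nat_lit 14) (.e (nat_lit 401438) (nat_lit 9) (.e (nat_lit 426546) (nat_lit 30) (.e (nat_lit 360452) (nat_lit 0) (.e (nat_lit 5907) (nat_lit 320) (.e (nat_lit 1188) (nat_lit 88) .nil)))))) (.g (nat_lit 0) .nil .nil))) 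
(.lf (nat_lit 197217) (.g (nat_lit 1403) (.e (nat_lit 65630) (nat_lit 14) (.e (nat_lit 401454) (nat_lit 12) (.e (nat_lit 475152) (nat_lit 17) (.e (nat_lit 57582) (nat_lit 61) .nil)))) .nil))) (.nd (nat_lit 5) 
(.lf (nat_lit 197201) (.g (nat_lit 693) (.e (nat_lit 65630) (nat_lit 14) (.e (nat_lit 401452) (nat_lit 12) (.e (nat_lit 475143) (nat_lit 8) (.e (nat_lit 1532) (nat_lit 109) .nil)))) .nil)) 
(.lf (nat_lit 197233) (.g (nat_lit 2920) (.e (nat_lit 65630) (nat_lit 14) (.e (nat_lit 401454) (nat_lit 12) (.e (nat_lit 475193) (nat_lit 38) (.e (nat_lit 688182) (nat_lit 17) (.e (nat_lit 73759) (nat_lit 13) (.e (nat_lit 598039) (nat_lit 8) .nil)))))) (.g (nat_lit 0) .nil .nil))))) (.nd (nat_lit 4) (.nd (nat_lit 5) 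
(.lf (nat_lit 197193) (.g (nat_lit 3356) (.e (nat_lit 65630) (nat_lit 14) (.e (nat_lit 401438) (nat_lit 9) (.e (nat_lit 426555) (nat_lit 32) (.e (nat_lit 376857) (nat_lit 21) (.e (nat_lit 57870) (nat_lit 264) (.e (nat_lit 1188) (nat_lit 88) .nil)))))) (.g (nat_lit 5) .nil .nil))) 
(.lf (nat_lit 197225) (.g (nat_lit 1399) (.e (nat_lit 65630) (nat_lit 14) (.e (nat_lit 401454) (nat_lit 12) (.e (nat_lit 475162) (nat_lit 21) (.e (nat_lit 6286) (nat_lit 337) .nil)))) .nil))) (.nd (nat_lit 5) 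
(.lf (nat_lit 197209) (.g (nat_lit 697) (.e (nat_lit 65630) (nat_lit 14) (.e (nat_lit 401454) (nat_lit 12) (.e (nat_lit 475142) (nat_lit 8) .nil))) .nil)) 
(.lf (nat_lit 197241) (.g (nat_lit 993) (.e (nat_lit 65630) (nat_lit 14) (.e (nat_lit 401454) (nat_lit 12) (.e (nat_lit 475213) (nat_lit 42) .nil))) .nil))))) (.nd (nat_lit 3) (.nd (nat_lit 4) (.nd (nat_lit 5) 
(.lf (nat_lit 197189) (.g (nat_lit 2419) (.e (nat_lit 65630) (nat_lit 14) (.e (nat_lit 401438) (nat_lit 9) (.e (nat_lit 426546) (nat_lit 30) (.e (nat_lit 360486) (nat_lit 18) (.e (nat_lit 671760) (nat_lit 4) .nil))))) (.g (nat_lit 0) .nil .nil))) 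
(.lf (nat_lit 197221) (.g (nat_lit 737) (.e (nat_lit 65630) (nat_lit 14) (.e (nat_lit 401454) (nat_lit 12) (.e (nat_lit 475157) (nat_lit 21) .nil))) .nil))) (.nd (nat_lit 5) 
(.lf (nat_lit 197205) (.g (nat_lit 1843) (.e (nat_lit 65630) (nat_lit 14) (.e (nat_lit 401453) (nat_lit 12) (.e (nat_lit 475214) (nat_lit 42) (.e (nat_lit 720956) (nat_lit 25) .nil)))) .nil)) 
(.lf (nat_lit 197237) (.g (nat_lit 2704) (.e (nat_lit 65630) (nat_lit 14) (.e (nat_lit 401454) (nat_lit 12) (.e (nat_lit 475212) (nat_lit 42) (.e (nat_lit 720955) (nat_lit 25) (.e (nat_lit 114712) (nat_lit 21) (.e (nat_lit 57665) (nat_lit 152) (.e (nat_lit 7936) (nat_lit 88) .nil))))))) (.g (nat_lit 4) .nil .nil))))) (.nd (nat_lit 4) (.nd (nat_lit 5) 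
(.lf (nat_lit 197197) (.g (nat_lit 3083) (.e (nat_lit 65630) (nat_lit 14) (.e (nat_lit 401438) (nat_lit 9) (.e (nat_lit 426555) (nat_lit 32) (.e (nat_lit 376860) (nat_lit 21) (.e (nat_lit 57868) (nat_lit 264) (.e (nat_lit 1197) (nat_lit 88) .nil)))))) (.g (nat_lit 4) .nil .nil))) 
(.lf (nat_lit 197229) (.g (nat_lit 1098) (.e (nat_lit 65630) (nat_lit 14) (.e (nat_lit 401454) (nat_lit 12) (.e (nat_lit 475188) (nat_lit 33) .nil))) .nil))) (.nd (nat_lit 5) 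
(.lf (nat_lit 197213) (.g (nat_lit 1065) (.e (nat_lit 65630) (nat_lit 14) (.e (nat_lit 401454) (nat_lit 12) (.e (nat_lit 475144) (nat_lit 16) .nil))) .nil)) 
(.lf (nat_lit 197245) (.g (nat_lit 1910) (.e (nat_lit 65630) (nat_lit 14) (.e (nat_lit 401454) (nat_lit 12) (.e (nat_lit 475214) (nat_lit 42) (.e (nat_lit 720955) (nat_lit 25) .nil)))) .nil)))))) (.nd (nat_lit 2) (.nd (nat_lit 3) (.nd (nat_lit 4) (.nd (nat_lit 5) 
(.lf (nat_lit 197187) (.g (nat_lit 2010) (.e (nat_lit 65630) (nat_lit 14) (.e (nat_lit 401438) (nat_lit 9) (.e (nat_lit 426546) (nat_lit 30) (.e (nat_lit 360456) (nat_lit 0) (.e (nat_lit 5818) (nat_lit 320) (.e (nat_lit 1191) (nat_lit 88) .nil)))))) (.g (nat_lit 5) .nil .nil))) 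
(.lf (nat_lit 197219) (.g (nat_lit 778) (.e (nat_lit 65630) (nat_lit 14) (.e (nat_lit 401454) (nat_lit 12) (.e (nat_lit 475155) (nat_lit 21) .nil))) .nil))) (.nd (nat_lit 5) 
(.lf (nat_lit 197203) (.g (nat_lit 1501) (.e (nat_lit 65630) (nat_lit 14) (.e (nat_lit 401452) (nat_lit 12) (.e (nat_lit 475214) (nat_lit 42) (.e (nat_lit 720956) (nat_lit 25) .nil)))) .nil)) 
(.lf (nat_lit 197235) (.g (nat_lit 1097) (.e (nat_lit 65630) (nat_lit 14) (.e (nat_lit 401454) (nat_lit 12) (.e (nat_lit 475209) (nat_lit 41) (.e (nat_lit 712730) (nat_lit 19) .nil)))) .nil)))) (.nd (nat_lit 4) (.nd (nat_lit 5) 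
(.lf (nat_lit 197195) (.g (nat_lit 3348) (.e (nat_lit 65630) (nat_lit 14) (.e (nat_lit 401438) (nat_lit 9) (.e (nat_lit 426555) (nat_lit 32) (.e (nat_lit 376859) (nat_lit 21) (.e (nat_lit 57870) (nat_lit 264) (.e (nat_lit 1189) (nat_lit 88) .nil)))))) (.g (nat_lit 5) .nil .nil))) 
(.lf (nat_lit 197227) (.g (nat_lit 932) (.e (nat_lit 65630) (nat_lit 14) (.e (nat_lit 401454) (nat_lit 12) (.e (nat_lit 475163) (nat_lit 21) .nil))) .nil))) (.nd (nat_lit 5) 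
(.lf (nat_lit 197211) (.g (nat_lit 511) (.e (nat_lit 65630) (nat_lit 14) (.e (nat_lit 401454) (nat_lit 12) (.e (nat_lit 483072) (nat_lit 13) .nil))) .nil)) 
(.lf (nat_lit 197243) (.g (nat_lit 3493) (.e (nat_lit 65630) (nat_lit 14) (.e (nat_lit 401454) (nat_lit 12) (.e (nat_lit 475213) (nat_lit 42) (.e (nat_lit 720956) (nat_lit 25) (.e (nat_lit 114712) (nat_lit 21) (.e (nat_lit 57665) (nat_lit 152) (.e (nat_lit 7936) (nat_lit 88) .nil))))))) (.g (nat_lit 6) .nil .nil)))))) (.nd (nat_lit 3) (.nd (nat_lit 4) (.nd (nat_lit 5) 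
(.lf (nat_lit 197191) (.g (nat_lit 478) (.e (nat_lit 65630) (nat_lit 14) (.e (nat_lit 401438) (nat_lit 9) (.e (nat_lit 426555) (nat_lit 32) .nil))) .nil)) 
(.lf (nat_lit 197223) (.g (nat_lit 1174) (.e (nat_lit 65630) (nat_lit 14) (.e (nat_lit 401454) (nat_lit 12) (.e (nat_lit 475161) (nat_lit 21) .nil))) .nil))) (.nd (nat_lit 5) 
(.lf (nat_lit 197207) (.g (nat_lit 511) (.e (nat_lit 65630) (nat_lit 14) (.e (nat_lit 401454) (nat_lit 12) (.e (nat_lit 483072) (nat_lit 1) .nil))) .nil)) 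
(.lf (nat_lit 197239) (.g (nat_lit 3518) (.e (nat_lit 65630) (nat_lit 14) (.e (nat_lit 401454) (nat_lit 12) (.e (nat_lit 475212) (nat_lit 42) (.e (nat_lit 720956) (nat_lit 25) (.e (nat_lit 114711) (nat_lit 21) (.e (nat_lit 57654) (nat_lit 152) (.e (nat_lit 1203) (nat_lit 88) .nil))))))) (.g (nat_lit 5) .nil .nil))))) (.nd (nat_lit 4) (.nd (nat_lit 5) 
(.lf (nat_lit 197199) (.g (nat_lit 1131) (.e (nat_lit 65630) (nat_lit 14) (.e (nat_lit 401438) (nat_lit 9) (.e (nat_lit 426556) (nat_lit 32) (.e (nat_lit 376859) (nat_lit 21) (.e (nat_lit 57872) (nat_lit 264) .nil))))) .nil)) 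
(.lf (nat_lit 197231) (.g (nat_lit 3100) (.e (nat_lit 65630) (nat_lit 14) (.e (nat_lit 401454) (nat_lit 12) (.e (nat_lit 475193) (nat_lit 38) (.e (nat_lit 688182) (nat_lit 17) (.e (nat_lit 73731) (nat_lit 0) (.e (nat_lit 4452) (nat_lit 263) (.e (nat_lit 1203) (nat_lit 88) .nil))))))) (.g (nat_lit 5) .nil .nil)))) (.nd (nat_lit 5) 
(.lf (nat_lit 197215) (.g (nat_lit 1187) (.e (nat_lit 65630) (nat_lit 14) (.e (nat_lit 401454) (nat_lit 12) (.e (nat_lit 475149) (nat_lit 16) .nil))) .nil)) 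
(.lf (nat_lit 197247) (.g (nat_lit 3920) (.e (nat_lit 65630) (nat_lit 14) (.e (nat_lit 401454) (nat_lit 12) (.e (nat_lit 475214) (nat_lit 42) (.e (nat_lit 720955) (nat_lit 25) (.e (nat_lit 114712) (nat_lit 21) (.e (nat_lit 57665) (nat_lit 152) (.e (nat_lit 7936) (nat_lit 88) .nil))))))) (.g (nat_lit 5) .nil .nil)))))))))

noncomputable def tv2610 : DT := (.nd (nat_lit 0) (.nd (nat_lit 1) (.nd (nat_lit 2) (.nd (nat_lit 3) (.nd (nat_lit 4) (.nd (nat_lit 5) (.nd (nat_lit 6) 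
(.lf (nat_lit 197248) (.g (nat_lit 1571) (.e (nat_lit 65630) (nat_lit 14) (.e (nat_lit 401454) (nat_lit 12) (.e (nat_lit 475214) (nat_lit 42) (.e (nat_lit 720956) (nat_lit 25) .nil)))) .nil)) 
(.lf (nat_lit 197312) (.g (nat_lit 995) (.e (nat_lit 65630) (nat_lit 14) (.e (nat_lit 401457) (nat_lit 13) (.e (nat_lit 483383) (nat_lit 23) (.e (nat_lit 335878) (nat_lit 0) .nil)))) .nil))) (.nd (nat_lit 6) 
(.lf (nat_lit 197280) (.g (nat_lit 1791) (.e (nat_lit 65630) (nat_lit 14) (.e (nat_lit 401456) (nat_lit 13) (.e (nat_lit 483394) (nat_lit 24) (.e (nat_lit 344097) (nat_lit 18) (.e (nat_lit 5906) (nat_lit 320) .nil))))) .nil)) 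
(.lf (nat_lit 197344) (.g (nat_lit 2082) (.e (nat_lit 65630) (nat_lit 14) (.e (nat_lit 401457) (nat_lit 13) (.e (nat_lit 483394) (nat_lit 24) (.e (nat_lit 344097) (nat_lit 18) (.e (nat_lit 5906) (nat_lit 320) .nil))))) .nil)))) (.nd (nat_lit 5) (.nd (nat_lit 6) 
(.lf (nat_lit 197264) (.g (nat_lit 1143) (.e (nat_lit 65630) (nat_lit 14) (.e (nat_lit 401456) (nat_lit 13) (.e (nat_lit 483387) (nat_lit 23) (.e (nat_lit 335997) (nat_lit 1) .nil)))) .nil)) 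
(.lf (nat_lit 197328) (.g (nat_lit 2080) (.e (nat_lit 65630) (nat_lit 14) (.e (nat_lit 401457) (nat_lit 13) (.e (nat_lit 483392) (nat_lit 23) (.e (nat_lit 335995) (nat_lit 1) (.e (nat_lit 57870) (nat_lit 264) .nil))))) .nil))) (.nd (nat_lit 6) 
(.lf (nat_lit 197296) (.g (nat_lit 1889) (.e (nat_lit 65630) (nat_lit 14) (.e (nat_lit 401456) (nat_lit 13) (.e (nat_lit 483403) (nat_lit 26) (.e (nat_lit 385100) (nat_lit 49) .nil)))) .nil)) 
(.lf (nat_lit 197360) (.g (nat_lit 2792) (.e (nat_lit 65630) (nat_lit 14) (.e (nat_lit 401457) (nat_lit 13) (.e (nat_lit 483406) (nat_lit 26) (.e (nat_lit 385091) (nat_lit 49) (.e (nat_lit 778320) (nat_lit 4) .nil))))) (.g (nat_lit 4) .nil .nil)))))) (.nd (nat_lit 4) (.nd (nat_lit 5) (.nd (nat_lit 6) 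
(.lf (nat_lit 197256) (.g (nat_lit 1959) (.e (nat_lit 65630) (nat_lit 14) (.e (nat_lit 401455) (nat_lit 13) (.e (nat_lit 483408) (nat_lit 26) (.e (nat_lit 385092) (nat_lit 49) (.e (nat_lit 778320) (nat_lit 4) .nil))))) (.g (nat_lit 4) .nil .nil))) 
(.lf (nat_lit 197320) (.g (nat_lit 814) (.e (nat_lit 65630) (nat_lit 14) (.e (nat_lit 401457) (nat_lit 13) (.e (nat_lit 483388) (nat_lit 23) .nil))) .nil))) (.nd (nat_lit 6) 
(.lf (nat_lit 197288) (.g (nat_lit 1677) (.e (nat_lit 65630) (nat_lit 14) (.e (nat_lit 401456) (nat_lit 13) (.e (nat_lit 483395) (nat_lit 24) (.e (nat_lit 344169) (nat_lit 40) (.e (nat_lit 671760) (nat_lit 4) .nil))))) (.g (nat_lit 4) .nil .nil))) 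
(.lf (nat_lit 197352) (.g (nat_lit 995) (.e (nat_lit 65630) (nat_lit 14) (.e (nat_lit 401457) (nat_lit 13) (.e (nat_lit 483400) (nat_lit 25) (.e (nat_lit 368664) (nat_lit 18) .nil)))) .nil)))) (.nd (nat_lit 5) (.nd (nat_lit 6) 
(.lf (nat_lit 197272) (.g (nat_lit 1462) (.e (nat_lit 65630) (nat_lit 14) (.e (nat_lit 401456) (nat_lit 13) (.e (nat_lit 483393) (nat_lit 23) (.e (nat_lit 335987) (nat_lit 1) .nil)))) .nil)) 
(.lf (nat_lit 197336) (.g (nat_lit 1152) (.e (nat_lit 65630) (nat_lit 14) (.e (nat_lit 401457) (nat_lit 13) (.e (nat_lit 483393) (nat_lit 23) (.e (nat_lit 335993) (nat_lit 1) .nil)))) .nil))) (.nd (nat_lit 6) 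
(.lf (nat_lit 197304) (.g (nat_lit 1374) (.e (nat_lit 65630) (nat_lit 14) (.e (nat_lit 401457) (nat_lit 13) (.e (nat_lit 483346) (nat_lit 17) (.e (nat_lit 6506) (nat_lit 344) .nil)))) .nil)) 
(.lf (nat_lit 197368) (.g (nat_lit 2919) (.e (nat_lit 65630) (nat_lit 14) (.e (nat_lit 401457) (nat_lit 13) (.e (nat_lit 483408) (nat_lit 26) (.e (nat_lit 385093) (nat_lit 49) (.e (nat_lit 778320) (nat_lit 4) .nil))))) (.g (nat_lit 5) .nil .nil))))))) (.nd (nat_lit 3) (.nd (nat_lit 4) (.nd (nat_lit 5) (.nd (nat_lit 6) 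
(.lf (nat_lit 197252) (.g (nat_lit 976) (.e (nat_lit 65630) (nat_lit 14) (.e (nat_lit 401454) (nat_lit 12) (.e (nat_lit 475218) (nat_lit 44) .nil))) .nil)) 
(.lf (nat_lit 197316) (.g (nat_lit 2355) (.e (nat_lit 65630) (nat_lit 14) (.e (nat_lit 401457) (nat_lit 13) (.e (nat_lit 483383) (nat_lit 23) (.e (nat_lit 336332) (nat_lit 19) (.e (nat_lit 220928) (nat_lit 4) .nil))))) (.g (nat_lit 4) .nil .nil)))) (.nd (nat_lit 6) 
(.lf (nat_lit 197284) (.g (nat_lit 2148) (.e (nat_lit 65630) (nat_lit 14) (.e (nat_lit 401456) (nat_lit 13) (.e (nat_lit 483395) (nat_lit 24) (.e (nat_lit 344090) (nat_lit 18) (.e (nat_lit 5896) (nat_lit 320) .nil))))) .nil)) 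
(.lf (nat_lit 197348) (.g (nat_lit 967) (.e (nat_lit 65630) (nat_lit 14) (.e (nat_lit 401457) (nat_lit 13) (.e (nat_lit 483398) (nat_lit 25) .nil))) .nil)))) (.nd (nat_lit 5) (.nd (nat_lit 6) 
(.lf (nat_lit 197268) (.g (nat_lit 686) (.e (nat_lit 65630) (nat_lit 14) (.e (nat_lit 401456) (nat_lit 13) (.e (nat_lit 483393) (nat_lit 23) .nil))) .nil)) 
(.lf (nat_lit 197332) (.g (nat_lit 2305) (.e (nat_lit 65630) (nat_lit 14) (.e (nat_lit 401457) (nat_lit 13) (.e (nat_lit 483393) (nat_lit 23) (.e (nat_lit 335986) (nat_lit 1) (.e (nat_lit 57873) (nat_lit 264) (.e (nat_lit 1188) (nat_lit 88) .nil)))))) (.g (nat_lit 4) .nil .nil)))) (.nd (nat_lit 6) 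
(.lf (nat_lit 197300) (.g (nat_lit 2777) (.e (nat_lit 65630) (nat_lit 14) (.e (nat_lit 401457) (nat_lit 13) (.e (nat_lit 483346) (nat_lit 17) (.e (nat_lit 6203) (nat_lit 332) (.e (nat_lit 2544) (nat_lit 158) (.e (nat_lit 8439) (nat_lit 138) (.e (nat_lit 1188) (nat_lit 88) .nil))))))) (.g (nat_lit 4) .nil .nil))) 
(.lf (nat_lit 197364) (.g (nat_lit 2345) (.e (nat_lit 65630) (nat_lit 14) (.e (nat_lit 401457) (nat_lit 13) (.e (nat_lit 483406) (nat_lit 26) (.e (nat_lit 385099) (nat_lit 49) (.e (nat_lit 786176) (nat_lit 4) .nil))))) (.g (nat_lit 4) .nil .nil)))))) (.nd (nat_lit 4) (.nd (nat_lit 5) (.nd (nat_lit 6) 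
(.lf (nat_lit 197260) (.g (nat_lit 1102) (.e (nat_lit 65630) (nat_lit 14) (.e (nat_lit 401456) (nat_lit 13) (.e (nat_lit 483383) (nat_lit 23) (.e (nat_lit 336332) (nat_lit 19) .nil)))) .nil)) 
(.lf (nat_lit 197324) (.g (nat_lit 3041) (.e (nat_lit 65630) (nat_lit 14) (.e (nat_lit 401457) (nat_lit 13) (.e (nat_lit 483391) (nat_lit 23) (.e (nat_lit 335998) (nat_lit 1) (.e (nat_lit 57873) (nat_lit 264) (.e (nat_lit 1199) (nat_lit 88) .nil)))))) (.g (nat_lit 0) .nil .nil)))) (.nd (nat_lit 6) 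
(.lf (nat_lit 197292) (.g (nat_lit 1077) (.e (nat_lit 65630) (nat_lit 14) (.e (nat_lit 401456) (nat_lit 13) (.e (nat_lit 483399) (nat_lit 25) (.e (nat_lit 368662) (nat_lit 18) .nil)))) .nil)) 
(.lf (nat_lit 197356) (.g (nat_lit 1840) (.e (nat_lit 65630) (nat_lit 14) (.e (nat_lit 401457) (nat_lit 13) (.e (nat_lit 483405) (nat_lit 26) (.e (nat_lit 385091) (nat_lit 49) (.e (nat_lit 778320) (nat_lit 4) .nil))))) (.g (nat_lit 4) .nil .nil))))) (.nd (nat_lit 5) (.nd (nat_lit 6) 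
(.lf (nat_lit 197276) (.g (nat_lit 2361) (.e (nat_lit 65630) (nat_lit 14) (.e (nat_lit 401456) (nat_lit 13) (.e (nat_lit 483393) (nat_lit 23) (.e (nat_lit 335996) (nat_lit 1) (.e (nat_lit 57870) (nat_lit 264) .nil))))) .nil)) 
(.lf (nat_lit 197340) (.g (nat_lit 2500) (.e (nat_lit 65630) (nat_lit 14) (.e (nat_lit 401457) (nat_lit 13) (.e (nat_lit 483393) (nat_lit 23) (.e (nat_lit 335996) (nat_lit 1) (.e (nat_lit 57870) (nat_lit 264) (.e (nat_lit 1188) (nat_lit 88) .nil)))))) (.g (nat_lit 4) .nil .nil)))) (.nd (nat_lit 6) 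
(.lf (nat_lit 197308) (.g (nat_lit 2133) (.e (nat_lit 65630) (nat_lit 14) (.e (nat_lit 401457) (nat_lit 13) (.e (nat_lit 483378) (nat_lit 23) (.e (nat_lit 335997) (nat_lit 1) (.e (nat_lit 57870) (nat_lit 264) (.e (nat_lit 1188) (nat_lit 88) .nil)))))) (.g (nat_lit 4) .nil .nil))) 
(.lf (nat_lit 197372) (.g (nat_lit 1895) (.e (nat_lit 65630) (nat_lit 14) (.e (nat_lit 401457) (nat_lit 13) (.e (nat_lit 483413) (nat_lit 27) (.e (nat_lit 401418) (nat_lit 0) .nil)))) .nil))))))) (.nd (nat_lit 2) (.nd (nat_lit 3) (.nd (nat_lit 4) (.nd (nat_lit 5) (.nd (nat_lit 6) 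
(.lf (nat_lit 197250) (.g (nat_lit 3789) (.e (nat_lit 65630) (nat_lit 14) (.e (nat_lit 401454) (nat_lit 12) (.e (nat_lit 475214) (nat_lit 42) (.e (nat_lit 720956) (nat_lit 25) (.e (nat_lit 114712) (nat_lit 21) (.e (nat_lit 57665) (nat_lit 152) (.e (nat_lit 7936) (nat_lit 88) .nil))))))) (.g (nat_lit 6) .nil .nil))) 
(.lf (nat_lit 197314) (.g (nat_lit 2805) (.e (nat_lit 65630) (nat_lit 14) (.e (nat_lit 401457) (nat_lit 13) (.e (nat_lit 483383) (nat_lit 23) (.e (nat_lit 336000) (nat_lit 1) (.e (nat_lit 57873) (nat_lit 264) (.e (nat_lit 1190) (nat_lit 88) .nil)))))) (.g (nat_lit 5) .nil .nil)))) (.nd (nat_lit 6) 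
(.lf (nat_lit 197282) (.g (nat_lit 2712) (.e (nat_lit 65630) (nat_lit 14) (.e (nat_lit 401456) (nat_lit 13) (.e (nat_lit 483394) (nat_lit 24) (.e (nat_lit 344168) (nat_lit 40) (.e (nat_lit 671762) (nat_lit 4) .nil))))) (.g (nat_lit 5) .nil .nil))) 
(.lf (nat_lit 197346) (.g (nat_lit 2510) (.e (nat_lit 65630) (nat_lit 14) (.e (nat_lit 401457) (nat_lit 13) (.e (nat_lit 483395) (nat_lit 24) (.e (nat_lit 344090) (nat_lit 18) (.e (nat_lit 5896) (nat_lit 320) .nil))))) .nil)))) (.nd (nat_lit 5) (.nd (nat_lit 6) 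
(.lf (nat_lit 197266) (.g (nat_lit 671) (.e (nat_lit 65630) (nat_lit 14) (.e (nat_lit 401456) (nat_lit 13) (.e (nat_lit 483391) (nat_lit 23) .nil))) .nil)) 
(.lf (nat_lit 197330) (.g (nat_lit 2490) (.e (nat_lit 65630) (nat_lit 14) (.e (nat_lit 401457) (nat_lit 13) (.e (nat_lit 483392) (nat_lit 23) (.e (nat_lit 335996) (nat_lit 1) (.e (nat_lit 57870) (nat_lit 264) .nil))))) .nil))) (.nd (nat_lit 6) 
(.lf (nat_lit 197298) (.g (nat_lit 355) (.e (nat_lit 65630) (nat_lit 14) (.e (nat_lit 401457) (nat_lit 13) (.e (nat_lit 483346) (nat_lit 17) .nil))) .nil)) 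
(.lf (nat_lit 197362) (.g (nat_lit 3610) (.e (nat_lit 65630) (nat_lit 14) (.e (nat_lit 401457) (nat_lit 13) (.e (nat_lit 483406) (nat_lit 26) (.e (nat_lit 385093) (nat_lit 49) (.e (nat_lit 778320) (nat_lit 4) .nil))))) (.g (nat_lit 0) .nil .nil)))))) (.nd (nat_lit 4) (.nd (nat_lit 5) (.nd (nat_lit 6) 
(.lf (nat_lit 197258) (.g (nat_lit 2124) (.e (nat_lit 65630) (nat_lit 14) (.e (nat_lit 401456) (nat_lit 13) (.e (nat_lit 483378) (nat_lit 23) (.e (nat_lit 335997) (nat_lit 1) (.e (nat_lit 57872) (nat_lit 264) (.e (nat_lit 1188) (nat_lit 88) .nil)))))) (.g (nat_lit 4) .nil .nil))) 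
(.lf (nat_lit 197322) (.g (nat_lit 600) (.e (nat_lit 65630) (nat_lit 14) (.e (nat_lit 401457) (nat_lit 13) (.e (nat_lit 483391) (nat_lit 23) (.e (nat_lit 335998) (nat_lit 1) .nil)))) .nil))) (.nd (nat_lit 6) 
(.lf (nat_lit 197290) (.g (nat_lit 602) (.e (nat_lit 65630) (nat_lit 14) (.e (nat_lit 401456) (nat_lit 13) (.e (nat_lit 483396) (nat_lit 24) .nil))) .nil)) 
(.lf (nat_lit 197354) (.g (nat_lit 2275) (.e (nat_lit 65630) (nat_lit 14) (.e (nat_lit 401457) (nat_lit 13) (.e (nat_lit 483403) (nat_lit 26) (.e (nat_lit 385094) (nat_lit 49) (.e (nat_lit 778320) (nat_lit 4) .nil))))) (.g (nat_lit 4) .nil .nil))))) (.nd (nat_lit 5) (.nd (nat_lit 6) 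
(.lf (nat_lit 197274) (.g (nat_lit 1563) (.e (nat_lit 65630) (nat_lit 14) (.e (nat_lit 401456) (nat_lit 13) (.e (nat_lit 483393) (nat_lit 23) (.e (nat_lit 335995) (nat_lit 1) .nil)))) .nil)) 
(.lf (nat_lit 197338) (.g (nat_lit 2586) (.e (nat_lit 65630) (nat_lit 14) (.e (nat_lit 401457) (nat_lit 13) (.e (nat_lit 483393) (nat_lit 23) (.e (nat_lit 335995) (nat_lit 1) (.e (nat_lit 57870) (nat_lit 264) (.e (nat_lit 1199) (nat_lit 88) .nil)))))) (.g (nat_lit 4) .nil .nil)))) (.nd (nat_lit 6) 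
(.lf (nat_lit 197306) (.g (nat_lit 276) (.e (nat_lit 65630) (nat_lit 14) (.e (nat_lit 401457) (nat_lit 13) (.e (nat_lit 483377) (nat_lit 22) .nil))) .nil)) 
(.lf (nat_lit 197370) (.g (nat_lit 1834) (.e (nat_lit 65630) (nat_lit 14) (.e (nat_lit 401457) (nat_lit 13) (.e (nat_lit 483413) (nat_lit 27) (.e (nat_lit 401413) (nat_lit 0) .nil)))) .nil)))))) (.nd (nat_lit 3) (.nd (nat_lit 4) (.nd (nat_lit 5) (.nd (nat_lit 6) 
(.lf (nat_lit 197254) (.g (nat_lit 1289) (.e (nat_lit 65630) (nat_lit 14) (.e (nat_lit 401454) (nat_lit 12) (.e (nat_lit 475221) (nat_lit 45) (.e (nat_lit 745485) (nat_lit 2) .nil)))) .nil)) 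
(.lf (nat_lit 197318) (.g (nat_lit 702) (.e (nat_lit 65630) (nat_lit 14) (.e (nat_lit 401457) (nat_lit 13) (.e (nat_lit 483387) (nat_lit 23) .nil))) .nil))) (.nd (nat_lit 6) 
(.lf (nat_lit 197286) (.g (nat_lit 2149) (.e (nat_lit 65630) (nat_lit 14) (.e (nat_lit 401456) (nat_lit 13) (.e (nat_lit 483395) (nat_lit 24) (.e (nat_lit 344097) (nat_lit 18) (.e (nat_lit 5907) (nat_lit 320) (.e (nat_lit 1188) (nat_lit 88) .nil)))))) (.g (nat_lit 4) .nil .nil))) 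
(.lf (nat_lit 197350) (.g (nat_lit 868) (.e (nat_lit 65630) (nat_lit 14) (.e (nat_lit 401457) (nat_lit 13) (.e (nat_lit 483399) (nat_lit 25) .nil))) .nil)))) (.nd (nat_lit 5) (.nd (nat_lit 6) 
(.lf (nat_lit 197270) (.g (nat_lit 1398) (.e (nat_lit 65630) (nat_lit 14) (.e (nat_lit 401456) (nat_lit 13) (.e (nat_lit 483393) (nat_lit 23) (.e (nat_lit 335986) (nat_lit 1) .nil)))) .nil)) 
(.lf (nat_lit 197334) (.g (nat_lit 2504) (.e (nat_lit 65630) (nat_lit 14) (.e (nat_lit 401457) (nat_lit 13) (.e (nat_lit 483393) (nat_lit 23) (.e (nat_lit 335988) (nat_lit 1) (.e (nat_lit 57870) (nat_lit 264) (.e (nat_lit 1190) (nat_lit 88) .nil)))))) (.g (nat_lit 4) .nil .nil)))) (.nd (nat_lit 6) 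
(.lf (nat_lit 197302) (.g (nat_lit 1556) (.e (nat_lit 65630) (nat_lit 14) (.e (nat_lit 401457) (nat_lit 13) (.e (nat_lit 483346) (nat_lit 17) (.e (nat_lit 6445) (nat_lit 343) .nil)))) .nil)) 
(.lf (nat_lit 197366) (.g (nat_lit 2569) (.e (nat_lit 65630) (nat_lit 14) (.e (nat_lit 401457) (nat_lit 13) (.e (nat_lit 483407) (nat_lit 26) (.e (nat_lit 385094) (nat_lit 49) (.e (nat_lit 778320) (nat_lit 4) .nil))))) (.g (nat_lit 0) .nil .nil)))))) (.nd (nat_lit 4) (.nd (nat_lit 5) (.nd (nat_lit 6) 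
(.lf (nat_lit 197262) (.g (nat_lit 1641) (.e (nat_lit 65630) (nat_lit 14) (.e (nat_lit 401456) (nat_lit 13) (.e (nat_lit 483386) (nat_lit 23) (.e (nat_lit 336295) (nat_lit 15) .nil)))) .nil)) 
(.lf (nat_lit 197326) (.g (nat_lit 1060) (.e (nat_lit 65630) (nat_lit 14) (.e (nat_lit 401457) (nat_lit 13) (.e (nat_lit 483392) (nat_lit 23) .nil))) .nil))) (.nd (nat_lit 6) 
(.lf (nat_lit 197294) (.g (nat_lit 577) (.e (nat_lit 65630) (nat_lit 14) (.e (nat_lit 401456) (nat_lit 13) (.e (nat_lit 483402) (nat_lit 26) .nil))) .nil)) 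
(.lf (nat_lit 197358) (.g (nat_lit 2290) (.e (nat_lit 65630) (nat_lit 14) (.e (nat_lit 401457) (nat_lit 13) (.e (nat_lit 483405) (nat_lit 26) (.e (nat_lit 385100) (nat_lit 49) (.e (nat_lit 786176) (nat_lit 4) .nil))))) (.g (nat_lit 4) .nil .nil))))) (.nd (nat_lit 5) (.nd (nat_lit 6) 
(.lf (nat_lit 197278) (.g (nat_lit 1944) (.e (nat_lit 65630) (nat_lit 14) (.e (nat_lit 401456) (nat_lit 13) (.e (nat_lit 483394) (nat_lit 24) (.e (nat_lit 344090) (nat_lit 18) (.e (nat_lit 5896) (nat_lit 320) .nil))))) .nil)) 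
(.lf (nat_lit 197342) (.g (nat_lit 2824) (.e (nat_lit 65630) (nat_lit 14) (.e (nat_lit 401457) (nat_lit 13) (.e (nat_lit 483393) (nat_lit 23) (.e (nat_lit 335996) (nat_lit 1) (.e (nat_lit 57870) (nat_lit 264) (.e (nat_lit 1200) (nat_lit 88) .nil)))))) (.g (nat_lit 4) .nil .nil)))) (.nd (nat_lit 6) 
(.lf (nat_lit 197310) (.g (nat_lit 984) (.e (nat_lit 65630) (nat_lit 14) (.e (nat_lit 401457) (nat_lit 13) (.e (nat_lit 483381) (nat_lit 23) .nil))) .nil)) 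
(.lf (nat_lit 197374) (.g (nat_lit 1616) (.e (nat_lit 65630) (nat_lit 14) (.e (nat_lit 401457) (nat_lit 13) (.e (nat_lit 483413) (nat_lit 27) (.e (nat_lit 401421) (nat_lit 1) .nil)))) .nil)))))))) (.nd (nat_lit 1) (.nd (nat_lit 2) (.nd (nat_lit 3) (.nd (nat_lit 4) (.nd (nat_lit 5) (.nd (nat_lit 6) 
(.lf (nat_lit 197249) (.g (nat_lit 4226) (.e (nat_lit 65630) (nat_lit 14) (.e (nat_lit 401454) (nat_lit 12) (.e (nat_lit 475214) (nat_lit 42) (.e (nat_lit 720956) (nat_lit 25) (.e (nat_lit 114711) (nat_lit 21) (.e (nat_lit 57654) (nat_lit 152) (.e (nat_lit 1203) (nat_lit 88) .nil))))))) (.g (nat_lit 5) .nil .nil))) 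
(.lf (nat_lit 197313) (.g (nat_lit 2264) (.e (nat_lit 65630) (nat_lit 14) (.e (nat_lit 401457) (nat_lit 13) (.e (nat_lit 483383) (nat_lit 23) (.e (nat_lit 336000) (nat_lit 1) (.e (nat_lit 57873) (nat_lit 264) (.e (nat_lit 1188) (nat_lit 88) .nil)))))) (.g (nat_lit 4) .nil .nil)))) (.nd (nat_lit 6) 
(.lf (nat_lit 197281) (.g (nat_lit 1754) (.e (nat_lit 65630) (nat_lit 14) (.e (nat_lit 401456) (nat_lit 13) (.e (nat_lit 483394) (nat_lit 24) (.e (nat_lit 344097) (nat_lit 18) (.e (nat_lit 5907) (nat_lit 320) .nil))))) .nil)) 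
(.lf (nat_lit 197345) (.g (nat_lit 2057) (.e (nat_lit 65630) (nat_lit 14) (.e (nat_lit 401457) (nat_lit 13) (.e (nat_lit 483394) (nat_lit 24) (.e (nat_lit 344097) (nat_lit 18) (.e (nat_lit 5907) (nat_lit 320) .nil))))) .nil)))) (.nd (nat_lit 5) (.nd (nat_lit 6) 
(.lf (nat_lit 197265) (.g (nat_lit 814) (.e (nat_lit 65630) (nat_lit 14) (.e (nat_lit 401456) (nat_lit 13) (.e (nat_lit 483389) (nat_lit 23) .nil))) .nil)) 
(.lf (nat_lit 197329) (.g (nat_lit 2844) (.e (nat_lit 65630) (nat_lit 14) (.e (nat_lit 401457) (nat_lit 13) (.e (nat_lit 483392) (nat_lit 23) (.e (nat_lit 335995) (nat_lit 1) (.e (nat_lit 57872) (nat_lit 264) (.e (nat_lit 1200) (nat_lit 88) .nil)))))) (.g (nat_lit 4) .nil .nil)))) (.nd (nat_lit 6) 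
(.lf (nat_lit 197297) (.g (nat_lit 1924) (.e (nat_lit 65630) (nat_lit 14) (.e (nat_lit 401456) (nat_lit 13) (.e (nat_lit 483406) (nat_lit 26) (.e (nat_lit 385092) (nat_lit 49) .nil)))) .nil)) 
(.lf (nat_lit 197361) (.g (nat_lit 3184) (.e (nat_lit 65630) (nat_lit 14) (.e (nat_lit 401457) (nat_lit 13) (.e (nat_lit 483406) (nat_lit 26) (.e (nat_lit 385092) (nat_lit 49) (.e (nat_lit 778320) (nat_lit 4) .nil))))) (.g (nat_lit 5) .nil .nil)))))) (.nd (nat_lit 4) (.nd (nat_lit 5) (.nd (nat_lit 6) 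
(.lf (nat_lit 197257) (.g (nat_lit 564) (.e (nat_lit 65630) (nat_lit 14) (.e (nat_lit 401456) (nat_lit 13) (.e (nat_lit 483378) (nat_lit 23) .nil))) .nil)) 
(.lf (nat_lit 197321) (.g (nat_lit 704) (.e (nat_lit 65630) (nat_lit 14) (.e (nat_lit 401457) (nat_lit 13) (.e (nat_lit 483390) (nat_lit 23) .nil))) .nil))) (.nd (nat_lit 6) 
(.lf (nat_lit 197289) (.g (nat_lit 2857) (.e (nat_lit 65630) (nat_lit 14) (.e (nat_lit 401456) (nat_lit 13) (.e (nat_lit 483395) (nat_lit 24) (.e (nat_lit 344169) (nat_lit 40) (.e (nat_lit 671761) (nat_lit 4) .nil))))) (.g (nat_lit 5) .nil .nil))) 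
(.lf (nat_lit 197353) (.g (nat_lit 2991) (.e (nat_lit 65630) (nat_lit 14) (.e (nat_lit 401457) (nat_lit 13) (.e (nat_lit 483402) (nat_lit 26) (.e (nat_lit 385093) (nat_lit 49) (.e (nat_lit 778320) (nat_lit 4) .nil))))) (.g (nat_lit 0) .nil .nil))))) (.nd (nat_lit 5) (.nd (nat_lit 6) 
(.lf (nat_lit 197273) (.g (nat_lit 1433) (.e (nat_lit 65630) (nat_lit 14) (.e (nat_lit 401456) (nat_lit 13) (.e (nat_lit 483393) (nat_lit 23) (.e (nat_lit 335988) (nat_lit 1) .nil)))) .nil)) 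
(.lf (nat_lit 197337) (.g (nat_lit 1153) (.e (nat_lit 65630) (nat_lit 14) (.e (nat_lit 401457) (nat_lit 13) (.e (nat_lit 483393) (nat_lit 23) (.e (nat_lit 335994) (nat_lit 1) .nil)))) .nil))) (.nd (nat_lit 6) 
(.lf (nat_lit 197305) (.g (nat_lit 1507) (.e (nat_lit 65630) (nat_lit 14) (.e (nat_lit 401457) (nat_lit 13) (.e (nat_lit 483346) (nat_lit 17) (.e (nat_lit 6522) (nat_lit 349) .nil)))) .nil)) 
(.lf (nat_lit 197369) (.g (nat_lit 1631) (.e (nat_lit 65630) (nat_lit 14) (.e (nat_lit 401457) (nat_lit 13) (.e (nat_lit 483413) (nat_lit 27) (.e (nat_lit 401408) (nat_lit 0) .nil)))) .nil)))))) (.nd (nat_lit 3) (.nd (nat_lit 4) (.nd (nat_lit 5) (.nd (nat_lit 6) 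
(.lf (nat_lit 197253) (.g (nat_lit 811) (.e (nat_lit 65630) (nat_lit 14) (.e (nat_lit 401454) (nat_lit 12) (.e (nat_lit 475219) (nat_lit 44) .nil))) .nil)) 
(.lf (nat_lit 197317) (.g (nat_lit 1788) (.e (nat_lit 65630) (nat_lit 14) (.e (nat_lit 401457) (nat_lit 13) (.e (nat_lit 483385) (nat_lit 23) (.e (nat_lit 336332) (nat_lit 19) (.e (nat_lit 220928) (nat_lit 4) .nil))))) (.g (nat_lit 4) .nil .nil)))) (.nd (nat_lit 6) 
(.lf (nat_lit 197285) (.g (nat_lit 2297) (.e (nat_lit 65630) (nat_lit 14) (.e (nat_lit 401456) (nat_lit 13) (.e (nat_lit 483395) (nat_lit 24) (.e (nat_lit 344090) (nat_lit 18) (.e (nat_lit 5896) (nat_lit 320) (.e (nat_lit 7936) (nat_lit 88) .nil)))))) (.g (nat_lit 4) .nil .nil))) 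
(.lf (nat_lit 197349) (.g (nat_lit 1136) (.e (nat_lit 65630) (nat_lit 14) (.e (nat_lit 401457) (nat_lit 13) (.e (nat_lit 483398) (nat_lit 25) (.e (nat_lit 368662) (nat_lit 18) .nil)))) .nil)))) (.nd (nat_lit 5) (.nd (nat_lit 6) 
(.lf (nat_lit 197269) (.g (nat_lit 1521) (.e (nat_lit 65630) (nat_lit 14) (.e (nat_lit 401456) (nat_lit 13) (.e (nat_lit 483393) (nat_lit 23) (.e (nat_lit 335914) (nat_lit 0) .nil)))) .nil)) 
(.lf (nat_lit 197333) (.g (nat_lit 3024) (.e (nat_lit 65630) (nat_lit 14) (.e (nat_lit 401457) (nat_lit 13) (.e (nat_lit 483393) (nat_lit 23) (.e (nat_lit 335986) (nat_lit 1) (.e (nat_lit 57873) (nat_lit 264) (.e (nat_lit 1199) (nat_lit 88) .nil)))))) (.g (nat_lit 0) .nil .nil)))) (.nd (nat_lit 6) 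
(.lf (nat_lit 197301) (.g (nat_lit 1507) (.e (nat_lit 65630) (nat_lit 14) (.e (nat_lit 401457) (nat_lit 13) (.e (nat_lit 483346) (nat_lit 17) (.e (nat_lit 6434) (nat_lit 343) .nil)))) .nil)) 
(.lf (nat_lit 197365) (.g (nat_lit 2199) (.e (nat_lit 65630) (nat_lit 14) (.e (nat_lit 401457) (nat_lit 13) (.e (nat_lit 483407) (nat_lit 26) (.e (nat_lit 385093) (nat_lit 49) (.e (nat_lit 778320) (nat_lit 4) .nil))))) (.g (nat_lit 4) .nil .nil)))))) (.nd (nat_lit 4) (.nd (nat_lit 5) (.nd (nat_lit 6) 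
(.lf (nat_lit 197261) (.g (nat_lit 653) (.e (nat_lit 65630) (nat_lit 14) (.e (nat_lit 401456) (nat_lit 13) (.e (nat_lit 483386) (nat_lit 23) .nil))) .nil)) 
(.lf (nat_lit 197325) (.g (nat_lit 1718) (.e (nat_lit 65630) (nat_lit 14) (.e (nat_lit 401457) (nat_lit 13) (.e (nat_lit 483391) (nat_lit 23) (.e (nat_lit 336331) (nat_lit 19) (.e (nat_lit 220928) (nat_lit 4) .nil))))) (.g (nat_lit 4) .nil .nil)))) (.nd (nat_lit 6) 
(.lf (nat_lit 197293) (.g (nat_lit 991) (.e (nat_lit 65630) (nat_lit 14) (.e (nat_lit 401456) (nat_lit 13) (.e (nat_lit 483401) (nat_lit 25) .nil))) .nil)) 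
(.lf (nat_lit 197357) (.g (nat_lit 2192) (.e (nat_lit 65630) (nat_lit 14) (.e (nat_lit 401457) (nat_lit 13) (.e (nat_lit 483405) (nat_lit 26) (.e (nat_lit 385093) (nat_lit 49) (.e (nat_lit 778320) (nat_lit 4) .nil))))) (.g (nat_lit 4) .nil .nil))))) (.nd (nat_lit 5) (.nd (nat_lit 6) 
(.lf (nat_lit 197277) (.g (nat_lit 444) (.e (nat_lit 65630) (nat_lit 14) (.e (nat_lit 401456) (nat_lit 13) (.e (nat_lit 483394) (nat_lit 24) .nil))) .nil)) 
(.lf (nat_lit 197341) (.g (nat_lit 2829) (.e (nat_lit 65630) (nat_lit 14) (.e (nat_lit 401457) (nat_lit 13) (.e (nat_lit 483393) (nat_lit 23) (.e (nat_lit 335996) (nat_lit 1) (.e (nat_lit 57870) (nat_lit 264) (.e (nat_lit 1190) (nat_lit 88) .nil)))))) (.g (nat_lit 4) .nil .nil)))) (.nd (nat_lit 6) 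
(.lf (nat_lit 197309) (.g (nat_lit 2261) (.e (nat_lit 65630) (nat_lit 14) (.e (nat_lit 401457) (nat_lit 13) (.e (nat_lit 483378) (nat_lit 23) (.e (nat_lit 335997) (nat_lit 1) (.e (nat_lit 57871) (nat_lit 264) (.e (nat_lit 1188) (nat_lit 88) .nil)))))) (.g (nat_lit 4) .nil .nil))) 
(.lf (nat_lit 197373) (.g (nat_lit 1554) (.e (nat_lit 65630) (nat_lit 14) (.e (nat_lit 401457) (nat_lit 13) (.e (nat_lit 483413) (nat_lit 27) (.e (nat_lit 401420) (nat_lit 1) .nil)))) .nil))))))) (.nd (nat_lit 2) (.nd (nat_lit 3) (.nd (nat_lit 4) (.nd (nat_lit 5) (.nd (nat_lit 6) 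
(.lf (nat_lit 197251) (.g (nat_lit 1174) (.e (nat_lit 65630) (nat_lit 14) (.e (nat_lit 401454) (nat_lit 12) (.e (nat_lit 475217) (nat_lit 44) .nil))) .nil)) 
(.lf (nat_lit 197315) (.g (nat_lit 1755) (.e (nat_lit 65630) (nat_lit 14) (.e (nat_lit 401457) (nat_lit 13) (.e (nat_lit 483383) (nat_lit 23) (.e (nat_lit 336029) (nat_lit 4) .nil)))) .nil))) (.nd (nat_lit 6) 
(.lf (nat_lit 197283) (.g (nat_lit 482) (.e (nat_lit 65630) (nat_lit 14) (.e (nat_lit 401456) (nat_lit 13) (.e (nat_lit 483395) (nat_lit 24) .nil))) .nil)) 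
(.lf (nat_lit 197347) (.g (nat_lit 1403) (.e (nat_lit 65630) (nat_lit 14) (.e (nat_lit 401457) (nat_lit 13) (.e (nat_lit 483395) (nat_lit 24) (.e (nat_lit 344097) (nat_lit 18) .nil)))) .nil)))) (.nd (nat_lit 5) (.nd (nat_lit 6) 
(.lf (nat_lit 197267) (.g (nat_lit 1514) (.e (nat_lit 65630) (nat_lit 14) (.e (nat_lit 401456) (nat_lit 13) (.e (nat_lit 483392) (nat_lit 23) (.e (nat_lit 335995) (nat_lit 1) .nil)))) .nil)) 
(.lf (nat_lit 197331) (.g (nat_lit 450) (.e (nat_lit 65630) (nat_lit 14) (.e (nat_lit 401457) (nat_lit 13) (.e (nat_lit 483393) (nat_lit 23) .nil))) .nil))) (.nd (nat_lit 6) 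
(.lf (nat_lit 197299) (.g (nat_lit 1495) (.e (nat_lit 65630) (nat_lit 14) (.e (nat_lit 401457) (nat_lit 13) (.e (nat_lit 483346) (nat_lit 17) (.e (nat_lit 6203) (nat_lit 332) .nil)))) .nil)) 
(.lf (nat_lit 197363) (.g (nat_lit 2136) (.e (nat_lit 65630) (nat_lit 14) (.e (nat_lit 401457) (nat_lit 13) (.e (nat_lit 483406) (nat_lit 26) (.e (nat_lit 385096) (nat_lit 49) (.e (nat_lit 786176) (nat_lit 4) .nil))))) (.g (nat_lit 4) .nil .nil)))))) (.nd (nat_lit 4) (.nd (nat_lit 5) (.nd (nat_lit 6) 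
(.lf (nat_lit 197259) (.g (nat_lit 1138) (.e (nat_lit 65630) (nat_lit 14) (.e (nat_lit 401456) (nat_lit 13) (.e (nat_lit 483378) (nat_lit 23) (.e (nat_lit 336032) (nat_lit 4) .nil)))) .nil)) 
(.lf (nat_lit 197323) (.g (nat_lit 2571) (.e (nat_lit 65630) (nat_lit 14) (.e (nat_lit 401457) (nat_lit 13) (.e (nat_lit 483391) (nat_lit 23) (.e (nat_lit 335998) (nat_lit 1) (.e (nat_lit 57873) (nat_lit 264) (.e (nat_lit 1188) (nat_lit 88) .nil)))))) (.g (nat_lit 5) .nil .nil)))) (.nd (nat_lit 6) 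
(.lf (nat_lit 197291) (.g (nat_lit 820) (.e (nat_lit 65630) (nat_lit 14) (.e (nat_lit 401456) (nat_lit 13) (.e (nat_lit 483398) (nat_lit 25) .nil))) .nil)) 
(.lf (nat_lit 197355) (.g (nat_lit 979) (.e (nat_lit 65630) (nat_lit 14) (.e (nat_lit 401457) (nat_lit 13) (.e (nat_lit 483404) (nat_lit 26) .nil))) .nil)))) (.nd (nat_lit 5) (.nd (nat_lit 6) 
(.lf (nat_lit 197275) (.g (nat_lit 2350) (.e (nat_lit 65630) (nat_lit 14) (.e (nat_lit 401456) (nat_lit 13) (.e (nat_lit 483393) (nat_lit 23) (.e (nat_lit 335995) (nat_lit 1) (.e (nat_lit 57872) (nat_lit 264) .nil))))) .nil)) 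
(.lf (nat_lit 197339) (.g (nat_lit 2692) (.e (nat_lit 65630) (nat_lit 14) (.e (nat_lit 401457) (nat_lit 13) (.e (nat_lit 483393) (nat_lit 23) (.e (nat_lit 335995) (nat_lit 1) (.e (nat_lit 57872) (nat_lit 264) (.e (nat_lit 1188) (nat_lit 88) .nil)))))) (.g (nat_lit 4) .nil .nil)))) (.nd (nat_lit 6) 
(.lf (nat_lit 197307) (.g (nat_lit 731) (.e (nat_lit 65630) (nat_lit 14) (.e (nat_lit 401457) (nat_lit 13) (.e (nat_lit 483377) (nat_lit 22) (.e (nat_lit 327680) (nat_lit 0) .nil)))) .nil)) 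
(.lf (nat_lit 197371) (.g (nat_lit 1496) (.e (nat_lit 65630) (nat_lit 14) (.e (nat_lit 401457) (nat_lit 13) (.e (nat_lit 483413) (nat_lit 27) (.e (nat_lit 401414) (nat_lit 0) .nil)))) .nil)))))) (.nd (nat_lit 3) (.nd (nat_lit 4) (.nd (nat_lit 5) (.nd (nat_lit 6) 
(.lf (nat_lit 197255) (.g (nat_lit 1668) (.e (nat_lit 65630) (nat_lit 14) (.e (nat_lit 401455) (nat_lit 13) (.e (nat_lit 483405) (nat_lit 26) (.e (nat_lit 385100) (nat_lit 49) (.e (nat_lit 786176) (nat_lit 4) .nil))))) (.g (nat_lit 4) .nil .nil))) 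
(.lf (nat_lit 197319) (.g (nat_lit 916) (.e (nat_lit 65630) (nat_lit 14) (.e (nat_lit 401457) (nat_lit 13) (.e (nat_lit 483387) (nat_lit 23) (.e (nat_lit 335924) (nat_lit 0) .nil)))) .nil))) (.nd (nat_lit 6) 
(.lf (nat_lit 197287) (.g (nat_lit 2896) (.e (nat_lit 65630) (nat_lit 14) (.e (nat_lit 401456) (nat_lit 13) (.e (nat_lit 483395) (nat_lit 24) (.e (nat_lit 344168) (nat_lit 40) (.e (nat_lit 671761) (nat_lit 4) .nil))))) (.g (nat_lit 4) .nil .nil))) 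
(.lf (nat_lit 197351) (.g (nat_lit 825) (.e (nat_lit 65630) (nat_lit 14) (.e (nat_lit 401457) (nat_lit 13) (.e (nat_lit 483400) (nat_lit 25) .nil))) .nil)))) (.nd (nat_lit 5) (.nd (nat_lit 6) 
(.lf (nat_lit 197271) (.g (nat_lit 1974) (.e (nat_lit 65630) (nat_lit 14) (.e (nat_lit 401456) (nat_lit 13) (.e (nat_lit 483393) (nat_lit 23) (.e (nat_lit 335986) (nat_lit 1) (.e (nat_lit 57873) (nat_lit 264) .nil))))) .nil)) 
(.lf (nat_lit 197335) (.g (nat_lit 2475) (.e (nat_lit 65630) (nat_lit 14) (.e (nat_lit 401457) (nat_lit 13) (.e (nat_lit 483393) (nat_lit 23) (.e (nat_lit 335988) (nat_lit 1) (.e (nat_lit 57870) (nat_lit 264) (.e (nat_lit 1200) (nat_lit 88) .nil)))))) (.g (nat_lit 4) .nil .nil)))) (.nd (nat_lit 6) 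
(.lf (nat_lit 197303) (.g (nat_lit 2665) (.e (nat_lit 65630) (nat_lit 14) (.e (nat_lit 401457) (nat_lit 13) (.e (nat_lit 483346) (nat_lit 17) (.e (nat_lit 6445) (nat_lit 343) (.e (nat_lit 182) (nat_lit 13) (.e (nat_lit 220928) (nat_lit 4) .nil)))))) (.g (nat_lit 4) .nil .nil))) 
(.lf (nat_lit 197367) (.g (nat_lit 2383) (.e (nat_lit 65630) (nat_lit 14) (.e (nat_lit 401457) (nat_lit 13) (.e (nat_lit 483408) (nat_lit 26) (.e (nat_lit 385092) (nat_lit 49) (.e (nat_lit 778320) (nat_lit 4) .nil))))) (.g (nat_lit 5) .nil .nil)))))) (.nd (nat_lit 4) (.nd (nat_lit 5) (.nd (nat_lit 6) 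
(.lf (nat_lit 197263) (.g (nat_lit 660) (.e (nat_lit 65630) (nat_lit 14) (.e (nat_lit 401456) (nat_lit 13) (.e (nat_lit 483387) (nat_lit 23) .nil))) .nil)) 
(.lf (nat_lit 197327) (.g (nat_lit 1263) (.e (nat_lit 65630) (nat_lit 14) (.e (nat_lit 401457) (nat_lit 13) (.e (nat_lit 483392) (nat_lit 23) (.e (nat_lit 335906) (nat_lit 0) .nil)))) .nil))) (.nd (nat_lit 6) 
(.lf (nat_lit 197295) (.g (nat_lit 1235) (.e (nat_lit 65630) (nat_lit 14) (.e (nat_lit 401456) (nat_lit 13) (.e (nat_lit 483402) (nat_lit 26) (.e (nat_lit 385094) (nat_lit 49) .nil)))) .nil)) 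
(.lf (nat_lit 197359) (.g (nat_lit 1078) (.e (nat_lit 65630) (nat_lit 14) (.e (nat_lit 401457) (nat_lit 13) (.e (nat_lit 483405) (nat_lit 26) (.e (nat_lit 392960) (nat_lit 49) .nil)))) .nil)))) (.nd (nat_lit 5) (.nd (nat_lit 6) 
(.lf (nat_lit 197279) (.g (nat_lit 1835) (.e (nat_lit 65630) (nat_lit 14) (.e (nat_lit 401456) (nat_lit 13) (.e (nat_lit 483394) (nat_lit 24) (.e (nat_lit 344097) (nat_lit 18) (.e (nat_lit 5905) (nat_lit 320) .nil))))) .nil)) 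
(.lf (nat_lit 197343) (.g (nat_lit 2116) (.e (nat_lit 65630) (nat_lit 14) (.e (nat_lit 401457) (nat_lit 13) (.e (nat_lit 483394) (nat_lit 24) (.e (nat_lit 344097) (nat_lit 18) (.e (nat_lit 5905) (nat_lit 320) .nil))))) .nil))) (.nd (nat_lit 6) 
(.lf (nat_lit 197311) (.g (nat_lit 547) (.e (nat_lit 65630) (nat_lit 14) (.e (nat_lit 401457) (nat_lit 13) (.e (nat_lit 483382) (nat_lit 23) .nil))) .nil)) 
(.lf (nat_lit 197375) (.g (nat_lit 1975) (.e (nat_lit 65630) (nat_lit 14) (.e (nat_lit 401457) (nat_lit 13) (.e (nat_lit 483413) (nat_lit 27) (.e (nat_lit 401429) (nat_lit 4) .nil)))) .nil)))))))))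

noncomputable def tv2611 : DT := (.nd (nat_lit 0) (.nd (nat_lit 1) (.nd (nat_lit 2) (.nd (nat_lit 3) (.nd (nat_lit 4) (.nd (nat_lit 5) (.nd (nat_lit 6) 
(.lf (nat_lit 197376) (.g (nat_lit 3356) (.e (nat_lit 65630) (nat_lit 14) (.e (nat_lit 401457) (nat_lit 13) (.e (nat_lit 483413) (nat_lit 27) (.e (nat_lit 401461) (nat_lit 15) (.e (nat_lit 2303) (nat_lit 151) (.e (nat_lit 786176) (nat_lit 4) .nil)))))) (.g (nat_lit 5) .nil .nil))) 
(.lf (nat_lit 197440) (.g (nat_lit 426) (.e (nat_lit 65630) (nat_lit 14) (.e (nat_lit 401458) (nat_lit 13) (.e (nat_lit 483395) (nat_lit 24) .nil))) .nil))) (.nd (nat_lit 6) 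
(.lf (nat_lit 197408) (.g (nat_lit 2287) (.e (nat_lit 65630) (nat_lit 14) (.e (nat_lit 401458) (nat_lit 13) (.e (nat_lit 483387) (nat_lit 23) (.e (nat_lit 335997) (nat_lit 1) (.e (nat_lit 57870) (nat_lit 264) (.e (nat_lit 1189) (nat_lit 88) .nil)))))) (.g (nat_lit 4) .nil .nil))) 
(.lf (nat_lit 197472) (.g (nat_lit 480) (.e (nat_lit 65630) (nat_lit 14) (.e (nat_lit 401458) (nat_lit 13) (.e (nat_lit 491264) (nat_lit 26) .nil))) .nil)))) (.nd (nat_lit 5) (.nd (nat_lit 6) 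
(.lf (nat_lit 197392) (.g (nat_lit 1749) (.e (nat_lit 65630) (nat_lit 14) (.e (nat_lit 401458) (nat_lit 13) (.e (nat_lit 483379) (nat_lit 23) (.e (nat_lit 336330) (nat_lit 19) (.e (nat_lit 220928) (nat_lit 4) .nil))))) (.g (nat_lit 4) .nil .nil))) 
(.lf (nat_lit 197456) (.g (nat_lit 1913) (.e (nat_lit 65630) (nat_lit 14) (.e (nat_lit 401458) (nat_lit 13) (.e (nat_lit 483396) (nat_lit 24) (.e (nat_lit 344168) (nat_lit 40) (.e (nat_lit 671760) (nat_lit 4) .nil))))) (.g (nat_lit 4) .nil .nil)))) (.nd (nat_lit 6) 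
(.lf (nat_lit 197424) (.g (nat_lit 2592) (.e (nat_lit 65630) (nat_lit 14) (.e (nat_lit 401458) (nat_lit 13) (.e (nat_lit 483393) (nat_lit 23) (.e (nat_lit 335988) (nat_lit 1) (.e (nat_lit 57870) (nat_lit 264) (.e (nat_lit 1189) (nat_lit 88) .nil)))))) (.g (nat_lit 4) .nil .nil))) 
(.lf (nat_lit 197488) (.g (nat_lit 2802) (.e (nat_lit 65630) (nat_lit 14) (.e (nat_lit 401459) (nat_lit 13) (.e (nat_lit 483344) (nat_lit 17) (.e (nat_lit 6434) (nat_lit 343) (.e (nat_lit 1004) (nat_lit 81) (.e (nat_lit 1994) (nat_lit 137) (.e (nat_lit 663566) (nat_lit 4) .nil))))))) (.g (nat_lit 4) .nil .nil)))))) (.nd (nat_lit 4) (.nd (nat_lit 5) (.nd (nat_lit 6) 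
(.lf (nat_lit 197384) (.g (nat_lit 1196) (.e (nat_lit 65630) (nat_lit 14) (.e (nat_lit 401458) (nat_lit 13) (.e (nat_lit 483350) (nat_lit 17) (.e (nat_lit 6113) (nat_lit 332) .nil)))) .nil)) 
(.lf (nat_lit 197448) (.g (nat_lit 2623) (.e (nat_lit 65630) (nat_lit 14) (.e (nat_lit 401458) (nat_lit 13) (.e (nat_lit 483395) (nat_lit 24) (.e (nat_lit 344169) (nat_lit 40) (.e (nat_lit 671760) (nat_lit 4) .nil))))) (.g (nat_lit 0) .nil .nil)))) (.nd (nat_lit 6) 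
(.lf (nat_lit 197416) (.g (nat_lit 2220) (.e (nat_lit 65630) (nat_lit 14) (.e (nat_lit 401458) (nat_lit 13) (.e (nat_lit 483392) (nat_lit 23) (.e (nat_lit 335995) (nat_lit 1) (.e (nat_lit 57872) (nat_lit 264) (.e (nat_lit 1199) (nat_lit 88) .nil)))))) (.g (nat_lit 4) .nil .nil))) 
(.lf (nat_lit 197480) (.g (nat_lit 2864) (.e (nat_lit 65630) (nat_lit 14) (.e (nat_lit 401459) (nat_lit 13) (.e (nat_lit 483344) (nat_lit 17) (.e (nat_lit 6079) (nat_lit 332) (.e (nat_lit 2542) (nat_lit 158) (.e (nat_lit 8433) (nat_lit 138) (.e (nat_lit 1191) (nat_lit 88) .nil))))))) (.g (nat_lit 4) .nil .nil))))) (.nd (nat_lit 5) (.nd (nat_lit 6) 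
(.lf (nat_lit 197400) (.g (nat_lit 1553) (.e (nat_lit 65630) (nat_lit 14) (.e (nat_lit 401458) (nat_lit 13) (.e (nat_lit 483383) (nat_lit 23) (.e (nat_lit 336029) (nat_lit 4) .nil)))) .nil)) 
(.lf (nat_lit 197464) (.g (nat_lit 1700) (.e (nat_lit 65630) (nat_lit 14) (.e (nat_lit 401458) (nat_lit 13) (.e (nat_lit 483402) (nat_lit 26) (.e (nat_lit 385094) (nat_lit 49) (.e (nat_lit 778320) (nat_lit 4) .nil))))) (.g (nat_lit 4) .nil .nil)))) (.nd (nat_lit 6) 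
(.lf (nat_lit 197432) (.g (nat_lit 1742) (.e (nat_lit 65630) (nat_lit 14) (.e (nat_lit 401458) (nat_lit 13) (.e (nat_lit 483394) (nat_lit 24) (.e (nat_lit 344091) (nat_lit 18) (.e (nat_lit 5875) (nat_lit 320) .nil))))) .nil)) 
(.lf (nat_lit 197496) (.g (nat_lit 2847) (.e (nat_lit 65630) (nat_lit 14) (.e (nat_lit 401459) (nat_lit 13) (.e (nat_lit 483344) (nat_lit 17) (.e (nat_lit 6440) (nat_lit 343) (.e (nat_lit 182) (nat_lit 13) (.e (nat_lit 220928) (nat_lit 4) .nil)))))) (.g (nat_lit 4) .nil .nil))))))) (.nd (nat_lit 3) (.nd (nat_lit 4) (.nd (nat_lit 5) (.nd (nat_lit 6) 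
(.lf (nat_lit 197380) (.g (nat_lit 1852) (.e (nat_lit 65630) (nat_lit 14) (.e (nat_lit 401457) (nat_lit 13) (.e (nat_lit 483413) (nat_lit 27) (.e (nat_lit 401465) (nat_lit 15) .nil)))) .nil)) 
(.lf (nat_lit 197444) (.g (nat_lit 2669) (.e (nat_lit 65630) (nat_lit 14) (.e (nat_lit 401458) (nat_lit 13) (.e (nat_lit 483395) (nat_lit 24) (.e (nat_lit 344097) (nat_lit 18) (.e (nat_lit 5905) (nat_lit 320) (.e (nat_lit 1199) (nat_lit 88) .nil)))))) (.g (nat_lit 5) .nil .nil)))) (.nd (nat_lit 6) 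
(.lf (nat_lit 197412) (.g (nat_lit 1712) (.e (nat_lit 65630) (nat_lit 14) (.e (nat_lit 401458) (nat_lit 13) (.e (nat_lit 483389) (nat_lit 23) (.e (nat_lit 335997) (nat_lit 1) (.e (nat_lit 57872) (nat_lit 264) (.e (nat_lit 1188) (nat_lit 88) .nil)))))) (.g (nat_lit 4) .nil .nil))) 
(.lf (nat_lit 197476) (.g (nat_lit 1136) (.e (nat_lit 65630) (nat_lit 14) (.e (nat_lit 401459) (nat_lit 13) (.e (nat_lit 483333) (nat_lit 0) (.e (nat_lit 7936) (nat_lit 222) .nil)))) .nil)))) (.nd (nat_lit 5) (.nd (nat_lit 6) 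
(.lf (nat_lit 197396) (.g (nat_lit 937) (.e (nat_lit 65630) (nat_lit 14) (.e (nat_lit 401458) (nat_lit 13) (.e (nat_lit 483383) (nat_lit 23) (.e (nat_lit 335878) (nat_lit 0) .nil)))) .nil)) 
(.lf (nat_lit 197460) (.g (nat_lit 1882) (.e (nat_lit 65630) (nat_lit 14) (.e (nat_lit 401458) (nat_lit 13) (.e (nat_lit 483399) (nat_lit 25) (.e (nat_lit 368662) (nat_lit 18) (.e (nat_lit 5905) (nat_lit 320) (.e (nat_lit 1188) (nat_lit 88) .nil)))))) (.g (nat_lit 4) .nil .nil)))) (.nd (nat_lit 6) 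
(.lf (nat_lit 197428) (.g (nat_lit 1756) (.e (nat_lit 65630) (nat_lit 14) (.e (nat_lit 401458) (nat_lit 13) (.e (nat_lit 483393) (nat_lit 23) (.e (nat_lit 335995) (nat_lit 1) (.e (nat_lit 57873) (nat_lit 264) .nil))))) .nil)) 
(.lf (nat_lit 197492) (.g (nat_lit 4073) (.e (nat_lit 65630) (nat_lit 14) (.e (nat_lit 401459) (nat_lit 13) (.e (nat_lit 483344) (nat_lit 17) (.e (nat_lit 6434) (nat_lit 343) (.e (nat_lit 1288) (nat_lit 95) (.e (nat_lit 123184) (nat_lit 264) (.e (nat_lit 1191) (nat_lit 88) .nil))))))) (.g (nat_lit 7) .nil .nil)))))) (.nd (nat_lit 4) (.nd (nat_lit 5) (.nd (nat_lit 6) 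
(.lf (nat_lit 197388) (.g (nat_lit 457) (.e (nat_lit 65630) (nat_lit 14) (.e (nat_lit 401458) (nat_lit 13) (.e (nat_lit 483372) (nat_lit 21) .nil))) .nil)) 
(.lf (nat_lit 197452) (.g (nat_lit 2698) (.e (nat_lit 65630) (nat_lit 14) (.e (nat_lit 401458) (nat_lit 13) (.e (nat_lit 483396) (nat_lit 24) (.e (nat_lit 344097) (nat_lit 18) (.e (nat_lit 5907) (nat_lit 320) (.e (nat_lit 1190) (nat_lit 88) .nil)))))) (.g (nat_lit 4) .nil .nil)))) (.nd (nat_lit 6) 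
(.lf (nat_lit 197420) (.g (nat_lit 2038) (.e (nat_lit 65630) (nat_lit 14) (.e (nat_lit 401458) (nat_lit 13) (.e (nat_lit 483393) (nat_lit 23) (.e (nat_lit 335986) (nat_lit 1) (.e (nat_lit 57872) (nat_lit 264) (.e (nat_lit 1200) (nat_lit 88) .nil)))))) (.g (nat_lit 4) .nil .nil))) 
(.lf (nat_lit 197484) (.g (nat_lit 3963) (.e (nat_lit 65630) (nat_lit 14) (.e (nat_lit 401459) (nat_lit 13) (.e (nat_lit 483344) (nat_lit 17) (.e (nat_lit 6152) (nat_lit 332) (.e (nat_lit 2545) (nat_lit 158) (.e (nat_lit 8435) (nat_lit 138) (.e (nat_lit 1194) (nat_lit 88) .nil))))))) (.g (nat_lit 6) .nil .nil))))) (.nd (nat_lit 5) (.nd (nat_lit 6) 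
(.lf (nat_lit 197404) (.g (nat_lit 2072) (.e (nat_lit 65630) (nat_lit 14) (.e (nat_lit 401458) (nat_lit 13) (.e (nat_lit 483383) (nat_lit 23) (.e (nat_lit 336357) (nat_lit 24) (.e (nat_lit 270080) (nat_lit 4) .nil))))) (.g (nat_lit 4) .nil .nil))) 
(.lf (nat_lit 197468) (.g (nat_lit 2761) (.e (nat_lit 65630) (nat_lit 14) (.e (nat_lit 401458) (nat_lit 13) (.e (nat_lit 483406) (nat_lit 26) (.e (nat_lit 385092) (nat_lit 49) (.e (nat_lit 778320) (nat_lit 4) .nil))))) (.g (nat_lit 5) .nil .nil)))) (.nd (nat_lit 6) 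
(.lf (nat_lit 197436) (.g (nat_lit 2089) (.e (nat_lit 65630) (nat_lit 14) (.e (nat_lit 401458) (nat_lit 13) (.e (nat_lit 483394) (nat_lit 24) (.e (nat_lit 344168) (nat_lit 40) (.e (nat_lit 671760) (nat_lit 4) .nil))))) (.g (nat_lit 5) .nil .nil))) 
(.lf (nat_lit 197500) (.g (nat_lit 3419) (.e (nat_lit 65630) (nat_lit 14) (.e (nat_lit 401459) (nat_lit 13) (.e (nat_lit 483344) (nat_lit 17) (.e (nat_lit 6445) (nat_lit 343) (.e (nat_lit 182) (nat_lit 13) (.e (nat_lit 220928) (nat_lit 4) .nil)))))) (.g (nat_lit 5) .nil .nil)))))))) (.nd (nat_lit 2) (.nd (nat_lit 3) (.nd (nat_lit 4) (.nd (nat_lit 5) (.nd (nat_lit 6) 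
(.lf (nat_lit 197378) (.g (nat_lit 1864) (.e (nat_lit 65630) (nat_lit 14) (.e (nat_lit 401457) (nat_lit 13) (.e (nat_lit 483413) (nat_lit 27) (.e (nat_lit 401463) (nat_lit 15) .nil)))) .nil)) 
(.lf (nat_lit 197442) (.g (nat_lit 2656) (.e (nat_lit 65630) (nat_lit 14) (.e (nat_lit 401458) (nat_lit 13) (.e (nat_lit 483395) (nat_lit 24) (.e (nat_lit 344097) (nat_lit 18) (.e (nat_lit 5905) (nat_lit 320) (.e (nat_lit 1189) (nat_lit 88) .nil)))))) (.g (nat_lit 4) .nil .nil)))) (.nd (nat_lit 6) 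
(.lf (nat_lit 197410) (.g (nat_lit 1703) (.e (nat_lit 65630) (nat_lit 14) (.e (nat_lit 401458) (nat_lit 13) (.e (nat_lit 483389) (nat_lit 23) (.e (nat_lit 335997) (nat_lit 1) (.e (nat_lit 57870) (nat_lit 264) (.e (nat_lit 1188) (nat_lit 88) .nil)))))) (.g (nat_lit 4) .nil .nil))) 
(.lf (nat_lit 197474) (.g (nat_lit 913) (.e (nat_lit 65630) (nat_lit 14) (.e (nat_lit 401459) (nat_lit 13) (.e (nat_lit 483331) (nat_lit 0) .nil))) .nil)))) (.nd (nat_lit 5) (.nd (nat_lit 6) 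
(.lf (nat_lit 197394) (.g (nat_lit 1992) (.e (nat_lit 65630) (nat_lit 14) (.e (nat_lit 401458) (nat_lit 13) (.e (nat_lit 483380) (nat_lit 23) (.e (nat_lit 336332) (nat_lit 19) (.e (nat_lit 220928) (nat_lit 4) .nil))))) (.g (nat_lit 4) .nil .nil))) 
(.lf (nat_lit 197458) (.g (nat_lit 2486) (.e (nat_lit 65630) (nat_lit 14) (.e (nat_lit 401458) (nat_lit 13) (.e (nat_lit 483396) (nat_lit 24) (.e (nat_lit 344169) (nat_lit 40) (.e (nat_lit 671761) (nat_lit 4) .nil))))) (.g (nat_lit 4) .nil .nil)))) (.nd (nat_lit 6) 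
(.lf (nat_lit 197426) (.g (nat_lit 2369) (.e (nat_lit 65630) (nat_lit 14) (.e (nat_lit 401458) (nat_lit 13) (.e (nat_lit 483393) (nat_lit 23) (.e (nat_lit 335995) (nat_lit 1) (.e (nat_lit 57870) (nat_lit 264) (.e (nat_lit 1188) (nat_lit 88) .nil)))))) (.g (nat_lit 4) .nil .nil))) 
(.lf (nat_lit 197490) (.g (nat_lit 3577) (.e (nat_lit 65630) (nat_lit 14) (.e (nat_lit 401459) (nat_lit 13) (.e (nat_lit 483344) (nat_lit 17) (.e (nat_lit 6434) (nat_lit 343) (.e (nat_lit 1183) (nat_lit 87) (.e (nat_lit 57871) (nat_lit 264) (.e (nat_lit 1189) (nat_lit 88) .nil))))))) (.g (nat_lit 4) .nil .nil)))))) (.nd (nat_lit 4) (.nd (nat_lit 5) (.nd (nat_lit 6) 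
(.lf (nat_lit 197386) (.g (nat_lit 1490) (.e (nat_lit 65630) (nat_lit 14) (.e (nat_lit 401458) (nat_lit 13) (.e (nat_lit 483350) (nat_lit 17) (.e (nat_lit 6490) (nat_lit 343) .nil)))) .nil)) 
(.lf (nat_lit 197450) (.g (nat_lit 1075) (.e (nat_lit 65630) (nat_lit 14) (.e (nat_lit 401458) (nat_lit 13) (.e (nat_lit 483396) (nat_lit 24) (.e (nat_lit 344091) (nat_lit 18) .nil)))) .nil))) (.nd (nat_lit 6) 
(.lf (nat_lit 197418) (.g (nat_lit 910) (.e (nat_lit 65630) (nat_lit 14) (.e (nat_lit 401458) (nat_lit 13) (.e (nat_lit 483393) (nat_lit 23) (.e (nat_lit 335897) (nat_lit 0) .nil)))) .nil)) 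
(.lf (nat_lit 197482) (.g (nat_lit 3011) (.e (nat_lit 65630) (nat_lit 14) (.e (nat_lit 401459) (nat_lit 13) (.e (nat_lit 483344) (nat_lit 17) (.e (nat_lit 6081) (nat_lit 332) (.e (nat_lit 2542) (nat_lit 158) (.e (nat_lit 8433) (nat_lit 138) (.e (nat_lit 1191) (nat_lit 88) .nil))))))) (.g (nat_lit 4) .nil .nil))))) (.nd (nat_lit 5) (.nd (nat_lit 6) 
(.lf (nat_lit 197402) (.g (nat_lit 2126) (.e (nat_lit 65630) (nat_lit 14) (.e (nat_lit 401458) (nat_lit 13) (.e (nat_lit 483383) (nat_lit 23) (.e (nat_lit 336330) (nat_lit 19) (.e (nat_lit 220928) (nat_lit 4) .nil))))) (.g (nat_lit 4) .nil .nil))) 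
(.lf (nat_lit 197466) (.g (nat_lit 2085) (.e (nat_lit 65630) (nat_lit 14) (.e (nat_lit 401458) (nat_lit 13) (.e (nat_lit 483403) (nat_lit 26) (.e (nat_lit 385093) (nat_lit 49) (.e (nat_lit 778320) (nat_lit 4) .nil))))) (.g (nat_lit 4) .nil .nil)))) (.nd (nat_lit 6) 
(.lf (nat_lit 197434) (.g (nat_lit 2838) (.e (nat_lit 65630) (nat_lit 14) (.e (nat_lit 401458) (nat_lit 13) (.e (nat_lit 483394) (nat_lit 24) (.e (nat_lit 344097) (nat_lit 18) (.e (nat_lit 5905) (nat_lit 320) (.e (nat_lit 1199) (nat_lit 88) .nil)))))) (.g (nat_lit 5) .nil .nil))) 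
(.lf (nat_lit 197498) (.g (nat_lit 3618) (.e (nat_lit 65630) (nat_lit 14) (.e (nat_lit 401459) (nat_lit 13) (.e (nat_lit 483344) (nat_lit 17) (.e (nat_lit 6440) (nat_lit 343) (.e (nat_lit 1288) (nat_lit 95) (.e (nat_lit 123184) (nat_lit 264) (.e (nat_lit 1191) (nat_lit 88) .nil))))))) (.g (nat_lit 7) .nil .nil))))))) (.nd (nat_lit 3) (.nd (nat_lit 4) (.nd (nat_lit 5) (.nd (nat_lit 6) 
(.lf (nat_lit 197382) (.g (nat_lit 3066) (.e (nat_lit 65630) (nat_lit 14) (.e (nat_lit 401457) (nat_lit 13) (.e (nat_lit 483413) (nat_lit 27) (.e (nat_lit 401465) (nat_lit 15) (.e (nat_lit 2338) (nat_lit 151) (.e (nat_lit 786176) (nat_lit 4) .nil)))))) (.g (nat_lit 5) .nil .nil))) 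
(.lf (nat_lit 197446) (.g (nat_lit 2290) (.e (nat_lit 65630) (nat_lit 14) (.e (nat_lit 401458) (nat_lit 13) (.e (nat_lit 483395) (nat_lit 24) (.e (nat_lit 344167) (nat_lit 40) (.e (nat_lit 671761) (nat_lit 4) .nil))))) (.g (nat_lit 4) .nil .nil)))) (.nd (nat_lit 6) 
(.lf (nat_lit 197414) (.g (nat_lit 1212) (.e (nat_lit 65630) (nat_lit 14) (.e (nat_lit 401458) (nat_lit 13) (.e (nat_lit 483391) (nat_lit 23) (.e (nat_lit 335998) (nat_lit 1) (.e (nat_lit 57872) (nat_lit 264) .nil))))) .nil)) 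
(.lf (nat_lit 197478) (.g (nat_lit 842) (.e (nat_lit 65630) (nat_lit 14) (.e (nat_lit 401459) (nat_lit 13) (.e (nat_lit 483335) (nat_lit 0) (.e (nat_lit 7936) (nat_lit 222) .nil)))) .nil)))) (.nd (nat_lit 5) (.nd (nat_lit 6) 
(.lf (nat_lit 197398) (.g (nat_lit 1420) (.e (nat_lit 65630) (nat_lit 14) (.e (nat_lit 401458) (nat_lit 13) (.e (nat_lit 483383) (nat_lit 23) (.e (nat_lit 335999) (nat_lit 1) .nil)))) .nil)) 
(.lf (nat_lit 197462) (.g (nat_lit 609) (.e (nat_lit 65630) (nat_lit 14) (.e (nat_lit 401458) (nat_lit 13) (.e (nat_lit 483400) (nat_lit 25) .nil))) .nil))) (.nd (nat_lit 6) 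
(.lf (nat_lit 197430) (.g (nat_lit 896) (.e (nat_lit 65630) (nat_lit 14) (.e (nat_lit 401458) (nat_lit 13) (.e (nat_lit 491264) (nat_lit 23) (.e (nat_lit 335995) (nat_lit 1) (.e (nat_lit 57870) (nat_lit 264) .nil))))) .nil)) 
(.lf (nat_lit 197494) (.g (nat_lit 4931) (.e (nat_lit 65630) (nat_lit 14) (.e (nat_lit 401459) (nat_lit 13) (.e (nat_lit 483344) (nat_lit 17) (.e (nat_lit 6436) (nat_lit 343) (.e (nat_lit 1183) (nat_lit 87) (.e (nat_lit 57871) (nat_lit 264) (.e (nat_lit 1189) (nat_lit 88) .nil))))))) (.g (nat_lit 6) .nil .nil)))))) (.nd (nat_lit 4) (.nd (nat_lit 5) (.nd (nat_lit 6) 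
(.lf (nat_lit 197390) (.g (nat_lit 2426) (.e (nat_lit 65630) (nat_lit 14) (.e (nat_lit 401458) (nat_lit 13) (.e (nat_lit 483372) (nat_lit 21) (.e (nat_lit 319516) (nat_lit 11) .nil)))) .nil)) 
(.lf (nat_lit 197454) (.g (nat_lit 2966) (.e (nat_lit 65630) (nat_lit 14) (.e (nat_lit 401458) (nat_lit 13) (.e (nat_lit 483396) (nat_lit 24) (.e (nat_lit 344100) (nat_lit 18) (.e (nat_lit 5907) (nat_lit 320) (.e (nat_lit 1190) (nat_lit 88) .nil)))))) (.g (nat_lit 5) .nil .nil)))) (.nd (nat_lit 6) 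
(.lf (nat_lit 197422) (.g (nat_lit 3273) (.e (nat_lit 65630) (nat_lit 14) (.e (nat_lit 401458) (nat_lit 13) (.e (nat_lit 483393) (nat_lit 23) (.e (nat_lit 335986) (nat_lit 1) (.e (nat_lit 57873) (nat_lit 264) (.e (nat_lit 1190) (nat_lit 88) .nil)))))) (.g (nat_lit 6) .nil .nil))) 
(.lf (nat_lit 197486) (.g (nat_lit 2907) (.e (nat_lit 65630) (nat_lit 14) (.e (nat_lit 401459) (nat_lit 13) (.e (nat_lit 483344) (nat_lit 17) (.e (nat_lit 6153) (nat_lit 332) (.e (nat_lit 2542) (nat_lit 158) (.e (nat_lit 8433) (nat_lit 138) (.e (nat_lit 1191) (nat_lit 88) .nil))))))) (.g (nat_lit 4) .nil .nil))))) (.nd (nat_lit 5) (.nd (nat_lit 6) 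
(.lf (nat_lit 197406) (.g (nat_lit 1284) (.e (nat_lit 65630) (nat_lit 14) (.e (nat_lit 401458) (nat_lit 13) (.e (nat_lit 483386) (nat_lit 23) (.e (nat_lit 335985) (nat_lit 1) (.e (nat_lit 57873) (nat_lit 264) .nil))))) .nil)) 
(.lf (nat_lit 197470) (.g (nat_lit 1976) (.e (nat_lit 65630) (nat_lit 14) (.e (nat_lit 401458) (nat_lit 13) (.e (nat_lit 483406) (nat_lit 26) (.e (nat_lit 385096) (nat_lit 49) (.e (nat_lit 786176) (nat_lit 4) .nil))))) (.g (nat_lit 4) .nil .nil)))) (.nd (nat_lit 6) 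
(.lf (nat_lit 197438) (.g (nat_lit 2324) (.e (nat_lit 65630) (nat_lit 14) (.e (nat_lit 401458) (nat_lit 13) (.e (nat_lit 483394) (nat_lit 24) (.e (nat_lit 344169) (nat_lit 40) (.e (nat_lit 671760) (nat_lit 4) .nil))))) (.g (nat_lit 5) .nil .nil))) 
(.lf (nat_lit 197502) (.g (nat_lit 4595) (.e (nat_lit 65630) (nat_lit 14) (.e (nat_lit 401459) (nat_lit 13) (.e (nat_lit 483344) (nat_lit 17) (.e (nat_lit 6513) (nat_lit 346) (.e (nat_lit 57354) (nat_lit 0) (.e (nat_lit 5905) (nat_lit 320) (.e (nat_lit 1189) (nat_lit 88) .nil))))))) (.g (nat_lit 6) .nil .nil))))))))) 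
(.nd (nat_lit 1) (.nd (nat_lit 2) (.nd (nat_lit 3) (.nd (nat_lit 4) (.nd (nat_lit 5) 
(.nd (nat_lit 6) 
(.lf (nat_lit 197377) (.g (nat_lit 2261) (.e (nat_lit 65630) (nat_lit 14) (.e (nat_lit 401457) (nat_lit 13) (.e (nat_lit 483413) (nat_lit 27) (.e (nat_lit 401462) (nat_lit 15) .nil)))) .nil)) 
(.lf (nat_lit 197441) (.g (nat_lit 2229) (.e (nat_lit 65630) (nat_lit 14) (.e (nat_lit 401458) (nat_lit 13) (.e (nat_lit 483395) (nat_lit 24) (.e (nat_lit 344090) (nat_lit 18) (.e (nat_lit 5896) (nat_lit 320) (.e (nat_lit 7936) (nat_lit 88) .nil)))))) (.g (nat_lit 4) .nil .nil)))) (.nd (nat_lit 6) 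
(.lf (nat_lit 197409) (.g (nat_lit 2075) (.e (nat_lit 65630) (nat_lit 14) (.e (nat_lit 401458) (nat_lit 13) (.e (nat_lit 483387) (nat_lit 23) (.e (nat_lit 335997) (nat_lit 1) (.e (nat_lit 57871) (nat_lit 264) (.e (nat_lit 1189) (nat_lit 88) .nil)))))) (.g (nat_lit 4) .nil .nil))) 
(.lf (nat_lit 197473) (.g (nat_lit 913) (.e (nat_lit 65630) (nat_lit 14) (.e (nat_lit 401459) (nat_lit 13) (.e (nat_lit 483329) (nat_lit 0) .nil))) .nil)))) (.nd (nat_lit 5) (.nd (nat_lit 6) 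
(.lf (nat_lit 197393) (.g (nat_lit 1849) (.e (nat_lit 65630) (nat_lit 14) (.e (nat_lit 401458) (nat_lit 13) (.e (nat_lit 483379) (nat_lit 23) (.e (nat_lit 336332) (nat_lit 19) (.e (nat_lit 220928) (nat_lit 4) .nil))))) (.g (nat_lit 4) .nil .nil))) 
(.lf (nat_lit 197457) (.g (nat_lit 2858) (.e (nat_lit 65630) (nat_lit 14) (.e (nat_lit 401458) (nat_lit 13) (.e (nat_lit 483396) (nat_lit 24) (.e (nat_lit 344168) (nat_lit 40) (.e (nat_lit 671762) (nat_lit 4) .nil))))) (.g (nat_lit 5) .nil .nil)))) (.nd (nat_lit 6) 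
(.lf (nat_lit 197425) (.g (nat_lit 984) (.e (nat_lit 65630) (nat_lit 14) (.e (nat_lit 401458) (nat_lit 13) (.e (nat_lit 483393) (nat_lit 23) (.e (nat_lit 335993) (nat_lit 1) .nil)))) .nil)) 
(.lf (nat_lit 197489) (.g (nat_lit 3592) (.e (nat_lit 65630) (nat_lit 14) (.e (nat_lit 401459) (nat_lit 13) (.e (nat_lit 483344) (nat_lit 17) (.e (nat_lit 6434) (nat_lit 343) (.e (nat_lit 1183) (nat_lit 87) (.e (nat_lit 57871) (nat_lit 264) (.e (nat_lit 1188) (nat_lit 88) .nil))))))) (.g (nat_lit 5) .nil .nil)))))) (.nd (nat_lit 4) (.nd (nat_lit 5) (.nd (nat_lit 6) 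
(.lf (nat_lit 197385) (.g (nat_lit 2062) (.e (nat_lit 65630) (nat_lit 14) (.e (nat_lit 401458) (nat_lit 13) (.e (nat_lit 483350) (nat_lit 17) (.e (nat_lit 6113) (nat_lit 332) (.e (nat_lit 2538) (nat_lit 158) .nil))))) .nil)) 
(.lf (nat_lit 197449) (.g (nat_lit 431) (.e (nat_lit 65630) (nat_lit 14) (.e (nat_lit 401458) (nat_lit 13) (.e (nat_lit 483396) (nat_lit 24) .nil))) .nil))) (.nd (nat_lit 6) 
(.lf (nat_lit 197417) (.g (nat_lit 398) (.e (nat_lit 65630) (nat_lit 14) (.e (nat_lit 401458) (nat_lit 13) (.e (nat_lit 483393) (nat_lit 23) .nil))) .nil)) 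
(.lf (nat_lit 197481) (.g (nat_lit 3131) (.e (nat_lit 65630) (nat_lit 14) (.e (nat_lit 401459) (nat_lit 13) (.e (nat_lit 483344) (nat_lit 17) (.e (nat_lit 6081) (nat_lit 332) (.e (nat_lit 2542) (nat_lit 158) (.e (nat_lit 8432) (nat_lit 138) (.e (nat_lit 1191) (nat_lit 88) .nil))))))) (.g (nat_lit 4) .nil .nil))))) (.nd (nat_lit 5) (.nd (nat_lit 6) 
(.lf (nat_lit 197401) (.g (nat_lit 1667) (.e (nat_lit 65630) (nat_lit 14) (.e (nat_lit 401458) (nat_lit 13) (.e (nat_lit 483383) (nat_lit 23) (.e (nat_lit 336306) (nat_lit 15) .nil)))) .nil)) 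
(.lf (nat_lit 197465) (.g (nat_lit 1476) (.e (nat_lit 65630) (nat_lit 14) (.e (nat_lit 401458) (nat_lit 13) (.e (nat_lit 483403) (nat_lit 26) (.e (nat_lit 385092) (nat_lit 49) .nil)))) .nil))) (.nd (nat_lit 6) 
(.lf (nat_lit 197433) (.g (nat_lit 2806) (.e (nat_lit 65630) (nat_lit 14) (.e (nat_lit 401458) (nat_lit 13) (.e (nat_lit 483394) (nat_lit 24) (.e (nat_lit 344097) (nat_lit 18) (.e (nat_lit 5905) (nat_lit 320) (.e (nat_lit 1189) (nat_lit 88) .nil)))))) (.g (nat_lit 4) .nil .nil))) 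
(.lf (nat_lit 197497) (.g (nat_lit 3638) (.e (nat_lit 65630) (nat_lit 14) (.e (nat_lit 401459) (nat_lit 13) (.e (nat_lit 483344) (nat_lit 17) (.e (nat_lit 6440) (nat_lit 343) (.e (nat_lit 1288) (nat_lit 95) (.e (nat_lit 123182) (nat_lit 264) (.e (nat_lit 1191) (nat_lit 88) .nil))))))) (.g (nat_lit 6) .nil .nil))))))) (.nd (nat_lit 3) (.nd (nat_lit 4) (.nd (nat_lit 5) (.nd (nat_lit 6) 
(.lf (nat_lit 197381) (.g (nat_lit 2959) (.e (nat_lit 65630) (nat_lit 14) (.e (nat_lit 401457) (nat_lit 13) (.e (nat_lit 483413) (nat_lit 27) (.e (nat_lit 401465) (nat_lit 15) (.e (nat_lit 2303) (nat_lit 151) (.e (nat_lit 786176) (nat_lit 4) .nil)))))) (.g (nat_lit 4) .nil .nil))) 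
(.lf (nat_lit 197445) (.g (nat_lit 2725) (.e (nat_lit 65630) (nat_lit 14) (.e (nat_lit 401458) (nat_lit 13) (.e (nat_lit 483395) (nat_lit 24) (.e (nat_lit 344097) (nat_lit 18) (.e (nat_lit 5905) (nat_lit 320) (.e (nat_lit 1200) (nat_lit 88) .nil)))))) (.g (nat_lit 5) .nil .nil)))) (.nd (nat_lit 6) 
(.lf (nat_lit 197413) (.g (nat_lit 396) (.e (nat_lit 65630) (nat_lit 14) (.e (nat_lit 401458) (nat_lit 13) (.e (nat_lit 483391) (nat_lit 23) .nil))) .nil)) 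
(.lf (nat_lit 197477) (.g (nat_lit 913) (.e (nat_lit 65630) (nat_lit 14) (.e (nat_lit 401459) (nat_lit 13) (.e (nat_lit 483334) (nat_lit 0) .nil))) .nil)))) (.nd (nat_lit 5) (.nd (nat_lit 6) 
(.lf (nat_lit 197397) (.g (nat_lit 1300) (.e (nat_lit 65630) (nat_lit 14) (.e (nat_lit 401458) (nat_lit 13) (.e (nat_lit 483383) (nat_lit 23) (.e (nat_lit 335878) (nat_lit 0) (.e (nat_lit 1028) (nat_lit 81) .nil))))) .nil)) 
(.lf (nat_lit 197461) (.g (nat_lit 810) (.e (nat_lit 65630) (nat_lit 14) (.e (nat_lit 401458) (nat_lit 13) (.e (nat_lit 483399) (nat_lit 25) (.e (nat_lit 368663) (nat_lit 18) .nil)))) .nil))) (.nd (nat_lit 6) 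
(.lf (nat_lit 197429) (.g (nat_lit 2963) (.e (nat_lit 65630) (nat_lit 14) (.e (nat_lit 401458) (nat_lit 13) (.e (nat_lit 483393) (nat_lit 23) (.e (nat_lit 335996) (nat_lit 1) (.e (nat_lit 57870) (nat_lit 264) (.e (nat_lit 1189) (nat_lit 88) .nil)))))) (.g (nat_lit 4) .nil .nil))) 
(.lf (nat_lit 197493) (.g (nat_lit 3401) (.e (nat_lit 65630) (nat_lit 14) (.e (nat_lit 401459) (nat_lit 13) (.e (nat_lit 483344) (nat_lit 17) (.e (nat_lit 6436) (nat_lit 343) (.e (nat_lit 1183) (nat_lit 87) (.e (nat_lit 57871) (nat_lit 264) (.e (nat_lit 1187) (nat_lit 88) .nil))))))) (.g (nat_lit 4) .nil .nil)))))) (.nd (nat_lit 4) (.nd (nat_lit 5) (.nd (nat_lit 6) 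
(.lf (nat_lit 197389) (.g (nat_lit 1360) (.e (nat_lit 65630) (nat_lit 14) (.e (nat_lit 401458) (nat_lit 13) (.e (nat_lit 483372) (nat_lit 21) (.e (nat_lit 327424) (nat_lit 1) .nil)))) .nil)) 
(.lf (nat_lit 197453) (.g (nat_lit 2372) (.e (nat_lit 65630) (nat_lit 14) (.e (nat_lit 401458) (nat_lit 13) (.e (nat_lit 483396) (nat_lit 24) (.e (nat_lit 344097) (nat_lit 18) (.e (nat_lit 5907) (nat_lit 320) (.e (nat_lit 1200) (nat_lit 88) .nil)))))) (.g (nat_lit 4) .nil .nil)))) (.nd (nat_lit 6) 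
(.lf (nat_lit 197421) (.g (nat_lit 2696) (.e (nat_lit 65630) (nat_lit 14) (.e (nat_lit 401458) (nat_lit 13) (.e (nat_lit 483393) (nat_lit 23) (.e (nat_lit 335986) (nat_lit 1) (.e (nat_lit 57873) (nat_lit 264) (.e (nat_lit 1188) (nat_lit 88) .nil)))))) (.g (nat_lit 5) .nil .nil))) 
(.lf (nat_lit 197485) (.g (nat_lit 3022) (.e (nat_lit 65630) (nat_lit 14) (.e (nat_lit 401459) (nat_lit 13) (.e (nat_lit 483344) (nat_lit 17) (.e (nat_lit 6153) (nat_lit 332) (.e (nat_lit 2542) (nat_lit 158) (.e (nat_lit 8432) (nat_lit 138) (.e (nat_lit 1191) (nat_lit 88) .nil))))))) (.g (nat_lit 4) .nil .nil))))) (.nd (nat_lit 5) (.nd (nat_lit 6) 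
(.lf (nat_lit 197405) (.g (nat_lit 533) (.e (nat_lit 65630) (nat_lit 14) (.e (nat_lit 401458) (nat_lit 13) (.e (nat_lit 483386) (nat_lit 23) .nil))) .nil)) 
(.lf (nat_lit 197469) (.g (nat_lit 3286) (.e (nat_lit 65630) (nat_lit 14) (.e (nat_lit 401458) (nat_lit 13) (.e (nat_lit 483406) (nat_lit 26) (.e (nat_lit 385093) (nat_lit 49) (.e (nat_lit 778320) (nat_lit 4) .nil))))) (.g (nat_lit 0) .nil .nil)))) (.nd (nat_lit 6) 
(.lf (nat_lit 197437) (.g (nat_lit 2269) (.e (nat_lit 65630) (nat_lit 14) (.e (nat_lit 401458) (nat_lit 13) (.e (nat_lit 483394) (nat_lit 24) (.e (nat_lit 344168) (nat_lit 40) (.e (nat_lit 671761) (nat_lit 4) .nil))))) (.g (nat_lit 4) .nil .nil))) 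
(.lf (nat_lit 197501) (.g (nat_lit 3640) (.e (nat_lit 65630) (nat_lit 14) (.e (nat_lit 401459) (nat_lit 13) (.e (nat_lit 483344) (nat_lit 17) (.e (nat_lit 6513) (nat_lit 346) (.e (nat_lit 57354) (nat_lit 0) (.e (nat_lit 5905) (nat_lit 320) (.e (nat_lit 1187) (nat_lit 88) .nil))))))) (.g (nat_lit 5) .nil .nil)))))))) 
(.nd (nat_lit 2) (.nd (nat_lit 3) (.nd (nat_lit 4) (.nd (nat_lit 5) (.nd (nat_lit 6) 
(.lf (nat_lit 197379) (.g (nat_lit 2077) (.e (nat_lit 65630) (nat_lit 14) (.e (nat_lit 401457) (nat_lit 13) (.e (nat_lit 483413) (nat_lit 27) (.e (nat_lit 401464) (nat_lit 15) .nil)))) .nil)) 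
(.lf (nat_lit 197443) (.g (nat_lit 3081) (.e (nat_lit 65630) (nat_lit 14) (.e (nat_lit 401458) (nat_lit 13) (.e (nat_lit 483395) (nat_lit 24) (.e (nat_lit 344097) (nat_lit 18) (.e (nat_lit 5905) (nat_lit 320) (.e (nat_lit 1190) (nat_lit 88) .nil)))))) (.g (nat_lit 5) .nil .nil)))) (.nd (nat_lit 6) 
(.lf (nat_lit 197411) (.g (nat_lit 1712) (.e (nat_lit 65630) (nat_lit 14) (.e (nat_lit 401458) (nat_lit 13) (.e (nat_lit 483389) (nat_lit 23) (.e (nat_lit 335997) (nat_lit 1) (.e (nat_lit 57871) (nat_lit 264) (.e (nat_lit 1188) (nat_lit 88) .nil)))))) (.g (nat_lit 4) .nil .nil))) 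
(.lf (nat_lit 197475) (.g (nat_lit 688) (.e (nat_lit 65630) (nat_lit 14) (.e (nat_lit 401459) (nat_lit 13) (.e (nat_lit 483333) (nat_lit 0) .nil))) .nil)))) (.nd (nat_lit 5) (.nd (nat_lit 6) 
(.lf (nat_lit 197395) (.g (nat_lit 361) (.e (nat_lit 65630) (nat_lit 14) (.e (nat_lit 401458) (nat_lit 13) (.e (nat_lit 483383) (nat_lit 23) .nil))) .nil)) 
(.lf (nat_lit 197459) (.g (nat_lit 609) (.e (nat_lit 65630) (nat_lit 14) (.e (nat_lit 401458) (nat_lit 13) (.e (nat_lit 483397) (nat_lit 25) .nil))) .nil))) (.nd (nat_lit 6) 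
(.lf (nat_lit 197427) (.g (nat_lit 2384) (.e (nat_lit 65630) (nat_lit 14) (.e (nat_lit 401458) (nat_lit 13) (.e (nat_lit 483393) (nat_lit 23) (.e (nat_lit 335995) (nat_lit 1) (.e (nat_lit 57870) (nat_lit 264) (.e (nat_lit 1189) (nat_lit 88) .nil)))))) (.g (nat_lit 4) .nil .nil))) 
(.lf (nat_lit 197491) (.g (nat_lit 4257) (.e (nat_lit 65630) (nat_lit 14) (.e (nat_lit 401459) (nat_lit 13) (.e (nat_lit 483344) (nat_lit 17) (.e (nat_lit 6434) (nat_lit 343) (.e (nat_lit 1288) (nat_lit 95) (.e (nat_lit 123182) (nat_lit 264) (.e (nat_lit 1191) (nat_lit 88) .nil))))))) (.g (nat_lit 7) .nil .nil)))))) (.nd (nat_lit 4) (.nd (nat_lit 5) (.nd (nat_lit 6) 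
(.lf (nat_lit 197387) (.g (nat_lit 1318) (.e (nat_lit 65630) (nat_lit 14) (.e (nat_lit 401458) (nat_lit 13) (.e (nat_lit 483350) (nat_lit 17) (.e (nat_lit 7936) (nat_lit 343) .nil)))) .nil)) 
(.lf (nat_lit 197451) (.g (nat_lit 1082) (.e (nat_lit 65630) (nat_lit 14) (.e (nat_lit 401458) (nat_lit 13) (.e (nat_lit 483396) (nat_lit 24) (.e (nat_lit 344093) (nat_lit 18) .nil)))) .nil))) (.nd (nat_lit 6) 
(.lf (nat_lit 197419) (.g (nat_lit 2155) (.e (nat_lit 65630) (nat_lit 14) (.e (nat_lit 401458) (nat_lit 13) (.e (nat_lit 483393) (nat_lit 23) (.e (nat_lit 335986) (nat_lit 1) (.e (nat_lit 57872) (nat_lit 264) (.e (nat_lit 1188) (nat_lit 88) .nil)))))) (.g (nat_lit 4) .nil .nil))) 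
(.lf (nat_lit 197483) (.g (nat_lit 2776) (.e (nat_lit 65630) (nat_lit 14) (.e (nat_lit 401459) (nat_lit 13) (.e (nat_lit 483344) (nat_lit 17) (.e (nat_lit 6152) (nat_lit 332) (.e (nat_lit 2542) (nat_lit 158) (.e (nat_lit 8432) (nat_lit 138) (.e (nat_lit 1191) (nat_lit 88) .nil))))))) (.g (nat_lit 4) .nil .nil))))) (.nd (nat_lit 5) (.nd (nat_lit 6) 
(.lf (nat_lit 197403) (.g (nat_lit 2258) (.e (nat_lit 65630) (nat_lit 14) (.e (nat_lit 401458) (nat_lit 13) (.e (nat_lit 483383) (nat_lit 23) (.e (nat_lit 336332) (nat_lit 19) (.e (nat_lit 220928) (nat_lit 4) .nil))))) (.g (nat_lit 4) .nil .nil))) 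
(.lf (nat_lit 197467) (.g (nat_lit 1871) (.e (nat_lit 65630) (nat_lit 14) (.e (nat_lit 401458) (nat_lit 13) (.e (nat_lit 483403) (nat_lit 26) (.e (nat_lit 385096) (nat_lit 49) (.e (nat_lit 786176) (nat_lit 4) .nil))))) (.g (nat_lit 4) .nil .nil)))) (.nd (nat_lit 6) 
(.lf (nat_lit 197435) (.g (nat_lit 1271) (.e (nat_lit 65630) (nat_lit 14) (.e (nat_lit 401458) (nat_lit 13) (.e (nat_lit 483394) (nat_lit 24) (.e (nat_lit 344100) (nat_lit 18) (.e (nat_lit 5906) (nat_lit 320) .nil))))) .nil)) 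
(.lf (nat_lit 197499) (.g (nat_lit 3254) (.e (nat_lit 65630) (nat_lit 14) (.e (nat_lit 401459) (nat_lit 13) (.e (nat_lit 483344) (nat_lit 17) (.e (nat_lit 6445) (nat_lit 343) (.e (nat_lit 180) (nat_lit 13) (.e (nat_lit 220928) (nat_lit 4) .nil)))))) (.g (nat_lit 4) .nil .nil))))))) (.nd (nat_lit 3) (.nd (nat_lit 4) (.nd (nat_lit 5) (.nd (nat_lit 6) 
(.lf (nat_lit 197383) (.g (nat_lit 2282) (.e (nat_lit 65630) (nat_lit 14) (.e (nat_lit 401457) (nat_lit 13) (.e (nat_lit 483413) (nat_lit 27) (.e (nat_lit 401466) (nat_lit 15) .nil)))) .nil)) 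
(.lf (nat_lit 197447) (.g (nat_lit 2433) (.e (nat_lit 65630) (nat_lit 14) (.e (nat_lit 401458) (nat_lit 13) (.e (nat_lit 483395) (nat_lit 24) (.e (nat_lit 344168) (nat_lit 40) (.e (nat_lit 671760) (nat_lit 4) .nil))))) (.g (nat_lit 5) .nil .nil)))) (.nd (nat_lit 6) 
(.lf (nat_lit 197415) (.g (nat_lit 1526) (.e (nat_lit 65630) (nat_lit 14) (.e (nat_lit 401458) (nat_lit 13) (.e (nat_lit 483391) (nat_lit 23) (.e (nat_lit 336331) (nat_lit 19) (.e (nat_lit 220928) (nat_lit 4) .nil))))) (.g (nat_lit 4) .nil .nil))) 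
(.lf (nat_lit 197479) (.g (nat_lit 2978) (.e (nat_lit 65630) (nat_lit 14) (.e (nat_lit 401459) (nat_lit 13) (.e (nat_lit 483344) (nat_lit 17) (.e (nat_lit 6079) (nat_lit 332) (.e (nat_lit 2542) (nat_lit 158) (.e (nat_lit 8432) (nat_lit 138) (.e (nat_lit 1191) (nat_lit 88) .nil))))))) (.g (nat_lit 4) .nil .nil))))) (.nd (nat_lit 5) (.nd (nat_lit 6) 
(.lf (nat_lit 197399) (.g (nat_lit 2139) (.e (nat_lit 65630) (nat_lit 14) (.e (nat_lit 401458) (nat_lit 13) (.e (nat_lit 483383) (nat_lit 23) (.e (nat_lit 336000) (nat_lit 1) (.e (nat_lit 57868) (nat_lit 264) (.e (nat_lit 1197) (nat_lit 88) .nil)))))) (.g (nat_lit 4) .nil .nil))) 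
(.lf (nat_lit 197463) (.g (nat_lit 1912) (.e (nat_lit 65630) (nat_lit 14) (.e (nat_lit 401458) (nat_lit 13) (.e (nat_lit 483402) (nat_lit 26) (.e (nat_lit 385093) (nat_lit 49) (.e (nat_lit 778320) (nat_lit 4) .nil))))) (.g (nat_lit 4) .nil .nil)))) (.nd (nat_lit 6) 
(.lf (nat_lit 197431) (.g (nat_lit 1595) (.e (nat_lit 65630) (nat_lit 14) (.e (nat_lit 401458) (nat_lit 13) (.e (nat_lit 483394) (nat_lit 24) (.e (nat_lit 344090) (nat_lit 18) (.e (nat_lit 5896) (nat_lit 320) .nil))))) .nil)) 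
(.lf (nat_lit 197495) (.g (nat_lit 4006) (.e (nat_lit 65630) (nat_lit 14) (.e (nat_lit 401459) (nat_lit 13) (.e (nat_lit 483344) (nat_lit 17) (.e (nat_lit 6436) (nat_lit 343) (.e (nat_lit 1183) (nat_lit 87) (.e (nat_lit 57872) (nat_lit 264) (.e (nat_lit 1187) (nat_lit 88) .nil))))))) (.g (nat_lit 5) .nil .nil)))))) (.nd (nat_lit 4) (.nd (nat_lit 5) (.nd (nat_lit 6) 
(.lf (nat_lit 197391) (.g (nat_lit 2120) (.e (nat_lit 65630) (nat_lit 14) (.e (nat_lit 401458) (nat_lit 13) (.e (nat_lit 483378) (nat_lit 23) (.e (nat_lit 335997) (nat_lit 1) (.e (nat_lit 57871) (nat_lit 264) (.e (nat_lit 1189) (nat_lit 88) .nil)))))) (.g (nat_lit 4) .nil .nil))) 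
(.lf (nat_lit 197455) (.g (nat_lit 2718) (.e (nat_lit 65630) (nat_lit 14) (.e (nat_lit 401458) (nat_lit 13) (.e (nat_lit 483396) (nat_lit 24) (.e (nat_lit 344100) (nat_lit 18) (.e (nat_lit 5907) (nat_lit 320) (.e (nat_lit 1200) (nat_lit 88) .nil)))))) (.g (nat_lit 5) .nil .nil)))) (.nd (nat_lit 6) 
(.lf (nat_lit 197423) (.g (nat_lit 2175) (.e (nat_lit 65630) (nat_lit 14) (.e (nat_lit 401458) (nat_lit 13) (.e (nat_lit 483393) (nat_lit 23) (.e (nat_lit 335988) (nat_lit 1) (.e (nat_lit 57869) (nat_lit 264) (.e (nat_lit 1197) (nat_lit 88) .nil)))))) (.g (nat_lit 4) .nil .nil))) 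
(.lf (nat_lit 197487) (.g (nat_lit 3143) (.e (nat_lit 65630) (nat_lit 14) (.e (nat_lit 401459) (nat_lit 13) (.e (nat_lit 483344) (nat_lit 17) (.e (nat_lit 6203) (nat_lit 332) (.e (nat_lit 2540) (nat_lit 158) (.e (nat_lit 8433) (nat_lit 138) (.e (nat_lit 1191) (nat_lit 88) .nil))))))) (.g (nat_lit 4) .nil .nil))))) (.nd (nat_lit 5) (.nd (nat_lit 6) 
(.lf (nat_lit 197407) (.g (nat_lit 429) (.e (nat_lit 65630) (nat_lit 14) (.e (nat_lit 401458) (nat_lit 13) (.e (nat_lit 483387) (nat_lit 23) .nil))) .nil)) 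
(.lf (nat_lit 197471) (.g (nat_lit 2299) (.e (nat_lit 65630) (nat_lit 14) (.e (nat_lit 401458) (nat_lit 13) (.e (nat_lit 483406) (nat_lit 26) (.e (nat_lit 385099) (nat_lit 49) (.e (nat_lit 786176) (nat_lit 4) .nil))))) (.g (nat_lit 4) .nil .nil)))) (.nd (nat_lit 6) 
(.lf (nat_lit 197439) (.g (nat_lit 2576) (.e (nat_lit 65630) (nat_lit 14) (.e (nat_lit 401458) (nat_lit 13) (.e (nat_lit 483394) (nat_lit 24) (.e (nat_lit 344169) (nat_lit 40) (.e (nat_lit 671761) (nat_lit 4) .nil))))) (.g (nat_lit 4) .nil .nil))) 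
(.lf (nat_lit 197503) (.g (nat_lit 3984) (.e (nat_lit 65630) (nat_lit 14) (.e (nat_lit 401459) (nat_lit 13) (.e (nat_lit 483344) (nat_lit 17) (.e (nat_lit 6513) (nat_lit 346) (.e (nat_lit 57354) (nat_lit 0) (.e (nat_lit 5905) (nat_lit 320) (.e (nat_lit 1199) (nat_lit 88) .nil))))))) (.g (nat_lit 6) .nil .nil))))))))))

noncomputable def tv2612 : DT := (.nd (nat_lit 0) (.nd (nat_lit 1) (.nd (nat_lit 2) (.nd (nat_lit 3) (.nd (nat_lit 4) (.nd (nat_lit 5) (.nd (nat_lit 6) 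
(.lf (nat_lit 197504) (.g (nat_lit 4250) (.e (nat_lit 65630) (nat_lit 14) (.e (nat_lit 401459) (nat_lit 13) (.e (nat_lit 483344) (nat_lit 17) (.e (nat_lit 6513) (nat_lit 346) (.e (nat_lit 57354) (nat_lit 0) (.e (nat_lit 5906) (nat_lit 320) (.e (nat_lit 1187) (nat_lit 88) .nil))))))) (.g (nat_lit 6) .nil .nil))) 
(.lf (nat_lit 197568) (.g (nat_lit 4426) (.e (nat_lit 65630) (nat_lit 14) (.e (nat_lit 401459) (nat_lit 13) (.e (nat_lit 483372) (nat_lit 21) (.e (nat_lit 319494) (nat_lit 0) .nil)))) .nil))) (.nd (nat_lit 6) 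
(.lf (nat_lit 197536) (.g (nat_lit 2784) (.e (nat_lit 65630) (nat_lit 14) (.e (nat_lit 401459) (nat_lit 13) (.e (nat_lit 483344) (nat_lit 17) (.e (nat_lit 6714) (nat_lit 360) (.e (nat_lit 163841) (nat_lit 0) (.e (nat_lit 4598) (nat_lit 269) (.e (nat_lit 1188) (nat_lit 88) .nil))))))) (.g (nat_lit 4) .nil .nil))) 
(.lf (nat_lit 197600) (.g (nat_lit 2791) (.e (nat_lit 65630) (nat_lit 14) (.e (nat_lit 401459) (nat_lit 13) (.e (nat_lit 483374) (nat_lit 22) (.e (nat_lit 327692) (nat_lit 1) (.e (nat_lit 8433) (nat_lit 138) (.e (nat_lit 1191) (nat_lit 88) .nil)))))) (.g (nat_lit 5) .nil .nil))))) (.nd (nat_lit 5) (.nd (nat_lit 6) 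
(.lf (nat_lit 197520) (.g (nat_lit 3527) (.e (nat_lit 65630) (nat_lit 14) (.e (nat_lit 401459) (nat_lit 13) (.e (nat_lit 483344) (nat_lit 17) (.e (nat_lit 6712) (nat_lit 360) (.e (nat_lit 163841) (nat_lit 0) (.e (nat_lit 4588) (nat_lit 269) (.e (nat_lit 1197) (nat_lit 88) .nil))))))) (.g (nat_lit 4) .nil .nil))) 
(.lf (nat_lit 197584) (.g (nat_lit 4148) (.e (nat_lit 65630) (nat_lit 14) (.e (nat_lit 401459) (nat_lit 13) (.e (nat_lit 483372) (nat_lit 21) (.e (nat_lit 319504) (nat_lit 10) (.e (nat_lit 52) (nat_lit 0) .nil))))) .nil))) (.nd (nat_lit 6) 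
(.lf (nat_lit 197552) (.g (nat_lit 1485) (.e (nat_lit 65630) (nat_lit 14) (.e (nat_lit 401459) (nat_lit 13) (.e (nat_lit 483363) (nat_lit 18) (.e (nat_lit 65280) (nat_lit 217) .nil)))) .nil)) 
(.lf (nat_lit 197616) (.g (nat_lit 2999) (.e (nat_lit 65630) (nat_lit 14) (.e (nat_lit 401459) (nat_lit 13) (.e (nat_lit 483380) (nat_lit 23) (.e (nat_lit 336242) (nat_lit 15) (.e (nat_lit 3681) (nat_lit 227) (.e (nat_lit 786176) (nat_lit 4) .nil)))))) (.g (nat_lit 4) .nil .nil)))))) (.nd (nat_lit 4) (.nd (nat_lit 5) (.nd (nat_lit 6) 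
(.lf (nat_lit 197512) (.g (nat_lit 5624) (.e (nat_lit 65630) (nat_lit 14) (.e (nat_lit 401459) (nat_lit 13) (.e (nat_lit 483344) (nat_lit 17) (.e (nat_lit 6514) (nat_lit 346) (.e (nat_lit 57354) (nat_lit 0) (.e (nat_lit 5905) (nat_lit 320) (.e (nat_lit 1190) (nat_lit 88) .nil))))))) (.g (nat_lit 7) .nil .nil))) 
(.lf (nat_lit 197576) (.g (nat_lit 3485) (.e (nat_lit 65630) (nat_lit 14) (.e (nat_lit 401459) (nat_lit 13) (.e (nat_lit 483372) (nat_lit 21) (.e (nat_lit 319500) (nat_lit 10) .nil)))) .nil))) (.nd (nat_lit 6) 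
(.lf (nat_lit 197544) (.g (nat_lit 3437) (.e (nat_lit 65630) (nat_lit 14) (.e (nat_lit 401459) (nat_lit 13) (.e (nat_lit 483344) (nat_lit 17) (.e (nat_lit 6714) (nat_lit 360) (.e (nat_lit 163989) (nat_lit 34) (.e (nat_lit 606225) (nat_lit 4) .nil)))))) (.g (nat_lit 4) .nil .nil))) 
(.lf (nat_lit 197608) (.g (nat_lit 2131) (.e (nat_lit 65630) (nat_lit 14) (.e (nat_lit 401459) (nat_lit 13) (.e (nat_lit 483379) (nat_lit 23) (.e (nat_lit 336330) (nat_lit 19) (.e (nat_lit 220928) (nat_lit 4) .nil))))) (.g (nat_lit 4) .nil .nil))))) (.nd (nat_lit 5) (.nd (nat_lit 6) 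
(.lf (nat_lit 197528) (.g (nat_lit 3705) (.e (nat_lit 65630) (nat_lit 14) (.e (nat_lit 401459) (nat_lit 13) (.e (nat_lit 483344) (nat_lit 17) (.e (nat_lit 6712) (nat_lit 360) (.e (nat_lit 163844) (nat_lit 0) (.e (nat_lit 4622) (nat_lit 269) (.e (nat_lit 1197) (nat_lit 88) .nil))))))) (.g (nat_lit 4) .nil .nil))) 
(.lf (nat_lit 197592) (.g (nat_lit 3530) (.e (nat_lit 65630) (nat_lit 14) (.e (nat_lit 401459) (nat_lit 13) (.e (nat_lit 483372) (nat_lit 21) (.e (nat_lit 319511) (nat_lit 10) .nil)))) .nil))) (.nd (nat_lit 6) 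
(.lf (nat_lit 197560) (.g (nat_lit 1294) (.e (nat_lit 65630) (nat_lit 14) (.e (nat_lit 401459) (nat_lit 13) (.e (nat_lit 483371) (nat_lit 21) (.e (nat_lit 327424) (nat_lit 1) .nil)))) .nil)) 
(.lf (nat_lit 197624) (.g (nat_lit 2563) (.e (nat_lit 65630) (nat_lit 14) (.e (nat_lit 401459) (nat_lit 13) (.e (nat_lit 483380) (nat_lit 23) (.e (nat_lit 336258) (nat_lit 15) (.e (nat_lit 3648) (nat_lit 227) (.e (nat_lit 786176) (nat_lit 4) .nil)))))) (.g (nat_lit 5) .nil .nil))))))) (.nd (nat_lit 3) (.nd (nat_lit 4) (.nd (nat_lit 5) (.nd (nat_lit 6) 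
(.lf (nat_lit 197508) (.g (nat_lit 3316) (.e (nat_lit 65630) (nat_lit 14) (.e (nat_lit 401459) (nat_lit 13) (.e (nat_lit 483344) (nat_lit 17) (.e (nat_lit 6513) (nat_lit 346) (.e (nat_lit 57354) (nat_lit 0) (.e (nat_lit 5907) (nat_lit 320) (.e (nat_lit 1200) (nat_lit 88) .nil))))))) (.g (nat_lit 5) .nil .nil))) 
(.lf (nat_lit 197572) (.g (nat_lit 3993) (.e (nat_lit 65630) (nat_lit 14) (.e (nat_lit 401459) (nat_lit 13) (.e (nat_lit 483372) (nat_lit 21) (.e (nat_lit 319496) (nat_lit 10) (.e (nat_lit 660) (nat_lit 54) .nil))))) .nil))) (.nd (nat_lit 6) 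
(.lf (nat_lit 197540) (.g (nat_lit 4269) (.e (nat_lit 65630) (nat_lit 14) (.e (nat_lit 401459) (nat_lit 13) (.e (nat_lit 483344) (nat_lit 17) (.e (nat_lit 6714) (nat_lit 360) (.e (nat_lit 163843) (nat_lit 0) (.e (nat_lit 4598) (nat_lit 269) (.e (nat_lit 1188) (nat_lit 88) .nil))))))) (.g (nat_lit 6) .nil .nil))) 
(.lf (nat_lit 197604) (.g (nat_lit 2282) (.e (nat_lit 65630) (nat_lit 14) (.e (nat_lit 401459) (nat_lit 13) (.e (nat_lit 483378) (nat_lit 23) (.e (nat_lit 335907) (nat_lit 0) (.e (nat_lit 1996) (nat_lit 137) (.e (nat_lit 663566) (nat_lit 4) .nil)))))) (.g (nat_lit 4) .nil .nil))))) (.nd (nat_lit 5) (.nd (nat_lit 6) 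
(.lf (nat_lit 197524) (.g (nat_lit 4996) (.e (nat_lit 65630) (nat_lit 14) (.e (nat_lit 401459) (nat_lit 13) (.e (nat_lit 483344) (nat_lit 17) (.e (nat_lit 6712) (nat_lit 360) (.e (nat_lit 163843) (nat_lit 0) (.e (nat_lit 4598) (nat_lit 269) (.e (nat_lit 1196) (nat_lit 88) .nil))))))) (.g (nat_lit 6) .nil .nil))) 
(.lf (nat_lit 197588) (.g (nat_lit 4441) (.e (nat_lit 65630) (nat_lit 14) (.e (nat_lit 401459) (nat_lit 13) (.e (nat_lit 483372) (nat_lit 21) (.e (nat_lit 319505) (nat_lit 10) (.e (nat_lit 16) (nat_lit 0) .nil))))) .nil))) (.nd (nat_lit 6) 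
(.lf (nat_lit 197556) (.g (nat_lit 1201) (.e (nat_lit 65630) (nat_lit 14) (.e (nat_lit 401459) (nat_lit 13) (.e (nat_lit 483364) (nat_lit 18) (.e (nat_lit 65280) (nat_lit 217) .nil)))) .nil)) 
(.lf (nat_lit 197620) (.g (nat_lit 1906) (.e (nat_lit 65630) (nat_lit 14) (.e (nat_lit 401459) (nat_lit 13) (.e (nat_lit 483380) (nat_lit 23) (.e (nat_lit 336252) (nat_lit 15) .nil)))) .nil))))) (.nd (nat_lit 4) (.nd (nat_lit 5) (.nd (nat_lit 6) 
(.lf (nat_lit 197516) (.g (nat_lit 3462) (.e (nat_lit 65630) (nat_lit 14) (.e (nat_lit 401459) (nat_lit 13) (.e (nat_lit 483344) (nat_lit 17) (.e (nat_lit 6696) (nat_lit 357) (.e (nat_lit 2610) (nat_lit 163) (.e (nat_lit 164423) (nat_lit 272) (.e (nat_lit 1187) (nat_lit 88) .nil))))))) (.g (nat_lit 5) .nil .nil))) 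
(.lf (nat_lit 197580) (.g (nat_lit 3941) (.e (nat_lit 65630) (nat_lit 14) (.e (nat_lit 401459) (nat_lit 13) (.e (nat_lit 483372) (nat_lit 21) (.e (nat_lit 319504) (nat_lit 10) (.e (nat_lit 11) (nat_lit 0) .nil))))) .nil))) (.nd (nat_lit 6) 
(.lf (nat_lit 197548) (.g (nat_lit 3314) (.e (nat_lit 65630) (nat_lit 14) (.e (nat_lit 401459) (nat_lit 13) (.e (nat_lit 483350) (nat_lit 17) (.e (nat_lit 6113) (nat_lit 332) (.e (nat_lit 1109) (nat_lit 82) (.e (nat_lit 8484) (nat_lit 168) (.e (nat_lit 1196) (nat_lit 88) .nil))))))) (.g (nat_lit 4) .nil .nil))) 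
(.lf (nat_lit 197612) (.g (nat_lit 2110) (.e (nat_lit 65630) (nat_lit 14) (.e (nat_lit 401459) (nat_lit 13) (.e (nat_lit 483380) (nat_lit 23) (.e (nat_lit 335972) (nat_lit 0) (.e (nat_lit 7936) (nat_lit 137) .nil))))) .nil)))) (.nd (nat_lit 5) (.nd (nat_lit 6) 
(.lf (nat_lit 197532) (.g (nat_lit 3180) (.e (nat_lit 65630) (nat_lit 14) (.e (nat_lit 401459) (nat_lit 13) (.e (nat_lit 483344) (nat_lit 17) (.e (nat_lit 6712) (nat_lit 360) (.e (nat_lit 163853) (nat_lit 0) (.e (nat_lit 4607) (nat_lit 269) (.e (nat_lit 1200) (nat_lit 88) .nil))))))) (.g (nat_lit 4) .nil .nil))) 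
(.lf (nat_lit 197596) (.g (nat_lit 2839) (.e (nat_lit 65630) (nat_lit 14) (.e (nat_lit 401459) (nat_lit 13) (.e (nat_lit 483372) (nat_lit 21) (.e (nat_lit 319516) (nat_lit 11) .nil)))) .nil))) (.nd (nat_lit 6) 
(.lf (nat_lit 197564) (.g (nat_lit 3900) (.e (nat_lit 65630) (nat_lit 14) (.e (nat_lit 401459) (nat_lit 13) (.e (nat_lit 483372) (nat_lit 21) (.e (nat_lit 319490) (nat_lit 0) (.e (nat_lit 75) (nat_lit 0) .nil))))) .nil)) 
(.lf (nat_lit 197628) (.g (nat_lit 1891) (.e (nat_lit 65630) (nat_lit 14) (.e (nat_lit 401459) (nat_lit 13) (.e (nat_lit 483380) (nat_lit 23) (.e (nat_lit 336299) (nat_lit 15) .nil)))) .nil))))))) (.nd (nat_lit 2) (.nd (nat_lit 3) (.nd (nat_lit 4) (.nd (nat_lit 5) (.nd (nat_lit 6) 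
(.lf (nat_lit 197506) (.g (nat_lit 4468) (.e (nat_lit 65630) (nat_lit 14) (.e (nat_lit 401459) (nat_lit 13) (.e (nat_lit 483344) (nat_lit 17) (.e (nat_lit 6513) (nat_lit 346) (.e (nat_lit 57354) (nat_lit 0) (.e (nat_lit 5907) (nat_lit 320) (.e (nat_lit 1190) (nat_lit 88) .nil))))))) (.g (nat_lit 6) .nil .nil))) 
(.lf (nat_lit 197570) (.g (nat_lit 1934) (.e (nat_lit 65630) (nat_lit 14) (.e (nat_lit 401459) (nat_lit 13) (.e (nat_lit 483372) (nat_lit 21) (.e (nat_lit 327424) (nat_lit 0) .nil)))) .nil))) (.nd (nat_lit 6) 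
(.lf (nat_lit 197538) (.g (nat_lit 3543) (.e (nat_lit 65630) (nat_lit 14) (.e (nat_lit 401459) (nat_lit 13) (.e (nat_lit 483344) (nat_lit 17) (.e (nat_lit 6714) (nat_lit 360) (.e (nat_lit 163843) (nat_lit 0) (.e (nat_lit 4588) (nat_lit 269) (.e (nat_lit 1187) (nat_lit 88) .nil))))))) (.g (nat_lit 5) .nil .nil))) 
(.lf (nat_lit 197602) (.g (nat_lit 3033) (.e (nat_lit 65630) (nat_lit 14) (.e (nat_lit 401459) (nat_lit 13) (.e (nat_lit 483375) (nat_lit 22) (.e (nat_lit 327692) (nat_lit 1) (.e (nat_lit 8433) (nat_lit 138) (.e (nat_lit 1191) (nat_lit 88) .nil)))))) (.g (nat_lit 6) .nil .nil))))) (.nd (nat_lit 5) (.nd (nat_lit 6) 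
(.lf (nat_lit 197522) (.g (nat_lit 3734) (.e (nat_lit 65630) (nat_lit 14) (.e (nat_lit 401459) (nat_lit 13) (.e (nat_lit 483344) (nat_lit 17) (.e (nat_lit 6712) (nat_lit 360) (.e (nat_lit 163843) (nat_lit 0) (.e (nat_lit 4588) (nat_lit 269) (.e (nat_lit 1196) (nat_lit 88) .nil))))))) (.g (nat_lit 4) .nil .nil))) 
(.lf (nat_lit 197586) (.g (nat_lit 2915) (.e (nat_lit 65630) (nat_lit 14) (.e (nat_lit 401459) (nat_lit 13) (.e (nat_lit 483372) (nat_lit 21) (.e (nat_lit 319505) (nat_lit 10) .nil)))) .nil))) (.nd (nat_lit 6) 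
(.lf (nat_lit 197554) (.g (nat_lit 1485) (.e (nat_lit 65630) (nat_lit 14) (.e (nat_lit 401459) (nat_lit 13) (.e (nat_lit 483363) (nat_lit 18) (.e (nat_lit 65280) (nat_lit 231) .nil)))) .nil)) 
(.lf (nat_lit 197618) (.g (nat_lit 1634) (.e (nat_lit 65630) (nat_lit 14) (.e (nat_lit 401459) (nat_lit 13) (.e (nat_lit 483380) (nat_lit 23) (.e (nat_lit 336245) (nat_lit 15) .nil)))) .nil))))) (.nd (nat_lit 4) (.nd (nat_lit 5) (.nd (nat_lit 6) 
(.lf (nat_lit 197514) (.g (nat_lit 5386) (.e (nat_lit 65630) (nat_lit 14) (.e (nat_lit 401459) (nat_lit 13) (.e (nat_lit 483344) (nat_lit 17) (.e (nat_lit 6514) (nat_lit 346) (.e (nat_lit 57354) (nat_lit 0) (.e (nat_lit 5906) (nat_lit 320) (.e (nat_lit 1190) (nat_lit 88) .nil))))))) (.g (nat_lit 7) .nil .nil))) 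
(.lf (nat_lit 197578) (.g (nat_lit 3814) (.e (nat_lit 65630) (nat_lit 14) (.e (nat_lit 401459) (nat_lit 13) (.e (nat_lit 483372) (nat_lit 21) (.e (nat_lit 319503) (nat_lit 10) .nil)))) .nil))) (.nd (nat_lit 6) 
(.lf (nat_lit 197546) (.g (nat_lit 404) (.e (nat_lit 65630) (nat_lit 14) (.e (nat_lit 401459) (nat_lit 13) (.e (nat_lit 483350) (nat_lit 17) .nil))) .nil)) 
(.lf (nat_lit 197610) (.g (nat_lit 433) (.e (nat_lit 65630) (nat_lit 14) (.e (nat_lit 401459) (nat_lit 13) (.e (nat_lit 483380) (nat_lit 23) .nil))) .nil)))) (.nd (nat_lit 5) (.nd (nat_lit 6) 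
(.lf (nat_lit 197530) (.g (nat_lit 4016) (.e (nat_lit 65630) (nat_lit 14) (.e (nat_lit 401459) (nat_lit 13) (.e (nat_lit 483344) (nat_lit 17) (.e (nat_lit 6712) (nat_lit 360) (.e (nat_lit 163850) (nat_lit 0) (.e (nat_lit 4606) (nat_lit 269) (.e (nat_lit 1187) (nat_lit 88) .nil))))))) (.g (nat_lit 5) .nil .nil))) 
(.lf (nat_lit 197594) (.g (nat_lit 3213) (.e (nat_lit 65630) (nat_lit 14) (.e (nat_lit 401459) (nat_lit 13) (.e (nat_lit 483372) (nat_lit 21) (.e (nat_lit 319514) (nat_lit 11) .nil)))) .nil))) (.nd (nat_lit 6) 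
(.lf (nat_lit 197562) (.g (nat_lit 4223) (.e (nat_lit 65630) (nat_lit 14) (.e (nat_lit 401459) (nat_lit 13) (.e (nat_lit 483372) (nat_lit 21) (.e (nat_lit 319489) (nat_lit 0) .nil)))) .nil)) 
(.lf (nat_lit 197626) (.g (nat_lit 2532) (.e (nat_lit 65630) (nat_lit 14) (.e (nat_lit 401459) (nat_lit 13) (.e (nat_lit 483380) (nat_lit 23) (.e (nat_lit 336258) (nat_lit 15) (.e (nat_lit 3659) (nat_lit 227) (.e (nat_lit 786176) (nat_lit 4) .nil)))))) (.g (nat_lit 5) .nil .nil))))))) (.nd (nat_lit 3) (.nd (nat_lit 4) (.nd (nat_lit 5) (.nd (nat_lit 6) 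
(.lf (nat_lit 197510) (.g (nat_lit 5048) (.e (nat_lit 65630) (nat_lit 14) (.e (nat_lit 401459) (nat_lit 13) (.e (nat_lit 483344) (nat_lit 17) (.e (nat_lit 6514) (nat_lit 346) (.e (nat_lit 57354) (nat_lit 0) (.e (nat_lit 5905) (nat_lit 320) (.e (nat_lit 1188) (nat_lit 88) .nil))))))) (.g (nat_lit 7) .nil .nil))) 
(.lf (nat_lit 197574) (.g (nat_lit 4355) (.e (nat_lit 65630) (nat_lit 14) (.e (nat_lit 401459) (nat_lit 13) (.e (nat_lit 483372) (nat_lit 21) (.e (nat_lit 319498) (nat_lit 10) .nil)))) .nil))) (.nd (nat_lit 6) 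
(.lf (nat_lit 197542) (.g (nat_lit 3984) (.e (nat_lit 65630) (nat_lit 14) (.e (nat_lit 401459) (nat_lit 13) (.e (nat_lit 483344) (nat_lit 17) (.e (nat_lit 6714) (nat_lit 360) (.e (nat_lit 163850) (nat_lit 0) (.e (nat_lit 4574) (nat_lit 269) (.e (nat_lit 1196) (nat_lit 88) .nil))))))) (.g (nat_lit 5) .nil .nil))) 
(.lf (nat_lit 197606) (.g (nat_lit 3054) (.e (nat_lit 65630) (nat_lit 14) (.e (nat_lit 401459) (nat_lit 13) (.e (nat_lit 483378) (nat_lit 23) (.e (nat_lit 335997) (nat_lit 1) (.e (nat_lit 57871) (nat_lit 264) (.e (nat_lit 1189) (nat_lit 88) .nil)))))) (.g (nat_lit 4) .nil .nil))))) (.nd (nat_lit 5) (.nd (nat_lit 6) 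
(.lf (nat_lit 197526) (.g (nat_lit 3782) (.e (nat_lit 65630) (nat_lit 14) (.e (nat_lit 401459) (nat_lit 13) (.e (nat_lit 483344) (nat_lit 17) (.e (nat_lit 6712) (nat_lit 360) (.e (nat_lit 163844) (nat_lit 0) (.e (nat_lit 4588) (nat_lit 269) (.e (nat_lit 1196) (nat_lit 88) .nil))))))) (.g (nat_lit 4) .nil .nil))) 
(.lf (nat_lit 197590) (.g (nat_lit 4461) (.e (nat_lit 65630) (nat_lit 14) (.e (nat_lit 401459) (nat_lit 13) (.e (nat_lit 483372) (nat_lit 21) (.e (nat_lit 319505) (nat_lit 10) (.e (nat_lit 52) (nat_lit 0) .nil))))) .nil))) (.nd (nat_lit 6) 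
(.lf (nat_lit 197558) (.g (nat_lit 1775) (.e (nat_lit 65630) (nat_lit 14) (.e (nat_lit 401459) (nat_lit 13) (.e (nat_lit 483365) (nat_lit 18) (.e (nat_lit 65280) (nat_lit 231) .nil)))) .nil)) 
(.lf (nat_lit 197622) (.g (nat_lit 1951) (.e (nat_lit 65630) (nat_lit 14) (.e (nat_lit 401459) (nat_lit 13) (.e (nat_lit 483380) (nat_lit 23) (.e (nat_lit 336256) (nat_lit 15) .nil)))) .nil))))) (.nd (nat_lit 4) (.nd (nat_lit 5) (.nd (nat_lit 6) 
(.lf (nat_lit 197518) (.g (nat_lit 3135) (.e (nat_lit 65630) (nat_lit 14) (.e (nat_lit 401459) (nat_lit 13) (.e (nat_lit 483344) (nat_lit 17) (.e (nat_lit 6700) (nat_lit 358) (.e (nat_lit 8375) (nat_lit 96) (.e (nat_lit 786176) (nat_lit 4) .nil)))))) (.g (nat_lit 5) .nil .nil))) 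
(.lf (nat_lit 197582) (.g (nat_lit 4306) (.e (nat_lit 65630) (nat_lit 14) (.e (nat_lit 401459) (nat_lit 13) (.e (nat_lit 483372) (nat_lit 21) (.e (nat_lit 319504) (nat_lit 10) (.e (nat_lit 18) (nat_lit 0) .nil))))) .nil))) (.nd (nat_lit 6) 
(.lf (nat_lit 197550) (.g (nat_lit 3368) (.e (nat_lit 65630) (nat_lit 14) (.e (nat_lit 401459) (nat_lit 13) (.e (nat_lit 483350) (nat_lit 17) (.e (nat_lit 6113) (nat_lit 332) (.e (nat_lit 2538) (nat_lit 158) (.e (nat_lit 8433) (nat_lit 138) (.e (nat_lit 1191) (nat_lit 88) .nil))))))) (.g (nat_lit 4) .nil .nil))) 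
(.lf (nat_lit 197614) (.g (nat_lit 1876) (.e (nat_lit 65630) (nat_lit 14) (.e (nat_lit 401459) (nat_lit 13) (.e (nat_lit 483380) (nat_lit 23) (.e (nat_lit 335999) (nat_lit 1) .nil)))) .nil)))) (.nd (nat_lit 5) (.nd (nat_lit 6) 
(.lf (nat_lit 197534) (.g (nat_lit 3560) (.e (nat_lit 65630) (nat_lit 14) (.e (nat_lit 401459) (nat_lit 13) (.e (nat_lit 483344) (nat_lit 17) (.e (nat_lit 6712) (nat_lit 360) (.e (nat_lit 163989) (nat_lit 34) (.e (nat_lit 606224) (nat_lit 4) .nil)))))) (.g (nat_lit 4) .nil .nil))) 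
(.lf (nat_lit 197598) (.g (nat_lit 530) (.e (nat_lit 65630) (nat_lit 14) (.e (nat_lit 401459) (nat_lit 13) (.e (nat_lit 483374) (nat_lit 22) .nil))) .nil))) (.nd (nat_lit 6) 
(.lf (nat_lit 197566) (.g (nat_lit 3225) (.e (nat_lit 65630) (nat_lit 14) (.e (nat_lit 401459) (nat_lit 13) (.e (nat_lit 483372) (nat_lit 21) (.e (nat_lit 319491) (nat_lit 0) .nil)))) .nil)) 
(.lf (nat_lit 197630) (.g (nat_lit 2460) (.e (nat_lit 65630) (nat_lit 14) (.e (nat_lit 401459) (nat_lit 13) (.e (nat_lit 483380) (nat_lit 23) (.e (nat_lit 336327) (nat_lit 19) (.e (nat_lit 220928) (nat_lit 4) .nil))))) (.g (nat_lit 4) .nil .nil))))))))) (.nd (nat_lit 1) (.nd (nat_lit 2) (.nd (nat_lit 3) (.nd (nat_lit 4) (.nd (nat_lit 5) (.nd (nat_lit 6) 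
(.lf (nat_lit 197505) (.g (nat_lit 3917) (.e (nat_lit 65630) (nat_lit 14) (.e (nat_lit 401459) (nat_lit 13) (.e (nat_lit 483344) (nat_lit 17) (.e (nat_lit 6513) (nat_lit 346) (.e (nat_lit 57354) (nat_lit 0) (.e (nat_lit 5907) (nat_lit 320) (.e (nat_lit 1188) (nat_lit 88) .nil))))))) (.g (nat_lit 6) .nil .nil))) 
(.lf (nat_lit 197569) (.g (nat_lit 4318) (.e (nat_lit 65630) (nat_lit 14) (.e (nat_lit 401459) (nat_lit 13) (.e (nat_lit 483372) (nat_lit 21) (.e (nat_lit 319495) (nat_lit 0) .nil)))) .nil))) (.nd (nat_lit 6) 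
(.lf (nat_lit 197537) (.g (nat_lit 3752) (.e (nat_lit 65630) (nat_lit 14) (.e (nat_lit 401459) (nat_lit 13) (.e (nat_lit 483344) (nat_lit 17) (.e (nat_lit 6714) (nat_lit 360) (.e (nat_lit 163843) (nat_lit 0) (.e (nat_lit 4586) (nat_lit 269) (.e (nat_lit 1187) (nat_lit 88) .nil))))))) (.g (nat_lit 5) .nil .nil))) 
(.lf (nat_lit 197601) (.g (nat_lit 2561) (.e (nat_lit 65630) (nat_lit 14) (.e (nat_lit 401459) (nat_lit 13) (.e (nat_lit 483375) (nat_lit 22) (.e (nat_lit 327692) (nat_lit 1) (.e (nat_lit 8431) (nat_lit 138) (.e (nat_lit 1191) (nat_lit 88) .nil)))))) (.g (nat_lit 4) .nil .nil))))) (.nd (nat_lit 5) (.nd (nat_lit 6) 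
(.lf (nat_lit 197521) (.g (nat_lit 3184) (.e (nat_lit 65630) (nat_lit 14) (.e (nat_lit 401459) (nat_lit 13) (.e (nat_lit 483344) (nat_lit 17) (.e (nat_lit 6712) (nat_lit 360) (.e (nat_lit 163843) (nat_lit 0) (.e (nat_lit 4586) (nat_lit 269) (.e (nat_lit 1187) (nat_lit 88) .nil))))))) (.g (nat_lit 4) .nil .nil))) 
(.lf (nat_lit 197585) (.g (nat_lit 3975) (.e (nat_lit 65630) (nat_lit 14) (.e (nat_lit 401459) (nat_lit 13) (.e (nat_lit 483372) (nat_lit 21) (.e (nat_lit 319504) (nat_lit 10) (.e (nat_lit 658) (nat_lit 54) .nil))))) .nil))) (.nd (nat_lit 6) 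
(.lf (nat_lit 197553) (.g (nat_lit 1485) (.e (nat_lit 65630) (nat_lit 14) (.e (nat_lit 401459) (nat_lit 13) (.e (nat_lit 483363) (nat_lit 18) (.e (nat_lit 65280) (nat_lit 230) .nil)))) .nil)) 
(.lf (nat_lit 197617) (.g (nat_lit 3106) (.e (nat_lit 65630) (nat_lit 14) (.e (nat_lit 401459) (nat_lit 13) (.e (nat_lit 483380) (nat_lit 23) (.e (nat_lit 336242) (nat_lit 15) (.e (nat_lit 3684) (nat_lit 227) (.e (nat_lit 786176) (nat_lit 4) .nil)))))) (.g (nat_lit 5) .nil .nil)))))) (.nd (nat_lit 4) (.nd (nat_lit 5) (.nd (nat_lit 6) 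
(.lf (nat_lit 197513) (.g (nat_lit 4812) (.e (nat_lit 65630) (nat_lit 14) (.e (nat_lit 401459) (nat_lit 13) (.e (nat_lit 483344) (nat_lit 17) (.e (nat_lit 6514) (nat_lit 346) (.e (nat_lit 57354) (nat_lit 0) (.e (nat_lit 5906) (nat_lit 320) (.e (nat_lit 1188) (nat_lit 88) .nil))))))) (.g (nat_lit 7) .nil .nil))) 
(.lf (nat_lit 197577) (.g (nat_lit 3511) (.e (nat_lit 65630) (nat_lit 14) (.e (nat_lit 401459) (nat_lit 13) (.e (nat_lit 483372) (nat_lit 21) (.e (nat_lit 319502) (nat_lit 10) .nil)))) .nil))) (.nd (nat_lit 6) 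
(.lf (nat_lit 197545) (.g (nat_lit 3847) (.e (nat_lit 65630) (nat_lit 14) (.e (nat_lit 401459) (nat_lit 13) (.e (nat_lit 483344) (nat_lit 17) (.e (nat_lit 6714) (nat_lit 360) (.e (nat_lit 163990) (nat_lit 34) (.e (nat_lit 606224) (nat_lit 4) .nil)))))) (.g (nat_lit 6) .nil .nil))) 
(.lf (nat_lit 197609) (.g (nat_lit 2228) (.e (nat_lit 65630) (nat_lit 14) (.e (nat_lit 401459) (nat_lit 13) (.e (nat_lit 483379) (nat_lit 23) (.e (nat_lit 336332) (nat_lit 19) (.e (nat_lit 220928) (nat_lit 4) .nil))))) (.g (nat_lit 4) .nil .nil))))) (.nd (nat_lit 5) (.nd (nat_lit 6) 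
(.lf (nat_lit 197529) (.g (nat_lit 3932) (.e (nat_lit 65630) (nat_lit 14) (.e (nat_lit 401459) (nat_lit 13) (.e (nat_lit 483344) (nat_lit 17) (.e (nat_lit 6712) (nat_lit 360) (.e (nat_lit 163850) (nat_lit 0) (.e (nat_lit 4605) (nat_lit 269) (.e (nat_lit 1187) (nat_lit 88) .nil))))))) (.g (nat_lit 5) .nil .nil))) 
(.lf (nat_lit 197593) (.g (nat_lit 1934) (.e (nat_lit 65630) (nat_lit 14) (.e (nat_lit 401459) (nat_lit 13) (.e (nat_lit 483372) (nat_lit 21) (.e (nat_lit 327424) (nat_lit 10) .nil)))) .nil))) (.nd (nat_lit 6) 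
(.lf (nat_lit 197561) (.g (nat_lit 4113) (.e (nat_lit 65630) (nat_lit 14) (.e (nat_lit 401459) (nat_lit 13) (.e (nat_lit 483372) (nat_lit 21) (.e (nat_lit 319488) (nat_lit 0) .nil)))) .nil)) 
(.lf (nat_lit 197625) (.g (nat_lit 2554) (.e (nat_lit 65630) (nat_lit 14) (.e (nat_lit 401459) (nat_lit 13) (.e (nat_lit 483380) (nat_lit 23) (.e (nat_lit 336258) (nat_lit 15) (.e (nat_lit 3653) (nat_lit 227) (.e (nat_lit 786176) (nat_lit 4) .nil)))))) (.g (nat_lit 5) .nil .nil))))))) (.nd (nat_lit 3) (.nd (nat_lit 4) (.nd (nat_lit 5) (.nd (nat_lit 6) 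
(.lf (nat_lit 197509) (.g (nat_lit 4186) (.e (nat_lit 65630) (nat_lit 14) (.e (nat_lit 401459) (nat_lit 13) (.e (nat_lit 483344) (nat_lit 17) (.e (nat_lit 6514) (nat_lit 346) (.e (nat_lit 57354) (nat_lit 0) (.e (nat_lit 5905) (nat_lit 320) (.e (nat_lit 1187) (nat_lit 88) .nil))))))) (.g (nat_lit 6) .nil .nil))) 
(.lf (nat_lit 197573) (.g (nat_lit 3667) (.e (nat_lit 65630) (nat_lit 14) (.e (nat_lit 401459) (nat_lit 13) (.e (nat_lit 483372) (nat_lit 21) (.e (nat_lit 319497) (nat_lit 10) .nil)))) .nil))) (.nd (nat_lit 6) 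
(.lf (nat_lit 197541) (.g (nat_lit 4103) (.e (nat_lit 65630) (nat_lit 14) (.e (nat_lit 401459) (nat_lit 13) (.e (nat_lit 483344) (nat_lit 17) (.e (nat_lit 6714) (nat_lit 360) (.e (nat_lit 163843) (nat_lit 0) (.e (nat_lit 4622) (nat_lit 269) (.e (nat_lit 1197) (nat_lit 88) .nil))))))) (.g (nat_lit 5) .nil .nil))) 
(.lf (nat_lit 197605) (.g (nat_lit 3304) (.e (nat_lit 65630) (nat_lit 14) (.e (nat_lit 401459) (nat_lit 13) (.e (nat_lit 483378) (nat_lit 23) (.e (nat_lit 335997) (nat_lit 1) (.e (nat_lit 57870) (nat_lit 264) (.e (nat_lit 1189) (nat_lit 88) .nil)))))) (.g (nat_lit 5) .nil .nil))))) (.nd (nat_lit 5) (.nd (nat_lit 6) 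
(.lf (nat_lit 197525) (.g (nat_lit 3535) (.e (nat_lit 65630) (nat_lit 14) (.e (nat_lit 401459) (nat_lit 13) (.e (nat_lit 483344) (nat_lit 17) (.e (nat_lit 6712) (nat_lit 360) (.e (nat_lit 163843) (nat_lit 0) (.e (nat_lit 4622) (nat_lit 269) (.e (nat_lit 1197) (nat_lit 88) .nil))))))) (.g (nat_lit 4) .nil .nil))) 
(.lf (nat_lit 197589) (.g (nat_lit 4461) (.e (nat_lit 65630) (nat_lit 14) (.e (nat_lit 401459) (nat_lit 13) (.e (nat_lit 483372) (nat_lit 21) (.e (nat_lit 319505) (nat_lit 10) (.e (nat_lit 34) (nat_lit 0) .nil))))) .nil))) (.nd (nat_lit 6) 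
(.lf (nat_lit 197557) (.g (nat_lit 913) (.e (nat_lit 65630) (nat_lit 14) (.e (nat_lit 401459) (nat_lit 13) (.e (nat_lit 483365) (nat_lit 18) .nil))) .nil)) 
(.lf (nat_lit 197621) (.g (nat_lit 1799) (.e (nat_lit 65630) (nat_lit 14) (.e (nat_lit 401459) (nat_lit 13) (.e (nat_lit 483380) (nat_lit 23) (.e (nat_lit 336254) (nat_lit 15) .nil)))) .nil))))) (.nd (nat_lit 4) (.nd (nat_lit 5) (.nd (nat_lit 6) 
(.lf (nat_lit 197517) (.g (nat_lit 3886) (.e (nat_lit 65630) (nat_lit 14) (.e (nat_lit 401459) (nat_lit 13) (.e (nat_lit 483344) (nat_lit 17) (.e (nat_lit 6696) (nat_lit 357) (.e (nat_lit 2610) (nat_lit 163) (.e (nat_lit 164423) (nat_lit 272) (.e (nat_lit 1196) (nat_lit 88) .nil))))))) (.g (nat_lit 5) .nil .nil))) 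
(.lf (nat_lit 197581) (.g (nat_lit 4192) (.e (nat_lit 65630) (nat_lit 14) (.e (nat_lit 401459) (nat_lit 13) (.e (nat_lit 483372) (nat_lit 21) (.e (nat_lit 319504) (nat_lit 10) (.e (nat_lit 16) (nat_lit 0) .nil))))) .nil))) (.nd (nat_lit 6) 
(.lf (nat_lit 197549) (.g (nat_lit 2760) (.e (nat_lit 65630) (nat_lit 14) (.e (nat_lit 401459) (nat_lit 13) (.e (nat_lit 483350) (nat_lit 17) (.e (nat_lit 6113) (nat_lit 332) (.e (nat_lit 2538) (nat_lit 158) (.e (nat_lit 8431) (nat_lit 138) (.e (nat_lit 1191) (nat_lit 88) .nil))))))) (.g (nat_lit 4) .nil .nil))) 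
(.lf (nat_lit 197613) (.g (nat_lit 1930) (.e (nat_lit 65630) (nat_lit 14) (.e (nat_lit 401459) (nat_lit 13) (.e (nat_lit 483380) (nat_lit 23) (.e (nat_lit 335980) (nat_lit 0) .nil)))) .nil)))) (.nd (nat_lit 5) (.nd (nat_lit 6) 
(.lf (nat_lit 197533) (.g (nat_lit 3382) (.e (nat_lit 65630) (nat_lit 14) (.e (nat_lit 401459) (nat_lit 13) (.e (nat_lit 483344) (nat_lit 17) (.e (nat_lit 6712) (nat_lit 360) (.e (nat_lit 163988) (nat_lit 34) (.e (nat_lit 606225) (nat_lit 4) .nil)))))) (.g (nat_lit 4) .nil .nil))) 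
(.lf (nat_lit 197597) (.g (nat_lit 913) (.e (nat_lit 65630) (nat_lit 14) (.e (nat_lit 401459) (nat_lit 13) (.e (nat_lit 483373) (nat_lit 22) .nil))) .nil))) (.nd (nat_lit 6) 
(.lf (nat_lit 197565) (.g (nat_lit 4027) (.e (nat_lit 65630) (nat_lit 14) (.e (nat_lit 401459) (nat_lit 13) (.e (nat_lit 483372) (nat_lit 21) (.e (nat_lit 319490) (nat_lit 0) (.e (nat_lit 79) (nat_lit 0) .nil))))) .nil)) 
(.lf (nat_lit 197629) (.g (nat_lit 1807) (.e (nat_lit 65630) (nat_lit 14) (.e (nat_lit 401459) (nat_lit 13) (.e (nat_lit 483380) (nat_lit 23) (.e (nat_lit 336308) (nat_lit 15) .nil)))) .nil))))))) (.nd (nat_lit 2) (.nd (nat_lit 3) (.nd (nat_lit 4) (.nd (nat_lit 5) (.nd (nat_lit 6) 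
(.lf (nat_lit 197507) (.g (nat_lit 4040) (.e (nat_lit 65630) (nat_lit 14) (.e (nat_lit 401459) (nat_lit 13) (.e (nat_lit 483344) (nat_lit 17) (.e (nat_lit 6513) (nat_lit 346) (.e (nat_lit 57354) (nat_lit 0) (.e (nat_lit 5907) (nat_lit 320) (.e (nat_lit 1199) (nat_lit 88) .nil))))))) (.g (nat_lit 6) .nil .nil))) 
(.lf (nat_lit 197571) (.g (nat_lit 3445) (.e (nat_lit 65630) (nat_lit 14) (.e (nat_lit 401459) (nat_lit 13) (.e (nat_lit 483372) (nat_lit 21) (.e (nat_lit 319496) (nat_lit 10) .nil)))) .nil))) (.nd (nat_lit 6) 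
(.lf (nat_lit 197539) (.g (nat_lit 4710) (.e (nat_lit 65630) (nat_lit 14) (.e (nat_lit 401459) (nat_lit 13) (.e (nat_lit 483344) (nat_lit 17) (.e (nat_lit 6714) (nat_lit 360) (.e (nat_lit 163843) (nat_lit 0) (.e (nat_lit 4598) (nat_lit 269) (.e (nat_lit 1187) (nat_lit 88) .nil))))))) (.g (nat_lit 6) .nil .nil))) 
(.lf (nat_lit 197603) (.g (nat_lit 2452) (.e (nat_lit 65630) (nat_lit 14) (.e (nat_lit 401459) (nat_lit 13) (.e (nat_lit 483378) (nat_lit 23) (.e (nat_lit 335907) (nat_lit 0) (.e (nat_lit 1994) (nat_lit 137) (.e (nat_lit 663566) (nat_lit 4) .nil)))))) (.g (nat_lit 4) .nil .nil))))) (.nd (nat_lit 5) (.nd (nat_lit 6) 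
(.lf (nat_lit 197523) (.g (nat_lit 4505) (.e (nat_lit 65630) (nat_lit 14) (.e (nat_lit 401459) (nat_lit 13) (.e (nat_lit 483344) (nat_lit 17) (.e (nat_lit 6712) (nat_lit 360) (.e (nat_lit 163843) (nat_lit 0) (.e (nat_lit 4598) (nat_lit 269) (.e (nat_lit 1187) (nat_lit 88) .nil))))))) (.g (nat_lit 6) .nil .nil))) 
(.lf (nat_lit 197587) (.g (nat_lit 4298) (.e (nat_lit 65630) (nat_lit 14) (.e (nat_lit 401459) (nat_lit 13) (.e (nat_lit 483372) (nat_lit 21) (.e (nat_lit 319505) (nat_lit 10) (.e (nat_lit 11) (nat_lit 0) .nil))))) .nil))) (.nd (nat_lit 6) 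
(.lf (nat_lit 197555) (.g (nat_lit 470) (.e (nat_lit 65630) (nat_lit 14) (.e (nat_lit 401459) (nat_lit 13) (.e (nat_lit 483364) (nat_lit 18) .nil))) .nil)) 
(.lf (nat_lit 197619) (.g (nat_lit 1956) (.e (nat_lit 65630) (nat_lit 14) (.e (nat_lit 401459) (nat_lit 13) (.e (nat_lit 483380) (nat_lit 23) (.e (nat_lit 336251) (nat_lit 15) .nil)))) .nil))))) (.nd (nat_lit 4) (.nd (nat_lit 5) (.nd (nat_lit 6) 
(.lf (nat_lit 197515) (.g (nat_lit 4219) (.e (nat_lit 65630) (nat_lit 14) (.e (nat_lit 401459) (nat_lit 13) (.e (nat_lit 483344) (nat_lit 17) (.e (nat_lit 6514) (nat_lit 346) (.e (nat_lit 57354) (nat_lit 0) (.e (nat_lit 5906) (nat_lit 320) (.e (nat_lit 1200) (nat_lit 88) .nil))))))) (.g (nat_lit 6) .nil .nil))) 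
(.lf (nat_lit 197579) (.g (nat_lit 2878) (.e (nat_lit 65630) (nat_lit 14) (.e (nat_lit 401459) (nat_lit 13) (.e (nat_lit 483372) (nat_lit 21) (.e (nat_lit 319504) (nat_lit 10) .nil)))) .nil))) (.nd (nat_lit 6) 
(.lf (nat_lit 197547) (.g (nat_lit 1153) (.e (nat_lit 65630) (nat_lit 14) (.e (nat_lit 401459) (nat_lit 13) (.e (nat_lit 483350) (nat_lit 17) (.e (nat_lit 6113) (nat_lit 332) .nil)))) .nil)) 
(.lf (nat_lit 197611) (.g (nat_lit 1962) (.e (nat_lit 65630) (nat_lit 14) (.e (nat_lit 401459) (nat_lit 13) (.e (nat_lit 483380) (nat_lit 23) (.e (nat_lit 335971) (nat_lit 0) .nil)))) .nil)))) (.nd (nat_lit 5) (.nd (nat_lit 6) 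
(.lf (nat_lit 197531) (.g (nat_lit 3383) (.e (nat_lit 65630) (nat_lit 14) (.e (nat_lit 401459) (nat_lit 13) (.e (nat_lit 483344) (nat_lit 17) (.e (nat_lit 6712) (nat_lit 360) (.e (nat_lit 163850) (nat_lit 0) (.e (nat_lit 4606) (nat_lit 269) (.e (nat_lit 1199) (nat_lit 88) .nil))))))) (.g (nat_lit 4) .nil .nil))) 
(.lf (nat_lit 197595) (.g (nat_lit 4169) (.e (nat_lit 65630) (nat_lit 14) (.e (nat_lit 401459) (nat_lit 13) (.e (nat_lit 483372) (nat_lit 21) (.e (nat_lit 319515) (nat_lit 11) .nil)))) .nil))) (.nd (nat_lit 6) 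
(.lf (nat_lit 197563) (.g (nat_lit 2908) (.e (nat_lit 65630) (nat_lit 14) (.e (nat_lit 401459) (nat_lit 13) (.e (nat_lit 483372) (nat_lit 21) (.e (nat_lit 319490) (nat_lit 0) .nil)))) .nil)) 
(.lf (nat_lit 197627) (.g (nat_lit 2831) (.e (nat_lit 65630) (nat_lit 14) (.e (nat_lit 401459) (nat_lit 13) (.e (nat_lit 483380) (nat_lit 23) (.e (nat_lit 336261) (nat_lit 15) (.e (nat_lit 3721) (nat_lit 227) (.e (nat_lit 786176) (nat_lit 4) .nil)))))) (.g (nat_lit 5) .nil .nil))))))) (.nd (nat_lit 3) (.nd (nat_lit 4) (.nd (nat_lit 5) (.nd (nat_lit 6) 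
(.lf (nat_lit 197511) (.g (nat_lit 5141) (.e (nat_lit 65630) (nat_lit 14) (.e (nat_lit 401459) (nat_lit 13) (.e (nat_lit 483344) (nat_lit 17) (.e (nat_lit 6514) (nat_lit 346) (.e (nat_lit 57354) (nat_lit 0) (.e (nat_lit 5905) (nat_lit 320) (.e (nat_lit 1189) (nat_lit 88) .nil))))))) (.g (nat_lit 6) .nil .nil))) 
(.lf (nat_lit 197575) (.g (nat_lit 4342) (.e (nat_lit 65630) (nat_lit 14) (.e (nat_lit 401459) (nat_lit 13) (.e (nat_lit 483372) (nat_lit 21) (.e (nat_lit 319499) (nat_lit 10) .nil)))) .nil))) (.nd (nat_lit 6) 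
(.lf (nat_lit 197543) (.g (nat_lit 3513) (.e (nat_lit 65630) (nat_lit 14) (.e (nat_lit 401459) (nat_lit 13) (.e (nat_lit 483344) (nat_lit 17) (.e (nat_lit 6714) (nat_lit 360) (.e (nat_lit 163850) (nat_lit 0) (.e (nat_lit 4605) (nat_lit 269) (.e (nat_lit 1199) (nat_lit 88) .nil))))))) (.g (nat_lit 5) .nil .nil))) 
(.lf (nat_lit 197607) (.g (nat_lit 2275) (.e (nat_lit 65630) (nat_lit 14) (.e (nat_lit 401459) (nat_lit 13) (.e (nat_lit 483378) (nat_lit 23) (.e (nat_lit 336032) (nat_lit 4) (.e (nat_lit 123182) (nat_lit 264) (.e (nat_lit 1191) (nat_lit 88) .nil)))))) (.g (nat_lit 4) .nil .nil))))) (.nd (nat_lit 5) (.nd (nat_lit 6) 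
(.lf (nat_lit 197527) (.g (nat_lit 3854) (.e (nat_lit 65630) (nat_lit 14) (.e (nat_lit 401459) (nat_lit 13) (.e (nat_lit 483344) (nat_lit 17) (.e (nat_lit 6712) (nat_lit 360) (.e (nat_lit 163844) (nat_lit 0) (.e (nat_lit 4598) (nat_lit 269) (.e (nat_lit 1188) (nat_lit 88) .nil))))))) (.g (nat_lit 5) .nil .nil))) 
(.lf (nat_lit 197591) (.g (nat_lit 4231) (.e (nat_lit 65630) (nat_lit 14) (.e (nat_lit 401459) (nat_lit 13) (.e (nat_lit 483372) (nat_lit 21) (.e (nat_lit 319505) (nat_lit 10) (.e (nat_lit 658) (nat_lit 54) .nil))))) .nil))) (.nd (nat_lit 6) 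
(.lf (nat_lit 197559) (.g (nat_lit 1294) (.e (nat_lit 65630) (nat_lit 14) (.e (nat_lit 401459) (nat_lit 13) (.e (nat_lit 483371) (nat_lit 21) (.e (nat_lit 327424) (nat_lit 0) .nil)))) .nil)) 
(.lf (nat_lit 197623) (.g (nat_lit 2622) (.e (nat_lit 65630) (nat_lit 14) (.e (nat_lit 401459) (nat_lit 13) (.e (nat_lit 483380) (nat_lit 23) (.e (nat_lit 336257) (nat_lit 15) (.e (nat_lit 3672) (nat_lit 227) (.e (nat_lit 786176) (nat_lit 4) .nil)))))) (.g (nat_lit 5) .nil .nil)))))) (.nd (nat_lit 4) (.nd (nat_lit 5) (.nd (nat_lit 6) 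
(.lf (nat_lit 197519) (.g (nat_lit 3181) (.e (nat_lit 65630) (nat_lit 14) (.e (nat_lit 401459) (nat_lit 13) (.e (nat_lit 483344) (nat_lit 17) (.e (nat_lit 6703) (nat_lit 358) (.e (nat_lit 8375) (nat_lit 96) (.e (nat_lit 786176) (nat_lit 4) .nil)))))) (.g (nat_lit 5) .nil .nil))) 
(.lf (nat_lit 197583) (.g (nat_lit 4306) (.e (nat_lit 65630) (nat_lit 14) (.e (nat_lit 401459) (nat_lit 13) (.e (nat_lit 483372) (nat_lit 21) (.e (nat_lit 319504) (nat_lit 10) (.e (nat_lit 34) (nat_lit 0) .nil))))) .nil))) (.nd (nat_lit 6) 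
(.lf (nat_lit 197551) (.g (nat_lit 783) (.e (nat_lit 65630) (nat_lit 14) (.e (nat_lit 401459) (nat_lit 13) (.e (nat_lit 483354) (nat_lit 17) (.e (nat_lit 7936) (nat_lit 344) .nil)))) .nil)) 
(.lf (nat_lit 197615) (.g (nat_lit 1407) (.e (nat_lit 65630) (nat_lit 14) (.e (nat_lit 401459) (nat_lit 13) (.e (nat_lit 483380) (nat_lit 23) (.e (nat_lit 336036) (nat_lit 4) .nil)))) .nil)))) (.nd (nat_lit 5) (.nd (nat_lit 6) 
(.lf (nat_lit 197535) (.g (nat_lit 3909) (.e (nat_lit 65630) (nat_lit 14) (.e (nat_lit 401459) (nat_lit 13) (.e (nat_lit 483344) (nat_lit 17) (.e (nat_lit 6712) (nat_lit 360) (.e (nat_lit 163989) (nat_lit 34) (.e (nat_lit 606225) (nat_lit 4) .nil)))))) (.g (nat_lit 4) .nil .nil))) 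
(.lf (nat_lit 197599) (.g (nat_lit 2954) (.e (nat_lit 65630) (nat_lit 14) (.e (nat_lit 401459) (nat_lit 13) (.e (nat_lit 483374) (nat_lit 22) (.e (nat_lit 327684) (nat_lit 0) (.e (nat_lit 81) (nat_lit 0) (.e (nat_lit 5815) (nat_lit 320) (.e (nat_lit 1191) (nat_lit 88) .nil))))))) (.g (nat_lit 4) .nil .nil)))) (.nd (nat_lit 6) 
(.lf (nat_lit 197567) (.g (nat_lit 3866) (.e (nat_lit 65630) (nat_lit 14) (.e (nat_lit 401459) (nat_lit 13) (.e (nat_lit 483372) (nat_lit 21) (.e (nat_lit 319492) (nat_lit 0) .nil)))) .nil)) 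
(.lf (nat_lit 197631) (.g (nat_lit 2454) (.e (nat_lit 65630) (nat_lit 14) (.e (nat_lit 401459) (nat_lit 13) (.e (nat_lit 483380) (nat_lit 23) (.e (nat_lit 336328) (nat_lit 19) (.e (nat_lit 220928) (nat_lit 4) .nil))))) (.g (nat_lit 4) .nil .nil))))))))))

noncomputable def tv2613 : DT := (.nd (nat_lit 0) (.nd (nat_lit 1) (.nd (nat_lit 2) (.nd (nat_lit 3) (.nd (nat_lit 4) (.nd (nat_lit 5) 
(.lf (nat_lit 197632) (.g (nat_lit 2486) (.e (nat_lit 65630) (nat_lit 14) (.e (nat_lit 401459) (nat_lit 13) (.e (nat_lit 483380) (nat_lit 23) (.e (nat_lit 336330) (nat_lit 19) (.e (nat_lit 220928) (nat_lit 4) .nil))))) (.g (nat_lit 4) .nil .nil))) 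
(.lf (nat_lit 197664) (.g (nat_lit 3085) (.e (nat_lit 65630) (nat_lit 14) (.e (nat_lit 401459) (nat_lit 13) (.e (nat_lit 483388) (nat_lit 23) (.e (nat_lit 336032) (nat_lit 4) (.e (nat_lit 123184) (nat_lit 264) (.e (nat_lit 1191) (nat_lit 88) .nil)))))) (.g (nat_lit 5) .nil .nil)))) (.nd (nat_lit 5) 
(.lf (nat_lit 197648) (.g (nat_lit 2600) (.e (nat_lit 65630) (nat_lit 14) (.e (nat_lit 401459) (nat_lit 13) (.e (nat_lit 483386) (nat_lit 23) (.e (nat_lit 335907) (nat_lit 0) (.e (nat_lit 1994) (nat_lit 137) (.e (nat_lit 663566) (nat_lit 4) .nil)))))) (.g (nat_lit 6) .nil .nil))) 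
(.lf (nat_lit 197680) (.g (nat_lit 3763) (.e (nat_lit 65630) (nat_lit 14) (.e (nat_lit 401459) (nat_lit 13) (.e (nat_lit 483393) (nat_lit 23) (.e (nat_lit 335996) (nat_lit 1) (.e (nat_lit 57870) (nat_lit 264) (.e (nat_lit 1200) (nat_lit 88) .nil)))))) (.g (nat_lit 4) .nil .nil))))) (.nd (nat_lit 4) (.nd (nat_lit 5) 
(.lf (nat_lit 197640) (.g (nat_lit 616) (.e (nat_lit 65630) (nat_lit 14) (.e (nat_lit 401459) (nat_lit 13) (.e (nat_lit 483381) (nat_lit 23) (.e (nat_lit 343808) (nat_lit 19) .nil)))) .nil)) 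
(.lf (nat_lit 197672) (.g (nat_lit 2996) (.e (nat_lit 65630) (nat_lit 14) (.e (nat_lit 401459) (nat_lit 13) (.e (nat_lit 483393) (nat_lit 23) (.e (nat_lit 335987) (nat_lit 1) (.e (nat_lit 57870) (nat_lit 264) (.e (nat_lit 1188) (nat_lit 88) .nil)))))) (.g (nat_lit 5) .nil .nil)))) (.nd (nat_lit 5) 
(.lf (nat_lit 197656) (.g (nat_lit 2752) (.e (nat_lit 65630) (nat_lit 14) (.e (nat_lit 401459) (nat_lit 13) (.e (nat_lit 483387) (nat_lit 23) (.e (nat_lit 335907) (nat_lit 0) (.e (nat_lit 1994) (nat_lit 137) (.e (nat_lit 663566) (nat_lit 4) .nil)))))) (.g (nat_lit 5) .nil .nil))) 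
(.lf (nat_lit 197688) (.g (nat_lit 1041) (.e (nat_lit 65630) (nat_lit 14) (.e (nat_lit 401459) (nat_lit 13) (.e (nat_lit 483394) (nat_lit 24) (.e (nat_lit 344167) (nat_lit 40) .nil)))) .nil))))) (.nd (nat_lit 3) (.nd (nat_lit 4) (.nd (nat_lit 5) 
(.lf (nat_lit 197636) (.g (nat_lit 2428) (.e (nat_lit 65630) (nat_lit 14) (.e (nat_lit 401459) (nat_lit 13) (.e (nat_lit 483380) (nat_lit 23) (.e (nat_lit 336357) (nat_lit 24) (.e (nat_lit 270080) (nat_lit 4) .nil))))) (.g (nat_lit 4) .nil .nil))) 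
(.lf (nat_lit 197668) (.g (nat_lit 645) (.e (nat_lit 65630) (nat_lit 14) (.e (nat_lit 401459) (nat_lit 13) (.e (nat_lit 483392) (nat_lit 23) .nil))) .nil))) (.nd (nat_lit 5) 
(.lf (nat_lit 197652) (.g (nat_lit 960) (.e (nat_lit 65630) (nat_lit 14) (.e (nat_lit 401459) (nat_lit 13) (.e (nat_lit 483386) (nat_lit 23) (.e (nat_lit 335924) (nat_lit 0) .nil)))) .nil)) 
(.lf (nat_lit 197684) (.g (nat_lit 3058) (.e (nat_lit 65630) (nat_lit 14) (.e (nat_lit 401459) (nat_lit 13) (.e (nat_lit 483394) (nat_lit 24) (.e (nat_lit 344097) (nat_lit 18) (.e (nat_lit 5905) (nat_lit 320) (.e (nat_lit 1200) (nat_lit 88) .nil)))))) (.g (nat_lit 4) .nil .nil))))) (.nd (nat_lit 4) (.nd (nat_lit 5) 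
(.lf (nat_lit 197644) (.g (nat_lit 1647) (.e (nat_lit 65630) (nat_lit 14) (.e (nat_lit 401459) (nat_lit 13) (.e (nat_lit 483383) (nat_lit 23) (.e (nat_lit 336029) (nat_lit 4) .nil)))) .nil)) 
(.lf (nat_lit 197676) (.g (nat_lit 3806) (.e (nat_lit 65630) (nat_lit 14) (.e (nat_lit 401459) (nat_lit 13) (.e (nat_lit 483393) (nat_lit 23) (.e (nat_lit 335988) (nat_lit 1) (.e (nat_lit 65280) (nat_lit 264) (.e (nat_lit 1203) (nat_lit 88) .nil)))))) (.g (nat_lit 4) .nil .nil)))) (.nd (nat_lit 5) 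
(.lf (nat_lit 197660) (.g (nat_lit 2675) (.e (nat_lit 65630) (nat_lit 14) (.e (nat_lit 401459) (nat_lit 13) (.e (nat_lit 483387) (nat_lit 23) (.e (nat_lit 336032) (nat_lit 4) (.e (nat_lit 123183) (nat_lit 264) (.e (nat_lit 1191) (nat_lit 88) .nil)))))) (.g (nat_lit 4) .nil .nil))) 
(.lf (nat_lit 197692) (.g (nat_lit 3696) (.e (nat_lit 65630) (nat_lit 14) (.e (nat_lit 401459) (nat_lit 13) (.e (nat_lit 483395) (nat_lit 24) (.e (nat_lit 344090) (nat_lit 18) (.e (nat_lit 5896) (nat_lit 320) (.e (nat_lit 7936) (nat_lit 88) .nil)))))) (.g (nat_lit 5) .nil .nil))))))) (.nd (nat_lit 2) (.nd (nat_lit 3) (.nd (nat_lit 4) (.nd (nat_lit 5) 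
(.lf (nat_lit 197634) (.g (nat_lit 2422) (.e (nat_lit 65630) (nat_lit 14) (.e (nat_lit 401459) (nat_lit 13) (.e (nat_lit 483380) (nat_lit 23) (.e (nat_lit 336354) (nat_lit 24) (.e (nat_lit 270080) (nat_lit 4) .nil))))) (.g (nat_lit 4) .nil .nil))) 
(.lf (nat_lit 197666) (.g (nat_lit 475) (.e (nat_lit 65630) (nat_lit 14) (.e (nat_lit 401459) (nat_lit 13) (.e (nat_lit 483391) (nat_lit 23) .nil))) .nil))) (.nd (nat_lit 5) 
(.lf (nat_lit 197650) (.g (nat_lit 2158) (.e (nat_lit 65630) (nat_lit 14) (.e (nat_lit 401459) (nat_lit 13) (.e (nat_lit 483386) (nat_lit 23) (.e (nat_lit 335908) (nat_lit 0) (.e (nat_lit 1994) (nat_lit 137) (.e (nat_lit 663566) (nat_lit 4) .nil)))))) (.g (nat_lit 0) .nil .nil))) 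
(.lf (nat_lit 197682) (.g (nat_lit 3575) (.e (nat_lit 65630) (nat_lit 14) (.e (nat_lit 401459) (nat_lit 13) (.e (nat_lit 483394) (nat_lit 24) (.e (nat_lit 344097) (nat_lit 18) (.e (nat_lit 5905) (nat_lit 320) (.e (nat_lit 1189) (nat_lit 88) .nil)))))) (.g (nat_lit 4) .nil .nil))))) (.nd (nat_lit 4) (.nd (nat_lit 5) 
(.lf (nat_lit 197642) (.g (nat_lit 1166) (.e (nat_lit 65630) (nat_lit 14) (.e (nat_lit 401459) (nat_lit 13) (.e (nat_lit 483383) (nat_lit 23) (.e (nat_lit 335878) (nat_lit 0) .nil)))) .nil)) 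
(.lf (nat_lit 197674) (.g (nat_lit 3449) (.e (nat_lit 65630) (nat_lit 14) (.e (nat_lit 401459) (nat_lit 13) (.e (nat_lit 483393) (nat_lit 23) (.e (nat_lit 335988) (nat_lit 1) (.e (nat_lit 57870) (nat_lit 264) (.e (nat_lit 1188) (nat_lit 88) .nil)))))) (.g (nat_lit 5) .nil .nil)))) (.nd (nat_lit 5) 
(.lf (nat_lit 197658) (.g (nat_lit 3256) (.e (nat_lit 65630) (nat_lit 14) (.e (nat_lit 401459) (nat_lit 13) (.e (nat_lit 483387) (nat_lit 23) (.e (nat_lit 335997) (nat_lit 1) (.e (nat_lit 57871) (nat_lit 264) (.e (nat_lit 1188) (nat_lit 88) .nil)))))) (.g (nat_lit 6) .nil .nil))) 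
(.lf (nat_lit 197690) (.g (nat_lit 3413) (.e (nat_lit 65630) (nat_lit 14) (.e (nat_lit 401459) (nat_lit 13) (.e (nat_lit 483394) (nat_lit 24) (.e (nat_lit 344169) (nat_lit 40) (.e (nat_lit 671761) (nat_lit 4) .nil))))) (.g (nat_lit 5) .nil .nil)))))) (.nd (nat_lit 3) (.nd (nat_lit 4) (.nd (nat_lit 5) 
(.lf (nat_lit 197638) (.g (nat_lit 2013) (.e (nat_lit 65630) (nat_lit 14) (.e (nat_lit 401459) (nat_lit 13) (.e (nat_lit 483381) (nat_lit 23) (.e (nat_lit 336330) (nat_lit 19) (.e (nat_lit 220928) (nat_lit 4) .nil))))) (.g (nat_lit 4) .nil .nil))) 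
(.lf (nat_lit 197670) (.g (nat_lit 2808) (.e (nat_lit 65630) (nat_lit 14) (.e (nat_lit 401459) (nat_lit 13) (.e (nat_lit 483392) (nat_lit 23) (.e (nat_lit 335996) (nat_lit 1) (.e (nat_lit 57870) (nat_lit 264) (.e (nat_lit 1188) (nat_lit 88) .nil)))))) (.g (nat_lit 4) .nil .nil)))) (.nd (nat_lit 5) 
(.lf (nat_lit 197654) (.g (nat_lit 2010) (.e (nat_lit 65630) (nat_lit 14) (.e (nat_lit 401459) (nat_lit 13) (.e (nat_lit 483386) (nat_lit 23) (.e (nat_lit 336290) (nat_lit 15) (.e (nat_lit 3714) (nat_lit 227) (.e (nat_lit 786176) (nat_lit 4) .nil)))))) (.g (nat_lit 5) .nil .nil))) 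
(.lf (nat_lit 197686) (.g (nat_lit 3117) (.e (nat_lit 65630) (nat_lit 14) (.e (nat_lit 401459) (nat_lit 13) (.e (nat_lit 483394) (nat_lit 24) (.e (nat_lit 344097) (nat_lit 18) (.e (nat_lit 5906) (nat_lit 320) (.e (nat_lit 1200) (nat_lit 88) .nil)))))) (.g (nat_lit 4) .nil .nil))))) (.nd (nat_lit 4) (.nd (nat_lit 5) 
(.lf (nat_lit 197646) (.g (nat_lit 3213) (.e (nat_lit 65630) (nat_lit 14) (.e (nat_lit 401459) (nat_lit 13) (.e (nat_lit 483383) (nat_lit 23) (.e (nat_lit 336332) (nat_lit 19) (.e (nat_lit 220928) (nat_lit 4) .nil))))) (.g (nat_lit 4) .nil .nil))) 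
(.lf (nat_lit 197678) (.g (nat_lit 3770) (.e (nat_lit 65630) (nat_lit 14) (.e (nat_lit 401459) (nat_lit 13) (.e (nat_lit 483393) (nat_lit 23) (.e (nat_lit 335995) (nat_lit 1) (.e (nat_lit 57872) (nat_lit 264) (.e (nat_lit 1200) (nat_lit 88) .nil)))))) (.g (nat_lit 4) .nil .nil)))) (.nd (nat_lit 5) 
(.lf (nat_lit 197662) (.g (nat_lit 3052) (.e (nat_lit 65630) (nat_lit 14) (.e (nat_lit 401459) (nat_lit 13) (.e (nat_lit 483388) (nat_lit 23) (.e (nat_lit 335907) (nat_lit 0) (.e (nat_lit 1994) (nat_lit 137) (.e (nat_lit 663566) (nat_lit 4) .nil)))))) (.g (nat_lit 5) .nil .nil))) 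
(.lf (nat_lit 197694) (.g (nat_lit 3355) (.e (nat_lit 65630) (nat_lit 14) (.e (nat_lit 401459) (nat_lit 13) (.e (nat_lit 483395) (nat_lit 24) (.e (nat_lit 344096) (nat_lit 18) (.e (nat_lit 5872) (nat_lit 320) (.e (nat_lit 1197) (nat_lit 88) .nil)))))) (.g (nat_lit 4) .nil .nil)))))))) (.nd (nat_lit 1) (.nd (nat_lit 2) (.nd (nat_lit 3) (.nd (nat_lit 4) (.nd (nat_lit 5) 
(.lf (nat_lit 197633) (.g (nat_lit 2742) (.e (nat_lit 65630) (nat_lit 14) (.e (nat_lit 401459) (nat_lit 13) (.e (nat_lit 483380) (nat_lit 23) (.e (nat_lit 336332) (nat_lit 19) (.e (nat_lit 220928) (nat_lit 4) .nil))))) (.g (nat_lit 4) .nil .nil))) 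
(.lf (nat_lit 197665) (.g (nat_lit 473) (.e (nat_lit 65630) (nat_lit 14) (.e (nat_lit 401459) (nat_lit 13) (.e (nat_lit 483389) (nat_lit 23) .nil))) .nil))) (.nd (nat_lit 5) 
(.lf (nat_lit 197649) (.g (nat_lit 2475) (.e (nat_lit 65630) (nat_lit 14) (.e (nat_lit 401459) (nat_lit 13) (.e (nat_lit 483386) (nat_lit 23) (.e (nat_lit 335907) (nat_lit 0) (.e (nat_lit 1996) (nat_lit 137) (.e (nat_lit 663566) (nat_lit 4) .nil)))))) (.g (nat_lit 6) .nil .nil))) 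
(.lf (nat_lit 197681) (.g (nat_lit 3253) (.e (nat_lit 65630) (nat_lit 14) (.e (nat_lit 401459) (nat_lit 13) (.e (nat_lit 483394) (nat_lit 24) (.e (nat_lit 344090) (nat_lit 18) (.e (nat_lit 5896) (nat_lit 320) (.e (nat_lit 7936) (nat_lit 88) .nil)))))) (.g (nat_lit 4) .nil .nil))))) (.nd (nat_lit 4) (.nd (nat_lit 5) 
(.lf (nat_lit 197641) (.g (nat_lit 1942) (.e (nat_lit 65630) (nat_lit 14) (.e (nat_lit 401459) (nat_lit 13) (.e (nat_lit 483381) (nat_lit 23) (.e (nat_lit 336357) (nat_lit 24) (.e (nat_lit 270080) (nat_lit 4) .nil))))) (.g (nat_lit 4) .nil .nil))) 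
(.lf (nat_lit 197673) (.g (nat_lit 3504) (.e (nat_lit 65630) (nat_lit 14) (.e (nat_lit 401459) (nat_lit 13) (.e (nat_lit 483393) (nat_lit 23) (.e (nat_lit 335988) (nat_lit 1) (.e (nat_lit 57869) (nat_lit 264) (.e (nat_lit 1197) (nat_lit 88) .nil)))))) (.g (nat_lit 4) .nil .nil)))) (.nd (nat_lit 5) 
(.lf (nat_lit 197657) (.g (nat_lit 3282) (.e (nat_lit 65630) (nat_lit 14) (.e (nat_lit 401459) (nat_lit 13) (.e (nat_lit 483387) (nat_lit 23) (.e (nat_lit 335997) (nat_lit 1) (.e (nat_lit 57870) (nat_lit 264) (.e (nat_lit 1189) (nat_lit 88) .nil)))))) (.g (nat_lit 4) .nil .nil))) 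
(.lf (nat_lit 197689) (.g (nat_lit 3179) (.e (nat_lit 65630) (nat_lit 14) (.e (nat_lit 401459) (nat_lit 13) (.e (nat_lit 483394) (nat_lit 24) (.e (nat_lit 344168) (nat_lit 40) (.e (nat_lit 671761) (nat_lit 4) .nil))))) (.g (nat_lit 4) .nil .nil)))))) (.nd (nat_lit 3) (.nd (nat_lit 4) (.nd (nat_lit 5) 
(.lf (nat_lit 197637) (.g (nat_lit 375) (.e (nat_lit 65630) (nat_lit 14) (.e (nat_lit 401459) (nat_lit 13) (.e (nat_lit 483381) (nat_lit 23) .nil))) .nil)) 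
(.lf (nat_lit 197669) (.g (nat_lit 2787) (.e (nat_lit 65630) (nat_lit 14) (.e (nat_lit 401459) (nat_lit 13) (.e (nat_lit 483392) (nat_lit 23) (.e (nat_lit 335995) (nat_lit 1) (.e (nat_lit 57870) (nat_lit 264) (.e (nat_lit 1188) (nat_lit 88) .nil)))))) (.g (nat_lit 4) .nil .nil)))) (.nd (nat_lit 5) 
(.lf (nat_lit 197653) (.g (nat_lit 1958) (.e (nat_lit 65630) (nat_lit 14) (.e (nat_lit 401459) (nat_lit 13) (.e (nat_lit 483386) (nat_lit 23) (.e (nat_lit 336255) (nat_lit 15) (.e (nat_lit 3681) (nat_lit 227) (.e (nat_lit 786176) (nat_lit 4) .nil)))))) (.g (nat_lit 4) .nil .nil))) 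
(.lf (nat_lit 197685) (.g (nat_lit 3546) (.e (nat_lit 65630) (nat_lit 14) (.e (nat_lit 401459) (nat_lit 13) (.e (nat_lit 483394) (nat_lit 24) (.e (nat_lit 344097) (nat_lit 18) (.e (nat_lit 5906) (nat_lit 320) (.e (nat_lit 1187) (nat_lit 88) .nil)))))) (.g (nat_lit 4) .nil .nil))))) (.nd (nat_lit 4) (.nd (nat_lit 5) 
(.lf (nat_lit 197645) (.g (nat_lit 3966) (.e (nat_lit 65630) (nat_lit 14) (.e (nat_lit 401459) (nat_lit 13) (.e (nat_lit 483383) (nat_lit 23) (.e (nat_lit 336240) (nat_lit 15) (.e (nat_lit 3637) (nat_lit 227) (.e (nat_lit 778320) (nat_lit 4) .nil)))))) (.g (nat_lit 4) .nil .nil))) 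
(.lf (nat_lit 197677) (.g (nat_lit 3357) (.e (nat_lit 65630) (nat_lit 14) (.e (nat_lit 401459) (nat_lit 13) (.e (nat_lit 483393) (nat_lit 23) (.e (nat_lit 335995) (nat_lit 1) (.e (nat_lit 57872) (nat_lit 264) (.e (nat_lit 1187) (nat_lit 88) .nil)))))) (.g (nat_lit 4) .nil .nil)))) (.nd (nat_lit 5) 
(.lf (nat_lit 197661) (.g (nat_lit 3964) (.e (nat_lit 65630) (nat_lit 14) (.e (nat_lit 401459) (nat_lit 13) (.e (nat_lit 483387) (nat_lit 23) (.e (nat_lit 336282) (nat_lit 15) (.e (nat_lit 3632) (nat_lit 227) (.e (nat_lit 778320) (nat_lit 4) .nil)))))) (.g (nat_lit 5) .nil .nil))) 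
(.lf (nat_lit 197693) (.g (nat_lit 2995) (.e (nat_lit 65630) (nat_lit 14) (.e (nat_lit 401459) (nat_lit 13) (.e (nat_lit 483395) (nat_lit 24) (.e (nat_lit 344091) (nat_lit 18) (.e (nat_lit 5875) (nat_lit 320) (.e (nat_lit 1197) (nat_lit 88) .nil)))))) (.g (nat_lit 4) .nil .nil))))))) (.nd (nat_lit 2) (.nd (nat_lit 3) (.nd (nat_lit 4) (.nd (nat_lit 5) 
(.lf (nat_lit 197635) (.g (nat_lit 2684) (.e (nat_lit 65630) (nat_lit 14) (.e (nat_lit 401459) (nat_lit 13) (.e (nat_lit 483380) (nat_lit 23) (.e (nat_lit 336355) (nat_lit 24) (.e (nat_lit 270080) (nat_lit 4) .nil))))) (.g (nat_lit 4) .nil .nil))) 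
(.lf (nat_lit 197667) (.g (nat_lit 2372) (.e (nat_lit 65630) (nat_lit 14) (.e (nat_lit 401459) (nat_lit 13) (.e (nat_lit 483391) (nat_lit 23) (.e (nat_lit 336331) (nat_lit 19) (.e (nat_lit 220928) (nat_lit 4) .nil))))) (.g (nat_lit 4) .nil .nil)))) (.nd (nat_lit 5) 
(.lf (nat_lit 197651) (.g (nat_lit 2191) (.e (nat_lit 65630) (nat_lit 14) (.e (nat_lit 401459) (nat_lit 13) (.e (nat_lit 483386) (nat_lit 23) (.e (nat_lit 335908) (nat_lit 0) (.e (nat_lit 1999) (nat_lit 137) (.e (nat_lit 663566) (nat_lit 4) .nil)))))) (.g (nat_lit 0) .nil .nil))) 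
(.lf (nat_lit 197683) (.g (nat_lit 3336) (.e (nat_lit 65630) (nat_lit 14) (.e (nat_lit 401459) (nat_lit 13) (.e (nat_lit 483394) (nat_lit 24) (.e (nat_lit 344097) (nat_lit 18) (.e (nat_lit 5905) (nat_lit 320) (.e (nat_lit 1199) (nat_lit 88) .nil)))))) (.g (nat_lit 5) .nil .nil))))) (.nd (nat_lit 4) (.nd (nat_lit 5) 
(.lf (nat_lit 197643) (.g (nat_lit 3277) (.e (nat_lit 65630) (nat_lit 14) (.e (nat_lit 401459) (nat_lit 13) (.e (nat_lit 483383) (nat_lit 23) (.e (nat_lit 336000) (nat_lit 1) (.e (nat_lit 57872) (nat_lit 264) (.e (nat_lit 1188) (nat_lit 88) .nil)))))) (.g (nat_lit 4) .nil .nil))) 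
(.lf (nat_lit 197675) (.g (nat_lit 3571) (.e (nat_lit 65630) (nat_lit 14) (.e (nat_lit 401459) (nat_lit 13) (.e (nat_lit 483393) (nat_lit 23) (.e (nat_lit 335988) (nat_lit 1) (.e (nat_lit 57870) (nat_lit 264) (.e (nat_lit 1189) (nat_lit 88) .nil)))))) (.g (nat_lit 4) .nil .nil)))) (.nd (nat_lit 5) 
(.lf (nat_lit 197659) (.g (nat_lit 1303) (.e (nat_lit 65630) (nat_lit 14) (.e (nat_lit 401459) (nat_lit 13) (.e (nat_lit 483387) (nat_lit 23) (.e (nat_lit 335997) (nat_lit 1) (.e (nat_lit 57873) (nat_lit 264) .nil))))) .nil)) 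
(.lf (nat_lit 197691) (.g (nat_lit 3663) (.e (nat_lit 65630) (nat_lit 14) (.e (nat_lit 401459) (nat_lit 13) (.e (nat_lit 483395) (nat_lit 24) (.e (nat_lit 344090) (nat_lit 18) (.e (nat_lit 5896) (nat_lit 320) (.e (nat_lit 1196) (nat_lit 88) .nil)))))) (.g (nat_lit 4) .nil .nil)))))) (.nd (nat_lit 3) (.nd (nat_lit 4) (.nd (nat_lit 5) 
(.lf (nat_lit 197639) (.g (nat_lit 2098) (.e (nat_lit 65630) (nat_lit 14) (.e (nat_lit 401459) (nat_lit 13) (.e (nat_lit 483381) (nat_lit 23) (.e (nat_lit 336332) (nat_lit 19) (.e (nat_lit 220928) (nat_lit 4) .nil))))) (.g (nat_lit 4) .nil .nil))) 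
(.lf (nat_lit 197671) (.g (nat_lit 3503) (.e (nat_lit 65630) (nat_lit 14) (.e (nat_lit 401459) (nat_lit 13) (.e (nat_lit 483392) (nat_lit 23) (.e (nat_lit 335996) (nat_lit 1) (.e (nat_lit 57870) (nat_lit 264) (.e (nat_lit 1199) (nat_lit 88) .nil)))))) (.g (nat_lit 4) .nil .nil)))) (.nd (nat_lit 5) 
(.lf (nat_lit 197655) (.g (nat_lit 1626) (.e (nat_lit 65630) (nat_lit 14) (.e (nat_lit 401459) (nat_lit 13) (.e (nat_lit 483386) (nat_lit 23) (.e (nat_lit 336353) (nat_lit 24) (.e (nat_lit 270080) (nat_lit 4) .nil))))) (.g (nat_lit 4) .nil .nil))) 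
(.lf (nat_lit 197687) (.g (nat_lit 2592) (.e (nat_lit 65630) (nat_lit 14) (.e (nat_lit 401459) (nat_lit 13) (.e (nat_lit 483394) (nat_lit 24) (.e (nat_lit 344104) (nat_lit 18) (.e (nat_lit 5818) (nat_lit 320) (.e (nat_lit 1191) (nat_lit 88) .nil)))))) (.g (nat_lit 4) .nil .nil))))) (.nd (nat_lit 4) (.nd (nat_lit 5) 
(.lf (nat_lit 197647) (.g (nat_lit 2357) (.e (nat_lit 65630) (nat_lit 14) (.e (nat_lit 401459) (nat_lit 13) (.e (nat_lit 483386) (nat_lit 23) (.e (nat_lit 335905) (nat_lit 0) (.e (nat_lit 1999) (nat_lit 137) (.e (nat_lit 663566) (nat_lit 4) .nil)))))) (.g (nat_lit 6) .nil .nil))) 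
(.lf (nat_lit 197679) (.g (nat_lit 3987) (.e (nat_lit 65630) (nat_lit 14) (.e (nat_lit 401459) (nat_lit 13) (.e (nat_lit 483393) (nat_lit 23) (.e (nat_lit 335996) (nat_lit 1) (.e (nat_lit 57870) (nat_lit 264) (.e (nat_lit 1189) (nat_lit 88) .nil)))))) (.g (nat_lit 4) .nil .nil)))) (.nd (nat_lit 5) 
(.lf (nat_lit 197663) (.g (nat_lit 2908) (.e (nat_lit 65630) (nat_lit 14) (.e (nat_lit 401459) (nat_lit 13) (.e (nat_lit 483388) (nat_lit 23) (.e (nat_lit 335907) (nat_lit 0) (.e (nat_lit 1996) (nat_lit 137) (.e (nat_lit 663566) (nat_lit 4) .nil)))))) (.g (nat_lit 5) .nil .nil))) 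
(.lf (nat_lit 197695) (.g (nat_lit 3481) (.e (nat_lit 65630) (nat_lit 14) (.e (nat_lit 401459) (nat_lit 13) (.e (nat_lit 483395) (nat_lit 24) (.e (nat_lit 344097) (nat_lit 18) (.e (nat_lit 5905) (nat_lit 320) (.e (nat_lit 1189) (nat_lit 88) .nil)))))) (.g (nat_lit 4) .nil .nil)))))))))

noncomputable def tv2614 : DT := (.nd (nat_lit 0) (.nd (nat_lit 1) (.nd (nat_lit 2) (.nd (nat_lit 3) (.nd (nat_lit 4) (.nd (nat_lit 5) 
(.lf (nat_lit 197696) (.g (nat_lit 3011) (.e (nat_lit 65630) (nat_lit 14) (.e (nat_lit 401459) (nat_lit 13) (.e (nat_lit 483395) (nat_lit 24) (.e (nat_lit 344097) (nat_lit 18) (.e (nat_lit 5905) (nat_lit 320) (.e (nat_lit 1199) (nat_lit 88) .nil)))))) (.g (nat_lit 5) .nil .nil))) 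
(.lf (nat_lit 197728) (.g (nat_lit 2142) (.e (nat_lit 65630) (nat_lit 14) (.e (nat_lit 401459) (nat_lit 13) (.e (nat_lit 483403) (nat_lit 26) (.e (nat_lit 385095) (nat_lit 49) .nil)))) .nil))) (.nd (nat_lit 5) 
(.lf (nat_lit 197712) (.g (nat_lit 3346) (.e (nat_lit 65630) (nat_lit 14) (.e (nat_lit 401459) (nat_lit 13) (.e (nat_lit 483400) (nat_lit 25) (.e (nat_lit 368662) (nat_lit 18) (.e (nat_lit 5906) (nat_lit 320) (.e (nat_lit 1188) (nat_lit 88) .nil)))))) (.g (nat_lit 6) .nil .nil))) 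
(.lf (nat_lit 197744) (.g (nat_lit 3717) (.e (nat_lit 65630) (nat_lit 14) (.e (nat_lit 401459) (nat_lit 13) (.e (nat_lit 483406) (nat_lit 26) (.e (nat_lit 385093) (nat_lit 49) (.e (nat_lit 778320) (nat_lit 4) .nil))))) (.g (nat_lit 5) .nil .nil))))) (.nd (nat_lit 4) (.nd (nat_lit 5) 
(.lf (nat_lit 197704) (.g (nat_lit 3273) (.e (nat_lit 65630) (nat_lit 14) (.e (nat_lit 401459) (nat_lit 13) (.e (nat_lit 483398) (nat_lit 25) (.e (nat_lit 368662) (nat_lit 18) (.e (nat_lit 5906) (nat_lit 320) (.e (nat_lit 1188) (nat_lit 88) .nil)))))) (.g (nat_lit 6) .nil .nil))) 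
(.lf (nat_lit 197736) (.g (nat_lit 2572) (.e (nat_lit 65630) (nat_lit 14) (.e (nat_lit 401459) (nat_lit 13) (.e (nat_lit 483404) (nat_lit 26) (.e (nat_lit 385098) (nat_lit 49) (.e (nat_lit 786176) (nat_lit 4) .nil))))) (.g (nat_lit 4) .nil .nil)))) (.nd (nat_lit 5) 
(.lf (nat_lit 197720) (.g (nat_lit 2686) (.e (nat_lit 65630) (nat_lit 14) (.e (nat_lit 401459) (nat_lit 13) (.e (nat_lit 483403) (nat_lit 26) (.e (nat_lit 385046) (nat_lit 21) .nil)))) .nil)) 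
(.lf (nat_lit 197752) (.g (nat_lit 3301) (.e (nat_lit 65630) (nat_lit 14) (.e (nat_lit 401459) (nat_lit 13) (.e (nat_lit 483410) (nat_lit 27) (.e (nat_lit 401465) (nat_lit 15) (.e (nat_lit 2303) (nat_lit 151) (.e (nat_lit 786176) (nat_lit 4) .nil)))))) (.g (nat_lit 4) .nil .nil)))))) (.nd (nat_lit 3) (.nd (nat_lit 4) (.nd (nat_lit 5) 
(.lf (nat_lit 197700) (.g (nat_lit 2900) (.e (nat_lit 65630) (nat_lit 14) (.e (nat_lit 401459) (nat_lit 13) (.e (nat_lit 483396) (nat_lit 24) (.e (nat_lit 344169) (nat_lit 40) (.e (nat_lit 671760) (nat_lit 4) .nil))))) (.g (nat_lit 5) .nil .nil))) 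
(.lf (nat_lit 197732) (.g (nat_lit 2461) (.e (nat_lit 65630) (nat_lit 14) (.e (nat_lit 401459) (nat_lit 13) (.e (nat_lit 483403) (nat_lit 26) (.e (nat_lit 385100) (nat_lit 49) (.e (nat_lit 786176) (nat_lit 4) .nil))))) (.g (nat_lit 4) .nil .nil)))) (.nd (nat_lit 5) 
(.lf (nat_lit 197716) (.g (nat_lit 1805) (.e (nat_lit 65630) (nat_lit 14) (.e (nat_lit 401459) (nat_lit 13) (.e (nat_lit 483403) (nat_lit 26) (.e (nat_lit 385043) (nat_lit 21) .nil)))) .nil)) 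
(.lf (nat_lit 197748) (.g (nat_lit 3584) (.e (nat_lit 65630) (nat_lit 14) (.e (nat_lit 401459) (nat_lit 13) (.e (nat_lit 483410) (nat_lit 27) (.e (nat_lit 401461) (nat_lit 15) (.e (nat_lit 2303) (nat_lit 151) (.e (nat_lit 786176) (nat_lit 4) .nil)))))) (.g (nat_lit 4) .nil .nil))))) (.nd (nat_lit 4) (.nd (nat_lit 5) 
(.lf (nat_lit 197708) (.g (nat_lit 3585) (.e (nat_lit 65630) (nat_lit 14) (.e (nat_lit 401459) (nat_lit 13) (.e (nat_lit 483399) (nat_lit 25) (.e (nat_lit 368662) (nat_lit 18) (.e (nat_lit 5906) (nat_lit 320) (.e (nat_lit 1187) (nat_lit 88) .nil)))))) (.g (nat_lit 5) .nil .nil))) 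
(.lf (nat_lit 197740) (.g (nat_lit 2588) (.e (nat_lit 65630) (nat_lit 14) (.e (nat_lit 401459) (nat_lit 13) (.e (nat_lit 483404) (nat_lit 26) (.e (nat_lit 385101) (nat_lit 49) (.e (nat_lit 786176) (nat_lit 4) .nil))))) (.g (nat_lit 4) .nil .nil)))) (.nd (nat_lit 5) 
(.lf (nat_lit 197724) (.g (nat_lit 3555) (.e (nat_lit 65630) (nat_lit 14) (.e (nat_lit 401459) (nat_lit 13) (.e (nat_lit 483403) (nat_lit 26) (.e (nat_lit 385090) (nat_lit 49) (.e (nat_lit 778320) (nat_lit 4) .nil))))) (.g (nat_lit 0) .nil .nil))) 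
(.lf (nat_lit 197756) (.g (nat_lit 1347) (.e (nat_lit 65630) (nat_lit 14) (.e (nat_lit 401459) (nat_lit 13) (.e (nat_lit 483411) (nat_lit 27) (.e (nat_lit 401408) (nat_lit 0) .nil)))) .nil)))))) (.nd (nat_lit 2) (.nd (nat_lit 3) (.nd (nat_lit 4) (.nd (nat_lit 5) 
(.lf (nat_lit 197698) (.g (nat_lit 2866) (.e (nat_lit 65630) (nat_lit 14) (.e (nat_lit 401459) (nat_lit 13) (.e (nat_lit 483395) (nat_lit 24) (.e (nat_lit 344097) (nat_lit 18) (.e (nat_lit 5906) (nat_lit 320) (.e (nat_lit 1200) (nat_lit 88) .nil)))))) (.g (nat_lit 4) .nil .nil))) 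
(.lf (nat_lit 197730) (.g (nat_lit 3808) (.e (nat_lit 65630) (nat_lit 14) (.e (nat_lit 401459) (nat_lit 13) (.e (nat_lit 483403) (nat_lit 26) (.e (nat_lit 385098) (nat_lit 49) (.e (nat_lit 786176) (nat_lit 4) .nil))))) (.g (nat_lit 4) .nil .nil)))) (.nd (nat_lit 5) 
(.lf (nat_lit 197714) (.g (nat_lit 355) (.e (nat_lit 65630) (nat_lit 14) (.e (nat_lit 401459) (nat_lit 13) (.e (nat_lit 483402) (nat_lit 26) .nil))) .nil)) 
(.lf (nat_lit 197746) (.g (nat_lit 3920) (.e (nat_lit 65630) (nat_lit 14) (.e (nat_lit 401459) (nat_lit 13) (.e (nat_lit 483410) (nat_lit 27) (.e (nat_lit 401412) (nat_lit 0) (.e (nat_lit 3345) (nat_lit 206) (.e (nat_lit 606225) (nat_lit 4) .nil)))))) (.g (nat_lit 4) .nil .nil))))) (.nd (nat_lit 4) (.nd (nat_lit 5) 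
(.lf (nat_lit 197706) (.g (nat_lit 2263) (.e (nat_lit 65630) (nat_lit 14) (.e (nat_lit 401459) (nat_lit 13) (.e (nat_lit 483398) (nat_lit 25) (.e (nat_lit 368695) (nat_lit 40) (.e (nat_lit 671760) (nat_lit 4) .nil))))) (.g (nat_lit 4) .nil .nil))) 
(.lf (nat_lit 197738) (.g (nat_lit 2520) (.e (nat_lit 65630) (nat_lit 14) (.e (nat_lit 401459) (nat_lit 13) (.e (nat_lit 483404) (nat_lit 26) (.e (nat_lit 385100) (nat_lit 49) (.e (nat_lit 778319) (nat_lit 4) .nil))))) (.g (nat_lit 5) .nil .nil)))) (.nd (nat_lit 5) 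
(.lf (nat_lit 197722) (.g (nat_lit 2686) (.e (nat_lit 65630) (nat_lit 14) (.e (nat_lit 401459) (nat_lit 13) (.e (nat_lit 483403) (nat_lit 26) (.e (nat_lit 385050) (nat_lit 21) .nil)))) .nil)) 
(.lf (nat_lit 197754) (.g (nat_lit 3112) (.e (nat_lit 65630) (nat_lit 14) (.e (nat_lit 401459) (nat_lit 13) (.e (nat_lit 483410) (nat_lit 27) (.e (nat_lit 401466) (nat_lit 15) (.e (nat_lit 1009) (nat_lit 81) (.e (nat_lit 7454) (nat_lit 396) (.e (nat_lit 1188) (nat_lit 88) .nil))))))) (.g (nat_lit 4) .nil .nil)))))) (.nd (nat_lit 3) (.nd (nat_lit 4) (.nd (nat_lit 5) 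
(.lf (nat_lit 197702) (.g (nat_lit 3155) (.e (nat_lit 65630) (nat_lit 14) (.e (nat_lit 401459) (nat_lit 13) (.e (nat_lit 483397) (nat_lit 25) (.e (nat_lit 368662) (nat_lit 18) (.e (nat_lit 5906) (nat_lit 320) (.e (nat_lit 1188) (nat_lit 88) .nil)))))) (.g (nat_lit 4) .nil .nil))) 
(.lf (nat_lit 197734) (.g (nat_lit 2434) (.e (nat_lit 65630) (nat_lit 14) (.e (nat_lit 401459) (nat_lit 13) (.e (nat_lit 483404) (nat_lit 26) (.e (nat_lit 385090) (nat_lit 49) (.e (nat_lit 786176) (nat_lit 4) .nil))))) (.g (nat_lit 4) .nil .nil)))) (.nd (nat_lit 5) 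
(.lf (nat_lit 197718) (.g (nat_lit 2537) (.e (nat_lit 65630) (nat_lit 14) (.e (nat_lit 401459) (nat_lit 13) (.e (nat_lit 483403) (nat_lit 26) (.e (nat_lit 385044) (nat_lit 21) .nil)))) .nil)) 
(.lf (nat_lit 197750) (.g (nat_lit 3164) (.e (nat_lit 65630) (nat_lit 14) (.e (nat_lit 401459) (nat_lit 13) (.e (nat_lit 483410) (nat_lit 27) (.e (nat_lit 401463) (nat_lit 15) (.e (nat_lit 1015) (nat_lit 81) (.e (nat_lit 7454) (nat_lit 396) (.e (nat_lit 1188) (nat_lit 88) .nil))))))) (.g (nat_lit 4) .nil .nil))))) (.nd (nat_lit 4) (.nd (nat_lit 5) 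
(.lf (nat_lit 197710) (.g (nat_lit 2544) (.e (nat_lit 65630) (nat_lit 14) (.e (nat_lit 401459) (nat_lit 13) (.e (nat_lit 483399) (nat_lit 25) (.e (nat_lit 368695) (nat_lit 40) (.e (nat_lit 671760) (nat_lit 4) .nil))))) (.g (nat_lit 4) .nil .nil))) 
(.lf (nat_lit 197742) (.g (nat_lit 2708) (.e (nat_lit 65630) (nat_lit 14) (.e (nat_lit 401459) (nat_lit 13) (.e (nat_lit 483406) (nat_lit 26) (.e (nat_lit 385091) (nat_lit 49) (.e (nat_lit 778320) (nat_lit 4) .nil))))) (.g (nat_lit 4) .nil .nil)))) (.nd (nat_lit 5) 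
(.lf (nat_lit 197726) (.g (nat_lit 3691) (.e (nat_lit 65630) (nat_lit 14) (.e (nat_lit 401459) (nat_lit 13) (.e (nat_lit 483403) (nat_lit 26) (.e (nat_lit 385092) (nat_lit 49) (.e (nat_lit 778320) (nat_lit 4) .nil))))) (.g (nat_lit 0) .nil .nil))) 
(.lf (nat_lit 197758) (.g (nat_lit 2289) (.e (nat_lit 65630) (nat_lit 14) (.e (nat_lit 401459) (nat_lit 13) (.e (nat_lit 483411) (nat_lit 27) (.e (nat_lit 401409) (nat_lit 0) .nil)))) .nil))))))) (.nd (nat_lit 1) (.nd (nat_lit 2) (.nd (nat_lit 3) (.nd (nat_lit 4) (.nd (nat_lit 5) 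
(.lf (nat_lit 197697) (.g (nat_lit 3276) (.e (nat_lit 65630) (nat_lit 14) (.e (nat_lit 401459) (nat_lit 13) (.e (nat_lit 483395) (nat_lit 24) (.e (nat_lit 344097) (nat_lit 18) (.e (nat_lit 5906) (nat_lit 320) (.e (nat_lit 1187) (nat_lit 88) .nil)))))) (.g (nat_lit 4) .nil .nil))) 
(.lf (nat_lit 197729) (.g (nat_lit 2709) (.e (nat_lit 65630) (nat_lit 14) (.e (nat_lit 401459) (nat_lit 13) (.e (nat_lit 483403) (nat_lit 26) (.e (nat_lit 385096) (nat_lit 49) (.e (nat_lit 786176) (nat_lit 4) .nil))))) (.g (nat_lit 4) .nil .nil)))) (.nd (nat_lit 5) 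
(.lf (nat_lit 197713) (.g (nat_lit 2526) (.e (nat_lit 65630) (nat_lit 14) (.e (nat_lit 401459) (nat_lit 13) (.e (nat_lit 483400) (nat_lit 25) (.e (nat_lit 368695) (nat_lit 40) (.e (nat_lit 671760) (nat_lit 4) .nil))))) (.g (nat_lit 4) .nil .nil))) 
(.lf (nat_lit 197745) (.g (nat_lit 1081) (.e (nat_lit 65630) (nat_lit 14) (.e (nat_lit 401459) (nat_lit 13) (.e (nat_lit 483409) (nat_lit 27) (.e (nat_lit 401422) (nat_lit 1) .nil)))) .nil)))) (.nd (nat_lit 4) (.nd (nat_lit 5) 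
(.lf (nat_lit 197705) (.g (nat_lit 2793) (.e (nat_lit 65630) (nat_lit 14) (.e (nat_lit 401459) (nat_lit 13) (.e (nat_lit 483398) (nat_lit 25) (.e (nat_lit 368662) (nat_lit 18) (.e (nat_lit 5907) (nat_lit 320) (.e (nat_lit 1187) (nat_lit 88) .nil)))))) (.g (nat_lit 4) .nil .nil))) 
(.lf (nat_lit 197737) (.g (nat_lit 2627) (.e (nat_lit 65630) (nat_lit 14) (.e (nat_lit 401459) (nat_lit 13) (.e (nat_lit 483404) (nat_lit 26) (.e (nat_lit 385099) (nat_lit 49) (.e (nat_lit 786176) (nat_lit 4) .nil))))) (.g (nat_lit 4) .nil .nil)))) (.nd (nat_lit 5) 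
(.lf (nat_lit 197721) (.g (nat_lit 2570) (.e (nat_lit 65630) (nat_lit 14) (.e (nat_lit 401459) (nat_lit 13) (.e (nat_lit 483403) (nat_lit 26) (.e (nat_lit 385047) (nat_lit 21) .nil)))) .nil)) 
(.lf (nat_lit 197753) (.g (nat_lit 3406) (.e (nat_lit 65630) (nat_lit 14) (.e (nat_lit 401459) (nat_lit 13) (.e (nat_lit 483410) (nat_lit 27) (.e (nat_lit 401465) (nat_lit 15) (.e (nat_lit 2338) (nat_lit 151) (.e (nat_lit 786176) (nat_lit 4) .nil)))))) (.g (nat_lit 4) .nil .nil)))))) (.nd (nat_lit 3) (.nd (nat_lit 4) (.nd (nat_lit 5) 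
(.lf (nat_lit 197701) (.g (nat_lit 2891) (.e (nat_lit 65630) (nat_lit 14) (.e (nat_lit 401459) (nat_lit 13) (.e (nat_lit 483396) (nat_lit 24) (.e (nat_lit 344169) (nat_lit 40) (.e (nat_lit 671761) (nat_lit 4) .nil))))) (.g (nat_lit 4) .nil .nil))) 
(.lf (nat_lit 197733) (.g (nat_lit 502) (.e (nat_lit 65630) (nat_lit 14) (.e (nat_lit 401459) (nat_lit 13) (.e (nat_lit 483404) (nat_lit 26) .nil))) .nil))) (.nd (nat_lit 5) 
(.lf (nat_lit 197717) (.g (nat_lit 2286) (.e (nat_lit 65630) (nat_lit 14) (.e (nat_lit 401459) (nat_lit 13) (.e (nat_lit 483403) (nat_lit 26) (.e (nat_lit 385043) (nat_lit 21) (.e (nat_lit 7450) (nat_lit 396) .nil))))) .nil)) 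
(.lf (nat_lit 197749) (.g (nat_lit 3507) (.e (nat_lit 65630) (nat_lit 14) (.e (nat_lit 401459) (nat_lit 13) (.e (nat_lit 483410) (nat_lit 27) (.e (nat_lit 401462) (nat_lit 15) (.e (nat_lit 2334) (nat_lit 151) (.e (nat_lit 786176) (nat_lit 4) .nil)))))) (.g (nat_lit 5) .nil .nil))))) (.nd (nat_lit 4) (.nd (nat_lit 5) 
(.lf (nat_lit 197709) (.g (nat_lit 3521) (.e (nat_lit 65630) (nat_lit 14) (.e (nat_lit 401459) (nat_lit 13) (.e (nat_lit 483399) (nat_lit 25) (.e (nat_lit 368662) (nat_lit 18) (.e (nat_lit 5906) (nat_lit 320) (.e (nat_lit 1188) (nat_lit 88) .nil)))))) (.g (nat_lit 6) .nil .nil))) 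
(.lf (nat_lit 197741) (.g (nat_lit 964) (.e (nat_lit 65630) (nat_lit 14) (.e (nat_lit 401459) (nat_lit 13) (.e (nat_lit 483404) (nat_lit 26) (.e (nat_lit 392960) (nat_lit 49) .nil)))) .nil))) (.nd (nat_lit 5) 
(.lf (nat_lit 197725) (.g (nat_lit 2469) (.e (nat_lit 65630) (nat_lit 14) (.e (nat_lit 401459) (nat_lit 13) (.e (nat_lit 483403) (nat_lit 26) (.e (nat_lit 385090) (nat_lit 49) (.e (nat_lit 786176) (nat_lit 4) .nil))))) (.g (nat_lit 4) .nil .nil))) 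
(.lf (nat_lit 197757) (.g (nat_lit 3055) (.e (nat_lit 65630) (nat_lit 14) (.e (nat_lit 401459) (nat_lit 13) (.e (nat_lit 483411) (nat_lit 27) (.e (nat_lit 401408) (nat_lit 0) (.e (nat_lit 3349) (nat_lit 206) (.e (nat_lit 606224) (nat_lit 4) .nil)))))) (.g (nat_lit 4) .nil .nil))))))) (.nd (nat_lit 2) (.nd (nat_lit 3) (.nd (nat_lit 4) (.nd (nat_lit 5) 
(.lf (nat_lit 197699) (.g (nat_lit 3082) (.e (nat_lit 65630) (nat_lit 14) (.e (nat_lit 401459) (nat_lit 13) (.e (nat_lit 483395) (nat_lit 24) (.e (nat_lit 344168) (nat_lit 40) (.e (nat_lit 671760) (nat_lit 4) .nil))))) (.g (nat_lit 0) .nil .nil))) 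
(.lf (nat_lit 197731) (.g (nat_lit 2845) (.e (nat_lit 65630) (nat_lit 14) (.e (nat_lit 401459) (nat_lit 13) (.e (nat_lit 483403) (nat_lit 26) (.e (nat_lit 385100) (nat_lit 49) (.e (nat_lit 778319) (nat_lit 4) .nil))))) (.g (nat_lit 0) .nil .nil)))) (.nd (nat_lit 5) 
(.lf (nat_lit 197715) (.g (nat_lit 1027) (.e (nat_lit 65630) (nat_lit 14) (.e (nat_lit 401459) (nat_lit 13) (.e (nat_lit 483402) (nat_lit 26) (.e (nat_lit 385100) (nat_lit 49) .nil)))) .nil)) 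
(.lf (nat_lit 197747) (.g (nat_lit 3243) (.e (nat_lit 65630) (nat_lit 14) (.e (nat_lit 401459) (nat_lit 13) (.e (nat_lit 483410) (nat_lit 27) (.e (nat_lit 401422) (nat_lit 1) (.e (nat_lit 164423) (nat_lit 272) (.e (nat_lit 1187) (nat_lit 88) .nil)))))) (.g (nat_lit 4) .nil .nil))))) (.nd (nat_lit 4) (.nd (nat_lit 5) 
(.lf (nat_lit 197707) (.g (nat_lit 928) (.e (nat_lit 65630) (nat_lit 14) (.e (nat_lit 401459) (nat_lit 13) (.e (nat_lit 483399) (nat_lit 25) (.e (nat_lit 368659) (nat_lit 18) .nil)))) .nil)) 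
(.lf (nat_lit 197739) (.g (nat_lit 2533) (.e (nat_lit 65630) (nat_lit 14) (.e (nat_lit 401459) (nat_lit 13) (.e (nat_lit 483404) (nat_lit 26) (.e (nat_lit 385100) (nat_lit 49) (.e (nat_lit 786176) (nat_lit 4) .nil))))) (.g (nat_lit 4) .nil .nil)))) (.nd (nat_lit 5) 
(.lf (nat_lit 197723) (.g (nat_lit 2686) (.e (nat_lit 65630) (nat_lit 14) (.e (nat_lit 401459) (nat_lit 13) (.e (nat_lit 483403) (nat_lit 26) (.e (nat_lit 385051) (nat_lit 21) .nil)))) .nil)) 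
(.lf (nat_lit 197755) (.g (nat_lit 3000) (.e (nat_lit 65630) (nat_lit 14) (.e (nat_lit 401459) (nat_lit 13) (.e (nat_lit 483410) (nat_lit 27) (.e (nat_lit 401466) (nat_lit 15) (.e (nat_lit 2334) (nat_lit 151) (.e (nat_lit 778319) (nat_lit 4) .nil)))))) (.g (nat_lit 4) .nil .nil)))))) (.nd (nat_lit 3) (.nd (nat_lit 4) (.nd (nat_lit 5) 
(.lf (nat_lit 197703) (.g (nat_lit 3154) (.e (nat_lit 65630) (nat_lit 14) (.e (nat_lit 401459) (nat_lit 13) (.e (nat_lit 483398) (nat_lit 25) (.e (nat_lit 368662) (nat_lit 18) (.e (nat_lit 5874) (nat_lit 320) (.e (nat_lit 1197) (nat_lit 88) .nil)))))) (.g (nat_lit 4) .nil .nil))) 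
(.lf (nat_lit 197735) (.g (nat_lit 2443) (.e (nat_lit 65630) (nat_lit 14) (.e (nat_lit 401459) (nat_lit 13) (.e (nat_lit 483404) (nat_lit 26) (.e (nat_lit 385096) (nat_lit 49) (.e (nat_lit 786176) (nat_lit 4) .nil))))) (.g (nat_lit 4) .nil .nil)))) (.nd (nat_lit 5) 
(.lf (nat_lit 197719) (.g (nat_lit 2551) (.e (nat_lit 65630) (nat_lit 14) (.e (nat_lit 401459) (nat_lit 13) (.e (nat_lit 483403) (nat_lit 26) (.e (nat_lit 385045) (nat_lit 21) .nil)))) .nil)) 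
(.lf (nat_lit 197751) (.g (nat_lit 3469) (.e (nat_lit 65630) (nat_lit 14) (.e (nat_lit 401459) (nat_lit 13) (.e (nat_lit 483410) (nat_lit 27) (.e (nat_lit 401464) (nat_lit 15) (.e (nat_lit 2334) (nat_lit 151) (.e (nat_lit 786176) (nat_lit 4) .nil)))))) (.g (nat_lit 4) .nil .nil))))) (.nd (nat_lit 4) (.nd (nat_lit 5) 
(.lf (nat_lit 197711) (.g (nat_lit 3026) (.e (nat_lit 65630) (nat_lit 14) (.e (nat_lit 401459) (nat_lit 13) (.e (nat_lit 483400) (nat_lit 25) (.e (nat_lit 368662) (nat_lit 18) (.e (nat_lit 5905) (nat_lit 320) (.e (nat_lit 1188) (nat_lit 88) .nil)))))) (.g (nat_lit 5) .nil .nil))) 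
(.lf (nat_lit 197743) (.g (nat_lit 3332) (.e (nat_lit 65630) (nat_lit 14) (.e (nat_lit 401459) (nat_lit 13) (.e (nat_lit 483406) (nat_lit 26) (.e (nat_lit 385092) (nat_lit 49) (.e (nat_lit 778320) (nat_lit 4) .nil))))) (.g (nat_lit 5) .nil .nil)))) (.nd (nat_lit 5) 
(.lf (nat_lit 197727) (.g (nat_lit 3880) (.e (nat_lit 65630) (nat_lit 14) (.e (nat_lit 401459) (nat_lit 13) (.e (nat_lit 483403) (nat_lit 26) (.e (nat_lit 385094) (nat_lit 49) (.e (nat_lit 778320) (nat_lit 4) .nil))))) (.g (nat_lit 0) .nil .nil))) 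
(.lf (nat_lit 197759) (.g (nat_lit 2289) (.e (nat_lit 65630) (nat_lit 14) (.e (nat_lit 401459) (nat_lit 13) (.e (nat_lit 483411) (nat_lit 27) (.e (nat_lit 401411) (nat_lit 0) .nil)))) .nil))))))))

noncomputable def tv2615 : DT := (.nd (nat_lit 0) (.nd (nat_lit 1) (.nd (nat_lit 2) (.nd (nat_lit 3) (.nd (nat_lit 4) (.nd (nat_lit 5) 
(.lf (nat_lit 197760) (.g (nat_lit 2285) (.e (nat_lit 65630) (nat_lit 14) (.e (nat_lit 401459) (nat_lit 13) (.e (nat_lit 483411) (nat_lit 27) (.e (nat_lit 401413) (nat_lit 0) .nil)))) .nil)) 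
(.lf (nat_lit 197792) (.g (nat_lit 1934) (.e (nat_lit 65631) (nat_lit 15) (.e (nat_lit 7593) (nat_lit 407) (.e (nat_lit 73746) (nat_lit 3) (.e (nat_lit 516195) (nat_lit 26) (.e (nat_lit 335995) (nat_lit 1) .nil))))) .nil))) (.nd (nat_lit 5) 
(.lf (nat_lit 197776) (.g (nat_lit 3028) (.e (nat_lit 65630) (nat_lit 14) (.e (nat_lit 401459) (nat_lit 13) (.e (nat_lit 483411) (nat_lit 27) (.e (nat_lit 401414) (nat_lit 0) (.e (nat_lit 3343) (nat_lit 206) (.e (nat_lit 606225) (nat_lit 4) .nil)))))) (.g (nat_lit 4) .nil .nil))) 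
(.lf (nat_lit 197808) (.g (nat_lit 1865) (.e (nat_lit 65632) (nat_lit 15) (.e (nat_lit 7077) (nat_lit 378) (.e (nat_lit 57884) (nat_lit 270) (.e (nat_lit 1656) (nat_lit 115) (.e (nat_lit 393237) (nat_lit 17) (.e (nat_lit 7936) (nat_lit 406) .nil)))))) (.g (nat_lit 4) .nil .nil))))) (.nd (nat_lit 4) (.nd (nat_lit 5) 
(.lf (nat_lit 197768) (.g (nat_lit 3243) (.e (nat_lit 65630) (nat_lit 14) (.e (nat_lit 401459) (nat_lit 13) (.e (nat_lit 483411) (nat_lit 27) (.e (nat_lit 401414) (nat_lit 0) (.e (nat_lit 2426) (nat_lit 157) (.e (nat_lit 4598) (nat_lit 269) (.e (nat_lit 1196) (nat_lit 88) .nil))))))) (.g (nat_lit 4) .nil .nil))) 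
(.lf (nat_lit 197800) (.g (nat_lit 1144) (.e (nat_lit 65632) (nat_lit 15) (.e (nat_lit 6953) (nat_lit 377) (.e (nat_lit 1367) (nat_lit 103) (.e (nat_lit 294938) (nat_lit 9) (.e (nat_lit 336438) (nat_lit 31) (.e (nat_lit 466688) (nat_lit 4) .nil)))))) (.g (nat_lit 5) .nil .nil)))) (.nd (nat_lit 5) 
(.lf (nat_lit 197784) (.g (nat_lit 1807) (.e (nat_lit 65630) (nat_lit 14) (.e (nat_lit 401459) (nat_lit 13) (.e (nat_lit 483411) (nat_lit 27) (.e (nat_lit 401418) (nat_lit 0) .nil)))) .nil)) 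
(.lf (nat_lit 197816) (.g (nat_lit 951) (.e (nat_lit 65632) (nat_lit 15) (.e (nat_lit 7079) (nat_lit 378) (.e (nat_lit 57897) (nat_lit 274) (.e (nat_lit 65648) (nat_lit 26) (.e (nat_lit 417796) (nat_lit 0) (.e (nat_lit 5405) (nat_lit 302) .nil)))))) (.g (nat_lit 0) .nil .nil)))))) (.nd (nat_lit 3) (.nd (nat_lit 4) (.nd (nat_lit 5) 
(.lf (nat_lit 197764) (.g (nat_lit 3700) (.e (nat_lit 65630) (nat_lit 14) (.e (nat_lit 401459) (nat_lit 13) (.e (nat_lit 483411) (nat_lit 27) (.e (nat_lit 401414) (nat_lit 0) (.e (nat_lit 2425) (nat_lit 157) (.e (nat_lit 4554) (nat_lit 269) (.e (nat_lit 1191) (nat_lit 88) .nil))))))) (.g (nat_lit 4) .nil .nil))) 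
(.lf (nat_lit 197796) (.g (nat_lit 1608) (.e (nat_lit 65632) (nat_lit 15) (.e (nat_lit 6952) (nat_lit 377) (.e (nat_lit 1367) (nat_lit 103) (.e (nat_lit 294960) (nat_lit 13) (.e (nat_lit 393238) (nat_lit 17) (.e (nat_lit 7936) (nat_lit 406) .nil)))))) (.g (nat_lit 5) .nil .nil)))) (.nd (nat_lit 5) 
(.lf (nat_lit 197780) (.g (nat_lit 3757) (.e (nat_lit 65630) (nat_lit 14) (.e (nat_lit 401459) (nat_lit 13) (.e (nat_lit 483411) (nat_lit 27) (.e (nat_lit 401414) (nat_lit 0) (.e (nat_lit 3349) (nat_lit 206) (.e (nat_lit 606224) (nat_lit 4) .nil)))))) (.g (nat_lit 5) .nil .nil))) 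
(.lf (nat_lit 197812) (.g (nat_lit 877) (.e (nat_lit 65632) (nat_lit 15) (.e (nat_lit 7077) (nat_lit 378) (.e (nat_lit 57902) (nat_lit 277) (.e (nat_lit 131140) (nat_lit 27) (.e (nat_lit 426014) (nat_lit 0) .nil))))) .nil)))) (.nd (nat_lit 4) (.nd (nat_lit 5) 
(.lf (nat_lit 197772) (.g (nat_lit 3394) (.e (nat_lit 65630) (nat_lit 14) (.e (nat_lit 401459) (nat_lit 13) (.e (nat_lit 483411) (nat_lit 27) (.e (nat_lit 401414) (nat_lit 0) (.e (nat_lit 2438) (nat_lit 157) (.e (nat_lit 4604) (nat_lit 269) (.e (nat_lit 1187) (nat_lit 88) .nil))))))) (.g (nat_lit 4) .nil .nil))) 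
(.lf (nat_lit 197804) (.g (nat_lit 1596) (.e (nat_lit 65632) (nat_lit 15) (.e (nat_lit 6953) (nat_lit 377) (.e (nat_lit 1367) (nat_lit 103) (.e (nat_lit 294960) (nat_lit 13) (.e (nat_lit 393238) (nat_lit 17) (.e (nat_lit 7936) (nat_lit 406) .nil)))))) (.g (nat_lit 5) .nil .nil)))) (.nd (nat_lit 5) 
(.lf (nat_lit 197788) (.g (nat_lit 1246) (.e (nat_lit 65630) (nat_lit 14) (.e (nat_lit 409344) (nat_lit 34) (.e (nat_lit 393273) (nat_lit 23) (.e (nat_lit 426457) (nat_lit 22) (.e (nat_lit 139279) (nat_lit 4) .nil))))) (.g (nat_lit 4) .nil .nil))) 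
(.lf (nat_lit 197820) (.g (nat_lit 979) (.e (nat_lit 65632) (nat_lit 15) (.e (nat_lit 7081) (nat_lit 378) (.e (nat_lit 57897) (nat_lit 274) (.e (nat_lit 65653) (nat_lit 27) (.e (nat_lit 426009) (nat_lit 0) (.e (nat_lit 7589) (nat_lit 406) .nil)))))) (.g (nat_lit 0) .nil .nil))))))) (.nd (nat_lit 2) (.nd (nat_lit 3) (.nd (nat_lit 4) (.nd (nat_lit 5) 
(.lf (nat_lit 197762) (.g (nat_lit 3423) (.e (nat_lit 65630) (nat_lit 14) (.e (nat_lit 401459) (nat_lit 13) (.e (nat_lit 483411) (nat_lit 27) (.e (nat_lit 401414) (nat_lit 0) (.e (nat_lit 2424) (nat_lit 157) (.e (nat_lit 4554) (nat_lit 269) (.e (nat_lit 1191) (nat_lit 88) .nil))))))) (.g (nat_lit 4) .nil .nil))) 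
(.lf (nat_lit 197794) (.g (nat_lit 351) (.e (nat_lit 65632) (nat_lit 15) (.e (nat_lit 6950) (nat_lit 377) (.e (nat_lit 1367) (nat_lit 103) (.e (nat_lit 294941) (nat_lit 9) .nil)))) .nil))) (.nd (nat_lit 5) 
(.lf (nat_lit 197778) (.g (nat_lit 3618) (.e (nat_lit 65630) (nat_lit 14) (.e (nat_lit 401459) (nat_lit 13) (.e (nat_lit 483411) (nat_lit 27) (.e (nat_lit 401414) (nat_lit 0) (.e (nat_lit 3347) (nat_lit 206) (.e (nat_lit 606224) (nat_lit 4) .nil)))))) (.g (nat_lit 4) .nil .nil))) 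
(.lf (nat_lit 197810) (.g (nat_lit 579) (.e (nat_lit 65632) (nat_lit 15) (.e (nat_lit 7077) (nat_lit 378) (.e (nat_lit 57902) (nat_lit 277) (.e (nat_lit 131138) (nat_lit 27) (.e (nat_lit 426071) (nat_lit 0) (.e (nat_lit 7936) (nat_lit 406) .nil)))))) (.g (nat_lit 4) .nil .nil))))) (.nd (nat_lit 4) (.nd (nat_lit 5) 
(.lf (nat_lit 197770) (.g (nat_lit 3413) (.e (nat_lit 65630) (nat_lit 14) (.e (nat_lit 401459) (nat_lit 13) (.e (nat_lit 483411) (nat_lit 27) (.e (nat_lit 401414) (nat_lit 0) (.e (nat_lit 2438) (nat_lit 157) (.e (nat_lit 4561) (nat_lit 269) (.e (nat_lit 1187) (nat_lit 88) .nil))))))) (.g (nat_lit 4) .nil .nil))) 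
(.lf (nat_lit 197802) (.g (nat_lit 2252) (.e (nat_lit 65632) (nat_lit 15) (.e (nat_lit 6953) (nat_lit 377) (.e (nat_lit 1367) (nat_lit 103) (.e (nat_lit 294958) (nat_lit 13) (.e (nat_lit 393234) (nat_lit 17) (.e (nat_lit 7589) (nat_lit 406) .nil)))))) (.g (nat_lit 6) .nil .nil)))) (.nd (nat_lit 5) 
(.lf (nat_lit 197786) (.g (nat_lit 2043) (.e (nat_lit 65630) (nat_lit 14) (.e (nat_lit 409344) (nat_lit 18) (.e (nat_lit 98359) (nat_lit 26) (.e (nat_lit 426286) (nat_lit 10) (.e (nat_lit 434295) (nat_lit 49) (.e (nat_lit 745491) (nat_lit 4) .nil)))))) (.g (nat_lit 4) .nil .nil))) 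
(.lf (nat_lit 197818) (.g (nat_lit 2356) (.e (nat_lit 65632) (nat_lit 15) (.e (nat_lit 7081) (nat_lit 378) (.e (nat_lit 57884) (nat_lit 270) (.e (nat_lit 1656) (nat_lit 115) (.e (nat_lit 393234) (nat_lit 17) (.e (nat_lit 7936) (nat_lit 406) .nil)))))) (.g (nat_lit 5) .nil .nil)))))) (.nd (nat_lit 3) (.nd (nat_lit 4) (.nd (nat_lit 5) 
(.lf (nat_lit 197766) (.g (nat_lit 3528) (.e (nat_lit 65630) (nat_lit 14) (.e (nat_lit 401459) (nat_lit 13) (.e (nat_lit 483411) (nat_lit 27) (.e (nat_lit 401414) (nat_lit 0) (.e (nat_lit 2426) (nat_lit 157) (.e (nat_lit 4588) (nat_lit 269) (.e (nat_lit 1187) (nat_lit 88) .nil))))))) (.g (nat_lit 4) .nil .nil))) 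
(.lf (nat_lit 197798) (.g (nat_lit 48) (.e (nat_lit 65632) (nat_lit 15) (.e (nat_lit 6953) (nat_lit 377) (.e (nat_lit 1367) (nat_lit 103) .nil))) .nil))) (.nd (nat_lit 5) 
(.lf (nat_lit 197782) (.g (nat_lit 2238) (.e (nat_lit 65630) (nat_lit 14) (.e (nat_lit 401459) (nat_lit 13) (.e (nat_lit 483411) (nat_lit 27) (.e (nat_lit 401417) (nat_lit 0) .nil)))) .nil)) 
(.lf (nat_lit 197814) (.g (nat_lit 2339) (.e (nat_lit 65632) (nat_lit 15) (.e (nat_lit 7079) (nat_lit 378) (.e (nat_lit 57884) (nat_lit 270) (.e (nat_lit 1656) (nat_lit 115) (.e (nat_lit 393233) (nat_lit 17) (.e (nat_lit 7589) (nat_lit 406) .nil)))))) (.g (nat_lit 6) .nil .nil))))) (.nd (nat_lit 4) (.nd (nat_lit 5) 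
(.lf (nat_lit 197774) (.g (nat_lit 3207) (.e (nat_lit 65630) (nat_lit 14) (.e (nat_lit 401459) (nat_lit 13) (.e (nat_lit 483411) (nat_lit 27) (.e (nat_lit 401414) (nat_lit 0) (.e (nat_lit 2478) (nat_lit 157) (.e (nat_lit 4605) (nat_lit 269) (.e (nat_lit 1196) (nat_lit 88) .nil))))))) (.g (nat_lit 4) .nil .nil))) 
(.lf (nat_lit 197806) (.g (nat_lit 2864) (.e (nat_lit 65632) (nat_lit 15) (.e (nat_lit 7077) (nat_lit 378) (.e (nat_lit 57884) (nat_lit 270) (.e (nat_lit 1656) (nat_lit 115) (.e (nat_lit 393234) (nat_lit 17) (.e (nat_lit 7587) (nat_lit 406) .nil)))))) (.g (nat_lit 6) .nil .nil)))) (.nd (nat_lit 5) 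
(.lf (nat_lit 197790) (.g (nat_lit 1577) (.e (nat_lit 65631) (nat_lit 15) (.e (nat_lit 6961) (nat_lit 377) (.e (nat_lit 1348) (nat_lit 102) (.e (nat_lit 286761) (nat_lit 13) (.e (nat_lit 393234) (nat_lit 17) .nil))))) .nil)) 
(.lf (nat_lit 197822) (.g (nat_lit 654) (.e (nat_lit 65632) (nat_lit 15) (.e (nat_lit 7081) (nat_lit 378) (.e (nat_lit 57902) (nat_lit 277) (.e (nat_lit 131138) (nat_lit 27) (.e (nat_lit 425989) (nat_lit 0) (.e (nat_lit 7588) (nat_lit 406) .nil)))))) (.g (nat_lit 0) .nil .nil)))))))) (.nd (nat_lit 1) (.nd (nat_lit 2) (.nd (nat_lit 3) (.nd (nat_lit 4) (.nd (nat_lit 5) 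
(.lf (nat_lit 197761) (.g (nat_lit 1407) (.e (nat_lit 65630) (nat_lit 14) (.e (nat_lit 401459) (nat_lit 13) (.e (nat_lit 483411) (nat_lit 27) (.e (nat_lit 401414) (nat_lit 0) .nil)))) .nil)) 
(.lf (nat_lit 197793) (.g (nat_lit 3204) (.e (nat_lit 65632) (nat_lit 15) (.e (nat_lit 6950) (nat_lit 377) (.e (nat_lit 1360) (nat_lit 102) (.e (nat_lit 286761) (nat_lit 13) (.e (nat_lit 393234) (nat_lit 17) (.e (nat_lit 7587) (nat_lit 406) .nil)))))) (.g (nat_lit 6) .nil .nil)))) (.nd (nat_lit 5) 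
(.lf (nat_lit 197777) (.g (nat_lit 3396) (.e (nat_lit 65630) (nat_lit 14) (.e (nat_lit 401459) (nat_lit 13) (.e (nat_lit 483411) (nat_lit 27) (.e (nat_lit 401414) (nat_lit 0) (.e (nat_lit 3343) (nat_lit 206) (.e (nat_lit 606226) (nat_lit 4) .nil)))))) (.g (nat_lit 4) .nil .nil))) 
(.lf (nat_lit 197809) (.g (nat_lit 762) (.e (nat_lit 65632) (nat_lit 15) (.e (nat_lit 7077) (nat_lit 378) (.e (nat_lit 57902) (nat_lit 277) (.e (nat_lit 131138) (nat_lit 27) (.e (nat_lit 425987) (nat_lit 0) (.e (nat_lit 7588) (nat_lit 406) .nil)))))) (.g (nat_lit 5) .nil .nil))))) (.nd (nat_lit 4) (.nd (nat_lit 5) 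
(.lf (nat_lit 197769) (.g (nat_lit 3219) (.e (nat_lit 65630) (nat_lit 14) (.e (nat_lit 401459) (nat_lit 13) (.e (nat_lit 483411) (nat_lit 27) (.e (nat_lit 401414) (nat_lit 0) (.e (nat_lit 2426) (nat_lit 157) (.e (nat_lit 4622) (nat_lit 269) (.e (nat_lit 1196) (nat_lit 88) .nil))))))) (.g (nat_lit 4) .nil .nil))) 
(.lf (nat_lit 197801) (.g (nat_lit 1237) (.e (nat_lit 65632) (nat_lit 15) (.e (nat_lit 6953) (nat_lit 377) (.e (nat_lit 1367) (nat_lit 103) (.e (nat_lit 294940) (nat_lit 9) (.e (nat_lit 336438) (nat_lit 31) (.e (nat_lit 466688) (nat_lit 4) .nil)))))) (.g (nat_lit 5) .nil .nil)))) (.nd (nat_lit 5) 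
(.lf (nat_lit 197785) (.g (nat_lit 1842) (.e (nat_lit 65630) (nat_lit 14) (.e (nat_lit 401459) (nat_lit 13) (.e (nat_lit 483411) (nat_lit 27) (.e (nat_lit 401464) (nat_lit 15) .nil)))) .nil)) 
(.lf (nat_lit 197817) (.g (nat_lit 2927) (.e (nat_lit 65632) (nat_lit 15) (.e (nat_lit 7081) (nat_lit 378) (.e (nat_lit 57884) (nat_lit 270) (.e (nat_lit 1656) (nat_lit 115) (.e (nat_lit 393234) (nat_lit 17) (.e (nat_lit 7589) (nat_lit 406) .nil)))))) (.g (nat_lit 0) .nil .nil)))))) (.nd (nat_lit 3) (.nd (nat_lit 4) (.nd (nat_lit 5) 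
(.lf (nat_lit 197765) (.g (nat_lit 3488) (.e (nat_lit 65630) (nat_lit 14) (.e (nat_lit 401459) (nat_lit 13) (.e (nat_lit 483411) (nat_lit 27) (.e (nat_lit 401414) (nat_lit 0) (.e (nat_lit 2425) (nat_lit 157) (.e (nat_lit 4616) (nat_lit 269) (.e (nat_lit 1188) (nat_lit 88) .nil))))))) (.g (nat_lit 5) .nil .nil))) 
(.lf (nat_lit 197797) (.g (nat_lit 3060) (.e (nat_lit 65632) (nat_lit 15) (.e (nat_lit 6953) (nat_lit 377) (.e (nat_lit 1360) (nat_lit 102) (.e (nat_lit 286761) (nat_lit 13) (.e (nat_lit 393234) (nat_lit 17) (.e (nat_lit 7589) (nat_lit 406) .nil)))))) (.g (nat_lit 6) .nil .nil)))) (.nd (nat_lit 5) 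
(.lf (nat_lit 197781) (.g (nat_lit 2282) (.e (nat_lit 65630) (nat_lit 14) (.e (nat_lit 401459) (nat_lit 13) (.e (nat_lit 483411) (nat_lit 27) (.e (nat_lit 401415) (nat_lit 0) .nil)))) .nil)) 
(.lf (nat_lit 197813) (.g (nat_lit 1145) (.e (nat_lit 65632) (nat_lit 15) (.e (nat_lit 7077) (nat_lit 378) (.e (nat_lit 57902) (nat_lit 277) (.e (nat_lit 131140) (nat_lit 27) (.e (nat_lit 426031) (nat_lit 0) (.e (nat_lit 7936) (nat_lit 406) .nil)))))) (.g (nat_lit 5) .nil .nil))))) (.nd (nat_lit 4) (.nd (nat_lit 5) 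
(.lf (nat_lit 197773) (.g (nat_lit 3493) (.e (nat_lit 65630) (nat_lit 14) (.e (nat_lit 401459) (nat_lit 13) (.e (nat_lit 483411) (nat_lit 27) (.e (nat_lit 401414) (nat_lit 0) (.e (nat_lit 2458) (nat_lit 157) (.e (nat_lit 4607) (nat_lit 269) (.e (nat_lit 1187) (nat_lit 88) .nil))))))) (.g (nat_lit 4) .nil .nil))) 
(.lf (nat_lit 197805) (.g (nat_lit 2319) (.e (nat_lit 65632) (nat_lit 15) (.e (nat_lit 7077) (nat_lit 378) (.e (nat_lit 57884) (nat_lit 270) (.e (nat_lit 1656) (nat_lit 115) (.e (nat_lit 393233) (nat_lit 17) (.e (nat_lit 7589) (nat_lit 406) .nil)))))) (.g (nat_lit 6) .nil .nil)))) (.nd (nat_lit 5) 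
(.lf (nat_lit 197789) (.g (nat_lit 1658) (.e (nat_lit 65631) (nat_lit 15) (.e (nat_lit 3312) (nat_lit 202) (.e (nat_lit 573479) (nat_lit 13) (.e (nat_lit 65619) (nat_lit 10) (.e (nat_lit 344115) (nat_lit 20) .nil))))) .nil)) 
(.lf (nat_lit 197821) (.g (nat_lit 1908) (.e (nat_lit 65632) (nat_lit 15) (.e (nat_lit 7081) (nat_lit 378) (.e (nat_lit 57897) (nat_lit 274) (.e (nat_lit 65653) (nat_lit 27) (.e (nat_lit 426011) (nat_lit 0) (.e (nat_lit 7589) (nat_lit 406) .nil)))))) (.g (nat_lit 0) .nil .nil))))))) (.nd (nat_lit 2) (.nd (nat_lit 3) (.nd (nat_lit 4) (.nd (nat_lit 5) 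
(.lf (nat_lit 197763) (.g (nat_lit 3457) (.e (nat_lit 65630) (nat_lit 14) (.e (nat_lit 401459) (nat_lit 13) (.e (nat_lit 483411) (nat_lit 27) (.e (nat_lit 401414) (nat_lit 0) (.e (nat_lit 2425) (nat_lit 157) (.e (nat_lit 4547) (nat_lit 269) (.e (nat_lit 1191) (nat_lit 88) .nil))))))) (.g (nat_lit 4) .nil .nil))) 
(.lf (nat_lit 197795) (.g (nat_lit 3042) (.e (nat_lit 65632) (nat_lit 15) (.e (nat_lit 6952) (nat_lit 377) (.e (nat_lit 1360) (nat_lit 102) (.e (nat_lit 286761) (nat_lit 13) (.e (nat_lit 393234) (nat_lit 17) (.e (nat_lit 7589) (nat_lit 406) .nil)))))) (.g (nat_lit 6) .nil .nil)))) (.nd (nat_lit 5) 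
(.lf (nat_lit 197779) (.g (nat_lit 3780) (.e (nat_lit 65630) (nat_lit 14) (.e (nat_lit 401459) (nat_lit 13) (.e (nat_lit 483411) (nat_lit 27) (.e (nat_lit 401414) (nat_lit 0) (.e (nat_lit 3348) (nat_lit 206) (.e (nat_lit 606224) (nat_lit 4) .nil)))))) (.g (nat_lit 5) .nil .nil))) 
(.lf (nat_lit 197811) (.g (nat_lit 665) (.e (nat_lit 65632) (nat_lit 15) (.e (nat_lit 7077) (nat_lit 378) (.e (nat_lit 57902) (nat_lit 277) (.e (nat_lit 131138) (nat_lit 27) (.e (nat_lit 426072) (nat_lit 0) (.e (nat_lit 7936) (nat_lit 406) .nil)))))) (.g (nat_lit 5) .nil .nil))))) (.nd (nat_lit 4) (.nd (nat_lit 5) 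
(.lf (nat_lit 197771) (.g (nat_lit 3264) (.e (nat_lit 65630) (nat_lit 14) (.e (nat_lit 401459) (nat_lit 13) (.e (nat_lit 483411) (nat_lit 27) (.e (nat_lit 401414) (nat_lit 0) (.e (nat_lit 2438) (nat_lit 157) (.e (nat_lit 4603) (nat_lit 269) (.e (nat_lit 1196) (nat_lit 88) .nil))))))) (.g (nat_lit 4) .nil .nil))) 
(.lf (nat_lit 197803) (.g (nat_lit 1067) (.e (nat_lit 65632) (nat_lit 15) (.e (nat_lit 6953) (nat_lit 377) (.e (nat_lit 1367) (nat_lit 103) (.e (nat_lit 294958) (nat_lit 13) (.e (nat_lit 393242) (nat_lit 17) (.e (nat_lit 7936) (nat_lit 406) .nil)))))) (.g (nat_lit 5) .nil .nil)))) (.nd (nat_lit 5) 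
(.lf (nat_lit 197787) (.g (nat_lit 1526) (.e (nat_lit 65630) (nat_lit 14) (.e (nat_lit 409344) (nat_lit 18) (.e (nat_lit 98372) (nat_lit 29) (.e (nat_lit 450605) (nat_lit 27) (.e (nat_lit 745491) (nat_lit 4) .nil))))) (.g (nat_lit 4) .nil .nil))) 
(.lf (nat_lit 197819) (.g (nat_lit 1849) (.e (nat_lit 65632) (nat_lit 15) (.e (nat_lit 7081) (nat_lit 378) (.e (nat_lit 57884) (nat_lit 270) (.e (nat_lit 1656) (nat_lit 115) (.e (nat_lit 393237) (nat_lit 17) (.e (nat_lit 7936) (nat_lit 406) .nil)))))) (.g (nat_lit 5) .nil .nil)))))) (.nd (nat_lit 3) (.nd (nat_lit 4) (.nd (nat_lit 5) 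
(.lf (nat_lit 197767) (.g (nat_lit 2935) (.e (nat_lit 65630) (nat_lit 14) (.e (nat_lit 401459) (nat_lit 13) (.e (nat_lit 483411) (nat_lit 27) (.e (nat_lit 401414) (nat_lit 0) (.e (nat_lit 2426) (nat_lit 157) (.e (nat_lit 4598) (nat_lit 269) (.e (nat_lit 1188) (nat_lit 88) .nil))))))) (.g (nat_lit 4) .nil .nil))) 
(.lf (nat_lit 197799) (.g (nat_lit 1110) (.e (nat_lit 65632) (nat_lit 15) (.e (nat_lit 6953) (nat_lit 377) (.e (nat_lit 1367) (nat_lit 103) (.e (nat_lit 294938) (nat_lit 9) (.e (nat_lit 336421) (nat_lit 28) (.e (nat_lit 442112) (nat_lit 4) .nil)))))) (.g (nat_lit 5) .nil .nil)))) (.nd (nat_lit 5) 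
(.lf (nat_lit 197783) (.g (nat_lit 2270) (.e (nat_lit 65630) (nat_lit 14) (.e (nat_lit 401459) (nat_lit 13) (.e (nat_lit 483411) (nat_lit 27) (.e (nat_lit 401417) (nat_lit 0) (.e (nat_lit 2443) (nat_lit 157) .nil))))) .nil)) 
(.lf (nat_lit 197815) (.g (nat_lit 2857) (.e (nat_lit 65632) (nat_lit 15) (.e (nat_lit 7079) (nat_lit 378) (.e (nat_lit 57884) (nat_lit 270) (.e (nat_lit 1656) (nat_lit 115) (.e (nat_lit 393234) (nat_lit 17) (.e (nat_lit 7587) (nat_lit 406) .nil)))))) (.g (nat_lit 6) .nil .nil))))) (.nd (nat_lit 4) (.nd (nat_lit 5) 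
(.lf (nat_lit 197775) (.g (nat_lit 3385) (.e (nat_lit 65630) (nat_lit 14) (.e (nat_lit 401459) (nat_lit 13) (.e (nat_lit 483411) (nat_lit 27) (.e (nat_lit 401414) (nat_lit 0) (.e (nat_lit 2478) (nat_lit 157) (.e (nat_lit 4607) (nat_lit 269) (.e (nat_lit 1187) (nat_lit 88) .nil))))))) (.g (nat_lit 4) .nil .nil))) 
(.lf (nat_lit 197807) (.g (nat_lit 2422) (.e (nat_lit 65632) (nat_lit 15) (.e (nat_lit 7077) (nat_lit 378) (.e (nat_lit 57884) (nat_lit 270) (.e (nat_lit 1656) (nat_lit 115) (.e (nat_lit 393234) (nat_lit 17) (.e (nat_lit 7936) (nat_lit 406) .nil)))))) (.g (nat_lit 5) .nil .nil)))) (.nd (nat_lit 5) 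
(.lf (nat_lit 197791) (.g (nat_lit 1856) (.e (nat_lit 65631) (nat_lit 15) (.e (nat_lit 7591) (nat_lit 407) (.e (nat_lit 73747) (nat_lit 3) (.e (nat_lit 516195) (nat_lit 26) (.e (nat_lit 335995) (nat_lit 1) .nil))))) .nil)) 
(.lf (nat_lit 197823) (.g (nat_lit 522) (.e (nat_lit 65632) (nat_lit 15) (.e (nat_lit 7081) (nat_lit 378) (.e (nat_lit 57902) (nat_lit 277) (.e (nat_lit 131138) (nat_lit 27) (.e (nat_lit 426071) (nat_lit 0) (.e (nat_lit 7936) (nat_lit 406) .nil)))))) (.g (nat_lit 5) .nil .nil)))))))))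

noncomputable def tv2616 : DT := (.nd (nat_lit 0) (.nd (nat_lit 1) (.nd (nat_lit 2) (.nd (nat_lit 3) (.nd (nat_lit 4) (.nd (nat_lit 5) 
(.lf (nat_lit 197824) (.g (nat_lit 608) (.e (nat_lit 65632) (nat_lit 15) (.e (nat_lit 7081) (nat_lit 378) (.e (nat_lit 57902) (nat_lit 277) (.e (nat_lit 131138) (nat_lit 27) (.e (nat_lit 426072) (nat_lit 0) (.e (nat_lit 7936) (nat_lit 406) .nil)))))) (.g (nat_lit 5) .nil .nil))) 
(.lf (nat_lit 197856) (.g (nat_lit 976) (.e (nat_lit 65636) (nat_lit 15) (.e (nat_lit 3249) (nat_lit 197) (.e (nat_lit 532544) (nat_lit 10) (.e (nat_lit 344133) (nat_lit 26) .nil)))) .nil))) (.nd (nat_lit 5) 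
(.lf (nat_lit 197840) (.g (nat_lit 1999) (.e (nat_lit 65633) (nat_lit 15) (.e (nat_lit 7087) (nat_lit 379) (.e (nat_lit 123205) (nat_lit 270) (.e (nat_lit 1656) (nat_lit 115) (.e (nat_lit 393234) (nat_lit 17) (.e (nat_lit 7936) (nat_lit 406) .nil)))))) (.g (nat_lit 5) .nil .nil))) 
(.lf (nat_lit 197872) (.g (nat_lit 2343) (.e (nat_lit 65637) (nat_lit 15) (.e (nat_lit 3253) (nat_lit 197) (.e (nat_lit 532501) (nat_lit 1) (.e (nat_lit 57851) (nat_lit 252) (.e (nat_lit 57354) (nat_lit 0) (.e (nat_lit 1799) (nat_lit 119) (.e (nat_lit 516131) (nat_lit 3) (.e (nat_lit 221212) (nat_lit 22) (.e (nat_lit 196664) (nat_lit 13) .nil))))))))) (.g (nat_lit 4) .nil .nil))))) 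
(.nd (nat_lit 4) (.nd (nat_lit 5) 
(.lf (nat_lit 197832) (.g (nat_lit 769) (.e (nat_lit 65632) (nat_lit 15) (.e (nat_lit 7082) (nat_lit 378) (.e (nat_lit 57902) (nat_lit 277) (.e (nat_lit 131140) (nat_lit 27) (.e (nat_lit 426014) (nat_lit 0) .nil))))) .nil)) 
(.lf (nat_lit 197864) (.g (nat_lit 3847) (.e (nat_lit 65636) (nat_lit 15) (.e (nat_lit 3302) (nat_lit 202) (.e (nat_lit 573493) (nat_lit 15) (.e (nat_lit 81956) (nat_lit 23) (.e (nat_lit 98321) (nat_lit 17) .nil))))) .nil))) (.nd (nat_lit 5) 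
(.lf (nat_lit 197848) (.g (nat_lit 1091) (.e (nat_lit 65633) (nat_lit 15) (.e (nat_lit 7089) (nat_lit 379) (.e (nat_lit 123213) (nat_lit 274) (.e (nat_lit 65633) (nat_lit 15) (.e (nat_lit 7086) (nat_lit 379) (.e (nat_lit 123213) (nat_lit 274) .nil)))))) (.g (nat_lit 0) .nil .nil))) 
(.lf (nat_lit 197880) (.g (nat_lit 2102) (.e (nat_lit 65637) (nat_lit 15) (.e (nat_lit 3253) (nat_lit 197) (.e (nat_lit 532504) (nat_lit 1) (.e (nat_lit 57829) (nat_lit 250) (.e (nat_lit 1183) (nat_lit 87) (.e (nat_lit 57466) (nat_lit 23) (.e (nat_lit 516131) (nat_lit 3) (.e (nat_lit 221212) (nat_lit 22) (.e (nat_lit 196664) (nat_lit 13) .nil))))))))) (.g (nat_lit 4) .nil .nil)))))) 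
(.nd (nat_lit 3) (.nd (nat_lit 4) (.nd (nat_lit 5) 
(.lf (nat_lit 197828) (.g (nat_lit 530) (.e (nat_lit 65632) (nat_lit 15) (.e (nat_lit 7082) (nat_lit 378) (.e (nat_lit 57897) (nat_lit 274) (.e (nat_lit 65652) (nat_lit 27) (.e (nat_lit 425984) (nat_lit 0) (.e (nat_lit 7588) (nat_lit 406) .nil)))))) (.g (nat_lit 0) .nil .nil))) 
(.lf (nat_lit 197860) (.g (nat_lit 2599) (.e (nat_lit 65636) (nat_lit 15) (.e (nat_lit 3302) (nat_lit 202) (.e (nat_lit 573482) (nat_lit 13) (.e (nat_lit 65619) (nat_lit 10) (.e (nat_lit 344117) (nat_lit 21) .nil))))) .nil))) (.nd (nat_lit 5) 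
(.lf (nat_lit 197844) (.g (nat_lit 850) (.e (nat_lit 65633) (nat_lit 15) (.e (nat_lit 7088) (nat_lit 379) (.e (nat_lit 123213) (nat_lit 274) (.e (nat_lit 65632) (nat_lit 15) (.e (nat_lit 7082) (nat_lit 378) (.e (nat_lit 57897) (nat_lit 274) .nil)))))) (.g (nat_lit 0) .nil .nil))) 
(.lf (nat_lit 197876) (.g (nat_lit 2676) (.e (nat_lit 65637) (nat_lit 15) (.e (nat_lit 3253) (nat_lit 197) (.e (nat_lit 532501) (nat_lit 1) (.e (nat_lit 57852) (nat_lit 252) (.e (nat_lit 57361) (nat_lit 0) (.e (nat_lit 1800) (nat_lit 119) (.e (nat_lit 516131) (nat_lit 3) (.e (nat_lit 221212) (nat_lit 22) (.e (nat_lit 196665) (nat_lit 13) .nil))))))))) (.g (nat_lit 4) .nil .nil))))) 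
(.nd (nat_lit 4) (.nd (nat_lit 5) 
(.lf (nat_lit 197836) (.g (nat_lit 1130) (.e (nat_lit 65633) (nat_lit 15) (.e (nat_lit 6975) (nat_lit 377) (.e (nat_lit 1371) (nat_lit 103) (.e (nat_lit 294960) (nat_lit 13) (.e (nat_lit 393238) (nat_lit 17) (.e (nat_lit 7936) (nat_lit 406) .nil)))))) (.g (nat_lit 5) .nil .nil))) 
(.lf (nat_lit 197868) (.g (nat_lit 1261) (.e (nat_lit 65637) (nat_lit 15) (.e (nat_lit 3253) (nat_lit 197) (.e (nat_lit 532501) (nat_lit 1) (.e (nat_lit 57829) (nat_lit 250) .nil)))) .nil))) (.nd (nat_lit 5) 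
(.lf (nat_lit 197852) (.g (nat_lit 1006) (.e (nat_lit 65636) (nat_lit 15) (.e (nat_lit 3249) (nat_lit 197) (.e (nat_lit 532503) (nat_lit 1) (.e (nat_lit 57849) (nat_lit 252) .nil)))) .nil)) 
(.lf (nat_lit 197884) (.g (nat_lit 2556) (.e (nat_lit 65637) (nat_lit 15) (.e (nat_lit 3253) (nat_lit 197) (.e (nat_lit 532504) (nat_lit 1) (.e (nat_lit 57830) (nat_lit 250) (.e (nat_lit 1183) (nat_lit 87) (.e (nat_lit 57467) (nat_lit 23) (.e (nat_lit 516131) (nat_lit 3) (.e (nat_lit 221212) (nat_lit 22) (.e (nat_lit 196665) (nat_lit 13) .nil))))))))) (.g (nat_lit 5) .nil .nil))))))) 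
(.nd (nat_lit 2) (.nd (nat_lit 3) (.nd (nat_lit 4) (.nd (nat_lit 5) 
(.lf (nat_lit 197826) (.g (nat_lit 1113) (.e (nat_lit 65632) (nat_lit 15) (.e (nat_lit 7081) (nat_lit 378) (.e (nat_lit 57902) (nat_lit 277) (.e (nat_lit 131140) (nat_lit 27) (.e (nat_lit 426031) (nat_lit 0) (.e (nat_lit 7936) (nat_lit 406) .nil)))))) (.g (nat_lit 5) .nil .nil))) 
(.lf (nat_lit 197858) (.g (nat_lit 1896) (.e (nat_lit 65636) (nat_lit 15) (.e (nat_lit 3302) (nat_lit 202) (.e (nat_lit 573479) (nat_lit 13) (.e (nat_lit 65619) (nat_lit 10) (.e (nat_lit 344115) (nat_lit 20) .nil))))) .nil))) (.nd (nat_lit 5) 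
(.lf (nat_lit 197842) (.g (nat_lit 2011) (.e (nat_lit 65633) (nat_lit 15) (.e (nat_lit 7088) (nat_lit 379) (.e (nat_lit 123205) (nat_lit 270) (.e (nat_lit 1656) (nat_lit 115) (.e (nat_lit 393234) (nat_lit 17) (.e (nat_lit 7936) (nat_lit 406) .nil)))))) (.g (nat_lit 5) .nil .nil))) 
(.lf (nat_lit 197874) (.g (nat_lit 2773) (.e (nat_lit 65637) (nat_lit 15) (.e (nat_lit 3253) (nat_lit 197) (.e (nat_lit 532501) (nat_lit 1) (.e (nat_lit 57852) (nat_lit 252) (.e (nat_lit 57354) (nat_lit 0) (.e (nat_lit 1799) (nat_lit 119) (.e (nat_lit 516129) (nat_lit 3) (.e (nat_lit 221210) (nat_lit 22) (.e (nat_lit 196665) (nat_lit 13) .nil))))))))) (.g (nat_lit 4) .nil .nil))))) 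
(.nd (nat_lit 4) (.nd (nat_lit 5) 
(.lf (nat_lit 197834) (.g (nat_lit 2599) (.e (nat_lit 65632) (nat_lit 15) (.e (nat_lit 7936) (nat_lit 392) (.e (nat_lit 172133) (nat_lit 15) (.e (nat_lit 2059) (nat_lit 142) (.e (nat_lit 704595) (nat_lit 5) (.e (nat_lit 188160) (nat_lit 36) .nil)))))) (.g (nat_lit 5) .nil .nil))) 
(.lf (nat_lit 197866) (.g (nat_lit 2696) (.e (nat_lit 65637) (nat_lit 15) (.e (nat_lit 3253) (nat_lit 197) (.e (nat_lit 532499) (nat_lit 1) (.e (nat_lit 57847) (nat_lit 252) (.e (nat_lit 57355) (nat_lit 0) .nil))))) .nil))) (.nd (nat_lit 5) 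
(.lf (nat_lit 197850) (.g (nat_lit 1646) (.e (nat_lit 65635) (nat_lit 15) (.e (nat_lit 3253) (nat_lit 197) (.e (nat_lit 532503) (nat_lit 1) (.e (nat_lit 57870) (nat_lit 264) .nil)))) .nil)) 
(.lf (nat_lit 197882) (.g (nat_lit 1858) (.e (nat_lit 65637) (nat_lit 15) (.e (nat_lit 3253) (nat_lit 197) (.e (nat_lit 532504) (nat_lit 1) (.e (nat_lit 57830) (nat_lit 250) (.e (nat_lit 1173) (nat_lit 87) .nil))))) .nil))))) (.nd (nat_lit 3) (.nd (nat_lit 4) (.nd (nat_lit 5) 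
(.lf (nat_lit 197830) (.g (nat_lit 495) (.e (nat_lit 65632) (nat_lit 15) (.e (nat_lit 7082) (nat_lit 378) (.e (nat_lit 57902) (nat_lit 277) (.e (nat_lit 131138) (nat_lit 27) (.e (nat_lit 426071) (nat_lit 0) (.e (nat_lit 7936) (nat_lit 406) .nil)))))) (.g (nat_lit 4) .nil .nil))) 
(.lf (nat_lit 197862) (.g (nat_lit 2034) (.e (nat_lit 65636) (nat_lit 15) (.e (nat_lit 3302) (nat_lit 202) (.e (nat_lit 573485) (nat_lit 13) (.e (nat_lit 65619) (nat_lit 10) (.e (nat_lit 344115) (nat_lit 20) .nil))))) .nil))) (.nd (nat_lit 5) 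
(.lf (nat_lit 197846) (.g (nat_lit 591) (.e (nat_lit 65633) (nat_lit 15) (.e (nat_lit 7088) (nat_lit 379) (.e (nat_lit 123213) (nat_lit 274) (.e (nat_lit 65653) (nat_lit 27) (.e (nat_lit 426009) (nat_lit 0) .nil))))) .nil)) 
(.lf (nat_lit 197878) (.g (nat_lit 336) (.e (nat_lit 65637) (nat_lit 15) (.e (nat_lit 3253) (nat_lit 197) (.e (nat_lit 532504) (nat_lit 1) .nil))) .nil)))) (.nd (nat_lit 4) (.nd (nat_lit 5) 
(.lf (nat_lit 197838) (.g (nat_lit 1988) (.e (nat_lit 65633) (nat_lit 15) (.e (nat_lit 7086) (nat_lit 379) (.e (nat_lit 123205) (nat_lit 270) (.e (nat_lit 1656) (nat_lit 115) (.e (nat_lit 393234) (nat_lit 17) (.e (nat_lit 7936) (nat_lit 406) .nil)))))) (.g (nat_lit 5) .nil .nil))) 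
(.lf (nat_lit 197870) (.g (nat_lit 1901) (.e (nat_lit 65637) (nat_lit 15) (.e (nat_lit 3253) (nat_lit 197) (.e (nat_lit 532501) (nat_lit 1) (.e (nat_lit 57830) (nat_lit 250) (.e (nat_lit 1175) (nat_lit 87) (.e (nat_lit 57464) (nat_lit 23) (.e (nat_lit 516130) (nat_lit 3) (.e (nat_lit 221212) (nat_lit 22) (.e (nat_lit 196665) (nat_lit 13) .nil))))))))) (.g (nat_lit 4) .nil .nil)))) 
(.nd (nat_lit 5) 
(.lf (nat_lit 197854) (.g (nat_lit 2249) (.e (nat_lit 65636) (nat_lit 15) (.e (nat_lit 3249) (nat_lit 197) (.e (nat_lit 532504) (nat_lit 1) (.e (nat_lit 57829) (nat_lit 250) (.e (nat_lit 1183) (nat_lit 87) .nil))))) .nil)) 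
(.lf (nat_lit 197886) (.g (nat_lit 2002) (.e (nat_lit 65637) (nat_lit 15) (.e (nat_lit 3253) (nat_lit 197) (.e (nat_lit 532504) (nat_lit 1) (.e (nat_lit 57851) (nat_lit 252) (.e (nat_lit 57354) (nat_lit 0) (.e (nat_lit 1798) (nat_lit 119) (.e (nat_lit 516131) (nat_lit 3) (.e (nat_lit 221212) (nat_lit 22) (.e (nat_lit 196665) (nat_lit 13) .nil))))))))) (.g (nat_lit 4) .nil .nil)))))))) 
(.nd (nat_lit 1) (.nd (nat_lit 2) (.nd (nat_lit 3) (.nd (nat_lit 4) (.nd (nat_lit 5) 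
(.lf (nat_lit 197825) (.g (nat_lit 795) (.e (nat_lit 65632) (nat_lit 15) (.e (nat_lit 7081) (nat_lit 378) (.e (nat_lit 57902) (nat_lit 277) (.e (nat_lit 131140) (nat_lit 27) (.e (nat_lit 426014) (nat_lit 0) .nil))))) .nil)) 
(.lf (nat_lit 197857) (.g (nat_lit 669) (.e (nat_lit 65636) (nat_lit 15) (.e (nat_lit 3249) (nat_lit 197) (.e (nat_lit 532564) (nat_lit 15) (.e (nat_lit 385066) (nat_lit 26) .nil)))) .nil))) (.nd (nat_lit 5) 
(.lf (nat_lit 197841) (.g (nat_lit 2451) (.e (nat_lit 65633) (nat_lit 15) (.e (nat_lit 7088) (nat_lit 379) (.e (nat_lit 123205) (nat_lit 270) (.e (nat_lit 1656) (nat_lit 115) (.e (nat_lit 393234) (nat_lit 17) (.e (nat_lit 7589) (nat_lit 406) .nil)))))) (.g (nat_lit 0) .nil .nil))) 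
(.lf (nat_lit 197873) (.g (nat_lit 2583) (.e (nat_lit 65637) (nat_lit 15) (.e (nat_lit 3253) (nat_lit 197) (.e (nat_lit 532501) (nat_lit 1) (.e (nat_lit 57852) (nat_lit 252) (.e (nat_lit 57345) (nat_lit 0) .nil))))) .nil)))) (.nd (nat_lit 4) (.nd (nat_lit 5) 
(.lf (nat_lit 197833) (.g (nat_lit 1082) (.e (nat_lit 65632) (nat_lit 15) (.e (nat_lit 7082) (nat_lit 378) (.e (nat_lit 57902) (nat_lit 277) (.e (nat_lit 131140) (nat_lit 27) (.e (nat_lit 426031) (nat_lit 0) (.e (nat_lit 7936) (nat_lit 406) .nil)))))) (.g (nat_lit 5) .nil .nil))) 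
(.lf (nat_lit 197865) (.g (nat_lit 2696) (.e (nat_lit 65637) (nat_lit 15) (.e (nat_lit 3253) (nat_lit 197) (.e (nat_lit 532499) (nat_lit 1) (.e (nat_lit 57847) (nat_lit 252) (.e (nat_lit 57349) (nat_lit 0) .nil))))) .nil))) (.nd (nat_lit 5) 
(.lf (nat_lit 197849) (.g (nat_lit 850) (.e (nat_lit 65633) (nat_lit 15) (.e (nat_lit 7089) (nat_lit 379) (.e (nat_lit 123213) (nat_lit 274) (.e (nat_lit 65648) (nat_lit 26) (.e (nat_lit 417793) (nat_lit 0) (.e (nat_lit 5405) (nat_lit 302) .nil)))))) (.g (nat_lit 0) .nil .nil))) 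
(.lf (nat_lit 197881) (.g (nat_lit 1233) (.e (nat_lit 65637) (nat_lit 15) (.e (nat_lit 3253) (nat_lit 197) (.e (nat_lit 532504) (nat_lit 1) (.e (nat_lit 57830) (nat_lit 250) .nil)))) .nil))))) (.nd (nat_lit 3) (.nd (nat_lit 4) (.nd (nat_lit 5) 
(.lf (nat_lit 197829) (.g (nat_lit 632) (.e (nat_lit 65632) (nat_lit 15) (.e (nat_lit 7082) (nat_lit 378) (.e (nat_lit 57902) (nat_lit 277) (.e (nat_lit 131138) (nat_lit 27) (.e (nat_lit 425989) (nat_lit 0) (.e (nat_lit 7588) (nat_lit 406) .nil)))))) (.g (nat_lit 0) .nil .nil))) 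
(.lf (nat_lit 197861) (.g (nat_lit 1261) (.e (nat_lit 65636) (nat_lit 15) (.e (nat_lit 3302) (nat_lit 202) (.e (nat_lit 573484) (nat_lit 13) (.e (nat_lit 65610) (nat_lit 10) .nil)))) .nil))) (.nd (nat_lit 5) 
(.lf (nat_lit 197845) (.g (nat_lit 1226) (.e (nat_lit 65633) (nat_lit 15) (.e (nat_lit 7088) (nat_lit 379) (.e (nat_lit 123213) (nat_lit 274) (.e (nat_lit 65633) (nat_lit 15) (.e (nat_lit 7088) (nat_lit 379) (.e (nat_lit 123213) (nat_lit 274) .nil)))))) (.g (nat_lit 0) .nil .nil))) 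
(.lf (nat_lit 197877) (.g (nat_lit 1626) (.e (nat_lit 65637) (nat_lit 15) (.e (nat_lit 3253) (nat_lit 197) (.e (nat_lit 532503) (nat_lit 1) (.e (nat_lit 57847) (nat_lit 252) (.e (nat_lit 57345) (nat_lit 0) .nil))))) .nil)))) (.nd (nat_lit 4) (.nd (nat_lit 5) 
(.lf (nat_lit 197837) (.g (nat_lit 2455) (.e (nat_lit 65633) (nat_lit 15) (.e (nat_lit 7086) (nat_lit 379) (.e (nat_lit 123205) (nat_lit 270) (.e (nat_lit 1656) (nat_lit 115) (.e (nat_lit 393234) (nat_lit 17) (.e (nat_lit 7589) (nat_lit 406) .nil)))))) (.g (nat_lit 0) .nil .nil))) 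
(.lf (nat_lit 197869) (.g (nat_lit 1548) (.e (nat_lit 65637) (nat_lit 15) (.e (nat_lit 3253) (nat_lit 197) (.e (nat_lit 532501) (nat_lit 1) (.e (nat_lit 57830) (nat_lit 250) (.e (nat_lit 999) (nat_lit 81) .nil))))) .nil))) (.nd (nat_lit 5) 
(.lf (nat_lit 197853) (.g (nat_lit 1624) (.e (nat_lit 65636) (nat_lit 15) (.e (nat_lit 3249) (nat_lit 197) (.e (nat_lit 532503) (nat_lit 1) (.e (nat_lit 57870) (nat_lit 264) (.e (nat_lit 1172) (nat_lit 87) .nil))))) .nil)) 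
(.lf (nat_lit 197885) (.g (nat_lit 2678) (.e (nat_lit 65637) (nat_lit 15) (.e (nat_lit 3253) (nat_lit 197) (.e (nat_lit 532504) (nat_lit 1) (.e (nat_lit 57851) (nat_lit 252) (.e (nat_lit 57347) (nat_lit 0) (.e (nat_lit 1795) (nat_lit 119) (.e (nat_lit 516131) (nat_lit 3) (.e (nat_lit 221212) (nat_lit 22) (.e (nat_lit 196665) (nat_lit 13) .nil))))))))) (.g (nat_lit 4) .nil .nil))))))) 
(.nd (nat_lit 2) (.nd (nat_lit 3) (.nd (nat_lit 4) (.nd (nat_lit 5) 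
(.lf (nat_lit 197827) (.g (nat_lit 472) (.e (nat_lit 65632) (nat_lit 15) (.e (nat_lit 7082) (nat_lit 378) (.e (nat_lit 57897) (nat_lit 274) (.e (nat_lit 65632) (nat_lit 15) (.e (nat_lit 7082) (nat_lit 378) (.e (nat_lit 57897) (nat_lit 274) .nil)))))) (.g (nat_lit 0) .nil .nil))) 
(.lf (nat_lit 197859) (.g (nat_lit 1770) (.e (nat_lit 65636) (nat_lit 15) (.e (nat_lit 3302) (nat_lit 202) (.e (nat_lit 573481) (nat_lit 13) (.e (nat_lit 65619) (nat_lit 10) (.e (nat_lit 344117) (nat_lit 21) .nil))))) .nil))) (.nd (nat_lit 5) 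
(.lf (nat_lit 197843) (.g (nat_lit 855) (.e (nat_lit 65633) (nat_lit 15) (.e (nat_lit 7088) (nat_lit 379) (.e (nat_lit 123205) (nat_lit 270) (.e (nat_lit 1656) (nat_lit 115) (.e (nat_lit 393237) (nat_lit 17) (.e (nat_lit 7936) (nat_lit 406) .nil)))))) (.g (nat_lit 4) .nil .nil))) 
(.lf (nat_lit 197875) (.g (nat_lit 2583) (.e (nat_lit 65637) (nat_lit 15) (.e (nat_lit 3253) (nat_lit 197) (.e (nat_lit 532501) (nat_lit 1) (.e (nat_lit 57852) (nat_lit 252) (.e (nat_lit 57357) (nat_lit 0) .nil))))) .nil)))) (.nd (nat_lit 4) (.nd (nat_lit 5) 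
(.lf (nat_lit 197835) (.g (nat_lit 2726) (.e (nat_lit 65632) (nat_lit 15) (.e (nat_lit 7592) (nat_lit 407) (.e (nat_lit 73746) (nat_lit 3) (.e (nat_lit 516195) (nat_lit 26) (.e (nat_lit 335995) (nat_lit 1) (.e (nat_lit 57872) (nat_lit 264) (.e (nat_lit 1188) (nat_lit 88) .nil))))))) (.g (nat_lit 7) .nil .nil))) 
(.lf (nat_lit 197867) (.g (nat_lit 2344) (.e (nat_lit 65637) (nat_lit 15) (.e (nat_lit 3253) (nat_lit 197) (.e (nat_lit 532499) (nat_lit 1) (.e (nat_lit 57847) (nat_lit 252) (.e (nat_lit 57379) (nat_lit 3) .nil))))) .nil))) (.nd (nat_lit 5) 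
(.lf (nat_lit 197851) (.g (nat_lit 665) (.e (nat_lit 65635) (nat_lit 15) (.e (nat_lit 3253) (nat_lit 197) (.e (nat_lit 532504) (nat_lit 1) .nil))) .nil)) 
(.lf (nat_lit 197883) (.g (nat_lit 1756) (.e (nat_lit 65637) (nat_lit 15) (.e (nat_lit 3253) (nat_lit 197) (.e (nat_lit 532504) (nat_lit 1) (.e (nat_lit 57830) (nat_lit 250) (.e (nat_lit 1175) (nat_lit 87) .nil))))) .nil))))) (.nd (nat_lit 3) (.nd (nat_lit 4) (.nd (nat_lit 5) 
(.lf (nat_lit 197831) (.g (nat_lit 581) (.e (nat_lit 65632) (nat_lit 15) (.e (nat_lit 7082) (nat_lit 378) (.e (nat_lit 57902) (nat_lit 277) (.e (nat_lit 131138) (nat_lit 27) (.e (nat_lit 426072) (nat_lit 0) (.e (nat_lit 7936) (nat_lit 406) .nil)))))) (.g (nat_lit 5) .nil .nil))) 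
(.lf (nat_lit 197863) (.g (nat_lit 3899) (.e (nat_lit 65636) (nat_lit 15) (.e (nat_lit 3302) (nat_lit 202) (.e (nat_lit 573493) (nat_lit 15) (.e (nat_lit 81956) (nat_lit 23) (.e (nat_lit 98319) (nat_lit 17) .nil))))) .nil))) (.nd (nat_lit 5) 
(.lf (nat_lit 197847) (.g (nat_lit 2300) (.e (nat_lit 65633) (nat_lit 15) (.e (nat_lit 7088) (nat_lit 379) (.e (nat_lit 123213) (nat_lit 274) (.e (nat_lit 65653) (nat_lit 27) (.e (nat_lit 426011) (nat_lit 0) (.e (nat_lit 7589) (nat_lit 406) .nil)))))) (.g (nat_lit 0) .nil .nil))) 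
(.lf (nat_lit 197879) (.g (nat_lit 1270) (.e (nat_lit 65637) (nat_lit 15) (.e (nat_lit 3253) (nat_lit 197) (.e (nat_lit 532504) (nat_lit 1) (.e (nat_lit 57829) (nat_lit 250) .nil)))) .nil)))) (.nd (nat_lit 4) (.nd (nat_lit 5) 
(.lf (nat_lit 197839) (.g (nat_lit 2449) (.e (nat_lit 65633) (nat_lit 15) (.e (nat_lit 7087) (nat_lit 379) (.e (nat_lit 123205) (nat_lit 270) (.e (nat_lit 1656) (nat_lit 115) (.e (nat_lit 393234) (nat_lit 17) (.e (nat_lit 7589) (nat_lit 406) .nil)))))) (.g (nat_lit 0) .nil .nil))) 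
(.lf (nat_lit 197871) (.g (nat_lit 1415) (.e (nat_lit 65637) (nat_lit 15) (.e (nat_lit 3253) (nat_lit 197) (.e (nat_lit 532501) (nat_lit 1) (.e (nat_lit 57830) (nat_lit 250) (.e (nat_lit 1183) (nat_lit 87) .nil))))) .nil))) (.nd (nat_lit 5) 
(.lf (nat_lit 197855) (.g (nat_lit 959) (.e (nat_lit 65636) (nat_lit 15) (.e (nat_lit 3249) (nat_lit 197) (.e (nat_lit 532544) (nat_lit 10) (.e (nat_lit 344131) (nat_lit 26) .nil)))) .nil)) 
(.lf (nat_lit 197887) (.g (nat_lit 2305) (.e (nat_lit 65637) (nat_lit 15) (.e (nat_lit 3253) (nat_lit 197) (.e (nat_lit 532504) (nat_lit 1) (.e (nat_lit 57851) (nat_lit 252) (.e (nat_lit 57354) (nat_lit 0) (.e (nat_lit 1799) (nat_lit 119) (.e (nat_lit 516131) (nat_lit 3) (.e (nat_lit 221212) (nat_lit 22) (.e (nat_lit 196664) (nat_lit 13) .nil))))))))) (.g (nat_lit 4) .nil .nil)))))))))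

noncomputable def tv2617 : DT := (.nd (nat_lit 0) (.nd (nat_lit 1) (.nd (nat_lit 2) (.nd (nat_lit 3) (.nd (nat_lit 4) (.nd (nat_lit 5) 
(.lf (nat_lit 197888) (.g (nat_lit 2619) (.e (nat_lit 65637) (nat_lit 15) (.e (nat_lit 3253) (nat_lit 197) (.e (nat_lit 532504) (nat_lit 1) (.e (nat_lit 57852) (nat_lit 252) (.e (nat_lit 57345) (nat_lit 0) (.e (nat_lit 1803) (nat_lit 119) (.e (nat_lit 516131) (nat_lit 3) (.e (nat_lit 221212) (nat_lit 22) (.e (nat_lit 196665) (nat_lit 13) .nil))))))))) (.g (nat_lit 4) .nil .nil))) 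
(.lf (nat_lit 197920) (.g (nat_lit 3680) (.e (nat_lit 65637) (nat_lit 15) (.e (nat_lit 3632) (nat_lit 227) (.e (nat_lit 778317) (nat_lit 3) (.e (nat_lit 57476) (nat_lit 28) (.e (nat_lit 557097) (nat_lit 13) (.e (nat_lit 172109) (nat_lit 10) (.e (nat_lit 434223) (nat_lit 19) (.e (nat_lit 500062) (nat_lit 18) .nil)))))))) (.g (nat_lit 4) .nil .nil)))) (.nd (nat_lit 5) 
(.lf (nat_lit 197904) (.g (nat_lit 1389) (.e (nat_lit 65637) (nat_lit 15) (.e (nat_lit 3305) (nat_lit 202) (.e (nat_lit 573481) (nat_lit 13) (.e (nat_lit 65619) (nat_lit 10) .nil)))) .nil)) 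
(.lf (nat_lit 197936) (.g (nat_lit 4256) (.e (nat_lit 65637) (nat_lit 15) (.e (nat_lit 3632) (nat_lit 227) (.e (nat_lit 778317) (nat_lit 3) (.e (nat_lit 57477) (nat_lit 28) (.e (nat_lit 557097) (nat_lit 13) (.e (nat_lit 172115) (nat_lit 10) (.e (nat_lit 434219) (nat_lit 19) (.e (nat_lit 500061) (nat_lit 18) .nil)))))))) (.g (nat_lit 5) .nil .nil))))) (.nd (nat_lit 4) (.nd (nat_lit 5) 
(.lf (nat_lit 197896) (.g (nat_lit 2234) (.e (nat_lit 65637) (nat_lit 15) (.e (nat_lit 3253) (nat_lit 197) (.e (nat_lit 532533) (nat_lit 9) (.e (nat_lit 336211) (nat_lit 13) (.e (nat_lit 393251) (nat_lit 18) (.e (nat_lit 164153) (nat_lit 152) (.e (nat_lit 1193) (nat_lit 88) .nil))))))) (.g (nat_lit 5) .nil .nil))) 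
(.lf (nat_lit 197928) (.g (nat_lit 3880) (.e (nat_lit 65637) (nat_lit 15) (.e (nat_lit 3632) (nat_lit 227) (.e (nat_lit 778317) (nat_lit 3) (.e (nat_lit 57476) (nat_lit 28) (.e (nat_lit 557108) (nat_lit 15) (.e (nat_lit 188434) (nat_lit 20) (.e (nat_lit 3134) (nat_lit 193) (.e (nat_lit 500062) (nat_lit 18) .nil)))))))) (.g (nat_lit 4) .nil .nil)))) (.nd (nat_lit 5) 
(.lf (nat_lit 197912) (.g (nat_lit 2901) (.e (nat_lit 65637) (nat_lit 15) (.e (nat_lit 3305) (nat_lit 202) (.e (nat_lit 573493) (nat_lit 15) (.e (nat_lit 81951) (nat_lit 22) (.e (nat_lit 90165) (nat_lit 12) .nil))))) .nil)) 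
(.lf (nat_lit 197944) (.g (nat_lit 1818) (.e (nat_lit 65637) (nat_lit 15) (.e (nat_lit 3632) (nat_lit 227) (.e (nat_lit 778317) (nat_lit 3) (.e (nat_lit 57479) (nat_lit 28) .nil)))) .nil))))) (.nd (nat_lit 3) (.nd (nat_lit 4) (.nd (nat_lit 5) 
(.lf (nat_lit 197892) (.g (nat_lit 2412) (.e (nat_lit 65637) (nat_lit 15) (.e (nat_lit 3253) (nat_lit 197) (.e (nat_lit 532504) (nat_lit 1) (.e (nat_lit 57852) (nat_lit 252) (.e (nat_lit 57355) (nat_lit 0) .nil))))) .nil)) 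
(.lf (nat_lit 197924) (.g (nat_lit 2781) (.e (nat_lit 65637) (nat_lit 15) (.e (nat_lit 3632) (nat_lit 227) (.e (nat_lit 778317) (nat_lit 3) (.e (nat_lit 57476) (nat_lit 28) (.e (nat_lit 557107) (nat_lit 15) .nil))))) .nil))) (.nd (nat_lit 5) 
(.lf (nat_lit 197908) (.g (nat_lit 613) (.e (nat_lit 65637) (nat_lit 15) (.e (nat_lit 3305) (nat_lit 202) (.e (nat_lit 573490) (nat_lit 15) .nil))) .nil)) 
(.lf (nat_lit 197940) (.g (nat_lit 4298) (.e (nat_lit 65637) (nat_lit 15) (.e (nat_lit 3632) (nat_lit 227) (.e (nat_lit 778317) (nat_lit 3) (.e (nat_lit 57477) (nat_lit 28) (.e (nat_lit 557108) (nat_lit 15) (.e (nat_lit 188433) (nat_lit 20) (.e (nat_lit 3114) (nat_lit 193) (.e (nat_lit 500067) (nat_lit 18) .nil)))))))) (.g (nat_lit 5) .nil .nil))))) (.nd (nat_lit 4) (.nd (nat_lit 5) 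
(.lf (nat_lit 197900) (.g (nat_lit 2001) (.e (nat_lit 65637) (nat_lit 15) (.e (nat_lit 3304) (nat_lit 202) (.e (nat_lit 573482) (nat_lit 13) (.e (nat_lit 65619) (nat_lit 10) (.e (nat_lit 344117) (nat_lit 21) .nil))))) .nil)) 
(.lf (nat_lit 197932) (.g (nat_lit 8566) (.e (nat_lit 65637) (nat_lit 15) (.e (nat_lit 3632) (nat_lit 227) (.e (nat_lit 778317) (nat_lit 3) (.e (nat_lit 57476) (nat_lit 28) (.e (nat_lit 557108) (nat_lit 15) (.e (nat_lit 188449) (nat_lit 22) (.e (nat_lit 196664) (nat_lit 13) .nil))))))) (.g (nat_lit 6) .nil .nil)))) (.nd (nat_lit 5) 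
(.lf (nat_lit 197916) (.g (nat_lit 708) (.e (nat_lit 65637) (nat_lit 15) (.e (nat_lit 3632) (nat_lit 227) (.e (nat_lit 778317) (nat_lit 3) .nil))) .nil)) 
(.lf (nat_lit 197948) (.g (nat_lit 4262) (.e (nat_lit 65637) (nat_lit 15) (.e (nat_lit 3632) (nat_lit 227) (.e (nat_lit 778317) (nat_lit 3) (.e (nat_lit 57479) (nat_lit 28) (.e (nat_lit 557101) (nat_lit 13) (.e (nat_lit 172115) (nat_lit 10) (.e (nat_lit 434219) (nat_lit 19) (.e (nat_lit 500061) (nat_lit 18) .nil)))))))) (.g (nat_lit 5) .nil .nil))))))) 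
(.nd (nat_lit 2) (.nd (nat_lit 3) (.nd (nat_lit 4) (.nd (nat_lit 5) 
(.lf (nat_lit 197890) (.g (nat_lit 2185) (.e (nat_lit 65637) (nat_lit 15) (.e (nat_lit 3253) (nat_lit 197) (.e (nat_lit 532504) (nat_lit 1) (.e (nat_lit 57852) (nat_lit 252) (.e (nat_lit 57354) (nat_lit 0) .nil))))) .nil)) 
(.lf (nat_lit 197922) (.g (nat_lit 4651) (.e (nat_lit 65637) (nat_lit 15) (.e (nat_lit 3632) (nat_lit 227) (.e (nat_lit 778317) (nat_lit 3) (.e (nat_lit 57476) (nat_lit 28) (.e (nat_lit 557097) (nat_lit 13) (.e (nat_lit 172115) (nat_lit 10) (.e (nat_lit 434219) (nat_lit 19) (.e (nat_lit 500061) (nat_lit 18) .nil)))))))) (.g (nat_lit 5) .nil .nil)))) (.nd (nat_lit 5) 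
(.lf (nat_lit 197906) (.g (nat_lit 1795) (.e (nat_lit 65637) (nat_lit 15) (.e (nat_lit 3305) (nat_lit 202) (.e (nat_lit 573484) (nat_lit 13) (.e (nat_lit 65619) (nat_lit 10) .nil)))) .nil)) 
(.lf (nat_lit 197938) (.g (nat_lit 2514) (.e (nat_lit 65637) (nat_lit 15) (.e (nat_lit 3632) (nat_lit 227) (.e (nat_lit 778317) (nat_lit 3) (.e (nat_lit 57477) (nat_lit 28) (.e (nat_lit 557107) (nat_lit 15) .nil))))) .nil)))) (.nd (nat_lit 4) (.nd (nat_lit 5) 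
(.lf (nat_lit 197898) (.g (nat_lit 975) (.e (nat_lit 65637) (nat_lit 15) (.e (nat_lit 3253) (nat_lit 197) (.e (nat_lit 532545) (nat_lit 10) (.e (nat_lit 344133) (nat_lit 26) .nil)))) .nil)) 
(.lf (nat_lit 197930) (.g (nat_lit 7808) (.e (nat_lit 65637) (nat_lit 15) (.e (nat_lit 3632) (nat_lit 227) (.e (nat_lit 778317) (nat_lit 3) (.e (nat_lit 57476) (nat_lit 28) (.e (nat_lit 557108) (nat_lit 15) (.e (nat_lit 188449) (nat_lit 22) (.e (nat_lit 196662) (nat_lit 13) .nil))))))) (.g (nat_lit 7) .nil .nil)))) (.nd (nat_lit 5) 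
(.lf (nat_lit 197914) (.g (nat_lit 3216) (.e (nat_lit 65637) (nat_lit 15) (.e (nat_lit 3305) (nat_lit 202) (.e (nat_lit 573493) (nat_lit 15) (.e (nat_lit 81954) (nat_lit 23) (.e (nat_lit 98325) (nat_lit 17) .nil))))) .nil)) 
(.lf (nat_lit 197946) (.g (nat_lit 3292) (.e (nat_lit 65637) (nat_lit 15) (.e (nat_lit 3632) (nat_lit 227) (.e (nat_lit 778317) (nat_lit 3) (.e (nat_lit 57479) (nat_lit 28) (.e (nat_lit 557101) (nat_lit 13) (.e (nat_lit 172115) (nat_lit 10) (.e (nat_lit 434217) (nat_lit 19) (.e (nat_lit 500062) (nat_lit 18) .nil)))))))) (.g (nat_lit 4) .nil .nil)))))) 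
(.nd (nat_lit 3) (.nd (nat_lit 4) (.nd (nat_lit 5) 
(.lf (nat_lit 197894) (.g (nat_lit 2299) (.e (nat_lit 65637) (nat_lit 15) (.e (nat_lit 3253) (nat_lit 197) (.e (nat_lit 532504) (nat_lit 1) (.e (nat_lit 57852) (nat_lit 252) (.e (nat_lit 57359) (nat_lit 0) .nil))))) .nil)) 
(.lf (nat_lit 197926) (.g (nat_lit 4035) (.e (nat_lit 65637) (nat_lit 15) (.e (nat_lit 3632) (nat_lit 227) (.e (nat_lit 778317) (nat_lit 3) (.e (nat_lit 57476) (nat_lit 28) (.e (nat_lit 557107) (nat_lit 15) (.e (nat_lit 188448) (nat_lit 22) (.e (nat_lit 196665) (nat_lit 13) .nil))))))) (.g (nat_lit 5) .nil .nil)))) (.nd (nat_lit 5) 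
(.lf (nat_lit 197910) (.g (nat_lit 1741) (.e (nat_lit 65637) (nat_lit 15) (.e (nat_lit 3305) (nat_lit 202) (.e (nat_lit 573491) (nat_lit 15) (.e (nat_lit 81954) (nat_lit 23) (.e (nat_lit 98323) (nat_lit 17) .nil))))) .nil)) 
(.lf (nat_lit 197942) (.g (nat_lit 7834) (.e (nat_lit 65637) (nat_lit 15) (.e (nat_lit 3632) (nat_lit 227) (.e (nat_lit 778317) (nat_lit 3) (.e (nat_lit 57477) (nat_lit 28) (.e (nat_lit 557108) (nat_lit 15) (.e (nat_lit 188449) (nat_lit 22) (.e (nat_lit 196663) (nat_lit 13) .nil))))))) (.g (nat_lit 6) .nil .nil))))) (.nd (nat_lit 4) (.nd (nat_lit 5) 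
(.lf (nat_lit 197902) (.g (nat_lit 1862) (.e (nat_lit 65637) (nat_lit 15) (.e (nat_lit 3305) (nat_lit 202) (.e (nat_lit 573479) (nat_lit 13) (.e (nat_lit 65619) (nat_lit 10) (.e (nat_lit 344115) (nat_lit 20) .nil))))) .nil)) 
(.lf (nat_lit 197934) (.g (nat_lit 2183) (.e (nat_lit 65637) (nat_lit 15) (.e (nat_lit 3632) (nat_lit 227) (.e (nat_lit 778317) (nat_lit 3) (.e (nat_lit 57477) (nat_lit 28) .nil)))) .nil))) (.nd (nat_lit 5) 
(.lf (nat_lit 197918) (.g (nat_lit 3821) (.e (nat_lit 65637) (nat_lit 15) (.e (nat_lit 3632) (nat_lit 227) (.e (nat_lit 778317) (nat_lit 3) (.e (nat_lit 57476) (nat_lit 28) (.e (nat_lit 557097) (nat_lit 13) (.e (nat_lit 172094) (nat_lit 9) (.e (nat_lit 426125) (nat_lit 2) (.e (nat_lit 196664) (nat_lit 13) .nil)))))))) (.g (nat_lit 4) .nil .nil))) 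
(.lf (nat_lit 197950) (.g (nat_lit 3391) (.e (nat_lit 65637) (nat_lit 15) (.e (nat_lit 3632) (nat_lit 227) (.e (nat_lit 778317) (nat_lit 3) (.e (nat_lit 57479) (nat_lit 28) (.e (nat_lit 557101) (nat_lit 13) (.e (nat_lit 172115) (nat_lit 10) (.e (nat_lit 434221) (nat_lit 19) (.e (nat_lit 500062) (nat_lit 18) .nil)))))))) (.g (nat_lit 4) .nil .nil)))))))) 
(.nd (nat_lit 1) (.nd (nat_lit 2) (.nd (nat_lit 3) (.nd (nat_lit 4) (.nd (nat_lit 5) 
(.lf (nat_lit 197889) (.g (nat_lit 2755) (.e (nat_lit 65637) (nat_lit 15) (.e (nat_lit 3253) (nat_lit 197) (.e (nat_lit 532504) (nat_lit 1) (.e (nat_lit 57852) (nat_lit 252) (.e (nat_lit 57351) (nat_lit 0) (.e (nat_lit 1803) (nat_lit 119) (.e (nat_lit 516131) (nat_lit 3) (.e (nat_lit 221212) (nat_lit 22) (.e (nat_lit 196665) (nat_lit 13) .nil))))))))) (.g (nat_lit 4) .nil .nil))) 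
(.lf (nat_lit 197921) (.g (nat_lit 5452) (.e (nat_lit 65637) (nat_lit 15) (.e (nat_lit 3632) (nat_lit 227) (.e (nat_lit 778317) (nat_lit 3) (.e (nat_lit 57476) (nat_lit 28) (.e (nat_lit 557097) (nat_lit 13) (.e (nat_lit 172115) (nat_lit 10) (.e (nat_lit 434219) (nat_lit 19) (.e (nat_lit 500059) (nat_lit 18) .nil)))))))) (.g (nat_lit 6) .nil .nil)))) (.nd (nat_lit 5) 
(.lf (nat_lit 197905) (.g (nat_lit 1950) (.e (nat_lit 65637) (nat_lit 15) (.e (nat_lit 3305) (nat_lit 202) (.e (nat_lit 573484) (nat_lit 13) (.e (nat_lit 65617) (nat_lit 10) (.e (nat_lit 344117) (nat_lit 21) .nil))))) .nil)) 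
(.lf (nat_lit 197937) (.g (nat_lit 5748) (.e (nat_lit 65637) (nat_lit 15) (.e (nat_lit 3632) (nat_lit 227) (.e (nat_lit 778317) (nat_lit 3) (.e (nat_lit 57477) (nat_lit 28) (.e (nat_lit 557097) (nat_lit 13) (.e (nat_lit 172115) (nat_lit 10) (.e (nat_lit 434219) (nat_lit 19) (.e (nat_lit 500062) (nat_lit 18) .nil)))))))) (.g (nat_lit 7) .nil .nil))))) (.nd (nat_lit 4) (.nd (nat_lit 5) 
(.lf (nat_lit 197897) (.g (nat_lit 2328) (.e (nat_lit 65637) (nat_lit 15) (.e (nat_lit 3253) (nat_lit 197) (.e (nat_lit 532533) (nat_lit 9) (.e (nat_lit 336211) (nat_lit 13) (.e (nat_lit 393251) (nat_lit 18) (.e (nat_lit 164156) (nat_lit 152) (.e (nat_lit 1202) (nat_lit 88) .nil))))))) (.g (nat_lit 5) .nil .nil))) 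
(.lf (nat_lit 197929) (.g (nat_lit 4019) (.e (nat_lit 65637) (nat_lit 15) (.e (nat_lit 3632) (nat_lit 227) (.e (nat_lit 778317) (nat_lit 3) (.e (nat_lit 57476) (nat_lit 28) (.e (nat_lit 557108) (nat_lit 15) (.e (nat_lit 188447) (nat_lit 22) (.e (nat_lit 196663) (nat_lit 13) .nil))))))) (.g (nat_lit 4) .nil .nil)))) (.nd (nat_lit 5) 
(.lf (nat_lit 197913) (.g (nat_lit 3434) (.e (nat_lit 65637) (nat_lit 15) (.e (nat_lit 3305) (nat_lit 202) (.e (nat_lit 573493) (nat_lit 15) (.e (nat_lit 81954) (nat_lit 23) (.e (nat_lit 98320) (nat_lit 17) .nil))))) .nil)) 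
(.lf (nat_lit 197945) (.g (nat_lit 2334) (.e (nat_lit 65637) (nat_lit 15) (.e (nat_lit 3632) (nat_lit 227) (.e (nat_lit 778317) (nat_lit 3) (.e (nat_lit 57479) (nat_lit 28) (.e (nat_lit 557101) (nat_lit 13) .nil))))) .nil))))) (.nd (nat_lit 3) (.nd (nat_lit 4) (.nd (nat_lit 5) 
(.lf (nat_lit 197893) (.g (nat_lit 2427) (.e (nat_lit 65637) (nat_lit 15) (.e (nat_lit 3253) (nat_lit 197) (.e (nat_lit 532504) (nat_lit 1) (.e (nat_lit 57852) (nat_lit 252) (.e (nat_lit 57357) (nat_lit 0) .nil))))) .nil)) 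
(.lf (nat_lit 197925) (.g (nat_lit 5376) (.e (nat_lit 65637) (nat_lit 15) (.e (nat_lit 3632) (nat_lit 227) (.e (nat_lit 778317) (nat_lit 3) (.e (nat_lit 57476) (nat_lit 28) (.e (nat_lit 557107) (nat_lit 15) (.e (nat_lit 188447) (nat_lit 22) (.e (nat_lit 196664) (nat_lit 13) .nil))))))) (.g (nat_lit 6) .nil .nil)))) (.nd (nat_lit 5) 
(.lf (nat_lit 197909) (.g (nat_lit 3443) (.e (nat_lit 65637) (nat_lit 15) (.e (nat_lit 3305) (nat_lit 202) (.e (nat_lit 573490) (nat_lit 15) (.e (nat_lit 81956) (nat_lit 23) (.e (nat_lit 98320) (nat_lit 17) .nil))))) .nil)) 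
(.lf (nat_lit 197941) (.g (nat_lit 6450) (.e (nat_lit 65637) (nat_lit 15) (.e (nat_lit 3632) (nat_lit 227) (.e (nat_lit 778317) (nat_lit 3) (.e (nat_lit 57477) (nat_lit 28) (.e (nat_lit 557108) (nat_lit 15) (.e (nat_lit 188449) (nat_lit 22) (.e (nat_lit 196662) (nat_lit 13) .nil))))))) (.g (nat_lit 6) .nil .nil))))) (.nd (nat_lit 4) (.nd (nat_lit 5) 
(.lf (nat_lit 197901) (.g (nat_lit 1825) (.e (nat_lit 65637) (nat_lit 15) (.e (nat_lit 3304) (nat_lit 202) (.e (nat_lit 573485) (nat_lit 13) (.e (nat_lit 65619) (nat_lit 10) (.e (nat_lit 344117) (nat_lit 21) .nil))))) .nil)) 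
(.lf (nat_lit 197933) (.g (nat_lit 4998) (.e (nat_lit 65637) (nat_lit 15) (.e (nat_lit 3632) (nat_lit 227) (.e (nat_lit 778317) (nat_lit 3) (.e (nat_lit 57476) (nat_lit 28) (.e (nat_lit 557108) (nat_lit 15) (.e (nat_lit 188449) (nat_lit 22) (.e (nat_lit 204544) (nat_lit 13) .nil))))))) (.g (nat_lit 6) .nil .nil)))) (.nd (nat_lit 5) 
(.lf (nat_lit 197917) (.g (nat_lit 2250) (.e (nat_lit 65637) (nat_lit 15) (.e (nat_lit 3632) (nat_lit 227) (.e (nat_lit 778317) (nat_lit 3) (.e (nat_lit 57476) (nat_lit 28) .nil)))) .nil)) 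
(.lf (nat_lit 197949) (.g (nat_lit 5754) (.e (nat_lit 65637) (nat_lit 15) (.e (nat_lit 3632) (nat_lit 227) (.e (nat_lit 778317) (nat_lit 3) (.e (nat_lit 57479) (nat_lit 28) (.e (nat_lit 557101) (nat_lit 13) (.e (nat_lit 172115) (nat_lit 10) (.e (nat_lit 434219) (nat_lit 19) (.e (nat_lit 500062) (nat_lit 18) .nil)))))))) (.g (nat_lit 7) .nil .nil))))))) 
(.nd (nat_lit 2) (.nd (nat_lit 3) (.nd (nat_lit 4) (.nd (nat_lit 5) 
(.lf (nat_lit 197891) (.g (nat_lit 2541) (.e (nat_lit 65637) (nat_lit 15) (.e (nat_lit 3253) (nat_lit 197) (.e (nat_lit 532504) (nat_lit 1) (.e (nat_lit 57852) (nat_lit 252) (.e (nat_lit 57354) (nat_lit 0) (.e (nat_lit 1799) (nat_lit 119) (.e (nat_lit 516131) (nat_lit 3) (.e (nat_lit 221212) (nat_lit 22) (.e (nat_lit 196664) (nat_lit 13) .nil))))))))) (.g (nat_lit 4) .nil .nil))) 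
(.lf (nat_lit 197923) (.g (nat_lit 6143) (.e (nat_lit 65637) (nat_lit 15) (.e (nat_lit 3632) (nat_lit 227) (.e (nat_lit 778317) (nat_lit 3) (.e (nat_lit 57476) (nat_lit 28) (.e (nat_lit 557097) (nat_lit 13) (.e (nat_lit 172115) (nat_lit 10) (.e (nat_lit 434219) (nat_lit 19) (.e (nat_lit 500062) (nat_lit 18) .nil)))))))) (.g (nat_lit 7) .nil .nil)))) (.nd (nat_lit 5) 
(.lf (nat_lit 197907) (.g (nat_lit 1871) (.e (nat_lit 65637) (nat_lit 15) (.e (nat_lit 3305) (nat_lit 202) (.e (nat_lit 573485) (nat_lit 13) (.e (nat_lit 65619) (nat_lit 10) (.e (nat_lit 344115) (nat_lit 20) .nil))))) .nil)) 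
(.lf (nat_lit 197939) (.g (nat_lit 3775) (.e (nat_lit 65637) (nat_lit 15) (.e (nat_lit 3632) (nat_lit 227) (.e (nat_lit 778317) (nat_lit 3) (.e (nat_lit 57477) (nat_lit 28) (.e (nat_lit 557107) (nat_lit 15) (.e (nat_lit 188448) (nat_lit 22) (.e (nat_lit 196665) (nat_lit 13) .nil))))))) (.g (nat_lit 5) .nil .nil))))) (.nd (nat_lit 4) (.nd (nat_lit 5) 
(.lf (nat_lit 197899) (.g (nat_lit 3650) (.e (nat_lit 65637) (nat_lit 15) (.e (nat_lit 3295) (nat_lit 202) (.e (nat_lit 573492) (nat_lit 15) (.e (nat_lit 81956) (nat_lit 23) (.e (nat_lit 98319) (nat_lit 17) .nil))))) .nil)) 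
(.lf (nat_lit 197931) (.g (nat_lit 8215) (.e (nat_lit 65637) (nat_lit 15) (.e (nat_lit 3632) (nat_lit 227) (.e (nat_lit 778317) (nat_lit 3) (.e (nat_lit 57476) (nat_lit 28) (.e (nat_lit 557108) (nat_lit 15) (.e (nat_lit 188449) (nat_lit 22) (.e (nat_lit 196663) (nat_lit 13) .nil))))))) (.g (nat_lit 6) .nil .nil)))) (.nd (nat_lit 5) 
(.lf (nat_lit 197915) (.g (nat_lit 2413) (.e (nat_lit 65637) (nat_lit 15) (.e (nat_lit 3305) (nat_lit 202) (.e (nat_lit 573493) (nat_lit 15) (.e (nat_lit 81956) (nat_lit 23) (.e (nat_lit 98323) (nat_lit 17) .nil))))) .nil)) 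
(.lf (nat_lit 197947) (.g (nat_lit 5063) (.e (nat_lit 65637) (nat_lit 15) (.e (nat_lit 3632) (nat_lit 227) (.e (nat_lit 778317) (nat_lit 3) (.e (nat_lit 57479) (nat_lit 28) (.e (nat_lit 557101) (nat_lit 13) (.e (nat_lit 172115) (nat_lit 10) (.e (nat_lit 434219) (nat_lit 19) (.e (nat_lit 500059) (nat_lit 18) .nil)))))))) (.g (nat_lit 6) .nil .nil)))))) 
(.nd (nat_lit 3) (.nd (nat_lit 4) (.nd (nat_lit 5) 
(.lf (nat_lit 197895) (.g (nat_lit 1842) (.e (nat_lit 65637) (nat_lit 15) (.e (nat_lit 3253) (nat_lit 197) (.e (nat_lit 532504) (nat_lit 1) (.e (nat_lit 57854) (nat_lit 252) (.e (nat_lit 57351) (nat_lit 0) .nil))))) .nil)) 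
(.lf (nat_lit 197927) (.g (nat_lit 4769) (.e (nat_lit 65637) (nat_lit 15) (.e (nat_lit 3632) (nat_lit 227) (.e (nat_lit 778317) (nat_lit 3) (.e (nat_lit 57476) (nat_lit 28) (.e (nat_lit 557108) (nat_lit 15) (.e (nat_lit 188433) (nat_lit 20) (.e (nat_lit 3114) (nat_lit 193) (.e (nat_lit 500067) (nat_lit 18) .nil)))))))) (.g (nat_lit 5) .nil .nil)))) (.nd (nat_lit 5) 
(.lf (nat_lit 197911) (.g (nat_lit 2081) (.e (nat_lit 65637) (nat_lit 15) (.e (nat_lit 3305) (nat_lit 202) (.e (nat_lit 573491) (nat_lit 15) (.e (nat_lit 81956) (nat_lit 23) (.e (nat_lit 98319) (nat_lit 17) .nil))))) .nil)) 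
(.lf (nat_lit 197943) (.g (nat_lit 4600) (.e (nat_lit 65637) (nat_lit 15) (.e (nat_lit 3632) (nat_lit 227) (.e (nat_lit 778317) (nat_lit 3) (.e (nat_lit 57477) (nat_lit 28) (.e (nat_lit 557108) (nat_lit 15) (.e (nat_lit 188449) (nat_lit 22) (.e (nat_lit 204544) (nat_lit 13) .nil))))))) (.g (nat_lit 6) .nil .nil))))) (.nd (nat_lit 4) (.nd (nat_lit 5) 
(.lf (nat_lit 197903) (.g (nat_lit 3153) (.e (nat_lit 65637) (nat_lit 15) (.e (nat_lit 3305) (nat_lit 202) (.e (nat_lit 573479) (nat_lit 13) (.e (nat_lit 65619) (nat_lit 10) (.e (nat_lit 344117) (nat_lit 21) (.e (nat_lit 516097) (nat_lit 0) (.e (nat_lit 7589) (nat_lit 406) .nil))))))) (.g (nat_lit 6) .nil .nil))) 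
(.lf (nat_lit 197935) (.g (nat_lit 2495) (.e (nat_lit 65637) (nat_lit 15) (.e (nat_lit 3632) (nat_lit 227) (.e (nat_lit 778317) (nat_lit 3) (.e (nat_lit 57477) (nat_lit 28) (.e (nat_lit 557097) (nat_lit 13) .nil))))) .nil))) (.nd (nat_lit 5) 
(.lf (nat_lit 197919) (.g (nat_lit 3699) (.e (nat_lit 65637) (nat_lit 15) (.e (nat_lit 3632) (nat_lit 227) (.e (nat_lit 778317) (nat_lit 3) (.e (nat_lit 57476) (nat_lit 28) (.e (nat_lit 557097) (nat_lit 13) (.e (nat_lit 172109) (nat_lit 10) (.e (nat_lit 434221) (nat_lit 19) (.e (nat_lit 500062) (nat_lit 18) .nil)))))))) (.g (nat_lit 4) .nil .nil))) 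
(.lf (nat_lit 197951) (.g (nat_lit 3154) (.e (nat_lit 65637) (nat_lit 15) (.e (nat_lit 3632) (nat_lit 227) (.e (nat_lit 778317) (nat_lit 3) (.e (nat_lit 57479) (nat_lit 28) (.e (nat_lit 557106) (nat_lit 15) .nil))))) .nil))))))))

noncomputable def tv2618 : DT := (.nd (nat_lit 0) (.nd (nat_lit 1) (.nd (nat_lit 2) (.nd (nat_lit 3) (.nd (nat_lit 4) (.nd (nat_lit 5) 
(.lf (nat_lit 197952) (.g (nat_lit 2135) (.e (nat_lit 65637) (nat_lit 15) (.e (nat_lit 3632) (nat_lit 227) (.e (nat_lit 778317) (nat_lit 3) (.e (nat_lit 57480) (nat_lit 28) .nil)))) .nil)) 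
(.lf (nat_lit 197984) (.g (nat_lit 1200) (.e (nat_lit 65637) (nat_lit 15) (.e (nat_lit 3748) (nat_lit 228) (.e (nat_lit 786483) (nat_lit 30) (.e (nat_lit 360450) (nat_lit 0) .nil)))) .nil))) (.nd (nat_lit 5) 
(.lf (nat_lit 197968) (.g (nat_lit 3824) (.e (nat_lit 65637) (nat_lit 15) (.e (nat_lit 3632) (nat_lit 227) (.e (nat_lit 778317) (nat_lit 3) (.e (nat_lit 57480) (nat_lit 28) (.e (nat_lit 557109) (nat_lit 15) (.e (nat_lit 188441) (nat_lit 20) (.e (nat_lit 3134) (nat_lit 193) (.e (nat_lit 500062) (nat_lit 18) .nil)))))))) (.g (nat_lit 4) .nil .nil))) 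
(.lf (nat_lit 198000) (.g (nat_lit 2825) (.e (nat_lit 65640) (nat_lit 15) (.e (nat_lit 3305) (nat_lit 202) (.e (nat_lit 573475) (nat_lit 12) (.e (nat_lit 57520) (nat_lit 44) (.e (nat_lit 688171) (nat_lit 15) .nil))))) .nil)))) (.nd (nat_lit 4) (.nd (nat_lit 5) 
(.lf (nat_lit 197960) (.g (nat_lit 5057) (.e (nat_lit 65637) (nat_lit 15) (.e (nat_lit 3632) (nat_lit 227) (.e (nat_lit 778317) (nat_lit 3) (.e (nat_lit 57480) (nat_lit 28) (.e (nat_lit 557109) (nat_lit 15) (.e (nat_lit 188433) (nat_lit 20) (.e (nat_lit 3114) (nat_lit 193) (.e (nat_lit 500067) (nat_lit 18) .nil)))))))) (.g (nat_lit 5) .nil .nil))) 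
(.lf (nat_lit 197992) (.g (nat_lit 1857) (.e (nat_lit 65640) (nat_lit 15) (.e (nat_lit 3253) (nat_lit 197) (.e (nat_lit 532503) (nat_lit 1) (.e (nat_lit 57872) (nat_lit 264) .nil)))) .nil))) (.nd (nat_lit 5) 
(.lf (nat_lit 197976) (.g (nat_lit 1104) (.e (nat_lit 65637) (nat_lit 15) (.e (nat_lit 3632) (nat_lit 227) (.e (nat_lit 778318) (nat_lit 3) (.e (nat_lit 57476) (nat_lit 28) .nil)))) .nil)) 
(.lf (nat_lit 198008) (.g (nat_lit 1793) (.e (nat_lit 65642) (nat_lit 15) (.e (nat_lit 3230) (nat_lit 197) (.e (nat_lit 532544) (nat_lit 10) (.e (nat_lit 344133) (nat_lit 26) (.e (nat_lit 557098) (nat_lit 13) .nil))))) .nil))))) (.nd (nat_lit 3) (.nd (nat_lit 4) (.nd (nat_lit 5) 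
(.lf (nat_lit 197956) (.g (nat_lit 3665) (.e (nat_lit 65637) (nat_lit 15) (.e (nat_lit 3632) (nat_lit 227) (.e (nat_lit 778317) (nat_lit 3) (.e (nat_lit 57480) (nat_lit 28) (.e (nat_lit 557098) (nat_lit 13) (.e (nat_lit 172115) (nat_lit 10) (.e (nat_lit 434220) (nat_lit 19) (.e (nat_lit 500062) (nat_lit 18) .nil)))))))) (.g (nat_lit 4) .nil .nil))) 
(.lf (nat_lit 197988) (.g (nat_lit 3107) (.e (nat_lit 65640) (nat_lit 15) (.e (nat_lit 3253) (nat_lit 197) (.e (nat_lit 532499) (nat_lit 1) (.e (nat_lit 57847) (nat_lit 252) (.e (nat_lit 57355) (nat_lit 0) .nil))))) .nil))) (.nd (nat_lit 5) 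
(.lf (nat_lit 197972) (.g (nat_lit 7066) (.e (nat_lit 65637) (nat_lit 15) (.e (nat_lit 3632) (nat_lit 227) (.e (nat_lit 778317) (nat_lit 3) (.e (nat_lit 57480) (nat_lit 28) (.e (nat_lit 557109) (nat_lit 15) (.e (nat_lit 188449) (nat_lit 22) (.e (nat_lit 196662) (nat_lit 13) .nil))))))) (.g (nat_lit 6) .nil .nil))) 
(.lf (nat_lit 198004) (.g (nat_lit 1823) (.e (nat_lit 65641) (nat_lit 15) (.e (nat_lit 3304) (nat_lit 202) (.e (nat_lit 573485) (nat_lit 13) (.e (nat_lit 65619) (nat_lit 10) (.e (nat_lit 344117) (nat_lit 21) .nil))))) .nil)))) (.nd (nat_lit 4) (.nd (nat_lit 5) 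
(.lf (nat_lit 197964) (.g (nat_lit 4800) (.e (nat_lit 65637) (nat_lit 15) (.e (nat_lit 3632) (nat_lit 227) (.e (nat_lit 778317) (nat_lit 3) (.e (nat_lit 57480) (nat_lit 28) (.e (nat_lit 557109) (nat_lit 15) (.e (nat_lit 188434) (nat_lit 20) (.e (nat_lit 3143) (nat_lit 193) (.e (nat_lit 500062) (nat_lit 18) .nil)))))))) (.g (nat_lit 5) .nil .nil))) 
(.lf (nat_lit 197996) (.g (nat_lit 2887) (.e (nat_lit 65640) (nat_lit 15) (.e (nat_lit 3253) (nat_lit 197) (.e (nat_lit 532504) (nat_lit 1) (.e (nat_lit 57852) (nat_lit 252) (.e (nat_lit 57357) (nat_lit 0) .nil))))) .nil))) (.nd (nat_lit 5) 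
(.lf (nat_lit 197980) (.g (nat_lit 4293) (.e (nat_lit 65637) (nat_lit 15) (.e (nat_lit 3632) (nat_lit 227) (.e (nat_lit 778320) (nat_lit 4) (.e (nat_lit 65630) (nat_lit 14) (.e (nat_lit 401454) (nat_lit 12) (.e (nat_lit 483072) (nat_lit 12) .nil)))))) (.g (nat_lit 5) .nil .nil))) 
(.lf (nat_lit 198012) (.g (nat_lit 2528) (.e (nat_lit 65642) (nat_lit 15) (.e (nat_lit 3253) (nat_lit 197) (.e (nat_lit 532544) (nat_lit 10) (.e (nat_lit 344133) (nat_lit 26) (.e (nat_lit 557098) (nat_lit 13) .nil))))) .nil)))))) (.nd (nat_lit 2) (.nd (nat_lit 3) (.nd (nat_lit 4) (.nd (nat_lit 5) 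
(.lf (nat_lit 197954) (.g (nat_lit 5718) (.e (nat_lit 65637) (nat_lit 15) (.e (nat_lit 3632) (nat_lit 227) (.e (nat_lit 778317) (nat_lit 3) (.e (nat_lit 57480) (nat_lit 28) (.e (nat_lit 557098) (nat_lit 13) (.e (nat_lit 172115) (nat_lit 10) (.e (nat_lit 434219) (nat_lit 19) (.e (nat_lit 500059) (nat_lit 18) .nil)))))))) (.g (nat_lit 6) .nil .nil))) 
(.lf (nat_lit 197986) (.g (nat_lit 72) (.e (nat_lit 65639) (nat_lit 15) (.e (nat_lit 7088) (nat_lit 379) (.e (nat_lit 123213) (nat_lit 274) .nil))) .nil))) (.nd (nat_lit 5) 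
(.lf (nat_lit 197970) (.g (nat_lit 3914) (.e (nat_lit 65637) (nat_lit 15) (.e (nat_lit 3632) (nat_lit 227) (.e (nat_lit 778317) (nat_lit 3) (.e (nat_lit 57480) (nat_lit 28) (.e (nat_lit 557109) (nat_lit 15) (.e (nat_lit 188441) (nat_lit 20) (.e (nat_lit 3147) (nat_lit 193) (.e (nat_lit 500062) (nat_lit 18) .nil)))))))) (.g (nat_lit 4) .nil .nil))) 
(.lf (nat_lit 198002) (.g (nat_lit 2133) (.e (nat_lit 65640) (nat_lit 15) (.e (nat_lit 3305) (nat_lit 202) (.e (nat_lit 573485) (nat_lit 13) (.e (nat_lit 65619) (nat_lit 10) (.e (nat_lit 344115) (nat_lit 20) .nil))))) .nil)))) (.nd (nat_lit 4) (.nd (nat_lit 5) 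
(.lf (nat_lit 197962) (.g (nat_lit 4212) (.e (nat_lit 65637) (nat_lit 15) (.e (nat_lit 3632) (nat_lit 227) (.e (nat_lit 778317) (nat_lit 3) (.e (nat_lit 57480) (nat_lit 28) (.e (nat_lit 557109) (nat_lit 15) (.e (nat_lit 188434) (nat_lit 20) (.e (nat_lit 3124) (nat_lit 193) (.e (nat_lit 500062) (nat_lit 18) .nil)))))))) (.g (nat_lit 5) .nil .nil))) 
(.lf (nat_lit 197994) (.g (nat_lit 2879) (.e (nat_lit 65640) (nat_lit 15) (.e (nat_lit 3253) (nat_lit 197) (.e (nat_lit 532504) (nat_lit 1) (.e (nat_lit 57852) (nat_lit 252) (.e (nat_lit 57344) (nat_lit 0) .nil))))) .nil))) (.nd (nat_lit 5) 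
(.lf (nat_lit 197978) (.g (nat_lit 491) (.e (nat_lit 65637) (nat_lit 15) (.e (nat_lit 3632) (nat_lit 227) (.e (nat_lit 778320) (nat_lit 4) .nil))) .nil)) 
(.lf (nat_lit 198010) (.g (nat_lit 2859) (.e (nat_lit 65642) (nat_lit 15) (.e (nat_lit 3253) (nat_lit 197) (.e (nat_lit 532534) (nat_lit 9) (.e (nat_lit 336019) (nat_lit 3) (.e (nat_lit 98342) (nat_lit 20) .nil))))) .nil))))) (.nd (nat_lit 3) (.nd (nat_lit 4) (.nd (nat_lit 5) 
(.lf (nat_lit 197958) (.g (nat_lit 4294) (.e (nat_lit 65637) (nat_lit 15) (.e (nat_lit 3632) (nat_lit 227) (.e (nat_lit 778317) (nat_lit 3) (.e (nat_lit 57480) (nat_lit 28) (.e (nat_lit 557107) (nat_lit 15) (.e (nat_lit 188448) (nat_lit 22) (.e (nat_lit 196665) (nat_lit 13) .nil))))))) (.g (nat_lit 5) .nil .nil))) 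
(.lf (nat_lit 197990) (.g (nat_lit 1646) (.e (nat_lit 65640) (nat_lit 15) (.e (nat_lit 3253) (nat_lit 197) (.e (nat_lit 532503) (nat_lit 1) (.e (nat_lit 57870) (nat_lit 264) .nil)))) .nil))) (.nd (nat_lit 5) 
(.lf (nat_lit 197974) (.g (nat_lit 8193) (.e (nat_lit 65637) (nat_lit 15) (.e (nat_lit 3632) (nat_lit 227) (.e (nat_lit 778317) (nat_lit 3) (.e (nat_lit 57480) (nat_lit 28) (.e (nat_lit 557109) (nat_lit 15) (.e (nat_lit 188449) (nat_lit 22) (.e (nat_lit 196664) (nat_lit 13) .nil))))))) (.g (nat_lit 6) .nil .nil))) 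
(.lf (nat_lit 198006) (.g (nat_lit 2700) (.e (nat_lit 65641) (nat_lit 15) (.e (nat_lit 3305) (nat_lit 202) (.e (nat_lit 573475) (nat_lit 12) (.e (nat_lit 57520) (nat_lit 44) (.e (nat_lit 688170) (nat_lit 15) .nil))))) .nil)))) (.nd (nat_lit 4) (.nd (nat_lit 5) 
(.lf (nat_lit 197966) (.g (nat_lit 4829) (.e (nat_lit 65637) (nat_lit 15) (.e (nat_lit 3632) (nat_lit 227) (.e (nat_lit 778317) (nat_lit 3) (.e (nat_lit 57480) (nat_lit 28) (.e (nat_lit 557109) (nat_lit 15) (.e (nat_lit 188434) (nat_lit 20) (.e (nat_lit 3146) (nat_lit 193) (.e (nat_lit 500062) (nat_lit 18) .nil)))))))) (.g (nat_lit 5) .nil .nil))) 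
(.lf (nat_lit 197998) (.g (nat_lit 2809) (.e (nat_lit 65640) (nat_lit 15) (.e (nat_lit 3305) (nat_lit 202) (.e (nat_lit 573475) (nat_lit 12) (.e (nat_lit 57520) (nat_lit 44) (.e (nat_lit 688169) (nat_lit 15) .nil))))) .nil))) (.nd (nat_lit 5) 
(.lf (nat_lit 197982) (.g (nat_lit 2985) (.e (nat_lit 65637) (nat_lit 15) (.e (nat_lit 3632) (nat_lit 227) (.e (nat_lit 778323) (nat_lit 5) (.e (nat_lit 81664) (nat_lit 37) (.e (nat_lit 180225) (nat_lit 0) (.e (nat_lit 5979) (nat_lit 326) (.e (nat_lit 1193) (nat_lit 88) .nil))))))) (.g (nat_lit 5) .nil .nil))) 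
(.lf (nat_lit 198014) (.g (nat_lit 2229) (.e (nat_lit 65642) (nat_lit 15) (.e (nat_lit 3304) (nat_lit 202) (.e (nat_lit 573482) (nat_lit 13) (.e (nat_lit 65604) (nat_lit 9) (.e (nat_lit 336013) (nat_lit 2) .nil))))) .nil))))))) (.nd (nat_lit 1) (.nd (nat_lit 2) (.nd (nat_lit 3) (.nd (nat_lit 4) (.nd (nat_lit 5) 
(.lf (nat_lit 197953) (.g (nat_lit 3597) (.e (nat_lit 65637) (nat_lit 15) (.e (nat_lit 3632) (nat_lit 227) (.e (nat_lit 778317) (nat_lit 3) (.e (nat_lit 57480) (nat_lit 28) (.e (nat_lit 557098) (nat_lit 13) (.e (nat_lit 172115) (nat_lit 10) (.e (nat_lit 434217) (nat_lit 19) (.e (nat_lit 500062) (nat_lit 18) .nil)))))))) (.g (nat_lit 4) .nil .nil))) 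
(.lf (nat_lit 197985) (.g (nat_lit 1071) (.e (nat_lit 65637) (nat_lit 15) (.e (nat_lit 3748) (nat_lit 228) (.e (nat_lit 786483) (nat_lit 30) (.e (nat_lit 360451) (nat_lit 0) .nil)))) .nil))) (.nd (nat_lit 5) 
(.lf (nat_lit 197969) (.g (nat_lit 3686) (.e (nat_lit 65637) (nat_lit 15) (.e (nat_lit 3632) (nat_lit 227) (.e (nat_lit 778317) (nat_lit 3) (.e (nat_lit 57480) (nat_lit 28) (.e (nat_lit 557109) (nat_lit 15) (.e (nat_lit 188441) (nat_lit 20) (.e (nat_lit 3144) (nat_lit 193) (.e (nat_lit 500062) (nat_lit 18) .nil)))))))) (.g (nat_lit 4) .nil .nil))) 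
(.lf (nat_lit 198001) (.g (nat_lit 3098) (.e (nat_lit 65640) (nat_lit 15) (.e (nat_lit 3305) (nat_lit 202) (.e (nat_lit 573475) (nat_lit 12) (.e (nat_lit 57520) (nat_lit 44) (.e (nat_lit 688171) (nat_lit 15) (.e (nat_lit 57478) (nat_lit 28) (.e (nat_lit 557105) (nat_lit 14) (.e (nat_lit 180252) (nat_lit 10) (.e (nat_lit 573481) (nat_lit 13) .nil))))))))) (.g (nat_lit 4) .nil .nil))))) 
(.nd (nat_lit 4) (.nd (nat_lit 5) 
(.lf (nat_lit 197961) (.g (nat_lit 3482) (.e (nat_lit 65637) (nat_lit 15) (.e (nat_lit 3632) (nat_lit 227) (.e (nat_lit 778317) (nat_lit 3) (.e (nat_lit 57480) (nat_lit 28) (.e (nat_lit 557109) (nat_lit 15) (.e (nat_lit 188433) (nat_lit 20) (.e (nat_lit 3142) (nat_lit 193) (.e (nat_lit 500062) (nat_lit 18) .nil)))))))) (.g (nat_lit 4) .nil .nil))) 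
(.lf (nat_lit 197993) (.g (nat_lit 665) (.e (nat_lit 65640) (nat_lit 15) (.e (nat_lit 3253) (nat_lit 197) (.e (nat_lit 532504) (nat_lit 1) .nil))) .nil))) (.nd (nat_lit 5) 
(.lf (nat_lit 197977) (.g (nat_lit 3306) (.e (nat_lit 65637) (nat_lit 15) (.e (nat_lit 3632) (nat_lit 227) (.e (nat_lit 778318) (nat_lit 3) (.e (nat_lit 57543) (nat_lit 47) (.e (nat_lit 712755) (nat_lit 30) (.e (nat_lit 450596) (nat_lit 17) (.e (nat_lit 663566) (nat_lit 4) .nil))))))) (.g (nat_lit 5) .nil .nil))) 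
(.lf (nat_lit 198009) (.g (nat_lit 3009) (.e (nat_lit 65642) (nat_lit 15) (.e (nat_lit 3253) (nat_lit 197) (.e (nat_lit 532499) (nat_lit 1) (.e (nat_lit 57847) (nat_lit 252) (.e (nat_lit 57345) (nat_lit 0) .nil))))) .nil))))) (.nd (nat_lit 3) (.nd (nat_lit 4) (.nd (nat_lit 5) 
(.lf (nat_lit 197957) (.g (nat_lit 5705) (.e (nat_lit 65637) (nat_lit 15) (.e (nat_lit 3632) (nat_lit 227) (.e (nat_lit 778317) (nat_lit 3) (.e (nat_lit 57480) (nat_lit 28) (.e (nat_lit 557107) (nat_lit 15) (.e (nat_lit 188447) (nat_lit 22) (.e (nat_lit 196664) (nat_lit 13) .nil))))))) (.g (nat_lit 6) .nil .nil))) 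
(.lf (nat_lit 197989) (.g (nat_lit 1576) (.e (nat_lit 65640) (nat_lit 15) (.e (nat_lit 3253) (nat_lit 197) (.e (nat_lit 532501) (nat_lit 1) (.e (nat_lit 57852) (nat_lit 252) .nil)))) .nil))) (.nd (nat_lit 5) 
(.lf (nat_lit 197973) (.g (nat_lit 8006) (.e (nat_lit 65637) (nat_lit 15) (.e (nat_lit 3632) (nat_lit 227) (.e (nat_lit 778317) (nat_lit 3) (.e (nat_lit 57480) (nat_lit 28) (.e (nat_lit 557109) (nat_lit 15) (.e (nat_lit 188449) (nat_lit 22) (.e (nat_lit 196663) (nat_lit 13) .nil))))))) (.g (nat_lit 6) .nil .nil))) 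
(.lf (nat_lit 198005) (.g (nat_lit 2034) (.e (nat_lit 65641) (nat_lit 15) (.e (nat_lit 3305) (nat_lit 202) (.e (nat_lit 573475) (nat_lit 12) (.e (nat_lit 57520) (nat_lit 44) .nil)))) .nil)))) (.nd (nat_lit 4) (.nd (nat_lit 5) 
(.lf (nat_lit 197965) (.g (nat_lit 5050) (.e (nat_lit 65637) (nat_lit 15) (.e (nat_lit 3632) (nat_lit 227) (.e (nat_lit 778317) (nat_lit 3) (.e (nat_lit 57480) (nat_lit 28) (.e (nat_lit 557109) (nat_lit 15) (.e (nat_lit 188434) (nat_lit 20) (.e (nat_lit 3144) (nat_lit 193) (.e (nat_lit 500062) (nat_lit 18) .nil)))))))) (.g (nat_lit 5) .nil .nil))) 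
(.lf (nat_lit 197997) (.g (nat_lit 2143) (.e (nat_lit 65640) (nat_lit 15) (.e (nat_lit 3305) (nat_lit 202) (.e (nat_lit 573475) (nat_lit 12) (.e (nat_lit 57520) (nat_lit 44) .nil)))) .nil))) (.nd (nat_lit 5) 
(.lf (nat_lit 197981) (.g (nat_lit 1221) (.e (nat_lit 65637) (nat_lit 15) (.e (nat_lit 3632) (nat_lit 227) (.e (nat_lit 778323) (nat_lit 5) (.e (nat_lit 81664) (nat_lit 37) .nil)))) .nil)) 
(.lf (nat_lit 198013) (.g (nat_lit 2300) (.e (nat_lit 65642) (nat_lit 15) (.e (nat_lit 3253) (nat_lit 197) (.e (nat_lit 532563) (nat_lit 15) (.e (nat_lit 385066) (nat_lit 26) (.e (nat_lit 532532) (nat_lit 9) .nil))))) .nil)))))) (.nd (nat_lit 2) (.nd (nat_lit 3) (.nd (nat_lit 4) (.nd (nat_lit 5) 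
(.lf (nat_lit 197955) (.g (nat_lit 6409) (.e (nat_lit 65637) (nat_lit 15) (.e (nat_lit 3632) (nat_lit 227) (.e (nat_lit 778317) (nat_lit 3) (.e (nat_lit 57480) (nat_lit 28) (.e (nat_lit 557098) (nat_lit 13) (.e (nat_lit 172115) (nat_lit 10) (.e (nat_lit 434219) (nat_lit 19) (.e (nat_lit 500062) (nat_lit 18) .nil)))))))) (.g (nat_lit 7) .nil .nil))) 
(.lf (nat_lit 197987) (.g (nat_lit 811) (.e (nat_lit 65639) (nat_lit 15) (.e (nat_lit 7096) (nat_lit 380) (.e (nat_lit 164377) (nat_lit 253) .nil))) .nil))) (.nd (nat_lit 5) 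
(.lf (nat_lit 197971) (.g (nat_lit 6226) (.e (nat_lit 65637) (nat_lit 15) (.e (nat_lit 3632) (nat_lit 227) (.e (nat_lit 778317) (nat_lit 3) (.e (nat_lit 57480) (nat_lit 28) (.e (nat_lit 557109) (nat_lit 15) (.e (nat_lit 188447) (nat_lit 22) (.e (nat_lit 196665) (nat_lit 13) .nil))))))) (.g (nat_lit 6) .nil .nil))) 
(.lf (nat_lit 198003) (.g (nat_lit 2750) (.e (nat_lit 65640) (nat_lit 15) (.e (nat_lit 3305) (nat_lit 202) (.e (nat_lit 573493) (nat_lit 15) (.e (nat_lit 81956) (nat_lit 23) (.e (nat_lit 98325) (nat_lit 17) .nil))))) .nil)))) (.nd (nat_lit 4) (.nd (nat_lit 5) 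
(.lf (nat_lit 197963) (.g (nat_lit 3746) (.e (nat_lit 65637) (nat_lit 15) (.e (nat_lit 3632) (nat_lit 227) (.e (nat_lit 778317) (nat_lit 3) (.e (nat_lit 57480) (nat_lit 28) (.e (nat_lit 557109) (nat_lit 15) (.e (nat_lit 188434) (nat_lit 20) (.e (nat_lit 3134) (nat_lit 193) (.e (nat_lit 500061) (nat_lit 18) .nil)))))))) (.g (nat_lit 4) .nil .nil))) 
(.lf (nat_lit 197995) (.g (nat_lit 2872) (.e (nat_lit 65640) (nat_lit 15) (.e (nat_lit 3253) (nat_lit 197) (.e (nat_lit 532504) (nat_lit 1) (.e (nat_lit 57852) (nat_lit 252) (.e (nat_lit 57355) (nat_lit 0) .nil))))) .nil))) (.nd (nat_lit 5) 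
(.lf (nat_lit 197979) (.g (nat_lit 2384) (.e (nat_lit 65637) (nat_lit 15) (.e (nat_lit 3632) (nat_lit 227) (.e (nat_lit 778320) (nat_lit 4) (.e (nat_lit 65630) (nat_lit 14) (.e (nat_lit 401454) (nat_lit 12) .nil))))) .nil)) 
(.lf (nat_lit 198011) (.g (nat_lit 763) (.e (nat_lit 65642) (nat_lit 15) (.e (nat_lit 3253) (nat_lit 197) (.e (nat_lit 532544) (nat_lit 10) .nil))) .nil))))) (.nd (nat_lit 3) (.nd (nat_lit 4) (.nd (nat_lit 5) 
(.lf (nat_lit 197959) (.g (nat_lit 3984) (.e (nat_lit 65637) (nat_lit 15) (.e (nat_lit 3632) (nat_lit 227) (.e (nat_lit 778317) (nat_lit 3) (.e (nat_lit 57480) (nat_lit 28) (.e (nat_lit 557109) (nat_lit 15) (.e (nat_lit 188433) (nat_lit 20) (.e (nat_lit 3114) (nat_lit 193) (.e (nat_lit 500066) (nat_lit 18) .nil)))))))) (.g (nat_lit 4) .nil .nil))) 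
(.lf (nat_lit 197991) (.g (nat_lit 1945) (.e (nat_lit 65640) (nat_lit 15) (.e (nat_lit 3253) (nat_lit 197) (.e (nat_lit 532503) (nat_lit 1) (.e (nat_lit 57870) (nat_lit 264) (.e (nat_lit 1171) (nat_lit 87) .nil))))) .nil))) (.nd (nat_lit 5) 
(.lf (nat_lit 197975) (.g (nat_lit 4661) (.e (nat_lit 65637) (nat_lit 15) (.e (nat_lit 3632) (nat_lit 227) (.e (nat_lit 778317) (nat_lit 3) (.e (nat_lit 57480) (nat_lit 28) (.e (nat_lit 557109) (nat_lit 15) (.e (nat_lit 188449) (nat_lit 22) (.e (nat_lit 204544) (nat_lit 13) .nil))))))) (.g (nat_lit 6) .nil .nil))) 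
(.lf (nat_lit 198007) (.g (nat_lit 2716) (.e (nat_lit 65641) (nat_lit 15) (.e (nat_lit 3305) (nat_lit 202) (.e (nat_lit 573475) (nat_lit 12) (.e (nat_lit 57520) (nat_lit 44) (.e (nat_lit 688171) (nat_lit 15) .nil))))) .nil)))) (.nd (nat_lit 4) (.nd (nat_lit 5) 
(.lf (nat_lit 197967) (.g (nat_lit 4532) (.e (nat_lit 65637) (nat_lit 15) (.e (nat_lit 3632) (nat_lit 227) (.e (nat_lit 778317) (nat_lit 3) (.e (nat_lit 57480) (nat_lit 28) (.e (nat_lit 557109) (nat_lit 15) (.e (nat_lit 188441) (nat_lit 20) (.e (nat_lit 3124) (nat_lit 193) (.e (nat_lit 500062) (nat_lit 18) .nil)))))))) (.g (nat_lit 5) .nil .nil))) 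
(.lf (nat_lit 197999) (.g (nat_lit 2809) (.e (nat_lit 65640) (nat_lit 15) (.e (nat_lit 3305) (nat_lit 202) (.e (nat_lit 573475) (nat_lit 12) (.e (nat_lit 57520) (nat_lit 44) (.e (nat_lit 688170) (nat_lit 15) .nil))))) .nil))) (.nd (nat_lit 5) 
(.lf (nat_lit 197983) (.g (nat_lit 3268) (.e (nat_lit 65637) (nat_lit 15) (.e (nat_lit 3632) (nat_lit 227) (.e (nat_lit 778324) (nat_lit 5) (.e (nat_lit 73781) (nat_lit 32) (.e (nat_lit 3067) (nat_lit 190) (.e (nat_lit 483072) (nat_lit 12) .nil)))))) (.g (nat_lit 5) .nil .nil))) 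
(.lf (nat_lit 198015) (.g (nat_lit 2034) (.e (nat_lit 65642) (nat_lit 15) (.e (nat_lit 3304) (nat_lit 202) (.e (nat_lit 573482) (nat_lit 13) (.e (nat_lit 65619) (nat_lit 10) (.e (nat_lit 344117) (nat_lit 21) .nil))))) .nil))))))))

noncomputable def tv2619 : DT := (.nd (nat_lit 0) (.nd (nat_lit 1) (.nd (nat_lit 2) (.nd (nat_lit 3) (.nd (nat_lit 4) (.nd (nat_lit 5) (.nd (nat_lit 6) 
(.lf (nat_lit 198016) (.g (nat_lit 2714) (.e (nat_lit 65642) (nat_lit 15) (.e (nat_lit 3305) (nat_lit 202) (.e (nat_lit 573475) (nat_lit 12) (.e (nat_lit 57520) (nat_lit 44) (.e (nat_lit 688171) (nat_lit 15) .nil))))) .nil)) 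
(.lf (nat_lit 198080) (.g (nat_lit 371) (.e (nat_lit 73472) (nat_lit 18) (.e (nat_lit 204831) (nat_lit 18) (.e (nat_lit 57854) (nat_lit 252) .nil))) .nil))) (.nd (nat_lit 6) 
(.lf (nat_lit 198048) (.g (nat_lit 720) (.e (nat_lit 73472) (nat_lit 15) (.e (nat_lit 6961) (nat_lit 377) (.e (nat_lit 1349) (nat_lit 102) (.e (nat_lit 286761) (nat_lit 13) .nil)))) .nil)) 
(.lf (nat_lit 198112) (.g (nat_lit 1597) (.e (nat_lit 65644) (nat_lit 22) (.e (nat_lit 245776) (nat_lit 4) (.e (nat_lit 172094) (nat_lit 9) (.e (nat_lit 426025) (nat_lit 0) (.e (nat_lit 3569) (nat_lit 222) .nil))))) .nil)))) (.nd (nat_lit 5) (.nd (nat_lit 6) 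
(.lf (nat_lit 198032) (.g (nat_lit 1032) (.e (nat_lit 73472) (nat_lit 15) (.e (nat_lit 3234) (nat_lit 197) (.e (nat_lit 532563) (nat_lit 15) (.e (nat_lit 385066) (nat_lit 26) .nil)))) .nil)) 
(.lf (nat_lit 198096) (.g (nat_lit 1159) (.e (nat_lit 73472) (nat_lit 18) (.e (nat_lit 204863) (nat_lit 27) (.e (nat_lit 344130) (nat_lit 26) (.e (nat_lit 557097) (nat_lit 13) .nil)))) .nil))) (.nd (nat_lit 6) 
(.lf (nat_lit 198064) (.g (nat_lit 555) (.e (nat_lit 73472) (nat_lit 18) (.e (nat_lit 204831) (nat_lit 18) (.e (nat_lit 57830) (nat_lit 250) .nil))) .nil)) 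
(.lf (nat_lit 198128) (.g (nat_lit 2477) (.e (nat_lit 65647) (nat_lit 25) (.e (nat_lit 409602) (nat_lit 0) (.e (nat_lit 5293) (nat_lit 298) (.e (nat_lit 1656) (nat_lit 115) (.e (nat_lit 393232) (nat_lit 17) .nil))))) .nil))))) (.nd (nat_lit 4) (.nd (nat_lit 5) (.nd (nat_lit 6) 
(.lf (nat_lit 198024) (.g (nat_lit 5838) (.e (nat_lit 65642) (nat_lit 15) (.e (nat_lit 3632) (nat_lit 227) (.e (nat_lit 778317) (nat_lit 3) (.e (nat_lit 57476) (nat_lit 28) (.e (nat_lit 557108) (nat_lit 15) (.e (nat_lit 188449) (nat_lit 22) (.e (nat_lit 196662) (nat_lit 13) .nil))))))) (.g (nat_lit 6) .nil .nil))) 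
(.lf (nat_lit 198088) (.g (nat_lit 2005) (.e (nat_lit 73472) (nat_lit 18) (.e (nat_lit 204862) (nat_lit 27) (.e (nat_lit 344130) (nat_lit 26) (.e (nat_lit 557103) (nat_lit 14) (.e (nat_lit 180248) (nat_lit 9) .nil))))) .nil))) (.nd (nat_lit 6) 
(.lf (nat_lit 198056) (.g (nat_lit 1593) (.e (nat_lit 73472) (nat_lit 18) (.e (nat_lit 204830) (nat_lit 18) (.e (nat_lit 57830) (nat_lit 250) (.e (nat_lit 1183) (nat_lit 87) (.e (nat_lit 57466) (nat_lit 23) .nil))))) .nil)) 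
(.lf (nat_lit 198120) (.g (nat_lit 536) (.e (nat_lit 65647) (nat_lit 25) (.e (nat_lit 409602) (nat_lit 0) (.e (nat_lit 5273) (nat_lit 298) .nil))) .nil)))) (.nd (nat_lit 5) (.nd (nat_lit 6) 
(.lf (nat_lit 198040) (.g (nat_lit 1705) (.e (nat_lit 73472) (nat_lit 15) (.e (nat_lit 3302) (nat_lit 202) (.e (nat_lit 573485) (nat_lit 13) (.e (nat_lit 65619) (nat_lit 10) (.e (nat_lit 344115) (nat_lit 20) .nil))))) .nil)) 
(.lf (nat_lit 198104) (.g (nat_lit 928) (.e (nat_lit 73472) (nat_lit 18) (.e (nat_lit 204864) (nat_lit 27) (.e (nat_lit 344132) (nat_lit 26) (.e (nat_lit 557101) (nat_lit 13) .nil)))) .nil))) (.nd (nat_lit 6) 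
(.lf (nat_lit 198072) (.g (nat_lit 1924) (.e (nat_lit 73472) (nat_lit 18) (.e (nat_lit 204831) (nat_lit 18) (.e (nat_lit 57852) (nat_lit 252) (.e (nat_lit 57349) (nat_lit 0) .nil)))) .nil)) 
(.lf (nat_lit 198136) (.g (nat_lit 1083) (.e (nat_lit 65647) (nat_lit 25) (.e (nat_lit 409603) (nat_lit 0) (.e (nat_lit 5293) (nat_lit 298) (.e (nat_lit 1423) (nat_lit 108) (.e (nat_lit 336414) (nat_lit 27) .nil))))) .nil)))))) (.nd (nat_lit 3) (.nd (nat_lit 4) (.nd (nat_lit 5) (.nd (nat_lit 6) 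
(.lf (nat_lit 198020) (.g (nat_lit 515) (.e (nat_lit 65642) (nat_lit 15) (.e (nat_lit 3305) (nat_lit 202) (.e (nat_lit 573493) (nat_lit 15) .nil))) .nil)) 
(.lf (nat_lit 198084) (.g (nat_lit 1150) (.e (nat_lit 73472) (nat_lit 18) (.e (nat_lit 204831) (nat_lit 18) (.e (nat_lit 57870) (nat_lit 264) (.e (nat_lit 1172) (nat_lit 87) .nil)))) .nil))) (.nd (nat_lit 6) 
(.lf (nat_lit 198052) (.g (nat_lit 1801) (.e (nat_lit 73472) (nat_lit 18) (.e (nat_lit 204829) (nat_lit 18) (.e (nat_lit 57849) (nat_lit 252) (.e (nat_lit 57379) (nat_lit 3) (.e (nat_lit 98340) (nat_lit 20) .nil))))) .nil)) 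
(.lf (nat_lit 198116) (.g (nat_lit 504) (.e (nat_lit 65646) (nat_lit 24) (.e (nat_lit 270080) (nat_lit 6) (.e (nat_lit 81933) (nat_lit 20) (.e (nat_lit 1998) (nat_lit 137) (.e (nat_lit 663565) (nat_lit 3) (.e (nat_lit 65280) (nat_lit 191) .nil)))))) (.g (nat_lit 5) .nil .nil))))) (.nd (nat_lit 5) (.nd (nat_lit 6) 
(.lf (nat_lit 198036) (.g (nat_lit 1160) (.e (nat_lit 73472) (nat_lit 15) (.e (nat_lit 3297) (nat_lit 202) (.e (nat_lit 573479) (nat_lit 13) (.e (nat_lit 65619) (nat_lit 10) (.e (nat_lit 344117) (nat_lit 21) .nil))))) .nil)) 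
(.lf (nat_lit 198100) (.g (nat_lit 2207) (.e (nat_lit 73472) (nat_lit 18) (.e (nat_lit 204863) (nat_lit 27) (.e (nat_lit 344131) (nat_lit 26) (.e (nat_lit 557103) (nat_lit 14) (.e (nat_lit 180248) (nat_lit 9) .nil))))) .nil))) (.nd (nat_lit 6) 
(.lf (nat_lit 198068) (.g (nat_lit 1781) (.e (nat_lit 73472) (nat_lit 18) (.e (nat_lit 204831) (nat_lit 18) (.e (nat_lit 57830) (nat_lit 250) (.e (nat_lit 1183) (nat_lit 87) (.e (nat_lit 57474) (nat_lit 28) .nil))))) .nil)) 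
(.lf (nat_lit 198132) (.g (nat_lit 429) (.e (nat_lit 65647) (nat_lit 25) (.e (nat_lit 409602) (nat_lit 0) (.e (nat_lit 5399) (nat_lit 302) .nil))) .nil))))) (.nd (nat_lit 4) (.nd (nat_lit 5) (.nd (nat_lit 6) 
(.lf (nat_lit 198028) (.g (nat_lit 4488) (.e (nat_lit 65642) (nat_lit 15) (.e (nat_lit 3632) (nat_lit 227) (.e (nat_lit 778317) (nat_lit 3) (.e (nat_lit 57480) (nat_lit 28) (.e (nat_lit 557109) (nat_lit 15) (.e (nat_lit 188433) (nat_lit 20) (.e (nat_lit 3127) (nat_lit 193) (.e (nat_lit 500065) (nat_lit 18) .nil)))))))) (.g (nat_lit 6) .nil .nil))) 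
(.lf (nat_lit 198092) (.g (nat_lit 762) (.e (nat_lit 73472) (nat_lit 18) (.e (nat_lit 204863) (nat_lit 27) (.e (nat_lit 344127) (nat_lit 26) .nil))) .nil))) (.nd (nat_lit 6) 
(.lf (nat_lit 198060) (.g (nat_lit 1897) (.e (nat_lit 73472) (nat_lit 18) (.e (nat_lit 204830) (nat_lit 18) (.e (nat_lit 57852) (nat_lit 252) (.e (nat_lit 57349) (nat_lit 0) .nil)))) .nil)) 
(.lf (nat_lit 198124) (.g (nat_lit 1695) (.e (nat_lit 65647) (nat_lit 25) (.e (nat_lit 409602) (nat_lit 0) (.e (nat_lit 5293) (nat_lit 298) (.e (nat_lit 1633) (nat_lit 114) .nil)))) .nil)))) (.nd (nat_lit 5) (.nd (nat_lit 6) 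
(.lf (nat_lit 198044) (.g (nat_lit 1823) (.e (nat_lit 73472) (nat_lit 15) (.e (nat_lit 3304) (nat_lit 202) (.e (nat_lit 573482) (nat_lit 13) (.e (nat_lit 65619) (nat_lit 10) (.e (nat_lit 344117) (nat_lit 21) .nil))))) .nil)) 
(.lf (nat_lit 198108) (.g (nat_lit 1020) (.e (nat_lit 73472) (nat_lit 18) (.e (nat_lit 204882) (nat_lit 32) (.e (nat_lit 385066) (nat_lit 26) (.e (nat_lit 532532) (nat_lit 9) .nil)))) .nil))) (.nd (nat_lit 6) 
(.lf (nat_lit 198076) (.g (nat_lit 1924) (.e (nat_lit 73472) (nat_lit 18) (.e (nat_lit 204831) (nat_lit 18) (.e (nat_lit 57852) (nat_lit 252) (.e (nat_lit 57355) (nat_lit 0) .nil)))) .nil)) 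
(.lf (nat_lit 198140) (.g (nat_lit 1524) (.e (nat_lit 65647) (nat_lit 25) (.e (nat_lit 409603) (nat_lit 0) (.e (nat_lit 5293) (nat_lit 298) (.e (nat_lit 1656) (nat_lit 115) (.e (nat_lit 393233) (nat_lit 17) .nil))))) .nil))))))) (.nd (nat_lit 2) (.nd (nat_lit 3) (.nd (nat_lit 4) (.nd (nat_lit 5) (.nd (nat_lit 6) 
(.lf (nat_lit 198018) (.g (nat_lit 3426) (.e (nat_lit 65642) (nat_lit 15) (.e (nat_lit 3305) (nat_lit 202) (.e (nat_lit 573475) (nat_lit 12) (.e (nat_lit 57520) (nat_lit 44) (.e (nat_lit 688171) (nat_lit 15) (.e (nat_lit 57479) (nat_lit 28) (.e (nat_lit 557105) (nat_lit 14) (.e (nat_lit 180252) (nat_lit 10) (.e (nat_lit 573480) (nat_lit 13) .nil))))))))) (.g (nat_lit 4) .nil .nil))) 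
(.lf (nat_lit 198082) (.g (nat_lit 666) (.e (nat_lit 73472) (nat_lit 18) (.e (nat_lit 204831) (nat_lit 18) (.e (nat_lit 57870) (nat_lit 264) .nil))) .nil))) (.nd (nat_lit 6) 
(.lf (nat_lit 198050) (.g (nat_lit 355) (.e (nat_lit 73472) (nat_lit 15) (.e (nat_lit 7089) (nat_lit 379) (.e (nat_lit 123213) (nat_lit 274) (.e (nat_lit 65653) (nat_lit 27) .nil)))) .nil)) 
(.lf (nat_lit 198114) (.g (nat_lit 3335) (.e (nat_lit 65645) (nat_lit 23) (.e (nat_lit 253961) (nat_lit 9) (.e (nat_lit 1245) (nat_lit 92) (.e (nat_lit 98313) (nat_lit 9) (.e (nat_lit 336204) (nat_lit 12) (.e (nat_lit 385074) (nat_lit 31) (.e (nat_lit 573482) (nat_lit 13) .nil))))))) (.g (nat_lit 7) .nil .nil))))) (.nd (nat_lit 5) (.nd (nat_lit 6) 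
(.lf (nat_lit 198034) (.g (nat_lit 1590) (.e (nat_lit 73472) (nat_lit 15) (.e (nat_lit 3253) (nat_lit 197) (.e (nat_lit 532503) (nat_lit 1) (.e (nat_lit 57870) (nat_lit 264) (.e (nat_lit 1172) (nat_lit 87) .nil))))) .nil)) 
(.lf (nat_lit 198098) (.g (nat_lit 1936) (.e (nat_lit 73472) (nat_lit 18) (.e (nat_lit 204863) (nat_lit 27) (.e (nat_lit 344130) (nat_lit 26) (.e (nat_lit 557104) (nat_lit 14) (.e (nat_lit 180248) (nat_lit 9) .nil))))) .nil))) (.nd (nat_lit 6) 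
(.lf (nat_lit 198066) (.g (nat_lit 1049) (.e (nat_lit 73472) (nat_lit 18) (.e (nat_lit 204831) (nat_lit 18) (.e (nat_lit 57830) (nat_lit 250) (.e (nat_lit 1175) (nat_lit 87) .nil)))) .nil)) 
(.lf (nat_lit 198130) (.g (nat_lit 2770) (.e (nat_lit 65647) (nat_lit 25) (.e (nat_lit 409602) (nat_lit 0) (.e (nat_lit 5293) (nat_lit 298) (.e (nat_lit 1656) (nat_lit 115) (.e (nat_lit 393234) (nat_lit 17) (.e (nat_lit 7936) (nat_lit 406) .nil)))))) (.g (nat_lit 5) .nil .nil)))))) (.nd (nat_lit 4) (.nd (nat_lit 5) (.nd (nat_lit 6) 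
(.lf (nat_lit 198026) (.g (nat_lit 1224) (.e (nat_lit 65642) (nat_lit 15) (.e (nat_lit 3632) (nat_lit 227) (.e (nat_lit 778317) (nat_lit 3) (.e (nat_lit 57480) (nat_lit 28) .nil)))) .nil)) 
(.lf (nat_lit 198090) (.g (nat_lit 1711) (.e (nat_lit 73472) (nat_lit 18) (.e (nat_lit 204863) (nat_lit 27) (.e (nat_lit 344117) (nat_lit 21) (.e (nat_lit 516130) (nat_lit 3) .nil)))) .nil))) (.nd (nat_lit 6) 
(.lf (nat_lit 198058) (.g (nat_lit 1735) (.e (nat_lit 73472) (nat_lit 18) (.e (nat_lit 204830) (nat_lit 18) (.e (nat_lit 57851) (nat_lit 252) (.e (nat_lit 57354) (nat_lit 0) (.e (nat_lit 1799) (nat_lit 119) .nil))))) .nil)) 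
(.lf (nat_lit 198122) (.g (nat_lit 1490) (.e (nat_lit 65647) (nat_lit 25) (.e (nat_lit 409602) (nat_lit 0) (.e (nat_lit 5293) (nat_lit 298) (.e (nat_lit 1423) (nat_lit 108) (.e (nat_lit 336439) (nat_lit 31) .nil))))) .nil)))) (.nd (nat_lit 5) (.nd (nat_lit 6) 
(.lf (nat_lit 198042) (.g (nat_lit 2495) (.e (nat_lit 73472) (nat_lit 15) (.e (nat_lit 3302) (nat_lit 202) (.e (nat_lit 573492) (nat_lit 15) (.e (nat_lit 81956) (nat_lit 23) (.e (nat_lit 98323) (nat_lit 17) .nil))))) .nil)) 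
(.lf (nat_lit 198106) (.g (nat_lit 1223) (.e (nat_lit 73472) (nat_lit 18) (.e (nat_lit 204877) (nat_lit 31) (.e (nat_lit 376842) (nat_lit 11) (.e (nat_lit 426100) (nat_lit 1) (.e (nat_lit 164161) (nat_lit 152) .nil))))) .nil))) (.nd (nat_lit 6) 
(.lf (nat_lit 198074) (.g (nat_lit 2431) (.e (nat_lit 73472) (nat_lit 18) (.e (nat_lit 204831) (nat_lit 18) (.e (nat_lit 57852) (nat_lit 252) (.e (nat_lit 57354) (nat_lit 0) (.e (nat_lit 1799) (nat_lit 119) .nil))))) .nil)) 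
(.lf (nat_lit 198138) (.g (nat_lit 2237) (.e (nat_lit 65647) (nat_lit 25) (.e (nat_lit 409603) (nat_lit 0) (.e (nat_lit 5293) (nat_lit 298) (.e (nat_lit 1454) (nat_lit 108) (.e (nat_lit 336389) (nat_lit 27) .nil))))) .nil)))))) (.nd (nat_lit 3) (.nd (nat_lit 4) (.nd (nat_lit 5) (.nd (nat_lit 6) 
(.lf (nat_lit 198022) (.g (nat_lit 616) (.e (nat_lit 65642) (nat_lit 15) (.e (nat_lit 3631) (nat_lit 227) (.e (nat_lit 778323) (nat_lit 5) .nil))) .nil)) 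
(.lf (nat_lit 198086) (.g (nat_lit 2605) (.e (nat_lit 73472) (nat_lit 18) (.e (nat_lit 204862) (nat_lit 27) (.e (nat_lit 344129) (nat_lit 26) (.e (nat_lit 557097) (nat_lit 13) (.e (nat_lit 179968) (nat_lit 17) .nil))))) .nil))) (.nd (nat_lit 6) 
(.lf (nat_lit 198054) (.g (nat_lit 955) (.e (nat_lit 73472) (nat_lit 18) (.e (nat_lit 204830) (nat_lit 18) (.e (nat_lit 57830) (nat_lit 250) (.e (nat_lit 999) (nat_lit 81) .nil)))) .nil)) 
(.lf (nat_lit 198118) (.g (nat_lit 2044) (.e (nat_lit 65646) (nat_lit 24) (.e (nat_lit 270080) (nat_lit 6) (.e (nat_lit 81959) (nat_lit 24) (.e (nat_lit 123195) (nat_lit 266) (.e (nat_lit 57354) (nat_lit 0) (.e (nat_lit 7936) (nat_lit 347) .nil)))))) (.g (nat_lit 5) .nil .nil))))) (.nd (nat_lit 5) (.nd (nat_lit 6) 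
(.lf (nat_lit 198038) (.g (nat_lit 1621) (.e (nat_lit 73472) (nat_lit 15) (.e (nat_lit 3298) (nat_lit 202) (.e (nat_lit 573482) (nat_lit 13) (.e (nat_lit 65619) (nat_lit 10) (.e (nat_lit 344117) (nat_lit 21) .nil))))) .nil)) 
(.lf (nat_lit 198102) (.g (nat_lit 2196) (.e (nat_lit 73472) (nat_lit 18) (.e (nat_lit 204863) (nat_lit 27) (.e (nat_lit 344133) (nat_lit 26) (.e (nat_lit 557098) (nat_lit 13) (.e (nat_lit 179968) (nat_lit 17) .nil))))) .nil))) (.nd (nat_lit 6) 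
(.lf (nat_lit 198070) (.g (nat_lit 1924) (.e (nat_lit 73472) (nat_lit 18) (.e (nat_lit 204831) (nat_lit 18) (.e (nat_lit 57852) (nat_lit 252) (.e (nat_lit 57344) (nat_lit 0) .nil)))) .nil)) 
(.lf (nat_lit 198134) (.g (nat_lit 1139) (.e (nat_lit 65647) (nat_lit 25) (.e (nat_lit 409602) (nat_lit 0) (.e (nat_lit 5404) (nat_lit 302) (.e (nat_lit 65648) (nat_lit 26) (.e (nat_lit 417795) (nat_lit 0) (.e (nat_lit 5405) (nat_lit 302) .nil)))))) (.g (nat_lit 0) .nil .nil)))))) (.nd (nat_lit 4) (.nd (nat_lit 5) (.nd (nat_lit 6) 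
(.lf (nat_lit 198030) (.g (nat_lit 947) (.e (nat_lit 65642) (nat_lit 15) (.e (nat_lit 3632) (nat_lit 227) (.e (nat_lit 778323) (nat_lit 5) (.e (nat_lit 81664) (nat_lit 37) .nil)))) .nil)) 
(.lf (nat_lit 198094) (.g (nat_lit 2627) (.e (nat_lit 73472) (nat_lit 18) (.e (nat_lit 204863) (nat_lit 27) (.e (nat_lit 344129) (nat_lit 26) (.e (nat_lit 557103) (nat_lit 14) (.e (nat_lit 180248) (nat_lit 9) .nil))))) .nil))) (.nd (nat_lit 6) 
(.lf (nat_lit 198062) (.g (nat_lit 2336) (.e (nat_lit 73472) (nat_lit 18) (.e (nat_lit 204830) (nat_lit 18) (.e (nat_lit 57852) (nat_lit 252) (.e (nat_lit 57354) (nat_lit 0) (.e (nat_lit 1855) (nat_lit 124) .nil))))) .nil)) 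
(.lf (nat_lit 198126) (.g (nat_lit 1419) (.e (nat_lit 65647) (nat_lit 25) (.e (nat_lit 409602) (nat_lit 0) (.e (nat_lit 5293) (nat_lit 298) (.e (nat_lit 1649) (nat_lit 115) (.e (nat_lit 393233) (nat_lit 17) .nil))))) .nil)))) (.nd (nat_lit 5) (.nd (nat_lit 6) 
(.lf (nat_lit 198046) (.g (nat_lit 3254) (.e (nat_lit 73472) (nat_lit 15) (.e (nat_lit 3308) (nat_lit 202) (.e (nat_lit 573493) (nat_lit 15) (.e (nat_lit 81954) (nat_lit 23) (.e (nat_lit 98320) (nat_lit 17) .nil))))) .nil)) 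
(.lf (nat_lit 198110) (.g (nat_lit 1452) (.e (nat_lit 73472) (nat_lit 20) (.e (nat_lit 221218) (nat_lit 24) (.e (nat_lit 213032) (nat_lit 11) (.e (nat_lit 24620) (nat_lit 8) (.e (nat_lit 327703) (nat_lit 10) .nil))))) .nil))) (.nd (nat_lit 6) 
(.lf (nat_lit 198078) (.g (nat_lit 1676) (.e (nat_lit 73472) (nat_lit 18) (.e (nat_lit 204831) (nat_lit 18) (.e (nat_lit 57852) (nat_lit 252) (.e (nat_lit 57361) (nat_lit 0) .nil)))) .nil)) 
(.lf (nat_lit 198142) (.g (nat_lit 2093) (.e (nat_lit 65647) (nat_lit 25) (.e (nat_lit 409603) (nat_lit 0) (.e (nat_lit 5293) (nat_lit 298) (.e (nat_lit 1656) (nat_lit 115) (.e (nat_lit 393234) (nat_lit 17) (.e (nat_lit 7936) (nat_lit 406) .nil)))))) (.g (nat_lit 5) .nil .nil))))))))) (.nd (nat_lit 1) (.nd (nat_lit 2) (.nd (nat_lit 3) (.nd (nat_lit 4) (.nd (nat_lit 5) (.nd (nat_lit 6) 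
(.lf (nat_lit 198017) (.g (nat_lit 3273) (.e (nat_lit 65642) (nat_lit 15) (.e (nat_lit 3305) (nat_lit 202) (.e (nat_lit 573475) (nat_lit 12) (.e (nat_lit 57520) (nat_lit 44) (.e (nat_lit 688171) (nat_lit 15) (.e (nat_lit 57478) (nat_lit 28) (.e (nat_lit 557105) (nat_lit 14) (.e (nat_lit 180252) (nat_lit 10) (.e (nat_lit 573480) (nat_lit 13) .nil))))))))) (.g (nat_lit 4) .nil .nil))) 
(.lf (nat_lit 198081) (.g (nat_lit 1655) (.e (nat_lit 73472) (nat_lit 18) (.e (nat_lit 204831) (nat_lit 18) (.e (nat_lit 57854) (nat_lit 252) (.e (nat_lit 57351) (nat_lit 0) (.e (nat_lit 1803) (nat_lit 119) .nil))))) .nil))) (.nd (nat_lit 6) 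
(.lf (nat_lit 198049) (.g (nat_lit 1579) (.e (nat_lit 73472) (nat_lit 15) (.e (nat_lit 6989) (nat_lit 377) (.e (nat_lit 1361) (nat_lit 102) (.e (nat_lit 286761) (nat_lit 13) (.e (nat_lit 393233) (nat_lit 17) .nil))))) .nil)) 
(.lf (nat_lit 198113) (.g (nat_lit 422) (.e (nat_lit 65644) (nat_lit 22) (.e (nat_lit 245776) (nat_lit 4) (.e (nat_lit 172110) (nat_lit 10) (.e (nat_lit 442112) (nat_lit 44) .nil)))) .nil)))) (.nd (nat_lit 5) (.nd (nat_lit 6) 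
(.lf (nat_lit 198033) (.g (nat_lit 1630) (.e (nat_lit 73472) (nat_lit 15) (.e (nat_lit 3253) (nat_lit 197) (.e (nat_lit 532503) (nat_lit 1) (.e (nat_lit 57870) (nat_lit 264) (.e (nat_lit 992) (nat_lit 81) .nil))))) .nil)) 
(.lf (nat_lit 198097) (.g (nat_lit 2261) (.e (nat_lit 73472) (nat_lit 18) (.e (nat_lit 204863) (nat_lit 27) (.e (nat_lit 344130) (nat_lit 26) (.e (nat_lit 557103) (nat_lit 14) (.e (nat_lit 180248) (nat_lit 9) .nil))))) .nil))) (.nd (nat_lit 6) 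
(.lf (nat_lit 198065) (.g (nat_lit 1208) (.e (nat_lit 73472) (nat_lit 18) (.e (nat_lit 204831) (nat_lit 18) (.e (nat_lit 57830) (nat_lit 250) (.e (nat_lit 1173) (nat_lit 87) .nil)))) .nil)) 
(.lf (nat_lit 198129) (.g (nat_lit 2008) (.e (nat_lit 65647) (nat_lit 25) (.e (nat_lit 409602) (nat_lit 0) (.e (nat_lit 5293) (nat_lit 298) (.e (nat_lit 1656) (nat_lit 115) (.e (nat_lit 393233) (nat_lit 17) .nil))))) .nil))))) (.nd (nat_lit 4) (.nd (nat_lit 5) (.nd (nat_lit 6) 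
(.lf (nat_lit 198025) (.g (nat_lit 1236) (.e (nat_lit 65642) (nat_lit 15) (.e (nat_lit 3632) (nat_lit 227) (.e (nat_lit 778317) (nat_lit 3) (.e (nat_lit 57477) (nat_lit 28) .nil)))) .nil)) 
(.lf (nat_lit 198089) (.g (nat_lit 1697) (.e (nat_lit 73472) (nat_lit 18) (.e (nat_lit 204862) (nat_lit 27) (.e (nat_lit 344130) (nat_lit 26) (.e (nat_lit 557104) (nat_lit 14) (.e (nat_lit 180248) (nat_lit 9) .nil))))) .nil))) (.nd (nat_lit 6) 
(.lf (nat_lit 198057) (.g (nat_lit 1709) (.e (nat_lit 73472) (nat_lit 18) (.e (nat_lit 204830) (nat_lit 18) (.e (nat_lit 57830) (nat_lit 250) (.e (nat_lit 1183) (nat_lit 87) (.e (nat_lit 57474) (nat_lit 28) .nil))))) .nil)) 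
(.lf (nat_lit 198121) (.g (nat_lit 1489) (.e (nat_lit 65647) (nat_lit 25) (.e (nat_lit 409602) (nat_lit 0) (.e (nat_lit 5293) (nat_lit 298) (.e (nat_lit 1423) (nat_lit 108) (.e (nat_lit 336414) (nat_lit 27) .nil))))) .nil)))) (.nd (nat_lit 5) (.nd (nat_lit 6) 
(.lf (nat_lit 198041) (.g (nat_lit 2716) (.e (nat_lit 73472) (nat_lit 15) (.e (nat_lit 3302) (nat_lit 202) (.e (nat_lit 573492) (nat_lit 15) (.e (nat_lit 81956) (nat_lit 23) (.e (nat_lit 98321) (nat_lit 17) .nil))))) .nil)) 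
(.lf (nat_lit 198105) (.g (nat_lit 1133) (.e (nat_lit 73472) (nat_lit 18) (.e (nat_lit 204864) (nat_lit 27) (.e (nat_lit 344133) (nat_lit 26) (.e (nat_lit 557098) (nat_lit 13) .nil)))) .nil))) (.nd (nat_lit 6) 
(.lf (nat_lit 198073) (.g (nat_lit 1871) (.e (nat_lit 73472) (nat_lit 18) (.e (nat_lit 204831) (nat_lit 18) (.e (nat_lit 57852) (nat_lit 252) (.e (nat_lit 57354) (nat_lit 0) .nil)))) .nil)) 
(.lf (nat_lit 198137) (.g (nat_lit 1083) (.e (nat_lit 65647) (nat_lit 25) (.e (nat_lit 409603) (nat_lit 0) (.e (nat_lit 5293) (nat_lit 298) (.e (nat_lit 1423) (nat_lit 108) (.e (nat_lit 336423) (nat_lit 28) .nil))))) .nil)))))) (.nd (nat_lit 3) (.nd (nat_lit 4) (.nd (nat_lit 5) (.nd (nat_lit 6) 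
(.lf (nat_lit 198021) (.g (nat_lit 2717) (.e (nat_lit 65642) (nat_lit 15) (.e (nat_lit 3305) (nat_lit 202) (.e (nat_lit 573493) (nat_lit 15) (.e (nat_lit 81956) (nat_lit 23) (.e (nat_lit 98325) (nat_lit 17) .nil))))) .nil)) 
(.lf (nat_lit 198085) (.g (nat_lit 1220) (.e (nat_lit 73472) (nat_lit 18) (.e (nat_lit 204831) (nat_lit 18) (.e (nat_lit 57872) (nat_lit 264) (.e (nat_lit 1172) (nat_lit 87) .nil)))) .nil))) (.nd (nat_lit 6) 
(.lf (nat_lit 198053) (.g (nat_lit 505) (.e (nat_lit 73472) (nat_lit 18) (.e (nat_lit 204830) (nat_lit 18) (.e (nat_lit 57830) (nat_lit 250) .nil))) .nil)) 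
(.lf (nat_lit 198117) (.g (nat_lit 837) (.e (nat_lit 65646) (nat_lit 24) (.e (nat_lit 270080) (nat_lit 6) (.e (nat_lit 81935) (nat_lit 20) (.e (nat_lit 1998) (nat_lit 137) (.e (nat_lit 663565) (nat_lit 3) (.e (nat_lit 65280) (nat_lit 191) .nil)))))) (.g (nat_lit 5) .nil .nil))))) (.nd (nat_lit 5) (.nd (nat_lit 6) 
(.lf (nat_lit 198037) (.g (nat_lit 804) (.e (nat_lit 73472) (nat_lit 15) (.e (nat_lit 3298) (nat_lit 202) (.e (nat_lit 573482) (nat_lit 13) (.e (nat_lit 65619) (nat_lit 10) .nil)))) .nil)) 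
(.lf (nat_lit 198101) (.g (nat_lit 2287) (.e (nat_lit 73472) (nat_lit 18) (.e (nat_lit 204863) (nat_lit 27) (.e (nat_lit 344132) (nat_lit 26) (.e (nat_lit 557100) (nat_lit 13) (.e (nat_lit 172042) (nat_lit 0) .nil))))) .nil))) (.nd (nat_lit 6) 
(.lf (nat_lit 198069) (.g (nat_lit 481) (.e (nat_lit 73472) (nat_lit 18) (.e (nat_lit 204831) (nat_lit 18) (.e (nat_lit 57852) (nat_lit 252) .nil))) .nil)) 
(.lf (nat_lit 198133) (.g (nat_lit 622) (.e (nat_lit 65647) (nat_lit 25) (.e (nat_lit 409602) (nat_lit 0) (.e (nat_lit 5399) (nat_lit 302) (.e (nat_lit 65648) (nat_lit 26) .nil)))) .nil))))) (.nd (nat_lit 4) (.nd (nat_lit 5) (.nd (nat_lit 6) 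
(.lf (nat_lit 198029) (.g (nat_lit 3550) (.e (nat_lit 65642) (nat_lit 15) (.e (nat_lit 3632) (nat_lit 227) (.e (nat_lit 778317) (nat_lit 3) (.e (nat_lit 57480) (nat_lit 28) (.e (nat_lit 557109) (nat_lit 15) (.e (nat_lit 188434) (nat_lit 20) (.e (nat_lit 3143) (nat_lit 193) (.e (nat_lit 500065) (nat_lit 18) .nil)))))))) (.g (nat_lit 5) .nil .nil))) 
(.lf (nat_lit 198093) (.g (nat_lit 2365) (.e (nat_lit 73472) (nat_lit 18) (.e (nat_lit 204863) (nat_lit 27) (.e (nat_lit 344129) (nat_lit 26) (.e (nat_lit 557097) (nat_lit 13) (.e (nat_lit 179968) (nat_lit 17) .nil))))) .nil))) (.nd (nat_lit 6) 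
(.lf (nat_lit 198061) (.g (nat_lit 1746) (.e (nat_lit 73472) (nat_lit 18) (.e (nat_lit 204830) (nat_lit 18) (.e (nat_lit 57852) (nat_lit 252) (.e (nat_lit 57354) (nat_lit 0) .nil)))) .nil)) 
(.lf (nat_lit 198125) (.g (nat_lit 1334) (.e (nat_lit 65647) (nat_lit 25) (.e (nat_lit 409602) (nat_lit 0) (.e (nat_lit 5293) (nat_lit 298) (.e (nat_lit 1649) (nat_lit 115) .nil)))) .nil)))) (.nd (nat_lit 5) (.nd (nat_lit 6) 
(.lf (nat_lit 198045) (.g (nat_lit 501) (.e (nat_lit 73472) (nat_lit 15) (.e (nat_lit 3305) (nat_lit 202) (.e (nat_lit 573485) (nat_lit 13) .nil))) .nil)) 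
(.lf (nat_lit 198109) (.g (nat_lit 2223) (.e (nat_lit 73472) (nat_lit 18) (.e (nat_lit 204882) (nat_lit 32) (.e (nat_lit 385068) (nat_lit 26) (.e (nat_lit 532530) (nat_lit 9) (.e (nat_lit 336320) (nat_lit 17) .nil))))) .nil))) (.nd (nat_lit 6) 
(.lf (nat_lit 198077) (.g (nat_lit 1924) (.e (nat_lit 73472) (nat_lit 18) (.e (nat_lit 204831) (nat_lit 18) (.e (nat_lit 57852) (nat_lit 252) (.e (nat_lit 57357) (nat_lit 0) .nil)))) .nil)) 
(.lf (nat_lit 198141) (.g (nat_lit 3102) (.e (nat_lit 65647) (nat_lit 25) (.e (nat_lit 409603) (nat_lit 0) (.e (nat_lit 5293) (nat_lit 298) (.e (nat_lit 1656) (nat_lit 115) (.e (nat_lit 393234) (nat_lit 17) (.e (nat_lit 7589) (nat_lit 406) .nil)))))) (.g (nat_lit 0) .nil .nil)))))))) (.nd (nat_lit 2) (.nd (nat_lit 3) (.nd (nat_lit 4) (.nd (nat_lit 5) (.nd (nat_lit 6) 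
(.lf (nat_lit 198019) (.g (nat_lit 1766) (.e (nat_lit 65642) (nat_lit 15) (.e (nat_lit 3305) (nat_lit 202) (.e (nat_lit 573485) (nat_lit 13) (.e (nat_lit 65619) (nat_lit 10) (.e (nat_lit 344115) (nat_lit 20) .nil))))) .nil)) 
(.lf (nat_lit 198083) (.g (nat_lit 1321) (.e (nat_lit 73472) (nat_lit 18) (.e (nat_lit 204831) (nat_lit 18) (.e (nat_lit 57870) (nat_lit 264) (.e (nat_lit 992) (nat_lit 81) (.e (nat_lit 1251) (nat_lit 92) .nil))))) .nil))) (.nd (nat_lit 6) 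
(.lf (nat_lit 198051) (.g (nat_lit 1492) (.e (nat_lit 73472) (nat_lit 18) (.e (nat_lit 204821) (nat_lit 17) (.e (nat_lit 2006) (nat_lit 138) (.e (nat_lit 671748) (nat_lit 0) (.e (nat_lit 1256) (nat_lit 92) .nil))))) .nil)) 
(.lf (nat_lit 198115) (.g (nat_lit 3726) (.e (nat_lit 65645) (nat_lit 23) (.e (nat_lit 253995) (nat_lit 12) (.e (nat_lit 57464) (nat_lit 23) (.e (nat_lit 516195) (nat_lit 26) (.e (nat_lit 336204) (nat_lit 12) (.e (nat_lit 385074) (nat_lit 31) (.e (nat_lit 573482) (nat_lit 13) .nil))))))) (.g (nat_lit 7) .nil .nil))))) (.nd (nat_lit 5) (.nd (nat_lit 6) 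
(.lf (nat_lit 198035) (.g (nat_lit 1930) (.e (nat_lit 73472) (nat_lit 15) (.e (nat_lit 3253) (nat_lit 197) (.e (nat_lit 532503) (nat_lit 1) (.e (nat_lit 57872) (nat_lit 264) (.e (nat_lit 1172) (nat_lit 87) .nil))))) .nil)) 
(.lf (nat_lit 198099) (.g (nat_lit 1705) (.e (nat_lit 73472) (nat_lit 18) (.e (nat_lit 204863) (nat_lit 27) (.e (nat_lit 344131) (nat_lit 26) (.e (nat_lit 557098) (nat_lit 13) (.e (nat_lit 172140) (nat_lit 22) .nil))))) .nil))) (.nd (nat_lit 6) 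
(.lf (nat_lit 198067) (.g (nat_lit 1786) (.e (nat_lit 73472) (nat_lit 18) (.e (nat_lit 204831) (nat_lit 18) (.e (nat_lit 57830) (nat_lit 250) (.e (nat_lit 1183) (nat_lit 87) (.e (nat_lit 57467) (nat_lit 23) .nil))))) .nil)) 
(.lf (nat_lit 198131) (.g (nat_lit 2196) (.e (nat_lit 65647) (nat_lit 25) (.e (nat_lit 409602) (nat_lit 0) (.e (nat_lit 5293) (nat_lit 298) (.e (nat_lit 1656) (nat_lit 115) (.e (nat_lit 393237) (nat_lit 17) .nil))))) .nil))))) (.nd (nat_lit 4) (.nd (nat_lit 5) (.nd (nat_lit 6) 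
(.lf (nat_lit 198027) (.g (nat_lit 3589) (.e (nat_lit 65642) (nat_lit 15) (.e (nat_lit 3632) (nat_lit 227) (.e (nat_lit 778317) (nat_lit 3) (.e (nat_lit 57480) (nat_lit 28) (.e (nat_lit 557109) (nat_lit 15) (.e (nat_lit 188433) (nat_lit 20) (.e (nat_lit 3126) (nat_lit 193) (.e (nat_lit 500065) (nat_lit 18) .nil)))))))) (.g (nat_lit 5) .nil .nil))) 
(.lf (nat_lit 198091) (.g (nat_lit 762) (.e (nat_lit 73472) (nat_lit 18) (.e (nat_lit 204863) (nat_lit 27) (.e (nat_lit 344118) (nat_lit 21) .nil))) .nil))) (.nd (nat_lit 6) 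
(.lf (nat_lit 198059) (.g (nat_lit 526) (.e (nat_lit 73472) (nat_lit 18) (.e (nat_lit 204830) (nat_lit 18) (.e (nat_lit 57852) (nat_lit 252) .nil))) .nil)) 
(.lf (nat_lit 198123) (.g (nat_lit 2765) (.e (nat_lit 65647) (nat_lit 25) (.e (nat_lit 409602) (nat_lit 0) (.e (nat_lit 5293) (nat_lit 298) (.e (nat_lit 1454) (nat_lit 108) (.e (nat_lit 336389) (nat_lit 27) .nil))))) .nil)))) (.nd (nat_lit 5) (.nd (nat_lit 6) 
(.lf (nat_lit 198043) (.g (nat_lit 2412) (.e (nat_lit 73472) (nat_lit 15) (.e (nat_lit 3302) (nat_lit 202) (.e (nat_lit 573492) (nat_lit 15) (.e (nat_lit 81956) (nat_lit 23) (.e (nat_lit 98325) (nat_lit 17) .nil))))) .nil)) 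
(.lf (nat_lit 198107) (.g (nat_lit 1246) (.e (nat_lit 73472) (nat_lit 18) (.e (nat_lit 204880) (nat_lit 32) (.e (nat_lit 385066) (nat_lit 26) (.e (nat_lit 532532) (nat_lit 9) .nil)))) .nil))) (.nd (nat_lit 6) 
(.lf (nat_lit 198075) (.g (nat_lit 2435) (.e (nat_lit 73472) (nat_lit 18) (.e (nat_lit 204831) (nat_lit 18) (.e (nat_lit 57852) (nat_lit 252) (.e (nat_lit 57354) (nat_lit 0) (.e (nat_lit 1855) (nat_lit 124) .nil))))) .nil)) 
(.lf (nat_lit 198139) (.g (nat_lit 816) (.e (nat_lit 65647) (nat_lit 25) (.e (nat_lit 409603) (nat_lit 0) (.e (nat_lit 5293) (nat_lit 298) (.e (nat_lit 1649) (nat_lit 115) .nil)))) .nil)))))) (.nd (nat_lit 3) (.nd (nat_lit 4) (.nd (nat_lit 5) (.nd (nat_lit 6) 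
(.lf (nat_lit 198023) (.g (nat_lit 2034) (.e (nat_lit 65642) (nat_lit 15) (.e (nat_lit 3632) (nat_lit 227) (.e (nat_lit 778317) (nat_lit 3) (.e (nat_lit 57476) (nat_lit 28) (.e (nat_lit 557108) (nat_lit 15) .nil))))) .nil)) 
(.lf (nat_lit 198087) (.g (nat_lit 2817) (.e (nat_lit 73472) (nat_lit 18) (.e (nat_lit 204862) (nat_lit 27) (.e (nat_lit 344129) (nat_lit 26) (.e (nat_lit 557104) (nat_lit 14) (.e (nat_lit 180248) (nat_lit 9) .nil))))) .nil))) (.nd (nat_lit 6) 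
(.lf (nat_lit 198055) (.g (nat_lit 1116) (.e (nat_lit 73472) (nat_lit 18) (.e (nat_lit 204830) (nat_lit 18) (.e (nat_lit 57830) (nat_lit 250) (.e (nat_lit 1175) (nat_lit 87) (.e (nat_lit 57464) (nat_lit 23) .nil))))) .nil)) 
(.lf (nat_lit 198119) (.g (nat_lit 1868) (.e (nat_lit 65647) (nat_lit 25) (.e (nat_lit 409602) (nat_lit 0) (.e (nat_lit 5245) (nat_lit 298) (.e (nat_lit 1665) (nat_lit 115) (.e (nat_lit 393234) (nat_lit 17) (.e (nat_lit 7589) (nat_lit 406) .nil)))))) (.g (nat_lit 6) .nil .nil))))) (.nd (nat_lit 5) (.nd (nat_lit 6) 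
(.lf (nat_lit 198039) (.g (nat_lit 1105) (.e (nat_lit 73472) (nat_lit 15) (.e (nat_lit 3302) (nat_lit 202) (.e (nat_lit 573481) (nat_lit 13) (.e (nat_lit 65619) (nat_lit 10) .nil)))) .nil)) 
(.lf (nat_lit 198103) (.g (nat_lit 2196) (.e (nat_lit 73472) (nat_lit 18) (.e (nat_lit 204863) (nat_lit 27) (.e (nat_lit 344133) (nat_lit 26) (.e (nat_lit 557098) (nat_lit 13) (.e (nat_lit 179968) (nat_lit 22) .nil))))) .nil))) (.nd (nat_lit 6) 
(.lf (nat_lit 198071) (.g (nat_lit 1908) (.e (nat_lit 73472) (nat_lit 18) (.e (nat_lit 204831) (nat_lit 18) (.e (nat_lit 57852) (nat_lit 252) (.e (nat_lit 57345) (nat_lit 0) .nil)))) .nil)) 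
(.lf (nat_lit 198135) (.g (nat_lit 1012) (.e (nat_lit 65647) (nat_lit 25) (.e (nat_lit 409602) (nat_lit 0) (.e (nat_lit 5404) (nat_lit 302) (.e (nat_lit 65652) (nat_lit 27) (.e (nat_lit 425984) (nat_lit 0) (.e (nat_lit 7588) (nat_lit 406) .nil)))))) (.g (nat_lit 0) .nil .nil)))))) (.nd (nat_lit 4) (.nd (nat_lit 5) (.nd (nat_lit 6) 
(.lf (nat_lit 198031) (.g (nat_lit 2076) (.e (nat_lit 73472) (nat_lit 15) (.e (nat_lit 3214) (nat_lit 195) (.e (nat_lit 516145) (nat_lit 9) (.e (nat_lit 426428) (nat_lit 17) (.e (nat_lit 90174) (nat_lit 14) .nil))))) .nil)) 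
(.lf (nat_lit 198095) (.g (nat_lit 2489) (.e (nat_lit 73472) (nat_lit 18) (.e (nat_lit 204863) (nat_lit 27) (.e (nat_lit 344129) (nat_lit 26) (.e (nat_lit 557104) (nat_lit 14) (.e (nat_lit 180248) (nat_lit 9) .nil))))) .nil))) (.nd (nat_lit 6) 
(.lf (nat_lit 198063) (.g (nat_lit 1901) (.e (nat_lit 73472) (nat_lit 18) (.e (nat_lit 204830) (nat_lit 18) (.e (nat_lit 57852) (nat_lit 252) (.e (nat_lit 57376) (nat_lit 3) .nil)))) .nil)) 
(.lf (nat_lit 198127) (.g (nat_lit 2891) (.e (nat_lit 65647) (nat_lit 25) (.e (nat_lit 409602) (nat_lit 0) (.e (nat_lit 5293) (nat_lit 298) (.e (nat_lit 1649) (nat_lit 115) (.e (nat_lit 393234) (nat_lit 17) (.e (nat_lit 7589) (nat_lit 406) .nil)))))) (.g (nat_lit 6) .nil .nil))))) (.nd (nat_lit 5) (.nd (nat_lit 6) 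
(.lf (nat_lit 198047) (.g (nat_lit 3037) (.e (nat_lit 73472) (nat_lit 15) (.e (nat_lit 3308) (nat_lit 202) (.e (nat_lit 573493) (nat_lit 15) (.e (nat_lit 81954) (nat_lit 23) (.e (nat_lit 98325) (nat_lit 17) .nil))))) .nil)) 
(.lf (nat_lit 198111) (.g (nat_lit 2717) (.e (nat_lit 65643) (nat_lit 21) (.e (nat_lit 229524) (nat_lit 128) (.e (nat_lit 1220) (nat_lit 90) (.e (nat_lit 81956) (nat_lit 23) (.e (nat_lit 98325) (nat_lit 17) (.e (nat_lit 7936) (nat_lit 406) .nil)))))) (.g (nat_lit 5) .nil .nil)))) (.nd (nat_lit 6) 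
(.lf (nat_lit 198079) (.g (nat_lit 1828) (.e (nat_lit 73472) (nat_lit 18) (.e (nat_lit 204831) (nat_lit 18) (.e (nat_lit 57852) (nat_lit 252) (.e (nat_lit 57376) (nat_lit 3) .nil)))) .nil)) 
(.lf (nat_lit 198143) (.g (nat_lit 1723) (.e (nat_lit 65647) (nat_lit 25) (.e (nat_lit 409603) (nat_lit 0) (.e (nat_lit 5293) (nat_lit 298) (.e (nat_lit 1656) (nat_lit 115) (.e (nat_lit 393237) (nat_lit 17) .nil))))) .nil)))))))))

noncomputable def tv2620 : DT := (.nd (nat_lit 0) (.nd (nat_lit 1) (.nd (nat_lit 2) (.nd (nat_lit 3) (.nd (nat_lit 4) (.nd (nat_lit 5) 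
(.lf (nat_lit 198144) (.g (nat_lit 1922) (.e (nat_lit 65647) (nat_lit 25) (.e (nat_lit 409604) (nat_lit 0) (.e (nat_lit 5404) (nat_lit 302) (.e (nat_lit 65653) (nat_lit 27) (.e (nat_lit 426011) (nat_lit 0) (.e (nat_lit 7589) (nat_lit 406) .nil)))))) (.g (nat_lit 0) .nil .nil))) 
(.lf (nat_lit 198176) (.g (nat_lit 1005) (.e (nat_lit 65648) (nat_lit 26) (.e (nat_lit 417796) (nat_lit 0) (.e (nat_lit 5401) (nat_lit 302) (.e (nat_lit 65648) (nat_lit 26) (.e (nat_lit 417794) (nat_lit 0) (.e (nat_lit 5405) (nat_lit 302) .nil)))))) (.g (nat_lit 6) .nil .nil)))) (.nd (nat_lit 5) 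
(.lf (nat_lit 198160) (.g (nat_lit 241) (.e (nat_lit 65648) (nat_lit 26) (.e (nat_lit 417795) (nat_lit 0) (.e (nat_lit 5406) (nat_lit 302) (.e (nat_lit 65632) (nat_lit 15) .nil)))) .nil)) 
(.lf (nat_lit 198192) (.g (nat_lit 1300) (.e (nat_lit 65648) (nat_lit 26) (.e (nat_lit 417796) (nat_lit 0) (.e (nat_lit 5406) (nat_lit 302) (.e (nat_lit 65648) (nat_lit 26) (.e (nat_lit 417796) (nat_lit 0) (.e (nat_lit 5405) (nat_lit 302) .nil)))))) (.g (nat_lit 6) .nil .nil))))) (.nd (nat_lit 4) (.nd (nat_lit 5) 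
(.lf (nat_lit 198152) (.g (nat_lit 533) (.e (nat_lit 65648) (nat_lit 26) (.e (nat_lit 417793) (nat_lit 0) (.e (nat_lit 5405) (nat_lit 302) (.e (nat_lit 65652) (nat_lit 27) (.e (nat_lit 425984) (nat_lit 0) (.e (nat_lit 7588) (nat_lit 406) .nil)))))) (.g (nat_lit 0) .nil .nil))) 
(.lf (nat_lit 198184) (.g (nat_lit 1403) (.e (nat_lit 65648) (nat_lit 26) (.e (nat_lit 417796) (nat_lit 0) (.e (nat_lit 5405) (nat_lit 302) (.e (nat_lit 65648) (nat_lit 26) (.e (nat_lit 417796) (nat_lit 0) (.e (nat_lit 5401) (nat_lit 302) .nil)))))) (.g (nat_lit 0) .nil .nil)))) (.nd (nat_lit 5) 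
(.lf (nat_lit 198168) (.g (nat_lit 380) (.e (nat_lit 65648) (nat_lit 26) (.e (nat_lit 417796) (nat_lit 0) (.e (nat_lit 5393) (nat_lit 301) .nil))) .nil)) 
(.lf (nat_lit 198200) (.g (nat_lit 1795) (.e (nat_lit 65648) (nat_lit 26) (.e (nat_lit 417810) (nat_lit 6) (.e (nat_lit 286761) (nat_lit 13) (.e (nat_lit 393231) (nat_lit 17) .nil)))) .nil))))) (.nd (nat_lit 3) (.nd (nat_lit 4) (.nd (nat_lit 5) 
(.lf (nat_lit 198148) (.g (nat_lit 479) (.e (nat_lit 65648) (nat_lit 26) (.e (nat_lit 417793) (nat_lit 0) (.e (nat_lit 5405) (nat_lit 302) (.e (nat_lit 65632) (nat_lit 15) (.e (nat_lit 7082) (nat_lit 378) (.e (nat_lit 57897) (nat_lit 274) .nil)))))) (.g (nat_lit 0) .nil .nil))) 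
(.lf (nat_lit 198180) (.g (nat_lit 681) (.e (nat_lit 65648) (nat_lit 26) (.e (nat_lit 417796) (nat_lit 0) (.e (nat_lit 5403) (nat_lit 302) (.e (nat_lit 65653) (nat_lit 27) .nil)))) .nil))) (.nd (nat_lit 5) 
(.lf (nat_lit 198164) (.g (nat_lit 1032) (.e (nat_lit 65648) (nat_lit 26) (.e (nat_lit 417795) (nat_lit 0) (.e (nat_lit 5406) (nat_lit 302) (.e (nat_lit 65648) (nat_lit 26) (.e (nat_lit 417796) (nat_lit 0) (.e (nat_lit 5401) (nat_lit 302) .nil)))))) (.g (nat_lit 6) .nil .nil))) 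
(.lf (nat_lit 198196) (.g (nat_lit 3327) (.e (nat_lit 65648) (nat_lit 26) (.e (nat_lit 417810) (nat_lit 6) (.e (nat_lit 286748) (nat_lit 9) (.e (nat_lit 336389) (nat_lit 27) (.e (nat_lit 426012) (nat_lit 0) (.e (nat_lit 7587) (nat_lit 406) .nil)))))) (.g (nat_lit 6) .nil .nil))))) (.nd (nat_lit 4) (.nd (nat_lit 5) 
(.lf (nat_lit 198156) (.g (nat_lit 736) (.e (nat_lit 65648) (nat_lit 26) (.e (nat_lit 417795) (nat_lit 0) (.e (nat_lit 5401) (nat_lit 302) (.e (nat_lit 65648) (nat_lit 26) (.e (nat_lit 417793) (nat_lit 0) (.e (nat_lit 5405) (nat_lit 302) .nil)))))) (.g (nat_lit 6) .nil .nil))) 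
(.lf (nat_lit 198188) (.g (nat_lit 864) (.e (nat_lit 65648) (nat_lit 26) (.e (nat_lit 417796) (nat_lit 0) (.e (nat_lit 5406) (nat_lit 302) (.e (nat_lit 65648) (nat_lit 26) (.e (nat_lit 417793) (nat_lit 0) (.e (nat_lit 5405) (nat_lit 302) .nil)))))) (.g (nat_lit 6) .nil .nil)))) (.nd (nat_lit 5) 
(.lf (nat_lit 198172) (.g (nat_lit 2300) (.e (nat_lit 65648) (nat_lit 26) (.e (nat_lit 417796) (nat_lit 0) (.e (nat_lit 5399) (nat_lit 302) (.e (nat_lit 65653) (nat_lit 27) (.e (nat_lit 426012) (nat_lit 0) (.e (nat_lit 7589) (nat_lit 406) .nil)))))) (.g (nat_lit 6) .nil .nil))) 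
(.lf (nat_lit 198204) (.g (nat_lit 2455) (.e (nat_lit 65648) (nat_lit 26) (.e (nat_lit 417811) (nat_lit 6) (.e (nat_lit 286748) (nat_lit 9) (.e (nat_lit 336389) (nat_lit 27) (.e (nat_lit 426011) (nat_lit 0) .nil))))) .nil)))))) (.nd (nat_lit 2) (.nd (nat_lit 3) (.nd (nat_lit 4) (.nd (nat_lit 5) 
(.lf (nat_lit 198146) (.g (nat_lit 1067) (.e (nat_lit 73472) (nat_lit 25) (.e (nat_lit 409602) (nat_lit 0) (.e (nat_lit 5293) (nat_lit 298) (.e (nat_lit 1656) (nat_lit 115) .nil)))) .nil)) 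
(.lf (nat_lit 198178) (.g (nat_lit 1096) (.e (nat_lit 65648) (nat_lit 26) (.e (nat_lit 417796) (nat_lit 0) (.e (nat_lit 5401) (nat_lit 302) (.e (nat_lit 65648) (nat_lit 26) (.e (nat_lit 417795) (nat_lit 0) (.e (nat_lit 5405) (nat_lit 302) .nil)))))) (.g (nat_lit 0) .nil .nil)))) (.nd (nat_lit 5) 
(.lf (nat_lit 198162) (.g (nat_lit 754) (.e (nat_lit 65648) (nat_lit 26) (.e (nat_lit 417795) (nat_lit 0) (.e (nat_lit 5406) (nat_lit 302) (.e (nat_lit 65648) (nat_lit 26) (.e (nat_lit 417795) (nat_lit 0) (.e (nat_lit 5405) (nat_lit 302) .nil)))))) (.g (nat_lit 6) .nil .nil))) 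
(.lf (nat_lit 198194) (.g (nat_lit 2923) (.e (nat_lit 65648) (nat_lit 26) (.e (nat_lit 417809) (nat_lit 6) (.e (nat_lit 286748) (nat_lit 9) (.e (nat_lit 336389) (nat_lit 27) (.e (nat_lit 426012) (nat_lit 0) (.e (nat_lit 7589) (nat_lit 406) .nil)))))) (.g (nat_lit 6) .nil .nil))))) (.nd (nat_lit 4) (.nd (nat_lit 5) 
(.lf (nat_lit 198154) (.g (nat_lit 202) (.e (nat_lit 65648) (nat_lit 26) (.e (nat_lit 417795) (nat_lit 0) (.e (nat_lit 5393) (nat_lit 301) .nil))) .nil)) 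
(.lf (nat_lit 198186) (.g (nat_lit 2033) (.e (nat_lit 65648) (nat_lit 26) (.e (nat_lit 417796) (nat_lit 0) (.e (nat_lit 5405) (nat_lit 302) (.e (nat_lit 65653) (nat_lit 27) (.e (nat_lit 426012) (nat_lit 0) (.e (nat_lit 7587) (nat_lit 406) .nil)))))) (.g (nat_lit 0) .nil .nil)))) (.nd (nat_lit 5) 
(.lf (nat_lit 198170) (.g (nat_lit 1283) (.e (nat_lit 65648) (nat_lit 26) (.e (nat_lit 417796) (nat_lit 0) (.e (nat_lit 5393) (nat_lit 301) (.e (nat_lit 57479) (nat_lit 28) (.e (nat_lit 557105) (nat_lit 14) .nil))))) .nil)) 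
(.lf (nat_lit 198202) (.g (nat_lit 2797) (.e (nat_lit 65648) (nat_lit 26) (.e (nat_lit 417810) (nat_lit 6) (.e (nat_lit 286761) (nat_lit 13) (.e (nat_lit 393232) (nat_lit 17) (.e (nat_lit 7589) (nat_lit 406) .nil))))) .nil))))) (.nd (nat_lit 3) (.nd (nat_lit 4) (.nd (nat_lit 5) 
(.lf (nat_lit 198150) (.g (nat_lit 471) (.e (nat_lit 65648) (nat_lit 26) (.e (nat_lit 417793) (nat_lit 0) (.e (nat_lit 5405) (nat_lit 302) (.e (nat_lit 65647) (nat_lit 25) (.e (nat_lit 409603) (nat_lit 0) (.e (nat_lit 5404) (nat_lit 302) .nil)))))) (.g (nat_lit 0) .nil .nil))) 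
(.lf (nat_lit 198182) (.g (nat_lit 1170) (.e (nat_lit 65648) (nat_lit 26) (.e (nat_lit 417796) (nat_lit 0) (.e (nat_lit 5405) (nat_lit 302) (.e (nat_lit 65648) (nat_lit 26) (.e (nat_lit 417795) (nat_lit 0) (.e (nat_lit 5401) (nat_lit 302) .nil)))))) (.g (nat_lit 0) .nil .nil)))) (.nd (nat_lit 5) 
(.lf (nat_lit 198166) (.g (nat_lit 938) (.e (nat_lit 65648) (nat_lit 26) (.e (nat_lit 417795) (nat_lit 0) (.e (nat_lit 5406) (nat_lit 302) (.e (nat_lit 65648) (nat_lit 26) (.e (nat_lit 417796) (nat_lit 0) (.e (nat_lit 5406) (nat_lit 302) .nil)))))) (.g (nat_lit 5) .nil .nil))) 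
(.lf (nat_lit 198198) (.g (nat_lit 384) (.e (nat_lit 65648) (nat_lit 26) (.e (nat_lit 417810) (nat_lit 6) (.e (nat_lit 286760) (nat_lit 13) .nil))) .nil)))) (.nd (nat_lit 4) (.nd (nat_lit 5) 
(.lf (nat_lit 198158) (.g (nat_lit 934) (.e (nat_lit 65648) (nat_lit 26) (.e (nat_lit 417795) (nat_lit 0) (.e (nat_lit 5401) (nat_lit 302) (.e (nat_lit 65648) (nat_lit 26) (.e (nat_lit 417795) (nat_lit 0) (.e (nat_lit 5401) (nat_lit 302) .nil)))))) (.g (nat_lit 0) .nil .nil))) 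
(.lf (nat_lit 198190) (.g (nat_lit 1018) (.e (nat_lit 65648) (nat_lit 26) (.e (nat_lit 417796) (nat_lit 0) (.e (nat_lit 5406) (nat_lit 302) (.e (nat_lit 65648) (nat_lit 26) (.e (nat_lit 417795) (nat_lit 0) (.e (nat_lit 5405) (nat_lit 302) .nil)))))) (.g (nat_lit 6) .nil .nil)))) (.nd (nat_lit 5) 
(.lf (nat_lit 198174) (.g (nat_lit 520) (.e (nat_lit 65648) (nat_lit 26) (.e (nat_lit 417796) (nat_lit 0) (.e (nat_lit 5401) (nat_lit 302) (.e (nat_lit 65632) (nat_lit 15) .nil)))) .nil)) 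
(.lf (nat_lit 198206) (.g (nat_lit 2366) (.e (nat_lit 65648) (nat_lit 26) (.e (nat_lit 417811) (nat_lit 6) (.e (nat_lit 286760) (nat_lit 13) (.e (nat_lit 393234) (nat_lit 17) (.e (nat_lit 7587) (nat_lit 406) .nil))))) (.g (nat_lit 0) .nil .nil)))))))) (.nd (nat_lit 1) (.nd (nat_lit 2) (.nd (nat_lit 3) (.nd (nat_lit 4) (.nd (nat_lit 5) 
(.lf (nat_lit 198145) (.g (nat_lit 1872) (.e (nat_lit 65647) (nat_lit 25) (.e (nat_lit 409605) (nat_lit 0) (.e (nat_lit 5404) (nat_lit 302) (.e (nat_lit 65653) (nat_lit 27) (.e (nat_lit 426011) (nat_lit 0) (.e (nat_lit 7589) (nat_lit 406) .nil)))))) (.g (nat_lit 0) .nil .nil))) 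
(.lf (nat_lit 198177) (.g (nat_lit 1162) (.e (nat_lit 65648) (nat_lit 26) (.e (nat_lit 417796) (nat_lit 0) (.e (nat_lit 5401) (nat_lit 302) (.e (nat_lit 65648) (nat_lit 26) (.e (nat_lit 417795) (nat_lit 0) (.e (nat_lit 5401) (nat_lit 302) .nil)))))) (.g (nat_lit 0) .nil .nil)))) (.nd (nat_lit 5) 
(.lf (nat_lit 198161) (.g (nat_lit 819) (.e (nat_lit 65648) (nat_lit 26) (.e (nat_lit 417795) (nat_lit 0) (.e (nat_lit 5406) (nat_lit 302) (.e (nat_lit 65648) (nat_lit 26) (.e (nat_lit 417795) (nat_lit 0) (.e (nat_lit 5401) (nat_lit 302) .nil)))))) (.g (nat_lit 6) .nil .nil))) 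
(.lf (nat_lit 198193) (.g (nat_lit 1180) (.e (nat_lit 65648) (nat_lit 26) (.e (nat_lit 417796) (nat_lit 0) (.e (nat_lit 5406) (nat_lit 302) (.e (nat_lit 65648) (nat_lit 26) (.e (nat_lit 417796) (nat_lit 0) (.e (nat_lit 5406) (nat_lit 302) .nil)))))) (.g (nat_lit 5) .nil .nil))))) (.nd (nat_lit 4) (.nd (nat_lit 5) 
(.lf (nat_lit 198153) (.g (nat_lit 488) (.e (nat_lit 65648) (nat_lit 26) (.e (nat_lit 417793) (nat_lit 0) (.e (nat_lit 5405) (nat_lit 302) (.e (nat_lit 65652) (nat_lit 27) (.e (nat_lit 425989) (nat_lit 0) (.e (nat_lit 7588) (nat_lit 406) .nil)))))) (.g (nat_lit 0) .nil .nil))) 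
(.lf (nat_lit 198185) (.g (nat_lit 1416) (.e (nat_lit 65648) (nat_lit 26) (.e (nat_lit 417796) (nat_lit 0) (.e (nat_lit 5405) (nat_lit 302) (.e (nat_lit 65648) (nat_lit 26) (.e (nat_lit 417796) (nat_lit 0) (.e (nat_lit 5405) (nat_lit 302) .nil)))))) (.g (nat_lit 0) .nil .nil)))) (.nd (nat_lit 5) 
(.lf (nat_lit 198169) (.g (nat_lit 2020) (.e (nat_lit 65648) (nat_lit 26) (.e (nat_lit 417796) (nat_lit 0) (.e (nat_lit 5393) (nat_lit 301) (.e (nat_lit 57477) (nat_lit 28) (.e (nat_lit 557104) (nat_lit 14) (.e (nat_lit 180233) (nat_lit 0) (.e (nat_lit 5817) (nat_lit 320) (.e (nat_lit 1193) (nat_lit 88) .nil)))))))) (.g (nat_lit 6) .nil .nil))) 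
(.lf (nat_lit 198201) (.g (nat_lit 2252) (.e (nat_lit 65648) (nat_lit 26) (.e (nat_lit 417810) (nat_lit 6) (.e (nat_lit 286761) (nat_lit 13) (.e (nat_lit 393231) (nat_lit 17) (.e (nat_lit 7589) (nat_lit 406) .nil))))) .nil))))) (.nd (nat_lit 3) (.nd (nat_lit 4) (.nd (nat_lit 5) 
(.lf (nat_lit 198149) (.g (nat_lit 984) (.e (nat_lit 65648) (nat_lit 26) (.e (nat_lit 417793) (nat_lit 0) (.e (nat_lit 5405) (nat_lit 302) (.e (nat_lit 65647) (nat_lit 25) (.e (nat_lit 409602) (nat_lit 0) (.e (nat_lit 5404) (nat_lit 302) .nil)))))) (.g (nat_lit 0) .nil .nil))) 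
(.lf (nat_lit 198181) (.g (nat_lit 952) (.e (nat_lit 65648) (nat_lit 26) (.e (nat_lit 417796) (nat_lit 0) (.e (nat_lit 5405) (nat_lit 302) (.e (nat_lit 65648) (nat_lit 26) (.e (nat_lit 417793) (nat_lit 0) (.e (nat_lit 5405) (nat_lit 302) .nil)))))) (.g (nat_lit 0) .nil .nil)))) (.nd (nat_lit 5) 
(.lf (nat_lit 198165) (.g (nat_lit 1033) (.e (nat_lit 65648) (nat_lit 26) (.e (nat_lit 417795) (nat_lit 0) (.e (nat_lit 5406) (nat_lit 302) (.e (nat_lit 65648) (nat_lit 26) (.e (nat_lit 417796) (nat_lit 0) (.e (nat_lit 5405) (nat_lit 302) .nil)))))) (.g (nat_lit 6) .nil .nil))) 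
(.lf (nat_lit 198197) (.g (nat_lit 3476) (.e (nat_lit 65648) (nat_lit 26) (.e (nat_lit 417810) (nat_lit 6) (.e (nat_lit 286748) (nat_lit 9) (.e (nat_lit 336389) (nat_lit 27) (.e (nat_lit 426012) (nat_lit 0) (.e (nat_lit 7589) (nat_lit 406) .nil)))))) (.g (nat_lit 0) .nil .nil))))) (.nd (nat_lit 4) (.nd (nat_lit 5) 
(.lf (nat_lit 198157) (.g (nat_lit 774) (.e (nat_lit 65648) (nat_lit 26) (.e (nat_lit 417795) (nat_lit 0) (.e (nat_lit 5401) (nat_lit 302) (.e (nat_lit 65648) (nat_lit 26) (.e (nat_lit 417794) (nat_lit 0) (.e (nat_lit 5405) (nat_lit 302) .nil)))))) (.g (nat_lit 6) .nil .nil))) 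
(.lf (nat_lit 198189) (.g (nat_lit 1075) (.e (nat_lit 65648) (nat_lit 26) (.e (nat_lit 417796) (nat_lit 0) (.e (nat_lit 5406) (nat_lit 302) (.e (nat_lit 65648) (nat_lit 26) (.e (nat_lit 417795) (nat_lit 0) (.e (nat_lit 5401) (nat_lit 302) .nil)))))) (.g (nat_lit 6) .nil .nil)))) (.nd (nat_lit 5) 
(.lf (nat_lit 198173) (.g (nat_lit 309) (.e (nat_lit 65648) (nat_lit 26) (.e (nat_lit 417796) (nat_lit 0) (.e (nat_lit 5401) (nat_lit 302) .nil))) .nil)) 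
(.lf (nat_lit 198205) (.g (nat_lit 1658) (.e (nat_lit 65648) (nat_lit 26) (.e (nat_lit 417811) (nat_lit 6) (.e (nat_lit 286760) (nat_lit 13) (.e (nat_lit 393233) (nat_lit 17) (.e (nat_lit 7587) (nat_lit 406) .nil))))) (.g (nat_lit 5) .nil .nil))))))) (.nd (nat_lit 2) (.nd (nat_lit 3) (.nd (nat_lit 4) (.nd (nat_lit 5) 
(.lf (nat_lit 198147) (.g (nat_lit 633) (.e (nat_lit 73472) (nat_lit 25) (.e (nat_lit 409604) (nat_lit 0) (.e (nat_lit 5270) (nat_lit 298) (.e (nat_lit 1665) (nat_lit 115) .nil)))) .nil)) 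
(.lf (nat_lit 198179) (.g (nat_lit 1390) (.e (nat_lit 65648) (nat_lit 26) (.e (nat_lit 417796) (nat_lit 0) (.e (nat_lit 5401) (nat_lit 302) (.e (nat_lit 65648) (nat_lit 26) (.e (nat_lit 417796) (nat_lit 0) (.e (nat_lit 5401) (nat_lit 302) .nil)))))) (.g (nat_lit 0) .nil .nil)))) (.nd (nat_lit 5) 
(.lf (nat_lit 198163) (.g (nat_lit 694) (.e (nat_lit 65648) (nat_lit 26) (.e (nat_lit 417795) (nat_lit 0) (.e (nat_lit 5406) (nat_lit 302) (.e (nat_lit 65648) (nat_lit 26) (.e (nat_lit 417795) (nat_lit 0) (.e (nat_lit 5406) (nat_lit 302) .nil)))))) (.g (nat_lit 5) .nil .nil))) 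
(.lf (nat_lit 198195) (.g (nat_lit 2614) (.e (nat_lit 65648) (nat_lit 26) (.e (nat_lit 417810) (nat_lit 6) (.e (nat_lit 286748) (nat_lit 9) (.e (nat_lit 336389) (nat_lit 27) (.e (nat_lit 426011) (nat_lit 0) .nil))))) .nil)))) (.nd (nat_lit 4) (.nd (nat_lit 5) 
(.lf (nat_lit 198155) (.g (nat_lit 166) (.e (nat_lit 65648) (nat_lit 26) (.e (nat_lit 417795) (nat_lit 0) (.e (nat_lit 5401) (nat_lit 302) .nil))) .nil)) 
(.lf (nat_lit 198187) (.g (nat_lit 371) (.e (nat_lit 65648) (nat_lit 26) (.e (nat_lit 417796) (nat_lit 0) (.e (nat_lit 5406) (nat_lit 302) .nil))) .nil))) (.nd (nat_lit 5) 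
(.lf (nat_lit 198171) (.g (nat_lit 761) (.e (nat_lit 65648) (nat_lit 26) (.e (nat_lit 417796) (nat_lit 0) (.e (nat_lit 5393) (nat_lit 301) (.e (nat_lit 57480) (nat_lit 28) (.e (nat_lit 557105) (nat_lit 14) .nil))))) .nil)) 
(.lf (nat_lit 198203) (.g (nat_lit 2347) (.e (nat_lit 65648) (nat_lit 26) (.e (nat_lit 417810) (nat_lit 6) (.e (nat_lit 286761) (nat_lit 13) (.e (nat_lit 393237) (nat_lit 17) (.e (nat_lit 7936) (nat_lit 406) .nil))))) .nil))))) (.nd (nat_lit 3) (.nd (nat_lit 4) (.nd (nat_lit 5) 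
(.lf (nat_lit 198151) (.g (nat_lit 522) (.e (nat_lit 65648) (nat_lit 26) (.e (nat_lit 417793) (nat_lit 0) (.e (nat_lit 5405) (nat_lit 302) (.e (nat_lit 65647) (nat_lit 25) (.e (nat_lit 409604) (nat_lit 0) (.e (nat_lit 5404) (nat_lit 302) .nil)))))) (.g (nat_lit 0) .nil .nil))) 
(.lf (nat_lit 198183) (.g (nat_lit 1104) (.e (nat_lit 65648) (nat_lit 26) (.e (nat_lit 417796) (nat_lit 0) (.e (nat_lit 5405) (nat_lit 302) (.e (nat_lit 65648) (nat_lit 26) (.e (nat_lit 417795) (nat_lit 0) (.e (nat_lit 5405) (nat_lit 302) .nil)))))) (.g (nat_lit 0) .nil .nil)))) (.nd (nat_lit 5) 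
(.lf (nat_lit 198167) (.g (nat_lit 325) (.e (nat_lit 65648) (nat_lit 26) (.e (nat_lit 417796) (nat_lit 0) (.e (nat_lit 5258) (nat_lit 298) .nil))) .nil)) 
(.lf (nat_lit 198199) (.g (nat_lit 1337) (.e (nat_lit 65648) (nat_lit 26) (.e (nat_lit 417810) (nat_lit 6) (.e (nat_lit 286760) (nat_lit 13) (.e (nat_lit 393233) (nat_lit 17) (.e (nat_lit 7589) (nat_lit 406) .nil))))) .nil)))) (.nd (nat_lit 4) (.nd (nat_lit 5) 
(.lf (nat_lit 198159) (.g (nat_lit 867) (.e (nat_lit 65648) (nat_lit 26) (.e (nat_lit 417795) (nat_lit 0) (.e (nat_lit 5405) (nat_lit 302) (.e (nat_lit 65648) (nat_lit 26) (.e (nat_lit 417795) (nat_lit 0) (.e (nat_lit 5401) (nat_lit 302) .nil)))))) (.g (nat_lit 0) .nil .nil))) 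
(.lf (nat_lit 198191) (.g (nat_lit 1287) (.e (nat_lit 65648) (nat_lit 26) (.e (nat_lit 417796) (nat_lit 0) (.e (nat_lit 5406) (nat_lit 302) (.e (nat_lit 65648) (nat_lit 26) (.e (nat_lit 417796) (nat_lit 0) (.e (nat_lit 5401) (nat_lit 302) .nil)))))) (.g (nat_lit 6) .nil .nil)))) (.nd (nat_lit 5) 
(.lf (nat_lit 198175) (.g (nat_lit 968) (.e (nat_lit 65648) (nat_lit 26) (.e (nat_lit 417796) (nat_lit 0) (.e (nat_lit 5401) (nat_lit 302) (.e (nat_lit 65648) (nat_lit 26) (.e (nat_lit 417793) (nat_lit 0) (.e (nat_lit 5405) (nat_lit 302) .nil)))))) (.g (nat_lit 6) .nil .nil))) 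
(.lf (nat_lit 198207) (.g (nat_lit 1012) (.e (nat_lit 65648) (nat_lit 26) (.e (nat_lit 417811) (nat_lit 6) (.e (nat_lit 286760) (nat_lit 13) (.e (nat_lit 393237) (nat_lit 17) (.e (nat_lit 7936) (nat_lit 406) .nil))))) (.g (nat_lit 4) .nil .nil)))))))))

noncomputable def tv2621 : DT := (.nd (nat_lit 0) (.nd (nat_lit 1) (.nd (nat_lit 2) (.nd (nat_lit 3) (.nd (nat_lit 4) (.nd (nat_lit 5) 
(.lf (nat_lit 198208) (.g (nat_lit 2349) (.e (nat_lit 65648) (nat_lit 26) (.e (nat_lit 417811) (nat_lit 6) (.e (nat_lit 286761) (nat_lit 13) (.e (nat_lit 393231) (nat_lit 17) (.e (nat_lit 7587) (nat_lit 406) .nil))))) .nil)) 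
(.lf (nat_lit 198240) (.g (nat_lit 1394) (.e (nat_lit 65650) (nat_lit 27) (.e (nat_lit 426523) (nat_lit 27) (.e (nat_lit 336194) (nat_lit 12) (.e (nat_lit 385066) (nat_lit 26) (.e (nat_lit 532504) (nat_lit 1) .nil))))) .nil))) (.nd (nat_lit 5) 
(.lf (nat_lit 198224) (.g (nat_lit 3018) (.e (nat_lit 65649) (nat_lit 27) (.e (nat_lit 426204) (nat_lit 9) (.e (nat_lit 426412) (nat_lit 15) (.e (nat_lit 2059) (nat_lit 142) (.e (nat_lit 704595) (nat_lit 5) (.e (nat_lit 188160) (nat_lit 36) .nil)))))) (.g (nat_lit 5) .nil .nil))) 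
(.lf (nat_lit 198256) (.g (nat_lit 1205) (.e (nat_lit 65651) (nat_lit 27) (.e (nat_lit 426012) (nat_lit 0) (.e (nat_lit 7589) (nat_lit 406) (.e (nat_lit 65648) (nat_lit 26) (.e (nat_lit 417796) (nat_lit 0) .nil))))) .nil)))) (.nd (nat_lit 4) (.nd (nat_lit 5) 
(.lf (nat_lit 198216) (.g (nat_lit 1282) (.e (nat_lit 73472) (nat_lit 26) (.e (nat_lit 417809) (nat_lit 6) (.e (nat_lit 286748) (nat_lit 9) (.e (nat_lit 336389) (nat_lit 27) .nil)))) .nil)) 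
(.lf (nat_lit 198248) (.g (nat_lit 2609) (.e (nat_lit 65651) (nat_lit 27) (.e (nat_lit 426012) (nat_lit 0) (.e (nat_lit 7581) (nat_lit 405) (.e (nat_lit 57477) (nat_lit 28) (.e (nat_lit 557103) (nat_lit 14) (.e (nat_lit 180262) (nat_lit 21) (.e (nat_lit 663567) (nat_lit 4) .nil))))))) (.g (nat_lit 5) .nil .nil)))) (.nd (nat_lit 5) 
(.lf (nat_lit 198232) (.g (nat_lit 1263) (.e (nat_lit 65649) (nat_lit 27) (.e (nat_lit 426341) (nat_lit 14) (.e (nat_lit 491570) (nat_lit 13) (.e (nat_lit 393238) (nat_lit 17) .nil)))) .nil)) 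
(.lf (nat_lit 198264) (.g (nat_lit 1799) (.e (nat_lit 65651) (nat_lit 27) (.e (nat_lit 426341) (nat_lit 14) (.e (nat_lit 491571) (nat_lit 13) (.e (nat_lit 393232) (nat_lit 17) .nil)))) .nil))))) (.nd (nat_lit 3) (.nd (nat_lit 4) (.nd (nat_lit 5) 
(.lf (nat_lit 198212) (.g (nat_lit 2566) (.e (nat_lit 65648) (nat_lit 26) (.e (nat_lit 417811) (nat_lit 6) (.e (nat_lit 286761) (nat_lit 13) (.e (nat_lit 393234) (nat_lit 17) (.e (nat_lit 7587) (nat_lit 406) .nil))))) (.g (nat_lit 0) .nil .nil))) 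
(.lf (nat_lit 198244) (.g (nat_lit 1642) (.e (nat_lit 65651) (nat_lit 27) (.e (nat_lit 426011) (nat_lit 0) (.e (nat_lit 7581) (nat_lit 405) (.e (nat_lit 57480) (nat_lit 28) .nil)))) .nil))) (.nd (nat_lit 5) 
(.lf (nat_lit 198228) (.g (nat_lit 1966) (.e (nat_lit 65649) (nat_lit 27) (.e (nat_lit 426338) (nat_lit 14) (.e (nat_lit 491571) (nat_lit 13) (.e (nat_lit 393232) (nat_lit 17) (.e (nat_lit 7589) (nat_lit 406) .nil))))) .nil)) 
(.lf (nat_lit 198260) (.g (nat_lit 439) (.e (nat_lit 65651) (nat_lit 27) (.e (nat_lit 426338) (nat_lit 14) (.e (nat_lit 491571) (nat_lit 13) .nil))) .nil)))) (.nd (nat_lit 4) (.nd (nat_lit 5) 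
(.lf (nat_lit 198220) (.g (nat_lit 672) (.e (nat_lit 65649) (nat_lit 27) (.e (nat_lit 426011) (nat_lit 0) (.e (nat_lit 7589) (nat_lit 406) .nil))) .nil)) 
(.lf (nat_lit 198252) (.g (nat_lit 496) (.e (nat_lit 65651) (nat_lit 27) (.e (nat_lit 426012) (nat_lit 0) (.e (nat_lit 7583) (nat_lit 405) .nil))) .nil))) (.nd (nat_lit 5) 
(.lf (nat_lit 198236) (.g (nat_lit 2327) (.e (nat_lit 65649) (nat_lit 27) (.e (nat_lit 426523) (nat_lit 27) (.e (nat_lit 336088) (nat_lit 9) (.e (nat_lit 336019) (nat_lit 3) (.e (nat_lit 98334) (nat_lit 18) (.e (nat_lit 164159) (nat_lit 152) (.e (nat_lit 1201) (nat_lit 88) .nil))))))) (.g (nat_lit 5) .nil .nil))) 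
(.lf (nat_lit 198268) (.g (nat_lit 866) (.e (nat_lit 65651) (nat_lit 27) (.e (nat_lit 426343) (nat_lit 14) (.e (nat_lit 491552) (nat_lit 9) .nil))) .nil)))))) (.nd (nat_lit 2) (.nd (nat_lit 3) (.nd (nat_lit 4) (.nd (nat_lit 5) 
(.lf (nat_lit 198210) (.g (nat_lit 2964) (.e (nat_lit 65648) (nat_lit 26) (.e (nat_lit 417811) (nat_lit 6) (.e (nat_lit 286761) (nat_lit 13) (.e (nat_lit 393232) (nat_lit 17) (.e (nat_lit 7587) (nat_lit 406) .nil))))) .nil)) 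
(.lf (nat_lit 198242) (.g (nat_lit 2157) (.e (nat_lit 65651) (nat_lit 27) (.e (nat_lit 426011) (nat_lit 0) (.e (nat_lit 7581) (nat_lit 405) (.e (nat_lit 57476) (nat_lit 28) .nil)))) .nil))) (.nd (nat_lit 5) 
(.lf (nat_lit 198226) (.g (nat_lit 1798) (.e (nat_lit 65649) (nat_lit 27) (.e (nat_lit 426338) (nat_lit 14) (.e (nat_lit 491549) (nat_lit 9) (.e (nat_lit 336421) (nat_lit 28) (.e (nat_lit 442112) (nat_lit 4) .nil))))) (.g (nat_lit 4) .nil .nil))) 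
(.lf (nat_lit 198258) (.g (nat_lit 1309) (.e (nat_lit 65651) (nat_lit 27) (.e (nat_lit 426265) (nat_lit 9) (.e (nat_lit 426133) (nat_lit 3) (.e (nat_lit 204813) (nat_lit 9) .nil)))) .nil)))) (.nd (nat_lit 4) (.nd (nat_lit 5) 
(.lf (nat_lit 198218) (.g (nat_lit 1401) (.e (nat_lit 73472) (nat_lit 26) (.e (nat_lit 417810) (nat_lit 6) (.e (nat_lit 286761) (nat_lit 13) (.e (nat_lit 393233) (nat_lit 17) .nil)))) .nil)) 
(.lf (nat_lit 198250) (.g (nat_lit 1209) (.e (nat_lit 65651) (nat_lit 27) (.e (nat_lit 426012) (nat_lit 0) (.e (nat_lit 7581) (nat_lit 405) (.e (nat_lit 57480) (nat_lit 28) .nil)))) .nil))) (.nd (nat_lit 5) 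
(.lf (nat_lit 198234) (.g (nat_lit 2149) (.e (nat_lit 65649) (nat_lit 27) (.e (nat_lit 426343) (nat_lit 14) (.e (nat_lit 491570) (nat_lit 13) (.e (nat_lit 393238) (nat_lit 17) (.e (nat_lit 7936) (nat_lit 406) .nil))))) (.g (nat_lit 4) .nil .nil))) 
(.lf (nat_lit 198266) (.g (nat_lit 2385) (.e (nat_lit 65651) (nat_lit 27) (.e (nat_lit 426341) (nat_lit 14) (.e (nat_lit 491571) (nat_lit 13) (.e (nat_lit 393256) (nat_lit 19) .nil)))) .nil))))) (.nd (nat_lit 3) (.nd (nat_lit 4) (.nd (nat_lit 5) 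
(.lf (nat_lit 198214) (.g (nat_lit 914) (.e (nat_lit 65648) (nat_lit 26) (.e (nat_lit 417812) (nat_lit 7) (.e (nat_lit 294941) (nat_lit 9) (.e (nat_lit 336421) (nat_lit 28) (.e (nat_lit 442112) (nat_lit 4) .nil))))) (.g (nat_lit 4) .nil .nil))) 
(.lf (nat_lit 198246) (.g (nat_lit 1462) (.e (nat_lit 65651) (nat_lit 27) (.e (nat_lit 426012) (nat_lit 0) (.e (nat_lit 7581) (nat_lit 405) (.e (nat_lit 57476) (nat_lit 28) .nil)))) .nil))) (.nd (nat_lit 5) 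
(.lf (nat_lit 198230) (.g (nat_lit 1794) (.e (nat_lit 65649) (nat_lit 27) (.e (nat_lit 426341) (nat_lit 14) (.e (nat_lit 491550) (nat_lit 9) (.e (nat_lit 336421) (nat_lit 28) .nil)))) .nil)) 
(.lf (nat_lit 198262) (.g (nat_lit 481) (.e (nat_lit 65651) (nat_lit 27) (.e (nat_lit 426341) (nat_lit 14) (.e (nat_lit 491570) (nat_lit 13) .nil))) .nil)))) (.nd (nat_lit 4) (.nd (nat_lit 5) 
(.lf (nat_lit 198222) (.g (nat_lit 1770) (.e (nat_lit 65649) (nat_lit 27) (.e (nat_lit 426172) (nat_lit 7) (.e (nat_lit 409649) (nat_lit 18) (.e (nat_lit 303151) (nat_lit 27) .nil)))) .nil)) 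
(.lf (nat_lit 198254) (.g (nat_lit 993) (.e (nat_lit 65651) (nat_lit 27) (.e (nat_lit 426012) (nat_lit 0) (.e (nat_lit 7587) (nat_lit 406) (.e (nat_lit 65648) (nat_lit 26) .nil)))) .nil))) (.nd (nat_lit 5) 
(.lf (nat_lit 198238) (.g (nat_lit 1993) (.e (nat_lit 65650) (nat_lit 27) (.e (nat_lit 426338) (nat_lit 14) (.e (nat_lit 491571) (nat_lit 13) (.e (nat_lit 393232) (nat_lit 17) (.e (nat_lit 7587) (nat_lit 406) .nil))))) .nil)) 
(.lf (nat_lit 198270) (.g (nat_lit 1872) (.e (nat_lit 65651) (nat_lit 27) (.e (nat_lit 426343) (nat_lit 14) (.e (nat_lit 491568) (nat_lit 13) (.e (nat_lit 393234) (nat_lit 17) .nil)))) .nil))))))) (.nd (nat_lit 1) (.nd (nat_lit 2) (.nd (nat_lit 3) (.nd (nat_lit 4) (.nd (nat_lit 5) 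
(.lf (nat_lit 198209) (.g (nat_lit 2309) (.e (nat_lit 65648) (nat_lit 26) (.e (nat_lit 417811) (nat_lit 6) (.e (nat_lit 286761) (nat_lit 13) (.e (nat_lit 393231) (nat_lit 17) (.e (nat_lit 7589) (nat_lit 406) .nil))))) .nil)) 
(.lf (nat_lit 198241) (.g (nat_lit 739) (.e (nat_lit 65651) (nat_lit 27) (.e (nat_lit 426011) (nat_lit 0) (.e (nat_lit 7581) (nat_lit 405) .nil))) .nil))) (.nd (nat_lit 5) 
(.lf (nat_lit 198225) (.g (nat_lit 1252) (.e (nat_lit 65649) (nat_lit 27) (.e (nat_lit 426316) (nat_lit 12) (.e (nat_lit 475211) (nat_lit 41) (.e (nat_lit 712749) (nat_lit 28) .nil)))) .nil)) 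
(.lf (nat_lit 198257) (.g (nat_lit 1192) (.e (nat_lit 65651) (nat_lit 27) (.e (nat_lit 426190) (nat_lit 9) (.e (nat_lit 426131) (nat_lit 3) (.e (nat_lit 212736) (nat_lit 10) .nil)))) .nil)))) (.nd (nat_lit 4) (.nd (nat_lit 5) 
(.lf (nat_lit 198217) (.g (nat_lit 1191) (.e (nat_lit 73472) (nat_lit 26) (.e (nat_lit 417809) (nat_lit 6) (.e (nat_lit 286761) (nat_lit 13) (.e (nat_lit 393233) (nat_lit 17) .nil)))) .nil)) 
(.lf (nat_lit 198249) (.g (nat_lit 1389) (.e (nat_lit 65651) (nat_lit 27) (.e (nat_lit 426012) (nat_lit 0) (.e (nat_lit 7581) (nat_lit 405) (.e (nat_lit 57479) (nat_lit 28) .nil)))) .nil))) (.nd (nat_lit 5) 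
(.lf (nat_lit 198233) (.g (nat_lit 726) (.e (nat_lit 65649) (nat_lit 27) (.e (nat_lit 426343) (nat_lit 14) (.e (nat_lit 491549) (nat_lit 9) .nil))) .nil)) 
(.lf (nat_lit 198265) (.g (nat_lit 2049) (.e (nat_lit 65651) (nat_lit 27) (.e (nat_lit 426341) (nat_lit 14) (.e (nat_lit 491571) (nat_lit 13) (.e (nat_lit 393252) (nat_lit 18) .nil)))) .nil))))) (.nd (nat_lit 3) (.nd (nat_lit 4) (.nd (nat_lit 5) 
(.lf (nat_lit 198213) (.g (nat_lit 2236) (.e (nat_lit 65648) (nat_lit 26) (.e (nat_lit 417811) (nat_lit 6) (.e (nat_lit 286761) (nat_lit 13) (.e (nat_lit 393237) (nat_lit 17) (.e (nat_lit 7936) (nat_lit 406) .nil))))) .nil)) 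
(.lf (nat_lit 198245) (.g (nat_lit 1926) (.e (nat_lit 65651) (nat_lit 27) (.e (nat_lit 426011) (nat_lit 0) (.e (nat_lit 7581) (nat_lit 405) (.e (nat_lit 57480) (nat_lit 28) (.e (nat_lit 557105) (nat_lit 14) .nil))))) .nil))) (.nd (nat_lit 5) 
(.lf (nat_lit 198229) (.g (nat_lit 563) (.e (nat_lit 65649) (nat_lit 27) (.e (nat_lit 426341) (nat_lit 14) (.e (nat_lit 491549) (nat_lit 9) .nil))) .nil)) 
(.lf (nat_lit 198261) (.g (nat_lit 1219) (.e (nat_lit 65651) (nat_lit 27) (.e (nat_lit 426338) (nat_lit 14) (.e (nat_lit 491571) (nat_lit 13) (.e (nat_lit 393232) (nat_lit 17) .nil)))) .nil)))) (.nd (nat_lit 4) (.nd (nat_lit 5) 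
(.lf (nat_lit 198221) (.g (nat_lit 1273) (.e (nat_lit 65649) (nat_lit 27) (.e (nat_lit 426024) (nat_lit 0) (.e (nat_lit 6989) (nat_lit 377) (.e (nat_lit 2779) (nat_lit 178) (.e (nat_lit 294656) (nat_lit 26) (.e (nat_lit 417795) (nat_lit 0) (.e (nat_lit 5401) (nat_lit 302) .nil))))))) (.g (nat_lit 4) .nil .nil))) 
(.lf (nat_lit 198253) (.g (nat_lit 511) (.e (nat_lit 65651) (nat_lit 27) (.e (nat_lit 426012) (nat_lit 0) (.e (nat_lit 7587) (nat_lit 406) .nil))) .nil))) (.nd (nat_lit 5) 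
(.lf (nat_lit 198237) (.g (nat_lit 1029) (.e (nat_lit 65650) (nat_lit 27) (.e (nat_lit 426024) (nat_lit 0) (.e (nat_lit 6989) (nat_lit 377) (.e (nat_lit 2779) (nat_lit 178) (.e (nat_lit 294656) (nat_lit 26) .nil))))) .nil)) 
(.lf (nat_lit 198269) (.g (nat_lit 713) (.e (nat_lit 65651) (nat_lit 27) (.e (nat_lit 426343) (nat_lit 14) (.e (nat_lit 491568) (nat_lit 13) .nil))) .nil)))))) (.nd (nat_lit 2) (.nd (nat_lit 3) (.nd (nat_lit 4) (.nd (nat_lit 5) 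
(.lf (nat_lit 198211) (.g (nat_lit 2965) (.e (nat_lit 65648) (nat_lit 26) (.e (nat_lit 417811) (nat_lit 6) (.e (nat_lit 286761) (nat_lit 13) (.e (nat_lit 393232) (nat_lit 17) (.e (nat_lit 7589) (nat_lit 406) .nil))))) (.g (nat_lit 4) .nil .nil))) 
(.lf (nat_lit 198243) (.g (nat_lit 1593) (.e (nat_lit 65651) (nat_lit 27) (.e (nat_lit 426011) (nat_lit 0) (.e (nat_lit 7581) (nat_lit 405) (.e (nat_lit 57477) (nat_lit 28) .nil)))) .nil))) (.nd (nat_lit 5) 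
(.lf (nat_lit 198227) (.g (nat_lit 1320) (.e (nat_lit 65649) (nat_lit 27) (.e (nat_lit 426338) (nat_lit 14) (.e (nat_lit 491571) (nat_lit 13) (.e (nat_lit 393231) (nat_lit 17) .nil)))) .nil)) 
(.lf (nat_lit 198259) (.g (nat_lit 742) (.e (nat_lit 65651) (nat_lit 27) (.e (nat_lit 426306) (nat_lit 12) (.e (nat_lit 475210) (nat_lit 41) .nil))) .nil)))) (.nd (nat_lit 4) (.nd (nat_lit 5) 
(.lf (nat_lit 198219) (.g (nat_lit 1346) (.e (nat_lit 73472) (nat_lit 26) (.e (nat_lit 417810) (nat_lit 6) (.e (nat_lit 286761) (nat_lit 13) (.e (nat_lit 393234) (nat_lit 17) .nil)))) .nil)) 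
(.lf (nat_lit 198251) (.g (nat_lit 1957) (.e (nat_lit 65651) (nat_lit 27) (.e (nat_lit 426012) (nat_lit 0) (.e (nat_lit 7581) (nat_lit 405) (.e (nat_lit 57480) (nat_lit 28) (.e (nat_lit 557103) (nat_lit 14) .nil))))) .nil))) (.nd (nat_lit 5) 
(.lf (nat_lit 198235) (.g (nat_lit 3473) (.e (nat_lit 65649) (nat_lit 27) (.e (nat_lit 426500) (nat_lit 27) (.e (nat_lit 336204) (nat_lit 12) (.e (nat_lit 385074) (nat_lit 31) (.e (nat_lit 573473) (nat_lit 12) (.e (nat_lit 57521) (nat_lit 44) (.e (nat_lit 688178) (nat_lit 16) .nil))))))) (.g (nat_lit 7) .nil .nil))) 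
(.lf (nat_lit 198267) (.g (nat_lit 730) (.e (nat_lit 65651) (nat_lit 27) (.e (nat_lit 426343) (nat_lit 14) (.e (nat_lit 491549) (nat_lit 9) .nil))) .nil))))) (.nd (nat_lit 3) (.nd (nat_lit 4) (.nd (nat_lit 5) 
(.lf (nat_lit 198215) (.g (nat_lit 1584) (.e (nat_lit 65648) (nat_lit 26) (.e (nat_lit 417829) (nat_lit 18) (.e (nat_lit 303145) (nat_lit 13) (.e (nat_lit 483346) (nat_lit 17) .nil)))) .nil)) 
(.lf (nat_lit 198247) (.g (nat_lit 1195) (.e (nat_lit 65651) (nat_lit 27) (.e (nat_lit 426012) (nat_lit 0) (.e (nat_lit 7581) (nat_lit 405) (.e (nat_lit 57477) (nat_lit 28) .nil)))) .nil))) (.nd (nat_lit 5) 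
(.lf (nat_lit 198231) (.g (nat_lit 1232) (.e (nat_lit 65649) (nat_lit 27) (.e (nat_lit 426341) (nat_lit 14) (.e (nat_lit 491569) (nat_lit 13) (.e (nat_lit 393234) (nat_lit 17) .nil)))) .nil)) 
(.lf (nat_lit 198263) (.g (nat_lit 435) (.e (nat_lit 65651) (nat_lit 27) (.e (nat_lit 426341) (nat_lit 14) (.e (nat_lit 491571) (nat_lit 13) .nil))) .nil)))) (.nd (nat_lit 4) (.nd (nat_lit 5) 
(.lf (nat_lit 198223) (.g (nat_lit 1373) (.e (nat_lit 65649) (nat_lit 27) (.e (nat_lit 426200) (nat_lit 9) (.e (nat_lit 426131) (nat_lit 3) (.e (nat_lit 212736) (nat_lit 10) .nil)))) .nil)) 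
(.lf (nat_lit 198255) (.g (nat_lit 1132) (.e (nat_lit 65651) (nat_lit 27) (.e (nat_lit 426012) (nat_lit 0) (.e (nat_lit 7589) (nat_lit 406) (.e (nat_lit 65648) (nat_lit 26) .nil)))) .nil))) (.nd (nat_lit 5) 
(.lf (nat_lit 198239) (.g (nat_lit 1412) (.e (nat_lit 65650) (nat_lit 27) (.e (nat_lit 426523) (nat_lit 27) (.e (nat_lit 336194) (nat_lit 12) (.e (nat_lit 385066) (nat_lit 26) (.e (nat_lit 532501) (nat_lit 1) .nil))))) .nil)) 
(.lf (nat_lit 198271) (.g (nat_lit 497) (.e (nat_lit 65651) (nat_lit 27) (.e (nat_lit 426343) (nat_lit 14) (.e (nat_lit 491570) (nat_lit 13) .nil))) .nil))))))))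

noncomputable def tv2622 : DT := (.nd (nat_lit 0) (.nd (nat_lit 1) (.nd (nat_lit 2) (.nd (nat_lit 3) (.nd (nat_lit 4) 
(.lf (nat_lit 198272) (.g (nat_lit 2087) (.e (nat_lit 65651) (nat_lit 27) (.e (nat_lit 426343) (nat_lit 14) (.e (nat_lit 491570) (nat_lit 13) (.e (nat_lit 393231) (nat_lit 17) .nil)))) .nil)) 
(.lf (nat_lit 198288) (.g (nat_lit 692) (.e (nat_lit 65652) (nat_lit 27) (.e (nat_lit 425984) (nat_lit 0) (.e (nat_lit 7586) (nat_lit 406) (.e (nat_lit 65648) (nat_lit 26) (.e (nat_lit 417794) (nat_lit 0) (.e (nat_lit 5405) (nat_lit 302) .nil)))))) (.g (nat_lit 6) .nil .nil)))) (.nd (nat_lit 4) 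
(.lf (nat_lit 198280) (.g (nat_lit 3220) (.e (nat_lit 65651) (nat_lit 27) (.e (nat_lit 426500) (nat_lit 27) (.e (nat_lit 336076) (nat_lit 9) (.e (nat_lit 336324) (nat_lit 18) (.e (nat_lit 204830) (nat_lit 18) (.e (nat_lit 57830) (nat_lit 250) (.e (nat_lit 1201) (nat_lit 88) .nil))))))) (.g (nat_lit 7) .nil .nil))) 
(.lf (nat_lit 198296) (.g (nat_lit 499) (.e (nat_lit 65652) (nat_lit 27) (.e (nat_lit 425984) (nat_lit 0) (.e (nat_lit 7588) (nat_lit 406) (.e (nat_lit 65647) (nat_lit 25) (.e (nat_lit 409603) (nat_lit 0) (.e (nat_lit 5404) (nat_lit 302) .nil)))))) (.g (nat_lit 0) .nil .nil))))) (.nd (nat_lit 3) (.nd (nat_lit 4) 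
(.lf (nat_lit 198276) (.g (nat_lit 2184) (.e (nat_lit 65651) (nat_lit 27) (.e (nat_lit 426343) (nat_lit 14) (.e (nat_lit 491570) (nat_lit 13) (.e (nat_lit 393238) (nat_lit 17) (.e (nat_lit 2400) (nat_lit 157) .nil))))) .nil)) 
(.lf (nat_lit 198292) (.g (nat_lit 298) (.e (nat_lit 65652) (nat_lit 27) (.e (nat_lit 425984) (nat_lit 0) (.e (nat_lit 7586) (nat_lit 406) (.e (nat_lit 65652) (nat_lit 27) .nil)))) .nil))) (.nd (nat_lit 4) 
(.lf (nat_lit 198284) (.g (nat_lit 3333) (.e (nat_lit 65651) (nat_lit 27) (.e (nat_lit 426500) (nat_lit 27) (.e (nat_lit 336204) (nat_lit 12) (.e (nat_lit 385066) (nat_lit 26) (.e (nat_lit 532504) (nat_lit 1) (.e (nat_lit 57830) (nat_lit 250) (.e (nat_lit 1201) (nat_lit 88) .nil))))))) (.g (nat_lit 7) .nil .nil))) 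
(.lf (nat_lit 198300) (.g (nat_lit 1655) (.e (nat_lit 65652) (nat_lit 27) (.e (nat_lit 425984) (nat_lit 0) (.e (nat_lit 7588) (nat_lit 406) (.e (nat_lit 65653) (nat_lit 27) (.e (nat_lit 426012) (nat_lit 0) (.e (nat_lit 7587) (nat_lit 406) .nil)))))) (.g (nat_lit 0) .nil .nil)))))) (.nd (nat_lit 2) (.nd (nat_lit 3) (.nd (nat_lit 4) 
(.lf (nat_lit 198274) (.g (nat_lit 2668) (.e (nat_lit 65651) (nat_lit 27) (.e (nat_lit 426343) (nat_lit 14) (.e (nat_lit 491570) (nat_lit 13) (.e (nat_lit 393232) (nat_lit 17) (.e (nat_lit 7589) (nat_lit 406) .nil))))) .nil)) 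
(.lf (nat_lit 198290) (.g (nat_lit 1135) (.e (nat_lit 65652) (nat_lit 27) (.e (nat_lit 425984) (nat_lit 0) (.e (nat_lit 7586) (nat_lit 406) (.e (nat_lit 65648) (nat_lit 26) (.e (nat_lit 417796) (nat_lit 0) (.e (nat_lit 5405) (nat_lit 302) .nil)))))) (.g (nat_lit 6) .nil .nil)))) (.nd (nat_lit 4) 
(.lf (nat_lit 198282) (.g (nat_lit 3324) (.e (nat_lit 65651) (nat_lit 27) (.e (nat_lit 426500) (nat_lit 27) (.e (nat_lit 336088) (nat_lit 9) (.e (nat_lit 336019) (nat_lit 3) (.e (nat_lit 98334) (nat_lit 18) (.e (nat_lit 164159) (nat_lit 152) (.e (nat_lit 1201) (nat_lit 88) .nil))))))) (.g (nat_lit 7) .nil .nil))) 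
(.lf (nat_lit 198298) (.g (nat_lit 958) (.e (nat_lit 65652) (nat_lit 27) (.e (nat_lit 425984) (nat_lit 0) (.e (nat_lit 7588) (nat_lit 406) (.e (nat_lit 65648) (nat_lit 26) (.e (nat_lit 417796) (nat_lit 0) (.e (nat_lit 5406) (nat_lit 302) .nil)))))) (.g (nat_lit 6) .nil .nil))))) (.nd (nat_lit 3) (.nd (nat_lit 4) 
(.lf (nat_lit 198278) (.g (nat_lit 2121) (.e (nat_lit 65651) (nat_lit 27) (.e (nat_lit 426343) (nat_lit 14) (.e (nat_lit 491570) (nat_lit 13) (.e (nat_lit 393238) (nat_lit 17) (.e (nat_lit 7936) (nat_lit 406) .nil))))) (.g (nat_lit 4) .nil .nil))) 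
(.lf (nat_lit 198294) (.g (nat_lit 909) (.e (nat_lit 65652) (nat_lit 27) (.e (nat_lit 425984) (nat_lit 0) (.e (nat_lit 7588) (nat_lit 406) (.e (nat_lit 65633) (nat_lit 15) (.e (nat_lit 7088) (nat_lit 379) (.e (nat_lit 123213) (nat_lit 274) .nil)))))) (.g (nat_lit 0) .nil .nil)))) (.nd (nat_lit 4) 
(.lf (nat_lit 198286) (.g (nat_lit 3488) (.e (nat_lit 65651) (nat_lit 27) (.e (nat_lit 426523) (nat_lit 27) (.e (nat_lit 336076) (nat_lit 9) (.e (nat_lit 336324) (nat_lit 18) (.e (nat_lit 204831) (nat_lit 18) (.e (nat_lit 57830) (nat_lit 250) (.e (nat_lit 1201) (nat_lit 88) .nil))))))) (.g (nat_lit 7) .nil .nil))) 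
(.lf (nat_lit 198302) (.g (nat_lit 648) (.e (nat_lit 65652) (nat_lit 27) (.e (nat_lit 425987) (nat_lit 0) (.e (nat_lit 7586) (nat_lit 406) (.e (nat_lit 65648) (nat_lit 26) (.e (nat_lit 417794) (nat_lit 0) (.e (nat_lit 5405) (nat_lit 302) .nil)))))) (.g (nat_lit 6) .nil .nil))))))) (.nd (nat_lit 1) (.nd (nat_lit 2) (.nd (nat_lit 3) (.nd (nat_lit 4) 
(.lf (nat_lit 198273) (.g (nat_lit 2068) (.e (nat_lit 65651) (nat_lit 27) (.e (nat_lit 426343) (nat_lit 14) (.e (nat_lit 491570) (nat_lit 13) (.e (nat_lit 393232) (nat_lit 17) .nil)))) .nil)) 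
(.lf (nat_lit 198289) (.g (nat_lit 813) (.e (nat_lit 65652) (nat_lit 27) (.e (nat_lit 425984) (nat_lit 0) (.e (nat_lit 7586) (nat_lit 406) (.e (nat_lit 65648) (nat_lit 26) (.e (nat_lit 417795) (nat_lit 0) (.e (nat_lit 5405) (nat_lit 302) .nil)))))) (.g (nat_lit 6) .nil .nil)))) (.nd (nat_lit 4) 
(.lf (nat_lit 198281) (.g (nat_lit 3779) (.e (nat_lit 65651) (nat_lit 27) (.e (nat_lit 426500) (nat_lit 27) (.e (nat_lit 336076) (nat_lit 9) (.e (nat_lit 336324) (nat_lit 18) (.e (nat_lit 204831) (nat_lit 18) (.e (nat_lit 57830) (nat_lit 250) (.e (nat_lit 1201) (nat_lit 88) .nil))))))) (.g (nat_lit 7) .nil .nil))) 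
(.lf (nat_lit 198297) (.g (nat_lit 700) (.e (nat_lit 65652) (nat_lit 27) (.e (nat_lit 425984) (nat_lit 0) (.e (nat_lit 7588) (nat_lit 406) (.e (nat_lit 65648) (nat_lit 26) (.e (nat_lit 417795) (nat_lit 0) (.e (nat_lit 5406) (nat_lit 302) .nil)))))) (.g (nat_lit 6) .nil .nil))))) (.nd (nat_lit 3) (.nd (nat_lit 4) 
(.lf (nat_lit 198277) (.g (nat_lit 2268) (.e (nat_lit 65651) (nat_lit 27) (.e (nat_lit 426343) (nat_lit 14) (.e (nat_lit 491570) (nat_lit 13) (.e (nat_lit 393238) (nat_lit 17) (.e (nat_lit 2402) (nat_lit 157) (.e (nat_lit 4376) (nat_lit 257) (.e (nat_lit 1199) (nat_lit 88) .nil))))))) (.g (nat_lit 4) .nil .nil))) 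
(.lf (nat_lit 198293) (.g (nat_lit 2424) (.e (nat_lit 65652) (nat_lit 27) (.e (nat_lit 425984) (nat_lit 0) (.e (nat_lit 7586) (nat_lit 406) (.e (nat_lit 65653) (nat_lit 27) (.e (nat_lit 426011) (nat_lit 0) (.e (nat_lit 7587) (nat_lit 406) .nil)))))) (.g (nat_lit 6) .nil .nil)))) (.nd (nat_lit 4) 
(.lf (nat_lit 198285) (.g (nat_lit 2914) (.e (nat_lit 65651) (nat_lit 27) (.e (nat_lit 426523) (nat_lit 27) (.e (nat_lit 336076) (nat_lit 9) (.e (nat_lit 336324) (nat_lit 18) (.e (nat_lit 204830) (nat_lit 18) (.e (nat_lit 57830) (nat_lit 250) (.e (nat_lit 1201) (nat_lit 88) .nil))))))) (.g (nat_lit 7) .nil .nil))) 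
(.lf (nat_lit 198301) (.g (nat_lit 613) (.e (nat_lit 65652) (nat_lit 27) (.e (nat_lit 425987) (nat_lit 0) (.e (nat_lit 7586) (nat_lit 406) (.e (nat_lit 65648) (nat_lit 26) (.e (nat_lit 417793) (nat_lit 0) (.e (nat_lit 5405) (nat_lit 302) .nil)))))) (.g (nat_lit 6) .nil .nil)))))) (.nd (nat_lit 2) (.nd (nat_lit 3) (.nd (nat_lit 4) 
(.lf (nat_lit 198275) (.g (nat_lit 1141) (.e (nat_lit 65651) (nat_lit 27) (.e (nat_lit 426343) (nat_lit 14) (.e (nat_lit 491570) (nat_lit 13) (.e (nat_lit 393238) (nat_lit 17) .nil)))) .nil)) 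
(.lf (nat_lit 198291) (.g (nat_lit 1082) (.e (nat_lit 65652) (nat_lit 27) (.e (nat_lit 425984) (nat_lit 0) (.e (nat_lit 7586) (nat_lit 406) (.e (nat_lit 65648) (nat_lit 26) (.e (nat_lit 417796) (nat_lit 0) (.e (nat_lit 5406) (nat_lit 302) .nil)))))) (.g (nat_lit 6) .nil .nil)))) (.nd (nat_lit 4) 
(.lf (nat_lit 198283) (.g (nat_lit 3355) (.e (nat_lit 65651) (nat_lit 27) (.e (nat_lit 426500) (nat_lit 27) (.e (nat_lit 336204) (nat_lit 12) (.e (nat_lit 385066) (nat_lit 26) (.e (nat_lit 532501) (nat_lit 1) (.e (nat_lit 57830) (nat_lit 250) (.e (nat_lit 1201) (nat_lit 88) .nil))))))) (.g (nat_lit 7) .nil .nil))) 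
(.lf (nat_lit 198299) (.g (nat_lit 2153) (.e (nat_lit 65652) (nat_lit 27) (.e (nat_lit 425984) (nat_lit 0) (.e (nat_lit 7588) (nat_lit 406) (.e (nat_lit 65653) (nat_lit 27) (.e (nat_lit 426011) (nat_lit 0) (.e (nat_lit 7587) (nat_lit 406) .nil)))))) (.g (nat_lit 6) .nil .nil))))) (.nd (nat_lit 3) (.nd (nat_lit 4) 
(.lf (nat_lit 198279) (.g (nat_lit 585) (.e (nat_lit 65651) (nat_lit 27) (.e (nat_lit 426344) (nat_lit 14) (.e (nat_lit 491568) (nat_lit 13) .nil))) .nil)) 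
(.lf (nat_lit 198295) (.g (nat_lit 902) (.e (nat_lit 65652) (nat_lit 27) (.e (nat_lit 425984) (nat_lit 0) (.e (nat_lit 7588) (nat_lit 406) (.e (nat_lit 65633) (nat_lit 15) (.e (nat_lit 7089) (nat_lit 379) (.e (nat_lit 123213) (nat_lit 274) .nil)))))) (.g (nat_lit 0) .nil .nil)))) (.nd (nat_lit 4) 
(.lf (nat_lit 198287) (.g (nat_lit 657) (.e (nat_lit 65652) (nat_lit 27) (.e (nat_lit 425984) (nat_lit 0) (.e (nat_lit 7586) (nat_lit 406) (.e (nat_lit 65648) (nat_lit 26) (.e (nat_lit 417793) (nat_lit 0) (.e (nat_lit 5405) (nat_lit 302) .nil)))))) (.g (nat_lit 6) .nil .nil))) 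
(.lf (nat_lit 198303) (.g (nat_lit 769) (.e (nat_lit 65652) (nat_lit 27) (.e (nat_lit 425987) (nat_lit 0) (.e (nat_lit 7586) (nat_lit 406) (.e (nat_lit 65648) (nat_lit 26) (.e (nat_lit 417795) (nat_lit 0) (.e (nat_lit 5405) (nat_lit 302) .nil)))))) (.g (nat_lit 6) .nil .nil))))))))

noncomputable def tv2623 : DT := (.nd (nat_lit 0) (.nd (nat_lit 1) (.nd (nat_lit 2) (.nd (nat_lit 3) (.nd (nat_lit 4) 
(.lf (nat_lit 198304) (.g (nat_lit 1095) (.e (nat_lit 65652) (nat_lit 27) (.e (nat_lit 425987) (nat_lit 0) (.e (nat_lit 7586) (nat_lit 406) (.e (nat_lit 65648) (nat_lit 26) (.e (nat_lit 417796) (nat_lit 0) (.e (nat_lit 5405) (nat_lit 302) .nil)))))) (.g (nat_lit 6) .nil .nil))) 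
(.lf (nat_lit 198320) (.g (nat_lit 856) (.e (nat_lit 65652) (nat_lit 27) (.e (nat_lit 425989) (nat_lit 0) (.e (nat_lit 7588) (nat_lit 406) (.e (nat_lit 65633) (nat_lit 15) (.e (nat_lit 7088) (nat_lit 379) (.e (nat_lit 123213) (nat_lit 274) .nil)))))) (.g (nat_lit 0) .nil .nil)))) (.nd (nat_lit 4) 
(.lf (nat_lit 198312) (.g (nat_lit 919) (.e (nat_lit 65652) (nat_lit 27) (.e (nat_lit 425987) (nat_lit 0) (.e (nat_lit 7588) (nat_lit 406) (.e (nat_lit 65648) (nat_lit 26) (.e (nat_lit 417796) (nat_lit 0) (.e (nat_lit 5406) (nat_lit 302) .nil)))))) (.g (nat_lit 6) .nil .nil))) 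
(.lf (nat_lit 198328) (.g (nat_lit 1857) (.e (nat_lit 65652) (nat_lit 27) (.e (nat_lit 425989) (nat_lit 0) (.e (nat_lit 7588) (nat_lit 406) (.e (nat_lit 65653) (nat_lit 27) (.e (nat_lit 426011) (nat_lit 0) (.e (nat_lit 7589) (nat_lit 406) .nil)))))) (.g (nat_lit 0) .nil .nil))))) (.nd (nat_lit 3) (.nd (nat_lit 4) 
(.lf (nat_lit 198308) (.g (nat_lit 489) (.e (nat_lit 65652) (nat_lit 27) (.e (nat_lit 425987) (nat_lit 0) (.e (nat_lit 7588) (nat_lit 406) (.e (nat_lit 65648) (nat_lit 26) (.e (nat_lit 417793) (nat_lit 0) (.e (nat_lit 5405) (nat_lit 302) .nil)))))) (.g (nat_lit 0) .nil .nil))) 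
(.lf (nat_lit 198324) (.g (nat_lit 506) (.e (nat_lit 65652) (nat_lit 27) (.e (nat_lit 425989) (nat_lit 0) (.e (nat_lit 7588) (nat_lit 406) (.e (nat_lit 65647) (nat_lit 25) (.e (nat_lit 409604) (nat_lit 0) (.e (nat_lit 5404) (nat_lit 302) .nil)))))) (.g (nat_lit 0) .nil .nil)))) (.nd (nat_lit 4) 
(.lf (nat_lit 198316) (.g (nat_lit 691) (.e (nat_lit 65652) (nat_lit 27) (.e (nat_lit 425989) (nat_lit 0) (.e (nat_lit 7586) (nat_lit 406) (.e (nat_lit 65648) (nat_lit 26) (.e (nat_lit 417794) (nat_lit 0) (.e (nat_lit 5405) (nat_lit 302) .nil)))))) (.g (nat_lit 6) .nil .nil))) 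
(.lf (nat_lit 198332) (.g (nat_lit 753) (.e (nat_lit 65652) (nat_lit 27) (.e (nat_lit 425990) (nat_lit 0) (.e (nat_lit 7586) (nat_lit 406) (.e (nat_lit 65648) (nat_lit 26) (.e (nat_lit 417795) (nat_lit 0) (.e (nat_lit 5405) (nat_lit 302) .nil)))))) (.g (nat_lit 6) .nil .nil)))))) (.nd (nat_lit 2) (.nd (nat_lit 3) (.nd (nat_lit 4) 
(.lf (nat_lit 198306) (.g (nat_lit 259) (.e (nat_lit 65652) (nat_lit 27) (.e (nat_lit 425987) (nat_lit 0) (.e (nat_lit 7586) (nat_lit 406) (.e (nat_lit 65652) (nat_lit 27) .nil)))) .nil)) 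
(.lf (nat_lit 198322) (.g (nat_lit 970) (.e (nat_lit 65652) (nat_lit 27) (.e (nat_lit 425989) (nat_lit 0) (.e (nat_lit 7588) (nat_lit 406) (.e (nat_lit 65647) (nat_lit 25) (.e (nat_lit 409602) (nat_lit 0) (.e (nat_lit 5404) (nat_lit 302) .nil)))))) (.g (nat_lit 0) .nil .nil)))) (.nd (nat_lit 4) 
(.lf (nat_lit 198314) (.g (nat_lit 1613) (.e (nat_lit 65652) (nat_lit 27) (.e (nat_lit 425987) (nat_lit 0) (.e (nat_lit 7588) (nat_lit 406) (.e (nat_lit 65653) (nat_lit 27) (.e (nat_lit 426012) (nat_lit 0) (.e (nat_lit 7587) (nat_lit 406) .nil)))))) (.g (nat_lit 6) .nil .nil))) 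
(.lf (nat_lit 198330) (.g (nat_lit 595) (.e (nat_lit 65652) (nat_lit 27) (.e (nat_lit 425990) (nat_lit 0) (.e (nat_lit 7586) (nat_lit 406) (.e (nat_lit 65648) (nat_lit 26) (.e (nat_lit 417793) (nat_lit 0) (.e (nat_lit 5405) (nat_lit 302) .nil)))))) (.g (nat_lit 6) .nil .nil))))) (.nd (nat_lit 3) (.nd (nat_lit 4) 
(.lf (nat_lit 198310) (.g (nat_lit 659) (.e (nat_lit 65652) (nat_lit 27) (.e (nat_lit 425987) (nat_lit 0) (.e (nat_lit 7588) (nat_lit 406) (.e (nat_lit 65648) (nat_lit 26) (.e (nat_lit 417795) (nat_lit 0) (.e (nat_lit 5406) (nat_lit 302) .nil)))))) (.g (nat_lit 6) .nil .nil))) 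
(.lf (nat_lit 198326) (.g (nat_lit 901) (.e (nat_lit 65652) (nat_lit 27) (.e (nat_lit 425989) (nat_lit 0) (.e (nat_lit 7588) (nat_lit 406) (.e (nat_lit 65648) (nat_lit 26) (.e (nat_lit 417796) (nat_lit 0) (.e (nat_lit 5406) (nat_lit 302) .nil)))))) (.g (nat_lit 6) .nil .nil)))) (.nd (nat_lit 4) 
(.lf (nat_lit 198318) (.g (nat_lit 1133) (.e (nat_lit 65652) (nat_lit 27) (.e (nat_lit 425989) (nat_lit 0) (.e (nat_lit 7586) (nat_lit 406) (.e (nat_lit 65648) (nat_lit 26) (.e (nat_lit 417796) (nat_lit 0) (.e (nat_lit 5405) (nat_lit 302) .nil)))))) (.g (nat_lit 6) .nil .nil))) 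
(.lf (nat_lit 198334) (.g (nat_lit 1021) (.e (nat_lit 65652) (nat_lit 27) (.e (nat_lit 425990) (nat_lit 0) (.e (nat_lit 7586) (nat_lit 406) (.e (nat_lit 65648) (nat_lit 26) (.e (nat_lit 417796) (nat_lit 0) (.e (nat_lit 5406) (nat_lit 302) .nil)))))) (.g (nat_lit 6) .nil .nil))))))) (.nd (nat_lit 1) (.nd (nat_lit 2) (.nd (nat_lit 3) (.nd (nat_lit 4) 
(.lf (nat_lit 198305) (.g (nat_lit 1037) (.e (nat_lit 65652) (nat_lit 27) (.e (nat_lit 425987) (nat_lit 0) (.e (nat_lit 7586) (nat_lit 406) (.e (nat_lit 65648) (nat_lit 26) (.e (nat_lit 417796) (nat_lit 0) (.e (nat_lit 5406) (nat_lit 302) .nil)))))) (.g (nat_lit 6) .nil .nil))) 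
(.lf (nat_lit 198321) (.g (nat_lit 848) (.e (nat_lit 65652) (nat_lit 27) (.e (nat_lit 425989) (nat_lit 0) (.e (nat_lit 7588) (nat_lit 406) (.e (nat_lit 65633) (nat_lit 15) (.e (nat_lit 7089) (nat_lit 379) (.e (nat_lit 123213) (nat_lit 274) .nil)))))) (.g (nat_lit 0) .nil .nil)))) (.nd (nat_lit 4) 
(.lf (nat_lit 198313) (.g (nat_lit 2113) (.e (nat_lit 65652) (nat_lit 27) (.e (nat_lit 425987) (nat_lit 0) (.e (nat_lit 7588) (nat_lit 406) (.e (nat_lit 65653) (nat_lit 27) (.e (nat_lit 426011) (nat_lit 0) (.e (nat_lit 7587) (nat_lit 406) .nil)))))) (.g (nat_lit 6) .nil .nil))) 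
(.lf (nat_lit 198329) (.g (nat_lit 1608) (.e (nat_lit 65652) (nat_lit 27) (.e (nat_lit 425989) (nat_lit 0) (.e (nat_lit 7588) (nat_lit 406) (.e (nat_lit 65653) (nat_lit 27) (.e (nat_lit 426012) (nat_lit 0) (.e (nat_lit 7587) (nat_lit 406) .nil)))))) (.g (nat_lit 0) .nil .nil))))) (.nd (nat_lit 3) (.nd (nat_lit 4) 
(.lf (nat_lit 198309) (.g (nat_lit 637) (.e (nat_lit 65652) (nat_lit 27) (.e (nat_lit 425987) (nat_lit 0) (.e (nat_lit 7588) (nat_lit 406) (.e (nat_lit 65648) (nat_lit 26) (.e (nat_lit 417795) (nat_lit 0) (.e (nat_lit 5405) (nat_lit 302) .nil)))))) (.g (nat_lit 0) .nil .nil))) 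
(.lf (nat_lit 198325) (.g (nat_lit 643) (.e (nat_lit 65652) (nat_lit 27) (.e (nat_lit 425989) (nat_lit 0) (.e (nat_lit 7588) (nat_lit 406) (.e (nat_lit 65648) (nat_lit 26) (.e (nat_lit 417795) (nat_lit 0) (.e (nat_lit 5406) (nat_lit 302) .nil)))))) (.g (nat_lit 6) .nil .nil)))) (.nd (nat_lit 4) 
(.lf (nat_lit 198317) (.g (nat_lit 810) (.e (nat_lit 65652) (nat_lit 27) (.e (nat_lit 425989) (nat_lit 0) (.e (nat_lit 7586) (nat_lit 406) (.e (nat_lit 65648) (nat_lit 26) (.e (nat_lit 417795) (nat_lit 0) (.e (nat_lit 5405) (nat_lit 302) .nil)))))) (.g (nat_lit 6) .nil .nil))) 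
(.lf (nat_lit 198333) (.g (nat_lit 1075) (.e (nat_lit 65652) (nat_lit 27) (.e (nat_lit 425990) (nat_lit 0) (.e (nat_lit 7586) (nat_lit 406) (.e (nat_lit 65648) (nat_lit 26) (.e (nat_lit 417796) (nat_lit 0) (.e (nat_lit 5405) (nat_lit 302) .nil)))))) (.g (nat_lit 6) .nil .nil)))))) (.nd (nat_lit 2) (.nd (nat_lit 3) (.nd (nat_lit 4) 
(.lf (nat_lit 198307) (.g (nat_lit 845) (.e (nat_lit 65652) (nat_lit 27) (.e (nat_lit 425987) (nat_lit 0) (.e (nat_lit 7588) (nat_lit 406) (.e (nat_lit 65633) (nat_lit 15) (.e (nat_lit 7089) (nat_lit 379) (.e (nat_lit 123213) (nat_lit 274) .nil)))))) (.g (nat_lit 0) .nil .nil))) 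
(.lf (nat_lit 198323) (.g (nat_lit 465) (.e (nat_lit 65652) (nat_lit 27) (.e (nat_lit 425989) (nat_lit 0) (.e (nat_lit 7588) (nat_lit 406) (.e (nat_lit 65647) (nat_lit 25) (.e (nat_lit 409603) (nat_lit 0) (.e (nat_lit 5404) (nat_lit 302) .nil)))))) (.g (nat_lit 0) .nil .nil)))) (.nd (nat_lit 4) 
(.lf (nat_lit 198315) (.g (nat_lit 654) (.e (nat_lit 65652) (nat_lit 27) (.e (nat_lit 425989) (nat_lit 0) (.e (nat_lit 7586) (nat_lit 406) (.e (nat_lit 65648) (nat_lit 26) (.e (nat_lit 417793) (nat_lit 0) (.e (nat_lit 5405) (nat_lit 302) .nil)))))) (.g (nat_lit 6) .nil .nil))) 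
(.lf (nat_lit 198331) (.g (nat_lit 630) (.e (nat_lit 65652) (nat_lit 27) (.e (nat_lit 425990) (nat_lit 0) (.e (nat_lit 7586) (nat_lit 406) (.e (nat_lit 65648) (nat_lit 26) (.e (nat_lit 417794) (nat_lit 0) (.e (nat_lit 5405) (nat_lit 302) .nil)))))) (.g (nat_lit 6) .nil .nil))))) (.nd (nat_lit 3) (.nd (nat_lit 4) 
(.lf (nat_lit 198311) (.g (nat_lit 963) (.e (nat_lit 65652) (nat_lit 27) (.e (nat_lit 425987) (nat_lit 0) (.e (nat_lit 7588) (nat_lit 406) (.e (nat_lit 65648) (nat_lit 26) (.e (nat_lit 417796) (nat_lit 0) (.e (nat_lit 5405) (nat_lit 302) .nil)))))) (.g (nat_lit 0) .nil .nil))) 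
(.lf (nat_lit 198327) (.g (nat_lit 2102) (.e (nat_lit 65652) (nat_lit 27) (.e (nat_lit 425989) (nat_lit 0) (.e (nat_lit 7588) (nat_lit 406) (.e (nat_lit 65653) (nat_lit 27) (.e (nat_lit 426011) (nat_lit 0) (.e (nat_lit 7587) (nat_lit 406) .nil)))))) (.g (nat_lit 6) .nil .nil)))) (.nd (nat_lit 4) 
(.lf (nat_lit 198319) (.g (nat_lit 482) (.e (nat_lit 65652) (nat_lit 27) (.e (nat_lit 425989) (nat_lit 0) (.e (nat_lit 7588) (nat_lit 406) (.e (nat_lit 65632) (nat_lit 15) (.e (nat_lit 7082) (nat_lit 378) (.e (nat_lit 57897) (nat_lit 274) .nil)))))) (.g (nat_lit 0) .nil .nil))) 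
(.lf (nat_lit 198335) (.g (nat_lit 593) (.e (nat_lit 65652) (nat_lit 27) (.e (nat_lit 425990) (nat_lit 0) (.e (nat_lit 7588) (nat_lit 406) (.e (nat_lit 65648) (nat_lit 26) (.e (nat_lit 417795) (nat_lit 0) (.e (nat_lit 5406) (nat_lit 302) .nil)))))) (.g (nat_lit 6) .nil .nil))))))))

noncomputable def tv2624 : DT := (.nd (nat_lit 0) (.nd (nat_lit 1) (.nd (nat_lit 2) (.nd (nat_lit 3) (.nd (nat_lit 4) (.nd (nat_lit 5) 
(.lf (nat_lit 198336) (.g (nat_lit 851) (.e (nat_lit 65652) (nat_lit 27) (.e (nat_lit 425990) (nat_lit 0) (.e (nat_lit 7588) (nat_lit 406) (.e (nat_lit 65648) (nat_lit 26) (.e (nat_lit 417796) (nat_lit 0) (.e (nat_lit 5406) (nat_lit 302) .nil)))))) (.g (nat_lit 6) .nil .nil))) 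
(.lf (nat_lit 198368) (.g (nat_lit 185) (.e (nat_lit 65653) (nat_lit 27) (.e (nat_lit 426010) (nat_lit 0) (.e (nat_lit 7587) (nat_lit 406) .nil))) .nil))) (.nd (nat_lit 5) 
(.lf (nat_lit 198352) (.g (nat_lit 2252) (.e (nat_lit 65652) (nat_lit 27) (.e (nat_lit 426347) (nat_lit 14) (.e (nat_lit 491549) (nat_lit 9) (.e (nat_lit 336414) (nat_lit 27) (.e (nat_lit 425984) (nat_lit 0) .nil))))) .nil)) 
(.lf (nat_lit 198384) (.g (nat_lit 2276) (.e (nat_lit 65653) (nat_lit 27) (.e (nat_lit 426011) (nat_lit 0) (.e (nat_lit 3555) (nat_lit 220) (.e (nat_lit 720956) (nat_lit 25) (.e (nat_lit 114716) (nat_lit 22) (.e (nat_lit 90181) (nat_lit 16) (.e (nat_lit 237312) (nat_lit 191) .nil))))))) (.g (nat_lit 5) .nil .nil))))) (.nd (nat_lit 4) (.nd (nat_lit 5) 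
(.lf (nat_lit 198344) (.g (nat_lit 1805) (.e (nat_lit 65652) (nat_lit 27) (.e (nat_lit 426163) (nat_lit 6) (.e (nat_lit 253991) (nat_lit 11) (.e (nat_lit 16416) (nat_lit 3) .nil)))) .nil)) 
(.lf (nat_lit 198376) (.g (nat_lit 533) (.e (nat_lit 65653) (nat_lit 27) (.e (nat_lit 426010) (nat_lit 0) (.e (nat_lit 7589) (nat_lit 406) (.e (nat_lit 73472) (nat_lit 15) .nil)))) .nil))) (.nd (nat_lit 5) 
(.lf (nat_lit 198360) (.g (nat_lit 2215) (.e (nat_lit 65653) (nat_lit 27) (.e (nat_lit 426009) (nat_lit 0) (.e (nat_lit 3453) (nat_lit 216) (.e (nat_lit 688182) (nat_lit 17) (.e (nat_lit 73755) (nat_lit 8) (.e (nat_lit 557089) (nat_lit 12) (.e (nat_lit 171776) (nat_lit 191) .nil))))))) (.g (nat_lit 6) .nil .nil))) 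
(.lf (nat_lit 198392) (.g (nat_lit 2065) (.e (nat_lit 65653) (nat_lit 27) (.e (nat_lit 426011) (nat_lit 0) (.e (nat_lit 7523) (nat_lit 402) (.e (nat_lit 1659) (nat_lit 115) (.e (nat_lit 393234) (nat_lit 17) .nil))))) .nil))))) (.nd (nat_lit 3) (.nd (nat_lit 4) (.nd (nat_lit 5) 
(.lf (nat_lit 198340) (.g (nat_lit 2229) (.e (nat_lit 65652) (nat_lit 27) (.e (nat_lit 426163) (nat_lit 6) (.e (nat_lit 253991) (nat_lit 11) (.e (nat_lit 16403) (nat_lit 0) .nil)))) .nil)) 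
(.lf (nat_lit 198372) (.g (nat_lit 1449) (.e (nat_lit 65653) (nat_lit 27) (.e (nat_lit 426010) (nat_lit 0) (.e (nat_lit 7587) (nat_lit 406) (.e (nat_lit 65648) (nat_lit 26) (.e (nat_lit 417796) (nat_lit 0) (.e (nat_lit 5405) (nat_lit 302) .nil)))))) (.g (nat_lit 0) .nil .nil)))) (.nd (nat_lit 5) 
(.lf (nat_lit 198356) (.g (nat_lit 2511) (.e (nat_lit 65652) (nat_lit 27) (.e (nat_lit 426347) (nat_lit 14) (.e (nat_lit 491566) (nat_lit 12) (.e (nat_lit 385038) (nat_lit 16) .nil)))) .nil)) 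
(.lf (nat_lit 198388) (.g (nat_lit 950) (.e (nat_lit 65653) (nat_lit 27) (.e (nat_lit 426011) (nat_lit 0) (.e (nat_lit 7491) (nat_lit 402) (.e (nat_lit 1656) (nat_lit 115) .nil)))) .nil)))) (.nd (nat_lit 4) (.nd (nat_lit 5) 
(.lf (nat_lit 198348) (.g (nat_lit 1556) (.e (nat_lit 65652) (nat_lit 27) (.e (nat_lit 426163) (nat_lit 6) (.e (nat_lit 253992) (nat_lit 11) (.e (nat_lit 16416) (nat_lit 3) .nil)))) .nil)) 
(.lf (nat_lit 198380) (.g (nat_lit 1353) (.e (nat_lit 65653) (nat_lit 27) (.e (nat_lit 426010) (nat_lit 0) (.e (nat_lit 7589) (nat_lit 406) (.e (nat_lit 65648) (nat_lit 26) (.e (nat_lit 417796) (nat_lit 0) (.e (nat_lit 5399) (nat_lit 302) .nil)))))) (.g (nat_lit 5) .nil .nil)))) (.nd (nat_lit 5) 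
(.lf (nat_lit 198364) (.g (nat_lit 1340) (.e (nat_lit 65653) (nat_lit 27) (.e (nat_lit 426009) (nat_lit 0) (.e (nat_lit 7587) (nat_lit 406) (.e (nat_lit 65648) (nat_lit 26) (.e (nat_lit 417796) (nat_lit 0) (.e (nat_lit 5405) (nat_lit 302) .nil)))))) (.g (nat_lit 0) .nil .nil))) 
(.lf (nat_lit 198396) (.g (nat_lit 2723) (.e (nat_lit 65653) (nat_lit 27) (.e (nat_lit 426011) (nat_lit 0) (.e (nat_lit 7536) (nat_lit 402) (.e (nat_lit 1656) (nat_lit 115) (.e (nat_lit 393234) (nat_lit 17) (.e (nat_lit 7589) (nat_lit 406) .nil)))))) (.g (nat_lit 4) .nil .nil))))))) (.nd (nat_lit 2) (.nd (nat_lit 3) (.nd (nat_lit 4) (.nd (nat_lit 5) 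
(.lf (nat_lit 198338) (.g (nat_lit 1599) (.e (nat_lit 65652) (nat_lit 27) (.e (nat_lit 426163) (nat_lit 6) (.e (nat_lit 253962) (nat_lit 9) (.e (nat_lit 1277) (nat_lit 94) .nil)))) .nil)) 
(.lf (nat_lit 198370) (.g (nat_lit 1070) (.e (nat_lit 65653) (nat_lit 27) (.e (nat_lit 426010) (nat_lit 0) (.e (nat_lit 7587) (nat_lit 406) (.e (nat_lit 65648) (nat_lit 26) (.e (nat_lit 417794) (nat_lit 0) (.e (nat_lit 5405) (nat_lit 302) .nil)))))) (.g (nat_lit 6) .nil .nil)))) (.nd (nat_lit 5) 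
(.lf (nat_lit 198354) (.g (nat_lit 2122) (.e (nat_lit 65652) (nat_lit 27) (.e (nat_lit 426347) (nat_lit 14) (.e (nat_lit 491550) (nat_lit 9) (.e (nat_lit 336414) (nat_lit 27) (.e (nat_lit 425987) (nat_lit 0) (.e (nat_lit 7586) (nat_lit 406) .nil)))))) (.g (nat_lit 4) .nil .nil))) 
(.lf (nat_lit 198386) (.g (nat_lit 797) (.e (nat_lit 65653) (nat_lit 27) (.e (nat_lit 426011) (nat_lit 0) (.e (nat_lit 3557) (nat_lit 220) .nil))) .nil)))) (.nd (nat_lit 4) (.nd (nat_lit 5) 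
(.lf (nat_lit 198346) (.g (nat_lit 3197) (.e (nat_lit 65652) (nat_lit 27) (.e (nat_lit 426163) (nat_lit 6) (.e (nat_lit 253991) (nat_lit 11) (.e (nat_lit 16416) (nat_lit 3) (.e (nat_lit 204830) (nat_lit 18) .nil))))) .nil)) 
(.lf (nat_lit 198378) (.g (nat_lit 1063) (.e (nat_lit 65653) (nat_lit 27) (.e (nat_lit 426010) (nat_lit 0) (.e (nat_lit 7589) (nat_lit 406) (.e (nat_lit 65648) (nat_lit 26) (.e (nat_lit 417793) (nat_lit 0) (.e (nat_lit 5405) (nat_lit 302) .nil)))))) (.g (nat_lit 0) .nil .nil)))) (.nd (nat_lit 5) 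
(.lf (nat_lit 198362) (.g (nat_lit 954) (.e (nat_lit 65653) (nat_lit 27) (.e (nat_lit 426009) (nat_lit 0) (.e (nat_lit 7587) (nat_lit 406) (.e (nat_lit 65648) (nat_lit 26) (.e (nat_lit 417794) (nat_lit 0) (.e (nat_lit 5405) (nat_lit 302) .nil)))))) (.g (nat_lit 6) .nil .nil))) 
(.lf (nat_lit 198394) (.g (nat_lit 797) (.e (nat_lit 65653) (nat_lit 27) (.e (nat_lit 426011) (nat_lit 0) (.e (nat_lit 7536) (nat_lit 402) .nil))) .nil))))) (.nd (nat_lit 3) (.nd (nat_lit 4) (.nd (nat_lit 5) 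
(.lf (nat_lit 198342) (.g (nat_lit 1864) (.e (nat_lit 65652) (nat_lit 27) (.e (nat_lit 426163) (nat_lit 6) (.e (nat_lit 253991) (nat_lit 11) (.e (nat_lit 16414) (nat_lit 3) .nil)))) .nil)) 
(.lf (nat_lit 198374) (.g (nat_lit 1085) (.e (nat_lit 65653) (nat_lit 27) (.e (nat_lit 426010) (nat_lit 0) (.e (nat_lit 7589) (nat_lit 406) (.e (nat_lit 65632) (nat_lit 15) (.e (nat_lit 7082) (nat_lit 378) (.e (nat_lit 57897) (nat_lit 274) .nil)))))) (.g (nat_lit 0) .nil .nil)))) (.nd (nat_lit 5) 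
(.lf (nat_lit 198358) (.g (nat_lit 2026) (.e (nat_lit 65652) (nat_lit 27) (.e (nat_lit 426347) (nat_lit 14) (.e (nat_lit 491570) (nat_lit 13) (.e (nat_lit 393238) (nat_lit 17) (.e (nat_lit 7936) (nat_lit 406) .nil))))) (.g (nat_lit 4) .nil .nil))) 
(.lf (nat_lit 198390) (.g (nat_lit 799) (.e (nat_lit 65653) (nat_lit 27) (.e (nat_lit 426011) (nat_lit 0) (.e (nat_lit 7511) (nat_lit 402) .nil))) .nil)))) (.nd (nat_lit 4) (.nd (nat_lit 5) 
(.lf (nat_lit 198350) (.g (nat_lit 2638) (.e (nat_lit 65652) (nat_lit 27) (.e (nat_lit 426163) (nat_lit 6) (.e (nat_lit 253992) (nat_lit 11) (.e (nat_lit 16416) (nat_lit 3) (.e (nat_lit 204830) (nat_lit 18) .nil))))) .nil)) 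
(.lf (nat_lit 198382) (.g (nat_lit 533) (.e (nat_lit 65653) (nat_lit 27) (.e (nat_lit 426010) (nat_lit 0) (.e (nat_lit 7589) (nat_lit 406) (.e (nat_lit 73472) (nat_lit 27) .nil)))) .nil))) (.nd (nat_lit 5) 
(.lf (nat_lit 198366) (.g (nat_lit 2457) (.e (nat_lit 65653) (nat_lit 27) (.e (nat_lit 426009) (nat_lit 0) (.e (nat_lit 7589) (nat_lit 406) (.e (nat_lit 65653) (nat_lit 27) (.e (nat_lit 426011) (nat_lit 0) (.e (nat_lit 7587) (nat_lit 406) .nil)))))) (.g (nat_lit 0) .nil .nil))) 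
(.lf (nat_lit 198398) (.g (nat_lit 806) (.e (nat_lit 65653) (nat_lit 27) (.e (nat_lit 426011) (nat_lit 0) (.e (nat_lit 7545) (nat_lit 402) .nil))) .nil))))))) (.nd (nat_lit 1) (.nd (nat_lit 2) (.nd (nat_lit 3) (.nd (nat_lit 4) (.nd (nat_lit 5) 
(.lf (nat_lit 198337) (.g (nat_lit 2041) (.e (nat_lit 65652) (nat_lit 27) (.e (nat_lit 425990) (nat_lit 0) (.e (nat_lit 7588) (nat_lit 406) (.e (nat_lit 65653) (nat_lit 27) (.e (nat_lit 426011) (nat_lit 0) (.e (nat_lit 7587) (nat_lit 406) .nil)))))) (.g (nat_lit 6) .nil .nil))) 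
(.lf (nat_lit 198369) (.g (nat_lit 1030) (.e (nat_lit 65653) (nat_lit 27) (.e (nat_lit 426010) (nat_lit 0) (.e (nat_lit 7587) (nat_lit 406) (.e (nat_lit 65648) (nat_lit 26) (.e (nat_lit 417793) (nat_lit 0) (.e (nat_lit 5405) (nat_lit 302) .nil)))))) (.g (nat_lit 6) .nil .nil)))) (.nd (nat_lit 5) 
(.lf (nat_lit 198353) (.g (nat_lit 2174) (.e (nat_lit 65652) (nat_lit 27) (.e (nat_lit 426347) (nat_lit 14) (.e (nat_lit 491549) (nat_lit 9) (.e (nat_lit 336414) (nat_lit 27) (.e (nat_lit 425987) (nat_lit 0) .nil))))) .nil)) 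
(.lf (nat_lit 198385) (.g (nat_lit 1270) (.e (nat_lit 65653) (nat_lit 27) (.e (nat_lit 426011) (nat_lit 0) (.e (nat_lit 3556) (nat_lit 220) (.e (nat_lit 720956) (nat_lit 25) .nil)))) .nil)))) (.nd (nat_lit 4) (.nd (nat_lit 5) 
(.lf (nat_lit 198345) (.g (nat_lit 3364) (.e (nat_lit 65652) (nat_lit 27) (.e (nat_lit 426163) (nat_lit 6) (.e (nat_lit 253991) (nat_lit 11) (.e (nat_lit 16416) (nat_lit 3) (.e (nat_lit 204829) (nat_lit 18) .nil))))) .nil)) 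
(.lf (nat_lit 198377) (.g (nat_lit 1433) (.e (nat_lit 65653) (nat_lit 27) (.e (nat_lit 426010) (nat_lit 0) (.e (nat_lit 7589) (nat_lit 406) (.e (nat_lit 65647) (nat_lit 25) (.e (nat_lit 409602) (nat_lit 0) (.e (nat_lit 5399) (nat_lit 302) .nil)))))) (.g (nat_lit 5) .nil .nil)))) (.nd (nat_lit 5) 
(.lf (nat_lit 198361) (.g (nat_lit 919) (.e (nat_lit 65653) (nat_lit 27) (.e (nat_lit 426009) (nat_lit 0) (.e (nat_lit 7587) (nat_lit 406) (.e (nat_lit 65648) (nat_lit 26) (.e (nat_lit 417793) (nat_lit 0) (.e (nat_lit 5405) (nat_lit 302) .nil)))))) (.g (nat_lit 6) .nil .nil))) 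
(.lf (nat_lit 198393) (.g (nat_lit 2113) (.e (nat_lit 65653) (nat_lit 27) (.e (nat_lit 426011) (nat_lit 0) (.e (nat_lit 7533) (nat_lit 402) (.e (nat_lit 1656) (nat_lit 115) (.e (nat_lit 393234) (nat_lit 17) (.e (nat_lit 7589) (nat_lit 406) .nil)))))) (.g (nat_lit 4) .nil .nil)))))) (.nd (nat_lit 3) (.nd (nat_lit 4) (.nd (nat_lit 5) 
(.lf (nat_lit 198341) (.g (nat_lit 2224) (.e (nat_lit 65652) (nat_lit 27) (.e (nat_lit 426163) (nat_lit 6) (.e (nat_lit 253991) (nat_lit 11) (.e (nat_lit 16409) (nat_lit 2) .nil)))) .nil)) 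
(.lf (nat_lit 198373) (.g (nat_lit 1185) (.e (nat_lit 65653) (nat_lit 27) (.e (nat_lit 426010) (nat_lit 0) (.e (nat_lit 7587) (nat_lit 406) (.e (nat_lit 65652) (nat_lit 27) (.e (nat_lit 425984) (nat_lit 0) (.e (nat_lit 7586) (nat_lit 406) .nil)))))) (.g (nat_lit 5) .nil .nil)))) (.nd (nat_lit 5) 
(.lf (nat_lit 198357) (.g (nat_lit 2351) (.e (nat_lit 65652) (nat_lit 27) (.e (nat_lit 426347) (nat_lit 14) (.e (nat_lit 491566) (nat_lit 12) (.e (nat_lit 385039) (nat_lit 18) .nil)))) .nil)) 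
(.lf (nat_lit 198389) (.g (nat_lit 809) (.e (nat_lit 65653) (nat_lit 27) (.e (nat_lit 426011) (nat_lit 0) (.e (nat_lit 7497) (nat_lit 402) .nil))) .nil)))) (.nd (nat_lit 4) (.nd (nat_lit 5) 
(.lf (nat_lit 198349) (.g (nat_lit 2814) (.e (nat_lit 65652) (nat_lit 27) (.e (nat_lit 426163) (nat_lit 6) (.e (nat_lit 253992) (nat_lit 11) (.e (nat_lit 16416) (nat_lit 3) (.e (nat_lit 204829) (nat_lit 18) .nil))))) .nil)) 
(.lf (nat_lit 198381) (.g (nat_lit 1061) (.e (nat_lit 65653) (nat_lit 27) (.e (nat_lit 426010) (nat_lit 0) (.e (nat_lit 7589) (nat_lit 406) (.e (nat_lit 65652) (nat_lit 27) (.e (nat_lit 425987) (nat_lit 0) (.e (nat_lit 7588) (nat_lit 406) .nil)))))) (.g (nat_lit 0) .nil .nil)))) (.nd (nat_lit 5) 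
(.lf (nat_lit 198365) (.g (nat_lit 1225) (.e (nat_lit 65653) (nat_lit 27) (.e (nat_lit 426009) (nat_lit 0) (.e (nat_lit 7589) (nat_lit 406) (.e (nat_lit 65648) (nat_lit 26) (.e (nat_lit 417796) (nat_lit 0) (.e (nat_lit 5399) (nat_lit 302) .nil)))))) (.g (nat_lit 5) .nil .nil))) 
(.lf (nat_lit 198397) (.g (nat_lit 797) (.e (nat_lit 65653) (nat_lit 27) (.e (nat_lit 426011) (nat_lit 0) (.e (nat_lit 7538) (nat_lit 402) .nil))) .nil)))))) (.nd (nat_lit 2) (.nd (nat_lit 3) (.nd (nat_lit 4) (.nd (nat_lit 5) 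
(.lf (nat_lit 198339) (.g (nat_lit 1145) (.e (nat_lit 65652) (nat_lit 27) (.e (nat_lit 426163) (nat_lit 6) (.e (nat_lit 253963) (nat_lit 9) (.e (nat_lit 442) (nat_lit 33) .nil)))) .nil)) 
(.lf (nat_lit 198371) (.g (nat_lit 1297) (.e (nat_lit 65653) (nat_lit 27) (.e (nat_lit 426010) (nat_lit 0) (.e (nat_lit 7587) (nat_lit 406) (.e (nat_lit 65648) (nat_lit 26) (.e (nat_lit 417796) (nat_lit 0) (.e (nat_lit 5399) (nat_lit 302) .nil)))))) (.g (nat_lit 5) .nil .nil)))) (.nd (nat_lit 5) 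
(.lf (nat_lit 198355) (.g (nat_lit 1730) (.e (nat_lit 65652) (nat_lit 27) (.e (nat_lit 426347) (nat_lit 14) (.e (nat_lit 491550) (nat_lit 9) (.e (nat_lit 336421) (nat_lit 28) (.e (nat_lit 442112) (nat_lit 4) .nil))))) (.g (nat_lit 4) .nil .nil))) 
(.lf (nat_lit 198387) (.g (nat_lit 1293) (.e (nat_lit 65653) (nat_lit 27) (.e (nat_lit 426011) (nat_lit 0) (.e (nat_lit 7490) (nat_lit 402) (.e (nat_lit 1653) (nat_lit 115) .nil)))) .nil)))) (.nd (nat_lit 4) (.nd (nat_lit 5) 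
(.lf (nat_lit 198347) (.g (nat_lit 1851) (.e (nat_lit 65652) (nat_lit 27) (.e (nat_lit 426163) (nat_lit 6) (.e (nat_lit 253992) (nat_lit 11) (.e (nat_lit 16411) (nat_lit 2) (.e (nat_lit 196677) (nat_lit 16) .nil))))) .nil)) 
(.lf (nat_lit 198379) (.g (nat_lit 1099) (.e (nat_lit 65653) (nat_lit 27) (.e (nat_lit 426010) (nat_lit 0) (.e (nat_lit 7589) (nat_lit 406) (.e (nat_lit 65648) (nat_lit 26) (.e (nat_lit 417794) (nat_lit 0) (.e (nat_lit 5405) (nat_lit 302) .nil)))))) (.g (nat_lit 0) .nil .nil)))) (.nd (nat_lit 5) 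
(.lf (nat_lit 198363) (.g (nat_lit 1217) (.e (nat_lit 65653) (nat_lit 27) (.e (nat_lit 426009) (nat_lit 0) (.e (nat_lit 7587) (nat_lit 406) (.e (nat_lit 65648) (nat_lit 26) (.e (nat_lit 417796) (nat_lit 0) (.e (nat_lit 5399) (nat_lit 302) .nil)))))) (.g (nat_lit 5) .nil .nil))) 
(.lf (nat_lit 198395) (.g (nat_lit 2996) (.e (nat_lit 65653) (nat_lit 27) (.e (nat_lit 426011) (nat_lit 0) (.e (nat_lit 7536) (nat_lit 402) (.e (nat_lit 1656) (nat_lit 115) (.e (nat_lit 393234) (nat_lit 17) (.e (nat_lit 7587) (nat_lit 406) .nil)))))) (.g (nat_lit 4) .nil .nil)))))) (.nd (nat_lit 3) (.nd (nat_lit 4) (.nd (nat_lit 5) 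
(.lf (nat_lit 198343) (.g (nat_lit 1832) (.e (nat_lit 65652) (nat_lit 27) (.e (nat_lit 426163) (nat_lit 6) (.e (nat_lit 253991) (nat_lit 11) (.e (nat_lit 16415) (nat_lit 3) .nil)))) .nil)) 
(.lf (nat_lit 198375) (.g (nat_lit 1500) (.e (nat_lit 65653) (nat_lit 27) (.e (nat_lit 426010) (nat_lit 0) (.e (nat_lit 7589) (nat_lit 406) (.e (nat_lit 65633) (nat_lit 15) (.e (nat_lit 7089) (nat_lit 379) (.e (nat_lit 123213) (nat_lit 274) .nil)))))) (.g (nat_lit 0) .nil .nil)))) (.nd (nat_lit 5) 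
(.lf (nat_lit 198359) (.g (nat_lit 2207) (.e (nat_lit 65652) (nat_lit 27) (.e (nat_lit 426347) (nat_lit 14) (.e (nat_lit 491571) (nat_lit 13) (.e (nat_lit 393242) (nat_lit 17) (.e (nat_lit 7936) (nat_lit 406) .nil))))) .nil)) 
(.lf (nat_lit 198391) (.g (nat_lit 797) (.e (nat_lit 65653) (nat_lit 27) (.e (nat_lit 426011) (nat_lit 0) (.e (nat_lit 7513) (nat_lit 402) .nil))) .nil)))) (.nd (nat_lit 4) (.nd (nat_lit 5) 
(.lf (nat_lit 198351) (.g (nat_lit 162) (.e (nat_lit 65652) (nat_lit 27) (.e (nat_lit 426234) (nat_lit 9) (.e (nat_lit 426441) (nat_lit 19) .nil))) .nil)) 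
(.lf (nat_lit 198383) (.g (nat_lit 1023) (.e (nat_lit 65653) (nat_lit 27) (.e (nat_lit 426011) (nat_lit 0) (.e (nat_lit 3555) (nat_lit 220) (.e (nat_lit 720955) (nat_lit 25) .nil)))) .nil))) (.nd (nat_lit 5) 
(.lf (nat_lit 198367) (.g (nat_lit 96) (.e (nat_lit 65653) (nat_lit 27) (.e (nat_lit 426009) (nat_lit 0) (.e (nat_lit 7936) (nat_lit 406) .nil))) .nil)) 
(.lf (nat_lit 198399) (.g (nat_lit 833) (.e (nat_lit 65653) (nat_lit 27) (.e (nat_lit 426011) (nat_lit 0) (.e (nat_lit 7581) (nat_lit 405) .nil))) .nil))))))))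

noncomputable def tv2625 : DT := (.nd (nat_lit 0) (.nd (nat_lit 1) (.nd (nat_lit 2) (.nd (nat_lit 3) (.nd (nat_lit 4) (.nd (nat_lit 5) (.nd (nat_lit 6) 
(.lf (nat_lit 198400) (.g (nat_lit 2431) (.e (nat_lit 65653) (nat_lit 27) (.e (nat_lit 426011) (nat_lit 0) (.e (nat_lit 7581) (nat_lit 405) (.e (nat_lit 57476) (nat_lit 28) .nil)))) .nil)) 
(.lf (nat_lit 198464) (.g (nat_lit 1739) (.e (nat_lit 65653) (nat_lit 27) (.e (nat_lit 426190) (nat_lit 9) (.e (nat_lit 426405) (nat_lit 15) (.e (nat_lit 2175) (nat_lit 143) (.e (nat_lit 712745) (nat_lit 27) (.e (nat_lit 425984) (nat_lit 0) (.e (nat_lit 7586) (nat_lit 406) .nil))))))) (.g (nat_lit 4) .nil .nil)))) (.nd (nat_lit 6) 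
(.lf (nat_lit 198432) (.g (nat_lit 1146) (.e (nat_lit 65653) (nat_lit 27) (.e (nat_lit 426011) (nat_lit 0) (.e (nat_lit 7591) (nat_lit 407) (.e (nat_lit 73733) (nat_lit 0) .nil)))) .nil)) 
(.lf (nat_lit 198496) (.g (nat_lit 1512) (.e (nat_lit 65653) (nat_lit 27) (.e (nat_lit 426341) (nat_lit 14) (.e (nat_lit 491547) (nat_lit 9) (.e (nat_lit 336414) (nat_lit 27) .nil)))) .nil)))) (.nd (nat_lit 5) (.nd (nat_lit 6) 
(.lf (nat_lit 198416) (.g (nat_lit 2289) (.e (nat_lit 65653) (nat_lit 27) (.e (nat_lit 426011) (nat_lit 0) (.e (nat_lit 7589) (nat_lit 406) (.e (nat_lit 65633) (nat_lit 15) (.e (nat_lit 7089) (nat_lit 379) (.e (nat_lit 123213) (nat_lit 274) .nil)))))) (.g (nat_lit 0) .nil .nil))) 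
(.lf (nat_lit 198480) (.g (nat_lit 1469) (.e (nat_lit 65653) (nat_lit 27) (.e (nat_lit 426308) (nat_lit 12) (.e (nat_lit 475209) (nat_lit 41) (.e (nat_lit 712745) (nat_lit 27) (.e (nat_lit 425984) (nat_lit 0) .nil))))) .nil))) (.nd (nat_lit 6) 
(.lf (nat_lit 198448) (.g (nat_lit 2158) (.e (nat_lit 65653) (nat_lit 27) (.e (nat_lit 426012) (nat_lit 0) (.e (nat_lit 3555) (nat_lit 220) (.e (nat_lit 720956) (nat_lit 25) (.e (nat_lit 114716) (nat_lit 22) (.e (nat_lit 90181) (nat_lit 16) (.e (nat_lit 237312) (nat_lit 191) .nil))))))) (.g (nat_lit 6) .nil .nil))) 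
(.lf (nat_lit 198512) (.g (nat_lit 1953) (.e (nat_lit 65653) (nat_lit 27) (.e (nat_lit 426342) (nat_lit 14) (.e (nat_lit 491549) (nat_lit 9) (.e (nat_lit 336421) (nat_lit 28) (.e (nat_lit 442112) (nat_lit 4) .nil))))) (.g (nat_lit 4) .nil .nil)))))) (.nd (nat_lit 4) (.nd (nat_lit 5) (.nd (nat_lit 6) 
(.lf (nat_lit 198408) (.g (nat_lit 4168) (.e (nat_lit 65653) (nat_lit 27) (.e (nat_lit 426011) (nat_lit 0) (.e (nat_lit 7581) (nat_lit 405) (.e (nat_lit 57480) (nat_lit 28) (.e (nat_lit 557105) (nat_lit 14) (.e (nat_lit 180264) (nat_lit 21) (.e (nat_lit 663566) (nat_lit 4) .nil))))))) (.g (nat_lit 6) .nil .nil))) 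
(.lf (nat_lit 198472) (.g (nat_lit 2748) (.e (nat_lit 65653) (nat_lit 27) (.e (nat_lit 426306) (nat_lit 12) (.e (nat_lit 475210) (nat_lit 41) (.e (nat_lit 712745) (nat_lit 27) (.e (nat_lit 425987) (nat_lit 0) .nil))))) .nil))) (.nd (nat_lit 6) 
(.lf (nat_lit 198440) (.g (nat_lit 1691) (.e (nat_lit 65653) (nat_lit 27) (.e (nat_lit 426011) (nat_lit 0) (.e (nat_lit 7593) (nat_lit 407) (.e (nat_lit 73729) (nat_lit 0) (.e (nat_lit 7247) (nat_lit 383) .nil))))) .nil)) 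
(.lf (nat_lit 198504) (.g (nat_lit 1520) (.e (nat_lit 65653) (nat_lit 27) (.e (nat_lit 426341) (nat_lit 14) (.e (nat_lit 491570) (nat_lit 13) (.e (nat_lit 393242) (nat_lit 17) .nil)))) .nil)))) (.nd (nat_lit 5) (.nd (nat_lit 6) 
(.lf (nat_lit 198424) (.g (nat_lit 255) (.e (nat_lit 65653) (nat_lit 27) (.e (nat_lit 426011) (nat_lit 0) (.e (nat_lit 7591) (nat_lit 407) .nil))) .nil)) 
(.lf (nat_lit 198488) (.g (nat_lit 1256) (.e (nat_lit 65653) (nat_lit 27) (.e (nat_lit 426315) (nat_lit 12) (.e (nat_lit 475207) (nat_lit 41) (.e (nat_lit 712749) (nat_lit 28) (.e (nat_lit 442112) (nat_lit 4) .nil))))) (.g (nat_lit 4) .nil .nil)))) (.nd (nat_lit 6) 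
(.lf (nat_lit 198456) (.g (nat_lit 2205) (.e (nat_lit 65653) (nat_lit 27) (.e (nat_lit 426016) (nat_lit 0) (.e (nat_lit 3453) (nat_lit 216) (.e (nat_lit 688182) (nat_lit 17) (.e (nat_lit 73755) (nat_lit 8) (.e (nat_lit 557089) (nat_lit 12) (.e (nat_lit 171776) (nat_lit 191) .nil))))))) (.g (nat_lit 6) .nil .nil))) 
(.lf (nat_lit 198520) (.g (nat_lit 630) (.e (nat_lit 65653) (nat_lit 27) (.e (nat_lit 426342) (nat_lit 14) (.e (nat_lit 491567) (nat_lit 13) (.e (nat_lit 393232) (nat_lit 17) .nil)))) .nil)))))) (.nd (nat_lit 3) (.nd (nat_lit 4) (.nd (nat_lit 5) (.nd (nat_lit 6) 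
(.lf (nat_lit 198404) (.g (nat_lit 3254) (.e (nat_lit 65653) (nat_lit 27) (.e (nat_lit 426011) (nat_lit 0) (.e (nat_lit 7581) (nat_lit 405) (.e (nat_lit 57479) (nat_lit 28) (.e (nat_lit 557105) (nat_lit 14) (.e (nat_lit 180264) (nat_lit 21) (.e (nat_lit 663566) (nat_lit 4) .nil))))))) (.g (nat_lit 4) .nil .nil))) 
(.lf (nat_lit 198468) (.g (nat_lit 370) (.e (nat_lit 65653) (nat_lit 27) (.e (nat_lit 426198) (nat_lit 9) (.e (nat_lit 426444) (nat_lit 19) .nil))) .nil))) (.nd (nat_lit 6) 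
(.lf (nat_lit 198436) (.g (nat_lit 1198) (.e (nat_lit 65653) (nat_lit 27) (.e (nat_lit 426011) (nat_lit 0) (.e (nat_lit 7591) (nat_lit 407) (.e (nat_lit 73776) (nat_lit 26) .nil)))) .nil)) 
(.lf (nat_lit 198500) (.g (nat_lit 1420) (.e (nat_lit 65653) (nat_lit 27) (.e (nat_lit 426341) (nat_lit 14) (.e (nat_lit 491568) (nat_lit 13) (.e (nat_lit 393233) (nat_lit 17) .nil)))) .nil)))) (.nd (nat_lit 5) (.nd (nat_lit 6) 
(.lf (nat_lit 198420) (.g (nat_lit 2230) (.e (nat_lit 65653) (nat_lit 27) (.e (nat_lit 426011) (nat_lit 0) (.e (nat_lit 7589) (nat_lit 406) (.e (nat_lit 65648) (nat_lit 26) (.e (nat_lit 417796) (nat_lit 0) (.e (nat_lit 5401) (nat_lit 302) .nil)))))) (.g (nat_lit 5) .nil .nil))) 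
(.lf (nat_lit 198484) (.g (nat_lit 460) (.e (nat_lit 65653) (nat_lit 27) (.e (nat_lit 426308) (nat_lit 12) (.e (nat_lit 475218) (nat_lit 44) .nil))) .nil))) (.nd (nat_lit 6) 
(.lf (nat_lit 198452) (.g (nat_lit 1628) (.e (nat_lit 65653) (nat_lit 27) (.e (nat_lit 426012) (nat_lit 0) (.e (nat_lit 7587) (nat_lit 406) (.e (nat_lit 65648) (nat_lit 26) (.e (nat_lit 417794) (nat_lit 0) (.e (nat_lit 5405) (nat_lit 302) .nil)))))) (.g (nat_lit 0) .nil .nil))) 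
(.lf (nat_lit 198516) (.g (nat_lit 755) (.e (nat_lit 65653) (nat_lit 27) (.e (nat_lit 426342) (nat_lit 14) (.e (nat_lit 491552) (nat_lit 9) (.e (nat_lit 336412) (nat_lit 27) (.e (nat_lit 426012) (nat_lit 0) .nil))))) .nil))))) (.nd (nat_lit 4) (.nd (nat_lit 5) (.nd (nat_lit 6) 
(.lf (nat_lit 198412) (.g (nat_lit 2122) (.e (nat_lit 65653) (nat_lit 27) (.e (nat_lit 426011) (nat_lit 0) (.e (nat_lit 7587) (nat_lit 406) (.e (nat_lit 65648) (nat_lit 26) (.e (nat_lit 417795) (nat_lit 0) (.e (nat_lit 5399) (nat_lit 302) .nil)))))) (.g (nat_lit 5) .nil .nil))) 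
(.lf (nat_lit 198476) (.g (nat_lit 1547) (.e (nat_lit 65653) (nat_lit 27) (.e (nat_lit 426308) (nat_lit 12) (.e (nat_lit 475201) (nat_lit 40) (.e (nat_lit 704841) (nat_lit 15) (.e (nat_lit 57813) (nat_lit 246) (.e (nat_lit 57897) (nat_lit 274) .nil)))))) (.g (nat_lit 5) .nil .nil)))) (.nd (nat_lit 6) 
(.lf (nat_lit 198444) (.g (nat_lit 1185) (.e (nat_lit 65653) (nat_lit 27) (.e (nat_lit 426011) (nat_lit 0) (.e (nat_lit 7593) (nat_lit 407) (.e (nat_lit 73731) (nat_lit 0) .nil)))) .nil)) 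
(.lf (nat_lit 198508) (.g (nat_lit 1830) (.e (nat_lit 65653) (nat_lit 27) (.e (nat_lit 426342) (nat_lit 14) (.e (nat_lit 491547) (nat_lit 9) (.e (nat_lit 336414) (nat_lit 27) (.e (nat_lit 425987) (nat_lit 0) (.e (nat_lit 7586) (nat_lit 406) .nil)))))) (.g (nat_lit 4) .nil .nil))))) (.nd (nat_lit 5) (.nd (nat_lit 6) 
(.lf (nat_lit 198428) (.g (nat_lit 2953) (.e (nat_lit 65653) (nat_lit 27) (.e (nat_lit 426011) (nat_lit 0) (.e (nat_lit 7591) (nat_lit 407) (.e (nat_lit 73729) (nat_lit 0) (.e (nat_lit 7263) (nat_lit 384) (.e (nat_lit 57354) (nat_lit 0) (.e (nat_lit 7936) (nat_lit 347) .nil))))))) (.g (nat_lit 6) .nil .nil))) 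
(.lf (nat_lit 198492) (.g (nat_lit 1378) (.e (nat_lit 65653) (nat_lit 27) (.e (nat_lit 426315) (nat_lit 12) (.e (nat_lit 475209) (nat_lit 41) (.e (nat_lit 712749) (nat_lit 28) (.e (nat_lit 442112) (nat_lit 4) .nil))))) (.g (nat_lit 4) .nil .nil)))) (.nd (nat_lit 6) 
(.lf (nat_lit 198460) (.g (nat_lit 549) (.e (nat_lit 65653) (nat_lit 27) (.e (nat_lit 426190) (nat_lit 9) (.e (nat_lit 426375) (nat_lit 15) .nil))) .nil)) 
(.lf (nat_lit 198524) (.g (nat_lit 1721) (.e (nat_lit 65653) (nat_lit 27) (.e (nat_lit 426342) (nat_lit 14) (.e (nat_lit 491570) (nat_lit 13) (.e (nat_lit 393231) (nat_lit 17) (.e (nat_lit 7589) (nat_lit 406) .nil))))) .nil))))))) (.nd (nat_lit 2) (.nd (nat_lit 3) (.nd (nat_lit 4) (.nd (nat_lit 5) (.nd (nat_lit 6) 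
(.lf (nat_lit 198402) (.g (nat_lit 3188) (.e (nat_lit 65653) (nat_lit 27) (.e (nat_lit 426011) (nat_lit 0) (.e (nat_lit 7581) (nat_lit 405) (.e (nat_lit 57477) (nat_lit 28) (.e (nat_lit 557104) (nat_lit 14) (.e (nat_lit 180233) (nat_lit 0) (.e (nat_lit 5817) (nat_lit 320) (.e (nat_lit 1193) (nat_lit 88) .nil)))))))) (.g (nat_lit 5) .nil .nil))) 
(.lf (nat_lit 198466) (.g (nat_lit 669) (.e (nat_lit 65653) (nat_lit 27) (.e (nat_lit 426190) (nat_lit 9) (.e (nat_lit 426442) (nat_lit 19) (.e (nat_lit 106556) (nat_lit 15) .nil)))) .nil))) (.nd (nat_lit 6) 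
(.lf (nat_lit 198434) (.g (nat_lit 1142) (.e (nat_lit 65653) (nat_lit 27) (.e (nat_lit 426011) (nat_lit 0) (.e (nat_lit 7591) (nat_lit 407) (.e (nat_lit 73773) (nat_lit 25) .nil)))) .nil)) 
(.lf (nat_lit 198498) (.g (nat_lit 2102) (.e (nat_lit 65653) (nat_lit 27) (.e (nat_lit 426341) (nat_lit 14) (.e (nat_lit 491550) (nat_lit 9) (.e (nat_lit 336421) (nat_lit 28) (.e (nat_lit 442112) (nat_lit 4) .nil))))) (.g (nat_lit 4) .nil .nil))))) (.nd (nat_lit 5) (.nd (nat_lit 6) 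
(.lf (nat_lit 198418) (.g (nat_lit 2051) (.e (nat_lit 65653) (nat_lit 27) (.e (nat_lit 426011) (nat_lit 0) (.e (nat_lit 7589) (nat_lit 406) (.e (nat_lit 65648) (nat_lit 26) (.e (nat_lit 417795) (nat_lit 0) (.e (nat_lit 5401) (nat_lit 302) .nil)))))) (.g (nat_lit 5) .nil .nil))) 
(.lf (nat_lit 198482) (.g (nat_lit 1482) (.e (nat_lit 65653) (nat_lit 27) (.e (nat_lit 426308) (nat_lit 12) (.e (nat_lit 475210) (nat_lit 41) (.e (nat_lit 712747) (nat_lit 28) (.e (nat_lit 442112) (nat_lit 4) .nil))))) (.g (nat_lit 4) .nil .nil)))) (.nd (nat_lit 6) 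
(.lf (nat_lit 198450) (.g (nat_lit 413) (.e (nat_lit 65653) (nat_lit 27) (.e (nat_lit 426012) (nat_lit 0) (.e (nat_lit 7491) (nat_lit 402) .nil))) .nil)) 
(.lf (nat_lit 198514) (.g (nat_lit 651) (.e (nat_lit 65653) (nat_lit 27) (.e (nat_lit 426342) (nat_lit 14) (.e (nat_lit 491552) (nat_lit 9) (.e (nat_lit 336248) (nat_lit 15) .nil)))) .nil))))) (.nd (nat_lit 4) (.nd (nat_lit 5) (.nd (nat_lit 6) 
(.lf (nat_lit 198410) (.g (nat_lit 3993) (.e (nat_lit 65653) (nat_lit 27) (.e (nat_lit 426011) (nat_lit 0) (.e (nat_lit 7581) (nat_lit 405) (.e (nat_lit 57480) (nat_lit 28) (.e (nat_lit 557105) (nat_lit 14) (.e (nat_lit 180265) (nat_lit 21) (.e (nat_lit 671488) (nat_lit 4) .nil))))))) (.g (nat_lit 5) .nil .nil))) 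
(.lf (nat_lit 198474) (.g (nat_lit 1980) (.e (nat_lit 65653) (nat_lit 27) (.e (nat_lit 426306) (nat_lit 12) (.e (nat_lit 475211) (nat_lit 41) (.e (nat_lit 712749) (nat_lit 28) .nil)))) .nil))) (.nd (nat_lit 6) 
(.lf (nat_lit 198442) (.g (nat_lit 3220) (.e (nat_lit 65653) (nat_lit 27) (.e (nat_lit 426011) (nat_lit 0) (.e (nat_lit 7593) (nat_lit 407) (.e (nat_lit 73729) (nat_lit 0) (.e (nat_lit 7265) (nat_lit 384) (.e (nat_lit 57347) (nat_lit 0) (.e (nat_lit 7936) (nat_lit 347) .nil))))))) (.g (nat_lit 6) .nil .nil))) 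
(.lf (nat_lit 198506) (.g (nat_lit 1957) (.e (nat_lit 65653) (nat_lit 27) (.e (nat_lit 426342) (nat_lit 14) (.e (nat_lit 491547) (nat_lit 9) (.e (nat_lit 336414) (nat_lit 27) (.e (nat_lit 425984) (nat_lit 0) (.e (nat_lit 7586) (nat_lit 406) .nil)))))) (.g (nat_lit 4) .nil .nil))))) (.nd (nat_lit 5) (.nd (nat_lit 6) 
(.lf (nat_lit 198426) (.g (nat_lit 1840) (.e (nat_lit 65653) (nat_lit 27) (.e (nat_lit 426011) (nat_lit 0) (.e (nat_lit 7591) (nat_lit 407) (.e (nat_lit 73729) (nat_lit 0) (.e (nat_lit 7247) (nat_lit 383) .nil))))) .nil)) 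
(.lf (nat_lit 198490) (.g (nat_lit 1492) (.e (nat_lit 65653) (nat_lit 27) (.e (nat_lit 426315) (nat_lit 12) (.e (nat_lit 475209) (nat_lit 41) (.e (nat_lit 712745) (nat_lit 27) (.e (nat_lit 425984) (nat_lit 0) .nil))))) .nil))) (.nd (nat_lit 6) 
(.lf (nat_lit 198458) (.g (nat_lit 1196) (.e (nat_lit 65653) (nat_lit 27) (.e (nat_lit 426172) (nat_lit 7) (.e (nat_lit 409648) (nat_lit 18) (.e (nat_lit 311040) (nat_lit 25) .nil)))) .nil)) 
(.lf (nat_lit 198522) (.g (nat_lit 2754) (.e (nat_lit 65653) (nat_lit 27) (.e (nat_lit 426342) (nat_lit 14) (.e (nat_lit 491569) (nat_lit 13) (.e (nat_lit 393234) (nat_lit 17) (.e (nat_lit 7589) (nat_lit 406) .nil))))) (.g (nat_lit 5) .nil .nil))))))) (.nd (nat_lit 3) (.nd (nat_lit 4) (.nd (nat_lit 5) (.nd (nat_lit 6) 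
(.lf (nat_lit 198406) (.g (nat_lit 3018) (.e (nat_lit 65653) (nat_lit 27) (.e (nat_lit 426011) (nat_lit 0) (.e (nat_lit 7581) (nat_lit 405) (.e (nat_lit 57480) (nat_lit 28) (.e (nat_lit 557103) (nat_lit 14) (.e (nat_lit 180263) (nat_lit 21) (.e (nat_lit 663566) (nat_lit 4) .nil))))))) (.g (nat_lit 4) .nil .nil))) 
(.lf (nat_lit 198470) (.g (nat_lit 2380) (.e (nat_lit 65653) (nat_lit 27) (.e (nat_lit 426213) (nat_lit 9) (.e (nat_lit 426396) (nat_lit 15) (.e (nat_lit 2059) (nat_lit 142) (.e (nat_lit 704595) (nat_lit 5) (.e (nat_lit 188160) (nat_lit 36) .nil)))))) (.g (nat_lit 5) .nil .nil)))) (.nd (nat_lit 6) 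
(.lf (nat_lit 198438) (.g (nat_lit 2026) (.e (nat_lit 65653) (nat_lit 27) (.e (nat_lit 426011) (nat_lit 0) (.e (nat_lit 7591) (nat_lit 407) (.e (nat_lit 73776) (nat_lit 26) (.e (nat_lit 778455) (nat_lit 10) (.e (nat_lit 16128) (nat_lit 254) .nil)))))) (.g (nat_lit 5) .nil .nil))) 
(.lf (nat_lit 198502) (.g (nat_lit 1678) (.e (nat_lit 65653) (nat_lit 27) (.e (nat_lit 426341) (nat_lit 14) (.e (nat_lit 491570) (nat_lit 13) (.e (nat_lit 393230) (nat_lit 17) (.e (nat_lit 7587) (nat_lit 406) .nil))))) .nil)))) (.nd (nat_lit 5) (.nd (nat_lit 6) 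
(.lf (nat_lit 198422) (.g (nat_lit 1486) (.e (nat_lit 65653) (nat_lit 27) (.e (nat_lit 426011) (nat_lit 0) (.e (nat_lit 7589) (nat_lit 406) (.e (nat_lit 65651) (nat_lit 27) .nil)))) .nil)) 
(.lf (nat_lit 198486) (.g (nat_lit 2968) (.e (nat_lit 65653) (nat_lit 27) (.e (nat_lit 426314) (nat_lit 12) (.e (nat_lit 475210) (nat_lit 41) (.e (nat_lit 712745) (nat_lit 27) (.e (nat_lit 425984) (nat_lit 0) .nil))))) .nil))) (.nd (nat_lit 6) 
(.lf (nat_lit 198454) (.g (nat_lit 1912) (.e (nat_lit 65653) (nat_lit 27) (.e (nat_lit 426012) (nat_lit 0) (.e (nat_lit 7587) (nat_lit 406) (.e (nat_lit 65648) (nat_lit 26) (.e (nat_lit 417796) (nat_lit 0) (.e (nat_lit 5406) (nat_lit 302) .nil)))))) (.g (nat_lit 6) .nil .nil))) 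
(.lf (nat_lit 198518) (.g (nat_lit 954) (.e (nat_lit 65653) (nat_lit 27) (.e (nat_lit 426342) (nat_lit 14) (.e (nat_lit 491556) (nat_lit 9) (.e (nat_lit 336437) (nat_lit 31) .nil)))) .nil))))) (.nd (nat_lit 4) (.nd (nat_lit 5) (.nd (nat_lit 6) 
(.lf (nat_lit 198414) (.g (nat_lit 2211) (.e (nat_lit 65653) (nat_lit 27) (.e (nat_lit 426011) (nat_lit 0) (.e (nat_lit 7587) (nat_lit 406) (.e (nat_lit 65648) (nat_lit 26) (.e (nat_lit 417796) (nat_lit 0) (.e (nat_lit 5401) (nat_lit 302) .nil)))))) (.g (nat_lit 5) .nil .nil))) 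
(.lf (nat_lit 198478) (.g (nat_lit 417) (.e (nat_lit 65653) (nat_lit 27) (.e (nat_lit 426308) (nat_lit 12) (.e (nat_lit 475208) (nat_lit 41) .nil))) .nil))) (.nd (nat_lit 6) 
(.lf (nat_lit 198446) (.g (nat_lit 771) (.e (nat_lit 65653) (nat_lit 27) (.e (nat_lit 426011) (nat_lit 0) (.e (nat_lit 7601) (nat_lit 409) .nil))) .nil)) 
(.lf (nat_lit 198510) (.g (nat_lit 1390) (.e (nat_lit 65653) (nat_lit 27) (.e (nat_lit 426342) (nat_lit 14) (.e (nat_lit 491547) (nat_lit 9) (.e (nat_lit 336438) (nat_lit 31) (.e (nat_lit 466688) (nat_lit 4) .nil))))) (.g (nat_lit 4) .nil .nil))))) (.nd (nat_lit 5) (.nd (nat_lit 6) 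
(.lf (nat_lit 198430) (.g (nat_lit 1344) (.e (nat_lit 65653) (nat_lit 27) (.e (nat_lit 426011) (nat_lit 0) (.e (nat_lit 7591) (nat_lit 407) (.e (nat_lit 73730) (nat_lit 0) .nil)))) .nil)) 
(.lf (nat_lit 198494) (.g (nat_lit 530) (.e (nat_lit 65653) (nat_lit 27) (.e (nat_lit 426315) (nat_lit 12) (.e (nat_lit 475219) (nat_lit 44) .nil))) .nil))) (.nd (nat_lit 6) 
(.lf (nat_lit 198462) (.g (nat_lit 1766) (.e (nat_lit 65653) (nat_lit 27) (.e (nat_lit 426190) (nat_lit 9) (.e (nat_lit 426378) (nat_lit 15) (.e (nat_lit 2174) (nat_lit 143) (.e (nat_lit 712745) (nat_lit 27) (.e (nat_lit 425984) (nat_lit 0) (.e (nat_lit 7588) (nat_lit 406) .nil))))))) (.g (nat_lit 4) .nil .nil))) 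
(.lf (nat_lit 198526) (.g (nat_lit 191) (.e (nat_lit 65653) (nat_lit 27) (.e (nat_lit 426343) (nat_lit 14) (.e (nat_lit 491546) (nat_lit 9) .nil))) .nil)))))))) (.nd (nat_lit 1) (.nd (nat_lit 2) (.nd (nat_lit 3) (.nd (nat_lit 4) (.nd (nat_lit 5) (.nd (nat_lit 6) 
(.lf (nat_lit 198401) (.g (nat_lit 1676) (.e (nat_lit 65653) (nat_lit 27) (.e (nat_lit 426011) (nat_lit 0) (.e (nat_lit 7581) (nat_lit 405) (.e (nat_lit 57477) (nat_lit 28) .nil)))) .nil)) 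
(.lf (nat_lit 198465) (.g (nat_lit 2043) (.e (nat_lit 65653) (nat_lit 27) (.e (nat_lit 426190) (nat_lit 9) (.e (nat_lit 426405) (nat_lit 15) (.e (nat_lit 2175) (nat_lit 143) (.e (nat_lit 712745) (nat_lit 27) (.e (nat_lit 425984) (nat_lit 0) (.e (nat_lit 7588) (nat_lit 406) .nil))))))) (.g (nat_lit 5) .nil .nil)))) (.nd (nat_lit 6) 
(.lf (nat_lit 198433) (.g (nat_lit 1662) (.e (nat_lit 65653) (nat_lit 27) (.e (nat_lit 426011) (nat_lit 0) (.e (nat_lit 7591) (nat_lit 407) (.e (nat_lit 73733) (nat_lit 0) (.e (nat_lit 7255) (nat_lit 383) .nil))))) .nil)) 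
(.lf (nat_lit 198497) (.g (nat_lit 2088) (.e (nat_lit 65653) (nat_lit 27) (.e (nat_lit 426341) (nat_lit 14) (.e (nat_lit 491549) (nat_lit 9) (.e (nat_lit 336421) (nat_lit 28) (.e (nat_lit 442112) (nat_lit 4) .nil))))) (.g (nat_lit 4) .nil .nil))))) (.nd (nat_lit 5) (.nd (nat_lit 6) 
(.lf (nat_lit 198417) (.g (nat_lit 1798) (.e (nat_lit 65653) (nat_lit 27) (.e (nat_lit 426011) (nat_lit 0) (.e (nat_lit 7589) (nat_lit 406) (.e (nat_lit 65648) (nat_lit 26) (.e (nat_lit 417795) (nat_lit 0) (.e (nat_lit 5399) (nat_lit 302) .nil)))))) (.g (nat_lit 5) .nil .nil))) 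
(.lf (nat_lit 198481) (.g (nat_lit 2600) (.e (nat_lit 65653) (nat_lit 27) (.e (nat_lit 426308) (nat_lit 12) (.e (nat_lit 475210) (nat_lit 41) (.e (nat_lit 712745) (nat_lit 27) (.e (nat_lit 425987) (nat_lit 0) .nil))))) .nil))) (.nd (nat_lit 6) 
(.lf (nat_lit 198449) (.g (nat_lit 413) (.e (nat_lit 65653) (nat_lit 27) (.e (nat_lit 426012) (nat_lit 0) (.e (nat_lit 3557) (nat_lit 220) .nil))) .nil)) 
(.lf (nat_lit 198513) (.g (nat_lit 173) (.e (nat_lit 65653) (nat_lit 27) (.e (nat_lit 426342) (nat_lit 14) (.e (nat_lit 491552) (nat_lit 9) .nil))) .nil))))) (.nd (nat_lit 4) (.nd (nat_lit 5) (.nd (nat_lit 6) 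
(.lf (nat_lit 198409) (.g (nat_lit 4071) (.e (nat_lit 65653) (nat_lit 27) (.e (nat_lit 426011) (nat_lit 0) (.e (nat_lit 7581) (nat_lit 405) (.e (nat_lit 57480) (nat_lit 28) (.e (nat_lit 557105) (nat_lit 14) (.e (nat_lit 180265) (nat_lit 21) (.e (nat_lit 663566) (nat_lit 4) .nil))))))) (.g (nat_lit 5) .nil .nil))) 
(.lf (nat_lit 198473) (.g (nat_lit 1880) (.e (nat_lit 65653) (nat_lit 27) (.e (nat_lit 426306) (nat_lit 12) (.e (nat_lit 475211) (nat_lit 41) (.e (nat_lit 712745) (nat_lit 27) .nil)))) .nil))) (.nd (nat_lit 6) 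
(.lf (nat_lit 198441) (.g (nat_lit 2757) (.e (nat_lit 65653) (nat_lit 27) (.e (nat_lit 426011) (nat_lit 0) (.e (nat_lit 7593) (nat_lit 407) (.e (nat_lit 73729) (nat_lit 0) (.e (nat_lit 7263) (nat_lit 384) (.e (nat_lit 57354) (nat_lit 0) (.e (nat_lit 7936) (nat_lit 347) .nil))))))) (.g (nat_lit 6) .nil .nil))) 
(.lf (nat_lit 198505) (.g (nat_lit 1351) (.e (nat_lit 65653) (nat_lit 27) (.e (nat_lit 426341) (nat_lit 14) (.e (nat_lit 491570) (nat_lit 13) (.e (nat_lit 393243) (nat_lit 17) .nil)))) .nil)))) (.nd (nat_lit 5) (.nd (nat_lit 6) 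
(.lf (nat_lit 198425) (.g (nat_lit 1102) (.e (nat_lit 65653) (nat_lit 27) (.e (nat_lit 426011) (nat_lit 0) (.e (nat_lit 7591) (nat_lit 407) (.e (nat_lit 73729) (nat_lit 0) .nil)))) .nil)) 
(.lf (nat_lit 198489) (.g (nat_lit 1018) (.e (nat_lit 65653) (nat_lit 27) (.e (nat_lit 426315) (nat_lit 12) (.e (nat_lit 475208) (nat_lit 41) (.e (nat_lit 712749) (nat_lit 28) (.e (nat_lit 442112) (nat_lit 4) .nil))))) (.g (nat_lit 4) .nil .nil)))) (.nd (nat_lit 6) 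
(.lf (nat_lit 198457) (.g (nat_lit 1259) (.e (nat_lit 65653) (nat_lit 27) (.e (nat_lit 426098) (nat_lit 1) (.e (nat_lit 164151) (nat_lit 152) (.e (nat_lit 1207) (nat_lit 89) .nil)))) .nil)) 
(.lf (nat_lit 198521) (.g (nat_lit 1128) (.e (nat_lit 65653) (nat_lit 27) (.e (nat_lit 426342) (nat_lit 14) (.e (nat_lit 491568) (nat_lit 13) (.e (nat_lit 393232) (nat_lit 17) .nil)))) .nil)))))) (.nd (nat_lit 3) (.nd (nat_lit 4) (.nd (nat_lit 5) (.nd (nat_lit 6) 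
(.lf (nat_lit 198405) (.g (nat_lit 1861) (.e (nat_lit 65653) (nat_lit 27) (.e (nat_lit 426011) (nat_lit 0) (.e (nat_lit 7581) (nat_lit 405) (.e (nat_lit 57480) (nat_lit 28) .nil)))) .nil)) 
(.lf (nat_lit 198469) (.g (nat_lit 3325) (.e (nat_lit 65653) (nat_lit 27) (.e (nat_lit 426204) (nat_lit 9) (.e (nat_lit 426412) (nat_lit 15) (.e (nat_lit 2059) (nat_lit 142) (.e (nat_lit 704595) (nat_lit 5) (.e (nat_lit 188160) (nat_lit 36) .nil)))))) (.g (nat_lit 5) .nil .nil)))) (.nd (nat_lit 6) 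
(.lf (nat_lit 198437) (.g (nat_lit 1597) (.e (nat_lit 65653) (nat_lit 27) (.e (nat_lit 426011) (nat_lit 0) (.e (nat_lit 7591) (nat_lit 407) (.e (nat_lit 73776) (nat_lit 26) (.e (nat_lit 778453) (nat_lit 10) .nil))))) .nil)) 
(.lf (nat_lit 198501) (.g (nat_lit 274) (.e (nat_lit 65653) (nat_lit 27) (.e (nat_lit 426341) (nat_lit 14) (.e (nat_lit 491570) (nat_lit 13) .nil))) .nil)))) (.nd (nat_lit 5) (.nd (nat_lit 6) 
(.lf (nat_lit 198421) (.g (nat_lit 1754) (.e (nat_lit 65653) (nat_lit 27) (.e (nat_lit 426011) (nat_lit 0) (.e (nat_lit 7589) (nat_lit 406) (.e (nat_lit 65648) (nat_lit 26) (.e (nat_lit 417796) (nat_lit 0) (.e (nat_lit 5406) (nat_lit 302) .nil)))))) (.g (nat_lit 5) .nil .nil))) 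
(.lf (nat_lit 198485) (.g (nat_lit 2714) (.e (nat_lit 65653) (nat_lit 27) (.e (nat_lit 426313) (nat_lit 12) (.e (nat_lit 475210) (nat_lit 41) (.e (nat_lit 712745) (nat_lit 27) (.e (nat_lit 425984) (nat_lit 0) .nil))))) .nil))) (.nd (nat_lit 6) 
(.lf (nat_lit 198453) (.g (nat_lit 1729) (.e (nat_lit 65653) (nat_lit 27) (.e (nat_lit 426012) (nat_lit 0) (.e (nat_lit 7587) (nat_lit 406) (.e (nat_lit 65648) (nat_lit 26) (.e (nat_lit 417795) (nat_lit 0) (.e (nat_lit 5406) (nat_lit 302) .nil)))))) (.g (nat_lit 6) .nil .nil))) 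
(.lf (nat_lit 198517) (.g (nat_lit 181) (.e (nat_lit 65653) (nat_lit 27) (.e (nat_lit 426342) (nat_lit 14) (.e (nat_lit 491556) (nat_lit 9) .nil))) .nil))))) (.nd (nat_lit 4) (.nd (nat_lit 5) (.nd (nat_lit 6) 
(.lf (nat_lit 198413) (.g (nat_lit 2519) (.e (nat_lit 65653) (nat_lit 27) (.e (nat_lit 426011) (nat_lit 0) (.e (nat_lit 7587) (nat_lit 406) (.e (nat_lit 65648) (nat_lit 26) (.e (nat_lit 417796) (nat_lit 0) (.e (nat_lit 5399) (nat_lit 302) .nil)))))) (.g (nat_lit 5) .nil .nil))) 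
(.lf (nat_lit 198477) (.g (nat_lit 443) (.e (nat_lit 65653) (nat_lit 27) (.e (nat_lit 426308) (nat_lit 12) (.e (nat_lit 483072) (nat_lit 40) .nil))) .nil))) (.nd (nat_lit 6) 
(.lf (nat_lit 198445) (.g (nat_lit 1311) (.e (nat_lit 65653) (nat_lit 27) (.e (nat_lit 426011) (nat_lit 0) (.e (nat_lit 7593) (nat_lit 407) (.e (nat_lit 73775) (nat_lit 26) .nil)))) .nil)) 
(.lf (nat_lit 198509) (.g (nat_lit 1411) (.e (nat_lit 65653) (nat_lit 27) (.e (nat_lit 426342) (nat_lit 14) (.e (nat_lit 491547) (nat_lit 9) (.e (nat_lit 336421) (nat_lit 28) (.e (nat_lit 442112) (nat_lit 4) .nil))))) .nil)))) (.nd (nat_lit 5) (.nd (nat_lit 6) 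
(.lf (nat_lit 198429) (.g (nat_lit 3486) (.e (nat_lit 65653) (nat_lit 27) (.e (nat_lit 426011) (nat_lit 0) (.e (nat_lit 7591) (nat_lit 407) (.e (nat_lit 73729) (nat_lit 0) (.e (nat_lit 7265) (nat_lit 384) (.e (nat_lit 57347) (nat_lit 0) (.e (nat_lit 7936) (nat_lit 347) .nil))))))) (.g (nat_lit 6) .nil .nil))) 
(.lf (nat_lit 198493) (.g (nat_lit 533) (.e (nat_lit 65653) (nat_lit 27) (.e (nat_lit 426315) (nat_lit 12) (.e (nat_lit 475218) (nat_lit 44) .nil))) .nil))) (.nd (nat_lit 6) 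
(.lf (nat_lit 198461) (.g (nat_lit 549) (.e (nat_lit 65653) (nat_lit 27) (.e (nat_lit 426190) (nat_lit 9) (.e (nat_lit 426376) (nat_lit 15) .nil))) .nil)) 
(.lf (nat_lit 198525) (.g (nat_lit 1836) (.e (nat_lit 65653) (nat_lit 27) (.e (nat_lit 426342) (nat_lit 14) (.e (nat_lit 491570) (nat_lit 13) (.e (nat_lit 393238) (nat_lit 17) (.e (nat_lit 7936) (nat_lit 406) .nil))))) (.g (nat_lit 4) .nil .nil)))))))) (.nd (nat_lit 2) (.nd (nat_lit 3) (.nd (nat_lit 4) (.nd (nat_lit 5) (.nd (nat_lit 6) 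
(.lf (nat_lit 198403) (.g (nat_lit 3403) (.e (nat_lit 65653) (nat_lit 27) (.e (nat_lit 426011) (nat_lit 0) (.e (nat_lit 7581) (nat_lit 405) (.e (nat_lit 57477) (nat_lit 28) (.e (nat_lit 557104) (nat_lit 14) (.e (nat_lit 180233) (nat_lit 0) (.e (nat_lit 5818) (nat_lit 320) (.e (nat_lit 1193) (nat_lit 88) .nil)))))))) (.g (nat_lit 5) .nil .nil))) 
(.lf (nat_lit 198467) (.g (nat_lit 665) (.e (nat_lit 65653) (nat_lit 27) (.e (nat_lit 426190) (nat_lit 9) (.e (nat_lit 426444) (nat_lit 19) (.e (nat_lit 106556) (nat_lit 15) .nil)))) .nil))) (.nd (nat_lit 6) 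
(.lf (nat_lit 198435) (.g (nat_lit 1543) (.e (nat_lit 65653) (nat_lit 27) (.e (nat_lit 426011) (nat_lit 0) (.e (nat_lit 7591) (nat_lit 407) (.e (nat_lit 73775) (nat_lit 26) .nil)))) .nil)) 
(.lf (nat_lit 198499) (.g (nat_lit 889) (.e (nat_lit 65653) (nat_lit 27) (.e (nat_lit 426341) (nat_lit 14) (.e (nat_lit 491567) (nat_lit 13) (.e (nat_lit 393234) (nat_lit 17) .nil)))) .nil)))) (.nd (nat_lit 5) (.nd (nat_lit 6) 
(.lf (nat_lit 198419) (.g (nat_lit 2198) (.e (nat_lit 65653) (nat_lit 27) (.e (nat_lit 426011) (nat_lit 0) (.e (nat_lit 7589) (nat_lit 406) (.e (nat_lit 65648) (nat_lit 26) (.e (nat_lit 417796) (nat_lit 0) (.e (nat_lit 5399) (nat_lit 302) .nil)))))) (.g (nat_lit 5) .nil .nil))) 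
(.lf (nat_lit 198483) (.g (nat_lit 1129) (.e (nat_lit 65653) (nat_lit 27) (.e (nat_lit 426308) (nat_lit 12) (.e (nat_lit 475210) (nat_lit 41) (.e (nat_lit 712749) (nat_lit 28) .nil)))) .nil))) (.nd (nat_lit 6) 
(.lf (nat_lit 198451) (.g (nat_lit 599) (.e (nat_lit 65653) (nat_lit 27) (.e (nat_lit 426012) (nat_lit 0) (.e (nat_lit 7587) (nat_lit 406) (.e (nat_lit 73472) (nat_lit 15) .nil)))) .nil)) 
(.lf (nat_lit 198515) (.g (nat_lit 539) (.e (nat_lit 65653) (nat_lit 27) (.e (nat_lit 426342) (nat_lit 14) (.e (nat_lit 491552) (nat_lit 9) (.e (nat_lit 336358) (nat_lit 25) .nil)))) .nil))))) (.nd (nat_lit 4) (.nd (nat_lit 5) (.nd (nat_lit 6) 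
(.lf (nat_lit 198411) (.g (nat_lit 202) (.e (nat_lit 65653) (nat_lit 27) (.e (nat_lit 426011) (nat_lit 0) (.e (nat_lit 7587) (nat_lit 406) .nil))) .nil)) 
(.lf (nat_lit 198475) (.g (nat_lit 417) (.e (nat_lit 65653) (nat_lit 27) (.e (nat_lit 426307) (nat_lit 12) (.e (nat_lit 475201) (nat_lit 40) (.e (nat_lit 704841) (nat_lit 15) .nil)))) .nil))) (.nd (nat_lit 6) 
(.lf (nat_lit 198443) (.g (nat_lit 1269) (.e (nat_lit 65653) (nat_lit 27) (.e (nat_lit 426011) (nat_lit 0) (.e (nat_lit 7593) (nat_lit 407) (.e (nat_lit 73730) (nat_lit 0) .nil)))) .nil)) 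
(.lf (nat_lit 198507) (.g (nat_lit 1760) (.e (nat_lit 65653) (nat_lit 27) (.e (nat_lit 426342) (nat_lit 14) (.e (nat_lit 491547) (nat_lit 9) (.e (nat_lit 336414) (nat_lit 27) (.e (nat_lit 425987) (nat_lit 0) .nil))))) .nil)))) (.nd (nat_lit 5) (.nd (nat_lit 6) 
(.lf (nat_lit 198427) (.g (nat_lit 2048) (.e (nat_lit 65653) (nat_lit 27) (.e (nat_lit 426011) (nat_lit 0) (.e (nat_lit 7591) (nat_lit 407) (.e (nat_lit 73729) (nat_lit 0) (.e (nat_lit 7261) (nat_lit 384) (.e (nat_lit 57347) (nat_lit 0) (.e (nat_lit 7936) (nat_lit 347) .nil))))))) (.g (nat_lit 4) .nil .nil))) 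
(.lf (nat_lit 198491) (.g (nat_lit 1344) (.e (nat_lit 65653) (nat_lit 27) (.e (nat_lit 426315) (nat_lit 12) (.e (nat_lit 475209) (nat_lit 41) (.e (nat_lit 712747) (nat_lit 28) (.e (nat_lit 442112) (nat_lit 4) .nil))))) (.g (nat_lit 4) .nil .nil)))) (.nd (nat_lit 6) 
(.lf (nat_lit 198459) (.g (nat_lit 1144) (.e (nat_lit 65653) (nat_lit 27) (.e (nat_lit 426189) (nat_lit 9) (.e (nat_lit 426405) (nat_lit 15) (.e (nat_lit 2175) (nat_lit 143) (.e (nat_lit 712745) (nat_lit 27) (.e (nat_lit 425984) (nat_lit 0) (.e (nat_lit 7588) (nat_lit 406) .nil))))))) (.g (nat_lit 4) .nil .nil))) 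
(.lf (nat_lit 198523) (.g (nat_lit 1433) (.e (nat_lit 65653) (nat_lit 27) (.e (nat_lit 426342) (nat_lit 14) (.e (nat_lit 491570) (nat_lit 13) (.e (nat_lit 393230) (nat_lit 17) .nil)))) .nil)))))) (.nd (nat_lit 3) (.nd (nat_lit 4) (.nd (nat_lit 5) (.nd (nat_lit 6) 
(.lf (nat_lit 198407) (.g (nat_lit 3813) (.e (nat_lit 65653) (nat_lit 27) (.e (nat_lit 426011) (nat_lit 0) (.e (nat_lit 7581) (nat_lit 405) (.e (nat_lit 57480) (nat_lit 28) (.e (nat_lit 557104) (nat_lit 14) (.e (nat_lit 180233) (nat_lit 0) (.e (nat_lit 5817) (nat_lit 320) (.e (nat_lit 1193) (nat_lit 88) .nil)))))))) (.g (nat_lit 4) .nil .nil))) 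
(.lf (nat_lit 198471) (.g (nat_lit 563) (.e (nat_lit 65653) (nat_lit 27) (.e (nat_lit 426306) (nat_lit 12) (.e (nat_lit 475201) (nat_lit 40) .nil))) .nil))) (.nd (nat_lit 6) 
(.lf (nat_lit 198439) (.g (nat_lit 915) (.e (nat_lit 65653) (nat_lit 27) (.e (nat_lit 426011) (nat_lit 0) (.e (nat_lit 7593) (nat_lit 407) (.e (nat_lit 73729) (nat_lit 0) .nil)))) .nil)) 
(.lf (nat_lit 198503) (.g (nat_lit 2009) (.e (nat_lit 65653) (nat_lit 27) (.e (nat_lit 426341) (nat_lit 14) (.e (nat_lit 491570) (nat_lit 13) (.e (nat_lit 393238) (nat_lit 17) (.e (nat_lit 7936) (nat_lit 406) .nil))))) (.g (nat_lit 4) .nil .nil))))) (.nd (nat_lit 5) (.nd (nat_lit 6) 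
(.lf (nat_lit 198423) (.g (nat_lit 3076) (.e (nat_lit 65653) (nat_lit 27) (.e (nat_lit 426011) (nat_lit 0) (.e (nat_lit 7589) (nat_lit 406) (.e (nat_lit 65653) (nat_lit 27) (.e (nat_lit 426011) (nat_lit 0) (.e (nat_lit 7589) (nat_lit 406) .nil)))))) (.g (nat_lit 0) .nil .nil))) 
(.lf (nat_lit 198487) (.g (nat_lit 1233) (.e (nat_lit 65653) (nat_lit 27) (.e (nat_lit 426315) (nat_lit 12) (.e (nat_lit 475207) (nat_lit 41) (.e (nat_lit 712747) (nat_lit 28) (.e (nat_lit 442112) (nat_lit 4) .nil))))) (.g (nat_lit 4) .nil .nil)))) (.nd (nat_lit 6) 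
(.lf (nat_lit 198455) (.g (nat_lit 1748) (.e (nat_lit 65653) (nat_lit 27) (.e (nat_lit 426012) (nat_lit 0) (.e (nat_lit 7589) (nat_lit 406) (.e (nat_lit 65647) (nat_lit 25) (.e (nat_lit 409603) (nat_lit 0) (.e (nat_lit 5399) (nat_lit 302) .nil)))))) (.g (nat_lit 0) .nil .nil))) 
(.lf (nat_lit 198519) (.g (nat_lit 1322) (.e (nat_lit 65653) (nat_lit 27) (.e (nat_lit 426342) (nat_lit 14) (.e (nat_lit 491565) (nat_lit 12) (.e (nat_lit 385039) (nat_lit 18) .nil)))) .nil))))) (.nd (nat_lit 4) (.nd (nat_lit 5) (.nd (nat_lit 6) 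
(.lf (nat_lit 198415) (.g (nat_lit 2020) (.e (nat_lit 65653) (nat_lit 27) (.e (nat_lit 426011) (nat_lit 0) (.e (nat_lit 7587) (nat_lit 406) (.e (nat_lit 65648) (nat_lit 26) (.e (nat_lit 417796) (nat_lit 0) (.e (nat_lit 5406) (nat_lit 302) .nil)))))) (.g (nat_lit 5) .nil .nil))) 
(.lf (nat_lit 198479) (.g (nat_lit 907) (.e (nat_lit 65653) (nat_lit 27) (.e (nat_lit 426308) (nat_lit 12) (.e (nat_lit 475208) (nat_lit 41) (.e (nat_lit 712749) (nat_lit 28) (.e (nat_lit 442112) (nat_lit 4) .nil))))) (.g (nat_lit 4) .nil .nil)))) (.nd (nat_lit 6) 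
(.lf (nat_lit 198447) (.g (nat_lit 1159) (.e (nat_lit 65653) (nat_lit 27) (.e (nat_lit 426011) (nat_lit 0) (.e (nat_lit 7602) (nat_lit 409) (.e (nat_lit 131140) (nat_lit 27) .nil)))) .nil)) 
(.lf (nat_lit 198511) (.g (nat_lit 1335) (.e (nat_lit 65653) (nat_lit 27) (.e (nat_lit 426342) (nat_lit 14) (.e (nat_lit 491548) (nat_lit 9) (.e (nat_lit 336421) (nat_lit 28) (.e (nat_lit 442112) (nat_lit 4) .nil))))) (.g (nat_lit 4) .nil .nil))))) (.nd (nat_lit 5) (.nd (nat_lit 6) 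
(.lf (nat_lit 198431) (.g (nat_lit 1263) (.e (nat_lit 65653) (nat_lit 27) (.e (nat_lit 426011) (nat_lit 0) (.e (nat_lit 7591) (nat_lit 407) (.e (nat_lit 73731) (nat_lit 0) .nil)))) .nil)) 
(.lf (nat_lit 198495) (.g (nat_lit 1911) (.e (nat_lit 65653) (nat_lit 27) (.e (nat_lit 426338) (nat_lit 14) (.e (nat_lit 491549) (nat_lit 9) (.e (nat_lit 336421) (nat_lit 28) (.e (nat_lit 442112) (nat_lit 4) .nil))))) (.g (nat_lit 4) .nil .nil)))) (.nd (nat_lit 6) 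
(.lf (nat_lit 198463) (.g (nat_lit 549) (.e (nat_lit 65653) (nat_lit 27) (.e (nat_lit 426190) (nat_lit 9) (.e (nat_lit 426397) (nat_lit 15) .nil))) .nil)) 
(.lf (nat_lit 198527) (.g (nat_lit 2562) (.e (nat_lit 65653) (nat_lit 27) (.e (nat_lit 426343) (nat_lit 14) (.e (nat_lit 491546) (nat_lit 9) (.e (nat_lit 336358) (nat_lit 25) (.e (nat_lit 409602) (nat_lit 0) (.e (nat_lit 5399) (nat_lit 302) .nil)))))) (.g (nat_lit 5) .nil .nil))))))))))

noncomputable def tv2626 : DT := (.nd (nat_lit 0) (.nd (nat_lit 1) (.nd (nat_lit 2) (.nd (nat_lit 3) (.nd (nat_lit 4) (.nd (nat_lit 5) 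
(.lf (nat_lit 198528) (.g (nat_lit 2600) (.e (nat_lit 65653) (nat_lit 27) (.e (nat_lit 426343) (nat_lit 14) (.e (nat_lit 491546) (nat_lit 9) (.e (nat_lit 336358) (nat_lit 25) (.e (nat_lit 409602) (nat_lit 0) (.e (nat_lit 5404) (nat_lit 302) .nil)))))) (.g (nat_lit 6) .nil .nil))) 
(.lf (nat_lit 198560) (.g (nat_lit 1445) (.e (nat_lit 65653) (nat_lit 27) (.e (nat_lit 426343) (nat_lit 14) (.e (nat_lit 491556) (nat_lit 9) (.e (nat_lit 336420) (nat_lit 28) (.e (nat_lit 442112) (nat_lit 4) .nil))))) (.g (nat_lit 4) .nil .nil)))) (.nd (nat_lit 5) 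
(.lf (nat_lit 198544) (.g (nat_lit 1935) (.e (nat_lit 65653) (nat_lit 27) (.e (nat_lit 426343) (nat_lit 14) (.e (nat_lit 491552) (nat_lit 9) (.e (nat_lit 336248) (nat_lit 15) (.e (nat_lit 7077) (nat_lit 378) (.e (nat_lit 57897) (nat_lit 274) .nil)))))) (.g (nat_lit 4) .nil .nil))) 
(.lf (nat_lit 198576) (.g (nat_lit 1433) (.e (nat_lit 65653) (nat_lit 27) (.e (nat_lit 426343) (nat_lit 14) (.e (nat_lit 491567) (nat_lit 13) (.e (nat_lit 393232) (nat_lit 17) (.e (nat_lit 7589) (nat_lit 406) .nil))))) .nil)))) (.nd (nat_lit 4) (.nd (nat_lit 5) 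
(.lf (nat_lit 198536) (.g (nat_lit 2088) (.e (nat_lit 65653) (nat_lit 27) (.e (nat_lit 426343) (nat_lit 14) (.e (nat_lit 491547) (nat_lit 9) (.e (nat_lit 336421) (nat_lit 28) (.e (nat_lit 442112) (nat_lit 4) .nil))))) (.g (nat_lit 4) .nil .nil))) 
(.lf (nat_lit 198568) (.g (nat_lit 2659) (.e (nat_lit 65653) (nat_lit 27) (.e (nat_lit 426343) (nat_lit 14) (.e (nat_lit 491560) (nat_lit 10) (.e (nat_lit 344090) (nat_lit 18) (.e (nat_lit 7265) (nat_lit 384) (.e (nat_lit 57347) (nat_lit 0) (.e (nat_lit 7936) (nat_lit 347) .nil))))))) (.g (nat_lit 6) .nil .nil)))) (.nd (nat_lit 5) 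
(.lf (nat_lit 198552) (.g (nat_lit 928) (.e (nat_lit 65653) (nat_lit 27) (.e (nat_lit 426343) (nat_lit 14) (.e (nat_lit 491555) (nat_lit 9) .nil))) .nil)) 
(.lf (nat_lit 198584) (.g (nat_lit 2000) (.e (nat_lit 65653) (nat_lit 27) (.e (nat_lit 426343) (nat_lit 14) (.e (nat_lit 491568) (nat_lit 13) (.e (nat_lit 393238) (nat_lit 17) (.e (nat_lit 7936) (nat_lit 406) .nil))))) .nil))))) (.nd (nat_lit 3) (.nd (nat_lit 4) (.nd (nat_lit 5) 
(.lf (nat_lit 198532) (.g (nat_lit 1911) (.e (nat_lit 65653) (nat_lit 27) (.e (nat_lit 426343) (nat_lit 14) (.e (nat_lit 491546) (nat_lit 9) (.e (nat_lit 336421) (nat_lit 28) (.e (nat_lit 442112) (nat_lit 4) .nil))))) (.g (nat_lit 4) .nil .nil))) 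
(.lf (nat_lit 198564) (.g (nat_lit 2954) (.e (nat_lit 65653) (nat_lit 27) (.e (nat_lit 426343) (nat_lit 14) (.e (nat_lit 491558) (nat_lit 10) (.e (nat_lit 344091) (nat_lit 18) (.e (nat_lit 7265) (nat_lit 384) (.e (nat_lit 57347) (nat_lit 0) (.e (nat_lit 7936) (nat_lit 347) .nil))))))) (.g (nat_lit 6) .nil .nil)))) (.nd (nat_lit 5) 
(.lf (nat_lit 198548) (.g (nat_lit 1415) (.e (nat_lit 65653) (nat_lit 27) (.e (nat_lit 426343) (nat_lit 14) (.e (nat_lit 491552) (nat_lit 9) (.e (nat_lit 336410) (nat_lit 27) (.e (nat_lit 425984) (nat_lit 0) (.e (nat_lit 7588) (nat_lit 406) .nil)))))) (.g (nat_lit 6) .nil .nil))) 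
(.lf (nat_lit 198580) (.g (nat_lit 2442) (.e (nat_lit 65653) (nat_lit 27) (.e (nat_lit 426343) (nat_lit 14) (.e (nat_lit 491568) (nat_lit 13) (.e (nat_lit 393232) (nat_lit 17) (.e (nat_lit 7589) (nat_lit 406) .nil))))) (.g (nat_lit 4) .nil .nil))))) (.nd (nat_lit 4) (.nd (nat_lit 5) 
(.lf (nat_lit 198540) (.g (nat_lit 2519) (.e (nat_lit 65653) (nat_lit 27) (.e (nat_lit 426343) (nat_lit 14) (.e (nat_lit 491549) (nat_lit 9) (.e (nat_lit 336421) (nat_lit 28) (.e (nat_lit 442112) (nat_lit 4) .nil))))) (.g (nat_lit 4) .nil .nil))) 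
(.lf (nat_lit 198572) (.g (nat_lit 895) (.e (nat_lit 65653) (nat_lit 27) (.e (nat_lit 426343) (nat_lit 14) (.e (nat_lit 491560) (nat_lit 10) (.e (nat_lit 344094) (nat_lit 18) .nil)))) .nil))) (.nd (nat_lit 5) 
(.lf (nat_lit 198556) (.g (nat_lit 1521) (.e (nat_lit 65653) (nat_lit 27) (.e (nat_lit 426343) (nat_lit 14) (.e (nat_lit 491556) (nat_lit 9) (.e (nat_lit 336402) (nat_lit 27) (.e (nat_lit 425984) (nat_lit 0) (.e (nat_lit 7588) (nat_lit 406) .nil)))))) (.g (nat_lit 4) .nil .nil))) 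
(.lf (nat_lit 198588) (.g (nat_lit 1300) (.e (nat_lit 65653) (nat_lit 27) (.e (nat_lit 426343) (nat_lit 14) (.e (nat_lit 491569) (nat_lit 13) (.e (nat_lit 393233) (nat_lit 17) .nil)))) .nil)))))) (.nd (nat_lit 2) (.nd (nat_lit 3) (.nd (nat_lit 4) (.nd (nat_lit 5) 
(.lf (nat_lit 198530) (.g (nat_lit 2840) (.e (nat_lit 65653) (nat_lit 27) (.e (nat_lit 426343) (nat_lit 14) (.e (nat_lit 491546) (nat_lit 9) (.e (nat_lit 336414) (nat_lit 27) (.e (nat_lit 425984) (nat_lit 0) (.e (nat_lit 7586) (nat_lit 406) .nil)))))) (.g (nat_lit 5) .nil .nil))) 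
(.lf (nat_lit 198562) (.g (nat_lit 1535) (.e (nat_lit 65653) (nat_lit 27) (.e (nat_lit 426343) (nat_lit 14) (.e (nat_lit 491556) (nat_lit 9) (.e (nat_lit 336437) (nat_lit 31) (.e (nat_lit 466688) (nat_lit 4) .nil))))) (.g (nat_lit 4) .nil .nil)))) (.nd (nat_lit 5) 
(.lf (nat_lit 198546) (.g (nat_lit 1663) (.e (nat_lit 65653) (nat_lit 27) (.e (nat_lit 426343) (nat_lit 14) (.e (nat_lit 491552) (nat_lit 9) (.e (nat_lit 336363) (nat_lit 26) (.e (nat_lit 417793) (nat_lit 0) (.e (nat_lit 5405) (nat_lit 302) .nil)))))) (.g (nat_lit 6) .nil .nil))) 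
(.lf (nat_lit 198578) (.g (nat_lit 388) (.e (nat_lit 65653) (nat_lit 27) (.e (nat_lit 426343) (nat_lit 14) (.e (nat_lit 491568) (nat_lit 13) .nil))) .nil)))) (.nd (nat_lit 4) (.nd (nat_lit 5) 
(.lf (nat_lit 198538) (.g (nat_lit 1953) (.e (nat_lit 65653) (nat_lit 27) (.e (nat_lit 426343) (nat_lit 14) (.e (nat_lit 491548) (nat_lit 9) (.e (nat_lit 336421) (nat_lit 28) (.e (nat_lit 442112) (nat_lit 4) .nil))))) (.g (nat_lit 4) .nil .nil))) 
(.lf (nat_lit 198570) (.g (nat_lit 1030) (.e (nat_lit 65653) (nat_lit 27) (.e (nat_lit 426343) (nat_lit 14) (.e (nat_lit 491560) (nat_lit 10) (.e (nat_lit 344091) (nat_lit 18) .nil)))) .nil))) (.nd (nat_lit 5) 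
(.lf (nat_lit 198554) (.g (nat_lit 1815) (.e (nat_lit 65653) (nat_lit 27) (.e (nat_lit 426343) (nat_lit 14) (.e (nat_lit 491556) (nat_lit 9) (.e (nat_lit 336390) (nat_lit 27) (.e (nat_lit 426009) (nat_lit 0) .nil))))) .nil)) 
(.lf (nat_lit 198586) (.g (nat_lit 344) (.e (nat_lit 65653) (nat_lit 27) (.e (nat_lit 426343) (nat_lit 14) (.e (nat_lit 491569) (nat_lit 13) .nil))) .nil))))) (.nd (nat_lit 3) (.nd (nat_lit 4) (.nd (nat_lit 5) 
(.lf (nat_lit 198534) (.g (nat_lit 1942) (.e (nat_lit 65653) (nat_lit 27) (.e (nat_lit 426343) (nat_lit 14) (.e (nat_lit 491546) (nat_lit 9) (.e (nat_lit 336438) (nat_lit 31) (.e (nat_lit 466688) (nat_lit 4) .nil))))) (.g (nat_lit 4) .nil .nil))) 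
(.lf (nat_lit 198566) (.g (nat_lit 1517) (.e (nat_lit 65653) (nat_lit 27) (.e (nat_lit 426343) (nat_lit 14) (.e (nat_lit 491558) (nat_lit 10) (.e (nat_lit 344096) (nat_lit 18) (.e (nat_lit 7261) (nat_lit 384) .nil))))) .nil))) (.nd (nat_lit 5) 
(.lf (nat_lit 198550) (.g (nat_lit 1324) (.e (nat_lit 65653) (nat_lit 27) (.e (nat_lit 426343) (nat_lit 14) (.e (nat_lit 491552) (nat_lit 9) (.e (nat_lit 336410) (nat_lit 27) (.e (nat_lit 425989) (nat_lit 0) (.e (nat_lit 7588) (nat_lit 406) .nil)))))) (.g (nat_lit 6) .nil .nil))) 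
(.lf (nat_lit 198582) (.g (nat_lit 3279) (.e (nat_lit 65653) (nat_lit 27) (.e (nat_lit 426343) (nat_lit 14) (.e (nat_lit 491568) (nat_lit 13) (.e (nat_lit 393234) (nat_lit 17) (.e (nat_lit 7589) (nat_lit 406) .nil))))) (.g (nat_lit 0) .nil .nil))))) (.nd (nat_lit 4) (.nd (nat_lit 5) 
(.lf (nat_lit 198542) (.g (nat_lit 928) (.e (nat_lit 65653) (nat_lit 27) (.e (nat_lit 426343) (nat_lit 14) (.e (nat_lit 491551) (nat_lit 9) .nil))) .nil)) 
(.lf (nat_lit 198574) (.g (nat_lit 1752) (.e (nat_lit 65653) (nat_lit 27) (.e (nat_lit 426343) (nat_lit 14) (.e (nat_lit 491560) (nat_lit 10) (.e (nat_lit 344096) (nat_lit 18) (.e (nat_lit 7263) (nat_lit 384) (.e (nat_lit 57354) (nat_lit 0) (.e (nat_lit 7936) (nat_lit 347) .nil))))))) (.g (nat_lit 4) .nil .nil)))) (.nd (nat_lit 5) 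
(.lf (nat_lit 198558) (.g (nat_lit 1688) (.e (nat_lit 65653) (nat_lit 27) (.e (nat_lit 426343) (nat_lit 14) (.e (nat_lit 491556) (nat_lit 9) (.e (nat_lit 336402) (nat_lit 27) (.e (nat_lit 425987) (nat_lit 0) (.e (nat_lit 7588) (nat_lit 406) .nil)))))) (.g (nat_lit 5) .nil .nil))) 
(.lf (nat_lit 198590) (.g (nat_lit 2866) (.e (nat_lit 65653) (nat_lit 27) (.e (nat_lit 426343) (nat_lit 14) (.e (nat_lit 491570) (nat_lit 13) (.e (nat_lit 393238) (nat_lit 17) (.e (nat_lit 7936) (nat_lit 406) .nil))))) (.g (nat_lit 4) .nil .nil)))))))) (.nd (nat_lit 1) (.nd (nat_lit 2) (.nd (nat_lit 3) (.nd (nat_lit 4) (.nd (nat_lit 5) 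
(.lf (nat_lit 198529) (.g (nat_lit 2179) (.e (nat_lit 65653) (nat_lit 27) (.e (nat_lit 426343) (nat_lit 14) (.e (nat_lit 491546) (nat_lit 9) (.e (nat_lit 336358) (nat_lit 25) (.e (nat_lit 409605) (nat_lit 0) (.e (nat_lit 5404) (nat_lit 302) .nil)))))) (.g (nat_lit 0) .nil .nil))) 
(.lf (nat_lit 198561) (.g (nat_lit 1233) (.e (nat_lit 65653) (nat_lit 27) (.e (nat_lit 426343) (nat_lit 14) (.e (nat_lit 491556) (nat_lit 9) (.e (nat_lit 336435) (nat_lit 31) .nil)))) .nil))) (.nd (nat_lit 5) 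
(.lf (nat_lit 198545) (.g (nat_lit 2263) (.e (nat_lit 65653) (nat_lit 27) (.e (nat_lit 426343) (nat_lit 14) (.e (nat_lit 491552) (nat_lit 9) (.e (nat_lit 336358) (nat_lit 25) (.e (nat_lit 409602) (nat_lit 0) (.e (nat_lit 5404) (nat_lit 302) .nil)))))) (.g (nat_lit 0) .nil .nil))) 
(.lf (nat_lit 198577) (.g (nat_lit 870) (.e (nat_lit 65653) (nat_lit 27) (.e (nat_lit 426343) (nat_lit 14) (.e (nat_lit 491567) (nat_lit 13) (.e (nat_lit 393237) (nat_lit 17) .nil)))) .nil)))) (.nd (nat_lit 4) (.nd (nat_lit 5) 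
(.lf (nat_lit 198537) (.g (nat_lit 1959) (.e (nat_lit 65653) (nat_lit 27) (.e (nat_lit 426343) (nat_lit 14) (.e (nat_lit 491547) (nat_lit 9) (.e (nat_lit 336438) (nat_lit 31) (.e (nat_lit 466688) (nat_lit 4) .nil))))) (.g (nat_lit 4) .nil .nil))) 
(.lf (nat_lit 198569) (.g (nat_lit 2480) (.e (nat_lit 65653) (nat_lit 27) (.e (nat_lit 426343) (nat_lit 14) (.e (nat_lit 491560) (nat_lit 10) (.e (nat_lit 344090) (nat_lit 18) (.e (nat_lit 7265) (nat_lit 384) (.e (nat_lit 57354) (nat_lit 0) (.e (nat_lit 7936) (nat_lit 347) .nil))))))) (.g (nat_lit 6) .nil .nil)))) (.nd (nat_lit 5) 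
(.lf (nat_lit 198553) (.g (nat_lit 1261) (.e (nat_lit 65653) (nat_lit 27) (.e (nat_lit 426343) (nat_lit 14) (.e (nat_lit 491556) (nat_lit 9) (.e (nat_lit 336298) (nat_lit 15) (.e (nat_lit 7089) (nat_lit 379) .nil))))) .nil)) 
(.lf (nat_lit 198585) (.g (nat_lit 1402) (.e (nat_lit 65653) (nat_lit 27) (.e (nat_lit 426343) (nat_lit 14) (.e (nat_lit 491568) (nat_lit 13) (.e (nat_lit 393242) (nat_lit 17) .nil)))) .nil))))) (.nd (nat_lit 3) (.nd (nat_lit 4) (.nd (nat_lit 5) 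
(.lf (nat_lit 198533) (.g (nat_lit 1798) (.e (nat_lit 65653) (nat_lit 27) (.e (nat_lit 426343) (nat_lit 14) (.e (nat_lit 491546) (nat_lit 9) (.e (nat_lit 336423) (nat_lit 28) (.e (nat_lit 442112) (nat_lit 4) .nil))))) (.g (nat_lit 4) .nil .nil))) 
(.lf (nat_lit 198565) (.g (nat_lit 1233) (.e (nat_lit 65653) (nat_lit 27) (.e (nat_lit 426343) (nat_lit 14) (.e (nat_lit 491558) (nat_lit 10) (.e (nat_lit 344095) (nat_lit 18) (.e (nat_lit 7261) (nat_lit 384) (.e (nat_lit 57347) (nat_lit 0) (.e (nat_lit 7936) (nat_lit 347) .nil))))))) (.g (nat_lit 4) .nil .nil)))) (.nd (nat_lit 5) 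
(.lf (nat_lit 198549) (.g (nat_lit 1376) (.e (nat_lit 65653) (nat_lit 27) (.e (nat_lit 426343) (nat_lit 14) (.e (nat_lit 491552) (nat_lit 9) (.e (nat_lit 336410) (nat_lit 27) (.e (nat_lit 425987) (nat_lit 0) (.e (nat_lit 7588) (nat_lit 406) .nil)))))) (.g (nat_lit 6) .nil .nil))) 
(.lf (nat_lit 198581) (.g (nat_lit 2647) (.e (nat_lit 65653) (nat_lit 27) (.e (nat_lit 426343) (nat_lit 14) (.e (nat_lit 491568) (nat_lit 13) (.e (nat_lit 393233) (nat_lit 17) (.e (nat_lit 7589) (nat_lit 406) .nil))))) (.g (nat_lit 0) .nil .nil))))) (.nd (nat_lit 4) (.nd (nat_lit 5) 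
(.lf (nat_lit 198541) (.g (nat_lit 2350) (.e (nat_lit 65653) (nat_lit 27) (.e (nat_lit 426343) (nat_lit 14) (.e (nat_lit 491549) (nat_lit 9) (.e (nat_lit 336438) (nat_lit 31) (.e (nat_lit 466688) (nat_lit 4) .nil))))) (.g (nat_lit 4) .nil .nil))) 
(.lf (nat_lit 198573) (.g (nat_lit 1302) (.e (nat_lit 65653) (nat_lit 27) (.e (nat_lit 426343) (nat_lit 14) (.e (nat_lit 491560) (nat_lit 10) (.e (nat_lit 344095) (nat_lit 18) (.e (nat_lit 7263) (nat_lit 384) .nil))))) .nil))) (.nd (nat_lit 5) 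
(.lf (nat_lit 198557) (.g (nat_lit 1902) (.e (nat_lit 65653) (nat_lit 27) (.e (nat_lit 426343) (nat_lit 14) (.e (nat_lit 491556) (nat_lit 9) (.e (nat_lit 336402) (nat_lit 27) (.e (nat_lit 425987) (nat_lit 0) (.e (nat_lit 7586) (nat_lit 406) .nil)))))) (.g (nat_lit 5) .nil .nil))) 
(.lf (nat_lit 198589) (.g (nat_lit 1257) (.e (nat_lit 65653) (nat_lit 27) (.e (nat_lit 426343) (nat_lit 14) (.e (nat_lit 491569) (nat_lit 13) (.e (nat_lit 401152) (nat_lit 17) .nil)))) .nil)))))) (.nd (nat_lit 2) (.nd (nat_lit 3) (.nd (nat_lit 4) (.nd (nat_lit 5) 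
(.lf (nat_lit 198531) (.g (nat_lit 2630) (.e (nat_lit 65653) (nat_lit 27) (.e (nat_lit 426343) (nat_lit 14) (.e (nat_lit 491546) (nat_lit 9) (.e (nat_lit 336414) (nat_lit 27) (.e (nat_lit 425987) (nat_lit 0) (.e (nat_lit 7586) (nat_lit 406) .nil)))))) (.g (nat_lit 4) .nil .nil))) 
(.lf (nat_lit 198563) (.g (nat_lit 1522) (.e (nat_lit 65653) (nat_lit 27) (.e (nat_lit 426343) (nat_lit 14) (.e (nat_lit 491558) (nat_lit 10) (.e (nat_lit 344091) (nat_lit 18) (.e (nat_lit 7261) (nat_lit 384) .nil))))) .nil))) (.nd (nat_lit 5) 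
(.lf (nat_lit 198547) (.g (nat_lit 2013) (.e (nat_lit 65653) (nat_lit 27) (.e (nat_lit 426343) (nat_lit 14) (.e (nat_lit 491552) (nat_lit 9) (.e (nat_lit 336363) (nat_lit 26) (.e (nat_lit 417796) (nat_lit 0) (.e (nat_lit 5405) (nat_lit 302) .nil)))))) (.g (nat_lit 6) .nil .nil))) 
(.lf (nat_lit 198579) (.g (nat_lit 2528) (.e (nat_lit 65653) (nat_lit 27) (.e (nat_lit 426343) (nat_lit 14) (.e (nat_lit 491568) (nat_lit 13) (.e (nat_lit 393232) (nat_lit 17) (.e (nat_lit 7587) (nat_lit 406) .nil))))) (.g (nat_lit 4) .nil .nil))))) (.nd (nat_lit 4) (.nd (nat_lit 5) 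
(.lf (nat_lit 198539) (.g (nat_lit 3260) (.e (nat_lit 65653) (nat_lit 27) (.e (nat_lit 426343) (nat_lit 14) (.e (nat_lit 491549) (nat_lit 9) (.e (nat_lit 336414) (nat_lit 27) (.e (nat_lit 425987) (nat_lit 0) (.e (nat_lit 7588) (nat_lit 406) .nil)))))) (.g (nat_lit 5) .nil .nil))) 
(.lf (nat_lit 198571) (.g (nat_lit 2017) (.e (nat_lit 65653) (nat_lit 27) (.e (nat_lit 426343) (nat_lit 14) (.e (nat_lit 491560) (nat_lit 10) (.e (nat_lit 344091) (nat_lit 18) (.e (nat_lit 7265) (nat_lit 384) (.e (nat_lit 57354) (nat_lit 0) (.e (nat_lit 7936) (nat_lit 347) .nil))))))) (.g (nat_lit 5) .nil .nil)))) (.nd (nat_lit 5) 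
(.lf (nat_lit 198555) (.g (nat_lit 3097) (.e (nat_lit 65653) (nat_lit 27) (.e (nat_lit 426343) (nat_lit 14) (.e (nat_lit 491556) (nat_lit 9) (.e (nat_lit 336390) (nat_lit 27) (.e (nat_lit 426012) (nat_lit 0) (.e (nat_lit 7587) (nat_lit 406) .nil)))))) (.g (nat_lit 5) .nil .nil))) 
(.lf (nat_lit 198587) (.g (nat_lit 1513) (.e (nat_lit 65653) (nat_lit 27) (.e (nat_lit 426343) (nat_lit 14) (.e (nat_lit 491569) (nat_lit 13) (.e (nat_lit 393232) (nat_lit 17) .nil)))) .nil))))) (.nd (nat_lit 3) (.nd (nat_lit 4) (.nd (nat_lit 5) 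
(.lf (nat_lit 198535) (.g (nat_lit 1311) (.e (nat_lit 65653) (nat_lit 27) (.e (nat_lit 426343) (nat_lit 14) (.e (nat_lit 491546) (nat_lit 9) (.e (nat_lit 336439) (nat_lit 31) .nil)))) .nil)) 
(.lf (nat_lit 198567) (.g (nat_lit 3025) (.e (nat_lit 65653) (nat_lit 27) (.e (nat_lit 426343) (nat_lit 14) (.e (nat_lit 491558) (nat_lit 10) (.e (nat_lit 344096) (nat_lit 18) (.e (nat_lit 7265) (nat_lit 384) (.e (nat_lit 57347) (nat_lit 0) (.e (nat_lit 7936) (nat_lit 347) .nil))))))) (.g (nat_lit 6) .nil .nil)))) (.nd (nat_lit 5) 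
(.lf (nat_lit 198551) (.g (nat_lit 634) (.e (nat_lit 65653) (nat_lit 27) (.e (nat_lit 426343) (nat_lit 14) (.e (nat_lit 491552) (nat_lit 9) (.e (nat_lit 343808) (nat_lit 27) .nil)))) .nil)) 
(.lf (nat_lit 198583) (.g (nat_lit 1575) (.e (nat_lit 65653) (nat_lit 27) (.e (nat_lit 426343) (nat_lit 14) (.e (nat_lit 491568) (nat_lit 13) (.e (nat_lit 393235) (nat_lit 17) .nil)))) .nil)))) (.nd (nat_lit 4) (.nd (nat_lit 5) 
(.lf (nat_lit 198543) (.g (nat_lit 200) (.e (nat_lit 65653) (nat_lit 27) (.e (nat_lit 426343) (nat_lit 14) (.e (nat_lit 491552) (nat_lit 9) .nil))) .nil)) 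
(.lf (nat_lit 198575) (.g (nat_lit 1490) (.e (nat_lit 65653) (nat_lit 27) (.e (nat_lit 426343) (nat_lit 14) (.e (nat_lit 491560) (nat_lit 10) (.e (nat_lit 344097) (nat_lit 18) (.e (nat_lit 7253) (nat_lit 383) .nil))))) .nil))) (.nd (nat_lit 5) 
(.lf (nat_lit 198559) (.g (nat_lit 888) (.e (nat_lit 65653) (nat_lit 27) (.e (nat_lit 426343) (nat_lit 14) (.e (nat_lit 491556) (nat_lit 9) (.e (nat_lit 343808) (nat_lit 27) .nil)))) .nil)) 
(.lf (nat_lit 198591) (.g (nat_lit 1923) (.e (nat_lit 65653) (nat_lit 27) (.e (nat_lit 426343) (nat_lit 14) (.e (nat_lit 491570) (nat_lit 13) (.e (nat_lit 393247) (nat_lit 17) .nil)))) .nil))))))))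

noncomputable def tv2627 : DT := (.nd (nat_lit 0) (.nd (nat_lit 1) (.nd (nat_lit 2) (.nd (nat_lit 3) (.nd (nat_lit 4) (.nd (nat_lit 5) 
(.lf (nat_lit 198592) (.g (nat_lit 1897) (.e (nat_lit 65653) (nat_lit 27) (.e (nat_lit 426343) (nat_lit 14) (.e (nat_lit 491570) (nat_lit 13) (.e (nat_lit 393248) (nat_lit 17) .nil)))) .nil)) 
(.lf (nat_lit 198624) (.g (nat_lit 2203) (.e (nat_lit 65653) (nat_lit 27) (.e (nat_lit 426344) (nat_lit 14) (.e (nat_lit 491563) (nat_lit 12) (.e (nat_lit 385035) (nat_lit 16) .nil)))) .nil))) (.nd (nat_lit 5) 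
(.lf (nat_lit 198608) (.g (nat_lit 1710) (.e (nat_lit 65653) (nat_lit 27) (.e (nat_lit 426344) (nat_lit 14) (.e (nat_lit 491552) (nat_lit 9) (.e (nat_lit 336363) (nat_lit 26) (.e (nat_lit 417795) (nat_lit 0) (.e (nat_lit 5405) (nat_lit 302) .nil)))))) (.g (nat_lit 0) .nil .nil))) 
(.lf (nat_lit 198640) (.g (nat_lit 3078) (.e (nat_lit 65653) (nat_lit 27) (.e (nat_lit 426500) (nat_lit 27) (.e (nat_lit 336076) (nat_lit 9) (.e (nat_lit 336324) (nat_lit 18) (.e (nat_lit 204830) (nat_lit 18) (.e (nat_lit 57830) (nat_lit 250) (.e (nat_lit 1193) (nat_lit 88) .nil))))))) (.g (nat_lit 7) .nil .nil))))) (.nd (nat_lit 4) (.nd (nat_lit 5) 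
(.lf (nat_lit 198600) (.g (nat_lit 651) (.e (nat_lit 65653) (nat_lit 27) (.e (nat_lit 426344) (nat_lit 14) (.e (nat_lit 491551) (nat_lit 9) .nil))) .nil)) 
(.lf (nat_lit 198632) (.g (nat_lit 3179) (.e (nat_lit 65653) (nat_lit 27) (.e (nat_lit 426344) (nat_lit 14) (.e (nat_lit 491568) (nat_lit 13) (.e (nat_lit 393234) (nat_lit 17) (.e (nat_lit 7587) (nat_lit 406) .nil))))) (.g (nat_lit 0) .nil .nil)))) (.nd (nat_lit 5) 
(.lf (nat_lit 198616) (.g (nat_lit 1149) (.e (nat_lit 65653) (nat_lit 27) (.e (nat_lit 426344) (nat_lit 14) (.e (nat_lit 491556) (nat_lit 9) (.e (nat_lit 343808) (nat_lit 15) .nil)))) .nil)) 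
(.lf (nat_lit 198648) (.g (nat_lit 2658) (.e (nat_lit 65653) (nat_lit 27) (.e (nat_lit 426500) (nat_lit 27) (.e (nat_lit 336087) (nat_lit 9) (.e (nat_lit 336019) (nat_lit 3) (.e (nat_lit 98335) (nat_lit 18) (.e (nat_lit 164150) (nat_lit 152) (.e (nat_lit 1204) (nat_lit 88) .nil))))))) (.g (nat_lit 6) .nil .nil)))))) (.nd (nat_lit 3) (.nd (nat_lit 4) (.nd (nat_lit 5) 
(.lf (nat_lit 198596) (.g (nat_lit 1358) (.e (nat_lit 65653) (nat_lit 27) (.e (nat_lit 426344) (nat_lit 14) (.e (nat_lit 491546) (nat_lit 9) (.e (nat_lit 336358) (nat_lit 25) .nil)))) .nil)) 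
(.lf (nat_lit 198628) (.g (nat_lit 2556) (.e (nat_lit 65653) (nat_lit 27) (.e (nat_lit 426344) (nat_lit 14) (.e (nat_lit 491567) (nat_lit 13) (.e (nat_lit 393234) (nat_lit 17) (.e (nat_lit 7587) (nat_lit 406) .nil))))) (.g (nat_lit 0) .nil .nil)))) (.nd (nat_lit 5) 
(.lf (nat_lit 198612) (.g (nat_lit 1484) (.e (nat_lit 65653) (nat_lit 27) (.e (nat_lit 426344) (nat_lit 14) (.e (nat_lit 491552) (nat_lit 9) (.e (nat_lit 336410) (nat_lit 27) (.e (nat_lit 425990) (nat_lit 0) (.e (nat_lit 7588) (nat_lit 406) .nil)))))) (.g (nat_lit 0) .nil .nil))) 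
(.lf (nat_lit 198644) (.g (nat_lit 1240) (.e (nat_lit 65653) (nat_lit 27) (.e (nat_lit 426500) (nat_lit 27) (.e (nat_lit 336087) (nat_lit 9) (.e (nat_lit 336019) (nat_lit 3) (.e (nat_lit 98333) (nat_lit 18) .nil))))) .nil)))) (.nd (nat_lit 4) (.nd (nat_lit 5) 
(.lf (nat_lit 198604) (.g (nat_lit 1744) (.e (nat_lit 65653) (nat_lit 27) (.e (nat_lit 426344) (nat_lit 14) (.e (nat_lit 491552) (nat_lit 9) (.e (nat_lit 336250) (nat_lit 15) (.e (nat_lit 7081) (nat_lit 378) (.e (nat_lit 57897) (nat_lit 274) .nil)))))) (.g (nat_lit 0) .nil .nil))) 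
(.lf (nat_lit 198636) (.g (nat_lit 2129) (.e (nat_lit 65653) (nat_lit 27) (.e (nat_lit 426344) (nat_lit 14) (.e (nat_lit 491568) (nat_lit 13) (.e (nat_lit 393245) (nat_lit 17) .nil)))) .nil))) (.nd (nat_lit 5) 
(.lf (nat_lit 198620) (.g (nat_lit 1730) (.e (nat_lit 65653) (nat_lit 27) (.e (nat_lit 426344) (nat_lit 14) (.e (nat_lit 491556) (nat_lit 9) (.e (nat_lit 336420) (nat_lit 28) (.e (nat_lit 442112) (nat_lit 4) .nil))))) (.g (nat_lit 4) .nil .nil))) 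
(.lf (nat_lit 198652) (.g (nat_lit 2162) (.e (nat_lit 65653) (nat_lit 27) (.e (nat_lit 426500) (nat_lit 27) (.e (nat_lit 336088) (nat_lit 9) (.e (nat_lit 336019) (nat_lit 3) (.e (nat_lit 98334) (nat_lit 18) (.e (nat_lit 164159) (nat_lit 152) (.e (nat_lit 1187) (nat_lit 88) .nil))))))) (.g (nat_lit 4) .nil .nil))))))) (.nd (nat_lit 2) (.nd (nat_lit 3) (.nd (nat_lit 4) (.nd (nat_lit 5) 
(.lf (nat_lit 198594) (.g (nat_lit 1734) (.e (nat_lit 65653) (nat_lit 27) (.e (nat_lit 426343) (nat_lit 14) (.e (nat_lit 491570) (nat_lit 13) (.e (nat_lit 401152) (nat_lit 17) .nil)))) .nil)) 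
(.lf (nat_lit 198626) (.g (nat_lit 1672) (.e (nat_lit 65653) (nat_lit 27) (.e (nat_lit 426344) (nat_lit 14) (.e (nat_lit 491567) (nat_lit 13) (.e (nat_lit 393232) (nat_lit 17) (.e (nat_lit 7587) (nat_lit 406) .nil))))) .nil))) (.nd (nat_lit 5) 
(.lf (nat_lit 198610) (.g (nat_lit 1489) (.e (nat_lit 65653) (nat_lit 27) (.e (nat_lit 426344) (nat_lit 14) (.e (nat_lit 491552) (nat_lit 9) (.e (nat_lit 336363) (nat_lit 26) (.e (nat_lit 417796) (nat_lit 0) (.e (nat_lit 5406) (nat_lit 302) .nil)))))) (.g (nat_lit 4) .nil .nil))) 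
(.lf (nat_lit 198642) (.g (nat_lit 3628) (.e (nat_lit 65653) (nat_lit 27) (.e (nat_lit 426500) (nat_lit 27) (.e (nat_lit 336076) (nat_lit 9) (.e (nat_lit 336324) (nat_lit 18) (.e (nat_lit 204831) (nat_lit 18) (.e (nat_lit 57830) (nat_lit 250) (.e (nat_lit 1193) (nat_lit 88) .nil))))))) (.g (nat_lit 7) .nil .nil))))) (.nd (nat_lit 4) (.nd (nat_lit 5) 
(.lf (nat_lit 198602) (.g (nat_lit 1669) (.e (nat_lit 65653) (nat_lit 27) (.e (nat_lit 426344) (nat_lit 14) (.e (nat_lit 491552) (nat_lit 9) (.e (nat_lit 336248) (nat_lit 15) (.e (nat_lit 7077) (nat_lit 378) (.e (nat_lit 57897) (nat_lit 274) .nil)))))) (.g (nat_lit 4) .nil .nil))) 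
(.lf (nat_lit 198634) (.g (nat_lit 2538) (.e (nat_lit 65653) (nat_lit 27) (.e (nat_lit 426344) (nat_lit 14) (.e (nat_lit 491568) (nat_lit 13) (.e (nat_lit 393238) (nat_lit 17) (.e (nat_lit 7936) (nat_lit 406) .nil))))) .nil))) (.nd (nat_lit 5) 
(.lf (nat_lit 198618) (.g (nat_lit 2686) (.e (nat_lit 65653) (nat_lit 27) (.e (nat_lit 426344) (nat_lit 14) (.e (nat_lit 491556) (nat_lit 9) (.e (nat_lit 336402) (nat_lit 27) (.e (nat_lit 425984) (nat_lit 0) (.e (nat_lit 7588) (nat_lit 406) .nil)))))) (.g (nat_lit 5) .nil .nil))) 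
(.lf (nat_lit 198650) (.g (nat_lit 3550) (.e (nat_lit 65653) (nat_lit 27) (.e (nat_lit 426500) (nat_lit 27) (.e (nat_lit 336088) (nat_lit 9) (.e (nat_lit 336019) (nat_lit 3) (.e (nat_lit 98333) (nat_lit 18) (.e (nat_lit 164149) (nat_lit 152) (.e (nat_lit 1204) (nat_lit 88) .nil))))))) (.g (nat_lit 5) .nil .nil)))))) (.nd (nat_lit 3) (.nd (nat_lit 4) (.nd (nat_lit 5) 
(.lf (nat_lit 198598) (.g (nat_lit 1794) (.e (nat_lit 65653) (nat_lit 27) (.e (nat_lit 426344) (nat_lit 14) (.e (nat_lit 491547) (nat_lit 9) (.e (nat_lit 336423) (nat_lit 28) .nil)))) .nil)) 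
(.lf (nat_lit 198630) (.g (nat_lit 350) (.e (nat_lit 65653) (nat_lit 27) (.e (nat_lit 426344) (nat_lit 14) (.e (nat_lit 491568) (nat_lit 13) .nil))) .nil))) (.nd (nat_lit 5) 
(.lf (nat_lit 198614) (.g (nat_lit 341) (.e (nat_lit 65653) (nat_lit 27) (.e (nat_lit 426344) (nat_lit 14) (.e (nat_lit 491556) (nat_lit 9) .nil))) .nil)) 
(.lf (nat_lit 198646) (.g (nat_lit 1307) (.e (nat_lit 65653) (nat_lit 27) (.e (nat_lit 426500) (nat_lit 27) (.e (nat_lit 336087) (nat_lit 9) (.e (nat_lit 336019) (nat_lit 3) (.e (nat_lit 98334) (nat_lit 18) .nil))))) .nil)))) (.nd (nat_lit 4) (.nd (nat_lit 5) 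
(.lf (nat_lit 198606) (.g (nat_lit 1750) (.e (nat_lit 65653) (nat_lit 27) (.e (nat_lit 426344) (nat_lit 14) (.e (nat_lit 491552) (nat_lit 9) (.e (nat_lit 336358) (nat_lit 25) (.e (nat_lit 409603) (nat_lit 0) (.e (nat_lit 5399) (nat_lit 302) .nil)))))) (.g (nat_lit 0) .nil .nil))) 
(.lf (nat_lit 198638) (.g (nat_lit 2235) (.e (nat_lit 65653) (nat_lit 27) (.e (nat_lit 426500) (nat_lit 27) (.e (nat_lit 335995) (nat_lit 1) (.e (nat_lit 57848) (nat_lit 252) (.e (nat_lit 57372) (nat_lit 2) (.e (nat_lit 90154) (nat_lit 10) (.e (nat_lit 16128) (nat_lit 254) .nil))))))) (.g (nat_lit 5) .nil .nil)))) (.nd (nat_lit 5) 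
(.lf (nat_lit 198622) (.g (nat_lit 2031) (.e (nat_lit 65653) (nat_lit 27) (.e (nat_lit 426344) (nat_lit 14) (.e (nat_lit 491563) (nat_lit 12) (.e (nat_lit 385032) (nat_lit 16) .nil)))) .nil)) 
(.lf (nat_lit 198654) (.g (nat_lit 3153) (.e (nat_lit 65653) (nat_lit 27) (.e (nat_lit 426500) (nat_lit 27) (.e (nat_lit 336088) (nat_lit 9) (.e (nat_lit 336019) (nat_lit 3) (.e (nat_lit 98335) (nat_lit 18) (.e (nat_lit 164150) (nat_lit 152) (.e (nat_lit 1204) (nat_lit 88) .nil))))))) (.g (nat_lit 6) .nil .nil)))))))) 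
(.nd (nat_lit 1) (.nd (nat_lit 2) (.nd (nat_lit 3) (.nd (nat_lit 4) (.nd (nat_lit 5) 
(.lf (nat_lit 198593) (.g (nat_lit 1880) (.e (nat_lit 65653) (nat_lit 27) (.e (nat_lit 426343) (nat_lit 14) (.e (nat_lit 491570) (nat_lit 13) (.e (nat_lit 393249) (nat_lit 17) .nil)))) .nil)) 
(.lf (nat_lit 198625) (.g (nat_lit 2792) (.e (nat_lit 65653) (nat_lit 27) (.e (nat_lit 426344) (nat_lit 14) (.e (nat_lit 491563) (nat_lit 12) (.e (nat_lit 385038) (nat_lit 16) .nil)))) .nil))) (.nd (nat_lit 5) 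
(.lf (nat_lit 198609) (.g (nat_lit 1842) (.e (nat_lit 65653) (nat_lit 27) (.e (nat_lit 426344) (nat_lit 14) (.e (nat_lit 491552) (nat_lit 9) (.e (nat_lit 336363) (nat_lit 26) (.e (nat_lit 417796) (nat_lit 0) (.e (nat_lit 5399) (nat_lit 302) .nil)))))) (.g (nat_lit 5) .nil .nil))) 
(.lf (nat_lit 198641) (.g (nat_lit 1504) (.e (nat_lit 65653) (nat_lit 27) (.e (nat_lit 426500) (nat_lit 27) (.e (nat_lit 336076) (nat_lit 9) (.e (nat_lit 336324) (nat_lit 18) (.e (nat_lit 204831) (nat_lit 18) .nil))))) .nil)))) (.nd (nat_lit 4) (.nd (nat_lit 5) 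
(.lf (nat_lit 198601) (.g (nat_lit 407) (.e (nat_lit 65653) (nat_lit 27) (.e (nat_lit 426344) (nat_lit 14) (.e (nat_lit 491552) (nat_lit 9) .nil))) .nil)) 
(.lf (nat_lit 198633) (.g (nat_lit 2101) (.e (nat_lit 65653) (nat_lit 27) (.e (nat_lit 426344) (nat_lit 14) (.e (nat_lit 491568) (nat_lit 13) (.e (nat_lit 393237) (nat_lit 17) .nil)))) .nil))) (.nd (nat_lit 5) 
(.lf (nat_lit 198617) (.g (nat_lit 2824) (.e (nat_lit 65653) (nat_lit 27) (.e (nat_lit 426344) (nat_lit 14) (.e (nat_lit 491556) (nat_lit 9) (.e (nat_lit 336402) (nat_lit 27) (.e (nat_lit 425984) (nat_lit 0) (.e (nat_lit 7586) (nat_lit 406) .nil)))))) (.g (nat_lit 5) .nil .nil))) 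
(.lf (nat_lit 198649) (.g (nat_lit 1691) (.e (nat_lit 65653) (nat_lit 27) (.e (nat_lit 426500) (nat_lit 27) (.e (nat_lit 336088) (nat_lit 9) (.e (nat_lit 336019) (nat_lit 3) (.e (nat_lit 98333) (nat_lit 18) .nil))))) .nil))))) (.nd (nat_lit 3) (.nd (nat_lit 4) (.nd (nat_lit 5) 
(.lf (nat_lit 198597) (.g (nat_lit 2102) (.e (nat_lit 65653) (nat_lit 27) (.e (nat_lit 426344) (nat_lit 14) (.e (nat_lit 491547) (nat_lit 9) (.e (nat_lit 336421) (nat_lit 28) (.e (nat_lit 442112) (nat_lit 4) .nil))))) (.g (nat_lit 4) .nil .nil))) 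
(.lf (nat_lit 198629) (.g (nat_lit 965) (.e (nat_lit 65653) (nat_lit 27) (.e (nat_lit 426344) (nat_lit 14) (.e (nat_lit 491567) (nat_lit 13) (.e (nat_lit 393237) (nat_lit 17) .nil)))) .nil))) (.nd (nat_lit 5) 
(.lf (nat_lit 198613) (.g (nat_lit 724) (.e (nat_lit 65653) (nat_lit 27) (.e (nat_lit 426344) (nat_lit 14) (.e (nat_lit 491552) (nat_lit 9) (.e (nat_lit 343808) (nat_lit 27) .nil)))) .nil)) 
(.lf (nat_lit 198645) (.g (nat_lit 3123) (.e (nat_lit 65653) (nat_lit 27) (.e (nat_lit 426500) (nat_lit 27) (.e (nat_lit 336087) (nat_lit 9) (.e (nat_lit 336019) (nat_lit 3) (.e (nat_lit 98333) (nat_lit 18) (.e (nat_lit 164149) (nat_lit 152) (.e (nat_lit 1204) (nat_lit 88) .nil))))))) (.g (nat_lit 5) .nil .nil))))) (.nd (nat_lit 4) (.nd (nat_lit 5) 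
(.lf (nat_lit 198605) (.g (nat_lit 1704) (.e (nat_lit 65653) (nat_lit 27) (.e (nat_lit 426344) (nat_lit 14) (.e (nat_lit 491552) (nat_lit 9) (.e (nat_lit 336250) (nat_lit 15) (.e (nat_lit 7082) (nat_lit 378) (.e (nat_lit 57897) (nat_lit 274) .nil)))))) (.g (nat_lit 0) .nil .nil))) 
(.lf (nat_lit 198637) (.g (nat_lit 2074) (.e (nat_lit 65653) (nat_lit 27) (.e (nat_lit 426344) (nat_lit 14) (.e (nat_lit 491568) (nat_lit 13) (.e (nat_lit 393249) (nat_lit 17) .nil)))) .nil))) (.nd (nat_lit 5) 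
(.lf (nat_lit 198621) (.g (nat_lit 1738) (.e (nat_lit 65653) (nat_lit 27) (.e (nat_lit 426344) (nat_lit 14) (.e (nat_lit 491556) (nat_lit 9) (.e (nat_lit 336437) (nat_lit 31) (.e (nat_lit 466688) (nat_lit 4) .nil))))) (.g (nat_lit 4) .nil .nil))) 
(.lf (nat_lit 198653) (.g (nat_lit 2846) (.e (nat_lit 65653) (nat_lit 27) (.e (nat_lit 426500) (nat_lit 27) (.e (nat_lit 336088) (nat_lit 9) (.e (nat_lit 336019) (nat_lit 3) (.e (nat_lit 98334) (nat_lit 18) (.e (nat_lit 164159) (nat_lit 152) (.e (nat_lit 7936) (nat_lit 88) .nil))))))) (.g (nat_lit 6) .nil .nil))))))) (.nd (nat_lit 2) (.nd (nat_lit 3) (.nd (nat_lit 4) (.nd (nat_lit 5) 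
(.lf (nat_lit 198595) (.g (nat_lit 483) (.e (nat_lit 65653) (nat_lit 27) (.e (nat_lit 426344) (nat_lit 14) (.e (nat_lit 491546) (nat_lit 9) .nil))) .nil)) 
(.lf (nat_lit 198627) (.g (nat_lit 1518) (.e (nat_lit 65653) (nat_lit 27) (.e (nat_lit 426344) (nat_lit 14) (.e (nat_lit 491567) (nat_lit 13) (.e (nat_lit 393232) (nat_lit 17) (.e (nat_lit 7589) (nat_lit 406) .nil))))) .nil))) (.nd (nat_lit 5) 
(.lf (nat_lit 198611) (.g (nat_lit 1632) (.e (nat_lit 65653) (nat_lit 27) (.e (nat_lit 426344) (nat_lit 14) (.e (nat_lit 491552) (nat_lit 9) (.e (nat_lit 336410) (nat_lit 27) (.e (nat_lit 425984) (nat_lit 0) (.e (nat_lit 7588) (nat_lit 406) .nil)))))) (.g (nat_lit 0) .nil .nil))) 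
(.lf (nat_lit 198643) (.g (nat_lit 716) (.e (nat_lit 65653) (nat_lit 27) (.e (nat_lit 426500) (nat_lit 27) (.e (nat_lit 336087) (nat_lit 9) (.e (nat_lit 336019) (nat_lit 3) .nil)))) .nil)))) (.nd (nat_lit 4) (.nd (nat_lit 5) 
(.lf (nat_lit 198603) (.g (nat_lit 1736) (.e (nat_lit 65653) (nat_lit 27) (.e (nat_lit 426344) (nat_lit 14) (.e (nat_lit 491552) (nat_lit 9) (.e (nat_lit 336250) (nat_lit 15) (.e (nat_lit 7077) (nat_lit 378) (.e (nat_lit 57897) (nat_lit 274) .nil)))))) (.g (nat_lit 0) .nil .nil))) 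
(.lf (nat_lit 198635) (.g (nat_lit 2134) (.e (nat_lit 65653) (nat_lit 27) (.e (nat_lit 426344) (nat_lit 14) (.e (nat_lit 491568) (nat_lit 13) (.e (nat_lit 393243) (nat_lit 17) .nil)))) .nil))) (.nd (nat_lit 5) 
(.lf (nat_lit 198619) (.g (nat_lit 1149) (.e (nat_lit 65653) (nat_lit 27) (.e (nat_lit 426344) (nat_lit 14) (.e (nat_lit 491556) (nat_lit 9) (.e (nat_lit 343808) (nat_lit 27) .nil)))) .nil)) 
(.lf (nat_lit 198651) (.g (nat_lit 1764) (.e (nat_lit 65653) (nat_lit 27) (.e (nat_lit 426500) (nat_lit 27) (.e (nat_lit 336088) (nat_lit 9) (.e (nat_lit 336019) (nat_lit 3) (.e (nat_lit 98334) (nat_lit 18) .nil))))) .nil))))) (.nd (nat_lit 3) (.nd (nat_lit 4) (.nd (nat_lit 5) 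
(.lf (nat_lit 198599) (.g (nat_lit 2208) (.e (nat_lit 65653) (nat_lit 27) (.e (nat_lit 426344) (nat_lit 14) (.e (nat_lit 491547) (nat_lit 9) (.e (nat_lit 336438) (nat_lit 31) (.e (nat_lit 466688) (nat_lit 4) .nil))))) (.g (nat_lit 4) .nil .nil))) 
(.lf (nat_lit 198631) (.g (nat_lit 2190) (.e (nat_lit 65653) (nat_lit 27) (.e (nat_lit 426344) (nat_lit 14) (.e (nat_lit 491568) (nat_lit 13) (.e (nat_lit 393230) (nat_lit 17) (.e (nat_lit 7587) (nat_lit 406) .nil))))) .nil))) (.nd (nat_lit 5) 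
(.lf (nat_lit 198615) (.g (nat_lit 1173) (.e (nat_lit 65653) (nat_lit 27) (.e (nat_lit 426344) (nat_lit 14) (.e (nat_lit 491556) (nat_lit 9) (.e (nat_lit 336298) (nat_lit 15) .nil)))) .nil)) 
(.lf (nat_lit 198647) (.g (nat_lit 2418) (.e (nat_lit 65653) (nat_lit 27) (.e (nat_lit 426500) (nat_lit 27) (.e (nat_lit 336087) (nat_lit 9) (.e (nat_lit 336019) (nat_lit 3) (.e (nat_lit 98334) (nat_lit 18) (.e (nat_lit 164159) (nat_lit 152) (.e (nat_lit 7936) (nat_lit 88) .nil))))))) (.g (nat_lit 6) .nil .nil))))) (.nd (nat_lit 4) (.nd (nat_lit 5) 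
(.lf (nat_lit 198607) (.g (nat_lit 1537) (.e (nat_lit 65653) (nat_lit 27) (.e (nat_lit 426344) (nat_lit 14) (.e (nat_lit 491552) (nat_lit 9) (.e (nat_lit 336363) (nat_lit 26) (.e (nat_lit 417793) (nat_lit 0) (.e (nat_lit 5405) (nat_lit 302) .nil)))))) (.g (nat_lit 0) .nil .nil))) 
(.lf (nat_lit 198639) (.g (nat_lit 1479) (.e (nat_lit 65653) (nat_lit 27) (.e (nat_lit 426500) (nat_lit 27) (.e (nat_lit 336076) (nat_lit 9) (.e (nat_lit 336324) (nat_lit 18) (.e (nat_lit 204830) (nat_lit 18) .nil))))) .nil))) (.nd (nat_lit 5) 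
(.lf (nat_lit 198623) (.g (nat_lit 2235) (.e (nat_lit 65653) (nat_lit 27) (.e (nat_lit 426344) (nat_lit 14) (.e (nat_lit 491563) (nat_lit 12) (.e (nat_lit 385034) (nat_lit 16) .nil)))) .nil)) 
(.lf (nat_lit 198655) (.g (nat_lit 3057) (.e (nat_lit 65653) (nat_lit 27) (.e (nat_lit 426500) (nat_lit 27) (.e (nat_lit 336088) (nat_lit 9) (.e (nat_lit 336324) (nat_lit 18) (.e (nat_lit 204831) (nat_lit 18) (.e (nat_lit 57830) (nat_lit 250) (.e (nat_lit 1193) (nat_lit 88) .nil))))))) (.g (nat_lit 6) .nil .nil)))))))))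

noncomputable def tv2628 : DT := (.nd (nat_lit 0) (.nd (nat_lit 1) (.nd (nat_lit 2) (.nd (nat_lit 3) (.nd (nat_lit 4) (.nd (nat_lit 5) (.nd (nat_lit 6) 
(.lf (nat_lit 198656) (.g (nat_lit 945) (.e (nat_lit 65653) (nat_lit 27) (.e (nat_lit 426500) (nat_lit 27) (.e (nat_lit 336088) (nat_lit 9) (.e (nat_lit 336326) (nat_lit 18) .nil)))) .nil)) 
(.lf (nat_lit 198720) (.g (nat_lit 1580) (.e (nat_lit 73472) (nat_lit 28) (.e (nat_lit 434180) (nat_lit 0) (.e (nat_lit 1427) (nat_lit 108) (.e (nat_lit 336421) (nat_lit 28) (.e (nat_lit 442112) (nat_lit 4) .nil))))) .nil))) (.nd (nat_lit 6) 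
(.lf (nat_lit 198688) (.g (nat_lit 1857) (.e (nat_lit 65653) (nat_lit 27) (.e (nat_lit 433920) (nat_lit 30) (.e (nat_lit 360474) (nat_lit 8) (.e (nat_lit 557091) (nat_lit 12) (.e (nat_lit 163999) (nat_lit 38) (.e (nat_lit 639019) (nat_lit 16) .nil)))))) (.g (nat_lit 5) .nil .nil))) 
(.lf (nat_lit 198752) (.g (nat_lit 1998) (.e (nat_lit 73472) (nat_lit 34) (.e (nat_lit 483383) (nat_lit 23) (.e (nat_lit 336019) (nat_lit 3) (.e (nat_lit 98334) (nat_lit 18) (.e (nat_lit 164147) (nat_lit 152) .nil))))) .nil)))) (.nd (nat_lit 5) (.nd (nat_lit 6) 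
(.lf (nat_lit 198672) (.g (nat_lit 2961) (.e (nat_lit 65653) (nat_lit 27) (.e (nat_lit 426500) (nat_lit 27) (.e (nat_lit 336186) (nat_lit 11) (.e (nat_lit 368676) (nat_lit 21) (.e (nat_lit 516115) (nat_lit 1) (.e (nat_lit 164156) (nat_lit 152) (.e (nat_lit 1202) (nat_lit 88) .nil))))))) (.g (nat_lit 6) .nil .nil))) 
(.lf (nat_lit 198736) (.g (nat_lit 1600) (.e (nat_lit 73472) (nat_lit 28) (.e (nat_lit 434181) (nat_lit 0) (.e (nat_lit 1661) (nat_lit 115) (.e (nat_lit 393238) (nat_lit 17) (.e (nat_lit 7936) (nat_lit 406) .nil))))) .nil))) (.nd (nat_lit 6) 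
(.lf (nat_lit 198704) (.g (nat_lit 2197) (.e (nat_lit 73472) (nat_lit 27) (.e (nat_lit 426347) (nat_lit 14) (.e (nat_lit 491549) (nat_lit 9) (.e (nat_lit 336414) (nat_lit 27) (.e (nat_lit 425984) (nat_lit 0) .nil))))) .nil)) 
(.lf (nat_lit 198768) (.g (nat_lit 1753) (.e (nat_lit 73472) (nat_lit 34) (.e (nat_lit 483399) (nat_lit 25) (.e (nat_lit 368676) (nat_lit 21) (.e (nat_lit 516115) (nat_lit 1) (.e (nat_lit 164149) (nat_lit 152) .nil))))) .nil))))) (.nd (nat_lit 4) (.nd (nat_lit 5) (.nd (nat_lit 6) 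
(.lf (nat_lit 198664) (.g (nat_lit 929) (.e (nat_lit 65653) (nat_lit 27) (.e (nat_lit 426500) (nat_lit 27) (.e (nat_lit 336184) (nat_lit 11) (.e (nat_lit 368676) (nat_lit 21) (.e (nat_lit 516119) (nat_lit 1) .nil))))) .nil)) 
(.lf (nat_lit 198728) (.g (nat_lit 757) (.e (nat_lit 73472) (nat_lit 28) (.e (nat_lit 434181) (nat_lit 0) (.e (nat_lit 1426) (nat_lit 108) (.e (nat_lit 336421) (nat_lit 28) (.e (nat_lit 442112) (nat_lit 4) .nil))))) .nil))) (.nd (nat_lit 6) 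
(.lf (nat_lit 198696) (.g (nat_lit 1676) (.e (nat_lit 73472) (nat_lit 27) (.e (nat_lit 426338) (nat_lit 14) (.e (nat_lit 491549) (nat_lit 9) (.e (nat_lit 336414) (nat_lit 27) .nil)))) .nil)) 
(.lf (nat_lit 198760) (.g (nat_lit 2149) (.e (nat_lit 73472) (nat_lit 34) (.e (nat_lit 483395) (nat_lit 24) (.e (nat_lit 344118) (nat_lit 21) (.e (nat_lit 516120) (nat_lit 1) (.e (nat_lit 164147) (nat_lit 152) .nil))))) .nil)))) (.nd (nat_lit 5) (.nd (nat_lit 6) 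
(.lf (nat_lit 198680) (.g (nat_lit 1746) (.e (nat_lit 65653) (nat_lit 27) (.e (nat_lit 426500) (nat_lit 27) (.e (nat_lit 336196) (nat_lit 12) (.e (nat_lit 385066) (nat_lit 26) (.e (nat_lit 532501) (nat_lit 1) (.e (nat_lit 57830) (nat_lit 250) (.e (nat_lit 1193) (nat_lit 88) .nil))))))) (.g (nat_lit 4) .nil .nil))) 
(.lf (nat_lit 198744) (.g (nat_lit 401) (.e (nat_lit 73472) (nat_lit 32) (.e (nat_lit 466945) (nat_lit 0) (.e (nat_lit 2170) (nat_lit 143) (.e (nat_lit 712749) (nat_lit 28) (.e (nat_lit 442112) (nat_lit 4) .nil))))) .nil))) (.nd (nat_lit 6) 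
(.lf (nat_lit 198712) (.g (nat_lit 2854) (.e (nat_lit 73472) (nat_lit 27) (.e (nat_lit 426347) (nat_lit 14) (.e (nat_lit 491571) (nat_lit 13) (.e (nat_lit 393232) (nat_lit 17) (.e (nat_lit 7589) (nat_lit 406) .nil))))) .nil)) 
(.lf (nat_lit 198776) (.g (nat_lit 2769) (.e (nat_lit 73472) (nat_lit 34) (.e (nat_lit 483413) (nat_lit 27) (.e (nat_lit 401427) (nat_lit 3) (.e (nat_lit 204829) (nat_lit 18) (.e (nat_lit 57731) (nat_lit 181) .nil))))) .nil)))))) (.nd (nat_lit 3) (.nd (nat_lit 4) (.nd (nat_lit 5) (.nd (nat_lit 6) 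
(.lf (nat_lit 198660) (.g (nat_lit 2345) (.e (nat_lit 65653) (nat_lit 27) (.e (nat_lit 426500) (nat_lit 27) (.e (nat_lit 336184) (nat_lit 11) (.e (nat_lit 368676) (nat_lit 21) (.e (nat_lit 516115) (nat_lit 1) (.e (nat_lit 164151) (nat_lit 152) (.e (nat_lit 1204) (nat_lit 88) .nil))))))) (.g (nat_lit 7) .nil .nil))) 
(.lf (nat_lit 198724) (.g (nat_lit 910) (.e (nat_lit 73472) (nat_lit 28) (.e (nat_lit 434180) (nat_lit 0) (.e (nat_lit 1661) (nat_lit 115) (.e (nat_lit 393235) (nat_lit 17) (.e (nat_lit 7936) (nat_lit 406) .nil))))) .nil))) (.nd (nat_lit 6) 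
(.lf (nat_lit 198692) (.g (nat_lit 1472) (.e (nat_lit 73472) (nat_lit 27) (.e (nat_lit 426163) (nat_lit 6) (.e (nat_lit 253992) (nat_lit 11) (.e (nat_lit 16411) (nat_lit 2) .nil)))) .nil)) 
(.lf (nat_lit 198756) (.g (nat_lit 2505) (.e (nat_lit 73472) (nat_lit 34) (.e (nat_lit 483394) (nat_lit 24) (.e (nat_lit 344117) (nat_lit 21) (.e (nat_lit 516116) (nat_lit 1) (.e (nat_lit 164147) (nat_lit 152) .nil))))) .nil)))) (.nd (nat_lit 5) (.nd (nat_lit 6) 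
(.lf (nat_lit 198676) (.g (nat_lit 1151) (.e (nat_lit 65653) (nat_lit 27) (.e (nat_lit 426500) (nat_lit 27) (.e (nat_lit 336186) (nat_lit 11) (.e (nat_lit 368676) (nat_lit 21) (.e (nat_lit 516119) (nat_lit 1) .nil))))) .nil)) 
(.lf (nat_lit 198740) (.g (nat_lit 1837) (.e (nat_lit 73472) (nat_lit 29) (.e (nat_lit 442379) (nat_lit 0) (.e (nat_lit 2059) (nat_lit 142) (.e (nat_lit 704595) (nat_lit 5) (.e (nat_lit 188160) (nat_lit 36) .nil))))) .nil))) (.nd (nat_lit 6) 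
(.lf (nat_lit 198708) (.g (nat_lit 1646) (.e (nat_lit 73472) (nat_lit 27) (.e (nat_lit 426347) (nat_lit 14) (.e (nat_lit 491550) (nat_lit 9) (.e (nat_lit 336421) (nat_lit 28) (.e (nat_lit 442112) (nat_lit 4) .nil))))) .nil)) 
(.lf (nat_lit 198772) (.g (nat_lit 2195) (.e (nat_lit 73472) (nat_lit 34) (.e (nat_lit 483411) (nat_lit 27) (.e (nat_lit 401426) (nat_lit 3) (.e (nat_lit 204830) (nat_lit 18) (.e (nat_lit 57730) (nat_lit 181) .nil))))) .nil))))) (.nd (nat_lit 4) (.nd (nat_lit 5) (.nd (nat_lit 6) 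
(.lf (nat_lit 198668) (.g (nat_lit 553) (.e (nat_lit 65653) (nat_lit 27) (.e (nat_lit 426500) (nat_lit 27) (.e (nat_lit 336186) (nat_lit 11) (.e (nat_lit 368676) (nat_lit 21) .nil)))) .nil)) 
(.lf (nat_lit 198732) (.g (nat_lit 1442) (.e (nat_lit 73472) (nat_lit 28) (.e (nat_lit 434181) (nat_lit 0) (.e (nat_lit 1427) (nat_lit 108) (.e (nat_lit 336438) (nat_lit 31) (.e (nat_lit 466688) (nat_lit 4) .nil))))) .nil))) (.nd (nat_lit 6) 
(.lf (nat_lit 198700) (.g (nat_lit 1655) (.e (nat_lit 73472) (nat_lit 27) (.e (nat_lit 426340) (nat_lit 14) (.e (nat_lit 491549) (nat_lit 9) (.e (nat_lit 336414) (nat_lit 27) (.e (nat_lit 425984) (nat_lit 0) .nil))))) .nil)) 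
(.lf (nat_lit 198764) (.g (nat_lit 1760) (.e (nat_lit 73472) (nat_lit 34) (.e (nat_lit 483396) (nat_lit 24) (.e (nat_lit 344119) (nat_lit 21) (.e (nat_lit 516119) (nat_lit 1) (.e (nat_lit 164163) (nat_lit 152) .nil))))) .nil)))) (.nd (nat_lit 5) (.nd (nat_lit 6) 
(.lf (nat_lit 198684) (.g (nat_lit 3345) (.e (nat_lit 65653) (nat_lit 27) (.e (nat_lit 426500) (nat_lit 27) (.e (nat_lit 336204) (nat_lit 12) (.e (nat_lit 385074) (nat_lit 31) (.e (nat_lit 573473) (nat_lit 12) (.e (nat_lit 57521) (nat_lit 44) (.e (nat_lit 688174) (nat_lit 16) .nil))))))) (.g (nat_lit 7) .nil .nil))) 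
(.lf (nat_lit 198748) (.g (nat_lit 406) (.e (nat_lit 73472) (nat_lit 32) (.e (nat_lit 466981) (nat_lit 23) (.e (nat_lit 204842) (nat_lit 22) .nil))) .nil))) (.nd (nat_lit 6) 
(.lf (nat_lit 198716) (.g (nat_lit 602) (.e (nat_lit 73472) (nat_lit 28) (.e (nat_lit 434180) (nat_lit 0) (.e (nat_lit 1425) (nat_lit 108) (.e (nat_lit 336421) (nat_lit 28) (.e (nat_lit 442112) (nat_lit 4) .nil))))) .nil)) 
(.lf (nat_lit 198780) (.g (nat_lit 2605) (.e (nat_lit 65655) (nat_lit 35) (.e (nat_lit 491546) (nat_lit 9) (.e (nat_lit 336028) (nat_lit 3) (.e (nat_lit 98313) (nat_lit 9) (.e (nat_lit 335995) (nat_lit 1) (.e (nat_lit 57872) (nat_lit 264) (.e (nat_lit 1188) (nat_lit 88) .nil))))))) (.g (nat_lit 4) .nil .nil)))))))) 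
(.nd (nat_lit 2) (.nd (nat_lit 3) (.nd (nat_lit 4) (.nd (nat_lit 5) (.nd (nat_lit 6) 
(.lf (nat_lit 198658) (.g (nat_lit 2163) (.e (nat_lit 65653) (nat_lit 27) (.e (nat_lit 426500) (nat_lit 27) (.e (nat_lit 336184) (nat_lit 11) (.e (nat_lit 368676) (nat_lit 21) (.e (nat_lit 516115) (nat_lit 1) (.e (nat_lit 164149) (nat_lit 152) (.e (nat_lit 1204) (nat_lit 88) .nil))))))) (.g (nat_lit 5) .nil .nil))) 
(.lf (nat_lit 198722) (.g (nat_lit 1346) (.e (nat_lit 73472) (nat_lit 28) (.e (nat_lit 434180) (nat_lit 0) (.e (nat_lit 1428) (nat_lit 108) (.e (nat_lit 336414) (nat_lit 27) (.e (nat_lit 425987) (nat_lit 0) .nil))))) .nil))) (.nd (nat_lit 6) 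
(.lf (nat_lit 198690) (.g (nat_lit 1811) (.e (nat_lit 65654) (nat_lit 27) (.e (nat_lit 426306) (nat_lit 12) (.e (nat_lit 475211) (nat_lit 41) (.e (nat_lit 712749) (nat_lit 28) .nil)))) .nil)) 
(.lf (nat_lit 198754) (.g (nat_lit 2770) (.e (nat_lit 73472) (nat_lit 34) (.e (nat_lit 483385) (nat_lit 23) (.e (nat_lit 336019) (nat_lit 3) (.e (nat_lit 98333) (nat_lit 18) (.e (nat_lit 164149) (nat_lit 152) .nil))))) .nil)))) (.nd (nat_lit 5) (.nd (nat_lit 6) 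
(.lf (nat_lit 198674) (.g (nat_lit 1484) (.e (nat_lit 65653) (nat_lit 27) (.e (nat_lit 426500) (nat_lit 27) (.e (nat_lit 336186) (nat_lit 11) (.e (nat_lit 368676) (nat_lit 21) (.e (nat_lit 516117) (nat_lit 1) (.e (nat_lit 164159) (nat_lit 152) (.e (nat_lit 1187) (nat_lit 88) .nil))))))) (.g (nat_lit 4) .nil .nil))) 
(.lf (nat_lit 198738) (.g (nat_lit 1957) (.e (nat_lit 73472) (nat_lit 29) (.e (nat_lit 442374) (nat_lit 0) (.e (nat_lit 2059) (nat_lit 142) (.e (nat_lit 704595) (nat_lit 5) (.e (nat_lit 188160) (nat_lit 36) .nil))))) .nil))) (.nd (nat_lit 6) 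
(.lf (nat_lit 198706) (.g (nat_lit 2071) (.e (nat_lit 73472) (nat_lit 27) (.e (nat_lit 426347) (nat_lit 14) (.e (nat_lit 491550) (nat_lit 9) (.e (nat_lit 336414) (nat_lit 27) (.e (nat_lit 425984) (nat_lit 0) .nil))))) .nil)) 
(.lf (nat_lit 198770) (.g (nat_lit 2151) (.e (nat_lit 73472) (nat_lit 34) (.e (nat_lit 483401) (nat_lit 25) (.e (nat_lit 368676) (nat_lit 21) (.e (nat_lit 516119) (nat_lit 1) (.e (nat_lit 164147) (nat_lit 152) .nil))))) .nil))))) (.nd (nat_lit 4) (.nd (nat_lit 5) (.nd (nat_lit 6) 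
(.lf (nat_lit 198666) (.g (nat_lit 2638) (.e (nat_lit 65653) (nat_lit 27) (.e (nat_lit 426500) (nat_lit 27) (.e (nat_lit 336184) (nat_lit 11) (.e (nat_lit 368676) (nat_lit 21) (.e (nat_lit 516119) (nat_lit 1) (.e (nat_lit 164150) (nat_lit 152) (.e (nat_lit 1204) (nat_lit 88) .nil))))))) (.g (nat_lit 6) .nil .nil))) 
(.lf (nat_lit 198730) (.g (nat_lit 1859) (.e (nat_lit 73472) (nat_lit 28) (.e (nat_lit 434181) (nat_lit 0) (.e (nat_lit 1427) (nat_lit 108) (.e (nat_lit 336414) (nat_lit 27) (.e (nat_lit 425987) (nat_lit 0) .nil))))) .nil))) (.nd (nat_lit 6) 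
(.lf (nat_lit 198698) (.g (nat_lit 1872) (.e (nat_lit 73472) (nat_lit 27) (.e (nat_lit 426338) (nat_lit 14) (.e (nat_lit 491571) (nat_lit 13) (.e (nat_lit 393232) (nat_lit 17) (.e (nat_lit 7587) (nat_lit 406) .nil))))) .nil)) 
(.lf (nat_lit 198762) (.g (nat_lit 1370) (.e (nat_lit 73472) (nat_lit 34) (.e (nat_lit 483395) (nat_lit 24) (.e (nat_lit 344120) (nat_lit 21) (.e (nat_lit 516119) (nat_lit 1) (.e (nat_lit 164149) (nat_lit 152) .nil))))) .nil)))) (.nd (nat_lit 5) (.nd (nat_lit 6) 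
(.lf (nat_lit 198682) (.g (nat_lit 2787) (.e (nat_lit 65653) (nat_lit 27) (.e (nat_lit 426500) (nat_lit 27) (.e (nat_lit 336204) (nat_lit 12) (.e (nat_lit 385074) (nat_lit 31) (.e (nat_lit 573473) (nat_lit 12) (.e (nat_lit 57521) (nat_lit 44) (.e (nat_lit 688172) (nat_lit 16) .nil))))))) (.g (nat_lit 5) .nil .nil))) 
(.lf (nat_lit 198746) (.g (nat_lit 1383) (.e (nat_lit 73472) (nat_lit 32) (.e (nat_lit 466949) (nat_lit 0) (.e (nat_lit 2059) (nat_lit 142) (.e (nat_lit 704595) (nat_lit 5) (.e (nat_lit 188160) (nat_lit 36) .nil))))) .nil))) (.nd (nat_lit 6) 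
(.lf (nat_lit 198714) (.g (nat_lit 1756) (.e (nat_lit 73472) (nat_lit 27) (.e (nat_lit 426347) (nat_lit 14) (.e (nat_lit 491571) (nat_lit 13) (.e (nat_lit 393242) (nat_lit 17) .nil)))) .nil)) 
(.lf (nat_lit 198778) (.g (nat_lit 4094) (.e (nat_lit 65655) (nat_lit 35) (.e (nat_lit 491546) (nat_lit 9) (.e (nat_lit 336013) (nat_lit 2) (.e (nat_lit 90160) (nat_lit 11) (.e (nat_lit 24584) (nat_lit 0) .nil))))) .nil)))))) (.nd (nat_lit 3) (.nd (nat_lit 4) (.nd (nat_lit 5) (.nd (nat_lit 6) 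
(.lf (nat_lit 198662) (.g (nat_lit 2210) (.e (nat_lit 65653) (nat_lit 27) (.e (nat_lit 426500) (nat_lit 27) (.e (nat_lit 336184) (nat_lit 11) (.e (nat_lit 368676) (nat_lit 21) (.e (nat_lit 516117) (nat_lit 1) (.e (nat_lit 164147) (nat_lit 152) (.e (nat_lit 1204) (nat_lit 88) .nil))))))) (.g (nat_lit 5) .nil .nil))) 
(.lf (nat_lit 198726) (.g (nat_lit 1047) (.e (nat_lit 73472) (nat_lit 28) (.e (nat_lit 434180) (nat_lit 0) (.e (nat_lit 1661) (nat_lit 115) (.e (nat_lit 393242) (nat_lit 17) (.e (nat_lit 7936) (nat_lit 406) .nil))))) .nil))) (.nd (nat_lit 6) 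
(.lf (nat_lit 198694) (.g (nat_lit 2275) (.e (nat_lit 73472) (nat_lit 27) (.e (nat_lit 426306) (nat_lit 12) (.e (nat_lit 475211) (nat_lit 41) (.e (nat_lit 712745) (nat_lit 27) (.e (nat_lit 425984) (nat_lit 0) .nil))))) .nil)) 
(.lf (nat_lit 198758) (.g (nat_lit 2366) (.e (nat_lit 73472) (nat_lit 34) (.e (nat_lit 483395) (nat_lit 24) (.e (nat_lit 344117) (nat_lit 21) (.e (nat_lit 516115) (nat_lit 1) (.e (nat_lit 164163) (nat_lit 152) .nil))))) .nil)))) (.nd (nat_lit 5) (.nd (nat_lit 6) 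
(.lf (nat_lit 198678) (.g (nat_lit 2756) (.e (nat_lit 65653) (nat_lit 27) (.e (nat_lit 426500) (nat_lit 27) (.e (nat_lit 336186) (nat_lit 11) (.e (nat_lit 368676) (nat_lit 21) (.e (nat_lit 516119) (nat_lit 1) (.e (nat_lit 164150) (nat_lit 152) (.e (nat_lit 1204) (nat_lit 88) .nil))))))) (.g (nat_lit 6) .nil .nil))) 
(.lf (nat_lit 198742) (.g (nat_lit 692) (.e (nat_lit 73472) (nat_lit 29) (.e (nat_lit 442427) (nat_lit 23) (.e (nat_lit 204842) (nat_lit 22) (.e (nat_lit 147504) (nat_lit 12) (.e (nat_lit 164042) (nat_lit 55) .nil))))) .nil))) (.nd (nat_lit 6) 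
(.lf (nat_lit 198710) (.g (nat_lit 2223) (.e (nat_lit 73472) (nat_lit 27) (.e (nat_lit 426347) (nat_lit 14) (.e (nat_lit 491571) (nat_lit 13) (.e (nat_lit 393231) (nat_lit 17) (.e (nat_lit 7589) (nat_lit 406) .nil))))) .nil)) 
(.lf (nat_lit 198774) (.g (nat_lit 1333) (.e (nat_lit 73472) (nat_lit 34) (.e (nat_lit 483413) (nat_lit 27) (.e (nat_lit 401426) (nat_lit 3) (.e (nat_lit 204830) (nat_lit 18) .nil)))) .nil))))) (.nd (nat_lit 4) (.nd (nat_lit 5) (.nd (nat_lit 6) 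
(.lf (nat_lit 198670) (.g (nat_lit 2382) (.e (nat_lit 65653) (nat_lit 27) (.e (nat_lit 426500) (nat_lit 27) (.e (nat_lit 336186) (nat_lit 11) (.e (nat_lit 368676) (nat_lit 21) (.e (nat_lit 516115) (nat_lit 1) (.e (nat_lit 164151) (nat_lit 152) (.e (nat_lit 1203) (nat_lit 88) .nil))))))) (.g (nat_lit 6) .nil .nil))) 
(.lf (nat_lit 198734) (.g (nat_lit 1701) (.e (nat_lit 73472) (nat_lit 28) (.e (nat_lit 434181) (nat_lit 0) (.e (nat_lit 1661) (nat_lit 115) (.e (nat_lit 393232) (nat_lit 17) (.e (nat_lit 7936) (nat_lit 406) .nil))))) .nil))) (.nd (nat_lit 6) 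
(.lf (nat_lit 198702) (.g (nat_lit 992) (.e (nat_lit 73472) (nat_lit 27) (.e (nat_lit 426340) (nat_lit 14) (.e (nat_lit 491549) (nat_lit 9) (.e (nat_lit 336421) (nat_lit 28) (.e (nat_lit 442112) (nat_lit 4) .nil))))) .nil)) 
(.lf (nat_lit 198766) (.g (nat_lit 2165) (.e (nat_lit 73472) (nat_lit 34) (.e (nat_lit 483397) (nat_lit 25) (.e (nat_lit 368676) (nat_lit 21) (.e (nat_lit 516115) (nat_lit 1) (.e (nat_lit 164163) (nat_lit 152) .nil))))) .nil)))) (.nd (nat_lit 5) (.nd (nat_lit 6) 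
(.lf (nat_lit 198686) (.g (nat_lit 3107) (.e (nat_lit 65653) (nat_lit 27) (.e (nat_lit 426500) (nat_lit 27) (.e (nat_lit 336204) (nat_lit 12) (.e (nat_lit 385074) (nat_lit 31) (.e (nat_lit 573475) (nat_lit 12) (.e (nat_lit 57520) (nat_lit 44) (.e (nat_lit 688173) (nat_lit 16) .nil))))))) (.g (nat_lit 6) .nil .nil))) 
(.lf (nat_lit 198750) (.g (nat_lit 966) (.e (nat_lit 73472) (nat_lit 34) (.e (nat_lit 483380) (nat_lit 23) (.e (nat_lit 336019) (nat_lit 3) .nil))) .nil))) (.nd (nat_lit 6) 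
(.lf (nat_lit 198718) (.g (nat_lit 2138) (.e (nat_lit 73472) (nat_lit 28) (.e (nat_lit 434180) (nat_lit 0) (.e (nat_lit 1427) (nat_lit 108) (.e (nat_lit 336414) (nat_lit 27) (.e (nat_lit 425984) (nat_lit 0) .nil))))) .nil)) 
(.lf (nat_lit 198782) (.g (nat_lit 2588) (.e (nat_lit 65655) (nat_lit 35) (.e (nat_lit 491549) (nat_lit 9) (.e (nat_lit 336016) (nat_lit 2) (.e (nat_lit 90160) (nat_lit 11) (.e (nat_lit 24584) (nat_lit 0) .nil))))) .nil)))))))) (.nd (nat_lit 1) (.nd (nat_lit 2) (.nd (nat_lit 3) (.nd (nat_lit 4) (.nd (nat_lit 5) (.nd (nat_lit 6) 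
(.lf (nat_lit 198657) (.g (nat_lit 2435) (.e (nat_lit 65653) (nat_lit 27) (.e (nat_lit 426500) (nat_lit 27) (.e (nat_lit 336184) (nat_lit 11) (.e (nat_lit 368676) (nat_lit 21) (.e (nat_lit 516115) (nat_lit 1) (.e (nat_lit 164148) (nat_lit 152) (.e (nat_lit 1204) (nat_lit 88) .nil))))))) (.g (nat_lit 5) .nil .nil))) 
(.lf (nat_lit 198721) (.g (nat_lit 1524) (.e (nat_lit 73472) (nat_lit 28) (.e (nat_lit 434180) (nat_lit 0) (.e (nat_lit 1427) (nat_lit 108) (.e (nat_lit 336438) (nat_lit 31) (.e (nat_lit 466688) (nat_lit 4) .nil))))) .nil))) (.nd (nat_lit 6) 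
(.lf (nat_lit 198689) (.g (nat_lit 742) (.e (nat_lit 65654) (nat_lit 27) (.e (nat_lit 426306) (nat_lit 12) (.e (nat_lit 475210) (nat_lit 41) .nil))) .nil)) 
(.lf (nat_lit 198753) (.g (nat_lit 1921) (.e (nat_lit 73472) (nat_lit 34) (.e (nat_lit 483383) (nat_lit 23) (.e (nat_lit 336019) (nat_lit 3) (.e (nat_lit 98335) (nat_lit 18) (.e (nat_lit 164149) (nat_lit 152) .nil))))) .nil)))) (.nd (nat_lit 5) (.nd (nat_lit 6) 
(.lf (nat_lit 198673) (.g (nat_lit 2337) (.e (nat_lit 65653) (nat_lit 27) (.e (nat_lit 426500) (nat_lit 27) (.e (nat_lit 336186) (nat_lit 11) (.e (nat_lit 368676) (nat_lit 21) (.e (nat_lit 516117) (nat_lit 1) (.e (nat_lit 164147) (nat_lit 152) (.e (nat_lit 1204) (nat_lit 88) .nil))))))) (.g (nat_lit 5) .nil .nil))) 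
(.lf (nat_lit 198737) (.g (nat_lit 1318) (.e (nat_lit 73472) (nat_lit 28) (.e (nat_lit 434181) (nat_lit 0) (.e (nat_lit 1661) (nat_lit 115) (.e (nat_lit 393242) (nat_lit 17) (.e (nat_lit 7936) (nat_lit 406) .nil))))) .nil))) (.nd (nat_lit 6) 
(.lf (nat_lit 198705) (.g (nat_lit 2241) (.e (nat_lit 73472) (nat_lit 27) (.e (nat_lit 426347) (nat_lit 14) (.e (nat_lit 491549) (nat_lit 9) (.e (nat_lit 336414) (nat_lit 27) (.e (nat_lit 425987) (nat_lit 0) .nil))))) .nil)) 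
(.lf (nat_lit 198769) (.g (nat_lit 2135) (.e (nat_lit 73472) (nat_lit 34) (.e (nat_lit 483401) (nat_lit 25) (.e (nat_lit 368676) (nat_lit 21) (.e (nat_lit 516117) (nat_lit 1) (.e (nat_lit 164147) (nat_lit 152) .nil))))) .nil))))) (.nd (nat_lit 4) (.nd (nat_lit 5) (.nd (nat_lit 6) 
(.lf (nat_lit 198665) (.g (nat_lit 2658) (.e (nat_lit 65653) (nat_lit 27) (.e (nat_lit 426500) (nat_lit 27) (.e (nat_lit 336184) (nat_lit 11) (.e (nat_lit 368676) (nat_lit 21) (.e (nat_lit 516119) (nat_lit 1) (.e (nat_lit 164149) (nat_lit 152) (.e (nat_lit 1204) (nat_lit 88) .nil))))))) (.g (nat_lit 6) .nil .nil))) 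
(.lf (nat_lit 198729) (.g (nat_lit 1997) (.e (nat_lit 73472) (nat_lit 28) (.e (nat_lit 434181) (nat_lit 0) (.e (nat_lit 1427) (nat_lit 108) (.e (nat_lit 336414) (nat_lit 27) (.e (nat_lit 425984) (nat_lit 0) .nil))))) .nil))) (.nd (nat_lit 6) 
(.lf (nat_lit 198697) (.g (nat_lit 1223) (.e (nat_lit 73472) (nat_lit 27) (.e (nat_lit 426338) (nat_lit 14) (.e (nat_lit 491571) (nat_lit 13) (.e (nat_lit 393231) (nat_lit 17) .nil)))) .nil)) 
(.lf (nat_lit 198761) (.g (nat_lit 438) (.e (nat_lit 73472) (nat_lit 34) (.e (nat_lit 483395) (nat_lit 24) (.e (nat_lit 344120) (nat_lit 21) .nil))) .nil)))) (.nd (nat_lit 5) (.nd (nat_lit 6) 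
(.lf (nat_lit 198681) (.g (nat_lit 1836) (.e (nat_lit 65653) (nat_lit 27) (.e (nat_lit 426500) (nat_lit 27) (.e (nat_lit 336196) (nat_lit 12) (.e (nat_lit 385066) (nat_lit 26) (.e (nat_lit 532504) (nat_lit 1) (.e (nat_lit 57830) (nat_lit 250) (.e (nat_lit 1193) (nat_lit 88) .nil))))))) (.g (nat_lit 4) .nil .nil))) 
(.lf (nat_lit 198745) (.g (nat_lit 1705) (.e (nat_lit 73472) (nat_lit 32) (.e (nat_lit 466947) (nat_lit 0) (.e (nat_lit 2059) (nat_lit 142) (.e (nat_lit 704595) (nat_lit 5) (.e (nat_lit 188160) (nat_lit 36) .nil))))) .nil))) (.nd (nat_lit 6) 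
(.lf (nat_lit 198713) (.g (nat_lit 2208) (.e (nat_lit 73472) (nat_lit 27) (.e (nat_lit 426347) (nat_lit 14) (.e (nat_lit 491571) (nat_lit 13) (.e (nat_lit 393235) (nat_lit 17) .nil)))) .nil)) 
(.lf (nat_lit 198777) (.g (nat_lit 1413) (.e (nat_lit 73472) (nat_lit 34) (.e (nat_lit 483413) (nat_lit 27) (.e (nat_lit 401427) (nat_lit 3) (.e (nat_lit 204830) (nat_lit 18) .nil)))) .nil)))))) (.nd (nat_lit 3) (.nd (nat_lit 4) (.nd (nat_lit 5) (.nd (nat_lit 6) 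
(.lf (nat_lit 198661) (.g (nat_lit 2824) (.e (nat_lit 65653) (nat_lit 27) (.e (nat_lit 426500) (nat_lit 27) (.e (nat_lit 336184) (nat_lit 11) (.e (nat_lit 368676) (nat_lit 21) (.e (nat_lit 516115) (nat_lit 1) (.e (nat_lit 164156) (nat_lit 152) (.e (nat_lit 1202) (nat_lit 88) .nil))))))) (.g (nat_lit 6) .nil .nil))) 
(.lf (nat_lit 198725) (.g (nat_lit 1579) (.e (nat_lit 73472) (nat_lit 28) (.e (nat_lit 434180) (nat_lit 0) (.e (nat_lit 1661) (nat_lit 115) (.e (nat_lit 393238) (nat_lit 17) (.e (nat_lit 7936) (nat_lit 406) .nil))))) .nil))) (.nd (nat_lit 6) 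
(.lf (nat_lit 198693) (.g (nat_lit 3150) (.e (nat_lit 73472) (nat_lit 27) (.e (nat_lit 426306) (nat_lit 12) (.e (nat_lit 475210) (nat_lit 41) (.e (nat_lit 712745) (nat_lit 27) (.e (nat_lit 425984) (nat_lit 0) .nil))))) .nil)) 
(.lf (nat_lit 198757) (.g (nat_lit 2196) (.e (nat_lit 73472) (nat_lit 34) (.e (nat_lit 483395) (nat_lit 24) (.e (nat_lit 344117) (nat_lit 21) (.e (nat_lit 516115) (nat_lit 1) (.e (nat_lit 164150) (nat_lit 152) .nil))))) .nil)))) (.nd (nat_lit 5) (.nd (nat_lit 6) 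
(.lf (nat_lit 198677) (.g (nat_lit 2802) (.e (nat_lit 65653) (nat_lit 27) (.e (nat_lit 426500) (nat_lit 27) (.e (nat_lit 336186) (nat_lit 11) (.e (nat_lit 368676) (nat_lit 21) (.e (nat_lit 516119) (nat_lit 1) (.e (nat_lit 164149) (nat_lit 152) (.e (nat_lit 1204) (nat_lit 88) .nil))))))) (.g (nat_lit 6) .nil .nil))) 
(.lf (nat_lit 198741) (.g (nat_lit 358) (.e (nat_lit 73472) (nat_lit 29) (.e (nat_lit 442425) (nat_lit 23) (.e (nat_lit 204842) (nat_lit 22) .nil))) .nil))) (.nd (nat_lit 6) 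
(.lf (nat_lit 198709) (.g (nat_lit 2249) (.e (nat_lit 73472) (nat_lit 27) (.e (nat_lit 426347) (nat_lit 14) (.e (nat_lit 491571) (nat_lit 13) (.e (nat_lit 393231) (nat_lit 17) (.e (nat_lit 7587) (nat_lit 406) .nil))))) .nil)) 
(.lf (nat_lit 198773) (.g (nat_lit 2315) (.e (nat_lit 73472) (nat_lit 34) (.e (nat_lit 483411) (nat_lit 27) (.e (nat_lit 401426) (nat_lit 3) (.e (nat_lit 204830) (nat_lit 18) (.e (nat_lit 57731) (nat_lit 181) .nil))))) .nil))))) (.nd (nat_lit 4) (.nd (nat_lit 5) (.nd (nat_lit 6) 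
(.lf (nat_lit 198669) (.g (nat_lit 2575) (.e (nat_lit 65653) (nat_lit 27) (.e (nat_lit 426500) (nat_lit 27) (.e (nat_lit 336186) (nat_lit 11) (.e (nat_lit 368676) (nat_lit 21) (.e (nat_lit 516115) (nat_lit 1) (.e (nat_lit 164148) (nat_lit 152) (.e (nat_lit 1204) (nat_lit 88) .nil))))))) (.g (nat_lit 5) .nil .nil))) 
(.lf (nat_lit 198733) (.g (nat_lit 1525) (.e (nat_lit 73472) (nat_lit 28) (.e (nat_lit 434181) (nat_lit 0) (.e (nat_lit 1428) (nat_lit 108) (.e (nat_lit 336421) (nat_lit 28) (.e (nat_lit 442112) (nat_lit 4) .nil))))) .nil))) (.nd (nat_lit 6) 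
(.lf (nat_lit 198701) (.g (nat_lit 1788) (.e (nat_lit 73472) (nat_lit 27) (.e (nat_lit 426340) (nat_lit 14) (.e (nat_lit 491549) (nat_lit 9) (.e (nat_lit 336414) (nat_lit 27) (.e (nat_lit 425987) (nat_lit 0) .nil))))) .nil)) 
(.lf (nat_lit 198765) (.g (nat_lit 1413) (.e (nat_lit 73472) (nat_lit 34) (.e (nat_lit 483397) (nat_lit 25) (.e (nat_lit 368676) (nat_lit 21) (.e (nat_lit 516115) (nat_lit 1) (.e (nat_lit 164151) (nat_lit 152) .nil))))) .nil)))) (.nd (nat_lit 5) (.nd (nat_lit 6) 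
(.lf (nat_lit 198685) (.g (nat_lit 3622) (.e (nat_lit 65653) (nat_lit 27) (.e (nat_lit 426500) (nat_lit 27) (.e (nat_lit 336204) (nat_lit 12) (.e (nat_lit 385074) (nat_lit 31) (.e (nat_lit 573473) (nat_lit 12) (.e (nat_lit 57521) (nat_lit 44) (.e (nat_lit 688175) (nat_lit 16) .nil))))))) (.g (nat_lit 7) .nil .nil))) 
(.lf (nat_lit 198749) (.g (nat_lit 198) (.e (nat_lit 73472) (nat_lit 34) (.e (nat_lit 483365) (nat_lit 18) (.e (nat_lit 57848) (nat_lit 252) .nil))) .nil))) (.nd (nat_lit 6) 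
(.lf (nat_lit 198717) (.g (nat_lit 715) (.e (nat_lit 73472) (nat_lit 28) (.e (nat_lit 434180) (nat_lit 0) (.e (nat_lit 1426) (nat_lit 108) (.e (nat_lit 336421) (nat_lit 28) (.e (nat_lit 442112) (nat_lit 4) .nil))))) .nil)) 
(.lf (nat_lit 198781) (.g (nat_lit 3870) (.e (nat_lit 65655) (nat_lit 35) (.e (nat_lit 491546) (nat_lit 9) (.e (nat_lit 336028) (nat_lit 3) (.e (nat_lit 98313) (nat_lit 9) (.e (nat_lit 335995) (nat_lit 1) (.e (nat_lit 57872) (nat_lit 264) (.e (nat_lit 1190) (nat_lit 88) .nil))))))) (.g (nat_lit 0) .nil .nil)))))))) 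
(.nd (nat_lit 2) (.nd (nat_lit 3) (.nd (nat_lit 4) (.nd (nat_lit 5) (.nd (nat_lit 6) 
(.lf (nat_lit 198659) (.g (nat_lit 2271) (.e (nat_lit 65653) (nat_lit 27) (.e (nat_lit 426500) (nat_lit 27) (.e (nat_lit 336184) (nat_lit 11) (.e (nat_lit 368676) (nat_lit 21) (.e (nat_lit 516115) (nat_lit 1) (.e (nat_lit 164151) (nat_lit 152) (.e (nat_lit 1203) (nat_lit 88) .nil))))))) (.g (nat_lit 6) .nil .nil))) 
(.lf (nat_lit 198723) (.g (nat_lit 1303) (.e (nat_lit 73472) (nat_lit 28) (.e (nat_lit 434180) (nat_lit 0) (.e (nat_lit 1428) (nat_lit 108) (.e (nat_lit 336421) (nat_lit 28) (.e (nat_lit 442112) (nat_lit 4) .nil))))) .nil))) (.nd (nat_lit 6) 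
(.lf (nat_lit 198691) (.g (nat_lit 129) (.e (nat_lit 73472) (nat_lit 27) (.e (nat_lit 425984) (nat_lit 0) (.e (nat_lit 7588) (nat_lit 406) .nil))) .nil)) 
(.lf (nat_lit 198755) (.g (nat_lit 2199) (.e (nat_lit 73472) (nat_lit 34) (.e (nat_lit 483385) (nat_lit 23) (.e (nat_lit 336019) (nat_lit 3) (.e (nat_lit 98334) (nat_lit 18) (.e (nat_lit 164147) (nat_lit 152) .nil))))) .nil)))) (.nd (nat_lit 5) (.nd (nat_lit 6) 
(.lf (nat_lit 198675) (.g (nat_lit 2175) (.e (nat_lit 65653) (nat_lit 27) (.e (nat_lit 426500) (nat_lit 27) (.e (nat_lit 336186) (nat_lit 11) (.e (nat_lit 368676) (nat_lit 21) (.e (nat_lit 516117) (nat_lit 1) (.e (nat_lit 164159) (nat_lit 152) (.e (nat_lit 7936) (nat_lit 88) .nil))))))) (.g (nat_lit 6) .nil .nil))) 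
(.lf (nat_lit 198739) (.g (nat_lit 1440) (.e (nat_lit 73472) (nat_lit 29) (.e (nat_lit 442377) (nat_lit 0) (.e (nat_lit 2059) (nat_lit 142) (.e (nat_lit 704595) (nat_lit 5) (.e (nat_lit 188160) (nat_lit 36) .nil))))) .nil))) (.nd (nat_lit 6) 
(.lf (nat_lit 198707) (.g (nat_lit 2039) (.e (nat_lit 73472) (nat_lit 27) (.e (nat_lit 426347) (nat_lit 14) (.e (nat_lit 491550) (nat_lit 9) (.e (nat_lit 336414) (nat_lit 27) (.e (nat_lit 425987) (nat_lit 0) .nil))))) .nil)) 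
(.lf (nat_lit 198771) (.g (nat_lit 1608) (.e (nat_lit 73472) (nat_lit 34) (.e (nat_lit 483406) (nat_lit 26) (.e (nat_lit 385066) (nat_lit 26) (.e (nat_lit 532481) (nat_lit 0) .nil)))) .nil))))) (.nd (nat_lit 4) (.nd (nat_lit 5) (.nd (nat_lit 6) 
(.lf (nat_lit 198667) (.g (nat_lit 2439) (.e (nat_lit 65653) (nat_lit 27) (.e (nat_lit 426500) (nat_lit 27) (.e (nat_lit 336184) (nat_lit 11) (.e (nat_lit 368676) (nat_lit 21) (.e (nat_lit 516119) (nat_lit 1) (.e (nat_lit 164154) (nat_lit 152) (.e (nat_lit 1193) (nat_lit 88) .nil))))))) (.g (nat_lit 5) .nil .nil))) 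
(.lf (nat_lit 198731) (.g (nat_lit 1543) (.e (nat_lit 73472) (nat_lit 28) (.e (nat_lit 434181) (nat_lit 0) (.e (nat_lit 1427) (nat_lit 108) (.e (nat_lit 336421) (nat_lit 28) (.e (nat_lit 442112) (nat_lit 4) .nil))))) .nil))) (.nd (nat_lit 6) 
(.lf (nat_lit 198699) (.g (nat_lit 1841) (.e (nat_lit 73472) (nat_lit 27) (.e (nat_lit 426338) (nat_lit 14) (.e (nat_lit 491571) (nat_lit 13) (.e (nat_lit 393232) (nat_lit 17) (.e (nat_lit 7589) (nat_lit 406) .nil))))) .nil)) 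
(.lf (nat_lit 198763) (.g (nat_lit 384) (.e (nat_lit 73472) (nat_lit 34) (.e (nat_lit 483396) (nat_lit 24) (.e (nat_lit 344119) (nat_lit 21) .nil))) .nil)))) (.nd (nat_lit 5) (.nd (nat_lit 6) 
(.lf (nat_lit 198683) (.g (nat_lit 3195) (.e (nat_lit 65653) (nat_lit 27) (.e (nat_lit 426500) (nat_lit 27) (.e (nat_lit 336204) (nat_lit 12) (.e (nat_lit 385074) (nat_lit 31) (.e (nat_lit 573473) (nat_lit 12) (.e (nat_lit 57521) (nat_lit 44) (.e (nat_lit 688173) (nat_lit 16) .nil))))))) (.g (nat_lit 7) .nil .nil))) 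
(.lf (nat_lit 198747) (.g (nat_lit 1233) (.e (nat_lit 73472) (nat_lit 32) (.e (nat_lit 466972) (nat_lit 21) (.e (nat_lit 164402) (nat_lit 256) (.e (nat_lit 57400) (nat_lit 10) (.e (nat_lit 319505) (nat_lit 10) .nil))))) .nil))) (.nd (nat_lit 6) 
(.lf (nat_lit 198715) (.g (nat_lit 581) (.e (nat_lit 73472) (nat_lit 27) (.e (nat_lit 426546) (nat_lit 30) (.e (nat_lit 360466) (nat_lit 3) (.e (nat_lit 516120) (nat_lit 1) .nil)))) .nil)) 
(.lf (nat_lit 198779) (.g (nat_lit 1783) (.e (nat_lit 65655) (nat_lit 35) (.e (nat_lit 491546) (nat_lit 9) (.e (nat_lit 336028) (nat_lit 3) (.e (nat_lit 98312) (nat_lit 9) .nil)))) .nil)))))) (.nd (nat_lit 3) (.nd (nat_lit 4) (.nd (nat_lit 5) (.nd (nat_lit 6) 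
(.lf (nat_lit 198663) (.g (nat_lit 1895) (.e (nat_lit 65653) (nat_lit 27) (.e (nat_lit 426500) (nat_lit 27) (.e (nat_lit 336184) (nat_lit 11) (.e (nat_lit 368676) (nat_lit 21) (.e (nat_lit 516117) (nat_lit 1) (.e (nat_lit 164159) (nat_lit 152) (.e (nat_lit 7936) (nat_lit 88) .nil))))))) (.g (nat_lit 6) .nil .nil))) 
(.lf (nat_lit 198727) (.g (nat_lit 615) (.e (nat_lit 73472) (nat_lit 28) (.e (nat_lit 434181) (nat_lit 0) (.e (nat_lit 1425) (nat_lit 108) (.e (nat_lit 336421) (nat_lit 28) (.e (nat_lit 442112) (nat_lit 4) .nil))))) .nil))) (.nd (nat_lit 6) 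
(.lf (nat_lit 198695) (.g (nat_lit 1549) (.e (nat_lit 73472) (nat_lit 27) (.e (nat_lit 426306) (nat_lit 12) (.e (nat_lit 475211) (nat_lit 41) (.e (nat_lit 712749) (nat_lit 28) .nil)))) .nil)) 
(.lf (nat_lit 198759) (.g (nat_lit 1815) (.e (nat_lit 73472) (nat_lit 34) (.e (nat_lit 483395) (nat_lit 24) (.e (nat_lit 344118) (nat_lit 21) (.e (nat_lit 516119) (nat_lit 1) (.e (nat_lit 164147) (nat_lit 152) .nil))))) .nil)))) (.nd (nat_lit 5) (.nd (nat_lit 6) 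
(.lf (nat_lit 198679) (.g (nat_lit 2614) (.e (nat_lit 65653) (nat_lit 27) (.e (nat_lit 426500) (nat_lit 27) (.e (nat_lit 336186) (nat_lit 11) (.e (nat_lit 368676) (nat_lit 21) (.e (nat_lit 516119) (nat_lit 1) (.e (nat_lit 164154) (nat_lit 152) (.e (nat_lit 1193) (nat_lit 88) .nil))))))) (.g (nat_lit 5) .nil .nil))) 
(.lf (nat_lit 198743) (.g (nat_lit 1107) (.e (nat_lit 73472) (nat_lit 29) (.e (nat_lit 442430) (nat_lit 24) (.e (nat_lit 229678) (nat_lit 244) (.e (nat_lit 163899) (nat_lit 11) .nil)))) .nil))) (.nd (nat_lit 6) 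
(.lf (nat_lit 198711) (.g (nat_lit 2873) (.e (nat_lit 73472) (nat_lit 27) (.e (nat_lit 426347) (nat_lit 14) (.e (nat_lit 491571) (nat_lit 13) (.e (nat_lit 393232) (nat_lit 17) (.e (nat_lit 7587) (nat_lit 406) .nil))))) .nil)) 
(.lf (nat_lit 198775) (.g (nat_lit 1412) (.e (nat_lit 73472) (nat_lit 34) (.e (nat_lit 483413) (nat_lit 27) (.e (nat_lit 401427) (nat_lit 3) (.e (nat_lit 204829) (nat_lit 18) .nil)))) .nil))))) (.nd (nat_lit 4) (.nd (nat_lit 5) (.nd (nat_lit 6) 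
(.lf (nat_lit 198671) (.g (nat_lit 3198) (.e (nat_lit 65653) (nat_lit 27) (.e (nat_lit 426500) (nat_lit 27) (.e (nat_lit 336186) (nat_lit 11) (.e (nat_lit 368676) (nat_lit 21) (.e (nat_lit 516115) (nat_lit 1) (.e (nat_lit 164153) (nat_lit 152) (.e (nat_lit 1193) (nat_lit 88) .nil))))))) (.g (nat_lit 7) .nil .nil))) 
(.lf (nat_lit 198735) (.g (nat_lit 1149) (.e (nat_lit 73472) (nat_lit 28) (.e (nat_lit 434181) (nat_lit 0) (.e (nat_lit 1661) (nat_lit 115) (.e (nat_lit 393235) (nat_lit 17) (.e (nat_lit 7936) (nat_lit 406) .nil))))) .nil))) (.nd (nat_lit 6) 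
(.lf (nat_lit 198703) (.g (nat_lit 1113) (.e (nat_lit 73472) (nat_lit 27) (.e (nat_lit 426340) (nat_lit 14) (.e (nat_lit 491550) (nat_lit 9) (.e (nat_lit 336421) (nat_lit 28) (.e (nat_lit 442112) (nat_lit 4) .nil))))) .nil)) 
(.lf (nat_lit 198767) (.g (nat_lit 1665) (.e (nat_lit 73472) (nat_lit 34) (.e (nat_lit 483398) (nat_lit 25) (.e (nat_lit 368676) (nat_lit 21) (.e (nat_lit 516115) (nat_lit 1) (.e (nat_lit 164149) (nat_lit 152) .nil))))) .nil)))) (.nd (nat_lit 5) (.nd (nat_lit 6) 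
(.lf (nat_lit 198687) (.g (nat_lit 3641) (.e (nat_lit 65653) (nat_lit 27) (.e (nat_lit 426500) (nat_lit 27) (.e (nat_lit 336204) (nat_lit 12) (.e (nat_lit 385074) (nat_lit 31) (.e (nat_lit 573475) (nat_lit 12) (.e (nat_lit 57520) (nat_lit 44) (.e (nat_lit 688174) (nat_lit 16) .nil))))))) (.g (nat_lit 7) .nil .nil))) 
(.lf (nat_lit 198751) (.g (nat_lit 2710) (.e (nat_lit 73472) (nat_lit 34) (.e (nat_lit 483383) (nat_lit 23) (.e (nat_lit 336019) (nat_lit 3) (.e (nat_lit 98333) (nat_lit 18) (.e (nat_lit 164147) (nat_lit 152) .nil))))) .nil))) (.nd (nat_lit 6) 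
(.lf (nat_lit 198719) (.g (nat_lit 2261) (.e (nat_lit 73472) (nat_lit 28) (.e (nat_lit 434180) (nat_lit 0) (.e (nat_lit 1427) (nat_lit 108) (.e (nat_lit 336414) (nat_lit 27) (.e (nat_lit 425987) (nat_lit 0) .nil))))) .nil)) 
(.lf (nat_lit 198783) (.g (nat_lit 912) (.e (nat_lit 65655) (nat_lit 35) (.e (nat_lit 491549) (nat_lit 9) (.e (nat_lit 336018) (nat_lit 3) .nil))) .nil)))))))))

noncomputable def tv2629 : DT := (.nd (nat_lit 0) (.nd (nat_lit 1) (.nd (nat_lit 2) (.nd (nat_lit 3) (.nd (nat_lit 4) (.nd (nat_lit 5) (.nd (nat_lit 6) 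
(.lf (nat_lit 198784) (.g (nat_lit 3591) (.e (nat_lit 65655) (nat_lit 35) (.e (nat_lit 491549) (nat_lit 9) (.e (nat_lit 336019) (nat_lit 3) (.e (nat_lit 98313) (nat_lit 9) (.e (nat_lit 335995) (nat_lit 1) (.e (nat_lit 57872) (nat_lit 264) (.e (nat_lit 1190) (nat_lit 88) .nil))))))) (.g (nat_lit 0) .nil .nil))) 
(.lf (nat_lit 198848) (.g (nat_lit 3448) (.e (nat_lit 73729) (nat_lit 0) (.e (nat_lit 7125) (nat_lit 382) (.e (nat_lit 1201) (nat_lit 88) (.e (nat_lit 65625) (nat_lit 13) (.e (nat_lit 393233) (nat_lit 17) (.e (nat_lit 7591) (nat_lit 407) .nil)))))) (.g (nat_lit 0) .nil .nil)))) (.nd (nat_lit 6) 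
(.lf (nat_lit 198816) (.g (nat_lit 4762) (.e (nat_lit 73728) (nat_lit 0) (.e (nat_lit 3975) (nat_lit 239) (.e (nat_lit 1221) (nat_lit 90) (.e (nat_lit 81956) (nat_lit 23) (.e (nat_lit 98320) (nat_lit 17) (.e (nat_lit 7591) (nat_lit 407) .nil)))))) (.g (nat_lit 6) .nil .nil))) 
(.lf (nat_lit 198880) (.g (nat_lit 1173) (.e (nat_lit 73729) (nat_lit 0) (.e (nat_lit 7125) (nat_lit 382) (.e (nat_lit 1296) (nat_lit 96) (.e (nat_lit 131127) (nat_lit 13) (.e (nat_lit 393242) (nat_lit 17) .nil))))) .nil)))) (.nd (nat_lit 5) (.nd (nat_lit 6) 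
(.lf (nat_lit 198800) (.g (nat_lit 3369) (.e (nat_lit 65655) (nat_lit 35) (.e (nat_lit 491566) (nat_lit 12) (.e (nat_lit 385068) (nat_lit 26) (.e (nat_lit 532503) (nat_lit 1) (.e (nat_lit 57931) (nat_lit 282) .nil))))) .nil)) 
(.lf (nat_lit 198864) (.g (nat_lit 1239) (.e (nat_lit 73729) (nat_lit 0) (.e (nat_lit 7125) (nat_lit 382) (.e (nat_lit 1222) (nat_lit 90) (.e (nat_lit 81927) (nat_lit 11) (.e (nat_lit 426077) (nat_lit 0) (.e (nat_lit 7936) (nat_lit 407) .nil)))))) (.g (nat_lit 5) .nil .nil)))) (.nd (nat_lit 6) 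
(.lf (nat_lit 198832) (.g (nat_lit 168) (.e (nat_lit 73729) (nat_lit 0) (.e (nat_lit 4153) (nat_lit 249) (.e (nat_lit 171776) (nat_lit 78) .nil))) .nil)) 
(.lf (nat_lit 198896) (.g (nat_lit 958) (.e (nat_lit 73729) (nat_lit 0) (.e (nat_lit 7261) (nat_lit 384) (.e (nat_lit 57424) (nat_lit 14) (.e (nat_lit 352278) (nat_lit 11) .nil)))) .nil))))) (.nd (nat_lit 4) (.nd (nat_lit 5) (.nd (nat_lit 6) 
(.lf (nat_lit 198792) (.g (nat_lit 1957) (.e (nat_lit 65655) (nat_lit 35) (.e (nat_lit 491563) (nat_lit 12) (.e (nat_lit 385106) (nat_lit 50) (.e (nat_lit 786477) (nat_lit 28) .nil)))) .nil)) 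
(.lf (nat_lit 198856) (.g (nat_lit 1325) (.e (nat_lit 73729) (nat_lit 0) (.e (nat_lit 7125) (nat_lit 382) (.e (nat_lit 1222) (nat_lit 90) (.e (nat_lit 81927) (nat_lit 11) (.e (nat_lit 426035) (nat_lit 0) (.e (nat_lit 7936) (nat_lit 407) .nil)))))) (.g (nat_lit 5) .nil .nil)))) (.nd (nat_lit 6) 
(.lf (nat_lit 198824) (.g (nat_lit 553) (.e (nat_lit 73728) (nat_lit 0) (.e (nat_lit 7270) (nat_lit 385) (.e (nat_lit 122916) (nat_lit 14) .nil))) .nil)) 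
(.lf (nat_lit 198888) (.g (nat_lit 1503) (.e (nat_lit 73729) (nat_lit 0) (.e (nat_lit 7261) (nat_lit 384) (.e (nat_lit 57411) (nat_lit 12) (.e (nat_lit 336115) (nat_lit 9) (.e (nat_lit 343808) (nat_lit 28) .nil))))) .nil)))) (.nd (nat_lit 5) (.nd (nat_lit 6) 
(.lf (nat_lit 198808) (.g (nat_lit 2050) (.e (nat_lit 65655) (nat_lit 35) (.e (nat_lit 491566) (nat_lit 12) (.e (nat_lit 385104) (nat_lit 50) (.e (nat_lit 786477) (nat_lit 28) (.e (nat_lit 344144) (nat_lit 31) (.e (nat_lit 598037) (nat_lit 8) .nil)))))) (.g (nat_lit 5) .nil .nil))) 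
(.lf (nat_lit 198872) (.g (nat_lit 403) (.e (nat_lit 73729) (nat_lit 0) (.e (nat_lit 7125) (nat_lit 382) (.e (nat_lit 7936) (nat_lit 90) .nil))) .nil))) (.nd (nat_lit 6) 
(.lf (nat_lit 198840) (.g (nat_lit 3333) (.e (nat_lit 73729) (nat_lit 0) (.e (nat_lit 7124) (nat_lit 382) (.e (nat_lit 1201) (nat_lit 88) (.e (nat_lit 65627) (nat_lit 13) (.e (nat_lit 393232) (nat_lit 17) (.e (nat_lit 7591) (nat_lit 407) .nil)))))) (.g (nat_lit 6) .nil .nil))) 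
(.lf (nat_lit 198904) (.g (nat_lit 1599) (.e (nat_lit 73729) (nat_lit 0) (.e (nat_lit 7261) (nat_lit 384) (.e (nat_lit 57436) (nat_lit 17) (.e (nat_lit 376840) (nat_lit 11) (.e (nat_lit 425987) (nat_lit 0) (.e (nat_lit 7592) (nat_lit 407) .nil)))))) (.g (nat_lit 4) .nil .nil))))))) (.nd (nat_lit 3) (.nd (nat_lit 4) (.nd (nat_lit 5) (.nd (nat_lit 6) 
(.lf (nat_lit 198788) (.g (nat_lit 4707) (.e (nat_lit 65655) (nat_lit 35) (.e (nat_lit 491560) (nat_lit 10) (.e (nat_lit 344117) (nat_lit 21) (.e (nat_lit 516195) (nat_lit 26) (.e (nat_lit 335995) (nat_lit 1) (.e (nat_lit 57872) (nat_lit 264) (.e (nat_lit 1190) (nat_lit 88) .nil))))))) (.g (nat_lit 0) .nil .nil))) 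
(.lf (nat_lit 198852) (.g (nat_lit 948) (.e (nat_lit 73729) (nat_lit 0) (.e (nat_lit 7125) (nat_lit 382) (.e (nat_lit 1222) (nat_lit 90) (.e (nat_lit 89856) (nat_lit 9) .nil)))) .nil))) (.nd (nat_lit 6) 
(.lf (nat_lit 198820) (.g (nat_lit 1338) (.e (nat_lit 73728) (nat_lit 0) (.e (nat_lit 4732) (nat_lit 277) (.e (nat_lit 57377) (nat_lit 3) (.e (nat_lit 98317) (nat_lit 9) .nil)))) .nil)) 
(.lf (nat_lit 198884) (.g (nat_lit 1829) (.e (nat_lit 73729) (nat_lit 0) (.e (nat_lit 7261) (nat_lit 384) (.e (nat_lit 57406) (nat_lit 12) (.e (nat_lit 336211) (nat_lit 13) (.e (nat_lit 393231) (nat_lit 17) .nil))))) .nil)))) (.nd (nat_lit 5) (.nd (nat_lit 6) 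
(.lf (nat_lit 198804) (.g (nat_lit 1773) (.e (nat_lit 65655) (nat_lit 35) (.e (nat_lit 491566) (nat_lit 12) (.e (nat_lit 385093) (nat_lit 49) (.e (nat_lit 778323) (nat_lit 5) .nil)))) .nil)) 
(.lf (nat_lit 198868) (.g (nat_lit 3208) (.e (nat_lit 73729) (nat_lit 0) (.e (nat_lit 7125) (nat_lit 382) (.e (nat_lit 1224) (nat_lit 90) (.e (nat_lit 81925) (nat_lit 11) (.e (nat_lit 426012) (nat_lit 0) (.e (nat_lit 7591) (nat_lit 407) .nil)))))) (.g (nat_lit 0) .nil .nil)))) (.nd (nat_lit 6) 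
(.lf (nat_lit 198836) (.g (nat_lit 2471) (.e (nat_lit 73729) (nat_lit 0) (.e (nat_lit 7122) (nat_lit 382) (.e (nat_lit 1201) (nat_lit 88) (.e (nat_lit 65626) (nat_lit 13) (.e (nat_lit 393234) (nat_lit 17) (.e (nat_lit 7591) (nat_lit 407) .nil)))))) (.g (nat_lit 4) .nil .nil))) 
(.lf (nat_lit 198900) (.g (nat_lit 2403) (.e (nat_lit 73729) (nat_lit 0) (.e (nat_lit 7261) (nat_lit 384) (.e (nat_lit 57435) (nat_lit 17) (.e (nat_lit 376842) (nat_lit 11) (.e (nat_lit 426003) (nat_lit 0) (.e (nat_lit 7593) (nat_lit 407) .nil)))))) (.g (nat_lit 4) .nil .nil)))))) (.nd (nat_lit 4) (.nd (nat_lit 5) (.nd (nat_lit 6) 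
(.lf (nat_lit 198796) (.g (nat_lit 1101) (.e (nat_lit 65655) (nat_lit 35) (.e (nat_lit 491566) (nat_lit 12) (.e (nat_lit 385068) (nat_lit 26) .nil))) .nil)) 
(.lf (nat_lit 198860) (.g (nat_lit 1242) (.e (nat_lit 73729) (nat_lit 0) (.e (nat_lit 7125) (nat_lit 382) (.e (nat_lit 1222) (nat_lit 90) (.e (nat_lit 81927) (nat_lit 11) (.e (nat_lit 426053) (nat_lit 0) (.e (nat_lit 7936) (nat_lit 407) .nil)))))) (.g (nat_lit 5) .nil .nil)))) (.nd (nat_lit 6) 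
(.lf (nat_lit 198828) (.g (nat_lit 1664) (.e (nat_lit 73729) (nat_lit 0) (.e (nat_lit 3928) (nat_lit 239) (.e (nat_lit 1216) (nat_lit 90) (.e (nat_lit 81954) (nat_lit 23) (.e (nat_lit 98325) (nat_lit 17) (.e (nat_lit 7936) (nat_lit 407) .nil)))))) (.g (nat_lit 4) .nil .nil))) 
(.lf (nat_lit 198892) (.g (nat_lit 197) (.e (nat_lit 73729) (nat_lit 0) (.e (nat_lit 7261) (nat_lit 384) (.e (nat_lit 57424) (nat_lit 14) .nil))) .nil)))) (.nd (nat_lit 5) (.nd (nat_lit 6) 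
(.lf (nat_lit 198812) (.g (nat_lit 2148) (.e (nat_lit 73728) (nat_lit 0) (.e (nat_lit 3937) (nat_lit 239) (.e (nat_lit 1218) (nat_lit 90) (.e (nat_lit 81956) (nat_lit 23) (.e (nat_lit 98320) (nat_lit 17) .nil))))) .nil)) 
(.lf (nat_lit 198876) (.g (nat_lit 1675) (.e (nat_lit 73729) (nat_lit 0) (.e (nat_lit 7125) (nat_lit 382) (.e (nat_lit 1296) (nat_lit 96) (.e (nat_lit 131107) (nat_lit 9) (.e (nat_lit 336438) (nat_lit 31) (.e (nat_lit 466688) (nat_lit 5) .nil)))))) (.g (nat_lit 4) .nil .nil)))) (.nd (nat_lit 6) 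
(.lf (nat_lit 198844) (.g (nat_lit 1154) (.e (nat_lit 73729) (nat_lit 0) (.e (nat_lit 7125) (nat_lit 382) (.e (nat_lit 1201) (nat_lit 88) (.e (nat_lit 65592) (nat_lit 9) .nil)))) .nil)) 
(.lf (nat_lit 198908) (.g (nat_lit 808) (.e (nat_lit 73729) (nat_lit 0) (.e (nat_lit 7263) (nat_lit 384) (.e (nat_lit 57354) (nat_lit 0) (.e (nat_lit 7936) (nat_lit 343) .nil)))) .nil))))))) (.nd (nat_lit 2) (.nd (nat_lit 3) (.nd (nat_lit 4) (.nd (nat_lit 5) (.nd (nat_lit 6) 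
(.lf (nat_lit 198786) (.g (nat_lit 823) (.e (nat_lit 65655) (nat_lit 35) (.e (nat_lit 491560) (nat_lit 10) (.e (nat_lit 344117) (nat_lit 21) .nil))) .nil)) 
(.lf (nat_lit 198850) (.g (nat_lit 1457) (.e (nat_lit 73729) (nat_lit 0) (.e (nat_lit 7125) (nat_lit 382) (.e (nat_lit 1222) (nat_lit 90) (.e (nat_lit 81921) (nat_lit 0) (.e (nat_lit 7086) (nat_lit 379) .nil))))) .nil))) (.nd (nat_lit 6) 
(.lf (nat_lit 198818) (.g (nat_lit 2140) (.e (nat_lit 73728) (nat_lit 0) (.e (nat_lit 4553) (nat_lit 269) (.e (nat_lit 1083) (nat_lit 81) (.e (nat_lit 1661) (nat_lit 115) (.e (nat_lit 393268) (nat_lit 23) (.e (nat_lit 426428) (nat_lit 17) (.e (nat_lit 98048) (nat_lit 5) .nil))))))) (.g (nat_lit 6) .nil .nil))) 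
(.lf (nat_lit 198882) (.g (nat_lit 2908) (.e (nat_lit 73729) (nat_lit 0) (.e (nat_lit 7261) (nat_lit 384) (.e (nat_lit 57347) (nat_lit 0) (.e (nat_lit 2203) (nat_lit 144) (.e (nat_lit 720956) (nat_lit 25) (.e (nat_lit 114716) (nat_lit 22) (.e (nat_lit 90181) (nat_lit 16) (.e (nat_lit 237312) (nat_lit 192) .nil)))))))) (.g (nat_lit 6) .nil .nil))))) (.nd (nat_lit 5) (.nd (nat_lit 6) 
(.lf (nat_lit 198802) (.g (nat_lit 994) (.e (nat_lit 65655) (nat_lit 35) (.e (nat_lit 491566) (nat_lit 12) (.e (nat_lit 385093) (nat_lit 49) .nil))) .nil)) 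
(.lf (nat_lit 198866) (.g (nat_lit 814) (.e (nat_lit 73729) (nat_lit 0) (.e (nat_lit 7125) (nat_lit 382) (.e (nat_lit 1223) (nat_lit 90) (.e (nat_lit 81927) (nat_lit 11) .nil)))) .nil))) (.nd (nat_lit 6) 
(.lf (nat_lit 198834) (.g (nat_lit 2630) (.e (nat_lit 73729) (nat_lit 0) (.e (nat_lit 4539) (nat_lit 267) (.e (nat_lit 163869) (nat_lit 2) (.e (nat_lit 196656) (nat_lit 11) (.e (nat_lit 16425) (nat_lit 7) (.e (nat_lit 409616) (nat_lit 10) (.e (nat_lit 858) (nat_lit 75) (.e (nat_lit 778324) (nat_lit 5) .nil)))))))) (.g (nat_lit 4) .nil .nil))) 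
(.lf (nat_lit 198898) (.g (nat_lit 619) (.e (nat_lit 73729) (nat_lit 0) (.e (nat_lit 7261) (nat_lit 384) (.e (nat_lit 57435) (nat_lit 17) (.e (nat_lit 384768) (nat_lit 9) .nil)))) .nil))))) (.nd (nat_lit 4) (.nd (nat_lit 5) (.nd (nat_lit 6) 
(.lf (nat_lit 198794) (.g (nat_lit 837) (.e (nat_lit 65655) (nat_lit 35) (.e (nat_lit 491565) (nat_lit 12) (.e (nat_lit 385104) (nat_lit 50) .nil))) .nil)) 
(.lf (nat_lit 198858) (.g (nat_lit 1061) (.e (nat_lit 73729) (nat_lit 0) (.e (nat_lit 7125) (nat_lit 382) (.e (nat_lit 1222) (nat_lit 90) (.e (nat_lit 81927) (nat_lit 11) (.e (nat_lit 426051) (nat_lit 0) (.e (nat_lit 7936) (nat_lit 407) .nil)))))) (.g (nat_lit 4) .nil .nil)))) (.nd (nat_lit 6) 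
(.lf (nat_lit 198826) (.g (nat_lit 321) (.e (nat_lit 73728) (nat_lit 0) (.e (nat_lit 7271) (nat_lit 385) (.e (nat_lit 122914) (nat_lit 14) .nil))) .nil)) 
(.lf (nat_lit 198890) (.g (nat_lit 2056) (.e (nat_lit 73729) (nat_lit 0) (.e (nat_lit 7261) (nat_lit 384) (.e (nat_lit 57411) (nat_lit 12) (.e (nat_lit 336211) (nat_lit 13) (.e (nat_lit 393231) (nat_lit 17) (.e (nat_lit 7593) (nat_lit 407) .nil)))))) (.g (nat_lit 4) .nil .nil))))) (.nd (nat_lit 5) (.nd (nat_lit 6) 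
(.lf (nat_lit 198810) (.g (nat_lit 1858) (.e (nat_lit 73472) (nat_lit 35) (.e (nat_lit 491560) (nat_lit 10) (.e (nat_lit 344117) (nat_lit 21) (.e (nat_lit 516195) (nat_lit 26) .nil)))) .nil)) 
(.lf (nat_lit 198874) (.g (nat_lit 1263) (.e (nat_lit 73729) (nat_lit 0) (.e (nat_lit 7125) (nat_lit 382) (.e (nat_lit 1296) (nat_lit 96) (.e (nat_lit 131106) (nat_lit 9) (.e (nat_lit 336438) (nat_lit 31) .nil))))) .nil))) (.nd (nat_lit 6) 
(.lf (nat_lit 198842) (.g (nat_lit 407) (.e (nat_lit 73729) (nat_lit 0) (.e (nat_lit 7125) (nat_lit 382) (.e (nat_lit 1004) (nat_lit 81) .nil))) .nil)) 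
(.lf (nat_lit 198906) (.g (nat_lit 2301) (.e (nat_lit 73729) (nat_lit 0) (.e (nat_lit 7261) (nat_lit 384) (.e (nat_lit 57437) (nat_lit 17) (.e (nat_lit 376842) (nat_lit 11) (.e (nat_lit 426009) (nat_lit 0) (.e (nat_lit 7591) (nat_lit 407) .nil)))))) (.g (nat_lit 4) .nil .nil))))))) (.nd (nat_lit 3) (.nd (nat_lit 4) (.nd (nat_lit 5) (.nd (nat_lit 6) 
(.lf (nat_lit 198790) (.g (nat_lit 1306) (.e (nat_lit 65655) (nat_lit 35) (.e (nat_lit 491563) (nat_lit 12) (.e (nat_lit 385068) (nat_lit 26) .nil))) .nil)) 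
(.lf (nat_lit 198854) (.g (nat_lit 1757) (.e (nat_lit 73729) (nat_lit 0) (.e (nat_lit 7125) (nat_lit 382) (.e (nat_lit 1222) (nat_lit 90) (.e (nat_lit 81925) (nat_lit 11) (.e (nat_lit 426012) (nat_lit 0) .nil))))) .nil))) (.nd (nat_lit 6) 
(.lf (nat_lit 198822) (.g (nat_lit 957) (.e (nat_lit 73728) (nat_lit 0) (.e (nat_lit 7236) (nat_lit 382) (.e (nat_lit 1199) (nat_lit 88) (.e (nat_lit 65627) (nat_lit 13) .nil)))) .nil)) 
(.lf (nat_lit 198886) (.g (nat_lit 1847) (.e (nat_lit 73729) (nat_lit 0) (.e (nat_lit 7261) (nat_lit 384) (.e (nat_lit 57407) (nat_lit 12) (.e (nat_lit 336210) (nat_lit 13) .nil)))) .nil)))) (.nd (nat_lit 5) (.nd (nat_lit 6) 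
(.lf (nat_lit 198806) (.g (nat_lit 1870) (.e (nat_lit 65655) (nat_lit 35) (.e (nat_lit 491566) (nat_lit 12) (.e (nat_lit 385093) (nat_lit 49) (.e (nat_lit 778324) (nat_lit 5) .nil)))) .nil)) 
(.lf (nat_lit 198870) (.g (nat_lit 1776) (.e (nat_lit 73729) (nat_lit 0) (.e (nat_lit 7125) (nat_lit 382) (.e (nat_lit 1224) (nat_lit 90) (.e (nat_lit 81925) (nat_lit 11) (.e (nat_lit 426052) (nat_lit 0) (.e (nat_lit 7936) (nat_lit 407) .nil)))))) (.g (nat_lit 4) .nil .nil)))) (.nd (nat_lit 6) 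
(.lf (nat_lit 198838) (.g (nat_lit 1358) (.e (nat_lit 73729) (nat_lit 0) (.e (nat_lit 7122) (nat_lit 382) (.e (nat_lit 1222) (nat_lit 90) (.e (nat_lit 89856) (nat_lit 10) .nil)))) .nil)) 
(.lf (nat_lit 198902) (.g (nat_lit 2755) (.e (nat_lit 73729) (nat_lit 0) (.e (nat_lit 7261) (nat_lit 384) (.e (nat_lit 57435) (nat_lit 17) (.e (nat_lit 376842) (nat_lit 11) (.e (nat_lit 426012) (nat_lit 0) (.e (nat_lit 7591) (nat_lit 407) .nil)))))) (.g (nat_lit 4) .nil .nil)))))) (.nd (nat_lit 4) (.nd (nat_lit 5) (.nd (nat_lit 6) 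
(.lf (nat_lit 198798) (.g (nat_lit 4083) (.e (nat_lit 65655) (nat_lit 35) (.e (nat_lit 491566) (nat_lit 12) (.e (nat_lit 385068) (nat_lit 26) (.e (nat_lit 532499) (nat_lit 1) (.e (nat_lit 57927) (nat_lit 282) (.e (nat_lit 163879) (nat_lit 4) (.e (nat_lit 220928) (nat_lit 4) .nil))))))) (.g (nat_lit 4) .nil .nil))) 
(.lf (nat_lit 198862) (.g (nat_lit 917) (.e (nat_lit 73729) (nat_lit 0) (.e (nat_lit 7125) (nat_lit 382) (.e (nat_lit 1222) (nat_lit 90) (.e (nat_lit 81927) (nat_lit 11) (.e (nat_lit 426070) (nat_lit 0) .nil))))) .nil))) (.nd (nat_lit 6) 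
(.lf (nat_lit 198830) (.g (nat_lit 1888) (.e (nat_lit 73729) (nat_lit 0) (.e (nat_lit 4004) (nat_lit 242) (.e (nat_lit 122916) (nat_lit 14) (.e (nat_lit 352315) (nat_lit 23) (.e (nat_lit 98319) (nat_lit 17) .nil))))) .nil)) 
(.lf (nat_lit 198894) (.g (nat_lit 2458) (.e (nat_lit 73729) (nat_lit 0) (.e (nat_lit 7261) (nat_lit 384) (.e (nat_lit 57424) (nat_lit 14) (.e (nat_lit 352272) (nat_lit 10) (.e (nat_lit 417796) (nat_lit 0) (.e (nat_lit 5412) (nat_lit 303) .nil)))))) (.g (nat_lit 6) .nil .nil))))) (.nd (nat_lit 5) (.nd (nat_lit 6) 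
(.lf (nat_lit 198814) (.g (nat_lit 2370) (.e (nat_lit 73728) (nat_lit 0) (.e (nat_lit 3975) (nat_lit 239) (.e (nat_lit 1220) (nat_lit 90) (.e (nat_lit 81956) (nat_lit 23) (.e (nat_lit 98319) (nat_lit 17) .nil))))) .nil)) 
(.lf (nat_lit 198878) (.g (nat_lit 925) (.e (nat_lit 73729) (nat_lit 0) (.e (nat_lit 7125) (nat_lit 382) (.e (nat_lit 1296) (nat_lit 96) (.e (nat_lit 131126) (nat_lit 13) .nil)))) .nil))) (.nd (nat_lit 6) 
(.lf (nat_lit 198846) (.g (nat_lit 1723) (.e (nat_lit 73729) (nat_lit 0) (.e (nat_lit 7125) (nat_lit 382) (.e (nat_lit 1201) (nat_lit 88) (.e (nat_lit 65599) (nat_lit 9) (.e (nat_lit 343808) (nat_lit 28) .nil))))) .nil)) 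
(.lf (nat_lit 198910) (.g (nat_lit 1860) (.e (nat_lit 73729) (nat_lit 0) (.e (nat_lit 7263) (nat_lit 384) (.e (nat_lit 57423) (nat_lit 14) (.e (nat_lit 352257) (nat_lit 0) (.e (nat_lit 7077) (nat_lit 378) (.e (nat_lit 57898) (nat_lit 275) .nil)))))) (.g (nat_lit 0) .nil .nil))))))))) (.nd (nat_lit 1) (.nd (nat_lit 2) (.nd (nat_lit 3) (.nd (nat_lit 4) (.nd (nat_lit 5) (.nd (nat_lit 6) 
(.lf (nat_lit 198785) (.g (nat_lit 1699) (.e (nat_lit 65655) (nat_lit 35) (.e (nat_lit 491550) (nat_lit 9) (.e (nat_lit 336019) (nat_lit 3) (.e (nat_lit 98313) (nat_lit 9) .nil)))) .nil)) 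
(.lf (nat_lit 198849) (.g (nat_lit 1945) (.e (nat_lit 73729) (nat_lit 0) (.e (nat_lit 7125) (nat_lit 382) (.e (nat_lit 1214) (nat_lit 89) (.e (nat_lit 73746) (nat_lit 3) (.e (nat_lit 516131) (nat_lit 3) (.e (nat_lit 221219) (nat_lit 24) (.e (nat_lit 220928) (nat_lit 5) .nil))))))) (.g (nat_lit 4) .nil .nil)))) (.nd (nat_lit 6) 
(.lf (nat_lit 198817) (.g (nat_lit 2196) (.e (nat_lit 73728) (nat_lit 0) (.e (nat_lit 3985) (nat_lit 239) (.e (nat_lit 1218) (nat_lit 90) (.e (nat_lit 81956) (nat_lit 23) (.e (nat_lit 98320) (nat_lit 17) .nil))))) .nil)) 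
(.lf (nat_lit 198881) (.g (nat_lit 1637) (.e (nat_lit 73729) (nat_lit 0) (.e (nat_lit 7247) (nat_lit 383) (.e (nat_lit 8210) (nat_lit 8) (.e (nat_lit 294941) (nat_lit 9) (.e (nat_lit 336421) (nat_lit 28) (.e (nat_lit 442112) (nat_lit 5) .nil)))))) (.g (nat_lit 5) .nil .nil))))) (.nd (nat_lit 5) (.nd (nat_lit 6) 
(.lf (nat_lit 198801) (.g (nat_lit 1206) (.e (nat_lit 65655) (nat_lit 35) (.e (nat_lit 491566) (nat_lit 12) (.e (nat_lit 385092) (nat_lit 49) .nil))) .nil)) 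
(.lf (nat_lit 198865) (.g (nat_lit 408) (.e (nat_lit 73729) (nat_lit 0) (.e (nat_lit 7125) (nat_lit 382) (.e (nat_lit 1223) (nat_lit 90) .nil))) .nil))) (.nd (nat_lit 6) 
(.lf (nat_lit 198833) (.g (nat_lit 1303) (.e (nat_lit 73729) (nat_lit 0) (.e (nat_lit 4159) (nat_lit 250) (.e (nat_lit 229491) (nat_lit 75) (.e (nat_lit 352313) (nat_lit 23) (.e (nat_lit 98325) (nat_lit 17) (.e (nat_lit 7936) (nat_lit 407) .nil)))))) (.g (nat_lit 5) .nil .nil))) 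
(.lf (nat_lit 198897) (.g (nat_lit 538) (.e (nat_lit 73729) (nat_lit 0) (.e (nat_lit 7261) (nat_lit 384) (.e (nat_lit 57424) (nat_lit 14) (.e (nat_lit 360192) (nat_lit 11) .nil)))) .nil))))) (.nd (nat_lit 4) (.nd (nat_lit 5) (.nd (nat_lit 6) 
(.lf (nat_lit 198793) (.g (nat_lit 1138) (.e (nat_lit 65655) (nat_lit 35) (.e (nat_lit 491565) (nat_lit 12) (.e (nat_lit 385102) (nat_lit 50) (.e (nat_lit 786477) (nat_lit 28) .nil)))) .nil)) 
(.lf (nat_lit 198857) (.g (nat_lit 1162) (.e (nat_lit 73729) (nat_lit 0) (.e (nat_lit 7125) (nat_lit 382) (.e (nat_lit 1222) (nat_lit 90) (.e (nat_lit 81927) (nat_lit 11) (.e (nat_lit 426044) (nat_lit 0) (.e (nat_lit 7936) (nat_lit 407) .nil)))))) (.g (nat_lit 5) .nil .nil)))) (.nd (nat_lit 6) 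
(.lf (nat_lit 198825) (.g (nat_lit 1315) (.e (nat_lit 73728) (nat_lit 0) (.e (nat_lit 7270) (nat_lit 385) (.e (nat_lit 122916) (nat_lit 14) (.e (nat_lit 360192) (nat_lit 12) .nil)))) .nil)) 
(.lf (nat_lit 198889) (.g (nat_lit 1503) (.e (nat_lit 73729) (nat_lit 0) (.e (nat_lit 7261) (nat_lit 384) (.e (nat_lit 57411) (nat_lit 12) (.e (nat_lit 336115) (nat_lit 9) (.e (nat_lit 343808) (nat_lit 31) .nil))))) .nil)))) (.nd (nat_lit 5) (.nd (nat_lit 6) 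
(.lf (nat_lit 198809) (.g (nat_lit 2531) (.e (nat_lit 65655) (nat_lit 35) (.e (nat_lit 491566) (nat_lit 12) (.e (nat_lit 385105) (nat_lit 50) (.e (nat_lit 786477) (nat_lit 28) (.e (nat_lit 344144) (nat_lit 31) (.e (nat_lit 598037) (nat_lit 8) .nil)))))) (.g (nat_lit 4) .nil .nil))) 
(.lf (nat_lit 198873) (.g (nat_lit 2021) (.e (nat_lit 73729) (nat_lit 0) (.e (nat_lit 7125) (nat_lit 382) (.e (nat_lit 1296) (nat_lit 96) (.e (nat_lit 131105) (nat_lit 9) (.e (nat_lit 336438) (nat_lit 31) (.e (nat_lit 466688) (nat_lit 5) .nil)))))) (.g (nat_lit 5) .nil .nil)))) (.nd (nat_lit 6) 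
(.lf (nat_lit 198841) (.g (nat_lit 2157) (.e (nat_lit 73729) (nat_lit 0) (.e (nat_lit 7124) (nat_lit 382) (.e (nat_lit 1296) (nat_lit 96) (.e (nat_lit 131105) (nat_lit 9) (.e (nat_lit 336438) (nat_lit 31) (.e (nat_lit 466688) (nat_lit 5) .nil)))))) (.g (nat_lit 4) .nil .nil))) 
(.lf (nat_lit 198905) (.g (nat_lit 2319) (.e (nat_lit 73729) (nat_lit 0) (.e (nat_lit 7261) (nat_lit 384) (.e (nat_lit 57436) (nat_lit 17) (.e (nat_lit 376842) (nat_lit 11) (.e (nat_lit 426003) (nat_lit 0) (.e (nat_lit 7593) (nat_lit 407) .nil)))))) (.g (nat_lit 4) .nil .nil))))))) (.nd (nat_lit 3) (.nd (nat_lit 4) (.nd (nat_lit 5) (.nd (nat_lit 6) 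
(.lf (nat_lit 198789) (.g (nat_lit 1742) (.e (nat_lit 65655) (nat_lit 35) (.e (nat_lit 491560) (nat_lit 10) (.e (nat_lit 344118) (nat_lit 21) (.e (nat_lit 516195) (nat_lit 26) (.e (nat_lit 335995) (nat_lit 1) .nil))))) .nil)) 
(.lf (nat_lit 198853) (.g (nat_lit 1465) (.e (nat_lit 73729) (nat_lit 0) (.e (nat_lit 7125) (nat_lit 382) (.e (nat_lit 1222) (nat_lit 90) (.e (nat_lit 81925) (nat_lit 11) .nil)))) .nil))) (.nd (nat_lit 6) 
(.lf (nat_lit 198821) (.g (nat_lit 664) (.e (nat_lit 73728) (nat_lit 0) (.e (nat_lit 7153) (nat_lit 382) (.e (nat_lit 1217) (nat_lit 90) (.e (nat_lit 89856) (nat_lit 10) .nil)))) .nil)) 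
(.lf (nat_lit 198885) (.g (nat_lit 1799) (.e (nat_lit 73729) (nat_lit 0) (.e (nat_lit 7261) (nat_lit 384) (.e (nat_lit 57407) (nat_lit 12) (.e (nat_lit 336115) (nat_lit 9) .nil)))) .nil)))) (.nd (nat_lit 5) (.nd (nat_lit 6) 
(.lf (nat_lit 198805) (.g (nat_lit 2714) (.e (nat_lit 65655) (nat_lit 35) (.e (nat_lit 491566) (nat_lit 12) (.e (nat_lit 385093) (nat_lit 49) (.e (nat_lit 778323) (nat_lit 5) (.e (nat_lit 73729) (nat_lit 0) .nil))))) .nil)) 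
(.lf (nat_lit 198869) (.g (nat_lit 2119) (.e (nat_lit 73729) (nat_lit 0) (.e (nat_lit 7125) (nat_lit 382) (.e (nat_lit 1224) (nat_lit 90) (.e (nat_lit 81925) (nat_lit 11) (.e (nat_lit 426035) (nat_lit 0) (.e (nat_lit 7936) (nat_lit 407) .nil)))))) (.g (nat_lit 5) .nil .nil)))) (.nd (nat_lit 6) 
(.lf (nat_lit 198837) (.g (nat_lit 1388) (.e (nat_lit 73729) (nat_lit 0) (.e (nat_lit 7122) (nat_lit 382) (.e (nat_lit 1222) (nat_lit 90) (.e (nat_lit 81921) (nat_lit 0) .nil)))) .nil)) 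
(.lf (nat_lit 198901) (.g (nat_lit 2388) (.e (nat_lit 73729) (nat_lit 0) (.e (nat_lit 7261) (nat_lit 384) (.e (nat_lit 57435) (nat_lit 17) (.e (nat_lit 376842) (nat_lit 11) (.e (nat_lit 426009) (nat_lit 0) (.e (nat_lit 7591) (nat_lit 407) .nil)))))) (.g (nat_lit 4) .nil .nil)))))) (.nd (nat_lit 4) (.nd (nat_lit 5) (.nd (nat_lit 6) 
(.lf (nat_lit 198797) (.g (nat_lit 2103) (.e (nat_lit 65655) (nat_lit 35) (.e (nat_lit 491566) (nat_lit 12) (.e (nat_lit 385068) (nat_lit 26) (.e (nat_lit 532499) (nat_lit 1) .nil)))) .nil)) 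
(.lf (nat_lit 198861) (.g (nat_lit 1210) (.e (nat_lit 73729) (nat_lit 0) (.e (nat_lit 7125) (nat_lit 382) (.e (nat_lit 1222) (nat_lit 90) (.e (nat_lit 81927) (nat_lit 11) (.e (nat_lit 426054) (nat_lit 0) (.e (nat_lit 7936) (nat_lit 407) .nil)))))) (.g (nat_lit 5) .nil .nil)))) (.nd (nat_lit 6) 
(.lf (nat_lit 198829) (.g (nat_lit 783) (.e (nat_lit 73729) (nat_lit 0) (.e (nat_lit 4004) (nat_lit 242) (.e (nat_lit 122914) (nat_lit 14) (.e (nat_lit 352315) (nat_lit 23) .nil)))) .nil)) 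
(.lf (nat_lit 198893) (.g (nat_lit 2596) (.e (nat_lit 73729) (nat_lit 0) (.e (nat_lit 7261) (nat_lit 384) (.e (nat_lit 57424) (nat_lit 14) (.e (nat_lit 352272) (nat_lit 10) (.e (nat_lit 417795) (nat_lit 0) (.e (nat_lit 5412) (nat_lit 303) .nil)))))) (.g (nat_lit 0) .nil .nil))))) (.nd (nat_lit 5) (.nd (nat_lit 6) 
(.lf (nat_lit 198813) (.g (nat_lit 3077) (.e (nat_lit 73728) (nat_lit 0) (.e (nat_lit 3971) (nat_lit 239) (.e (nat_lit 1219) (nat_lit 90) (.e (nat_lit 81956) (nat_lit 23) (.e (nat_lit 98320) (nat_lit 17) .nil))))) .nil)) 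
(.lf (nat_lit 198877) (.g (nat_lit 2116) (.e (nat_lit 73729) (nat_lit 0) (.e (nat_lit 7125) (nat_lit 382) (.e (nat_lit 1296) (nat_lit 96) (.e (nat_lit 131109) (nat_lit 9) (.e (nat_lit 336438) (nat_lit 31) (.e (nat_lit 466688) (nat_lit 5) .nil)))))) (.g (nat_lit 5) .nil .nil)))) (.nd (nat_lit 6) 
(.lf (nat_lit 198845) (.g (nat_lit 2229) (.e (nat_lit 73729) (nat_lit 0) (.e (nat_lit 7125) (nat_lit 382) (.e (nat_lit 1201) (nat_lit 88) (.e (nat_lit 65599) (nat_lit 9) (.e (nat_lit 336417) (nat_lit 27) (.e (nat_lit 426035) (nat_lit 0) (.e (nat_lit 7936) (nat_lit 407) .nil))))))) (.g (nat_lit 6) .nil .nil))) 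
(.lf (nat_lit 198909) (.g (nat_lit 1629) (.e (nat_lit 73729) (nat_lit 0) (.e (nat_lit 7263) (nat_lit 384) (.e (nat_lit 57419) (nat_lit 12) (.e (nat_lit 336213) (nat_lit 13) (.e (nat_lit 393232) (nat_lit 17) .nil))))) .nil))))))) (.nd (nat_lit 2) (.nd (nat_lit 3) (.nd (nat_lit 4) (.nd (nat_lit 5) (.nd (nat_lit 6) 
(.lf (nat_lit 198787) (.g (nat_lit 2828) (.e (nat_lit 65655) (nat_lit 35) (.e (nat_lit 491560) (nat_lit 10) (.e (nat_lit 344117) (nat_lit 21) (.e (nat_lit 516195) (nat_lit 26) (.e (nat_lit 335995) (nat_lit 1) .nil))))) .nil)) 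
(.lf (nat_lit 198851) (.g (nat_lit 2393) (.e (nat_lit 73729) (nat_lit 0) (.e (nat_lit 7125) (nat_lit 382) (.e (nat_lit 1222) (nat_lit 90) (.e (nat_lit 81921) (nat_lit 0) (.e (nat_lit 7089) (nat_lit 379) (.e (nat_lit 123214) (nat_lit 275) .nil)))))) (.g (nat_lit 0) .nil .nil)))) (.nd (nat_lit 6) 
(.lf (nat_lit 198819) (.g (nat_lit 1504) (.e (nat_lit 73728) (nat_lit 0) (.e (nat_lit 4632) (nat_lit 271) (.e (nat_lit 57375) (nat_lit 2) (.e (nat_lit 90176) (nat_lit 15) (.e (nat_lit 188439) (nat_lit 20) .nil))))) .nil)) 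
(.lf (nat_lit 198883) (.g (nat_lit 1196) (.e (nat_lit 73729) (nat_lit 0) (.e (nat_lit 7261) (nat_lit 384) (.e (nat_lit 57406) (nat_lit 12) (.e (nat_lit 336210) (nat_lit 13) .nil)))) .nil)))) (.nd (nat_lit 5) (.nd (nat_lit 6) 
(.lf (nat_lit 198803) (.g (nat_lit 1991) (.e (nat_lit 65655) (nat_lit 35) (.e (nat_lit 491566) (nat_lit 12) (.e (nat_lit 385093) (nat_lit 49) (.e (nat_lit 778291) (nat_lit 0) .nil)))) .nil)) 
(.lf (nat_lit 198867) (.g (nat_lit 1001) (.e (nat_lit 73729) (nat_lit 0) (.e (nat_lit 7125) (nat_lit 382) (.e (nat_lit 1224) (nat_lit 90) (.e (nat_lit 89856) (nat_lit 0) .nil)))) .nil))) (.nd (nat_lit 6) 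
(.lf (nat_lit 198835) (.g (nat_lit 223) (.e (nat_lit 73729) (nat_lit 0) (.e (nat_lit 7122) (nat_lit 382) (.e (nat_lit 1016) (nat_lit 81) .nil))) .nil)) 
(.lf (nat_lit 198899) (.g (nat_lit 619) (.e (nat_lit 73729) (nat_lit 0) (.e (nat_lit 7261) (nat_lit 384) (.e (nat_lit 57435) (nat_lit 17) (.e (nat_lit 384768) (nat_lit 10) .nil)))) .nil))))) (.nd (nat_lit 4) (.nd (nat_lit 5) (.nd (nat_lit 6) 
(.lf (nat_lit 198795) (.g (nat_lit 1547) (.e (nat_lit 65655) (nat_lit 35) (.e (nat_lit 491565) (nat_lit 12) (.e (nat_lit 385105) (nat_lit 50) (.e (nat_lit 786477) (nat_lit 28) .nil)))) .nil)) 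
(.lf (nat_lit 198859) (.g (nat_lit 1204) (.e (nat_lit 73729) (nat_lit 0) (.e (nat_lit 7125) (nat_lit 382) (.e (nat_lit 1222) (nat_lit 90) (.e (nat_lit 81927) (nat_lit 11) (.e (nat_lit 426052) (nat_lit 0) (.e (nat_lit 7936) (nat_lit 407) .nil)))))) (.g (nat_lit 5) .nil .nil)))) (.nd (nat_lit 6) 
(.lf (nat_lit 198827) (.g (nat_lit 1158) (.e (nat_lit 73728) (nat_lit 0) (.e (nat_lit 7271) (nat_lit 385) (.e (nat_lit 122916) (nat_lit 14) (.e (nat_lit 360192) (nat_lit 12) .nil)))) .nil)) 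
(.lf (nat_lit 198891) (.g (nat_lit 2440) (.e (nat_lit 73729) (nat_lit 0) (.e (nat_lit 7261) (nat_lit 384) (.e (nat_lit 57423) (nat_lit 14) (.e (nat_lit 352272) (nat_lit 10) (.e (nat_lit 417795) (nat_lit 0) (.e (nat_lit 5412) (nat_lit 303) .nil)))))) (.g (nat_lit 0) .nil .nil))))) (.nd (nat_lit 5) (.nd (nat_lit 6) 
(.lf (nat_lit 198811) (.g (nat_lit 1404) (.e (nat_lit 73728) (nat_lit 0) (.e (nat_lit 3915) (nat_lit 239) (.e (nat_lit 1222) (nat_lit 90) (.e (nat_lit 81954) (nat_lit 23) (.e (nat_lit 98320) (nat_lit 17) .nil))))) .nil)) 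
(.lf (nat_lit 198875) (.g (nat_lit 1770) (.e (nat_lit 73729) (nat_lit 0) (.e (nat_lit 7125) (nat_lit 382) (.e (nat_lit 1296) (nat_lit 96) (.e (nat_lit 131107) (nat_lit 9) (.e (nat_lit 336421) (nat_lit 28) (.e (nat_lit 442112) (nat_lit 5) .nil)))))) (.g (nat_lit 5) .nil .nil)))) (.nd (nat_lit 6) 
(.lf (nat_lit 198843) (.g (nat_lit 401) (.e (nat_lit 73729) (nat_lit 0) (.e (nat_lit 7125) (nat_lit 382) (.e (nat_lit 1016) (nat_lit 81) .nil))) .nil)) 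
(.lf (nat_lit 198907) (.g (nat_lit 2527) (.e (nat_lit 73729) (nat_lit 0) (.e (nat_lit 7261) (nat_lit 384) (.e (nat_lit 57437) (nat_lit 17) (.e (nat_lit 376842) (nat_lit 11) (.e (nat_lit 426010) (nat_lit 0) (.e (nat_lit 7591) (nat_lit 407) .nil)))))) (.g (nat_lit 4) .nil .nil))))))) (.nd (nat_lit 3) (.nd (nat_lit 4) (.nd (nat_lit 5) (.nd (nat_lit 6) 
(.lf (nat_lit 198791) (.g (nat_lit 1341) (.e (nat_lit 65655) (nat_lit 35) (.e (nat_lit 491563) (nat_lit 12) (.e (nat_lit 385094) (nat_lit 49) .nil))) .nil)) 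
(.lf (nat_lit 198855) (.g (nat_lit 964) (.e (nat_lit 73729) (nat_lit 0) (.e (nat_lit 7125) (nat_lit 382) (.e (nat_lit 1222) (nat_lit 90) (.e (nat_lit 81927) (nat_lit 11) (.e (nat_lit 426013) (nat_lit 0) (.e (nat_lit 7936) (nat_lit 407) .nil)))))) (.g (nat_lit 4) .nil .nil)))) (.nd (nat_lit 6) 
(.lf (nat_lit 198823) (.g (nat_lit 1039) (.e (nat_lit 73728) (nat_lit 0) (.e (nat_lit 7270) (nat_lit 385) (.e (nat_lit 122914) (nat_lit 14) (.e (nat_lit 360192) (nat_lit 12) .nil)))) .nil)) 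
(.lf (nat_lit 198887) (.g (nat_lit 2348) (.e (nat_lit 73729) (nat_lit 0) (.e (nat_lit 7261) (nat_lit 384) (.e (nat_lit 57407) (nat_lit 12) (.e (nat_lit 336211) (nat_lit 13) (.e (nat_lit 393231) (nat_lit 17) (.e (nat_lit 7593) (nat_lit 407) .nil)))))) (.g (nat_lit 4) .nil .nil))))) (.nd (nat_lit 5) (.nd (nat_lit 6) 
(.lf (nat_lit 198807) (.g (nat_lit 1359) (.e (nat_lit 65655) (nat_lit 35) (.e (nat_lit 491566) (nat_lit 12) (.e (nat_lit 385103) (nat_lit 50) .nil))) .nil)) 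
(.lf (nat_lit 198871) (.g (nat_lit 1254) (.e (nat_lit 73729) (nat_lit 0) (.e (nat_lit 7125) (nat_lit 382) (.e (nat_lit 1224) (nat_lit 90) (.e (nat_lit 81926) (nat_lit 11) .nil)))) .nil))) (.nd (nat_lit 6) 
(.lf (nat_lit 198839) (.g (nat_lit 37) (.e (nat_lit 73729) (nat_lit 0) (.e (nat_lit 7122) (nat_lit 382) (.e (nat_lit 7936) (nat_lit 90) .nil))) .nil)) 
(.lf (nat_lit 198903) (.g (nat_lit 1617) (.e (nat_lit 73729) (nat_lit 0) (.e (nat_lit 7261) (nat_lit 384) (.e (nat_lit 57436) (nat_lit 17) (.e (nat_lit 376840) (nat_lit 11) (.e (nat_lit 425984) (nat_lit 0) (.e (nat_lit 7592) (nat_lit 407) .nil)))))) (.g (nat_lit 4) .nil .nil)))))) (.nd (nat_lit 4) (.nd (nat_lit 5) (.nd (nat_lit 6) 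
(.lf (nat_lit 198799) (.g (nat_lit 3575) (.e (nat_lit 65655) (nat_lit 35) (.e (nat_lit 491566) (nat_lit 12) (.e (nat_lit 385068) (nat_lit 26) (.e (nat_lit 532501) (nat_lit 1) (.e (nat_lit 57927) (nat_lit 282) .nil))))) .nil)) 
(.lf (nat_lit 198863) (.g (nat_lit 1286) (.e (nat_lit 73729) (nat_lit 0) (.e (nat_lit 7125) (nat_lit 382) (.e (nat_lit 1222) (nat_lit 90) (.e (nat_lit 81927) (nat_lit 11) (.e (nat_lit 426075) (nat_lit 0) (.e (nat_lit 7936) (nat_lit 407) .nil)))))) (.g (nat_lit 5) .nil .nil)))) (.nd (nat_lit 6) 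
(.lf (nat_lit 198831) (.g (nat_lit 2635) (.e (nat_lit 73729) (nat_lit 0) (.e (nat_lit 4004) (nat_lit 242) (.e (nat_lit 122916) (nat_lit 14) (.e (nat_lit 352315) (nat_lit 23) (.e (nat_lit 98325) (nat_lit 17) (.e (nat_lit 7936) (nat_lit 407) .nil)))))) (.g (nat_lit 5) .nil .nil))) 
(.lf (nat_lit 198895) (.g (nat_lit 538) (.e (nat_lit 73729) (nat_lit 0) (.e (nat_lit 7261) (nat_lit 384) (.e (nat_lit 57424) (nat_lit 14) (.e (nat_lit 360192) (nat_lit 10) .nil)))) .nil)))) (.nd (nat_lit 5) (.nd (nat_lit 6) 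
(.lf (nat_lit 198815) (.g (nat_lit 4751) (.e (nat_lit 73728) (nat_lit 0) (.e (nat_lit 3975) (nat_lit 239) (.e (nat_lit 1220) (nat_lit 90) (.e (nat_lit 81956) (nat_lit 23) (.e (nat_lit 98320) (nat_lit 17) (.e (nat_lit 7591) (nat_lit 407) .nil)))))) (.g (nat_lit 6) .nil .nil))) 
(.lf (nat_lit 198879) (.g (nat_lit 1660) (.e (nat_lit 73729) (nat_lit 0) (.e (nat_lit 7125) (nat_lit 382) (.e (nat_lit 1296) (nat_lit 96) (.e (nat_lit 131127) (nat_lit 13) (.e (nat_lit 393238) (nat_lit 17) (.e (nat_lit 7936) (nat_lit 407) .nil)))))) (.g (nat_lit 4) .nil .nil)))) (.nd (nat_lit 6) 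
(.lf (nat_lit 198847) (.g (nat_lit 1841) (.e (nat_lit 73729) (nat_lit 0) (.e (nat_lit 7125) (nat_lit 382) (.e (nat_lit 1201) (nat_lit 88) (.e (nat_lit 65599) (nat_lit 9) (.e (nat_lit 343808) (nat_lit 31) (.e (nat_lit 466688) (nat_lit 5) .nil)))))) (.g (nat_lit 4) .nil .nil))) 
(.lf (nat_lit 198911) (.g (nat_lit 1865) (.e (nat_lit 73729) (nat_lit 0) (.e (nat_lit 7263) (nat_lit 384) (.e (nat_lit 57423) (nat_lit 14) (.e (nat_lit 352257) (nat_lit 0) (.e (nat_lit 7081) (nat_lit 378) (.e (nat_lit 57898) (nat_lit 275) .nil)))))) (.g (nat_lit 0) .nil .nil))))))))))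

noncomputable def tv2630 : DT := (.nd (nat_lit 0) (.nd (nat_lit 1) (.nd (nat_lit 2) (.nd (nat_lit 3) (.nd (nat_lit 4) (.nd (nat_lit 5) 
(.lf (nat_lit 198912) (.g (nat_lit 952) (.e (nat_lit 73729) (nat_lit 0) (.e (nat_lit 7263) (nat_lit 384) (.e (nat_lit 57423) (nat_lit 14) (.e (nat_lit 352271) (nat_lit 9) .nil)))) .nil)) 
(.lf (nat_lit 198944) (.g (nat_lit 2678) (.e (nat_lit 73729) (nat_lit 0) (.e (nat_lit 7265) (nat_lit 384) (.e (nat_lit 57347) (nat_lit 0) (.e (nat_lit 2203) (nat_lit 144) (.e (nat_lit 720956) (nat_lit 25) (.e (nat_lit 114715) (nat_lit 22) (.e (nat_lit 90165) (nat_lit 12) (.e (nat_lit 171776) (nat_lit 192) .nil)))))))) (.g (nat_lit 4) .nil .nil)))) (.nd (nat_lit 5) 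
(.lf (nat_lit 198928) (.g (nat_lit 2432) (.e (nat_lit 73729) (nat_lit 0) (.e (nat_lit 7263) (nat_lit 384) (.e (nat_lit 57436) (nat_lit 17) (.e (nat_lit 376842) (nat_lit 11) (.e (nat_lit 426010) (nat_lit 0) (.e (nat_lit 7593) (nat_lit 407) .nil)))))) (.g (nat_lit 4) .nil .nil))) 
(.lf (nat_lit 198960) (.g (nat_lit 3541) (.e (nat_lit 73729) (nat_lit 0) (.e (nat_lit 7265) (nat_lit 384) (.e (nat_lit 57423) (nat_lit 14) (.e (nat_lit 352277) (nat_lit 11) (.e (nat_lit 426012) (nat_lit 0) (.e (nat_lit 7593) (nat_lit 407) .nil)))))) (.g (nat_lit 0) .nil .nil))))) (.nd (nat_lit 4) (.nd (nat_lit 5) 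
(.lf (nat_lit 198920) (.g (nat_lit 2797) (.e (nat_lit 73729) (nat_lit 0) (.e (nat_lit 7263) (nat_lit 384) (.e (nat_lit 57424) (nat_lit 14) (.e (nat_lit 352272) (nat_lit 10) (.e (nat_lit 417796) (nat_lit 0) (.e (nat_lit 5412) (nat_lit 303) .nil)))))) (.g (nat_lit 0) .nil .nil))) 
(.lf (nat_lit 198952) (.g (nat_lit 1558) (.e (nat_lit 73729) (nat_lit 0) (.e (nat_lit 7265) (nat_lit 384) (.e (nat_lit 57406) (nat_lit 12) (.e (nat_lit 336122) (nat_lit 9) .nil)))) .nil))) (.nd (nat_lit 5) 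
(.lf (nat_lit 198936) (.g (nat_lit 3807) (.e (nat_lit 73729) (nat_lit 0) (.e (nat_lit 7265) (nat_lit 384) (.e (nat_lit 57347) (nat_lit 0) (.e (nat_lit 2032) (nat_lit 140) (.e (nat_lit 688182) (nat_lit 17) (.e (nat_lit 73755) (nat_lit 8) (.e (nat_lit 557089) (nat_lit 12) (.e (nat_lit 171776) (nat_lit 192) .nil)))))))) (.g (nat_lit 6) .nil .nil))) 
(.lf (nat_lit 198968) (.g (nat_lit 1432) (.e (nat_lit 73729) (nat_lit 0) (.e (nat_lit 7265) (nat_lit 384) (.e (nat_lit 57424) (nat_lit 14) (.e (nat_lit 352274) (nat_lit 11) .nil)))) .nil))))) (.nd (nat_lit 3) (.nd (nat_lit 4) (.nd (nat_lit 5) 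
(.lf (nat_lit 198916) (.g (nat_lit 904) (.e (nat_lit 73729) (nat_lit 0) (.e (nat_lit 7263) (nat_lit 384) (.e (nat_lit 57423) (nat_lit 14) (.e (nat_lit 352276) (nat_lit 11) .nil)))) .nil)) 
(.lf (nat_lit 198948) (.g (nat_lit 958) (.e (nat_lit 73729) (nat_lit 0) (.e (nat_lit 7265) (nat_lit 384) (.e (nat_lit 57354) (nat_lit 0) (.e (nat_lit 7936) (nat_lit 343) .nil)))) .nil))) (.nd (nat_lit 5) 
(.lf (nat_lit 198932) (.g (nat_lit 2532) (.e (nat_lit 73729) (nat_lit 0) (.e (nat_lit 7265) (nat_lit 384) (.e (nat_lit 57347) (nat_lit 0) (.e (nat_lit 2031) (nat_lit 140) (.e (nat_lit 688181) (nat_lit 17) (.e (nat_lit 73755) (nat_lit 8) (.e (nat_lit 557089) (nat_lit 12) (.e (nat_lit 171776) (nat_lit 192) .nil)))))))) (.g (nat_lit 4) .nil .nil))) 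
(.lf (nat_lit 198964) (.g (nat_lit 3094) (.e (nat_lit 73729) (nat_lit 0) (.e (nat_lit 7265) (nat_lit 384) (.e (nat_lit 57424) (nat_lit 14) (.e (nat_lit 352272) (nat_lit 10) (.e (nat_lit 417795) (nat_lit 0) (.e (nat_lit 5412) (nat_lit 303) .nil)))))) (.g (nat_lit 0) .nil .nil))))) (.nd (nat_lit 4) (.nd (nat_lit 5) 
(.lf (nat_lit 198924) (.g (nat_lit 440) (.e (nat_lit 73729) (nat_lit 0) (.e (nat_lit 7263) (nat_lit 384) (.e (nat_lit 57425) (nat_lit 14) (.e (nat_lit 352272) (nat_lit 10) .nil)))) .nil)) 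
(.lf (nat_lit 198956) (.g (nat_lit 198) (.e (nat_lit 73729) (nat_lit 0) (.e (nat_lit 7265) (nat_lit 384) (.e (nat_lit 57423) (nat_lit 14) .nil))) .nil))) (.nd (nat_lit 5) 
(.lf (nat_lit 198940) (.g (nat_lit 3759) (.e (nat_lit 73729) (nat_lit 0) (.e (nat_lit 7265) (nat_lit 384) (.e (nat_lit 57347) (nat_lit 0) (.e (nat_lit 2202) (nat_lit 144) (.e (nat_lit 720956) (nat_lit 25) (.e (nat_lit 114716) (nat_lit 22) (.e (nat_lit 90181) (nat_lit 16) (.e (nat_lit 237312) (nat_lit 192) .nil)))))))) (.g (nat_lit 7) .nil .nil))) 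
(.lf (nat_lit 198972) (.g (nat_lit 2002) (.e (nat_lit 73729) (nat_lit 0) (.e (nat_lit 7265) (nat_lit 384) (.e (nat_lit 57425) (nat_lit 14) (.e (nat_lit 352272) (nat_lit 10) (.e (nat_lit 417795) (nat_lit 0) (.e (nat_lit 5412) (nat_lit 303) .nil)))))) (.g (nat_lit 6) .nil .nil))))))) (.nd (nat_lit 2) (.nd (nat_lit 3) (.nd (nat_lit 4) (.nd (nat_lit 5) 
(.lf (nat_lit 198914) (.g (nat_lit 2817) (.e (nat_lit 73729) (nat_lit 0) (.e (nat_lit 7263) (nat_lit 384) (.e (nat_lit 57423) (nat_lit 14) (.e (nat_lit 352272) (nat_lit 10) (.e (nat_lit 417795) (nat_lit 0) (.e (nat_lit 5412) (nat_lit 303) .nil)))))) (.g (nat_lit 0) .nil .nil))) 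
(.lf (nat_lit 198946) (.g (nat_lit 1222) (.e (nat_lit 73729) (nat_lit 0) (.e (nat_lit 7265) (nat_lit 384) (.e (nat_lit 57347) (nat_lit 0) (.e (nat_lit 7936) (nat_lit 347) .nil)))) .nil))) (.nd (nat_lit 5) 
(.lf (nat_lit 198930) (.g (nat_lit 2583) (.e (nat_lit 73729) (nat_lit 0) (.e (nat_lit 7265) (nat_lit 384) (.e (nat_lit 57347) (nat_lit 0) (.e (nat_lit 2029) (nat_lit 140) (.e (nat_lit 688181) (nat_lit 17) (.e (nat_lit 73755) (nat_lit 8) (.e (nat_lit 557091) (nat_lit 12) (.e (nat_lit 171776) (nat_lit 192) .nil)))))))) (.g (nat_lit 4) .nil .nil))) 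
(.lf (nat_lit 198962) (.g (nat_lit 1458) (.e (nat_lit 73729) (nat_lit 0) (.e (nat_lit 7265) (nat_lit 384) (.e (nat_lit 57424) (nat_lit 14) (.e (nat_lit 352271) (nat_lit 9) .nil)))) .nil)))) (.nd (nat_lit 4) (.nd (nat_lit 5) 
(.lf (nat_lit 198922) (.g (nat_lit 1151) (.e (nat_lit 73729) (nat_lit 0) (.e (nat_lit 7263) (nat_lit 384) (.e (nat_lit 57424) (nat_lit 14) (.e (nat_lit 352278) (nat_lit 11) .nil)))) .nil)) 
(.lf (nat_lit 198954) (.g (nat_lit 1137) (.e (nat_lit 73729) (nat_lit 0) (.e (nat_lit 7265) (nat_lit 384) (.e (nat_lit 57406) (nat_lit 12) (.e (nat_lit 336210) (nat_lit 13) .nil)))) .nil))) (.nd (nat_lit 5) 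
(.lf (nat_lit 198938) (.g (nat_lit 2560) (.e (nat_lit 73729) (nat_lit 0) (.e (nat_lit 7265) (nat_lit 384) (.e (nat_lit 57347) (nat_lit 0) (.e (nat_lit 2198) (nat_lit 144) (.e (nat_lit 720955) (nat_lit 25) (.e (nat_lit 114716) (nat_lit 22) (.e (nat_lit 90181) (nat_lit 16) (.e (nat_lit 237312) (nat_lit 192) .nil)))))))) (.g (nat_lit 4) .nil .nil))) 
(.lf (nat_lit 198970) (.g (nat_lit 1645) (.e (nat_lit 73729) (nat_lit 0) (.e (nat_lit 7265) (nat_lit 384) (.e (nat_lit 57424) (nat_lit 14) (.e (nat_lit 352278) (nat_lit 11) .nil)))) .nil))))) (.nd (nat_lit 3) (.nd (nat_lit 4) (.nd (nat_lit 5) 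
(.lf (nat_lit 198918) (.g (nat_lit 1163) (.e (nat_lit 73729) (nat_lit 0) (.e (nat_lit 7263) (nat_lit 384) (.e (nat_lit 57424) (nat_lit 14) (.e (nat_lit 352271) (nat_lit 9) .nil)))) .nil)) 
(.lf (nat_lit 198950) (.g (nat_lit 1558) (.e (nat_lit 73729) (nat_lit 0) (.e (nat_lit 7265) (nat_lit 384) (.e (nat_lit 57406) (nat_lit 12) (.e (nat_lit 336117) (nat_lit 9) .nil)))) .nil))) (.nd (nat_lit 5) 
(.lf (nat_lit 198934) (.g (nat_lit 3236) (.e (nat_lit 73729) (nat_lit 0) (.e (nat_lit 7265) (nat_lit 384) (.e (nat_lit 57347) (nat_lit 0) (.e (nat_lit 2031) (nat_lit 140) (.e (nat_lit 688182) (nat_lit 17) (.e (nat_lit 73755) (nat_lit 8) (.e (nat_lit 557091) (nat_lit 12) (.e (nat_lit 171776) (nat_lit 192) .nil)))))))) (.g (nat_lit 5) .nil .nil))) 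
(.lf (nat_lit 198966) (.g (nat_lit 1518) (.e (nat_lit 73729) (nat_lit 0) (.e (nat_lit 7265) (nat_lit 384) (.e (nat_lit 57424) (nat_lit 14) (.e (nat_lit 352273) (nat_lit 11) .nil)))) .nil)))) (.nd (nat_lit 4) (.nd (nat_lit 5) 
(.lf (nat_lit 198926) (.g (nat_lit 2251) (.e (nat_lit 73729) (nat_lit 0) (.e (nat_lit 7263) (nat_lit 384) (.e (nat_lit 57436) (nat_lit 17) (.e (nat_lit 376842) (nat_lit 11) (.e (nat_lit 426009) (nat_lit 0) (.e (nat_lit 7593) (nat_lit 407) .nil)))))) (.g (nat_lit 4) .nil .nil))) 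
(.lf (nat_lit 198958) (.g (nat_lit 921) (.e (nat_lit 73729) (nat_lit 0) (.e (nat_lit 7265) (nat_lit 384) (.e (nat_lit 57423) (nat_lit 14) (.e (nat_lit 352271) (nat_lit 9) .nil)))) .nil))) (.nd (nat_lit 5) 
(.lf (nat_lit 198942) (.g (nat_lit 2889) (.e (nat_lit 73729) (nat_lit 0) (.e (nat_lit 7265) (nat_lit 384) (.e (nat_lit 57347) (nat_lit 0) (.e (nat_lit 2203) (nat_lit 144) (.e (nat_lit 720955) (nat_lit 25) (.e (nat_lit 114716) (nat_lit 22) (.e (nat_lit 90181) (nat_lit 16) (.e (nat_lit 237312) (nat_lit 192) .nil)))))))) (.g (nat_lit 4) .nil .nil))) 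
(.lf (nat_lit 198974) (.g (nat_lit 2502) (.e (nat_lit 73729) (nat_lit 0) (.e (nat_lit 7265) (nat_lit 384) (.e (nat_lit 57435) (nat_lit 17) (.e (nat_lit 376842) (nat_lit 11) (.e (nat_lit 426003) (nat_lit 0) (.e (nat_lit 7593) (nat_lit 407) .nil)))))) (.g (nat_lit 4) .nil .nil)))))))) (.nd (nat_lit 1) (.nd (nat_lit 2) (.nd (nat_lit 3) (.nd (nat_lit 4) (.nd (nat_lit 5) 
(.lf (nat_lit 198913) (.g (nat_lit 2445) (.e (nat_lit 73729) (nat_lit 0) (.e (nat_lit 7263) (nat_lit 384) (.e (nat_lit 57423) (nat_lit 14) (.e (nat_lit 352272) (nat_lit 10) (.e (nat_lit 417793) (nat_lit 0) (.e (nat_lit 5412) (nat_lit 303) .nil)))))) (.g (nat_lit 0) .nil .nil))) 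
(.lf (nat_lit 198945) (.g (nat_lit 4402) (.e (nat_lit 73729) (nat_lit 0) (.e (nat_lit 7265) (nat_lit 384) (.e (nat_lit 57347) (nat_lit 0) (.e (nat_lit 2203) (nat_lit 144) (.e (nat_lit 720956) (nat_lit 25) (.e (nat_lit 114716) (nat_lit 22) (.e (nat_lit 90181) (nat_lit 16) (.e (nat_lit 237312) (nat_lit 192) .nil)))))))) (.g (nat_lit 7) .nil .nil)))) (.nd (nat_lit 5) 
(.lf (nat_lit 198929) (.g (nat_lit 2109) (.e (nat_lit 73729) (nat_lit 0) (.e (nat_lit 7263) (nat_lit 384) (.e (nat_lit 57436) (nat_lit 17) (.e (nat_lit 376842) (nat_lit 11) (.e (nat_lit 426012) (nat_lit 0) .nil))))) .nil)) 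
(.lf (nat_lit 198961) (.g (nat_lit 2107) (.e (nat_lit 73729) (nat_lit 0) (.e (nat_lit 7265) (nat_lit 384) (.e (nat_lit 57424) (nat_lit 14) (.e (nat_lit 352257) (nat_lit 0) (.e (nat_lit 7079) (nat_lit 378) (.e (nat_lit 57898) (nat_lit 275) .nil)))))) (.g (nat_lit 5) .nil .nil))))) (.nd (nat_lit 4) (.nd (nat_lit 5) 
(.lf (nat_lit 198921) (.g (nat_lit 672) (.e (nat_lit 73729) (nat_lit 0) (.e (nat_lit 7263) (nat_lit 384) (.e (nat_lit 57424) (nat_lit 14) (.e (nat_lit 360192) (nat_lit 10) .nil)))) .nil)) 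
(.lf (nat_lit 198953) (.g (nat_lit 1520) (.e (nat_lit 73729) (nat_lit 0) (.e (nat_lit 7265) (nat_lit 384) (.e (nat_lit 57406) (nat_lit 12) (.e (nat_lit 336136) (nat_lit 9) .nil)))) .nil))) (.nd (nat_lit 5) 
(.lf (nat_lit 198937) (.g (nat_lit 2850) (.e (nat_lit 73729) (nat_lit 0) (.e (nat_lit 7265) (nat_lit 384) (.e (nat_lit 57347) (nat_lit 0) (.e (nat_lit 2032) (nat_lit 140) (.e (nat_lit 688182) (nat_lit 17) (.e (nat_lit 73755) (nat_lit 8) (.e (nat_lit 557091) (nat_lit 12) (.e (nat_lit 171776) (nat_lit 192) .nil)))))))) (.g (nat_lit 5) .nil .nil))) 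
(.lf (nat_lit 198969) (.g (nat_lit 1136) (.e (nat_lit 73729) (nat_lit 0) (.e (nat_lit 7265) (nat_lit 384) (.e (nat_lit 57424) (nat_lit 14) (.e (nat_lit 352276) (nat_lit 11) .nil)))) .nil))))) (.nd (nat_lit 3) (.nd (nat_lit 4) (.nd (nat_lit 5) 
(.lf (nat_lit 198917) (.g (nat_lit 2203) (.e (nat_lit 73729) (nat_lit 0) (.e (nat_lit 7263) (nat_lit 384) (.e (nat_lit 57423) (nat_lit 14) (.e (nat_lit 352277) (nat_lit 11) (.e (nat_lit 426009) (nat_lit 0) (.e (nat_lit 7591) (nat_lit 407) .nil)))))) (.g (nat_lit 4) .nil .nil))) 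
(.lf (nat_lit 198949) (.g (nat_lit 1842) (.e (nat_lit 73729) (nat_lit 0) (.e (nat_lit 7265) (nat_lit 384) (.e (nat_lit 57389) (nat_lit 5) (.e (nat_lit 114702) (nat_lit 20) (.e (nat_lit 2198) (nat_lit 144) (.e (nat_lit 720940) (nat_lit 22) (.e (nat_lit 90165) (nat_lit 12) (.e (nat_lit 171776) (nat_lit 192) .nil)))))))) (.g (nat_lit 4) .nil .nil)))) (.nd (nat_lit 5) 
(.lf (nat_lit 198933) (.g (nat_lit 4192) (.e (nat_lit 73729) (nat_lit 0) (.e (nat_lit 7265) (nat_lit 384) (.e (nat_lit 57347) (nat_lit 0) (.e (nat_lit 2031) (nat_lit 140) (.e (nat_lit 688182) (nat_lit 17) (.e (nat_lit 73755) (nat_lit 8) (.e (nat_lit 557089) (nat_lit 12) (.e (nat_lit 171776) (nat_lit 192) .nil)))))))) (.g (nat_lit 6) .nil .nil))) 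
(.lf (nat_lit 198965) (.g (nat_lit 3157) (.e (nat_lit 73729) (nat_lit 0) (.e (nat_lit 7265) (nat_lit 384) (.e (nat_lit 57424) (nat_lit 14) (.e (nat_lit 352272) (nat_lit 10) (.e (nat_lit 417796) (nat_lit 0) (.e (nat_lit 5409) (nat_lit 303) .nil)))))) (.g (nat_lit 6) .nil .nil))))) (.nd (nat_lit 4) (.nd (nat_lit 5) 
(.lf (nat_lit 198925) (.g (nat_lit 1887) (.e (nat_lit 73729) (nat_lit 0) (.e (nat_lit 7263) (nat_lit 384) (.e (nat_lit 57436) (nat_lit 17) (.e (nat_lit 376842) (nat_lit 11) (.e (nat_lit 426009) (nat_lit 0) .nil))))) .nil)) 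
(.lf (nat_lit 198957) (.g (nat_lit 1369) (.e (nat_lit 73729) (nat_lit 0) (.e (nat_lit 7265) (nat_lit 384) (.e (nat_lit 57423) (nat_lit 14) (.e (nat_lit 352256) (nat_lit 0) .nil)))) .nil))) (.nd (nat_lit 5) 
(.lf (nat_lit 198941) (.g (nat_lit 2583) (.e (nat_lit 73729) (nat_lit 0) (.e (nat_lit 7265) (nat_lit 384) (.e (nat_lit 57347) (nat_lit 0) (.e (nat_lit 2203) (nat_lit 144) (.e (nat_lit 720954) (nat_lit 25) (.e (nat_lit 114714) (nat_lit 22) (.e (nat_lit 90165) (nat_lit 12) (.e (nat_lit 171776) (nat_lit 192) .nil)))))))) (.g (nat_lit 4) .nil .nil))) 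
(.lf (nat_lit 198973) (.g (nat_lit 2150) (.e (nat_lit 73729) (nat_lit 0) (.e (nat_lit 7265) (nat_lit 384) (.e (nat_lit 57425) (nat_lit 14) (.e (nat_lit 352272) (nat_lit 10) (.e (nat_lit 417796) (nat_lit 0) (.e (nat_lit 5409) (nat_lit 303) .nil)))))) (.g (nat_lit 6) .nil .nil))))))) (.nd (nat_lit 2) (.nd (nat_lit 3) (.nd (nat_lit 4) (.nd (nat_lit 5) 
(.lf (nat_lit 198915) (.g (nat_lit 2748) (.e (nat_lit 73729) (nat_lit 0) (.e (nat_lit 7263) (nat_lit 384) (.e (nat_lit 57423) (nat_lit 14) (.e (nat_lit 352272) (nat_lit 10) (.e (nat_lit 417796) (nat_lit 0) (.e (nat_lit 5412) (nat_lit 303) .nil)))))) (.g (nat_lit 0) .nil .nil))) 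
(.lf (nat_lit 198947) (.g (nat_lit 994) (.e (nat_lit 73729) (nat_lit 0) (.e (nat_lit 7265) (nat_lit 384) (.e (nat_lit 57354) (nat_lit 0) (.e (nat_lit 2191) (nat_lit 144) .nil)))) .nil))) (.nd (nat_lit 5) 
(.lf (nat_lit 198931) (.g (nat_lit 3647) (.e (nat_lit 73729) (nat_lit 0) (.e (nat_lit 7265) (nat_lit 384) (.e (nat_lit 57347) (nat_lit 0) (.e (nat_lit 2029) (nat_lit 140) (.e (nat_lit 688182) (nat_lit 17) (.e (nat_lit 73755) (nat_lit 8) (.e (nat_lit 557089) (nat_lit 12) (.e (nat_lit 171776) (nat_lit 192) .nil)))))))) (.g (nat_lit 6) .nil .nil))) 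
(.lf (nat_lit 198963) (.g (nat_lit 2427) (.e (nat_lit 73729) (nat_lit 0) (.e (nat_lit 7265) (nat_lit 384) (.e (nat_lit 57424) (nat_lit 14) (.e (nat_lit 352271) (nat_lit 9) (.e (nat_lit 409602) (nat_lit 0) (.e (nat_lit 5411) (nat_lit 303) .nil)))))) (.g (nat_lit 5) .nil .nil))))) (.nd (nat_lit 4) (.nd (nat_lit 5) 
(.lf (nat_lit 198923) (.g (nat_lit 672) (.e (nat_lit 73729) (nat_lit 0) (.e (nat_lit 7263) (nat_lit 384) (.e (nat_lit 57424) (nat_lit 14) (.e (nat_lit 360192) (nat_lit 11) .nil)))) .nil)) 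
(.lf (nat_lit 198955) (.g (nat_lit 3061) (.e (nat_lit 73729) (nat_lit 0) (.e (nat_lit 7265) (nat_lit 384) (.e (nat_lit 57412) (nat_lit 12) (.e (nat_lit 336212) (nat_lit 13) (.e (nat_lit 393234) (nat_lit 17) (.e (nat_lit 7593) (nat_lit 407) .nil)))))) (.g (nat_lit 0) .nil .nil)))) (.nd (nat_lit 5) 
(.lf (nat_lit 198939) (.g (nat_lit 3593) (.e (nat_lit 73729) (nat_lit 0) (.e (nat_lit 7265) (nat_lit 384) (.e (nat_lit 57347) (nat_lit 0) (.e (nat_lit 2198) (nat_lit 144) (.e (nat_lit 720956) (nat_lit 25) (.e (nat_lit 114716) (nat_lit 22) (.e (nat_lit 90181) (nat_lit 16) (.e (nat_lit 237312) (nat_lit 192) .nil)))))))) (.g (nat_lit 7) .nil .nil))) 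
(.lf (nat_lit 198971) (.g (nat_lit 2800) (.e (nat_lit 73729) (nat_lit 0) (.e (nat_lit 7265) (nat_lit 384) (.e (nat_lit 57424) (nat_lit 14) (.e (nat_lit 352278) (nat_lit 11) (.e (nat_lit 426035) (nat_lit 0) (.e (nat_lit 7936) (nat_lit 407) .nil)))))) (.g (nat_lit 5) .nil .nil)))))) (.nd (nat_lit 3) (.nd (nat_lit 4) (.nd (nat_lit 5) 
(.lf (nat_lit 198919) (.g (nat_lit 2880) (.e (nat_lit 73729) (nat_lit 0) (.e (nat_lit 7263) (nat_lit 384) (.e (nat_lit 57424) (nat_lit 14) (.e (nat_lit 352272) (nat_lit 10) (.e (nat_lit 417795) (nat_lit 0) (.e (nat_lit 5412) (nat_lit 303) .nil)))))) (.g (nat_lit 0) .nil .nil))) 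
(.lf (nat_lit 198951) (.g (nat_lit 1291) (.e (nat_lit 73729) (nat_lit 0) (.e (nat_lit 7265) (nat_lit 384) (.e (nat_lit 57406) (nat_lit 12) (.e (nat_lit 336120) (nat_lit 9) .nil)))) .nil))) (.nd (nat_lit 5) 
(.lf (nat_lit 198935) (.g (nat_lit 2569) (.e (nat_lit 73729) (nat_lit 0) (.e (nat_lit 7265) (nat_lit 384) (.e (nat_lit 57347) (nat_lit 0) (.e (nat_lit 2032) (nat_lit 140) (.e (nat_lit 688180) (nat_lit 17) (.e (nat_lit 73753) (nat_lit 8) (.e (nat_lit 557089) (nat_lit 12) (.e (nat_lit 171776) (nat_lit 192) .nil)))))))) (.g (nat_lit 4) .nil .nil))) 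
(.lf (nat_lit 198967) (.g (nat_lit 1815) (.e (nat_lit 73729) (nat_lit 0) (.e (nat_lit 7265) (nat_lit 384) (.e (nat_lit 57424) (nat_lit 14) (.e (nat_lit 352273) (nat_lit 11) (.e (nat_lit 426012) (nat_lit 0) .nil))))) .nil)))) (.nd (nat_lit 4) (.nd (nat_lit 5) 
(.lf (nat_lit 198927) (.g (nat_lit 1969) (.e (nat_lit 73729) (nat_lit 0) (.e (nat_lit 7263) (nat_lit 384) (.e (nat_lit 57436) (nat_lit 17) (.e (nat_lit 376842) (nat_lit 11) (.e (nat_lit 426010) (nat_lit 0) .nil))))) .nil)) 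
(.lf (nat_lit 198959) (.g (nat_lit 2900) (.e (nat_lit 73729) (nat_lit 0) (.e (nat_lit 7265) (nat_lit 384) (.e (nat_lit 57423) (nat_lit 14) (.e (nat_lit 352272) (nat_lit 10) (.e (nat_lit 417795) (nat_lit 0) (.e (nat_lit 5412) (nat_lit 303) .nil)))))) (.g (nat_lit 0) .nil .nil)))) (.nd (nat_lit 5) 
(.lf (nat_lit 198943) (.g (nat_lit 1986) (.e (nat_lit 73729) (nat_lit 0) (.e (nat_lit 7265) (nat_lit 384) (.e (nat_lit 57347) (nat_lit 0) (.e (nat_lit 2203) (nat_lit 144) (.e (nat_lit 720956) (nat_lit 25) .nil))))) .nil)) 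
(.lf (nat_lit 198975) (.g (nat_lit 2516) (.e (nat_lit 73729) (nat_lit 0) (.e (nat_lit 7265) (nat_lit 384) (.e (nat_lit 57435) (nat_lit 17) (.e (nat_lit 376842) (nat_lit 11) (.e (nat_lit 426009) (nat_lit 0) (.e (nat_lit 7591) (nat_lit 407) .nil)))))) (.g (nat_lit 4) .nil .nil)))))))))

noncomputable def tv2631 : DT := (.nd (nat_lit 0) (.nd (nat_lit 1) (.nd (nat_lit 2) (.nd (nat_lit 3) (.nd (nat_lit 4) (.nd (nat_lit 5) 
(.lf (nat_lit 198976) (.g (nat_lit 2875) (.e (nat_lit 73729) (nat_lit 0) (.e (nat_lit 7265) (nat_lit 384) (.e (nat_lit 57435) (nat_lit 17) (.e (nat_lit 376842) (nat_lit 11) (.e (nat_lit 426012) (nat_lit 0) (.e (nat_lit 7591) (nat_lit 407) .nil)))))) (.g (nat_lit 4) .nil .nil))) 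
(.lf (nat_lit 199008) (.g (nat_lit 1473) (.e (nat_lit 73729) (nat_lit 0) (.e (nat_lit 7266) (nat_lit 384) (.e (nat_lit 57423) (nat_lit 14) (.e (nat_lit 352277) (nat_lit 11) (.e (nat_lit 426016) (nat_lit 0) .nil))))) .nil))) (.nd (nat_lit 5) 
(.lf (nat_lit 198992) (.g (nat_lit 2311) (.e (nat_lit 73729) (nat_lit 0) (.e (nat_lit 7266) (nat_lit 384) (.e (nat_lit 57419) (nat_lit 12) (.e (nat_lit 336076) (nat_lit 9) (.e (nat_lit 336438) (nat_lit 31) (.e (nat_lit 466688) (nat_lit 5) .nil)))))) (.g (nat_lit 5) .nil .nil))) 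
(.lf (nat_lit 199024) (.g (nat_lit 2617) (.e (nat_lit 73729) (nat_lit 0) (.e (nat_lit 7266) (nat_lit 384) (.e (nat_lit 57435) (nat_lit 17) (.e (nat_lit 376842) (nat_lit 11) (.e (nat_lit 426003) (nat_lit 0) (.e (nat_lit 7593) (nat_lit 407) .nil)))))) (.g (nat_lit 4) .nil .nil))))) (.nd (nat_lit 4) (.nd (nat_lit 5) 
(.lf (nat_lit 198984) (.g (nat_lit 588) (.e (nat_lit 73729) (nat_lit 0) (.e (nat_lit 7266) (nat_lit 384) (.e (nat_lit 57412) (nat_lit 12) .nil))) .nil)) 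
(.lf (nat_lit 199016) (.g (nat_lit 1949) (.e (nat_lit 73729) (nat_lit 0) (.e (nat_lit 7266) (nat_lit 384) (.e (nat_lit 57424) (nat_lit 14) (.e (nat_lit 352273) (nat_lit 11) .nil)))) .nil))) (.nd (nat_lit 5) 
(.lf (nat_lit 199000) (.g (nat_lit 1829) (.e (nat_lit 73729) (nat_lit 0) (.e (nat_lit 7266) (nat_lit 384) (.e (nat_lit 57423) (nat_lit 14) (.e (nat_lit 352271) (nat_lit 9) (.e (nat_lit 409603) (nat_lit 0) (.e (nat_lit 7936) (nat_lit 303) .nil)))))) (.g (nat_lit 5) .nil .nil))) 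
(.lf (nat_lit 199032) (.g (nat_lit 2383) (.e (nat_lit 73729) (nat_lit 0) (.e (nat_lit 7266) (nat_lit 384) (.e (nat_lit 57435) (nat_lit 17) (.e (nat_lit 376842) (nat_lit 11) (.e (nat_lit 426031) (nat_lit 0) (.e (nat_lit 7936) (nat_lit 407) .nil)))))) (.g (nat_lit 4) .nil .nil)))))) (.nd (nat_lit 3) (.nd (nat_lit 4) (.nd (nat_lit 5) 
(.lf (nat_lit 198980) (.g (nat_lit 2520) (.e (nat_lit 73729) (nat_lit 0) (.e (nat_lit 7265) (nat_lit 384) (.e (nat_lit 57436) (nat_lit 17) (.e (nat_lit 376842) (nat_lit 11) (.e (nat_lit 426009) (nat_lit 0) (.e (nat_lit 7591) (nat_lit 407) .nil)))))) (.g (nat_lit 4) .nil .nil))) 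
(.lf (nat_lit 199012) (.g (nat_lit 1957) (.e (nat_lit 73729) (nat_lit 0) (.e (nat_lit 7266) (nat_lit 384) (.e (nat_lit 57424) (nat_lit 14) (.e (nat_lit 352258) (nat_lit 0) .nil)))) .nil))) (.nd (nat_lit 5) 
(.lf (nat_lit 198996) (.g (nat_lit 1776) (.e (nat_lit 73729) (nat_lit 0) (.e (nat_lit 7266) (nat_lit 384) (.e (nat_lit 57423) (nat_lit 14) (.e (nat_lit 352256) (nat_lit 0) .nil)))) .nil)) 
(.lf (nat_lit 199028) (.g (nat_lit 2333) (.e (nat_lit 73729) (nat_lit 0) (.e (nat_lit 7266) (nat_lit 384) (.e (nat_lit 57435) (nat_lit 17) (.e (nat_lit 376842) (nat_lit 11) (.e (nat_lit 426027) (nat_lit 0) (.e (nat_lit 7936) (nat_lit 407) .nil)))))) (.g (nat_lit 4) .nil .nil))))) (.nd (nat_lit 4) (.nd (nat_lit 5) 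
(.lf (nat_lit 198988) (.g (nat_lit 1500) (.e (nat_lit 73729) (nat_lit 0) (.e (nat_lit 7266) (nat_lit 384) (.e (nat_lit 57417) (nat_lit 12) (.e (nat_lit 336209) (nat_lit 13) (.e (nat_lit 393237) (nat_lit 17) (.e (nat_lit 7936) (nat_lit 407) .nil)))))) (.g (nat_lit 4) .nil .nil))) 
(.lf (nat_lit 199020) (.g (nat_lit 590) (.e (nat_lit 73729) (nat_lit 0) (.e (nat_lit 7266) (nat_lit 384) (.e (nat_lit 57425) (nat_lit 14) .nil))) .nil))) (.nd (nat_lit 5) 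
(.lf (nat_lit 199004) (.g (nat_lit 1375) (.e (nat_lit 73729) (nat_lit 0) (.e (nat_lit 7266) (nat_lit 384) (.e (nat_lit 57423) (nat_lit 14) (.e (nat_lit 352276) (nat_lit 11) .nil)))) .nil)) 
(.lf (nat_lit 199036) (.g (nat_lit 2220) (.e (nat_lit 73729) (nat_lit 0) (.e (nat_lit 7266) (nat_lit 384) (.e (nat_lit 57435) (nat_lit 17) (.e (nat_lit 376842) (nat_lit 11) (.e (nat_lit 426070) (nat_lit 0) (.e (nat_lit 7936) (nat_lit 407) .nil)))))) (.g (nat_lit 4) .nil .nil))))))) (.nd (nat_lit 2) (.nd (nat_lit 3) (.nd (nat_lit 4) (.nd (nat_lit 5) 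
(.lf (nat_lit 198978) (.g (nat_lit 752) (.e (nat_lit 73729) (nat_lit 0) (.e (nat_lit 7265) (nat_lit 384) (.e (nat_lit 57436) (nat_lit 17) (.e (nat_lit 376838) (nat_lit 11) .nil)))) .nil)) 
(.lf (nat_lit 199010) (.g (nat_lit 1789) (.e (nat_lit 73729) (nat_lit 0) (.e (nat_lit 7266) (nat_lit 384) (.e (nat_lit 57423) (nat_lit 14) (.e (nat_lit 352278) (nat_lit 11) .nil)))) .nil))) (.nd (nat_lit 5) 
(.lf (nat_lit 198994) (.g (nat_lit 2216) (.e (nat_lit 73729) (nat_lit 0) (.e (nat_lit 7266) (nat_lit 384) (.e (nat_lit 57419) (nat_lit 12) (.e (nat_lit 336213) (nat_lit 13) (.e (nat_lit 393237) (nat_lit 17) .nil))))) .nil)) 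
(.lf (nat_lit 199026) (.g (nat_lit 1954) (.e (nat_lit 73729) (nat_lit 0) (.e (nat_lit 7266) (nat_lit 384) (.e (nat_lit 57435) (nat_lit 17) (.e (nat_lit 376842) (nat_lit 11) (.e (nat_lit 426014) (nat_lit 0) (.e (nat_lit 7936) (nat_lit 407) .nil)))))) (.g (nat_lit 4) .nil .nil))))) (.nd (nat_lit 4) (.nd (nat_lit 5) 
(.lf (nat_lit 198986) (.g (nat_lit 2307) (.e (nat_lit 73729) (nat_lit 0) (.e (nat_lit 7266) (nat_lit 384) (.e (nat_lit 57417) (nat_lit 12) (.e (nat_lit 336116) (nat_lit 9) (.e (nat_lit 336437) (nat_lit 31) (.e (nat_lit 466688) (nat_lit 5) .nil)))))) (.g (nat_lit 5) .nil .nil))) 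
(.lf (nat_lit 199018) (.g (nat_lit 1630) (.e (nat_lit 73729) (nat_lit 0) (.e (nat_lit 7266) (nat_lit 384) (.e (nat_lit 57424) (nat_lit 14) (.e (nat_lit 352277) (nat_lit 11) (.e (nat_lit 426035) (nat_lit 0) .nil))))) .nil))) (.nd (nat_lit 5) 
(.lf (nat_lit 199002) (.g (nat_lit 795) (.e (nat_lit 73729) (nat_lit 0) (.e (nat_lit 7266) (nat_lit 384) (.e (nat_lit 57423) (nat_lit 14) (.e (nat_lit 352272) (nat_lit 10) .nil)))) .nil)) 
(.lf (nat_lit 199034) (.g (nat_lit 2179) (.e (nat_lit 73729) (nat_lit 0) (.e (nat_lit 7266) (nat_lit 384) (.e (nat_lit 57435) (nat_lit 17) (.e (nat_lit 376842) (nat_lit 11) (.e (nat_lit 426051) (nat_lit 0) (.e (nat_lit 7936) (nat_lit 407) .nil)))))) (.g (nat_lit 4) .nil .nil)))))) (.nd (nat_lit 3) (.nd (nat_lit 4) (.nd (nat_lit 5) 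
(.lf (nat_lit 198982) (.g (nat_lit 974) (.e (nat_lit 73729) (nat_lit 0) (.e (nat_lit 7266) (nat_lit 384) (.e (nat_lit 57408) (nat_lit 12) (.e (nat_lit 336211) (nat_lit 13) .nil)))) .nil)) 
(.lf (nat_lit 199014) (.g (nat_lit 1872) (.e (nat_lit 73729) (nat_lit 0) (.e (nat_lit 7266) (nat_lit 384) (.e (nat_lit 57424) (nat_lit 14) (.e (nat_lit 352272) (nat_lit 10) (.e (nat_lit 417795) (nat_lit 0) (.e (nat_lit 5413) (nat_lit 303) .nil)))))) (.g (nat_lit 4) .nil .nil)))) (.nd (nat_lit 5) 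
(.lf (nat_lit 198998) (.g (nat_lit 2683) (.e (nat_lit 73729) (nat_lit 0) (.e (nat_lit 7266) (nat_lit 384) (.e (nat_lit 57423) (nat_lit 14) (.e (nat_lit 352271) (nat_lit 9) (.e (nat_lit 409602) (nat_lit 0) (.e (nat_lit 5411) (nat_lit 303) .nil)))))) (.g (nat_lit 0) .nil .nil))) 
(.lf (nat_lit 199030) (.g (nat_lit 2143) (.e (nat_lit 73729) (nat_lit 0) (.e (nat_lit 7266) (nat_lit 384) (.e (nat_lit 57435) (nat_lit 17) (.e (nat_lit 376842) (nat_lit 11) (.e (nat_lit 426029) (nat_lit 0) (.e (nat_lit 7936) (nat_lit 407) .nil)))))) (.g (nat_lit 4) .nil .nil))))) (.nd (nat_lit 4) (.nd (nat_lit 5) 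
(.lf (nat_lit 198990) (.g (nat_lit 1633) (.e (nat_lit 73729) (nat_lit 0) (.e (nat_lit 7266) (nat_lit 384) (.e (nat_lit 57418) (nat_lit 12) (.e (nat_lit 336076) (nat_lit 9) (.e (nat_lit 336438) (nat_lit 31) .nil))))) .nil)) 
(.lf (nat_lit 199022) (.g (nat_lit 1711) (.e (nat_lit 73729) (nat_lit 0) (.e (nat_lit 7266) (nat_lit 384) (.e (nat_lit 57435) (nat_lit 17) (.e (nat_lit 376840) (nat_lit 11) (.e (nat_lit 426072) (nat_lit 0) (.e (nat_lit 7936) (nat_lit 407) .nil)))))) (.g (nat_lit 5) .nil .nil)))) (.nd (nat_lit 5) 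
(.lf (nat_lit 199006) (.g (nat_lit 2304) (.e (nat_lit 73729) (nat_lit 0) (.e (nat_lit 7266) (nat_lit 384) (.e (nat_lit 57423) (nat_lit 14) (.e (nat_lit 352276) (nat_lit 11) (.e (nat_lit 425989) (nat_lit 0) (.e (nat_lit 7592) (nat_lit 407) .nil)))))) (.g (nat_lit 0) .nil .nil))) 
(.lf (nat_lit 199038) (.g (nat_lit 1027) (.e (nat_lit 73729) (nat_lit 0) (.e (nat_lit 7266) (nat_lit 384) (.e (nat_lit 57436) (nat_lit 17) (.e (nat_lit 376840) (nat_lit 11) .nil)))) .nil))))))) (.nd (nat_lit 1) (.nd (nat_lit 2) (.nd (nat_lit 3) (.nd (nat_lit 4) (.nd (nat_lit 5) 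
(.lf (nat_lit 198977) (.g (nat_lit 722) (.e (nat_lit 73729) (nat_lit 0) (.e (nat_lit 7265) (nat_lit 384) (.e (nat_lit 57436) (nat_lit 17) (.e (nat_lit 384768) (nat_lit 0) .nil)))) .nil)) 
(.lf (nat_lit 199009) (.g (nat_lit 1845) (.e (nat_lit 73729) (nat_lit 0) (.e (nat_lit 7266) (nat_lit 384) (.e (nat_lit 57423) (nat_lit 14) (.e (nat_lit 352277) (nat_lit 11) (.e (nat_lit 426035) (nat_lit 0) (.e (nat_lit 7936) (nat_lit 407) .nil)))))) (.g (nat_lit 5) .nil .nil)))) (.nd (nat_lit 5) 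
(.lf (nat_lit 198993) (.g (nat_lit 1850) (.e (nat_lit 73729) (nat_lit 0) (.e (nat_lit 7266) (nat_lit 384) (.e (nat_lit 57419) (nat_lit 12) (.e (nat_lit 336213) (nat_lit 13) (.e (nat_lit 393231) (nat_lit 17) .nil))))) .nil)) 
(.lf (nat_lit 199025) (.g (nat_lit 2101) (.e (nat_lit 73729) (nat_lit 0) (.e (nat_lit 7266) (nat_lit 384) (.e (nat_lit 57435) (nat_lit 17) (.e (nat_lit 376842) (nat_lit 11) (.e (nat_lit 426013) (nat_lit 0) (.e (nat_lit 7936) (nat_lit 407) .nil)))))) (.g (nat_lit 4) .nil .nil))))) (.nd (nat_lit 4) (.nd (nat_lit 5) 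
(.lf (nat_lit 198985) (.g (nat_lit 368) (.e (nat_lit 73729) (nat_lit 0) (.e (nat_lit 7266) (nat_lit 384) (.e (nat_lit 57417) (nat_lit 12) .nil))) .nil)) 
(.lf (nat_lit 199017) (.g (nat_lit 1254) (.e (nat_lit 73729) (nat_lit 0) (.e (nat_lit 7266) (nat_lit 384) (.e (nat_lit 57424) (nat_lit 14) (.e (nat_lit 352276) (nat_lit 11) .nil)))) .nil))) (.nd (nat_lit 5) 
(.lf (nat_lit 199001) (.g (nat_lit 2298) (.e (nat_lit 73729) (nat_lit 0) (.e (nat_lit 7266) (nat_lit 384) (.e (nat_lit 57423) (nat_lit 14) (.e (nat_lit 352271) (nat_lit 9) (.e (nat_lit 409604) (nat_lit 0) (.e (nat_lit 5411) (nat_lit 303) .nil)))))) (.g (nat_lit 0) .nil .nil))) 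
(.lf (nat_lit 199033) (.g (nat_lit 2344) (.e (nat_lit 73729) (nat_lit 0) (.e (nat_lit 7266) (nat_lit 384) (.e (nat_lit 57435) (nat_lit 17) (.e (nat_lit 376842) (nat_lit 11) (.e (nat_lit 426035) (nat_lit 0) (.e (nat_lit 7936) (nat_lit 407) .nil)))))) (.g (nat_lit 4) .nil .nil)))))) (.nd (nat_lit 3) (.nd (nat_lit 4) (.nd (nat_lit 5) 
(.lf (nat_lit 198981) (.g (nat_lit 2867) (.e (nat_lit 73729) (nat_lit 0) (.e (nat_lit 7265) (nat_lit 384) (.e (nat_lit 57436) (nat_lit 17) (.e (nat_lit 376842) (nat_lit 11) (.e (nat_lit 426012) (nat_lit 0) (.e (nat_lit 7591) (nat_lit 407) .nil)))))) (.g (nat_lit 4) .nil .nil))) 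
(.lf (nat_lit 199013) (.g (nat_lit 1949) (.e (nat_lit 73729) (nat_lit 0) (.e (nat_lit 7266) (nat_lit 384) (.e (nat_lit 57424) (nat_lit 14) (.e (nat_lit 352271) (nat_lit 9) .nil)))) .nil))) (.nd (nat_lit 5) 
(.lf (nat_lit 198997) (.g (nat_lit 2173) (.e (nat_lit 73729) (nat_lit 0) (.e (nat_lit 7266) (nat_lit 384) (.e (nat_lit 57423) (nat_lit 14) (.e (nat_lit 352258) (nat_lit 0) (.e (nat_lit 7086) (nat_lit 379) (.e (nat_lit 123214) (nat_lit 275) .nil)))))) (.g (nat_lit 0) .nil .nil))) 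
(.lf (nat_lit 199029) (.g (nat_lit 2137) (.e (nat_lit 73729) (nat_lit 0) (.e (nat_lit 7266) (nat_lit 384) (.e (nat_lit 57435) (nat_lit 17) (.e (nat_lit 376842) (nat_lit 11) (.e (nat_lit 426028) (nat_lit 0) (.e (nat_lit 7936) (nat_lit 407) .nil)))))) (.g (nat_lit 4) .nil .nil))))) (.nd (nat_lit 4) (.nd (nat_lit 5) 
(.lf (nat_lit 198989) (.g (nat_lit 1579) (.e (nat_lit 73729) (nat_lit 0) (.e (nat_lit 7266) (nat_lit 384) (.e (nat_lit 57417) (nat_lit 12) (.e (nat_lit 336209) (nat_lit 13) (.e (nat_lit 393242) (nat_lit 17) (.e (nat_lit 7936) (nat_lit 407) .nil)))))) (.g (nat_lit 4) .nil .nil))) 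
(.lf (nat_lit 199021) (.g (nat_lit 927) (.e (nat_lit 73729) (nat_lit 0) (.e (nat_lit 7266) (nat_lit 384) (.e (nat_lit 57435) (nat_lit 17) (.e (nat_lit 376840) (nat_lit 11) .nil)))) .nil))) (.nd (nat_lit 5) 
(.lf (nat_lit 199005) (.g (nat_lit 2344) (.e (nat_lit 73729) (nat_lit 0) (.e (nat_lit 7266) (nat_lit 384) (.e (nat_lit 57423) (nat_lit 14) (.e (nat_lit 352276) (nat_lit 11) (.e (nat_lit 425984) (nat_lit 0) (.e (nat_lit 7592) (nat_lit 407) .nil)))))) (.g (nat_lit 0) .nil .nil))) 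
(.lf (nat_lit 199037) (.g (nat_lit 1909) (.e (nat_lit 73729) (nat_lit 0) (.e (nat_lit 7266) (nat_lit 384) (.e (nat_lit 57435) (nat_lit 17) (.e (nat_lit 376842) (nat_lit 11) (.e (nat_lit 426075) (nat_lit 0) .nil))))) .nil)))))) (.nd (nat_lit 2) (.nd (nat_lit 3) (.nd (nat_lit 4) (.nd (nat_lit 5) 
(.lf (nat_lit 198979) (.g (nat_lit 2627) (.e (nat_lit 73729) (nat_lit 0) (.e (nat_lit 7265) (nat_lit 384) (.e (nat_lit 57436) (nat_lit 17) (.e (nat_lit 376842) (nat_lit 11) (.e (nat_lit 426003) (nat_lit 0) (.e (nat_lit 7593) (nat_lit 407) .nil)))))) (.g (nat_lit 4) .nil .nil))) 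
(.lf (nat_lit 199011) (.g (nat_lit 1862) (.e (nat_lit 73729) (nat_lit 0) (.e (nat_lit 7266) (nat_lit 384) (.e (nat_lit 57424) (nat_lit 14) (.e (nat_lit 352257) (nat_lit 0) .nil)))) .nil))) (.nd (nat_lit 5) 
(.lf (nat_lit 198995) (.g (nat_lit 376) (.e (nat_lit 73729) (nat_lit 0) (.e (nat_lit 7266) (nat_lit 384) (.e (nat_lit 57423) (nat_lit 14) .nil))) .nil)) 
(.lf (nat_lit 199027) (.g (nat_lit 2194) (.e (nat_lit 73729) (nat_lit 0) (.e (nat_lit 7266) (nat_lit 384) (.e (nat_lit 57435) (nat_lit 17) (.e (nat_lit 376842) (nat_lit 11) (.e (nat_lit 426016) (nat_lit 0) (.e (nat_lit 7936) (nat_lit 407) .nil)))))) (.g (nat_lit 4) .nil .nil))))) (.nd (nat_lit 4) (.nd (nat_lit 5) 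
(.lf (nat_lit 198987) (.g (nat_lit 2169) (.e (nat_lit 73729) (nat_lit 0) (.e (nat_lit 7266) (nat_lit 384) (.e (nat_lit 57417) (nat_lit 12) (.e (nat_lit 336118) (nat_lit 9) (.e (nat_lit 336437) (nat_lit 31) (.e (nat_lit 466688) (nat_lit 5) .nil)))))) (.g (nat_lit 5) .nil .nil))) 
(.lf (nat_lit 199019) (.g (nat_lit 1353) (.e (nat_lit 73729) (nat_lit 0) (.e (nat_lit 7266) (nat_lit 384) (.e (nat_lit 57424) (nat_lit 14) (.e (nat_lit 360192) (nat_lit 11) .nil)))) .nil))) (.nd (nat_lit 5) 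
(.lf (nat_lit 199003) (.g (nat_lit 1940) (.e (nat_lit 73729) (nat_lit 0) (.e (nat_lit 7266) (nat_lit 384) (.e (nat_lit 57423) (nat_lit 14) (.e (nat_lit 352272) (nat_lit 10) (.e (nat_lit 417796) (nat_lit 0) (.e (nat_lit 5413) (nat_lit 303) .nil)))))) (.g (nat_lit 4) .nil .nil))) 
(.lf (nat_lit 199035) (.g (nat_lit 2085) (.e (nat_lit 73729) (nat_lit 0) (.e (nat_lit 7266) (nat_lit 384) (.e (nat_lit 57435) (nat_lit 17) (.e (nat_lit 376842) (nat_lit 11) (.e (nat_lit 426053) (nat_lit 0) (.e (nat_lit 7936) (nat_lit 407) .nil)))))) (.g (nat_lit 4) .nil .nil)))))) (.nd (nat_lit 3) (.nd (nat_lit 4) (.nd (nat_lit 5) 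
(.lf (nat_lit 198983) (.g (nat_lit 2090) (.e (nat_lit 73729) (nat_lit 0) (.e (nat_lit 7266) (nat_lit 384) (.e (nat_lit 57409) (nat_lit 12) (.e (nat_lit 336211) (nat_lit 13) (.e (nat_lit 393231) (nat_lit 17) (.e (nat_lit 7591) (nat_lit 407) .nil)))))) (.g (nat_lit 4) .nil .nil))) 
(.lf (nat_lit 199015) (.g (nat_lit 2021) (.e (nat_lit 73729) (nat_lit 0) (.e (nat_lit 7266) (nat_lit 384) (.e (nat_lit 57424) (nat_lit 14) (.e (nat_lit 352272) (nat_lit 10) (.e (nat_lit 417796) (nat_lit 0) (.e (nat_lit 5413) (nat_lit 303) .nil)))))) (.g (nat_lit 4) .nil .nil)))) (.nd (nat_lit 5) 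
(.lf (nat_lit 198999) (.g (nat_lit 2311) (.e (nat_lit 73729) (nat_lit 0) (.e (nat_lit 7266) (nat_lit 384) (.e (nat_lit 57423) (nat_lit 14) (.e (nat_lit 352271) (nat_lit 9) (.e (nat_lit 409602) (nat_lit 0) (.e (nat_lit 7936) (nat_lit 303) .nil)))))) (.g (nat_lit 5) .nil .nil))) 
(.lf (nat_lit 199031) (.g (nat_lit 2088) (.e (nat_lit 73729) (nat_lit 0) (.e (nat_lit 7266) (nat_lit 384) (.e (nat_lit 57435) (nat_lit 17) (.e (nat_lit 376842) (nat_lit 11) (.e (nat_lit 426030) (nat_lit 0) (.e (nat_lit 7936) (nat_lit 407) .nil)))))) (.g (nat_lit 4) .nil .nil))))) (.nd (nat_lit 4) (.nd (nat_lit 5) 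
(.lf (nat_lit 198991) (.g (nat_lit 1981) (.e (nat_lit 73729) (nat_lit 0) (.e (nat_lit 7266) (nat_lit 384) (.e (nat_lit 57419) (nat_lit 12) (.e (nat_lit 336075) (nat_lit 9) (.e (nat_lit 336438) (nat_lit 31) (.e (nat_lit 466688) (nat_lit 5) .nil)))))) (.g (nat_lit 5) .nil .nil))) 
(.lf (nat_lit 199023) (.g (nat_lit 1879) (.e (nat_lit 73729) (nat_lit 0) (.e (nat_lit 7266) (nat_lit 384) (.e (nat_lit 57435) (nat_lit 17) (.e (nat_lit 376842) (nat_lit 11) (.e (nat_lit 426003) (nat_lit 0) .nil))))) .nil))) (.nd (nat_lit 5) 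
(.lf (nat_lit 199007) (.g (nat_lit 776) (.e (nat_lit 73729) (nat_lit 0) (.e (nat_lit 7266) (nat_lit 384) (.e (nat_lit 57423) (nat_lit 14) (.e (nat_lit 352277) (nat_lit 11) .nil)))) .nil)) 
(.lf (nat_lit 199039) (.g (nat_lit 1818) (.e (nat_lit 73729) (nat_lit 0) (.e (nat_lit 7266) (nat_lit 384) (.e (nat_lit 57436) (nat_lit 17) (.e (nat_lit 376840) (nat_lit 11) (.e (nat_lit 426072) (nat_lit 0) (.e (nat_lit 7936) (nat_lit 407) .nil)))))) (.g (nat_lit 5) .nil .nil)))))))))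

noncomputable def tv2632 : DT := (.nd (nat_lit 0) (.nd (nat_lit 1) (.nd (nat_lit 2) (.nd (nat_lit 3) (.nd (nat_lit 4) (.nd (nat_lit 5) (.nd (nat_lit 6) 
(.lf (nat_lit 199040) (.g (nat_lit 1785) (.e (nat_lit 73729) (nat_lit 0) (.e (nat_lit 7266) (nat_lit 384) (.e (nat_lit 57436) (nat_lit 17) (.e (nat_lit 376842) (nat_lit 11) (.e (nat_lit 426003) (nat_lit 0) .nil))))) .nil)) 
(.lf (nat_lit 199104) (.g (nat_lit 1072) (.e (nat_lit 73730) (nat_lit 0) (.e (nat_lit 7124) (nat_lit 382) (.e (nat_lit 1296) (nat_lit 96) (.e (nat_lit 131128) (nat_lit 13) .nil)))) .nil))) (.nd (nat_lit 6) 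
(.lf (nat_lit 199072) (.g (nat_lit 3591) (.e (nat_lit 73729) (nat_lit 0) (.e (nat_lit 7454) (nat_lit 396) (.e (nat_lit 1220) (nat_lit 90) (.e (nat_lit 81956) (nat_lit 23) (.e (nat_lit 98334) (nat_lit 18) (.e (nat_lit 164161) (nat_lit 152) (.e (nat_lit 7936) (nat_lit 89) .nil))))))) (.g (nat_lit 5) .nil .nil))) 
(.lf (nat_lit 199136) (.g (nat_lit 3052) (.e (nat_lit 73730) (nat_lit 0) (.e (nat_lit 7261) (nat_lit 384) (.e (nat_lit 57435) (nat_lit 17) (.e (nat_lit 376842) (nat_lit 11) (.e (nat_lit 426011) (nat_lit 0) (.e (nat_lit 7591) (nat_lit 407) .nil)))))) (.g (nat_lit 6) .nil .nil))))) (.nd (nat_lit 5) (.nd (nat_lit 6) 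
(.lf (nat_lit 199056) (.g (nat_lit 3593) (.e (nat_lit 73729) (nat_lit 0) (.e (nat_lit 7454) (nat_lit 396) (.e (nat_lit 1189) (nat_lit 88) (.e (nat_lit 65619) (nat_lit 10) (.e (nat_lit 344117) (nat_lit 21) (.e (nat_lit 516097) (nat_lit 0) (.e (nat_lit 3455) (nat_lit 216) (.e (nat_lit 688180) (nat_lit 17) .nil)))))))) (.g (nat_lit 6) .nil .nil))) 
(.lf (nat_lit 199120) (.g (nat_lit 1243) (.e (nat_lit 73730) (nat_lit 0) (.e (nat_lit 7261) (nat_lit 384) (.e (nat_lit 57382) (nat_lit 4) (.e (nat_lit 106517) (nat_lit 9) (.e (nat_lit 1281) (nat_lit 94) (.e (nat_lit 114716) (nat_lit 22) (.e (nat_lit 90181) (nat_lit 16) (.e (nat_lit 237312) (nat_lit 192) .nil)))))))) (.g (nat_lit 6) .nil .nil)))) (.nd (nat_lit 6) 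
(.lf (nat_lit 199088) (.g (nat_lit 2887) (.e (nat_lit 73730) (nat_lit 0) (.e (nat_lit 7122) (nat_lit 382) (.e (nat_lit 1201) (nat_lit 88) (.e (nat_lit 65627) (nat_lit 13) (.e (nat_lit 393234) (nat_lit 17) (.e (nat_lit 7591) (nat_lit 407) .nil)))))) (.g (nat_lit 0) .nil .nil))) 
(.lf (nat_lit 199152) (.g (nat_lit 3620) (.e (nat_lit 73730) (nat_lit 0) (.e (nat_lit 7263) (nat_lit 384) (.e (nat_lit 57423) (nat_lit 14) (.e (nat_lit 352277) (nat_lit 11) (.e (nat_lit 426011) (nat_lit 0) (.e (nat_lit 7593) (nat_lit 407) .nil)))))) (.g (nat_lit 6) .nil .nil)))))) (.nd (nat_lit 4) (.nd (nat_lit 5) (.nd (nat_lit 6) 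
(.lf (nat_lit 199048) (.g (nat_lit 2029) (.e (nat_lit 73729) (nat_lit 0) (.e (nat_lit 7266) (nat_lit 384) (.e (nat_lit 57436) (nat_lit 17) (.e (nat_lit 376842) (nat_lit 11) (.e (nat_lit 426030) (nat_lit 0) (.e (nat_lit 7936) (nat_lit 407) .nil)))))) (.g (nat_lit 4) .nil .nil))) 
(.lf (nat_lit 199112) (.g (nat_lit 2412) (.e (nat_lit 73730) (nat_lit 0) (.e (nat_lit 7125) (nat_lit 382) (.e (nat_lit 1201) (nat_lit 88) (.e (nat_lit 65627) (nat_lit 13) (.e (nat_lit 393232) (nat_lit 17) (.e (nat_lit 7591) (nat_lit 407) .nil)))))) (.g (nat_lit 5) .nil .nil)))) (.nd (nat_lit 6) 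
(.lf (nat_lit 199080) (.g (nat_lit 2233) (.e (nat_lit 73730) (nat_lit 0) (.e (nat_lit 4004) (nat_lit 242) (.e (nat_lit 122916) (nat_lit 14) (.e (nat_lit 352315) (nat_lit 23) (.e (nat_lit 98325) (nat_lit 17) (.e (nat_lit 7936) (nat_lit 407) .nil)))))) (.g (nat_lit 5) .nil .nil))) 
(.lf (nat_lit 199144) (.g (nat_lit 114) (.e (nat_lit 73730) (nat_lit 0) (.e (nat_lit 7263) (nat_lit 384) (.e (nat_lit 57412) (nat_lit 12) .nil))) .nil)))) (.nd (nat_lit 5) (.nd (nat_lit 6) 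
(.lf (nat_lit 199064) (.g (nat_lit 3239) (.e (nat_lit 73729) (nat_lit 0) (.e (nat_lit 7454) (nat_lit 396) (.e (nat_lit 1220) (nat_lit 90) (.e (nat_lit 81956) (nat_lit 23) (.e (nat_lit 98319) (nat_lit 17) (.e (nat_lit 3454) (nat_lit 216) (.e (nat_lit 688180) (nat_lit 17) .nil))))))) (.g (nat_lit 4) .nil .nil))) 
(.lf (nat_lit 199128) (.g (nat_lit 1446) (.e (nat_lit 73730) (nat_lit 0) (.e (nat_lit 7261) (nat_lit 384) (.e (nat_lit 57411) (nat_lit 12) (.e (nat_lit 336211) (nat_lit 13) (.e (nat_lit 393231) (nat_lit 17) .nil))))) .nil))) (.nd (nat_lit 6) 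
(.lf (nat_lit 199096) (.g (nat_lit 1146) (.e (nat_lit 73730) (nat_lit 0) (.e (nat_lit 7122) (nat_lit 382) (.e (nat_lit 1296) (nat_lit 96) (.e (nat_lit 131109) (nat_lit 9) .nil)))) .nil)) 
(.lf (nat_lit 199160) (.g (nat_lit 1507) (.e (nat_lit 73730) (nat_lit 0) (.e (nat_lit 7265) (nat_lit 384) (.e (nat_lit 57347) (nat_lit 0) (.e (nat_lit 2202) (nat_lit 144) .nil)))) .nil)))))) (.nd (nat_lit 3) (.nd (nat_lit 4) (.nd (nat_lit 5) (.nd (nat_lit 6) 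
(.lf (nat_lit 199044) (.g (nat_lit 2135) (.e (nat_lit 73729) (nat_lit 0) (.e (nat_lit 7266) (nat_lit 384) (.e (nat_lit 57436) (nat_lit 17) (.e (nat_lit 376842) (nat_lit 11) (.e (nat_lit 426016) (nat_lit 0) (.e (nat_lit 7936) (nat_lit 407) .nil)))))) (.g (nat_lit 4) .nil .nil))) 
(.lf (nat_lit 199108) (.g (nat_lit 2083) (.e (nat_lit 73730) (nat_lit 0) (.e (nat_lit 7125) (nat_lit 382) (.e (nat_lit 1201) (nat_lit 88) (.e (nat_lit 65625) (nat_lit 13) (.e (nat_lit 393231) (nat_lit 17) .nil))))) .nil))) (.nd (nat_lit 6) 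
(.lf (nat_lit 199076) (.g (nat_lit 2479) (.e (nat_lit 73729) (nat_lit 0) (.e (nat_lit 7454) (nat_lit 396) (.e (nat_lit 1221) (nat_lit 90) (.e (nat_lit 81956) (nat_lit 23) (.e (nat_lit 98334) (nat_lit 18) .nil))))) .nil)) 
(.lf (nat_lit 199140) (.g (nat_lit 777) (.e (nat_lit 73730) (nat_lit 0) (.e (nat_lit 7261) (nat_lit 384) (.e (nat_lit 57436) (nat_lit 17) (.e (nat_lit 384768) (nat_lit 12) .nil)))) .nil)))) (.nd (nat_lit 5) (.nd (nat_lit 6) 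
(.lf (nat_lit 199060) (.g (nat_lit 92) (.e (nat_lit 73729) (nat_lit 0) (.e (nat_lit 7454) (nat_lit 396) (.e (nat_lit 1209) (nat_lit 89) .nil))) .nil)) 
(.lf (nat_lit 199124) (.g (nat_lit 1718) (.e (nat_lit 73730) (nat_lit 0) (.e (nat_lit 7261) (nat_lit 384) (.e (nat_lit 57407) (nat_lit 12) (.e (nat_lit 336211) (nat_lit 13) (.e (nat_lit 393231) (nat_lit 17) .nil))))) .nil))) (.nd (nat_lit 6) 
(.lf (nat_lit 199092) (.g (nat_lit 326) (.e (nat_lit 73730) (nat_lit 0) (.e (nat_lit 7122) (nat_lit 382) (.e (nat_lit 7936) (nat_lit 90) .nil))) .nil)) 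
(.lf (nat_lit 199156) (.g (nat_lit 1521) (.e (nat_lit 73730) (nat_lit 0) (.e (nat_lit 7265) (nat_lit 384) (.e (nat_lit 57347) (nat_lit 0) (.e (nat_lit 2029) (nat_lit 140) .nil)))) .nil))))) (.nd (nat_lit 4) (.nd (nat_lit 5) (.nd (nat_lit 6) 
(.lf (nat_lit 199052) (.g (nat_lit 2026) (.e (nat_lit 73729) (nat_lit 0) (.e (nat_lit 7266) (nat_lit 384) (.e (nat_lit 57436) (nat_lit 17) (.e (nat_lit 376842) (nat_lit 11) (.e (nat_lit 426053) (nat_lit 0) (.e (nat_lit 7936) (nat_lit 407) .nil)))))) (.g (nat_lit 4) .nil .nil))) 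
(.lf (nat_lit 199116) (.g (nat_lit 1204) (.e (nat_lit 73730) (nat_lit 0) (.e (nat_lit 7125) (nat_lit 382) (.e (nat_lit 1296) (nat_lit 96) (.e (nat_lit 131109) (nat_lit 9) .nil)))) .nil))) (.nd (nat_lit 6) 
(.lf (nat_lit 199084) (.g (nat_lit 475) (.e (nat_lit 73730) (nat_lit 0) (.e (nat_lit 7122) (nat_lit 382) (.e (nat_lit 1193) (nat_lit 88) .nil))) .nil)) 
(.lf (nat_lit 199148) (.g (nat_lit 115) (.e (nat_lit 73730) (nat_lit 0) (.e (nat_lit 7263) (nat_lit 384) (.e (nat_lit 57423) (nat_lit 14) .nil))) .nil)))) (.nd (nat_lit 5) (.nd (nat_lit 6) 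
(.lf (nat_lit 199068) (.g (nat_lit 5359) (.e (nat_lit 73729) (nat_lit 0) (.e (nat_lit 7454) (nat_lit 396) (.e (nat_lit 1220) (nat_lit 90) (.e (nat_lit 81956) (nat_lit 23) (.e (nat_lit 98333) (nat_lit 18) (.e (nat_lit 164151) (nat_lit 152) (.e (nat_lit 1207) (nat_lit 89) .nil))))))) (.g (nat_lit 6) .nil .nil))) 
(.lf (nat_lit 199132) (.g (nat_lit 769) (.e (nat_lit 73730) (nat_lit 0) (.e (nat_lit 7261) (nat_lit 384) (.e (nat_lit 57423) (nat_lit 14) (.e (nat_lit 352271) (nat_lit 9) .nil)))) .nil))) (.nd (nat_lit 6) 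
(.lf (nat_lit 199100) (.g (nat_lit 1507) (.e (nat_lit 73730) (nat_lit 0) (.e (nat_lit 7124) (nat_lit 382) (.e (nat_lit 1201) (nat_lit 88) (.e (nat_lit 65627) (nat_lit 13) (.e (nat_lit 393232) (nat_lit 17) .nil))))) .nil)) 
(.lf (nat_lit 199164) (.g (nat_lit 2096) (.e (nat_lit 73730) (nat_lit 0) (.e (nat_lit 7265) (nat_lit 384) (.e (nat_lit 57406) (nat_lit 12) (.e (nat_lit 336211) (nat_lit 13) (.e (nat_lit 393232) (nat_lit 17) .nil))))) .nil))))))) (.nd (nat_lit 2) (.nd (nat_lit 3) (.nd (nat_lit 4) (.nd (nat_lit 5) (.nd (nat_lit 6) 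
(.lf (nat_lit 199042) (.g (nat_lit 2042) (.e (nat_lit 73729) (nat_lit 0) (.e (nat_lit 7266) (nat_lit 384) (.e (nat_lit 57436) (nat_lit 17) (.e (nat_lit 376842) (nat_lit 11) (.e (nat_lit 426013) (nat_lit 0) (.e (nat_lit 7936) (nat_lit 407) .nil)))))) (.g (nat_lit 4) .nil .nil))) 
(.lf (nat_lit 199106) (.g (nat_lit 1705) (.e (nat_lit 73730) (nat_lit 0) (.e (nat_lit 7125) (nat_lit 382) (.e (nat_lit 1193) (nat_lit 88) (.e (nat_lit 65626) (nat_lit 13) (.e (nat_lit 393234) (nat_lit 17) .nil))))) .nil))) (.nd (nat_lit 6) 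
(.lf (nat_lit 199074) (.g (nat_lit 2950) (.e (nat_lit 73729) (nat_lit 0) (.e (nat_lit 7454) (nat_lit 396) (.e (nat_lit 1221) (nat_lit 90) (.e (nat_lit 81956) (nat_lit 23) (.e (nat_lit 98321) (nat_lit 17) (.e (nat_lit 7936) (nat_lit 216) (.e (nat_lit 688180) (nat_lit 17) .nil))))))) (.g (nat_lit 4) .nil .nil))) 
(.lf (nat_lit 199138) (.g (nat_lit 1012) (.e (nat_lit 73730) (nat_lit 0) (.e (nat_lit 7261) (nat_lit 384) (.e (nat_lit 57436) (nat_lit 17) (.e (nat_lit 376840) (nat_lit 11) (.e (nat_lit 426072) (nat_lit 0) .nil))))) .nil)))) (.nd (nat_lit 5) (.nd (nat_lit 6) 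
(.lf (nat_lit 199058) (.g (nat_lit 3718) (.e (nat_lit 73729) (nat_lit 0) (.e (nat_lit 7454) (nat_lit 396) (.e (nat_lit 1200) (nat_lit 88) (.e (nat_lit 65619) (nat_lit 10) (.e (nat_lit 344117) (nat_lit 21) (.e (nat_lit 516097) (nat_lit 0) (.e (nat_lit 3454) (nat_lit 216) (.e (nat_lit 688180) (nat_lit 17) .nil)))))))) (.g (nat_lit 6) .nil .nil))) 
(.lf (nat_lit 199122) (.g (nat_lit 914) (.e (nat_lit 73730) (nat_lit 0) (.e (nat_lit 7261) (nat_lit 384) (.e (nat_lit 57389) (nat_lit 5) (.e (nat_lit 114702) (nat_lit 20) .nil)))) .nil))) (.nd (nat_lit 6) 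
(.lf (nat_lit 199090) (.g (nat_lit 1382) (.e (nat_lit 73730) (nat_lit 0) (.e (nat_lit 7122) (nat_lit 382) (.e (nat_lit 1224) (nat_lit 90) (.e (nat_lit 81925) (nat_lit 11) (.e (nat_lit 426011) (nat_lit 0) .nil))))) .nil)) 
(.lf (nat_lit 199154) (.g (nat_lit 1818) (.e (nat_lit 73730) (nat_lit 0) (.e (nat_lit 7263) (nat_lit 384) (.e (nat_lit 57436) (nat_lit 17) (.e (nat_lit 376842) (nat_lit 11) (.e (nat_lit 426009) (nat_lit 0) .nil))))) .nil))))) (.nd (nat_lit 4) (.nd (nat_lit 5) (.nd (nat_lit 6) 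
(.lf (nat_lit 199050) (.g (nat_lit 2285) (.e (nat_lit 73729) (nat_lit 0) (.e (nat_lit 7266) (nat_lit 384) (.e (nat_lit 57436) (nat_lit 17) (.e (nat_lit 376842) (nat_lit 11) (.e (nat_lit 426035) (nat_lit 0) (.e (nat_lit 7936) (nat_lit 407) .nil)))))) (.g (nat_lit 4) .nil .nil))) 
(.lf (nat_lit 199114) (.g (nat_lit 1132) (.e (nat_lit 73730) (nat_lit 0) (.e (nat_lit 7125) (nat_lit 382) (.e (nat_lit 1296) (nat_lit 96) (.e (nat_lit 131105) (nat_lit 9) .nil)))) .nil))) (.nd (nat_lit 6) 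
(.lf (nat_lit 199082) (.g (nat_lit 457) (.e (nat_lit 73730) (nat_lit 0) (.e (nat_lit 7122) (nat_lit 382) (.e (nat_lit 1016) (nat_lit 81) .nil))) .nil)) 
(.lf (nat_lit 199146) (.g (nat_lit 2056) (.e (nat_lit 73730) (nat_lit 0) (.e (nat_lit 7263) (nat_lit 384) (.e (nat_lit 57412) (nat_lit 12) (.e (nat_lit 336212) (nat_lit 13) (.e (nat_lit 393231) (nat_lit 17) (.e (nat_lit 7593) (nat_lit 407) .nil)))))) (.g (nat_lit 6) .nil .nil))))) (.nd (nat_lit 5) (.nd (nat_lit 6) 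
(.lf (nat_lit 199066) (.g (nat_lit 2831) (.e (nat_lit 73729) (nat_lit 0) (.e (nat_lit 7454) (nat_lit 396) (.e (nat_lit 1220) (nat_lit 90) (.e (nat_lit 81956) (nat_lit 23) (.e (nat_lit 98321) (nat_lit 17) (.e (nat_lit 7936) (nat_lit 216) (.e (nat_lit 688181) (nat_lit 17) .nil))))))) (.g (nat_lit 4) .nil .nil))) 
(.lf (nat_lit 199130) (.g (nat_lit 910) (.e (nat_lit 73730) (nat_lit 0) (.e (nat_lit 7261) (nat_lit 384) (.e (nat_lit 57412) (nat_lit 12) (.e (nat_lit 336073) (nat_lit 9) (.e (nat_lit 336438) (nat_lit 31) .nil))))) .nil))) (.nd (nat_lit 6) 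
(.lf (nat_lit 199098) (.g (nat_lit 1604) (.e (nat_lit 73730) (nat_lit 0) (.e (nat_lit 7124) (nat_lit 382) (.e (nat_lit 1201) (nat_lit 88) (.e (nat_lit 65625) (nat_lit 13) (.e (nat_lit 393234) (nat_lit 17) .nil))))) .nil)) 
(.lf (nat_lit 199162) (.g (nat_lit 1505) (.e (nat_lit 73730) (nat_lit 0) (.e (nat_lit 7265) (nat_lit 384) (.e (nat_lit 57347) (nat_lit 0) (.e (nat_lit 2206) (nat_lit 144) .nil)))) .nil)))))) (.nd (nat_lit 3) (.nd (nat_lit 4) (.nd (nat_lit 5) (.nd (nat_lit 6) 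
(.lf (nat_lit 199046) (.g (nat_lit 2026) (.e (nat_lit 73729) (nat_lit 0) (.e (nat_lit 7266) (nat_lit 384) (.e (nat_lit 57436) (nat_lit 17) (.e (nat_lit 376842) (nat_lit 11) (.e (nat_lit 426028) (nat_lit 0) (.e (nat_lit 7936) (nat_lit 407) .nil)))))) (.g (nat_lit 4) .nil .nil))) 
(.lf (nat_lit 199110) (.g (nat_lit 1606) (.e (nat_lit 73730) (nat_lit 0) (.e (nat_lit 7125) (nat_lit 382) (.e (nat_lit 1201) (nat_lit 88) (.e (nat_lit 65626) (nat_lit 13) .nil)))) .nil))) (.nd (nat_lit 6) 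
(.lf (nat_lit 199078) (.g (nat_lit 1532) (.e (nat_lit 73730) (nat_lit 0) (.e (nat_lit 3950) (nat_lit 239) (.e (nat_lit 1218) (nat_lit 90) (.e (nat_lit 81953) (nat_lit 22) (.e (nat_lit 90165) (nat_lit 12) (.e (nat_lit 171776) (nat_lit 192) .nil)))))) (.g (nat_lit 5) .nil .nil))) 
(.lf (nat_lit 199142) (.g (nat_lit 790) (.e (nat_lit 73730) (nat_lit 0) (.e (nat_lit 7261) (nat_lit 384) (.e (nat_lit 57437) (nat_lit 17) (.e (nat_lit 376840) (nat_lit 11) .nil)))) .nil)))) (.nd (nat_lit 5) (.nd (nat_lit 6) 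
(.lf (nat_lit 199062) (.g (nat_lit 1937) (.e (nat_lit 73729) (nat_lit 0) (.e (nat_lit 7454) (nat_lit 396) (.e (nat_lit 1219) (nat_lit 90) (.e (nat_lit 81954) (nat_lit 23) (.e (nat_lit 98334) (nat_lit 18) (.e (nat_lit 164159) (nat_lit 152) (.e (nat_lit 1208) (nat_lit 89) .nil))))))) (.g (nat_lit 4) .nil .nil))) 
(.lf (nat_lit 199126) (.g (nat_lit 987) (.e (nat_lit 73730) (nat_lit 0) (.e (nat_lit 7261) (nat_lit 384) (.e (nat_lit 57410) (nat_lit 12) (.e (nat_lit 336211) (nat_lit 13) (.e (nat_lit 393231) (nat_lit 17) .nil))))) .nil))) (.nd (nat_lit 6) 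
(.lf (nat_lit 199094) (.g (nat_lit 1284) (.e (nat_lit 73730) (nat_lit 0) (.e (nat_lit 7122) (nat_lit 382) (.e (nat_lit 1296) (nat_lit 96) (.e (nat_lit 131107) (nat_lit 9) .nil)))) .nil)) 
(.lf (nat_lit 199158) (.g (nat_lit 1431) (.e (nat_lit 73730) (nat_lit 0) (.e (nat_lit 7265) (nat_lit 384) (.e (nat_lit 57347) (nat_lit 0) (.e (nat_lit 2032) (nat_lit 140) .nil)))) .nil))))) (.nd (nat_lit 4) (.nd (nat_lit 5) (.nd (nat_lit 6) 
(.lf (nat_lit 199054) (.g (nat_lit 2161) (.e (nat_lit 73729) (nat_lit 0) (.e (nat_lit 7266) (nat_lit 384) (.e (nat_lit 57436) (nat_lit 17) (.e (nat_lit 376842) (nat_lit 11) (.e (nat_lit 426070) (nat_lit 0) (.e (nat_lit 7936) (nat_lit 407) .nil)))))) (.g (nat_lit 4) .nil .nil))) 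
(.lf (nat_lit 199118) (.g (nat_lit 1147) (.e (nat_lit 73730) (nat_lit 0) (.e (nat_lit 7261) (nat_lit 384) (.e (nat_lit 57347) (nat_lit 0) (.e (nat_lit 2202) (nat_lit 144) .nil)))) .nil))) (.nd (nat_lit 6) 
(.lf (nat_lit 199086) (.g (nat_lit 1424) (.e (nat_lit 73730) (nat_lit 0) (.e (nat_lit 7122) (nat_lit 382) (.e (nat_lit 1201) (nat_lit 88) (.e (nat_lit 65596) (nat_lit 9) (.e (nat_lit 336412) (nat_lit 27) .nil))))) .nil)) 
(.lf (nat_lit 199150) (.g (nat_lit 1566) (.e (nat_lit 73730) (nat_lit 0) (.e (nat_lit 7263) (nat_lit 384) (.e (nat_lit 57423) (nat_lit 14) (.e (nat_lit 352276) (nat_lit 11) (.e (nat_lit 425984) (nat_lit 0) (.e (nat_lit 7590) (nat_lit 407) .nil)))))) (.g (nat_lit 6) .nil .nil))))) (.nd (nat_lit 5) (.nd (nat_lit 6) 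
(.lf (nat_lit 199070) (.g (nat_lit 2352) (.e (nat_lit 73729) (nat_lit 0) (.e (nat_lit 7454) (nat_lit 396) (.e (nat_lit 1220) (nat_lit 90) (.e (nat_lit 81956) (nat_lit 23) (.e (nat_lit 98334) (nat_lit 18) .nil))))) .nil)) 
(.lf (nat_lit 199134) (.g (nat_lit 747) (.e (nat_lit 73730) (nat_lit 0) (.e (nat_lit 7261) (nat_lit 384) (.e (nat_lit 57435) (nat_lit 17) (.e (nat_lit 376840) (nat_lit 11) .nil)))) .nil))) (.nd (nat_lit 6) 
(.lf (nat_lit 199102) (.g (nat_lit 489) (.e (nat_lit 73730) (nat_lit 0) (.e (nat_lit 7124) (nat_lit 382) (.e (nat_lit 1296) (nat_lit 96) .nil))) .nil)) 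
(.lf (nat_lit 199166) (.g (nat_lit 819) (.e (nat_lit 73730) (nat_lit 0) (.e (nat_lit 7265) (nat_lit 384) (.e (nat_lit 57412) (nat_lit 12) (.e (nat_lit 336212) (nat_lit 13) .nil)))) .nil)))))))) (.nd (nat_lit 1) (.nd (nat_lit 2) (.nd (nat_lit 3) (.nd (nat_lit 4) (.nd (nat_lit 5) (.nd (nat_lit 6) 
(.lf (nat_lit 199041) (.g (nat_lit 2555) (.e (nat_lit 73729) (nat_lit 0) (.e (nat_lit 7266) (nat_lit 384) (.e (nat_lit 57436) (nat_lit 17) (.e (nat_lit 376842) (nat_lit 11) (.e (nat_lit 426003) (nat_lit 0) (.e (nat_lit 7593) (nat_lit 407) .nil)))))) (.g (nat_lit 4) .nil .nil))) 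
(.lf (nat_lit 199105) (.g (nat_lit 619) (.e (nat_lit 73730) (nat_lit 0) (.e (nat_lit 7125) (nat_lit 382) (.e (nat_lit 1193) (nat_lit 88) .nil))) .nil))) (.nd (nat_lit 6) 
(.lf (nat_lit 199073) (.g (nat_lit 3548) (.e (nat_lit 73729) (nat_lit 0) (.e (nat_lit 7454) (nat_lit 396) (.e (nat_lit 1221) (nat_lit 90) (.e (nat_lit 81956) (nat_lit 23) (.e (nat_lit 98319) (nat_lit 17) (.e (nat_lit 3454) (nat_lit 216) (.e (nat_lit 688180) (nat_lit 17) .nil))))))) (.g (nat_lit 4) .nil .nil))) 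
(.lf (nat_lit 199137) (.g (nat_lit 888) (.e (nat_lit 73730) (nat_lit 0) (.e (nat_lit 7261) (nat_lit 384) (.e (nat_lit 57436) (nat_lit 17) (.e (nat_lit 376838) (nat_lit 11) .nil)))) .nil)))) (.nd (nat_lit 5) (.nd (nat_lit 6) 
(.lf (nat_lit 199057) (.g (nat_lit 3460) (.e (nat_lit 73729) (nat_lit 0) (.e (nat_lit 7454) (nat_lit 396) (.e (nat_lit 1190) (nat_lit 88) (.e (nat_lit 65619) (nat_lit 10) (.e (nat_lit 344117) (nat_lit 21) (.e (nat_lit 516097) (nat_lit 0) (.e (nat_lit 3454) (nat_lit 216) (.e (nat_lit 688180) (nat_lit 17) .nil)))))))) (.g (nat_lit 6) .nil .nil))) 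
(.lf (nat_lit 199121) (.g (nat_lit 1232) (.e (nat_lit 73730) (nat_lit 0) (.e (nat_lit 7261) (nat_lit 384) (.e (nat_lit 57382) (nat_lit 4) (.e (nat_lit 106520) (nat_lit 9) (.e (nat_lit 1281) (nat_lit 94) (.e (nat_lit 114716) (nat_lit 22) (.e (nat_lit 90181) (nat_lit 16) (.e (nat_lit 237312) (nat_lit 192) .nil)))))))) (.g (nat_lit 6) .nil .nil)))) (.nd (nat_lit 6) 
(.lf (nat_lit 199089) (.g (nat_lit 2356) (.e (nat_lit 73730) (nat_lit 0) (.e (nat_lit 7122) (nat_lit 382) (.e (nat_lit 1222) (nat_lit 90) (.e (nat_lit 81927) (nat_lit 11) (.e (nat_lit 426012) (nat_lit 0) (.e (nat_lit 7591) (nat_lit 407) .nil)))))) (.g (nat_lit 6) .nil .nil))) 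
(.lf (nat_lit 199153) (.g (nat_lit 1095) (.e (nat_lit 73730) (nat_lit 0) (.e (nat_lit 7263) (nat_lit 384) (.e (nat_lit 57424) (nat_lit 14) (.e (nat_lit 352278) (nat_lit 11) .nil)))) .nil))))) (.nd (nat_lit 4) (.nd (nat_lit 5) (.nd (nat_lit 6) 
(.lf (nat_lit 199049) (.g (nat_lit 2310) (.e (nat_lit 73729) (nat_lit 0) (.e (nat_lit 7266) (nat_lit 384) (.e (nat_lit 57436) (nat_lit 17) (.e (nat_lit 376842) (nat_lit 11) (.e (nat_lit 426031) (nat_lit 0) (.e (nat_lit 7936) (nat_lit 407) .nil)))))) (.g (nat_lit 4) .nil .nil))) 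
(.lf (nat_lit 199113) (.g (nat_lit 1347) (.e (nat_lit 73730) (nat_lit 0) (.e (nat_lit 7125) (nat_lit 382) (.e (nat_lit 1224) (nat_lit 90) (.e (nat_lit 81925) (nat_lit 11) .nil)))) .nil))) (.nd (nat_lit 6) 
(.lf (nat_lit 199081) (.g (nat_lit 919) (.e (nat_lit 73730) (nat_lit 0) (.e (nat_lit 4159) (nat_lit 250) (.e (nat_lit 229491) (nat_lit 75) (.e (nat_lit 352313) (nat_lit 23) (.e (nat_lit 98325) (nat_lit 17) (.e (nat_lit 7936) (nat_lit 407) .nil)))))) (.g (nat_lit 5) .nil .nil))) 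
(.lf (nat_lit 199145) (.g (nat_lit 826) (.e (nat_lit 73730) (nat_lit 0) (.e (nat_lit 7263) (nat_lit 384) (.e (nat_lit 57412) (nat_lit 12) (.e (nat_lit 336083) (nat_lit 9) (.e (nat_lit 336438) (nat_lit 31) .nil))))) .nil)))) (.nd (nat_lit 5) (.nd (nat_lit 6) 
(.lf (nat_lit 199065) (.g (nat_lit 3514) (.e (nat_lit 73729) (nat_lit 0) (.e (nat_lit 7454) (nat_lit 396) (.e (nat_lit 1220) (nat_lit 90) (.e (nat_lit 81956) (nat_lit 23) (.e (nat_lit 98321) (nat_lit 17) (.e (nat_lit 7936) (nat_lit 216) (.e (nat_lit 688180) (nat_lit 17) .nil))))))) (.g (nat_lit 5) .nil .nil))) 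
(.lf (nat_lit 199129) (.g (nat_lit 2497) (.e (nat_lit 73730) (nat_lit 0) (.e (nat_lit 7261) (nat_lit 384) (.e (nat_lit 57411) (nat_lit 12) (.e (nat_lit 336211) (nat_lit 13) (.e (nat_lit 393233) (nat_lit 17) (.e (nat_lit 7591) (nat_lit 407) .nil)))))) (.g (nat_lit 6) .nil .nil)))) (.nd (nat_lit 6) 
(.lf (nat_lit 199097) (.g (nat_lit 475) (.e (nat_lit 73730) (nat_lit 0) (.e (nat_lit 7122) (nat_lit 382) (.e (nat_lit 1298) (nat_lit 96) .nil))) .nil)) 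
(.lf (nat_lit 199161) (.g (nat_lit 2050) (.e (nat_lit 73730) (nat_lit 0) (.e (nat_lit 7265) (nat_lit 384) (.e (nat_lit 57347) (nat_lit 0) (.e (nat_lit 2203) (nat_lit 144) (.e (nat_lit 720956) (nat_lit 25) (.e (nat_lit 114716) (nat_lit 22) (.e (nat_lit 90181) (nat_lit 16) (.e (nat_lit 237312) (nat_lit 192) .nil)))))))) (.g (nat_lit 4) .nil .nil))))))) 
(.nd (nat_lit 3) (.nd (nat_lit 4) (.nd (nat_lit 5) (.nd (nat_lit 6) 
(.lf (nat_lit 199045) (.g (nat_lit 2274) (.e (nat_lit 73729) (nat_lit 0) (.e (nat_lit 7266) (nat_lit 384) (.e (nat_lit 57436) (nat_lit 17) (.e (nat_lit 376842) (nat_lit 11) (.e (nat_lit 426027) (nat_lit 0) (.e (nat_lit 7936) (nat_lit 407) .nil)))))) (.g (nat_lit 4) .nil .nil))) 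
(.lf (nat_lit 199109) (.g (nat_lit 2186) (.e (nat_lit 73730) (nat_lit 0) (.e (nat_lit 7125) (nat_lit 382) (.e (nat_lit 1201) (nat_lit 88) (.e (nat_lit 65625) (nat_lit 13) (.e (nat_lit 393231) (nat_lit 17) (.e (nat_lit 7593) (nat_lit 407) .nil)))))) (.g (nat_lit 4) .nil .nil)))) (.nd (nat_lit 6) 
(.lf (nat_lit 199077) (.g (nat_lit 3867) (.e (nat_lit 73729) (nat_lit 0) (.e (nat_lit 7454) (nat_lit 396) (.e (nat_lit 1221) (nat_lit 90) (.e (nat_lit 81956) (nat_lit 23) (.e (nat_lit 98334) (nat_lit 18) (.e (nat_lit 164159) (nat_lit 152) (.e (nat_lit 1208) (nat_lit 89) .nil))))))) (.g (nat_lit 5) .nil .nil))) 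
(.lf (nat_lit 199141) (.g (nat_lit 777) (.e (nat_lit 73730) (nat_lit 0) (.e (nat_lit 7261) (nat_lit 384) (.e (nat_lit 57436) (nat_lit 17) (.e (nat_lit 384768) (nat_lit 15) .nil)))) .nil)))) (.nd (nat_lit 5) (.nd (nat_lit 6) 
(.lf (nat_lit 199061) (.g (nat_lit 2872) (.e (nat_lit 73729) (nat_lit 0) (.e (nat_lit 7454) (nat_lit 396) (.e (nat_lit 1219) (nat_lit 90) (.e (nat_lit 81954) (nat_lit 23) (.e (nat_lit 98333) (nat_lit 18) (.e (nat_lit 164151) (nat_lit 152) (.e (nat_lit 1207) (nat_lit 89) .nil))))))) (.g (nat_lit 5) .nil .nil))) 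
(.lf (nat_lit 199125) (.g (nat_lit 2782) (.e (nat_lit 73730) (nat_lit 0) (.e (nat_lit 7261) (nat_lit 384) (.e (nat_lit 57407) (nat_lit 12) (.e (nat_lit 336211) (nat_lit 13) (.e (nat_lit 393233) (nat_lit 17) (.e (nat_lit 7591) (nat_lit 407) .nil)))))) (.g (nat_lit 6) .nil .nil)))) (.nd (nat_lit 6) 
(.lf (nat_lit 199093) (.g (nat_lit 1213) (.e (nat_lit 73730) (nat_lit 0) (.e (nat_lit 7122) (nat_lit 382) (.e (nat_lit 1296) (nat_lit 96) (.e (nat_lit 131105) (nat_lit 9) .nil)))) .nil)) 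
(.lf (nat_lit 199157) (.g (nat_lit 1437) (.e (nat_lit 73730) (nat_lit 0) (.e (nat_lit 7265) (nat_lit 384) (.e (nat_lit 57347) (nat_lit 0) (.e (nat_lit 2031) (nat_lit 140) .nil)))) .nil))))) (.nd (nat_lit 4) (.nd (nat_lit 5) (.nd (nat_lit 6) 
(.lf (nat_lit 199053) (.g (nat_lit 1971) (.e (nat_lit 73729) (nat_lit 0) (.e (nat_lit 7266) (nat_lit 384) (.e (nat_lit 57436) (nat_lit 17) (.e (nat_lit 376842) (nat_lit 11) (.e (nat_lit 426054) (nat_lit 0) (.e (nat_lit 7936) (nat_lit 407) .nil)))))) (.g (nat_lit 4) .nil .nil))) 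
(.lf (nat_lit 199117) (.g (nat_lit 1073) (.e (nat_lit 73730) (nat_lit 0) (.e (nat_lit 7125) (nat_lit 382) (.e (nat_lit 1296) (nat_lit 96) (.e (nat_lit 131128) (nat_lit 13) .nil)))) .nil))) (.nd (nat_lit 6) 
(.lf (nat_lit 199085) (.g (nat_lit 1427) (.e (nat_lit 73730) (nat_lit 0) (.e (nat_lit 7122) (nat_lit 382) (.e (nat_lit 1193) (nat_lit 88) (.e (nat_lit 65626) (nat_lit 13) (.e (nat_lit 393234) (nat_lit 17) .nil))))) .nil)) 
(.lf (nat_lit 199149) (.g (nat_lit 1013) (.e (nat_lit 73730) (nat_lit 0) (.e (nat_lit 7263) (nat_lit 384) (.e (nat_lit 57423) (nat_lit 14) (.e (nat_lit 352271) (nat_lit 9) .nil)))) .nil)))) (.nd (nat_lit 5) (.nd (nat_lit 6) 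
(.lf (nat_lit 199069) (.g (nat_lit 4883) (.e (nat_lit 73729) (nat_lit 0) (.e (nat_lit 7454) (nat_lit 396) (.e (nat_lit 1220) (nat_lit 90) (.e (nat_lit 81956) (nat_lit 23) (.e (nat_lit 98333) (nat_lit 18) (.e (nat_lit 164155) (nat_lit 152) (.e (nat_lit 1214) (nat_lit 89) .nil))))))) (.g (nat_lit 5) .nil .nil))) 
(.lf (nat_lit 199133) (.g (nat_lit 978) (.e (nat_lit 73730) (nat_lit 0) (.e (nat_lit 7261) (nat_lit 384) (.e (nat_lit 57424) (nat_lit 14) (.e (nat_lit 352278) (nat_lit 11) .nil)))) .nil))) (.nd (nat_lit 6) 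
(.lf (nat_lit 199101) (.g (nat_lit 1389) (.e (nat_lit 73730) (nat_lit 0) (.e (nat_lit 7124) (nat_lit 382) (.e (nat_lit 1201) (nat_lit 88) (.e (nat_lit 65627) (nat_lit 13) (.e (nat_lit 393234) (nat_lit 17) .nil))))) .nil)) 
(.lf (nat_lit 199165) (.g (nat_lit 2103) (.e (nat_lit 73730) (nat_lit 0) (.e (nat_lit 7265) (nat_lit 384) (.e (nat_lit 57406) (nat_lit 12) (.e (nat_lit 336211) (nat_lit 13) (.e (nat_lit 393234) (nat_lit 17) .nil))))) .nil))))))) (.nd (nat_lit 2) (.nd (nat_lit 3) (.nd (nat_lit 4) (.nd (nat_lit 5) (.nd (nat_lit 6) 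
(.lf (nat_lit 199043) (.g (nat_lit 1897) (.e (nat_lit 73729) (nat_lit 0) (.e (nat_lit 7266) (nat_lit 384) (.e (nat_lit 57436) (nat_lit 17) (.e (nat_lit 376842) (nat_lit 11) (.e (nat_lit 426014) (nat_lit 0) (.e (nat_lit 7936) (nat_lit 407) .nil)))))) (.g (nat_lit 4) .nil .nil))) 
(.lf (nat_lit 199107) (.g (nat_lit 1642) (.e (nat_lit 73730) (nat_lit 0) (.e (nat_lit 7125) (nat_lit 382) (.e (nat_lit 1201) (nat_lit 88) (.e (nat_lit 65596) (nat_lit 9) .nil)))) .nil))) (.nd (nat_lit 6) 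
(.lf (nat_lit 199075) (.g (nat_lit 4103) (.e (nat_lit 73729) (nat_lit 0) (.e (nat_lit 7454) (nat_lit 396) (.e (nat_lit 1221) (nat_lit 90) (.e (nat_lit 81956) (nat_lit 23) (.e (nat_lit 98333) (nat_lit 18) (.e (nat_lit 164151) (nat_lit 152) (.e (nat_lit 1206) (nat_lit 89) .nil))))))) (.g (nat_lit 4) .nil .nil))) 
(.lf (nat_lit 199139) (.g (nat_lit 2852) (.e (nat_lit 73730) (nat_lit 0) (.e (nat_lit 7261) (nat_lit 384) (.e (nat_lit 57436) (nat_lit 17) (.e (nat_lit 376842) (nat_lit 11) (.e (nat_lit 426011) (nat_lit 0) (.e (nat_lit 7591) (nat_lit 407) .nil)))))) (.g (nat_lit 6) .nil .nil))))) (.nd (nat_lit 5) (.nd (nat_lit 6) 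
(.lf (nat_lit 199059) (.g (nat_lit 3321) (.e (nat_lit 73729) (nat_lit 0) (.e (nat_lit 7454) (nat_lit 396) (.e (nat_lit 1200) (nat_lit 88) (.e (nat_lit 65619) (nat_lit 10) (.e (nat_lit 344117) (nat_lit 21) (.e (nat_lit 516097) (nat_lit 0) (.e (nat_lit 3455) (nat_lit 216) (.e (nat_lit 688180) (nat_lit 17) .nil)))))))) (.g (nat_lit 6) .nil .nil))) 
(.lf (nat_lit 199123) (.g (nat_lit 2126) (.e (nat_lit 73730) (nat_lit 0) (.e (nat_lit 7261) (nat_lit 384) (.e (nat_lit 57389) (nat_lit 5) (.e (nat_lit 114702) (nat_lit 20) (.e (nat_lit 2198) (nat_lit 144) (.e (nat_lit 720940) (nat_lit 22) (.e (nat_lit 90165) (nat_lit 12) (.e (nat_lit 171776) (nat_lit 192) .nil)))))))) (.g (nat_lit 7) .nil .nil)))) (.nd (nat_lit 6) 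
(.lf (nat_lit 199091) (.g (nat_lit 1397) (.e (nat_lit 73730) (nat_lit 0) (.e (nat_lit 7122) (nat_lit 382) (.e (nat_lit 1224) (nat_lit 90) (.e (nat_lit 81925) (nat_lit 11) (.e (nat_lit 426012) (nat_lit 0) .nil))))) .nil)) 
(.lf (nat_lit 199155) (.g (nat_lit 1900) (.e (nat_lit 73730) (nat_lit 0) (.e (nat_lit 7263) (nat_lit 384) (.e (nat_lit 57436) (nat_lit 17) (.e (nat_lit 376842) (nat_lit 11) (.e (nat_lit 426010) (nat_lit 0) .nil))))) .nil))))) (.nd (nat_lit 4) (.nd (nat_lit 5) (.nd (nat_lit 6) 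
(.lf (nat_lit 199051) (.g (nat_lit 2120) (.e (nat_lit 73729) (nat_lit 0) (.e (nat_lit 7266) (nat_lit 384) (.e (nat_lit 57436) (nat_lit 17) (.e (nat_lit 376842) (nat_lit 11) (.e (nat_lit 426051) (nat_lit 0) (.e (nat_lit 7936) (nat_lit 407) .nil)))))) (.g (nat_lit 4) .nil .nil))) 
(.lf (nat_lit 199115) (.g (nat_lit 1329) (.e (nat_lit 73730) (nat_lit 0) (.e (nat_lit 7125) (nat_lit 382) (.e (nat_lit 1296) (nat_lit 96) (.e (nat_lit 131107) (nat_lit 9) .nil)))) .nil))) (.nd (nat_lit 6) 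
(.lf (nat_lit 199083) (.g (nat_lit 475) (.e (nat_lit 73730) (nat_lit 0) (.e (nat_lit 7122) (nat_lit 382) (.e (nat_lit 1036) (nat_lit 81) .nil))) .nil)) 
(.lf (nat_lit 199147) (.g (nat_lit 2276) (.e (nat_lit 73730) (nat_lit 0) (.e (nat_lit 7263) (nat_lit 384) (.e (nat_lit 57412) (nat_lit 12) (.e (nat_lit 336219) (nat_lit 13) (.e (nat_lit 393234) (nat_lit 17) (.e (nat_lit 7591) (nat_lit 407) .nil)))))) (.g (nat_lit 6) .nil .nil))))) (.nd (nat_lit 5) (.nd (nat_lit 6) 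
(.lf (nat_lit 199067) (.g (nat_lit 3081) (.e (nat_lit 73729) (nat_lit 0) (.e (nat_lit 7454) (nat_lit 396) (.e (nat_lit 1220) (nat_lit 90) (.e (nat_lit 81956) (nat_lit 23) (.e (nat_lit 98333) (nat_lit 18) .nil))))) .nil)) 
(.lf (nat_lit 199131) (.g (nat_lit 2311) (.e (nat_lit 73730) (nat_lit 0) (.e (nat_lit 7261) (nat_lit 384) (.e (nat_lit 57412) (nat_lit 12) (.e (nat_lit 336219) (nat_lit 13) (.e (nat_lit 393234) (nat_lit 17) (.e (nat_lit 7591) (nat_lit 407) .nil)))))) (.g (nat_lit 6) .nil .nil)))) (.nd (nat_lit 6) 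
(.lf (nat_lit 199099) (.g (nat_lit 861) (.e (nat_lit 73730) (nat_lit 0) (.e (nat_lit 7124) (nat_lit 382) (.e (nat_lit 1201) (nat_lit 88) (.e (nat_lit 65627) (nat_lit 13) .nil)))) .nil)) 
(.lf (nat_lit 199163) (.g (nat_lit 1227) (.e (nat_lit 73730) (nat_lit 0) (.e (nat_lit 7265) (nat_lit 384) (.e (nat_lit 57406) (nat_lit 12) (.e (nat_lit 336211) (nat_lit 13) .nil)))) .nil)))))) (.nd (nat_lit 3) (.nd (nat_lit 4) (.nd (nat_lit 5) (.nd (nat_lit 6) 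
(.lf (nat_lit 199047) (.g (nat_lit 2084) (.e (nat_lit 73729) (nat_lit 0) (.e (nat_lit 7266) (nat_lit 384) (.e (nat_lit 57436) (nat_lit 17) (.e (nat_lit 376842) (nat_lit 11) (.e (nat_lit 426029) (nat_lit 0) (.e (nat_lit 7936) (nat_lit 407) .nil)))))) (.g (nat_lit 4) .nil .nil))) 
(.lf (nat_lit 199111) (.g (nat_lit 1783) (.e (nat_lit 73730) (nat_lit 0) (.e (nat_lit 7125) (nat_lit 382) (.e (nat_lit 1201) (nat_lit 88) (.e (nat_lit 65627) (nat_lit 13) (.e (nat_lit 393231) (nat_lit 17) (.e (nat_lit 7591) (nat_lit 407) .nil)))))) (.g (nat_lit 4) .nil .nil)))) (.nd (nat_lit 6) 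
(.lf (nat_lit 199079) (.g (nat_lit 2162) (.e (nat_lit 73730) (nat_lit 0) (.e (nat_lit 4004) (nat_lit 242) (.e (nat_lit 122916) (nat_lit 14) (.e (nat_lit 352312) (nat_lit 22) (.e (nat_lit 90165) (nat_lit 12) (.e (nat_lit 171776) (nat_lit 192) .nil)))))) (.g (nat_lit 5) .nil .nil))) 
(.lf (nat_lit 199143) (.g (nat_lit 733) (.e (nat_lit 73730) (nat_lit 0) (.e (nat_lit 7261) (nat_lit 384) (.e (nat_lit 57437) (nat_lit 17) (.e (nat_lit 384768) (nat_lit 15) .nil)))) .nil)))) (.nd (nat_lit 5) (.nd (nat_lit 6) 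
(.lf (nat_lit 199063) (.g (nat_lit 2445) (.e (nat_lit 73729) (nat_lit 0) (.e (nat_lit 7454) (nat_lit 396) (.e (nat_lit 1219) (nat_lit 90) (.e (nat_lit 81956) (nat_lit 23) (.e (nat_lit 98333) (nat_lit 18) .nil))))) .nil)) 
(.lf (nat_lit 199127) (.g (nat_lit 2005) (.e (nat_lit 73730) (nat_lit 0) (.e (nat_lit 7261) (nat_lit 384) (.e (nat_lit 57410) (nat_lit 12) (.e (nat_lit 336211) (nat_lit 13) (.e (nat_lit 393233) (nat_lit 17) (.e (nat_lit 7591) (nat_lit 407) .nil)))))) (.g (nat_lit 6) .nil .nil)))) (.nd (nat_lit 6) 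
(.lf (nat_lit 199095) (.g (nat_lit 1470) (.e (nat_lit 73730) (nat_lit 0) (.e (nat_lit 7122) (nat_lit 382) (.e (nat_lit 1296) (nat_lit 96) (.e (nat_lit 131107) (nat_lit 9) (.e (nat_lit 336421) (nat_lit 28) .nil))))) .nil)) 
(.lf (nat_lit 199159) (.g (nat_lit 1395) (.e (nat_lit 73730) (nat_lit 0) (.e (nat_lit 7265) (nat_lit 384) (.e (nat_lit 57347) (nat_lit 0) (.e (nat_lit 2198) (nat_lit 144) .nil)))) .nil))))) (.nd (nat_lit 4) (.nd (nat_lit 5) (.nd (nat_lit 6) 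
(.lf (nat_lit 199055) (.g (nat_lit 1785) (.e (nat_lit 73729) (nat_lit 0) (.e (nat_lit 7266) (nat_lit 384) (.e (nat_lit 57436) (nat_lit 17) (.e (nat_lit 376842) (nat_lit 11) (.e (nat_lit 426075) (nat_lit 0) .nil))))) .nil)) 
(.lf (nat_lit 199119) (.g (nat_lit 2376) (.e (nat_lit 73730) (nat_lit 0) (.e (nat_lit 7261) (nat_lit 384) (.e (nat_lit 57347) (nat_lit 0) (.e (nat_lit 2203) (nat_lit 144) (.e (nat_lit 720956) (nat_lit 25) (.e (nat_lit 114716) (nat_lit 22) (.e (nat_lit 90181) (nat_lit 16) (.e (nat_lit 237312) (nat_lit 192) .nil)))))))) (.g (nat_lit 6) .nil .nil)))) (.nd (nat_lit 6) 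
(.lf (nat_lit 199087) (.g (nat_lit 3020) (.e (nat_lit 73730) (nat_lit 0) (.e (nat_lit 7122) (nat_lit 382) (.e (nat_lit 1201) (nat_lit 88) (.e (nat_lit 65625) (nat_lit 13) (.e (nat_lit 393234) (nat_lit 17) (.e (nat_lit 7591) (nat_lit 407) .nil)))))) (.g (nat_lit 0) .nil .nil))) 
(.lf (nat_lit 199151) (.g (nat_lit 1495) (.e (nat_lit 73730) (nat_lit 0) (.e (nat_lit 7263) (nat_lit 384) (.e (nat_lit 57423) (nat_lit 14) (.e (nat_lit 352276) (nat_lit 11) (.e (nat_lit 425989) (nat_lit 0) (.e (nat_lit 7590) (nat_lit 407) .nil)))))) (.g (nat_lit 6) .nil .nil))))) (.nd (nat_lit 5) (.nd (nat_lit 6) 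
(.lf (nat_lit 199071) (.g (nat_lit 3870) (.e (nat_lit 73729) (nat_lit 0) (.e (nat_lit 7454) (nat_lit 396) (.e (nat_lit 1220) (nat_lit 90) (.e (nat_lit 81956) (nat_lit 23) (.e (nat_lit 98334) (nat_lit 18) (.e (nat_lit 164159) (nat_lit 152) (.e (nat_lit 1208) (nat_lit 89) .nil))))))) (.g (nat_lit 5) .nil .nil))) 
(.lf (nat_lit 199135) (.g (nat_lit 1036) (.e (nat_lit 73730) (nat_lit 0) (.e (nat_lit 7261) (nat_lit 384) (.e (nat_lit 57435) (nat_lit 17) (.e (nat_lit 376840) (nat_lit 11) (.e (nat_lit 426072) (nat_lit 0) (.e (nat_lit 7936) (nat_lit 407) .nil)))))) (.g (nat_lit 4) .nil .nil)))) (.nd (nat_lit 6) 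
(.lf (nat_lit 199103) (.g (nat_lit 1067) (.e (nat_lit 73730) (nat_lit 0) (.e (nat_lit 7124) (nat_lit 382) (.e (nat_lit 1296) (nat_lit 96) (.e (nat_lit 131125) (nat_lit 13) .nil)))) .nil)) 
(.lf (nat_lit 199167) (.g (nat_lit 860) (.e (nat_lit 73730) (nat_lit 0) (.e (nat_lit 7265) (nat_lit 384) (.e (nat_lit 57412) (nat_lit 12) (.e (nat_lit 336219) (nat_lit 13) .nil)))) .nil)))))))))

noncomputable def tv2633 : DT := (.nd (nat_lit 0) (.nd (nat_lit 1) (.nd (nat_lit 2) (.nd (nat_lit 3) (.nd (nat_lit 4) (.nd (nat_lit 5) (.nd (nat_lit 6) 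
(.lf (nat_lit 199168) (.g (nat_lit 1336) (.e (nat_lit 73730) (nat_lit 0) (.e (nat_lit 7265) (nat_lit 384) (.e (nat_lit 57423) (nat_lit 14) (.e (nat_lit 352277) (nat_lit 11) .nil)))) .nil)) 
(.lf (nat_lit 199232) (.g (nat_lit 1277) (.e (nat_lit 73731) (nat_lit 0) (.e (nat_lit 7124) (nat_lit 382) (.e (nat_lit 1296) (nat_lit 96) (.e (nat_lit 131128) (nat_lit 13) (.e (nat_lit 393231) (nat_lit 17) .nil))))) .nil))) (.nd (nat_lit 6) 
(.lf (nat_lit 199200) (.g (nat_lit 726) (.e (nat_lit 73731) (nat_lit 0) (.e (nat_lit 7122) (nat_lit 382) (.e (nat_lit 1016) (nat_lit 81) (.e (nat_lit 1569) (nat_lit 110) .nil)))) .nil)) 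
(.lf (nat_lit 199264) (.g (nat_lit 963) (.e (nat_lit 73731) (nat_lit 0) (.e (nat_lit 7125) (nat_lit 382) (.e (nat_lit 1224) (nat_lit 90) (.e (nat_lit 89856) (nat_lit 11) .nil)))) .nil)))) (.nd (nat_lit 5) (.nd (nat_lit 6) 
(.lf (nat_lit 199184) (.g (nat_lit 428) (.e (nat_lit 73730) (nat_lit 0) (.e (nat_lit 7266) (nat_lit 384) (.e (nat_lit 57423) (nat_lit 14) .nil))) .nil)) 
(.lf (nat_lit 199248) (.g (nat_lit 937) (.e (nat_lit 73731) (nat_lit 0) (.e (nat_lit 7125) (nat_lit 382) (.e (nat_lit 1222) (nat_lit 90) (.e (nat_lit 89856) (nat_lit 0) .nil)))) .nil))) (.nd (nat_lit 6) 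
(.lf (nat_lit 199216) (.g (nat_lit 453) (.e (nat_lit 73731) (nat_lit 0) (.e (nat_lit 7122) (nat_lit 382) (.e (nat_lit 1298) (nat_lit 96) .nil))) .nil)) 
(.lf (nat_lit 199280) (.g (nat_lit 1312) (.e (nat_lit 73731) (nat_lit 0) (.e (nat_lit 7261) (nat_lit 384) (.e (nat_lit 57382) (nat_lit 4) (.e (nat_lit 106520) (nat_lit 9) (.e (nat_lit 1281) (nat_lit 94) (.e (nat_lit 114716) (nat_lit 22) (.e (nat_lit 90181) (nat_lit 16) (.e (nat_lit 237312) (nat_lit 192) .nil)))))))) (.g (nat_lit 6) .nil .nil)))))) 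
(.nd (nat_lit 4) (.nd (nat_lit 5) (.nd (nat_lit 6) 
(.lf (nat_lit 199176) (.g (nat_lit 1715) (.e (nat_lit 73730) (nat_lit 0) (.e (nat_lit 7265) (nat_lit 384) (.e (nat_lit 57436) (nat_lit 17) (.e (nat_lit 376842) (nat_lit 11) (.e (nat_lit 426011) (nat_lit 0) .nil))))) .nil)) 
(.lf (nat_lit 199240) (.g (nat_lit 2192) (.e (nat_lit 73731) (nat_lit 0) (.e (nat_lit 7125) (nat_lit 382) (.e (nat_lit 1214) (nat_lit 89) (.e (nat_lit 73746) (nat_lit 3) (.e (nat_lit 516131) (nat_lit 3) (.e (nat_lit 221219) (nat_lit 24) (.e (nat_lit 220928) (nat_lit 5) .nil))))))) (.g (nat_lit 5) .nil .nil)))) (.nd (nat_lit 6) 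
(.lf (nat_lit 199208) (.g (nat_lit 1468) (.e (nat_lit 73731) (nat_lit 0) (.e (nat_lit 7122) (nat_lit 382) (.e (nat_lit 1222) (nat_lit 90) (.e (nat_lit 81925) (nat_lit 11) .nil)))) .nil)) 
(.lf (nat_lit 199272) (.g (nat_lit 943) (.e (nat_lit 73731) (nat_lit 0) (.e (nat_lit 7125) (nat_lit 382) (.e (nat_lit 1296) (nat_lit 96) (.e (nat_lit 131126) (nat_lit 13) .nil)))) .nil)))) (.nd (nat_lit 5) (.nd (nat_lit 6) 
(.lf (nat_lit 199192) (.g (nat_lit 638) (.e (nat_lit 73730) (nat_lit 0) (.e (nat_lit 7266) (nat_lit 384) (.e (nat_lit 57436) (nat_lit 17) .nil))) .nil)) 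
(.lf (nat_lit 199256) (.g (nat_lit 1450) (.e (nat_lit 73731) (nat_lit 0) (.e (nat_lit 7125) (nat_lit 382) (.e (nat_lit 1222) (nat_lit 90) (.e (nat_lit 81927) (nat_lit 11) (.e (nat_lit 426075) (nat_lit 0) .nil))))) .nil))) (.nd (nat_lit 6) 
(.lf (nat_lit 199224) (.g (nat_lit 271) (.e (nat_lit 73731) (nat_lit 0) (.e (nat_lit 7124) (nat_lit 382) (.e (nat_lit 7936) (nat_lit 90) .nil))) .nil)) 
(.lf (nat_lit 199288) (.g (nat_lit 735) (.e (nat_lit 73731) (nat_lit 0) (.e (nat_lit 7261) (nat_lit 384) (.e (nat_lit 57423) (nat_lit 14) (.e (nat_lit 352276) (nat_lit 11) .nil)))) .nil)))))) (.nd (nat_lit 3) (.nd (nat_lit 4) (.nd (nat_lit 5) (.nd (nat_lit 6) 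
(.lf (nat_lit 199172) (.g (nat_lit 1708) (.e (nat_lit 73730) (nat_lit 0) (.e (nat_lit 7265) (nat_lit 384) (.e (nat_lit 57424) (nat_lit 14) (.e (nat_lit 352278) (nat_lit 11) .nil)))) .nil)) 
(.lf (nat_lit 199236) (.g (nat_lit 1987) (.e (nat_lit 73731) (nat_lit 0) (.e (nat_lit 7125) (nat_lit 382) (.e (nat_lit 1201) (nat_lit 88) (.e (nat_lit 65599) (nat_lit 9) (.e (nat_lit 343808) (nat_lit 31) .nil))))) .nil))) (.nd (nat_lit 6) 
(.lf (nat_lit 199204) (.g (nat_lit 352) (.e (nat_lit 73731) (nat_lit 0) (.e (nat_lit 7122) (nat_lit 382) (.e (nat_lit 1222) (nat_lit 90) .nil))) .nil)) 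
(.lf (nat_lit 199268) (.g (nat_lit 1480) (.e (nat_lit 73731) (nat_lit 0) (.e (nat_lit 7125) (nat_lit 382) (.e (nat_lit 1296) (nat_lit 96) (.e (nat_lit 131107) (nat_lit 9) (.e (nat_lit 336438) (nat_lit 31) (.e (nat_lit 466688) (nat_lit 5) .nil)))))) (.g (nat_lit 4) .nil .nil))))) (.nd (nat_lit 5) (.nd (nat_lit 6) 
(.lf (nat_lit 199188) (.g (nat_lit 1915) (.e (nat_lit 73730) (nat_lit 0) (.e (nat_lit 7266) (nat_lit 384) (.e (nat_lit 57424) (nat_lit 14) (.e (nat_lit 352277) (nat_lit 11) (.e (nat_lit 426009) (nat_lit 0) .nil))))) .nil)) 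
(.lf (nat_lit 199252) (.g (nat_lit 1411) (.e (nat_lit 73731) (nat_lit 0) (.e (nat_lit 7125) (nat_lit 382) (.e (nat_lit 1222) (nat_lit 90) (.e (nat_lit 81927) (nat_lit 11) (.e (nat_lit 426044) (nat_lit 0) .nil))))) .nil))) (.nd (nat_lit 6) 
(.lf (nat_lit 199220) (.g (nat_lit 2781) (.e (nat_lit 73731) (nat_lit 0) (.e (nat_lit 7124) (nat_lit 382) (.e (nat_lit 1201) (nat_lit 88) (.e (nat_lit 65627) (nat_lit 13) (.e (nat_lit 393234) (nat_lit 17) (.e (nat_lit 7591) (nat_lit 407) .nil)))))) (.g (nat_lit 0) .nil .nil))) 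
(.lf (nat_lit 199284) (.g (nat_lit 787) (.e (nat_lit 73731) (nat_lit 0) (.e (nat_lit 7261) (nat_lit 384) (.e (nat_lit 57412) (nat_lit 12) (.e (nat_lit 336097) (nat_lit 9) .nil)))) .nil))))) (.nd (nat_lit 4) (.nd (nat_lit 5) (.nd (nat_lit 6) 
(.lf (nat_lit 199180) (.g (nat_lit 1439) (.e (nat_lit 73730) (nat_lit 0) (.e (nat_lit 7266) (nat_lit 384) (.e (nat_lit 57417) (nat_lit 12) (.e (nat_lit 336209) (nat_lit 13) .nil)))) .nil)) 
(.lf (nat_lit 199244) (.g (nat_lit 3060) (.e (nat_lit 73731) (nat_lit 0) (.e (nat_lit 7125) (nat_lit 382) (.e (nat_lit 1214) (nat_lit 89) (.e (nat_lit 73754) (nat_lit 8) (.e (nat_lit 557105) (nat_lit 14) (.e (nat_lit 180227) (nat_lit 0) (.e (nat_lit 5796) (nat_lit 320) (.e (nat_lit 1213) (nat_lit 89) .nil)))))))) (.g (nat_lit 5) .nil .nil)))) (.nd (nat_lit 6) 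
(.lf (nat_lit 199212) (.g (nat_lit 453) (.e (nat_lit 73731) (nat_lit 0) (.e (nat_lit 7122) (nat_lit 382) (.e (nat_lit 7936) (nat_lit 90) .nil))) .nil)) 
(.lf (nat_lit 199276) (.g (nat_lit 1485) (.e (nat_lit 73731) (nat_lit 0) (.e (nat_lit 7247) (nat_lit 383) (.e (nat_lit 8210) (nat_lit 8) (.e (nat_lit 294941) (nat_lit 9) (.e (nat_lit 336421) (nat_lit 28) (.e (nat_lit 442112) (nat_lit 5) .nil)))))) (.g (nat_lit 5) .nil .nil))))) (.nd (nat_lit 5) (.nd (nat_lit 6) 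
(.lf (nat_lit 199196) (.g (nat_lit 2491) (.e (nat_lit 73731) (nat_lit 0) (.e (nat_lit 4004) (nat_lit 242) (.e (nat_lit 122916) (nat_lit 14) (.e (nat_lit 352315) (nat_lit 23) (.e (nat_lit 98325) (nat_lit 17) (.e (nat_lit 7936) (nat_lit 407) .nil)))))) (.g (nat_lit 5) .nil .nil))) 
(.lf (nat_lit 199260) (.g (nat_lit 963) (.e (nat_lit 73731) (nat_lit 0) (.e (nat_lit 7125) (nat_lit 382) (.e (nat_lit 1224) (nat_lit 90) (.e (nat_lit 89856) (nat_lit 9) .nil)))) .nil))) (.nd (nat_lit 6) 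
(.lf (nat_lit 199228) (.g (nat_lit 932) (.e (nat_lit 73731) (nat_lit 0) (.e (nat_lit 7124) (nat_lit 382) (.e (nat_lit 1296) (nat_lit 96) (.e (nat_lit 131109) (nat_lit 9) .nil)))) .nil)) 
(.lf (nat_lit 199292) (.g (nat_lit 1247) (.e (nat_lit 73731) (nat_lit 0) (.e (nat_lit 7261) (nat_lit 384) (.e (nat_lit 57435) (nat_lit 17) (.e (nat_lit 376840) (nat_lit 11) (.e (nat_lit 425984) (nat_lit 0) (.e (nat_lit 7590) (nat_lit 407) .nil)))))) (.g (nat_lit 4) .nil .nil)))))))) (.nd (nat_lit 2) (.nd (nat_lit 3) (.nd (nat_lit 4) (.nd (nat_lit 5) (.nd (nat_lit 6) 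
(.lf (nat_lit 199170) (.g (nat_lit 1282) (.e (nat_lit 73730) (nat_lit 0) (.e (nat_lit 7265) (nat_lit 384) (.e (nat_lit 57424) (nat_lit 14) (.e (nat_lit 352277) (nat_lit 11) .nil)))) .nil)) 
(.lf (nat_lit 199234) (.g (nat_lit 1413) (.e (nat_lit 73731) (nat_lit 0) (.e (nat_lit 7125) (nat_lit 382) (.e (nat_lit 1201) (nat_lit 88) (.e (nat_lit 65599) (nat_lit 9) .nil)))) .nil))) (.nd (nat_lit 6) 
(.lf (nat_lit 199202) (.g (nat_lit 2081) (.e (nat_lit 73731) (nat_lit 0) (.e (nat_lit 7122) (nat_lit 382) (.e (nat_lit 1201) (nat_lit 88) (.e (nat_lit 65626) (nat_lit 13) (.e (nat_lit 393234) (nat_lit 17) .nil))))) .nil)) 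
(.lf (nat_lit 199266) (.g (nat_lit 1181) (.e (nat_lit 73731) (nat_lit 0) (.e (nat_lit 7125) (nat_lit 382) (.e (nat_lit 1296) (nat_lit 96) (.e (nat_lit 131106) (nat_lit 9) .nil)))) .nil)))) (.nd (nat_lit 5) (.nd (nat_lit 6) 
(.lf (nat_lit 199186) (.g (nat_lit 495) (.e (nat_lit 73730) (nat_lit 0) (.e (nat_lit 7266) (nat_lit 384) (.e (nat_lit 57424) (nat_lit 14) .nil))) .nil)) 
(.lf (nat_lit 199250) (.g (nat_lit 1605) (.e (nat_lit 73731) (nat_lit 0) (.e (nat_lit 7125) (nat_lit 382) (.e (nat_lit 1222) (nat_lit 90) (.e (nat_lit 81925) (nat_lit 11) .nil)))) .nil))) (.nd (nat_lit 6) 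
(.lf (nat_lit 199218) (.g (nat_lit 2918) (.e (nat_lit 73731) (nat_lit 0) (.e (nat_lit 7124) (nat_lit 382) (.e (nat_lit 1201) (nat_lit 88) (.e (nat_lit 65625) (nat_lit 13) (.e (nat_lit 393234) (nat_lit 17) (.e (nat_lit 7591) (nat_lit 407) .nil)))))) (.g (nat_lit 0) .nil .nil))) 
(.lf (nat_lit 199282) (.g (nat_lit 988) (.e (nat_lit 73731) (nat_lit 0) (.e (nat_lit 7261) (nat_lit 384) (.e (nat_lit 57410) (nat_lit 12) (.e (nat_lit 336211) (nat_lit 13) (.e (nat_lit 393231) (nat_lit 17) .nil))))) .nil))))) (.nd (nat_lit 4) (.nd (nat_lit 5) (.nd (nat_lit 6) 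
(.lf (nat_lit 199178) (.g (nat_lit 1419) (.e (nat_lit 73730) (nat_lit 0) (.e (nat_lit 7266) (nat_lit 384) (.e (nat_lit 57417) (nat_lit 12) (.e (nat_lit 336116) (nat_lit 9) .nil)))) .nil)) 
(.lf (nat_lit 199242) (.g (nat_lit 2432) (.e (nat_lit 73731) (nat_lit 0) (.e (nat_lit 7125) (nat_lit 382) (.e (nat_lit 1214) (nat_lit 89) (.e (nat_lit 73754) (nat_lit 8) (.e (nat_lit 557101) (nat_lit 13) (.e (nat_lit 172070) (nat_lit 4) (.e (nat_lit 229704) (nat_lit 254) (.e (nat_lit 1211) (nat_lit 89) .nil)))))))) (.g (nat_lit 4) .nil .nil)))) (.nd (nat_lit 6) 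
(.lf (nat_lit 199210) (.g (nat_lit 1281) (.e (nat_lit 73731) (nat_lit 0) (.e (nat_lit 7122) (nat_lit 382) (.e (nat_lit 1224) (nat_lit 90) (.e (nat_lit 81925) (nat_lit 11) (.e (nat_lit 426011) (nat_lit 0) .nil))))) .nil)) 
(.lf (nat_lit 199274) (.g (nat_lit 1145) (.e (nat_lit 73731) (nat_lit 0) (.e (nat_lit 7125) (nat_lit 382) (.e (nat_lit 1296) (nat_lit 96) (.e (nat_lit 131127) (nat_lit 13) (.e (nat_lit 393242) (nat_lit 17) .nil))))) .nil)))) (.nd (nat_lit 5) (.nd (nat_lit 6) 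
(.lf (nat_lit 199194) (.g (nat_lit 3193) (.e (nat_lit 73730) (nat_lit 0) (.e (nat_lit 7454) (nat_lit 396) (.e (nat_lit 1221) (nat_lit 90) (.e (nat_lit 81956) (nat_lit 23) (.e (nat_lit 98333) (nat_lit 18) .nil))))) .nil)) 
(.lf (nat_lit 199258) (.g (nat_lit 937) (.e (nat_lit 73731) (nat_lit 0) (.e (nat_lit 7125) (nat_lit 382) (.e (nat_lit 1222) (nat_lit 90) (.e (nat_lit 89856) (nat_lit 11) .nil)))) .nil))) (.nd (nat_lit 6) 
(.lf (nat_lit 199226) (.g (nat_lit 1542) (.e (nat_lit 73731) (nat_lit 0) (.e (nat_lit 7124) (nat_lit 382) (.e (nat_lit 1296) (nat_lit 96) (.e (nat_lit 131105) (nat_lit 9) (.e (nat_lit 336438) (nat_lit 31) (.e (nat_lit 466688) (nat_lit 5) .nil)))))) (.g (nat_lit 4) .nil .nil))) 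
(.lf (nat_lit 199290) (.g (nat_lit 533) (.e (nat_lit 73731) (nat_lit 0) (.e (nat_lit 7261) (nat_lit 384) (.e (nat_lit 57425) (nat_lit 14) (.e (nat_lit 352257) (nat_lit 0) .nil)))) .nil)))))) (.nd (nat_lit 3) (.nd (nat_lit 4) (.nd (nat_lit 5) (.nd (nat_lit 6) 
(.lf (nat_lit 199174) (.g (nat_lit 1724) (.e (nat_lit 73730) (nat_lit 0) (.e (nat_lit 7265) (nat_lit 384) (.e (nat_lit 57435) (nat_lit 17) (.e (nat_lit 376842) (nat_lit 11) (.e (nat_lit 426011) (nat_lit 0) .nil))))) .nil)) 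
(.lf (nat_lit 199238) (.g (nat_lit 1523) (.e (nat_lit 73731) (nat_lit 0) (.e (nat_lit 7125) (nat_lit 382) (.e (nat_lit 1201) (nat_lit 88) (.e (nat_lit 65627) (nat_lit 13) (.e (nat_lit 393237) (nat_lit 17) .nil))))) .nil))) (.nd (nat_lit 6) 
(.lf (nat_lit 199206) (.g (nat_lit 1194) (.e (nat_lit 73731) (nat_lit 0) (.e (nat_lit 7122) (nat_lit 382) (.e (nat_lit 1222) (nat_lit 90) (.e (nat_lit 89856) (nat_lit 9) .nil)))) .nil)) 
(.lf (nat_lit 199270) (.g (nat_lit 1429) (.e (nat_lit 73731) (nat_lit 0) (.e (nat_lit 7125) (nat_lit 382) (.e (nat_lit 1296) (nat_lit 96) (.e (nat_lit 131109) (nat_lit 9) (.e (nat_lit 336421) (nat_lit 28) (.e (nat_lit 442112) (nat_lit 5) .nil)))))) (.g (nat_lit 4) .nil .nil))))) (.nd (nat_lit 5) (.nd (nat_lit 6) 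
(.lf (nat_lit 199190) (.g (nat_lit 2151) (.e (nat_lit 73730) (nat_lit 0) (.e (nat_lit 7266) (nat_lit 384) (.e (nat_lit 57435) (nat_lit 17) (.e (nat_lit 376842) (nat_lit 11) (.e (nat_lit 426010) (nat_lit 0) .nil))))) .nil)) 
(.lf (nat_lit 199254) (.g (nat_lit 1406) (.e (nat_lit 73731) (nat_lit 0) (.e (nat_lit 7125) (nat_lit 382) (.e (nat_lit 1222) (nat_lit 90) (.e (nat_lit 81927) (nat_lit 11) (.e (nat_lit 426053) (nat_lit 0) .nil))))) .nil))) (.nd (nat_lit 6) 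
(.lf (nat_lit 199222) (.g (nat_lit 948) (.e (nat_lit 73731) (nat_lit 0) (.e (nat_lit 7124) (nat_lit 382) (.e (nat_lit 1222) (nat_lit 90) (.e (nat_lit 81927) (nat_lit 11) .nil)))) .nil)) 
(.lf (nat_lit 199286) (.g (nat_lit 749) (.e (nat_lit 73731) (nat_lit 0) (.e (nat_lit 7261) (nat_lit 384) (.e (nat_lit 57423) (nat_lit 14) (.e (nat_lit 352258) (nat_lit 0) .nil)))) .nil))))) (.nd (nat_lit 4) (.nd (nat_lit 5) (.nd (nat_lit 6) 
(.lf (nat_lit 199182) (.g (nat_lit 1637) (.e (nat_lit 73730) (nat_lit 0) (.e (nat_lit 7266) (nat_lit 384) (.e (nat_lit 57419) (nat_lit 12) (.e (nat_lit 336076) (nat_lit 9) (.e (nat_lit 336438) (nat_lit 31) .nil))))) .nil)) 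
(.lf (nat_lit 199246) (.g (nat_lit 3139) (.e (nat_lit 73731) (nat_lit 0) (.e (nat_lit 7125) (nat_lit 382) (.e (nat_lit 1214) (nat_lit 89) (.e (nat_lit 73754) (nat_lit 8) (.e (nat_lit 557105) (nat_lit 14) (.e (nat_lit 188160) (nat_lit 0) (.e (nat_lit 5906) (nat_lit 320) (.e (nat_lit 1211) (nat_lit 89) .nil)))))))) (.g (nat_lit 5) .nil .nil)))) (.nd (nat_lit 6) 
(.lf (nat_lit 199214) (.g (nat_lit 452) (.e (nat_lit 73731) (nat_lit 0) (.e (nat_lit 7122) (nat_lit 382) (.e (nat_lit 1296) (nat_lit 96) .nil))) .nil)) 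
(.lf (nat_lit 199278) (.g (nat_lit 2438) (.e (nat_lit 73731) (nat_lit 0) (.e (nat_lit 7261) (nat_lit 384) (.e (nat_lit 57347) (nat_lit 0) (.e (nat_lit 2203) (nat_lit 144) (.e (nat_lit 720956) (nat_lit 25) (.e (nat_lit 114716) (nat_lit 22) (.e (nat_lit 90181) (nat_lit 16) (.e (nat_lit 237312) (nat_lit 192) .nil)))))))) (.g (nat_lit 6) .nil .nil))))) (.nd (nat_lit 5) (.nd (nat_lit 6) 
(.lf (nat_lit 199198) (.g (nat_lit 673) (.e (nat_lit 73731) (nat_lit 0) (.e (nat_lit 4539) (nat_lit 267) (.e (nat_lit 163871) (nat_lit 2) (.e (nat_lit 196656) (nat_lit 11) .nil)))) .nil)) 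
(.lf (nat_lit 199262) (.g (nat_lit 1497) (.e (nat_lit 73731) (nat_lit 0) (.e (nat_lit 7125) (nat_lit 382) (.e (nat_lit 1224) (nat_lit 90) (.e (nat_lit 81925) (nat_lit 11) (.e (nat_lit 426044) (nat_lit 0) .nil))))) .nil))) (.nd (nat_lit 6) 
(.lf (nat_lit 199230) (.g (nat_lit 1099) (.e (nat_lit 73731) (nat_lit 0) (.e (nat_lit 7124) (nat_lit 382) (.e (nat_lit 1296) (nat_lit 96) (.e (nat_lit 131127) (nat_lit 13) .nil)))) .nil)) 
(.lf (nat_lit 199294) (.g (nat_lit 1169) (.e (nat_lit 73731) (nat_lit 0) (.e (nat_lit 7261) (nat_lit 384) (.e (nat_lit 57435) (nat_lit 17) (.e (nat_lit 376840) (nat_lit 11) (.e (nat_lit 425989) (nat_lit 0) (.e (nat_lit 7590) (nat_lit 407) .nil)))))) (.g (nat_lit 4) .nil .nil))))))))) (.nd (nat_lit 1) (.nd (nat_lit 2) (.nd (nat_lit 3) (.nd (nat_lit 4) (.nd (nat_lit 5) (.nd (nat_lit 6) 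
(.lf (nat_lit 199169) (.g (nat_lit 1811) (.e (nat_lit 73730) (nat_lit 0) (.e (nat_lit 7265) (nat_lit 384) (.e (nat_lit 57423) (nat_lit 14) (.e (nat_lit 352277) (nat_lit 11) (.e (nat_lit 426012) (nat_lit 0) .nil))))) .nil)) 
(.lf (nat_lit 199233) (.g (nat_lit 1406) (.e (nat_lit 73731) (nat_lit 0) (.e (nat_lit 7125) (nat_lit 382) (.e (nat_lit 1201) (nat_lit 88) (.e (nat_lit 65589) (nat_lit 9) .nil)))) .nil))) (.nd (nat_lit 6) 
(.lf (nat_lit 199201) (.g (nat_lit 1566) (.e (nat_lit 73731) (nat_lit 0) (.e (nat_lit 7122) (nat_lit 382) (.e (nat_lit 1201) (nat_lit 88) (.e (nat_lit 65596) (nat_lit 9) .nil)))) .nil)) 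
(.lf (nat_lit 199265) (.g (nat_lit 1845) (.e (nat_lit 73731) (nat_lit 0) (.e (nat_lit 7125) (nat_lit 382) (.e (nat_lit 1296) (nat_lit 96) (.e (nat_lit 131105) (nat_lit 9) (.e (nat_lit 336438) (nat_lit 31) (.e (nat_lit 466688) (nat_lit 5) .nil)))))) (.g (nat_lit 5) .nil .nil))))) (.nd (nat_lit 5) (.nd (nat_lit 6) 
(.lf (nat_lit 199185) (.g (nat_lit 1535) (.e (nat_lit 73730) (nat_lit 0) (.e (nat_lit 7266) (nat_lit 384) (.e (nat_lit 57423) (nat_lit 14) (.e (nat_lit 352271) (nat_lit 9) .nil)))) .nil)) 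
(.lf (nat_lit 199249) (.g (nat_lit 937) (.e (nat_lit 73731) (nat_lit 0) (.e (nat_lit 7125) (nat_lit 382) (.e (nat_lit 1222) (nat_lit 90) (.e (nat_lit 89856) (nat_lit 9) .nil)))) .nil))) (.nd (nat_lit 6) 
(.lf (nat_lit 199217) (.g (nat_lit 335) (.e (nat_lit 73731) (nat_lit 0) (.e (nat_lit 7124) (nat_lit 382) (.e (nat_lit 1016) (nat_lit 81) .nil))) .nil)) 
(.lf (nat_lit 199281) (.g (nat_lit 1118) (.e (nat_lit 73731) (nat_lit 0) (.e (nat_lit 7261) (nat_lit 384) (.e (nat_lit 57389) (nat_lit 5) (.e (nat_lit 114702) (nat_lit 20) (.e (nat_lit 2198) (nat_lit 144) .nil))))) .nil))))) (.nd (nat_lit 4) (.nd (nat_lit 5) (.nd (nat_lit 6) 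
(.lf (nat_lit 199177) (.g (nat_lit 1763) (.e (nat_lit 73730) (nat_lit 0) (.e (nat_lit 7266) (nat_lit 384) (.e (nat_lit 57409) (nat_lit 12) (.e (nat_lit 336211) (nat_lit 13) (.e (nat_lit 393231) (nat_lit 17) .nil))))) .nil)) 
(.lf (nat_lit 199241) (.g (nat_lit 3002) (.e (nat_lit 73731) (nat_lit 0) (.e (nat_lit 7125) (nat_lit 382) (.e (nat_lit 1214) (nat_lit 89) (.e (nat_lit 73753) (nat_lit 8) (.e (nat_lit 557103) (nat_lit 14) (.e (nat_lit 188160) (nat_lit 0) (.e (nat_lit 5906) (nat_lit 320) (.e (nat_lit 1211) (nat_lit 89) .nil)))))))) (.g (nat_lit 5) .nil .nil)))) (.nd (nat_lit 6) 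
(.lf (nat_lit 199209) (.g (nat_lit 1093) (.e (nat_lit 73731) (nat_lit 0) (.e (nat_lit 7122) (nat_lit 382) (.e (nat_lit 1222) (nat_lit 90) (.e (nat_lit 81927) (nat_lit 11) .nil)))) .nil)) 
(.lf (nat_lit 199273) (.g (nat_lit 2143) (.e (nat_lit 73731) (nat_lit 0) (.e (nat_lit 7125) (nat_lit 382) (.e (nat_lit 1296) (nat_lit 96) (.e (nat_lit 131127) (nat_lit 13) (.e (nat_lit 393238) (nat_lit 17) (.e (nat_lit 7936) (nat_lit 407) .nil)))))) (.g (nat_lit 5) .nil .nil))))) (.nd (nat_lit 5) (.nd (nat_lit 6) 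
(.lf (nat_lit 199193) (.g (nat_lit 2224) (.e (nat_lit 73730) (nat_lit 0) (.e (nat_lit 7266) (nat_lit 384) (.e (nat_lit 57436) (nat_lit 17) (.e (nat_lit 376842) (nat_lit 11) (.e (nat_lit 426012) (nat_lit 0) .nil))))) .nil)) 
(.lf (nat_lit 199257) (.g (nat_lit 1412) (.e (nat_lit 73731) (nat_lit 0) (.e (nat_lit 7125) (nat_lit 382) (.e (nat_lit 1222) (nat_lit 90) (.e (nat_lit 81927) (nat_lit 11) (.e (nat_lit 426077) (nat_lit 0) .nil))))) .nil))) (.nd (nat_lit 6) 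
(.lf (nat_lit 199225) (.g (nat_lit 376) (.e (nat_lit 73731) (nat_lit 0) (.e (nat_lit 7124) (nat_lit 382) (.e (nat_lit 1296) (nat_lit 96) .nil))) .nil)) 
(.lf (nat_lit 199289) (.g (nat_lit 203) (.e (nat_lit 73731) (nat_lit 0) (.e (nat_lit 7261) (nat_lit 384) (.e (nat_lit 57425) (nat_lit 14) .nil))) .nil)))))) (.nd (nat_lit 3) (.nd (nat_lit 4) (.nd (nat_lit 5) (.nd (nat_lit 6) 
(.lf (nat_lit 199173) (.g (nat_lit 923) (.e (nat_lit 73730) (nat_lit 0) (.e (nat_lit 7265) (nat_lit 384) (.e (nat_lit 57435) (nat_lit 17) (.e (nat_lit 376842) (nat_lit 11) .nil)))) .nil)) 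
(.lf (nat_lit 199237) (.g (nat_lit 1977) (.e (nat_lit 73731) (nat_lit 0) (.e (nat_lit 7125) (nat_lit 382) (.e (nat_lit 1201) (nat_lit 88) (.e (nat_lit 65626) (nat_lit 13) (.e (nat_lit 393233) (nat_lit 17) .nil))))) .nil))) (.nd (nat_lit 6) 
(.lf (nat_lit 199205) (.g (nat_lit 1124) (.e (nat_lit 73731) (nat_lit 0) (.e (nat_lit 7122) (nat_lit 382) (.e (nat_lit 1222) (nat_lit 90) (.e (nat_lit 81921) (nat_lit 0) .nil)))) .nil)) 
(.lf (nat_lit 199269) (.g (nat_lit 1073) (.e (nat_lit 73731) (nat_lit 0) (.e (nat_lit 7125) (nat_lit 382) (.e (nat_lit 1296) (nat_lit 96) (.e (nat_lit 131108) (nat_lit 9) .nil)))) .nil)))) (.nd (nat_lit 5) (.nd (nat_lit 6) 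
(.lf (nat_lit 199189) (.g (nat_lit 2041) (.e (nat_lit 73730) (nat_lit 0) (.e (nat_lit 7266) (nat_lit 384) (.e (nat_lit 57435) (nat_lit 17) (.e (nat_lit 376842) (nat_lit 11) (.e (nat_lit 426009) (nat_lit 0) .nil))))) .nil)) 
(.lf (nat_lit 199253) (.g (nat_lit 1406) (.e (nat_lit 73731) (nat_lit 0) (.e (nat_lit 7125) (nat_lit 382) (.e (nat_lit 1222) (nat_lit 90) (.e (nat_lit 81927) (nat_lit 11) (.e (nat_lit 426052) (nat_lit 0) .nil))))) .nil))) (.nd (nat_lit 6) 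
(.lf (nat_lit 199221) (.g (nat_lit 796) (.e (nat_lit 73731) (nat_lit 0) (.e (nat_lit 7124) (nat_lit 382) (.e (nat_lit 7936) (nat_lit 89) (.e (nat_lit 73785) (nat_lit 40) (.e (nat_lit 444) (nat_lit 33) (.e (nat_lit 442112) (nat_lit 5) .nil)))))) (.g (nat_lit 5) .nil .nil))) 
(.lf (nat_lit 199285) (.g (nat_lit 1012) (.e (nat_lit 73731) (nat_lit 0) (.e (nat_lit 7261) (nat_lit 384) (.e (nat_lit 57412) (nat_lit 12) (.e (nat_lit 336219) (nat_lit 13) (.e (nat_lit 393231) (nat_lit 17) .nil))))) .nil))))) (.nd (nat_lit 4) (.nd (nat_lit 5) (.nd (nat_lit 6) 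
(.lf (nat_lit 199181) (.g (nat_lit 1348) (.e (nat_lit 73730) (nat_lit 0) (.e (nat_lit 7266) (nat_lit 384) (.e (nat_lit 57419) (nat_lit 12) (.e (nat_lit 336075) (nat_lit 9) (.e (nat_lit 336438) (nat_lit 31) .nil))))) .nil)) 
(.lf (nat_lit 199245) (.g (nat_lit 2916) (.e (nat_lit 73731) (nat_lit 0) (.e (nat_lit 7125) (nat_lit 382) (.e (nat_lit 1214) (nat_lit 89) (.e (nat_lit 73754) (nat_lit 8) (.e (nat_lit 557105) (nat_lit 14) (.e (nat_lit 180227) (nat_lit 0) (.e (nat_lit 5814) (nat_lit 320) (.e (nat_lit 1213) (nat_lit 89) .nil)))))))) (.g (nat_lit 5) .nil .nil)))) (.nd (nat_lit 6) 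
(.lf (nat_lit 199213) (.g (nat_lit 453) (.e (nat_lit 73731) (nat_lit 0) (.e (nat_lit 7122) (nat_lit 382) (.e (nat_lit 1294) (nat_lit 96) .nil))) .nil)) 
(.lf (nat_lit 199277) (.g (nat_lit 1144) (.e (nat_lit 73731) (nat_lit 0) (.e (nat_lit 7261) (nat_lit 384) (.e (nat_lit 57347) (nat_lit 0) (.e (nat_lit 2202) (nat_lit 144) .nil)))) .nil)))) (.nd (nat_lit 5) (.nd (nat_lit 6) 
(.lf (nat_lit 199197) (.g (nat_lit 2335) (.e (nat_lit 73731) (nat_lit 0) (.e (nat_lit 4539) (nat_lit 267) (.e (nat_lit 163869) (nat_lit 2) (.e (nat_lit 196656) (nat_lit 11) (.e (nat_lit 16425) (nat_lit 7) .nil))))) .nil)) 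
(.lf (nat_lit 199261) (.g (nat_lit 1948) (.e (nat_lit 73731) (nat_lit 0) (.e (nat_lit 7125) (nat_lit 382) (.e (nat_lit 1224) (nat_lit 90) (.e (nat_lit 81925) (nat_lit 11) (.e (nat_lit 426035) (nat_lit 0) (.e (nat_lit 7936) (nat_lit 407) .nil)))))) (.g (nat_lit 5) .nil .nil)))) (.nd (nat_lit 6) 
(.lf (nat_lit 199229) (.g (nat_lit 1137) (.e (nat_lit 73731) (nat_lit 0) (.e (nat_lit 7124) (nat_lit 382) (.e (nat_lit 1296) (nat_lit 96) (.e (nat_lit 131125) (nat_lit 13) (.e (nat_lit 393231) (nat_lit 17) .nil))))) .nil)) 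
(.lf (nat_lit 199293) (.g (nat_lit 1237) (.e (nat_lit 73731) (nat_lit 0) (.e (nat_lit 7261) (nat_lit 384) (.e (nat_lit 57435) (nat_lit 17) (.e (nat_lit 376840) (nat_lit 11) (.e (nat_lit 425987) (nat_lit 0) (.e (nat_lit 7590) (nat_lit 407) .nil)))))) (.g (nat_lit 4) .nil .nil)))))))) (.nd (nat_lit 2) (.nd (nat_lit 3) (.nd (nat_lit 4) (.nd (nat_lit 5) (.nd (nat_lit 6) 
(.lf (nat_lit 199171) (.g (nat_lit 1713) (.e (nat_lit 73730) (nat_lit 0) (.e (nat_lit 7265) (nat_lit 384) (.e (nat_lit 57424) (nat_lit 14) (.e (nat_lit 352277) (nat_lit 11) (.e (nat_lit 426011) (nat_lit 0) .nil))))) .nil)) 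
(.lf (nat_lit 199235) (.g (nat_lit 2020) (.e (nat_lit 73731) (nat_lit 0) (.e (nat_lit 7125) (nat_lit 382) (.e (nat_lit 1201) (nat_lit 88) (.e (nat_lit 65599) (nat_lit 9) (.e (nat_lit 336417) (nat_lit 27) .nil))))) .nil))) (.nd (nat_lit 6) 
(.lf (nat_lit 199203) (.g (nat_lit 1658) (.e (nat_lit 73731) (nat_lit 0) (.e (nat_lit 7122) (nat_lit 382) (.e (nat_lit 1214) (nat_lit 89) (.e (nat_lit 73754) (nat_lit 8) (.e (nat_lit 557105) (nat_lit 14) .nil))))) .nil)) 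
(.lf (nat_lit 199267) (.g (nat_lit 1797) (.e (nat_lit 73731) (nat_lit 0) (.e (nat_lit 7125) (nat_lit 382) (.e (nat_lit 1296) (nat_lit 96) (.e (nat_lit 131107) (nat_lit 9) (.e (nat_lit 336421) (nat_lit 28) (.e (nat_lit 442112) (nat_lit 5) .nil)))))) (.g (nat_lit 5) .nil .nil))))) (.nd (nat_lit 5) (.nd (nat_lit 6) 
(.lf (nat_lit 199187) (.g (nat_lit 1758) (.e (nat_lit 73730) (nat_lit 0) (.e (nat_lit 7266) (nat_lit 384) (.e (nat_lit 57424) (nat_lit 14) (.e (nat_lit 352272) (nat_lit 10) (.e (nat_lit 417796) (nat_lit 0) (.e (nat_lit 5413) (nat_lit 303) .nil)))))) (.g (nat_lit 5) .nil .nil))) 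
(.lf (nat_lit 199251) (.g (nat_lit 1142) (.e (nat_lit 73731) (nat_lit 0) (.e (nat_lit 7125) (nat_lit 382) (.e (nat_lit 1222) (nat_lit 90) (.e (nat_lit 81927) (nat_lit 11) .nil)))) .nil))) (.nd (nat_lit 6) 
(.lf (nat_lit 199219) (.g (nat_lit 1245) (.e (nat_lit 73731) (nat_lit 0) (.e (nat_lit 7124) (nat_lit 382) (.e (nat_lit 1201) (nat_lit 88) (.e (nat_lit 65626) (nat_lit 13) .nil)))) .nil)) 
(.lf (nat_lit 199283) (.g (nat_lit 1239) (.e (nat_lit 73731) (nat_lit 0) (.e (nat_lit 7261) (nat_lit 384) (.e (nat_lit 57411) (nat_lit 12) (.e (nat_lit 336115) (nat_lit 9) .nil)))) .nil))))) (.nd (nat_lit 4) (.nd (nat_lit 5) (.nd (nat_lit 6) 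
(.lf (nat_lit 199179) (.g (nat_lit 1399) (.e (nat_lit 73730) (nat_lit 0) (.e (nat_lit 7266) (nat_lit 384) (.e (nat_lit 57417) (nat_lit 12) (.e (nat_lit 336118) (nat_lit 9) .nil)))) .nil)) 
(.lf (nat_lit 199243) (.g (nat_lit 3673) (.e (nat_lit 73731) (nat_lit 0) (.e (nat_lit 7125) (nat_lit 382) (.e (nat_lit 1214) (nat_lit 89) (.e (nat_lit 73754) (nat_lit 8) (.e (nat_lit 557105) (nat_lit 14) (.e (nat_lit 180224) (nat_lit 0) (.e (nat_lit 5909) (nat_lit 320) (.e (nat_lit 1211) (nat_lit 89) .nil)))))))) (.g (nat_lit 5) .nil .nil)))) (.nd (nat_lit 6) 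
(.lf (nat_lit 199211) (.g (nat_lit 1296) (.e (nat_lit 73731) (nat_lit 0) (.e (nat_lit 7122) (nat_lit 382) (.e (nat_lit 1224) (nat_lit 90) (.e (nat_lit 81925) (nat_lit 11) (.e (nat_lit 426012) (nat_lit 0) .nil))))) .nil)) 
(.lf (nat_lit 199275) (.g (nat_lit 2925) (.e (nat_lit 73731) (nat_lit 0) (.e (nat_lit 7125) (nat_lit 382) (.e (nat_lit 1296) (nat_lit 96) (.e (nat_lit 131128) (nat_lit 13) (.e (nat_lit 393234) (nat_lit 17) (.e (nat_lit 7591) (nat_lit 407) .nil)))))) (.g (nat_lit 6) .nil .nil))))) (.nd (nat_lit 5) (.nd (nat_lit 6) 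
(.lf (nat_lit 199195) (.g (nat_lit 1569) (.e (nat_lit 73731) (nat_lit 0) (.e (nat_lit 4004) (nat_lit 242) (.e (nat_lit 122916) (nat_lit 14) (.e (nat_lit 352312) (nat_lit 22) (.e (nat_lit 90165) (nat_lit 12) .nil))))) .nil)) 
(.lf (nat_lit 199259) (.g (nat_lit 963) (.e (nat_lit 73731) (nat_lit 0) (.e (nat_lit 7125) (nat_lit 382) (.e (nat_lit 1224) (nat_lit 90) (.e (nat_lit 89856) (nat_lit 0) .nil)))) .nil))) (.nd (nat_lit 6) 
(.lf (nat_lit 199227) (.g (nat_lit 1643) (.e (nat_lit 73731) (nat_lit 0) (.e (nat_lit 7124) (nat_lit 382) (.e (nat_lit 1296) (nat_lit 96) (.e (nat_lit 131107) (nat_lit 9) (.e (nat_lit 336421) (nat_lit 28) (.e (nat_lit 442112) (nat_lit 5) .nil)))))) (.g (nat_lit 4) .nil .nil))) 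
(.lf (nat_lit 199291) (.g (nat_lit 738) (.e (nat_lit 73731) (nat_lit 0) (.e (nat_lit 7261) (nat_lit 384) (.e (nat_lit 57435) (nat_lit 17) (.e (nat_lit 376840) (nat_lit 11) .nil)))) .nil)))))) (.nd (nat_lit 3) (.nd (nat_lit 4) (.nd (nat_lit 5) (.nd (nat_lit 6) 
(.lf (nat_lit 199175) (.g (nat_lit 1020) (.e (nat_lit 73730) (nat_lit 0) (.e (nat_lit 7265) (nat_lit 384) (.e (nat_lit 57436) (nat_lit 17) (.e (nat_lit 376842) (nat_lit 11) .nil)))) .nil)) 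
(.lf (nat_lit 199239) (.g (nat_lit 428) (.e (nat_lit 73731) (nat_lit 0) (.e (nat_lit 7125) (nat_lit 382) (.e (nat_lit 1212) (nat_lit 89) .nil))) .nil))) (.nd (nat_lit 6) 
(.lf (nat_lit 199207) (.g (nat_lit 1194) (.e (nat_lit 73731) (nat_lit 0) (.e (nat_lit 7122) (nat_lit 382) (.e (nat_lit 1222) (nat_lit 90) (.e (nat_lit 89856) (nat_lit 10) .nil)))) .nil)) 
(.lf (nat_lit 199271) (.g (nat_lit 1942) (.e (nat_lit 73731) (nat_lit 0) (.e (nat_lit 7125) (nat_lit 382) (.e (nat_lit 1296) (nat_lit 96) (.e (nat_lit 131109) (nat_lit 9) (.e (nat_lit 336438) (nat_lit 31) (.e (nat_lit 466688) (nat_lit 5) .nil)))))) (.g (nat_lit 5) .nil .nil))))) (.nd (nat_lit 5) (.nd (nat_lit 6) 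
(.lf (nat_lit 199191) (.g (nat_lit 2360) (.e (nat_lit 73730) (nat_lit 0) (.e (nat_lit 7266) (nat_lit 384) (.e (nat_lit 57435) (nat_lit 17) (.e (nat_lit 376842) (nat_lit 11) (.e (nat_lit 426012) (nat_lit 0) .nil))))) .nil)) 
(.lf (nat_lit 199255) (.g (nat_lit 1409) (.e (nat_lit 73731) (nat_lit 0) (.e (nat_lit 7125) (nat_lit 382) (.e (nat_lit 1222) (nat_lit 90) (.e (nat_lit 81927) (nat_lit 11) (.e (nat_lit 426054) (nat_lit 0) .nil))))) .nil))) (.nd (nat_lit 6) 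
(.lf (nat_lit 199223) (.g (nat_lit 1182) (.e (nat_lit 73731) (nat_lit 0) (.e (nat_lit 7124) (nat_lit 382) (.e (nat_lit 1222) (nat_lit 90) (.e (nat_lit 81927) (nat_lit 11) (.e (nat_lit 426010) (nat_lit 0) .nil))))) .nil)) 
(.lf (nat_lit 199287) (.g (nat_lit 1581) (.e (nat_lit 73731) (nat_lit 0) (.e (nat_lit 7261) (nat_lit 384) (.e (nat_lit 57423) (nat_lit 14) (.e (nat_lit 352271) (nat_lit 9) (.e (nat_lit 409602) (nat_lit 0) (.e (nat_lit 5407) (nat_lit 303) .nil)))))) (.g (nat_lit 5) .nil .nil)))))) (.nd (nat_lit 4) (.nd (nat_lit 5) (.nd (nat_lit 6) 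
(.lf (nat_lit 199183) (.g (nat_lit 1093) (.e (nat_lit 73730) (nat_lit 0) (.e (nat_lit 7266) (nat_lit 384) (.e (nat_lit 57419) (nat_lit 12) (.e (nat_lit 336088) (nat_lit 9) .nil)))) .nil)) 
(.lf (nat_lit 199247) (.g (nat_lit 2659) (.e (nat_lit 73731) (nat_lit 0) (.e (nat_lit 7125) (nat_lit 382) (.e (nat_lit 1214) (nat_lit 89) (.e (nat_lit 73754) (nat_lit 8) (.e (nat_lit 557105) (nat_lit 14) (.e (nat_lit 180265) (nat_lit 21) (.e (nat_lit 671488) (nat_lit 5) .nil))))))) (.g (nat_lit 5) .nil .nil)))) (.nd (nat_lit 6) 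
(.lf (nat_lit 199215) (.g (nat_lit 1299) (.e (nat_lit 73731) (nat_lit 0) (.e (nat_lit 7122) (nat_lit 382) (.e (nat_lit 1296) (nat_lit 96) (.e (nat_lit 131126) (nat_lit 13) (.e (nat_lit 393234) (nat_lit 17) .nil))))) .nil)) 
(.lf (nat_lit 199279) (.g (nat_lit 1322) (.e (nat_lit 73731) (nat_lit 0) (.e (nat_lit 7261) (nat_lit 384) (.e (nat_lit 57382) (nat_lit 4) (.e (nat_lit 106517) (nat_lit 9) (.e (nat_lit 1281) (nat_lit 94) (.e (nat_lit 114716) (nat_lit 22) (.e (nat_lit 90181) (nat_lit 16) (.e (nat_lit 237312) (nat_lit 192) .nil)))))))) (.g (nat_lit 6) .nil .nil))))) (.nd (nat_lit 5) (.nd (nat_lit 6) 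
(.lf (nat_lit 199199) (.g (nat_lit 476) (.e (nat_lit 73731) (nat_lit 0) (.e (nat_lit 7122) (nat_lit 382) (.e (nat_lit 1016) (nat_lit 81) .nil))) .nil)) 
(.lf (nat_lit 199263) (.g (nat_lit 1962) (.e (nat_lit 73731) (nat_lit 0) (.e (nat_lit 7125) (nat_lit 382) (.e (nat_lit 1224) (nat_lit 90) (.e (nat_lit 81925) (nat_lit 11) (.e (nat_lit 426052) (nat_lit 0) (.e (nat_lit 7936) (nat_lit 407) .nil)))))) (.g (nat_lit 5) .nil .nil)))) (.nd (nat_lit 6) 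
(.lf (nat_lit 199231) (.g (nat_lit 2052) (.e (nat_lit 73731) (nat_lit 0) (.e (nat_lit 7124) (nat_lit 382) (.e (nat_lit 1296) (nat_lit 96) (.e (nat_lit 131127) (nat_lit 13) (.e (nat_lit 393238) (nat_lit 17) (.e (nat_lit 7936) (nat_lit 407) .nil)))))) (.g (nat_lit 5) .nil .nil))) 
(.lf (nat_lit 199295) (.g (nat_lit 2027) (.e (nat_lit 73731) (nat_lit 0) (.e (nat_lit 7261) (nat_lit 384) (.e (nat_lit 57435) (nat_lit 17) (.e (nat_lit 376842) (nat_lit 11) (.e (nat_lit 426009) (nat_lit 0) (.e (nat_lit 7593) (nat_lit 407) .nil)))))) (.g (nat_lit 4) .nil .nil))))))))))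

noncomputable def tv2634 : DT := (.nd (nat_lit 0) (.nd (nat_lit 1) (.nd (nat_lit 2) (.nd (nat_lit 3) (.nd (nat_lit 4) (.nd (nat_lit 5) 
(.lf (nat_lit 199296) (.g (nat_lit 831) (.e (nat_lit 73731) (nat_lit 0) (.e (nat_lit 7261) (nat_lit 384) (.e (nat_lit 57436) (nat_lit 17) (.e (nat_lit 376840) (nat_lit 11) .nil)))) .nil)) 
(.lf (nat_lit 199328) (.g (nat_lit 1723) (.e (nat_lit 73731) (nat_lit 0) (.e (nat_lit 7265) (nat_lit 384) (.e (nat_lit 57406) (nat_lit 12) (.e (nat_lit 336137) (nat_lit 9) .nil)))) .nil))) (.nd (nat_lit 5) 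
(.lf (nat_lit 199312) (.g (nat_lit 2626) (.e (nat_lit 73731) (nat_lit 0) (.e (nat_lit 7265) (nat_lit 384) (.e (nat_lit 57347) (nat_lit 0) (.e (nat_lit 2031) (nat_lit 140) (.e (nat_lit 688181) (nat_lit 17) (.e (nat_lit 73755) (nat_lit 8) (.e (nat_lit 557089) (nat_lit 12) (.e (nat_lit 171776) (nat_lit 192) .nil)))))))) (.g (nat_lit 5) .nil .nil))) 
(.lf (nat_lit 199344) (.g (nat_lit 1487) (.e (nat_lit 73731) (nat_lit 0) (.e (nat_lit 7265) (nat_lit 384) (.e (nat_lit 57424) (nat_lit 14) (.e (nat_lit 352256) (nat_lit 0) .nil)))) .nil)))) (.nd (nat_lit 4) (.nd (nat_lit 5) 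
(.lf (nat_lit 199304) (.g (nat_lit 1527) (.e (nat_lit 73731) (nat_lit 0) (.e (nat_lit 7263) (nat_lit 384) (.e (nat_lit 57423) (nat_lit 14) (.e (nat_lit 352277) (nat_lit 11) (.e (nat_lit 426010) (nat_lit 0) .nil))))) .nil)) 
(.lf (nat_lit 199336) (.g (nat_lit 1648) (.e (nat_lit 73731) (nat_lit 0) (.e (nat_lit 7265) (nat_lit 384) (.e (nat_lit 57419) (nat_lit 12) (.e (nat_lit 336213) (nat_lit 13) (.e (nat_lit 393234) (nat_lit 17) .nil))))) .nil))) (.nd (nat_lit 5) 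
(.lf (nat_lit 199320) (.g (nat_lit 3009) (.e (nat_lit 73731) (nat_lit 0) (.e (nat_lit 7265) (nat_lit 384) (.e (nat_lit 57347) (nat_lit 0) (.e (nat_lit 2198) (nat_lit 144) (.e (nat_lit 720956) (nat_lit 25) (.e (nat_lit 114716) (nat_lit 22) (.e (nat_lit 90181) (nat_lit 16) (.e (nat_lit 237312) (nat_lit 192) .nil)))))))) (.g (nat_lit 7) .nil .nil))) 
(.lf (nat_lit 199352) (.g (nat_lit 984) (.e (nat_lit 73731) (nat_lit 0) (.e (nat_lit 7265) (nat_lit 384) (.e (nat_lit 57436) (nat_lit 17) (.e (nat_lit 376840) (nat_lit 11) .nil)))) .nil))))) (.nd (nat_lit 3) (.nd (nat_lit 4) (.nd (nat_lit 5) 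
(.lf (nat_lit 199300) (.g (nat_lit 1067) (.e (nat_lit 73731) (nat_lit 0) (.e (nat_lit 7263) (nat_lit 384) (.e (nat_lit 57412) (nat_lit 12) (.e (nat_lit 336212) (nat_lit 13) (.e (nat_lit 393232) (nat_lit 17) .nil))))) .nil)) 
(.lf (nat_lit 199332) (.g (nat_lit 737) (.e (nat_lit 73731) (nat_lit 0) (.e (nat_lit 7265) (nat_lit 384) (.e (nat_lit 57412) (nat_lit 12) (.e (nat_lit 336217) (nat_lit 13) .nil)))) .nil))) (.nd (nat_lit 5) 
(.lf (nat_lit 199316) (.g (nat_lit 1503) (.e (nat_lit 73731) (nat_lit 0) (.e (nat_lit 7265) (nat_lit 384) (.e (nat_lit 57347) (nat_lit 0) (.e (nat_lit 2192) (nat_lit 144) .nil)))) .nil)) 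
(.lf (nat_lit 199348) (.g (nat_lit 2186) (.e (nat_lit 73731) (nat_lit 0) (.e (nat_lit 7265) (nat_lit 384) (.e (nat_lit 57424) (nat_lit 14) (.e (nat_lit 352278) (nat_lit 11) (.e (nat_lit 426035) (nat_lit 0) (.e (nat_lit 7936) (nat_lit 407) .nil)))))) (.g (nat_lit 5) .nil .nil))))) (.nd (nat_lit 4) (.nd (nat_lit 5) 
(.lf (nat_lit 199308) (.g (nat_lit 1490) (.e (nat_lit 73731) (nat_lit 0) (.e (nat_lit 7265) (nat_lit 384) (.e (nat_lit 57347) (nat_lit 0) (.e (nat_lit 2029) (nat_lit 140) .nil)))) .nil)) 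
(.lf (nat_lit 199340) (.g (nat_lit 1695) (.e (nat_lit 73731) (nat_lit 0) (.e (nat_lit 7265) (nat_lit 384) (.e (nat_lit 57423) (nat_lit 14) (.e (nat_lit 352271) (nat_lit 9) (.e (nat_lit 409602) (nat_lit 0) (.e (nat_lit 5411) (nat_lit 303) .nil)))))) (.g (nat_lit 5) .nil .nil)))) (.nd (nat_lit 5) 
(.lf (nat_lit 199324) (.g (nat_lit 2249) (.e (nat_lit 73731) (nat_lit 0) (.e (nat_lit 7265) (nat_lit 384) (.e (nat_lit 57347) (nat_lit 0) (.e (nat_lit 2203) (nat_lit 144) (.e (nat_lit 720955) (nat_lit 25) (.e (nat_lit 114716) (nat_lit 22) (.e (nat_lit 90181) (nat_lit 16) (.e (nat_lit 237312) (nat_lit 192) .nil)))))))) (.g (nat_lit 4) .nil .nil))) 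
(.lf (nat_lit 199356) (.g (nat_lit 2196) (.e (nat_lit 73731) (nat_lit 0) (.e (nat_lit 7265) (nat_lit 384) (.e (nat_lit 57436) (nat_lit 17) (.e (nat_lit 376842) (nat_lit 11) (.e (nat_lit 426010) (nat_lit 0) (.e (nat_lit 7593) (nat_lit 407) .nil)))))) (.g (nat_lit 4) .nil .nil))))))) (.nd (nat_lit 2) (.nd (nat_lit 3) (.nd (nat_lit 4) (.nd (nat_lit 5) 
(.lf (nat_lit 199298) (.g (nat_lit 1136) (.e (nat_lit 73731) (nat_lit 0) (.e (nat_lit 7263) (nat_lit 384) (.e (nat_lit 57409) (nat_lit 12) (.e (nat_lit 336211) (nat_lit 13) (.e (nat_lit 393233) (nat_lit 17) .nil))))) .nil)) 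
(.lf (nat_lit 199330) (.g (nat_lit 1738) (.e (nat_lit 73731) (nat_lit 0) (.e (nat_lit 7265) (nat_lit 384) (.e (nat_lit 57406) (nat_lit 12) (.e (nat_lit 336210) (nat_lit 13) (.e (nat_lit 393233) (nat_lit 17) .nil))))) .nil))) (.nd (nat_lit 5) 
(.lf (nat_lit 199314) (.g (nat_lit 3730) (.e (nat_lit 73731) (nat_lit 0) (.e (nat_lit 7265) (nat_lit 384) (.e (nat_lit 57347) (nat_lit 0) (.e (nat_lit 2031) (nat_lit 140) (.e (nat_lit 688182) (nat_lit 17) (.e (nat_lit 73755) (nat_lit 8) (.e (nat_lit 557090) (nat_lit 12) (.e (nat_lit 171776) (nat_lit 192) .nil)))))))) (.g (nat_lit 6) .nil .nil))) 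
(.lf (nat_lit 199346) (.g (nat_lit 1461) (.e (nat_lit 73731) (nat_lit 0) (.e (nat_lit 7265) (nat_lit 384) (.e (nat_lit 57424) (nat_lit 14) (.e (nat_lit 352274) (nat_lit 11) .nil)))) .nil)))) (.nd (nat_lit 4) (.nd (nat_lit 5) 
(.lf (nat_lit 199306) (.g (nat_lit 906) (.e (nat_lit 73731) (nat_lit 0) (.e (nat_lit 7263) (nat_lit 384) (.e (nat_lit 57424) (nat_lit 14) (.e (nat_lit 352277) (nat_lit 11) .nil)))) .nil)) 
(.lf (nat_lit 199338) (.g (nat_lit 960) (.e (nat_lit 73731) (nat_lit 0) (.e (nat_lit 7265) (nat_lit 384) (.e (nat_lit 57423) (nat_lit 14) (.e (nat_lit 352271) (nat_lit 9) .nil)))) .nil))) (.nd (nat_lit 5) 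
(.lf (nat_lit 199322) (.g (nat_lit 3175) (.e (nat_lit 73731) (nat_lit 0) (.e (nat_lit 7265) (nat_lit 384) (.e (nat_lit 57347) (nat_lit 0) (.e (nat_lit 2202) (nat_lit 144) (.e (nat_lit 720956) (nat_lit 25) (.e (nat_lit 114716) (nat_lit 22) (.e (nat_lit 90181) (nat_lit 16) (.e (nat_lit 237312) (nat_lit 192) .nil)))))))) (.g (nat_lit 7) .nil .nil))) 
(.lf (nat_lit 199354) (.g (nat_lit 1510) (.e (nat_lit 73731) (nat_lit 0) (.e (nat_lit 7265) (nat_lit 384) (.e (nat_lit 57436) (nat_lit 17) (.e (nat_lit 376840) (nat_lit 11) (.e (nat_lit 425989) (nat_lit 0) (.e (nat_lit 7590) (nat_lit 407) .nil)))))) (.g (nat_lit 4) .nil .nil)))))) (.nd (nat_lit 3) (.nd (nat_lit 4) (.nd (nat_lit 5) 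
(.lf (nat_lit 199302) (.g (nat_lit 983) (.e (nat_lit 73731) (nat_lit 0) (.e (nat_lit 7263) (nat_lit 384) (.e (nat_lit 57423) (nat_lit 14) (.e (nat_lit 352276) (nat_lit 11) .nil)))) .nil)) 
(.lf (nat_lit 199334) (.g (nat_lit 421) (.e (nat_lit 73731) (nat_lit 0) (.e (nat_lit 7265) (nat_lit 384) (.e (nat_lit 57419) (nat_lit 12) (.e (nat_lit 336075) (nat_lit 9) .nil)))) .nil))) (.nd (nat_lit 5) 
(.lf (nat_lit 199318) (.g (nat_lit 1373) (.e (nat_lit 73731) (nat_lit 0) (.e (nat_lit 7265) (nat_lit 384) (.e (nat_lit 57347) (nat_lit 0) (.e (nat_lit 2198) (nat_lit 144) .nil)))) .nil)) 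
(.lf (nat_lit 199350) (.g (nat_lit 721) (.e (nat_lit 73731) (nat_lit 0) (.e (nat_lit 7265) (nat_lit 384) (.e (nat_lit 57435) (nat_lit 17) (.e (nat_lit 376840) (nat_lit 11) .nil)))) .nil)))) (.nd (nat_lit 4) (.nd (nat_lit 5) 
(.lf (nat_lit 199310) (.g (nat_lit 1414) (.e (nat_lit 73731) (nat_lit 0) (.e (nat_lit 7265) (nat_lit 384) (.e (nat_lit 57347) (nat_lit 0) (.e (nat_lit 2031) (nat_lit 140) .nil)))) .nil)) 
(.lf (nat_lit 199342) (.g (nat_lit 1506) (.e (nat_lit 73731) (nat_lit 0) (.e (nat_lit 7265) (nat_lit 384) (.e (nat_lit 57423) (nat_lit 14) (.e (nat_lit 352276) (nat_lit 11) (.e (nat_lit 425989) (nat_lit 0) (.e (nat_lit 7590) (nat_lit 407) .nil)))))) (.g (nat_lit 6) .nil .nil)))) (.nd (nat_lit 5) 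
(.lf (nat_lit 199326) (.g (nat_lit 3762) (.e (nat_lit 73731) (nat_lit 0) (.e (nat_lit 7265) (nat_lit 384) (.e (nat_lit 57347) (nat_lit 0) (.e (nat_lit 2203) (nat_lit 144) (.e (nat_lit 720956) (nat_lit 25) (.e (nat_lit 114716) (nat_lit 22) (.e (nat_lit 90181) (nat_lit 16) (.e (nat_lit 237312) (nat_lit 192) .nil)))))))) (.g (nat_lit 7) .nil .nil))) 
(.lf (nat_lit 199358) (.g (nat_lit 1348) (.e (nat_lit 73731) (nat_lit 0) (.e (nat_lit 7266) (nat_lit 384) (.e (nat_lit 57406) (nat_lit 12) (.e (nat_lit 336211) (nat_lit 13) .nil)))) .nil))))))) (.nd (nat_lit 1) (.nd (nat_lit 2) (.nd (nat_lit 3) (.nd (nat_lit 4) (.nd (nat_lit 5) 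
(.lf (nat_lit 199297) (.g (nat_lit 1191) (.e (nat_lit 73731) (nat_lit 0) (.e (nat_lit 7263) (nat_lit 384) (.e (nat_lit 57409) (nat_lit 12) (.e (nat_lit 336211) (nat_lit 13) (.e (nat_lit 393232) (nat_lit 17) .nil))))) .nil)) 
(.lf (nat_lit 199329) (.g (nat_lit 1446) (.e (nat_lit 73731) (nat_lit 0) (.e (nat_lit 7265) (nat_lit 384) (.e (nat_lit 57406) (nat_lit 12) (.e (nat_lit 336210) (nat_lit 13) .nil)))) .nil))) (.nd (nat_lit 5) 
(.lf (nat_lit 199313) (.g (nat_lit 4286) (.e (nat_lit 73731) (nat_lit 0) (.e (nat_lit 7265) (nat_lit 384) (.e (nat_lit 57347) (nat_lit 0) (.e (nat_lit 2031) (nat_lit 140) (.e (nat_lit 688182) (nat_lit 17) (.e (nat_lit 73755) (nat_lit 8) (.e (nat_lit 557089) (nat_lit 12) (.e (nat_lit 171776) (nat_lit 192) .nil)))))))) (.g (nat_lit 7) .nil .nil))) 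
(.lf (nat_lit 199345) (.g (nat_lit 1472) (.e (nat_lit 73731) (nat_lit 0) (.e (nat_lit 7265) (nat_lit 384) (.e (nat_lit 57424) (nat_lit 14) (.e (nat_lit 352273) (nat_lit 11) .nil)))) .nil)))) (.nd (nat_lit 4) (.nd (nat_lit 5) 
(.lf (nat_lit 199305) (.g (nat_lit 908) (.e (nat_lit 73731) (nat_lit 0) (.e (nat_lit 7263) (nat_lit 384) (.e (nat_lit 57424) (nat_lit 14) (.e (nat_lit 352276) (nat_lit 11) .nil)))) .nil)) 
(.lf (nat_lit 199337) (.g (nat_lit 969) (.e (nat_lit 73731) (nat_lit 0) (.e (nat_lit 7265) (nat_lit 384) (.e (nat_lit 57423) (nat_lit 14) (.e (nat_lit 352258) (nat_lit 0) .nil)))) .nil))) (.nd (nat_lit 5) 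
(.lf (nat_lit 199321) (.g (nat_lit 1514) (.e (nat_lit 73731) (nat_lit 0) (.e (nat_lit 7265) (nat_lit 384) (.e (nat_lit 57347) (nat_lit 0) (.e (nat_lit 2202) (nat_lit 144) .nil)))) .nil)) 
(.lf (nat_lit 199353) (.g (nat_lit 1580) (.e (nat_lit 73731) (nat_lit 0) (.e (nat_lit 7265) (nat_lit 384) (.e (nat_lit 57436) (nat_lit 17) (.e (nat_lit 376840) (nat_lit 11) (.e (nat_lit 425984) (nat_lit 0) (.e (nat_lit 7590) (nat_lit 407) .nil)))))) (.g (nat_lit 4) .nil .nil)))))) (.nd (nat_lit 3) (.nd (nat_lit 4) (.nd (nat_lit 5) 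
(.lf (nat_lit 199301) (.g (nat_lit 1023) (.e (nat_lit 73731) (nat_lit 0) (.e (nat_lit 7263) (nat_lit 384) (.e (nat_lit 57423) (nat_lit 14) (.e (nat_lit 352271) (nat_lit 9) .nil)))) .nil)) 
(.lf (nat_lit 199333) (.g (nat_lit 1053) (.e (nat_lit 73731) (nat_lit 0) (.e (nat_lit 7265) (nat_lit 384) (.e (nat_lit 57412) (nat_lit 12) (.e (nat_lit 336219) (nat_lit 13) (.e (nat_lit 393231) (nat_lit 17) .nil))))) .nil))) (.nd (nat_lit 5) 
(.lf (nat_lit 199317) (.g (nat_lit 1677) (.e (nat_lit 73731) (nat_lit 0) (.e (nat_lit 7265) (nat_lit 384) (.e (nat_lit 57347) (nat_lit 0) (.e (nat_lit 2193) (nat_lit 144) (.e (nat_lit 720956) (nat_lit 25) .nil))))) .nil)) 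
(.lf (nat_lit 199349) (.g (nat_lit 1085) (.e (nat_lit 73731) (nat_lit 0) (.e (nat_lit 7265) (nat_lit 384) (.e (nat_lit 57424) (nat_lit 14) (.e (nat_lit 360192) (nat_lit 11) .nil)))) .nil)))) (.nd (nat_lit 4) (.nd (nat_lit 5) 
(.lf (nat_lit 199309) (.g (nat_lit 3727) (.e (nat_lit 73731) (nat_lit 0) (.e (nat_lit 7265) (nat_lit 384) (.e (nat_lit 57347) (nat_lit 0) (.e (nat_lit 2029) (nat_lit 140) (.e (nat_lit 688182) (nat_lit 17) (.e (nat_lit 73755) (nat_lit 8) (.e (nat_lit 557089) (nat_lit 12) (.e (nat_lit 171776) (nat_lit 192) .nil)))))))) (.g (nat_lit 7) .nil .nil))) 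
(.lf (nat_lit 199341) (.g (nat_lit 1603) (.e (nat_lit 73731) (nat_lit 0) (.e (nat_lit 7265) (nat_lit 384) (.e (nat_lit 57423) (nat_lit 14) (.e (nat_lit 352276) (nat_lit 11) (.e (nat_lit 425984) (nat_lit 0) (.e (nat_lit 7590) (nat_lit 407) .nil)))))) (.g (nat_lit 6) .nil .nil)))) (.nd (nat_lit 5) 
(.lf (nat_lit 199325) (.g (nat_lit 1992) (.e (nat_lit 73731) (nat_lit 0) (.e (nat_lit 7265) (nat_lit 384) (.e (nat_lit 57347) (nat_lit 0) (.e (nat_lit 2203) (nat_lit 144) (.e (nat_lit 720956) (nat_lit 25) .nil))))) .nil)) 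
(.lf (nat_lit 199357) (.g (nat_lit 957) (.e (nat_lit 73731) (nat_lit 0) (.e (nat_lit 7266) (nat_lit 384) (.e (nat_lit 57404) (nat_lit 12) (.e (nat_lit 336224) (nat_lit 13) (.e (nat_lit 393233) (nat_lit 17) .nil))))) .nil)))))) (.nd (nat_lit 2) (.nd (nat_lit 3) (.nd (nat_lit 4) (.nd (nat_lit 5) 
(.lf (nat_lit 199299) (.g (nat_lit 657) (.e (nat_lit 73731) (nat_lit 0) (.e (nat_lit 7263) (nat_lit 384) (.e (nat_lit 57412) (nat_lit 12) (.e (nat_lit 336212) (nat_lit 13) .nil)))) .nil)) 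
(.lf (nat_lit 199331) (.g (nat_lit 1944) (.e (nat_lit 73731) (nat_lit 0) (.e (nat_lit 7265) (nat_lit 384) (.e (nat_lit 57406) (nat_lit 12) (.e (nat_lit 336211) (nat_lit 13) (.e (nat_lit 393231) (nat_lit 17) .nil))))) .nil))) (.nd (nat_lit 5) 
(.lf (nat_lit 199315) (.g (nat_lit 3905) (.e (nat_lit 73731) (nat_lit 0) (.e (nat_lit 7265) (nat_lit 384) (.e (nat_lit 57347) (nat_lit 0) (.e (nat_lit 2032) (nat_lit 140) (.e (nat_lit 688182) (nat_lit 17) (.e (nat_lit 73755) (nat_lit 8) (.e (nat_lit 557089) (nat_lit 12) (.e (nat_lit 171776) (nat_lit 192) .nil)))))))) (.g (nat_lit 7) .nil .nil))) 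
(.lf (nat_lit 199347) (.g (nat_lit 1620) (.e (nat_lit 73731) (nat_lit 0) (.e (nat_lit 7265) (nat_lit 384) (.e (nat_lit 57424) (nat_lit 14) (.e (nat_lit 352276) (nat_lit 11) (.e (nat_lit 425989) (nat_lit 0) (.e (nat_lit 7590) (nat_lit 407) .nil)))))) (.g (nat_lit 5) .nil .nil))))) (.nd (nat_lit 4) (.nd (nat_lit 5) 
(.lf (nat_lit 199307) (.g (nat_lit 1368) (.e (nat_lit 73731) (nat_lit 0) (.e (nat_lit 7263) (nat_lit 384) (.e (nat_lit 57424) (nat_lit 14) (.e (nat_lit 352277) (nat_lit 11) (.e (nat_lit 426010) (nat_lit 0) .nil))))) .nil)) 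
(.lf (nat_lit 199339) (.g (nat_lit 1976) (.e (nat_lit 73731) (nat_lit 0) (.e (nat_lit 7265) (nat_lit 384) (.e (nat_lit 57423) (nat_lit 14) (.e (nat_lit 352271) (nat_lit 9) (.e (nat_lit 409602) (nat_lit 0) (.e (nat_lit 5407) (nat_lit 303) .nil)))))) (.g (nat_lit 5) .nil .nil)))) (.nd (nat_lit 5) 
(.lf (nat_lit 199323) (.g (nat_lit 2036) (.e (nat_lit 73731) (nat_lit 0) (.e (nat_lit 7265) (nat_lit 384) (.e (nat_lit 57347) (nat_lit 0) (.e (nat_lit 2203) (nat_lit 144) (.e (nat_lit 720954) (nat_lit 25) .nil))))) .nil)) 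
(.lf (nat_lit 199355) (.g (nat_lit 1978) (.e (nat_lit 73731) (nat_lit 0) (.e (nat_lit 7265) (nat_lit 384) (.e (nat_lit 57436) (nat_lit 17) (.e (nat_lit 376842) (nat_lit 11) (.e (nat_lit 426009) (nat_lit 0) (.e (nat_lit 7593) (nat_lit 407) .nil)))))) (.g (nat_lit 4) .nil .nil)))))) (.nd (nat_lit 3) (.nd (nat_lit 4) (.nd (nat_lit 5) 
(.lf (nat_lit 199303) (.g (nat_lit 1533) (.e (nat_lit 73731) (nat_lit 0) (.e (nat_lit 7263) (nat_lit 384) (.e (nat_lit 57423) (nat_lit 14) (.e (nat_lit 352277) (nat_lit 11) (.e (nat_lit 426009) (nat_lit 0) .nil))))) .nil)) 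
(.lf (nat_lit 199335) (.g (nat_lit 2394) (.e (nat_lit 73731) (nat_lit 0) (.e (nat_lit 7265) (nat_lit 384) (.e (nat_lit 57419) (nat_lit 12) (.e (nat_lit 336213) (nat_lit 13) (.e (nat_lit 393233) (nat_lit 17) (.e (nat_lit 7591) (nat_lit 407) .nil)))))) (.g (nat_lit 6) .nil .nil)))) (.nd (nat_lit 5) 
(.lf (nat_lit 199319) (.g (nat_lit 1976) (.e (nat_lit 73731) (nat_lit 0) (.e (nat_lit 7265) (nat_lit 384) (.e (nat_lit 57347) (nat_lit 0) (.e (nat_lit 2198) (nat_lit 144) (.e (nat_lit 720955) (nat_lit 25) (.e (nat_lit 114716) (nat_lit 22) (.e (nat_lit 90181) (nat_lit 16) (.e (nat_lit 237312) (nat_lit 192) .nil)))))))) (.g (nat_lit 4) .nil .nil))) 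
(.lf (nat_lit 199351) (.g (nat_lit 868) (.e (nat_lit 73731) (nat_lit 0) (.e (nat_lit 7265) (nat_lit 384) (.e (nat_lit 57436) (nat_lit 17) (.e (nat_lit 376838) (nat_lit 11) .nil)))) .nil)))) (.nd (nat_lit 4) (.nd (nat_lit 5) 
(.lf (nat_lit 199311) (.g (nat_lit 2381) (.e (nat_lit 73731) (nat_lit 0) (.e (nat_lit 7265) (nat_lit 384) (.e (nat_lit 57347) (nat_lit 0) (.e (nat_lit 2031) (nat_lit 140) (.e (nat_lit 688180) (nat_lit 17) (.e (nat_lit 73753) (nat_lit 8) (.e (nat_lit 557089) (nat_lit 12) (.e (nat_lit 171776) (nat_lit 192) .nil)))))))) (.g (nat_lit 4) .nil .nil))) 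
(.lf (nat_lit 199343) (.g (nat_lit 2753) (.e (nat_lit 73731) (nat_lit 0) (.e (nat_lit 7265) (nat_lit 384) (.e (nat_lit 57423) (nat_lit 14) (.e (nat_lit 352277) (nat_lit 11) (.e (nat_lit 426012) (nat_lit 0) (.e (nat_lit 7591) (nat_lit 407) .nil)))))) (.g (nat_lit 0) .nil .nil)))) (.nd (nat_lit 5) 
(.lf (nat_lit 199327) (.g (nat_lit 1513) (.e (nat_lit 73731) (nat_lit 0) (.e (nat_lit 7265) (nat_lit 384) (.e (nat_lit 57406) (nat_lit 12) (.e (nat_lit 336019) (nat_lit 3) .nil)))) .nil)) 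
(.lf (nat_lit 199359) (.g (nat_lit 2022) (.e (nat_lit 73731) (nat_lit 0) (.e (nat_lit 7266) (nat_lit 384) (.e (nat_lit 57406) (nat_lit 12) (.e (nat_lit 336211) (nat_lit 13) (.e (nat_lit 393232) (nat_lit 17) .nil))))) .nil))))))))

noncomputable def tv2635 : DT := (.nd (nat_lit 0) (.nd (nat_lit 1) (.nd (nat_lit 2) (.nd (nat_lit 3) (.nd (nat_lit 4) (.nd (nat_lit 5) 
(.lf (nat_lit 199360) (.g (nat_lit 2016) (.e (nat_lit 73731) (nat_lit 0) (.e (nat_lit 7266) (nat_lit 384) (.e (nat_lit 57406) (nat_lit 12) (.e (nat_lit 336211) (nat_lit 13) (.e (nat_lit 393234) (nat_lit 17) .nil))))) .nil)) 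
(.lf (nat_lit 199392) (.g (nat_lit 1803) (.e (nat_lit 73731) (nat_lit 0) (.e (nat_lit 7266) (nat_lit 384) (.e (nat_lit 57424) (nat_lit 14) (.e (nat_lit 352257) (nat_lit 0) .nil)))) .nil))) (.nd (nat_lit 5) 
(.lf (nat_lit 199376) (.g (nat_lit 406) (.e (nat_lit 73731) (nat_lit 0) (.e (nat_lit 7266) (nat_lit 384) (.e (nat_lit 57423) (nat_lit 14) .nil))) .nil)) 
(.lf (nat_lit 199408) (.g (nat_lit 2350) (.e (nat_lit 73731) (nat_lit 0) (.e (nat_lit 7266) (nat_lit 384) (.e (nat_lit 57435) (nat_lit 17) (.e (nat_lit 376842) (nat_lit 11) (.e (nat_lit 426003) (nat_lit 0) (.e (nat_lit 7593) (nat_lit 407) .nil)))))) (.g (nat_lit 4) .nil .nil))))) (.nd (nat_lit 4) (.nd (nat_lit 5) 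
(.lf (nat_lit 199368) (.g (nat_lit 1560) (.e (nat_lit 73731) (nat_lit 0) (.e (nat_lit 7266) (nat_lit 384) (.e (nat_lit 57417) (nat_lit 12) (.e (nat_lit 336209) (nat_lit 13) (.e (nat_lit 393242) (nat_lit 17) (.e (nat_lit 7936) (nat_lit 407) .nil)))))) (.g (nat_lit 5) .nil .nil))) 
(.lf (nat_lit 199400) (.g (nat_lit 2004) (.e (nat_lit 73731) (nat_lit 0) (.e (nat_lit 7266) (nat_lit 384) (.e (nat_lit 57424) (nat_lit 14) (.e (nat_lit 352276) (nat_lit 11) (.e (nat_lit 425987) (nat_lit 0) (.e (nat_lit 7590) (nat_lit 407) .nil)))))) (.g (nat_lit 6) .nil .nil)))) (.nd (nat_lit 5) 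
(.lf (nat_lit 199384) (.g (nat_lit 1395) (.e (nat_lit 73731) (nat_lit 0) (.e (nat_lit 7266) (nat_lit 384) (.e (nat_lit 57423) (nat_lit 14) (.e (nat_lit 352276) (nat_lit 11) .nil)))) .nil)) 
(.lf (nat_lit 199416) (.g (nat_lit 2203) (.e (nat_lit 73731) (nat_lit 0) (.e (nat_lit 7266) (nat_lit 384) (.e (nat_lit 57435) (nat_lit 17) (.e (nat_lit 376842) (nat_lit 11) (.e (nat_lit 426030) (nat_lit 0) (.e (nat_lit 7936) (nat_lit 407) .nil)))))) (.g (nat_lit 4) .nil .nil)))))) (.nd (nat_lit 3) (.nd (nat_lit 4) (.nd (nat_lit 5) 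
(.lf (nat_lit 199364) (.g (nat_lit 1919) (.e (nat_lit 73731) (nat_lit 0) (.e (nat_lit 7266) (nat_lit 384) (.e (nat_lit 57417) (nat_lit 12) (.e (nat_lit 336118) (nat_lit 9) (.e (nat_lit 336437) (nat_lit 31) (.e (nat_lit 466688) (nat_lit 5) .nil)))))) (.g (nat_lit 5) .nil .nil))) 
(.lf (nat_lit 199396) (.g (nat_lit 2140) (.e (nat_lit 73731) (nat_lit 0) (.e (nat_lit 7266) (nat_lit 384) (.e (nat_lit 57424) (nat_lit 14) (.e (nat_lit 352272) (nat_lit 10) (.e (nat_lit 417796) (nat_lit 0) (.e (nat_lit 5413) (nat_lit 303) .nil)))))) (.g (nat_lit 6) .nil .nil)))) (.nd (nat_lit 5) 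
(.lf (nat_lit 199380) (.g (nat_lit 2188) (.e (nat_lit 73731) (nat_lit 0) (.e (nat_lit 7266) (nat_lit 384) (.e (nat_lit 57423) (nat_lit 14) (.e (nat_lit 352271) (nat_lit 9) (.e (nat_lit 409604) (nat_lit 0) (.e (nat_lit 5411) (nat_lit 303) .nil)))))) (.g (nat_lit 6) .nil .nil))) 
(.lf (nat_lit 199412) (.g (nat_lit 2309) (.e (nat_lit 73731) (nat_lit 0) (.e (nat_lit 7266) (nat_lit 384) (.e (nat_lit 57435) (nat_lit 17) (.e (nat_lit 376842) (nat_lit 11) (.e (nat_lit 426016) (nat_lit 0) (.e (nat_lit 7936) (nat_lit 407) .nil)))))) (.g (nat_lit 5) .nil .nil))))) (.nd (nat_lit 4) (.nd (nat_lit 5) 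
(.lf (nat_lit 199372) (.g (nat_lit 1873) (.e (nat_lit 73731) (nat_lit 0) (.e (nat_lit 7266) (nat_lit 384) (.e (nat_lit 57419) (nat_lit 12) (.e (nat_lit 336213) (nat_lit 13) (.e (nat_lit 393231) (nat_lit 17) .nil))))) .nil)) 
(.lf (nat_lit 199404) (.g (nat_lit 943) (.e (nat_lit 73731) (nat_lit 0) (.e (nat_lit 7266) (nat_lit 384) (.e (nat_lit 57425) (nat_lit 14) (.e (nat_lit 352257) (nat_lit 0) .nil)))) .nil))) (.nd (nat_lit 5) 
(.lf (nat_lit 199388) (.g (nat_lit 1906) (.e (nat_lit 73731) (nat_lit 0) (.e (nat_lit 7266) (nat_lit 384) (.e (nat_lit 57423) (nat_lit 14) (.e (nat_lit 352277) (nat_lit 11) (.e (nat_lit 426016) (nat_lit 0) .nil))))) .nil)) 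
(.lf (nat_lit 199420) (.g (nat_lit 2214) (.e (nat_lit 73731) (nat_lit 0) (.e (nat_lit 7266) (nat_lit 384) (.e (nat_lit 57435) (nat_lit 17) (.e (nat_lit 376842) (nat_lit 11) (.e (nat_lit 426053) (nat_lit 0) (.e (nat_lit 7936) (nat_lit 407) .nil)))))) (.g (nat_lit 4) .nil .nil))))))) (.nd (nat_lit 2) (.nd (nat_lit 3) (.nd (nat_lit 4) (.nd (nat_lit 5) 
(.lf (nat_lit 199362) (.g (nat_lit 865) (.e (nat_lit 73731) (nat_lit 0) (.e (nat_lit 7266) (nat_lit 384) (.e (nat_lit 57417) (nat_lit 12) (.e (nat_lit 336116) (nat_lit 9) .nil)))) .nil)) 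
(.lf (nat_lit 199394) (.g (nat_lit 2226) (.e (nat_lit 73731) (nat_lit 0) (.e (nat_lit 7266) (nat_lit 384) (.e (nat_lit 57424) (nat_lit 14) (.e (nat_lit 352272) (nat_lit 10) (.e (nat_lit 417795) (nat_lit 0) (.e (nat_lit 5409) (nat_lit 303) .nil)))))) (.g (nat_lit 0) .nil .nil)))) (.nd (nat_lit 5) 
(.lf (nat_lit 199378) (.g (nat_lit 2454) (.e (nat_lit 73731) (nat_lit 0) (.e (nat_lit 7266) (nat_lit 384) (.e (nat_lit 57423) (nat_lit 14) (.e (nat_lit 352271) (nat_lit 9) (.e (nat_lit 409602) (nat_lit 0) (.e (nat_lit 7936) (nat_lit 303) .nil)))))) (.g (nat_lit 5) .nil .nil))) 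
(.lf (nat_lit 199410) (.g (nat_lit 2208) (.e (nat_lit 73731) (nat_lit 0) (.e (nat_lit 7266) (nat_lit 384) (.e (nat_lit 57435) (nat_lit 17) (.e (nat_lit 376842) (nat_lit 11) (.e (nat_lit 426013) (nat_lit 0) (.e (nat_lit 7936) (nat_lit 407) .nil)))))) (.g (nat_lit 4) .nil .nil))))) (.nd (nat_lit 4) (.nd (nat_lit 5) 
(.lf (nat_lit 199370) (.g (nat_lit 2063) (.e (nat_lit 73731) (nat_lit 0) (.e (nat_lit 7266) (nat_lit 384) (.e (nat_lit 57419) (nat_lit 12) (.e (nat_lit 336076) (nat_lit 9) (.e (nat_lit 336438) (nat_lit 31) (.e (nat_lit 466688) (nat_lit 5) .nil)))))) (.g (nat_lit 5) .nil .nil))) 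
(.lf (nat_lit 199402) (.g (nat_lit 1897) (.e (nat_lit 73731) (nat_lit 0) (.e (nat_lit 7266) (nat_lit 384) (.e (nat_lit 57424) (nat_lit 14) (.e (nat_lit 352278) (nat_lit 11) (.e (nat_lit 426035) (nat_lit 0) .nil))))) .nil))) (.nd (nat_lit 5) 
(.lf (nat_lit 199386) (.g (nat_lit 2208) (.e (nat_lit 73731) (nat_lit 0) (.e (nat_lit 7266) (nat_lit 384) (.e (nat_lit 57423) (nat_lit 14) (.e (nat_lit 352276) (nat_lit 11) (.e (nat_lit 425987) (nat_lit 0) (.e (nat_lit 7590) (nat_lit 407) .nil)))))) (.g (nat_lit 6) .nil .nil))) 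
(.lf (nat_lit 199418) (.g (nat_lit 2111) (.e (nat_lit 73731) (nat_lit 0) (.e (nat_lit 7266) (nat_lit 384) (.e (nat_lit 57435) (nat_lit 17) (.e (nat_lit 376842) (nat_lit 11) (.e (nat_lit 426035) (nat_lit 0) (.e (nat_lit 7936) (nat_lit 407) .nil)))))) (.g (nat_lit 4) .nil .nil)))))) (.nd (nat_lit 3) (.nd (nat_lit 4) (.nd (nat_lit 5) 
(.lf (nat_lit 199366) (.g (nat_lit 2759) (.e (nat_lit 73731) (nat_lit 0) (.e (nat_lit 7266) (nat_lit 384) (.e (nat_lit 57417) (nat_lit 12) (.e (nat_lit 336209) (nat_lit 13) (.e (nat_lit 393233) (nat_lit 17) (.e (nat_lit 7591) (nat_lit 407) .nil)))))) (.g (nat_lit 0) .nil .nil))) 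
(.lf (nat_lit 199398) (.g (nat_lit 1202) (.e (nat_lit 73731) (nat_lit 0) (.e (nat_lit 7266) (nat_lit 384) (.e (nat_lit 57424) (nat_lit 14) (.e (nat_lit 352276) (nat_lit 11) .nil)))) .nil))) (.nd (nat_lit 5) 
(.lf (nat_lit 199382) (.g (nat_lit 2480) (.e (nat_lit 73731) (nat_lit 0) (.e (nat_lit 7266) (nat_lit 384) (.e (nat_lit 57423) (nat_lit 14) (.e (nat_lit 352272) (nat_lit 10) (.e (nat_lit 417796) (nat_lit 0) (.e (nat_lit 5409) (nat_lit 303) .nil)))))) (.g (nat_lit 0) .nil .nil))) 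
(.lf (nat_lit 199414) (.g (nat_lit 2252) (.e (nat_lit 73731) (nat_lit 0) (.e (nat_lit 7266) (nat_lit 384) (.e (nat_lit 57435) (nat_lit 17) (.e (nat_lit 376842) (nat_lit 11) (.e (nat_lit 426028) (nat_lit 0) (.e (nat_lit 7936) (nat_lit 407) .nil)))))) (.g (nat_lit 5) .nil .nil))))) (.nd (nat_lit 4) (.nd (nat_lit 5) 
(.lf (nat_lit 199374) (.g (nat_lit 608) (.e (nat_lit 73731) (nat_lit 0) (.e (nat_lit 7266) (nat_lit 384) (.e (nat_lit 65280) (nat_lit 12) .nil))) .nil)) 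
(.lf (nat_lit 199406) (.g (nat_lit 1247) (.e (nat_lit 73731) (nat_lit 0) (.e (nat_lit 7266) (nat_lit 384) (.e (nat_lit 57435) (nat_lit 17) (.e (nat_lit 376840) (nat_lit 11) (.e (nat_lit 426071) (nat_lit 0) (.e (nat_lit 7936) (nat_lit 407) .nil)))))) (.g (nat_lit 4) .nil .nil)))) (.nd (nat_lit 5) 
(.lf (nat_lit 199390) (.g (nat_lit 1745) (.e (nat_lit 73731) (nat_lit 0) (.e (nat_lit 7266) (nat_lit 384) (.e (nat_lit 57423) (nat_lit 14) (.e (nat_lit 352278) (nat_lit 11) .nil)))) .nil)) 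
(.lf (nat_lit 199422) (.g (nat_lit 2282) (.e (nat_lit 73731) (nat_lit 0) (.e (nat_lit 7266) (nat_lit 384) (.e (nat_lit 57435) (nat_lit 17) (.e (nat_lit 376842) (nat_lit 11) (.e (nat_lit 426070) (nat_lit 0) (.e (nat_lit 7936) (nat_lit 407) .nil)))))) (.g (nat_lit 5) .nil .nil)))))))) (.nd (nat_lit 1) (.nd (nat_lit 2) (.nd (nat_lit 3) (.nd (nat_lit 4) (.nd (nat_lit 5) 
(.lf (nat_lit 199361) (.g (nat_lit 731) (.e (nat_lit 73731) (nat_lit 0) (.e (nat_lit 7266) (nat_lit 384) (.e (nat_lit 57409) (nat_lit 12) (.e (nat_lit 336115) (nat_lit 9) .nil)))) .nil)) 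
(.lf (nat_lit 199393) (.g (nat_lit 1914) (.e (nat_lit 73731) (nat_lit 0) (.e (nat_lit 7266) (nat_lit 384) (.e (nat_lit 57424) (nat_lit 14) (.e (nat_lit 352271) (nat_lit 9) .nil)))) .nil))) (.nd (nat_lit 5) 
(.lf (nat_lit 199377) (.g (nat_lit 1736) (.e (nat_lit 73731) (nat_lit 0) (.e (nat_lit 7266) (nat_lit 384) (.e (nat_lit 57423) (nat_lit 14) (.e (nat_lit 352256) (nat_lit 0) .nil)))) .nil)) 
(.lf (nat_lit 199409) (.g (nat_lit 3063) (.e (nat_lit 73731) (nat_lit 0) (.e (nat_lit 7266) (nat_lit 384) (.e (nat_lit 57435) (nat_lit 17) (.e (nat_lit 376842) (nat_lit 11) (.e (nat_lit 426010) (nat_lit 0) (.e (nat_lit 7593) (nat_lit 407) .nil)))))) (.g (nat_lit 6) .nil .nil))))) (.nd (nat_lit 4) (.nd (nat_lit 5) 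
(.lf (nat_lit 199369) (.g (nat_lit 1735) (.e (nat_lit 73731) (nat_lit 0) (.e (nat_lit 7266) (nat_lit 384) (.e (nat_lit 57419) (nat_lit 12) (.e (nat_lit 336075) (nat_lit 9) (.e (nat_lit 336438) (nat_lit 31) (.e (nat_lit 466688) (nat_lit 5) .nil)))))) (.g (nat_lit 5) .nil .nil))) 
(.lf (nat_lit 199401) (.g (nat_lit 1684) (.e (nat_lit 73731) (nat_lit 0) (.e (nat_lit 7266) (nat_lit 384) (.e (nat_lit 57424) (nat_lit 14) (.e (nat_lit 352277) (nat_lit 11) (.e (nat_lit 426035) (nat_lit 0) .nil))))) .nil))) (.nd (nat_lit 5) 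
(.lf (nat_lit 199385) (.g (nat_lit 2257) (.e (nat_lit 73731) (nat_lit 0) (.e (nat_lit 7266) (nat_lit 384) (.e (nat_lit 57423) (nat_lit 14) (.e (nat_lit 352276) (nat_lit 11) (.e (nat_lit 425984) (nat_lit 0) (.e (nat_lit 7590) (nat_lit 407) .nil)))))) (.g (nat_lit 6) .nil .nil))) 
(.lf (nat_lit 199417) (.g (nat_lit 2498) (.e (nat_lit 73731) (nat_lit 0) (.e (nat_lit 7266) (nat_lit 384) (.e (nat_lit 57435) (nat_lit 17) (.e (nat_lit 376842) (nat_lit 11) (.e (nat_lit 426031) (nat_lit 0) (.e (nat_lit 7936) (nat_lit 407) .nil)))))) (.g (nat_lit 5) .nil .nil)))))) (.nd (nat_lit 3) (.nd (nat_lit 4) (.nd (nat_lit 5) 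
(.lf (nat_lit 199365) (.g (nat_lit 885) (.e (nat_lit 73731) (nat_lit 0) (.e (nat_lit 7266) (nat_lit 384) (.e (nat_lit 57417) (nat_lit 12) (.e (nat_lit 336209) (nat_lit 13) .nil)))) .nil)) 
(.lf (nat_lit 199397) (.g (nat_lit 1957) (.e (nat_lit 73731) (nat_lit 0) (.e (nat_lit 7266) (nat_lit 384) (.e (nat_lit 57424) (nat_lit 14) (.e (nat_lit 352273) (nat_lit 11) .nil)))) .nil))) (.nd (nat_lit 5) 
(.lf (nat_lit 199381) (.g (nat_lit 2188) (.e (nat_lit 73731) (nat_lit 0) (.e (nat_lit 7266) (nat_lit 384) (.e (nat_lit 57423) (nat_lit 14) (.e (nat_lit 352272) (nat_lit 10) (.e (nat_lit 417795) (nat_lit 0) (.e (nat_lit 5409) (nat_lit 303) .nil)))))) (.g (nat_lit 0) .nil .nil))) 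
(.lf (nat_lit 199413) (.g (nat_lit 2448) (.e (nat_lit 73731) (nat_lit 0) (.e (nat_lit 7266) (nat_lit 384) (.e (nat_lit 57435) (nat_lit 17) (.e (nat_lit 376842) (nat_lit 11) (.e (nat_lit 426027) (nat_lit 0) (.e (nat_lit 7936) (nat_lit 407) .nil)))))) (.g (nat_lit 5) .nil .nil))))) (.nd (nat_lit 4) (.nd (nat_lit 5) 
(.lf (nat_lit 199373) (.g (nat_lit 2239) (.e (nat_lit 73731) (nat_lit 0) (.e (nat_lit 7266) (nat_lit 384) (.e (nat_lit 57419) (nat_lit 12) (.e (nat_lit 336213) (nat_lit 13) (.e (nat_lit 393237) (nat_lit 17) .nil))))) .nil)) 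
(.lf (nat_lit 199405) (.g (nat_lit 1364) (.e (nat_lit 73731) (nat_lit 0) (.e (nat_lit 7266) (nat_lit 384) (.e (nat_lit 57435) (nat_lit 17) (.e (nat_lit 376840) (nat_lit 11) (.e (nat_lit 425993) (nat_lit 0) (.e (nat_lit 7936) (nat_lit 407) .nil)))))) (.g (nat_lit 4) .nil .nil)))) (.nd (nat_lit 5) 
(.lf (nat_lit 199389) (.g (nat_lit 1934) (.e (nat_lit 73731) (nat_lit 0) (.e (nat_lit 7266) (nat_lit 384) (.e (nat_lit 57423) (nat_lit 14) (.e (nat_lit 352277) (nat_lit 11) (.e (nat_lit 426035) (nat_lit 0) .nil))))) .nil)) 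
(.lf (nat_lit 199421) (.g (nat_lit 2187) (.e (nat_lit 73731) (nat_lit 0) (.e (nat_lit 7266) (nat_lit 384) (.e (nat_lit 57435) (nat_lit 17) (.e (nat_lit 376842) (nat_lit 11) (.e (nat_lit 426054) (nat_lit 0) (.e (nat_lit 7936) (nat_lit 407) .nil)))))) (.g (nat_lit 4) .nil .nil))))))) (.nd (nat_lit 2) (.nd (nat_lit 3) (.nd (nat_lit 4) (.nd (nat_lit 5) 
(.lf (nat_lit 199363) (.g (nat_lit 2060) (.e (nat_lit 73731) (nat_lit 0) (.e (nat_lit 7266) (nat_lit 384) (.e (nat_lit 57417) (nat_lit 12) (.e (nat_lit 336116) (nat_lit 9) (.e (nat_lit 336437) (nat_lit 31) (.e (nat_lit 466688) (nat_lit 5) .nil)))))) (.g (nat_lit 5) .nil .nil))) 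
(.lf (nat_lit 199395) (.g (nat_lit 2542) (.e (nat_lit 73731) (nat_lit 0) (.e (nat_lit 7266) (nat_lit 384) (.e (nat_lit 57424) (nat_lit 14) (.e (nat_lit 352272) (nat_lit 10) (.e (nat_lit 417796) (nat_lit 0) (.e (nat_lit 5409) (nat_lit 303) .nil)))))) (.g (nat_lit 0) .nil .nil)))) (.nd (nat_lit 5) 
(.lf (nat_lit 199379) (.g (nat_lit 1965) (.e (nat_lit 73731) (nat_lit 0) (.e (nat_lit 7266) (nat_lit 384) (.e (nat_lit 57423) (nat_lit 14) (.e (nat_lit 352271) (nat_lit 9) (.e (nat_lit 409603) (nat_lit 0) (.e (nat_lit 7936) (nat_lit 303) .nil)))))) (.g (nat_lit 5) .nil .nil))) 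
(.lf (nat_lit 199411) (.g (nat_lit 2069) (.e (nat_lit 73731) (nat_lit 0) (.e (nat_lit 7266) (nat_lit 384) (.e (nat_lit 57435) (nat_lit 17) (.e (nat_lit 376842) (nat_lit 11) (.e (nat_lit 426014) (nat_lit 0) (.e (nat_lit 7936) (nat_lit 407) .nil)))))) (.g (nat_lit 5) .nil .nil))))) (.nd (nat_lit 4) (.nd (nat_lit 5) 
(.lf (nat_lit 199371) (.g (nat_lit 1446) (.e (nat_lit 73731) (nat_lit 0) (.e (nat_lit 7266) (nat_lit 384) (.e (nat_lit 57419) (nat_lit 12) (.e (nat_lit 336088) (nat_lit 9) (.e (nat_lit 336438) (nat_lit 31) .nil))))) .nil)) 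
(.lf (nat_lit 199403) (.g (nat_lit 1281) (.e (nat_lit 73731) (nat_lit 0) (.e (nat_lit 7266) (nat_lit 384) (.e (nat_lit 57424) (nat_lit 14) (.e (nat_lit 360192) (nat_lit 11) .nil)))) .nil))) (.nd (nat_lit 5) 
(.lf (nat_lit 199387) (.g (nat_lit 1209) (.e (nat_lit 73731) (nat_lit 0) (.e (nat_lit 7266) (nat_lit 384) (.e (nat_lit 57423) (nat_lit 14) (.e (nat_lit 352277) (nat_lit 11) .nil)))) .nil)) 
(.lf (nat_lit 199419) (.g (nat_lit 2268) (.e (nat_lit 73731) (nat_lit 0) (.e (nat_lit 7266) (nat_lit 384) (.e (nat_lit 57435) (nat_lit 17) (.e (nat_lit 376842) (nat_lit 11) (.e (nat_lit 426051) (nat_lit 0) (.e (nat_lit 7936) (nat_lit 407) .nil)))))) (.g (nat_lit 5) .nil .nil)))))) (.nd (nat_lit 3) (.nd (nat_lit 4) (.nd (nat_lit 5) 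
(.lf (nat_lit 199367) (.g (nat_lit 1614) (.e (nat_lit 73731) (nat_lit 0) (.e (nat_lit 7266) (nat_lit 384) (.e (nat_lit 57417) (nat_lit 12) (.e (nat_lit 336209) (nat_lit 13) (.e (nat_lit 393237) (nat_lit 17) (.e (nat_lit 7936) (nat_lit 407) .nil)))))) (.g (nat_lit 5) .nil .nil))) 
(.lf (nat_lit 199399) (.g (nat_lit 2055) (.e (nat_lit 73731) (nat_lit 0) (.e (nat_lit 7266) (nat_lit 384) (.e (nat_lit 57424) (nat_lit 14) (.e (nat_lit 352276) (nat_lit 11) (.e (nat_lit 425984) (nat_lit 0) (.e (nat_lit 7590) (nat_lit 407) .nil)))))) (.g (nat_lit 6) .nil .nil)))) (.nd (nat_lit 5) 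
(.lf (nat_lit 199383) (.g (nat_lit 2069) (.e (nat_lit 73731) (nat_lit 0) (.e (nat_lit 7266) (nat_lit 384) (.e (nat_lit 57423) (nat_lit 14) (.e (nat_lit 352272) (nat_lit 10) (.e (nat_lit 417796) (nat_lit 0) (.e (nat_lit 5413) (nat_lit 303) .nil)))))) (.g (nat_lit 6) .nil .nil))) 
(.lf (nat_lit 199415) (.g (nat_lit 2258) (.e (nat_lit 73731) (nat_lit 0) (.e (nat_lit 7266) (nat_lit 384) (.e (nat_lit 57435) (nat_lit 17) (.e (nat_lit 376842) (nat_lit 11) (.e (nat_lit 426029) (nat_lit 0) (.e (nat_lit 7936) (nat_lit 407) .nil)))))) (.g (nat_lit 5) .nil .nil))))) (.nd (nat_lit 4) (.nd (nat_lit 5) 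
(.lf (nat_lit 199375) (.g (nat_lit 793) (.e (nat_lit 73731) (nat_lit 0) (.e (nat_lit 7266) (nat_lit 384) (.e (nat_lit 57421) (nat_lit 13) (.e (nat_lit 344117) (nat_lit 21) .nil)))) .nil)) 
(.lf (nat_lit 199407) (.g (nat_lit 1458) (.e (nat_lit 73731) (nat_lit 0) (.e (nat_lit 7266) (nat_lit 384) (.e (nat_lit 57435) (nat_lit 17) (.e (nat_lit 376840) (nat_lit 11) (.e (nat_lit 426072) (nat_lit 0) (.e (nat_lit 7936) (nat_lit 407) .nil)))))) (.g (nat_lit 5) .nil .nil)))) (.nd (nat_lit 5) 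
(.lf (nat_lit 199391) (.g (nat_lit 405) (.e (nat_lit 73731) (nat_lit 0) (.e (nat_lit 7266) (nat_lit 384) (.e (nat_lit 57424) (nat_lit 14) .nil))) .nil)) 
(.lf (nat_lit 199423) (.g (nat_lit 1946) (.e (nat_lit 73731) (nat_lit 0) (.e (nat_lit 7266) (nat_lit 384) (.e (nat_lit 57435) (nat_lit 17) (.e (nat_lit 376842) (nat_lit 11) (.e (nat_lit 426075) (nat_lit 0) .nil))))) .nil))))))))

noncomputable def tv2636 : DT := (.nd (nat_lit 0) (.nd (nat_lit 1) (.nd (nat_lit 2) (.nd (nat_lit 3) (.nd (nat_lit 4) (.nd (nat_lit 5) 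
(.lf (nat_lit 199424) (.g (nat_lit 1464) (.e (nat_lit 73731) (nat_lit 0) (.e (nat_lit 7266) (nat_lit 384) (.e (nat_lit 57436) (nat_lit 17) (.e (nat_lit 376840) (nat_lit 11) (.e (nat_lit 425993) (nat_lit 0) (.e (nat_lit 7936) (nat_lit 407) .nil)))))) (.g (nat_lit 4) .nil .nil))) 
(.lf (nat_lit 199456) (.g (nat_lit 1419) (.e (nat_lit 73732) (nat_lit 0) (.e (nat_lit 5905) (nat_lit 320) (.e (nat_lit 1220) (nat_lit 90) (.e (nat_lit 81959) (nat_lit 24) .nil)))) .nil))) (.nd (nat_lit 5) 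
(.lf (nat_lit 199440) (.g (nat_lit 2135) (.e (nat_lit 73731) (nat_lit 0) (.e (nat_lit 7266) (nat_lit 384) (.e (nat_lit 57436) (nat_lit 17) (.e (nat_lit 376842) (nat_lit 11) (.e (nat_lit 426054) (nat_lit 0) (.e (nat_lit 7936) (nat_lit 407) .nil)))))) (.g (nat_lit 5) .nil .nil))) 
(.lf (nat_lit 199472) (.g (nat_lit 393) (.e (nat_lit 73732) (nat_lit 0) (.e (nat_lit 7270) (nat_lit 385) (.e (nat_lit 122916) (nat_lit 14) .nil))) .nil)))) (.nd (nat_lit 4) (.nd (nat_lit 5) 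
(.lf (nat_lit 199432) (.g (nat_lit 2148) (.e (nat_lit 73731) (nat_lit 0) (.e (nat_lit 7266) (nat_lit 384) (.e (nat_lit 57436) (nat_lit 17) (.e (nat_lit 376842) (nat_lit 11) (.e (nat_lit 426028) (nat_lit 0) (.e (nat_lit 7936) (nat_lit 407) .nil)))))) (.g (nat_lit 5) .nil .nil))) 
(.lf (nat_lit 199464) (.g (nat_lit 2061) (.e (nat_lit 73732) (nat_lit 0) (.e (nat_lit 7147) (nat_lit 382) (.e (nat_lit 1216) (nat_lit 90) (.e (nat_lit 81927) (nat_lit 11) (.e (nat_lit 426012) (nat_lit 0) (.e (nat_lit 7593) (nat_lit 407) .nil)))))) (.g (nat_lit 0) .nil .nil)))) (.nd (nat_lit 5) 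
(.lf (nat_lit 199448) (.g (nat_lit 3460) (.e (nat_lit 73731) (nat_lit 0) (.e (nat_lit 7454) (nat_lit 396) (.e (nat_lit 1220) (nat_lit 90) (.e (nat_lit 81956) (nat_lit 23) (.e (nat_lit 98319) (nat_lit 17) (.e (nat_lit 3453) (nat_lit 216) (.e (nat_lit 688182) (nat_lit 17) .nil))))))) (.g (nat_lit 5) .nil .nil))) 
(.lf (nat_lit 199480) (.g (nat_lit 985) (.e (nat_lit 73732) (nat_lit 0) (.e (nat_lit 7270) (nat_lit 385) (.e (nat_lit 122916) (nat_lit 14) (.e (nat_lit 360192) (nat_lit 9) .nil)))) .nil))))) (.nd (nat_lit 3) (.nd (nat_lit 4) (.nd (nat_lit 5) 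
(.lf (nat_lit 199428) (.g (nat_lit 2156) (.e (nat_lit 73731) (nat_lit 0) (.e (nat_lit 7266) (nat_lit 384) (.e (nat_lit 57436) (nat_lit 17) (.e (nat_lit 376842) (nat_lit 11) (.e (nat_lit 426013) (nat_lit 0) (.e (nat_lit 7936) (nat_lit 407) .nil)))))) (.g (nat_lit 5) .nil .nil))) 
(.lf (nat_lit 199460) (.g (nat_lit 423) (.e (nat_lit 73732) (nat_lit 0) (.e (nat_lit 5907) (nat_lit 320) (.e (nat_lit 1209) (nat_lit 89) .nil))) .nil))) (.nd (nat_lit 5) 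
(.lf (nat_lit 199444) (.g (nat_lit 3200) (.e (nat_lit 73731) (nat_lit 0) (.e (nat_lit 7454) (nat_lit 396) (.e (nat_lit 1190) (nat_lit 88) (.e (nat_lit 65619) (nat_lit 10) (.e (nat_lit 344117) (nat_lit 21) (.e (nat_lit 516097) (nat_lit 0) (.e (nat_lit 3453) (nat_lit 216) (.e (nat_lit 688182) (nat_lit 17) .nil)))))))) (.g (nat_lit 6) .nil .nil))) 
(.lf (nat_lit 199476) (.g (nat_lit 1871) (.e (nat_lit 73732) (nat_lit 0) (.e (nat_lit 7270) (nat_lit 385) (.e (nat_lit 122916) (nat_lit 14) (.e (nat_lit 352258) (nat_lit 0) (.e (nat_lit 7088) (nat_lit 379) (.e (nat_lit 123214) (nat_lit 275) .nil)))))) (.g (nat_lit 6) .nil .nil))))) (.nd (nat_lit 4) (.nd (nat_lit 5) 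
(.lf (nat_lit 199436) (.g (nat_lit 2059) (.e (nat_lit 73731) (nat_lit 0) (.e (nat_lit 7266) (nat_lit 384) (.e (nat_lit 57436) (nat_lit 17) (.e (nat_lit 376842) (nat_lit 11) (.e (nat_lit 426035) (nat_lit 0) (.e (nat_lit 7936) (nat_lit 407) .nil)))))) (.g (nat_lit 4) .nil .nil))) 
(.lf (nat_lit 199468) (.g (nat_lit 943) (.e (nat_lit 73732) (nat_lit 0) (.e (nat_lit 7270) (nat_lit 385) (.e (nat_lit 122905) (nat_lit 12) (.e (nat_lit 336217) (nat_lit 13) .nil)))) .nil))) (.nd (nat_lit 5) 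
(.lf (nat_lit 199452) (.g (nat_lit 3610) (.e (nat_lit 73731) (nat_lit 0) (.e (nat_lit 7454) (nat_lit 396) (.e (nat_lit 1221) (nat_lit 90) (.e (nat_lit 81956) (nat_lit 23) (.e (nat_lit 98334) (nat_lit 18) (.e (nat_lit 164147) (nat_lit 152) (.e (nat_lit 1211) (nat_lit 89) .nil))))))) (.g (nat_lit 5) .nil .nil))) 
(.lf (nat_lit 199484) (.g (nat_lit 985) (.e (nat_lit 73732) (nat_lit 0) (.e (nat_lit 7270) (nat_lit 385) (.e (nat_lit 122916) (nat_lit 14) (.e (nat_lit 360192) (nat_lit 11) .nil)))) .nil)))))) (.nd (nat_lit 2) (.nd (nat_lit 3) (.nd (nat_lit 4) (.nd (nat_lit 5) 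
(.lf (nat_lit 199426) (.g (nat_lit 2291) (.e (nat_lit 73731) (nat_lit 0) (.e (nat_lit 7266) (nat_lit 384) (.e (nat_lit 57436) (nat_lit 17) (.e (nat_lit 376842) (nat_lit 11) (.e (nat_lit 426003) (nat_lit 0) (.e (nat_lit 7593) (nat_lit 407) .nil)))))) (.g (nat_lit 4) .nil .nil))) 
(.lf (nat_lit 199458) (.g (nat_lit 3004) (.e (nat_lit 73732) (nat_lit 0) (.e (nat_lit 5906) (nat_lit 320) (.e (nat_lit 1221) (nat_lit 90) (.e (nat_lit 81959) (nat_lit 24) (.e (nat_lit 123195) (nat_lit 266) (.e (nat_lit 57354) (nat_lit 0) (.e (nat_lit 7936) (nat_lit 348) .nil))))))) (.g (nat_lit 6) .nil .nil)))) (.nd (nat_lit 5) 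
(.lf (nat_lit 199442) (.g (nat_lit 1830) (.e (nat_lit 73731) (nat_lit 0) (.e (nat_lit 7266) (nat_lit 384) (.e (nat_lit 57436) (nat_lit 17) (.e (nat_lit 376842) (nat_lit 11) (.e (nat_lit 426075) (nat_lit 0) .nil))))) .nil)) 
(.lf (nat_lit 199474) (.g (nat_lit 1876) (.e (nat_lit 73732) (nat_lit 0) (.e (nat_lit 7270) (nat_lit 385) (.e (nat_lit 122916) (nat_lit 14) (.e (nat_lit 352257) (nat_lit 0) (.e (nat_lit 7079) (nat_lit 378) (.e (nat_lit 57898) (nat_lit 275) .nil)))))) (.g (nat_lit 6) .nil .nil))))) (.nd (nat_lit 4) (.nd (nat_lit 5) 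
(.lf (nat_lit 199434) (.g (nat_lit 2151) (.e (nat_lit 73731) (nat_lit 0) (.e (nat_lit 7266) (nat_lit 384) (.e (nat_lit 57436) (nat_lit 17) (.e (nat_lit 376842) (nat_lit 11) (.e (nat_lit 426030) (nat_lit 0) (.e (nat_lit 7936) (nat_lit 407) .nil)))))) (.g (nat_lit 5) .nil .nil))) 
(.lf (nat_lit 199466) (.g (nat_lit 2548) (.e (nat_lit 73732) (nat_lit 0) (.e (nat_lit 7147) (nat_lit 382) (.e (nat_lit 1217) (nat_lit 90) (.e (nat_lit 81925) (nat_lit 11) (.e (nat_lit 426011) (nat_lit 0) (.e (nat_lit 7593) (nat_lit 407) .nil)))))) (.g (nat_lit 0) .nil .nil)))) (.nd (nat_lit 5) 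
(.lf (nat_lit 199450) (.g (nat_lit 3387) (.e (nat_lit 73731) (nat_lit 0) (.e (nat_lit 7454) (nat_lit 396) (.e (nat_lit 1220) (nat_lit 90) (.e (nat_lit 81956) (nat_lit 23) (.e (nat_lit 98334) (nat_lit 18) (.e (nat_lit 164147) (nat_lit 152) (.e (nat_lit 1211) (nat_lit 89) .nil))))))) (.g (nat_lit 5) .nil .nil))) 
(.lf (nat_lit 199482) (.g (nat_lit 1499) (.e (nat_lit 73732) (nat_lit 0) (.e (nat_lit 7270) (nat_lit 385) (.e (nat_lit 122916) (nat_lit 14) (.e (nat_lit 352277) (nat_lit 11) (.e (nat_lit 426009) (nat_lit 0) .nil))))) .nil))))) (.nd (nat_lit 3) (.nd (nat_lit 4) (.nd (nat_lit 5) 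
(.lf (nat_lit 199430) (.g (nat_lit 2257) (.e (nat_lit 73731) (nat_lit 0) (.e (nat_lit 7266) (nat_lit 384) (.e (nat_lit 57436) (nat_lit 17) (.e (nat_lit 376842) (nat_lit 11) (.e (nat_lit 426016) (nat_lit 0) (.e (nat_lit 7936) (nat_lit 407) .nil)))))) (.g (nat_lit 5) .nil .nil))) 
(.lf (nat_lit 199462) (.g (nat_lit 2938) (.e (nat_lit 73732) (nat_lit 0) (.e (nat_lit 7147) (nat_lit 382) (.e (nat_lit 1207) (nat_lit 89) (.e (nat_lit 73754) (nat_lit 8) (.e (nat_lit 557105) (nat_lit 14) (.e (nat_lit 180264) (nat_lit 21) (.e (nat_lit 663568) (nat_lit 5) .nil))))))) (.g (nat_lit 6) .nil .nil)))) (.nd (nat_lit 5) 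
(.lf (nat_lit 199446) (.g (nat_lit 3354) (.e (nat_lit 73731) (nat_lit 0) (.e (nat_lit 7454) (nat_lit 396) (.e (nat_lit 1200) (nat_lit 88) (.e (nat_lit 65619) (nat_lit 10) (.e (nat_lit 344117) (nat_lit 21) (.e (nat_lit 516097) (nat_lit 0) (.e (nat_lit 3455) (nat_lit 216) (.e (nat_lit 688181) (nat_lit 17) .nil)))))))) (.g (nat_lit 6) .nil .nil))) 
(.lf (nat_lit 199478) (.g (nat_lit 1183) (.e (nat_lit 73732) (nat_lit 0) (.e (nat_lit 7270) (nat_lit 385) (.e (nat_lit 122916) (nat_lit 14) (.e (nat_lit 352263) (nat_lit 0) .nil)))) .nil)))) (.nd (nat_lit 4) (.nd (nat_lit 5) 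
(.lf (nat_lit 199438) (.g (nat_lit 2216) (.e (nat_lit 73731) (nat_lit 0) (.e (nat_lit 7266) (nat_lit 384) (.e (nat_lit 57436) (nat_lit 17) (.e (nat_lit 376842) (nat_lit 11) (.e (nat_lit 426051) (nat_lit 0) (.e (nat_lit 7936) (nat_lit 407) .nil)))))) (.g (nat_lit 5) .nil .nil))) 
(.lf (nat_lit 199470) (.g (nat_lit 905) (.e (nat_lit 73732) (nat_lit 0) (.e (nat_lit 7270) (nat_lit 385) (.e (nat_lit 122914) (nat_lit 14) (.e (nat_lit 352276) (nat_lit 11) .nil)))) .nil))) (.nd (nat_lit 5) 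
(.lf (nat_lit 199454) (.g (nat_lit 3377) (.e (nat_lit 73732) (nat_lit 0) (.e (nat_lit 5195) (nat_lit 294) (.e (nat_lit 57372) (nat_lit 2) (.e (nat_lit 90160) (nat_lit 11) (.e (nat_lit 24665) (nat_lit 14) (.e (nat_lit 401414) (nat_lit 0) (.e (nat_lit 3579) (nat_lit 223) (.e (nat_lit 745492) (nat_lit 5) .nil)))))))) (.g (nat_lit 4) .nil .nil))) 
(.lf (nat_lit 199486) (.g (nat_lit 1430) (.e (nat_lit 73732) (nat_lit 0) (.e (nat_lit 7270) (nat_lit 385) (.e (nat_lit 122919) (nat_lit 15) (.e (nat_lit 360451) (nat_lit 0) .nil)))) .nil))))))) (.nd (nat_lit 1) (.nd (nat_lit 2) (.nd (nat_lit 3) (.nd (nat_lit 4) (.nd (nat_lit 5) 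
(.lf (nat_lit 199425) (.g (nat_lit 1576) (.e (nat_lit 73731) (nat_lit 0) (.e (nat_lit 7266) (nat_lit 384) (.e (nat_lit 57436) (nat_lit 17) (.e (nat_lit 376840) (nat_lit 11) (.e (nat_lit 426072) (nat_lit 0) (.e (nat_lit 7936) (nat_lit 407) .nil)))))) (.g (nat_lit 5) .nil .nil))) 
(.lf (nat_lit 199457) (.g (nat_lit 2789) (.e (nat_lit 73732) (nat_lit 0) (.e (nat_lit 5905) (nat_lit 320) (.e (nat_lit 1221) (nat_lit 90) (.e (nat_lit 81959) (nat_lit 24) (.e (nat_lit 123195) (nat_lit 266) (.e (nat_lit 57354) (nat_lit 0) (.e (nat_lit 7936) (nat_lit 348) .nil))))))) (.g (nat_lit 4) .nil .nil)))) (.nd (nat_lit 5) 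
(.lf (nat_lit 199441) (.g (nat_lit 2230) (.e (nat_lit 73731) (nat_lit 0) (.e (nat_lit 7266) (nat_lit 384) (.e (nat_lit 57436) (nat_lit 17) (.e (nat_lit 376842) (nat_lit 11) (.e (nat_lit 426070) (nat_lit 0) (.e (nat_lit 7936) (nat_lit 407) .nil)))))) (.g (nat_lit 5) .nil .nil))) 
(.lf (nat_lit 199473) (.g (nat_lit 1882) (.e (nat_lit 73732) (nat_lit 0) (.e (nat_lit 7270) (nat_lit 385) (.e (nat_lit 122916) (nat_lit 14) (.e (nat_lit 352257) (nat_lit 0) (.e (nat_lit 7077) (nat_lit 378) (.e (nat_lit 57898) (nat_lit 275) .nil)))))) (.g (nat_lit 6) .nil .nil))))) (.nd (nat_lit 4) (.nd (nat_lit 5) 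
(.lf (nat_lit 199433) (.g (nat_lit 2206) (.e (nat_lit 73731) (nat_lit 0) (.e (nat_lit 7266) (nat_lit 384) (.e (nat_lit 57436) (nat_lit 17) (.e (nat_lit 376842) (nat_lit 11) (.e (nat_lit 426029) (nat_lit 0) (.e (nat_lit 7936) (nat_lit 407) .nil)))))) (.g (nat_lit 5) .nil .nil))) 
(.lf (nat_lit 199465) (.g (nat_lit 627) (.e (nat_lit 73732) (nat_lit 0) (.e (nat_lit 7147) (nat_lit 382) (.e (nat_lit 1217) (nat_lit 90) (.e (nat_lit 89856) (nat_lit 10) .nil)))) .nil))) (.nd (nat_lit 5) 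
(.lf (nat_lit 199449) (.g (nat_lit 3357) (.e (nat_lit 73731) (nat_lit 0) (.e (nat_lit 7454) (nat_lit 396) (.e (nat_lit 1220) (nat_lit 90) (.e (nat_lit 81956) (nat_lit 23) (.e (nat_lit 98321) (nat_lit 17) (.e (nat_lit 7936) (nat_lit 216) (.e (nat_lit 688181) (nat_lit 17) .nil))))))) (.g (nat_lit 5) .nil .nil))) 
(.lf (nat_lit 199481) (.g (nat_lit 1099) (.e (nat_lit 73732) (nat_lit 0) (.e (nat_lit 7270) (nat_lit 385) (.e (nat_lit 122916) (nat_lit 14) (.e (nat_lit 352276) (nat_lit 11) .nil)))) .nil))))) (.nd (nat_lit 3) (.nd (nat_lit 4) (.nd (nat_lit 5) 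
(.lf (nat_lit 199429) (.g (nat_lit 2019) (.e (nat_lit 73731) (nat_lit 0) (.e (nat_lit 7266) (nat_lit 384) (.e (nat_lit 57436) (nat_lit 17) (.e (nat_lit 376842) (nat_lit 11) (.e (nat_lit 426014) (nat_lit 0) (.e (nat_lit 7936) (nat_lit 407) .nil)))))) (.g (nat_lit 5) .nil .nil))) 
(.lf (nat_lit 199461) (.g (nat_lit 2455) (.e (nat_lit 73732) (nat_lit 0) (.e (nat_lit 5907) (nat_lit 320) (.e (nat_lit 1221) (nat_lit 90) (.e (nat_lit 81959) (nat_lit 24) (.e (nat_lit 123195) (nat_lit 266) .nil))))) .nil))) (.nd (nat_lit 5) 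
(.lf (nat_lit 199445) (.g (nat_lit 3097) (.e (nat_lit 73731) (nat_lit 0) (.e (nat_lit 7454) (nat_lit 396) (.e (nat_lit 1190) (nat_lit 88) (.e (nat_lit 65619) (nat_lit 10) (.e (nat_lit 344117) (nat_lit 21) (.e (nat_lit 516097) (nat_lit 0) (.e (nat_lit 3455) (nat_lit 216) (.e (nat_lit 688181) (nat_lit 17) .nil)))))))) (.g (nat_lit 6) .nil .nil))) 
(.lf (nat_lit 199477) (.g (nat_lit 1886) (.e (nat_lit 73732) (nat_lit 0) (.e (nat_lit 7270) (nat_lit 385) (.e (nat_lit 122916) (nat_lit 14) (.e (nat_lit 352258) (nat_lit 0) (.e (nat_lit 7089) (nat_lit 379) (.e (nat_lit 123214) (nat_lit 275) .nil)))))) (.g (nat_lit 6) .nil .nil))))) (.nd (nat_lit 4) (.nd (nat_lit 5) 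
(.lf (nat_lit 199437) (.g (nat_lit 1830) (.e (nat_lit 73731) (nat_lit 0) (.e (nat_lit 7266) (nat_lit 384) (.e (nat_lit 57436) (nat_lit 17) (.e (nat_lit 376842) (nat_lit 11) (.e (nat_lit 426044) (nat_lit 0) .nil))))) .nil)) 
(.lf (nat_lit 199469) (.g (nat_lit 412) (.e (nat_lit 73732) (nat_lit 0) (.e (nat_lit 7270) (nat_lit 385) (.e (nat_lit 122914) (nat_lit 14) .nil))) .nil))) (.nd (nat_lit 5) 
(.lf (nat_lit 199453) (.g (nat_lit 1919) (.e (nat_lit 73731) (nat_lit 0) (.e (nat_lit 7697) (nat_lit 412) (.e (nat_lit 57388) (nat_lit 5) (.e (nat_lit 114714) (nat_lit 22) (.e (nat_lit 90172) (nat_lit 14) (.e (nat_lit 188160) (nat_lit 0) (.e (nat_lit 5906) (nat_lit 320) (.e (nat_lit 1211) (nat_lit 89) .nil)))))))) (.g (nat_lit 4) .nil .nil))) 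
(.lf (nat_lit 199485) (.g (nat_lit 2336) (.e (nat_lit 73732) (nat_lit 0) (.e (nat_lit 7270) (nat_lit 385) (.e (nat_lit 122916) (nat_lit 14) (.e (nat_lit 352309) (nat_lit 21) (.e (nat_lit 57679) (nat_lit 153) (.e (nat_lit 8202) (nat_lit 0) (.e (nat_lit 5411) (nat_lit 303) .nil))))))) (.g (nat_lit 4) .nil .nil))))))) (.nd (nat_lit 2) (.nd (nat_lit 3) (.nd (nat_lit 4) (.nd (nat_lit 5) 
(.lf (nat_lit 199427) (.g (nat_lit 3012) (.e (nat_lit 73731) (nat_lit 0) (.e (nat_lit 7266) (nat_lit 384) (.e (nat_lit 57436) (nat_lit 17) (.e (nat_lit 376842) (nat_lit 11) (.e (nat_lit 426010) (nat_lit 0) (.e (nat_lit 7593) (nat_lit 407) .nil)))))) (.g (nat_lit 6) .nil .nil))) 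
(.lf (nat_lit 199459) (.g (nat_lit 5379) (.e (nat_lit 73732) (nat_lit 0) (.e (nat_lit 5907) (nat_lit 320) (.e (nat_lit 1181) (nat_lit 87) (.e (nat_lit 57478) (nat_lit 28) (.e (nat_lit 557109) (nat_lit 15) (.e (nat_lit 188449) (nat_lit 22) (.e (nat_lit 196670) (nat_lit 14) .nil))))))) (.g (nat_lit 6) .nil .nil)))) (.nd (nat_lit 5) 
(.lf (nat_lit 199443) (.g (nat_lit 3052) (.e (nat_lit 73731) (nat_lit 0) (.e (nat_lit 7454) (nat_lit 396) (.e (nat_lit 1189) (nat_lit 88) (.e (nat_lit 65619) (nat_lit 10) (.e (nat_lit 344117) (nat_lit 21) (.e (nat_lit 516097) (nat_lit 0) (.e (nat_lit 3454) (nat_lit 216) (.e (nat_lit 688181) (nat_lit 17) .nil)))))))) (.g (nat_lit 6) .nil .nil))) 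
(.lf (nat_lit 199475) (.g (nat_lit 1872) (.e (nat_lit 73732) (nat_lit 0) (.e (nat_lit 7270) (nat_lit 385) (.e (nat_lit 122916) (nat_lit 14) (.e (nat_lit 352257) (nat_lit 0) (.e (nat_lit 7081) (nat_lit 378) (.e (nat_lit 57898) (nat_lit 275) .nil)))))) (.g (nat_lit 6) .nil .nil))))) (.nd (nat_lit 4) (.nd (nat_lit 5) 
(.lf (nat_lit 199435) (.g (nat_lit 2432) (.e (nat_lit 73731) (nat_lit 0) (.e (nat_lit 7266) (nat_lit 384) (.e (nat_lit 57436) (nat_lit 17) (.e (nat_lit 376842) (nat_lit 11) (.e (nat_lit 426031) (nat_lit 0) (.e (nat_lit 7936) (nat_lit 407) .nil)))))) (.g (nat_lit 5) .nil .nil))) 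
(.lf (nat_lit 199467) (.g (nat_lit 2390) (.e (nat_lit 73732) (nat_lit 0) (.e (nat_lit 7147) (nat_lit 382) (.e (nat_lit 1217) (nat_lit 90) (.e (nat_lit 81925) (nat_lit 11) (.e (nat_lit 426012) (nat_lit 0) (.e (nat_lit 7593) (nat_lit 407) .nil)))))) (.g (nat_lit 0) .nil .nil)))) (.nd (nat_lit 5) 
(.lf (nat_lit 199451) (.g (nat_lit 3161) (.e (nat_lit 73731) (nat_lit 0) (.e (nat_lit 7454) (nat_lit 396) (.e (nat_lit 1221) (nat_lit 90) (.e (nat_lit 81956) (nat_lit 23) (.e (nat_lit 98321) (nat_lit 17) (.e (nat_lit 7936) (nat_lit 216) (.e (nat_lit 688182) (nat_lit 17) .nil))))))) (.g (nat_lit 5) .nil .nil))) 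
(.lf (nat_lit 199483) (.g (nat_lit 2058) (.e (nat_lit 73732) (nat_lit 0) (.e (nat_lit 7270) (nat_lit 385) (.e (nat_lit 122916) (nat_lit 14) (.e (nat_lit 352278) (nat_lit 11) (.e (nat_lit 426035) (nat_lit 0) (.e (nat_lit 7936) (nat_lit 407) .nil)))))) (.g (nat_lit 5) .nil .nil)))))) (.nd (nat_lit 3) (.nd (nat_lit 4) (.nd (nat_lit 5) 
(.lf (nat_lit 199431) (.g (nat_lit 2396) (.e (nat_lit 73731) (nat_lit 0) (.e (nat_lit 7266) (nat_lit 384) (.e (nat_lit 57436) (nat_lit 17) (.e (nat_lit 376842) (nat_lit 11) (.e (nat_lit 426027) (nat_lit 0) (.e (nat_lit 7936) (nat_lit 407) .nil)))))) (.g (nat_lit 5) .nil .nil))) 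
(.lf (nat_lit 199463) (.g (nat_lit 2248) (.e (nat_lit 73732) (nat_lit 0) (.e (nat_lit 7147) (nat_lit 382) (.e (nat_lit 1216) (nat_lit 90) (.e (nat_lit 81927) (nat_lit 11) (.e (nat_lit 426011) (nat_lit 0) (.e (nat_lit 7593) (nat_lit 407) .nil)))))) (.g (nat_lit 0) .nil .nil)))) (.nd (nat_lit 5) 
(.lf (nat_lit 199447) (.g (nat_lit 2002) (.e (nat_lit 73731) (nat_lit 0) (.e (nat_lit 7454) (nat_lit 396) (.e (nat_lit 1219) (nat_lit 90) (.e (nat_lit 81954) (nat_lit 23) (.e (nat_lit 98321) (nat_lit 17) (.e (nat_lit 7936) (nat_lit 216) (.e (nat_lit 688181) (nat_lit 17) .nil))))))) (.g (nat_lit 5) .nil .nil))) 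
(.lf (nat_lit 199479) (.g (nat_lit 1928) (.e (nat_lit 73732) (nat_lit 0) (.e (nat_lit 7270) (nat_lit 385) (.e (nat_lit 122916) (nat_lit 14) (.e (nat_lit 352271) (nat_lit 9) (.e (nat_lit 409604) (nat_lit 0) (.e (nat_lit 5411) (nat_lit 303) .nil)))))) (.g (nat_lit 6) .nil .nil))))) (.nd (nat_lit 4) (.nd (nat_lit 5) 
(.lf (nat_lit 199439) (.g (nat_lit 2162) (.e (nat_lit 73731) (nat_lit 0) (.e (nat_lit 7266) (nat_lit 384) (.e (nat_lit 57436) (nat_lit 17) (.e (nat_lit 376842) (nat_lit 11) (.e (nat_lit 426053) (nat_lit 0) (.e (nat_lit 7936) (nat_lit 407) .nil)))))) (.g (nat_lit 5) .nil .nil))) 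
(.lf (nat_lit 199471) (.g (nat_lit 466) (.e (nat_lit 73732) (nat_lit 0) (.e (nat_lit 7270) (nat_lit 385) (.e (nat_lit 122915) (nat_lit 14) .nil))) .nil))) (.nd (nat_lit 5) 
(.lf (nat_lit 199455) (.g (nat_lit 1178) (.e (nat_lit 73732) (nat_lit 0) (.e (nat_lit 5195) (nat_lit 294) (.e (nat_lit 57377) (nat_lit 3) (.e (nat_lit 106240) (nat_lit 11) .nil)))) .nil)) 
(.lf (nat_lit 199487) (.g (nat_lit 2812) (.e (nat_lit 73732) (nat_lit 0) (.e (nat_lit 7270) (nat_lit 385) (.e (nat_lit 122919) (nat_lit 15) (.e (nat_lit 360451) (nat_lit 0) (.e (nat_lit 6923) (nat_lit 371) .nil))))) .nil))))))))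

noncomputable def tv2637 : DT := (.nd (nat_lit 0) (.nd (nat_lit 1) (.nd (nat_lit 2) (.nd (nat_lit 3) (.nd (nat_lit 4) (.nd (nat_lit 5) 
(.lf (nat_lit 199488) (.g (nat_lit 3051) (.e (nat_lit 73732) (nat_lit 0) (.e (nat_lit 7270) (nat_lit 385) (.e (nat_lit 122919) (nat_lit 15) (.e (nat_lit 360451) (nat_lit 0) (.e (nat_lit 6927) (nat_lit 372) .nil))))) .nil)) 
(.lf (nat_lit 199520) (.g (nat_lit 2401) (.e (nat_lit 73732) (nat_lit 0) (.e (nat_lit 7272) (nat_lit 385) (.e (nat_lit 122913) (nat_lit 13) (.e (nat_lit 344130) (nat_lit 26) (.e (nat_lit 557104) (nat_lit 14) (.e (nat_lit 180233) (nat_lit 0) (.e (nat_lit 5815) (nat_lit 320) (.e (nat_lit 1214) (nat_lit 89) .nil)))))))) (.g (nat_lit 5) .nil .nil)))) (.nd (nat_lit 5) 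
(.lf (nat_lit 199504) (.g (nat_lit 1777) (.e (nat_lit 73732) (nat_lit 0) (.e (nat_lit 7271) (nat_lit 385) (.e (nat_lit 122916) (nat_lit 14) (.e (nat_lit 352257) (nat_lit 0) (.e (nat_lit 7077) (nat_lit 378) (.e (nat_lit 57898) (nat_lit 275) .nil)))))) (.g (nat_lit 6) .nil .nil))) 
(.lf (nat_lit 199536) (.g (nat_lit 1925) (.e (nat_lit 73732) (nat_lit 0) (.e (nat_lit 7272) (nat_lit 385) (.e (nat_lit 122916) (nat_lit 14) (.e (nat_lit 352278) (nat_lit 11) (.e (nat_lit 426035) (nat_lit 0) (.e (nat_lit 7936) (nat_lit 407) .nil)))))) (.g (nat_lit 5) .nil .nil))))) (.nd (nat_lit 4) (.nd (nat_lit 5) 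
(.lf (nat_lit 199496) (.g (nat_lit 1612) (.e (nat_lit 73732) (nat_lit 0) (.e (nat_lit 7271) (nat_lit 385) (.e (nat_lit 122914) (nat_lit 14) (.e (nat_lit 352271) (nat_lit 9) (.e (nat_lit 409605) (nat_lit 0) (.e (nat_lit 5411) (nat_lit 303) .nil)))))) (.g (nat_lit 0) .nil .nil))) 
(.lf (nat_lit 199528) (.g (nat_lit 1777) (.e (nat_lit 73732) (nat_lit 0) (.e (nat_lit 7272) (nat_lit 385) (.e (nat_lit 122916) (nat_lit 14) (.e (nat_lit 352257) (nat_lit 0) (.e (nat_lit 7079) (nat_lit 378) (.e (nat_lit 57898) (nat_lit 275) .nil)))))) (.g (nat_lit 6) .nil .nil)))) (.nd (nat_lit 5) 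
(.lf (nat_lit 199512) (.g (nat_lit 1650) (.e (nat_lit 73732) (nat_lit 0) (.e (nat_lit 7271) (nat_lit 385) (.e (nat_lit 122916) (nat_lit 14) (.e (nat_lit 352271) (nat_lit 9) (.e (nat_lit 409604) (nat_lit 0) (.e (nat_lit 5411) (nat_lit 303) .nil)))))) (.g (nat_lit 5) .nil .nil))) 
(.lf (nat_lit 199544) (.g (nat_lit 1243) (.e (nat_lit 73732) (nat_lit 0) (.e (nat_lit 7273) (nat_lit 385) (.e (nat_lit 122914) (nat_lit 14) (.e (nat_lit 352276) (nat_lit 11) (.e (nat_lit 425989) (nat_lit 0) (.e (nat_lit 7592) (nat_lit 407) .nil)))))) (.g (nat_lit 0) .nil .nil)))))) (.nd (nat_lit 3) (.nd (nat_lit 4) (.nd (nat_lit 5) 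
(.lf (nat_lit 199492) (.g (nat_lit 2681) (.e (nat_lit 73732) (nat_lit 0) (.e (nat_lit 7270) (nat_lit 385) (.e (nat_lit 122919) (nat_lit 15) (.e (nat_lit 360451) (nat_lit 0) (.e (nat_lit 7265) (nat_lit 384) (.e (nat_lit 57354) (nat_lit 0) (.e (nat_lit 7936) (nat_lit 348) .nil))))))) (.g (nat_lit 5) .nil .nil))) 
(.lf (nat_lit 199524) (.g (nat_lit 588) (.e (nat_lit 73732) (nat_lit 0) (.e (nat_lit 7272) (nat_lit 385) (.e (nat_lit 122914) (nat_lit 14) (.e (nat_lit 360192) (nat_lit 10) .nil)))) .nil))) (.nd (nat_lit 5) 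
(.lf (nat_lit 199508) (.g (nat_lit 1637) (.e (nat_lit 73732) (nat_lit 0) (.e (nat_lit 7271) (nat_lit 385) (.e (nat_lit 122916) (nat_lit 14) (.e (nat_lit 352258) (nat_lit 0) (.e (nat_lit 7088) (nat_lit 379) (.e (nat_lit 123214) (nat_lit 275) .nil)))))) (.g (nat_lit 5) .nil .nil))) 
(.lf (nat_lit 199540) (.g (nat_lit 657) (.e (nat_lit 73732) (nat_lit 0) (.e (nat_lit 7273) (nat_lit 385) (.e (nat_lit 122909) (nat_lit 12) (.e (nat_lit 336119) (nat_lit 9) (.e (nat_lit 336437) (nat_lit 31) (.e (nat_lit 466688) (nat_lit 5) .nil)))))) (.g (nat_lit 4) .nil .nil))))) (.nd (nat_lit 4) (.nd (nat_lit 5) 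
(.lf (nat_lit 199500) (.g (nat_lit 666) (.e (nat_lit 73732) (nat_lit 0) (.e (nat_lit 7271) (nat_lit 385) (.e (nat_lit 122914) (nat_lit 14) (.e (nat_lit 360192) (nat_lit 10) .nil)))) .nil)) 
(.lf (nat_lit 199532) (.g (nat_lit 1715) (.e (nat_lit 73732) (nat_lit 0) (.e (nat_lit 7272) (nat_lit 385) (.e (nat_lit 122916) (nat_lit 14) (.e (nat_lit 352271) (nat_lit 9) (.e (nat_lit 409604) (nat_lit 0) (.e (nat_lit 5411) (nat_lit 303) .nil)))))) (.g (nat_lit 5) .nil .nil)))) (.nd (nat_lit 5) 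
(.lf (nat_lit 199516) (.g (nat_lit 1424) (.e (nat_lit 73732) (nat_lit 0) (.e (nat_lit 7271) (nat_lit 385) (.e (nat_lit 122916) (nat_lit 14) (.e (nat_lit 352277) (nat_lit 11) (.e (nat_lit 426009) (nat_lit 0) .nil))))) .nil)) 
(.lf (nat_lit 199548) (.g (nat_lit 2692) (.e (nat_lit 73732) (nat_lit 0) (.e (nat_lit 7273) (nat_lit 385) (.e (nat_lit 122916) (nat_lit 14) (.e (nat_lit 352277) (nat_lit 11) (.e (nat_lit 426012) (nat_lit 0) (.e (nat_lit 7593) (nat_lit 407) .nil)))))) (.g (nat_lit 0) .nil .nil))))))) (.nd (nat_lit 2) (.nd (nat_lit 3) (.nd (nat_lit 4) (.nd (nat_lit 5) 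
(.lf (nat_lit 199490) (.g (nat_lit 2994) (.e (nat_lit 73732) (nat_lit 0) (.e (nat_lit 7270) (nat_lit 385) (.e (nat_lit 122919) (nat_lit 15) (.e (nat_lit 360451) (nat_lit 0) (.e (nat_lit 7247) (nat_lit 383) .nil))))) .nil)) 
(.lf (nat_lit 199522) (.g (nat_lit 1582) (.e (nat_lit 73732) (nat_lit 0) (.e (nat_lit 7272) (nat_lit 385) (.e (nat_lit 122914) (nat_lit 14) (.e (nat_lit 352258) (nat_lit 0) (.e (nat_lit 7089) (nat_lit 379) (.e (nat_lit 123214) (nat_lit 275) .nil)))))) (.g (nat_lit 0) .nil .nil)))) (.nd (nat_lit 5) 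
(.lf (nat_lit 199506) (.g (nat_lit 1789) (.e (nat_lit 73732) (nat_lit 0) (.e (nat_lit 7271) (nat_lit 385) (.e (nat_lit 122916) (nat_lit 14) (.e (nat_lit 352257) (nat_lit 0) (.e (nat_lit 7081) (nat_lit 378) (.e (nat_lit 57898) (nat_lit 275) .nil)))))) (.g (nat_lit 6) .nil .nil))) 
(.lf (nat_lit 199538) (.g (nat_lit 2184) (.e (nat_lit 73732) (nat_lit 0) (.e (nat_lit 7272) (nat_lit 385) (.e (nat_lit 122916) (nat_lit 14) (.e (nat_lit 352309) (nat_lit 21) (.e (nat_lit 57679) (nat_lit 153) (.e (nat_lit 8202) (nat_lit 0) (.e (nat_lit 5411) (nat_lit 303) .nil))))))) (.g (nat_lit 4) .nil .nil))))) (.nd (nat_lit 4) (.nd (nat_lit 5) 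
(.lf (nat_lit 199498) (.g (nat_lit 2433) (.e (nat_lit 73732) (nat_lit 0) (.e (nat_lit 7271) (nat_lit 385) (.e (nat_lit 122914) (nat_lit 14) (.e (nat_lit 352272) (nat_lit 10) (.e (nat_lit 417795) (nat_lit 0) (.e (nat_lit 5412) (nat_lit 303) .nil)))))) (.g (nat_lit 0) .nil .nil))) 
(.lf (nat_lit 199530) (.g (nat_lit 2073) (.e (nat_lit 73732) (nat_lit 0) (.e (nat_lit 7272) (nat_lit 385) (.e (nat_lit 122916) (nat_lit 14) (.e (nat_lit 352271) (nat_lit 9) (.e (nat_lit 409602) (nat_lit 0) (.e (nat_lit 5411) (nat_lit 303) .nil)))))) (.g (nat_lit 5) .nil .nil)))) (.nd (nat_lit 5) 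
(.lf (nat_lit 199514) (.g (nat_lit 2631) (.e (nat_lit 73732) (nat_lit 0) (.e (nat_lit 7271) (nat_lit 385) (.e (nat_lit 122916) (nat_lit 14) (.e (nat_lit 352272) (nat_lit 10) (.e (nat_lit 417795) (nat_lit 0) (.e (nat_lit 5412) (nat_lit 303) .nil)))))) (.g (nat_lit 0) .nil .nil))) 
(.lf (nat_lit 199546) (.g (nat_lit 1038) (.e (nat_lit 73732) (nat_lit 0) (.e (nat_lit 7273) (nat_lit 385) (.e (nat_lit 122916) (nat_lit 14) (.e (nat_lit 352272) (nat_lit 10) (.e (nat_lit 417796) (nat_lit 0) (.e (nat_lit 5413) (nat_lit 303) .nil)))))) (.g (nat_lit 4) .nil .nil)))))) (.nd (nat_lit 3) (.nd (nat_lit 4) (.nd (nat_lit 5) 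
(.lf (nat_lit 199494) (.g (nat_lit 469) (.e (nat_lit 73732) (nat_lit 0) (.e (nat_lit 7270) (nat_lit 385) (.e (nat_lit 122921) (nat_lit 17) .nil))) .nil)) 
(.lf (nat_lit 199526) (.g (nat_lit 1483) (.e (nat_lit 73732) (nat_lit 0) (.e (nat_lit 7272) (nat_lit 385) (.e (nat_lit 122915) (nat_lit 14) (.e (nat_lit 352272) (nat_lit 10) (.e (nat_lit 417793) (nat_lit 0) (.e (nat_lit 5412) (nat_lit 303) .nil)))))) (.g (nat_lit 6) .nil .nil)))) (.nd (nat_lit 5) 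
(.lf (nat_lit 199510) (.g (nat_lit 2009) (.e (nat_lit 73732) (nat_lit 0) (.e (nat_lit 7271) (nat_lit 385) (.e (nat_lit 122916) (nat_lit 14) (.e (nat_lit 352271) (nat_lit 9) (.e (nat_lit 409602) (nat_lit 0) (.e (nat_lit 5411) (nat_lit 303) .nil)))))) (.g (nat_lit 5) .nil .nil))) 
(.lf (nat_lit 199542) (.g (nat_lit 901) (.e (nat_lit 73732) (nat_lit 0) (.e (nat_lit 7273) (nat_lit 385) (.e (nat_lit 122914) (nat_lit 14) (.e (nat_lit 352272) (nat_lit 10) (.e (nat_lit 417796) (nat_lit 0) (.e (nat_lit 5413) (nat_lit 303) .nil)))))) (.g (nat_lit 4) .nil .nil))))) (.nd (nat_lit 4) (.nd (nat_lit 5) 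
(.lf (nat_lit 199502) (.g (nat_lit 1241) (.e (nat_lit 73732) (nat_lit 0) (.e (nat_lit 7271) (nat_lit 385) (.e (nat_lit 122914) (nat_lit 14) (.e (nat_lit 352277) (nat_lit 11) (.e (nat_lit 426009) (nat_lit 0) .nil))))) .nil)) 
(.lf (nat_lit 199534) (.g (nat_lit 2493) (.e (nat_lit 73732) (nat_lit 0) (.e (nat_lit 7272) (nat_lit 385) (.e (nat_lit 122916) (nat_lit 14) (.e (nat_lit 352272) (nat_lit 10) (.e (nat_lit 417795) (nat_lit 0) (.e (nat_lit 5412) (nat_lit 303) .nil)))))) (.g (nat_lit 0) .nil .nil)))) (.nd (nat_lit 5) 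
(.lf (nat_lit 199518) (.g (nat_lit 973) (.e (nat_lit 73732) (nat_lit 0) (.e (nat_lit 7271) (nat_lit 385) (.e (nat_lit 122916) (nat_lit 14) (.e (nat_lit 360192) (nat_lit 11) .nil)))) .nil)) 
(.lf (nat_lit 199550) (.g (nat_lit 2612) (.e (nat_lit 73733) (nat_lit 0) (.e (nat_lit 5906) (nat_lit 320) (.e (nat_lit 1221) (nat_lit 90) (.e (nat_lit 81959) (nat_lit 24) (.e (nat_lit 123195) (nat_lit 266) (.e (nat_lit 57354) (nat_lit 0) (.e (nat_lit 7936) (nat_lit 348) .nil))))))) (.g (nat_lit 5) .nil .nil)))))))) 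
(.nd (nat_lit 1) (.nd (nat_lit 2) (.nd (nat_lit 3) (.nd (nat_lit 4) (.nd (nat_lit 5) 
(.lf (nat_lit 199489) (.g (nat_lit 3001) (.e (nat_lit 73732) (nat_lit 0) (.e (nat_lit 7270) (nat_lit 385) (.e (nat_lit 122919) (nat_lit 15) (.e (nat_lit 360451) (nat_lit 0) (.e (nat_lit 6940) (nat_lit 375) .nil))))) .nil)) 
(.lf (nat_lit 199521) (.g (nat_lit 1513) (.e (nat_lit 73732) (nat_lit 0) (.e (nat_lit 7272) (nat_lit 385) (.e (nat_lit 122914) (nat_lit 14) (.e (nat_lit 352258) (nat_lit 0) (.e (nat_lit 7086) (nat_lit 379) (.e (nat_lit 123214) (nat_lit 275) .nil)))))) (.g (nat_lit 0) .nil .nil)))) (.nd (nat_lit 5) 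
(.lf (nat_lit 199505) (.g (nat_lit 1781) (.e (nat_lit 73732) (nat_lit 0) (.e (nat_lit 7271) (nat_lit 385) (.e (nat_lit 122916) (nat_lit 14) (.e (nat_lit 352257) (nat_lit 0) (.e (nat_lit 7079) (nat_lit 378) (.e (nat_lit 57898) (nat_lit 275) .nil)))))) (.g (nat_lit 6) .nil .nil))) 
(.lf (nat_lit 199537) (.g (nat_lit 993) (.e (nat_lit 73732) (nat_lit 0) (.e (nat_lit 7272) (nat_lit 385) (.e (nat_lit 122916) (nat_lit 14) (.e (nat_lit 360192) (nat_lit 11) .nil)))) .nil)))) (.nd (nat_lit 4) (.nd (nat_lit 5) 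
(.lf (nat_lit 199497) (.g (nat_lit 2039) (.e (nat_lit 73732) (nat_lit 0) (.e (nat_lit 7271) (nat_lit 385) (.e (nat_lit 122914) (nat_lit 14) (.e (nat_lit 352272) (nat_lit 10) (.e (nat_lit 417793) (nat_lit 0) (.e (nat_lit 5412) (nat_lit 303) .nil)))))) (.g (nat_lit 0) .nil .nil))) 
(.lf (nat_lit 199529) (.g (nat_lit 1778) (.e (nat_lit 73732) (nat_lit 0) (.e (nat_lit 7272) (nat_lit 385) (.e (nat_lit 122916) (nat_lit 14) (.e (nat_lit 352257) (nat_lit 0) (.e (nat_lit 7081) (nat_lit 378) (.e (nat_lit 57898) (nat_lit 275) .nil)))))) (.g (nat_lit 6) .nil .nil)))) (.nd (nat_lit 5) 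
(.lf (nat_lit 199513) (.g (nat_lit 973) (.e (nat_lit 73732) (nat_lit 0) (.e (nat_lit 7271) (nat_lit 385) (.e (nat_lit 122916) (nat_lit 14) (.e (nat_lit 360192) (nat_lit 9) .nil)))) .nil)) 
(.lf (nat_lit 199545) (.g (nat_lit 2667) (.e (nat_lit 73732) (nat_lit 0) (.e (nat_lit 7273) (nat_lit 385) (.e (nat_lit 122914) (nat_lit 14) (.e (nat_lit 352277) (nat_lit 11) (.e (nat_lit 426012) (nat_lit 0) (.e (nat_lit 7593) (nat_lit 407) .nil)))))) (.g (nat_lit 0) .nil .nil)))))) (.nd (nat_lit 3) (.nd (nat_lit 4) (.nd (nat_lit 5) 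
(.lf (nat_lit 199493) (.g (nat_lit 2275) (.e (nat_lit 73732) (nat_lit 0) (.e (nat_lit 7270) (nat_lit 385) (.e (nat_lit 122919) (nat_lit 15) (.e (nat_lit 360487) (nat_lit 19) .nil)))) .nil)) 
(.lf (nat_lit 199525) (.g (nat_lit 775) (.e (nat_lit 73732) (nat_lit 0) (.e (nat_lit 7272) (nat_lit 385) (.e (nat_lit 122914) (nat_lit 14) (.e (nat_lit 352276) (nat_lit 11) .nil)))) .nil))) (.nd (nat_lit 5) 
(.lf (nat_lit 199509) (.g (nat_lit 1652) (.e (nat_lit 73732) (nat_lit 0) (.e (nat_lit 7271) (nat_lit 385) (.e (nat_lit 122916) (nat_lit 14) (.e (nat_lit 352258) (nat_lit 0) (.e (nat_lit 7089) (nat_lit 379) (.e (nat_lit 123214) (nat_lit 275) .nil)))))) (.g (nat_lit 5) .nil .nil))) 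
(.lf (nat_lit 199541) (.g (nat_lit 1235) (.e (nat_lit 73732) (nat_lit 0) (.e (nat_lit 7273) (nat_lit 385) (.e (nat_lit 122914) (nat_lit 14) (.e (nat_lit 352258) (nat_lit 0) (.e (nat_lit 7089) (nat_lit 379) (.e (nat_lit 123214) (nat_lit 275) .nil)))))) (.g (nat_lit 0) .nil .nil))))) (.nd (nat_lit 4) (.nd (nat_lit 5) 
(.lf (nat_lit 199501) (.g (nat_lit 850) (.e (nat_lit 73732) (nat_lit 0) (.e (nat_lit 7271) (nat_lit 385) (.e (nat_lit 122914) (nat_lit 14) (.e (nat_lit 352276) (nat_lit 11) .nil)))) .nil)) 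
(.lf (nat_lit 199533) (.g (nat_lit 993) (.e (nat_lit 73732) (nat_lit 0) (.e (nat_lit 7272) (nat_lit 385) (.e (nat_lit 122916) (nat_lit 14) (.e (nat_lit 360192) (nat_lit 9) .nil)))) .nil))) (.nd (nat_lit 5) 
(.lf (nat_lit 199517) (.g (nat_lit 1938) (.e (nat_lit 73732) (nat_lit 0) (.e (nat_lit 7271) (nat_lit 385) (.e (nat_lit 122916) (nat_lit 14) (.e (nat_lit 352278) (nat_lit 11) (.e (nat_lit 426035) (nat_lit 0) (.e (nat_lit 7936) (nat_lit 407) .nil)))))) (.g (nat_lit 5) .nil .nil))) 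
(.lf (nat_lit 199549) (.g (nat_lit 2418) (.e (nat_lit 73733) (nat_lit 0) (.e (nat_lit 5905) (nat_lit 320) (.e (nat_lit 1221) (nat_lit 90) (.e (nat_lit 81959) (nat_lit 24) (.e (nat_lit 123195) (nat_lit 266) .nil))))) .nil)))))) (.nd (nat_lit 2) (.nd (nat_lit 3) (.nd (nat_lit 4) (.nd (nat_lit 5) 
(.lf (nat_lit 199491) (.g (nat_lit 2054) (.e (nat_lit 73732) (nat_lit 0) (.e (nat_lit 7270) (nat_lit 385) (.e (nat_lit 122919) (nat_lit 15) (.e (nat_lit 360451) (nat_lit 0) (.e (nat_lit 7261) (nat_lit 384) .nil))))) .nil)) 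
(.lf (nat_lit 199523) (.g (nat_lit 2361) (.e (nat_lit 73732) (nat_lit 0) (.e (nat_lit 7272) (nat_lit 385) (.e (nat_lit 122914) (nat_lit 14) (.e (nat_lit 352272) (nat_lit 10) (.e (nat_lit 417795) (nat_lit 0) (.e (nat_lit 5412) (nat_lit 303) .nil)))))) (.g (nat_lit 0) .nil .nil)))) (.nd (nat_lit 5) 
(.lf (nat_lit 199507) (.g (nat_lit 1631) (.e (nat_lit 73732) (nat_lit 0) (.e (nat_lit 7271) (nat_lit 385) (.e (nat_lit 122916) (nat_lit 14) (.e (nat_lit 352258) (nat_lit 0) (.e (nat_lit 7087) (nat_lit 379) (.e (nat_lit 123214) (nat_lit 275) .nil)))))) (.g (nat_lit 5) .nil .nil))) 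
(.lf (nat_lit 199539) (.g (nat_lit 342) (.e (nat_lit 73732) (nat_lit 0) (.e (nat_lit 7272) (nat_lit 385) (.e (nat_lit 122921) (nat_lit 17) .nil))) .nil)))) (.nd (nat_lit 4) (.nd (nat_lit 5) 
(.lf (nat_lit 199499) (.g (nat_lit 2374) (.e (nat_lit 73732) (nat_lit 0) (.e (nat_lit 7271) (nat_lit 385) (.e (nat_lit 122914) (nat_lit 14) (.e (nat_lit 352272) (nat_lit 10) (.e (nat_lit 417796) (nat_lit 0) (.e (nat_lit 5412) (nat_lit 303) .nil)))))) (.g (nat_lit 0) .nil .nil))) 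
(.lf (nat_lit 199531) (.g (nat_lit 1735) (.e (nat_lit 73732) (nat_lit 0) (.e (nat_lit 7272) (nat_lit 385) (.e (nat_lit 122916) (nat_lit 14) (.e (nat_lit 352271) (nat_lit 9) (.e (nat_lit 409603) (nat_lit 0) (.e (nat_lit 5411) (nat_lit 303) .nil)))))) (.g (nat_lit 5) .nil .nil)))) (.nd (nat_lit 5) 
(.lf (nat_lit 199515) (.g (nat_lit 2568) (.e (nat_lit 73732) (nat_lit 0) (.e (nat_lit 7271) (nat_lit 385) (.e (nat_lit 122916) (nat_lit 14) (.e (nat_lit 352272) (nat_lit 10) (.e (nat_lit 417796) (nat_lit 0) (.e (nat_lit 5412) (nat_lit 303) .nil)))))) (.g (nat_lit 0) .nil .nil))) 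
(.lf (nat_lit 199547) (.g (nat_lit 2122) (.e (nat_lit 73732) (nat_lit 0) (.e (nat_lit 7273) (nat_lit 385) (.e (nat_lit 122916) (nat_lit 14) (.e (nat_lit 352277) (nat_lit 11) (.e (nat_lit 426009) (nat_lit 0) (.e (nat_lit 7593) (nat_lit 407) .nil)))))) (.g (nat_lit 0) .nil .nil)))))) (.nd (nat_lit 3) (.nd (nat_lit 4) (.nd (nat_lit 5) 
(.lf (nat_lit 199495) (.g (nat_lit 1630) (.e (nat_lit 73732) (nat_lit 0) (.e (nat_lit 7271) (nat_lit 385) (.e (nat_lit 122914) (nat_lit 14) (.e (nat_lit 352257) (nat_lit 0) (.e (nat_lit 7077) (nat_lit 378) (.e (nat_lit 57898) (nat_lit 275) .nil)))))) (.g (nat_lit 0) .nil .nil))) 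
(.lf (nat_lit 199527) (.g (nat_lit 1783) (.e (nat_lit 73732) (nat_lit 0) (.e (nat_lit 7272) (nat_lit 385) (.e (nat_lit 122916) (nat_lit 14) (.e (nat_lit 352257) (nat_lit 0) (.e (nat_lit 7077) (nat_lit 378) (.e (nat_lit 57898) (nat_lit 275) .nil)))))) (.g (nat_lit 6) .nil .nil)))) (.nd (nat_lit 5) 
(.lf (nat_lit 199511) (.g (nat_lit 1674) (.e (nat_lit 73732) (nat_lit 0) (.e (nat_lit 7271) (nat_lit 385) (.e (nat_lit 122916) (nat_lit 14) (.e (nat_lit 352271) (nat_lit 9) (.e (nat_lit 409603) (nat_lit 0) (.e (nat_lit 5411) (nat_lit 303) .nil)))))) (.g (nat_lit 5) .nil .nil))) 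
(.lf (nat_lit 199543) (.g (nat_lit 1279) (.e (nat_lit 73732) (nat_lit 0) (.e (nat_lit 7273) (nat_lit 385) (.e (nat_lit 122914) (nat_lit 14) (.e (nat_lit 352276) (nat_lit 11) (.e (nat_lit 425984) (nat_lit 0) (.e (nat_lit 7592) (nat_lit 407) .nil)))))) (.g (nat_lit 0) .nil .nil))))) (.nd (nat_lit 4) (.nd (nat_lit 5) 
(.lf (nat_lit 199503) (.g (nat_lit 262) (.e (nat_lit 73732) (nat_lit 0) (.e (nat_lit 7271) (nat_lit 385) (.e (nat_lit 122916) (nat_lit 14) .nil))) .nil)) 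
(.lf (nat_lit 199535) (.g (nat_lit 2432) (.e (nat_lit 73732) (nat_lit 0) (.e (nat_lit 7272) (nat_lit 385) (.e (nat_lit 122916) (nat_lit 14) (.e (nat_lit 352272) (nat_lit 10) (.e (nat_lit 417796) (nat_lit 0) (.e (nat_lit 5412) (nat_lit 303) .nil)))))) (.g (nat_lit 0) .nil .nil)))) (.nd (nat_lit 5) 
(.lf (nat_lit 199519) (.g (nat_lit 2102) (.e (nat_lit 73732) (nat_lit 0) (.e (nat_lit 7271) (nat_lit 385) (.e (nat_lit 122916) (nat_lit 14) (.e (nat_lit 352309) (nat_lit 21) (.e (nat_lit 57679) (nat_lit 153) (.e (nat_lit 8202) (nat_lit 0) (.e (nat_lit 5411) (nat_lit 303) .nil))))))) (.g (nat_lit 4) .nil .nil))) 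
(.lf (nat_lit 199551) (.g (nat_lit 5890) (.e (nat_lit 73733) (nat_lit 0) (.e (nat_lit 5907) (nat_lit 320) (.e (nat_lit 1181) (nat_lit 87) (.e (nat_lit 57480) (nat_lit 28) (.e (nat_lit 557109) (nat_lit 15) (.e (nat_lit 188447) (nat_lit 22) (.e (nat_lit 196668) (nat_lit 14) .nil))))))) (.g (nat_lit 7) .nil .nil)))))))))

noncomputable def tv2638 : DT := (.nd (nat_lit 0) (.nd (nat_lit 1) (.nd (nat_lit 2) (.nd (nat_lit 3) (.nd (nat_lit 4) (.nd (nat_lit 5) (.nd (nat_lit 6) 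
(.lf (nat_lit 199552) (.g (nat_lit 2078) (.e (nat_lit 73733) (nat_lit 0) (.e (nat_lit 5907) (nat_lit 320) (.e (nat_lit 1190) (nat_lit 88) (.e (nat_lit 65628) (nat_lit 14) (.e (nat_lit 401454) (nat_lit 12) .nil))))) .nil)) 
(.lf (nat_lit 199616) (.g (nat_lit 1280) (.e (nat_lit 73734) (nat_lit 0) (.e (nat_lit 7270) (nat_lit 385) (.e (nat_lit 122914) (nat_lit 14) (.e (nat_lit 352271) (nat_lit 9) .nil)))) .nil))) (.nd (nat_lit 6) 
(.lf (nat_lit 199584) (.g (nat_lit 2903) (.e (nat_lit 73733) (nat_lit 0) (.e (nat_lit 7270) (nat_lit 385) (.e (nat_lit 122919) (nat_lit 15) (.e (nat_lit 360451) (nat_lit 0) (.e (nat_lit 7265) (nat_lit 384) (.e (nat_lit 57354) (nat_lit 0) (.e (nat_lit 7936) (nat_lit 348) .nil))))))) (.g (nat_lit 6) .nil .nil))) 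
(.lf (nat_lit 199648) (.g (nat_lit 2507) (.e (nat_lit 73737) (nat_lit 0) (.e (nat_lit 5818) (nat_lit 320) (.e (nat_lit 1201) (nat_lit 88) (.e (nat_lit 65628) (nat_lit 14) (.e (nat_lit 401454) (nat_lit 12) (.e (nat_lit 483072) (nat_lit 13) .nil)))))) (.g (nat_lit 5) .nil .nil))))) (.nd (nat_lit 5) (.nd (nat_lit 6) 
(.lf (nat_lit 199568) (.g (nat_lit 2897) (.e (nat_lit 73733) (nat_lit 0) (.e (nat_lit 7270) (nat_lit 385) (.e (nat_lit 122914) (nat_lit 14) (.e (nat_lit 352272) (nat_lit 10) (.e (nat_lit 417796) (nat_lit 0) (.e (nat_lit 5409) (nat_lit 303) .nil)))))) (.g (nat_lit 6) .nil .nil))) 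
(.lf (nat_lit 199632) (.g (nat_lit 5210) (.e (nat_lit 73736) (nat_lit 0) (.e (nat_lit 5818) (nat_lit 320) (.e (nat_lit 1183) (nat_lit 87) (.e (nat_lit 57480) (nat_lit 28) (.e (nat_lit 557109) (nat_lit 15) (.e (nat_lit 188449) (nat_lit 22) (.e (nat_lit 196667) (nat_lit 14) .nil))))))) (.g (nat_lit 7) .nil .nil)))) (.nd (nat_lit 6) 
(.lf (nat_lit 199600) (.g (nat_lit 1158) (.e (nat_lit 73733) (nat_lit 0) (.e (nat_lit 7271) (nat_lit 385) (.e (nat_lit 122916) (nat_lit 14) (.e (nat_lit 360192) (nat_lit 15) .nil)))) .nil)) 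
(.lf (nat_lit 199664) (.g (nat_lit 590) (.e (nat_lit 81664) (nat_lit 0) (.e (nat_lit 7236) (nat_lit 382) (.e (nat_lit 1015) (nat_lit 81) (.e (nat_lit 1569) (nat_lit 110) (.e (nat_lit 352272) (nat_lit 10) .nil))))) .nil))))) (.nd (nat_lit 4) (.nd (nat_lit 5) (.nd (nat_lit 6) 
(.lf (nat_lit 199560) (.g (nat_lit 2388) (.e (nat_lit 73733) (nat_lit 0) (.e (nat_lit 7147) (nat_lit 382) (.e (nat_lit 1217) (nat_lit 90) (.e (nat_lit 81925) (nat_lit 11) (.e (nat_lit 426012) (nat_lit 0) (.e (nat_lit 7591) (nat_lit 407) .nil)))))) (.g (nat_lit 0) .nil .nil))) 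
(.lf (nat_lit 199624) (.g (nat_lit 1209) (.e (nat_lit 73734) (nat_lit 0) (.e (nat_lit 7273) (nat_lit 385) (.e (nat_lit 122914) (nat_lit 14) (.e (nat_lit 352271) (nat_lit 9) (.e (nat_lit 409602) (nat_lit 0) (.e (nat_lit 5407) (nat_lit 303) .nil)))))) (.g (nat_lit 5) .nil .nil)))) (.nd (nat_lit 6) 
(.lf (nat_lit 199592) (.g (nat_lit 1440) (.e (nat_lit 73733) (nat_lit 0) (.e (nat_lit 7271) (nat_lit 385) (.e (nat_lit 122914) (nat_lit 14) (.e (nat_lit 352277) (nat_lit 11) (.e (nat_lit 426009) (nat_lit 0) .nil))))) .nil)) 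
(.lf (nat_lit 199656) (.g (nat_lit 1139) (.e (nat_lit 81664) (nat_lit 0) (.e (nat_lit 5906) (nat_lit 320) (.e (nat_lit 1209) (nat_lit 89) (.e (nat_lit 81664) (nat_lit 36) .nil)))) .nil)))) (.nd (nat_lit 5) (.nd (nat_lit 6) 
(.lf (nat_lit 199576) (.g (nat_lit 1189) (.e (nat_lit 73733) (nat_lit 0) (.e (nat_lit 7270) (nat_lit 385) (.e (nat_lit 122916) (nat_lit 14) (.e (nat_lit 360192) (nat_lit 11) .nil)))) .nil)) 
(.lf (nat_lit 199640) (.g (nat_lit 2576) (.e (nat_lit 73737) (nat_lit 0) (.e (nat_lit 3962) (nat_lit 239) (.e (nat_lit 1190) (nat_lit 88) (.e (nat_lit 65619) (nat_lit 10) (.e (nat_lit 344117) (nat_lit 21) (.e (nat_lit 516106) (nat_lit 0) (.e (nat_lit 7936) (nat_lit 407) .nil))))))) (.g (nat_lit 6) .nil .nil)))) (.nd (nat_lit 6) 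
(.lf (nat_lit 199608) (.g (nat_lit 2326) (.e (nat_lit 73733) (nat_lit 0) (.e (nat_lit 7272) (nat_lit 385) (.e (nat_lit 122916) (nat_lit 14) (.e (nat_lit 352309) (nat_lit 21) (.e (nat_lit 57679) (nat_lit 153) (.e (nat_lit 8202) (nat_lit 0) (.e (nat_lit 5407) (nat_lit 303) .nil))))))) (.g (nat_lit 4) .nil .nil))) 
(.lf (nat_lit 199672) (.g (nat_lit 912) (.e (nat_lit 81664) (nat_lit 0) (.e (nat_lit 7236) (nat_lit 382) (.e (nat_lit 1221) (nat_lit 90) (.e (nat_lit 89856) (nat_lit 10) .nil)))) .nil)))))) (.nd (nat_lit 3) (.nd (nat_lit 4) (.nd (nat_lit 5) (.nd (nat_lit 6) 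
(.lf (nat_lit 199556) (.g (nat_lit 2310) (.e (nat_lit 73733) (nat_lit 0) (.e (nat_lit 7147) (nat_lit 382) (.e (nat_lit 1216) (nat_lit 90) (.e (nat_lit 81927) (nat_lit 11) (.e (nat_lit 426011) (nat_lit 0) (.e (nat_lit 7591) (nat_lit 407) .nil)))))) (.g (nat_lit 0) .nil .nil))) 
(.lf (nat_lit 199620) (.g (nat_lit 1546) (.e (nat_lit 73734) (nat_lit 0) (.e (nat_lit 7270) (nat_lit 385) (.e (nat_lit 122916) (nat_lit 14) (.e (nat_lit 352271) (nat_lit 9) .nil)))) .nil))) (.nd (nat_lit 6) 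
(.lf (nat_lit 199588) (.g (nat_lit 2073) (.e (nat_lit 73733) (nat_lit 0) (.e (nat_lit 7270) (nat_lit 385) (.e (nat_lit 122921) (nat_lit 17) (.e (nat_lit 376842) (nat_lit 11) (.e (nat_lit 426012) (nat_lit 0) .nil))))) .nil)) 
(.lf (nat_lit 199652) (.g (nat_lit 1558) (.e (nat_lit 81664) (nat_lit 0) (.e (nat_lit 4005) (nat_lit 242) (.e (nat_lit 122916) (nat_lit 14) (.e (nat_lit 352312) (nat_lit 22) (.e (nat_lit 90165) (nat_lit 12) .nil))))) .nil)))) (.nd (nat_lit 5) (.nd (nat_lit 6) 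
(.lf (nat_lit 199572) (.g (nat_lit 1385) (.e (nat_lit 73733) (nat_lit 0) (.e (nat_lit 7270) (nat_lit 385) (.e (nat_lit 122916) (nat_lit 14) (.e (nat_lit 352257) (nat_lit 0) (.e (nat_lit 7077) (nat_lit 378) .nil))))) .nil)) 
(.lf (nat_lit 199636) (.g (nat_lit 1633) (.e (nat_lit 73736) (nat_lit 0) (.e (nat_lit 5818) (nat_lit 320) (.e (nat_lit 1191) (nat_lit 88) (.e (nat_lit 65630) (nat_lit 14) (.e (nat_lit 401454) (nat_lit 12) (.e (nat_lit 483072) (nat_lit 13) .nil)))))) (.g (nat_lit 5) .nil .nil)))) (.nd (nat_lit 6) 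
(.lf (nat_lit 199604) (.g (nat_lit 363) (.e (nat_lit 73733) (nat_lit 0) (.e (nat_lit 7272) (nat_lit 385) (.e (nat_lit 122916) (nat_lit 14) .nil))) .nil)) 
(.lf (nat_lit 199668) (.g (nat_lit 1709) (.e (nat_lit 81664) (nat_lit 0) (.e (nat_lit 7236) (nat_lit 382) (.e (nat_lit 1199) (nat_lit 88) (.e (nat_lit 65625) (nat_lit 13) (.e (nat_lit 393232) (nat_lit 17) .nil))))) .nil))))) (.nd (nat_lit 4) (.nd (nat_lit 5) (.nd (nat_lit 6) 
(.lf (nat_lit 199564) (.g (nat_lit 528) (.e (nat_lit 73733) (nat_lit 0) (.e (nat_lit 7270) (nat_lit 385) (.e (nat_lit 122911) (nat_lit 13) .nil))) .nil)) 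
(.lf (nat_lit 199628) (.g (nat_lit 766) (.e (nat_lit 73736) (nat_lit 0) (.e (nat_lit 3962) (nat_lit 239) (.e (nat_lit 1221) (nat_lit 90) (.e (nat_lit 81962) (nat_lit 25) .nil)))) .nil))) (.nd (nat_lit 6) 
(.lf (nat_lit 199596) (.g (nat_lit 1614) (.e (nat_lit 73733) (nat_lit 0) (.e (nat_lit 7271) (nat_lit 385) (.e (nat_lit 122916) (nat_lit 14) (.e (nat_lit 352277) (nat_lit 11) (.e (nat_lit 426009) (nat_lit 0) .nil))))) .nil)) 
(.lf (nat_lit 199660) (.g (nat_lit 437) (.e (nat_lit 81664) (nat_lit 0) (.e (nat_lit 7147) (nat_lit 382) (.e (nat_lit 1216) (nat_lit 90) (.e (nat_lit 89856) (nat_lit 10) .nil)))) .nil)))) (.nd (nat_lit 5) (.nd (nat_lit 6) 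
(.lf (nat_lit 199580) (.g (nat_lit 3018) (.e (nat_lit 73733) (nat_lit 0) (.e (nat_lit 7270) (nat_lit 385) (.e (nat_lit 122919) (nat_lit 15) (.e (nat_lit 360451) (nat_lit 0) (.e (nat_lit 7247) (nat_lit 383) (.e (nat_lit 8194) (nat_lit 0) (.e (nat_lit 7936) (nat_lit 303) .nil))))))) (.g (nat_lit 4) .nil .nil))) 
(.lf (nat_lit 199644) (.g (nat_lit 1695) (.e (nat_lit 73737) (nat_lit 0) (.e (nat_lit 5818) (nat_lit 320) (.e (nat_lit 1183) (nat_lit 87) (.e (nat_lit 57480) (nat_lit 28) (.e (nat_lit 557098) (nat_lit 13) .nil))))) .nil))) (.nd (nat_lit 6) 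
(.lf (nat_lit 199612) (.g (nat_lit 1184) (.e (nat_lit 73733) (nat_lit 0) (.e (nat_lit 7273) (nat_lit 385) (.e (nat_lit 122914) (nat_lit 14) (.e (nat_lit 352272) (nat_lit 10) (.e (nat_lit 417793) (nat_lit 0) (.e (nat_lit 5410) (nat_lit 303) .nil)))))) (.g (nat_lit 5) .nil .nil))) 
(.lf (nat_lit 199676) (.g (nat_lit 1113) (.e (nat_lit 81664) (nat_lit 0) (.e (nat_lit 7237) (nat_lit 382) (.e (nat_lit 1221) (nat_lit 90) (.e (nat_lit 89856) (nat_lit 10) .nil)))) .nil))))))) (.nd (nat_lit 2) (.nd (nat_lit 3) (.nd (nat_lit 4) (.nd (nat_lit 5) (.nd (nat_lit 6) 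
(.lf (nat_lit 199554) (.g (nat_lit 2688) (.e (nat_lit 73733) (nat_lit 0) (.e (nat_lit 5907) (nat_lit 320) (.e (nat_lit 1221) (nat_lit 90) (.e (nat_lit 81959) (nat_lit 24) (.e (nat_lit 123195) (nat_lit 266) (.e (nat_lit 57354) (nat_lit 0) (.e (nat_lit 7936) (nat_lit 348) .nil))))))) (.g (nat_lit 4) .nil .nil))) 
(.lf (nat_lit 199618) (.g (nat_lit 1605) (.e (nat_lit 73734) (nat_lit 0) (.e (nat_lit 7270) (nat_lit 385) (.e (nat_lit 122914) (nat_lit 14) (.e (nat_lit 352277) (nat_lit 11) (.e (nat_lit 426012) (nat_lit 0) .nil))))) .nil))) (.nd (nat_lit 6) 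
(.lf (nat_lit 199586) (.g (nat_lit 540) (.e (nat_lit 73733) (nat_lit 0) (.e (nat_lit 7270) (nat_lit 385) (.e (nat_lit 122921) (nat_lit 17) .nil))) .nil)) 
(.lf (nat_lit 199650) (.g (nat_lit 3433) (.e (nat_lit 81664) (nat_lit 0) (.e (nat_lit 3962) (nat_lit 239) (.e (nat_lit 1221) (nat_lit 90) (.e (nat_lit 81956) (nat_lit 23) (.e (nat_lit 98320) (nat_lit 17) .nil))))) .nil)))) (.nd (nat_lit 5) (.nd (nat_lit 6) 
(.lf (nat_lit 199570) (.g (nat_lit 471) (.e (nat_lit 73733) (nat_lit 0) (.e (nat_lit 7270) (nat_lit 385) (.e (nat_lit 122916) (nat_lit 14) .nil))) .nil)) 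
(.lf (nat_lit 199634) (.g (nat_lit 5268) (.e (nat_lit 73736) (nat_lit 0) (.e (nat_lit 5818) (nat_lit 320) (.e (nat_lit 1183) (nat_lit 87) (.e (nat_lit 57480) (nat_lit 28) (.e (nat_lit 557109) (nat_lit 15) (.e (nat_lit 188449) (nat_lit 22) (.e (nat_lit 196670) (nat_lit 14) .nil))))))) (.g (nat_lit 7) .nil .nil)))) (.nd (nat_lit 6) 
(.lf (nat_lit 199602) (.g (nat_lit 1505) (.e (nat_lit 73733) (nat_lit 0) (.e (nat_lit 7272) (nat_lit 385) (.e (nat_lit 122915) (nat_lit 14) (.e (nat_lit 352272) (nat_lit 10) (.e (nat_lit 417795) (nat_lit 0) (.e (nat_lit 5409) (nat_lit 303) .nil)))))) (.g (nat_lit 6) .nil .nil))) 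
(.lf (nat_lit 199666) (.g (nat_lit 380) (.e (nat_lit 81664) (nat_lit 0) (.e (nat_lit 7236) (nat_lit 382) (.e (nat_lit 1196) (nat_lit 88) .nil))) .nil))))) (.nd (nat_lit 4) (.nd (nat_lit 5) (.nd (nat_lit 6) 
(.lf (nat_lit 199562) (.g (nat_lit 1346) (.e (nat_lit 73733) (nat_lit 0) (.e (nat_lit 7270) (nat_lit 385) (.e (nat_lit 122906) (nat_lit 12) (.e (nat_lit 336212) (nat_lit 13) (.e (nat_lit 393231) (nat_lit 17) .nil))))) .nil)) 
(.lf (nat_lit 199626) (.g (nat_lit 2169) (.e (nat_lit 73736) (nat_lit 0) (.e (nat_lit 3962) (nat_lit 239) (.e (nat_lit 1221) (nat_lit 90) (.e (nat_lit 81953) (nat_lit 22) (.e (nat_lit 90165) (nat_lit 12) (.e (nat_lit 171776) (nat_lit 192) .nil)))))) (.g (nat_lit 5) .nil .nil)))) (.nd (nat_lit 6) 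
(.lf (nat_lit 199594) (.g (nat_lit 885) (.e (nat_lit 73733) (nat_lit 0) (.e (nat_lit 7271) (nat_lit 385) (.e (nat_lit 122914) (nat_lit 14) (.e (nat_lit 360192) (nat_lit 15) .nil)))) .nil)) 
(.lf (nat_lit 199658) (.g (nat_lit 1138) (.e (nat_lit 81664) (nat_lit 0) (.e (nat_lit 7125) (nat_lit 382) (.e (nat_lit 1222) (nat_lit 90) (.e (nat_lit 89856) (nat_lit 10) .nil)))) .nil)))) (.nd (nat_lit 5) (.nd (nat_lit 6) 
(.lf (nat_lit 199578) (.g (nat_lit 2407) (.e (nat_lit 73733) (nat_lit 0) (.e (nat_lit 7270) (nat_lit 385) (.e (nat_lit 122919) (nat_lit 15) (.e (nat_lit 360451) (nat_lit 0) (.e (nat_lit 6923) (nat_lit 371) (.e (nat_lit 2610) (nat_lit 163) (.e (nat_lit 171776) (nat_lit 192) .nil))))))) (.g (nat_lit 4) .nil .nil))) 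
(.lf (nat_lit 199642) (.g (nat_lit 3040) (.e (nat_lit 73737) (nat_lit 0) (.e (nat_lit 4215) (nat_lit 251) (.e (nat_lit 1209) (nat_lit 89) (.e (nat_lit 73753) (nat_lit 8) (.e (nat_lit 557098) (nat_lit 13) (.e (nat_lit 172140) (nat_lit 22) (.e (nat_lit 139281) (nat_lit 5) .nil))))))) (.g (nat_lit 6) .nil .nil)))) (.nd (nat_lit 6) 
(.lf (nat_lit 199610) (.g (nat_lit 1249) (.e (nat_lit 73733) (nat_lit 0) (.e (nat_lit 7273) (nat_lit 385) (.e (nat_lit 122914) (nat_lit 14) (.e (nat_lit 352258) (nat_lit 0) (.e (nat_lit 7087) (nat_lit 379) (.e (nat_lit 123214) (nat_lit 275) .nil)))))) (.g (nat_lit 6) .nil .nil))) 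
(.lf (nat_lit 199674) (.g (nat_lit 801) (.e (nat_lit 81664) (nat_lit 0) (.e (nat_lit 7237) (nat_lit 382) (.e (nat_lit 1219) (nat_lit 90) (.e (nat_lit 89856) (nat_lit 10) .nil)))) .nil)))))) (.nd (nat_lit 3) (.nd (nat_lit 4) (.nd (nat_lit 5) (.nd (nat_lit 6) 
(.lf (nat_lit 199558) (.g (nat_lit 613) (.e (nat_lit 73733) (nat_lit 0) (.e (nat_lit 7147) (nat_lit 382) (.e (nat_lit 1217) (nat_lit 90) (.e (nat_lit 89856) (nat_lit 9) .nil)))) .nil)) 
(.lf (nat_lit 199622) (.g (nat_lit 1829) (.e (nat_lit 73734) (nat_lit 0) (.e (nat_lit 7270) (nat_lit 385) (.e (nat_lit 122916) (nat_lit 14) (.e (nat_lit 352277) (nat_lit 11) (.e (nat_lit 426012) (nat_lit 0) .nil))))) .nil))) (.nd (nat_lit 6) 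
(.lf (nat_lit 199590) (.g (nat_lit 1084) (.e (nat_lit 73733) (nat_lit 0) (.e (nat_lit 7271) (nat_lit 385) (.e (nat_lit 122914) (nat_lit 14) (.e (nat_lit 352271) (nat_lit 9) .nil)))) .nil)) 
(.lf (nat_lit 199654) (.g (nat_lit 1087) (.e (nat_lit 81664) (nat_lit 0) (.e (nat_lit 5224) (nat_lit 296) (.e (nat_lit 163875) (nat_lit 3) (.e (nat_lit 204830) (nat_lit 18) .nil)))) .nil)))) (.nd (nat_lit 5) (.nd (nat_lit 6) 
(.lf (nat_lit 199574) (.g (nat_lit 2612) (.e (nat_lit 73733) (nat_lit 0) (.e (nat_lit 7270) (nat_lit 385) (.e (nat_lit 122916) (nat_lit 14) (.e (nat_lit 352271) (nat_lit 9) (.e (nat_lit 409602) (nat_lit 0) (.e (nat_lit 5407) (nat_lit 303) .nil)))))) (.g (nat_lit 5) .nil .nil))) 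
(.lf (nat_lit 199638) (.g (nat_lit 1777) (.e (nat_lit 73736) (nat_lit 0) (.e (nat_lit 5818) (nat_lit 320) (.e (nat_lit 1212) (nat_lit 89) (.e (nat_lit 73782) (nat_lit 32) (.e (nat_lit 3067) (nat_lit 190) (.e (nat_lit 483072) (nat_lit 13) .nil)))))) (.g (nat_lit 5) .nil .nil)))) (.nd (nat_lit 6) 
(.lf (nat_lit 199606) (.g (nat_lit 2288) (.e (nat_lit 73733) (nat_lit 0) (.e (nat_lit 7272) (nat_lit 385) (.e (nat_lit 122916) (nat_lit 14) (.e (nat_lit 352271) (nat_lit 9) (.e (nat_lit 409602) (nat_lit 0) (.e (nat_lit 5407) (nat_lit 303) .nil)))))) (.g (nat_lit 5) .nil .nil))) 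
(.lf (nat_lit 199670) (.g (nat_lit 1500) (.e (nat_lit 81664) (nat_lit 0) (.e (nat_lit 7236) (nat_lit 382) (.e (nat_lit 1200) (nat_lit 88) (.e (nat_lit 65626) (nat_lit 13) (.e (nat_lit 393234) (nat_lit 17) .nil))))) .nil))))) (.nd (nat_lit 4) (.nd (nat_lit 5) (.nd (nat_lit 6) 
(.lf (nat_lit 199566) (.g (nat_lit 1748) (.e (nat_lit 73733) (nat_lit 0) (.e (nat_lit 7270) (nat_lit 385) (.e (nat_lit 122913) (nat_lit 13) (.e (nat_lit 344132) (nat_lit 26) (.e (nat_lit 557101) (nat_lit 13) .nil))))) .nil)) 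
(.lf (nat_lit 199630) (.g (nat_lit 265) (.e (nat_lit 73736) (nat_lit 0) (.e (nat_lit 5818) (nat_lit 320) (.e (nat_lit 1183) (nat_lit 87) .nil))) .nil))) (.nd (nat_lit 6) 
(.lf (nat_lit 199598) (.g (nat_lit 1158) (.e (nat_lit 73733) (nat_lit 0) (.e (nat_lit 7271) (nat_lit 385) (.e (nat_lit 122916) (nat_lit 14) (.e (nat_lit 360192) (nat_lit 11) .nil)))) .nil)) 
(.lf (nat_lit 199662) (.g (nat_lit 436) (.e (nat_lit 81664) (nat_lit 0) (.e (nat_lit 7160) (nat_lit 382) (.e (nat_lit 977) (nat_lit 81) (.e (nat_lit 1574) (nat_lit 110) (.e (nat_lit 360192) (nat_lit 15) .nil))))) .nil)))) (.nd (nat_lit 5) (.nd (nat_lit 6) 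
(.lf (nat_lit 199582) (.g (nat_lit 2427) (.e (nat_lit 73733) (nat_lit 0) (.e (nat_lit 7270) (nat_lit 385) (.e (nat_lit 122919) (nat_lit 15) (.e (nat_lit 360451) (nat_lit 0) (.e (nat_lit 7263) (nat_lit 384) .nil))))) .nil)) 
(.lf (nat_lit 199646) (.g (nat_lit 1852) (.e (nat_lit 73737) (nat_lit 0) (.e (nat_lit 5818) (nat_lit 320) (.e (nat_lit 1191) (nat_lit 88) (.e (nat_lit 65630) (nat_lit 14) (.e (nat_lit 401454) (nat_lit 12) (.e (nat_lit 483072) (nat_lit 13) .nil)))))) (.g (nat_lit 5) .nil .nil)))) (.nd (nat_lit 6) 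
(.lf (nat_lit 199614) (.g (nat_lit 3212) (.e (nat_lit 73733) (nat_lit 0) (.e (nat_lit 7273) (nat_lit 385) (.e (nat_lit 122916) (nat_lit 14) (.e (nat_lit 352277) (nat_lit 11) (.e (nat_lit 426011) (nat_lit 0) (.e (nat_lit 7591) (nat_lit 407) .nil)))))) (.g (nat_lit 0) .nil .nil))) 
(.lf (nat_lit 199678) (.g (nat_lit 893) (.e (nat_lit 81664) (nat_lit 0) (.e (nat_lit 7266) (nat_lit 384) (.e (nat_lit 57423) (nat_lit 14) (.e (nat_lit 352272) (nat_lit 10) .nil)))) .nil)))))))) (.nd (nat_lit 1) (.nd (nat_lit 2) (.nd (nat_lit 3) (.nd (nat_lit 4) (.nd (nat_lit 5) (.nd (nat_lit 6) 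
(.lf (nat_lit 199553) (.g (nat_lit 1921) (.e (nat_lit 73733) (nat_lit 0) (.e (nat_lit 5907) (nat_lit 320) (.e (nat_lit 1200) (nat_lit 88) (.e (nat_lit 65630) (nat_lit 14) (.e (nat_lit 401454) (nat_lit 12) .nil))))) .nil)) 
(.lf (nat_lit 199617) (.g (nat_lit 1197) (.e (nat_lit 73734) (nat_lit 0) (.e (nat_lit 7270) (nat_lit 385) (.e (nat_lit 122914) (nat_lit 14) (.e (nat_lit 352277) (nat_lit 11) .nil)))) .nil))) (.nd (nat_lit 6) 
(.lf (nat_lit 199585) (.g (nat_lit 1952) (.e (nat_lit 73733) (nat_lit 0) (.e (nat_lit 7270) (nat_lit 385) (.e (nat_lit 122919) (nat_lit 15) (.e (nat_lit 360487) (nat_lit 19) .nil)))) .nil)) 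
(.lf (nat_lit 199649) (.g (nat_lit 3271) (.e (nat_lit 73737) (nat_lit 0) (.e (nat_lit 5818) (nat_lit 320) (.e (nat_lit 1201) (nat_lit 88) (.e (nat_lit 65630) (nat_lit 14) (.e (nat_lit 401454) (nat_lit 12) (.e (nat_lit 483072) (nat_lit 13) .nil)))))) (.g (nat_lit 5) .nil .nil))))) (.nd (nat_lit 5) (.nd (nat_lit 6) 
(.lf (nat_lit 199569) (.g (nat_lit 1822) (.e (nat_lit 73733) (nat_lit 0) (.e (nat_lit 7270) (nat_lit 385) (.e (nat_lit 122915) (nat_lit 14) (.e (nat_lit 352272) (nat_lit 10) (.e (nat_lit 417796) (nat_lit 0) (.e (nat_lit 5409) (nat_lit 303) .nil)))))) (.g (nat_lit 4) .nil .nil))) 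
(.lf (nat_lit 199633) (.g (nat_lit 5692) (.e (nat_lit 73736) (nat_lit 0) (.e (nat_lit 5818) (nat_lit 320) (.e (nat_lit 1183) (nat_lit 87) (.e (nat_lit 57480) (nat_lit 28) (.e (nat_lit 557109) (nat_lit 15) (.e (nat_lit 188449) (nat_lit 22) (.e (nat_lit 196669) (nat_lit 14) .nil))))))) (.g (nat_lit 6) .nil .nil)))) (.nd (nat_lit 6) 
(.lf (nat_lit 199601) (.g (nat_lit 1810) (.e (nat_lit 73733) (nat_lit 0) (.e (nat_lit 7272) (nat_lit 385) (.e (nat_lit 122914) (nat_lit 14) (.e (nat_lit 352271) (nat_lit 9) (.e (nat_lit 409603) (nat_lit 0) (.e (nat_lit 5407) (nat_lit 303) .nil)))))) (.g (nat_lit 5) .nil .nil))) 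
(.lf (nat_lit 199665) (.g (nat_lit 997) (.e (nat_lit 81664) (nat_lit 0) (.e (nat_lit 7236) (nat_lit 382) (.e (nat_lit 1190) (nat_lit 88) (.e (nat_lit 65627) (nat_lit 13) .nil)))) .nil))))) (.nd (nat_lit 4) (.nd (nat_lit 5) (.nd (nat_lit 6) 
(.lf (nat_lit 199561) (.g (nat_lit 1161) (.e (nat_lit 73733) (nat_lit 0) (.e (nat_lit 7270) (nat_lit 385) (.e (nat_lit 122905) (nat_lit 12) (.e (nat_lit 336217) (nat_lit 13) .nil)))) .nil)) 
(.lf (nat_lit 199625) (.g (nat_lit 1245) (.e (nat_lit 73734) (nat_lit 0) (.e (nat_lit 7273) (nat_lit 385) (.e (nat_lit 122916) (nat_lit 14) (.e (nat_lit 352272) (nat_lit 10) (.e (nat_lit 417796) (nat_lit 0) (.e (nat_lit 5413) (nat_lit 303) .nil)))))) (.g (nat_lit 6) .nil .nil)))) (.nd (nat_lit 6) 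
(.lf (nat_lit 199593) (.g (nat_lit 885) (.e (nat_lit 73733) (nat_lit 0) (.e (nat_lit 7271) (nat_lit 385) (.e (nat_lit 122914) (nat_lit 14) (.e (nat_lit 360192) (nat_lit 11) .nil)))) .nil)) 
(.lf (nat_lit 199657) (.g (nat_lit 1204) (.e (nat_lit 81664) (nat_lit 0) (.e (nat_lit 7124) (nat_lit 382) (.e (nat_lit 1222) (nat_lit 90) (.e (nat_lit 89856) (nat_lit 10) .nil)))) .nil)))) (.nd (nat_lit 5) (.nd (nat_lit 6) 
(.lf (nat_lit 199577) (.g (nat_lit 2563) (.e (nat_lit 73733) (nat_lit 0) (.e (nat_lit 7270) (nat_lit 385) (.e (nat_lit 122916) (nat_lit 14) (.e (nat_lit 352309) (nat_lit 21) (.e (nat_lit 57679) (nat_lit 153) (.e (nat_lit 8202) (nat_lit 0) (.e (nat_lit 5407) (nat_lit 303) .nil))))))) (.g (nat_lit 4) .nil .nil))) 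
(.lf (nat_lit 199641) (.g (nat_lit 1569) (.e (nat_lit 73737) (nat_lit 0) (.e (nat_lit 4215) (nat_lit 251) (.e (nat_lit 1209) (nat_lit 89) (.e (nat_lit 73753) (nat_lit 8) (.e (nat_lit 557096) (nat_lit 13) .nil))))) .nil))) (.nd (nat_lit 6) 
(.lf (nat_lit 199609) (.g (nat_lit 318) (.e (nat_lit 73733) (nat_lit 0) (.e (nat_lit 7272) (nat_lit 385) (.e (nat_lit 122921) (nat_lit 17) .nil))) .nil)) 
(.lf (nat_lit 199673) (.g (nat_lit 1614) (.e (nat_lit 81664) (nat_lit 0) (.e (nat_lit 7237) (nat_lit 382) (.e (nat_lit 1190) (nat_lit 88) (.e (nat_lit 65627) (nat_lit 13) (.e (nat_lit 393234) (nat_lit 17) .nil))))) .nil)))))) (.nd (nat_lit 3) (.nd (nat_lit 4) (.nd (nat_lit 5) (.nd (nat_lit 6) 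
(.lf (nat_lit 199557) (.g (nat_lit 2073) (.e (nat_lit 73733) (nat_lit 0) (.e (nat_lit 7147) (nat_lit 382) (.e (nat_lit 1216) (nat_lit 90) (.e (nat_lit 81927) (nat_lit 11) (.e (nat_lit 426012) (nat_lit 0) (.e (nat_lit 7591) (nat_lit 407) .nil)))))) (.g (nat_lit 0) .nil .nil))) 
(.lf (nat_lit 199621) (.g (nat_lit 1357) (.e (nat_lit 73734) (nat_lit 0) (.e (nat_lit 7270) (nat_lit 385) (.e (nat_lit 122916) (nat_lit 14) (.e (nat_lit 352277) (nat_lit 11) .nil)))) .nil))) (.nd (nat_lit 6) 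
(.lf (nat_lit 199589) (.g (nat_lit 321) (.e (nat_lit 73733) (nat_lit 0) (.e (nat_lit 7271) (nat_lit 385) (.e (nat_lit 122914) (nat_lit 14) .nil))) .nil)) 
(.lf (nat_lit 199653) (.g (nat_lit 1327) (.e (nat_lit 81664) (nat_lit 0) (.e (nat_lit 4840) (nat_lit 283) (.e (nat_lit 57371) (nat_lit 2) (.e (nat_lit 90176) (nat_lit 15) (.e (nat_lit 188447) (nat_lit 22) .nil))))) .nil)))) (.nd (nat_lit 5) (.nd (nat_lit 6) 
(.lf (nat_lit 199573) (.g (nat_lit 1396) (.e (nat_lit 73733) (nat_lit 0) (.e (nat_lit 7270) (nat_lit 385) (.e (nat_lit 122916) (nat_lit 14) (.e (nat_lit 352263) (nat_lit 0) .nil)))) .nil)) 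
(.lf (nat_lit 199637) (.g (nat_lit 2748) (.e (nat_lit 73736) (nat_lit 0) (.e (nat_lit 5818) (nat_lit 320) (.e (nat_lit 1201) (nat_lit 88) (.e (nat_lit 65617) (nat_lit 10) (.e (nat_lit 344161) (nat_lit 37) (.e (nat_lit 647181) (nat_lit 3) (.e (nat_lit 171776) (nat_lit 192) .nil))))))) (.g (nat_lit 6) .nil .nil)))) (.nd (nat_lit 6) 
(.lf (nat_lit 199605) (.g (nat_lit 1174) (.e (nat_lit 73733) (nat_lit 0) (.e (nat_lit 7272) (nat_lit 385) (.e (nat_lit 122916) (nat_lit 14) (.e (nat_lit 352263) (nat_lit 0) .nil)))) .nil)) 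
(.lf (nat_lit 199669) (.g (nat_lit 1663) (.e (nat_lit 81664) (nat_lit 0) (.e (nat_lit 7236) (nat_lit 382) (.e (nat_lit 1199) (nat_lit 88) (.e (nat_lit 65625) (nat_lit 13) (.e (nat_lit 393233) (nat_lit 17) .nil))))) .nil))))) (.nd (nat_lit 4) (.nd (nat_lit 5) (.nd (nat_lit 6) 
(.lf (nat_lit 199565) (.g (nat_lit 3007) (.e (nat_lit 73733) (nat_lit 0) (.e (nat_lit 7270) (nat_lit 385) (.e (nat_lit 122913) (nat_lit 13) (.e (nat_lit 344130) (nat_lit 26) (.e (nat_lit 557104) (nat_lit 14) (.e (nat_lit 180233) (nat_lit 0) (.e (nat_lit 5815) (nat_lit 320) (.e (nat_lit 1212) (nat_lit 89) .nil)))))))) (.g (nat_lit 5) .nil .nil))) 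
(.lf (nat_lit 199629) (.g (nat_lit 1082) (.e (nat_lit 73736) (nat_lit 0) (.e (nat_lit 5818) (nat_lit 320) (.e (nat_lit 1173) (nat_lit 87) (.e (nat_lit 57477) (nat_lit 28) (.e (nat_lit 557108) (nat_lit 15) (.e (nat_lit 188449) (nat_lit 22) (.e (nat_lit 204544) (nat_lit 14) .nil))))))) (.g (nat_lit 5) .nil .nil)))) (.nd (nat_lit 6) 
(.lf (nat_lit 199597) (.g (nat_lit 1184) (.e (nat_lit 73733) (nat_lit 0) (.e (nat_lit 7271) (nat_lit 385) (.e (nat_lit 122916) (nat_lit 14) (.e (nat_lit 352278) (nat_lit 11) .nil)))) .nil)) 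
(.lf (nat_lit 199661) (.g (nat_lit 736) (.e (nat_lit 81664) (nat_lit 0) (.e (nat_lit 7147) (nat_lit 382) (.e (nat_lit 1217) (nat_lit 90) (.e (nat_lit 89856) (nat_lit 10) .nil)))) .nil)))) (.nd (nat_lit 5) (.nd (nat_lit 6) 
(.lf (nat_lit 199581) (.g (nat_lit 1970) (.e (nat_lit 73733) (nat_lit 0) (.e (nat_lit 7270) (nat_lit 385) (.e (nat_lit 122919) (nat_lit 15) (.e (nat_lit 360451) (nat_lit 0) (.e (nat_lit 7261) (nat_lit 384) (.e (nat_lit 57347) (nat_lit 0) (.e (nat_lit 7936) (nat_lit 348) .nil))))))) (.g (nat_lit 4) .nil .nil))) 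
(.lf (nat_lit 199645) (.g (nat_lit 1686) (.e (nat_lit 73737) (nat_lit 0) (.e (nat_lit 5818) (nat_lit 320) (.e (nat_lit 1183) (nat_lit 87) (.e (nat_lit 57480) (nat_lit 28) (.e (nat_lit 557109) (nat_lit 15) .nil))))) .nil))) (.nd (nat_lit 6) 
(.lf (nat_lit 199613) (.g (nat_lit 1043) (.e (nat_lit 73733) (nat_lit 0) (.e (nat_lit 7273) (nat_lit 385) (.e (nat_lit 122916) (nat_lit 14) (.e (nat_lit 352271) (nat_lit 9) .nil)))) .nil)) 
(.lf (nat_lit 199677) (.g (nat_lit 620) (.e (nat_lit 81664) (nat_lit 0) (.e (nat_lit 7266) (nat_lit 384) (.e (nat_lit 57419) (nat_lit 12) .nil))) .nil))))))) (.nd (nat_lit 2) (.nd (nat_lit 3) (.nd (nat_lit 4) (.nd (nat_lit 5) (.nd (nat_lit 6) 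
(.lf (nat_lit 199555) (.g (nat_lit 2924) (.e (nat_lit 73733) (nat_lit 0) (.e (nat_lit 7147) (nat_lit 382) (.e (nat_lit 1207) (nat_lit 89) (.e (nat_lit 73754) (nat_lit 8) (.e (nat_lit 557105) (nat_lit 14) (.e (nat_lit 180264) (nat_lit 21) (.e (nat_lit 663568) (nat_lit 5) .nil))))))) (.g (nat_lit 6) .nil .nil))) 
(.lf (nat_lit 199619) (.g (nat_lit 557) (.e (nat_lit 73734) (nat_lit 0) (.e (nat_lit 7270) (nat_lit 385) (.e (nat_lit 122916) (nat_lit 14) .nil))) .nil))) (.nd (nat_lit 6) 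
(.lf (nat_lit 199587) (.g (nat_lit 820) (.e (nat_lit 73733) (nat_lit 0) (.e (nat_lit 7270) (nat_lit 385) (.e (nat_lit 122921) (nat_lit 17) (.e (nat_lit 376840) (nat_lit 11) .nil)))) .nil)) 
(.lf (nat_lit 199651) (.g (nat_lit 907) (.e (nat_lit 81664) (nat_lit 0) (.e (nat_lit 3971) (nat_lit 239) (.e (nat_lit 1221) (nat_lit 90) (.e (nat_lit 81956) (nat_lit 23) .nil)))) .nil)))) (.nd (nat_lit 5) (.nd (nat_lit 6) 
(.lf (nat_lit 199571) (.g (nat_lit 1315) (.e (nat_lit 73733) (nat_lit 0) (.e (nat_lit 7270) (nat_lit 385) (.e (nat_lit 122916) (nat_lit 14) (.e (nat_lit 352257) (nat_lit 0) .nil)))) .nil)) 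
(.lf (nat_lit 199635) (.g (nat_lit 2379) (.e (nat_lit 73736) (nat_lit 0) (.e (nat_lit 5818) (nat_lit 320) (.e (nat_lit 1183) (nat_lit 87) (.e (nat_lit 57480) (nat_lit 28) (.e (nat_lit 557109) (nat_lit 15) (.e (nat_lit 188449) (nat_lit 22) (.e (nat_lit 204544) (nat_lit 14) .nil))))))) (.g (nat_lit 6) .nil .nil)))) (.nd (nat_lit 6) 
(.lf (nat_lit 199603) (.g (nat_lit 1814) (.e (nat_lit 73733) (nat_lit 0) (.e (nat_lit 7272) (nat_lit 385) (.e (nat_lit 122915) (nat_lit 14) (.e (nat_lit 352272) (nat_lit 10) (.e (nat_lit 417796) (nat_lit 0) (.e (nat_lit 5409) (nat_lit 303) .nil)))))) (.g (nat_lit 6) .nil .nil))) 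
(.lf (nat_lit 199667) (.g (nat_lit 1675) (.e (nat_lit 81664) (nat_lit 0) (.e (nat_lit 7236) (nat_lit 382) (.e (nat_lit 1199) (nat_lit 88) (.e (nat_lit 65625) (nat_lit 13) (.e (nat_lit 393231) (nat_lit 17) .nil))))) .nil))))) (.nd (nat_lit 4) (.nd (nat_lit 5) (.nd (nat_lit 6) 
(.lf (nat_lit 199563) (.g (nat_lit 575) (.e (nat_lit 73733) (nat_lit 0) (.e (nat_lit 7270) (nat_lit 385) (.e (nat_lit 130816) (nat_lit 12) .nil))) .nil)) 
(.lf (nat_lit 199627) (.g (nat_lit 4718) (.e (nat_lit 73736) (nat_lit 0) (.e (nat_lit 3962) (nat_lit 239) (.e (nat_lit 1221) (nat_lit 90) (.e (nat_lit 81956) (nat_lit 23) (.e (nat_lit 98320) (nat_lit 17) (.e (nat_lit 7593) (nat_lit 407) .nil)))))) (.g (nat_lit 6) .nil .nil)))) (.nd (nat_lit 6) 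
(.lf (nat_lit 199595) (.g (nat_lit 1169) (.e (nat_lit 73733) (nat_lit 0) (.e (nat_lit 7271) (nat_lit 385) (.e (nat_lit 122916) (nat_lit 14) (.e (nat_lit 352276) (nat_lit 11) .nil)))) .nil)) 
(.lf (nat_lit 199659) (.g (nat_lit 1106) (.e (nat_lit 81664) (nat_lit 0) (.e (nat_lit 7125) (nat_lit 382) (.e (nat_lit 1224) (nat_lit 90) (.e (nat_lit 89856) (nat_lit 10) .nil)))) .nil)))) (.nd (nat_lit 5) (.nd (nat_lit 6) 
(.lf (nat_lit 199579) (.g (nat_lit 2804) (.e (nat_lit 73733) (nat_lit 0) (.e (nat_lit 7270) (nat_lit 385) (.e (nat_lit 122919) (nat_lit 15) (.e (nat_lit 360451) (nat_lit 0) (.e (nat_lit 6940) (nat_lit 375) (.e (nat_lit 163841) (nat_lit 0) (.e (nat_lit 7591) (nat_lit 407) .nil))))))) (.g (nat_lit 4) .nil .nil))) 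
(.lf (nat_lit 199643) (.g (nat_lit 851) (.e (nat_lit 73737) (nat_lit 0) (.e (nat_lit 5818) (nat_lit 320) (.e (nat_lit 1183) (nat_lit 87) (.e (nat_lit 57478) (nat_lit 28) .nil)))) .nil))) (.nd (nat_lit 6) 
(.lf (nat_lit 199611) (.g (nat_lit 1269) (.e (nat_lit 73733) (nat_lit 0) (.e (nat_lit 7273) (nat_lit 385) (.e (nat_lit 122914) (nat_lit 14) (.e (nat_lit 352258) (nat_lit 0) (.e (nat_lit 7088) (nat_lit 379) (.e (nat_lit 123214) (nat_lit 275) .nil)))))) (.g (nat_lit 0) .nil .nil))) 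
(.lf (nat_lit 199675) (.g (nat_lit 846) (.e (nat_lit 81664) (nat_lit 0) (.e (nat_lit 7237) (nat_lit 382) (.e (nat_lit 1220) (nat_lit 90) (.e (nat_lit 89856) (nat_lit 10) .nil)))) .nil)))))) (.nd (nat_lit 3) (.nd (nat_lit 4) (.nd (nat_lit 5) (.nd (nat_lit 6) 
(.lf (nat_lit 199559) (.g (nat_lit 2605) (.e (nat_lit 73733) (nat_lit 0) (.e (nat_lit 7147) (nat_lit 382) (.e (nat_lit 1217) (nat_lit 90) (.e (nat_lit 81925) (nat_lit 11) (.e (nat_lit 426011) (nat_lit 0) (.e (nat_lit 7591) (nat_lit 407) .nil)))))) (.g (nat_lit 0) .nil .nil))) 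
(.lf (nat_lit 199623) (.g (nat_lit 1337) (.e (nat_lit 73734) (nat_lit 0) (.e (nat_lit 7270) (nat_lit 385) (.e (nat_lit 122916) (nat_lit 14) (.e (nat_lit 360192) (nat_lit 12) .nil)))) .nil))) (.nd (nat_lit 6) 
(.lf (nat_lit 199591) (.g (nat_lit 1026) (.e (nat_lit 73733) (nat_lit 0) (.e (nat_lit 7271) (nat_lit 385) (.e (nat_lit 122914) (nat_lit 14) (.e (nat_lit 352276) (nat_lit 11) .nil)))) .nil)) 
(.lf (nat_lit 199655) (.g (nat_lit 1682) (.e (nat_lit 81664) (nat_lit 0) (.e (nat_lit 5587) (nat_lit 310) (.e (nat_lit 163907) (nat_lit 12) (.e (nat_lit 426544) (nat_lit 30) (.e (nat_lit 360473) (nat_lit 8) .nil))))) .nil)))) (.nd (nat_lit 5) (.nd (nat_lit 6) 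
(.lf (nat_lit 199575) (.g (nat_lit 1358) (.e (nat_lit 73733) (nat_lit 0) (.e (nat_lit 7270) (nat_lit 385) (.e (nat_lit 122916) (nat_lit 14) (.e (nat_lit 352278) (nat_lit 11) .nil)))) .nil)) 
(.lf (nat_lit 199639) (.g (nat_lit 1917) (.e (nat_lit 73736) (nat_lit 0) (.e (nat_lit 5949) (nat_lit 322) (.e (nat_lit 57436) (nat_lit 17) (.e (nat_lit 376860) (nat_lit 21) (.e (nat_lit 57931) (nat_lit 282) .nil))))) .nil))) (.nd (nat_lit 6) 
(.lf (nat_lit 199607) (.g (nat_lit 1075) (.e (nat_lit 73733) (nat_lit 0) (.e (nat_lit 7272) (nat_lit 385) (.e (nat_lit 122916) (nat_lit 14) (.e (nat_lit 360192) (nat_lit 11) .nil)))) .nil)) 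
(.lf (nat_lit 199671) (.g (nat_lit 887) (.e (nat_lit 81664) (nat_lit 0) (.e (nat_lit 7236) (nat_lit 382) (.e (nat_lit 1219) (nat_lit 90) (.e (nat_lit 89856) (nat_lit 10) .nil)))) .nil))))) (.nd (nat_lit 4) (.nd (nat_lit 5) (.nd (nat_lit 6) 
(.lf (nat_lit 199567) (.g (nat_lit 2447) (.e (nat_lit 73733) (nat_lit 0) (.e (nat_lit 7270) (nat_lit 385) (.e (nat_lit 122914) (nat_lit 14) (.e (nat_lit 352271) (nat_lit 9) (.e (nat_lit 409602) (nat_lit 0) (.e (nat_lit 5407) (nat_lit 303) .nil)))))) (.g (nat_lit 5) .nil .nil))) 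
(.lf (nat_lit 199631) (.g (nat_lit 5676) (.e (nat_lit 73736) (nat_lit 0) (.e (nat_lit 5818) (nat_lit 320) (.e (nat_lit 1183) (nat_lit 87) (.e (nat_lit 57478) (nat_lit 28) (.e (nat_lit 557109) (nat_lit 15) (.e (nat_lit 188449) (nat_lit 22) (.e (nat_lit 196667) (nat_lit 14) .nil))))))) (.g (nat_lit 7) .nil .nil)))) (.nd (nat_lit 6) 
(.lf (nat_lit 199599) (.g (nat_lit 1158) (.e (nat_lit 73733) (nat_lit 0) (.e (nat_lit 7271) (nat_lit 385) (.e (nat_lit 122916) (nat_lit 14) (.e (nat_lit 360192) (nat_lit 12) .nil)))) .nil)) 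
(.lf (nat_lit 199663) (.g (nat_lit 380) (.e (nat_lit 81664) (nat_lit 0) (.e (nat_lit 7236) (nat_lit 382) (.e (nat_lit 1015) (nat_lit 81) .nil))) .nil)))) (.nd (nat_lit 5) (.nd (nat_lit 6) 
(.lf (nat_lit 199583) (.g (nat_lit 3817) (.e (nat_lit 73733) (nat_lit 0) (.e (nat_lit 7270) (nat_lit 385) (.e (nat_lit 122919) (nat_lit 15) (.e (nat_lit 360451) (nat_lit 0) (.e (nat_lit 7265) (nat_lit 384) (.e (nat_lit 57347) (nat_lit 0) (.e (nat_lit 7936) (nat_lit 348) .nil))))))) (.g (nat_lit 6) .nil .nil))) 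
(.lf (nat_lit 199647) (.g (nat_lit 1399) (.e (nat_lit 73737) (nat_lit 0) (.e (nat_lit 5818) (nat_lit 320) (.e (nat_lit 1201) (nat_lit 88) (.e (nat_lit 65583) (nat_lit 7) (.e (nat_lit 319530) (nat_lit 16) .nil))))) .nil))) (.nd (nat_lit 6) 
(.lf (nat_lit 199615) (.g (nat_lit 561) (.e (nat_lit 73734) (nat_lit 0) (.e (nat_lit 7270) (nat_lit 385) (.e (nat_lit 122914) (nat_lit 14) .nil))) .nil)) 
(.lf (nat_lit 199679) (.g (nat_lit 1175) (.e (nat_lit 81664) (nat_lit 0) (.e (nat_lit 7266) (nat_lit 384) (.e (nat_lit 57423) (nat_lit 14) (.e (nat_lit 352272) (nat_lit 10) (.e (nat_lit 417793) (nat_lit 0) .nil))))) .nil)))))))))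

noncomputable def tv2639 : DT := (.nd (nat_lit 0) (.nd (nat_lit 1) (.nd (nat_lit 2) (.nd (nat_lit 3) (.nd (nat_lit 4) (.nd (nat_lit 5) 
(.lf (nat_lit 199680) (.g (nat_lit 1175) (.e (nat_lit 81664) (nat_lit 0) (.e (nat_lit 7266) (nat_lit 384) (.e (nat_lit 57423) (nat_lit 14) (.e (nat_lit 352272) (nat_lit 10) (.e (nat_lit 417795) (nat_lit 0) .nil))))) .nil)) 
(.lf (nat_lit 199712) (.g (nat_lit 1733) (.e (nat_lit 81664) (nat_lit 1) (.e (nat_lit 500046) (nat_lit 16) (.e (nat_lit 16466) (nat_lit 13) (.e (nat_lit 483330) (nat_lit 0) (.e (nat_lit 7936) (nat_lit 407) .nil))))) .nil))) (.nd (nat_lit 5) 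
(.lf (nat_lit 199696) (.g (nat_lit 703) (.e (nat_lit 73742) (nat_lit 1) (.e (nat_lit 507648) (nat_lit 16) (.e (nat_lit 16468) (nat_lit 13) (.e (nat_lit 483333) (nat_lit 0) (.e (nat_lit 7936) (nat_lit 407) .nil))))) (.g (nat_lit 4) .nil .nil))) 
(.lf (nat_lit 199728) (.g (nat_lit 1223) (.e (nat_lit 73744) (nat_lit 2) (.e (nat_lit 507907) (nat_lit 0) (.e (nat_lit 5409) (nat_lit 303) (.e (nat_lit 73744) (nat_lit 2) (.e (nat_lit 507908) (nat_lit 0) (.e (nat_lit 5412) (nat_lit 303) .nil)))))) (.g (nat_lit 0) .nil .nil))))) (.nd (nat_lit 4) (.nd (nat_lit 5) 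
(.lf (nat_lit 199688) (.g (nat_lit 634) (.e (nat_lit 73738) (nat_lit 1) (.e (nat_lit 499724) (nat_lit 0) (.e (nat_lit 1358) (nat_lit 102) (.e (nat_lit 286753) (nat_lit 10) (.e (nat_lit 344115) (nat_lit 20) .nil))))) .nil)) 
(.lf (nat_lit 199720) (.g (nat_lit 1227) (.e (nat_lit 73744) (nat_lit 2) (.e (nat_lit 507906) (nat_lit 0) (.e (nat_lit 5412) (nat_lit 303) (.e (nat_lit 73739) (nat_lit 1) (.e (nat_lit 499910) (nat_lit 8) (.e (nat_lit 171776) (nat_lit 192) .nil)))))) (.g (nat_lit 5) .nil .nil)))) (.nd (nat_lit 5) 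
(.lf (nat_lit 199704) (.g (nat_lit 1951) (.e (nat_lit 81664) (nat_lit 1) (.e (nat_lit 500046) (nat_lit 16) (.e (nat_lit 16433) (nat_lit 9) (.e (nat_lit 426558) (nat_lit 33) (.e (nat_lit 392960) (nat_lit 5) .nil))))) .nil)) 
(.lf (nat_lit 199736) (.g (nat_lit 1985) (.e (nat_lit 73744) (nat_lit 2) (.e (nat_lit 507907) (nat_lit 0) (.e (nat_lit 5410) (nat_lit 303) (.e (nat_lit 73747) (nat_lit 3) (.e (nat_lit 516098) (nat_lit 0) (.e (nat_lit 7593) (nat_lit 407) .nil)))))) (.g (nat_lit 0) .nil .nil)))))) (.nd (nat_lit 3) (.nd (nat_lit 4) (.nd (nat_lit 5) 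
(.lf (nat_lit 199684) (.g (nat_lit 1213) (.e (nat_lit 81664) (nat_lit 0) (.e (nat_lit 7266) (nat_lit 384) (.e (nat_lit 57424) (nat_lit 14) (.e (nat_lit 352272) (nat_lit 10) (.e (nat_lit 417795) (nat_lit 0) .nil))))) .nil)) 
(.lf (nat_lit 199716) (.g (nat_lit 1103) (.e (nat_lit 81664) (nat_lit 1) (.e (nat_lit 500056) (nat_lit 17) (.e (nat_lit 57575) (nat_lit 55) (.e (nat_lit 778452) (nat_lit 10) .nil)))) .nil))) (.nd (nat_lit 5) 
(.lf (nat_lit 199700) (.g (nat_lit 342) (.e (nat_lit 81664) (nat_lit 1) (.e (nat_lit 499910) (nat_lit 8) (.e (nat_lit 171776) (nat_lit 192) (.e (nat_lit 73744) (nat_lit 2) (.e (nat_lit 507907) (nat_lit 0) .nil))))) .nil)) 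
(.lf (nat_lit 199732) (.g (nat_lit 3013) (.e (nat_lit 73744) (nat_lit 2) (.e (nat_lit 507907) (nat_lit 0) (.e (nat_lit 5409) (nat_lit 303) (.e (nat_lit 73747) (nat_lit 3) (.e (nat_lit 516106) (nat_lit 0) (.e (nat_lit 7936) (nat_lit 407) .nil)))))) (.g (nat_lit 5) .nil .nil))))) (.nd (nat_lit 4) (.nd (nat_lit 5) 
(.lf (nat_lit 199692) (.g (nat_lit 2509) (.e (nat_lit 73742) (nat_lit 1) (.e (nat_lit 499991) (nat_lit 14) (.e (nat_lit 1281) (nat_lit 94) (.e (nat_lit 114719) (nat_lit 23) (.e (nat_lit 98356) (nat_lit 26) (.e (nat_lit 426428) (nat_lit 17) (.e (nat_lit 98048) (nat_lit 5) .nil))))))) (.g (nat_lit 6) .nil .nil))) 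
(.lf (nat_lit 199724) (.g (nat_lit 1161) (.e (nat_lit 73744) (nat_lit 2) (.e (nat_lit 507906) (nat_lit 0) (.e (nat_lit 5412) (nat_lit 303) (.e (nat_lit 73746) (nat_lit 3) (.e (nat_lit 516105) (nat_lit 0) (.e (nat_lit 7936) (nat_lit 407) .nil)))))) (.g (nat_lit 5) .nil .nil)))) (.nd (nat_lit 5) 
(.lf (nat_lit 199708) (.g (nat_lit 1205) (.e (nat_lit 81664) (nat_lit 1) (.e (nat_lit 500046) (nat_lit 16) (.e (nat_lit 16463) (nat_lit 13) (.e (nat_lit 483331) (nat_lit 0) .nil)))) .nil)) 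
(.lf (nat_lit 199740) (.g (nat_lit 1129) (.e (nat_lit 73744) (nat_lit 2) (.e (nat_lit 507907) (nat_lit 0) (.e (nat_lit 5412) (nat_lit 303) (.e (nat_lit 73744) (nat_lit 2) (.e (nat_lit 507908) (nat_lit 0) (.e (nat_lit 5410) (nat_lit 303) .nil)))))) (.g (nat_lit 0) .nil .nil))))))) (.nd (nat_lit 2) (.nd (nat_lit 3) (.nd (nat_lit 4) (.nd (nat_lit 5) 
(.lf (nat_lit 199682) (.g (nat_lit 897) (.e (nat_lit 81664) (nat_lit 0) (.e (nat_lit 7266) (nat_lit 384) (.e (nat_lit 57424) (nat_lit 14) (.e (nat_lit 352272) (nat_lit 10) .nil)))) .nil)) 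
(.lf (nat_lit 199714) (.g (nat_lit 2289) (.e (nat_lit 81664) (nat_lit 1) (.e (nat_lit 500056) (nat_lit 17) (.e (nat_lit 57574) (nat_lit 55) (.e (nat_lit 778362) (nat_lit 9) (.e (nat_lit 71) (nat_lit 0) .nil))))) .nil))) (.nd (nat_lit 5) 
(.lf (nat_lit 199698) (.g (nat_lit 2634) (.e (nat_lit 73743) (nat_lit 1) (.e (nat_lit 499991) (nat_lit 14) (.e (nat_lit 1281) (nat_lit 94) (.e (nat_lit 114719) (nat_lit 23) (.e (nat_lit 98384) (nat_lit 32) (.e (nat_lit 475169) (nat_lit 22) (.e (nat_lit 507648) (nat_lit 19) .nil))))))) (.g (nat_lit 6) .nil .nil))) 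
(.lf (nat_lit 199730) (.g (nat_lit 2849) (.e (nat_lit 73744) (nat_lit 2) (.e (nat_lit 507907) (nat_lit 0) (.e (nat_lit 5409) (nat_lit 303) (.e (nat_lit 73747) (nat_lit 3) (.e (nat_lit 516097) (nat_lit 0) (.e (nat_lit 7593) (nat_lit 407) .nil)))))) (.g (nat_lit 0) .nil .nil))))) (.nd (nat_lit 4) (.nd (nat_lit 5) 
(.lf (nat_lit 199690) (.g (nat_lit 2610) (.e (nat_lit 73742) (nat_lit 1) (.e (nat_lit 499991) (nat_lit 14) (.e (nat_lit 1279) (nat_lit 94) (.e (nat_lit 114718) (nat_lit 23) (.e (nat_lit 98356) (nat_lit 26) (.e (nat_lit 426428) (nat_lit 17) (.e (nat_lit 98048) (nat_lit 5) .nil))))))) (.g (nat_lit 6) .nil .nil))) 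
(.lf (nat_lit 199722) (.g (nat_lit 1087) (.e (nat_lit 73744) (nat_lit 2) (.e (nat_lit 507906) (nat_lit 0) (.e (nat_lit 5412) (nat_lit 303) (.e (nat_lit 73746) (nat_lit 3) (.e (nat_lit 516100) (nat_lit 0) (.e (nat_lit 7936) (nat_lit 407) .nil)))))) (.g (nat_lit 5) .nil .nil)))) (.nd (nat_lit 5) 
(.lf (nat_lit 199706) (.g (nat_lit 1063) (.e (nat_lit 81664) (nat_lit 1) (.e (nat_lit 500046) (nat_lit 16) (.e (nat_lit 16436) (nat_lit 9) (.e (nat_lit 426562) (nat_lit 33) .nil)))) .nil)) 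
(.lf (nat_lit 199738) (.g (nat_lit 1047) (.e (nat_lit 73744) (nat_lit 2) (.e (nat_lit 507907) (nat_lit 0) (.e (nat_lit 5412) (nat_lit 303) (.e (nat_lit 73744) (nat_lit 2) (.e (nat_lit 507907) (nat_lit 0) (.e (nat_lit 5410) (nat_lit 303) .nil)))))) (.g (nat_lit 0) .nil .nil)))))) (.nd (nat_lit 3) (.nd (nat_lit 4) (.nd (nat_lit 5) 
(.lf (nat_lit 199686) (.g (nat_lit 542) (.e (nat_lit 81664) (nat_lit 0) (.e (nat_lit 7273) (nat_lit 385) (.e (nat_lit 122914) (nat_lit 14) (.e (nat_lit 352272) (nat_lit 10) (.e (nat_lit 417793) (nat_lit 0) .nil))))) .nil)) 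
(.lf (nat_lit 199718) (.g (nat_lit 1166) (.e (nat_lit 81664) (nat_lit 1) (.e (nat_lit 500056) (nat_lit 17) (.e (nat_lit 57575) (nat_lit 55) (.e (nat_lit 778455) (nat_lit 10) .nil)))) .nil))) (.nd (nat_lit 5) 
(.lf (nat_lit 199702) (.g (nat_lit 2148) (.e (nat_lit 81664) (nat_lit 1) (.e (nat_lit 500046) (nat_lit 16) (.e (nat_lit 16416) (nat_lit 3) (.e (nat_lit 204837) (nat_lit 20) (.e (nat_lit 114700) (nat_lit 20) .nil))))) .nil)) 
(.lf (nat_lit 199734) (.g (nat_lit 975) (.e (nat_lit 73744) (nat_lit 2) (.e (nat_lit 507907) (nat_lit 0) (.e (nat_lit 5410) (nat_lit 303) (.e (nat_lit 73744) (nat_lit 2) (.e (nat_lit 507908) (nat_lit 0) (.e (nat_lit 5410) (nat_lit 303) .nil)))))) (.g (nat_lit 0) .nil .nil))))) (.nd (nat_lit 4) (.nd (nat_lit 5) 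
(.lf (nat_lit 199694) (.g (nat_lit 1249) (.e (nat_lit 73742) (nat_lit 1) (.e (nat_lit 500044) (nat_lit 16) (.e (nat_lit 16438) (nat_lit 9) (.e (nat_lit 426562) (nat_lit 33) (.e (nat_lit 392960) (nat_lit 5) .nil))))) (.g (nat_lit 4) .nil .nil))) 
(.lf (nat_lit 199726) (.g (nat_lit 1195) (.e (nat_lit 73744) (nat_lit 2) (.e (nat_lit 507907) (nat_lit 0) (.e (nat_lit 5409) (nat_lit 303) (.e (nat_lit 73744) (nat_lit 2) (.e (nat_lit 507907) (nat_lit 0) (.e (nat_lit 5412) (nat_lit 303) .nil)))))) (.g (nat_lit 0) .nil .nil)))) (.nd (nat_lit 5) 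
(.lf (nat_lit 199710) (.g (nat_lit 1418) (.e (nat_lit 81664) (nat_lit 1) (.e (nat_lit 500046) (nat_lit 16) (.e (nat_lit 16466) (nat_lit 13) (.e (nat_lit 483328) (nat_lit 0) .nil)))) .nil)) 
(.lf (nat_lit 199742) (.g (nat_lit 2270) (.e (nat_lit 73744) (nat_lit 2) (.e (nat_lit 507907) (nat_lit 0) (.e (nat_lit 5412) (nat_lit 303) (.e (nat_lit 73746) (nat_lit 3) (.e (nat_lit 516098) (nat_lit 0) (.e (nat_lit 7591) (nat_lit 407) .nil)))))) (.g (nat_lit 0) .nil .nil)))))))) (.nd (nat_lit 1) (.nd (nat_lit 2) (.nd (nat_lit 3) (.nd (nat_lit 4) (.nd (nat_lit 5) 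
(.lf (nat_lit 199681) (.g (nat_lit 1318) (.e (nat_lit 81664) (nat_lit 0) (.e (nat_lit 7266) (nat_lit 384) (.e (nat_lit 57423) (nat_lit 14) (.e (nat_lit 352277) (nat_lit 11) .nil)))) .nil)) 
(.lf (nat_lit 199713) (.g (nat_lit 1781) (.e (nat_lit 81664) (nat_lit 1) (.e (nat_lit 500046) (nat_lit 16) (.e (nat_lit 16466) (nat_lit 13) (.e (nat_lit 483331) (nat_lit 0) (.e (nat_lit 7936) (nat_lit 407) .nil))))) .nil))) (.nd (nat_lit 5) 
(.lf (nat_lit 199697) (.g (nat_lit 2528) (.e (nat_lit 73743) (nat_lit 1) (.e (nat_lit 499991) (nat_lit 14) (.e (nat_lit 1279) (nat_lit 94) (.e (nat_lit 114718) (nat_lit 23) (.e (nat_lit 98356) (nat_lit 26) (.e (nat_lit 426428) (nat_lit 17) (.e (nat_lit 98048) (nat_lit 5) .nil))))))) (.g (nat_lit 6) .nil .nil))) 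
(.lf (nat_lit 199729) (.g (nat_lit 1103) (.e (nat_lit 73744) (nat_lit 2) (.e (nat_lit 507907) (nat_lit 0) (.e (nat_lit 5409) (nat_lit 303) (.e (nat_lit 73744) (nat_lit 2) (.e (nat_lit 507908) (nat_lit 0) (.e (nat_lit 5413) (nat_lit 303) .nil)))))) (.g (nat_lit 0) .nil .nil))))) (.nd (nat_lit 4) (.nd (nat_lit 5) 
(.lf (nat_lit 199689) (.g (nat_lit 264) (.e (nat_lit 73740) (nat_lit 1) (.e (nat_lit 499910) (nat_lit 8) (.e (nat_lit 171776) (nat_lit 192) .nil))) .nil)) 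
(.lf (nat_lit 199721) (.g (nat_lit 1159) (.e (nat_lit 73744) (nat_lit 2) (.e (nat_lit 507906) (nat_lit 0) (.e (nat_lit 5412) (nat_lit 303) (.e (nat_lit 73744) (nat_lit 2) (.e (nat_lit 507907) (nat_lit 0) (.e (nat_lit 5409) (nat_lit 303) .nil)))))) (.g (nat_lit 6) .nil .nil)))) (.nd (nat_lit 5) 
(.lf (nat_lit 199705) (.g (nat_lit 1886) (.e (nat_lit 81664) (nat_lit 1) (.e (nat_lit 500046) (nat_lit 16) (.e (nat_lit 16436) (nat_lit 9) (.e (nat_lit 426558) (nat_lit 33) (.e (nat_lit 392960) (nat_lit 5) .nil))))) .nil)) 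
(.lf (nat_lit 199737) (.g (nat_lit 1328) (.e (nat_lit 73744) (nat_lit 2) (.e (nat_lit 507907) (nat_lit 0) (.e (nat_lit 5412) (nat_lit 303) (.e (nat_lit 73739) (nat_lit 1) (.e (nat_lit 499910) (nat_lit 8) (.e (nat_lit 171776) (nat_lit 192) .nil)))))) (.g (nat_lit 5) .nil .nil)))))) (.nd (nat_lit 3) (.nd (nat_lit 4) (.nd (nat_lit 5) 
(.lf (nat_lit 199685) (.g (nat_lit 583) (.e (nat_lit 81664) (nat_lit 0) (.e (nat_lit 7266) (nat_lit 384) (.e (nat_lit 57435) (nat_lit 17) .nil))) .nil)) 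
(.lf (nat_lit 199717) (.g (nat_lit 1148) (.e (nat_lit 81664) (nat_lit 1) (.e (nat_lit 500056) (nat_lit 17) (.e (nat_lit 57575) (nat_lit 55) (.e (nat_lit 778454) (nat_lit 10) .nil)))) .nil))) (.nd (nat_lit 5) 
(.lf (nat_lit 199701) (.g (nat_lit 344) (.e (nat_lit 81664) (nat_lit 1) (.e (nat_lit 499910) (nat_lit 8) (.e (nat_lit 171776) (nat_lit 192) (.e (nat_lit 73744) (nat_lit 2) (.e (nat_lit 507908) (nat_lit 0) .nil))))) .nil)) 
(.lf (nat_lit 199733) (.g (nat_lit 892) (.e (nat_lit 73744) (nat_lit 2) (.e (nat_lit 507907) (nat_lit 0) (.e (nat_lit 5410) (nat_lit 303) (.e (nat_lit 73744) (nat_lit 2) (.e (nat_lit 507907) (nat_lit 0) (.e (nat_lit 5410) (nat_lit 303) .nil)))))) (.g (nat_lit 0) .nil .nil))))) (.nd (nat_lit 4) (.nd (nat_lit 5) 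
(.lf (nat_lit 199693) (.g (nat_lit 1185) (.e (nat_lit 73742) (nat_lit 1) (.e (nat_lit 500044) (nat_lit 16) (.e (nat_lit 16438) (nat_lit 9) (.e (nat_lit 426558) (nat_lit 33) (.e (nat_lit 392960) (nat_lit 5) .nil))))) (.g (nat_lit 4) .nil .nil))) 
(.lf (nat_lit 199725) (.g (nat_lit 1310) (.e (nat_lit 73744) (nat_lit 2) (.e (nat_lit 507907) (nat_lit 0) (.e (nat_lit 5401) (nat_lit 302) (.e (nat_lit 65568) (nat_lit 2) (.e (nat_lit 90165) (nat_lit 12) (.e (nat_lit 171776) (nat_lit 192) .nil)))))) (.g (nat_lit 5) .nil .nil)))) (.nd (nat_lit 5) 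
(.lf (nat_lit 199709) (.g (nat_lit 1065) (.e (nat_lit 81664) (nat_lit 1) (.e (nat_lit 500046) (nat_lit 16) (.e (nat_lit 16463) (nat_lit 13) (.e (nat_lit 491264) (nat_lit 0) .nil)))) .nil)) 
(.lf (nat_lit 199741) (.g (nat_lit 1276) (.e (nat_lit 73744) (nat_lit 2) (.e (nat_lit 507907) (nat_lit 0) (.e (nat_lit 5412) (nat_lit 303) (.e (nat_lit 73744) (nat_lit 2) (.e (nat_lit 507908) (nat_lit 0) (.e (nat_lit 5412) (nat_lit 303) .nil)))))) (.g (nat_lit 0) .nil .nil))))))) (.nd (nat_lit 2) (.nd (nat_lit 3) (.nd (nat_lit 4) (.nd (nat_lit 5) 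
(.lf (nat_lit 199683) (.g (nat_lit 1195) (.e (nat_lit 81664) (nat_lit 0) (.e (nat_lit 7266) (nat_lit 384) (.e (nat_lit 57424) (nat_lit 14) (.e (nat_lit 352272) (nat_lit 10) (.e (nat_lit 417793) (nat_lit 0) .nil))))) .nil)) 
(.lf (nat_lit 199715) (.g (nat_lit 1128) (.e (nat_lit 81664) (nat_lit 1) (.e (nat_lit 500056) (nat_lit 17) (.e (nat_lit 57574) (nat_lit 55) (.e (nat_lit 778455) (nat_lit 10) .nil)))) .nil))) (.nd (nat_lit 5) 
(.lf (nat_lit 199699) (.g (nat_lit 243) (.e (nat_lit 81664) (nat_lit 1) (.e (nat_lit 499910) (nat_lit 8) (.e (nat_lit 171776) (nat_lit 192) .nil))) .nil)) 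
(.lf (nat_lit 199731) (.g (nat_lit 2392) (.e (nat_lit 73744) (nat_lit 2) (.e (nat_lit 507907) (nat_lit 0) (.e (nat_lit 5409) (nat_lit 303) (.e (nat_lit 73747) (nat_lit 3) (.e (nat_lit 516098) (nat_lit 0) (.e (nat_lit 7593) (nat_lit 407) .nil)))))) (.g (nat_lit 0) .nil .nil))))) (.nd (nat_lit 4) (.nd (nat_lit 5) 
(.lf (nat_lit 199691) (.g (nat_lit 2598) (.e (nat_lit 73742) (nat_lit 1) (.e (nat_lit 499991) (nat_lit 14) (.e (nat_lit 1281) (nat_lit 94) (.e (nat_lit 114718) (nat_lit 23) (.e (nat_lit 98356) (nat_lit 26) (.e (nat_lit 426428) (nat_lit 17) (.e (nat_lit 98048) (nat_lit 5) .nil))))))) (.g (nat_lit 6) .nil .nil))) 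
(.lf (nat_lit 199723) (.g (nat_lit 1058) (.e (nat_lit 73744) (nat_lit 2) (.e (nat_lit 507906) (nat_lit 0) (.e (nat_lit 5412) (nat_lit 303) (.e (nat_lit 73746) (nat_lit 3) (.e (nat_lit 516104) (nat_lit 0) (.e (nat_lit 7936) (nat_lit 407) .nil)))))) (.g (nat_lit 5) .nil .nil)))) (.nd (nat_lit 5) 
(.lf (nat_lit 199707) (.g (nat_lit 350) (.e (nat_lit 81664) (nat_lit 1) (.e (nat_lit 500046) (nat_lit 16) (.e (nat_lit 16463) (nat_lit 13) .nil))) .nil)) 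
(.lf (nat_lit 199739) (.g (nat_lit 1200) (.e (nat_lit 73744) (nat_lit 2) (.e (nat_lit 507907) (nat_lit 0) (.e (nat_lit 5412) (nat_lit 303) (.e (nat_lit 73744) (nat_lit 2) (.e (nat_lit 507907) (nat_lit 0) (.e (nat_lit 5412) (nat_lit 303) .nil)))))) (.g (nat_lit 0) .nil .nil)))))) (.nd (nat_lit 3) (.nd (nat_lit 4) (.nd (nat_lit 5) 
(.lf (nat_lit 199687) (.g (nat_lit 657) (.e (nat_lit 81664) (nat_lit 0) (.e (nat_lit 7273) (nat_lit 385) (.e (nat_lit 122916) (nat_lit 14) (.e (nat_lit 352272) (nat_lit 10) (.e (nat_lit 417793) (nat_lit 0) .nil))))) .nil)) 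
(.lf (nat_lit 199719) (.g (nat_lit 4553) (.e (nat_lit 73744) (nat_lit 2) (.e (nat_lit 507906) (nat_lit 0) (.e (nat_lit 720) (nat_lit 64) (.e (nat_lit 688170) (nat_lit 15) (.e (nat_lit 57480) (nat_lit 28) (.e (nat_lit 557105) (nat_lit 14) (.e (nat_lit 180252) (nat_lit 10) (.e (nat_lit 573488) (nat_lit 14) .nil)))))))) (.g (nat_lit 8) .nil .nil)))) (.nd (nat_lit 5) 
(.lf (nat_lit 199703) (.g (nat_lit 2145) (.e (nat_lit 81664) (nat_lit 1) (.e (nat_lit 500046) (nat_lit 16) (.e (nat_lit 16416) (nat_lit 3) (.e (nat_lit 204837) (nat_lit 20) (.e (nat_lit 114702) (nat_lit 20) .nil))))) .nil)) 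
(.lf (nat_lit 199735) (.g (nat_lit 1902) (.e (nat_lit 73744) (nat_lit 2) (.e (nat_lit 507907) (nat_lit 0) (.e (nat_lit 5410) (nat_lit 303) (.e (nat_lit 73747) (nat_lit 3) (.e (nat_lit 516098) (nat_lit 0) (.e (nat_lit 7591) (nat_lit 407) .nil)))))) (.g (nat_lit 0) .nil .nil))))) (.nd (nat_lit 4) (.nd (nat_lit 5) 
(.lf (nat_lit 199695) (.g (nat_lit 812) (.e (nat_lit 73742) (nat_lit 1) (.e (nat_lit 500044) (nat_lit 16) (.e (nat_lit 16468) (nat_lit 13) (.e (nat_lit 483333) (nat_lit 0) (.e (nat_lit 7936) (nat_lit 407) .nil))))) (.g (nat_lit 4) .nil .nil))) 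
(.lf (nat_lit 199727) (.g (nat_lit 1024) (.e (nat_lit 73744) (nat_lit 2) (.e (nat_lit 507907) (nat_lit 0) (.e (nat_lit 5409) (nat_lit 303) (.e (nat_lit 73744) (nat_lit 2) (.e (nat_lit 507907) (nat_lit 0) (.e (nat_lit 5413) (nat_lit 303) .nil)))))) (.g (nat_lit 0) .nil .nil)))) (.nd (nat_lit 5) 
(.lf (nat_lit 199711) (.g (nat_lit 1802) (.e (nat_lit 81664) (nat_lit 1) (.e (nat_lit 500046) (nat_lit 16) (.e (nat_lit 16466) (nat_lit 13) (.e (nat_lit 483329) (nat_lit 0) (.e (nat_lit 7936) (nat_lit 407) .nil))))) .nil)) 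
(.lf (nat_lit 199743) (.g (nat_lit 2349) (.e (nat_lit 73744) (nat_lit 2) (.e (nat_lit 507907) (nat_lit 0) (.e (nat_lit 5412) (nat_lit 303) (.e (nat_lit 73746) (nat_lit 3) (.e (nat_lit 516098) (nat_lit 0) (.e (nat_lit 7593) (nat_lit 407) .nil)))))) (.g (nat_lit 0) .nil .nil)))))))))

noncomputable def tv2640 : DT := (.nd (nat_lit 0) (.nd (nat_lit 1) (.nd (nat_lit 2) (.nd (nat_lit 3) (.nd (nat_lit 4) (.nd (nat_lit 5) 
(.lf (nat_lit 199744) (.g (nat_lit 1079) (.e (nat_lit 73744) (nat_lit 2) (.e (nat_lit 507907) (nat_lit 0) (.e (nat_lit 5412) (nat_lit 303) (.e (nat_lit 73746) (nat_lit 3) (.e (nat_lit 516100) (nat_lit 0) (.e (nat_lit 7936) (nat_lit 407) .nil)))))) (.g (nat_lit 5) .nil .nil))) 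
(.lf (nat_lit 199776) (.g (nat_lit 1080) (.e (nat_lit 73744) (nat_lit 2) (.e (nat_lit 507908) (nat_lit 0) (.e (nat_lit 5413) (nat_lit 303) (.e (nat_lit 73744) (nat_lit 2) (.e (nat_lit 507906) (nat_lit 0) (.e (nat_lit 5412) (nat_lit 303) .nil)))))) (.g (nat_lit 6) .nil .nil)))) (.nd (nat_lit 5) 
(.lf (nat_lit 199760) (.g (nat_lit 2899) (.e (nat_lit 73744) (nat_lit 2) (.e (nat_lit 507908) (nat_lit 0) (.e (nat_lit 5409) (nat_lit 303) (.e (nat_lit 73747) (nat_lit 3) (.e (nat_lit 516097) (nat_lit 0) (.e (nat_lit 7593) (nat_lit 407) .nil)))))) (.g (nat_lit 0) .nil .nil))) 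
(.lf (nat_lit 199792) (.g (nat_lit 2609) (.e (nat_lit 73744) (nat_lit 2) (.e (nat_lit 507923) (nat_lit 6) (.e (nat_lit 286747) (nat_lit 9) (.e (nat_lit 336013) (nat_lit 2) (.e (nat_lit 90133) (nat_lit 9) (.e (nat_lit 2397) (nat_lit 157) (.e (nat_lit 7590) (nat_lit 407) .nil))))))) (.g (nat_lit 5) .nil .nil))))) (.nd (nat_lit 4) (.nd (nat_lit 5) 
(.lf (nat_lit 199752) (.g (nat_lit 1089) (.e (nat_lit 73744) (nat_lit 2) (.e (nat_lit 507907) (nat_lit 0) (.e (nat_lit 5413) (nat_lit 303) (.e (nat_lit 73744) (nat_lit 2) (.e (nat_lit 507908) (nat_lit 0) (.e (nat_lit 5412) (nat_lit 303) .nil)))))) (.g (nat_lit 0) .nil .nil))) 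
(.lf (nat_lit 199784) (.g (nat_lit 1445) (.e (nat_lit 73744) (nat_lit 2) (.e (nat_lit 507921) (nat_lit 6) (.e (nat_lit 286749) (nat_lit 9) (.e (nat_lit 336028) (nat_lit 3) (.e (nat_lit 98325) (nat_lit 17) (.e (nat_lit 7936) (nat_lit 407) .nil)))))) (.g (nat_lit 4) .nil .nil)))) (.nd (nat_lit 5) 
(.lf (nat_lit 199768) (.g (nat_lit 1123) (.e (nat_lit 73744) (nat_lit 2) (.e (nat_lit 507908) (nat_lit 0) (.e (nat_lit 5412) (nat_lit 303) (.e (nat_lit 73744) (nat_lit 2) (.e (nat_lit 507907) (nat_lit 0) (.e (nat_lit 5410) (nat_lit 303) .nil)))))) (.g (nat_lit 0) .nil .nil))) 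
(.lf (nat_lit 199800) (.g (nat_lit 1606) (.e (nat_lit 73744) (nat_lit 2) (.e (nat_lit 507923) (nat_lit 6) (.e (nat_lit 286753) (nat_lit 10) (.e (nat_lit 344115) (nat_lit 20) (.e (nat_lit 507908) (nat_lit 0) (.e (nat_lit 5409) (nat_lit 303) .nil)))))) (.g (nat_lit 0) .nil .nil)))))) (.nd (nat_lit 3) (.nd (nat_lit 4) (.nd (nat_lit 5) 
(.lf (nat_lit 199748) (.g (nat_lit 872) (.e (nat_lit 73744) (nat_lit 2) (.e (nat_lit 507907) (nat_lit 0) (.e (nat_lit 5413) (nat_lit 303) (.e (nat_lit 73744) (nat_lit 2) (.e (nat_lit 507907) (nat_lit 0) (.e (nat_lit 5410) (nat_lit 303) .nil)))))) (.g (nat_lit 0) .nil .nil))) 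
(.lf (nat_lit 199780) (.g (nat_lit 1188) (.e (nat_lit 73744) (nat_lit 2) (.e (nat_lit 507908) (nat_lit 0) (.e (nat_lit 5413) (nat_lit 303) (.e (nat_lit 73744) (nat_lit 2) (.e (nat_lit 507908) (nat_lit 0) (.e (nat_lit 5412) (nat_lit 303) .nil)))))) (.g (nat_lit 0) .nil .nil)))) (.nd (nat_lit 5) 
(.lf (nat_lit 199764) (.g (nat_lit 1060) (.e (nat_lit 73744) (nat_lit 2) (.e (nat_lit 507908) (nat_lit 0) (.e (nat_lit 5410) (nat_lit 303) (.e (nat_lit 73744) (nat_lit 2) (.e (nat_lit 507908) (nat_lit 0) (.e (nat_lit 5410) (nat_lit 303) .nil)))))) (.g (nat_lit 0) .nil .nil))) 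
(.lf (nat_lit 199796) (.g (nat_lit 2717) (.e (nat_lit 73744) (nat_lit 2) (.e (nat_lit 507923) (nat_lit 6) (.e (nat_lit 286747) (nat_lit 9) (.e (nat_lit 336013) (nat_lit 2) (.e (nat_lit 90133) (nat_lit 9) (.e (nat_lit 2400) (nat_lit 157) (.e (nat_lit 7592) (nat_lit 407) .nil))))))) (.g (nat_lit 5) .nil .nil))))) (.nd (nat_lit 4) (.nd (nat_lit 5) 
(.lf (nat_lit 199756) (.g (nat_lit 1275) (.e (nat_lit 73744) (nat_lit 2) (.e (nat_lit 507908) (nat_lit 0) (.e (nat_lit 5409) (nat_lit 303) (.e (nat_lit 73744) (nat_lit 2) (.e (nat_lit 507907) (nat_lit 0) (.e (nat_lit 5412) (nat_lit 303) .nil)))))) (.g (nat_lit 0) .nil .nil))) 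
(.lf (nat_lit 199788) (.g (nat_lit 2345) (.e (nat_lit 73744) (nat_lit 2) (.e (nat_lit 507921) (nat_lit 6) (.e (nat_lit 286756) (nat_lit 10) (.e (nat_lit 344117) (nat_lit 21) (.e (nat_lit 516098) (nat_lit 0) (.e (nat_lit 7593) (nat_lit 407) .nil)))))) (.g (nat_lit 0) .nil .nil)))) (.nd (nat_lit 5) 
(.lf (nat_lit 199772) (.g (nat_lit 2399) (.e (nat_lit 73744) (nat_lit 2) (.e (nat_lit 507908) (nat_lit 0) (.e (nat_lit 5412) (nat_lit 303) (.e (nat_lit 73746) (nat_lit 3) (.e (nat_lit 516098) (nat_lit 0) (.e (nat_lit 7593) (nat_lit 407) .nil)))))) (.g (nat_lit 0) .nil .nil))) 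
(.lf (nat_lit 199804) (.g (nat_lit 2323) (.e (nat_lit 73744) (nat_lit 2) (.e (nat_lit 507923) (nat_lit 6) (.e (nat_lit 286756) (nat_lit 10) (.e (nat_lit 344117) (nat_lit 21) (.e (nat_lit 516098) (nat_lit 0) (.e (nat_lit 7591) (nat_lit 407) .nil)))))) (.g (nat_lit 0) .nil .nil))))))) (.nd (nat_lit 2) (.nd (nat_lit 3) (.nd (nat_lit 4) (.nd (nat_lit 5) 
(.lf (nat_lit 199746) (.g (nat_lit 1158) (.e (nat_lit 73744) (nat_lit 2) (.e (nat_lit 507907) (nat_lit 0) (.e (nat_lit 5412) (nat_lit 303) (.e (nat_lit 73746) (nat_lit 3) (.e (nat_lit 516105) (nat_lit 0) (.e (nat_lit 7936) (nat_lit 407) .nil)))))) (.g (nat_lit 5) .nil .nil))) 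
(.lf (nat_lit 199778) (.g (nat_lit 1123) (.e (nat_lit 73744) (nat_lit 2) (.e (nat_lit 507908) (nat_lit 0) (.e (nat_lit 5413) (nat_lit 303) (.e (nat_lit 73744) (nat_lit 2) (.e (nat_lit 507907) (nat_lit 0) (.e (nat_lit 5412) (nat_lit 303) .nil)))))) (.g (nat_lit 0) .nil .nil)))) (.nd (nat_lit 5) 
(.lf (nat_lit 199762) (.g (nat_lit 2452) (.e (nat_lit 73744) (nat_lit 2) (.e (nat_lit 507908) (nat_lit 0) (.e (nat_lit 5409) (nat_lit 303) (.e (nat_lit 73747) (nat_lit 3) (.e (nat_lit 516098) (nat_lit 0) (.e (nat_lit 7593) (nat_lit 407) .nil)))))) (.g (nat_lit 0) .nil .nil))) 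
(.lf (nat_lit 199794) (.g (nat_lit 2959) (.e (nat_lit 73744) (nat_lit 2) (.e (nat_lit 507923) (nat_lit 6) (.e (nat_lit 286747) (nat_lit 9) (.e (nat_lit 336013) (nat_lit 2) (.e (nat_lit 90133) (nat_lit 9) (.e (nat_lit 2397) (nat_lit 157) (.e (nat_lit 7592) (nat_lit 407) .nil))))))) (.g (nat_lit 6) .nil .nil))))) (.nd (nat_lit 4) (.nd (nat_lit 5) 
(.lf (nat_lit 199754) (.g (nat_lit 1386) (.e (nat_lit 73744) (nat_lit 2) (.e (nat_lit 507908) (nat_lit 0) (.e (nat_lit 5401) (nat_lit 302) (.e (nat_lit 65568) (nat_lit 2) (.e (nat_lit 90165) (nat_lit 12) (.e (nat_lit 171776) (nat_lit 192) .nil)))))) (.g (nat_lit 5) .nil .nil))) 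
(.lf (nat_lit 199786) (.g (nat_lit 1366) (.e (nat_lit 73744) (nat_lit 2) (.e (nat_lit 507921) (nat_lit 6) (.e (nat_lit 286756) (nat_lit 10) (.e (nat_lit 344115) (nat_lit 20) (.e (nat_lit 507907) (nat_lit 0) (.e (nat_lit 5413) (nat_lit 303) .nil)))))) (.g (nat_lit 5) .nil .nil)))) (.nd (nat_lit 5) 
(.lf (nat_lit 199770) (.g (nat_lit 1352) (.e (nat_lit 73744) (nat_lit 2) (.e (nat_lit 507908) (nat_lit 0) (.e (nat_lit 5412) (nat_lit 303) (.e (nat_lit 73744) (nat_lit 2) (.e (nat_lit 507908) (nat_lit 0) (.e (nat_lit 5412) (nat_lit 303) .nil)))))) (.g (nat_lit 0) .nil .nil))) 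
(.lf (nat_lit 199802) (.g (nat_lit 1604) (.e (nat_lit 73744) (nat_lit 2) (.e (nat_lit 507923) (nat_lit 6) (.e (nat_lit 286754) (nat_lit 10) (.e (nat_lit 344115) (nat_lit 20) (.e (nat_lit 507907) (nat_lit 0) (.e (nat_lit 5409) (nat_lit 303) .nil)))))) (.g (nat_lit 0) .nil .nil)))))) (.nd (nat_lit 3) (.nd (nat_lit 4) (.nd (nat_lit 5) 
(.lf (nat_lit 199750) (.g (nat_lit 842) (.e (nat_lit 73744) (nat_lit 2) (.e (nat_lit 507907) (nat_lit 0) (.e (nat_lit 5413) (nat_lit 303) (.e (nat_lit 73744) (nat_lit 2) (.e (nat_lit 507907) (nat_lit 0) (.e (nat_lit 5413) (nat_lit 303) .nil)))))) (.g (nat_lit 0) .nil .nil))) 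
(.lf (nat_lit 199782) (.g (nat_lit 2534) (.e (nat_lit 73744) (nat_lit 2) (.e (nat_lit 507921) (nat_lit 6) (.e (nat_lit 286749) (nat_lit 9) (.e (nat_lit 336013) (nat_lit 2) (.e (nat_lit 90165) (nat_lit 12) (.e (nat_lit 171776) (nat_lit 192) .nil)))))) (.g (nat_lit 5) .nil .nil)))) (.nd (nat_lit 5) 
(.lf (nat_lit 199766) (.g (nat_lit 2054) (.e (nat_lit 73744) (nat_lit 2) (.e (nat_lit 507908) (nat_lit 0) (.e (nat_lit 5410) (nat_lit 303) (.e (nat_lit 73747) (nat_lit 3) (.e (nat_lit 516098) (nat_lit 0) (.e (nat_lit 7593) (nat_lit 407) .nil)))))) (.g (nat_lit 0) .nil .nil))) 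
(.lf (nat_lit 199798) (.g (nat_lit 1370) (.e (nat_lit 73744) (nat_lit 2) (.e (nat_lit 507923) (nat_lit 6) (.e (nat_lit 286747) (nat_lit 9) (.e (nat_lit 336028) (nat_lit 3) (.e (nat_lit 98320) (nat_lit 17) .nil))))) .nil)))) (.nd (nat_lit 4) (.nd (nat_lit 5) 
(.lf (nat_lit 199758) (.g (nat_lit 1302) (.e (nat_lit 73744) (nat_lit 2) (.e (nat_lit 507908) (nat_lit 0) (.e (nat_lit 5409) (nat_lit 303) (.e (nat_lit 73744) (nat_lit 2) (.e (nat_lit 507908) (nat_lit 0) (.e (nat_lit 5412) (nat_lit 303) .nil)))))) (.g (nat_lit 0) .nil .nil))) 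
(.lf (nat_lit 199790) (.g (nat_lit 1246) (.e (nat_lit 73744) (nat_lit 2) (.e (nat_lit 507922) (nat_lit 6) (.e (nat_lit 286756) (nat_lit 10) (.e (nat_lit 344115) (nat_lit 20) (.e (nat_lit 507907) (nat_lit 0) (.e (nat_lit 5413) (nat_lit 303) .nil)))))) (.g (nat_lit 5) .nil .nil)))) (.nd (nat_lit 5) 
(.lf (nat_lit 199774) (.g (nat_lit 1108) (.e (nat_lit 73744) (nat_lit 2) (.e (nat_lit 507908) (nat_lit 0) (.e (nat_lit 5412) (nat_lit 303) (.e (nat_lit 73746) (nat_lit 3) (.e (nat_lit 516104) (nat_lit 0) (.e (nat_lit 7936) (nat_lit 407) .nil)))))) (.g (nat_lit 5) .nil .nil))) 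
(.lf (nat_lit 199806) (.g (nat_lit 726) (.e (nat_lit 81664) (nat_lit 2) (.e (nat_lit 507923) (nat_lit 6) (.e (nat_lit 286753) (nat_lit 10) (.e (nat_lit 344115) (nat_lit 20) .nil)))) .nil))))))) (.nd (nat_lit 1) (.nd (nat_lit 2) (.nd (nat_lit 3) (.nd (nat_lit 4) (.nd (nat_lit 5) 
(.lf (nat_lit 199745) (.g (nat_lit 1045) (.e (nat_lit 73744) (nat_lit 2) (.e (nat_lit 507907) (nat_lit 0) (.e (nat_lit 5412) (nat_lit 303) (.e (nat_lit 73746) (nat_lit 3) (.e (nat_lit 516104) (nat_lit 0) (.e (nat_lit 7936) (nat_lit 407) .nil)))))) (.g (nat_lit 5) .nil .nil))) 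
(.lf (nat_lit 199777) (.g (nat_lit 965) (.e (nat_lit 73744) (nat_lit 2) (.e (nat_lit 507908) (nat_lit 0) (.e (nat_lit 5413) (nat_lit 303) (.e (nat_lit 73744) (nat_lit 2) (.e (nat_lit 507907) (nat_lit 0) (.e (nat_lit 5410) (nat_lit 303) .nil)))))) (.g (nat_lit 0) .nil .nil)))) (.nd (nat_lit 5) 
(.lf (nat_lit 199761) (.g (nat_lit 2401) (.e (nat_lit 73744) (nat_lit 2) (.e (nat_lit 507908) (nat_lit 0) (.e (nat_lit 5409) (nat_lit 303) (.e (nat_lit 73747) (nat_lit 3) (.e (nat_lit 516098) (nat_lit 0) (.e (nat_lit 7591) (nat_lit 407) .nil)))))) (.g (nat_lit 0) .nil .nil))) 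
(.lf (nat_lit 199793) (.g (nat_lit 2249) (.e (nat_lit 73744) (nat_lit 2) (.e (nat_lit 507923) (nat_lit 6) (.e (nat_lit 286747) (nat_lit 9) (.e (nat_lit 336013) (nat_lit 2) (.e (nat_lit 90133) (nat_lit 9) (.e (nat_lit 2397) (nat_lit 157) (.e (nat_lit 7591) (nat_lit 407) .nil))))))) (.g (nat_lit 4) .nil .nil))))) (.nd (nat_lit 4) (.nd (nat_lit 5) 
(.lf (nat_lit 199753) (.g (nat_lit 933) (.e (nat_lit 73744) (nat_lit 2) (.e (nat_lit 507907) (nat_lit 0) (.e (nat_lit 5413) (nat_lit 303) (.e (nat_lit 73744) (nat_lit 2) (.e (nat_lit 507908) (nat_lit 0) (.e (nat_lit 5413) (nat_lit 303) .nil)))))) (.g (nat_lit 0) .nil .nil))) 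
(.lf (nat_lit 199785) (.g (nat_lit 1499) (.e (nat_lit 73744) (nat_lit 2) (.e (nat_lit 507921) (nat_lit 6) (.e (nat_lit 286756) (nat_lit 10) (.e (nat_lit 344115) (nat_lit 20) (.e (nat_lit 507907) (nat_lit 0) (.e (nat_lit 5409) (nat_lit 303) .nil)))))) (.g (nat_lit 5) .nil .nil)))) (.nd (nat_lit 5) 
(.lf (nat_lit 199769) (.g (nat_lit 1206) (.e (nat_lit 73744) (nat_lit 2) (.e (nat_lit 507908) (nat_lit 0) (.e (nat_lit 5412) (nat_lit 303) (.e (nat_lit 73744) (nat_lit 2) (.e (nat_lit 507908) (nat_lit 0) (.e (nat_lit 5410) (nat_lit 303) .nil)))))) (.g (nat_lit 0) .nil .nil))) 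
(.lf (nat_lit 199801) (.g (nat_lit 2888) (.e (nat_lit 73744) (nat_lit 2) (.e (nat_lit 507923) (nat_lit 6) (.e (nat_lit 286753) (nat_lit 10) (.e (nat_lit 344117) (nat_lit 21) (.e (nat_lit 516098) (nat_lit 0) (.e (nat_lit 7591) (nat_lit 407) .nil)))))) (.g (nat_lit 0) .nil .nil)))))) (.nd (nat_lit 3) (.nd (nat_lit 4) (.nd (nat_lit 5) 
(.lf (nat_lit 199749) (.g (nat_lit 1024) (.e (nat_lit 73744) (nat_lit 2) (.e (nat_lit 507907) (nat_lit 0) (.e (nat_lit 5413) (nat_lit 303) (.e (nat_lit 73744) (nat_lit 2) (.e (nat_lit 507907) (nat_lit 0) (.e (nat_lit 5412) (nat_lit 303) .nil)))))) (.g (nat_lit 0) .nil .nil))) 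
(.lf (nat_lit 199781) (.g (nat_lit 1024) (.e (nat_lit 73744) (nat_lit 2) (.e (nat_lit 507908) (nat_lit 0) (.e (nat_lit 5413) (nat_lit 303) (.e (nat_lit 73744) (nat_lit 2) (.e (nat_lit 507908) (nat_lit 0) (.e (nat_lit 5413) (nat_lit 303) .nil)))))) (.g (nat_lit 0) .nil .nil)))) (.nd (nat_lit 5) 
(.lf (nat_lit 199765) (.g (nat_lit 1983) (.e (nat_lit 73744) (nat_lit 2) (.e (nat_lit 507908) (nat_lit 0) (.e (nat_lit 5410) (nat_lit 303) (.e (nat_lit 73747) (nat_lit 3) (.e (nat_lit 516098) (nat_lit 0) (.e (nat_lit 7591) (nat_lit 407) .nil)))))) (.g (nat_lit 0) .nil .nil))) 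
(.lf (nat_lit 199797) (.g (nat_lit 2472) (.e (nat_lit 73744) (nat_lit 2) (.e (nat_lit 507923) (nat_lit 6) (.e (nat_lit 286747) (nat_lit 9) (.e (nat_lit 336013) (nat_lit 2) (.e (nat_lit 90165) (nat_lit 12) (.e (nat_lit 171776) (nat_lit 192) .nil)))))) (.g (nat_lit 5) .nil .nil))))) (.nd (nat_lit 4) (.nd (nat_lit 5) 
(.lf (nat_lit 199757) (.g (nat_lit 1084) (.e (nat_lit 73744) (nat_lit 2) (.e (nat_lit 507908) (nat_lit 0) (.e (nat_lit 5409) (nat_lit 303) (.e (nat_lit 73744) (nat_lit 2) (.e (nat_lit 507907) (nat_lit 0) (.e (nat_lit 5413) (nat_lit 303) .nil)))))) (.g (nat_lit 0) .nil .nil))) 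
(.lf (nat_lit 199789) (.g (nat_lit 659) (.e (nat_lit 73744) (nat_lit 2) (.e (nat_lit 507922) (nat_lit 6) (.e (nat_lit 286753) (nat_lit 10) (.e (nat_lit 344115) (nat_lit 20) .nil)))) .nil))) (.nd (nat_lit 5) 
(.lf (nat_lit 199773) (.g (nat_lit 1145) (.e (nat_lit 73744) (nat_lit 2) (.e (nat_lit 507908) (nat_lit 0) (.e (nat_lit 5412) (nat_lit 303) (.e (nat_lit 73746) (nat_lit 3) (.e (nat_lit 516100) (nat_lit 0) (.e (nat_lit 7936) (nat_lit 407) .nil)))))) (.g (nat_lit 5) .nil .nil))) 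
(.lf (nat_lit 199805) (.g (nat_lit 1695) (.e (nat_lit 81664) (nat_lit 2) (.e (nat_lit 507923) (nat_lit 6) (.e (nat_lit 286749) (nat_lit 9) (.e (nat_lit 336028) (nat_lit 3) (.e (nat_lit 98325) (nat_lit 17) .nil))))) .nil)))))) (.nd (nat_lit 2) (.nd (nat_lit 3) (.nd (nat_lit 4) (.nd (nat_lit 5) 
(.lf (nat_lit 199747) (.g (nat_lit 982) (.e (nat_lit 73744) (nat_lit 2) (.e (nat_lit 507907) (nat_lit 0) (.e (nat_lit 5413) (nat_lit 303) (.e (nat_lit 73744) (nat_lit 2) (.e (nat_lit 507906) (nat_lit 0) (.e (nat_lit 5412) (nat_lit 303) .nil)))))) (.g (nat_lit 6) .nil .nil))) 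
(.lf (nat_lit 199779) (.g (nat_lit 1039) (.e (nat_lit 73744) (nat_lit 2) (.e (nat_lit 507908) (nat_lit 0) (.e (nat_lit 5413) (nat_lit 303) (.e (nat_lit 73744) (nat_lit 2) (.e (nat_lit 507908) (nat_lit 0) (.e (nat_lit 5410) (nat_lit 303) .nil)))))) (.g (nat_lit 0) .nil .nil)))) (.nd (nat_lit 5) 
(.lf (nat_lit 199763) (.g (nat_lit 3081) (.e (nat_lit 73744) (nat_lit 2) (.e (nat_lit 507908) (nat_lit 0) (.e (nat_lit 5409) (nat_lit 303) (.e (nat_lit 73747) (nat_lit 3) (.e (nat_lit 516106) (nat_lit 0) (.e (nat_lit 7936) (nat_lit 407) .nil)))))) (.g (nat_lit 5) .nil .nil))) 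
(.lf (nat_lit 199795) (.g (nat_lit 2465) (.e (nat_lit 73744) (nat_lit 2) (.e (nat_lit 507923) (nat_lit 6) (.e (nat_lit 286747) (nat_lit 9) (.e (nat_lit 336013) (nat_lit 2) (.e (nat_lit 90133) (nat_lit 9) (.e (nat_lit 2400) (nat_lit 157) (.e (nat_lit 7590) (nat_lit 407) .nil))))))) (.g (nat_lit 4) .nil .nil))))) (.nd (nat_lit 4) (.nd (nat_lit 5) 
(.lf (nat_lit 199755) (.g (nat_lit 2084) (.e (nat_lit 73744) (nat_lit 2) (.e (nat_lit 507908) (nat_lit 0) (.e (nat_lit 5401) (nat_lit 302) (.e (nat_lit 65571) (nat_lit 3) (.e (nat_lit 98320) (nat_lit 17) (.e (nat_lit 7593) (nat_lit 407) .nil)))))) (.g (nat_lit 0) .nil .nil))) 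
(.lf (nat_lit 199787) (.g (nat_lit 1393) (.e (nat_lit 73744) (nat_lit 2) (.e (nat_lit 507921) (nat_lit 6) (.e (nat_lit 286756) (nat_lit 10) (.e (nat_lit 344115) (nat_lit 20) (.e (nat_lit 507908) (nat_lit 0) (.e (nat_lit 5413) (nat_lit 303) .nil)))))) (.g (nat_lit 5) .nil .nil)))) (.nd (nat_lit 5) 
(.lf (nat_lit 199771) (.g (nat_lit 2340) (.e (nat_lit 73744) (nat_lit 2) (.e (nat_lit 507908) (nat_lit 0) (.e (nat_lit 5412) (nat_lit 303) (.e (nat_lit 73746) (nat_lit 3) (.e (nat_lit 516098) (nat_lit 0) (.e (nat_lit 7591) (nat_lit 407) .nil)))))) (.g (nat_lit 0) .nil .nil))) 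
(.lf (nat_lit 199803) (.g (nat_lit 1420) (.e (nat_lit 73744) (nat_lit 2) (.e (nat_lit 507923) (nat_lit 6) (.e (nat_lit 286755) (nat_lit 10) (.e (nat_lit 344115) (nat_lit 20) (.e (nat_lit 507907) (nat_lit 0) (.e (nat_lit 5409) (nat_lit 303) .nil)))))) (.g (nat_lit 0) .nil .nil)))))) (.nd (nat_lit 3) (.nd (nat_lit 4) (.nd (nat_lit 5) 
(.lf (nat_lit 199751) (.g (nat_lit 945) (.e (nat_lit 73744) (nat_lit 2) (.e (nat_lit 507907) (nat_lit 0) (.e (nat_lit 5413) (nat_lit 303) (.e (nat_lit 73744) (nat_lit 2) (.e (nat_lit 507908) (nat_lit 0) (.e (nat_lit 5410) (nat_lit 303) .nil)))))) (.g (nat_lit 0) .nil .nil))) 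
(.lf (nat_lit 199783) (.g (nat_lit 2375) (.e (nat_lit 73744) (nat_lit 2) (.e (nat_lit 507921) (nat_lit 6) (.e (nat_lit 286749) (nat_lit 9) (.e (nat_lit 336028) (nat_lit 3) (.e (nat_lit 98320) (nat_lit 17) (.e (nat_lit 7593) (nat_lit 407) .nil)))))) (.g (nat_lit 5) .nil .nil)))) (.nd (nat_lit 5) 
(.lf (nat_lit 199767) (.g (nat_lit 1380) (.e (nat_lit 73744) (nat_lit 2) (.e (nat_lit 507908) (nat_lit 0) (.e (nat_lit 5412) (nat_lit 303) (.e (nat_lit 73739) (nat_lit 1) (.e (nat_lit 499910) (nat_lit 8) (.e (nat_lit 171776) (nat_lit 192) .nil)))))) (.g (nat_lit 5) .nil .nil))) 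
(.lf (nat_lit 199799) (.g (nat_lit 1947) (.e (nat_lit 73744) (nat_lit 2) (.e (nat_lit 507923) (nat_lit 6) (.e (nat_lit 286749) (nat_lit 9) (.e (nat_lit 336028) (nat_lit 3) (.e (nat_lit 98320) (nat_lit 17) .nil))))) .nil)))) (.nd (nat_lit 4) (.nd (nat_lit 5) 
(.lf (nat_lit 199759) (.g (nat_lit 1162) (.e (nat_lit 73744) (nat_lit 2) (.e (nat_lit 507908) (nat_lit 0) (.e (nat_lit 5409) (nat_lit 303) (.e (nat_lit 73744) (nat_lit 2) (.e (nat_lit 507908) (nat_lit 0) (.e (nat_lit 5413) (nat_lit 303) .nil)))))) (.g (nat_lit 0) .nil .nil))) 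
(.lf (nat_lit 199791) (.g (nat_lit 1273) (.e (nat_lit 73744) (nat_lit 2) (.e (nat_lit 507922) (nat_lit 6) (.e (nat_lit 286756) (nat_lit 10) (.e (nat_lit 344115) (nat_lit 20) (.e (nat_lit 507908) (nat_lit 0) (.e (nat_lit 5413) (nat_lit 303) .nil)))))) (.g (nat_lit 5) .nil .nil)))) (.nd (nat_lit 5) 
(.lf (nat_lit 199775) (.g (nat_lit 1222) (.e (nat_lit 73744) (nat_lit 2) (.e (nat_lit 507908) (nat_lit 0) (.e (nat_lit 5412) (nat_lit 303) (.e (nat_lit 73746) (nat_lit 3) (.e (nat_lit 516105) (nat_lit 0) (.e (nat_lit 7936) (nat_lit 407) .nil)))))) (.g (nat_lit 5) .nil .nil))) 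
(.lf (nat_lit 199807) (.g (nat_lit 809) (.e (nat_lit 81664) (nat_lit 2) (.e (nat_lit 507923) (nat_lit 6) (.e (nat_lit 286756) (nat_lit 10) (.e (nat_lit 344115) (nat_lit 20) .nil)))) .nil))))))))

noncomputable def tv2641 : DT := (.nd (nat_lit 0) (.nd (nat_lit 1) (.nd (nat_lit 2) (.nd (nat_lit 3) (.nd (nat_lit 4) (.nd (nat_lit 5) (.nd (nat_lit 6) 
(.lf (nat_lit 199808) (.g (nat_lit 461) (.e (nat_lit 73745) (nat_lit 3) (.e (nat_lit 516097) (nat_lit 0) (.e (nat_lit 7593) (nat_lit 407) .nil))) .nil)) 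
(.lf (nat_lit 199872) (.g (nat_lit 3605) (.e (nat_lit 73745) (nat_lit 3) (.e (nat_lit 516166) (nat_lit 12) (.e (nat_lit 450588) (nat_lit 10) (.e (nat_lit 573475) (nat_lit 12) (.e (nat_lit 57351) (nat_lit 0) .nil))))) .nil))) (.nd (nat_lit 6) 
(.lf (nat_lit 199840) (.g (nat_lit 2752) (.e (nat_lit 73745) (nat_lit 3) (.e (nat_lit 516151) (nat_lit 9) (.e (nat_lit 426211) (nat_lit 9) (.e (nat_lit 426140) (nat_lit 3) .nil)))) .nil)) 
(.lf (nat_lit 199904) (.g (nat_lit 2430) (.e (nat_lit 73746) (nat_lit 3) (.e (nat_lit 516098) (nat_lit 0) (.e (nat_lit 7593) (nat_lit 407) (.e (nat_lit 73746) (nat_lit 3) (.e (nat_lit 516100) (nat_lit 0) (.e (nat_lit 7936) (nat_lit 407) .nil)))))) (.g (nat_lit 5) .nil .nil))))) (.nd (nat_lit 5) (.nd (nat_lit 6) 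
(.lf (nat_lit 199824) (.g (nat_lit 2801) (.e (nat_lit 73745) (nat_lit 3) (.e (nat_lit 516139) (nat_lit 7) (.e (nat_lit 409641) (nat_lit 17) (.e (nat_lit 294928) (nat_lit 2) (.e (nat_lit 90165) (nat_lit 12) .nil))))) .nil)) 
(.lf (nat_lit 199888) (.g (nat_lit 2052) (.e (nat_lit 73745) (nat_lit 3) (.e (nat_lit 516185) (nat_lit 16) (.e (nat_lit 491560) (nat_lit 10) (.e (nat_lit 344117) (nat_lit 21) .nil)))) .nil))) (.nd (nat_lit 6) 
(.lf (nat_lit 199856) (.g (nat_lit 4033) (.e (nat_lit 73745) (nat_lit 3) (.e (nat_lit 516166) (nat_lit 12) (.e (nat_lit 450587) (nat_lit 10) (.e (nat_lit 573478) (nat_lit 12) (.e (nat_lit 57568) (nat_lit 53) .nil))))) .nil)) 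
(.lf (nat_lit 199920) (.g (nat_lit 732) (.e (nat_lit 73746) (nat_lit 3) (.e (nat_lit 516115) (nat_lit 1) (.e (nat_lit 164156) (nat_lit 152) .nil))) .nil))))) (.nd (nat_lit 4) (.nd (nat_lit 5) (.nd (nat_lit 6) 
(.lf (nat_lit 199816) (.g (nat_lit 1611) (.e (nat_lit 73745) (nat_lit 3) (.e (nat_lit 516119) (nat_lit 1) (.e (nat_lit 164179) (nat_lit 154) (.e (nat_lit 57354) (nat_lit 0) .nil)))) .nil)) 
(.lf (nat_lit 199880) (.g (nat_lit 2141) (.e (nat_lit 73745) (nat_lit 3) (.e (nat_lit 516185) (nat_lit 16) (.e (nat_lit 491558) (nat_lit 10) (.e (nat_lit 344117) (nat_lit 21) .nil)))) .nil))) (.nd (nat_lit 6) 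
(.lf (nat_lit 199848) (.g (nat_lit 5357) (.e (nat_lit 73745) (nat_lit 3) (.e (nat_lit 516166) (nat_lit 12) (.e (nat_lit 450587) (nat_lit 10) (.e (nat_lit 573475) (nat_lit 12) .nil)))) .nil)) 
(.lf (nat_lit 199912) (.g (nat_lit 1299) (.e (nat_lit 73746) (nat_lit 3) (.e (nat_lit 516104) (nat_lit 0) (.e (nat_lit 7540) (nat_lit 402) (.e (nat_lit 1546) (nat_lit 109) (.e (nat_lit 344115) (nat_lit 20) (.e (nat_lit 507908) (nat_lit 0) (.e (nat_lit 5412) (nat_lit 303) .nil))))))) (.g (nat_lit 4) .nil .nil))))) (.nd (nat_lit 5) (.nd (nat_lit 6) 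
(.lf (nat_lit 199832) (.g (nat_lit 2737) (.e (nat_lit 73745) (nat_lit 3) (.e (nat_lit 516151) (nat_lit 9) (.e (nat_lit 426211) (nat_lit 9) (.e (nat_lit 426125) (nat_lit 2) .nil)))) .nil)) 
(.lf (nat_lit 199896) (.g (nat_lit 2297) (.e (nat_lit 73746) (nat_lit 3) (.e (nat_lit 516097) (nat_lit 0) (.e (nat_lit 7591) (nat_lit 407) (.e (nat_lit 73748) (nat_lit 3) (.e (nat_lit 516102) (nat_lit 0) (.e (nat_lit 7936) (nat_lit 407) .nil)))))) (.g (nat_lit 4) .nil .nil)))) (.nd (nat_lit 6) 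
(.lf (nat_lit 199864) (.g (nat_lit 4247) (.e (nat_lit 73745) (nat_lit 3) (.e (nat_lit 516166) (nat_lit 12) (.e (nat_lit 450588) (nat_lit 10) (.e (nat_lit 573473) (nat_lit 12) (.e (nat_lit 57353) (nat_lit 0) .nil))))) .nil)) 
(.lf (nat_lit 199928) (.g (nat_lit 3115) (.e (nat_lit 73746) (nat_lit 3) (.e (nat_lit 516115) (nat_lit 1) (.e (nat_lit 164179) (nat_lit 154) (.e (nat_lit 57378) (nat_lit 3) (.e (nat_lit 98340) (nat_lit 20) .nil))))) .nil)))))) (.nd (nat_lit 3) (.nd (nat_lit 4) (.nd (nat_lit 5) (.nd (nat_lit 6) 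
(.lf (nat_lit 199812) (.g (nat_lit 1321) (.e (nat_lit 73745) (nat_lit 3) (.e (nat_lit 516106) (nat_lit 0) (.e (nat_lit 7936) (nat_lit 406) (.e (nat_lit 65568) (nat_lit 2) (.e (nat_lit 90165) (nat_lit 12) .nil))))) .nil)) 
(.lf (nat_lit 199876) (.g (nat_lit 5947) (.e (nat_lit 73745) (nat_lit 3) (.e (nat_lit 516166) (nat_lit 12) (.e (nat_lit 450588) (nat_lit 10) (.e (nat_lit 573495) (nat_lit 16) .nil)))) .nil))) (.nd (nat_lit 6) 
(.lf (nat_lit 199844) (.g (nat_lit 3463) (.e (nat_lit 73745) (nat_lit 3) (.e (nat_lit 516151) (nat_lit 9) (.e (nat_lit 426286) (nat_lit 10) (.e (nat_lit 434248) (nat_lit 28) .nil)))) .nil)) 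
(.lf (nat_lit 199908) (.g (nat_lit 2042) (.e (nat_lit 73746) (nat_lit 3) (.e (nat_lit 516100) (nat_lit 0) (.e (nat_lit 7540) (nat_lit 402) (.e (nat_lit 1536) (nat_lit 109) (.e (nat_lit 344115) (nat_lit 20) (.e (nat_lit 507907) (nat_lit 0) (.e (nat_lit 5412) (nat_lit 303) .nil))))))) (.g (nat_lit 5) .nil .nil))))) (.nd (nat_lit 5) (.nd (nat_lit 6) 
(.lf (nat_lit 199828) (.g (nat_lit 2927) (.e (nat_lit 73745) (nat_lit 3) (.e (nat_lit 516139) (nat_lit 7) (.e (nat_lit 409645) (nat_lit 18) (.e (nat_lit 303119) (nat_lit 3) (.e (nat_lit 204821) (nat_lit 17) .nil))))) .nil)) 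
(.lf (nat_lit 199892) (.g (nat_lit 2421) (.e (nat_lit 73746) (nat_lit 3) (.e (nat_lit 516097) (nat_lit 0) (.e (nat_lit 7587) (nat_lit 406) (.e (nat_lit 65568) (nat_lit 2) (.e (nat_lit 90165) (nat_lit 12) (.e (nat_lit 171776) (nat_lit 192) .nil)))))) (.g (nat_lit 4) .nil .nil)))) (.nd (nat_lit 6) 
(.lf (nat_lit 199860) (.g (nat_lit 3608) (.e (nat_lit 73745) (nat_lit 3) (.e (nat_lit 516166) (nat_lit 12) (.e (nat_lit 450588) (nat_lit 10) (.e (nat_lit 573473) (nat_lit 12) .nil)))) .nil)) 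
(.lf (nat_lit 199924) (.g (nat_lit 3831) (.e (nat_lit 73746) (nat_lit 3) (.e (nat_lit 516115) (nat_lit 1) (.e (nat_lit 164179) (nat_lit 154) (.e (nat_lit 57347) (nat_lit 0) (.e (nat_lit 1795) (nat_lit 119) (.e (nat_lit 516131) (nat_lit 3) (.e (nat_lit 221212) (nat_lit 22) (.e (nat_lit 196668) (nat_lit 14) .nil)))))))) (.g (nat_lit 4) .nil .nil)))))) 
(.nd (nat_lit 4) (.nd (nat_lit 5) (.nd (nat_lit 6) 
(.lf (nat_lit 199820) (.g (nat_lit 1628) (.e (nat_lit 73745) (nat_lit 3) (.e (nat_lit 516139) (nat_lit 7) (.e (nat_lit 409616) (nat_lit 10) (.e (nat_lit 5355) (nat_lit 298) .nil)))) .nil)) 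
(.lf (nat_lit 199884) (.g (nat_lit 2222) (.e (nat_lit 73745) (nat_lit 3) (.e (nat_lit 516185) (nat_lit 16) (.e (nat_lit 491560) (nat_lit 10) (.e (nat_lit 344114) (nat_lit 20) .nil)))) .nil))) (.nd (nat_lit 6) 
(.lf (nat_lit 199852) (.g (nat_lit 4334) (.e (nat_lit 73745) (nat_lit 3) (.e (nat_lit 516166) (nat_lit 12) (.e (nat_lit 450587) (nat_lit 10) (.e (nat_lit 573477) (nat_lit 12) (.e (nat_lit 57357) (nat_lit 0) .nil))))) .nil)) 
(.lf (nat_lit 199916) (.g (nat_lit 1596) (.e (nat_lit 73746) (nat_lit 3) (.e (nat_lit 516105) (nat_lit 0) (.e (nat_lit 7540) (nat_lit 402) (.e (nat_lit 1546) (nat_lit 109) (.e (nat_lit 344115) (nat_lit 20) (.e (nat_lit 507907) (nat_lit 0) (.e (nat_lit 5412) (nat_lit 303) .nil))))))) (.g (nat_lit 5) .nil .nil))))) (.nd (nat_lit 5) (.nd (nat_lit 6) 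
(.lf (nat_lit 199836) (.g (nat_lit 4858) (.e (nat_lit 73745) (nat_lit 3) (.e (nat_lit 516151) (nat_lit 9) (.e (nat_lit 426211) (nat_lit 9) (.e (nat_lit 426125) (nat_lit 2) (.e (nat_lit 196616) (nat_lit 0) .nil))))) .nil)) 
(.lf (nat_lit 199900) (.g (nat_lit 2499) (.e (nat_lit 73746) (nat_lit 3) (.e (nat_lit 516097) (nat_lit 0) (.e (nat_lit 7593) (nat_lit 407) (.e (nat_lit 73746) (nat_lit 3) (.e (nat_lit 516105) (nat_lit 0) (.e (nat_lit 7936) (nat_lit 407) .nil)))))) (.g (nat_lit 4) .nil .nil)))) (.nd (nat_lit 6) 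
(.lf (nat_lit 199868) (.g (nat_lit 3036) (.e (nat_lit 73745) (nat_lit 3) (.e (nat_lit 516166) (nat_lit 12) (.e (nat_lit 450588) (nat_lit 10) (.e (nat_lit 573475) (nat_lit 12) .nil)))) .nil)) 
(.lf (nat_lit 199932) (.g (nat_lit 3109) (.e (nat_lit 73746) (nat_lit 3) (.e (nat_lit 516115) (nat_lit 1) (.e (nat_lit 164179) (nat_lit 154) (.e (nat_lit 57445) (nat_lit 19) (.e (nat_lit 393221) (nat_lit 0) (.e (nat_lit 7936) (nat_lit 348) .nil)))))) (.g (nat_lit 4) .nil .nil)))))))) (.nd (nat_lit 2) (.nd (nat_lit 3) (.nd (nat_lit 4) (.nd (nat_lit 5) (.nd (nat_lit 6) 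
(.lf (nat_lit 199810) (.g (nat_lit 1764) (.e (nat_lit 73745) (nat_lit 3) (.e (nat_lit 516106) (nat_lit 0) (.e (nat_lit 6986) (nat_lit 377) (.e (nat_lit 2781) (nat_lit 178) .nil)))) .nil)) 
(.lf (nat_lit 199874) (.g (nat_lit 3628) (.e (nat_lit 73745) (nat_lit 3) (.e (nat_lit 516166) (nat_lit 12) (.e (nat_lit 450588) (nat_lit 10) (.e (nat_lit 573475) (nat_lit 12) (.e (nat_lit 57356) (nat_lit 0) .nil))))) .nil))) (.nd (nat_lit 6) 
(.lf (nat_lit 199842) (.g (nat_lit 1902) (.e (nat_lit 73745) (nat_lit 3) (.e (nat_lit 516151) (nat_lit 9) (.e (nat_lit 426286) (nat_lit 10) .nil))) .nil)) 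
(.lf (nat_lit 199906) (.g (nat_lit 2181) (.e (nat_lit 73746) (nat_lit 3) (.e (nat_lit 516098) (nat_lit 0) (.e (nat_lit 7593) (nat_lit 407) (.e (nat_lit 73746) (nat_lit 3) (.e (nat_lit 516104) (nat_lit 0) (.e (nat_lit 7936) (nat_lit 407) .nil)))))) (.g (nat_lit 5) .nil .nil))))) (.nd (nat_lit 5) (.nd (nat_lit 6) 
(.lf (nat_lit 199826) (.g (nat_lit 638) (.e (nat_lit 73745) (nat_lit 3) (.e (nat_lit 516139) (nat_lit 7) (.e (nat_lit 409643) (nat_lit 18) .nil))) .nil)) 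
(.lf (nat_lit 199890) (.g (nat_lit 2482) (.e (nat_lit 73745) (nat_lit 3) (.e (nat_lit 516185) (nat_lit 16) (.e (nat_lit 491560) (nat_lit 10) (.e (nat_lit 344118) (nat_lit 21) (.e (nat_lit 516106) (nat_lit 0) .nil))))) .nil))) (.nd (nat_lit 6) 
(.lf (nat_lit 199858) (.g (nat_lit 4450) (.e (nat_lit 73745) (nat_lit 3) (.e (nat_lit 516166) (nat_lit 12) (.e (nat_lit 450588) (nat_lit 10) (.e (nat_lit 573452) (nat_lit 9) .nil)))) .nil)) 
(.lf (nat_lit 199922) (.g (nat_lit 2481) (.e (nat_lit 73746) (nat_lit 3) (.e (nat_lit 516115) (nat_lit 1) (.e (nat_lit 164178) (nat_lit 154) (.e (nat_lit 57347) (nat_lit 0) (.e (nat_lit 1781) (nat_lit 119) (.e (nat_lit 516131) (nat_lit 3) (.e (nat_lit 221212) (nat_lit 22) (.e (nat_lit 196670) (nat_lit 14) .nil)))))))) (.g (nat_lit 4) .nil .nil)))))) 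
(.nd (nat_lit 4) (.nd (nat_lit 5) (.nd (nat_lit 6) 
(.lf (nat_lit 199818) (.g (nat_lit 2641) (.e (nat_lit 73745) (nat_lit 3) (.e (nat_lit 516138) (nat_lit 7) (.e (nat_lit 409645) (nat_lit 18) (.e (nat_lit 303119) (nat_lit 3) (.e (nat_lit 204821) (nat_lit 17) .nil))))) .nil)) 
(.lf (nat_lit 199882) (.g (nat_lit 583) (.e (nat_lit 73745) (nat_lit 3) (.e (nat_lit 516185) (nat_lit 16) (.e (nat_lit 491560) (nat_lit 10) .nil))) .nil))) (.nd (nat_lit 6) 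
(.lf (nat_lit 199850) (.g (nat_lit 4126) (.e (nat_lit 73745) (nat_lit 3) (.e (nat_lit 516166) (nat_lit 12) (.e (nat_lit 450587) (nat_lit 10) (.e (nat_lit 573477) (nat_lit 12) (.e (nat_lit 57352) (nat_lit 0) .nil))))) .nil)) 
(.lf (nat_lit 199914) (.g (nat_lit 1416) (.e (nat_lit 73746) (nat_lit 3) (.e (nat_lit 516105) (nat_lit 0) (.e (nat_lit 7540) (nat_lit 402) (.e (nat_lit 1536) (nat_lit 109) (.e (nat_lit 344115) (nat_lit 20) (.e (nat_lit 507907) (nat_lit 0) (.e (nat_lit 5412) (nat_lit 303) .nil))))))) (.g (nat_lit 4) .nil .nil))))) (.nd (nat_lit 5) (.nd (nat_lit 6) 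
(.lf (nat_lit 199834) (.g (nat_lit 6588) (.e (nat_lit 73745) (nat_lit 3) (.e (nat_lit 516151) (nat_lit 9) (.e (nat_lit 426211) (nat_lit 9) (.e (nat_lit 426125) (nat_lit 2) (.e (nat_lit 196615) (nat_lit 0) (.e (nat_lit 60) (nat_lit 0) (.e (nat_lit 2030) (nat_lit 140) (.e (nat_lit 688180) (nat_lit 17) .nil)))))))) (.g (nat_lit 8) .nil .nil))) 
(.lf (nat_lit 199898) (.g (nat_lit 2657) (.e (nat_lit 73746) (nat_lit 3) (.e (nat_lit 516097) (nat_lit 0) (.e (nat_lit 7593) (nat_lit 407) (.e (nat_lit 73746) (nat_lit 3) (.e (nat_lit 516100) (nat_lit 0) (.e (nat_lit 7936) (nat_lit 407) .nil)))))) (.g (nat_lit 4) .nil .nil)))) (.nd (nat_lit 6) 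
(.lf (nat_lit 199866) (.g (nat_lit 4316) (.e (nat_lit 73745) (nat_lit 3) (.e (nat_lit 516166) (nat_lit 12) (.e (nat_lit 450588) (nat_lit 10) (.e (nat_lit 573473) (nat_lit 12) (.e (nat_lit 57569) (nat_lit 53) .nil))))) .nil)) 
(.lf (nat_lit 199930) (.g (nat_lit 2895) (.e (nat_lit 73746) (nat_lit 3) (.e (nat_lit 516115) (nat_lit 1) (.e (nat_lit 164179) (nat_lit 154) (.e (nat_lit 57411) (nat_lit 12) (.e (nat_lit 336446) (nat_lit 33) .nil))))) .nil)))))) (.nd (nat_lit 3) (.nd (nat_lit 4) (.nd (nat_lit 5) (.nd (nat_lit 6) 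
(.lf (nat_lit 199814) (.g (nat_lit 740) (.e (nat_lit 73745) (nat_lit 3) (.e (nat_lit 516119) (nat_lit 1) (.e (nat_lit 164150) (nat_lit 152) .nil))) .nil)) 
(.lf (nat_lit 199878) (.g (nat_lit 3258) (.e (nat_lit 73745) (nat_lit 3) (.e (nat_lit 516185) (nat_lit 16) (.e (nat_lit 491546) (nat_lit 9) (.e (nat_lit 336028) (nat_lit 3) (.e (nat_lit 98325) (nat_lit 17) (.e (nat_lit 7936) (nat_lit 407) .nil)))))) (.g (nat_lit 5) .nil .nil)))) (.nd (nat_lit 6) 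
(.lf (nat_lit 199846) (.g (nat_lit 4813) (.e (nat_lit 73745) (nat_lit 3) (.e (nat_lit 516166) (nat_lit 12) (.e (nat_lit 450587) (nat_lit 10) (.e (nat_lit 573472) (nat_lit 12) .nil)))) .nil)) 
(.lf (nat_lit 199910) (.g (nat_lit 4962) (.e (nat_lit 73746) (nat_lit 3) (.e (nat_lit 516102) (nat_lit 0) (.e (nat_lit 6989) (nat_lit 377) (.e (nat_lit 2777) (nat_lit 178) (.e (nat_lit 286733) (nat_lit 2) (.e (nat_lit 90165) (nat_lit 12) (.e (nat_lit 171776) (nat_lit 192) .nil))))))) (.g (nat_lit 6) .nil .nil))))) (.nd (nat_lit 5) (.nd (nat_lit 6) 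
(.lf (nat_lit 199830) (.g (nat_lit 3367) (.e (nat_lit 73745) (nat_lit 3) (.e (nat_lit 516139) (nat_lit 7) (.e (nat_lit 409646) (nat_lit 18) (.e (nat_lit 303119) (nat_lit 3) (.e (nat_lit 204821) (nat_lit 17) (.e (nat_lit 7936) (nat_lit 348) .nil)))))) (.g (nat_lit 5) .nil .nil))) 
(.lf (nat_lit 199894) (.g (nat_lit 1926) (.e (nat_lit 73746) (nat_lit 3) (.e (nat_lit 516097) (nat_lit 0) (.e (nat_lit 7591) (nat_lit 407) (.e (nat_lit 73747) (nat_lit 3) (.e (nat_lit 516102) (nat_lit 0) .nil))))) .nil))) (.nd (nat_lit 6) 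
(.lf (nat_lit 199862) (.g (nat_lit 4250) (.e (nat_lit 73745) (nat_lit 3) (.e (nat_lit 516166) (nat_lit 12) (.e (nat_lit 450588) (nat_lit 10) (.e (nat_lit 573473) (nat_lit 12) (.e (nat_lit 57348) (nat_lit 0) .nil))))) .nil)) 
(.lf (nat_lit 199926) (.g (nat_lit 3722) (.e (nat_lit 73746) (nat_lit 3) (.e (nat_lit 516115) (nat_lit 1) (.e (nat_lit 164179) (nat_lit 154) (.e (nat_lit 57354) (nat_lit 0) (.e (nat_lit 1799) (nat_lit 119) (.e (nat_lit 516129) (nat_lit 3) (.e (nat_lit 221210) (nat_lit 22) (.e (nat_lit 196668) (nat_lit 14) .nil)))))))) (.g (nat_lit 4) .nil .nil)))))) 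
(.nd (nat_lit 4) (.nd (nat_lit 5) (.nd (nat_lit 6) 
(.lf (nat_lit 199822) (.g (nat_lit 2080) (.e (nat_lit 73745) (nat_lit 3) (.e (nat_lit 516139) (nat_lit 7) (.e (nat_lit 409617) (nat_lit 10) (.e (nat_lit 5355) (nat_lit 298) (.e (nat_lit 1235) (nat_lit 91) .nil))))) .nil)) 
(.lf (nat_lit 199886) (.g (nat_lit 2504) (.e (nat_lit 73745) (nat_lit 3) (.e (nat_lit 516185) (nat_lit 16) (.e (nat_lit 491560) (nat_lit 10) (.e (nat_lit 344115) (nat_lit 20) (.e (nat_lit 507907) (nat_lit 0) .nil))))) .nil))) (.nd (nat_lit 6) 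
(.lf (nat_lit 199854) (.g (nat_lit 3995) (.e (nat_lit 73745) (nat_lit 3) (.e (nat_lit 516166) (nat_lit 12) (.e (nat_lit 450587) (nat_lit 10) (.e (nat_lit 573478) (nat_lit 12) (.e (nat_lit 57351) (nat_lit 0) .nil))))) .nil)) 
(.lf (nat_lit 199918) (.g (nat_lit 1098) (.e (nat_lit 73746) (nat_lit 3) (.e (nat_lit 516105) (nat_lit 0) (.e (nat_lit 7562) (nat_lit 402) (.e (nat_lit 1530) (nat_lit 109) (.e (nat_lit 344115) (nat_lit 20) (.e (nat_lit 507906) (nat_lit 0) (.e (nat_lit 5412) (nat_lit 303) .nil))))))) (.g (nat_lit 4) .nil .nil))))) (.nd (nat_lit 5) (.nd (nat_lit 6) 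
(.lf (nat_lit 199838) (.g (nat_lit 4408) (.e (nat_lit 73745) (nat_lit 3) (.e (nat_lit 516151) (nat_lit 9) (.e (nat_lit 426211) (nat_lit 9) (.e (nat_lit 426125) (nat_lit 2) (.e (nat_lit 196686) (nat_lit 18) .nil))))) .nil)) 
(.lf (nat_lit 199902) (.g (nat_lit 857) (.e (nat_lit 73746) (nat_lit 3) (.e (nat_lit 516098) (nat_lit 0) (.e (nat_lit 7591) (nat_lit 407) (.e (nat_lit 81664) (nat_lit 1) .nil)))) .nil))) (.nd (nat_lit 6) 
(.lf (nat_lit 199870) (.g (nat_lit 3676) (.e (nat_lit 73745) (nat_lit 3) (.e (nat_lit 516166) (nat_lit 12) (.e (nat_lit 450588) (nat_lit 10) (.e (nat_lit 573475) (nat_lit 12) (.e (nat_lit 57347) (nat_lit 0) .nil))))) .nil)) 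
(.lf (nat_lit 199934) (.g (nat_lit 2718) (.e (nat_lit 73746) (nat_lit 3) (.e (nat_lit 516115) (nat_lit 1) (.e (nat_lit 164182) (nat_lit 154) (.e (nat_lit 57379) (nat_lit 3) (.e (nat_lit 98341) (nat_lit 20) (.e (nat_lit 221211) (nat_lit 22) (.e (nat_lit 196670) (nat_lit 14) .nil))))))) (.g (nat_lit 4) .nil .nil))))))))) 
(.nd (nat_lit 1) (.nd (nat_lit 2) (.nd (nat_lit 3) (.nd (nat_lit 4) (.nd (nat_lit 5) 
(.nd (nat_lit 6) 
(.lf (nat_lit 199809) (.g (nat_lit 3185) (.e (nat_lit 73745) (nat_lit 3) (.e (nat_lit 516106) (nat_lit 0) (.e (nat_lit 6986) (nat_lit 377) (.e (nat_lit 2777) (nat_lit 178) (.e (nat_lit 286733) (nat_lit 2) .nil))))) .nil)) 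
(.lf (nat_lit 199873) (.g (nat_lit 5210) (.e (nat_lit 73745) (nat_lit 3) (.e (nat_lit 516166) (nat_lit 12) (.e (nat_lit 450588) (nat_lit 10) (.e (nat_lit 573475) (nat_lit 12) (.e (nat_lit 57354) (nat_lit 0) (.e (nat_lit 7147) (nat_lit 382) (.e (nat_lit 1206) (nat_lit 89) .nil))))))) (.g (nat_lit 7) .nil .nil)))) (.nd (nat_lit 6) 
(.lf (nat_lit 199841) (.g (nat_lit 2592) (.e (nat_lit 73745) (nat_lit 3) (.e (nat_lit 516151) (nat_lit 9) (.e (nat_lit 426285) (nat_lit 10) (.e (nat_lit 434229) (nat_lit 22) .nil)))) .nil)) 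
(.lf (nat_lit 199905) (.g (nat_lit 1677) (.e (nat_lit 73746) (nat_lit 3) (.e (nat_lit 516098) (nat_lit 0) (.e (nat_lit 7593) (nat_lit 407) (.e (nat_lit 73746) (nat_lit 3) (.e (nat_lit 516102) (nat_lit 0) (.e (nat_lit 7936) (nat_lit 407) .nil)))))) (.g (nat_lit 4) .nil .nil))))) (.nd (nat_lit 5) (.nd (nat_lit 6) 
(.lf (nat_lit 199825) (.g (nat_lit 1512) (.e (nat_lit 73745) (nat_lit 3) (.e (nat_lit 516139) (nat_lit 7) (.e (nat_lit 409642) (nat_lit 17) (.e (nat_lit 294928) (nat_lit 2) .nil)))) .nil)) 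
(.lf (nat_lit 199889) (.g (nat_lit 2142) (.e (nat_lit 73745) (nat_lit 3) (.e (nat_lit 516185) (nat_lit 16) (.e (nat_lit 491560) (nat_lit 10) (.e (nat_lit 344118) (nat_lit 21) .nil)))) .nil))) (.nd (nat_lit 6) 
(.lf (nat_lit 199857) (.g (nat_lit 4462) (.e (nat_lit 73745) (nat_lit 3) (.e (nat_lit 516166) (nat_lit 12) (.e (nat_lit 450588) (nat_lit 10) (.e (nat_lit 573449) (nat_lit 9) .nil)))) .nil)) 
(.lf (nat_lit 199921) (.g (nat_lit 902) (.e (nat_lit 73746) (nat_lit 3) (.e (nat_lit 516115) (nat_lit 1) (.e (nat_lit 164161) (nat_lit 152) .nil))) .nil))))) (.nd (nat_lit 4) (.nd (nat_lit 5) (.nd (nat_lit 6) 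
(.lf (nat_lit 199817) (.g (nat_lit 1589) (.e (nat_lit 73745) (nat_lit 3) (.e (nat_lit 516119) (nat_lit 1) (.e (nat_lit 164179) (nat_lit 154) (.e (nat_lit 57376) (nat_lit 3) .nil)))) .nil)) 
(.lf (nat_lit 199881) (.g (nat_lit 3074) (.e (nat_lit 73745) (nat_lit 3) (.e (nat_lit 516185) (nat_lit 16) (.e (nat_lit 491558) (nat_lit 10) (.e (nat_lit 344117) (nat_lit 21) (.e (nat_lit 516106) (nat_lit 0) .nil))))) .nil))) (.nd (nat_lit 6) 
(.lf (nat_lit 199849) (.g (nat_lit 3675) (.e (nat_lit 73745) (nat_lit 3) (.e (nat_lit 516166) (nat_lit 12) (.e (nat_lit 450587) (nat_lit 10) (.e (nat_lit 573477) (nat_lit 12) .nil)))) .nil)) 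
(.lf (nat_lit 199913) (.g (nat_lit 1522) (.e (nat_lit 73746) (nat_lit 3) (.e (nat_lit 516105) (nat_lit 0) (.e (nat_lit 7540) (nat_lit 402) (.e (nat_lit 1536) (nat_lit 109) (.e (nat_lit 344115) (nat_lit 20) (.e (nat_lit 507906) (nat_lit 0) (.e (nat_lit 5412) (nat_lit 303) .nil))))))) (.g (nat_lit 4) .nil .nil))))) (.nd (nat_lit 5) (.nd (nat_lit 6) 
(.lf (nat_lit 199833) (.g (nat_lit 4947) (.e (nat_lit 73745) (nat_lit 3) (.e (nat_lit 516151) (nat_lit 9) (.e (nat_lit 426211) (nat_lit 9) (.e (nat_lit 426125) (nat_lit 2) (.e (nat_lit 196615) (nat_lit 0) .nil))))) .nil)) 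
(.lf (nat_lit 199897) (.g (nat_lit 2448) (.e (nat_lit 73746) (nat_lit 3) (.e (nat_lit 516097) (nat_lit 0) (.e (nat_lit 7591) (nat_lit 407) (.e (nat_lit 73748) (nat_lit 3) (.e (nat_lit 516106) (nat_lit 0) (.e (nat_lit 7936) (nat_lit 407) .nil)))))) (.g (nat_lit 4) .nil .nil)))) (.nd (nat_lit 6) 
(.lf (nat_lit 199865) (.g (nat_lit 5676) (.e (nat_lit 73745) (nat_lit 3) (.e (nat_lit 516166) (nat_lit 12) (.e (nat_lit 450588) (nat_lit 10) (.e (nat_lit 573473) (nat_lit 12) (.e (nat_lit 57354) (nat_lit 0) (.e (nat_lit 7147) (nat_lit 382) (.e (nat_lit 1206) (nat_lit 89) .nil))))))) (.g (nat_lit 7) .nil .nil))) 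
(.lf (nat_lit 199929) (.g (nat_lit 5329) (.e (nat_lit 73746) (nat_lit 3) (.e (nat_lit 516115) (nat_lit 1) (.e (nat_lit 164179) (nat_lit 154) (.e (nat_lit 57378) (nat_lit 3) (.e (nat_lit 98342) (nat_lit 20) (.e (nat_lit 221212) (nat_lit 22) (.e (nat_lit 196670) (nat_lit 14) .nil))))))) (.g (nat_lit 0) .nil .nil))))))) (.nd (nat_lit 3) (.nd (nat_lit 4) (.nd (nat_lit 5) (.nd (nat_lit 6) 
(.lf (nat_lit 199813) (.g (nat_lit 728) (.e (nat_lit 73745) (nat_lit 3) (.e (nat_lit 516106) (nat_lit 0) (.e (nat_lit 7936) (nat_lit 409) .nil))) .nil)) 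
(.lf (nat_lit 199877) (.g (nat_lit 4229) (.e (nat_lit 73745) (nat_lit 3) (.e (nat_lit 516166) (nat_lit 12) (.e (nat_lit 450588) (nat_lit 10) (.e (nat_lit 573503) (nat_lit 18) .nil)))) .nil))) (.nd (nat_lit 6) 
(.lf (nat_lit 199845) (.g (nat_lit 746) (.e (nat_lit 73745) (nat_lit 3) (.e (nat_lit 516166) (nat_lit 12) (.e (nat_lit 450587) (nat_lit 10) .nil))) .nil)) 
(.lf (nat_lit 199909) (.g (nat_lit 2049) (.e (nat_lit 73746) (nat_lit 3) (.e (nat_lit 516100) (nat_lit 0) (.e (nat_lit 7540) (nat_lit 402) (.e (nat_lit 1536) (nat_lit 109) (.e (nat_lit 344115) (nat_lit 20) (.e (nat_lit 507908) (nat_lit 0) (.e (nat_lit 5412) (nat_lit 303) .nil))))))) (.g (nat_lit 5) .nil .nil))))) (.nd (nat_lit 5) (.nd (nat_lit 6) 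
(.lf (nat_lit 199829) (.g (nat_lit 2807) (.e (nat_lit 73745) (nat_lit 3) (.e (nat_lit 516139) (nat_lit 7) (.e (nat_lit 409646) (nat_lit 18) (.e (nat_lit 303119) (nat_lit 3) (.e (nat_lit 204819) (nat_lit 17) .nil))))) .nil)) 
(.lf (nat_lit 199893) (.g (nat_lit 1091) (.e (nat_lit 73746) (nat_lit 3) (.e (nat_lit 516097) (nat_lit 0) (.e (nat_lit 7591) (nat_lit 407) (.e (nat_lit 81664) (nat_lit 1) .nil)))) .nil))) (.nd (nat_lit 6) 
(.lf (nat_lit 199861) (.g (nat_lit 4398) (.e (nat_lit 73745) (nat_lit 3) (.e (nat_lit 516166) (nat_lit 12) (.e (nat_lit 450588) (nat_lit 10) (.e (nat_lit 573473) (nat_lit 12) (.e (nat_lit 57347) (nat_lit 0) (.e (nat_lit 7125) (nat_lit 382) (.e (nat_lit 1214) (nat_lit 89) .nil))))))) (.g (nat_lit 4) .nil .nil))) 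
(.lf (nat_lit 199925) (.g (nat_lit 2049) (.e (nat_lit 73746) (nat_lit 3) (.e (nat_lit 516115) (nat_lit 1) (.e (nat_lit 164179) (nat_lit 154) (.e (nat_lit 57353) (nat_lit 0) .nil)))) .nil))))) (.nd (nat_lit 4) (.nd (nat_lit 5) (.nd (nat_lit 6) 
(.lf (nat_lit 199821) (.g (nat_lit 486) (.e (nat_lit 73745) (nat_lit 3) (.e (nat_lit 516139) (nat_lit 7) (.e (nat_lit 409617) (nat_lit 10) .nil))) .nil)) 
(.lf (nat_lit 199885) (.g (nat_lit 2528) (.e (nat_lit 73745) (nat_lit 3) (.e (nat_lit 516185) (nat_lit 16) (.e (nat_lit 491560) (nat_lit 10) (.e (nat_lit 344115) (nat_lit 20) (.e (nat_lit 507906) (nat_lit 0) .nil))))) .nil))) (.nd (nat_lit 6) 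
(.lf (nat_lit 199853) (.g (nat_lit 3666) (.e (nat_lit 73745) (nat_lit 3) (.e (nat_lit 516166) (nat_lit 12) (.e (nat_lit 450587) (nat_lit 10) (.e (nat_lit 573478) (nat_lit 12) .nil)))) .nil)) 
(.lf (nat_lit 199917) (.g (nat_lit 1604) (.e (nat_lit 73746) (nat_lit 3) (.e (nat_lit 516105) (nat_lit 0) (.e (nat_lit 7540) (nat_lit 402) (.e (nat_lit 1546) (nat_lit 109) (.e (nat_lit 344115) (nat_lit 20) (.e (nat_lit 507908) (nat_lit 0) (.e (nat_lit 5412) (nat_lit 303) .nil))))))) (.g (nat_lit 5) .nil .nil))))) (.nd (nat_lit 5) (.nd (nat_lit 6) 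
(.lf (nat_lit 199837) (.g (nat_lit 4664) (.e (nat_lit 73745) (nat_lit 3) (.e (nat_lit 516151) (nat_lit 9) (.e (nat_lit 426211) (nat_lit 9) (.e (nat_lit 426125) (nat_lit 2) (.e (nat_lit 196683) (nat_lit 18) .nil))))) .nil)) 
(.lf (nat_lit 199901) (.g (nat_lit 2182) (.e (nat_lit 73746) (nat_lit 3) (.e (nat_lit 516098) (nat_lit 0) (.e (nat_lit 7587) (nat_lit 406) (.e (nat_lit 65571) (nat_lit 3) (.e (nat_lit 98320) (nat_lit 17) (.e (nat_lit 7593) (nat_lit 407) .nil)))))) (.g (nat_lit 4) .nil .nil)))) (.nd (nat_lit 6) 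
(.lf (nat_lit 199869) (.g (nat_lit 3989) (.e (nat_lit 73745) (nat_lit 3) (.e (nat_lit 516166) (nat_lit 12) (.e (nat_lit 450588) (nat_lit 10) (.e (nat_lit 573475) (nat_lit 12) (.e (nat_lit 57344) (nat_lit 0) .nil))))) .nil)) 
(.lf (nat_lit 199933) (.g (nat_lit 3017) (.e (nat_lit 73746) (nat_lit 3) (.e (nat_lit 516115) (nat_lit 1) (.e (nat_lit 164179) (nat_lit 154) (.e (nat_lit 57448) (nat_lit 19) (.e (nat_lit 393221) (nat_lit 0) (.e (nat_lit 7936) (nat_lit 348) .nil)))))) (.g (nat_lit 4) .nil .nil)))))))) (.nd (nat_lit 2) (.nd (nat_lit 3) (.nd (nat_lit 4) (.nd (nat_lit 5) (.nd (nat_lit 6) 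
(.lf (nat_lit 199811) (.g (nat_lit 728) (.e (nat_lit 73745) (nat_lit 3) (.e (nat_lit 516106) (nat_lit 0) (.e (nat_lit 7936) (nat_lit 406) .nil))) .nil)) 
(.lf (nat_lit 199875) (.g (nat_lit 3640) (.e (nat_lit 73745) (nat_lit 3) (.e (nat_lit 516166) (nat_lit 12) (.e (nat_lit 450588) (nat_lit 10) (.e (nat_lit 573475) (nat_lit 12) (.e (nat_lit 57568) (nat_lit 53) .nil))))) .nil))) (.nd (nat_lit 6) 
(.lf (nat_lit 199843) (.g (nat_lit 3455) (.e (nat_lit 73745) (nat_lit 3) (.e (nat_lit 516151) (nat_lit 9) (.e (nat_lit 426286) (nat_lit 10) (.e (nat_lit 434245) (nat_lit 28) .nil)))) .nil)) 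
(.lf (nat_lit 199907) (.g (nat_lit 2272) (.e (nat_lit 73746) (nat_lit 3) (.e (nat_lit 516098) (nat_lit 0) (.e (nat_lit 7593) (nat_lit 407) (.e (nat_lit 73746) (nat_lit 3) (.e (nat_lit 516105) (nat_lit 0) (.e (nat_lit 7936) (nat_lit 407) .nil)))))) (.g (nat_lit 5) .nil .nil))))) (.nd (nat_lit 5) (.nd (nat_lit 6) 
(.lf (nat_lit 199827) (.g (nat_lit 1927) (.e (nat_lit 73745) (nat_lit 3) (.e (nat_lit 516139) (nat_lit 7) (.e (nat_lit 409645) (nat_lit 18) (.e (nat_lit 303119) (nat_lit 3) .nil)))) .nil)) 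
(.lf (nat_lit 199891) (.g (nat_lit 392) (.e (nat_lit 73746) (nat_lit 3) (.e (nat_lit 516097) (nat_lit 0) (.e (nat_lit 7486) (nat_lit 402) .nil))) .nil))) (.nd (nat_lit 6) 
(.lf (nat_lit 199859) (.g (nat_lit 5889) (.e (nat_lit 73745) (nat_lit 3) (.e (nat_lit 516166) (nat_lit 12) (.e (nat_lit 450588) (nat_lit 10) (.e (nat_lit 573453) (nat_lit 9) .nil)))) .nil)) 
(.lf (nat_lit 199923) (.g (nat_lit 1946) (.e (nat_lit 73746) (nat_lit 3) (.e (nat_lit 516115) (nat_lit 1) (.e (nat_lit 164179) (nat_lit 154) (.e (nat_lit 57345) (nat_lit 0) .nil)))) .nil))))) (.nd (nat_lit 4) (.nd (nat_lit 5) (.nd (nat_lit 6) 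
(.lf (nat_lit 199819) (.g (nat_lit 1610) (.e (nat_lit 73745) (nat_lit 3) (.e (nat_lit 516138) (nat_lit 7) (.e (nat_lit 409646) (nat_lit 18) (.e (nat_lit 303119) (nat_lit 3) .nil)))) .nil)) 
(.lf (nat_lit 199883) (.g (nat_lit 2577) (.e (nat_lit 73745) (nat_lit 3) (.e (nat_lit 516185) (nat_lit 16) (.e (nat_lit 491560) (nat_lit 10) (.e (nat_lit 352000) (nat_lit 19) .nil)))) .nil))) (.nd (nat_lit 6) 
(.lf (nat_lit 199851) (.g (nat_lit 4105) (.e (nat_lit 73745) (nat_lit 3) (.e (nat_lit 516166) (nat_lit 12) (.e (nat_lit 450587) (nat_lit 10) (.e (nat_lit 573477) (nat_lit 12) (.e (nat_lit 57353) (nat_lit 0) .nil))))) .nil)) 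
(.lf (nat_lit 199915) (.g (nat_lit 1421) (.e (nat_lit 73746) (nat_lit 3) (.e (nat_lit 516105) (nat_lit 0) (.e (nat_lit 7540) (nat_lit 402) (.e (nat_lit 1536) (nat_lit 109) (.e (nat_lit 344115) (nat_lit 20) (.e (nat_lit 507908) (nat_lit 0) (.e (nat_lit 5412) (nat_lit 303) .nil))))))) (.g (nat_lit 4) .nil .nil))))) (.nd (nat_lit 5) (.nd (nat_lit 6) 
(.lf (nat_lit 199835) (.g (nat_lit 5397) (.e (nat_lit 73745) (nat_lit 3) (.e (nat_lit 516151) (nat_lit 9) (.e (nat_lit 426211) (nat_lit 9) (.e (nat_lit 426125) (nat_lit 2) (.e (nat_lit 196615) (nat_lit 0) (.e (nat_lit 60) (nat_lit 0) (.e (nat_lit 2030) (nat_lit 140) (.e (nat_lit 688181) (nat_lit 17) .nil)))))))) (.g (nat_lit 5) .nil .nil))) 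
(.lf (nat_lit 199899) (.g (nat_lit 2408) (.e (nat_lit 73746) (nat_lit 3) (.e (nat_lit 516097) (nat_lit 0) (.e (nat_lit 7593) (nat_lit 407) (.e (nat_lit 73746) (nat_lit 3) (.e (nat_lit 516104) (nat_lit 0) (.e (nat_lit 7936) (nat_lit 407) .nil)))))) (.g (nat_lit 4) .nil .nil)))) (.nd (nat_lit 6) 
(.lf (nat_lit 199867) (.g (nat_lit 6328) (.e (nat_lit 73745) (nat_lit 3) (.e (nat_lit 516166) (nat_lit 12) (.e (nat_lit 450588) (nat_lit 10) (.e (nat_lit 573474) (nat_lit 12) .nil)))) .nil)) 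
(.lf (nat_lit 199931) (.g (nat_lit 3274) (.e (nat_lit 73746) (nat_lit 3) (.e (nat_lit 516115) (nat_lit 1) (.e (nat_lit 164179) (nat_lit 154) (.e (nat_lit 57445) (nat_lit 19) (.e (nat_lit 393219) (nat_lit 0) .nil))))) .nil)))))) (.nd (nat_lit 3) (.nd (nat_lit 4) (.nd (nat_lit 5) (.nd (nat_lit 6) 
(.lf (nat_lit 199815) (.g (nat_lit 2057) (.e (nat_lit 73745) (nat_lit 3) (.e (nat_lit 516119) (nat_lit 1) (.e (nat_lit 164179) (nat_lit 154) (.e (nat_lit 57348) (nat_lit 0) (.e (nat_lit 1795) (nat_lit 119) .nil))))) .nil)) 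
(.lf (nat_lit 199879) (.g (nat_lit 1933) (.e (nat_lit 73745) (nat_lit 3) (.e (nat_lit 516185) (nat_lit 16) (.e (nat_lit 491558) (nat_lit 10) (.e (nat_lit 344115) (nat_lit 20) .nil)))) .nil))) (.nd (nat_lit 6) 
(.lf (nat_lit 199847) (.g (nat_lit 5337) (.e (nat_lit 73745) (nat_lit 3) (.e (nat_lit 516166) (nat_lit 12) (.e (nat_lit 450587) (nat_lit 10) (.e (nat_lit 573473) (nat_lit 12) .nil)))) .nil)) 
(.lf (nat_lit 199911) (.g (nat_lit 1292) (.e (nat_lit 73746) (nat_lit 3) (.e (nat_lit 516104) (nat_lit 0) (.e (nat_lit 7540) (nat_lit 402) (.e (nat_lit 1546) (nat_lit 109) (.e (nat_lit 344115) (nat_lit 20) (.e (nat_lit 507907) (nat_lit 0) (.e (nat_lit 5412) (nat_lit 303) .nil))))))) (.g (nat_lit 4) .nil .nil))))) (.nd (nat_lit 5) (.nd (nat_lit 6) 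
(.lf (nat_lit 199831) (.g (nat_lit 1361) (.e (nat_lit 73745) (nat_lit 3) (.e (nat_lit 516142) (nat_lit 8) (.e (nat_lit 417827) (nat_lit 17) (.e (nat_lit 294928) (nat_lit 2) (.e (nat_lit 90165) (nat_lit 12) .nil))))) .nil)) 
(.lf (nat_lit 199895) (.g (nat_lit 3483) (.e (nat_lit 73746) (nat_lit 3) (.e (nat_lit 516097) (nat_lit 0) (.e (nat_lit 7591) (nat_lit 407) (.e (nat_lit 73747) (nat_lit 3) (.e (nat_lit 516106) (nat_lit 0) (.e (nat_lit 7936) (nat_lit 407) .nil)))))) (.g (nat_lit 5) .nil .nil)))) (.nd (nat_lit 6) 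
(.lf (nat_lit 199863) (.g (nat_lit 4573) (.e (nat_lit 73745) (nat_lit 3) (.e (nat_lit 516166) (nat_lit 12) (.e (nat_lit 450588) (nat_lit 10) (.e (nat_lit 573473) (nat_lit 12) (.e (nat_lit 57350) (nat_lit 0) .nil))))) .nil)) 
(.lf (nat_lit 199927) (.g (nat_lit 2022) (.e (nat_lit 73746) (nat_lit 3) (.e (nat_lit 516115) (nat_lit 1) (.e (nat_lit 164179) (nat_lit 154) (.e (nat_lit 57359) (nat_lit 0) .nil)))) .nil))))) (.nd (nat_lit 4) (.nd (nat_lit 5) (.nd (nat_lit 6) 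
(.lf (nat_lit 199823) (.g (nat_lit 1998) (.e (nat_lit 73745) (nat_lit 3) (.e (nat_lit 516139) (nat_lit 7) (.e (nat_lit 409640) (nat_lit 17) (.e (nat_lit 294928) (nat_lit 2) (.e (nat_lit 90165) (nat_lit 12) .nil))))) .nil)) 
(.lf (nat_lit 199887) (.g (nat_lit 2521) (.e (nat_lit 73745) (nat_lit 3) (.e (nat_lit 516185) (nat_lit 16) (.e (nat_lit 491560) (nat_lit 10) (.e (nat_lit 344115) (nat_lit 20) (.e (nat_lit 507908) (nat_lit 0) .nil))))) .nil))) (.nd (nat_lit 6) 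
(.lf (nat_lit 199855) (.g (nat_lit 4024) (.e (nat_lit 73745) (nat_lit 3) (.e (nat_lit 516166) (nat_lit 12) (.e (nat_lit 450587) (nat_lit 10) (.e (nat_lit 573478) (nat_lit 12) (.e (nat_lit 57356) (nat_lit 0) .nil))))) .nil)) 
(.lf (nat_lit 199919) (.g (nat_lit 869) (.e (nat_lit 73746) (nat_lit 3) (.e (nat_lit 516115) (nat_lit 1) (.e (nat_lit 164152) (nat_lit 152) .nil))) .nil)))) (.nd (nat_lit 5) (.nd (nat_lit 6) 
(.lf (nat_lit 199839) (.g (nat_lit 4774) (.e (nat_lit 73745) (nat_lit 3) (.e (nat_lit 516151) (nat_lit 9) (.e (nat_lit 426211) (nat_lit 9) (.e (nat_lit 426125) (nat_lit 2) (.e (nat_lit 196697) (nat_lit 19) .nil))))) .nil)) 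
(.lf (nat_lit 199903) (.g (nat_lit 1659) (.e (nat_lit 73746) (nat_lit 3) (.e (nat_lit 516098) (nat_lit 0) (.e (nat_lit 7591) (nat_lit 407) (.e (nat_lit 73748) (nat_lit 3) (.e (nat_lit 516102) (nat_lit 0) (.e (nat_lit 7936) (nat_lit 407) .nil)))))) (.g (nat_lit 4) .nil .nil)))) (.nd (nat_lit 6) 
(.lf (nat_lit 199871) (.g (nat_lit 3952) (.e (nat_lit 73745) (nat_lit 3) (.e (nat_lit 516166) (nat_lit 12) (.e (nat_lit 450588) (nat_lit 10) (.e (nat_lit 573475) (nat_lit 12) (.e (nat_lit 57348) (nat_lit 0) .nil))))) .nil)) 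
(.lf (nat_lit 199935) (.g (nat_lit 2702) (.e (nat_lit 73746) (nat_lit 3) (.e (nat_lit 516115) (nat_lit 1) (.e (nat_lit 164182) (nat_lit 154) (.e (nat_lit 57379) (nat_lit 3) (.e (nat_lit 98342) (nat_lit 20) (.e (nat_lit 221211) (nat_lit 22) (.e (nat_lit 196670) (nat_lit 14) .nil))))))) (.g (nat_lit 4) .nil .nil))))))))))

noncomputable def tv2642 : DT := (.nd (nat_lit 0) (.nd (nat_lit 1) (.nd (nat_lit 2) (.nd (nat_lit 3) (.nd (nat_lit 4) (.nd (nat_lit 5) (.nd (nat_lit 6) 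
(.lf (nat_lit 199936) (.g (nat_lit 1221) (.e (nat_lit 73746) (nat_lit 3) (.e (nat_lit 516115) (nat_lit 1) (.e (nat_lit 164182) (nat_lit 154) (.e (nat_lit 57448) (nat_lit 19) .nil)))) .nil)) 
(.lf (nat_lit 200000) (.g (nat_lit 1386) (.e (nat_lit 73746) (nat_lit 3) (.e (nat_lit 516124) (nat_lit 2) (.e (nat_lit 213013) (nat_lit 9) (.e (nat_lit 2666) (nat_lit 167) (.e (nat_lit 196699) (nat_lit 20) (.e (nat_lit 123166) (nat_lit 256) (.e (nat_lit 100) (nat_lit 2) (.e (nat_lit 98048) (nat_lit 5) .nil)))))))) (.g (nat_lit 7) .nil .nil)))) (.nd (nat_lit 6) 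
(.lf (nat_lit 199968) (.g (nat_lit 2996) (.e (nat_lit 73746) (nat_lit 3) (.e (nat_lit 516119) (nat_lit 1) (.e (nat_lit 164182) (nat_lit 154) (.e (nat_lit 57378) (nat_lit 3) (.e (nat_lit 98342) (nat_lit 20) (.e (nat_lit 221212) (nat_lit 22) (.e (nat_lit 196670) (nat_lit 14) .nil))))))) (.g (nat_lit 4) .nil .nil))) 
(.lf (nat_lit 200032) (.g (nat_lit 2281) (.e (nat_lit 73746) (nat_lit 3) (.e (nat_lit 516129) (nat_lit 3) (.e (nat_lit 221210) (nat_lit 22) (.e (nat_lit 196630) (nat_lit 9) (.e (nat_lit 1288) (nat_lit 95) (.e (nat_lit 123197) (nat_lit 266) (.e (nat_lit 57373) (nat_lit 2) (.e (nat_lit 98048) (nat_lit 5) .nil)))))))) (.g (nat_lit 4) .nil .nil))))) (.nd (nat_lit 5) (.nd (nat_lit 6) 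
(.lf (nat_lit 199952) (.g (nat_lit 2010) (.e (nat_lit 73746) (nat_lit 3) (.e (nat_lit 516117) (nat_lit 1) (.e (nat_lit 164183) (nat_lit 154) (.e (nat_lit 57448) (nat_lit 19) (.e (nat_lit 393221) (nat_lit 0) (.e (nat_lit 7936) (nat_lit 348) .nil)))))) (.g (nat_lit 4) .nil .nil))) 
(.lf (nat_lit 200016) (.g (nat_lit 1924) (.e (nat_lit 73746) (nat_lit 3) (.e (nat_lit 516129) (nat_lit 3) (.e (nat_lit 221210) (nat_lit 22) (.e (nat_lit 196609) (nat_lit 0) (.e (nat_lit 2856) (nat_lit 184) (.e (nat_lit 426427) (nat_lit 17) (.e (nat_lit 98048) (nat_lit 5) .nil))))))) (.g (nat_lit 4) .nil .nil)))) (.nd (nat_lit 6) 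
(.lf (nat_lit 199984) (.g (nat_lit 3089) (.e (nat_lit 73746) (nat_lit 3) (.e (nat_lit 516120) (nat_lit 1) (.e (nat_lit 164182) (nat_lit 154) (.e (nat_lit 57448) (nat_lit 19) (.e (nat_lit 393221) (nat_lit 0) (.e (nat_lit 7936) (nat_lit 348) .nil)))))) (.g (nat_lit 5) .nil .nil))) 
(.lf (nat_lit 200048) (.g (nat_lit 2425) (.e (nat_lit 73746) (nat_lit 3) (.e (nat_lit 516129) (nat_lit 3) (.e (nat_lit 221210) (nat_lit 22) (.e (nat_lit 196651) (nat_lit 10) (.e (nat_lit 8259) (nat_lit 45) (.e (nat_lit 778246) (nat_lit 0) (.e (nat_lit 1239) (nat_lit 91) (.e (nat_lit 98048) (nat_lit 5) .nil)))))))) (.g (nat_lit 6) .nil .nil)))))) (.nd (nat_lit 4) (.nd (nat_lit 5) (.nd (nat_lit 6) 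
(.lf (nat_lit 199944) (.g (nat_lit 711) (.e (nat_lit 73746) (nat_lit 3) (.e (nat_lit 516117) (nat_lit 1) (.e (nat_lit 164166) (nat_lit 152) (.e (nat_lit 1178) (nat_lit 87) .nil)))) .nil)) 
(.lf (nat_lit 200008) (.g (nat_lit 2779) (.e (nat_lit 73746) (nat_lit 3) (.e (nat_lit 516129) (nat_lit 3) (.e (nat_lit 221203) (nat_lit 20) (.e (nat_lit 3632) (nat_lit 227) (.e (nat_lit 778323) (nat_lit 5) (.e (nat_lit 73731) (nat_lit 0) (.e (nat_lit 7125) (nat_lit 382) (.e (nat_lit 1214) (nat_lit 89) .nil)))))))) (.g (nat_lit 5) .nil .nil)))) (.nd (nat_lit 6) 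
(.lf (nat_lit 199976) (.g (nat_lit 2929) (.e (nat_lit 73746) (nat_lit 3) (.e (nat_lit 516120) (nat_lit 1) (.e (nat_lit 164181) (nat_lit 154) (.e (nat_lit 57378) (nat_lit 3) (.e (nat_lit 98340) (nat_lit 20) (.e (nat_lit 221212) (nat_lit 22) (.e (nat_lit 196670) (nat_lit 14) .nil))))))) (.g (nat_lit 4) .nil .nil))) 
(.lf (nat_lit 200040) (.g (nat_lit 2054) (.e (nat_lit 73746) (nat_lit 3) (.e (nat_lit 516129) (nat_lit 3) (.e (nat_lit 221210) (nat_lit 22) (.e (nat_lit 196649) (nat_lit 10) (.e (nat_lit 8272) (nat_lit 46) (.e (nat_lit 786454) (nat_lit 17) (.e (nat_lit 98048) (nat_lit 5) .nil))))))) (.g (nat_lit 4) .nil .nil))))) (.nd (nat_lit 5) (.nd (nat_lit 6) 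
(.lf (nat_lit 199960) (.g (nat_lit 1783) (.e (nat_lit 73746) (nat_lit 3) (.e (nat_lit 516119) (nat_lit 1) (.e (nat_lit 164176) (nat_lit 154) (.e (nat_lit 57448) (nat_lit 19) (.e (nat_lit 393221) (nat_lit 0) .nil))))) .nil)) 
(.lf (nat_lit 200024) (.g (nat_lit 1685) (.e (nat_lit 73746) (nat_lit 3) (.e (nat_lit 516129) (nat_lit 3) (.e (nat_lit 221210) (nat_lit 22) (.e (nat_lit 196617) (nat_lit 9) (.e (nat_lit 212) (nat_lit 18) .nil))))) .nil))) (.nd (nat_lit 6) 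
(.lf (nat_lit 199992) (.g (nat_lit 950) (.e (nat_lit 73746) (nat_lit 3) (.e (nat_lit 516120) (nat_lit 1) (.e (nat_lit 164232) (nat_lit 185) .nil))) .nil)) 
(.lf (nat_lit 200056) (.g (nat_lit 2690) (.e (nat_lit 73746) (nat_lit 3) (.e (nat_lit 516129) (nat_lit 3) (.e (nat_lit 221214) (nat_lit 23) (.e (nat_lit 204819) (nat_lit 17) (.e (nat_lit 1994) (nat_lit 137) (.e (nat_lit 663559) (nat_lit 0) (.e (nat_lit 1234) (nat_lit 91) (.e (nat_lit 98048) (nat_lit 5) .nil)))))))) (.g (nat_lit 5) .nil .nil))))))) 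
(.nd (nat_lit 3) (.nd (nat_lit 4) (.nd (nat_lit 5) (.nd (nat_lit 6) 
(.lf (nat_lit 199940) (.g (nat_lit 2475) (.e (nat_lit 73746) (nat_lit 3) (.e (nat_lit 516115) (nat_lit 1) (.e (nat_lit 164183) (nat_lit 154) (.e (nat_lit 57448) (nat_lit 19) (.e (nat_lit 393221) (nat_lit 0) (.e (nat_lit 7936) (nat_lit 348) .nil)))))) (.g (nat_lit 4) .nil .nil))) 
(.lf (nat_lit 200004) (.g (nat_lit 2862) (.e (nat_lit 73746) (nat_lit 3) (.e (nat_lit 516129) (nat_lit 3) (.e (nat_lit 229120) (nat_lit 1) (.e (nat_lit 57854) (nat_lit 252) (.e (nat_lit 57389) (nat_lit 5) (.e (nat_lit 114712) (nat_lit 21) (.e (nat_lit 57829) (nat_lit 250) (.e (nat_lit 1214) (nat_lit 89) .nil)))))))) (.g (nat_lit 5) .nil .nil)))) (.nd (nat_lit 6) 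
(.lf (nat_lit 199972) (.g (nat_lit 1355) (.e (nat_lit 73746) (nat_lit 3) (.e (nat_lit 516119) (nat_lit 1) (.e (nat_lit 164196) (nat_lit 158) (.e (nat_lit 1126) (nat_lit 83) .nil)))) .nil)) 
(.lf (nat_lit 200036) (.g (nat_lit 1349) (.e (nat_lit 73746) (nat_lit 3) (.e (nat_lit 516129) (nat_lit 3) (.e (nat_lit 221210) (nat_lit 22) (.e (nat_lit 196649) (nat_lit 10) .nil)))) .nil)))) (.nd (nat_lit 5) (.nd (nat_lit 6) 
(.lf (nat_lit 199956) (.g (nat_lit 764) (.e (nat_lit 73746) (nat_lit 3) (.e (nat_lit 516117) (nat_lit 1) (.e (nat_lit 164232) (nat_lit 185) .nil))) .nil)) 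
(.lf (nat_lit 200020) (.g (nat_lit 2079) (.e (nat_lit 73746) (nat_lit 3) (.e (nat_lit 516129) (nat_lit 3) (.e (nat_lit 221210) (nat_lit 22) (.e (nat_lit 196610) (nat_lit 0) (.e (nat_lit 2857) (nat_lit 184) (.e (nat_lit 426432) (nat_lit 17) (.e (nat_lit 98048) (nat_lit 5) .nil))))))) (.g (nat_lit 4) .nil .nil)))) (.nd (nat_lit 6) 
(.lf (nat_lit 199988) (.g (nat_lit 2456) (.e (nat_lit 73746) (nat_lit 3) (.e (nat_lit 516120) (nat_lit 1) (.e (nat_lit 164183) (nat_lit 154) (.e (nat_lit 57447) (nat_lit 19) (.e (nat_lit 393218) (nat_lit 0) .nil))))) .nil)) 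
(.lf (nat_lit 200052) (.g (nat_lit 1911) (.e (nat_lit 73746) (nat_lit 3) (.e (nat_lit 516129) (nat_lit 3) (.e (nat_lit 221210) (nat_lit 22) (.e (nat_lit 196661) (nat_lit 12) (.e (nat_lit 57344) (nat_lit 0) .nil))))) .nil))))) (.nd (nat_lit 4) (.nd (nat_lit 5) (.nd (nat_lit 6) 
(.lf (nat_lit 199948) (.g (nat_lit 2395) (.e (nat_lit 73746) (nat_lit 3) (.e (nat_lit 516117) (nat_lit 1) (.e (nat_lit 164182) (nat_lit 154) (.e (nat_lit 57379) (nat_lit 3) (.e (nat_lit 98340) (nat_lit 20) .nil))))) .nil)) 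
(.lf (nat_lit 200012) (.g (nat_lit 538) (.e (nat_lit 73746) (nat_lit 3) (.e (nat_lit 516129) (nat_lit 3) (.e (nat_lit 221207) (nat_lit 21) .nil))) .nil))) (.nd (nat_lit 6) 
(.lf (nat_lit 199980) (.g (nat_lit 3118) (.e (nat_lit 73746) (nat_lit 3) (.e (nat_lit 516120) (nat_lit 1) (.e (nat_lit 164182) (nat_lit 154) (.e (nat_lit 57379) (nat_lit 3) (.e (nat_lit 98341) (nat_lit 20) (.e (nat_lit 221211) (nat_lit 22) (.e (nat_lit 196670) (nat_lit 14) .nil))))))) (.g (nat_lit 4) .nil .nil))) 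
(.lf (nat_lit 200044) (.g (nat_lit 1946) (.e (nat_lit 73746) (nat_lit 3) (.e (nat_lit 516129) (nat_lit 3) (.e (nat_lit 221210) (nat_lit 22) (.e (nat_lit 196650) (nat_lit 10) (.e (nat_lit 8260) (nat_lit 45) (.e (nat_lit 778318) (nat_lit 3) (.e (nat_lit 57454) (nat_lit 21) (.e (nat_lit 507648) (nat_lit 19) .nil)))))))) (.g (nat_lit 4) .nil .nil))))) (.nd (nat_lit 5) (.nd (nat_lit 6) 
(.lf (nat_lit 199964) (.g (nat_lit 2209) (.e (nat_lit 73746) (nat_lit 3) (.e (nat_lit 516119) (nat_lit 1) (.e (nat_lit 164179) (nat_lit 154) (.e (nat_lit 57347) (nat_lit 0) (.e (nat_lit 1795) (nat_lit 119) .nil))))) .nil)) 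
(.lf (nat_lit 200028) (.g (nat_lit 2724) (.e (nat_lit 73746) (nat_lit 3) (.e (nat_lit 516129) (nat_lit 3) (.e (nat_lit 221210) (nat_lit 22) (.e (nat_lit 196630) (nat_lit 9) (.e (nat_lit 1288) (nat_lit 95) (.e (nat_lit 123182) (nat_lit 264) (.e (nat_lit 999) (nat_lit 81) (.e (nat_lit 1239) (nat_lit 91) (.e (nat_lit 98048) (nat_lit 5) .nil))))))))) (.g (nat_lit 4) .nil .nil)))) (.nd (nat_lit 6) 
(.lf (nat_lit 199996) (.g (nat_lit 2899) (.e (nat_lit 73746) (nat_lit 3) (.e (nat_lit 516124) (nat_lit 2) (.e (nat_lit 220928) (nat_lit 3) (.e (nat_lit 57464) (nat_lit 23) (.e (nat_lit 516115) (nat_lit 1) (.e (nat_lit 164399) (nat_lit 256) (.e (nat_lit 57373) (nat_lit 2) (.e (nat_lit 98048) (nat_lit 5) .nil)))))))) (.g (nat_lit 7) .nil .nil))) 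
(.lf (nat_lit 200060) (.g (nat_lit 2504) (.e (nat_lit 73746) (nat_lit 3) (.e (nat_lit 516129) (nat_lit 3) (.e (nat_lit 221214) (nat_lit 23) (.e (nat_lit 204829) (nat_lit 18) (.e (nat_lit 57924) (nat_lit 282) .nil))))) .nil))))))) (.nd (nat_lit 2) (.nd (nat_lit 3) (.nd (nat_lit 4) (.nd (nat_lit 5) (.nd (nat_lit 6) 
(.lf (nat_lit 199938) (.g (nat_lit 2660) (.e (nat_lit 73746) (nat_lit 3) (.e (nat_lit 516115) (nat_lit 1) (.e (nat_lit 164183) (nat_lit 154) (.e (nat_lit 57378) (nat_lit 3) (.e (nat_lit 98338) (nat_lit 19) .nil))))) .nil)) 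
(.lf (nat_lit 200002) (.g (nat_lit 1852) (.e (nat_lit 73746) (nat_lit 3) (.e (nat_lit 516129) (nat_lit 3) (.e (nat_lit 229120) (nat_lit 1) (.e (nat_lit 57846) (nat_lit 252) (.e (nat_lit 57390) (nat_lit 5) (.e (nat_lit 114712) (nat_lit 21) (.e (nat_lit 57830) (nat_lit 250) (.e (nat_lit 1214) (nat_lit 89) .nil)))))))) (.g (nat_lit 4) .nil .nil)))) (.nd (nat_lit 6) 
(.lf (nat_lit 199970) (.g (nat_lit 3145) (.e (nat_lit 73746) (nat_lit 3) (.e (nat_lit 516119) (nat_lit 1) (.e (nat_lit 164183) (nat_lit 154) (.e (nat_lit 57378) (nat_lit 3) (.e (nat_lit 98341) (nat_lit 20) (.e (nat_lit 221212) (nat_lit 22) (.e (nat_lit 196670) (nat_lit 14) .nil))))))) (.g (nat_lit 4) .nil .nil))) 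
(.lf (nat_lit 200034) (.g (nat_lit 2864) (.e (nat_lit 73746) (nat_lit 3) (.e (nat_lit 516129) (nat_lit 3) (.e (nat_lit 221210) (nat_lit 22) (.e (nat_lit 196648) (nat_lit 10) (.e (nat_lit 8262) (nat_lit 45) (.e (nat_lit 778246) (nat_lit 0) (.e (nat_lit 1239) (nat_lit 91) (.e (nat_lit 98048) (nat_lit 5) .nil)))))))) (.g (nat_lit 7) .nil .nil))))) (.nd (nat_lit 5) (.nd (nat_lit 6) 
(.lf (nat_lit 199954) (.g (nat_lit 2202) (.e (nat_lit 73746) (nat_lit 3) (.e (nat_lit 516117) (nat_lit 1) (.e (nat_lit 164195) (nat_lit 158) (.e (nat_lit 1126) (nat_lit 83) (.e (nat_lit 16392) (nat_lit 0) (.e (nat_lit 3569) (nat_lit 222) (.e (nat_lit 737284) (nat_lit 0) (.e (nat_lit 5412) (nat_lit 303) .nil)))))))) (.g (nat_lit 5) .nil .nil))) 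
(.lf (nat_lit 200018) (.g (nat_lit 2051) (.e (nat_lit 73746) (nat_lit 3) (.e (nat_lit 516129) (nat_lit 3) (.e (nat_lit 221210) (nat_lit 22) (.e (nat_lit 196610) (nat_lit 0) (.e (nat_lit 2856) (nat_lit 184) (.e (nat_lit 426427) (nat_lit 17) (.e (nat_lit 98048) (nat_lit 5) .nil))))))) (.g (nat_lit 4) .nil .nil)))) (.nd (nat_lit 6) 
(.lf (nat_lit 199986) (.g (nat_lit 2159) (.e (nat_lit 73746) (nat_lit 3) (.e (nat_lit 516120) (nat_lit 1) (.e (nat_lit 164183) (nat_lit 154) (.e (nat_lit 57379) (nat_lit 3) (.e (nat_lit 98340) (nat_lit 20) .nil))))) .nil)) 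
(.lf (nat_lit 200050) (.g (nat_lit 2022) (.e (nat_lit 73746) (nat_lit 3) (.e (nat_lit 516129) (nat_lit 3) (.e (nat_lit 221210) (nat_lit 22) (.e (nat_lit 196651) (nat_lit 10) (.e (nat_lit 8262) (nat_lit 45) (.e (nat_lit 778317) (nat_lit 3) (.e (nat_lit 57454) (nat_lit 21) (.e (nat_lit 507648) (nat_lit 19) .nil)))))))) (.g (nat_lit 4) .nil .nil)))))) 
(.nd (nat_lit 4) (.nd (nat_lit 5) (.nd (nat_lit 6) 
(.lf (nat_lit 199946) (.g (nat_lit 2764) (.e (nat_lit 73746) (nat_lit 3) (.e (nat_lit 516117) (nat_lit 1) (.e (nat_lit 164182) (nat_lit 154) (.e (nat_lit 57378) (nat_lit 3) (.e (nat_lit 98340) (nat_lit 20) (.e (nat_lit 221210) (nat_lit 22) (.e (nat_lit 196670) (nat_lit 14) .nil))))))) (.g (nat_lit 4) .nil .nil))) 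
(.lf (nat_lit 200010) (.g (nat_lit 1887) (.e (nat_lit 73746) (nat_lit 3) (.e (nat_lit 516129) (nat_lit 3) (.e (nat_lit 221206) (nat_lit 21) (.e (nat_lit 164242) (nat_lit 195) (.e (nat_lit 2640) (nat_lit 165) (.e (nat_lit 180227) (nat_lit 0) (.e (nat_lit 6254) (nat_lit 337) (.e (nat_lit 7936) (nat_lit 89) .nil)))))))) (.g (nat_lit 4) .nil .nil)))) (.nd (nat_lit 6) 
(.lf (nat_lit 199978) (.g (nat_lit 3233) (.e (nat_lit 73746) (nat_lit 3) (.e (nat_lit 516120) (nat_lit 1) (.e (nat_lit 164182) (nat_lit 154) (.e (nat_lit 57378) (nat_lit 3) (.e (nat_lit 98340) (nat_lit 20) (.e (nat_lit 221210) (nat_lit 22) (.e (nat_lit 196670) (nat_lit 14) .nil))))))) (.g (nat_lit 4) .nil .nil))) 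
(.lf (nat_lit 200042) (.g (nat_lit 1864) (.e (nat_lit 73746) (nat_lit 3) (.e (nat_lit 516129) (nat_lit 3) (.e (nat_lit 221210) (nat_lit 22) (.e (nat_lit 196649) (nat_lit 10) (.e (nat_lit 8282) (nat_lit 49) .nil))))) .nil)))) (.nd (nat_lit 5) (.nd (nat_lit 6) 
(.lf (nat_lit 199962) (.g (nat_lit 2107) (.e (nat_lit 73746) (nat_lit 3) (.e (nat_lit 516119) (nat_lit 1) (.e (nat_lit 164178) (nat_lit 154) (.e (nat_lit 57347) (nat_lit 0) (.e (nat_lit 1795) (nat_lit 119) .nil))))) .nil)) 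
(.lf (nat_lit 200026) (.g (nat_lit 2257) (.e (nat_lit 73746) (nat_lit 3) (.e (nat_lit 516129) (nat_lit 3) (.e (nat_lit 221210) (nat_lit 22) (.e (nat_lit 196630) (nat_lit 9) (.e (nat_lit 208) (nat_lit 18) .nil))))) .nil))) (.nd (nat_lit 6) 
(.lf (nat_lit 199994) (.g (nat_lit 1452) (.e (nat_lit 73746) (nat_lit 3) (.e (nat_lit 516120) (nat_lit 1) (.e (nat_lit 171776) (nat_lit 263) (.e (nat_lit 122913) (nat_lit 13) (.e (nat_lit 344115) (nat_lit 20) (.e (nat_lit 507908) (nat_lit 0) (.e (nat_lit 5412) (nat_lit 303) .nil))))))) (.g (nat_lit 5) .nil .nil))) 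
(.lf (nat_lit 200058) (.g (nat_lit 1908) (.e (nat_lit 73746) (nat_lit 3) (.e (nat_lit 516129) (nat_lit 3) (.e (nat_lit 221214) (nat_lit 23) (.e (nat_lit 204819) (nat_lit 17) (.e (nat_lit 1998) (nat_lit 137) .nil))))) .nil)))))) (.nd (nat_lit 3) (.nd (nat_lit 4) (.nd (nat_lit 5) (.nd (nat_lit 6) 
(.lf (nat_lit 199942) (.g (nat_lit 2477) (.e (nat_lit 73746) (nat_lit 3) (.e (nat_lit 516116) (nat_lit 1) (.e (nat_lit 164182) (nat_lit 154) (.e (nat_lit 57378) (nat_lit 3) (.e (nat_lit 98341) (nat_lit 20) .nil))))) .nil)) 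
(.lf (nat_lit 200006) (.g (nat_lit 1389) (.e (nat_lit 73746) (nat_lit 3) (.e (nat_lit 516129) (nat_lit 3) (.e (nat_lit 221196) (nat_lit 20) (.e (nat_lit 3114) (nat_lit 193) (.e (nat_lit 499921) (nat_lit 9) (.e (nat_lit 179968) (nat_lit 17) (.e (nat_lit 98048) (nat_lit 5) .nil))))))) (.g (nat_lit 5) .nil .nil)))) (.nd (nat_lit 6) 
(.lf (nat_lit 199974) (.g (nat_lit 958) (.e (nat_lit 73746) (nat_lit 3) (.e (nat_lit 516120) (nat_lit 1) (.e (nat_lit 164160) (nat_lit 152) .nil))) .nil)) 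
(.lf (nat_lit 200038) (.g (nat_lit 3652) (.e (nat_lit 73746) (nat_lit 3) (.e (nat_lit 516129) (nat_lit 3) (.e (nat_lit 221210) (nat_lit 22) (.e (nat_lit 196649) (nat_lit 10) (.e (nat_lit 8261) (nat_lit 45) (.e (nat_lit 778318) (nat_lit 3) (.e (nat_lit 57454) (nat_lit 21) (.e (nat_lit 507648) (nat_lit 19) .nil)))))))) (.g (nat_lit 7) .nil .nil))))) (.nd (nat_lit 5) (.nd (nat_lit 6) 
(.lf (nat_lit 199958) (.g (nat_lit 770) (.e (nat_lit 73746) (nat_lit 3) (.e (nat_lit 516117) (nat_lit 1) (.e (nat_lit 164412) (nat_lit 260) .nil))) .nil)) 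
(.lf (nat_lit 200022) (.g (nat_lit 1994) (.e (nat_lit 73746) (nat_lit 3) (.e (nat_lit 516129) (nat_lit 3) (.e (nat_lit 221210) (nat_lit 22) (.e (nat_lit 196616) (nat_lit 0) (.e (nat_lit 2857) (nat_lit 184) (.e (nat_lit 426432) (nat_lit 17) (.e (nat_lit 98048) (nat_lit 5) .nil))))))) (.g (nat_lit 4) .nil .nil)))) (.nd (nat_lit 6) 
(.lf (nat_lit 199990) (.g (nat_lit 2081) (.e (nat_lit 73746) (nat_lit 3) (.e (nat_lit 516120) (nat_lit 1) (.e (nat_lit 164183) (nat_lit 154) (.e (nat_lit 57447) (nat_lit 19) (.e (nat_lit 393221) (nat_lit 0) (.e (nat_lit 7936) (nat_lit 348) .nil)))))) (.g (nat_lit 4) .nil .nil))) 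
(.lf (nat_lit 200054) (.g (nat_lit 1550) (.e (nat_lit 73746) (nat_lit 3) (.e (nat_lit 516129) (nat_lit 3) (.e (nat_lit 221214) (nat_lit 23) (.e (nat_lit 204817) (nat_lit 17) .nil)))) .nil))))) (.nd (nat_lit 4) (.nd (nat_lit 5) (.nd (nat_lit 6) 
(.lf (nat_lit 199950) (.g (nat_lit 2782) (.e (nat_lit 73746) (nat_lit 3) (.e (nat_lit 516117) (nat_lit 1) (.e (nat_lit 164182) (nat_lit 154) (.e (nat_lit 57379) (nat_lit 3) (.e (nat_lit 98342) (nat_lit 20) (.e (nat_lit 221211) (nat_lit 22) (.e (nat_lit 196670) (nat_lit 14) .nil))))))) (.g (nat_lit 4) .nil .nil))) 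
(.lf (nat_lit 200014) (.g (nat_lit 1352) (.e (nat_lit 73746) (nat_lit 3) (.e (nat_lit 516129) (nat_lit 3) (.e (nat_lit 221210) (nat_lit 22) (.e (nat_lit 196608) (nat_lit 0) .nil)))) .nil))) (.nd (nat_lit 6) 
(.lf (nat_lit 199982) (.g (nat_lit 2532) (.e (nat_lit 73746) (nat_lit 3) (.e (nat_lit 516120) (nat_lit 1) (.e (nat_lit 164182) (nat_lit 154) (.e (nat_lit 57411) (nat_lit 12) (.e (nat_lit 336446) (nat_lit 33) .nil))))) .nil)) 
(.lf (nat_lit 200046) (.g (nat_lit 2176) (.e (nat_lit 73746) (nat_lit 3) (.e (nat_lit 516129) (nat_lit 3) (.e (nat_lit 221210) (nat_lit 22) (.e (nat_lit 196650) (nat_lit 10) (.e (nat_lit 8262) (nat_lit 45) (.e (nat_lit 778317) (nat_lit 3) (.e (nat_lit 57454) (nat_lit 21) (.e (nat_lit 507648) (nat_lit 19) .nil)))))))) (.g (nat_lit 5) .nil .nil))))) (.nd (nat_lit 5) (.nd (nat_lit 6) 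
(.lf (nat_lit 199966) (.g (nat_lit 2443) (.e (nat_lit 73746) (nat_lit 3) (.e (nat_lit 516119) (nat_lit 1) (.e (nat_lit 164179) (nat_lit 154) (.e (nat_lit 57445) (nat_lit 19) (.e (nat_lit 393221) (nat_lit 0) (.e (nat_lit 7936) (nat_lit 348) .nil)))))) (.g (nat_lit 4) .nil .nil))) 
(.lf (nat_lit 200030) (.g (nat_lit 2394) (.e (nat_lit 73746) (nat_lit 3) (.e (nat_lit 516129) (nat_lit 3) (.e (nat_lit 221210) (nat_lit 22) (.e (nat_lit 196630) (nat_lit 9) (.e (nat_lit 1288) (nat_lit 95) (.e (nat_lit 123197) (nat_lit 266) (.e (nat_lit 57370) (nat_lit 2) (.e (nat_lit 98048) (nat_lit 5) .nil)))))))) (.g (nat_lit 4) .nil .nil)))) (.nd (nat_lit 6) 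
(.lf (nat_lit 199998) (.g (nat_lit 2897) (.e (nat_lit 73746) (nat_lit 3) (.e (nat_lit 516124) (nat_lit 2) (.e (nat_lit 220928) (nat_lit 3) (.e (nat_lit 57464) (nat_lit 23) (.e (nat_lit 516116) (nat_lit 1) (.e (nat_lit 164399) (nat_lit 256) (.e (nat_lit 57370) (nat_lit 2) (.e (nat_lit 98048) (nat_lit 5) .nil)))))))) (.g (nat_lit 7) .nil .nil))) 
(.lf (nat_lit 200062) (.g (nat_lit 2504) (.e (nat_lit 73746) (nat_lit 3) (.e (nat_lit 516129) (nat_lit 3) (.e (nat_lit 221214) (nat_lit 23) (.e (nat_lit 204829) (nat_lit 18) (.e (nat_lit 57929) (nat_lit 282) .nil))))) .nil)))))))) (.nd (nat_lit 1) (.nd (nat_lit 2) (.nd (nat_lit 3) (.nd (nat_lit 4) (.nd (nat_lit 5) (.nd (nat_lit 6) 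
(.lf (nat_lit 199937) (.g (nat_lit 2289) (.e (nat_lit 73746) (nat_lit 3) (.e (nat_lit 516115) (nat_lit 1) (.e (nat_lit 164182) (nat_lit 154) (.e (nat_lit 57448) (nat_lit 19) (.e (nat_lit 393221) (nat_lit 0) (.e (nat_lit 7936) (nat_lit 348) .nil)))))) (.g (nat_lit 4) .nil .nil))) 
(.lf (nat_lit 200001) (.g (nat_lit 278) (.e (nat_lit 73746) (nat_lit 3) (.e (nat_lit 516127) (nat_lit 2) (.e (nat_lit 213038) (nat_lit 13) .nil))) .nil))) (.nd (nat_lit 6) 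
(.lf (nat_lit 199969) (.g (nat_lit 2559) (.e (nat_lit 73746) (nat_lit 3) (.e (nat_lit 516119) (nat_lit 1) (.e (nat_lit 164183) (nat_lit 154) (.e (nat_lit 57378) (nat_lit 3) (.e (nat_lit 98340) (nat_lit 20) .nil))))) .nil)) 
(.lf (nat_lit 200033) (.g (nat_lit 1350) (.e (nat_lit 73746) (nat_lit 3) (.e (nat_lit 516129) (nat_lit 3) (.e (nat_lit 221210) (nat_lit 22) (.e (nat_lit 196635) (nat_lit 9) .nil)))) .nil)))) (.nd (nat_lit 5) (.nd (nat_lit 6) 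
(.lf (nat_lit 199953) (.g (nat_lit 1164) (.e (nat_lit 73746) (nat_lit 3) (.e (nat_lit 516117) (nat_lit 1) (.e (nat_lit 164192) (nat_lit 158) (.e (nat_lit 1046) (nat_lit 81) .nil)))) .nil)) 
(.lf (nat_lit 200017) (.g (nat_lit 1947) (.e (nat_lit 73746) (nat_lit 3) (.e (nat_lit 516129) (nat_lit 3) (.e (nat_lit 221210) (nat_lit 22) (.e (nat_lit 196609) (nat_lit 0) (.e (nat_lit 2857) (nat_lit 184) (.e (nat_lit 426432) (nat_lit 17) (.e (nat_lit 98048) (nat_lit 5) .nil))))))) (.g (nat_lit 4) .nil .nil)))) (.nd (nat_lit 6) 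
(.lf (nat_lit 199985) (.g (nat_lit 2493) (.e (nat_lit 73746) (nat_lit 3) (.e (nat_lit 516120) (nat_lit 1) (.e (nat_lit 164183) (nat_lit 154) (.e (nat_lit 57378) (nat_lit 3) (.e (nat_lit 98338) (nat_lit 19) .nil))))) .nil)) 
(.lf (nat_lit 200049) (.g (nat_lit 3414) (.e (nat_lit 73746) (nat_lit 3) (.e (nat_lit 516129) (nat_lit 3) (.e (nat_lit 221210) (nat_lit 22) (.e (nat_lit 196651) (nat_lit 10) (.e (nat_lit 8261) (nat_lit 45) (.e (nat_lit 778318) (nat_lit 3) (.e (nat_lit 57454) (nat_lit 21) (.e (nat_lit 507648) (nat_lit 19) .nil)))))))) (.g (nat_lit 7) .nil .nil)))))) 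
(.nd (nat_lit 4) (.nd (nat_lit 5) (.nd (nat_lit 6) 
(.lf (nat_lit 199945) (.g (nat_lit 2811) (.e (nat_lit 73746) (nat_lit 3) (.e (nat_lit 516117) (nat_lit 1) (.e (nat_lit 164181) (nat_lit 154) (.e (nat_lit 57378) (nat_lit 3) (.e (nat_lit 98340) (nat_lit 20) (.e (nat_lit 221212) (nat_lit 22) (.e (nat_lit 196670) (nat_lit 14) .nil))))))) (.g (nat_lit 4) .nil .nil))) 
(.lf (nat_lit 200009) (.g (nat_lit 469) (.e (nat_lit 73746) (nat_lit 3) (.e (nat_lit 516129) (nat_lit 3) (.e (nat_lit 221204) (nat_lit 20) .nil))) .nil))) (.nd (nat_lit 6) 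
(.lf (nat_lit 199977) (.g (nat_lit 2677) (.e (nat_lit 73746) (nat_lit 3) (.e (nat_lit 516120) (nat_lit 1) (.e (nat_lit 164182) (nat_lit 154) (.e (nat_lit 57378) (nat_lit 3) (.e (nat_lit 98340) (nat_lit 20) .nil))))) .nil)) 
(.lf (nat_lit 200041) (.g (nat_lit 2494) (.e (nat_lit 73746) (nat_lit 3) (.e (nat_lit 516129) (nat_lit 3) (.e (nat_lit 221210) (nat_lit 22) (.e (nat_lit 196649) (nat_lit 10) (.e (nat_lit 8272) (nat_lit 46) (.e (nat_lit 786455) (nat_lit 17) (.e (nat_lit 98048) (nat_lit 5) .nil))))))) (.g (nat_lit 5) .nil .nil))))) (.nd (nat_lit 5) (.nd (nat_lit 6) 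
(.lf (nat_lit 199961) (.g (nat_lit 2721) (.e (nat_lit 73746) (nat_lit 3) (.e (nat_lit 516119) (nat_lit 1) (.e (nat_lit 164178) (nat_lit 154) (.e (nat_lit 57347) (nat_lit 0) (.e (nat_lit 1781) (nat_lit 119) (.e (nat_lit 516131) (nat_lit 3) (.e (nat_lit 221212) (nat_lit 22) (.e (nat_lit 196670) (nat_lit 14) .nil)))))))) (.g (nat_lit 4) .nil .nil))) 
(.lf (nat_lit 200025) (.g (nat_lit 2488) (.e (nat_lit 73746) (nat_lit 3) (.e (nat_lit 516129) (nat_lit 3) (.e (nat_lit 221210) (nat_lit 22) (.e (nat_lit 196624) (nat_lit 9) (.e (nat_lit 1186) (nat_lit 87) (.e (nat_lit 57926) (nat_lit 282) (.e (nat_lit 163869) (nat_lit 2) (.e (nat_lit 196670) (nat_lit 14) .nil)))))))) (.g (nat_lit 4) .nil .nil)))) (.nd (nat_lit 6) 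
(.lf (nat_lit 199993) (.g (nat_lit 1443) (.e (nat_lit 73746) (nat_lit 3) (.e (nat_lit 516120) (nat_lit 1) (.e (nat_lit 171776) (nat_lit 263) (.e (nat_lit 122913) (nat_lit 13) (.e (nat_lit 344115) (nat_lit 20) (.e (nat_lit 507907) (nat_lit 0) (.e (nat_lit 5412) (nat_lit 303) .nil))))))) (.g (nat_lit 5) .nil .nil))) 
(.lf (nat_lit 200057) (.g (nat_lit 2174) (.e (nat_lit 73746) (nat_lit 3) (.e (nat_lit 516129) (nat_lit 3) (.e (nat_lit 221214) (nat_lit 23) (.e (nat_lit 204819) (nat_lit 17) (.e (nat_lit 1996) (nat_lit 137) (.e (nat_lit 663554) (nat_lit 0) (.e (nat_lit 1239) (nat_lit 91) (.e (nat_lit 98048) (nat_lit 5) .nil)))))))) (.g (nat_lit 4) .nil .nil))))))) 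
(.nd (nat_lit 3) (.nd (nat_lit 4) (.nd (nat_lit 5) (.nd (nat_lit 6) 
(.lf (nat_lit 199941) (.g (nat_lit 902) (.e (nat_lit 73746) (nat_lit 3) (.e (nat_lit 516115) (nat_lit 1) (.e (nat_lit 164196) (nat_lit 158) .nil))) .nil)) 
(.lf (nat_lit 200005) (.g (nat_lit 1673) (.e (nat_lit 73746) (nat_lit 3) (.e (nat_lit 516129) (nat_lit 3) (.e (nat_lit 229120) (nat_lit 3) (.e (nat_lit 98317) (nat_lit 9) (.e (nat_lit 336271) (nat_lit 15) (.e (nat_lit 3141) (nat_lit 193) (.e (nat_lit 500073) (nat_lit 19) .nil))))))) (.g (nat_lit 4) .nil .nil)))) (.nd (nat_lit 6) 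
(.lf (nat_lit 199973) (.g (nat_lit 632) (.e (nat_lit 73746) (nat_lit 3) (.e (nat_lit 516120) (nat_lit 1) (.e (nat_lit 164159) (nat_lit 152) .nil))) .nil)) 
(.lf (nat_lit 200037) (.g (nat_lit 2532) (.e (nat_lit 73746) (nat_lit 3) (.e (nat_lit 516129) (nat_lit 3) (.e (nat_lit 221210) (nat_lit 22) (.e (nat_lit 196649) (nat_lit 10) (.e (nat_lit 8261) (nat_lit 45) (.e (nat_lit 778246) (nat_lit 0) (.e (nat_lit 1239) (nat_lit 91) (.e (nat_lit 98048) (nat_lit 5) .nil)))))))) (.g (nat_lit 5) .nil .nil))))) (.nd (nat_lit 5) (.nd (nat_lit 6) 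
(.lf (nat_lit 199957) (.g (nat_lit 732) (.e (nat_lit 73746) (nat_lit 3) (.e (nat_lit 516117) (nat_lit 1) (.e (nat_lit 164411) (nat_lit 260) .nil))) .nil)) 
(.lf (nat_lit 200021) (.g (nat_lit 2031) (.e (nat_lit 73746) (nat_lit 3) (.e (nat_lit 516129) (nat_lit 3) (.e (nat_lit 221210) (nat_lit 22) (.e (nat_lit 196614) (nat_lit 0) (.e (nat_lit 2857) (nat_lit 184) (.e (nat_lit 426432) (nat_lit 17) (.e (nat_lit 98048) (nat_lit 5) .nil))))))) (.g (nat_lit 4) .nil .nil)))) (.nd (nat_lit 6) 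
(.lf (nat_lit 199989) (.g (nat_lit 2529) (.e (nat_lit 73746) (nat_lit 3) (.e (nat_lit 516120) (nat_lit 1) (.e (nat_lit 164183) (nat_lit 154) (.e (nat_lit 57447) (nat_lit 19) (.e (nat_lit 393219) (nat_lit 0) .nil))))) .nil)) 
(.lf (nat_lit 200053) (.g (nat_lit 1502) (.e (nat_lit 73746) (nat_lit 3) (.e (nat_lit 516129) (nat_lit 3) (.e (nat_lit 221214) (nat_lit 23) (.e (nat_lit 204814) (nat_lit 17) .nil)))) .nil))))) (.nd (nat_lit 4) (.nd (nat_lit 5) (.nd (nat_lit 6) 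
(.lf (nat_lit 199949) (.g (nat_lit 2824) (.e (nat_lit 73746) (nat_lit 3) (.e (nat_lit 516117) (nat_lit 1) (.e (nat_lit 164182) (nat_lit 154) (.e (nat_lit 57379) (nat_lit 3) (.e (nat_lit 98341) (nat_lit 20) (.e (nat_lit 221211) (nat_lit 22) (.e (nat_lit 196670) (nat_lit 14) .nil))))))) (.g (nat_lit 4) .nil .nil))) 
(.lf (nat_lit 200013) (.g (nat_lit 1352) (.e (nat_lit 73746) (nat_lit 3) (.e (nat_lit 516129) (nat_lit 3) (.e (nat_lit 221207) (nat_lit 21) (.e (nat_lit 164243) (nat_lit 195) .nil)))) .nil))) (.nd (nat_lit 6) 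
(.lf (nat_lit 199981) (.g (nat_lit 3082) (.e (nat_lit 73746) (nat_lit 3) (.e (nat_lit 516120) (nat_lit 1) (.e (nat_lit 164182) (nat_lit 154) (.e (nat_lit 57379) (nat_lit 3) (.e (nat_lit 98342) (nat_lit 20) (.e (nat_lit 221211) (nat_lit 22) (.e (nat_lit 196670) (nat_lit 14) .nil))))))) (.g (nat_lit 4) .nil .nil))) 
(.lf (nat_lit 200045) (.g (nat_lit 2043) (.e (nat_lit 73746) (nat_lit 3) (.e (nat_lit 516129) (nat_lit 3) (.e (nat_lit 221210) (nat_lit 22) (.e (nat_lit 196650) (nat_lit 10) (.e (nat_lit 8261) (nat_lit 45) (.e (nat_lit 778318) (nat_lit 3) (.e (nat_lit 57454) (nat_lit 21) (.e (nat_lit 507648) (nat_lit 19) .nil)))))))) (.g (nat_lit 4) .nil .nil))))) (.nd (nat_lit 5) (.nd (nat_lit 6) 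
(.lf (nat_lit 199965) (.g (nat_lit 2483) (.e (nat_lit 73746) (nat_lit 3) (.e (nat_lit 516119) (nat_lit 1) (.e (nat_lit 164179) (nat_lit 154) (.e (nat_lit 57445) (nat_lit 19) (.e (nat_lit 393219) (nat_lit 0) .nil))))) .nil)) 
(.lf (nat_lit 200029) (.g (nat_lit 2405) (.e (nat_lit 73746) (nat_lit 3) (.e (nat_lit 516129) (nat_lit 3) (.e (nat_lit 221210) (nat_lit 22) (.e (nat_lit 196630) (nat_lit 9) (.e (nat_lit 1288) (nat_lit 95) (.e (nat_lit 123182) (nat_lit 264) (.e (nat_lit 1016) (nat_lit 81) (.e (nat_lit 1239) (nat_lit 91) (.e (nat_lit 98048) (nat_lit 5) .nil))))))))) (.g (nat_lit 4) .nil .nil)))) (.nd (nat_lit 6) 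
(.lf (nat_lit 199997) (.g (nat_lit 2456) (.e (nat_lit 73746) (nat_lit 3) (.e (nat_lit 516124) (nat_lit 2) (.e (nat_lit 220928) (nat_lit 3) (.e (nat_lit 57464) (nat_lit 23) (.e (nat_lit 516115) (nat_lit 1) (.e (nat_lit 164399) (nat_lit 256) (.e (nat_lit 57394) (nat_lit 7) (.e (nat_lit 139281) (nat_lit 5) .nil)))))))) (.g (nat_lit 6) .nil .nil))) 
(.lf (nat_lit 200061) (.g (nat_lit 2047) (.e (nat_lit 73746) (nat_lit 3) (.e (nat_lit 516129) (nat_lit 3) (.e (nat_lit 221214) (nat_lit 23) (.e (nat_lit 204829) (nat_lit 18) (.e (nat_lit 57927) (nat_lit 282) .nil))))) .nil))))))) (.nd (nat_lit 2) (.nd (nat_lit 3) (.nd (nat_lit 4) (.nd (nat_lit 5) (.nd (nat_lit 6) 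
(.lf (nat_lit 199939) (.g (nat_lit 4599) (.e (nat_lit 73746) (nat_lit 3) (.e (nat_lit 516115) (nat_lit 1) (.e (nat_lit 164183) (nat_lit 154) (.e (nat_lit 57378) (nat_lit 3) (.e (nat_lit 98342) (nat_lit 20) (.e (nat_lit 221212) (nat_lit 22) (.e (nat_lit 196670) (nat_lit 14) .nil))))))) (.g (nat_lit 0) .nil .nil))) 
(.lf (nat_lit 200003) (.g (nat_lit 2958) (.e (nat_lit 73746) (nat_lit 3) (.e (nat_lit 516129) (nat_lit 3) (.e (nat_lit 229120) (nat_lit 1) (.e (nat_lit 57849) (nat_lit 252) (.e (nat_lit 57388) (nat_lit 5) (.e (nat_lit 114712) (nat_lit 21) (.e (nat_lit 57830) (nat_lit 250) (.e (nat_lit 1214) (nat_lit 89) .nil)))))))) (.g (nat_lit 5) .nil .nil)))) (.nd (nat_lit 6) 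
(.lf (nat_lit 199971) (.g (nat_lit 721) (.e (nat_lit 73746) (nat_lit 3) (.e (nat_lit 516119) (nat_lit 1) (.e (nat_lit 164196) (nat_lit 158) .nil))) .nil)) 
(.lf (nat_lit 200035) (.g (nat_lit 3682) (.e (nat_lit 73746) (nat_lit 3) (.e (nat_lit 516129) (nat_lit 3) (.e (nat_lit 221210) (nat_lit 22) (.e (nat_lit 196648) (nat_lit 10) (.e (nat_lit 8262) (nat_lit 45) (.e (nat_lit 778318) (nat_lit 3) (.e (nat_lit 57454) (nat_lit 21) (.e (nat_lit 507648) (nat_lit 19) .nil)))))))) (.g (nat_lit 7) .nil .nil))))) (.nd (nat_lit 5) (.nd (nat_lit 6) 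
(.lf (nat_lit 199955) (.g (nat_lit 456) (.e (nat_lit 73746) (nat_lit 3) (.e (nat_lit 516117) (nat_lit 1) (.e (nat_lit 164226) (nat_lit 181) .nil))) .nil)) 
(.lf (nat_lit 200019) (.g (nat_lit 1974) (.e (nat_lit 73746) (nat_lit 3) (.e (nat_lit 516129) (nat_lit 3) (.e (nat_lit 221210) (nat_lit 22) (.e (nat_lit 196610) (nat_lit 0) (.e (nat_lit 2857) (nat_lit 184) (.e (nat_lit 426428) (nat_lit 17) (.e (nat_lit 98048) (nat_lit 5) .nil))))))) (.g (nat_lit 4) .nil .nil)))) (.nd (nat_lit 6) 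
(.lf (nat_lit 199987) (.g (nat_lit 2473) (.e (nat_lit 73746) (nat_lit 3) (.e (nat_lit 516120) (nat_lit 1) (.e (nat_lit 164183) (nat_lit 154) (.e (nat_lit 57411) (nat_lit 12) (.e (nat_lit 336446) (nat_lit 33) .nil))))) .nil)) 
(.lf (nat_lit 200051) (.g (nat_lit 1488) (.e (nat_lit 73746) (nat_lit 3) (.e (nat_lit 516129) (nat_lit 3) (.e (nat_lit 221210) (nat_lit 22) (.e (nat_lit 196651) (nat_lit 10) (.e (nat_lit 8282) (nat_lit 49) .nil))))) .nil))))) (.nd (nat_lit 4) (.nd (nat_lit 5) (.nd (nat_lit 6) 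
(.lf (nat_lit 199947) (.g (nat_lit 2926) (.e (nat_lit 73746) (nat_lit 3) (.e (nat_lit 516117) (nat_lit 1) (.e (nat_lit 164182) (nat_lit 154) (.e (nat_lit 57378) (nat_lit 3) (.e (nat_lit 98340) (nat_lit 20) (.e (nat_lit 221212) (nat_lit 22) (.e (nat_lit 196670) (nat_lit 14) .nil))))))) (.g (nat_lit 4) .nil .nil))) 
(.lf (nat_lit 200011) (.g (nat_lit 1919) (.e (nat_lit 73746) (nat_lit 3) (.e (nat_lit 516129) (nat_lit 3) (.e (nat_lit 221206) (nat_lit 21) (.e (nat_lit 164243) (nat_lit 195) (.e (nat_lit 2640) (nat_lit 165) (.e (nat_lit 180227) (nat_lit 0) (.e (nat_lit 6254) (nat_lit 337) (.e (nat_lit 7936) (nat_lit 89) .nil)))))))) (.g (nat_lit 4) .nil .nil)))) (.nd (nat_lit 6) 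
(.lf (nat_lit 199979) (.g (nat_lit 2701) (.e (nat_lit 73746) (nat_lit 3) (.e (nat_lit 516120) (nat_lit 1) (.e (nat_lit 164182) (nat_lit 154) (.e (nat_lit 57379) (nat_lit 3) (.e (nat_lit 98340) (nat_lit 20) .nil))))) .nil)) 
(.lf (nat_lit 200043) (.g (nat_lit 1350) (.e (nat_lit 73746) (nat_lit 3) (.e (nat_lit 516129) (nat_lit 3) (.e (nat_lit 221210) (nat_lit 22) (.e (nat_lit 196650) (nat_lit 10) .nil)))) .nil)))) (.nd (nat_lit 5) (.nd (nat_lit 6) 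
(.lf (nat_lit 199963) (.g (nat_lit 2290) (.e (nat_lit 73746) (nat_lit 3) (.e (nat_lit 516119) (nat_lit 1) (.e (nat_lit 164179) (nat_lit 154) (.e (nat_lit 57347) (nat_lit 0) (.e (nat_lit 1781) (nat_lit 119) .nil))))) .nil)) 
(.lf (nat_lit 200027) (.g (nat_lit 2257) (.e (nat_lit 73746) (nat_lit 3) (.e (nat_lit 516129) (nat_lit 3) (.e (nat_lit 221210) (nat_lit 22) (.e (nat_lit 196630) (nat_lit 9) (.e (nat_lit 1288) (nat_lit 95) .nil))))) .nil))) (.nd (nat_lit 6) 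
(.lf (nat_lit 199995) (.g (nat_lit 3359) (.e (nat_lit 73746) (nat_lit 3) (.e (nat_lit 516124) (nat_lit 2) (.e (nat_lit 220928) (nat_lit 3) (.e (nat_lit 57464) (nat_lit 23) (.e (nat_lit 516115) (nat_lit 1) (.e (nat_lit 164399) (nat_lit 256) (.e (nat_lit 57370) (nat_lit 2) (.e (nat_lit 98048) (nat_lit 5) .nil)))))))) (.g (nat_lit 7) .nil .nil))) 
(.lf (nat_lit 200059) (.g (nat_lit 1295) (.e (nat_lit 73746) (nat_lit 3) (.e (nat_lit 516129) (nat_lit 3) (.e (nat_lit 221214) (nat_lit 23) (.e (nat_lit 204829) (nat_lit 18) .nil)))) .nil)))))) (.nd (nat_lit 3) (.nd (nat_lit 4) (.nd (nat_lit 5) (.nd (nat_lit 6) 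
(.lf (nat_lit 199943) (.g (nat_lit 2425) (.e (nat_lit 73746) (nat_lit 3) (.e (nat_lit 516116) (nat_lit 1) (.e (nat_lit 164182) (nat_lit 154) (.e (nat_lit 57378) (nat_lit 3) (.e (nat_lit 98342) (nat_lit 20) .nil))))) .nil)) 
(.lf (nat_lit 200007) (.g (nat_lit 538) (.e (nat_lit 73746) (nat_lit 3) (.e (nat_lit 516129) (nat_lit 3) (.e (nat_lit 221203) (nat_lit 20) .nil))) .nil))) (.nd (nat_lit 6) 
(.lf (nat_lit 199975) (.g (nat_lit 978) (.e (nat_lit 73746) (nat_lit 3) (.e (nat_lit 516120) (nat_lit 1) (.e (nat_lit 164161) (nat_lit 152) .nil))) .nil)) 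
(.lf (nat_lit 200039) (.g (nat_lit 2505) (.e (nat_lit 73746) (nat_lit 3) (.e (nat_lit 516129) (nat_lit 3) (.e (nat_lit 221210) (nat_lit 22) (.e (nat_lit 196649) (nat_lit 10) (.e (nat_lit 8262) (nat_lit 45) (.e (nat_lit 778318) (nat_lit 3) (.e (nat_lit 57454) (nat_lit 21) (.e (nat_lit 507648) (nat_lit 19) .nil)))))))) (.g (nat_lit 5) .nil .nil))))) (.nd (nat_lit 5) (.nd (nat_lit 6) 
(.lf (nat_lit 199959) (.g (nat_lit 2503) (.e (nat_lit 73746) (nat_lit 3) (.e (nat_lit 516118) (nat_lit 1) (.e (nat_lit 164179) (nat_lit 154) (.e (nat_lit 57378) (nat_lit 3) (.e (nat_lit 98340) (nat_lit 20) .nil))))) .nil)) 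
(.lf (nat_lit 200023) (.g (nat_lit 1171) (.e (nat_lit 73746) (nat_lit 3) (.e (nat_lit 516129) (nat_lit 3) (.e (nat_lit 221210) (nat_lit 22) (.e (nat_lit 204544) (nat_lit 0) .nil)))) .nil))) (.nd (nat_lit 6) 
(.lf (nat_lit 199991) (.g (nat_lit 2944) (.e (nat_lit 73746) (nat_lit 3) (.e (nat_lit 516120) (nat_lit 1) (.e (nat_lit 164183) (nat_lit 154) (.e (nat_lit 57448) (nat_lit 19) (.e (nat_lit 393221) (nat_lit 0) (.e (nat_lit 7936) (nat_lit 348) .nil)))))) (.g (nat_lit 5) .nil .nil))) 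
(.lf (nat_lit 200055) (.g (nat_lit 2554) (.e (nat_lit 73746) (nat_lit 3) (.e (nat_lit 516129) (nat_lit 3) (.e (nat_lit 221214) (nat_lit 23) (.e (nat_lit 204819) (nat_lit 17) (.e (nat_lit 1994) (nat_lit 137) (.e (nat_lit 663554) (nat_lit 0) (.e (nat_lit 1303) (nat_lit 97) (.e (nat_lit 139281) (nat_lit 5) .nil)))))))) (.g (nat_lit 4) .nil .nil)))))) 
(.nd (nat_lit 4) (.nd (nat_lit 5) (.nd (nat_lit 6) 
(.lf (nat_lit 199951) (.g (nat_lit 2109) (.e (nat_lit 73746) (nat_lit 3) (.e (nat_lit 516117) (nat_lit 1) (.e (nat_lit 164182) (nat_lit 154) (.e (nat_lit 57448) (nat_lit 19) (.e (nat_lit 393221) (nat_lit 0) (.e (nat_lit 7936) (nat_lit 348) .nil)))))) (.g (nat_lit 4) .nil .nil))) 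
(.lf (nat_lit 200015) (.g (nat_lit 1338) (.e (nat_lit 73746) (nat_lit 3) (.e (nat_lit 516129) (nat_lit 3) (.e (nat_lit 221210) (nat_lit 22) (.e (nat_lit 196609) (nat_lit 0) .nil)))) .nil))) (.nd (nat_lit 6) 
(.lf (nat_lit 199983) (.g (nat_lit 2975) (.e (nat_lit 73746) (nat_lit 3) (.e (nat_lit 516120) (nat_lit 1) (.e (nat_lit 164182) (nat_lit 154) (.e (nat_lit 57447) (nat_lit 19) (.e (nat_lit 393221) (nat_lit 0) .nil))))) .nil)) 
(.lf (nat_lit 200047) (.g (nat_lit 1349) (.e (nat_lit 73746) (nat_lit 3) (.e (nat_lit 516129) (nat_lit 3) (.e (nat_lit 221210) (nat_lit 22) (.e (nat_lit 196651) (nat_lit 10) .nil)))) .nil)))) (.nd (nat_lit 5) (.nd (nat_lit 6) 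
(.lf (nat_lit 199967) (.g (nat_lit 1464) (.e (nat_lit 73746) (nat_lit 3) (.e (nat_lit 516119) (nat_lit 1) (.e (nat_lit 164179) (nat_lit 154) (.e (nat_lit 57448) (nat_lit 19) .nil)))) .nil)) 
(.lf (nat_lit 200031) (.g (nat_lit 2313) (.e (nat_lit 73746) (nat_lit 3) (.e (nat_lit 516129) (nat_lit 3) (.e (nat_lit 221210) (nat_lit 22) (.e (nat_lit 196630) (nat_lit 9) (.e (nat_lit 1288) (nat_lit 95) (.e (nat_lit 123197) (nat_lit 266) (.e (nat_lit 57371) (nat_lit 2) (.e (nat_lit 98048) (nat_lit 5) .nil)))))))) (.g (nat_lit 4) .nil .nil)))) (.nd (nat_lit 6) 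
(.lf (nat_lit 199999) (.g (nat_lit 2453) (.e (nat_lit 73746) (nat_lit 3) (.e (nat_lit 516124) (nat_lit 2) (.e (nat_lit 220928) (nat_lit 3) (.e (nat_lit 57464) (nat_lit 23) (.e (nat_lit 516116) (nat_lit 1) (.e (nat_lit 164399) (nat_lit 256) (.e (nat_lit 57373) (nat_lit 2) (.e (nat_lit 98048) (nat_lit 5) .nil)))))))) (.g (nat_lit 6) .nil .nil))) 
(.lf (nat_lit 200063) (.g (nat_lit 1281) (.e (nat_lit 73746) (nat_lit 3) (.e (nat_lit 516129) (nat_lit 3) (.e (nat_lit 221214) (nat_lit 23) (.e (nat_lit 204830) (nat_lit 18) .nil)))) .nil)))))))))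

noncomputable def tv2643 : DT := (.nd (nat_lit 0) (.nd (nat_lit 1) (.nd (nat_lit 2) (.nd (nat_lit 3) (.nd (nat_lit 4) (.nd (nat_lit 5) 
(.lf (nat_lit 200064) (.g (nat_lit 2235) (.e (nat_lit 73746) (nat_lit 3) (.e (nat_lit 516129) (nat_lit 3) (.e (nat_lit 221214) (nat_lit 23) (.e (nat_lit 204830) (nat_lit 18) (.e (nat_lit 57929) (nat_lit 282) .nil))))) .nil)) 
(.lf (nat_lit 200096) (.g (nat_lit 2613) (.e (nat_lit 73746) (nat_lit 3) (.e (nat_lit 516131) (nat_lit 3) (.e (nat_lit 221212) (nat_lit 22) (.e (nat_lit 196650) (nat_lit 10) (.e (nat_lit 8262) (nat_lit 45) (.e (nat_lit 778246) (nat_lit 0) (.e (nat_lit 1239) (nat_lit 91) (.e (nat_lit 98048) (nat_lit 5) .nil)))))))) (.g (nat_lit 7) .nil .nil)))) (.nd (nat_lit 5) 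
(.lf (nat_lit 200080) (.g (nat_lit 2063) (.e (nat_lit 73746) (nat_lit 3) (.e (nat_lit 516131) (nat_lit 3) (.e (nat_lit 221212) (nat_lit 22) (.e (nat_lit 196610) (nat_lit 0) (.e (nat_lit 2856) (nat_lit 184) (.e (nat_lit 426427) (nat_lit 17) (.e (nat_lit 98048) (nat_lit 5) .nil))))))) (.g (nat_lit 5) .nil .nil))) 
(.lf (nat_lit 200112) (.g (nat_lit 2109) (.e (nat_lit 73746) (nat_lit 3) (.e (nat_lit 516131) (nat_lit 3) (.e (nat_lit 221215) (nat_lit 23) (.e (nat_lit 204829) (nat_lit 18) (.e (nat_lit 57924) (nat_lit 282) .nil))))) .nil)))) (.nd (nat_lit 4) (.nd (nat_lit 5) 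
(.lf (nat_lit 200072) (.g (nat_lit 2613) (.e (nat_lit 73746) (nat_lit 3) (.e (nat_lit 516129) (nat_lit 3) (.e (nat_lit 221215) (nat_lit 23) (.e (nat_lit 204830) (nat_lit 18) (.e (nat_lit 57930) (nat_lit 282) .nil))))) .nil)) 
(.lf (nat_lit 200104) (.g (nat_lit 1201) (.e (nat_lit 73746) (nat_lit 3) (.e (nat_lit 516131) (nat_lit 3) (.e (nat_lit 221215) (nat_lit 23) (.e (nat_lit 212736) (nat_lit 6) .nil)))) .nil))) (.nd (nat_lit 5) 
(.lf (nat_lit 200088) (.g (nat_lit 1427) (.e (nat_lit 73746) (nat_lit 3) (.e (nat_lit 516131) (nat_lit 3) (.e (nat_lit 221212) (nat_lit 22) (.e (nat_lit 196647) (nat_lit 10) .nil)))) .nil)) 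
(.lf (nat_lit 200120) (.g (nat_lit 1329) (.e (nat_lit 73746) (nat_lit 3) (.e (nat_lit 516139) (nat_lit 7) (.e (nat_lit 409616) (nat_lit 10) (.e (nat_lit 5355) (nat_lit 298) .nil)))) .nil))))) (.nd (nat_lit 3) (.nd (nat_lit 4) (.nd (nat_lit 5) 
(.lf (nat_lit 200068) (.g (nat_lit 2754) (.e (nat_lit 73746) (nat_lit 3) (.e (nat_lit 516129) (nat_lit 3) (.e (nat_lit 221215) (nat_lit 23) (.e (nat_lit 204819) (nat_lit 17) (.e (nat_lit 1994) (nat_lit 137) (.e (nat_lit 663554) (nat_lit 0) (.e (nat_lit 1303) (nat_lit 97) (.e (nat_lit 139281) (nat_lit 5) .nil)))))))) (.g (nat_lit 4) .nil .nil))) 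
(.lf (nat_lit 200100) (.g (nat_lit 2501) (.e (nat_lit 73746) (nat_lit 3) (.e (nat_lit 516131) (nat_lit 3) (.e (nat_lit 221214) (nat_lit 23) (.e (nat_lit 204819) (nat_lit 17) (.e (nat_lit 1994) (nat_lit 137) (.e (nat_lit 663554) (nat_lit 0) (.e (nat_lit 1304) (nat_lit 97) (.e (nat_lit 139281) (nat_lit 5) .nil)))))))) (.g (nat_lit 4) .nil .nil)))) (.nd (nat_lit 5) 
(.lf (nat_lit 200084) (.g (nat_lit 2034) (.e (nat_lit 73746) (nat_lit 3) (.e (nat_lit 516131) (nat_lit 3) (.e (nat_lit 221212) (nat_lit 22) (.e (nat_lit 196624) (nat_lit 9) (.e (nat_lit 183) (nat_lit 13) (.e (nat_lit 220928) (nat_lit 0) (.e (nat_lit 1239) (nat_lit 91) (.e (nat_lit 98048) (nat_lit 5) .nil)))))))) (.g (nat_lit 4) .nil .nil))) 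
(.lf (nat_lit 200116) (.g (nat_lit 2650) (.e (nat_lit 73746) (nat_lit 3) (.e (nat_lit 516138) (nat_lit 7) (.e (nat_lit 409645) (nat_lit 18) (.e (nat_lit 303119) (nat_lit 3) (.e (nat_lit 204821) (nat_lit 17) (.e (nat_lit 7936) (nat_lit 348) .nil)))))) (.g (nat_lit 4) .nil .nil))))) (.nd (nat_lit 4) (.nd (nat_lit 5) 
(.lf (nat_lit 200076) (.g (nat_lit 2160) (.e (nat_lit 73746) (nat_lit 3) (.e (nat_lit 516131) (nat_lit 3) (.e (nat_lit 229120) (nat_lit 1) (.e (nat_lit 57849) (nat_lit 252) (.e (nat_lit 57390) (nat_lit 5) (.e (nat_lit 114712) (nat_lit 21) (.e (nat_lit 57830) (nat_lit 250) (.e (nat_lit 1214) (nat_lit 89) .nil)))))))) (.g (nat_lit 4) .nil .nil))) 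
(.lf (nat_lit 200108) (.g (nat_lit 2035) (.e (nat_lit 73746) (nat_lit 3) (.e (nat_lit 516131) (nat_lit 3) (.e (nat_lit 221215) (nat_lit 23) (.e (nat_lit 204819) (nat_lit 17) (.e (nat_lit 1994) (nat_lit 137) (.e (nat_lit 663554) (nat_lit 0) (.e (nat_lit 1239) (nat_lit 91) (.e (nat_lit 98048) (nat_lit 5) .nil)))))))) (.g (nat_lit 4) .nil .nil)))) (.nd (nat_lit 5) 
(.lf (nat_lit 200092) (.g (nat_lit 2442) (.e (nat_lit 73746) (nat_lit 3) (.e (nat_lit 516131) (nat_lit 3) (.e (nat_lit 221212) (nat_lit 22) (.e (nat_lit 196649) (nat_lit 10) (.e (nat_lit 8261) (nat_lit 45) (.e (nat_lit 778246) (nat_lit 0) (.e (nat_lit 1239) (nat_lit 91) (.e (nat_lit 98048) (nat_lit 5) .nil)))))))) (.g (nat_lit 4) .nil .nil))) 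
(.lf (nat_lit 200124) (.g (nat_lit 2132) (.e (nat_lit 73746) (nat_lit 3) (.e (nat_lit 516139) (nat_lit 7) (.e (nat_lit 409617) (nat_lit 10) (.e (nat_lit 5355) (nat_lit 298) (.e (nat_lit 1234) (nat_lit 91) .nil))))) .nil)))))) (.nd (nat_lit 2) (.nd (nat_lit 3) (.nd (nat_lit 4) (.nd (nat_lit 5) 
(.lf (nat_lit 200066) (.g (nat_lit 1490) (.e (nat_lit 73746) (nat_lit 3) (.e (nat_lit 516129) (nat_lit 3) (.e (nat_lit 221214) (nat_lit 23) (.e (nat_lit 204839) (nat_lit 21) .nil)))) .nil)) 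
(.lf (nat_lit 200098) (.g (nat_lit 1892) (.e (nat_lit 73746) (nat_lit 3) (.e (nat_lit 516131) (nat_lit 3) (.e (nat_lit 221212) (nat_lit 22) (.e (nat_lit 196650) (nat_lit 10) (.e (nat_lit 8268) (nat_lit 45) (.e (nat_lit 786176) (nat_lit 0) (.e (nat_lit 1239) (nat_lit 91) (.e (nat_lit 98048) (nat_lit 5) .nil)))))))) (.g (nat_lit 5) .nil .nil)))) (.nd (nat_lit 5) 
(.lf (nat_lit 200082) (.g (nat_lit 1981) (.e (nat_lit 73746) (nat_lit 3) (.e (nat_lit 516131) (nat_lit 3) (.e (nat_lit 221212) (nat_lit 22) (.e (nat_lit 196617) (nat_lit 9) (.e (nat_lit 212) (nat_lit 18) (.e (nat_lit 270080) (nat_lit 0) (.e (nat_lit 1239) (nat_lit 91) (.e (nat_lit 98048) (nat_lit 5) .nil)))))))) (.g (nat_lit 5) .nil .nil))) 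
(.lf (nat_lit 200114) (.g (nat_lit 730) (.e (nat_lit 73746) (nat_lit 3) (.e (nat_lit 516138) (nat_lit 7) (.e (nat_lit 409645) (nat_lit 18) .nil))) .nil)))) (.nd (nat_lit 4) (.nd (nat_lit 5) 
(.lf (nat_lit 200074) (.g (nat_lit 2426) (.e (nat_lit 73746) (nat_lit 3) (.e (nat_lit 516129) (nat_lit 3) (.e (nat_lit 221215) (nat_lit 23) (.e (nat_lit 204839) (nat_lit 21) (.e (nat_lit 123185) (nat_lit 264) (.e (nat_lit 999) (nat_lit 81) (.e (nat_lit 1239) (nat_lit 91) (.e (nat_lit 98048) (nat_lit 5) .nil)))))))) (.g (nat_lit 4) .nil .nil))) 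
(.lf (nat_lit 200106) (.g (nat_lit 2922) (.e (nat_lit 73746) (nat_lit 3) (.e (nat_lit 516131) (nat_lit 3) (.e (nat_lit 221215) (nat_lit 23) (.e (nat_lit 204814) (nat_lit 17) (.e (nat_lit 1996) (nat_lit 137) (.e (nat_lit 663554) (nat_lit 0) (.e (nat_lit 1304) (nat_lit 97) (.e (nat_lit 139281) (nat_lit 5) .nil)))))))) (.g (nat_lit 6) .nil .nil)))) (.nd (nat_lit 5) 
(.lf (nat_lit 200090) (.g (nat_lit 3634) (.e (nat_lit 73746) (nat_lit 3) (.e (nat_lit 516131) (nat_lit 3) (.e (nat_lit 221212) (nat_lit 22) (.e (nat_lit 196648) (nat_lit 10) (.e (nat_lit 8262) (nat_lit 45) (.e (nat_lit 778318) (nat_lit 3) (.e (nat_lit 57454) (nat_lit 21) (.e (nat_lit 507648) (nat_lit 19) .nil)))))))) (.g (nat_lit 7) .nil .nil))) 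
(.lf (nat_lit 200122) (.g (nat_lit 3634) (.e (nat_lit 73746) (nat_lit 3) (.e (nat_lit 516139) (nat_lit 7) (.e (nat_lit 409616) (nat_lit 10) (.e (nat_lit 5355) (nat_lit 298) (.e (nat_lit 1235) (nat_lit 91) (.e (nat_lit 90165) (nat_lit 12) (.e (nat_lit 171776) (nat_lit 192) .nil))))))) (.g (nat_lit 6) .nil .nil)))))) (.nd (nat_lit 3) (.nd (nat_lit 4) (.nd (nat_lit 5) 
(.lf (nat_lit 200070) (.g (nat_lit 2635) (.e (nat_lit 73746) (nat_lit 3) (.e (nat_lit 516129) (nat_lit 3) (.e (nat_lit 221215) (nat_lit 23) (.e (nat_lit 204819) (nat_lit 17) (.e (nat_lit 1996) (nat_lit 137) (.e (nat_lit 663554) (nat_lit 0) (.e (nat_lit 1303) (nat_lit 97) (.e (nat_lit 139281) (nat_lit 5) .nil)))))))) (.g (nat_lit 4) .nil .nil))) 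
(.lf (nat_lit 200102) (.g (nat_lit 2551) (.e (nat_lit 73746) (nat_lit 3) (.e (nat_lit 516131) (nat_lit 3) (.e (nat_lit 221215) (nat_lit 23) (.e (nat_lit 204803) (nat_lit 0) (.e (nat_lit 3632) (nat_lit 227) (.e (nat_lit 778246) (nat_lit 0) (.e (nat_lit 1239) (nat_lit 91) (.e (nat_lit 98048) (nat_lit 5) .nil)))))))) (.g (nat_lit 4) .nil .nil)))) (.nd (nat_lit 5) 
(.lf (nat_lit 200086) (.g (nat_lit 1669) (.e (nat_lit 73746) (nat_lit 3) (.e (nat_lit 516131) (nat_lit 3) (.e (nat_lit 221212) (nat_lit 22) (.e (nat_lit 196626) (nat_lit 9) (.e (nat_lit 1183) (nat_lit 87) (.e (nat_lit 57871) (nat_lit 264) (.e (nat_lit 1086) (nat_lit 81) (.e (nat_lit 1234) (nat_lit 91) (.e (nat_lit 98048) (nat_lit 5) .nil))))))))) (.g (nat_lit 4) .nil .nil))) 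
(.lf (nat_lit 200118) (.g (nat_lit 2673) (.e (nat_lit 73746) (nat_lit 3) (.e (nat_lit 516138) (nat_lit 7) (.e (nat_lit 409646) (nat_lit 18) (.e (nat_lit 303119) (nat_lit 3) (.e (nat_lit 204821) (nat_lit 17) .nil))))) .nil)))) (.nd (nat_lit 4) (.nd (nat_lit 5) 
(.lf (nat_lit 200078) (.g (nat_lit 1460) (.e (nat_lit 73746) (nat_lit 3) (.e (nat_lit 516131) (nat_lit 3) (.e (nat_lit 221211) (nat_lit 22) (.e (nat_lit 196630) (nat_lit 9) (.e (nat_lit 1288) (nat_lit 95) .nil))))) .nil)) 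
(.lf (nat_lit 200110) (.g (nat_lit 1689) (.e (nat_lit 73746) (nat_lit 3) (.e (nat_lit 516131) (nat_lit 3) (.e (nat_lit 221215) (nat_lit 23) (.e (nat_lit 204819) (nat_lit 17) (.e (nat_lit 1998) (nat_lit 137) .nil))))) .nil))) (.nd (nat_lit 5) 
(.lf (nat_lit 200094) (.g (nat_lit 2409) (.e (nat_lit 73746) (nat_lit 3) (.e (nat_lit 516131) (nat_lit 3) (.e (nat_lit 221212) (nat_lit 22) (.e (nat_lit 196649) (nat_lit 10) (.e (nat_lit 8272) (nat_lit 46) (.e (nat_lit 786455) (nat_lit 17) (.e (nat_lit 98048) (nat_lit 5) .nil))))))) (.g (nat_lit 4) .nil .nil))) 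
(.lf (nat_lit 200126) (.g (nat_lit 3803) (.e (nat_lit 73746) (nat_lit 3) (.e (nat_lit 516139) (nat_lit 7) (.e (nat_lit 409617) (nat_lit 10) (.e (nat_lit 5355) (nat_lit 298) (.e (nat_lit 1235) (nat_lit 91) (.e (nat_lit 90165) (nat_lit 12) (.e (nat_lit 171776) (nat_lit 192) .nil))))))) (.g (nat_lit 6) .nil .nil)))))))) 
(.nd (nat_lit 1) (.nd (nat_lit 2) (.nd (nat_lit 3) (.nd (nat_lit 4) (.nd (nat_lit 5) 
(.lf (nat_lit 200065) (.g (nat_lit 2819) (.e (nat_lit 73746) (nat_lit 3) (.e (nat_lit 516129) (nat_lit 3) (.e (nat_lit 221214) (nat_lit 23) (.e (nat_lit 204830) (nat_lit 18) (.e (nat_lit 57930) (nat_lit 282) .nil))))) .nil)) 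
(.lf (nat_lit 200097) (.g (nat_lit 3412) (.e (nat_lit 73746) (nat_lit 3) (.e (nat_lit 516131) (nat_lit 3) (.e (nat_lit 221212) (nat_lit 22) (.e (nat_lit 196650) (nat_lit 10) (.e (nat_lit 8262) (nat_lit 45) (.e (nat_lit 778318) (nat_lit 3) (.e (nat_lit 57454) (nat_lit 21) (.e (nat_lit 507648) (nat_lit 19) .nil)))))))) (.g (nat_lit 7) .nil .nil)))) (.nd (nat_lit 5) 
(.lf (nat_lit 200081) (.g (nat_lit 1921) (.e (nat_lit 73746) (nat_lit 3) (.e (nat_lit 516131) (nat_lit 3) (.e (nat_lit 221212) (nat_lit 22) (.e (nat_lit 196610) (nat_lit 0) (.e (nat_lit 3065) (nat_lit 190) (.e (nat_lit 475169) (nat_lit 22) (.e (nat_lit 507648) (nat_lit 19) .nil))))))) (.g (nat_lit 5) .nil .nil))) 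
(.lf (nat_lit 200113) (.g (nat_lit 2971) (.e (nat_lit 73746) (nat_lit 3) (.e (nat_lit 516131) (nat_lit 3) (.e (nat_lit 221215) (nat_lit 23) (.e (nat_lit 204839) (nat_lit 21) (.e (nat_lit 123198) (nat_lit 266) (.e (nat_lit 57373) (nat_lit 2) (.e (nat_lit 98048) (nat_lit 5) .nil))))))) (.g (nat_lit 6) .nil .nil))))) (.nd (nat_lit 4) (.nd (nat_lit 5) 
(.lf (nat_lit 200073) (.g (nat_lit 2460) (.e (nat_lit 73746) (nat_lit 3) (.e (nat_lit 516129) (nat_lit 3) (.e (nat_lit 221215) (nat_lit 23) (.e (nat_lit 204831) (nat_lit 18) (.e (nat_lit 57930) (nat_lit 282) .nil))))) .nil)) 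
(.lf (nat_lit 200105) (.g (nat_lit 1495) (.e (nat_lit 73746) (nat_lit 3) (.e (nat_lit 516131) (nat_lit 3) (.e (nat_lit 221215) (nat_lit 23) (.e (nat_lit 204814) (nat_lit 17) .nil)))) .nil))) (.nd (nat_lit 5) 
(.lf (nat_lit 200089) (.g (nat_lit 2816) (.e (nat_lit 73746) (nat_lit 3) (.e (nat_lit 516131) (nat_lit 3) (.e (nat_lit 221212) (nat_lit 22) (.e (nat_lit 196648) (nat_lit 10) (.e (nat_lit 8262) (nat_lit 45) (.e (nat_lit 778246) (nat_lit 0) (.e (nat_lit 1239) (nat_lit 91) (.e (nat_lit 98048) (nat_lit 5) .nil)))))))) (.g (nat_lit 7) .nil .nil))) 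
(.lf (nat_lit 200121) (.g (nat_lit 2344) (.e (nat_lit 73746) (nat_lit 3) (.e (nat_lit 516139) (nat_lit 7) (.e (nat_lit 409616) (nat_lit 10) (.e (nat_lit 5355) (nat_lit 298) (.e (nat_lit 1234) (nat_lit 91) (.e (nat_lit 90165) (nat_lit 12) (.e (nat_lit 171776) (nat_lit 192) .nil))))))) (.g (nat_lit 4) .nil .nil)))))) (.nd (nat_lit 3) (.nd (nat_lit 4) (.nd (nat_lit 5) 
(.lf (nat_lit 200069) (.g (nat_lit 2888) (.e (nat_lit 73746) (nat_lit 3) (.e (nat_lit 516129) (nat_lit 3) (.e (nat_lit 221215) (nat_lit 23) (.e (nat_lit 204819) (nat_lit 17) (.e (nat_lit 1994) (nat_lit 137) (.e (nat_lit 663559) (nat_lit 0) (.e (nat_lit 1234) (nat_lit 91) (.e (nat_lit 98048) (nat_lit 5) .nil)))))))) (.g (nat_lit 5) .nil .nil))) 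
(.lf (nat_lit 200101) (.g (nat_lit 1669) (.e (nat_lit 73746) (nat_lit 3) (.e (nat_lit 516131) (nat_lit 3) (.e (nat_lit 221215) (nat_lit 23) (.e (nat_lit 204801) (nat_lit 0) .nil)))) .nil))) (.nd (nat_lit 5) 
(.lf (nat_lit 200085) (.g (nat_lit 1740) (.e (nat_lit 73746) (nat_lit 3) (.e (nat_lit 516131) (nat_lit 3) (.e (nat_lit 221212) (nat_lit 22) (.e (nat_lit 196625) (nat_lit 9) (.e (nat_lit 208) (nat_lit 18) (.e (nat_lit 270080) (nat_lit 0) (.e (nat_lit 1239) (nat_lit 91) (.e (nat_lit 98048) (nat_lit 5) .nil)))))))) (.g (nat_lit 5) .nil .nil))) 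
(.lf (nat_lit 200117) (.g (nat_lit 2568) (.e (nat_lit 73746) (nat_lit 3) (.e (nat_lit 516138) (nat_lit 7) (.e (nat_lit 409646) (nat_lit 18) (.e (nat_lit 303119) (nat_lit 3) (.e (nat_lit 204819) (nat_lit 17) .nil))))) .nil)))) (.nd (nat_lit 4) (.nd (nat_lit 5) 
(.lf (nat_lit 200077) (.g (nat_lit 1300) (.e (nat_lit 73746) (nat_lit 3) (.e (nat_lit 516131) (nat_lit 3) (.e (nat_lit 221198) (nat_lit 20) (.e (nat_lit 3114) (nat_lit 193) (.e (nat_lit 499921) (nat_lit 9) (.e (nat_lit 179968) (nat_lit 17) (.e (nat_lit 98048) (nat_lit 5) .nil))))))) (.g (nat_lit 5) .nil .nil))) 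
(.lf (nat_lit 200109) (.g (nat_lit 2426) (.e (nat_lit 73746) (nat_lit 3) (.e (nat_lit 516131) (nat_lit 3) (.e (nat_lit 221215) (nat_lit 23) (.e (nat_lit 204819) (nat_lit 17) (.e (nat_lit 1996) (nat_lit 137) (.e (nat_lit 663554) (nat_lit 0) (.e (nat_lit 1303) (nat_lit 97) (.e (nat_lit 139281) (nat_lit 5) .nil)))))))) (.g (nat_lit 4) .nil .nil)))) (.nd (nat_lit 5) 
(.lf (nat_lit 200093) (.g (nat_lit 2415) (.e (nat_lit 73746) (nat_lit 3) (.e (nat_lit 516131) (nat_lit 3) (.e (nat_lit 221212) (nat_lit 22) (.e (nat_lit 196649) (nat_lit 10) (.e (nat_lit 8262) (nat_lit 45) (.e (nat_lit 778318) (nat_lit 3) (.e (nat_lit 57454) (nat_lit 21) (.e (nat_lit 507648) (nat_lit 19) .nil)))))))) (.g (nat_lit 4) .nil .nil))) 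
(.lf (nat_lit 200125) (.g (nat_lit 2476) (.e (nat_lit 73746) (nat_lit 3) (.e (nat_lit 516139) (nat_lit 7) (.e (nat_lit 409617) (nat_lit 10) (.e (nat_lit 5355) (nat_lit 298) (.e (nat_lit 1234) (nat_lit 91) (.e (nat_lit 90165) (nat_lit 12) (.e (nat_lit 171776) (nat_lit 192) .nil))))))) (.g (nat_lit 4) .nil .nil))))))) (.nd (nat_lit 2) (.nd (nat_lit 3) (.nd (nat_lit 4) (.nd (nat_lit 5) 
(.lf (nat_lit 200067) (.g (nat_lit 1502) (.e (nat_lit 73746) (nat_lit 3) (.e (nat_lit 516129) (nat_lit 3) (.e (nat_lit 221214) (nat_lit 23) (.e (nat_lit 204840) (nat_lit 21) .nil)))) .nil)) 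
(.lf (nat_lit 200099) (.g (nat_lit 3475) (.e (nat_lit 73746) (nat_lit 3) (.e (nat_lit 516131) (nat_lit 3) (.e (nat_lit 221212) (nat_lit 22) (.e (nat_lit 196651) (nat_lit 10) (.e (nat_lit 8261) (nat_lit 45) (.e (nat_lit 778318) (nat_lit 3) (.e (nat_lit 57454) (nat_lit 21) (.e (nat_lit 507648) (nat_lit 19) .nil)))))))) (.g (nat_lit 7) .nil .nil)))) (.nd (nat_lit 5) 
(.lf (nat_lit 200083) (.g (nat_lit 1427) (.e (nat_lit 73746) (nat_lit 3) (.e (nat_lit 516131) (nat_lit 3) (.e (nat_lit 221212) (nat_lit 22) (.e (nat_lit 196618) (nat_lit 9) .nil)))) .nil)) 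
(.lf (nat_lit 200115) (.g (nat_lit 2782) (.e (nat_lit 73746) (nat_lit 3) (.e (nat_lit 516138) (nat_lit 7) (.e (nat_lit 409645) (nat_lit 18) (.e (nat_lit 303119) (nat_lit 3) (.e (nat_lit 204819) (nat_lit 17) .nil))))) .nil)))) (.nd (nat_lit 4) (.nd (nat_lit 5) 
(.lf (nat_lit 200075) (.g (nat_lit 1699) (.e (nat_lit 73746) (nat_lit 3) (.e (nat_lit 516129) (nat_lit 3) (.e (nat_lit 221215) (nat_lit 23) (.e (nat_lit 204840) (nat_lit 21) .nil)))) .nil)) 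
(.lf (nat_lit 200107) (.g (nat_lit 2371) (.e (nat_lit 73746) (nat_lit 3) (.e (nat_lit 516131) (nat_lit 3) (.e (nat_lit 221215) (nat_lit 23) (.e (nat_lit 204817) (nat_lit 17) (.e (nat_lit 1030) (nat_lit 81) .nil))))) .nil))) (.nd (nat_lit 5) 
(.lf (nat_lit 200091) (.g (nat_lit 1300) (.e (nat_lit 73746) (nat_lit 3) (.e (nat_lit 516131) (nat_lit 3) (.e (nat_lit 221212) (nat_lit 22) (.e (nat_lit 196649) (nat_lit 10) .nil)))) .nil)) 
(.lf (nat_lit 200123) (.g (nat_lit 1332) (.e (nat_lit 73746) (nat_lit 3) (.e (nat_lit 516139) (nat_lit 7) (.e (nat_lit 409617) (nat_lit 10) (.e (nat_lit 5355) (nat_lit 298) .nil)))) .nil))))) (.nd (nat_lit 3) (.nd (nat_lit 4) (.nd (nat_lit 5) 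
(.lf (nat_lit 200071) (.g (nat_lit 3804) (.e (nat_lit 73746) (nat_lit 3) (.e (nat_lit 516129) (nat_lit 3) (.e (nat_lit 221215) (nat_lit 23) (.e (nat_lit 204819) (nat_lit 17) (.e (nat_lit 1996) (nat_lit 137) (.e (nat_lit 663554) (nat_lit 0) (.e (nat_lit 1304) (nat_lit 97) (.e (nat_lit 139281) (nat_lit 5) .nil)))))))) (.g (nat_lit 7) .nil .nil))) 
(.lf (nat_lit 200103) (.g (nat_lit 1708) (.e (nat_lit 73746) (nat_lit 3) (.e (nat_lit 516131) (nat_lit 3) (.e (nat_lit 221215) (nat_lit 23) (.e (nat_lit 204806) (nat_lit 0) .nil)))) .nil))) (.nd (nat_lit 5) 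
(.lf (nat_lit 200087) (.g (nat_lit 1557) (.e (nat_lit 73746) (nat_lit 3) (.e (nat_lit 516131) (nat_lit 3) (.e (nat_lit 221212) (nat_lit 22) (.e (nat_lit 196628) (nat_lit 9) (.e (nat_lit 212) (nat_lit 18) .nil))))) .nil)) 
(.lf (nat_lit 200119) (.g (nat_lit 1628) (.e (nat_lit 73746) (nat_lit 3) (.e (nat_lit 516139) (nat_lit 7) (.e (nat_lit 409616) (nat_lit 10) (.e (nat_lit 5353) (nat_lit 298) (.e (nat_lit 1074) (nat_lit 81) .nil))))) .nil)))) (.nd (nat_lit 4) (.nd (nat_lit 5) 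
(.lf (nat_lit 200079) (.g (nat_lit 1568) (.e (nat_lit 73746) (nat_lit 3) (.e (nat_lit 516131) (nat_lit 3) (.e (nat_lit 221212) (nat_lit 22) (.e (nat_lit 196610) (nat_lit 0) (.e (nat_lit 2855) (nat_lit 184) (.e (nat_lit 426432) (nat_lit 17) (.e (nat_lit 98048) (nat_lit 5) .nil))))))) (.g (nat_lit 4) .nil .nil))) 
(.lf (nat_lit 200111) (.g (nat_lit 1981) (.e (nat_lit 73746) (nat_lit 3) (.e (nat_lit 516131) (nat_lit 3) (.e (nat_lit 221215) (nat_lit 23) (.e (nat_lit 204824) (nat_lit 17) .nil)))) .nil))) (.nd (nat_lit 5) 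
(.lf (nat_lit 200095) (.g (nat_lit 1769) (.e (nat_lit 73746) (nat_lit 3) (.e (nat_lit 516131) (nat_lit 3) (.e (nat_lit 221212) (nat_lit 22) (.e (nat_lit 196649) (nat_lit 10) (.e (nat_lit 8282) (nat_lit 49) .nil))))) .nil)) 
(.lf (nat_lit 200127) (.g (nat_lit 2880) (.e (nat_lit 73746) (nat_lit 3) (.e (nat_lit 516139) (nat_lit 7) (.e (nat_lit 409617) (nat_lit 10) (.e (nat_lit 5355) (nat_lit 298) (.e (nat_lit 1253) (nat_lit 92) (.e (nat_lit 98320) (nat_lit 17) (.e (nat_lit 7593) (nat_lit 407) .nil))))))) (.g (nat_lit 4) .nil .nil)))))))))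

noncomputable def tv2644 : DT := (.nd (nat_lit 0) (.nd (nat_lit 1) (.nd (nat_lit 2) (.nd (nat_lit 3) (.nd (nat_lit 4) (.nd (nat_lit 5) 
(.lf (nat_lit 200128) (.g (nat_lit 842) (.e (nat_lit 73746) (nat_lit 3) (.e (nat_lit 516139) (nat_lit 7) (.e (nat_lit 409623) (nat_lit 10) (.e (nat_lit 5664) (nat_lit 312) .nil)))) .nil)) 
(.lf (nat_lit 200160) (.g (nat_lit 2267) (.e (nat_lit 73746) (nat_lit 3) (.e (nat_lit 516141) (nat_lit 8) (.e (nat_lit 417827) (nat_lit 17) (.e (nat_lit 294928) (nat_lit 2) (.e (nat_lit 90165) (nat_lit 12) (.e (nat_lit 171776) (nat_lit 192) .nil)))))) (.g (nat_lit 5) .nil .nil)))) (.nd (nat_lit 5) 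
(.lf (nat_lit 200144) (.g (nat_lit 3510) (.e (nat_lit 73746) (nat_lit 3) (.e (nat_lit 516139) (nat_lit 7) (.e (nat_lit 409646) (nat_lit 18) (.e (nat_lit 303119) (nat_lit 3) (.e (nat_lit 204821) (nat_lit 17) (.e (nat_lit 7936) (nat_lit 348) .nil)))))) (.g (nat_lit 5) .nil .nil))) 
(.lf (nat_lit 200176) (.g (nat_lit 2002) (.e (nat_lit 73746) (nat_lit 3) (.e (nat_lit 516146) (nat_lit 9) (.e (nat_lit 426294) (nat_lit 11) (.e (nat_lit 466688) (nat_lit 21) (.e (nat_lit 516115) (nat_lit 1) (.e (nat_lit 164303) (nat_lit 226) (.e (nat_lit 7936) (nat_lit 89) .nil))))))) (.g (nat_lit 5) .nil .nil))))) (.nd (nat_lit 4) (.nd (nat_lit 5) 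
(.lf (nat_lit 200136) (.g (nat_lit 1354) (.e (nat_lit 73746) (nat_lit 3) (.e (nat_lit 516139) (nat_lit 7) (.e (nat_lit 409642) (nat_lit 17) (.e (nat_lit 294928) (nat_lit 2) .nil)))) .nil)) 
(.lf (nat_lit 200168) (.g (nat_lit 3252) (.e (nat_lit 73746) (nat_lit 3) (.e (nat_lit 516146) (nat_lit 9) (.e (nat_lit 426112) (nat_lit 1) (.e (nat_lit 164406) (nat_lit 258) (.e (nat_lit 163867) (nat_lit 2) (.e (nat_lit 196651) (nat_lit 10) (.e (nat_lit 16128) (nat_lit 196) .nil))))))) (.g (nat_lit 6) .nil .nil)))) (.nd (nat_lit 5) 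
(.lf (nat_lit 200152) (.g (nat_lit 2831) (.e (nat_lit 73746) (nat_lit 3) (.e (nat_lit 516139) (nat_lit 7) (.e (nat_lit 409649) (nat_lit 18) (.e (nat_lit 303111) (nat_lit 0) (.e (nat_lit 3205) (nat_lit 194) (.e (nat_lit 507928) (nat_lit 10) (.e (nat_lit 7936) (nat_lit 303) .nil))))))) (.g (nat_lit 4) .nil .nil))) 
(.lf (nat_lit 200184) (.g (nat_lit 2316) (.e (nat_lit 73746) (nat_lit 3) (.e (nat_lit 516146) (nat_lit 9) (.e (nat_lit 426294) (nat_lit 11) (.e (nat_lit 466688) (nat_lit 21) (.e (nat_lit 516117) (nat_lit 1) (.e (nat_lit 164304) (nat_lit 226) (.e (nat_lit 7936) (nat_lit 89) .nil))))))) (.g (nat_lit 5) .nil .nil)))))) (.nd (nat_lit 3) (.nd (nat_lit 4) (.nd (nat_lit 5) 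
(.lf (nat_lit 200132) (.g (nat_lit 2258) (.e (nat_lit 73746) (nat_lit 3) (.e (nat_lit 516139) (nat_lit 7) (.e (nat_lit 409641) (nat_lit 17) (.e (nat_lit 294927) (nat_lit 2) (.e (nat_lit 90165) (nat_lit 12) .nil))))) .nil)) 
(.lf (nat_lit 200164) (.g (nat_lit 1546) (.e (nat_lit 73746) (nat_lit 3) (.e (nat_lit 516144) (nat_lit 9) (.e (nat_lit 426446) (nat_lit 20) (.e (nat_lit 114719) (nat_lit 23) (.e (nat_lit 98309) (nat_lit 0) (.e (nat_lit 7936) (nat_lit 348) .nil)))))) (.g (nat_lit 4) .nil .nil)))) (.nd (nat_lit 5) 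
(.lf (nat_lit 200148) (.g (nat_lit 1480) (.e (nat_lit 73746) (nat_lit 3) (.e (nat_lit 516139) (nat_lit 7) (.e (nat_lit 409648) (nat_lit 18) (.e (nat_lit 303119) (nat_lit 3) .nil)))) .nil)) 
(.lf (nat_lit 200180) (.g (nat_lit 2774) (.e (nat_lit 73746) (nat_lit 3) (.e (nat_lit 516146) (nat_lit 9) (.e (nat_lit 426294) (nat_lit 11) (.e (nat_lit 466688) (nat_lit 21) (.e (nat_lit 516116) (nat_lit 1) (.e (nat_lit 164304) (nat_lit 226) (.e (nat_lit 7936) (nat_lit 89) .nil))))))) (.g (nat_lit 6) .nil .nil))))) (.nd (nat_lit 4) (.nd (nat_lit 5) 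
(.lf (nat_lit 200140) (.g (nat_lit 572) (.e (nat_lit 73746) (nat_lit 3) (.e (nat_lit 516139) (nat_lit 7) (.e (nat_lit 409644) (nat_lit 18) .nil))) .nil)) 
(.lf (nat_lit 200172) (.g (nat_lit 2404) (.e (nat_lit 73746) (nat_lit 3) (.e (nat_lit 516146) (nat_lit 9) (.e (nat_lit 426294) (nat_lit 11) (.e (nat_lit 466688) (nat_lit 21) (.e (nat_lit 516106) (nat_lit 0) (.e (nat_lit 2478) (nat_lit 157) (.e (nat_lit 5095) (nat_lit 292) (.e (nat_lit 1208) (nat_lit 89) .nil)))))))) (.g (nat_lit 5) .nil .nil)))) (.nd (nat_lit 5) 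
(.lf (nat_lit 200156) (.g (nat_lit 3075) (.e (nat_lit 73746) (nat_lit 3) (.e (nat_lit 516139) (nat_lit 7) (.e (nat_lit 409649) (nat_lit 18) (.e (nat_lit 303119) (nat_lit 3) (.e (nat_lit 204817) (nat_lit 17) .nil))))) .nil)) 
(.lf (nat_lit 200188) (.g (nat_lit 2217) (.e (nat_lit 73746) (nat_lit 3) (.e (nat_lit 516146) (nat_lit 9) (.e (nat_lit 426294) (nat_lit 11) (.e (nat_lit 466688) (nat_lit 21) (.e (nat_lit 516120) (nat_lit 1) (.e (nat_lit 164305) (nat_lit 226) (.e (nat_lit 7936) (nat_lit 89) .nil))))))) (.g (nat_lit 5) .nil .nil))))))) (.nd (nat_lit 2) (.nd (nat_lit 3) (.nd (nat_lit 4) (.nd (nat_lit 5) 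
(.lf (nat_lit 200130) (.g (nat_lit 2557) (.e (nat_lit 73746) (nat_lit 3) (.e (nat_lit 516139) (nat_lit 7) (.e (nat_lit 417536) (nat_lit 16) (.e (nat_lit 286735) (nat_lit 3) (.e (nat_lit 98320) (nat_lit 17) (.e (nat_lit 7593) (nat_lit 407) .nil)))))) (.g (nat_lit 5) .nil .nil))) 
(.lf (nat_lit 200162) (.g (nat_lit 1740) (.e (nat_lit 73746) (nat_lit 3) (.e (nat_lit 516142) (nat_lit 8) (.e (nat_lit 417828) (nat_lit 18) (.e (nat_lit 303119) (nat_lit 3) .nil)))) .nil))) (.nd (nat_lit 5) 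
(.lf (nat_lit 200146) (.g (nat_lit 1434) (.e (nat_lit 73746) (nat_lit 3) (.e (nat_lit 516139) (nat_lit 7) (.e (nat_lit 409648) (nat_lit 18) (.e (nat_lit 303118) (nat_lit 3) .nil)))) .nil)) 
(.lf (nat_lit 200178) (.g (nat_lit 2755) (.e (nat_lit 73746) (nat_lit 3) (.e (nat_lit 516146) (nat_lit 9) (.e (nat_lit 426294) (nat_lit 11) (.e (nat_lit 466688) (nat_lit 21) (.e (nat_lit 516115) (nat_lit 1) (.e (nat_lit 164308) (nat_lit 226) (.e (nat_lit 1208) (nat_lit 89) .nil))))))) (.g (nat_lit 5) .nil .nil))))) (.nd (nat_lit 4) (.nd (nat_lit 5) 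
(.lf (nat_lit 200138) (.g (nat_lit 2422) (.e (nat_lit 73746) (nat_lit 3) (.e (nat_lit 516139) (nat_lit 7) (.e (nat_lit 409643) (nat_lit 18) (.e (nat_lit 303119) (nat_lit 3) (.e (nat_lit 204819) (nat_lit 17) (.e (nat_lit 7936) (nat_lit 348) .nil)))))) (.g (nat_lit 4) .nil .nil))) 
(.lf (nat_lit 200170) (.g (nat_lit 747) (.e (nat_lit 73746) (nat_lit 3) (.e (nat_lit 516146) (nat_lit 9) (.e (nat_lit 426273) (nat_lit 10) .nil))) .nil))) (.nd (nat_lit 5) 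
(.lf (nat_lit 200154) (.g (nat_lit 3099) (.e (nat_lit 73746) (nat_lit 3) (.e (nat_lit 516139) (nat_lit 7) (.e (nat_lit 409649) (nat_lit 18) (.e (nat_lit 303118) (nat_lit 3) (.e (nat_lit 204819) (nat_lit 17) .nil))))) .nil)) 
(.lf (nat_lit 200186) (.g (nat_lit 2374) (.e (nat_lit 73746) (nat_lit 3) (.e (nat_lit 516146) (nat_lit 9) (.e (nat_lit 426294) (nat_lit 11) (.e (nat_lit 466688) (nat_lit 21) (.e (nat_lit 516118) (nat_lit 1) (.e (nat_lit 164307) (nat_lit 226) (.e (nat_lit 7936) (nat_lit 89) .nil))))))) (.g (nat_lit 6) .nil .nil)))))) (.nd (nat_lit 3) (.nd (nat_lit 4) (.nd (nat_lit 5) 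
(.lf (nat_lit 200134) (.g (nat_lit 4075) (.e (nat_lit 73746) (nat_lit 3) (.e (nat_lit 516139) (nat_lit 7) (.e (nat_lit 409641) (nat_lit 17) (.e (nat_lit 294928) (nat_lit 2) (.e (nat_lit 90165) (nat_lit 12) (.e (nat_lit 171776) (nat_lit 192) .nil)))))) (.g (nat_lit 5) .nil .nil))) 
(.lf (nat_lit 200166) (.g (nat_lit 3043) (.e (nat_lit 73746) (nat_lit 3) (.e (nat_lit 516146) (nat_lit 9) (.e (nat_lit 426112) (nat_lit 1) (.e (nat_lit 164327) (nat_lit 230) (.e (nat_lit 163868) (nat_lit 2) (.e (nat_lit 196691) (nat_lit 18) (.e (nat_lit 1008) (nat_lit 81) (.e (nat_lit 5412) (nat_lit 303) .nil)))))))) (.g (nat_lit 5) .nil .nil)))) (.nd (nat_lit 5) 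
(.lf (nat_lit 200150) (.g (nat_lit 3567) (.e (nat_lit 73746) (nat_lit 3) (.e (nat_lit 516139) (nat_lit 7) (.e (nat_lit 409648) (nat_lit 18) (.e (nat_lit 303119) (nat_lit 3) (.e (nat_lit 204821) (nat_lit 17) (.e (nat_lit 7936) (nat_lit 348) .nil)))))) (.g (nat_lit 4) .nil .nil))) 
(.lf (nat_lit 200182) (.g (nat_lit 2497) (.e (nat_lit 73746) (nat_lit 3) (.e (nat_lit 516146) (nat_lit 9) (.e (nat_lit 426294) (nat_lit 11) (.e (nat_lit 466688) (nat_lit 21) (.e (nat_lit 516116) (nat_lit 1) (.e (nat_lit 164307) (nat_lit 226) (.e (nat_lit 7936) (nat_lit 89) .nil))))))) (.g (nat_lit 5) .nil .nil))))) (.nd (nat_lit 4) (.nd (nat_lit 5) 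
(.lf (nat_lit 200142) (.g (nat_lit 3379) (.e (nat_lit 73746) (nat_lit 3) (.e (nat_lit 516139) (nat_lit 7) (.e (nat_lit 409645) (nat_lit 18) (.e (nat_lit 303119) (nat_lit 3) (.e (nat_lit 204821) (nat_lit 17) (.e (nat_lit 7936) (nat_lit 348) .nil)))))) (.g (nat_lit 4) .nil .nil))) 
(.lf (nat_lit 200174) (.g (nat_lit 2538) (.e (nat_lit 73746) (nat_lit 3) (.e (nat_lit 516146) (nat_lit 9) (.e (nat_lit 426294) (nat_lit 11) (.e (nat_lit 466688) (nat_lit 21) (.e (nat_lit 516115) (nat_lit 1) (.e (nat_lit 164298) (nat_lit 226) (.e (nat_lit 1207) (nat_lit 89) .nil))))))) (.g (nat_lit 5) .nil .nil)))) (.nd (nat_lit 5) 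
(.lf (nat_lit 200158) (.g (nat_lit 3344) (.e (nat_lit 73746) (nat_lit 3) (.e (nat_lit 516139) (nat_lit 7) (.e (nat_lit 409649) (nat_lit 18) (.e (nat_lit 303119) (nat_lit 3) (.e (nat_lit 204821) (nat_lit 17) (.e (nat_lit 7936) (nat_lit 348) .nil)))))) (.g (nat_lit 4) .nil .nil))) 
(.lf (nat_lit 200190) (.g (nat_lit 393) (.e (nat_lit 73746) (nat_lit 3) (.e (nat_lit 516146) (nat_lit 9) (.e (nat_lit 426320) (nat_lit 12) .nil))) .nil))))))) (.nd (nat_lit 1) (.nd (nat_lit 2) (.nd (nat_lit 3) (.nd (nat_lit 4) (.nd (nat_lit 5) 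
(.lf (nat_lit 200129) (.g (nat_lit 2878) (.e (nat_lit 73746) (nat_lit 3) (.e (nat_lit 516139) (nat_lit 7) (.e (nat_lit 417536) (nat_lit 16) (.e (nat_lit 286733) (nat_lit 2) (.e (nat_lit 90165) (nat_lit 12) (.e (nat_lit 171776) (nat_lit 192) .nil)))))) (.g (nat_lit 5) .nil .nil))) 
(.lf (nat_lit 200161) (.g (nat_lit 2286) (.e (nat_lit 73746) (nat_lit 3) (.e (nat_lit 516142) (nat_lit 8) (.e (nat_lit 417827) (nat_lit 17) (.e (nat_lit 294928) (nat_lit 2) (.e (nat_lit 90165) (nat_lit 12) (.e (nat_lit 171776) (nat_lit 192) .nil)))))) (.g (nat_lit 5) .nil .nil)))) (.nd (nat_lit 5) 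
(.lf (nat_lit 200145) (.g (nat_lit 2474) (.e (nat_lit 73746) (nat_lit 3) (.e (nat_lit 516139) (nat_lit 7) (.e (nat_lit 409648) (nat_lit 18) (.e (nat_lit 303116) (nat_lit 2) (.e (nat_lit 196661) (nat_lit 12) .nil))))) .nil)) 
(.lf (nat_lit 200177) (.g (nat_lit 2840) (.e (nat_lit 73746) (nat_lit 3) (.e (nat_lit 516146) (nat_lit 9) (.e (nat_lit 426294) (nat_lit 11) (.e (nat_lit 466688) (nat_lit 21) (.e (nat_lit 516115) (nat_lit 1) (.e (nat_lit 164307) (nat_lit 226) (.e (nat_lit 7936) (nat_lit 89) .nil))))))) (.g (nat_lit 6) .nil .nil))))) (.nd (nat_lit 4) (.nd (nat_lit 5) 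
(.lf (nat_lit 200137) (.g (nat_lit 3446) (.e (nat_lit 73746) (nat_lit 3) (.e (nat_lit 516139) (nat_lit 7) (.e (nat_lit 409642) (nat_lit 17) (.e (nat_lit 294928) (nat_lit 2) (.e (nat_lit 90165) (nat_lit 12) (.e (nat_lit 171776) (nat_lit 192) .nil)))))) (.g (nat_lit 5) .nil .nil))) 
(.lf (nat_lit 200169) (.g (nat_lit 1675) (.e (nat_lit 73746) (nat_lit 3) (.e (nat_lit 516146) (nat_lit 9) (.e (nat_lit 426227) (nat_lit 9) (.e (nat_lit 426438) (nat_lit 18) (.e (nat_lit 98323) (nat_lit 17) .nil))))) .nil))) (.nd (nat_lit 5) 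
(.lf (nat_lit 200153) (.g (nat_lit 1591) (.e (nat_lit 73746) (nat_lit 3) (.e (nat_lit 516139) (nat_lit 7) (.e (nat_lit 409649) (nat_lit 18) (.e (nat_lit 303117) (nat_lit 2) .nil)))) .nil)) 
(.lf (nat_lit 200185) (.g (nat_lit 2536) (.e (nat_lit 73746) (nat_lit 3) (.e (nat_lit 516146) (nat_lit 9) (.e (nat_lit 426294) (nat_lit 11) (.e (nat_lit 466688) (nat_lit 21) (.e (nat_lit 516117) (nat_lit 1) (.e (nat_lit 164305) (nat_lit 226) (.e (nat_lit 7936) (nat_lit 89) .nil))))))) (.g (nat_lit 5) .nil .nil)))))) (.nd (nat_lit 3) (.nd (nat_lit 4) (.nd (nat_lit 5) 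
(.lf (nat_lit 200133) (.g (nat_lit 2537) (.e (nat_lit 73746) (nat_lit 3) (.e (nat_lit 516139) (nat_lit 7) (.e (nat_lit 409641) (nat_lit 17) (.e (nat_lit 294928) (nat_lit 2) (.e (nat_lit 90133) (nat_lit 9) .nil))))) .nil)) 
(.lf (nat_lit 200165) (.g (nat_lit 557) (.e (nat_lit 73746) (nat_lit 3) (.e (nat_lit 516146) (nat_lit 9) (.e (nat_lit 426112) (nat_lit 1) .nil))) .nil))) (.nd (nat_lit 5) 
(.lf (nat_lit 200149) (.g (nat_lit 3059) (.e (nat_lit 73746) (nat_lit 3) (.e (nat_lit 516139) (nat_lit 7) (.e (nat_lit 409648) (nat_lit 18) (.e (nat_lit 303119) (nat_lit 3) (.e (nat_lit 204819) (nat_lit 17) (.e (nat_lit 7936) (nat_lit 348) .nil)))))) (.g (nat_lit 4) .nil .nil))) 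
(.lf (nat_lit 200181) (.g (nat_lit 2802) (.e (nat_lit 73746) (nat_lit 3) (.e (nat_lit 516146) (nat_lit 9) (.e (nat_lit 426294) (nat_lit 11) (.e (nat_lit 466688) (nat_lit 21) (.e (nat_lit 516116) (nat_lit 1) (.e (nat_lit 164305) (nat_lit 226) (.e (nat_lit 7936) (nat_lit 89) .nil))))))) (.g (nat_lit 6) .nil .nil))))) (.nd (nat_lit 4) (.nd (nat_lit 5) 
(.lf (nat_lit 200141) (.g (nat_lit 3342) (.e (nat_lit 73746) (nat_lit 3) (.e (nat_lit 516139) (nat_lit 7) (.e (nat_lit 409645) (nat_lit 18) (.e (nat_lit 303119) (nat_lit 3) (.e (nat_lit 204819) (nat_lit 17) (.e (nat_lit 7936) (nat_lit 348) .nil)))))) (.g (nat_lit 4) .nil .nil))) 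
(.lf (nat_lit 200173) (.g (nat_lit 2484) (.e (nat_lit 73746) (nat_lit 3) (.e (nat_lit 516146) (nat_lit 9) (.e (nat_lit 426294) (nat_lit 11) (.e (nat_lit 466688) (nat_lit 21) (.e (nat_lit 516106) (nat_lit 0) (.e (nat_lit 3381) (nat_lit 209) (.e (nat_lit 630822) (nat_lit 17) .nil))))))) (.g (nat_lit 5) .nil .nil)))) (.nd (nat_lit 5) 
(.lf (nat_lit 200157) (.g (nat_lit 3172) (.e (nat_lit 73746) (nat_lit 3) (.e (nat_lit 516139) (nat_lit 7) (.e (nat_lit 409649) (nat_lit 18) (.e (nat_lit 303119) (nat_lit 3) (.e (nat_lit 204819) (nat_lit 17) (.e (nat_lit 7936) (nat_lit 348) .nil)))))) (.g (nat_lit 4) .nil .nil))) 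
(.lf (nat_lit 200189) (.g (nat_lit 2470) (.e (nat_lit 73746) (nat_lit 3) (.e (nat_lit 516146) (nat_lit 9) (.e (nat_lit 426294) (nat_lit 11) (.e (nat_lit 466688) (nat_lit 21) (.e (nat_lit 516120) (nat_lit 1) (.e (nat_lit 164312) (nat_lit 226) (.e (nat_lit 7936) (nat_lit 89) .nil))))))) (.g (nat_lit 5) .nil .nil))))))) (.nd (nat_lit 2) (.nd (nat_lit 3) (.nd (nat_lit 4) (.nd (nat_lit 5) 
(.lf (nat_lit 200131) (.g (nat_lit 3047) (.e (nat_lit 73746) (nat_lit 3) (.e (nat_lit 516139) (nat_lit 7) (.e (nat_lit 409640) (nat_lit 17) (.e (nat_lit 294928) (nat_lit 2) (.e (nat_lit 90165) (nat_lit 12) (.e (nat_lit 171776) (nat_lit 192) .nil)))))) (.g (nat_lit 5) .nil .nil))) 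
(.lf (nat_lit 200163) (.g (nat_lit 1779) (.e (nat_lit 73746) (nat_lit 3) (.e (nat_lit 516144) (nat_lit 9) (.e (nat_lit 426446) (nat_lit 20) (.e (nat_lit 114719) (nat_lit 23) (.e (nat_lit 98307) (nat_lit 0) (.e (nat_lit 7936) (nat_lit 348) .nil)))))) (.g (nat_lit 4) .nil .nil)))) (.nd (nat_lit 5) 
(.lf (nat_lit 200147) (.g (nat_lit 2694) (.e (nat_lit 73746) (nat_lit 3) (.e (nat_lit 516139) (nat_lit 7) (.e (nat_lit 409648) (nat_lit 18) (.e (nat_lit 303118) (nat_lit 3) (.e (nat_lit 204819) (nat_lit 17) .nil))))) .nil)) 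
(.lf (nat_lit 200179) (.g (nat_lit 2319) (.e (nat_lit 73746) (nat_lit 3) (.e (nat_lit 516146) (nat_lit 9) (.e (nat_lit 426294) (nat_lit 11) (.e (nat_lit 466688) (nat_lit 21) (.e (nat_lit 516115) (nat_lit 1) (.e (nat_lit 164311) (nat_lit 226) (.e (nat_lit 1208) (nat_lit 89) .nil))))))) (.g (nat_lit 5) .nil .nil))))) (.nd (nat_lit 4) (.nd (nat_lit 5) 
(.lf (nat_lit 200139) (.g (nat_lit 2491) (.e (nat_lit 73746) (nat_lit 3) (.e (nat_lit 516139) (nat_lit 7) (.e (nat_lit 409643) (nat_lit 18) (.e (nat_lit 303119) (nat_lit 3) (.e (nat_lit 204821) (nat_lit 17) (.e (nat_lit 7936) (nat_lit 348) .nil)))))) (.g (nat_lit 4) .nil .nil))) 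
(.lf (nat_lit 200171) (.g (nat_lit 591) (.e (nat_lit 73746) (nat_lit 3) (.e (nat_lit 516146) (nat_lit 9) (.e (nat_lit 426294) (nat_lit 11) .nil))) .nil))) (.nd (nat_lit 5) 
(.lf (nat_lit 200155) (.g (nat_lit 1486) (.e (nat_lit 73746) (nat_lit 3) (.e (nat_lit 516139) (nat_lit 7) (.e (nat_lit 409649) (nat_lit 18) (.e (nat_lit 303119) (nat_lit 3) .nil)))) .nil)) 
(.lf (nat_lit 200187) (.g (nat_lit 2776) (.e (nat_lit 73746) (nat_lit 3) (.e (nat_lit 516146) (nat_lit 9) (.e (nat_lit 426294) (nat_lit 11) (.e (nat_lit 466688) (nat_lit 21) (.e (nat_lit 516120) (nat_lit 1) (.e (nat_lit 164304) (nat_lit 226) (.e (nat_lit 7936) (nat_lit 89) .nil))))))) (.g (nat_lit 5) .nil .nil)))))) (.nd (nat_lit 3) (.nd (nat_lit 4) (.nd (nat_lit 5) 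
(.lf (nat_lit 200135) (.g (nat_lit 1675) (.e (nat_lit 73746) (nat_lit 3) (.e (nat_lit 516139) (nat_lit 7) (.e (nat_lit 409641) (nat_lit 17) (.e (nat_lit 294931) (nat_lit 3) .nil)))) .nil)) 
(.lf (nat_lit 200167) (.g (nat_lit 3071) (.e (nat_lit 73746) (nat_lit 3) (.e (nat_lit 516146) (nat_lit 9) (.e (nat_lit 426112) (nat_lit 1) (.e (nat_lit 164327) (nat_lit 230) (.e (nat_lit 163868) (nat_lit 2) (.e (nat_lit 196692) (nat_lit 18) (.e (nat_lit 1008) (nat_lit 81) (.e (nat_lit 5412) (nat_lit 303) .nil)))))))) (.g (nat_lit 5) .nil .nil)))) (.nd (nat_lit 5) 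
(.lf (nat_lit 200151) (.g (nat_lit 1629) (.e (nat_lit 73746) (nat_lit 3) (.e (nat_lit 516139) (nat_lit 7) (.e (nat_lit 409649) (nat_lit 18) (.e (nat_lit 303111) (nat_lit 0) .nil)))) .nil)) 
(.lf (nat_lit 200183) (.g (nat_lit 2585) (.e (nat_lit 73746) (nat_lit 3) (.e (nat_lit 516146) (nat_lit 9) (.e (nat_lit 426294) (nat_lit 11) (.e (nat_lit 466688) (nat_lit 21) (.e (nat_lit 516116) (nat_lit 1) (.e (nat_lit 164312) (nat_lit 226) (.e (nat_lit 7936) (nat_lit 89) .nil))))))) (.g (nat_lit 6) .nil .nil))))) (.nd (nat_lit 4) (.nd (nat_lit 5) 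
(.lf (nat_lit 200143) (.g (nat_lit 3186) (.e (nat_lit 73746) (nat_lit 3) (.e (nat_lit 516139) (nat_lit 7) (.e (nat_lit 409646) (nat_lit 18) (.e (nat_lit 303119) (nat_lit 3) (.e (nat_lit 204819) (nat_lit 17) (.e (nat_lit 7936) (nat_lit 348) .nil)))))) (.g (nat_lit 5) .nil .nil))) 
(.lf (nat_lit 200175) (.g (nat_lit 2917) (.e (nat_lit 73746) (nat_lit 3) (.e (nat_lit 516146) (nat_lit 9) (.e (nat_lit 426294) (nat_lit 11) (.e (nat_lit 466688) (nat_lit 21) (.e (nat_lit 516115) (nat_lit 1) (.e (nat_lit 164300) (nat_lit 226) (.e (nat_lit 7936) (nat_lit 89) .nil))))))) (.g (nat_lit 6) .nil .nil)))) (.nd (nat_lit 5) 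
(.lf (nat_lit 200159) (.g (nat_lit 639) (.e (nat_lit 73746) (nat_lit 3) (.e (nat_lit 516139) (nat_lit 7) (.e (nat_lit 417536) (nat_lit 18) .nil))) .nil)) 
(.lf (nat_lit 200191) (.g (nat_lit 1268) (.e (nat_lit 73746) (nat_lit 3) (.e (nat_lit 516146) (nat_lit 9) (.e (nat_lit 426320) (nat_lit 12) (.e (nat_lit 475179) (nat_lit 24) .nil)))) .nil))))))))

noncomputable def tv2645 : DT := (.nd (nat_lit 0) (.nd (nat_lit 1) (.nd (nat_lit 2) (.nd (nat_lit 3) (.nd (nat_lit 4) (.nd (nat_lit 5) 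
(.lf (nat_lit 200192) (.g (nat_lit 2451) (.e (nat_lit 73746) (nat_lit 3) (.e (nat_lit 516146) (nat_lit 9) (.e (nat_lit 426320) (nat_lit 12) (.e (nat_lit 475179) (nat_lit 24) (.e (nat_lit 516097) (nat_lit 0) .nil))))) .nil)) 
(.lf (nat_lit 200224) (.g (nat_lit 1469) (.e (nat_lit 73746) (nat_lit 3) (.e (nat_lit 516147) (nat_lit 9) (.e (nat_lit 426446) (nat_lit 20) (.e (nat_lit 114718) (nat_lit 23) (.e (nat_lit 98309) (nat_lit 0) (.e (nat_lit 7936) (nat_lit 348) .nil)))))) (.g (nat_lit 4) .nil .nil)))) (.nd (nat_lit 5) 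
(.lf (nat_lit 200208) (.g (nat_lit 3104) (.e (nat_lit 73746) (nat_lit 3) (.e (nat_lit 516146) (nat_lit 9) (.e (nat_lit 426448) (nat_lit 20) (.e (nat_lit 114688) (nat_lit 0) .nil)))) .nil)) 
(.lf (nat_lit 200240) (.g (nat_lit 3016) (.e (nat_lit 73746) (nat_lit 3) (.e (nat_lit 516150) (nat_lit 9) (.e (nat_lit 426112) (nat_lit 1) (.e (nat_lit 164327) (nat_lit 230) (.e (nat_lit 163868) (nat_lit 2) (.e (nat_lit 196692) (nat_lit 18) (.e (nat_lit 1008) (nat_lit 81) (.e (nat_lit 5412) (nat_lit 303) .nil)))))))) (.g (nat_lit 5) .nil .nil))))) (.nd (nat_lit 4) (.nd (nat_lit 5) 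
(.lf (nat_lit 200200) (.g (nat_lit 3190) (.e (nat_lit 73746) (nat_lit 3) (.e (nat_lit 516146) (nat_lit 9) (.e (nat_lit 426422) (nat_lit 16) (.e (nat_lit 57687) (nat_lit 156) (.e (nat_lit 163875) (nat_lit 3) (.e (nat_lit 204830) (nat_lit 18) (.e (nat_lit 57830) (nat_lit 250) (.e (nat_lit 1214) (nat_lit 89) .nil)))))))) (.g (nat_lit 5) .nil .nil))) 
(.lf (nat_lit 200232) (.g (nat_lit 2075) (.e (nat_lit 73746) (nat_lit 3) (.e (nat_lit 516147) (nat_lit 9) (.e (nat_lit 426448) (nat_lit 20) (.e (nat_lit 114719) (nat_lit 23) (.e (nat_lit 98308) (nat_lit 0) (.e (nat_lit 7936) (nat_lit 348) .nil)))))) (.g (nat_lit 4) .nil .nil)))) (.nd (nat_lit 5) 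
(.lf (nat_lit 200216) (.g (nat_lit 3391) (.e (nat_lit 73746) (nat_lit 3) (.e (nat_lit 516146) (nat_lit 9) (.e (nat_lit 426448) (nat_lit 20) (.e (nat_lit 114719) (nat_lit 23) (.e (nat_lit 98309) (nat_lit 0) (.e (nat_lit 7936) (nat_lit 348) .nil)))))) (.g (nat_lit 4) .nil .nil))) 
(.lf (nat_lit 200248) (.g (nat_lit 1742) (.e (nat_lit 73746) (nat_lit 3) (.e (nat_lit 516150) (nat_lit 9) (.e (nat_lit 426294) (nat_lit 11) (.e (nat_lit 466688) (nat_lit 21) (.e (nat_lit 516115) (nat_lit 1) (.e (nat_lit 164303) (nat_lit 226) (.e (nat_lit 7936) (nat_lit 89) .nil))))))) (.g (nat_lit 5) .nil .nil)))))) (.nd (nat_lit 3) (.nd (nat_lit 4) (.nd (nat_lit 5) 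
(.lf (nat_lit 200196) (.g (nat_lit 2864) (.e (nat_lit 73746) (nat_lit 3) (.e (nat_lit 516146) (nat_lit 9) (.e (nat_lit 426320) (nat_lit 12) (.e (nat_lit 475179) (nat_lit 24) (.e (nat_lit 516102) (nat_lit 0) (.e (nat_lit 2400) (nat_lit 157) (.e (nat_lit 7236) (nat_lit 382) (.e (nat_lit 1208) (nat_lit 89) .nil)))))))) (.g (nat_lit 4) .nil .nil))) 
(.lf (nat_lit 200228) (.g (nat_lit 2324) (.e (nat_lit 73746) (nat_lit 3) (.e (nat_lit 516147) (nat_lit 9) (.e (nat_lit 426448) (nat_lit 20) (.e (nat_lit 114718) (nat_lit 23) (.e (nat_lit 98308) (nat_lit 0) (.e (nat_lit 7936) (nat_lit 348) .nil)))))) (.g (nat_lit 4) .nil .nil)))) (.nd (nat_lit 5) 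
(.lf (nat_lit 200212) (.g (nat_lit 3535) (.e (nat_lit 73746) (nat_lit 3) (.e (nat_lit 516146) (nat_lit 9) (.e (nat_lit 426448) (nat_lit 20) (.e (nat_lit 114718) (nat_lit 23) (.e (nat_lit 98309) (nat_lit 0) (.e (nat_lit 7936) (nat_lit 348) .nil)))))) (.g (nat_lit 4) .nil .nil))) 
(.lf (nat_lit 200244) (.g (nat_lit 1959) (.e (nat_lit 73746) (nat_lit 3) (.e (nat_lit 516150) (nat_lit 9) (.e (nat_lit 426294) (nat_lit 11) (.e (nat_lit 466688) (nat_lit 21) (.e (nat_lit 516106) (nat_lit 0) (.e (nat_lit 2478) (nat_lit 157) (.e (nat_lit 5095) (nat_lit 292) (.e (nat_lit 1208) (nat_lit 89) .nil)))))))) (.g (nat_lit 5) .nil .nil))))) (.nd (nat_lit 4) (.nd (nat_lit 5) 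
(.lf (nat_lit 200204) (.g (nat_lit 1553) (.e (nat_lit 73746) (nat_lit 3) (.e (nat_lit 516146) (nat_lit 9) (.e (nat_lit 426444) (nat_lit 19) (.e (nat_lit 106501) (nat_lit 0) .nil)))) .nil)) 
(.lf (nat_lit 200236) (.g (nat_lit 1614) (.e (nat_lit 73746) (nat_lit 3) (.e (nat_lit 516149) (nat_lit 9) (.e (nat_lit 426320) (nat_lit 12) (.e (nat_lit 475179) (nat_lit 24) (.e (nat_lit 516102) (nat_lit 0) .nil))))) .nil))) (.nd (nat_lit 5) 
(.lf (nat_lit 200220) (.g (nat_lit 1632) (.e (nat_lit 73746) (nat_lit 3) (.e (nat_lit 516146) (nat_lit 9) (.e (nat_lit 433920) (nat_lit 20) (.e (nat_lit 114719) (nat_lit 23) (.e (nat_lit 98309) (nat_lit 0) (.e (nat_lit 7936) (nat_lit 348) .nil)))))) (.g (nat_lit 4) .nil .nil))) 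
(.lf (nat_lit 200252) (.g (nat_lit 2514) (.e (nat_lit 73746) (nat_lit 3) (.e (nat_lit 516150) (nat_lit 9) (.e (nat_lit 426294) (nat_lit 11) (.e (nat_lit 466688) (nat_lit 21) (.e (nat_lit 516116) (nat_lit 1) (.e (nat_lit 164304) (nat_lit 226) (.e (nat_lit 7936) (nat_lit 89) .nil))))))) (.g (nat_lit 6) .nil .nil))))))) (.nd (nat_lit 2) (.nd (nat_lit 3) (.nd (nat_lit 4) (.nd (nat_lit 5) 
(.lf (nat_lit 200194) (.g (nat_lit 2167) (.e (nat_lit 73746) (nat_lit 3) (.e (nat_lit 516146) (nat_lit 9) (.e (nat_lit 426320) (nat_lit 12) (.e (nat_lit 475179) (nat_lit 24) (.e (nat_lit 516102) (nat_lit 0) .nil))))) .nil)) 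
(.lf (nat_lit 200226) (.g (nat_lit 1992) (.e (nat_lit 73746) (nat_lit 3) (.e (nat_lit 516147) (nat_lit 9) (.e (nat_lit 426446) (nat_lit 20) (.e (nat_lit 114719) (nat_lit 23) (.e (nat_lit 98309) (nat_lit 0) (.e (nat_lit 7936) (nat_lit 348) .nil)))))) (.g (nat_lit 4) .nil .nil)))) (.nd (nat_lit 5) 
(.lf (nat_lit 200210) (.g (nat_lit 3696) (.e (nat_lit 73746) (nat_lit 3) (.e (nat_lit 516146) (nat_lit 9) (.e (nat_lit 426448) (nat_lit 20) (.e (nat_lit 114718) (nat_lit 23) (.e (nat_lit 98307) (nat_lit 0) (.e (nat_lit 7936) (nat_lit 348) .nil)))))) (.g (nat_lit 5) .nil .nil))) 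
(.lf (nat_lit 200242) (.g (nat_lit 613) (.e (nat_lit 73746) (nat_lit 3) (.e (nat_lit 516150) (nat_lit 9) (.e (nat_lit 426273) (nat_lit 10) .nil))) .nil)))) (.nd (nat_lit 4) (.nd (nat_lit 5) 
(.lf (nat_lit 200202) (.g (nat_lit 3620) (.e (nat_lit 73746) (nat_lit 3) (.e (nat_lit 516146) (nat_lit 9) (.e (nat_lit 426422) (nat_lit 16) (.e (nat_lit 57688) (nat_lit 156) (.e (nat_lit 163874) (nat_lit 3) (.e (nat_lit 204831) (nat_lit 18) (.e (nat_lit 57830) (nat_lit 250) (.e (nat_lit 1214) (nat_lit 89) .nil)))))))) (.g (nat_lit 5) .nil .nil))) 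
(.lf (nat_lit 200234) (.g (nat_lit 2305) (.e (nat_lit 73746) (nat_lit 3) (.e (nat_lit 516149) (nat_lit 9) (.e (nat_lit 426112) (nat_lit 1) (.e (nat_lit 164327) (nat_lit 230) (.e (nat_lit 163868) (nat_lit 2) (.e (nat_lit 196692) (nat_lit 18) (.e (nat_lit 1008) (nat_lit 81) (.e (nat_lit 5412) (nat_lit 303) .nil)))))))) (.g (nat_lit 5) .nil .nil)))) (.nd (nat_lit 5) 
(.lf (nat_lit 200218) (.g (nat_lit 3210) (.e (nat_lit 73746) (nat_lit 3) (.e (nat_lit 516146) (nat_lit 9) (.e (nat_lit 426448) (nat_lit 20) (.e (nat_lit 114726) (nat_lit 27) .nil)))) .nil)) 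
(.lf (nat_lit 200250) (.g (nat_lit 2310) (.e (nat_lit 73746) (nat_lit 3) (.e (nat_lit 516150) (nat_lit 9) (.e (nat_lit 426294) (nat_lit 11) (.e (nat_lit 466688) (nat_lit 21) (.e (nat_lit 516115) (nat_lit 1) (.e (nat_lit 164308) (nat_lit 226) (.e (nat_lit 1208) (nat_lit 89) .nil))))))) (.g (nat_lit 5) .nil .nil)))))) (.nd (nat_lit 3) (.nd (nat_lit 4) (.nd (nat_lit 5) 
(.lf (nat_lit 200198) (.g (nat_lit 2106) (.e (nat_lit 73746) (nat_lit 3) (.e (nat_lit 516146) (nat_lit 9) (.e (nat_lit 426320) (nat_lit 12) (.e (nat_lit 475179) (nat_lit 24) (.e (nat_lit 516117) (nat_lit 1) (.e (nat_lit 164229) (nat_lit 181) (.e (nat_lit 7936) (nat_lit 89) .nil))))))) (.g (nat_lit 4) .nil .nil))) 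
(.lf (nat_lit 200230) (.g (nat_lit 1918) (.e (nat_lit 73746) (nat_lit 3) (.e (nat_lit 516147) (nat_lit 9) (.e (nat_lit 426448) (nat_lit 20) (.e (nat_lit 114719) (nat_lit 23) (.e (nat_lit 98305) (nat_lit 0) .nil))))) .nil))) (.nd (nat_lit 5) 
(.lf (nat_lit 200214) (.g (nat_lit 3711) (.e (nat_lit 73746) (nat_lit 3) (.e (nat_lit 516146) (nat_lit 9) (.e (nat_lit 426448) (nat_lit 20) (.e (nat_lit 114719) (nat_lit 23) (.e (nat_lit 98307) (nat_lit 0) (.e (nat_lit 7936) (nat_lit 348) .nil)))))) (.g (nat_lit 4) .nil .nil))) 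
(.lf (nat_lit 200246) (.g (nat_lit 2278) (.e (nat_lit 73746) (nat_lit 3) (.e (nat_lit 516150) (nat_lit 9) (.e (nat_lit 426294) (nat_lit 11) (.e (nat_lit 466688) (nat_lit 21) (.e (nat_lit 516115) (nat_lit 1) (.e (nat_lit 164298) (nat_lit 226) (.e (nat_lit 1207) (nat_lit 89) .nil))))))) (.g (nat_lit 5) .nil .nil))))) (.nd (nat_lit 4) (.nd (nat_lit 5) 
(.lf (nat_lit 200206) (.g (nat_lit 2356) (.e (nat_lit 73746) (nat_lit 3) (.e (nat_lit 516146) (nat_lit 9) (.e (nat_lit 426446) (nat_lit 20) (.e (nat_lit 114719) (nat_lit 23) (.e (nat_lit 98309) (nat_lit 0) (.e (nat_lit 7936) (nat_lit 348) .nil)))))) (.g (nat_lit 4) .nil .nil))) 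
(.lf (nat_lit 200238) (.g (nat_lit 2307) (.e (nat_lit 73746) (nat_lit 3) (.e (nat_lit 516150) (nat_lit 9) (.e (nat_lit 426112) (nat_lit 1) (.e (nat_lit 164327) (nat_lit 230) (.e (nat_lit 163868) (nat_lit 2) (.e (nat_lit 196690) (nat_lit 18) (.e (nat_lit 1008) (nat_lit 81) (.e (nat_lit 5412) (nat_lit 303) .nil)))))))) (.g (nat_lit 4) .nil .nil)))) (.nd (nat_lit 5) 
(.lf (nat_lit 200222) (.g (nat_lit 1411) (.e (nat_lit 73746) (nat_lit 3) (.e (nat_lit 516147) (nat_lit 9) (.e (nat_lit 426446) (nat_lit 20) (.e (nat_lit 114718) (nat_lit 23) (.e (nat_lit 98307) (nat_lit 0) (.e (nat_lit 7936) (nat_lit 348) .nil)))))) (.g (nat_lit 4) .nil .nil))) 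
(.lf (nat_lit 200254) (.g (nat_lit 2237) (.e (nat_lit 73746) (nat_lit 3) (.e (nat_lit 516150) (nat_lit 9) (.e (nat_lit 426294) (nat_lit 11) (.e (nat_lit 466688) (nat_lit 21) (.e (nat_lit 516116) (nat_lit 1) (.e (nat_lit 164307) (nat_lit 226) (.e (nat_lit 7936) (nat_lit 89) .nil))))))) (.g (nat_lit 5) .nil .nil)))))))) 
(.nd (nat_lit 1) (.nd (nat_lit 2) (.nd (nat_lit 3) (.nd (nat_lit 4) (.nd (nat_lit 5) 
(.lf (nat_lit 200193) (.g (nat_lit 3050) (.e (nat_lit 73746) (nat_lit 3) (.e (nat_lit 516146) (nat_lit 9) (.e (nat_lit 426320) (nat_lit 12) (.e (nat_lit 475179) (nat_lit 24) (.e (nat_lit 516100) (nat_lit 0) (.e (nat_lit 3605) (nat_lit 225) (.e (nat_lit 769792) (nat_lit 9) .nil))))))) (.g (nat_lit 5) .nil .nil))) 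
(.lf (nat_lit 200225) (.g (nat_lit 2225) (.e (nat_lit 73746) (nat_lit 3) (.e (nat_lit 516147) (nat_lit 9) (.e (nat_lit 426446) (nat_lit 20) (.e (nat_lit 114719) (nat_lit 23) (.e (nat_lit 98307) (nat_lit 0) (.e (nat_lit 7936) (nat_lit 348) .nil)))))) (.g (nat_lit 5) .nil .nil)))) (.nd (nat_lit 5) 
(.lf (nat_lit 200209) (.g (nat_lit 1850) (.e (nat_lit 73746) (nat_lit 3) (.e (nat_lit 516146) (nat_lit 9) (.e (nat_lit 426448) (nat_lit 20) (.e (nat_lit 114714) (nat_lit 22) .nil)))) .nil)) 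
(.lf (nat_lit 200241) (.g (nat_lit 2577) (.e (nat_lit 73746) (nat_lit 3) (.e (nat_lit 516150) (nat_lit 9) (.e (nat_lit 426112) (nat_lit 1) (.e (nat_lit 164406) (nat_lit 258) (.e (nat_lit 163867) (nat_lit 2) (.e (nat_lit 196651) (nat_lit 10) (.e (nat_lit 16128) (nat_lit 196) .nil))))))) (.g (nat_lit 5) .nil .nil))))) (.nd (nat_lit 4) (.nd (nat_lit 5) 
(.lf (nat_lit 200201) (.g (nat_lit 3698) (.e (nat_lit 73746) (nat_lit 3) (.e (nat_lit 516146) (nat_lit 9) (.e (nat_lit 426422) (nat_lit 16) (.e (nat_lit 57688) (nat_lit 156) (.e (nat_lit 163873) (nat_lit 3) (.e (nat_lit 204830) (nat_lit 18) (.e (nat_lit 57830) (nat_lit 250) (.e (nat_lit 1214) (nat_lit 89) .nil)))))))) (.g (nat_lit 5) .nil .nil))) 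
(.lf (nat_lit 200233) (.g (nat_lit 2391) (.e (nat_lit 73746) (nat_lit 3) (.e (nat_lit 516147) (nat_lit 9) (.e (nat_lit 426448) (nat_lit 20) (.e (nat_lit 114719) (nat_lit 23) (.e (nat_lit 98309) (nat_lit 0) (.e (nat_lit 7936) (nat_lit 348) .nil)))))) (.g (nat_lit 4) .nil .nil)))) (.nd (nat_lit 5) 
(.lf (nat_lit 200217) (.g (nat_lit 1107) (.e (nat_lit 73746) (nat_lit 3) (.e (nat_lit 516146) (nat_lit 9) (.e (nat_lit 426448) (nat_lit 20) (.e (nat_lit 122624) (nat_lit 23) .nil)))) .nil)) 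
(.lf (nat_lit 200249) (.g (nat_lit 2580) (.e (nat_lit 73746) (nat_lit 3) (.e (nat_lit 516150) (nat_lit 9) (.e (nat_lit 426294) (nat_lit 11) (.e (nat_lit 466688) (nat_lit 21) (.e (nat_lit 516115) (nat_lit 1) (.e (nat_lit 164307) (nat_lit 226) (.e (nat_lit 7936) (nat_lit 89) .nil))))))) (.g (nat_lit 6) .nil .nil)))))) (.nd (nat_lit 3) (.nd (nat_lit 4) (.nd (nat_lit 5) 
(.lf (nat_lit 200197) (.g (nat_lit 2101) (.e (nat_lit 73746) (nat_lit 3) (.e (nat_lit 516146) (nat_lit 9) (.e (nat_lit 426320) (nat_lit 12) (.e (nat_lit 475179) (nat_lit 24) (.e (nat_lit 516117) (nat_lit 1) (.e (nat_lit 164226) (nat_lit 181) (.e (nat_lit 7936) (nat_lit 89) .nil))))))) (.g (nat_lit 4) .nil .nil))) 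
(.lf (nat_lit 200229) (.g (nat_lit 2485) (.e (nat_lit 73746) (nat_lit 3) (.e (nat_lit 516147) (nat_lit 9) (.e (nat_lit 426448) (nat_lit 20) (.e (nat_lit 114718) (nat_lit 23) (.e (nat_lit 98309) (nat_lit 0) (.e (nat_lit 7936) (nat_lit 348) .nil)))))) (.g (nat_lit 4) .nil .nil)))) (.nd (nat_lit 5) 
(.lf (nat_lit 200213) (.g (nat_lit 3073) (.e (nat_lit 73746) (nat_lit 3) (.e (nat_lit 516146) (nat_lit 9) (.e (nat_lit 426448) (nat_lit 20) (.e (nat_lit 114719) (nat_lit 23) (.e (nat_lit 98305) (nat_lit 0) .nil))))) .nil)) 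
(.lf (nat_lit 200245) (.g (nat_lit 2211) (.e (nat_lit 73746) (nat_lit 3) (.e (nat_lit 516150) (nat_lit 9) (.e (nat_lit 426294) (nat_lit 11) (.e (nat_lit 466688) (nat_lit 21) (.e (nat_lit 516106) (nat_lit 0) (.e (nat_lit 3381) (nat_lit 209) (.e (nat_lit 630822) (nat_lit 17) .nil))))))) (.g (nat_lit 5) .nil .nil))))) (.nd (nat_lit 4) (.nd (nat_lit 5) 
(.lf (nat_lit 200205) (.g (nat_lit 2589) (.e (nat_lit 73746) (nat_lit 3) (.e (nat_lit 516146) (nat_lit 9) (.e (nat_lit 426446) (nat_lit 20) (.e (nat_lit 114719) (nat_lit 23) (.e (nat_lit 98307) (nat_lit 0) (.e (nat_lit 7936) (nat_lit 348) .nil)))))) (.g (nat_lit 5) .nil .nil))) 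
(.lf (nat_lit 200237) (.g (nat_lit 615) (.e (nat_lit 73746) (nat_lit 3) (.e (nat_lit 516150) (nat_lit 9) (.e (nat_lit 426112) (nat_lit 1) .nil))) .nil))) (.nd (nat_lit 5) 
(.lf (nat_lit 200221) (.g (nat_lit 765) (.e (nat_lit 73746) (nat_lit 3) (.e (nat_lit 516146) (nat_lit 9) (.e (nat_lit 426452) (nat_lit 21) .nil))) .nil)) 
(.lf (nat_lit 200253) (.g (nat_lit 2542) (.e (nat_lit 73746) (nat_lit 3) (.e (nat_lit 516150) (nat_lit 9) (.e (nat_lit 426294) (nat_lit 11) (.e (nat_lit 466688) (nat_lit 21) (.e (nat_lit 516116) (nat_lit 1) (.e (nat_lit 164305) (nat_lit 226) (.e (nat_lit 7936) (nat_lit 89) .nil))))))) (.g (nat_lit 6) .nil .nil))))))) (.nd (nat_lit 2) (.nd (nat_lit 3) (.nd (nat_lit 4) (.nd (nat_lit 5) 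
(.lf (nat_lit 200195) (.g (nat_lit 3004) (.e (nat_lit 73746) (nat_lit 3) (.e (nat_lit 516146) (nat_lit 9) (.e (nat_lit 426320) (nat_lit 12) (.e (nat_lit 475179) (nat_lit 24) (.e (nat_lit 516102) (nat_lit 0) (.e (nat_lit 2397) (nat_lit 157) (.e (nat_lit 7236) (nat_lit 382) (.e (nat_lit 1209) (nat_lit 89) .nil)))))))) (.g (nat_lit 4) .nil .nil))) 
(.lf (nat_lit 200227) (.g (nat_lit 2646) (.e (nat_lit 73746) (nat_lit 3) (.e (nat_lit 516147) (nat_lit 9) (.e (nat_lit 426448) (nat_lit 20) (.e (nat_lit 114718) (nat_lit 23) (.e (nat_lit 98307) (nat_lit 0) (.e (nat_lit 7936) (nat_lit 348) .nil)))))) (.g (nat_lit 5) .nil .nil)))) (.nd (nat_lit 5) 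
(.lf (nat_lit 200211) (.g (nat_lit 3374) (.e (nat_lit 73746) (nat_lit 3) (.e (nat_lit 516146) (nat_lit 9) (.e (nat_lit 426448) (nat_lit 20) (.e (nat_lit 114718) (nat_lit 23) (.e (nat_lit 98308) (nat_lit 0) (.e (nat_lit 7936) (nat_lit 348) .nil)))))) (.g (nat_lit 4) .nil .nil))) 
(.lf (nat_lit 200243) (.g (nat_lit 512) (.e (nat_lit 73746) (nat_lit 3) (.e (nat_lit 516150) (nat_lit 9) (.e (nat_lit 426294) (nat_lit 11) .nil))) .nil)))) (.nd (nat_lit 4) (.nd (nat_lit 5) 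
(.lf (nat_lit 200203) (.g (nat_lit 4771) (.e (nat_lit 73746) (nat_lit 3) (.e (nat_lit 516146) (nat_lit 9) (.e (nat_lit 426422) (nat_lit 16) (.e (nat_lit 57692) (nat_lit 156) (.e (nat_lit 163874) (nat_lit 3) (.e (nat_lit 204831) (nat_lit 18) (.e (nat_lit 57830) (nat_lit 250) (.e (nat_lit 1214) (nat_lit 89) .nil)))))))) (.g (nat_lit 7) .nil .nil))) 
(.lf (nat_lit 200235) (.g (nat_lit 2244) (.e (nat_lit 73746) (nat_lit 3) (.e (nat_lit 516149) (nat_lit 9) (.e (nat_lit 426112) (nat_lit 1) (.e (nat_lit 164406) (nat_lit 258) (.e (nat_lit 163867) (nat_lit 2) (.e (nat_lit 196651) (nat_lit 10) (.e (nat_lit 16128) (nat_lit 196) .nil))))))) (.g (nat_lit 5) .nil .nil)))) (.nd (nat_lit 5) 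
(.lf (nat_lit 200219) (.g (nat_lit 2323) (.e (nat_lit 73746) (nat_lit 3) (.e (nat_lit 516146) (nat_lit 9) (.e (nat_lit 426449) (nat_lit 20) (.e (nat_lit 114719) (nat_lit 23) (.e (nat_lit 98309) (nat_lit 0) .nil))))) .nil)) 
(.lf (nat_lit 200251) (.g (nat_lit 1874) (.e (nat_lit 73746) (nat_lit 3) (.e (nat_lit 516150) (nat_lit 9) (.e (nat_lit 426294) (nat_lit 11) (.e (nat_lit 466688) (nat_lit 21) (.e (nat_lit 516115) (nat_lit 1) (.e (nat_lit 164311) (nat_lit 226) (.e (nat_lit 1208) (nat_lit 89) .nil))))))) (.g (nat_lit 5) .nil .nil)))))) (.nd (nat_lit 3) (.nd (nat_lit 4) (.nd (nat_lit 5) 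
(.lf (nat_lit 200199) (.g (nat_lit 1367) (.e (nat_lit 73746) (nat_lit 3) (.e (nat_lit 516146) (nat_lit 9) (.e (nat_lit 426354) (nat_lit 15) (.e (nat_lit 2017) (nat_lit 139) .nil)))) .nil)) 
(.lf (nat_lit 200231) (.g (nat_lit 2743) (.e (nat_lit 73746) (nat_lit 3) (.e (nat_lit 516147) (nat_lit 9) (.e (nat_lit 426448) (nat_lit 20) (.e (nat_lit 114719) (nat_lit 23) (.e (nat_lit 98307) (nat_lit 0) (.e (nat_lit 7936) (nat_lit 348) .nil)))))) (.g (nat_lit 4) .nil .nil)))) (.nd (nat_lit 5) 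
(.lf (nat_lit 200215) (.g (nat_lit 3188) (.e (nat_lit 73746) (nat_lit 3) (.e (nat_lit 516146) (nat_lit 9) (.e (nat_lit 426448) (nat_lit 20) (.e (nat_lit 114719) (nat_lit 23) (.e (nat_lit 98308) (nat_lit 0) .nil))))) .nil)) 
(.lf (nat_lit 200247) (.g (nat_lit 2657) (.e (nat_lit 73746) (nat_lit 3) (.e (nat_lit 516150) (nat_lit 9) (.e (nat_lit 426294) (nat_lit 11) (.e (nat_lit 466688) (nat_lit 21) (.e (nat_lit 516115) (nat_lit 1) (.e (nat_lit 164300) (nat_lit 226) (.e (nat_lit 7936) (nat_lit 89) .nil))))))) (.g (nat_lit 6) .nil .nil))))) (.nd (nat_lit 4) (.nd (nat_lit 5) 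
(.lf (nat_lit 200207) (.g (nat_lit 507) (.e (nat_lit 73746) (nat_lit 3) (.e (nat_lit 516146) (nat_lit 9) (.e (nat_lit 426448) (nat_lit 20) .nil))) .nil)) 
(.lf (nat_lit 200239) (.g (nat_lit 2988) (.e (nat_lit 73746) (nat_lit 3) (.e (nat_lit 516150) (nat_lit 9) (.e (nat_lit 426112) (nat_lit 1) (.e (nat_lit 164327) (nat_lit 230) (.e (nat_lit 163868) (nat_lit 2) (.e (nat_lit 196691) (nat_lit 18) (.e (nat_lit 1008) (nat_lit 81) (.e (nat_lit 5412) (nat_lit 303) .nil)))))))) (.g (nat_lit 5) .nil .nil)))) (.nd (nat_lit 5) 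
(.lf (nat_lit 200223) (.g (nat_lit 1181) (.e (nat_lit 73746) (nat_lit 3) (.e (nat_lit 516147) (nat_lit 9) (.e (nat_lit 426446) (nat_lit 20) (.e (nat_lit 114718) (nat_lit 23) (.e (nat_lit 98308) (nat_lit 0) .nil))))) .nil)) 
(.lf (nat_lit 200255) (.g (nat_lit 2325) (.e (nat_lit 73746) (nat_lit 3) (.e (nat_lit 516150) (nat_lit 9) (.e (nat_lit 426294) (nat_lit 11) (.e (nat_lit 466688) (nat_lit 21) (.e (nat_lit 516116) (nat_lit 1) (.e (nat_lit 164312) (nat_lit 226) (.e (nat_lit 7936) (nat_lit 89) .nil))))))) (.g (nat_lit 6) .nil .nil)))))))))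

noncomputable def tv2646 : DT := (.nd (nat_lit 0) (.nd (nat_lit 1) (.nd (nat_lit 2) (.nd (nat_lit 3) (.nd (nat_lit 4) (.nd (nat_lit 5) 
(.lf (nat_lit 200256) (.g (nat_lit 2056) (.e (nat_lit 73746) (nat_lit 3) (.e (nat_lit 516150) (nat_lit 9) (.e (nat_lit 426294) (nat_lit 11) (.e (nat_lit 466688) (nat_lit 21) (.e (nat_lit 516117) (nat_lit 1) (.e (nat_lit 164304) (nat_lit 226) (.e (nat_lit 7936) (nat_lit 89) .nil))))))) (.g (nat_lit 5) .nil .nil))) 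
(.lf (nat_lit 200288) (.g (nat_lit 2793) (.e (nat_lit 73746) (nat_lit 3) (.e (nat_lit 516160) (nat_lit 10) (.e (nat_lit 434275) (nat_lit 39) (.e (nat_lit 663580) (nat_lit 9) (.e (nat_lit 2663) (nat_lit 167) (.e (nat_lit 196651) (nat_lit 10) (.e (nat_lit 16128) (nat_lit 196) .nil))))))) (.g (nat_lit 4) .nil .nil)))) (.nd (nat_lit 5) 
(.lf (nat_lit 200272) (.g (nat_lit 4910) (.e (nat_lit 73746) (nat_lit 3) (.e (nat_lit 516151) (nat_lit 9) (.e (nat_lit 426211) (nat_lit 9) (.e (nat_lit 426125) (nat_lit 2) (.e (nat_lit 196686) (nat_lit 18) (.e (nat_lit 1117) (nat_lit 82) (.e (nat_lit 8413) (nat_lit 132) (.e (nat_lit 1214) (nat_lit 89) .nil)))))))) (.g (nat_lit 4) .nil .nil))) 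
(.lf (nat_lit 200304) (.g (nat_lit 1745) (.e (nat_lit 73746) (nat_lit 3) (.e (nat_lit 516165) (nat_lit 12) (.e (nat_lit 458496) (nat_lit 3) (.e (nat_lit 516117) (nat_lit 1) (.e (nat_lit 164312) (nat_lit 226) (.e (nat_lit 7936) (nat_lit 89) .nil)))))) (.g (nat_lit 5) .nil .nil))))) (.nd (nat_lit 4) (.nd (nat_lit 5) 
(.lf (nat_lit 200264) (.g (nat_lit 1168) (.e (nat_lit 73746) (nat_lit 3) (.e (nat_lit 516150) (nat_lit 9) (.e (nat_lit 426320) (nat_lit 12) (.e (nat_lit 483072) (nat_lit 26) .nil)))) .nil)) 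
(.lf (nat_lit 200296) (.g (nat_lit 1323) (.e (nat_lit 73746) (nat_lit 3) (.e (nat_lit 516165) (nat_lit 12) (.e (nat_lit 458496) (nat_lit 3) (.e (nat_lit 516115) (nat_lit 1) (.e (nat_lit 164300) (nat_lit 226) (.e (nat_lit 7936) (nat_lit 89) .nil)))))) (.g (nat_lit 4) .nil .nil)))) (.nd (nat_lit 5) 
(.lf (nat_lit 200280) (.g (nat_lit 3801) (.e (nat_lit 73746) (nat_lit 3) (.e (nat_lit 516151) (nat_lit 9) (.e (nat_lit 426286) (nat_lit 10) (.e (nat_lit 434248) (nat_lit 28) .nil)))) .nil)) 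
(.lf (nat_lit 200312) (.g (nat_lit 2936) (.e (nat_lit 73746) (nat_lit 3) (.e (nat_lit 516165) (nat_lit 12) (.e (nat_lit 450579) (nat_lit 5) (.e (nat_lit 532501) (nat_lit 1) (.e (nat_lit 57766) (nat_lit 221) (.e (nat_lit 7936) (nat_lit 89) .nil)))))) (.g (nat_lit 5) .nil .nil)))))) (.nd (nat_lit 3) (.nd (nat_lit 4) (.nd (nat_lit 5) 
(.lf (nat_lit 200260) (.g (nat_lit 1957) (.e (nat_lit 73746) (nat_lit 3) (.e (nat_lit 516150) (nat_lit 9) (.e (nat_lit 426294) (nat_lit 11) (.e (nat_lit 466688) (nat_lit 21) (.e (nat_lit 516120) (nat_lit 1) (.e (nat_lit 164305) (nat_lit 226) (.e (nat_lit 7936) (nat_lit 89) .nil))))))) (.g (nat_lit 5) .nil .nil))) 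
(.lf (nat_lit 200292) (.g (nat_lit 2587) (.e (nat_lit 73746) (nat_lit 3) (.e (nat_lit 516160) (nat_lit 10) (.e (nat_lit 434276) (nat_lit 39) (.e (nat_lit 663580) (nat_lit 9) (.e (nat_lit 2663) (nat_lit 167) (.e (nat_lit 196649) (nat_lit 10) (.e (nat_lit 16128) (nat_lit 196) .nil))))))) (.g (nat_lit 4) .nil .nil)))) (.nd (nat_lit 5) 
(.lf (nat_lit 200276) (.g (nat_lit 3878) (.e (nat_lit 73746) (nat_lit 3) (.e (nat_lit 516151) (nat_lit 9) (.e (nat_lit 426286) (nat_lit 10) (.e (nat_lit 434242) (nat_lit 28) .nil)))) .nil)) 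
(.lf (nat_lit 200308) (.g (nat_lit 494) (.e (nat_lit 73746) (nat_lit 3) (.e (nat_lit 516165) (nat_lit 12) (.e (nat_lit 450579) (nat_lit 5) .nil))) .nil)))) (.nd (nat_lit 4) (.nd (nat_lit 5) 
(.lf (nat_lit 200268) (.g (nat_lit 5202) (.e (nat_lit 73746) (nat_lit 3) (.e (nat_lit 516151) (nat_lit 9) (.e (nat_lit 426211) (nat_lit 9) (.e (nat_lit 426125) (nat_lit 2) (.e (nat_lit 196615) (nat_lit 0) (.e (nat_lit 60) (nat_lit 0) (.e (nat_lit 2030) (nat_lit 140) (.e (nat_lit 688180) (nat_lit 17) .nil)))))))) (.g (nat_lit 4) .nil .nil))) 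
(.lf (nat_lit 200300) (.g (nat_lit 1629) (.e (nat_lit 73746) (nat_lit 3) (.e (nat_lit 516165) (nat_lit 12) (.e (nat_lit 458496) (nat_lit 3) (.e (nat_lit 516116) (nat_lit 1) (.e (nat_lit 164307) (nat_lit 226) (.e (nat_lit 7936) (nat_lit 89) .nil)))))) (.g (nat_lit 4) .nil .nil)))) (.nd (nat_lit 5) 
(.lf (nat_lit 200284) (.g (nat_lit 2041) (.e (nat_lit 73746) (nat_lit 3) (.e (nat_lit 516159) (nat_lit 10) (.e (nat_lit 434275) (nat_lit 39) (.e (nat_lit 663580) (nat_lit 9) (.e (nat_lit 2666) (nat_lit 167) (.e (nat_lit 196651) (nat_lit 10) (.e (nat_lit 16128) (nat_lit 196) .nil))))))) (.g (nat_lit 4) .nil .nil))) 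
(.lf (nat_lit 200316) (.g (nat_lit 2662) (.e (nat_lit 73746) (nat_lit 3) (.e (nat_lit 516165) (nat_lit 12) (.e (nat_lit 450579) (nat_lit 5) (.e (nat_lit 532503) (nat_lit 1) (.e (nat_lit 65280) (nat_lit 221) (.e (nat_lit 1207) (nat_lit 89) .nil)))))) (.g (nat_lit 4) .nil .nil))))))) (.nd (nat_lit 2) (.nd (nat_lit 3) (.nd (nat_lit 4) (.nd (nat_lit 5) 
(.lf (nat_lit 200258) (.g (nat_lit 2114) (.e (nat_lit 73746) (nat_lit 3) (.e (nat_lit 516150) (nat_lit 9) (.e (nat_lit 426294) (nat_lit 11) (.e (nat_lit 466688) (nat_lit 21) (.e (nat_lit 516118) (nat_lit 1) (.e (nat_lit 164307) (nat_lit 226) (.e (nat_lit 7936) (nat_lit 89) .nil))))))) (.g (nat_lit 6) .nil .nil))) 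
(.lf (nat_lit 200290) (.g (nat_lit 3373) (.e (nat_lit 73746) (nat_lit 3) (.e (nat_lit 516160) (nat_lit 10) (.e (nat_lit 434275) (nat_lit 39) (.e (nat_lit 663580) (nat_lit 9) (.e (nat_lit 2667) (nat_lit 167) (.e (nat_lit 196649) (nat_lit 10) (.e (nat_lit 16128) (nat_lit 196) .nil))))))) (.g (nat_lit 4) .nil .nil)))) (.nd (nat_lit 5) 
(.lf (nat_lit 200274) (.g (nat_lit 3052) (.e (nat_lit 73746) (nat_lit 3) (.e (nat_lit 516151) (nat_lit 9) (.e (nat_lit 426211) (nat_lit 9) (.e (nat_lit 426140) (nat_lit 3) .nil)))) .nil)) 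
(.lf (nat_lit 200306) (.g (nat_lit 2066) (.e (nat_lit 73746) (nat_lit 3) (.e (nat_lit 516165) (nat_lit 12) (.e (nat_lit 458496) (nat_lit 3) (.e (nat_lit 516120) (nat_lit 1) (.e (nat_lit 164305) (nat_lit 226) (.e (nat_lit 7936) (nat_lit 89) .nil)))))) (.g (nat_lit 5) .nil .nil))))) (.nd (nat_lit 4) (.nd (nat_lit 5) 
(.lf (nat_lit 200266) (.g (nat_lit 1297) (.e (nat_lit 73746) (nat_lit 3) (.e (nat_lit 516151) (nat_lit 9) (.e (nat_lit 426170) (nat_lit 7) .nil))) .nil)) 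
(.lf (nat_lit 200298) (.g (nat_lit 1906) (.e (nat_lit 73746) (nat_lit 3) (.e (nat_lit 516165) (nat_lit 12) (.e (nat_lit 458496) (nat_lit 3) (.e (nat_lit 516116) (nat_lit 1) (.e (nat_lit 164304) (nat_lit 226) (.e (nat_lit 7936) (nat_lit 89) .nil)))))) (.g (nat_lit 5) .nil .nil)))) (.nd (nat_lit 5) 
(.lf (nat_lit 200282) (.g (nat_lit 3869) (.e (nat_lit 73746) (nat_lit 3) (.e (nat_lit 516159) (nat_lit 10) (.e (nat_lit 434275) (nat_lit 39) (.e (nat_lit 663580) (nat_lit 9) (.e (nat_lit 2663) (nat_lit 167) (.e (nat_lit 196649) (nat_lit 10) (.e (nat_lit 16128) (nat_lit 196) .nil))))))) (.g (nat_lit 6) .nil .nil))) 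
(.lf (nat_lit 200314) (.g (nat_lit 2914) (.e (nat_lit 73746) (nat_lit 3) (.e (nat_lit 516165) (nat_lit 12) (.e (nat_lit 450579) (nat_lit 5) (.e (nat_lit 532501) (nat_lit 1) (.e (nat_lit 57767) (nat_lit 221) (.e (nat_lit 7936) (nat_lit 89) .nil)))))) (.g (nat_lit 5) .nil .nil)))))) (.nd (nat_lit 3) (.nd (nat_lit 4) (.nd (nat_lit 5) 
(.lf (nat_lit 200262) (.g (nat_lit 2059) (.e (nat_lit 73746) (nat_lit 3) (.e (nat_lit 516150) (nat_lit 9) (.e (nat_lit 426320) (nat_lit 12) (.e (nat_lit 475179) (nat_lit 24) (.e (nat_lit 516100) (nat_lit 0) .nil))))) .nil)) 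
(.lf (nat_lit 200294) (.g (nat_lit 2689) (.e (nat_lit 73746) (nat_lit 3) (.e (nat_lit 516161) (nat_lit 10) (.e (nat_lit 434276) (nat_lit 39) (.e (nat_lit 663580) (nat_lit 9) (.e (nat_lit 2663) (nat_lit 167) (.e (nat_lit 196649) (nat_lit 10) (.e (nat_lit 16128) (nat_lit 196) .nil))))))) (.g (nat_lit 5) .nil .nil)))) (.nd (nat_lit 5) 
(.lf (nat_lit 200278) (.g (nat_lit 4735) (.e (nat_lit 73746) (nat_lit 3) (.e (nat_lit 516151) (nat_lit 9) (.e (nat_lit 426286) (nat_lit 10) (.e (nat_lit 434245) (nat_lit 28) (.e (nat_lit 573474) (nat_lit 12) .nil))))) .nil)) 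
(.lf (nat_lit 200310) (.g (nat_lit 2787) (.e (nat_lit 73746) (nat_lit 3) (.e (nat_lit 516165) (nat_lit 12) (.e (nat_lit 450579) (nat_lit 5) (.e (nat_lit 532501) (nat_lit 1) (.e (nat_lit 57765) (nat_lit 221) (.e (nat_lit 7936) (nat_lit 89) .nil)))))) (.g (nat_lit 4) .nil .nil))))) (.nd (nat_lit 4) (.nd (nat_lit 5) 
(.lf (nat_lit 200270) (.g (nat_lit 4647) (.e (nat_lit 73746) (nat_lit 3) (.e (nat_lit 516151) (nat_lit 9) (.e (nat_lit 426211) (nat_lit 9) (.e (nat_lit 426125) (nat_lit 2) (.e (nat_lit 196686) (nat_lit 18) .nil))))) .nil)) 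
(.lf (nat_lit 200302) (.g (nat_lit 2106) (.e (nat_lit 73746) (nat_lit 3) (.e (nat_lit 516165) (nat_lit 12) (.e (nat_lit 458496) (nat_lit 3) (.e (nat_lit 516117) (nat_lit 1) (.e (nat_lit 164304) (nat_lit 226) (.e (nat_lit 7936) (nat_lit 89) .nil)))))) (.g (nat_lit 5) .nil .nil)))) (.nd (nat_lit 5) 
(.lf (nat_lit 200286) (.g (nat_lit 3230) (.e (nat_lit 73746) (nat_lit 3) (.e (nat_lit 516159) (nat_lit 10) (.e (nat_lit 434275) (nat_lit 39) (.e (nat_lit 663580) (nat_lit 9) (.e (nat_lit 2667) (nat_lit 167) (.e (nat_lit 196651) (nat_lit 10) (.e (nat_lit 16128) (nat_lit 196) .nil))))))) (.g (nat_lit 6) .nil .nil))) 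
(.lf (nat_lit 200318) (.g (nat_lit 3129) (.e (nat_lit 73746) (nat_lit 3) (.e (nat_lit 516165) (nat_lit 12) (.e (nat_lit 450579) (nat_lit 5) (.e (nat_lit 532504) (nat_lit 1) (.e (nat_lit 57766) (nat_lit 221) (.e (nat_lit 1208) (nat_lit 89) .nil)))))) (.g (nat_lit 4) .nil .nil)))))))) (.nd (nat_lit 1) (.nd (nat_lit 2) (.nd (nat_lit 3) (.nd (nat_lit 4) (.nd (nat_lit 5) 
(.lf (nat_lit 200257) (.g (nat_lit 2276) (.e (nat_lit 73746) (nat_lit 3) (.e (nat_lit 516150) (nat_lit 9) (.e (nat_lit 426294) (nat_lit 11) (.e (nat_lit 466688) (nat_lit 21) (.e (nat_lit 516117) (nat_lit 1) (.e (nat_lit 164305) (nat_lit 226) (.e (nat_lit 7936) (nat_lit 89) .nil))))))) (.g (nat_lit 5) .nil .nil))) 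
(.lf (nat_lit 200289) (.g (nat_lit 2505) (.e (nat_lit 73746) (nat_lit 3) (.e (nat_lit 516160) (nat_lit 10) (.e (nat_lit 434275) (nat_lit 39) (.e (nat_lit 663580) (nat_lit 9) (.e (nat_lit 2666) (nat_lit 167) .nil))))) .nil))) (.nd (nat_lit 5) 
(.lf (nat_lit 200273) (.g (nat_lit 4692) (.e (nat_lit 73746) (nat_lit 3) (.e (nat_lit 516151) (nat_lit 9) (.e (nat_lit 426211) (nat_lit 9) (.e (nat_lit 426125) (nat_lit 2) (.e (nat_lit 196686) (nat_lit 18) (.e (nat_lit 1118) (nat_lit 82) (.e (nat_lit 8413) (nat_lit 132) (.e (nat_lit 1214) (nat_lit 89) .nil)))))))) (.g (nat_lit 4) .nil .nil))) 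
(.lf (nat_lit 200305) (.g (nat_lit 2625) (.e (nat_lit 73746) (nat_lit 3) (.e (nat_lit 516165) (nat_lit 12) (.e (nat_lit 458496) (nat_lit 3) (.e (nat_lit 516120) (nat_lit 1) (.e (nat_lit 164304) (nat_lit 226) (.e (nat_lit 7936) (nat_lit 89) .nil)))))) (.g (nat_lit 5) .nil .nil))))) (.nd (nat_lit 4) (.nd (nat_lit 5) 
(.lf (nat_lit 200265) (.g (nat_lit 596) (.e (nat_lit 73746) (nat_lit 3) (.e (nat_lit 516150) (nat_lit 9) (.e (nat_lit 426448) (nat_lit 20) .nil))) .nil)) 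
(.lf (nat_lit 200297) (.g (nat_lit 1246) (.e (nat_lit 73746) (nat_lit 3) (.e (nat_lit 516165) (nat_lit 12) (.e (nat_lit 458496) (nat_lit 3) (.e (nat_lit 516115) (nat_lit 1) (.e (nat_lit 164307) (nat_lit 226) (.e (nat_lit 7936) (nat_lit 89) .nil)))))) (.g (nat_lit 4) .nil .nil)))) (.nd (nat_lit 5) 
(.lf (nat_lit 200281) (.g (nat_lit 4576) (.e (nat_lit 73746) (nat_lit 3) (.e (nat_lit 516151) (nat_lit 9) (.e (nat_lit 426286) (nat_lit 10) (.e (nat_lit 434248) (nat_lit 28) (.e (nat_lit 573475) (nat_lit 12) .nil))))) .nil)) 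
(.lf (nat_lit 200313) (.g (nat_lit 2757) (.e (nat_lit 73746) (nat_lit 3) (.e (nat_lit 516165) (nat_lit 12) (.e (nat_lit 450579) (nat_lit 5) (.e (nat_lit 532501) (nat_lit 1) (.e (nat_lit 57767) (nat_lit 221) (.e (nat_lit 1208) (nat_lit 89) .nil)))))) (.g (nat_lit 4) .nil .nil)))))) (.nd (nat_lit 3) (.nd (nat_lit 4) (.nd (nat_lit 5) 
(.lf (nat_lit 200261) (.g (nat_lit 2210) (.e (nat_lit 73746) (nat_lit 3) (.e (nat_lit 516150) (nat_lit 9) (.e (nat_lit 426294) (nat_lit 11) (.e (nat_lit 466688) (nat_lit 21) (.e (nat_lit 516120) (nat_lit 1) (.e (nat_lit 164312) (nat_lit 226) (.e (nat_lit 7936) (nat_lit 89) .nil))))))) (.g (nat_lit 5) .nil .nil))) 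
(.lf (nat_lit 200293) (.g (nat_lit 2588) (.e (nat_lit 73746) (nat_lit 3) (.e (nat_lit 516161) (nat_lit 10) (.e (nat_lit 434275) (nat_lit 39) (.e (nat_lit 663580) (nat_lit 9) (.e (nat_lit 2663) (nat_lit 167) (.e (nat_lit 196649) (nat_lit 10) (.e (nat_lit 16128) (nat_lit 196) .nil))))))) (.g (nat_lit 4) .nil .nil)))) (.nd (nat_lit 5) 
(.lf (nat_lit 200277) (.g (nat_lit 4047) (.e (nat_lit 73746) (nat_lit 3) (.e (nat_lit 516151) (nat_lit 9) (.e (nat_lit 426286) (nat_lit 10) (.e (nat_lit 434245) (nat_lit 28) .nil)))) .nil)) 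
(.lf (nat_lit 200309) (.g (nat_lit 1351) (.e (nat_lit 73746) (nat_lit 3) (.e (nat_lit 516165) (nat_lit 12) (.e (nat_lit 450579) (nat_lit 5) (.e (nat_lit 532499) (nat_lit 1) .nil)))) .nil)))) (.nd (nat_lit 4) (.nd (nat_lit 5) 
(.lf (nat_lit 200269) (.g (nat_lit 4904) (.e (nat_lit 73746) (nat_lit 3) (.e (nat_lit 516151) (nat_lit 9) (.e (nat_lit 426211) (nat_lit 9) (.e (nat_lit 426125) (nat_lit 2) (.e (nat_lit 196683) (nat_lit 18) .nil))))) .nil)) 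
(.lf (nat_lit 200301) (.g (nat_lit 1717) (.e (nat_lit 73746) (nat_lit 3) (.e (nat_lit 516165) (nat_lit 12) (.e (nat_lit 458496) (nat_lit 3) (.e (nat_lit 516116) (nat_lit 1) (.e (nat_lit 164312) (nat_lit 226) (.e (nat_lit 7936) (nat_lit 89) .nil)))))) (.g (nat_lit 5) .nil .nil)))) (.nd (nat_lit 5) 
(.lf (nat_lit 200285) (.g (nat_lit 3087) (.e (nat_lit 73746) (nat_lit 3) (.e (nat_lit 516159) (nat_lit 10) (.e (nat_lit 434275) (nat_lit 39) (.e (nat_lit 663580) (nat_lit 9) (.e (nat_lit 2667) (nat_lit 167) (.e (nat_lit 196649) (nat_lit 10) (.e (nat_lit 16128) (nat_lit 196) .nil))))))) (.g (nat_lit 6) .nil .nil))) 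
(.lf (nat_lit 200317) (.g (nat_lit 2958) (.e (nat_lit 73746) (nat_lit 3) (.e (nat_lit 516165) (nat_lit 12) (.e (nat_lit 450579) (nat_lit 5) (.e (nat_lit 532504) (nat_lit 1) (.e (nat_lit 57765) (nat_lit 221) (.e (nat_lit 7936) (nat_lit 89) .nil)))))) (.g (nat_lit 4) .nil .nil))))))) (.nd (nat_lit 2) (.nd (nat_lit 3) (.nd (nat_lit 4) (.nd (nat_lit 5) 
(.lf (nat_lit 200259) (.g (nat_lit 2516) (.e (nat_lit 73746) (nat_lit 3) (.e (nat_lit 516150) (nat_lit 9) (.e (nat_lit 426294) (nat_lit 11) (.e (nat_lit 466688) (nat_lit 21) (.e (nat_lit 516120) (nat_lit 1) (.e (nat_lit 164304) (nat_lit 226) (.e (nat_lit 7936) (nat_lit 89) .nil))))))) (.g (nat_lit 5) .nil .nil))) 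
(.lf (nat_lit 200291) (.g (nat_lit 3516) (.e (nat_lit 73746) (nat_lit 3) (.e (nat_lit 516160) (nat_lit 10) (.e (nat_lit 434275) (nat_lit 39) (.e (nat_lit 663580) (nat_lit 9) (.e (nat_lit 2667) (nat_lit 167) (.e (nat_lit 196651) (nat_lit 10) (.e (nat_lit 16128) (nat_lit 196) .nil))))))) (.g (nat_lit 5) .nil .nil)))) (.nd (nat_lit 5) 
(.lf (nat_lit 200275) (.g (nat_lit 1282) (.e (nat_lit 73746) (nat_lit 3) (.e (nat_lit 516151) (nat_lit 9) (.e (nat_lit 426285) (nat_lit 10) .nil))) .nil)) 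
(.lf (nat_lit 200307) (.g (nat_lit 2319) (.e (nat_lit 73746) (nat_lit 3) (.e (nat_lit 516165) (nat_lit 12) (.e (nat_lit 458496) (nat_lit 3) (.e (nat_lit 516120) (nat_lit 1) (.e (nat_lit 164312) (nat_lit 226) (.e (nat_lit 7936) (nat_lit 89) .nil)))))) (.g (nat_lit 5) .nil .nil))))) (.nd (nat_lit 4) (.nd (nat_lit 5) 
(.lf (nat_lit 200267) (.g (nat_lit 3006) (.e (nat_lit 73746) (nat_lit 3) (.e (nat_lit 516151) (nat_lit 9) (.e (nat_lit 426211) (nat_lit 9) (.e (nat_lit 426125) (nat_lit 2) .nil)))) .nil)) 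
(.lf (nat_lit 200299) (.g (nat_lit 1934) (.e (nat_lit 73746) (nat_lit 3) (.e (nat_lit 516165) (nat_lit 12) (.e (nat_lit 458496) (nat_lit 3) (.e (nat_lit 516116) (nat_lit 1) (.e (nat_lit 164305) (nat_lit 226) (.e (nat_lit 7936) (nat_lit 89) .nil)))))) (.g (nat_lit 5) .nil .nil)))) (.nd (nat_lit 5) 
(.lf (nat_lit 200283) (.g (nat_lit 2534) (.e (nat_lit 73746) (nat_lit 3) (.e (nat_lit 516159) (nat_lit 10) (.e (nat_lit 434275) (nat_lit 39) (.e (nat_lit 663580) (nat_lit 9) (.e (nat_lit 2663) (nat_lit 167) (.e (nat_lit 196651) (nat_lit 10) (.e (nat_lit 16128) (nat_lit 196) .nil))))))) (.g (nat_lit 4) .nil .nil))) 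
(.lf (nat_lit 200315) (.g (nat_lit 1177) (.e (nat_lit 73746) (nat_lit 3) (.e (nat_lit 516165) (nat_lit 12) (.e (nat_lit 450579) (nat_lit 5) (.e (nat_lit 532503) (nat_lit 1) .nil)))) .nil))))) (.nd (nat_lit 3) (.nd (nat_lit 4) (.nd (nat_lit 5) 
(.lf (nat_lit 200263) (.g (nat_lit 1989) (.e (nat_lit 73746) (nat_lit 3) (.e (nat_lit 516150) (nat_lit 9) (.e (nat_lit 426320) (nat_lit 12) (.e (nat_lit 475179) (nat_lit 24) (.e (nat_lit 516102) (nat_lit 0) .nil))))) .nil)) 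
(.lf (nat_lit 200295) (.g (nat_lit 1464) (.e (nat_lit 73746) (nat_lit 3) (.e (nat_lit 516163) (nat_lit 11) (.e (nat_lit 442424) (nat_lit 22) (.e (nat_lit 196661) (nat_lit 12) .nil)))) .nil))) (.nd (nat_lit 5) 
(.lf (nat_lit 200279) (.g (nat_lit 3807) (.e (nat_lit 73746) (nat_lit 3) (.e (nat_lit 516151) (nat_lit 9) (.e (nat_lit 426286) (nat_lit 10) (.e (nat_lit 434247) (nat_lit 28) .nil)))) .nil)) 
(.lf (nat_lit 200311) (.g (nat_lit 2864) (.e (nat_lit 73746) (nat_lit 3) (.e (nat_lit 516165) (nat_lit 12) (.e (nat_lit 450579) (nat_lit 5) (.e (nat_lit 532501) (nat_lit 1) (.e (nat_lit 57766) (nat_lit 221) (.e (nat_lit 1208) (nat_lit 89) .nil)))))) (.g (nat_lit 4) .nil .nil))))) (.nd (nat_lit 4) (.nd (nat_lit 5) 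
(.lf (nat_lit 200271) (.g (nat_lit 4732) (.e (nat_lit 73746) (nat_lit 3) (.e (nat_lit 516151) (nat_lit 9) (.e (nat_lit 426211) (nat_lit 9) (.e (nat_lit 426125) (nat_lit 2) (.e (nat_lit 196686) (nat_lit 18) (.e (nat_lit 1116) (nat_lit 82) (.e (nat_lit 8413) (nat_lit 132) (.e (nat_lit 1214) (nat_lit 89) .nil)))))))) (.g (nat_lit 4) .nil .nil))) 
(.lf (nat_lit 200303) (.g (nat_lit 2326) (.e (nat_lit 73746) (nat_lit 3) (.e (nat_lit 516165) (nat_lit 12) (.e (nat_lit 458496) (nat_lit 3) (.e (nat_lit 516117) (nat_lit 1) (.e (nat_lit 164305) (nat_lit 226) (.e (nat_lit 7936) (nat_lit 89) .nil)))))) (.g (nat_lit 5) .nil .nil)))) (.nd (nat_lit 5) 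
(.lf (nat_lit 200287) (.g (nat_lit 4128) (.e (nat_lit 73746) (nat_lit 3) (.e (nat_lit 516160) (nat_lit 10) (.e (nat_lit 434275) (nat_lit 39) (.e (nat_lit 663580) (nat_lit 9) (.e (nat_lit 2663) (nat_lit 167) (.e (nat_lit 196649) (nat_lit 10) (.e (nat_lit 16128) (nat_lit 196) .nil))))))) (.g (nat_lit 6) .nil .nil))) 
(.lf (nat_lit 200319) (.g (nat_lit 3225) (.e (nat_lit 73746) (nat_lit 3) (.e (nat_lit 516165) (nat_lit 12) (.e (nat_lit 450579) (nat_lit 5) (.e (nat_lit 532504) (nat_lit 1) (.e (nat_lit 57766) (nat_lit 221) (.e (nat_lit 7936) (nat_lit 89) .nil)))))) (.g (nat_lit 4) .nil .nil)))))))))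

noncomputable def tv2647 : DT := (.nd (nat_lit 0) (.nd (nat_lit 1) (.nd (nat_lit 2) (.nd (nat_lit 3) (.nd (nat_lit 4) (.nd (nat_lit 5) (.nd (nat_lit 6) 
(.lf (nat_lit 200320) (.g (nat_lit 1830) (.e (nat_lit 73746) (nat_lit 3) (.e (nat_lit 516165) (nat_lit 12) (.e (nat_lit 450586) (nat_lit 10) (.e (nat_lit 573449) (nat_lit 9) .nil)))) .nil)) 
(.lf (nat_lit 200384) (.g (nat_lit 2181) (.e (nat_lit 73746) (nat_lit 3) (.e (nat_lit 516166) (nat_lit 12) (.e (nat_lit 458496) (nat_lit 3) (.e (nat_lit 516120) (nat_lit 1) (.e (nat_lit 164304) (nat_lit 226) .nil))))) .nil))) (.nd (nat_lit 6) 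
(.lf (nat_lit 200352) (.g (nat_lit 2221) (.e (nat_lit 73746) (nat_lit 3) (.e (nat_lit 516165) (nat_lit 12) (.e (nat_lit 450587) (nat_lit 10) (.e (nat_lit 573478) (nat_lit 12) (.e (nat_lit 57568) (nat_lit 53) (.e (nat_lit 769792) (nat_lit 9) .nil)))))) (.g (nat_lit 5) .nil .nil))) 
(.lf (nat_lit 200416) (.g (nat_lit 4333) (.e (nat_lit 73746) (nat_lit 3) (.e (nat_lit 516167) (nat_lit 12) (.e (nat_lit 450586) (nat_lit 10) (.e (nat_lit 573474) (nat_lit 12) (.e (nat_lit 57572) (nat_lit 54) (.e (nat_lit 770073) (nat_lit 9) .nil)))))) (.g (nat_lit 4) .nil .nil))))) (.nd (nat_lit 5) (.nd (nat_lit 6) 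
(.lf (nat_lit 200336) (.g (nat_lit 3111) (.e (nat_lit 73746) (nat_lit 3) (.e (nat_lit 516165) (nat_lit 12) (.e (nat_lit 450586) (nat_lit 10) (.e (nat_lit 573475) (nat_lit 12) (.e (nat_lit 57354) (nat_lit 0) (.e (nat_lit 7147) (nat_lit 382) (.e (nat_lit 1206) (nat_lit 89) .nil))))))) (.g (nat_lit 4) .nil .nil))) 
(.lf (nat_lit 200400) (.g (nat_lit 2521) (.e (nat_lit 73746) (nat_lit 3) (.e (nat_lit 516166) (nat_lit 12) (.e (nat_lit 450588) (nat_lit 10) (.e (nat_lit 573473) (nat_lit 12) .nil)))) .nil))) (.nd (nat_lit 6) 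
(.lf (nat_lit 200368) (.g (nat_lit 3424) (.e (nat_lit 73746) (nat_lit 3) (.e (nat_lit 516165) (nat_lit 12) (.e (nat_lit 450588) (nat_lit 10) (.e (nat_lit 573475) (nat_lit 12) (.e (nat_lit 57348) (nat_lit 0) (.e (nat_lit 7119) (nat_lit 382) (.e (nat_lit 1214) (nat_lit 89) .nil))))))) (.g (nat_lit 4) .nil .nil))) 
(.lf (nat_lit 200432) (.g (nat_lit 1710) (.e (nat_lit 73746) (nat_lit 3) (.e (nat_lit 516174) (nat_lit 14) (.e (nat_lit 474880) (nat_lit 3) (.e (nat_lit 98319) (nat_lit 17) (.e (nat_lit 3605) (nat_lit 225) (.e (nat_lit 769792) (nat_lit 9) .nil)))))) (.g (nat_lit 5) .nil .nil)))))) (.nd (nat_lit 4) (.nd (nat_lit 5) (.nd (nat_lit 6) 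
(.lf (nat_lit 200328) (.g (nat_lit 3097) (.e (nat_lit 73746) (nat_lit 3) (.e (nat_lit 516165) (nat_lit 12) (.e (nat_lit 450586) (nat_lit 10) (.e (nat_lit 573475) (nat_lit 12) (.e (nat_lit 57347) (nat_lit 0) (.e (nat_lit 7122) (nat_lit 382) (.e (nat_lit 1214) (nat_lit 89) .nil))))))) (.g (nat_lit 4) .nil .nil))) 
(.lf (nat_lit 200392) (.g (nat_lit 3341) (.e (nat_lit 73746) (nat_lit 3) (.e (nat_lit 516166) (nat_lit 12) (.e (nat_lit 450587) (nat_lit 10) (.e (nat_lit 573477) (nat_lit 12) (.e (nat_lit 57357) (nat_lit 0) .nil))))) .nil))) (.nd (nat_lit 6) 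
(.lf (nat_lit 200360) (.g (nat_lit 3832) (.e (nat_lit 73746) (nat_lit 3) (.e (nat_lit 516165) (nat_lit 12) (.e (nat_lit 450588) (nat_lit 10) (.e (nat_lit 573473) (nat_lit 12) (.e (nat_lit 57354) (nat_lit 0) (.e (nat_lit 7147) (nat_lit 382) (.e (nat_lit 1206) (nat_lit 89) .nil))))))) (.g (nat_lit 4) .nil .nil))) 
(.lf (nat_lit 200424) (.g (nat_lit 3128) (.e (nat_lit 73746) (nat_lit 3) (.e (nat_lit 516171) (nat_lit 13) (.e (nat_lit 458774) (nat_lit 18) (.e (nat_lit 5964) (nat_lit 324) (.e (nat_lit 163867) (nat_lit 2) (.e (nat_lit 196651) (nat_lit 10) (.e (nat_lit 16128) (nat_lit 196) .nil))))))) (.g (nat_lit 6) .nil .nil))))) (.nd (nat_lit 5) (.nd (nat_lit 6) 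
(.lf (nat_lit 200344) (.g (nat_lit 1677) (.e (nat_lit 73746) (nat_lit 3) (.e (nat_lit 516165) (nat_lit 12) (.e (nat_lit 450586) (nat_lit 10) (.e (nat_lit 573478) (nat_lit 12) .nil)))) .nil)) 
(.lf (nat_lit 200408) (.g (nat_lit 3411) (.e (nat_lit 73746) (nat_lit 3) (.e (nat_lit 516166) (nat_lit 12) (.e (nat_lit 450588) (nat_lit 10) (.e (nat_lit 573475) (nat_lit 12) (.e (nat_lit 57348) (nat_lit 0) .nil))))) .nil))) (.nd (nat_lit 6) 
(.lf (nat_lit 200376) (.g (nat_lit 4957) (.e (nat_lit 73746) (nat_lit 3) (.e (nat_lit 516165) (nat_lit 12) (.e (nat_lit 450588) (nat_lit 10) (.e (nat_lit 573475) (nat_lit 12) (.e (nat_lit 57354) (nat_lit 0) (.e (nat_lit 7147) (nat_lit 382) (.e (nat_lit 1207) (nat_lit 89) .nil))))))) (.g (nat_lit 6) .nil .nil))) 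
(.lf (nat_lit 200440) (.g (nat_lit 1415) (.e (nat_lit 73746) (nat_lit 3) (.e (nat_lit 516174) (nat_lit 14) (.e (nat_lit 466974) (nat_lit 22) (.e (nat_lit 196658) (nat_lit 12) .nil)))) .nil)))))) (.nd (nat_lit 3) (.nd (nat_lit 4) (.nd (nat_lit 5) (.nd (nat_lit 6) 
(.lf (nat_lit 200324) (.g (nat_lit 2999) (.e (nat_lit 73746) (nat_lit 3) (.e (nat_lit 516165) (nat_lit 12) (.e (nat_lit 450586) (nat_lit 10) (.e (nat_lit 573473) (nat_lit 12) (.e (nat_lit 57354) (nat_lit 0) (.e (nat_lit 7147) (nat_lit 382) (.e (nat_lit 1206) (nat_lit 89) .nil))))))) (.g (nat_lit 4) .nil .nil))) 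
(.lf (nat_lit 200388) (.g (nat_lit 4150) (.e (nat_lit 73746) (nat_lit 3) (.e (nat_lit 516166) (nat_lit 12) (.e (nat_lit 450587) (nat_lit 10) (.e (nat_lit 573473) (nat_lit 12) .nil)))) .nil))) (.nd (nat_lit 6) 
(.lf (nat_lit 200356) (.g (nat_lit 3937) (.e (nat_lit 73746) (nat_lit 3) (.e (nat_lit 516165) (nat_lit 12) (.e (nat_lit 450588) (nat_lit 10) (.e (nat_lit 573473) (nat_lit 12) (.e (nat_lit 57348) (nat_lit 0) (.e (nat_lit 7119) (nat_lit 382) (.e (nat_lit 1214) (nat_lit 89) .nil))))))) (.g (nat_lit 4) .nil .nil))) 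
(.lf (nat_lit 200420) (.g (nat_lit 2544) (.e (nat_lit 73746) (nat_lit 3) (.e (nat_lit 516169) (nat_lit 13) (.e (nat_lit 458774) (nat_lit 18) (.e (nat_lit 5964) (nat_lit 324) (.e (nat_lit 163871) (nat_lit 2) (.e (nat_lit 196651) (nat_lit 10) (.e (nat_lit 16128) (nat_lit 196) .nil))))))) (.g (nat_lit 5) .nil .nil))))) (.nd (nat_lit 5) (.nd (nat_lit 6) 
(.lf (nat_lit 200340) (.g (nat_lit 3132) (.e (nat_lit 73746) (nat_lit 3) (.e (nat_lit 516165) (nat_lit 12) (.e (nat_lit 450586) (nat_lit 10) (.e (nat_lit 573475) (nat_lit 12) (.e (nat_lit 57568) (nat_lit 53) (.e (nat_lit 769792) (nat_lit 9) .nil)))))) (.g (nat_lit 5) .nil .nil))) 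
(.lf (nat_lit 200404) (.g (nat_lit 4012) (.e (nat_lit 73746) (nat_lit 3) (.e (nat_lit 516166) (nat_lit 12) (.e (nat_lit 450588) (nat_lit 10) (.e (nat_lit 573473) (nat_lit 12) (.e (nat_lit 57569) (nat_lit 53) (.e (nat_lit 769792) (nat_lit 9) .nil)))))) (.g (nat_lit 5) .nil .nil)))) (.nd (nat_lit 6) 
(.lf (nat_lit 200372) (.g (nat_lit 3680) (.e (nat_lit 73746) (nat_lit 3) (.e (nat_lit 516165) (nat_lit 12) (.e (nat_lit 450588) (nat_lit 10) (.e (nat_lit 573475) (nat_lit 12) (.e (nat_lit 57351) (nat_lit 0) (.e (nat_lit 7124) (nat_lit 382) (.e (nat_lit 1214) (nat_lit 89) .nil))))))) (.g (nat_lit 4) .nil .nil))) 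
(.lf (nat_lit 200436) (.g (nat_lit 1795) (.e (nat_lit 73746) (nat_lit 3) (.e (nat_lit 516174) (nat_lit 14) (.e (nat_lit 474880) (nat_lit 3) (.e (nat_lit 98333) (nat_lit 18) (.e (nat_lit 164222) (nat_lit 181) (.e (nat_lit 7936) (nat_lit 89) .nil)))))) (.g (nat_lit 5) .nil .nil)))))) (.nd (nat_lit 4) (.nd (nat_lit 5) (.nd (nat_lit 6) 
(.lf (nat_lit 200332) (.g (nat_lit 2443) (.e (nat_lit 73746) (nat_lit 3) (.e (nat_lit 516165) (nat_lit 12) (.e (nat_lit 450586) (nat_lit 10) (.e (nat_lit 573475) (nat_lit 12) (.e (nat_lit 57351) (nat_lit 0) .nil))))) .nil)) 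
(.lf (nat_lit 200396) (.g (nat_lit 4460) (.e (nat_lit 73746) (nat_lit 3) (.e (nat_lit 516166) (nat_lit 12) (.e (nat_lit 450588) (nat_lit 10) (.e (nat_lit 573449) (nat_lit 9) .nil)))) .nil))) (.nd (nat_lit 6) 
(.lf (nat_lit 200364) (.g (nat_lit 1748) (.e (nat_lit 73746) (nat_lit 3) (.e (nat_lit 516165) (nat_lit 12) (.e (nat_lit 450588) (nat_lit 10) (.e (nat_lit 573475) (nat_lit 12) .nil)))) .nil)) 
(.lf (nat_lit 200428) (.g (nat_lit 2597) (.e (nat_lit 73746) (nat_lit 3) (.e (nat_lit 516174) (nat_lit 14) (.e (nat_lit 466947) (nat_lit 0) (.e (nat_lit 1800) (nat_lit 119) (.e (nat_lit 516100) (nat_lit 0) (.e (nat_lit 3605) (nat_lit 225) (.e (nat_lit 769792) (nat_lit 9) .nil))))))) (.g (nat_lit 5) .nil .nil))))) (.nd (nat_lit 5) (.nd (nat_lit 6) 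
(.lf (nat_lit 200348) (.g (nat_lit 2408) (.e (nat_lit 73746) (nat_lit 3) (.e (nat_lit 516165) (nat_lit 12) (.e (nat_lit 450587) (nat_lit 10) (.e (nat_lit 573473) (nat_lit 12) .nil)))) .nil)) 
(.lf (nat_lit 200412) (.g (nat_lit 3733) (.e (nat_lit 73746) (nat_lit 3) (.e (nat_lit 516166) (nat_lit 12) (.e (nat_lit 450588) (nat_lit 10) (.e (nat_lit 573475) (nat_lit 12) (.e (nat_lit 57568) (nat_lit 53) (.e (nat_lit 769792) (nat_lit 9) .nil)))))) (.g (nat_lit 5) .nil .nil)))) (.nd (nat_lit 6) 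
(.lf (nat_lit 200380) (.g (nat_lit 3447) (.e (nat_lit 73746) (nat_lit 3) (.e (nat_lit 516165) (nat_lit 12) (.e (nat_lit 450588) (nat_lit 10) (.e (nat_lit 573475) (nat_lit 12) (.e (nat_lit 57569) (nat_lit 53) (.e (nat_lit 769792) (nat_lit 9) .nil)))))) (.g (nat_lit 4) .nil .nil))) 
(.lf (nat_lit 200444) (.g (nat_lit 643) (.e (nat_lit 73746) (nat_lit 3) (.e (nat_lit 516174) (nat_lit 14) (.e (nat_lit 466977) (nat_lit 22) .nil))) .nil))))))) (.nd (nat_lit 2) (.nd (nat_lit 3) (.nd (nat_lit 4) (.nd (nat_lit 5) (.nd (nat_lit 6) 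
(.lf (nat_lit 200322) (.g (nat_lit 3151) (.e (nat_lit 73746) (nat_lit 3) (.e (nat_lit 516165) (nat_lit 12) (.e (nat_lit 450586) (nat_lit 10) (.e (nat_lit 573473) (nat_lit 12) (.e (nat_lit 57348) (nat_lit 0) (.e (nat_lit 7119) (nat_lit 382) (.e (nat_lit 1214) (nat_lit 89) .nil))))))) (.g (nat_lit 4) .nil .nil))) 
(.lf (nat_lit 200386) (.g (nat_lit 3565) (.e (nat_lit 73746) (nat_lit 3) (.e (nat_lit 516166) (nat_lit 12) (.e (nat_lit 450585) (nat_lit 10) (.e (nat_lit 573474) (nat_lit 12) (.e (nat_lit 57347) (nat_lit 0) .nil))))) .nil))) (.nd (nat_lit 6) 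
(.lf (nat_lit 200354) (.g (nat_lit 1899) (.e (nat_lit 73746) (nat_lit 3) (.e (nat_lit 516165) (nat_lit 12) (.e (nat_lit 450588) (nat_lit 10) (.e (nat_lit 573473) (nat_lit 12) .nil)))) .nil)) 
(.lf (nat_lit 200418) (.g (nat_lit 2604) (.e (nat_lit 73746) (nat_lit 3) (.e (nat_lit 516169) (nat_lit 13) (.e (nat_lit 458774) (nat_lit 18) (.e (nat_lit 5224) (nat_lit 296) (.e (nat_lit 163868) (nat_lit 2) (.e (nat_lit 196691) (nat_lit 18) (.e (nat_lit 1008) (nat_lit 81) (.e (nat_lit 5412) (nat_lit 303) .nil)))))))) (.g (nat_lit 5) .nil .nil))))) (.nd (nat_lit 5) (.nd (nat_lit 6) 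
(.lf (nat_lit 200338) (.g (nat_lit 2465) (.e (nat_lit 73746) (nat_lit 3) (.e (nat_lit 516165) (nat_lit 12) (.e (nat_lit 450586) (nat_lit 10) (.e (nat_lit 573475) (nat_lit 12) (.e (nat_lit 57356) (nat_lit 0) .nil))))) .nil)) 
(.lf (nat_lit 200402) (.g (nat_lit 3552) (.e (nat_lit 73746) (nat_lit 3) (.e (nat_lit 516166) (nat_lit 12) (.e (nat_lit 450588) (nat_lit 10) (.e (nat_lit 573473) (nat_lit 12) (.e (nat_lit 57354) (nat_lit 0) (.e (nat_lit 7147) (nat_lit 382) (.e (nat_lit 1206) (nat_lit 89) .nil))))))) (.g (nat_lit 4) .nil .nil)))) (.nd (nat_lit 6) 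
(.lf (nat_lit 200370) (.g (nat_lit 3753) (.e (nat_lit 73746) (nat_lit 3) (.e (nat_lit 516165) (nat_lit 12) (.e (nat_lit 450588) (nat_lit 10) (.e (nat_lit 573475) (nat_lit 12) (.e (nat_lit 57348) (nat_lit 0) (.e (nat_lit 7124) (nat_lit 382) (.e (nat_lit 1214) (nat_lit 89) .nil))))))) (.g (nat_lit 4) .nil .nil))) 
(.lf (nat_lit 200434) (.g (nat_lit 1447) (.e (nat_lit 73746) (nat_lit 3) (.e (nat_lit 516174) (nat_lit 14) (.e (nat_lit 474880) (nat_lit 3) (.e (nat_lit 98325) (nat_lit 17) (.e (nat_lit 3597) (nat_lit 225) (.e (nat_lit 769792) (nat_lit 9) .nil)))))) (.g (nat_lit 5) .nil .nil)))))) (.nd (nat_lit 4) (.nd (nat_lit 5) (.nd (nat_lit 6) 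
(.lf (nat_lit 200330) (.g (nat_lit 2719) (.e (nat_lit 73746) (nat_lit 3) (.e (nat_lit 516165) (nat_lit 12) (.e (nat_lit 450586) (nat_lit 10) (.e (nat_lit 573475) (nat_lit 12) (.e (nat_lit 57348) (nat_lit 0) .nil))))) .nil)) 
(.lf (nat_lit 200394) (.g (nat_lit 2562) (.e (nat_lit 73746) (nat_lit 3) (.e (nat_lit 516166) (nat_lit 12) (.e (nat_lit 450587) (nat_lit 10) (.e (nat_lit 573478) (nat_lit 12) (.e (nat_lit 57356) (nat_lit 0) .nil))))) .nil))) (.nd (nat_lit 6) 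
(.lf (nat_lit 200362) (.g (nat_lit 3254) (.e (nat_lit 73746) (nat_lit 3) (.e (nat_lit 516165) (nat_lit 12) (.e (nat_lit 450588) (nat_lit 10) (.e (nat_lit 573474) (nat_lit 12) .nil)))) .nil)) 
(.lf (nat_lit 200426) (.g (nat_lit 2391) (.e (nat_lit 73746) (nat_lit 3) (.e (nat_lit 516172) (nat_lit 13) (.e (nat_lit 458772) (nat_lit 18) (.e (nat_lit 5968) (nat_lit 324) (.e (nat_lit 163871) (nat_lit 2) (.e (nat_lit 196651) (nat_lit 10) (.e (nat_lit 16128) (nat_lit 196) .nil))))))) (.g (nat_lit 6) .nil .nil))))) (.nd (nat_lit 5) (.nd (nat_lit 6) 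
(.lf (nat_lit 200346) (.g (nat_lit 2584) (.e (nat_lit 73746) (nat_lit 3) (.e (nat_lit 516165) (nat_lit 12) (.e (nat_lit 450586) (nat_lit 10) (.e (nat_lit 573478) (nat_lit 12) (.e (nat_lit 57568) (nat_lit 53) (.e (nat_lit 769792) (nat_lit 9) .nil)))))) (.g (nat_lit 4) .nil .nil))) 
(.lf (nat_lit 200410) (.g (nat_lit 4037) (.e (nat_lit 73746) (nat_lit 3) (.e (nat_lit 516166) (nat_lit 12) (.e (nat_lit 450588) (nat_lit 10) (.e (nat_lit 573475) (nat_lit 12) (.e (nat_lit 57354) (nat_lit 0) (.e (nat_lit 7147) (nat_lit 382) (.e (nat_lit 1206) (nat_lit 89) .nil))))))) (.g (nat_lit 5) .nil .nil)))) (.nd (nat_lit 6) 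
(.lf (nat_lit 200378) (.g (nat_lit 3762) (.e (nat_lit 73746) (nat_lit 3) (.e (nat_lit 516165) (nat_lit 12) (.e (nat_lit 450588) (nat_lit 10) (.e (nat_lit 573475) (nat_lit 12) (.e (nat_lit 57356) (nat_lit 0) (.e (nat_lit 7147) (nat_lit 382) (.e (nat_lit 1207) (nat_lit 89) .nil))))))) (.g (nat_lit 4) .nil .nil))) 
(.lf (nat_lit 200442) (.g (nat_lit 1087) (.e (nat_lit 73746) (nat_lit 3) (.e (nat_lit 516174) (nat_lit 14) (.e (nat_lit 466975) (nat_lit 22) (.e (nat_lit 196661) (nat_lit 12) (.e (nat_lit 57353) (nat_lit 0) (.e (nat_lit 4457) (nat_lit 263) (.e (nat_lit 7936) (nat_lit 89) .nil))))))) (.g (nat_lit 4) .nil .nil))))))) (.nd (nat_lit 3) (.nd (nat_lit 4) (.nd (nat_lit 5) (.nd (nat_lit 6) 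
(.lf (nat_lit 200326) (.g (nat_lit 2610) (.e (nat_lit 73746) (nat_lit 3) (.e (nat_lit 516165) (nat_lit 12) (.e (nat_lit 450586) (nat_lit 10) (.e (nat_lit 573473) (nat_lit 12) (.e (nat_lit 57571) (nat_lit 54) .nil))))) .nil)) 
(.lf (nat_lit 200390) (.g (nat_lit 2681) (.e (nat_lit 73746) (nat_lit 3) (.e (nat_lit 516166) (nat_lit 12) (.e (nat_lit 450587) (nat_lit 10) (.e (nat_lit 573477) (nat_lit 12) .nil)))) .nil))) (.nd (nat_lit 6) 
(.lf (nat_lit 200358) (.g (nat_lit 3371) (.e (nat_lit 73746) (nat_lit 3) (.e (nat_lit 516165) (nat_lit 12) (.e (nat_lit 450588) (nat_lit 10) (.e (nat_lit 573473) (nat_lit 12) (.e (nat_lit 57352) (nat_lit 0) (.e (nat_lit 7125) (nat_lit 382) (.e (nat_lit 1214) (nat_lit 89) .nil))))))) (.g (nat_lit 4) .nil .nil))) 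
(.lf (nat_lit 200422) (.g (nat_lit 2583) (.e (nat_lit 73746) (nat_lit 3) (.e (nat_lit 516171) (nat_lit 13) (.e (nat_lit 458772) (nat_lit 18) (.e (nat_lit 5968) (nat_lit 324) (.e (nat_lit 163871) (nat_lit 2) (.e (nat_lit 196651) (nat_lit 10) (.e (nat_lit 16128) (nat_lit 196) .nil))))))) (.g (nat_lit 6) .nil .nil))))) (.nd (nat_lit 5) (.nd (nat_lit 6) 
(.lf (nat_lit 200342) (.g (nat_lit 1598) (.e (nat_lit 73746) (nat_lit 3) (.e (nat_lit 516165) (nat_lit 12) (.e (nat_lit 450586) (nat_lit 10) (.e (nat_lit 573477) (nat_lit 12) .nil)))) .nil)) 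
(.lf (nat_lit 200406) (.g (nat_lit 2470) (.e (nat_lit 73746) (nat_lit 3) (.e (nat_lit 516166) (nat_lit 12) (.e (nat_lit 450588) (nat_lit 10) (.e (nat_lit 573475) (nat_lit 12) .nil)))) .nil))) (.nd (nat_lit 6) 
(.lf (nat_lit 200374) (.g (nat_lit 4177) (.e (nat_lit 73746) (nat_lit 3) (.e (nat_lit 516165) (nat_lit 12) (.e (nat_lit 450588) (nat_lit 10) (.e (nat_lit 573475) (nat_lit 12) (.e (nat_lit 57353) (nat_lit 0) (.e (nat_lit 7125) (nat_lit 382) (.e (nat_lit 1214) (nat_lit 89) .nil))))))) (.g (nat_lit 4) .nil .nil))) 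
(.lf (nat_lit 200438) (.g (nat_lit 622) (.e (nat_lit 73746) (nat_lit 3) (.e (nat_lit 516174) (nat_lit 14) (.e (nat_lit 466967) (nat_lit 20) .nil))) .nil))))) (.nd (nat_lit 4) (.nd (nat_lit 5) (.nd (nat_lit 6) 
(.lf (nat_lit 200334) (.g (nat_lit 2829) (.e (nat_lit 73746) (nat_lit 3) (.e (nat_lit 516165) (nat_lit 12) (.e (nat_lit 450586) (nat_lit 10) (.e (nat_lit 573475) (nat_lit 12) (.e (nat_lit 57353) (nat_lit 0) .nil))))) .nil)) 
(.lf (nat_lit 200398) (.g (nat_lit 4489) (.e (nat_lit 73746) (nat_lit 3) (.e (nat_lit 516166) (nat_lit 12) (.e (nat_lit 450588) (nat_lit 10) (.e (nat_lit 573452) (nat_lit 9) .nil)))) .nil))) (.nd (nat_lit 6) 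
(.lf (nat_lit 200366) (.g (nat_lit 3653) (.e (nat_lit 73746) (nat_lit 3) (.e (nat_lit 516165) (nat_lit 12) (.e (nat_lit 450588) (nat_lit 10) (.e (nat_lit 573475) (nat_lit 12) (.e (nat_lit 57347) (nat_lit 0) (.e (nat_lit 7119) (nat_lit 382) (.e (nat_lit 1214) (nat_lit 89) .nil))))))) (.g (nat_lit 4) .nil .nil))) 
(.lf (nat_lit 200430) (.g (nat_lit 1563) (.e (nat_lit 73746) (nat_lit 3) (.e (nat_lit 516174) (nat_lit 14) (.e (nat_lit 474880) (nat_lit 3) (.e (nat_lit 98318) (nat_lit 17) (.e (nat_lit 3605) (nat_lit 225) (.e (nat_lit 769792) (nat_lit 9) .nil)))))) (.g (nat_lit 5) .nil .nil))))) (.nd (nat_lit 5) (.nd (nat_lit 6) 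
(.lf (nat_lit 200350) (.g (nat_lit 1229) (.e (nat_lit 73746) (nat_lit 3) (.e (nat_lit 516165) (nat_lit 12) (.e (nat_lit 450587) (nat_lit 10) (.e (nat_lit 573477) (nat_lit 12) .nil)))) .nil)) 
(.lf (nat_lit 200414) (.g (nat_lit 5735) (.e (nat_lit 73746) (nat_lit 3) (.e (nat_lit 516166) (nat_lit 12) (.e (nat_lit 450588) (nat_lit 10) (.e (nat_lit 573494) (nat_lit 16) .nil)))) .nil))) (.nd (nat_lit 6) 
(.lf (nat_lit 200382) (.g (nat_lit 2923) (.e (nat_lit 73746) (nat_lit 3) (.e (nat_lit 516165) (nat_lit 12) (.e (nat_lit 450588) (nat_lit 10) (.e (nat_lit 573495) (nat_lit 16) .nil)))) .nil)) 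
(.lf (nat_lit 200446) (.g (nat_lit 545) (.e (nat_lit 73746) (nat_lit 3) (.e (nat_lit 516174) (nat_lit 14) (.e (nat_lit 466978) (nat_lit 23) (.e (nat_lit 212736) (nat_lit 1) .nil)))) .nil)))))))) (.nd (nat_lit 1) (.nd (nat_lit 2) (.nd (nat_lit 3) (.nd (nat_lit 4) (.nd (nat_lit 5) (.nd (nat_lit 6) 
(.lf (nat_lit 200321) (.g (nat_lit 1577) (.e (nat_lit 73746) (nat_lit 3) (.e (nat_lit 516165) (nat_lit 12) (.e (nat_lit 450586) (nat_lit 10) (.e (nat_lit 573473) (nat_lit 12) .nil)))) .nil)) 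
(.lf (nat_lit 200385) (.g (nat_lit 1113) (.e (nat_lit 73746) (nat_lit 3) (.e (nat_lit 516166) (nat_lit 12) (.e (nat_lit 450579) (nat_lit 5) .nil))) .nil))) (.nd (nat_lit 6) 
(.lf (nat_lit 200353) (.g (nat_lit 2397) (.e (nat_lit 73746) (nat_lit 3) (.e (nat_lit 516165) (nat_lit 12) (.e (nat_lit 450588) (nat_lit 10) (.e (nat_lit 573449) (nat_lit 9) .nil)))) .nil)) 
(.lf (nat_lit 200417) (.g (nat_lit 2858) (.e (nat_lit 73746) (nat_lit 3) (.e (nat_lit 516169) (nat_lit 13) (.e (nat_lit 458772) (nat_lit 18) (.e (nat_lit 5968) (nat_lit 324) (.e (nat_lit 163871) (nat_lit 2) (.e (nat_lit 196651) (nat_lit 10) (.e (nat_lit 16128) (nat_lit 196) .nil))))))) (.g (nat_lit 6) .nil .nil))))) (.nd (nat_lit 5) (.nd (nat_lit 6) 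
(.lf (nat_lit 200337) (.g (nat_lit 3941) (.e (nat_lit 73746) (nat_lit 3) (.e (nat_lit 516165) (nat_lit 12) (.e (nat_lit 450586) (nat_lit 10) (.e (nat_lit 573475) (nat_lit 12) (.e (nat_lit 57354) (nat_lit 0) (.e (nat_lit 7147) (nat_lit 382) (.e (nat_lit 1207) (nat_lit 89) .nil))))))) (.g (nat_lit 5) .nil .nil))) 
(.lf (nat_lit 200401) (.g (nat_lit 3865) (.e (nat_lit 73746) (nat_lit 3) (.e (nat_lit 516166) (nat_lit 12) (.e (nat_lit 450588) (nat_lit 10) (.e (nat_lit 573473) (nat_lit 12) (.e (nat_lit 57353) (nat_lit 0) (.e (nat_lit 7124) (nat_lit 382) (.e (nat_lit 1214) (nat_lit 89) .nil))))))) (.g (nat_lit 4) .nil .nil)))) (.nd (nat_lit 6) 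
(.lf (nat_lit 200369) (.g (nat_lit 3607) (.e (nat_lit 73746) (nat_lit 3) (.e (nat_lit 516165) (nat_lit 12) (.e (nat_lit 450588) (nat_lit 10) (.e (nat_lit 573475) (nat_lit 12) (.e (nat_lit 57348) (nat_lit 0) (.e (nat_lit 7122) (nat_lit 382) (.e (nat_lit 1214) (nat_lit 89) .nil))))))) (.g (nat_lit 4) .nil .nil))) 
(.lf (nat_lit 200433) (.g (nat_lit 1176) (.e (nat_lit 73746) (nat_lit 3) (.e (nat_lit 516174) (nat_lit 14) (.e (nat_lit 474880) (nat_lit 3) (.e (nat_lit 98324) (nat_lit 17) (.e (nat_lit 3603) (nat_lit 225) (.e (nat_lit 769792) (nat_lit 9) .nil)))))) (.g (nat_lit 5) .nil .nil)))))) (.nd (nat_lit 4) (.nd (nat_lit 5) (.nd (nat_lit 6) 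
(.lf (nat_lit 200329) (.g (nat_lit 5035) (.e (nat_lit 73746) (nat_lit 3) (.e (nat_lit 516165) (nat_lit 12) (.e (nat_lit 450586) (nat_lit 10) (.e (nat_lit 573475) (nat_lit 12) (.e (nat_lit 57347) (nat_lit 0) (.e (nat_lit 7125) (nat_lit 382) (.e (nat_lit 1214) (nat_lit 89) .nil))))))) (.g (nat_lit 6) .nil .nil))) 
(.lf (nat_lit 200393) (.g (nat_lit 2234) (.e (nat_lit 73746) (nat_lit 3) (.e (nat_lit 516166) (nat_lit 12) (.e (nat_lit 450587) (nat_lit 10) (.e (nat_lit 573478) (nat_lit 12) .nil)))) .nil))) (.nd (nat_lit 6) 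
(.lf (nat_lit 200361) (.g (nat_lit 4331) (.e (nat_lit 73746) (nat_lit 3) (.e (nat_lit 516165) (nat_lit 12) (.e (nat_lit 450588) (nat_lit 10) (.e (nat_lit 573473) (nat_lit 12) (.e (nat_lit 57569) (nat_lit 53) (.e (nat_lit 769792) (nat_lit 9) .nil)))))) (.g (nat_lit 5) .nil .nil))) 
(.lf (nat_lit 200425) (.g (nat_lit 2747) (.e (nat_lit 73746) (nat_lit 3) (.e (nat_lit 516171) (nat_lit 13) (.e (nat_lit 458774) (nat_lit 18) (.e (nat_lit 5964) (nat_lit 324) (.e (nat_lit 163871) (nat_lit 2) (.e (nat_lit 196651) (nat_lit 10) (.e (nat_lit 16128) (nat_lit 196) .nil))))))) (.g (nat_lit 5) .nil .nil))))) (.nd (nat_lit 5) (.nd (nat_lit 6) 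
(.lf (nat_lit 200345) (.g (nat_lit 1929) (.e (nat_lit 73746) (nat_lit 3) (.e (nat_lit 516165) (nat_lit 12) (.e (nat_lit 450586) (nat_lit 10) (.e (nat_lit 573478) (nat_lit 12) (.e (nat_lit 57356) (nat_lit 0) .nil))))) .nil)) 
(.lf (nat_lit 200409) (.g (nat_lit 4222) (.e (nat_lit 73746) (nat_lit 3) (.e (nat_lit 516166) (nat_lit 12) (.e (nat_lit 450588) (nat_lit 10) (.e (nat_lit 573475) (nat_lit 12) (.e (nat_lit 57353) (nat_lit 0) (.e (nat_lit 7125) (nat_lit 382) (.e (nat_lit 1214) (nat_lit 89) .nil))))))) (.g (nat_lit 4) .nil .nil)))) (.nd (nat_lit 6) 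
(.lf (nat_lit 200377) (.g (nat_lit 3088) (.e (nat_lit 73746) (nat_lit 3) (.e (nat_lit 516165) (nat_lit 12) (.e (nat_lit 450588) (nat_lit 10) (.e (nat_lit 573475) (nat_lit 12) (.e (nat_lit 57356) (nat_lit 0) .nil))))) .nil)) 
(.lf (nat_lit 200441) (.g (nat_lit 412) (.e (nat_lit 73746) (nat_lit 3) (.e (nat_lit 516174) (nat_lit 14) (.e (nat_lit 466975) (nat_lit 22) .nil))) .nil)))))) (.nd (nat_lit 3) (.nd (nat_lit 4) (.nd (nat_lit 5) (.nd (nat_lit 6) 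
(.lf (nat_lit 200325) (.g (nat_lit 3368) (.e (nat_lit 73746) (nat_lit 3) (.e (nat_lit 516165) (nat_lit 12) (.e (nat_lit 450586) (nat_lit 10) (.e (nat_lit 573473) (nat_lit 12) (.e (nat_lit 57569) (nat_lit 53) (.e (nat_lit 769792) (nat_lit 9) .nil)))))) (.g (nat_lit 5) .nil .nil))) 
(.lf (nat_lit 200389) (.g (nat_lit 4143) (.e (nat_lit 73746) (nat_lit 3) (.e (nat_lit 516166) (nat_lit 12) (.e (nat_lit 450587) (nat_lit 10) (.e (nat_lit 573475) (nat_lit 12) .nil)))) .nil))) (.nd (nat_lit 6) 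
(.lf (nat_lit 200357) (.g (nat_lit 3208) (.e (nat_lit 73746) (nat_lit 3) (.e (nat_lit 516165) (nat_lit 12) (.e (nat_lit 450588) (nat_lit 10) (.e (nat_lit 573473) (nat_lit 12) (.e (nat_lit 57352) (nat_lit 0) .nil))))) .nil)) 
(.lf (nat_lit 200421) (.g (nat_lit 2699) (.e (nat_lit 73746) (nat_lit 3) (.e (nat_lit 516171) (nat_lit 13) (.e (nat_lit 458771) (nat_lit 18) (.e (nat_lit 5968) (nat_lit 324) (.e (nat_lit 163868) (nat_lit 2) (.e (nat_lit 196651) (nat_lit 10) (.e (nat_lit 16128) (nat_lit 196) .nil))))))) (.g (nat_lit 5) .nil .nil))))) (.nd (nat_lit 5) (.nd (nat_lit 6) 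
(.lf (nat_lit 200341) (.g (nat_lit 2817) (.e (nat_lit 73746) (nat_lit 3) (.e (nat_lit 516165) (nat_lit 12) (.e (nat_lit 450586) (nat_lit 10) (.e (nat_lit 573475) (nat_lit 12) (.e (nat_lit 57569) (nat_lit 53) .nil))))) .nil)) 
(.lf (nat_lit 200405) (.g (nat_lit 4862) (.e (nat_lit 73746) (nat_lit 3) (.e (nat_lit 516166) (nat_lit 12) (.e (nat_lit 450588) (nat_lit 10) (.e (nat_lit 573474) (nat_lit 12) .nil)))) .nil))) (.nd (nat_lit 6) 
(.lf (nat_lit 200373) (.g (nat_lit 3444) (.e (nat_lit 73746) (nat_lit 3) (.e (nat_lit 516165) (nat_lit 12) (.e (nat_lit 450588) (nat_lit 10) (.e (nat_lit 573475) (nat_lit 12) (.e (nat_lit 57353) (nat_lit 0) .nil))))) .nil)) 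
(.lf (nat_lit 200437) (.g (nat_lit 1189) (.e (nat_lit 73746) (nat_lit 3) (.e (nat_lit 516174) (nat_lit 14) (.e (nat_lit 474880) (nat_lit 3) (.e (nat_lit 98335) (nat_lit 18) (.e (nat_lit 164222) (nat_lit 181) (.e (nat_lit 7936) (nat_lit 89) .nil)))))) (.g (nat_lit 4) .nil .nil)))))) (.nd (nat_lit 4) (.nd (nat_lit 5) (.nd (nat_lit 6) 
(.lf (nat_lit 200333) (.g (nat_lit 3070) (.e (nat_lit 73746) (nat_lit 3) (.e (nat_lit 516165) (nat_lit 12) (.e (nat_lit 450586) (nat_lit 10) (.e (nat_lit 573475) (nat_lit 12) (.e (nat_lit 57351) (nat_lit 0) (.e (nat_lit 7124) (nat_lit 382) (.e (nat_lit 1214) (nat_lit 89) .nil))))))) (.g (nat_lit 4) .nil .nil))) 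
(.lf (nat_lit 200397) (.g (nat_lit 5215) (.e (nat_lit 73746) (nat_lit 3) (.e (nat_lit 516166) (nat_lit 12) (.e (nat_lit 450588) (nat_lit 10) (.e (nat_lit 573451) (nat_lit 9) .nil)))) .nil))) (.nd (nat_lit 6) 
(.lf (nat_lit 200365) (.g (nat_lit 3336) (.e (nat_lit 73746) (nat_lit 3) (.e (nat_lit 516165) (nat_lit 12) (.e (nat_lit 450588) (nat_lit 10) (.e (nat_lit 573475) (nat_lit 12) (.e (nat_lit 57344) (nat_lit 0) .nil))))) .nil)) 
(.lf (nat_lit 200429) (.g (nat_lit 1512) (.e (nat_lit 73746) (nat_lit 3) (.e (nat_lit 516174) (nat_lit 14) (.e (nat_lit 474880) (nat_lit 2) (.e (nat_lit 90162) (nat_lit 12) (.e (nat_lit 164031) (nat_lit 53) (.e (nat_lit 769792) (nat_lit 9) .nil)))))) (.g (nat_lit 5) .nil .nil))))) (.nd (nat_lit 5) (.nd (nat_lit 6) 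
(.lf (nat_lit 200349) (.g (nat_lit 2531) (.e (nat_lit 73746) (nat_lit 3) (.e (nat_lit 516165) (nat_lit 12) (.e (nat_lit 450587) (nat_lit 10) (.e (nat_lit 573475) (nat_lit 12) .nil)))) .nil)) 
(.lf (nat_lit 200413) (.g (nat_lit 3440) (.e (nat_lit 73746) (nat_lit 3) (.e (nat_lit 516166) (nat_lit 12) (.e (nat_lit 450588) (nat_lit 10) (.e (nat_lit 573475) (nat_lit 12) (.e (nat_lit 57569) (nat_lit 53) .nil))))) .nil))) (.nd (nat_lit 6) 
(.lf (nat_lit 200381) (.g (nat_lit 3161) (.e (nat_lit 73746) (nat_lit 3) (.e (nat_lit 516165) (nat_lit 12) (.e (nat_lit 450588) (nat_lit 10) (.e (nat_lit 573475) (nat_lit 12) (.e (nat_lit 57570) (nat_lit 54) .nil))))) .nil)) 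
(.lf (nat_lit 200445) (.g (nat_lit 1489) (.e (nat_lit 73746) (nat_lit 3) (.e (nat_lit 516174) (nat_lit 14) (.e (nat_lit 466977) (nat_lit 22) (.e (nat_lit 196658) (nat_lit 12) .nil)))) .nil))))))) (.nd (nat_lit 2) (.nd (nat_lit 3) (.nd (nat_lit 4) (.nd (nat_lit 5) (.nd (nat_lit 6) 
(.lf (nat_lit 200323) (.g (nat_lit 3147) (.e (nat_lit 73746) (nat_lit 3) (.e (nat_lit 516165) (nat_lit 12) (.e (nat_lit 450586) (nat_lit 10) (.e (nat_lit 573473) (nat_lit 12) (.e (nat_lit 57353) (nat_lit 0) (.e (nat_lit 7122) (nat_lit 382) (.e (nat_lit 1214) (nat_lit 89) .nil))))))) (.g (nat_lit 4) .nil .nil))) 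
(.lf (nat_lit 200387) (.g (nat_lit 3971) (.e (nat_lit 73746) (nat_lit 3) (.e (nat_lit 516166) (nat_lit 12) (.e (nat_lit 450585) (nat_lit 10) (.e (nat_lit 573474) (nat_lit 12) (.e (nat_lit 57348) (nat_lit 0) .nil))))) .nil))) (.nd (nat_lit 6) 
(.lf (nat_lit 200355) (.g (nat_lit 3572) (.e (nat_lit 73746) (nat_lit 3) (.e (nat_lit 516165) (nat_lit 12) (.e (nat_lit 450588) (nat_lit 10) (.e (nat_lit 573473) (nat_lit 12) (.e (nat_lit 57347) (nat_lit 0) (.e (nat_lit 7124) (nat_lit 382) (.e (nat_lit 1214) (nat_lit 89) .nil))))))) (.g (nat_lit 4) .nil .nil))) 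
(.lf (nat_lit 200419) (.g (nat_lit 2925) (.e (nat_lit 73746) (nat_lit 3) (.e (nat_lit 516169) (nat_lit 13) (.e (nat_lit 458774) (nat_lit 18) (.e (nat_lit 5964) (nat_lit 324) (.e (nat_lit 163867) (nat_lit 2) (.e (nat_lit 196651) (nat_lit 10) (.e (nat_lit 16128) (nat_lit 196) .nil))))))) (.g (nat_lit 5) .nil .nil))))) (.nd (nat_lit 5) (.nd (nat_lit 6) 
(.lf (nat_lit 200339) (.g (nat_lit 3153) (.e (nat_lit 73746) (nat_lit 3) (.e (nat_lit 516165) (nat_lit 12) (.e (nat_lit 450586) (nat_lit 10) (.e (nat_lit 573475) (nat_lit 12) (.e (nat_lit 57356) (nat_lit 0) (.e (nat_lit 7147) (nat_lit 382) (.e (nat_lit 1207) (nat_lit 89) .nil))))))) (.g (nat_lit 4) .nil .nil))) 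
(.lf (nat_lit 200403) (.g (nat_lit 4386) (.e (nat_lit 73746) (nat_lit 3) (.e (nat_lit 516166) (nat_lit 12) (.e (nat_lit 450588) (nat_lit 10) (.e (nat_lit 573473) (nat_lit 12) (.e (nat_lit 57354) (nat_lit 0) (.e (nat_lit 7147) (nat_lit 382) (.e (nat_lit 1207) (nat_lit 89) .nil))))))) (.g (nat_lit 5) .nil .nil)))) (.nd (nat_lit 6) 
(.lf (nat_lit 200371) (.g (nat_lit 3081) (.e (nat_lit 73746) (nat_lit 3) (.e (nat_lit 516165) (nat_lit 12) (.e (nat_lit 450588) (nat_lit 10) (.e (nat_lit 573475) (nat_lit 12) (.e (nat_lit 57351) (nat_lit 0) .nil))))) .nil)) 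
(.lf (nat_lit 200435) (.g (nat_lit 1825) (.e (nat_lit 73746) (nat_lit 3) (.e (nat_lit 516174) (nat_lit 14) (.e (nat_lit 474880) (nat_lit 3) (.e (nat_lit 98325) (nat_lit 17) (.e (nat_lit 3604) (nat_lit 225) (.e (nat_lit 769792) (nat_lit 9) .nil)))))) (.g (nat_lit 5) .nil .nil)))))) (.nd (nat_lit 4) (.nd (nat_lit 5) (.nd (nat_lit 6) 
(.lf (nat_lit 200331) (.g (nat_lit 2829) (.e (nat_lit 73746) (nat_lit 3) (.e (nat_lit 516165) (nat_lit 12) (.e (nat_lit 450586) (nat_lit 10) (.e (nat_lit 573475) (nat_lit 12) (.e (nat_lit 57348) (nat_lit 0) (.e (nat_lit 7124) (nat_lit 382) (.e (nat_lit 1214) (nat_lit 89) .nil))))))) (.g (nat_lit 4) .nil .nil))) 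
(.lf (nat_lit 200395) (.g (nat_lit 3385) (.e (nat_lit 73746) (nat_lit 3) (.e (nat_lit 516166) (nat_lit 12) (.e (nat_lit 450587) (nat_lit 10) (.e (nat_lit 573478) (nat_lit 12) (.e (nat_lit 57568) (nat_lit 53) (.e (nat_lit 769792) (nat_lit 9) .nil)))))) (.g (nat_lit 5) .nil .nil)))) (.nd (nat_lit 6) 
(.lf (nat_lit 200363) (.g (nat_lit 4579) (.e (nat_lit 73746) (nat_lit 3) (.e (nat_lit 516165) (nat_lit 12) (.e (nat_lit 450588) (nat_lit 10) (.e (nat_lit 573474) (nat_lit 12) (.e (nat_lit 57572) (nat_lit 54) (.e (nat_lit 770073) (nat_lit 9) .nil)))))) (.g (nat_lit 4) .nil .nil))) 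
(.lf (nat_lit 200427) (.g (nat_lit 2706) (.e (nat_lit 73746) (nat_lit 3) (.e (nat_lit 516174) (nat_lit 14) (.e (nat_lit 466945) (nat_lit 0) (.e (nat_lit 1786) (nat_lit 119) (.e (nat_lit 516097) (nat_lit 0) (.e (nat_lit 3605) (nat_lit 225) (.e (nat_lit 769792) (nat_lit 9) .nil))))))) (.g (nat_lit 6) .nil .nil))))) (.nd (nat_lit 5) (.nd (nat_lit 6) 
(.lf (nat_lit 200347) (.g (nat_lit 1958) (.e (nat_lit 73746) (nat_lit 3) (.e (nat_lit 516165) (nat_lit 12) (.e (nat_lit 450586) (nat_lit 10) (.e (nat_lit 573495) (nat_lit 16) .nil)))) .nil)) 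
(.lf (nat_lit 200411) (.g (nat_lit 3612) (.e (nat_lit 73746) (nat_lit 3) (.e (nat_lit 516166) (nat_lit 12) (.e (nat_lit 450588) (nat_lit 10) (.e (nat_lit 573475) (nat_lit 12) (.e (nat_lit 57356) (nat_lit 0) (.e (nat_lit 7147) (nat_lit 382) (.e (nat_lit 1207) (nat_lit 89) .nil))))))) (.g (nat_lit 4) .nil .nil)))) (.nd (nat_lit 6) 
(.lf (nat_lit 200379) (.g (nat_lit 3768) (.e (nat_lit 73746) (nat_lit 3) (.e (nat_lit 516165) (nat_lit 12) (.e (nat_lit 450588) (nat_lit 10) (.e (nat_lit 573475) (nat_lit 12) (.e (nat_lit 57568) (nat_lit 53) (.e (nat_lit 769792) (nat_lit 9) .nil)))))) (.g (nat_lit 5) .nil .nil))) 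
(.lf (nat_lit 200443) (.g (nat_lit 1431) (.e (nat_lit 73746) (nat_lit 3) (.e (nat_lit 516174) (nat_lit 14) (.e (nat_lit 466975) (nat_lit 22) (.e (nat_lit 196661) (nat_lit 12) (.e (nat_lit 57489) (nat_lit 33) (.e (nat_lit 598040) (nat_lit 9) .nil)))))) (.g (nat_lit 4) .nil .nil))))))) (.nd (nat_lit 3) (.nd (nat_lit 4) (.nd (nat_lit 5) (.nd (nat_lit 6) 
(.lf (nat_lit 200327) (.g (nat_lit 2622) (.e (nat_lit 73746) (nat_lit 3) (.e (nat_lit 516165) (nat_lit 12) (.e (nat_lit 450586) (nat_lit 10) (.e (nat_lit 573475) (nat_lit 12) (.e (nat_lit 57344) (nat_lit 0) .nil))))) .nil)) 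
(.lf (nat_lit 200391) (.g (nat_lit 4816) (.e (nat_lit 73746) (nat_lit 3) (.e (nat_lit 516166) (nat_lit 12) (.e (nat_lit 450587) (nat_lit 10) (.e (nat_lit 573477) (nat_lit 12) (.e (nat_lit 57352) (nat_lit 0) (.e (nat_lit 7122) (nat_lit 382) (.e (nat_lit 1214) (nat_lit 89) .nil))))))) (.g (nat_lit 6) .nil .nil)))) (.nd (nat_lit 6) 
(.lf (nat_lit 200359) (.g (nat_lit 3955) (.e (nat_lit 73746) (nat_lit 3) (.e (nat_lit 516165) (nat_lit 12) (.e (nat_lit 450588) (nat_lit 10) (.e (nat_lit 573473) (nat_lit 12) (.e (nat_lit 57353) (nat_lit 0) (.e (nat_lit 7122) (nat_lit 382) (.e (nat_lit 1214) (nat_lit 89) .nil))))))) (.g (nat_lit 4) .nil .nil))) 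
(.lf (nat_lit 200423) (.g (nat_lit 2351) (.e (nat_lit 73746) (nat_lit 3) (.e (nat_lit 516171) (nat_lit 13) (.e (nat_lit 458774) (nat_lit 18) (.e (nat_lit 5224) (nat_lit 296) (.e (nat_lit 163868) (nat_lit 2) (.e (nat_lit 196692) (nat_lit 18) (.e (nat_lit 1008) (nat_lit 81) (.e (nat_lit 5412) (nat_lit 303) .nil)))))))) (.g (nat_lit 5) .nil .nil))))) (.nd (nat_lit 5) (.nd (nat_lit 6) 
(.lf (nat_lit 200343) (.g (nat_lit 4209) (.e (nat_lit 73746) (nat_lit 3) (.e (nat_lit 516165) (nat_lit 12) (.e (nat_lit 450586) (nat_lit 10) (.e (nat_lit 573477) (nat_lit 12) (.e (nat_lit 57353) (nat_lit 0) (.e (nat_lit 7125) (nat_lit 382) (.e (nat_lit 1214) (nat_lit 89) .nil))))))) (.g (nat_lit 7) .nil .nil))) 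
(.lf (nat_lit 200407) (.g (nat_lit 3447) (.e (nat_lit 73746) (nat_lit 3) (.e (nat_lit 516166) (nat_lit 12) (.e (nat_lit 450588) (nat_lit 10) (.e (nat_lit 573475) (nat_lit 12) (.e (nat_lit 57344) (nat_lit 0) .nil))))) .nil))) (.nd (nat_lit 6) 
(.lf (nat_lit 200375) (.g (nat_lit 4079) (.e (nat_lit 73746) (nat_lit 3) (.e (nat_lit 516165) (nat_lit 12) (.e (nat_lit 450588) (nat_lit 10) (.e (nat_lit 573475) (nat_lit 12) (.e (nat_lit 57354) (nat_lit 0) (.e (nat_lit 7147) (nat_lit 382) (.e (nat_lit 1206) (nat_lit 89) .nil))))))) (.g (nat_lit 4) .nil .nil))) 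
(.lf (nat_lit 200439) (.g (nat_lit 2340) (.e (nat_lit 73746) (nat_lit 3) (.e (nat_lit 516174) (nat_lit 14) (.e (nat_lit 466967) (nat_lit 20) (.e (nat_lit 3305) (nat_lit 202) (.e (nat_lit 573477) (nat_lit 12) (.e (nat_lit 57353) (nat_lit 0) (.e (nat_lit 7125) (nat_lit 382) (.e (nat_lit 1214) (nat_lit 89) .nil)))))))) (.g (nat_lit 4) .nil .nil)))))) 
(.nd (nat_lit 4) (.nd (nat_lit 5) (.nd (nat_lit 6) 
(.lf (nat_lit 200335) (.g (nat_lit 3540) (.e (nat_lit 73746) (nat_lit 3) (.e (nat_lit 516165) (nat_lit 12) (.e (nat_lit 450586) (nat_lit 10) (.e (nat_lit 573475) (nat_lit 12) (.e (nat_lit 57353) (nat_lit 0) (.e (nat_lit 7125) (nat_lit 382) (.e (nat_lit 1214) (nat_lit 89) .nil))))))) (.g (nat_lit 4) .nil .nil))) 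
(.lf (nat_lit 200399) (.g (nat_lit 5587) (.e (nat_lit 73746) (nat_lit 3) (.e (nat_lit 516166) (nat_lit 12) (.e (nat_lit 450588) (nat_lit 10) (.e (nat_lit 573453) (nat_lit 9) .nil)))) .nil))) (.nd (nat_lit 6) 
(.lf (nat_lit 200367) (.g (nat_lit 4015) (.e (nat_lit 73746) (nat_lit 3) (.e (nat_lit 516165) (nat_lit 12) (.e (nat_lit 450588) (nat_lit 10) (.e (nat_lit 573475) (nat_lit 12) (.e (nat_lit 57347) (nat_lit 0) (.e (nat_lit 7122) (nat_lit 382) (.e (nat_lit 1214) (nat_lit 89) .nil))))))) (.g (nat_lit 4) .nil .nil))) 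
(.lf (nat_lit 200431) (.g (nat_lit 1261) (.e (nat_lit 73746) (nat_lit 3) (.e (nat_lit 516174) (nat_lit 14) (.e (nat_lit 474880) (nat_lit 3) (.e (nat_lit 98319) (nat_lit 17) (.e (nat_lit 3600) (nat_lit 225) (.e (nat_lit 769792) (nat_lit 9) .nil)))))) (.g (nat_lit 4) .nil .nil))))) (.nd (nat_lit 5) (.nd (nat_lit 6) 
(.lf (nat_lit 200351) (.g (nat_lit 1216) (.e (nat_lit 73746) (nat_lit 3) (.e (nat_lit 516165) (nat_lit 12) (.e (nat_lit 450587) (nat_lit 10) (.e (nat_lit 573478) (nat_lit 12) .nil)))) .nil)) 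
(.lf (nat_lit 200415) (.g (nat_lit 5422) (.e (nat_lit 73746) (nat_lit 3) (.e (nat_lit 516166) (nat_lit 12) (.e (nat_lit 450588) (nat_lit 10) (.e (nat_lit 573495) (nat_lit 16) .nil)))) .nil))) (.nd (nat_lit 6) 
(.lf (nat_lit 200383) (.g (nat_lit 1113) (.e (nat_lit 73746) (nat_lit 3) (.e (nat_lit 516166) (nat_lit 12) (.e (nat_lit 458496) (nat_lit 3) .nil))) .nil)) 
(.lf (nat_lit 200447) (.g (nat_lit 2660) (.e (nat_lit 73746) (nat_lit 3) (.e (nat_lit 516176) (nat_lit 14) (.e (nat_lit 466945) (nat_lit 0) (.e (nat_lit 1786) (nat_lit 119) (.e (nat_lit 516097) (nat_lit 0) (.e (nat_lit 3605) (nat_lit 225) (.e (nat_lit 769792) (nat_lit 9) .nil))))))) (.g (nat_lit 6) .nil .nil))))))))))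

noncomputable def tv2648 : DT := (.nd (nat_lit 0) (.nd (nat_lit 1) (.nd (nat_lit 2) (.nd (nat_lit 3) (.nd (nat_lit 4) (.nd (nat_lit 5) (.nd (nat_lit 6) 
(.lf (nat_lit 200448) (.g (nat_lit 496) (.e (nat_lit 73746) (nat_lit 3) (.e (nat_lit 516176) (nat_lit 14) (.e (nat_lit 466947) (nat_lit 0) .nil))) .nil)) 
(.lf (nat_lit 200512) (.g (nat_lit 2359) (.e (nat_lit 73746) (nat_lit 3) (.e (nat_lit 516184) (nat_lit 16) (.e (nat_lit 491554) (nat_lit 9) (.e (nat_lit 336013) (nat_lit 2) (.e (nat_lit 90165) (nat_lit 12) (.e (nat_lit 171776) (nat_lit 192) .nil)))))) (.g (nat_lit 5) .nil .nil)))) (.nd (nat_lit 6) 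
(.lf (nat_lit 200480) (.g (nat_lit 1445) (.e (nat_lit 73746) (nat_lit 3) (.e (nat_lit 516176) (nat_lit 14) (.e (nat_lit 466981) (nat_lit 23) (.e (nat_lit 204801) (nat_lit 0) .nil)))) .nil)) 
(.lf (nat_lit 200544) (.g (nat_lit 2762) (.e (nat_lit 73746) (nat_lit 3) (.e (nat_lit 516195) (nat_lit 26) (.e (nat_lit 335995) (nat_lit 1) (.e (nat_lit 57872) (nat_lit 264) (.e (nat_lit 1190) (nat_lit 88) (.e (nat_lit 65632) (nat_lit 15) (.e (nat_lit 7592) (nat_lit 407) .nil))))))) (.g (nat_lit 5) .nil .nil))))) (.nd (nat_lit 5) (.nd (nat_lit 6) 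
(.lf (nat_lit 200464) (.g (nat_lit 428) (.e (nat_lit 73746) (nat_lit 3) (.e (nat_lit 516176) (nat_lit 14) (.e (nat_lit 466975) (nat_lit 22) .nil))) .nil)) 
(.lf (nat_lit 200528) (.g (nat_lit 2812) (.e (nat_lit 73746) (nat_lit 3) (.e (nat_lit 516185) (nat_lit 16) (.e (nat_lit 491558) (nat_lit 10) (.e (nat_lit 344117) (nat_lit 21) (.e (nat_lit 516106) (nat_lit 0) (.e (nat_lit 7936) (nat_lit 407) .nil)))))) (.g (nat_lit 4) .nil .nil)))) (.nd (nat_lit 6) 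
(.lf (nat_lit 200496) (.g (nat_lit 2541) (.e (nat_lit 73746) (nat_lit 3) (.e (nat_lit 516179) (nat_lit 15) (.e (nat_lit 475214) (nat_lit 42) (.e (nat_lit 720959) (nat_lit 27) .nil)))) .nil)) 
(.lf (nat_lit 200560) (.g (nat_lit 1456) (.e (nat_lit 73746) (nat_lit 3) (.e (nat_lit 524032) (nat_lit 33) (.e (nat_lit 401435) (nat_lit 9) (.e (nat_lit 426562) (nat_lit 33) (.e (nat_lit 392960) (nat_lit 5) .nil))))) (.g (nat_lit 4) .nil .nil)))))) (.nd (nat_lit 4) (.nd (nat_lit 5) (.nd (nat_lit 6) 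
(.lf (nat_lit 200456) (.g (nat_lit 1762) (.e (nat_lit 73746) (nat_lit 3) (.e (nat_lit 516176) (nat_lit 14) (.e (nat_lit 474880) (nat_lit 3) (.e (nat_lit 98333) (nat_lit 18) (.e (nat_lit 164222) (nat_lit 181) (.e (nat_lit 7936) (nat_lit 89) .nil)))))) (.g (nat_lit 5) .nil .nil))) 
(.lf (nat_lit 200520) (.g (nat_lit 3431) (.e (nat_lit 73746) (nat_lit 3) (.e (nat_lit 516184) (nat_lit 16) (.e (nat_lit 491560) (nat_lit 10) (.e (nat_lit 344117) (nat_lit 21) (.e (nat_lit 516098) (nat_lit 0) (.e (nat_lit 7593) (nat_lit 407) .nil)))))) (.g (nat_lit 4) .nil .nil)))) (.nd (nat_lit 6) 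
(.lf (nat_lit 200488) (.g (nat_lit 1145) (.e (nat_lit 73746) (nat_lit 3) (.e (nat_lit 516179) (nat_lit 15) (.e (nat_lit 475209) (nat_lit 41) (.e (nat_lit 712706) (nat_lit 0) .nil)))) .nil)) 
(.lf (nat_lit 200552) (.g (nat_lit 1818) (.e (nat_lit 73746) (nat_lit 3) (.e (nat_lit 516195) (nat_lit 26) (.e (nat_lit 336027) (nat_lit 3) (.e (nat_lit 98346) (nat_lit 22) .nil)))) .nil)))) (.nd (nat_lit 5) (.nd (nat_lit 6) 
(.lf (nat_lit 200472) (.g (nat_lit 1837) (.e (nat_lit 73746) (nat_lit 3) (.e (nat_lit 516176) (nat_lit 14) (.e (nat_lit 466977) (nat_lit 22) (.e (nat_lit 196649) (nat_lit 10) (.e (nat_lit 8249) (nat_lit 34) .nil))))) .nil)) 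
(.lf (nat_lit 200536) (.g (nat_lit 2495) (.e (nat_lit 73746) (nat_lit 3) (.e (nat_lit 516185) (nat_lit 16) (.e (nat_lit 491560) (nat_lit 10) (.e (nat_lit 344117) (nat_lit 21) (.e (nat_lit 516097) (nat_lit 0) .nil))))) .nil))) (.nd (nat_lit 6) 
(.lf (nat_lit 200504) (.g (nat_lit 3109) (.e (nat_lit 73746) (nat_lit 3) (.e (nat_lit 516183) (nat_lit 16) (.e (nat_lit 491546) (nat_lit 9) (.e (nat_lit 336028) (nat_lit 3) (.e (nat_lit 98325) (nat_lit 17) (.e (nat_lit 7936) (nat_lit 407) .nil)))))) (.g (nat_lit 5) .nil .nil))) 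
(.lf (nat_lit 200568) (.g (nat_lit 1036) (.e (nat_lit 73747) (nat_lit 3) (.e (nat_lit 516097) (nat_lit 0) (.e (nat_lit 7591) (nat_lit 407) (.e (nat_lit 81664) (nat_lit 1) .nil)))) .nil)))))) (.nd (nat_lit 3) (.nd (nat_lit 4) (.nd (nat_lit 5) (.nd (nat_lit 6) 
(.lf (nat_lit 200452) (.g (nat_lit 1235) (.e (nat_lit 73746) (nat_lit 3) (.e (nat_lit 516176) (nat_lit 14) (.e (nat_lit 474880) (nat_lit 3) (.e (nat_lit 98319) (nat_lit 17) (.e (nat_lit 3600) (nat_lit 225) (.e (nat_lit 769792) (nat_lit 9) .nil)))))) (.g (nat_lit 4) .nil .nil))) 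
(.lf (nat_lit 200516) (.g (nat_lit 1655) (.e (nat_lit 73746) (nat_lit 3) (.e (nat_lit 516184) (nat_lit 16) (.e (nat_lit 491560) (nat_lit 10) (.e (nat_lit 344114) (nat_lit 20) .nil)))) .nil))) (.nd (nat_lit 6) 
(.lf (nat_lit 200484) (.g (nat_lit 2634) (.e (nat_lit 73746) (nat_lit 3) (.e (nat_lit 516176) (nat_lit 14) (.e (nat_lit 466981) (nat_lit 23) (.e (nat_lit 204829) (nat_lit 18) (.e (nat_lit 65280) (nat_lit 221) .nil))))) .nil)) 
(.lf (nat_lit 200548) (.g (nat_lit 2143) (.e (nat_lit 73746) (nat_lit 3) (.e (nat_lit 516195) (nat_lit 26) (.e (nat_lit 336027) (nat_lit 3) (.e (nat_lit 98321) (nat_lit 17) (.e (nat_lit 7936) (nat_lit 220) .nil))))) .nil)))) (.nd (nat_lit 5) (.nd (nat_lit 6) 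
(.lf (nat_lit 200468) (.g (nat_lit 991) (.e (nat_lit 73746) (nat_lit 3) (.e (nat_lit 516176) (nat_lit 14) (.e (nat_lit 466976) (nat_lit 22) (.e (nat_lit 196661) (nat_lit 12) .nil)))) .nil)) 
(.lf (nat_lit 200532) (.g (nat_lit 2437) (.e (nat_lit 73746) (nat_lit 3) (.e (nat_lit 516185) (nat_lit 16) (.e (nat_lit 491560) (nat_lit 10) (.e (nat_lit 344111) (nat_lit 19) .nil)))) .nil))) (.nd (nat_lit 6) 
(.lf (nat_lit 200500) (.g (nat_lit 1824) (.e (nat_lit 73746) (nat_lit 3) (.e (nat_lit 516180) (nat_lit 15) (.e (nat_lit 475212) (nat_lit 42) (.e (nat_lit 720938) (nat_lit 22) (.e (nat_lit 90155) (nat_lit 10) (.e (nat_lit 16128) (nat_lit 255) .nil)))))) (.g (nat_lit 5) .nil .nil))) 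
(.lf (nat_lit 200564) (.g (nat_lit 1325) (.e (nat_lit 73746) (nat_lit 3) (.e (nat_lit 524032) (nat_lit 33) (.e (nat_lit 401438) (nat_lit 9) (.e (nat_lit 426562) (nat_lit 33) (.e (nat_lit 392960) (nat_lit 5) .nil))))) (.g (nat_lit 4) .nil .nil)))))) (.nd (nat_lit 4) (.nd (nat_lit 5) (.nd (nat_lit 6) 
(.lf (nat_lit 200460) (.g (nat_lit 1544) (.e (nat_lit 73746) (nat_lit 3) (.e (nat_lit 516176) (nat_lit 14) (.e (nat_lit 466967) (nat_lit 20) (.e (nat_lit 3305) (nat_lit 202) (.e (nat_lit 573477) (nat_lit 12) .nil))))) .nil)) 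
(.lf (nat_lit 200524) (.g (nat_lit 1637) (.e (nat_lit 73746) (nat_lit 3) (.e (nat_lit 516185) (nat_lit 16) (.e (nat_lit 491556) (nat_lit 9) (.e (nat_lit 336017) (nat_lit 3) .nil)))) .nil))) (.nd (nat_lit 6) 
(.lf (nat_lit 200492) (.g (nat_lit 2442) (.e (nat_lit 73746) (nat_lit 3) (.e (nat_lit 516179) (nat_lit 15) (.e (nat_lit 475214) (nat_lit 42) (.e (nat_lit 720896) (nat_lit 0) .nil)))) .nil)) 
(.lf (nat_lit 200556) (.g (nat_lit 1028) (.e (nat_lit 73746) (nat_lit 3) (.e (nat_lit 524032) (nat_lit 32) (.e (nat_lit 385104) (nat_lit 50) (.e (nat_lit 786487) (nat_lit 33) (.e (nat_lit 392960) (nat_lit 5) .nil))))) (.g (nat_lit 4) .nil .nil))))) (.nd (nat_lit 5) (.nd (nat_lit 6) 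
(.lf (nat_lit 200476) (.g (nat_lit 901) (.e (nat_lit 73746) (nat_lit 3) (.e (nat_lit 516176) (nat_lit 14) (.e (nat_lit 466977) (nat_lit 22) (.e (nat_lit 196677) (nat_lit 16) .nil)))) .nil)) 
(.lf (nat_lit 200540) (.g (nat_lit 442) (.e (nat_lit 73746) (nat_lit 3) (.e (nat_lit 516195) (nat_lit 26) (.e (nat_lit 335995) (nat_lit 1) .nil))) .nil))) (.nd (nat_lit 6) 
(.lf (nat_lit 200508) (.g (nat_lit 3090) (.e (nat_lit 73746) (nat_lit 3) (.e (nat_lit 516183) (nat_lit 16) (.e (nat_lit 491560) (nat_lit 10) (.e (nat_lit 344117) (nat_lit 21) (.e (nat_lit 516097) (nat_lit 0) (.e (nat_lit 7593) (nat_lit 407) .nil)))))) (.g (nat_lit 4) .nil .nil))) 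
(.lf (nat_lit 200572) (.g (nat_lit 826) (.e (nat_lit 73747) (nat_lit 3) (.e (nat_lit 516098) (nat_lit 0) (.e (nat_lit 7593) (nat_lit 407) (.e (nat_lit 81664) (nat_lit 1) .nil)))) .nil))))))) (.nd (nat_lit 2) (.nd (nat_lit 3) (.nd (nat_lit 4) (.nd (nat_lit 5) (.nd (nat_lit 6) 
(.lf (nat_lit 200450) (.g (nat_lit 1356) (.e (nat_lit 73746) (nat_lit 3) (.e (nat_lit 516176) (nat_lit 14) (.e (nat_lit 474880) (nat_lit 2) (.e (nat_lit 90162) (nat_lit 12) (.e (nat_lit 164031) (nat_lit 53) (.e (nat_lit 769792) (nat_lit 9) .nil)))))) (.g (nat_lit 5) .nil .nil))) 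
(.lf (nat_lit 200514) (.g (nat_lit 1889) (.e (nat_lit 73746) (nat_lit 3) (.e (nat_lit 516184) (nat_lit 16) (.e (nat_lit 491558) (nat_lit 10) (.e (nat_lit 344117) (nat_lit 21) (.e (nat_lit 516098) (nat_lit 0) .nil))))) .nil))) (.nd (nat_lit 6) 
(.lf (nat_lit 200482) (.g (nat_lit 1122) (.e (nat_lit 73746) (nat_lit 3) (.e (nat_lit 516176) (nat_lit 14) (.e (nat_lit 466981) (nat_lit 23) (.e (nat_lit 212736) (nat_lit 1) .nil)))) .nil)) 
(.lf (nat_lit 200546) (.g (nat_lit 2363) (.e (nat_lit 73746) (nat_lit 3) (.e (nat_lit 516195) (nat_lit 26) (.e (nat_lit 336021) (nat_lit 3) (.e (nat_lit 98317) (nat_lit 9) (.e (nat_lit 335892) (nat_lit 0) .nil))))) .nil)))) (.nd (nat_lit 5) (.nd (nat_lit 6) 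
(.lf (nat_lit 200466) (.g (nat_lit 1383) (.e (nat_lit 73746) (nat_lit 3) (.e (nat_lit 516176) (nat_lit 14) (.e (nat_lit 466975) (nat_lit 22) (.e (nat_lit 196661) (nat_lit 12) (.e (nat_lit 57489) (nat_lit 33) (.e (nat_lit 598040) (nat_lit 9) .nil)))))) (.g (nat_lit 4) .nil .nil))) 
(.lf (nat_lit 200530) (.g (nat_lit 2221) (.e (nat_lit 73746) (nat_lit 3) (.e (nat_lit 516185) (nat_lit 16) (.e (nat_lit 491560) (nat_lit 10) (.e (nat_lit 344105) (nat_lit 19) .nil)))) .nil))) (.nd (nat_lit 6) 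
(.lf (nat_lit 200498) (.g (nat_lit 658) (.e (nat_lit 73746) (nat_lit 3) (.e (nat_lit 516179) (nat_lit 15) (.e (nat_lit 475220) (nat_lit 44) .nil))) .nil)) 
(.lf (nat_lit 200562) (.g (nat_lit 1626) (.e (nat_lit 73746) (nat_lit 3) (.e (nat_lit 524032) (nat_lit 33) (.e (nat_lit 401437) (nat_lit 9) (.e (nat_lit 426562) (nat_lit 33) (.e (nat_lit 392960) (nat_lit 5) .nil))))) (.g (nat_lit 4) .nil .nil)))))) (.nd (nat_lit 4) (.nd (nat_lit 5) (.nd (nat_lit 6) 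
(.lf (nat_lit 200458) (.g (nat_lit 780) (.e (nat_lit 73746) (nat_lit 3) (.e (nat_lit 516176) (nat_lit 14) (.e (nat_lit 466960) (nat_lit 20) .nil))) .nil)) 
(.lf (nat_lit 200522) (.g (nat_lit 3219) (.e (nat_lit 73746) (nat_lit 3) (.e (nat_lit 516185) (nat_lit 16) (.e (nat_lit 491546) (nat_lit 9) (.e (nat_lit 336013) (nat_lit 2) (.e (nat_lit 90165) (nat_lit 12) (.e (nat_lit 171776) (nat_lit 192) .nil)))))) (.g (nat_lit 5) .nil .nil)))) (.nd (nat_lit 6) 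
(.lf (nat_lit 200490) (.g (nat_lit 1619) (.e (nat_lit 73746) (nat_lit 3) (.e (nat_lit 516179) (nat_lit 15) (.e (nat_lit 475210) (nat_lit 41) (.e (nat_lit 720640) (nat_lit 3) .nil)))) .nil)) 
(.lf (nat_lit 200554) (.g (nat_lit 2032) (.e (nat_lit 73746) (nat_lit 3) (.e (nat_lit 524032) (nat_lit 32) (.e (nat_lit 385094) (nat_lit 49) (.e (nat_lit 778291) (nat_lit 0) (.e (nat_lit 1638) (nat_lit 114) (.e (nat_lit 392960) (nat_lit 5) .nil)))))) (.g (nat_lit 5) .nil .nil))))) (.nd (nat_lit 5) (.nd (nat_lit 6) 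
(.lf (nat_lit 200474) (.g (nat_lit 2087) (.e (nat_lit 73746) (nat_lit 3) (.e (nat_lit 516176) (nat_lit 14) (.e (nat_lit 466977) (nat_lit 22) (.e (nat_lit 196658) (nat_lit 12) (.e (nat_lit 57348) (nat_lit 0) (.e (nat_lit 4457) (nat_lit 263) (.e (nat_lit 7936) (nat_lit 89) .nil))))))) (.g (nat_lit 5) .nil .nil))) 
(.lf (nat_lit 200538) (.g (nat_lit 1719) (.e (nat_lit 73746) (nat_lit 3) (.e (nat_lit 516185) (nat_lit 16) (.e (nat_lit 491560) (nat_lit 10) (.e (nat_lit 344118) (nat_lit 21) .nil)))) .nil))) (.nd (nat_lit 6) 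
(.lf (nat_lit 200506) (.g (nat_lit 2588) (.e (nat_lit 73746) (nat_lit 3) (.e (nat_lit 516183) (nat_lit 16) (.e (nat_lit 491549) (nat_lit 9) (.e (nat_lit 336019) (nat_lit 3) (.e (nat_lit 98319) (nat_lit 17) .nil))))) .nil)) 
(.lf (nat_lit 200570) (.g (nat_lit 2650) (.e (nat_lit 73747) (nat_lit 3) (.e (nat_lit 516097) (nat_lit 0) (.e (nat_lit 7591) (nat_lit 407) (.e (nat_lit 73747) (nat_lit 3) (.e (nat_lit 516106) (nat_lit 0) (.e (nat_lit 7936) (nat_lit 407) .nil)))))) (.g (nat_lit 4) .nil .nil))))))) (.nd (nat_lit 3) (.nd (nat_lit 4) (.nd (nat_lit 5) (.nd (nat_lit 6) 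
(.lf (nat_lit 200454) (.g (nat_lit 1435) (.e (nat_lit 73746) (nat_lit 3) (.e (nat_lit 516176) (nat_lit 14) (.e (nat_lit 474880) (nat_lit 3) (.e (nat_lit 98325) (nat_lit 17) (.e (nat_lit 3597) (nat_lit 225) (.e (nat_lit 769792) (nat_lit 9) .nil)))))) (.g (nat_lit 5) .nil .nil))) 
(.lf (nat_lit 200518) (.g (nat_lit 1613) (.e (nat_lit 73746) (nat_lit 3) (.e (nat_lit 516184) (nat_lit 16) (.e (nat_lit 491560) (nat_lit 10) (.e (nat_lit 344117) (nat_lit 21) .nil)))) .nil))) (.nd (nat_lit 6) 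
(.lf (nat_lit 200486) (.g (nat_lit 2482) (.e (nat_lit 73746) (nat_lit 3) (.e (nat_lit 516176) (nat_lit 14) (.e (nat_lit 466981) (nat_lit 23) (.e (nat_lit 204830) (nat_lit 18) (.e (nat_lit 65280) (nat_lit 221) .nil))))) .nil)) 
(.lf (nat_lit 200550) (.g (nat_lit 2283) (.e (nat_lit 73746) (nat_lit 3) (.e (nat_lit 516195) (nat_lit 26) (.e (nat_lit 336027) (nat_lit 3) (.e (nat_lit 98323) (nat_lit 17) (.e (nat_lit 3560) (nat_lit 221) .nil))))) .nil)))) (.nd (nat_lit 5) (.nd (nat_lit 6) 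
(.lf (nat_lit 200470) (.g (nat_lit 427) (.e (nat_lit 73746) (nat_lit 3) (.e (nat_lit 516176) (nat_lit 14) (.e (nat_lit 466977) (nat_lit 22) .nil))) .nil)) 
(.lf (nat_lit 200534) (.g (nat_lit 1237) (.e (nat_lit 73746) (nat_lit 3) (.e (nat_lit 516185) (nat_lit 16) (.e (nat_lit 491560) (nat_lit 10) (.e (nat_lit 344115) (nat_lit 20) .nil)))) .nil))) (.nd (nat_lit 6) 
(.lf (nat_lit 200502) (.g (nat_lit 1869) (.e (nat_lit 73746) (nat_lit 3) (.e (nat_lit 516180) (nat_lit 15) (.e (nat_lit 475214) (nat_lit 42) (.e (nat_lit 720938) (nat_lit 22) (.e (nat_lit 90155) (nat_lit 10) (.e (nat_lit 16128) (nat_lit 255) .nil)))))) (.g (nat_lit 4) .nil .nil))) 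
(.lf (nat_lit 200566) (.g (nat_lit 1463) (.e (nat_lit 73746) (nat_lit 3) (.e (nat_lit 524032) (nat_lit 33) (.e (nat_lit 401459) (nat_lit 13) (.e (nat_lit 483332) (nat_lit 0) (.e (nat_lit 7936) (nat_lit 407) .nil))))) (.g (nat_lit 4) .nil .nil)))))) (.nd (nat_lit 4) (.nd (nat_lit 5) (.nd (nat_lit 6) 
(.lf (nat_lit 200462) (.g (nat_lit 774) (.e (nat_lit 73746) (nat_lit 3) (.e (nat_lit 516176) (nat_lit 14) (.e (nat_lit 466974) (nat_lit 22) .nil))) .nil)) 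
(.lf (nat_lit 200526) (.g (nat_lit 417) (.e (nat_lit 73746) (nat_lit 3) (.e (nat_lit 516185) (nat_lit 16) (.e (nat_lit 491558) (nat_lit 10) .nil))) .nil))) (.nd (nat_lit 6) 
(.lf (nat_lit 200494) (.g (nat_lit 1721) (.e (nat_lit 73746) (nat_lit 3) (.e (nat_lit 516179) (nat_lit 15) (.e (nat_lit 475214) (nat_lit 42) (.e (nat_lit 720944) (nat_lit 23) (.e (nat_lit 98309) (nat_lit 0) .nil))))) .nil)) 
(.lf (nat_lit 200558) (.g (nat_lit 1741) (.e (nat_lit 73746) (nat_lit 3) (.e (nat_lit 524032) (nat_lit 32) (.e (nat_lit 385106) (nat_lit 50) (.e (nat_lit 786487) (nat_lit 33) (.e (nat_lit 392960) (nat_lit 5) .nil))))) (.g (nat_lit 4) .nil .nil))))) (.nd (nat_lit 5) (.nd (nat_lit 6) 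
(.lf (nat_lit 200478) (.g (nat_lit 361) (.e (nat_lit 73746) (nat_lit 3) (.e (nat_lit 516176) (nat_lit 14) (.e (nat_lit 466980) (nat_lit 23) .nil))) .nil)) 
(.lf (nat_lit 200542) (.g (nat_lit 1798) (.e (nat_lit 73746) (nat_lit 3) (.e (nat_lit 516195) (nat_lit 26) (.e (nat_lit 335995) (nat_lit 1) (.e (nat_lit 57870) (nat_lit 264) (.e (nat_lit 1189) (nat_lit 88) .nil))))) .nil))) (.nd (nat_lit 6) 
(.lf (nat_lit 200510) (.g (nat_lit 3261) (.e (nat_lit 73746) (nat_lit 3) (.e (nat_lit 516184) (nat_lit 16) (.e (nat_lit 491546) (nat_lit 9) (.e (nat_lit 336013) (nat_lit 2) (.e (nat_lit 90165) (nat_lit 12) (.e (nat_lit 171776) (nat_lit 192) .nil)))))) (.g (nat_lit 5) .nil .nil))) 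
(.lf (nat_lit 200574) (.g (nat_lit 1929) (.e (nat_lit 73747) (nat_lit 3) (.e (nat_lit 516098) (nat_lit 0) (.e (nat_lit 7593) (nat_lit 407) (.e (nat_lit 73746) (nat_lit 3) (.e (nat_lit 516104) (nat_lit 0) (.e (nat_lit 7936) (nat_lit 407) .nil)))))) (.g (nat_lit 4) .nil .nil))))))))) (.nd (nat_lit 1) (.nd (nat_lit 2) (.nd (nat_lit 3) (.nd (nat_lit 4) (.nd (nat_lit 5) (.nd (nat_lit 6) 
(.lf (nat_lit 200449) (.g (nat_lit 2229) (.e (nat_lit 73746) (nat_lit 3) (.e (nat_lit 516176) (nat_lit 14) (.e (nat_lit 466947) (nat_lit 0) (.e (nat_lit 1800) (nat_lit 119) (.e (nat_lit 516100) (nat_lit 0) (.e (nat_lit 3605) (nat_lit 225) (.e (nat_lit 769792) (nat_lit 9) .nil))))))) (.g (nat_lit 4) .nil .nil))) 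
(.lf (nat_lit 200513) (.g (nat_lit 1810) (.e (nat_lit 73746) (nat_lit 3) (.e (nat_lit 516184) (nat_lit 16) (.e (nat_lit 491554) (nat_lit 9) (.e (nat_lit 336028) (nat_lit 3) (.e (nat_lit 98325) (nat_lit 17) (.e (nat_lit 7936) (nat_lit 407) .nil)))))) (.g (nat_lit 4) .nil .nil)))) (.nd (nat_lit 6) 
(.lf (nat_lit 200481) (.g (nat_lit 1695) (.e (nat_lit 73746) (nat_lit 3) (.e (nat_lit 516176) (nat_lit 14) (.e (nat_lit 466981) (nat_lit 23) (.e (nat_lit 204803) (nat_lit 0) (.e (nat_lit 2479) (nat_lit 157) .nil))))) .nil)) 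
(.lf (nat_lit 200545) (.g (nat_lit 2017) (.e (nat_lit 73746) (nat_lit 3) (.e (nat_lit 516195) (nat_lit 26) (.e (nat_lit 336011) (nat_lit 2) (.e (nat_lit 90165) (nat_lit 12) (.e (nat_lit 164023) (nat_lit 46) (.e (nat_lit 704626) (nat_lit 9) (.e (nat_lit 1239) (nat_lit 91) (.e (nat_lit 98048) (nat_lit 5) .nil)))))))) (.g (nat_lit 4) .nil .nil))))) (.nd (nat_lit 5) (.nd (nat_lit 6) 
(.lf (nat_lit 200465) (.g (nat_lit 1107) (.e (nat_lit 73746) (nat_lit 3) (.e (nat_lit 516176) (nat_lit 14) (.e (nat_lit 466975) (nat_lit 22) (.e (nat_lit 196661) (nat_lit 12) (.e (nat_lit 57353) (nat_lit 0) (.e (nat_lit 4457) (nat_lit 263) (.e (nat_lit 7936) (nat_lit 89) .nil))))))) (.g (nat_lit 4) .nil .nil))) 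
(.lf (nat_lit 200529) (.g (nat_lit 1963) (.e (nat_lit 73746) (nat_lit 3) (.e (nat_lit 516185) (nat_lit 16) (.e (nat_lit 491558) (nat_lit 10) (.e (nat_lit 344119) (nat_lit 21) .nil)))) .nil))) (.nd (nat_lit 6) 
(.lf (nat_lit 200497) (.g (nat_lit 2541) (.e (nat_lit 73746) (nat_lit 3) (.e (nat_lit 516179) (nat_lit 15) (.e (nat_lit 475214) (nat_lit 42) (.e (nat_lit 720960) (nat_lit 27) .nil)))) .nil)) 
(.lf (nat_lit 200561) (.g (nat_lit 1190) (.e (nat_lit 73746) (nat_lit 3) (.e (nat_lit 524032) (nat_lit 33) (.e (nat_lit 401437) (nat_lit 9) (.e (nat_lit 426558) (nat_lit 33) (.e (nat_lit 392960) (nat_lit 5) .nil))))) (.g (nat_lit 4) .nil .nil)))))) (.nd (nat_lit 4) (.nd (nat_lit 5) (.nd (nat_lit 6) 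
(.lf (nat_lit 200457) (.g (nat_lit 1074) (.e (nat_lit 73746) (nat_lit 3) (.e (nat_lit 516176) (nat_lit 14) (.e (nat_lit 474880) (nat_lit 3) (.e (nat_lit 98335) (nat_lit 18) (.e (nat_lit 164222) (nat_lit 181) (.e (nat_lit 7936) (nat_lit 89) .nil)))))) (.g (nat_lit 4) .nil .nil))) 
(.lf (nat_lit 200521) (.g (nat_lit 2339) (.e (nat_lit 73746) (nat_lit 3) (.e (nat_lit 516184) (nat_lit 16) (.e (nat_lit 491561) (nat_lit 11) (.e (nat_lit 368676) (nat_lit 21) (.e (nat_lit 516097) (nat_lit 0) (.e (nat_lit 7593) (nat_lit 407) .nil)))))) (.g (nat_lit 4) .nil .nil)))) (.nd (nat_lit 6) 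
(.lf (nat_lit 200489) (.g (nat_lit 1619) (.e (nat_lit 73746) (nat_lit 3) (.e (nat_lit 516179) (nat_lit 15) (.e (nat_lit 475210) (nat_lit 41) (.e (nat_lit 720640) (nat_lit 0) .nil)))) .nil)) 
(.lf (nat_lit 200553) (.g (nat_lit 1303) (.e (nat_lit 73746) (nat_lit 3) (.e (nat_lit 524032) (nat_lit 32) (.e (nat_lit 385091) (nat_lit 49) (.e (nat_lit 778291) (nat_lit 0) (.e (nat_lit 1638) (nat_lit 114) (.e (nat_lit 392960) (nat_lit 5) .nil)))))) (.g (nat_lit 5) .nil .nil))))) (.nd (nat_lit 5) (.nd (nat_lit 6) 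
(.lf (nat_lit 200473) (.g (nat_lit 1716) (.e (nat_lit 73746) (nat_lit 3) (.e (nat_lit 516176) (nat_lit 14) (.e (nat_lit 466977) (nat_lit 22) (.e (nat_lit 196651) (nat_lit 10) (.e (nat_lit 8193) (nat_lit 0) (.e (nat_lit 6252) (nat_lit 337) (.e (nat_lit 7936) (nat_lit 89) .nil))))))) (.g (nat_lit 5) .nil .nil))) 
(.lf (nat_lit 200537) (.g (nat_lit 3232) (.e (nat_lit 73746) (nat_lit 3) (.e (nat_lit 516185) (nat_lit 16) (.e (nat_lit 491560) (nat_lit 10) (.e (nat_lit 344117) (nat_lit 21) (.e (nat_lit 516099) (nat_lit 0) .nil))))) .nil))) (.nd (nat_lit 6) 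
(.lf (nat_lit 200505) (.g (nat_lit 2955) (.e (nat_lit 73746) (nat_lit 3) (.e (nat_lit 516183) (nat_lit 16) (.e (nat_lit 491547) (nat_lit 9) (.e (nat_lit 336019) (nat_lit 3) (.e (nat_lit 98319) (nat_lit 17) (.e (nat_lit 7593) (nat_lit 407) .nil)))))) (.g (nat_lit 4) .nil .nil))) 
(.lf (nat_lit 200569) (.g (nat_lit 2862) (.e (nat_lit 73747) (nat_lit 3) (.e (nat_lit 516097) (nat_lit 0) (.e (nat_lit 7591) (nat_lit 407) (.e (nat_lit 73747) (nat_lit 3) (.e (nat_lit 516097) (nat_lit 0) (.e (nat_lit 7591) (nat_lit 407) .nil)))))) (.g (nat_lit 4) .nil .nil))))))) (.nd (nat_lit 3) (.nd (nat_lit 4) (.nd (nat_lit 5) (.nd (nat_lit 6) 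
(.lf (nat_lit 200453) (.g (nat_lit 1684) (.e (nat_lit 73746) (nat_lit 3) (.e (nat_lit 516176) (nat_lit 14) (.e (nat_lit 474880) (nat_lit 3) (.e (nat_lit 98319) (nat_lit 17) (.e (nat_lit 3605) (nat_lit 225) (.e (nat_lit 769792) (nat_lit 9) .nil)))))) (.g (nat_lit 5) .nil .nil))) 
(.lf (nat_lit 200517) (.g (nat_lit 2020) (.e (nat_lit 73746) (nat_lit 3) (.e (nat_lit 516184) (nat_lit 16) (.e (nat_lit 491560) (nat_lit 10) (.e (nat_lit 344114) (nat_lit 20) (.e (nat_lit 507907) (nat_lit 0) .nil))))) .nil))) (.nd (nat_lit 6) 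
(.lf (nat_lit 200485) (.g (nat_lit 1309) (.e (nat_lit 73746) (nat_lit 3) (.e (nat_lit 516176) (nat_lit 14) (.e (nat_lit 466981) (nat_lit 23) (.e (nat_lit 204830) (nat_lit 18) .nil)))) .nil)) 
(.lf (nat_lit 200549) (.g (nat_lit 2519) (.e (nat_lit 73746) (nat_lit 3) (.e (nat_lit 516195) (nat_lit 26) (.e (nat_lit 336027) (nat_lit 3) (.e (nat_lit 98323) (nat_lit 17) (.e (nat_lit 3558) (nat_lit 221) (.e (nat_lit 729112) (nat_lit 22) (.e (nat_lit 98048) (nat_lit 5) .nil))))))) (.g (nat_lit 4) .nil .nil))))) (.nd (nat_lit 5) (.nd (nat_lit 6) 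
(.lf (nat_lit 200469) (.g (nat_lit 1888) (.e (nat_lit 73746) (nat_lit 3) (.e (nat_lit 516176) (nat_lit 14) (.e (nat_lit 466976) (nat_lit 22) (.e (nat_lit 196661) (nat_lit 12) (.e (nat_lit 57353) (nat_lit 0) (.e (nat_lit 4457) (nat_lit 263) (.e (nat_lit 7936) (nat_lit 89) .nil))))))) (.g (nat_lit 5) .nil .nil))) 
(.lf (nat_lit 200533) (.g (nat_lit 1865) (.e (nat_lit 73746) (nat_lit 3) (.e (nat_lit 516185) (nat_lit 16) (.e (nat_lit 491560) (nat_lit 10) (.e (nat_lit 344114) (nat_lit 20) .nil)))) .nil))) (.nd (nat_lit 6) 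
(.lf (nat_lit 200501) (.g (nat_lit 2050) (.e (nat_lit 73746) (nat_lit 3) (.e (nat_lit 516180) (nat_lit 15) (.e (nat_lit 475214) (nat_lit 42) (.e (nat_lit 720937) (nat_lit 22) (.e (nat_lit 90155) (nat_lit 10) (.e (nat_lit 16128) (nat_lit 255) .nil)))))) (.g (nat_lit 4) .nil .nil))) 
(.lf (nat_lit 200565) (.g (nat_lit 1346) (.e (nat_lit 73746) (nat_lit 3) (.e (nat_lit 524032) (nat_lit 33) (.e (nat_lit 401458) (nat_lit 13) (.e (nat_lit 483333) (nat_lit 0) (.e (nat_lit 7936) (nat_lit 407) .nil))))) (.g (nat_lit 4) .nil .nil)))))) (.nd (nat_lit 4) (.nd (nat_lit 5) (.nd (nat_lit 6) 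
(.lf (nat_lit 200461) (.g (nat_lit 2280) (.e (nat_lit 73746) (nat_lit 3) (.e (nat_lit 516176) (nat_lit 14) (.e (nat_lit 466967) (nat_lit 20) (.e (nat_lit 3305) (nat_lit 202) (.e (nat_lit 573477) (nat_lit 12) (.e (nat_lit 57352) (nat_lit 0) (.e (nat_lit 7122) (nat_lit 382) (.e (nat_lit 1214) (nat_lit 89) .nil)))))))) (.g (nat_lit 4) .nil .nil))) 
(.lf (nat_lit 200525) (.g (nat_lit 584) (.e (nat_lit 73746) (nat_lit 3) (.e (nat_lit 516185) (nat_lit 16) (.e (nat_lit 491557) (nat_lit 9) .nil))) .nil))) (.nd (nat_lit 6) 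
(.lf (nat_lit 200493) (.g (nat_lit 1853) (.e (nat_lit 73746) (nat_lit 3) (.e (nat_lit 516179) (nat_lit 15) (.e (nat_lit 475214) (nat_lit 42) (.e (nat_lit 720943) (nat_lit 23) (.e (nat_lit 98309) (nat_lit 0) .nil))))) .nil)) 
(.lf (nat_lit 200557) (.g (nat_lit 1757) (.e (nat_lit 73746) (nat_lit 3) (.e (nat_lit 524032) (nat_lit 32) (.e (nat_lit 385105) (nat_lit 50) (.e (nat_lit 786487) (nat_lit 33) (.e (nat_lit 392960) (nat_lit 5) .nil))))) (.g (nat_lit 4) .nil .nil))))) (.nd (nat_lit 5) (.nd (nat_lit 6) 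
(.lf (nat_lit 200477) (.g (nat_lit 1150) (.e (nat_lit 73746) (nat_lit 3) (.e (nat_lit 516176) (nat_lit 14) (.e (nat_lit 466979) (nat_lit 23) (.e (nat_lit 212736) (nat_lit 1) .nil)))) .nil)) 
(.lf (nat_lit 200541) (.g (nat_lit 2300) (.e (nat_lit 73746) (nat_lit 3) (.e (nat_lit 516195) (nat_lit 26) (.e (nat_lit 335995) (nat_lit 1) (.e (nat_lit 57848) (nat_lit 252) (.e (nat_lit 57383) (nat_lit 4) (.e (nat_lit 106556) (nat_lit 15) (.e (nat_lit 57898) (nat_lit 275) .nil))))))) (.g (nat_lit 4) .nil .nil)))) (.nd (nat_lit 6) 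
(.lf (nat_lit 200509) (.g (nat_lit 2932) (.e (nat_lit 73746) (nat_lit 3) (.e (nat_lit 516183) (nat_lit 16) (.e (nat_lit 491560) (nat_lit 10) (.e (nat_lit 344117) (nat_lit 21) (.e (nat_lit 516098) (nat_lit 0) (.e (nat_lit 7593) (nat_lit 407) .nil)))))) (.g (nat_lit 4) .nil .nil))) 
(.lf (nat_lit 200573) (.g (nat_lit 2178) (.e (nat_lit 73747) (nat_lit 3) (.e (nat_lit 516098) (nat_lit 0) (.e (nat_lit 7593) (nat_lit 407) (.e (nat_lit 73746) (nat_lit 3) (.e (nat_lit 516100) (nat_lit 0) (.e (nat_lit 7936) (nat_lit 407) .nil)))))) (.g (nat_lit 5) .nil .nil)))))))) (.nd (nat_lit 2) (.nd (nat_lit 3) (.nd (nat_lit 4) (.nd (nat_lit 5) (.nd (nat_lit 6) 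
(.lf (nat_lit 200451) (.g (nat_lit 436) (.e (nat_lit 73746) (nat_lit 3) (.e (nat_lit 516176) (nat_lit 14) (.e (nat_lit 474880) (nat_lit 3) .nil))) .nil)) 
(.lf (nat_lit 200515) (.g (nat_lit 1188) (.e (nat_lit 73746) (nat_lit 3) (.e (nat_lit 516184) (nat_lit 16) (.e (nat_lit 491559) (nat_lit 10) (.e (nat_lit 344115) (nat_lit 20) .nil)))) .nil))) (.nd (nat_lit 6) 
(.lf (nat_lit 200483) (.g (nat_lit 1526) (.e (nat_lit 73746) (nat_lit 3) (.e (nat_lit 516176) (nat_lit 14) (.e (nat_lit 466981) (nat_lit 23) (.e (nat_lit 204827) (nat_lit 17) (.e (nat_lit 1905) (nat_lit 129) .nil))))) .nil)) 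
(.lf (nat_lit 200547) (.g (nat_lit 2207) (.e (nat_lit 73746) (nat_lit 3) (.e (nat_lit 516195) (nat_lit 26) (.e (nat_lit 336021) (nat_lit 3) (.e (nat_lit 106240) (nat_lit 10) (.e (nat_lit 344132) (nat_lit 26) (.e (nat_lit 564992) (nat_lit 5) .nil)))))) (.g (nat_lit 5) .nil .nil))))) (.nd (nat_lit 5) (.nd (nat_lit 6) 
(.lf (nat_lit 200467) (.g (nat_lit 516) (.e (nat_lit 73746) (nat_lit 3) (.e (nat_lit 516176) (nat_lit 14) (.e (nat_lit 466976) (nat_lit 22) .nil))) .nil)) 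
(.lf (nat_lit 200531) (.g (nat_lit 2375) (.e (nat_lit 73746) (nat_lit 3) (.e (nat_lit 516185) (nat_lit 16) (.e (nat_lit 491560) (nat_lit 10) (.e (nat_lit 344108) (nat_lit 19) .nil)))) .nil))) (.nd (nat_lit 6) 
(.lf (nat_lit 200499) (.g (nat_lit 918) (.e (nat_lit 73746) (nat_lit 3) (.e (nat_lit 516179) (nat_lit 15) (.e (nat_lit 475220) (nat_lit 44) (.e (nat_lit 737315) (nat_lit 12) .nil)))) .nil)) 
(.lf (nat_lit 200563) (.g (nat_lit 1482) (.e (nat_lit 73746) (nat_lit 3) (.e (nat_lit 524032) (nat_lit 33) (.e (nat_lit 401438) (nat_lit 9) (.e (nat_lit 426558) (nat_lit 33) (.e (nat_lit 392960) (nat_lit 5) .nil))))) (.g (nat_lit 4) .nil .nil)))))) (.nd (nat_lit 4) (.nd (nat_lit 5) (.nd (nat_lit 6) 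
(.lf (nat_lit 200459) (.g (nat_lit 575) (.e (nat_lit 73746) (nat_lit 3) (.e (nat_lit 516176) (nat_lit 14) (.e (nat_lit 466967) (nat_lit 20) .nil))) .nil)) 
(.lf (nat_lit 200523) (.g (nat_lit 3084) (.e (nat_lit 73746) (nat_lit 3) (.e (nat_lit 516185) (nat_lit 16) (.e (nat_lit 491546) (nat_lit 9) (.e (nat_lit 336028) (nat_lit 3) (.e (nat_lit 98325) (nat_lit 17) (.e (nat_lit 7936) (nat_lit 407) .nil)))))) (.g (nat_lit 5) .nil .nil)))) (.nd (nat_lit 6) 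
(.lf (nat_lit 200491) (.g (nat_lit 1573) (.e (nat_lit 73746) (nat_lit 3) (.e (nat_lit 516179) (nat_lit 15) (.e (nat_lit 475211) (nat_lit 41) (.e (nat_lit 712706) (nat_lit 0) .nil)))) .nil)) 
(.lf (nat_lit 200555) (.g (nat_lit 1046) (.e (nat_lit 73746) (nat_lit 3) (.e (nat_lit 524032) (nat_lit 32) (.e (nat_lit 385103) (nat_lit 50) (.e (nat_lit 786487) (nat_lit 33) (.e (nat_lit 392960) (nat_lit 5) .nil))))) (.g (nat_lit 4) .nil .nil))))) (.nd (nat_lit 5) (.nd (nat_lit 6) 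
(.lf (nat_lit 200475) (.g (nat_lit 1262) (.e (nat_lit 73746) (nat_lit 3) (.e (nat_lit 516176) (nat_lit 14) (.e (nat_lit 466977) (nat_lit 22) (.e (nat_lit 196660) (nat_lit 12) .nil)))) .nil)) 
(.lf (nat_lit 200539) (.g (nat_lit 2184) (.e (nat_lit 73746) (nat_lit 3) (.e (nat_lit 516185) (nat_lit 16) (.e (nat_lit 491560) (nat_lit 10) (.e (nat_lit 344118) (nat_lit 21) (.e (nat_lit 516105) (nat_lit 0) .nil))))) .nil))) (.nd (nat_lit 6) 
(.lf (nat_lit 200507) (.g (nat_lit 1342) (.e (nat_lit 73746) (nat_lit 3) (.e (nat_lit 516183) (nat_lit 16) (.e (nat_lit 491556) (nat_lit 9) (.e (nat_lit 335879) (nat_lit 0) .nil)))) .nil)) 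
(.lf (nat_lit 200571) (.g (nat_lit 2012) (.e (nat_lit 73747) (nat_lit 3) (.e (nat_lit 516098) (nat_lit 0) (.e (nat_lit 7587) (nat_lit 406) (.e (nat_lit 65571) (nat_lit 3) (.e (nat_lit 98320) (nat_lit 17) (.e (nat_lit 7591) (nat_lit 407) .nil)))))) (.g (nat_lit 4) .nil .nil))))))) (.nd (nat_lit 3) (.nd (nat_lit 4) (.nd (nat_lit 5) (.nd (nat_lit 6) 
(.lf (nat_lit 200455) (.g (nat_lit 1813) (.e (nat_lit 73746) (nat_lit 3) (.e (nat_lit 516176) (nat_lit 14) (.e (nat_lit 474880) (nat_lit 3) (.e (nat_lit 98325) (nat_lit 17) (.e (nat_lit 3604) (nat_lit 225) (.e (nat_lit 769792) (nat_lit 9) .nil)))))) (.g (nat_lit 5) .nil .nil))) 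
(.lf (nat_lit 200519) (.g (nat_lit 3589) (.e (nat_lit 73746) (nat_lit 3) (.e (nat_lit 516184) (nat_lit 16) (.e (nat_lit 491560) (nat_lit 10) (.e (nat_lit 344117) (nat_lit 21) (.e (nat_lit 516097) (nat_lit 0) (.e (nat_lit 7593) (nat_lit 407) .nil)))))) (.g (nat_lit 4) .nil .nil)))) (.nd (nat_lit 6) 
(.lf (nat_lit 200487) (.g (nat_lit 2947) (.e (nat_lit 73746) (nat_lit 3) (.e (nat_lit 516176) (nat_lit 14) (.e (nat_lit 466981) (nat_lit 23) (.e (nat_lit 204830) (nat_lit 18) (.e (nat_lit 65280) (nat_lit 221) (.e (nat_lit 1209) (nat_lit 89) .nil)))))) (.g (nat_lit 4) .nil .nil))) 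
(.lf (nat_lit 200551) (.g (nat_lit 2027) (.e (nat_lit 73746) (nat_lit 3) (.e (nat_lit 516195) (nat_lit 26) (.e (nat_lit 336027) (nat_lit 3) (.e (nat_lit 98325) (nat_lit 17) (.e (nat_lit 7936) (nat_lit 221) .nil))))) .nil)))) (.nd (nat_lit 5) (.nd (nat_lit 6) 
(.lf (nat_lit 200471) (.g (nat_lit 1837) (.e (nat_lit 73746) (nat_lit 3) (.e (nat_lit 516176) (nat_lit 14) (.e (nat_lit 466977) (nat_lit 22) (.e (nat_lit 196649) (nat_lit 10) (.e (nat_lit 8200) (nat_lit 0) .nil))))) .nil)) 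
(.lf (nat_lit 200535) (.g (nat_lit 2076) (.e (nat_lit 73746) (nat_lit 3) (.e (nat_lit 516185) (nat_lit 16) (.e (nat_lit 491560) (nat_lit 10) (.e (nat_lit 344116) (nat_lit 21) .nil)))) .nil))) (.nd (nat_lit 6) 
(.lf (nat_lit 200503) (.g (nat_lit 3407) (.e (nat_lit 73746) (nat_lit 3) (.e (nat_lit 516183) (nat_lit 16) (.e (nat_lit 491546) (nat_lit 9) (.e (nat_lit 336013) (nat_lit 2) (.e (nat_lit 90165) (nat_lit 12) (.e (nat_lit 171776) (nat_lit 192) .nil)))))) (.g (nat_lit 5) .nil .nil))) 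
(.lf (nat_lit 200567) (.g (nat_lit 1439) (.e (nat_lit 73746) (nat_lit 3) (.e (nat_lit 524032) (nat_lit 33) (.e (nat_lit 401459) (nat_lit 13) (.e (nat_lit 483333) (nat_lit 0) (.e (nat_lit 7936) (nat_lit 407) .nil))))) (.g (nat_lit 4) .nil .nil)))))) (.nd (nat_lit 4) (.nd (nat_lit 5) (.nd (nat_lit 6) 
(.lf (nat_lit 200463) (.g (nat_lit 1491) (.e (nat_lit 73746) (nat_lit 3) (.e (nat_lit 516176) (nat_lit 14) (.e (nat_lit 466974) (nat_lit 22) (.e (nat_lit 196658) (nat_lit 12) .nil)))) .nil)) 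
(.lf (nat_lit 200527) (.g (nat_lit 1198) (.e (nat_lit 73746) (nat_lit 3) (.e (nat_lit 516185) (nat_lit 16) (.e (nat_lit 491558) (nat_lit 10) (.e (nat_lit 344115) (nat_lit 20) .nil)))) .nil))) (.nd (nat_lit 6) 
(.lf (nat_lit 200495) (.g (nat_lit 2408) (.e (nat_lit 73746) (nat_lit 3) (.e (nat_lit 516179) (nat_lit 15) (.e (nat_lit 475214) (nat_lit 42) (.e (nat_lit 720958) (nat_lit 26) .nil)))) .nil)) 
(.lf (nat_lit 200559) (.g (nat_lit 1351) (.e (nat_lit 73746) (nat_lit 3) (.e (nat_lit 524032) (nat_lit 33) (.e (nat_lit 401435) (nat_lit 9) (.e (nat_lit 426558) (nat_lit 33) (.e (nat_lit 392960) (nat_lit 5) .nil))))) (.g (nat_lit 4) .nil .nil))))) (.nd (nat_lit 5) (.nd (nat_lit 6) 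
(.lf (nat_lit 200479) (.g (nat_lit 483) (.e (nat_lit 73746) (nat_lit 3) (.e (nat_lit 516176) (nat_lit 14) (.e (nat_lit 466981) (nat_lit 23) .nil))) .nil)) 
(.lf (nat_lit 200543) (.g (nat_lit 1826) (.e (nat_lit 73746) (nat_lit 3) (.e (nat_lit 516195) (nat_lit 26) (.e (nat_lit 335995) (nat_lit 1) (.e (nat_lit 57872) (nat_lit 264) (.e (nat_lit 1188) (nat_lit 88) (.e (nat_lit 65631) (nat_lit 15) (.e (nat_lit 7592) (nat_lit 407) .nil))))))) (.g (nat_lit 4) .nil .nil)))) (.nd (nat_lit 6) 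
(.lf (nat_lit 200511) (.g (nat_lit 3070) (.e (nat_lit 73746) (nat_lit 3) (.e (nat_lit 516184) (nat_lit 16) (.e (nat_lit 491546) (nat_lit 9) (.e (nat_lit 336028) (nat_lit 3) (.e (nat_lit 98325) (nat_lit 17) (.e (nat_lit 7936) (nat_lit 407) .nil)))))) (.g (nat_lit 5) .nil .nil))) 
(.lf (nat_lit 200575) (.g (nat_lit 2020) (.e (nat_lit 73747) (nat_lit 3) (.e (nat_lit 516098) (nat_lit 0) (.e (nat_lit 7593) (nat_lit 407) (.e (nat_lit 73746) (nat_lit 3) (.e (nat_lit 516105) (nat_lit 0) (.e (nat_lit 7936) (nat_lit 407) .nil)))))) (.g (nat_lit 4) .nil .nil))))))))))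

noncomputable def tv2649 : DT := (.nd (nat_lit 0) (.nd (nat_lit 1) (.nd (nat_lit 2) (.nd (nat_lit 3) (.nd (nat_lit 4) (.nd (nat_lit 5) (.nd (nat_lit 6) 
(.lf (nat_lit 200576) (.g (nat_lit 2823) (.e (nat_lit 73747) (nat_lit 3) (.e (nat_lit 516102) (nat_lit 0) (.e (nat_lit 6989) (nat_lit 377) (.e (nat_lit 2777) (nat_lit 178) (.e (nat_lit 286722) (nat_lit 0) (.e (nat_lit 1773) (nat_lit 118) (.e (nat_lit 507908) (nat_lit 0) (.e (nat_lit 5409) (nat_lit 303) .nil)))))))) (.g (nat_lit 4) .nil .nil))) 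
(.lf (nat_lit 200640) (.g (nat_lit 3090) (.e (nat_lit 73747) (nat_lit 3) (.e (nat_lit 516139) (nat_lit 7) (.e (nat_lit 409645) (nat_lit 18) (.e (nat_lit 303119) (nat_lit 3) (.e (nat_lit 204817) (nat_lit 17) .nil))))) .nil))) (.nd (nat_lit 6) 
(.lf (nat_lit 200608) (.g (nat_lit 2777) (.e (nat_lit 73747) (nat_lit 3) (.e (nat_lit 516138) (nat_lit 7) (.e (nat_lit 409645) (nat_lit 18) (.e (nat_lit 303119) (nat_lit 3) (.e (nat_lit 204819) (nat_lit 17) (.e (nat_lit 7936) (nat_lit 348) .nil)))))) (.g (nat_lit 4) .nil .nil))) 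
(.lf (nat_lit 200672) (.g (nat_lit 2364) (.e (nat_lit 73747) (nat_lit 3) (.e (nat_lit 516142) (nat_lit 8) (.e (nat_lit 417827) (nat_lit 17) (.e (nat_lit 294928) (nat_lit 2) (.e (nat_lit 90165) (nat_lit 12) (.e (nat_lit 171776) (nat_lit 192) .nil)))))) (.g (nat_lit 5) .nil .nil))))) (.nd (nat_lit 5) (.nd (nat_lit 6) 
(.lf (nat_lit 200592) (.g (nat_lit 2201) (.e (nat_lit 73747) (nat_lit 3) (.e (nat_lit 516129) (nat_lit 3) (.e (nat_lit 221214) (nat_lit 23) (.e (nat_lit 204831) (nat_lit 18) (.e (nat_lit 57930) (nat_lit 282) .nil))))) .nil)) 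
(.lf (nat_lit 200656) (.g (nat_lit 3209) (.e (nat_lit 73747) (nat_lit 3) (.e (nat_lit 516139) (nat_lit 7) (.e (nat_lit 409648) (nat_lit 18) (.e (nat_lit 303119) (nat_lit 3) (.e (nat_lit 204819) (nat_lit 17) (.e (nat_lit 7936) (nat_lit 348) .nil)))))) (.g (nat_lit 5) .nil .nil)))) (.nd (nat_lit 6) 
(.lf (nat_lit 200624) (.g (nat_lit 2654) (.e (nat_lit 73747) (nat_lit 3) (.e (nat_lit 516139) (nat_lit 7) (.e (nat_lit 409623) (nat_lit 10) (.e (nat_lit 5293) (nat_lit 298) (.e (nat_lit 1250) (nat_lit 92) (.e (nat_lit 98320) (nat_lit 17) (.e (nat_lit 7591) (nat_lit 407) .nil))))))) (.g (nat_lit 4) .nil .nil))) 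
(.lf (nat_lit 200688) (.g (nat_lit 2427) (.e (nat_lit 73747) (nat_lit 3) (.e (nat_lit 516147) (nat_lit 9) (.e (nat_lit 426448) (nat_lit 20) (.e (nat_lit 114719) (nat_lit 23) (.e (nat_lit 98307) (nat_lit 0) (.e (nat_lit 7936) (nat_lit 348) .nil)))))) (.g (nat_lit 4) .nil .nil)))))) (.nd (nat_lit 4) (.nd (nat_lit 5) (.nd (nat_lit 6) 
(.lf (nat_lit 200584) (.g (nat_lit 1373) (.e (nat_lit 73747) (nat_lit 3) (.e (nat_lit 516117) (nat_lit 1) (.e (nat_lit 164183) (nat_lit 154) (.e (nat_lit 57353) (nat_lit 0) .nil)))) .nil)) 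
(.lf (nat_lit 200648) (.g (nat_lit 2416) (.e (nat_lit 73747) (nat_lit 3) (.e (nat_lit 516139) (nat_lit 7) (.e (nat_lit 409647) (nat_lit 18) (.e (nat_lit 303119) (nat_lit 3) (.e (nat_lit 204821) (nat_lit 17) .nil))))) .nil))) (.nd (nat_lit 6) 
(.lf (nat_lit 200616) (.g (nat_lit 3415) (.e (nat_lit 73747) (nat_lit 3) (.e (nat_lit 516139) (nat_lit 7) (.e (nat_lit 409616) (nat_lit 10) (.e (nat_lit 5355) (nat_lit 298) (.e (nat_lit 1235) (nat_lit 91) (.e (nat_lit 90165) (nat_lit 12) (.e (nat_lit 171776) (nat_lit 192) .nil))))))) (.g (nat_lit 5) .nil .nil))) 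
(.lf (nat_lit 200680) (.g (nat_lit 3986) (.e (nat_lit 73747) (nat_lit 3) (.e (nat_lit 516146) (nat_lit 9) (.e (nat_lit 426422) (nat_lit 16) (.e (nat_lit 57691) (nat_lit 156) (.e (nat_lit 163875) (nat_lit 3) (.e (nat_lit 204830) (nat_lit 18) (.e (nat_lit 57830) (nat_lit 250) (.e (nat_lit 1212) (nat_lit 89) .nil)))))))) (.g (nat_lit 5) .nil .nil))))) (.nd (nat_lit 5) (.nd (nat_lit 6) 
(.lf (nat_lit 200600) (.g (nat_lit 1974) (.e (nat_lit 73747) (nat_lit 3) (.e (nat_lit 516131) (nat_lit 3) (.e (nat_lit 221215) (nat_lit 23) (.e (nat_lit 204829) (nat_lit 18) (.e (nat_lit 57926) (nat_lit 282) .nil))))) .nil)) 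
(.lf (nat_lit 200664) (.g (nat_lit 3015) (.e (nat_lit 73747) (nat_lit 3) (.e (nat_lit 516139) (nat_lit 7) (.e (nat_lit 409649) (nat_lit 18) (.e (nat_lit 303118) (nat_lit 3) (.e (nat_lit 204817) (nat_lit 17) .nil))))) .nil))) (.nd (nat_lit 6) 
(.lf (nat_lit 200632) (.g (nat_lit 3153) (.e (nat_lit 73747) (nat_lit 3) (.e (nat_lit 516139) (nat_lit 7) (.e (nat_lit 409641) (nat_lit 17) (.e (nat_lit 294928) (nat_lit 2) (.e (nat_lit 90181) (nat_lit 16) (.e (nat_lit 237312) (nat_lit 192) .nil)))))) (.g (nat_lit 4) .nil .nil))) 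
(.lf (nat_lit 200696) (.g (nat_lit 4979) (.e (nat_lit 73747) (nat_lit 3) (.e (nat_lit 516151) (nat_lit 9) (.e (nat_lit 426211) (nat_lit 9) (.e (nat_lit 426125) (nat_lit 2) (.e (nat_lit 196683) (nat_lit 18) (.e (nat_lit 1118) (nat_lit 82) (.e (nat_lit 8418) (nat_lit 132) (.e (nat_lit 1209) (nat_lit 89) .nil)))))))) (.g (nat_lit 4) .nil .nil))))))) 
(.nd (nat_lit 3) (.nd (nat_lit 4) (.nd (nat_lit 5) (.nd (nat_lit 6) 
(.lf (nat_lit 200580) (.g (nat_lit 3166) (.e (nat_lit 73747) (nat_lit 3) (.e (nat_lit 516115) (nat_lit 1) (.e (nat_lit 164179) (nat_lit 154) (.e (nat_lit 57354) (nat_lit 0) (.e (nat_lit 1788) (nat_lit 119) (.e (nat_lit 516129) (nat_lit 3) (.e (nat_lit 221210) (nat_lit 22) (.e (nat_lit 196668) (nat_lit 14) .nil)))))))) (.g (nat_lit 4) .nil .nil))) 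
(.lf (nat_lit 200644) (.g (nat_lit 2871) (.e (nat_lit 73747) (nat_lit 3) (.e (nat_lit 516139) (nat_lit 7) (.e (nat_lit 409646) (nat_lit 18) (.e (nat_lit 303119) (nat_lit 3) (.e (nat_lit 204817) (nat_lit 17) .nil))))) .nil))) (.nd (nat_lit 6) 
(.lf (nat_lit 200612) (.g (nat_lit 1874) (.e (nat_lit 73747) (nat_lit 3) (.e (nat_lit 516139) (nat_lit 7) (.e (nat_lit 409616) (nat_lit 10) (.e (nat_lit 5353) (nat_lit 298) (.e (nat_lit 1074) (nat_lit 81) .nil))))) .nil)) 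
(.lf (nat_lit 200676) (.g (nat_lit 2423) (.e (nat_lit 73747) (nat_lit 3) (.e (nat_lit 516146) (nat_lit 9) (.e (nat_lit 426294) (nat_lit 11) (.e (nat_lit 466688) (nat_lit 21) (.e (nat_lit 516115) (nat_lit 1) (.e (nat_lit 164308) (nat_lit 226) (.e (nat_lit 1208) (nat_lit 89) .nil))))))) (.g (nat_lit 5) .nil .nil))))) (.nd (nat_lit 5) (.nd (nat_lit 6) 
(.lf (nat_lit 200596) (.g (nat_lit 1252) (.e (nat_lit 73747) (nat_lit 3) (.e (nat_lit 516131) (nat_lit 3) (.e (nat_lit 221214) (nat_lit 23) (.e (nat_lit 204819) (nat_lit 17) .nil)))) .nil)) 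
(.lf (nat_lit 200660) (.g (nat_lit 3432) (.e (nat_lit 73747) (nat_lit 3) (.e (nat_lit 516139) (nat_lit 7) (.e (nat_lit 409649) (nat_lit 18) (.e (nat_lit 303111) (nat_lit 0) (.e (nat_lit 3205) (nat_lit 194) (.e (nat_lit 507928) (nat_lit 10) (.e (nat_lit 7936) (nat_lit 303) .nil))))))) (.g (nat_lit 5) .nil .nil)))) (.nd (nat_lit 6) 
(.lf (nat_lit 200628) (.g (nat_lit 2989) (.e (nat_lit 73747) (nat_lit 3) (.e (nat_lit 516139) (nat_lit 7) (.e (nat_lit 409640) (nat_lit 17) (.e (nat_lit 294928) (nat_lit 2) (.e (nat_lit 90165) (nat_lit 12) (.e (nat_lit 171776) (nat_lit 192) .nil)))))) (.g (nat_lit 4) .nil .nil))) 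
(.lf (nat_lit 200692) (.g (nat_lit 5186) (.e (nat_lit 73747) (nat_lit 3) (.e (nat_lit 516151) (nat_lit 9) (.e (nat_lit 426211) (nat_lit 9) (.e (nat_lit 426125) (nat_lit 2) (.e (nat_lit 196615) (nat_lit 0) .nil))))) .nil))))) (.nd (nat_lit 4) (.nd (nat_lit 5) (.nd (nat_lit 6) 
(.lf (nat_lit 200588) (.g (nat_lit 2327) (.e (nat_lit 73747) (nat_lit 3) (.e (nat_lit 516129) (nat_lit 3) (.e (nat_lit 229120) (nat_lit 1) (.e (nat_lit 57849) (nat_lit 252) (.e (nat_lit 57390) (nat_lit 5) (.e (nat_lit 114712) (nat_lit 21) (.e (nat_lit 57830) (nat_lit 250) (.e (nat_lit 1212) (nat_lit 89) .nil)))))))) (.g (nat_lit 4) .nil .nil))) 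
(.lf (nat_lit 200652) (.g (nat_lit 826) (.e (nat_lit 73747) (nat_lit 3) (.e (nat_lit 516139) (nat_lit 7) (.e (nat_lit 409648) (nat_lit 18) (.e (nat_lit 303118) (nat_lit 3) .nil)))) .nil))) (.nd (nat_lit 6) 
(.lf (nat_lit 200620) (.g (nat_lit 2708) (.e (nat_lit 73747) (nat_lit 3) (.e (nat_lit 516139) (nat_lit 7) (.e (nat_lit 409617) (nat_lit 10) (.e (nat_lit 5355) (nat_lit 298) (.e (nat_lit 1234) (nat_lit 91) (.e (nat_lit 90181) (nat_lit 16) (.e (nat_lit 237312) (nat_lit 192) .nil))))))) (.g (nat_lit 4) .nil .nil))) 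
(.lf (nat_lit 200684) (.g (nat_lit 1836) (.e (nat_lit 73747) (nat_lit 3) (.e (nat_lit 516147) (nat_lit 9) (.e (nat_lit 426446) (nat_lit 20) (.e (nat_lit 114719) (nat_lit 23) (.e (nat_lit 98307) (nat_lit 0) (.e (nat_lit 7936) (nat_lit 348) .nil)))))) (.g (nat_lit 4) .nil .nil))))) (.nd (nat_lit 5) (.nd (nat_lit 6) 
(.lf (nat_lit 200604) (.g (nat_lit 541) (.e (nat_lit 73747) (nat_lit 3) (.e (nat_lit 516138) (nat_lit 7) (.e (nat_lit 409641) (nat_lit 17) .nil))) .nil)) 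
(.lf (nat_lit 200668) (.g (nat_lit 3418) (.e (nat_lit 73747) (nat_lit 3) (.e (nat_lit 516139) (nat_lit 7) (.e (nat_lit 409649) (nat_lit 18) (.e (nat_lit 303119) (nat_lit 3) (.e (nat_lit 204817) (nat_lit 17) (.e (nat_lit 7936) (nat_lit 348) .nil)))))) (.g (nat_lit 4) .nil .nil)))) (.nd (nat_lit 6) 
(.lf (nat_lit 200636) (.g (nat_lit 1960) (.e (nat_lit 73747) (nat_lit 3) (.e (nat_lit 516139) (nat_lit 7) (.e (nat_lit 409643) (nat_lit 18) (.e (nat_lit 303119) (nat_lit 3) (.e (nat_lit 204816) (nat_lit 17) .nil))))) .nil)) 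
(.lf (nat_lit 200700) (.g (nat_lit 5570) (.e (nat_lit 73747) (nat_lit 3) (.e (nat_lit 516151) (nat_lit 9) (.e (nat_lit 426211) (nat_lit 9) (.e (nat_lit 426125) (nat_lit 2) (.e (nat_lit 196686) (nat_lit 18) (.e (nat_lit 1115) (nat_lit 82) (.e (nat_lit 8418) (nat_lit 132) (.e (nat_lit 1209) (nat_lit 89) .nil)))))))) (.g (nat_lit 4) .nil .nil)))))))) 
(.nd (nat_lit 2) (.nd (nat_lit 3) (.nd (nat_lit 4) (.nd (nat_lit 5) (.nd (nat_lit 6) 
(.lf (nat_lit 200578) (.g (nat_lit 2563) (.e (nat_lit 73747) (nat_lit 3) (.e (nat_lit 516115) (nat_lit 1) (.e (nat_lit 164178) (nat_lit 154) (.e (nat_lit 57347) (nat_lit 0) (.e (nat_lit 1781) (nat_lit 119) (.e (nat_lit 516131) (nat_lit 3) (.e (nat_lit 221212) (nat_lit 22) (.e (nat_lit 196668) (nat_lit 14) .nil)))))))) (.g (nat_lit 4) .nil .nil))) 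
(.lf (nat_lit 200642) (.g (nat_lit 3402) (.e (nat_lit 73747) (nat_lit 3) (.e (nat_lit 516139) (nat_lit 7) (.e (nat_lit 409645) (nat_lit 18) (.e (nat_lit 303119) (nat_lit 3) (.e (nat_lit 204821) (nat_lit 17) (.e (nat_lit 7936) (nat_lit 348) .nil)))))) (.g (nat_lit 4) .nil .nil)))) (.nd (nat_lit 6) 
(.lf (nat_lit 200610) (.g (nat_lit 2397) (.e (nat_lit 73747) (nat_lit 3) (.e (nat_lit 516138) (nat_lit 7) (.e (nat_lit 409646) (nat_lit 18) (.e (nat_lit 303119) (nat_lit 3) (.e (nat_lit 204819) (nat_lit 17) .nil))))) .nil)) 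
(.lf (nat_lit 200674) (.g (nat_lit 3223) (.e (nat_lit 73747) (nat_lit 3) (.e (nat_lit 516145) (nat_lit 9) (.e (nat_lit 426448) (nat_lit 20) (.e (nat_lit 114719) (nat_lit 23) (.e (nat_lit 98307) (nat_lit 0) .nil))))) .nil)))) (.nd (nat_lit 5) (.nd (nat_lit 6) 
(.lf (nat_lit 200594) (.g (nat_lit 2004) (.e (nat_lit 73747) (nat_lit 3) (.e (nat_lit 516130) (nat_lit 3) (.e (nat_lit 221215) (nat_lit 23) (.e (nat_lit 204829) (nat_lit 18) (.e (nat_lit 57925) (nat_lit 282) .nil))))) .nil)) 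
(.lf (nat_lit 200658) (.g (nat_lit 2188) (.e (nat_lit 73747) (nat_lit 3) (.e (nat_lit 516139) (nat_lit 7) (.e (nat_lit 409649) (nat_lit 18) (.e (nat_lit 303107) (nat_lit 0) .nil)))) .nil))) (.nd (nat_lit 6) 
(.lf (nat_lit 200626) (.g (nat_lit 2027) (.e (nat_lit 73747) (nat_lit 3) (.e (nat_lit 516139) (nat_lit 7) (.e (nat_lit 417536) (nat_lit 16) (.e (nat_lit 286735) (nat_lit 3) (.e (nat_lit 98325) (nat_lit 17) (.e (nat_lit 7936) (nat_lit 407) .nil)))))) (.g (nat_lit 4) .nil .nil))) 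
(.lf (nat_lit 200690) (.g (nat_lit 2374) (.e (nat_lit 73747) (nat_lit 3) (.e (nat_lit 516151) (nat_lit 9) (.e (nat_lit 426170) (nat_lit 7) (.e (nat_lit 409617) (nat_lit 10) .nil)))) .nil))))) (.nd (nat_lit 4) (.nd (nat_lit 5) (.nd (nat_lit 6) 
(.lf (nat_lit 200586) (.g (nat_lit 2326) (.e (nat_lit 73747) (nat_lit 3) (.e (nat_lit 516119) (nat_lit 1) (.e (nat_lit 164179) (nat_lit 154) (.e (nat_lit 57347) (nat_lit 0) (.e (nat_lit 1781) (nat_lit 119) .nil))))) .nil)) 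
(.lf (nat_lit 200650) (.g (nat_lit 1309) (.e (nat_lit 73747) (nat_lit 3) (.e (nat_lit 516139) (nat_lit 7) (.e (nat_lit 409648) (nat_lit 18) (.e (nat_lit 303108) (nat_lit 0) .nil)))) .nil))) (.nd (nat_lit 6) 
(.lf (nat_lit 200618) (.g (nat_lit 898) (.e (nat_lit 73747) (nat_lit 3) (.e (nat_lit 516139) (nat_lit 7) (.e (nat_lit 409616) (nat_lit 10) (.e (nat_lit 7936) (nat_lit 298) .nil)))) .nil)) 
(.lf (nat_lit 200682) (.g (nat_lit 4652) (.e (nat_lit 73747) (nat_lit 3) (.e (nat_lit 516146) (nat_lit 9) (.e (nat_lit 426422) (nat_lit 16) (.e (nat_lit 57692) (nat_lit 156) (.e (nat_lit 163875) (nat_lit 3) (.e (nat_lit 204830) (nat_lit 18) (.e (nat_lit 57830) (nat_lit 250) (.e (nat_lit 1212) (nat_lit 89) .nil)))))))) (.g (nat_lit 6) .nil .nil))))) (.nd (nat_lit 5) (.nd (nat_lit 6) 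
(.lf (nat_lit 200602) (.g (nat_lit 673) (.e (nat_lit 73747) (nat_lit 3) (.e (nat_lit 516138) (nat_lit 7) (.e (nat_lit 409640) (nat_lit 17) .nil))) .nil)) 
(.lf (nat_lit 200666) (.g (nat_lit 1383) (.e (nat_lit 73747) (nat_lit 3) (.e (nat_lit 516139) (nat_lit 7) (.e (nat_lit 409649) (nat_lit 18) (.e (nat_lit 303119) (nat_lit 3) .nil)))) .nil))) (.nd (nat_lit 6) 
(.lf (nat_lit 200634) (.g (nat_lit 846) (.e (nat_lit 73747) (nat_lit 3) (.e (nat_lit 516139) (nat_lit 7) (.e (nat_lit 409642) (nat_lit 17) .nil))) .nil)) 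
(.lf (nat_lit 200698) (.g (nat_lit 5108) (.e (nat_lit 73747) (nat_lit 3) (.e (nat_lit 516151) (nat_lit 9) (.e (nat_lit 426211) (nat_lit 9) (.e (nat_lit 426125) (nat_lit 2) (.e (nat_lit 196686) (nat_lit 18) (.e (nat_lit 1112) (nat_lit 82) (.e (nat_lit 8418) (nat_lit 132) (.e (nat_lit 1209) (nat_lit 89) .nil)))))))) (.g (nat_lit 4) .nil .nil))))))) 
(.nd (nat_lit 3) (.nd (nat_lit 4) (.nd (nat_lit 5) (.nd (nat_lit 6) 
(.lf (nat_lit 200582) (.g (nat_lit 2363) (.e (nat_lit 73747) (nat_lit 3) (.e (nat_lit 516117) (nat_lit 1) (.e (nat_lit 164176) (nat_lit 154) (.e (nat_lit 57347) (nat_lit 0) (.e (nat_lit 1795) (nat_lit 119) (.e (nat_lit 516131) (nat_lit 3) (.e (nat_lit 221212) (nat_lit 22) (.e (nat_lit 196668) (nat_lit 14) .nil)))))))) (.g (nat_lit 4) .nil .nil))) 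
(.lf (nat_lit 200646) (.g (nat_lit 3527) (.e (nat_lit 73747) (nat_lit 3) (.e (nat_lit 516139) (nat_lit 7) (.e (nat_lit 409646) (nat_lit 18) (.e (nat_lit 303119) (nat_lit 3) (.e (nat_lit 204821) (nat_lit 17) (.e (nat_lit 7936) (nat_lit 348) .nil)))))) (.g (nat_lit 5) .nil .nil)))) (.nd (nat_lit 6) 
(.lf (nat_lit 200614) (.g (nat_lit 2150) (.e (nat_lit 73747) (nat_lit 3) (.e (nat_lit 516139) (nat_lit 7) (.e (nat_lit 409616) (nat_lit 10) (.e (nat_lit 5355) (nat_lit 298) (.e (nat_lit 1234) (nat_lit 91) .nil))))) .nil)) 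
(.lf (nat_lit 200678) (.g (nat_lit 1537) (.e (nat_lit 73747) (nat_lit 3) (.e (nat_lit 516146) (nat_lit 9) (.e (nat_lit 426320) (nat_lit 12) (.e (nat_lit 483072) (nat_lit 26) .nil)))) .nil)))) (.nd (nat_lit 5) (.nd (nat_lit 6) 
(.lf (nat_lit 200598) (.g (nat_lit 1202) (.e (nat_lit 73747) (nat_lit 3) (.e (nat_lit 516131) (nat_lit 3) (.e (nat_lit 221215) (nat_lit 23) (.e (nat_lit 204819) (nat_lit 17) .nil)))) .nil)) 
(.lf (nat_lit 200662) (.g (nat_lit 2868) (.e (nat_lit 73747) (nat_lit 3) (.e (nat_lit 516139) (nat_lit 7) (.e (nat_lit 409649) (nat_lit 18) (.e (nat_lit 303116) (nat_lit 2) (.e (nat_lit 196661) (nat_lit 12) .nil))))) .nil))) (.nd (nat_lit 6) 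
(.lf (nat_lit 200630) (.g (nat_lit 1747) (.e (nat_lit 73747) (nat_lit 3) (.e (nat_lit 516139) (nat_lit 7) (.e (nat_lit 409641) (nat_lit 17) (.e (nat_lit 294927) (nat_lit 2) .nil)))) .nil)) 
(.lf (nat_lit 200694) (.g (nat_lit 3204) (.e (nat_lit 73747) (nat_lit 3) (.e (nat_lit 516151) (nat_lit 9) (.e (nat_lit 426211) (nat_lit 9) (.e (nat_lit 426125) (nat_lit 2) (.e (nat_lit 204544) (nat_lit 7) .nil))))) .nil))))) (.nd (nat_lit 4) (.nd (nat_lit 5) (.nd (nat_lit 6) 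
(.lf (nat_lit 200590) (.g (nat_lit 1340) (.e (nat_lit 73747) (nat_lit 3) (.e (nat_lit 516129) (nat_lit 3) (.e (nat_lit 221210) (nat_lit 22) (.e (nat_lit 196613) (nat_lit 0) .nil)))) .nil)) 
(.lf (nat_lit 200654) (.g (nat_lit 2396) (.e (nat_lit 73747) (nat_lit 3) (.e (nat_lit 516139) (nat_lit 7) (.e (nat_lit 409648) (nat_lit 18) (.e (nat_lit 303118) (nat_lit 3) (.e (nat_lit 204817) (nat_lit 17) .nil))))) .nil))) (.nd (nat_lit 6) 
(.lf (nat_lit 200622) (.g (nat_lit 2618) (.e (nat_lit 73747) (nat_lit 3) (.e (nat_lit 516139) (nat_lit 7) (.e (nat_lit 409617) (nat_lit 10) (.e (nat_lit 5355) (nat_lit 298) (.e (nat_lit 1235) (nat_lit 91) (.e (nat_lit 90181) (nat_lit 16) (.e (nat_lit 237312) (nat_lit 192) .nil))))))) (.g (nat_lit 4) .nil .nil))) 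
(.lf (nat_lit 200686) (.g (nat_lit 2330) (.e (nat_lit 73747) (nat_lit 3) (.e (nat_lit 516147) (nat_lit 9) (.e (nat_lit 426448) (nat_lit 20) (.e (nat_lit 114718) (nat_lit 23) (.e (nat_lit 98307) (nat_lit 0) (.e (nat_lit 7936) (nat_lit 348) .nil)))))) (.g (nat_lit 5) .nil .nil))))) (.nd (nat_lit 5) (.nd (nat_lit 6) 
(.lf (nat_lit 200606) (.g (nat_lit 549) (.e (nat_lit 73747) (nat_lit 3) (.e (nat_lit 516138) (nat_lit 7) (.e (nat_lit 409642) (nat_lit 17) .nil))) .nil)) 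
(.lf (nat_lit 200670) (.g (nat_lit 3506) (.e (nat_lit 73747) (nat_lit 3) (.e (nat_lit 516139) (nat_lit 7) (.e (nat_lit 409649) (nat_lit 18) (.e (nat_lit 303119) (nat_lit 3) (.e (nat_lit 204821) (nat_lit 17) (.e (nat_lit 7936) (nat_lit 348) .nil)))))) (.g (nat_lit 5) .nil .nil)))) (.nd (nat_lit 6) 
(.lf (nat_lit 200638) (.g (nat_lit 2617) (.e (nat_lit 73747) (nat_lit 3) (.e (nat_lit 516139) (nat_lit 7) (.e (nat_lit 409643) (nat_lit 18) (.e (nat_lit 303119) (nat_lit 3) (.e (nat_lit 204821) (nat_lit 17) (.e (nat_lit 7936) (nat_lit 348) .nil)))))) (.g (nat_lit 5) .nil .nil))) 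
(.lf (nat_lit 200702) (.g (nat_lit 5481) (.e (nat_lit 73747) (nat_lit 3) (.e (nat_lit 516151) (nat_lit 9) (.e (nat_lit 426211) (nat_lit 9) (.e (nat_lit 426125) (nat_lit 2) (.e (nat_lit 196686) (nat_lit 18) (.e (nat_lit 1116) (nat_lit 82) (.e (nat_lit 8418) (nat_lit 132) (.e (nat_lit 1209) (nat_lit 89) .nil)))))))) (.g (nat_lit 4) .nil .nil))))))))) 
(.nd (nat_lit 1) (.nd (nat_lit 2) (.nd (nat_lit 3) (.nd (nat_lit 4) (.nd (nat_lit 5) 
(.nd (nat_lit 6) 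
(.lf (nat_lit 200577) (.g (nat_lit 3780) (.e (nat_lit 73747) (nat_lit 3) (.e (nat_lit 516102) (nat_lit 0) (.e (nat_lit 6989) (nat_lit 377) (.e (nat_lit 2777) (nat_lit 178) (.e (nat_lit 286733) (nat_lit 2) (.e (nat_lit 90165) (nat_lit 12) (.e (nat_lit 171776) (nat_lit 192) .nil))))))) (.g (nat_lit 5) .nil .nil))) 
(.lf (nat_lit 200641) (.g (nat_lit 3734) (.e (nat_lit 73747) (nat_lit 3) (.e (nat_lit 516139) (nat_lit 7) (.e (nat_lit 409645) (nat_lit 18) (.e (nat_lit 303119) (nat_lit 3) (.e (nat_lit 204819) (nat_lit 17) (.e (nat_lit 7936) (nat_lit 348) .nil)))))) (.g (nat_lit 5) .nil .nil)))) (.nd (nat_lit 6) 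
(.lf (nat_lit 200609) (.g (nat_lit 2614) (.e (nat_lit 73747) (nat_lit 3) (.e (nat_lit 516138) (nat_lit 7) (.e (nat_lit 409645) (nat_lit 18) (.e (nat_lit 303119) (nat_lit 3) (.e (nat_lit 204821) (nat_lit 17) (.e (nat_lit 7936) (nat_lit 348) .nil)))))) (.g (nat_lit 4) .nil .nil))) 
(.lf (nat_lit 200673) (.g (nat_lit 1638) (.e (nat_lit 73747) (nat_lit 3) (.e (nat_lit 516142) (nat_lit 8) (.e (nat_lit 417827) (nat_lit 17) (.e (nat_lit 294928) (nat_lit 2) (.e (nat_lit 90181) (nat_lit 16) (.e (nat_lit 237312) (nat_lit 192) .nil)))))) (.g (nat_lit 4) .nil .nil))))) (.nd (nat_lit 5) (.nd (nat_lit 6) 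
(.lf (nat_lit 200593) (.g (nat_lit 2317) (.e (nat_lit 73747) (nat_lit 3) (.e (nat_lit 516129) (nat_lit 3) (.e (nat_lit 221215) (nat_lit 23) (.e (nat_lit 204831) (nat_lit 18) (.e (nat_lit 57930) (nat_lit 282) .nil))))) .nil)) 
(.lf (nat_lit 200657) (.g (nat_lit 3348) (.e (nat_lit 73747) (nat_lit 3) (.e (nat_lit 516139) (nat_lit 7) (.e (nat_lit 409648) (nat_lit 18) (.e (nat_lit 303119) (nat_lit 3) (.e (nat_lit 204821) (nat_lit 17) (.e (nat_lit 7936) (nat_lit 348) .nil)))))) (.g (nat_lit 5) .nil .nil)))) (.nd (nat_lit 6) 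
(.lf (nat_lit 200625) (.g (nat_lit 2717) (.e (nat_lit 73747) (nat_lit 3) (.e (nat_lit 516139) (nat_lit 7) (.e (nat_lit 417536) (nat_lit 16) (.e (nat_lit 286733) (nat_lit 2) (.e (nat_lit 90165) (nat_lit 12) (.e (nat_lit 171776) (nat_lit 192) .nil)))))) (.g (nat_lit 5) .nil .nil))) 
(.lf (nat_lit 200689) (.g (nat_lit 1858) (.e (nat_lit 73747) (nat_lit 3) (.e (nat_lit 516147) (nat_lit 9) (.e (nat_lit 426448) (nat_lit 20) (.e (nat_lit 114719) (nat_lit 23) (.e (nat_lit 98309) (nat_lit 0) (.e (nat_lit 7936) (nat_lit 348) .nil)))))) (.g (nat_lit 4) .nil .nil)))))) (.nd (nat_lit 4) (.nd (nat_lit 5) (.nd (nat_lit 6) 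
(.lf (nat_lit 200585) (.g (nat_lit 2173) (.e (nat_lit 73747) (nat_lit 3) (.e (nat_lit 516119) (nat_lit 1) (.e (nat_lit 164178) (nat_lit 154) (.e (nat_lit 57347) (nat_lit 0) (.e (nat_lit 1781) (nat_lit 119) .nil))))) .nil)) 
(.lf (nat_lit 200649) (.g (nat_lit 1480) (.e (nat_lit 73747) (nat_lit 3) (.e (nat_lit 516139) (nat_lit 7) (.e (nat_lit 409648) (nat_lit 18) (.e (nat_lit 303107) (nat_lit 0) (.e (nat_lit 3205) (nat_lit 194) .nil))))) .nil))) (.nd (nat_lit 6) 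
(.lf (nat_lit 200617) (.g (nat_lit 2821) (.e (nat_lit 73747) (nat_lit 3) (.e (nat_lit 516139) (nat_lit 7) (.e (nat_lit 409616) (nat_lit 10) (.e (nat_lit 5355) (nat_lit 298) (.e (nat_lit 1252) (nat_lit 92) (.e (nat_lit 98320) (nat_lit 17) (.e (nat_lit 7591) (nat_lit 407) .nil))))))) (.g (nat_lit 4) .nil .nil))) 
(.lf (nat_lit 200681) (.g (nat_lit 3617) (.e (nat_lit 73747) (nat_lit 3) (.e (nat_lit 516146) (nat_lit 9) (.e (nat_lit 426422) (nat_lit 16) (.e (nat_lit 57692) (nat_lit 156) (.e (nat_lit 163874) (nat_lit 3) (.e (nat_lit 204831) (nat_lit 18) (.e (nat_lit 57830) (nat_lit 250) (.e (nat_lit 1212) (nat_lit 89) .nil)))))))) (.g (nat_lit 5) .nil .nil))))) (.nd (nat_lit 5) (.nd (nat_lit 6) 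
(.lf (nat_lit 200601) (.g (nat_lit 1082) (.e (nat_lit 73747) (nat_lit 3) (.e (nat_lit 516131) (nat_lit 3) (.e (nat_lit 221215) (nat_lit 23) (.e (nat_lit 204839) (nat_lit 21) .nil)))) .nil)) 
(.lf (nat_lit 200665) (.g (nat_lit 2927) (.e (nat_lit 73747) (nat_lit 3) (.e (nat_lit 516139) (nat_lit 7) (.e (nat_lit 409649) (nat_lit 18) (.e (nat_lit 303118) (nat_lit 3) (.e (nat_lit 204819) (nat_lit 17) .nil))))) .nil))) (.nd (nat_lit 6) 
(.lf (nat_lit 200633) (.g (nat_lit 2080) (.e (nat_lit 73747) (nat_lit 3) (.e (nat_lit 516139) (nat_lit 7) (.e (nat_lit 409641) (nat_lit 17) (.e (nat_lit 294930) (nat_lit 3) (.e (nat_lit 106240) (nat_lit 17) .nil))))) .nil)) 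
(.lf (nat_lit 200697) (.g (nat_lit 4647) (.e (nat_lit 73747) (nat_lit 3) (.e (nat_lit 516151) (nat_lit 9) (.e (nat_lit 426211) (nat_lit 9) (.e (nat_lit 426125) (nat_lit 2) (.e (nat_lit 196686) (nat_lit 18) .nil))))) .nil)))))) (.nd (nat_lit 3) (.nd (nat_lit 4) (.nd (nat_lit 5) (.nd (nat_lit 6) 
(.lf (nat_lit 200581) (.g (nat_lit 2336) (.e (nat_lit 73747) (nat_lit 3) (.e (nat_lit 516116) (nat_lit 1) (.e (nat_lit 164183) (nat_lit 154) (.e (nat_lit 57378) (nat_lit 3) (.e (nat_lit 98340) (nat_lit 20) .nil))))) .nil)) 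
(.lf (nat_lit 200645) (.g (nat_lit 3572) (.e (nat_lit 73747) (nat_lit 3) (.e (nat_lit 516139) (nat_lit 7) (.e (nat_lit 409646) (nat_lit 18) (.e (nat_lit 303119) (nat_lit 3) (.e (nat_lit 204819) (nat_lit 17) (.e (nat_lit 7936) (nat_lit 348) .nil)))))) (.g (nat_lit 5) .nil .nil)))) (.nd (nat_lit 6) 
(.lf (nat_lit 200613) (.g (nat_lit 1462) (.e (nat_lit 73747) (nat_lit 3) (.e (nat_lit 516139) (nat_lit 7) (.e (nat_lit 409616) (nat_lit 10) (.e (nat_lit 5355) (nat_lit 298) .nil)))) .nil)) 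
(.lf (nat_lit 200677) (.g (nat_lit 1291) (.e (nat_lit 73747) (nat_lit 3) (.e (nat_lit 516146) (nat_lit 9) (.e (nat_lit 426320) (nat_lit 12) (.e (nat_lit 475179) (nat_lit 24) .nil)))) .nil)))) (.nd (nat_lit 5) (.nd (nat_lit 6) 
(.lf (nat_lit 200597) (.g (nat_lit 1765) (.e (nat_lit 73747) (nat_lit 3) (.e (nat_lit 516131) (nat_lit 3) (.e (nat_lit 221214) (nat_lit 23) (.e (nat_lit 204829) (nat_lit 18) (.e (nat_lit 57926) (nat_lit 282) .nil))))) .nil)) 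
(.lf (nat_lit 200661) (.g (nat_lit 2220) (.e (nat_lit 73747) (nat_lit 3) (.e (nat_lit 516139) (nat_lit 7) (.e (nat_lit 409649) (nat_lit 18) (.e (nat_lit 303111) (nat_lit 0) (.e (nat_lit 3272) (nat_lit 199) .nil))))) .nil))) (.nd (nat_lit 6) 
(.lf (nat_lit 200629) (.g (nat_lit 600) (.e (nat_lit 73747) (nat_lit 3) (.e (nat_lit 516139) (nat_lit 7) (.e (nat_lit 409641) (nat_lit 17) .nil))) .nil)) 
(.lf (nat_lit 200693) (.g (nat_lit 5097) (.e (nat_lit 73747) (nat_lit 3) (.e (nat_lit 516151) (nat_lit 9) (.e (nat_lit 426211) (nat_lit 9) (.e (nat_lit 426125) (nat_lit 2) (.e (nat_lit 196616) (nat_lit 0) .nil))))) .nil))))) (.nd (nat_lit 4) (.nd (nat_lit 5) (.nd (nat_lit 6) 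
(.lf (nat_lit 200589) (.g (nat_lit 548) (.e (nat_lit 73747) (nat_lit 3) (.e (nat_lit 516129) (nat_lit 3) (.e (nat_lit 221200) (nat_lit 20) .nil))) .nil)) 
(.lf (nat_lit 200653) (.g (nat_lit 2723) (.e (nat_lit 73747) (nat_lit 3) (.e (nat_lit 516139) (nat_lit 7) (.e (nat_lit 409648) (nat_lit 18) (.e (nat_lit 303118) (nat_lit 3) (.e (nat_lit 204816) (nat_lit 17) (.e (nat_lit 6519) (nat_lit 348) .nil)))))) (.g (nat_lit 4) .nil .nil)))) (.nd (nat_lit 6) 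
(.lf (nat_lit 200621) (.g (nat_lit 3760) (.e (nat_lit 73747) (nat_lit 3) (.e (nat_lit 516139) (nat_lit 7) (.e (nat_lit 409617) (nat_lit 10) (.e (nat_lit 5355) (nat_lit 298) (.e (nat_lit 1235) (nat_lit 91) (.e (nat_lit 90165) (nat_lit 12) (.e (nat_lit 171776) (nat_lit 192) .nil))))))) (.g (nat_lit 6) .nil .nil))) 
(.lf (nat_lit 200685) (.g (nat_lit 1386) (.e (nat_lit 73747) (nat_lit 3) (.e (nat_lit 516147) (nat_lit 9) (.e (nat_lit 426446) (nat_lit 20) (.e (nat_lit 114719) (nat_lit 23) (.e (nat_lit 98309) (nat_lit 0) (.e (nat_lit 7936) (nat_lit 348) .nil)))))) (.g (nat_lit 4) .nil .nil))))) (.nd (nat_lit 5) (.nd (nat_lit 6) 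
(.lf (nat_lit 200605) (.g (nat_lit 2057) (.e (nat_lit 73747) (nat_lit 3) (.e (nat_lit 516138) (nat_lit 7) (.e (nat_lit 409641) (nat_lit 17) (.e (nat_lit 294928) (nat_lit 2) (.e (nat_lit 90165) (nat_lit 12) .nil))))) .nil)) 
(.lf (nat_lit 200669) (.g (nat_lit 3703) (.e (nat_lit 73747) (nat_lit 3) (.e (nat_lit 516139) (nat_lit 7) (.e (nat_lit 409649) (nat_lit 18) (.e (nat_lit 303119) (nat_lit 3) (.e (nat_lit 204819) (nat_lit 17) (.e (nat_lit 7936) (nat_lit 348) .nil)))))) (.g (nat_lit 5) .nil .nil)))) (.nd (nat_lit 6) 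
(.lf (nat_lit 200637) (.g (nat_lit 2917) (.e (nat_lit 73747) (nat_lit 3) (.e (nat_lit 516139) (nat_lit 7) (.e (nat_lit 409643) (nat_lit 18) (.e (nat_lit 303119) (nat_lit 3) (.e (nat_lit 204819) (nat_lit 17) (.e (nat_lit 7936) (nat_lit 348) .nil)))))) (.g (nat_lit 5) .nil .nil))) 
(.lf (nat_lit 200701) (.g (nat_lit 5124) (.e (nat_lit 73747) (nat_lit 3) (.e (nat_lit 516151) (nat_lit 9) (.e (nat_lit 426211) (nat_lit 9) (.e (nat_lit 426125) (nat_lit 2) (.e (nat_lit 196686) (nat_lit 18) (.e (nat_lit 1116) (nat_lit 82) (.e (nat_lit 8413) (nat_lit 132) (.e (nat_lit 1212) (nat_lit 89) .nil)))))))) (.g (nat_lit 4) .nil .nil)))))))) 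
(.nd (nat_lit 2) (.nd (nat_lit 3) (.nd (nat_lit 4) (.nd (nat_lit 5) (.nd (nat_lit 6) 
(.lf (nat_lit 200579) (.g (nat_lit 2191) (.e (nat_lit 73747) (nat_lit 3) (.e (nat_lit 516115) (nat_lit 1) (.e (nat_lit 164179) (nat_lit 154) (.e (nat_lit 57353) (nat_lit 0) (.e (nat_lit 1781) (nat_lit 119) .nil))))) .nil)) 
(.lf (nat_lit 200643) (.g (nat_lit 2906) (.e (nat_lit 73747) (nat_lit 3) (.e (nat_lit 516139) (nat_lit 7) (.e (nat_lit 409646) (nat_lit 18) (.e (nat_lit 303119) (nat_lit 3) (.e (nat_lit 204816) (nat_lit 17) (.e (nat_lit 6519) (nat_lit 348) .nil)))))) (.g (nat_lit 4) .nil .nil)))) (.nd (nat_lit 6) 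
(.lf (nat_lit 200611) (.g (nat_lit 2502) (.e (nat_lit 73747) (nat_lit 3) (.e (nat_lit 516138) (nat_lit 7) (.e (nat_lit 409646) (nat_lit 18) (.e (nat_lit 303119) (nat_lit 3) (.e (nat_lit 204821) (nat_lit 17) .nil))))) .nil)) 
(.lf (nat_lit 200675) (.g (nat_lit 2491) (.e (nat_lit 73747) (nat_lit 3) (.e (nat_lit 516146) (nat_lit 9) (.e (nat_lit 426294) (nat_lit 11) (.e (nat_lit 466688) (nat_lit 21) (.e (nat_lit 516106) (nat_lit 0) (.e (nat_lit 3386) (nat_lit 210) (.e (nat_lit 639022) (nat_lit 17) .nil))))))) (.g (nat_lit 5) .nil .nil))))) (.nd (nat_lit 5) (.nd (nat_lit 6) 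
(.lf (nat_lit 200595) (.g (nat_lit 1287) (.e (nat_lit 73747) (nat_lit 3) (.e (nat_lit 516131) (nat_lit 3) (.e (nat_lit 221212) (nat_lit 22) (.e (nat_lit 196648) (nat_lit 10) .nil)))) .nil)) 
(.lf (nat_lit 200659) (.g (nat_lit 1593) (.e (nat_lit 73747) (nat_lit 3) (.e (nat_lit 516139) (nat_lit 7) (.e (nat_lit 409649) (nat_lit 18) (.e (nat_lit 303111) (nat_lit 0) .nil)))) .nil))) (.nd (nat_lit 6) 
(.lf (nat_lit 200627) (.g (nat_lit 653) (.e (nat_lit 73747) (nat_lit 3) (.e (nat_lit 516139) (nat_lit 7) (.e (nat_lit 409640) (nat_lit 17) .nil))) .nil)) 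
(.lf (nat_lit 200691) (.g (nat_lit 3006) (.e (nat_lit 73747) (nat_lit 3) (.e (nat_lit 516151) (nat_lit 9) (.e (nat_lit 426211) (nat_lit 9) (.e (nat_lit 426125) (nat_lit 2) .nil)))) .nil))))) (.nd (nat_lit 4) (.nd (nat_lit 5) (.nd (nat_lit 6) 
(.lf (nat_lit 200587) (.g (nat_lit 1491) (.e (nat_lit 73747) (nat_lit 3) (.e (nat_lit 516120) (nat_lit 1) (.e (nat_lit 164182) (nat_lit 154) (.e (nat_lit 57351) (nat_lit 0) .nil)))) .nil)) 
(.lf (nat_lit 200651) (.g (nat_lit 2359) (.e (nat_lit 73747) (nat_lit 3) (.e (nat_lit 516139) (nat_lit 7) (.e (nat_lit 409648) (nat_lit 18) (.e (nat_lit 303116) (nat_lit 2) (.e (nat_lit 196661) (nat_lit 12) .nil))))) .nil))) (.nd (nat_lit 6) 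
(.lf (nat_lit 200619) (.g (nat_lit 2433) (.e (nat_lit 73747) (nat_lit 3) (.e (nat_lit 516139) (nat_lit 7) (.e (nat_lit 409617) (nat_lit 10) (.e (nat_lit 5355) (nat_lit 298) (.e (nat_lit 1234) (nat_lit 91) (.e (nat_lit 90165) (nat_lit 12) (.e (nat_lit 171776) (nat_lit 192) .nil))))))) (.g (nat_lit 4) .nil .nil))) 
(.lf (nat_lit 200683) (.g (nat_lit 3014) (.e (nat_lit 73747) (nat_lit 3) (.e (nat_lit 516146) (nat_lit 9) (.e (nat_lit 426448) (nat_lit 20) (.e (nat_lit 114688) (nat_lit 0) .nil)))) .nil)))) (.nd (nat_lit 5) (.nd (nat_lit 6) 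
(.lf (nat_lit 200603) (.g (nat_lit 1926) (.e (nat_lit 73747) (nat_lit 3) (.e (nat_lit 516138) (nat_lit 7) (.e (nat_lit 409640) (nat_lit 17) (.e (nat_lit 294928) (nat_lit 2) (.e (nat_lit 90133) (nat_lit 9) .nil))))) .nil)) 
(.lf (nat_lit 200667) (.g (nat_lit 3056) (.e (nat_lit 73747) (nat_lit 3) (.e (nat_lit 516139) (nat_lit 7) (.e (nat_lit 409649) (nat_lit 18) (.e (nat_lit 303119) (nat_lit 3) (.e (nat_lit 204816) (nat_lit 17) (.e (nat_lit 6519) (nat_lit 348) .nil)))))) (.g (nat_lit 4) .nil .nil)))) (.nd (nat_lit 6) 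
(.lf (nat_lit 200635) (.g (nat_lit 3279) (.e (nat_lit 73747) (nat_lit 3) (.e (nat_lit 516139) (nat_lit 7) (.e (nat_lit 409642) (nat_lit 17) (.e (nat_lit 294928) (nat_lit 2) (.e (nat_lit 90165) (nat_lit 12) (.e (nat_lit 171776) (nat_lit 192) .nil)))))) (.g (nat_lit 5) .nil .nil))) 
(.lf (nat_lit 200699) (.g (nat_lit 5000) (.e (nat_lit 73747) (nat_lit 3) (.e (nat_lit 516151) (nat_lit 9) (.e (nat_lit 426211) (nat_lit 9) (.e (nat_lit 426125) (nat_lit 2) (.e (nat_lit 196686) (nat_lit 18) (.e (nat_lit 1115) (nat_lit 82) (.e (nat_lit 8413) (nat_lit 132) (.e (nat_lit 1212) (nat_lit 89) .nil)))))))) (.g (nat_lit 4) .nil .nil))))))) 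
(.nd (nat_lit 3) (.nd (nat_lit 4) (.nd (nat_lit 5) (.nd (nat_lit 6) 
(.lf (nat_lit 200583) (.g (nat_lit 1373) (.e (nat_lit 73747) (nat_lit 3) (.e (nat_lit 516117) (nat_lit 1) (.e (nat_lit 164183) (nat_lit 154) (.e (nat_lit 57344) (nat_lit 0) .nil)))) .nil)) 
(.lf (nat_lit 200647) (.g (nat_lit 2452) (.e (nat_lit 73747) (nat_lit 3) (.e (nat_lit 516139) (nat_lit 7) (.e (nat_lit 409647) (nat_lit 18) (.e (nat_lit 303119) (nat_lit 3) (.e (nat_lit 204819) (nat_lit 17) (.e (nat_lit 7936) (nat_lit 348) .nil)))))) (.g (nat_lit 4) .nil .nil)))) (.nd (nat_lit 6) 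
(.lf (nat_lit 200615) (.g (nat_lit 2401) (.e (nat_lit 73747) (nat_lit 3) (.e (nat_lit 516139) (nat_lit 7) (.e (nat_lit 409616) (nat_lit 10) (.e (nat_lit 5355) (nat_lit 298) (.e (nat_lit 1234) (nat_lit 91) (.e (nat_lit 90181) (nat_lit 16) (.e (nat_lit 237312) (nat_lit 192) .nil))))))) (.g (nat_lit 4) .nil .nil))) 
(.lf (nat_lit 200679) (.g (nat_lit 3203) (.e (nat_lit 73747) (nat_lit 3) (.e (nat_lit 516146) (nat_lit 9) (.e (nat_lit 426422) (nat_lit 16) (.e (nat_lit 57688) (nat_lit 156) (.e (nat_lit 163875) (nat_lit 3) (.e (nat_lit 204830) (nat_lit 18) (.e (nat_lit 57830) (nat_lit 250) (.e (nat_lit 1212) (nat_lit 89) .nil)))))))) (.g (nat_lit 4) .nil .nil))))) (.nd (nat_lit 5) (.nd (nat_lit 6) 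
(.lf (nat_lit 200599) (.g (nat_lit 2413) (.e (nat_lit 73747) (nat_lit 3) (.e (nat_lit 516131) (nat_lit 3) (.e (nat_lit 221215) (nat_lit 23) (.e (nat_lit 204819) (nat_lit 17) (.e (nat_lit 1994) (nat_lit 137) (.e (nat_lit 663554) (nat_lit 0) (.e (nat_lit 1304) (nat_lit 97) (.e (nat_lit 139281) (nat_lit 5) .nil)))))))) (.g (nat_lit 4) .nil .nil))) 
(.lf (nat_lit 200663) (.g (nat_lit 3014) (.e (nat_lit 73747) (nat_lit 3) (.e (nat_lit 516139) (nat_lit 7) (.e (nat_lit 409649) (nat_lit 18) (.e (nat_lit 303118) (nat_lit 3) (.e (nat_lit 204816) (nat_lit 17) .nil))))) .nil))) (.nd (nat_lit 6) 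
(.lf (nat_lit 200631) (.g (nat_lit 4014) (.e (nat_lit 73747) (nat_lit 3) (.e (nat_lit 516139) (nat_lit 7) (.e (nat_lit 409641) (nat_lit 17) (.e (nat_lit 294928) (nat_lit 2) (.e (nat_lit 90165) (nat_lit 12) (.e (nat_lit 171776) (nat_lit 192) .nil)))))) (.g (nat_lit 5) .nil .nil))) 
(.lf (nat_lit 200695) (.g (nat_lit 4904) (.e (nat_lit 73747) (nat_lit 3) (.e (nat_lit 516151) (nat_lit 9) (.e (nat_lit 426211) (nat_lit 9) (.e (nat_lit 426125) (nat_lit 2) (.e (nat_lit 196683) (nat_lit 18) .nil))))) .nil))))) (.nd (nat_lit 4) (.nd (nat_lit 5) (.nd (nat_lit 6) 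
(.lf (nat_lit 200591) (.g (nat_lit 2408) (.e (nat_lit 73747) (nat_lit 3) (.e (nat_lit 516129) (nat_lit 3) (.e (nat_lit 221214) (nat_lit 23) (.e (nat_lit 204829) (nat_lit 18) (.e (nat_lit 57929) (nat_lit 282) .nil))))) .nil)) 
(.lf (nat_lit 200655) (.g (nat_lit 2630) (.e (nat_lit 73747) (nat_lit 3) (.e (nat_lit 516139) (nat_lit 7) (.e (nat_lit 409648) (nat_lit 18) (.e (nat_lit 303118) (nat_lit 3) (.e (nat_lit 204819) (nat_lit 17) (.e (nat_lit 7936) (nat_lit 348) .nil)))))) (.g (nat_lit 4) .nil .nil)))) (.nd (nat_lit 6) 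
(.lf (nat_lit 200623) (.g (nat_lit 1446) (.e (nat_lit 73747) (nat_lit 3) (.e (nat_lit 516139) (nat_lit 7) (.e (nat_lit 409617) (nat_lit 10) (.e (nat_lit 5762) (nat_lit 315) .nil)))) .nil)) 
(.lf (nat_lit 200687) (.g (nat_lit 1952) (.e (nat_lit 73747) (nat_lit 3) (.e (nat_lit 516147) (nat_lit 9) (.e (nat_lit 426448) (nat_lit 20) (.e (nat_lit 114718) (nat_lit 23) (.e (nat_lit 98309) (nat_lit 0) (.e (nat_lit 7936) (nat_lit 348) .nil)))))) (.g (nat_lit 4) .nil .nil))))) (.nd (nat_lit 5) (.nd (nat_lit 6) 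
(.lf (nat_lit 200607) (.g (nat_lit 1835) (.e (nat_lit 73747) (nat_lit 3) (.e (nat_lit 516138) (nat_lit 7) (.e (nat_lit 409642) (nat_lit 17) (.e (nat_lit 294928) (nat_lit 2) (.e (nat_lit 90133) (nat_lit 9) .nil))))) .nil)) 
(.lf (nat_lit 200671) (.g (nat_lit 2134) (.e (nat_lit 73747) (nat_lit 3) (.e (nat_lit 516141) (nat_lit 8) (.e (nat_lit 417827) (nat_lit 17) (.e (nat_lit 294928) (nat_lit 2) (.e (nat_lit 90165) (nat_lit 12) (.e (nat_lit 171776) (nat_lit 192) .nil)))))) (.g (nat_lit 5) .nil .nil)))) (.nd (nat_lit 6) 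
(.lf (nat_lit 200639) (.g (nat_lit 2332) (.e (nat_lit 73747) (nat_lit 3) (.e (nat_lit 516139) (nat_lit 7) (.e (nat_lit 409644) (nat_lit 18) (.e (nat_lit 303119) (nat_lit 3) (.e (nat_lit 204816) (nat_lit 17) .nil))))) .nil)) 
(.lf (nat_lit 200703) (.g (nat_lit 5302) (.e (nat_lit 73747) (nat_lit 3) (.e (nat_lit 516151) (nat_lit 9) (.e (nat_lit 426211) (nat_lit 9) (.e (nat_lit 426125) (nat_lit 2) (.e (nat_lit 196686) (nat_lit 18) (.e (nat_lit 1117) (nat_lit 82) (.e (nat_lit 8413) (nat_lit 132) (.e (nat_lit 1212) (nat_lit 89) .nil)))))))) (.g (nat_lit 4) .nil .nil))))))))))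

noncomputable def tv2650 : DT := (.nd (nat_lit 0) (.nd (nat_lit 1) (.nd (nat_lit 2) (.nd (nat_lit 3) (.nd (nat_lit 4) (.nd (nat_lit 5) (.nd (nat_lit 6) 
(.lf (nat_lit 200704) (.g (nat_lit 5084) (.e (nat_lit 73747) (nat_lit 3) (.e (nat_lit 516151) (nat_lit 9) (.e (nat_lit 426211) (nat_lit 9) (.e (nat_lit 426125) (nat_lit 2) (.e (nat_lit 196686) (nat_lit 18) (.e (nat_lit 1118) (nat_lit 82) (.e (nat_lit 8413) (nat_lit 132) (.e (nat_lit 1212) (nat_lit 89) .nil)))))))) (.g (nat_lit 4) .nil .nil))) 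
(.lf (nat_lit 200768) (.g (nat_lit 3689) (.e (nat_lit 73747) (nat_lit 3) (.e (nat_lit 516166) (nat_lit 12) (.e (nat_lit 450587) (nat_lit 10) (.e (nat_lit 573478) (nat_lit 12) (.e (nat_lit 57356) (nat_lit 0) (.e (nat_lit 7147) (nat_lit 382) (.e (nat_lit 1206) (nat_lit 89) .nil))))))) (.g (nat_lit 6) .nil .nil)))) (.nd (nat_lit 6) 
(.lf (nat_lit 200736) (.g (nat_lit 1691) (.e (nat_lit 73747) (nat_lit 3) (.e (nat_lit 516165) (nat_lit 12) (.e (nat_lit 450586) (nat_lit 10) (.e (nat_lit 573477) (nat_lit 12) .nil)))) .nil)) 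
(.lf (nat_lit 200800) (.g (nat_lit 3770) (.e (nat_lit 73747) (nat_lit 3) (.e (nat_lit 516166) (nat_lit 12) (.e (nat_lit 450588) (nat_lit 10) (.e (nat_lit 573475) (nat_lit 12) (.e (nat_lit 57571) (nat_lit 54) .nil))))) .nil)))) (.nd (nat_lit 5) (.nd (nat_lit 6) 
(.lf (nat_lit 200720) (.g (nat_lit 2652) (.e (nat_lit 73747) (nat_lit 3) (.e (nat_lit 516160) (nat_lit 10) (.e (nat_lit 434275) (nat_lit 39) (.e (nat_lit 663580) (nat_lit 9) (.e (nat_lit 2667) (nat_lit 167) (.e (nat_lit 196651) (nat_lit 10) (.e (nat_lit 16128) (nat_lit 196) .nil))))))) (.g (nat_lit 4) .nil .nil))) 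
(.lf (nat_lit 200784) (.g (nat_lit 4853) (.e (nat_lit 73747) (nat_lit 3) (.e (nat_lit 516166) (nat_lit 12) (.e (nat_lit 450588) (nat_lit 10) (.e (nat_lit 573474) (nat_lit 12) .nil)))) .nil))) (.nd (nat_lit 6) 
(.lf (nat_lit 200752) (.g (nat_lit 838) (.e (nat_lit 73747) (nat_lit 3) (.e (nat_lit 516166) (nat_lit 12) (.e (nat_lit 458496) (nat_lit 3) .nil))) .nil)) 
(.lf (nat_lit 200816) (.g (nat_lit 614) (.e (nat_lit 73747) (nat_lit 3) (.e (nat_lit 516176) (nat_lit 14) (.e (nat_lit 466975) (nat_lit 22) .nil))) .nil))))) (.nd (nat_lit 4) (.nd (nat_lit 5) (.nd (nat_lit 6) 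
(.lf (nat_lit 200712) (.g (nat_lit 3669) (.e (nat_lit 73747) (nat_lit 3) (.e (nat_lit 516151) (nat_lit 9) (.e (nat_lit 426286) (nat_lit 10) (.e (nat_lit 434247) (nat_lit 28) .nil)))) .nil)) 
(.lf (nat_lit 200776) (.g (nat_lit 4457) (.e (nat_lit 73747) (nat_lit 3) (.e (nat_lit 516166) (nat_lit 12) (.e (nat_lit 450588) (nat_lit 10) (.e (nat_lit 573467) (nat_lit 10) .nil)))) .nil))) (.nd (nat_lit 6) 
(.lf (nat_lit 200744) (.g (nat_lit 3915) (.e (nat_lit 73747) (nat_lit 3) (.e (nat_lit 516165) (nat_lit 12) (.e (nat_lit 450588) (nat_lit 10) (.e (nat_lit 573473) (nat_lit 12) (.e (nat_lit 57354) (nat_lit 0) .nil))))) .nil)) 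
(.lf (nat_lit 200808) (.g (nat_lit 615) (.e (nat_lit 73747) (nat_lit 3) (.e (nat_lit 516174) (nat_lit 14) (.e (nat_lit 466944) (nat_lit 0) (.e (nat_lit 1796) (nat_lit 119) .nil)))) .nil)))) (.nd (nat_lit 5) (.nd (nat_lit 6) 
(.lf (nat_lit 200728) (.g (nat_lit 1839) (.e (nat_lit 73747) (nat_lit 3) (.e (nat_lit 516165) (nat_lit 12) (.e (nat_lit 450579) (nat_lit 5) (.e (nat_lit 532484) (nat_lit 0) .nil)))) .nil)) 
(.lf (nat_lit 200792) (.g (nat_lit 4489) (.e (nat_lit 73747) (nat_lit 3) (.e (nat_lit 516166) (nat_lit 12) (.e (nat_lit 450588) (nat_lit 10) (.e (nat_lit 573475) (nat_lit 12) (.e (nat_lit 57347) (nat_lit 0) (.e (nat_lit 7119) (nat_lit 382) (.e (nat_lit 1212) (nat_lit 89) .nil))))))) (.g (nat_lit 5) .nil .nil)))) (.nd (nat_lit 6) 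
(.lf (nat_lit 200760) (.g (nat_lit 593) (.e (nat_lit 73747) (nat_lit 3) (.e (nat_lit 516166) (nat_lit 12) (.e (nat_lit 450587) (nat_lit 10) .nil))) .nil)) 
(.lf (nat_lit 200824) (.g (nat_lit 1546) (.e (nat_lit 73747) (nat_lit 3) (.e (nat_lit 516176) (nat_lit 14) (.e (nat_lit 466981) (nat_lit 23) (.e (nat_lit 204821) (nat_lit 17) .nil)))) .nil)))))) (.nd (nat_lit 3) (.nd (nat_lit 4) (.nd (nat_lit 5) (.nd (nat_lit 6) 
(.lf (nat_lit 200708) (.g (nat_lit 1282) (.e (nat_lit 73747) (nat_lit 3) (.e (nat_lit 516151) (nat_lit 9) (.e (nat_lit 426285) (nat_lit 10) .nil))) .nil)) 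
(.lf (nat_lit 200772) (.g (nat_lit 4732) (.e (nat_lit 73747) (nat_lit 3) (.e (nat_lit 516166) (nat_lit 12) (.e (nat_lit 450588) (nat_lit 10) (.e (nat_lit 573449) (nat_lit 9) (.e (nat_lit 1183) (nat_lit 87) .nil))))) .nil))) (.nd (nat_lit 6) 
(.lf (nat_lit 200740) (.g (nat_lit 2463) (.e (nat_lit 73747) (nat_lit 3) (.e (nat_lit 516165) (nat_lit 12) (.e (nat_lit 450588) (nat_lit 10) (.e (nat_lit 573473) (nat_lit 12) .nil)))) .nil)) 
(.lf (nat_lit 200804) (.g (nat_lit 4824) (.e (nat_lit 73747) (nat_lit 3) (.e (nat_lit 516166) (nat_lit 12) (.e (nat_lit 450588) (nat_lit 10) (.e (nat_lit 573494) (nat_lit 16) .nil)))) .nil)))) (.nd (nat_lit 5) (.nd (nat_lit 6) 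
(.lf (nat_lit 200724) (.g (nat_lit 531) (.e (nat_lit 73747) (nat_lit 3) (.e (nat_lit 516163) (nat_lit 11) (.e (nat_lit 442424) (nat_lit 22) .nil))) .nil)) 
(.lf (nat_lit 200788) (.g (nat_lit 3565) (.e (nat_lit 73747) (nat_lit 3) (.e (nat_lit 516166) (nat_lit 12) (.e (nat_lit 450588) (nat_lit 10) (.e (nat_lit 573475) (nat_lit 12) (.e (nat_lit 57344) (nat_lit 0) (.e (nat_lit 7147) (nat_lit 382) (.e (nat_lit 1206) (nat_lit 89) .nil))))))) (.g (nat_lit 4) .nil .nil)))) (.nd (nat_lit 6) 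
(.lf (nat_lit 200756) (.g (nat_lit 3500) (.e (nat_lit 73747) (nat_lit 3) (.e (nat_lit 516166) (nat_lit 12) (.e (nat_lit 450585) (nat_lit 10) (.e (nat_lit 573474) (nat_lit 12) (.e (nat_lit 57347) (nat_lit 0) .nil))))) .nil)) 
(.lf (nat_lit 200820) (.g (nat_lit 1687) (.e (nat_lit 73747) (nat_lit 3) (.e (nat_lit 516176) (nat_lit 14) (.e (nat_lit 466977) (nat_lit 22) (.e (nat_lit 196660) (nat_lit 12) (.e (nat_lit 57346) (nat_lit 0) .nil))))) .nil))))) (.nd (nat_lit 4) (.nd (nat_lit 5) (.nd (nat_lit 6) 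
(.lf (nat_lit 200716) (.g (nat_lit 1968) (.e (nat_lit 73747) (nat_lit 3) (.e (nat_lit 516159) (nat_lit 10) (.e (nat_lit 434275) (nat_lit 39) (.e (nat_lit 663580) (nat_lit 9) (.e (nat_lit 2667) (nat_lit 167) (.e (nat_lit 196649) (nat_lit 10) (.e (nat_lit 16128) (nat_lit 196) .nil))))))) (.g (nat_lit 4) .nil .nil))) 
(.lf (nat_lit 200780) (.g (nat_lit 4987) (.e (nat_lit 73747) (nat_lit 3) (.e (nat_lit 516166) (nat_lit 12) (.e (nat_lit 450588) (nat_lit 10) (.e (nat_lit 573473) (nat_lit 12) (.e (nat_lit 57354) (nat_lit 0) (.e (nat_lit 7147) (nat_lit 382) (.e (nat_lit 1206) (nat_lit 89) .nil))))))) (.g (nat_lit 6) .nil .nil)))) (.nd (nat_lit 6) 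
(.lf (nat_lit 200748) (.g (nat_lit 4136) (.e (nat_lit 73747) (nat_lit 3) (.e (nat_lit 516165) (nat_lit 12) (.e (nat_lit 450588) (nat_lit 10) (.e (nat_lit 573475) (nat_lit 12) (.e (nat_lit 57347) (nat_lit 0) (.e (nat_lit 7125) (nat_lit 382) (.e (nat_lit 1212) (nat_lit 89) .nil))))))) (.g (nat_lit 4) .nil .nil))) 
(.lf (nat_lit 200812) (.g (nat_lit 932) (.e (nat_lit 73747) (nat_lit 3) (.e (nat_lit 516175) (nat_lit 14) (.e (nat_lit 466981) (nat_lit 23) (.e (nat_lit 204821) (nat_lit 17) .nil)))) .nil)))) (.nd (nat_lit 5) (.nd (nat_lit 6) 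
(.lf (nat_lit 200732) (.g (nat_lit 2645) (.e (nat_lit 73747) (nat_lit 3) (.e (nat_lit 516165) (nat_lit 12) (.e (nat_lit 450586) (nat_lit 10) (.e (nat_lit 573475) (nat_lit 12) (.e (nat_lit 57347) (nat_lit 0) .nil))))) .nil)) 
(.lf (nat_lit 200796) (.g (nat_lit 4028) (.e (nat_lit 73747) (nat_lit 3) (.e (nat_lit 516166) (nat_lit 12) (.e (nat_lit 450588) (nat_lit 10) (.e (nat_lit 573475) (nat_lit 12) (.e (nat_lit 57356) (nat_lit 0) (.e (nat_lit 7147) (nat_lit 382) (.e (nat_lit 1206) (nat_lit 89) .nil))))))) (.g (nat_lit 6) .nil .nil)))) (.nd (nat_lit 6) 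
(.lf (nat_lit 200764) (.g (nat_lit 6045) (.e (nat_lit 73747) (nat_lit 3) (.e (nat_lit 516166) (nat_lit 12) (.e (nat_lit 450587) (nat_lit 10) (.e (nat_lit 573475) (nat_lit 12) (.e (nat_lit 57571) (nat_lit 54) .nil))))) .nil)) 
(.lf (nat_lit 200828) (.g (nat_lit 1501) (.e (nat_lit 73747) (nat_lit 3) (.e (nat_lit 516179) (nat_lit 15) (.e (nat_lit 475211) (nat_lit 41) (.e (nat_lit 720640) (nat_lit 3) .nil)))) .nil))))))) (.nd (nat_lit 2) (.nd (nat_lit 3) (.nd (nat_lit 4) (.nd (nat_lit 5) (.nd (nat_lit 6) 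
(.lf (nat_lit 200706) (.g (nat_lit 5178) (.e (nat_lit 73747) (nat_lit 3) (.e (nat_lit 516151) (nat_lit 9) (.e (nat_lit 426211) (nat_lit 9) (.e (nat_lit 426125) (nat_lit 2) (.e (nat_lit 196699) (nat_lit 20) .nil))))) .nil)) 
(.lf (nat_lit 200770) (.g (nat_lit 503) (.e (nat_lit 73747) (nat_lit 3) (.e (nat_lit 516166) (nat_lit 12) (.e (nat_lit 450588) (nat_lit 10) .nil))) .nil))) (.nd (nat_lit 6) 
(.lf (nat_lit 200738) (.g (nat_lit 3028) (.e (nat_lit 73747) (nat_lit 3) (.e (nat_lit 516165) (nat_lit 12) (.e (nat_lit 450587) (nat_lit 10) (.e (nat_lit 573475) (nat_lit 12) .nil)))) .nil)) 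
(.lf (nat_lit 200802) (.g (nat_lit 4814) (.e (nat_lit 73747) (nat_lit 3) (.e (nat_lit 516166) (nat_lit 12) (.e (nat_lit 450588) (nat_lit 10) (.e (nat_lit 573477) (nat_lit 12) .nil)))) .nil)))) (.nd (nat_lit 5) (.nd (nat_lit 6) 
(.lf (nat_lit 200722) (.g (nat_lit 2028) (.e (nat_lit 73747) (nat_lit 3) (.e (nat_lit 516161) (nat_lit 10) (.e (nat_lit 434275) (nat_lit 39) (.e (nat_lit 663580) (nat_lit 9) (.e (nat_lit 2663) (nat_lit 167) .nil))))) .nil)) 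
(.lf (nat_lit 200786) (.g (nat_lit 2486) (.e (nat_lit 73747) (nat_lit 3) (.e (nat_lit 516166) (nat_lit 12) (.e (nat_lit 450588) (nat_lit 10) (.e (nat_lit 573475) (nat_lit 12) .nil)))) .nil))) (.nd (nat_lit 6) 
(.lf (nat_lit 200754) (.g (nat_lit 2513) (.e (nat_lit 73747) (nat_lit 3) (.e (nat_lit 516166) (nat_lit 12) (.e (nat_lit 450580) (nat_lit 5) (.e (nat_lit 532499) (nat_lit 1) .nil)))) .nil)) 
(.lf (nat_lit 200818) (.g (nat_lit 694) (.e (nat_lit 73747) (nat_lit 3) (.e (nat_lit 516176) (nat_lit 14) (.e (nat_lit 466977) (nat_lit 22) .nil))) .nil))))) (.nd (nat_lit 4) (.nd (nat_lit 5) (.nd (nat_lit 6) 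
(.lf (nat_lit 200714) (.g (nat_lit 4439) (.e (nat_lit 73747) (nat_lit 3) (.e (nat_lit 516151) (nat_lit 9) (.e (nat_lit 426286) (nat_lit 10) (.e (nat_lit 434248) (nat_lit 28) (.e (nat_lit 573475) (nat_lit 12) .nil))))) .nil)) 
(.lf (nat_lit 200778) (.g (nat_lit 2654) (.e (nat_lit 73747) (nat_lit 3) (.e (nat_lit 516166) (nat_lit 12) (.e (nat_lit 450588) (nat_lit 10) (.e (nat_lit 573473) (nat_lit 12) .nil)))) .nil))) (.nd (nat_lit 6) 
(.lf (nat_lit 200746) (.g (nat_lit 2444) (.e (nat_lit 73747) (nat_lit 3) (.e (nat_lit 516165) (nat_lit 12) (.e (nat_lit 450588) (nat_lit 10) (.e (nat_lit 573475) (nat_lit 12) .nil)))) .nil)) 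
(.lf (nat_lit 200810) (.g (nat_lit 586) (.e (nat_lit 73747) (nat_lit 3) (.e (nat_lit 516174) (nat_lit 14) (.e (nat_lit 474880) (nat_lit 3) .nil))) .nil)))) (.nd (nat_lit 5) (.nd (nat_lit 6) 
(.lf (nat_lit 200730) (.g (nat_lit 2466) (.e (nat_lit 73747) (nat_lit 3) (.e (nat_lit 516165) (nat_lit 12) (.e (nat_lit 450586) (nat_lit 10) (.e (nat_lit 573473) (nat_lit 12) (.e (nat_lit 57354) (nat_lit 0) .nil))))) .nil)) 
(.lf (nat_lit 200794) (.g (nat_lit 3845) (.e (nat_lit 73747) (nat_lit 3) (.e (nat_lit 516166) (nat_lit 12) (.e (nat_lit 450588) (nat_lit 10) (.e (nat_lit 573475) (nat_lit 12) (.e (nat_lit 57353) (nat_lit 0) (.e (nat_lit 7122) (nat_lit 382) (.e (nat_lit 1212) (nat_lit 89) .nil))))))) (.g (nat_lit 4) .nil .nil)))) (.nd (nat_lit 6) 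
(.lf (nat_lit 200762) (.g (nat_lit 4153) (.e (nat_lit 73747) (nat_lit 3) (.e (nat_lit 516166) (nat_lit 12) (.e (nat_lit 450587) (nat_lit 10) (.e (nat_lit 573473) (nat_lit 12) .nil)))) .nil)) 
(.lf (nat_lit 200826) (.g (nat_lit 1555) (.e (nat_lit 73747) (nat_lit 3) (.e (nat_lit 516176) (nat_lit 14) (.e (nat_lit 466981) (nat_lit 23) (.e (nat_lit 204830) (nat_lit 18) .nil)))) .nil)))))) (.nd (nat_lit 3) (.nd (nat_lit 4) (.nd (nat_lit 5) (.nd (nat_lit 6) 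
(.lf (nat_lit 200710) (.g (nat_lit 3918) (.e (nat_lit 73747) (nat_lit 3) (.e (nat_lit 516151) (nat_lit 9) (.e (nat_lit 426286) (nat_lit 10) (.e (nat_lit 434245) (nat_lit 28) .nil)))) .nil)) 
(.lf (nat_lit 200774) (.g (nat_lit 4470) (.e (nat_lit 73747) (nat_lit 3) (.e (nat_lit 516166) (nat_lit 12) (.e (nat_lit 450588) (nat_lit 10) (.e (nat_lit 573452) (nat_lit 9) .nil)))) .nil))) (.nd (nat_lit 6) 
(.lf (nat_lit 200742) (.g (nat_lit 3772) (.e (nat_lit 73747) (nat_lit 3) (.e (nat_lit 516165) (nat_lit 12) (.e (nat_lit 450588) (nat_lit 10) (.e (nat_lit 573473) (nat_lit 12) (.e (nat_lit 57352) (nat_lit 0) .nil))))) .nil)) 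
(.lf (nat_lit 200806) (.g (nat_lit 4209) (.e (nat_lit 73747) (nat_lit 3) (.e (nat_lit 516166) (nat_lit 12) (.e (nat_lit 450588) (nat_lit 10) (.e (nat_lit 573503) (nat_lit 18) .nil)))) .nil)))) (.nd (nat_lit 5) (.nd (nat_lit 6) 
(.lf (nat_lit 200726) (.g (nat_lit 462) (.e (nat_lit 73747) (nat_lit 3) (.e (nat_lit 516165) (nat_lit 12) (.e (nat_lit 458496) (nat_lit 3) .nil))) .nil)) 
(.lf (nat_lit 200790) (.g (nat_lit 4285) (.e (nat_lit 73747) (nat_lit 3) (.e (nat_lit 516166) (nat_lit 12) (.e (nat_lit 450588) (nat_lit 10) (.e (nat_lit 573475) (nat_lit 12) (.e (nat_lit 57346) (nat_lit 0) (.e (nat_lit 7233) (nat_lit 382) (.e (nat_lit 1209) (nat_lit 89) .nil))))))) (.g (nat_lit 4) .nil .nil)))) (.nd (nat_lit 6) 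
(.lf (nat_lit 200758) (.g (nat_lit 3112) (.e (nat_lit 73747) (nat_lit 3) (.e (nat_lit 516166) (nat_lit 12) (.e (nat_lit 450585) (nat_lit 10) (.e (nat_lit 573474) (nat_lit 12) (.e (nat_lit 57572) (nat_lit 54) .nil))))) .nil)) 
(.lf (nat_lit 200822) (.g (nat_lit 1589) (.e (nat_lit 73747) (nat_lit 3) (.e (nat_lit 516176) (nat_lit 14) (.e (nat_lit 466981) (nat_lit 23) (.e (nat_lit 204801) (nat_lit 0) .nil)))) .nil))))) (.nd (nat_lit 4) (.nd (nat_lit 5) (.nd (nat_lit 6) 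
(.lf (nat_lit 200718) (.g (nat_lit 3249) (.e (nat_lit 73747) (nat_lit 3) (.e (nat_lit 516160) (nat_lit 10) (.e (nat_lit 434275) (nat_lit 39) (.e (nat_lit 663580) (nat_lit 9) (.e (nat_lit 2663) (nat_lit 167) (.e (nat_lit 196649) (nat_lit 10) (.e (nat_lit 16128) (nat_lit 196) .nil))))))) (.g (nat_lit 5) .nil .nil))) 
(.lf (nat_lit 200782) (.g (nat_lit 4413) (.e (nat_lit 73747) (nat_lit 3) (.e (nat_lit 516166) (nat_lit 12) (.e (nat_lit 450588) (nat_lit 10) (.e (nat_lit 573473) (nat_lit 12) (.e (nat_lit 57569) (nat_lit 53) (.e (nat_lit 769792) (nat_lit 9) .nil)))))) (.g (nat_lit 5) .nil .nil)))) (.nd (nat_lit 6) 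
(.lf (nat_lit 200750) (.g (nat_lit 3639) (.e (nat_lit 73747) (nat_lit 3) (.e (nat_lit 516165) (nat_lit 12) (.e (nat_lit 450588) (nat_lit 10) (.e (nat_lit 573475) (nat_lit 12) (.e (nat_lit 57351) (nat_lit 0) .nil))))) .nil)) 
(.lf (nat_lit 200814) (.g (nat_lit 531) (.e (nat_lit 73747) (nat_lit 3) (.e (nat_lit 516176) (nat_lit 14) (.e (nat_lit 474880) (nat_lit 3) .nil))) .nil)))) (.nd (nat_lit 5) (.nd (nat_lit 6) 
(.lf (nat_lit 200734) (.g (nat_lit 2769) (.e (nat_lit 73747) (nat_lit 3) (.e (nat_lit 516165) (nat_lit 12) (.e (nat_lit 450586) (nat_lit 10) (.e (nat_lit 573475) (nat_lit 12) (.e (nat_lit 57354) (nat_lit 0) .nil))))) .nil)) 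
(.lf (nat_lit 200798) (.g (nat_lit 3498) (.e (nat_lit 73747) (nat_lit 3) (.e (nat_lit 516166) (nat_lit 12) (.e (nat_lit 450588) (nat_lit 10) (.e (nat_lit 573475) (nat_lit 12) (.e (nat_lit 57569) (nat_lit 53) (.e (nat_lit 769792) (nat_lit 9) .nil)))))) (.g (nat_lit 4) .nil .nil)))) (.nd (nat_lit 6) 
(.lf (nat_lit 200766) (.g (nat_lit 3253) (.e (nat_lit 73747) (nat_lit 3) (.e (nat_lit 516166) (nat_lit 12) (.e (nat_lit 450587) (nat_lit 10) (.e (nat_lit 573477) (nat_lit 12) (.e (nat_lit 57357) (nat_lit 0) (.e (nat_lit 7147) (nat_lit 382) (.e (nat_lit 1206) (nat_lit 89) .nil))))))) (.g (nat_lit 4) .nil .nil))) 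
(.lf (nat_lit 200830) (.g (nat_lit 2553) (.e (nat_lit 73747) (nat_lit 3) (.e (nat_lit 516179) (nat_lit 15) (.e (nat_lit 475214) (nat_lit 42) (.e (nat_lit 720896) (nat_lit 0) .nil)))) .nil)))))))) (.nd (nat_lit 1) (.nd (nat_lit 2) (.nd (nat_lit 3) (.nd (nat_lit 4) (.nd (nat_lit 5) (.nd (nat_lit 6) 
(.lf (nat_lit 200705) (.g (nat_lit 5013) (.e (nat_lit 73747) (nat_lit 3) (.e (nat_lit 516151) (nat_lit 9) (.e (nat_lit 426211) (nat_lit 9) (.e (nat_lit 426125) (nat_lit 2) (.e (nat_lit 196697) (nat_lit 19) .nil))))) .nil)) 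
(.lf (nat_lit 200769) (.g (nat_lit 3282) (.e (nat_lit 73747) (nat_lit 3) (.e (nat_lit 516166) (nat_lit 12) (.e (nat_lit 450587) (nat_lit 10) (.e (nat_lit 573478) (nat_lit 12) (.e (nat_lit 57568) (nat_lit 53) (.e (nat_lit 769792) (nat_lit 9) .nil)))))) (.g (nat_lit 5) .nil .nil)))) (.nd (nat_lit 6) 
(.lf (nat_lit 200737) (.g (nat_lit 1672) (.e (nat_lit 73747) (nat_lit 3) (.e (nat_lit 516165) (nat_lit 12) (.e (nat_lit 450586) (nat_lit 10) (.e (nat_lit 573478) (nat_lit 12) .nil)))) .nil)) 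
(.lf (nat_lit 200801) (.g (nat_lit 4878) (.e (nat_lit 73747) (nat_lit 3) (.e (nat_lit 516166) (nat_lit 12) (.e (nat_lit 450588) (nat_lit 10) (.e (nat_lit 573476) (nat_lit 12) .nil)))) .nil)))) (.nd (nat_lit 5) (.nd (nat_lit 6) 
(.lf (nat_lit 200721) (.g (nat_lit 1947) (.e (nat_lit 73747) (nat_lit 3) (.e (nat_lit 516160) (nat_lit 10) (.e (nat_lit 434276) (nat_lit 39) (.e (nat_lit 663580) (nat_lit 9) (.e (nat_lit 2663) (nat_lit 167) .nil))))) .nil)) 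
(.lf (nat_lit 200785) (.g (nat_lit 5909) (.e (nat_lit 73747) (nat_lit 3) (.e (nat_lit 516166) (nat_lit 12) (.e (nat_lit 450588) (nat_lit 10) (.e (nat_lit 573474) (nat_lit 12) (.e (nat_lit 57572) (nat_lit 54) .nil))))) .nil))) (.nd (nat_lit 6) 
(.lf (nat_lit 200753) (.g (nat_lit 2184) (.e (nat_lit 73747) (nat_lit 3) (.e (nat_lit 516166) (nat_lit 12) (.e (nat_lit 450579) (nat_lit 5) (.e (nat_lit 532501) (nat_lit 1) .nil)))) .nil)) 
(.lf (nat_lit 200817) (.g (nat_lit 645) (.e (nat_lit 73747) (nat_lit 3) (.e (nat_lit 516176) (nat_lit 14) (.e (nat_lit 466976) (nat_lit 22) .nil))) .nil))))) (.nd (nat_lit 4) (.nd (nat_lit 5) (.nd (nat_lit 6) 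
(.lf (nat_lit 200713) (.g (nat_lit 3665) (.e (nat_lit 73747) (nat_lit 3) (.e (nat_lit 516151) (nat_lit 9) (.e (nat_lit 426286) (nat_lit 10) (.e (nat_lit 434248) (nat_lit 28) .nil)))) .nil)) 
(.lf (nat_lit 200777) (.g (nat_lit 4827) (.e (nat_lit 73747) (nat_lit 3) (.e (nat_lit 516166) (nat_lit 12) (.e (nat_lit 450588) (nat_lit 10) (.e (nat_lit 573472) (nat_lit 12) .nil)))) .nil))) (.nd (nat_lit 6) 
(.lf (nat_lit 200745) (.g (nat_lit 3851) (.e (nat_lit 73747) (nat_lit 3) (.e (nat_lit 516165) (nat_lit 12) (.e (nat_lit 450588) (nat_lit 10) (.e (nat_lit 573474) (nat_lit 12) .nil)))) .nil)) 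
(.lf (nat_lit 200809) (.g (nat_lit 586) (.e (nat_lit 73747) (nat_lit 3) (.e (nat_lit 516174) (nat_lit 14) (.e (nat_lit 474880) (nat_lit 2) .nil))) .nil)))) (.nd (nat_lit 5) (.nd (nat_lit 6) 
(.lf (nat_lit 200729) (.g (nat_lit 1612) (.e (nat_lit 73747) (nat_lit 3) (.e (nat_lit 516165) (nat_lit 12) (.e (nat_lit 450586) (nat_lit 10) (.e (nat_lit 573473) (nat_lit 12) .nil)))) .nil)) 
(.lf (nat_lit 200793) (.g (nat_lit 5223) (.e (nat_lit 73747) (nat_lit 3) (.e (nat_lit 516166) (nat_lit 12) (.e (nat_lit 450588) (nat_lit 10) (.e (nat_lit 573475) (nat_lit 12) (.e (nat_lit 57351) (nat_lit 0) (.e (nat_lit 7122) (nat_lit 382) (.e (nat_lit 1212) (nat_lit 89) .nil))))))) (.g (nat_lit 7) .nil .nil)))) (.nd (nat_lit 6) 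
(.lf (nat_lit 200761) (.g (nat_lit 3114) (.e (nat_lit 73747) (nat_lit 3) (.e (nat_lit 516166) (nat_lit 12) (.e (nat_lit 450587) (nat_lit 10) (.e (nat_lit 573472) (nat_lit 12) .nil)))) .nil)) 
(.lf (nat_lit 200825) (.g (nat_lit 2806) (.e (nat_lit 73747) (nat_lit 3) (.e (nat_lit 516176) (nat_lit 14) (.e (nat_lit 466981) (nat_lit 23) (.e (nat_lit 204829) (nat_lit 18) (.e (nat_lit 65280) (nat_lit 221) .nil))))) .nil)))))) (.nd (nat_lit 3) (.nd (nat_lit 4) (.nd (nat_lit 5) (.nd (nat_lit 6) 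
(.lf (nat_lit 200709) (.g (nat_lit 3732) (.e (nat_lit 73747) (nat_lit 3) (.e (nat_lit 516151) (nat_lit 9) (.e (nat_lit 426286) (nat_lit 10) (.e (nat_lit 434242) (nat_lit 28) .nil)))) .nil)) 
(.lf (nat_lit 200773) (.g (nat_lit 4304) (.e (nat_lit 73747) (nat_lit 3) (.e (nat_lit 516166) (nat_lit 12) (.e (nat_lit 450588) (nat_lit 10) (.e (nat_lit 573451) (nat_lit 9) .nil)))) .nil))) (.nd (nat_lit 6) 
(.lf (nat_lit 200741) (.g (nat_lit 3752) (.e (nat_lit 73747) (nat_lit 3) (.e (nat_lit 516165) (nat_lit 12) (.e (nat_lit 450588) (nat_lit 10) (.e (nat_lit 573473) (nat_lit 12) (.e (nat_lit 57348) (nat_lit 0) .nil))))) .nil)) 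
(.lf (nat_lit 200805) (.g (nat_lit 4510) (.e (nat_lit 73747) (nat_lit 3) (.e (nat_lit 516166) (nat_lit 12) (.e (nat_lit 450588) (nat_lit 10) (.e (nat_lit 573495) (nat_lit 16) .nil)))) .nil)))) (.nd (nat_lit 5) (.nd (nat_lit 6) 
(.lf (nat_lit 200725) (.g (nat_lit 465) (.e (nat_lit 73747) (nat_lit 3) (.e (nat_lit 516163) (nat_lit 11) (.e (nat_lit 442427) (nat_lit 23) .nil))) .nil)) 
(.lf (nat_lit 200789) (.g (nat_lit 3581) (.e (nat_lit 73747) (nat_lit 3) (.e (nat_lit 516166) (nat_lit 12) (.e (nat_lit 450588) (nat_lit 10) (.e (nat_lit 573475) (nat_lit 12) (.e (nat_lit 57345) (nat_lit 0) .nil))))) .nil))) (.nd (nat_lit 6) 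
(.lf (nat_lit 200757) (.g (nat_lit 3162) (.e (nat_lit 73747) (nat_lit 3) (.e (nat_lit 516166) (nat_lit 12) (.e (nat_lit 450585) (nat_lit 10) (.e (nat_lit 573474) (nat_lit 12) (.e (nat_lit 57354) (nat_lit 0) .nil))))) .nil)) 
(.lf (nat_lit 200821) (.g (nat_lit 683) (.e (nat_lit 73747) (nat_lit 3) (.e (nat_lit 516176) (nat_lit 14) (.e (nat_lit 466981) (nat_lit 23) .nil))) .nil))))) (.nd (nat_lit 4) (.nd (nat_lit 5) (.nd (nat_lit 6) 
(.lf (nat_lit 200717) (.g (nat_lit 2126) (.e (nat_lit 73747) (nat_lit 3) (.e (nat_lit 516159) (nat_lit 10) (.e (nat_lit 434275) (nat_lit 39) (.e (nat_lit 663580) (nat_lit 9) (.e (nat_lit 2667) (nat_lit 167) (.e (nat_lit 196651) (nat_lit 10) (.e (nat_lit 16128) (nat_lit 196) .nil))))))) (.g (nat_lit 4) .nil .nil))) 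
(.lf (nat_lit 200781) (.g (nat_lit 3647) (.e (nat_lit 73747) (nat_lit 3) (.e (nat_lit 516166) (nat_lit 12) (.e (nat_lit 450588) (nat_lit 10) (.e (nat_lit 573473) (nat_lit 12) (.e (nat_lit 57357) (nat_lit 0) .nil))))) .nil))) (.nd (nat_lit 6) 
(.lf (nat_lit 200749) (.g (nat_lit 4090) (.e (nat_lit 73747) (nat_lit 3) (.e (nat_lit 516165) (nat_lit 12) (.e (nat_lit 450588) (nat_lit 10) (.e (nat_lit 573475) (nat_lit 12) (.e (nat_lit 57348) (nat_lit 0) .nil))))) .nil)) 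
(.lf (nat_lit 200813) (.g (nat_lit 531) (.e (nat_lit 73747) (nat_lit 3) (.e (nat_lit 516176) (nat_lit 14) (.e (nat_lit 474880) (nat_lit 2) .nil))) .nil)))) (.nd (nat_lit 5) (.nd (nat_lit 6) 
(.lf (nat_lit 200733) (.g (nat_lit 2769) (.e (nat_lit 73747) (nat_lit 3) (.e (nat_lit 516165) (nat_lit 12) (.e (nat_lit 450586) (nat_lit 10) (.e (nat_lit 573475) (nat_lit 12) (.e (nat_lit 57348) (nat_lit 0) .nil))))) .nil)) 
(.lf (nat_lit 200797) (.g (nat_lit 3636) (.e (nat_lit 73747) (nat_lit 3) (.e (nat_lit 516166) (nat_lit 12) (.e (nat_lit 450588) (nat_lit 10) (.e (nat_lit 573475) (nat_lit 12) (.e (nat_lit 57568) (nat_lit 53) (.e (nat_lit 769792) (nat_lit 9) .nil)))))) (.g (nat_lit 4) .nil .nil)))) (.nd (nat_lit 6) 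
(.lf (nat_lit 200765) (.g (nat_lit 2190) (.e (nat_lit 73747) (nat_lit 3) (.e (nat_lit 516166) (nat_lit 12) (.e (nat_lit 450587) (nat_lit 10) (.e (nat_lit 573477) (nat_lit 12) .nil)))) .nil)) 
(.lf (nat_lit 200829) (.g (nat_lit 457) (.e (nat_lit 73747) (nat_lit 3) (.e (nat_lit 516179) (nat_lit 15) (.e (nat_lit 475214) (nat_lit 42) .nil))) .nil))))))) (.nd (nat_lit 2) (.nd (nat_lit 3) (.nd (nat_lit 4) (.nd (nat_lit 5) (.nd (nat_lit 6) 
(.lf (nat_lit 200707) (.g (nat_lit 3052) (.e (nat_lit 73747) (nat_lit 3) (.e (nat_lit 516151) (nat_lit 9) (.e (nat_lit 426211) (nat_lit 9) (.e (nat_lit 426140) (nat_lit 3) .nil)))) .nil)) 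
(.lf (nat_lit 200771) (.g (nat_lit 4017) (.e (nat_lit 73747) (nat_lit 3) (.e (nat_lit 516166) (nat_lit 12) (.e (nat_lit 450588) (nat_lit 10) (.e (nat_lit 573449) (nat_lit 9) .nil)))) .nil))) (.nd (nat_lit 6) 
(.lf (nat_lit 200739) (.g (nat_lit 1750) (.e (nat_lit 73747) (nat_lit 3) (.e (nat_lit 516165) (nat_lit 12) (.e (nat_lit 450587) (nat_lit 10) (.e (nat_lit 573477) (nat_lit 12) .nil)))) .nil)) 
(.lf (nat_lit 200803) (.g (nat_lit 4799) (.e (nat_lit 73747) (nat_lit 3) (.e (nat_lit 516166) (nat_lit 12) (.e (nat_lit 450588) (nat_lit 10) (.e (nat_lit 573478) (nat_lit 12) .nil)))) .nil)))) (.nd (nat_lit 5) (.nd (nat_lit 6) 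
(.lf (nat_lit 200723) (.g (nat_lit 2105) (.e (nat_lit 73747) (nat_lit 3) (.e (nat_lit 516161) (nat_lit 10) (.e (nat_lit 434276) (nat_lit 39) (.e (nat_lit 663580) (nat_lit 9) (.e (nat_lit 2663) (nat_lit 167) (.e (nat_lit 196649) (nat_lit 10) (.e (nat_lit 16128) (nat_lit 196) .nil))))))) (.g (nat_lit 4) .nil .nil))) 
(.lf (nat_lit 200787) (.g (nat_lit 3824) (.e (nat_lit 73747) (nat_lit 3) (.e (nat_lit 516166) (nat_lit 12) (.e (nat_lit 450588) (nat_lit 10) (.e (nat_lit 573475) (nat_lit 12) (.e (nat_lit 57344) (nat_lit 0) (.e (nat_lit 7122) (nat_lit 382) (.e (nat_lit 1212) (nat_lit 89) .nil))))))) (.g (nat_lit 4) .nil .nil)))) (.nd (nat_lit 6) 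
(.lf (nat_lit 200755) (.g (nat_lit 1079) (.e (nat_lit 73747) (nat_lit 3) (.e (nat_lit 516166) (nat_lit 12) (.e (nat_lit 450585) (nat_lit 10) .nil))) .nil)) 
(.lf (nat_lit 200819) (.g (nat_lit 1233) (.e (nat_lit 73747) (nat_lit 3) (.e (nat_lit 516176) (nat_lit 14) (.e (nat_lit 466977) (nat_lit 22) (.e (nat_lit 196651) (nat_lit 10) .nil)))) .nil))))) (.nd (nat_lit 4) (.nd (nat_lit 5) (.nd (nat_lit 6) 
(.lf (nat_lit 200715) (.g (nat_lit 2750) (.e (nat_lit 73747) (nat_lit 3) (.e (nat_lit 516159) (nat_lit 10) (.e (nat_lit 434275) (nat_lit 39) (.e (nat_lit 663580) (nat_lit 9) (.e (nat_lit 2663) (nat_lit 167) (.e (nat_lit 196649) (nat_lit 10) (.e (nat_lit 16128) (nat_lit 196) .nil))))))) (.g (nat_lit 4) .nil .nil))) 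
(.lf (nat_lit 200779) (.g (nat_lit 5379) (.e (nat_lit 73747) (nat_lit 3) (.e (nat_lit 516166) (nat_lit 12) (.e (nat_lit 450588) (nat_lit 10) (.e (nat_lit 573473) (nat_lit 12) (.e (nat_lit 57347) (nat_lit 0) (.e (nat_lit 7125) (nat_lit 382) (.e (nat_lit 1212) (nat_lit 89) .nil))))))) (.g (nat_lit 6) .nil .nil)))) (.nd (nat_lit 6) 
(.lf (nat_lit 200747) (.g (nat_lit 3863) (.e (nat_lit 73747) (nat_lit 3) (.e (nat_lit 516165) (nat_lit 12) (.e (nat_lit 450588) (nat_lit 10) (.e (nat_lit 573475) (nat_lit 12) (.e (nat_lit 57347) (nat_lit 0) .nil))))) .nil)) 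
(.lf (nat_lit 200811) (.g (nat_lit 195) (.e (nat_lit 73747) (nat_lit 3) (.e (nat_lit 516175) (nat_lit 14) (.e (nat_lit 474880) (nat_lit 3) .nil))) .nil)))) (.nd (nat_lit 5) (.nd (nat_lit 6) 
(.lf (nat_lit 200731) (.g (nat_lit 1711) (.e (nat_lit 73747) (nat_lit 3) (.e (nat_lit 516165) (nat_lit 12) (.e (nat_lit 450586) (nat_lit 10) (.e (nat_lit 573475) (nat_lit 12) .nil)))) .nil)) 
(.lf (nat_lit 200795) (.g (nat_lit 3851) (.e (nat_lit 73747) (nat_lit 3) (.e (nat_lit 516166) (nat_lit 12) (.e (nat_lit 450588) (nat_lit 10) (.e (nat_lit 573475) (nat_lit 12) (.e (nat_lit 57353) (nat_lit 0) (.e (nat_lit 7124) (nat_lit 382) (.e (nat_lit 1212) (nat_lit 89) .nil))))))) (.g (nat_lit 4) .nil .nil)))) (.nd (nat_lit 6) 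
(.lf (nat_lit 200763) (.g (nat_lit 4164) (.e (nat_lit 73747) (nat_lit 3) (.e (nat_lit 516166) (nat_lit 12) (.e (nat_lit 450587) (nat_lit 10) (.e (nat_lit 573475) (nat_lit 12) .nil)))) .nil)) 
(.lf (nat_lit 200827) (.g (nat_lit 3385) (.e (nat_lit 73747) (nat_lit 3) (.e (nat_lit 516176) (nat_lit 14) (.e (nat_lit 466981) (nat_lit 23) (.e (nat_lit 204830) (nat_lit 18) (.e (nat_lit 65280) (nat_lit 221) (.e (nat_lit 1212) (nat_lit 89) .nil)))))) (.g (nat_lit 4) .nil .nil))))))) (.nd (nat_lit 3) (.nd (nat_lit 4) (.nd (nat_lit 5) (.nd (nat_lit 6) 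
(.lf (nat_lit 200711) (.g (nat_lit 4606) (.e (nat_lit 73747) (nat_lit 3) (.e (nat_lit 516151) (nat_lit 9) (.e (nat_lit 426286) (nat_lit 10) (.e (nat_lit 434245) (nat_lit 28) (.e (nat_lit 573474) (nat_lit 12) .nil))))) .nil)) 
(.lf (nat_lit 200775) (.g (nat_lit 4403) (.e (nat_lit 73747) (nat_lit 3) (.e (nat_lit 516166) (nat_lit 12) (.e (nat_lit 450588) (nat_lit 10) (.e (nat_lit 573453) (nat_lit 9) .nil)))) .nil))) (.nd (nat_lit 6) 
(.lf (nat_lit 200743) (.g (nat_lit 3765) (.e (nat_lit 73747) (nat_lit 3) (.e (nat_lit 516165) (nat_lit 12) (.e (nat_lit 450588) (nat_lit 10) (.e (nat_lit 573473) (nat_lit 12) (.e (nat_lit 57353) (nat_lit 0) .nil))))) .nil)) 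
(.lf (nat_lit 200807) (.g (nat_lit 2306) (.e (nat_lit 73747) (nat_lit 3) (.e (nat_lit 516171) (nat_lit 13) (.e (nat_lit 458774) (nat_lit 18) (.e (nat_lit 5224) (nat_lit 296) (.e (nat_lit 163871) (nat_lit 2) (.e (nat_lit 196691) (nat_lit 18) (.e (nat_lit 1015) (nat_lit 81) (.e (nat_lit 5409) (nat_lit 303) .nil)))))))) (.g (nat_lit 5) .nil .nil))))) (.nd (nat_lit 5) (.nd (nat_lit 6) 
(.lf (nat_lit 200727) (.g (nat_lit 481) (.e (nat_lit 73747) (nat_lit 3) (.e (nat_lit 516165) (nat_lit 12) (.e (nat_lit 450579) (nat_lit 5) .nil))) .nil)) 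
(.lf (nat_lit 200791) (.g (nat_lit 3163) (.e (nat_lit 73747) (nat_lit 3) (.e (nat_lit 516166) (nat_lit 12) (.e (nat_lit 450588) (nat_lit 10) (.e (nat_lit 573475) (nat_lit 12) (.e (nat_lit 57347) (nat_lit 0) .nil))))) .nil))) (.nd (nat_lit 6) 
(.lf (nat_lit 200759) (.g (nat_lit 982) (.e (nat_lit 73747) (nat_lit 3) (.e (nat_lit 516166) (nat_lit 12) (.e (nat_lit 450586) (nat_lit 10) .nil))) .nil)) 
(.lf (nat_lit 200823) (.g (nat_lit 1395) (.e (nat_lit 73747) (nat_lit 3) (.e (nat_lit 516176) (nat_lit 14) (.e (nat_lit 466981) (nat_lit 23) (.e (nat_lit 212736) (nat_lit 1) .nil)))) .nil))))) (.nd (nat_lit 4) (.nd (nat_lit 5) (.nd (nat_lit 6) 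
(.lf (nat_lit 200719) (.g (nat_lit 2502) (.e (nat_lit 73747) (nat_lit 3) (.e (nat_lit 516160) (nat_lit 10) (.e (nat_lit 434275) (nat_lit 39) (.e (nat_lit 663580) (nat_lit 9) (.e (nat_lit 2667) (nat_lit 167) .nil))))) .nil)) 
(.lf (nat_lit 200783) (.g (nat_lit 3763) (.e (nat_lit 73747) (nat_lit 3) (.e (nat_lit 516166) (nat_lit 12) (.e (nat_lit 450588) (nat_lit 10) (.e (nat_lit 573473) (nat_lit 12) (.e (nat_lit 57571) (nat_lit 54) .nil))))) .nil))) (.nd (nat_lit 6) 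
(.lf (nat_lit 200751) (.g (nat_lit 3789) (.e (nat_lit 73747) (nat_lit 3) (.e (nat_lit 516165) (nat_lit 12) (.e (nat_lit 450588) (nat_lit 10) (.e (nat_lit 573475) (nat_lit 12) (.e (nat_lit 57354) (nat_lit 0) .nil))))) .nil)) 
(.lf (nat_lit 200815) (.g (nat_lit 586) (.e (nat_lit 73747) (nat_lit 3) (.e (nat_lit 516176) (nat_lit 14) (.e (nat_lit 466967) (nat_lit 20) .nil))) .nil)))) (.nd (nat_lit 5) (.nd (nat_lit 6) 
(.lf (nat_lit 200735) (.g (nat_lit 2515) (.e (nat_lit 73747) (nat_lit 3) (.e (nat_lit 516165) (nat_lit 12) (.e (nat_lit 450586) (nat_lit 10) (.e (nat_lit 573475) (nat_lit 12) (.e (nat_lit 57356) (nat_lit 0) .nil))))) .nil)) 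
(.lf (nat_lit 200799) (.g (nat_lit 3680) (.e (nat_lit 73747) (nat_lit 3) (.e (nat_lit 516166) (nat_lit 12) (.e (nat_lit 450588) (nat_lit 10) (.e (nat_lit 573475) (nat_lit 12) (.e (nat_lit 57570) (nat_lit 54) (.e (nat_lit 770073) (nat_lit 9) .nil)))))) (.g (nat_lit 4) .nil .nil)))) (.nd (nat_lit 6) 
(.lf (nat_lit 200767) (.g (nat_lit 2128) (.e (nat_lit 73747) (nat_lit 3) (.e (nat_lit 516166) (nat_lit 12) (.e (nat_lit 450587) (nat_lit 10) (.e (nat_lit 573478) (nat_lit 12) .nil)))) .nil)) 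
(.lf (nat_lit 200831) (.g (nat_lit 1603) (.e (nat_lit 73747) (nat_lit 3) (.e (nat_lit 516183) (nat_lit 16) (.e (nat_lit 491560) (nat_lit 10) (.e (nat_lit 344114) (nat_lit 20) .nil)))) .nil)))))))))

noncomputable def tv2651 : DT := (.nd (nat_lit 0) (.nd (nat_lit 1) (.nd (nat_lit 2) (.nd (nat_lit 3) (.nd (nat_lit 4) (.nd (nat_lit 5) (.nd (nat_lit 6) 
(.lf (nat_lit 200832) (.g (nat_lit 2581) (.e (nat_lit 73747) (nat_lit 3) (.e (nat_lit 516184) (nat_lit 16) (.e (nat_lit 491546) (nat_lit 9) (.e (nat_lit 336013) (nat_lit 2) (.e (nat_lit 90165) (nat_lit 12) (.e (nat_lit 171776) (nat_lit 192) .nil)))))) (.g (nat_lit 4) .nil .nil))) 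
(.lf (nat_lit 200896) (.g (nat_lit 2038) (.e (nat_lit 73748) (nat_lit 3) (.e (nat_lit 516131) (nat_lit 3) (.e (nat_lit 221215) (nat_lit 23) (.e (nat_lit 204819) (nat_lit 17) (.e (nat_lit 1994) (nat_lit 137) .nil))))) .nil))) (.nd (nat_lit 6) 
(.lf (nat_lit 200864) (.g (nat_lit 712) (.e (nat_lit 73748) (nat_lit 3) (.e (nat_lit 516115) (nat_lit 1) (.e (nat_lit 164151) (nat_lit 152) .nil))) .nil)) 
(.lf (nat_lit 200928) (.g (nat_lit 2730) (.e (nat_lit 73748) (nat_lit 3) (.e (nat_lit 516139) (nat_lit 7) (.e (nat_lit 409642) (nat_lit 17) (.e (nat_lit 294928) (nat_lit 2) (.e (nat_lit 90165) (nat_lit 12) (.e (nat_lit 171776) (nat_lit 192) .nil)))))) (.g (nat_lit 5) .nil .nil))))) (.nd (nat_lit 5) (.nd (nat_lit 6) 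
(.lf (nat_lit 200848) (.g (nat_lit 2360) (.e (nat_lit 73747) (nat_lit 3) (.e (nat_lit 516185) (nat_lit 16) (.e (nat_lit 491560) (nat_lit 10) (.e (nat_lit 344108) (nat_lit 19) .nil)))) .nil)) 
(.lf (nat_lit 200912) (.g (nat_lit 2139) (.e (nat_lit 73748) (nat_lit 3) (.e (nat_lit 516139) (nat_lit 7) (.e (nat_lit 409616) (nat_lit 10) (.e (nat_lit 5355) (nat_lit 298) (.e (nat_lit 1252) (nat_lit 92) .nil))))) .nil))) (.nd (nat_lit 6) 
(.lf (nat_lit 200880) (.g (nat_lit 1046) (.e (nat_lit 73748) (nat_lit 3) (.e (nat_lit 516131) (nat_lit 3) (.e (nat_lit 221212) (nat_lit 22) (.e (nat_lit 196625) (nat_lit 9) (.e (nat_lit 208) (nat_lit 18) .nil))))) .nil)) 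
(.lf (nat_lit 200944) (.g (nat_lit 2961) (.e (nat_lit 73748) (nat_lit 3) (.e (nat_lit 516139) (nat_lit 7) (.e (nat_lit 409648) (nat_lit 18) (.e (nat_lit 303119) (nat_lit 3) (.e (nat_lit 204821) (nat_lit 17) .nil))))) .nil))))) (.nd (nat_lit 4) (.nd (nat_lit 5) (.nd (nat_lit 6) 
(.lf (nat_lit 200840) (.g (nat_lit 1319) (.e (nat_lit 73747) (nat_lit 3) (.e (nat_lit 516185) (nat_lit 16) (.e (nat_lit 491552) (nat_lit 9) (.e (nat_lit 335924) (nat_lit 0) .nil)))) .nil)) 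
(.lf (nat_lit 200904) (.g (nat_lit 1817) (.e (nat_lit 73748) (nat_lit 3) (.e (nat_lit 516131) (nat_lit 3) (.e (nat_lit 221215) (nat_lit 23) (.e (nat_lit 204840) (nat_lit 21) .nil)))) .nil))) (.nd (nat_lit 6) 
(.lf (nat_lit 200872) (.g (nat_lit 652) (.e (nat_lit 73748) (nat_lit 3) (.e (nat_lit 516131) (nat_lit 3) (.e (nat_lit 221211) (nat_lit 22) (.e (nat_lit 196617) (nat_lit 9) .nil)))) .nil)) 
(.lf (nat_lit 200936) (.g (nat_lit 2404) (.e (nat_lit 73748) (nat_lit 3) (.e (nat_lit 516139) (nat_lit 7) (.e (nat_lit 409646) (nat_lit 18) (.e (nat_lit 303119) (nat_lit 3) (.e (nat_lit 204816) (nat_lit 17) .nil))))) .nil)))) (.nd (nat_lit 5) (.nd (nat_lit 6) 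
(.lf (nat_lit 200856) (.g (nat_lit 2160) (.e (nat_lit 73747) (nat_lit 3) (.e (nat_lit 516195) (nat_lit 26) (.e (nat_lit 336021) (nat_lit 3) (.e (nat_lit 106240) (nat_lit 10) (.e (nat_lit 344132) (nat_lit 26) (.e (nat_lit 564992) (nat_lit 5) .nil)))))) (.g (nat_lit 5) .nil .nil))) 
(.lf (nat_lit 200920) (.g (nat_lit 1853) (.e (nat_lit 73748) (nat_lit 3) (.e (nat_lit 516139) (nat_lit 7) (.e (nat_lit 409623) (nat_lit 10) (.e (nat_lit 5293) (nat_lit 298) (.e (nat_lit 1250) (nat_lit 92) (.e (nat_lit 98320) (nat_lit 17) (.e (nat_lit 7591) (nat_lit 407) .nil))))))) (.g (nat_lit 4) .nil .nil)))) (.nd (nat_lit 6) 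
(.lf (nat_lit 200888) (.g (nat_lit 1300) (.e (nat_lit 73748) (nat_lit 3) (.e (nat_lit 516131) (nat_lit 3) (.e (nat_lit 221212) (nat_lit 22) (.e (nat_lit 196650) (nat_lit 10) (.e (nat_lit 8268) (nat_lit 45) (.e (nat_lit 786176) (nat_lit 0) (.e (nat_lit 1239) (nat_lit 91) (.e (nat_lit 98048) (nat_lit 5) .nil)))))))) (.g (nat_lit 4) .nil .nil))) 
(.lf (nat_lit 200952) (.g (nat_lit 1321) (.e (nat_lit 73748) (nat_lit 3) (.e (nat_lit 516146) (nat_lit 9) (.e (nat_lit 426320) (nat_lit 12) (.e (nat_lit 475179) (nat_lit 24) .nil)))) .nil)))))) (.nd (nat_lit 3) (.nd (nat_lit 4) (.nd (nat_lit 5) (.nd (nat_lit 6) 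
(.lf (nat_lit 200836) (.g (nat_lit 2752) (.e (nat_lit 73747) (nat_lit 3) (.e (nat_lit 516185) (nat_lit 16) (.e (nat_lit 491546) (nat_lit 9) (.e (nat_lit 336013) (nat_lit 2) (.e (nat_lit 90133) (nat_lit 9) .nil))))) .nil)) 
(.lf (nat_lit 200900) (.g (nat_lit 2317) (.e (nat_lit 73748) (nat_lit 3) (.e (nat_lit 516131) (nat_lit 3) (.e (nat_lit 221215) (nat_lit 23) (.e (nat_lit 204829) (nat_lit 18) (.e (nat_lit 57931) (nat_lit 282) .nil))))) .nil))) (.nd (nat_lit 6) 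
(.lf (nat_lit 200868) (.g (nat_lit 1438) (.e (nat_lit 73748) (nat_lit 3) (.e (nat_lit 516129) (nat_lit 3) (.e (nat_lit 221210) (nat_lit 22) (.e (nat_lit 196658) (nat_lit 12) .nil)))) .nil)) 
(.lf (nat_lit 200932) (.g (nat_lit 2275) (.e (nat_lit 73748) (nat_lit 3) (.e (nat_lit 516139) (nat_lit 7) (.e (nat_lit 409644) (nat_lit 18) (.e (nat_lit 303119) (nat_lit 3) (.e (nat_lit 204816) (nat_lit 17) .nil))))) .nil)))) (.nd (nat_lit 5) (.nd (nat_lit 6) 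
(.lf (nat_lit 200852) (.g (nat_lit 3224) (.e (nat_lit 73747) (nat_lit 3) (.e (nat_lit 516185) (nat_lit 16) (.e (nat_lit 491560) (nat_lit 10) (.e (nat_lit 344117) (nat_lit 21) (.e (nat_lit 516099) (nat_lit 0) .nil))))) .nil)) 
(.lf (nat_lit 200916) (.g (nat_lit 2067) (.e (nat_lit 73748) (nat_lit 3) (.e (nat_lit 516139) (nat_lit 7) (.e (nat_lit 409617) (nat_lit 10) (.e (nat_lit 5355) (nat_lit 298) (.e (nat_lit 1252) (nat_lit 92) .nil))))) .nil))) (.nd (nat_lit 6) 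
(.lf (nat_lit 200884) (.g (nat_lit 1867) (.e (nat_lit 73748) (nat_lit 3) (.e (nat_lit 516131) (nat_lit 3) (.e (nat_lit 221212) (nat_lit 22) (.e (nat_lit 196649) (nat_lit 10) (.e (nat_lit 8261) (nat_lit 45) (.e (nat_lit 778246) (nat_lit 0) (.e (nat_lit 1239) (nat_lit 91) (.e (nat_lit 98048) (nat_lit 5) .nil)))))))) (.g (nat_lit 4) .nil .nil))) 
(.lf (nat_lit 200948) (.g (nat_lit 2770) (.e (nat_lit 73748) (nat_lit 3) (.e (nat_lit 516139) (nat_lit 7) (.e (nat_lit 409649) (nat_lit 18) (.e (nat_lit 303119) (nat_lit 3) (.e (nat_lit 204816) (nat_lit 17) .nil))))) .nil))))) (.nd (nat_lit 4) (.nd (nat_lit 5) (.nd (nat_lit 6) 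
(.lf (nat_lit 200844) (.g (nat_lit 3639) (.e (nat_lit 73747) (nat_lit 3) (.e (nat_lit 516185) (nat_lit 16) (.e (nat_lit 491558) (nat_lit 10) (.e (nat_lit 344117) (nat_lit 21) (.e (nat_lit 516098) (nat_lit 0) (.e (nat_lit 7591) (nat_lit 407) .nil)))))) (.g (nat_lit 0) .nil .nil))) 
(.lf (nat_lit 200908) (.g (nat_lit 2481) (.e (nat_lit 73748) (nat_lit 3) (.e (nat_lit 516138) (nat_lit 7) (.e (nat_lit 409645) (nat_lit 18) (.e (nat_lit 303119) (nat_lit 3) (.e (nat_lit 204821) (nat_lit 17) .nil))))) .nil))) (.nd (nat_lit 6) 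
(.lf (nat_lit 200876) (.g (nat_lit 1366) (.e (nat_lit 73748) (nat_lit 3) (.e (nat_lit 516131) (nat_lit 3) (.e (nat_lit 221212) (nat_lit 22) (.e (nat_lit 196617) (nat_lit 9) (.e (nat_lit 212) (nat_lit 18) (.e (nat_lit 270080) (nat_lit 0) (.e (nat_lit 1239) (nat_lit 91) (.e (nat_lit 98048) (nat_lit 5) .nil)))))))) (.g (nat_lit 4) .nil .nil))) 
(.lf (nat_lit 200940) (.g (nat_lit 1408) (.e (nat_lit 73748) (nat_lit 3) (.e (nat_lit 516139) (nat_lit 7) (.e (nat_lit 409648) (nat_lit 18) (.e (nat_lit 303108) (nat_lit 0) (.e (nat_lit 3272) (nat_lit 199) .nil))))) .nil)))) (.nd (nat_lit 5) (.nd (nat_lit 6) 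
(.lf (nat_lit 200860) (.g (nat_lit 1873) (.e (nat_lit 73747) (nat_lit 3) (.e (nat_lit 516195) (nat_lit 26) (.e (nat_lit 336027) (nat_lit 3) (.e (nat_lit 98325) (nat_lit 17) (.e (nat_lit 7936) (nat_lit 221) .nil))))) .nil)) 
(.lf (nat_lit 200924) (.g (nat_lit 1729) (.e (nat_lit 73748) (nat_lit 3) (.e (nat_lit 516139) (nat_lit 7) (.e (nat_lit 409641) (nat_lit 17) (.e (nat_lit 294927) (nat_lit 2) .nil)))) .nil))) (.nd (nat_lit 6) 
(.lf (nat_lit 200892) (.g (nat_lit 2169) (.e (nat_lit 73748) (nat_lit 3) (.e (nat_lit 516131) (nat_lit 3) (.e (nat_lit 221214) (nat_lit 23) (.e (nat_lit 204831) (nat_lit 18) (.e (nat_lit 57931) (nat_lit 282) .nil))))) .nil)) 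
(.lf (nat_lit 200956) (.g (nat_lit 3204) (.e (nat_lit 73748) (nat_lit 3) (.e (nat_lit 516151) (nat_lit 9) (.e (nat_lit 426211) (nat_lit 9) (.e (nat_lit 426125) (nat_lit 2) (.e (nat_lit 204544) (nat_lit 10) .nil))))) .nil))))))) (.nd (nat_lit 2) (.nd (nat_lit 3) (.nd (nat_lit 4) (.nd (nat_lit 5) (.nd (nat_lit 6) 
(.lf (nat_lit 200834) (.g (nat_lit 3077) (.e (nat_lit 73747) (nat_lit 3) (.e (nat_lit 516184) (nat_lit 16) (.e (nat_lit 491546) (nat_lit 9) (.e (nat_lit 336028) (nat_lit 3) (.e (nat_lit 98325) (nat_lit 17) (.e (nat_lit 7936) (nat_lit 407) .nil)))))) (.g (nat_lit 5) .nil .nil))) 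
(.lf (nat_lit 200898) (.g (nat_lit 2032) (.e (nat_lit 73748) (nat_lit 3) (.e (nat_lit 516131) (nat_lit 3) (.e (nat_lit 221215) (nat_lit 23) (.e (nat_lit 204819) (nat_lit 17) (.e (nat_lit 1996) (nat_lit 137) (.e (nat_lit 663554) (nat_lit 0) (.e (nat_lit 1239) (nat_lit 91) (.e (nat_lit 98048) (nat_lit 5) .nil)))))))) (.g (nat_lit 4) .nil .nil)))) (.nd (nat_lit 6) 
(.lf (nat_lit 200866) (.g (nat_lit 1473) (.e (nat_lit 73748) (nat_lit 3) (.e (nat_lit 516119) (nat_lit 1) (.e (nat_lit 164196) (nat_lit 158) (.e (nat_lit 1172) (nat_lit 87) .nil)))) .nil)) 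
(.lf (nat_lit 200930) (.g (nat_lit 1750) (.e (nat_lit 73748) (nat_lit 3) (.e (nat_lit 516139) (nat_lit 7) (.e (nat_lit 409643) (nat_lit 18) (.e (nat_lit 303119) (nat_lit 3) (.e (nat_lit 204819) (nat_lit 17) (.e (nat_lit 7936) (nat_lit 348) .nil)))))) (.g (nat_lit 4) .nil .nil))))) (.nd (nat_lit 5) (.nd (nat_lit 6) 
(.lf (nat_lit 200850) (.g (nat_lit 1864) (.e (nat_lit 73747) (nat_lit 3) (.e (nat_lit 516185) (nat_lit 16) (.e (nat_lit 491560) (nat_lit 10) (.e (nat_lit 344114) (nat_lit 20) .nil)))) .nil)) 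
(.lf (nat_lit 200914) (.g (nat_lit 2148) (.e (nat_lit 73748) (nat_lit 3) (.e (nat_lit 516139) (nat_lit 7) (.e (nat_lit 409617) (nat_lit 10) (.e (nat_lit 5355) (nat_lit 298) (.e (nat_lit 1234) (nat_lit 91) .nil))))) .nil))) (.nd (nat_lit 6) 
(.lf (nat_lit 200882) (.g (nat_lit 1293) (.e (nat_lit 73748) (nat_lit 3) (.e (nat_lit 516131) (nat_lit 3) (.e (nat_lit 221212) (nat_lit 22) (.e (nat_lit 196648) (nat_lit 10) .nil)))) .nil)) 
(.lf (nat_lit 200946) (.g (nat_lit 3157) (.e (nat_lit 73748) (nat_lit 3) (.e (nat_lit 516139) (nat_lit 7) (.e (nat_lit 409649) (nat_lit 18) (.e (nat_lit 303118) (nat_lit 3) (.e (nat_lit 204816) (nat_lit 17) .nil))))) .nil))))) (.nd (nat_lit 4) (.nd (nat_lit 5) (.nd (nat_lit 6) 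
(.lf (nat_lit 200842) (.g (nat_lit 419) (.e (nat_lit 73747) (nat_lit 3) (.e (nat_lit 516185) (nat_lit 16) (.e (nat_lit 491558) (nat_lit 10) .nil))) .nil)) 
(.lf (nat_lit 200906) (.g (nat_lit 659) (.e (nat_lit 73748) (nat_lit 3) (.e (nat_lit 516138) (nat_lit 7) (.e (nat_lit 409641) (nat_lit 17) .nil))) .nil))) (.nd (nat_lit 6) 
(.lf (nat_lit 200874) (.g (nat_lit 791) (.e (nat_lit 73748) (nat_lit 3) (.e (nat_lit 516131) (nat_lit 3) (.e (nat_lit 221212) (nat_lit 22) (.e (nat_lit 196610) (nat_lit 0) .nil)))) .nil)) 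
(.lf (nat_lit 200938) (.g (nat_lit 3086) (.e (nat_lit 73748) (nat_lit 3) (.e (nat_lit 516139) (nat_lit 7) (.e (nat_lit 409646) (nat_lit 18) (.e (nat_lit 303119) (nat_lit 3) (.e (nat_lit 204821) (nat_lit 17) (.e (nat_lit 7936) (nat_lit 348) .nil)))))) (.g (nat_lit 5) .nil .nil))))) (.nd (nat_lit 5) (.nd (nat_lit 6) 
(.lf (nat_lit 200858) (.g (nat_lit 2375) (.e (nat_lit 73747) (nat_lit 3) (.e (nat_lit 516195) (nat_lit 26) (.e (nat_lit 336027) (nat_lit 3) (.e (nat_lit 98323) (nat_lit 17) (.e (nat_lit 3558) (nat_lit 221) (.e (nat_lit 729112) (nat_lit 22) (.e (nat_lit 98048) (nat_lit 5) .nil))))))) (.g (nat_lit 4) .nil .nil))) 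
(.lf (nat_lit 200922) (.g (nat_lit 2441) (.e (nat_lit 73748) (nat_lit 3) (.e (nat_lit 516139) (nat_lit 7) (.e (nat_lit 417536) (nat_lit 16) (.e (nat_lit 286735) (nat_lit 3) (.e (nat_lit 98325) (nat_lit 17) (.e (nat_lit 7936) (nat_lit 407) .nil)))))) (.g (nat_lit 5) .nil .nil)))) (.nd (nat_lit 6) 
(.lf (nat_lit 200890) (.g (nat_lit 1551) (.e (nat_lit 73748) (nat_lit 3) (.e (nat_lit 516131) (nat_lit 3) (.e (nat_lit 221212) (nat_lit 22) (.e (nat_lit 196651) (nat_lit 10) (.e (nat_lit 8262) (nat_lit 45) (.e (nat_lit 778246) (nat_lit 0) (.e (nat_lit 1239) (nat_lit 91) (.e (nat_lit 98048) (nat_lit 5) .nil)))))))) (.g (nat_lit 4) .nil .nil))) 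
(.lf (nat_lit 200954) (.g (nat_lit 5186) (.e (nat_lit 73748) (nat_lit 3) (.e (nat_lit 516151) (nat_lit 9) (.e (nat_lit 426211) (nat_lit 9) (.e (nat_lit 426125) (nat_lit 2) (.e (nat_lit 196615) (nat_lit 0) .nil))))) .nil)))))) (.nd (nat_lit 3) (.nd (nat_lit 4) (.nd (nat_lit 5) (.nd (nat_lit 6) 
(.lf (nat_lit 200838) (.g (nat_lit 2481) (.e (nat_lit 73747) (nat_lit 3) (.e (nat_lit 516185) (nat_lit 16) (.e (nat_lit 491546) (nat_lit 9) (.e (nat_lit 336028) (nat_lit 3) (.e (nat_lit 98320) (nat_lit 17) (.e (nat_lit 7591) (nat_lit 407) .nil)))))) (.g (nat_lit 4) .nil .nil))) 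
(.lf (nat_lit 200902) (.g (nat_lit 2030) (.e (nat_lit 73748) (nat_lit 3) (.e (nat_lit 516131) (nat_lit 3) (.e (nat_lit 221215) (nat_lit 23) (.e (nat_lit 204830) (nat_lit 18) (.e (nat_lit 57926) (nat_lit 282) .nil))))) .nil))) (.nd (nat_lit 6) 
(.lf (nat_lit 200870) (.g (nat_lit 366) (.e (nat_lit 73748) (nat_lit 3) (.e (nat_lit 516131) (nat_lit 3) (.e (nat_lit 221198) (nat_lit 20) .nil))) .nil)) 
(.lf (nat_lit 200934) (.g (nat_lit 2732) (.e (nat_lit 73748) (nat_lit 3) (.e (nat_lit 516139) (nat_lit 7) (.e (nat_lit 409645) (nat_lit 18) (.e (nat_lit 303119) (nat_lit 3) (.e (nat_lit 204819) (nat_lit 17) (.e (nat_lit 7936) (nat_lit 348) .nil)))))) (.g (nat_lit 4) .nil .nil))))) (.nd (nat_lit 5) (.nd (nat_lit 6) 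
(.lf (nat_lit 200854) (.g (nat_lit 370) (.e (nat_lit 73747) (nat_lit 3) (.e (nat_lit 516195) (nat_lit 26) (.e (nat_lit 335995) (nat_lit 1) .nil))) .nil)) 
(.lf (nat_lit 200918) (.g (nat_lit 2096) (.e (nat_lit 73748) (nat_lit 3) (.e (nat_lit 516139) (nat_lit 7) (.e (nat_lit 409617) (nat_lit 10) (.e (nat_lit 5355) (nat_lit 298) (.e (nat_lit 1253) (nat_lit 92) .nil))))) .nil))) (.nd (nat_lit 6) 
(.lf (nat_lit 200886) (.g (nat_lit 935) (.e (nat_lit 73748) (nat_lit 3) (.e (nat_lit 516131) (nat_lit 3) (.e (nat_lit 221212) (nat_lit 22) (.e (nat_lit 196650) (nat_lit 10) .nil)))) .nil)) 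
(.lf (nat_lit 200950) (.g (nat_lit 3023) (.e (nat_lit 73748) (nat_lit 3) (.e (nat_lit 516139) (nat_lit 7) (.e (nat_lit 409649) (nat_lit 18) (.e (nat_lit 303119) (nat_lit 3) (.e (nat_lit 204819) (nat_lit 17) .nil))))) .nil))))) (.nd (nat_lit 4) (.nd (nat_lit 5) (.nd (nat_lit 6) 
(.lf (nat_lit 200846) (.g (nat_lit 1802) (.e (nat_lit 73747) (nat_lit 3) (.e (nat_lit 516185) (nat_lit 16) (.e (nat_lit 491558) (nat_lit 10) (.e (nat_lit 344119) (nat_lit 21) (.e (nat_lit 516098) (nat_lit 0) .nil))))) .nil)) 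
(.lf (nat_lit 200910) (.g (nat_lit 1686) (.e (nat_lit 73748) (nat_lit 3) (.e (nat_lit 516139) (nat_lit 7) (.e (nat_lit 409616) (nat_lit 10) (.e (nat_lit 5353) (nat_lit 298) .nil)))) .nil))) (.nd (nat_lit 6) 
(.lf (nat_lit 200878) (.g (nat_lit 1085) (.e (nat_lit 73748) (nat_lit 3) (.e (nat_lit 516131) (nat_lit 3) (.e (nat_lit 221212) (nat_lit 22) (.e (nat_lit 196622) (nat_lit 9) .nil)))) .nil)) 
(.lf (nat_lit 200942) (.g (nat_lit 2980) (.e (nat_lit 73748) (nat_lit 3) (.e (nat_lit 516139) (nat_lit 7) (.e (nat_lit 409648) (nat_lit 18) (.e (nat_lit 303118) (nat_lit 3) (.e (nat_lit 204816) (nat_lit 17) .nil))))) .nil)))) (.nd (nat_lit 5) (.nd (nat_lit 6) 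
(.lf (nat_lit 200862) (.g (nat_lit 1296) (.e (nat_lit 73747) (nat_lit 3) (.e (nat_lit 516195) (nat_lit 26) (.e (nat_lit 336288) (nat_lit 15) (.e (nat_lit 7936) (nat_lit 195) .nil)))) .nil)) 
(.lf (nat_lit 200926) (.g (nat_lit 3377) (.e (nat_lit 73748) (nat_lit 3) (.e (nat_lit 516139) (nat_lit 7) (.e (nat_lit 409641) (nat_lit 17) (.e (nat_lit 294928) (nat_lit 2) (.e (nat_lit 90165) (nat_lit 12) (.e (nat_lit 171776) (nat_lit 192) .nil)))))) (.g (nat_lit 5) .nil .nil)))) (.nd (nat_lit 6) 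
(.lf (nat_lit 200894) (.g (nat_lit 1209) (.e (nat_lit 73748) (nat_lit 3) (.e (nat_lit 516131) (nat_lit 3) (.e (nat_lit 221215) (nat_lit 23) (.e (nat_lit 212736) (nat_lit 6) .nil)))) .nil)) 
(.lf (nat_lit 200958) (.g (nat_lit 4647) (.e (nat_lit 73748) (nat_lit 3) (.e (nat_lit 516151) (nat_lit 9) (.e (nat_lit 426211) (nat_lit 9) (.e (nat_lit 426125) (nat_lit 2) (.e (nat_lit 196686) (nat_lit 18) .nil))))) .nil)))))))) (.nd (nat_lit 1) (.nd (nat_lit 2) (.nd (nat_lit 3) (.nd (nat_lit 4) (.nd (nat_lit 5) (.nd (nat_lit 6) 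
(.lf (nat_lit 200833) (.g (nat_lit 2586) (.e (nat_lit 73747) (nat_lit 3) (.e (nat_lit 516184) (nat_lit 16) (.e (nat_lit 491546) (nat_lit 9) (.e (nat_lit 336028) (nat_lit 3) (.e (nat_lit 98320) (nat_lit 17) (.e (nat_lit 7591) (nat_lit 407) .nil)))))) (.g (nat_lit 4) .nil .nil))) 
(.lf (nat_lit 200897) (.g (nat_lit 2169) (.e (nat_lit 73748) (nat_lit 3) (.e (nat_lit 516131) (nat_lit 3) (.e (nat_lit 221215) (nat_lit 23) (.e (nat_lit 204819) (nat_lit 17) (.e (nat_lit 1994) (nat_lit 137) (.e (nat_lit 663554) (nat_lit 0) (.e (nat_lit 1239) (nat_lit 91) (.e (nat_lit 98048) (nat_lit 5) .nil)))))))) (.g (nat_lit 4) .nil .nil)))) (.nd (nat_lit 6) 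
(.lf (nat_lit 200865) (.g (nat_lit 582) (.e (nat_lit 73748) (nat_lit 3) (.e (nat_lit 516115) (nat_lit 1) (.e (nat_lit 164179) (nat_lit 154) .nil))) .nil)) 
(.lf (nat_lit 200929) (.g (nat_lit 1085) (.e (nat_lit 73748) (nat_lit 3) (.e (nat_lit 516139) (nat_lit 7) (.e (nat_lit 409643) (nat_lit 18) (.e (nat_lit 303119) (nat_lit 3) .nil)))) .nil)))) (.nd (nat_lit 5) (.nd (nat_lit 6) 
(.lf (nat_lit 200849) (.g (nat_lit 2601) (.e (nat_lit 73747) (nat_lit 3) (.e (nat_lit 516185) (nat_lit 16) (.e (nat_lit 491560) (nat_lit 10) (.e (nat_lit 344111) (nat_lit 19) (.e (nat_lit 499910) (nat_lit 8) .nil))))) .nil)) 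
(.lf (nat_lit 200913) (.g (nat_lit 2198) (.e (nat_lit 73748) (nat_lit 3) (.e (nat_lit 516139) (nat_lit 7) (.e (nat_lit 409616) (nat_lit 10) (.e (nat_lit 5355) (nat_lit 298) (.e (nat_lit 1253) (nat_lit 92) .nil))))) .nil))) (.nd (nat_lit 6) 
(.lf (nat_lit 200881) (.g (nat_lit 1292) (.e (nat_lit 73748) (nat_lit 3) (.e (nat_lit 516131) (nat_lit 3) (.e (nat_lit 221212) (nat_lit 22) (.e (nat_lit 196647) (nat_lit 10) .nil)))) .nil)) 
(.lf (nat_lit 200945) (.g (nat_lit 2462) (.e (nat_lit 73748) (nat_lit 3) (.e (nat_lit 516139) (nat_lit 7) (.e (nat_lit 409649) (nat_lit 18) (.e (nat_lit 303111) (nat_lit 0) (.e (nat_lit 3205) (nat_lit 194) .nil))))) .nil))))) (.nd (nat_lit 4) (.nd (nat_lit 5) (.nd (nat_lit 6) 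
(.lf (nat_lit 200841) (.g (nat_lit 1540) (.e (nat_lit 73747) (nat_lit 3) (.e (nat_lit 516185) (nat_lit 16) (.e (nat_lit 491556) (nat_lit 9) (.e (nat_lit 336017) (nat_lit 3) .nil)))) .nil)) 
(.lf (nat_lit 200905) (.g (nat_lit 740) (.e (nat_lit 73748) (nat_lit 3) (.e (nat_lit 516131) (nat_lit 3) (.e (nat_lit 221219) (nat_lit 24) (.e (nat_lit 213048) (nat_lit 14) .nil)))) .nil))) (.nd (nat_lit 6) 
(.lf (nat_lit 200873) (.g (nat_lit 1909) (.e (nat_lit 73748) (nat_lit 3) (.e (nat_lit 516131) (nat_lit 3) (.e (nat_lit 221211) (nat_lit 22) (.e (nat_lit 196661) (nat_lit 12) (.e (nat_lit 57361) (nat_lit 0) (.e (nat_lit 5818) (nat_lit 320) (.e (nat_lit 999) (nat_lit 81) (.e (nat_lit 1239) (nat_lit 91) (.e (nat_lit 98048) (nat_lit 5) .nil))))))))) (.g (nat_lit 6) .nil .nil))) 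
(.lf (nat_lit 200937) (.g (nat_lit 2672) (.e (nat_lit 73748) (nat_lit 3) (.e (nat_lit 516139) (nat_lit 7) (.e (nat_lit 409646) (nat_lit 18) (.e (nat_lit 303119) (nat_lit 3) (.e (nat_lit 204819) (nat_lit 17) (.e (nat_lit 7936) (nat_lit 348) .nil)))))) (.g (nat_lit 4) .nil .nil))))) (.nd (nat_lit 5) (.nd (nat_lit 6) 
(.lf (nat_lit 200857) (.g (nat_lit 1988) (.e (nat_lit 73747) (nat_lit 3) (.e (nat_lit 516195) (nat_lit 26) (.e (nat_lit 336027) (nat_lit 3) (.e (nat_lit 98321) (nat_lit 17) (.e (nat_lit 7936) (nat_lit 220) .nil))))) .nil)) 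
(.lf (nat_lit 200921) (.g (nat_lit 2242) (.e (nat_lit 73748) (nat_lit 3) (.e (nat_lit 516139) (nat_lit 7) (.e (nat_lit 417536) (nat_lit 16) (.e (nat_lit 286733) (nat_lit 2) (.e (nat_lit 90165) (nat_lit 12) (.e (nat_lit 171776) (nat_lit 192) .nil)))))) (.g (nat_lit 5) .nil .nil)))) (.nd (nat_lit 6) 
(.lf (nat_lit 200889) (.g (nat_lit 1296) (.e (nat_lit 73748) (nat_lit 3) (.e (nat_lit 516131) (nat_lit 3) (.e (nat_lit 221212) (nat_lit 22) (.e (nat_lit 196651) (nat_lit 10) .nil)))) .nil)) 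
(.lf (nat_lit 200953) (.g (nat_lit 3006) (.e (nat_lit 73748) (nat_lit 3) (.e (nat_lit 516151) (nat_lit 9) (.e (nat_lit 426211) (nat_lit 9) (.e (nat_lit 426125) (nat_lit 2) .nil)))) .nil)))))) (.nd (nat_lit 3) (.nd (nat_lit 4) (.nd (nat_lit 5) (.nd (nat_lit 6) 
(.lf (nat_lit 200837) (.g (nat_lit 2754) (.e (nat_lit 73747) (nat_lit 3) (.e (nat_lit 516185) (nat_lit 16) (.e (nat_lit 491546) (nat_lit 9) (.e (nat_lit 336013) (nat_lit 2) (.e (nat_lit 90165) (nat_lit 12) (.e (nat_lit 171776) (nat_lit 192) .nil)))))) (.g (nat_lit 5) .nil .nil))) 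
(.lf (nat_lit 200901) (.g (nat_lit 2210) (.e (nat_lit 73748) (nat_lit 3) (.e (nat_lit 516131) (nat_lit 3) (.e (nat_lit 221215) (nat_lit 23) (.e (nat_lit 204830) (nat_lit 18) (.e (nat_lit 57924) (nat_lit 282) .nil))))) .nil))) (.nd (nat_lit 6) 
(.lf (nat_lit 200869) (.g (nat_lit 1499) (.e (nat_lit 73748) (nat_lit 3) (.e (nat_lit 516129) (nat_lit 3) (.e (nat_lit 221210) (nat_lit 22) (.e (nat_lit 196661) (nat_lit 12) .nil)))) .nil)) 
(.lf (nat_lit 200933) (.g (nat_lit 2619) (.e (nat_lit 73748) (nat_lit 3) (.e (nat_lit 516139) (nat_lit 7) (.e (nat_lit 409645) (nat_lit 18) (.e (nat_lit 303119) (nat_lit 3) (.e (nat_lit 204816) (nat_lit 17) .nil))))) .nil)))) (.nd (nat_lit 5) (.nd (nat_lit 6) 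
(.lf (nat_lit 200853) (.g (nat_lit 3659) (.e (nat_lit 73747) (nat_lit 3) (.e (nat_lit 516185) (nat_lit 16) (.e (nat_lit 491560) (nat_lit 10) (.e (nat_lit 344118) (nat_lit 21) (.e (nat_lit 516097) (nat_lit 0) (.e (nat_lit 7591) (nat_lit 407) .nil)))))) (.g (nat_lit 6) .nil .nil))) 
(.lf (nat_lit 200917) (.g (nat_lit 2290) (.e (nat_lit 73748) (nat_lit 3) (.e (nat_lit 516139) (nat_lit 7) (.e (nat_lit 409617) (nat_lit 10) (.e (nat_lit 5355) (nat_lit 298) (.e (nat_lit 1252) (nat_lit 92) (.e (nat_lit 98320) (nat_lit 17) (.e (nat_lit 7591) (nat_lit 407) .nil))))))) (.g (nat_lit 4) .nil .nil)))) (.nd (nat_lit 6) 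
(.lf (nat_lit 200885) (.g (nat_lit 2118) (.e (nat_lit 73748) (nat_lit 3) (.e (nat_lit 516131) (nat_lit 3) (.e (nat_lit 221212) (nat_lit 22) (.e (nat_lit 196649) (nat_lit 10) (.e (nat_lit 8261) (nat_lit 45) (.e (nat_lit 778318) (nat_lit 3) (.e (nat_lit 57454) (nat_lit 21) (.e (nat_lit 507648) (nat_lit 19) .nil)))))))) (.g (nat_lit 5) .nil .nil))) 
(.lf (nat_lit 200949) (.g (nat_lit 3065) (.e (nat_lit 73748) (nat_lit 3) (.e (nat_lit 516139) (nat_lit 7) (.e (nat_lit 409649) (nat_lit 18) (.e (nat_lit 303119) (nat_lit 3) (.e (nat_lit 204817) (nat_lit 17) .nil))))) .nil))))) (.nd (nat_lit 4) (.nd (nat_lit 5) (.nd (nat_lit 6) 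
(.lf (nat_lit 200845) (.g (nat_lit 2957) (.e (nat_lit 73747) (nat_lit 3) (.e (nat_lit 516185) (nat_lit 16) (.e (nat_lit 491558) (nat_lit 10) (.e (nat_lit 344117) (nat_lit 21) (.e (nat_lit 516106) (nat_lit 0) (.e (nat_lit 7936) (nat_lit 407) .nil)))))) (.g (nat_lit 4) .nil .nil))) 
(.lf (nat_lit 200909) (.g (nat_lit 1707) (.e (nat_lit 73748) (nat_lit 3) (.e (nat_lit 516139) (nat_lit 7) (.e (nat_lit 409616) (nat_lit 10) (.e (nat_lit 5345) (nat_lit 298) .nil)))) .nil))) (.nd (nat_lit 6) 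
(.lf (nat_lit 200877) (.g (nat_lit 1081) (.e (nat_lit 73748) (nat_lit 3) (.e (nat_lit 516131) (nat_lit 3) (.e (nat_lit 221212) (nat_lit 22) (.e (nat_lit 196620) (nat_lit 9) .nil)))) .nil)) 
(.lf (nat_lit 200941) (.g (nat_lit 1483) (.e (nat_lit 73748) (nat_lit 3) (.e (nat_lit 516139) (nat_lit 7) (.e (nat_lit 409648) (nat_lit 18) (.e (nat_lit 303116) (nat_lit 2) .nil)))) .nil)))) (.nd (nat_lit 5) (.nd (nat_lit 6) 
(.lf (nat_lit 200861) (.g (nat_lit 3287) (.e (nat_lit 73747) (nat_lit 3) (.e (nat_lit 516195) (nat_lit 26) (.e (nat_lit 336027) (nat_lit 3) (.e (nat_lit 98345) (nat_lit 22) (.e (nat_lit 253960) (nat_lit 9) (.e (nat_lit 1239) (nat_lit 91) (.e (nat_lit 98048) (nat_lit 5) .nil))))))) (.g (nat_lit 6) .nil .nil))) 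
(.lf (nat_lit 200925) (.g (nat_lit 1713) (.e (nat_lit 73748) (nat_lit 3) (.e (nat_lit 516139) (nat_lit 7) (.e (nat_lit 409641) (nat_lit 17) (.e (nat_lit 294928) (nat_lit 2) .nil)))) .nil))) (.nd (nat_lit 6) 
(.lf (nat_lit 200893) (.g (nat_lit 2129) (.e (nat_lit 73748) (nat_lit 3) (.e (nat_lit 516131) (nat_lit 3) (.e (nat_lit 221215) (nat_lit 23) (.e (nat_lit 204803) (nat_lit 0) (.e (nat_lit 3632) (nat_lit 227) (.e (nat_lit 778246) (nat_lit 0) (.e (nat_lit 1239) (nat_lit 91) (.e (nat_lit 98048) (nat_lit 5) .nil)))))))) (.g (nat_lit 4) .nil .nil))) 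
(.lf (nat_lit 200957) (.g (nat_lit 4904) (.e (nat_lit 73748) (nat_lit 3) (.e (nat_lit 516151) (nat_lit 9) (.e (nat_lit 426211) (nat_lit 9) (.e (nat_lit 426125) (nat_lit 2) (.e (nat_lit 196683) (nat_lit 18) .nil))))) .nil))))))) (.nd (nat_lit 2) (.nd (nat_lit 3) (.nd (nat_lit 4) (.nd (nat_lit 5) (.nd (nat_lit 6) 
(.lf (nat_lit 200835) (.g (nat_lit 2865) (.e (nat_lit 73747) (nat_lit 3) (.e (nat_lit 516184) (nat_lit 16) (.e (nat_lit 491560) (nat_lit 10) (.e (nat_lit 344117) (nat_lit 21) (.e (nat_lit 516097) (nat_lit 0) .nil))))) .nil)) 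
(.lf (nat_lit 200899) (.g (nat_lit 1275) (.e (nat_lit 73748) (nat_lit 3) (.e (nat_lit 516131) (nat_lit 3) (.e (nat_lit 221215) (nat_lit 23) (.e (nat_lit 204828) (nat_lit 18) .nil)))) .nil))) (.nd (nat_lit 6) 
(.lf (nat_lit 200867) (.g (nat_lit 1604) (.e (nat_lit 73748) (nat_lit 3) (.e (nat_lit 516129) (nat_lit 3) (.e (nat_lit 221210) (nat_lit 22) (.e (nat_lit 196648) (nat_lit 10) .nil)))) .nil)) 
(.lf (nat_lit 200931) (.g (nat_lit 1909) (.e (nat_lit 73748) (nat_lit 3) (.e (nat_lit 516139) (nat_lit 7) (.e (nat_lit 409643) (nat_lit 18) (.e (nat_lit 303119) (nat_lit 3) (.e (nat_lit 204821) (nat_lit 17) (.e (nat_lit 7936) (nat_lit 348) .nil)))))) (.g (nat_lit 4) .nil .nil))))) (.nd (nat_lit 5) (.nd (nat_lit 6) 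
(.lf (nat_lit 200851) (.g (nat_lit 2062) (.e (nat_lit 73747) (nat_lit 3) (.e (nat_lit 516185) (nat_lit 16) (.e (nat_lit 491560) (nat_lit 10) (.e (nat_lit 344116) (nat_lit 21) .nil)))) .nil)) 
(.lf (nat_lit 200915) (.g (nat_lit 3214) (.e (nat_lit 73748) (nat_lit 3) (.e (nat_lit 516139) (nat_lit 7) (.e (nat_lit 409617) (nat_lit 10) (.e (nat_lit 5355) (nat_lit 298) (.e (nat_lit 1235) (nat_lit 91) (.e (nat_lit 90165) (nat_lit 12) (.e (nat_lit 171776) (nat_lit 192) .nil))))))) (.g (nat_lit 6) .nil .nil)))) (.nd (nat_lit 6) 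
(.lf (nat_lit 200883) (.g (nat_lit 1292) (.e (nat_lit 73748) (nat_lit 3) (.e (nat_lit 516131) (nat_lit 3) (.e (nat_lit 221212) (nat_lit 22) (.e (nat_lit 196649) (nat_lit 10) .nil)))) .nil)) 
(.lf (nat_lit 200947) (.g (nat_lit 3070) (.e (nat_lit 73748) (nat_lit 3) (.e (nat_lit 516139) (nat_lit 7) (.e (nat_lit 409649) (nat_lit 18) (.e (nat_lit 303118) (nat_lit 3) (.e (nat_lit 204819) (nat_lit 17) .nil))))) .nil))))) (.nd (nat_lit 4) (.nd (nat_lit 5) (.nd (nat_lit 6) 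
(.lf (nat_lit 200843) (.g (nat_lit 1195) (.e (nat_lit 73747) (nat_lit 3) (.e (nat_lit 516185) (nat_lit 16) (.e (nat_lit 491558) (nat_lit 10) (.e (nat_lit 344115) (nat_lit 20) .nil)))) .nil)) 
(.lf (nat_lit 200907) (.g (nat_lit 2530) (.e (nat_lit 73748) (nat_lit 3) (.e (nat_lit 516138) (nat_lit 7) (.e (nat_lit 409645) (nat_lit 18) (.e (nat_lit 303119) (nat_lit 3) (.e (nat_lit 204819) (nat_lit 17) .nil))))) .nil))) (.nd (nat_lit 6) 
(.lf (nat_lit 200875) (.g (nat_lit 975) (.e (nat_lit 73748) (nat_lit 3) (.e (nat_lit 516131) (nat_lit 3) (.e (nat_lit 221212) (nat_lit 22) (.e (nat_lit 196617) (nat_lit 9) .nil)))) .nil)) 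
(.lf (nat_lit 200939) (.g (nat_lit 404) (.e (nat_lit 73748) (nat_lit 3) (.e (nat_lit 516139) (nat_lit 7) (.e (nat_lit 409648) (nat_lit 18) .nil))) .nil)))) (.nd (nat_lit 5) (.nd (nat_lit 6) 
(.lf (nat_lit 200859) (.g (nat_lit 2129) (.e (nat_lit 73747) (nat_lit 3) (.e (nat_lit 516195) (nat_lit 26) (.e (nat_lit 336027) (nat_lit 3) (.e (nat_lit 98323) (nat_lit 17) (.e (nat_lit 3560) (nat_lit 221) .nil))))) .nil)) 
(.lf (nat_lit 200923) (.g (nat_lit 2184) (.e (nat_lit 73748) (nat_lit 3) (.e (nat_lit 516139) (nat_lit 7) (.e (nat_lit 409640) (nat_lit 17) (.e (nat_lit 294928) (nat_lit 2) (.e (nat_lit 90165) (nat_lit 12) (.e (nat_lit 171776) (nat_lit 192) .nil)))))) (.g (nat_lit 5) .nil .nil)))) (.nd (nat_lit 6) 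
(.lf (nat_lit 200891) (.g (nat_lit 2065) (.e (nat_lit 73748) (nat_lit 3) (.e (nat_lit 516131) (nat_lit 3) (.e (nat_lit 221214) (nat_lit 23) (.e (nat_lit 204830) (nat_lit 18) (.e (nat_lit 57924) (nat_lit 282) .nil))))) .nil)) 
(.lf (nat_lit 200955) (.g (nat_lit 5097) (.e (nat_lit 73748) (nat_lit 3) (.e (nat_lit 516151) (nat_lit 9) (.e (nat_lit 426211) (nat_lit 9) (.e (nat_lit 426125) (nat_lit 2) (.e (nat_lit 196616) (nat_lit 0) .nil))))) .nil)))))) (.nd (nat_lit 3) (.nd (nat_lit 4) (.nd (nat_lit 5) (.nd (nat_lit 6) 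
(.lf (nat_lit 200839) (.g (nat_lit 3192) (.e (nat_lit 73747) (nat_lit 3) (.e (nat_lit 516185) (nat_lit 16) (.e (nat_lit 491546) (nat_lit 9) (.e (nat_lit 336028) (nat_lit 3) (.e (nat_lit 98325) (nat_lit 17) (.e (nat_lit 7936) (nat_lit 407) .nil)))))) (.g (nat_lit 5) .nil .nil))) 
(.lf (nat_lit 200903) (.g (nat_lit 2237) (.e (nat_lit 73748) (nat_lit 3) (.e (nat_lit 516131) (nat_lit 3) (.e (nat_lit 221215) (nat_lit 23) (.e (nat_lit 204830) (nat_lit 18) (.e (nat_lit 57931) (nat_lit 282) .nil))))) .nil))) (.nd (nat_lit 6) 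
(.lf (nat_lit 200871) (.g (nat_lit 323) (.e (nat_lit 73748) (nat_lit 3) (.e (nat_lit 516131) (nat_lit 3) (.e (nat_lit 221211) (nat_lit 22) .nil))) .nil)) 
(.lf (nat_lit 200935) (.g (nat_lit 2859) (.e (nat_lit 73748) (nat_lit 3) (.e (nat_lit 516139) (nat_lit 7) (.e (nat_lit 409645) (nat_lit 18) (.e (nat_lit 303119) (nat_lit 3) (.e (nat_lit 204821) (nat_lit 17) (.e (nat_lit 7936) (nat_lit 348) .nil)))))) (.g (nat_lit 4) .nil .nil))))) (.nd (nat_lit 5) (.nd (nat_lit 6) 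
(.lf (nat_lit 200855) (.g (nat_lit 2822) (.e (nat_lit 73747) (nat_lit 3) (.e (nat_lit 516195) (nat_lit 26) (.e (nat_lit 336011) (nat_lit 2) (.e (nat_lit 90165) (nat_lit 12) (.e (nat_lit 164023) (nat_lit 46) (.e (nat_lit 704626) (nat_lit 9) (.e (nat_lit 1239) (nat_lit 91) (.e (nat_lit 98048) (nat_lit 5) .nil)))))))) (.g (nat_lit 5) .nil .nil))) 
(.lf (nat_lit 200919) (.g (nat_lit 2463) (.e (nat_lit 73748) (nat_lit 3) (.e (nat_lit 516139) (nat_lit 7) (.e (nat_lit 409617) (nat_lit 10) (.e (nat_lit 5355) (nat_lit 298) (.e (nat_lit 1253) (nat_lit 92) (.e (nat_lit 98319) (nat_lit 17) (.e (nat_lit 7593) (nat_lit 407) .nil))))))) (.g (nat_lit 4) .nil .nil)))) (.nd (nat_lit 6) 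
(.lf (nat_lit 200887) (.g (nat_lit 1187) (.e (nat_lit 73748) (nat_lit 3) (.e (nat_lit 516131) (nat_lit 3) (.e (nat_lit 221212) (nat_lit 22) (.e (nat_lit 196650) (nat_lit 10) (.e (nat_lit 8268) (nat_lit 45) .nil))))) .nil)) 
(.lf (nat_lit 200951) (.g (nat_lit 2888) (.e (nat_lit 73748) (nat_lit 3) (.e (nat_lit 516139) (nat_lit 7) (.e (nat_lit 409649) (nat_lit 18) (.e (nat_lit 303119) (nat_lit 3) (.e (nat_lit 204821) (nat_lit 17) (.e (nat_lit 7936) (nat_lit 348) .nil)))))) (.g (nat_lit 4) .nil .nil)))))) (.nd (nat_lit 4) (.nd (nat_lit 5) (.nd (nat_lit 6) 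
(.lf (nat_lit 200847) (.g (nat_lit 231) (.e (nat_lit 73747) (nat_lit 3) (.e (nat_lit 516185) (nat_lit 16) (.e (nat_lit 491560) (nat_lit 10) .nil))) .nil)) 
(.lf (nat_lit 200911) (.g (nat_lit 1576) (.e (nat_lit 73748) (nat_lit 3) (.e (nat_lit 516139) (nat_lit 7) (.e (nat_lit 409616) (nat_lit 10) (.e (nat_lit 5355) (nat_lit 298) .nil)))) .nil))) (.nd (nat_lit 6) 
(.lf (nat_lit 200879) (.g (nat_lit 897) (.e (nat_lit 73748) (nat_lit 3) (.e (nat_lit 516131) (nat_lit 3) (.e (nat_lit 221212) (nat_lit 22) (.e (nat_lit 196623) (nat_lit 9) .nil)))) .nil)) 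
(.lf (nat_lit 200943) (.g (nat_lit 2705) (.e (nat_lit 73748) (nat_lit 3) (.e (nat_lit 516139) (nat_lit 7) (.e (nat_lit 409648) (nat_lit 18) (.e (nat_lit 303119) (nat_lit 3) (.e (nat_lit 204819) (nat_lit 17) .nil))))) .nil)))) (.nd (nat_lit 5) (.nd (nat_lit 6) 
(.lf (nat_lit 200863) (.g (nat_lit 470) (.e (nat_lit 73748) (nat_lit 3) (.e (nat_lit 516097) (nat_lit 0) (.e (nat_lit 7591) (nat_lit 407) .nil))) .nil)) 
(.lf (nat_lit 200927) (.g (nat_lit 854) (.e (nat_lit 73748) (nat_lit 3) (.e (nat_lit 516139) (nat_lit 7) (.e (nat_lit 409642) (nat_lit 17) .nil))) .nil))) (.nd (nat_lit 6) 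
(.lf (nat_lit 200895) (.g (nat_lit 1575) (.e (nat_lit 73748) (nat_lit 3) (.e (nat_lit 516131) (nat_lit 3) (.e (nat_lit 221215) (nat_lit 23) (.e (nat_lit 204819) (nat_lit 17) .nil)))) .nil)) 
(.lf (nat_lit 200959) (.g (nat_lit 5013) (.e (nat_lit 73748) (nat_lit 3) (.e (nat_lit 516151) (nat_lit 9) (.e (nat_lit 426211) (nat_lit 9) (.e (nat_lit 426125) (nat_lit 2) (.e (nat_lit 196697) (nat_lit 19) .nil))))) .nil)))))))))

noncomputable def tv2652 : DT := (.nd (nat_lit 0) (.nd (nat_lit 1) (.nd (nat_lit 2) (.nd (nat_lit 3) (.nd (nat_lit 4) (.nd (nat_lit 5) (.nd (nat_lit 6) 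
(.lf (nat_lit 200960) (.g (nat_lit 3052) (.e (nat_lit 73748) (nat_lit 3) (.e (nat_lit 516151) (nat_lit 9) (.e (nat_lit 426211) (nat_lit 9) (.e (nat_lit 426140) (nat_lit 3) .nil)))) .nil)) 
(.lf (nat_lit 201024) (.g (nat_lit 2517) (.e (nat_lit 81664) (nat_lit 3) (.e (nat_lit 516185) (nat_lit 16) (.e (nat_lit 491560) (nat_lit 10) (.e (nat_lit 344115) (nat_lit 20) (.e (nat_lit 507908) (nat_lit 0) .nil))))) .nil))) (.nd (nat_lit 6) 
(.lf (nat_lit 200992) (.g (nat_lit 734) (.e (nat_lit 73748) (nat_lit 3) (.e (nat_lit 516176) (nat_lit 14) (.e (nat_lit 466976) (nat_lit 22) .nil))) .nil)) 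
(.lf (nat_lit 201056) (.g (nat_lit 714) (.e (nat_lit 81664) (nat_lit 5) (.e (nat_lit 532490) (nat_lit 0) (.e (nat_lit 2270) (nat_lit 149) .nil))) .nil)))) (.nd (nat_lit 5) (.nd (nat_lit 6) 
(.lf (nat_lit 200976) (.g (nat_lit 3883) (.e (nat_lit 73748) (nat_lit 3) (.e (nat_lit 516166) (nat_lit 12) (.e (nat_lit 450587) (nat_lit 10) (.e (nat_lit 573478) (nat_lit 12) .nil)))) .nil)) 
(.lf (nat_lit 201040) (.g (nat_lit 1854) (.e (nat_lit 73749) (nat_lit 4) (.e (nat_lit 524322) (nat_lit 12) (.e (nat_lit 450588) (nat_lit 10) (.e (nat_lit 573475) (nat_lit 12) .nil)))) .nil))) (.nd (nat_lit 6) 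
(.lf (nat_lit 201008) (.g (nat_lit 2935) (.e (nat_lit 73748) (nat_lit 3) (.e (nat_lit 516185) (nat_lit 16) (.e (nat_lit 491560) (nat_lit 10) (.e (nat_lit 344117) (nat_lit 21) (.e (nat_lit 516098) (nat_lit 0) .nil))))) .nil)) 
(.lf (nat_lit 201072) (.g (nat_lit 490) (.e (nat_lit 81664) (nat_lit 5) (.e (nat_lit 532581) (nat_lit 26) (.e (nat_lit 426234) (nat_lit 9) (.e (nat_lit 426561) (nat_lit 33) (.e (nat_lit 392960) (nat_lit 5) .nil))))) .nil))))) (.nd (nat_lit 4) (.nd (nat_lit 5) (.nd (nat_lit 6) 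
(.lf (nat_lit 200968) (.g (nat_lit 1583) (.e (nat_lit 73748) (nat_lit 3) (.e (nat_lit 516165) (nat_lit 12) (.e (nat_lit 450579) (nat_lit 5) (.e (nat_lit 532504) (nat_lit 1) .nil)))) .nil)) 
(.lf (nat_lit 201032) (.g (nat_lit 3270) (.e (nat_lit 73749) (nat_lit 4) (.e (nat_lit 524322) (nat_lit 12) (.e (nat_lit 450588) (nat_lit 10) (.e (nat_lit 573473) (nat_lit 12) (.e (nat_lit 57347) (nat_lit 0) .nil))))) .nil))) (.nd (nat_lit 6) 
(.lf (nat_lit 201000) (.g (nat_lit 1885) (.e (nat_lit 73748) (nat_lit 3) (.e (nat_lit 516185) (nat_lit 16) (.e (nat_lit 491558) (nat_lit 10) (.e (nat_lit 344115) (nat_lit 20) .nil)))) .nil)) 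
(.lf (nat_lit 201064) (.g (nat_lit 857) (.e (nat_lit 81664) (nat_lit 5) (.e (nat_lit 532503) (nat_lit 1) (.e (nat_lit 57681) (nat_lit 155) .nil))) .nil)))) (.nd (nat_lit 5) (.nd (nat_lit 6) 
(.lf (nat_lit 200984) (.g (nat_lit 3719) (.e (nat_lit 73748) (nat_lit 3) (.e (nat_lit 516166) (nat_lit 12) (.e (nat_lit 450588) (nat_lit 10) (.e (nat_lit 573475) (nat_lit 12) .nil)))) .nil)) 
(.lf (nat_lit 201048) (.g (nat_lit 3256) (.e (nat_lit 73749) (nat_lit 4) (.e (nat_lit 524322) (nat_lit 12) (.e (nat_lit 450588) (nat_lit 10) (.e (nat_lit 573475) (nat_lit 12) (.e (nat_lit 57356) (nat_lit 0) .nil))))) .nil))) (.nd (nat_lit 6) 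
(.lf (nat_lit 201016) (.g (nat_lit 1063) (.e (nat_lit 81664) (nat_lit 3) (.e (nat_lit 516166) (nat_lit 12) (.e (nat_lit 450588) (nat_lit 10) (.e (nat_lit 573475) (nat_lit 12) (.e (nat_lit 57568) (nat_lit 53) .nil))))) .nil)) 
(.lf (nat_lit 201080) (.g (nat_lit 1639) (.e (nat_lit 81664) (nat_lit 5) (.e (nat_lit 532583) (nat_lit 26) (.e (nat_lit 426343) (nat_lit 14) (.e (nat_lit 491580) (nat_lit 27) .nil)))) .nil)))))) (.nd (nat_lit 3) (.nd (nat_lit 4) (.nd (nat_lit 5) (.nd (nat_lit 6) 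
(.lf (nat_lit 200964) (.g (nat_lit 3822) (.e (nat_lit 73748) (nat_lit 3) (.e (nat_lit 516151) (nat_lit 9) (.e (nat_lit 426286) (nat_lit 10) (.e (nat_lit 434248) (nat_lit 28) .nil)))) .nil)) 
(.lf (nat_lit 201028) (.g (nat_lit 1000) (.e (nat_lit 73749) (nat_lit 4) (.e (nat_lit 524322) (nat_lit 12) (.e (nat_lit 450587) (nat_lit 10) (.e (nat_lit 573478) (nat_lit 12) .nil)))) .nil))) (.nd (nat_lit 6) 
(.lf (nat_lit 200996) (.g (nat_lit 1876) (.e (nat_lit 73748) (nat_lit 3) (.e (nat_lit 516184) (nat_lit 16) (.e (nat_lit 491546) (nat_lit 9) (.e (nat_lit 336028) (nat_lit 3) (.e (nat_lit 98325) (nat_lit 17) (.e (nat_lit 7936) (nat_lit 407) .nil)))))) (.g (nat_lit 4) .nil .nil))) 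
(.lf (nat_lit 201060) (.g (nat_lit 1497) (.e (nat_lit 81664) (nat_lit 5) (.e (nat_lit 532499) (nat_lit 1) (.e (nat_lit 57655) (nat_lit 152) (.e (nat_lit 1186) (nat_lit 87) (.e (nat_lit 57464) (nat_lit 23) .nil))))) .nil)))) (.nd (nat_lit 5) (.nd (nat_lit 6) 
(.lf (nat_lit 200980) (.g (nat_lit 4143) (.e (nat_lit 73748) (nat_lit 3) (.e (nat_lit 516166) (nat_lit 12) (.e (nat_lit 450588) (nat_lit 10) (.e (nat_lit 573473) (nat_lit 12) .nil)))) .nil)) 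
(.lf (nat_lit 201044) (.g (nat_lit 3420) (.e (nat_lit 73749) (nat_lit 4) (.e (nat_lit 524322) (nat_lit 12) (.e (nat_lit 450588) (nat_lit 10) (.e (nat_lit 573475) (nat_lit 12) (.e (nat_lit 57351) (nat_lit 0) .nil))))) .nil))) (.nd (nat_lit 6) 
(.lf (nat_lit 201012) (.g (nat_lit 4219) (.e (nat_lit 81664) (nat_lit 3) (.e (nat_lit 516166) (nat_lit 12) (.e (nat_lit 450587) (nat_lit 10) (.e (nat_lit 573475) (nat_lit 12) .nil)))) .nil)) 
(.lf (nat_lit 201076) (.g (nat_lit 1375) (.e (nat_lit 81664) (nat_lit 5) (.e (nat_lit 532582) (nat_lit 26) (.e (nat_lit 426198) (nat_lit 9) (.e (nat_lit 426562) (nat_lit 33) (.e (nat_lit 392960) (nat_lit 5) .nil))))) .nil))))) (.nd (nat_lit 4) (.nd (nat_lit 5) (.nd (nat_lit 6) 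
(.lf (nat_lit 200972) (.g (nat_lit 2453) (.e (nat_lit 73748) (nat_lit 3) (.e (nat_lit 516165) (nat_lit 12) (.e (nat_lit 450588) (nat_lit 10) (.e (nat_lit 573475) (nat_lit 12) .nil)))) .nil)) 
(.lf (nat_lit 201036) (.g (nat_lit 3168) (.e (nat_lit 73749) (nat_lit 4) (.e (nat_lit 524322) (nat_lit 12) (.e (nat_lit 450588) (nat_lit 10) (.e (nat_lit 573473) (nat_lit 12) (.e (nat_lit 57354) (nat_lit 0) .nil))))) .nil))) (.nd (nat_lit 6) 
(.lf (nat_lit 201004) (.g (nat_lit 2353) (.e (nat_lit 73748) (nat_lit 3) (.e (nat_lit 516185) (nat_lit 16) (.e (nat_lit 491560) (nat_lit 10) (.e (nat_lit 344114) (nat_lit 20) .nil)))) .nil)) 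
(.lf (nat_lit 201068) (.g (nat_lit 1847) (.e (nat_lit 81664) (nat_lit 5) (.e (nat_lit 532579) (nat_lit 26) (.e (nat_lit 426200) (nat_lit 9) (.e (nat_lit 426558) (nat_lit 33) (.e (nat_lit 392960) (nat_lit 5) .nil))))) .nil)))) (.nd (nat_lit 5) (.nd (nat_lit 6) 
(.lf (nat_lit 200988) (.g (nat_lit 4457) (.e (nat_lit 73748) (nat_lit 3) (.e (nat_lit 516166) (nat_lit 12) (.e (nat_lit 450588) (nat_lit 10) (.e (nat_lit 573475) (nat_lit 12) (.e (nat_lit 57356) (nat_lit 0) (.e (nat_lit 7147) (nat_lit 382) (.e (nat_lit 1206) (nat_lit 89) .nil))))))) (.g (nat_lit 4) .nil .nil))) 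
(.lf (nat_lit 201052) (.g (nat_lit 1685) (.e (nat_lit 81664) (nat_lit 5) (.e (nat_lit 532490) (nat_lit 0) (.e (nat_lit 1023) (nat_lit 81) (.e (nat_lit 7270) (nat_lit 385) (.e (nat_lit 122892) (nat_lit 3) .nil))))) .nil))) (.nd (nat_lit 6) 
(.lf (nat_lit 201020) (.g (nat_lit 2438) (.e (nat_lit 81664) (nat_lit 3) (.e (nat_lit 516185) (nat_lit 16) (.e (nat_lit 491558) (nat_lit 10) (.e (nat_lit 344115) (nat_lit 20) (.e (nat_lit 507908) (nat_lit 0) .nil))))) .nil)) 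
(.lf (nat_lit 201084) (.g (nat_lit 786) (.e (nat_lit 73750) (nat_lit 6) (.e (nat_lit 540724) (nat_lit 28) (.e (nat_lit 442399) (nat_lit 20) (.e (nat_lit 3572) (nat_lit 222) (.e (nat_lit 737281) (nat_lit 0) .nil))))) .nil))))))) (.nd (nat_lit 2) (.nd (nat_lit 3) (.nd (nat_lit 4) (.nd (nat_lit 5) (.nd (nat_lit 6) 
(.lf (nat_lit 200962) (.g (nat_lit 2152) (.e (nat_lit 73748) (nat_lit 3) (.e (nat_lit 516151) (nat_lit 9) (.e (nat_lit 426286) (nat_lit 10) .nil))) .nil)) 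
(.lf (nat_lit 201026) (.g (nat_lit 2695) (.e (nat_lit 73749) (nat_lit 4) (.e (nat_lit 524320) (nat_lit 12) (.e (nat_lit 450586) (nat_lit 10) (.e (nat_lit 573474) (nat_lit 12) (.e (nat_lit 57572) (nat_lit 54) (.e (nat_lit 770073) (nat_lit 9) .nil)))))) (.g (nat_lit 4) .nil .nil)))) (.nd (nat_lit 6) 
(.lf (nat_lit 200994) (.g (nat_lit 1495) (.e (nat_lit 73748) (nat_lit 3) (.e (nat_lit 516176) (nat_lit 14) (.e (nat_lit 466977) (nat_lit 22) (.e (nat_lit 196651) (nat_lit 10) (.e (nat_lit 8249) (nat_lit 34) .nil))))) .nil)) 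
(.lf (nat_lit 201058) (.g (nat_lit 660) (.e (nat_lit 81664) (nat_lit 5) (.e (nat_lit 532499) (nat_lit 1) (.e (nat_lit 57655) (nat_lit 152) .nil))) .nil)))) (.nd (nat_lit 5) (.nd (nat_lit 6) 
(.lf (nat_lit 200978) (.g (nat_lit 4722) (.e (nat_lit 73748) (nat_lit 3) (.e (nat_lit 516166) (nat_lit 12) (.e (nat_lit 450588) (nat_lit 10) (.e (nat_lit 573452) (nat_lit 9) .nil)))) .nil)) 
(.lf (nat_lit 201042) (.g (nat_lit 3312) (.e (nat_lit 73749) (nat_lit 4) (.e (nat_lit 524322) (nat_lit 12) (.e (nat_lit 450588) (nat_lit 10) (.e (nat_lit 573475) (nat_lit 12) (.e (nat_lit 57347) (nat_lit 0) .nil))))) .nil))) (.nd (nat_lit 6) 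
(.lf (nat_lit 201010) (.g (nat_lit 608) (.e (nat_lit 81664) (nat_lit 3) (.e (nat_lit 516151) (nat_lit 9) (.e (nat_lit 426211) (nat_lit 9) (.e (nat_lit 426125) (nat_lit 2) .nil)))) .nil)) 
(.lf (nat_lit 201074) (.g (nat_lit 456) (.e (nat_lit 81664) (nat_lit 5) (.e (nat_lit 532581) (nat_lit 26) (.e (nat_lit 426261) (nat_lit 9) (.e (nat_lit 426561) (nat_lit 33) (.e (nat_lit 392960) (nat_lit 5) .nil))))) .nil))))) (.nd (nat_lit 4) (.nd (nat_lit 5) (.nd (nat_lit 6) 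
(.lf (nat_lit 200970) (.g (nat_lit 1743) (.e (nat_lit 73748) (nat_lit 3) (.e (nat_lit 516165) (nat_lit 12) (.e (nat_lit 450586) (nat_lit 10) (.e (nat_lit 573475) (nat_lit 12) .nil)))) .nil)) 
(.lf (nat_lit 201034) (.g (nat_lit 3040) (.e (nat_lit 73749) (nat_lit 4) (.e (nat_lit 524322) (nat_lit 12) (.e (nat_lit 450588) (nat_lit 10) (.e (nat_lit 573473) (nat_lit 12) (.e (nat_lit 57352) (nat_lit 0) .nil))))) .nil))) (.nd (nat_lit 6) 
(.lf (nat_lit 201002) (.g (nat_lit 2948) (.e (nat_lit 73748) (nat_lit 3) (.e (nat_lit 516185) (nat_lit 16) (.e (nat_lit 491558) (nat_lit 10) (.e (nat_lit 344117) (nat_lit 21) (.e (nat_lit 516097) (nat_lit 0) .nil))))) .nil)) 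
(.lf (nat_lit 201066) (.g (nat_lit 1018) (.e (nat_lit 81664) (nat_lit 5) (.e (nat_lit 532579) (nat_lit 26) (.e (nat_lit 426172) (nat_lit 7) (.e (nat_lit 417536) (nat_lit 0) .nil)))) .nil)))) (.nd (nat_lit 5) (.nd (nat_lit 6) 
(.lf (nat_lit 200986) (.g (nat_lit 5692) (.e (nat_lit 73748) (nat_lit 3) (.e (nat_lit 516166) (nat_lit 12) (.e (nat_lit 450588) (nat_lit 10) (.e (nat_lit 573475) (nat_lit 12) (.e (nat_lit 57354) (nat_lit 0) (.e (nat_lit 7147) (nat_lit 382) (.e (nat_lit 1206) (nat_lit 89) .nil))))))) (.g (nat_lit 6) .nil .nil))) 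
(.lf (nat_lit 201050) (.g (nat_lit 2513) (.e (nat_lit 73749) (nat_lit 4) (.e (nat_lit 524322) (nat_lit 12) (.e (nat_lit 450588) (nat_lit 10) (.e (nat_lit 573495) (nat_lit 16) .nil)))) .nil))) (.nd (nat_lit 6) 
(.lf (nat_lit 201018) (.g (nat_lit 2369) (.e (nat_lit 81664) (nat_lit 3) (.e (nat_lit 516185) (nat_lit 16) (.e (nat_lit 491546) (nat_lit 9) (.e (nat_lit 336028) (nat_lit 3) (.e (nat_lit 98325) (nat_lit 17) .nil))))) .nil)) 
(.lf (nat_lit 201082) (.g (nat_lit 398) (.e (nat_lit 73750) (nat_lit 6) (.e (nat_lit 540724) (nat_lit 28) (.e (nat_lit 442398) (nat_lit 20) (.e (nat_lit 3571) (nat_lit 222) (.e (nat_lit 737283) (nat_lit 0) .nil))))) .nil)))))) (.nd (nat_lit 3) (.nd (nat_lit 4) (.nd (nat_lit 5) (.nd (nat_lit 6) 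
(.lf (nat_lit 200966) (.g (nat_lit 1352) (.e (nat_lit 73748) (nat_lit 3) (.e (nat_lit 516163) (nat_lit 11) (.e (nat_lit 442427) (nat_lit 23) (.e (nat_lit 204821) (nat_lit 17) .nil)))) .nil)) 
(.lf (nat_lit 201030) (.g (nat_lit 2627) (.e (nat_lit 73749) (nat_lit 4) (.e (nat_lit 524322) (nat_lit 12) (.e (nat_lit 450588) (nat_lit 10) (.e (nat_lit 573449) (nat_lit 9) (.e (nat_lit 1183) (nat_lit 87) .nil))))) .nil))) (.nd (nat_lit 6) 
(.lf (nat_lit 200998) (.g (nat_lit 2658) (.e (nat_lit 73748) (nat_lit 3) (.e (nat_lit 516185) (nat_lit 16) (.e (nat_lit 491546) (nat_lit 9) (.e (nat_lit 336028) (nat_lit 3) (.e (nat_lit 98325) (nat_lit 17) .nil))))) .nil)) 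
(.lf (nat_lit 201062) (.g (nat_lit 1178) (.e (nat_lit 81664) (nat_lit 5) (.e (nat_lit 532499) (nat_lit 1) (.e (nat_lit 57684) (nat_lit 155) (.e (nat_lit 122893) (nat_lit 3) .nil)))) .nil)))) (.nd (nat_lit 5) (.nd (nat_lit 6) 
(.lf (nat_lit 200982) (.g (nat_lit 4852) (.e (nat_lit 73748) (nat_lit 3) (.e (nat_lit 516166) (nat_lit 12) (.e (nat_lit 450588) (nat_lit 10) (.e (nat_lit 573473) (nat_lit 12) (.e (nat_lit 57569) (nat_lit 53) .nil))))) .nil)) 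
(.lf (nat_lit 201046) (.g (nat_lit 4423) (.e (nat_lit 73749) (nat_lit 4) (.e (nat_lit 524322) (nat_lit 12) (.e (nat_lit 450588) (nat_lit 10) (.e (nat_lit 573475) (nat_lit 12) (.e (nat_lit 57354) (nat_lit 0) (.e (nat_lit 7147) (nat_lit 382) (.e (nat_lit 1206) (nat_lit 89) .nil))))))) (.g (nat_lit 5) .nil .nil)))) (.nd (nat_lit 6) 
(.lf (nat_lit 201014) (.g (nat_lit 1014) (.e (nat_lit 81664) (nat_lit 3) (.e (nat_lit 516166) (nat_lit 12) (.e (nat_lit 450588) (nat_lit 10) (.e (nat_lit 573473) (nat_lit 12) (.e (nat_lit 57572) (nat_lit 54) .nil))))) .nil)) 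
(.lf (nat_lit 201078) (.g (nat_lit 468) (.e (nat_lit 81664) (nat_lit 5) (.e (nat_lit 532583) (nat_lit 26) (.e (nat_lit 426031) (nat_lit 0) .nil))) .nil))))) (.nd (nat_lit 4) (.nd (nat_lit 5) (.nd (nat_lit 6) 
(.lf (nat_lit 200974) (.g (nat_lit 5368) (.e (nat_lit 73748) (nat_lit 3) (.e (nat_lit 516166) (nat_lit 12) (.e (nat_lit 450587) (nat_lit 10) (.e (nat_lit 573475) (nat_lit 12) .nil)))) .nil)) 
(.lf (nat_lit 201038) (.g (nat_lit 3035) (.e (nat_lit 73749) (nat_lit 4) (.e (nat_lit 524322) (nat_lit 12) (.e (nat_lit 450588) (nat_lit 10) (.e (nat_lit 573473) (nat_lit 12) (.e (nat_lit 57569) (nat_lit 53) .nil))))) .nil))) (.nd (nat_lit 6) 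
(.lf (nat_lit 201006) (.g (nat_lit 3199) (.e (nat_lit 73748) (nat_lit 3) (.e (nat_lit 516185) (nat_lit 16) (.e (nat_lit 491560) (nat_lit 10) (.e (nat_lit 344117) (nat_lit 21) (.e (nat_lit 516097) (nat_lit 0) .nil))))) .nil)) 
(.lf (nat_lit 201070) (.g (nat_lit 1608) (.e (nat_lit 81664) (nat_lit 5) (.e (nat_lit 532579) (nat_lit 26) (.e (nat_lit 426343) (nat_lit 14) (.e (nat_lit 491580) (nat_lit 27) .nil)))) .nil)))) (.nd (nat_lit 5) (.nd (nat_lit 6) 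
(.lf (nat_lit 200990) (.g (nat_lit 189) (.e (nat_lit 73748) (nat_lit 3) (.e (nat_lit 516167) (nat_lit 12) (.e (nat_lit 458496) (nat_lit 3) .nil))) .nil)) 
(.lf (nat_lit 201054) (.g (nat_lit 1709) (.e (nat_lit 81664) (nat_lit 5) (.e (nat_lit 532490) (nat_lit 0) (.e (nat_lit 1040) (nat_lit 81) (.e (nat_lit 7270) (nat_lit 385) (.e (nat_lit 122892) (nat_lit 3) .nil))))) .nil))) (.nd (nat_lit 6) 
(.lf (nat_lit 201022) (.g (nat_lit 2433) (.e (nat_lit 81664) (nat_lit 3) (.e (nat_lit 516185) (nat_lit 16) (.e (nat_lit 491560) (nat_lit 10) (.e (nat_lit 344114) (nat_lit 20) .nil)))) .nil)) 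
(.lf (nat_lit 201086) (.g (nat_lit 1058) (.e (nat_lit 73750) (nat_lit 6) (.e (nat_lit 540724) (nat_lit 28) (.e (nat_lit 442399) (nat_lit 20) (.e (nat_lit 3572) (nat_lit 222) (.e (nat_lit 737283) (nat_lit 0) (.e (nat_lit 5413) (nat_lit 303) .nil)))))) (.g (nat_lit 0) .nil .nil))))))))) (.nd (nat_lit 1) (.nd (nat_lit 2) (.nd (nat_lit 3) (.nd (nat_lit 4) (.nd (nat_lit 5) (.nd (nat_lit 6) 
(.lf (nat_lit 200961) (.g (nat_lit 1282) (.e (nat_lit 73748) (nat_lit 3) (.e (nat_lit 516151) (nat_lit 9) (.e (nat_lit 426285) (nat_lit 10) .nil))) .nil)) 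
(.lf (nat_lit 201025) (.g (nat_lit 2353) (.e (nat_lit 81664) (nat_lit 3) (.e (nat_lit 516185) (nat_lit 16) (.e (nat_lit 491560) (nat_lit 10) (.e (nat_lit 344118) (nat_lit 21) .nil)))) .nil))) (.nd (nat_lit 6) 
(.lf (nat_lit 200993) (.g (nat_lit 2146) (.e (nat_lit 73748) (nat_lit 3) (.e (nat_lit 516176) (nat_lit 14) (.e (nat_lit 466977) (nat_lit 22) (.e (nat_lit 196624) (nat_lit 9) (.e (nat_lit 3) (nat_lit 0) .nil))))) .nil)) 
(.lf (nat_lit 201057) (.g (nat_lit 1295) (.e (nat_lit 81664) (nat_lit 5) (.e (nat_lit 532490) (nat_lit 0) (.e (nat_lit 2270) (nat_lit 149) (.e (nat_lit 761867) (nat_lit 5) .nil)))) .nil)))) (.nd (nat_lit 5) (.nd (nat_lit 6) 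
(.lf (nat_lit 200977) (.g (nat_lit 4734) (.e (nat_lit 73748) (nat_lit 3) (.e (nat_lit 516166) (nat_lit 12) (.e (nat_lit 450588) (nat_lit 10) (.e (nat_lit 573449) (nat_lit 9) .nil)))) .nil)) 
(.lf (nat_lit 201041) (.g (nat_lit 3663) (.e (nat_lit 73749) (nat_lit 4) (.e (nat_lit 524322) (nat_lit 12) (.e (nat_lit 450588) (nat_lit 10) (.e (nat_lit 573475) (nat_lit 12) (.e (nat_lit 57344) (nat_lit 0) .nil))))) .nil))) (.nd (nat_lit 6) 
(.lf (nat_lit 201009) (.g (nat_lit 2326) (.e (nat_lit 73748) (nat_lit 3) (.e (nat_lit 516185) (nat_lit 16) (.e (nat_lit 491560) (nat_lit 10) (.e (nat_lit 344118) (nat_lit 21) .nil)))) .nil)) 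
(.lf (nat_lit 201073) (.g (nat_lit 477) (.e (nat_lit 81664) (nat_lit 5) (.e (nat_lit 532581) (nat_lit 26) (.e (nat_lit 426260) (nat_lit 9) (.e (nat_lit 426561) (nat_lit 33) (.e (nat_lit 392960) (nat_lit 5) .nil))))) .nil))))) (.nd (nat_lit 4) (.nd (nat_lit 5) (.nd (nat_lit 6) 
(.lf (nat_lit 200969) (.g (nat_lit 1622) (.e (nat_lit 73748) (nat_lit 3) (.e (nat_lit 516165) (nat_lit 12) (.e (nat_lit 450586) (nat_lit 10) (.e (nat_lit 573473) (nat_lit 12) .nil)))) .nil)) 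
(.lf (nat_lit 201033) (.g (nat_lit 3190) (.e (nat_lit 73749) (nat_lit 4) (.e (nat_lit 524322) (nat_lit 12) (.e (nat_lit 450588) (nat_lit 10) (.e (nat_lit 573473) (nat_lit 12) (.e (nat_lit 57348) (nat_lit 0) .nil))))) .nil))) (.nd (nat_lit 6) 
(.lf (nat_lit 201001) (.g (nat_lit 2073) (.e (nat_lit 73748) (nat_lit 3) (.e (nat_lit 516185) (nat_lit 16) (.e (nat_lit 491558) (nat_lit 10) (.e (nat_lit 344117) (nat_lit 21) .nil)))) .nil)) 
(.lf (nat_lit 201065) (.g (nat_lit 2059) (.e (nat_lit 81664) (nat_lit 5) (.e (nat_lit 532513) (nat_lit 3) (.e (nat_lit 114714) (nat_lit 22) (.e (nat_lit 90172) (nat_lit 14) (.e (nat_lit 180248) (nat_lit 9) .nil))))) .nil)))) (.nd (nat_lit 5) (.nd (nat_lit 6) 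
(.lf (nat_lit 200985) (.g (nat_lit 4669) (.e (nat_lit 73748) (nat_lit 3) (.e (nat_lit 516166) (nat_lit 12) (.e (nat_lit 450588) (nat_lit 10) (.e (nat_lit 573475) (nat_lit 12) (.e (nat_lit 57344) (nat_lit 0) .nil))))) .nil)) 
(.lf (nat_lit 201049) (.g (nat_lit 3268) (.e (nat_lit 73749) (nat_lit 4) (.e (nat_lit 524322) (nat_lit 12) (.e (nat_lit 450588) (nat_lit 10) (.e (nat_lit 573475) (nat_lit 12) (.e (nat_lit 57568) (nat_lit 53) .nil))))) .nil))) (.nd (nat_lit 6) 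
(.lf (nat_lit 201017) (.g (nat_lit 2218) (.e (nat_lit 81664) (nat_lit 3) (.e (nat_lit 516185) (nat_lit 16) (.e (nat_lit 491546) (nat_lit 9) (.e (nat_lit 336013) (nat_lit 2) (.e (nat_lit 90165) (nat_lit 12) .nil))))) .nil)) 
(.lf (nat_lit 201081) (.g (nat_lit 645) (.e (nat_lit 73750) (nat_lit 6) (.e (nat_lit 540724) (nat_lit 28) (.e (nat_lit 442396) (nat_lit 20) (.e (nat_lit 3572) (nat_lit 222) (.e (nat_lit 737284) (nat_lit 0) (.e (nat_lit 5413) (nat_lit 303) .nil)))))) (.g (nat_lit 0) .nil .nil))))))) (.nd (nat_lit 3) (.nd (nat_lit 4) (.nd (nat_lit 5) (.nd (nat_lit 6) 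
(.lf (nat_lit 200965) (.g (nat_lit 598) (.e (nat_lit 73748) (nat_lit 3) (.e (nat_lit 516160) (nat_lit 10) (.e (nat_lit 434275) (nat_lit 39) .nil))) .nil)) 
(.lf (nat_lit 201029) (.g (nat_lit 1877) (.e (nat_lit 73749) (nat_lit 4) (.e (nat_lit 524322) (nat_lit 12) (.e (nat_lit 450588) (nat_lit 10) (.e (nat_lit 573449) (nat_lit 9) .nil)))) .nil))) (.nd (nat_lit 6) 
(.lf (nat_lit 200997) (.g (nat_lit 419) (.e (nat_lit 73748) (nat_lit 3) (.e (nat_lit 516184) (nat_lit 16) (.e (nat_lit 491554) (nat_lit 9) .nil))) .nil)) 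
(.lf (nat_lit 201061) (.g (nat_lit 1712) (.e (nat_lit 81664) (nat_lit 5) (.e (nat_lit 532499) (nat_lit 1) (.e (nat_lit 57681) (nat_lit 155) (.e (nat_lit 122893) (nat_lit 3) .nil)))) .nil)))) (.nd (nat_lit 5) (.nd (nat_lit 6) 
(.lf (nat_lit 200981) (.g (nat_lit 4922) (.e (nat_lit 73748) (nat_lit 3) (.e (nat_lit 516166) (nat_lit 12) (.e (nat_lit 450588) (nat_lit 10) (.e (nat_lit 573473) (nat_lit 12) (.e (nat_lit 57354) (nat_lit 0) .nil))))) .nil)) 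
(.lf (nat_lit 201045) (.g (nat_lit 3648) (.e (nat_lit 73749) (nat_lit 4) (.e (nat_lit 524322) (nat_lit 12) (.e (nat_lit 450588) (nat_lit 10) (.e (nat_lit 573475) (nat_lit 12) (.e (nat_lit 57353) (nat_lit 0) .nil))))) .nil))) (.nd (nat_lit 6) 
(.lf (nat_lit 201013) (.g (nat_lit 1014) (.e (nat_lit 81664) (nat_lit 3) (.e (nat_lit 516166) (nat_lit 12) (.e (nat_lit 450587) (nat_lit 10) (.e (nat_lit 573478) (nat_lit 12) (.e (nat_lit 57568) (nat_lit 53) .nil))))) .nil)) 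
(.lf (nat_lit 201077) (.g (nat_lit 1533) (.e (nat_lit 81664) (nat_lit 5) (.e (nat_lit 532583) (nat_lit 26) (.e (nat_lit 426011) (nat_lit 0) (.e (nat_lit 3211) (nat_lit 195) .nil)))) .nil))))) (.nd (nat_lit 4) (.nd (nat_lit 5) (.nd (nat_lit 6) 
(.lf (nat_lit 200973) (.g (nat_lit 5349) (.e (nat_lit 73748) (nat_lit 3) (.e (nat_lit 516166) (nat_lit 12) (.e (nat_lit 450587) (nat_lit 10) (.e (nat_lit 573473) (nat_lit 12) .nil)))) .nil)) 
(.lf (nat_lit 201037) (.g (nat_lit 4045) (.e (nat_lit 73749) (nat_lit 4) (.e (nat_lit 524322) (nat_lit 12) (.e (nat_lit 450588) (nat_lit 10) (.e (nat_lit 573473) (nat_lit 12) (.e (nat_lit 57354) (nat_lit 0) (.e (nat_lit 7147) (nat_lit 382) (.e (nat_lit 1206) (nat_lit 89) .nil))))))) (.g (nat_lit 5) .nil .nil)))) (.nd (nat_lit 6) 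
(.lf (nat_lit 201005) (.g (nat_lit 1784) (.e (nat_lit 73748) (nat_lit 3) (.e (nat_lit 516185) (nat_lit 16) (.e (nat_lit 491560) (nat_lit 10) (.e (nat_lit 344115) (nat_lit 20) .nil)))) .nil)) 
(.lf (nat_lit 201069) (.g (nat_lit 1618) (.e (nat_lit 81664) (nat_lit 5) (.e (nat_lit 532579) (nat_lit 26) (.e (nat_lit 426200) (nat_lit 9) (.e (nat_lit 426562) (nat_lit 33) (.e (nat_lit 392960) (nat_lit 5) .nil))))) .nil)))) (.nd (nat_lit 5) (.nd (nat_lit 6) 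
(.lf (nat_lit 200989) (.g (nat_lit 6275) (.e (nat_lit 73748) (nat_lit 3) (.e (nat_lit 516166) (nat_lit 12) (.e (nat_lit 450588) (nat_lit 10) (.e (nat_lit 573495) (nat_lit 16) .nil)))) .nil)) 
(.lf (nat_lit 201053) (.g (nat_lit 533) (.e (nat_lit 81664) (nat_lit 5) (.e (nat_lit 532490) (nat_lit 0) (.e (nat_lit 1040) (nat_lit 81) .nil))) .nil))) (.nd (nat_lit 6) 
(.lf (nat_lit 201021) (.g (nat_lit 648) (.e (nat_lit 81664) (nat_lit 3) (.e (nat_lit 516185) (nat_lit 16) (.e (nat_lit 491560) (nat_lit 10) .nil))) .nil)) 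
(.lf (nat_lit 201085) (.g (nat_lit 1215) (.e (nat_lit 73750) (nat_lit 6) (.e (nat_lit 540724) (nat_lit 28) (.e (nat_lit 442399) (nat_lit 20) (.e (nat_lit 3572) (nat_lit 222) (.e (nat_lit 737283) (nat_lit 0) (.e (nat_lit 5409) (nat_lit 303) .nil)))))) (.g (nat_lit 0) .nil .nil)))))))) (.nd (nat_lit 2) (.nd (nat_lit 3) (.nd (nat_lit 4) (.nd (nat_lit 5) (.nd (nat_lit 6) 
(.lf (nat_lit 200963) (.g (nat_lit 4063) (.e (nat_lit 73748) (nat_lit 3) (.e (nat_lit 516151) (nat_lit 9) (.e (nat_lit 426286) (nat_lit 10) (.e (nat_lit 434245) (nat_lit 28) .nil)))) .nil)) 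
(.lf (nat_lit 201027) (.g (nat_lit 2248) (.e (nat_lit 73749) (nat_lit 4) (.e (nat_lit 524322) (nat_lit 12) (.e (nat_lit 450587) (nat_lit 10) (.e (nat_lit 573475) (nat_lit 12) .nil)))) .nil))) (.nd (nat_lit 6) 
(.lf (nat_lit 200995) (.g (nat_lit 703) (.e (nat_lit 73748) (nat_lit 3) (.e (nat_lit 516176) (nat_lit 14) (.e (nat_lit 466981) (nat_lit 23) .nil))) .nil)) 
(.lf (nat_lit 201059) (.g (nat_lit 1225) (.e (nat_lit 81664) (nat_lit 5) (.e (nat_lit 532499) (nat_lit 1) (.e (nat_lit 57655) (nat_lit 152) (.e (nat_lit 1185) (nat_lit 87) .nil)))) .nil)))) (.nd (nat_lit 5) (.nd (nat_lit 6) 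
(.lf (nat_lit 200979) (.g (nat_lit 6517) (.e (nat_lit 73748) (nat_lit 3) (.e (nat_lit 516166) (nat_lit 12) (.e (nat_lit 450588) (nat_lit 10) (.e (nat_lit 573453) (nat_lit 9) .nil)))) .nil)) 
(.lf (nat_lit 201043) (.g (nat_lit 3619) (.e (nat_lit 73749) (nat_lit 4) (.e (nat_lit 524322) (nat_lit 12) (.e (nat_lit 450588) (nat_lit 10) (.e (nat_lit 573475) (nat_lit 12) (.e (nat_lit 57348) (nat_lit 0) .nil))))) .nil))) (.nd (nat_lit 6) 
(.lf (nat_lit 201011) (.g (nat_lit 3256) (.e (nat_lit 81664) (nat_lit 3) (.e (nat_lit 516166) (nat_lit 12) (.e (nat_lit 450587) (nat_lit 10) (.e (nat_lit 573472) (nat_lit 12) .nil)))) .nil)) 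
(.lf (nat_lit 201075) (.g (nat_lit 520) (.e (nat_lit 81664) (nat_lit 5) (.e (nat_lit 532581) (nat_lit 26) (.e (nat_lit 426262) (nat_lit 9) (.e (nat_lit 426561) (nat_lit 33) (.e (nat_lit 392960) (nat_lit 5) .nil))))) .nil))))) (.nd (nat_lit 4) (.nd (nat_lit 5) (.nd (nat_lit 6) 
(.lf (nat_lit 200971) (.g (nat_lit 2462) (.e (nat_lit 73748) (nat_lit 3) (.e (nat_lit 516165) (nat_lit 12) (.e (nat_lit 450588) (nat_lit 10) (.e (nat_lit 573473) (nat_lit 12) .nil)))) .nil)) 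
(.lf (nat_lit 201035) (.g (nat_lit 3210) (.e (nat_lit 73749) (nat_lit 4) (.e (nat_lit 524322) (nat_lit 12) (.e (nat_lit 450588) (nat_lit 10) (.e (nat_lit 573473) (nat_lit 12) (.e (nat_lit 57353) (nat_lit 0) .nil))))) .nil))) (.nd (nat_lit 6) 
(.lf (nat_lit 201003) (.g (nat_lit 2840) (.e (nat_lit 73748) (nat_lit 3) (.e (nat_lit 516185) (nat_lit 16) (.e (nat_lit 491558) (nat_lit 10) (.e (nat_lit 344117) (nat_lit 21) (.e (nat_lit 516098) (nat_lit 0) .nil))))) .nil)) 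
(.lf (nat_lit 201067) (.g (nat_lit 483) (.e (nat_lit 81664) (nat_lit 5) (.e (nat_lit 532579) (nat_lit 26) (.e (nat_lit 426197) (nat_lit 9) .nil))) .nil)))) (.nd (nat_lit 5) (.nd (nat_lit 6) 
(.lf (nat_lit 200987) (.g (nat_lit 4488) (.e (nat_lit 73748) (nat_lit 3) (.e (nat_lit 516166) (nat_lit 12) (.e (nat_lit 450588) (nat_lit 10) (.e (nat_lit 573475) (nat_lit 12) (.e (nat_lit 57354) (nat_lit 0) (.e (nat_lit 7147) (nat_lit 382) (.e (nat_lit 1207) (nat_lit 89) .nil))))))) (.g (nat_lit 4) .nil .nil))) 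
(.lf (nat_lit 201051) (.g (nat_lit 2049) (.e (nat_lit 81664) (nat_lit 4) (.e (nat_lit 524322) (nat_lit 12) (.e (nat_lit 450587) (nat_lit 10) (.e (nat_lit 573475) (nat_lit 12) .nil)))) .nil))) (.nd (nat_lit 6) 
(.lf (nat_lit 201019) (.g (nat_lit 2430) (.e (nat_lit 81664) (nat_lit 3) (.e (nat_lit 516185) (nat_lit 16) (.e (nat_lit 491558) (nat_lit 10) (.e (nat_lit 344115) (nat_lit 20) (.e (nat_lit 507907) (nat_lit 0) .nil))))) .nil)) 
(.lf (nat_lit 201083) (.g (nat_lit 382) (.e (nat_lit 73750) (nat_lit 6) (.e (nat_lit 540724) (nat_lit 28) (.e (nat_lit 442398) (nat_lit 20) (.e (nat_lit 3571) (nat_lit 222) (.e (nat_lit 737284) (nat_lit 0) .nil))))) .nil)))))) (.nd (nat_lit 3) (.nd (nat_lit 4) (.nd (nat_lit 5) (.nd (nat_lit 6) 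
(.lf (nat_lit 200967) (.g (nat_lit 1641) (.e (nat_lit 73748) (nat_lit 3) (.e (nat_lit 516165) (nat_lit 12) (.e (nat_lit 450579) (nat_lit 5) (.e (nat_lit 532501) (nat_lit 1) .nil)))) .nil)) 
(.lf (nat_lit 201031) (.g (nat_lit 2190) (.e (nat_lit 73749) (nat_lit 4) (.e (nat_lit 524322) (nat_lit 12) (.e (nat_lit 450588) (nat_lit 10) (.e (nat_lit 573473) (nat_lit 12) .nil)))) .nil))) (.nd (nat_lit 6) 
(.lf (nat_lit 200999) (.g (nat_lit 624) (.e (nat_lit 73748) (nat_lit 3) (.e (nat_lit 516185) (nat_lit 16) (.e (nat_lit 491558) (nat_lit 10) .nil))) .nil)) 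
(.lf (nat_lit 201063) (.g (nat_lit 1698) (.e (nat_lit 81664) (nat_lit 5) (.e (nat_lit 532499) (nat_lit 1) (.e (nat_lit 57931) (nat_lit 282) (.e (nat_lit 164084) (nat_lit 73) .nil)))) .nil)))) (.nd (nat_lit 5) (.nd (nat_lit 6) 
(.lf (nat_lit 200983) (.g (nat_lit 7098) (.e (nat_lit 73748) (nat_lit 3) (.e (nat_lit 516166) (nat_lit 12) (.e (nat_lit 450588) (nat_lit 10) (.e (nat_lit 573474) (nat_lit 12) .nil)))) .nil)) 
(.lf (nat_lit 201047) (.g (nat_lit 3503) (.e (nat_lit 73749) (nat_lit 4) (.e (nat_lit 524322) (nat_lit 12) (.e (nat_lit 450588) (nat_lit 10) (.e (nat_lit 573475) (nat_lit 12) (.e (nat_lit 57354) (nat_lit 0) (.e (nat_lit 7147) (nat_lit 382) (.e (nat_lit 1207) (nat_lit 89) .nil))))))) (.g (nat_lit 4) .nil .nil)))) (.nd (nat_lit 6) 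
(.lf (nat_lit 201015) (.g (nat_lit 5304) (.e (nat_lit 81664) (nat_lit 3) (.e (nat_lit 516166) (nat_lit 12) (.e (nat_lit 450588) (nat_lit 10) (.e (nat_lit 573474) (nat_lit 12) .nil)))) .nil)) 
(.lf (nat_lit 201079) (.g (nat_lit 950) (.e (nat_lit 81664) (nat_lit 5) (.e (nat_lit 532583) (nat_lit 26) (.e (nat_lit 426258) (nat_lit 9) (.e (nat_lit 426561) (nat_lit 33) (.e (nat_lit 392960) (nat_lit 5) .nil))))) .nil))))) (.nd (nat_lit 4) (.nd (nat_lit 5) (.nd (nat_lit 6) 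
(.lf (nat_lit 200975) (.g (nat_lit 3945) (.e (nat_lit 73748) (nat_lit 3) (.e (nat_lit 516166) (nat_lit 12) (.e (nat_lit 450587) (nat_lit 10) (.e (nat_lit 573477) (nat_lit 12) .nil)))) .nil)) 
(.lf (nat_lit 201039) (.g (nat_lit 2635) (.e (nat_lit 73749) (nat_lit 4) (.e (nat_lit 524322) (nat_lit 12) (.e (nat_lit 450588) (nat_lit 10) (.e (nat_lit 573474) (nat_lit 12) (.e (nat_lit 57348) (nat_lit 0) .nil))))) .nil))) (.nd (nat_lit 6) 
(.lf (nat_lit 201007) (.g (nat_lit 3492) (.e (nat_lit 73748) (nat_lit 3) (.e (nat_lit 516185) (nat_lit 16) (.e (nat_lit 491560) (nat_lit 10) (.e (nat_lit 344117) (nat_lit 21) (.e (nat_lit 516097) (nat_lit 0) (.e (nat_lit 7591) (nat_lit 407) .nil)))))) (.g (nat_lit 4) .nil .nil))) 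
(.lf (nat_lit 201071) (.g (nat_lit 485) (.e (nat_lit 81664) (nat_lit 5) (.e (nat_lit 532581) (nat_lit 26) (.e (nat_lit 426230) (nat_lit 9) (.e (nat_lit 426561) (nat_lit 33) (.e (nat_lit 392960) (nat_lit 5) .nil))))) .nil)))) (.nd (nat_lit 5) (.nd (nat_lit 6) 
(.lf (nat_lit 200991) (.g (nat_lit 3783) (.e (nat_lit 73748) (nat_lit 3) (.e (nat_lit 516167) (nat_lit 12) (.e (nat_lit 450586) (nat_lit 10) (.e (nat_lit 573474) (nat_lit 12) (.e (nat_lit 57572) (nat_lit 54) .nil))))) .nil)) 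
(.lf (nat_lit 201055) (.g (nat_lit 1154) (.e (nat_lit 81664) (nat_lit 5) (.e (nat_lit 532490) (nat_lit 0) (.e (nat_lit 1040) (nat_lit 81) (.e (nat_lit 7273) (nat_lit 385) (.e (nat_lit 122892) (nat_lit 3) .nil))))) .nil))) (.nd (nat_lit 6) 
(.lf (nat_lit 201023) (.g (nat_lit 2500) (.e (nat_lit 81664) (nat_lit 3) (.e (nat_lit 516185) (nat_lit 16) (.e (nat_lit 491560) (nat_lit 10) (.e (nat_lit 344115) (nat_lit 20) (.e (nat_lit 507907) (nat_lit 0) .nil))))) .nil)) 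
(.lf (nat_lit 201087) (.g (nat_lit 1012) (.e (nat_lit 73750) (nat_lit 6) (.e (nat_lit 540724) (nat_lit 28) (.e (nat_lit 442399) (nat_lit 20) (.e (nat_lit 3572) (nat_lit 222) (.e (nat_lit 737284) (nat_lit 0) (.e (nat_lit 5413) (nat_lit 303) .nil)))))) (.g (nat_lit 0) .nil .nil))))))))))

noncomputable def tv2653 : DT := (.nd (nat_lit 0) (.nd (nat_lit 1) (.nd (nat_lit 2) (.nd (nat_lit 3) (.nd (nat_lit 4) (.nd (nat_lit 5) 
(.lf (nat_lit 201088) (.g (nat_lit 1113) (.e (nat_lit 73750) (nat_lit 6) (.e (nat_lit 540724) (nat_lit 28) (.e (nat_lit 442434) (nat_lit 26) (.e (nat_lit 261888) (nat_lit 16) .nil)))) .nil)) 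
(.lf (nat_lit 201120) (.g (nat_lit 458) (.e (nat_lit 73751) (nat_lit 7) (.e (nat_lit 548874) (nat_lit 5) (.e (nat_lit 1586) (nat_lit 111) .nil))) .nil))) (.nd (nat_lit 5) 
(.lf (nat_lit 201104) (.g (nat_lit 2570) (.e (nat_lit 73751) (nat_lit 7) (.e (nat_lit 548873) (nat_lit 5) (.e (nat_lit 1595) (nat_lit 111) (.e (nat_lit 360467) (nat_lit 3) (.e (nat_lit 516098) (nat_lit 0) (.e (nat_lit 7591) (nat_lit 407) .nil)))))) (.g (nat_lit 0) .nil .nil))) 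
(.lf (nat_lit 201136) (.g (nat_lit 1726) (.e (nat_lit 73751) (nat_lit 7) (.e (nat_lit 548874) (nat_lit 5) (.e (nat_lit 1598) (nat_lit 111) (.e (nat_lit 360466) (nat_lit 3) (.e (nat_lit 516100) (nat_lit 0) (.e (nat_lit 7936) (nat_lit 407) .nil)))))) (.g (nat_lit 5) .nil .nil))))) (.nd (nat_lit 4) (.nd (nat_lit 5) 
(.lf (nat_lit 201096) (.g (nat_lit 437) (.e (nat_lit 73751) (nat_lit 7) (.e (nat_lit 548872) (nat_lit 5) (.e (nat_lit 1599) (nat_lit 111) (.e (nat_lit 360464) (nat_lit 2) (.e (nat_lit 507908) (nat_lit 0) .nil))))) .nil)) 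
(.lf (nat_lit 201128) (.g (nat_lit 2413) (.e (nat_lit 73751) (nat_lit 7) (.e (nat_lit 548874) (nat_lit 5) (.e (nat_lit 1589) (nat_lit 111) (.e (nat_lit 360467) (nat_lit 3) (.e (nat_lit 516106) (nat_lit 0) (.e (nat_lit 7936) (nat_lit 407) .nil)))))) (.g (nat_lit 5) .nil .nil)))) (.nd (nat_lit 5) 
(.lf (nat_lit 201112) (.g (nat_lit 2208) (.e (nat_lit 73751) (nat_lit 7) (.e (nat_lit 548874) (nat_lit 5) (.e (nat_lit 1562) (nat_lit 110) (.e (nat_lit 352312) (nat_lit 22) (.e (nat_lit 90133) (nat_lit 9) (.e (nat_lit 2400) (nat_lit 157) (.e (nat_lit 7590) (nat_lit 407) .nil))))))) (.g (nat_lit 5) .nil .nil))) 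
(.lf (nat_lit 201144) (.g (nat_lit 1641) (.e (nat_lit 73751) (nat_lit 7) (.e (nat_lit 548888) (nat_lit 9) (.e (nat_lit 65619) (nat_lit 10) (.e (nat_lit 344117) (nat_lit 21) (.e (nat_lit 516097) (nat_lit 0) (.e (nat_lit 7593) (nat_lit 407) .nil)))))) (.g (nat_lit 4) .nil .nil)))))) (.nd (nat_lit 3) (.nd (nat_lit 4) (.nd (nat_lit 5) 
(.lf (nat_lit 201092) (.g (nat_lit 1112) (.e (nat_lit 73751) (nat_lit 7) (.e (nat_lit 548872) (nat_lit 5) (.e (nat_lit 1598) (nat_lit 111) (.e (nat_lit 360466) (nat_lit 3) (.e (nat_lit 516100) (nat_lit 0) (.e (nat_lit 7936) (nat_lit 407) .nil)))))) (.g (nat_lit 4) .nil .nil))) 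
(.lf (nat_lit 201124) (.g (nat_lit 1864) (.e (nat_lit 73751) (nat_lit 7) (.e (nat_lit 548874) (nat_lit 5) (.e (nat_lit 1589) (nat_lit 111) (.e (nat_lit 360464) (nat_lit 2) (.e (nat_lit 507907) (nat_lit 0) (.e (nat_lit 5413) (nat_lit 303) .nil)))))) (.g (nat_lit 0) .nil .nil)))) (.nd (nat_lit 5) 
(.lf (nat_lit 201108) (.g (nat_lit 1221) (.e (nat_lit 73751) (nat_lit 7) (.e (nat_lit 548873) (nat_lit 5) (.e (nat_lit 1598) (nat_lit 111) (.e (nat_lit 360466) (nat_lit 3) (.e (nat_lit 516104) (nat_lit 0) (.e (nat_lit 7936) (nat_lit 407) .nil)))))) (.g (nat_lit 5) .nil .nil))) 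
(.lf (nat_lit 201140) (.g (nat_lit 3963) (.e (nat_lit 73751) (nat_lit 7) (.e (nat_lit 548884) (nat_lit 8) (.e (nat_lit 57521) (nat_lit 44) (.e (nat_lit 688171) (nat_lit 15) (.e (nat_lit 57478) (nat_lit 28) (.e (nat_lit 557105) (nat_lit 14) (.e (nat_lit 180252) (nat_lit 10) (.e (nat_lit 573488) (nat_lit 14) .nil)))))))) (.g (nat_lit 8) .nil .nil))))) (.nd (nat_lit 4) (.nd (nat_lit 5) 
(.lf (nat_lit 201100) (.g (nat_lit 1254) (.e (nat_lit 73751) (nat_lit 7) (.e (nat_lit 548873) (nat_lit 5) (.e (nat_lit 1562) (nat_lit 110) (.e (nat_lit 352315) (nat_lit 23) (.e (nat_lit 98325) (nat_lit 17) (.e (nat_lit 7936) (nat_lit 407) .nil)))))) (.g (nat_lit 5) .nil .nil))) 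
(.lf (nat_lit 201132) (.g (nat_lit 2406) (.e (nat_lit 73751) (nat_lit 7) (.e (nat_lit 548874) (nat_lit 5) (.e (nat_lit 1595) (nat_lit 111) (.e (nat_lit 360467) (nat_lit 3) (.e (nat_lit 516106) (nat_lit 0) (.e (nat_lit 7936) (nat_lit 407) .nil)))))) (.g (nat_lit 4) .nil .nil)))) (.nd (nat_lit 5) 
(.lf (nat_lit 201116) (.g (nat_lit 429) (.e (nat_lit 73751) (nat_lit 7) (.e (nat_lit 548874) (nat_lit 5) (.e (nat_lit 1572) (nat_lit 110) .nil))) .nil)) 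
(.lf (nat_lit 201148) (.g (nat_lit 2770) (.e (nat_lit 73751) (nat_lit 7) (.e (nat_lit 548889) (nat_lit 9) (.e (nat_lit 65598) (nat_lit 9) (.e (nat_lit 336013) (nat_lit 2) (.e (nat_lit 90133) (nat_lit 9) (.e (nat_lit 2400) (nat_lit 157) (.e (nat_lit 7590) (nat_lit 407) .nil))))))) (.g (nat_lit 4) .nil .nil))))))) (.nd (nat_lit 2) (.nd (nat_lit 3) (.nd (nat_lit 4) (.nd (nat_lit 5) 
(.lf (nat_lit 201090) (.g (nat_lit 1301) (.e (nat_lit 73751) (nat_lit 7) (.e (nat_lit 548870) (nat_lit 5) (.e (nat_lit 1615) (nat_lit 113) (.e (nat_lit 376864) (nat_lit 22) (.e (nat_lit 90133) (nat_lit 9) (.e (nat_lit 2400) (nat_lit 157) (.e (nat_lit 7592) (nat_lit 407) .nil))))))) (.g (nat_lit 6) .nil .nil))) 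
(.lf (nat_lit 201122) (.g (nat_lit 2102) (.e (nat_lit 73751) (nat_lit 7) (.e (nat_lit 548874) (nat_lit 5) (.e (nat_lit 1589) (nat_lit 111) (.e (nat_lit 360464) (nat_lit 2) (.e (nat_lit 507906) (nat_lit 0) (.e (nat_lit 5412) (nat_lit 303) .nil)))))) (.g (nat_lit 6) .nil .nil)))) (.nd (nat_lit 5) 
(.lf (nat_lit 201106) (.g (nat_lit 1127) (.e (nat_lit 73751) (nat_lit 7) (.e (nat_lit 548873) (nat_lit 5) (.e (nat_lit 1598) (nat_lit 111) (.e (nat_lit 360459) (nat_lit 1) (.e (nat_lit 499910) (nat_lit 8) (.e (nat_lit 171776) (nat_lit 192) .nil)))))) (.g (nat_lit 5) .nil .nil))) 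
(.lf (nat_lit 201138) (.g (nat_lit 1585) (.e (nat_lit 73751) (nat_lit 7) (.e (nat_lit 548874) (nat_lit 5) (.e (nat_lit 1598) (nat_lit 111) (.e (nat_lit 360466) (nat_lit 3) (.e (nat_lit 516105) (nat_lit 0) (.e (nat_lit 7936) (nat_lit 407) .nil)))))) (.g (nat_lit 5) .nil .nil))))) (.nd (nat_lit 4) (.nd (nat_lit 5) 
(.lf (nat_lit 201098) (.g (nat_lit 1584) (.e (nat_lit 73751) (nat_lit 7) (.e (nat_lit 548873) (nat_lit 5) (.e (nat_lit 1562) (nat_lit 110) (.e (nat_lit 352312) (nat_lit 22) (.e (nat_lit 90133) (nat_lit 9) (.e (nat_lit 2400) (nat_lit 157) (.e (nat_lit 7592) (nat_lit 407) .nil))))))) (.g (nat_lit 5) .nil .nil))) 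
(.lf (nat_lit 201130) (.g (nat_lit 2611) (.e (nat_lit 73751) (nat_lit 7) (.e (nat_lit 548874) (nat_lit 5) (.e (nat_lit 1595) (nat_lit 111) (.e (nat_lit 360467) (nat_lit 3) (.e (nat_lit 516097) (nat_lit 0) (.e (nat_lit 7591) (nat_lit 407) .nil)))))) (.g (nat_lit 5) .nil .nil)))) (.nd (nat_lit 5) 
(.lf (nat_lit 201114) (.g (nat_lit 1585) (.e (nat_lit 73751) (nat_lit 7) (.e (nat_lit 548874) (nat_lit 5) (.e (nat_lit 1562) (nat_lit 110) (.e (nat_lit 352315) (nat_lit 23) (.e (nat_lit 98319) (nat_lit 17) .nil))))) .nil)) 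
(.lf (nat_lit 201146) (.g (nat_lit 2855) (.e (nat_lit 73751) (nat_lit 7) (.e (nat_lit 548889) (nat_lit 9) (.e (nat_lit 65598) (nat_lit 9) (.e (nat_lit 336013) (nat_lit 2) (.e (nat_lit 90133) (nat_lit 9) (.e (nat_lit 2397) (nat_lit 157) (.e (nat_lit 7590) (nat_lit 407) .nil))))))) (.g (nat_lit 4) .nil .nil)))))) (.nd (nat_lit 3) (.nd (nat_lit 4) (.nd (nat_lit 5) 
(.lf (nat_lit 201094) (.g (nat_lit 910) (.e (nat_lit 73751) (nat_lit 7) (.e (nat_lit 548872) (nat_lit 5) (.e (nat_lit 1598) (nat_lit 111) (.e (nat_lit 360466) (nat_lit 3) (.e (nat_lit 516105) (nat_lit 0) (.e (nat_lit 7936) (nat_lit 407) .nil)))))) (.g (nat_lit 4) .nil .nil))) 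
(.lf (nat_lit 201126) (.g (nat_lit 2803) (.e (nat_lit 73751) (nat_lit 7) (.e (nat_lit 548874) (nat_lit 5) (.e (nat_lit 1589) (nat_lit 111) (.e (nat_lit 360467) (nat_lit 3) (.e (nat_lit 516098) (nat_lit 0) (.e (nat_lit 7591) (nat_lit 407) .nil)))))) (.g (nat_lit 6) .nil .nil)))) (.nd (nat_lit 5) 
(.lf (nat_lit 201110) (.g (nat_lit 2214) (.e (nat_lit 73751) (nat_lit 7) (.e (nat_lit 548874) (nat_lit 5) (.e (nat_lit 1562) (nat_lit 110) (.e (nat_lit 352312) (nat_lit 22) (.e (nat_lit 90133) (nat_lit 9) (.e (nat_lit 2397) (nat_lit 157) (.e (nat_lit 7590) (nat_lit 407) .nil))))))) (.g (nat_lit 5) .nil .nil))) 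
(.lf (nat_lit 201142) (.g (nat_lit 934) (.e (nat_lit 73751) (nat_lit 7) (.e (nat_lit 548887) (nat_lit 9) (.e (nat_lit 65619) (nat_lit 10) (.e (nat_lit 344115) (nat_lit 20) .nil)))) .nil)))) (.nd (nat_lit 4) (.nd (nat_lit 5) 
(.lf (nat_lit 201102) (.g (nat_lit 775) (.e (nat_lit 73751) (nat_lit 7) (.e (nat_lit 548873) (nat_lit 5) (.e (nat_lit 1595) (nat_lit 111) (.e (nat_lit 360460) (nat_lit 1) .nil)))) .nil)) 
(.lf (nat_lit 201134) (.g (nat_lit 2814) (.e (nat_lit 73751) (nat_lit 7) (.e (nat_lit 548874) (nat_lit 5) (.e (nat_lit 1598) (nat_lit 111) (.e (nat_lit 360466) (nat_lit 3) (.e (nat_lit 516097) (nat_lit 0) (.e (nat_lit 7593) (nat_lit 407) .nil)))))) (.g (nat_lit 6) .nil .nil)))) (.nd (nat_lit 5) 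
(.lf (nat_lit 201118) (.g (nat_lit 1433) (.e (nat_lit 73751) (nat_lit 7) (.e (nat_lit 548874) (nat_lit 5) (.e (nat_lit 1572) (nat_lit 110) (.e (nat_lit 352312) (nat_lit 22) (.e (nat_lit 90133) (nat_lit 9) (.e (nat_lit 2397) (nat_lit 157) (.e (nat_lit 7592) (nat_lit 407) .nil))))))) (.g (nat_lit 4) .nil .nil))) 
(.lf (nat_lit 201150) (.g (nat_lit 3542) (.e (nat_lit 73751) (nat_lit 7) (.e (nat_lit 548889) (nat_lit 9) (.e (nat_lit 65598) (nat_lit 9) (.e (nat_lit 336013) (nat_lit 2) (.e (nat_lit 90165) (nat_lit 12) (.e (nat_lit 171776) (nat_lit 192) .nil)))))) (.g (nat_lit 5) .nil .nil)))))))) (.nd (nat_lit 1) (.nd (nat_lit 2) (.nd (nat_lit 3) (.nd (nat_lit 4) (.nd (nat_lit 5) 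
(.lf (nat_lit 201089) (.g (nat_lit 1398) (.e (nat_lit 73751) (nat_lit 7) (.e (nat_lit 548870) (nat_lit 5) (.e (nat_lit 1615) (nat_lit 113) (.e (nat_lit 376864) (nat_lit 22) (.e (nat_lit 90133) (nat_lit 9) (.e (nat_lit 2397) (nat_lit 157) (.e (nat_lit 7592) (nat_lit 407) .nil))))))) (.g (nat_lit 6) .nil .nil))) 
(.lf (nat_lit 201121) (.g (nat_lit 1253) (.e (nat_lit 73751) (nat_lit 7) (.e (nat_lit 548874) (nat_lit 5) (.e (nat_lit 1589) (nat_lit 111) (.e (nat_lit 360460) (nat_lit 1) .nil)))) .nil))) (.nd (nat_lit 5) 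
(.lf (nat_lit 201105) (.g (nat_lit 2615) (.e (nat_lit 73751) (nat_lit 7) (.e (nat_lit 548873) (nat_lit 5) (.e (nat_lit 1595) (nat_lit 111) (.e (nat_lit 360467) (nat_lit 3) (.e (nat_lit 516098) (nat_lit 0) (.e (nat_lit 7593) (nat_lit 407) .nil)))))) (.g (nat_lit 0) .nil .nil))) 
(.lf (nat_lit 201137) (.g (nat_lit 1639) (.e (nat_lit 73751) (nat_lit 7) (.e (nat_lit 548874) (nat_lit 5) (.e (nat_lit 1598) (nat_lit 111) (.e (nat_lit 360466) (nat_lit 3) (.e (nat_lit 516104) (nat_lit 0) (.e (nat_lit 7936) (nat_lit 407) .nil)))))) (.g (nat_lit 5) .nil .nil))))) (.nd (nat_lit 4) (.nd (nat_lit 5) 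
(.lf (nat_lit 201097) (.g (nat_lit 1489) (.e (nat_lit 73751) (nat_lit 7) (.e (nat_lit 548873) (nat_lit 5) (.e (nat_lit 1562) (nat_lit 110) (.e (nat_lit 352312) (nat_lit 22) (.e (nat_lit 90133) (nat_lit 9) (.e (nat_lit 2400) (nat_lit 157) (.e (nat_lit 7590) (nat_lit 407) .nil))))))) (.g (nat_lit 5) .nil .nil))) 
(.lf (nat_lit 201129) (.g (nat_lit 574) (.e (nat_lit 73751) (nat_lit 7) (.e (nat_lit 548874) (nat_lit 5) (.e (nat_lit 1592) (nat_lit 111) (.e (nat_lit 360464) (nat_lit 2) .nil)))) .nil))) (.nd (nat_lit 5) 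
(.lf (nat_lit 201113) (.g (nat_lit 2087) (.e (nat_lit 73751) (nat_lit 7) (.e (nat_lit 548874) (nat_lit 5) (.e (nat_lit 1562) (nat_lit 110) (.e (nat_lit 352312) (nat_lit 22) (.e (nat_lit 90165) (nat_lit 12) (.e (nat_lit 171776) (nat_lit 192) .nil)))))) (.g (nat_lit 5) .nil .nil))) 
(.lf (nat_lit 201145) (.g (nat_lit 1551) (.e (nat_lit 73751) (nat_lit 7) (.e (nat_lit 548888) (nat_lit 9) (.e (nat_lit 65619) (nat_lit 10) (.e (nat_lit 344117) (nat_lit 21) (.e (nat_lit 516098) (nat_lit 0) (.e (nat_lit 7593) (nat_lit 407) .nil)))))) (.g (nat_lit 4) .nil .nil)))))) (.nd (nat_lit 3) (.nd (nat_lit 4) (.nd (nat_lit 5) 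
(.lf (nat_lit 201093) (.g (nat_lit 956) (.e (nat_lit 73751) (nat_lit 7) (.e (nat_lit 548872) (nat_lit 5) (.e (nat_lit 1598) (nat_lit 111) (.e (nat_lit 360466) (nat_lit 3) (.e (nat_lit 516104) (nat_lit 0) (.e (nat_lit 7936) (nat_lit 407) .nil)))))) (.g (nat_lit 4) .nil .nil))) 
(.lf (nat_lit 201125) (.g (nat_lit 954) (.e (nat_lit 73751) (nat_lit 7) (.e (nat_lit 548874) (nat_lit 5) (.e (nat_lit 1589) (nat_lit 111) (.e (nat_lit 360467) (nat_lit 3) .nil)))) .nil))) (.nd (nat_lit 5) 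
(.lf (nat_lit 201109) (.g (nat_lit 1185) (.e (nat_lit 73751) (nat_lit 7) (.e (nat_lit 548873) (nat_lit 5) (.e (nat_lit 1598) (nat_lit 111) (.e (nat_lit 360466) (nat_lit 3) (.e (nat_lit 516105) (nat_lit 0) (.e (nat_lit 7936) (nat_lit 407) .nil)))))) (.g (nat_lit 5) .nil .nil))) 
(.lf (nat_lit 201141) (.g (nat_lit 4191) (.e (nat_lit 73751) (nat_lit 7) (.e (nat_lit 548886) (nat_lit 8) (.e (nat_lit 57520) (nat_lit 44) (.e (nat_lit 688171) (nat_lit 15) (.e (nat_lit 57478) (nat_lit 28) (.e (nat_lit 557105) (nat_lit 14) (.e (nat_lit 180252) (nat_lit 10) (.e (nat_lit 573488) (nat_lit 14) .nil)))))))) (.g (nat_lit 8) .nil .nil))))) (.nd (nat_lit 4) (.nd (nat_lit 5) 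
(.lf (nat_lit 201101) (.g (nat_lit 1428) (.e (nat_lit 73751) (nat_lit 7) (.e (nat_lit 548873) (nat_lit 5) (.e (nat_lit 1589) (nat_lit 111) (.e (nat_lit 360464) (nat_lit 2) (.e (nat_lit 507907) (nat_lit 0) (.e (nat_lit 5412) (nat_lit 303) .nil)))))) (.g (nat_lit 0) .nil .nil))) 
(.lf (nat_lit 201133) (.g (nat_lit 1699) (.e (nat_lit 73751) (nat_lit 7) (.e (nat_lit 548874) (nat_lit 5) (.e (nat_lit 1598) (nat_lit 111) (.e (nat_lit 360459) (nat_lit 1) (.e (nat_lit 499910) (nat_lit 8) (.e (nat_lit 171776) (nat_lit 192) .nil)))))) (.g (nat_lit 5) .nil .nil)))) (.nd (nat_lit 5) 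
(.lf (nat_lit 201117) (.g (nat_lit 1325) (.e (nat_lit 73751) (nat_lit 7) (.e (nat_lit 548874) (nat_lit 5) (.e (nat_lit 1572) (nat_lit 110) (.e (nat_lit 352312) (nat_lit 22) (.e (nat_lit 90133) (nat_lit 9) .nil))))) .nil)) 
(.lf (nat_lit 201149) (.g (nat_lit 2873) (.e (nat_lit 73751) (nat_lit 7) (.e (nat_lit 548889) (nat_lit 9) (.e (nat_lit 65598) (nat_lit 9) (.e (nat_lit 336013) (nat_lit 2) (.e (nat_lit 90133) (nat_lit 9) (.e (nat_lit 2400) (nat_lit 157) (.e (nat_lit 7592) (nat_lit 407) .nil))))))) (.g (nat_lit 4) .nil .nil))))))) (.nd (nat_lit 2) (.nd (nat_lit 3) (.nd (nat_lit 4) (.nd (nat_lit 5) 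
(.lf (nat_lit 201091) (.g (nat_lit 2267) (.e (nat_lit 73751) (nat_lit 7) (.e (nat_lit 548872) (nat_lit 5) (.e (nat_lit 1598) (nat_lit 111) (.e (nat_lit 360466) (nat_lit 3) (.e (nat_lit 516097) (nat_lit 0) (.e (nat_lit 7591) (nat_lit 407) .nil)))))) (.g (nat_lit 6) .nil .nil))) 
(.lf (nat_lit 201123) (.g (nat_lit 2024) (.e (nat_lit 73751) (nat_lit 7) (.e (nat_lit 548874) (nat_lit 5) (.e (nat_lit 1589) (nat_lit 111) (.e (nat_lit 360464) (nat_lit 2) (.e (nat_lit 507907) (nat_lit 0) (.e (nat_lit 5412) (nat_lit 303) .nil)))))) (.g (nat_lit 0) .nil .nil)))) (.nd (nat_lit 5) 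
(.lf (nat_lit 201107) (.g (nat_lit 1341) (.e (nat_lit 73751) (nat_lit 7) (.e (nat_lit 548873) (nat_lit 5) (.e (nat_lit 1598) (nat_lit 111) (.e (nat_lit 360466) (nat_lit 3) (.e (nat_lit 516100) (nat_lit 0) (.e (nat_lit 7936) (nat_lit 407) .nil)))))) (.g (nat_lit 5) .nil .nil))) 
(.lf (nat_lit 201139) (.g (nat_lit 1481) (.e (nat_lit 73751) (nat_lit 7) (.e (nat_lit 548874) (nat_lit 5) (.e (nat_lit 1599) (nat_lit 111) (.e (nat_lit 360464) (nat_lit 2) (.e (nat_lit 507907) (nat_lit 0) (.e (nat_lit 5412) (nat_lit 303) .nil)))))) (.g (nat_lit 0) .nil .nil))))) (.nd (nat_lit 4) (.nd (nat_lit 5) 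
(.lf (nat_lit 201099) (.g (nat_lit 1348) (.e (nat_lit 73751) (nat_lit 7) (.e (nat_lit 548873) (nat_lit 5) (.e (nat_lit 1562) (nat_lit 110) (.e (nat_lit 352312) (nat_lit 22) (.e (nat_lit 90165) (nat_lit 12) (.e (nat_lit 171776) (nat_lit 192) .nil)))))) (.g (nat_lit 5) .nil .nil))) 
(.lf (nat_lit 201131) (.g (nat_lit 2879) (.e (nat_lit 73751) (nat_lit 7) (.e (nat_lit 548874) (nat_lit 5) (.e (nat_lit 1595) (nat_lit 111) (.e (nat_lit 360467) (nat_lit 3) (.e (nat_lit 516098) (nat_lit 0) (.e (nat_lit 7591) (nat_lit 407) .nil)))))) (.g (nat_lit 0) .nil .nil)))) (.nd (nat_lit 5) 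
(.lf (nat_lit 201115) (.g (nat_lit 1854) (.e (nat_lit 73751) (nat_lit 7) (.e (nat_lit 548874) (nat_lit 5) (.e (nat_lit 1562) (nat_lit 110) (.e (nat_lit 352315) (nat_lit 23) (.e (nat_lit 98325) (nat_lit 17) (.e (nat_lit 7936) (nat_lit 407) .nil)))))) (.g (nat_lit 5) .nil .nil))) 
(.lf (nat_lit 201147) (.g (nat_lit 3111) (.e (nat_lit 73751) (nat_lit 7) (.e (nat_lit 548889) (nat_lit 9) (.e (nat_lit 65598) (nat_lit 9) (.e (nat_lit 336013) (nat_lit 2) (.e (nat_lit 90133) (nat_lit 9) (.e (nat_lit 2397) (nat_lit 157) (.e (nat_lit 7592) (nat_lit 407) .nil))))))) (.g (nat_lit 4) .nil .nil)))))) (.nd (nat_lit 3) (.nd (nat_lit 4) (.nd (nat_lit 5) 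
(.lf (nat_lit 201095) (.g (nat_lit 432) (.e (nat_lit 73751) (nat_lit 7) (.e (nat_lit 548872) (nat_lit 5) (.e (nat_lit 1599) (nat_lit 111) (.e (nat_lit 360464) (nat_lit 2) (.e (nat_lit 507907) (nat_lit 0) .nil))))) .nil)) 
(.lf (nat_lit 201127) (.g (nat_lit 2840) (.e (nat_lit 73751) (nat_lit 7) (.e (nat_lit 548874) (nat_lit 5) (.e (nat_lit 1589) (nat_lit 111) (.e (nat_lit 360467) (nat_lit 3) (.e (nat_lit 516098) (nat_lit 0) (.e (nat_lit 7593) (nat_lit 407) .nil)))))) (.g (nat_lit 6) .nil .nil)))) (.nd (nat_lit 5) 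
(.lf (nat_lit 201111) (.g (nat_lit 2409) (.e (nat_lit 73751) (nat_lit 7) (.e (nat_lit 548874) (nat_lit 5) (.e (nat_lit 1562) (nat_lit 110) (.e (nat_lit 352312) (nat_lit 22) (.e (nat_lit 90133) (nat_lit 9) (.e (nat_lit 2397) (nat_lit 157) (.e (nat_lit 7592) (nat_lit 407) .nil))))))) (.g (nat_lit 6) .nil .nil))) 
(.lf (nat_lit 201143) (.g (nat_lit 2164) (.e (nat_lit 73751) (nat_lit 7) (.e (nat_lit 548888) (nat_lit 9) (.e (nat_lit 65604) (nat_lit 9) (.e (nat_lit 336013) (nat_lit 2) (.e (nat_lit 90165) (nat_lit 12) (.e (nat_lit 171776) (nat_lit 192) .nil)))))) (.g (nat_lit 5) .nil .nil))))) (.nd (nat_lit 4) (.nd (nat_lit 5) 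
(.lf (nat_lit 201103) (.g (nat_lit 846) (.e (nat_lit 73751) (nat_lit 7) (.e (nat_lit 548873) (nat_lit 5) (.e (nat_lit 1595) (nat_lit 111) (.e (nat_lit 360460) (nat_lit 1) (.e (nat_lit 499825) (nat_lit 5) .nil))))) .nil)) 
(.lf (nat_lit 201135) (.g (nat_lit 1378) (.e (nat_lit 73751) (nat_lit 7) (.e (nat_lit 548874) (nat_lit 5) (.e (nat_lit 1598) (nat_lit 111) (.e (nat_lit 360466) (nat_lit 3) (.e (nat_lit 516097) (nat_lit 0) (.e (nat_lit 7936) (nat_lit 407) .nil)))))) (.g (nat_lit 4) .nil .nil)))) (.nd (nat_lit 5) 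
(.lf (nat_lit 201119) (.g (nat_lit 1315) (.e (nat_lit 73751) (nat_lit 7) (.e (nat_lit 548874) (nat_lit 5) (.e (nat_lit 1572) (nat_lit 110) (.e (nat_lit 352312) (nat_lit 22) (.e (nat_lit 90165) (nat_lit 12) (.e (nat_lit 171776) (nat_lit 192) .nil)))))) (.g (nat_lit 4) .nil .nil))) 
(.lf (nat_lit 201151) (.g (nat_lit 2375) (.e (nat_lit 73751) (nat_lit 7) (.e (nat_lit 548889) (nat_lit 9) (.e (nat_lit 65598) (nat_lit 9) (.e (nat_lit 336028) (nat_lit 3) (.e (nat_lit 98325) (nat_lit 17) (.e (nat_lit 7936) (nat_lit 407) .nil)))))) (.g (nat_lit 5) .nil .nil)))))))))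

noncomputable def tv2654 : DT := (.nd (nat_lit 0) (.nd (nat_lit 1) (.nd (nat_lit 2) (.nd (nat_lit 3) (.nd (nat_lit 4) (.nd (nat_lit 5) 
(.lf (nat_lit 201152) (.g (nat_lit 2583) (.e (nat_lit 73751) (nat_lit 7) (.e (nat_lit 548889) (nat_lit 9) (.e (nat_lit 65604) (nat_lit 9) (.e (nat_lit 336013) (nat_lit 2) (.e (nat_lit 90165) (nat_lit 12) (.e (nat_lit 171776) (nat_lit 192) .nil)))))) (.g (nat_lit 5) .nil .nil))) 
(.lf (nat_lit 201184) (.g (nat_lit 1781) (.e (nat_lit 73751) (nat_lit 7) (.e (nat_lit 548891) (nat_lit 11) (.e (nat_lit 81954) (nat_lit 23) (.e (nat_lit 98325) (nat_lit 17) (.e (nat_lit 7936) (nat_lit 407) .nil))))) (.g (nat_lit 4) .nil .nil)))) (.nd (nat_lit 5) 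
(.lf (nat_lit 201168) (.g (nat_lit 1269) (.e (nat_lit 73751) (nat_lit 7) (.e (nat_lit 548889) (nat_lit 9) (.e (nat_lit 65617) (nat_lit 10) (.e (nat_lit 344117) (nat_lit 21) .nil)))) .nil)) 
(.lf (nat_lit 201200) (.g (nat_lit 3371) (.e (nat_lit 73752) (nat_lit 8) (.e (nat_lit 557087) (nat_lit 11) (.e (nat_lit 24640) (nat_lit 10) (.e (nat_lit 344117) (nat_lit 21) (.e (nat_lit 516097) (nat_lit 0) .nil))))) .nil)))) (.nd (nat_lit 4) (.nd (nat_lit 5) 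
(.lf (nat_lit 201160) (.g (nat_lit 1504) (.e (nat_lit 73751) (nat_lit 7) (.e (nat_lit 548889) (nat_lit 9) (.e (nat_lit 65611) (nat_lit 10) (.e (nat_lit 344115) (nat_lit 20) (.e (nat_lit 507907) (nat_lit 0) (.e (nat_lit 5413) (nat_lit 303) .nil)))))) (.g (nat_lit 0) .nil .nil))) 
(.lf (nat_lit 201192) (.g (nat_lit 444) (.e (nat_lit 73752) (nat_lit 8) (.e (nat_lit 557065) (nat_lit 9) (.e (nat_lit 334) (nat_lit 26) .nil))) .nil))) (.nd (nat_lit 5) 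
(.lf (nat_lit 201176) (.g (nat_lit 961) (.e (nat_lit 73751) (nat_lit 7) (.e (nat_lit 548889) (nat_lit 9) (.e (nat_lit 65620) (nat_lit 10) (.e (nat_lit 344117) (nat_lit 21) .nil)))) .nil)) 
(.lf (nat_lit 201208) (.g (nat_lit 2650) (.e (nat_lit 73753) (nat_lit 8) (.e (nat_lit 557065) (nat_lit 9) (.e (nat_lit 309) (nat_lit 23) (.e (nat_lit 352315) (nat_lit 23) (.e (nat_lit 98325) (nat_lit 17) (.e (nat_lit 7936) (nat_lit 407) .nil)))))) (.g (nat_lit 4) .nil .nil)))))) (.nd (nat_lit 3) (.nd (nat_lit 4) (.nd (nat_lit 5) 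
(.lf (nat_lit 201156) (.g (nat_lit 1728) (.e (nat_lit 73751) (nat_lit 7) (.e (nat_lit 548889) (nat_lit 9) (.e (nat_lit 65610) (nat_lit 10) (.e (nat_lit 344115) (nat_lit 20) (.e (nat_lit 507908) (nat_lit 0) (.e (nat_lit 5413) (nat_lit 303) .nil)))))) (.g (nat_lit 0) .nil .nil))) 
(.lf (nat_lit 201188) (.g (nat_lit 2256) (.e (nat_lit 73751) (nat_lit 7) (.e (nat_lit 548891) (nat_lit 11) (.e (nat_lit 81956) (nat_lit 23) (.e (nat_lit 98325) (nat_lit 17) (.e (nat_lit 7936) (nat_lit 407) .nil))))) (.g (nat_lit 4) .nil .nil)))) (.nd (nat_lit 5) 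
(.lf (nat_lit 201172) (.g (nat_lit 1883) (.e (nat_lit 73751) (nat_lit 7) (.e (nat_lit 548889) (nat_lit 9) (.e (nat_lit 65620) (nat_lit 10) (.e (nat_lit 344115) (nat_lit 20) (.e (nat_lit 507907) (nat_lit 0) (.e (nat_lit 5412) (nat_lit 303) .nil)))))) (.g (nat_lit 6) .nil .nil))) 
(.lf (nat_lit 201204) (.g (nat_lit 2605) (.e (nat_lit 73752) (nat_lit 8) (.e (nat_lit 557091) (nat_lit 12) (.e (nat_lit 163999) (nat_lit 38) (.e (nat_lit 639017) (nat_lit 15) (.e (nat_lit 57480) (nat_lit 28) .nil))))) .nil)))) (.nd (nat_lit 4) (.nd (nat_lit 5) 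
(.lf (nat_lit 201164) (.g (nat_lit 1778) (.e (nat_lit 73751) (nat_lit 7) (.e (nat_lit 548889) (nat_lit 9) (.e (nat_lit 65617) (nat_lit 10) (.e (nat_lit 344115) (nat_lit 20) (.e (nat_lit 507906) (nat_lit 0) (.e (nat_lit 5412) (nat_lit 303) .nil)))))) (.g (nat_lit 4) .nil .nil))) 
(.lf (nat_lit 201196) (.g (nat_lit 1874) (.e (nat_lit 73752) (nat_lit 8) (.e (nat_lit 557087) (nat_lit 11) (.e (nat_lit 24639) (nat_lit 10) (.e (nat_lit 344115) (nat_lit 20) .nil)))) .nil))) (.nd (nat_lit 5) 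
(.lf (nat_lit 201180) (.g (nat_lit 1946) (.e (nat_lit 73751) (nat_lit 7) (.e (nat_lit 548891) (nat_lit 11) (.e (nat_lit 81953) (nat_lit 22) (.e (nat_lit 90133) (nat_lit 9) (.e (nat_lit 2397) (nat_lit 157) (.e (nat_lit 7590) (nat_lit 407) .nil)))))) (.g (nat_lit 5) .nil .nil))) 
(.lf (nat_lit 201212) (.g (nat_lit 2796) (.e (nat_lit 73753) (nat_lit 8) (.e (nat_lit 557065) (nat_lit 9) (.e (nat_lit 334) (nat_lit 26) (.e (nat_lit 376862) (nat_lit 22) (.e (nat_lit 90133) (nat_lit 9) (.e (nat_lit 2397) (nat_lit 157) (.e (nat_lit 7592) (nat_lit 407) .nil))))))) (.g (nat_lit 4) .nil .nil))))))) (.nd (nat_lit 2) (.nd (nat_lit 3) (.nd (nat_lit 4) (.nd (nat_lit 5) 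
(.lf (nat_lit 201154) (.g (nat_lit 730) (.e (nat_lit 73751) (nat_lit 7) (.e (nat_lit 548889) (nat_lit 9) (.e (nat_lit 65609) (nat_lit 10) (.e (nat_lit 344115) (nat_lit 20) .nil)))) .nil)) 
(.lf (nat_lit 201186) (.g (nat_lit 1673) (.e (nat_lit 73751) (nat_lit 7) (.e (nat_lit 548891) (nat_lit 11) (.e (nat_lit 81956) (nat_lit 23) (.e (nat_lit 98321) (nat_lit 17) (.e (nat_lit 7936) (nat_lit 407) .nil))))) (.g (nat_lit 4) .nil .nil)))) (.nd (nat_lit 5) 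
(.lf (nat_lit 201170) (.g (nat_lit 1787) (.e (nat_lit 73751) (nat_lit 7) (.e (nat_lit 548889) (nat_lit 9) (.e (nat_lit 65619) (nat_lit 10) (.e (nat_lit 344115) (nat_lit 20) (.e (nat_lit 507908) (nat_lit 0) (.e (nat_lit 5413) (nat_lit 303) .nil)))))) (.g (nat_lit 0) .nil .nil))) 
(.lf (nat_lit 201202) (.g (nat_lit 2021) (.e (nat_lit 73752) (nat_lit 8) (.e (nat_lit 557090) (nat_lit 12) (.e (nat_lit 163999) (nat_lit 38) (.e (nat_lit 639017) (nat_lit 15) .nil)))) .nil)))) (.nd (nat_lit 4) (.nd (nat_lit 5) 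
(.lf (nat_lit 201162) (.g (nat_lit 1500) (.e (nat_lit 73751) (nat_lit 7) (.e (nat_lit 548889) (nat_lit 9) (.e (nat_lit 65616) (nat_lit 10) (.e (nat_lit 344115) (nat_lit 20) (.e (nat_lit 507907) (nat_lit 0) (.e (nat_lit 5413) (nat_lit 303) .nil)))))) (.g (nat_lit 0) .nil .nil))) 
(.lf (nat_lit 201194) (.g (nat_lit 888) (.e (nat_lit 73752) (nat_lit 8) (.e (nat_lit 557087) (nat_lit 11) (.e (nat_lit 24623) (nat_lit 9) .nil))) .nil))) (.nd (nat_lit 5) 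
(.lf (nat_lit 201178) (.g (nat_lit 738) (.e (nat_lit 73751) (nat_lit 7) (.e (nat_lit 548891) (nat_lit 11) (.e (nat_lit 81952) (nat_lit 22) (.e (nat_lit 90133) (nat_lit 9) .nil)))) .nil)) 
(.lf (nat_lit 201210) (.g (nat_lit 2505) (.e (nat_lit 73753) (nat_lit 8) (.e (nat_lit 557065) (nat_lit 9) (.e (nat_lit 315) (nat_lit 23) (.e (nat_lit 352315) (nat_lit 23) (.e (nat_lit 98325) (nat_lit 17) (.e (nat_lit 7936) (nat_lit 407) .nil)))))) (.g (nat_lit 4) .nil .nil)))))) (.nd (nat_lit 3) (.nd (nat_lit 4) (.nd (nat_lit 5) 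
(.lf (nat_lit 201158) (.g (nat_lit 2866) (.e (nat_lit 73751) (nat_lit 7) (.e (nat_lit 548889) (nat_lit 9) (.e (nat_lit 65610) (nat_lit 10) (.e (nat_lit 344117) (nat_lit 21) (.e (nat_lit 516099) (nat_lit 0) .nil))))) .nil)) 
(.lf (nat_lit 201190) (.g (nat_lit 2465) (.e (nat_lit 81664) (nat_lit 7) (.e (nat_lit 548889) (nat_lit 9) (.e (nat_lit 65610) (nat_lit 10) (.e (nat_lit 344117) (nat_lit 21) (.e (nat_lit 516106) (nat_lit 0) .nil))))) .nil))) (.nd (nat_lit 5) 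
(.lf (nat_lit 201174) (.g (nat_lit 1908) (.e (nat_lit 73751) (nat_lit 7) (.e (nat_lit 548889) (nat_lit 9) (.e (nat_lit 65620) (nat_lit 10) (.e (nat_lit 344115) (nat_lit 20) (.e (nat_lit 507908) (nat_lit 0) (.e (nat_lit 5412) (nat_lit 303) .nil)))))) (.g (nat_lit 6) .nil .nil))) 
(.lf (nat_lit 201206) (.g (nat_lit 1759) (.e (nat_lit 73753) (nat_lit 8) (.e (nat_lit 557057) (nat_lit 0) (.e (nat_lit 1638) (nat_lit 114) (.e (nat_lit 385104) (nat_lit 50) (.e (nat_lit 786487) (nat_lit 33) (.e (nat_lit 392960) (nat_lit 5) .nil)))))) (.g (nat_lit 4) .nil .nil))))) (.nd (nat_lit 4) (.nd (nat_lit 5) 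
(.lf (nat_lit 201166) (.g (nat_lit 1795) (.e (nat_lit 73751) (nat_lit 7) (.e (nat_lit 548889) (nat_lit 9) (.e (nat_lit 65617) (nat_lit 10) (.e (nat_lit 344115) (nat_lit 20) (.e (nat_lit 507907) (nat_lit 0) (.e (nat_lit 5413) (nat_lit 303) .nil)))))) (.g (nat_lit 4) .nil .nil))) 
(.lf (nat_lit 201198) (.g (nat_lit 2124) (.e (nat_lit 73752) (nat_lit 8) (.e (nat_lit 557087) (nat_lit 11) (.e (nat_lit 24640) (nat_lit 10) (.e (nat_lit 344115) (nat_lit 20) .nil)))) .nil))) (.nd (nat_lit 5) 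
(.lf (nat_lit 201182) (.g (nat_lit 1674) (.e (nat_lit 73751) (nat_lit 7) (.e (nat_lit 548891) (nat_lit 11) (.e (nat_lit 81953) (nat_lit 22) (.e (nat_lit 90165) (nat_lit 12) (.e (nat_lit 171776) (nat_lit 192) .nil))))) (.g (nat_lit 4) .nil .nil))) 
(.lf (nat_lit 201214) (.g (nat_lit 2744) (.e (nat_lit 73753) (nat_lit 8) (.e (nat_lit 557065) (nat_lit 9) (.e (nat_lit 334) (nat_lit 26) (.e (nat_lit 376862) (nat_lit 22) (.e (nat_lit 90181) (nat_lit 16) (.e (nat_lit 237312) (nat_lit 192) .nil)))))) (.g (nat_lit 4) .nil .nil)))))))) (.nd (nat_lit 1) (.nd (nat_lit 2) (.nd (nat_lit 3) (.nd (nat_lit 4) (.nd (nat_lit 5) 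
(.lf (nat_lit 201153) (.g (nat_lit 2380) (.e (nat_lit 73751) (nat_lit 7) (.e (nat_lit 548889) (nat_lit 9) (.e (nat_lit 65604) (nat_lit 9) (.e (nat_lit 336028) (nat_lit 3) (.e (nat_lit 98325) (nat_lit 17) (.e (nat_lit 7936) (nat_lit 407) .nil)))))) (.g (nat_lit 5) .nil .nil))) 
(.lf (nat_lit 201185) (.g (nat_lit 1340) (.e (nat_lit 73751) (nat_lit 7) (.e (nat_lit 548891) (nat_lit 11) (.e (nat_lit 81955) (nat_lit 23) (.e (nat_lit 98325) (nat_lit 17) (.e (nat_lit 7936) (nat_lit 407) .nil))))) (.g (nat_lit 4) .nil .nil)))) (.nd (nat_lit 5) 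
(.lf (nat_lit 201169) (.g (nat_lit 1778) (.e (nat_lit 73751) (nat_lit 7) (.e (nat_lit 548889) (nat_lit 9) (.e (nat_lit 65619) (nat_lit 10) (.e (nat_lit 344115) (nat_lit 20) (.e (nat_lit 507907) (nat_lit 0) (.e (nat_lit 5413) (nat_lit 303) .nil)))))) (.g (nat_lit 0) .nil .nil))) 
(.lf (nat_lit 201201) (.g (nat_lit 1135) (.e (nat_lit 73752) (nat_lit 8) (.e (nat_lit 557087) (nat_lit 11) (.e (nat_lit 24641) (nat_lit 10) .nil))) .nil)))) (.nd (nat_lit 4) (.nd (nat_lit 5) 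
(.lf (nat_lit 201161) (.g (nat_lit 1503) (.e (nat_lit 73751) (nat_lit 7) (.e (nat_lit 548889) (nat_lit 9) (.e (nat_lit 65611) (nat_lit 10) (.e (nat_lit 344115) (nat_lit 20) (.e (nat_lit 507908) (nat_lit 0) (.e (nat_lit 5413) (nat_lit 303) .nil)))))) (.g (nat_lit 0) .nil .nil))) 
(.lf (nat_lit 201193) (.g (nat_lit 1091) (.e (nat_lit 73752) (nat_lit 8) (.e (nat_lit 557087) (nat_lit 11) (.e (nat_lit 24617) (nat_lit 7) .nil))) .nil))) (.nd (nat_lit 5) 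
(.lf (nat_lit 201177) (.g (nat_lit 1497) (.e (nat_lit 73751) (nat_lit 7) (.e (nat_lit 548891) (nat_lit 11) (.e (nat_lit 81951) (nat_lit 22) (.e (nat_lit 90165) (nat_lit 12) (.e (nat_lit 171776) (nat_lit 192) .nil))))) (.g (nat_lit 4) .nil .nil))) 
(.lf (nat_lit 201209) (.g (nat_lit 2143) (.e (nat_lit 73753) (nat_lit 8) (.e (nat_lit 557065) (nat_lit 9) (.e (nat_lit 310) (nat_lit 23) (.e (nat_lit 352315) (nat_lit 23) (.e (nat_lit 98325) (nat_lit 17) (.e (nat_lit 7936) (nat_lit 407) .nil)))))) (.g (nat_lit 4) .nil .nil)))))) (.nd (nat_lit 3) (.nd (nat_lit 4) (.nd (nat_lit 5) 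
(.lf (nat_lit 201157) (.g (nat_lit 3508) (.e (nat_lit 73751) (nat_lit 7) (.e (nat_lit 548889) (nat_lit 9) (.e (nat_lit 65610) (nat_lit 10) (.e (nat_lit 344117) (nat_lit 21) (.e (nat_lit 516097) (nat_lit 0) (.e (nat_lit 7591) (nat_lit 407) .nil)))))) (.g (nat_lit 5) .nil .nil))) 
(.lf (nat_lit 201189) (.g (nat_lit 864) (.e (nat_lit 73751) (nat_lit 7) (.e (nat_lit 556800) (nat_lit 11) (.e (nat_lit 81951) (nat_lit 22) (.e (nat_lit 90165) (nat_lit 12) (.e (nat_lit 171776) (nat_lit 192) .nil))))) (.g (nat_lit 4) .nil .nil)))) (.nd (nat_lit 5) 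
(.lf (nat_lit 201173) (.g (nat_lit 1766) (.e (nat_lit 73751) (nat_lit 7) (.e (nat_lit 548889) (nat_lit 9) (.e (nat_lit 65620) (nat_lit 10) (.e (nat_lit 344115) (nat_lit 20) (.e (nat_lit 507907) (nat_lit 0) (.e (nat_lit 5413) (nat_lit 303) .nil)))))) (.g (nat_lit 6) .nil .nil))) 
(.lf (nat_lit 201205) (.g (nat_lit 1512) (.e (nat_lit 73752) (nat_lit 8) (.e (nat_lit 557104) (nat_lit 14) (.e (nat_lit 180252) (nat_lit 10) (.e (nat_lit 573474) (nat_lit 12) .nil)))) .nil)))) (.nd (nat_lit 4) (.nd (nat_lit 5) 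
(.lf (nat_lit 201165) (.g (nat_lit 1608) (.e (nat_lit 73751) (nat_lit 7) (.e (nat_lit 548889) (nat_lit 9) (.e (nat_lit 65617) (nat_lit 10) (.e (nat_lit 344115) (nat_lit 20) (.e (nat_lit 507907) (nat_lit 0) (.e (nat_lit 5410) (nat_lit 303) .nil)))))) (.g (nat_lit 4) .nil .nil))) 
(.lf (nat_lit 201197) (.g (nat_lit 1917) (.e (nat_lit 73752) (nat_lit 8) (.e (nat_lit 557087) (nat_lit 11) (.e (nat_lit 24639) (nat_lit 10) (.e (nat_lit 344117) (nat_lit 21) .nil)))) .nil))) (.nd (nat_lit 5) 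
(.lf (nat_lit 201181) (.g (nat_lit 2004) (.e (nat_lit 73751) (nat_lit 7) (.e (nat_lit 548891) (nat_lit 11) (.e (nat_lit 81953) (nat_lit 22) (.e (nat_lit 90133) (nat_lit 9) (.e (nat_lit 2397) (nat_lit 157) (.e (nat_lit 7592) (nat_lit 407) .nil)))))) (.g (nat_lit 6) .nil .nil))) 
(.lf (nat_lit 201213) (.g (nat_lit 2722) (.e (nat_lit 73753) (nat_lit 8) (.e (nat_lit 557065) (nat_lit 9) (.e (nat_lit 334) (nat_lit 26) (.e (nat_lit 376862) (nat_lit 22) (.e (nat_lit 90165) (nat_lit 12) (.e (nat_lit 171776) (nat_lit 192) .nil)))))) (.g (nat_lit 4) .nil .nil))))))) (.nd (nat_lit 2) (.nd (nat_lit 3) (.nd (nat_lit 4) (.nd (nat_lit 5) 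
(.lf (nat_lit 201155) (.g (nat_lit 1719) (.e (nat_lit 73751) (nat_lit 7) (.e (nat_lit 548889) (nat_lit 9) (.e (nat_lit 65610) (nat_lit 10) (.e (nat_lit 344115) (nat_lit 20) (.e (nat_lit 507907) (nat_lit 0) (.e (nat_lit 5413) (nat_lit 303) .nil)))))) (.g (nat_lit 0) .nil .nil))) 
(.lf (nat_lit 201187) (.g (nat_lit 1877) (.e (nat_lit 73751) (nat_lit 7) (.e (nat_lit 548891) (nat_lit 11) (.e (nat_lit 81956) (nat_lit 23) (.e (nat_lit 98323) (nat_lit 17) .nil)))) .nil))) (.nd (nat_lit 5) 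
(.lf (nat_lit 201171) (.g (nat_lit 2680) (.e (nat_lit 73751) (nat_lit 7) (.e (nat_lit 548889) (nat_lit 9) (.e (nat_lit 65619) (nat_lit 10) (.e (nat_lit 344117) (nat_lit 21) (.e (nat_lit 516106) (nat_lit 0) (.e (nat_lit 7936) (nat_lit 407) .nil)))))) (.g (nat_lit 5) .nil .nil))) 
(.lf (nat_lit 201203) (.g (nat_lit 2179) (.e (nat_lit 73752) (nat_lit 8) (.e (nat_lit 557091) (nat_lit 12) (.e (nat_lit 163999) (nat_lit 38) (.e (nat_lit 639017) (nat_lit 15) .nil)))) .nil)))) (.nd (nat_lit 4) (.nd (nat_lit 5) 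
(.lf (nat_lit 201163) (.g (nat_lit 1504) (.e (nat_lit 73751) (nat_lit 7) (.e (nat_lit 548889) (nat_lit 9) (.e (nat_lit 65616) (nat_lit 10) (.e (nat_lit 344115) (nat_lit 20) (.e (nat_lit 507908) (nat_lit 0) (.e (nat_lit 5413) (nat_lit 303) .nil)))))) (.g (nat_lit 0) .nil .nil))) 
(.lf (nat_lit 201195) (.g (nat_lit 1102) (.e (nat_lit 73752) (nat_lit 8) (.e (nat_lit 557087) (nat_lit 11) (.e (nat_lit 24632) (nat_lit 9) .nil))) .nil))) (.nd (nat_lit 5) 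
(.lf (nat_lit 201179) (.g (nat_lit 1097) (.e (nat_lit 73751) (nat_lit 7) (.e (nat_lit 548891) (nat_lit 11) (.e (nat_lit 81952) (nat_lit 22) (.e (nat_lit 90165) (nat_lit 12) (.e (nat_lit 171776) (nat_lit 192) .nil))))) (.g (nat_lit 4) .nil .nil))) 
(.lf (nat_lit 201211) (.g (nat_lit 809) (.e (nat_lit 73753) (nat_lit 8) (.e (nat_lit 557065) (nat_lit 9) (.e (nat_lit 321) (nat_lit 24) (.e (nat_lit 360467) (nat_lit 3) .nil)))) .nil))))) (.nd (nat_lit 3) (.nd (nat_lit 4) (.nd (nat_lit 5) 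
(.lf (nat_lit 201159) (.g (nat_lit 3500) (.e (nat_lit 73751) (nat_lit 7) (.e (nat_lit 548889) (nat_lit 9) (.e (nat_lit 65610) (nat_lit 10) (.e (nat_lit 344117) (nat_lit 21) (.e (nat_lit 516106) (nat_lit 0) (.e (nat_lit 7936) (nat_lit 407) .nil)))))) (.g (nat_lit 5) .nil .nil))) 
(.lf (nat_lit 201191) (.g (nat_lit 2720) (.e (nat_lit 81664) (nat_lit 7) (.e (nat_lit 548891) (nat_lit 11) (.e (nat_lit 81956) (nat_lit 23) (.e (nat_lit 98320) (nat_lit 17) .nil)))) .nil))) (.nd (nat_lit 5) 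
(.lf (nat_lit 201175) (.g (nat_lit 1774) (.e (nat_lit 73751) (nat_lit 7) (.e (nat_lit 548889) (nat_lit 9) (.e (nat_lit 65620) (nat_lit 10) (.e (nat_lit 344115) (nat_lit 20) (.e (nat_lit 507908) (nat_lit 0) (.e (nat_lit 5413) (nat_lit 303) .nil)))))) (.g (nat_lit 6) .nil .nil))) 
(.lf (nat_lit 201207) (.g (nat_lit 2803) (.e (nat_lit 73753) (nat_lit 8) (.e (nat_lit 557065) (nat_lit 9) (.e (nat_lit 309) (nat_lit 23) (.e (nat_lit 352312) (nat_lit 22) (.e (nat_lit 90133) (nat_lit 9) (.e (nat_lit 2397) (nat_lit 157) (.e (nat_lit 7592) (nat_lit 407) .nil))))))) (.g (nat_lit 5) .nil .nil))))) (.nd (nat_lit 4) (.nd (nat_lit 5) 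
(.lf (nat_lit 201167) (.g (nat_lit 1751) (.e (nat_lit 73751) (nat_lit 7) (.e (nat_lit 548889) (nat_lit 9) (.e (nat_lit 65617) (nat_lit 10) (.e (nat_lit 344115) (nat_lit 20) (.e (nat_lit 507908) (nat_lit 0) (.e (nat_lit 5413) (nat_lit 303) .nil)))))) (.g (nat_lit 4) .nil .nil))) 
(.lf (nat_lit 201199) (.g (nat_lit 2159) (.e (nat_lit 73752) (nat_lit 8) (.e (nat_lit 557087) (nat_lit 11) (.e (nat_lit 24640) (nat_lit 10) (.e (nat_lit 344117) (nat_lit 21) .nil)))) .nil))) (.nd (nat_lit 5) 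
(.lf (nat_lit 201183) (.g (nat_lit 1183) (.e (nat_lit 73751) (nat_lit 7) (.e (nat_lit 548891) (nat_lit 11) (.e (nat_lit 81954) (nat_lit 23) (.e (nat_lit 98323) (nat_lit 17) .nil)))) .nil)) 
(.lf (nat_lit 201215) (.g (nat_lit 2573) (.e (nat_lit 73753) (nat_lit 8) (.e (nat_lit 557065) (nat_lit 9) (.e (nat_lit 334) (nat_lit 26) (.e (nat_lit 376865) (nat_lit 22) (.e (nat_lit 90165) (nat_lit 12) (.e (nat_lit 171776) (nat_lit 192) .nil)))))) (.g (nat_lit 4) .nil .nil)))))))))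

noncomputable def tv2655 : DT := (.nd (nat_lit 0) (.nd (nat_lit 1) (.nd (nat_lit 2) (.nd (nat_lit 3) (.nd (nat_lit 4) (.nd (nat_lit 5) 
(.lf (nat_lit 201216) (.g (nat_lit 2997) (.e (nat_lit 73753) (nat_lit 8) (.e (nat_lit 557065) (nat_lit 9) (.e (nat_lit 334) (nat_lit 26) (.e (nat_lit 376865) (nat_lit 22) (.e (nat_lit 90181) (nat_lit 16) (.e (nat_lit 237312) (nat_lit 192) .nil)))))) (.g (nat_lit 5) .nil .nil))) 
(.lf (nat_lit 201248) (.g (nat_lit 1604) (.e (nat_lit 73753) (nat_lit 8) (.e (nat_lit 557066) (nat_lit 9) (.e (nat_lit 321) (nat_lit 24) (.e (nat_lit 360467) (nat_lit 3) (.e (nat_lit 516113) (nat_lit 0) (.e (nat_lit 7936) (nat_lit 407) .nil)))))) (.g (nat_lit 4) .nil .nil)))) (.nd (nat_lit 5) 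
(.lf (nat_lit 201232) (.g (nat_lit 2462) (.e (nat_lit 73753) (nat_lit 8) (.e (nat_lit 557066) (nat_lit 9) (.e (nat_lit 314) (nat_lit 23) (.e (nat_lit 352312) (nat_lit 22) (.e (nat_lit 90133) (nat_lit 9) (.e (nat_lit 2397) (nat_lit 157) (.e (nat_lit 7592) (nat_lit 407) .nil))))))) (.g (nat_lit 5) .nil .nil))) 
(.lf (nat_lit 201264) (.g (nat_lit 2570) (.e (nat_lit 73753) (nat_lit 8) (.e (nat_lit 557066) (nat_lit 9) (.e (nat_lit 334) (nat_lit 26) (.e (nat_lit 376865) (nat_lit 22) (.e (nat_lit 90181) (nat_lit 16) (.e (nat_lit 237312) (nat_lit 192) .nil)))))) (.g (nat_lit 5) .nil .nil))))) (.nd (nat_lit 4) (.nd (nat_lit 5) 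
(.lf (nat_lit 201224) (.g (nat_lit 2379) (.e (nat_lit 73753) (nat_lit 8) (.e (nat_lit 557066) (nat_lit 9) (.e (nat_lit 309) (nat_lit 23) (.e (nat_lit 352312) (nat_lit 22) (.e (nat_lit 90165) (nat_lit 12) (.e (nat_lit 171776) (nat_lit 192) .nil)))))) (.g (nat_lit 5) .nil .nil))) 
(.lf (nat_lit 201256) (.g (nat_lit 2051) (.e (nat_lit 73753) (nat_lit 8) (.e (nat_lit 557066) (nat_lit 9) (.e (nat_lit 334) (nat_lit 26) (.e (nat_lit 376862) (nat_lit 22) (.e (nat_lit 90133) (nat_lit 9) (.e (nat_lit 2397) (nat_lit 157) (.e (nat_lit 7592) (nat_lit 407) .nil))))))) (.g (nat_lit 4) .nil .nil)))) (.nd (nat_lit 5) 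
(.lf (nat_lit 201240) (.g (nat_lit 2700) (.e (nat_lit 73753) (nat_lit 8) (.e (nat_lit 557066) (nat_lit 9) (.e (nat_lit 314) (nat_lit 23) (.e (nat_lit 352315) (nat_lit 23) (.e (nat_lit 98325) (nat_lit 17) (.e (nat_lit 7936) (nat_lit 407) .nil)))))) (.g (nat_lit 5) .nil .nil))) 
(.lf (nat_lit 201272) (.g (nat_lit 1336) (.e (nat_lit 73753) (nat_lit 8) (.e (nat_lit 557067) (nat_lit 9) (.e (nat_lit 290) (nat_lit 21) (.e (nat_lit 336186) (nat_lit 11) .nil)))) .nil))))) (.nd (nat_lit 3) (.nd (nat_lit 4) (.nd (nat_lit 5) 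
(.lf (nat_lit 201220) (.g (nat_lit 2160) (.e (nat_lit 73753) (nat_lit 8) (.e (nat_lit 557066) (nat_lit 9) (.e (nat_lit 232) (nat_lit 21) (.e (nat_lit 336175) (nat_lit 10) .nil)))) .nil)) 
(.lf (nat_lit 201252) (.g (nat_lit 1920) (.e (nat_lit 73753) (nat_lit 8) (.e (nat_lit 557066) (nat_lit 9) (.e (nat_lit 324) (nat_lit 24) (.e (nat_lit 360466) (nat_lit 3) (.e (nat_lit 516100) (nat_lit 0) (.e (nat_lit 7936) (nat_lit 407) .nil)))))) (.g (nat_lit 5) .nil .nil)))) (.nd (nat_lit 5) 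
(.lf (nat_lit 201236) (.g (nat_lit 1865) (.e (nat_lit 73753) (nat_lit 8) (.e (nat_lit 557066) (nat_lit 9) (.e (nat_lit 314) (nat_lit 23) (.e (nat_lit 352313) (nat_lit 23) (.e (nat_lit 98321) (nat_lit 17) (.e (nat_lit 7936) (nat_lit 407) .nil)))))) (.g (nat_lit 4) .nil .nil))) 
(.lf (nat_lit 201268) (.g (nat_lit 1511) (.e (nat_lit 73753) (nat_lit 8) (.e (nat_lit 557066) (nat_lit 9) (.e (nat_lit 334) (nat_lit 26) (.e (nat_lit 376869) (nat_lit 23) (.e (nat_lit 98325) (nat_lit 17) (.e (nat_lit 7936) (nat_lit 407) .nil)))))) (.g (nat_lit 4) .nil .nil))))) (.nd (nat_lit 4) (.nd (nat_lit 5) 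
(.lf (nat_lit 201228) (.g (nat_lit 1713) (.e (nat_lit 73753) (nat_lit 8) (.e (nat_lit 557066) (nat_lit 9) (.e (nat_lit 310) (nat_lit 23) (.e (nat_lit 352315) (nat_lit 23) (.e (nat_lit 98319) (nat_lit 17) .nil))))) .nil)) 
(.lf (nat_lit 201260) (.g (nat_lit 2030) (.e (nat_lit 73753) (nat_lit 8) (.e (nat_lit 557066) (nat_lit 9) (.e (nat_lit 334) (nat_lit 26) (.e (nat_lit 376864) (nat_lit 22) (.e (nat_lit 90165) (nat_lit 12) (.e (nat_lit 171776) (nat_lit 192) .nil)))))) (.g (nat_lit 5) .nil .nil)))) (.nd (nat_lit 5) 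
(.lf (nat_lit 201244) (.g (nat_lit 2293) (.e (nat_lit 73753) (nat_lit 8) (.e (nat_lit 557066) (nat_lit 9) (.e (nat_lit 321) (nat_lit 24) (.e (nat_lit 360466) (nat_lit 3) (.e (nat_lit 516098) (nat_lit 0) (.e (nat_lit 7591) (nat_lit 407) .nil)))))) (.g (nat_lit 4) .nil .nil))) 
(.lf (nat_lit 201276) (.g (nat_lit 2139) (.e (nat_lit 73753) (nat_lit 8) (.e (nat_lit 557067) (nat_lit 9) (.e (nat_lit 7936) (nat_lit 26) (.e (nat_lit 376865) (nat_lit 22) (.e (nat_lit 90133) (nat_lit 9) (.e (nat_lit 2397) (nat_lit 157) (.e (nat_lit 7592) (nat_lit 407) .nil))))))) (.g (nat_lit 4) .nil .nil))))))) (.nd (nat_lit 2) (.nd (nat_lit 3) (.nd (nat_lit 4) (.nd (nat_lit 5) 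
(.lf (nat_lit 201218) (.g (nat_lit 2198) (.e (nat_lit 73753) (nat_lit 8) (.e (nat_lit 557066) (nat_lit 9) (.e (nat_lit 232) (nat_lit 21) (.e (nat_lit 336073) (nat_lit 9) .nil)))) .nil)) 
(.lf (nat_lit 201250) (.g (nat_lit 1646) (.e (nat_lit 73753) (nat_lit 8) (.e (nat_lit 557066) (nat_lit 9) (.e (nat_lit 324) (nat_lit 24) (.e (nat_lit 360464) (nat_lit 2) (.e (nat_lit 507906) (nat_lit 0) (.e (nat_lit 7936) (nat_lit 303) .nil)))))) (.g (nat_lit 4) .nil .nil)))) (.nd (nat_lit 5) 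
(.lf (nat_lit 201234) (.g (nat_lit 2461) (.e (nat_lit 73753) (nat_lit 8) (.e (nat_lit 557066) (nat_lit 9) (.e (nat_lit 314) (nat_lit 23) (.e (nat_lit 352312) (nat_lit 22) (.e (nat_lit 90165) (nat_lit 12) (.e (nat_lit 171776) (nat_lit 192) .nil)))))) (.g (nat_lit 5) .nil .nil))) 
(.lf (nat_lit 201266) (.g (nat_lit 1534) (.e (nat_lit 73753) (nat_lit 8) (.e (nat_lit 557066) (nat_lit 9) (.e (nat_lit 334) (nat_lit 26) (.e (nat_lit 376867) (nat_lit 23) (.e (nat_lit 98325) (nat_lit 17) (.e (nat_lit 7936) (nat_lit 407) .nil)))))) (.g (nat_lit 4) .nil .nil))))) (.nd (nat_lit 4) (.nd (nat_lit 5) 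
(.lf (nat_lit 201226) (.g (nat_lit 1944) (.e (nat_lit 73753) (nat_lit 8) (.e (nat_lit 557066) (nat_lit 9) (.e (nat_lit 310) (nat_lit 23) (.e (nat_lit 352312) (nat_lit 22) (.e (nat_lit 90133) (nat_lit 9) (.e (nat_lit 2397) (nat_lit 157) (.e (nat_lit 7592) (nat_lit 407) .nil))))))) (.g (nat_lit 4) .nil .nil))) 
(.lf (nat_lit 201258) (.g (nat_lit 2212) (.e (nat_lit 73753) (nat_lit 8) (.e (nat_lit 557066) (nat_lit 9) (.e (nat_lit 334) (nat_lit 26) (.e (nat_lit 376862) (nat_lit 22) (.e (nat_lit 90165) (nat_lit 12) (.e (nat_lit 171776) (nat_lit 192) .nil)))))) (.g (nat_lit 5) .nil .nil)))) (.nd (nat_lit 5) 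
(.lf (nat_lit 201242) (.g (nat_lit 2101) (.e (nat_lit 73753) (nat_lit 8) (.e (nat_lit 557066) (nat_lit 9) (.e (nat_lit 321) (nat_lit 24) (.e (nat_lit 360460) (nat_lit 1) (.e (nat_lit 499910) (nat_lit 8) (.e (nat_lit 171776) (nat_lit 192) .nil)))))) (.g (nat_lit 5) .nil .nil))) 
(.lf (nat_lit 201274) (.g (nat_lit 680) (.e (nat_lit 73753) (nat_lit 8) (.e (nat_lit 557067) (nat_lit 9) (.e (nat_lit 7936) (nat_lit 26) .nil))) .nil))))) (.nd (nat_lit 3) (.nd (nat_lit 4) (.nd (nat_lit 5) 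
(.lf (nat_lit 201222) (.g (nat_lit 2639) (.e (nat_lit 73753) (nat_lit 8) (.e (nat_lit 557066) (nat_lit 9) (.e (nat_lit 309) (nat_lit 23) (.e (nat_lit 352312) (nat_lit 22) (.e (nat_lit 90133) (nat_lit 9) (.e (nat_lit 2397) (nat_lit 157) (.e (nat_lit 7592) (nat_lit 407) .nil))))))) (.g (nat_lit 5) .nil .nil))) 
(.lf (nat_lit 201254) (.g (nat_lit 1855) (.e (nat_lit 73753) (nat_lit 8) (.e (nat_lit 557066) (nat_lit 9) (.e (nat_lit 324) (nat_lit 24) (.e (nat_lit 360466) (nat_lit 3) (.e (nat_lit 516104) (nat_lit 0) (.e (nat_lit 7936) (nat_lit 407) .nil)))))) (.g (nat_lit 5) .nil .nil)))) (.nd (nat_lit 5) 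
(.lf (nat_lit 201238) (.g (nat_lit 2323) (.e (nat_lit 73753) (nat_lit 8) (.e (nat_lit 557066) (nat_lit 9) (.e (nat_lit 314) (nat_lit 23) (.e (nat_lit 352313) (nat_lit 23) (.e (nat_lit 98325) (nat_lit 17) (.e (nat_lit 7936) (nat_lit 407) .nil)))))) (.g (nat_lit 5) .nil .nil))) 
(.lf (nat_lit 201270) (.g (nat_lit 1522) (.e (nat_lit 73753) (nat_lit 8) (.e (nat_lit 557066) (nat_lit 9) (.e (nat_lit 334) (nat_lit 26) (.e (nat_lit 376869) (nat_lit 23) (.e (nat_lit 98331) (nat_lit 17) (.e (nat_lit 7936) (nat_lit 407) .nil)))))) (.g (nat_lit 4) .nil .nil))))) (.nd (nat_lit 4) (.nd (nat_lit 5) 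
(.lf (nat_lit 201230) (.g (nat_lit 2793) (.e (nat_lit 73753) (nat_lit 8) (.e (nat_lit 557066) (nat_lit 9) (.e (nat_lit 310) (nat_lit 23) (.e (nat_lit 352315) (nat_lit 23) (.e (nat_lit 98325) (nat_lit 17) (.e (nat_lit 7936) (nat_lit 407) .nil)))))) (.g (nat_lit 5) .nil .nil))) 
(.lf (nat_lit 201262) (.g (nat_lit 1650) (.e (nat_lit 73753) (nat_lit 8) (.e (nat_lit 557066) (nat_lit 9) (.e (nat_lit 334) (nat_lit 26) (.e (nat_lit 376865) (nat_lit 22) (.e (nat_lit 90133) (nat_lit 9) (.e (nat_lit 2400) (nat_lit 157) (.e (nat_lit 7592) (nat_lit 407) .nil))))))) (.g (nat_lit 4) .nil .nil)))) (.nd (nat_lit 5) 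
(.lf (nat_lit 201246) (.g (nat_lit 1888) (.e (nat_lit 73753) (nat_lit 8) (.e (nat_lit 557066) (nat_lit 9) (.e (nat_lit 321) (nat_lit 24) (.e (nat_lit 360467) (nat_lit 3) (.e (nat_lit 516102) (nat_lit 0) (.e (nat_lit 7936) (nat_lit 407) .nil)))))) (.g (nat_lit 4) .nil .nil))) 
(.lf (nat_lit 201278) (.g (nat_lit 456) (.e (nat_lit 73753) (nat_lit 8) (.e (nat_lit 557070) (nat_lit 9) (.e (nat_lit 313) (nat_lit 23) .nil))) .nil))))))) (.nd (nat_lit 1) (.nd (nat_lit 2) (.nd (nat_lit 3) (.nd (nat_lit 4) (.nd (nat_lit 5) 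
(.lf (nat_lit 201217) (.g (nat_lit 499) (.e (nat_lit 73753) (nat_lit 8) (.e (nat_lit 557066) (nat_lit 9) (.e (nat_lit 232) (nat_lit 21) .nil))) .nil)) 
(.lf (nat_lit 201249) (.g (nat_lit 1924) (.e (nat_lit 73753) (nat_lit 8) (.e (nat_lit 557066) (nat_lit 9) (.e (nat_lit 324) (nat_lit 24) (.e (nat_lit 360459) (nat_lit 1) (.e (nat_lit 499910) (nat_lit 8) (.e (nat_lit 171776) (nat_lit 192) .nil)))))) (.g (nat_lit 5) .nil .nil)))) (.nd (nat_lit 5) 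
(.lf (nat_lit 201233) (.g (nat_lit 2282) (.e (nat_lit 73753) (nat_lit 8) (.e (nat_lit 557066) (nat_lit 9) (.e (nat_lit 314) (nat_lit 23) (.e (nat_lit 352312) (nat_lit 22) (.e (nat_lit 90133) (nat_lit 9) (.e (nat_lit 2400) (nat_lit 157) (.e (nat_lit 7592) (nat_lit 407) .nil))))))) (.g (nat_lit 5) .nil .nil))) 
(.lf (nat_lit 201265) (.g (nat_lit 2715) (.e (nat_lit 73753) (nat_lit 8) (.e (nat_lit 557066) (nat_lit 9) (.e (nat_lit 334) (nat_lit 26) (.e (nat_lit 376867) (nat_lit 23) (.e (nat_lit 98320) (nat_lit 17) (.e (nat_lit 7593) (nat_lit 407) .nil)))))) (.g (nat_lit 0) .nil .nil))))) (.nd (nat_lit 4) (.nd (nat_lit 5) 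
(.lf (nat_lit 201225) (.g (nat_lit 2587) (.e (nat_lit 73753) (nat_lit 8) (.e (nat_lit 557066) (nat_lit 9) (.e (nat_lit 309) (nat_lit 23) (.e (nat_lit 352315) (nat_lit 23) (.e (nat_lit 98325) (nat_lit 17) (.e (nat_lit 7936) (nat_lit 407) .nil)))))) (.g (nat_lit 5) .nil .nil))) 
(.lf (nat_lit 201257) (.g (nat_lit 1788) (.e (nat_lit 73753) (nat_lit 8) (.e (nat_lit 557066) (nat_lit 9) (.e (nat_lit 334) (nat_lit 26) (.e (nat_lit 376862) (nat_lit 22) (.e (nat_lit 90133) (nat_lit 9) (.e (nat_lit 2400) (nat_lit 157) (.e (nat_lit 7592) (nat_lit 407) .nil))))))) (.g (nat_lit 4) .nil .nil)))) (.nd (nat_lit 5) 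
(.lf (nat_lit 201241) (.g (nat_lit 948) (.e (nat_lit 73753) (nat_lit 8) (.e (nat_lit 557066) (nat_lit 9) (.e (nat_lit 321) (nat_lit 24) (.e (nat_lit 360460) (nat_lit 1) .nil)))) .nil)) 
(.lf (nat_lit 201273) (.g (nat_lit 680) (.e (nat_lit 73753) (nat_lit 8) (.e (nat_lit 557067) (nat_lit 9) (.e (nat_lit 7936) (nat_lit 24) .nil))) .nil))))) (.nd (nat_lit 3) (.nd (nat_lit 4) (.nd (nat_lit 5) 
(.lf (nat_lit 201221) (.g (nat_lit 2198) (.e (nat_lit 73753) (nat_lit 8) (.e (nat_lit 557066) (nat_lit 9) (.e (nat_lit 232) (nat_lit 21) (.e (nat_lit 336177) (nat_lit 10) .nil)))) .nil)) 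
(.lf (nat_lit 201253) (.g (nat_lit 1639) (.e (nat_lit 73753) (nat_lit 8) (.e (nat_lit 557066) (nat_lit 9) (.e (nat_lit 324) (nat_lit 24) (.e (nat_lit 360466) (nat_lit 3) (.e (nat_lit 516101) (nat_lit 0) .nil))))) .nil))) (.nd (nat_lit 5) 
(.lf (nat_lit 201237) (.g (nat_lit 1993) (.e (nat_lit 73753) (nat_lit 8) (.e (nat_lit 557066) (nat_lit 9) (.e (nat_lit 314) (nat_lit 23) (.e (nat_lit 352313) (nat_lit 23) (.e (nat_lit 98323) (nat_lit 17) (.e (nat_lit 7936) (nat_lit 407) .nil)))))) (.g (nat_lit 4) .nil .nil))) 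
(.lf (nat_lit 201269) (.g (nat_lit 1275) (.e (nat_lit 73753) (nat_lit 8) (.e (nat_lit 557066) (nat_lit 9) (.e (nat_lit 334) (nat_lit 26) (.e (nat_lit 376869) (nat_lit 23) (.e (nat_lit 98329) (nat_lit 17) (.e (nat_lit 7936) (nat_lit 407) .nil)))))) (.g (nat_lit 4) .nil .nil))))) (.nd (nat_lit 4) (.nd (nat_lit 5) 
(.lf (nat_lit 201229) (.g (nat_lit 1715) (.e (nat_lit 73753) (nat_lit 8) (.e (nat_lit 557066) (nat_lit 9) (.e (nat_lit 310) (nat_lit 23) (.e (nat_lit 352315) (nat_lit 23) (.e (nat_lit 98320) (nat_lit 17) .nil))))) .nil)) 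
(.lf (nat_lit 201261) (.g (nat_lit 1913) (.e (nat_lit 73753) (nat_lit 8) (.e (nat_lit 557066) (nat_lit 9) (.e (nat_lit 334) (nat_lit 26) (.e (nat_lit 376865) (nat_lit 22) (.e (nat_lit 90133) (nat_lit 9) (.e (nat_lit 2397) (nat_lit 157) (.e (nat_lit 7592) (nat_lit 407) .nil))))))) (.g (nat_lit 4) .nil .nil)))) (.nd (nat_lit 5) 
(.lf (nat_lit 201245) (.g (nat_lit 2356) (.e (nat_lit 73753) (nat_lit 8) (.e (nat_lit 557066) (nat_lit 9) (.e (nat_lit 321) (nat_lit 24) (.e (nat_lit 360467) (nat_lit 3) (.e (nat_lit 516097) (nat_lit 0) (.e (nat_lit 7936) (nat_lit 407) .nil)))))) (.g (nat_lit 5) .nil .nil))) 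
(.lf (nat_lit 201277) (.g (nat_lit 1456) (.e (nat_lit 73753) (nat_lit 8) (.e (nat_lit 557068) (nat_lit 9) (.e (nat_lit 7936) (nat_lit 26) (.e (nat_lit 376865) (nat_lit 22) (.e (nat_lit 90133) (nat_lit 9) (.e (nat_lit 2397) (nat_lit 157) (.e (nat_lit 7592) (nat_lit 407) .nil))))))) (.g (nat_lit 4) .nil .nil))))))) (.nd (nat_lit 2) (.nd (nat_lit 3) (.nd (nat_lit 4) (.nd (nat_lit 5) 
(.lf (nat_lit 201219) (.g (nat_lit 2198) (.e (nat_lit 73753) (nat_lit 8) (.e (nat_lit 557066) (nat_lit 9) (.e (nat_lit 232) (nat_lit 21) (.e (nat_lit 336112) (nat_lit 9) .nil)))) .nil)) 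
(.lf (nat_lit 201251) (.g (nat_lit 2884) (.e (nat_lit 73753) (nat_lit 8) (.e (nat_lit 557066) (nat_lit 9) (.e (nat_lit 324) (nat_lit 24) (.e (nat_lit 360466) (nat_lit 3) (.e (nat_lit 516098) (nat_lit 0) (.e (nat_lit 7591) (nat_lit 407) .nil)))))) (.g (nat_lit 0) .nil .nil)))) (.nd (nat_lit 5) 
(.lf (nat_lit 201235) (.g (nat_lit 2673) (.e (nat_lit 73753) (nat_lit 8) (.e (nat_lit 557066) (nat_lit 9) (.e (nat_lit 314) (nat_lit 23) (.e (nat_lit 352313) (nat_lit 23) (.e (nat_lit 98320) (nat_lit 17) (.e (nat_lit 7591) (nat_lit 407) .nil)))))) (.g (nat_lit 0) .nil .nil))) 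
(.lf (nat_lit 201267) (.g (nat_lit 1689) (.e (nat_lit 73753) (nat_lit 8) (.e (nat_lit 557066) (nat_lit 9) (.e (nat_lit 334) (nat_lit 26) (.e (nat_lit 376867) (nat_lit 23) (.e (nat_lit 98331) (nat_lit 17) (.e (nat_lit 7936) (nat_lit 407) .nil)))))) (.g (nat_lit 5) .nil .nil))))) (.nd (nat_lit 4) (.nd (nat_lit 5) 
(.lf (nat_lit 201227) (.g (nat_lit 2168) (.e (nat_lit 73753) (nat_lit 8) (.e (nat_lit 557066) (nat_lit 9) (.e (nat_lit 310) (nat_lit 23) (.e (nat_lit 352312) (nat_lit 22) (.e (nat_lit 90165) (nat_lit 12) (.e (nat_lit 171776) (nat_lit 192) .nil)))))) (.g (nat_lit 5) .nil .nil))) 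
(.lf (nat_lit 201259) (.g (nat_lit 2253) (.e (nat_lit 73753) (nat_lit 8) (.e (nat_lit 557066) (nat_lit 9) (.e (nat_lit 334) (nat_lit 26) (.e (nat_lit 376862) (nat_lit 22) (.e (nat_lit 90181) (nat_lit 16) (.e (nat_lit 237312) (nat_lit 192) .nil)))))) (.g (nat_lit 5) .nil .nil)))) (.nd (nat_lit 5) 
(.lf (nat_lit 201243) (.g (nat_lit 1969) (.e (nat_lit 73753) (nat_lit 8) (.e (nat_lit 557066) (nat_lit 9) (.e (nat_lit 321) (nat_lit 24) (.e (nat_lit 360464) (nat_lit 2) (.e (nat_lit 507906) (nat_lit 0) (.e (nat_lit 7936) (nat_lit 303) .nil)))))) (.g (nat_lit 5) .nil .nil))) 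
(.lf (nat_lit 201275) (.g (nat_lit 2273) (.e (nat_lit 73753) (nat_lit 8) (.e (nat_lit 557067) (nat_lit 9) (.e (nat_lit 7936) (nat_lit 26) (.e (nat_lit 376862) (nat_lit 22) (.e (nat_lit 90133) (nat_lit 9) (.e (nat_lit 2397) (nat_lit 157) (.e (nat_lit 7592) (nat_lit 407) .nil))))))) (.g (nat_lit 4) .nil .nil)))))) (.nd (nat_lit 3) (.nd (nat_lit 4) (.nd (nat_lit 5) 
(.lf (nat_lit 201223) (.g (nat_lit 2459) (.e (nat_lit 73753) (nat_lit 8) (.e (nat_lit 557066) (nat_lit 9) (.e (nat_lit 309) (nat_lit 23) (.e (nat_lit 352312) (nat_lit 22) (.e (nat_lit 90133) (nat_lit 9) (.e (nat_lit 2400) (nat_lit 157) (.e (nat_lit 7592) (nat_lit 407) .nil))))))) (.g (nat_lit 5) .nil .nil))) 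
(.lf (nat_lit 201255) (.g (nat_lit 1847) (.e (nat_lit 73753) (nat_lit 8) (.e (nat_lit 557066) (nat_lit 9) (.e (nat_lit 324) (nat_lit 24) (.e (nat_lit 360466) (nat_lit 3) (.e (nat_lit 516105) (nat_lit 0) (.e (nat_lit 7936) (nat_lit 407) .nil)))))) (.g (nat_lit 5) .nil .nil)))) (.nd (nat_lit 5) 
(.lf (nat_lit 201239) (.g (nat_lit 2954) (.e (nat_lit 73753) (nat_lit 8) (.e (nat_lit 557066) (nat_lit 9) (.e (nat_lit 314) (nat_lit 23) (.e (nat_lit 352315) (nat_lit 23) (.e (nat_lit 98320) (nat_lit 17) (.e (nat_lit 7591) (nat_lit 407) .nil)))))) (.g (nat_lit 0) .nil .nil))) 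
(.lf (nat_lit 201271) (.g (nat_lit 841) (.e (nat_lit 73753) (nat_lit 8) (.e (nat_lit 557067) (nat_lit 9) (.e (nat_lit 20) (nat_lit 0) .nil))) .nil)))) (.nd (nat_lit 4) (.nd (nat_lit 5) 
(.lf (nat_lit 201231) (.g (nat_lit 2057) (.e (nat_lit 73753) (nat_lit 8) (.e (nat_lit 557066) (nat_lit 9) (.e (nat_lit 314) (nat_lit 23) (.e (nat_lit 352310) (nat_lit 22) (.e (nat_lit 90165) (nat_lit 12) (.e (nat_lit 171776) (nat_lit 192) .nil)))))) (.g (nat_lit 5) .nil .nil))) 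
(.lf (nat_lit 201263) (.g (nat_lit 2156) (.e (nat_lit 73753) (nat_lit 8) (.e (nat_lit 557066) (nat_lit 9) (.e (nat_lit 334) (nat_lit 26) (.e (nat_lit 376865) (nat_lit 22) (.e (nat_lit 90165) (nat_lit 12) (.e (nat_lit 171776) (nat_lit 192) .nil)))))) (.g (nat_lit 5) .nil .nil)))) (.nd (nat_lit 5) 
(.lf (nat_lit 201247) (.g (nat_lit 2916) (.e (nat_lit 73753) (nat_lit 8) (.e (nat_lit 557066) (nat_lit 9) (.e (nat_lit 321) (nat_lit 24) (.e (nat_lit 360467) (nat_lit 3) (.e (nat_lit 516106) (nat_lit 0) (.e (nat_lit 7936) (nat_lit 407) .nil)))))) (.g (nat_lit 5) .nil .nil))) 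
(.lf (nat_lit 201279) (.g (nat_lit 1891) (.e (nat_lit 73753) (nat_lit 8) (.e (nat_lit 557070) (nat_lit 9) (.e (nat_lit 313) (nat_lit 23) (.e (nat_lit 352310) (nat_lit 22) (.e (nat_lit 90165) (nat_lit 12) (.e (nat_lit 171776) (nat_lit 192) .nil)))))) (.g (nat_lit 5) .nil .nil)))))))))

noncomputable def tv2656 : DT := (.nd (nat_lit 0) (.nd (nat_lit 1) (.nd (nat_lit 2) (.nd (nat_lit 3) (.nd (nat_lit 4) (.nd (nat_lit 5) 
(.lf (nat_lit 201280) (.g (nat_lit 2494) (.e (nat_lit 73753) (nat_lit 8) (.e (nat_lit 557070) (nat_lit 9) (.e (nat_lit 313) (nat_lit 23) (.e (nat_lit 352312) (nat_lit 22) (.e (nat_lit 90133) (nat_lit 9) (.e (nat_lit 2397) (nat_lit 157) (.e (nat_lit 7592) (nat_lit 407) .nil))))))) (.g (nat_lit 5) .nil .nil))) 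
(.lf (nat_lit 201312) (.g (nat_lit 3531) (.e (nat_lit 73753) (nat_lit 8) (.e (nat_lit 557072) (nat_lit 9) (.e (nat_lit 3098) (nat_lit 192) (.e (nat_lit 491571) (nat_lit 13) (.e (nat_lit 393251) (nat_lit 18) (.e (nat_lit 164161) (nat_lit 152) (.e (nat_lit 1208) (nat_lit 89) .nil))))))) (.g (nat_lit 5) .nil .nil)))) (.nd (nat_lit 5) 
(.lf (nat_lit 201296) (.g (nat_lit 591) (.e (nat_lit 73753) (nat_lit 8) (.e (nat_lit 557072) (nat_lit 9) (.e (nat_lit 290) (nat_lit 21) (.e (nat_lit 336188) (nat_lit 11) .nil)))) .nil)) 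
(.lf (nat_lit 201328) (.g (nat_lit 3566) (.e (nat_lit 73753) (nat_lit 8) (.e (nat_lit 557085) (nat_lit 11) (.e (nat_lit 24623) (nat_lit 9) (.e (nat_lit 336013) (nat_lit 2) (.e (nat_lit 90165) (nat_lit 12) (.e (nat_lit 171776) (nat_lit 192) .nil)))))) (.g (nat_lit 5) .nil .nil))))) (.nd (nat_lit 4) (.nd (nat_lit 5) 
(.lf (nat_lit 201288) (.g (nat_lit 2394) (.e (nat_lit 73753) (nat_lit 8) (.e (nat_lit 557070) (nat_lit 9) (.e (nat_lit 333) (nat_lit 26) (.e (nat_lit 376862) (nat_lit 22) (.e (nat_lit 90165) (nat_lit 12) (.e (nat_lit 171776) (nat_lit 192) .nil)))))) (.g (nat_lit 5) .nil .nil))) 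
(.lf (nat_lit 201320) (.g (nat_lit 2495) (.e (nat_lit 73753) (nat_lit 8) (.e (nat_lit 557072) (nat_lit 9) (.e (nat_lit 3098) (nat_lit 192) (.e (nat_lit 491571) (nat_lit 13) (.e (nat_lit 393252) (nat_lit 18) (.e (nat_lit 164167) (nat_lit 152) (.e (nat_lit 1208) (nat_lit 89) .nil))))))) (.g (nat_lit 4) .nil .nil)))) (.nd (nat_lit 5) 
(.lf (nat_lit 201304) (.g (nat_lit 3979) (.e (nat_lit 73753) (nat_lit 8) (.e (nat_lit 557072) (nat_lit 9) (.e (nat_lit 3098) (nat_lit 192) (.e (nat_lit 491571) (nat_lit 13) (.e (nat_lit 393251) (nat_lit 18) (.e (nat_lit 164148) (nat_lit 152) (.e (nat_lit 1214) (nat_lit 89) .nil))))))) (.g (nat_lit 5) .nil .nil))) 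
(.lf (nat_lit 201336) (.g (nat_lit 3666) (.e (nat_lit 73753) (nat_lit 8) (.e (nat_lit 557085) (nat_lit 11) (.e (nat_lit 24640) (nat_lit 10) (.e (nat_lit 344117) (nat_lit 21) (.e (nat_lit 516097) (nat_lit 0) (.e (nat_lit 7593) (nat_lit 407) .nil)))))) (.g (nat_lit 4) .nil .nil)))))) (.nd (nat_lit 3) (.nd (nat_lit 4) (.nd (nat_lit 5) 
(.lf (nat_lit 201284) (.g (nat_lit 442) (.e (nat_lit 73753) (nat_lit 8) (.e (nat_lit 557070) (nat_lit 9) (.e (nat_lit 7936) (nat_lit 24) .nil))) .nil)) 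
(.lf (nat_lit 201316) (.g (nat_lit 2639) (.e (nat_lit 73753) (nat_lit 8) (.e (nat_lit 557072) (nat_lit 9) (.e (nat_lit 3098) (nat_lit 192) (.e (nat_lit 491571) (nat_lit 13) (.e (nat_lit 393252) (nat_lit 18) (.e (nat_lit 164159) (nat_lit 152) (.e (nat_lit 1208) (nat_lit 89) .nil))))))) (.g (nat_lit 4) .nil .nil)))) (.nd (nat_lit 5) 
(.lf (nat_lit 201300) (.g (nat_lit 1952) (.e (nat_lit 73753) (nat_lit 8) (.e (nat_lit 557072) (nat_lit 9) (.e (nat_lit 3098) (nat_lit 192) (.e (nat_lit 491571) (nat_lit 13) (.e (nat_lit 393251) (nat_lit 18) .nil))))) .nil)) 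
(.lf (nat_lit 201332) (.g (nat_lit 539) (.e (nat_lit 73753) (nat_lit 8) (.e (nat_lit 557085) (nat_lit 11) (.e (nat_lit 24634) (nat_lit 9) .nil))) .nil)))) (.nd (nat_lit 4) (.nd (nat_lit 5) 
(.lf (nat_lit 201292) (.g (nat_lit 1666) (.e (nat_lit 73753) (nat_lit 8) (.e (nat_lit 557070) (nat_lit 9) (.e (nat_lit 7936) (nat_lit 26) (.e (nat_lit 376862) (nat_lit 22) (.e (nat_lit 90133) (nat_lit 9) (.e (nat_lit 2397) (nat_lit 157) (.e (nat_lit 7592) (nat_lit 407) .nil))))))) (.g (nat_lit 4) .nil .nil))) 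
(.lf (nat_lit 201324) (.g (nat_lit 1734) (.e (nat_lit 73753) (nat_lit 8) (.e (nat_lit 557074) (nat_lit 9) (.e (nat_lit 7936) (nat_lit 26) (.e (nat_lit 376862) (nat_lit 22) (.e (nat_lit 90165) (nat_lit 12) (.e (nat_lit 171776) (nat_lit 192) .nil)))))) (.g (nat_lit 4) .nil .nil)))) (.nd (nat_lit 5) 
(.lf (nat_lit 201308) (.g (nat_lit 3832) (.e (nat_lit 73753) (nat_lit 8) (.e (nat_lit 557072) (nat_lit 9) (.e (nat_lit 3098) (nat_lit 192) (.e (nat_lit 491571) (nat_lit 13) (.e (nat_lit 393251) (nat_lit 18) (.e (nat_lit 164153) (nat_lit 152) (.e (nat_lit 1212) (nat_lit 89) .nil))))))) (.g (nat_lit 5) .nil .nil))) 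
(.lf (nat_lit 201340) (.g (nat_lit 2720) (.e (nat_lit 73753) (nat_lit 8) (.e (nat_lit 557086) (nat_lit 11) (.e (nat_lit 24623) (nat_lit 9) (.e (nat_lit 336028) (nat_lit 3) (.e (nat_lit 98325) (nat_lit 17) (.e (nat_lit 7936) (nat_lit 407) .nil)))))) (.g (nat_lit 4) .nil .nil))))))) (.nd (nat_lit 2) (.nd (nat_lit 3) (.nd (nat_lit 4) (.nd (nat_lit 5) 
(.lf (nat_lit 201282) (.g (nat_lit 1893) (.e (nat_lit 73753) (nat_lit 8) (.e (nat_lit 557070) (nat_lit 9) (.e (nat_lit 313) (nat_lit 23) (.e (nat_lit 352313) (nat_lit 23) (.e (nat_lit 98325) (nat_lit 17) (.e (nat_lit 7936) (nat_lit 407) .nil)))))) (.g (nat_lit 5) .nil .nil))) 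
(.lf (nat_lit 201314) (.g (nat_lit 3984) (.e (nat_lit 73753) (nat_lit 8) (.e (nat_lit 557072) (nat_lit 9) (.e (nat_lit 3098) (nat_lit 192) (.e (nat_lit 491571) (nat_lit 13) (.e (nat_lit 393251) (nat_lit 18) (.e (nat_lit 164162) (nat_lit 152) (.e (nat_lit 1209) (nat_lit 89) .nil))))))) (.g (nat_lit 5) .nil .nil)))) (.nd (nat_lit 5) 
(.lf (nat_lit 201298) (.g (nat_lit 1514) (.e (nat_lit 73753) (nat_lit 8) (.e (nat_lit 557072) (nat_lit 9) (.e (nat_lit 7936) (nat_lit 26) (.e (nat_lit 376862) (nat_lit 22) (.e (nat_lit 90133) (nat_lit 9) (.e (nat_lit 2400) (nat_lit 157) (.e (nat_lit 7592) (nat_lit 407) .nil))))))) (.g (nat_lit 4) .nil .nil))) 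
(.lf (nat_lit 201330) (.g (nat_lit 3434) (.e (nat_lit 73753) (nat_lit 8) (.e (nat_lit 557085) (nat_lit 11) (.e (nat_lit 24632) (nat_lit 9) (.e (nat_lit 336013) (nat_lit 2) (.e (nat_lit 90165) (nat_lit 12) (.e (nat_lit 171776) (nat_lit 192) .nil)))))) (.g (nat_lit 5) .nil .nil))))) (.nd (nat_lit 4) (.nd (nat_lit 5) 
(.lf (nat_lit 201290) (.g (nat_lit 1714) (.e (nat_lit 73753) (nat_lit 8) (.e (nat_lit 557070) (nat_lit 9) (.e (nat_lit 333) (nat_lit 26) (.e (nat_lit 376865) (nat_lit 22) (.e (nat_lit 90133) (nat_lit 9) (.e (nat_lit 2397) (nat_lit 157) (.e (nat_lit 7592) (nat_lit 407) .nil))))))) (.g (nat_lit 4) .nil .nil))) 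
(.lf (nat_lit 201322) (.g (nat_lit 519) (.e (nat_lit 73753) (nat_lit 8) (.e (nat_lit 557074) (nat_lit 9) (.e (nat_lit 7936) (nat_lit 26) .nil))) .nil))) (.nd (nat_lit 5) 
(.lf (nat_lit 201306) (.g (nat_lit 3656) (.e (nat_lit 73753) (nat_lit 8) (.e (nat_lit 557072) (nat_lit 9) (.e (nat_lit 3098) (nat_lit 192) (.e (nat_lit 491571) (nat_lit 13) (.e (nat_lit 393251) (nat_lit 18) (.e (nat_lit 164151) (nat_lit 152) (.e (nat_lit 1207) (nat_lit 89) .nil))))))) (.g (nat_lit 5) .nil .nil))) 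
(.lf (nat_lit 201338) (.g (nat_lit 2471) (.e (nat_lit 73753) (nat_lit 8) (.e (nat_lit 557085) (nat_lit 11) (.e (nat_lit 24644) (nat_lit 11) (.e (nat_lit 368676) (nat_lit 21) (.e (nat_lit 516098) (nat_lit 0) (.e (nat_lit 7593) (nat_lit 407) .nil)))))) (.g (nat_lit 4) .nil .nil)))))) (.nd (nat_lit 3) (.nd (nat_lit 4) (.nd (nat_lit 5) 
(.lf (nat_lit 201286) (.g (nat_lit 463) (.e (nat_lit 73753) (nat_lit 8) (.e (nat_lit 557070) (nat_lit 9) (.e (nat_lit 333) (nat_lit 26) .nil))) .nil)) 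
(.lf (nat_lit 201318) (.g (nat_lit 3687) (.e (nat_lit 73753) (nat_lit 8) (.e (nat_lit 557072) (nat_lit 9) (.e (nat_lit 3098) (nat_lit 192) (.e (nat_lit 491571) (nat_lit 13) (.e (nat_lit 393252) (nat_lit 18) (.e (nat_lit 164161) (nat_lit 152) (.e (nat_lit 7936) (nat_lit 89) .nil))))))) (.g (nat_lit 5) .nil .nil)))) (.nd (nat_lit 5) 
(.lf (nat_lit 201302) (.g (nat_lit 3633) (.e (nat_lit 73753) (nat_lit 8) (.e (nat_lit 557072) (nat_lit 9) (.e (nat_lit 3098) (nat_lit 192) (.e (nat_lit 491571) (nat_lit 13) (.e (nat_lit 393251) (nat_lit 18) (.e (nat_lit 164148) (nat_lit 152) (.e (nat_lit 1207) (nat_lit 89) .nil))))))) (.g (nat_lit 5) .nil .nil))) 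
(.lf (nat_lit 201334) (.g (nat_lit 1915) (.e (nat_lit 73753) (nat_lit 8) (.e (nat_lit 557085) (nat_lit 11) (.e (nat_lit 24638) (nat_lit 9) (.e (nat_lit 336004) (nat_lit 2) (.e (nat_lit 90181) (nat_lit 16) .nil))))) .nil)))) (.nd (nat_lit 4) (.nd (nat_lit 5) 
(.lf (nat_lit 201294) (.g (nat_lit 1712) (.e (nat_lit 73753) (nat_lit 8) (.e (nat_lit 557070) (nat_lit 9) (.e (nat_lit 7936) (nat_lit 26) (.e (nat_lit 376865) (nat_lit 22) (.e (nat_lit 90181) (nat_lit 16) (.e (nat_lit 237312) (nat_lit 192) .nil)))))) (.g (nat_lit 4) .nil .nil))) 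
(.lf (nat_lit 201326) (.g (nat_lit 1821) (.e (nat_lit 73753) (nat_lit 8) (.e (nat_lit 557074) (nat_lit 9) (.e (nat_lit 7936) (nat_lit 26) (.e (nat_lit 376865) (nat_lit 22) (.e (nat_lit 90133) (nat_lit 9) (.e (nat_lit 2397) (nat_lit 157) (.e (nat_lit 7592) (nat_lit 407) .nil))))))) (.g (nat_lit 4) .nil .nil)))) (.nd (nat_lit 5) 
(.lf (nat_lit 201310) (.g (nat_lit 3223) (.e (nat_lit 73753) (nat_lit 8) (.e (nat_lit 557072) (nat_lit 9) (.e (nat_lit 3098) (nat_lit 192) (.e (nat_lit 491571) (nat_lit 13) (.e (nat_lit 393251) (nat_lit 18) (.e (nat_lit 164156) (nat_lit 152) (.e (nat_lit 1205) (nat_lit 89) .nil))))))) (.g (nat_lit 5) .nil .nil))) 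
(.lf (nat_lit 201342) (.g (nat_lit 2701) (.e (nat_lit 73753) (nat_lit 8) (.e (nat_lit 557086) (nat_lit 11) (.e (nat_lit 24632) (nat_lit 9) (.e (nat_lit 336028) (nat_lit 3) (.e (nat_lit 98325) (nat_lit 17) (.e (nat_lit 7936) (nat_lit 407) .nil)))))) (.g (nat_lit 5) .nil .nil)))))))) (.nd (nat_lit 1) (.nd (nat_lit 2) (.nd (nat_lit 3) (.nd (nat_lit 4) (.nd (nat_lit 5) 
(.lf (nat_lit 201281) (.g (nat_lit 2316) (.e (nat_lit 73753) (nat_lit 8) (.e (nat_lit 557070) (nat_lit 9) (.e (nat_lit 313) (nat_lit 23) (.e (nat_lit 352312) (nat_lit 22) (.e (nat_lit 90133) (nat_lit 9) (.e (nat_lit 2400) (nat_lit 157) (.e (nat_lit 7592) (nat_lit 407) .nil))))))) (.g (nat_lit 5) .nil .nil))) 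
(.lf (nat_lit 201313) (.g (nat_lit 3272) (.e (nat_lit 73753) (nat_lit 8) (.e (nat_lit 557072) (nat_lit 9) (.e (nat_lit 3098) (nat_lit 192) (.e (nat_lit 491571) (nat_lit 13) (.e (nat_lit 393251) (nat_lit 18) (.e (nat_lit 164161) (nat_lit 152) (.e (nat_lit 7936) (nat_lit 89) .nil))))))) (.g (nat_lit 5) .nil .nil)))) (.nd (nat_lit 5) 
(.lf (nat_lit 201297) (.g (nat_lit 1776) (.e (nat_lit 73753) (nat_lit 8) (.e (nat_lit 557072) (nat_lit 9) (.e (nat_lit 7936) (nat_lit 26) (.e (nat_lit 376862) (nat_lit 22) (.e (nat_lit 90133) (nat_lit 9) (.e (nat_lit 2397) (nat_lit 157) (.e (nat_lit 7592) (nat_lit 407) .nil))))))) (.g (nat_lit 4) .nil .nil))) 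
(.lf (nat_lit 201329) (.g (nat_lit 3362) (.e (nat_lit 73753) (nat_lit 8) (.e (nat_lit 557085) (nat_lit 11) (.e (nat_lit 24623) (nat_lit 9) (.e (nat_lit 336028) (nat_lit 3) (.e (nat_lit 98325) (nat_lit 17) (.e (nat_lit 7936) (nat_lit 407) .nil)))))) (.g (nat_lit 5) .nil .nil))))) (.nd (nat_lit 4) (.nd (nat_lit 5) 
(.lf (nat_lit 201289) (.g (nat_lit 1870) (.e (nat_lit 73753) (nat_lit 8) (.e (nat_lit 557070) (nat_lit 9) (.e (nat_lit 333) (nat_lit 26) (.e (nat_lit 376862) (nat_lit 22) (.e (nat_lit 90181) (nat_lit 16) (.e (nat_lit 237312) (nat_lit 192) .nil)))))) (.g (nat_lit 4) .nil .nil))) 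
(.lf (nat_lit 201321) (.g (nat_lit 1359) (.e (nat_lit 73753) (nat_lit 8) (.e (nat_lit 557073) (nat_lit 9) (.e (nat_lit 7936) (nat_lit 26) (.e (nat_lit 376865) (nat_lit 22) (.e (nat_lit 90133) (nat_lit 9) (.e (nat_lit 2397) (nat_lit 157) (.e (nat_lit 7592) (nat_lit 407) .nil))))))) (.g (nat_lit 4) .nil .nil)))) (.nd (nat_lit 5) 
(.lf (nat_lit 201305) (.g (nat_lit 3365) (.e (nat_lit 73753) (nat_lit 8) (.e (nat_lit 557072) (nat_lit 9) (.e (nat_lit 3098) (nat_lit 192) (.e (nat_lit 491571) (nat_lit 13) (.e (nat_lit 393251) (nat_lit 18) (.e (nat_lit 164150) (nat_lit 152) (.e (nat_lit 1207) (nat_lit 89) .nil))))))) (.g (nat_lit 5) .nil .nil))) 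
(.lf (nat_lit 201337) (.g (nat_lit 3491) (.e (nat_lit 73753) (nat_lit 8) (.e (nat_lit 557085) (nat_lit 11) (.e (nat_lit 24640) (nat_lit 10) (.e (nat_lit 344117) (nat_lit 21) (.e (nat_lit 516098) (nat_lit 0) (.e (nat_lit 7593) (nat_lit 407) .nil)))))) (.g (nat_lit 4) .nil .nil)))))) (.nd (nat_lit 3) (.nd (nat_lit 4) (.nd (nat_lit 5) 
(.lf (nat_lit 201285) (.g (nat_lit 552) (.e (nat_lit 73753) (nat_lit 8) (.e (nat_lit 557070) (nat_lit 9) (.e (nat_lit 331) (nat_lit 26) .nil))) .nil)) 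
(.lf (nat_lit 201317) (.g (nat_lit 3871) (.e (nat_lit 73753) (nat_lit 8) (.e (nat_lit 557072) (nat_lit 9) (.e (nat_lit 3098) (nat_lit 192) (.e (nat_lit 491571) (nat_lit 13) (.e (nat_lit 393252) (nat_lit 18) (.e (nat_lit 164161) (nat_lit 152) (.e (nat_lit 1208) (nat_lit 89) .nil))))))) (.g (nat_lit 5) .nil .nil)))) (.nd (nat_lit 5) 
(.lf (nat_lit 201301) (.g (nat_lit 2921) (.e (nat_lit 73753) (nat_lit 8) (.e (nat_lit 557072) (nat_lit 9) (.e (nat_lit 3098) (nat_lit 192) (.e (nat_lit 491571) (nat_lit 13) (.e (nat_lit 393251) (nat_lit 18) (.e (nat_lit 164148) (nat_lit 152) (.e (nat_lit 1206) (nat_lit 89) .nil))))))) (.g (nat_lit 4) .nil .nil))) 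
(.lf (nat_lit 201333) (.g (nat_lit 539) (.e (nat_lit 73753) (nat_lit 8) (.e (nat_lit 557085) (nat_lit 11) (.e (nat_lit 24637) (nat_lit 9) .nil))) .nil)))) (.nd (nat_lit 4) (.nd (nat_lit 5) 
(.lf (nat_lit 201293) (.g (nat_lit 1541) (.e (nat_lit 73753) (nat_lit 8) (.e (nat_lit 557070) (nat_lit 9) (.e (nat_lit 7936) (nat_lit 26) (.e (nat_lit 376865) (nat_lit 22) (.e (nat_lit 90133) (nat_lit 9) (.e (nat_lit 2397) (nat_lit 157) (.e (nat_lit 7592) (nat_lit 407) .nil))))))) (.g (nat_lit 4) .nil .nil))) 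
(.lf (nat_lit 201325) (.g (nat_lit 1767) (.e (nat_lit 73753) (nat_lit 8) (.e (nat_lit 557074) (nat_lit 9) (.e (nat_lit 7936) (nat_lit 26) (.e (nat_lit 376862) (nat_lit 22) (.e (nat_lit 90181) (nat_lit 16) (.e (nat_lit 237312) (nat_lit 192) .nil)))))) (.g (nat_lit 4) .nil .nil)))) (.nd (nat_lit 5) 
(.lf (nat_lit 201309) (.g (nat_lit 3093) (.e (nat_lit 73753) (nat_lit 8) (.e (nat_lit 557072) (nat_lit 9) (.e (nat_lit 3098) (nat_lit 192) (.e (nat_lit 491571) (nat_lit 13) (.e (nat_lit 393251) (nat_lit 18) (.e (nat_lit 164155) (nat_lit 152) (.e (nat_lit 1212) (nat_lit 89) .nil))))))) (.g (nat_lit 4) .nil .nil))) 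
(.lf (nat_lit 201341) (.g (nat_lit 3228) (.e (nat_lit 73753) (nat_lit 8) (.e (nat_lit 557086) (nat_lit 11) (.e (nat_lit 24632) (nat_lit 9) (.e (nat_lit 336013) (nat_lit 2) (.e (nat_lit 90165) (nat_lit 12) (.e (nat_lit 171776) (nat_lit 192) .nil)))))) (.g (nat_lit 5) .nil .nil))))))) (.nd (nat_lit 2) (.nd (nat_lit 3) (.nd (nat_lit 4) (.nd (nat_lit 5) 
(.lf (nat_lit 201283) (.g (nat_lit 2351) (.e (nat_lit 73753) (nat_lit 8) (.e (nat_lit 557070) (nat_lit 9) (.e (nat_lit 313) (nat_lit 23) (.e (nat_lit 352315) (nat_lit 23) (.e (nat_lit 98325) (nat_lit 17) (.e (nat_lit 7936) (nat_lit 407) .nil)))))) (.g (nat_lit 5) .nil .nil))) 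
(.lf (nat_lit 201315) (.g (nat_lit 2972) (.e (nat_lit 73753) (nat_lit 8) (.e (nat_lit 557072) (nat_lit 9) (.e (nat_lit 3098) (nat_lit 192) (.e (nat_lit 491571) (nat_lit 13) (.e (nat_lit 393251) (nat_lit 18) (.e (nat_lit 164163) (nat_lit 152) (.e (nat_lit 1209) (nat_lit 89) .nil))))))) (.g (nat_lit 4) .nil .nil)))) (.nd (nat_lit 5) 
(.lf (nat_lit 201299) (.g (nat_lit 1587) (.e (nat_lit 73753) (nat_lit 8) (.e (nat_lit 557072) (nat_lit 9) (.e (nat_lit 7936) (nat_lit 26) (.e (nat_lit 376865) (nat_lit 22) (.e (nat_lit 90133) (nat_lit 9) (.e (nat_lit 2397) (nat_lit 157) (.e (nat_lit 7592) (nat_lit 407) .nil))))))) (.g (nat_lit 4) .nil .nil))) 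
(.lf (nat_lit 201331) (.g (nat_lit 2691) (.e (nat_lit 73753) (nat_lit 8) (.e (nat_lit 557085) (nat_lit 11) (.e (nat_lit 24632) (nat_lit 9) (.e (nat_lit 336028) (nat_lit 3) (.e (nat_lit 98325) (nat_lit 17) (.e (nat_lit 7936) (nat_lit 407) .nil)))))) (.g (nat_lit 4) .nil .nil))))) (.nd (nat_lit 4) (.nd (nat_lit 5) 
(.lf (nat_lit 201291) (.g (nat_lit 1642) (.e (nat_lit 73753) (nat_lit 8) (.e (nat_lit 557070) (nat_lit 9) (.e (nat_lit 333) (nat_lit 26) (.e (nat_lit 376865) (nat_lit 22) (.e (nat_lit 90165) (nat_lit 12) (.e (nat_lit 171776) (nat_lit 192) .nil)))))) (.g (nat_lit 4) .nil .nil))) 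
(.lf (nat_lit 201323) (.g (nat_lit 1946) (.e (nat_lit 73753) (nat_lit 8) (.e (nat_lit 557074) (nat_lit 9) (.e (nat_lit 7936) (nat_lit 26) (.e (nat_lit 376862) (nat_lit 22) (.e (nat_lit 90133) (nat_lit 9) (.e (nat_lit 2397) (nat_lit 157) (.e (nat_lit 7592) (nat_lit 407) .nil))))))) (.g (nat_lit 4) .nil .nil)))) (.nd (nat_lit 5) 
(.lf (nat_lit 201307) (.g (nat_lit 3091) (.e (nat_lit 73753) (nat_lit 8) (.e (nat_lit 557072) (nat_lit 9) (.e (nat_lit 3098) (nat_lit 192) (.e (nat_lit 491571) (nat_lit 13) (.e (nat_lit 393251) (nat_lit 18) (.e (nat_lit 164153) (nat_lit 152) (.e (nat_lit 1208) (nat_lit 89) .nil))))))) (.g (nat_lit 4) .nil .nil))) 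
(.lf (nat_lit 201339) (.g (nat_lit 2942) (.e (nat_lit 73753) (nat_lit 8) (.e (nat_lit 557086) (nat_lit 11) (.e (nat_lit 24623) (nat_lit 9) (.e (nat_lit 336013) (nat_lit 2) (.e (nat_lit 90165) (nat_lit 12) (.e (nat_lit 171776) (nat_lit 192) .nil)))))) (.g (nat_lit 5) .nil .nil)))))) (.nd (nat_lit 3) (.nd (nat_lit 4) (.nd (nat_lit 5) 
(.lf (nat_lit 201287) (.g (nat_lit 1953) (.e (nat_lit 73753) (nat_lit 8) (.e (nat_lit 557070) (nat_lit 9) (.e (nat_lit 333) (nat_lit 26) (.e (nat_lit 376862) (nat_lit 22) (.e (nat_lit 90133) (nat_lit 9) (.e (nat_lit 2397) (nat_lit 157) (.e (nat_lit 7592) (nat_lit 407) .nil))))))) (.g (nat_lit 4) .nil .nil))) 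
(.lf (nat_lit 201319) (.g (nat_lit 2551) (.e (nat_lit 73753) (nat_lit 8) (.e (nat_lit 557072) (nat_lit 9) (.e (nat_lit 3098) (nat_lit 192) (.e (nat_lit 491571) (nat_lit 13) (.e (nat_lit 393252) (nat_lit 18) (.e (nat_lit 164165) (nat_lit 152) (.e (nat_lit 1208) (nat_lit 89) .nil))))))) (.g (nat_lit 4) .nil .nil)))) (.nd (nat_lit 5) 
(.lf (nat_lit 201303) (.g (nat_lit 2752) (.e (nat_lit 73753) (nat_lit 8) (.e (nat_lit 557072) (nat_lit 9) (.e (nat_lit 3098) (nat_lit 192) (.e (nat_lit 491571) (nat_lit 13) (.e (nat_lit 393251) (nat_lit 18) (.e (nat_lit 164148) (nat_lit 152) (.e (nat_lit 1208) (nat_lit 89) .nil))))))) (.g (nat_lit 4) .nil .nil))) 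
(.lf (nat_lit 201335) (.g (nat_lit 2746) (.e (nat_lit 73753) (nat_lit 8) (.e (nat_lit 557085) (nat_lit 11) (.e (nat_lit 24638) (nat_lit 9) (.e (nat_lit 336012) (nat_lit 2) (.e (nat_lit 90181) (nat_lit 16) (.e (nat_lit 237312) (nat_lit 192) .nil)))))) (.g (nat_lit 4) .nil .nil))))) (.nd (nat_lit 4) (.nd (nat_lit 5) 
(.lf (nat_lit 201295) (.g (nat_lit 534) (.e (nat_lit 73753) (nat_lit 8) (.e (nat_lit 557072) (nat_lit 9) (.e (nat_lit 272) (nat_lit 21) (.e (nat_lit 336165) (nat_lit 10) .nil)))) .nil)) 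
(.lf (nat_lit 201327) (.g (nat_lit 1739) (.e (nat_lit 73753) (nat_lit 8) (.e (nat_lit 557074) (nat_lit 9) (.e (nat_lit 7936) (nat_lit 26) (.e (nat_lit 376865) (nat_lit 22) (.e (nat_lit 90165) (nat_lit 12) (.e (nat_lit 171776) (nat_lit 192) .nil)))))) (.g (nat_lit 4) .nil .nil)))) (.nd (nat_lit 5) 
(.lf (nat_lit 201311) (.g (nat_lit 2675) (.e (nat_lit 73753) (nat_lit 8) (.e (nat_lit 557072) (nat_lit 9) (.e (nat_lit 3098) (nat_lit 192) (.e (nat_lit 491571) (nat_lit 13) (.e (nat_lit 393251) (nat_lit 18) (.e (nat_lit 164160) (nat_lit 152) (.e (nat_lit 7936) (nat_lit 89) .nil))))))) (.g (nat_lit 4) .nil .nil))) 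
(.lf (nat_lit 201343) (.g (nat_lit 1874) (.e (nat_lit 73753) (nat_lit 8) (.e (nat_lit 557086) (nat_lit 11) (.e (nat_lit 24638) (nat_lit 9) (.e (nat_lit 336003) (nat_lit 2) (.e (nat_lit 90181) (nat_lit 16) (.e (nat_lit 237312) (nat_lit 192) .nil)))))) (.g (nat_lit 4) .nil .nil)))))))))

noncomputable def tv2657 : DT := (.nd (nat_lit 0) (.nd (nat_lit 1) (.nd (nat_lit 2) (.nd (nat_lit 3) (.nd (nat_lit 4) (.nd (nat_lit 5) 
(.lf (nat_lit 201344) (.g (nat_lit 2152) (.e (nat_lit 73753) (nat_lit 8) (.e (nat_lit 557086) (nat_lit 11) (.e (nat_lit 24638) (nat_lit 9) (.e (nat_lit 336004) (nat_lit 2) (.e (nat_lit 90181) (nat_lit 16) (.e (nat_lit 237312) (nat_lit 192) .nil)))))) (.g (nat_lit 4) .nil .nil))) 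
(.lf (nat_lit 201376) (.g (nat_lit 2760) (.e (nat_lit 73753) (nat_lit 8) (.e (nat_lit 557087) (nat_lit 11) (.e (nat_lit 24636) (nat_lit 9) (.e (nat_lit 336017) (nat_lit 3) (.e (nat_lit 98320) (nat_lit 17) (.e (nat_lit 7591) (nat_lit 407) .nil)))))) (.g (nat_lit 0) .nil .nil)))) (.nd (nat_lit 5) 
(.lf (nat_lit 201360) (.g (nat_lit 1902) (.e (nat_lit 73753) (nat_lit 8) (.e (nat_lit 557087) (nat_lit 11) (.e (nat_lit 24625) (nat_lit 9) (.e (nat_lit 336019) (nat_lit 3) (.e (nat_lit 98321) (nat_lit 17) .nil))))) .nil)) 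
(.lf (nat_lit 201392) (.g (nat_lit 2321) (.e (nat_lit 73753) (nat_lit 8) (.e (nat_lit 557087) (nat_lit 11) (.e (nat_lit 24640) (nat_lit 10) (.e (nat_lit 344108) (nat_lit 19) .nil)))) .nil)))) (.nd (nat_lit 4) (.nd (nat_lit 5) 
(.lf (nat_lit 201352) (.g (nat_lit 2482) (.e (nat_lit 73753) (nat_lit 8) (.e (nat_lit 557087) (nat_lit 11) (.e (nat_lit 24617) (nat_lit 7) (.e (nat_lit 319505) (nat_lit 10) .nil)))) .nil)) 
(.lf (nat_lit 201384) (.g (nat_lit 2559) (.e (nat_lit 73753) (nat_lit 8) (.e (nat_lit 557087) (nat_lit 11) (.e (nat_lit 24638) (nat_lit 9) (.e (nat_lit 336004) (nat_lit 2) (.e (nat_lit 90181) (nat_lit 16) (.e (nat_lit 237312) (nat_lit 192) .nil)))))) (.g (nat_lit 5) .nil .nil)))) (.nd (nat_lit 5) 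
(.lf (nat_lit 201368) (.g (nat_lit 1147) (.e (nat_lit 73753) (nat_lit 8) (.e (nat_lit 557087) (nat_lit 11) (.e (nat_lit 24631) (nat_lit 9) (.e (nat_lit 336023) (nat_lit 3) .nil)))) .nil)) 
(.lf (nat_lit 201400) (.g (nat_lit 4373) (.e (nat_lit 73753) (nat_lit 8) (.e (nat_lit 557087) (nat_lit 11) (.e (nat_lit 24640) (nat_lit 10) (.e (nat_lit 344117) (nat_lit 21) (.e (nat_lit 516097) (nat_lit 0) (.e (nat_lit 7593) (nat_lit 407) .nil)))))) (.g (nat_lit 0) .nil .nil)))))) (.nd (nat_lit 3) (.nd (nat_lit 4) (.nd (nat_lit 5) 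
(.lf (nat_lit 201348) (.g (nat_lit 3401) (.e (nat_lit 73753) (nat_lit 8) (.e (nat_lit 557087) (nat_lit 11) (.e (nat_lit 24584) (nat_lit 0) (.e (nat_lit 6490) (nat_lit 343) (.e (nat_lit 1235) (nat_lit 91) (.e (nat_lit 90165) (nat_lit 12) (.e (nat_lit 171776) (nat_lit 192) .nil))))))) (.g (nat_lit 5) .nil .nil))) 
(.lf (nat_lit 201380) (.g (nat_lit 2906) (.e (nat_lit 73753) (nat_lit 8) (.e (nat_lit 557087) (nat_lit 11) (.e (nat_lit 24637) (nat_lit 9) (.e (nat_lit 336012) (nat_lit 2) (.e (nat_lit 90181) (nat_lit 16) (.e (nat_lit 237312) (nat_lit 192) .nil)))))) (.g (nat_lit 5) .nil .nil)))) (.nd (nat_lit 5) 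
(.lf (nat_lit 201364) (.g (nat_lit 1926) (.e (nat_lit 73753) (nat_lit 8) (.e (nat_lit 557087) (nat_lit 11) (.e (nat_lit 24631) (nat_lit 9) (.e (nat_lit 336001) (nat_lit 2) (.e (nat_lit 90165) (nat_lit 12) (.e (nat_lit 171776) (nat_lit 192) .nil)))))) (.g (nat_lit 5) .nil .nil))) 
(.lf (nat_lit 201396) (.g (nat_lit 1284) (.e (nat_lit 73753) (nat_lit 8) (.e (nat_lit 557087) (nat_lit 11) (.e (nat_lit 24640) (nat_lit 10) (.e (nat_lit 344115) (nat_lit 20) .nil)))) .nil)))) (.nd (nat_lit 4) (.nd (nat_lit 5) 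
(.lf (nat_lit 201356) (.g (nat_lit 3096) (.e (nat_lit 73753) (nat_lit 8) (.e (nat_lit 557087) (nat_lit 11) (.e (nat_lit 24623) (nat_lit 9) (.e (nat_lit 336028) (nat_lit 3) (.e (nat_lit 98325) (nat_lit 17) (.e (nat_lit 7936) (nat_lit 407) .nil)))))) (.g (nat_lit 5) .nil .nil))) 
(.lf (nat_lit 201388) (.g (nat_lit 1970) (.e (nat_lit 73753) (nat_lit 8) (.e (nat_lit 557087) (nat_lit 11) (.e (nat_lit 24639) (nat_lit 10) (.e (nat_lit 344115) (nat_lit 20) (.e (nat_lit 507906) (nat_lit 0) (.e (nat_lit 7936) (nat_lit 303) .nil)))))) (.g (nat_lit 4) .nil .nil)))) (.nd (nat_lit 5) 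
(.lf (nat_lit 201372) (.g (nat_lit 1056) (.e (nat_lit 73753) (nat_lit 8) (.e (nat_lit 557087) (nat_lit 11) (.e (nat_lit 24634) (nat_lit 9) (.e (nat_lit 336008) (nat_lit 2) .nil)))) .nil)) 
(.lf (nat_lit 201404) (.g (nat_lit 4110) (.e (nat_lit 73753) (nat_lit 8) (.e (nat_lit 557087) (nat_lit 11) (.e (nat_lit 24640) (nat_lit 10) (.e (nat_lit 344117) (nat_lit 21) (.e (nat_lit 516106) (nat_lit 0) (.e (nat_lit 7936) (nat_lit 407) .nil)))))) (.g (nat_lit 5) .nil .nil))))))) (.nd (nat_lit 2) (.nd (nat_lit 3) (.nd (nat_lit 4) (.nd (nat_lit 5) 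
(.lf (nat_lit 201346) (.g (nat_lit 2424) (.e (nat_lit 73753) (nat_lit 8) (.e (nat_lit 557086) (nat_lit 11) (.e (nat_lit 24638) (nat_lit 9) (.e (nat_lit 336021) (nat_lit 3) (.e (nat_lit 98320) (nat_lit 17) (.e (nat_lit 7591) (nat_lit 407) .nil)))))) (.g (nat_lit 4) .nil .nil))) 
(.lf (nat_lit 201378) (.g (nat_lit 477) (.e (nat_lit 73753) (nat_lit 8) (.e (nat_lit 557087) (nat_lit 11) (.e (nat_lit 24637) (nat_lit 9) .nil))) .nil))) (.nd (nat_lit 5) 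
(.lf (nat_lit 201362) (.g (nat_lit 2586) (.e (nat_lit 73753) (nat_lit 8) (.e (nat_lit 557087) (nat_lit 11) (.e (nat_lit 24628) (nat_lit 9) (.e (nat_lit 336019) (nat_lit 3) (.e (nat_lit 98321) (nat_lit 17) (.e (nat_lit 7936) (nat_lit 407) .nil)))))) (.g (nat_lit 4) .nil .nil))) 
(.lf (nat_lit 201394) (.g (nat_lit 2149) (.e (nat_lit 73753) (nat_lit 8) (.e (nat_lit 557087) (nat_lit 11) (.e (nat_lit 24640) (nat_lit 10) (.e (nat_lit 344111) (nat_lit 19) .nil)))) .nil)))) (.nd (nat_lit 4) (.nd (nat_lit 5) 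
(.lf (nat_lit 201354) (.g (nat_lit 2238) (.e (nat_lit 73753) (nat_lit 8) (.e (nat_lit 557087) (nat_lit 11) (.e (nat_lit 24617) (nat_lit 7) (.e (nat_lit 319519) (nat_lit 12) .nil)))) .nil)) 
(.lf (nat_lit 201386) (.g (nat_lit 2617) (.e (nat_lit 73753) (nat_lit 8) (.e (nat_lit 557087) (nat_lit 11) (.e (nat_lit 24638) (nat_lit 9) (.e (nat_lit 336011) (nat_lit 2) (.e (nat_lit 90165) (nat_lit 12) (.e (nat_lit 171776) (nat_lit 192) .nil)))))) (.g (nat_lit 4) .nil .nil)))) (.nd (nat_lit 5) 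
(.lf (nat_lit 201370) (.g (nat_lit 2859) (.e (nat_lit 73753) (nat_lit 8) (.e (nat_lit 557087) (nat_lit 11) (.e (nat_lit 24632) (nat_lit 9) (.e (nat_lit 336028) (nat_lit 3) (.e (nat_lit 98325) (nat_lit 17) (.e (nat_lit 7936) (nat_lit 407) .nil)))))) (.g (nat_lit 5) .nil .nil))) 
(.lf (nat_lit 201402) (.g (nat_lit 3481) (.e (nat_lit 73753) (nat_lit 8) (.e (nat_lit 557087) (nat_lit 11) (.e (nat_lit 24640) (nat_lit 10) (.e (nat_lit 344117) (nat_lit 21) (.e (nat_lit 516099) (nat_lit 0) (.e (nat_lit 7936) (nat_lit 407) .nil)))))) (.g (nat_lit 5) .nil .nil)))))) (.nd (nat_lit 3) (.nd (nat_lit 4) (.nd (nat_lit 5) 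
(.lf (nat_lit 201350) (.g (nat_lit 1840) (.e (nat_lit 73753) (nat_lit 8) (.e (nat_lit 557087) (nat_lit 11) (.e (nat_lit 24617) (nat_lit 7) (.e (nat_lit 319504) (nat_lit 10) .nil)))) .nil)) 
(.lf (nat_lit 201382) (.g (nat_lit 1619) (.e (nat_lit 73753) (nat_lit 8) (.e (nat_lit 557087) (nat_lit 11) (.e (nat_lit 24638) (nat_lit 9) (.e (nat_lit 336002) (nat_lit 2) .nil)))) .nil))) (.nd (nat_lit 5) 
(.lf (nat_lit 201366) (.g (nat_lit 2024) (.e (nat_lit 73753) (nat_lit 8) (.e (nat_lit 557087) (nat_lit 11) (.e (nat_lit 24631) (nat_lit 9) (.e (nat_lit 336020) (nat_lit 3) (.e (nat_lit 98323) (nat_lit 17) (.e (nat_lit 7936) (nat_lit 407) .nil)))))) (.g (nat_lit 5) .nil .nil))) 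
(.lf (nat_lit 201398) (.g (nat_lit 2692) (.e (nat_lit 73753) (nat_lit 8) (.e (nat_lit 557087) (nat_lit 11) (.e (nat_lit 24640) (nat_lit 10) (.e (nat_lit 344115) (nat_lit 20) (.e (nat_lit 507907) (nat_lit 0) (.e (nat_lit 5413) (nat_lit 303) .nil)))))) (.g (nat_lit 4) .nil .nil))))) (.nd (nat_lit 4) (.nd (nat_lit 5) 
(.lf (nat_lit 201358) (.g (nat_lit 1868) (.e (nat_lit 73753) (nat_lit 8) (.e (nat_lit 557087) (nat_lit 11) (.e (nat_lit 24625) (nat_lit 9) (.e (nat_lit 335969) (nat_lit 0) (.e (nat_lit 1788) (nat_lit 119) .nil))))) .nil)) 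
(.lf (nat_lit 201390) (.g (nat_lit 3243) (.e (nat_lit 73753) (nat_lit 8) (.e (nat_lit 557087) (nat_lit 11) (.e (nat_lit 24639) (nat_lit 10) (.e (nat_lit 344117) (nat_lit 21) (.e (nat_lit 516106) (nat_lit 0) (.e (nat_lit 7936) (nat_lit 407) .nil)))))) (.g (nat_lit 5) .nil .nil)))) (.nd (nat_lit 5) 
(.lf (nat_lit 201374) (.g (nat_lit 2771) (.e (nat_lit 73753) (nat_lit 8) (.e (nat_lit 557087) (nat_lit 11) (.e (nat_lit 24634) (nat_lit 9) (.e (nat_lit 336028) (nat_lit 3) (.e (nat_lit 98325) (nat_lit 17) (.e (nat_lit 7936) (nat_lit 407) .nil)))))) (.g (nat_lit 5) .nil .nil))) 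
(.lf (nat_lit 201406) (.g (nat_lit 2013) (.e (nat_lit 73753) (nat_lit 8) (.e (nat_lit 557087) (nat_lit 11) (.e (nat_lit 24640) (nat_lit 10) (.e (nat_lit 344120) (nat_lit 21) .nil)))) .nil))))))) (.nd (nat_lit 1) (.nd (nat_lit 2) (.nd (nat_lit 3) (.nd (nat_lit 4) (.nd (nat_lit 5) 
(.lf (nat_lit 201345) (.g (nat_lit 2967) (.e (nat_lit 73753) (nat_lit 8) (.e (nat_lit 557086) (nat_lit 11) (.e (nat_lit 24638) (nat_lit 9) (.e (nat_lit 336012) (nat_lit 2) (.e (nat_lit 90181) (nat_lit 16) (.e (nat_lit 237312) (nat_lit 192) .nil)))))) (.g (nat_lit 5) .nil .nil))) 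
(.lf (nat_lit 201377) (.g (nat_lit 1932) (.e (nat_lit 73753) (nat_lit 8) (.e (nat_lit 557087) (nat_lit 11) (.e (nat_lit 24636) (nat_lit 9) (.e (nat_lit 336017) (nat_lit 3) (.e (nat_lit 98323) (nat_lit 17) (.e (nat_lit 7936) (nat_lit 407) .nil)))))) (.g (nat_lit 4) .nil .nil)))) (.nd (nat_lit 5) 
(.lf (nat_lit 201361) (.g (nat_lit 2405) (.e (nat_lit 73753) (nat_lit 8) (.e (nat_lit 557087) (nat_lit 11) (.e (nat_lit 24628) (nat_lit 9) (.e (nat_lit 336016) (nat_lit 2) (.e (nat_lit 90133) (nat_lit 9) .nil))))) .nil)) 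
(.lf (nat_lit 201393) (.g (nat_lit 2321) (.e (nat_lit 73753) (nat_lit 8) (.e (nat_lit 557087) (nat_lit 11) (.e (nat_lit 24640) (nat_lit 10) (.e (nat_lit 344109) (nat_lit 19) .nil)))) .nil)))) (.nd (nat_lit 4) (.nd (nat_lit 5) 
(.lf (nat_lit 201353) (.g (nat_lit 3862) (.e (nat_lit 73753) (nat_lit 8) (.e (nat_lit 557087) (nat_lit 11) (.e (nat_lit 24617) (nat_lit 7) (.e (nat_lit 319505) (nat_lit 10) (.e (nat_lit 7936) (nat_lit 45) (.e (nat_lit 532490) (nat_lit 0) (.e (nat_lit 7936) (nat_lit 348) .nil))))))) (.g (nat_lit 4) .nil .nil))) 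
(.lf (nat_lit 201385) (.g (nat_lit 1697) (.e (nat_lit 73753) (nat_lit 8) (.e (nat_lit 557087) (nat_lit 11) (.e (nat_lit 24638) (nat_lit 9) (.e (nat_lit 336010) (nat_lit 2) .nil)))) .nil))) (.nd (nat_lit 5) 
(.lf (nat_lit 201369) (.g (nat_lit 3639) (.e (nat_lit 73753) (nat_lit 8) (.e (nat_lit 557087) (nat_lit 11) (.e (nat_lit 24632) (nat_lit 9) (.e (nat_lit 336013) (nat_lit 2) (.e (nat_lit 90165) (nat_lit 12) (.e (nat_lit 171776) (nat_lit 192) .nil)))))) (.g (nat_lit 5) .nil .nil))) 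
(.lf (nat_lit 201401) (.g (nat_lit 3950) (.e (nat_lit 73753) (nat_lit 8) (.e (nat_lit 557087) (nat_lit 11) (.e (nat_lit 24640) (nat_lit 10) (.e (nat_lit 344117) (nat_lit 21) (.e (nat_lit 516098) (nat_lit 0) (.e (nat_lit 7591) (nat_lit 407) .nil)))))) (.g (nat_lit 0) .nil .nil)))))) (.nd (nat_lit 3) (.nd (nat_lit 4) (.nd (nat_lit 5) 
(.lf (nat_lit 201349) (.g (nat_lit 3522) (.e (nat_lit 73753) (nat_lit 8) (.e (nat_lit 557087) (nat_lit 11) (.e (nat_lit 24617) (nat_lit 7) (.e (nat_lit 319494) (nat_lit 0) .nil)))) .nil)) 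
(.lf (nat_lit 201381) (.g (nat_lit 437) (.e (nat_lit 73753) (nat_lit 8) (.e (nat_lit 557087) (nat_lit 11) (.e (nat_lit 24638) (nat_lit 9) .nil))) .nil))) (.nd (nat_lit 5) 
(.lf (nat_lit 201365) (.g (nat_lit 1868) (.e (nat_lit 73753) (nat_lit 8) (.e (nat_lit 557087) (nat_lit 11) (.e (nat_lit 24631) (nat_lit 9) (.e (nat_lit 336008) (nat_lit 2) (.e (nat_lit 90165) (nat_lit 12) (.e (nat_lit 171776) (nat_lit 192) .nil)))))) (.g (nat_lit 5) .nil .nil))) 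
(.lf (nat_lit 201397) (.g (nat_lit 2239) (.e (nat_lit 73753) (nat_lit 8) (.e (nat_lit 557087) (nat_lit 11) (.e (nat_lit 24640) (nat_lit 10) (.e (nat_lit 344115) (nat_lit 20) (.e (nat_lit 507906) (nat_lit 0) (.e (nat_lit 7936) (nat_lit 303) .nil)))))) (.g (nat_lit 4) .nil .nil))))) (.nd (nat_lit 4) (.nd (nat_lit 5) 
(.lf (nat_lit 201357) (.g (nat_lit 1378) (.e (nat_lit 73753) (nat_lit 8) (.e (nat_lit 557087) (nat_lit 11) (.e (nat_lit 24625) (nat_lit 9) (.e (nat_lit 335880) (nat_lit 0) .nil)))) .nil)) 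
(.lf (nat_lit 201389) (.g (nat_lit 3216) (.e (nat_lit 73753) (nat_lit 8) (.e (nat_lit 557087) (nat_lit 11) (.e (nat_lit 24639) (nat_lit 10) (.e (nat_lit 344117) (nat_lit 21) (.e (nat_lit 516098) (nat_lit 0) (.e (nat_lit 7591) (nat_lit 407) .nil)))))) (.g (nat_lit 0) .nil .nil)))) (.nd (nat_lit 5) 
(.lf (nat_lit 201373) (.g (nat_lit 3204) (.e (nat_lit 73753) (nat_lit 8) (.e (nat_lit 557087) (nat_lit 11) (.e (nat_lit 24634) (nat_lit 9) (.e (nat_lit 336013) (nat_lit 2) (.e (nat_lit 90165) (nat_lit 12) (.e (nat_lit 171776) (nat_lit 192) .nil)))))) (.g (nat_lit 5) .nil .nil))) 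
(.lf (nat_lit 201405) (.g (nat_lit 2320) (.e (nat_lit 73753) (nat_lit 8) (.e (nat_lit 557087) (nat_lit 11) (.e (nat_lit 24640) (nat_lit 10) (.e (nat_lit 344118) (nat_lit 21) .nil)))) .nil)))))) (.nd (nat_lit 2) (.nd (nat_lit 3) (.nd (nat_lit 4) (.nd (nat_lit 5) 
(.lf (nat_lit 201347) (.g (nat_lit 1730) (.e (nat_lit 73753) (nat_lit 8) (.e (nat_lit 557087) (nat_lit 11) (.e (nat_lit 24580) (nat_lit 0) (.e (nat_lit 6513) (nat_lit 346) .nil)))) .nil)) 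
(.lf (nat_lit 201379) (.g (nat_lit 1858) (.e (nat_lit 73753) (nat_lit 8) (.e (nat_lit 557087) (nat_lit 11) (.e (nat_lit 24637) (nat_lit 9) (.e (nat_lit 336011) (nat_lit 2) (.e (nat_lit 90165) (nat_lit 12) (.e (nat_lit 171776) (nat_lit 192) .nil)))))) (.g (nat_lit 4) .nil .nil)))) (.nd (nat_lit 5) 
(.lf (nat_lit 201363) (.g (nat_lit 368) (.e (nat_lit 73753) (nat_lit 8) (.e (nat_lit 557087) (nat_lit 11) (.e (nat_lit 24631) (nat_lit 9) .nil))) .nil)) 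
(.lf (nat_lit 201395) (.g (nat_lit 1977) (.e (nat_lit 73753) (nat_lit 8) (.e (nat_lit 557087) (nat_lit 11) (.e (nat_lit 24640) (nat_lit 10) (.e (nat_lit 344114) (nat_lit 20) .nil)))) .nil)))) (.nd (nat_lit 4) (.nd (nat_lit 5) 
(.lf (nat_lit 201355) (.g (nat_lit 3333) (.e (nat_lit 73753) (nat_lit 8) (.e (nat_lit 557087) (nat_lit 11) (.e (nat_lit 24623) (nat_lit 9) (.e (nat_lit 336013) (nat_lit 2) (.e (nat_lit 90165) (nat_lit 12) (.e (nat_lit 171776) (nat_lit 192) .nil)))))) (.g (nat_lit 5) .nil .nil))) 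
(.lf (nat_lit 201387) (.g (nat_lit 3307) (.e (nat_lit 73753) (nat_lit 8) (.e (nat_lit 557087) (nat_lit 11) (.e (nat_lit 24638) (nat_lit 9) (.e (nat_lit 336012) (nat_lit 2) (.e (nat_lit 90181) (nat_lit 16) (.e (nat_lit 237312) (nat_lit 192) .nil)))))) (.g (nat_lit 5) .nil .nil)))) (.nd (nat_lit 5) 
(.lf (nat_lit 201371) (.g (nat_lit 1327) (.e (nat_lit 73753) (nat_lit 8) (.e (nat_lit 557087) (nat_lit 11) (.e (nat_lit 24633) (nat_lit 9) (.e (nat_lit 336023) (nat_lit 3) .nil)))) .nil)) 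
(.lf (nat_lit 201403) (.g (nat_lit 2587) (.e (nat_lit 73753) (nat_lit 8) (.e (nat_lit 557087) (nat_lit 11) (.e (nat_lit 24640) (nat_lit 10) (.e (nat_lit 344117) (nat_lit 21) (.e (nat_lit 516102) (nat_lit 0) (.e (nat_lit 7936) (nat_lit 407) .nil)))))) (.g (nat_lit 4) .nil .nil)))))) (.nd (nat_lit 3) (.nd (nat_lit 4) (.nd (nat_lit 5) 
(.lf (nat_lit 201351) (.g (nat_lit 3254) (.e (nat_lit 73753) (nat_lit 8) (.e (nat_lit 557087) (nat_lit 11) (.e (nat_lit 24617) (nat_lit 7) (.e (nat_lit 319504) (nat_lit 10) (.e (nat_lit 7936) (nat_lit 45) (.e (nat_lit 532490) (nat_lit 0) (.e (nat_lit 7936) (nat_lit 348) .nil))))))) (.g (nat_lit 4) .nil .nil))) 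
(.lf (nat_lit 201383) (.g (nat_lit 2303) (.e (nat_lit 73753) (nat_lit 8) (.e (nat_lit 557087) (nat_lit 11) (.e (nat_lit 24638) (nat_lit 9) (.e (nat_lit 336003) (nat_lit 2) (.e (nat_lit 90181) (nat_lit 16) (.e (nat_lit 237312) (nat_lit 192) .nil)))))) (.g (nat_lit 5) .nil .nil)))) (.nd (nat_lit 5) 
(.lf (nat_lit 201367) (.g (nat_lit 2053) (.e (nat_lit 73753) (nat_lit 8) (.e (nat_lit 557087) (nat_lit 11) (.e (nat_lit 24631) (nat_lit 9) (.e (nat_lit 336020) (nat_lit 3) (.e (nat_lit 98325) (nat_lit 17) (.e (nat_lit 7936) (nat_lit 407) .nil)))))) (.g (nat_lit 5) .nil .nil))) 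
(.lf (nat_lit 201399) (.g (nat_lit 2692) (.e (nat_lit 73753) (nat_lit 8) (.e (nat_lit 557087) (nat_lit 11) (.e (nat_lit 24640) (nat_lit 10) (.e (nat_lit 344115) (nat_lit 20) (.e (nat_lit 507908) (nat_lit 0) (.e (nat_lit 5413) (nat_lit 303) .nil)))))) (.g (nat_lit 4) .nil .nil))))) (.nd (nat_lit 4) (.nd (nat_lit 5) 
(.lf (nat_lit 201359) (.g (nat_lit 1745) (.e (nat_lit 73753) (nat_lit 8) (.e (nat_lit 557087) (nat_lit 11) (.e (nat_lit 24625) (nat_lit 9) (.e (nat_lit 335973) (nat_lit 0) (.e (nat_lit 1788) (nat_lit 119) .nil))))) .nil)) 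
(.lf (nat_lit 201391) (.g (nat_lit 2321) (.e (nat_lit 73753) (nat_lit 8) (.e (nat_lit 557087) (nat_lit 11) (.e (nat_lit 24640) (nat_lit 10) (.e (nat_lit 344105) (nat_lit 19) .nil)))) .nil))) (.nd (nat_lit 5) 
(.lf (nat_lit 201375) (.g (nat_lit 2531) (.e (nat_lit 73753) (nat_lit 8) (.e (nat_lit 557087) (nat_lit 11) (.e (nat_lit 24635) (nat_lit 9) (.e (nat_lit 336013) (nat_lit 2) (.e (nat_lit 90165) (nat_lit 12) (.e (nat_lit 171776) (nat_lit 192) .nil)))))) (.g (nat_lit 4) .nil .nil))) 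
(.lf (nat_lit 201407) (.g (nat_lit 450) (.e (nat_lit 73753) (nat_lit 8) (.e (nat_lit 557087) (nat_lit 11) (.e (nat_lit 24641) (nat_lit 10) .nil))) .nil))))))))

noncomputable def tv2658 : DT := (.nd (nat_lit 0) (.nd (nat_lit 1) (.nd (nat_lit 2) (.nd (nat_lit 3) (.nd (nat_lit 4) (.nd (nat_lit 5) 
(.lf (nat_lit 201408) (.g (nat_lit 3467) (.e (nat_lit 73753) (nat_lit 8) (.e (nat_lit 557087) (nat_lit 11) (.e (nat_lit 24641) (nat_lit 10) (.e (nat_lit 344115) (nat_lit 20) (.e (nat_lit 507906) (nat_lit 0) (.e (nat_lit 5412) (nat_lit 303) .nil)))))) (.g (nat_lit 4) .nil .nil))) 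
(.lf (nat_lit 201440) (.g (nat_lit 1365) (.e (nat_lit 73753) (nat_lit 8) (.e (nat_lit 557090) (nat_lit 12) (.e (nat_lit 164020) (nat_lit 45) (.e (nat_lit 696343) (nat_lit 8) .nil)))) .nil))) (.nd (nat_lit 5) 
(.lf (nat_lit 201424) (.g (nat_lit 2291) (.e (nat_lit 73753) (nat_lit 8) (.e (nat_lit 557087) (nat_lit 11) (.e (nat_lit 24665) (nat_lit 14) (.e (nat_lit 401463) (nat_lit 15) .nil)))) .nil)) 
(.lf (nat_lit 201456) (.g (nat_lit 494) (.e (nat_lit 73753) (nat_lit 8) (.e (nat_lit 557091) (nat_lit 12) (.e (nat_lit 164213) (nat_lit 176) .nil))) .nil)))) (.nd (nat_lit 4) (.nd (nat_lit 5) 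
(.lf (nat_lit 201416) (.g (nat_lit 1694) (.e (nat_lit 73753) (nat_lit 8) (.e (nat_lit 557087) (nat_lit 11) (.e (nat_lit 24643) (nat_lit 11) (.e (nat_lit 368676) (nat_lit 21) (.e (nat_lit 516103) (nat_lit 0) .nil))))) .nil)) 
(.lf (nat_lit 201448) (.g (nat_lit 667) (.e (nat_lit 73753) (nat_lit 8) (.e (nat_lit 557091) (nat_lit 12) (.e (nat_lit 163844) (nat_lit 0) .nil))) .nil))) (.nd (nat_lit 5) 
(.lf (nat_lit 201432) (.g (nat_lit 5970) (.e (nat_lit 73753) (nat_lit 8) (.e (nat_lit 557090) (nat_lit 12) (.e (nat_lit 163999) (nat_lit 38) (.e (nat_lit 639017) (nat_lit 15) (.e (nat_lit 57480) (nat_lit 28) (.e (nat_lit 557105) (nat_lit 14) (.e (nat_lit 180252) (nat_lit 10) (.e (nat_lit 573487) (nat_lit 14) .nil)))))))) (.g (nat_lit 0) .nil .nil))) 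
(.lf (nat_lit 201464) (.g (nat_lit 1957) (.e (nat_lit 73753) (nat_lit 8) (.e (nat_lit 557091) (nat_lit 12) (.e (nat_lit 164238) (nat_lit 187) (.e (nat_lit 1428) (nat_lit 108) (.e (nat_lit 336425) (nat_lit 28) .nil))))) .nil))))) (.nd (nat_lit 3) (.nd (nat_lit 4) (.nd (nat_lit 5) 
(.lf (nat_lit 201412) (.g (nat_lit 3366) (.e (nat_lit 73753) (nat_lit 8) (.e (nat_lit 557087) (nat_lit 11) (.e (nat_lit 24641) (nat_lit 10) (.e (nat_lit 344115) (nat_lit 20) (.e (nat_lit 507908) (nat_lit 0) (.e (nat_lit 5412) (nat_lit 303) .nil)))))) (.g (nat_lit 4) .nil .nil))) 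
(.lf (nat_lit 201444) (.g (nat_lit 3980) (.e (nat_lit 73753) (nat_lit 8) (.e (nat_lit 557090) (nat_lit 12) (.e (nat_lit 164020) (nat_lit 45) (.e (nat_lit 696344) (nat_lit 8) (.e (nat_lit 172067) (nat_lit 3) (.e (nat_lit 204819) (nat_lit 17) (.e (nat_lit 7936) (nat_lit 348) .nil))))))) (.g (nat_lit 5) .nil .nil)))) (.nd (nat_lit 5) 
(.lf (nat_lit 201428) (.g (nat_lit 2667) (.e (nat_lit 73753) (nat_lit 8) (.e (nat_lit 557089) (nat_lit 12) (.e (nat_lit 171776) (nat_lit 192) (.e (nat_lit 73731) (nat_lit 0) (.e (nat_lit 7265) (nat_lit 384) (.e (nat_lit 57347) (nat_lit 0) (.e (nat_lit 2032) (nat_lit 140) (.e (nat_lit 688180) (nat_lit 17) .nil)))))))) (.g (nat_lit 6) .nil .nil))) 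
(.lf (nat_lit 201460) (.g (nat_lit 2971) (.e (nat_lit 73753) (nat_lit 8) (.e (nat_lit 557091) (nat_lit 12) (.e (nat_lit 164238) (nat_lit 187) (.e (nat_lit 1427) (nat_lit 108) (.e (nat_lit 336421) (nat_lit 28) (.e (nat_lit 434212) (nat_lit 18) (.e (nat_lit 6296) (nat_lit 337) (.e (nat_lit 1209) (nat_lit 89) .nil)))))))) (.g (nat_lit 4) .nil .nil))))) (.nd (nat_lit 4) (.nd (nat_lit 5) 
(.lf (nat_lit 201420) (.g (nat_lit 2742) (.e (nat_lit 73753) (nat_lit 8) (.e (nat_lit 557087) (nat_lit 11) (.e (nat_lit 24646) (nat_lit 11) (.e (nat_lit 368676) (nat_lit 21) (.e (nat_lit 516097) (nat_lit 0) (.e (nat_lit 7593) (nat_lit 407) .nil)))))) (.g (nat_lit 4) .nil .nil))) 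
(.lf (nat_lit 201452) (.g (nat_lit 2239) (.e (nat_lit 73753) (nat_lit 8) (.e (nat_lit 557091) (nat_lit 12) (.e (nat_lit 164002) (nat_lit 40) (.e (nat_lit 655375) (nat_lit 3) (.e (nat_lit 164058) (nat_lit 56) (.e (nat_lit 786487) (nat_lit 33) (.e (nat_lit 392960) (nat_lit 5) .nil))))))) (.g (nat_lit 4) .nil .nil)))) (.nd (nat_lit 5) 
(.lf (nat_lit 201436) (.g (nat_lit 3212) (.e (nat_lit 73753) (nat_lit 8) (.e (nat_lit 557090) (nat_lit 12) (.e (nat_lit 164000) (nat_lit 38) (.e (nat_lit 639017) (nat_lit 15) (.e (nat_lit 57478) (nat_lit 28) (.e (nat_lit 557103) (nat_lit 14) (.e (nat_lit 180250) (nat_lit 10) (.e (nat_lit 573487) (nat_lit 14) .nil)))))))) (.g (nat_lit 4) .nil .nil))) 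
(.lf (nat_lit 201468) (.g (nat_lit 2401) (.e (nat_lit 73753) (nat_lit 8) (.e (nat_lit 557091) (nat_lit 12) (.e (nat_lit 164238) (nat_lit 187) (.e (nat_lit 1659) (nat_lit 115) (.e (nat_lit 393253) (nat_lit 18) (.e (nat_lit 164151) (nat_lit 152) (.e (nat_lit 1207) (nat_lit 89) .nil))))))) (.g (nat_lit 4) .nil .nil))))))) (.nd (nat_lit 2) (.nd (nat_lit 3) (.nd (nat_lit 4) (.nd (nat_lit 5) 
(.lf (nat_lit 201410) (.g (nat_lit 3381) (.e (nat_lit 73753) (nat_lit 8) (.e (nat_lit 557087) (nat_lit 11) (.e (nat_lit 24641) (nat_lit 10) (.e (nat_lit 344115) (nat_lit 20) (.e (nat_lit 507907) (nat_lit 0) (.e (nat_lit 5412) (nat_lit 303) .nil)))))) (.g (nat_lit 4) .nil .nil))) 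
(.lf (nat_lit 201442) (.g (nat_lit 3246) (.e (nat_lit 73753) (nat_lit 8) (.e (nat_lit 557090) (nat_lit 12) (.e (nat_lit 164020) (nat_lit 45) (.e (nat_lit 696344) (nat_lit 8) (.e (nat_lit 172067) (nat_lit 3) (.e (nat_lit 204816) (nat_lit 17) (.e (nat_lit 6519) (nat_lit 348) .nil))))))) (.g (nat_lit 5) .nil .nil)))) (.nd (nat_lit 5) 
(.lf (nat_lit 201426) (.g (nat_lit 589) (.e (nat_lit 73753) (nat_lit 8) (.e (nat_lit 557089) (nat_lit 12) (.e (nat_lit 164003) (nat_lit 40) .nil))) .nil)) 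
(.lf (nat_lit 201458) (.g (nat_lit 2496) (.e (nat_lit 73753) (nat_lit 8) (.e (nat_lit 557091) (nat_lit 12) (.e (nat_lit 164238) (nat_lit 187) (.e (nat_lit 1427) (nat_lit 108) (.e (nat_lit 336369) (nat_lit 27) (.e (nat_lit 426109) (nat_lit 1) (.e (nat_lit 164163) (nat_lit 152) (.e (nat_lit 1211) (nat_lit 89) .nil)))))))) (.g (nat_lit 4) .nil .nil))))) (.nd (nat_lit 4) (.nd (nat_lit 5) 
(.lf (nat_lit 201418) (.g (nat_lit 2928) (.e (nat_lit 73753) (nat_lit 8) (.e (nat_lit 557087) (nat_lit 11) (.e (nat_lit 24644) (nat_lit 11) (.e (nat_lit 368676) (nat_lit 21) (.e (nat_lit 516098) (nat_lit 0) (.e (nat_lit 7591) (nat_lit 407) .nil)))))) (.g (nat_lit 0) .nil .nil))) 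
(.lf (nat_lit 201450) (.g (nat_lit 4364) (.e (nat_lit 73753) (nat_lit 8) (.e (nat_lit 557091) (nat_lit 12) (.e (nat_lit 164000) (nat_lit 38) (.e (nat_lit 639017) (nat_lit 15) (.e (nat_lit 57479) (nat_lit 28) (.e (nat_lit 557103) (nat_lit 14) (.e (nat_lit 180250) (nat_lit 10) (.e (nat_lit 573487) (nat_lit 14) .nil)))))))) (.g (nat_lit 5) .nil .nil)))) (.nd (nat_lit 5) 
(.lf (nat_lit 201434) (.g (nat_lit 2425) (.e (nat_lit 73753) (nat_lit 8) (.e (nat_lit 557090) (nat_lit 12) (.e (nat_lit 163999) (nat_lit 38) (.e (nat_lit 639024) (nat_lit 19) (.e (nat_lit 122936) (nat_lit 23) .nil))))) .nil)) 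
(.lf (nat_lit 201466) (.g (nat_lit 1874) (.e (nat_lit 73753) (nat_lit 8) (.e (nat_lit 557091) (nat_lit 12) (.e (nat_lit 164238) (nat_lit 187) (.e (nat_lit 1659) (nat_lit 115) (.e (nat_lit 393253) (nat_lit 18) .nil))))) .nil))))) (.nd (nat_lit 3) (.nd (nat_lit 4) (.nd (nat_lit 5) 
(.lf (nat_lit 201414) (.g (nat_lit 2372) (.e (nat_lit 73753) (nat_lit 8) (.e (nat_lit 557087) (nat_lit 11) (.e (nat_lit 24642) (nat_lit 11) (.e (nat_lit 368676) (nat_lit 21) (.e (nat_lit 516098) (nat_lit 0) .nil))))) .nil)) 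
(.lf (nat_lit 201446) (.g (nat_lit 4750) (.e (nat_lit 73753) (nat_lit 8) (.e (nat_lit 557090) (nat_lit 12) (.e (nat_lit 164020) (nat_lit 45) (.e (nat_lit 696344) (nat_lit 8) (.e (nat_lit 172138) (nat_lit 15) (.e (nat_lit 1856) (nat_lit 124) (.e (nat_lit 557093) (nat_lit 12) (.e (nat_lit 171776) (nat_lit 192) .nil)))))))) (.g (nat_lit 7) .nil .nil)))) (.nd (nat_lit 5) 
(.lf (nat_lit 201430) (.g (nat_lit 2361) (.e (nat_lit 73753) (nat_lit 8) (.e (nat_lit 557090) (nat_lit 12) (.e (nat_lit 163999) (nat_lit 38) (.e (nat_lit 639016) (nat_lit 15) .nil)))) .nil)) 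
(.lf (nat_lit 201462) (.g (nat_lit 3018) (.e (nat_lit 73753) (nat_lit 8) (.e (nat_lit 557091) (nat_lit 12) (.e (nat_lit 164238) (nat_lit 187) (.e (nat_lit 1427) (nat_lit 108) (.e (nat_lit 336421) (nat_lit 28) (.e (nat_lit 434285) (nat_lit 42) (.e (nat_lit 688180) (nat_lit 17) .nil))))))) (.g (nat_lit 4) .nil .nil))))) (.nd (nat_lit 4) (.nd (nat_lit 5) 
(.lf (nat_lit 201422) (.g (nat_lit 3064) (.e (nat_lit 73753) (nat_lit 8) (.e (nat_lit 557087) (nat_lit 11) (.e (nat_lit 24665) (nat_lit 14) (.e (nat_lit 401413) (nat_lit 0) (.e (nat_lit 3205) (nat_lit 194) (.e (nat_lit 507928) (nat_lit 10) (.e (nat_lit 7936) (nat_lit 303) .nil))))))) (.g (nat_lit 5) .nil .nil))) 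
(.lf (nat_lit 201454) (.g (nat_lit 2880) (.e (nat_lit 73753) (nat_lit 8) (.e (nat_lit 557091) (nat_lit 12) (.e (nat_lit 164003) (nat_lit 40) (.e (nat_lit 655373) (nat_lit 3) (.e (nat_lit 164054) (nat_lit 56) (.e (nat_lit 786487) (nat_lit 33) (.e (nat_lit 392960) (nat_lit 5) .nil))))))) (.g (nat_lit 6) .nil .nil)))) (.nd (nat_lit 5) 
(.lf (nat_lit 201438) (.g (nat_lit 2493) (.e (nat_lit 73753) (nat_lit 8) (.e (nat_lit 557090) (nat_lit 12) (.e (nat_lit 164000) (nat_lit 38) (.e (nat_lit 639017) (nat_lit 15) (.e (nat_lit 57480) (nat_lit 28) .nil))))) .nil)) 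
(.lf (nat_lit 201470) (.g (nat_lit 3555) (.e (nat_lit 73753) (nat_lit 8) (.e (nat_lit 557091) (nat_lit 12) (.e (nat_lit 164238) (nat_lit 187) (.e (nat_lit 1660) (nat_lit 115) (.e (nat_lit 393253) (nat_lit 18) (.e (nat_lit 164150) (nat_lit 152) (.e (nat_lit 1207) (nat_lit 89) .nil))))))) (.g (nat_lit 6) .nil .nil)))))))) 
(.nd (nat_lit 1) (.nd (nat_lit 2) (.nd (nat_lit 3) (.nd (nat_lit 4) (.nd (nat_lit 5) 
(.lf (nat_lit 201409) (.g (nat_lit 2845) (.e (nat_lit 73753) (nat_lit 8) (.e (nat_lit 557087) (nat_lit 11) (.e (nat_lit 24641) (nat_lit 10) (.e (nat_lit 344115) (nat_lit 20) (.e (nat_lit 507907) (nat_lit 0) (.e (nat_lit 5410) (nat_lit 303) .nil)))))) (.g (nat_lit 4) .nil .nil))) 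
(.lf (nat_lit 201441) (.g (nat_lit 3732) (.e (nat_lit 73753) (nat_lit 8) (.e (nat_lit 557090) (nat_lit 12) (.e (nat_lit 164020) (nat_lit 45) (.e (nat_lit 696344) (nat_lit 8) (.e (nat_lit 172067) (nat_lit 3) (.e (nat_lit 204815) (nat_lit 17) (.e (nat_lit 6520) (nat_lit 348) .nil))))))) (.g (nat_lit 5) .nil .nil)))) (.nd (nat_lit 5) 
(.lf (nat_lit 201425) (.g (nat_lit 4550) (.e (nat_lit 73753) (nat_lit 8) (.e (nat_lit 557089) (nat_lit 12) (.e (nat_lit 164000) (nat_lit 38) (.e (nat_lit 639017) (nat_lit 15) (.e (nat_lit 57479) (nat_lit 28) (.e (nat_lit 557103) (nat_lit 14) (.e (nat_lit 180250) (nat_lit 10) (.e (nat_lit 573487) (nat_lit 14) .nil)))))))) (.g (nat_lit 5) .nil .nil))) 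
(.lf (nat_lit 201457) (.g (nat_lit 440) (.e (nat_lit 73753) (nat_lit 8) (.e (nat_lit 557091) (nat_lit 12) (.e (nat_lit 164238) (nat_lit 187) .nil))) .nil)))) (.nd (nat_lit 4) (.nd (nat_lit 5) 
(.lf (nat_lit 201417) (.g (nat_lit 2383) (.e (nat_lit 73753) (nat_lit 8) (.e (nat_lit 557087) (nat_lit 11) (.e (nat_lit 24644) (nat_lit 11) (.e (nat_lit 368676) (nat_lit 21) (.e (nat_lit 516097) (nat_lit 0) (.e (nat_lit 7936) (nat_lit 407) .nil)))))) (.g (nat_lit 5) .nil .nil))) 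
(.lf (nat_lit 201449) (.g (nat_lit 3528) (.e (nat_lit 73753) (nat_lit 8) (.e (nat_lit 557091) (nat_lit 12) (.e (nat_lit 163998) (nat_lit 38) (.e (nat_lit 639017) (nat_lit 15) (.e (nat_lit 57479) (nat_lit 28) (.e (nat_lit 557103) (nat_lit 14) (.e (nat_lit 180250) (nat_lit 10) (.e (nat_lit 573487) (nat_lit 14) .nil)))))))) (.g (nat_lit 5) .nil .nil)))) (.nd (nat_lit 5) 
(.lf (nat_lit 201433) (.g (nat_lit 2290) (.e (nat_lit 73753) (nat_lit 8) (.e (nat_lit 557090) (nat_lit 12) (.e (nat_lit 163999) (nat_lit 38) (.e (nat_lit 639018) (nat_lit 15) .nil)))) .nil)) 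
(.lf (nat_lit 201465) (.g (nat_lit 1161) (.e (nat_lit 73753) (nat_lit 8) (.e (nat_lit 557091) (nat_lit 12) (.e (nat_lit 164238) (nat_lit 187) (.e (nat_lit 1658) (nat_lit 115) .nil)))) .nil))))) (.nd (nat_lit 3) (.nd (nat_lit 4) (.nd (nat_lit 5) 
(.lf (nat_lit 201413) (.g (nat_lit 3367) (.e (nat_lit 73753) (nat_lit 8) (.e (nat_lit 557087) (nat_lit 11) (.e (nat_lit 24641) (nat_lit 10) (.e (nat_lit 344117) (nat_lit 21) (.e (nat_lit 516106) (nat_lit 0) (.e (nat_lit 7936) (nat_lit 407) .nil)))))) (.g (nat_lit 4) .nil .nil))) 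
(.lf (nat_lit 201445) (.g (nat_lit 4855) (.e (nat_lit 73753) (nat_lit 8) (.e (nat_lit 557090) (nat_lit 12) (.e (nat_lit 164020) (nat_lit 45) (.e (nat_lit 696344) (nat_lit 8) (.e (nat_lit 172067) (nat_lit 3) (.e (nat_lit 204821) (nat_lit 17) (.e (nat_lit 7936) (nat_lit 348) .nil))))))) (.g (nat_lit 5) .nil .nil)))) (.nd (nat_lit 5) 
(.lf (nat_lit 201429) (.g (nat_lit 774) (.e (nat_lit 73753) (nat_lit 8) (.e (nat_lit 557090) (nat_lit 12) (.e (nat_lit 163844) (nat_lit 0) .nil))) .nil)) 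
(.lf (nat_lit 201461) (.g (nat_lit 2934) (.e (nat_lit 73753) (nat_lit 8) (.e (nat_lit 557091) (nat_lit 12) (.e (nat_lit 164238) (nat_lit 187) (.e (nat_lit 1427) (nat_lit 108) (.e (nat_lit 336421) (nat_lit 28) (.e (nat_lit 434212) (nat_lit 18) (.e (nat_lit 6306) (nat_lit 337) (.e (nat_lit 1209) (nat_lit 89) .nil)))))))) (.g (nat_lit 4) .nil .nil))))) (.nd (nat_lit 4) (.nd (nat_lit 5) 
(.lf (nat_lit 201421) (.g (nat_lit 4211) (.e (nat_lit 73753) (nat_lit 8) (.e (nat_lit 557087) (nat_lit 11) (.e (nat_lit 24662) (nat_lit 14) (.e (nat_lit 401425) (nat_lit 2) (.e (nat_lit 196661) (nat_lit 12) .nil))))) .nil)) 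
(.lf (nat_lit 201453) (.g (nat_lit 2575) (.e (nat_lit 73753) (nat_lit 8) (.e (nat_lit 557091) (nat_lit 12) (.e (nat_lit 164003) (nat_lit 40) (.e (nat_lit 655373) (nat_lit 3) (.e (nat_lit 164053) (nat_lit 56) (.e (nat_lit 786487) (nat_lit 33) (.e (nat_lit 392960) (nat_lit 5) .nil))))))) (.g (nat_lit 5) .nil .nil)))) (.nd (nat_lit 5) 
(.lf (nat_lit 201437) (.g (nat_lit 3282) (.e (nat_lit 73753) (nat_lit 8) (.e (nat_lit 557090) (nat_lit 12) (.e (nat_lit 164000) (nat_lit 38) (.e (nat_lit 639017) (nat_lit 15) (.e (nat_lit 57478) (nat_lit 28) (.e (nat_lit 557105) (nat_lit 14) (.e (nat_lit 180252) (nat_lit 10) (.e (nat_lit 573487) (nat_lit 14) .nil)))))))) (.g (nat_lit 4) .nil .nil))) 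
(.lf (nat_lit 201469) (.g (nat_lit 1154) (.e (nat_lit 73753) (nat_lit 8) (.e (nat_lit 557091) (nat_lit 12) (.e (nat_lit 164238) (nat_lit 187) (.e (nat_lit 1660) (nat_lit 115) .nil)))) .nil)))))) (.nd (nat_lit 2) (.nd (nat_lit 3) (.nd (nat_lit 4) (.nd (nat_lit 5) 
(.lf (nat_lit 201411) (.g (nat_lit 2789) (.e (nat_lit 73753) (nat_lit 8) (.e (nat_lit 557087) (nat_lit 11) (.e (nat_lit 24641) (nat_lit 10) (.e (nat_lit 344115) (nat_lit 20) (.e (nat_lit 507908) (nat_lit 0) (.e (nat_lit 5410) (nat_lit 303) .nil)))))) (.g (nat_lit 4) .nil .nil))) 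
(.lf (nat_lit 201443) (.g (nat_lit 4801) (.e (nat_lit 73753) (nat_lit 8) (.e (nat_lit 557090) (nat_lit 12) (.e (nat_lit 164020) (nat_lit 45) (.e (nat_lit 696344) (nat_lit 8) (.e (nat_lit 172067) (nat_lit 3) (.e (nat_lit 204817) (nat_lit 17) (.e (nat_lit 7936) (nat_lit 348) .nil))))))) (.g (nat_lit 6) .nil .nil)))) (.nd (nat_lit 5) 
(.lf (nat_lit 201427) (.g (nat_lit 2552) (.e (nat_lit 73753) (nat_lit 8) (.e (nat_lit 557089) (nat_lit 12) (.e (nat_lit 171776) (nat_lit 192) (.e (nat_lit 73731) (nat_lit 0) (.e (nat_lit 7265) (nat_lit 384) (.e (nat_lit 57347) (nat_lit 0) (.e (nat_lit 2029) (nat_lit 140) (.e (nat_lit 688180) (nat_lit 17) .nil)))))))) (.g (nat_lit 6) .nil .nil))) 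
(.lf (nat_lit 201459) (.g (nat_lit 2948) (.e (nat_lit 73753) (nat_lit 8) (.e (nat_lit 557091) (nat_lit 12) (.e (nat_lit 164238) (nat_lit 187) (.e (nat_lit 1427) (nat_lit 108) (.e (nat_lit 336421) (nat_lit 28) (.e (nat_lit 434212) (nat_lit 18) (.e (nat_lit 6273) (nat_lit 337) (.e (nat_lit 1207) (nat_lit 89) .nil)))))))) (.g (nat_lit 4) .nil .nil))))) (.nd (nat_lit 4) (.nd (nat_lit 5) 
(.lf (nat_lit 201419) (.g (nat_lit 1725) (.e (nat_lit 73753) (nat_lit 8) (.e (nat_lit 557087) (nat_lit 11) (.e (nat_lit 24644) (nat_lit 11) (.e (nat_lit 368676) (nat_lit 21) (.e (nat_lit 516103) (nat_lit 0) .nil))))) .nil)) 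
(.lf (nat_lit 201451) (.g (nat_lit 658) (.e (nat_lit 73753) (nat_lit 8) (.e (nat_lit 557091) (nat_lit 12) (.e (nat_lit 164002) (nat_lit 40) .nil))) .nil))) (.nd (nat_lit 5) 
(.lf (nat_lit 201435) (.g (nat_lit 960) (.e (nat_lit 73753) (nat_lit 8) (.e (nat_lit 557090) (nat_lit 12) (.e (nat_lit 164000) (nat_lit 38) .nil))) .nil)) 
(.lf (nat_lit 201467) (.g (nat_lit 2324) (.e (nat_lit 73753) (nat_lit 8) (.e (nat_lit 557091) (nat_lit 12) (.e (nat_lit 164238) (nat_lit 187) (.e (nat_lit 1659) (nat_lit 115) (.e (nat_lit 393253) (nat_lit 18) (.e (nat_lit 164150) (nat_lit 152) (.e (nat_lit 1206) (nat_lit 89) .nil))))))) (.g (nat_lit 4) .nil .nil)))))) (.nd (nat_lit 3) (.nd (nat_lit 4) (.nd (nat_lit 5) 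
(.lf (nat_lit 201415) (.g (nat_lit 2195) (.e (nat_lit 73753) (nat_lit 8) (.e (nat_lit 557087) (nat_lit 11) (.e (nat_lit 24643) (nat_lit 11) (.e (nat_lit 368676) (nat_lit 21) (.e (nat_lit 516097) (nat_lit 0) (.e (nat_lit 7936) (nat_lit 407) .nil)))))) (.g (nat_lit 5) .nil .nil))) 
(.lf (nat_lit 201447) (.g (nat_lit 2650) (.e (nat_lit 73753) (nat_lit 8) (.e (nat_lit 557090) (nat_lit 12) (.e (nat_lit 164238) (nat_lit 187) (.e (nat_lit 1661) (nat_lit 115) (.e (nat_lit 393251) (nat_lit 18) .nil))))) .nil))) (.nd (nat_lit 5) 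
(.lf (nat_lit 201431) (.g (nat_lit 2071) (.e (nat_lit 73753) (nat_lit 8) (.e (nat_lit 557090) (nat_lit 12) (.e (nat_lit 163999) (nat_lit 38) (.e (nat_lit 639017) (nat_lit 15) .nil)))) .nil)) 
(.lf (nat_lit 201463) (.g (nat_lit 2310) (.e (nat_lit 73753) (nat_lit 8) (.e (nat_lit 557091) (nat_lit 12) (.e (nat_lit 164238) (nat_lit 187) (.e (nat_lit 1427) (nat_lit 108) (.e (nat_lit 336425) (nat_lit 28) (.e (nat_lit 434286) (nat_lit 42) (.e (nat_lit 688179) (nat_lit 17) .nil))))))) (.g (nat_lit 4) .nil .nil))))) (.nd (nat_lit 4) (.nd (nat_lit 5) 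
(.lf (nat_lit 201423) (.g (nat_lit 2586) (.e (nat_lit 73753) (nat_lit 8) (.e (nat_lit 557087) (nat_lit 11) (.e (nat_lit 24665) (nat_lit 14) (.e (nat_lit 401414) (nat_lit 0) (.e (nat_lit 3205) (nat_lit 194) .nil))))) .nil)) 
(.lf (nat_lit 201455) (.g (nat_lit 2670) (.e (nat_lit 73753) (nat_lit 8) (.e (nat_lit 557091) (nat_lit 12) (.e (nat_lit 164003) (nat_lit 40) (.e (nat_lit 655375) (nat_lit 3) (.e (nat_lit 164058) (nat_lit 56) (.e (nat_lit 786487) (nat_lit 33) (.e (nat_lit 392960) (nat_lit 5) .nil))))))) (.g (nat_lit 5) .nil .nil)))) (.nd (nat_lit 5) 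
(.lf (nat_lit 201439) (.g (nat_lit 2219) (.e (nat_lit 73753) (nat_lit 8) (.e (nat_lit 557090) (nat_lit 12) (.e (nat_lit 164000) (nat_lit 38) (.e (nat_lit 639024) (nat_lit 19) .nil)))) .nil)) 
(.lf (nat_lit 201471) (.g (nat_lit 1148) (.e (nat_lit 73753) (nat_lit 8) (.e (nat_lit 557091) (nat_lit 12) (.e (nat_lit 164238) (nat_lit 187) (.e (nat_lit 1661) (nat_lit 115) .nil)))) .nil))))))))

noncomputable def tv2659 : DT := (.nd (nat_lit 0) (.nd (nat_lit 1) (.nd (nat_lit 2) (.nd (nat_lit 3) (.nd (nat_lit 4) (.nd (nat_lit 5) 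
(.lf (nat_lit 201472) (.g (nat_lit 1985) (.e (nat_lit 73753) (nat_lit 8) (.e (nat_lit 557091) (nat_lit 12) (.e (nat_lit 164238) (nat_lit 187) (.e (nat_lit 1661) (nat_lit 115) (.e (nat_lit 393251) (nat_lit 18) .nil))))) .nil)) 
(.lf (nat_lit 201504) (.g (nat_lit 1800) (.e (nat_lit 73753) (nat_lit 8) (.e (nat_lit 557093) (nat_lit 12) (.e (nat_lit 164238) (nat_lit 187) (.e (nat_lit 1661) (nat_lit 115) (.e (nat_lit 393251) (nat_lit 18) .nil))))) .nil))) (.nd (nat_lit 5) 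
(.lf (nat_lit 201488) (.g (nat_lit 3591) (.e (nat_lit 73753) (nat_lit 8) (.e (nat_lit 557091) (nat_lit 12) (.e (nat_lit 164238) (nat_lit 187) (.e (nat_lit 1661) (nat_lit 115) (.e (nat_lit 393251) (nat_lit 18) (.e (nat_lit 164161) (nat_lit 152) (.e (nat_lit 7936) (nat_lit 89) .nil))))))) (.g (nat_lit 6) .nil .nil))) 
(.lf (nat_lit 201520) (.g (nat_lit 2061) (.e (nat_lit 73753) (nat_lit 8) (.e (nat_lit 557093) (nat_lit 12) (.e (nat_lit 164239) (nat_lit 187) (.e (nat_lit 1661) (nat_lit 115) (.e (nat_lit 393251) (nat_lit 18) (.e (nat_lit 164148) (nat_lit 152) (.e (nat_lit 1206) (nat_lit 89) .nil))))))) (.g (nat_lit 4) .nil .nil))))) (.nd (nat_lit 4) (.nd (nat_lit 5) 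
(.lf (nat_lit 201480) (.g (nat_lit 3273) (.e (nat_lit 73753) (nat_lit 8) (.e (nat_lit 557091) (nat_lit 12) (.e (nat_lit 164238) (nat_lit 187) (.e (nat_lit 1661) (nat_lit 115) (.e (nat_lit 393251) (nat_lit 18) (.e (nat_lit 164153) (nat_lit 152) (.e (nat_lit 1208) (nat_lit 89) .nil))))))) (.g (nat_lit 5) .nil .nil))) 
(.lf (nat_lit 201512) (.g (nat_lit 2375) (.e (nat_lit 73753) (nat_lit 8) (.e (nat_lit 557093) (nat_lit 12) (.e (nat_lit 164238) (nat_lit 187) (.e (nat_lit 1661) (nat_lit 115) (.e (nat_lit 393252) (nat_lit 18) (.e (nat_lit 164159) (nat_lit 152) (.e (nat_lit 1208) (nat_lit 89) .nil))))))) (.g (nat_lit 4) .nil .nil)))) (.nd (nat_lit 5) 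
(.lf (nat_lit 201496) (.g (nat_lit 3966) (.e (nat_lit 73753) (nat_lit 8) (.e (nat_lit 557093) (nat_lit 12) (.e (nat_lit 163998) (nat_lit 38) (.e (nat_lit 639017) (nat_lit 15) (.e (nat_lit 57479) (nat_lit 28) (.e (nat_lit 557103) (nat_lit 14) (.e (nat_lit 180250) (nat_lit 10) (.e (nat_lit 573487) (nat_lit 14) .nil)))))))) (.g (nat_lit 5) .nil .nil))) 
(.lf (nat_lit 201528) (.g (nat_lit 2580) (.e (nat_lit 73753) (nat_lit 8) (.e (nat_lit 557093) (nat_lit 12) (.e (nat_lit 164239) (nat_lit 187) (.e (nat_lit 1661) (nat_lit 115) (.e (nat_lit 393251) (nat_lit 18) (.e (nat_lit 164161) (nat_lit 152) (.e (nat_lit 1208) (nat_lit 89) .nil))))))) (.g (nat_lit 5) .nil .nil)))))) (.nd (nat_lit 3) (.nd (nat_lit 4) (.nd (nat_lit 5) 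
(.lf (nat_lit 201476) (.g (nat_lit 2814) (.e (nat_lit 73753) (nat_lit 8) (.e (nat_lit 557091) (nat_lit 12) (.e (nat_lit 164238) (nat_lit 187) (.e (nat_lit 1661) (nat_lit 115) (.e (nat_lit 393251) (nat_lit 18) (.e (nat_lit 164149) (nat_lit 152) (.e (nat_lit 1207) (nat_lit 89) .nil))))))) (.g (nat_lit 4) .nil .nil))) 
(.lf (nat_lit 201508) (.g (nat_lit 3334) (.e (nat_lit 73753) (nat_lit 8) (.e (nat_lit 557093) (nat_lit 12) (.e (nat_lit 164238) (nat_lit 187) (.e (nat_lit 1661) (nat_lit 115) (.e (nat_lit 393251) (nat_lit 18) (.e (nat_lit 164155) (nat_lit 152) (.e (nat_lit 1214) (nat_lit 89) .nil))))))) (.g (nat_lit 5) .nil .nil)))) (.nd (nat_lit 5) 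
(.lf (nat_lit 201492) (.g (nat_lit 3776) (.e (nat_lit 73753) (nat_lit 8) (.e (nat_lit 557091) (nat_lit 12) (.e (nat_lit 164238) (nat_lit 187) (.e (nat_lit 1661) (nat_lit 115) (.e (nat_lit 393252) (nat_lit 18) (.e (nat_lit 164161) (nat_lit 152) (.e (nat_lit 7936) (nat_lit 89) .nil))))))) (.g (nat_lit 6) .nil .nil))) 
(.lf (nat_lit 201524) (.g (nat_lit 2324) (.e (nat_lit 73753) (nat_lit 8) (.e (nat_lit 557093) (nat_lit 12) (.e (nat_lit 164239) (nat_lit 187) (.e (nat_lit 1661) (nat_lit 115) (.e (nat_lit 393251) (nat_lit 18) (.e (nat_lit 164153) (nat_lit 152) (.e (nat_lit 1208) (nat_lit 89) .nil))))))) (.g (nat_lit 4) .nil .nil))))) (.nd (nat_lit 4) (.nd (nat_lit 5) 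
(.lf (nat_lit 201484) (.g (nat_lit 3356) (.e (nat_lit 73753) (nat_lit 8) (.e (nat_lit 557091) (nat_lit 12) (.e (nat_lit 164238) (nat_lit 187) (.e (nat_lit 1661) (nat_lit 115) (.e (nat_lit 393251) (nat_lit 18) (.e (nat_lit 164156) (nat_lit 152) (.e (nat_lit 1205) (nat_lit 89) .nil))))))) (.g (nat_lit 5) .nil .nil))) 
(.lf (nat_lit 201516) (.g (nat_lit 2283) (.e (nat_lit 73753) (nat_lit 8) (.e (nat_lit 557093) (nat_lit 12) (.e (nat_lit 164238) (nat_lit 187) (.e (nat_lit 1661) (nat_lit 115) (.e (nat_lit 393252) (nat_lit 18) (.e (nat_lit 164167) (nat_lit 152) (.e (nat_lit 1208) (nat_lit 89) .nil))))))) (.g (nat_lit 4) .nil .nil)))) (.nd (nat_lit 5) 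
(.lf (nat_lit 201500) (.g (nat_lit 2629) (.e (nat_lit 73753) (nat_lit 8) (.e (nat_lit 557093) (nat_lit 12) (.e (nat_lit 164238) (nat_lit 187) (.e (nat_lit 1659) (nat_lit 115) (.e (nat_lit 393253) (nat_lit 18) (.e (nat_lit 164150) (nat_lit 152) (.e (nat_lit 1207) (nat_lit 89) .nil))))))) (.g (nat_lit 4) .nil .nil))) 
(.lf (nat_lit 201532) (.g (nat_lit 2667) (.e (nat_lit 73753) (nat_lit 8) (.e (nat_lit 557093) (nat_lit 12) (.e (nat_lit 164239) (nat_lit 187) (.e (nat_lit 1661) (nat_lit 115) (.e (nat_lit 393252) (nat_lit 18) (.e (nat_lit 164161) (nat_lit 152) (.e (nat_lit 1208) (nat_lit 89) .nil))))))) (.g (nat_lit 5) .nil .nil))))))) (.nd (nat_lit 2) (.nd (nat_lit 3) (.nd (nat_lit 4) (.nd (nat_lit 5) 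
(.lf (nat_lit 201474) (.g (nat_lit 3592) (.e (nat_lit 73753) (nat_lit 8) (.e (nat_lit 557091) (nat_lit 12) (.e (nat_lit 164238) (nat_lit 187) (.e (nat_lit 1661) (nat_lit 115) (.e (nat_lit 393251) (nat_lit 18) (.e (nat_lit 164148) (nat_lit 152) (.e (nat_lit 1207) (nat_lit 89) .nil))))))) (.g (nat_lit 5) .nil .nil))) 
(.lf (nat_lit 201506) (.g (nat_lit 2721) (.e (nat_lit 73753) (nat_lit 8) (.e (nat_lit 557093) (nat_lit 12) (.e (nat_lit 164238) (nat_lit 187) (.e (nat_lit 1661) (nat_lit 115) (.e (nat_lit 393251) (nat_lit 18) (.e (nat_lit 164150) (nat_lit 152) (.e (nat_lit 1207) (nat_lit 89) .nil))))))) (.g (nat_lit 4) .nil .nil)))) (.nd (nat_lit 5) 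
(.lf (nat_lit 201490) (.g (nat_lit 2615) (.e (nat_lit 73753) (nat_lit 8) (.e (nat_lit 557091) (nat_lit 12) (.e (nat_lit 164238) (nat_lit 187) (.e (nat_lit 1661) (nat_lit 115) (.e (nat_lit 393252) (nat_lit 18) (.e (nat_lit 164160) (nat_lit 152) (.e (nat_lit 7936) (nat_lit 89) .nil))))))) (.g (nat_lit 4) .nil .nil))) 
(.lf (nat_lit 201522) (.g (nat_lit 3089) (.e (nat_lit 73753) (nat_lit 8) (.e (nat_lit 557093) (nat_lit 12) (.e (nat_lit 164239) (nat_lit 187) (.e (nat_lit 1661) (nat_lit 115) (.e (nat_lit 393251) (nat_lit 18) (.e (nat_lit 164148) (nat_lit 152) (.e (nat_lit 1214) (nat_lit 89) .nil))))))) (.g (nat_lit 5) .nil .nil))))) (.nd (nat_lit 4) (.nd (nat_lit 5) 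
(.lf (nat_lit 201482) (.g (nat_lit 2833) (.e (nat_lit 73753) (nat_lit 8) (.e (nat_lit 557091) (nat_lit 12) (.e (nat_lit 164238) (nat_lit 187) (.e (nat_lit 1661) (nat_lit 115) (.e (nat_lit 393251) (nat_lit 18) (.e (nat_lit 164154) (nat_lit 152) (.e (nat_lit 1214) (nat_lit 89) .nil))))))) (.g (nat_lit 4) .nil .nil))) 
(.lf (nat_lit 201514) (.g (nat_lit 3175) (.e (nat_lit 73753) (nat_lit 8) (.e (nat_lit 557093) (nat_lit 12) (.e (nat_lit 164238) (nat_lit 187) (.e (nat_lit 1661) (nat_lit 115) (.e (nat_lit 393252) (nat_lit 18) (.e (nat_lit 164161) (nat_lit 152) (.e (nat_lit 7936) (nat_lit 89) .nil))))))) (.g (nat_lit 5) .nil .nil)))) (.nd (nat_lit 5) 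
(.lf (nat_lit 201498) (.g (nat_lit 3271) (.e (nat_lit 73753) (nat_lit 8) (.e (nat_lit 557093) (nat_lit 12) (.e (nat_lit 164238) (nat_lit 187) (.e (nat_lit 1427) (nat_lit 108) (.e (nat_lit 336369) (nat_lit 27) (.e (nat_lit 426109) (nat_lit 1) (.e (nat_lit 164163) (nat_lit 152) (.e (nat_lit 1209) (nat_lit 89) .nil)))))))) (.g (nat_lit 4) .nil .nil))) 
(.lf (nat_lit 201530) (.g (nat_lit 3365) (.e (nat_lit 73753) (nat_lit 8) (.e (nat_lit 557093) (nat_lit 12) (.e (nat_lit 164239) (nat_lit 187) (.e (nat_lit 1661) (nat_lit 115) (.e (nat_lit 393251) (nat_lit 18) (.e (nat_lit 164162) (nat_lit 152) (.e (nat_lit 1209) (nat_lit 89) .nil))))))) (.g (nat_lit 5) .nil .nil)))))) (.nd (nat_lit 3) (.nd (nat_lit 4) (.nd (nat_lit 5) 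
(.lf (nat_lit 201478) (.g (nat_lit 3667) (.e (nat_lit 73753) (nat_lit 8) (.e (nat_lit 557091) (nat_lit 12) (.e (nat_lit 164238) (nat_lit 187) (.e (nat_lit 1661) (nat_lit 115) (.e (nat_lit 393251) (nat_lit 18) (.e (nat_lit 164151) (nat_lit 152) (.e (nat_lit 1207) (nat_lit 89) .nil))))))) (.g (nat_lit 5) .nil .nil))) 
(.lf (nat_lit 201510) (.g (nat_lit 2594) (.e (nat_lit 73753) (nat_lit 8) (.e (nat_lit 557093) (nat_lit 12) (.e (nat_lit 164238) (nat_lit 187) (.e (nat_lit 1661) (nat_lit 115) (.e (nat_lit 393251) (nat_lit 18) (.e (nat_lit 164160) (nat_lit 152) (.e (nat_lit 7936) (nat_lit 89) .nil))))))) (.g (nat_lit 4) .nil .nil)))) (.nd (nat_lit 5) 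
(.lf (nat_lit 201494) (.g (nat_lit 2128) (.e (nat_lit 73753) (nat_lit 8) (.e (nat_lit 557091) (nat_lit 12) (.e (nat_lit 164238) (nat_lit 187) (.e (nat_lit 1661) (nat_lit 115) (.e (nat_lit 393253) (nat_lit 18) .nil))))) .nil)) 
(.lf (nat_lit 201526) (.g (nat_lit 1827) (.e (nat_lit 73753) (nat_lit 8) (.e (nat_lit 557093) (nat_lit 12) (.e (nat_lit 164239) (nat_lit 187) (.e (nat_lit 1661) (nat_lit 115) (.e (nat_lit 393251) (nat_lit 18) (.e (nat_lit 164160) (nat_lit 152) (.e (nat_lit 1208) (nat_lit 89) .nil))))))) (.g (nat_lit 4) .nil .nil))))) (.nd (nat_lit 4) (.nd (nat_lit 5) 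
(.lf (nat_lit 201486) (.g (nat_lit 3216) (.e (nat_lit 73753) (nat_lit 8) (.e (nat_lit 557091) (nat_lit 12) (.e (nat_lit 164238) (nat_lit 187) (.e (nat_lit 1661) (nat_lit 115) (.e (nat_lit 393251) (nat_lit 18) (.e (nat_lit 164160) (nat_lit 152) (.e (nat_lit 7936) (nat_lit 89) .nil))))))) (.g (nat_lit 5) .nil .nil))) 
(.lf (nat_lit 201518) (.g (nat_lit 372) (.e (nat_lit 73753) (nat_lit 8) (.e (nat_lit 557093) (nat_lit 12) (.e (nat_lit 164239) (nat_lit 187) .nil))) .nil))) (.nd (nat_lit 5) 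
(.lf (nat_lit 201502) (.g (nat_lit 2411) (.e (nat_lit 73753) (nat_lit 8) (.e (nat_lit 557093) (nat_lit 12) (.e (nat_lit 164238) (nat_lit 187) (.e (nat_lit 1660) (nat_lit 115) (.e (nat_lit 393253) (nat_lit 18) (.e (nat_lit 164150) (nat_lit 152) (.e (nat_lit 1207) (nat_lit 89) .nil))))))) (.g (nat_lit 4) .nil .nil))) 
(.lf (nat_lit 201534) (.g (nat_lit 1912) (.e (nat_lit 73753) (nat_lit 8) (.e (nat_lit 557093) (nat_lit 12) (.e (nat_lit 164239) (nat_lit 187) (.e (nat_lit 1661) (nat_lit 115) (.e (nat_lit 393252) (nat_lit 18) (.e (nat_lit 164165) (nat_lit 152) (.e (nat_lit 1208) (nat_lit 89) .nil))))))) (.g (nat_lit 4) .nil .nil)))))))) 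
(.nd (nat_lit 1) (.nd (nat_lit 2) (.nd (nat_lit 3) (.nd (nat_lit 4) (.nd (nat_lit 5) 
(.lf (nat_lit 201473) (.g (nat_lit 2877) (.e (nat_lit 73753) (nat_lit 8) (.e (nat_lit 557091) (nat_lit 12) (.e (nat_lit 164238) (nat_lit 187) (.e (nat_lit 1661) (nat_lit 115) (.e (nat_lit 393251) (nat_lit 18) (.e (nat_lit 164148) (nat_lit 152) (.e (nat_lit 1206) (nat_lit 89) .nil))))))) (.g (nat_lit 4) .nil .nil))) 
(.lf (nat_lit 201505) (.g (nat_lit 2255) (.e (nat_lit 73753) (nat_lit 8) (.e (nat_lit 557093) (nat_lit 12) (.e (nat_lit 164238) (nat_lit 187) (.e (nat_lit 1661) (nat_lit 115) (.e (nat_lit 393251) (nat_lit 18) (.e (nat_lit 164148) (nat_lit 152) (.e (nat_lit 1206) (nat_lit 89) .nil))))))) (.g (nat_lit 4) .nil .nil)))) (.nd (nat_lit 5) 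
(.lf (nat_lit 201489) (.g (nat_lit 2349) (.e (nat_lit 73753) (nat_lit 8) (.e (nat_lit 557091) (nat_lit 12) (.e (nat_lit 164238) (nat_lit 187) (.e (nat_lit 1661) (nat_lit 115) (.e (nat_lit 393252) (nat_lit 18) (.e (nat_lit 164159) (nat_lit 152) (.e (nat_lit 7936) (nat_lit 89) .nil))))))) (.g (nat_lit 4) .nil .nil))) 
(.lf (nat_lit 201521) (.g (nat_lit 1889) (.e (nat_lit 73753) (nat_lit 8) (.e (nat_lit 557093) (nat_lit 12) (.e (nat_lit 164239) (nat_lit 187) (.e (nat_lit 1661) (nat_lit 115) (.e (nat_lit 393251) (nat_lit 18) (.e (nat_lit 164148) (nat_lit 152) (.e (nat_lit 1208) (nat_lit 89) .nil))))))) (.g (nat_lit 4) .nil .nil))))) (.nd (nat_lit 4) (.nd (nat_lit 5) 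
(.lf (nat_lit 201481) (.g (nat_lit 2572) (.e (nat_lit 73753) (nat_lit 8) (.e (nat_lit 557091) (nat_lit 12) (.e (nat_lit 164238) (nat_lit 187) (.e (nat_lit 1661) (nat_lit 115) (.e (nat_lit 393251) (nat_lit 18) (.e (nat_lit 164153) (nat_lit 152) (.e (nat_lit 7936) (nat_lit 89) .nil))))))) (.g (nat_lit 4) .nil .nil))) 
(.lf (nat_lit 201513) (.g (nat_lit 2892) (.e (nat_lit 73753) (nat_lit 8) (.e (nat_lit 557093) (nat_lit 12) (.e (nat_lit 164238) (nat_lit 187) (.e (nat_lit 1661) (nat_lit 115) (.e (nat_lit 393252) (nat_lit 18) (.e (nat_lit 164161) (nat_lit 152) (.e (nat_lit 1208) (nat_lit 89) .nil))))))) (.g (nat_lit 5) .nil .nil)))) (.nd (nat_lit 5) 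
(.lf (nat_lit 201497) (.g (nat_lit 3163) (.e (nat_lit 73753) (nat_lit 8) (.e (nat_lit 557093) (nat_lit 12) (.e (nat_lit 163998) (nat_lit 38) (.e (nat_lit 639017) (nat_lit 15) (.e (nat_lit 57480) (nat_lit 28) (.e (nat_lit 557105) (nat_lit 14) (.e (nat_lit 180252) (nat_lit 10) (.e (nat_lit 573488) (nat_lit 14) .nil)))))))) (.g (nat_lit 5) .nil .nil))) 
(.lf (nat_lit 201529) (.g (nat_lit 2789) (.e (nat_lit 73753) (nat_lit 8) (.e (nat_lit 557093) (nat_lit 12) (.e (nat_lit 164239) (nat_lit 187) (.e (nat_lit 1661) (nat_lit 115) (.e (nat_lit 393251) (nat_lit 18) (.e (nat_lit 164161) (nat_lit 152) (.e (nat_lit 7936) (nat_lit 89) .nil))))))) (.g (nat_lit 5) .nil .nil)))))) (.nd (nat_lit 3) (.nd (nat_lit 4) (.nd (nat_lit 5) 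
(.lf (nat_lit 201477) (.g (nat_lit 3390) (.e (nat_lit 73753) (nat_lit 8) (.e (nat_lit 557091) (nat_lit 12) (.e (nat_lit 164238) (nat_lit 187) (.e (nat_lit 1661) (nat_lit 115) (.e (nat_lit 393251) (nat_lit 18) (.e (nat_lit 164150) (nat_lit 152) (.e (nat_lit 1207) (nat_lit 89) .nil))))))) (.g (nat_lit 5) .nil .nil))) 
(.lf (nat_lit 201509) (.g (nat_lit 2734) (.e (nat_lit 73753) (nat_lit 8) (.e (nat_lit 557093) (nat_lit 12) (.e (nat_lit 164238) (nat_lit 187) (.e (nat_lit 1661) (nat_lit 115) (.e (nat_lit 393251) (nat_lit 18) (.e (nat_lit 164156) (nat_lit 152) (.e (nat_lit 1205) (nat_lit 89) .nil))))))) (.g (nat_lit 4) .nil .nil)))) (.nd (nat_lit 5) 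
(.lf (nat_lit 201493) (.g (nat_lit 2690) (.e (nat_lit 73753) (nat_lit 8) (.e (nat_lit 557091) (nat_lit 12) (.e (nat_lit 164238) (nat_lit 187) (.e (nat_lit 1661) (nat_lit 115) (.e (nat_lit 393252) (nat_lit 18) (.e (nat_lit 164164) (nat_lit 152) (.e (nat_lit 1208) (nat_lit 89) .nil))))))) (.g (nat_lit 4) .nil .nil))) 
(.lf (nat_lit 201525) (.g (nat_lit 1761) (.e (nat_lit 73753) (nat_lit 8) (.e (nat_lit 557093) (nat_lit 12) (.e (nat_lit 164239) (nat_lit 187) (.e (nat_lit 1661) (nat_lit 115) (.e (nat_lit 393251) (nat_lit 18) (.e (nat_lit 164153) (nat_lit 152) (.e (nat_lit 7936) (nat_lit 89) .nil))))))) (.g (nat_lit 4) .nil .nil))))) (.nd (nat_lit 4) (.nd (nat_lit 5) 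
(.lf (nat_lit 201485) (.g (nat_lit 2776) (.e (nat_lit 73753) (nat_lit 8) (.e (nat_lit 557091) (nat_lit 12) (.e (nat_lit 164238) (nat_lit 187) (.e (nat_lit 1661) (nat_lit 115) (.e (nat_lit 393251) (nat_lit 18) (.e (nat_lit 164160) (nat_lit 152) (.e (nat_lit 1208) (nat_lit 89) .nil))))))) (.g (nat_lit 4) .nil .nil))) 
(.lf (nat_lit 201517) (.g (nat_lit 3165) (.e (nat_lit 73753) (nat_lit 8) (.e (nat_lit 557093) (nat_lit 12) (.e (nat_lit 164238) (nat_lit 187) (.e (nat_lit 1661) (nat_lit 115) (.e (nat_lit 393253) (nat_lit 18) (.e (nat_lit 164150) (nat_lit 152) (.e (nat_lit 1207) (nat_lit 89) .nil))))))) (.g (nat_lit 4) .nil .nil)))) (.nd (nat_lit 5) 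
(.lf (nat_lit 201501) (.g (nat_lit 1640) (.e (nat_lit 73753) (nat_lit 8) (.e (nat_lit 557093) (nat_lit 12) (.e (nat_lit 164238) (nat_lit 187) (.e (nat_lit 1660) (nat_lit 115) (.e (nat_lit 393253) (nat_lit 18) .nil))))) .nil)) 
(.lf (nat_lit 201533) (.g (nat_lit 2953) (.e (nat_lit 73753) (nat_lit 8) (.e (nat_lit 557093) (nat_lit 12) (.e (nat_lit 164239) (nat_lit 187) (.e (nat_lit 1661) (nat_lit 115) (.e (nat_lit 393252) (nat_lit 18) (.e (nat_lit 164161) (nat_lit 152) (.e (nat_lit 7936) (nat_lit 89) .nil))))))) (.g (nat_lit 5) .nil .nil))))))) (.nd (nat_lit 2) (.nd (nat_lit 3) (.nd (nat_lit 4) (.nd (nat_lit 5) 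
(.lf (nat_lit 201475) (.g (nat_lit 2843) (.e (nat_lit 73753) (nat_lit 8) (.e (nat_lit 557091) (nat_lit 12) (.e (nat_lit 164238) (nat_lit 187) (.e (nat_lit 1661) (nat_lit 115) (.e (nat_lit 393251) (nat_lit 18) (.e (nat_lit 164148) (nat_lit 152) (.e (nat_lit 1208) (nat_lit 89) .nil))))))) (.g (nat_lit 4) .nil .nil))) 
(.lf (nat_lit 201507) (.g (nat_lit 2516) (.e (nat_lit 73753) (nat_lit 8) (.e (nat_lit 557093) (nat_lit 12) (.e (nat_lit 164238) (nat_lit 187) (.e (nat_lit 1661) (nat_lit 115) (.e (nat_lit 393251) (nat_lit 18) (.e (nat_lit 164153) (nat_lit 152) (.e (nat_lit 1208) (nat_lit 89) .nil))))))) (.g (nat_lit 4) .nil .nil)))) (.nd (nat_lit 5) 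
(.lf (nat_lit 201491) (.g (nat_lit 3661) (.e (nat_lit 73753) (nat_lit 8) (.e (nat_lit 557091) (nat_lit 12) (.e (nat_lit 164238) (nat_lit 187) (.e (nat_lit 1661) (nat_lit 115) (.e (nat_lit 393252) (nat_lit 18) (.e (nat_lit 164161) (nat_lit 152) (.e (nat_lit 1208) (nat_lit 89) .nil))))))) (.g (nat_lit 5) .nil .nil))) 
(.lf (nat_lit 201523) (.g (nat_lit 2800) (.e (nat_lit 73753) (nat_lit 8) (.e (nat_lit 557093) (nat_lit 12) (.e (nat_lit 164239) (nat_lit 187) (.e (nat_lit 1661) (nat_lit 115) (.e (nat_lit 393251) (nat_lit 18) (.e (nat_lit 164151) (nat_lit 152) (.e (nat_lit 1207) (nat_lit 89) .nil))))))) (.g (nat_lit 5) .nil .nil))))) (.nd (nat_lit 4) (.nd (nat_lit 5) 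
(.lf (nat_lit 201483) (.g (nat_lit 2380) (.e (nat_lit 73753) (nat_lit 8) (.e (nat_lit 557091) (nat_lit 12) (.e (nat_lit 164238) (nat_lit 187) (.e (nat_lit 1661) (nat_lit 115) (.e (nat_lit 393251) (nat_lit 18) (.e (nat_lit 164155) (nat_lit 152) (.e (nat_lit 1208) (nat_lit 89) .nil))))))) (.g (nat_lit 4) .nil .nil))) 
(.lf (nat_lit 201515) (.g (nat_lit 2338) (.e (nat_lit 73753) (nat_lit 8) (.e (nat_lit 557093) (nat_lit 12) (.e (nat_lit 164238) (nat_lit 187) (.e (nat_lit 1661) (nat_lit 115) (.e (nat_lit 393252) (nat_lit 18) (.e (nat_lit 164165) (nat_lit 152) (.e (nat_lit 1208) (nat_lit 89) .nil))))))) (.g (nat_lit 4) .nil .nil)))) (.nd (nat_lit 5) 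
(.lf (nat_lit 201499) (.g (nat_lit 2025) (.e (nat_lit 73753) (nat_lit 8) (.e (nat_lit 557093) (nat_lit 12) (.e (nat_lit 164238) (nat_lit 187) (.e (nat_lit 1428) (nat_lit 108) (.e (nat_lit 336425) (nat_lit 28) .nil))))) .nil)) 
(.lf (nat_lit 201531) (.g (nat_lit 2002) (.e (nat_lit 73753) (nat_lit 8) (.e (nat_lit 557093) (nat_lit 12) (.e (nat_lit 164239) (nat_lit 187) (.e (nat_lit 1661) (nat_lit 115) (.e (nat_lit 393252) (nat_lit 18) (.e (nat_lit 164159) (nat_lit 152) (.e (nat_lit 1208) (nat_lit 89) .nil))))))) (.g (nat_lit 4) .nil .nil)))))) (.nd (nat_lit 3) (.nd (nat_lit 4) (.nd (nat_lit 5) 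
(.lf (nat_lit 201479) (.g (nat_lit 2898) (.e (nat_lit 73753) (nat_lit 8) (.e (nat_lit 557091) (nat_lit 12) (.e (nat_lit 164238) (nat_lit 187) (.e (nat_lit 1661) (nat_lit 115) (.e (nat_lit 393251) (nat_lit 18) (.e (nat_lit 164152) (nat_lit 152) (.e (nat_lit 1214) (nat_lit 89) .nil))))))) (.g (nat_lit 4) .nil .nil))) 
(.lf (nat_lit 201511) (.g (nat_lit 2969) (.e (nat_lit 73753) (nat_lit 8) (.e (nat_lit 557093) (nat_lit 12) (.e (nat_lit 164238) (nat_lit 187) (.e (nat_lit 1661) (nat_lit 115) (.e (nat_lit 393251) (nat_lit 18) (.e (nat_lit 164161) (nat_lit 152) (.e (nat_lit 7936) (nat_lit 89) .nil))))))) (.g (nat_lit 5) .nil .nil)))) (.nd (nat_lit 5) 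
(.lf (nat_lit 201495) (.g (nat_lit 2333) (.e (nat_lit 73753) (nat_lit 8) (.e (nat_lit 557091) (nat_lit 12) (.e (nat_lit 164238) (nat_lit 187) (.e (nat_lit 1661) (nat_lit 115) (.e (nat_lit 393253) (nat_lit 18) (.e (nat_lit 164150) (nat_lit 152) (.e (nat_lit 1206) (nat_lit 89) .nil))))))) (.g (nat_lit 4) .nil .nil))) 
(.lf (nat_lit 201527) (.g (nat_lit 2405) (.e (nat_lit 73753) (nat_lit 8) (.e (nat_lit 557093) (nat_lit 12) (.e (nat_lit 164239) (nat_lit 187) (.e (nat_lit 1661) (nat_lit 115) (.e (nat_lit 393251) (nat_lit 18) (.e (nat_lit 164160) (nat_lit 152) (.e (nat_lit 7936) (nat_lit 89) .nil))))))) (.g (nat_lit 5) .nil .nil))))) (.nd (nat_lit 4) (.nd (nat_lit 5) 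
(.lf (nat_lit 201487) (.g (nat_lit 3553) (.e (nat_lit 73753) (nat_lit 8) (.e (nat_lit 557091) (nat_lit 12) (.e (nat_lit 164238) (nat_lit 187) (.e (nat_lit 1661) (nat_lit 115) (.e (nat_lit 393251) (nat_lit 18) (.e (nat_lit 164161) (nat_lit 152) (.e (nat_lit 1208) (nat_lit 89) .nil))))))) (.g (nat_lit 5) .nil .nil))) 
(.lf (nat_lit 201519) (.g (nat_lit 1968) (.e (nat_lit 73753) (nat_lit 8) (.e (nat_lit 557093) (nat_lit 12) (.e (nat_lit 164239) (nat_lit 187) (.e (nat_lit 1661) (nat_lit 115) (.e (nat_lit 393238) (nat_lit 17) (.e (nat_lit 7936) (nat_lit 216) (.e (nat_lit 688180) (nat_lit 17) .nil))))))) (.g (nat_lit 4) .nil .nil)))) (.nd (nat_lit 5) 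
(.lf (nat_lit 201503) (.g (nat_lit 3050) (.e (nat_lit 73753) (nat_lit 8) (.e (nat_lit 557093) (nat_lit 12) (.e (nat_lit 164238) (nat_lit 187) (.e (nat_lit 1661) (nat_lit 115) (.e (nat_lit 393238) (nat_lit 17) (.e (nat_lit 7936) (nat_lit 216) (.e (nat_lit 688180) (nat_lit 17) .nil))))))) (.g (nat_lit 5) .nil .nil))) 
(.lf (nat_lit 201535) (.g (nat_lit 1857) (.e (nat_lit 73753) (nat_lit 8) (.e (nat_lit 557093) (nat_lit 12) (.e (nat_lit 164239) (nat_lit 187) (.e (nat_lit 1661) (nat_lit 115) (.e (nat_lit 393252) (nat_lit 18) (.e (nat_lit 164167) (nat_lit 152) (.e (nat_lit 1208) (nat_lit 89) .nil))))))) (.g (nat_lit 4) .nil .nil)))))))))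

noncomputable def tv2660 : DT := (.nd (nat_lit 0) (.nd (nat_lit 1) (.nd (nat_lit 2) (.nd (nat_lit 3) (.nd (nat_lit 4) (.nd (nat_lit 5) 
(.lf (nat_lit 201536) (.g (nat_lit 2372) (.e (nat_lit 73753) (nat_lit 8) (.e (nat_lit 557093) (nat_lit 12) (.e (nat_lit 164239) (nat_lit 187) (.e (nat_lit 1661) (nat_lit 115) (.e (nat_lit 393253) (nat_lit 18) (.e (nat_lit 164150) (nat_lit 152) (.e (nat_lit 1207) (nat_lit 89) .nil))))))) (.g (nat_lit 4) .nil .nil))) 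
(.lf (nat_lit 201568) (.g (nat_lit 2213) (.e (nat_lit 73753) (nat_lit 8) (.e (nat_lit 557096) (nat_lit 13) (.e (nat_lit 172064) (nat_lit 2) (.e (nat_lit 196661) (nat_lit 12) (.e (nat_lit 57573) (nat_lit 55) (.e (nat_lit 778316) (nat_lit 3) (.e (nat_lit 57454) (nat_lit 21) (.e (nat_lit 507648) (nat_lit 19) .nil)))))))) (.g (nat_lit 5) .nil .nil)))) (.nd (nat_lit 5) 
(.lf (nat_lit 201552) (.g (nat_lit 2798) (.e (nat_lit 73753) (nat_lit 8) (.e (nat_lit 557094) (nat_lit 12) (.e (nat_lit 164238) (nat_lit 187) (.e (nat_lit 1661) (nat_lit 115) (.e (nat_lit 393251) (nat_lit 18) (.e (nat_lit 164153) (nat_lit 152) (.e (nat_lit 1208) (nat_lit 89) .nil))))))) (.g (nat_lit 5) .nil .nil))) 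
(.lf (nat_lit 201584) (.g (nat_lit 1793) (.e (nat_lit 73753) (nat_lit 8) (.e (nat_lit 557098) (nat_lit 13) (.e (nat_lit 172051) (nat_lit 0) (.e (nat_lit 3289) (nat_lit 201) (.e (nat_lit 565252) (nat_lit 0) (.e (nat_lit 1634) (nat_lit 114) (.e (nat_lit 385059) (nat_lit 22) (.e (nat_lit 500071) (nat_lit 19) .nil)))))))) (.g (nat_lit 4) .nil .nil))))) (.nd (nat_lit 4) (.nd (nat_lit 5) 
(.lf (nat_lit 201544) (.g (nat_lit 3078) (.e (nat_lit 73753) (nat_lit 8) (.e (nat_lit 557094) (nat_lit 12) (.e (nat_lit 164238) (nat_lit 187) (.e (nat_lit 1661) (nat_lit 115) (.e (nat_lit 393238) (nat_lit 17) (.e (nat_lit 7936) (nat_lit 216) (.e (nat_lit 688180) (nat_lit 17) .nil))))))) (.g (nat_lit 5) .nil .nil))) 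
(.lf (nat_lit 201576) (.g (nat_lit 2384) (.e (nat_lit 73753) (nat_lit 8) (.e (nat_lit 557096) (nat_lit 13) (.e (nat_lit 172133) (nat_lit 15) (.e (nat_lit 2175) (nat_lit 143) (.e (nat_lit 712749) (nat_lit 28) (.e (nat_lit 434285) (nat_lit 42) (.e (nat_lit 688180) (nat_lit 17) .nil))))))) (.g (nat_lit 5) .nil .nil)))) (.nd (nat_lit 5) 
(.lf (nat_lit 201560) (.g (nat_lit 2628) (.e (nat_lit 73753) (nat_lit 8) (.e (nat_lit 557094) (nat_lit 12) (.e (nat_lit 164238) (nat_lit 187) (.e (nat_lit 1661) (nat_lit 115) (.e (nat_lit 393252) (nat_lit 18) (.e (nat_lit 164159) (nat_lit 152) (.e (nat_lit 1208) (nat_lit 89) .nil))))))) (.g (nat_lit 4) .nil .nil))) 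
(.lf (nat_lit 201592) (.g (nat_lit 2868) (.e (nat_lit 73753) (nat_lit 8) (.e (nat_lit 557098) (nat_lit 13) (.e (nat_lit 172062) (nat_lit 2) (.e (nat_lit 196656) (nat_lit 11) (.e (nat_lit 16392) (nat_lit 0) (.e (nat_lit 3279) (nat_lit 200) (.e (nat_lit 564992) (nat_lit 5) .nil))))))) (.g (nat_lit 5) .nil .nil)))))) (.nd (nat_lit 3) (.nd (nat_lit 4) (.nd (nat_lit 5) 
(.lf (nat_lit 201540) (.g (nat_lit 1571) (.e (nat_lit 73753) (nat_lit 8) (.e (nat_lit 557094) (nat_lit 12) (.e (nat_lit 164238) (nat_lit 187) (.e (nat_lit 1659) (nat_lit 115) (.e (nat_lit 393237) (nat_lit 17) .nil))))) .nil)) 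
(.lf (nat_lit 201572) (.g (nat_lit 3004) (.e (nat_lit 73753) (nat_lit 8) (.e (nat_lit 557096) (nat_lit 13) (.e (nat_lit 172133) (nat_lit 15) (.e (nat_lit 2059) (nat_lit 142) (.e (nat_lit 704595) (nat_lit 5) (.e (nat_lit 180229) (nat_lit 0) (.e (nat_lit 6296) (nat_lit 337) (.e (nat_lit 1209) (nat_lit 89) .nil)))))))) (.g (nat_lit 4) .nil .nil)))) (.nd (nat_lit 5) 
(.lf (nat_lit 201556) (.g (nat_lit 2301) (.e (nat_lit 73753) (nat_lit 8) (.e (nat_lit 557094) (nat_lit 12) (.e (nat_lit 164238) (nat_lit 187) (.e (nat_lit 1661) (nat_lit 115) (.e (nat_lit 393251) (nat_lit 18) (.e (nat_lit 164160) (nat_lit 152) (.e (nat_lit 1208) (nat_lit 89) .nil))))))) (.g (nat_lit 4) .nil .nil))) 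
(.lf (nat_lit 201588) (.g (nat_lit 2542) (.e (nat_lit 73753) (nat_lit 8) (.e (nat_lit 557098) (nat_lit 13) (.e (nat_lit 172061) (nat_lit 1) (.e (nat_lit 164327) (nat_lit 230) (.e (nat_lit 163886) (nat_lit 5) (.e (nat_lit 221208) (nat_lit 21) (.e (nat_lit 164312) (nat_lit 226) (.e (nat_lit 7936) (nat_lit 89) .nil)))))))) (.g (nat_lit 4) .nil .nil))))) (.nd (nat_lit 4) (.nd (nat_lit 5) 
(.lf (nat_lit 201548) (.g (nat_lit 2434) (.e (nat_lit 73753) (nat_lit 8) (.e (nat_lit 557094) (nat_lit 12) (.e (nat_lit 164238) (nat_lit 187) (.e (nat_lit 1661) (nat_lit 115) (.e (nat_lit 393251) (nat_lit 18) (.e (nat_lit 164149) (nat_lit 152) (.e (nat_lit 1207) (nat_lit 89) .nil))))))) (.g (nat_lit 4) .nil .nil))) 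
(.lf (nat_lit 201580) (.g (nat_lit 1439) (.e (nat_lit 73753) (nat_lit 8) (.e (nat_lit 557097) (nat_lit 13) (.e (nat_lit 172067) (nat_lit 3) (.e (nat_lit 212736) (nat_lit 15) .nil)))) .nil))) (.nd (nat_lit 5) 
(.lf (nat_lit 201564) (.g (nat_lit 2591) (.e (nat_lit 73753) (nat_lit 8) (.e (nat_lit 557094) (nat_lit 12) (.e (nat_lit 164238) (nat_lit 187) (.e (nat_lit 1661) (nat_lit 115) (.e (nat_lit 393252) (nat_lit 18) (.e (nat_lit 164165) (nat_lit 152) (.e (nat_lit 1208) (nat_lit 89) .nil))))))) (.g (nat_lit 4) .nil .nil))) 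
(.lf (nat_lit 201596) (.g (nat_lit 2700) (.e (nat_lit 73753) (nat_lit 8) (.e (nat_lit 557098) (nat_lit 13) (.e (nat_lit 172062) (nat_lit 2) (.e (nat_lit 196661) (nat_lit 12) (.e (nat_lit 57575) (nat_lit 55) (.e (nat_lit 786176) (nat_lit 0) (.e (nat_lit 1239) (nat_lit 91) (.e (nat_lit 98048) (nat_lit 5) .nil)))))))) (.g (nat_lit 5) .nil .nil))))))) 
(.nd (nat_lit 2) (.nd (nat_lit 3) (.nd (nat_lit 4) (.nd (nat_lit 5) 
(.lf (nat_lit 201538) (.g (nat_lit 1823) (.e (nat_lit 73753) (nat_lit 8) (.e (nat_lit 557094) (nat_lit 12) (.e (nat_lit 164238) (nat_lit 187) (.e (nat_lit 1427) (nat_lit 108) (.e (nat_lit 336425) (nat_lit 28) (.e (nat_lit 434286) (nat_lit 42) (.e (nat_lit 688179) (nat_lit 17) .nil))))))) (.g (nat_lit 4) .nil .nil))) 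
(.lf (nat_lit 201570) (.g (nat_lit 3823) (.e (nat_lit 73753) (nat_lit 8) (.e (nat_lit 557096) (nat_lit 13) (.e (nat_lit 172133) (nat_lit 15) (.e (nat_lit 2059) (nat_lit 142) (.e (nat_lit 704595) (nat_lit 5) (.e (nat_lit 180229) (nat_lit 0) (.e (nat_lit 6270) (nat_lit 337) (.e (nat_lit 1214) (nat_lit 89) .nil)))))))) (.g (nat_lit 5) .nil .nil)))) (.nd (nat_lit 5) 
(.lf (nat_lit 201554) (.g (nat_lit 2485) (.e (nat_lit 73753) (nat_lit 8) (.e (nat_lit 557094) (nat_lit 12) (.e (nat_lit 164238) (nat_lit 187) (.e (nat_lit 1661) (nat_lit 115) (.e (nat_lit 393251) (nat_lit 18) (.e (nat_lit 164154) (nat_lit 152) (.e (nat_lit 1214) (nat_lit 89) .nil))))))) (.g (nat_lit 4) .nil .nil))) 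
(.lf (nat_lit 201586) (.g (nat_lit 2028) (.e (nat_lit 73753) (nat_lit 8) (.e (nat_lit 557098) (nat_lit 13) (.e (nat_lit 172061) (nat_lit 1) (.e (nat_lit 164327) (nat_lit 230) (.e (nat_lit 163886) (nat_lit 5) .nil))))) .nil)))) (.nd (nat_lit 4) (.nd (nat_lit 5) 
(.lf (nat_lit 201546) (.g (nat_lit 3212) (.e (nat_lit 73753) (nat_lit 8) (.e (nat_lit 557094) (nat_lit 12) (.e (nat_lit 164238) (nat_lit 187) (.e (nat_lit 1661) (nat_lit 115) (.e (nat_lit 393251) (nat_lit 18) (.e (nat_lit 164148) (nat_lit 152) (.e (nat_lit 1207) (nat_lit 89) .nil))))))) (.g (nat_lit 5) .nil .nil))) 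
(.lf (nat_lit 201578) (.g (nat_lit 475) (.e (nat_lit 73753) (nat_lit 8) (.e (nat_lit 557097) (nat_lit 13) (.e (nat_lit 172064) (nat_lit 2) .nil))) .nil))) (.nd (nat_lit 5) 
(.lf (nat_lit 201562) (.g (nat_lit 3129) (.e (nat_lit 73753) (nat_lit 8) (.e (nat_lit 557094) (nat_lit 12) (.e (nat_lit 164238) (nat_lit 187) (.e (nat_lit 1661) (nat_lit 115) (.e (nat_lit 393252) (nat_lit 18) (.e (nat_lit 164161) (nat_lit 152) (.e (nat_lit 1208) (nat_lit 89) .nil))))))) (.g (nat_lit 5) .nil .nil))) 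
(.lf (nat_lit 201594) (.g (nat_lit 2724) (.e (nat_lit 73753) (nat_lit 8) (.e (nat_lit 557098) (nat_lit 13) (.e (nat_lit 172062) (nat_lit 2) (.e (nat_lit 196656) (nat_lit 11) (.e (nat_lit 16397) (nat_lit 0) (.e (nat_lit 3289) (nat_lit 201) (.e (nat_lit 565268) (nat_lit 5) .nil))))))) (.g (nat_lit 4) .nil .nil)))))) (.nd (nat_lit 3) (.nd (nat_lit 4) (.nd (nat_lit 5) 
(.lf (nat_lit 201542) (.g (nat_lit 1330) (.e (nat_lit 73753) (nat_lit 8) (.e (nat_lit 557094) (nat_lit 12) (.e (nat_lit 164238) (nat_lit 187) (.e (nat_lit 1660) (nat_lit 115) (.e (nat_lit 393253) (nat_lit 18) .nil))))) .nil)) 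
(.lf (nat_lit 201574) (.g (nat_lit 2773) (.e (nat_lit 73753) (nat_lit 8) (.e (nat_lit 557096) (nat_lit 13) (.e (nat_lit 172133) (nat_lit 15) (.e (nat_lit 2059) (nat_lit 142) (.e (nat_lit 704596) (nat_lit 5) (.e (nat_lit 180228) (nat_lit 0) (.e (nat_lit 6277) (nat_lit 337) (.e (nat_lit 1214) (nat_lit 89) .nil)))))))) (.g (nat_lit 4) .nil .nil)))) (.nd (nat_lit 5) 
(.lf (nat_lit 201558) (.g (nat_lit 3029) (.e (nat_lit 73753) (nat_lit 8) (.e (nat_lit 557094) (nat_lit 12) (.e (nat_lit 164238) (nat_lit 187) (.e (nat_lit 1661) (nat_lit 115) (.e (nat_lit 393251) (nat_lit 18) (.e (nat_lit 164161) (nat_lit 152) (.e (nat_lit 1208) (nat_lit 89) .nil))))))) (.g (nat_lit 5) .nil .nil))) 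
(.lf (nat_lit 201590) (.g (nat_lit 2012) (.e (nat_lit 73753) (nat_lit 8) (.e (nat_lit 557098) (nat_lit 13) (.e (nat_lit 172062) (nat_lit 2) (.e (nat_lit 196653) (nat_lit 11) (.e (nat_lit 16397) (nat_lit 0) (.e (nat_lit 3289) (nat_lit 201) (.e (nat_lit 565268) (nat_lit 5) .nil))))))) (.g (nat_lit 4) .nil .nil))))) (.nd (nat_lit 4) (.nd (nat_lit 5) 
(.lf (nat_lit 201550) (.g (nat_lit 3287) (.e (nat_lit 73753) (nat_lit 8) (.e (nat_lit 557094) (nat_lit 12) (.e (nat_lit 164238) (nat_lit 187) (.e (nat_lit 1661) (nat_lit 115) (.e (nat_lit 393251) (nat_lit 18) (.e (nat_lit 164151) (nat_lit 152) (.e (nat_lit 1207) (nat_lit 89) .nil))))))) (.g (nat_lit 5) .nil .nil))) 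
(.lf (nat_lit 201582) (.g (nat_lit 489) (.e (nat_lit 73753) (nat_lit 8) (.e (nat_lit 557098) (nat_lit 13) (.e (nat_lit 172051) (nat_lit 0) .nil))) .nil))) (.nd (nat_lit 5) 
(.lf (nat_lit 201566) (.g (nat_lit 1850) (.e (nat_lit 73753) (nat_lit 8) (.e (nat_lit 557094) (nat_lit 12) (.e (nat_lit 164238) (nat_lit 187) (.e (nat_lit 1661) (nat_lit 115) (.e (nat_lit 393253) (nat_lit 18) .nil))))) .nil)) 
(.lf (nat_lit 201598) (.g (nat_lit 3203) (.e (nat_lit 73753) (nat_lit 8) (.e (nat_lit 557098) (nat_lit 13) (.e (nat_lit 172063) (nat_lit 2) (.e (nat_lit 196656) (nat_lit 11) (.e (nat_lit 16392) (nat_lit 0) (.e (nat_lit 3281) (nat_lit 200) (.e (nat_lit 564992) (nat_lit 5) .nil))))))) (.g (nat_lit 5) .nil .nil)))))))) 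
(.nd (nat_lit 1) (.nd (nat_lit 2) (.nd (nat_lit 3) (.nd (nat_lit 4) (.nd (nat_lit 5) 
(.lf (nat_lit 201537) (.g (nat_lit 3572) (.e (nat_lit 73753) (nat_lit 8) (.e (nat_lit 557094) (nat_lit 12) (.e (nat_lit 163998) (nat_lit 38) (.e (nat_lit 639017) (nat_lit 15) (.e (nat_lit 57479) (nat_lit 28) (.e (nat_lit 557103) (nat_lit 14) (.e (nat_lit 180250) (nat_lit 10) (.e (nat_lit 573487) (nat_lit 14) .nil)))))))) (.g (nat_lit 5) .nil .nil))) 
(.lf (nat_lit 201569) (.g (nat_lit 2718) (.e (nat_lit 73753) (nat_lit 8) (.e (nat_lit 557096) (nat_lit 13) (.e (nat_lit 172064) (nat_lit 2) (.e (nat_lit 196661) (nat_lit 12) (.e (nat_lit 57575) (nat_lit 55) (.e (nat_lit 786176) (nat_lit 0) (.e (nat_lit 1239) (nat_lit 91) (.e (nat_lit 98048) (nat_lit 5) .nil)))))))) (.g (nat_lit 5) .nil .nil)))) (.nd (nat_lit 5) 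
(.lf (nat_lit 201553) (.g (nat_lit 2224) (.e (nat_lit 73753) (nat_lit 8) (.e (nat_lit 557094) (nat_lit 12) (.e (nat_lit 164238) (nat_lit 187) (.e (nat_lit 1661) (nat_lit 115) (.e (nat_lit 393251) (nat_lit 18) (.e (nat_lit 164153) (nat_lit 152) (.e (nat_lit 7936) (nat_lit 89) .nil))))))) (.g (nat_lit 4) .nil .nil))) 
(.lf (nat_lit 201585) (.g (nat_lit 706) (.e (nat_lit 73753) (nat_lit 8) (.e (nat_lit 557098) (nat_lit 13) (.e (nat_lit 172061) (nat_lit 1) .nil))) .nil)))) (.nd (nat_lit 4) (.nd (nat_lit 5) 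
(.lf (nat_lit 201545) (.g (nat_lit 2544) (.e (nat_lit 73753) (nat_lit 8) (.e (nat_lit 557094) (nat_lit 12) (.e (nat_lit 164238) (nat_lit 187) (.e (nat_lit 1661) (nat_lit 115) (.e (nat_lit 393251) (nat_lit 18) (.e (nat_lit 164148) (nat_lit 152) (.e (nat_lit 1206) (nat_lit 89) .nil))))))) (.g (nat_lit 4) .nil .nil))) 
(.lf (nat_lit 201577) (.g (nat_lit 4001) (.e (nat_lit 73753) (nat_lit 8) (.e (nat_lit 557096) (nat_lit 13) (.e (nat_lit 172133) (nat_lit 15) (.e (nat_lit 2175) (nat_lit 143) (.e (nat_lit 712749) (nat_lit 28) (.e (nat_lit 434289) (nat_lit 43) (.e (nat_lit 696362) (nat_lit 17) .nil))))))) (.g (nat_lit 7) .nil .nil)))) (.nd (nat_lit 5) 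
(.lf (nat_lit 201561) (.g (nat_lit 2259) (.e (nat_lit 73753) (nat_lit 8) (.e (nat_lit 557094) (nat_lit 12) (.e (nat_lit 164238) (nat_lit 187) (.e (nat_lit 1661) (nat_lit 115) (.e (nat_lit 393252) (nat_lit 18) (.e (nat_lit 164160) (nat_lit 152) (.e (nat_lit 7936) (nat_lit 89) .nil))))))) (.g (nat_lit 4) .nil .nil))) 
(.lf (nat_lit 201593) (.g (nat_lit 3385) (.e (nat_lit 73753) (nat_lit 8) (.e (nat_lit 557098) (nat_lit 13) (.e (nat_lit 172062) (nat_lit 2) (.e (nat_lit 196656) (nat_lit 11) (.e (nat_lit 16392) (nat_lit 0) (.e (nat_lit 3281) (nat_lit 200) (.e (nat_lit 564992) (nat_lit 5) .nil))))))) (.g (nat_lit 5) .nil .nil)))))) (.nd (nat_lit 3) (.nd (nat_lit 4) (.nd (nat_lit 5) 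
(.lf (nat_lit 201541) (.g (nat_lit 3279) (.e (nat_lit 73753) (nat_lit 8) (.e (nat_lit 557094) (nat_lit 12) (.e (nat_lit 164238) (nat_lit 187) (.e (nat_lit 1659) (nat_lit 115) (.e (nat_lit 393253) (nat_lit 18) (.e (nat_lit 164150) (nat_lit 152) (.e (nat_lit 1207) (nat_lit 89) .nil))))))) (.g (nat_lit 5) .nil .nil))) 
(.lf (nat_lit 201573) (.g (nat_lit 2497) (.e (nat_lit 73753) (nat_lit 8) (.e (nat_lit 557096) (nat_lit 13) (.e (nat_lit 172133) (nat_lit 15) (.e (nat_lit 2059) (nat_lit 142) (.e (nat_lit 704596) (nat_lit 5) (.e (nat_lit 180228) (nat_lit 0) (.e (nat_lit 6270) (nat_lit 337) (.e (nat_lit 1207) (nat_lit 89) .nil)))))))) (.g (nat_lit 4) .nil .nil)))) (.nd (nat_lit 5) 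
(.lf (nat_lit 201557) (.g (nat_lit 2868) (.e (nat_lit 73753) (nat_lit 8) (.e (nat_lit 557094) (nat_lit 12) (.e (nat_lit 164238) (nat_lit 187) (.e (nat_lit 1661) (nat_lit 115) (.e (nat_lit 393251) (nat_lit 18) (.e (nat_lit 164160) (nat_lit 152) (.e (nat_lit 7936) (nat_lit 89) .nil))))))) (.g (nat_lit 5) .nil .nil))) 
(.lf (nat_lit 201589) (.g (nat_lit 2444) (.e (nat_lit 73753) (nat_lit 8) (.e (nat_lit 557098) (nat_lit 13) (.e (nat_lit 172062) (nat_lit 2) (.e (nat_lit 196630) (nat_lit 9) (.e (nat_lit 1312) (nat_lit 98) (.e (nat_lit 155392) (nat_lit 0) (.e (nat_lit 1239) (nat_lit 91) (.e (nat_lit 98048) (nat_lit 5) .nil)))))))) (.g (nat_lit 5) .nil .nil))))) (.nd (nat_lit 4) (.nd (nat_lit 5) 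
(.lf (nat_lit 201549) (.g (nat_lit 3010) (.e (nat_lit 73753) (nat_lit 8) (.e (nat_lit 557094) (nat_lit 12) (.e (nat_lit 164238) (nat_lit 187) (.e (nat_lit 1661) (nat_lit 115) (.e (nat_lit 393251) (nat_lit 18) (.e (nat_lit 164150) (nat_lit 152) (.e (nat_lit 1207) (nat_lit 89) .nil))))))) (.g (nat_lit 5) .nil .nil))) 
(.lf (nat_lit 201581) (.g (nat_lit 941) (.e (nat_lit 73753) (nat_lit 8) (.e (nat_lit 557098) (nat_lit 13) (.e (nat_lit 172048) (nat_lit 0) (.e (nat_lit 3289) (nat_lit 201) (.e (nat_lit 565252) (nat_lit 0) .nil))))) .nil))) (.nd (nat_lit 5) 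
(.lf (nat_lit 201565) (.g (nat_lit 2536) (.e (nat_lit 73753) (nat_lit 8) (.e (nat_lit 557094) (nat_lit 12) (.e (nat_lit 164238) (nat_lit 187) (.e (nat_lit 1661) (nat_lit 115) (.e (nat_lit 393252) (nat_lit 18) (.e (nat_lit 164167) (nat_lit 152) (.e (nat_lit 1208) (nat_lit 89) .nil))))))) (.g (nat_lit 4) .nil .nil))) 
(.lf (nat_lit 201597) (.g (nat_lit 2697) (.e (nat_lit 73753) (nat_lit 8) (.e (nat_lit 557098) (nat_lit 13) (.e (nat_lit 172063) (nat_lit 2) (.e (nat_lit 196656) (nat_lit 11) (.e (nat_lit 16392) (nat_lit 0) (.e (nat_lit 3279) (nat_lit 200) (.e (nat_lit 564992) (nat_lit 5) .nil))))))) (.g (nat_lit 5) .nil .nil))))))) (.nd (nat_lit 2) (.nd (nat_lit 3) (.nd (nat_lit 4) (.nd (nat_lit 5) 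
(.lf (nat_lit 201539) (.g (nat_lit 2489) (.e (nat_lit 73753) (nat_lit 8) (.e (nat_lit 557094) (nat_lit 12) (.e (nat_lit 164238) (nat_lit 187) (.e (nat_lit 1658) (nat_lit 115) (.e (nat_lit 393253) (nat_lit 18) (.e (nat_lit 164150) (nat_lit 152) (.e (nat_lit 1207) (nat_lit 89) .nil))))))) (.g (nat_lit 5) .nil .nil))) 
(.lf (nat_lit 201571) (.g (nat_lit 4222) (.e (nat_lit 73753) (nat_lit 8) (.e (nat_lit 557096) (nat_lit 13) (.e (nat_lit 172133) (nat_lit 15) (.e (nat_lit 2059) (nat_lit 142) (.e (nat_lit 704595) (nat_lit 5) (.e (nat_lit 180229) (nat_lit 0) (.e (nat_lit 6277) (nat_lit 337) (.e (nat_lit 1214) (nat_lit 89) .nil)))))))) (.g (nat_lit 5) .nil .nil)))) (.nd (nat_lit 5) 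
(.lf (nat_lit 201555) (.g (nat_lit 3023) (.e (nat_lit 73753) (nat_lit 8) (.e (nat_lit 557094) (nat_lit 12) (.e (nat_lit 164238) (nat_lit 187) (.e (nat_lit 1661) (nat_lit 115) (.e (nat_lit 393251) (nat_lit 18) (.e (nat_lit 164156) (nat_lit 152) (.e (nat_lit 1205) (nat_lit 89) .nil))))))) (.g (nat_lit 5) .nil .nil))) 
(.lf (nat_lit 201587) (.g (nat_lit 2890) (.e (nat_lit 73753) (nat_lit 8) (.e (nat_lit 557098) (nat_lit 13) (.e (nat_lit 172061) (nat_lit 1) (.e (nat_lit 164327) (nat_lit 230) (.e (nat_lit 163886) (nat_lit 5) (.e (nat_lit 221208) (nat_lit 21) (.e (nat_lit 164305) (nat_lit 226) (.e (nat_lit 7936) (nat_lit 89) .nil)))))))) (.g (nat_lit 4) .nil .nil))))) (.nd (nat_lit 4) (.nd (nat_lit 5) 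
(.lf (nat_lit 201547) (.g (nat_lit 2368) (.e (nat_lit 73753) (nat_lit 8) (.e (nat_lit 557094) (nat_lit 12) (.e (nat_lit 164238) (nat_lit 187) (.e (nat_lit 1661) (nat_lit 115) (.e (nat_lit 393251) (nat_lit 18) (.e (nat_lit 164148) (nat_lit 152) (.e (nat_lit 1208) (nat_lit 89) .nil))))))) (.g (nat_lit 4) .nil .nil))) 
(.lf (nat_lit 201579) (.g (nat_lit 1439) (.e (nat_lit 73753) (nat_lit 8) (.e (nat_lit 557097) (nat_lit 13) (.e (nat_lit 172067) (nat_lit 3) (.e (nat_lit 212736) (nat_lit 10) .nil)))) .nil))) (.nd (nat_lit 5) 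
(.lf (nat_lit 201563) (.g (nat_lit 3420) (.e (nat_lit 73753) (nat_lit 8) (.e (nat_lit 557094) (nat_lit 12) (.e (nat_lit 164238) (nat_lit 187) (.e (nat_lit 1661) (nat_lit 115) (.e (nat_lit 393252) (nat_lit 18) (.e (nat_lit 164161) (nat_lit 152) (.e (nat_lit 7936) (nat_lit 89) .nil))))))) (.g (nat_lit 6) .nil .nil))) 
(.lf (nat_lit 201595) (.g (nat_lit 2241) (.e (nat_lit 73753) (nat_lit 8) (.e (nat_lit 557098) (nat_lit 13) (.e (nat_lit 172062) (nat_lit 2) (.e (nat_lit 196656) (nat_lit 11) (.e (nat_lit 24320) (nat_lit 17) (.e (nat_lit 98048) (nat_lit 5) .nil)))))) (.g (nat_lit 4) .nil .nil)))))) (.nd (nat_lit 3) (.nd (nat_lit 4) (.nd (nat_lit 5) 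
(.lf (nat_lit 201543) (.g (nat_lit 2826) (.e (nat_lit 73753) (nat_lit 8) (.e (nat_lit 557094) (nat_lit 12) (.e (nat_lit 164238) (nat_lit 187) (.e (nat_lit 1660) (nat_lit 115) (.e (nat_lit 393253) (nat_lit 18) (.e (nat_lit 164150) (nat_lit 152) (.e (nat_lit 1207) (nat_lit 89) .nil))))))) (.g (nat_lit 5) .nil .nil))) 
(.lf (nat_lit 201575) (.g (nat_lit 3438) (.e (nat_lit 73753) (nat_lit 8) (.e (nat_lit 557096) (nat_lit 13) (.e (nat_lit 172133) (nat_lit 15) (.e (nat_lit 2175) (nat_lit 143) (.e (nat_lit 712747) (nat_lit 28) (.e (nat_lit 434286) (nat_lit 42) (.e (nat_lit 688179) (nat_lit 17) .nil))))))) (.g (nat_lit 6) .nil .nil)))) (.nd (nat_lit 5) 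
(.lf (nat_lit 201559) (.g (nat_lit 3243) (.e (nat_lit 73753) (nat_lit 8) (.e (nat_lit 557094) (nat_lit 12) (.e (nat_lit 164238) (nat_lit 187) (.e (nat_lit 1661) (nat_lit 115) (.e (nat_lit 393251) (nat_lit 18) (.e (nat_lit 164161) (nat_lit 152) (.e (nat_lit 7936) (nat_lit 89) .nil))))))) (.g (nat_lit 5) .nil .nil))) 
(.lf (nat_lit 201591) (.g (nat_lit 1863) (.e (nat_lit 73753) (nat_lit 8) (.e (nat_lit 557098) (nat_lit 13) (.e (nat_lit 172062) (nat_lit 2) (.e (nat_lit 196654) (nat_lit 11) (.e (nat_lit 24320) (nat_lit 17) (.e (nat_lit 98048) (nat_lit 5) .nil)))))) (.g (nat_lit 4) .nil .nil))))) (.nd (nat_lit 4) (.nd (nat_lit 5) 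
(.lf (nat_lit 201551) (.g (nat_lit 2550) (.e (nat_lit 73753) (nat_lit 8) (.e (nat_lit 557094) (nat_lit 12) (.e (nat_lit 164238) (nat_lit 187) (.e (nat_lit 1661) (nat_lit 115) (.e (nat_lit 393251) (nat_lit 18) (.e (nat_lit 164152) (nat_lit 152) (.e (nat_lit 1214) (nat_lit 89) .nil))))))) (.g (nat_lit 4) .nil .nil))) 
(.lf (nat_lit 201583) (.g (nat_lit 1544) (.e (nat_lit 73753) (nat_lit 8) (.e (nat_lit 557098) (nat_lit 13) (.e (nat_lit 172051) (nat_lit 0) (.e (nat_lit 3205) (nat_lit 194) (.e (nat_lit 507939) (nat_lit 12) (.e (nat_lit 48896) (nat_lit 0) (.e (nat_lit 1239) (nat_lit 91) (.e (nat_lit 98048) (nat_lit 5) .nil)))))))) (.g (nat_lit 4) .nil .nil)))) (.nd (nat_lit 5) 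
(.lf (nat_lit 201567) (.g (nat_lit 3433) (.e (nat_lit 73753) (nat_lit 8) (.e (nat_lit 557094) (nat_lit 12) (.e (nat_lit 164238) (nat_lit 187) (.e (nat_lit 1661) (nat_lit 115) (.e (nat_lit 393253) (nat_lit 18) (.e (nat_lit 164150) (nat_lit 152) (.e (nat_lit 1207) (nat_lit 89) .nil))))))) (.g (nat_lit 5) .nil .nil))) 
(.lf (nat_lit 201599) (.g (nat_lit 3282) (.e (nat_lit 73753) (nat_lit 8) (.e (nat_lit 557098) (nat_lit 13) (.e (nat_lit 172063) (nat_lit 2) (.e (nat_lit 196656) (nat_lit 11) (.e (nat_lit 16397) (nat_lit 0) (.e (nat_lit 3289) (nat_lit 201) (.e (nat_lit 565268) (nat_lit 5) .nil))))))) (.g (nat_lit 4) .nil .nil)))))))))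

noncomputable def tv2661 : DT := (.nd (nat_lit 0) (.nd (nat_lit 1) (.nd (nat_lit 2) (.nd (nat_lit 3) (.nd (nat_lit 4) (.nd (nat_lit 5) 
(.lf (nat_lit 201600) (.g (nat_lit 2169) (.e (nat_lit 73753) (nat_lit 8) (.e (nat_lit 557098) (nat_lit 13) (.e (nat_lit 172063) (nat_lit 2) (.e (nat_lit 196656) (nat_lit 11) (.e (nat_lit 24320) (nat_lit 17) (.e (nat_lit 98048) (nat_lit 5) .nil)))))) (.g (nat_lit 4) .nil .nil))) 
(.lf (nat_lit 201632) (.g (nat_lit 3056) (.e (nat_lit 73753) (nat_lit 8) (.e (nat_lit 557098) (nat_lit 13) (.e (nat_lit 172133) (nat_lit 15) (.e (nat_lit 2059) (nat_lit 142) (.e (nat_lit 704595) (nat_lit 5) (.e (nat_lit 180228) (nat_lit 0) (.e (nat_lit 6270) (nat_lit 337) (.e (nat_lit 1214) (nat_lit 89) .nil)))))))) (.g (nat_lit 4) .nil .nil)))) (.nd (nat_lit 5) 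
(.lf (nat_lit 201616) (.g (nat_lit 1896) (.e (nat_lit 73753) (nat_lit 8) (.e (nat_lit 557098) (nat_lit 13) (.e (nat_lit 172065) (nat_lit 3) (.e (nat_lit 204819) (nat_lit 17) (.e (nat_lit 2355) (nat_lit 152) (.e (nat_lit 786455) (nat_lit 17) (.e (nat_lit 98048) (nat_lit 5) .nil))))))) (.g (nat_lit 4) .nil .nil))) 
(.lf (nat_lit 201648) (.g (nat_lit 3765) (.e (nat_lit 73753) (nat_lit 8) (.e (nat_lit 557098) (nat_lit 13) (.e (nat_lit 172133) (nat_lit 15) (.e (nat_lit 2175) (nat_lit 143) (.e (nat_lit 712747) (nat_lit 28) (.e (nat_lit 434286) (nat_lit 42) (.e (nat_lit 688179) (nat_lit 17) .nil))))))) (.g (nat_lit 7) .nil .nil))))) (.nd (nat_lit 4) (.nd (nat_lit 5) 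
(.lf (nat_lit 201608) (.g (nat_lit 3318) (.e (nat_lit 73753) (nat_lit 8) (.e (nat_lit 557098) (nat_lit 13) (.e (nat_lit 172064) (nat_lit 2) (.e (nat_lit 196656) (nat_lit 11) (.e (nat_lit 16397) (nat_lit 0) (.e (nat_lit 3289) (nat_lit 201) (.e (nat_lit 565268) (nat_lit 5) .nil))))))) (.g (nat_lit 4) .nil .nil))) 
(.lf (nat_lit 201640) (.g (nat_lit 3190) (.e (nat_lit 73753) (nat_lit 8) (.e (nat_lit 557098) (nat_lit 13) (.e (nat_lit 172133) (nat_lit 15) (.e (nat_lit 2059) (nat_lit 142) (.e (nat_lit 704595) (nat_lit 5) (.e (nat_lit 180229) (nat_lit 0) (.e (nat_lit 6276) (nat_lit 337) (.e (nat_lit 1214) (nat_lit 89) .nil)))))))) (.g (nat_lit 4) .nil .nil)))) (.nd (nat_lit 5) 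
(.lf (nat_lit 201624) (.g (nat_lit 2154) (.e (nat_lit 73753) (nat_lit 8) (.e (nat_lit 557098) (nat_lit 13) (.e (nat_lit 172066) (nat_lit 3) (.e (nat_lit 204842) (nat_lit 22) (.e (nat_lit 155392) (nat_lit 0) (.e (nat_lit 1239) (nat_lit 91) (.e (nat_lit 98048) (nat_lit 5) .nil))))))) (.g (nat_lit 4) .nil .nil))) 
(.lf (nat_lit 201656) (.g (nat_lit 2054) (.e (nat_lit 73753) (nat_lit 8) (.e (nat_lit 557098) (nat_lit 13) (.e (nat_lit 179968) (nat_lit 20) (.e (nat_lit 114711) (nat_lit 21) (.e (nat_lit 57847) (nat_lit 252) (.e (nat_lit 57348) (nat_lit 0) (.e (nat_lit 2032) (nat_lit 140) (.e (nat_lit 688180) (nat_lit 17) .nil)))))))) (.g (nat_lit 5) .nil .nil)))))) 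
(.nd (nat_lit 3) (.nd (nat_lit 4) (.nd (nat_lit 5) 
(.lf (nat_lit 201604) (.g (nat_lit 2690) (.e (nat_lit 73753) (nat_lit 8) (.e (nat_lit 557098) (nat_lit 13) (.e (nat_lit 172064) (nat_lit 2) (.e (nat_lit 196630) (nat_lit 9) (.e (nat_lit 1312) (nat_lit 98) (.e (nat_lit 155392) (nat_lit 0) (.e (nat_lit 1239) (nat_lit 91) (.e (nat_lit 98048) (nat_lit 5) .nil)))))))) (.g (nat_lit 4) .nil .nil))) 
(.lf (nat_lit 201636) (.g (nat_lit 4237) (.e (nat_lit 73753) (nat_lit 8) (.e (nat_lit 557098) (nat_lit 13) (.e (nat_lit 172133) (nat_lit 15) (.e (nat_lit 2059) (nat_lit 142) (.e (nat_lit 704595) (nat_lit 5) (.e (nat_lit 180229) (nat_lit 0) (.e (nat_lit 6270) (nat_lit 337) (.e (nat_lit 1214) (nat_lit 89) .nil)))))))) (.g (nat_lit 5) .nil .nil)))) (.nd (nat_lit 5) 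
(.lf (nat_lit 201620) (.g (nat_lit 2060) (.e (nat_lit 73753) (nat_lit 8) (.e (nat_lit 557098) (nat_lit 13) (.e (nat_lit 172066) (nat_lit 3) (.e (nat_lit 204809) (nat_lit 9) (.e (nat_lit 433920) (nat_lit 17) (.e (nat_lit 98048) (nat_lit 5) .nil)))))) (.g (nat_lit 4) .nil .nil))) 
(.lf (nat_lit 201652) (.g (nat_lit 1988) (.e (nat_lit 73753) (nat_lit 8) (.e (nat_lit 557098) (nat_lit 13) (.e (nat_lit 179968) (nat_lit 18) (.e (nat_lit 98333) (nat_lit 18) (.e (nat_lit 164399) (nat_lit 256) (.e (nat_lit 57370) (nat_lit 2) (.e (nat_lit 98048) (nat_lit 5) .nil))))))) (.g (nat_lit 5) .nil .nil))))) (.nd (nat_lit 4) (.nd (nat_lit 5) 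
(.lf (nat_lit 201612) (.g (nat_lit 1665) (.e (nat_lit 73753) (nat_lit 8) (.e (nat_lit 557098) (nat_lit 13) (.e (nat_lit 172065) (nat_lit 3) (.e (nat_lit 204809) (nat_lit 9) (.e (nat_lit 426024) (nat_lit 0) .nil))))) .nil)) 
(.lf (nat_lit 201644) (.g (nat_lit 2691) (.e (nat_lit 73753) (nat_lit 8) (.e (nat_lit 557098) (nat_lit 13) (.e (nat_lit 172133) (nat_lit 15) (.e (nat_lit 2059) (nat_lit 142) (.e (nat_lit 704596) (nat_lit 5) (.e (nat_lit 180228) (nat_lit 0) (.e (nat_lit 6274) (nat_lit 337) (.e (nat_lit 1214) (nat_lit 89) .nil)))))))) (.g (nat_lit 4) .nil .nil)))) (.nd (nat_lit 5) 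
(.lf (nat_lit 201628) (.g (nat_lit 2670) (.e (nat_lit 73753) (nat_lit 8) (.e (nat_lit 557098) (nat_lit 13) (.e (nat_lit 172067) (nat_lit 3) (.e (nat_lit 204821) (nat_lit 17) (.e (nat_lit 2334) (nat_lit 151) (.e (nat_lit 786176) (nat_lit 0) (.e (nat_lit 1239) (nat_lit 91) (.e (nat_lit 98048) (nat_lit 5) .nil)))))))) (.g (nat_lit 4) .nil .nil))) 
(.lf (nat_lit 201660) (.g (nat_lit 429) (.e (nat_lit 73753) (nat_lit 8) (.e (nat_lit 557100) (nat_lit 13) (.e (nat_lit 172042) (nat_lit 0) .nil))) .nil)))))) (.nd (nat_lit 2) (.nd (nat_lit 3) (.nd (nat_lit 4) (.nd (nat_lit 5) 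
(.lf (nat_lit 201602) (.g (nat_lit 1269) (.e (nat_lit 73753) (nat_lit 8) (.e (nat_lit 557098) (nat_lit 13) (.e (nat_lit 172064) (nat_lit 2) (.e (nat_lit 204544) (nat_lit 0) .nil)))) .nil)) 
(.lf (nat_lit 201634) (.g (nat_lit 3736) (.e (nat_lit 73753) (nat_lit 8) (.e (nat_lit 557098) (nat_lit 13) (.e (nat_lit 172133) (nat_lit 15) (.e (nat_lit 2059) (nat_lit 142) (.e (nat_lit 704595) (nat_lit 5) (.e (nat_lit 180229) (nat_lit 0) (.e (nat_lit 6270) (nat_lit 337) (.e (nat_lit 1207) (nat_lit 89) .nil)))))))) (.g (nat_lit 5) .nil .nil)))) (.nd (nat_lit 5) 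
(.lf (nat_lit 201618) (.g (nat_lit 2025) (.e (nat_lit 73753) (nat_lit 8) (.e (nat_lit 557098) (nat_lit 13) (.e (nat_lit 172065) (nat_lit 3) (.e (nat_lit 204821) (nat_lit 17) (.e (nat_lit 2346) (nat_lit 151) (.e (nat_lit 778285) (nat_lit 0) (.e (nat_lit 1235) (nat_lit 91) (.e (nat_lit 98048) (nat_lit 5) .nil)))))))) (.g (nat_lit 4) .nil .nil))) 
(.lf (nat_lit 201650) (.g (nat_lit 2774) (.e (nat_lit 73753) (nat_lit 8) (.e (nat_lit 557098) (nat_lit 13) (.e (nat_lit 172133) (nat_lit 15) (.e (nat_lit 2175) (nat_lit 143) (.e (nat_lit 712749) (nat_lit 28) (.e (nat_lit 434285) (nat_lit 42) (.e (nat_lit 688180) (nat_lit 17) .nil))))))) (.g (nat_lit 5) .nil .nil))))) (.nd (nat_lit 4) (.nd (nat_lit 5) 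
(.lf (nat_lit 201610) (.g (nat_lit 3341) (.e (nat_lit 73753) (nat_lit 8) (.e (nat_lit 557098) (nat_lit 13) (.e (nat_lit 172064) (nat_lit 2) (.e (nat_lit 196661) (nat_lit 12) (.e (nat_lit 57573) (nat_lit 55) (.e (nat_lit 778316) (nat_lit 3) (.e (nat_lit 57454) (nat_lit 21) (.e (nat_lit 507648) (nat_lit 19) .nil)))))))) (.g (nat_lit 7) .nil .nil))) 
(.lf (nat_lit 201642) (.g (nat_lit 3394) (.e (nat_lit 73753) (nat_lit 8) (.e (nat_lit 557098) (nat_lit 13) (.e (nat_lit 172133) (nat_lit 15) (.e (nat_lit 2059) (nat_lit 142) (.e (nat_lit 704595) (nat_lit 5) (.e (nat_lit 180229) (nat_lit 0) (.e (nat_lit 6296) (nat_lit 337) (.e (nat_lit 1209) (nat_lit 89) .nil)))))))) (.g (nat_lit 4) .nil .nil)))) (.nd (nat_lit 5) 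
(.lf (nat_lit 201626) (.g (nat_lit 3334) (.e (nat_lit 73753) (nat_lit 8) (.e (nat_lit 557098) (nat_lit 13) (.e (nat_lit 172067) (nat_lit 3) (.e (nat_lit 204809) (nat_lit 9) (.e (nat_lit 433920) (nat_lit 22) (.e (nat_lit 139281) (nat_lit 5) .nil)))))) (.g (nat_lit 4) .nil .nil))) 
(.lf (nat_lit 201658) (.g (nat_lit 2120) (.e (nat_lit 73753) (nat_lit 8) (.e (nat_lit 557098) (nat_lit 13) (.e (nat_lit 179968) (nat_lit 20) (.e (nat_lit 114712) (nat_lit 21) (.e (nat_lit 57854) (nat_lit 252) (.e (nat_lit 57351) (nat_lit 0) (.e (nat_lit 2032) (nat_lit 140) (.e (nat_lit 688180) (nat_lit 17) .nil)))))))) (.g (nat_lit 5) .nil .nil)))))) 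
(.nd (nat_lit 3) (.nd (nat_lit 4) (.nd (nat_lit 5) 
(.lf (nat_lit 201606) (.g (nat_lit 3210) (.e (nat_lit 73753) (nat_lit 8) (.e (nat_lit 557098) (nat_lit 13) (.e (nat_lit 172064) (nat_lit 2) (.e (nat_lit 196656) (nat_lit 11) (.e (nat_lit 16392) (nat_lit 0) (.e (nat_lit 3279) (nat_lit 200) (.e (nat_lit 564992) (nat_lit 5) .nil))))))) (.g (nat_lit 4) .nil .nil))) 
(.lf (nat_lit 201638) (.g (nat_lit 3997) (.e (nat_lit 73753) (nat_lit 8) (.e (nat_lit 557098) (nat_lit 13) (.e (nat_lit 172133) (nat_lit 15) (.e (nat_lit 2059) (nat_lit 142) (.e (nat_lit 704595) (nat_lit 5) (.e (nat_lit 180229) (nat_lit 0) (.e (nat_lit 6274) (nat_lit 337) (.e (nat_lit 1214) (nat_lit 89) .nil)))))))) (.g (nat_lit 5) .nil .nil)))) (.nd (nat_lit 5) 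
(.lf (nat_lit 201622) (.g (nat_lit 2418) (.e (nat_lit 73753) (nat_lit 8) (.e (nat_lit 557098) (nat_lit 13) (.e (nat_lit 172066) (nat_lit 3) (.e (nat_lit 204819) (nat_lit 17) (.e (nat_lit 2357) (nat_lit 152) (.e (nat_lit 786455) (nat_lit 17) (.e (nat_lit 98048) (nat_lit 5) .nil))))))) (.g (nat_lit 4) .nil .nil))) 
(.lf (nat_lit 201654) (.g (nat_lit 2351) (.e (nat_lit 73753) (nat_lit 8) (.e (nat_lit 557098) (nat_lit 13) (.e (nat_lit 179968) (nat_lit 20) (.e (nat_lit 114710) (nat_lit 21) (.e (nat_lit 57851) (nat_lit 252) (.e (nat_lit 57347) (nat_lit 0) (.e (nat_lit 2029) (nat_lit 140) (.e (nat_lit 688180) (nat_lit 17) .nil)))))))) (.g (nat_lit 5) .nil .nil))))) (.nd (nat_lit 4) (.nd (nat_lit 5) 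
(.lf (nat_lit 201614) (.g (nat_lit 2618) (.e (nat_lit 73753) (nat_lit 8) (.e (nat_lit 557098) (nat_lit 13) (.e (nat_lit 172065) (nat_lit 3) (.e (nat_lit 204809) (nat_lit 9) (.e (nat_lit 433920) (nat_lit 22) (.e (nat_lit 139281) (nat_lit 5) .nil)))))) (.g (nat_lit 4) .nil .nil))) 
(.lf (nat_lit 201646) (.g (nat_lit 2611) (.e (nat_lit 73753) (nat_lit 8) (.e (nat_lit 557098) (nat_lit 13) (.e (nat_lit 172133) (nat_lit 15) (.e (nat_lit 2175) (nat_lit 143) (.e (nat_lit 712747) (nat_lit 28) (.e (nat_lit 434209) (nat_lit 18) (.e (nat_lit 6270) (nat_lit 337) (.e (nat_lit 1207) (nat_lit 89) .nil)))))))) (.g (nat_lit 4) .nil .nil)))) (.nd (nat_lit 5) 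
(.lf (nat_lit 201630) (.g (nat_lit 2262) (.e (nat_lit 73753) (nat_lit 8) (.e (nat_lit 557098) (nat_lit 13) (.e (nat_lit 172133) (nat_lit 15) (.e (nat_lit 2059) (nat_lit 142) (.e (nat_lit 704595) (nat_lit 5) .nil))))) .nil)) 
(.lf (nat_lit 201662) (.g (nat_lit 713) (.e (nat_lit 73753) (nat_lit 8) (.e (nat_lit 557100) (nat_lit 13) (.e (nat_lit 172059) (nat_lit 1) .nil))) .nil))))))) (.nd (nat_lit 1) (.nd (nat_lit 2) (.nd (nat_lit 3) (.nd (nat_lit 4) (.nd (nat_lit 5) 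
(.lf (nat_lit 201601) (.g (nat_lit 481) (.e (nat_lit 73753) (nat_lit 8) (.e (nat_lit 557098) (nat_lit 13) (.e (nat_lit 172064) (nat_lit 2) .nil))) .nil)) 
(.lf (nat_lit 201633) (.g (nat_lit 2831) (.e (nat_lit 73753) (nat_lit 8) (.e (nat_lit 557098) (nat_lit 13) (.e (nat_lit 172133) (nat_lit 15) (.e (nat_lit 2059) (nat_lit 142) (.e (nat_lit 704595) (nat_lit 5) (.e (nat_lit 180228) (nat_lit 0) (.e (nat_lit 6277) (nat_lit 337) (.e (nat_lit 1214) (nat_lit 89) .nil)))))))) (.g (nat_lit 4) .nil .nil)))) (.nd (nat_lit 5) 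
(.lf (nat_lit 201617) (.g (nat_lit 2489) (.e (nat_lit 73753) (nat_lit 8) (.e (nat_lit 557098) (nat_lit 13) (.e (nat_lit 172065) (nat_lit 3) (.e (nat_lit 204821) (nat_lit 17) (.e (nat_lit 2334) (nat_lit 151) (.e (nat_lit 786176) (nat_lit 0) (.e (nat_lit 1239) (nat_lit 91) (.e (nat_lit 98048) (nat_lit 5) .nil)))))))) (.g (nat_lit 5) .nil .nil))) 
(.lf (nat_lit 201649) (.g (nat_lit 1601) (.e (nat_lit 73753) (nat_lit 8) (.e (nat_lit 557098) (nat_lit 13) (.e (nat_lit 172133) (nat_lit 15) (.e (nat_lit 2175) (nat_lit 143) (.e (nat_lit 712749) (nat_lit 28) .nil))))) .nil)))) (.nd (nat_lit 4) (.nd (nat_lit 5) 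
(.lf (nat_lit 201609) (.g (nat_lit 2413) (.e (nat_lit 73753) (nat_lit 8) (.e (nat_lit 557098) (nat_lit 13) (.e (nat_lit 172064) (nat_lit 2) (.e (nat_lit 196656) (nat_lit 11) (.e (nat_lit 24320) (nat_lit 22) .nil))))) .nil)) 
(.lf (nat_lit 201641) (.g (nat_lit 3102) (.e (nat_lit 73753) (nat_lit 8) (.e (nat_lit 557098) (nat_lit 13) (.e (nat_lit 172133) (nat_lit 15) (.e (nat_lit 2059) (nat_lit 142) (.e (nat_lit 704595) (nat_lit 5) (.e (nat_lit 180229) (nat_lit 0) (.e (nat_lit 6277) (nat_lit 337) (.e (nat_lit 1212) (nat_lit 89) .nil)))))))) (.g (nat_lit 4) .nil .nil)))) (.nd (nat_lit 5) 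
(.lf (nat_lit 201625) (.g (nat_lit 3085) (.e (nat_lit 73753) (nat_lit 8) (.e (nat_lit 557098) (nat_lit 13) (.e (nat_lit 172067) (nat_lit 3) (.e (nat_lit 204809) (nat_lit 9) (.e (nat_lit 433920) (nat_lit 17) (.e (nat_lit 98048) (nat_lit 5) .nil)))))) (.g (nat_lit 4) .nil .nil))) 
(.lf (nat_lit 201657) (.g (nat_lit 1873) (.e (nat_lit 73753) (nat_lit 8) (.e (nat_lit 557098) (nat_lit 13) (.e (nat_lit 179968) (nat_lit 20) (.e (nat_lit 114712) (nat_lit 21) (.e (nat_lit 57852) (nat_lit 252) (.e (nat_lit 57351) (nat_lit 0) (.e (nat_lit 2032) (nat_lit 140) (.e (nat_lit 688180) (nat_lit 17) .nil)))))))) (.g (nat_lit 5) .nil .nil)))))) 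
(.nd (nat_lit 3) (.nd (nat_lit 4) (.nd (nat_lit 5) 
(.lf (nat_lit 201605) (.g (nat_lit 2103) (.e (nat_lit 73753) (nat_lit 8) (.e (nat_lit 557098) (nat_lit 13) (.e (nat_lit 172064) (nat_lit 2) (.e (nat_lit 196653) (nat_lit 11) (.e (nat_lit 16397) (nat_lit 0) .nil))))) .nil)) 
(.lf (nat_lit 201637) (.g (nat_lit 3155) (.e (nat_lit 73753) (nat_lit 8) (.e (nat_lit 557098) (nat_lit 13) (.e (nat_lit 172133) (nat_lit 15) (.e (nat_lit 2059) (nat_lit 142) (.e (nat_lit 704595) (nat_lit 5) (.e (nat_lit 180229) (nat_lit 0) (.e (nat_lit 6272) (nat_lit 337) (.e (nat_lit 1207) (nat_lit 89) .nil)))))))) (.g (nat_lit 4) .nil .nil)))) (.nd (nat_lit 5) 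
(.lf (nat_lit 201621) (.g (nat_lit 2580) (.e (nat_lit 73753) (nat_lit 8) (.e (nat_lit 557098) (nat_lit 13) (.e (nat_lit 172066) (nat_lit 3) (.e (nat_lit 204819) (nat_lit 17) (.e (nat_lit 2355) (nat_lit 152) (.e (nat_lit 786455) (nat_lit 17) (.e (nat_lit 98048) (nat_lit 5) .nil))))))) (.g (nat_lit 5) .nil .nil))) 
(.lf (nat_lit 201653) (.g (nat_lit 2803) (.e (nat_lit 73753) (nat_lit 8) (.e (nat_lit 557098) (nat_lit 13) (.e (nat_lit 179968) (nat_lit 20) (.e (nat_lit 114710) (nat_lit 21) (.e (nat_lit 57847) (nat_lit 252) (.e (nat_lit 57348) (nat_lit 0) (.e (nat_lit 2031) (nat_lit 140) (.e (nat_lit 688180) (nat_lit 17) .nil)))))))) (.g (nat_lit 6) .nil .nil))))) (.nd (nat_lit 4) (.nd (nat_lit 5) 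
(.lf (nat_lit 201613) (.g (nat_lit 2440) (.e (nat_lit 73753) (nat_lit 8) (.e (nat_lit 557098) (nat_lit 13) (.e (nat_lit 172065) (nat_lit 3) (.e (nat_lit 204809) (nat_lit 9) (.e (nat_lit 433920) (nat_lit 17) (.e (nat_lit 98048) (nat_lit 5) .nil)))))) (.g (nat_lit 4) .nil .nil))) 
(.lf (nat_lit 201645) (.g (nat_lit 1125) (.e (nat_lit 73753) (nat_lit 8) (.e (nat_lit 557098) (nat_lit 13) (.e (nat_lit 172133) (nat_lit 15) (.e (nat_lit 2175) (nat_lit 143) .nil)))) .nil))) (.nd (nat_lit 5) 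
(.lf (nat_lit 201629) (.g (nat_lit 703) (.e (nat_lit 73753) (nat_lit 8) (.e (nat_lit 557098) (nat_lit 13) (.e (nat_lit 172070) (nat_lit 4) .nil))) .nil)) 
(.lf (nat_lit 201661) (.g (nat_lit 550) (.e (nat_lit 73753) (nat_lit 8) (.e (nat_lit 557100) (nat_lit 13) (.e (nat_lit 172049) (nat_lit 0) .nil))) .nil)))))) (.nd (nat_lit 2) (.nd (nat_lit 3) (.nd (nat_lit 4) (.nd (nat_lit 5) 
(.lf (nat_lit 201603) (.g (nat_lit 1269) (.e (nat_lit 73753) (nat_lit 8) (.e (nat_lit 557098) (nat_lit 13) (.e (nat_lit 172064) (nat_lit 2) (.e (nat_lit 204544) (nat_lit 2) .nil)))) .nil)) 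
(.lf (nat_lit 201635) (.g (nat_lit 3192) (.e (nat_lit 73753) (nat_lit 8) (.e (nat_lit 557098) (nat_lit 13) (.e (nat_lit 172133) (nat_lit 15) (.e (nat_lit 2059) (nat_lit 142) (.e (nat_lit 704595) (nat_lit 5) (.e (nat_lit 180229) (nat_lit 0) (.e (nat_lit 6270) (nat_lit 337) (.e (nat_lit 1212) (nat_lit 89) .nil)))))))) (.g (nat_lit 4) .nil .nil)))) (.nd (nat_lit 5) 
(.lf (nat_lit 201619) (.g (nat_lit 2124) (.e (nat_lit 73753) (nat_lit 8) (.e (nat_lit 557098) (nat_lit 13) (.e (nat_lit 172065) (nat_lit 3) (.e (nat_lit 204821) (nat_lit 17) (.e (nat_lit 2346) (nat_lit 151) (.e (nat_lit 786176) (nat_lit 0) (.e (nat_lit 1239) (nat_lit 91) (.e (nat_lit 98048) (nat_lit 5) .nil)))))))) (.g (nat_lit 4) .nil .nil))) 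
(.lf (nat_lit 201651) (.g (nat_lit 1031) (.e (nat_lit 73753) (nat_lit 8) (.e (nat_lit 557098) (nat_lit 13) (.e (nat_lit 172136) (nat_lit 15) (.e (nat_lit 2175) (nat_lit 143) (.e (nat_lit 712749) (nat_lit 28) .nil))))) .nil)))) (.nd (nat_lit 4) (.nd (nat_lit 5) 
(.lf (nat_lit 201611) (.g (nat_lit 3845) (.e (nat_lit 73753) (nat_lit 8) (.e (nat_lit 557098) (nat_lit 13) (.e (nat_lit 172064) (nat_lit 2) (.e (nat_lit 196661) (nat_lit 12) (.e (nat_lit 57575) (nat_lit 55) (.e (nat_lit 786176) (nat_lit 0) (.e (nat_lit 1239) (nat_lit 91) (.e (nat_lit 98048) (nat_lit 5) .nil)))))))) (.g (nat_lit 5) .nil .nil))) 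
(.lf (nat_lit 201643) (.g (nat_lit 2944) (.e (nat_lit 73753) (nat_lit 8) (.e (nat_lit 557098) (nat_lit 13) (.e (nat_lit 172133) (nat_lit 15) (.e (nat_lit 2059) (nat_lit 142) (.e (nat_lit 704596) (nat_lit 5) (.e (nat_lit 180228) (nat_lit 0) (.e (nat_lit 6270) (nat_lit 337) (.e (nat_lit 1207) (nat_lit 89) .nil)))))))) (.g (nat_lit 4) .nil .nil)))) (.nd (nat_lit 5) 
(.lf (nat_lit 201627) (.g (nat_lit 1786) (.e (nat_lit 73753) (nat_lit 8) (.e (nat_lit 557098) (nat_lit 13) (.e (nat_lit 172067) (nat_lit 3) (.e (nat_lit 204816) (nat_lit 17) .nil)))) .nil)) 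
(.lf (nat_lit 201659) (.g (nat_lit 854) (.e (nat_lit 73753) (nat_lit 8) (.e (nat_lit 557098) (nat_lit 13) (.e (nat_lit 172140) (nat_lit 22) (.e (nat_lit 139280) (nat_lit 4) .nil)))) .nil))))) (.nd (nat_lit 3) (.nd (nat_lit 4) (.nd (nat_lit 5) 
(.lf (nat_lit 201607) (.g (nat_lit 3714) (.e (nat_lit 73753) (nat_lit 8) (.e (nat_lit 557098) (nat_lit 13) (.e (nat_lit 172064) (nat_lit 2) (.e (nat_lit 196656) (nat_lit 11) (.e (nat_lit 16392) (nat_lit 0) (.e (nat_lit 3281) (nat_lit 200) (.e (nat_lit 564992) (nat_lit 5) .nil))))))) (.g (nat_lit 5) .nil .nil))) 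
(.lf (nat_lit 201639) (.g (nat_lit 3292) (.e (nat_lit 73753) (nat_lit 8) (.e (nat_lit 557098) (nat_lit 13) (.e (nat_lit 172133) (nat_lit 15) (.e (nat_lit 2059) (nat_lit 142) (.e (nat_lit 704595) (nat_lit 5) (.e (nat_lit 180229) (nat_lit 0) (.e (nat_lit 6275) (nat_lit 337) (.e (nat_lit 1214) (nat_lit 89) .nil)))))))) (.g (nat_lit 4) .nil .nil)))) (.nd (nat_lit 5) 
(.lf (nat_lit 201623) (.g (nat_lit 2019) (.e (nat_lit 73753) (nat_lit 8) (.e (nat_lit 557098) (nat_lit 13) (.e (nat_lit 172066) (nat_lit 3) (.e (nat_lit 204821) (nat_lit 17) (.e (nat_lit 2334) (nat_lit 151) (.e (nat_lit 786176) (nat_lit 0) (.e (nat_lit 1239) (nat_lit 91) (.e (nat_lit 98048) (nat_lit 5) .nil)))))))) (.g (nat_lit 4) .nil .nil))) 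
(.lf (nat_lit 201655) (.g (nat_lit 3365) (.e (nat_lit 73753) (nat_lit 8) (.e (nat_lit 557098) (nat_lit 13) (.e (nat_lit 179968) (nat_lit 20) (.e (nat_lit 114711) (nat_lit 21) (.e (nat_lit 57847) (nat_lit 252) (.e (nat_lit 57348) (nat_lit 0) (.e (nat_lit 2031) (nat_lit 140) (.e (nat_lit 688180) (nat_lit 17) .nil)))))))) (.g (nat_lit 7) .nil .nil))))) (.nd (nat_lit 4) (.nd (nat_lit 5) 
(.lf (nat_lit 201615) (.g (nat_lit 1901) (.e (nat_lit 73753) (nat_lit 8) (.e (nat_lit 557098) (nat_lit 13) (.e (nat_lit 172065) (nat_lit 3) (.e (nat_lit 204813) (nat_lit 9) (.e (nat_lit 433920) (nat_lit 17) .nil))))) .nil)) 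
(.lf (nat_lit 201647) (.g (nat_lit 2452) (.e (nat_lit 73753) (nat_lit 8) (.e (nat_lit 557098) (nat_lit 13) (.e (nat_lit 172133) (nat_lit 15) (.e (nat_lit 2175) (nat_lit 143) (.e (nat_lit 712747) (nat_lit 28) (.e (nat_lit 434285) (nat_lit 42) (.e (nat_lit 688180) (nat_lit 17) .nil))))))) (.g (nat_lit 4) .nil .nil)))) (.nd (nat_lit 5) 
(.lf (nat_lit 201631) (.g (nat_lit 2974) (.e (nat_lit 73753) (nat_lit 8) (.e (nat_lit 557098) (nat_lit 13) (.e (nat_lit 172133) (nat_lit 15) (.e (nat_lit 2059) (nat_lit 142) (.e (nat_lit 704595) (nat_lit 5) (.e (nat_lit 180227) (nat_lit 0) (.e (nat_lit 6254) (nat_lit 337) (.e (nat_lit 7936) (nat_lit 89) .nil)))))))) (.g (nat_lit 4) .nil .nil))) 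
(.lf (nat_lit 201663) (.g (nat_lit 2071) (.e (nat_lit 73753) (nat_lit 8) (.e (nat_lit 557100) (nat_lit 13) (.e (nat_lit 172061) (nat_lit 1) (.e (nat_lit 164327) (nat_lit 230) (.e (nat_lit 163886) (nat_lit 5) (.e (nat_lit 221208) (nat_lit 21) (.e (nat_lit 164305) (nat_lit 226) (.e (nat_lit 7936) (nat_lit 89) .nil)))))))) (.g (nat_lit 4) .nil .nil)))))))))

noncomputable def tv2662 : DT := (.nd (nat_lit 0) (.nd (nat_lit 1) (.nd (nat_lit 2) (.nd (nat_lit 3) (.nd (nat_lit 4) (.nd (nat_lit 5) 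
(.lf (nat_lit 201664) (.g (nat_lit 470) (.e (nat_lit 73753) (nat_lit 8) (.e (nat_lit 557100) (nat_lit 13) (.e (nat_lit 172062) (nat_lit 2) .nil))) .nil)) 
(.lf (nat_lit 201696) (.g (nat_lit 2426) (.e (nat_lit 73753) (nat_lit 8) (.e (nat_lit 557100) (nat_lit 13) (.e (nat_lit 179968) (nat_lit 20) (.e (nat_lit 114711) (nat_lit 21) (.e (nat_lit 57847) (nat_lit 252) (.e (nat_lit 57347) (nat_lit 0) (.e (nat_lit 2029) (nat_lit 140) (.e (nat_lit 688180) (nat_lit 17) .nil)))))))) (.g (nat_lit 4) .nil .nil)))) (.nd (nat_lit 5) 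
(.lf (nat_lit 201680) (.g (nat_lit 2632) (.e (nat_lit 73753) (nat_lit 8) (.e (nat_lit 557100) (nat_lit 13) (.e (nat_lit 172065) (nat_lit 3) (.e (nat_lit 204809) (nat_lit 9) (.e (nat_lit 433920) (nat_lit 17) (.e (nat_lit 98048) (nat_lit 5) .nil)))))) (.g (nat_lit 4) .nil .nil))) 
(.lf (nat_lit 201712) (.g (nat_lit 1809) (.e (nat_lit 73753) (nat_lit 8) (.e (nat_lit 557101) (nat_lit 13) (.e (nat_lit 172062) (nat_lit 2) (.e (nat_lit 196661) (nat_lit 12) (.e (nat_lit 57575) (nat_lit 55) (.e (nat_lit 786176) (nat_lit 0) (.e (nat_lit 1239) (nat_lit 91) (.e (nat_lit 98048) (nat_lit 5) .nil)))))))) (.g (nat_lit 4) .nil .nil))))) (.nd (nat_lit 4) (.nd (nat_lit 5) 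
(.lf (nat_lit 201672) (.g (nat_lit 3022) (.e (nat_lit 73753) (nat_lit 8) (.e (nat_lit 557100) (nat_lit 13) (.e (nat_lit 172062) (nat_lit 2) (.e (nat_lit 196661) (nat_lit 12) (.e (nat_lit 57575) (nat_lit 55) (.e (nat_lit 786176) (nat_lit 0) (.e (nat_lit 1239) (nat_lit 91) (.e (nat_lit 98048) (nat_lit 5) .nil)))))))) (.g (nat_lit 5) .nil .nil))) 
(.lf (nat_lit 201704) (.g (nat_lit 1768) (.e (nat_lit 73753) (nat_lit 8) (.e (nat_lit 557101) (nat_lit 13) (.e (nat_lit 172051) (nat_lit 0) (.e (nat_lit 3289) (nat_lit 201) (.e (nat_lit 565252) (nat_lit 0) (.e (nat_lit 1634) (nat_lit 114) (.e (nat_lit 385059) (nat_lit 22) (.e (nat_lit 500071) (nat_lit 19) .nil)))))))) (.g (nat_lit 5) .nil .nil)))) (.nd (nat_lit 5) 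
(.lf (nat_lit 201688) (.g (nat_lit 760) (.e (nat_lit 73753) (nat_lit 8) (.e (nat_lit 557100) (nat_lit 13) (.e (nat_lit 172070) (nat_lit 4) .nil))) .nil)) 
(.lf (nat_lit 201720) (.g (nat_lit 2983) (.e (nat_lit 73753) (nat_lit 8) (.e (nat_lit 557101) (nat_lit 13) (.e (nat_lit 172064) (nat_lit 2) (.e (nat_lit 196661) (nat_lit 12) (.e (nat_lit 57575) (nat_lit 55) (.e (nat_lit 786176) (nat_lit 0) (.e (nat_lit 1239) (nat_lit 91) (.e (nat_lit 98048) (nat_lit 5) .nil)))))))) (.g (nat_lit 5) .nil .nil)))))) (.nd (nat_lit 3) (.nd (nat_lit 4) (.nd (nat_lit 5) 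
(.lf (nat_lit 201668) (.g (nat_lit 3666) (.e (nat_lit 73753) (nat_lit 8) (.e (nat_lit 557100) (nat_lit 13) (.e (nat_lit 172062) (nat_lit 2) (.e (nat_lit 196656) (nat_lit 11) (.e (nat_lit 16392) (nat_lit 0) (.e (nat_lit 3281) (nat_lit 200) (.e (nat_lit 564992) (nat_lit 5) .nil))))))) (.g (nat_lit 5) .nil .nil))) 
(.lf (nat_lit 201700) (.g (nat_lit 3442) (.e (nat_lit 73753) (nat_lit 8) (.e (nat_lit 557100) (nat_lit 13) (.e (nat_lit 179968) (nat_lit 20) (.e (nat_lit 114711) (nat_lit 21) (.e (nat_lit 57847) (nat_lit 252) (.e (nat_lit 57368) (nat_lit 1) (.e (nat_lit 57730) (nat_lit 181) (.e (nat_lit 1209) (nat_lit 89) .nil)))))))) (.g (nat_lit 5) .nil .nil)))) (.nd (nat_lit 5) 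
(.lf (nat_lit 201684) (.g (nat_lit 2783) (.e (nat_lit 73753) (nat_lit 8) (.e (nat_lit 557100) (nat_lit 13) (.e (nat_lit 172067) (nat_lit 3) (.e (nat_lit 204809) (nat_lit 9) (.e (nat_lit 433920) (nat_lit 17) (.e (nat_lit 98048) (nat_lit 5) .nil)))))) (.g (nat_lit 4) .nil .nil))) 
(.lf (nat_lit 201716) (.g (nat_lit 1763) (.e (nat_lit 73753) (nat_lit 8) (.e (nat_lit 557101) (nat_lit 13) (.e (nat_lit 172063) (nat_lit 2) (.e (nat_lit 196656) (nat_lit 11) (.e (nat_lit 24320) (nat_lit 17) (.e (nat_lit 98048) (nat_lit 5) .nil)))))) (.g (nat_lit 4) .nil .nil))))) (.nd (nat_lit 4) (.nd (nat_lit 5) 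
(.lf (nat_lit 201676) (.g (nat_lit 2095) (.e (nat_lit 73753) (nat_lit 8) (.e (nat_lit 557100) (nat_lit 13) (.e (nat_lit 172064) (nat_lit 2) (.e (nat_lit 196656) (nat_lit 11) (.e (nat_lit 24320) (nat_lit 17) .nil))))) .nil)) 
(.lf (nat_lit 201708) (.g (nat_lit 1656) (.e (nat_lit 73753) (nat_lit 8) (.e (nat_lit 557101) (nat_lit 13) (.e (nat_lit 172062) (nat_lit 2) (.e (nat_lit 196630) (nat_lit 9) (.e (nat_lit 1312) (nat_lit 98) (.e (nat_lit 155392) (nat_lit 0) (.e (nat_lit 1239) (nat_lit 91) (.e (nat_lit 98048) (nat_lit 5) .nil)))))))) (.g (nat_lit 4) .nil .nil)))) (.nd (nat_lit 5) 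
(.lf (nat_lit 201692) (.g (nat_lit 2814) (.e (nat_lit 73753) (nat_lit 8) (.e (nat_lit 557100) (nat_lit 13) (.e (nat_lit 179968) (nat_lit 20) (.e (nat_lit 114710) (nat_lit 21) (.e (nat_lit 57847) (nat_lit 252) (.e (nat_lit 57348) (nat_lit 0) (.e (nat_lit 2032) (nat_lit 140) (.e (nat_lit 688180) (nat_lit 17) .nil)))))))) (.g (nat_lit 5) .nil .nil))) 
(.lf (nat_lit 201724) (.g (nat_lit 1874) (.e (nat_lit 73753) (nat_lit 8) (.e (nat_lit 557101) (nat_lit 13) (.e (nat_lit 172066) (nat_lit 3) (.e (nat_lit 204842) (nat_lit 22) (.e (nat_lit 155392) (nat_lit 0) (.e (nat_lit 1239) (nat_lit 91) (.e (nat_lit 98048) (nat_lit 5) .nil))))))) (.g (nat_lit 4) .nil .nil))))))) (.nd (nat_lit 2) (.nd (nat_lit 3) (.nd (nat_lit 4) (.nd (nat_lit 5) 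
(.lf (nat_lit 201666) (.g (nat_lit 2869) (.e (nat_lit 73753) (nat_lit 8) (.e (nat_lit 557100) (nat_lit 13) (.e (nat_lit 172062) (nat_lit 2) (.e (nat_lit 196630) (nat_lit 9) (.e (nat_lit 1312) (nat_lit 98) (.e (nat_lit 155392) (nat_lit 0) (.e (nat_lit 1239) (nat_lit 91) (.e (nat_lit 98048) (nat_lit 5) .nil)))))))) (.g (nat_lit 4) .nil .nil))) 
(.lf (nat_lit 201698) (.g (nat_lit 3115) (.e (nat_lit 73753) (nat_lit 8) (.e (nat_lit 557100) (nat_lit 13) (.e (nat_lit 179968) (nat_lit 20) (.e (nat_lit 114711) (nat_lit 21) (.e (nat_lit 57847) (nat_lit 252) (.e (nat_lit 57348) (nat_lit 0) (.e (nat_lit 2032) (nat_lit 140) (.e (nat_lit 688180) (nat_lit 17) .nil)))))))) (.g (nat_lit 5) .nil .nil)))) (.nd (nat_lit 5) 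
(.lf (nat_lit 201682) (.g (nat_lit 1369) (.e (nat_lit 73753) (nat_lit 8) (.e (nat_lit 557100) (nat_lit 13) (.e (nat_lit 172067) (nat_lit 3) (.e (nat_lit 204809) (nat_lit 9) .nil)))) .nil)) 
(.lf (nat_lit 201714) (.g (nat_lit 2799) (.e (nat_lit 73753) (nat_lit 8) (.e (nat_lit 557101) (nat_lit 13) (.e (nat_lit 172063) (nat_lit 2) (.e (nat_lit 196656) (nat_lit 11) (.e (nat_lit 16392) (nat_lit 0) (.e (nat_lit 3281) (nat_lit 200) (.e (nat_lit 564992) (nat_lit 5) .nil))))))) (.g (nat_lit 5) .nil .nil))))) (.nd (nat_lit 4) (.nd (nat_lit 5) 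
(.lf (nat_lit 201674) (.g (nat_lit 2026) (.e (nat_lit 73753) (nat_lit 8) (.e (nat_lit 557100) (nat_lit 13) (.e (nat_lit 172064) (nat_lit 2) (.e (nat_lit 196630) (nat_lit 9) (.e (nat_lit 1312) (nat_lit 98) .nil))))) .nil)) 
(.lf (nat_lit 201706) (.g (nat_lit 2240) (.e (nat_lit 73753) (nat_lit 8) (.e (nat_lit 557101) (nat_lit 13) (.e (nat_lit 172061) (nat_lit 1) (.e (nat_lit 164327) (nat_lit 230) (.e (nat_lit 163886) (nat_lit 5) (.e (nat_lit 221208) (nat_lit 21) (.e (nat_lit 164305) (nat_lit 226) (.e (nat_lit 7936) (nat_lit 89) .nil)))))))) (.g (nat_lit 4) .nil .nil)))) (.nd (nat_lit 5) 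
(.lf (nat_lit 201690) (.g (nat_lit 1151) (.e (nat_lit 73753) (nat_lit 8) (.e (nat_lit 557100) (nat_lit 13) (.e (nat_lit 172138) (nat_lit 15) (.e (nat_lit 2175) (nat_lit 143) .nil)))) .nil)) 
(.lf (nat_lit 201722) (.g (nat_lit 2302) (.e (nat_lit 73753) (nat_lit 8) (.e (nat_lit 557101) (nat_lit 13) (.e (nat_lit 172066) (nat_lit 3) (.e (nat_lit 204819) (nat_lit 17) (.e (nat_lit 2355) (nat_lit 152) (.e (nat_lit 786455) (nat_lit 17) (.e (nat_lit 98048) (nat_lit 5) .nil))))))) (.g (nat_lit 4) .nil .nil)))))) (.nd (nat_lit 3) (.nd (nat_lit 4) (.nd (nat_lit 5) 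
(.lf (nat_lit 201670) (.g (nat_lit 2534) (.e (nat_lit 73753) (nat_lit 8) (.e (nat_lit 557100) (nat_lit 13) (.e (nat_lit 172062) (nat_lit 2) (.e (nat_lit 196656) (nat_lit 11) (.e (nat_lit 24320) (nat_lit 17) (.e (nat_lit 98048) (nat_lit 5) .nil)))))) (.g (nat_lit 4) .nil .nil))) 
(.lf (nat_lit 201702) (.g (nat_lit 2958) (.e (nat_lit 73753) (nat_lit 8) (.e (nat_lit 557100) (nat_lit 13) (.e (nat_lit 179968) (nat_lit 20) (.e (nat_lit 114712) (nat_lit 21) (.e (nat_lit 57851) (nat_lit 252) (.e (nat_lit 57347) (nat_lit 0) (.e (nat_lit 2032) (nat_lit 140) (.e (nat_lit 688180) (nat_lit 17) .nil)))))))) (.g (nat_lit 5) .nil .nil)))) (.nd (nat_lit 5) 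
(.lf (nat_lit 201686) (.g (nat_lit 1692) (.e (nat_lit 73753) (nat_lit 8) (.e (nat_lit 557100) (nat_lit 13) (.e (nat_lit 172067) (nat_lit 3) (.e (nat_lit 204810) (nat_lit 9) .nil)))) .nil)) 
(.lf (nat_lit 201718) (.g (nat_lit 2763) (.e (nat_lit 73753) (nat_lit 8) (.e (nat_lit 557101) (nat_lit 13) (.e (nat_lit 172064) (nat_lit 2) (.e (nat_lit 196656) (nat_lit 11) (.e (nat_lit 16392) (nat_lit 0) (.e (nat_lit 3281) (nat_lit 200) (.e (nat_lit 564992) (nat_lit 5) .nil))))))) (.g (nat_lit 4) .nil .nil))))) (.nd (nat_lit 4) (.nd (nat_lit 5) 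
(.lf (nat_lit 201678) (.g (nat_lit 2950) (.e (nat_lit 73753) (nat_lit 8) (.e (nat_lit 557100) (nat_lit 13) (.e (nat_lit 172064) (nat_lit 2) (.e (nat_lit 196661) (nat_lit 12) (.e (nat_lit 57575) (nat_lit 55) (.e (nat_lit 786176) (nat_lit 0) (.e (nat_lit 1239) (nat_lit 91) (.e (nat_lit 98048) (nat_lit 5) .nil)))))))) (.g (nat_lit 5) .nil .nil))) 
(.lf (nat_lit 201710) (.g (nat_lit 2518) (.e (nat_lit 73753) (nat_lit 8) (.e (nat_lit 557101) (nat_lit 13) (.e (nat_lit 172062) (nat_lit 2) (.e (nat_lit 196656) (nat_lit 11) (.e (nat_lit 16392) (nat_lit 0) (.e (nat_lit 3281) (nat_lit 200) (.e (nat_lit 564992) (nat_lit 5) .nil))))))) (.g (nat_lit 4) .nil .nil)))) (.nd (nat_lit 5) 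
(.lf (nat_lit 201694) (.g (nat_lit 3704) (.e (nat_lit 73753) (nat_lit 8) (.e (nat_lit 557100) (nat_lit 13) (.e (nat_lit 179968) (nat_lit 20) (.e (nat_lit 114710) (nat_lit 21) (.e (nat_lit 57851) (nat_lit 252) (.e (nat_lit 57347) (nat_lit 0) (.e (nat_lit 2032) (nat_lit 140) (.e (nat_lit 688180) (nat_lit 17) .nil)))))))) (.g (nat_lit 6) .nil .nil))) 
(.lf (nat_lit 201726) (.g (nat_lit 1620) (.e (nat_lit 73753) (nat_lit 8) (.e (nat_lit 557101) (nat_lit 13) (.e (nat_lit 172067) (nat_lit 3) (.e (nat_lit 204821) (nat_lit 17) (.e (nat_lit 2334) (nat_lit 151) .nil))))) .nil))))))) (.nd (nat_lit 1) (.nd (nat_lit 2) (.nd (nat_lit 3) (.nd (nat_lit 4) (.nd (nat_lit 5) 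
(.lf (nat_lit 201665) (.g (nat_lit 978) (.e (nat_lit 73753) (nat_lit 8) (.e (nat_lit 557100) (nat_lit 13) (.e (nat_lit 172062) (nat_lit 2) (.e (nat_lit 204544) (nat_lit 2) .nil)))) .nil)) 
(.lf (nat_lit 201697) (.g (nat_lit 4426) (.e (nat_lit 73753) (nat_lit 8) (.e (nat_lit 557100) (nat_lit 13) (.e (nat_lit 179968) (nat_lit 20) (.e (nat_lit 114711) (nat_lit 21) (.e (nat_lit 57847) (nat_lit 252) (.e (nat_lit 57348) (nat_lit 0) (.e (nat_lit 2031) (nat_lit 140) (.e (nat_lit 688180) (nat_lit 17) .nil)))))))) (.g (nat_lit 7) .nil .nil)))) (.nd (nat_lit 5) 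
(.lf (nat_lit 201681) (.g (nat_lit 2970) (.e (nat_lit 73753) (nat_lit 8) (.e (nat_lit 557100) (nat_lit 13) (.e (nat_lit 172065) (nat_lit 3) (.e (nat_lit 204809) (nat_lit 9) (.e (nat_lit 433920) (nat_lit 22) (.e (nat_lit 139281) (nat_lit 5) .nil)))))) (.g (nat_lit 4) .nil .nil))) 
(.lf (nat_lit 201713) (.g (nat_lit 2293) (.e (nat_lit 73753) (nat_lit 8) (.e (nat_lit 557101) (nat_lit 13) (.e (nat_lit 172063) (nat_lit 2) (.e (nat_lit 196656) (nat_lit 11) (.e (nat_lit 16392) (nat_lit 0) (.e (nat_lit 3279) (nat_lit 200) (.e (nat_lit 564992) (nat_lit 5) .nil))))))) (.g (nat_lit 4) .nil .nil))))) (.nd (nat_lit 4) (.nd (nat_lit 5) 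
(.lf (nat_lit 201673) (.g (nat_lit 1113) (.e (nat_lit 73753) (nat_lit 8) (.e (nat_lit 557100) (nat_lit 13) (.e (nat_lit 172064) (nat_lit 2) (.e (nat_lit 204544) (nat_lit 0) .nil)))) .nil)) 
(.lf (nat_lit 201705) (.g (nat_lit 1573) (.e (nat_lit 73753) (nat_lit 8) (.e (nat_lit 557101) (nat_lit 13) (.e (nat_lit 172051) (nat_lit 0) (.e (nat_lit 3289) (nat_lit 201) (.e (nat_lit 565252) (nat_lit 0) (.e (nat_lit 1634) (nat_lit 114) (.e (nat_lit 385059) (nat_lit 22) (.e (nat_lit 500073) (nat_lit 19) .nil)))))))) (.g (nat_lit 4) .nil .nil)))) (.nd (nat_lit 5) 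
(.lf (nat_lit 201689) (.g (nat_lit 789) (.e (nat_lit 73753) (nat_lit 8) (.e (nat_lit 557100) (nat_lit 13) (.e (nat_lit 172137) (nat_lit 15) .nil))) .nil)) 
(.lf (nat_lit 201721) (.g (nat_lit 1680) (.e (nat_lit 73753) (nat_lit 8) (.e (nat_lit 557101) (nat_lit 13) (.e (nat_lit 172065) (nat_lit 3) (.e (nat_lit 204809) (nat_lit 9) (.e (nat_lit 433920) (nat_lit 17) .nil))))) .nil))))) (.nd (nat_lit 3) (.nd (nat_lit 4) (.nd (nat_lit 5) 
(.lf (nat_lit 201669) (.g (nat_lit 3314) (.e (nat_lit 73753) (nat_lit 8) (.e (nat_lit 557100) (nat_lit 13) (.e (nat_lit 172062) (nat_lit 2) (.e (nat_lit 196656) (nat_lit 11) (.e (nat_lit 16397) (nat_lit 0) (.e (nat_lit 3289) (nat_lit 201) (.e (nat_lit 565268) (nat_lit 5) .nil))))))) (.g (nat_lit 4) .nil .nil))) 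
(.lf (nat_lit 201701) (.g (nat_lit 2913) (.e (nat_lit 73753) (nat_lit 8) (.e (nat_lit 557100) (nat_lit 13) (.e (nat_lit 179968) (nat_lit 20) (.e (nat_lit 114712) (nat_lit 21) (.e (nat_lit 57851) (nat_lit 252) (.e (nat_lit 57347) (nat_lit 0) (.e (nat_lit 2029) (nat_lit 140) (.e (nat_lit 688180) (nat_lit 17) .nil)))))))) (.g (nat_lit 5) .nil .nil)))) (.nd (nat_lit 5) 
(.lf (nat_lit 201685) (.g (nat_lit 2987) (.e (nat_lit 73753) (nat_lit 8) (.e (nat_lit 557100) (nat_lit 13) (.e (nat_lit 172067) (nat_lit 3) (.e (nat_lit 204809) (nat_lit 9) (.e (nat_lit 433920) (nat_lit 22) (.e (nat_lit 139281) (nat_lit 5) .nil)))))) (.g (nat_lit 4) .nil .nil))) 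
(.lf (nat_lit 201717) (.g (nat_lit 1917) (.e (nat_lit 73753) (nat_lit 8) (.e (nat_lit 557101) (nat_lit 13) (.e (nat_lit 172064) (nat_lit 2) (.e (nat_lit 196630) (nat_lit 9) (.e (nat_lit 1312) (nat_lit 98) .nil))))) .nil)))) (.nd (nat_lit 4) (.nd (nat_lit 5) 
(.lf (nat_lit 201677) (.g (nat_lit 2445) (.e (nat_lit 73753) (nat_lit 8) (.e (nat_lit 557100) (nat_lit 13) (.e (nat_lit 172064) (nat_lit 2) (.e (nat_lit 196661) (nat_lit 12) (.e (nat_lit 57573) (nat_lit 55) (.e (nat_lit 778316) (nat_lit 3) (.e (nat_lit 57454) (nat_lit 21) (.e (nat_lit 507648) (nat_lit 19) .nil)))))))) (.g (nat_lit 4) .nil .nil))) 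
(.lf (nat_lit 201709) (.g (nat_lit 2001) (.e (nat_lit 73753) (nat_lit 8) (.e (nat_lit 557101) (nat_lit 13) (.e (nat_lit 172062) (nat_lit 2) (.e (nat_lit 196656) (nat_lit 11) (.e (nat_lit 16392) (nat_lit 0) (.e (nat_lit 3279) (nat_lit 200) (.e (nat_lit 564992) (nat_lit 5) .nil))))))) (.g (nat_lit 4) .nil .nil)))) (.nd (nat_lit 5) 
(.lf (nat_lit 201693) (.g (nat_lit 3678) (.e (nat_lit 73753) (nat_lit 8) (.e (nat_lit 557100) (nat_lit 13) (.e (nat_lit 179968) (nat_lit 20) (.e (nat_lit 114710) (nat_lit 21) (.e (nat_lit 57851) (nat_lit 252) (.e (nat_lit 57347) (nat_lit 0) (.e (nat_lit 2029) (nat_lit 140) (.e (nat_lit 688180) (nat_lit 17) .nil)))))))) (.g (nat_lit 6) .nil .nil))) 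
(.lf (nat_lit 201725) (.g (nat_lit 2421) (.e (nat_lit 73753) (nat_lit 8) (.e (nat_lit 557101) (nat_lit 13) (.e (nat_lit 172067) (nat_lit 3) (.e (nat_lit 204809) (nat_lit 9) (.e (nat_lit 433920) (nat_lit 17) (.e (nat_lit 98048) (nat_lit 5) .nil)))))) (.g (nat_lit 4) .nil .nil))))))) (.nd (nat_lit 2) (.nd (nat_lit 3) (.nd (nat_lit 4) (.nd (nat_lit 5) 
(.lf (nat_lit 201667) (.g (nat_lit 3149) (.e (nat_lit 73753) (nat_lit 8) (.e (nat_lit 557100) (nat_lit 13) (.e (nat_lit 172062) (nat_lit 2) (.e (nat_lit 196656) (nat_lit 11) (.e (nat_lit 16392) (nat_lit 0) (.e (nat_lit 3279) (nat_lit 200) (.e (nat_lit 564992) (nat_lit 5) .nil))))))) (.g (nat_lit 4) .nil .nil))) 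
(.lf (nat_lit 201699) (.g (nat_lit 2782) (.e (nat_lit 73753) (nat_lit 8) (.e (nat_lit 557100) (nat_lit 13) (.e (nat_lit 179968) (nat_lit 20) (.e (nat_lit 114711) (nat_lit 21) (.e (nat_lit 57847) (nat_lit 252) (.e (nat_lit 57351) (nat_lit 0) (.e (nat_lit 2032) (nat_lit 140) (.e (nat_lit 688180) (nat_lit 17) .nil)))))))) (.g (nat_lit 5) .nil .nil)))) (.nd (nat_lit 5) 
(.lf (nat_lit 201683) (.g (nat_lit 2085) (.e (nat_lit 73753) (nat_lit 8) (.e (nat_lit 557100) (nat_lit 13) (.e (nat_lit 172067) (nat_lit 3) (.e (nat_lit 204809) (nat_lit 9) (.e (nat_lit 426024) (nat_lit 0) .nil))))) .nil)) 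
(.lf (nat_lit 201715) (.g (nat_lit 2910) (.e (nat_lit 73753) (nat_lit 8) (.e (nat_lit 557101) (nat_lit 13) (.e (nat_lit 172063) (nat_lit 2) (.e (nat_lit 196656) (nat_lit 11) (.e (nat_lit 16397) (nat_lit 0) (.e (nat_lit 3289) (nat_lit 201) (.e (nat_lit 565268) (nat_lit 5) .nil))))))) (.g (nat_lit 4) .nil .nil))))) (.nd (nat_lit 4) (.nd (nat_lit 5) 
(.lf (nat_lit 201675) (.g (nat_lit 2725) (.e (nat_lit 73753) (nat_lit 8) (.e (nat_lit 557100) (nat_lit 13) (.e (nat_lit 172064) (nat_lit 2) (.e (nat_lit 196656) (nat_lit 11) (.e (nat_lit 16392) (nat_lit 0) (.e (nat_lit 3281) (nat_lit 200) (.e (nat_lit 564992) (nat_lit 5) .nil))))))) (.g (nat_lit 4) .nil .nil))) 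
(.lf (nat_lit 201707) (.g (nat_lit 1892) (.e (nat_lit 73753) (nat_lit 8) (.e (nat_lit 557101) (nat_lit 13) (.e (nat_lit 172061) (nat_lit 1) (.e (nat_lit 164327) (nat_lit 230) (.e (nat_lit 163886) (nat_lit 5) (.e (nat_lit 221208) (nat_lit 21) (.e (nat_lit 164312) (nat_lit 226) (.e (nat_lit 7936) (nat_lit 89) .nil)))))))) (.g (nat_lit 4) .nil .nil)))) (.nd (nat_lit 5) 
(.lf (nat_lit 201691) (.g (nat_lit 2929) (.e (nat_lit 73753) (nat_lit 8) (.e (nat_lit 557100) (nat_lit 13) (.e (nat_lit 172138) (nat_lit 15) (.e (nat_lit 2175) (nat_lit 143) (.e (nat_lit 712747) (nat_lit 28) (.e (nat_lit 434286) (nat_lit 42) (.e (nat_lit 688179) (nat_lit 17) .nil))))))) (.g (nat_lit 4) .nil .nil))) 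
(.lf (nat_lit 201723) (.g (nat_lit 2134) (.e (nat_lit 73753) (nat_lit 8) (.e (nat_lit 557101) (nat_lit 13) (.e (nat_lit 172066) (nat_lit 3) (.e (nat_lit 204819) (nat_lit 17) (.e (nat_lit 2357) (nat_lit 152) (.e (nat_lit 786455) (nat_lit 17) (.e (nat_lit 98048) (nat_lit 5) .nil))))))) (.g (nat_lit 4) .nil .nil)))))) (.nd (nat_lit 3) (.nd (nat_lit 4) (.nd (nat_lit 5) 
(.lf (nat_lit 201671) (.g (nat_lit 2467) (.e (nat_lit 73753) (nat_lit 8) (.e (nat_lit 557100) (nat_lit 13) (.e (nat_lit 172062) (nat_lit 2) (.e (nat_lit 196661) (nat_lit 12) (.e (nat_lit 57573) (nat_lit 55) (.e (nat_lit 778316) (nat_lit 3) (.e (nat_lit 57454) (nat_lit 21) (.e (nat_lit 507648) (nat_lit 19) .nil)))))))) (.g (nat_lit 4) .nil .nil))) 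
(.lf (nat_lit 201703) (.g (nat_lit 1540) (.e (nat_lit 73753) (nat_lit 8) (.e (nat_lit 557101) (nat_lit 13) (.e (nat_lit 172051) (nat_lit 0) (.e (nat_lit 3205) (nat_lit 194) (.e (nat_lit 507939) (nat_lit 12) (.e (nat_lit 48896) (nat_lit 0) (.e (nat_lit 1239) (nat_lit 91) (.e (nat_lit 98048) (nat_lit 5) .nil)))))))) (.g (nat_lit 5) .nil .nil)))) (.nd (nat_lit 5) 
(.lf (nat_lit 201687) (.g (nat_lit 1873) (.e (nat_lit 73753) (nat_lit 8) (.e (nat_lit 557100) (nat_lit 13) (.e (nat_lit 172067) (nat_lit 3) (.e (nat_lit 204821) (nat_lit 17) (.e (nat_lit 2334) (nat_lit 151) .nil))))) .nil)) 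
(.lf (nat_lit 201719) (.g (nat_lit 1986) (.e (nat_lit 73753) (nat_lit 8) (.e (nat_lit 557101) (nat_lit 13) (.e (nat_lit 172064) (nat_lit 2) (.e (nat_lit 196656) (nat_lit 11) (.e (nat_lit 24320) (nat_lit 17) .nil))))) .nil)))) (.nd (nat_lit 4) (.nd (nat_lit 5) 
(.lf (nat_lit 201679) (.g (nat_lit 1237) (.e (nat_lit 73753) (nat_lit 8) (.e (nat_lit 557100) (nat_lit 13) (.e (nat_lit 172065) (nat_lit 3) (.e (nat_lit 204809) (nat_lit 9) .nil)))) .nil)) 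
(.lf (nat_lit 201711) (.g (nat_lit 1654) (.e (nat_lit 73753) (nat_lit 8) (.e (nat_lit 557101) (nat_lit 13) (.e (nat_lit 172062) (nat_lit 2) (.e (nat_lit 196656) (nat_lit 11) (.e (nat_lit 24320) (nat_lit 17) .nil))))) .nil))) (.nd (nat_lit 5) 
(.lf (nat_lit 201695) (.g (nat_lit 3390) (.e (nat_lit 73753) (nat_lit 8) (.e (nat_lit 557100) (nat_lit 13) (.e (nat_lit 179968) (nat_lit 20) (.e (nat_lit 114711) (nat_lit 21) (.e (nat_lit 57847) (nat_lit 252) (.e (nat_lit 57345) (nat_lit 0) (.e (nat_lit 2031) (nat_lit 140) (.e (nat_lit 688180) (nat_lit 17) .nil)))))))) (.g (nat_lit 5) .nil .nil))) 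
(.lf (nat_lit 201727) (.g (nat_lit 1689) (.e (nat_lit 73753) (nat_lit 8) (.e (nat_lit 557101) (nat_lit 13) (.e (nat_lit 172067) (nat_lit 3) (.e (nat_lit 204841) (nat_lit 22) .nil)))) .nil))))))))

noncomputable def tv2663 : DT := (.nd (nat_lit 0) (.nd (nat_lit 1) (.nd (nat_lit 2) (.nd (nat_lit 3) (.nd (nat_lit 4) (.nd (nat_lit 5) (.nd (nat_lit 6) 
(.lf (nat_lit 201728) (.g (nat_lit 1753) (.e (nat_lit 73753) (nat_lit 8) (.e (nat_lit 557101) (nat_lit 13) (.e (nat_lit 172067) (nat_lit 3) (.e (nat_lit 204842) (nat_lit 22) .nil)))) .nil)) 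
(.lf (nat_lit 201792) (.g (nat_lit 4116) (.e (nat_lit 73753) (nat_lit 8) (.e (nat_lit 557103) (nat_lit 14) (.e (nat_lit 180250) (nat_lit 10) (.e (nat_lit 573474) (nat_lit 12) (.e (nat_lit 57347) (nat_lit 0) (.e (nat_lit 5593) (nat_lit 310) (.e (nat_lit 163868) (nat_lit 2) (.e (nat_lit 196668) (nat_lit 14) .nil)))))))) (.g (nat_lit 5) .nil .nil)))) (.nd (nat_lit 6) 
(.lf (nat_lit 201760) (.g (nat_lit 1609) (.e (nat_lit 73753) (nat_lit 8) (.e (nat_lit 557103) (nat_lit 14) (.e (nat_lit 180244) (nat_lit 5) (.e (nat_lit 532579) (nat_lit 26) (.e (nat_lit 426383) (nat_lit 15) .nil))))) .nil)) 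
(.lf (nat_lit 201824) (.g (nat_lit 3136) (.e (nat_lit 73753) (nat_lit 8) (.e (nat_lit 557104) (nat_lit 14) (.e (nat_lit 180252) (nat_lit 10) (.e (nat_lit 573468) (nat_lit 10) (.e (nat_lit 8259) (nat_lit 45) (.e (nat_lit 778318) (nat_lit 3) (.e (nat_lit 57454) (nat_lit 21) (.e (nat_lit 507648) (nat_lit 19) .nil)))))))) (.g (nat_lit 4) .nil .nil))))) (.nd (nat_lit 5) (.nd (nat_lit 6) 
(.lf (nat_lit 201744) (.g (nat_lit 731) (.e (nat_lit 73753) (nat_lit 8) (.e (nat_lit 557103) (nat_lit 14) (.e (nat_lit 180232) (nat_lit 0) .nil))) .nil)) 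
(.lf (nat_lit 201808) (.g (nat_lit 2825) (.e (nat_lit 73753) (nat_lit 8) (.e (nat_lit 557103) (nat_lit 14) (.e (nat_lit 180250) (nat_lit 10) (.e (nat_lit 573475) (nat_lit 12) (.e (nat_lit 57515) (nat_lit 42) (.e (nat_lit 671751) (nat_lit 0) (.e (nat_lit 1234) (nat_lit 91) (.e (nat_lit 98048) (nat_lit 5) .nil)))))))) (.g (nat_lit 4) .nil .nil)))) (.nd (nat_lit 6) 
(.lf (nat_lit 201776) (.g (nat_lit 4519) (.e (nat_lit 73753) (nat_lit 8) (.e (nat_lit 557103) (nat_lit 14) (.e (nat_lit 180250) (nat_lit 10) (.e (nat_lit 573468) (nat_lit 10) (.e (nat_lit 8261) (nat_lit 45) (.e (nat_lit 778318) (nat_lit 3) (.e (nat_lit 57454) (nat_lit 21) (.e (nat_lit 507648) (nat_lit 19) .nil)))))))) (.g (nat_lit 7) .nil .nil))) 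
(.lf (nat_lit 201840) (.g (nat_lit 455) (.e (nat_lit 73753) (nat_lit 8) (.e (nat_lit 557105) (nat_lit 14) (.e (nat_lit 180227) (nat_lit 0) .nil))) .nil))))) (.nd (nat_lit 4) (.nd (nat_lit 5) (.nd (nat_lit 6) 
(.lf (nat_lit 201736) (.g (nat_lit 3093) (.e (nat_lit 73753) (nat_lit 8) (.e (nat_lit 557101) (nat_lit 13) (.e (nat_lit 179968) (nat_lit 20) (.e (nat_lit 114710) (nat_lit 21) (.e (nat_lit 57851) (nat_lit 252) (.e (nat_lit 57347) (nat_lit 0) (.e (nat_lit 2032) (nat_lit 140) (.e (nat_lit 688180) (nat_lit 17) .nil)))))))) (.g (nat_lit 6) .nil .nil))) 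
(.lf (nat_lit 201800) (.g (nat_lit 2213) (.e (nat_lit 73753) (nat_lit 8) (.e (nat_lit 557103) (nat_lit 14) (.e (nat_lit 180250) (nat_lit 10) (.e (nat_lit 573474) (nat_lit 12) (.e (nat_lit 57516) (nat_lit 42) (.e (nat_lit 671748) (nat_lit 0) (.e (nat_lit 1303) (nat_lit 97) (.e (nat_lit 139281) (nat_lit 5) .nil)))))))) (.g (nat_lit 4) .nil .nil)))) (.nd (nat_lit 6) 
(.lf (nat_lit 201768) (.g (nat_lit 2499) (.e (nat_lit 73753) (nat_lit 8) (.e (nat_lit 557103) (nat_lit 14) (.e (nat_lit 180250) (nat_lit 10) (.e (nat_lit 573467) (nat_lit 10) (.e (nat_lit 8260) (nat_lit 45) (.e (nat_lit 778246) (nat_lit 0) (.e (nat_lit 1239) (nat_lit 91) (.e (nat_lit 98048) (nat_lit 5) .nil)))))))) (.g (nat_lit 4) .nil .nil))) 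
(.lf (nat_lit 201832) (.g (nat_lit 3199) (.e (nat_lit 73753) (nat_lit 8) (.e (nat_lit 557104) (nat_lit 14) (.e (nat_lit 180252) (nat_lit 10) (.e (nat_lit 573474) (nat_lit 12) (.e (nat_lit 57349) (nat_lit 0) .nil))))) .nil)))) (.nd (nat_lit 5) (.nd (nat_lit 6) 
(.lf (nat_lit 201752) (.g (nat_lit 3486) (.e (nat_lit 73753) (nat_lit 8) (.e (nat_lit 557103) (nat_lit 14) (.e (nat_lit 180243) (nat_lit 5) (.e (nat_lit 532501) (nat_lit 1) (.e (nat_lit 57696) (nat_lit 158) (.e (nat_lit 7936) (nat_lit 81) (.e (nat_lit 1239) (nat_lit 91) (.e (nat_lit 98048) (nat_lit 5) .nil)))))))) (.g (nat_lit 4) .nil .nil))) 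
(.lf (nat_lit 201816) (.g (nat_lit 1623) (.e (nat_lit 73753) (nat_lit 8) (.e (nat_lit 557103) (nat_lit 14) (.e (nat_lit 180261) (nat_lit 20) (.e (nat_lit 655364) (nat_lit 0) (.e (nat_lit 2964) (nat_lit 185) .nil))))) .nil))) (.nd (nat_lit 6) 
(.lf (nat_lit 201784) (.g (nat_lit 2961) (.e (nat_lit 73753) (nat_lit 8) (.e (nat_lit 557103) (nat_lit 14) (.e (nat_lit 180250) (nat_lit 10) (.e (nat_lit 573468) (nat_lit 10) (.e (nat_lit 8272) (nat_lit 46) (.e (nat_lit 786455) (nat_lit 17) (.e (nat_lit 98048) (nat_lit 5) .nil))))))) (.g (nat_lit 4) .nil .nil))) 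
(.lf (nat_lit 201848) (.g (nat_lit 1171) (.e (nat_lit 73753) (nat_lit 8) (.e (nat_lit 557105) (nat_lit 14) (.e (nat_lit 180245) (nat_lit 5) (.e (nat_lit 532499) (nat_lit 1) .nil)))) .nil)))))) (.nd (nat_lit 3) (.nd (nat_lit 4) (.nd (nat_lit 5) (.nd (nat_lit 6) 
(.lf (nat_lit 201732) (.g (nat_lit 1884) (.e (nat_lit 73753) (nat_lit 8) (.e (nat_lit 557101) (nat_lit 13) (.e (nat_lit 179968) (nat_lit 20) (.e (nat_lit 114710) (nat_lit 21) (.e (nat_lit 57847) (nat_lit 252) (.e (nat_lit 57351) (nat_lit 0) (.e (nat_lit 2032) (nat_lit 140) (.e (nat_lit 688180) (nat_lit 17) .nil)))))))) (.g (nat_lit 5) .nil .nil))) 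
(.lf (nat_lit 201796) (.g (nat_lit 2097) (.e (nat_lit 73753) (nat_lit 8) (.e (nat_lit 557103) (nat_lit 14) (.e (nat_lit 180250) (nat_lit 10) (.e (nat_lit 573474) (nat_lit 12) (.e (nat_lit 57516) (nat_lit 42) (.e (nat_lit 671744) (nat_lit 0) (.e (nat_lit 1239) (nat_lit 91) (.e (nat_lit 98048) (nat_lit 5) .nil)))))))) (.g (nat_lit 4) .nil .nil)))) (.nd (nat_lit 6) 
(.lf (nat_lit 201764) (.g (nat_lit 2430) (.e (nat_lit 73753) (nat_lit 8) (.e (nat_lit 557103) (nat_lit 14) (.e (nat_lit 180250) (nat_lit 10) (.e (nat_lit 573441) (nat_lit 0) (.e (nat_lit 2857) (nat_lit 184) (.e (nat_lit 426428) (nat_lit 17) (.e (nat_lit 98048) (nat_lit 5) .nil))))))) (.g (nat_lit 4) .nil .nil))) 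
(.lf (nat_lit 201828) (.g (nat_lit 2946) (.e (nat_lit 73753) (nat_lit 8) (.e (nat_lit 557104) (nat_lit 14) (.e (nat_lit 180252) (nat_lit 10) (.e (nat_lit 573473) (nat_lit 12) (.e (nat_lit 57507) (nat_lit 39) .nil))))) .nil)))) (.nd (nat_lit 5) (.nd (nat_lit 6) 
(.lf (nat_lit 201748) (.g (nat_lit 2523) (.e (nat_lit 73753) (nat_lit 8) (.e (nat_lit 557103) (nat_lit 14) (.e (nat_lit 180240) (nat_lit 2) (.e (nat_lit 507939) (nat_lit 12) (.e (nat_lit 48896) (nat_lit 0) (.e (nat_lit 1239) (nat_lit 91) (.e (nat_lit 98048) (nat_lit 5) .nil))))))) (.g (nat_lit 4) .nil .nil))) 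
(.lf (nat_lit 201812) (.g (nat_lit 2759) (.e (nat_lit 73753) (nat_lit 8) (.e (nat_lit 557103) (nat_lit 14) (.e (nat_lit 180250) (nat_lit 10) (.e (nat_lit 573475) (nat_lit 12) (.e (nat_lit 57516) (nat_lit 42) (.e (nat_lit 671748) (nat_lit 0) (.e (nat_lit 1304) (nat_lit 97) (.e (nat_lit 139281) (nat_lit 5) .nil)))))))) (.g (nat_lit 4) .nil .nil)))) (.nd (nat_lit 6) 
(.lf (nat_lit 201780) (.g (nat_lit 3145) (.e (nat_lit 73753) (nat_lit 8) (.e (nat_lit 557103) (nat_lit 14) (.e (nat_lit 180250) (nat_lit 10) (.e (nat_lit 573468) (nat_lit 10) (.e (nat_lit 8268) (nat_lit 45) (.e (nat_lit 786176) (nat_lit 0) (.e (nat_lit 1239) (nat_lit 91) (.e (nat_lit 98048) (nat_lit 5) .nil)))))))) (.g (nat_lit 4) .nil .nil))) 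
(.lf (nat_lit 201844) (.g (nat_lit 842) (.e (nat_lit 73753) (nat_lit 8) (.e (nat_lit 557105) (nat_lit 14) (.e (nat_lit 180235) (nat_lit 1) .nil))) .nil))))) (.nd (nat_lit 4) (.nd (nat_lit 5) (.nd (nat_lit 6) 
(.lf (nat_lit 201740) (.g (nat_lit 731) (.e (nat_lit 73753) (nat_lit 8) (.e (nat_lit 557103) (nat_lit 14) (.e (nat_lit 180228) (nat_lit 0) .nil))) .nil)) 
(.lf (nat_lit 201804) (.g (nat_lit 2263) (.e (nat_lit 73753) (nat_lit 8) (.e (nat_lit 557103) (nat_lit 14) (.e (nat_lit 180250) (nat_lit 10) (.e (nat_lit 573475) (nat_lit 12) (.e (nat_lit 57345) (nat_lit 0) .nil))))) .nil))) (.nd (nat_lit 6) 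
(.lf (nat_lit 201772) (.g (nat_lit 3052) (.e (nat_lit 73753) (nat_lit 8) (.e (nat_lit 557103) (nat_lit 14) (.e (nat_lit 180250) (nat_lit 10) (.e (nat_lit 573468) (nat_lit 10) (.e (nat_lit 8259) (nat_lit 45) (.e (nat_lit 778246) (nat_lit 0) (.e (nat_lit 1239) (nat_lit 91) (.e (nat_lit 98048) (nat_lit 5) .nil)))))))) (.g (nat_lit 4) .nil .nil))) 
(.lf (nat_lit 201836) (.g (nat_lit 2519) (.e (nat_lit 73753) (nat_lit 8) (.e (nat_lit 557104) (nat_lit 14) (.e (nat_lit 180252) (nat_lit 10) (.e (nat_lit 573474) (nat_lit 12) (.e (nat_lit 57516) (nat_lit 42) .nil))))) .nil)))) (.nd (nat_lit 5) (.nd (nat_lit 6) 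
(.lf (nat_lit 201756) (.g (nat_lit 2887) (.e (nat_lit 73753) (nat_lit 8) (.e (nat_lit 557103) (nat_lit 14) (.e (nat_lit 180244) (nat_lit 5) (.e (nat_lit 532579) (nat_lit 26) (.e (nat_lit 426024) (nat_lit 0) (.e (nat_lit 3279) (nat_lit 200) (.e (nat_lit 564992) (nat_lit 5) .nil))))))) (.g (nat_lit 6) .nil .nil))) 
(.lf (nat_lit 201820) (.g (nat_lit 866) (.e (nat_lit 73753) (nat_lit 8) (.e (nat_lit 557103) (nat_lit 14) (.e (nat_lit 180261) (nat_lit 20) (.e (nat_lit 655379) (nat_lit 5) .nil)))) .nil))) (.nd (nat_lit 6) 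
(.lf (nat_lit 201788) (.g (nat_lit 3134) (.e (nat_lit 73753) (nat_lit 8) (.e (nat_lit 557103) (nat_lit 14) (.e (nat_lit 180250) (nat_lit 10) (.e (nat_lit 573474) (nat_lit 12) (.e (nat_lit 57344) (nat_lit 0) (.e (nat_lit 5593) (nat_lit 310) (.e (nat_lit 163868) (nat_lit 2) (.e (nat_lit 196668) (nat_lit 14) .nil)))))))) (.g (nat_lit 4) .nil .nil))) 
(.lf (nat_lit 201852) (.g (nat_lit 458) (.e (nat_lit 73753) (nat_lit 8) (.e (nat_lit 557105) (nat_lit 14) (.e (nat_lit 180251) (nat_lit 10) .nil))) .nil))))))) (.nd (nat_lit 2) (.nd (nat_lit 3) (.nd (nat_lit 4) (.nd (nat_lit 5) (.nd (nat_lit 6) 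
(.lf (nat_lit 201730) (.g (nat_lit 2076) (.e (nat_lit 73753) (nat_lit 8) (.e (nat_lit 557101) (nat_lit 13) (.e (nat_lit 172070) (nat_lit 4) (.e (nat_lit 229665) (nat_lit 240) (.e (nat_lit 2643) (nat_lit 165) (.e (nat_lit 180268) (nat_lit 24) (.e (nat_lit 688180) (nat_lit 17) .nil))))))) (.g (nat_lit 4) .nil .nil))) 
(.lf (nat_lit 201794) (.g (nat_lit 2185) (.e (nat_lit 73753) (nat_lit 8) (.e (nat_lit 557103) (nat_lit 14) (.e (nat_lit 180250) (nat_lit 10) (.e (nat_lit 573474) (nat_lit 12) (.e (nat_lit 57360) (nat_lit 0) (.e (nat_lit 5949) (nat_lit 322) (.e (nat_lit 57373) (nat_lit 2) (.e (nat_lit 98048) (nat_lit 5) .nil)))))))) (.g (nat_lit 4) .nil .nil)))) (.nd (nat_lit 6) 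
(.lf (nat_lit 201762) (.g (nat_lit 418) (.e (nat_lit 73753) (nat_lit 8) (.e (nat_lit 557103) (nat_lit 14) (.e (nat_lit 180250) (nat_lit 10) .nil))) .nil)) 
(.lf (nat_lit 201826) (.g (nat_lit 2983) (.e (nat_lit 73753) (nat_lit 8) (.e (nat_lit 557104) (nat_lit 14) (.e (nat_lit 180252) (nat_lit 10) (.e (nat_lit 573468) (nat_lit 10) (.e (nat_lit 8262) (nat_lit 45) .nil))))) .nil)))) (.nd (nat_lit 5) (.nd (nat_lit 6) 
(.lf (nat_lit 201746) (.g (nat_lit 1927) (.e (nat_lit 73753) (nat_lit 8) (.e (nat_lit 557103) (nat_lit 14) (.e (nat_lit 180236) (nat_lit 1) (.e (nat_lit 500048) (nat_lit 16) (.e (nat_lit 24320) (nat_lit 17) (.e (nat_lit 98048) (nat_lit 5) .nil)))))) (.g (nat_lit 4) .nil .nil))) 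
(.lf (nat_lit 201810) (.g (nat_lit 2796) (.e (nat_lit 73753) (nat_lit 8) (.e (nat_lit 557103) (nat_lit 14) (.e (nat_lit 180250) (nat_lit 10) (.e (nat_lit 573475) (nat_lit 12) (.e (nat_lit 57516) (nat_lit 42) (.e (nat_lit 671748) (nat_lit 0) (.e (nat_lit 1016) (nat_lit 81) (.e (nat_lit 1691) (nat_lit 117) (.e (nat_lit 500069) (nat_lit 19) .nil))))))))) (.g (nat_lit 4) .nil .nil)))) 
(.nd (nat_lit 6) 
(.lf (nat_lit 201778) (.g (nat_lit 4769) (.e (nat_lit 73753) (nat_lit 8) (.e (nat_lit 557103) (nat_lit 14) (.e (nat_lit 180250) (nat_lit 10) (.e (nat_lit 573468) (nat_lit 10) (.e (nat_lit 8262) (nat_lit 45) (.e (nat_lit 778318) (nat_lit 3) (.e (nat_lit 57454) (nat_lit 21) (.e (nat_lit 507648) (nat_lit 19) .nil)))))))) (.g (nat_lit 7) .nil .nil))) 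
(.lf (nat_lit 201842) (.g (nat_lit 846) (.e (nat_lit 73753) (nat_lit 8) (.e (nat_lit 557105) (nat_lit 14) (.e (nat_lit 180232) (nat_lit 0) .nil))) .nil))))) (.nd (nat_lit 4) (.nd (nat_lit 5) (.nd (nat_lit 6) 
(.lf (nat_lit 201738) (.g (nat_lit 2563) (.e (nat_lit 73753) (nat_lit 8) (.e (nat_lit 557101) (nat_lit 13) (.e (nat_lit 179968) (nat_lit 20) (.e (nat_lit 114712) (nat_lit 21) (.e (nat_lit 57851) (nat_lit 252) (.e (nat_lit 57347) (nat_lit 0) (.e (nat_lit 2029) (nat_lit 140) (.e (nat_lit 688180) (nat_lit 17) .nil)))))))) (.g (nat_lit 6) .nil .nil))) 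
(.lf (nat_lit 201802) (.g (nat_lit 2409) (.e (nat_lit 73753) (nat_lit 8) (.e (nat_lit 557103) (nat_lit 14) (.e (nat_lit 180250) (nat_lit 10) (.e (nat_lit 573474) (nat_lit 12) (.e (nat_lit 57516) (nat_lit 42) (.e (nat_lit 671751) (nat_lit 0) (.e (nat_lit 1234) (nat_lit 91) (.e (nat_lit 98048) (nat_lit 5) .nil)))))))) (.g (nat_lit 4) .nil .nil)))) (.nd (nat_lit 6) 
(.lf (nat_lit 201770) (.g (nat_lit 3128) (.e (nat_lit 73753) (nat_lit 8) (.e (nat_lit 557103) (nat_lit 14) (.e (nat_lit 180250) (nat_lit 10) (.e (nat_lit 573467) (nat_lit 10) (.e (nat_lit 8262) (nat_lit 45) (.e (nat_lit 778317) (nat_lit 3) (.e (nat_lit 57454) (nat_lit 21) (.e (nat_lit 507648) (nat_lit 19) .nil)))))))) (.g (nat_lit 5) .nil .nil))) 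
(.lf (nat_lit 201834) (.g (nat_lit 2996) (.e (nat_lit 73753) (nat_lit 8) (.e (nat_lit 557104) (nat_lit 14) (.e (nat_lit 180252) (nat_lit 10) (.e (nat_lit 573474) (nat_lit 12) (.e (nat_lit 57506) (nat_lit 39) .nil))))) .nil)))) (.nd (nat_lit 5) (.nd (nat_lit 6) 
(.lf (nat_lit 201754) (.g (nat_lit 2411) (.e (nat_lit 73753) (nat_lit 8) (.e (nat_lit 557103) (nat_lit 14) (.e (nat_lit 180244) (nat_lit 5) (.e (nat_lit 532518) (nat_lit 5) (.e (nat_lit 155392) (nat_lit 0) (.e (nat_lit 1239) (nat_lit 91) (.e (nat_lit 98048) (nat_lit 5) .nil))))))) (.g (nat_lit 4) .nil .nil))) 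
(.lf (nat_lit 201818) (.g (nat_lit 2984) (.e (nat_lit 73753) (nat_lit 8) (.e (nat_lit 557103) (nat_lit 14) (.e (nat_lit 180261) (nat_lit 20) (.e (nat_lit 655364) (nat_lit 0) (.e (nat_lit 2964) (nat_lit 185) (.e (nat_lit 434209) (nat_lit 18) (.e (nat_lit 6272) (nat_lit 337) (.e (nat_lit 1207) (nat_lit 89) .nil)))))))) (.g (nat_lit 4) .nil .nil)))) (.nd (nat_lit 6) 
(.lf (nat_lit 201786) (.g (nat_lit 2903) (.e (nat_lit 73753) (nat_lit 8) (.e (nat_lit 557103) (nat_lit 14) (.e (nat_lit 180250) (nat_lit 10) (.e (nat_lit 573468) (nat_lit 10) (.e (nat_lit 8274) (nat_lit 46) (.e (nat_lit 786455) (nat_lit 17) (.e (nat_lit 98048) (nat_lit 5) .nil))))))) (.g (nat_lit 4) .nil .nil))) 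
(.lf (nat_lit 201850) (.g (nat_lit 1145) (.e (nat_lit 73753) (nat_lit 8) (.e (nat_lit 557105) (nat_lit 14) (.e (nat_lit 180245) (nat_lit 5) (.e (nat_lit 540416) (nat_lit 32) .nil)))) .nil)))))) (.nd (nat_lit 3) (.nd (nat_lit 4) (.nd (nat_lit 5) (.nd (nat_lit 6) 
(.lf (nat_lit 201734) (.g (nat_lit 3067) (.e (nat_lit 73753) (nat_lit 8) (.e (nat_lit 557101) (nat_lit 13) (.e (nat_lit 179968) (nat_lit 20) (.e (nat_lit 114710) (nat_lit 21) (.e (nat_lit 57851) (nat_lit 252) (.e (nat_lit 57347) (nat_lit 0) (.e (nat_lit 2029) (nat_lit 140) (.e (nat_lit 688180) (nat_lit 17) .nil)))))))) (.g (nat_lit 6) .nil .nil))) 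
(.lf (nat_lit 201798) (.g (nat_lit 3128) (.e (nat_lit 73753) (nat_lit 8) (.e (nat_lit 557103) (nat_lit 14) (.e (nat_lit 180250) (nat_lit 10) (.e (nat_lit 573474) (nat_lit 12) (.e (nat_lit 57516) (nat_lit 42) (.e (nat_lit 671748) (nat_lit 0) (.e (nat_lit 1016) (nat_lit 81) (.e (nat_lit 1691) (nat_lit 117) (.e (nat_lit 500068) (nat_lit 19) .nil))))))))) (.g (nat_lit 4) .nil .nil)))) 
(.nd (nat_lit 6) 
(.lf (nat_lit 201766) (.g (nat_lit 1655) (.e (nat_lit 73753) (nat_lit 8) (.e (nat_lit 557103) (nat_lit 14) (.e (nat_lit 180250) (nat_lit 10) (.e (nat_lit 573447) (nat_lit 0) (.e (nat_lit 3065) (nat_lit 190) .nil))))) .nil)) 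
(.lf (nat_lit 201830) (.g (nat_lit 3016) (.e (nat_lit 73753) (nat_lit 8) (.e (nat_lit 557104) (nat_lit 14) (.e (nat_lit 180252) (nat_lit 10) (.e (nat_lit 573474) (nat_lit 12) (.e (nat_lit 57344) (nat_lit 0) .nil))))) .nil)))) (.nd (nat_lit 5) (.nd (nat_lit 6) 
(.lf (nat_lit 201750) (.g (nat_lit 2930) (.e (nat_lit 73753) (nat_lit 8) (.e (nat_lit 557103) (nat_lit 14) (.e (nat_lit 180243) (nat_lit 5) (.e (nat_lit 532501) (nat_lit 1) (.e (nat_lit 57696) (nat_lit 158) (.e (nat_lit 1009) (nat_lit 81) (.e (nat_lit 1239) (nat_lit 91) (.e (nat_lit 98048) (nat_lit 5) .nil)))))))) (.g (nat_lit 4) .nil .nil))) 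
(.lf (nat_lit 201814) (.g (nat_lit 2816) (.e (nat_lit 73753) (nat_lit 8) (.e (nat_lit 557103) (nat_lit 14) (.e (nat_lit 180250) (nat_lit 10) (.e (nat_lit 573477) (nat_lit 12) (.e (nat_lit 57360) (nat_lit 0) (.e (nat_lit 5818) (nat_lit 320) (.e (nat_lit 999) (nat_lit 81) (.e (nat_lit 1239) (nat_lit 91) (.e (nat_lit 98048) (nat_lit 5) .nil))))))))) (.g (nat_lit 4) .nil .nil)))) (.nd (nat_lit 6) 
(.lf (nat_lit 201782) (.g (nat_lit 2471) (.e (nat_lit 73753) (nat_lit 8) (.e (nat_lit 557103) (nat_lit 14) (.e (nat_lit 180250) (nat_lit 10) (.e (nat_lit 573468) (nat_lit 10) (.e (nat_lit 8271) (nat_lit 46) (.e (nat_lit 786455) (nat_lit 17) (.e (nat_lit 98048) (nat_lit 5) .nil))))))) (.g (nat_lit 4) .nil .nil))) 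
(.lf (nat_lit 201846) (.g (nat_lit 2675) (.e (nat_lit 73753) (nat_lit 8) (.e (nat_lit 557105) (nat_lit 14) (.e (nat_lit 180244) (nat_lit 5) (.e (nat_lit 532503) (nat_lit 1) (.e (nat_lit 65280) (nat_lit 168) .nil))))) .nil))))) (.nd (nat_lit 4) (.nd (nat_lit 5) (.nd (nat_lit 6) 
(.lf (nat_lit 201742) (.g (nat_lit 2245) (.e (nat_lit 73753) (nat_lit 8) (.e (nat_lit 557103) (nat_lit 14) (.e (nat_lit 180229) (nat_lit 0) (.e (nat_lit 5548) (nat_lit 306) (.e (nat_lit 2640) (nat_lit 165) (.e (nat_lit 180227) (nat_lit 0) (.e (nat_lit 6252) (nat_lit 337) (.e (nat_lit 7936) (nat_lit 89) .nil)))))))) (.g (nat_lit 4) .nil .nil))) 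
(.lf (nat_lit 201806) (.g (nat_lit 2362) (.e (nat_lit 73753) (nat_lit 8) (.e (nat_lit 557103) (nat_lit 14) (.e (nat_lit 180250) (nat_lit 10) (.e (nat_lit 573475) (nat_lit 12) (.e (nat_lit 57507) (nat_lit 39) .nil))))) .nil))) (.nd (nat_lit 6) 
(.lf (nat_lit 201774) (.g (nat_lit 3703) (.e (nat_lit 73753) (nat_lit 8) (.e (nat_lit 557103) (nat_lit 14) (.e (nat_lit 180250) (nat_lit 10) (.e (nat_lit 573468) (nat_lit 10) (.e (nat_lit 8260) (nat_lit 45) (.e (nat_lit 778318) (nat_lit 3) (.e (nat_lit 57454) (nat_lit 21) (.e (nat_lit 507648) (nat_lit 19) .nil)))))))) (.g (nat_lit 6) .nil .nil))) 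
(.lf (nat_lit 201838) (.g (nat_lit 3360) (.e (nat_lit 73753) (nat_lit 8) (.e (nat_lit 557104) (nat_lit 14) (.e (nat_lit 180252) (nat_lit 10) (.e (nat_lit 573475) (nat_lit 12) (.e (nat_lit 57506) (nat_lit 39) .nil))))) .nil)))) (.nd (nat_lit 5) (.nd (nat_lit 6) 
(.lf (nat_lit 201758) (.g (nat_lit 2274) (.e (nat_lit 73753) (nat_lit 8) (.e (nat_lit 557103) (nat_lit 14) (.e (nat_lit 180244) (nat_lit 5) (.e (nat_lit 532579) (nat_lit 26) (.e (nat_lit 426024) (nat_lit 0) (.e (nat_lit 3282) (nat_lit 200) (.e (nat_lit 564992) (nat_lit 5) .nil))))))) (.g (nat_lit 4) .nil .nil))) 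
(.lf (nat_lit 201822) (.g (nat_lit 2587) (.e (nat_lit 73753) (nat_lit 8) (.e (nat_lit 557104) (nat_lit 14) (.e (nat_lit 180244) (nat_lit 5) (.e (nat_lit 532501) (nat_lit 1) (.e (nat_lit 65280) (nat_lit 168) .nil))))) .nil))) (.nd (nat_lit 6) 
(.lf (nat_lit 201790) (.g (nat_lit 3072) (.e (nat_lit 73753) (nat_lit 8) (.e (nat_lit 557103) (nat_lit 14) (.e (nat_lit 180250) (nat_lit 10) (.e (nat_lit 573474) (nat_lit 12) (.e (nat_lit 57345) (nat_lit 0) (.e (nat_lit 5590) (nat_lit 310) (.e (nat_lit 163871) (nat_lit 2) (.e (nat_lit 196668) (nat_lit 14) .nil)))))))) (.g (nat_lit 4) .nil .nil))) 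
(.lf (nat_lit 201854) (.g (nat_lit 2853) (.e (nat_lit 73753) (nat_lit 8) (.e (nat_lit 557105) (nat_lit 14) (.e (nat_lit 180251) (nat_lit 10) (.e (nat_lit 573475) (nat_lit 12) (.e (nat_lit 57507) (nat_lit 39) .nil))))) .nil)))))))) (.nd (nat_lit 1) (.nd (nat_lit 2) (.nd (nat_lit 3) (.nd (nat_lit 4) (.nd (nat_lit 5) (.nd (nat_lit 6) 
(.lf (nat_lit 201729) (.g (nat_lit 2340) (.e (nat_lit 73753) (nat_lit 8) (.e (nat_lit 557101) (nat_lit 13) (.e (nat_lit 172070) (nat_lit 4) (.e (nat_lit 229663) (nat_lit 240) (.e (nat_lit 2643) (nat_lit 165) (.e (nat_lit 180268) (nat_lit 24) (.e (nat_lit 688180) (nat_lit 17) .nil))))))) (.g (nat_lit 4) .nil .nil))) 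
(.lf (nat_lit 201793) (.g (nat_lit 4132) (.e (nat_lit 73753) (nat_lit 8) (.e (nat_lit 557103) (nat_lit 14) (.e (nat_lit 180250) (nat_lit 10) (.e (nat_lit 573474) (nat_lit 12) (.e (nat_lit 57347) (nat_lit 0) (.e (nat_lit 5593) (nat_lit 310) (.e (nat_lit 163871) (nat_lit 2) (.e (nat_lit 196668) (nat_lit 14) .nil)))))))) (.g (nat_lit 5) .nil .nil)))) (.nd (nat_lit 6) 
(.lf (nat_lit 201761) (.g (nat_lit 2548) (.e (nat_lit 73753) (nat_lit 8) (.e (nat_lit 557103) (nat_lit 14) (.e (nat_lit 180244) (nat_lit 5) (.e (nat_lit 532579) (nat_lit 26) (.e (nat_lit 433920) (nat_lit 17) (.e (nat_lit 98048) (nat_lit 5) .nil)))))) (.g (nat_lit 4) .nil .nil))) 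
(.lf (nat_lit 201825) (.g (nat_lit 3178) (.e (nat_lit 73753) (nat_lit 8) (.e (nat_lit 557104) (nat_lit 14) (.e (nat_lit 180252) (nat_lit 10) (.e (nat_lit 573468) (nat_lit 10) (.e (nat_lit 8261) (nat_lit 45) (.e (nat_lit 778318) (nat_lit 3) (.e (nat_lit 57454) (nat_lit 21) (.e (nat_lit 507648) (nat_lit 19) .nil)))))))) (.g (nat_lit 4) .nil .nil))))) (.nd (nat_lit 5) (.nd (nat_lit 6) 
(.lf (nat_lit 201745) (.g (nat_lit 2108) (.e (nat_lit 73753) (nat_lit 8) (.e (nat_lit 557103) (nat_lit 14) (.e (nat_lit 180235) (nat_lit 1) (.e (nat_lit 500048) (nat_lit 16) (.e (nat_lit 24320) (nat_lit 17) (.e (nat_lit 98048) (nat_lit 5) .nil)))))) (.g (nat_lit 4) .nil .nil))) 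
(.lf (nat_lit 201809) (.g (nat_lit 2648) (.e (nat_lit 73753) (nat_lit 8) (.e (nat_lit 557103) (nat_lit 14) (.e (nat_lit 180250) (nat_lit 10) (.e (nat_lit 573475) (nat_lit 12) (.e (nat_lit 57516) (nat_lit 42) (.e (nat_lit 671748) (nat_lit 0) (.e (nat_lit 1016) (nat_lit 81) (.e (nat_lit 1691) (nat_lit 117) (.e (nat_lit 500068) (nat_lit 19) .nil))))))))) (.g (nat_lit 4) .nil .nil)))) 
(.nd (nat_lit 6) 
(.lf (nat_lit 201777) (.g (nat_lit 3812) (.e (nat_lit 73753) (nat_lit 8) (.e (nat_lit 557103) (nat_lit 14) (.e (nat_lit 180250) (nat_lit 10) (.e (nat_lit 573468) (nat_lit 10) (.e (nat_lit 8262) (nat_lit 45) (.e (nat_lit 778317) (nat_lit 3) (.e (nat_lit 57454) (nat_lit 21) (.e (nat_lit 507648) (nat_lit 19) .nil)))))))) (.g (nat_lit 6) .nil .nil))) 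
(.lf (nat_lit 201841) (.g (nat_lit 853) (.e (nat_lit 73753) (nat_lit 8) (.e (nat_lit 557105) (nat_lit 14) (.e (nat_lit 180230) (nat_lit 0) .nil))) .nil))))) (.nd (nat_lit 4) (.nd (nat_lit 5) (.nd (nat_lit 6) 
(.lf (nat_lit 201737) (.g (nat_lit 1908) (.e (nat_lit 73753) (nat_lit 8) (.e (nat_lit 557101) (nat_lit 13) (.e (nat_lit 179968) (nat_lit 20) (.e (nat_lit 114711) (nat_lit 21) (.e (nat_lit 57847) (nat_lit 252) (.e (nat_lit 57348) (nat_lit 0) (.e (nat_lit 2032) (nat_lit 140) (.e (nat_lit 688180) (nat_lit 17) .nil)))))))) (.g (nat_lit 5) .nil .nil))) 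
(.lf (nat_lit 201801) (.g (nat_lit 3196) (.e (nat_lit 73753) (nat_lit 8) (.e (nat_lit 557103) (nat_lit 14) (.e (nat_lit 180250) (nat_lit 10) (.e (nat_lit 573474) (nat_lit 12) (.e (nat_lit 57516) (nat_lit 42) (.e (nat_lit 671748) (nat_lit 0) (.e (nat_lit 1304) (nat_lit 97) (.e (nat_lit 139281) (nat_lit 5) .nil)))))))) (.g (nat_lit 5) .nil .nil)))) (.nd (nat_lit 6) 
(.lf (nat_lit 201769) (.g (nat_lit 2879) (.e (nat_lit 73753) (nat_lit 8) (.e (nat_lit 557103) (nat_lit 14) (.e (nat_lit 180250) (nat_lit 10) (.e (nat_lit 573467) (nat_lit 10) (.e (nat_lit 8262) (nat_lit 45) (.e (nat_lit 778246) (nat_lit 0) (.e (nat_lit 1239) (nat_lit 91) (.e (nat_lit 98048) (nat_lit 5) .nil)))))))) (.g (nat_lit 4) .nil .nil))) 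
(.lf (nat_lit 201833) (.g (nat_lit 3305) (.e (nat_lit 73753) (nat_lit 8) (.e (nat_lit 557104) (nat_lit 14) (.e (nat_lit 180252) (nat_lit 10) (.e (nat_lit 573474) (nat_lit 12) (.e (nat_lit 57355) (nat_lit 0) .nil))))) .nil)))) (.nd (nat_lit 5) (.nd (nat_lit 6) 
(.lf (nat_lit 201753) (.g (nat_lit 2724) (.e (nat_lit 73753) (nat_lit 8) (.e (nat_lit 557103) (nat_lit 14) (.e (nat_lit 180244) (nat_lit 5) (.e (nat_lit 532501) (nat_lit 1) (.e (nat_lit 57696) (nat_lit 158) .nil))))) .nil)) 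
(.lf (nat_lit 201817) (.g (nat_lit 2783) (.e (nat_lit 73753) (nat_lit 8) (.e (nat_lit 557103) (nat_lit 14) (.e (nat_lit 180261) (nat_lit 20) (.e (nat_lit 655364) (nat_lit 0) (.e (nat_lit 2964) (nat_lit 185) (.e (nat_lit 434209) (nat_lit 18) (.e (nat_lit 6270) (nat_lit 337) (.e (nat_lit 1207) (nat_lit 89) .nil)))))))) (.g (nat_lit 4) .nil .nil)))) (.nd (nat_lit 6) 
(.lf (nat_lit 201785) (.g (nat_lit 2759) (.e (nat_lit 73753) (nat_lit 8) (.e (nat_lit 557103) (nat_lit 14) (.e (nat_lit 180250) (nat_lit 10) (.e (nat_lit 573468) (nat_lit 10) (.e (nat_lit 8273) (nat_lit 46) (.e (nat_lit 786455) (nat_lit 17) (.e (nat_lit 98048) (nat_lit 5) .nil))))))) (.g (nat_lit 4) .nil .nil))) 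
(.lf (nat_lit 201849) (.g (nat_lit 1222) (.e (nat_lit 73753) (nat_lit 8) (.e (nat_lit 557105) (nat_lit 14) (.e (nat_lit 180245) (nat_lit 5) (.e (nat_lit 532519) (nat_lit 5) .nil)))) .nil)))))) (.nd (nat_lit 3) (.nd (nat_lit 4) (.nd (nat_lit 5) (.nd (nat_lit 6) 
(.lf (nat_lit 201733) (.g (nat_lit 2488) (.e (nat_lit 73753) (nat_lit 8) (.e (nat_lit 557101) (nat_lit 13) (.e (nat_lit 179968) (nat_lit 20) (.e (nat_lit 114710) (nat_lit 21) (.e (nat_lit 57847) (nat_lit 252) (.e (nat_lit 57368) (nat_lit 1) (.e (nat_lit 57730) (nat_lit 181) (.e (nat_lit 1209) (nat_lit 89) .nil)))))))) (.g (nat_lit 5) .nil .nil))) 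
(.lf (nat_lit 201797) (.g (nat_lit 2234) (.e (nat_lit 73753) (nat_lit 8) (.e (nat_lit 557103) (nat_lit 14) (.e (nat_lit 180250) (nat_lit 10) (.e (nat_lit 573474) (nat_lit 12) (.e (nat_lit 57516) (nat_lit 42) (.e (nat_lit 671747) (nat_lit 0) (.e (nat_lit 1239) (nat_lit 91) (.e (nat_lit 98048) (nat_lit 5) .nil)))))))) (.g (nat_lit 4) .nil .nil)))) (.nd (nat_lit 6) 
(.lf (nat_lit 201765) (.g (nat_lit 2460) (.e (nat_lit 73753) (nat_lit 8) (.e (nat_lit 557103) (nat_lit 14) (.e (nat_lit 180250) (nat_lit 10) (.e (nat_lit 573441) (nat_lit 0) (.e (nat_lit 2857) (nat_lit 184) (.e (nat_lit 426432) (nat_lit 17) (.e (nat_lit 98048) (nat_lit 5) .nil))))))) (.g (nat_lit 4) .nil .nil))) 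
(.lf (nat_lit 201829) (.g (nat_lit 3229) (.e (nat_lit 73753) (nat_lit 8) (.e (nat_lit 557104) (nat_lit 14) (.e (nat_lit 180252) (nat_lit 10) (.e (nat_lit 573473) (nat_lit 12) (.e (nat_lit 57511) (nat_lit 39) .nil))))) .nil)))) (.nd (nat_lit 5) (.nd (nat_lit 6) 
(.lf (nat_lit 201749) (.g (nat_lit 2798) (.e (nat_lit 73753) (nat_lit 8) (.e (nat_lit 557103) (nat_lit 14) (.e (nat_lit 180243) (nat_lit 5) (.e (nat_lit 532499) (nat_lit 1) (.e (nat_lit 57659) (nat_lit 152) .nil))))) .nil)) 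
(.lf (nat_lit 201813) (.g (nat_lit 2514) (.e (nat_lit 73753) (nat_lit 8) (.e (nat_lit 557103) (nat_lit 14) (.e (nat_lit 180250) (nat_lit 10) (.e (nat_lit 573475) (nat_lit 12) (.e (nat_lit 57516) (nat_lit 42) (.e (nat_lit 671751) (nat_lit 0) (.e (nat_lit 1234) (nat_lit 91) (.e (nat_lit 98048) (nat_lit 5) .nil)))))))) (.g (nat_lit 4) .nil .nil)))) (.nd (nat_lit 6) 
(.lf (nat_lit 201781) (.g (nat_lit 3327) (.e (nat_lit 73753) (nat_lit 8) (.e (nat_lit 557103) (nat_lit 14) (.e (nat_lit 180250) (nat_lit 10) (.e (nat_lit 573468) (nat_lit 10) (.e (nat_lit 8270) (nat_lit 46) (.e (nat_lit 786455) (nat_lit 17) (.e (nat_lit 98048) (nat_lit 5) .nil))))))) (.g (nat_lit 5) .nil .nil))) 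
(.lf (nat_lit 201845) (.g (nat_lit 1261) (.e (nat_lit 73753) (nat_lit 8) (.e (nat_lit 557105) (nat_lit 14) (.e (nat_lit 180240) (nat_lit 2) (.e (nat_lit 507939) (nat_lit 12) .nil)))) .nil))))) (.nd (nat_lit 4) (.nd (nat_lit 5) (.nd (nat_lit 6) 
(.lf (nat_lit 201741) (.g (nat_lit 469) (.e (nat_lit 73753) (nat_lit 8) (.e (nat_lit 557103) (nat_lit 14) (.e (nat_lit 180229) (nat_lit 0) .nil))) .nil)) 
(.lf (nat_lit 201805) (.g (nat_lit 2752) (.e (nat_lit 73753) (nat_lit 8) (.e (nat_lit 557103) (nat_lit 14) (.e (nat_lit 180250) (nat_lit 10) (.e (nat_lit 573475) (nat_lit 12) (.e (nat_lit 57360) (nat_lit 0) (.e (nat_lit 5818) (nat_lit 320) (.e (nat_lit 999) (nat_lit 81) (.e (nat_lit 1239) (nat_lit 91) (.e (nat_lit 98048) (nat_lit 5) .nil))))))))) (.g (nat_lit 4) .nil .nil)))) (.nd (nat_lit 6) 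
(.lf (nat_lit 201773) (.g (nat_lit 3035) (.e (nat_lit 73753) (nat_lit 8) (.e (nat_lit 557103) (nat_lit 14) (.e (nat_lit 180250) (nat_lit 10) (.e (nat_lit 573468) (nat_lit 10) (.e (nat_lit 8260) (nat_lit 45) (.e (nat_lit 778246) (nat_lit 0) (.e (nat_lit 1239) (nat_lit 91) (.e (nat_lit 98048) (nat_lit 5) .nil)))))))) (.g (nat_lit 4) .nil .nil))) 
(.lf (nat_lit 201837) (.g (nat_lit 3577) (.e (nat_lit 73753) (nat_lit 8) (.e (nat_lit 557104) (nat_lit 14) (.e (nat_lit 180252) (nat_lit 10) (.e (nat_lit 573475) (nat_lit 12) (.e (nat_lit 57348) (nat_lit 0) .nil))))) .nil)))) (.nd (nat_lit 5) (.nd (nat_lit 6) 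
(.lf (nat_lit 201757) (.g (nat_lit 2781) (.e (nat_lit 73753) (nat_lit 8) (.e (nat_lit 557103) (nat_lit 14) (.e (nat_lit 180244) (nat_lit 5) (.e (nat_lit 532579) (nat_lit 26) (.e (nat_lit 426024) (nat_lit 0) (.e (nat_lit 3281) (nat_lit 200) (.e (nat_lit 564992) (nat_lit 5) .nil))))))) (.g (nat_lit 6) .nil .nil))) 
(.lf (nat_lit 201821) (.g (nat_lit 716) (.e (nat_lit 73753) (nat_lit 8) (.e (nat_lit 557104) (nat_lit 14) (.e (nat_lit 180240) (nat_lit 2) .nil))) .nil))) (.nd (nat_lit 6) 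
(.lf (nat_lit 201789) (.g (nat_lit 3148) (.e (nat_lit 73753) (nat_lit 8) (.e (nat_lit 557103) (nat_lit 14) (.e (nat_lit 180250) (nat_lit 10) (.e (nat_lit 573474) (nat_lit 12) (.e (nat_lit 57344) (nat_lit 0) (.e (nat_lit 5593) (nat_lit 310) (.e (nat_lit 163871) (nat_lit 2) (.e (nat_lit 196668) (nat_lit 14) .nil)))))))) (.g (nat_lit 4) .nil .nil))) 
(.lf (nat_lit 201853) (.g (nat_lit 1864) (.e (nat_lit 73753) (nat_lit 8) (.e (nat_lit 557105) (nat_lit 14) (.e (nat_lit 180251) (nat_lit 10) (.e (nat_lit 573466) (nat_lit 10) .nil)))) .nil))))))) (.nd (nat_lit 2) (.nd (nat_lit 3) (.nd (nat_lit 4) (.nd (nat_lit 5) (.nd (nat_lit 6) 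
(.lf (nat_lit 201731) (.g (nat_lit 2203) (.e (nat_lit 73753) (nat_lit 8) (.e (nat_lit 557101) (nat_lit 13) (.e (nat_lit 179968) (nat_lit 20) (.e (nat_lit 114710) (nat_lit 21) (.e (nat_lit 57847) (nat_lit 252) (.e (nat_lit 57348) (nat_lit 0) (.e (nat_lit 2032) (nat_lit 140) (.e (nat_lit 688180) (nat_lit 17) .nil)))))))) (.g (nat_lit 5) .nil .nil))) 
(.lf (nat_lit 201795) (.g (nat_lit 1726) (.e (nat_lit 73753) (nat_lit 8) (.e (nat_lit 557103) (nat_lit 14) (.e (nat_lit 180250) (nat_lit 10) (.e (nat_lit 573474) (nat_lit 12) (.e (nat_lit 57516) (nat_lit 42) .nil))))) .nil))) (.nd (nat_lit 6) 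
(.lf (nat_lit 201763) (.g (nat_lit 2848) (.e (nat_lit 73753) (nat_lit 8) (.e (nat_lit 557103) (nat_lit 14) (.e (nat_lit 180250) (nat_lit 10) (.e (nat_lit 573441) (nat_lit 0) (.e (nat_lit 2856) (nat_lit 184) (.e (nat_lit 426427) (nat_lit 17) (.e (nat_lit 98048) (nat_lit 5) .nil))))))) (.g (nat_lit 5) .nil .nil))) 
(.lf (nat_lit 201827) (.g (nat_lit 3304) (.e (nat_lit 73753) (nat_lit 8) (.e (nat_lit 557104) (nat_lit 14) (.e (nat_lit 180252) (nat_lit 10) (.e (nat_lit 573468) (nat_lit 10) (.e (nat_lit 8262) (nat_lit 45) (.e (nat_lit 778318) (nat_lit 3) (.e (nat_lit 57454) (nat_lit 21) (.e (nat_lit 507648) (nat_lit 19) .nil)))))))) (.g (nat_lit 4) .nil .nil))))) (.nd (nat_lit 5) (.nd (nat_lit 6) 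
(.lf (nat_lit 201747) (.g (nat_lit 734) (.e (nat_lit 73753) (nat_lit 8) (.e (nat_lit 557103) (nat_lit 14) (.e (nat_lit 180239) (nat_lit 1) .nil))) .nil)) 
(.lf (nat_lit 201811) (.g (nat_lit 2368) (.e (nat_lit 73753) (nat_lit 8) (.e (nat_lit 557103) (nat_lit 14) (.e (nat_lit 180250) (nat_lit 10) (.e (nat_lit 573475) (nat_lit 12) (.e (nat_lit 57516) (nat_lit 42) (.e (nat_lit 671748) (nat_lit 0) (.e (nat_lit 1239) (nat_lit 91) (.e (nat_lit 98048) (nat_lit 5) .nil)))))))) (.g (nat_lit 4) .nil .nil)))) (.nd (nat_lit 6) 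
(.lf (nat_lit 201779) (.g (nat_lit 2859) (.e (nat_lit 73753) (nat_lit 8) (.e (nat_lit 557103) (nat_lit 14) (.e (nat_lit 180250) (nat_lit 10) (.e (nat_lit 573468) (nat_lit 10) (.e (nat_lit 8268) (nat_lit 45) (.e (nat_lit 778240) (nat_lit 0) (.e (nat_lit 1239) (nat_lit 91) (.e (nat_lit 98048) (nat_lit 5) .nil)))))))) (.g (nat_lit 4) .nil .nil))) 
(.lf (nat_lit 201843) (.g (nat_lit 814) (.e (nat_lit 73753) (nat_lit 8) (.e (nat_lit 557105) (nat_lit 14) (.e (nat_lit 180233) (nat_lit 0) .nil))) .nil))))) (.nd (nat_lit 4) (.nd (nat_lit 5) (.nd (nat_lit 6) 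
(.lf (nat_lit 201739) (.g (nat_lit 2608) (.e (nat_lit 73753) (nat_lit 8) (.e (nat_lit 557101) (nat_lit 13) (.e (nat_lit 179968) (nat_lit 20) (.e (nat_lit 114712) (nat_lit 21) (.e (nat_lit 57851) (nat_lit 252) (.e (nat_lit 57347) (nat_lit 0) (.e (nat_lit 2032) (nat_lit 140) (.e (nat_lit 688180) (nat_lit 17) .nil)))))))) (.g (nat_lit 6) .nil .nil))) 
(.lf (nat_lit 201803) (.g (nat_lit 2192) (.e (nat_lit 73753) (nat_lit 8) (.e (nat_lit 557103) (nat_lit 14) (.e (nat_lit 180250) (nat_lit 10) (.e (nat_lit 573474) (nat_lit 12) (.e (nat_lit 57516) (nat_lit 42) (.e (nat_lit 671757) (nat_lit 3) (.e (nat_lit 57452) (nat_lit 21) (.e (nat_lit 500069) (nat_lit 19) .nil)))))))) (.g (nat_lit 4) .nil .nil)))) (.nd (nat_lit 6) 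
(.lf (nat_lit 201771) (.g (nat_lit 2452) (.e (nat_lit 73753) (nat_lit 8) (.e (nat_lit 557103) (nat_lit 14) (.e (nat_lit 180250) (nat_lit 10) (.e (nat_lit 573467) (nat_lit 10) (.e (nat_lit 8274) (nat_lit 46) (.e (nat_lit 786455) (nat_lit 17) (.e (nat_lit 98048) (nat_lit 5) .nil))))))) (.g (nat_lit 4) .nil .nil))) 
(.lf (nat_lit 201835) (.g (nat_lit 3120) (.e (nat_lit 73753) (nat_lit 8) (.e (nat_lit 557104) (nat_lit 14) (.e (nat_lit 180252) (nat_lit 10) (.e (nat_lit 573474) (nat_lit 12) (.e (nat_lit 57511) (nat_lit 39) .nil))))) .nil)))) (.nd (nat_lit 5) (.nd (nat_lit 6) 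
(.lf (nat_lit 201755) (.g (nat_lit 2275) (.e (nat_lit 73753) (nat_lit 8) (.e (nat_lit 557103) (nat_lit 14) (.e (nat_lit 180244) (nat_lit 5) (.e (nat_lit 532519) (nat_lit 5) (.e (nat_lit 147462) (nat_lit 0) (.e (nat_lit 1235) (nat_lit 91) (.e (nat_lit 98048) (nat_lit 5) .nil))))))) (.g (nat_lit 4) .nil .nil))) 
(.lf (nat_lit 201819) (.g (nat_lit 3644) (.e (nat_lit 73753) (nat_lit 8) (.e (nat_lit 557103) (nat_lit 14) (.e (nat_lit 180261) (nat_lit 20) (.e (nat_lit 655364) (nat_lit 0) (.e (nat_lit 2964) (nat_lit 185) (.e (nat_lit 434209) (nat_lit 18) (.e (nat_lit 6277) (nat_lit 337) (.e (nat_lit 1214) (nat_lit 89) .nil)))))))) (.g (nat_lit 6) .nil .nil)))) (.nd (nat_lit 6) 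
(.lf (nat_lit 201787) (.g (nat_lit 3175) (.e (nat_lit 73753) (nat_lit 8) (.e (nat_lit 557103) (nat_lit 14) (.e (nat_lit 180250) (nat_lit 10) (.e (nat_lit 573474) (nat_lit 12) (.e (nat_lit 57344) (nat_lit 0) (.e (nat_lit 5589) (nat_lit 310) (.e (nat_lit 163871) (nat_lit 2) (.e (nat_lit 196668) (nat_lit 14) .nil)))))))) (.g (nat_lit 4) .nil .nil))) 
(.lf (nat_lit 201851) (.g (nat_lit 1106) (.e (nat_lit 73753) (nat_lit 8) (.e (nat_lit 557105) (nat_lit 14) (.e (nat_lit 180248) (nat_lit 9) (.e (nat_lit 565252) (nat_lit 0) .nil)))) .nil)))))) (.nd (nat_lit 3) (.nd (nat_lit 4) (.nd (nat_lit 5) (.nd (nat_lit 6) 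
(.lf (nat_lit 201735) (.g (nat_lit 2913) (.e (nat_lit 73753) (nat_lit 8) (.e (nat_lit 557101) (nat_lit 13) (.e (nat_lit 179968) (nat_lit 20) (.e (nat_lit 114710) (nat_lit 21) (.e (nat_lit 57851) (nat_lit 252) (.e (nat_lit 57347) (nat_lit 0) (.e (nat_lit 2031) (nat_lit 140) (.e (nat_lit 688180) (nat_lit 17) .nil)))))))) (.g (nat_lit 6) .nil .nil))) 
(.lf (nat_lit 201799) (.g (nat_lit 2554) (.e (nat_lit 73753) (nat_lit 8) (.e (nat_lit 557103) (nat_lit 14) (.e (nat_lit 180250) (nat_lit 10) (.e (nat_lit 573474) (nat_lit 12) (.e (nat_lit 57516) (nat_lit 42) (.e (nat_lit 671748) (nat_lit 0) (.e (nat_lit 1302) (nat_lit 97) (.e (nat_lit 139281) (nat_lit 5) .nil)))))))) (.g (nat_lit 4) .nil .nil)))) (.nd (nat_lit 6) 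
(.lf (nat_lit 201767) (.g (nat_lit 1698) (.e (nat_lit 73753) (nat_lit 8) (.e (nat_lit 557103) (nat_lit 14) (.e (nat_lit 180250) (nat_lit 10) (.e (nat_lit 573452) (nat_lit 9) (.e (nat_lit 208) (nat_lit 18) .nil))))) .nil)) 
(.lf (nat_lit 201831) (.g (nat_lit 2913) (.e (nat_lit 73753) (nat_lit 8) (.e (nat_lit 557104) (nat_lit 14) (.e (nat_lit 180252) (nat_lit 10) (.e (nat_lit 573474) (nat_lit 12) (.e (nat_lit 57345) (nat_lit 0) .nil))))) .nil)))) (.nd (nat_lit 5) (.nd (nat_lit 6) 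
(.lf (nat_lit 201751) (.g (nat_lit 3114) (.e (nat_lit 73753) (nat_lit 8) (.e (nat_lit 557103) (nat_lit 14) (.e (nat_lit 180243) (nat_lit 5) (.e (nat_lit 532501) (nat_lit 1) (.e (nat_lit 57696) (nat_lit 158) (.e (nat_lit 1041) (nat_lit 81) (.e (nat_lit 1234) (nat_lit 91) (.e (nat_lit 98048) (nat_lit 5) .nil)))))))) (.g (nat_lit 4) .nil .nil))) 
(.lf (nat_lit 201815) (.g (nat_lit 2927) (.e (nat_lit 73753) (nat_lit 8) (.e (nat_lit 557103) (nat_lit 14) (.e (nat_lit 180250) (nat_lit 10) (.e (nat_lit 573477) (nat_lit 12) (.e (nat_lit 57361) (nat_lit 0) (.e (nat_lit 5949) (nat_lit 322) (.e (nat_lit 57373) (nat_lit 2) (.e (nat_lit 98048) (nat_lit 5) .nil)))))))) (.g (nat_lit 4) .nil .nil)))) (.nd (nat_lit 6) 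
(.lf (nat_lit 201783) (.g (nat_lit 2536) (.e (nat_lit 73753) (nat_lit 8) (.e (nat_lit 557103) (nat_lit 14) (.e (nat_lit 180250) (nat_lit 10) (.e (nat_lit 573468) (nat_lit 10) (.e (nat_lit 8272) (nat_lit 46) (.e (nat_lit 786454) (nat_lit 17) (.e (nat_lit 98048) (nat_lit 5) .nil))))))) (.g (nat_lit 4) .nil .nil))) 
(.lf (nat_lit 201847) (.g (nat_lit 556) (.e (nat_lit 73753) (nat_lit 8) (.e (nat_lit 557105) (nat_lit 14) (.e (nat_lit 180245) (nat_lit 5) .nil))) .nil))))) (.nd (nat_lit 4) (.nd (nat_lit 5) (.nd (nat_lit 6) 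
(.lf (nat_lit 201743) (.g (nat_lit 3002) (.e (nat_lit 73753) (nat_lit 8) (.e (nat_lit 557103) (nat_lit 14) (.e (nat_lit 180229) (nat_lit 0) (.e (nat_lit 5548) (nat_lit 306) (.e (nat_lit 2640) (nat_lit 165) (.e (nat_lit 180227) (nat_lit 0) (.e (nat_lit 6254) (nat_lit 337) (.e (nat_lit 7936) (nat_lit 89) .nil)))))))) (.g (nat_lit 5) .nil .nil))) 
(.lf (nat_lit 201807) (.g (nat_lit 3125) (.e (nat_lit 73753) (nat_lit 8) (.e (nat_lit 557103) (nat_lit 14) (.e (nat_lit 180250) (nat_lit 10) (.e (nat_lit 573475) (nat_lit 12) (.e (nat_lit 57507) (nat_lit 39) (.e (nat_lit 647203) (nat_lit 14) (.e (nat_lit 1139) (nat_lit 84) (.e (nat_lit 32788) (nat_lit 10) .nil)))))))) (.g (nat_lit 4) .nil .nil)))) (.nd (nat_lit 6) 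
(.lf (nat_lit 201775) (.g (nat_lit 2949) (.e (nat_lit 73753) (nat_lit 8) (.e (nat_lit 557103) (nat_lit 14) (.e (nat_lit 180250) (nat_lit 10) (.e (nat_lit 573468) (nat_lit 10) (.e (nat_lit 8261) (nat_lit 45) (.e (nat_lit 778246) (nat_lit 0) (.e (nat_lit 1239) (nat_lit 91) (.e (nat_lit 98048) (nat_lit 5) .nil)))))))) (.g (nat_lit 4) .nil .nil))) 
(.lf (nat_lit 201839) (.g (nat_lit 3436) (.e (nat_lit 73753) (nat_lit 8) (.e (nat_lit 557104) (nat_lit 14) (.e (nat_lit 180252) (nat_lit 10) (.e (nat_lit 573475) (nat_lit 12) (.e (nat_lit 57508) (nat_lit 39) .nil))))) .nil)))) (.nd (nat_lit 5) (.nd (nat_lit 6) 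
(.lf (nat_lit 201759) (.g (nat_lit 2460) (.e (nat_lit 73753) (nat_lit 8) (.e (nat_lit 557103) (nat_lit 14) (.e (nat_lit 180244) (nat_lit 5) (.e (nat_lit 532579) (nat_lit 26) (.e (nat_lit 426107) (nat_lit 1) (.e (nat_lit 164116) (nat_lit 122) (.e (nat_lit 7936) (nat_lit 89) .nil))))))) (.g (nat_lit 5) .nil .nil))) 
(.lf (nat_lit 201823) (.g (nat_lit 2091) (.e (nat_lit 73753) (nat_lit 8) (.e (nat_lit 557104) (nat_lit 14) (.e (nat_lit 180252) (nat_lit 10) (.e (nat_lit 573468) (nat_lit 10) .nil)))) .nil))) (.nd (nat_lit 6) 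
(.lf (nat_lit 201791) (.g (nat_lit 4092) (.e (nat_lit 73753) (nat_lit 8) (.e (nat_lit 557103) (nat_lit 14) (.e (nat_lit 180250) (nat_lit 10) (.e (nat_lit 573474) (nat_lit 12) (.e (nat_lit 57347) (nat_lit 0) (.e (nat_lit 5590) (nat_lit 310) (.e (nat_lit 163871) (nat_lit 2) (.e (nat_lit 196668) (nat_lit 14) .nil)))))))) (.g (nat_lit 5) .nil .nil))) 
(.lf (nat_lit 201855) (.g (nat_lit 3782) (.e (nat_lit 73753) (nat_lit 8) (.e (nat_lit 557105) (nat_lit 14) (.e (nat_lit 180251) (nat_lit 10) (.e (nat_lit 573478) (nat_lit 12) (.e (nat_lit 57360) (nat_lit 0) (.e (nat_lit 5949) (nat_lit 322) (.e (nat_lit 57373) (nat_lit 2) (.e (nat_lit 98048) (nat_lit 5) .nil)))))))) (.g (nat_lit 7) .nil .nil))))))))))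

noncomputable def tv2664 : DT := (.nd (nat_lit 0) (.nd (nat_lit 1) (.nd (nat_lit 2) (.nd (nat_lit 3) (.nd (nat_lit 4) (.nd (nat_lit 5) 
(.lf (nat_lit 201856) (.g (nat_lit 1624) (.e (nat_lit 73753) (nat_lit 8) (.e (nat_lit 557105) (nat_lit 14) (.e (nat_lit 180252) (nat_lit 10) (.e (nat_lit 573441) (nat_lit 0) .nil)))) .nil)) 
(.lf (nat_lit 201888) (.g (nat_lit 4276) (.e (nat_lit 73753) (nat_lit 8) (.e (nat_lit 557105) (nat_lit 14) (.e (nat_lit 180252) (nat_lit 10) (.e (nat_lit 573467) (nat_lit 10) (.e (nat_lit 8261) (nat_lit 45) (.e (nat_lit 778318) (nat_lit 3) (.e (nat_lit 57454) (nat_lit 21) (.e (nat_lit 507648) (nat_lit 19) .nil)))))))) (.g (nat_lit 6) .nil .nil)))) (.nd (nat_lit 5) 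
(.lf (nat_lit 201872) (.g (nat_lit 3839) (.e (nat_lit 73753) (nat_lit 8) (.e (nat_lit 557105) (nat_lit 14) (.e (nat_lit 180252) (nat_lit 10) (.e (nat_lit 573451) (nat_lit 9) (.e (nat_lit 208) (nat_lit 18) (.e (nat_lit 270080) (nat_lit 0) (.e (nat_lit 1239) (nat_lit 91) (.e (nat_lit 98048) (nat_lit 5) .nil)))))))) (.g (nat_lit 5) .nil .nil))) 
(.lf (nat_lit 201904) (.g (nat_lit 3234) (.e (nat_lit 73753) (nat_lit 8) (.e (nat_lit 557105) (nat_lit 14) (.e (nat_lit 180252) (nat_lit 10) (.e (nat_lit 573468) (nat_lit 10) (.e (nat_lit 8272) (nat_lit 46) (.e (nat_lit 786455) (nat_lit 17) (.e (nat_lit 98048) (nat_lit 5) .nil))))))) (.g (nat_lit 4) .nil .nil))))) (.nd (nat_lit 4) (.nd (nat_lit 5) 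
(.lf (nat_lit 201864) (.g (nat_lit 1176) (.e (nat_lit 73753) (nat_lit 8) (.e (nat_lit 557105) (nat_lit 14) (.e (nat_lit 180252) (nat_lit 10) (.e (nat_lit 581376) (nat_lit 5) .nil)))) .nil)) 
(.lf (nat_lit 201896) (.g (nat_lit 3374) (.e (nat_lit 73753) (nat_lit 8) (.e (nat_lit 557105) (nat_lit 14) (.e (nat_lit 180252) (nat_lit 10) (.e (nat_lit 573468) (nat_lit 10) (.e (nat_lit 8260) (nat_lit 45) (.e (nat_lit 778246) (nat_lit 0) (.e (nat_lit 1239) (nat_lit 91) (.e (nat_lit 98048) (nat_lit 5) .nil)))))))) (.g (nat_lit 4) .nil .nil)))) (.nd (nat_lit 5) 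
(.lf (nat_lit 201880) (.g (nat_lit 2654) (.e (nat_lit 73753) (nat_lit 8) (.e (nat_lit 557105) (nat_lit 14) (.e (nat_lit 180252) (nat_lit 10) (.e (nat_lit 573453) (nat_lit 9) .nil)))) .nil)) 
(.lf (nat_lit 201912) (.g (nat_lit 2170) (.e (nat_lit 73753) (nat_lit 8) (.e (nat_lit 557105) (nat_lit 14) (.e (nat_lit 180252) (nat_lit 10) (.e (nat_lit 573473) (nat_lit 12) (.e (nat_lit 57516) (nat_lit 42) .nil))))) .nil))))) (.nd (nat_lit 3) (.nd (nat_lit 4) (.nd (nat_lit 5) 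
(.lf (nat_lit 201860) (.g (nat_lit 2334) (.e (nat_lit 73753) (nat_lit 8) (.e (nat_lit 557105) (nat_lit 14) (.e (nat_lit 180252) (nat_lit 10) (.e (nat_lit 573441) (nat_lit 0) (.e (nat_lit 3065) (nat_lit 190) (.e (nat_lit 475169) (nat_lit 22) (.e (nat_lit 507648) (nat_lit 19) .nil))))))) (.g (nat_lit 4) .nil .nil))) 
(.lf (nat_lit 201892) (.g (nat_lit 3246) (.e (nat_lit 73753) (nat_lit 8) (.e (nat_lit 557105) (nat_lit 14) (.e (nat_lit 180252) (nat_lit 10) (.e (nat_lit 573467) (nat_lit 10) (.e (nat_lit 8274) (nat_lit 46) (.e (nat_lit 786455) (nat_lit 17) (.e (nat_lit 98048) (nat_lit 5) .nil))))))) (.g (nat_lit 4) .nil .nil)))) (.nd (nat_lit 5) 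
(.lf (nat_lit 201876) (.g (nat_lit 2845) (.e (nat_lit 73753) (nat_lit 8) (.e (nat_lit 557105) (nat_lit 14) (.e (nat_lit 180252) (nat_lit 10) (.e (nat_lit 573451) (nat_lit 9) (.e (nat_lit 7936) (nat_lit 87) (.e (nat_lit 57927) (nat_lit 282) (.e (nat_lit 163869) (nat_lit 2) (.e (nat_lit 196670) (nat_lit 14) .nil)))))))) (.g (nat_lit 4) .nil .nil))) 
(.lf (nat_lit 201908) (.g (nat_lit 3039) (.e (nat_lit 73753) (nat_lit 8) (.e (nat_lit 557105) (nat_lit 14) (.e (nat_lit 180252) (nat_lit 10) (.e (nat_lit 573473) (nat_lit 12) (.e (nat_lit 57353) (nat_lit 0) (.e (nat_lit 5584) (nat_lit 310) (.e (nat_lit 163867) (nat_lit 2) (.e (nat_lit 196670) (nat_lit 14) .nil)))))))) (.g (nat_lit 4) .nil .nil))))) (.nd (nat_lit 4) (.nd (nat_lit 5) 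
(.lf (nat_lit 201868) (.g (nat_lit 3023) (.e (nat_lit 73753) (nat_lit 8) (.e (nat_lit 557105) (nat_lit 14) (.e (nat_lit 180252) (nat_lit 10) (.e (nat_lit 573451) (nat_lit 9) (.e (nat_lit 52) (nat_lit 0) .nil))))) .nil)) 
(.lf (nat_lit 201900) (.g (nat_lit 3853) (.e (nat_lit 73753) (nat_lit 8) (.e (nat_lit 557105) (nat_lit 14) (.e (nat_lit 180252) (nat_lit 10) (.e (nat_lit 573468) (nat_lit 10) (.e (nat_lit 8262) (nat_lit 45) (.e (nat_lit 778317) (nat_lit 3) (.e (nat_lit 57454) (nat_lit 21) (.e (nat_lit 507648) (nat_lit 19) .nil)))))))) (.g (nat_lit 5) .nil .nil)))) (.nd (nat_lit 5) 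
(.lf (nat_lit 201884) (.g (nat_lit 2656) (.e (nat_lit 73753) (nat_lit 8) (.e (nat_lit 557105) (nat_lit 14) (.e (nat_lit 180252) (nat_lit 10) (.e (nat_lit 573466) (nat_lit 10) .nil)))) .nil)) 
(.lf (nat_lit 201916) (.g (nat_lit 3129) (.e (nat_lit 73753) (nat_lit 8) (.e (nat_lit 557105) (nat_lit 14) (.e (nat_lit 180252) (nat_lit 10) (.e (nat_lit 573474) (nat_lit 12) (.e (nat_lit 57349) (nat_lit 0) .nil))))) .nil)))))) (.nd (nat_lit 2) (.nd (nat_lit 3) (.nd (nat_lit 4) (.nd (nat_lit 5) 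
(.lf (nat_lit 201858) (.g (nat_lit 2486) (.e (nat_lit 73753) (nat_lit 8) (.e (nat_lit 557105) (nat_lit 14) (.e (nat_lit 180252) (nat_lit 10) (.e (nat_lit 573441) (nat_lit 0) (.e (nat_lit 2857) (nat_lit 184) (.e (nat_lit 426428) (nat_lit 17) (.e (nat_lit 98048) (nat_lit 5) .nil))))))) (.g (nat_lit 4) .nil .nil))) 
(.lf (nat_lit 201890) (.g (nat_lit 3664) (.e (nat_lit 73753) (nat_lit 8) (.e (nat_lit 557105) (nat_lit 14) (.e (nat_lit 180252) (nat_lit 10) (.e (nat_lit 573467) (nat_lit 10) (.e (nat_lit 8262) (nat_lit 45) (.e (nat_lit 778317) (nat_lit 3) (.e (nat_lit 57454) (nat_lit 21) (.e (nat_lit 507648) (nat_lit 19) .nil)))))))) (.g (nat_lit 5) .nil .nil)))) (.nd (nat_lit 5) 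
(.lf (nat_lit 201874) (.g (nat_lit 2920) (.e (nat_lit 73753) (nat_lit 8) (.e (nat_lit 557105) (nat_lit 14) (.e (nat_lit 180252) (nat_lit 10) (.e (nat_lit 573451) (nat_lit 9) (.e (nat_lit 1175) (nat_lit 87) (.e (nat_lit 57929) (nat_lit 282) (.e (nat_lit 163869) (nat_lit 2) (.e (nat_lit 196670) (nat_lit 14) .nil)))))))) (.g (nat_lit 4) .nil .nil))) 
(.lf (nat_lit 201906) (.g (nat_lit 3321) (.e (nat_lit 73753) (nat_lit 8) (.e (nat_lit 557105) (nat_lit 14) (.e (nat_lit 180252) (nat_lit 10) (.e (nat_lit 573468) (nat_lit 10) (.e (nat_lit 8274) (nat_lit 46) (.e (nat_lit 786455) (nat_lit 17) (.e (nat_lit 98048) (nat_lit 5) .nil))))))) (.g (nat_lit 4) .nil .nil))))) (.nd (nat_lit 4) (.nd (nat_lit 5) 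
(.lf (nat_lit 201866) (.g (nat_lit 2532) (.e (nat_lit 73753) (nat_lit 8) (.e (nat_lit 557105) (nat_lit 14) (.e (nat_lit 180252) (nat_lit 10) (.e (nat_lit 573449) (nat_lit 9) (.e (nat_lit 208) (nat_lit 18) .nil))))) .nil)) 
(.lf (nat_lit 201898) (.g (nat_lit 3149) (.e (nat_lit 73753) (nat_lit 8) (.e (nat_lit 557105) (nat_lit 14) (.e (nat_lit 180252) (nat_lit 10) (.e (nat_lit 573468) (nat_lit 10) (.e (nat_lit 8261) (nat_lit 45) .nil))))) .nil))) (.nd (nat_lit 5) 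
(.lf (nat_lit 201882) (.g (nat_lit 2083) (.e (nat_lit 73753) (nat_lit 8) (.e (nat_lit 557105) (nat_lit 14) (.e (nat_lit 180252) (nat_lit 10) (.e (nat_lit 573457) (nat_lit 9) .nil)))) .nil)) 
(.lf (nat_lit 201914) (.g (nat_lit 3193) (.e (nat_lit 73753) (nat_lit 8) (.e (nat_lit 557105) (nat_lit 14) (.e (nat_lit 180252) (nat_lit 10) (.e (nat_lit 573474) (nat_lit 12) (.e (nat_lit 57344) (nat_lit 0) (.e (nat_lit 5592) (nat_lit 310) (.e (nat_lit 163869) (nat_lit 2) (.e (nat_lit 196670) (nat_lit 14) .nil)))))))) (.g (nat_lit 4) .nil .nil)))))) 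
(.nd (nat_lit 3) (.nd (nat_lit 4) (.nd (nat_lit 5) 
(.lf (nat_lit 201862) (.g (nat_lit 1939) (.e (nat_lit 73753) (nat_lit 8) (.e (nat_lit 557105) (nat_lit 14) (.e (nat_lit 180252) (nat_lit 10) (.e (nat_lit 573442) (nat_lit 0) .nil)))) .nil)) 
(.lf (nat_lit 201894) (.g (nat_lit 3392) (.e (nat_lit 73753) (nat_lit 8) (.e (nat_lit 557105) (nat_lit 14) (.e (nat_lit 180252) (nat_lit 10) (.e (nat_lit 573468) (nat_lit 10) (.e (nat_lit 8259) (nat_lit 45) (.e (nat_lit 778246) (nat_lit 0) (.e (nat_lit 1239) (nat_lit 91) (.e (nat_lit 98048) (nat_lit 5) .nil)))))))) (.g (nat_lit 4) .nil .nil)))) (.nd (nat_lit 5) 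
(.lf (nat_lit 201878) (.g (nat_lit 3192) (.e (nat_lit 73753) (nat_lit 8) (.e (nat_lit 557105) (nat_lit 14) (.e (nat_lit 180252) (nat_lit 10) (.e (nat_lit 573451) (nat_lit 9) (.e (nat_lit 1286) (nat_lit 95) (.e (nat_lit 123198) (nat_lit 266) (.e (nat_lit 57373) (nat_lit 2) (.e (nat_lit 98048) (nat_lit 5) .nil)))))))) (.g (nat_lit 4) .nil .nil))) 
(.lf (nat_lit 201910) (.g (nat_lit 2830) (.e (nat_lit 73753) (nat_lit 8) (.e (nat_lit 557105) (nat_lit 14) (.e (nat_lit 180252) (nat_lit 10) (.e (nat_lit 573473) (nat_lit 12) (.e (nat_lit 57508) (nat_lit 39) (.e (nat_lit 647203) (nat_lit 14) (.e (nat_lit 1139) (nat_lit 84) (.e (nat_lit 32788) (nat_lit 10) .nil)))))))) (.g (nat_lit 4) .nil .nil))))) (.nd (nat_lit 4) (.nd (nat_lit 5) 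
(.lf (nat_lit 201870) (.g (nat_lit 3366) (.e (nat_lit 73753) (nat_lit 8) (.e (nat_lit 557105) (nat_lit 14) (.e (nat_lit 180252) (nat_lit 10) (.e (nat_lit 573451) (nat_lit 9) (.e (nat_lit 52) (nat_lit 0) (.e (nat_lit 3632) (nat_lit 227) (.e (nat_lit 778318) (nat_lit 3) (.e (nat_lit 57454) (nat_lit 21) (.e (nat_lit 507648) (nat_lit 19) .nil))))))))) (.g (nat_lit 4) .nil .nil))) 
(.lf (nat_lit 201902) (.g (nat_lit 3326) (.e (nat_lit 73753) (nat_lit 8) (.e (nat_lit 557105) (nat_lit 14) (.e (nat_lit 180252) (nat_lit 10) (.e (nat_lit 573468) (nat_lit 10) (.e (nat_lit 8268) (nat_lit 45) (.e (nat_lit 786176) (nat_lit 0) (.e (nat_lit 1239) (nat_lit 91) (.e (nat_lit 98048) (nat_lit 5) .nil)))))))) (.g (nat_lit 4) .nil .nil)))) (.nd (nat_lit 5) 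
(.lf (nat_lit 201886) (.g (nat_lit 3132) (.e (nat_lit 73753) (nat_lit 8) (.e (nat_lit 557105) (nat_lit 14) (.e (nat_lit 180252) (nat_lit 10) (.e (nat_lit 573467) (nat_lit 10) (.e (nat_lit 8259) (nat_lit 45) (.e (nat_lit 778318) (nat_lit 3) (.e (nat_lit 57454) (nat_lit 21) (.e (nat_lit 507648) (nat_lit 19) .nil)))))))) (.g (nat_lit 4) .nil .nil))) 
(.lf (nat_lit 201918) (.g (nat_lit 3252) (.e (nat_lit 73753) (nat_lit 8) (.e (nat_lit 557105) (nat_lit 14) (.e (nat_lit 180252) (nat_lit 10) (.e (nat_lit 573474) (nat_lit 12) (.e (nat_lit 57349) (nat_lit 0) (.e (nat_lit 5591) (nat_lit 310) (.e (nat_lit 163867) (nat_lit 2) (.e (nat_lit 196670) (nat_lit 14) .nil)))))))) (.g (nat_lit 4) .nil .nil)))))))) 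
(.nd (nat_lit 1) (.nd (nat_lit 2) (.nd (nat_lit 3) (.nd (nat_lit 4) (.nd (nat_lit 5) 
(.lf (nat_lit 201857) (.g (nat_lit 2970) (.e (nat_lit 73753) (nat_lit 8) (.e (nat_lit 557105) (nat_lit 14) (.e (nat_lit 180252) (nat_lit 10) (.e (nat_lit 573441) (nat_lit 0) (.e (nat_lit 2856) (nat_lit 184) (.e (nat_lit 426432) (nat_lit 17) (.e (nat_lit 98048) (nat_lit 5) .nil))))))) (.g (nat_lit 5) .nil .nil))) 
(.lf (nat_lit 201889) (.g (nat_lit 3415) (.e (nat_lit 73753) (nat_lit 8) (.e (nat_lit 557105) (nat_lit 14) (.e (nat_lit 180252) (nat_lit 10) (.e (nat_lit 573467) (nat_lit 10) (.e (nat_lit 8262) (nat_lit 45) (.e (nat_lit 778246) (nat_lit 0) (.e (nat_lit 1239) (nat_lit 91) (.e (nat_lit 98048) (nat_lit 5) .nil)))))))) (.g (nat_lit 5) .nil .nil)))) (.nd (nat_lit 5) 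
(.lf (nat_lit 201873) (.g (nat_lit 3462) (.e (nat_lit 73753) (nat_lit 8) (.e (nat_lit 557105) (nat_lit 14) (.e (nat_lit 180252) (nat_lit 10) (.e (nat_lit 573451) (nat_lit 9) (.e (nat_lit 1173) (nat_lit 87) (.e (nat_lit 57931) (nat_lit 282) (.e (nat_lit 163867) (nat_lit 2) (.e (nat_lit 196670) (nat_lit 14) .nil)))))))) (.g (nat_lit 4) .nil .nil))) 
(.lf (nat_lit 201905) (.g (nat_lit 3099) (.e (nat_lit 73753) (nat_lit 8) (.e (nat_lit 557105) (nat_lit 14) (.e (nat_lit 180252) (nat_lit 10) (.e (nat_lit 573468) (nat_lit 10) (.e (nat_lit 8273) (nat_lit 46) (.e (nat_lit 786455) (nat_lit 17) (.e (nat_lit 98048) (nat_lit 5) .nil))))))) (.g (nat_lit 4) .nil .nil))))) (.nd (nat_lit 4) (.nd (nat_lit 5) 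
(.lf (nat_lit 201865) (.g (nat_lit 2666) (.e (nat_lit 73753) (nat_lit 8) (.e (nat_lit 557105) (nat_lit 14) (.e (nat_lit 180252) (nat_lit 10) (.e (nat_lit 573448) (nat_lit 9) .nil)))) .nil)) 
(.lf (nat_lit 201897) (.g (nat_lit 4042) (.e (nat_lit 73753) (nat_lit 8) (.e (nat_lit 557105) (nat_lit 14) (.e (nat_lit 180252) (nat_lit 10) (.e (nat_lit 573468) (nat_lit 10) (.e (nat_lit 8260) (nat_lit 45) (.e (nat_lit 778318) (nat_lit 3) (.e (nat_lit 57454) (nat_lit 21) (.e (nat_lit 507648) (nat_lit 19) .nil)))))))) (.g (nat_lit 6) .nil .nil)))) (.nd (nat_lit 5) 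
(.lf (nat_lit 201881) (.g (nat_lit 2702) (.e (nat_lit 73753) (nat_lit 8) (.e (nat_lit 557105) (nat_lit 14) (.e (nat_lit 180252) (nat_lit 10) (.e (nat_lit 573454) (nat_lit 9) .nil)))) .nil)) 
(.lf (nat_lit 201913) (.g (nat_lit 2885) (.e (nat_lit 73753) (nat_lit 8) (.e (nat_lit 557105) (nat_lit 14) (.e (nat_lit 180252) (nat_lit 10) (.e (nat_lit 573474) (nat_lit 12) (.e (nat_lit 57344) (nat_lit 0) .nil))))) .nil))))) (.nd (nat_lit 3) (.nd (nat_lit 4) (.nd (nat_lit 5) 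
(.lf (nat_lit 201861) (.g (nat_lit 1905) (.e (nat_lit 73753) (nat_lit 8) (.e (nat_lit 557105) (nat_lit 14) (.e (nat_lit 180252) (nat_lit 10) (.e (nat_lit 573441) (nat_lit 0) (.e (nat_lit 3066) (nat_lit 190) .nil))))) .nil)) 
(.lf (nat_lit 201893) (.g (nat_lit 2166) (.e (nat_lit 73753) (nat_lit 8) (.e (nat_lit 557105) (nat_lit 14) (.e (nat_lit 180252) (nat_lit 10) (.e (nat_lit 573468) (nat_lit 10) .nil)))) .nil))) (.nd (nat_lit 5) 
(.lf (nat_lit 201877) (.g (nat_lit 2982) (.e (nat_lit 73753) (nat_lit 8) (.e (nat_lit 557105) (nat_lit 14) (.e (nat_lit 180252) (nat_lit 10) (.e (nat_lit 573451) (nat_lit 9) (.e (nat_lit 1286) (nat_lit 95) .nil))))) .nil)) 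
(.lf (nat_lit 201909) (.g (nat_lit 1870) (.e (nat_lit 73753) (nat_lit 8) (.e (nat_lit 557105) (nat_lit 14) (.e (nat_lit 180252) (nat_lit 10) (.e (nat_lit 573473) (nat_lit 12) (.e (nat_lit 57507) (nat_lit 39) .nil))))) .nil)))) (.nd (nat_lit 4) (.nd (nat_lit 5) 
(.lf (nat_lit 201869) (.g (nat_lit 3611) (.e (nat_lit 73753) (nat_lit 8) (.e (nat_lit 557105) (nat_lit 14) (.e (nat_lit 180252) (nat_lit 10) (.e (nat_lit 573451) (nat_lit 9) (.e (nat_lit 52) (nat_lit 0) (.e (nat_lit 3632) (nat_lit 227) (.e (nat_lit 778246) (nat_lit 0) (.e (nat_lit 1239) (nat_lit 91) (.e (nat_lit 98048) (nat_lit 5) .nil))))))))) (.g (nat_lit 4) .nil .nil))) 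
(.lf (nat_lit 201901) (.g (nat_lit 3142) (.e (nat_lit 73753) (nat_lit 8) (.e (nat_lit 557105) (nat_lit 14) (.e (nat_lit 180252) (nat_lit 10) (.e (nat_lit 573468) (nat_lit 10) (.e (nat_lit 8268) (nat_lit 45) .nil))))) .nil))) (.nd (nat_lit 5) 
(.lf (nat_lit 201885) (.g (nat_lit 2193) (.e (nat_lit 73753) (nat_lit 8) (.e (nat_lit 557105) (nat_lit 14) (.e (nat_lit 180252) (nat_lit 10) (.e (nat_lit 573467) (nat_lit 10) .nil)))) .nil)) 
(.lf (nat_lit 201917) (.g (nat_lit 3400) (.e (nat_lit 73753) (nat_lit 8) (.e (nat_lit 557105) (nat_lit 14) (.e (nat_lit 180252) (nat_lit 10) (.e (nat_lit 573474) (nat_lit 12) (.e (nat_lit 57349) (nat_lit 0) (.e (nat_lit 5590) (nat_lit 310) (.e (nat_lit 163869) (nat_lit 2) (.e (nat_lit 196670) (nat_lit 14) .nil)))))))) (.g (nat_lit 4) .nil .nil))))))) 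
(.nd (nat_lit 2) (.nd (nat_lit 3) (.nd (nat_lit 4) (.nd (nat_lit 5) 
(.lf (nat_lit 201859) (.g (nat_lit 2516) (.e (nat_lit 73753) (nat_lit 8) (.e (nat_lit 557105) (nat_lit 14) (.e (nat_lit 180252) (nat_lit 10) (.e (nat_lit 573441) (nat_lit 0) (.e (nat_lit 2857) (nat_lit 184) (.e (nat_lit 426432) (nat_lit 17) (.e (nat_lit 98048) (nat_lit 5) .nil))))))) (.g (nat_lit 4) .nil .nil))) 
(.lf (nat_lit 201891) (.g (nat_lit 4598) (.e (nat_lit 73753) (nat_lit 8) (.e (nat_lit 557105) (nat_lit 14) (.e (nat_lit 180252) (nat_lit 10) (.e (nat_lit 573467) (nat_lit 10) (.e (nat_lit 8262) (nat_lit 45) (.e (nat_lit 778318) (nat_lit 3) (.e (nat_lit 57454) (nat_lit 21) (.e (nat_lit 507648) (nat_lit 19) .nil)))))))) (.g (nat_lit 7) .nil .nil)))) (.nd (nat_lit 5) 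
(.lf (nat_lit 201875) (.g (nat_lit 3068) (.e (nat_lit 73753) (nat_lit 8) (.e (nat_lit 557105) (nat_lit 14) (.e (nat_lit 180252) (nat_lit 10) (.e (nat_lit 573451) (nat_lit 9) (.e (nat_lit 1177) (nat_lit 87) (.e (nat_lit 57929) (nat_lit 282) (.e (nat_lit 163869) (nat_lit 2) (.e (nat_lit 196670) (nat_lit 14) .nil)))))))) (.g (nat_lit 4) .nil .nil))) 
(.lf (nat_lit 201907) (.g (nat_lit 1042) (.e (nat_lit 73753) (nat_lit 8) (.e (nat_lit 557105) (nat_lit 14) (.e (nat_lit 180252) (nat_lit 10) (.e (nat_lit 573473) (nat_lit 12) .nil)))) .nil)))) (.nd (nat_lit 4) (.nd (nat_lit 5) 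
(.lf (nat_lit 201867) (.g (nat_lit 2536) (.e (nat_lit 73753) (nat_lit 8) (.e (nat_lit 557105) (nat_lit 14) (.e (nat_lit 180252) (nat_lit 10) (.e (nat_lit 573449) (nat_lit 9) (.e (nat_lit 1175) (nat_lit 87) .nil))))) .nil)) 
(.lf (nat_lit 201899) (.g (nat_lit 3604) (.e (nat_lit 73753) (nat_lit 8) (.e (nat_lit 557105) (nat_lit 14) (.e (nat_lit 180252) (nat_lit 10) (.e (nat_lit 573468) (nat_lit 10) (.e (nat_lit 8262) (nat_lit 45) (.e (nat_lit 778246) (nat_lit 0) (.e (nat_lit 1239) (nat_lit 91) (.e (nat_lit 98048) (nat_lit 5) .nil)))))))) (.g (nat_lit 4) .nil .nil)))) (.nd (nat_lit 5) 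
(.lf (nat_lit 201883) (.g (nat_lit 2491) (.e (nat_lit 73753) (nat_lit 8) (.e (nat_lit 557105) (nat_lit 14) (.e (nat_lit 180252) (nat_lit 10) (.e (nat_lit 573458) (nat_lit 9) (.e (nat_lit 1180) (nat_lit 87) .nil))))) .nil)) 
(.lf (nat_lit 201915) (.g (nat_lit 2839) (.e (nat_lit 73753) (nat_lit 8) (.e (nat_lit 557105) (nat_lit 14) (.e (nat_lit 180252) (nat_lit 10) (.e (nat_lit 573474) (nat_lit 12) (.e (nat_lit 57345) (nat_lit 0) .nil))))) .nil))))) (.nd (nat_lit 3) (.nd (nat_lit 4) (.nd (nat_lit 5) 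
(.lf (nat_lit 201863) (.g (nat_lit 2616) (.e (nat_lit 73753) (nat_lit 8) (.e (nat_lit 557105) (nat_lit 14) (.e (nat_lit 180252) (nat_lit 10) (.e (nat_lit 573446) (nat_lit 0) .nil)))) .nil)) 
(.lf (nat_lit 201895) (.g (nat_lit 4646) (.e (nat_lit 73753) (nat_lit 8) (.e (nat_lit 557105) (nat_lit 14) (.e (nat_lit 180252) (nat_lit 10) (.e (nat_lit 573468) (nat_lit 10) (.e (nat_lit 8259) (nat_lit 45) (.e (nat_lit 778318) (nat_lit 3) (.e (nat_lit 57454) (nat_lit 21) (.e (nat_lit 507648) (nat_lit 19) .nil)))))))) (.g (nat_lit 6) .nil .nil)))) (.nd (nat_lit 5) 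
(.lf (nat_lit 201879) (.g (nat_lit 2473) (.e (nat_lit 73753) (nat_lit 8) (.e (nat_lit 557105) (nat_lit 14) (.e (nat_lit 180252) (nat_lit 10) (.e (nat_lit 573452) (nat_lit 9) (.e (nat_lit 208) (nat_lit 18) (.e (nat_lit 270080) (nat_lit 0) (.e (nat_lit 1239) (nat_lit 91) (.e (nat_lit 98048) (nat_lit 5) .nil)))))))) (.g (nat_lit 4) .nil .nil))) 
(.lf (nat_lit 201911) (.g (nat_lit 2353) (.e (nat_lit 73753) (nat_lit 8) (.e (nat_lit 557105) (nat_lit 14) (.e (nat_lit 180252) (nat_lit 10) (.e (nat_lit 573473) (nat_lit 12) (.e (nat_lit 57515) (nat_lit 42) (.e (nat_lit 671751) (nat_lit 0) (.e (nat_lit 1234) (nat_lit 91) (.e (nat_lit 98048) (nat_lit 5) .nil)))))))) (.g (nat_lit 4) .nil .nil))))) (.nd (nat_lit 4) (.nd (nat_lit 5) 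
(.lf (nat_lit 201871) (.g (nat_lit 3481) (.e (nat_lit 73753) (nat_lit 8) (.e (nat_lit 557105) (nat_lit 14) (.e (nat_lit 180252) (nat_lit 10) (.e (nat_lit 573451) (nat_lit 9) (.e (nat_lit 52) (nat_lit 0) (.e (nat_lit 3748) (nat_lit 228) (.e (nat_lit 786455) (nat_lit 17) (.e (nat_lit 98048) (nat_lit 5) .nil)))))))) (.g (nat_lit 4) .nil .nil))) 
(.lf (nat_lit 201903) (.g (nat_lit 3509) (.e (nat_lit 73753) (nat_lit 8) (.e (nat_lit 557105) (nat_lit 14) (.e (nat_lit 180252) (nat_lit 10) (.e (nat_lit 573468) (nat_lit 10) (.e (nat_lit 8270) (nat_lit 46) (.e (nat_lit 786455) (nat_lit 17) (.e (nat_lit 98048) (nat_lit 5) .nil))))))) (.g (nat_lit 4) .nil .nil)))) (.nd (nat_lit 5) 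
(.lf (nat_lit 201887) (.g (nat_lit 3293) (.e (nat_lit 73753) (nat_lit 8) (.e (nat_lit 557105) (nat_lit 14) (.e (nat_lit 180252) (nat_lit 10) (.e (nat_lit 573467) (nat_lit 10) (.e (nat_lit 8260) (nat_lit 45) (.e (nat_lit 778246) (nat_lit 0) (.e (nat_lit 1239) (nat_lit 91) (.e (nat_lit 98048) (nat_lit 5) .nil)))))))) (.g (nat_lit 4) .nil .nil))) 
(.lf (nat_lit 201919) (.g (nat_lit 3416) (.e (nat_lit 73753) (nat_lit 8) (.e (nat_lit 557105) (nat_lit 14) (.e (nat_lit 180252) (nat_lit 10) (.e (nat_lit 573474) (nat_lit 12) (.e (nat_lit 57349) (nat_lit 0) (.e (nat_lit 5591) (nat_lit 310) (.e (nat_lit 163869) (nat_lit 2) (.e (nat_lit 196670) (nat_lit 14) .nil)))))))) (.g (nat_lit 4) .nil .nil)))))))))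


end

end Pool.Agent.Lib.MP_5854e1_co.Cz
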