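import Pool.Agent.Lib.MP_5854e1_co.DtD

/-!
# Windows and cells of the rings
-/

set_option autoImplicit false
set_option maxRecDepth 100000
set_option deprecated.oldSectionVars true

namespace Pool.Agent.Lib.MP_5854e1_co.Cz

open Pool.Agent.Lib.MP_5854e1_co

noncomputable section

noncomputable def tv2665 : DT := (.nd (nat_lit 0) (.nd (nat_lit 1) (.nd (nat_lit 2) (.nd (nat_lit 3) (.nd (nat_lit 4) (.nd (nat_lit 5) 
(.lf (nat_lit 201920) (.g (nat_lit 3318) (.e (nat_lit 73753) (nat_lit 8) (.e (nat_lit 557105) (nat_lit 14) (.e (nat_lit 180252) (nat_lit 10) (.e (nat_lit 573474) (nat_lit 12) (.e (nat_lit 57349) (nat_lit 0) (.e (nat_lit 5595) (nat_lit 310) (.e (nat_lit 163869) (nat_lit 2) (.e (nat_lit 196670) (nat_lit 14) .nil)))))))) (.g (nat_lit 4) .nil .nil))) 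
(.lf (nat_lit 201952) (.g (nat_lit 3336) (.e (nat_lit 73753) (nat_lit 8) (.e (nat_lit 557105) (nat_lit 14) (.e (nat_lit 180252) (nat_lit 10) (.e (nat_lit 573474) (nat_lit 12) (.e (nat_lit 57515) (nat_lit 42) (.e (nat_lit 671745) (nat_lit 0) (.e (nat_lit 1239) (nat_lit 91) (.e (nat_lit 98048) (nat_lit 5) .nil)))))))) (.g (nat_lit 4) .nil .nil)))) (.nd (nat_lit 5) 
(.lf (nat_lit 201936) (.g (nat_lit 2927) (.e (nat_lit 73753) (nat_lit 8) (.e (nat_lit 557105) (nat_lit 14) (.e (nat_lit 180252) (nat_lit 10) (.e (nat_lit 573474) (nat_lit 12) (.e (nat_lit 57356) (nat_lit 0) .nil))))) .nil)) 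
(.lf (nat_lit 201968) (.g (nat_lit 4320) (.e (nat_lit 73753) (nat_lit 8) (.e (nat_lit 557105) (nat_lit 14) (.e (nat_lit 180252) (nat_lit 10) (.e (nat_lit 573474) (nat_lit 12) (.e (nat_lit 57516) (nat_lit 42) (.e (nat_lit 671747) (nat_lit 0) (.e (nat_lit 1239) (nat_lit 91) (.e (nat_lit 98048) (nat_lit 5) .nil)))))))) (.g (nat_lit 7) .nil .nil))))) (.nd (nat_lit 4) (.nd (nat_lit 5) 
(.lf (nat_lit 201928) (.g (nat_lit 3460) (.e (nat_lit 73753) (nat_lit 8) (.e (nat_lit 557105) (nat_lit 14) (.e (nat_lit 180252) (nat_lit 10) (.e (nat_lit 573474) (nat_lit 12) (.e (nat_lit 57353) (nat_lit 0) (.e (nat_lit 5595) (nat_lit 310) (.e (nat_lit 163869) (nat_lit 2) (.e (nat_lit 196670) (nat_lit 14) .nil)))))))) (.g (nat_lit 4) .nil .nil))) 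
(.lf (nat_lit 201960) (.g (nat_lit 2643) (.e (nat_lit 73753) (nat_lit 8) (.e (nat_lit 557105) (nat_lit 14) (.e (nat_lit 180252) (nat_lit 10) (.e (nat_lit 573474) (nat_lit 12) (.e (nat_lit 57516) (nat_lit 42) (.e (nat_lit 671744) (nat_lit 0) (.e (nat_lit 1237) (nat_lit 91) (.e (nat_lit 98048) (nat_lit 5) .nil)))))))) (.g (nat_lit 4) .nil .nil)))) (.nd (nat_lit 5) 
(.lf (nat_lit 201944) (.g (nat_lit 2966) (.e (nat_lit 73753) (nat_lit 8) (.e (nat_lit 557105) (nat_lit 14) (.e (nat_lit 180252) (nat_lit 10) (.e (nat_lit 573474) (nat_lit 12) (.e (nat_lit 65280) (nat_lit 0) .nil))))) .nil)) 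
(.lf (nat_lit 201976) (.g (nat_lit 4476) (.e (nat_lit 73753) (nat_lit 8) (.e (nat_lit 557105) (nat_lit 14) (.e (nat_lit 180252) (nat_lit 10) (.e (nat_lit 573474) (nat_lit 12) (.e (nat_lit 57516) (nat_lit 42) (.e (nat_lit 671751) (nat_lit 0) (.e (nat_lit 1234) (nat_lit 91) (.e (nat_lit 98048) (nat_lit 5) .nil)))))))) (.g (nat_lit 7) .nil .nil)))))) 
(.nd (nat_lit 3) (.nd (nat_lit 4) (.nd (nat_lit 5) 
(.lf (nat_lit 201924) (.g (nat_lit 3330) (.e (nat_lit 73753) (nat_lit 8) (.e (nat_lit 557105) (nat_lit 14) (.e (nat_lit 180252) (nat_lit 10) (.e (nat_lit 573474) (nat_lit 12) (.e (nat_lit 57352) (nat_lit 0) .nil))))) .nil)) 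
(.lf (nat_lit 201956) (.g (nat_lit 3162) (.e (nat_lit 73753) (nat_lit 8) (.e (nat_lit 557105) (nat_lit 14) (.e (nat_lit 180252) (nat_lit 10) (.e (nat_lit 573474) (nat_lit 12) (.e (nat_lit 57515) (nat_lit 42) (.e (nat_lit 671751) (nat_lit 0) (.e (nat_lit 1236) (nat_lit 91) (.e (nat_lit 98048) (nat_lit 5) .nil)))))))) (.g (nat_lit 4) .nil .nil)))) (.nd (nat_lit 5) 
(.lf (nat_lit 201940) (.g (nat_lit 3140) (.e (nat_lit 73753) (nat_lit 8) (.e (nat_lit 557105) (nat_lit 14) (.e (nat_lit 180252) (nat_lit 10) (.e (nat_lit 573474) (nat_lit 12) (.e (nat_lit 57360) (nat_lit 0) .nil))))) .nil)) 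
(.lf (nat_lit 201972) (.g (nat_lit 3808) (.e (nat_lit 73753) (nat_lit 8) (.e (nat_lit 557105) (nat_lit 14) (.e (nat_lit 180252) (nat_lit 10) (.e (nat_lit 573474) (nat_lit 12) (.e (nat_lit 57516) (nat_lit 42) (.e (nat_lit 671748) (nat_lit 0) (.e (nat_lit 1233) (nat_lit 91) (.e (nat_lit 98048) (nat_lit 5) .nil)))))))) (.g (nat_lit 6) .nil .nil))))) (.nd (nat_lit 4) (.nd (nat_lit 5) 
(.lf (nat_lit 201932) (.g (nat_lit 3599) (.e (nat_lit 73753) (nat_lit 8) (.e (nat_lit 557105) (nat_lit 14) (.e (nat_lit 180252) (nat_lit 10) (.e (nat_lit 573474) (nat_lit 12) (.e (nat_lit 57355) (nat_lit 0) (.e (nat_lit 5588) (nat_lit 310) (.e (nat_lit 163871) (nat_lit 2) (.e (nat_lit 196670) (nat_lit 14) .nil)))))))) (.g (nat_lit 4) .nil .nil))) 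
(.lf (nat_lit 201964) (.g (nat_lit 3341) (.e (nat_lit 73753) (nat_lit 8) (.e (nat_lit 557105) (nat_lit 14) (.e (nat_lit 180252) (nat_lit 10) (.e (nat_lit 573474) (nat_lit 12) (.e (nat_lit 57516) (nat_lit 42) (.e (nat_lit 671746) (nat_lit 0) (.e (nat_lit 1016) (nat_lit 81) (.e (nat_lit 1691) (nat_lit 117) (.e (nat_lit 500069) (nat_lit 19) .nil))))))))) (.g (nat_lit 4) .nil .nil)))) 
(.nd (nat_lit 5) 
(.lf (nat_lit 201948) (.g (nat_lit 4182) (.e (nat_lit 73753) (nat_lit 8) (.e (nat_lit 557105) (nat_lit 14) (.e (nat_lit 180252) (nat_lit 10) (.e (nat_lit 573474) (nat_lit 12) (.e (nat_lit 57507) (nat_lit 39) (.e (nat_lit 647203) (nat_lit 14) (.e (nat_lit 1139) (nat_lit 84) (.e (nat_lit 32788) (nat_lit 10) .nil)))))))) (.g (nat_lit 4) .nil .nil))) 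
(.lf (nat_lit 201980) (.g (nat_lit 2707) (.e (nat_lit 73753) (nat_lit 8) (.e (nat_lit 557105) (nat_lit 14) (.e (nat_lit 180252) (nat_lit 10) (.e (nat_lit 573474) (nat_lit 12) (.e (nat_lit 57516) (nat_lit 42) (.e (nat_lit 671753) (nat_lit 0) (.e (nat_lit 1232) (nat_lit 91) (.e (nat_lit 98048) (nat_lit 5) .nil)))))))) (.g (nat_lit 4) .nil .nil))))))) 
(.nd (nat_lit 2) (.nd (nat_lit 3) (.nd (nat_lit 4) (.nd (nat_lit 5) 
(.lf (nat_lit 201922) (.g (nat_lit 3124) (.e (nat_lit 73753) (nat_lit 8) (.e (nat_lit 557105) (nat_lit 14) (.e (nat_lit 180252) (nat_lit 10) (.e (nat_lit 573474) (nat_lit 12) (.e (nat_lit 57351) (nat_lit 0) .nil))))) .nil)) 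
(.lf (nat_lit 201954) (.g (nat_lit 3207) (.e (nat_lit 73753) (nat_lit 8) (.e (nat_lit 557105) (nat_lit 14) (.e (nat_lit 180252) (nat_lit 10) (.e (nat_lit 573474) (nat_lit 12) (.e (nat_lit 57515) (nat_lit 42) (.e (nat_lit 671750) (nat_lit 0) (.e (nat_lit 1234) (nat_lit 91) (.e (nat_lit 98048) (nat_lit 5) .nil)))))))) (.g (nat_lit 4) .nil .nil)))) (.nd (nat_lit 5) 
(.lf (nat_lit 201938) (.g (nat_lit 3566) (.e (nat_lit 73753) (nat_lit 8) (.e (nat_lit 557105) (nat_lit 14) (.e (nat_lit 180252) (nat_lit 10) (.e (nat_lit 573474) (nat_lit 12) (.e (nat_lit 57358) (nat_lit 0) (.e (nat_lit 5600) (nat_lit 310) (.e (nat_lit 163869) (nat_lit 2) (.e (nat_lit 196670) (nat_lit 14) .nil)))))))) (.g (nat_lit 4) .nil .nil))) 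
(.lf (nat_lit 201970) (.g (nat_lit 4646) (.e (nat_lit 73753) (nat_lit 8) (.e (nat_lit 557105) (nat_lit 14) (.e (nat_lit 180252) (nat_lit 10) (.e (nat_lit 573474) (nat_lit 12) (.e (nat_lit 57516) (nat_lit 42) (.e (nat_lit 671748) (nat_lit 0) (.e (nat_lit 1016) (nat_lit 81) (.e (nat_lit 1691) (nat_lit 117) (.e (nat_lit 500069) (nat_lit 19) .nil))))))))) (.g (nat_lit 6) .nil .nil))))) 
(.nd (nat_lit 4) (.nd (nat_lit 5) 
(.lf (nat_lit 201930) (.g (nat_lit 3038) (.e (nat_lit 73753) (nat_lit 8) (.e (nat_lit 557105) (nat_lit 14) (.e (nat_lit 180252) (nat_lit 10) (.e (nat_lit 573474) (nat_lit 12) (.e (nat_lit 57354) (nat_lit 0) (.e (nat_lit 7936) (nat_lit 310) (.e (nat_lit 163869) (nat_lit 2) (.e (nat_lit 196670) (nat_lit 14) .nil)))))))) (.g (nat_lit 4) .nil .nil))) 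
(.lf (nat_lit 201962) (.g (nat_lit 2809) (.e (nat_lit 73753) (nat_lit 8) (.e (nat_lit 557105) (nat_lit 14) (.e (nat_lit 180252) (nat_lit 10) (.e (nat_lit 573474) (nat_lit 12) (.e (nat_lit 57516) (nat_lit 42) (.e (nat_lit 671744) (nat_lit 0) (.e (nat_lit 1242) (nat_lit 91) (.e (nat_lit 98048) (nat_lit 5) .nil)))))))) (.g (nat_lit 4) .nil .nil)))) (.nd (nat_lit 5) 
(.lf (nat_lit 201946) (.g (nat_lit 2864) (.e (nat_lit 73753) (nat_lit 8) (.e (nat_lit 557105) (nat_lit 14) (.e (nat_lit 180252) (nat_lit 10) (.e (nat_lit 573474) (nat_lit 12) (.e (nat_lit 57506) (nat_lit 39) .nil))))) .nil)) 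
(.lf (nat_lit 201978) (.g (nat_lit 2611) (.e (nat_lit 73753) (nat_lit 8) (.e (nat_lit 557105) (nat_lit 14) (.e (nat_lit 180252) (nat_lit 10) (.e (nat_lit 573474) (nat_lit 12) (.e (nat_lit 57516) (nat_lit 42) (.e (nat_lit 671751) (nat_lit 0) (.e (nat_lit 1237) (nat_lit 91) (.e (nat_lit 98048) (nat_lit 5) .nil)))))))) (.g (nat_lit 4) .nil .nil)))))) 
(.nd (nat_lit 3) (.nd (nat_lit 4) (.nd (nat_lit 5) 
(.lf (nat_lit 201926) (.g (nat_lit 3604) (.e (nat_lit 73753) (nat_lit 8) (.e (nat_lit 557105) (nat_lit 14) (.e (nat_lit 180252) (nat_lit 10) (.e (nat_lit 573474) (nat_lit 12) (.e (nat_lit 57353) (nat_lit 0) (.e (nat_lit 5584) (nat_lit 310) (.e (nat_lit 163868) (nat_lit 2) (.e (nat_lit 196670) (nat_lit 14) .nil)))))))) (.g (nat_lit 4) .nil .nil))) 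
(.lf (nat_lit 201958) (.g (nat_lit 2778) (.e (nat_lit 73753) (nat_lit 8) (.e (nat_lit 557105) (nat_lit 14) (.e (nat_lit 180252) (nat_lit 10) (.e (nat_lit 573474) (nat_lit 12) (.e (nat_lit 57516) (nat_lit 42) (.e (nat_lit 671744) (nat_lit 0) (.e (nat_lit 1231) (nat_lit 91) (.e (nat_lit 98048) (nat_lit 5) .nil)))))))) (.g (nat_lit 4) .nil .nil)))) (.nd (nat_lit 5) 
(.lf (nat_lit 201942) (.g (nat_lit 3563) (.e (nat_lit 73753) (nat_lit 8) (.e (nat_lit 557105) (nat_lit 14) (.e (nat_lit 180252) (nat_lit 10) (.e (nat_lit 573474) (nat_lit 12) (.e (nat_lit 57360) (nat_lit 0) (.e (nat_lit 5598) (nat_lit 310) (.e (nat_lit 163869) (nat_lit 2) (.e (nat_lit 196670) (nat_lit 14) .nil)))))))) (.g (nat_lit 4) .nil .nil))) 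
(.lf (nat_lit 201974) (.g (nat_lit 4303) (.e (nat_lit 73753) (nat_lit 8) (.e (nat_lit 557105) (nat_lit 14) (.e (nat_lit 180252) (nat_lit 10) (.e (nat_lit 573474) (nat_lit 12) (.e (nat_lit 57516) (nat_lit 42) (.e (nat_lit 671748) (nat_lit 0) (.e (nat_lit 1302) (nat_lit 97) (.e (nat_lit 139281) (nat_lit 5) .nil)))))))) (.g (nat_lit 6) .nil .nil))))) (.nd (nat_lit 4) (.nd (nat_lit 5) 
(.lf (nat_lit 201934) (.g (nat_lit 3582) (.e (nat_lit 73753) (nat_lit 8) (.e (nat_lit 557105) (nat_lit 14) (.e (nat_lit 180252) (nat_lit 10) (.e (nat_lit 573474) (nat_lit 12) (.e (nat_lit 57355) (nat_lit 0) (.e (nat_lit 5601) (nat_lit 310) (.e (nat_lit 163867) (nat_lit 2) (.e (nat_lit 196670) (nat_lit 14) .nil)))))))) (.g (nat_lit 4) .nil .nil))) 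
(.lf (nat_lit 201966) (.g (nat_lit 3923) (.e (nat_lit 73753) (nat_lit 8) (.e (nat_lit 557105) (nat_lit 14) (.e (nat_lit 180252) (nat_lit 10) (.e (nat_lit 573474) (nat_lit 12) (.e (nat_lit 57516) (nat_lit 42) (.e (nat_lit 671747) (nat_lit 0) (.e (nat_lit 1016) (nat_lit 81) (.e (nat_lit 1691) (nat_lit 117) (.e (nat_lit 500068) (nat_lit 19) .nil))))))))) (.g (nat_lit 5) .nil .nil)))) 
(.nd (nat_lit 5) 
(.lf (nat_lit 201950) (.g (nat_lit 3326) (.e (nat_lit 73753) (nat_lit 8) (.e (nat_lit 557105) (nat_lit 14) (.e (nat_lit 180252) (nat_lit 10) (.e (nat_lit 573474) (nat_lit 12) (.e (nat_lit 57510) (nat_lit 39) .nil))))) .nil)) 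
(.lf (nat_lit 201982) (.g (nat_lit 3305) (.e (nat_lit 73753) (nat_lit 8) (.e (nat_lit 557105) (nat_lit 14) (.e (nat_lit 180252) (nat_lit 10) (.e (nat_lit 573474) (nat_lit 12) (.e (nat_lit 57516) (nat_lit 42) (.e (nat_lit 679680) (nat_lit 0) (.e (nat_lit 1239) (nat_lit 91) (.e (nat_lit 98048) (nat_lit 5) .nil)))))))) (.g (nat_lit 5) .nil .nil)))))))) 
(.nd (nat_lit 1) (.nd (nat_lit 2) (.nd (nat_lit 3) (.nd (nat_lit 4) (.nd (nat_lit 5) 
(.lf (nat_lit 201921) (.g (nat_lit 3105) (.e (nat_lit 73753) (nat_lit 8) (.e (nat_lit 557105) (nat_lit 14) (.e (nat_lit 180252) (nat_lit 10) (.e (nat_lit 573474) (nat_lit 12) (.e (nat_lit 57350) (nat_lit 0) .nil))))) .nil)) 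
(.lf (nat_lit 201953) (.g (nat_lit 3440) (.e (nat_lit 73753) (nat_lit 8) (.e (nat_lit 557105) (nat_lit 14) (.e (nat_lit 180252) (nat_lit 10) (.e (nat_lit 573474) (nat_lit 12) (.e (nat_lit 57515) (nat_lit 42) (.e (nat_lit 671746) (nat_lit 0) (.e (nat_lit 1239) (nat_lit 91) (.e (nat_lit 98048) (nat_lit 5) .nil)))))))) (.g (nat_lit 4) .nil .nil)))) (.nd (nat_lit 5) 
(.lf (nat_lit 201937) (.g (nat_lit 3256) (.e (nat_lit 73753) (nat_lit 8) (.e (nat_lit 557105) (nat_lit 14) (.e (nat_lit 180252) (nat_lit 10) (.e (nat_lit 573474) (nat_lit 12) (.e (nat_lit 57358) (nat_lit 0) .nil))))) .nil)) 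
(.lf (nat_lit 201969) (.g (nat_lit 5202) (.e (nat_lit 73753) (nat_lit 8) (.e (nat_lit 557105) (nat_lit 14) (.e (nat_lit 180252) (nat_lit 10) (.e (nat_lit 573474) (nat_lit 12) (.e (nat_lit 57516) (nat_lit 42) (.e (nat_lit 671748) (nat_lit 0) (.e (nat_lit 1016) (nat_lit 81) (.e (nat_lit 1691) (nat_lit 117) (.e (nat_lit 500068) (nat_lit 19) .nil))))))))) (.g (nat_lit 7) .nil .nil))))) 
(.nd (nat_lit 4) (.nd (nat_lit 5) 
(.lf (nat_lit 201929) (.g (nat_lit 2826) (.e (nat_lit 73753) (nat_lit 8) (.e (nat_lit 557105) (nat_lit 14) (.e (nat_lit 180252) (nat_lit 10) (.e (nat_lit 573474) (nat_lit 12) (.e (nat_lit 57354) (nat_lit 0) .nil))))) .nil)) 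
(.lf (nat_lit 201961) (.g (nat_lit 4226) (.e (nat_lit 73753) (nat_lit 8) (.e (nat_lit 557105) (nat_lit 14) (.e (nat_lit 180252) (nat_lit 10) (.e (nat_lit 573474) (nat_lit 12) (.e (nat_lit 57516) (nat_lit 42) (.e (nat_lit 671744) (nat_lit 0) (.e (nat_lit 1239) (nat_lit 91) (.e (nat_lit 98048) (nat_lit 5) .nil)))))))) (.g (nat_lit 7) .nil .nil)))) (.nd (nat_lit 5) 
(.lf (nat_lit 201945) (.g (nat_lit 3095) (.e (nat_lit 73753) (nat_lit 8) (.e (nat_lit 557105) (nat_lit 14) (.e (nat_lit 180252) (nat_lit 10) (.e (nat_lit 573474) (nat_lit 12) (.e (nat_lit 65280) (nat_lit 0) (.e (nat_lit 5603) (nat_lit 310) (.e (nat_lit 163869) (nat_lit 2) (.e (nat_lit 196670) (nat_lit 14) .nil)))))))) (.g (nat_lit 4) .nil .nil))) 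
(.lf (nat_lit 201977) (.g (nat_lit 3129) (.e (nat_lit 73753) (nat_lit 8) (.e (nat_lit 557105) (nat_lit 14) (.e (nat_lit 180252) (nat_lit 10) (.e (nat_lit 573474) (nat_lit 12) (.e (nat_lit 57516) (nat_lit 42) (.e (nat_lit 671751) (nat_lit 0) (.e (nat_lit 1236) (nat_lit 91) (.e (nat_lit 98048) (nat_lit 5) .nil)))))))) (.g (nat_lit 5) .nil .nil)))))) 
(.nd (nat_lit 3) (.nd (nat_lit 4) (.nd (nat_lit 5) 
(.lf (nat_lit 201925) (.g (nat_lit 3197) (.e (nat_lit 73753) (nat_lit 8) (.e (nat_lit 557105) (nat_lit 14) (.e (nat_lit 180252) (nat_lit 10) (.e (nat_lit 573474) (nat_lit 12) (.e (nat_lit 57353) (nat_lit 0) .nil))))) .nil)) 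
(.lf (nat_lit 201957) (.g (nat_lit 2354) (.e (nat_lit 73753) (nat_lit 8) (.e (nat_lit 557105) (nat_lit 14) (.e (nat_lit 180252) (nat_lit 10) (.e (nat_lit 573474) (nat_lit 12) (.e (nat_lit 57516) (nat_lit 42) .nil))))) .nil))) (.nd (nat_lit 5) 
(.lf (nat_lit 201941) (.g (nat_lit 3564) (.e (nat_lit 73753) (nat_lit 8) (.e (nat_lit 557105) (nat_lit 14) (.e (nat_lit 180252) (nat_lit 10) (.e (nat_lit 573474) (nat_lit 12) (.e (nat_lit 57360) (nat_lit 0) (.e (nat_lit 5596) (nat_lit 310) (.e (nat_lit 163867) (nat_lit 2) (.e (nat_lit 196670) (nat_lit 14) .nil)))))))) (.g (nat_lit 4) .nil .nil))) 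
(.lf (nat_lit 201973) (.g (nat_lit 4862) (.e (nat_lit 73753) (nat_lit 8) (.e (nat_lit 557105) (nat_lit 14) (.e (nat_lit 180252) (nat_lit 10) (.e (nat_lit 573474) (nat_lit 12) (.e (nat_lit 57516) (nat_lit 42) (.e (nat_lit 671748) (nat_lit 0) (.e (nat_lit 1239) (nat_lit 91) (.e (nat_lit 98048) (nat_lit 5) .nil)))))))) (.g (nat_lit 7) .nil .nil))))) (.nd (nat_lit 4) (.nd (nat_lit 5) 
(.lf (nat_lit 201933) (.g (nat_lit 3583) (.e (nat_lit 73753) (nat_lit 8) (.e (nat_lit 557105) (nat_lit 14) (.e (nat_lit 180252) (nat_lit 10) (.e (nat_lit 573474) (nat_lit 12) (.e (nat_lit 57355) (nat_lit 0) (.e (nat_lit 5596) (nat_lit 310) (.e (nat_lit 163867) (nat_lit 2) (.e (nat_lit 196670) (nat_lit 14) .nil)))))))) (.g (nat_lit 4) .nil .nil))) 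
(.lf (nat_lit 201965) (.g (nat_lit 4101) (.e (nat_lit 73753) (nat_lit 8) (.e (nat_lit 557105) (nat_lit 14) (.e (nat_lit 180252) (nat_lit 10) (.e (nat_lit 573474) (nat_lit 12) (.e (nat_lit 57516) (nat_lit 42) (.e (nat_lit 671746) (nat_lit 0) (.e (nat_lit 1239) (nat_lit 91) (.e (nat_lit 98048) (nat_lit 5) .nil)))))))) (.g (nat_lit 7) .nil .nil)))) (.nd (nat_lit 5) 
(.lf (nat_lit 201949) (.g (nat_lit 2443) (.e (nat_lit 73753) (nat_lit 8) (.e (nat_lit 557105) (nat_lit 14) (.e (nat_lit 180252) (nat_lit 10) (.e (nat_lit 573474) (nat_lit 12) (.e (nat_lit 57508) (nat_lit 39) .nil))))) .nil)) 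
(.lf (nat_lit 201981) (.g (nat_lit 3634) (.e (nat_lit 73753) (nat_lit 8) (.e (nat_lit 557105) (nat_lit 14) (.e (nat_lit 180252) (nat_lit 10) (.e (nat_lit 573474) (nat_lit 12) (.e (nat_lit 57516) (nat_lit 42) (.e (nat_lit 671754) (nat_lit 0) (.e (nat_lit 1235) (nat_lit 91) (.e (nat_lit 98048) (nat_lit 5) .nil)))))))) (.g (nat_lit 5) .nil .nil))))))) 
(.nd (nat_lit 2) (.nd (nat_lit 3) (.nd (nat_lit 4) (.nd (nat_lit 5) 
(.lf (nat_lit 201923) (.g (nat_lit 3506) (.e (nat_lit 73753) (nat_lit 8) (.e (nat_lit 557105) (nat_lit 14) (.e (nat_lit 180252) (nat_lit 10) (.e (nat_lit 573474) (nat_lit 12) (.e (nat_lit 57351) (nat_lit 0) (.e (nat_lit 5595) (nat_lit 310) (.e (nat_lit 163869) (nat_lit 2) (.e (nat_lit 196670) (nat_lit 14) .nil)))))))) (.g (nat_lit 4) .nil .nil))) 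
(.lf (nat_lit 201955) (.g (nat_lit 4393) (.e (nat_lit 73753) (nat_lit 8) (.e (nat_lit 557105) (nat_lit 14) (.e (nat_lit 180252) (nat_lit 10) (.e (nat_lit 573474) (nat_lit 12) (.e (nat_lit 57515) (nat_lit 42) (.e (nat_lit 671751) (nat_lit 0) (.e (nat_lit 1234) (nat_lit 91) (.e (nat_lit 98048) (nat_lit 5) .nil)))))))) (.g (nat_lit 6) .nil .nil)))) (.nd (nat_lit 5) 
(.lf (nat_lit 201939) (.g (nat_lit 3650) (.e (nat_lit 73753) (nat_lit 8) (.e (nat_lit 557105) (nat_lit 14) (.e (nat_lit 180252) (nat_lit 10) (.e (nat_lit 573474) (nat_lit 12) (.e (nat_lit 57358) (nat_lit 0) (.e (nat_lit 5601) (nat_lit 310) (.e (nat_lit 163869) (nat_lit 2) (.e (nat_lit 196670) (nat_lit 14) .nil)))))))) (.g (nat_lit 4) .nil .nil))) 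
(.lf (nat_lit 201971) (.g (nat_lit 4187) (.e (nat_lit 73753) (nat_lit 8) (.e (nat_lit 557105) (nat_lit 14) (.e (nat_lit 180252) (nat_lit 10) (.e (nat_lit 573474) (nat_lit 12) (.e (nat_lit 57516) (nat_lit 42) (.e (nat_lit 671748) (nat_lit 0) (.e (nat_lit 1225) (nat_lit 91) (.e (nat_lit 98048) (nat_lit 5) .nil)))))))) (.g (nat_lit 6) .nil .nil))))) (.nd (nat_lit 4) (.nd (nat_lit 5) 
(.lf (nat_lit 201931) (.g (nat_lit 3547) (.e (nat_lit 73753) (nat_lit 8) (.e (nat_lit 557105) (nat_lit 14) (.e (nat_lit 180252) (nat_lit 10) (.e (nat_lit 573474) (nat_lit 12) (.e (nat_lit 57355) (nat_lit 0) (.e (nat_lit 5588) (nat_lit 310) (.e (nat_lit 163868) (nat_lit 2) (.e (nat_lit 196670) (nat_lit 14) .nil)))))))) (.g (nat_lit 4) .nil .nil))) 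
(.lf (nat_lit 201963) (.g (nat_lit 3913) (.e (nat_lit 73753) (nat_lit 8) (.e (nat_lit 557105) (nat_lit 14) (.e (nat_lit 180252) (nat_lit 10) (.e (nat_lit 573474) (nat_lit 12) (.e (nat_lit 57516) (nat_lit 42) (.e (nat_lit 671746) (nat_lit 0) (.e (nat_lit 1016) (nat_lit 81) (.e (nat_lit 1691) (nat_lit 117) (.e (nat_lit 500068) (nat_lit 19) .nil))))))))) (.g (nat_lit 5) .nil .nil)))) 
(.nd (nat_lit 5) 
(.lf (nat_lit 201947) (.g (nat_lit 2863) (.e (nat_lit 73753) (nat_lit 8) (.e (nat_lit 557105) (nat_lit 14) (.e (nat_lit 180252) (nat_lit 10) (.e (nat_lit 573474) (nat_lit 12) (.e (nat_lit 57507) (nat_lit 39) .nil))))) .nil)) 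
(.lf (nat_lit 201979) (.g (nat_lit 3439) (.e (nat_lit 73753) (nat_lit 8) (.e (nat_lit 557105) (nat_lit 14) (.e (nat_lit 180252) (nat_lit 10) (.e (nat_lit 573474) (nat_lit 12) (.e (nat_lit 57516) (nat_lit 42) (.e (nat_lit 671752) (nat_lit 0) (.e (nat_lit 1235) (nat_lit 91) (.e (nat_lit 98048) (nat_lit 5) .nil)))))))) (.g (nat_lit 5) .nil .nil)))))) 
(.nd (nat_lit 3) (.nd (nat_lit 4) (.nd (nat_lit 5) 
(.lf (nat_lit 201927) (.g (nat_lit 3621) (.e (nat_lit 73753) (nat_lit 8) (.e (nat_lit 557105) (nat_lit 14) (.e (nat_lit 180252) (nat_lit 10) (.e (nat_lit 573474) (nat_lit 12) (.e (nat_lit 57353) (nat_lit 0) (.e (nat_lit 5584) (nat_lit 310) (.e (nat_lit 163871) (nat_lit 2) (.e (nat_lit 196670) (nat_lit 14) .nil)))))))) (.g (nat_lit 4) .nil .nil))) 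
(.lf (nat_lit 201959) (.g (nat_lit 3924) (.e (nat_lit 73753) (nat_lit 8) (.e (nat_lit 557105) (nat_lit 14) (.e (nat_lit 180252) (nat_lit 10) (.e (nat_lit 573474) (nat_lit 12) (.e (nat_lit 57516) (nat_lit 42) (.e (nat_lit 671744) (nat_lit 0) (.e (nat_lit 1234) (nat_lit 91) (.e (nat_lit 98048) (nat_lit 5) .nil)))))))) (.g (nat_lit 7) .nil .nil)))) (.nd (nat_lit 5) 
(.lf (nat_lit 201943) (.g (nat_lit 3957) (.e (nat_lit 73753) (nat_lit 8) (.e (nat_lit 557105) (nat_lit 14) (.e (nat_lit 180252) (nat_lit 10) (.e (nat_lit 573474) (nat_lit 12) (.e (nat_lit 57360) (nat_lit 0) (.e (nat_lit 5818) (nat_lit 320) (.e (nat_lit 999) (nat_lit 81) (.e (nat_lit 1239) (nat_lit 91) (.e (nat_lit 98048) (nat_lit 5) .nil))))))))) (.g (nat_lit 5) .nil .nil))) 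
(.lf (nat_lit 201975) (.g (nat_lit 3962) (.e (nat_lit 73753) (nat_lit 8) (.e (nat_lit 557105) (nat_lit 14) (.e (nat_lit 180252) (nat_lit 10) (.e (nat_lit 573474) (nat_lit 12) (.e (nat_lit 57516) (nat_lit 42) (.e (nat_lit 671748) (nat_lit 0) (.e (nat_lit 1303) (nat_lit 97) (.e (nat_lit 139281) (nat_lit 5) .nil)))))))) (.g (nat_lit 6) .nil .nil))))) (.nd (nat_lit 4) (.nd (nat_lit 5) 
(.lf (nat_lit 201935) (.g (nat_lit 3452) (.e (nat_lit 73753) (nat_lit 8) (.e (nat_lit 557105) (nat_lit 14) (.e (nat_lit 180252) (nat_lit 10) (.e (nat_lit 573474) (nat_lit 12) (.e (nat_lit 57355) (nat_lit 0) (.e (nat_lit 5601) (nat_lit 310) (.e (nat_lit 163869) (nat_lit 2) (.e (nat_lit 196670) (nat_lit 14) .nil)))))))) (.g (nat_lit 4) .nil .nil))) 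
(.lf (nat_lit 201967) (.g (nat_lit 3351) (.e (nat_lit 73753) (nat_lit 8) (.e (nat_lit 557105) (nat_lit 14) (.e (nat_lit 180252) (nat_lit 10) (.e (nat_lit 573474) (nat_lit 12) (.e (nat_lit 57516) (nat_lit 42) (.e (nat_lit 671747) (nat_lit 0) (.e (nat_lit 1016) (nat_lit 81) (.e (nat_lit 1691) (nat_lit 117) (.e (nat_lit 500069) (nat_lit 19) .nil))))))))) (.g (nat_lit 4) .nil .nil)))) 
(.nd (nat_lit 5) 
(.lf (nat_lit 201951) (.g (nat_lit 3142) (.e (nat_lit 73753) (nat_lit 8) (.e (nat_lit 557105) (nat_lit 14) (.e (nat_lit 180252) (nat_lit 10) (.e (nat_lit 573474) (nat_lit 12) (.e (nat_lit 57515) (nat_lit 42) .nil))))) .nil)) 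
(.lf (nat_lit 201983) (.g (nat_lit 3413) (.e (nat_lit 73753) (nat_lit 8) (.e (nat_lit 557105) (nat_lit 14) (.e (nat_lit 180252) (nat_lit 10) (.e (nat_lit 573474) (nat_lit 12) (.e (nat_lit 57516) (nat_lit 42) (.e (nat_lit 671757) (nat_lit 3) (.e (nat_lit 57453) (nat_lit 21) (.e (nat_lit 500069) (nat_lit 19) .nil)))))))) (.g (nat_lit 4) .nil .nil)))))))))

noncomputable def tv2666 : DT := (.nd (nat_lit 0) (.nd (nat_lit 1) (.nd (nat_lit 2) (.nd (nat_lit 3) (.nd (nat_lit 4) (.nd (nat_lit 5) (.nd (nat_lit 6) 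
(.lf (nat_lit 201984) (.g (nat_lit 3931) (.e (nat_lit 73753) (nat_lit 8) (.e (nat_lit 557105) (nat_lit 14) (.e (nat_lit 180252) (nat_lit 10) (.e (nat_lit 573474) (nat_lit 12) (.e (nat_lit 57516) (nat_lit 42) (.e (nat_lit 671757) (nat_lit 3) (.e (nat_lit 57454) (nat_lit 21) (.e (nat_lit 507648) (nat_lit 19) .nil)))))))) (.g (nat_lit 7) .nil .nil))) 
(.lf (nat_lit 202048) (.g (nat_lit 1715) (.e (nat_lit 73754) (nat_lit 8) (.e (nat_lit 557072) (nat_lit 9) (.e (nat_lit 7936) (nat_lit 23) (.e (nat_lit 352312) (nat_lit 22) (.e (nat_lit 90133) (nat_lit 9) (.e (nat_lit 2400) (nat_lit 157) (.e (nat_lit 7590) (nat_lit 407) .nil))))))) (.g (nat_lit 5) .nil .nil)))) (.nd (nat_lit 6) 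
(.lf (nat_lit 202016) (.g (nat_lit 3350) (.e (nat_lit 73753) (nat_lit 8) (.e (nat_lit 557119) (nat_lit 18) (.e (nat_lit 2797) (nat_lit 180) (.e (nat_lit 303127) (nat_lit 9) (.e (nat_lit 426558) (nat_lit 33) (.e (nat_lit 392960) (nat_lit 5) .nil)))))) (.g (nat_lit 5) .nil .nil))) 
(.lf (nat_lit 202080) (.g (nat_lit 2560) (.e (nat_lit 73754) (nat_lit 8) (.e (nat_lit 557085) (nat_lit 11) (.e (nat_lit 24623) (nat_lit 9) (.e (nat_lit 336013) (nat_lit 2) (.e (nat_lit 90165) (nat_lit 12) (.e (nat_lit 171776) (nat_lit 192) .nil)))))) (.g (nat_lit 4) .nil .nil))))) (.nd (nat_lit 5) (.nd (nat_lit 6) 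
(.lf (nat_lit 202000) (.g (nat_lit 2624) (.e (nat_lit 73753) (nat_lit 8) (.e (nat_lit 557105) (nat_lit 14) (.e (nat_lit 180252) (nat_lit 10) (.e (nat_lit 573475) (nat_lit 12) (.e (nat_lit 57516) (nat_lit 42) (.e (nat_lit 671748) (nat_lit 0) (.e (nat_lit 1304) (nat_lit 97) (.e (nat_lit 139281) (nat_lit 5) .nil)))))))) (.g (nat_lit 4) .nil .nil))) 
(.lf (nat_lit 202064) (.g (nat_lit 2991) (.e (nat_lit 73754) (nat_lit 8) (.e (nat_lit 557072) (nat_lit 9) (.e (nat_lit 3098) (nat_lit 192) (.e (nat_lit 491571) (nat_lit 13) (.e (nat_lit 393251) (nat_lit 18) (.e (nat_lit 164160) (nat_lit 152) (.e (nat_lit 7936) (nat_lit 89) .nil))))))) (.g (nat_lit 5) .nil .nil)))) (.nd (nat_lit 6) 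
(.lf (nat_lit 202032) (.g (nat_lit 2527) (.e (nat_lit 73754) (nat_lit 8) (.e (nat_lit 557059) (nat_lit 0) (.e (nat_lit 1633) (nat_lit 114) (.e (nat_lit 385093) (nat_lit 49) (.e (nat_lit 778291) (nat_lit 0) (.e (nat_lit 1638) (nat_lit 114) (.e (nat_lit 392960) (nat_lit 5) .nil))))))) (.g (nat_lit 5) .nil .nil))) 
(.lf (nat_lit 202096) (.g (nat_lit 3631) (.e (nat_lit 73754) (nat_lit 8) (.e (nat_lit 557087) (nat_lit 11) (.e (nat_lit 24617) (nat_lit 7) (.e (nat_lit 319505) (nat_lit 10) .nil)))) .nil))))) (.nd (nat_lit 4) (.nd (nat_lit 5) (.nd (nat_lit 6) 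
(.lf (nat_lit 201992) (.g (nat_lit 2174) (.e (nat_lit 73753) (nat_lit 8) (.e (nat_lit 557105) (nat_lit 14) (.e (nat_lit 180252) (nat_lit 10) (.e (nat_lit 573475) (nat_lit 12) (.e (nat_lit 57507) (nat_lit 39) .nil))))) .nil)) 
(.lf (nat_lit 202056) (.g (nat_lit 3079) (.e (nat_lit 73754) (nat_lit 8) (.e (nat_lit 557072) (nat_lit 9) (.e (nat_lit 3098) (nat_lit 192) (.e (nat_lit 491571) (nat_lit 13) (.e (nat_lit 393251) (nat_lit 18) (.e (nat_lit 164148) (nat_lit 152) (.e (nat_lit 1208) (nat_lit 89) .nil))))))) (.g (nat_lit 5) .nil .nil)))) (.nd (nat_lit 6) 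
(.lf (nat_lit 202024) (.g (nat_lit 1600) (.e (nat_lit 73753) (nat_lit 8) (.e (nat_lit 557119) (nat_lit 18) (.e (nat_lit 2798) (nat_lit 180) (.e (nat_lit 303133) (nat_lit 9) (.e (nat_lit 426007) (nat_lit 0) .nil))))) .nil)) 
(.lf (nat_lit 202088) (.g (nat_lit 2898) (.e (nat_lit 73754) (nat_lit 8) (.e (nat_lit 557085) (nat_lit 11) (.e (nat_lit 24640) (nat_lit 10) (.e (nat_lit 344117) (nat_lit 21) (.e (nat_lit 516097) (nat_lit 0) .nil))))) .nil)))) (.nd (nat_lit 5) (.nd (nat_lit 6) 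
(.lf (nat_lit 202008) (.g (nat_lit 2645) (.e (nat_lit 73753) (nat_lit 8) (.e (nat_lit 557105) (nat_lit 14) (.e (nat_lit 180252) (nat_lit 10) (.e (nat_lit 573505) (nat_lit 18) .nil)))) .nil)) 
(.lf (nat_lit 202072) (.g (nat_lit 2878) (.e (nat_lit 73754) (nat_lit 8) (.e (nat_lit 557072) (nat_lit 9) (.e (nat_lit 3098) (nat_lit 192) (.e (nat_lit 491571) (nat_lit 13) (.e (nat_lit 393252) (nat_lit 18) (.e (nat_lit 164165) (nat_lit 152) (.e (nat_lit 1208) (nat_lit 89) .nil))))))) (.g (nat_lit 4) .nil .nil)))) (.nd (nat_lit 6) 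
(.lf (nat_lit 202040) (.g (nat_lit 2281) (.e (nat_lit 73754) (nat_lit 8) (.e (nat_lit 557066) (nat_lit 9) (.e (nat_lit 232) (nat_lit 21) (.e (nat_lit 336175) (nat_lit 10) .nil)))) .nil)) 
(.lf (nat_lit 202104) (.g (nat_lit 1943) (.e (nat_lit 73754) (nat_lit 8) (.e (nat_lit 557087) (nat_lit 11) (.e (nat_lit 24640) (nat_lit 10) (.e (nat_lit 344115) (nat_lit 20) .nil)))) .nil)))))) (.nd (nat_lit 3) (.nd (nat_lit 4) (.nd (nat_lit 5) (.nd (nat_lit 6) 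
(.lf (nat_lit 201988) (.g (nat_lit 2563) (.e (nat_lit 73753) (nat_lit 8) (.e (nat_lit 557105) (nat_lit 14) (.e (nat_lit 180252) (nat_lit 10) (.e (nat_lit 573475) (nat_lit 12) (.e (nat_lit 57349) (nat_lit 0) .nil))))) .nil)) 
(.lf (nat_lit 202052) (.g (nat_lit 2212) (.e (nat_lit 73754) (nat_lit 8) (.e (nat_lit 557072) (nat_lit 9) (.e (nat_lit 3098) (nat_lit 192) (.e (nat_lit 491568) (nat_lit 13) (.e (nat_lit 393253) (nat_lit 18) .nil))))) .nil))) (.nd (nat_lit 6) 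
(.lf (nat_lit 202020) (.g (nat_lit 1095) (.e (nat_lit 73753) (nat_lit 8) (.e (nat_lit 557119) (nat_lit 18) (.e (nat_lit 2798) (nat_lit 180) (.e (nat_lit 303133) (nat_lit 9) .nil)))) .nil)) 
(.lf (nat_lit 202084) (.g (nat_lit 1904) (.e (nat_lit 73754) (nat_lit 8) (.e (nat_lit 557085) (nat_lit 11) (.e (nat_lit 24628) (nat_lit 9) (.e (nat_lit 336019) (nat_lit 3) (.e (nat_lit 98321) (nat_lit 17) .nil))))) .nil)))) (.nd (nat_lit 5) (.nd (nat_lit 6) 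
(.lf (nat_lit 202004) (.g (nat_lit 3111) (.e (nat_lit 73753) (nat_lit 8) (.e (nat_lit 557105) (nat_lit 14) (.e (nat_lit 180252) (nat_lit 10) (.e (nat_lit 573503) (nat_lit 18) (.e (nat_lit 1074) (nat_lit 81) (.e (nat_lit 5629) (nat_lit 312) (.e (nat_lit 100) (nat_lit 2) (.e (nat_lit 98048) (nat_lit 5) .nil)))))))) (.g (nat_lit 4) .nil .nil))) 
(.lf (nat_lit 202068) (.g (nat_lit 2715) (.e (nat_lit 73754) (nat_lit 8) (.e (nat_lit 557072) (nat_lit 9) (.e (nat_lit 3098) (nat_lit 192) (.e (nat_lit 491571) (nat_lit 13) (.e (nat_lit 393252) (nat_lit 18) (.e (nat_lit 164147) (nat_lit 152) (.e (nat_lit 1211) (nat_lit 89) .nil))))))) (.g (nat_lit 4) .nil .nil)))) (.nd (nat_lit 6) 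
(.lf (nat_lit 202036) (.g (nat_lit 834) (.e (nat_lit 73754) (nat_lit 8) (.e (nat_lit 557065) (nat_lit 9) (.e (nat_lit 309) (nat_lit 23) (.e (nat_lit 352315) (nat_lit 23) .nil)))) .nil)) 
(.lf (nat_lit 202100) (.g (nat_lit 2052) (.e (nat_lit 73754) (nat_lit 8) (.e (nat_lit 557087) (nat_lit 11) (.e (nat_lit 24631) (nat_lit 9) (.e (nat_lit 336020) (nat_lit 3) .nil)))) .nil))))) (.nd (nat_lit 4) (.nd (nat_lit 5) (.nd (nat_lit 6) 
(.lf (nat_lit 201996) (.g (nat_lit 2218) (.e (nat_lit 73753) (nat_lit 8) (.e (nat_lit 557105) (nat_lit 14) (.e (nat_lit 180252) (nat_lit 10) (.e (nat_lit 573475) (nat_lit 12) (.e (nat_lit 57516) (nat_lit 42) .nil))))) .nil)) 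
(.lf (nat_lit 202060) (.g (nat_lit 2713) (.e (nat_lit 73754) (nat_lit 8) (.e (nat_lit 557072) (nat_lit 9) (.e (nat_lit 3098) (nat_lit 192) (.e (nat_lit 491571) (nat_lit 13) (.e (nat_lit 393251) (nat_lit 18) (.e (nat_lit 164153) (nat_lit 152) (.e (nat_lit 1213) (nat_lit 89) .nil))))))) (.g (nat_lit 4) .nil .nil)))) (.nd (nat_lit 6) 
(.lf (nat_lit 202028) (.g (nat_lit 2103) (.e (nat_lit 73753) (nat_lit 8) (.e (nat_lit 557119) (nat_lit 18) (.e (nat_lit 2798) (nat_lit 180) (.e (nat_lit 303133) (nat_lit 9) (.e (nat_lit 426022) (nat_lit 0) (.e (nat_lit 3572) (nat_lit 222) (.e (nat_lit 737283) (nat_lit 0) (.e (nat_lit 5409) (nat_lit 303) .nil)))))))) (.g (nat_lit 5) .nil .nil))) 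
(.lf (nat_lit 202092) (.g (nat_lit 2070) (.e (nat_lit 73754) (nat_lit 8) (.e (nat_lit 557085) (nat_lit 11) (.e (nat_lit 24644) (nat_lit 11) (.e (nat_lit 368676) (nat_lit 21) (.e (nat_lit 516098) (nat_lit 0) (.e (nat_lit 7591) (nat_lit 407) .nil)))))) (.g (nat_lit 4) .nil .nil))))) (.nd (nat_lit 5) (.nd (nat_lit 6) 
(.lf (nat_lit 202012) (.g (nat_lit 1107) (.e (nat_lit 73753) (nat_lit 8) (.e (nat_lit 557105) (nat_lit 14) (.e (nat_lit 180264) (nat_lit 21) (.e (nat_lit 663568) (nat_lit 5) .nil)))) .nil)) 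
(.lf (nat_lit 202076) (.g (nat_lit 1364) (.e (nat_lit 73754) (nat_lit 8) (.e (nat_lit 557073) (nat_lit 9) (.e (nat_lit 7936) (nat_lit 26) (.e (nat_lit 376865) (nat_lit 22) (.e (nat_lit 90133) (nat_lit 9) (.e (nat_lit 2400) (nat_lit 157) (.e (nat_lit 7592) (nat_lit 407) .nil))))))) (.g (nat_lit 4) .nil .nil)))) (.nd (nat_lit 6) 
(.lf (nat_lit 202044) (.g (nat_lit 1616) (.e (nat_lit 73754) (nat_lit 8) (.e (nat_lit 557070) (nat_lit 9) (.e (nat_lit 313) (nat_lit 23) (.e (nat_lit 352315) (nat_lit 23) (.e (nat_lit 98325) (nat_lit 17) (.e (nat_lit 7936) (nat_lit 407) .nil)))))) (.g (nat_lit 4) .nil .nil))) 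
(.lf (nat_lit 202108) (.g (nat_lit 1356) (.e (nat_lit 73754) (nat_lit 8) (.e (nat_lit 557087) (nat_lit 11) (.e (nat_lit 24645) (nat_lit 11) (.e (nat_lit 368676) (nat_lit 21) .nil)))) .nil))))))) (.nd (nat_lit 2) (.nd (nat_lit 3) (.nd (nat_lit 4) (.nd (nat_lit 5) (.nd (nat_lit 6) 
(.lf (nat_lit 201986) (.g (nat_lit 3222) (.e (nat_lit 73753) (nat_lit 8) (.e (nat_lit 557105) (nat_lit 14) (.e (nat_lit 180252) (nat_lit 10) (.e (nat_lit 573475) (nat_lit 12) (.e (nat_lit 57346) (nat_lit 0) (.e (nat_lit 5583) (nat_lit 310) (.e (nat_lit 163869) (nat_lit 2) (.e (nat_lit 196670) (nat_lit 14) .nil)))))))) (.g (nat_lit 4) .nil .nil))) 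
(.lf (nat_lit 202050) (.g (nat_lit 1800) (.e (nat_lit 73754) (nat_lit 8) (.e (nat_lit 557072) (nat_lit 9) (.e (nat_lit 7936) (nat_lit 26) (.e (nat_lit 376862) (nat_lit 22) (.e (nat_lit 90133) (nat_lit 9) (.e (nat_lit 2400) (nat_lit 157) (.e (nat_lit 7592) (nat_lit 407) .nil))))))) (.g (nat_lit 4) .nil .nil)))) (.nd (nat_lit 6) 
(.lf (nat_lit 202018) (.g (nat_lit 2294) (.e (nat_lit 73753) (nat_lit 8) (.e (nat_lit 557119) (nat_lit 18) (.e (nat_lit 2797) (nat_lit 180) (.e (nat_lit 303145) (nat_lit 13) (.e (nat_lit 483328) (nat_lit 0) .nil))))) .nil)) 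
(.lf (nat_lit 202082) (.g (nat_lit 2416) (.e (nat_lit 73754) (nat_lit 8) (.e (nat_lit 557085) (nat_lit 11) (.e (nat_lit 24627) (nat_lit 9) (.e (nat_lit 336019) (nat_lit 3) (.e (nat_lit 98319) (nat_lit 17) .nil))))) .nil)))) (.nd (nat_lit 5) (.nd (nat_lit 6) 
(.lf (nat_lit 202002) (.g (nat_lit 2666) (.e (nat_lit 73753) (nat_lit 8) (.e (nat_lit 557105) (nat_lit 14) (.e (nat_lit 180252) (nat_lit 10) (.e (nat_lit 573494) (nat_lit 16) .nil)))) .nil)) 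
(.lf (nat_lit 202066) (.g (nat_lit 3344) (.e (nat_lit 73754) (nat_lit 8) (.e (nat_lit 557072) (nat_lit 9) (.e (nat_lit 3098) (nat_lit 192) (.e (nat_lit 491571) (nat_lit 13) (.e (nat_lit 393251) (nat_lit 18) (.e (nat_lit 164161) (nat_lit 152) (.e (nat_lit 7936) (nat_lit 89) .nil))))))) (.g (nat_lit 5) .nil .nil)))) (.nd (nat_lit 6) 
(.lf (nat_lit 202034) (.g (nat_lit 1415) (.e (nat_lit 73754) (nat_lit 8) (.e (nat_lit 557064) (nat_lit 9) (.e (nat_lit 315) (nat_lit 23) (.e (nat_lit 352315) (nat_lit 23) (.e (nat_lit 98325) (nat_lit 17) (.e (nat_lit 7936) (nat_lit 407) .nil)))))) (.g (nat_lit 4) .nil .nil))) 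
(.lf (nat_lit 202098) (.g (nat_lit 3984) (.e (nat_lit 73754) (nat_lit 8) (.e (nat_lit 557087) (nat_lit 11) (.e (nat_lit 24625) (nat_lit 9) (.e (nat_lit 336019) (nat_lit 3) .nil)))) .nil))))) (.nd (nat_lit 4) (.nd (nat_lit 5) (.nd (nat_lit 6) 
(.lf (nat_lit 201994) (.g (nat_lit 2428) (.e (nat_lit 73753) (nat_lit 8) (.e (nat_lit 557105) (nat_lit 14) (.e (nat_lit 180252) (nat_lit 10) (.e (nat_lit 573475) (nat_lit 12) (.e (nat_lit 57508) (nat_lit 39) .nil))))) .nil)) 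
(.lf (nat_lit 202058) (.g (nat_lit 3373) (.e (nat_lit 73754) (nat_lit 8) (.e (nat_lit 557072) (nat_lit 9) (.e (nat_lit 3098) (nat_lit 192) (.e (nat_lit 491571) (nat_lit 13) (.e (nat_lit 393251) (nat_lit 18) (.e (nat_lit 164149) (nat_lit 152) (.e (nat_lit 1207) (nat_lit 89) .nil))))))) (.g (nat_lit 5) .nil .nil)))) (.nd (nat_lit 6) 
(.lf (nat_lit 202026) (.g (nat_lit 2321) (.e (nat_lit 73753) (nat_lit 8) (.e (nat_lit 557119) (nat_lit 18) (.e (nat_lit 2798) (nat_lit 180) (.e (nat_lit 303133) (nat_lit 9) (.e (nat_lit 426022) (nat_lit 0) (.e (nat_lit 3571) (nat_lit 222) (.e (nat_lit 737283) (nat_lit 0) (.e (nat_lit 5412) (nat_lit 303) .nil)))))))) (.g (nat_lit 4) .nil .nil))) 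
(.lf (nat_lit 202090) (.g (nat_lit 3257) (.e (nat_lit 73754) (nat_lit 8) (.e (nat_lit 557085) (nat_lit 11) (.e (nat_lit 24640) (nat_lit 10) (.e (nat_lit 344117) (nat_lit 21) (.e (nat_lit 516106) (nat_lit 0) (.e (nat_lit 7936) (nat_lit 407) .nil)))))) (.g (nat_lit 4) .nil .nil))))) (.nd (nat_lit 5) (.nd (nat_lit 6) 
(.lf (nat_lit 202010) (.g (nat_lit 2048) (.e (nat_lit 73753) (nat_lit 8) (.e (nat_lit 557105) (nat_lit 14) (.e (nat_lit 180261) (nat_lit 20) (.e (nat_lit 655364) (nat_lit 0) (.e (nat_lit 2964) (nat_lit 185) .nil))))) .nil)) 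
(.lf (nat_lit 202074) (.g (nat_lit 1549) (.e (nat_lit 73754) (nat_lit 8) (.e (nat_lit 557073) (nat_lit 9) (.e (nat_lit 7936) (nat_lit 26) (.e (nat_lit 376862) (nat_lit 22) (.e (nat_lit 90133) (nat_lit 9) (.e (nat_lit 2400) (nat_lit 157) (.e (nat_lit 7592) (nat_lit 407) .nil))))))) (.g (nat_lit 4) .nil .nil)))) (.nd (nat_lit 6) 
(.lf (nat_lit 202042) (.g (nat_lit 2301) (.e (nat_lit 73754) (nat_lit 8) (.e (nat_lit 557070) (nat_lit 9) (.e (nat_lit 313) (nat_lit 23) (.e (nat_lit 352312) (nat_lit 22) (.e (nat_lit 90133) (nat_lit 9) (.e (nat_lit 2397) (nat_lit 157) (.e (nat_lit 7592) (nat_lit 407) .nil))))))) (.g (nat_lit 5) .nil .nil))) 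
(.lf (nat_lit 202106) (.g (nat_lit 2328) (.e (nat_lit 73754) (nat_lit 8) (.e (nat_lit 557087) (nat_lit 11) (.e (nat_lit 24641) (nat_lit 10) (.e (nat_lit 344117) (nat_lit 21) .nil)))) .nil)))))) (.nd (nat_lit 3) (.nd (nat_lit 4) (.nd (nat_lit 5) (.nd (nat_lit 6) 
(.lf (nat_lit 201990) (.g (nat_lit 4228) (.e (nat_lit 73753) (nat_lit 8) (.e (nat_lit 557105) (nat_lit 14) (.e (nat_lit 180252) (nat_lit 10) (.e (nat_lit 573475) (nat_lit 12) (.e (nat_lit 57360) (nat_lit 0) (.e (nat_lit 5949) (nat_lit 322) (.e (nat_lit 57373) (nat_lit 2) (.e (nat_lit 98048) (nat_lit 5) .nil)))))))) (.g (nat_lit 7) .nil .nil))) 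
(.lf (nat_lit 202054) (.g (nat_lit 1847) (.e (nat_lit 73754) (nat_lit 8) (.e (nat_lit 557072) (nat_lit 9) (.e (nat_lit 3098) (nat_lit 192) (.e (nat_lit 491571) (nat_lit 13) (.e (nat_lit 393242) (nat_lit 17) .nil))))) .nil))) (.nd (nat_lit 6) 
(.lf (nat_lit 202022) (.g (nat_lit 2501) (.e (nat_lit 73753) (nat_lit 8) (.e (nat_lit 557119) (nat_lit 18) (.e (nat_lit 2798) (nat_lit 180) (.e (nat_lit 303133) (nat_lit 9) (.e (nat_lit 426006) (nat_lit 0) (.e (nat_lit 3572) (nat_lit 222) (.e (nat_lit 737283) (nat_lit 0) (.e (nat_lit 5412) (nat_lit 303) .nil)))))))) (.g (nat_lit 4) .nil .nil))) 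
(.lf (nat_lit 202086) (.g (nat_lit 546) (.e (nat_lit 73754) (nat_lit 8) (.e (nat_lit 557085) (nat_lit 11) (.e (nat_lit 24634) (nat_lit 9) .nil))) .nil)))) (.nd (nat_lit 5) (.nd (nat_lit 6) 
(.lf (nat_lit 202006) (.g (nat_lit 2358) (.e (nat_lit 73753) (nat_lit 8) (.e (nat_lit 557105) (nat_lit 14) (.e (nat_lit 180252) (nat_lit 10) (.e (nat_lit 573503) (nat_lit 18) (.e (nat_lit 1349) (nat_lit 102) .nil))))) .nil)) 
(.lf (nat_lit 202070) (.g (nat_lit 3759) (.e (nat_lit 73754) (nat_lit 8) (.e (nat_lit 557072) (nat_lit 9) (.e (nat_lit 3098) (nat_lit 192) (.e (nat_lit 491571) (nat_lit 13) (.e (nat_lit 393252) (nat_lit 18) (.e (nat_lit 164161) (nat_lit 152) (.e (nat_lit 7936) (nat_lit 89) .nil))))))) (.g (nat_lit 6) .nil .nil)))) (.nd (nat_lit 6) 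
(.lf (nat_lit 202038) (.g (nat_lit 470) (.e (nat_lit 73754) (nat_lit 8) (.e (nat_lit 557065) (nat_lit 9) (.e (nat_lit 334) (nat_lit 26) .nil))) .nil)) 
(.lf (nat_lit 202102) (.g (nat_lit 852) (.e (nat_lit 73754) (nat_lit 8) (.e (nat_lit 557087) (nat_lit 11) (.e (nat_lit 24638) (nat_lit 9) .nil))) .nil))))) (.nd (nat_lit 4) (.nd (nat_lit 5) (.nd (nat_lit 6) 
(.lf (nat_lit 201998) (.g (nat_lit 2860) (.e (nat_lit 73753) (nat_lit 8) (.e (nat_lit 557105) (nat_lit 14) (.e (nat_lit 180252) (nat_lit 10) (.e (nat_lit 573475) (nat_lit 12) (.e (nat_lit 57516) (nat_lit 42) (.e (nat_lit 671748) (nat_lit 0) (.e (nat_lit 1016) (nat_lit 81) (.e (nat_lit 1691) (nat_lit 117) (.e (nat_lit 500068) (nat_lit 19) .nil))))))))) (.g (nat_lit 4) .nil .nil))) 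
(.lf (nat_lit 202062) (.g (nat_lit 3107) (.e (nat_lit 73754) (nat_lit 8) (.e (nat_lit 557072) (nat_lit 9) (.e (nat_lit 3098) (nat_lit 192) (.e (nat_lit 491571) (nat_lit 13) (.e (nat_lit 393251) (nat_lit 18) (.e (nat_lit 164156) (nat_lit 152) (.e (nat_lit 1205) (nat_lit 89) .nil))))))) (.g (nat_lit 5) .nil .nil)))) (.nd (nat_lit 6) 
(.lf (nat_lit 202030) (.g (nat_lit 1951) (.e (nat_lit 73753) (nat_lit 8) (.e (nat_lit 557119) (nat_lit 18) (.e (nat_lit 2798) (nat_lit 180) (.e (nat_lit 303133) (nat_lit 9) (.e (nat_lit 426023) (nat_lit 0) (.e (nat_lit 3572) (nat_lit 222) (.e (nat_lit 737283) (nat_lit 0) (.e (nat_lit 5409) (nat_lit 303) .nil)))))))) (.g (nat_lit 4) .nil .nil))) 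
(.lf (nat_lit 202094) (.g (nat_lit 389) (.e (nat_lit 73754) (nat_lit 8) (.e (nat_lit 557085) (nat_lit 11) (.e (nat_lit 24665) (nat_lit 14) .nil))) .nil)))) (.nd (nat_lit 5) (.nd (nat_lit 6) 
(.lf (nat_lit 202014) (.g (nat_lit 1006) (.e (nat_lit 73753) (nat_lit 8) (.e (nat_lit 557118) (nat_lit 18) (.e (nat_lit 2807) (nat_lit 180) (.e (nat_lit 303127) (nat_lit 9) (.e (nat_lit 426558) (nat_lit 33) .nil))))) .nil)) 
(.lf (nat_lit 202078) (.g (nat_lit 1266) (.e (nat_lit 73754) (nat_lit 8) (.e (nat_lit 557076) (nat_lit 9) (.e (nat_lit 284) (nat_lit 21) (.e (nat_lit 336186) (nat_lit 11) (.e (nat_lit 368676) (nat_lit 21) .nil))))) .nil))) (.nd (nat_lit 6) 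
(.lf (nat_lit 202046) (.g (nat_lit 1622) (.e (nat_lit 73754) (nat_lit 8) (.e (nat_lit 557070) (nat_lit 9) (.e (nat_lit 333) (nat_lit 26) (.e (nat_lit 376862) (nat_lit 22) (.e (nat_lit 90165) (nat_lit 12) (.e (nat_lit 171776) (nat_lit 192) .nil)))))) (.g (nat_lit 4) .nil .nil))) 
(.lf (nat_lit 202110) (.g (nat_lit 2411) (.e (nat_lit 73754) (nat_lit 8) (.e (nat_lit 557091) (nat_lit 12) (.e (nat_lit 164003) (nat_lit 40) (.e (nat_lit 655373) (nat_lit 3) (.e (nat_lit 164053) (nat_lit 56) (.e (nat_lit 786487) (nat_lit 33) (.e (nat_lit 392960) (nat_lit 5) .nil))))))) (.g (nat_lit 4) .nil .nil))))))))) 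
(.nd (nat_lit 1) (.nd (nat_lit 2) (.nd (nat_lit 3) (.nd (nat_lit 4) (.nd (nat_lit 5) 
(.nd (nat_lit 6) 
(.lf (nat_lit 201985) (.g (nat_lit 1253) (.e (nat_lit 73753) (nat_lit 8) (.e (nat_lit 557105) (nat_lit 14) (.e (nat_lit 180252) (nat_lit 10) (.e (nat_lit 573475) (nat_lit 12) .nil)))) .nil)) 
(.lf (nat_lit 202049) (.g (nat_lit 260) (.e (nat_lit 73754) (nat_lit 8) (.e (nat_lit 557072) (nat_lit 9) (.e (nat_lit 7936) (nat_lit 26) .nil))) .nil))) (.nd (nat_lit 6) 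
(.lf (nat_lit 202017) (.g (nat_lit 1288) (.e (nat_lit 73753) (nat_lit 8) (.e (nat_lit 557119) (nat_lit 18) (.e (nat_lit 2797) (nat_lit 180) (.e (nat_lit 303133) (nat_lit 9) .nil)))) .nil)) 
(.lf (nat_lit 202081) (.g (nat_lit 2358) (.e (nat_lit 73754) (nat_lit 8) (.e (nat_lit 557085) (nat_lit 11) (.e (nat_lit 24623) (nat_lit 9) (.e (nat_lit 336028) (nat_lit 3) (.e (nat_lit 98325) (nat_lit 17) (.e (nat_lit 7936) (nat_lit 407) .nil)))))) (.g (nat_lit 4) .nil .nil))))) (.nd (nat_lit 5) (.nd (nat_lit 6) 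
(.lf (nat_lit 202001) (.g (nat_lit 2762) (.e (nat_lit 73753) (nat_lit 8) (.e (nat_lit 557105) (nat_lit 14) (.e (nat_lit 180252) (nat_lit 10) (.e (nat_lit 573475) (nat_lit 12) (.e (nat_lit 57516) (nat_lit 42) (.e (nat_lit 671751) (nat_lit 0) (.e (nat_lit 1234) (nat_lit 91) (.e (nat_lit 98048) (nat_lit 5) .nil)))))))) (.g (nat_lit 4) .nil .nil))) 
(.lf (nat_lit 202065) (.g (nat_lit 3793) (.e (nat_lit 73754) (nat_lit 8) (.e (nat_lit 557072) (nat_lit 9) (.e (nat_lit 3098) (nat_lit 192) (.e (nat_lit 491571) (nat_lit 13) (.e (nat_lit 393251) (nat_lit 18) (.e (nat_lit 164161) (nat_lit 152) (.e (nat_lit 1208) (nat_lit 89) .nil))))))) (.g (nat_lit 5) .nil .nil)))) (.nd (nat_lit 6) 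
(.lf (nat_lit 202033) (.g (nat_lit 3365) (.e (nat_lit 73754) (nat_lit 8) (.e (nat_lit 557059) (nat_lit 0) (.e (nat_lit 1633) (nat_lit 114) (.e (nat_lit 385094) (nat_lit 49) (.e (nat_lit 778291) (nat_lit 0) (.e (nat_lit 1638) (nat_lit 114) (.e (nat_lit 392960) (nat_lit 5) .nil))))))) (.g (nat_lit 6) .nil .nil))) 
(.lf (nat_lit 202097) (.g (nat_lit 2097) (.e (nat_lit 73754) (nat_lit 8) (.e (nat_lit 557087) (nat_lit 11) (.e (nat_lit 24623) (nat_lit 9) (.e (nat_lit 336013) (nat_lit 2) .nil)))) .nil))))) (.nd (nat_lit 4) (.nd (nat_lit 5) (.nd (nat_lit 6) 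
(.lf (nat_lit 201993) (.g (nat_lit 3296) (.e (nat_lit 73753) (nat_lit 8) (.e (nat_lit 557105) (nat_lit 14) (.e (nat_lit 180252) (nat_lit 10) (.e (nat_lit 573475) (nat_lit 12) (.e (nat_lit 57507) (nat_lit 39) (.e (nat_lit 647203) (nat_lit 14) (.e (nat_lit 1139) (nat_lit 84) (.e (nat_lit 32788) (nat_lit 10) .nil)))))))) (.g (nat_lit 4) .nil .nil))) 
(.lf (nat_lit 202057) (.g (nat_lit 2738) (.e (nat_lit 73754) (nat_lit 8) (.e (nat_lit 557072) (nat_lit 9) (.e (nat_lit 3098) (nat_lit 192) (.e (nat_lit 491571) (nat_lit 13) (.e (nat_lit 393251) (nat_lit 18) (.e (nat_lit 164148) (nat_lit 152) (.e (nat_lit 1213) (nat_lit 89) .nil))))))) (.g (nat_lit 4) .nil .nil)))) (.nd (nat_lit 6) 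
(.lf (nat_lit 202025) (.g (nat_lit 1842) (.e (nat_lit 73753) (nat_lit 8) (.e (nat_lit 557119) (nat_lit 18) (.e (nat_lit 2798) (nat_lit 180) (.e (nat_lit 303133) (nat_lit 9) (.e (nat_lit 426022) (nat_lit 0) .nil))))) .nil)) 
(.lf (nat_lit 202089) (.g (nat_lit 2824) (.e (nat_lit 73754) (nat_lit 8) (.e (nat_lit 557085) (nat_lit 11) (.e (nat_lit 24640) (nat_lit 10) (.e (nat_lit 344117) (nat_lit 21) (.e (nat_lit 516098) (nat_lit 0) (.e (nat_lit 7591) (nat_lit 407) .nil)))))) (.g (nat_lit 4) .nil .nil))))) (.nd (nat_lit 5) (.nd (nat_lit 6) 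
(.lf (nat_lit 202009) (.g (nat_lit 749) (.e (nat_lit 73753) (nat_lit 8) (.e (nat_lit 557105) (nat_lit 14) (.e (nat_lit 180261) (nat_lit 20) .nil))) .nil)) 
(.lf (nat_lit 202073) (.g (nat_lit 2822) (.e (nat_lit 73754) (nat_lit 8) (.e (nat_lit 557072) (nat_lit 9) (.e (nat_lit 3098) (nat_lit 192) (.e (nat_lit 491571) (nat_lit 13) (.e (nat_lit 393252) (nat_lit 18) (.e (nat_lit 164167) (nat_lit 152) (.e (nat_lit 1208) (nat_lit 89) .nil))))))) (.g (nat_lit 4) .nil .nil)))) (.nd (nat_lit 6) 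
(.lf (nat_lit 202041) (.g (nat_lit 1712) (.e (nat_lit 73754) (nat_lit 8) (.e (nat_lit 557066) (nat_lit 9) (.e (nat_lit 324) (nat_lit 24) (.e (nat_lit 360466) (nat_lit 3) (.e (nat_lit 516100) (nat_lit 0) (.e (nat_lit 7936) (nat_lit 407) .nil)))))) (.g (nat_lit 4) .nil .nil))) 
(.lf (nat_lit 202105) (.g (nat_lit 3348) (.e (nat_lit 73754) (nat_lit 8) (.e (nat_lit 557087) (nat_lit 11) (.e (nat_lit 24640) (nat_lit 10) (.e (nat_lit 344117) (nat_lit 21) (.e (nat_lit 516106) (nat_lit 0) (.e (nat_lit 7936) (nat_lit 407) .nil)))))) (.g (nat_lit 4) .nil .nil))))))) (.nd (nat_lit 3) (.nd (nat_lit 4) (.nd (nat_lit 5) (.nd (nat_lit 6) 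
(.lf (nat_lit 201989) (.g (nat_lit 3365) (.e (nat_lit 73753) (nat_lit 8) (.e (nat_lit 557105) (nat_lit 14) (.e (nat_lit 180252) (nat_lit 10) (.e (nat_lit 573475) (nat_lit 12) (.e (nat_lit 57359) (nat_lit 0) (.e (nat_lit 5594) (nat_lit 310) (.e (nat_lit 163869) (nat_lit 2) (.e (nat_lit 196670) (nat_lit 14) .nil)))))))) (.g (nat_lit 4) .nil .nil))) 
(.lf (nat_lit 202053) (.g (nat_lit 2240) (.e (nat_lit 73754) (nat_lit 8) (.e (nat_lit 557072) (nat_lit 9) (.e (nat_lit 3098) (nat_lit 192) (.e (nat_lit 491571) (nat_lit 13) (.e (nat_lit 393231) (nat_lit 17) (.e (nat_lit 3453) (nat_lit 216) (.e (nat_lit 688182) (nat_lit 17) .nil))))))) (.g (nat_lit 4) .nil .nil)))) (.nd (nat_lit 6) 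
(.lf (nat_lit 202021) (.g (nat_lit 1863) (.e (nat_lit 73753) (nat_lit 8) (.e (nat_lit 557119) (nat_lit 18) (.e (nat_lit 2798) (nat_lit 180) (.e (nat_lit 303133) (nat_lit 9) (.e (nat_lit 426006) (nat_lit 0) .nil))))) .nil)) 
(.lf (nat_lit 202085) (.g (nat_lit 1779) (.e (nat_lit 73754) (nat_lit 8) (.e (nat_lit 557085) (nat_lit 11) (.e (nat_lit 24632) (nat_lit 9) (.e (nat_lit 336028) (nat_lit 3) (.e (nat_lit 98325) (nat_lit 17) (.e (nat_lit 7936) (nat_lit 407) .nil)))))) (.g (nat_lit 4) .nil .nil))))) (.nd (nat_lit 5) (.nd (nat_lit 6) 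
(.lf (nat_lit 202005) (.g (nat_lit 2750) (.e (nat_lit 73753) (nat_lit 8) (.e (nat_lit 557105) (nat_lit 14) (.e (nat_lit 180252) (nat_lit 10) (.e (nat_lit 573503) (nat_lit 18) (.e (nat_lit 1346) (nat_lit 102) .nil))))) .nil)) 
(.lf (nat_lit 202069) (.g (nat_lit 4134) (.e (nat_lit 73754) (nat_lit 8) (.e (nat_lit 557072) (nat_lit 9) (.e (nat_lit 3098) (nat_lit 192) (.e (nat_lit 491571) (nat_lit 13) (.e (nat_lit 393252) (nat_lit 18) (.e (nat_lit 164161) (nat_lit 152) (.e (nat_lit 1208) (nat_lit 89) .nil))))))) (.g (nat_lit 6) .nil .nil)))) (.nd (nat_lit 6) 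
(.lf (nat_lit 202037) (.g (nat_lit 506) (.e (nat_lit 73754) (nat_lit 8) (.e (nat_lit 557065) (nat_lit 9) (.e (nat_lit 321) (nat_lit 24) .nil))) .nil)) 
(.lf (nat_lit 202101) (.g (nat_lit 2500) (.e (nat_lit 73754) (nat_lit 8) (.e (nat_lit 557087) (nat_lit 11) (.e (nat_lit 24632) (nat_lit 9) (.e (nat_lit 336013) (nat_lit 2) (.e (nat_lit 90165) (nat_lit 12) .nil))))) .nil))))) (.nd (nat_lit 4) (.nd (nat_lit 5) (.nd (nat_lit 6) 
(.lf (nat_lit 201997) (.g (nat_lit 2228) (.e (nat_lit 73753) (nat_lit 8) (.e (nat_lit 557105) (nat_lit 14) (.e (nat_lit 180252) (nat_lit 10) (.e (nat_lit 573475) (nat_lit 12) (.e (nat_lit 57516) (nat_lit 42) (.e (nat_lit 671747) (nat_lit 0) (.e (nat_lit 1239) (nat_lit 91) (.e (nat_lit 98048) (nat_lit 5) .nil)))))))) (.g (nat_lit 4) .nil .nil))) 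
(.lf (nat_lit 202061) (.g (nat_lit 3870) (.e (nat_lit 73754) (nat_lit 8) (.e (nat_lit 557072) (nat_lit 9) (.e (nat_lit 3098) (nat_lit 192) (.e (nat_lit 491571) (nat_lit 13) (.e (nat_lit 393251) (nat_lit 18) (.e (nat_lit 164155) (nat_lit 152) (.e (nat_lit 1214) (nat_lit 89) .nil))))))) (.g (nat_lit 5) .nil .nil)))) (.nd (nat_lit 6) 
(.lf (nat_lit 202029) (.g (nat_lit 1874) (.e (nat_lit 73753) (nat_lit 8) (.e (nat_lit 557119) (nat_lit 18) (.e (nat_lit 2798) (nat_lit 180) (.e (nat_lit 303133) (nat_lit 9) (.e (nat_lit 426023) (nat_lit 0) .nil))))) .nil)) 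
(.lf (nat_lit 202093) (.g (nat_lit 2145) (.e (nat_lit 73754) (nat_lit 8) (.e (nat_lit 557085) (nat_lit 11) (.e (nat_lit 24646) (nat_lit 11) (.e (nat_lit 368676) (nat_lit 21) (.e (nat_lit 516097) (nat_lit 0) (.e (nat_lit 7593) (nat_lit 407) .nil)))))) (.g (nat_lit 4) .nil .nil))))) (.nd (nat_lit 5) (.nd (nat_lit 6) 
(.lf (nat_lit 202013) (.g (nat_lit 1049) (.e (nat_lit 73753) (nat_lit 8) (.e (nat_lit 557105) (nat_lit 14) (.e (nat_lit 180265) (nat_lit 21) (.e (nat_lit 663568) (nat_lit 5) .nil)))) .nil)) 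
(.lf (nat_lit 202077) (.g (nat_lit 819) (.e (nat_lit 73754) (nat_lit 8) (.e (nat_lit 557073) (nat_lit 9) (.e (nat_lit 7936) (nat_lit 26) (.e (nat_lit 376867) (nat_lit 23) (.e (nat_lit 98331) (nat_lit 17) (.e (nat_lit 7936) (nat_lit 407) .nil)))))) (.g (nat_lit 4) .nil .nil)))) (.nd (nat_lit 6) 
(.lf (nat_lit 202045) (.g (nat_lit 538) (.e (nat_lit 73754) (nat_lit 8) (.e (nat_lit 557070) (nat_lit 9) (.e (nat_lit 331) (nat_lit 26) .nil))) .nil)) 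
(.lf (nat_lit 202109) (.g (nat_lit 2257) (.e (nat_lit 73754) (nat_lit 8) (.e (nat_lit 557091) (nat_lit 12) (.e (nat_lit 163999) (nat_lit 38) (.e (nat_lit 639017) (nat_lit 15) (.e (nat_lit 57466) (nat_lit 23) (.e (nat_lit 516131) (nat_lit 3) (.e (nat_lit 221212) (nat_lit 22) (.e (nat_lit 196669) (nat_lit 14) .nil)))))))) (.g (nat_lit 4) .nil .nil)))))))) 
(.nd (nat_lit 2) (.nd (nat_lit 3) (.nd (nat_lit 4) (.nd (nat_lit 5) (.nd (nat_lit 6) 
(.lf (nat_lit 201987) (.g (nat_lit 2569) (.e (nat_lit 73753) (nat_lit 8) (.e (nat_lit 557105) (nat_lit 14) (.e (nat_lit 180252) (nat_lit 10) (.e (nat_lit 573475) (nat_lit 12) (.e (nat_lit 57348) (nat_lit 0) .nil))))) .nil)) 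
(.lf (nat_lit 202051) (.g (nat_lit 1611) (.e (nat_lit 73754) (nat_lit 8) (.e (nat_lit 557072) (nat_lit 9) (.e (nat_lit 7936) (nat_lit 26) (.e (nat_lit 376865) (nat_lit 22) (.e (nat_lit 90133) (nat_lit 9) (.e (nat_lit 2400) (nat_lit 157) (.e (nat_lit 7592) (nat_lit 407) .nil))))))) (.g (nat_lit 4) .nil .nil)))) (.nd (nat_lit 6) 
(.lf (nat_lit 202019) (.g (nat_lit 2294) (.e (nat_lit 73753) (nat_lit 8) (.e (nat_lit 557119) (nat_lit 18) (.e (nat_lit 2797) (nat_lit 180) (.e (nat_lit 303145) (nat_lit 13) (.e (nat_lit 483329) (nat_lit 0) .nil))))) .nil)) 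
(.lf (nat_lit 202083) (.g (nat_lit 3934) (.e (nat_lit 73754) (nat_lit 8) (.e (nat_lit 557085) (nat_lit 11) (.e (nat_lit 24628) (nat_lit 9) (.e (nat_lit 336019) (nat_lit 3) (.e (nat_lit 98320) (nat_lit 17) (.e (nat_lit 7593) (nat_lit 407) .nil)))))) (.g (nat_lit 0) .nil .nil))))) (.nd (nat_lit 5) (.nd (nat_lit 6) 
(.lf (nat_lit 202003) (.g (nat_lit 1427) (.e (nat_lit 73753) (nat_lit 8) (.e (nat_lit 557105) (nat_lit 14) (.e (nat_lit 180252) (nat_lit 10) (.e (nat_lit 573503) (nat_lit 18) .nil)))) .nil)) 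
(.lf (nat_lit 202067) (.g (nat_lit 1883) (.e (nat_lit 73754) (nat_lit 8) (.e (nat_lit 557072) (nat_lit 9) (.e (nat_lit 3098) (nat_lit 192) (.e (nat_lit 491571) (nat_lit 13) (.e (nat_lit 393252) (nat_lit 18) .nil))))) .nil))) (.nd (nat_lit 6) 
(.lf (nat_lit 202035) (.g (nat_lit 535) (.e (nat_lit 73754) (nat_lit 8) (.e (nat_lit 557065) (nat_lit 9) (.e (nat_lit 265) (nat_lit 21) .nil))) .nil)) 
(.lf (nat_lit 202099) (.g (nat_lit 845) (.e (nat_lit 73754) (nat_lit 8) (.e (nat_lit 557087) (nat_lit 11) (.e (nat_lit 24631) (nat_lit 9) .nil))) .nil))))) (.nd (nat_lit 4) (.nd (nat_lit 5) (.nd (nat_lit 6) 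
(.lf (nat_lit 201995) (.g (nat_lit 2375) (.e (nat_lit 73753) (nat_lit 8) (.e (nat_lit 557105) (nat_lit 14) (.e (nat_lit 180252) (nat_lit 10) (.e (nat_lit 573475) (nat_lit 12) (.e (nat_lit 57515) (nat_lit 42) .nil))))) .nil)) 
(.lf (nat_lit 202059) (.g (nat_lit 3418) (.e (nat_lit 73754) (nat_lit 8) (.e (nat_lit 557072) (nat_lit 9) (.e (nat_lit 3098) (nat_lit 192) (.e (nat_lit 491571) (nat_lit 13) (.e (nat_lit 393251) (nat_lit 18) (.e (nat_lit 164153) (nat_lit 152) (.e (nat_lit 1208) (nat_lit 89) .nil))))))) (.g (nat_lit 5) .nil .nil)))) (.nd (nat_lit 6) 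
(.lf (nat_lit 202027) (.g (nat_lit 2307) (.e (nat_lit 73753) (nat_lit 8) (.e (nat_lit 557119) (nat_lit 18) (.e (nat_lit 2798) (nat_lit 180) (.e (nat_lit 303133) (nat_lit 9) (.e (nat_lit 426022) (nat_lit 0) (.e (nat_lit 3571) (nat_lit 222) (.e (nat_lit 737284) (nat_lit 0) (.e (nat_lit 5412) (nat_lit 303) .nil)))))))) (.g (nat_lit 4) .nil .nil))) 
(.lf (nat_lit 202091) (.g (nat_lit 2182) (.e (nat_lit 73754) (nat_lit 8) (.e (nat_lit 557085) (nat_lit 11) (.e (nat_lit 24644) (nat_lit 11) (.e (nat_lit 368676) (nat_lit 21) (.e (nat_lit 516097) (nat_lit 0) (.e (nat_lit 7591) (nat_lit 407) .nil)))))) (.g (nat_lit 4) .nil .nil))))) (.nd (nat_lit 5) (.nd (nat_lit 6) 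
(.lf (nat_lit 202011) (.g (nat_lit 1193) (.e (nat_lit 73753) (nat_lit 8) (.e (nat_lit 557105) (nat_lit 14) (.e (nat_lit 180264) (nat_lit 21) (.e (nat_lit 663566) (nat_lit 4) (.e (nat_lit 65565) (nat_lit 1) .nil))))) .nil)) 
(.lf (nat_lit 202075) (.g (nat_lit 1616) (.e (nat_lit 73754) (nat_lit 8) (.e (nat_lit 557073) (nat_lit 9) (.e (nat_lit 7936) (nat_lit 26) (.e (nat_lit 376865) (nat_lit 22) (.e (nat_lit 90133) (nat_lit 9) (.e (nat_lit 2397) (nat_lit 157) (.e (nat_lit 7592) (nat_lit 407) .nil))))))) (.g (nat_lit 4) .nil .nil)))) (.nd (nat_lit 6) 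
(.lf (nat_lit 202043) (.g (nat_lit 1471) (.e (nat_lit 73754) (nat_lit 8) (.e (nat_lit 557070) (nat_lit 9) (.e (nat_lit 313) (nat_lit 23) (.e (nat_lit 352312) (nat_lit 22) (.e (nat_lit 90165) (nat_lit 12) (.e (nat_lit 171776) (nat_lit 192) .nil)))))) (.g (nat_lit 4) .nil .nil))) 
(.lf (nat_lit 202107) (.g (nat_lit 2211) (.e (nat_lit 73754) (nat_lit 8) (.e (nat_lit 557087) (nat_lit 11) (.e (nat_lit 24641) (nat_lit 10) (.e (nat_lit 344119) (nat_lit 21) .nil)))) .nil)))))) (.nd (nat_lit 3) (.nd (nat_lit 4) (.nd (nat_lit 5) (.nd (nat_lit 6) 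
(.lf (nat_lit 201991) (.g (nat_lit 2361) (.e (nat_lit 73753) (nat_lit 8) (.e (nat_lit 557105) (nat_lit 14) (.e (nat_lit 180252) (nat_lit 10) (.e (nat_lit 573475) (nat_lit 12) (.e (nat_lit 57506) (nat_lit 39) .nil))))) .nil)) 
(.lf (nat_lit 202055) (.g (nat_lit 1897) (.e (nat_lit 73754) (nat_lit 8) (.e (nat_lit 557072) (nat_lit 9) (.e (nat_lit 3098) (nat_lit 192) (.e (nat_lit 491571) (nat_lit 13) (.e (nat_lit 393251) (nat_lit 18) .nil))))) .nil))) (.nd (nat_lit 6) 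
(.lf (nat_lit 202023) (.g (nat_lit 2458) (.e (nat_lit 73753) (nat_lit 8) (.e (nat_lit 557119) (nat_lit 18) (.e (nat_lit 2798) (nat_lit 180) (.e (nat_lit 303133) (nat_lit 9) (.e (nat_lit 426006) (nat_lit 0) (.e (nat_lit 3572) (nat_lit 222) (.e (nat_lit 737284) (nat_lit 0) (.e (nat_lit 5412) (nat_lit 303) .nil)))))))) (.g (nat_lit 4) .nil .nil))) 
(.lf (nat_lit 202087) (.g (nat_lit 3735) (.e (nat_lit 73754) (nat_lit 8) (.e (nat_lit 557085) (nat_lit 11) (.e (nat_lit 24638) (nat_lit 9) (.e (nat_lit 336021) (nat_lit 3) (.e (nat_lit 98320) (nat_lit 17) (.e (nat_lit 7593) (nat_lit 407) .nil)))))) (.g (nat_lit 0) .nil .nil))))) (.nd (nat_lit 5) (.nd (nat_lit 6) 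
(.lf (nat_lit 202007) (.g (nat_lit 2683) (.e (nat_lit 73753) (nat_lit 8) (.e (nat_lit 557105) (nat_lit 14) (.e (nat_lit 180252) (nat_lit 10) (.e (nat_lit 573503) (nat_lit 18) (.e (nat_lit 1384) (nat_lit 105) .nil))))) .nil)) 
(.lf (nat_lit 202071) (.g (nat_lit 2499) (.e (nat_lit 73754) (nat_lit 8) (.e (nat_lit 557072) (nat_lit 9) (.e (nat_lit 3098) (nat_lit 192) (.e (nat_lit 491571) (nat_lit 13) (.e (nat_lit 393252) (nat_lit 18) (.e (nat_lit 164164) (nat_lit 152) (.e (nat_lit 1208) (nat_lit 89) .nil))))))) (.g (nat_lit 4) .nil .nil)))) (.nd (nat_lit 6) 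
(.lf (nat_lit 202039) (.g (nat_lit 1300) (.e (nat_lit 73754) (nat_lit 8) (.e (nat_lit 557065) (nat_lit 9) (.e (nat_lit 334) (nat_lit 26) (.e (nat_lit 376864) (nat_lit 22) .nil)))) .nil)) 
(.lf (nat_lit 202103) (.g (nat_lit 726) (.e (nat_lit 73754) (nat_lit 8) (.e (nat_lit 557087) (nat_lit 11) (.e (nat_lit 24639) (nat_lit 10) .nil))) .nil))))) (.nd (nat_lit 4) (.nd (nat_lit 5) (.nd (nat_lit 6) 
(.lf (nat_lit 201999) (.g (nat_lit 2614) (.e (nat_lit 73753) (nat_lit 8) (.e (nat_lit 557105) (nat_lit 14) (.e (nat_lit 180252) (nat_lit 10) (.e (nat_lit 573475) (nat_lit 12) (.e (nat_lit 57516) (nat_lit 42) (.e (nat_lit 671748) (nat_lit 0) (.e (nat_lit 1239) (nat_lit 91) (.e (nat_lit 98048) (nat_lit 5) .nil)))))))) (.g (nat_lit 4) .nil .nil))) 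
(.lf (nat_lit 202063) (.g (nat_lit 2849) (.e (nat_lit 73754) (nat_lit 8) (.e (nat_lit 557072) (nat_lit 9) (.e (nat_lit 3098) (nat_lit 192) (.e (nat_lit 491571) (nat_lit 13) (.e (nat_lit 393251) (nat_lit 18) (.e (nat_lit 164160) (nat_lit 152) (.e (nat_lit 1208) (nat_lit 89) .nil))))))) (.g (nat_lit 4) .nil .nil)))) (.nd (nat_lit 6) 
(.lf (nat_lit 202031) (.g (nat_lit 864) (.e (nat_lit 73753) (nat_lit 8) (.e (nat_lit 557119) (nat_lit 18) (.e (nat_lit 2808) (nat_lit 180) (.e (nat_lit 303127) (nat_lit 9) .nil)))) .nil)) 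
(.lf (nat_lit 202095) (.g (nat_lit 2225) (.e (nat_lit 73754) (nat_lit 8) (.e (nat_lit 557086) (nat_lit 11) (.e (nat_lit 24646) (nat_lit 11) (.e (nat_lit 368676) (nat_lit 21) (.e (nat_lit 516097) (nat_lit 0) (.e (nat_lit 7593) (nat_lit 407) .nil)))))) (.g (nat_lit 4) .nil .nil))))) (.nd (nat_lit 5) (.nd (nat_lit 6) 
(.lf (nat_lit 202015) (.g (nat_lit 630) (.e (nat_lit 73753) (nat_lit 8) (.e (nat_lit 557119) (nat_lit 18) (.e (nat_lit 2796) (nat_lit 180) (.e (nat_lit 303130) (nat_lit 9) .nil)))) .nil)) 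
(.lf (nat_lit 202079) (.g (nat_lit 394) (.e (nat_lit 73754) (nat_lit 8) (.e (nat_lit 557081) (nat_lit 9) (.e (nat_lit 316) (nat_lit 23) .nil))) .nil))) (.nd (nat_lit 6) 
(.lf (nat_lit 202047) (.g (nat_lit 1434) (.e (nat_lit 73754) (nat_lit 8) (.e (nat_lit 557070) (nat_lit 9) (.e (nat_lit 333) (nat_lit 26) (.e (nat_lit 376865) (nat_lit 22) (.e (nat_lit 90181) (nat_lit 16) (.e (nat_lit 237312) (nat_lit 192) .nil)))))) (.g (nat_lit 4) .nil .nil))) 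
(.lf (nat_lit 202111) (.g (nat_lit 2716) (.e (nat_lit 73754) (nat_lit 8) (.e (nat_lit 557091) (nat_lit 12) (.e (nat_lit 164003) (nat_lit 40) (.e (nat_lit 655373) (nat_lit 3) (.e (nat_lit 164054) (nat_lit 56) (.e (nat_lit 786487) (nat_lit 33) (.e (nat_lit 392960) (nat_lit 5) .nil))))))) (.g (nat_lit 5) .nil .nil))))))))))

noncomputable def tv2667 : DT := (.nd (nat_lit 0) (.nd (nat_lit 1) (.nd (nat_lit 2) (.nd (nat_lit 3) (.nd (nat_lit 4) (.nd (nat_lit 5) 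
(.lf (nat_lit 202112) (.g (nat_lit 2506) (.e (nat_lit 73754) (nat_lit 8) (.e (nat_lit 557091) (nat_lit 12) (.e (nat_lit 164003) (nat_lit 40) (.e (nat_lit 655375) (nat_lit 3) (.e (nat_lit 164058) (nat_lit 56) (.e (nat_lit 786487) (nat_lit 33) (.e (nat_lit 392960) (nat_lit 5) .nil))))))) (.g (nat_lit 4) .nil .nil))) 
(.lf (nat_lit 202144) (.g (nat_lit 1609) (.e (nat_lit 73754) (nat_lit 8) (.e (nat_lit 557093) (nat_lit 12) (.e (nat_lit 164238) (nat_lit 187) (.e (nat_lit 1660) (nat_lit 115) (.e (nat_lit 393253) (nat_lit 18) .nil))))) .nil))) (.nd (nat_lit 5) 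
(.lf (nat_lit 202128) (.g (nat_lit 3503) (.e (nat_lit 73754) (nat_lit 8) (.e (nat_lit 557091) (nat_lit 12) (.e (nat_lit 164238) (nat_lit 187) (.e (nat_lit 1661) (nat_lit 115) (.e (nat_lit 393251) (nat_lit 18) (.e (nat_lit 164153) (nat_lit 152) (.e (nat_lit 1208) (nat_lit 89) .nil))))))) (.g (nat_lit 4) .nil .nil))) 
(.lf (nat_lit 202160) (.g (nat_lit 3045) (.e (nat_lit 73754) (nat_lit 8) (.e (nat_lit 557093) (nat_lit 12) (.e (nat_lit 164238) (nat_lit 187) (.e (nat_lit 1661) (nat_lit 115) (.e (nat_lit 393251) (nat_lit 18) (.e (nat_lit 164156) (nat_lit 152) (.e (nat_lit 1205) (nat_lit 89) .nil))))))) (.g (nat_lit 5) .nil .nil))))) (.nd (nat_lit 4) (.nd (nat_lit 5) 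
(.lf (nat_lit 202120) (.g (nat_lit 1644) (.e (nat_lit 73754) (nat_lit 8) (.e (nat_lit 557091) (nat_lit 12) (.e (nat_lit 164238) (nat_lit 187) (.e (nat_lit 1660) (nat_lit 115) .nil)))) .nil)) 
(.lf (nat_lit 202152) (.g (nat_lit 2321) (.e (nat_lit 73754) (nat_lit 8) (.e (nat_lit 557093) (nat_lit 12) (.e (nat_lit 164238) (nat_lit 187) (.e (nat_lit 1661) (nat_lit 115) (.e (nat_lit 393251) (nat_lit 18) (.e (nat_lit 164147) (nat_lit 152) (.e (nat_lit 1211) (nat_lit 89) .nil))))))) (.g (nat_lit 4) .nil .nil)))) (.nd (nat_lit 5) 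
(.lf (nat_lit 202136) (.g (nat_lit 2971) (.e (nat_lit 73754) (nat_lit 8) (.e (nat_lit 557091) (nat_lit 12) (.e (nat_lit 164238) (nat_lit 187) (.e (nat_lit 1661) (nat_lit 115) (.e (nat_lit 393253) (nat_lit 18) (.e (nat_lit 164149) (nat_lit 152) (.e (nat_lit 1207) (nat_lit 89) .nil))))))) (.g (nat_lit 4) .nil .nil))) 
(.lf (nat_lit 202168) (.g (nat_lit 3109) (.e (nat_lit 73754) (nat_lit 8) (.e (nat_lit 557093) (nat_lit 12) (.e (nat_lit 164238) (nat_lit 187) (.e (nat_lit 1661) (nat_lit 115) (.e (nat_lit 393252) (nat_lit 18) (.e (nat_lit 164165) (nat_lit 152) (.e (nat_lit 1208) (nat_lit 89) .nil))))))) (.g (nat_lit 5) .nil .nil)))))) (.nd (nat_lit 3) (.nd (nat_lit 4) (.nd (nat_lit 5) 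
(.lf (nat_lit 202116) (.g (nat_lit 3066) (.e (nat_lit 73754) (nat_lit 8) (.e (nat_lit 557091) (nat_lit 12) (.e (nat_lit 164238) (nat_lit 187) (.e (nat_lit 1427) (nat_lit 108) (.e (nat_lit 336369) (nat_lit 27) (.e (nat_lit 426109) (nat_lit 1) (.e (nat_lit 164163) (nat_lit 152) (.e (nat_lit 1210) (nat_lit 89) .nil)))))))) (.g (nat_lit 4) .nil .nil))) 
(.lf (nat_lit 202148) (.g (nat_lit 1719) (.e (nat_lit 73754) (nat_lit 8) (.e (nat_lit 557093) (nat_lit 12) (.e (nat_lit 164238) (nat_lit 187) (.e (nat_lit 1661) (nat_lit 115) (.e (nat_lit 393235) (nat_lit 17) .nil))))) .nil))) (.nd (nat_lit 5) 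
(.lf (nat_lit 202132) (.g (nat_lit 3827) (.e (nat_lit 73754) (nat_lit 8) (.e (nat_lit 557091) (nat_lit 12) (.e (nat_lit 164238) (nat_lit 187) (.e (nat_lit 1661) (nat_lit 115) (.e (nat_lit 393252) (nat_lit 18) (.e (nat_lit 164161) (nat_lit 152) (.e (nat_lit 1208) (nat_lit 89) .nil))))))) (.g (nat_lit 4) .nil .nil))) 
(.lf (nat_lit 202164) (.g (nat_lit 2500) (.e (nat_lit 73754) (nat_lit 8) (.e (nat_lit 557093) (nat_lit 12) (.e (nat_lit 164238) (nat_lit 187) (.e (nat_lit 1661) (nat_lit 115) (.e (nat_lit 393252) (nat_lit 18) (.e (nat_lit 164147) (nat_lit 152) (.e (nat_lit 1211) (nat_lit 89) .nil))))))) (.g (nat_lit 4) .nil .nil))))) (.nd (nat_lit 4) (.nd (nat_lit 5) 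
(.lf (nat_lit 202124) (.g (nat_lit 2493) (.e (nat_lit 73754) (nat_lit 8) (.e (nat_lit 557091) (nat_lit 12) (.e (nat_lit 164238) (nat_lit 187) (.e (nat_lit 1661) (nat_lit 115) (.e (nat_lit 393251) (nat_lit 18) .nil))))) .nil)) 
(.lf (nat_lit 202156) (.g (nat_lit 3287) (.e (nat_lit 73754) (nat_lit 8) (.e (nat_lit 557093) (nat_lit 12) (.e (nat_lit 164238) (nat_lit 187) (.e (nat_lit 1661) (nat_lit 115) (.e (nat_lit 393251) (nat_lit 18) (.e (nat_lit 164153) (nat_lit 152) (.e (nat_lit 1208) (nat_lit 89) .nil))))))) (.g (nat_lit 5) .nil .nil)))) (.nd (nat_lit 5) 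
(.lf (nat_lit 202140) (.g (nat_lit 4160) (.e (nat_lit 73754) (nat_lit 8) (.e (nat_lit 557093) (nat_lit 12) (.e (nat_lit 163998) (nat_lit 38) (.e (nat_lit 639017) (nat_lit 15) (.e (nat_lit 57479) (nat_lit 28) (.e (nat_lit 557105) (nat_lit 14) (.e (nat_lit 180252) (nat_lit 10) (.e (nat_lit 573489) (nat_lit 14) .nil)))))))) (.g (nat_lit 6) .nil .nil))) 
(.lf (nat_lit 202172) (.g (nat_lit 2661) (.e (nat_lit 73754) (nat_lit 8) (.e (nat_lit 557093) (nat_lit 12) (.e (nat_lit 164238) (nat_lit 187) (.e (nat_lit 1661) (nat_lit 115) (.e (nat_lit 393253) (nat_lit 18) (.e (nat_lit 164155) (nat_lit 152) (.e (nat_lit 1214) (nat_lit 89) .nil))))))) (.g (nat_lit 4) .nil .nil))))))) (.nd (nat_lit 2) (.nd (nat_lit 3) (.nd (nat_lit 4) (.nd (nat_lit 5) 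
(.lf (nat_lit 202114) (.g (nat_lit 2171) (.e (nat_lit 73754) (nat_lit 8) (.e (nat_lit 557091) (nat_lit 12) (.e (nat_lit 164213) (nat_lit 176) (.e (nat_lit 2789) (nat_lit 179) (.e (nat_lit 294973) (nat_lit 28) (.e (nat_lit 434212) (nat_lit 18) (.e (nat_lit 6272) (nat_lit 337) (.e (nat_lit 1207) (nat_lit 89) .nil)))))))) (.g (nat_lit 4) .nil .nil))) 
(.lf (nat_lit 202146) (.g (nat_lit 2163) (.e (nat_lit 73754) (nat_lit 8) (.e (nat_lit 557093) (nat_lit 12) (.e (nat_lit 164238) (nat_lit 187) (.e (nat_lit 1660) (nat_lit 115) (.e (nat_lit 393253) (nat_lit 18) (.e (nat_lit 164162) (nat_lit 152) (.e (nat_lit 1210) (nat_lit 89) .nil))))))) (.g (nat_lit 4) .nil .nil)))) (.nd (nat_lit 5) 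
(.lf (nat_lit 202130) (.g (nat_lit 3083) (.e (nat_lit 73754) (nat_lit 8) (.e (nat_lit 557091) (nat_lit 12) (.e (nat_lit 164238) (nat_lit 187) (.e (nat_lit 1661) (nat_lit 115) (.e (nat_lit 393251) (nat_lit 18) (.e (nat_lit 164161) (nat_lit 152) (.e (nat_lit 7936) (nat_lit 89) .nil))))))) (.g (nat_lit 4) .nil .nil))) 
(.lf (nat_lit 202162) (.g (nat_lit 3168) (.e (nat_lit 73754) (nat_lit 8) (.e (nat_lit 557093) (nat_lit 12) (.e (nat_lit 164238) (nat_lit 187) (.e (nat_lit 1661) (nat_lit 115) (.e (nat_lit 393251) (nat_lit 18) (.e (nat_lit 164161) (nat_lit 152) (.e (nat_lit 7936) (nat_lit 89) .nil))))))) (.g (nat_lit 5) .nil .nil))))) (.nd (nat_lit 4) (.nd (nat_lit 5) 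
(.lf (nat_lit 202122) (.g (nat_lit 3582) (.e (nat_lit 73754) (nat_lit 8) (.e (nat_lit 557091) (nat_lit 12) (.e (nat_lit 164238) (nat_lit 187) (.e (nat_lit 1660) (nat_lit 115) (.e (nat_lit 393253) (nat_lit 18) (.e (nat_lit 164151) (nat_lit 152) (.e (nat_lit 1207) (nat_lit 89) .nil))))))) (.g (nat_lit 5) .nil .nil))) 
(.lf (nat_lit 202154) (.g (nat_lit 2464) (.e (nat_lit 73754) (nat_lit 8) (.e (nat_lit 557093) (nat_lit 12) (.e (nat_lit 164238) (nat_lit 187) (.e (nat_lit 1661) (nat_lit 115) (.e (nat_lit 393251) (nat_lit 18) (.e (nat_lit 164148) (nat_lit 152) (.e (nat_lit 1213) (nat_lit 89) .nil))))))) (.g (nat_lit 4) .nil .nil)))) (.nd (nat_lit 5) 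
(.lf (nat_lit 202138) (.g (nat_lit 3385) (.e (nat_lit 73754) (nat_lit 8) (.e (nat_lit 557091) (nat_lit 12) (.e (nat_lit 164238) (nat_lit 187) (.e (nat_lit 1661) (nat_lit 115) (.e (nat_lit 393253) (nat_lit 18) (.e (nat_lit 164151) (nat_lit 152) (.e (nat_lit 1207) (nat_lit 89) .nil))))))) (.g (nat_lit 4) .nil .nil))) 
(.lf (nat_lit 202170) (.g (nat_lit 2204) (.e (nat_lit 73754) (nat_lit 8) (.e (nat_lit 557093) (nat_lit 12) (.e (nat_lit 164238) (nat_lit 187) (.e (nat_lit 1661) (nat_lit 115) (.e (nat_lit 393253) (nat_lit 18) .nil))))) .nil))))) (.nd (nat_lit 3) (.nd (nat_lit 4) (.nd (nat_lit 5) 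
(.lf (nat_lit 202118) (.g (nat_lit 3981) (.e (nat_lit 73754) (nat_lit 8) (.e (nat_lit 557091) (nat_lit 12) (.e (nat_lit 164238) (nat_lit 187) (.e (nat_lit 1658) (nat_lit 115) (.e (nat_lit 393253) (nat_lit 18) (.e (nat_lit 164150) (nat_lit 152) (.e (nat_lit 1207) (nat_lit 89) .nil))))))) (.g (nat_lit 6) .nil .nil))) 
(.lf (nat_lit 202150) (.g (nat_lit 1930) (.e (nat_lit 73754) (nat_lit 8) (.e (nat_lit 557093) (nat_lit 12) (.e (nat_lit 164238) (nat_lit 187) (.e (nat_lit 1661) (nat_lit 115) (.e (nat_lit 393242) (nat_lit 17) .nil))))) .nil))) (.nd (nat_lit 5) 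
(.lf (nat_lit 202134) (.g (nat_lit 3304) (.e (nat_lit 73754) (nat_lit 8) (.e (nat_lit 557091) (nat_lit 12) (.e (nat_lit 164238) (nat_lit 187) (.e (nat_lit 1661) (nat_lit 115) (.e (nat_lit 393252) (nat_lit 18) (.e (nat_lit 164165) (nat_lit 152) (.e (nat_lit 1208) (nat_lit 89) .nil))))))) (.g (nat_lit 4) .nil .nil))) 
(.lf (nat_lit 202166) (.g (nat_lit 2203) (.e (nat_lit 73754) (nat_lit 8) (.e (nat_lit 557093) (nat_lit 12) (.e (nat_lit 164238) (nat_lit 187) (.e (nat_lit 1661) (nat_lit 115) (.e (nat_lit 393252) (nat_lit 18) (.e (nat_lit 164159) (nat_lit 152) (.e (nat_lit 7936) (nat_lit 89) .nil))))))) (.g (nat_lit 4) .nil .nil))))) (.nd (nat_lit 4) (.nd (nat_lit 5) 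
(.lf (nat_lit 202126) (.g (nat_lit 3929) (.e (nat_lit 73754) (nat_lit 8) (.e (nat_lit 557091) (nat_lit 12) (.e (nat_lit 164238) (nat_lit 187) (.e (nat_lit 1661) (nat_lit 115) (.e (nat_lit 393251) (nat_lit 18) (.e (nat_lit 164149) (nat_lit 152) (.e (nat_lit 1207) (nat_lit 89) .nil))))))) (.g (nat_lit 5) .nil .nil))) 
(.lf (nat_lit 202158) (.g (nat_lit 2405) (.e (nat_lit 73754) (nat_lit 8) (.e (nat_lit 557093) (nat_lit 12) (.e (nat_lit 164238) (nat_lit 187) (.e (nat_lit 1661) (nat_lit 115) (.e (nat_lit 393251) (nat_lit 18) (.e (nat_lit 164153) (nat_lit 152) (.e (nat_lit 7936) (nat_lit 89) .nil))))))) (.g (nat_lit 4) .nil .nil)))) (.nd (nat_lit 5) 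
(.lf (nat_lit 202142) (.g (nat_lit 2611) (.e (nat_lit 73754) (nat_lit 8) (.e (nat_lit 557093) (nat_lit 12) (.e (nat_lit 164238) (nat_lit 187) (.e (nat_lit 1428) (nat_lit 108) (.e (nat_lit 336425) (nat_lit 28) (.e (nat_lit 434286) (nat_lit 42) (.e (nat_lit 688179) (nat_lit 17) .nil))))))) (.g (nat_lit 4) .nil .nil))) 
(.lf (nat_lit 202174) (.g (nat_lit 2863) (.e (nat_lit 73754) (nat_lit 8) (.e (nat_lit 557093) (nat_lit 12) (.e (nat_lit 164239) (nat_lit 187) (.e (nat_lit 1659) (nat_lit 115) (.e (nat_lit 393253) (nat_lit 18) (.e (nat_lit 164150) (nat_lit 152) (.e (nat_lit 1207) (nat_lit 89) .nil))))))) (.g (nat_lit 5) .nil .nil)))))))) 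
(.nd (nat_lit 1) (.nd (nat_lit 2) (.nd (nat_lit 3) (.nd (nat_lit 4) (.nd (nat_lit 5) 
(.lf (nat_lit 202113) (.g (nat_lit 838) (.e (nat_lit 73754) (nat_lit 8) (.e (nat_lit 557091) (nat_lit 12) (.e (nat_lit 164213) (nat_lit 176) .nil))) .nil)) 
(.lf (nat_lit 202145) (.g (nat_lit 2287) (.e (nat_lit 73754) (nat_lit 8) (.e (nat_lit 557093) (nat_lit 12) (.e (nat_lit 164238) (nat_lit 187) (.e (nat_lit 1660) (nat_lit 115) (.e (nat_lit 393253) (nat_lit 18) (.e (nat_lit 164149) (nat_lit 152) (.e (nat_lit 1207) (nat_lit 89) .nil))))))) (.g (nat_lit 4) .nil .nil)))) (.nd (nat_lit 5) 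
(.lf (nat_lit 202129) (.g (nat_lit 3718) (.e (nat_lit 73754) (nat_lit 8) (.e (nat_lit 557091) (nat_lit 12) (.e (nat_lit 164238) (nat_lit 187) (.e (nat_lit 1661) (nat_lit 115) (.e (nat_lit 393251) (nat_lit 18) (.e (nat_lit 164161) (nat_lit 152) (.e (nat_lit 1208) (nat_lit 89) .nil))))))) (.g (nat_lit 4) .nil .nil))) 
(.lf (nat_lit 202161) (.g (nat_lit 3037) (.e (nat_lit 73754) (nat_lit 8) (.e (nat_lit 557093) (nat_lit 12) (.e (nat_lit 164238) (nat_lit 187) (.e (nat_lit 1661) (nat_lit 115) (.e (nat_lit 393251) (nat_lit 18) (.e (nat_lit 164160) (nat_lit 152) (.e (nat_lit 7936) (nat_lit 89) .nil))))))) (.g (nat_lit 5) .nil .nil))))) (.nd (nat_lit 4) (.nd (nat_lit 5) 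
(.lf (nat_lit 202121) (.g (nat_lit 4509) (.e (nat_lit 73754) (nat_lit 8) (.e (nat_lit 557091) (nat_lit 12) (.e (nat_lit 164238) (nat_lit 187) (.e (nat_lit 1660) (nat_lit 115) (.e (nat_lit 393253) (nat_lit 18) (.e (nat_lit 164150) (nat_lit 152) (.e (nat_lit 1207) (nat_lit 89) .nil))))))) (.g (nat_lit 7) .nil .nil))) 
(.lf (nat_lit 202153) (.g (nat_lit 2857) (.e (nat_lit 73754) (nat_lit 8) (.e (nat_lit 557093) (nat_lit 12) (.e (nat_lit 164238) (nat_lit 187) (.e (nat_lit 1661) (nat_lit 115) (.e (nat_lit 393251) (nat_lit 18) (.e (nat_lit 164148) (nat_lit 152) (.e (nat_lit 1208) (nat_lit 89) .nil))))))) (.g (nat_lit 5) .nil .nil)))) (.nd (nat_lit 5) 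
(.lf (nat_lit 202137) (.g (nat_lit 4835) (.e (nat_lit 73754) (nat_lit 8) (.e (nat_lit 557091) (nat_lit 12) (.e (nat_lit 164238) (nat_lit 187) (.e (nat_lit 1661) (nat_lit 115) (.e (nat_lit 393253) (nat_lit 18) (.e (nat_lit 164150) (nat_lit 152) (.e (nat_lit 1207) (nat_lit 89) .nil))))))) (.g (nat_lit 6) .nil .nil))) 
(.lf (nat_lit 202169) (.g (nat_lit 3054) (.e (nat_lit 73754) (nat_lit 8) (.e (nat_lit 557093) (nat_lit 12) (.e (nat_lit 164238) (nat_lit 187) (.e (nat_lit 1661) (nat_lit 115) (.e (nat_lit 393252) (nat_lit 18) (.e (nat_lit 164167) (nat_lit 152) (.e (nat_lit 1208) (nat_lit 89) .nil))))))) (.g (nat_lit 5) .nil .nil)))))) (.nd (nat_lit 3) (.nd (nat_lit 4) (.nd (nat_lit 5) 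
(.lf (nat_lit 202117) (.g (nat_lit 2969) (.e (nat_lit 73754) (nat_lit 8) (.e (nat_lit 557091) (nat_lit 12) (.e (nat_lit 164238) (nat_lit 187) (.e (nat_lit 1427) (nat_lit 108) (.e (nat_lit 336421) (nat_lit 28) (.e (nat_lit 434212) (nat_lit 18) (.e (nat_lit 6271) (nat_lit 337) (.e (nat_lit 1207) (nat_lit 89) .nil)))))))) (.g (nat_lit 4) .nil .nil))) 
(.lf (nat_lit 202149) (.g (nat_lit 1978) (.e (nat_lit 73754) (nat_lit 8) (.e (nat_lit 557093) (nat_lit 12) (.e (nat_lit 164238) (nat_lit 187) (.e (nat_lit 1661) (nat_lit 115) (.e (nat_lit 393235) (nat_lit 17) (.e (nat_lit 7936) (nat_lit 216) (.e (nat_lit 688182) (nat_lit 17) .nil))))))) (.g (nat_lit 4) .nil .nil)))) (.nd (nat_lit 5) 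
(.lf (nat_lit 202133) (.g (nat_lit 3268) (.e (nat_lit 73754) (nat_lit 8) (.e (nat_lit 557091) (nat_lit 12) (.e (nat_lit 164238) (nat_lit 187) (.e (nat_lit 1661) (nat_lit 115) (.e (nat_lit 393252) (nat_lit 18) (.e (nat_lit 164161) (nat_lit 152) (.e (nat_lit 7936) (nat_lit 89) .nil))))))) (.g (nat_lit 4) .nil .nil))) 
(.lf (nat_lit 202165) (.g (nat_lit 3146) (.e (nat_lit 73754) (nat_lit 8) (.e (nat_lit 557093) (nat_lit 12) (.e (nat_lit 164238) (nat_lit 187) (.e (nat_lit 1661) (nat_lit 115) (.e (nat_lit 393252) (nat_lit 18) (.e (nat_lit 164159) (nat_lit 152) (.e (nat_lit 1208) (nat_lit 89) .nil))))))) (.g (nat_lit 5) .nil .nil))))) (.nd (nat_lit 4) (.nd (nat_lit 5) 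
(.lf (nat_lit 202125) (.g (nat_lit 3073) (.e (nat_lit 73754) (nat_lit 8) (.e (nat_lit 557091) (nat_lit 12) (.e (nat_lit 164238) (nat_lit 187) (.e (nat_lit 1661) (nat_lit 115) (.e (nat_lit 393251) (nat_lit 18) (.e (nat_lit 164148) (nat_lit 152) (.e (nat_lit 1208) (nat_lit 89) .nil))))))) (.g (nat_lit 4) .nil .nil))) 
(.lf (nat_lit 202157) (.g (nat_lit 2531) (.e (nat_lit 73754) (nat_lit 8) (.e (nat_lit 557093) (nat_lit 12) (.e (nat_lit 164238) (nat_lit 187) (.e (nat_lit 1661) (nat_lit 115) (.e (nat_lit 393251) (nat_lit 18) (.e (nat_lit 164153) (nat_lit 152) (.e (nat_lit 1213) (nat_lit 89) .nil))))))) (.g (nat_lit 4) .nil .nil)))) (.nd (nat_lit 5) 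
(.lf (nat_lit 202141) (.g (nat_lit 2365) (.e (nat_lit 73754) (nat_lit 8) (.e (nat_lit 557093) (nat_lit 12) (.e (nat_lit 164238) (nat_lit 187) (.e (nat_lit 1428) (nat_lit 108) (.e (nat_lit 336369) (nat_lit 27) (.e (nat_lit 426109) (nat_lit 1) (.e (nat_lit 164163) (nat_lit 152) (.e (nat_lit 1210) (nat_lit 89) .nil)))))))) (.g (nat_lit 4) .nil .nil))) 
(.lf (nat_lit 202173) (.g (nat_lit 1488) (.e (nat_lit 73754) (nat_lit 8) (.e (nat_lit 557093) (nat_lit 12) (.e (nat_lit 164239) (nat_lit 187) (.e (nat_lit 1659) (nat_lit 115) (.e (nat_lit 393253) (nat_lit 18) .nil))))) .nil)))))) (.nd (nat_lit 2) (.nd (nat_lit 3) (.nd (nat_lit 4) (.nd (nat_lit 5) 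
(.lf (nat_lit 202115) (.g (nat_lit 978) (.e (nat_lit 73754) (nat_lit 8) (.e (nat_lit 557091) (nat_lit 12) (.e (nat_lit 164235) (nat_lit 187) .nil))) .nil)) 
(.lf (nat_lit 202147) (.g (nat_lit 2348) (.e (nat_lit 73754) (nat_lit 8) (.e (nat_lit 557093) (nat_lit 12) (.e (nat_lit 164238) (nat_lit 187) (.e (nat_lit 1661) (nat_lit 115) (.e (nat_lit 393231) (nat_lit 17) (.e (nat_lit 3453) (nat_lit 216) (.e (nat_lit 688182) (nat_lit 17) .nil))))))) (.g (nat_lit 4) .nil .nil)))) (.nd (nat_lit 5) 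
(.lf (nat_lit 202131) (.g (nat_lit 3341) (.e (nat_lit 73754) (nat_lit 8) (.e (nat_lit 557091) (nat_lit 12) (.e (nat_lit 164238) (nat_lit 187) (.e (nat_lit 1661) (nat_lit 115) (.e (nat_lit 393252) (nat_lit 18) (.e (nat_lit 164159) (nat_lit 152) (.e (nat_lit 1208) (nat_lit 89) .nil))))))) (.g (nat_lit 4) .nil .nil))) 
(.lf (nat_lit 202163) (.g (nat_lit 1709) (.e (nat_lit 73754) (nat_lit 8) (.e (nat_lit 557093) (nat_lit 12) (.e (nat_lit 164238) (nat_lit 187) (.e (nat_lit 1661) (nat_lit 115) (.e (nat_lit 393252) (nat_lit 18) .nil))))) .nil)))) (.nd (nat_lit 4) (.nd (nat_lit 5) 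
(.lf (nat_lit 202123) (.g (nat_lit 1644) (.e (nat_lit 73754) (nat_lit 8) (.e (nat_lit 557091) (nat_lit 12) (.e (nat_lit 164238) (nat_lit 187) (.e (nat_lit 1661) (nat_lit 115) .nil)))) .nil)) 
(.lf (nat_lit 202155) (.g (nat_lit 3482) (.e (nat_lit 73754) (nat_lit 8) (.e (nat_lit 557093) (nat_lit 12) (.e (nat_lit 164238) (nat_lit 187) (.e (nat_lit 1661) (nat_lit 115) (.e (nat_lit 393251) (nat_lit 18) (.e (nat_lit 164149) (nat_lit 152) (.e (nat_lit 1207) (nat_lit 89) .nil))))))) (.g (nat_lit 5) .nil .nil)))) (.nd (nat_lit 5) 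
(.lf (nat_lit 202139) (.g (nat_lit 2399) (.e (nat_lit 73754) (nat_lit 8) (.e (nat_lit 557091) (nat_lit 12) (.e (nat_lit 171776) (nat_lit 194) (.e (nat_lit 131140) (nat_lit 27) (.e (nat_lit 426098) (nat_lit 1) (.e (nat_lit 164151) (nat_lit 152) (.e (nat_lit 1207) (nat_lit 89) .nil))))))) (.g (nat_lit 5) .nil .nil))) 
(.lf (nat_lit 202171) (.g (nat_lit 2922) (.e (nat_lit 73754) (nat_lit 8) (.e (nat_lit 557093) (nat_lit 12) (.e (nat_lit 164238) (nat_lit 187) (.e (nat_lit 1661) (nat_lit 115) (.e (nat_lit 393253) (nat_lit 18) (.e (nat_lit 164151) (nat_lit 152) (.e (nat_lit 1207) (nat_lit 89) .nil))))))) (.g (nat_lit 4) .nil .nil)))))) (.nd (nat_lit 3) (.nd (nat_lit 4) (.nd (nat_lit 5) 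
(.lf (nat_lit 202119) (.g (nat_lit 2972) (.e (nat_lit 73754) (nat_lit 8) (.e (nat_lit 557091) (nat_lit 12) (.e (nat_lit 164238) (nat_lit 187) (.e (nat_lit 1659) (nat_lit 115) (.e (nat_lit 393253) (nat_lit 18) (.e (nat_lit 164149) (nat_lit 152) (.e (nat_lit 1207) (nat_lit 89) .nil))))))) (.g (nat_lit 4) .nil .nil))) 
(.lf (nat_lit 202151) (.g (nat_lit 2225) (.e (nat_lit 73754) (nat_lit 8) (.e (nat_lit 557093) (nat_lit 12) (.e (nat_lit 164238) (nat_lit 187) (.e (nat_lit 1661) (nat_lit 115) (.e (nat_lit 393250) (nat_lit 18) .nil))))) .nil))) (.nd (nat_lit 5) 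
(.lf (nat_lit 202135) (.g (nat_lit 3249) (.e (nat_lit 73754) (nat_lit 8) (.e (nat_lit 557091) (nat_lit 12) (.e (nat_lit 164238) (nat_lit 187) (.e (nat_lit 1661) (nat_lit 115) (.e (nat_lit 393252) (nat_lit 18) (.e (nat_lit 164167) (nat_lit 152) (.e (nat_lit 1208) (nat_lit 89) .nil))))))) (.g (nat_lit 4) .nil .nil))) 
(.lf (nat_lit 202167) (.g (nat_lit 3374) (.e (nat_lit 73754) (nat_lit 8) (.e (nat_lit 557093) (nat_lit 12) (.e (nat_lit 164238) (nat_lit 187) (.e (nat_lit 1661) (nat_lit 115) (.e (nat_lit 393252) (nat_lit 18) (.e (nat_lit 164161) (nat_lit 152) (.e (nat_lit 7936) (nat_lit 89) .nil))))))) (.g (nat_lit 6) .nil .nil))))) (.nd (nat_lit 4) (.nd (nat_lit 5) 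
(.lf (nat_lit 202127) (.g (nat_lit 4430) (.e (nat_lit 73754) (nat_lit 8) (.e (nat_lit 557091) (nat_lit 12) (.e (nat_lit 164238) (nat_lit 187) (.e (nat_lit 1661) (nat_lit 115) (.e (nat_lit 393251) (nat_lit 18) (.e (nat_lit 164150) (nat_lit 152) (.e (nat_lit 1207) (nat_lit 89) .nil))))))) (.g (nat_lit 6) .nil .nil))) 
(.lf (nat_lit 202159) (.g (nat_lit 2394) (.e (nat_lit 73754) (nat_lit 8) (.e (nat_lit 557093) (nat_lit 12) (.e (nat_lit 164238) (nat_lit 187) (.e (nat_lit 1661) (nat_lit 115) (.e (nat_lit 393251) (nat_lit 18) (.e (nat_lit 164155) (nat_lit 152) (.e (nat_lit 1208) (nat_lit 89) .nil))))))) (.g (nat_lit 4) .nil .nil)))) (.nd (nat_lit 5) 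
(.lf (nat_lit 202143) (.g (nat_lit 1433) (.e (nat_lit 73754) (nat_lit 8) (.e (nat_lit 557093) (nat_lit 12) (.e (nat_lit 164238) (nat_lit 187) (.e (nat_lit 1658) (nat_lit 115) (.e (nat_lit 393253) (nat_lit 18) .nil))))) .nil)) 
(.lf (nat_lit 202175) (.g (nat_lit 1170) (.e (nat_lit 73754) (nat_lit 8) (.e (nat_lit 557093) (nat_lit 12) (.e (nat_lit 164239) (nat_lit 187) (.e (nat_lit 1660) (nat_lit 115) (.e (nat_lit 393253) (nat_lit 18) .nil))))) .nil))))))))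

noncomputable def tv2668 : DT := (.nd (nat_lit 0) (.nd (nat_lit 1) (.nd (nat_lit 2) (.nd (nat_lit 3) (.nd (nat_lit 4) (.nd (nat_lit 5) 
(.lf (nat_lit 202176) (.g (nat_lit 2648) (.e (nat_lit 73754) (nat_lit 8) (.e (nat_lit 557093) (nat_lit 12) (.e (nat_lit 164239) (nat_lit 187) (.e (nat_lit 1660) (nat_lit 115) (.e (nat_lit 393253) (nat_lit 18) (.e (nat_lit 164151) (nat_lit 152) (.e (nat_lit 1207) (nat_lit 89) .nil))))))) (.g (nat_lit 5) .nil .nil))) 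
(.lf (nat_lit 202208) (.g (nat_lit 812) (.e (nat_lit 73754) (nat_lit 8) (.e (nat_lit 557094) (nat_lit 12) (.e (nat_lit 164238) (nat_lit 187) (.e (nat_lit 1649) (nat_lit 115) .nil)))) .nil))) (.nd (nat_lit 5) 
(.lf (nat_lit 202192) (.g (nat_lit 2679) (.e (nat_lit 73754) (nat_lit 8) (.e (nat_lit 557093) (nat_lit 12) (.e (nat_lit 164239) (nat_lit 187) (.e (nat_lit 1661) (nat_lit 115) (.e (nat_lit 393251) (nat_lit 18) (.e (nat_lit 164163) (nat_lit 152) (.e (nat_lit 1211) (nat_lit 89) .nil))))))) (.g (nat_lit 5) .nil .nil))) 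
(.lf (nat_lit 202224) (.g (nat_lit 2435) (.e (nat_lit 73754) (nat_lit 8) (.e (nat_lit 557094) (nat_lit 12) (.e (nat_lit 164238) (nat_lit 187) (.e (nat_lit 1661) (nat_lit 115) (.e (nat_lit 393251) (nat_lit 18) (.e (nat_lit 164147) (nat_lit 152) (.e (nat_lit 1211) (nat_lit 89) .nil))))))) (.g (nat_lit 4) .nil .nil))))) (.nd (nat_lit 4) (.nd (nat_lit 5) 
(.lf (nat_lit 202184) (.g (nat_lit 3045) (.e (nat_lit 73754) (nat_lit 8) (.e (nat_lit 557093) (nat_lit 12) (.e (nat_lit 164239) (nat_lit 187) (.e (nat_lit 1661) (nat_lit 115) (.e (nat_lit 393251) (nat_lit 18) (.e (nat_lit 164153) (nat_lit 152) (.e (nat_lit 1208) (nat_lit 89) .nil))))))) (.g (nat_lit 5) .nil .nil))) 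
(.lf (nat_lit 202216) (.g (nat_lit 1872) (.e (nat_lit 73754) (nat_lit 8) (.e (nat_lit 557094) (nat_lit 12) (.e (nat_lit 164238) (nat_lit 187) (.e (nat_lit 1661) (nat_lit 115) (.e (nat_lit 393235) (nat_lit 17) (.e (nat_lit 3452) (nat_lit 216) (.e (nat_lit 688182) (nat_lit 17) .nil))))))) (.g (nat_lit 4) .nil .nil)))) (.nd (nat_lit 5) 
(.lf (nat_lit 202200) (.g (nat_lit 2578) (.e (nat_lit 73754) (nat_lit 8) (.e (nat_lit 557093) (nat_lit 12) (.e (nat_lit 164239) (nat_lit 187) (.e (nat_lit 1661) (nat_lit 115) (.e (nat_lit 393252) (nat_lit 18) (.e (nat_lit 164167) (nat_lit 152) (.e (nat_lit 1208) (nat_lit 89) .nil))))))) (.g (nat_lit 5) .nil .nil))) 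
(.lf (nat_lit 202232) (.g (nat_lit 3167) (.e (nat_lit 73754) (nat_lit 8) (.e (nat_lit 557094) (nat_lit 12) (.e (nat_lit 164238) (nat_lit 187) (.e (nat_lit 1661) (nat_lit 115) (.e (nat_lit 393251) (nat_lit 18) (.e (nat_lit 164156) (nat_lit 152) (.e (nat_lit 1205) (nat_lit 89) .nil))))))) (.g (nat_lit 5) .nil .nil)))))) (.nd (nat_lit 3) (.nd (nat_lit 4) (.nd (nat_lit 5) 
(.lf (nat_lit 202180) (.g (nat_lit 1875) (.e (nat_lit 73754) (nat_lit 8) (.e (nat_lit 557093) (nat_lit 12) (.e (nat_lit 164239) (nat_lit 187) (.e (nat_lit 1661) (nat_lit 115) (.e (nat_lit 393251) (nat_lit 18) (.e (nat_lit 164148) (nat_lit 152) (.e (nat_lit 1206) (nat_lit 89) .nil))))))) (.g (nat_lit 4) .nil .nil))) 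
(.lf (nat_lit 202212) (.g (nat_lit 2712) (.e (nat_lit 73754) (nat_lit 8) (.e (nat_lit 557094) (nat_lit 12) (.e (nat_lit 164238) (nat_lit 187) (.e (nat_lit 1660) (nat_lit 115) (.e (nat_lit 393253) (nat_lit 18) (.e (nat_lit 164151) (nat_lit 152) (.e (nat_lit 1207) (nat_lit 89) .nil))))))) (.g (nat_lit 5) .nil .nil)))) (.nd (nat_lit 5) 
(.lf (nat_lit 202196) (.g (nat_lit 1702) (.e (nat_lit 73754) (nat_lit 8) (.e (nat_lit 557093) (nat_lit 12) (.e (nat_lit 164239) (nat_lit 187) (.e (nat_lit 1661) (nat_lit 115) (.e (nat_lit 393252) (nat_lit 18) (.e (nat_lit 164160) (nat_lit 152) (.e (nat_lit 1208) (nat_lit 89) .nil))))))) (.g (nat_lit 4) .nil .nil))) 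
(.lf (nat_lit 202228) (.g (nat_lit 2653) (.e (nat_lit 73754) (nat_lit 8) (.e (nat_lit 557094) (nat_lit 12) (.e (nat_lit 164238) (nat_lit 187) (.e (nat_lit 1661) (nat_lit 115) (.e (nat_lit 393251) (nat_lit 18) (.e (nat_lit 164153) (nat_lit 152) (.e (nat_lit 1213) (nat_lit 89) .nil))))))) (.g (nat_lit 5) .nil .nil))))) (.nd (nat_lit 4) (.nd (nat_lit 5) 
(.lf (nat_lit 202188) (.g (nat_lit 2548) (.e (nat_lit 73754) (nat_lit 8) (.e (nat_lit 557093) (nat_lit 12) (.e (nat_lit 164239) (nat_lit 187) (.e (nat_lit 1661) (nat_lit 115) (.e (nat_lit 393251) (nat_lit 18) (.e (nat_lit 164160) (nat_lit 152) (.e (nat_lit 1208) (nat_lit 89) .nil))))))) (.g (nat_lit 5) .nil .nil))) 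
(.lf (nat_lit 202220) (.g (nat_lit 1749) (.e (nat_lit 73754) (nat_lit 8) (.e (nat_lit 557094) (nat_lit 12) (.e (nat_lit 164238) (nat_lit 187) (.e (nat_lit 1661) (nat_lit 115) (.e (nat_lit 393242) (nat_lit 17) .nil))))) .nil))) (.nd (nat_lit 5) 
(.lf (nat_lit 202204) (.g (nat_lit 2309) (.e (nat_lit 73754) (nat_lit 8) (.e (nat_lit 557094) (nat_lit 12) (.e (nat_lit 164238) (nat_lit 187) (.e (nat_lit 1427) (nat_lit 108) (.e (nat_lit 336425) (nat_lit 28) (.e (nat_lit 434286) (nat_lit 42) (.e (nat_lit 688179) (nat_lit 17) .nil))))))) (.g (nat_lit 4) .nil .nil))) 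
(.lf (nat_lit 202236) (.g (nat_lit 3290) (.e (nat_lit 73754) (nat_lit 8) (.e (nat_lit 557094) (nat_lit 12) (.e (nat_lit 164238) (nat_lit 187) (.e (nat_lit 1661) (nat_lit 115) (.e (nat_lit 393251) (nat_lit 18) (.e (nat_lit 164161) (nat_lit 152) (.e (nat_lit 7936) (nat_lit 89) .nil))))))) (.g (nat_lit 6) .nil .nil))))))) (.nd (nat_lit 2) (.nd (nat_lit 3) (.nd (nat_lit 4) (.nd (nat_lit 5) 
(.lf (nat_lit 202178) (.g (nat_lit 1381) (.e (nat_lit 73754) (nat_lit 8) (.e (nat_lit 557093) (nat_lit 12) (.e (nat_lit 164239) (nat_lit 187) (.e (nat_lit 1661) (nat_lit 115) (.e (nat_lit 393251) (nat_lit 18) .nil))))) .nil)) 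
(.lf (nat_lit 202210) (.g (nat_lit 1553) (.e (nat_lit 73754) (nat_lit 8) (.e (nat_lit 557094) (nat_lit 12) (.e (nat_lit 164238) (nat_lit 187) (.e (nat_lit 1659) (nat_lit 115) (.e (nat_lit 393253) (nat_lit 18) .nil))))) .nil))) (.nd (nat_lit 5) 
(.lf (nat_lit 202194) (.g (nat_lit 2723) (.e (nat_lit 73754) (nat_lit 8) (.e (nat_lit 557093) (nat_lit 12) (.e (nat_lit 164239) (nat_lit 187) (.e (nat_lit 1661) (nat_lit 115) (.e (nat_lit 393252) (nat_lit 18) (.e (nat_lit 164159) (nat_lit 152) (.e (nat_lit 1208) (nat_lit 89) .nil))))))) (.g (nat_lit 5) .nil .nil))) 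
(.lf (nat_lit 202226) (.g (nat_lit 2936) (.e (nat_lit 73754) (nat_lit 8) (.e (nat_lit 557094) (nat_lit 12) (.e (nat_lit 164238) (nat_lit 187) (.e (nat_lit 1661) (nat_lit 115) (.e (nat_lit 393251) (nat_lit 18) (.e (nat_lit 164148) (nat_lit 152) (.e (nat_lit 1208) (nat_lit 89) .nil))))))) (.g (nat_lit 5) .nil .nil))))) (.nd (nat_lit 4) (.nd (nat_lit 5) 
(.lf (nat_lit 202186) (.g (nat_lit 1891) (.e (nat_lit 73754) (nat_lit 8) (.e (nat_lit 557093) (nat_lit 12) (.e (nat_lit 164239) (nat_lit 187) (.e (nat_lit 1661) (nat_lit 115) (.e (nat_lit 393251) (nat_lit 18) (.e (nat_lit 164155) (nat_lit 152) (.e (nat_lit 1208) (nat_lit 89) .nil))))))) (.g (nat_lit 4) .nil .nil))) 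
(.lf (nat_lit 202218) (.g (nat_lit 2080) (.e (nat_lit 73754) (nat_lit 8) (.e (nat_lit 557094) (nat_lit 12) (.e (nat_lit 164238) (nat_lit 187) (.e (nat_lit 1661) (nat_lit 115) (.e (nat_lit 393235) (nat_lit 17) (.e (nat_lit 7936) (nat_lit 216) (.e (nat_lit 688182) (nat_lit 17) .nil))))))) (.g (nat_lit 4) .nil .nil)))) (.nd (nat_lit 5) 
(.lf (nat_lit 202202) (.g (nat_lit 3188) (.e (nat_lit 73754) (nat_lit 8) (.e (nat_lit 557094) (nat_lit 12) (.e (nat_lit 164238) (nat_lit 187) (.e (nat_lit 1427) (nat_lit 108) (.e (nat_lit 336421) (nat_lit 28) (.e (nat_lit 434212) (nat_lit 18) (.e (nat_lit 6272) (nat_lit 337) (.e (nat_lit 1207) (nat_lit 89) .nil)))))))) (.g (nat_lit 5) .nil .nil))) 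
(.lf (nat_lit 202234) (.g (nat_lit 3159) (.e (nat_lit 73754) (nat_lit 8) (.e (nat_lit 557094) (nat_lit 12) (.e (nat_lit 164238) (nat_lit 187) (.e (nat_lit 1661) (nat_lit 115) (.e (nat_lit 393251) (nat_lit 18) (.e (nat_lit 164160) (nat_lit 152) (.e (nat_lit 7936) (nat_lit 89) .nil))))))) (.g (nat_lit 6) .nil .nil)))))) (.nd (nat_lit 3) (.nd (nat_lit 4) (.nd (nat_lit 5) 
(.lf (nat_lit 202182) (.g (nat_lit 2217) (.e (nat_lit 73754) (nat_lit 8) (.e (nat_lit 557093) (nat_lit 12) (.e (nat_lit 164239) (nat_lit 187) (.e (nat_lit 1661) (nat_lit 115) (.e (nat_lit 393251) (nat_lit 18) (.e (nat_lit 164148) (nat_lit 152) (.e (nat_lit 1213) (nat_lit 89) .nil))))))) (.g (nat_lit 4) .nil .nil))) 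
(.lf (nat_lit 202214) (.g (nat_lit 1853) (.e (nat_lit 73754) (nat_lit 8) (.e (nat_lit 557094) (nat_lit 12) (.e (nat_lit 164238) (nat_lit 187) (.e (nat_lit 1661) (nat_lit 115) (.e (nat_lit 393231) (nat_lit 17) .nil))))) .nil))) (.nd (nat_lit 5) 
(.lf (nat_lit 202198) (.g (nat_lit 3099) (.e (nat_lit 73754) (nat_lit 8) (.e (nat_lit 557093) (nat_lit 12) (.e (nat_lit 164239) (nat_lit 187) (.e (nat_lit 1661) (nat_lit 115) (.e (nat_lit 393252) (nat_lit 18) (.e (nat_lit 164161) (nat_lit 152) (.e (nat_lit 7936) (nat_lit 89) .nil))))))) (.g (nat_lit 6) .nil .nil))) 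
(.lf (nat_lit 202230) (.g (nat_lit 2473) (.e (nat_lit 73754) (nat_lit 8) (.e (nat_lit 557094) (nat_lit 12) (.e (nat_lit 164238) (nat_lit 187) (.e (nat_lit 1661) (nat_lit 115) (.e (nat_lit 393251) (nat_lit 18) (.e (nat_lit 164155) (nat_lit 152) (.e (nat_lit 1208) (nat_lit 89) .nil))))))) (.g (nat_lit 4) .nil .nil))))) (.nd (nat_lit 4) (.nd (nat_lit 5) 
(.lf (nat_lit 202190) (.g (nat_lit 2935) (.e (nat_lit 73754) (nat_lit 8) (.e (nat_lit 557093) (nat_lit 12) (.e (nat_lit 164239) (nat_lit 187) (.e (nat_lit 1661) (nat_lit 115) (.e (nat_lit 393251) (nat_lit 18) (.e (nat_lit 164161) (nat_lit 152) (.e (nat_lit 7936) (nat_lit 89) .nil))))))) (.g (nat_lit 5) .nil .nil))) 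
(.lf (nat_lit 202222) (.g (nat_lit 2059) (.e (nat_lit 73754) (nat_lit 8) (.e (nat_lit 557094) (nat_lit 12) (.e (nat_lit 164238) (nat_lit 187) (.e (nat_lit 1661) (nat_lit 115) (.e (nat_lit 393250) (nat_lit 18) (.e (nat_lit 164163) (nat_lit 152) (.e (nat_lit 1211) (nat_lit 89) .nil))))))) (.g (nat_lit 4) .nil .nil)))) (.nd (nat_lit 5) 
(.lf (nat_lit 202206) (.g (nat_lit 3095) (.e (nat_lit 73754) (nat_lit 8) (.e (nat_lit 557094) (nat_lit 12) (.e (nat_lit 164238) (nat_lit 187) (.e (nat_lit 1428) (nat_lit 108) (.e (nat_lit 336425) (nat_lit 28) (.e (nat_lit 434286) (nat_lit 42) (.e (nat_lit 688179) (nat_lit 17) .nil))))))) (.g (nat_lit 6) .nil .nil))) 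
(.lf (nat_lit 202238) (.g (nat_lit 3045) (.e (nat_lit 73754) (nat_lit 8) (.e (nat_lit 557094) (nat_lit 12) (.e (nat_lit 164238) (nat_lit 187) (.e (nat_lit 1661) (nat_lit 115) (.e (nat_lit 393251) (nat_lit 18) (.e (nat_lit 164163) (nat_lit 152) (.e (nat_lit 1211) (nat_lit 89) .nil))))))) (.g (nat_lit 5) .nil .nil)))))))) 
(.nd (nat_lit 1) (.nd (nat_lit 2) (.nd (nat_lit 3) (.nd (nat_lit 4) (.nd (nat_lit 5) 
(.lf (nat_lit 202177) (.g (nat_lit 1557) (.e (nat_lit 73754) (nat_lit 8) (.e (nat_lit 557093) (nat_lit 12) (.e (nat_lit 164239) (nat_lit 187) (.e (nat_lit 1661) (nat_lit 115) (.e (nat_lit 393235) (nat_lit 17) (.e (nat_lit 7936) (nat_lit 216) (.e (nat_lit 688182) (nat_lit 17) .nil))))))) (.g (nat_lit 4) .nil .nil))) 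
(.lf (nat_lit 202209) (.g (nat_lit 1928) (.e (nat_lit 73754) (nat_lit 8) (.e (nat_lit 557094) (nat_lit 12) (.e (nat_lit 164238) (nat_lit 187) (.e (nat_lit 1659) (nat_lit 115) (.e (nat_lit 393237) (nat_lit 17) (.e (nat_lit 3453) (nat_lit 216) (.e (nat_lit 688182) (nat_lit 17) .nil))))))) (.g (nat_lit 4) .nil .nil)))) (.nd (nat_lit 5) 
(.lf (nat_lit 202193) (.g (nat_lit 2147) (.e (nat_lit 73754) (nat_lit 8) (.e (nat_lit 557093) (nat_lit 12) (.e (nat_lit 164239) (nat_lit 187) (.e (nat_lit 1661) (nat_lit 115) (.e (nat_lit 393252) (nat_lit 18) (.e (nat_lit 164147) (nat_lit 152) (.e (nat_lit 1211) (nat_lit 89) .nil))))))) (.g (nat_lit 4) .nil .nil))) 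
(.lf (nat_lit 202225) (.g (nat_lit 2244) (.e (nat_lit 73754) (nat_lit 8) (.e (nat_lit 557094) (nat_lit 12) (.e (nat_lit 164238) (nat_lit 187) (.e (nat_lit 1661) (nat_lit 115) (.e (nat_lit 393251) (nat_lit 18) (.e (nat_lit 164148) (nat_lit 152) (.e (nat_lit 1206) (nat_lit 89) .nil))))))) (.g (nat_lit 4) .nil .nil))))) (.nd (nat_lit 4) (.nd (nat_lit 5) 
(.lf (nat_lit 202185) (.g (nat_lit 2289) (.e (nat_lit 73754) (nat_lit 8) (.e (nat_lit 557093) (nat_lit 12) (.e (nat_lit 164239) (nat_lit 187) (.e (nat_lit 1661) (nat_lit 115) (.e (nat_lit 393251) (nat_lit 18) (.e (nat_lit 164153) (nat_lit 152) (.e (nat_lit 1213) (nat_lit 89) .nil))))))) (.g (nat_lit 4) .nil .nil))) 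
(.lf (nat_lit 202217) (.g (nat_lit 1901) (.e (nat_lit 73754) (nat_lit 8) (.e (nat_lit 557094) (nat_lit 12) (.e (nat_lit 164238) (nat_lit 187) (.e (nat_lit 1661) (nat_lit 115) (.e (nat_lit 393235) (nat_lit 17) (.e (nat_lit 7936) (nat_lit 216) (.e (nat_lit 688181) (nat_lit 17) .nil))))))) (.g (nat_lit 4) .nil .nil)))) (.nd (nat_lit 5) 
(.lf (nat_lit 202201) (.g (nat_lit 1265) (.e (nat_lit 73754) (nat_lit 8) (.e (nat_lit 557094) (nat_lit 12) (.e (nat_lit 164213) (nat_lit 176) (.e (nat_lit 2789) (nat_lit 179) (.e (nat_lit 294973) (nat_lit 28) (.e (nat_lit 434285) (nat_lit 42) (.e (nat_lit 688181) (nat_lit 17) .nil))))))) (.g (nat_lit 4) .nil .nil))) 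
(.lf (nat_lit 202233) (.g (nat_lit 2869) (.e (nat_lit 73754) (nat_lit 8) (.e (nat_lit 557094) (nat_lit 12) (.e (nat_lit 164238) (nat_lit 187) (.e (nat_lit 1661) (nat_lit 115) (.e (nat_lit 393251) (nat_lit 18) (.e (nat_lit 164160) (nat_lit 152) (.e (nat_lit 1208) (nat_lit 89) .nil))))))) (.g (nat_lit 5) .nil .nil)))))) (.nd (nat_lit 3) (.nd (nat_lit 4) (.nd (nat_lit 5) 
(.lf (nat_lit 202181) (.g (nat_lit 2610) (.e (nat_lit 73754) (nat_lit 8) (.e (nat_lit 557093) (nat_lit 12) (.e (nat_lit 164239) (nat_lit 187) (.e (nat_lit 1661) (nat_lit 115) (.e (nat_lit 393251) (nat_lit 18) (.e (nat_lit 164148) (nat_lit 152) (.e (nat_lit 1208) (nat_lit 89) .nil))))))) (.g (nat_lit 5) .nil .nil))) 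
(.lf (nat_lit 202213) (.g (nat_lit 2398) (.e (nat_lit 73754) (nat_lit 8) (.e (nat_lit 557094) (nat_lit 12) (.e (nat_lit 164238) (nat_lit 187) (.e (nat_lit 1660) (nat_lit 115) (.e (nat_lit 393253) (nat_lit 18) (.e (nat_lit 164162) (nat_lit 152) (.e (nat_lit 1210) (nat_lit 89) .nil))))))) (.g (nat_lit 5) .nil .nil)))) (.nd (nat_lit 5) 
(.lf (nat_lit 202197) (.g (nat_lit 3356) (.e (nat_lit 73754) (nat_lit 8) (.e (nat_lit 557093) (nat_lit 12) (.e (nat_lit 164239) (nat_lit 187) (.e (nat_lit 1661) (nat_lit 115) (.e (nat_lit 393252) (nat_lit 18) (.e (nat_lit 164161) (nat_lit 152) (.e (nat_lit 1208) (nat_lit 89) .nil))))))) (.g (nat_lit 6) .nil .nil))) 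
(.lf (nat_lit 202229) (.g (nat_lit 2527) (.e (nat_lit 73754) (nat_lit 8) (.e (nat_lit 557094) (nat_lit 12) (.e (nat_lit 164238) (nat_lit 187) (.e (nat_lit 1661) (nat_lit 115) (.e (nat_lit 393251) (nat_lit 18) (.e (nat_lit 164153) (nat_lit 152) (.e (nat_lit 7936) (nat_lit 89) .nil))))))) (.g (nat_lit 5) .nil .nil))))) (.nd (nat_lit 4) (.nd (nat_lit 5) 
(.lf (nat_lit 202189) (.g (nat_lit 2795) (.e (nat_lit 73754) (nat_lit 8) (.e (nat_lit 557093) (nat_lit 12) (.e (nat_lit 164239) (nat_lit 187) (.e (nat_lit 1661) (nat_lit 115) (.e (nat_lit 393251) (nat_lit 18) (.e (nat_lit 164160) (nat_lit 152) (.e (nat_lit 7936) (nat_lit 89) .nil))))))) (.g (nat_lit 5) .nil .nil))) 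
(.lf (nat_lit 202221) (.g (nat_lit 1868) (.e (nat_lit 73754) (nat_lit 8) (.e (nat_lit 557094) (nat_lit 12) (.e (nat_lit 164238) (nat_lit 187) (.e (nat_lit 1661) (nat_lit 115) (.e (nat_lit 393250) (nat_lit 18) .nil))))) .nil))) (.nd (nat_lit 5) 
(.lf (nat_lit 202205) (.g (nat_lit 2859) (.e (nat_lit 73754) (nat_lit 8) (.e (nat_lit 557094) (nat_lit 12) (.e (nat_lit 164238) (nat_lit 187) (.e (nat_lit 1428) (nat_lit 108) (.e (nat_lit 336369) (nat_lit 27) (.e (nat_lit 426109) (nat_lit 1) (.e (nat_lit 164163) (nat_lit 152) (.e (nat_lit 1210) (nat_lit 89) .nil)))))))) (.g (nat_lit 5) .nil .nil))) 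
(.lf (nat_lit 202237) (.g (nat_lit 2810) (.e (nat_lit 73754) (nat_lit 8) (.e (nat_lit 557094) (nat_lit 12) (.e (nat_lit 164238) (nat_lit 187) (.e (nat_lit 1661) (nat_lit 115) (.e (nat_lit 393251) (nat_lit 18) (.e (nat_lit 164162) (nat_lit 152) (.e (nat_lit 1210) (nat_lit 89) .nil))))))) (.g (nat_lit 5) .nil .nil))))))) (.nd (nat_lit 2) (.nd (nat_lit 3) (.nd (nat_lit 4) (.nd (nat_lit 5) 
(.lf (nat_lit 202179) (.g (nat_lit 1990) (.e (nat_lit 73754) (nat_lit 8) (.e (nat_lit 557093) (nat_lit 12) (.e (nat_lit 164239) (nat_lit 187) (.e (nat_lit 1661) (nat_lit 115) (.e (nat_lit 393251) (nat_lit 18) (.e (nat_lit 164147) (nat_lit 152) (.e (nat_lit 1211) (nat_lit 89) .nil))))))) (.g (nat_lit 4) .nil .nil))) 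
(.lf (nat_lit 202211) (.g (nat_lit 1290) (.e (nat_lit 73754) (nat_lit 8) (.e (nat_lit 557094) (nat_lit 12) (.e (nat_lit 164238) (nat_lit 187) (.e (nat_lit 1660) (nat_lit 115) (.e (nat_lit 393253) (nat_lit 18) .nil))))) .nil))) (.nd (nat_lit 5) 
(.lf (nat_lit 202195) (.g (nat_lit 1780) (.e (nat_lit 73754) (nat_lit 8) (.e (nat_lit 557093) (nat_lit 12) (.e (nat_lit 164239) (nat_lit 187) (.e (nat_lit 1661) (nat_lit 115) (.e (nat_lit 393252) (nat_lit 18) (.e (nat_lit 164159) (nat_lit 152) (.e (nat_lit 7936) (nat_lit 89) .nil))))))) (.g (nat_lit 4) .nil .nil))) 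
(.lf (nat_lit 202227) (.g (nat_lit 2309) (.e (nat_lit 73754) (nat_lit 8) (.e (nat_lit 557094) (nat_lit 12) (.e (nat_lit 164238) (nat_lit 187) (.e (nat_lit 1661) (nat_lit 115) (.e (nat_lit 393251) (nat_lit 18) (.e (nat_lit 164152) (nat_lit 152) (.e (nat_lit 1208) (nat_lit 89) .nil))))))) (.g (nat_lit 4) .nil .nil))))) (.nd (nat_lit 4) (.nd (nat_lit 5) 
(.lf (nat_lit 202187) (.g (nat_lit 2793) (.e (nat_lit 73754) (nat_lit 8) (.e (nat_lit 557093) (nat_lit 12) (.e (nat_lit 164239) (nat_lit 187) (.e (nat_lit 1661) (nat_lit 115) (.e (nat_lit 393251) (nat_lit 18) (.e (nat_lit 164156) (nat_lit 152) (.e (nat_lit 1205) (nat_lit 89) .nil))))))) (.g (nat_lit 5) .nil .nil))) 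
(.lf (nat_lit 202219) (.g (nat_lit 1890) (.e (nat_lit 73754) (nat_lit 8) (.e (nat_lit 557094) (nat_lit 12) (.e (nat_lit 164238) (nat_lit 187) (.e (nat_lit 1661) (nat_lit 115) (.e (nat_lit 393238) (nat_lit 17) (.e (nat_lit 7936) (nat_lit 216) (.e (nat_lit 688181) (nat_lit 17) .nil))))))) (.g (nat_lit 4) .nil .nil)))) (.nd (nat_lit 5) 
(.lf (nat_lit 202203) (.g (nat_lit 3403) (.e (nat_lit 73754) (nat_lit 8) (.e (nat_lit 557094) (nat_lit 12) (.e (nat_lit 164238) (nat_lit 187) (.e (nat_lit 1427) (nat_lit 108) (.e (nat_lit 336421) (nat_lit 28) (.e (nat_lit 434212) (nat_lit 18) (.e (nat_lit 6273) (nat_lit 337) (.e (nat_lit 1207) (nat_lit 89) .nil)))))))) (.g (nat_lit 5) .nil .nil))) 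
(.lf (nat_lit 202235) (.g (nat_lit 3569) (.e (nat_lit 73754) (nat_lit 8) (.e (nat_lit 557094) (nat_lit 12) (.e (nat_lit 164238) (nat_lit 187) (.e (nat_lit 1661) (nat_lit 115) (.e (nat_lit 393251) (nat_lit 18) (.e (nat_lit 164161) (nat_lit 152) (.e (nat_lit 1208) (nat_lit 89) .nil))))))) (.g (nat_lit 6) .nil .nil)))))) (.nd (nat_lit 3) (.nd (nat_lit 4) (.nd (nat_lit 5) 
(.lf (nat_lit 202183) (.g (nat_lit 2907) (.e (nat_lit 73754) (nat_lit 8) (.e (nat_lit 557093) (nat_lit 12) (.e (nat_lit 164239) (nat_lit 187) (.e (nat_lit 1661) (nat_lit 115) (.e (nat_lit 393251) (nat_lit 18) (.e (nat_lit 164149) (nat_lit 152) (.e (nat_lit 1207) (nat_lit 89) .nil))))))) (.g (nat_lit 5) .nil .nil))) 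
(.lf (nat_lit 202215) (.g (nat_lit 1772) (.e (nat_lit 73754) (nat_lit 8) (.e (nat_lit 557094) (nat_lit 12) (.e (nat_lit 164238) (nat_lit 187) (.e (nat_lit 1661) (nat_lit 115) (.e (nat_lit 393235) (nat_lit 17) (.e (nat_lit 3452) (nat_lit 216) (.e (nat_lit 688181) (nat_lit 17) .nil))))))) (.g (nat_lit 4) .nil .nil)))) (.nd (nat_lit 5) 
(.lf (nat_lit 202199) (.g (nat_lit 2633) (.e (nat_lit 73754) (nat_lit 8) (.e (nat_lit 557093) (nat_lit 12) (.e (nat_lit 164239) (nat_lit 187) (.e (nat_lit 1661) (nat_lit 115) (.e (nat_lit 393252) (nat_lit 18) (.e (nat_lit 164165) (nat_lit 152) (.e (nat_lit 1208) (nat_lit 89) .nil))))))) (.g (nat_lit 5) .nil .nil))) 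
(.lf (nat_lit 202231) (.g (nat_lit 2332) (.e (nat_lit 73754) (nat_lit 8) (.e (nat_lit 557094) (nat_lit 12) (.e (nat_lit 164238) (nat_lit 187) (.e (nat_lit 1661) (nat_lit 115) (.e (nat_lit 393251) (nat_lit 18) (.e (nat_lit 164155) (nat_lit 152) (.e (nat_lit 1213) (nat_lit 89) .nil))))))) (.g (nat_lit 4) .nil .nil))))) (.nd (nat_lit 4) (.nd (nat_lit 5) 
(.lf (nat_lit 202191) (.g (nat_lit 2118) (.e (nat_lit 73754) (nat_lit 8) (.e (nat_lit 557093) (nat_lit 12) (.e (nat_lit 164239) (nat_lit 187) (.e (nat_lit 1661) (nat_lit 115) (.e (nat_lit 393251) (nat_lit 18) (.e (nat_lit 164162) (nat_lit 152) (.e (nat_lit 1210) (nat_lit 89) .nil))))))) (.g (nat_lit 4) .nil .nil))) 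
(.lf (nat_lit 202223) (.g (nat_lit 1690) (.e (nat_lit 73754) (nat_lit 8) (.e (nat_lit 557094) (nat_lit 12) (.e (nat_lit 164238) (nat_lit 187) (.e (nat_lit 1661) (nat_lit 115) (.e (nat_lit 393251) (nat_lit 18) .nil))))) .nil))) (.nd (nat_lit 5) 
(.lf (nat_lit 202207) (.g (nat_lit 2074) (.e (nat_lit 73754) (nat_lit 8) (.e (nat_lit 557094) (nat_lit 12) (.e (nat_lit 164238) (nat_lit 187) (.e (nat_lit 1428) (nat_lit 108) (.e (nat_lit 336425) (nat_lit 28) (.e (nat_lit 434289) (nat_lit 43) (.e (nat_lit 696362) (nat_lit 17) .nil))))))) (.g (nat_lit 4) .nil .nil))) 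
(.lf (nat_lit 202239) (.g (nat_lit 1710) (.e (nat_lit 73754) (nat_lit 8) (.e (nat_lit 557094) (nat_lit 12) (.e (nat_lit 164238) (nat_lit 187) (.e (nat_lit 1661) (nat_lit 115) (.e (nat_lit 393252) (nat_lit 18) .nil))))) .nil))))))))

noncomputable def tv2669 : DT := (.nd (nat_lit 0) (.nd (nat_lit 1) (.nd (nat_lit 2) (.nd (nat_lit 3) (.nd (nat_lit 4) (.nd (nat_lit 5) 
(.lf (nat_lit 202240) (.g (nat_lit 3196) (.e (nat_lit 73754) (nat_lit 8) (.e (nat_lit 557094) (nat_lit 12) (.e (nat_lit 164238) (nat_lit 187) (.e (nat_lit 1661) (nat_lit 115) (.e (nat_lit 393252) (nat_lit 18) (.e (nat_lit 164159) (nat_lit 152) (.e (nat_lit 1208) (nat_lit 89) .nil))))))) (.g (nat_lit 5) .nil .nil))) 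
(.lf (nat_lit 202272) (.g (nat_lit 487) (.e (nat_lit 73754) (nat_lit 8) (.e (nat_lit 557100) (nat_lit 13) (.e (nat_lit 172062) (nat_lit 2) .nil))) .nil))) (.nd (nat_lit 5) 
(.lf (nat_lit 202256) (.g (nat_lit 2681) (.e (nat_lit 73754) (nat_lit 8) (.e (nat_lit 557095) (nat_lit 13) (.e (nat_lit 172133) (nat_lit 15) (.e (nat_lit 2059) (nat_lit 142) (.e (nat_lit 704596) (nat_lit 5) (.e (nat_lit 180228) (nat_lit 0) (.e (nat_lit 6270) (nat_lit 337) (.e (nat_lit 1214) (nat_lit 89) .nil)))))))) (.g (nat_lit 4) .nil .nil))) 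
(.lf (nat_lit 202288) (.g (nat_lit 3100) (.e (nat_lit 73754) (nat_lit 8) (.e (nat_lit 557100) (nat_lit 13) (.e (nat_lit 172064) (nat_lit 2) (.e (nat_lit 196661) (nat_lit 12) (.e (nat_lit 57575) (nat_lit 55) (.e (nat_lit 786176) (nat_lit 0) (.e (nat_lit 1239) (nat_lit 91) (.e (nat_lit 98048) (nat_lit 5) .nil)))))))) (.g (nat_lit 5) .nil .nil))))) (.nd (nat_lit 4) (.nd (nat_lit 5) 
(.lf (nat_lit 202248) (.g (nat_lit 2436) (.e (nat_lit 73754) (nat_lit 8) (.e (nat_lit 557094) (nat_lit 12) (.e (nat_lit 164238) (nat_lit 187) (.e (nat_lit 1661) (nat_lit 115) (.e (nat_lit 393253) (nat_lit 18) (.e (nat_lit 164149) (nat_lit 152) (.e (nat_lit 1207) (nat_lit 89) .nil))))))) (.g (nat_lit 4) .nil .nil))) 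
(.lf (nat_lit 202280) (.g (nat_lit 2659) (.e (nat_lit 73754) (nat_lit 8) (.e (nat_lit 557100) (nat_lit 13) (.e (nat_lit 172062) (nat_lit 2) (.e (nat_lit 196661) (nat_lit 12) (.e (nat_lit 57573) (nat_lit 55) (.e (nat_lit 778316) (nat_lit 3) (.e (nat_lit 57454) (nat_lit 21) (.e (nat_lit 507648) (nat_lit 19) .nil)))))))) (.g (nat_lit 4) .nil .nil)))) (.nd (nat_lit 5) 
(.lf (nat_lit 202264) (.g (nat_lit 731) (.e (nat_lit 73754) (nat_lit 8) (.e (nat_lit 557100) (nat_lit 13) (.e (nat_lit 172042) (nat_lit 0) (.e (nat_lit 3289) (nat_lit 201) .nil)))) .nil)) 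
(.lf (nat_lit 202296) (.g (nat_lit 552) (.e (nat_lit 73754) (nat_lit 8) (.e (nat_lit 557100) (nat_lit 13) (.e (nat_lit 172138) (nat_lit 15) .nil))) .nil))))) (.nd (nat_lit 3) (.nd (nat_lit 4) (.nd (nat_lit 5) 
(.lf (nat_lit 202244) (.g (nat_lit 3467) (.e (nat_lit 73754) (nat_lit 8) (.e (nat_lit 557094) (nat_lit 12) (.e (nat_lit 164238) (nat_lit 187) (.e (nat_lit 1661) (nat_lit 115) (.e (nat_lit 393252) (nat_lit 18) (.e (nat_lit 164161) (nat_lit 152) (.e (nat_lit 7936) (nat_lit 89) .nil))))))) (.g (nat_lit 6) .nil .nil))) 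
(.lf (nat_lit 202276) (.g (nat_lit 4331) (.e (nat_lit 73754) (nat_lit 8) (.e (nat_lit 557100) (nat_lit 13) (.e (nat_lit 172062) (nat_lit 2) (.e (nat_lit 196656) (nat_lit 11) (.e (nat_lit 16392) (nat_lit 0) (.e (nat_lit 3281) (nat_lit 200) (.e (nat_lit 564992) (nat_lit 5) .nil))))))) (.g (nat_lit 6) .nil .nil)))) (.nd (nat_lit 5) 
(.lf (nat_lit 202260) (.g (nat_lit 2977) (.e (nat_lit 73754) (nat_lit 8) (.e (nat_lit 557095) (nat_lit 13) (.e (nat_lit 172133) (nat_lit 15) (.e (nat_lit 2175) (nat_lit 143) (.e (nat_lit 712747) (nat_lit 28) (.e (nat_lit 434286) (nat_lit 42) (.e (nat_lit 688179) (nat_lit 17) .nil))))))) (.g (nat_lit 6) .nil .nil))) 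
(.lf (nat_lit 202292) (.g (nat_lit 1373) (.e (nat_lit 73754) (nat_lit 8) (.e (nat_lit 557100) (nat_lit 13) (.e (nat_lit 172067) (nat_lit 3) (.e (nat_lit 212736) (nat_lit 15) .nil)))) .nil)))) (.nd (nat_lit 4) (.nd (nat_lit 5) 
(.lf (nat_lit 202252) (.g (nat_lit 1094) (.e (nat_lit 73754) (nat_lit 8) (.e (nat_lit 557095) (nat_lit 13) (.e (nat_lit 172067) (nat_lit 3) (.e (nat_lit 212736) (nat_lit 9) .nil)))) .nil)) 
(.lf (nat_lit 202284) (.g (nat_lit 2959) (.e (nat_lit 73754) (nat_lit 8) (.e (nat_lit 557100) (nat_lit 13) (.e (nat_lit 172064) (nat_lit 2) (.e (nat_lit 196656) (nat_lit 11) (.e (nat_lit 16392) (nat_lit 0) (.e (nat_lit 3279) (nat_lit 200) (.e (nat_lit 564992) (nat_lit 5) .nil))))))) (.g (nat_lit 4) .nil .nil)))) (.nd (nat_lit 5) 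
(.lf (nat_lit 202268) (.g (nat_lit 2458) (.e (nat_lit 73754) (nat_lit 8) (.e (nat_lit 557100) (nat_lit 13) (.e (nat_lit 172059) (nat_lit 1) (.e (nat_lit 164327) (nat_lit 230) (.e (nat_lit 163886) (nat_lit 5) (.e (nat_lit 221208) (nat_lit 21) (.e (nat_lit 164305) (nat_lit 226) (.e (nat_lit 7936) (nat_lit 89) .nil)))))))) (.g (nat_lit 4) .nil .nil))) 
(.lf (nat_lit 202300) (.g (nat_lit 3221) (.e (nat_lit 73754) (nat_lit 8) (.e (nat_lit 557100) (nat_lit 13) (.e (nat_lit 179968) (nat_lit 20) (.e (nat_lit 114710) (nat_lit 21) (.e (nat_lit 57847) (nat_lit 252) (.e (nat_lit 57348) (nat_lit 0) (.e (nat_lit 2031) (nat_lit 140) (.e (nat_lit 688181) (nat_lit 17) .nil)))))))) (.g (nat_lit 6) .nil .nil))))))) 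
(.nd (nat_lit 2) (.nd (nat_lit 3) (.nd (nat_lit 4) (.nd (nat_lit 5) 
(.lf (nat_lit 202242) (.g (nat_lit 2228) (.e (nat_lit 73754) (nat_lit 8) (.e (nat_lit 557094) (nat_lit 12) (.e (nat_lit 164238) (nat_lit 187) (.e (nat_lit 1661) (nat_lit 115) (.e (nat_lit 393252) (nat_lit 18) (.e (nat_lit 164160) (nat_lit 152) (.e (nat_lit 1208) (nat_lit 89) .nil))))))) (.g (nat_lit 4) .nil .nil))) 
(.lf (nat_lit 202274) (.g (nat_lit 2520) (.e (nat_lit 73754) (nat_lit 8) (.e (nat_lit 557100) (nat_lit 13) (.e (nat_lit 172062) (nat_lit 2) (.e (nat_lit 196654) (nat_lit 11) (.e (nat_lit 24320) (nat_lit 17) (.e (nat_lit 98048) (nat_lit 5) .nil)))))) (.g (nat_lit 4) .nil .nil)))) (.nd (nat_lit 5) 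
(.lf (nat_lit 202258) (.g (nat_lit 2814) (.e (nat_lit 73754) (nat_lit 8) (.e (nat_lit 557095) (nat_lit 13) (.e (nat_lit 172133) (nat_lit 15) (.e (nat_lit 2175) (nat_lit 143) (.e (nat_lit 712747) (nat_lit 28) (.e (nat_lit 434209) (nat_lit 18) (.e (nat_lit 6270) (nat_lit 337) (.e (nat_lit 1207) (nat_lit 89) .nil)))))))) (.g (nat_lit 6) .nil .nil))) 
(.lf (nat_lit 202290) (.g (nat_lit 2461) (.e (nat_lit 73754) (nat_lit 8) (.e (nat_lit 557100) (nat_lit 13) (.e (nat_lit 172067) (nat_lit 3) (.e (nat_lit 204809) (nat_lit 9) (.e (nat_lit 426024) (nat_lit 0) (.e (nat_lit 3279) (nat_lit 200) (.e (nat_lit 564992) (nat_lit 5) .nil))))))) (.g (nat_lit 4) .nil .nil))))) (.nd (nat_lit 4) (.nd (nat_lit 5) 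
(.lf (nat_lit 202250) (.g (nat_lit 867) (.e (nat_lit 73754) (nat_lit 8) (.e (nat_lit 557095) (nat_lit 13) (.e (nat_lit 172064) (nat_lit 2) (.e (nat_lit 204544) (nat_lit 2) .nil)))) .nil)) 
(.lf (nat_lit 202282) (.g (nat_lit 961) (.e (nat_lit 73754) (nat_lit 8) (.e (nat_lit 557100) (nat_lit 13) (.e (nat_lit 172064) (nat_lit 2) (.e (nat_lit 204544) (nat_lit 0) .nil)))) .nil))) (.nd (nat_lit 5) 
(.lf (nat_lit 202266) (.g (nat_lit 682) (.e (nat_lit 73754) (nat_lit 8) (.e (nat_lit 557100) (nat_lit 13) (.e (nat_lit 172059) (nat_lit 1) .nil))) .nil)) 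
(.lf (nat_lit 202298) (.g (nat_lit 4263) (.e (nat_lit 73754) (nat_lit 8) (.e (nat_lit 557100) (nat_lit 13) (.e (nat_lit 172138) (nat_lit 15) (.e (nat_lit 2174) (nat_lit 143) (.e (nat_lit 712745) (nat_lit 27) (.e (nat_lit 426110) (nat_lit 1) (.e (nat_lit 164150) (nat_lit 152) (.e (nat_lit 1207) (nat_lit 89) .nil)))))))) (.g (nat_lit 5) .nil .nil)))))) 
(.nd (nat_lit 3) (.nd (nat_lit 4) (.nd (nat_lit 5) 
(.lf (nat_lit 202246) (.g (nat_lit 3159) (.e (nat_lit 73754) (nat_lit 8) (.e (nat_lit 557094) (nat_lit 12) (.e (nat_lit 164238) (nat_lit 187) (.e (nat_lit 1661) (nat_lit 115) (.e (nat_lit 393252) (nat_lit 18) (.e (nat_lit 164165) (nat_lit 152) (.e (nat_lit 1208) (nat_lit 89) .nil))))))) (.g (nat_lit 5) .nil .nil))) 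
(.lf (nat_lit 202278) (.g (nat_lit 3261) (.e (nat_lit 73754) (nat_lit 8) (.e (nat_lit 557100) (nat_lit 13) (.e (nat_lit 172062) (nat_lit 2) (.e (nat_lit 196656) (nat_lit 11) (.e (nat_lit 16397) (nat_lit 0) (.e (nat_lit 3289) (nat_lit 201) (.e (nat_lit 565268) (nat_lit 5) .nil))))))) (.g (nat_lit 4) .nil .nil)))) (.nd (nat_lit 5) 
(.lf (nat_lit 202262) (.g (nat_lit 2509) (.e (nat_lit 73754) (nat_lit 8) (.e (nat_lit 557095) (nat_lit 13) (.e (nat_lit 172133) (nat_lit 15) (.e (nat_lit 2175) (nat_lit 143) (.e (nat_lit 712749) (nat_lit 28) (.e (nat_lit 434286) (nat_lit 42) (.e (nat_lit 688179) (nat_lit 17) .nil))))))) (.g (nat_lit 5) .nil .nil))) 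
(.lf (nat_lit 202294) (.g (nat_lit 765) (.e (nat_lit 73754) (nat_lit 8) (.e (nat_lit 557100) (nat_lit 13) (.e (nat_lit 172068) (nat_lit 4) .nil))) .nil)))) (.nd (nat_lit 4) (.nd (nat_lit 5) 
(.lf (nat_lit 202254) (.g (nat_lit 3919) (.e (nat_lit 73754) (nat_lit 8) (.e (nat_lit 557095) (nat_lit 13) (.e (nat_lit 172133) (nat_lit 15) (.e (nat_lit 2059) (nat_lit 142) (.e (nat_lit 704595) (nat_lit 5) (.e (nat_lit 180229) (nat_lit 0) (.e (nat_lit 6277) (nat_lit 337) (.e (nat_lit 1214) (nat_lit 89) .nil)))))))) (.g (nat_lit 5) .nil .nil))) 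
(.lf (nat_lit 202286) (.g (nat_lit 1933) (.e (nat_lit 73754) (nat_lit 8) (.e (nat_lit 557100) (nat_lit 13) (.e (nat_lit 172064) (nat_lit 2) (.e (nat_lit 196656) (nat_lit 11) (.e (nat_lit 24320) (nat_lit 17) .nil))))) .nil))) (.nd (nat_lit 5) 
(.lf (nat_lit 202270) (.g (nat_lit 2546) (.e (nat_lit 73754) (nat_lit 8) (.e (nat_lit 557100) (nat_lit 13) (.e (nat_lit 172061) (nat_lit 1) (.e (nat_lit 164327) (nat_lit 230) (.e (nat_lit 163886) (nat_lit 5) (.e (nat_lit 221208) (nat_lit 21) (.e (nat_lit 164305) (nat_lit 226) (.e (nat_lit 7936) (nat_lit 89) .nil)))))))) (.g (nat_lit 4) .nil .nil))) 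
(.lf (nat_lit 202302) (.g (nat_lit 3245) (.e (nat_lit 73754) (nat_lit 8) (.e (nat_lit 557100) (nat_lit 13) (.e (nat_lit 179968) (nat_lit 20) (.e (nat_lit 114710) (nat_lit 21) (.e (nat_lit 57851) (nat_lit 252) (.e (nat_lit 57347) (nat_lit 0) (.e (nat_lit 2029) (nat_lit 140) (.e (nat_lit 688181) (nat_lit 17) .nil)))))))) (.g (nat_lit 6) .nil .nil)))))))) 
(.nd (nat_lit 1) (.nd (nat_lit 2) (.nd (nat_lit 3) (.nd (nat_lit 4) (.nd (nat_lit 5) 
(.lf (nat_lit 202241) (.g (nat_lit 2296) (.e (nat_lit 73754) (nat_lit 8) (.e (nat_lit 557094) (nat_lit 12) (.e (nat_lit 164238) (nat_lit 187) (.e (nat_lit 1661) (nat_lit 115) (.e (nat_lit 393252) (nat_lit 18) (.e (nat_lit 164159) (nat_lit 152) (.e (nat_lit 7936) (nat_lit 89) .nil))))))) (.g (nat_lit 4) .nil .nil))) 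
(.lf (nat_lit 202273) (.g (nat_lit 3109) (.e (nat_lit 73754) (nat_lit 8) (.e (nat_lit 557100) (nat_lit 13) (.e (nat_lit 172062) (nat_lit 2) (.e (nat_lit 196630) (nat_lit 9) (.e (nat_lit 1312) (nat_lit 98) (.e (nat_lit 155392) (nat_lit 0) (.e (nat_lit 1239) (nat_lit 91) (.e (nat_lit 98048) (nat_lit 5) .nil)))))))) (.g (nat_lit 5) .nil .nil)))) (.nd (nat_lit 5) 
(.lf (nat_lit 202257) (.g (nat_lit 1310) (.e (nat_lit 73754) (nat_lit 8) (.e (nat_lit 557095) (nat_lit 13) (.e (nat_lit 172133) (nat_lit 15) (.e (nat_lit 2175) (nat_lit 143) (.e (nat_lit 712747) (nat_lit 28) .nil))))) .nil)) 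
(.lf (nat_lit 202289) (.g (nat_lit 1349) (.e (nat_lit 73754) (nat_lit 8) (.e (nat_lit 557100) (nat_lit 13) (.e (nat_lit 172065) (nat_lit 3) (.e (nat_lit 204809) (nat_lit 9) .nil)))) .nil)))) (.nd (nat_lit 4) (.nd (nat_lit 5) 
(.lf (nat_lit 202249) (.g (nat_lit 2480) (.e (nat_lit 73754) (nat_lit 8) (.e (nat_lit 557094) (nat_lit 12) (.e (nat_lit 164238) (nat_lit 187) (.e (nat_lit 1661) (nat_lit 115) (.e (nat_lit 393253) (nat_lit 18) (.e (nat_lit 164162) (nat_lit 152) (.e (nat_lit 1210) (nat_lit 89) .nil))))))) (.g (nat_lit 4) .nil .nil))) 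
(.lf (nat_lit 202281) (.g (nat_lit 3262) (.e (nat_lit 73754) (nat_lit 8) (.e (nat_lit 557100) (nat_lit 13) (.e (nat_lit 172062) (nat_lit 2) (.e (nat_lit 196661) (nat_lit 12) (.e (nat_lit 57575) (nat_lit 55) (.e (nat_lit 786176) (nat_lit 0) (.e (nat_lit 1239) (nat_lit 91) (.e (nat_lit 98048) (nat_lit 5) .nil)))))))) (.g (nat_lit 5) .nil .nil)))) (.nd (nat_lit 5) 
(.lf (nat_lit 202265) (.g (nat_lit 551) (.e (nat_lit 73754) (nat_lit 8) (.e (nat_lit 557100) (nat_lit 13) (.e (nat_lit 172049) (nat_lit 0) .nil))) .nil)) 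
(.lf (nat_lit 202297) (.g (nat_lit 3092) (.e (nat_lit 73754) (nat_lit 8) (.e (nat_lit 557100) (nat_lit 13) (.e (nat_lit 172138) (nat_lit 15) (.e (nat_lit 2059) (nat_lit 142) (.e (nat_lit 704595) (nat_lit 5) (.e (nat_lit 180229) (nat_lit 0) (.e (nat_lit 6270) (nat_lit 337) (.e (nat_lit 1207) (nat_lit 89) .nil)))))))) (.g (nat_lit 4) .nil .nil)))))) 
(.nd (nat_lit 3) (.nd (nat_lit 4) (.nd (nat_lit 5) 
(.lf (nat_lit 202245) (.g (nat_lit 2775) (.e (nat_lit 73754) (nat_lit 8) (.e (nat_lit 557094) (nat_lit 12) (.e (nat_lit 164238) (nat_lit 187) (.e (nat_lit 1661) (nat_lit 115) (.e (nat_lit 393252) (nat_lit 18) (.e (nat_lit 164164) (nat_lit 152) (.e (nat_lit 1208) (nat_lit 89) .nil))))))) (.g (nat_lit 5) .nil .nil))) 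
(.lf (nat_lit 202277) (.g (nat_lit 2889) (.e (nat_lit 73754) (nat_lit 8) (.e (nat_lit 557100) (nat_lit 13) (.e (nat_lit 172062) (nat_lit 2) (.e (nat_lit 196656) (nat_lit 11) (.e (nat_lit 16392) (nat_lit 0) (.e (nat_lit 3282) (nat_lit 200) (.e (nat_lit 564992) (nat_lit 5) .nil))))))) (.g (nat_lit 4) .nil .nil)))) (.nd (nat_lit 5) 
(.lf (nat_lit 202261) (.g (nat_lit 1346) (.e (nat_lit 73754) (nat_lit 8) (.e (nat_lit 557095) (nat_lit 13) (.e (nat_lit 172133) (nat_lit 15) (.e (nat_lit 2175) (nat_lit 143) (.e (nat_lit 712749) (nat_lit 28) .nil))))) .nil)) 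
(.lf (nat_lit 202293) (.g (nat_lit 1819) (.e (nat_lit 73754) (nat_lit 8) (.e (nat_lit 557100) (nat_lit 13) (.e (nat_lit 172067) (nat_lit 3) (.e (nat_lit 204821) (nat_lit 17) (.e (nat_lit 2334) (nat_lit 151) .nil))))) .nil)))) (.nd (nat_lit 4) (.nd (nat_lit 5) 
(.lf (nat_lit 202253) (.g (nat_lit 2136) (.e (nat_lit 73754) (nat_lit 8) (.e (nat_lit 557095) (nat_lit 13) (.e (nat_lit 172133) (nat_lit 15) (.e (nat_lit 2059) (nat_lit 142) (.e (nat_lit 704595) (nat_lit 5) .nil))))) .nil)) 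
(.lf (nat_lit 202285) (.g (nat_lit 3304) (.e (nat_lit 73754) (nat_lit 8) (.e (nat_lit 557100) (nat_lit 13) (.e (nat_lit 172064) (nat_lit 2) (.e (nat_lit 196656) (nat_lit 11) (.e (nat_lit 16392) (nat_lit 0) (.e (nat_lit 3281) (nat_lit 200) (.e (nat_lit 564992) (nat_lit 5) .nil))))))) (.g (nat_lit 5) .nil .nil)))) (.nd (nat_lit 5) 
(.lf (nat_lit 202269) (.g (nat_lit 2450) (.e (nat_lit 73754) (nat_lit 8) (.e (nat_lit 557100) (nat_lit 13) (.e (nat_lit 172059) (nat_lit 1) (.e (nat_lit 164332) (nat_lit 230) (.e (nat_lit 163885) (nat_lit 5) (.e (nat_lit 221208) (nat_lit 21) (.e (nat_lit 164305) (nat_lit 226) (.e (nat_lit 7936) (nat_lit 89) .nil)))))))) (.g (nat_lit 4) .nil .nil))) 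
(.lf (nat_lit 202301) (.g (nat_lit 2852) (.e (nat_lit 73754) (nat_lit 8) (.e (nat_lit 557100) (nat_lit 13) (.e (nat_lit 179968) (nat_lit 20) (.e (nat_lit 114710) (nat_lit 21) (.e (nat_lit 57847) (nat_lit 252) (.e (nat_lit 57365) (nat_lit 1) (.e (nat_lit 57729) (nat_lit 181) (.e (nat_lit 1210) (nat_lit 89) .nil)))))))) (.g (nat_lit 6) .nil .nil))))))) 
(.nd (nat_lit 2) (.nd (nat_lit 3) (.nd (nat_lit 4) (.nd (nat_lit 5) 
(.lf (nat_lit 202243) (.g (nat_lit 3670) (.e (nat_lit 73754) (nat_lit 8) (.e (nat_lit 557094) (nat_lit 12) (.e (nat_lit 164238) (nat_lit 187) (.e (nat_lit 1661) (nat_lit 115) (.e (nat_lit 393252) (nat_lit 18) (.e (nat_lit 164161) (nat_lit 152) (.e (nat_lit 1208) (nat_lit 89) .nil))))))) (.g (nat_lit 6) .nil .nil))) 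
(.lf (nat_lit 202275) (.g (nat_lit 3973) (.e (nat_lit 73754) (nat_lit 8) (.e (nat_lit 557100) (nat_lit 13) (.e (nat_lit 172062) (nat_lit 2) (.e (nat_lit 196656) (nat_lit 11) (.e (nat_lit 16392) (nat_lit 0) (.e (nat_lit 3279) (nat_lit 200) (.e (nat_lit 564992) (nat_lit 5) .nil))))))) (.g (nat_lit 5) .nil .nil)))) (.nd (nat_lit 5) 
(.lf (nat_lit 202259) (.g (nat_lit 3021) (.e (nat_lit 73754) (nat_lit 8) (.e (nat_lit 557095) (nat_lit 13) (.e (nat_lit 172133) (nat_lit 15) (.e (nat_lit 2175) (nat_lit 143) (.e (nat_lit 712747) (nat_lit 28) (.e (nat_lit 434209) (nat_lit 18) (.e (nat_lit 6272) (nat_lit 337) (.e (nat_lit 1207) (nat_lit 89) .nil)))))))) (.g (nat_lit 6) .nil .nil))) 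
(.lf (nat_lit 202291) (.g (nat_lit 2742) (.e (nat_lit 73754) (nat_lit 8) (.e (nat_lit 557100) (nat_lit 13) (.e (nat_lit 172067) (nat_lit 3) (.e (nat_lit 204809) (nat_lit 9) (.e (nat_lit 433920) (nat_lit 17) (.e (nat_lit 98048) (nat_lit 5) .nil)))))) (.g (nat_lit 4) .nil .nil))))) (.nd (nat_lit 4) (.nd (nat_lit 5) 
(.lf (nat_lit 202251) (.g (nat_lit 1578) (.e (nat_lit 73754) (nat_lit 8) (.e (nat_lit 557095) (nat_lit 13) (.e (nat_lit 172067) (nat_lit 3) (.e (nat_lit 204809) (nat_lit 9) .nil)))) .nil)) 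
(.lf (nat_lit 202283) (.g (nat_lit 1865) (.e (nat_lit 73754) (nat_lit 8) (.e (nat_lit 557100) (nat_lit 13) (.e (nat_lit 172064) (nat_lit 2) (.e (nat_lit 196630) (nat_lit 9) (.e (nat_lit 1312) (nat_lit 98) .nil))))) .nil))) (.nd (nat_lit 5) 
(.lf (nat_lit 202267) (.g (nat_lit 2017) (.e (nat_lit 73754) (nat_lit 8) (.e (nat_lit 557100) (nat_lit 13) (.e (nat_lit 172059) (nat_lit 1) (.e (nat_lit 164327) (nat_lit 230) (.e (nat_lit 163886) (nat_lit 5) .nil))))) .nil)) 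
(.lf (nat_lit 202299) (.g (nat_lit 3888) (.e (nat_lit 73754) (nat_lit 8) (.e (nat_lit 557100) (nat_lit 13) (.e (nat_lit 172138) (nat_lit 15) (.e (nat_lit 2175) (nat_lit 143) (.e (nat_lit 712747) (nat_lit 28) (.e (nat_lit 434209) (nat_lit 18) (.e (nat_lit 6272) (nat_lit 337) (.e (nat_lit 1207) (nat_lit 89) .nil)))))))) (.g (nat_lit 6) .nil .nil)))))) 
(.nd (nat_lit 3) (.nd (nat_lit 4) (.nd (nat_lit 5) 
(.lf (nat_lit 202247) (.g (nat_lit 3104) (.e (nat_lit 73754) (nat_lit 8) (.e (nat_lit 557094) (nat_lit 12) (.e (nat_lit 164238) (nat_lit 187) (.e (nat_lit 1661) (nat_lit 115) (.e (nat_lit 393252) (nat_lit 18) (.e (nat_lit 164167) (nat_lit 152) (.e (nat_lit 1208) (nat_lit 89) .nil))))))) (.g (nat_lit 5) .nil .nil))) 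
(.lf (nat_lit 202279) (.g (nat_lit 2894) (.e (nat_lit 73754) (nat_lit 8) (.e (nat_lit 557100) (nat_lit 13) (.e (nat_lit 172062) (nat_lit 2) (.e (nat_lit 196656) (nat_lit 11) (.e (nat_lit 24320) (nat_lit 17) (.e (nat_lit 98048) (nat_lit 5) .nil)))))) (.g (nat_lit 4) .nil .nil)))) (.nd (nat_lit 5) 
(.lf (nat_lit 202263) (.g (nat_lit 397) (.e (nat_lit 73754) (nat_lit 8) (.e (nat_lit 557100) (nat_lit 13) (.e (nat_lit 172042) (nat_lit 0) .nil))) .nil)) 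
(.lf (nat_lit 202295) (.g (nat_lit 755) (.e (nat_lit 73754) (nat_lit 8) (.e (nat_lit 557100) (nat_lit 13) (.e (nat_lit 172070) (nat_lit 4) .nil))) .nil)))) (.nd (nat_lit 4) (.nd (nat_lit 5) 
(.lf (nat_lit 202255) (.g (nat_lit 3184) (.e (nat_lit 73754) (nat_lit 8) (.e (nat_lit 557095) (nat_lit 13) (.e (nat_lit 172133) (nat_lit 15) (.e (nat_lit 2059) (nat_lit 142) (.e (nat_lit 704596) (nat_lit 5) (.e (nat_lit 180228) (nat_lit 0) (.e (nat_lit 6270) (nat_lit 337) (.e (nat_lit 1207) (nat_lit 89) .nil)))))))) (.g (nat_lit 5) .nil .nil))) 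
(.lf (nat_lit 202287) (.g (nat_lit 2547) (.e (nat_lit 73754) (nat_lit 8) (.e (nat_lit 557100) (nat_lit 13) (.e (nat_lit 172064) (nat_lit 2) (.e (nat_lit 196661) (nat_lit 12) (.e (nat_lit 57573) (nat_lit 55) (.e (nat_lit 778316) (nat_lit 3) (.e (nat_lit 57454) (nat_lit 21) (.e (nat_lit 507648) (nat_lit 19) .nil)))))))) (.g (nat_lit 5) .nil .nil)))) (.nd (nat_lit 5) 
(.lf (nat_lit 202271) (.g (nat_lit 2198) (.e (nat_lit 73754) (nat_lit 8) (.e (nat_lit 557100) (nat_lit 13) (.e (nat_lit 172061) (nat_lit 1) (.e (nat_lit 164327) (nat_lit 230) (.e (nat_lit 163886) (nat_lit 5) (.e (nat_lit 221208) (nat_lit 21) (.e (nat_lit 164312) (nat_lit 226) (.e (nat_lit 7936) (nat_lit 89) .nil)))))))) (.g (nat_lit 4) .nil .nil))) 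
(.lf (nat_lit 202303) (.g (nat_lit 3664) (.e (nat_lit 73754) (nat_lit 8) (.e (nat_lit 557100) (nat_lit 13) (.e (nat_lit 179968) (nat_lit 20) (.e (nat_lit 114710) (nat_lit 21) (.e (nat_lit 57851) (nat_lit 252) (.e (nat_lit 57347) (nat_lit 0) (.e (nat_lit 2031) (nat_lit 140) (.e (nat_lit 688182) (nat_lit 17) .nil)))))))) (.g (nat_lit 6) .nil .nil)))))))))

noncomputable def tv2670 : DT := (.nd (nat_lit 0) (.nd (nat_lit 1) (.nd (nat_lit 2) (.nd (nat_lit 3) (.nd (nat_lit 4) (.nd (nat_lit 5) 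
(.lf (nat_lit 202304) (.g (nat_lit 3517) (.e (nat_lit 73754) (nat_lit 8) (.e (nat_lit 557100) (nat_lit 13) (.e (nat_lit 179968) (nat_lit 20) (.e (nat_lit 114711) (nat_lit 21) (.e (nat_lit 57847) (nat_lit 252) (.e (nat_lit 57348) (nat_lit 0) (.e (nat_lit 2031) (nat_lit 140) (.e (nat_lit 688181) (nat_lit 17) .nil)))))))) (.g (nat_lit 6) .nil .nil))) 
(.lf (nat_lit 202336) (.g (nat_lit 3094) (.e (nat_lit 73754) (nat_lit 8) (.e (nat_lit 557101) (nat_lit 13) (.e (nat_lit 172064) (nat_lit 2) (.e (nat_lit 196661) (nat_lit 12) (.e (nat_lit 57575) (nat_lit 55) (.e (nat_lit 786176) (nat_lit 0) (.e (nat_lit 1239) (nat_lit 91) (.e (nat_lit 98048) (nat_lit 5) .nil)))))))) (.g (nat_lit 5) .nil .nil)))) (.nd (nat_lit 5) 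
(.lf (nat_lit 202320) (.g (nat_lit 2578) (.e (nat_lit 73754) (nat_lit 8) (.e (nat_lit 557101) (nat_lit 13) (.e (nat_lit 172062) (nat_lit 2) (.e (nat_lit 196656) (nat_lit 11) (.e (nat_lit 16392) (nat_lit 0) (.e (nat_lit 3279) (nat_lit 200) (.e (nat_lit 564992) (nat_lit 5) .nil))))))) (.g (nat_lit 5) .nil .nil))) 
(.lf (nat_lit 202352) (.g (nat_lit 1733) (.e (nat_lit 73754) (nat_lit 8) (.e (nat_lit 557101) (nat_lit 13) (.e (nat_lit 172067) (nat_lit 3) (.e (nat_lit 204842) (nat_lit 22) .nil)))) .nil)))) (.nd (nat_lit 4) (.nd (nat_lit 5) 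
(.lf (nat_lit 202312) (.g (nat_lit 1782) (.e (nat_lit 73754) (nat_lit 8) (.e (nat_lit 557101) (nat_lit 13) (.e (nat_lit 172061) (nat_lit 1) (.e (nat_lit 164326) (nat_lit 230) (.e (nat_lit 163886) (nat_lit 5) (.e (nat_lit 221208) (nat_lit 21) (.e (nat_lit 164305) (nat_lit 226) (.e (nat_lit 7936) (nat_lit 89) .nil)))))))) (.g (nat_lit 4) .nil .nil))) 
(.lf (nat_lit 202344) (.g (nat_lit 1759) (.e (nat_lit 73754) (nat_lit 8) (.e (nat_lit 557101) (nat_lit 13) (.e (nat_lit 172066) (nat_lit 3) (.e (nat_lit 204842) (nat_lit 22) (.e (nat_lit 147461) (nat_lit 0) (.e (nat_lit 1235) (nat_lit 91) (.e (nat_lit 98048) (nat_lit 5) .nil))))))) (.g (nat_lit 4) .nil .nil)))) (.nd (nat_lit 5) 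
(.lf (nat_lit 202328) (.g (nat_lit 958) (.e (nat_lit 73754) (nat_lit 8) (.e (nat_lit 557101) (nat_lit 13) (.e (nat_lit 172064) (nat_lit 2) (.e (nat_lit 204544) (nat_lit 2) .nil)))) .nil)) 
(.lf (nat_lit 202360) (.g (nat_lit 2023) (.e (nat_lit 73754) (nat_lit 8) (.e (nat_lit 557101) (nat_lit 13) (.e (nat_lit 179968) (nat_lit 20) (.e (nat_lit 114710) (nat_lit 21) (.e (nat_lit 57847) (nat_lit 252) (.e (nat_lit 57365) (nat_lit 1) (.e (nat_lit 57731) (nat_lit 181) (.e (nat_lit 1210) (nat_lit 89) .nil)))))))) (.g (nat_lit 6) .nil .nil)))))) 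
(.nd (nat_lit 3) (.nd (nat_lit 4) (.nd (nat_lit 5) 
(.lf (nat_lit 202308) (.g (nat_lit 2544) (.e (nat_lit 73754) (nat_lit 8) (.e (nat_lit 557100) (nat_lit 13) (.e (nat_lit 179968) (nat_lit 20) (.e (nat_lit 114712) (nat_lit 21) (.e (nat_lit 57851) (nat_lit 252) (.e (nat_lit 57347) (nat_lit 0) (.e (nat_lit 2032) (nat_lit 140) (.e (nat_lit 688182) (nat_lit 17) .nil)))))))) (.g (nat_lit 5) .nil .nil))) 
(.lf (nat_lit 202340) (.g (nat_lit 1082) (.e (nat_lit 73754) (nat_lit 8) (.e (nat_lit 557101) (nat_lit 13) (.e (nat_lit 172066) (nat_lit 3) (.e (nat_lit 204811) (nat_lit 9) (.e (nat_lit 426431) (nat_lit 17) .nil))))) .nil))) (.nd (nat_lit 5) 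
(.lf (nat_lit 202324) (.g (nat_lit 3130) (.e (nat_lit 73754) (nat_lit 8) (.e (nat_lit 557101) (nat_lit 13) (.e (nat_lit 172063) (nat_lit 2) (.e (nat_lit 196656) (nat_lit 11) (.e (nat_lit 16392) (nat_lit 0) (.e (nat_lit 3281) (nat_lit 200) (.e (nat_lit 564992) (nat_lit 5) .nil))))))) (.g (nat_lit 6) .nil .nil))) 
(.lf (nat_lit 202356) (.g (nat_lit 2924) (.e (nat_lit 73754) (nat_lit 8) (.e (nat_lit 557101) (nat_lit 13) (.e (nat_lit 172070) (nat_lit 4) (.e (nat_lit 229680) (nat_lit 244) (.e (nat_lit 163926) (nat_lit 16) (.e (nat_lit 458774) (nat_lit 18) (.e (nat_lit 6272) (nat_lit 337) (.e (nat_lit 1207) (nat_lit 89) .nil)))))))) (.g (nat_lit 6) .nil .nil))))) (.nd (nat_lit 4) (.nd (nat_lit 5) 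
(.lf (nat_lit 202316) (.g (nat_lit 1764) (.e (nat_lit 73754) (nat_lit 8) (.e (nat_lit 557101) (nat_lit 13) (.e (nat_lit 172061) (nat_lit 1) (.e (nat_lit 164327) (nat_lit 230) (.e (nat_lit 163886) (nat_lit 5) (.e (nat_lit 221208) (nat_lit 21) (.e (nat_lit 164307) (nat_lit 226) (.e (nat_lit 7936) (nat_lit 89) .nil)))))))) (.g (nat_lit 4) .nil .nil))) 
(.lf (nat_lit 202348) (.g (nat_lit 2121) (.e (nat_lit 73754) (nat_lit 8) (.e (nat_lit 557101) (nat_lit 13) (.e (nat_lit 172067) (nat_lit 3) (.e (nat_lit 204809) (nat_lit 9) (.e (nat_lit 433920) (nat_lit 22) .nil))))) .nil))) (.nd (nat_lit 5) 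
(.lf (nat_lit 202332) (.g (nat_lit 3305) (.e (nat_lit 73754) (nat_lit 8) (.e (nat_lit 557101) (nat_lit 13) (.e (nat_lit 172064) (nat_lit 2) (.e (nat_lit 196656) (nat_lit 11) (.e (nat_lit 16392) (nat_lit 0) (.e (nat_lit 3281) (nat_lit 200) (.e (nat_lit 564992) (nat_lit 5) .nil))))))) (.g (nat_lit 5) .nil .nil))) 
(.lf (nat_lit 202364) (.g (nat_lit 3184) (.e (nat_lit 73754) (nat_lit 8) (.e (nat_lit 557101) (nat_lit 13) (.e (nat_lit 179968) (nat_lit 20) (.e (nat_lit 114711) (nat_lit 21) (.e (nat_lit 57847) (nat_lit 252) (.e (nat_lit 57348) (nat_lit 0) (.e (nat_lit 2031) (nat_lit 140) (.e (nat_lit 688182) (nat_lit 17) .nil)))))))) (.g (nat_lit 7) .nil .nil))))))) 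
(.nd (nat_lit 2) (.nd (nat_lit 3) (.nd (nat_lit 4) (.nd (nat_lit 5) 
(.lf (nat_lit 202306) (.g (nat_lit 3144) (.e (nat_lit 73754) (nat_lit 8) (.e (nat_lit 557100) (nat_lit 13) (.e (nat_lit 179968) (nat_lit 20) (.e (nat_lit 114711) (nat_lit 21) (.e (nat_lit 57847) (nat_lit 252) (.e (nat_lit 57365) (nat_lit 1) (.e (nat_lit 57729) (nat_lit 181) (.e (nat_lit 1210) (nat_lit 89) .nil)))))))) (.g (nat_lit 6) .nil .nil))) 
(.lf (nat_lit 202338) (.g (nat_lit 1517) (.e (nat_lit 73754) (nat_lit 8) (.e (nat_lit 557101) (nat_lit 13) (.e (nat_lit 172066) (nat_lit 3) (.e (nat_lit 204809) (nat_lit 9) (.e (nat_lit 426024) (nat_lit 0) .nil))))) .nil))) (.nd (nat_lit 5) 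
(.lf (nat_lit 202322) (.g (nat_lit 1615) (.e (nat_lit 73754) (nat_lit 8) (.e (nat_lit 557101) (nat_lit 13) (.e (nat_lit 172062) (nat_lit 2) (.e (nat_lit 196656) (nat_lit 11) (.e (nat_lit 24320) (nat_lit 17) .nil))))) .nil)) 
(.lf (nat_lit 202354) (.g (nat_lit 3007) (.e (nat_lit 73754) (nat_lit 8) (.e (nat_lit 557101) (nat_lit 13) (.e (nat_lit 172070) (nat_lit 4) (.e (nat_lit 229663) (nat_lit 240) (.e (nat_lit 2643) (nat_lit 165) (.e (nat_lit 180228) (nat_lit 0) (.e (nat_lit 6270) (nat_lit 337) (.e (nat_lit 1207) (nat_lit 89) .nil)))))))) (.g (nat_lit 5) .nil .nil))))) (.nd (nat_lit 4) (.nd (nat_lit 5) 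
(.lf (nat_lit 202314) (.g (nat_lit 2389) (.e (nat_lit 73754) (nat_lit 8) (.e (nat_lit 557101) (nat_lit 13) (.e (nat_lit 172061) (nat_lit 1) (.e (nat_lit 164327) (nat_lit 230) (.e (nat_lit 163886) (nat_lit 5) (.e (nat_lit 221207) (nat_lit 21) (.e (nat_lit 164297) (nat_lit 226) (.e (nat_lit 1207) (nat_lit 89) .nil)))))))) (.g (nat_lit 4) .nil .nil))) 
(.lf (nat_lit 202346) (.g (nat_lit 1152) (.e (nat_lit 73754) (nat_lit 8) (.e (nat_lit 557101) (nat_lit 13) (.e (nat_lit 172067) (nat_lit 3) (.e (nat_lit 212736) (nat_lit 7) .nil)))) .nil))) (.nd (nat_lit 5) 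
(.lf (nat_lit 202330) (.g (nat_lit 1902) (.e (nat_lit 73754) (nat_lit 8) (.e (nat_lit 557101) (nat_lit 13) (.e (nat_lit 172064) (nat_lit 2) (.e (nat_lit 196630) (nat_lit 9) (.e (nat_lit 1312) (nat_lit 98) .nil))))) .nil)) 
(.lf (nat_lit 202362) (.g (nat_lit 2402) (.e (nat_lit 73754) (nat_lit 8) (.e (nat_lit 557101) (nat_lit 13) (.e (nat_lit 179968) (nat_lit 20) (.e (nat_lit 114710) (nat_lit 21) (.e (nat_lit 57851) (nat_lit 252) (.e (nat_lit 57347) (nat_lit 0) (.e (nat_lit 2032) (nat_lit 140) (.e (nat_lit 688182) (nat_lit 17) .nil)))))))) (.g (nat_lit 6) .nil .nil)))))) 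
(.nd (nat_lit 3) (.nd (nat_lit 4) (.nd (nat_lit 5) 
(.lf (nat_lit 202310) (.g (nat_lit 2379) (.e (nat_lit 73754) (nat_lit 8) (.e (nat_lit 557101) (nat_lit 13) (.e (nat_lit 172051) (nat_lit 0) (.e (nat_lit 3409) (nat_lit 212) (.e (nat_lit 655378) (nat_lit 4) (.e (nat_lit 172061) (nat_lit 1) (.e (nat_lit 164150) (nat_lit 152) (.e (nat_lit 1207) (nat_lit 89) .nil)))))))) (.g (nat_lit 5) .nil .nil))) 
(.lf (nat_lit 202342) (.g (nat_lit 1877) (.e (nat_lit 73754) (nat_lit 8) (.e (nat_lit 557101) (nat_lit 13) (.e (nat_lit 172066) (nat_lit 3) (.e (nat_lit 204819) (nat_lit 17) (.e (nat_lit 2357) (nat_lit 152) (.e (nat_lit 786455) (nat_lit 17) (.e (nat_lit 98048) (nat_lit 5) .nil))))))) (.g (nat_lit 4) .nil .nil)))) (.nd (nat_lit 5) 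
(.lf (nat_lit 202326) (.g (nat_lit 1789) (.e (nat_lit 73754) (nat_lit 8) (.e (nat_lit 557101) (nat_lit 13) (.e (nat_lit 172063) (nat_lit 2) (.e (nat_lit 196656) (nat_lit 11) (.e (nat_lit 24320) (nat_lit 17) (.e (nat_lit 98048) (nat_lit 5) .nil)))))) (.g (nat_lit 4) .nil .nil))) 
(.lf (nat_lit 202358) (.g (nat_lit 2273) (.e (nat_lit 73754) (nat_lit 8) (.e (nat_lit 557101) (nat_lit 13) (.e (nat_lit 172136) (nat_lit 15) (.e (nat_lit 2174) (nat_lit 143) (.e (nat_lit 712745) (nat_lit 27) (.e (nat_lit 425984) (nat_lit 0) (.e (nat_lit 3453) (nat_lit 216) (.e (nat_lit 688182) (nat_lit 17) .nil)))))))) (.g (nat_lit 5) .nil .nil))))) (.nd (nat_lit 4) (.nd (nat_lit 5) 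
(.lf (nat_lit 202318) (.g (nat_lit 1645) (.e (nat_lit 73754) (nat_lit 8) (.e (nat_lit 557101) (nat_lit 13) (.e (nat_lit 172062) (nat_lit 2) (.e (nat_lit 196630) (nat_lit 9) (.e (nat_lit 1312) (nat_lit 98) (.e (nat_lit 155392) (nat_lit 0) (.e (nat_lit 1239) (nat_lit 91) (.e (nat_lit 98048) (nat_lit 5) .nil)))))))) (.g (nat_lit 4) .nil .nil))) 
(.lf (nat_lit 202350) (.g (nat_lit 1266) (.e (nat_lit 73754) (nat_lit 8) (.e (nat_lit 557101) (nat_lit 13) (.e (nat_lit 172067) (nat_lit 3) (.e (nat_lit 204821) (nat_lit 17) .nil)))) .nil))) (.nd (nat_lit 5) 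
(.lf (nat_lit 202334) (.g (nat_lit 2541) (.e (nat_lit 73754) (nat_lit 8) (.e (nat_lit 557101) (nat_lit 13) (.e (nat_lit 172064) (nat_lit 2) (.e (nat_lit 196661) (nat_lit 12) (.e (nat_lit 57573) (nat_lit 55) (.e (nat_lit 778316) (nat_lit 3) (.e (nat_lit 57454) (nat_lit 21) (.e (nat_lit 507648) (nat_lit 19) .nil)))))))) (.g (nat_lit 7) .nil .nil))) 
(.lf (nat_lit 202366) (.g (nat_lit 617) (.e (nat_lit 73754) (nat_lit 8) (.e (nat_lit 557103) (nat_lit 14) (.e (nat_lit 180229) (nat_lit 0) .nil))) .nil))))))) (.nd (nat_lit 1) (.nd (nat_lit 2) (.nd (nat_lit 3) (.nd (nat_lit 4) (.nd (nat_lit 5) 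
(.lf (nat_lit 202305) (.g (nat_lit 2892) (.e (nat_lit 73754) (nat_lit 8) (.e (nat_lit 557100) (nat_lit 13) (.e (nat_lit 179968) (nat_lit 20) (.e (nat_lit 114711) (nat_lit 21) (.e (nat_lit 57847) (nat_lit 252) (.e (nat_lit 57348) (nat_lit 0) (.e (nat_lit 2032) (nat_lit 140) (.e (nat_lit 688182) (nat_lit 17) .nil)))))))) (.g (nat_lit 5) .nil .nil))) 
(.lf (nat_lit 202337) (.g (nat_lit 1713) (.e (nat_lit 73754) (nat_lit 8) (.e (nat_lit 557101) (nat_lit 13) (.e (nat_lit 172065) (nat_lit 3) (.e (nat_lit 204809) (nat_lit 9) (.e (nat_lit 433920) (nat_lit 17) .nil))))) .nil))) (.nd (nat_lit 5) 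
(.lf (nat_lit 202321) (.g (nat_lit 2936) (.e (nat_lit 73754) (nat_lit 8) (.e (nat_lit 557101) (nat_lit 13) (.e (nat_lit 172062) (nat_lit 2) (.e (nat_lit 196656) (nat_lit 11) (.e (nat_lit 16392) (nat_lit 0) (.e (nat_lit 3281) (nat_lit 200) (.e (nat_lit 564992) (nat_lit 5) .nil))))))) (.g (nat_lit 5) .nil .nil))) 
(.lf (nat_lit 202353) (.g (nat_lit 291) (.e (nat_lit 73754) (nat_lit 8) (.e (nat_lit 557101) (nat_lit 13) (.e (nat_lit 172070) (nat_lit 4) .nil))) .nil)))) (.nd (nat_lit 4) (.nd (nat_lit 5) 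
(.lf (nat_lit 202313) (.g (nat_lit 1688) (.e (nat_lit 73754) (nat_lit 8) (.e (nat_lit 557101) (nat_lit 13) (.e (nat_lit 172061) (nat_lit 1) (.e (nat_lit 164327) (nat_lit 230) (.e (nat_lit 163886) (nat_lit 5) .nil))))) .nil)) 
(.lf (nat_lit 202345) (.g (nat_lit 1757) (.e (nat_lit 73754) (nat_lit 8) (.e (nat_lit 557101) (nat_lit 13) (.e (nat_lit 172066) (nat_lit 3) (.e (nat_lit 204842) (nat_lit 22) (.e (nat_lit 155392) (nat_lit 0) (.e (nat_lit 1239) (nat_lit 91) (.e (nat_lit 98048) (nat_lit 5) .nil))))))) (.g (nat_lit 4) .nil .nil)))) (.nd (nat_lit 5) 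
(.lf (nat_lit 202329) (.g (nat_lit 1409) (.e (nat_lit 73754) (nat_lit 8) (.e (nat_lit 557101) (nat_lit 13) (.e (nat_lit 172064) (nat_lit 2) (.e (nat_lit 196628) (nat_lit 9) (.e (nat_lit 419) (nat_lit 32) .nil))))) .nil)) 
(.lf (nat_lit 202361) (.g (nat_lit 2650) (.e (nat_lit 73754) (nat_lit 8) (.e (nat_lit 557101) (nat_lit 13) (.e (nat_lit 179968) (nat_lit 20) (.e (nat_lit 114710) (nat_lit 21) (.e (nat_lit 57851) (nat_lit 252) (.e (nat_lit 57347) (nat_lit 0) (.e (nat_lit 2029) (nat_lit 140) (.e (nat_lit 688181) (nat_lit 17) .nil)))))))) (.g (nat_lit 6) .nil .nil)))))) 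
(.nd (nat_lit 3) (.nd (nat_lit 4) (.nd (nat_lit 5) 
(.lf (nat_lit 202309) (.g (nat_lit 1494) (.e (nat_lit 73754) (nat_lit 8) (.e (nat_lit 557101) (nat_lit 13) (.e (nat_lit 172051) (nat_lit 0) (.e (nat_lit 3205) (nat_lit 194) (.e (nat_lit 507939) (nat_lit 12) (.e (nat_lit 48896) (nat_lit 0) (.e (nat_lit 1239) (nat_lit 91) (.e (nat_lit 98048) (nat_lit 5) .nil)))))))) (.g (nat_lit 5) .nil .nil))) 
(.lf (nat_lit 202341) (.g (nat_lit 2045) (.e (nat_lit 73754) (nat_lit 8) (.e (nat_lit 557101) (nat_lit 13) (.e (nat_lit 172066) (nat_lit 3) (.e (nat_lit 204819) (nat_lit 17) (.e (nat_lit 2355) (nat_lit 152) (.e (nat_lit 786455) (nat_lit 17) (.e (nat_lit 98048) (nat_lit 5) .nil))))))) (.g (nat_lit 4) .nil .nil)))) (.nd (nat_lit 5) 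
(.lf (nat_lit 202325) (.g (nat_lit 2692) (.e (nat_lit 73754) (nat_lit 8) (.e (nat_lit 557101) (nat_lit 13) (.e (nat_lit 172063) (nat_lit 2) (.e (nat_lit 196656) (nat_lit 11) (.e (nat_lit 16397) (nat_lit 0) (.e (nat_lit 3289) (nat_lit 201) (.e (nat_lit 565268) (nat_lit 5) .nil))))))) (.g (nat_lit 4) .nil .nil))) 
(.lf (nat_lit 202357) (.g (nat_lit 2532) (.e (nat_lit 73754) (nat_lit 8) (.e (nat_lit 557101) (nat_lit 13) (.e (nat_lit 172070) (nat_lit 4) (.e (nat_lit 229681) (nat_lit 244) (.e (nat_lit 163905) (nat_lit 12) (.e (nat_lit 426112) (nat_lit 1) (.e (nat_lit 164150) (nat_lit 152) (.e (nat_lit 1207) (nat_lit 89) .nil)))))))) (.g (nat_lit 5) .nil .nil))))) (.nd (nat_lit 4) (.nd (nat_lit 5) 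
(.lf (nat_lit 202317) (.g (nat_lit 2300) (.e (nat_lit 73754) (nat_lit 8) (.e (nat_lit 557101) (nat_lit 13) (.e (nat_lit 172061) (nat_lit 1) (.e (nat_lit 164327) (nat_lit 230) (.e (nat_lit 163886) (nat_lit 5) (.e (nat_lit 221208) (nat_lit 21) (.e (nat_lit 164312) (nat_lit 226) (.e (nat_lit 7936) (nat_lit 89) .nil)))))))) (.g (nat_lit 4) .nil .nil))) 
(.lf (nat_lit 202349) (.g (nat_lit 1577) (.e (nat_lit 73754) (nat_lit 8) (.e (nat_lit 557101) (nat_lit 13) (.e (nat_lit 172067) (nat_lit 3) (.e (nat_lit 204810) (nat_lit 9) .nil)))) .nil))) (.nd (nat_lit 5) 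
(.lf (nat_lit 202333) (.g (nat_lit 1970) (.e (nat_lit 73754) (nat_lit 8) (.e (nat_lit 557101) (nat_lit 13) (.e (nat_lit 172064) (nat_lit 2) (.e (nat_lit 196656) (nat_lit 11) (.e (nat_lit 24320) (nat_lit 17) .nil))))) .nil)) 
(.lf (nat_lit 202365) (.g (nat_lit 1720) (.e (nat_lit 73754) (nat_lit 8) (.e (nat_lit 557101) (nat_lit 13) (.e (nat_lit 179968) (nat_lit 20) (.e (nat_lit 114711) (nat_lit 21) (.e (nat_lit 57847) (nat_lit 252) (.e (nat_lit 57365) (nat_lit 1) (.e (nat_lit 57731) (nat_lit 181) (.e (nat_lit 1210) (nat_lit 89) .nil)))))))) (.g (nat_lit 5) .nil .nil))))))) 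
(.nd (nat_lit 2) (.nd (nat_lit 3) (.nd (nat_lit 4) (.nd (nat_lit 5) 
(.lf (nat_lit 202307) (.g (nat_lit 2480) (.e (nat_lit 73754) (nat_lit 8) (.e (nat_lit 557100) (nat_lit 13) (.e (nat_lit 179968) (nat_lit 20) (.e (nat_lit 114712) (nat_lit 21) (.e (nat_lit 57851) (nat_lit 252) (.e (nat_lit 57347) (nat_lit 0) (.e (nat_lit 2029) (nat_lit 140) (.e (nat_lit 688181) (nat_lit 17) .nil)))))))) (.g (nat_lit 5) .nil .nil))) 
(.lf (nat_lit 202339) (.g (nat_lit 1768) (.e (nat_lit 73754) (nat_lit 8) (.e (nat_lit 557101) (nat_lit 13) (.e (nat_lit 172066) (nat_lit 3) (.e (nat_lit 204809) (nat_lit 9) (.e (nat_lit 433920) (nat_lit 17) (.e (nat_lit 98048) (nat_lit 5) .nil)))))) (.g (nat_lit 4) .nil .nil)))) (.nd (nat_lit 5) 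
(.lf (nat_lit 202323) (.g (nat_lit 2783) (.e (nat_lit 73754) (nat_lit 8) (.e (nat_lit 557101) (nat_lit 13) (.e (nat_lit 172063) (nat_lit 2) (.e (nat_lit 196656) (nat_lit 11) (.e (nat_lit 16392) (nat_lit 0) (.e (nat_lit 3279) (nat_lit 200) (.e (nat_lit 564992) (nat_lit 5) .nil))))))) (.g (nat_lit 5) .nil .nil))) 
(.lf (nat_lit 202355) (.g (nat_lit 2514) (.e (nat_lit 73754) (nat_lit 8) (.e (nat_lit 557101) (nat_lit 13) (.e (nat_lit 172070) (nat_lit 4) (.e (nat_lit 229663) (nat_lit 240) (.e (nat_lit 2643) (nat_lit 165) (.e (nat_lit 180228) (nat_lit 0) (.e (nat_lit 6270) (nat_lit 337) (.e (nat_lit 1214) (nat_lit 89) .nil)))))))) (.g (nat_lit 4) .nil .nil))))) (.nd (nat_lit 4) (.nd (nat_lit 5) 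
(.lf (nat_lit 202315) (.g (nat_lit 2648) (.e (nat_lit 73754) (nat_lit 8) (.e (nat_lit 557101) (nat_lit 13) (.e (nat_lit 172061) (nat_lit 1) (.e (nat_lit 164327) (nat_lit 230) (.e (nat_lit 163886) (nat_lit 5) (.e (nat_lit 221208) (nat_lit 21) (.e (nat_lit 164305) (nat_lit 226) (.e (nat_lit 7936) (nat_lit 89) .nil)))))))) (.g (nat_lit 5) .nil .nil))) 
(.lf (nat_lit 202347) (.g (nat_lit 2258) (.e (nat_lit 73754) (nat_lit 8) (.e (nat_lit 557101) (nat_lit 13) (.e (nat_lit 172067) (nat_lit 3) (.e (nat_lit 204809) (nat_lit 9) (.e (nat_lit 426024) (nat_lit 0) .nil))))) .nil))) (.nd (nat_lit 5) 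
(.lf (nat_lit 202331) (.g (nat_lit 2960) (.e (nat_lit 73754) (nat_lit 8) (.e (nat_lit 557101) (nat_lit 13) (.e (nat_lit 172064) (nat_lit 2) (.e (nat_lit 196656) (nat_lit 11) (.e (nat_lit 16392) (nat_lit 0) (.e (nat_lit 3279) (nat_lit 200) (.e (nat_lit 564992) (nat_lit 5) .nil))))))) (.g (nat_lit 5) .nil .nil))) 
(.lf (nat_lit 202363) (.g (nat_lit 2326) (.e (nat_lit 73754) (nat_lit 8) (.e (nat_lit 557101) (nat_lit 13) (.e (nat_lit 179968) (nat_lit 20) (.e (nat_lit 114711) (nat_lit 21) (.e (nat_lit 57847) (nat_lit 252) (.e (nat_lit 57348) (nat_lit 0) (.e (nat_lit 2031) (nat_lit 140) (.e (nat_lit 688181) (nat_lit 17) .nil)))))))) (.g (nat_lit 5) .nil .nil)))))) 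
(.nd (nat_lit 3) (.nd (nat_lit 4) (.nd (nat_lit 5) 
(.lf (nat_lit 202311) (.g (nat_lit 440) (.e (nat_lit 73754) (nat_lit 8) (.e (nat_lit 557101) (nat_lit 13) (.e (nat_lit 172054) (nat_lit 0) (.e (nat_lit 3304) (nat_lit 202) .nil)))) .nil)) 
(.lf (nat_lit 202343) (.g (nat_lit 1372) (.e (nat_lit 73754) (nat_lit 8) (.e (nat_lit 557101) (nat_lit 13) (.e (nat_lit 172066) (nat_lit 3) (.e (nat_lit 204819) (nat_lit 17) (.e (nat_lit 2359) (nat_lit 152) .nil))))) .nil))) (.nd (nat_lit 5) 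
(.lf (nat_lit 202327) (.g (nat_lit 958) (.e (nat_lit 73754) (nat_lit 8) (.e (nat_lit 557101) (nat_lit 13) (.e (nat_lit 172064) (nat_lit 2) (.e (nat_lit 204544) (nat_lit 0) .nil)))) .nil)) 
(.lf (nat_lit 202359) (.g (nat_lit 1703) (.e (nat_lit 73754) (nat_lit 8) (.e (nat_lit 557101) (nat_lit 13) (.e (nat_lit 179968) (nat_lit 20) (.e (nat_lit 114710) (nat_lit 21) (.e (nat_lit 57847) (nat_lit 252) (.e (nat_lit 57348) (nat_lit 0) (.e (nat_lit 2032) (nat_lit 140) (.e (nat_lit 688182) (nat_lit 17) .nil)))))))) (.g (nat_lit 5) .nil .nil))))) (.nd (nat_lit 4) (.nd (nat_lit 5) 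
(.lf (nat_lit 202319) (.g (nat_lit 1116) (.e (nat_lit 73754) (nat_lit 8) (.e (nat_lit 557101) (nat_lit 13) (.e (nat_lit 172062) (nat_lit 2) (.e (nat_lit 196653) (nat_lit 11) (.e (nat_lit 16397) (nat_lit 0) .nil))))) .nil)) 
(.lf (nat_lit 202351) (.g (nat_lit 1669) (.e (nat_lit 73754) (nat_lit 8) (.e (nat_lit 557101) (nat_lit 13) (.e (nat_lit 172067) (nat_lit 3) (.e (nat_lit 204841) (nat_lit 22) .nil)))) .nil))) (.nd (nat_lit 5) 
(.lf (nat_lit 202335) (.g (nat_lit 1932) (.e (nat_lit 73754) (nat_lit 8) (.e (nat_lit 557101) (nat_lit 13) (.e (nat_lit 172064) (nat_lit 2) (.e (nat_lit 196661) (nat_lit 12) (.e (nat_lit 57575) (nat_lit 55) (.e (nat_lit 778285) (nat_lit 0) (.e (nat_lit 1235) (nat_lit 91) (.e (nat_lit 98048) (nat_lit 5) .nil)))))))) (.g (nat_lit 4) .nil .nil))) 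
(.lf (nat_lit 202367) (.g (nat_lit 666) (.e (nat_lit 73754) (nat_lit 8) (.e (nat_lit 557103) (nat_lit 14) (.e (nat_lit 180241) (nat_lit 4) .nil))) .nil))))))))

noncomputable def tv2671 : DT := (.nd (nat_lit 0) (.nd (nat_lit 1) (.nd (nat_lit 2) (.nd (nat_lit 3) (.nd (nat_lit 4) (.nd (nat_lit 5) (.nd (nat_lit 6) 
(.lf (nat_lit 202368) (.g (nat_lit 2661) (.e (nat_lit 73754) (nat_lit 8) (.e (nat_lit 557103) (nat_lit 14) (.e (nat_lit 180243) (nat_lit 5) (.e (nat_lit 532501) (nat_lit 1) (.e (nat_lit 57696) (nat_lit 158) .nil))))) .nil)) 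
(.lf (nat_lit 202432) (.g (nat_lit 2748) (.e (nat_lit 73754) (nat_lit 8) (.e (nat_lit 557105) (nat_lit 14) (.e (nat_lit 180252) (nat_lit 10) (.e (nat_lit 573441) (nat_lit 0) (.e (nat_lit 3066) (nat_lit 190) (.e (nat_lit 475169) (nat_lit 22) (.e (nat_lit 507648) (nat_lit 19) .nil))))))) (.g (nat_lit 4) .nil .nil)))) (.nd (nat_lit 6) 
(.lf (nat_lit 202400) (.g (nat_lit 764) (.e (nat_lit 73754) (nat_lit 8) (.e (nat_lit 557105) (nat_lit 14) (.e (nat_lit 180241) (nat_lit 4) .nil))) .nil)) 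
(.lf (nat_lit 202464) (.g (nat_lit 2682) (.e (nat_lit 73754) (nat_lit 8) (.e (nat_lit 557105) (nat_lit 14) (.e (nat_lit 180252) (nat_lit 10) (.e (nat_lit 573462) (nat_lit 9) .nil)))) .nil)))) (.nd (nat_lit 5) (.nd (nat_lit 6) 
(.lf (nat_lit 202384) (.g (nat_lit 1964) (.e (nat_lit 73754) (nat_lit 8) (.e (nat_lit 557103) (nat_lit 14) (.e (nat_lit 180250) (nat_lit 10) (.e (nat_lit 573468) (nat_lit 10) (.e (nat_lit 8268) (nat_lit 45) .nil))))) .nil)) 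
(.lf (nat_lit 202448) (.g (nat_lit 3765) (.e (nat_lit 73754) (nat_lit 8) (.e (nat_lit 557105) (nat_lit 14) (.e (nat_lit 180252) (nat_lit 10) (.e (nat_lit 573451) (nat_lit 9) (.e (nat_lit 52) (nat_lit 0) (.e (nat_lit 3748) (nat_lit 228) (.e (nat_lit 786455) (nat_lit 17) (.e (nat_lit 98048) (nat_lit 5) .nil)))))))) (.g (nat_lit 4) .nil .nil)))) (.nd (nat_lit 6) 
(.lf (nat_lit 202416) (.g (nat_lit 2465) (.e (nat_lit 73754) (nat_lit 8) (.e (nat_lit 557105) (nat_lit 14) (.e (nat_lit 180251) (nat_lit 10) (.e (nat_lit 573477) (nat_lit 12) (.e (nat_lit 57361) (nat_lit 0) (.e (nat_lit 5599) (nat_lit 310) (.e (nat_lit 163869) (nat_lit 2) (.e (nat_lit 196669) (nat_lit 14) .nil)))))))) (.g (nat_lit 4) .nil .nil))) 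
(.lf (nat_lit 202480) (.g (nat_lit 3299) (.e (nat_lit 73754) (nat_lit 8) (.e (nat_lit 557105) (nat_lit 14) (.e (nat_lit 180252) (nat_lit 10) (.e (nat_lit 573468) (nat_lit 10) (.e (nat_lit 8260) (nat_lit 45) (.e (nat_lit 778267) (nat_lit 0) (.e (nat_lit 1235) (nat_lit 91) (.e (nat_lit 98048) (nat_lit 5) .nil)))))))) (.g (nat_lit 4) .nil .nil)))))) (.nd (nat_lit 4) (.nd (nat_lit 5) (.nd (nat_lit 6) 
(.lf (nat_lit 202376) (.g (nat_lit 1333) (.e (nat_lit 73754) (nat_lit 8) (.e (nat_lit 557103) (nat_lit 14) (.e (nat_lit 180250) (nat_lit 10) (.e (nat_lit 573447) (nat_lit 0) (.e (nat_lit 2856) (nat_lit 184) .nil))))) .nil)) 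
(.lf (nat_lit 202440) (.g (nat_lit 3349) (.e (nat_lit 73754) (nat_lit 8) (.e (nat_lit 557105) (nat_lit 14) (.e (nat_lit 180252) (nat_lit 10) (.e (nat_lit 573449) (nat_lit 9) (.e (nat_lit 208) (nat_lit 18) (.e (nat_lit 270080) (nat_lit 0) (.e (nat_lit 1239) (nat_lit 91) (.e (nat_lit 98048) (nat_lit 5) .nil)))))))) (.g (nat_lit 4) .nil .nil)))) (.nd (nat_lit 6) 
(.lf (nat_lit 202408) (.g (nat_lit 1693) (.e (nat_lit 73754) (nat_lit 8) (.e (nat_lit 557105) (nat_lit 14) (.e (nat_lit 180251) (nat_lit 10) (.e (nat_lit 573444) (nat_lit 0) .nil)))) .nil)) 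
(.lf (nat_lit 202472) (.g (nat_lit 5130) (.e (nat_lit 73754) (nat_lit 8) (.e (nat_lit 557105) (nat_lit 14) (.e (nat_lit 180252) (nat_lit 10) (.e (nat_lit 573467) (nat_lit 10) (.e (nat_lit 8261) (nat_lit 45) (.e (nat_lit 778318) (nat_lit 3) (.e (nat_lit 57454) (nat_lit 21) (.e (nat_lit 507648) (nat_lit 19) .nil)))))))) (.g (nat_lit 7) .nil .nil))))) (.nd (nat_lit 5) (.nd (nat_lit 6) 
(.lf (nat_lit 202392) (.g (nat_lit 1277) (.e (nat_lit 73754) (nat_lit 8) (.e (nat_lit 557105) (nat_lit 14) (.e (nat_lit 180227) (nat_lit 0) (.e (nat_lit 5796) (nat_lit 320) .nil)))) .nil)) 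
(.lf (nat_lit 202456) (.g (nat_lit 3541) (.e (nat_lit 73754) (nat_lit 8) (.e (nat_lit 557105) (nat_lit 14) (.e (nat_lit 180252) (nat_lit 10) (.e (nat_lit 573451) (nat_lit 9) (.e (nat_lit 1174) (nat_lit 87) (.e (nat_lit 57931) (nat_lit 282) (.e (nat_lit 163869) (nat_lit 2) (.e (nat_lit 196669) (nat_lit 14) .nil)))))))) (.g (nat_lit 4) .nil .nil)))) (.nd (nat_lit 6) 
(.lf (nat_lit 202424) (.g (nat_lit 2951) (.e (nat_lit 73754) (nat_lit 8) (.e (nat_lit 557105) (nat_lit 14) (.e (nat_lit 180252) (nat_lit 10) (.e (nat_lit 573441) (nat_lit 0) (.e (nat_lit 2855) (nat_lit 184) (.e (nat_lit 426432) (nat_lit 17) (.e (nat_lit 98048) (nat_lit 5) .nil))))))) (.g (nat_lit 5) .nil .nil))) 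
(.lf (nat_lit 202488) (.g (nat_lit 5621) (.e (nat_lit 73754) (nat_lit 8) (.e (nat_lit 557105) (nat_lit 14) (.e (nat_lit 180252) (nat_lit 10) (.e (nat_lit 573468) (nat_lit 10) (.e (nat_lit 8262) (nat_lit 45) (.e (nat_lit 778318) (nat_lit 3) (.e (nat_lit 57454) (nat_lit 21) (.e (nat_lit 507648) (nat_lit 19) .nil)))))))) (.g (nat_lit 7) .nil .nil))))))) 
(.nd (nat_lit 3) (.nd (nat_lit 4) (.nd (nat_lit 5) (.nd (nat_lit 6) 
(.lf (nat_lit 202372) (.g (nat_lit 1432) (.e (nat_lit 73754) (nat_lit 8) (.e (nat_lit 557103) (nat_lit 14) (.e (nat_lit 180244) (nat_lit 5) (.e (nat_lit 532579) (nat_lit 26) .nil)))) .nil)) 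
(.lf (nat_lit 202436) (.g (nat_lit 3026) (.e (nat_lit 73754) (nat_lit 8) (.e (nat_lit 557105) (nat_lit 14) (.e (nat_lit 180252) (nat_lit 10) (.e (nat_lit 581376) (nat_lit 0) (.e (nat_lit 2939) (nat_lit 184) (.e (nat_lit 426431) (nat_lit 17) (.e (nat_lit 98048) (nat_lit 5) .nil))))))) (.g (nat_lit 5) .nil .nil)))) (.nd (nat_lit 6) 
(.lf (nat_lit 202404) (.g (nat_lit 1253) (.e (nat_lit 73754) (nat_lit 8) (.e (nat_lit 557105) (nat_lit 14) (.e (nat_lit 180248) (nat_lit 9) (.e (nat_lit 565267) (nat_lit 4) .nil)))) .nil)) 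
(.lf (nat_lit 202468) (.g (nat_lit 3986) (.e (nat_lit 73754) (nat_lit 8) (.e (nat_lit 557105) (nat_lit 14) (.e (nat_lit 180252) (nat_lit 10) (.e (nat_lit 573467) (nat_lit 10) (.e (nat_lit 8259) (nat_lit 45) (.e (nat_lit 778318) (nat_lit 3) (.e (nat_lit 57454) (nat_lit 21) (.e (nat_lit 507648) (nat_lit 19) .nil)))))))) (.g (nat_lit 5) .nil .nil))))) (.nd (nat_lit 5) (.nd (nat_lit 6) 
(.lf (nat_lit 202388) (.g (nat_lit 596) (.e (nat_lit 73754) (nat_lit 8) (.e (nat_lit 557103) (nat_lit 14) (.e (nat_lit 180263) (nat_lit 21) .nil))) .nil)) 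
(.lf (nat_lit 202452) (.g (nat_lit 3788) (.e (nat_lit 73754) (nat_lit 8) (.e (nat_lit 557105) (nat_lit 14) (.e (nat_lit 180252) (nat_lit 10) (.e (nat_lit 573451) (nat_lit 9) (.e (nat_lit 1173) (nat_lit 87) (.e (nat_lit 57927) (nat_lit 282) (.e (nat_lit 163869) (nat_lit 2) (.e (nat_lit 196670) (nat_lit 14) .nil)))))))) (.g (nat_lit 4) .nil .nil)))) (.nd (nat_lit 6) 
(.lf (nat_lit 202420) (.g (nat_lit 2632) (.e (nat_lit 73754) (nat_lit 8) (.e (nat_lit 557105) (nat_lit 14) (.e (nat_lit 180252) (nat_lit 10) (.e (nat_lit 573440) (nat_lit 0) .nil)))) .nil)) 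
(.lf (nat_lit 202484) (.g (nat_lit 3203) (.e (nat_lit 73754) (nat_lit 8) (.e (nat_lit 557105) (nat_lit 14) (.e (nat_lit 180252) (nat_lit 10) (.e (nat_lit 573468) (nat_lit 10) (.e (nat_lit 8262) (nat_lit 45) (.e (nat_lit 778241) (nat_lit 0) (.e (nat_lit 1239) (nat_lit 91) (.e (nat_lit 98048) (nat_lit 5) .nil)))))))) (.g (nat_lit 4) .nil .nil)))))) (.nd (nat_lit 4) (.nd (nat_lit 5) (.nd (nat_lit 6) 
(.lf (nat_lit 202380) (.g (nat_lit 3123) (.e (nat_lit 73754) (nat_lit 8) (.e (nat_lit 557103) (nat_lit 14) (.e (nat_lit 180250) (nat_lit 10) (.e (nat_lit 573468) (nat_lit 10) (.e (nat_lit 8261) (nat_lit 45) (.e (nat_lit 778318) (nat_lit 3) (.e (nat_lit 57454) (nat_lit 21) (.e (nat_lit 507648) (nat_lit 19) .nil)))))))) (.g (nat_lit 6) .nil .nil))) 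
(.lf (nat_lit 202444) (.g (nat_lit 2593) (.e (nat_lit 73754) (nat_lit 8) (.e (nat_lit 557105) (nat_lit 14) (.e (nat_lit 180252) (nat_lit 10) (.e (nat_lit 573449) (nat_lit 9) (.e (nat_lit 1288) (nat_lit 95) .nil))))) .nil))) (.nd (nat_lit 6) 
(.lf (nat_lit 202412) (.g (nat_lit 2707) (.e (nat_lit 73754) (nat_lit 8) (.e (nat_lit 557105) (nat_lit 14) (.e (nat_lit 180251) (nat_lit 10) (.e (nat_lit 573475) (nat_lit 12) (.e (nat_lit 57507) (nat_lit 39) .nil))))) .nil)) 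
(.lf (nat_lit 202476) (.g (nat_lit 3404) (.e (nat_lit 73754) (nat_lit 8) (.e (nat_lit 557105) (nat_lit 14) (.e (nat_lit 180252) (nat_lit 10) (.e (nat_lit 573467) (nat_lit 10) (.e (nat_lit 8268) (nat_lit 45) (.e (nat_lit 786176) (nat_lit 0) (.e (nat_lit 1239) (nat_lit 91) (.e (nat_lit 98048) (nat_lit 5) .nil)))))))) (.g (nat_lit 4) .nil .nil))))) (.nd (nat_lit 5) (.nd (nat_lit 6) 
(.lf (nat_lit 202396) (.g (nat_lit 768) (.e (nat_lit 73754) (nat_lit 8) (.e (nat_lit 557105) (nat_lit 14) (.e (nat_lit 180232) (nat_lit 0) .nil))) .nil)) 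
(.lf (nat_lit 202460) (.g (nat_lit 2100) (.e (nat_lit 73754) (nat_lit 8) (.e (nat_lit 557105) (nat_lit 14) (.e (nat_lit 180252) (nat_lit 10) (.e (nat_lit 573457) (nat_lit 9) .nil)))) .nil))) (.nd (nat_lit 6) 
(.lf (nat_lit 202428) (.g (nat_lit 3102) (.e (nat_lit 73754) (nat_lit 8) (.e (nat_lit 557105) (nat_lit 14) (.e (nat_lit 180252) (nat_lit 10) (.e (nat_lit 573441) (nat_lit 0) (.e (nat_lit 2857) (nat_lit 184) (.e (nat_lit 426428) (nat_lit 17) (.e (nat_lit 98048) (nat_lit 5) .nil))))))) (.g (nat_lit 5) .nil .nil))) 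
(.lf (nat_lit 202492) (.g (nat_lit 4231) (.e (nat_lit 73754) (nat_lit 8) (.e (nat_lit 557105) (nat_lit 14) (.e (nat_lit 180252) (nat_lit 10) (.e (nat_lit 573468) (nat_lit 10) (.e (nat_lit 8270) (nat_lit 46) (.e (nat_lit 786455) (nat_lit 17) (.e (nat_lit 98048) (nat_lit 5) .nil))))))) (.g (nat_lit 6) .nil .nil)))))))) 
(.nd (nat_lit 2) (.nd (nat_lit 3) (.nd (nat_lit 4) (.nd (nat_lit 5) (.nd (nat_lit 6) 
(.lf (nat_lit 202370) (.g (nat_lit 1308) (.e (nat_lit 73754) (nat_lit 8) (.e (nat_lit 557103) (nat_lit 14) (.e (nat_lit 180243) (nat_lit 5) (.e (nat_lit 540416) (nat_lit 32) .nil)))) .nil)) 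
(.lf (nat_lit 202434) (.g (nat_lit 2632) (.e (nat_lit 73754) (nat_lit 8) (.e (nat_lit 557105) (nat_lit 14) (.e (nat_lit 180252) (nat_lit 10) (.e (nat_lit 573446) (nat_lit 0) .nil)))) .nil))) (.nd (nat_lit 6) 
(.lf (nat_lit 202402) (.g (nat_lit 2695) (.e (nat_lit 73754) (nat_lit 8) (.e (nat_lit 557105) (nat_lit 14) (.e (nat_lit 180244) (nat_lit 5) (.e (nat_lit 532503) (nat_lit 1) (.e (nat_lit 65280) (nat_lit 168) .nil))))) .nil)) 
(.lf (nat_lit 202466) (.g (nat_lit 2673) (.e (nat_lit 73754) (nat_lit 8) (.e (nat_lit 557105) (nat_lit 14) (.e (nat_lit 180252) (nat_lit 10) (.e (nat_lit 573466) (nat_lit 10) .nil)))) .nil)))) (.nd (nat_lit 5) (.nd (nat_lit 6) 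
(.lf (nat_lit 202386) (.g (nat_lit 2208) (.e (nat_lit 73754) (nat_lit 8) (.e (nat_lit 557103) (nat_lit 14) (.e (nat_lit 180261) (nat_lit 20) (.e (nat_lit 655364) (nat_lit 0) (.e (nat_lit 2964) (nat_lit 185) (.e (nat_lit 434209) (nat_lit 18) (.e (nat_lit 6270) (nat_lit 337) (.e (nat_lit 1207) (nat_lit 89) .nil)))))))) (.g (nat_lit 4) .nil .nil))) 
(.lf (nat_lit 202450) (.g (nat_lit 3232) (.e (nat_lit 73754) (nat_lit 8) (.e (nat_lit 557105) (nat_lit 14) (.e (nat_lit 180252) (nat_lit 10) (.e (nat_lit 573451) (nat_lit 9) (.e (nat_lit 1169) (nat_lit 87) (.e (nat_lit 57931) (nat_lit 282) (.e (nat_lit 163869) (nat_lit 2) (.e (nat_lit 196669) (nat_lit 14) .nil)))))))) (.g (nat_lit 4) .nil .nil)))) (.nd (nat_lit 6) 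
(.lf (nat_lit 202418) (.g (nat_lit 3404) (.e (nat_lit 73754) (nat_lit 8) (.e (nat_lit 557105) (nat_lit 14) (.e (nat_lit 180251) (nat_lit 10) (.e (nat_lit 573478) (nat_lit 12) (.e (nat_lit 57360) (nat_lit 0) (.e (nat_lit 5818) (nat_lit 320) (.e (nat_lit 999) (nat_lit 81) (.e (nat_lit 1239) (nat_lit 91) (.e (nat_lit 98048) (nat_lit 5) .nil))))))))) (.g (nat_lit 8) .nil .nil))) 
(.lf (nat_lit 202482) (.g (nat_lit 3980) (.e (nat_lit 73754) (nat_lit 8) (.e (nat_lit 557105) (nat_lit 14) (.e (nat_lit 180252) (nat_lit 10) (.e (nat_lit 573468) (nat_lit 10) (.e (nat_lit 8261) (nat_lit 45) (.e (nat_lit 778246) (nat_lit 0) (.e (nat_lit 1239) (nat_lit 91) (.e (nat_lit 98048) (nat_lit 5) .nil)))))))) (.g (nat_lit 4) .nil .nil)))))) (.nd (nat_lit 4) (.nd (nat_lit 5) (.nd (nat_lit 6) 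
(.lf (nat_lit 202378) (.g (nat_lit 1021) (.e (nat_lit 73754) (nat_lit 8) (.e (nat_lit 557103) (nat_lit 14) (.e (nat_lit 180250) (nat_lit 10) (.e (nat_lit 573468) (nat_lit 10) .nil)))) .nil)) 
(.lf (nat_lit 202442) (.g (nat_lit 3019) (.e (nat_lit 73754) (nat_lit 8) (.e (nat_lit 557105) (nat_lit 14) (.e (nat_lit 180252) (nat_lit 10) (.e (nat_lit 573449) (nat_lit 9) (.e (nat_lit 1183) (nat_lit 87) (.e (nat_lit 57930) (nat_lit 282) (.e (nat_lit 163867) (nat_lit 2) (.e (nat_lit 196670) (nat_lit 14) .nil)))))))) (.g (nat_lit 4) .nil .nil)))) (.nd (nat_lit 6) 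
(.lf (nat_lit 202410) (.g (nat_lit 1248) (.e (nat_lit 73754) (nat_lit 8) (.e (nat_lit 557105) (nat_lit 14) (.e (nat_lit 180251) (nat_lit 10) (.e (nat_lit 573475) (nat_lit 12) .nil)))) .nil)) 
(.lf (nat_lit 202474) (.g (nat_lit 4518) (.e (nat_lit 73754) (nat_lit 8) (.e (nat_lit 557105) (nat_lit 14) (.e (nat_lit 180252) (nat_lit 10) (.e (nat_lit 573467) (nat_lit 10) (.e (nat_lit 8262) (nat_lit 45) (.e (nat_lit 778317) (nat_lit 3) (.e (nat_lit 57454) (nat_lit 21) (.e (nat_lit 507648) (nat_lit 19) .nil)))))))) (.g (nat_lit 6) .nil .nil))))) (.nd (nat_lit 5) (.nd (nat_lit 6) 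
(.lf (nat_lit 202394) (.g (nat_lit 2599) (.e (nat_lit 73754) (nat_lit 8) (.e (nat_lit 557105) (nat_lit 14) (.e (nat_lit 180227) (nat_lit 0) (.e (nat_lit 5945) (nat_lit 322) (.e (nat_lit 57431) (nat_lit 16) (.e (nat_lit 368662) (nat_lit 18) (.e (nat_lit 7147) (nat_lit 382) (.e (nat_lit 1207) (nat_lit 89) .nil)))))))) (.g (nat_lit 6) .nil .nil))) 
(.lf (nat_lit 202458) (.g (nat_lit 3256) (.e (nat_lit 73754) (nat_lit 8) (.e (nat_lit 557105) (nat_lit 14) (.e (nat_lit 180252) (nat_lit 10) (.e (nat_lit 573452) (nat_lit 9) (.e (nat_lit 208) (nat_lit 18) (.e (nat_lit 270080) (nat_lit 0) (.e (nat_lit 1239) (nat_lit 91) (.e (nat_lit 98048) (nat_lit 5) .nil)))))))) (.g (nat_lit 5) .nil .nil)))) (.nd (nat_lit 6) 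
(.lf (nat_lit 202426) (.g (nat_lit 2557) (.e (nat_lit 73754) (nat_lit 8) (.e (nat_lit 557105) (nat_lit 14) (.e (nat_lit 180252) (nat_lit 10) (.e (nat_lit 573441) (nat_lit 0) (.e (nat_lit 2856) (nat_lit 184) (.e (nat_lit 426428) (nat_lit 17) (.e (nat_lit 98048) (nat_lit 5) .nil))))))) (.g (nat_lit 4) .nil .nil))) 
(.lf (nat_lit 202490) (.g (nat_lit 4188) (.e (nat_lit 73754) (nat_lit 8) (.e (nat_lit 557105) (nat_lit 14) (.e (nat_lit 180252) (nat_lit 10) (.e (nat_lit 573468) (nat_lit 10) (.e (nat_lit 8268) (nat_lit 45) (.e (nat_lit 786176) (nat_lit 0) (.e (nat_lit 1239) (nat_lit 91) (.e (nat_lit 98048) (nat_lit 5) .nil)))))))) (.g (nat_lit 5) .nil .nil))))))) 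
(.nd (nat_lit 3) (.nd (nat_lit 4) (.nd (nat_lit 5) (.nd (nat_lit 6) 
(.lf (nat_lit 202374) (.g (nat_lit 1539) (.e (nat_lit 73754) (nat_lit 8) (.e (nat_lit 557103) (nat_lit 14) (.e (nat_lit 180244) (nat_lit 5) (.e (nat_lit 540416) (nat_lit 32) .nil)))) .nil)) 
(.lf (nat_lit 202438) (.g (nat_lit 1974) (.e (nat_lit 73754) (nat_lit 8) (.e (nat_lit 557105) (nat_lit 14) (.e (nat_lit 180252) (nat_lit 10) (.e (nat_lit 581376) (nat_lit 5) .nil)))) .nil))) (.nd (nat_lit 6) 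
(.lf (nat_lit 202406) (.g (nat_lit 1706) (.e (nat_lit 73754) (nat_lit 8) (.e (nat_lit 557105) (nat_lit 14) (.e (nat_lit 180251) (nat_lit 10) (.e (nat_lit 573440) (nat_lit 0) .nil)))) .nil)) 
(.lf (nat_lit 202470) (.g (nat_lit 3325) (.e (nat_lit 73754) (nat_lit 8) (.e (nat_lit 557105) (nat_lit 14) (.e (nat_lit 180252) (nat_lit 10) (.e (nat_lit 573467) (nat_lit 10) (.e (nat_lit 8260) (nat_lit 45) (.e (nat_lit 778291) (nat_lit 0) (.e (nat_lit 1235) (nat_lit 91) (.e (nat_lit 98048) (nat_lit 5) .nil)))))))) (.g (nat_lit 4) .nil .nil))))) (.nd (nat_lit 5) (.nd (nat_lit 6) 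
(.lf (nat_lit 202390) (.g (nat_lit 613) (.e (nat_lit 73754) (nat_lit 8) (.e (nat_lit 557105) (nat_lit 14) (.e (nat_lit 180226) (nat_lit 0) .nil))) .nil)) 
(.lf (nat_lit 202454) (.g (nat_lit 3794) (.e (nat_lit 73754) (nat_lit 8) (.e (nat_lit 557105) (nat_lit 14) (.e (nat_lit 180252) (nat_lit 10) (.e (nat_lit 573451) (nat_lit 9) (.e (nat_lit 1174) (nat_lit 87) (.e (nat_lit 57927) (nat_lit 282) (.e (nat_lit 163869) (nat_lit 2) (.e (nat_lit 196670) (nat_lit 14) .nil)))))))) (.g (nat_lit 4) .nil .nil)))) (.nd (nat_lit 6) 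
(.lf (nat_lit 202422) (.g (nat_lit 2665) (.e (nat_lit 73754) (nat_lit 8) (.e (nat_lit 557105) (nat_lit 14) (.e (nat_lit 180252) (nat_lit 10) (.e (nat_lit 573441) (nat_lit 0) (.e (nat_lit 2842) (nat_lit 184) (.e (nat_lit 426432) (nat_lit 17) (.e (nat_lit 98048) (nat_lit 5) .nil))))))) (.g (nat_lit 4) .nil .nil))) 
(.lf (nat_lit 202486) (.g (nat_lit 3290) (.e (nat_lit 73754) (nat_lit 8) (.e (nat_lit 557105) (nat_lit 14) (.e (nat_lit 180252) (nat_lit 10) (.e (nat_lit 573468) (nat_lit 10) (.e (nat_lit 8262) (nat_lit 45) (.e (nat_lit 786176) (nat_lit 0) (.e (nat_lit 1239) (nat_lit 91) (.e (nat_lit 98048) (nat_lit 5) .nil)))))))) (.g (nat_lit 4) .nil .nil)))))) (.nd (nat_lit 4) (.nd (nat_lit 5) (.nd (nat_lit 6) 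
(.lf (nat_lit 202382) (.g (nat_lit 2416) (.e (nat_lit 73754) (nat_lit 8) (.e (nat_lit 557103) (nat_lit 14) (.e (nat_lit 180250) (nat_lit 10) (.e (nat_lit 573468) (nat_lit 10) (.e (nat_lit 8262) (nat_lit 45) (.e (nat_lit 778317) (nat_lit 3) (.e (nat_lit 57454) (nat_lit 21) (.e (nat_lit 507648) (nat_lit 19) .nil)))))))) (.g (nat_lit 4) .nil .nil))) 
(.lf (nat_lit 202446) (.g (nat_lit 4035) (.e (nat_lit 73754) (nat_lit 8) (.e (nat_lit 557105) (nat_lit 14) (.e (nat_lit 180252) (nat_lit 10) (.e (nat_lit 573451) (nat_lit 9) (.e (nat_lit 52) (nat_lit 0) (.e (nat_lit 3632) (nat_lit 227) (.e (nat_lit 778246) (nat_lit 0) (.e (nat_lit 1239) (nat_lit 91) (.e (nat_lit 98048) (nat_lit 5) .nil))))))))) (.g (nat_lit 4) .nil .nil)))) (.nd (nat_lit 6) 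
(.lf (nat_lit 202414) (.g (nat_lit 2523) (.e (nat_lit 73754) (nat_lit 8) (.e (nat_lit 557105) (nat_lit 14) (.e (nat_lit 180251) (nat_lit 10) (.e (nat_lit 573477) (nat_lit 12) (.e (nat_lit 57360) (nat_lit 0) (.e (nat_lit 5599) (nat_lit 310) (.e (nat_lit 163869) (nat_lit 2) (.e (nat_lit 196669) (nat_lit 14) .nil)))))))) (.g (nat_lit 4) .nil .nil))) 
(.lf (nat_lit 202478) (.g (nat_lit 4008) (.e (nat_lit 73754) (nat_lit 8) (.e (nat_lit 557105) (nat_lit 14) (.e (nat_lit 180252) (nat_lit 10) (.e (nat_lit 573467) (nat_lit 10) (.e (nat_lit 8274) (nat_lit 46) (.e (nat_lit 786455) (nat_lit 17) (.e (nat_lit 98048) (nat_lit 5) .nil))))))) (.g (nat_lit 6) .nil .nil))))) (.nd (nat_lit 5) (.nd (nat_lit 6) 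
(.lf (nat_lit 202398) (.g (nat_lit 769) (.e (nat_lit 73754) (nat_lit 8) (.e (nat_lit 557105) (nat_lit 14) (.e (nat_lit 180233) (nat_lit 0) .nil))) .nil)) 
(.lf (nat_lit 202462) (.g (nat_lit 3111) (.e (nat_lit 73754) (nat_lit 8) (.e (nat_lit 557105) (nat_lit 14) (.e (nat_lit 180252) (nat_lit 10) (.e (nat_lit 573458) (nat_lit 9) (.e (nat_lit 1180) (nat_lit 87) (.e (nat_lit 57931) (nat_lit 282) (.e (nat_lit 163867) (nat_lit 2) (.e (nat_lit 196670) (nat_lit 14) .nil)))))))) (.g (nat_lit 4) .nil .nil)))) (.nd (nat_lit 6) 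
(.lf (nat_lit 202430) (.g (nat_lit 3182) (.e (nat_lit 73754) (nat_lit 8) (.e (nat_lit 557105) (nat_lit 14) (.e (nat_lit 180252) (nat_lit 10) (.e (nat_lit 573441) (nat_lit 0) (.e (nat_lit 2857) (nat_lit 184) (.e (nat_lit 426432) (nat_lit 17) (.e (nat_lit 98048) (nat_lit 5) .nil))))))) (.g (nat_lit 5) .nil .nil))) 
(.lf (nat_lit 202494) (.g (nat_lit 3533) (.e (nat_lit 73754) (nat_lit 8) (.e (nat_lit 557105) (nat_lit 14) (.e (nat_lit 180252) (nat_lit 10) (.e (nat_lit 573468) (nat_lit 10) (.e (nat_lit 8271) (nat_lit 46) (.e (nat_lit 786455) (nat_lit 17) (.e (nat_lit 98048) (nat_lit 5) .nil))))))) (.g (nat_lit 4) .nil .nil))))))))) 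
(.nd (nat_lit 1) (.nd (nat_lit 2) (.nd (nat_lit 3) (.nd (nat_lit 4) (.nd (nat_lit 5) 
(.nd (nat_lit 6) 
(.lf (nat_lit 202369) (.g (nat_lit 2299) (.e (nat_lit 73754) (nat_lit 8) (.e (nat_lit 557103) (nat_lit 14) (.e (nat_lit 180243) (nat_lit 5) (.e (nat_lit 532504) (nat_lit 1) (.e (nat_lit 65280) (nat_lit 168) .nil))))) .nil)) 
(.lf (nat_lit 202433) (.g (nat_lit 1946) (.e (nat_lit 73754) (nat_lit 8) (.e (nat_lit 557105) (nat_lit 14) (.e (nat_lit 180252) (nat_lit 10) (.e (nat_lit 573442) (nat_lit 0) .nil)))) .nil))) (.nd (nat_lit 6) 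
(.lf (nat_lit 202401) (.g (nat_lit 2877) (.e (nat_lit 73754) (nat_lit 8) (.e (nat_lit 557105) (nat_lit 14) (.e (nat_lit 180244) (nat_lit 5) (.e (nat_lit 532501) (nat_lit 1) (.e (nat_lit 65280) (nat_lit 168) .nil))))) .nil)) 
(.lf (nat_lit 202465) (.g (nat_lit 2671) (.e (nat_lit 73754) (nat_lit 8) (.e (nat_lit 557105) (nat_lit 14) (.e (nat_lit 180252) (nat_lit 10) (.e (nat_lit 573463) (nat_lit 9) .nil)))) .nil)))) (.nd (nat_lit 5) (.nd (nat_lit 6) 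
(.lf (nat_lit 202385) (.g (nat_lit 1967) (.e (nat_lit 73754) (nat_lit 8) (.e (nat_lit 557103) (nat_lit 14) (.e (nat_lit 180250) (nat_lit 10) (.e (nat_lit 573468) (nat_lit 10) (.e (nat_lit 8270) (nat_lit 46) .nil))))) .nil)) 
(.lf (nat_lit 202449) (.g (nat_lit 4263) (.e (nat_lit 73754) (nat_lit 8) (.e (nat_lit 557105) (nat_lit 14) (.e (nat_lit 180252) (nat_lit 10) (.e (nat_lit 573451) (nat_lit 9) (.e (nat_lit 208) (nat_lit 18) (.e (nat_lit 270080) (nat_lit 0) (.e (nat_lit 1239) (nat_lit 91) (.e (nat_lit 98048) (nat_lit 5) .nil)))))))) (.g (nat_lit 5) .nil .nil)))) (.nd (nat_lit 6) 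
(.lf (nat_lit 202417) (.g (nat_lit 2521) (.e (nat_lit 73754) (nat_lit 8) (.e (nat_lit 557105) (nat_lit 14) (.e (nat_lit 180251) (nat_lit 10) (.e (nat_lit 573477) (nat_lit 12) (.e (nat_lit 57361) (nat_lit 0) (.e (nat_lit 5818) (nat_lit 320) (.e (nat_lit 999) (nat_lit 81) (.e (nat_lit 1239) (nat_lit 91) (.e (nat_lit 98048) (nat_lit 5) .nil))))))))) (.g (nat_lit 4) .nil .nil))) 
(.lf (nat_lit 202481) (.g (nat_lit 3366) (.e (nat_lit 73754) (nat_lit 8) (.e (nat_lit 557105) (nat_lit 14) (.e (nat_lit 180252) (nat_lit 10) (.e (nat_lit 573468) (nat_lit 10) (.e (nat_lit 8260) (nat_lit 45) (.e (nat_lit 778291) (nat_lit 0) (.e (nat_lit 1235) (nat_lit 91) (.e (nat_lit 98048) (nat_lit 5) .nil)))))))) (.g (nat_lit 4) .nil .nil)))))) (.nd (nat_lit 4) (.nd (nat_lit 5) (.nd (nat_lit 6) 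
(.lf (nat_lit 202377) (.g (nat_lit 2085) (.e (nat_lit 73754) (nat_lit 8) (.e (nat_lit 557103) (nat_lit 14) (.e (nat_lit 180250) (nat_lit 10) (.e (nat_lit 573467) (nat_lit 10) (.e (nat_lit 8261) (nat_lit 45) (.e (nat_lit 778318) (nat_lit 3) (.e (nat_lit 57454) (nat_lit 21) (.e (nat_lit 507648) (nat_lit 19) .nil)))))))) (.g (nat_lit 4) .nil .nil))) 
(.lf (nat_lit 202441) (.g (nat_lit 3012) (.e (nat_lit 73754) (nat_lit 8) (.e (nat_lit 557105) (nat_lit 14) (.e (nat_lit 180252) (nat_lit 10) (.e (nat_lit 573449) (nat_lit 9) (.e (nat_lit 1175) (nat_lit 87) (.e (nat_lit 57925) (nat_lit 282) (.e (nat_lit 163867) (nat_lit 2) (.e (nat_lit 196670) (nat_lit 14) .nil)))))))) (.g (nat_lit 4) .nil .nil)))) (.nd (nat_lit 6) 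
(.lf (nat_lit 202409) (.g (nat_lit 1905) (.e (nat_lit 73754) (nat_lit 8) (.e (nat_lit 557105) (nat_lit 14) (.e (nat_lit 180251) (nat_lit 10) (.e (nat_lit 573447) (nat_lit 0) (.e (nat_lit 3065) (nat_lit 190) .nil))))) .nil)) 
(.lf (nat_lit 202473) (.g (nat_lit 4317) (.e (nat_lit 73754) (nat_lit 8) (.e (nat_lit 557105) (nat_lit 14) (.e (nat_lit 180252) (nat_lit 10) (.e (nat_lit 573467) (nat_lit 10) (.e (nat_lit 8262) (nat_lit 45) (.e (nat_lit 778246) (nat_lit 0) (.e (nat_lit 1239) (nat_lit 91) (.e (nat_lit 98048) (nat_lit 5) .nil)))))))) (.g (nat_lit 6) .nil .nil))))) (.nd (nat_lit 5) (.nd (nat_lit 6) 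
(.lf (nat_lit 202393) (.g (nat_lit 2675) (.e (nat_lit 73754) (nat_lit 8) (.e (nat_lit 557105) (nat_lit 14) (.e (nat_lit 180227) (nat_lit 0) (.e (nat_lit 5945) (nat_lit 322) (.e (nat_lit 57412) (nat_lit 12) (.e (nat_lit 335985) (nat_lit 1) (.e (nat_lit 57655) (nat_lit 152) (.e (nat_lit 1207) (nat_lit 89) .nil)))))))) (.g (nat_lit 5) .nil .nil))) 
(.lf (nat_lit 202457) (.g (nat_lit 3555) (.e (nat_lit 73754) (nat_lit 8) (.e (nat_lit 557105) (nat_lit 14) (.e (nat_lit 180252) (nat_lit 10) (.e (nat_lit 573451) (nat_lit 9) (.e (nat_lit 1177) (nat_lit 87) (.e (nat_lit 57931) (nat_lit 282) (.e (nat_lit 163869) (nat_lit 2) (.e (nat_lit 196669) (nat_lit 14) .nil)))))))) (.g (nat_lit 4) .nil .nil)))) (.nd (nat_lit 6) 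
(.lf (nat_lit 202425) (.g (nat_lit 3691) (.e (nat_lit 73754) (nat_lit 8) (.e (nat_lit 557105) (nat_lit 14) (.e (nat_lit 180252) (nat_lit 10) (.e (nat_lit 573441) (nat_lit 0) (.e (nat_lit 2856) (nat_lit 184) (.e (nat_lit 426427) (nat_lit 17) (.e (nat_lit 98048) (nat_lit 5) .nil))))))) (.g (nat_lit 6) .nil .nil))) 
(.lf (nat_lit 202489) (.g (nat_lit 3902) (.e (nat_lit 73754) (nat_lit 8) (.e (nat_lit 557105) (nat_lit 14) (.e (nat_lit 180252) (nat_lit 10) (.e (nat_lit 573468) (nat_lit 10) (.e (nat_lit 8268) (nat_lit 45) (.e (nat_lit 778240) (nat_lit 0) (.e (nat_lit 1239) (nat_lit 91) (.e (nat_lit 98048) (nat_lit 5) .nil)))))))) (.g (nat_lit 4) .nil .nil))))))) 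
(.nd (nat_lit 3) (.nd (nat_lit 4) (.nd (nat_lit 5) (.nd (nat_lit 6) 
(.lf (nat_lit 202373) (.g (nat_lit 2039) (.e (nat_lit 73754) (nat_lit 8) (.e (nat_lit 557103) (nat_lit 14) (.e (nat_lit 180244) (nat_lit 5) (.e (nat_lit 532579) (nat_lit 26) (.e (nat_lit 426024) (nat_lit 0) .nil))))) .nil)) 
(.lf (nat_lit 202437) (.g (nat_lit 1974) (.e (nat_lit 73754) (nat_lit 8) (.e (nat_lit 557105) (nat_lit 14) (.e (nat_lit 180252) (nat_lit 10) (.e (nat_lit 581376) (nat_lit 4) .nil)))) .nil))) (.nd (nat_lit 6) 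
(.lf (nat_lit 202405) (.g (nat_lit 271) (.e (nat_lit 73754) (nat_lit 8) (.e (nat_lit 557105) (nat_lit 14) (.e (nat_lit 180251) (nat_lit 10) .nil))) .nil)) 
(.lf (nat_lit 202469) (.g (nat_lit 3258) (.e (nat_lit 73754) (nat_lit 8) (.e (nat_lit 557105) (nat_lit 14) (.e (nat_lit 180252) (nat_lit 10) (.e (nat_lit 573467) (nat_lit 10) (.e (nat_lit 8260) (nat_lit 45) (.e (nat_lit 778267) (nat_lit 0) (.e (nat_lit 1235) (nat_lit 91) (.e (nat_lit 98048) (nat_lit 5) .nil)))))))) (.g (nat_lit 4) .nil .nil))))) (.nd (nat_lit 5) (.nd (nat_lit 6) 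
(.lf (nat_lit 202389) (.g (nat_lit 671) (.e (nat_lit 73754) (nat_lit 8) (.e (nat_lit 557105) (nat_lit 14) (.e (nat_lit 180224) (nat_lit 0) .nil))) .nil)) 
(.lf (nat_lit 202453) (.g (nat_lit 3579) (.e (nat_lit 73754) (nat_lit 8) (.e (nat_lit 557105) (nat_lit 14) (.e (nat_lit 180252) (nat_lit 10) (.e (nat_lit 573451) (nat_lit 9) (.e (nat_lit 1173) (nat_lit 87) (.e (nat_lit 57931) (nat_lit 282) (.e (nat_lit 163867) (nat_lit 2) (.e (nat_lit 196670) (nat_lit 14) .nil)))))))) (.g (nat_lit 4) .nil .nil)))) (.nd (nat_lit 6) 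
(.lf (nat_lit 202421) (.g (nat_lit 1530) (.e (nat_lit 73754) (nat_lit 8) (.e (nat_lit 557105) (nat_lit 14) (.e (nat_lit 180252) (nat_lit 10) (.e (nat_lit 573441) (nat_lit 0) .nil)))) .nil)) 
(.lf (nat_lit 202485) (.g (nat_lit 4466) (.e (nat_lit 73754) (nat_lit 8) (.e (nat_lit 557105) (nat_lit 14) (.e (nat_lit 180252) (nat_lit 10) (.e (nat_lit 573468) (nat_lit 10) (.e (nat_lit 8262) (nat_lit 45) (.e (nat_lit 778246) (nat_lit 0) (.e (nat_lit 1239) (nat_lit 91) (.e (nat_lit 98048) (nat_lit 5) .nil)))))))) (.g (nat_lit 6) .nil .nil)))))) (.nd (nat_lit 4) (.nd (nat_lit 5) (.nd (nat_lit 6) 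
(.lf (nat_lit 202381) (.g (nat_lit 2215) (.e (nat_lit 73754) (nat_lit 8) (.e (nat_lit 557103) (nat_lit 14) (.e (nat_lit 180250) (nat_lit 10) (.e (nat_lit 573468) (nat_lit 10) (.e (nat_lit 8262) (nat_lit 45) (.e (nat_lit 778246) (nat_lit 0) (.e (nat_lit 1239) (nat_lit 91) (.e (nat_lit 98048) (nat_lit 5) .nil)))))))) (.g (nat_lit 4) .nil .nil))) 
(.lf (nat_lit 202445) (.g (nat_lit 3239) (.e (nat_lit 73754) (nat_lit 8) (.e (nat_lit 557105) (nat_lit 14) (.e (nat_lit 180252) (nat_lit 10) (.e (nat_lit 573451) (nat_lit 9) (.e (nat_lit 52) (nat_lit 0) .nil))))) .nil))) (.nd (nat_lit 6) 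
(.lf (nat_lit 202413) (.g (nat_lit 1175) (.e (nat_lit 73754) (nat_lit 8) (.e (nat_lit 557105) (nat_lit 14) (.e (nat_lit 180251) (nat_lit 10) (.e (nat_lit 573477) (nat_lit 12) .nil)))) .nil)) 
(.lf (nat_lit 202477) (.g (nat_lit 3933) (.e (nat_lit 73754) (nat_lit 8) (.e (nat_lit 557105) (nat_lit 14) (.e (nat_lit 180252) (nat_lit 10) (.e (nat_lit 573467) (nat_lit 10) (.e (nat_lit 8274) (nat_lit 46) (.e (nat_lit 786454) (nat_lit 17) (.e (nat_lit 98048) (nat_lit 5) .nil))))))) (.g (nat_lit 5) .nil .nil))))) (.nd (nat_lit 5) (.nd (nat_lit 6) 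
(.lf (nat_lit 202397) (.g (nat_lit 1218) (.e (nat_lit 73754) (nat_lit 8) (.e (nat_lit 557105) (nat_lit 14) (.e (nat_lit 180232) (nat_lit 0) (.e (nat_lit 5599) (nat_lit 310) .nil)))) .nil)) 
(.lf (nat_lit 202461) (.g (nat_lit 2906) (.e (nat_lit 73754) (nat_lit 8) (.e (nat_lit 557105) (nat_lit 14) (.e (nat_lit 180252) (nat_lit 10) (.e (nat_lit 573458) (nat_lit 9) (.e (nat_lit 1180) (nat_lit 87) (.e (nat_lit 57930) (nat_lit 282) (.e (nat_lit 163867) (nat_lit 2) (.e (nat_lit 196670) (nat_lit 14) .nil)))))))) (.g (nat_lit 4) .nil .nil)))) (.nd (nat_lit 6) 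
(.lf (nat_lit 202429) (.g (nat_lit 3024) (.e (nat_lit 73754) (nat_lit 8) (.e (nat_lit 557105) (nat_lit 14) (.e (nat_lit 180252) (nat_lit 10) (.e (nat_lit 573441) (nat_lit 0) (.e (nat_lit 2857) (nat_lit 184) (.e (nat_lit 426430) (nat_lit 17) (.e (nat_lit 98048) (nat_lit 5) .nil))))))) (.g (nat_lit 5) .nil .nil))) 
(.lf (nat_lit 202493) (.g (nat_lit 3713) (.e (nat_lit 73754) (nat_lit 8) (.e (nat_lit 557105) (nat_lit 14) (.e (nat_lit 180252) (nat_lit 10) (.e (nat_lit 573468) (nat_lit 10) (.e (nat_lit 8271) (nat_lit 46) (.e (nat_lit 786454) (nat_lit 17) (.e (nat_lit 98048) (nat_lit 5) .nil))))))) (.g (nat_lit 4) .nil .nil)))))))) 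
(.nd (nat_lit 2) (.nd (nat_lit 3) (.nd (nat_lit 4) (.nd (nat_lit 5) (.nd (nat_lit 6) 
(.lf (nat_lit 202371) (.g (nat_lit 2515) (.e (nat_lit 73754) (nat_lit 8) (.e (nat_lit 557103) (nat_lit 14) (.e (nat_lit 180244) (nat_lit 5) (.e (nat_lit 532503) (nat_lit 1) (.e (nat_lit 65280) (nat_lit 168) .nil))))) .nil)) 
(.lf (nat_lit 202435) (.g (nat_lit 1974) (.e (nat_lit 73754) (nat_lit 8) (.e (nat_lit 557105) (nat_lit 14) (.e (nat_lit 180252) (nat_lit 10) (.e (nat_lit 581376) (nat_lit 0) .nil)))) .nil))) (.nd (nat_lit 6) 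
(.lf (nat_lit 202403) (.g (nat_lit 1866) (.e (nat_lit 73754) (nat_lit 8) (.e (nat_lit 557105) (nat_lit 14) (.e (nat_lit 180244) (nat_lit 5) (.e (nat_lit 532579) (nat_lit 26) .nil)))) .nil)) 
(.lf (nat_lit 202467) (.g (nat_lit 2225) (.e (nat_lit 73754) (nat_lit 8) (.e (nat_lit 557105) (nat_lit 14) (.e (nat_lit 180252) (nat_lit 10) (.e (nat_lit 573467) (nat_lit 10) .nil)))) .nil)))) (.nd (nat_lit 5) (.nd (nat_lit 6) 
(.lf (nat_lit 202387) (.g (nat_lit 1767) (.e (nat_lit 73754) (nat_lit 8) (.e (nat_lit 557103) (nat_lit 14) (.e (nat_lit 180261) (nat_lit 20) (.e (nat_lit 655378) (nat_lit 4) (.e (nat_lit 172061) (nat_lit 1) .nil))))) .nil)) 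
(.lf (nat_lit 202451) (.g (nat_lit 3225) (.e (nat_lit 73754) (nat_lit 8) (.e (nat_lit 557105) (nat_lit 14) (.e (nat_lit 180252) (nat_lit 10) (.e (nat_lit 573451) (nat_lit 9) (.e (nat_lit 1173) (nat_lit 87) .nil))))) .nil))) (.nd (nat_lit 6) 
(.lf (nat_lit 202419) (.g (nat_lit 2064) (.e (nat_lit 73754) (nat_lit 8) (.e (nat_lit 557105) (nat_lit 14) (.e (nat_lit 180251) (nat_lit 10) (.e (nat_lit 573478) (nat_lit 12) (.e (nat_lit 57360) (nat_lit 0) (.e (nat_lit 5949) (nat_lit 322) (.e (nat_lit 57370) (nat_lit 2) (.e (nat_lit 98048) (nat_lit 5) .nil)))))))) (.g (nat_lit 4) .nil .nil))) 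
(.lf (nat_lit 202483) (.g (nat_lit 5502) (.e (nat_lit 73754) (nat_lit 8) (.e (nat_lit 557105) (nat_lit 14) (.e (nat_lit 180252) (nat_lit 10) (.e (nat_lit 573468) (nat_lit 10) (.e (nat_lit 8261) (nat_lit 45) (.e (nat_lit 778318) (nat_lit 3) (.e (nat_lit 57454) (nat_lit 21) (.e (nat_lit 507648) (nat_lit 19) .nil)))))))) (.g (nat_lit 7) .nil .nil)))))) 
(.nd (nat_lit 4) (.nd (nat_lit 5) (.nd (nat_lit 6) 
(.lf (nat_lit 202379) (.g (nat_lit 2307) (.e (nat_lit 73754) (nat_lit 8) (.e (nat_lit 557103) (nat_lit 14) (.e (nat_lit 180250) (nat_lit 10) (.e (nat_lit 573468) (nat_lit 10) (.e (nat_lit 8260) (nat_lit 45) (.e (nat_lit 778318) (nat_lit 3) (.e (nat_lit 57454) (nat_lit 21) (.e (nat_lit 507648) (nat_lit 19) .nil)))))))) (.g (nat_lit 4) .nil .nil))) 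
(.lf (nat_lit 202443) (.g (nat_lit 3875) (.e (nat_lit 73754) (nat_lit 8) (.e (nat_lit 557105) (nat_lit 14) (.e (nat_lit 180252) (nat_lit 10) (.e (nat_lit 573449) (nat_lit 9) (.e (nat_lit 1183) (nat_lit 87) (.e (nat_lit 57931) (nat_lit 282) (.e (nat_lit 163867) (nat_lit 2) (.e (nat_lit 196670) (nat_lit 14) .nil)))))))) (.g (nat_lit 5) .nil .nil)))) (.nd (nat_lit 6) 
(.lf (nat_lit 202411) (.g (nat_lit 2963) (.e (nat_lit 73754) (nat_lit 8) (.e (nat_lit 557105) (nat_lit 14) (.e (nat_lit 180251) (nat_lit 10) (.e (nat_lit 573475) (nat_lit 12) (.e (nat_lit 57360) (nat_lit 0) .nil))))) .nil)) 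
(.lf (nat_lit 202475) (.g (nat_lit 5452) (.e (nat_lit 73754) (nat_lit 8) (.e (nat_lit 557105) (nat_lit 14) (.e (nat_lit 180252) (nat_lit 10) (.e (nat_lit 573467) (nat_lit 10) (.e (nat_lit 8262) (nat_lit 45) (.e (nat_lit 778318) (nat_lit 3) (.e (nat_lit 57454) (nat_lit 21) (.e (nat_lit 507648) (nat_lit 19) .nil)))))))) (.g (nat_lit 7) .nil .nil))))) (.nd (nat_lit 5) (.nd (nat_lit 6) 
(.lf (nat_lit 202395) (.g (nat_lit 761) (.e (nat_lit 73754) (nat_lit 8) (.e (nat_lit 557105) (nat_lit 14) (.e (nat_lit 180230) (nat_lit 0) .nil))) .nil)) 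
(.lf (nat_lit 202459) (.g (nat_lit 2670) (.e (nat_lit 73754) (nat_lit 8) (.e (nat_lit 557105) (nat_lit 14) (.e (nat_lit 180252) (nat_lit 10) (.e (nat_lit 573453) (nat_lit 9) .nil)))) .nil))) (.nd (nat_lit 6) 
(.lf (nat_lit 202427) (.g (nat_lit 3636) (.e (nat_lit 73754) (nat_lit 8) (.e (nat_lit 557105) (nat_lit 14) (.e (nat_lit 180252) (nat_lit 10) (.e (nat_lit 573441) (nat_lit 0) (.e (nat_lit 2856) (nat_lit 184) (.e (nat_lit 426432) (nat_lit 17) (.e (nat_lit 98048) (nat_lit 5) .nil))))))) (.g (nat_lit 5) .nil .nil))) 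
(.lf (nat_lit 202491) (.g (nat_lit 3207) (.e (nat_lit 73754) (nat_lit 8) (.e (nat_lit 557105) (nat_lit 14) (.e (nat_lit 180252) (nat_lit 10) (.e (nat_lit 573468) (nat_lit 10) (.e (nat_lit 8270) (nat_lit 46) (.e (nat_lit 786454) (nat_lit 17) (.e (nat_lit 98048) (nat_lit 5) .nil))))))) (.g (nat_lit 4) .nil .nil))))))) (.nd (nat_lit 3) (.nd (nat_lit 4) (.nd (nat_lit 5) (.nd (nat_lit 6) 
(.lf (nat_lit 202375) (.g (nat_lit 829) (.e (nat_lit 73754) (nat_lit 8) (.e (nat_lit 557103) (nat_lit 14) (.e (nat_lit 180248) (nat_lit 9) (.e (nat_lit 565252) (nat_lit 0) .nil)))) .nil)) 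
(.lf (nat_lit 202439) (.g (nat_lit 2682) (.e (nat_lit 73754) (nat_lit 8) (.e (nat_lit 557105) (nat_lit 14) (.e (nat_lit 180252) (nat_lit 10) (.e (nat_lit 573448) (nat_lit 9) .nil)))) .nil))) (.nd (nat_lit 6) 
(.lf (nat_lit 202407) (.g (nat_lit 2650) (.e (nat_lit 73754) (nat_lit 8) (.e (nat_lit 557105) (nat_lit 14) (.e (nat_lit 180251) (nat_lit 10) (.e (nat_lit 573442) (nat_lit 0) (.e (nat_lit 2852) (nat_lit 184) (.e (nat_lit 426428) (nat_lit 17) (.e (nat_lit 98048) (nat_lit 5) .nil))))))) (.g (nat_lit 4) .nil .nil))) 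
(.lf (nat_lit 202471) (.g (nat_lit 3601) (.e (nat_lit 73754) (nat_lit 8) (.e (nat_lit 557105) (nat_lit 14) (.e (nat_lit 180252) (nat_lit 10) (.e (nat_lit 573467) (nat_lit 10) (.e (nat_lit 8261) (nat_lit 45) (.e (nat_lit 778246) (nat_lit 0) (.e (nat_lit 1239) (nat_lit 91) (.e (nat_lit 98048) (nat_lit 5) .nil)))))))) (.g (nat_lit 4) .nil .nil))))) (.nd (nat_lit 5) (.nd (nat_lit 6) 
(.lf (nat_lit 202391) (.g (nat_lit 423) (.e (nat_lit 73754) (nat_lit 8) (.e (nat_lit 557105) (nat_lit 14) (.e (nat_lit 180227) (nat_lit 0) .nil))) .nil)) 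
(.lf (nat_lit 202455) (.g (nat_lit 3668) (.e (nat_lit 73754) (nat_lit 8) (.e (nat_lit 557105) (nat_lit 14) (.e (nat_lit 180252) (nat_lit 10) (.e (nat_lit 573451) (nat_lit 9) (.e (nat_lit 1174) (nat_lit 87) (.e (nat_lit 57930) (nat_lit 282) (.e (nat_lit 163869) (nat_lit 2) (.e (nat_lit 196670) (nat_lit 14) .nil)))))))) (.g (nat_lit 4) .nil .nil)))) (.nd (nat_lit 6) 
(.lf (nat_lit 202423) (.g (nat_lit 2668) (.e (nat_lit 73754) (nat_lit 8) (.e (nat_lit 557105) (nat_lit 14) (.e (nat_lit 180252) (nat_lit 10) (.e (nat_lit 573441) (nat_lit 0) (.e (nat_lit 2855) (nat_lit 184) (.e (nat_lit 426428) (nat_lit 17) (.e (nat_lit 98048) (nat_lit 5) .nil))))))) (.g (nat_lit 4) .nil .nil))) 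
(.lf (nat_lit 202487) (.g (nat_lit 4667) (.e (nat_lit 73754) (nat_lit 8) (.e (nat_lit 557105) (nat_lit 14) (.e (nat_lit 180252) (nat_lit 10) (.e (nat_lit 573468) (nat_lit 10) (.e (nat_lit 8262) (nat_lit 45) (.e (nat_lit 778317) (nat_lit 3) (.e (nat_lit 57454) (nat_lit 21) (.e (nat_lit 507648) (nat_lit 19) .nil)))))))) (.g (nat_lit 6) .nil .nil)))))) 
(.nd (nat_lit 4) (.nd (nat_lit 5) (.nd (nat_lit 6) 
(.lf (nat_lit 202383) (.g (nat_lit 3373) (.e (nat_lit 73754) (nat_lit 8) (.e (nat_lit 557103) (nat_lit 14) (.e (nat_lit 180250) (nat_lit 10) (.e (nat_lit 573468) (nat_lit 10) (.e (nat_lit 8262) (nat_lit 45) (.e (nat_lit 778318) (nat_lit 3) (.e (nat_lit 57454) (nat_lit 21) (.e (nat_lit 507648) (nat_lit 19) .nil)))))))) (.g (nat_lit 6) .nil .nil))) 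
(.lf (nat_lit 202447) (.g (nat_lit 3742) (.e (nat_lit 73754) (nat_lit 8) (.e (nat_lit 557105) (nat_lit 14) (.e (nat_lit 180252) (nat_lit 10) (.e (nat_lit 573451) (nat_lit 9) (.e (nat_lit 52) (nat_lit 0) (.e (nat_lit 3632) (nat_lit 227) (.e (nat_lit 778318) (nat_lit 3) (.e (nat_lit 57454) (nat_lit 21) (.e (nat_lit 507648) (nat_lit 19) .nil))))))))) (.g (nat_lit 4) .nil .nil)))) (.nd (nat_lit 6) 
(.lf (nat_lit 202415) (.g (nat_lit 2220) (.e (nat_lit 73754) (nat_lit 8) (.e (nat_lit 557105) (nat_lit 14) (.e (nat_lit 180251) (nat_lit 10) (.e (nat_lit 573477) (nat_lit 12) (.e (nat_lit 57360) (nat_lit 0) (.e (nat_lit 5949) (nat_lit 322) (.e (nat_lit 57370) (nat_lit 2) (.e (nat_lit 98048) (nat_lit 5) .nil)))))))) (.g (nat_lit 4) .nil .nil))) 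
(.lf (nat_lit 202479) (.g (nat_lit 5460) (.e (nat_lit 73754) (nat_lit 8) (.e (nat_lit 557105) (nat_lit 14) (.e (nat_lit 180252) (nat_lit 10) (.e (nat_lit 573468) (nat_lit 10) (.e (nat_lit 8259) (nat_lit 45) (.e (nat_lit 778318) (nat_lit 3) (.e (nat_lit 57454) (nat_lit 21) (.e (nat_lit 507648) (nat_lit 19) .nil)))))))) (.g (nat_lit 7) .nil .nil))))) (.nd (nat_lit 5) (.nd (nat_lit 6) 
(.lf (nat_lit 202399) (.g (nat_lit 1284) (.e (nat_lit 73754) (nat_lit 8) (.e (nat_lit 557105) (nat_lit 14) (.e (nat_lit 180233) (nat_lit 0) (.e (nat_lit 5599) (nat_lit 310) .nil)))) .nil)) 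
(.lf (nat_lit 202463) (.g (nat_lit 2682) (.e (nat_lit 73754) (nat_lit 8) (.e (nat_lit 557105) (nat_lit 14) (.e (nat_lit 180252) (nat_lit 10) (.e (nat_lit 573460) (nat_lit 9) .nil)))) .nil))) (.nd (nat_lit 6) 
(.lf (nat_lit 202431) (.g (nat_lit 3375) (.e (nat_lit 73754) (nat_lit 8) (.e (nat_lit 557105) (nat_lit 14) (.e (nat_lit 180252) (nat_lit 10) (.e (nat_lit 573441) (nat_lit 0) (.e (nat_lit 3065) (nat_lit 190) (.e (nat_lit 475169) (nat_lit 22) (.e (nat_lit 507648) (nat_lit 19) .nil))))))) (.g (nat_lit 6) .nil .nil))) 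
(.lf (nat_lit 202495) (.g (nat_lit 4086) (.e (nat_lit 73754) (nat_lit 8) (.e (nat_lit 557105) (nat_lit 14) (.e (nat_lit 180252) (nat_lit 10) (.e (nat_lit 573468) (nat_lit 10) (.e (nat_lit 8272) (nat_lit 46) (.e (nat_lit 786454) (nat_lit 17) (.e (nat_lit 98048) (nat_lit 5) .nil))))))) (.g (nat_lit 4) .nil .nil))))))))))

noncomputable def tv2672 : DT := (.nd (nat_lit 0) (.nd (nat_lit 1) (.nd (nat_lit 2) (.nd (nat_lit 3) (.nd (nat_lit 4) (.nd (nat_lit 5) 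
(.lf (nat_lit 202496) (.g (nat_lit 3956) (.e (nat_lit 73754) (nat_lit 8) (.e (nat_lit 557105) (nat_lit 14) (.e (nat_lit 180252) (nat_lit 10) (.e (nat_lit 573468) (nat_lit 10) (.e (nat_lit 8272) (nat_lit 46) (.e (nat_lit 786455) (nat_lit 17) (.e (nat_lit 98048) (nat_lit 5) .nil))))))) (.g (nat_lit 4) .nil .nil))) 
(.lf (nat_lit 202528) (.g (nat_lit 2456) (.e (nat_lit 73754) (nat_lit 8) (.e (nat_lit 557105) (nat_lit 14) (.e (nat_lit 180252) (nat_lit 10) (.e (nat_lit 573473) (nat_lit 12) (.e (nat_lit 57516) (nat_lit 42) (.e (nat_lit 671751) (nat_lit 0) (.e (nat_lit 1234) (nat_lit 91) (.e (nat_lit 98048) (nat_lit 5) .nil)))))))) (.g (nat_lit 4) .nil .nil)))) (.nd (nat_lit 5) 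
(.lf (nat_lit 202512) (.g (nat_lit 2118) (.e (nat_lit 73754) (nat_lit 8) (.e (nat_lit 557105) (nat_lit 14) (.e (nat_lit 180252) (nat_lit 10) (.e (nat_lit 573473) (nat_lit 12) (.e (nat_lit 57507) (nat_lit 39) .nil))))) .nil)) 
(.lf (nat_lit 202544) (.g (nat_lit 4001) (.e (nat_lit 73754) (nat_lit 8) (.e (nat_lit 557105) (nat_lit 14) (.e (nat_lit 180252) (nat_lit 10) (.e (nat_lit 573474) (nat_lit 12) (.e (nat_lit 57349) (nat_lit 0) (.e (nat_lit 5592) (nat_lit 310) (.e (nat_lit 163871) (nat_lit 2) (.e (nat_lit 196670) (nat_lit 14) .nil)))))))) (.g (nat_lit 4) .nil .nil))))) (.nd (nat_lit 4) (.nd (nat_lit 5) 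
(.lf (nat_lit 202504) (.g (nat_lit 2673) (.e (nat_lit 73754) (nat_lit 8) (.e (nat_lit 557105) (nat_lit 14) (.e (nat_lit 180252) (nat_lit 10) (.e (nat_lit 573473) (nat_lit 12) (.e (nat_lit 57348) (nat_lit 0) (.e (nat_lit 5590) (nat_lit 310) (.e (nat_lit 163867) (nat_lit 2) (.e (nat_lit 196670) (nat_lit 14) .nil)))))))) (.g (nat_lit 4) .nil .nil))) 
(.lf (nat_lit 202536) (.g (nat_lit 4013) (.e (nat_lit 73754) (nat_lit 8) (.e (nat_lit 557105) (nat_lit 14) (.e (nat_lit 180252) (nat_lit 10) (.e (nat_lit 573474) (nat_lit 12) (.e (nat_lit 57347) (nat_lit 0) (.e (nat_lit 5584) (nat_lit 310) (.e (nat_lit 163867) (nat_lit 2) (.e (nat_lit 196667) (nat_lit 14) .nil)))))))) (.g (nat_lit 4) .nil .nil)))) (.nd (nat_lit 5) 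
(.lf (nat_lit 202520) (.g (nat_lit 2418) (.e (nat_lit 73754) (nat_lit 8) (.e (nat_lit 557105) (nat_lit 14) (.e (nat_lit 180252) (nat_lit 10) (.e (nat_lit 573473) (nat_lit 12) (.e (nat_lit 57515) (nat_lit 42) .nil))))) .nil)) 
(.lf (nat_lit 202552) (.g (nat_lit 4050) (.e (nat_lit 73754) (nat_lit 8) (.e (nat_lit 557105) (nat_lit 14) (.e (nat_lit 180252) (nat_lit 10) (.e (nat_lit 573474) (nat_lit 12) (.e (nat_lit 57353) (nat_lit 0) (.e (nat_lit 5584) (nat_lit 310) (.e (nat_lit 163871) (nat_lit 2) (.e (nat_lit 196670) (nat_lit 14) .nil)))))))) (.g (nat_lit 4) .nil .nil)))))) 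
(.nd (nat_lit 3) (.nd (nat_lit 4) (.nd (nat_lit 5) 
(.lf (nat_lit 202500) (.g (nat_lit 4043) (.e (nat_lit 73754) (nat_lit 8) (.e (nat_lit 557105) (nat_lit 14) (.e (nat_lit 180252) (nat_lit 10) (.e (nat_lit 573468) (nat_lit 10) (.e (nat_lit 8274) (nat_lit 46) (.e (nat_lit 786455) (nat_lit 17) (.e (nat_lit 98048) (nat_lit 5) .nil))))))) (.g (nat_lit 4) .nil .nil))) 
(.lf (nat_lit 202532) (.g (nat_lit 3368) (.e (nat_lit 73754) (nat_lit 8) (.e (nat_lit 557105) (nat_lit 14) (.e (nat_lit 180252) (nat_lit 10) (.e (nat_lit 573474) (nat_lit 12) (.e (nat_lit 57344) (nat_lit 0) (.e (nat_lit 5602) (nat_lit 310) (.e (nat_lit 163867) (nat_lit 2) (.e (nat_lit 196670) (nat_lit 14) .nil)))))))) (.g (nat_lit 4) .nil .nil)))) (.nd (nat_lit 5) 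
(.lf (nat_lit 202516) (.g (nat_lit 4487) (.e (nat_lit 73754) (nat_lit 8) (.e (nat_lit 557105) (nat_lit 14) (.e (nat_lit 180252) (nat_lit 10) (.e (nat_lit 573473) (nat_lit 12) (.e (nat_lit 57507) (nat_lit 39) (.e (nat_lit 647203) (nat_lit 14) (.e (nat_lit 1139) (nat_lit 84) (.e (nat_lit 32788) (nat_lit 10) .nil)))))))) (.g (nat_lit 7) .nil .nil))) 
(.lf (nat_lit 202548) (.g (nat_lit 4114) (.e (nat_lit 73754) (nat_lit 8) (.e (nat_lit 557105) (nat_lit 14) (.e (nat_lit 180252) (nat_lit 10) (.e (nat_lit 573474) (nat_lit 12) (.e (nat_lit 57351) (nat_lit 0) (.e (nat_lit 5584) (nat_lit 310) (.e (nat_lit 163871) (nat_lit 2) (.e (nat_lit 196670) (nat_lit 14) .nil)))))))) (.g (nat_lit 4) .nil .nil))))) (.nd (nat_lit 4) (.nd (nat_lit 5) 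
(.lf (nat_lit 202508) (.g (nat_lit 2322) (.e (nat_lit 73754) (nat_lit 8) (.e (nat_lit 557105) (nat_lit 14) (.e (nat_lit 180252) (nat_lit 10) (.e (nat_lit 573473) (nat_lit 12) (.e (nat_lit 57352) (nat_lit 0) .nil))))) .nil)) 
(.lf (nat_lit 202540) (.g (nat_lit 3622) (.e (nat_lit 73754) (nat_lit 8) (.e (nat_lit 557105) (nat_lit 14) (.e (nat_lit 180252) (nat_lit 10) (.e (nat_lit 573474) (nat_lit 12) (.e (nat_lit 57347) (nat_lit 0) (.e (nat_lit 5593) (nat_lit 310) (.e (nat_lit 163870) (nat_lit 2) (.e (nat_lit 196667) (nat_lit 14) .nil)))))))) (.g (nat_lit 4) .nil .nil)))) (.nd (nat_lit 5) 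
(.lf (nat_lit 202524) (.g (nat_lit 2747) (.e (nat_lit 73754) (nat_lit 8) (.e (nat_lit 557105) (nat_lit 14) (.e (nat_lit 180252) (nat_lit 10) (.e (nat_lit 573473) (nat_lit 12) (.e (nat_lit 57516) (nat_lit 42) (.e (nat_lit 671748) (nat_lit 0) (.e (nat_lit 1016) (nat_lit 81) (.e (nat_lit 1691) (nat_lit 117) (.e (nat_lit 500068) (nat_lit 19) .nil))))))))) (.g (nat_lit 4) .nil .nil))) 
(.lf (nat_lit 202556) (.g (nat_lit 3816) (.e (nat_lit 73754) (nat_lit 8) (.e (nat_lit 557105) (nat_lit 14) (.e (nat_lit 180252) (nat_lit 10) (.e (nat_lit 573474) (nat_lit 12) (.e (nat_lit 57354) (nat_lit 0) (.e (nat_lit 5596) (nat_lit 310) (.e (nat_lit 163867) (nat_lit 2) (.e (nat_lit 196670) (nat_lit 14) .nil)))))))) (.g (nat_lit 4) .nil .nil))))))) 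
(.nd (nat_lit 2) (.nd (nat_lit 3) (.nd (nat_lit 4) (.nd (nat_lit 5) 
(.lf (nat_lit 202498) (.g (nat_lit 3821) (.e (nat_lit 73754) (nat_lit 8) (.e (nat_lit 557105) (nat_lit 14) (.e (nat_lit 180252) (nat_lit 10) (.e (nat_lit 573468) (nat_lit 10) (.e (nat_lit 8273) (nat_lit 46) (.e (nat_lit 786455) (nat_lit 17) (.e (nat_lit 98048) (nat_lit 5) .nil))))))) (.g (nat_lit 4) .nil .nil))) 
(.lf (nat_lit 202530) (.g (nat_lit 3674) (.e (nat_lit 73754) (nat_lit 8) (.e (nat_lit 557105) (nat_lit 14) (.e (nat_lit 180252) (nat_lit 10) (.e (nat_lit 573474) (nat_lit 12) (.e (nat_lit 57344) (nat_lit 0) (.e (nat_lit 5584) (nat_lit 310) (.e (nat_lit 163867) (nat_lit 2) (.e (nat_lit 196670) (nat_lit 14) .nil)))))))) (.g (nat_lit 4) .nil .nil)))) (.nd (nat_lit 5) 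
(.lf (nat_lit 202514) (.g (nat_lit 3967) (.e (nat_lit 73754) (nat_lit 8) (.e (nat_lit 557105) (nat_lit 14) (.e (nat_lit 180252) (nat_lit 10) (.e (nat_lit 573473) (nat_lit 12) (.e (nat_lit 57507) (nat_lit 39) (.e (nat_lit 647200) (nat_lit 12) (.e (nat_lit 57473) (nat_lit 27) (.e (nat_lit 548890) (nat_lit 10) .nil)))))))) (.g (nat_lit 6) .nil .nil))) 
(.lf (nat_lit 202546) (.g (nat_lit 3452) (.e (nat_lit 73754) (nat_lit 8) (.e (nat_lit 557105) (nat_lit 14) (.e (nat_lit 180252) (nat_lit 10) (.e (nat_lit 573474) (nat_lit 12) (.e (nat_lit 57351) (nat_lit 0) .nil))))) .nil)))) (.nd (nat_lit 4) (.nd (nat_lit 5) 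
(.lf (nat_lit 202506) (.g (nat_lit 2651) (.e (nat_lit 73754) (nat_lit 8) (.e (nat_lit 557105) (nat_lit 14) (.e (nat_lit 180252) (nat_lit 10) (.e (nat_lit 573473) (nat_lit 12) (.e (nat_lit 57348) (nat_lit 0) (.e (nat_lit 5595) (nat_lit 310) (.e (nat_lit 163867) (nat_lit 2) (.e (nat_lit 196670) (nat_lit 14) .nil)))))))) (.g (nat_lit 4) .nil .nil))) 
(.lf (nat_lit 202538) (.g (nat_lit 3505) (.e (nat_lit 73754) (nat_lit 8) (.e (nat_lit 557105) (nat_lit 14) (.e (nat_lit 180252) (nat_lit 10) (.e (nat_lit 573474) (nat_lit 12) (.e (nat_lit 57347) (nat_lit 0) (.e (nat_lit 5591) (nat_lit 310) (.e (nat_lit 163870) (nat_lit 2) (.e (nat_lit 196667) (nat_lit 14) .nil)))))))) (.g (nat_lit 4) .nil .nil)))) (.nd (nat_lit 5) 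
(.lf (nat_lit 202522) (.g (nat_lit 2591) (.e (nat_lit 73754) (nat_lit 8) (.e (nat_lit 557105) (nat_lit 14) (.e (nat_lit 180252) (nat_lit 10) (.e (nat_lit 573473) (nat_lit 12) (.e (nat_lit 57515) (nat_lit 42) (.e (nat_lit 671751) (nat_lit 0) (.e (nat_lit 1236) (nat_lit 91) (.e (nat_lit 98048) (nat_lit 5) .nil)))))))) (.g (nat_lit 4) .nil .nil))) 
(.lf (nat_lit 202554) (.g (nat_lit 3912) (.e (nat_lit 73754) (nat_lit 8) (.e (nat_lit 557105) (nat_lit 14) (.e (nat_lit 180252) (nat_lit 10) (.e (nat_lit 573474) (nat_lit 12) (.e (nat_lit 57353) (nat_lit 0) (.e (nat_lit 5595) (nat_lit 310) (.e (nat_lit 163869) (nat_lit 2) (.e (nat_lit 196670) (nat_lit 14) .nil)))))))) (.g (nat_lit 4) .nil .nil)))))) 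
(.nd (nat_lit 3) (.nd (nat_lit 4) (.nd (nat_lit 5) 
(.lf (nat_lit 202502) (.g (nat_lit 2536) (.e (nat_lit 73754) (nat_lit 8) (.e (nat_lit 557105) (nat_lit 14) (.e (nat_lit 180252) (nat_lit 10) (.e (nat_lit 573473) (nat_lit 12) (.e (nat_lit 57345) (nat_lit 0) (.e (nat_lit 5604) (nat_lit 310) (.e (nat_lit 163867) (nat_lit 2) (.e (nat_lit 196670) (nat_lit 14) .nil)))))))) (.g (nat_lit 4) .nil .nil))) 
(.lf (nat_lit 202534) (.g (nat_lit 3167) (.e (nat_lit 73754) (nat_lit 8) (.e (nat_lit 557105) (nat_lit 14) (.e (nat_lit 180252) (nat_lit 10) (.e (nat_lit 573474) (nat_lit 12) (.e (nat_lit 57345) (nat_lit 0) .nil))))) .nil))) (.nd (nat_lit 5) 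
(.lf (nat_lit 202518) (.g (nat_lit 2416) (.e (nat_lit 73754) (nat_lit 8) (.e (nat_lit 557105) (nat_lit 14) (.e (nat_lit 180252) (nat_lit 10) (.e (nat_lit 573473) (nat_lit 12) (.e (nat_lit 57510) (nat_lit 39) .nil))))) .nil)) 
(.lf (nat_lit 202550) (.g (nat_lit 3525) (.e (nat_lit 73754) (nat_lit 8) (.e (nat_lit 557105) (nat_lit 14) (.e (nat_lit 180252) (nat_lit 10) (.e (nat_lit 573474) (nat_lit 12) (.e (nat_lit 57353) (nat_lit 0) .nil))))) .nil)))) (.nd (nat_lit 4) (.nd (nat_lit 5) 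
(.lf (nat_lit 202510) (.g (nat_lit 2418) (.e (nat_lit 73754) (nat_lit 8) (.e (nat_lit 557105) (nat_lit 14) (.e (nat_lit 180252) (nat_lit 10) (.e (nat_lit 573473) (nat_lit 12) (.e (nat_lit 57355) (nat_lit 0) .nil))))) .nil)) 
(.lf (nat_lit 202542) (.g (nat_lit 3458) (.e (nat_lit 73754) (nat_lit 8) (.e (nat_lit 557105) (nat_lit 14) (.e (nat_lit 180252) (nat_lit 10) (.e (nat_lit 573474) (nat_lit 12) (.e (nat_lit 57349) (nat_lit 0) .nil))))) .nil))) (.nd (nat_lit 5) 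
(.lf (nat_lit 202526) (.g (nat_lit 2646) (.e (nat_lit 73754) (nat_lit 8) (.e (nat_lit 557105) (nat_lit 14) (.e (nat_lit 180252) (nat_lit 10) (.e (nat_lit 573473) (nat_lit 12) (.e (nat_lit 57516) (nat_lit 42) (.e (nat_lit 671748) (nat_lit 0) (.e (nat_lit 1239) (nat_lit 91) (.e (nat_lit 98048) (nat_lit 5) .nil)))))))) (.g (nat_lit 4) .nil .nil))) 
(.lf (nat_lit 202558) (.g (nat_lit 4085) (.e (nat_lit 73754) (nat_lit 8) (.e (nat_lit 557105) (nat_lit 14) (.e (nat_lit 180252) (nat_lit 10) (.e (nat_lit 573474) (nat_lit 12) (.e (nat_lit 57355) (nat_lit 0) (.e (nat_lit 5584) (nat_lit 310) (.e (nat_lit 163867) (nat_lit 2) (.e (nat_lit 196670) (nat_lit 14) .nil)))))))) (.g (nat_lit 4) .nil .nil)))))))) 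
(.nd (nat_lit 1) (.nd (nat_lit 2) (.nd (nat_lit 3) (.nd (nat_lit 4) (.nd (nat_lit 5) 
(.lf (nat_lit 202497) (.g (nat_lit 4018) (.e (nat_lit 73754) (nat_lit 8) (.e (nat_lit 557105) (nat_lit 14) (.e (nat_lit 180252) (nat_lit 10) (.e (nat_lit 573468) (nat_lit 10) (.e (nat_lit 8273) (nat_lit 46) (.e (nat_lit 786454) (nat_lit 17) (.e (nat_lit 98048) (nat_lit 5) .nil))))))) (.g (nat_lit 4) .nil .nil))) 
(.lf (nat_lit 202529) (.g (nat_lit 3213) (.e (nat_lit 73754) (nat_lit 8) (.e (nat_lit 557105) (nat_lit 14) (.e (nat_lit 180252) (nat_lit 10) (.e (nat_lit 573474) (nat_lit 12) (.e (nat_lit 57344) (nat_lit 0) .nil))))) .nil))) (.nd (nat_lit 5) 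
(.lf (nat_lit 202513) (.g (nat_lit 2606) (.e (nat_lit 73754) (nat_lit 8) (.e (nat_lit 557105) (nat_lit 14) (.e (nat_lit 180252) (nat_lit 10) (.e (nat_lit 573473) (nat_lit 12) (.e (nat_lit 57507) (nat_lit 39) (.e (nat_lit 647200) (nat_lit 12) (.e (nat_lit 57471) (nat_lit 27) (.e (nat_lit 548890) (nat_lit 10) .nil)))))))) (.g (nat_lit 4) .nil .nil))) 
(.lf (nat_lit 202545) (.g (nat_lit 4157) (.e (nat_lit 73754) (nat_lit 8) (.e (nat_lit 557105) (nat_lit 14) (.e (nat_lit 180252) (nat_lit 10) (.e (nat_lit 573474) (nat_lit 12) (.e (nat_lit 57349) (nat_lit 0) (.e (nat_lit 5595) (nat_lit 310) (.e (nat_lit 163867) (nat_lit 2) (.e (nat_lit 196670) (nat_lit 14) .nil)))))))) (.g (nat_lit 4) .nil .nil))))) (.nd (nat_lit 4) (.nd (nat_lit 5) 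
(.lf (nat_lit 202505) (.g (nat_lit 2418) (.e (nat_lit 73754) (nat_lit 8) (.e (nat_lit 557105) (nat_lit 14) (.e (nat_lit 180252) (nat_lit 10) (.e (nat_lit 573473) (nat_lit 12) (.e (nat_lit 57348) (nat_lit 0) (.e (nat_lit 5591) (nat_lit 310) (.e (nat_lit 163867) (nat_lit 2) (.e (nat_lit 196670) (nat_lit 14) .nil)))))))) (.g (nat_lit 4) .nil .nil))) 
(.lf (nat_lit 202537) (.g (nat_lit 3654) (.e (nat_lit 73754) (nat_lit 8) (.e (nat_lit 557105) (nat_lit 14) (.e (nat_lit 180252) (nat_lit 10) (.e (nat_lit 573474) (nat_lit 12) (.e (nat_lit 57347) (nat_lit 0) (.e (nat_lit 5590) (nat_lit 310) (.e (nat_lit 163867) (nat_lit 2) (.e (nat_lit 196667) (nat_lit 14) .nil)))))))) (.g (nat_lit 4) .nil .nil)))) (.nd (nat_lit 5) 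
(.lf (nat_lit 202521) (.g (nat_lit 3287) (.e (nat_lit 73754) (nat_lit 8) (.e (nat_lit 557105) (nat_lit 14) (.e (nat_lit 180252) (nat_lit 10) (.e (nat_lit 573473) (nat_lit 12) (.e (nat_lit 57515) (nat_lit 42) (.e (nat_lit 671751) (nat_lit 0) (.e (nat_lit 1234) (nat_lit 91) (.e (nat_lit 98048) (nat_lit 5) .nil)))))))) (.g (nat_lit 4) .nil .nil))) 
(.lf (nat_lit 202553) (.g (nat_lit 4299) (.e (nat_lit 73754) (nat_lit 8) (.e (nat_lit 557105) (nat_lit 14) (.e (nat_lit 180252) (nat_lit 10) (.e (nat_lit 573474) (nat_lit 12) (.e (nat_lit 57353) (nat_lit 0) (.e (nat_lit 5595) (nat_lit 310) (.e (nat_lit 163867) (nat_lit 2) (.e (nat_lit 196670) (nat_lit 14) .nil)))))))) (.g (nat_lit 4) .nil .nil)))))) 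
(.nd (nat_lit 3) (.nd (nat_lit 4) (.nd (nat_lit 5) 
(.lf (nat_lit 202501) (.g (nat_lit 2281) (.e (nat_lit 73754) (nat_lit 8) (.e (nat_lit 557105) (nat_lit 14) (.e (nat_lit 180252) (nat_lit 10) (.e (nat_lit 573473) (nat_lit 12) (.e (nat_lit 57345) (nat_lit 0) .nil))))) .nil)) 
(.lf (nat_lit 202533) (.g (nat_lit 3575) (.e (nat_lit 73754) (nat_lit 8) (.e (nat_lit 557105) (nat_lit 14) (.e (nat_lit 180252) (nat_lit 10) (.e (nat_lit 573474) (nat_lit 12) (.e (nat_lit 57344) (nat_lit 0) (.e (nat_lit 5604) (nat_lit 310) (.e (nat_lit 163867) (nat_lit 2) (.e (nat_lit 196670) (nat_lit 14) .nil)))))))) (.g (nat_lit 4) .nil .nil)))) (.nd (nat_lit 5) 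
(.lf (nat_lit 202517) (.g (nat_lit 2007) (.e (nat_lit 73754) (nat_lit 8) (.e (nat_lit 557105) (nat_lit 14) (.e (nat_lit 180252) (nat_lit 10) (.e (nat_lit 573473) (nat_lit 12) (.e (nat_lit 57508) (nat_lit 39) .nil))))) .nil)) 
(.lf (nat_lit 202549) (.g (nat_lit 3958) (.e (nat_lit 73754) (nat_lit 8) (.e (nat_lit 557105) (nat_lit 14) (.e (nat_lit 180252) (nat_lit 10) (.e (nat_lit 573474) (nat_lit 12) (.e (nat_lit 57351) (nat_lit 0) (.e (nat_lit 5595) (nat_lit 310) (.e (nat_lit 163869) (nat_lit 2) (.e (nat_lit 196670) (nat_lit 14) .nil)))))))) (.g (nat_lit 4) .nil .nil))))) (.nd (nat_lit 4) (.nd (nat_lit 5) 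
(.lf (nat_lit 202509) (.g (nat_lit 2647) (.e (nat_lit 73754) (nat_lit 8) (.e (nat_lit 557105) (nat_lit 14) (.e (nat_lit 180252) (nat_lit 10) (.e (nat_lit 573473) (nat_lit 12) (.e (nat_lit 57354) (nat_lit 0) (.e (nat_lit 5601) (nat_lit 310) (.e (nat_lit 163867) (nat_lit 2) (.e (nat_lit 196670) (nat_lit 14) .nil)))))))) (.g (nat_lit 4) .nil .nil))) 
(.lf (nat_lit 202541) (.g (nat_lit 3622) (.e (nat_lit 73754) (nat_lit 8) (.e (nat_lit 557105) (nat_lit 14) (.e (nat_lit 180252) (nat_lit 10) (.e (nat_lit 573474) (nat_lit 12) (.e (nat_lit 57348) (nat_lit 0) (.e (nat_lit 5584) (nat_lit 310) (.e (nat_lit 163867) (nat_lit 2) (.e (nat_lit 196667) (nat_lit 14) .nil)))))))) (.g (nat_lit 4) .nil .nil)))) (.nd (nat_lit 5) 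
(.lf (nat_lit 202525) (.g (nat_lit 2536) (.e (nat_lit 73754) (nat_lit 8) (.e (nat_lit 557105) (nat_lit 14) (.e (nat_lit 180252) (nat_lit 10) (.e (nat_lit 573473) (nat_lit 12) (.e (nat_lit 57516) (nat_lit 42) (.e (nat_lit 671748) (nat_lit 0) (.e (nat_lit 1016) (nat_lit 81) (.e (nat_lit 1691) (nat_lit 117) (.e (nat_lit 500069) (nat_lit 19) .nil))))))))) (.g (nat_lit 4) .nil .nil))) 
(.lf (nat_lit 202557) (.g (nat_lit 3428) (.e (nat_lit 73754) (nat_lit 8) (.e (nat_lit 557105) (nat_lit 14) (.e (nat_lit 180252) (nat_lit 10) (.e (nat_lit 573474) (nat_lit 12) (.e (nat_lit 57354) (nat_lit 0) (.e (nat_lit 5600) (nat_lit 310) (.e (nat_lit 163867) (nat_lit 2) (.e (nat_lit 196670) (nat_lit 14) .nil)))))))) (.g (nat_lit 4) .nil .nil))))))) 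
(.nd (nat_lit 2) (.nd (nat_lit 3) (.nd (nat_lit 4) (.nd (nat_lit 5) 
(.lf (nat_lit 202499) (.g (nat_lit 3968) (.e (nat_lit 73754) (nat_lit 8) (.e (nat_lit 557105) (nat_lit 14) (.e (nat_lit 180252) (nat_lit 10) (.e (nat_lit 573468) (nat_lit 10) (.e (nat_lit 8274) (nat_lit 46) (.e (nat_lit 786454) (nat_lit 17) (.e (nat_lit 98048) (nat_lit 5) .nil))))))) (.g (nat_lit 4) .nil .nil))) 
(.lf (nat_lit 202531) (.g (nat_lit 3643) (.e (nat_lit 73754) (nat_lit 8) (.e (nat_lit 557105) (nat_lit 14) (.e (nat_lit 180252) (nat_lit 10) (.e (nat_lit 573474) (nat_lit 12) (.e (nat_lit 57344) (nat_lit 0) (.e (nat_lit 5595) (nat_lit 310) (.e (nat_lit 163867) (nat_lit 2) (.e (nat_lit 196670) (nat_lit 14) .nil)))))))) (.g (nat_lit 4) .nil .nil)))) (.nd (nat_lit 5) 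
(.lf (nat_lit 202515) (.g (nat_lit 3027) (.e (nat_lit 73754) (nat_lit 8) (.e (nat_lit 557105) (nat_lit 14) (.e (nat_lit 180252) (nat_lit 10) (.e (nat_lit 573473) (nat_lit 12) (.e (nat_lit 57507) (nat_lit 39) (.e (nat_lit 647203) (nat_lit 14) (.e (nat_lit 1135) (nat_lit 84) (.e (nat_lit 32788) (nat_lit 10) .nil)))))))) (.g (nat_lit 4) .nil .nil))) 
(.lf (nat_lit 202547) (.g (nat_lit 3961) (.e (nat_lit 73754) (nat_lit 8) (.e (nat_lit 557105) (nat_lit 14) (.e (nat_lit 180252) (nat_lit 10) (.e (nat_lit 573474) (nat_lit 12) (.e (nat_lit 57351) (nat_lit 0) (.e (nat_lit 5584) (nat_lit 310) (.e (nat_lit 163868) (nat_lit 2) (.e (nat_lit 196670) (nat_lit 14) .nil)))))))) (.g (nat_lit 4) .nil .nil))))) (.nd (nat_lit 4) (.nd (nat_lit 5) 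
(.lf (nat_lit 202507) (.g (nat_lit 2418) (.e (nat_lit 73754) (nat_lit 8) (.e (nat_lit 557105) (nat_lit 14) (.e (nat_lit 180252) (nat_lit 10) (.e (nat_lit 573473) (nat_lit 12) (.e (nat_lit 57349) (nat_lit 0) .nil))))) .nil)) 
(.lf (nat_lit 202539) (.g (nat_lit 3434) (.e (nat_lit 73754) (nat_lit 8) (.e (nat_lit 557105) (nat_lit 14) (.e (nat_lit 180252) (nat_lit 10) (.e (nat_lit 573474) (nat_lit 12) (.e (nat_lit 57347) (nat_lit 0) (.e (nat_lit 5593) (nat_lit 310) (.e (nat_lit 163867) (nat_lit 2) (.e (nat_lit 196670) (nat_lit 14) .nil)))))))) (.g (nat_lit 4) .nil .nil)))) (.nd (nat_lit 5) 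
(.lf (nat_lit 202523) (.g (nat_lit 2418) (.e (nat_lit 73754) (nat_lit 8) (.e (nat_lit 557105) (nat_lit 14) (.e (nat_lit 180252) (nat_lit 10) (.e (nat_lit 573473) (nat_lit 12) (.e (nat_lit 57516) (nat_lit 42) .nil))))) .nil)) 
(.lf (nat_lit 202555) (.g (nat_lit 3154) (.e (nat_lit 73754) (nat_lit 8) (.e (nat_lit 557105) (nat_lit 14) (.e (nat_lit 180252) (nat_lit 10) (.e (nat_lit 573474) (nat_lit 12) (.e (nat_lit 57354) (nat_lit 0) .nil))))) .nil))))) (.nd (nat_lit 3) (.nd (nat_lit 4) (.nd (nat_lit 5) 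
(.lf (nat_lit 202503) (.g (nat_lit 2297) (.e (nat_lit 73754) (nat_lit 8) (.e (nat_lit 557105) (nat_lit 14) (.e (nat_lit 180252) (nat_lit 10) (.e (nat_lit 573473) (nat_lit 12) (.e (nat_lit 57347) (nat_lit 0) .nil))))) .nil)) 
(.lf (nat_lit 202535) (.g (nat_lit 3611) (.e (nat_lit 73754) (nat_lit 8) (.e (nat_lit 557105) (nat_lit 14) (.e (nat_lit 180252) (nat_lit 10) (.e (nat_lit 573474) (nat_lit 12) (.e (nat_lit 57346) (nat_lit 0) (.e (nat_lit 7936) (nat_lit 310) (.e (nat_lit 163867) (nat_lit 2) (.e (nat_lit 196670) (nat_lit 14) .nil)))))))) (.g (nat_lit 4) .nil .nil)))) (.nd (nat_lit 5) 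
(.lf (nat_lit 202519) (.g (nat_lit 2252) (.e (nat_lit 73754) (nat_lit 8) (.e (nat_lit 557105) (nat_lit 14) (.e (nat_lit 180252) (nat_lit 10) (.e (nat_lit 573473) (nat_lit 12) (.e (nat_lit 57511) (nat_lit 39) .nil))))) .nil)) 
(.lf (nat_lit 202551) (.g (nat_lit 3911) (.e (nat_lit 73754) (nat_lit 8) (.e (nat_lit 557105) (nat_lit 14) (.e (nat_lit 180252) (nat_lit 10) (.e (nat_lit 573474) (nat_lit 12) (.e (nat_lit 57353) (nat_lit 0) (.e (nat_lit 5584) (nat_lit 310) (.e (nat_lit 163868) (nat_lit 2) (.e (nat_lit 196670) (nat_lit 14) .nil)))))))) (.g (nat_lit 4) .nil .nil))))) (.nd (nat_lit 4) (.nd (nat_lit 5) 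
(.lf (nat_lit 202511) (.g (nat_lit 2327) (.e (nat_lit 73754) (nat_lit 8) (.e (nat_lit 557105) (nat_lit 14) (.e (nat_lit 180252) (nat_lit 10) (.e (nat_lit 573473) (nat_lit 12) (.e (nat_lit 57506) (nat_lit 39) .nil))))) .nil)) 
(.lf (nat_lit 202543) (.g (nat_lit 4244) (.e (nat_lit 73754) (nat_lit 8) (.e (nat_lit 557105) (nat_lit 14) (.e (nat_lit 180252) (nat_lit 10) (.e (nat_lit 573474) (nat_lit 12) (.e (nat_lit 57349) (nat_lit 0) (.e (nat_lit 5590) (nat_lit 310) (.e (nat_lit 163867) (nat_lit 2) (.e (nat_lit 196670) (nat_lit 14) .nil)))))))) (.g (nat_lit 4) .nil .nil)))) (.nd (nat_lit 5) 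
(.lf (nat_lit 202527) (.g (nat_lit 2500) (.e (nat_lit 73754) (nat_lit 8) (.e (nat_lit 557105) (nat_lit 14) (.e (nat_lit 180252) (nat_lit 10) (.e (nat_lit 573473) (nat_lit 12) (.e (nat_lit 57516) (nat_lit 42) (.e (nat_lit 671748) (nat_lit 0) (.e (nat_lit 1304) (nat_lit 97) (.e (nat_lit 139281) (nat_lit 5) .nil)))))))) (.g (nat_lit 4) .nil .nil))) 
(.lf (nat_lit 202559) (.g (nat_lit 3992) (.e (nat_lit 73754) (nat_lit 8) (.e (nat_lit 557105) (nat_lit 14) (.e (nat_lit 180252) (nat_lit 10) (.e (nat_lit 573474) (nat_lit 12) (.e (nat_lit 57355) (nat_lit 0) (.e (nat_lit 5585) (nat_lit 310) (.e (nat_lit 163869) (nat_lit 2) (.e (nat_lit 196670) (nat_lit 14) .nil)))))))) (.g (nat_lit 4) .nil .nil)))))))))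

noncomputable def tv2673 : DT := (.nd (nat_lit 0) (.nd (nat_lit 1) (.nd (nat_lit 2) (.nd (nat_lit 3) (.nd (nat_lit 4) (.nd (nat_lit 5) 
(.lf (nat_lit 202560) (.g (nat_lit 4310) (.e (nat_lit 73754) (nat_lit 8) (.e (nat_lit 557105) (nat_lit 14) (.e (nat_lit 180252) (nat_lit 10) (.e (nat_lit 573474) (nat_lit 12) (.e (nat_lit 57355) (nat_lit 0) (.e (nat_lit 5586) (nat_lit 310) (.e (nat_lit 163869) (nat_lit 2) (.e (nat_lit 196670) (nat_lit 14) .nil)))))))) (.g (nat_lit 4) .nil .nil))) 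
(.lf (nat_lit 202592) (.g (nat_lit 3867) (.e (nat_lit 73754) (nat_lit 8) (.e (nat_lit 557105) (nat_lit 14) (.e (nat_lit 180252) (nat_lit 10) (.e (nat_lit 573474) (nat_lit 12) (.e (nat_lit 57508) (nat_lit 39) (.e (nat_lit 647203) (nat_lit 14) (.e (nat_lit 1139) (nat_lit 84) (.e (nat_lit 32788) (nat_lit 10) .nil)))))))) (.g (nat_lit 4) .nil .nil)))) (.nd (nat_lit 5) 
(.lf (nat_lit 202576) (.g (nat_lit 3932) (.e (nat_lit 73754) (nat_lit 8) (.e (nat_lit 557105) (nat_lit 14) (.e (nat_lit 180252) (nat_lit 10) (.e (nat_lit 573474) (nat_lit 12) (.e (nat_lit 57359) (nat_lit 0) (.e (nat_lit 5594) (nat_lit 310) (.e (nat_lit 163867) (nat_lit 2) (.e (nat_lit 196670) (nat_lit 14) .nil)))))))) (.g (nat_lit 4) .nil .nil))) 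
(.lf (nat_lit 202608) (.g (nat_lit 3665) (.e (nat_lit 73754) (nat_lit 8) (.e (nat_lit 557105) (nat_lit 14) (.e (nat_lit 180252) (nat_lit 10) (.e (nat_lit 573474) (nat_lit 12) (.e (nat_lit 57516) (nat_lit 42) (.e (nat_lit 671744) (nat_lit 0) (.e (nat_lit 1242) (nat_lit 91) (.e (nat_lit 98048) (nat_lit 5) .nil)))))))) (.g (nat_lit 4) .nil .nil))))) (.nd (nat_lit 4) (.nd (nat_lit 5) 
(.lf (nat_lit 202568) (.g (nat_lit 3255) (.e (nat_lit 73754) (nat_lit 8) (.e (nat_lit 557105) (nat_lit 14) (.e (nat_lit 180252) (nat_lit 10) (.e (nat_lit 573474) (nat_lit 12) (.e (nat_lit 57356) (nat_lit 0) .nil))))) .nil)) 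
(.lf (nat_lit 202600) (.g (nat_lit 3879) (.e (nat_lit 73754) (nat_lit 8) (.e (nat_lit 557105) (nat_lit 14) (.e (nat_lit 180252) (nat_lit 10) (.e (nat_lit 573474) (nat_lit 12) (.e (nat_lit 57515) (nat_lit 42) (.e (nat_lit 671746) (nat_lit 0) (.e (nat_lit 1239) (nat_lit 91) (.e (nat_lit 98048) (nat_lit 5) .nil)))))))) (.g (nat_lit 4) .nil .nil)))) (.nd (nat_lit 5) 
(.lf (nat_lit 202584) (.g (nat_lit 3294) (.e (nat_lit 73754) (nat_lit 8) (.e (nat_lit 557105) (nat_lit 14) (.e (nat_lit 180252) (nat_lit 10) (.e (nat_lit 573474) (nat_lit 12) (.e (nat_lit 65280) (nat_lit 0) .nil))))) .nil)) 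
(.lf (nat_lit 202616) (.g (nat_lit 5500) (.e (nat_lit 73754) (nat_lit 8) (.e (nat_lit 557105) (nat_lit 14) (.e (nat_lit 180252) (nat_lit 10) (.e (nat_lit 573474) (nat_lit 12) (.e (nat_lit 57516) (nat_lit 42) (.e (nat_lit 671748) (nat_lit 0) (.e (nat_lit 1016) (nat_lit 81) (.e (nat_lit 1691) (nat_lit 117) (.e (nat_lit 500068) (nat_lit 19) .nil))))))))) (.g (nat_lit 8) .nil .nil)))))) 
(.nd (nat_lit 3) (.nd (nat_lit 4) (.nd (nat_lit 5) 
(.lf (nat_lit 202564) (.g (nat_lit 4070) (.e (nat_lit 73754) (nat_lit 8) (.e (nat_lit 557105) (nat_lit 14) (.e (nat_lit 180252) (nat_lit 10) (.e (nat_lit 573474) (nat_lit 12) (.e (nat_lit 57355) (nat_lit 0) (.e (nat_lit 5600) (nat_lit 310) (.e (nat_lit 163867) (nat_lit 2) (.e (nat_lit 196670) (nat_lit 14) .nil)))))))) (.g (nat_lit 4) .nil .nil))) 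
(.lf (nat_lit 202596) (.g (nat_lit 3559) (.e (nat_lit 73754) (nat_lit 8) (.e (nat_lit 557105) (nat_lit 14) (.e (nat_lit 180252) (nat_lit 10) (.e (nat_lit 573474) (nat_lit 12) (.e (nat_lit 57513) (nat_lit 40) .nil))))) .nil))) (.nd (nat_lit 5) 
(.lf (nat_lit 202580) (.g (nat_lit 3800) (.e (nat_lit 73754) (nat_lit 8) (.e (nat_lit 557105) (nat_lit 14) (.e (nat_lit 180252) (nat_lit 10) (.e (nat_lit 573474) (nat_lit 12) (.e (nat_lit 57360) (nat_lit 0) (.e (nat_lit 5598) (nat_lit 310) (.e (nat_lit 163867) (nat_lit 2) (.e (nat_lit 196670) (nat_lit 14) .nil)))))))) (.g (nat_lit 4) .nil .nil))) 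
(.lf (nat_lit 202612) (.g (nat_lit 3994) (.e (nat_lit 73754) (nat_lit 8) (.e (nat_lit 557105) (nat_lit 14) (.e (nat_lit 180252) (nat_lit 10) (.e (nat_lit 573474) (nat_lit 12) (.e (nat_lit 57516) (nat_lit 42) (.e (nat_lit 671747) (nat_lit 0) (.e (nat_lit 1016) (nat_lit 81) (.e (nat_lit 1691) (nat_lit 117) (.e (nat_lit 500069) (nat_lit 19) .nil))))))))) (.g (nat_lit 5) .nil .nil))))) 
(.nd (nat_lit 4) (.nd (nat_lit 5) 
(.lf (nat_lit 202572) (.g (nat_lit 4103) (.e (nat_lit 73754) (nat_lit 8) (.e (nat_lit 557105) (nat_lit 14) (.e (nat_lit 180252) (nat_lit 10) (.e (nat_lit 573474) (nat_lit 12) (.e (nat_lit 57358) (nat_lit 0) (.e (nat_lit 5596) (nat_lit 310) (.e (nat_lit 163867) (nat_lit 2) (.e (nat_lit 196670) (nat_lit 14) .nil)))))))) (.g (nat_lit 4) .nil .nil))) 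
(.lf (nat_lit 202604) (.g (nat_lit 2682) (.e (nat_lit 73754) (nat_lit 8) (.e (nat_lit 557105) (nat_lit 14) (.e (nat_lit 180252) (nat_lit 10) (.e (nat_lit 573474) (nat_lit 12) (.e (nat_lit 57516) (nat_lit 42) .nil))))) .nil))) (.nd (nat_lit 5) 
(.lf (nat_lit 202588) (.g (nat_lit 3191) (.e (nat_lit 73754) (nat_lit 8) (.e (nat_lit 557105) (nat_lit 14) (.e (nat_lit 180252) (nat_lit 10) (.e (nat_lit 573474) (nat_lit 12) (.e (nat_lit 57507) (nat_lit 39) .nil))))) .nil)) 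
(.lf (nat_lit 202620) (.g (nat_lit 4582) (.e (nat_lit 73754) (nat_lit 8) (.e (nat_lit 557105) (nat_lit 14) (.e (nat_lit 180252) (nat_lit 10) (.e (nat_lit 573474) (nat_lit 12) (.e (nat_lit 57516) (nat_lit 42) (.e (nat_lit 671748) (nat_lit 0) (.e (nat_lit 1302) (nat_lit 97) (.e (nat_lit 139281) (nat_lit 5) .nil)))))))) (.g (nat_lit 6) .nil .nil))))))) 
(.nd (nat_lit 2) (.nd (nat_lit 3) (.nd (nat_lit 4) (.nd (nat_lit 5) 
(.lf (nat_lit 202562) (.g (nat_lit 3995) (.e (nat_lit 73754) (nat_lit 8) (.e (nat_lit 557105) (nat_lit 14) (.e (nat_lit 180252) (nat_lit 10) (.e (nat_lit 573474) (nat_lit 12) (.e (nat_lit 57355) (nat_lit 0) (.e (nat_lit 5588) (nat_lit 310) (.e (nat_lit 163871) (nat_lit 2) (.e (nat_lit 196670) (nat_lit 14) .nil)))))))) (.g (nat_lit 4) .nil .nil))) 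
(.lf (nat_lit 202594) (.g (nat_lit 3654) (.e (nat_lit 73754) (nat_lit 8) (.e (nat_lit 557105) (nat_lit 14) (.e (nat_lit 180252) (nat_lit 10) (.e (nat_lit 573474) (nat_lit 12) (.e (nat_lit 57510) (nat_lit 39) .nil))))) .nil))) (.nd (nat_lit 5) 
(.lf (nat_lit 202578) (.g (nat_lit 3696) (.e (nat_lit 73754) (nat_lit 8) (.e (nat_lit 557105) (nat_lit 14) (.e (nat_lit 180252) (nat_lit 10) (.e (nat_lit 573474) (nat_lit 12) (.e (nat_lit 57360) (nat_lit 0) (.e (nat_lit 5596) (nat_lit 310) (.e (nat_lit 163867) (nat_lit 2) (.e (nat_lit 196670) (nat_lit 14) .nil)))))))) (.g (nat_lit 4) .nil .nil))) 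
(.lf (nat_lit 202610) (.g (nat_lit 3984) (.e (nat_lit 73754) (nat_lit 8) (.e (nat_lit 557105) (nat_lit 14) (.e (nat_lit 180252) (nat_lit 10) (.e (nat_lit 573474) (nat_lit 12) (.e (nat_lit 57516) (nat_lit 42) (.e (nat_lit 671746) (nat_lit 0) (.e (nat_lit 1016) (nat_lit 81) (.e (nat_lit 1691) (nat_lit 117) (.e (nat_lit 500069) (nat_lit 19) .nil))))))))) (.g (nat_lit 5) .nil .nil))))) 
(.nd (nat_lit 4) (.nd (nat_lit 5) 
(.lf (nat_lit 202570) (.g (nat_lit 3584) (.e (nat_lit 73754) (nat_lit 8) (.e (nat_lit 557105) (nat_lit 14) (.e (nat_lit 180252) (nat_lit 10) (.e (nat_lit 573474) (nat_lit 12) (.e (nat_lit 57358) (nat_lit 0) .nil))))) .nil)) 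
(.lf (nat_lit 202602) (.g (nat_lit 4018) (.e (nat_lit 73754) (nat_lit 8) (.e (nat_lit 557105) (nat_lit 14) (.e (nat_lit 180252) (nat_lit 10) (.e (nat_lit 573474) (nat_lit 12) (.e (nat_lit 57515) (nat_lit 42) (.e (nat_lit 671751) (nat_lit 0) (.e (nat_lit 1236) (nat_lit 91) (.e (nat_lit 98048) (nat_lit 5) .nil)))))))) (.g (nat_lit 4) .nil .nil)))) (.nd (nat_lit 5) 
(.lf (nat_lit 202586) (.g (nat_lit 3491) (.e (nat_lit 73754) (nat_lit 8) (.e (nat_lit 557105) (nat_lit 14) (.e (nat_lit 180252) (nat_lit 10) (.e (nat_lit 573474) (nat_lit 12) (.e (nat_lit 57505) (nat_lit 39) .nil))))) .nil)) 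
(.lf (nat_lit 202618) (.g (nat_lit 4665) (.e (nat_lit 73754) (nat_lit 8) (.e (nat_lit 557105) (nat_lit 14) (.e (nat_lit 180252) (nat_lit 10) (.e (nat_lit 573474) (nat_lit 12) (.e (nat_lit 57516) (nat_lit 42) (.e (nat_lit 671748) (nat_lit 0) (.e (nat_lit 1233) (nat_lit 91) (.e (nat_lit 98048) (nat_lit 5) .nil)))))))) (.g (nat_lit 6) .nil .nil)))))) 
(.nd (nat_lit 3) (.nd (nat_lit 4) (.nd (nat_lit 5) 
(.lf (nat_lit 202566) (.g (nat_lit 3895) (.e (nat_lit 73754) (nat_lit 8) (.e (nat_lit 557105) (nat_lit 14) (.e (nat_lit 180252) (nat_lit 10) (.e (nat_lit 573474) (nat_lit 12) (.e (nat_lit 57355) (nat_lit 0) (.e (nat_lit 5601) (nat_lit 310) (.e (nat_lit 163869) (nat_lit 2) (.e (nat_lit 196670) (nat_lit 14) .nil)))))))) (.g (nat_lit 4) .nil .nil))) 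
(.lf (nat_lit 202598) (.g (nat_lit 3775) (.e (nat_lit 73754) (nat_lit 8) (.e (nat_lit 557105) (nat_lit 14) (.e (nat_lit 180252) (nat_lit 10) (.e (nat_lit 573474) (nat_lit 12) (.e (nat_lit 57515) (nat_lit 42) (.e (nat_lit 671745) (nat_lit 0) (.e (nat_lit 1239) (nat_lit 91) (.e (nat_lit 98048) (nat_lit 5) .nil)))))))) (.g (nat_lit 4) .nil .nil)))) (.nd (nat_lit 5) 
(.lf (nat_lit 202582) (.g (nat_lit 4396) (.e (nat_lit 73754) (nat_lit 8) (.e (nat_lit 557105) (nat_lit 14) (.e (nat_lit 180252) (nat_lit 10) (.e (nat_lit 573474) (nat_lit 12) (.e (nat_lit 57360) (nat_lit 0) (.e (nat_lit 5818) (nat_lit 320) (.e (nat_lit 999) (nat_lit 81) (.e (nat_lit 1239) (nat_lit 91) (.e (nat_lit 98048) (nat_lit 5) .nil))))))))) (.g (nat_lit 4) .nil .nil))) 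
(.lf (nat_lit 202614) (.g (nat_lit 3595) (.e (nat_lit 73754) (nat_lit 8) (.e (nat_lit 557105) (nat_lit 14) (.e (nat_lit 180252) (nat_lit 10) (.e (nat_lit 573474) (nat_lit 12) (.e (nat_lit 57516) (nat_lit 42) (.e (nat_lit 671748) (nat_lit 0) (.e (nat_lit 1007) (nat_lit 81) (.e (nat_lit 1691) (nat_lit 117) (.e (nat_lit 500068) (nat_lit 19) .nil))))))))) (.g (nat_lit 4) .nil .nil))))) 
(.nd (nat_lit 4) (.nd (nat_lit 5) 
(.lf (nat_lit 202574) (.g (nat_lit 4093) (.e (nat_lit 73754) (nat_lit 8) (.e (nat_lit 557105) (nat_lit 14) (.e (nat_lit 180252) (nat_lit 10) (.e (nat_lit 573474) (nat_lit 12) (.e (nat_lit 57358) (nat_lit 0) (.e (nat_lit 5601) (nat_lit 310) (.e (nat_lit 163869) (nat_lit 2) (.e (nat_lit 196670) (nat_lit 14) .nil)))))))) (.g (nat_lit 4) .nil .nil))) 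
(.lf (nat_lit 202606) (.g (nat_lit 3499) (.e (nat_lit 73754) (nat_lit 8) (.e (nat_lit 557105) (nat_lit 14) (.e (nat_lit 180252) (nat_lit 10) (.e (nat_lit 573474) (nat_lit 12) (.e (nat_lit 57516) (nat_lit 42) (.e (nat_lit 671744) (nat_lit 0) (.e (nat_lit 1237) (nat_lit 91) (.e (nat_lit 98048) (nat_lit 5) .nil)))))))) (.g (nat_lit 4) .nil .nil)))) (.nd (nat_lit 5) 
(.lf (nat_lit 202590) (.g (nat_lit 3669) (.e (nat_lit 73754) (nat_lit 8) (.e (nat_lit 557105) (nat_lit 14) (.e (nat_lit 180252) (nat_lit 10) (.e (nat_lit 573474) (nat_lit 12) (.e (nat_lit 57507) (nat_lit 39) (.e (nat_lit 647201) (nat_lit 12) (.e (nat_lit 57471) (nat_lit 27) (.e (nat_lit 548890) (nat_lit 10) .nil)))))))) (.g (nat_lit 4) .nil .nil))) 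
(.lf (nat_lit 202622) (.g (nat_lit 4308) (.e (nat_lit 73754) (nat_lit 8) (.e (nat_lit 557105) (nat_lit 14) (.e (nat_lit 180252) (nat_lit 10) (.e (nat_lit 573474) (nat_lit 12) (.e (nat_lit 57516) (nat_lit 42) (.e (nat_lit 671750) (nat_lit 0) (.e (nat_lit 1234) (nat_lit 91) (.e (nat_lit 98048) (nat_lit 5) .nil)))))))) (.g (nat_lit 5) .nil .nil)))))))) 
(.nd (nat_lit 1) (.nd (nat_lit 2) (.nd (nat_lit 3) (.nd (nat_lit 4) (.nd (nat_lit 5) 
(.lf (nat_lit 202561) (.g (nat_lit 4053) (.e (nat_lit 73754) (nat_lit 8) (.e (nat_lit 557105) (nat_lit 14) (.e (nat_lit 180252) (nat_lit 10) (.e (nat_lit 573474) (nat_lit 12) (.e (nat_lit 57355) (nat_lit 0) (.e (nat_lit 5587) (nat_lit 310) (.e (nat_lit 163869) (nat_lit 2) (.e (nat_lit 196670) (nat_lit 14) .nil)))))))) (.g (nat_lit 4) .nil .nil))) 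
(.lf (nat_lit 202593) (.g (nat_lit 3436) (.e (nat_lit 73754) (nat_lit 8) (.e (nat_lit 557105) (nat_lit 14) (.e (nat_lit 180252) (nat_lit 10) (.e (nat_lit 573474) (nat_lit 12) (.e (nat_lit 57509) (nat_lit 39) .nil))))) .nil))) (.nd (nat_lit 5) 
(.lf (nat_lit 202577) (.g (nat_lit 3469) (.e (nat_lit 73754) (nat_lit 8) (.e (nat_lit 557105) (nat_lit 14) (.e (nat_lit 180252) (nat_lit 10) (.e (nat_lit 573474) (nat_lit 12) (.e (nat_lit 57360) (nat_lit 0) .nil))))) .nil)) 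
(.lf (nat_lit 202609) (.g (nat_lit 4211) (.e (nat_lit 73754) (nat_lit 8) (.e (nat_lit 557105) (nat_lit 14) (.e (nat_lit 180252) (nat_lit 10) (.e (nat_lit 573474) (nat_lit 12) (.e (nat_lit 57516) (nat_lit 42) (.e (nat_lit 671746) (nat_lit 0) (.e (nat_lit 1016) (nat_lit 81) (.e (nat_lit 1691) (nat_lit 117) (.e (nat_lit 500068) (nat_lit 19) .nil))))))))) (.g (nat_lit 5) .nil .nil))))) 
(.nd (nat_lit 4) (.nd (nat_lit 5) 
(.lf (nat_lit 202569) (.g (nat_lit 3972) (.e (nat_lit 73754) (nat_lit 8) (.e (nat_lit 557105) (nat_lit 14) (.e (nat_lit 180252) (nat_lit 10) (.e (nat_lit 573474) (nat_lit 12) (.e (nat_lit 57356) (nat_lit 0) (.e (nat_lit 5600) (nat_lit 310) (.e (nat_lit 163867) (nat_lit 2) (.e (nat_lit 196670) (nat_lit 14) .nil)))))))) (.g (nat_lit 4) .nil .nil))) 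
(.lf (nat_lit 202601) (.g (nat_lit 3528) (.e (nat_lit 73754) (nat_lit 8) (.e (nat_lit 557105) (nat_lit 14) (.e (nat_lit 180252) (nat_lit 10) (.e (nat_lit 573474) (nat_lit 12) (.e (nat_lit 57515) (nat_lit 42) (.e (nat_lit 671750) (nat_lit 0) (.e (nat_lit 1234) (nat_lit 91) (.e (nat_lit 98048) (nat_lit 5) .nil)))))))) (.g (nat_lit 4) .nil .nil)))) (.nd (nat_lit 5) 
(.lf (nat_lit 202585) (.g (nat_lit 4022) (.e (nat_lit 73754) (nat_lit 8) (.e (nat_lit 557105) (nat_lit 14) (.e (nat_lit 180252) (nat_lit 10) (.e (nat_lit 573474) (nat_lit 12) (.e (nat_lit 65280) (nat_lit 0) (.e (nat_lit 5587) (nat_lit 310) (.e (nat_lit 163871) (nat_lit 2) (.e (nat_lit 196670) (nat_lit 14) .nil)))))))) (.g (nat_lit 4) .nil .nil))) 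
(.lf (nat_lit 202617) (.g (nat_lit 4830) (.e (nat_lit 73754) (nat_lit 8) (.e (nat_lit 557105) (nat_lit 14) (.e (nat_lit 180252) (nat_lit 10) (.e (nat_lit 573474) (nat_lit 12) (.e (nat_lit 57516) (nat_lit 42) (.e (nat_lit 671748) (nat_lit 0) (.e (nat_lit 1225) (nat_lit 91) (.e (nat_lit 98048) (nat_lit 5) .nil)))))))) (.g (nat_lit 6) .nil .nil)))))) 
(.nd (nat_lit 3) (.nd (nat_lit 4) (.nd (nat_lit 5) 
(.lf (nat_lit 202565) (.g (nat_lit 3714) (.e (nat_lit 73754) (nat_lit 8) (.e (nat_lit 557105) (nat_lit 14) (.e (nat_lit 180252) (nat_lit 10) (.e (nat_lit 573474) (nat_lit 12) (.e (nat_lit 57355) (nat_lit 0) (.e (nat_lit 5601) (nat_lit 310) (.e (nat_lit 163867) (nat_lit 2) (.e (nat_lit 196670) (nat_lit 14) .nil)))))))) (.g (nat_lit 4) .nil .nil))) 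
(.lf (nat_lit 202597) (.g (nat_lit 3470) (.e (nat_lit 73754) (nat_lit 8) (.e (nat_lit 557105) (nat_lit 14) (.e (nat_lit 180252) (nat_lit 10) (.e (nat_lit 573474) (nat_lit 12) (.e (nat_lit 57515) (nat_lit 42) .nil))))) .nil))) (.nd (nat_lit 5) 
(.lf (nat_lit 202581) (.g (nat_lit 4030) (.e (nat_lit 73754) (nat_lit 8) (.e (nat_lit 557105) (nat_lit 14) (.e (nat_lit 180252) (nat_lit 10) (.e (nat_lit 573474) (nat_lit 12) (.e (nat_lit 57360) (nat_lit 0) (.e (nat_lit 5599) (nat_lit 310) (.e (nat_lit 163867) (nat_lit 2) (.e (nat_lit 196670) (nat_lit 14) .nil)))))))) (.g (nat_lit 4) .nil .nil))) 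
(.lf (nat_lit 202613) (.g (nat_lit 4759) (.e (nat_lit 73754) (nat_lit 8) (.e (nat_lit 557105) (nat_lit 14) (.e (nat_lit 180252) (nat_lit 10) (.e (nat_lit 573474) (nat_lit 12) (.e (nat_lit 57516) (nat_lit 42) (.e (nat_lit 671747) (nat_lit 0) (.e (nat_lit 1239) (nat_lit 91) (.e (nat_lit 98048) (nat_lit 5) .nil)))))))) (.g (nat_lit 7) .nil .nil))))) (.nd (nat_lit 4) (.nd (nat_lit 5) 
(.lf (nat_lit 202573) (.g (nat_lit 3912) (.e (nat_lit 73754) (nat_lit 8) (.e (nat_lit 557105) (nat_lit 14) (.e (nat_lit 180252) (nat_lit 10) (.e (nat_lit 573474) (nat_lit 12) (.e (nat_lit 57358) (nat_lit 0) (.e (nat_lit 5601) (nat_lit 310) (.e (nat_lit 163867) (nat_lit 2) (.e (nat_lit 196670) (nat_lit 14) .nil)))))))) (.g (nat_lit 4) .nil .nil))) 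
(.lf (nat_lit 202605) (.g (nat_lit 3634) (.e (nat_lit 73754) (nat_lit 8) (.e (nat_lit 557105) (nat_lit 14) (.e (nat_lit 180252) (nat_lit 10) (.e (nat_lit 573474) (nat_lit 12) (.e (nat_lit 57516) (nat_lit 42) (.e (nat_lit 671744) (nat_lit 0) (.e (nat_lit 1231) (nat_lit 91) (.e (nat_lit 98048) (nat_lit 5) .nil)))))))) (.g (nat_lit 4) .nil .nil)))) (.nd (nat_lit 5) 
(.lf (nat_lit 202589) (.g (nat_lit 4207) (.e (nat_lit 73754) (nat_lit 8) (.e (nat_lit 557105) (nat_lit 14) (.e (nat_lit 180252) (nat_lit 10) (.e (nat_lit 573474) (nat_lit 12) (.e (nat_lit 57507) (nat_lit 39) (.e (nat_lit 647200) (nat_lit 12) (.e (nat_lit 57473) (nat_lit 27) (.e (nat_lit 548890) (nat_lit 10) .nil)))))))) (.g (nat_lit 4) .nil .nil))) 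
(.lf (nat_lit 202621) (.g (nat_lit 4063) (.e (nat_lit 73754) (nat_lit 8) (.e (nat_lit 557105) (nat_lit 14) (.e (nat_lit 180252) (nat_lit 10) (.e (nat_lit 573474) (nat_lit 12) (.e (nat_lit 57516) (nat_lit 42) (.e (nat_lit 671749) (nat_lit 0) (.e (nat_lit 1234) (nat_lit 91) (.e (nat_lit 98048) (nat_lit 5) .nil)))))))) (.g (nat_lit 5) .nil .nil))))))) 
(.nd (nat_lit 2) (.nd (nat_lit 3) (.nd (nat_lit 4) (.nd (nat_lit 5) 
(.lf (nat_lit 202563) (.g (nat_lit 3715) (.e (nat_lit 73754) (nat_lit 8) (.e (nat_lit 557105) (nat_lit 14) (.e (nat_lit 180252) (nat_lit 10) (.e (nat_lit 573474) (nat_lit 12) (.e (nat_lit 57355) (nat_lit 0) (.e (nat_lit 5596) (nat_lit 310) (.e (nat_lit 163867) (nat_lit 2) (.e (nat_lit 196670) (nat_lit 14) .nil)))))))) (.g (nat_lit 4) .nil .nil))) 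
(.lf (nat_lit 202595) (.g (nat_lit 3372) (.e (nat_lit 73754) (nat_lit 8) (.e (nat_lit 557105) (nat_lit 14) (.e (nat_lit 180252) (nat_lit 10) (.e (nat_lit 573474) (nat_lit 12) (.e (nat_lit 57511) (nat_lit 39) .nil))))) .nil))) (.nd (nat_lit 5) 
(.lf (nat_lit 202579) (.g (nat_lit 4080) (.e (nat_lit 73754) (nat_lit 8) (.e (nat_lit 557105) (nat_lit 14) (.e (nat_lit 180252) (nat_lit 10) (.e (nat_lit 573474) (nat_lit 12) (.e (nat_lit 57360) (nat_lit 0) (.e (nat_lit 5597) (nat_lit 310) (.e (nat_lit 163867) (nat_lit 2) (.e (nat_lit 196670) (nat_lit 14) .nil)))))))) (.g (nat_lit 4) .nil .nil))) 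
(.lf (nat_lit 202611) (.g (nat_lit 4221) (.e (nat_lit 73754) (nat_lit 8) (.e (nat_lit 557105) (nat_lit 14) (.e (nat_lit 180252) (nat_lit 10) (.e (nat_lit 573474) (nat_lit 12) (.e (nat_lit 57516) (nat_lit 42) (.e (nat_lit 671747) (nat_lit 0) (.e (nat_lit 1016) (nat_lit 81) (.e (nat_lit 1691) (nat_lit 117) (.e (nat_lit 500068) (nat_lit 19) .nil))))))))) (.g (nat_lit 5) .nil .nil))))) 
(.nd (nat_lit 4) (.nd (nat_lit 5) 
(.lf (nat_lit 202571) (.g (nat_lit 4009) (.e (nat_lit 73754) (nat_lit 8) (.e (nat_lit 557105) (nat_lit 14) (.e (nat_lit 180252) (nat_lit 10) (.e (nat_lit 573474) (nat_lit 12) (.e (nat_lit 57358) (nat_lit 0) (.e (nat_lit 5584) (nat_lit 310) (.e (nat_lit 163867) (nat_lit 2) (.e (nat_lit 196670) (nat_lit 14) .nil)))))))) (.g (nat_lit 4) .nil .nil))) 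
(.lf (nat_lit 202603) (.g (nat_lit 3500) (.e (nat_lit 73754) (nat_lit 8) (.e (nat_lit 557105) (nat_lit 14) (.e (nat_lit 180252) (nat_lit 10) (.e (nat_lit 573474) (nat_lit 12) (.e (nat_lit 57515) (nat_lit 42) (.e (nat_lit 671751) (nat_lit 0) (.e (nat_lit 1237) (nat_lit 91) (.e (nat_lit 98048) (nat_lit 5) .nil)))))))) (.g (nat_lit 4) .nil .nil)))) (.nd (nat_lit 5) 
(.lf (nat_lit 202587) (.g (nat_lit 3192) (.e (nat_lit 73754) (nat_lit 8) (.e (nat_lit 557105) (nat_lit 14) (.e (nat_lit 180252) (nat_lit 10) (.e (nat_lit 573474) (nat_lit 12) (.e (nat_lit 57506) (nat_lit 39) .nil))))) .nil)) 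
(.lf (nat_lit 202619) (.g (nat_lit 5301) (.e (nat_lit 73754) (nat_lit 8) (.e (nat_lit 557105) (nat_lit 14) (.e (nat_lit 180252) (nat_lit 10) (.e (nat_lit 573474) (nat_lit 12) (.e (nat_lit 57516) (nat_lit 42) (.e (nat_lit 671748) (nat_lit 0) (.e (nat_lit 1239) (nat_lit 91) (.e (nat_lit 98048) (nat_lit 5) .nil)))))))) (.g (nat_lit 7) .nil .nil)))))) 
(.nd (nat_lit 3) (.nd (nat_lit 4) (.nd (nat_lit 5) 
(.lf (nat_lit 202567) (.g (nat_lit 4298) (.e (nat_lit 73754) (nat_lit 8) (.e (nat_lit 557105) (nat_lit 14) (.e (nat_lit 180252) (nat_lit 10) (.e (nat_lit 573474) (nat_lit 12) (.e (nat_lit 57355) (nat_lit 0) (.e (nat_lit 5603) (nat_lit 310) (.e (nat_lit 163867) (nat_lit 2) (.e (nat_lit 196670) (nat_lit 14) .nil)))))))) (.g (nat_lit 4) .nil .nil))) 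
(.lf (nat_lit 202599) (.g (nat_lit 3550) (.e (nat_lit 73754) (nat_lit 8) (.e (nat_lit 557105) (nat_lit 14) (.e (nat_lit 180252) (nat_lit 10) (.e (nat_lit 573474) (nat_lit 12) (.e (nat_lit 57515) (nat_lit 42) (.e (nat_lit 671746) (nat_lit 0) (.e (nat_lit 1016) (nat_lit 81) (.e (nat_lit 1691) (nat_lit 117) (.e (nat_lit 500068) (nat_lit 19) .nil))))))))) (.g (nat_lit 4) .nil .nil)))) 
(.nd (nat_lit 5) 
(.lf (nat_lit 202583) (.g (nat_lit 4233) (.e (nat_lit 73754) (nat_lit 8) (.e (nat_lit 557105) (nat_lit 14) (.e (nat_lit 180252) (nat_lit 10) (.e (nat_lit 573474) (nat_lit 12) (.e (nat_lit 57360) (nat_lit 0) (.e (nat_lit 5949) (nat_lit 322) (.e (nat_lit 57373) (nat_lit 2) (.e (nat_lit 98048) (nat_lit 5) .nil)))))))) (.g (nat_lit 4) .nil .nil))) 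
(.lf (nat_lit 202615) (.g (nat_lit 3186) (.e (nat_lit 73754) (nat_lit 8) (.e (nat_lit 557105) (nat_lit 14) (.e (nat_lit 180252) (nat_lit 10) (.e (nat_lit 573474) (nat_lit 12) (.e (nat_lit 57516) (nat_lit 42) (.e (nat_lit 671748) (nat_lit 0) (.e (nat_lit 1007) (nat_lit 81) (.e (nat_lit 1691) (nat_lit 117) (.e (nat_lit 500069) (nat_lit 19) .nil))))))))) (.g (nat_lit 4) .nil .nil))))) 
(.nd (nat_lit 4) (.nd (nat_lit 5) 
(.lf (nat_lit 202575) (.g (nat_lit 4245) (.e (nat_lit 73754) (nat_lit 8) (.e (nat_lit 557105) (nat_lit 14) (.e (nat_lit 180252) (nat_lit 10) (.e (nat_lit 573474) (nat_lit 12) (.e (nat_lit 57358) (nat_lit 0) (.e (nat_lit 5603) (nat_lit 310) (.e (nat_lit 163867) (nat_lit 2) (.e (nat_lit 196670) (nat_lit 14) .nil)))))))) (.g (nat_lit 4) .nil .nil))) 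
(.lf (nat_lit 202607) (.g (nat_lit 4665) (.e (nat_lit 73754) (nat_lit 8) (.e (nat_lit 557105) (nat_lit 14) (.e (nat_lit 180252) (nat_lit 10) (.e (nat_lit 573474) (nat_lit 12) (.e (nat_lit 57516) (nat_lit 42) (.e (nat_lit 671744) (nat_lit 0) (.e (nat_lit 1239) (nat_lit 91) (.e (nat_lit 98048) (nat_lit 5) .nil)))))))) (.g (nat_lit 7) .nil .nil)))) (.nd (nat_lit 5) 
(.lf (nat_lit 202591) (.g (nat_lit 4112) (.e (nat_lit 73754) (nat_lit 8) (.e (nat_lit 557105) (nat_lit 14) (.e (nat_lit 180252) (nat_lit 10) (.e (nat_lit 573474) (nat_lit 12) (.e (nat_lit 57508) (nat_lit 39) (.e (nat_lit 647200) (nat_lit 12) (.e (nat_lit 57473) (nat_lit 27) (.e (nat_lit 548890) (nat_lit 10) .nil)))))))) (.g (nat_lit 5) .nil .nil))) 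
(.lf (nat_lit 202623) (.g (nat_lit 4797) (.e (nat_lit 73754) (nat_lit 8) (.e (nat_lit 557105) (nat_lit 14) (.e (nat_lit 180252) (nat_lit 10) (.e (nat_lit 573474) (nat_lit 12) (.e (nat_lit 57516) (nat_lit 42) (.e (nat_lit 671751) (nat_lit 0) (.e (nat_lit 1234) (nat_lit 91) (.e (nat_lit 98048) (nat_lit 5) .nil)))))))) (.g (nat_lit 6) .nil .nil)))))))))

noncomputable def tv2674 : DT := (.nd (nat_lit 0) (.nd (nat_lit 1) (.nd (nat_lit 2) (.nd (nat_lit 3) (.nd (nat_lit 4) (.nd (nat_lit 5) 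
(.lf (nat_lit 202624) (.g (nat_lit 3985) (.e (nat_lit 73754) (nat_lit 8) (.e (nat_lit 557105) (nat_lit 14) (.e (nat_lit 180252) (nat_lit 10) (.e (nat_lit 573474) (nat_lit 12) (.e (nat_lit 57516) (nat_lit 42) (.e (nat_lit 671751) (nat_lit 0) (.e (nat_lit 1236) (nat_lit 91) (.e (nat_lit 98048) (nat_lit 5) .nil)))))))) (.g (nat_lit 5) .nil .nil))) 
(.lf (nat_lit 202656) (.g (nat_lit 1915) (.e (nat_lit 73754) (nat_lit 8) (.e (nat_lit 557105) (nat_lit 14) (.e (nat_lit 180252) (nat_lit 10) (.e (nat_lit 573475) (nat_lit 12) (.e (nat_lit 57356) (nat_lit 0) .nil))))) .nil))) (.nd (nat_lit 5) 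
(.lf (nat_lit 202640) (.g (nat_lit 3762) (.e (nat_lit 73754) (nat_lit 8) (.e (nat_lit 557105) (nat_lit 14) (.e (nat_lit 180252) (nat_lit 10) (.e (nat_lit 573475) (nat_lit 12) (.e (nat_lit 57347) (nat_lit 0) (.e (nat_lit 5584) (nat_lit 310) (.e (nat_lit 163867) (nat_lit 2) (.e (nat_lit 196670) (nat_lit 14) .nil)))))))) (.g (nat_lit 5) .nil .nil))) 
(.lf (nat_lit 202672) (.g (nat_lit 3063) (.e (nat_lit 73754) (nat_lit 8) (.e (nat_lit 557105) (nat_lit 14) (.e (nat_lit 180252) (nat_lit 10) (.e (nat_lit 573475) (nat_lit 12) (.e (nat_lit 57507) (nat_lit 39) (.e (nat_lit 647201) (nat_lit 12) (.e (nat_lit 57471) (nat_lit 27) (.e (nat_lit 548890) (nat_lit 10) .nil)))))))) (.g (nat_lit 5) .nil .nil))))) (.nd (nat_lit 4) (.nd (nat_lit 5) 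
(.lf (nat_lit 202632) (.g (nat_lit 875) (.e (nat_lit 73754) (nat_lit 8) (.e (nat_lit 557105) (nat_lit 14) (.e (nat_lit 180252) (nat_lit 10) (.e (nat_lit 573475) (nat_lit 12) .nil)))) .nil)) 
(.lf (nat_lit 202664) (.g (nat_lit 4484) (.e (nat_lit 73754) (nat_lit 8) (.e (nat_lit 557105) (nat_lit 14) (.e (nat_lit 180252) (nat_lit 10) (.e (nat_lit 573475) (nat_lit 12) (.e (nat_lit 57360) (nat_lit 0) (.e (nat_lit 5949) (nat_lit 322) (.e (nat_lit 57373) (nat_lit 2) (.e (nat_lit 98048) (nat_lit 5) .nil)))))))) (.g (nat_lit 7) .nil .nil)))) (.nd (nat_lit 5) 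
(.lf (nat_lit 202648) (.g (nat_lit 2764) (.e (nat_lit 73754) (nat_lit 8) (.e (nat_lit 557105) (nat_lit 14) (.e (nat_lit 180252) (nat_lit 10) (.e (nat_lit 573475) (nat_lit 12) (.e (nat_lit 57348) (nat_lit 0) (.e (nat_lit 5593) (nat_lit 310) (.e (nat_lit 163871) (nat_lit 2) (.e (nat_lit 196668) (nat_lit 14) .nil)))))))) (.g (nat_lit 4) .nil .nil))) 
(.lf (nat_lit 202680) (.g (nat_lit 3033) (.e (nat_lit 73754) (nat_lit 8) (.e (nat_lit 557105) (nat_lit 14) (.e (nat_lit 180252) (nat_lit 10) (.e (nat_lit 573475) (nat_lit 12) (.e (nat_lit 57515) (nat_lit 42) (.e (nat_lit 671746) (nat_lit 0) (.e (nat_lit 1016) (nat_lit 81) (.e (nat_lit 1691) (nat_lit 117) (.e (nat_lit 500068) (nat_lit 19) .nil))))))))) (.g (nat_lit 4) .nil .nil)))))) 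
(.nd (nat_lit 3) (.nd (nat_lit 4) (.nd (nat_lit 5) 
(.lf (nat_lit 202628) (.g (nat_lit 4490) (.e (nat_lit 73754) (nat_lit 8) (.e (nat_lit 557105) (nat_lit 14) (.e (nat_lit 180252) (nat_lit 10) (.e (nat_lit 573474) (nat_lit 12) (.e (nat_lit 57516) (nat_lit 42) (.e (nat_lit 671754) (nat_lit 0) (.e (nat_lit 1235) (nat_lit 91) (.e (nat_lit 98048) (nat_lit 5) .nil)))))))) (.g (nat_lit 6) .nil .nil))) 
(.lf (nat_lit 202660) (.g (nat_lit 4516) (.e (nat_lit 73754) (nat_lit 8) (.e (nat_lit 557105) (nat_lit 14) (.e (nat_lit 180252) (nat_lit 10) (.e (nat_lit 573475) (nat_lit 12) (.e (nat_lit 57360) (nat_lit 0) (.e (nat_lit 5818) (nat_lit 320) (.e (nat_lit 999) (nat_lit 81) (.e (nat_lit 1239) (nat_lit 91) (.e (nat_lit 98048) (nat_lit 5) .nil))))))))) (.g (nat_lit 8) .nil .nil)))) (.nd (nat_lit 5) 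
(.lf (nat_lit 202644) (.g (nat_lit 2186) (.e (nat_lit 73754) (nat_lit 8) (.e (nat_lit 557105) (nat_lit 14) (.e (nat_lit 180252) (nat_lit 10) (.e (nat_lit 573475) (nat_lit 12) (.e (nat_lit 57348) (nat_lit 0) .nil))))) .nil)) 
(.lf (nat_lit 202676) (.g (nat_lit 2090) (.e (nat_lit 73754) (nat_lit 8) (.e (nat_lit 557105) (nat_lit 14) (.e (nat_lit 180252) (nat_lit 10) (.e (nat_lit 573475) (nat_lit 12) (.e (nat_lit 57508) (nat_lit 39) (.e (nat_lit 647200) (nat_lit 12) (.e (nat_lit 57472) (nat_lit 27) (.e (nat_lit 548890) (nat_lit 10) .nil)))))))) (.g (nat_lit 4) .nil .nil))))) (.nd (nat_lit 4) (.nd (nat_lit 5) 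
(.lf (nat_lit 202636) (.g (nat_lit 2711) (.e (nat_lit 73754) (nat_lit 8) (.e (nat_lit 557105) (nat_lit 14) (.e (nat_lit 180252) (nat_lit 10) (.e (nat_lit 573475) (nat_lit 12) (.e (nat_lit 57344) (nat_lit 0) (.e (nat_lit 5603) (nat_lit 310) (.e (nat_lit 163869) (nat_lit 2) (.e (nat_lit 196669) (nat_lit 14) .nil)))))))) (.g (nat_lit 4) .nil .nil))) 
(.lf (nat_lit 202668) (.g (nat_lit 1956) (.e (nat_lit 73754) (nat_lit 8) (.e (nat_lit 557105) (nat_lit 14) (.e (nat_lit 180252) (nat_lit 10) (.e (nat_lit 573475) (nat_lit 12) (.e (nat_lit 57507) (nat_lit 39) .nil))))) .nil))) (.nd (nat_lit 5) 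
(.lf (nat_lit 202652) (.g (nat_lit 2911) (.e (nat_lit 73754) (nat_lit 8) (.e (nat_lit 557105) (nat_lit 14) (.e (nat_lit 180252) (nat_lit 10) (.e (nat_lit 573475) (nat_lit 12) (.e (nat_lit 57354) (nat_lit 0) (.e (nat_lit 5601) (nat_lit 310) (.e (nat_lit 163867) (nat_lit 2) (.e (nat_lit 196670) (nat_lit 14) .nil)))))))) (.g (nat_lit 4) .nil .nil))) 
(.lf (nat_lit 202684) (.g (nat_lit 3084) (.e (nat_lit 73754) (nat_lit 8) (.e (nat_lit 557105) (nat_lit 14) (.e (nat_lit 180252) (nat_lit 10) (.e (nat_lit 573475) (nat_lit 12) (.e (nat_lit 57515) (nat_lit 42) (.e (nat_lit 671750) (nat_lit 0) (.e (nat_lit 1234) (nat_lit 91) (.e (nat_lit 98048) (nat_lit 5) .nil)))))))) (.g (nat_lit 5) .nil .nil))))))) 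
(.nd (nat_lit 2) (.nd (nat_lit 3) (.nd (nat_lit 4) (.nd (nat_lit 5) 
(.lf (nat_lit 202626) (.g (nat_lit 4295) (.e (nat_lit 73754) (nat_lit 8) (.e (nat_lit 557105) (nat_lit 14) (.e (nat_lit 180252) (nat_lit 10) (.e (nat_lit 573474) (nat_lit 12) (.e (nat_lit 57516) (nat_lit 42) (.e (nat_lit 671752) (nat_lit 0) (.e (nat_lit 1235) (nat_lit 91) (.e (nat_lit 98048) (nat_lit 5) .nil)))))))) (.g (nat_lit 5) .nil .nil))) 
(.lf (nat_lit 202658) (.g (nat_lit 2766) (.e (nat_lit 73754) (nat_lit 8) (.e (nat_lit 557105) (nat_lit 14) (.e (nat_lit 180252) (nat_lit 10) (.e (nat_lit 573475) (nat_lit 12) (.e (nat_lit 57356) (nat_lit 0) (.e (nat_lit 5603) (nat_lit 310) (.e (nat_lit 163869) (nat_lit 2) (.e (nat_lit 196669) (nat_lit 14) .nil)))))))) (.g (nat_lit 4) .nil .nil)))) (.nd (nat_lit 5) 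
(.lf (nat_lit 202642) (.g (nat_lit 3869) (.e (nat_lit 73754) (nat_lit 8) (.e (nat_lit 557105) (nat_lit 14) (.e (nat_lit 180252) (nat_lit 10) (.e (nat_lit 573475) (nat_lit 12) (.e (nat_lit 57347) (nat_lit 0) (.e (nat_lit 5590) (nat_lit 310) (.e (nat_lit 163871) (nat_lit 2) (.e (nat_lit 196670) (nat_lit 14) .nil)))))))) (.g (nat_lit 5) .nil .nil))) 
(.lf (nat_lit 202674) (.g (nat_lit 2045) (.e (nat_lit 73754) (nat_lit 8) (.e (nat_lit 557105) (nat_lit 14) (.e (nat_lit 180252) (nat_lit 10) (.e (nat_lit 573475) (nat_lit 12) (.e (nat_lit 57508) (nat_lit 39) .nil))))) .nil)))) (.nd (nat_lit 4) (.nd (nat_lit 5) 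
(.lf (nat_lit 202634) (.g (nat_lit 2368) (.e (nat_lit 73754) (nat_lit 8) (.e (nat_lit 557105) (nat_lit 14) (.e (nat_lit 180252) (nat_lit 10) (.e (nat_lit 573475) (nat_lit 12) (.e (nat_lit 57344) (nat_lit 0) (.e (nat_lit 5586) (nat_lit 310) (.e (nat_lit 163867) (nat_lit 2) (.e (nat_lit 196670) (nat_lit 14) .nil)))))))) (.g (nat_lit 4) .nil .nil))) 
(.lf (nat_lit 202666) (.g (nat_lit 2157) (.e (nat_lit 73754) (nat_lit 8) (.e (nat_lit 557105) (nat_lit 14) (.e (nat_lit 180252) (nat_lit 10) (.e (nat_lit 573475) (nat_lit 12) (.e (nat_lit 57506) (nat_lit 39) (.e (nat_lit 647201) (nat_lit 12) (.e (nat_lit 57471) (nat_lit 27) (.e (nat_lit 548890) (nat_lit 10) .nil)))))))) (.g (nat_lit 4) .nil .nil)))) (.nd (nat_lit 5) 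
(.lf (nat_lit 202650) (.g (nat_lit 2434) (.e (nat_lit 73754) (nat_lit 8) (.e (nat_lit 557105) (nat_lit 14) (.e (nat_lit 180252) (nat_lit 10) (.e (nat_lit 573475) (nat_lit 12) (.e (nat_lit 57350) (nat_lit 0) (.e (nat_lit 5581) (nat_lit 310) (.e (nat_lit 163867) (nat_lit 2) (.e (nat_lit 196670) (nat_lit 14) .nil)))))))) (.g (nat_lit 4) .nil .nil))) 
(.lf (nat_lit 202682) (.g (nat_lit 2152) (.e (nat_lit 73754) (nat_lit 8) (.e (nat_lit 557105) (nat_lit 14) (.e (nat_lit 180252) (nat_lit 10) (.e (nat_lit 573475) (nat_lit 12) (.e (nat_lit 57515) (nat_lit 42) (.e (nat_lit 671747) (nat_lit 0) (.e (nat_lit 1016) (nat_lit 81) (.e (nat_lit 1691) (nat_lit 117) (.e (nat_lit 500069) (nat_lit 19) .nil))))))))) (.g (nat_lit 4) .nil .nil)))))) 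
(.nd (nat_lit 3) (.nd (nat_lit 4) (.nd (nat_lit 5) 
(.lf (nat_lit 202630) (.g (nat_lit 3557) (.e (nat_lit 73754) (nat_lit 8) (.e (nat_lit 557105) (nat_lit 14) (.e (nat_lit 180252) (nat_lit 10) (.e (nat_lit 573474) (nat_lit 12) (.e (nat_lit 57516) (nat_lit 42) (.e (nat_lit 671757) (nat_lit 3) (.e (nat_lit 57452) (nat_lit 21) (.e (nat_lit 500068) (nat_lit 19) .nil)))))))) (.g (nat_lit 4) .nil .nil))) 
(.lf (nat_lit 202662) (.g (nat_lit 2110) (.e (nat_lit 73754) (nat_lit 8) (.e (nat_lit 557105) (nat_lit 14) (.e (nat_lit 180252) (nat_lit 10) (.e (nat_lit 573475) (nat_lit 12) (.e (nat_lit 57360) (nat_lit 0) (.e (nat_lit 5949) (nat_lit 322) (.e (nat_lit 57369) (nat_lit 2) (.e (nat_lit 98048) (nat_lit 5) .nil)))))))) (.g (nat_lit 4) .nil .nil)))) (.nd (nat_lit 5) 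
(.lf (nat_lit 202646) (.g (nat_lit 2685) (.e (nat_lit 73754) (nat_lit 8) (.e (nat_lit 557105) (nat_lit 14) (.e (nat_lit 180252) (nat_lit 10) (.e (nat_lit 573475) (nat_lit 12) (.e (nat_lit 57348) (nat_lit 0) (.e (nat_lit 5591) (nat_lit 310) (.e (nat_lit 163867) (nat_lit 2) (.e (nat_lit 196670) (nat_lit 14) .nil)))))))) (.g (nat_lit 4) .nil .nil))) 
(.lf (nat_lit 202678) (.g (nat_lit 1940) (.e (nat_lit 73754) (nat_lit 8) (.e (nat_lit 557105) (nat_lit 14) (.e (nat_lit 180252) (nat_lit 10) (.e (nat_lit 573475) (nat_lit 12) (.e (nat_lit 57509) (nat_lit 39) .nil))))) .nil)))) (.nd (nat_lit 4) (.nd (nat_lit 5) 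
(.lf (nat_lit 202638) (.g (nat_lit 2481) (.e (nat_lit 73754) (nat_lit 8) (.e (nat_lit 557105) (nat_lit 14) (.e (nat_lit 180252) (nat_lit 10) (.e (nat_lit 573475) (nat_lit 12) (.e (nat_lit 57345) (nat_lit 0) (.e (nat_lit 5593) (nat_lit 310) (.e (nat_lit 163870) (nat_lit 2) (.e (nat_lit 196667) (nat_lit 14) .nil)))))))) (.g (nat_lit 4) .nil .nil))) 
(.lf (nat_lit 202670) (.g (nat_lit 2047) (.e (nat_lit 73754) (nat_lit 8) (.e (nat_lit 557105) (nat_lit 14) (.e (nat_lit 180252) (nat_lit 10) (.e (nat_lit 573475) (nat_lit 12) (.e (nat_lit 57507) (nat_lit 39) (.e (nat_lit 647200) (nat_lit 12) (.e (nat_lit 57472) (nat_lit 27) (.e (nat_lit 548890) (nat_lit 10) .nil)))))))) (.g (nat_lit 4) .nil .nil)))) (.nd (nat_lit 5) 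
(.lf (nat_lit 202654) (.g (nat_lit 2626) (.e (nat_lit 73754) (nat_lit 8) (.e (nat_lit 557105) (nat_lit 14) (.e (nat_lit 180252) (nat_lit 10) (.e (nat_lit 573475) (nat_lit 12) (.e (nat_lit 57355) (nat_lit 0) (.e (nat_lit 5584) (nat_lit 310) (.e (nat_lit 163867) (nat_lit 2) (.e (nat_lit 196670) (nat_lit 14) .nil)))))))) (.g (nat_lit 4) .nil .nil))) 
(.lf (nat_lit 202686) (.g (nat_lit 3555) (.e (nat_lit 73754) (nat_lit 8) (.e (nat_lit 557105) (nat_lit 14) (.e (nat_lit 180252) (nat_lit 10) (.e (nat_lit 573475) (nat_lit 12) (.e (nat_lit 57515) (nat_lit 42) (.e (nat_lit 671751) (nat_lit 0) (.e (nat_lit 1236) (nat_lit 91) (.e (nat_lit 98048) (nat_lit 5) .nil)))))))) (.g (nat_lit 6) .nil .nil)))))))) 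
(.nd (nat_lit 1) (.nd (nat_lit 2) (.nd (nat_lit 3) (.nd (nat_lit 4) (.nd (nat_lit 5) 
(.lf (nat_lit 202625) (.g (nat_lit 3467) (.e (nat_lit 73754) (nat_lit 8) (.e (nat_lit 557105) (nat_lit 14) (.e (nat_lit 180252) (nat_lit 10) (.e (nat_lit 573474) (nat_lit 12) (.e (nat_lit 57516) (nat_lit 42) (.e (nat_lit 671751) (nat_lit 0) (.e (nat_lit 1237) (nat_lit 91) (.e (nat_lit 98048) (nat_lit 5) .nil)))))))) (.g (nat_lit 4) .nil .nil))) 
(.lf (nat_lit 202657) (.g (nat_lit 2482) (.e (nat_lit 73754) (nat_lit 8) (.e (nat_lit 557105) (nat_lit 14) (.e (nat_lit 180252) (nat_lit 10) (.e (nat_lit 573475) (nat_lit 12) (.e (nat_lit 57356) (nat_lit 0) (.e (nat_lit 5596) (nat_lit 310) (.e (nat_lit 163867) (nat_lit 2) (.e (nat_lit 196670) (nat_lit 14) .nil)))))))) (.g (nat_lit 4) .nil .nil)))) (.nd (nat_lit 5) 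
(.lf (nat_lit 202641) (.g (nat_lit 3808) (.e (nat_lit 73754) (nat_lit 8) (.e (nat_lit 557105) (nat_lit 14) (.e (nat_lit 180252) (nat_lit 10) (.e (nat_lit 573475) (nat_lit 12) (.e (nat_lit 57347) (nat_lit 0) (.e (nat_lit 5590) (nat_lit 310) (.e (nat_lit 163867) (nat_lit 2) (.e (nat_lit 196670) (nat_lit 14) .nil)))))))) (.g (nat_lit 5) .nil .nil))) 
(.lf (nat_lit 202673) (.g (nat_lit 4553) (.e (nat_lit 73754) (nat_lit 8) (.e (nat_lit 557105) (nat_lit 14) (.e (nat_lit 180252) (nat_lit 10) (.e (nat_lit 573475) (nat_lit 12) (.e (nat_lit 57507) (nat_lit 39) (.e (nat_lit 647203) (nat_lit 14) (.e (nat_lit 1139) (nat_lit 84) (.e (nat_lit 32788) (nat_lit 10) .nil)))))))) (.g (nat_lit 8) .nil .nil))))) (.nd (nat_lit 4) (.nd (nat_lit 5) 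
(.lf (nat_lit 202633) (.g (nat_lit 1881) (.e (nat_lit 73754) (nat_lit 8) (.e (nat_lit 557105) (nat_lit 14) (.e (nat_lit 180252) (nat_lit 10) (.e (nat_lit 573475) (nat_lit 12) (.e (nat_lit 57344) (nat_lit 0) .nil))))) .nil)) 
(.lf (nat_lit 202665) (.g (nat_lit 1978) (.e (nat_lit 73754) (nat_lit 8) (.e (nat_lit 557105) (nat_lit 14) (.e (nat_lit 180252) (nat_lit 10) (.e (nat_lit 573475) (nat_lit 12) (.e (nat_lit 57506) (nat_lit 39) .nil))))) .nil))) (.nd (nat_lit 5) 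
(.lf (nat_lit 202649) (.g (nat_lit 2432) (.e (nat_lit 73754) (nat_lit 8) (.e (nat_lit 557105) (nat_lit 14) (.e (nat_lit 180252) (nat_lit 10) (.e (nat_lit 573475) (nat_lit 12) (.e (nat_lit 57349) (nat_lit 0) (.e (nat_lit 5591) (nat_lit 310) (.e (nat_lit 163867) (nat_lit 2) (.e (nat_lit 196670) (nat_lit 14) .nil)))))))) (.g (nat_lit 4) .nil .nil))) 
(.lf (nat_lit 202681) (.g (nat_lit 2379) (.e (nat_lit 73754) (nat_lit 8) (.e (nat_lit 557105) (nat_lit 14) (.e (nat_lit 180252) (nat_lit 10) (.e (nat_lit 573475) (nat_lit 12) (.e (nat_lit 57515) (nat_lit 42) (.e (nat_lit 671747) (nat_lit 0) (.e (nat_lit 1016) (nat_lit 81) (.e (nat_lit 1691) (nat_lit 117) (.e (nat_lit 500068) (nat_lit 19) .nil))))))))) (.g (nat_lit 4) .nil .nil)))))) 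
(.nd (nat_lit 3) (.nd (nat_lit 4) (.nd (nat_lit 5) 
(.lf (nat_lit 202629) (.g (nat_lit 3744) (.e (nat_lit 73754) (nat_lit 8) (.e (nat_lit 557105) (nat_lit 14) (.e (nat_lit 180252) (nat_lit 10) (.e (nat_lit 573474) (nat_lit 12) (.e (nat_lit 57516) (nat_lit 42) (.e (nat_lit 679680) (nat_lit 0) (.e (nat_lit 1239) (nat_lit 91) (.e (nat_lit 98048) (nat_lit 5) .nil)))))))) (.g (nat_lit 4) .nil .nil))) 
(.lf (nat_lit 202661) (.g (nat_lit 2079) (.e (nat_lit 73754) (nat_lit 8) (.e (nat_lit 557105) (nat_lit 14) (.e (nat_lit 180252) (nat_lit 10) (.e (nat_lit 573475) (nat_lit 12) (.e (nat_lit 57360) (nat_lit 0) (.e (nat_lit 5818) (nat_lit 320) (.e (nat_lit 1016) (nat_lit 81) (.e (nat_lit 1239) (nat_lit 91) (.e (nat_lit 98048) (nat_lit 5) .nil))))))))) (.g (nat_lit 4) .nil .nil)))) (.nd (nat_lit 5) 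
(.lf (nat_lit 202645) (.g (nat_lit 3222) (.e (nat_lit 73754) (nat_lit 8) (.e (nat_lit 557105) (nat_lit 14) (.e (nat_lit 180252) (nat_lit 10) (.e (nat_lit 573475) (nat_lit 12) (.e (nat_lit 57348) (nat_lit 0) (.e (nat_lit 5584) (nat_lit 310) (.e (nat_lit 163867) (nat_lit 2) (.e (nat_lit 196670) (nat_lit 14) .nil)))))))) (.g (nat_lit 5) .nil .nil))) 
(.lf (nat_lit 202677) (.g (nat_lit 3621) (.e (nat_lit 73754) (nat_lit 8) (.e (nat_lit 557105) (nat_lit 14) (.e (nat_lit 180252) (nat_lit 10) (.e (nat_lit 573475) (nat_lit 12) (.e (nat_lit 57508) (nat_lit 39) (.e (nat_lit 647201) (nat_lit 12) (.e (nat_lit 57471) (nat_lit 27) (.e (nat_lit 548890) (nat_lit 10) .nil)))))))) (.g (nat_lit 6) .nil .nil))))) (.nd (nat_lit 4) (.nd (nat_lit 5) 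
(.lf (nat_lit 202637) (.g (nat_lit 2504) (.e (nat_lit 73754) (nat_lit 8) (.e (nat_lit 557105) (nat_lit 14) (.e (nat_lit 180252) (nat_lit 10) (.e (nat_lit 573475) (nat_lit 12) (.e (nat_lit 57345) (nat_lit 0) (.e (nat_lit 5590) (nat_lit 310) (.e (nat_lit 163870) (nat_lit 2) (.e (nat_lit 196667) (nat_lit 14) .nil)))))))) (.g (nat_lit 4) .nil .nil))) 
(.lf (nat_lit 202669) (.g (nat_lit 2604) (.e (nat_lit 73754) (nat_lit 8) (.e (nat_lit 557105) (nat_lit 14) (.e (nat_lit 180252) (nat_lit 10) (.e (nat_lit 573475) (nat_lit 12) (.e (nat_lit 57507) (nat_lit 39) (.e (nat_lit 647200) (nat_lit 12) (.e (nat_lit 57471) (nat_lit 27) (.e (nat_lit 548890) (nat_lit 10) .nil)))))))) (.g (nat_lit 4) .nil .nil)))) (.nd (nat_lit 5) 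
(.lf (nat_lit 202653) (.g (nat_lit 2164) (.e (nat_lit 73754) (nat_lit 8) (.e (nat_lit 557105) (nat_lit 14) (.e (nat_lit 180252) (nat_lit 10) (.e (nat_lit 573475) (nat_lit 12) (.e (nat_lit 57355) (nat_lit 0) .nil))))) .nil)) 
(.lf (nat_lit 202685) (.g (nat_lit 4197) (.e (nat_lit 73754) (nat_lit 8) (.e (nat_lit 557105) (nat_lit 14) (.e (nat_lit 180252) (nat_lit 10) (.e (nat_lit 573475) (nat_lit 12) (.e (nat_lit 57515) (nat_lit 42) (.e (nat_lit 671751) (nat_lit 0) (.e (nat_lit 1234) (nat_lit 91) (.e (nat_lit 98048) (nat_lit 5) .nil)))))))) (.g (nat_lit 7) .nil .nil))))))) 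
(.nd (nat_lit 2) (.nd (nat_lit 3) (.nd (nat_lit 4) (.nd (nat_lit 5) 
(.lf (nat_lit 202627) (.g (nat_lit 3563) (.e (nat_lit 73754) (nat_lit 8) (.e (nat_lit 557105) (nat_lit 14) (.e (nat_lit 180252) (nat_lit 10) (.e (nat_lit 573474) (nat_lit 12) (.e (nat_lit 57516) (nat_lit 42) (.e (nat_lit 671753) (nat_lit 0) (.e (nat_lit 1232) (nat_lit 91) (.e (nat_lit 98048) (nat_lit 5) .nil)))))))) (.g (nat_lit 4) .nil .nil))) 
(.lf (nat_lit 202659) (.g (nat_lit 2073) (.e (nat_lit 73754) (nat_lit 8) (.e (nat_lit 557105) (nat_lit 14) (.e (nat_lit 180252) (nat_lit 10) (.e (nat_lit 573475) (nat_lit 12) (.e (nat_lit 57360) (nat_lit 0) .nil))))) .nil))) (.nd (nat_lit 5) 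
(.lf (nat_lit 202643) (.g (nat_lit 3635) (.e (nat_lit 73754) (nat_lit 8) (.e (nat_lit 557105) (nat_lit 14) (.e (nat_lit 180252) (nat_lit 10) (.e (nat_lit 573475) (nat_lit 12) (.e (nat_lit 57347) (nat_lit 0) (.e (nat_lit 5595) (nat_lit 310) (.e (nat_lit 163867) (nat_lit 2) (.e (nat_lit 196670) (nat_lit 14) .nil)))))))) (.g (nat_lit 5) .nil .nil))) 
(.lf (nat_lit 202675) (.g (nat_lit 2647) (.e (nat_lit 73754) (nat_lit 8) (.e (nat_lit 557105) (nat_lit 14) (.e (nat_lit 180252) (nat_lit 10) (.e (nat_lit 573475) (nat_lit 12) (.e (nat_lit 57508) (nat_lit 39) (.e (nat_lit 647200) (nat_lit 12) (.e (nat_lit 57471) (nat_lit 27) (.e (nat_lit 548890) (nat_lit 10) .nil)))))))) (.g (nat_lit 4) .nil .nil))))) (.nd (nat_lit 4) (.nd (nat_lit 5) 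
(.lf (nat_lit 202635) (.g (nat_lit 4145) (.e (nat_lit 73754) (nat_lit 8) (.e (nat_lit 557105) (nat_lit 14) (.e (nat_lit 180252) (nat_lit 10) (.e (nat_lit 573475) (nat_lit 12) (.e (nat_lit 57344) (nat_lit 0) (.e (nat_lit 5600) (nat_lit 310) (.e (nat_lit 163867) (nat_lit 2) (.e (nat_lit 196670) (nat_lit 14) .nil)))))))) (.g (nat_lit 8) .nil .nil))) 
(.lf (nat_lit 202667) (.g (nat_lit 2514) (.e (nat_lit 73754) (nat_lit 8) (.e (nat_lit 557105) (nat_lit 14) (.e (nat_lit 180252) (nat_lit 10) (.e (nat_lit 573475) (nat_lit 12) (.e (nat_lit 57506) (nat_lit 39) (.e (nat_lit 647203) (nat_lit 14) (.e (nat_lit 1139) (nat_lit 84) (.e (nat_lit 32788) (nat_lit 10) .nil)))))))) (.g (nat_lit 4) .nil .nil)))) (.nd (nat_lit 5) 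
(.lf (nat_lit 202651) (.g (nat_lit 2956) (.e (nat_lit 73754) (nat_lit 8) (.e (nat_lit 557105) (nat_lit 14) (.e (nat_lit 180252) (nat_lit 10) (.e (nat_lit 573475) (nat_lit 12) (.e (nat_lit 57354) (nat_lit 0) (.e (nat_lit 5589) (nat_lit 310) (.e (nat_lit 163868) (nat_lit 2) (.e (nat_lit 196670) (nat_lit 14) .nil)))))))) (.g (nat_lit 4) .nil .nil))) 
(.lf (nat_lit 202683) (.g (nat_lit 2917) (.e (nat_lit 73754) (nat_lit 8) (.e (nat_lit 557105) (nat_lit 14) (.e (nat_lit 180252) (nat_lit 10) (.e (nat_lit 573475) (nat_lit 12) (.e (nat_lit 57515) (nat_lit 42) (.e (nat_lit 671747) (nat_lit 0) (.e (nat_lit 1239) (nat_lit 91) (.e (nat_lit 98048) (nat_lit 5) .nil)))))))) (.g (nat_lit 4) .nil .nil)))))) 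
(.nd (nat_lit 3) (.nd (nat_lit 4) (.nd (nat_lit 5) 
(.lf (nat_lit 202631) (.g (nat_lit 4322) (.e (nat_lit 73754) (nat_lit 8) (.e (nat_lit 557105) (nat_lit 14) (.e (nat_lit 180252) (nat_lit 10) (.e (nat_lit 573474) (nat_lit 12) (.e (nat_lit 57516) (nat_lit 42) (.e (nat_lit 671757) (nat_lit 3) (.e (nat_lit 57454) (nat_lit 21) (.e (nat_lit 507648) (nat_lit 19) .nil)))))))) (.g (nat_lit 7) .nil .nil))) 
(.lf (nat_lit 202663) (.g (nat_lit 2885) (.e (nat_lit 73754) (nat_lit 8) (.e (nat_lit 557105) (nat_lit 14) (.e (nat_lit 180252) (nat_lit 10) (.e (nat_lit 573475) (nat_lit 12) (.e (nat_lit 57360) (nat_lit 0) (.e (nat_lit 5949) (nat_lit 322) (.e (nat_lit 57371) (nat_lit 2) (.e (nat_lit 98048) (nat_lit 5) .nil)))))))) (.g (nat_lit 4) .nil .nil)))) (.nd (nat_lit 5) 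
(.lf (nat_lit 202647) (.g (nat_lit 2719) (.e (nat_lit 73754) (nat_lit 8) (.e (nat_lit 557105) (nat_lit 14) (.e (nat_lit 180252) (nat_lit 10) (.e (nat_lit 573475) (nat_lit 12) (.e (nat_lit 57348) (nat_lit 0) (.e (nat_lit 5593) (nat_lit 310) (.e (nat_lit 163868) (nat_lit 2) (.e (nat_lit 196668) (nat_lit 14) .nil)))))))) (.g (nat_lit 4) .nil .nil))) 
(.lf (nat_lit 202679) (.g (nat_lit 2011) (.e (nat_lit 73754) (nat_lit 8) (.e (nat_lit 557105) (nat_lit 14) (.e (nat_lit 180252) (nat_lit 10) (.e (nat_lit 573475) (nat_lit 12) (.e (nat_lit 57515) (nat_lit 42) (.e (nat_lit 671744) (nat_lit 0) (.e (nat_lit 1239) (nat_lit 91) (.e (nat_lit 98048) (nat_lit 5) .nil)))))))) (.g (nat_lit 4) .nil .nil))))) (.nd (nat_lit 4) (.nd (nat_lit 5) 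
(.lf (nat_lit 202639) (.g (nat_lit 2482) (.e (nat_lit 73754) (nat_lit 8) (.e (nat_lit 557105) (nat_lit 14) (.e (nat_lit 180252) (nat_lit 10) (.e (nat_lit 573475) (nat_lit 12) (.e (nat_lit 57346) (nat_lit 0) (.e (nat_lit 7936) (nat_lit 310) (.e (nat_lit 163867) (nat_lit 2) (.e (nat_lit 196670) (nat_lit 14) .nil)))))))) (.g (nat_lit 4) .nil .nil))) 
(.lf (nat_lit 202671) (.g (nat_lit 3965) (.e (nat_lit 73754) (nat_lit 8) (.e (nat_lit 557105) (nat_lit 14) (.e (nat_lit 180252) (nat_lit 10) (.e (nat_lit 573475) (nat_lit 12) (.e (nat_lit 57507) (nat_lit 39) (.e (nat_lit 647200) (nat_lit 12) (.e (nat_lit 57473) (nat_lit 27) (.e (nat_lit 548890) (nat_lit 10) .nil)))))))) (.g (nat_lit 6) .nil .nil)))) (.nd (nat_lit 5) 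
(.lf (nat_lit 202655) (.g (nat_lit 2611) (.e (nat_lit 73754) (nat_lit 8) (.e (nat_lit 557105) (nat_lit 14) (.e (nat_lit 180252) (nat_lit 10) (.e (nat_lit 573475) (nat_lit 12) (.e (nat_lit 57355) (nat_lit 0) (.e (nat_lit 5600) (nat_lit 310) (.e (nat_lit 163867) (nat_lit 2) (.e (nat_lit 196670) (nat_lit 14) .nil)))))))) (.g (nat_lit 4) .nil .nil))) 
(.lf (nat_lit 202687) (.g (nat_lit 3037) (.e (nat_lit 73754) (nat_lit 8) (.e (nat_lit 557105) (nat_lit 14) (.e (nat_lit 180252) (nat_lit 10) (.e (nat_lit 573475) (nat_lit 12) (.e (nat_lit 57515) (nat_lit 42) (.e (nat_lit 671751) (nat_lit 0) (.e (nat_lit 1237) (nat_lit 91) (.e (nat_lit 98048) (nat_lit 5) .nil)))))))) (.g (nat_lit 5) .nil .nil)))))))))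

noncomputable def tv2675 : DT := (.nd (nat_lit 0) (.nd (nat_lit 1) (.nd (nat_lit 2) (.nd (nat_lit 3) (.nd (nat_lit 4) (.nd (nat_lit 5) 
(.lf (nat_lit 202688) (.g (nat_lit 2257) (.e (nat_lit 73754) (nat_lit 8) (.e (nat_lit 557105) (nat_lit 14) (.e (nat_lit 180252) (nat_lit 10) (.e (nat_lit 573475) (nat_lit 12) (.e (nat_lit 57515) (nat_lit 42) (.e (nat_lit 671751) (nat_lit 0) (.e (nat_lit 1238) (nat_lit 91) (.e (nat_lit 98048) (nat_lit 5) .nil)))))))) (.g (nat_lit 4) .nil .nil))) 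
(.lf (nat_lit 202720) (.g (nat_lit 2790) (.e (nat_lit 73754) (nat_lit 8) (.e (nat_lit 557105) (nat_lit 14) (.e (nat_lit 180252) (nat_lit 10) (.e (nat_lit 573475) (nat_lit 12) (.e (nat_lit 57516) (nat_lit 42) (.e (nat_lit 671757) (nat_lit 3) (.e (nat_lit 57454) (nat_lit 21) (.e (nat_lit 507648) (nat_lit 19) .nil)))))))) (.g (nat_lit 5) .nil .nil)))) (.nd (nat_lit 5) 
(.lf (nat_lit 202704) (.g (nat_lit 3017) (.e (nat_lit 73754) (nat_lit 8) (.e (nat_lit 557105) (nat_lit 14) (.e (nat_lit 180252) (nat_lit 10) (.e (nat_lit 573475) (nat_lit 12) (.e (nat_lit 57516) (nat_lit 42) (.e (nat_lit 671748) (nat_lit 0) (.e (nat_lit 1233) (nat_lit 91) (.e (nat_lit 98048) (nat_lit 5) .nil)))))))) (.g (nat_lit 5) .nil .nil))) 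
(.lf (nat_lit 202736) (.g (nat_lit 3779) (.e (nat_lit 73754) (nat_lit 8) (.e (nat_lit 557105) (nat_lit 14) (.e (nat_lit 180252) (nat_lit 10) (.e (nat_lit 573503) (nat_lit 18) (.e (nat_lit 1349) (nat_lit 102) (.e (nat_lit 286724) (nat_lit 0) (.e (nat_lit 1886) (nat_lit 127) (.e (nat_lit 589568) (nat_lit 14) .nil)))))))) (.g (nat_lit 5) .nil .nil))))) (.nd (nat_lit 4) (.nd (nat_lit 5) 
(.lf (nat_lit 202696) (.g (nat_lit 3144) (.e (nat_lit 73754) (nat_lit 8) (.e (nat_lit 557105) (nat_lit 14) (.e (nat_lit 180252) (nat_lit 10) (.e (nat_lit 573475) (nat_lit 12) (.e (nat_lit 57516) (nat_lit 42) (.e (nat_lit 671745) (nat_lit 0) (.e (nat_lit 1239) (nat_lit 91) (.e (nat_lit 98048) (nat_lit 5) .nil)))))))) (.g (nat_lit 5) .nil .nil))) 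
(.lf (nat_lit 202728) (.g (nat_lit 2827) (.e (nat_lit 73754) (nat_lit 8) (.e (nat_lit 557105) (nat_lit 14) (.e (nat_lit 180252) (nat_lit 10) (.e (nat_lit 573503) (nat_lit 18) (.e (nat_lit 1346) (nat_lit 102) (.e (nat_lit 294656) (nat_lit 17) (.e (nat_lit 196670) (nat_lit 14) .nil))))))) (.g (nat_lit 4) .nil .nil)))) (.nd (nat_lit 5) 
(.lf (nat_lit 202712) (.g (nat_lit 2993) (.e (nat_lit 73754) (nat_lit 8) (.e (nat_lit 557105) (nat_lit 14) (.e (nat_lit 180252) (nat_lit 10) (.e (nat_lit 573475) (nat_lit 12) (.e (nat_lit 57516) (nat_lit 42) (.e (nat_lit 671751) (nat_lit 0) (.e (nat_lit 1236) (nat_lit 91) (.e (nat_lit 98048) (nat_lit 5) .nil)))))))) (.g (nat_lit 5) .nil .nil))) 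
(.lf (nat_lit 202744) (.g (nat_lit 2581) (.e (nat_lit 73754) (nat_lit 8) (.e (nat_lit 557105) (nat_lit 14) (.e (nat_lit 180252) (nat_lit 10) (.e (nat_lit 573503) (nat_lit 18) (.e (nat_lit 1383) (nat_lit 105) .nil))))) .nil))))) (.nd (nat_lit 3) (.nd (nat_lit 4) (.nd (nat_lit 5) 
(.lf (nat_lit 202692) (.g (nat_lit 2829) (.e (nat_lit 73754) (nat_lit 8) (.e (nat_lit 557105) (nat_lit 14) (.e (nat_lit 180252) (nat_lit 10) (.e (nat_lit 573475) (nat_lit 12) (.e (nat_lit 57516) (nat_lit 42) (.e (nat_lit 671744) (nat_lit 0) (.e (nat_lit 1234) (nat_lit 91) (.e (nat_lit 98048) (nat_lit 5) .nil)))))))) (.g (nat_lit 5) .nil .nil))) 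
(.lf (nat_lit 202724) (.g (nat_lit 1299) (.e (nat_lit 73754) (nat_lit 8) (.e (nat_lit 557105) (nat_lit 14) (.e (nat_lit 180252) (nat_lit 10) (.e (nat_lit 573503) (nat_lit 18) .nil)))) .nil))) (.nd (nat_lit 5) 
(.lf (nat_lit 202708) (.g (nat_lit 3639) (.e (nat_lit 73754) (nat_lit 8) (.e (nat_lit 557105) (nat_lit 14) (.e (nat_lit 180252) (nat_lit 10) (.e (nat_lit 573475) (nat_lit 12) (.e (nat_lit 57516) (nat_lit 42) (.e (nat_lit 671748) (nat_lit 0) (.e (nat_lit 1304) (nat_lit 97) (.e (nat_lit 139281) (nat_lit 5) .nil)))))))) (.g (nat_lit 6) .nil .nil))) 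
(.lf (nat_lit 202740) (.g (nat_lit 3123) (.e (nat_lit 73754) (nat_lit 8) (.e (nat_lit 557105) (nat_lit 14) (.e (nat_lit 180252) (nat_lit 10) (.e (nat_lit 573503) (nat_lit 18) (.e (nat_lit 1349) (nat_lit 102) (.e (nat_lit 286765) (nat_lit 15) (.e (nat_lit 3144) (nat_lit 193) (.e (nat_lit 500072) (nat_lit 19) .nil)))))))) (.g (nat_lit 4) .nil .nil))))) (.nd (nat_lit 4) (.nd (nat_lit 5) 
(.lf (nat_lit 202700) (.g (nat_lit 3402) (.e (nat_lit 73754) (nat_lit 8) (.e (nat_lit 557105) (nat_lit 14) (.e (nat_lit 180252) (nat_lit 10) (.e (nat_lit 573475) (nat_lit 12) (.e (nat_lit 57516) (nat_lit 42) (.e (nat_lit 671747) (nat_lit 0) (.e (nat_lit 1239) (nat_lit 91) (.e (nat_lit 98048) (nat_lit 5) .nil)))))))) (.g (nat_lit 6) .nil .nil))) 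
(.lf (nat_lit 202732) (.g (nat_lit 2430) (.e (nat_lit 73754) (nat_lit 8) (.e (nat_lit 557105) (nat_lit 14) (.e (nat_lit 180252) (nat_lit 10) (.e (nat_lit 573503) (nat_lit 18) (.e (nat_lit 1348) (nat_lit 102) (.e (nat_lit 286724) (nat_lit 0) (.e (nat_lit 1886) (nat_lit 127) (.e (nat_lit 589568) (nat_lit 14) .nil)))))))) (.g (nat_lit 4) .nil .nil)))) (.nd (nat_lit 5) 
(.lf (nat_lit 202716) (.g (nat_lit 2924) (.e (nat_lit 73754) (nat_lit 8) (.e (nat_lit 557105) (nat_lit 14) (.e (nat_lit 180252) (nat_lit 10) (.e (nat_lit 573475) (nat_lit 12) (.e (nat_lit 57516) (nat_lit 42) (.e (nat_lit 671754) (nat_lit 0) (.e (nat_lit 1235) (nat_lit 91) (.e (nat_lit 98048) (nat_lit 5) .nil)))))))) (.g (nat_lit 5) .nil .nil))) 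
(.lf (nat_lit 202748) (.g (nat_lit 4054) (.e (nat_lit 73754) (nat_lit 8) (.e (nat_lit 557105) (nat_lit 14) (.e (nat_lit 180261) (nat_lit 20) (.e (nat_lit 655364) (nat_lit 0) (.e (nat_lit 2964) (nat_lit 185) (.e (nat_lit 434209) (nat_lit 18) (.e (nat_lit 6270) (nat_lit 337) (.e (nat_lit 1214) (nat_lit 89) .nil)))))))) (.g (nat_lit 6) .nil .nil))))))) 
(.nd (nat_lit 2) (.nd (nat_lit 3) (.nd (nat_lit 4) (.nd (nat_lit 5) 
(.lf (nat_lit 202690) (.g (nat_lit 1836) (.e (nat_lit 73754) (nat_lit 8) (.e (nat_lit 557105) (nat_lit 14) (.e (nat_lit 180252) (nat_lit 10) (.e (nat_lit 573475) (nat_lit 12) (.e (nat_lit 57516) (nat_lit 42) .nil))))) .nil)) 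
(.lf (nat_lit 202722) (.g (nat_lit 2682) (.e (nat_lit 73754) (nat_lit 8) (.e (nat_lit 557105) (nat_lit 14) (.e (nat_lit 180252) (nat_lit 10) (.e (nat_lit 573494) (nat_lit 16) .nil)))) .nil))) (.nd (nat_lit 5) 
(.lf (nat_lit 202706) (.g (nat_lit 2930) (.e (nat_lit 73754) (nat_lit 8) (.e (nat_lit 557105) (nat_lit 14) (.e (nat_lit 180252) (nat_lit 10) (.e (nat_lit 573475) (nat_lit 12) (.e (nat_lit 57516) (nat_lit 42) (.e (nat_lit 671748) (nat_lit 0) (.e (nat_lit 1302) (nat_lit 97) (.e (nat_lit 139281) (nat_lit 5) .nil)))))))) (.g (nat_lit 5) .nil .nil))) 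
(.lf (nat_lit 202738) (.g (nat_lit 4046) (.e (nat_lit 73754) (nat_lit 8) (.e (nat_lit 557105) (nat_lit 14) (.e (nat_lit 180252) (nat_lit 10) (.e (nat_lit 573503) (nat_lit 18) (.e (nat_lit 1349) (nat_lit 102) (.e (nat_lit 286765) (nat_lit 15) (.e (nat_lit 3124) (nat_lit 193) (.e (nat_lit 500073) (nat_lit 19) .nil)))))))) (.g (nat_lit 5) .nil .nil))))) (.nd (nat_lit 4) (.nd (nat_lit 5) 
(.lf (nat_lit 202698) (.g (nat_lit 3121) (.e (nat_lit 73754) (nat_lit 8) (.e (nat_lit 557105) (nat_lit 14) (.e (nat_lit 180252) (nat_lit 10) (.e (nat_lit 573475) (nat_lit 12) (.e (nat_lit 57516) (nat_lit 42) (.e (nat_lit 671746) (nat_lit 0) (.e (nat_lit 1239) (nat_lit 91) (.e (nat_lit 98048) (nat_lit 5) .nil)))))))) (.g (nat_lit 5) .nil .nil))) 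
(.lf (nat_lit 202730) (.g (nat_lit 2728) (.e (nat_lit 73754) (nat_lit 8) (.e (nat_lit 557105) (nat_lit 14) (.e (nat_lit 180252) (nat_lit 10) (.e (nat_lit 573503) (nat_lit 18) (.e (nat_lit 1347) (nat_lit 102) (.e (nat_lit 286724) (nat_lit 0) (.e (nat_lit 1886) (nat_lit 127) (.e (nat_lit 581670) (nat_lit 14) .nil)))))))) (.g (nat_lit 4) .nil .nil)))) (.nd (nat_lit 5) 
(.lf (nat_lit 202714) (.g (nat_lit 2718) (.e (nat_lit 73754) (nat_lit 8) (.e (nat_lit 557105) (nat_lit 14) (.e (nat_lit 180252) (nat_lit 10) (.e (nat_lit 573475) (nat_lit 12) (.e (nat_lit 57516) (nat_lit 42) (.e (nat_lit 671752) (nat_lit 0) (.e (nat_lit 1235) (nat_lit 91) (.e (nat_lit 98048) (nat_lit 5) .nil)))))))) (.g (nat_lit 4) .nil .nil))) 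
(.lf (nat_lit 202746) (.g (nat_lit 1318) (.e (nat_lit 73754) (nat_lit 8) (.e (nat_lit 557105) (nat_lit 14) (.e (nat_lit 180261) (nat_lit 20) (.e (nat_lit 655364) (nat_lit 0) .nil)))) .nil))))) (.nd (nat_lit 3) (.nd (nat_lit 4) (.nd (nat_lit 5) 
(.lf (nat_lit 202694) (.g (nat_lit 3249) (.e (nat_lit 73754) (nat_lit 8) (.e (nat_lit 557105) (nat_lit 14) (.e (nat_lit 180252) (nat_lit 10) (.e (nat_lit 573475) (nat_lit 12) (.e (nat_lit 57516) (nat_lit 42) (.e (nat_lit 671744) (nat_lit 0) (.e (nat_lit 1239) (nat_lit 91) (.e (nat_lit 98048) (nat_lit 5) .nil)))))))) (.g (nat_lit 5) .nil .nil))) 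
(.lf (nat_lit 202726) (.g (nat_lit 4266) (.e (nat_lit 73754) (nat_lit 8) (.e (nat_lit 557105) (nat_lit 14) (.e (nat_lit 180252) (nat_lit 10) (.e (nat_lit 573503) (nat_lit 18) (.e (nat_lit 1074) (nat_lit 81) (.e (nat_lit 5629) (nat_lit 312) (.e (nat_lit 100) (nat_lit 2) (.e (nat_lit 98048) (nat_lit 5) .nil)))))))) (.g (nat_lit 7) .nil .nil)))) (.nd (nat_lit 5) 
(.lf (nat_lit 202710) (.g (nat_lit 2776) (.e (nat_lit 73754) (nat_lit 8) (.e (nat_lit 557105) (nat_lit 14) (.e (nat_lit 180252) (nat_lit 10) (.e (nat_lit 573475) (nat_lit 12) (.e (nat_lit 57516) (nat_lit 42) (.e (nat_lit 671750) (nat_lit 0) (.e (nat_lit 1234) (nat_lit 91) (.e (nat_lit 98048) (nat_lit 5) .nil)))))))) (.g (nat_lit 4) .nil .nil))) 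
(.lf (nat_lit 202742) (.g (nat_lit 3257) (.e (nat_lit 73754) (nat_lit 8) (.e (nat_lit 557105) (nat_lit 14) (.e (nat_lit 180252) (nat_lit 10) (.e (nat_lit 573503) (nat_lit 18) (.e (nat_lit 1358) (nat_lit 102) (.e (nat_lit 286724) (nat_lit 0) (.e (nat_lit 1886) (nat_lit 127) (.e (nat_lit 589568) (nat_lit 14) .nil)))))))) (.g (nat_lit 5) .nil .nil))))) (.nd (nat_lit 4) (.nd (nat_lit 5) 
(.lf (nat_lit 202702) (.g (nat_lit 3682) (.e (nat_lit 73754) (nat_lit 8) (.e (nat_lit 557105) (nat_lit 14) (.e (nat_lit 180252) (nat_lit 10) (.e (nat_lit 573475) (nat_lit 12) (.e (nat_lit 57516) (nat_lit 42) (.e (nat_lit 671748) (nat_lit 0) (.e (nat_lit 1016) (nat_lit 81) (.e (nat_lit 1691) (nat_lit 117) (.e (nat_lit 500069) (nat_lit 19) .nil))))))))) (.g (nat_lit 6) .nil .nil))) 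
(.lf (nat_lit 202734) (.g (nat_lit 2230) (.e (nat_lit 73754) (nat_lit 8) (.e (nat_lit 557105) (nat_lit 14) (.e (nat_lit 180252) (nat_lit 10) (.e (nat_lit 573503) (nat_lit 18) (.e (nat_lit 1349) (nat_lit 102) .nil))))) .nil))) (.nd (nat_lit 5) 
(.lf (nat_lit 202718) (.g (nat_lit 2743) (.e (nat_lit 73754) (nat_lit 8) (.e (nat_lit 557105) (nat_lit 14) (.e (nat_lit 180252) (nat_lit 10) (.e (nat_lit 573475) (nat_lit 12) (.e (nat_lit 57516) (nat_lit 42) (.e (nat_lit 671757) (nat_lit 3) (.e (nat_lit 57452) (nat_lit 21) (.e (nat_lit 500069) (nat_lit 19) .nil)))))))) (.g (nat_lit 5) .nil .nil))) 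
(.lf (nat_lit 202750) (.g (nat_lit 1302) (.e (nat_lit 73754) (nat_lit 8) (.e (nat_lit 557105) (nat_lit 14) (.e (nat_lit 180261) (nat_lit 20) (.e (nat_lit 655378) (nat_lit 4) .nil)))) .nil))))))) (.nd (nat_lit 1) (.nd (nat_lit 2) (.nd (nat_lit 3) (.nd (nat_lit 4) (.nd (nat_lit 5) 
(.lf (nat_lit 202689) (.g (nat_lit 2525) (.e (nat_lit 73754) (nat_lit 8) (.e (nat_lit 557105) (nat_lit 14) (.e (nat_lit 180252) (nat_lit 10) (.e (nat_lit 573475) (nat_lit 12) (.e (nat_lit 57515) (nat_lit 42) (.e (nat_lit 679680) (nat_lit 0) (.e (nat_lit 1239) (nat_lit 91) (.e (nat_lit 98048) (nat_lit 5) .nil)))))))) (.g (nat_lit 4) .nil .nil))) 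
(.lf (nat_lit 202721) (.g (nat_lit 2668) (.e (nat_lit 73754) (nat_lit 8) (.e (nat_lit 557105) (nat_lit 14) (.e (nat_lit 180252) (nat_lit 10) (.e (nat_lit 573477) (nat_lit 12) .nil)))) .nil))) (.nd (nat_lit 5) 
(.lf (nat_lit 202705) (.g (nat_lit 3788) (.e (nat_lit 73754) (nat_lit 8) (.e (nat_lit 557105) (nat_lit 14) (.e (nat_lit 180252) (nat_lit 10) (.e (nat_lit 573475) (nat_lit 12) (.e (nat_lit 57516) (nat_lit 42) (.e (nat_lit 671748) (nat_lit 0) (.e (nat_lit 1239) (nat_lit 91) (.e (nat_lit 98048) (nat_lit 5) .nil)))))))) (.g (nat_lit 6) .nil .nil))) 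
(.lf (nat_lit 202737) (.g (nat_lit 3322) (.e (nat_lit 73754) (nat_lit 8) (.e (nat_lit 557105) (nat_lit 14) (.e (nat_lit 180252) (nat_lit 10) (.e (nat_lit 573503) (nat_lit 18) (.e (nat_lit 1349) (nat_lit 102) (.e (nat_lit 286728) (nat_lit 0) (.e (nat_lit 1885) (nat_lit 127) (.e (nat_lit 581670) (nat_lit 14) .nil)))))))) (.g (nat_lit 4) .nil .nil))))) (.nd (nat_lit 4) (.nd (nat_lit 5) 
(.lf (nat_lit 202697) (.g (nat_lit 2792) (.e (nat_lit 73754) (nat_lit 8) (.e (nat_lit 557105) (nat_lit 14) (.e (nat_lit 180252) (nat_lit 10) (.e (nat_lit 573475) (nat_lit 12) (.e (nat_lit 57516) (nat_lit 42) (.e (nat_lit 671746) (nat_lit 0) (.e (nat_lit 1016) (nat_lit 81) (.e (nat_lit 1691) (nat_lit 117) (.e (nat_lit 500068) (nat_lit 19) .nil))))))))) (.g (nat_lit 4) .nil .nil))) 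
(.lf (nat_lit 202729) (.g (nat_lit 2454) (.e (nat_lit 73754) (nat_lit 8) (.e (nat_lit 557105) (nat_lit 14) (.e (nat_lit 180252) (nat_lit 10) (.e (nat_lit 573503) (nat_lit 18) (.e (nat_lit 1347) (nat_lit 102) .nil))))) .nil))) (.nd (nat_lit 5) 
(.lf (nat_lit 202713) (.g (nat_lit 2475) (.e (nat_lit 73754) (nat_lit 8) (.e (nat_lit 557105) (nat_lit 14) (.e (nat_lit 180252) (nat_lit 10) (.e (nat_lit 573475) (nat_lit 12) (.e (nat_lit 57516) (nat_lit 42) (.e (nat_lit 671751) (nat_lit 0) (.e (nat_lit 1237) (nat_lit 91) (.e (nat_lit 98048) (nat_lit 5) .nil)))))))) (.g (nat_lit 4) .nil .nil))) 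
(.lf (nat_lit 202745) (.g (nat_lit 3205) (.e (nat_lit 73754) (nat_lit 8) (.e (nat_lit 557105) (nat_lit 14) (.e (nat_lit 180252) (nat_lit 10) (.e (nat_lit 573503) (nat_lit 18) (.e (nat_lit 1384) (nat_lit 105) (.e (nat_lit 319232) (nat_lit 17) (.e (nat_lit 98048) (nat_lit 5) .nil))))))) (.g (nat_lit 4) .nil .nil)))))) (.nd (nat_lit 3) (.nd (nat_lit 4) (.nd (nat_lit 5) 
(.lf (nat_lit 202693) (.g (nat_lit 2083) (.e (nat_lit 73754) (nat_lit 8) (.e (nat_lit 557105) (nat_lit 14) (.e (nat_lit 180252) (nat_lit 10) (.e (nat_lit 573475) (nat_lit 12) (.e (nat_lit 57516) (nat_lit 42) (.e (nat_lit 671744) (nat_lit 0) (.e (nat_lit 1237) (nat_lit 91) (.e (nat_lit 98048) (nat_lit 5) .nil)))))))) (.g (nat_lit 4) .nil .nil))) 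
(.lf (nat_lit 202725) (.g (nat_lit 2600) (.e (nat_lit 73754) (nat_lit 8) (.e (nat_lit 557105) (nat_lit 14) (.e (nat_lit 180252) (nat_lit 10) (.e (nat_lit 573503) (nat_lit 18) (.e (nat_lit 993) (nat_lit 81) .nil))))) .nil))) (.nd (nat_lit 5) 
(.lf (nat_lit 202709) (.g (nat_lit 2546) (.e (nat_lit 73754) (nat_lit 8) (.e (nat_lit 557105) (nat_lit 14) (.e (nat_lit 180252) (nat_lit 10) (.e (nat_lit 573475) (nat_lit 12) (.e (nat_lit 57516) (nat_lit 42) (.e (nat_lit 671749) (nat_lit 0) (.e (nat_lit 1234) (nat_lit 91) (.e (nat_lit 98048) (nat_lit 5) .nil)))))))) (.g (nat_lit 4) .nil .nil))) 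
(.lf (nat_lit 202741) (.g (nat_lit 2768) (.e (nat_lit 73754) (nat_lit 8) (.e (nat_lit 557105) (nat_lit 14) (.e (nat_lit 180252) (nat_lit 10) (.e (nat_lit 573503) (nat_lit 18) (.e (nat_lit 1358) (nat_lit 102) (.e (nat_lit 286724) (nat_lit 0) (.e (nat_lit 1886) (nat_lit 127) (.e (nat_lit 581670) (nat_lit 14) .nil)))))))) (.g (nat_lit 4) .nil .nil))))) (.nd (nat_lit 4) (.nd (nat_lit 5) 
(.lf (nat_lit 202701) (.g (nat_lit 3893) (.e (nat_lit 73754) (nat_lit 8) (.e (nat_lit 557105) (nat_lit 14) (.e (nat_lit 180252) (nat_lit 10) (.e (nat_lit 573475) (nat_lit 12) (.e (nat_lit 57516) (nat_lit 42) (.e (nat_lit 671748) (nat_lit 0) (.e (nat_lit 1016) (nat_lit 81) (.e (nat_lit 1691) (nat_lit 117) (.e (nat_lit 500068) (nat_lit 19) .nil))))))))) (.g (nat_lit 6) .nil .nil))) 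
(.lf (nat_lit 202733) (.g (nat_lit 2546) (.e (nat_lit 73754) (nat_lit 8) (.e (nat_lit 557105) (nat_lit 14) (.e (nat_lit 180252) (nat_lit 10) (.e (nat_lit 573503) (nat_lit 18) (.e (nat_lit 1348) (nat_lit 102) (.e (nat_lit 286728) (nat_lit 0) (.e (nat_lit 1885) (nat_lit 127) (.e (nat_lit 581670) (nat_lit 14) .nil)))))))) (.g (nat_lit 4) .nil .nil)))) (.nd (nat_lit 5) 
(.lf (nat_lit 202717) (.g (nat_lit 2233) (.e (nat_lit 73754) (nat_lit 8) (.e (nat_lit 557105) (nat_lit 14) (.e (nat_lit 180252) (nat_lit 10) (.e (nat_lit 573475) (nat_lit 12) (.e (nat_lit 57516) (nat_lit 42) (.e (nat_lit 679680) (nat_lit 0) (.e (nat_lit 1239) (nat_lit 91) (.e (nat_lit 98048) (nat_lit 5) .nil)))))))) (.g (nat_lit 4) .nil .nil))) 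
(.lf (nat_lit 202749) (.g (nat_lit 2919) (.e (nat_lit 73754) (nat_lit 8) (.e (nat_lit 557105) (nat_lit 14) (.e (nat_lit 180261) (nat_lit 20) (.e (nat_lit 655364) (nat_lit 0) (.e (nat_lit 2964) (nat_lit 185) (.e (nat_lit 434289) (nat_lit 43) (.e (nat_lit 696362) (nat_lit 17) .nil))))))) (.g (nat_lit 4) .nil .nil))))))) (.nd (nat_lit 2) (.nd (nat_lit 3) (.nd (nat_lit 4) (.nd (nat_lit 5) 
(.lf (nat_lit 202691) (.g (nat_lit 2220) (.e (nat_lit 73754) (nat_lit 8) (.e (nat_lit 557105) (nat_lit 14) (.e (nat_lit 180252) (nat_lit 10) (.e (nat_lit 573475) (nat_lit 12) (.e (nat_lit 57516) (nat_lit 42) (.e (nat_lit 671744) (nat_lit 0) (.e (nat_lit 1231) (nat_lit 91) (.e (nat_lit 98048) (nat_lit 5) .nil)))))))) (.g (nat_lit 4) .nil .nil))) 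
(.lf (nat_lit 202723) (.g (nat_lit 2682) (.e (nat_lit 73754) (nat_lit 8) (.e (nat_lit 557105) (nat_lit 14) (.e (nat_lit 180252) (nat_lit 10) (.e (nat_lit 573498) (nat_lit 18) .nil)))) .nil))) (.nd (nat_lit 5) 
(.lf (nat_lit 202707) (.g (nat_lit 2589) (.e (nat_lit 73754) (nat_lit 8) (.e (nat_lit 557105) (nat_lit 14) (.e (nat_lit 180252) (nat_lit 10) (.e (nat_lit 573475) (nat_lit 12) (.e (nat_lit 57516) (nat_lit 42) (.e (nat_lit 671748) (nat_lit 0) (.e (nat_lit 1303) (nat_lit 97) (.e (nat_lit 139281) (nat_lit 5) .nil)))))))) (.g (nat_lit 4) .nil .nil))) 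
(.lf (nat_lit 202739) (.g (nat_lit 3144) (.e (nat_lit 73754) (nat_lit 8) (.e (nat_lit 557105) (nat_lit 14) (.e (nat_lit 180252) (nat_lit 10) (.e (nat_lit 573503) (nat_lit 18) (.e (nat_lit 1349) (nat_lit 102) (.e (nat_lit 286765) (nat_lit 15) (.e (nat_lit 3134) (nat_lit 193) (.e (nat_lit 500072) (nat_lit 19) .nil)))))))) (.g (nat_lit 4) .nil .nil))))) (.nd (nat_lit 4) (.nd (nat_lit 5) 
(.lf (nat_lit 202699) (.g (nat_lit 2864) (.e (nat_lit 73754) (nat_lit 8) (.e (nat_lit 557105) (nat_lit 14) (.e (nat_lit 180252) (nat_lit 10) (.e (nat_lit 573475) (nat_lit 12) (.e (nat_lit 57516) (nat_lit 42) (.e (nat_lit 671747) (nat_lit 0) (.e (nat_lit 1016) (nat_lit 81) (.e (nat_lit 1691) (nat_lit 117) (.e (nat_lit 500068) (nat_lit 19) .nil))))))))) (.g (nat_lit 4) .nil .nil))) 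
(.lf (nat_lit 202731) (.g (nat_lit 3217) (.e (nat_lit 73754) (nat_lit 8) (.e (nat_lit 557105) (nat_lit 14) (.e (nat_lit 180252) (nat_lit 10) (.e (nat_lit 573503) (nat_lit 18) (.e (nat_lit 1347) (nat_lit 102) (.e (nat_lit 286724) (nat_lit 0) (.e (nat_lit 1886) (nat_lit 127) (.e (nat_lit 589568) (nat_lit 14) .nil)))))))) (.g (nat_lit 4) .nil .nil)))) (.nd (nat_lit 5) 
(.lf (nat_lit 202715) (.g (nat_lit 1987) (.e (nat_lit 73754) (nat_lit 8) (.e (nat_lit 557105) (nat_lit 14) (.e (nat_lit 180252) (nat_lit 10) (.e (nat_lit 573475) (nat_lit 12) (.e (nat_lit 57516) (nat_lit 42) (.e (nat_lit 671753) (nat_lit 0) (.e (nat_lit 1232) (nat_lit 91) (.e (nat_lit 98048) (nat_lit 5) .nil)))))))) (.g (nat_lit 4) .nil .nil))) 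
(.lf (nat_lit 202747) (.g (nat_lit 2644) (.e (nat_lit 73754) (nat_lit 8) (.e (nat_lit 557105) (nat_lit 14) (.e (nat_lit 180261) (nat_lit 20) (.e (nat_lit 655364) (nat_lit 0) (.e (nat_lit 2964) (nat_lit 185) (.e (nat_lit 434202) (nat_lit 18) (.e (nat_lit 6250) (nat_lit 337) (.e (nat_lit 1207) (nat_lit 89) .nil)))))))) (.g (nat_lit 4) .nil .nil)))))) 
(.nd (nat_lit 3) (.nd (nat_lit 4) (.nd (nat_lit 5) 
(.lf (nat_lit 202695) (.g (nat_lit 2249) (.e (nat_lit 73754) (nat_lit 8) (.e (nat_lit 557105) (nat_lit 14) (.e (nat_lit 180252) (nat_lit 10) (.e (nat_lit 573475) (nat_lit 12) (.e (nat_lit 57516) (nat_lit 42) (.e (nat_lit 671744) (nat_lit 0) (.e (nat_lit 1242) (nat_lit 91) (.e (nat_lit 98048) (nat_lit 5) .nil)))))))) (.g (nat_lit 4) .nil .nil))) 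
(.lf (nat_lit 202727) (.g (nat_lit 2963) (.e (nat_lit 73754) (nat_lit 8) (.e (nat_lit 557105) (nat_lit 14) (.e (nat_lit 180252) (nat_lit 10) (.e (nat_lit 573503) (nat_lit 18) (.e (nat_lit 7936) (nat_lit 81) (.e (nat_lit 5629) (nat_lit 312) (.e (nat_lit 100) (nat_lit 2) (.e (nat_lit 98048) (nat_lit 5) .nil)))))))) (.g (nat_lit 4) .nil .nil)))) (.nd (nat_lit 5) 
(.lf (nat_lit 202711) (.g (nat_lit 3818) (.e (nat_lit 73754) (nat_lit 8) (.e (nat_lit 557105) (nat_lit 14) (.e (nat_lit 180252) (nat_lit 10) (.e (nat_lit 573475) (nat_lit 12) (.e (nat_lit 57516) (nat_lit 42) (.e (nat_lit 671751) (nat_lit 0) (.e (nat_lit 1234) (nat_lit 91) (.e (nat_lit 98048) (nat_lit 5) .nil)))))))) (.g (nat_lit 7) .nil .nil))) 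
(.lf (nat_lit 202743) (.g (nat_lit 2553) (.e (nat_lit 73754) (nat_lit 8) (.e (nat_lit 557105) (nat_lit 14) (.e (nat_lit 180252) (nat_lit 10) (.e (nat_lit 573503) (nat_lit 18) (.e (nat_lit 1359) (nat_lit 102) (.e (nat_lit 286724) (nat_lit 0) (.e (nat_lit 1886) (nat_lit 127) (.e (nat_lit 589568) (nat_lit 14) .nil)))))))) (.g (nat_lit 4) .nil .nil))))) (.nd (nat_lit 4) (.nd (nat_lit 5) 
(.lf (nat_lit 202703) (.g (nat_lit 3179) (.e (nat_lit 73754) (nat_lit 8) (.e (nat_lit 557105) (nat_lit 14) (.e (nat_lit 180252) (nat_lit 10) (.e (nat_lit 573475) (nat_lit 12) (.e (nat_lit 57516) (nat_lit 42) (.e (nat_lit 671748) (nat_lit 0) (.e (nat_lit 1225) (nat_lit 91) (.e (nat_lit 98048) (nat_lit 5) .nil)))))))) (.g (nat_lit 5) .nil .nil))) 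
(.lf (nat_lit 202735) (.g (nat_lit 3290) (.e (nat_lit 73754) (nat_lit 8) (.e (nat_lit 557105) (nat_lit 14) (.e (nat_lit 180252) (nat_lit 10) (.e (nat_lit 573503) (nat_lit 18) (.e (nat_lit 1349) (nat_lit 102) (.e (nat_lit 286724) (nat_lit 0) (.e (nat_lit 1886) (nat_lit 127) (.e (nat_lit 581670) (nat_lit 14) .nil)))))))) (.g (nat_lit 4) .nil .nil)))) (.nd (nat_lit 5) 
(.lf (nat_lit 202719) (.g (nat_lit 2524) (.e (nat_lit 73754) (nat_lit 8) (.e (nat_lit 557105) (nat_lit 14) (.e (nat_lit 180252) (nat_lit 10) (.e (nat_lit 573475) (nat_lit 12) (.e (nat_lit 57516) (nat_lit 42) (.e (nat_lit 671757) (nat_lit 3) (.e (nat_lit 57453) (nat_lit 21) (.e (nat_lit 500069) (nat_lit 19) .nil)))))))) (.g (nat_lit 4) .nil .nil))) 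
(.lf (nat_lit 202751) (.g (nat_lit 2101) (.e (nat_lit 73754) (nat_lit 8) (.e (nat_lit 557105) (nat_lit 14) (.e (nat_lit 180261) (nat_lit 20) (.e (nat_lit 655378) (nat_lit 4) (.e (nat_lit 172061) (nat_lit 1) .nil))))) .nil))))))))

noncomputable def tv2676 : DT := (.nd (nat_lit 0) (.nd (nat_lit 1) (.nd (nat_lit 2) (.nd (nat_lit 3) (.nd (nat_lit 4) (.nd (nat_lit 5) 
(.lf (nat_lit 202752) (.g (nat_lit 3835) (.e (nat_lit 73754) (nat_lit 8) (.e (nat_lit 557105) (nat_lit 14) (.e (nat_lit 180261) (nat_lit 20) (.e (nat_lit 655378) (nat_lit 4) (.e (nat_lit 172061) (nat_lit 1) (.e (nat_lit 164150) (nat_lit 152) (.e (nat_lit 1207) (nat_lit 89) .nil))))))) (.g (nat_lit 7) .nil .nil))) 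
(.lf (nat_lit 202784) (.g (nat_lit 2351) (.e (nat_lit 73755) (nat_lit 8) (.e (nat_lit 557065) (nat_lit 9) (.e (nat_lit 334) (nat_lit 26) (.e (nat_lit 376862) (nat_lit 22) (.e (nat_lit 90165) (nat_lit 12) (.e (nat_lit 171776) (nat_lit 192) .nil)))))) (.g (nat_lit 5) .nil .nil)))) (.nd (nat_lit 5) 
(.lf (nat_lit 202768) (.g (nat_lit 1007) (.e (nat_lit 73754) (nat_lit 8) (.e (nat_lit 557118) (nat_lit 18) (.e (nat_lit 2807) (nat_lit 180) (.e (nat_lit 303127) (nat_lit 9) (.e (nat_lit 426558) (nat_lit 33) .nil))))) .nil)) 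
(.lf (nat_lit 202800) (.g (nat_lit 2231) (.e (nat_lit 73755) (nat_lit 8) (.e (nat_lit 557066) (nat_lit 9) (.e (nat_lit 232) (nat_lit 21) (.e (nat_lit 336177) (nat_lit 10) .nil)))) .nil)))) (.nd (nat_lit 4) (.nd (nat_lit 5) 
(.lf (nat_lit 202760) (.g (nat_lit 3252) (.e (nat_lit 73754) (nat_lit 8) (.e (nat_lit 557105) (nat_lit 14) (.e (nat_lit 180265) (nat_lit 21) (.e (nat_lit 663555) (nat_lit 0) (.e (nat_lit 1524) (nat_lit 108) (.e (nat_lit 335986) (nat_lit 1) (.e (nat_lit 57655) (nat_lit 152) (.e (nat_lit 1206) (nat_lit 89) .nil)))))))) (.g (nat_lit 6) .nil .nil))) 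
(.lf (nat_lit 202792) (.g (nat_lit 460) (.e (nat_lit 73755) (nat_lit 8) (.e (nat_lit 557065) (nat_lit 9) (.e (nat_lit 3098) (nat_lit 192) .nil))) .nil))) (.nd (nat_lit 5) 
(.lf (nat_lit 202776) (.g (nat_lit 2019) (.e (nat_lit 73755) (nat_lit 8) (.e (nat_lit 557065) (nat_lit 9) (.e (nat_lit 309) (nat_lit 23) (.e (nat_lit 352312) (nat_lit 22) (.e (nat_lit 90165) (nat_lit 12) (.e (nat_lit 171776) (nat_lit 192) .nil)))))) (.g (nat_lit 5) .nil .nil))) 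
(.lf (nat_lit 202808) (.g (nat_lit 1715) (.e (nat_lit 73755) (nat_lit 8) (.e (nat_lit 557066) (nat_lit 9) (.e (nat_lit 310) (nat_lit 23) (.e (nat_lit 352315) (nat_lit 23) (.e (nat_lit 98320) (nat_lit 17) .nil))))) .nil))))) (.nd (nat_lit 3) (.nd (nat_lit 4) (.nd (nat_lit 5) 
(.lf (nat_lit 202756) (.g (nat_lit 767) (.e (nat_lit 73754) (nat_lit 8) (.e (nat_lit 557105) (nat_lit 14) (.e (nat_lit 180262) (nat_lit 21) .nil))) .nil)) 
(.lf (nat_lit 202788) (.g (nat_lit 1890) (.e (nat_lit 73755) (nat_lit 8) (.e (nat_lit 557065) (nat_lit 9) (.e (nat_lit 334) (nat_lit 26) (.e (nat_lit 376865) (nat_lit 22) (.e (nat_lit 90133) (nat_lit 9) .nil))))) .nil))) (.nd (nat_lit 5) 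
(.lf (nat_lit 202772) (.g (nat_lit 2125) (.e (nat_lit 73754) (nat_lit 8) (.e (nat_lit 557119) (nat_lit 18) (.e (nat_lit 2798) (nat_lit 180) (.e (nat_lit 303127) (nat_lit 9) (.e (nat_lit 426558) (nat_lit 33) .nil))))) .nil)) 
(.lf (nat_lit 202804) (.g (nat_lit 1751) (.e (nat_lit 73755) (nat_lit 8) (.e (nat_lit 557066) (nat_lit 9) (.e (nat_lit 309) (nat_lit 23) (.e (nat_lit 352315) (nat_lit 23) (.e (nat_lit 98320) (nat_lit 17) .nil))))) .nil)))) (.nd (nat_lit 4) (.nd (nat_lit 5) 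
(.lf (nat_lit 202764) (.g (nat_lit 3955) (.e (nat_lit 73754) (nat_lit 8) (.e (nat_lit 557105) (nat_lit 14) (.e (nat_lit 180265) (nat_lit 21) (.e (nat_lit 663568) (nat_lit 5) (.e (nat_lit 73729) (nat_lit 0) (.e (nat_lit 7125) (nat_lit 382) (.e (nat_lit 1214) (nat_lit 89) .nil))))))) (.g (nat_lit 6) .nil .nil))) 
(.lf (nat_lit 202796) (.g (nat_lit 3185) (.e (nat_lit 73755) (nat_lit 8) (.e (nat_lit 557065) (nat_lit 9) (.e (nat_lit 3098) (nat_lit 192) (.e (nat_lit 491571) (nat_lit 13) (.e (nat_lit 393252) (nat_lit 18) (.e (nat_lit 164161) (nat_lit 152) (.e (nat_lit 1208) (nat_lit 89) .nil))))))) (.g (nat_lit 4) .nil .nil)))) (.nd (nat_lit 5) 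
(.lf (nat_lit 202780) (.g (nat_lit 1360) (.e (nat_lit 73755) (nat_lit 8) (.e (nat_lit 557065) (nat_lit 9) (.e (nat_lit 315) (nat_lit 23) (.e (nat_lit 352315) (nat_lit 23) (.e (nat_lit 98319) (nat_lit 17) .nil))))) .nil)) 
(.lf (nat_lit 202812) (.g (nat_lit 1953) (.e (nat_lit 73755) (nat_lit 8) (.e (nat_lit 557066) (nat_lit 9) (.e (nat_lit 314) (nat_lit 23) (.e (nat_lit 352313) (nat_lit 23) (.e (nat_lit 98321) (nat_lit 17) (.e (nat_lit 7936) (nat_lit 407) .nil)))))) (.g (nat_lit 4) .nil .nil))))))) (.nd (nat_lit 2) (.nd (nat_lit 3) (.nd (nat_lit 4) (.nd (nat_lit 5) 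
(.lf (nat_lit 202754) (.g (nat_lit 1319) (.e (nat_lit 73754) (nat_lit 8) (.e (nat_lit 557105) (nat_lit 14) (.e (nat_lit 180261) (nat_lit 20) (.e (nat_lit 655379) (nat_lit 5) .nil)))) .nil)) 
(.lf (nat_lit 202786) (.g (nat_lit 2119) (.e (nat_lit 73755) (nat_lit 8) (.e (nat_lit 557065) (nat_lit 9) (.e (nat_lit 334) (nat_lit 26) (.e (nat_lit 376864) (nat_lit 22) (.e (nat_lit 90133) (nat_lit 9) (.e (nat_lit 2397) (nat_lit 157) (.e (nat_lit 7590) (nat_lit 407) .nil))))))) (.g (nat_lit 4) .nil .nil)))) (.nd (nat_lit 5) 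
(.lf (nat_lit 202770) (.g (nat_lit 1053) (.e (nat_lit 73754) (nat_lit 8) (.e (nat_lit 557119) (nat_lit 18) (.e (nat_lit 2797) (nat_lit 180) (.e (nat_lit 303145) (nat_lit 13) .nil)))) .nil)) 
(.lf (nat_lit 202802) (.g (nat_lit 2251) (.e (nat_lit 73755) (nat_lit 8) (.e (nat_lit 557066) (nat_lit 9) (.e (nat_lit 309) (nat_lit 23) (.e (nat_lit 352312) (nat_lit 22) (.e (nat_lit 90165) (nat_lit 12) (.e (nat_lit 171776) (nat_lit 192) .nil)))))) (.g (nat_lit 5) .nil .nil))))) (.nd (nat_lit 4) (.nd (nat_lit 5) 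
(.lf (nat_lit 202762) (.g (nat_lit 1301) (.e (nat_lit 73754) (nat_lit 8) (.e (nat_lit 557105) (nat_lit 14) (.e (nat_lit 180265) (nat_lit 21) (.e (nat_lit 663566) (nat_lit 4) .nil)))) .nil)) 
(.lf (nat_lit 202794) (.g (nat_lit 3020) (.e (nat_lit 73755) (nat_lit 8) (.e (nat_lit 557065) (nat_lit 9) (.e (nat_lit 3098) (nat_lit 192) (.e (nat_lit 491571) (nat_lit 13) (.e (nat_lit 393251) (nat_lit 18) (.e (nat_lit 164163) (nat_lit 152) (.e (nat_lit 1211) (nat_lit 89) .nil))))))) (.g (nat_lit 4) .nil .nil)))) (.nd (nat_lit 5) 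
(.lf (nat_lit 202778) (.g (nat_lit 2227) (.e (nat_lit 73755) (nat_lit 8) (.e (nat_lit 557065) (nat_lit 9) (.e (nat_lit 309) (nat_lit 23) (.e (nat_lit 352315) (nat_lit 23) (.e (nat_lit 98325) (nat_lit 17) (.e (nat_lit 7936) (nat_lit 407) .nil)))))) (.g (nat_lit 5) .nil .nil))) 
(.lf (nat_lit 202810) (.g (nat_lit 2048) (.e (nat_lit 73755) (nat_lit 8) (.e (nat_lit 557066) (nat_lit 9) (.e (nat_lit 314) (nat_lit 23) (.e (nat_lit 352310) (nat_lit 22) (.e (nat_lit 90165) (nat_lit 12) (.e (nat_lit 171776) (nat_lit 192) .nil)))))) (.g (nat_lit 5) .nil .nil)))))) (.nd (nat_lit 3) (.nd (nat_lit 4) (.nd (nat_lit 5) 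
(.lf (nat_lit 202758) (.g (nat_lit 1166) (.e (nat_lit 73754) (nat_lit 8) (.e (nat_lit 557105) (nat_lit 14) (.e (nat_lit 180265) (nat_lit 21) (.e (nat_lit 663552) (nat_lit 0) .nil)))) .nil)) 
(.lf (nat_lit 202790) (.g (nat_lit 2626) (.e (nat_lit 73755) (nat_lit 8) (.e (nat_lit 557065) (nat_lit 9) (.e (nat_lit 334) (nat_lit 26) (.e (nat_lit 376865) (nat_lit 22) (.e (nat_lit 90181) (nat_lit 16) (.e (nat_lit 237312) (nat_lit 192) .nil)))))) (.g (nat_lit 5) .nil .nil)))) (.nd (nat_lit 5) 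
(.lf (nat_lit 202774) (.g (nat_lit 1835) (.e (nat_lit 73755) (nat_lit 8) (.e (nat_lit 557065) (nat_lit 9) (.e (nat_lit 309) (nat_lit 23) (.e (nat_lit 352312) (nat_lit 22) (.e (nat_lit 90133) (nat_lit 9) (.e (nat_lit 2397) (nat_lit 157) (.e (nat_lit 7590) (nat_lit 407) .nil))))))) (.g (nat_lit 4) .nil .nil))) 
(.lf (nat_lit 202806) (.g (nat_lit 1882) (.e (nat_lit 73755) (nat_lit 8) (.e (nat_lit 557066) (nat_lit 9) (.e (nat_lit 310) (nat_lit 23) (.e (nat_lit 352312) (nat_lit 22) (.e (nat_lit 90165) (nat_lit 12) (.e (nat_lit 171776) (nat_lit 192) .nil)))))) (.g (nat_lit 4) .nil .nil))))) (.nd (nat_lit 4) (.nd (nat_lit 5) 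
(.lf (nat_lit 202766) (.g (nat_lit 1256) (.e (nat_lit 73754) (nat_lit 8) (.e (nat_lit 557105) (nat_lit 14) (.e (nat_lit 180265) (nat_lit 21) (.e (nat_lit 663571) (nat_lit 8) .nil)))) .nil)) 
(.lf (nat_lit 202798) (.g (nat_lit 3869) (.e (nat_lit 73755) (nat_lit 8) (.e (nat_lit 557066) (nat_lit 9) (.e (nat_lit 232) (nat_lit 21) (.e (nat_lit 336101) (nat_lit 9) (.e (nat_lit 336013) (nat_lit 2) (.e (nat_lit 90165) (nat_lit 12) (.e (nat_lit 171776) (nat_lit 192) .nil))))))) (.g (nat_lit 5) .nil .nil)))) (.nd (nat_lit 5) 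
(.lf (nat_lit 202782) (.g (nat_lit 399) (.e (nat_lit 73755) (nat_lit 8) (.e (nat_lit 557065) (nat_lit 9) (.e (nat_lit 334) (nat_lit 26) .nil))) .nil)) 
(.lf (nat_lit 202814) (.g (nat_lit 2327) (.e (nat_lit 73755) (nat_lit 8) (.e (nat_lit 557066) (nat_lit 9) (.e (nat_lit 314) (nat_lit 23) (.e (nat_lit 352313) (nat_lit 23) (.e (nat_lit 98325) (nat_lit 17) (.e (nat_lit 7936) (nat_lit 407) .nil)))))) (.g (nat_lit 5) .nil .nil)))))))) (.nd (nat_lit 1) (.nd (nat_lit 2) (.nd (nat_lit 3) (.nd (nat_lit 4) (.nd (nat_lit 5) 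
(.lf (nat_lit 202753) (.g (nat_lit 2985) (.e (nat_lit 73754) (nat_lit 8) (.e (nat_lit 557105) (nat_lit 14) (.e (nat_lit 180261) (nat_lit 20) (.e (nat_lit 655378) (nat_lit 4) (.e (nat_lit 172061) (nat_lit 1) (.e (nat_lit 164163) (nat_lit 152) (.e (nat_lit 1211) (nat_lit 89) .nil))))))) (.g (nat_lit 4) .nil .nil))) 
(.lf (nat_lit 202785) (.g (nat_lit 2373) (.e (nat_lit 73755) (nat_lit 8) (.e (nat_lit 557065) (nat_lit 9) (.e (nat_lit 334) (nat_lit 26) (.e (nat_lit 376862) (nat_lit 22) (.e (nat_lit 90181) (nat_lit 16) (.e (nat_lit 237312) (nat_lit 192) .nil)))))) (.g (nat_lit 5) .nil .nil)))) (.nd (nat_lit 5) 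
(.lf (nat_lit 202769) (.g (nat_lit 2320) (.e (nat_lit 73754) (nat_lit 8) (.e (nat_lit 557119) (nat_lit 18) (.e (nat_lit 2797) (nat_lit 180) (.e (nat_lit 303127) (nat_lit 9) (.e (nat_lit 426558) (nat_lit 33) (.e (nat_lit 392960) (nat_lit 5) .nil)))))) (.g (nat_lit 4) .nil .nil))) 
(.lf (nat_lit 202801) (.g (nat_lit 2135) (.e (nat_lit 73755) (nat_lit 8) (.e (nat_lit 557066) (nat_lit 9) (.e (nat_lit 309) (nat_lit 23) (.e (nat_lit 352312) (nat_lit 22) (.e (nat_lit 90133) (nat_lit 9) (.e (nat_lit 2400) (nat_lit 157) (.e (nat_lit 7590) (nat_lit 407) .nil))))))) (.g (nat_lit 4) .nil .nil))))) (.nd (nat_lit 4) (.nd (nat_lit 5) 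
(.lf (nat_lit 202761) (.g (nat_lit 3302) (.e (nat_lit 73754) (nat_lit 8) (.e (nat_lit 557105) (nat_lit 14) (.e (nat_lit 180265) (nat_lit 21) (.e (nat_lit 663555) (nat_lit 0) (.e (nat_lit 1524) (nat_lit 108) (.e (nat_lit 335988) (nat_lit 1) (.e (nat_lit 57665) (nat_lit 152) (.e (nat_lit 7936) (nat_lit 89) .nil)))))))) (.g (nat_lit 6) .nil .nil))) 
(.lf (nat_lit 202793) (.g (nat_lit 2852) (.e (nat_lit 73755) (nat_lit 8) (.e (nat_lit 557065) (nat_lit 9) (.e (nat_lit 3098) (nat_lit 192) (.e (nat_lit 491571) (nat_lit 13) (.e (nat_lit 393251) (nat_lit 18) (.e (nat_lit 164161) (nat_lit 152) (.e (nat_lit 1208) (nat_lit 89) .nil))))))) (.g (nat_lit 4) .nil .nil)))) (.nd (nat_lit 5) 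
(.lf (nat_lit 202777) (.g (nat_lit 1586) (.e (nat_lit 73755) (nat_lit 8) (.e (nat_lit 557065) (nat_lit 9) (.e (nat_lit 309) (nat_lit 23) (.e (nat_lit 352315) (nat_lit 23) (.e (nat_lit 98319) (nat_lit 17) .nil))))) .nil)) 
(.lf (nat_lit 202809) (.g (nat_lit 2507) (.e (nat_lit 73755) (nat_lit 8) (.e (nat_lit 557066) (nat_lit 9) (.e (nat_lit 310) (nat_lit 23) (.e (nat_lit 352315) (nat_lit 23) (.e (nat_lit 98325) (nat_lit 17) (.e (nat_lit 7936) (nat_lit 407) .nil)))))) (.g (nat_lit 5) .nil .nil)))))) (.nd (nat_lit 3) (.nd (nat_lit 4) (.nd (nat_lit 5) 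
(.lf (nat_lit 202757) (.g (nat_lit 431) (.e (nat_lit 73754) (nat_lit 8) (.e (nat_lit 557105) (nat_lit 14) (.e (nat_lit 180264) (nat_lit 21) .nil))) .nil)) 
(.lf (nat_lit 202789) (.g (nat_lit 2202) (.e (nat_lit 73755) (nat_lit 8) (.e (nat_lit 557065) (nat_lit 9) (.e (nat_lit 334) (nat_lit 26) (.e (nat_lit 376865) (nat_lit 22) (.e (nat_lit 90165) (nat_lit 12) (.e (nat_lit 171776) (nat_lit 192) .nil)))))) (.g (nat_lit 4) .nil .nil)))) (.nd (nat_lit 5) 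
(.lf (nat_lit 202773) (.g (nat_lit 1046) (.e (nat_lit 73755) (nat_lit 8) (.e (nat_lit 557065) (nat_lit 9) (.e (nat_lit 265) (nat_lit 21) (.e (nat_lit 336178) (nat_lit 10) (.e (nat_lit 344117) (nat_lit 21) .nil))))) .nil)) 
(.lf (nat_lit 202805) (.g (nat_lit 2459) (.e (nat_lit 73755) (nat_lit 8) (.e (nat_lit 557066) (nat_lit 9) (.e (nat_lit 309) (nat_lit 23) (.e (nat_lit 352315) (nat_lit 23) (.e (nat_lit 98325) (nat_lit 17) (.e (nat_lit 7936) (nat_lit 407) .nil)))))) (.g (nat_lit 5) .nil .nil))))) (.nd (nat_lit 4) (.nd (nat_lit 5) 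
(.lf (nat_lit 202765) (.g (nat_lit 2199) (.e (nat_lit 73754) (nat_lit 8) (.e (nat_lit 557105) (nat_lit 14) (.e (nat_lit 180265) (nat_lit 21) (.e (nat_lit 663568) (nat_lit 5) (.e (nat_lit 73773) (nat_lit 25) (.e (nat_lit 770073) (nat_lit 9) .nil)))))) (.g (nat_lit 4) .nil .nil))) 
(.lf (nat_lit 202797) (.g (nat_lit 508) (.e (nat_lit 73755) (nat_lit 8) (.e (nat_lit 557066) (nat_lit 9) (.e (nat_lit 232) (nat_lit 21) .nil))) .nil))) (.nd (nat_lit 5) 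
(.lf (nat_lit 202781) (.g (nat_lit 481) (.e (nat_lit 73755) (nat_lit 8) (.e (nat_lit 557065) (nat_lit 9) (.e (nat_lit 321) (nat_lit 24) .nil))) .nil)) 
(.lf (nat_lit 202813) (.g (nat_lit 2081) (.e (nat_lit 73755) (nat_lit 8) (.e (nat_lit 557066) (nat_lit 9) (.e (nat_lit 314) (nat_lit 23) (.e (nat_lit 352313) (nat_lit 23) (.e (nat_lit 98323) (nat_lit 17) (.e (nat_lit 7936) (nat_lit 407) .nil)))))) (.g (nat_lit 5) .nil .nil))))))) (.nd (nat_lit 2) (.nd (nat_lit 3) (.nd (nat_lit 4) (.nd (nat_lit 5) 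
(.lf (nat_lit 202755) (.g (nat_lit 1667) (.e (nat_lit 73754) (nat_lit 8) (.e (nat_lit 557105) (nat_lit 14) (.e (nat_lit 180261) (nat_lit 20) (.e (nat_lit 655379) (nat_lit 5) (.e (nat_lit 180228) (nat_lit 0) .nil))))) .nil)) 
(.lf (nat_lit 202787) (.g (nat_lit 2012) (.e (nat_lit 73755) (nat_lit 8) (.e (nat_lit 557065) (nat_lit 9) (.e (nat_lit 334) (nat_lit 26) (.e (nat_lit 376864) (nat_lit 22) (.e (nat_lit 90165) (nat_lit 12) (.e (nat_lit 171776) (nat_lit 192) .nil)))))) (.g (nat_lit 4) .nil .nil)))) (.nd (nat_lit 5) 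
(.lf (nat_lit 202771) (.g (nat_lit 1992) (.e (nat_lit 73754) (nat_lit 8) (.e (nat_lit 557119) (nat_lit 18) (.e (nat_lit 2797) (nat_lit 180) (.e (nat_lit 303145) (nat_lit 13) (.e (nat_lit 483333) (nat_lit 0) .nil))))) .nil)) 
(.lf (nat_lit 202803) (.g (nat_lit 1752) (.e (nat_lit 73755) (nat_lit 8) (.e (nat_lit 557066) (nat_lit 9) (.e (nat_lit 309) (nat_lit 23) (.e (nat_lit 352315) (nat_lit 23) (.e (nat_lit 98319) (nat_lit 17) .nil))))) .nil)))) (.nd (nat_lit 4) (.nd (nat_lit 5) 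
(.lf (nat_lit 202763) (.g (nat_lit 1301) (.e (nat_lit 73754) (nat_lit 8) (.e (nat_lit 557105) (nat_lit 14) (.e (nat_lit 180265) (nat_lit 21) (.e (nat_lit 663568) (nat_lit 5) .nil)))) .nil)) 
(.lf (nat_lit 202795) (.g (nat_lit 2770) (.e (nat_lit 73755) (nat_lit 8) (.e (nat_lit 557065) (nat_lit 9) (.e (nat_lit 3098) (nat_lit 192) (.e (nat_lit 491571) (nat_lit 13) (.e (nat_lit 393252) (nat_lit 18) (.e (nat_lit 164147) (nat_lit 152) (.e (nat_lit 1211) (nat_lit 89) .nil))))))) (.g (nat_lit 4) .nil .nil)))) (.nd (nat_lit 5) 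
(.lf (nat_lit 202779) (.g (nat_lit 1765) (.e (nat_lit 73755) (nat_lit 8) (.e (nat_lit 557065) (nat_lit 9) (.e (nat_lit 310) (nat_lit 23) (.e (nat_lit 352315) (nat_lit 23) (.e (nat_lit 98325) (nat_lit 17) (.e (nat_lit 7936) (nat_lit 407) .nil)))))) (.g (nat_lit 4) .nil .nil))) 
(.lf (nat_lit 202811) (.g (nat_lit 2458) (.e (nat_lit 73755) (nat_lit 8) (.e (nat_lit 557066) (nat_lit 9) (.e (nat_lit 314) (nat_lit 23) (.e (nat_lit 352312) (nat_lit 22) (.e (nat_lit 90165) (nat_lit 12) (.e (nat_lit 171776) (nat_lit 192) .nil)))))) (.g (nat_lit 5) .nil .nil)))))) (.nd (nat_lit 3) (.nd (nat_lit 4) (.nd (nat_lit 5) 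
(.lf (nat_lit 202759) (.g (nat_lit 1325) (.e (nat_lit 73754) (nat_lit 8) (.e (nat_lit 557105) (nat_lit 14) (.e (nat_lit 180265) (nat_lit 21) (.e (nat_lit 663555) (nat_lit 0) .nil)))) .nil)) 
(.lf (nat_lit 202791) (.g (nat_lit 478) (.e (nat_lit 73755) (nat_lit 8) (.e (nat_lit 557065) (nat_lit 9) (.e (nat_lit 336) (nat_lit 26) .nil))) .nil))) (.nd (nat_lit 5) 
(.lf (nat_lit 202775) (.g (nat_lit 1789) (.e (nat_lit 73755) (nat_lit 8) (.e (nat_lit 557065) (nat_lit 9) (.e (nat_lit 309) (nat_lit 23) (.e (nat_lit 352312) (nat_lit 22) (.e (nat_lit 90133) (nat_lit 9) (.e (nat_lit 2400) (nat_lit 157) (.e (nat_lit 7590) (nat_lit 407) .nil))))))) (.g (nat_lit 4) .nil .nil))) 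
(.lf (nat_lit 202807) (.g (nat_lit 1713) (.e (nat_lit 73755) (nat_lit 8) (.e (nat_lit 557066) (nat_lit 9) (.e (nat_lit 310) (nat_lit 23) (.e (nat_lit 352315) (nat_lit 23) (.e (nat_lit 98319) (nat_lit 17) .nil))))) .nil)))) (.nd (nat_lit 4) (.nd (nat_lit 5) 
(.lf (nat_lit 202767) (.g (nat_lit 2103) (.e (nat_lit 73754) (nat_lit 8) (.e (nat_lit 557105) (nat_lit 14) (.e (nat_lit 180266) (nat_lit 22) (.e (nat_lit 671762) (nat_lit 4) (.e (nat_lit 65565) (nat_lit 1) (.e (nat_lit 57654) (nat_lit 152) (.e (nat_lit 1207) (nat_lit 89) .nil))))))) (.g (nat_lit 4) .nil .nil))) 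
(.lf (nat_lit 202799) (.g (nat_lit 2161) (.e (nat_lit 73755) (nat_lit 8) (.e (nat_lit 557066) (nat_lit 9) (.e (nat_lit 232) (nat_lit 21) (.e (nat_lit 336175) (nat_lit 10) .nil)))) .nil))) (.nd (nat_lit 5) 
(.lf (nat_lit 202783) (.g (nat_lit 1941) (.e (nat_lit 73755) (nat_lit 8) (.e (nat_lit 557065) (nat_lit 9) (.e (nat_lit 334) (nat_lit 26) (.e (nat_lit 376862) (nat_lit 22) (.e (nat_lit 90133) (nat_lit 9) .nil))))) .nil)) 
(.lf (nat_lit 202815) (.g (nat_lit 2700) (.e (nat_lit 73755) (nat_lit 8) (.e (nat_lit 557066) (nat_lit 9) (.e (nat_lit 314) (nat_lit 23) (.e (nat_lit 352315) (nat_lit 23) (.e (nat_lit 98325) (nat_lit 17) (.e (nat_lit 7936) (nat_lit 407) .nil)))))) (.g (nat_lit 5) .nil .nil)))))))))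

noncomputable def tv2677 : DT := (.nd (nat_lit 0) (.nd (nat_lit 1) (.nd (nat_lit 2) (.nd (nat_lit 3) (.nd (nat_lit 4) (.nd (nat_lit 5) 
(.lf (nat_lit 202816) (.g (nat_lit 1972) (.e (nat_lit 73755) (nat_lit 8) (.e (nat_lit 557066) (nat_lit 9) (.e (nat_lit 321) (nat_lit 24) (.e (nat_lit 360460) (nat_lit 1) (.e (nat_lit 499910) (nat_lit 8) (.e (nat_lit 171776) (nat_lit 192) .nil)))))) (.g (nat_lit 5) .nil .nil))) 
(.lf (nat_lit 202848) (.g (nat_lit 1493) (.e (nat_lit 73755) (nat_lit 8) (.e (nat_lit 557067) (nat_lit 9) (.e (nat_lit 7936) (nat_lit 26) (.e (nat_lit 376865) (nat_lit 22) (.e (nat_lit 90165) (nat_lit 12) (.e (nat_lit 171776) (nat_lit 192) .nil)))))) (.g (nat_lit 4) .nil .nil)))) (.nd (nat_lit 5) 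
(.lf (nat_lit 202832) (.g (nat_lit 2245) (.e (nat_lit 73755) (nat_lit 8) (.e (nat_lit 557066) (nat_lit 9) (.e (nat_lit 334) (nat_lit 26) (.e (nat_lit 376862) (nat_lit 22) (.e (nat_lit 90181) (nat_lit 16) (.e (nat_lit 237312) (nat_lit 192) .nil)))))) (.g (nat_lit 5) .nil .nil))) 
(.lf (nat_lit 202864) (.g (nat_lit 1662) (.e (nat_lit 73755) (nat_lit 8) (.e (nat_lit 557070) (nat_lit 9) (.e (nat_lit 7936) (nat_lit 23) (.e (nat_lit 352312) (nat_lit 22) (.e (nat_lit 90133) (nat_lit 9) (.e (nat_lit 2400) (nat_lit 157) (.e (nat_lit 7590) (nat_lit 407) .nil))))))) (.g (nat_lit 4) .nil .nil))))) (.nd (nat_lit 4) (.nd (nat_lit 5) 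
(.lf (nat_lit 202824) (.g (nat_lit 1621) (.e (nat_lit 73755) (nat_lit 8) (.e (nat_lit 557066) (nat_lit 9) (.e (nat_lit 324) (nat_lit 24) (.e (nat_lit 360464) (nat_lit 2) (.e (nat_lit 507906) (nat_lit 0) (.e (nat_lit 7936) (nat_lit 303) .nil)))))) (.g (nat_lit 4) .nil .nil))) 
(.lf (nat_lit 202856) (.g (nat_lit 3130) (.e (nat_lit 73755) (nat_lit 8) (.e (nat_lit 557067) (nat_lit 9) (.e (nat_lit 3096) (nat_lit 192) (.e (nat_lit 491571) (nat_lit 13) (.e (nat_lit 393252) (nat_lit 18) (.e (nat_lit 164161) (nat_lit 152) (.e (nat_lit 1208) (nat_lit 89) .nil))))))) (.g (nat_lit 4) .nil .nil)))) (.nd (nat_lit 5) 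
(.lf (nat_lit 202840) (.g (nat_lit 1236) (.e (nat_lit 73755) (nat_lit 8) (.e (nat_lit 557066) (nat_lit 9) (.e (nat_lit 334) (nat_lit 26) (.e (nat_lit 376867) (nat_lit 23) (.e (nat_lit 98329) (nat_lit 17) .nil))))) .nil)) 
(.lf (nat_lit 202872) (.g (nat_lit 1558) (.e (nat_lit 73755) (nat_lit 8) (.e (nat_lit 557074) (nat_lit 9) (.e (nat_lit 7936) (nat_lit 26) (.e (nat_lit 376862) (nat_lit 22) (.e (nat_lit 90181) (nat_lit 16) (.e (nat_lit 237312) (nat_lit 192) .nil)))))) (.g (nat_lit 4) .nil .nil)))))) (.nd (nat_lit 3) (.nd (nat_lit 4) (.nd (nat_lit 5) 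
(.lf (nat_lit 202820) (.g (nat_lit 1759) (.e (nat_lit 73755) (nat_lit 8) (.e (nat_lit 557066) (nat_lit 9) (.e (nat_lit 321) (nat_lit 24) (.e (nat_lit 360467) (nat_lit 3) (.e (nat_lit 516102) (nat_lit 0) (.e (nat_lit 7936) (nat_lit 407) .nil)))))) (.g (nat_lit 4) .nil .nil))) 
(.lf (nat_lit 202852) (.g (nat_lit 3771) (.e (nat_lit 73755) (nat_lit 8) (.e (nat_lit 557067) (nat_lit 9) (.e (nat_lit 2828) (nat_lit 182) (.e (nat_lit 409649) (nat_lit 18) (.e (nat_lit 303151) (nat_lit 27) (.e (nat_lit 335995) (nat_lit 1) (.e (nat_lit 57655) (nat_lit 152) (.e (nat_lit 1206) (nat_lit 89) .nil)))))))) (.g (nat_lit 4) .nil .nil)))) (.nd (nat_lit 5) 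
(.lf (nat_lit 202836) (.g (nat_lit 2564) (.e (nat_lit 73755) (nat_lit 8) (.e (nat_lit 557066) (nat_lit 9) (.e (nat_lit 334) (nat_lit 26) (.e (nat_lit 376865) (nat_lit 22) (.e (nat_lit 90181) (nat_lit 16) (.e (nat_lit 237312) (nat_lit 192) .nil)))))) (.g (nat_lit 5) .nil .nil))) 
(.lf (nat_lit 202868) (.g (nat_lit 1247) (.e (nat_lit 73755) (nat_lit 8) (.e (nat_lit 557074) (nat_lit 9) (.e (nat_lit 284) (nat_lit 21) (.e (nat_lit 336087) (nat_lit 9) .nil)))) .nil)))) (.nd (nat_lit 4) (.nd (nat_lit 5) 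
(.lf (nat_lit 202828) (.g (nat_lit 1980) (.e (nat_lit 73755) (nat_lit 8) (.e (nat_lit 557066) (nat_lit 9) (.e (nat_lit 324) (nat_lit 24) (.e (nat_lit 360466) (nat_lit 3) (.e (nat_lit 516105) (nat_lit 0) (.e (nat_lit 7936) (nat_lit 407) .nil)))))) (.g (nat_lit 5) .nil .nil))) 
(.lf (nat_lit 202860) (.g (nat_lit 1443) (.e (nat_lit 73755) (nat_lit 8) (.e (nat_lit 557070) (nat_lit 9) (.e (nat_lit 313) (nat_lit 23) (.e (nat_lit 352310) (nat_lit 22) (.e (nat_lit 90165) (nat_lit 12) (.e (nat_lit 171776) (nat_lit 192) .nil)))))) (.g (nat_lit 4) .nil .nil)))) (.nd (nat_lit 5) 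
(.lf (nat_lit 202844) (.g (nat_lit 1524) (.e (nat_lit 73755) (nat_lit 8) (.e (nat_lit 557066) (nat_lit 9) (.e (nat_lit 334) (nat_lit 26) (.e (nat_lit 376869) (nat_lit 23) (.e (nat_lit 98331) (nat_lit 17) (.e (nat_lit 7936) (nat_lit 407) .nil)))))) (.g (nat_lit 4) .nil .nil))) 
(.lf (nat_lit 202876) (.g (nat_lit 2619) (.e (nat_lit 73755) (nat_lit 8) (.e (nat_lit 557085) (nat_lit 11) (.e (nat_lit 24628) (nat_lit 9) (.e (nat_lit 336019) (nat_lit 3) (.e (nat_lit 98319) (nat_lit 17) (.e (nat_lit 7591) (nat_lit 407) .nil)))))) (.g (nat_lit 4) .nil .nil))))))) (.nd (nat_lit 2) (.nd (nat_lit 3) (.nd (nat_lit 4) (.nd (nat_lit 5) 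
(.lf (nat_lit 202818) (.g (nat_lit 3523) (.e (nat_lit 73755) (nat_lit 8) (.e (nat_lit 557066) (nat_lit 9) (.e (nat_lit 321) (nat_lit 24) (.e (nat_lit 360467) (nat_lit 3) (.e (nat_lit 516097) (nat_lit 0) (.e (nat_lit 7593) (nat_lit 407) .nil)))))) (.g (nat_lit 6) .nil .nil))) 
(.lf (nat_lit 202850) (.g (nat_lit 3912) (.e (nat_lit 73755) (nat_lit 8) (.e (nat_lit 557067) (nat_lit 9) (.e (nat_lit 2828) (nat_lit 182) (.e (nat_lit 409646) (nat_lit 18) (.e (nat_lit 303154) (nat_lit 28) (.e (nat_lit 344100) (nat_lit 18) (.e (nat_lit 7147) (nat_lit 382) (.e (nat_lit 1207) (nat_lit 89) .nil)))))))) (.g (nat_lit 4) .nil .nil)))) (.nd (nat_lit 5) 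
(.lf (nat_lit 202834) (.g (nat_lit 2031) (.e (nat_lit 73755) (nat_lit 8) (.e (nat_lit 557066) (nat_lit 9) (.e (nat_lit 334) (nat_lit 26) (.e (nat_lit 376864) (nat_lit 22) (.e (nat_lit 90165) (nat_lit 12) (.e (nat_lit 171776) (nat_lit 192) .nil)))))) (.g (nat_lit 5) .nil .nil))) 
(.lf (nat_lit 202866) (.g (nat_lit 1780) (.e (nat_lit 73755) (nat_lit 8) (.e (nat_lit 557070) (nat_lit 9) (.e (nat_lit 333) (nat_lit 26) (.e (nat_lit 376862) (nat_lit 22) (.e (nat_lit 90165) (nat_lit 12) (.e (nat_lit 171776) (nat_lit 192) .nil)))))) (.g (nat_lit 4) .nil .nil))))) (.nd (nat_lit 4) (.nd (nat_lit 5) 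
(.lf (nat_lit 202826) (.g (nat_lit 2053) (.e (nat_lit 73755) (nat_lit 8) (.e (nat_lit 557066) (nat_lit 9) (.e (nat_lit 324) (nat_lit 24) (.e (nat_lit 360466) (nat_lit 3) (.e (nat_lit 516100) (nat_lit 0) (.e (nat_lit 7936) (nat_lit 407) .nil)))))) (.g (nat_lit 5) .nil .nil))) 
(.lf (nat_lit 202858) (.g (nat_lit 1824) (.e (nat_lit 73755) (nat_lit 8) (.e (nat_lit 557068) (nat_lit 9) (.e (nat_lit 2828) (nat_lit 182) (.e (nat_lit 409649) (nat_lit 18) (.e (nat_lit 303151) (nat_lit 27) .nil))))) .nil))) (.nd (nat_lit 5) 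
(.lf (nat_lit 202842) (.g (nat_lit 1520) (.e (nat_lit 73755) (nat_lit 8) (.e (nat_lit 557066) (nat_lit 9) (.e (nat_lit 334) (nat_lit 26) (.e (nat_lit 376869) (nat_lit 23) (.e (nat_lit 98325) (nat_lit 17) (.e (nat_lit 7936) (nat_lit 407) .nil)))))) (.g (nat_lit 4) .nil .nil))) 
(.lf (nat_lit 202874) (.g (nat_lit 2525) (.e (nat_lit 73755) (nat_lit 8) (.e (nat_lit 557085) (nat_lit 11) (.e (nat_lit 24623) (nat_lit 9) (.e (nat_lit 336013) (nat_lit 2) (.e (nat_lit 90165) (nat_lit 12) (.e (nat_lit 171776) (nat_lit 192) .nil)))))) (.g (nat_lit 4) .nil .nil)))))) (.nd (nat_lit 3) (.nd (nat_lit 4) (.nd (nat_lit 5) 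
(.lf (nat_lit 202822) (.g (nat_lit 1766) (.e (nat_lit 73755) (nat_lit 8) (.e (nat_lit 557066) (nat_lit 9) (.e (nat_lit 324) (nat_lit 24) (.e (nat_lit 360458) (nat_lit 1) (.e (nat_lit 499910) (nat_lit 8) (.e (nat_lit 171776) (nat_lit 192) .nil)))))) (.g (nat_lit 4) .nil .nil))) 
(.lf (nat_lit 202854) (.g (nat_lit 2866) (.e (nat_lit 73755) (nat_lit 8) (.e (nat_lit 557067) (nat_lit 9) (.e (nat_lit 3096) (nat_lit 192) (.e (nat_lit 491571) (nat_lit 13) (.e (nat_lit 393251) (nat_lit 18) (.e (nat_lit 164161) (nat_lit 152) (.e (nat_lit 1208) (nat_lit 89) .nil))))))) (.g (nat_lit 4) .nil .nil)))) (.nd (nat_lit 5) 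
(.lf (nat_lit 202838) (.g (nat_lit 1237) (.e (nat_lit 73755) (nat_lit 8) (.e (nat_lit 557066) (nat_lit 9) (.e (nat_lit 334) (nat_lit 26) (.e (nat_lit 376867) (nat_lit 23) (.e (nat_lit 98323) (nat_lit 17) .nil))))) .nil)) 
(.lf (nat_lit 202870) (.g (nat_lit 1640) (.e (nat_lit 73755) (nat_lit 8) (.e (nat_lit 557074) (nat_lit 9) (.e (nat_lit 7936) (nat_lit 23) (.e (nat_lit 352312) (nat_lit 22) (.e (nat_lit 90133) (nat_lit 9) (.e (nat_lit 2397) (nat_lit 157) (.e (nat_lit 7590) (nat_lit 407) .nil))))))) (.g (nat_lit 4) .nil .nil))))) (.nd (nat_lit 4) (.nd (nat_lit 5) 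
(.lf (nat_lit 202830) (.g (nat_lit 2972) (.e (nat_lit 73755) (nat_lit 8) (.e (nat_lit 557066) (nat_lit 9) (.e (nat_lit 324) (nat_lit 24) (.e (nat_lit 360473) (nat_lit 8) (.e (nat_lit 557090) (nat_lit 12) .nil))))) .nil)) 
(.lf (nat_lit 202862) (.g (nat_lit 1756) (.e (nat_lit 73755) (nat_lit 8) (.e (nat_lit 557070) (nat_lit 9) (.e (nat_lit 313) (nat_lit 23) (.e (nat_lit 352312) (nat_lit 22) (.e (nat_lit 90165) (nat_lit 12) (.e (nat_lit 171776) (nat_lit 192) .nil)))))) (.g (nat_lit 4) .nil .nil)))) (.nd (nat_lit 5) 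
(.lf (nat_lit 202846) (.g (nat_lit 1497) (.e (nat_lit 73755) (nat_lit 8) (.e (nat_lit 557067) (nat_lit 9) (.e (nat_lit 7936) (nat_lit 26) (.e (nat_lit 376862) (nat_lit 22) (.e (nat_lit 90165) (nat_lit 12) (.e (nat_lit 171776) (nat_lit 192) .nil)))))) (.g (nat_lit 4) .nil .nil))) 
(.lf (nat_lit 202878) (.g (nat_lit 2393) (.e (nat_lit 73755) (nat_lit 8) (.e (nat_lit 557085) (nat_lit 11) (.e (nat_lit 24632) (nat_lit 9) (.e (nat_lit 336013) (nat_lit 2) (.e (nat_lit 90165) (nat_lit 12) (.e (nat_lit 171776) (nat_lit 192) .nil)))))) (.g (nat_lit 4) .nil .nil)))))))) (.nd (nat_lit 1) (.nd (nat_lit 2) (.nd (nat_lit 3) (.nd (nat_lit 4) (.nd (nat_lit 5) 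
(.lf (nat_lit 202817) (.g (nat_lit 1855) (.e (nat_lit 73755) (nat_lit 8) (.e (nat_lit 557066) (nat_lit 9) (.e (nat_lit 321) (nat_lit 24) (.e (nat_lit 360464) (nat_lit 2) (.e (nat_lit 507906) (nat_lit 0) (.e (nat_lit 7936) (nat_lit 303) .nil)))))) (.g (nat_lit 5) .nil .nil))) 
(.lf (nat_lit 202849) (.g (nat_lit 3692) (.e (nat_lit 73755) (nat_lit 8) (.e (nat_lit 557067) (nat_lit 9) (.e (nat_lit 2828) (nat_lit 182) (.e (nat_lit 409646) (nat_lit 18) (.e (nat_lit 303154) (nat_lit 28) (.e (nat_lit 344100) (nat_lit 18) (.e (nat_lit 7147) (nat_lit 382) (.e (nat_lit 1206) (nat_lit 89) .nil)))))))) (.g (nat_lit 4) .nil .nil)))) (.nd (nat_lit 5) 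
(.lf (nat_lit 202833) (.g (nat_lit 1776) (.e (nat_lit 73755) (nat_lit 8) (.e (nat_lit 557066) (nat_lit 9) (.e (nat_lit 334) (nat_lit 26) (.e (nat_lit 376864) (nat_lit 22) (.e (nat_lit 90133) (nat_lit 9) (.e (nat_lit 2400) (nat_lit 157) (.e (nat_lit 7592) (nat_lit 407) .nil))))))) (.g (nat_lit 4) .nil .nil))) 
(.lf (nat_lit 202865) (.g (nat_lit 1377) (.e (nat_lit 73755) (nat_lit 8) (.e (nat_lit 557070) (nat_lit 9) (.e (nat_lit 7936) (nat_lit 23) (.e (nat_lit 352312) (nat_lit 22) (.e (nat_lit 90165) (nat_lit 12) (.e (nat_lit 171776) (nat_lit 192) .nil)))))) (.g (nat_lit 4) .nil .nil))))) (.nd (nat_lit 4) (.nd (nat_lit 5) 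
(.lf (nat_lit 202825) (.g (nat_lit 1917) (.e (nat_lit 73755) (nat_lit 8) (.e (nat_lit 557066) (nat_lit 9) (.e (nat_lit 324) (nat_lit 24) (.e (nat_lit 360466) (nat_lit 3) (.e (nat_lit 516097) (nat_lit 0) (.e (nat_lit 7936) (nat_lit 407) .nil)))))) (.g (nat_lit 4) .nil .nil))) 
(.lf (nat_lit 202857) (.g (nat_lit 1856) (.e (nat_lit 73755) (nat_lit 8) (.e (nat_lit 557068) (nat_lit 9) (.e (nat_lit 2828) (nat_lit 182) (.e (nat_lit 409646) (nat_lit 18) (.e (nat_lit 303151) (nat_lit 27) .nil))))) .nil))) (.nd (nat_lit 5) 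
(.lf (nat_lit 202841) (.g (nat_lit 1692) (.e (nat_lit 73755) (nat_lit 8) (.e (nat_lit 557066) (nat_lit 9) (.e (nat_lit 334) (nat_lit 26) (.e (nat_lit 376867) (nat_lit 23) (.e (nat_lit 98331) (nat_lit 17) (.e (nat_lit 7936) (nat_lit 407) .nil)))))) (.g (nat_lit 5) .nil .nil))) 
(.lf (nat_lit 202873) (.g (nat_lit 1530) (.e (nat_lit 73755) (nat_lit 8) (.e (nat_lit 557074) (nat_lit 9) (.e (nat_lit 7936) (nat_lit 26) (.e (nat_lit 376865) (nat_lit 22) (.e (nat_lit 90165) (nat_lit 12) (.e (nat_lit 171776) (nat_lit 192) .nil)))))) (.g (nat_lit 4) .nil .nil)))))) (.nd (nat_lit 3) (.nd (nat_lit 4) (.nd (nat_lit 5) 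
(.lf (nat_lit 202821) (.g (nat_lit 2703) (.e (nat_lit 73755) (nat_lit 8) (.e (nat_lit 557066) (nat_lit 9) (.e (nat_lit 321) (nat_lit 24) (.e (nat_lit 360467) (nat_lit 3) (.e (nat_lit 516106) (nat_lit 0) (.e (nat_lit 7936) (nat_lit 407) .nil)))))) (.g (nat_lit 5) .nil .nil))) 
(.lf (nat_lit 202853) (.g (nat_lit 2993) (.e (nat_lit 73755) (nat_lit 8) (.e (nat_lit 557067) (nat_lit 9) (.e (nat_lit 2878) (nat_lit 184) (.e (nat_lit 426125) (nat_lit 2) (.e (nat_lit 196652) (nat_lit 11) (.e (nat_lit 16397) (nat_lit 0) (.e (nat_lit 3289) (nat_lit 201) (.e (nat_lit 565268) (nat_lit 5) .nil)))))))) (.g (nat_lit 4) .nil .nil)))) (.nd (nat_lit 5) 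
(.lf (nat_lit 202837) (.g (nat_lit 2625) (.e (nat_lit 73755) (nat_lit 8) (.e (nat_lit 557066) (nat_lit 9) (.e (nat_lit 334) (nat_lit 26) (.e (nat_lit 376867) (nat_lit 23) (.e (nat_lit 98320) (nat_lit 17) (.e (nat_lit 7593) (nat_lit 407) .nil)))))) (.g (nat_lit 0) .nil .nil))) 
(.lf (nat_lit 202869) (.g (nat_lit 1296) (.e (nat_lit 73755) (nat_lit 8) (.e (nat_lit 557074) (nat_lit 9) (.e (nat_lit 284) (nat_lit 21) (.e (nat_lit 336186) (nat_lit 11) .nil)))) .nil)))) (.nd (nat_lit 4) (.nd (nat_lit 5) 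
(.lf (nat_lit 202829) (.g (nat_lit 1669) (.e (nat_lit 73755) (nat_lit 8) (.e (nat_lit 557066) (nat_lit 9) (.e (nat_lit 324) (nat_lit 24) (.e (nat_lit 360466) (nat_lit 3) (.e (nat_lit 516106) (nat_lit 0) .nil))))) .nil)) 
(.lf (nat_lit 202861) (.g (nat_lit 1815) (.e (nat_lit 73755) (nat_lit 8) (.e (nat_lit 557070) (nat_lit 9) (.e (nat_lit 313) (nat_lit 23) (.e (nat_lit 352312) (nat_lit 22) (.e (nat_lit 90133) (nat_lit 9) (.e (nat_lit 2397) (nat_lit 157) (.e (nat_lit 7590) (nat_lit 407) .nil))))))) (.g (nat_lit 4) .nil .nil)))) (.nd (nat_lit 5) 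
(.lf (nat_lit 202845) (.g (nat_lit 808) (.e (nat_lit 73755) (nat_lit 8) (.e (nat_lit 557067) (nat_lit 9) (.e (nat_lit 20) (nat_lit 0) .nil))) .nil)) 
(.lf (nat_lit 202877) (.g (nat_lit 2712) (.e (nat_lit 73755) (nat_lit 8) (.e (nat_lit 557085) (nat_lit 11) (.e (nat_lit 24628) (nat_lit 9) (.e (nat_lit 336019) (nat_lit 3) (.e (nat_lit 98320) (nat_lit 17) (.e (nat_lit 7591) (nat_lit 407) .nil)))))) (.g (nat_lit 4) .nil .nil))))))) (.nd (nat_lit 2) (.nd (nat_lit 3) (.nd (nat_lit 4) (.nd (nat_lit 5) 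
(.lf (nat_lit 202819) (.g (nat_lit 2227) (.e (nat_lit 73755) (nat_lit 8) (.e (nat_lit 557066) (nat_lit 9) (.e (nat_lit 321) (nat_lit 24) (.e (nat_lit 360467) (nat_lit 3) (.e (nat_lit 516097) (nat_lit 0) (.e (nat_lit 7936) (nat_lit 407) .nil)))))) (.g (nat_lit 4) .nil .nil))) 
(.lf (nat_lit 202851) (.g (nat_lit 2528) (.e (nat_lit 73755) (nat_lit 8) (.e (nat_lit 557067) (nat_lit 9) (.e (nat_lit 2828) (nat_lit 182) (.e (nat_lit 409649) (nat_lit 18) (.e (nat_lit 303151) (nat_lit 27) .nil))))) .nil))) (.nd (nat_lit 5) 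
(.lf (nat_lit 202835) (.g (nat_lit 2150) (.e (nat_lit 73755) (nat_lit 8) (.e (nat_lit 557066) (nat_lit 9) (.e (nat_lit 334) (nat_lit 26) (.e (nat_lit 376865) (nat_lit 22) (.e (nat_lit 90165) (nat_lit 12) (.e (nat_lit 171776) (nat_lit 192) .nil)))))) (.g (nat_lit 5) .nil .nil))) 
(.lf (nat_lit 202867) (.g (nat_lit 1592) (.e (nat_lit 73755) (nat_lit 8) (.e (nat_lit 557070) (nat_lit 9) (.e (nat_lit 333) (nat_lit 26) (.e (nat_lit 376865) (nat_lit 22) (.e (nat_lit 90181) (nat_lit 16) (.e (nat_lit 237312) (nat_lit 192) .nil)))))) (.g (nat_lit 4) .nil .nil))))) (.nd (nat_lit 4) (.nd (nat_lit 5) 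
(.lf (nat_lit 202827) (.g (nat_lit 1996) (.e (nat_lit 73755) (nat_lit 8) (.e (nat_lit 557066) (nat_lit 9) (.e (nat_lit 324) (nat_lit 24) (.e (nat_lit 360466) (nat_lit 3) (.e (nat_lit 516104) (nat_lit 0) (.e (nat_lit 7936) (nat_lit 407) .nil)))))) (.g (nat_lit 5) .nil .nil))) 
(.lf (nat_lit 202859) (.g (nat_lit 2349) (.e (nat_lit 73755) (nat_lit 8) (.e (nat_lit 557068) (nat_lit 9) (.e (nat_lit 2830) (nat_lit 182) (.e (nat_lit 409649) (nat_lit 18) (.e (nat_lit 303151) (nat_lit 27) .nil))))) .nil))) (.nd (nat_lit 5) 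
(.lf (nat_lit 202843) (.g (nat_lit 1368) (.e (nat_lit 73755) (nat_lit 8) (.e (nat_lit 557066) (nat_lit 9) (.e (nat_lit 334) (nat_lit 26) (.e (nat_lit 376869) (nat_lit 23) (.e (nat_lit 98329) (nat_lit 17) (.e (nat_lit 7936) (nat_lit 407) .nil)))))) (.g (nat_lit 4) .nil .nil))) 
(.lf (nat_lit 202875) (.g (nat_lit 2321) (.e (nat_lit 73755) (nat_lit 8) (.e (nat_lit 557085) (nat_lit 11) (.e (nat_lit 24623) (nat_lit 9) (.e (nat_lit 336028) (nat_lit 3) (.e (nat_lit 98325) (nat_lit 17) (.e (nat_lit 7936) (nat_lit 407) .nil)))))) (.g (nat_lit 4) .nil .nil)))))) (.nd (nat_lit 3) (.nd (nat_lit 4) (.nd (nat_lit 5) 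
(.lf (nat_lit 202823) (.g (nat_lit 1874) (.e (nat_lit 73755) (nat_lit 8) (.e (nat_lit 557066) (nat_lit 9) (.e (nat_lit 324) (nat_lit 24) (.e (nat_lit 360459) (nat_lit 1) (.e (nat_lit 499910) (nat_lit 8) (.e (nat_lit 171776) (nat_lit 192) .nil)))))) (.g (nat_lit 4) .nil .nil))) 
(.lf (nat_lit 202855) (.g (nat_lit 3017) (.e (nat_lit 73755) (nat_lit 8) (.e (nat_lit 557067) (nat_lit 9) (.e (nat_lit 3096) (nat_lit 192) (.e (nat_lit 491571) (nat_lit 13) (.e (nat_lit 393251) (nat_lit 18) (.e (nat_lit 164163) (nat_lit 152) (.e (nat_lit 1211) (nat_lit 89) .nil))))))) (.g (nat_lit 4) .nil .nil)))) (.nd (nat_lit 5) 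
(.lf (nat_lit 202839) (.g (nat_lit 1544) (.e (nat_lit 73755) (nat_lit 8) (.e (nat_lit 557066) (nat_lit 9) (.e (nat_lit 334) (nat_lit 26) (.e (nat_lit 376867) (nat_lit 23) (.e (nat_lit 98325) (nat_lit 17) (.e (nat_lit 7936) (nat_lit 407) .nil)))))) (.g (nat_lit 4) .nil .nil))) 
(.lf (nat_lit 202871) (.g (nat_lit 1525) (.e (nat_lit 73755) (nat_lit 8) (.e (nat_lit 557074) (nat_lit 9) (.e (nat_lit 7936) (nat_lit 26) (.e (nat_lit 376862) (nat_lit 22) (.e (nat_lit 90165) (nat_lit 12) (.e (nat_lit 171776) (nat_lit 192) .nil)))))) (.g (nat_lit 4) .nil .nil))))) (.nd (nat_lit 4) (.nd (nat_lit 5) 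
(.lf (nat_lit 202831) (.g (nat_lit 2204) (.e (nat_lit 73755) (nat_lit 8) (.e (nat_lit 557066) (nat_lit 9) (.e (nat_lit 334) (nat_lit 26) (.e (nat_lit 376862) (nat_lit 22) (.e (nat_lit 90165) (nat_lit 12) (.e (nat_lit 171776) (nat_lit 192) .nil)))))) (.g (nat_lit 5) .nil .nil))) 
(.lf (nat_lit 202863) (.g (nat_lit 1464) (.e (nat_lit 73755) (nat_lit 8) (.e (nat_lit 557070) (nat_lit 9) (.e (nat_lit 313) (nat_lit 23) (.e (nat_lit 352313) (nat_lit 23) (.e (nat_lit 98325) (nat_lit 17) (.e (nat_lit 7936) (nat_lit 407) .nil)))))) (.g (nat_lit 4) .nil .nil)))) (.nd (nat_lit 5) 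
(.lf (nat_lit 202847) (.g (nat_lit 1530) (.e (nat_lit 73755) (nat_lit 8) (.e (nat_lit 557067) (nat_lit 9) (.e (nat_lit 7936) (nat_lit 26) (.e (nat_lit 376862) (nat_lit 22) (.e (nat_lit 90181) (nat_lit 16) (.e (nat_lit 237312) (nat_lit 192) .nil)))))) (.g (nat_lit 4) .nil .nil))) 
(.lf (nat_lit 202879) (.g (nat_lit 1760) (.e (nat_lit 73755) (nat_lit 8) (.e (nat_lit 557085) (nat_lit 11) (.e (nat_lit 24632) (nat_lit 9) (.e (nat_lit 336028) (nat_lit 3) (.e (nat_lit 98325) (nat_lit 17) .nil))))) .nil))))))))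

noncomputable def tv2678 : DT := (.nd (nat_lit 0) (.nd (nat_lit 1) (.nd (nat_lit 2) (.nd (nat_lit 3) (.nd (nat_lit 4) (.nd (nat_lit 5) 
(.lf (nat_lit 202880) (.g (nat_lit 1229) (.e (nat_lit 73755) (nat_lit 8) (.e (nat_lit 557085) (nat_lit 11) (.e (nat_lit 24638) (nat_lit 9) (.e (nat_lit 336004) (nat_lit 2) .nil)))) .nil)) 
(.lf (nat_lit 202912) (.g (nat_lit 1771) (.e (nat_lit 73755) (nat_lit 8) (.e (nat_lit 557087) (nat_lit 11) (.e (nat_lit 24625) (nat_lit 9) (.e (nat_lit 335969) (nat_lit 0) (.e (nat_lit 1788) (nat_lit 119) .nil))))) .nil))) (.nd (nat_lit 5) 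
(.lf (nat_lit 202896) (.g (nat_lit 1725) (.e (nat_lit 73755) (nat_lit 8) (.e (nat_lit 557087) (nat_lit 11) (.e (nat_lit 24580) (nat_lit 0) (.e (nat_lit 6513) (nat_lit 346) .nil)))) .nil)) 
(.lf (nat_lit 202928) (.g (nat_lit 3179) (.e (nat_lit 73755) (nat_lit 8) (.e (nat_lit 557087) (nat_lit 11) (.e (nat_lit 24634) (nat_lit 9) (.e (nat_lit 336013) (nat_lit 2) (.e (nat_lit 90165) (nat_lit 12) (.e (nat_lit 171776) (nat_lit 192) .nil)))))) (.g (nat_lit 5) .nil .nil))))) (.nd (nat_lit 4) (.nd (nat_lit 5) 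
(.lf (nat_lit 202888) (.g (nat_lit 2342) (.e (nat_lit 73755) (nat_lit 8) (.e (nat_lit 557086) (nat_lit 11) (.e (nat_lit 24632) (nat_lit 9) (.e (nat_lit 336028) (nat_lit 3) (.e (nat_lit 98325) (nat_lit 17) (.e (nat_lit 7936) (nat_lit 407) .nil)))))) (.g (nat_lit 5) .nil .nil))) 
(.lf (nat_lit 202920) (.g (nat_lit 2141) (.e (nat_lit 73755) (nat_lit 8) (.e (nat_lit 557087) (nat_lit 11) (.e (nat_lit 24631) (nat_lit 9) (.e (nat_lit 336020) (nat_lit 3) (.e (nat_lit 98323) (nat_lit 17) (.e (nat_lit 7936) (nat_lit 407) .nil)))))) (.g (nat_lit 5) .nil .nil)))) (.nd (nat_lit 5) 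
(.lf (nat_lit 202904) (.g (nat_lit 2390) (.e (nat_lit 73755) (nat_lit 8) (.e (nat_lit 557087) (nat_lit 11) (.e (nat_lit 24617) (nat_lit 7) (.e (nat_lit 319504) (nat_lit 10) (.e (nat_lit 584) (nat_lit 43) .nil))))) .nil)) 
(.lf (nat_lit 202936) (.g (nat_lit 2279) (.e (nat_lit 73755) (nat_lit 8) (.e (nat_lit 557087) (nat_lit 11) (.e (nat_lit 24638) (nat_lit 9) (.e (nat_lit 336003) (nat_lit 2) (.e (nat_lit 90181) (nat_lit 16) (.e (nat_lit 237312) (nat_lit 192) .nil)))))) (.g (nat_lit 5) .nil .nil)))))) (.nd (nat_lit 3) (.nd (nat_lit 4) (.nd (nat_lit 5) 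
(.lf (nat_lit 202884) (.g (nat_lit 2608) (.e (nat_lit 73755) (nat_lit 8) (.e (nat_lit 557086) (nat_lit 11) (.e (nat_lit 24623) (nat_lit 9) (.e (nat_lit 336028) (nat_lit 3) (.e (nat_lit 98325) (nat_lit 17) (.e (nat_lit 7936) (nat_lit 407) .nil)))))) (.g (nat_lit 5) .nil .nil))) 
(.lf (nat_lit 202916) (.g (nat_lit 1108) (.e (nat_lit 73755) (nat_lit 8) (.e (nat_lit 557087) (nat_lit 11) (.e (nat_lit 24625) (nat_lit 9) (.e (nat_lit 336326) (nat_lit 18) .nil)))) .nil))) (.nd (nat_lit 5) 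
(.lf (nat_lit 202900) (.g (nat_lit 2355) (.e (nat_lit 73755) (nat_lit 8) (.e (nat_lit 557087) (nat_lit 11) (.e (nat_lit 24617) (nat_lit 7) (.e (nat_lit 319490) (nat_lit 0) .nil)))) .nil)) 
(.lf (nat_lit 202932) (.g (nat_lit 1675) (.e (nat_lit 73755) (nat_lit 8) (.e (nat_lit 557087) (nat_lit 11) (.e (nat_lit 24637) (nat_lit 9) (.e (nat_lit 336011) (nat_lit 2) (.e (nat_lit 90165) (nat_lit 12) .nil))))) .nil)))) (.nd (nat_lit 4) (.nd (nat_lit 5) 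
(.lf (nat_lit 202892) (.g (nat_lit 158) (.e (nat_lit 73755) (nat_lit 8) (.e (nat_lit 557086) (nat_lit 11) (.e (nat_lit 24639) (nat_lit 10) .nil))) .nil)) 
(.lf (nat_lit 202924) (.g (nat_lit 2864) (.e (nat_lit 73755) (nat_lit 8) (.e (nat_lit 557087) (nat_lit 11) (.e (nat_lit 24632) (nat_lit 9) (.e (nat_lit 336028) (nat_lit 3) (.e (nat_lit 98325) (nat_lit 17) (.e (nat_lit 7936) (nat_lit 407) .nil)))))) (.g (nat_lit 5) .nil .nil)))) (.nd (nat_lit 5) 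
(.lf (nat_lit 202908) (.g (nat_lit 3228) (.e (nat_lit 73755) (nat_lit 8) (.e (nat_lit 557087) (nat_lit 11) (.e (nat_lit 24617) (nat_lit 7) (.e (nat_lit 319505) (nat_lit 10) (.e (nat_lit 7936) (nat_lit 45) (.e (nat_lit 532490) (nat_lit 0) (.e (nat_lit 7936) (nat_lit 348) .nil))))))) (.g (nat_lit 4) .nil .nil))) 
(.lf (nat_lit 202940) (.g (nat_lit 3282) (.e (nat_lit 73755) (nat_lit 8) (.e (nat_lit 557087) (nat_lit 11) (.e (nat_lit 24638) (nat_lit 9) (.e (nat_lit 336012) (nat_lit 2) (.e (nat_lit 90181) (nat_lit 16) (.e (nat_lit 237312) (nat_lit 192) .nil)))))) (.g (nat_lit 5) .nil .nil))))))) (.nd (nat_lit 2) (.nd (nat_lit 3) (.nd (nat_lit 4) (.nd (nat_lit 5) 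
(.lf (nat_lit 202882) (.g (nat_lit 2971) (.e (nat_lit 73755) (nat_lit 8) (.e (nat_lit 557085) (nat_lit 11) (.e (nat_lit 24640) (nat_lit 10) (.e (nat_lit 344117) (nat_lit 21) (.e (nat_lit 516098) (nat_lit 0) .nil))))) .nil)) 
(.lf (nat_lit 202914) (.g (nat_lit 1837) (.e (nat_lit 73755) (nat_lit 8) (.e (nat_lit 557087) (nat_lit 11) (.e (nat_lit 24625) (nat_lit 9) (.e (nat_lit 336019) (nat_lit 3) (.e (nat_lit 98321) (nat_lit 17) .nil))))) .nil))) (.nd (nat_lit 5) 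
(.lf (nat_lit 202898) (.g (nat_lit 2757) (.e (nat_lit 73755) (nat_lit 8) (.e (nat_lit 557087) (nat_lit 11) (.e (nat_lit 24584) (nat_lit 0) (.e (nat_lit 6477) (nat_lit 343) .nil)))) .nil)) 
(.lf (nat_lit 202930) (.g (nat_lit 1227) (.e (nat_lit 73755) (nat_lit 8) (.e (nat_lit 557087) (nat_lit 11) (.e (nat_lit 24635) (nat_lit 9) (.e (nat_lit 336028) (nat_lit 3) .nil)))) .nil)))) (.nd (nat_lit 4) (.nd (nat_lit 5) 
(.lf (nat_lit 202890) (.g (nat_lit 2000) (.e (nat_lit 73755) (nat_lit 8) (.e (nat_lit 557086) (nat_lit 11) (.e (nat_lit 24638) (nat_lit 9) (.e (nat_lit 336004) (nat_lit 2) (.e (nat_lit 90181) (nat_lit 16) (.e (nat_lit 237312) (nat_lit 192) .nil)))))) (.g (nat_lit 4) .nil .nil))) 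
(.lf (nat_lit 202922) (.g (nat_lit 1120) (.e (nat_lit 73755) (nat_lit 8) (.e (nat_lit 557087) (nat_lit 11) (.e (nat_lit 24631) (nat_lit 9) (.e (nat_lit 336023) (nat_lit 3) .nil)))) .nil))) (.nd (nat_lit 5) 
(.lf (nat_lit 202906) (.g (nat_lit 2889) (.e (nat_lit 73755) (nat_lit 8) (.e (nat_lit 557087) (nat_lit 11) (.e (nat_lit 24617) (nat_lit 7) (.e (nat_lit 319504) (nat_lit 10) (.e (nat_lit 7936) (nat_lit 45) (.e (nat_lit 532490) (nat_lit 0) (.e (nat_lit 7936) (nat_lit 348) .nil))))))) (.g (nat_lit 4) .nil .nil))) 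
(.lf (nat_lit 202938) (.g (nat_lit 1704) (.e (nat_lit 73755) (nat_lit 8) (.e (nat_lit 557087) (nat_lit 11) (.e (nat_lit 24638) (nat_lit 9) (.e (nat_lit 336010) (nat_lit 2) .nil)))) .nil))))) (.nd (nat_lit 3) (.nd (nat_lit 4) (.nd (nat_lit 5) 
(.lf (nat_lit 202886) (.g (nat_lit 1725) (.e (nat_lit 73755) (nat_lit 8) (.e (nat_lit 557086) (nat_lit 11) (.e (nat_lit 24628) (nat_lit 9) (.e (nat_lit 336016) (nat_lit 2) (.e (nat_lit 90133) (nat_lit 9) .nil))))) .nil)) 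
(.lf (nat_lit 202918) (.g (nat_lit 1960) (.e (nat_lit 73755) (nat_lit 8) (.e (nat_lit 557087) (nat_lit 11) (.e (nat_lit 24631) (nat_lit 9) (.e (nat_lit 336001) (nat_lit 2) (.e (nat_lit 90165) (nat_lit 12) (.e (nat_lit 171776) (nat_lit 192) .nil)))))) (.g (nat_lit 5) .nil .nil)))) (.nd (nat_lit 5) 
(.lf (nat_lit 202902) (.g (nat_lit 1653) (.e (nat_lit 73755) (nat_lit 8) (.e (nat_lit 557087) (nat_lit 11) (.e (nat_lit 24617) (nat_lit 7) (.e (nat_lit 319504) (nat_lit 10) .nil)))) .nil)) 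
(.lf (nat_lit 202934) (.g (nat_lit 419) (.e (nat_lit 73755) (nat_lit 8) (.e (nat_lit 557087) (nat_lit 11) (.e (nat_lit 24638) (nat_lit 9) .nil))) .nil)))) (.nd (nat_lit 4) (.nd (nat_lit 5) 
(.lf (nat_lit 202894) (.g (nat_lit 2612) (.e (nat_lit 73755) (nat_lit 8) (.e (nat_lit 557086) (nat_lit 11) (.e (nat_lit 24640) (nat_lit 10) (.e (nat_lit 344117) (nat_lit 21) (.e (nat_lit 516098) (nat_lit 0) .nil))))) .nil)) 
(.lf (nat_lit 202926) (.g (nat_lit 1910) (.e (nat_lit 73755) (nat_lit 8) (.e (nat_lit 557087) (nat_lit 11) (.e (nat_lit 24633) (nat_lit 9) (.e (nat_lit 336028) (nat_lit 3) (.e (nat_lit 98325) (nat_lit 17) .nil))))) .nil))) (.nd (nat_lit 5) 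
(.lf (nat_lit 202910) (.g (nat_lit 3300) (.e (nat_lit 73755) (nat_lit 8) (.e (nat_lit 557087) (nat_lit 11) (.e (nat_lit 24623) (nat_lit 9) (.e (nat_lit 336013) (nat_lit 2) (.e (nat_lit 90165) (nat_lit 12) (.e (nat_lit 171776) (nat_lit 192) .nil)))))) (.g (nat_lit 5) .nil .nil))) 
(.lf (nat_lit 202942) (.g (nat_lit 2122) (.e (nat_lit 73755) (nat_lit 8) (.e (nat_lit 557087) (nat_lit 11) (.e (nat_lit 24639) (nat_lit 10) (.e (nat_lit 344115) (nat_lit 20) (.e (nat_lit 507906) (nat_lit 0) (.e (nat_lit 7936) (nat_lit 303) .nil)))))) (.g (nat_lit 5) .nil .nil)))))))) (.nd (nat_lit 1) (.nd (nat_lit 2) (.nd (nat_lit 3) (.nd (nat_lit 4) (.nd (nat_lit 5) 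
(.lf (nat_lit 202881) (.g (nat_lit 3080) (.e (nat_lit 73755) (nat_lit 8) (.e (nat_lit 557085) (nat_lit 11) (.e (nat_lit 24640) (nat_lit 10) (.e (nat_lit 344117) (nat_lit 21) (.e (nat_lit 516097) (nat_lit 0) .nil))))) .nil)) 
(.lf (nat_lit 202913) (.g (nat_lit 1649) (.e (nat_lit 73755) (nat_lit 8) (.e (nat_lit 557087) (nat_lit 11) (.e (nat_lit 24625) (nat_lit 9) (.e (nat_lit 335973) (nat_lit 0) (.e (nat_lit 1788) (nat_lit 119) .nil))))) .nil))) (.nd (nat_lit 5) 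
(.lf (nat_lit 202897) (.g (nat_lit 1000) (.e (nat_lit 73755) (nat_lit 8) (.e (nat_lit 557087) (nat_lit 11) (.e (nat_lit 24584) (nat_lit 0) .nil))) .nil)) 
(.lf (nat_lit 202929) (.g (nat_lit 2667) (.e (nat_lit 73755) (nat_lit 8) (.e (nat_lit 557087) (nat_lit 11) (.e (nat_lit 24634) (nat_lit 9) (.e (nat_lit 336028) (nat_lit 3) (.e (nat_lit 98325) (nat_lit 17) (.e (nat_lit 7936) (nat_lit 407) .nil)))))) (.g (nat_lit 5) .nil .nil))))) (.nd (nat_lit 4) (.nd (nat_lit 5) 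
(.lf (nat_lit 202889) (.g (nat_lit 1729) (.e (nat_lit 73755) (nat_lit 8) (.e (nat_lit 557086) (nat_lit 11) (.e (nat_lit 24638) (nat_lit 9) (.e (nat_lit 336003) (nat_lit 2) (.e (nat_lit 90181) (nat_lit 16) (.e (nat_lit 237312) (nat_lit 192) .nil)))))) (.g (nat_lit 4) .nil .nil))) 
(.lf (nat_lit 202921) (.g (nat_lit 2086) (.e (nat_lit 73755) (nat_lit 8) (.e (nat_lit 557087) (nat_lit 11) (.e (nat_lit 24631) (nat_lit 9) (.e (nat_lit 336020) (nat_lit 3) (.e (nat_lit 98325) (nat_lit 17) (.e (nat_lit 7936) (nat_lit 407) .nil)))))) (.g (nat_lit 5) .nil .nil)))) (.nd (nat_lit 5) 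
(.lf (nat_lit 202905) (.g (nat_lit 4634) (.e (nat_lit 73755) (nat_lit 8) (.e (nat_lit 557087) (nat_lit 11) (.e (nat_lit 24617) (nat_lit 7) (.e (nat_lit 319504) (nat_lit 10) (.e (nat_lit 584) (nat_lit 43) (.e (nat_lit 516117) (nat_lit 1) (.e (nat_lit 164258) (nat_lit 215) (.e (nat_lit 1211) (nat_lit 89) .nil)))))))) (.g (nat_lit 6) .nil .nil))) 
(.lf (nat_lit 202937) (.g (nat_lit 2535) (.e (nat_lit 73755) (nat_lit 8) (.e (nat_lit 557087) (nat_lit 11) (.e (nat_lit 24638) (nat_lit 9) (.e (nat_lit 336004) (nat_lit 2) (.e (nat_lit 90181) (nat_lit 16) (.e (nat_lit 237312) (nat_lit 192) .nil)))))) (.g (nat_lit 5) .nil .nil)))))) (.nd (nat_lit 3) (.nd (nat_lit 4) (.nd (nat_lit 5) 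
(.lf (nat_lit 202885) (.g (nat_lit 2079) (.e (nat_lit 73755) (nat_lit 8) (.e (nat_lit 557086) (nat_lit 11) (.e (nat_lit 24627) (nat_lit 9) (.e (nat_lit 336019) (nat_lit 3) (.e (nat_lit 98319) (nat_lit 17) (.e (nat_lit 7591) (nat_lit 407) .nil)))))) (.g (nat_lit 4) .nil .nil))) 
(.lf (nat_lit 202917) (.g (nat_lit 2486) (.e (nat_lit 73755) (nat_lit 8) (.e (nat_lit 557087) (nat_lit 11) (.e (nat_lit 24628) (nat_lit 9) (.e (nat_lit 336019) (nat_lit 3) (.e (nat_lit 98321) (nat_lit 17) (.e (nat_lit 7936) (nat_lit 407) .nil)))))) (.g (nat_lit 4) .nil .nil)))) (.nd (nat_lit 5) 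
(.lf (nat_lit 202901) (.g (nat_lit 3373) (.e (nat_lit 73755) (nat_lit 8) (.e (nat_lit 557087) (nat_lit 11) (.e (nat_lit 24617) (nat_lit 7) (.e (nat_lit 319494) (nat_lit 0) .nil)))) .nil)) 
(.lf (nat_lit 202933) (.g (nat_lit 2584) (.e (nat_lit 73755) (nat_lit 8) (.e (nat_lit 557087) (nat_lit 11) (.e (nat_lit 24637) (nat_lit 9) (.e (nat_lit 336012) (nat_lit 2) (.e (nat_lit 90181) (nat_lit 16) (.e (nat_lit 237312) (nat_lit 192) .nil)))))) (.g (nat_lit 5) .nil .nil))))) (.nd (nat_lit 4) (.nd (nat_lit 5) 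
(.lf (nat_lit 202893) (.g (nat_lit 2717) (.e (nat_lit 73755) (nat_lit 8) (.e (nat_lit 557086) (nat_lit 11) (.e (nat_lit 24640) (nat_lit 10) (.e (nat_lit 344117) (nat_lit 21) (.e (nat_lit 516097) (nat_lit 0) .nil))))) .nil)) 
(.lf (nat_lit 202925) (.g (nat_lit 822) (.e (nat_lit 73755) (nat_lit 8) (.e (nat_lit 557087) (nat_lit 11) (.e (nat_lit 24633) (nat_lit 9) .nil))) .nil))) (.nd (nat_lit 5) 
(.lf (nat_lit 202909) (.g (nat_lit 2089) (.e (nat_lit 73755) (nat_lit 8) (.e (nat_lit 557087) (nat_lit 11) (.e (nat_lit 24617) (nat_lit 7) (.e (nat_lit 319519) (nat_lit 12) .nil)))) .nil)) 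
(.lf (nat_lit 202941) (.g (nat_lit 3313) (.e (nat_lit 73755) (nat_lit 8) (.e (nat_lit 557087) (nat_lit 11) (.e (nat_lit 24638) (nat_lit 9) (.e (nat_lit 336021) (nat_lit 3) (.e (nat_lit 98320) (nat_lit 17) (.e (nat_lit 7593) (nat_lit 407) .nil)))))) (.g (nat_lit 0) .nil .nil))))))) (.nd (nat_lit 2) (.nd (nat_lit 3) (.nd (nat_lit 4) (.nd (nat_lit 5) 
(.lf (nat_lit 202883) (.g (nat_lit 2825) (.e (nat_lit 73755) (nat_lit 8) (.e (nat_lit 557086) (nat_lit 11) (.e (nat_lit 24623) (nat_lit 9) (.e (nat_lit 336013) (nat_lit 2) (.e (nat_lit 90165) (nat_lit 12) (.e (nat_lit 171776) (nat_lit 192) .nil)))))) (.g (nat_lit 5) .nil .nil))) 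
(.lf (nat_lit 202915) (.g (nat_lit 895) (.e (nat_lit 73755) (nat_lit 8) (.e (nat_lit 557087) (nat_lit 11) (.e (nat_lit 24625) (nat_lit 9) (.e (nat_lit 343808) (nat_lit 3) .nil)))) .nil))) (.nd (nat_lit 5) 
(.lf (nat_lit 202899) (.g (nat_lit 3161) (.e (nat_lit 73755) (nat_lit 8) (.e (nat_lit 557087) (nat_lit 11) (.e (nat_lit 24584) (nat_lit 0) (.e (nat_lit 6490) (nat_lit 343) (.e (nat_lit 1235) (nat_lit 91) (.e (nat_lit 90165) (nat_lit 12) (.e (nat_lit 171776) (nat_lit 192) .nil))))))) (.g (nat_lit 5) .nil .nil))) 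
(.lf (nat_lit 202931) (.g (nat_lit 1827) (.e (nat_lit 73755) (nat_lit 8) (.e (nat_lit 557087) (nat_lit 11) (.e (nat_lit 24636) (nat_lit 9) (.e (nat_lit 336017) (nat_lit 3) (.e (nat_lit 98323) (nat_lit 17) (.e (nat_lit 7936) (nat_lit 407) .nil)))))) (.g (nat_lit 4) .nil .nil))))) (.nd (nat_lit 4) (.nd (nat_lit 5) 
(.lf (nat_lit 202891) (.g (nat_lit 2822) (.e (nat_lit 73755) (nat_lit 8) (.e (nat_lit 557086) (nat_lit 11) (.e (nat_lit 24638) (nat_lit 9) (.e (nat_lit 336012) (nat_lit 2) (.e (nat_lit 90181) (nat_lit 16) (.e (nat_lit 237312) (nat_lit 192) .nil)))))) (.g (nat_lit 5) .nil .nil))) 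
(.lf (nat_lit 202923) (.g (nat_lit 3638) (.e (nat_lit 73755) (nat_lit 8) (.e (nat_lit 557087) (nat_lit 11) (.e (nat_lit 24632) (nat_lit 9) (.e (nat_lit 336013) (nat_lit 2) (.e (nat_lit 90165) (nat_lit 12) (.e (nat_lit 171776) (nat_lit 192) .nil)))))) (.g (nat_lit 5) .nil .nil)))) (.nd (nat_lit 5) 
(.lf (nat_lit 202907) (.g (nat_lit 2192) (.e (nat_lit 73755) (nat_lit 8) (.e (nat_lit 557087) (nat_lit 11) (.e (nat_lit 24617) (nat_lit 7) (.e (nat_lit 319505) (nat_lit 10) .nil)))) .nil)) 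
(.lf (nat_lit 202939) (.g (nat_lit 2569) (.e (nat_lit 73755) (nat_lit 8) (.e (nat_lit 557087) (nat_lit 11) (.e (nat_lit 24638) (nat_lit 9) (.e (nat_lit 336011) (nat_lit 2) (.e (nat_lit 90165) (nat_lit 12) (.e (nat_lit 171776) (nat_lit 192) .nil)))))) (.g (nat_lit 4) .nil .nil)))))) (.nd (nat_lit 3) (.nd (nat_lit 4) (.nd (nat_lit 5) 
(.lf (nat_lit 202887) (.g (nat_lit 2817) (.e (nat_lit 73755) (nat_lit 8) (.e (nat_lit 557086) (nat_lit 11) (.e (nat_lit 24632) (nat_lit 9) (.e (nat_lit 336013) (nat_lit 2) (.e (nat_lit 90165) (nat_lit 12) (.e (nat_lit 171776) (nat_lit 192) .nil)))))) (.g (nat_lit 5) .nil .nil))) 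
(.lf (nat_lit 202919) (.g (nat_lit 1894) (.e (nat_lit 73755) (nat_lit 8) (.e (nat_lit 557087) (nat_lit 11) (.e (nat_lit 24631) (nat_lit 9) (.e (nat_lit 336008) (nat_lit 2) (.e (nat_lit 90165) (nat_lit 12) (.e (nat_lit 171776) (nat_lit 192) .nil)))))) (.g (nat_lit 5) .nil .nil)))) (.nd (nat_lit 5) 
(.lf (nat_lit 202903) (.g (nat_lit 2819) (.e (nat_lit 73755) (nat_lit 8) (.e (nat_lit 557087) (nat_lit 11) (.e (nat_lit 24617) (nat_lit 7) (.e (nat_lit 319504) (nat_lit 10) (.e (nat_lit 577) (nat_lit 43) .nil))))) .nil)) 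
(.lf (nat_lit 202935) (.g (nat_lit 1616) (.e (nat_lit 73755) (nat_lit 8) (.e (nat_lit 557087) (nat_lit 11) (.e (nat_lit 24638) (nat_lit 9) (.e (nat_lit 336002) (nat_lit 2) .nil)))) .nil)))) (.nd (nat_lit 4) (.nd (nat_lit 5) 
(.lf (nat_lit 202895) (.g (nat_lit 3087) (.e (nat_lit 73755) (nat_lit 8) (.e (nat_lit 557086) (nat_lit 11) (.e (nat_lit 24646) (nat_lit 11) (.e (nat_lit 368676) (nat_lit 21) (.e (nat_lit 516097) (nat_lit 0) (.e (nat_lit 7591) (nat_lit 407) .nil)))))) (.g (nat_lit 5) .nil .nil))) 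
(.lf (nat_lit 202927) (.g (nat_lit 1004) (.e (nat_lit 73755) (nat_lit 8) (.e (nat_lit 557087) (nat_lit 11) (.e (nat_lit 24634) (nat_lit 9) (.e (nat_lit 336008) (nat_lit 2) .nil)))) .nil))) (.nd (nat_lit 5) 
(.lf (nat_lit 202911) (.g (nat_lit 3064) (.e (nat_lit 73755) (nat_lit 8) (.e (nat_lit 557087) (nat_lit 11) (.e (nat_lit 24623) (nat_lit 9) (.e (nat_lit 336028) (nat_lit 3) (.e (nat_lit 98325) (nat_lit 17) (.e (nat_lit 7936) (nat_lit 407) .nil)))))) (.g (nat_lit 5) .nil .nil))) 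
(.lf (nat_lit 202943) (.g (nat_lit 3446) (.e (nat_lit 73755) (nat_lit 8) (.e (nat_lit 557087) (nat_lit 11) (.e (nat_lit 24639) (nat_lit 10) (.e (nat_lit 344117) (nat_lit 21) (.e (nat_lit 516097) (nat_lit 0) (.e (nat_lit 7593) (nat_lit 407) .nil)))))) (.g (nat_lit 0) .nil .nil)))))))))

noncomputable def tv2679 : DT := (.nd (nat_lit 0) (.nd (nat_lit 1) (.nd (nat_lit 2) (.nd (nat_lit 3) (.nd (nat_lit 4) (.nd (nat_lit 5) 
(.lf (nat_lit 202944) (.g (nat_lit 3224) (.e (nat_lit 73755) (nat_lit 8) (.e (nat_lit 557087) (nat_lit 11) (.e (nat_lit 24639) (nat_lit 10) (.e (nat_lit 344117) (nat_lit 21) (.e (nat_lit 516106) (nat_lit 0) (.e (nat_lit 7936) (nat_lit 407) .nil)))))) (.g (nat_lit 5) .nil .nil))) 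
(.lf (nat_lit 202976) (.g (nat_lit 1106) (.e (nat_lit 73755) (nat_lit 8) (.e (nat_lit 557087) (nat_lit 11) (.e (nat_lit 24645) (nat_lit 11) (.e (nat_lit 368675) (nat_lit 21) .nil)))) .nil))) (.nd (nat_lit 5) 
(.lf (nat_lit 202960) (.g (nat_lit 2281) (.e (nat_lit 73755) (nat_lit 8) (.e (nat_lit 557087) (nat_lit 11) (.e (nat_lit 24640) (nat_lit 10) (.e (nat_lit 344118) (nat_lit 21) .nil)))) .nil)) 
(.lf (nat_lit 202992) (.g (nat_lit 1725) (.e (nat_lit 73755) (nat_lit 8) (.e (nat_lit 557090) (nat_lit 12) (.e (nat_lit 163843) (nat_lit 0) (.e (nat_lit 5117) (nat_lit 292) (.e (nat_lit 1185) (nat_lit 87) .nil))))) .nil)))) (.nd (nat_lit 4) (.nd (nat_lit 5) 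
(.lf (nat_lit 202952) (.g (nat_lit 3156) (.e (nat_lit 73755) (nat_lit 8) (.e (nat_lit 557087) (nat_lit 11) (.e (nat_lit 24640) (nat_lit 10) (.e (nat_lit 344115) (nat_lit 20) (.e (nat_lit 507907) (nat_lit 0) (.e (nat_lit 5407) (nat_lit 303) .nil)))))) (.g (nat_lit 6) .nil .nil))) 
(.lf (nat_lit 202984) (.g (nat_lit 2624) (.e (nat_lit 73755) (nat_lit 8) (.e (nat_lit 557087) (nat_lit 11) (.e (nat_lit 24665) (nat_lit 14) (.e (nat_lit 401414) (nat_lit 0) (.e (nat_lit 3205) (nat_lit 194) .nil))))) .nil))) (.nd (nat_lit 5) 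
(.lf (nat_lit 202968) (.g (nat_lit 2286) (.e (nat_lit 73755) (nat_lit 8) (.e (nat_lit 557087) (nat_lit 11) (.e (nat_lit 24642) (nat_lit 11) (.e (nat_lit 368676) (nat_lit 21) (.e (nat_lit 516098) (nat_lit 0) .nil))))) .nil)) 
(.lf (nat_lit 203000) (.g (nat_lit 5896) (.e (nat_lit 73755) (nat_lit 8) (.e (nat_lit 557090) (nat_lit 12) (.e (nat_lit 164000) (nat_lit 38) (.e (nat_lit 639017) (nat_lit 15) (.e (nat_lit 57480) (nat_lit 28) (.e (nat_lit 557105) (nat_lit 14) (.e (nat_lit 180252) (nat_lit 10) (.e (nat_lit 573489) (nat_lit 14) .nil)))))))) (.g (nat_lit 8) .nil .nil)))))) 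
(.nd (nat_lit 3) (.nd (nat_lit 4) (.nd (nat_lit 5) 
(.lf (nat_lit 202948) (.g (nat_lit 2151) (.e (nat_lit 73755) (nat_lit 8) (.e (nat_lit 557087) (nat_lit 11) (.e (nat_lit 24640) (nat_lit 10) (.e (nat_lit 344111) (nat_lit 19) (.e (nat_lit 499910) (nat_lit 8) .nil))))) .nil)) 
(.lf (nat_lit 202980) (.g (nat_lit 2075) (.e (nat_lit 73755) (nat_lit 8) (.e (nat_lit 557087) (nat_lit 11) (.e (nat_lit 24648) (nat_lit 12) (.e (nat_lit 385066) (nat_lit 26) (.e (nat_lit 532481) (nat_lit 0) .nil))))) .nil))) (.nd (nat_lit 5) 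
(.lf (nat_lit 202964) (.g (nat_lit 2531) (.e (nat_lit 73755) (nat_lit 8) (.e (nat_lit 557087) (nat_lit 11) (.e (nat_lit 24641) (nat_lit 10) (.e (nat_lit 344115) (nat_lit 20) (.e (nat_lit 507907) (nat_lit 0) (.e (nat_lit 5413) (nat_lit 303) .nil)))))) (.g (nat_lit 4) .nil .nil))) 
(.lf (nat_lit 202996) (.g (nat_lit 5190) (.e (nat_lit 73755) (nat_lit 8) (.e (nat_lit 557090) (nat_lit 12) (.e (nat_lit 163998) (nat_lit 38) (.e (nat_lit 639017) (nat_lit 15) (.e (nat_lit 57480) (nat_lit 28) (.e (nat_lit 557105) (nat_lit 14) (.e (nat_lit 180252) (nat_lit 10) (.e (nat_lit 573489) (nat_lit 14) .nil)))))))) (.g (nat_lit 7) .nil .nil))))) (.nd (nat_lit 4) (.nd (nat_lit 5) 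
(.lf (nat_lit 202956) (.g (nat_lit 4208) (.e (nat_lit 73755) (nat_lit 8) (.e (nat_lit 557087) (nat_lit 11) (.e (nat_lit 24640) (nat_lit 10) (.e (nat_lit 344117) (nat_lit 21) (.e (nat_lit 516097) (nat_lit 0) (.e (nat_lit 7593) (nat_lit 407) .nil)))))) (.g (nat_lit 0) .nil .nil))) 
(.lf (nat_lit 202988) (.g (nat_lit 3454) (.e (nat_lit 73755) (nat_lit 8) (.e (nat_lit 557090) (nat_lit 12) (.e (nat_lit 163840) (nat_lit 0) (.e (nat_lit 5130) (nat_lit 292) (.e (nat_lit 1179) (nat_lit 87) (.e (nat_lit 57479) (nat_lit 28) (.e (nat_lit 557105) (nat_lit 14) (.e (nat_lit 180252) (nat_lit 10) (.e (nat_lit 573489) (nat_lit 14) .nil))))))))) (.g (nat_lit 6) .nil .nil)))) 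
(.nd (nat_lit 5) 
(.lf (nat_lit 202972) (.g (nat_lit 1679) (.e (nat_lit 73755) (nat_lit 8) (.e (nat_lit 557087) (nat_lit 11) (.e (nat_lit 24643) (nat_lit 11) (.e (nat_lit 368676) (nat_lit 21) (.e (nat_lit 516106) (nat_lit 0) .nil))))) .nil)) 
(.lf (nat_lit 203004) (.g (nat_lit 3574) (.e (nat_lit 73755) (nat_lit 8) (.e (nat_lit 557090) (nat_lit 12) (.e (nat_lit 164020) (nat_lit 45) (.e (nat_lit 696344) (nat_lit 8) (.e (nat_lit 172067) (nat_lit 3) (.e (nat_lit 204815) (nat_lit 17) (.e (nat_lit 6520) (nat_lit 348) .nil))))))) (.g (nat_lit 5) .nil .nil))))))) (.nd (nat_lit 2) (.nd (nat_lit 3) (.nd (nat_lit 4) (.nd (nat_lit 5) 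
(.lf (nat_lit 202946) (.g (nat_lit 2288) (.e (nat_lit 73755) (nat_lit 8) (.e (nat_lit 557087) (nat_lit 11) (.e (nat_lit 24640) (nat_lit 10) (.e (nat_lit 344108) (nat_lit 19) .nil)))) .nil)) 
(.lf (nat_lit 202978) (.g (nat_lit 2394) (.e (nat_lit 73755) (nat_lit 8) (.e (nat_lit 557087) (nat_lit 11) (.e (nat_lit 24646) (nat_lit 11) (.e (nat_lit 368676) (nat_lit 21) (.e (nat_lit 516097) (nat_lit 0) (.e (nat_lit 7591) (nat_lit 407) .nil)))))) (.g (nat_lit 4) .nil .nil)))) (.nd (nat_lit 5) 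
(.lf (nat_lit 202962) (.g (nat_lit 466) (.e (nat_lit 73755) (nat_lit 8) (.e (nat_lit 557087) (nat_lit 11) (.e (nat_lit 24641) (nat_lit 10) .nil))) .nil)) 
(.lf (nat_lit 202994) (.g (nat_lit 4671) (.e (nat_lit 73755) (nat_lit 8) (.e (nat_lit 557090) (nat_lit 12) (.e (nat_lit 163997) (nat_lit 37) (.e (nat_lit 630818) (nat_lit 15) (.e (nat_lit 57480) (nat_lit 28) (.e (nat_lit 557105) (nat_lit 14) (.e (nat_lit 180252) (nat_lit 10) (.e (nat_lit 573489) (nat_lit 14) .nil)))))))) (.g (nat_lit 8) .nil .nil))))) (.nd (nat_lit 4) (.nd (nat_lit 5) 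
(.lf (nat_lit 202954) (.g (nat_lit 2689) (.e (nat_lit 73755) (nat_lit 8) (.e (nat_lit 557087) (nat_lit 11) (.e (nat_lit 24640) (nat_lit 10) (.e (nat_lit 344115) (nat_lit 20) (.e (nat_lit 507907) (nat_lit 0) (.e (nat_lit 5412) (nat_lit 303) .nil)))))) (.g (nat_lit 6) .nil .nil))) 
(.lf (nat_lit 202986) (.g (nat_lit 3328) (.e (nat_lit 73755) (nat_lit 8) (.e (nat_lit 557089) (nat_lit 12) (.e (nat_lit 171776) (nat_lit 192) (.e (nat_lit 73731) (nat_lit 0) (.e (nat_lit 7265) (nat_lit 384) (.e (nat_lit 57347) (nat_lit 0) (.e (nat_lit 2029) (nat_lit 140) (.e (nat_lit 688181) (nat_lit 17) .nil)))))))) (.g (nat_lit 6) .nil .nil)))) (.nd (nat_lit 5) 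
(.lf (nat_lit 202970) (.g (nat_lit 2047) (.e (nat_lit 73755) (nat_lit 8) (.e (nat_lit 557087) (nat_lit 11) (.e (nat_lit 24643) (nat_lit 11) (.e (nat_lit 368676) (nat_lit 21) (.e (nat_lit 516097) (nat_lit 0) (.e (nat_lit 7936) (nat_lit 407) .nil)))))) (.g (nat_lit 5) .nil .nil))) 
(.lf (nat_lit 203002) (.g (nat_lit 2489) (.e (nat_lit 73755) (nat_lit 8) (.e (nat_lit 557090) (nat_lit 12) (.e (nat_lit 164005) (nat_lit 41) (.e (nat_lit 663580) (nat_lit 9) (.e (nat_lit 46) (nat_lit 0) (.e (nat_lit 1855) (nat_lit 124) (.e (nat_lit 557105) (nat_lit 14) (.e (nat_lit 180252) (nat_lit 10) (.e (nat_lit 573489) (nat_lit 14) .nil))))))))) (.g (nat_lit 4) .nil .nil)))))) 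
(.nd (nat_lit 3) (.nd (nat_lit 4) (.nd (nat_lit 5) 
(.lf (nat_lit 202950) (.g (nat_lit 2776) (.e (nat_lit 73755) (nat_lit 8) (.e (nat_lit 557087) (nat_lit 11) (.e (nat_lit 24640) (nat_lit 10) (.e (nat_lit 344115) (nat_lit 20) (.e (nat_lit 507906) (nat_lit 0) (.e (nat_lit 5412) (nat_lit 303) .nil)))))) (.g (nat_lit 6) .nil .nil))) 
(.lf (nat_lit 202982) (.g (nat_lit 4179) (.e (nat_lit 73755) (nat_lit 8) (.e (nat_lit 557087) (nat_lit 11) (.e (nat_lit 24662) (nat_lit 14) (.e (nat_lit 401425) (nat_lit 2) (.e (nat_lit 196661) (nat_lit 12) .nil))))) .nil))) (.nd (nat_lit 5) 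
(.lf (nat_lit 202966) (.g (nat_lit 2585) (.e (nat_lit 73755) (nat_lit 8) (.e (nat_lit 557087) (nat_lit 11) (.e (nat_lit 24641) (nat_lit 10) (.e (nat_lit 344117) (nat_lit 21) (.e (nat_lit 516098) (nat_lit 0) .nil))))) .nil)) 
(.lf (nat_lit 202998) (.g (nat_lit 5959) (.e (nat_lit 73755) (nat_lit 8) (.e (nat_lit 557090) (nat_lit 12) (.e (nat_lit 163999) (nat_lit 38) (.e (nat_lit 639017) (nat_lit 15) (.e (nat_lit 57480) (nat_lit 28) (.e (nat_lit 557104) (nat_lit 14) (.e (nat_lit 180252) (nat_lit 10) (.e (nat_lit 573489) (nat_lit 14) .nil)))))))) (.g (nat_lit 8) .nil .nil))))) (.nd (nat_lit 4) (.nd (nat_lit 5) 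
(.lf (nat_lit 202958) (.g (nat_lit 2673) (.e (nat_lit 73755) (nat_lit 8) (.e (nat_lit 557087) (nat_lit 11) (.e (nat_lit 24640) (nat_lit 10) (.e (nat_lit 344117) (nat_lit 21) (.e (nat_lit 516102) (nat_lit 0) (.e (nat_lit 7936) (nat_lit 407) .nil)))))) (.g (nat_lit 4) .nil .nil))) 
(.lf (nat_lit 202990) (.g (nat_lit 3454) (.e (nat_lit 73755) (nat_lit 8) (.e (nat_lit 557090) (nat_lit 12) (.e (nat_lit 163842) (nat_lit 0) (.e (nat_lit 5150) (nat_lit 292) (.e (nat_lit 1169) (nat_lit 87) (.e (nat_lit 57479) (nat_lit 28) (.e (nat_lit 557105) (nat_lit 14) (.e (nat_lit 180252) (nat_lit 10) (.e (nat_lit 573489) (nat_lit 14) .nil))))))))) (.g (nat_lit 6) .nil .nil)))) 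
(.nd (nat_lit 5) 
(.lf (nat_lit 202974) (.g (nat_lit 2273) (.e (nat_lit 73755) (nat_lit 8) (.e (nat_lit 557087) (nat_lit 11) (.e (nat_lit 24644) (nat_lit 11) (.e (nat_lit 368676) (nat_lit 21) (.e (nat_lit 516097) (nat_lit 0) (.e (nat_lit 7936) (nat_lit 407) .nil)))))) (.g (nat_lit 5) .nil .nil))) 
(.lf (nat_lit 203006) (.g (nat_lit 4753) (.e (nat_lit 73755) (nat_lit 8) (.e (nat_lit 557090) (nat_lit 12) (.e (nat_lit 164020) (nat_lit 45) (.e (nat_lit 696344) (nat_lit 8) (.e (nat_lit 172067) (nat_lit 3) (.e (nat_lit 204821) (nat_lit 17) (.e (nat_lit 7936) (nat_lit 348) .nil))))))) (.g (nat_lit 6) .nil .nil)))))))) 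
(.nd (nat_lit 1) (.nd (nat_lit 2) (.nd (nat_lit 3) (.nd (nat_lit 4) (.nd (nat_lit 5) 
(.lf (nat_lit 202945) (.g (nat_lit 2288) (.e (nat_lit 73755) (nat_lit 8) (.e (nat_lit 557087) (nat_lit 11) (.e (nat_lit 24640) (nat_lit 10) (.e (nat_lit 344105) (nat_lit 19) .nil)))) .nil)) 
(.lf (nat_lit 202977) (.g (nat_lit 2129) (.e (nat_lit 73755) (nat_lit 8) (.e (nat_lit 557087) (nat_lit 11) (.e (nat_lit 24645) (nat_lit 11) (.e (nat_lit 368676) (nat_lit 21) (.e (nat_lit 516097) (nat_lit 0) (.e (nat_lit 7591) (nat_lit 407) .nil)))))) (.g (nat_lit 4) .nil .nil)))) (.nd (nat_lit 5) 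
(.lf (nat_lit 202961) (.g (nat_lit 1963) (.e (nat_lit 73755) (nat_lit 8) (.e (nat_lit 557087) (nat_lit 11) (.e (nat_lit 24640) (nat_lit 10) (.e (nat_lit 344120) (nat_lit 21) .nil)))) .nil)) 
(.lf (nat_lit 202993) (.g (nat_lit 3179) (.e (nat_lit 73755) (nat_lit 8) (.e (nat_lit 557090) (nat_lit 12) (.e (nat_lit 163849) (nat_lit 0) (.e (nat_lit 5130) (nat_lit 292) (.e (nat_lit 1179) (nat_lit 87) (.e (nat_lit 57479) (nat_lit 28) (.e (nat_lit 557105) (nat_lit 14) (.e (nat_lit 180252) (nat_lit 10) (.e (nat_lit 573489) (nat_lit 14) .nil))))))))) (.g (nat_lit 5) .nil .nil))))) 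
(.nd (nat_lit 4) (.nd (nat_lit 5) 
(.lf (nat_lit 202953) (.g (nat_lit 2741) (.e (nat_lit 73755) (nat_lit 8) (.e (nat_lit 557087) (nat_lit 11) (.e (nat_lit 24640) (nat_lit 10) (.e (nat_lit 344115) (nat_lit 20) (.e (nat_lit 507907) (nat_lit 0) (.e (nat_lit 5409) (nat_lit 303) .nil)))))) (.g (nat_lit 6) .nil .nil))) 
(.lf (nat_lit 202985) (.g (nat_lit 3248) (.e (nat_lit 73755) (nat_lit 8) (.e (nat_lit 557089) (nat_lit 12) (.e (nat_lit 171776) (nat_lit 192) (.e (nat_lit 73729) (nat_lit 0) (.e (nat_lit 7265) (nat_lit 384) (.e (nat_lit 57347) (nat_lit 0) (.e (nat_lit 2029) (nat_lit 140) (.e (nat_lit 688181) (nat_lit 17) .nil)))))))) (.g (nat_lit 6) .nil .nil)))) (.nd (nat_lit 5) 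
(.lf (nat_lit 202969) (.g (nat_lit 2881) (.e (nat_lit 73755) (nat_lit 8) (.e (nat_lit 557087) (nat_lit 11) (.e (nat_lit 24643) (nat_lit 11) (.e (nat_lit 368676) (nat_lit 21) (.e (nat_lit 516097) (nat_lit 0) (.e (nat_lit 7593) (nat_lit 407) .nil)))))) (.g (nat_lit 0) .nil .nil))) 
(.lf (nat_lit 203001) (.g (nat_lit 5480) (.e (nat_lit 73755) (nat_lit 8) (.e (nat_lit 557090) (nat_lit 12) (.e (nat_lit 164000) (nat_lit 38) (.e (nat_lit 639018) (nat_lit 15) (.e (nat_lit 57480) (nat_lit 28) (.e (nat_lit 557105) (nat_lit 14) (.e (nat_lit 180252) (nat_lit 10) (.e (nat_lit 573489) (nat_lit 14) .nil)))))))) (.g (nat_lit 7) .nil .nil)))))) 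
(.nd (nat_lit 3) (.nd (nat_lit 4) (.nd (nat_lit 5) 
(.lf (nat_lit 202949) (.g (nat_lit 2116) (.e (nat_lit 73755) (nat_lit 8) (.e (nat_lit 557087) (nat_lit 11) (.e (nat_lit 24640) (nat_lit 10) (.e (nat_lit 344114) (nat_lit 20) .nil)))) .nil)) 
(.lf (nat_lit 202981) (.g (nat_lit 2003) (.e (nat_lit 73755) (nat_lit 8) (.e (nat_lit 557087) (nat_lit 11) (.e (nat_lit 24662) (nat_lit 14) (.e (nat_lit 401425) (nat_lit 2) .nil)))) .nil))) (.nd (nat_lit 5) 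
(.lf (nat_lit 202965) (.g (nat_lit 2591) (.e (nat_lit 73755) (nat_lit 8) (.e (nat_lit 557087) (nat_lit 11) (.e (nat_lit 24641) (nat_lit 10) (.e (nat_lit 344117) (nat_lit 21) (.e (nat_lit 516097) (nat_lit 0) .nil))))) .nil)) 
(.lf (nat_lit 202997) (.g (nat_lit 4273) (.e (nat_lit 73755) (nat_lit 8) (.e (nat_lit 557090) (nat_lit 12) (.e (nat_lit 163998) (nat_lit 38) (.e (nat_lit 639018) (nat_lit 15) (.e (nat_lit 57478) (nat_lit 28) (.e (nat_lit 557105) (nat_lit 14) (.e (nat_lit 180252) (nat_lit 10) (.e (nat_lit 573489) (nat_lit 14) .nil)))))))) (.g (nat_lit 7) .nil .nil))))) (.nd (nat_lit 4) (.nd (nat_lit 5) 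
(.lf (nat_lit 202957) (.g (nat_lit 3525) (.e (nat_lit 73755) (nat_lit 8) (.e (nat_lit 557087) (nat_lit 11) (.e (nat_lit 24640) (nat_lit 10) (.e (nat_lit 344117) (nat_lit 21) (.e (nat_lit 516099) (nat_lit 0) (.e (nat_lit 7936) (nat_lit 407) .nil)))))) (.g (nat_lit 5) .nil .nil))) 
(.lf (nat_lit 202989) (.g (nat_lit 2577) (.e (nat_lit 73755) (nat_lit 8) (.e (nat_lit 557090) (nat_lit 12) (.e (nat_lit 163841) (nat_lit 0) (.e (nat_lit 5113) (nat_lit 292) (.e (nat_lit 1182) (nat_lit 87) (.e (nat_lit 57479) (nat_lit 28) (.e (nat_lit 557105) (nat_lit 14) (.e (nat_lit 180252) (nat_lit 10) (.e (nat_lit 573489) (nat_lit 14) .nil))))))))) (.g (nat_lit 5) .nil .nil)))) 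
(.nd (nat_lit 5) 
(.lf (nat_lit 202973) (.g (nat_lit 3095) (.e (nat_lit 73755) (nat_lit 8) (.e (nat_lit 557087) (nat_lit 11) (.e (nat_lit 24644) (nat_lit 11) (.e (nat_lit 368676) (nat_lit 21) (.e (nat_lit 516097) (nat_lit 0) (.e (nat_lit 7593) (nat_lit 407) .nil)))))) (.g (nat_lit 0) .nil .nil))) 
(.lf (nat_lit 203005) (.g (nat_lit 4300) (.e (nat_lit 73755) (nat_lit 8) (.e (nat_lit 557090) (nat_lit 12) (.e (nat_lit 164020) (nat_lit 45) (.e (nat_lit 696344) (nat_lit 8) (.e (nat_lit 172067) (nat_lit 3) (.e (nat_lit 204817) (nat_lit 17) (.e (nat_lit 7936) (nat_lit 348) .nil))))))) (.g (nat_lit 6) .nil .nil))))))) (.nd (nat_lit 2) (.nd (nat_lit 3) (.nd (nat_lit 4) (.nd (nat_lit 5) 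
(.lf (nat_lit 202947) (.g (nat_lit 2288) (.e (nat_lit 73755) (nat_lit 8) (.e (nat_lit 557087) (nat_lit 11) (.e (nat_lit 24640) (nat_lit 10) (.e (nat_lit 344109) (nat_lit 19) .nil)))) .nil)) 
(.lf (nat_lit 202979) (.g (nat_lit 2389) (.e (nat_lit 73755) (nat_lit 8) (.e (nat_lit 557087) (nat_lit 11) (.e (nat_lit 24646) (nat_lit 11) (.e (nat_lit 368676) (nat_lit 21) (.e (nat_lit 516097) (nat_lit 0) (.e (nat_lit 7593) (nat_lit 407) .nil)))))) (.g (nat_lit 4) .nil .nil)))) (.nd (nat_lit 5) 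
(.lf (nat_lit 202963) (.g (nat_lit 2373) (.e (nat_lit 73755) (nat_lit 8) (.e (nat_lit 557087) (nat_lit 11) (.e (nat_lit 24641) (nat_lit 10) (.e (nat_lit 344115) (nat_lit 20) (.e (nat_lit 507906) (nat_lit 0) (.e (nat_lit 7936) (nat_lit 303) .nil)))))) (.g (nat_lit 4) .nil .nil))) 
(.lf (nat_lit 202995) (.g (nat_lit 4114) (.e (nat_lit 73755) (nat_lit 8) (.e (nat_lit 557090) (nat_lit 12) (.e (nat_lit 163998) (nat_lit 38) (.e (nat_lit 639017) (nat_lit 15) (.e (nat_lit 57478) (nat_lit 28) (.e (nat_lit 557105) (nat_lit 14) (.e (nat_lit 180252) (nat_lit 10) (.e (nat_lit 573489) (nat_lit 14) .nil)))))))) (.g (nat_lit 7) .nil .nil))))) (.nd (nat_lit 4) (.nd (nat_lit 5) 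
(.lf (nat_lit 202955) (.g (nat_lit 2613) (.e (nat_lit 73755) (nat_lit 8) (.e (nat_lit 557087) (nat_lit 11) (.e (nat_lit 24640) (nat_lit 10) (.e (nat_lit 344115) (nat_lit 20) (.e (nat_lit 507907) (nat_lit 0) (.e (nat_lit 5413) (nat_lit 303) .nil)))))) (.g (nat_lit 6) .nil .nil))) 
(.lf (nat_lit 202987) (.g (nat_lit 2906) (.e (nat_lit 73755) (nat_lit 8) (.e (nat_lit 557089) (nat_lit 12) (.e (nat_lit 171776) (nat_lit 194) (.e (nat_lit 131140) (nat_lit 27) (.e (nat_lit 426098) (nat_lit 1) (.e (nat_lit 164151) (nat_lit 152) (.e (nat_lit 1207) (nat_lit 89) .nil))))))) (.g (nat_lit 5) .nil .nil)))) (.nd (nat_lit 5) 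
(.lf (nat_lit 202971) (.g (nat_lit 1676) (.e (nat_lit 73755) (nat_lit 8) (.e (nat_lit 557087) (nat_lit 11) (.e (nat_lit 24643) (nat_lit 11) (.e (nat_lit 368676) (nat_lit 21) (.e (nat_lit 516103) (nat_lit 0) .nil))))) .nil)) 
(.lf (nat_lit 203003) (.g (nat_lit 1202) (.e (nat_lit 73755) (nat_lit 8) (.e (nat_lit 557090) (nat_lit 12) (.e (nat_lit 164020) (nat_lit 45) (.e (nat_lit 696343) (nat_lit 8) .nil)))) .nil))))) (.nd (nat_lit 3) (.nd (nat_lit 4) (.nd (nat_lit 5) 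
(.lf (nat_lit 202951) (.g (nat_lit 2365) (.e (nat_lit 73755) (nat_lit 8) (.e (nat_lit 557087) (nat_lit 11) (.e (nat_lit 24640) (nat_lit 10) (.e (nat_lit 344115) (nat_lit 20) (.e (nat_lit 507906) (nat_lit 0) (.e (nat_lit 7936) (nat_lit 303) .nil)))))) (.g (nat_lit 5) .nil .nil))) 
(.lf (nat_lit 202983) (.g (nat_lit 2905) (.e (nat_lit 73755) (nat_lit 8) (.e (nat_lit 557087) (nat_lit 11) (.e (nat_lit 24665) (nat_lit 14) (.e (nat_lit 401413) (nat_lit 0) (.e (nat_lit 3205) (nat_lit 194) (.e (nat_lit 507928) (nat_lit 10) (.e (nat_lit 7936) (nat_lit 303) .nil))))))) (.g (nat_lit 6) .nil .nil)))) (.nd (nat_lit 5) 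
(.lf (nat_lit 202967) (.g (nat_lit 3184) (.e (nat_lit 73755) (nat_lit 8) (.e (nat_lit 557087) (nat_lit 11) (.e (nat_lit 24641) (nat_lit 10) (.e (nat_lit 344117) (nat_lit 21) (.e (nat_lit 516106) (nat_lit 0) (.e (nat_lit 7936) (nat_lit 407) .nil)))))) (.g (nat_lit 4) .nil .nil))) 
(.lf (nat_lit 202999) (.g (nat_lit 1801) (.e (nat_lit 73755) (nat_lit 8) (.e (nat_lit 557090) (nat_lit 12) (.e (nat_lit 163999) (nat_lit 38) (.e (nat_lit 639024) (nat_lit 19) .nil)))) .nil)))) (.nd (nat_lit 4) (.nd (nat_lit 5) 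
(.lf (nat_lit 202959) (.g (nat_lit 4112) (.e (nat_lit 73755) (nat_lit 8) (.e (nat_lit 557087) (nat_lit 11) (.e (nat_lit 24640) (nat_lit 10) (.e (nat_lit 344117) (nat_lit 21) (.e (nat_lit 516106) (nat_lit 0) (.e (nat_lit 7936) (nat_lit 407) .nil)))))) (.g (nat_lit 5) .nil .nil))) 
(.lf (nat_lit 202991) (.g (nat_lit 4222) (.e (nat_lit 73755) (nat_lit 8) (.e (nat_lit 557090) (nat_lit 12) (.e (nat_lit 163842) (nat_lit 0) (.e (nat_lit 5150) (nat_lit 292) (.e (nat_lit 1170) (nat_lit 87) (.e (nat_lit 57479) (nat_lit 28) (.e (nat_lit 557105) (nat_lit 14) (.e (nat_lit 180252) (nat_lit 10) (.e (nat_lit 573489) (nat_lit 14) .nil))))))))) (.g (nat_lit 7) .nil .nil)))) 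
(.nd (nat_lit 5) 
(.lf (nat_lit 202975) (.g (nat_lit 2876) (.e (nat_lit 73755) (nat_lit 8) (.e (nat_lit 557087) (nat_lit 11) (.e (nat_lit 24644) (nat_lit 11) (.e (nat_lit 368676) (nat_lit 21) (.e (nat_lit 516098) (nat_lit 0) (.e (nat_lit 7593) (nat_lit 407) .nil)))))) (.g (nat_lit 0) .nil .nil))) 
(.lf (nat_lit 203007) (.g (nat_lit 4249) (.e (nat_lit 73755) (nat_lit 8) (.e (nat_lit 557090) (nat_lit 12) (.e (nat_lit 164020) (nat_lit 45) (.e (nat_lit 696344) (nat_lit 8) (.e (nat_lit 172138) (nat_lit 15) (.e (nat_lit 1856) (nat_lit 124) (.e (nat_lit 557093) (nat_lit 12) (.e (nat_lit 171776) (nat_lit 192) .nil)))))))) (.g (nat_lit 7) .nil .nil)))))))))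

noncomputable def tv2680 : DT := (.nd (nat_lit 0) (.nd (nat_lit 1) (.nd (nat_lit 2) (.nd (nat_lit 3) (.nd (nat_lit 4) (.nd (nat_lit 5) 
(.lf (nat_lit 203008) (.g (nat_lit 808) (.e (nat_lit 73755) (nat_lit 8) (.e (nat_lit 557090) (nat_lit 12) (.e (nat_lit 164213) (nat_lit 176) .nil))) .nil)) 
(.lf (nat_lit 203040) (.g (nat_lit 3993) (.e (nat_lit 73755) (nat_lit 8) (.e (nat_lit 557091) (nat_lit 12) (.e (nat_lit 164238) (nat_lit 187) (.e (nat_lit 1427) (nat_lit 108) (.e (nat_lit 336421) (nat_lit 28) (.e (nat_lit 442112) (nat_lit 42) (.e (nat_lit 688182) (nat_lit 17) .nil))))))) (.g (nat_lit 5) .nil .nil)))) (.nd (nat_lit 5) 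
(.lf (nat_lit 203024) (.g (nat_lit 2863) (.e (nat_lit 73755) (nat_lit 8) (.e (nat_lit 557090) (nat_lit 12) (.e (nat_lit 164238) (nat_lit 187) (.e (nat_lit 1661) (nat_lit 115) (.e (nat_lit 393252) (nat_lit 18) (.e (nat_lit 164159) (nat_lit 152) (.e (nat_lit 1208) (nat_lit 89) .nil))))))) (.g (nat_lit 4) .nil .nil))) 
(.lf (nat_lit 203056) (.g (nat_lit 2296) (.e (nat_lit 73755) (nat_lit 8) (.e (nat_lit 557091) (nat_lit 12) (.e (nat_lit 164238) (nat_lit 187) (.e (nat_lit 1659) (nat_lit 115) (.e (nat_lit 393253) (nat_lit 18) (.e (nat_lit 164163) (nat_lit 152) (.e (nat_lit 1210) (nat_lit 89) .nil))))))) (.g (nat_lit 4) .nil .nil))))) (.nd (nat_lit 4) (.nd (nat_lit 5) 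
(.lf (nat_lit 203016) (.g (nat_lit 3729) (.e (nat_lit 73755) (nat_lit 8) (.e (nat_lit 557090) (nat_lit 12) (.e (nat_lit 164238) (nat_lit 187) (.e (nat_lit 1427) (nat_lit 108) (.e (nat_lit 336421) (nat_lit 28) (.e (nat_lit 434285) (nat_lit 42) (.e (nat_lit 688182) (nat_lit 17) .nil))))))) (.g (nat_lit 4) .nil .nil))) 
(.lf (nat_lit 203048) (.g (nat_lit 2783) (.e (nat_lit 73755) (nat_lit 8) (.e (nat_lit 557091) (nat_lit 12) (.e (nat_lit 164238) (nat_lit 187) (.e (nat_lit 1658) (nat_lit 115) (.e (nat_lit 393253) (nat_lit 18) (.e (nat_lit 164163) (nat_lit 152) (.e (nat_lit 1211) (nat_lit 89) .nil))))))) (.g (nat_lit 5) .nil .nil)))) (.nd (nat_lit 5) 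
(.lf (nat_lit 203032) (.g (nat_lit 5330) (.e (nat_lit 73755) (nat_lit 8) (.e (nat_lit 557091) (nat_lit 12) (.e (nat_lit 163999) (nat_lit 38) (.e (nat_lit 639017) (nat_lit 15) (.e (nat_lit 57478) (nat_lit 28) (.e (nat_lit 557105) (nat_lit 14) (.e (nat_lit 180251) (nat_lit 10) (.e (nat_lit 573489) (nat_lit 14) .nil)))))))) (.g (nat_lit 8) .nil .nil))) 
(.lf (nat_lit 203064) (.g (nat_lit 3494) (.e (nat_lit 73755) (nat_lit 8) (.e (nat_lit 557091) (nat_lit 12) (.e (nat_lit 164238) (nat_lit 187) (.e (nat_lit 1660) (nat_lit 115) (.e (nat_lit 393253) (nat_lit 18) (.e (nat_lit 164162) (nat_lit 152) (.e (nat_lit 1210) (nat_lit 89) .nil))))))) (.g (nat_lit 6) .nil .nil)))))) (.nd (nat_lit 3) (.nd (nat_lit 4) (.nd (nat_lit 5) 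
(.lf (nat_lit 203012) (.g (nat_lit 855) (.e (nat_lit 73755) (nat_lit 8) (.e (nat_lit 557090) (nat_lit 12) (.e (nat_lit 164235) (nat_lit 187) .nil))) .nil)) 
(.lf (nat_lit 203044) (.g (nat_lit 3718) (.e (nat_lit 73755) (nat_lit 8) (.e (nat_lit 557091) (nat_lit 12) (.e (nat_lit 164238) (nat_lit 187) (.e (nat_lit 1428) (nat_lit 108) (.e (nat_lit 336369) (nat_lit 27) (.e (nat_lit 426109) (nat_lit 1) (.e (nat_lit 164163) (nat_lit 152) (.e (nat_lit 1210) (nat_lit 89) .nil)))))))) (.g (nat_lit 6) .nil .nil)))) (.nd (nat_lit 5) 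
(.lf (nat_lit 203028) (.g (nat_lit 3171) (.e (nat_lit 73755) (nat_lit 8) (.e (nat_lit 557090) (nat_lit 12) (.e (nat_lit 171776) (nat_lit 192) (.e (nat_lit 73731) (nat_lit 0) (.e (nat_lit 7265) (nat_lit 384) (.e (nat_lit 57347) (nat_lit 0) (.e (nat_lit 2029) (nat_lit 140) (.e (nat_lit 688182) (nat_lit 17) .nil)))))))) (.g (nat_lit 6) .nil .nil))) 
(.lf (nat_lit 203060) (.g (nat_lit 2180) (.e (nat_lit 73755) (nat_lit 8) (.e (nat_lit 557091) (nat_lit 12) (.e (nat_lit 164238) (nat_lit 187) (.e (nat_lit 1660) (nat_lit 115) (.e (nat_lit 393253) (nat_lit 18) (.e (nat_lit 164152) (nat_lit 152) (.e (nat_lit 1213) (nat_lit 89) .nil))))))) (.g (nat_lit 4) .nil .nil))))) (.nd (nat_lit 4) (.nd (nat_lit 5) 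
(.lf (nat_lit 203020) (.g (nat_lit 1923) (.e (nat_lit 73755) (nat_lit 8) (.e (nat_lit 557090) (nat_lit 12) (.e (nat_lit 164238) (nat_lit 187) (.e (nat_lit 1661) (nat_lit 115) (.e (nat_lit 393251) (nat_lit 18) .nil))))) .nil)) 
(.lf (nat_lit 203052) (.g (nat_lit 3353) (.e (nat_lit 73755) (nat_lit 8) (.e (nat_lit 557091) (nat_lit 12) (.e (nat_lit 164238) (nat_lit 187) (.e (nat_lit 1659) (nat_lit 115) (.e (nat_lit 393253) (nat_lit 18) (.e (nat_lit 164147) (nat_lit 152) (.e (nat_lit 1211) (nat_lit 89) .nil))))))) (.g (nat_lit 5) .nil .nil)))) (.nd (nat_lit 5) 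
(.lf (nat_lit 203036) (.g (nat_lit 639) (.e (nat_lit 73755) (nat_lit 8) (.e (nat_lit 557091) (nat_lit 12) (.e (nat_lit 164219) (nat_lit 180) .nil))) .nil)) 
(.lf (nat_lit 203068) (.g (nat_lit 2927) (.e (nat_lit 73755) (nat_lit 8) (.e (nat_lit 557091) (nat_lit 12) (.e (nat_lit 164238) (nat_lit 187) (.e (nat_lit 1661) (nat_lit 115) (.e (nat_lit 393231) (nat_lit 17) (.e (nat_lit 3454) (nat_lit 216) (.e (nat_lit 688182) (nat_lit 17) .nil))))))) (.g (nat_lit 4) .nil .nil))))))) (.nd (nat_lit 2) (.nd (nat_lit 3) (.nd (nat_lit 4) (.nd (nat_lit 5) 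
(.lf (nat_lit 203010) (.g (nat_lit 828) (.e (nat_lit 73755) (nat_lit 8) (.e (nat_lit 557090) (nat_lit 12) (.e (nat_lit 164219) (nat_lit 180) .nil))) .nil)) 
(.lf (nat_lit 203042) (.g (nat_lit 2818) (.e (nat_lit 73755) (nat_lit 8) (.e (nat_lit 557091) (nat_lit 12) (.e (nat_lit 164238) (nat_lit 187) (.e (nat_lit 1427) (nat_lit 108) (.e (nat_lit 336425) (nat_lit 28) (.e (nat_lit 434286) (nat_lit 42) (.e (nat_lit 688179) (nat_lit 17) .nil))))))) (.g (nat_lit 4) .nil .nil)))) (.nd (nat_lit 5) 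
(.lf (nat_lit 203026) (.g (nat_lit 3104) (.e (nat_lit 73755) (nat_lit 8) (.e (nat_lit 557090) (nat_lit 12) (.e (nat_lit 164238) (nat_lit 187) (.e (nat_lit 1661) (nat_lit 115) (.e (nat_lit 393253) (nat_lit 18) (.e (nat_lit 164163) (nat_lit 152) (.e (nat_lit 1211) (nat_lit 89) .nil))))))) (.g (nat_lit 4) .nil .nil))) 
(.lf (nat_lit 203058) (.g (nat_lit 1454) (.e (nat_lit 73755) (nat_lit 8) (.e (nat_lit 557091) (nat_lit 12) (.e (nat_lit 164238) (nat_lit 187) (.e (nat_lit 1660) (nat_lit 115) (.e (nat_lit 393239) (nat_lit 17) .nil))))) .nil)))) (.nd (nat_lit 4) (.nd (nat_lit 5) 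
(.lf (nat_lit 203018) (.g (nat_lit 3747) (.e (nat_lit 73755) (nat_lit 8) (.e (nat_lit 557090) (nat_lit 12) (.e (nat_lit 164238) (nat_lit 187) (.e (nat_lit 1661) (nat_lit 115) (.e (nat_lit 393238) (nat_lit 17) (.e (nat_lit 7936) (nat_lit 216) (.e (nat_lit 688182) (nat_lit 17) .nil))))))) (.g (nat_lit 5) .nil .nil))) 
(.lf (nat_lit 203050) (.g (nat_lit 2231) (.e (nat_lit 73755) (nat_lit 8) (.e (nat_lit 557091) (nat_lit 12) (.e (nat_lit 164238) (nat_lit 187) (.e (nat_lit 1659) (nat_lit 115) (.e (nat_lit 393237) (nat_lit 17) (.e (nat_lit 3453) (nat_lit 216) (.e (nat_lit 688181) (nat_lit 17) .nil))))))) (.g (nat_lit 4) .nil .nil)))) (.nd (nat_lit 5) 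
(.lf (nat_lit 203034) (.g (nat_lit 5280) (.e (nat_lit 73755) (nat_lit 8) (.e (nat_lit 557091) (nat_lit 12) (.e (nat_lit 163999) (nat_lit 38) (.e (nat_lit 639017) (nat_lit 15) (.e (nat_lit 57480) (nat_lit 28) (.e (nat_lit 557104) (nat_lit 14) (.e (nat_lit 180251) (nat_lit 10) (.e (nat_lit 573489) (nat_lit 14) .nil)))))))) (.g (nat_lit 8) .nil .nil))) 
(.lf (nat_lit 203066) (.g (nat_lit 2604) (.e (nat_lit 73755) (nat_lit 8) (.e (nat_lit 557091) (nat_lit 12) (.e (nat_lit 164238) (nat_lit 187) (.e (nat_lit 1661) (nat_lit 115) (.e (nat_lit 393231) (nat_lit 17) (.e (nat_lit 3453) (nat_lit 216) (.e (nat_lit 688181) (nat_lit 17) .nil))))))) (.g (nat_lit 4) .nil .nil)))))) (.nd (nat_lit 3) (.nd (nat_lit 4) (.nd (nat_lit 5) 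
(.lf (nat_lit 203014) (.g (nat_lit 2774) (.e (nat_lit 73755) (nat_lit 8) (.e (nat_lit 557090) (nat_lit 12) (.e (nat_lit 164238) (nat_lit 187) (.e (nat_lit 1427) (nat_lit 108) (.e (nat_lit 336369) (nat_lit 27) (.e (nat_lit 426109) (nat_lit 1) (.e (nat_lit 164163) (nat_lit 152) (.e (nat_lit 1210) (nat_lit 89) .nil)))))))) (.g (nat_lit 4) .nil .nil))) 
(.lf (nat_lit 203046) (.g (nat_lit 1210) (.e (nat_lit 73755) (nat_lit 8) (.e (nat_lit 557091) (nat_lit 12) (.e (nat_lit 164238) (nat_lit 187) (.e (nat_lit 1658) (nat_lit 115) (.e (nat_lit 393253) (nat_lit 18) .nil))))) .nil))) (.nd (nat_lit 5) 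
(.lf (nat_lit 203030) (.g (nat_lit 1471) (.e (nat_lit 73755) (nat_lit 8) (.e (nat_lit 557091) (nat_lit 12) (.e (nat_lit 163999) (nat_lit 38) (.e (nat_lit 639016) (nat_lit 15) .nil)))) .nil)) 
(.lf (nat_lit 203062) (.g (nat_lit 2239) (.e (nat_lit 73755) (nat_lit 8) (.e (nat_lit 557091) (nat_lit 12) (.e (nat_lit 164238) (nat_lit 187) (.e (nat_lit 1660) (nat_lit 115) (.e (nat_lit 393253) (nat_lit 18) (.e (nat_lit 164155) (nat_lit 152) (.e (nat_lit 1213) (nat_lit 89) .nil))))))) (.g (nat_lit 4) .nil .nil))))) (.nd (nat_lit 4) (.nd (nat_lit 5) 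
(.lf (nat_lit 203022) (.g (nat_lit 2993) (.e (nat_lit 73755) (nat_lit 8) (.e (nat_lit 557090) (nat_lit 12) (.e (nat_lit 164238) (nat_lit 187) (.e (nat_lit 1661) (nat_lit 115) (.e (nat_lit 393251) (nat_lit 18) (.e (nat_lit 164153) (nat_lit 152) (.e (nat_lit 1208) (nat_lit 89) .nil))))))) (.g (nat_lit 4) .nil .nil))) 
(.lf (nat_lit 203054) (.g (nat_lit 2061) (.e (nat_lit 73755) (nat_lit 8) (.e (nat_lit 557091) (nat_lit 12) (.e (nat_lit 164238) (nat_lit 187) (.e (nat_lit 1659) (nat_lit 115) (.e (nat_lit 393253) (nat_lit 18) (.e (nat_lit 164155) (nat_lit 152) (.e (nat_lit 1213) (nat_lit 89) .nil))))))) (.g (nat_lit 4) .nil .nil)))) (.nd (nat_lit 5) 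
(.lf (nat_lit 203038) (.g (nat_lit 4099) (.e (nat_lit 73755) (nat_lit 8) (.e (nat_lit 557091) (nat_lit 12) (.e (nat_lit 164238) (nat_lit 187) (.e (nat_lit 1427) (nat_lit 108) (.e (nat_lit 336369) (nat_lit 27) (.e (nat_lit 426109) (nat_lit 1) (.e (nat_lit 164163) (nat_lit 152) (.e (nat_lit 1210) (nat_lit 89) .nil)))))))) (.g (nat_lit 6) .nil .nil))) 
(.lf (nat_lit 203070) (.g (nat_lit 2907) (.e (nat_lit 73755) (nat_lit 8) (.e (nat_lit 557091) (nat_lit 12) (.e (nat_lit 164238) (nat_lit 187) (.e (nat_lit 1661) (nat_lit 115) (.e (nat_lit 393232) (nat_lit 17) (.e (nat_lit 3461) (nat_lit 216) (.e (nat_lit 688182) (nat_lit 17) .nil))))))) (.g (nat_lit 4) .nil .nil)))))))) 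
(.nd (nat_lit 1) (.nd (nat_lit 2) (.nd (nat_lit 3) (.nd (nat_lit 4) (.nd (nat_lit 5) 
(.lf (nat_lit 203009) (.g (nat_lit 1283) (.e (nat_lit 73755) (nat_lit 8) (.e (nat_lit 557090) (nat_lit 12) (.e (nat_lit 164213) (nat_lit 176) (.e (nat_lit 2789) (nat_lit 179) (.e (nat_lit 294973) (nat_lit 28) .nil))))) .nil)) 
(.lf (nat_lit 203041) (.g (nat_lit 1926) (.e (nat_lit 73755) (nat_lit 8) (.e (nat_lit 557091) (nat_lit 12) (.e (nat_lit 164238) (nat_lit 187) (.e (nat_lit 1427) (nat_lit 108) (.e (nat_lit 336425) (nat_lit 28) .nil))))) .nil))) (.nd (nat_lit 5) 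
(.lf (nat_lit 203025) (.g (nat_lit 3333) (.e (nat_lit 73755) (nat_lit 8) (.e (nat_lit 557090) (nat_lit 12) (.e (nat_lit 164238) (nat_lit 187) (.e (nat_lit 1661) (nat_lit 115) (.e (nat_lit 393252) (nat_lit 18) (.e (nat_lit 164161) (nat_lit 152) (.e (nat_lit 1208) (nat_lit 89) .nil))))))) (.g (nat_lit 4) .nil .nil))) 
(.lf (nat_lit 203057) (.g (nat_lit 908) (.e (nat_lit 73755) (nat_lit 8) (.e (nat_lit 557091) (nat_lit 12) (.e (nat_lit 164238) (nat_lit 187) (.e (nat_lit 1660) (nat_lit 115) .nil)))) .nil)))) (.nd (nat_lit 4) (.nd (nat_lit 5) 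
(.lf (nat_lit 203017) (.g (nat_lit 3747) (.e (nat_lit 73755) (nat_lit 8) (.e (nat_lit 557090) (nat_lit 12) (.e (nat_lit 164238) (nat_lit 187) (.e (nat_lit 1427) (nat_lit 108) (.e (nat_lit 336421) (nat_lit 28) (.e (nat_lit 442112) (nat_lit 42) (.e (nat_lit 688182) (nat_lit 17) .nil))))))) (.g (nat_lit 4) .nil .nil))) 
(.lf (nat_lit 203049) (.g (nat_lit 2850) (.e (nat_lit 73755) (nat_lit 8) (.e (nat_lit 557091) (nat_lit 12) (.e (nat_lit 164238) (nat_lit 187) (.e (nat_lit 1659) (nat_lit 115) (.e (nat_lit 393234) (nat_lit 17) (.e (nat_lit 3461) (nat_lit 216) (.e (nat_lit 688181) (nat_lit 17) .nil))))))) (.g (nat_lit 5) .nil .nil)))) (.nd (nat_lit 5) 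
(.lf (nat_lit 203033) (.g (nat_lit 5249) (.e (nat_lit 73755) (nat_lit 8) (.e (nat_lit 557091) (nat_lit 12) (.e (nat_lit 163999) (nat_lit 38) (.e (nat_lit 639017) (nat_lit 15) (.e (nat_lit 57480) (nat_lit 28) (.e (nat_lit 557103) (nat_lit 14) (.e (nat_lit 180251) (nat_lit 10) (.e (nat_lit 573489) (nat_lit 14) .nil)))))))) (.g (nat_lit 8) .nil .nil))) 
(.lf (nat_lit 203065) (.g (nat_lit 2322) (.e (nat_lit 73755) (nat_lit 8) (.e (nat_lit 557091) (nat_lit 12) (.e (nat_lit 164238) (nat_lit 187) (.e (nat_lit 1660) (nat_lit 115) (.e (nat_lit 393253) (nat_lit 18) (.e (nat_lit 164163) (nat_lit 152) (.e (nat_lit 1210) (nat_lit 89) .nil))))))) (.g (nat_lit 4) .nil .nil)))))) (.nd (nat_lit 3) (.nd (nat_lit 4) (.nd (nat_lit 5) 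
(.lf (nat_lit 203013) (.g (nat_lit 480) (.e (nat_lit 73755) (nat_lit 8) (.e (nat_lit 557090) (nat_lit 12) (.e (nat_lit 164238) (nat_lit 187) .nil))) .nil)) 
(.lf (nat_lit 203045) (.g (nat_lit 2635) (.e (nat_lit 73755) (nat_lit 8) (.e (nat_lit 557091) (nat_lit 12) (.e (nat_lit 164238) (nat_lit 187) (.e (nat_lit 1428) (nat_lit 108) (.e (nat_lit 336425) (nat_lit 28) (.e (nat_lit 434285) (nat_lit 42) (.e (nat_lit 688181) (nat_lit 17) .nil))))))) (.g (nat_lit 4) .nil .nil)))) (.nd (nat_lit 5) 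
(.lf (nat_lit 203029) (.g (nat_lit 3349) (.e (nat_lit 73755) (nat_lit 8) (.e (nat_lit 557090) (nat_lit 12) (.e (nat_lit 171776) (nat_lit 192) (.e (nat_lit 73731) (nat_lit 0) (.e (nat_lit 7265) (nat_lit 384) (.e (nat_lit 57347) (nat_lit 0) (.e (nat_lit 2032) (nat_lit 140) (.e (nat_lit 688182) (nat_lit 17) .nil)))))))) (.g (nat_lit 6) .nil .nil))) 
(.lf (nat_lit 203061) (.g (nat_lit 1976) (.e (nat_lit 73755) (nat_lit 8) (.e (nat_lit 557091) (nat_lit 12) (.e (nat_lit 164238) (nat_lit 187) (.e (nat_lit 1660) (nat_lit 115) (.e (nat_lit 393253) (nat_lit 18) (.e (nat_lit 164153) (nat_lit 152) (.e (nat_lit 1213) (nat_lit 89) .nil))))))) (.g (nat_lit 4) .nil .nil))))) (.nd (nat_lit 4) (.nd (nat_lit 5) 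
(.lf (nat_lit 203021) (.g (nat_lit 3037) (.e (nat_lit 73755) (nat_lit 8) (.e (nat_lit 557090) (nat_lit 12) (.e (nat_lit 164238) (nat_lit 187) (.e (nat_lit 1661) (nat_lit 115) (.e (nat_lit 393251) (nat_lit 18) (.e (nat_lit 164147) (nat_lit 152) (.e (nat_lit 1211) (nat_lit 89) .nil))))))) (.g (nat_lit 4) .nil .nil))) 
(.lf (nat_lit 203053) (.g (nat_lit 2302) (.e (nat_lit 73755) (nat_lit 8) (.e (nat_lit 557091) (nat_lit 12) (.e (nat_lit 164238) (nat_lit 187) (.e (nat_lit 1659) (nat_lit 115) (.e (nat_lit 393253) (nat_lit 18) (.e (nat_lit 164150) (nat_lit 152) (.e (nat_lit 1206) (nat_lit 89) .nil))))))) (.g (nat_lit 4) .nil .nil)))) (.nd (nat_lit 5) 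
(.lf (nat_lit 203037) (.g (nat_lit 230) (.e (nat_lit 73755) (nat_lit 8) (.e (nat_lit 557091) (nat_lit 12) (.e (nat_lit 164238) (nat_lit 187) .nil))) .nil)) 
(.lf (nat_lit 203069) (.g (nat_lit 2851) (.e (nat_lit 73755) (nat_lit 8) (.e (nat_lit 557091) (nat_lit 12) (.e (nat_lit 164238) (nat_lit 187) (.e (nat_lit 1661) (nat_lit 115) (.e (nat_lit 393231) (nat_lit 17) (.e (nat_lit 3461) (nat_lit 216) (.e (nat_lit 688182) (nat_lit 17) .nil))))))) (.g (nat_lit 4) .nil .nil))))))) (.nd (nat_lit 2) (.nd (nat_lit 3) (.nd (nat_lit 4) (.nd (nat_lit 5) 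
(.lf (nat_lit 203011) (.g (nat_lit 1176) (.e (nat_lit 73755) (nat_lit 8) (.e (nat_lit 557090) (nat_lit 12) (.e (nat_lit 164219) (nat_lit 180) (.e (nat_lit 229646) (nat_lit 232) .nil)))) .nil)) 
(.lf (nat_lit 203043) (.g (nat_lit 2489) (.e (nat_lit 73755) (nat_lit 8) (.e (nat_lit 557091) (nat_lit 12) (.e (nat_lit 164238) (nat_lit 187) (.e (nat_lit 1427) (nat_lit 108) (.e (nat_lit 336438) (nat_lit 31) (.e (nat_lit 458809) (nat_lit 42) (.e (nat_lit 688182) (nat_lit 17) .nil))))))) (.g (nat_lit 4) .nil .nil)))) (.nd (nat_lit 5) 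
(.lf (nat_lit 203027) (.g (nat_lit 4028) (.e (nat_lit 73755) (nat_lit 8) (.e (nat_lit 557090) (nat_lit 12) (.e (nat_lit 171776) (nat_lit 192) (.e (nat_lit 73729) (nat_lit 0) (.e (nat_lit 7265) (nat_lit 384) (.e (nat_lit 57347) (nat_lit 0) (.e (nat_lit 2031) (nat_lit 140) (.e (nat_lit 688182) (nat_lit 17) .nil)))))))) (.g (nat_lit 6) .nil .nil))) 
(.lf (nat_lit 203059) (.g (nat_lit 1404) (.e (nat_lit 73755) (nat_lit 8) (.e (nat_lit 557091) (nat_lit 12) (.e (nat_lit 164238) (nat_lit 187) (.e (nat_lit 1660) (nat_lit 115) (.e (nat_lit 393253) (nat_lit 18) .nil))))) .nil)))) (.nd (nat_lit 4) (.nd (nat_lit 5) 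
(.lf (nat_lit 203019) (.g (nat_lit 3196) (.e (nat_lit 73755) (nat_lit 8) (.e (nat_lit 557090) (nat_lit 12) (.e (nat_lit 164238) (nat_lit 187) (.e (nat_lit 1661) (nat_lit 115) (.e (nat_lit 393242) (nat_lit 17) (.e (nat_lit 3452) (nat_lit 216) (.e (nat_lit 688182) (nat_lit 17) .nil))))))) (.g (nat_lit 4) .nil .nil))) 
(.lf (nat_lit 203051) (.g (nat_lit 2645) (.e (nat_lit 73755) (nat_lit 8) (.e (nat_lit 557091) (nat_lit 12) (.e (nat_lit 164238) (nat_lit 187) (.e (nat_lit 1659) (nat_lit 115) (.e (nat_lit 393237) (nat_lit 17) (.e (nat_lit 3454) (nat_lit 216) (.e (nat_lit 688182) (nat_lit 17) .nil))))))) (.g (nat_lit 4) .nil .nil)))) (.nd (nat_lit 5) 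
(.lf (nat_lit 203035) (.g (nat_lit 761) (.e (nat_lit 73755) (nat_lit 8) (.e (nat_lit 557091) (nat_lit 12) (.e (nat_lit 164213) (nat_lit 176) (.e (nat_lit 2789) (nat_lit 179) (.e (nat_lit 294973) (nat_lit 28) .nil))))) .nil)) 
(.lf (nat_lit 203067) (.g (nat_lit 2440) (.e (nat_lit 73755) (nat_lit 8) (.e (nat_lit 557091) (nat_lit 12) (.e (nat_lit 164238) (nat_lit 187) (.e (nat_lit 1661) (nat_lit 115) (.e (nat_lit 393231) (nat_lit 17) (.e (nat_lit 3454) (nat_lit 216) (.e (nat_lit 688181) (nat_lit 17) .nil))))))) (.g (nat_lit 4) .nil .nil)))))) (.nd (nat_lit 3) (.nd (nat_lit 4) (.nd (nat_lit 5) 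
(.lf (nat_lit 203015) (.g (nat_lit 3254) (.e (nat_lit 73755) (nat_lit 8) (.e (nat_lit 557090) (nat_lit 12) (.e (nat_lit 164238) (nat_lit 187) (.e (nat_lit 1427) (nat_lit 108) (.e (nat_lit 336421) (nat_lit 28) (.e (nat_lit 434285) (nat_lit 42) (.e (nat_lit 688181) (nat_lit 17) .nil))))))) (.g (nat_lit 4) .nil .nil))) 
(.lf (nat_lit 203047) (.g (nat_lit 2456) (.e (nat_lit 73755) (nat_lit 8) (.e (nat_lit 557091) (nat_lit 12) (.e (nat_lit 164238) (nat_lit 187) (.e (nat_lit 1658) (nat_lit 115) (.e (nat_lit 393253) (nat_lit 18) (.e (nat_lit 164162) (nat_lit 152) (.e (nat_lit 1210) (nat_lit 89) .nil))))))) (.g (nat_lit 5) .nil .nil)))) (.nd (nat_lit 5) 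
(.lf (nat_lit 203031) (.g (nat_lit 946) (.e (nat_lit 73755) (nat_lit 8) (.e (nat_lit 557091) (nat_lit 12) (.e (nat_lit 163999) (nat_lit 38) (.e (nat_lit 639017) (nat_lit 15) .nil)))) .nil)) 
(.lf (nat_lit 203063) (.g (nat_lit 2224) (.e (nat_lit 73755) (nat_lit 8) (.e (nat_lit 557091) (nat_lit 12) (.e (nat_lit 164238) (nat_lit 187) (.e (nat_lit 1660) (nat_lit 115) (.e (nat_lit 393253) (nat_lit 18) (.e (nat_lit 164161) (nat_lit 152) (.e (nat_lit 1208) (nat_lit 89) .nil))))))) (.g (nat_lit 4) .nil .nil))))) (.nd (nat_lit 4) (.nd (nat_lit 5) 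
(.lf (nat_lit 203023) (.g (nat_lit 3192) (.e (nat_lit 73755) (nat_lit 8) (.e (nat_lit 557090) (nat_lit 12) (.e (nat_lit 164238) (nat_lit 187) (.e (nat_lit 1661) (nat_lit 115) (.e (nat_lit 393251) (nat_lit 18) (.e (nat_lit 164161) (nat_lit 152) (.e (nat_lit 1208) (nat_lit 89) .nil))))))) (.g (nat_lit 4) .nil .nil))) 
(.lf (nat_lit 203055) (.g (nat_lit 3319) (.e (nat_lit 73755) (nat_lit 8) (.e (nat_lit 557091) (nat_lit 12) (.e (nat_lit 164238) (nat_lit 187) (.e (nat_lit 1659) (nat_lit 115) (.e (nat_lit 393253) (nat_lit 18) (.e (nat_lit 164162) (nat_lit 152) (.e (nat_lit 1210) (nat_lit 89) .nil))))))) (.g (nat_lit 5) .nil .nil)))) (.nd (nat_lit 5) 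
(.lf (nat_lit 203039) (.g (nat_lit 4071) (.e (nat_lit 73755) (nat_lit 8) (.e (nat_lit 557091) (nat_lit 12) (.e (nat_lit 164238) (nat_lit 187) (.e (nat_lit 1427) (nat_lit 108) (.e (nat_lit 336421) (nat_lit 28) (.e (nat_lit 434285) (nat_lit 42) (.e (nat_lit 688182) (nat_lit 17) .nil))))))) (.g (nat_lit 5) .nil .nil))) 
(.lf (nat_lit 203071) (.g (nat_lit 1956) (.e (nat_lit 73755) (nat_lit 8) (.e (nat_lit 557091) (nat_lit 12) (.e (nat_lit 164238) (nat_lit 187) (.e (nat_lit 1661) (nat_lit 115) (.e (nat_lit 393239) (nat_lit 17) .nil))))) .nil))))))))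

noncomputable def tv2681 : DT := (.nd (nat_lit 0) (.nd (nat_lit 1) (.nd (nat_lit 2) (.nd (nat_lit 3) (.nd (nat_lit 4) (.nd (nat_lit 5) 
(.lf (nat_lit 203072) (.g (nat_lit 2996) (.e (nat_lit 73755) (nat_lit 8) (.e (nat_lit 557091) (nat_lit 12) (.e (nat_lit 164238) (nat_lit 187) (.e (nat_lit 1661) (nat_lit 115) (.e (nat_lit 393239) (nat_lit 17) (.e (nat_lit 3453) (nat_lit 216) (.e (nat_lit 688182) (nat_lit 17) .nil))))))) (.g (nat_lit 4) .nil .nil))) 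
(.lf (nat_lit 203104) (.g (nat_lit 2443) (.e (nat_lit 73755) (nat_lit 8) (.e (nat_lit 557096) (nat_lit 13) (.e (nat_lit 172133) (nat_lit 15) (.e (nat_lit 2059) (nat_lit 142) (.e (nat_lit 704596) (nat_lit 5) (.e (nat_lit 180228) (nat_lit 0) (.e (nat_lit 6306) (nat_lit 337) (.e (nat_lit 1211) (nat_lit 89) .nil)))))))) (.g (nat_lit 4) .nil .nil)))) (.nd (nat_lit 5) 
(.lf (nat_lit 203088) (.g (nat_lit 2522) (.e (nat_lit 73755) (nat_lit 8) (.e (nat_lit 557091) (nat_lit 12) (.e (nat_lit 164238) (nat_lit 187) (.e (nat_lit 1661) (nat_lit 115) (.e (nat_lit 393251) (nat_lit 18) (.e (nat_lit 164167) (nat_lit 152) (.e (nat_lit 1208) (nat_lit 89) .nil))))))) (.g (nat_lit 4) .nil .nil))) 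
(.lf (nat_lit 203120) (.g (nat_lit 3147) (.e (nat_lit 73755) (nat_lit 8) (.e (nat_lit 557097) (nat_lit 13) (.e (nat_lit 172133) (nat_lit 15) (.e (nat_lit 2175) (nat_lit 143) (.e (nat_lit 712747) (nat_lit 28) (.e (nat_lit 434286) (nat_lit 42) (.e (nat_lit 688179) (nat_lit 17) .nil))))))) (.g (nat_lit 6) .nil .nil))))) (.nd (nat_lit 4) (.nd (nat_lit 5) 
(.lf (nat_lit 203080) (.g (nat_lit 2126) (.e (nat_lit 73755) (nat_lit 8) (.e (nat_lit 557091) (nat_lit 12) (.e (nat_lit 164238) (nat_lit 187) (.e (nat_lit 1661) (nat_lit 115) (.e (nat_lit 393251) (nat_lit 18) (.e (nat_lit 164153) (nat_lit 152) (.e (nat_lit 7936) (nat_lit 89) .nil))))))) (.g (nat_lit 4) .nil .nil))) 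
(.lf (nat_lit 203112) (.g (nat_lit 816) (.e (nat_lit 73755) (nat_lit 8) (.e (nat_lit 557097) (nat_lit 13) (.e (nat_lit 172064) (nat_lit 2) (.e (nat_lit 204544) (nat_lit 0) .nil)))) .nil))) (.nd (nat_lit 5) 
(.lf (nat_lit 203096) (.g (nat_lit 2410) (.e (nat_lit 73755) (nat_lit 8) (.e (nat_lit 557091) (nat_lit 12) (.e (nat_lit 164238) (nat_lit 187) (.e (nat_lit 1661) (nat_lit 115) (.e (nat_lit 393252) (nat_lit 18) (.e (nat_lit 164170) (nat_lit 152) (.e (nat_lit 1208) (nat_lit 89) .nil))))))) (.g (nat_lit 4) .nil .nil))) 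
(.lf (nat_lit 203128) (.g (nat_lit 2431) (.e (nat_lit 73755) (nat_lit 8) (.e (nat_lit 557098) (nat_lit 13) (.e (nat_lit 172061) (nat_lit 1) (.e (nat_lit 164327) (nat_lit 230) (.e (nat_lit 163886) (nat_lit 5) (.e (nat_lit 221208) (nat_lit 21) (.e (nat_lit 164305) (nat_lit 226) (.e (nat_lit 7936) (nat_lit 89) .nil)))))))) (.g (nat_lit 4) .nil .nil)))))) 
(.nd (nat_lit 3) (.nd (nat_lit 4) (.nd (nat_lit 5) 
(.lf (nat_lit 203076) (.g (nat_lit 3317) (.e (nat_lit 73755) (nat_lit 8) (.e (nat_lit 557091) (nat_lit 12) (.e (nat_lit 164238) (nat_lit 187) (.e (nat_lit 1661) (nat_lit 115) (.e (nat_lit 393251) (nat_lit 18) (.e (nat_lit 164148) (nat_lit 152) (.e (nat_lit 1208) (nat_lit 89) .nil))))))) (.g (nat_lit 5) .nil .nil))) 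
(.lf (nat_lit 203108) (.g (nat_lit 2546) (.e (nat_lit 73755) (nat_lit 8) (.e (nat_lit 557096) (nat_lit 13) (.e (nat_lit 172133) (nat_lit 15) (.e (nat_lit 2175) (nat_lit 143) (.e (nat_lit 712749) (nat_lit 28) (.e (nat_lit 434285) (nat_lit 42) (.e (nat_lit 688181) (nat_lit 17) .nil))))))) (.g (nat_lit 5) .nil .nil)))) (.nd (nat_lit 5) 
(.lf (nat_lit 203092) (.g (nat_lit 3164) (.e (nat_lit 73755) (nat_lit 8) (.e (nat_lit 557091) (nat_lit 12) (.e (nat_lit 164238) (nat_lit 187) (.e (nat_lit 1661) (nat_lit 115) (.e (nat_lit 393252) (nat_lit 18) (.e (nat_lit 164164) (nat_lit 152) (.e (nat_lit 1208) (nat_lit 89) .nil))))))) (.g (nat_lit 5) .nil .nil))) 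
(.lf (nat_lit 203124) (.g (nat_lit 383) (.e (nat_lit 73755) (nat_lit 8) (.e (nat_lit 557098) (nat_lit 13) (.e (nat_lit 172051) (nat_lit 0) .nil))) .nil)))) (.nd (nat_lit 4) (.nd (nat_lit 5) 
(.lf (nat_lit 203084) (.g (nat_lit 3250) (.e (nat_lit 73755) (nat_lit 8) (.e (nat_lit 557091) (nat_lit 12) (.e (nat_lit 164238) (nat_lit 187) (.e (nat_lit 1661) (nat_lit 115) (.e (nat_lit 393251) (nat_lit 18) (.e (nat_lit 164160) (nat_lit 152) (.e (nat_lit 1208) (nat_lit 89) .nil))))))) (.g (nat_lit 5) .nil .nil))) 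
(.lf (nat_lit 203116) (.g (nat_lit 1405) (.e (nat_lit 73755) (nat_lit 8) (.e (nat_lit 557097) (nat_lit 13) (.e (nat_lit 172067) (nat_lit 3) (.e (nat_lit 204809) (nat_lit 9) .nil)))) .nil))) (.nd (nat_lit 5) 
(.lf (nat_lit 203100) (.g (nat_lit 3229) (.e (nat_lit 73755) (nat_lit 8) (.e (nat_lit 557091) (nat_lit 12) (.e (nat_lit 164238) (nat_lit 187) (.e (nat_lit 1661) (nat_lit 115) (.e (nat_lit 393253) (nat_lit 18) (.e (nat_lit 164162) (nat_lit 152) (.e (nat_lit 1210) (nat_lit 89) .nil))))))) (.g (nat_lit 5) .nil .nil))) 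
(.lf (nat_lit 203132) (.g (nat_lit 3500) (.e (nat_lit 73755) (nat_lit 8) (.e (nat_lit 557098) (nat_lit 13) (.e (nat_lit 172062) (nat_lit 2) (.e (nat_lit 196656) (nat_lit 11) (.e (nat_lit 16392) (nat_lit 0) (.e (nat_lit 3281) (nat_lit 200) (.e (nat_lit 564992) (nat_lit 5) .nil))))))) (.g (nat_lit 5) .nil .nil))))))) (.nd (nat_lit 2) (.nd (nat_lit 3) (.nd (nat_lit 4) (.nd (nat_lit 5) 
(.lf (nat_lit 203074) (.g (nat_lit 1726) (.e (nat_lit 73755) (nat_lit 8) (.e (nat_lit 557091) (nat_lit 12) (.e (nat_lit 164238) (nat_lit 187) (.e (nat_lit 1661) (nat_lit 115) (.e (nat_lit 393251) (nat_lit 18) .nil))))) .nil)) 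
(.lf (nat_lit 203106) (.g (nat_lit 1369) (.e (nat_lit 73755) (nat_lit 8) (.e (nat_lit 557096) (nat_lit 13) (.e (nat_lit 172133) (nat_lit 15) (.e (nat_lit 2175) (nat_lit 143) (.e (nat_lit 712745) (nat_lit 27) .nil))))) .nil))) (.nd (nat_lit 5) 
(.lf (nat_lit 203090) (.g (nat_lit 2617) (.e (nat_lit 73755) (nat_lit 8) (.e (nat_lit 557091) (nat_lit 12) (.e (nat_lit 164238) (nat_lit 187) (.e (nat_lit 1661) (nat_lit 115) (.e (nat_lit 393252) (nat_lit 18) (.e (nat_lit 164160) (nat_lit 152) (.e (nat_lit 1208) (nat_lit 89) .nil))))))) (.g (nat_lit 4) .nil .nil))) 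
(.lf (nat_lit 203122) (.g (nat_lit 785) (.e (nat_lit 73755) (nat_lit 8) (.e (nat_lit 557098) (nat_lit 13) (.e (nat_lit 172040) (nat_lit 0) .nil))) .nil)))) (.nd (nat_lit 4) (.nd (nat_lit 5) 
(.lf (nat_lit 203082) (.g (nat_lit 2854) (.e (nat_lit 73755) (nat_lit 8) (.e (nat_lit 557091) (nat_lit 12) (.e (nat_lit 164238) (nat_lit 187) (.e (nat_lit 1661) (nat_lit 115) (.e (nat_lit 393251) (nat_lit 18) (.e (nat_lit 164155) (nat_lit 152) (.e (nat_lit 1208) (nat_lit 89) .nil))))))) (.g (nat_lit 5) .nil .nil))) 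
(.lf (nat_lit 203114) (.g (nat_lit 1962) (.e (nat_lit 73755) (nat_lit 8) (.e (nat_lit 557097) (nat_lit 13) (.e (nat_lit 172064) (nat_lit 2) (.e (nat_lit 196656) (nat_lit 11) (.e (nat_lit 16392) (nat_lit 0) .nil))))) .nil))) (.nd (nat_lit 5) 
(.lf (nat_lit 203098) (.g (nat_lit 2269) (.e (nat_lit 73755) (nat_lit 8) (.e (nat_lit 557091) (nat_lit 12) (.e (nat_lit 164238) (nat_lit 187) (.e (nat_lit 1661) (nat_lit 115) (.e (nat_lit 393253) (nat_lit 18) (.e (nat_lit 164150) (nat_lit 152) (.e (nat_lit 1206) (nat_lit 89) .nil))))))) (.g (nat_lit 4) .nil .nil))) 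
(.lf (nat_lit 203130) (.g (nat_lit 2080) (.e (nat_lit 73755) (nat_lit 8) (.e (nat_lit 557098) (nat_lit 13) (.e (nat_lit 172062) (nat_lit 2) (.e (nat_lit 196630) (nat_lit 9) (.e (nat_lit 1312) (nat_lit 98) (.e (nat_lit 155392) (nat_lit 0) (.e (nat_lit 1239) (nat_lit 91) (.e (nat_lit 98048) (nat_lit 5) .nil)))))))) (.g (nat_lit 4) .nil .nil)))))) (.nd (nat_lit 3) (.nd (nat_lit 4) (.nd (nat_lit 5) 
(.lf (nat_lit 203078) (.g (nat_lit 2999) (.e (nat_lit 73755) (nat_lit 8) (.e (nat_lit 557091) (nat_lit 12) (.e (nat_lit 164238) (nat_lit 187) (.e (nat_lit 1661) (nat_lit 115) (.e (nat_lit 393251) (nat_lit 18) (.e (nat_lit 164152) (nat_lit 152) (.e (nat_lit 1213) (nat_lit 89) .nil))))))) (.g (nat_lit 5) .nil .nil))) 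
(.lf (nat_lit 203110) (.g (nat_lit 204) (.e (nat_lit 73755) (nat_lit 8) (.e (nat_lit 557096) (nat_lit 13) (.e (nat_lit 172142) (nat_lit 24) .nil))) .nil))) (.nd (nat_lit 5) 
(.lf (nat_lit 203094) (.g (nat_lit 2517) (.e (nat_lit 73755) (nat_lit 8) (.e (nat_lit 557091) (nat_lit 12) (.e (nat_lit 164238) (nat_lit 187) (.e (nat_lit 1661) (nat_lit 115) (.e (nat_lit 393252) (nat_lit 18) (.e (nat_lit 164166) (nat_lit 152) (.e (nat_lit 1208) (nat_lit 89) .nil))))))) (.g (nat_lit 4) .nil .nil))) 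
(.lf (nat_lit 203126) (.g (nat_lit 623) (.e (nat_lit 73755) (nat_lit 8) (.e (nat_lit 557098) (nat_lit 13) (.e (nat_lit 172061) (nat_lit 1) .nil))) .nil)))) (.nd (nat_lit 4) (.nd (nat_lit 5) 
(.lf (nat_lit 203086) (.g (nat_lit 3173) (.e (nat_lit 73755) (nat_lit 8) (.e (nat_lit 557091) (nat_lit 12) (.e (nat_lit 164238) (nat_lit 187) (.e (nat_lit 1661) (nat_lit 115) (.e (nat_lit 393251) (nat_lit 18) (.e (nat_lit 164161) (nat_lit 152) (.e (nat_lit 7936) (nat_lit 89) .nil))))))) (.g (nat_lit 6) .nil .nil))) 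
(.lf (nat_lit 203118) (.g (nat_lit 2779) (.e (nat_lit 73755) (nat_lit 8) (.e (nat_lit 557097) (nat_lit 13) (.e (nat_lit 172133) (nat_lit 15) (.e (nat_lit 2059) (nat_lit 142) (.e (nat_lit 704595) (nat_lit 5) (.e (nat_lit 180229) (nat_lit 0) (.e (nat_lit 6277) (nat_lit 337) (.e (nat_lit 1213) (nat_lit 89) .nil)))))))) (.g (nat_lit 4) .nil .nil)))) (.nd (nat_lit 5) 
(.lf (nat_lit 203102) (.g (nat_lit 3964) (.e (nat_lit 73755) (nat_lit 8) (.e (nat_lit 557096) (nat_lit 13) (.e (nat_lit 172133) (nat_lit 15) (.e (nat_lit 2059) (nat_lit 142) (.e (nat_lit 704595) (nat_lit 5) (.e (nat_lit 180268) (nat_lit 24) (.e (nat_lit 688181) (nat_lit 17) .nil))))))) (.g (nat_lit 5) .nil .nil))) 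
(.lf (nat_lit 203134) (.g (nat_lit 2332) (.e (nat_lit 73755) (nat_lit 8) (.e (nat_lit 557098) (nat_lit 13) (.e (nat_lit 172062) (nat_lit 2) (.e (nat_lit 196661) (nat_lit 12) (.e (nat_lit 57575) (nat_lit 55) (.e (nat_lit 786176) (nat_lit 0) (.e (nat_lit 1239) (nat_lit 91) (.e (nat_lit 98048) (nat_lit 5) .nil)))))))) (.g (nat_lit 5) .nil .nil)))))))) 
(.nd (nat_lit 1) (.nd (nat_lit 2) (.nd (nat_lit 3) (.nd (nat_lit 4) (.nd (nat_lit 5) 
(.lf (nat_lit 203073) (.g (nat_lit 1965) (.e (nat_lit 73755) (nat_lit 8) (.e (nat_lit 557091) (nat_lit 12) (.e (nat_lit 164238) (nat_lit 187) (.e (nat_lit 1661) (nat_lit 115) (.e (nat_lit 393250) (nat_lit 18) .nil))))) .nil)) 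
(.lf (nat_lit 203105) (.g (nat_lit 3319) (.e (nat_lit 73755) (nat_lit 8) (.e (nat_lit 557096) (nat_lit 13) (.e (nat_lit 172133) (nat_lit 15) (.e (nat_lit 2059) (nat_lit 142) (.e (nat_lit 704596) (nat_lit 5) (.e (nat_lit 180268) (nat_lit 24) (.e (nat_lit 688181) (nat_lit 17) .nil))))))) (.g (nat_lit 5) .nil .nil)))) (.nd (nat_lit 5) 
(.lf (nat_lit 203089) (.g (nat_lit 2288) (.e (nat_lit 73755) (nat_lit 8) (.e (nat_lit 557091) (nat_lit 12) (.e (nat_lit 164238) (nat_lit 187) (.e (nat_lit 1661) (nat_lit 115) (.e (nat_lit 393252) (nat_lit 18) (.e (nat_lit 164147) (nat_lit 152) (.e (nat_lit 1210) (nat_lit 89) .nil))))))) (.g (nat_lit 4) .nil .nil))) 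
(.lf (nat_lit 203121) (.g (nat_lit 2654) (.e (nat_lit 73755) (nat_lit 8) (.e (nat_lit 557097) (nat_lit 13) (.e (nat_lit 172133) (nat_lit 15) (.e (nat_lit 2175) (nat_lit 143) (.e (nat_lit 712749) (nat_lit 28) (.e (nat_lit 434286) (nat_lit 42) (.e (nat_lit 688179) (nat_lit 17) .nil))))))) (.g (nat_lit 5) .nil .nil))))) (.nd (nat_lit 4) (.nd (nat_lit 5) 
(.lf (nat_lit 203081) (.g (nat_lit 2496) (.e (nat_lit 73755) (nat_lit 8) (.e (nat_lit 557091) (nat_lit 12) (.e (nat_lit 164238) (nat_lit 187) (.e (nat_lit 1661) (nat_lit 115) (.e (nat_lit 393251) (nat_lit 18) (.e (nat_lit 164154) (nat_lit 152) (.e (nat_lit 1213) (nat_lit 89) .nil))))))) (.g (nat_lit 4) .nil .nil))) 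
(.lf (nat_lit 203113) (.g (nat_lit 816) (.e (nat_lit 73755) (nat_lit 8) (.e (nat_lit 557097) (nat_lit 13) (.e (nat_lit 172064) (nat_lit 2) (.e (nat_lit 204544) (nat_lit 2) .nil)))) .nil))) (.nd (nat_lit 5) 
(.lf (nat_lit 203097) (.g (nat_lit 1869) (.e (nat_lit 73755) (nat_lit 8) (.e (nat_lit 557091) (nat_lit 12) (.e (nat_lit 164238) (nat_lit 187) (.e (nat_lit 1661) (nat_lit 115) (.e (nat_lit 393253) (nat_lit 18) .nil))))) .nil)) 
(.lf (nat_lit 203129) (.g (nat_lit 2083) (.e (nat_lit 73755) (nat_lit 8) (.e (nat_lit 557098) (nat_lit 13) (.e (nat_lit 172061) (nat_lit 1) (.e (nat_lit 164327) (nat_lit 230) (.e (nat_lit 163886) (nat_lit 5) (.e (nat_lit 221208) (nat_lit 21) (.e (nat_lit 164312) (nat_lit 226) (.e (nat_lit 7936) (nat_lit 89) .nil)))))))) (.g (nat_lit 4) .nil .nil)))))) 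
(.nd (nat_lit 3) (.nd (nat_lit 4) (.nd (nat_lit 5) 
(.lf (nat_lit 203077) (.g (nat_lit 3686) (.e (nat_lit 73755) (nat_lit 8) (.e (nat_lit 557091) (nat_lit 12) (.e (nat_lit 164238) (nat_lit 187) (.e (nat_lit 1661) (nat_lit 115) (.e (nat_lit 393251) (nat_lit 18) (.e (nat_lit 164148) (nat_lit 152) (.e (nat_lit 1213) (nat_lit 89) .nil))))))) (.g (nat_lit 6) .nil .nil))) 
(.lf (nat_lit 203109) (.g (nat_lit 2267) (.e (nat_lit 73755) (nat_lit 8) (.e (nat_lit 557096) (nat_lit 13) (.e (nat_lit 172133) (nat_lit 15) (.e (nat_lit 2175) (nat_lit 143) (.e (nat_lit 712749) (nat_lit 28) (.e (nat_lit 434286) (nat_lit 42) (.e (nat_lit 688179) (nat_lit 17) .nil))))))) (.g (nat_lit 4) .nil .nil)))) (.nd (nat_lit 5) 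
(.lf (nat_lit 203093) (.g (nat_lit 3548) (.e (nat_lit 73755) (nat_lit 8) (.e (nat_lit 557091) (nat_lit 12) (.e (nat_lit 164238) (nat_lit 187) (.e (nat_lit 1661) (nat_lit 115) (.e (nat_lit 393252) (nat_lit 18) (.e (nat_lit 164165) (nat_lit 152) (.e (nat_lit 1208) (nat_lit 89) .nil))))))) (.g (nat_lit 5) .nil .nil))) 
(.lf (nat_lit 203125) (.g (nat_lit 1786) (.e (nat_lit 73755) (nat_lit 8) (.e (nat_lit 557098) (nat_lit 13) (.e (nat_lit 172059) (nat_lit 1) (.e (nat_lit 164327) (nat_lit 230) (.e (nat_lit 163886) (nat_lit 5) .nil))))) .nil)))) (.nd (nat_lit 4) (.nd (nat_lit 5) 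
(.lf (nat_lit 203085) (.g (nat_lit 2770) (.e (nat_lit 73755) (nat_lit 8) (.e (nat_lit 557091) (nat_lit 12) (.e (nat_lit 164238) (nat_lit 187) (.e (nat_lit 1661) (nat_lit 115) (.e (nat_lit 393251) (nat_lit 18) (.e (nat_lit 164160) (nat_lit 152) (.e (nat_lit 7936) (nat_lit 89) .nil))))))) (.g (nat_lit 5) .nil .nil))) 
(.lf (nat_lit 203117) (.g (nat_lit 2856) (.e (nat_lit 73755) (nat_lit 8) (.e (nat_lit 557097) (nat_lit 13) (.e (nat_lit 172133) (nat_lit 15) (.e (nat_lit 2059) (nat_lit 142) (.e (nat_lit 704595) (nat_lit 5) (.e (nat_lit 180229) (nat_lit 0) (.e (nat_lit 6270) (nat_lit 337) (.e (nat_lit 1207) (nat_lit 89) .nil)))))))) (.g (nat_lit 4) .nil .nil)))) (.nd (nat_lit 5) 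
(.lf (nat_lit 203101) (.g (nat_lit 3557) (.e (nat_lit 73755) (nat_lit 8) (.e (nat_lit 557091) (nat_lit 12) (.e (nat_lit 164238) (nat_lit 187) (.e (nat_lit 1661) (nat_lit 115) (.e (nat_lit 393253) (nat_lit 18) (.e (nat_lit 164163) (nat_lit 152) (.e (nat_lit 1211) (nat_lit 89) .nil))))))) (.g (nat_lit 5) .nil .nil))) 
(.lf (nat_lit 203133) (.g (nat_lit 3515) (.e (nat_lit 73755) (nat_lit 8) (.e (nat_lit 557098) (nat_lit 13) (.e (nat_lit 172062) (nat_lit 2) (.e (nat_lit 196656) (nat_lit 11) (.e (nat_lit 16397) (nat_lit 0) (.e (nat_lit 3289) (nat_lit 201) (.e (nat_lit 565268) (nat_lit 5) .nil))))))) (.g (nat_lit 4) .nil .nil))))))) (.nd (nat_lit 2) (.nd (nat_lit 3) (.nd (nat_lit 4) (.nd (nat_lit 5) 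
(.lf (nat_lit 203075) (.g (nat_lit 2125) (.e (nat_lit 73755) (nat_lit 8) (.e (nat_lit 557091) (nat_lit 12) (.e (nat_lit 164238) (nat_lit 187) (.e (nat_lit 1661) (nat_lit 115) (.e (nat_lit 393251) (nat_lit 18) (.e (nat_lit 164147) (nat_lit 152) (.e (nat_lit 1210) (nat_lit 89) .nil))))))) (.g (nat_lit 4) .nil .nil))) 
(.lf (nat_lit 203107) (.g (nat_lit 2734) (.e (nat_lit 73755) (nat_lit 8) (.e (nat_lit 557096) (nat_lit 13) (.e (nat_lit 172133) (nat_lit 15) (.e (nat_lit 2175) (nat_lit 143) (.e (nat_lit 712747) (nat_lit 28) (.e (nat_lit 434286) (nat_lit 42) (.e (nat_lit 688179) (nat_lit 17) .nil))))))) (.g (nat_lit 5) .nil .nil)))) (.nd (nat_lit 5) 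
(.lf (nat_lit 203091) (.g (nat_lit 3358) (.e (nat_lit 73755) (nat_lit 8) (.e (nat_lit 557091) (nat_lit 12) (.e (nat_lit 164238) (nat_lit 187) (.e (nat_lit 1661) (nat_lit 115) (.e (nat_lit 393252) (nat_lit 18) (.e (nat_lit 164161) (nat_lit 152) (.e (nat_lit 7936) (nat_lit 89) .nil))))))) (.g (nat_lit 6) .nil .nil))) 
(.lf (nat_lit 203123) (.g (nat_lit 776) (.e (nat_lit 73755) (nat_lit 8) (.e (nat_lit 557098) (nat_lit 13) (.e (nat_lit 172048) (nat_lit 0) .nil))) .nil)))) (.nd (nat_lit 4) (.nd (nat_lit 5) 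
(.lf (nat_lit 203083) (.g (nat_lit 3450) (.e (nat_lit 73755) (nat_lit 8) (.e (nat_lit 557091) (nat_lit 12) (.e (nat_lit 164238) (nat_lit 187) (.e (nat_lit 1661) (nat_lit 115) (.e (nat_lit 393251) (nat_lit 18) (.e (nat_lit 164155) (nat_lit 152) (.e (nat_lit 1213) (nat_lit 89) .nil))))))) (.g (nat_lit 5) .nil .nil))) 
(.lf (nat_lit 203115) (.g (nat_lit 2530) (.e (nat_lit 73755) (nat_lit 8) (.e (nat_lit 557097) (nat_lit 13) (.e (nat_lit 172064) (nat_lit 2) (.e (nat_lit 196656) (nat_lit 11) (.e (nat_lit 16397) (nat_lit 0) .nil))))) .nil))) (.nd (nat_lit 5) 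
(.lf (nat_lit 203099) (.g (nat_lit 3848) (.e (nat_lit 73755) (nat_lit 8) (.e (nat_lit 557091) (nat_lit 12) (.e (nat_lit 164238) (nat_lit 187) (.e (nat_lit 1661) (nat_lit 115) (.e (nat_lit 393253) (nat_lit 18) (.e (nat_lit 164150) (nat_lit 152) (.e (nat_lit 1207) (nat_lit 89) .nil))))))) (.g (nat_lit 6) .nil .nil))) 
(.lf (nat_lit 203131) (.g (nat_lit 3161) (.e (nat_lit 73755) (nat_lit 8) (.e (nat_lit 557098) (nat_lit 13) (.e (nat_lit 172062) (nat_lit 2) (.e (nat_lit 196656) (nat_lit 11) (.e (nat_lit 16392) (nat_lit 0) (.e (nat_lit 3279) (nat_lit 200) (.e (nat_lit 564992) (nat_lit 5) .nil))))))) (.g (nat_lit 5) .nil .nil)))))) (.nd (nat_lit 3) (.nd (nat_lit 4) (.nd (nat_lit 5) 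
(.lf (nat_lit 203079) (.g (nat_lit 3726) (.e (nat_lit 73755) (nat_lit 8) (.e (nat_lit 557091) (nat_lit 12) (.e (nat_lit 164238) (nat_lit 187) (.e (nat_lit 1661) (nat_lit 115) (.e (nat_lit 393251) (nat_lit 18) (.e (nat_lit 164153) (nat_lit 152) (.e (nat_lit 1213) (nat_lit 89) .nil))))))) (.g (nat_lit 7) .nil .nil))) 
(.lf (nat_lit 203111) (.g (nat_lit 2234) (.e (nat_lit 73755) (nat_lit 8) (.e (nat_lit 557097) (nat_lit 13) (.e (nat_lit 172063) (nat_lit 2) (.e (nat_lit 196656) (nat_lit 11) (.e (nat_lit 16397) (nat_lit 0) (.e (nat_lit 3289) (nat_lit 201) (.e (nat_lit 565268) (nat_lit 5) .nil))))))) (.g (nat_lit 4) .nil .nil)))) (.nd (nat_lit 5) 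
(.lf (nat_lit 203095) (.g (nat_lit 3493) (.e (nat_lit 73755) (nat_lit 8) (.e (nat_lit 557091) (nat_lit 12) (.e (nat_lit 164238) (nat_lit 187) (.e (nat_lit 1661) (nat_lit 115) (.e (nat_lit 393252) (nat_lit 18) (.e (nat_lit 164167) (nat_lit 152) (.e (nat_lit 1208) (nat_lit 89) .nil))))))) (.g (nat_lit 5) .nil .nil))) 
(.lf (nat_lit 203127) (.g (nat_lit 2816) (.e (nat_lit 73755) (nat_lit 8) (.e (nat_lit 557098) (nat_lit 13) (.e (nat_lit 172061) (nat_lit 1) (.e (nat_lit 164327) (nat_lit 230) (.e (nat_lit 163886) (nat_lit 5) (.e (nat_lit 221207) (nat_lit 21) (.e (nat_lit 164308) (nat_lit 226) (.e (nat_lit 1208) (nat_lit 89) .nil)))))))) (.g (nat_lit 4) .nil .nil))))) (.nd (nat_lit 4) (.nd (nat_lit 5) 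
(.lf (nat_lit 203087) (.g (nat_lit 3526) (.e (nat_lit 73755) (nat_lit 8) (.e (nat_lit 557091) (nat_lit 12) (.e (nat_lit 164238) (nat_lit 187) (.e (nat_lit 1661) (nat_lit 115) (.e (nat_lit 393251) (nat_lit 18) (.e (nat_lit 164162) (nat_lit 152) (.e (nat_lit 1210) (nat_lit 89) .nil))))))) (.g (nat_lit 5) .nil .nil))) 
(.lf (nat_lit 203119) (.g (nat_lit 3986) (.e (nat_lit 73755) (nat_lit 8) (.e (nat_lit 557097) (nat_lit 13) (.e (nat_lit 172133) (nat_lit 15) (.e (nat_lit 2059) (nat_lit 142) (.e (nat_lit 704595) (nat_lit 5) (.e (nat_lit 180229) (nat_lit 0) (.e (nat_lit 6306) (nat_lit 337) (.e (nat_lit 1211) (nat_lit 89) .nil)))))))) (.g (nat_lit 5) .nil .nil)))) (.nd (nat_lit 5) 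
(.lf (nat_lit 203103) (.g (nat_lit 3324) (.e (nat_lit 73755) (nat_lit 8) (.e (nat_lit 557096) (nat_lit 13) (.e (nat_lit 172133) (nat_lit 15) (.e (nat_lit 2059) (nat_lit 142) (.e (nat_lit 704595) (nat_lit 5) (.e (nat_lit 188160) (nat_lit 24) (.e (nat_lit 688182) (nat_lit 17) .nil))))))) (.g (nat_lit 5) .nil .nil))) 
(.lf (nat_lit 203135) (.g (nat_lit 3044) (.e (nat_lit 73755) (nat_lit 8) (.e (nat_lit 557098) (nat_lit 13) (.e (nat_lit 172063) (nat_lit 2) (.e (nat_lit 196656) (nat_lit 11) (.e (nat_lit 16392) (nat_lit 0) (.e (nat_lit 3279) (nat_lit 200) (.e (nat_lit 564992) (nat_lit 5) .nil))))))) (.g (nat_lit 5) .nil .nil)))))))))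

noncomputable def tv2682 : DT := (.nd (nat_lit 0) (.nd (nat_lit 1) (.nd (nat_lit 2) (.nd (nat_lit 3) (.nd (nat_lit 4) (.nd (nat_lit 5) (.nd (nat_lit 6) 
(.lf (nat_lit 203136) (.g (nat_lit 3372) (.e (nat_lit 73755) (nat_lit 8) (.e (nat_lit 557098) (nat_lit 13) (.e (nat_lit 172063) (nat_lit 2) (.e (nat_lit 196656) (nat_lit 11) (.e (nat_lit 16392) (nat_lit 0) (.e (nat_lit 3281) (nat_lit 200) (.e (nat_lit 564992) (nat_lit 5) .nil))))))) (.g (nat_lit 5) .nil .nil))) 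
(.lf (nat_lit 203200) (.g (nat_lit 2860) (.e (nat_lit 73755) (nat_lit 8) (.e (nat_lit 557104) (nat_lit 14) (.e (nat_lit 180252) (nat_lit 10) (.e (nat_lit 573475) (nat_lit 12) (.e (nat_lit 57504) (nat_lit 38) .nil))))) .nil))) (.nd (nat_lit 6) 
(.lf (nat_lit 203168) (.g (nat_lit 2458) (.e (nat_lit 73755) (nat_lit 8) (.e (nat_lit 557098) (nat_lit 13) (.e (nat_lit 179968) (nat_lit 20) (.e (nat_lit 114711) (nat_lit 21) (.e (nat_lit 57847) (nat_lit 252) (.e (nat_lit 57365) (nat_lit 1) (.e (nat_lit 57729) (nat_lit 181) (.e (nat_lit 1210) (nat_lit 89) .nil)))))))) (.g (nat_lit 5) .nil .nil))) 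
(.lf (nat_lit 203232) (.g (nat_lit 3457) (.e (nat_lit 73755) (nat_lit 8) (.e (nat_lit 557105) (nat_lit 14) (.e (nat_lit 180252) (nat_lit 10) (.e (nat_lit 573451) (nat_lit 9) (.e (nat_lit 1169) (nat_lit 87) (.e (nat_lit 57927) (nat_lit 282) (.e (nat_lit 163869) (nat_lit 2) (.e (nat_lit 196669) (nat_lit 14) .nil)))))))) (.g (nat_lit 4) .nil .nil))))) (.nd (nat_lit 5) (.nd (nat_lit 6) 
(.lf (nat_lit 203152) (.g (nat_lit 3443) (.e (nat_lit 73755) (nat_lit 8) (.e (nat_lit 557098) (nat_lit 13) (.e (nat_lit 172133) (nat_lit 15) (.e (nat_lit 2059) (nat_lit 142) (.e (nat_lit 704595) (nat_lit 5) (.e (nat_lit 180229) (nat_lit 0) (.e (nat_lit 6270) (nat_lit 337) (.e (nat_lit 1213) (nat_lit 89) .nil)))))))) (.g (nat_lit 4) .nil .nil))) 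
(.lf (nat_lit 203216) (.g (nat_lit 2433) (.e (nat_lit 73755) (nat_lit 8) (.e (nat_lit 557105) (nat_lit 14) (.e (nat_lit 180251) (nat_lit 10) (.e (nat_lit 573477) (nat_lit 12) (.e (nat_lit 57360) (nat_lit 0) (.e (nat_lit 5949) (nat_lit 322) (.e (nat_lit 57373) (nat_lit 2) (.e (nat_lit 98048) (nat_lit 5) .nil)))))))) (.g (nat_lit 4) .nil .nil)))) (.nd (nat_lit 6) 
(.lf (nat_lit 203184) (.g (nat_lit 718) (.e (nat_lit 73755) (nat_lit 8) (.e (nat_lit 557104) (nat_lit 14) (.e (nat_lit 180228) (nat_lit 0) .nil))) .nil)) 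
(.lf (nat_lit 203248) (.g (nat_lit 3367) (.e (nat_lit 73755) (nat_lit 8) (.e (nat_lit 557105) (nat_lit 14) (.e (nat_lit 180252) (nat_lit 10) (.e (nat_lit 573467) (nat_lit 10) (.e (nat_lit 8261) (nat_lit 45) (.e (nat_lit 778318) (nat_lit 3) (.e (nat_lit 57454) (nat_lit 21) (.e (nat_lit 507648) (nat_lit 19) .nil)))))))) (.g (nat_lit 5) .nil .nil)))))) 
(.nd (nat_lit 4) (.nd (nat_lit 5) (.nd (nat_lit 6) 
(.lf (nat_lit 203144) (.g (nat_lit 3671) (.e (nat_lit 73755) (nat_lit 8) (.e (nat_lit 557098) (nat_lit 13) (.e (nat_lit 172064) (nat_lit 2) (.e (nat_lit 196656) (nat_lit 11) (.e (nat_lit 16392) (nat_lit 0) (.e (nat_lit 3281) (nat_lit 200) (.e (nat_lit 564992) (nat_lit 5) .nil))))))) (.g (nat_lit 5) .nil .nil))) 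
(.lf (nat_lit 203208) (.g (nat_lit 780) (.e (nat_lit 73755) (nat_lit 8) (.e (nat_lit 557105) (nat_lit 14) (.e (nat_lit 180233) (nat_lit 0) (.e (nat_lit 5448) (nat_lit 306) .nil)))) .nil))) (.nd (nat_lit 6) 
(.lf (nat_lit 203176) (.g (nat_lit 2421) (.e (nat_lit 73755) (nat_lit 8) (.e (nat_lit 557103) (nat_lit 14) (.e (nat_lit 188160) (nat_lit 0) (.e (nat_lit 5587) (nat_lit 310) (.e (nat_lit 163907) (nat_lit 12) (.e (nat_lit 425986) (nat_lit 0) (.e (nat_lit 3453) (nat_lit 216) (.e (nat_lit 688182) (nat_lit 17) .nil)))))))) (.g (nat_lit 5) .nil .nil))) 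
(.lf (nat_lit 203240) (.g (nat_lit 2951) (.e (nat_lit 73755) (nat_lit 8) (.e (nat_lit 557105) (nat_lit 14) (.e (nat_lit 180252) (nat_lit 10) (.e (nat_lit 573451) (nat_lit 9) (.e (nat_lit 1175) (nat_lit 87) (.e (nat_lit 57925) (nat_lit 282) (.e (nat_lit 163867) (nat_lit 2) (.e (nat_lit 196669) (nat_lit 14) .nil)))))))) (.g (nat_lit 4) .nil .nil))))) (.nd (nat_lit 5) (.nd (nat_lit 6) 
(.lf (nat_lit 203160) (.g (nat_lit 3097) (.e (nat_lit 73755) (nat_lit 8) (.e (nat_lit 557098) (nat_lit 13) (.e (nat_lit 172133) (nat_lit 15) (.e (nat_lit 2059) (nat_lit 142) (.e (nat_lit 704596) (nat_lit 5) (.e (nat_lit 180228) (nat_lit 0) (.e (nat_lit 6270) (nat_lit 337) (.e (nat_lit 1207) (nat_lit 89) .nil)))))))) (.g (nat_lit 4) .nil .nil))) 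
(.lf (nat_lit 203224) (.g (nat_lit 1889) (.e (nat_lit 73755) (nat_lit 8) (.e (nat_lit 557105) (nat_lit 14) (.e (nat_lit 180252) (nat_lit 10) (.e (nat_lit 573449) (nat_lit 9) (.e (nat_lit 208) (nat_lit 18) .nil))))) .nil))) (.nd (nat_lit 6) 
(.lf (nat_lit 203192) (.g (nat_lit 2586) (.e (nat_lit 73755) (nat_lit 8) (.e (nat_lit 557104) (nat_lit 14) (.e (nat_lit 180229) (nat_lit 0) (.e (nat_lit 5548) (nat_lit 306) (.e (nat_lit 2640) (nat_lit 165) (.e (nat_lit 180268) (nat_lit 24) (.e (nat_lit 688181) (nat_lit 17) .nil))))))) (.g (nat_lit 4) .nil .nil))) 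
(.lf (nat_lit 203256) (.g (nat_lit 2776) (.e (nat_lit 73755) (nat_lit 8) (.e (nat_lit 557105) (nat_lit 14) (.e (nat_lit 180252) (nat_lit 10) (.e (nat_lit 573474) (nat_lit 12) (.e (nat_lit 57344) (nat_lit 0) (.e (nat_lit 5587) (nat_lit 310) (.e (nat_lit 163866) (nat_lit 2) (.e (nat_lit 196669) (nat_lit 14) .nil)))))))) (.g (nat_lit 4) .nil .nil))))))) 
(.nd (nat_lit 3) (.nd (nat_lit 4) (.nd (nat_lit 5) (.nd (nat_lit 6) 
(.lf (nat_lit 203140) (.g (nat_lit 1219) (.e (nat_lit 73755) (nat_lit 8) (.e (nat_lit 557098) (nat_lit 13) (.e (nat_lit 172064) (nat_lit 2) (.e (nat_lit 204544) (nat_lit 2) .nil)))) .nil)) 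
(.lf (nat_lit 203204) (.g (nat_lit 553) (.e (nat_lit 73755) (nat_lit 8) (.e (nat_lit 557105) (nat_lit 14) (.e (nat_lit 180224) (nat_lit 0) .nil))) .nil))) (.nd (nat_lit 6) 
(.lf (nat_lit 203172) (.g (nat_lit 713) (.e (nat_lit 73755) (nat_lit 8) (.e (nat_lit 557103) (nat_lit 14) (.e (nat_lit 180228) (nat_lit 0) .nil))) .nil)) 
(.lf (nat_lit 203236) (.g (nat_lit 3715) (.e (nat_lit 73755) (nat_lit 8) (.e (nat_lit 557105) (nat_lit 14) (.e (nat_lit 180252) (nat_lit 10) (.e (nat_lit 573451) (nat_lit 9) (.e (nat_lit 1173) (nat_lit 87) (.e (nat_lit 57931) (nat_lit 282) (.e (nat_lit 163869) (nat_lit 2) (.e (nat_lit 196669) (nat_lit 14) .nil)))))))) (.g (nat_lit 4) .nil .nil))))) (.nd (nat_lit 5) (.nd (nat_lit 6) 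
(.lf (nat_lit 203156) (.g (nat_lit 3831) (.e (nat_lit 73755) (nat_lit 8) (.e (nat_lit 557098) (nat_lit 13) (.e (nat_lit 172133) (nat_lit 15) (.e (nat_lit 2059) (nat_lit 142) (.e (nat_lit 704595) (nat_lit 5) (.e (nat_lit 180229) (nat_lit 0) (.e (nat_lit 6277) (nat_lit 337) (.e (nat_lit 1213) (nat_lit 89) .nil)))))))) (.g (nat_lit 5) .nil .nil))) 
(.lf (nat_lit 203220) (.g (nat_lit 3091) (.e (nat_lit 73755) (nat_lit 8) (.e (nat_lit 557105) (nat_lit 14) (.e (nat_lit 180252) (nat_lit 10) (.e (nat_lit 573441) (nat_lit 0) (.e (nat_lit 2856) (nat_lit 184) (.e (nat_lit 426432) (nat_lit 17) (.e (nat_lit 98048) (nat_lit 5) .nil))))))) (.g (nat_lit 5) .nil .nil)))) (.nd (nat_lit 6) 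
(.lf (nat_lit 203188) (.g (nat_lit 1659) (.e (nat_lit 73755) (nat_lit 8) (.e (nat_lit 557104) (nat_lit 14) (.e (nat_lit 180229) (nat_lit 0) (.e (nat_lit 5548) (nat_lit 306) (.e (nat_lit 2640) (nat_lit 165) .nil))))) .nil)) 
(.lf (nat_lit 203252) (.g (nat_lit 3482) (.e (nat_lit 73755) (nat_lit 8) (.e (nat_lit 557105) (nat_lit 14) (.e (nat_lit 180252) (nat_lit 10) (.e (nat_lit 573468) (nat_lit 10) (.e (nat_lit 8261) (nat_lit 45) (.e (nat_lit 778318) (nat_lit 3) (.e (nat_lit 57454) (nat_lit 21) (.e (nat_lit 507648) (nat_lit 19) .nil)))))))) (.g (nat_lit 4) .nil .nil)))))) 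
(.nd (nat_lit 4) (.nd (nat_lit 5) (.nd (nat_lit 6) 
(.lf (nat_lit 203148) (.g (nat_lit 3320) (.e (nat_lit 73755) (nat_lit 8) (.e (nat_lit 557098) (nat_lit 13) (.e (nat_lit 172064) (nat_lit 2) (.e (nat_lit 196661) (nat_lit 12) (.e (nat_lit 57575) (nat_lit 55) (.e (nat_lit 786176) (nat_lit 0) (.e (nat_lit 1239) (nat_lit 91) (.e (nat_lit 98048) (nat_lit 5) .nil)))))))) (.g (nat_lit 5) .nil .nil))) 
(.lf (nat_lit 203212) (.g (nat_lit 3102) (.e (nat_lit 73755) (nat_lit 8) (.e (nat_lit 557105) (nat_lit 14) (.e (nat_lit 180244) (nat_lit 5) (.e (nat_lit 532499) (nat_lit 1) (.e (nat_lit 57664) (nat_lit 152) .nil))))) .nil))) (.nd (nat_lit 6) 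
(.lf (nat_lit 203180) (.g (nat_lit 2618) (.e (nat_lit 73755) (nat_lit 8) (.e (nat_lit 557103) (nat_lit 14) (.e (nat_lit 180250) (nat_lit 10) (.e (nat_lit 573468) (nat_lit 10) (.e (nat_lit 8262) (nat_lit 45) (.e (nat_lit 778318) (nat_lit 3) (.e (nat_lit 57454) (nat_lit 21) (.e (nat_lit 507648) (nat_lit 19) .nil)))))))) (.g (nat_lit 4) .nil .nil))) 
(.lf (nat_lit 203244) (.g (nat_lit 3109) (.e (nat_lit 73755) (nat_lit 8) (.e (nat_lit 557105) (nat_lit 14) (.e (nat_lit 180252) (nat_lit 10) (.e (nat_lit 573451) (nat_lit 9) (.e (nat_lit 1286) (nat_lit 95) (.e (nat_lit 123198) (nat_lit 266) (.e (nat_lit 57373) (nat_lit 2) (.e (nat_lit 98048) (nat_lit 5) .nil)))))))) (.g (nat_lit 4) .nil .nil))))) (.nd (nat_lit 5) (.nd (nat_lit 6) 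
(.lf (nat_lit 203164) (.g (nat_lit 3840) (.e (nat_lit 73755) (nat_lit 8) (.e (nat_lit 557098) (nat_lit 13) (.e (nat_lit 172133) (nat_lit 15) (.e (nat_lit 2175) (nat_lit 143) (.e (nat_lit 712747) (nat_lit 28) (.e (nat_lit 434286) (nat_lit 42) (.e (nat_lit 688179) (nat_lit 17) .nil))))))) (.g (nat_lit 7) .nil .nil))) 
(.lf (nat_lit 203228) (.g (nat_lit 3444) (.e (nat_lit 73755) (nat_lit 8) (.e (nat_lit 557105) (nat_lit 14) (.e (nat_lit 180252) (nat_lit 10) (.e (nat_lit 573451) (nat_lit 9) (.e (nat_lit 208) (nat_lit 18) (.e (nat_lit 270080) (nat_lit 0) (.e (nat_lit 1239) (nat_lit 91) (.e (nat_lit 98048) (nat_lit 5) .nil)))))))) (.g (nat_lit 4) .nil .nil)))) (.nd (nat_lit 6) 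
(.lf (nat_lit 203196) (.g (nat_lit 435) (.e (nat_lit 73755) (nat_lit 8) (.e (nat_lit 557104) (nat_lit 14) (.e (nat_lit 180248) (nat_lit 9) .nil))) .nil)) 
(.lf (nat_lit 203260) (.g (nat_lit 2865) (.e (nat_lit 73755) (nat_lit 8) (.e (nat_lit 557105) (nat_lit 14) (.e (nat_lit 180252) (nat_lit 10) (.e (nat_lit 573474) (nat_lit 12) (.e (nat_lit 57345) (nat_lit 0) (.e (nat_lit 5591) (nat_lit 310) (.e (nat_lit 163868) (nat_lit 2) (.e (nat_lit 196669) (nat_lit 14) .nil)))))))) (.g (nat_lit 4) .nil .nil)))))))) 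
(.nd (nat_lit 2) (.nd (nat_lit 3) (.nd (nat_lit 4) (.nd (nat_lit 5) (.nd (nat_lit 6) 
(.lf (nat_lit 203138) (.g (nat_lit 1720) (.e (nat_lit 73755) (nat_lit 8) (.e (nat_lit 557098) (nat_lit 13) (.e (nat_lit 172063) (nat_lit 2) (.e (nat_lit 196656) (nat_lit 11) (.e (nat_lit 24320) (nat_lit 17) (.e (nat_lit 98048) (nat_lit 5) .nil)))))) (.g (nat_lit 4) .nil .nil))) 
(.lf (nat_lit 203202) (.g (nat_lit 2789) (.e (nat_lit 73755) (nat_lit 8) (.e (nat_lit 557104) (nat_lit 14) (.e (nat_lit 180261) (nat_lit 20) (.e (nat_lit 655364) (nat_lit 0) (.e (nat_lit 2964) (nat_lit 185) (.e (nat_lit 434209) (nat_lit 18) (.e (nat_lit 6277) (nat_lit 337) (.e (nat_lit 1213) (nat_lit 89) .nil)))))))) (.g (nat_lit 4) .nil .nil)))) (.nd (nat_lit 6) 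
(.lf (nat_lit 203170) (.g (nat_lit 2648) (.e (nat_lit 73755) (nat_lit 8) (.e (nat_lit 557098) (nat_lit 13) (.e (nat_lit 179968) (nat_lit 20) (.e (nat_lit 114712) (nat_lit 21) (.e (nat_lit 57851) (nat_lit 252) (.e (nat_lit 57347) (nat_lit 0) (.e (nat_lit 2032) (nat_lit 140) (.e (nat_lit 688181) (nat_lit 17) .nil)))))))) (.g (nat_lit 5) .nil .nil))) 
(.lf (nat_lit 203234) (.g (nat_lit 2868) (.e (nat_lit 73755) (nat_lit 8) (.e (nat_lit 557105) (nat_lit 14) (.e (nat_lit 180252) (nat_lit 10) (.e (nat_lit 573451) (nat_lit 9) (.e (nat_lit 1173) (nat_lit 87) (.e (nat_lit 57927) (nat_lit 282) (.e (nat_lit 163869) (nat_lit 2) (.e (nat_lit 196669) (nat_lit 14) .nil)))))))) (.g (nat_lit 4) .nil .nil))))) (.nd (nat_lit 5) (.nd (nat_lit 6) 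
(.lf (nat_lit 203154) (.g (nat_lit 3526) (.e (nat_lit 73755) (nat_lit 8) (.e (nat_lit 557098) (nat_lit 13) (.e (nat_lit 172133) (nat_lit 15) (.e (nat_lit 2059) (nat_lit 142) (.e (nat_lit 704595) (nat_lit 5) (.e (nat_lit 180229) (nat_lit 0) (.e (nat_lit 6274) (nat_lit 337) (.e (nat_lit 1213) (nat_lit 89) .nil)))))))) (.g (nat_lit 4) .nil .nil))) 
(.lf (nat_lit 203218) (.g (nat_lit 2406) (.e (nat_lit 73755) (nat_lit 8) (.e (nat_lit 557105) (nat_lit 14) (.e (nat_lit 180252) (nat_lit 10) (.e (nat_lit 573441) (nat_lit 0) (.e (nat_lit 2855) (nat_lit 184) (.e (nat_lit 426432) (nat_lit 17) (.e (nat_lit 98048) (nat_lit 5) .nil))))))) (.g (nat_lit 4) .nil .nil)))) (.nd (nat_lit 6) 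
(.lf (nat_lit 203186) (.g (nat_lit 2220) (.e (nat_lit 73755) (nat_lit 8) (.e (nat_lit 557104) (nat_lit 14) (.e (nat_lit 180229) (nat_lit 0) (.e (nat_lit 5224) (nat_lit 296) (.e (nat_lit 163886) (nat_lit 5) (.e (nat_lit 221208) (nat_lit 21) (.e (nat_lit 164305) (nat_lit 226) (.e (nat_lit 7936) (nat_lit 89) .nil)))))))) (.g (nat_lit 4) .nil .nil))) 
(.lf (nat_lit 203250) (.g (nat_lit 1768) (.e (nat_lit 73755) (nat_lit 8) (.e (nat_lit 557105) (nat_lit 14) (.e (nat_lit 180252) (nat_lit 10) (.e (nat_lit 573468) (nat_lit 10) .nil)))) .nil))))) (.nd (nat_lit 4) (.nd (nat_lit 5) (.nd (nat_lit 6) 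
(.lf (nat_lit 203146) (.g (nat_lit 2231) (.e (nat_lit 73755) (nat_lit 8) (.e (nat_lit 557098) (nat_lit 13) (.e (nat_lit 172064) (nat_lit 2) (.e (nat_lit 196656) (nat_lit 11) (.e (nat_lit 24320) (nat_lit 17) .nil))))) .nil)) 
(.lf (nat_lit 203210) (.g (nat_lit 2267) (.e (nat_lit 73755) (nat_lit 8) (.e (nat_lit 557105) (nat_lit 14) (.e (nat_lit 188160) (nat_lit 0) (.e (nat_lit 5587) (nat_lit 310) (.e (nat_lit 163907) (nat_lit 12) (.e (nat_lit 425986) (nat_lit 0) (.e (nat_lit 3453) (nat_lit 216) (.e (nat_lit 688182) (nat_lit 17) .nil)))))))) (.g (nat_lit 5) .nil .nil)))) (.nd (nat_lit 6) 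
(.lf (nat_lit 203178) (.g (nat_lit 1156) (.e (nat_lit 73755) (nat_lit 8) (.e (nat_lit 557103) (nat_lit 14) (.e (nat_lit 180244) (nat_lit 5) (.e (nat_lit 532575) (nat_lit 17) .nil)))) .nil)) 
(.lf (nat_lit 203242) (.g (nat_lit 3373) (.e (nat_lit 73755) (nat_lit 8) (.e (nat_lit 557105) (nat_lit 14) (.e (nat_lit 180252) (nat_lit 10) (.e (nat_lit 573451) (nat_lit 9) (.e (nat_lit 1177) (nat_lit 87) (.e (nat_lit 57930) (nat_lit 282) (.e (nat_lit 163867) (nat_lit 2) (.e (nat_lit 196669) (nat_lit 14) .nil)))))))) (.g (nat_lit 4) .nil .nil))))) (.nd (nat_lit 5) (.nd (nat_lit 6) 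
(.lf (nat_lit 203162) (.g (nat_lit 2415) (.e (nat_lit 73755) (nat_lit 8) (.e (nat_lit 557098) (nat_lit 13) (.e (nat_lit 172133) (nat_lit 15) (.e (nat_lit 2059) (nat_lit 142) (.e (nat_lit 704596) (nat_lit 5) (.e (nat_lit 180228) (nat_lit 0) (.e (nat_lit 6277) (nat_lit 337) (.e (nat_lit 1213) (nat_lit 89) .nil)))))))) (.g (nat_lit 4) .nil .nil))) 
(.lf (nat_lit 203226) (.g (nat_lit 2823) (.e (nat_lit 73755) (nat_lit 8) (.e (nat_lit 557105) (nat_lit 14) (.e (nat_lit 180252) (nat_lit 10) (.e (nat_lit 573451) (nat_lit 9) (.e (nat_lit 52) (nat_lit 0) (.e (nat_lit 3632) (nat_lit 227) (.e (nat_lit 778318) (nat_lit 3) (.e (nat_lit 57454) (nat_lit 21) (.e (nat_lit 507648) (nat_lit 19) .nil))))))))) (.g (nat_lit 4) .nil .nil)))) (.nd (nat_lit 6) 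
(.lf (nat_lit 203194) (.g (nat_lit 2709) (.e (nat_lit 73755) (nat_lit 8) (.e (nat_lit 557104) (nat_lit 14) (.e (nat_lit 180244) (nat_lit 5) (.e (nat_lit 532504) (nat_lit 1) (.e (nat_lit 65280) (nat_lit 168) .nil))))) .nil)) 
(.lf (nat_lit 203258) (.g (nat_lit 2799) (.e (nat_lit 73755) (nat_lit 8) (.e (nat_lit 557105) (nat_lit 14) (.e (nat_lit 180252) (nat_lit 10) (.e (nat_lit 573474) (nat_lit 12) (.e (nat_lit 57344) (nat_lit 0) (.e (nat_lit 5601) (nat_lit 310) (.e (nat_lit 163867) (nat_lit 2) (.e (nat_lit 196669) (nat_lit 14) .nil)))))))) (.g (nat_lit 4) .nil .nil))))))) 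
(.nd (nat_lit 3) (.nd (nat_lit 4) (.nd (nat_lit 5) (.nd (nat_lit 6) 
(.lf (nat_lit 203142) (.g (nat_lit 2163) (.e (nat_lit 73755) (nat_lit 8) (.e (nat_lit 557098) (nat_lit 13) (.e (nat_lit 172064) (nat_lit 2) (.e (nat_lit 196630) (nat_lit 9) (.e (nat_lit 1312) (nat_lit 98) .nil))))) .nil)) 
(.lf (nat_lit 203206) (.g (nat_lit 709) (.e (nat_lit 73755) (nat_lit 8) (.e (nat_lit 557105) (nat_lit 14) (.e (nat_lit 180228) (nat_lit 0) .nil))) .nil))) (.nd (nat_lit 6) 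
(.lf (nat_lit 203174) (.g (nat_lit 638) (.e (nat_lit 73755) (nat_lit 8) (.e (nat_lit 557103) (nat_lit 14) (.e (nat_lit 180232) (nat_lit 0) .nil))) .nil)) 
(.lf (nat_lit 203238) (.g (nat_lit 2874) (.e (nat_lit 73755) (nat_lit 8) (.e (nat_lit 557105) (nat_lit 14) (.e (nat_lit 180252) (nat_lit 10) (.e (nat_lit 573451) (nat_lit 9) (.e (nat_lit 1174) (nat_lit 87) (.e (nat_lit 57927) (nat_lit 282) (.e (nat_lit 163869) (nat_lit 2) (.e (nat_lit 196669) (nat_lit 14) .nil)))))))) (.g (nat_lit 4) .nil .nil))))) (.nd (nat_lit 5) (.nd (nat_lit 6) 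
(.lf (nat_lit 203158) (.g (nat_lit 2971) (.e (nat_lit 73755) (nat_lit 8) (.e (nat_lit 557098) (nat_lit 13) (.e (nat_lit 172133) (nat_lit 15) (.e (nat_lit 2059) (nat_lit 142) (.e (nat_lit 704595) (nat_lit 5) (.e (nat_lit 180229) (nat_lit 0) (.e (nat_lit 6306) (nat_lit 337) (.e (nat_lit 1210) (nat_lit 89) .nil)))))))) (.g (nat_lit 4) .nil .nil))) 
(.lf (nat_lit 203222) (.g (nat_lit 2801) (.e (nat_lit 73755) (nat_lit 8) (.e (nat_lit 557105) (nat_lit 14) (.e (nat_lit 180252) (nat_lit 10) (.e (nat_lit 573441) (nat_lit 0) (.e (nat_lit 3065) (nat_lit 190) (.e (nat_lit 475169) (nat_lit 22) (.e (nat_lit 507648) (nat_lit 19) .nil))))))) (.g (nat_lit 5) .nil .nil)))) (.nd (nat_lit 6) 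
(.lf (nat_lit 203190) (.g (nat_lit 3139) (.e (nat_lit 73755) (nat_lit 8) (.e (nat_lit 557104) (nat_lit 14) (.e (nat_lit 180229) (nat_lit 0) (.e (nat_lit 5548) (nat_lit 306) (.e (nat_lit 2640) (nat_lit 165) (.e (nat_lit 180227) (nat_lit 0) (.e (nat_lit 6254) (nat_lit 337) (.e (nat_lit 7936) (nat_lit 89) .nil)))))))) (.g (nat_lit 5) .nil .nil))) 
(.lf (nat_lit 203254) (.g (nat_lit 2962) (.e (nat_lit 73755) (nat_lit 8) (.e (nat_lit 557105) (nat_lit 14) (.e (nat_lit 180252) (nat_lit 10) (.e (nat_lit 573468) (nat_lit 10) (.e (nat_lit 8270) (nat_lit 46) (.e (nat_lit 786455) (nat_lit 17) (.e (nat_lit 98048) (nat_lit 5) .nil))))))) (.g (nat_lit 4) .nil .nil)))))) (.nd (nat_lit 4) (.nd (nat_lit 5) (.nd (nat_lit 6) 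
(.lf (nat_lit 203150) (.g (nat_lit 687) (.e (nat_lit 73755) (nat_lit 8) (.e (nat_lit 557098) (nat_lit 13) (.e (nat_lit 172070) (nat_lit 4) .nil))) .nil)) 
(.lf (nat_lit 203214) (.g (nat_lit 2302) (.e (nat_lit 73755) (nat_lit 8) (.e (nat_lit 557105) (nat_lit 14) (.e (nat_lit 180244) (nat_lit 5) (.e (nat_lit 532501) (nat_lit 1) (.e (nat_lit 57661) (nat_lit 152) .nil))))) .nil))) (.nd (nat_lit 6) 
(.lf (nat_lit 203182) (.g (nat_lit 1486) (.e (nat_lit 73755) (nat_lit 8) (.e (nat_lit 557103) (nat_lit 14) (.e (nat_lit 180261) (nat_lit 20) (.e (nat_lit 655364) (nat_lit 0) (.e (nat_lit 2964) (nat_lit 185) .nil))))) .nil)) 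
(.lf (nat_lit 203246) (.g (nat_lit 1477) (.e (nat_lit 73755) (nat_lit 8) (.e (nat_lit 557105) (nat_lit 14) (.e (nat_lit 180252) (nat_lit 10) (.e (nat_lit 573467) (nat_lit 10) .nil)))) .nil)))) (.nd (nat_lit 5) (.nd (nat_lit 6) 
(.lf (nat_lit 203166) (.g (nat_lit 2925) (.e (nat_lit 73755) (nat_lit 8) (.e (nat_lit 557098) (nat_lit 13) (.e (nat_lit 172136) (nat_lit 15) (.e (nat_lit 2174) (nat_lit 143) (.e (nat_lit 712745) (nat_lit 27) (.e (nat_lit 425984) (nat_lit 0) (.e (nat_lit 7936) (nat_lit 216) (.e (nat_lit 688182) (nat_lit 17) .nil)))))))) (.g (nat_lit 5) .nil .nil))) 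
(.lf (nat_lit 203230) (.g (nat_lit 3393) (.e (nat_lit 73755) (nat_lit 8) (.e (nat_lit 557105) (nat_lit 14) (.e (nat_lit 180252) (nat_lit 10) (.e (nat_lit 573451) (nat_lit 9) (.e (nat_lit 1169) (nat_lit 87) (.e (nat_lit 57926) (nat_lit 282) (.e (nat_lit 163869) (nat_lit 2) (.e (nat_lit 196669) (nat_lit 14) .nil)))))))) (.g (nat_lit 4) .nil .nil)))) (.nd (nat_lit 6) 
(.lf (nat_lit 203198) (.g (nat_lit 1722) (.e (nat_lit 73755) (nat_lit 8) (.e (nat_lit 557104) (nat_lit 14) (.e (nat_lit 180252) (nat_lit 10) (.e (nat_lit 573473) (nat_lit 12) .nil)))) .nil)) 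
(.lf (nat_lit 203262) (.g (nat_lit 3638) (.e (nat_lit 73755) (nat_lit 8) (.e (nat_lit 557105) (nat_lit 14) (.e (nat_lit 180252) (nat_lit 10) (.e (nat_lit 573474) (nat_lit 12) (.e (nat_lit 57347) (nat_lit 0) (.e (nat_lit 5584) (nat_lit 310) (.e (nat_lit 163867) (nat_lit 2) (.e (nat_lit 196667) (nat_lit 14) .nil)))))))) (.g (nat_lit 5) .nil .nil))))))))) 
(.nd (nat_lit 1) (.nd (nat_lit 2) (.nd (nat_lit 3) (.nd (nat_lit 4) (.nd (nat_lit 5) 
(.nd (nat_lit 6) 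
(.lf (nat_lit 203137) (.g (nat_lit 2671) (.e (nat_lit 73755) (nat_lit 8) (.e (nat_lit 557098) (nat_lit 13) (.e (nat_lit 172063) (nat_lit 2) (.e (nat_lit 196656) (nat_lit 11) (.e (nat_lit 16396) (nat_lit 0) (.e (nat_lit 3289) (nat_lit 201) (.e (nat_lit 565268) (nat_lit 5) .nil))))))) (.g (nat_lit 4) .nil .nil))) 
(.lf (nat_lit 203201) (.g (nat_lit 2447) (.e (nat_lit 73755) (nat_lit 8) (.e (nat_lit 557104) (nat_lit 14) (.e (nat_lit 180261) (nat_lit 20) (.e (nat_lit 655364) (nat_lit 0) (.e (nat_lit 2964) (nat_lit 185) (.e (nat_lit 434209) (nat_lit 18) (.e (nat_lit 6270) (nat_lit 337) (.e (nat_lit 1213) (nat_lit 89) .nil)))))))) (.g (nat_lit 4) .nil .nil)))) (.nd (nat_lit 6) 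
(.lf (nat_lit 203169) (.g (nat_lit 2225) (.e (nat_lit 73755) (nat_lit 8) (.e (nat_lit 557098) (nat_lit 13) (.e (nat_lit 179968) (nat_lit 20) (.e (nat_lit 114711) (nat_lit 21) (.e (nat_lit 57847) (nat_lit 252) (.e (nat_lit 57365) (nat_lit 1) (.e (nat_lit 57731) (nat_lit 181) (.e (nat_lit 1210) (nat_lit 89) .nil)))))))) (.g (nat_lit 4) .nil .nil))) 
(.lf (nat_lit 203233) (.g (nat_lit 3572) (.e (nat_lit 73755) (nat_lit 8) (.e (nat_lit 557105) (nat_lit 14) (.e (nat_lit 180252) (nat_lit 10) (.e (nat_lit 573451) (nat_lit 9) (.e (nat_lit 1169) (nat_lit 87) (.e (nat_lit 57931) (nat_lit 282) (.e (nat_lit 163867) (nat_lit 2) (.e (nat_lit 196669) (nat_lit 14) .nil)))))))) (.g (nat_lit 4) .nil .nil))))) (.nd (nat_lit 5) (.nd (nat_lit 6) 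
(.lf (nat_lit 203153) (.g (nat_lit 3308) (.e (nat_lit 73755) (nat_lit 8) (.e (nat_lit 557098) (nat_lit 13) (.e (nat_lit 172133) (nat_lit 15) (.e (nat_lit 2059) (nat_lit 142) (.e (nat_lit 704595) (nat_lit 5) (.e (nat_lit 180229) (nat_lit 0) (.e (nat_lit 6272) (nat_lit 337) (.e (nat_lit 1207) (nat_lit 89) .nil)))))))) (.g (nat_lit 4) .nil .nil))) 
(.lf (nat_lit 203217) (.g (nat_lit 2055) (.e (nat_lit 73755) (nat_lit 8) (.e (nat_lit 557105) (nat_lit 14) (.e (nat_lit 180251) (nat_lit 10) (.e (nat_lit 573478) (nat_lit 12) (.e (nat_lit 57360) (nat_lit 0) (.e (nat_lit 5949) (nat_lit 322) (.e (nat_lit 57373) (nat_lit 2) (.e (nat_lit 98048) (nat_lit 5) .nil)))))))) (.g (nat_lit 4) .nil .nil)))) (.nd (nat_lit 6) 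
(.lf (nat_lit 203185) (.g (nat_lit 2547) (.e (nat_lit 73755) (nat_lit 8) (.e (nat_lit 557104) (nat_lit 14) (.e (nat_lit 180229) (nat_lit 0) (.e (nat_lit 5224) (nat_lit 296) (.e (nat_lit 163886) (nat_lit 5) (.e (nat_lit 221207) (nat_lit 21) (.e (nat_lit 164308) (nat_lit 226) (.e (nat_lit 1208) (nat_lit 89) .nil)))))))) (.g (nat_lit 4) .nil .nil))) 
(.lf (nat_lit 203249) (.g (nat_lit 2996) (.e (nat_lit 73755) (nat_lit 8) (.e (nat_lit 557105) (nat_lit 14) (.e (nat_lit 180252) (nat_lit 10) (.e (nat_lit 573467) (nat_lit 10) (.e (nat_lit 8274) (nat_lit 46) (.e (nat_lit 786455) (nat_lit 17) (.e (nat_lit 98048) (nat_lit 5) .nil))))))) (.g (nat_lit 4) .nil .nil)))))) (.nd (nat_lit 4) (.nd (nat_lit 5) (.nd (nat_lit 6) 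
(.lf (nat_lit 203145) (.g (nat_lit 3942) (.e (nat_lit 73755) (nat_lit 8) (.e (nat_lit 557098) (nat_lit 13) (.e (nat_lit 172064) (nat_lit 2) (.e (nat_lit 196656) (nat_lit 11) (.e (nat_lit 16397) (nat_lit 0) (.e (nat_lit 3289) (nat_lit 201) (.e (nat_lit 565268) (nat_lit 5) .nil))))))) (.g (nat_lit 4) .nil .nil))) 
(.lf (nat_lit 203209) (.g (nat_lit 2325) (.e (nat_lit 73755) (nat_lit 8) (.e (nat_lit 557105) (nat_lit 14) (.e (nat_lit 180233) (nat_lit 0) (.e (nat_lit 5599) (nat_lit 310) (.e (nat_lit 163905) (nat_lit 12) (.e (nat_lit 425986) (nat_lit 0) (.e (nat_lit 3453) (nat_lit 216) (.e (nat_lit 688182) (nat_lit 17) .nil)))))))) (.g (nat_lit 5) .nil .nil)))) (.nd (nat_lit 6) 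
(.lf (nat_lit 203177) (.g (nat_lit 2636) (.e (nat_lit 73755) (nat_lit 8) (.e (nat_lit 557103) (nat_lit 14) (.e (nat_lit 180244) (nat_lit 5) (.e (nat_lit 532501) (nat_lit 1) (.e (nat_lit 65280) (nat_lit 168) .nil))))) .nil)) 
(.lf (nat_lit 203241) (.g (nat_lit 3355) (.e (nat_lit 73755) (nat_lit 8) (.e (nat_lit 557105) (nat_lit 14) (.e (nat_lit 180252) (nat_lit 10) (.e (nat_lit 573451) (nat_lit 9) (.e (nat_lit 1175) (nat_lit 87) (.e (nat_lit 57926) (nat_lit 282) (.e (nat_lit 163869) (nat_lit 2) (.e (nat_lit 196669) (nat_lit 14) .nil)))))))) (.g (nat_lit 4) .nil .nil))))) (.nd (nat_lit 5) (.nd (nat_lit 6) 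
(.lf (nat_lit 203161) (.g (nat_lit 2651) (.e (nat_lit 73755) (nat_lit 8) (.e (nat_lit 557098) (nat_lit 13) (.e (nat_lit 172133) (nat_lit 15) (.e (nat_lit 2059) (nat_lit 142) (.e (nat_lit 704596) (nat_lit 5) (.e (nat_lit 180228) (nat_lit 0) (.e (nat_lit 6270) (nat_lit 337) (.e (nat_lit 1213) (nat_lit 89) .nil)))))))) (.g (nat_lit 4) .nil .nil))) 
(.lf (nat_lit 203225) (.g (nat_lit 3216) (.e (nat_lit 73755) (nat_lit 8) (.e (nat_lit 557105) (nat_lit 14) (.e (nat_lit 180252) (nat_lit 10) (.e (nat_lit 573451) (nat_lit 9) (.e (nat_lit 52) (nat_lit 0) (.e (nat_lit 3632) (nat_lit 227) (.e (nat_lit 778246) (nat_lit 0) (.e (nat_lit 1239) (nat_lit 91) (.e (nat_lit 98048) (nat_lit 5) .nil))))))))) (.g (nat_lit 4) .nil .nil)))) (.nd (nat_lit 6) 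
(.lf (nat_lit 203193) (.g (nat_lit 2772) (.e (nat_lit 73755) (nat_lit 8) (.e (nat_lit 557104) (nat_lit 14) (.e (nat_lit 180244) (nat_lit 5) (.e (nat_lit 532499) (nat_lit 1) (.e (nat_lit 57665) (nat_lit 152) .nil))))) .nil)) 
(.lf (nat_lit 203257) (.g (nat_lit 2753) (.e (nat_lit 73755) (nat_lit 8) (.e (nat_lit 557105) (nat_lit 14) (.e (nat_lit 180252) (nat_lit 10) (.e (nat_lit 573474) (nat_lit 12) (.e (nat_lit 57344) (nat_lit 0) (.e (nat_lit 5587) (nat_lit 310) (.e (nat_lit 163867) (nat_lit 2) (.e (nat_lit 196669) (nat_lit 14) .nil)))))))) (.g (nat_lit 4) .nil .nil))))))) 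
(.nd (nat_lit 3) (.nd (nat_lit 4) (.nd (nat_lit 5) (.nd (nat_lit 6) 
(.lf (nat_lit 203141) (.g (nat_lit 1769) (.e (nat_lit 73755) (nat_lit 8) (.e (nat_lit 557098) (nat_lit 13) (.e (nat_lit 172064) (nat_lit 2) (.e (nat_lit 196628) (nat_lit 9) (.e (nat_lit 419) (nat_lit 32) .nil))))) .nil)) 
(.lf (nat_lit 203205) (.g (nat_lit 324) (.e (nat_lit 73755) (nat_lit 8) (.e (nat_lit 557105) (nat_lit 14) (.e (nat_lit 180227) (nat_lit 0) .nil))) .nil))) (.nd (nat_lit 6) 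
(.lf (nat_lit 203173) (.g (nat_lit 393) (.e (nat_lit 73755) (nat_lit 8) (.e (nat_lit 557103) (nat_lit 14) (.e (nat_lit 180229) (nat_lit 0) .nil))) .nil)) 
(.lf (nat_lit 203237) (.g (nat_lit 3286) (.e (nat_lit 73755) (nat_lit 8) (.e (nat_lit 557105) (nat_lit 14) (.e (nat_lit 180252) (nat_lit 10) (.e (nat_lit 573451) (nat_lit 9) (.e (nat_lit 1174) (nat_lit 87) (.e (nat_lit 57926) (nat_lit 282) (.e (nat_lit 163869) (nat_lit 2) (.e (nat_lit 196669) (nat_lit 14) .nil)))))))) (.g (nat_lit 4) .nil .nil))))) (.nd (nat_lit 5) (.nd (nat_lit 6) 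
(.lf (nat_lit 203157) (.g (nat_lit 2748) (.e (nat_lit 73755) (nat_lit 8) (.e (nat_lit 557098) (nat_lit 13) (.e (nat_lit 172133) (nat_lit 15) (.e (nat_lit 2059) (nat_lit 142) (.e (nat_lit 704595) (nat_lit 5) (.e (nat_lit 180229) (nat_lit 0) (.e (nat_lit 6296) (nat_lit 337) (.e (nat_lit 1210) (nat_lit 89) .nil)))))))) (.g (nat_lit 4) .nil .nil))) 
(.lf (nat_lit 203221) (.g (nat_lit 2555) (.e (nat_lit 73755) (nat_lit 8) (.e (nat_lit 557105) (nat_lit 14) (.e (nat_lit 180252) (nat_lit 10) (.e (nat_lit 573441) (nat_lit 0) (.e (nat_lit 2857) (nat_lit 184) (.e (nat_lit 426428) (nat_lit 17) (.e (nat_lit 98048) (nat_lit 5) .nil))))))) (.g (nat_lit 4) .nil .nil)))) (.nd (nat_lit 6) 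
(.lf (nat_lit 203189) (.g (nat_lit 2382) (.e (nat_lit 73755) (nat_lit 8) (.e (nat_lit 557104) (nat_lit 14) (.e (nat_lit 180229) (nat_lit 0) (.e (nat_lit 5548) (nat_lit 306) (.e (nat_lit 2640) (nat_lit 165) (.e (nat_lit 180227) (nat_lit 0) (.e (nat_lit 6252) (nat_lit 337) (.e (nat_lit 7936) (nat_lit 89) .nil)))))))) (.g (nat_lit 4) .nil .nil))) 
(.lf (nat_lit 203253) (.g (nat_lit 3601) (.e (nat_lit 73755) (nat_lit 8) (.e (nat_lit 557105) (nat_lit 14) (.e (nat_lit 180252) (nat_lit 10) (.e (nat_lit 573468) (nat_lit 10) (.e (nat_lit 8262) (nat_lit 45) (.e (nat_lit 778318) (nat_lit 3) (.e (nat_lit 57454) (nat_lit 21) (.e (nat_lit 507648) (nat_lit 19) .nil)))))))) (.g (nat_lit 4) .nil .nil)))))) 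
(.nd (nat_lit 4) (.nd (nat_lit 5) (.nd (nat_lit 6) 
(.lf (nat_lit 203149) (.g (nat_lit 1729) (.e (nat_lit 73755) (nat_lit 8) (.e (nat_lit 557098) (nat_lit 13) (.e (nat_lit 172067) (nat_lit 3) (.e (nat_lit 204819) (nat_lit 17) .nil)))) .nil)) 
(.lf (nat_lit 203213) (.g (nat_lit 3057) (.e (nat_lit 73755) (nat_lit 8) (.e (nat_lit 557105) (nat_lit 14) (.e (nat_lit 180244) (nat_lit 5) (.e (nat_lit 532499) (nat_lit 1) (.e (nat_lit 57665) (nat_lit 152) .nil))))) .nil))) (.nd (nat_lit 6) 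
(.lf (nat_lit 203181) (.g (nat_lit 1749) (.e (nat_lit 73755) (nat_lit 8) (.e (nat_lit 557103) (nat_lit 14) (.e (nat_lit 180250) (nat_lit 10) (.e (nat_lit 573477) (nat_lit 12) (.e (nat_lit 57361) (nat_lit 0) .nil))))) .nil)) 
(.lf (nat_lit 203245) (.g (nat_lit 2233) (.e (nat_lit 73755) (nat_lit 8) (.e (nat_lit 557105) (nat_lit 14) (.e (nat_lit 180252) (nat_lit 10) (.e (nat_lit 573452) (nat_lit 9) (.e (nat_lit 208) (nat_lit 18) .nil))))) .nil)))) (.nd (nat_lit 5) (.nd (nat_lit 6) 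
(.lf (nat_lit 203165) (.g (nat_lit 2700) (.e (nat_lit 73755) (nat_lit 8) (.e (nat_lit 557098) (nat_lit 13) (.e (nat_lit 172133) (nat_lit 15) (.e (nat_lit 2175) (nat_lit 143) (.e (nat_lit 712749) (nat_lit 28) (.e (nat_lit 434201) (nat_lit 18) (.e (nat_lit 6362) (nat_lit 337) (.e (nat_lit 1210) (nat_lit 89) .nil)))))))) (.g (nat_lit 4) .nil .nil))) 
(.lf (nat_lit 203229) (.g (nat_lit 2807) (.e (nat_lit 73755) (nat_lit 8) (.e (nat_lit 557105) (nat_lit 14) (.e (nat_lit 180252) (nat_lit 10) (.e (nat_lit 573451) (nat_lit 9) (.e (nat_lit 1169) (nat_lit 87) (.e (nat_lit 57924) (nat_lit 282) (.e (nat_lit 163867) (nat_lit 2) (.e (nat_lit 196669) (nat_lit 14) .nil)))))))) (.g (nat_lit 4) .nil .nil)))) (.nd (nat_lit 6) 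
(.lf (nat_lit 203197) (.g (nat_lit 1839) (.e (nat_lit 73755) (nat_lit 8) (.e (nat_lit 557104) (nat_lit 14) (.e (nat_lit 180252) (nat_lit 10) (.e (nat_lit 573467) (nat_lit 10) .nil)))) .nil)) 
(.lf (nat_lit 203261) (.g (nat_lit 3006) (.e (nat_lit 73755) (nat_lit 8) (.e (nat_lit 557105) (nat_lit 14) (.e (nat_lit 180252) (nat_lit 10) (.e (nat_lit 573474) (nat_lit 12) (.e (nat_lit 57346) (nat_lit 0) (.e (nat_lit 7936) (nat_lit 310) (.e (nat_lit 163869) (nat_lit 2) (.e (nat_lit 196669) (nat_lit 14) .nil)))))))) (.g (nat_lit 5) .nil .nil)))))))) 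
(.nd (nat_lit 2) (.nd (nat_lit 3) (.nd (nat_lit 4) (.nd (nat_lit 5) (.nd (nat_lit 6) 
(.lf (nat_lit 203139) (.g (nat_lit 1219) (.e (nat_lit 73755) (nat_lit 8) (.e (nat_lit 557098) (nat_lit 13) (.e (nat_lit 172064) (nat_lit 2) (.e (nat_lit 204544) (nat_lit 0) .nil)))) .nil)) 
(.lf (nat_lit 203203) (.g (nat_lit 2172) (.e (nat_lit 73755) (nat_lit 8) (.e (nat_lit 557104) (nat_lit 14) (.e (nat_lit 180261) (nat_lit 20) (.e (nat_lit 655364) (nat_lit 0) (.e (nat_lit 2964) (nat_lit 185) (.e (nat_lit 434285) (nat_lit 42) (.e (nat_lit 688181) (nat_lit 17) .nil))))))) (.g (nat_lit 4) .nil .nil)))) (.nd (nat_lit 6) 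
(.lf (nat_lit 203171) (.g (nat_lit 425) (.e (nat_lit 73755) (nat_lit 8) (.e (nat_lit 557098) (nat_lit 13) (.e (nat_lit 179968) (nat_lit 24) .nil))) .nil)) 
(.lf (nat_lit 203235) (.g (nat_lit 2928) (.e (nat_lit 73755) (nat_lit 8) (.e (nat_lit 557105) (nat_lit 14) (.e (nat_lit 180252) (nat_lit 10) (.e (nat_lit 573451) (nat_lit 9) (.e (nat_lit 1173) (nat_lit 87) (.e (nat_lit 57931) (nat_lit 282) (.e (nat_lit 163867) (nat_lit 2) (.e (nat_lit 196669) (nat_lit 14) .nil)))))))) (.g (nat_lit 4) .nil .nil))))) (.nd (nat_lit 5) (.nd (nat_lit 6) 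
(.lf (nat_lit 203155) (.g (nat_lit 3567) (.e (nat_lit 73755) (nat_lit 8) (.e (nat_lit 557098) (nat_lit 13) (.e (nat_lit 172133) (nat_lit 15) (.e (nat_lit 2059) (nat_lit 142) (.e (nat_lit 704595) (nat_lit 5) (.e (nat_lit 180229) (nat_lit 0) (.e (nat_lit 6275) (nat_lit 337) (.e (nat_lit 1213) (nat_lit 89) .nil)))))))) (.g (nat_lit 4) .nil .nil))) 
(.lf (nat_lit 203219) (.g (nat_lit 2914) (.e (nat_lit 73755) (nat_lit 8) (.e (nat_lit 557105) (nat_lit 14) (.e (nat_lit 180252) (nat_lit 10) (.e (nat_lit 573441) (nat_lit 0) (.e (nat_lit 2856) (nat_lit 184) (.e (nat_lit 426427) (nat_lit 17) (.e (nat_lit 98048) (nat_lit 5) .nil))))))) (.g (nat_lit 5) .nil .nil)))) (.nd (nat_lit 6) 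
(.lf (nat_lit 203187) (.g (nat_lit 1658) (.e (nat_lit 73755) (nat_lit 8) (.e (nat_lit 557104) (nat_lit 14) (.e (nat_lit 180229) (nat_lit 0) (.e (nat_lit 5546) (nat_lit 306) (.e (nat_lit 2640) (nat_lit 165) .nil))))) .nil)) 
(.lf (nat_lit 203251) (.g (nat_lit 3440) (.e (nat_lit 73755) (nat_lit 8) (.e (nat_lit 557105) (nat_lit 14) (.e (nat_lit 180252) (nat_lit 10) (.e (nat_lit 573468) (nat_lit 10) (.e (nat_lit 8259) (nat_lit 45) (.e (nat_lit 778318) (nat_lit 3) (.e (nat_lit 57454) (nat_lit 21) (.e (nat_lit 507648) (nat_lit 19) .nil)))))))) (.g (nat_lit 4) .nil .nil)))))) 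
(.nd (nat_lit 4) (.nd (nat_lit 5) (.nd (nat_lit 6) 
(.lf (nat_lit 203147) (.g (nat_lit 2668) (.e (nat_lit 73755) (nat_lit 8) (.e (nat_lit 557098) (nat_lit 13) (.e (nat_lit 172064) (nat_lit 2) (.e (nat_lit 196661) (nat_lit 12) (.e (nat_lit 57573) (nat_lit 55) (.e (nat_lit 778316) (nat_lit 3) (.e (nat_lit 57454) (nat_lit 21) (.e (nat_lit 507648) (nat_lit 19) .nil)))))))) (.g (nat_lit 4) .nil .nil))) 
(.lf (nat_lit 203211) (.g (nat_lit 3249) (.e (nat_lit 73755) (nat_lit 8) (.e (nat_lit 557105) (nat_lit 14) (.e (nat_lit 180244) (nat_lit 5) (.e (nat_lit 532499) (nat_lit 1) (.e (nat_lit 57661) (nat_lit 152) .nil))))) .nil))) (.nd (nat_lit 6) 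
(.lf (nat_lit 203179) (.g (nat_lit 1086) (.e (nat_lit 73755) (nat_lit 8) (.e (nat_lit 557103) (nat_lit 14) (.e (nat_lit 180244) (nat_lit 5) (.e (nat_lit 540416) (nat_lit 32) .nil)))) .nil)) 
(.lf (nat_lit 203243) (.g (nat_lit 3092) (.e (nat_lit 73755) (nat_lit 8) (.e (nat_lit 557105) (nat_lit 14) (.e (nat_lit 180252) (nat_lit 10) (.e (nat_lit 573451) (nat_lit 9) (.e (nat_lit 1177) (nat_lit 87) (.e (nat_lit 57930) (nat_lit 282) (.e (nat_lit 163869) (nat_lit 2) (.e (nat_lit 196669) (nat_lit 14) .nil)))))))) (.g (nat_lit 4) .nil .nil))))) (.nd (nat_lit 5) (.nd (nat_lit 6) 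
(.lf (nat_lit 203163) (.g (nat_lit 2640) (.e (nat_lit 73755) (nat_lit 8) (.e (nat_lit 557098) (nat_lit 13) (.e (nat_lit 172133) (nat_lit 15) (.e (nat_lit 2175) (nat_lit 143) (.e (nat_lit 712747) (nat_lit 28) (.e (nat_lit 434209) (nat_lit 18) (.e (nat_lit 6277) (nat_lit 337) (.e (nat_lit 1213) (nat_lit 89) .nil)))))))) (.g (nat_lit 4) .nil .nil))) 
(.lf (nat_lit 203227) (.g (nat_lit 3597) (.e (nat_lit 73755) (nat_lit 8) (.e (nat_lit 557105) (nat_lit 14) (.e (nat_lit 180252) (nat_lit 10) (.e (nat_lit 573451) (nat_lit 9) (.e (nat_lit 52) (nat_lit 0) (.e (nat_lit 3748) (nat_lit 228) (.e (nat_lit 786455) (nat_lit 17) (.e (nat_lit 98048) (nat_lit 5) .nil)))))))) (.g (nat_lit 4) .nil .nil)))) (.nd (nat_lit 6) 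
(.lf (nat_lit 203195) (.g (nat_lit 1125) (.e (nat_lit 73755) (nat_lit 8) (.e (nat_lit 557104) (nat_lit 14) (.e (nat_lit 180244) (nat_lit 5) (.e (nat_lit 540416) (nat_lit 32) .nil)))) .nil)) 
(.lf (nat_lit 203259) (.g (nat_lit 2751) (.e (nat_lit 73755) (nat_lit 8) (.e (nat_lit 557105) (nat_lit 14) (.e (nat_lit 180252) (nat_lit 10) (.e (nat_lit 573474) (nat_lit 12) (.e (nat_lit 57345) (nat_lit 0) (.e (nat_lit 5591) (nat_lit 310) (.e (nat_lit 163867) (nat_lit 2) (.e (nat_lit 196669) (nat_lit 14) .nil)))))))) (.g (nat_lit 4) .nil .nil))))))) 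
(.nd (nat_lit 3) (.nd (nat_lit 4) (.nd (nat_lit 5) (.nd (nat_lit 6) 
(.lf (nat_lit 203143) (.g (nat_lit 3345) (.e (nat_lit 73755) (nat_lit 8) (.e (nat_lit 557098) (nat_lit 13) (.e (nat_lit 172064) (nat_lit 2) (.e (nat_lit 196656) (nat_lit 11) (.e (nat_lit 16392) (nat_lit 0) (.e (nat_lit 3279) (nat_lit 200) (.e (nat_lit 564992) (nat_lit 5) .nil))))))) (.g (nat_lit 4) .nil .nil))) 
(.lf (nat_lit 203207) (.g (nat_lit 640) (.e (nat_lit 73755) (nat_lit 8) (.e (nat_lit 557105) (nat_lit 14) (.e (nat_lit 180230) (nat_lit 0) .nil))) .nil))) (.nd (nat_lit 6) 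
(.lf (nat_lit 203175) (.g (nat_lit 504) (.e (nat_lit 73755) (nat_lit 8) (.e (nat_lit 557103) (nat_lit 14) (.e (nat_lit 180233) (nat_lit 0) .nil))) .nil)) 
(.lf (nat_lit 203239) (.g (nat_lit 3234) (.e (nat_lit 73755) (nat_lit 8) (.e (nat_lit 557105) (nat_lit 14) (.e (nat_lit 180252) (nat_lit 10) (.e (nat_lit 573451) (nat_lit 9) (.e (nat_lit 1175) (nat_lit 87) (.e (nat_lit 57924) (nat_lit 282) (.e (nat_lit 163867) (nat_lit 2) (.e (nat_lit 196669) (nat_lit 14) .nil)))))))) (.g (nat_lit 4) .nil .nil))))) (.nd (nat_lit 5) (.nd (nat_lit 6) 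
(.lf (nat_lit 203159) (.g (nat_lit 4296) (.e (nat_lit 73755) (nat_lit 8) (.e (nat_lit 557098) (nat_lit 13) (.e (nat_lit 172133) (nat_lit 15) (.e (nat_lit 2059) (nat_lit 142) (.e (nat_lit 704595) (nat_lit 5) (.e (nat_lit 180229) (nat_lit 0) (.e (nat_lit 6306) (nat_lit 337) (.e (nat_lit 1211) (nat_lit 89) .nil)))))))) (.g (nat_lit 5) .nil .nil))) 
(.lf (nat_lit 203223) (.g (nat_lit 2146) (.e (nat_lit 73755) (nat_lit 8) (.e (nat_lit 557105) (nat_lit 14) (.e (nat_lit 180252) (nat_lit 10) (.e (nat_lit 573446) (nat_lit 0) .nil)))) .nil))) (.nd (nat_lit 6) 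
(.lf (nat_lit 203191) (.g (nat_lit 3673) (.e (nat_lit 73755) (nat_lit 8) (.e (nat_lit 557104) (nat_lit 14) (.e (nat_lit 180229) (nat_lit 0) (.e (nat_lit 5548) (nat_lit 306) (.e (nat_lit 2640) (nat_lit 165) (.e (nat_lit 180227) (nat_lit 0) (.e (nat_lit 6262) (nat_lit 337) (.e (nat_lit 1208) (nat_lit 89) .nil)))))))) (.g (nat_lit 5) .nil .nil))) 
(.lf (nat_lit 203255) (.g (nat_lit 1995) (.e (nat_lit 73755) (nat_lit 8) (.e (nat_lit 557105) (nat_lit 14) (.e (nat_lit 180252) (nat_lit 10) (.e (nat_lit 573473) (nat_lit 12) (.e (nat_lit 57503) (nat_lit 38) .nil))))) .nil))))) (.nd (nat_lit 4) (.nd (nat_lit 5) (.nd (nat_lit 6) 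
(.lf (nat_lit 203151) (.g (nat_lit 2950) (.e (nat_lit 73755) (nat_lit 8) (.e (nat_lit 557098) (nat_lit 13) (.e (nat_lit 172133) (nat_lit 15) (.e (nat_lit 2059) (nat_lit 142) (.e (nat_lit 704595) (nat_lit 5) (.e (nat_lit 180227) (nat_lit 0) (.e (nat_lit 6262) (nat_lit 337) (.e (nat_lit 1208) (nat_lit 89) .nil)))))))) (.g (nat_lit 4) .nil .nil))) 
(.lf (nat_lit 203215) (.g (nat_lit 2472) (.e (nat_lit 73755) (nat_lit 8) (.e (nat_lit 557105) (nat_lit 14) (.e (nat_lit 180251) (nat_lit 10) (.e (nat_lit 573475) (nat_lit 12) (.e (nat_lit 57504) (nat_lit 38) .nil))))) .nil))) (.nd (nat_lit 6) 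
(.lf (nat_lit 203183) (.g (nat_lit 2677) (.e (nat_lit 73755) (nat_lit 8) (.e (nat_lit 557103) (nat_lit 14) (.e (nat_lit 180261) (nat_lit 20) (.e (nat_lit 655378) (nat_lit 4) (.e (nat_lit 172070) (nat_lit 4) (.e (nat_lit 229544) (nat_lit 152) (.e (nat_lit 1211) (nat_lit 89) .nil))))))) (.g (nat_lit 4) .nil .nil))) 
(.lf (nat_lit 203247) (.g (nat_lit 3052) (.e (nat_lit 73755) (nat_lit 8) (.e (nat_lit 557105) (nat_lit 14) (.e (nat_lit 180252) (nat_lit 10) (.e (nat_lit 573467) (nat_lit 10) (.e (nat_lit 8260) (nat_lit 45) (.e (nat_lit 778318) (nat_lit 3) (.e (nat_lit 57454) (nat_lit 21) (.e (nat_lit 507648) (nat_lit 19) .nil)))))))) (.g (nat_lit 4) .nil .nil))))) (.nd (nat_lit 5) (.nd (nat_lit 6) 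
(.lf (nat_lit 203167) (.g (nat_lit 881) (.e (nat_lit 73755) (nat_lit 8) (.e (nat_lit 557098) (nat_lit 13) (.e (nat_lit 172137) (nat_lit 15) (.e (nat_lit 2175) (nat_lit 143) .nil)))) .nil)) 
(.lf (nat_lit 203231) (.g (nat_lit 3263) (.e (nat_lit 73755) (nat_lit 8) (.e (nat_lit 557105) (nat_lit 14) (.e (nat_lit 180252) (nat_lit 10) (.e (nat_lit 573451) (nat_lit 9) (.e (nat_lit 1169) (nat_lit 87) (.e (nat_lit 57927) (nat_lit 282) (.e (nat_lit 163868) (nat_lit 2) (.e (nat_lit 196669) (nat_lit 14) .nil)))))))) (.g (nat_lit 4) .nil .nil)))) (.nd (nat_lit 6) 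
(.lf (nat_lit 203199) (.g (nat_lit 1619) (.e (nat_lit 73755) (nat_lit 8) (.e (nat_lit 557104) (nat_lit 14) (.e (nat_lit 180252) (nat_lit 10) (.e (nat_lit 573475) (nat_lit 12) .nil)))) .nil)) 
(.lf (nat_lit 203263) (.g (nat_lit 3279) (.e (nat_lit 73755) (nat_lit 8) (.e (nat_lit 557105) (nat_lit 14) (.e (nat_lit 180252) (nat_lit 10) (.e (nat_lit 573474) (nat_lit 12) (.e (nat_lit 57347) (nat_lit 0) (.e (nat_lit 5590) (nat_lit 310) (.e (nat_lit 163867) (nat_lit 2) (.e (nat_lit 196667) (nat_lit 14) .nil)))))))) (.g (nat_lit 5) .nil .nil))))))))))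

noncomputable def tv2683 : DT := (.nd (nat_lit 0) (.nd (nat_lit 1) (.nd (nat_lit 2) (.nd (nat_lit 3) (.nd (nat_lit 4) (.nd (nat_lit 5) 
(.lf (nat_lit 203264) (.g (nat_lit 3490) (.e (nat_lit 73755) (nat_lit 8) (.e (nat_lit 557105) (nat_lit 14) (.e (nat_lit 180252) (nat_lit 10) (.e (nat_lit 573474) (nat_lit 12) (.e (nat_lit 57347) (nat_lit 0) (.e (nat_lit 5592) (nat_lit 310) (.e (nat_lit 163871) (nat_lit 2) (.e (nat_lit 196669) (nat_lit 14) .nil)))))))) (.g (nat_lit 5) .nil .nil))) 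
(.lf (nat_lit 203296) (.g (nat_lit 2593) (.e (nat_lit 73755) (nat_lit 8) (.e (nat_lit 557105) (nat_lit 14) (.e (nat_lit 180252) (nat_lit 10) (.e (nat_lit 573474) (nat_lit 12) (.e (nat_lit 57508) (nat_lit 39) (.e (nat_lit 647200) (nat_lit 12) (.e (nat_lit 57472) (nat_lit 27) (.e (nat_lit 548890) (nat_lit 10) .nil)))))))) (.g (nat_lit 4) .nil .nil)))) (.nd (nat_lit 5) 
(.lf (nat_lit 203280) (.g (nat_lit 2984) (.e (nat_lit 73755) (nat_lit 8) (.e (nat_lit 557105) (nat_lit 14) (.e (nat_lit 180252) (nat_lit 10) (.e (nat_lit 573474) (nat_lit 12) (.e (nat_lit 57358) (nat_lit 0) (.e (nat_lit 5584) (nat_lit 310) (.e (nat_lit 163867) (nat_lit 2) (.e (nat_lit 196669) (nat_lit 14) .nil)))))))) (.g (nat_lit 4) .nil .nil))) 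
(.lf (nat_lit 203312) (.g (nat_lit 2493) (.e (nat_lit 73755) (nat_lit 8) (.e (nat_lit 557105) (nat_lit 14) (.e (nat_lit 180252) (nat_lit 10) (.e (nat_lit 573474) (nat_lit 12) (.e (nat_lit 57516) (nat_lit 42) (.e (nat_lit 671744) (nat_lit 0) (.e (nat_lit 1236) (nat_lit 91) (.e (nat_lit 98048) (nat_lit 5) .nil)))))))) (.g (nat_lit 4) .nil .nil))))) (.nd (nat_lit 4) (.nd (nat_lit 5) 
(.lf (nat_lit 203272) (.g (nat_lit 3163) (.e (nat_lit 73755) (nat_lit 8) (.e (nat_lit 557105) (nat_lit 14) (.e (nat_lit 180252) (nat_lit 10) (.e (nat_lit 573474) (nat_lit 12) (.e (nat_lit 57355) (nat_lit 0) (.e (nat_lit 5586) (nat_lit 310) (.e (nat_lit 163869) (nat_lit 2) (.e (nat_lit 196669) (nat_lit 14) .nil)))))))) (.g (nat_lit 4) .nil .nil))) 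
(.lf (nat_lit 203304) (.g (nat_lit 4207) (.e (nat_lit 73755) (nat_lit 8) (.e (nat_lit 557105) (nat_lit 14) (.e (nat_lit 180252) (nat_lit 10) (.e (nat_lit 573474) (nat_lit 12) (.e (nat_lit 57515) (nat_lit 42) (.e (nat_lit 671751) (nat_lit 0) (.e (nat_lit 1234) (nat_lit 91) (.e (nat_lit 98048) (nat_lit 5) .nil)))))))) (.g (nat_lit 7) .nil .nil)))) (.nd (nat_lit 5) 
(.lf (nat_lit 203288) (.g (nat_lit 2735) (.e (nat_lit 73755) (nat_lit 8) (.e (nat_lit 557105) (nat_lit 14) (.e (nat_lit 180252) (nat_lit 10) (.e (nat_lit 573474) (nat_lit 12) (.e (nat_lit 57506) (nat_lit 39) (.e (nat_lit 647203) (nat_lit 14) (.e (nat_lit 1139) (nat_lit 84) (.e (nat_lit 32788) (nat_lit 10) .nil)))))))) (.g (nat_lit 4) .nil .nil))) 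
(.lf (nat_lit 203320) (.g (nat_lit 4071) (.e (nat_lit 73755) (nat_lit 8) (.e (nat_lit 557105) (nat_lit 14) (.e (nat_lit 180252) (nat_lit 10) (.e (nat_lit 573474) (nat_lit 12) (.e (nat_lit 57516) (nat_lit 42) (.e (nat_lit 671747) (nat_lit 0) (.e (nat_lit 1239) (nat_lit 91) (.e (nat_lit 98048) (nat_lit 5) .nil)))))))) (.g (nat_lit 7) .nil .nil)))))) 
(.nd (nat_lit 3) (.nd (nat_lit 4) (.nd (nat_lit 5) 
(.lf (nat_lit 203268) (.g (nat_lit 2770) (.e (nat_lit 73755) (nat_lit 8) (.e (nat_lit 557105) (nat_lit 14) (.e (nat_lit 180252) (nat_lit 10) (.e (nat_lit 573474) (nat_lit 12) (.e (nat_lit 57349) (nat_lit 0) (.e (nat_lit 5595) (nat_lit 310) (.e (nat_lit 163867) (nat_lit 2) (.e (nat_lit 196669) (nat_lit 14) .nil)))))))) (.g (nat_lit 4) .nil .nil))) 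
(.lf (nat_lit 203300) (.g (nat_lit 2647) (.e (nat_lit 73755) (nat_lit 8) (.e (nat_lit 557105) (nat_lit 14) (.e (nat_lit 180252) (nat_lit 10) (.e (nat_lit 573474) (nat_lit 12) (.e (nat_lit 57515) (nat_lit 42) (.e (nat_lit 671746) (nat_lit 0) (.e (nat_lit 1016) (nat_lit 81) (.e (nat_lit 1691) (nat_lit 117) (.e (nat_lit 500068) (nat_lit 19) .nil))))))))) (.g (nat_lit 4) .nil .nil)))) 
(.nd (nat_lit 5) 
(.lf (nat_lit 203284) (.g (nat_lit 2849) (.e (nat_lit 73755) (nat_lit 8) (.e (nat_lit 557105) (nat_lit 14) (.e (nat_lit 180252) (nat_lit 10) (.e (nat_lit 573474) (nat_lit 12) (.e (nat_lit 57360) (nat_lit 0) (.e (nat_lit 5597) (nat_lit 310) (.e (nat_lit 163867) (nat_lit 2) (.e (nat_lit 196669) (nat_lit 14) .nil)))))))) (.g (nat_lit 4) .nil .nil))) 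
(.lf (nat_lit 203316) (.g (nat_lit 3832) (.e (nat_lit 73755) (nat_lit 8) (.e (nat_lit 557105) (nat_lit 14) (.e (nat_lit 180252) (nat_lit 10) (.e (nat_lit 573474) (nat_lit 12) (.e (nat_lit 57516) (nat_lit 42) (.e (nat_lit 671745) (nat_lit 0) (.e (nat_lit 1239) (nat_lit 91) (.e (nat_lit 98048) (nat_lit 5) .nil)))))))) (.g (nat_lit 7) .nil .nil))))) (.nd (nat_lit 4) (.nd (nat_lit 5) 
(.lf (nat_lit 203276) (.g (nat_lit 3017) (.e (nat_lit 73755) (nat_lit 8) (.e (nat_lit 557105) (nat_lit 14) (.e (nat_lit 180252) (nat_lit 10) (.e (nat_lit 573474) (nat_lit 12) (.e (nat_lit 57355) (nat_lit 0) (.e (nat_lit 5596) (nat_lit 310) (.e (nat_lit 163869) (nat_lit 2) (.e (nat_lit 196669) (nat_lit 14) .nil)))))))) (.g (nat_lit 4) .nil .nil))) 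
(.lf (nat_lit 203308) (.g (nat_lit 2281) (.e (nat_lit 73755) (nat_lit 8) (.e (nat_lit 557105) (nat_lit 14) (.e (nat_lit 180252) (nat_lit 10) (.e (nat_lit 573474) (nat_lit 12) (.e (nat_lit 57515) (nat_lit 42) (.e (nat_lit 679680) (nat_lit 0) (.e (nat_lit 1239) (nat_lit 91) (.e (nat_lit 98048) (nat_lit 5) .nil)))))))) (.g (nat_lit 4) .nil .nil)))) (.nd (nat_lit 5) 
(.lf (nat_lit 203292) (.g (nat_lit 2529) (.e (nat_lit 73755) (nat_lit 8) (.e (nat_lit 557105) (nat_lit 14) (.e (nat_lit 180252) (nat_lit 10) (.e (nat_lit 573474) (nat_lit 12) (.e (nat_lit 57507) (nat_lit 39) (.e (nat_lit 647181) (nat_lit 3) (.e (nat_lit 163953) (nat_lit 21) (.e (nat_lit 500072) (nat_lit 19) .nil)))))))) (.g (nat_lit 4) .nil .nil))) 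
(.lf (nat_lit 203324) (.g (nat_lit 4031) (.e (nat_lit 73755) (nat_lit 8) (.e (nat_lit 557105) (nat_lit 14) (.e (nat_lit 180252) (nat_lit 10) (.e (nat_lit 573474) (nat_lit 12) (.e (nat_lit 57516) (nat_lit 42) (.e (nat_lit 671748) (nat_lit 0) (.e (nat_lit 1233) (nat_lit 91) (.e (nat_lit 98048) (nat_lit 5) .nil)))))))) (.g (nat_lit 7) .nil .nil))))))) 
(.nd (nat_lit 2) (.nd (nat_lit 3) (.nd (nat_lit 4) (.nd (nat_lit 5) 
(.lf (nat_lit 203266) (.g (nat_lit 3171) (.e (nat_lit 73755) (nat_lit 8) (.e (nat_lit 557105) (nat_lit 14) (.e (nat_lit 180252) (nat_lit 10) (.e (nat_lit 573474) (nat_lit 12) (.e (nat_lit 57347) (nat_lit 0) (.e (nat_lit 5593) (nat_lit 310) (.e (nat_lit 163870) (nat_lit 2) (.e (nat_lit 196667) (nat_lit 14) .nil)))))))) (.g (nat_lit 5) .nil .nil))) 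
(.lf (nat_lit 203298) (.g (nat_lit 2071) (.e (nat_lit 73755) (nat_lit 8) (.e (nat_lit 557105) (nat_lit 14) (.e (nat_lit 180252) (nat_lit 10) (.e (nat_lit 573474) (nat_lit 12) (.e (nat_lit 57515) (nat_lit 42) .nil))))) .nil))) (.nd (nat_lit 5) 
(.lf (nat_lit 203282) (.g (nat_lit 2858) (.e (nat_lit 73755) (nat_lit 8) (.e (nat_lit 557105) (nat_lit 14) (.e (nat_lit 180252) (nat_lit 10) (.e (nat_lit 573474) (nat_lit 12) (.e (nat_lit 57358) (nat_lit 0) (.e (nat_lit 5603) (nat_lit 310) (.e (nat_lit 163867) (nat_lit 2) (.e (nat_lit 196669) (nat_lit 14) .nil)))))))) (.g (nat_lit 4) .nil .nil))) 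
(.lf (nat_lit 203314) (.g (nat_lit 3977) (.e (nat_lit 73755) (nat_lit 8) (.e (nat_lit 557105) (nat_lit 14) (.e (nat_lit 180252) (nat_lit 10) (.e (nat_lit 573474) (nat_lit 12) (.e (nat_lit 57516) (nat_lit 42) (.e (nat_lit 671744) (nat_lit 0) (.e (nat_lit 1239) (nat_lit 91) (.e (nat_lit 98048) (nat_lit 5) .nil)))))))) (.g (nat_lit 7) .nil .nil))))) (.nd (nat_lit 4) (.nd (nat_lit 5) 
(.lf (nat_lit 203274) (.g (nat_lit 3098) (.e (nat_lit 73755) (nat_lit 8) (.e (nat_lit 557105) (nat_lit 14) (.e (nat_lit 180252) (nat_lit 10) (.e (nat_lit 573474) (nat_lit 12) (.e (nat_lit 57355) (nat_lit 0) (.e (nat_lit 5589) (nat_lit 310) (.e (nat_lit 163868) (nat_lit 2) (.e (nat_lit 196669) (nat_lit 14) .nil)))))))) (.g (nat_lit 4) .nil .nil))) 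
(.lf (nat_lit 203306) (.g (nat_lit 2866) (.e (nat_lit 73755) (nat_lit 8) (.e (nat_lit 557105) (nat_lit 14) (.e (nat_lit 180252) (nat_lit 10) (.e (nat_lit 573474) (nat_lit 12) (.e (nat_lit 57515) (nat_lit 42) (.e (nat_lit 671751) (nat_lit 0) (.e (nat_lit 1237) (nat_lit 91) (.e (nat_lit 98048) (nat_lit 5) .nil)))))))) (.g (nat_lit 4) .nil .nil)))) (.nd (nat_lit 5) 
(.lf (nat_lit 203290) (.g (nat_lit 2270) (.e (nat_lit 73755) (nat_lit 8) (.e (nat_lit 557105) (nat_lit 14) (.e (nat_lit 180252) (nat_lit 10) (.e (nat_lit 573474) (nat_lit 12) (.e (nat_lit 57507) (nat_lit 39) (.e (nat_lit 647181) (nat_lit 3) (.e (nat_lit 163952) (nat_lit 21) (.e (nat_lit 500072) (nat_lit 19) .nil)))))))) (.g (nat_lit 4) .nil .nil))) 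
(.lf (nat_lit 203322) (.g (nat_lit 3601) (.e (nat_lit 73755) (nat_lit 8) (.e (nat_lit 557105) (nat_lit 14) (.e (nat_lit 180252) (nat_lit 10) (.e (nat_lit 573474) (nat_lit 12) (.e (nat_lit 57516) (nat_lit 42) (.e (nat_lit 671748) (nat_lit 0) (.e (nat_lit 1183) (nat_lit 87) (.e (nat_lit 65280) (nat_lit 134) (.e (nat_lit 1211) (nat_lit 89) .nil))))))))) (.g (nat_lit 7) .nil .nil)))))) 
(.nd (nat_lit 3) (.nd (nat_lit 4) (.nd (nat_lit 5) 
(.lf (nat_lit 203270) (.g (nat_lit 2912) (.e (nat_lit 73755) (nat_lit 8) (.e (nat_lit 557105) (nat_lit 14) (.e (nat_lit 180252) (nat_lit 10) (.e (nat_lit 573474) (nat_lit 12) (.e (nat_lit 57353) (nat_lit 0) (.e (nat_lit 5595) (nat_lit 310) (.e (nat_lit 163867) (nat_lit 2) (.e (nat_lit 196669) (nat_lit 14) .nil)))))))) (.g (nat_lit 4) .nil .nil))) 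
(.lf (nat_lit 203302) (.g (nat_lit 2739) (.e (nat_lit 73755) (nat_lit 8) (.e (nat_lit 557105) (nat_lit 14) (.e (nat_lit 180252) (nat_lit 10) (.e (nat_lit 573474) (nat_lit 12) (.e (nat_lit 57515) (nat_lit 42) (.e (nat_lit 671747) (nat_lit 0) (.e (nat_lit 1239) (nat_lit 91) (.e (nat_lit 98048) (nat_lit 5) .nil)))))))) (.g (nat_lit 4) .nil .nil)))) (.nd (nat_lit 5) 
(.lf (nat_lit 203286) (.g (nat_lit 4775) (.e (nat_lit 73755) (nat_lit 8) (.e (nat_lit 557105) (nat_lit 14) (.e (nat_lit 180252) (nat_lit 10) (.e (nat_lit 573474) (nat_lit 12) (.e (nat_lit 57360) (nat_lit 0) (.e (nat_lit 5949) (nat_lit 322) (.e (nat_lit 57373) (nat_lit 2) (.e (nat_lit 98048) (nat_lit 5) .nil)))))))) (.g (nat_lit 7) .nil .nil))) 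
(.lf (nat_lit 203318) (.g (nat_lit 3852) (.e (nat_lit 73755) (nat_lit 8) (.e (nat_lit 557105) (nat_lit 14) (.e (nat_lit 180252) (nat_lit 10) (.e (nat_lit 573474) (nat_lit 12) (.e (nat_lit 57516) (nat_lit 42) (.e (nat_lit 671746) (nat_lit 0) (.e (nat_lit 1239) (nat_lit 91) (.e (nat_lit 98048) (nat_lit 5) .nil)))))))) (.g (nat_lit 7) .nil .nil))))) (.nd (nat_lit 4) (.nd (nat_lit 5) 
(.lf (nat_lit 203278) (.g (nat_lit 2911) (.e (nat_lit 73755) (nat_lit 8) (.e (nat_lit 557105) (nat_lit 14) (.e (nat_lit 180252) (nat_lit 10) (.e (nat_lit 573474) (nat_lit 12) (.e (nat_lit 57355) (nat_lit 0) (.e (nat_lit 5603) (nat_lit 310) (.e (nat_lit 163867) (nat_lit 2) (.e (nat_lit 196669) (nat_lit 14) .nil)))))))) (.g (nat_lit 4) .nil .nil))) 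
(.lf (nat_lit 203310) (.g (nat_lit 3000) (.e (nat_lit 73755) (nat_lit 8) (.e (nat_lit 557105) (nat_lit 14) (.e (nat_lit 180252) (nat_lit 10) (.e (nat_lit 573474) (nat_lit 12) (.e (nat_lit 57516) (nat_lit 42) (.e (nat_lit 671744) (nat_lit 0) (.e (nat_lit 1231) (nat_lit 91) (.e (nat_lit 98048) (nat_lit 5) .nil)))))))) (.g (nat_lit 6) .nil .nil)))) (.nd (nat_lit 5) 
(.lf (nat_lit 203294) (.g (nat_lit 2642) (.e (nat_lit 73755) (nat_lit 8) (.e (nat_lit 557105) (nat_lit 14) (.e (nat_lit 180252) (nat_lit 10) (.e (nat_lit 573474) (nat_lit 12) (.e (nat_lit 57507) (nat_lit 39) (.e (nat_lit 647200) (nat_lit 12) (.e (nat_lit 57472) (nat_lit 27) (.e (nat_lit 548890) (nat_lit 10) .nil)))))))) (.g (nat_lit 4) .nil .nil))) 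
(.lf (nat_lit 203326) (.g (nat_lit 3545) (.e (nat_lit 73755) (nat_lit 8) (.e (nat_lit 557105) (nat_lit 14) (.e (nat_lit 180252) (nat_lit 10) (.e (nat_lit 573474) (nat_lit 12) (.e (nat_lit 57516) (nat_lit 42) (.e (nat_lit 671748) (nat_lit 0) (.e (nat_lit 1303) (nat_lit 97) (.e (nat_lit 139281) (nat_lit 5) .nil)))))))) (.g (nat_lit 6) .nil .nil)))))))) 
(.nd (nat_lit 1) (.nd (nat_lit 2) (.nd (nat_lit 3) (.nd (nat_lit 4) (.nd (nat_lit 5) 
(.lf (nat_lit 203265) (.g (nat_lit 3402) (.e (nat_lit 73755) (nat_lit 8) (.e (nat_lit 557105) (nat_lit 14) (.e (nat_lit 180252) (nat_lit 10) (.e (nat_lit 573474) (nat_lit 12) (.e (nat_lit 57347) (nat_lit 0) (.e (nat_lit 5593) (nat_lit 310) (.e (nat_lit 163869) (nat_lit 2) (.e (nat_lit 196669) (nat_lit 14) .nil)))))))) (.g (nat_lit 5) .nil .nil))) 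
(.lf (nat_lit 203297) (.g (nat_lit 4199) (.e (nat_lit 73755) (nat_lit 8) (.e (nat_lit 557105) (nat_lit 14) (.e (nat_lit 180252) (nat_lit 10) (.e (nat_lit 573474) (nat_lit 12) (.e (nat_lit 57508) (nat_lit 39) (.e (nat_lit 647200) (nat_lit 12) (.e (nat_lit 57473) (nat_lit 27) (.e (nat_lit 548890) (nat_lit 10) .nil)))))))) (.g (nat_lit 8) .nil .nil)))) (.nd (nat_lit 5) 
(.lf (nat_lit 203281) (.g (nat_lit 3012) (.e (nat_lit 73755) (nat_lit 8) (.e (nat_lit 557105) (nat_lit 14) (.e (nat_lit 180252) (nat_lit 10) (.e (nat_lit 573474) (nat_lit 12) (.e (nat_lit 57358) (nat_lit 0) (.e (nat_lit 5601) (nat_lit 310) (.e (nat_lit 163869) (nat_lit 2) (.e (nat_lit 196669) (nat_lit 14) .nil)))))))) (.g (nat_lit 4) .nil .nil))) 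
(.lf (nat_lit 203313) (.g (nat_lit 2865) (.e (nat_lit 73755) (nat_lit 8) (.e (nat_lit 557105) (nat_lit 14) (.e (nat_lit 180252) (nat_lit 10) (.e (nat_lit 573474) (nat_lit 12) (.e (nat_lit 57516) (nat_lit 42) (.e (nat_lit 671744) (nat_lit 0) (.e (nat_lit 1237) (nat_lit 91) (.e (nat_lit 98048) (nat_lit 5) .nil)))))))) (.g (nat_lit 5) .nil .nil))))) (.nd (nat_lit 4) (.nd (nat_lit 5) 
(.lf (nat_lit 203273) (.g (nat_lit 3045) (.e (nat_lit 73755) (nat_lit 8) (.e (nat_lit 557105) (nat_lit 14) (.e (nat_lit 180252) (nat_lit 10) (.e (nat_lit 573474) (nat_lit 12) (.e (nat_lit 57355) (nat_lit 0) (.e (nat_lit 5587) (nat_lit 310) (.e (nat_lit 163869) (nat_lit 2) (.e (nat_lit 196669) (nat_lit 14) .nil)))))))) (.g (nat_lit 4) .nil .nil))) 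
(.lf (nat_lit 203305) (.g (nat_lit 3384) (.e (nat_lit 73755) (nat_lit 8) (.e (nat_lit 557105) (nat_lit 14) (.e (nat_lit 180252) (nat_lit 10) (.e (nat_lit 573474) (nat_lit 12) (.e (nat_lit 57515) (nat_lit 42) (.e (nat_lit 671751) (nat_lit 0) (.e (nat_lit 1236) (nat_lit 91) (.e (nat_lit 98048) (nat_lit 5) .nil)))))))) (.g (nat_lit 5) .nil .nil)))) (.nd (nat_lit 5) 
(.lf (nat_lit 203289) (.g (nat_lit 2715) (.e (nat_lit 73755) (nat_lit 8) (.e (nat_lit 557105) (nat_lit 14) (.e (nat_lit 180252) (nat_lit 10) (.e (nat_lit 573474) (nat_lit 12) (.e (nat_lit 57507) (nat_lit 39) (.e (nat_lit 647181) (nat_lit 3) (.e (nat_lit 163952) (nat_lit 21) (.e (nat_lit 500070) (nat_lit 19) .nil)))))))) (.g (nat_lit 4) .nil .nil))) 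
(.lf (nat_lit 203321) (.g (nat_lit 3086) (.e (nat_lit 73755) (nat_lit 8) (.e (nat_lit 557105) (nat_lit 14) (.e (nat_lit 180252) (nat_lit 10) (.e (nat_lit 573474) (nat_lit 12) (.e (nat_lit 57516) (nat_lit 42) (.e (nat_lit 671748) (nat_lit 0) (.e (nat_lit 984) (nat_lit 81) (.e (nat_lit 1759) (nat_lit 117) (.e (nat_lit 500072) (nat_lit 19) .nil))))))))) (.g (nat_lit 6) .nil .nil)))))) 
(.nd (nat_lit 3) (.nd (nat_lit 4) (.nd (nat_lit 5) 
(.lf (nat_lit 203269) (.g (nat_lit 2958) (.e (nat_lit 73755) (nat_lit 8) (.e (nat_lit 557105) (nat_lit 14) (.e (nat_lit 180252) (nat_lit 10) (.e (nat_lit 573474) (nat_lit 12) (.e (nat_lit 57351) (nat_lit 0) (.e (nat_lit 5595) (nat_lit 310) (.e (nat_lit 163867) (nat_lit 2) (.e (nat_lit 196669) (nat_lit 14) .nil)))))))) (.g (nat_lit 4) .nil .nil))) 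
(.lf (nat_lit 203301) (.g (nat_lit 3191) (.e (nat_lit 73755) (nat_lit 8) (.e (nat_lit 557105) (nat_lit 14) (.e (nat_lit 180252) (nat_lit 10) (.e (nat_lit 573474) (nat_lit 12) (.e (nat_lit 57515) (nat_lit 42) (.e (nat_lit 671746) (nat_lit 0) (.e (nat_lit 1239) (nat_lit 91) (.e (nat_lit 98048) (nat_lit 5) .nil)))))))) (.g (nat_lit 4) .nil .nil)))) (.nd (nat_lit 5) 
(.lf (nat_lit 203285) (.g (nat_lit 2260) (.e (nat_lit 73755) (nat_lit 8) (.e (nat_lit 557105) (nat_lit 14) (.e (nat_lit 180252) (nat_lit 10) (.e (nat_lit 573474) (nat_lit 12) (.e (nat_lit 57360) (nat_lit 0) (.e (nat_lit 5949) (nat_lit 322) (.e (nat_lit 57370) (nat_lit 2) (.e (nat_lit 98048) (nat_lit 5) .nil)))))))) (.g (nat_lit 4) .nil .nil))) 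
(.lf (nat_lit 203317) (.g (nat_lit 3082) (.e (nat_lit 73755) (nat_lit 8) (.e (nat_lit 557105) (nat_lit 14) (.e (nat_lit 180252) (nat_lit 10) (.e (nat_lit 573474) (nat_lit 12) (.e (nat_lit 57516) (nat_lit 42) (.e (nat_lit 671746) (nat_lit 0) (.e (nat_lit 1016) (nat_lit 81) (.e (nat_lit 1691) (nat_lit 117) (.e (nat_lit 500069) (nat_lit 19) .nil))))))))) (.g (nat_lit 5) .nil .nil))))) 
(.nd (nat_lit 4) (.nd (nat_lit 5) 
(.lf (nat_lit 203277) (.g (nat_lit 2783) (.e (nat_lit 73755) (nat_lit 8) (.e (nat_lit 557105) (nat_lit 14) (.e (nat_lit 180252) (nat_lit 10) (.e (nat_lit 573474) (nat_lit 12) (.e (nat_lit 57355) (nat_lit 0) (.e (nat_lit 5600) (nat_lit 310) (.e (nat_lit 163867) (nat_lit 2) (.e (nat_lit 196669) (nat_lit 14) .nil)))))))) (.g (nat_lit 4) .nil .nil))) 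
(.lf (nat_lit 203309) (.g (nat_lit 2522) (.e (nat_lit 73755) (nat_lit 8) (.e (nat_lit 557105) (nat_lit 14) (.e (nat_lit 180252) (nat_lit 10) (.e (nat_lit 573474) (nat_lit 12) (.e (nat_lit 57515) (nat_lit 42) (.e (nat_lit 671759) (nat_lit 3) (.e (nat_lit 57460) (nat_lit 21) (.e (nat_lit 500070) (nat_lit 19) .nil)))))))) (.g (nat_lit 4) .nil .nil)))) (.nd (nat_lit 5) 
(.lf (nat_lit 203293) (.g (nat_lit 3121) (.e (nat_lit 73755) (nat_lit 8) (.e (nat_lit 557105) (nat_lit 14) (.e (nat_lit 180252) (nat_lit 10) (.e (nat_lit 573474) (nat_lit 12) (.e (nat_lit 57507) (nat_lit 39) (.e (nat_lit 647200) (nat_lit 12) (.e (nat_lit 57471) (nat_lit 27) (.e (nat_lit 548890) (nat_lit 10) .nil)))))))) (.g (nat_lit 4) .nil .nil))) 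
(.lf (nat_lit 203325) (.g (nat_lit 4613) (.e (nat_lit 73755) (nat_lit 8) (.e (nat_lit 557105) (nat_lit 14) (.e (nat_lit 180252) (nat_lit 10) (.e (nat_lit 573474) (nat_lit 12) (.e (nat_lit 57516) (nat_lit 42) (.e (nat_lit 671748) (nat_lit 0) (.e (nat_lit 1239) (nat_lit 91) (.e (nat_lit 98048) (nat_lit 5) .nil)))))))) (.g (nat_lit 7) .nil .nil))))))) 
(.nd (nat_lit 2) (.nd (nat_lit 3) (.nd (nat_lit 4) (.nd (nat_lit 5) 
(.lf (nat_lit 203267) (.g (nat_lit 3095) (.e (nat_lit 73755) (nat_lit 8) (.e (nat_lit 557105) (nat_lit 14) (.e (nat_lit 180252) (nat_lit 10) (.e (nat_lit 573474) (nat_lit 12) (.e (nat_lit 57349) (nat_lit 0) (.e (nat_lit 5592) (nat_lit 310) (.e (nat_lit 163869) (nat_lit 2) (.e (nat_lit 196669) (nat_lit 14) .nil)))))))) (.g (nat_lit 4) .nil .nil))) 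
(.lf (nat_lit 203299) (.g (nat_lit 3087) (.e (nat_lit 73755) (nat_lit 8) (.e (nat_lit 557105) (nat_lit 14) (.e (nat_lit 180252) (nat_lit 10) (.e (nat_lit 573474) (nat_lit 12) (.e (nat_lit 57515) (nat_lit 42) (.e (nat_lit 671745) (nat_lit 0) (.e (nat_lit 1239) (nat_lit 91) (.e (nat_lit 98048) (nat_lit 5) .nil)))))))) (.g (nat_lit 4) .nil .nil)))) (.nd (nat_lit 5) 
(.lf (nat_lit 203283) (.g (nat_lit 2998) (.e (nat_lit 73755) (nat_lit 8) (.e (nat_lit 557105) (nat_lit 14) (.e (nat_lit 180252) (nat_lit 10) (.e (nat_lit 573474) (nat_lit 12) (.e (nat_lit 57360) (nat_lit 0) (.e (nat_lit 5596) (nat_lit 310) (.e (nat_lit 163869) (nat_lit 2) (.e (nat_lit 196669) (nat_lit 14) .nil)))))))) (.g (nat_lit 4) .nil .nil))) 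
(.lf (nat_lit 203315) (.g (nat_lit 3031) (.e (nat_lit 73755) (nat_lit 8) (.e (nat_lit 557105) (nat_lit 14) (.e (nat_lit 180252) (nat_lit 10) (.e (nat_lit 573474) (nat_lit 12) (.e (nat_lit 57516) (nat_lit 42) (.e (nat_lit 671744) (nat_lit 0) (.e (nat_lit 1242) (nat_lit 91) (.e (nat_lit 98048) (nat_lit 5) .nil)))))))) (.g (nat_lit 6) .nil .nil))))) (.nd (nat_lit 4) (.nd (nat_lit 5) 
(.lf (nat_lit 203275) (.g (nat_lit 3184) (.e (nat_lit 73755) (nat_lit 8) (.e (nat_lit 557105) (nat_lit 14) (.e (nat_lit 180252) (nat_lit 10) (.e (nat_lit 573474) (nat_lit 12) (.e (nat_lit 57355) (nat_lit 0) (.e (nat_lit 5589) (nat_lit 310) (.e (nat_lit 163871) (nat_lit 2) (.e (nat_lit 196669) (nat_lit 14) .nil)))))))) (.g (nat_lit 4) .nil .nil))) 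
(.lf (nat_lit 203307) (.g (nat_lit 2086) (.e (nat_lit 73755) (nat_lit 8) (.e (nat_lit 557105) (nat_lit 14) (.e (nat_lit 180252) (nat_lit 10) (.e (nat_lit 573474) (nat_lit 12) (.e (nat_lit 57515) (nat_lit 42) (.e (nat_lit 671751) (nat_lit 0) (.e (nat_lit 1238) (nat_lit 91) (.e (nat_lit 98048) (nat_lit 5) .nil)))))))) (.g (nat_lit 4) .nil .nil)))) (.nd (nat_lit 5) 
(.lf (nat_lit 203291) (.g (nat_lit 2435) (.e (nat_lit 73755) (nat_lit 8) (.e (nat_lit 557105) (nat_lit 14) (.e (nat_lit 180252) (nat_lit 10) (.e (nat_lit 573474) (nat_lit 12) (.e (nat_lit 57507) (nat_lit 39) (.e (nat_lit 647181) (nat_lit 3) (.e (nat_lit 163953) (nat_lit 21) (.e (nat_lit 500070) (nat_lit 19) .nil)))))))) (.g (nat_lit 4) .nil .nil))) 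
(.lf (nat_lit 203323) (.g (nat_lit 3947) (.e (nat_lit 73755) (nat_lit 8) (.e (nat_lit 557105) (nat_lit 14) (.e (nat_lit 180252) (nat_lit 10) (.e (nat_lit 573474) (nat_lit 12) (.e (nat_lit 57516) (nat_lit 42) (.e (nat_lit 671748) (nat_lit 0) (.e (nat_lit 1225) (nat_lit 91) (.e (nat_lit 98048) (nat_lit 5) .nil)))))))) (.g (nat_lit 7) .nil .nil)))))) 
(.nd (nat_lit 3) (.nd (nat_lit 4) (.nd (nat_lit 5) 
(.lf (nat_lit 203271) (.g (nat_lit 3060) (.e (nat_lit 73755) (nat_lit 8) (.e (nat_lit 557105) (nat_lit 14) (.e (nat_lit 180252) (nat_lit 10) (.e (nat_lit 573474) (nat_lit 12) (.e (nat_lit 57355) (nat_lit 0) (.e (nat_lit 5584) (nat_lit 310) (.e (nat_lit 163867) (nat_lit 2) (.e (nat_lit 196669) (nat_lit 14) .nil)))))))) (.g (nat_lit 4) .nil .nil))) 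
(.lf (nat_lit 203303) (.g (nat_lit 3021) (.e (nat_lit 73755) (nat_lit 8) (.e (nat_lit 557105) (nat_lit 14) (.e (nat_lit 180252) (nat_lit 10) (.e (nat_lit 573474) (nat_lit 12) (.e (nat_lit 57515) (nat_lit 42) (.e (nat_lit 671750) (nat_lit 0) (.e (nat_lit 1234) (nat_lit 91) (.e (nat_lit 98048) (nat_lit 5) .nil)))))))) (.g (nat_lit 4) .nil .nil)))) (.nd (nat_lit 5) 
(.lf (nat_lit 203287) (.g (nat_lit 2722) (.e (nat_lit 73755) (nat_lit 8) (.e (nat_lit 557105) (nat_lit 14) (.e (nat_lit 180252) (nat_lit 10) (.e (nat_lit 573474) (nat_lit 12) (.e (nat_lit 57506) (nat_lit 39) (.e (nat_lit 647201) (nat_lit 12) (.e (nat_lit 57471) (nat_lit 27) (.e (nat_lit 548890) (nat_lit 10) .nil)))))))) (.g (nat_lit 4) .nil .nil))) 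
(.lf (nat_lit 203319) (.g (nat_lit 3092) (.e (nat_lit 73755) (nat_lit 8) (.e (nat_lit 557105) (nat_lit 14) (.e (nat_lit 180252) (nat_lit 10) (.e (nat_lit 573474) (nat_lit 12) (.e (nat_lit 57516) (nat_lit 42) (.e (nat_lit 671747) (nat_lit 0) (.e (nat_lit 1016) (nat_lit 81) (.e (nat_lit 1691) (nat_lit 117) (.e (nat_lit 500069) (nat_lit 19) .nil))))))))) (.g (nat_lit 5) .nil .nil))))) 
(.nd (nat_lit 4) (.nd (nat_lit 5) 
(.lf (nat_lit 203279) (.g (nat_lit 2685) (.e (nat_lit 73755) (nat_lit 8) (.e (nat_lit 557105) (nat_lit 14) (.e (nat_lit 180252) (nat_lit 10) (.e (nat_lit 573474) (nat_lit 12) (.e (nat_lit 57356) (nat_lit 0) (.e (nat_lit 5600) (nat_lit 310) (.e (nat_lit 163867) (nat_lit 2) (.e (nat_lit 196669) (nat_lit 14) .nil)))))))) (.g (nat_lit 4) .nil .nil))) 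
(.lf (nat_lit 203311) (.g (nat_lit 3738) (.e (nat_lit 73755) (nat_lit 8) (.e (nat_lit 557105) (nat_lit 14) (.e (nat_lit 180252) (nat_lit 10) (.e (nat_lit 573474) (nat_lit 12) (.e (nat_lit 57516) (nat_lit 42) (.e (nat_lit 671744) (nat_lit 0) (.e (nat_lit 1234) (nat_lit 91) (.e (nat_lit 98048) (nat_lit 5) .nil)))))))) (.g (nat_lit 7) .nil .nil)))) (.nd (nat_lit 5) 
(.lf (nat_lit 203295) (.g (nat_lit 4584) (.e (nat_lit 73755) (nat_lit 8) (.e (nat_lit 557105) (nat_lit 14) (.e (nat_lit 180252) (nat_lit 10) (.e (nat_lit 573474) (nat_lit 12) (.e (nat_lit 57507) (nat_lit 39) (.e (nat_lit 647203) (nat_lit 14) (.e (nat_lit 1139) (nat_lit 84) (.e (nat_lit 32788) (nat_lit 10) .nil)))))))) (.g (nat_lit 8) .nil .nil))) 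
(.lf (nat_lit 203327) (.g (nat_lit 3556) (.e (nat_lit 73755) (nat_lit 8) (.e (nat_lit 557105) (nat_lit 14) (.e (nat_lit 180252) (nat_lit 10) (.e (nat_lit 573474) (nat_lit 12) (.e (nat_lit 57516) (nat_lit 42) (.e (nat_lit 671749) (nat_lit 0) (.e (nat_lit 1234) (nat_lit 91) (.e (nat_lit 98048) (nat_lit 5) .nil)))))))) (.g (nat_lit 7) .nil .nil)))))))))

noncomputable def tv2684 : DT := (.nd (nat_lit 0) (.nd (nat_lit 1) (.nd (nat_lit 2) (.nd (nat_lit 3) (.nd (nat_lit 4) (.nd (nat_lit 5) 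
(.lf (nat_lit 203328) (.g (nat_lit 3801) (.e (nat_lit 73755) (nat_lit 8) (.e (nat_lit 557105) (nat_lit 14) (.e (nat_lit 180252) (nat_lit 10) (.e (nat_lit 573474) (nat_lit 12) (.e (nat_lit 57516) (nat_lit 42) (.e (nat_lit 671750) (nat_lit 0) (.e (nat_lit 1234) (nat_lit 91) (.e (nat_lit 98048) (nat_lit 5) .nil)))))))) (.g (nat_lit 7) .nil .nil))) 
(.lf (nat_lit 203360) (.g (nat_lit 3453) (.e (nat_lit 73755) (nat_lit 8) (.e (nat_lit 557105) (nat_lit 14) (.e (nat_lit 180252) (nat_lit 10) (.e (nat_lit 573503) (nat_lit 18) (.e (nat_lit 1349) (nat_lit 102) (.e (nat_lit 286765) (nat_lit 15) (.e (nat_lit 3134) (nat_lit 193) (.e (nat_lit 500070) (nat_lit 19) .nil)))))))) (.g (nat_lit 4) .nil .nil)))) (.nd (nat_lit 5) 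
(.lf (nat_lit 203344) (.g (nat_lit 2196) (.e (nat_lit 73755) (nat_lit 8) (.e (nat_lit 557105) (nat_lit 14) (.e (nat_lit 180252) (nat_lit 10) (.e (nat_lit 573477) (nat_lit 12) .nil)))) .nil)) 
(.lf (nat_lit 203376) (.g (nat_lit 1609) (.e (nat_lit 73755) (nat_lit 8) (.e (nat_lit 557105) (nat_lit 14) (.e (nat_lit 180261) (nat_lit 20) (.e (nat_lit 655379) (nat_lit 5) (.e (nat_lit 188160) (nat_lit 24) (.e (nat_lit 688182) (nat_lit 17) .nil)))))) (.g (nat_lit 4) .nil .nil))))) (.nd (nat_lit 4) (.nd (nat_lit 5) 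
(.lf (nat_lit 203336) (.g (nat_lit 3534) (.e (nat_lit 73755) (nat_lit 8) (.e (nat_lit 557105) (nat_lit 14) (.e (nat_lit 180252) (nat_lit 10) (.e (nat_lit 573474) (nat_lit 12) (.e (nat_lit 57516) (nat_lit 42) (.e (nat_lit 671757) (nat_lit 3) (.e (nat_lit 57454) (nat_lit 21) (.e (nat_lit 507648) (nat_lit 19) .nil)))))))) (.g (nat_lit 7) .nil .nil))) 
(.lf (nat_lit 203368) (.g (nat_lit 422) (.e (nat_lit 73755) (nat_lit 8) (.e (nat_lit 557105) (nat_lit 14) (.e (nat_lit 180261) (nat_lit 20) .nil))) .nil))) (.nd (nat_lit 5) 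
(.lf (nat_lit 203352) (.g (nat_lit 3282) (.e (nat_lit 73755) (nat_lit 8) (.e (nat_lit 557105) (nat_lit 14) (.e (nat_lit 180252) (nat_lit 10) (.e (nat_lit 573503) (nat_lit 18) (.e (nat_lit 1349) (nat_lit 102) (.e (nat_lit 286724) (nat_lit 0) (.e (nat_lit 1886) (nat_lit 127) (.e (nat_lit 581670) (nat_lit 14) .nil)))))))) (.g (nat_lit 4) .nil .nil))) 
(.lf (nat_lit 203384) (.g (nat_lit 4227) (.e (nat_lit 73755) (nat_lit 8) (.e (nat_lit 557119) (nat_lit 18) (.e (nat_lit 2797) (nat_lit 180) (.e (nat_lit 303145) (nat_lit 13) (.e (nat_lit 483346) (nat_lit 17) (.e (nat_lit 976) (nat_lit 81) (.e (nat_lit 6892) (nat_lit 371) (.e (nat_lit 1208) (nat_lit 89) .nil)))))))) (.g (nat_lit 5) .nil .nil)))))) (.nd (nat_lit 3) (.nd (nat_lit 4) (.nd (nat_lit 5) 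
(.lf (nat_lit 203332) (.g (nat_lit 3661) (.e (nat_lit 73755) (nat_lit 8) (.e (nat_lit 557105) (nat_lit 14) (.e (nat_lit 180252) (nat_lit 10) (.e (nat_lit 573474) (nat_lit 12) (.e (nat_lit 57516) (nat_lit 42) (.e (nat_lit 671752) (nat_lit 0) (.e (nat_lit 1235) (nat_lit 91) (.e (nat_lit 98048) (nat_lit 5) .nil)))))))) (.g (nat_lit 7) .nil .nil))) 
(.lf (nat_lit 203364) (.g (nat_lit 3178) (.e (nat_lit 73755) (nat_lit 8) (.e (nat_lit 557105) (nat_lit 14) (.e (nat_lit 180252) (nat_lit 10) (.e (nat_lit 573503) (nat_lit 18) (.e (nat_lit 1349) (nat_lit 102) (.e (nat_lit 286765) (nat_lit 15) (.e (nat_lit 3147) (nat_lit 193) (.e (nat_lit 500070) (nat_lit 19) .nil)))))))) (.g (nat_lit 4) .nil .nil)))) (.nd (nat_lit 5) 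
(.lf (nat_lit 203348) (.g (nat_lit 2497) (.e (nat_lit 73755) (nat_lit 8) (.e (nat_lit 557105) (nat_lit 14) (.e (nat_lit 180252) (nat_lit 10) (.e (nat_lit 573503) (nat_lit 18) (.e (nat_lit 1347) (nat_lit 102) (.e (nat_lit 286724) (nat_lit 0) (.e (nat_lit 7936) (nat_lit 126) (.e (nat_lit 573489) (nat_lit 14) .nil)))))))) (.g (nat_lit 4) .nil .nil))) 
(.lf (nat_lit 203380) (.g (nat_lit 3052) (.e (nat_lit 73755) (nat_lit 8) (.e (nat_lit 557119) (nat_lit 18) (.e (nat_lit 2797) (nat_lit 180) (.e (nat_lit 303127) (nat_lit 9) (.e (nat_lit 426558) (nat_lit 33) (.e (nat_lit 392960) (nat_lit 5) .nil)))))) (.g (nat_lit 5) .nil .nil))))) (.nd (nat_lit 4) (.nd (nat_lit 5) 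
(.lf (nat_lit 203340) (.g (nat_lit 3777) (.e (nat_lit 73755) (nat_lit 8) (.e (nat_lit 557105) (nat_lit 14) (.e (nat_lit 180252) (nat_lit 10) (.e (nat_lit 573474) (nat_lit 12) (.e (nat_lit 57516) (nat_lit 42) (.e (nat_lit 671759) (nat_lit 3) (.e (nat_lit 57460) (nat_lit 21) (.e (nat_lit 500070) (nat_lit 19) .nil)))))))) (.g (nat_lit 7) .nil .nil))) 
(.lf (nat_lit 203372) (.g (nat_lit 2417) (.e (nat_lit 73755) (nat_lit 8) (.e (nat_lit 557105) (nat_lit 14) (.e (nat_lit 180261) (nat_lit 20) (.e (nat_lit 655364) (nat_lit 0) (.e (nat_lit 2964) (nat_lit 185) (.e (nat_lit 434289) (nat_lit 43) (.e (nat_lit 696362) (nat_lit 17) .nil))))))) (.g (nat_lit 4) .nil .nil)))) (.nd (nat_lit 5) 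
(.lf (nat_lit 203356) (.g (nat_lit 3275) (.e (nat_lit 73755) (nat_lit 8) (.e (nat_lit 557105) (nat_lit 14) (.e (nat_lit 180252) (nat_lit 10) (.e (nat_lit 573503) (nat_lit 18) (.e (nat_lit 1349) (nat_lit 102) (.e (nat_lit 286765) (nat_lit 15) (.e (nat_lit 3107) (nat_lit 193) (.e (nat_lit 500070) (nat_lit 19) .nil)))))))) (.g (nat_lit 4) .nil .nil))) 
(.lf (nat_lit 203388) (.g (nat_lit 1537) (.e (nat_lit 73755) (nat_lit 8) (.e (nat_lit 557119) (nat_lit 18) (.e (nat_lit 2798) (nat_lit 180) (.e (nat_lit 303133) (nat_lit 9) (.e (nat_lit 433920) (nat_lit 33) .nil))))) .nil)))))) (.nd (nat_lit 2) (.nd (nat_lit 3) (.nd (nat_lit 4) (.nd (nat_lit 5) 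
(.lf (nat_lit 203330) (.g (nat_lit 3351) (.e (nat_lit 73755) (nat_lit 8) (.e (nat_lit 557105) (nat_lit 14) (.e (nat_lit 180252) (nat_lit 10) (.e (nat_lit 573474) (nat_lit 12) (.e (nat_lit 57516) (nat_lit 42) (.e (nat_lit 671751) (nat_lit 0) (.e (nat_lit 1236) (nat_lit 91) (.e (nat_lit 98048) (nat_lit 5) .nil)))))))) (.g (nat_lit 6) .nil .nil))) 
(.lf (nat_lit 203362) (.g (nat_lit 3316) (.e (nat_lit 73755) (nat_lit 8) (.e (nat_lit 557105) (nat_lit 14) (.e (nat_lit 180252) (nat_lit 10) (.e (nat_lit 573503) (nat_lit 18) (.e (nat_lit 1349) (nat_lit 102) (.e (nat_lit 286765) (nat_lit 15) (.e (nat_lit 3143) (nat_lit 193) (.e (nat_lit 500072) (nat_lit 19) .nil)))))))) (.g (nat_lit 4) .nil .nil)))) (.nd (nat_lit 5) 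
(.lf (nat_lit 203346) (.g (nat_lit 3102) (.e (nat_lit 73755) (nat_lit 8) (.e (nat_lit 557105) (nat_lit 14) (.e (nat_lit 180252) (nat_lit 10) (.e (nat_lit 573503) (nat_lit 18) (.e (nat_lit 1074) (nat_lit 81) (.e (nat_lit 5629) (nat_lit 312) (.e (nat_lit 100) (nat_lit 2) (.e (nat_lit 98048) (nat_lit 5) .nil)))))))) (.g (nat_lit 4) .nil .nil))) 
(.lf (nat_lit 203378) (.g (nat_lit 1495) (.e (nat_lit 73755) (nat_lit 8) (.e (nat_lit 557105) (nat_lit 14) (.e (nat_lit 180265) (nat_lit 21) (.e (nat_lit 663568) (nat_lit 5) (.e (nat_lit 73773) (nat_lit 25) (.e (nat_lit 770073) (nat_lit 9) .nil)))))) (.g (nat_lit 4) .nil .nil))))) (.nd (nat_lit 4) (.nd (nat_lit 5) 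
(.lf (nat_lit 203338) (.g (nat_lit 2640) (.e (nat_lit 73755) (nat_lit 8) (.e (nat_lit 557105) (nat_lit 14) (.e (nat_lit 180252) (nat_lit 10) (.e (nat_lit 573474) (nat_lit 12) (.e (nat_lit 57516) (nat_lit 42) (.e (nat_lit 671757) (nat_lit 3) (.e (nat_lit 57460) (nat_lit 21) (.e (nat_lit 500070) (nat_lit 19) .nil)))))))) (.g (nat_lit 4) .nil .nil))) 
(.lf (nat_lit 203370) (.g (nat_lit 3406) (.e (nat_lit 73755) (nat_lit 8) (.e (nat_lit 557105) (nat_lit 14) (.e (nat_lit 180261) (nat_lit 20) (.e (nat_lit 655364) (nat_lit 0) (.e (nat_lit 2964) (nat_lit 185) (.e (nat_lit 434209) (nat_lit 18) (.e (nat_lit 6306) (nat_lit 337) (.e (nat_lit 1211) (nat_lit 89) .nil)))))))) (.g (nat_lit 6) .nil .nil)))) (.nd (nat_lit 5) 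
(.lf (nat_lit 203354) (.g (nat_lit 3314) (.e (nat_lit 73755) (nat_lit 8) (.e (nat_lit 557105) (nat_lit 14) (.e (nat_lit 180252) (nat_lit 10) (.e (nat_lit 573503) (nat_lit 18) (.e (nat_lit 1349) (nat_lit 102) (.e (nat_lit 286728) (nat_lit 0) (.e (nat_lit 1885) (nat_lit 127) (.e (nat_lit 581670) (nat_lit 14) .nil)))))))) (.g (nat_lit 4) .nil .nil))) 
(.lf (nat_lit 203386) (.g (nat_lit 2000) (.e (nat_lit 73755) (nat_lit 8) (.e (nat_lit 557119) (nat_lit 18) (.e (nat_lit 2797) (nat_lit 180) (.e (nat_lit 303145) (nat_lit 13) (.e (nat_lit 483368) (nat_lit 19) .nil))))) .nil))))) (.nd (nat_lit 3) (.nd (nat_lit 4) (.nd (nat_lit 5) 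
(.lf (nat_lit 203334) (.g (nat_lit 3856) (.e (nat_lit 73755) (nat_lit 8) (.e (nat_lit 557105) (nat_lit 14) (.e (nat_lit 180252) (nat_lit 10) (.e (nat_lit 573474) (nat_lit 12) (.e (nat_lit 57516) (nat_lit 42) (.e (nat_lit 671754) (nat_lit 0) (.e (nat_lit 1235) (nat_lit 91) (.e (nat_lit 98048) (nat_lit 5) .nil)))))))) (.g (nat_lit 7) .nil .nil))) 
(.lf (nat_lit 203366) (.g (nat_lit 1858) (.e (nat_lit 73755) (nat_lit 8) (.e (nat_lit 557105) (nat_lit 14) (.e (nat_lit 180252) (nat_lit 10) (.e (nat_lit 573503) (nat_lit 18) (.e (nat_lit 1358) (nat_lit 102) .nil))))) .nil))) (.nd (nat_lit 5) 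
(.lf (nat_lit 203350) (.g (nat_lit 2112) (.e (nat_lit 73755) (nat_lit 8) (.e (nat_lit 557105) (nat_lit 14) (.e (nat_lit 180252) (nat_lit 10) (.e (nat_lit 573503) (nat_lit 18) (.e (nat_lit 1348) (nat_lit 102) .nil))))) .nil)) 
(.lf (nat_lit 203382) (.g (nat_lit 2080) (.e (nat_lit 73755) (nat_lit 8) (.e (nat_lit 557119) (nat_lit 18) (.e (nat_lit 2797) (nat_lit 180) (.e (nat_lit 303145) (nat_lit 13) (.e (nat_lit 483329) (nat_lit 0) .nil))))) .nil)))) (.nd (nat_lit 4) (.nd (nat_lit 5) 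
(.lf (nat_lit 203342) (.g (nat_lit 2575) (.e (nat_lit 73755) (nat_lit 8) (.e (nat_lit 557105) (nat_lit 14) (.e (nat_lit 180252) (nat_lit 10) (.e (nat_lit 573475) (nat_lit 12) (.e (nat_lit 57501) (nat_lit 37) .nil))))) .nil)) 
(.lf (nat_lit 203374) (.g (nat_lit 1526) (.e (nat_lit 73755) (nat_lit 8) (.e (nat_lit 557105) (nat_lit 14) (.e (nat_lit 180261) (nat_lit 20) (.e (nat_lit 655378) (nat_lit 4) (.e (nat_lit 172061) (nat_lit 1) .nil))))) .nil))) (.nd (nat_lit 5) 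
(.lf (nat_lit 203358) (.g (nat_lit 4263) (.e (nat_lit 73755) (nat_lit 8) (.e (nat_lit 557105) (nat_lit 14) (.e (nat_lit 180252) (nat_lit 10) (.e (nat_lit 573503) (nat_lit 18) (.e (nat_lit 1349) (nat_lit 102) (.e (nat_lit 286765) (nat_lit 15) (.e (nat_lit 3124) (nat_lit 193) (.e (nat_lit 500070) (nat_lit 19) .nil)))))))) (.g (nat_lit 5) .nil .nil))) 
(.lf (nat_lit 203390) (.g (nat_lit 1600) (.e (nat_lit 81664) (nat_lit 8) (.e (nat_lit 557087) (nat_lit 11) (.e (nat_lit 24639) (nat_lit 10) (.e (nat_lit 344115) (nat_lit 20) .nil)))) .nil))))))) (.nd (nat_lit 1) (.nd (nat_lit 2) (.nd (nat_lit 3) (.nd (nat_lit 4) (.nd (nat_lit 5) 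
(.lf (nat_lit 203329) (.g (nat_lit 4290) (.e (nat_lit 73755) (nat_lit 8) (.e (nat_lit 557105) (nat_lit 14) (.e (nat_lit 180252) (nat_lit 10) (.e (nat_lit 573474) (nat_lit 12) (.e (nat_lit 57516) (nat_lit 42) (.e (nat_lit 671751) (nat_lit 0) (.e (nat_lit 1234) (nat_lit 91) (.e (nat_lit 98048) (nat_lit 5) .nil)))))))) (.g (nat_lit 7) .nil .nil))) 
(.lf (nat_lit 203361) (.g (nat_lit 3346) (.e (nat_lit 73755) (nat_lit 8) (.e (nat_lit 557105) (nat_lit 14) (.e (nat_lit 180252) (nat_lit 10) (.e (nat_lit 573503) (nat_lit 18) (.e (nat_lit 1349) (nat_lit 102) (.e (nat_lit 286765) (nat_lit 15) (.e (nat_lit 3143) (nat_lit 193) (.e (nat_lit 500070) (nat_lit 19) .nil)))))))) (.g (nat_lit 4) .nil .nil)))) (.nd (nat_lit 5) 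
(.lf (nat_lit 203345) (.g (nat_lit 1374) (.e (nat_lit 73755) (nat_lit 8) (.e (nat_lit 557105) (nat_lit 14) (.e (nat_lit 180252) (nat_lit 10) (.e (nat_lit 573503) (nat_lit 18) .nil)))) .nil)) 
(.lf (nat_lit 203377) (.g (nat_lit 2611) (.e (nat_lit 73755) (nat_lit 8) (.e (nat_lit 557105) (nat_lit 14) (.e (nat_lit 180265) (nat_lit 21) (.e (nat_lit 663555) (nat_lit 0) (.e (nat_lit 1524) (nat_lit 108) (.e (nat_lit 335986) (nat_lit 1) (.e (nat_lit 57655) (nat_lit 152) (.e (nat_lit 1206) (nat_lit 89) .nil)))))))) (.g (nat_lit 6) .nil .nil))))) (.nd (nat_lit 4) (.nd (nat_lit 5) 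
(.lf (nat_lit 203337) (.g (nat_lit 3353) (.e (nat_lit 73755) (nat_lit 8) (.e (nat_lit 557105) (nat_lit 14) (.e (nat_lit 180252) (nat_lit 10) (.e (nat_lit 573474) (nat_lit 12) (.e (nat_lit 57516) (nat_lit 42) (.e (nat_lit 671757) (nat_lit 3) (.e (nat_lit 57459) (nat_lit 21) (.e (nat_lit 500070) (nat_lit 19) .nil)))))))) (.g (nat_lit 7) .nil .nil))) 
(.lf (nat_lit 203369) (.g (nat_lit 2354) (.e (nat_lit 73755) (nat_lit 8) (.e (nat_lit 557105) (nat_lit 14) (.e (nat_lit 180261) (nat_lit 20) (.e (nat_lit 655364) (nat_lit 0) (.e (nat_lit 2964) (nat_lit 185) (.e (nat_lit 434209) (nat_lit 18) (.e (nat_lit 6264) (nat_lit 337) (.e (nat_lit 1211) (nat_lit 89) .nil)))))))) (.g (nat_lit 4) .nil .nil)))) (.nd (nat_lit 5) 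
(.lf (nat_lit 203353) (.g (nat_lit 2681) (.e (nat_lit 73755) (nat_lit 8) (.e (nat_lit 557105) (nat_lit 14) (.e (nat_lit 180252) (nat_lit 10) (.e (nat_lit 573503) (nat_lit 18) (.e (nat_lit 1349) (nat_lit 102) (.e (nat_lit 286728) (nat_lit 0) (.e (nat_lit 991) (nat_lit 81) (.e (nat_lit 4255) (nat_lit 251) (.e (nat_lit 1211) (nat_lit 89) .nil))))))))) (.g (nat_lit 4) .nil .nil))) 
(.lf (nat_lit 203385) (.g (nat_lit 3845) (.e (nat_lit 73755) (nat_lit 8) (.e (nat_lit 557119) (nat_lit 18) (.e (nat_lit 2797) (nat_lit 180) (.e (nat_lit 303145) (nat_lit 13) (.e (nat_lit 483363) (nat_lit 18) (.e (nat_lit 65280) (nat_lit 146) (.e (nat_lit 1211) (nat_lit 89) .nil))))))) (.g (nat_lit 5) .nil .nil)))))) (.nd (nat_lit 3) (.nd (nat_lit 4) (.nd (nat_lit 5) 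
(.lf (nat_lit 203333) (.g (nat_lit 2929) (.e (nat_lit 73755) (nat_lit 8) (.e (nat_lit 557105) (nat_lit 14) (.e (nat_lit 180252) (nat_lit 10) (.e (nat_lit 573474) (nat_lit 12) (.e (nat_lit 57516) (nat_lit 42) (.e (nat_lit 671753) (nat_lit 0) (.e (nat_lit 1232) (nat_lit 91) (.e (nat_lit 98048) (nat_lit 5) .nil)))))))) (.g (nat_lit 5) .nil .nil))) 
(.lf (nat_lit 203365) (.g (nat_lit 3873) (.e (nat_lit 73755) (nat_lit 8) (.e (nat_lit 557105) (nat_lit 14) (.e (nat_lit 180252) (nat_lit 10) (.e (nat_lit 573503) (nat_lit 18) (.e (nat_lit 1349) (nat_lit 102) (.e (nat_lit 294656) (nat_lit 17) (.e (nat_lit 196669) (nat_lit 14) .nil))))))) (.g (nat_lit 5) .nil .nil)))) (.nd (nat_lit 5) 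
(.lf (nat_lit 203349) (.g (nat_lit 3029) (.e (nat_lit 73755) (nat_lit 8) (.e (nat_lit 557105) (nat_lit 14) (.e (nat_lit 180252) (nat_lit 10) (.e (nat_lit 573503) (nat_lit 18) (.e (nat_lit 1347) (nat_lit 102) (.e (nat_lit 294656) (nat_lit 17) (.e (nat_lit 196669) (nat_lit 14) .nil))))))) (.g (nat_lit 4) .nil .nil))) 
(.lf (nat_lit 203381) (.g (nat_lit 751) (.e (nat_lit 73755) (nat_lit 8) (.e (nat_lit 557119) (nat_lit 18) (.e (nat_lit 2797) (nat_lit 180) (.e (nat_lit 303145) (nat_lit 13) .nil)))) .nil)))) (.nd (nat_lit 4) (.nd (nat_lit 5) 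
(.lf (nat_lit 203341) (.g (nat_lit 2561) (.e (nat_lit 73755) (nat_lit 8) (.e (nat_lit 557105) (nat_lit 14) (.e (nat_lit 180252) (nat_lit 10) (.e (nat_lit 573475) (nat_lit 12) (.e (nat_lit 57360) (nat_lit 0) (.e (nat_lit 5949) (nat_lit 322) (.e (nat_lit 57373) (nat_lit 2) (.e (nat_lit 98048) (nat_lit 5) .nil)))))))) (.g (nat_lit 4) .nil .nil))) 
(.lf (nat_lit 203373) (.g (nat_lit 1797) (.e (nat_lit 73755) (nat_lit 8) (.e (nat_lit 557105) (nat_lit 14) (.e (nat_lit 180261) (nat_lit 20) (.e (nat_lit 655378) (nat_lit 4) (.e (nat_lit 172041) (nat_lit 0) (.e (nat_lit 3453) (nat_lit 216) (.e (nat_lit 688182) (nat_lit 17) .nil))))))) (.g (nat_lit 4) .nil .nil)))) (.nd (nat_lit 5) 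
(.lf (nat_lit 203357) (.g (nat_lit 3196) (.e (nat_lit 73755) (nat_lit 8) (.e (nat_lit 557105) (nat_lit 14) (.e (nat_lit 180252) (nat_lit 10) (.e (nat_lit 573503) (nat_lit 18) (.e (nat_lit 1349) (nat_lit 102) (.e (nat_lit 286765) (nat_lit 15) (.e (nat_lit 3107) (nat_lit 193) (.e (nat_lit 500072) (nat_lit 19) .nil)))))))) (.g (nat_lit 4) .nil .nil))) 
(.lf (nat_lit 203389) (.g (nat_lit 3820) (.e (nat_lit 73755) (nat_lit 8) (.e (nat_lit 557119) (nat_lit 18) (.e (nat_lit 2798) (nat_lit 180) (.e (nat_lit 303145) (nat_lit 13) (.e (nat_lit 483363) (nat_lit 18) (.e (nat_lit 65280) (nat_lit 146) (.e (nat_lit 1211) (nat_lit 89) .nil))))))) (.g (nat_lit 4) .nil .nil))))))) (.nd (nat_lit 2) (.nd (nat_lit 3) (.nd (nat_lit 4) (.nd (nat_lit 5) 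
(.lf (nat_lit 203331) (.g (nat_lit 2833) (.e (nat_lit 73755) (nat_lit 8) (.e (nat_lit 557105) (nat_lit 14) (.e (nat_lit 180252) (nat_lit 10) (.e (nat_lit 573474) (nat_lit 12) (.e (nat_lit 57516) (nat_lit 42) (.e (nat_lit 671751) (nat_lit 0) (.e (nat_lit 1237) (nat_lit 91) (.e (nat_lit 98048) (nat_lit 5) .nil)))))))) (.g (nat_lit 5) .nil .nil))) 
(.lf (nat_lit 203363) (.g (nat_lit 3240) (.e (nat_lit 73755) (nat_lit 8) (.e (nat_lit 557105) (nat_lit 14) (.e (nat_lit 180252) (nat_lit 10) (.e (nat_lit 573503) (nat_lit 18) (.e (nat_lit 1349) (nat_lit 102) (.e (nat_lit 286765) (nat_lit 15) (.e (nat_lit 3144) (nat_lit 193) (.e (nat_lit 500070) (nat_lit 19) .nil)))))))) (.g (nat_lit 4) .nil .nil)))) (.nd (nat_lit 5) 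
(.lf (nat_lit 203347) (.g (nat_lit 2256) (.e (nat_lit 73755) (nat_lit 8) (.e (nat_lit 557105) (nat_lit 14) (.e (nat_lit 180252) (nat_lit 10) (.e (nat_lit 573503) (nat_lit 18) (.e (nat_lit 1347) (nat_lit 102) .nil))))) .nil)) 
(.lf (nat_lit 203379) (.g (nat_lit 2280) (.e (nat_lit 73755) (nat_lit 8) (.e (nat_lit 557119) (nat_lit 18) (.e (nat_lit 2797) (nat_lit 180) (.e (nat_lit 303119) (nat_lit 3) (.e (nat_lit 204838) (nat_lit 20) .nil))))) .nil)))) (.nd (nat_lit 4) (.nd (nat_lit 5) 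
(.lf (nat_lit 203339) (.g (nat_lit 3076) (.e (nat_lit 73755) (nat_lit 8) (.e (nat_lit 557105) (nat_lit 14) (.e (nat_lit 180252) (nat_lit 10) (.e (nat_lit 573474) (nat_lit 12) (.e (nat_lit 57516) (nat_lit 42) (.e (nat_lit 671759) (nat_lit 3) (.e (nat_lit 57459) (nat_lit 21) (.e (nat_lit 500070) (nat_lit 19) .nil)))))))) (.g (nat_lit 5) .nil .nil))) 
(.lf (nat_lit 203371) (.g (nat_lit 2163) (.e (nat_lit 73755) (nat_lit 8) (.e (nat_lit 557105) (nat_lit 14) (.e (nat_lit 180261) (nat_lit 20) (.e (nat_lit 655364) (nat_lit 0) (.e (nat_lit 2964) (nat_lit 185) (.e (nat_lit 434285) (nat_lit 42) (.e (nat_lit 688182) (nat_lit 17) .nil))))))) (.g (nat_lit 4) .nil .nil)))) (.nd (nat_lit 5) 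
(.lf (nat_lit 203355) (.g (nat_lit 2773) (.e (nat_lit 73755) (nat_lit 8) (.e (nat_lit 557105) (nat_lit 14) (.e (nat_lit 180252) (nat_lit 10) (.e (nat_lit 573503) (nat_lit 18) (.e (nat_lit 1349) (nat_lit 102) (.e (nat_lit 286736) (nat_lit 4) (.e (nat_lit 123019) (nat_lit 122) (.e (nat_lit 1211) (nat_lit 89) .nil)))))))) (.g (nat_lit 4) .nil .nil))) 
(.lf (nat_lit 203387) (.g (nat_lit 1614) (.e (nat_lit 73755) (nat_lit 8) (.e (nat_lit 557119) (nat_lit 18) (.e (nat_lit 2798) (nat_lit 180) (.e (nat_lit 303126) (nat_lit 9) .nil)))) .nil))))) (.nd (nat_lit 3) (.nd (nat_lit 4) (.nd (nat_lit 5) 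
(.lf (nat_lit 203335) (.g (nat_lit 3183) (.e (nat_lit 73755) (nat_lit 8) (.e (nat_lit 557105) (nat_lit 14) (.e (nat_lit 180252) (nat_lit 10) (.e (nat_lit 573474) (nat_lit 12) (.e (nat_lit 57516) (nat_lit 42) (.e (nat_lit 671757) (nat_lit 3) (.e (nat_lit 57453) (nat_lit 21) (.e (nat_lit 500069) (nat_lit 19) .nil)))))))) (.g (nat_lit 6) .nil .nil))) 
(.lf (nat_lit 203367) (.g (nat_lit 709) (.e (nat_lit 73755) (nat_lit 8) (.e (nat_lit 557105) (nat_lit 14) (.e (nat_lit 180258) (nat_lit 16) .nil))) .nil))) (.nd (nat_lit 5) 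
(.lf (nat_lit 203351) (.g (nat_lit 2177) (.e (nat_lit 73755) (nat_lit 8) (.e (nat_lit 557105) (nat_lit 14) (.e (nat_lit 180252) (nat_lit 10) (.e (nat_lit 573503) (nat_lit 18) (.e (nat_lit 1349) (nat_lit 102) .nil))))) .nil)) 
(.lf (nat_lit 203383) (.g (nat_lit 1756) (.e (nat_lit 73755) (nat_lit 8) (.e (nat_lit 557119) (nat_lit 18) (.e (nat_lit 2797) (nat_lit 180) (.e (nat_lit 303145) (nat_lit 13) (.e (nat_lit 491264) (nat_lit 0) .nil))))) .nil)))) (.nd (nat_lit 4) (.nd (nat_lit 5) 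
(.lf (nat_lit 203343) (.g (nat_lit 2566) (.e (nat_lit 73755) (nat_lit 8) (.e (nat_lit 557105) (nat_lit 14) (.e (nat_lit 180252) (nat_lit 10) (.e (nat_lit 573475) (nat_lit 12) (.e (nat_lit 57504) (nat_lit 38) .nil))))) .nil)) 
(.lf (nat_lit 203375) (.g (nat_lit 1495) (.e (nat_lit 73755) (nat_lit 8) (.e (nat_lit 557105) (nat_lit 14) (.e (nat_lit 180261) (nat_lit 20) (.e (nat_lit 655379) (nat_lit 5) (.e (nat_lit 180268) (nat_lit 24) (.e (nat_lit 688182) (nat_lit 17) .nil)))))) (.g (nat_lit 4) .nil .nil)))) (.nd (nat_lit 5) 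
(.lf (nat_lit 203359) (.g (nat_lit 4045) (.e (nat_lit 73755) (nat_lit 8) (.e (nat_lit 557105) (nat_lit 14) (.e (nat_lit 180252) (nat_lit 10) (.e (nat_lit 573503) (nat_lit 18) (.e (nat_lit 1349) (nat_lit 102) (.e (nat_lit 286765) (nat_lit 15) (.e (nat_lit 3124) (nat_lit 193) (.e (nat_lit 500072) (nat_lit 19) .nil)))))))) (.g (nat_lit 5) .nil .nil))) 
(.lf (nat_lit 203391) (.g (nat_lit 1961) (.e (nat_lit 81664) (nat_lit 8) (.e (nat_lit 557087) (nat_lit 11) (.e (nat_lit 24640) (nat_lit 10) (.e (nat_lit 344115) (nat_lit 20) .nil)))) .nil))))))))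

noncomputable def tv2685 : DT := (.nd (nat_lit 0) (.nd (nat_lit 1) (.nd (nat_lit 2) (.nd (nat_lit 3) (.nd (nat_lit 4) (.nd (nat_lit 5) 
(.lf (nat_lit 203392) (.g (nat_lit 1699) (.e (nat_lit 81664) (nat_lit 10) (.e (nat_lit 573489) (nat_lit 14) (.e (nat_lit 73754) (nat_lit 8) (.e (nat_lit 557101) (nat_lit 13) (.e (nat_lit 179968) (nat_lit 17) .nil))))) .nil)) 
(.lf (nat_lit 203424) (.g (nat_lit 2865) (.e (nat_lit 73766) (nat_lit 19) (.e (nat_lit 647199) (nat_lit 11) (.e (nat_lit 16473) (nat_lit 14) (.e (nat_lit 491560) (nat_lit 10) (.e (nat_lit 344152) (nat_lit 34) (.e (nat_lit 622617) (nat_lit 10) .nil)))))) (.g (nat_lit 6) .nil .nil)))) (.nd (nat_lit 5) 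
(.lf (nat_lit 203408) (.g (nat_lit 481) (.e (nat_lit 73764) (nat_lit 18) (.e (nat_lit 638998) (nat_lit 8) (.e (nat_lit 172079) (nat_lit 7) .nil))) .nil)) 
(.lf (nat_lit 203440) (.g (nat_lit 1233) (.e (nat_lit 81664) (nat_lit 21) (.e (nat_lit 663568) (nat_lit 5) (.e (nat_lit 73782) (nat_lit 32) (.e (nat_lit 3067) (nat_lit 190) (.e (nat_lit 483072) (nat_lit 13) .nil))))) .nil)))) (.nd (nat_lit 4) (.nd (nat_lit 5) 
(.lf (nat_lit 203400) (.g (nat_lit 2702) (.e (nat_lit 73757) (nat_lit 11) (.e (nat_lit 581659) (nat_lit 9) (.e (nat_lit 1529) (nat_lit 109) (.e (nat_lit 344133) (nat_lit 26) (.e (nat_lit 557098) (nat_lit 13) (.e (nat_lit 172140) (nat_lit 22) (.e (nat_lit 139281) (nat_lit 5) .nil))))))) (.g (nat_lit 7) .nil .nil))) 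
(.lf (nat_lit 203432) (.g (nat_lit 2120) (.e (nat_lit 73768) (nat_lit 19) (.e (nat_lit 647199) (nat_lit 11) (.e (nat_lit 16425) (nat_lit 7) (.e (nat_lit 409648) (nat_lit 18) (.e (nat_lit 303107) (nat_lit 0) .nil))))) .nil))) (.nd (nat_lit 5) 
(.lf (nat_lit 203416) (.g (nat_lit 2381) (.e (nat_lit 73766) (nat_lit 19) (.e (nat_lit 647195) (nat_lit 9) (.e (nat_lit 1181) (nat_lit 87) (.e (nat_lit 57872) (nat_lit 264) (.e (nat_lit 1211) (nat_lit 89) (.e (nat_lit 81664) (nat_lit 35) (.e (nat_lit 163977) (nat_lit 30) (.e (nat_lit 573487) (nat_lit 14) .nil)))))))) (.g (nat_lit 4) .nil .nil))) 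
(.lf (nat_lit 203448) (.g (nat_lit 2204) (.e (nat_lit 73770) (nat_lit 22) (.e (nat_lit 671759) (nat_lit 3) (.e (nat_lit 57479) (nat_lit 28) (.e (nat_lit 557107) (nat_lit 15) (.e (nat_lit 188440) (nat_lit 20) .nil))))) .nil))))) (.nd (nat_lit 3) (.nd (nat_lit 4) (.nd (nat_lit 5) 
(.lf (nat_lit 203396) (.g (nat_lit 2436) (.e (nat_lit 81664) (nat_lit 10) (.e (nat_lit 573489) (nat_lit 14) (.e (nat_lit 73755) (nat_lit 8) (.e (nat_lit 557098) (nat_lit 13) (.e (nat_lit 179968) (nat_lit 17) .nil))))) .nil)) 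
(.lf (nat_lit 203428) (.g (nat_lit 3123) (.e (nat_lit 73767) (nat_lit 19) (.e (nat_lit 647199) (nat_lit 11) (.e (nat_lit 16473) (nat_lit 14) (.e (nat_lit 491560) (nat_lit 10) (.e (nat_lit 344151) (nat_lit 34) (.e (nat_lit 622617) (nat_lit 10) .nil)))))) (.g (nat_lit 6) .nil .nil)))) (.nd (nat_lit 5) 
(.lf (nat_lit 203412) (.g (nat_lit 486) (.e (nat_lit 73764) (nat_lit 18) (.e (nat_lit 638998) (nat_lit 8) (.e (nat_lit 172080) (nat_lit 7) .nil))) .nil)) 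
(.lf (nat_lit 203444) (.g (nat_lit 1680) (.e (nat_lit 73770) (nat_lit 22) (.e (nat_lit 671758) (nat_lit 3) (.e (nat_lit 57478) (nat_lit 28) (.e (nat_lit 557109) (nat_lit 15) (.e (nat_lit 188449) (nat_lit 22) (.e (nat_lit 204544) (nat_lit 14) .nil)))))) (.g (nat_lit 4) .nil .nil))))) (.nd (nat_lit 4) (.nd (nat_lit 5) 
(.lf (nat_lit 203404) (.g (nat_lit 3123) (.e (nat_lit 73759) (nat_lit 13) (.e (nat_lit 598038) (nat_lit 8) (.e (nat_lit 65630) (nat_lit 14) (.e (nat_lit 401454) (nat_lit 12) (.e (nat_lit 475193) (nat_lit 38) (.e (nat_lit 688181) (nat_lit 17) .nil)))))) (.g (nat_lit 6) .nil .nil))) 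
(.lf (nat_lit 203436) (.g (nat_lit 1074) (.e (nat_lit 81664) (nat_lit 21) (.e (nat_lit 663565) (nat_lit 3) (.e (nat_lit 57480) (nat_lit 28) (.e (nat_lit 557109) (nat_lit 15) .nil)))) .nil))) (.nd (nat_lit 5) 
(.lf (nat_lit 203420) (.g (nat_lit 1748) (.e (nat_lit 73766) (nat_lit 19) (.e (nat_lit 647199) (nat_lit 11) (.e (nat_lit 16425) (nat_lit 7) (.e (nat_lit 409648) (nat_lit 18) (.e (nat_lit 303104) (nat_lit 0) .nil))))) .nil)) 
(.lf (nat_lit 203452) (.g (nat_lit 2899) (.e (nat_lit 73770) (nat_lit 22) (.e (nat_lit 671759) (nat_lit 3) (.e (nat_lit 57479) (nat_lit 28) (.e (nat_lit 557109) (nat_lit 15) (.e (nat_lit 188458) (nat_lit 25) (.e (nat_lit 253696) (nat_lit 14) .nil)))))) (.g (nat_lit 5) .nil .nil))))))) (.nd (nat_lit 2) (.nd (nat_lit 3) (.nd (nat_lit 4) (.nd (nat_lit 5) 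
(.lf (nat_lit 203394) (.g (nat_lit 1394) (.e (nat_lit 81664) (nat_lit 10) (.e (nat_lit 573489) (nat_lit 14) (.e (nat_lit 73755) (nat_lit 8) (.e (nat_lit 557096) (nat_lit 13) .nil)))) .nil)) 
(.lf (nat_lit 203426) (.g (nat_lit 1744) (.e (nat_lit 73767) (nat_lit 19) (.e (nat_lit 647199) (nat_lit 11) (.e (nat_lit 16425) (nat_lit 7) (.e (nat_lit 409648) (nat_lit 18) (.e (nat_lit 303104) (nat_lit 0) .nil))))) .nil))) (.nd (nat_lit 5) 
(.lf (nat_lit 203410) (.g (nat_lit 1230) (.e (nat_lit 73764) (nat_lit 18) (.e (nat_lit 638998) (nat_lit 8) (.e (nat_lit 172079) (nat_lit 7) (.e (nat_lit 409639) (nat_lit 15) (.e (nat_lit 278552) (nat_lit 10) (.e (nat_lit 5413) (nat_lit 303) .nil)))))) (.g (nat_lit 4) .nil .nil))) 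
(.lf (nat_lit 203442) (.g (nat_lit 2365) (.e (nat_lit 73770) (nat_lit 22) (.e (nat_lit 671757) (nat_lit 3) (.e (nat_lit 57477) (nat_lit 28) (.e (nat_lit 557108) (nat_lit 15) (.e (nat_lit 188449) (nat_lit 22) (.e (nat_lit 204544) (nat_lit 14) .nil)))))) (.g (nat_lit 5) .nil .nil))))) (.nd (nat_lit 4) (.nd (nat_lit 5) 
(.lf (nat_lit 203402) (.g (nat_lit 1586) (.e (nat_lit 73758) (nat_lit 12) (.e (nat_lit 589864) (nat_lit 15) (.e (nat_lit 16473) (nat_lit 14) (.e (nat_lit 491559) (nat_lit 10) .nil)))) .nil)) 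
(.lf (nat_lit 203434) (.g (nat_lit 2355) (.e (nat_lit 73768) (nat_lit 19) (.e (nat_lit 647199) (nat_lit 11) (.e (nat_lit 16425) (nat_lit 7) (.e (nat_lit 409649) (nat_lit 18) (.e (nat_lit 303105) (nat_lit 0) .nil))))) .nil))) (.nd (nat_lit 5) 
(.lf (nat_lit 203418) (.g (nat_lit 1122) (.e (nat_lit 73766) (nat_lit 19) (.e (nat_lit 647199) (nat_lit 11) (.e (nat_lit 16425) (nat_lit 7) (.e (nat_lit 409638) (nat_lit 15) .nil)))) .nil)) 
(.lf (nat_lit 203450) (.g (nat_lit 1476) (.e (nat_lit 73770) (nat_lit 22) (.e (nat_lit 671759) (nat_lit 3) (.e (nat_lit 57479) (nat_lit 28) (.e (nat_lit 557109) (nat_lit 15) .nil)))) .nil))))) (.nd (nat_lit 3) (.nd (nat_lit 4) (.nd (nat_lit 5) 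
(.lf (nat_lit 203398) (.g (nat_lit 1585) (.e (nat_lit 73757) (nat_lit 11) (.e (nat_lit 581651) (nat_lit 4) (.e (nat_lit 172094) (nat_lit 9) (.e (nat_lit 426025) (nat_lit 0) (.e (nat_lit 3569) (nat_lit 222) .nil))))) .nil)) 
(.lf (nat_lit 203430) (.g (nat_lit 2013) (.e (nat_lit 73768) (nat_lit 19) (.e (nat_lit 647199) (nat_lit 11) (.e (nat_lit 16425) (nat_lit 7) (.e (nat_lit 409648) (nat_lit 18) (.e (nat_lit 303104) (nat_lit 0) (.e (nat_lit 7936) (nat_lit 407) .nil)))))) (.g (nat_lit 4) .nil .nil)))) (.nd (nat_lit 5) 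
(.lf (nat_lit 203414) (.g (nat_lit 6588) (.e (nat_lit 73766) (nat_lit 19) (.e (nat_lit 647190) (nat_lit 9) (.e (nat_lit 13) (nat_lit 0) (.e (nat_lit 3210) (nat_lit 195) (.e (nat_lit 516151) (nat_lit 9) (.e (nat_lit 426211) (nat_lit 9) (.e (nat_lit 426125) (nat_lit 2) (.e (nat_lit 196667) (nat_lit 14) .nil)))))))) (.g (nat_lit 8) .nil .nil))) 
(.lf (nat_lit 203446) (.g (nat_lit 2087) (.e (nat_lit 73770) (nat_lit 22) (.e (nat_lit 671759) (nat_lit 3) (.e (nat_lit 57479) (nat_lit 28) (.e (nat_lit 557106) (nat_lit 15) .nil)))) .nil)))) (.nd (nat_lit 4) (.nd (nat_lit 5) 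
(.lf (nat_lit 203406) (.g (nat_lit 2831) (.e (nat_lit 73759) (nat_lit 13) (.e (nat_lit 598039) (nat_lit 8) (.e (nat_lit 65630) (nat_lit 14) (.e (nat_lit 401454) (nat_lit 12) (.e (nat_lit 475193) (nat_lit 38) (.e (nat_lit 688181) (nat_lit 17) .nil)))))) (.g (nat_lit 6) .nil .nil))) 
(.lf (nat_lit 203438) (.g (nat_lit 1883) (.e (nat_lit 81664) (nat_lit 21) (.e (nat_lit 663567) (nat_lit 4) (.e (nat_lit 65628) (nat_lit 14) (.e (nat_lit 401454) (nat_lit 12) (.e (nat_lit 483072) (nat_lit 13) .nil))))) .nil))) (.nd (nat_lit 5) 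
(.lf (nat_lit 203422) (.g (nat_lit 2514) (.e (nat_lit 73766) (nat_lit 19) (.e (nat_lit 647199) (nat_lit 11) (.e (nat_lit 16425) (nat_lit 7) (.e (nat_lit 409648) (nat_lit 18) (.e (nat_lit 303109) (nat_lit 0) (.e (nat_lit 7936) (nat_lit 407) .nil)))))) (.g (nat_lit 5) .nil .nil))) 
(.lf (nat_lit 203454) (.g (nat_lit 794) (.e (nat_lit 73770) (nat_lit 22) (.e (nat_lit 671759) (nat_lit 3) (.e (nat_lit 57547) (nat_lit 47) (.e (nat_lit 712755) (nat_lit 30) .nil)))) .nil))))))) (.nd (nat_lit 1) (.nd (nat_lit 2) (.nd (nat_lit 3) (.nd (nat_lit 4) (.nd (nat_lit 5) 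
(.lf (nat_lit 203393) (.g (nat_lit 1699) (.e (nat_lit 81664) (nat_lit 10) (.e (nat_lit 573489) (nat_lit 14) (.e (nat_lit 73754) (nat_lit 8) (.e (nat_lit 557101) (nat_lit 13) (.e (nat_lit 179968) (nat_lit 22) .nil))))) .nil)) 
(.lf (nat_lit 203425) (.g (nat_lit 2232) (.e (nat_lit 73767) (nat_lit 19) (.e (nat_lit 647195) (nat_lit 9) (.e (nat_lit 1181) (nat_lit 87) (.e (nat_lit 57872) (nat_lit 264) (.e (nat_lit 1211) (nat_lit 89) .nil))))) .nil))) (.nd (nat_lit 5) 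
(.lf (nat_lit 203409) (.g (nat_lit 1246) (.e (nat_lit 73764) (nat_lit 18) (.e (nat_lit 638998) (nat_lit 8) (.e (nat_lit 172079) (nat_lit 7) (.e (nat_lit 409639) (nat_lit 15) (.e (nat_lit 278552) (nat_lit 10) (.e (nat_lit 5410) (nat_lit 303) .nil)))))) (.g (nat_lit 4) .nil .nil))) 
(.lf (nat_lit 203441) (.g (nat_lit 2631) (.e (nat_lit 73770) (nat_lit 22) (.e (nat_lit 671757) (nat_lit 3) (.e (nat_lit 57476) (nat_lit 28) (.e (nat_lit 557108) (nat_lit 15) (.e (nat_lit 188449) (nat_lit 22) (.e (nat_lit 204544) (nat_lit 14) .nil)))))) (.g (nat_lit 5) .nil .nil))))) (.nd (nat_lit 4) (.nd (nat_lit 5) 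
(.lf (nat_lit 203401) (.g (nat_lit 3001) (.e (nat_lit 73757) (nat_lit 11) (.e (nat_lit 581659) (nat_lit 9) (.e (nat_lit 1536) (nat_lit 109) (.e (nat_lit 344133) (nat_lit 26) (.e (nat_lit 557098) (nat_lit 13) (.e (nat_lit 172140) (nat_lit 22) (.e (nat_lit 139281) (nat_lit 5) .nil))))))) (.g (nat_lit 6) .nil .nil))) 
(.lf (nat_lit 203433) (.g (nat_lit 2356) (.e (nat_lit 73768) (nat_lit 19) (.e (nat_lit 647199) (nat_lit 11) (.e (nat_lit 16425) (nat_lit 7) (.e (nat_lit 409648) (nat_lit 18) (.e (nat_lit 303109) (nat_lit 0) (.e (nat_lit 7936) (nat_lit 407) .nil)))))) (.g (nat_lit 4) .nil .nil)))) (.nd (nat_lit 5) 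
(.lf (nat_lit 203417) (.g (nat_lit 1606) (.e (nat_lit 73766) (nat_lit 19) (.e (nat_lit 647199) (nat_lit 11) (.e (nat_lit 16425) (nat_lit 7) (.e (nat_lit 409637) (nat_lit 15) .nil)))) .nil)) 
(.lf (nat_lit 203449) (.g (nat_lit 1934) (.e (nat_lit 73770) (nat_lit 22) (.e (nat_lit 671759) (nat_lit 3) (.e (nat_lit 57479) (nat_lit 28) (.e (nat_lit 557107) (nat_lit 15) (.e (nat_lit 188447) (nat_lit 22) .nil))))) .nil))))) (.nd (nat_lit 3) (.nd (nat_lit 4) (.nd (nat_lit 5) 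
(.lf (nat_lit 203397) (.g (nat_lit 2436) (.e (nat_lit 81664) (nat_lit 10) (.e (nat_lit 573489) (nat_lit 14) (.e (nat_lit 73755) (nat_lit 8) (.e (nat_lit 557098) (nat_lit 13) (.e (nat_lit 179968) (nat_lit 22) .nil))))) .nil)) 
(.lf (nat_lit 203429) (.g (nat_lit 2831) (.e (nat_lit 73767) (nat_lit 19) (.e (nat_lit 647199) (nat_lit 11) (.e (nat_lit 16473) (nat_lit 14) (.e (nat_lit 491560) (nat_lit 10) (.e (nat_lit 344152) (nat_lit 34) (.e (nat_lit 622617) (nat_lit 10) .nil)))))) (.g (nat_lit 6) .nil .nil)))) (.nd (nat_lit 5) 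
(.lf (nat_lit 203413) (.g (nat_lit 650) (.e (nat_lit 73764) (nat_lit 18) (.e (nat_lit 638998) (nat_lit 8) (.e (nat_lit 172081) (nat_lit 7) (.e (nat_lit 409638) (nat_lit 15) .nil)))) .nil)) 
(.lf (nat_lit 203445) (.g (nat_lit 2476) (.e (nat_lit 73770) (nat_lit 22) (.e (nat_lit 671758) (nat_lit 3) (.e (nat_lit 57480) (nat_lit 28) (.e (nat_lit 557109) (nat_lit 15) (.e (nat_lit 188449) (nat_lit 22) (.e (nat_lit 204544) (nat_lit 14) .nil)))))) (.g (nat_lit 5) .nil .nil))))) (.nd (nat_lit 4) (.nd (nat_lit 5) 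
(.lf (nat_lit 203405) (.g (nat_lit 2865) (.e (nat_lit 73759) (nat_lit 13) (.e (nat_lit 598039) (nat_lit 8) (.e (nat_lit 65630) (nat_lit 14) (.e (nat_lit 401454) (nat_lit 12) (.e (nat_lit 475193) (nat_lit 38) (.e (nat_lit 688180) (nat_lit 17) .nil)))))) (.g (nat_lit 6) .nil .nil))) 
(.lf (nat_lit 203437) (.g (nat_lit 1338) (.e (nat_lit 81664) (nat_lit 21) (.e (nat_lit 663566) (nat_lit 4) (.e (nat_lit 65630) (nat_lit 14) (.e (nat_lit 401454) (nat_lit 12) (.e (nat_lit 483072) (nat_lit 13) .nil))))) .nil))) (.nd (nat_lit 5) 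
(.lf (nat_lit 203421) (.g (nat_lit 2802) (.e (nat_lit 73766) (nat_lit 19) (.e (nat_lit 647199) (nat_lit 11) (.e (nat_lit 16425) (nat_lit 7) (.e (nat_lit 409648) (nat_lit 18) (.e (nat_lit 303108) (nat_lit 0) (.e (nat_lit 7936) (nat_lit 407) .nil)))))) (.g (nat_lit 5) .nil .nil))) 
(.lf (nat_lit 203453) (.g (nat_lit 1271) (.e (nat_lit 73770) (nat_lit 22) (.e (nat_lit 671759) (nat_lit 3) (.e (nat_lit 57480) (nat_lit 28) (.e (nat_lit 557109) (nat_lit 15) (.e (nat_lit 188449) (nat_lit 22) .nil))))) .nil)))))) (.nd (nat_lit 2) (.nd (nat_lit 3) (.nd (nat_lit 4) (.nd (nat_lit 5) 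
(.lf (nat_lit 203395) (.g (nat_lit 1960) (.e (nat_lit 81664) (nat_lit 10) (.e (nat_lit 573489) (nat_lit 14) (.e (nat_lit 73755) (nat_lit 8) (.e (nat_lit 557097) (nat_lit 13) (.e (nat_lit 179968) (nat_lit 17) .nil))))) .nil)) 
(.lf (nat_lit 203427) (.g (nat_lit 2504) (.e (nat_lit 73767) (nat_lit 19) (.e (nat_lit 647199) (nat_lit 11) (.e (nat_lit 16425) (nat_lit 7) (.e (nat_lit 409648) (nat_lit 18) (.e (nat_lit 303109) (nat_lit 0) (.e (nat_lit 7936) (nat_lit 407) .nil)))))) (.g (nat_lit 5) .nil .nil)))) (.nd (nat_lit 5) 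
(.lf (nat_lit 203411) (.g (nat_lit 902) (.e (nat_lit 73764) (nat_lit 18) (.e (nat_lit 638998) (nat_lit 8) (.e (nat_lit 172079) (nat_lit 7) (.e (nat_lit 409645) (nat_lit 18) .nil)))) .nil)) 
(.lf (nat_lit 203443) (.g (nat_lit 2483) (.e (nat_lit 73770) (nat_lit 22) (.e (nat_lit 671757) (nat_lit 3) (.e (nat_lit 57480) (nat_lit 28) (.e (nat_lit 557109) (nat_lit 15) (.e (nat_lit 188449) (nat_lit 22) (.e (nat_lit 204544) (nat_lit 14) .nil)))))) (.g (nat_lit 5) .nil .nil))))) (.nd (nat_lit 4) (.nd (nat_lit 5) 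
(.lf (nat_lit 203403) (.g (nat_lit 3157) (.e (nat_lit 73759) (nat_lit 13) (.e (nat_lit 598038) (nat_lit 8) (.e (nat_lit 65630) (nat_lit 14) (.e (nat_lit 401454) (nat_lit 12) (.e (nat_lit 475193) (nat_lit 38) (.e (nat_lit 688180) (nat_lit 17) .nil)))))) (.g (nat_lit 6) .nil .nil))) 
(.lf (nat_lit 203435) (.g (nat_lit 1031) (.e (nat_lit 81664) (nat_lit 21) (.e (nat_lit 663565) (nat_lit 3) (.e (nat_lit 57478) (nat_lit 28) (.e (nat_lit 557109) (nat_lit 15) .nil)))) .nil))) (.nd (nat_lit 5) 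
(.lf (nat_lit 203419) (.g (nat_lit 1427) (.e (nat_lit 73766) (nat_lit 19) (.e (nat_lit 647199) (nat_lit 11) (.e (nat_lit 16425) (nat_lit 7) (.e (nat_lit 409638) (nat_lit 15) (.e (nat_lit 278552) (nat_lit 10) .nil))))) .nil)) 
(.lf (nat_lit 203451) (.g (nat_lit 2671) (.e (nat_lit 73770) (nat_lit 22) (.e (nat_lit 671759) (nat_lit 3) (.e (nat_lit 57479) (nat_lit 28) (.e (nat_lit 557109) (nat_lit 15) (.e (nat_lit 188457) (nat_lit 25) .nil))))) .nil))))) (.nd (nat_lit 3) (.nd (nat_lit 4) (.nd (nat_lit 5) 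
(.lf (nat_lit 203399) (.g (nat_lit 711) (.e (nat_lit 73757) (nat_lit 11) (.e (nat_lit 581651) (nat_lit 4) (.e (nat_lit 172095) (nat_lit 9) (.e (nat_lit 433920) (nat_lit 33) .nil)))) .nil)) 
(.lf (nat_lit 203431) (.g (nat_lit 2505) (.e (nat_lit 73768) (nat_lit 19) (.e (nat_lit 647199) (nat_lit 11) (.e (nat_lit 16425) (nat_lit 7) (.e (nat_lit 409648) (nat_lit 18) (.e (nat_lit 303105) (nat_lit 0) .nil))))) .nil))) (.nd (nat_lit 5) 
(.lf (nat_lit 203415) (.g (nat_lit 445) (.e (nat_lit 73766) (nat_lit 19) (.e (nat_lit 647190) (nat_lit 9) (.e (nat_lit 1304) (nat_lit 97) .nil))) .nil)) 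
(.lf (nat_lit 203447) (.g (nat_lit 1135) (.e (nat_lit 73770) (nat_lit 22) (.e (nat_lit 671759) (nat_lit 3) (.e (nat_lit 57479) (nat_lit 28) (.e (nat_lit 557107) (nat_lit 15) .nil)))) .nil)))) (.nd (nat_lit 4) (.nd (nat_lit 5) 
(.lf (nat_lit 203407) (.g (nat_lit 2018) (.e (nat_lit 73760) (nat_lit 14) (.e (nat_lit 606216) (nat_lit 0) (.e (nat_lit 1661) (nat_lit 115) (.e (nat_lit 393268) (nat_lit 23) (.e (nat_lit 426428) (nat_lit 17) (.e (nat_lit 98048) (nat_lit 5) .nil)))))) (.g (nat_lit 5) .nil .nil))) 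
(.lf (nat_lit 203439) (.g (nat_lit 2693) (.e (nat_lit 81664) (nat_lit 21) (.e (nat_lit 663567) (nat_lit 4) (.e (nat_lit 65630) (nat_lit 14) (.e (nat_lit 401454) (nat_lit 12) (.e (nat_lit 483072) (nat_lit 13) .nil))))) .nil))) (.nd (nat_lit 5) 
(.lf (nat_lit 203423) (.g (nat_lit 1750) (.e (nat_lit 73766) (nat_lit 19) (.e (nat_lit 647199) (nat_lit 11) (.e (nat_lit 16473) (nat_lit 14) (.e (nat_lit 491545) (nat_lit 8) .nil)))) .nil)) 
(.lf (nat_lit 203455) (.g (nat_lit 2037) (.e (nat_lit 73770) (nat_lit 22) (.e (nat_lit 671760) (nat_lit 4) (.e (nat_lit 65630) (nat_lit 14) (.e (nat_lit 401454) (nat_lit 12) (.e (nat_lit 483072) (nat_lit 13) .nil))))) (.g (nat_lit 4) .nil .nil)))))))))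

noncomputable def tv2686 : DT := (.nd (nat_lit 0) (.nd (nat_lit 1) (.nd (nat_lit 2) (.nd (nat_lit 3) (.nd (nat_lit 4) (.nd (nat_lit 5) 
(.lf (nat_lit 203456) (.g (nat_lit 2356) (.e (nat_lit 73770) (nat_lit 22) (.e (nat_lit 671761) (nat_lit 4) (.e (nat_lit 65583) (nat_lit 7) (.e (nat_lit 319530) (nat_lit 16) (.e (nat_lit 286763) (nat_lit 15) (.e (nat_lit 7936) (nat_lit 407) .nil)))))) (.g (nat_lit 5) .nil .nil))) 
(.lf (nat_lit 203488) (.g (nat_lit 699) (.e (nat_lit 73772) (nat_lit 24) (.e (nat_lit 761868) (nat_lit 5) (.e (nat_lit 1555) (nat_lit 110) (.e (nat_lit 352272) (nat_lit 10) (.e (nat_lit 417793) (nat_lit 0) (.e (nat_lit 5410) (nat_lit 303) .nil)))))) (.g (nat_lit 4) .nil .nil)))) (.nd (nat_lit 5) 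
(.lf (nat_lit 203472) (.g (nat_lit 1602) (.e (nat_lit 73771) (nat_lit 23) (.e (nat_lit 753689) (nat_lit 9) (.e (nat_lit 172138) (nat_lit 15) (.e (nat_lit 2059) (nat_lit 142) (.e (nat_lit 704595) (nat_lit 5) (.e (nat_lit 188160) (nat_lit 37) .nil)))))) (.g (nat_lit 5) .nil .nil))) 
(.lf (nat_lit 203504) (.g (nat_lit 224) (.e (nat_lit 73772) (nat_lit 24) (.e (nat_lit 761869) (nat_lit 5) (.e (nat_lit 1558) (nat_lit 110) .nil))) .nil)))) (.nd (nat_lit 4) (.nd (nat_lit 5) 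
(.lf (nat_lit 203464) (.g (nat_lit 2999) (.e (nat_lit 73770) (nat_lit 22) (.e (nat_lit 671762) (nat_lit 4) (.e (nat_lit 65630) (nat_lit 14) (.e (nat_lit 401453) (nat_lit 12) (.e (nat_lit 483072) (nat_lit 13) .nil))))) .nil)) 
(.lf (nat_lit 203496) (.g (nat_lit 1062) (.e (nat_lit 73772) (nat_lit 24) (.e (nat_lit 761868) (nat_lit 5) (.e (nat_lit 1574) (nat_lit 110) (.e (nat_lit 352272) (nat_lit 10) (.e (nat_lit 417795) (nat_lit 0) (.e (nat_lit 5413) (nat_lit 303) .nil)))))) (.g (nat_lit 6) .nil .nil)))) (.nd (nat_lit 5) 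
(.lf (nat_lit 203480) (.g (nat_lit 374) (.e (nat_lit 73772) (nat_lit 24) (.e (nat_lit 761866) (nat_lit 5) (.e (nat_lit 1555) (nat_lit 110) (.e (nat_lit 360192) (nat_lit 15) .nil)))) .nil)) 
(.lf (nat_lit 203512) (.g (nat_lit 1483) (.e (nat_lit 73772) (nat_lit 24) (.e (nat_lit 761869) (nat_lit 5) (.e (nat_lit 1568) (nat_lit 110) (.e (nat_lit 352272) (nat_lit 10) (.e (nat_lit 417796) (nat_lit 0) (.e (nat_lit 5412) (nat_lit 303) .nil)))))) (.g (nat_lit 0) .nil .nil)))))) (.nd (nat_lit 3) (.nd (nat_lit 4) (.nd (nat_lit 5) 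
(.lf (nat_lit 203460) (.g (nat_lit 2634) (.e (nat_lit 73770) (nat_lit 22) (.e (nat_lit 671762) (nat_lit 4) (.e (nat_lit 65586) (nat_lit 7) (.e (nat_lit 319531) (nat_lit 16) (.e (nat_lit 286764) (nat_lit 15) (.e (nat_lit 7936) (nat_lit 407) .nil)))))) (.g (nat_lit 4) .nil .nil))) 
(.lf (nat_lit 203492) (.g (nat_lit 423) (.e (nat_lit 73772) (nat_lit 24) (.e (nat_lit 761868) (nat_lit 5) (.e (nat_lit 1568) (nat_lit 110) (.e (nat_lit 352272) (nat_lit 10) (.e (nat_lit 417795) (nat_lit 0) .nil))))) .nil))) (.nd (nat_lit 5) 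
(.lf (nat_lit 203476) (.g (nat_lit 957) (.e (nat_lit 73772) (nat_lit 24) (.e (nat_lit 761866) (nat_lit 5) (.e (nat_lit 1454) (nat_lit 108) (.e (nat_lit 336217) (nat_lit 13) (.e (nat_lit 393231) (nat_lit 17) .nil))))) .nil)) 
(.lf (nat_lit 203508) (.g (nat_lit 345) (.e (nat_lit 73772) (nat_lit 24) (.e (nat_lit 761869) (nat_lit 5) (.e (nat_lit 1558) (nat_lit 110) (.e (nat_lit 360192) (nat_lit 10) .nil)))) .nil)))) (.nd (nat_lit 4) (.nd (nat_lit 5) 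
(.lf (nat_lit 203468) (.g (nat_lit 674) (.e (nat_lit 73770) (nat_lit 22) (.e (nat_lit 671764) (nat_lit 6) (.e (nat_lit 81935) (nat_lit 20) (.e (nat_lit 1998) (nat_lit 137) .nil)))) .nil)) 
(.lf (nat_lit 203500) (.g (nat_lit 1306) (.e (nat_lit 73772) (nat_lit 24) (.e (nat_lit 761869) (nat_lit 5) (.e (nat_lit 1555) (nat_lit 110) (.e (nat_lit 352272) (nat_lit 10) (.e (nat_lit 417794) (nat_lit 0) (.e (nat_lit 5412) (nat_lit 303) .nil)))))) (.g (nat_lit 6) .nil .nil)))) (.nd (nat_lit 5) 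
(.lf (nat_lit 203484) (.g (nat_lit 3069) (.e (nat_lit 73772) (nat_lit 24) (.e (nat_lit 761867) (nat_lit 5) (.e (nat_lit 1454) (nat_lit 108) (.e (nat_lit 336099) (nat_lit 9) (.e (nat_lit 336412) (nat_lit 27) (.e (nat_lit 426011) (nat_lit 0) (.e (nat_lit 7591) (nat_lit 407) .nil))))))) (.g (nat_lit 7) .nil .nil))) 
(.lf (nat_lit 203516) (.g (nat_lit 1053) (.e (nat_lit 73772) (nat_lit 24) (.e (nat_lit 761869) (nat_lit 5) (.e (nat_lit 1574) (nat_lit 110) (.e (nat_lit 352258) (nat_lit 0) (.e (nat_lit 7088) (nat_lit 379) (.e (nat_lit 123214) (nat_lit 275) .nil)))))) (.g (nat_lit 0) .nil .nil))))))) (.nd (nat_lit 2) (.nd (nat_lit 3) (.nd (nat_lit 4) (.nd (nat_lit 5) 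
(.lf (nat_lit 203458) (.g (nat_lit 2645) (.e (nat_lit 73770) (nat_lit 22) (.e (nat_lit 671761) (nat_lit 4) (.e (nat_lit 65630) (nat_lit 14) (.e (nat_lit 401454) (nat_lit 12) (.e (nat_lit 483072) (nat_lit 13) .nil))))) (.g (nat_lit 4) .nil .nil))) 
(.lf (nat_lit 203490) (.g (nat_lit 1192) (.e (nat_lit 73772) (nat_lit 24) (.e (nat_lit 761868) (nat_lit 5) (.e (nat_lit 1555) (nat_lit 110) (.e (nat_lit 352272) (nat_lit 10) (.e (nat_lit 417796) (nat_lit 0) (.e (nat_lit 5413) (nat_lit 303) .nil)))))) (.g (nat_lit 6) .nil .nil)))) (.nd (nat_lit 5) 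
(.lf (nat_lit 203474) (.g (nat_lit 3208) (.e (nat_lit 73772) (nat_lit 24) (.e (nat_lit 761866) (nat_lit 5) (.e (nat_lit 1454) (nat_lit 108) (.e (nat_lit 336099) (nat_lit 9) (.e (nat_lit 336412) (nat_lit 27) (.e (nat_lit 426011) (nat_lit 0) (.e (nat_lit 7591) (nat_lit 407) .nil))))))) (.g (nat_lit 7) .nil .nil))) 
(.lf (nat_lit 203506) (.g (nat_lit 1547) (.e (nat_lit 73772) (nat_lit 24) (.e (nat_lit 761869) (nat_lit 5) (.e (nat_lit 1558) (nat_lit 110) (.e (nat_lit 352272) (nat_lit 10) (.e (nat_lit 417795) (nat_lit 0) (.e (nat_lit 5412) (nat_lit 303) .nil)))))) (.g (nat_lit 0) .nil .nil))))) (.nd (nat_lit 4) (.nd (nat_lit 5) 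
(.lf (nat_lit 203466) (.g (nat_lit 1289) (.e (nat_lit 73770) (nat_lit 22) (.e (nat_lit 671763) (nat_lit 5) (.e (nat_lit 73781) (nat_lit 32) (.e (nat_lit 3067) (nat_lit 190) (.e (nat_lit 483072) (nat_lit 13) .nil))))) .nil)) 
(.lf (nat_lit 203498) (.g (nat_lit 222) (.e (nat_lit 73772) (nat_lit 24) (.e (nat_lit 761869) (nat_lit 5) (.e (nat_lit 1448) (nat_lit 108) .nil))) .nil))) (.nd (nat_lit 5) 
(.lf (nat_lit 203482) (.g (nat_lit 821) (.e (nat_lit 73772) (nat_lit 24) (.e (nat_lit 761866) (nat_lit 5) (.e (nat_lit 1574) (nat_lit 110) (.e (nat_lit 352272) (nat_lit 10) (.e (nat_lit 417793) (nat_lit 0) (.e (nat_lit 5410) (nat_lit 303) .nil)))))) (.g (nat_lit 4) .nil .nil))) 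
(.lf (nat_lit 203514) (.g (nat_lit 1055) (.e (nat_lit 73772) (nat_lit 24) (.e (nat_lit 761869) (nat_lit 5) (.e (nat_lit 1574) (nat_lit 110) (.e (nat_lit 352257) (nat_lit 0) (.e (nat_lit 7081) (nat_lit 378) (.e (nat_lit 57898) (nat_lit 275) .nil)))))) (.g (nat_lit 0) .nil .nil)))))) (.nd (nat_lit 3) (.nd (nat_lit 4) (.nd (nat_lit 5) 
(.lf (nat_lit 203462) (.g (nat_lit 2200) (.e (nat_lit 73770) (nat_lit 22) (.e (nat_lit 671762) (nat_lit 4) (.e (nat_lit 65628) (nat_lit 14) (.e (nat_lit 401454) (nat_lit 12) (.e (nat_lit 483072) (nat_lit 13) .nil))))) (.g (nat_lit 4) .nil .nil))) 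
(.lf (nat_lit 203494) (.g (nat_lit 701) (.e (nat_lit 73772) (nat_lit 24) (.e (nat_lit 761868) (nat_lit 5) (.e (nat_lit 1574) (nat_lit 110) (.e (nat_lit 352258) (nat_lit 0) (.e (nat_lit 7089) (nat_lit 379) (.e (nat_lit 123214) (nat_lit 275) .nil)))))) (.g (nat_lit 0) .nil .nil)))) (.nd (nat_lit 5) 
(.lf (nat_lit 203478) (.g (nat_lit 819) (.e (nat_lit 73772) (nat_lit 24) (.e (nat_lit 761866) (nat_lit 5) (.e (nat_lit 1555) (nat_lit 110) (.e (nat_lit 352272) (nat_lit 10) (.e (nat_lit 417793) (nat_lit 0) (.e (nat_lit 5410) (nat_lit 303) .nil)))))) (.g (nat_lit 4) .nil .nil))) 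
(.lf (nat_lit 203510) (.g (nat_lit 784) (.e (nat_lit 73772) (nat_lit 24) (.e (nat_lit 761869) (nat_lit 5) (.e (nat_lit 1568) (nat_lit 110) (.e (nat_lit 352272) (nat_lit 10) (.e (nat_lit 417793) (nat_lit 0) (.e (nat_lit 5410) (nat_lit 303) .nil)))))) (.g (nat_lit 4) .nil .nil))))) (.nd (nat_lit 4) (.nd (nat_lit 5) 
(.lf (nat_lit 203470) (.g (nat_lit 2925) (.e (nat_lit 73771) (nat_lit 23) (.e (nat_lit 753666) (nat_lit 0) (.e (nat_lit 1349) (nat_lit 102) (.e (nat_lit 286761) (nat_lit 13) (.e (nat_lit 393234) (nat_lit 17) (.e (nat_lit 7591) (nat_lit 407) .nil)))))) (.g (nat_lit 6) .nil .nil))) 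
(.lf (nat_lit 203502) (.g (nat_lit 1640) (.e (nat_lit 73772) (nat_lit 24) (.e (nat_lit 761869) (nat_lit 5) (.e (nat_lit 1555) (nat_lit 110) (.e (nat_lit 352272) (nat_lit 10) (.e (nat_lit 417796) (nat_lit 0) (.e (nat_lit 5412) (nat_lit 303) .nil)))))) (.g (nat_lit 0) .nil .nil)))) (.nd (nat_lit 5) 
(.lf (nat_lit 203486) (.g (nat_lit 993) (.e (nat_lit 73772) (nat_lit 24) (.e (nat_lit 761867) (nat_lit 5) (.e (nat_lit 1568) (nat_lit 110) (.e (nat_lit 352272) (nat_lit 10) (.e (nat_lit 417793) (nat_lit 0) (.e (nat_lit 5412) (nat_lit 303) .nil)))))) (.g (nat_lit 6) .nil .nil))) 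
(.lf (nat_lit 203518) (.g (nat_lit 1471) (.e (nat_lit 73772) (nat_lit 24) (.e (nat_lit 761869) (nat_lit 5) (.e (nat_lit 1574) (nat_lit 110) (.e (nat_lit 352271) (nat_lit 9) (.e (nat_lit 409602) (nat_lit 0) (.e (nat_lit 5411) (nat_lit 303) .nil)))))) (.g (nat_lit 0) .nil .nil)))))))) (.nd (nat_lit 1) (.nd (nat_lit 2) (.nd (nat_lit 3) (.nd (nat_lit 4) (.nd (nat_lit 5) 
(.lf (nat_lit 203457) (.g (nat_lit 2175) (.e (nat_lit 73770) (nat_lit 22) (.e (nat_lit 671761) (nat_lit 4) (.e (nat_lit 65628) (nat_lit 14) (.e (nat_lit 401454) (nat_lit 12) (.e (nat_lit 483072) (nat_lit 13) .nil))))) .nil)) 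
(.lf (nat_lit 203489) (.g (nat_lit 1230) (.e (nat_lit 73772) (nat_lit 24) (.e (nat_lit 761868) (nat_lit 5) (.e (nat_lit 1555) (nat_lit 110) (.e (nat_lit 352272) (nat_lit 10) (.e (nat_lit 417796) (nat_lit 0) (.e (nat_lit 5410) (nat_lit 303) .nil)))))) (.g (nat_lit 6) .nil .nil)))) (.nd (nat_lit 5) 
(.lf (nat_lit 203473) (.g (nat_lit 846) (.e (nat_lit 73772) (nat_lit 24) (.e (nat_lit 761866) (nat_lit 5) (.e (nat_lit 1454) (nat_lit 108) (.e (nat_lit 336089) (nat_lit 9) .nil)))) .nil)) 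
(.lf (nat_lit 203505) (.g (nat_lit 781) (.e (nat_lit 73772) (nat_lit 24) (.e (nat_lit 761869) (nat_lit 5) (.e (nat_lit 1558) (nat_lit 110) (.e (nat_lit 352272) (nat_lit 10) (.e (nat_lit 417793) (nat_lit 0) (.e (nat_lit 5410) (nat_lit 303) .nil)))))) (.g (nat_lit 4) .nil .nil))))) (.nd (nat_lit 4) (.nd (nat_lit 5) 
(.lf (nat_lit 203465) (.g (nat_lit 2873) (.e (nat_lit 73770) (nat_lit 22) (.e (nat_lit 671762) (nat_lit 4) (.e (nat_lit 65630) (nat_lit 14) (.e (nat_lit 401454) (nat_lit 12) (.e (nat_lit 483072) (nat_lit 13) .nil))))) (.g (nat_lit 4) .nil .nil))) 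
(.lf (nat_lit 203497) (.g (nat_lit 1196) (.e (nat_lit 73772) (nat_lit 24) (.e (nat_lit 761868) (nat_lit 5) (.e (nat_lit 1574) (nat_lit 110) (.e (nat_lit 352272) (nat_lit 10) (.e (nat_lit 417796) (nat_lit 0) (.e (nat_lit 5413) (nat_lit 303) .nil)))))) (.g (nat_lit 6) .nil .nil)))) (.nd (nat_lit 5) 
(.lf (nat_lit 203481) (.g (nat_lit 848) (.e (nat_lit 73772) (nat_lit 24) (.e (nat_lit 761866) (nat_lit 5) (.e (nat_lit 1574) (nat_lit 110) (.e (nat_lit 352271) (nat_lit 9) (.e (nat_lit 409604) (nat_lit 0) (.e (nat_lit 5411) (nat_lit 303) .nil)))))) (.g (nat_lit 0) .nil .nil))) 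
(.lf (nat_lit 203513) (.g (nat_lit 1049) (.e (nat_lit 73772) (nat_lit 24) (.e (nat_lit 761869) (nat_lit 5) (.e (nat_lit 1574) (nat_lit 110) (.e (nat_lit 352257) (nat_lit 0) (.e (nat_lit 7077) (nat_lit 378) (.e (nat_lit 57898) (nat_lit 275) .nil)))))) (.g (nat_lit 0) .nil .nil)))))) (.nd (nat_lit 3) (.nd (nat_lit 4) (.nd (nat_lit 5) 
(.lf (nat_lit 203461) (.g (nat_lit 2579) (.e (nat_lit 73770) (nat_lit 22) (.e (nat_lit 671762) (nat_lit 4) (.e (nat_lit 65586) (nat_lit 7) (.e (nat_lit 319531) (nat_lit 16) (.e (nat_lit 286766) (nat_lit 15) (.e (nat_lit 7936) (nat_lit 407) .nil)))))) (.g (nat_lit 4) .nil .nil))) 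
(.lf (nat_lit 203493) (.g (nat_lit 685) (.e (nat_lit 73772) (nat_lit 24) (.e (nat_lit 761868) (nat_lit 5) (.e (nat_lit 1574) (nat_lit 110) (.e (nat_lit 352258) (nat_lit 0) (.e (nat_lit 7088) (nat_lit 379) (.e (nat_lit 123214) (nat_lit 275) .nil)))))) (.g (nat_lit 0) .nil .nil)))) (.nd (nat_lit 5) 
(.lf (nat_lit 203477) (.g (nat_lit 1150) (.e (nat_lit 73772) (nat_lit 24) (.e (nat_lit 761866) (nat_lit 5) (.e (nat_lit 1454) (nat_lit 108) (.e (nat_lit 336219) (nat_lit 13) (.e (nat_lit 393231) (nat_lit 17) .nil))))) .nil)) 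
(.lf (nat_lit 203509) (.g (nat_lit 217) (.e (nat_lit 73772) (nat_lit 24) (.e (nat_lit 761869) (nat_lit 5) (.e (nat_lit 1568) (nat_lit 110) .nil))) .nil)))) (.nd (nat_lit 4) (.nd (nat_lit 5) 
(.lf (nat_lit 203469) (.g (nat_lit 1020) (.e (nat_lit 81664) (nat_lit 22) (.e (nat_lit 671762) (nat_lit 4) (.e (nat_lit 65583) (nat_lit 7) (.e (nat_lit 319530) (nat_lit 16) .nil)))) .nil)) 
(.lf (nat_lit 203501) (.g (nat_lit 1689) (.e (nat_lit 73772) (nat_lit 24) (.e (nat_lit 761869) (nat_lit 5) (.e (nat_lit 1555) (nat_lit 110) (.e (nat_lit 352272) (nat_lit 10) (.e (nat_lit 417795) (nat_lit 0) (.e (nat_lit 5412) (nat_lit 303) .nil)))))) (.g (nat_lit 0) .nil .nil)))) (.nd (nat_lit 5) 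
(.lf (nat_lit 203485) (.g (nat_lit 3065) (.e (nat_lit 73772) (nat_lit 24) (.e (nat_lit 761867) (nat_lit 5) (.e (nat_lit 1454) (nat_lit 108) (.e (nat_lit 336099) (nat_lit 9) (.e (nat_lit 336412) (nat_lit 27) (.e (nat_lit 426011) (nat_lit 0) (.e (nat_lit 7593) (nat_lit 407) .nil))))))) (.g (nat_lit 7) .nil .nil))) 
(.lf (nat_lit 203517) (.g (nat_lit 1069) (.e (nat_lit 73772) (nat_lit 24) (.e (nat_lit 761869) (nat_lit 5) (.e (nat_lit 1574) (nat_lit 110) (.e (nat_lit 352258) (nat_lit 0) (.e (nat_lit 7089) (nat_lit 379) (.e (nat_lit 123214) (nat_lit 275) .nil)))))) (.g (nat_lit 0) .nil .nil))))))) (.nd (nat_lit 2) (.nd (nat_lit 3) (.nd (nat_lit 4) (.nd (nat_lit 5) 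
(.lf (nat_lit 203459) (.g (nat_lit 2201) (.e (nat_lit 73770) (nat_lit 22) (.e (nat_lit 671762) (nat_lit 4) (.e (nat_lit 65583) (nat_lit 7) (.e (nat_lit 319530) (nat_lit 16) (.e (nat_lit 286763) (nat_lit 15) (.e (nat_lit 7936) (nat_lit 407) .nil)))))) (.g (nat_lit 5) .nil .nil))) 
(.lf (nat_lit 203491) (.g (nat_lit 382) (.e (nat_lit 73772) (nat_lit 24) (.e (nat_lit 761868) (nat_lit 5) (.e (nat_lit 1555) (nat_lit 110) (.e (nat_lit 360192) (nat_lit 11) .nil)))) .nil))) (.nd (nat_lit 5) 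
(.lf (nat_lit 203475) (.g (nat_lit 3218) (.e (nat_lit 73772) (nat_lit 24) (.e (nat_lit 761866) (nat_lit 5) (.e (nat_lit 1454) (nat_lit 108) (.e (nat_lit 336099) (nat_lit 9) (.e (nat_lit 336412) (nat_lit 27) (.e (nat_lit 426011) (nat_lit 0) (.e (nat_lit 7593) (nat_lit 407) .nil))))))) (.g (nat_lit 7) .nil .nil))) 
(.lf (nat_lit 203507) (.g (nat_lit 1478) (.e (nat_lit 73772) (nat_lit 24) (.e (nat_lit 761869) (nat_lit 5) (.e (nat_lit 1558) (nat_lit 110) (.e (nat_lit 352272) (nat_lit 10) (.e (nat_lit 417796) (nat_lit 0) (.e (nat_lit 5412) (nat_lit 303) .nil)))))) (.g (nat_lit 0) .nil .nil))))) (.nd (nat_lit 4) (.nd (nat_lit 5) 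
(.lf (nat_lit 203467) (.g (nat_lit 528) (.e (nat_lit 73770) (nat_lit 22) (.e (nat_lit 671764) (nat_lit 6) (.e (nat_lit 81931) (nat_lit 20) (.e (nat_lit 1998) (nat_lit 137) .nil)))) .nil)) 
(.lf (nat_lit 203499) (.g (nat_lit 936) (.e (nat_lit 73772) (nat_lit 24) (.e (nat_lit 761869) (nat_lit 5) (.e (nat_lit 1555) (nat_lit 110) (.e (nat_lit 352272) (nat_lit 10) (.e (nat_lit 417793) (nat_lit 0) (.e (nat_lit 5410) (nat_lit 303) .nil)))))) (.g (nat_lit 4) .nil .nil)))) (.nd (nat_lit 5) 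
(.lf (nat_lit 203483) (.g (nat_lit 703) (.e (nat_lit 73772) (nat_lit 24) (.e (nat_lit 761867) (nat_lit 5) (.e (nat_lit 1454) (nat_lit 108) (.e (nat_lit 336089) (nat_lit 9) .nil)))) .nil)) 
(.lf (nat_lit 203515) (.g (nat_lit 1012) (.e (nat_lit 73772) (nat_lit 24) (.e (nat_lit 761869) (nat_lit 5) (.e (nat_lit 1574) (nat_lit 110) (.e (nat_lit 352257) (nat_lit 0) (.e (nat_lit 7082) (nat_lit 378) (.e (nat_lit 57898) (nat_lit 275) .nil)))))) (.g (nat_lit 0) .nil .nil)))))) (.nd (nat_lit 3) (.nd (nat_lit 4) (.nd (nat_lit 5) 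
(.lf (nat_lit 203463) (.g (nat_lit 3343) (.e (nat_lit 73770) (nat_lit 22) (.e (nat_lit 671762) (nat_lit 4) (.e (nat_lit 65629) (nat_lit 14) (.e (nat_lit 401454) (nat_lit 12) (.e (nat_lit 483072) (nat_lit 13) .nil))))) (.g (nat_lit 4) .nil .nil))) 
(.lf (nat_lit 203495) (.g (nat_lit 717) (.e (nat_lit 73772) (nat_lit 24) (.e (nat_lit 761868) (nat_lit 5) (.e (nat_lit 1574) (nat_lit 110) (.e (nat_lit 352272) (nat_lit 10) (.e (nat_lit 417793) (nat_lit 0) (.e (nat_lit 5410) (nat_lit 303) .nil)))))) (.g (nat_lit 4) .nil .nil)))) (.nd (nat_lit 5) 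
(.lf (nat_lit 203479) (.g (nat_lit 374) (.e (nat_lit 73772) (nat_lit 24) (.e (nat_lit 761866) (nat_lit 5) (.e (nat_lit 1555) (nat_lit 110) (.e (nat_lit 360192) (nat_lit 12) .nil)))) .nil)) 
(.lf (nat_lit 203511) (.g (nat_lit 1540) (.e (nat_lit 73772) (nat_lit 24) (.e (nat_lit 761869) (nat_lit 5) (.e (nat_lit 1568) (nat_lit 110) (.e (nat_lit 352272) (nat_lit 10) (.e (nat_lit 417795) (nat_lit 0) (.e (nat_lit 5412) (nat_lit 303) .nil)))))) (.g (nat_lit 0) .nil .nil))))) (.nd (nat_lit 4) (.nd (nat_lit 5) 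
(.lf (nat_lit 203471) (.g (nat_lit 2768) (.e (nat_lit 73771) (nat_lit 23) (.e (nat_lit 753666) (nat_lit 0) (.e (nat_lit 1349) (nat_lit 102) (.e (nat_lit 286761) (nat_lit 13) (.e (nat_lit 393234) (nat_lit 17) (.e (nat_lit 7593) (nat_lit 407) .nil)))))) (.g (nat_lit 6) .nil .nil))) 
(.lf (nat_lit 203503) (.g (nat_lit 2762) (.e (nat_lit 73772) (nat_lit 24) (.e (nat_lit 761869) (nat_lit 5) (.e (nat_lit 1555) (nat_lit 110) (.e (nat_lit 352277) (nat_lit 11) (.e (nat_lit 426011) (nat_lit 0) (.e (nat_lit 7591) (nat_lit 407) .nil)))))) (.g (nat_lit 0) .nil .nil)))) (.nd (nat_lit 5) 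
(.lf (nat_lit 203487) (.g (nat_lit 679) (.e (nat_lit 73772) (nat_lit 24) (.e (nat_lit 761867) (nat_lit 5) (.e (nat_lit 1574) (nat_lit 110) (.e (nat_lit 352272) (nat_lit 10) (.e (nat_lit 417793) (nat_lit 0) (.e (nat_lit 5410) (nat_lit 303) .nil)))))) (.g (nat_lit 4) .nil .nil))) 
(.lf (nat_lit 203519) (.g (nat_lit 1092) (.e (nat_lit 73772) (nat_lit 24) (.e (nat_lit 761869) (nat_lit 5) (.e (nat_lit 1574) (nat_lit 110) (.e (nat_lit 352271) (nat_lit 9) (.e (nat_lit 409604) (nat_lit 0) (.e (nat_lit 5411) (nat_lit 303) .nil)))))) (.g (nat_lit 0) .nil .nil)))))))))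

noncomputable def tv2687 : DT := (.nd (nat_lit 0) (.nd (nat_lit 1) (.nd (nat_lit 2) (.nd (nat_lit 3) (.nd (nat_lit 4) (.nd (nat_lit 5) 
(.lf (nat_lit 203520) (.g (nat_lit 871) (.e (nat_lit 73772) (nat_lit 24) (.e (nat_lit 761869) (nat_lit 5) (.e (nat_lit 1574) (nat_lit 110) (.e (nat_lit 352272) (nat_lit 10) (.e (nat_lit 417794) (nat_lit 0) .nil))))) .nil)) 
(.lf (nat_lit 203552) (.g (nat_lit 973) (.e (nat_lit 73773) (nat_lit 25) (.e (nat_lit 770057) (nat_lit 5) (.e (nat_lit 1569) (nat_lit 110) (.e (nat_lit 352272) (nat_lit 10) (.e (nat_lit 417795) (nat_lit 0) (.e (nat_lit 5410) (nat_lit 303) .nil)))))) (.g (nat_lit 6) .nil .nil)))) (.nd (nat_lit 5) 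
(.lf (nat_lit 203536) (.g (nat_lit 1101) (.e (nat_lit 73773) (nat_lit 25) (.e (nat_lit 770055) (nat_lit 5) (.e (nat_lit 1575) (nat_lit 110) (.e (nat_lit 352271) (nat_lit 9) (.e (nat_lit 409602) (nat_lit 0) (.e (nat_lit 5411) (nat_lit 303) .nil)))))) (.g (nat_lit 0) .nil .nil))) 
(.lf (nat_lit 203568) (.g (nat_lit 217) (.e (nat_lit 73773) (nat_lit 25) (.e (nat_lit 770058) (nat_lit 5) (.e (nat_lit 1572) (nat_lit 110) .nil))) .nil)))) (.nd (nat_lit 4) (.nd (nat_lit 5) 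
(.lf (nat_lit 203528) (.g (nat_lit 732) (.e (nat_lit 73773) (nat_lit 25) (.e (nat_lit 770055) (nat_lit 5) (.e (nat_lit 1559) (nat_lit 110) (.e (nat_lit 352272) (nat_lit 10) (.e (nat_lit 417793) (nat_lit 0) (.e (nat_lit 5410) (nat_lit 303) .nil)))))) (.g (nat_lit 4) .nil .nil))) 
(.lf (nat_lit 203560) (.g (nat_lit 303) (.e (nat_lit 73773) (nat_lit 25) (.e (nat_lit 770058) (nat_lit 5) (.e (nat_lit 1553) (nat_lit 110) .nil))) .nil))) (.nd (nat_lit 5) 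
(.lf (nat_lit 203544) (.g (nat_lit 213) (.e (nat_lit 73773) (nat_lit 25) (.e (nat_lit 770056) (nat_lit 5) (.e (nat_lit 1569) (nat_lit 110) (.e (nat_lit 360192) (nat_lit 15) .nil)))) .nil)) 
(.lf (nat_lit 203576) (.g (nat_lit 2280) (.e (nat_lit 73773) (nat_lit 25) (.e (nat_lit 770069) (nat_lit 7) (.e (nat_lit 57520) (nat_lit 44) (.e (nat_lit 688182) (nat_lit 17) (.e (nat_lit 73755) (nat_lit 8) (.e (nat_lit 557089) (nat_lit 12) (.e (nat_lit 171776) (nat_lit 192) .nil))))))) (.g (nat_lit 5) .nil .nil)))))) (.nd (nat_lit 3) (.nd (nat_lit 4) (.nd (nat_lit 5) 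
(.lf (nat_lit 203524) (.g (nat_lit 2952) (.e (nat_lit 73772) (nat_lit 24) (.e (nat_lit 761869) (nat_lit 5) (.e (nat_lit 1574) (nat_lit 110) (.e (nat_lit 352277) (nat_lit 11) (.e (nat_lit 426011) (nat_lit 0) (.e (nat_lit 7591) (nat_lit 407) .nil)))))) (.g (nat_lit 0) .nil .nil))) 
(.lf (nat_lit 203556) (.g (nat_lit 682) (.e (nat_lit 73773) (nat_lit 25) (.e (nat_lit 770057) (nat_lit 5) (.e (nat_lit 1575) (nat_lit 110) (.e (nat_lit 352272) (nat_lit 10) (.e (nat_lit 417793) (nat_lit 0) (.e (nat_lit 5410) (nat_lit 303) .nil)))))) (.g (nat_lit 4) .nil .nil)))) (.nd (nat_lit 5) 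
(.lf (nat_lit 203540) (.g (nat_lit 2587) (.e (nat_lit 73773) (nat_lit 25) (.e (nat_lit 770055) (nat_lit 5) (.e (nat_lit 1575) (nat_lit 110) (.e (nat_lit 352277) (nat_lit 11) (.e (nat_lit 426011) (nat_lit 0) (.e (nat_lit 7593) (nat_lit 407) .nil)))))) (.g (nat_lit 0) .nil .nil))) 
(.lf (nat_lit 203572) (.g (nat_lit 853) (.e (nat_lit 73773) (nat_lit 25) (.e (nat_lit 770058) (nat_lit 5) (.e (nat_lit 1575) (nat_lit 110) (.e (nat_lit 352258) (nat_lit 0) (.e (nat_lit 7089) (nat_lit 379) (.e (nat_lit 123214) (nat_lit 275) .nil)))))) (.g (nat_lit 0) .nil .nil))))) (.nd (nat_lit 4) (.nd (nat_lit 5) 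
(.lf (nat_lit 203532) (.g (nat_lit 345) (.e (nat_lit 73773) (nat_lit 25) (.e (nat_lit 770055) (nat_lit 5) (.e (nat_lit 1562) (nat_lit 110) (.e (nat_lit 360192) (nat_lit 15) .nil)))) .nil)) 
(.lf (nat_lit 203564) (.g (nat_lit 438) (.e (nat_lit 73773) (nat_lit 25) (.e (nat_lit 770058) (nat_lit 5) (.e (nat_lit 1562) (nat_lit 110) (.e (nat_lit 352278) (nat_lit 11) .nil)))) .nil))) (.nd (nat_lit 5) 
(.lf (nat_lit 203548) (.g (nat_lit 697) (.e (nat_lit 73773) (nat_lit 25) (.e (nat_lit 770057) (nat_lit 5) (.e (nat_lit 1562) (nat_lit 110) (.e (nat_lit 352272) (nat_lit 10) (.e (nat_lit 417793) (nat_lit 0) (.e (nat_lit 5410) (nat_lit 303) .nil)))))) (.g (nat_lit 4) .nil .nil))) 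
(.lf (nat_lit 203580) (.g (nat_lit 379) (.e (nat_lit 73773) (nat_lit 25) (.e (nat_lit 770071) (nat_lit 8) (.e (nat_lit 65624) (nat_lit 12) .nil))) .nil)))))) (.nd (nat_lit 2) (.nd (nat_lit 3) (.nd (nat_lit 4) (.nd (nat_lit 5) 
(.lf (nat_lit 203522) (.g (nat_lit 1792) (.e (nat_lit 73772) (nat_lit 24) (.e (nat_lit 761869) (nat_lit 5) (.e (nat_lit 1574) (nat_lit 110) (.e (nat_lit 352272) (nat_lit 10) (.e (nat_lit 417796) (nat_lit 0) (.e (nat_lit 5412) (nat_lit 303) .nil)))))) (.g (nat_lit 0) .nil .nil))) 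
(.lf (nat_lit 203554) (.g (nat_lit 213) (.e (nat_lit 73773) (nat_lit 25) (.e (nat_lit 770057) (nat_lit 5) (.e (nat_lit 1569) (nat_lit 110) (.e (nat_lit 360192) (nat_lit 15) .nil)))) .nil))) (.nd (nat_lit 5) 
(.lf (nat_lit 203538) (.g (nat_lit 719) (.e (nat_lit 73773) (nat_lit 25) (.e (nat_lit 770055) (nat_lit 5) (.e (nat_lit 1575) (nat_lit 110) (.e (nat_lit 352276) (nat_lit 11) (.e (nat_lit 425989) (nat_lit 0) (.e (nat_lit 7592) (nat_lit 407) .nil)))))) (.g (nat_lit 0) .nil .nil))) 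
(.lf (nat_lit 203570) (.g (nat_lit 1092) (.e (nat_lit 73773) (nat_lit 25) (.e (nat_lit 770058) (nat_lit 5) (.e (nat_lit 1572) (nat_lit 110) (.e (nat_lit 352272) (nat_lit 10) (.e (nat_lit 417796) (nat_lit 0) .nil))))) .nil)))) (.nd (nat_lit 4) (.nd (nat_lit 5) 
(.lf (nat_lit 203530) (.g (nat_lit 2127) (.e (nat_lit 73773) (nat_lit 25) (.e (nat_lit 770055) (nat_lit 5) (.e (nat_lit 1559) (nat_lit 110) (.e (nat_lit 352277) (nat_lit 11) (.e (nat_lit 426012) (nat_lit 0) (.e (nat_lit 7591) (nat_lit 407) .nil)))))) (.g (nat_lit 0) .nil .nil))) 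
(.lf (nat_lit 203562) (.g (nat_lit 792) (.e (nat_lit 73773) (nat_lit 25) (.e (nat_lit 770058) (nat_lit 5) (.e (nat_lit 1562) (nat_lit 110) (.e (nat_lit 352272) (nat_lit 10) (.e (nat_lit 417793) (nat_lit 0) (.e (nat_lit 5410) (nat_lit 303) .nil)))))) (.g (nat_lit 4) .nil .nil)))) (.nd (nat_lit 5) 
(.lf (nat_lit 203546) (.g (nat_lit 2062) (.e (nat_lit 73773) (nat_lit 25) (.e (nat_lit 770056) (nat_lit 5) (.e (nat_lit 1575) (nat_lit 110) (.e (nat_lit 352277) (nat_lit 11) (.e (nat_lit 426012) (nat_lit 0) (.e (nat_lit 7591) (nat_lit 407) .nil)))))) (.g (nat_lit 0) .nil .nil))) 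
(.lf (nat_lit 203578) (.g (nat_lit 653) (.e (nat_lit 73773) (nat_lit 25) (.e (nat_lit 770070) (nat_lit 8) (.e (nat_lit 65627) (nat_lit 13) (.e (nat_lit 393232) (nat_lit 17) .nil)))) .nil))))) (.nd (nat_lit 3) (.nd (nat_lit 4) (.nd (nat_lit 5) 
(.lf (nat_lit 203526) (.g (nat_lit 93) (.e (nat_lit 73773) (nat_lit 25) (.e (nat_lit 770054) (nat_lit 5) (.e (nat_lit 1619) (nat_lit 113) .nil))) .nil)) 
(.lf (nat_lit 203558) (.g (nat_lit 349) (.e (nat_lit 73773) (nat_lit 25) (.e (nat_lit 770057) (nat_lit 5) (.e (nat_lit 1575) (nat_lit 110) (.e (nat_lit 352278) (nat_lit 11) .nil)))) .nil))) (.nd (nat_lit 5) 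
(.lf (nat_lit 203542) (.g (nat_lit 369) (.e (nat_lit 73773) (nat_lit 25) (.e (nat_lit 770055) (nat_lit 5) (.e (nat_lit 1575) (nat_lit 110) (.e (nat_lit 352278) (nat_lit 11) .nil)))) .nil)) 
(.lf (nat_lit 203574) (.g (nat_lit 251) (.e (nat_lit 73773) (nat_lit 25) (.e (nat_lit 770058) (nat_lit 5) (.e (nat_lit 1576) (nat_lit 110) .nil))) .nil)))) (.nd (nat_lit 4) (.nd (nat_lit 5) 
(.lf (nat_lit 203534) (.g (nat_lit 704) (.e (nat_lit 73773) (nat_lit 25) (.e (nat_lit 770055) (nat_lit 5) (.e (nat_lit 1575) (nat_lit 110) (.e (nat_lit 352258) (nat_lit 0) (.e (nat_lit 7088) (nat_lit 379) (.e (nat_lit 123214) (nat_lit 275) .nil)))))) (.g (nat_lit 0) .nil .nil))) 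
(.lf (nat_lit 203566) (.g (nat_lit 1059) (.e (nat_lit 73773) (nat_lit 25) (.e (nat_lit 770058) (nat_lit 5) (.e (nat_lit 1569) (nat_lit 110) (.e (nat_lit 352272) (nat_lit 10) (.e (nat_lit 417793) (nat_lit 0) (.e (nat_lit 5412) (nat_lit 303) .nil)))))) (.g (nat_lit 6) .nil .nil)))) (.nd (nat_lit 5) 
(.lf (nat_lit 203550) (.g (nat_lit 586) (.e (nat_lit 73773) (nat_lit 25) (.e (nat_lit 770057) (nat_lit 5) (.e (nat_lit 1569) (nat_lit 110) (.e (nat_lit 352272) (nat_lit 10) (.e (nat_lit 417793) (nat_lit 0) (.e (nat_lit 5410) (nat_lit 303) .nil)))))) (.g (nat_lit 4) .nil .nil))) 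
(.lf (nat_lit 203582) (.g (nat_lit 616) (.e (nat_lit 73773) (nat_lit 25) (.e (nat_lit 770072) (nat_lit 8) (.e (nat_lit 65592) (nat_lit 9) .nil))) .nil))))))) (.nd (nat_lit 1) (.nd (nat_lit 2) (.nd (nat_lit 3) (.nd (nat_lit 4) (.nd (nat_lit 5) 
(.lf (nat_lit 203521) (.g (nat_lit 1856) (.e (nat_lit 73772) (nat_lit 24) (.e (nat_lit 761869) (nat_lit 5) (.e (nat_lit 1574) (nat_lit 110) (.e (nat_lit 352272) (nat_lit 10) (.e (nat_lit 417795) (nat_lit 0) (.e (nat_lit 5412) (nat_lit 303) .nil)))))) (.g (nat_lit 0) .nil .nil))) 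
(.lf (nat_lit 203553) (.g (nat_lit 1118) (.e (nat_lit 73773) (nat_lit 25) (.e (nat_lit 770057) (nat_lit 5) (.e (nat_lit 1569) (nat_lit 110) (.e (nat_lit 352272) (nat_lit 10) (.e (nat_lit 417796) (nat_lit 0) (.e (nat_lit 5410) (nat_lit 303) .nil)))))) (.g (nat_lit 6) .nil .nil)))) (.nd (nat_lit 5) 
(.lf (nat_lit 203537) (.g (nat_lit 750) (.e (nat_lit 73773) (nat_lit 25) (.e (nat_lit 770055) (nat_lit 5) (.e (nat_lit 1575) (nat_lit 110) (.e (nat_lit 352272) (nat_lit 10) (.e (nat_lit 417793) (nat_lit 0) (.e (nat_lit 5410) (nat_lit 303) .nil)))))) (.g (nat_lit 4) .nil .nil))) 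
(.lf (nat_lit 203569) (.g (nat_lit 1073) (.e (nat_lit 73773) (nat_lit 25) (.e (nat_lit 770058) (nat_lit 5) (.e (nat_lit 1572) (nat_lit 110) (.e (nat_lit 352272) (nat_lit 10) (.e (nat_lit 417795) (nat_lit 0) .nil))))) .nil)))) (.nd (nat_lit 4) (.nd (nat_lit 5) 
(.lf (nat_lit 203529) (.g (nat_lit 2589) (.e (nat_lit 73773) (nat_lit 25) (.e (nat_lit 770055) (nat_lit 5) (.e (nat_lit 1559) (nat_lit 110) (.e (nat_lit 352277) (nat_lit 11) (.e (nat_lit 426011) (nat_lit 0) (.e (nat_lit 7591) (nat_lit 407) .nil)))))) (.g (nat_lit 0) .nil .nil))) 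
(.lf (nat_lit 203561) (.g (nat_lit 169) (.e (nat_lit 73773) (nat_lit 25) (.e (nat_lit 770058) (nat_lit 5) (.e (nat_lit 1562) (nat_lit 110) .nil))) .nil))) (.nd (nat_lit 5) 
(.lf (nat_lit 203545) (.g (nat_lit 649) (.e (nat_lit 73773) (nat_lit 25) (.e (nat_lit 770056) (nat_lit 5) (.e (nat_lit 1575) (nat_lit 110) (.e (nat_lit 352272) (nat_lit 10) (.e (nat_lit 417793) (nat_lit 0) (.e (nat_lit 5410) (nat_lit 303) .nil)))))) (.g (nat_lit 4) .nil .nil))) 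
(.lf (nat_lit 203577) (.g (nat_lit 314) (.e (nat_lit 73773) (nat_lit 25) (.e (nat_lit 770069) (nat_lit 7) (.e (nat_lit 65280) (nat_lit 187) .nil))) .nil))))) (.nd (nat_lit 3) (.nd (nat_lit 4) (.nd (nat_lit 5) 
(.lf (nat_lit 203525) (.g (nat_lit 791) (.e (nat_lit 73772) (nat_lit 24) (.e (nat_lit 761871) (nat_lit 5) (.e (nat_lit 1425) (nat_lit 108) (.e (nat_lit 336211) (nat_lit 13) (.e (nat_lit 393234) (nat_lit 17) .nil))))) .nil)) 
(.lf (nat_lit 203557) (.g (nat_lit 2617) (.e (nat_lit 73773) (nat_lit 25) (.e (nat_lit 770057) (nat_lit 5) (.e (nat_lit 1575) (nat_lit 110) (.e (nat_lit 352277) (nat_lit 11) (.e (nat_lit 426011) (nat_lit 0) (.e (nat_lit 7593) (nat_lit 407) .nil)))))) (.g (nat_lit 0) .nil .nil)))) (.nd (nat_lit 5) 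
(.lf (nat_lit 203541) (.g (nat_lit 2162) (.e (nat_lit 73773) (nat_lit 25) (.e (nat_lit 770055) (nat_lit 5) (.e (nat_lit 1575) (nat_lit 110) (.e (nat_lit 352277) (nat_lit 11) (.e (nat_lit 426012) (nat_lit 0) (.e (nat_lit 7591) (nat_lit 407) .nil)))))) (.g (nat_lit 0) .nil .nil))) 
(.lf (nat_lit 203573) (.g (nat_lit 2761) (.e (nat_lit 73773) (nat_lit 25) (.e (nat_lit 770058) (nat_lit 5) (.e (nat_lit 1575) (nat_lit 110) (.e (nat_lit 352277) (nat_lit 11) (.e (nat_lit 426011) (nat_lit 0) (.e (nat_lit 7591) (nat_lit 407) .nil)))))) (.g (nat_lit 0) .nil .nil))))) (.nd (nat_lit 4) (.nd (nat_lit 5) 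
(.lf (nat_lit 203533) (.g (nat_lit 157) (.e (nat_lit 73773) (nat_lit 25) (.e (nat_lit 770055) (nat_lit 5) (.e (nat_lit 1569) (nat_lit 110) .nil))) .nil)) 
(.lf (nat_lit 203565) (.g (nat_lit 719) (.e (nat_lit 73773) (nat_lit 25) (.e (nat_lit 770058) (nat_lit 5) (.e (nat_lit 1569) (nat_lit 110) (.e (nat_lit 352272) (nat_lit 10) (.e (nat_lit 417793) (nat_lit 0) (.e (nat_lit 5410) (nat_lit 303) .nil)))))) (.g (nat_lit 4) .nil .nil)))) (.nd (nat_lit 5) 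
(.lf (nat_lit 203549) (.g (nat_lit 359) (.e (nat_lit 73773) (nat_lit 25) (.e (nat_lit 770057) (nat_lit 5) (.e (nat_lit 1562) (nat_lit 110) (.e (nat_lit 352278) (nat_lit 11) .nil)))) .nil)) 
(.lf (nat_lit 203581) (.g (nat_lit 2360) (.e (nat_lit 73773) (nat_lit 25) (.e (nat_lit 770072) (nat_lit 8) (.e (nat_lit 65571) (nat_lit 3) (.e (nat_lit 98341) (nat_lit 20) (.e (nat_lit 221204) (nat_lit 20) .nil))))) .nil)))))) (.nd (nat_lit 2) (.nd (nat_lit 3) (.nd (nat_lit 4) (.nd (nat_lit 5) 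
(.lf (nat_lit 203523) (.g (nat_lit 2010) (.e (nat_lit 73772) (nat_lit 24) (.e (nat_lit 761869) (nat_lit 5) (.e (nat_lit 1574) (nat_lit 110) (.e (nat_lit 352277) (nat_lit 11) (.e (nat_lit 426010) (nat_lit 0) (.e (nat_lit 7591) (nat_lit 407) .nil)))))) (.g (nat_lit 6) .nil .nil))) 
(.lf (nat_lit 203555) (.g (nat_lit 645) (.e (nat_lit 73773) (nat_lit 25) (.e (nat_lit 770057) (nat_lit 5) (.e (nat_lit 1575) (nat_lit 110) (.e (nat_lit 352258) (nat_lit 0) (.e (nat_lit 7089) (nat_lit 379) (.e (nat_lit 123214) (nat_lit 275) .nil)))))) (.g (nat_lit 0) .nil .nil)))) (.nd (nat_lit 5) 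
(.lf (nat_lit 203539) (.g (nat_lit 2580) (.e (nat_lit 73773) (nat_lit 25) (.e (nat_lit 770055) (nat_lit 5) (.e (nat_lit 1575) (nat_lit 110) (.e (nat_lit 352277) (nat_lit 11) (.e (nat_lit 426011) (nat_lit 0) (.e (nat_lit 7591) (nat_lit 407) .nil)))))) (.g (nat_lit 0) .nil .nil))) 
(.lf (nat_lit 203571) (.g (nat_lit 833) (.e (nat_lit 73773) (nat_lit 25) (.e (nat_lit 770058) (nat_lit 5) (.e (nat_lit 1575) (nat_lit 110) (.e (nat_lit 352258) (nat_lit 0) (.e (nat_lit 7088) (nat_lit 379) (.e (nat_lit 123214) (nat_lit 275) .nil)))))) (.g (nat_lit 0) .nil .nil))))) (.nd (nat_lit 4) (.nd (nat_lit 5) 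
(.lf (nat_lit 203531) (.g (nat_lit 345) (.e (nat_lit 73773) (nat_lit 25) (.e (nat_lit 770055) (nat_lit 5) (.e (nat_lit 1562) (nat_lit 110) (.e (nat_lit 360192) (nat_lit 12) .nil)))) .nil)) 
(.lf (nat_lit 203563) (.g (nat_lit 428) (.e (nat_lit 73773) (nat_lit 25) (.e (nat_lit 770058) (nat_lit 5) (.e (nat_lit 1562) (nat_lit 110) (.e (nat_lit 352276) (nat_lit 11) .nil)))) .nil))) (.nd (nat_lit 5) 
(.lf (nat_lit 203547) (.g (nat_lit 595) (.e (nat_lit 73773) (nat_lit 25) (.e (nat_lit 770057) (nat_lit 5) (.e (nat_lit 1559) (nat_lit 110) (.e (nat_lit 352272) (nat_lit 10) (.e (nat_lit 417793) (nat_lit 0) (.e (nat_lit 5410) (nat_lit 303) .nil)))))) (.g (nat_lit 4) .nil .nil))) 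
(.lf (nat_lit 203579) (.g (nat_lit 680) (.e (nat_lit 73773) (nat_lit 25) (.e (nat_lit 770070) (nat_lit 8) (.e (nat_lit 65627) (nat_lit 13) (.e (nat_lit 393233) (nat_lit 17) .nil)))) .nil))))) (.nd (nat_lit 3) (.nd (nat_lit 4) (.nd (nat_lit 5) 
(.lf (nat_lit 203527) (.g (nat_lit 727) (.e (nat_lit 73773) (nat_lit 25) (.e (nat_lit 770055) (nat_lit 5) (.e (nat_lit 1553) (nat_lit 110) (.e (nat_lit 352272) (nat_lit 10) (.e (nat_lit 417795) (nat_lit 0) .nil))))) .nil)) 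
(.lf (nat_lit 203559) (.g (nat_lit 186) (.e (nat_lit 73773) (nat_lit 25) (.e (nat_lit 770057) (nat_lit 5) (.e (nat_lit 1576) (nat_lit 110) .nil))) .nil))) (.nd (nat_lit 5) 
(.lf (nat_lit 203543) (.g (nat_lit 642) (.e (nat_lit 73773) (nat_lit 25) (.e (nat_lit 770056) (nat_lit 5) (.e (nat_lit 1569) (nat_lit 110) (.e (nat_lit 352272) (nat_lit 10) (.e (nat_lit 417793) (nat_lit 0) (.e (nat_lit 5410) (nat_lit 303) .nil)))))) (.g (nat_lit 4) .nil .nil))) 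
(.lf (nat_lit 203575) (.g (nat_lit 767) (.e (nat_lit 73773) (nat_lit 25) (.e (nat_lit 770058) (nat_lit 5) (.e (nat_lit 1576) (nat_lit 110) (.e (nat_lit 352272) (nat_lit 10) (.e (nat_lit 417795) (nat_lit 0) .nil))))) .nil)))) (.nd (nat_lit 4) (.nd (nat_lit 5) 
(.lf (nat_lit 203535) (.g (nat_lit 727) (.e (nat_lit 73773) (nat_lit 25) (.e (nat_lit 770055) (nat_lit 5) (.e (nat_lit 1575) (nat_lit 110) (.e (nat_lit 352258) (nat_lit 0) (.e (nat_lit 7089) (nat_lit 379) (.e (nat_lit 123214) (nat_lit 275) .nil)))))) (.g (nat_lit 0) .nil .nil))) 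
(.lf (nat_lit 203567) (.g (nat_lit 310) (.e (nat_lit 73773) (nat_lit 25) (.e (nat_lit 770058) (nat_lit 5) (.e (nat_lit 1569) (nat_lit 110) (.e (nat_lit 360192) (nat_lit 15) .nil)))) .nil))) (.nd (nat_lit 5) 
(.lf (nat_lit 203551) (.g (nat_lit 970) (.e (nat_lit 73773) (nat_lit 25) (.e (nat_lit 770057) (nat_lit 5) (.e (nat_lit 1569) (nat_lit 110) (.e (nat_lit 352272) (nat_lit 10) (.e (nat_lit 417793) (nat_lit 0) (.e (nat_lit 5412) (nat_lit 303) .nil)))))) (.g (nat_lit 6) .nil .nil))) 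
(.lf (nat_lit 203583) (.g (nat_lit 469) (.e (nat_lit 73773) (nat_lit 25) (.e (nat_lit 770072) (nat_lit 8) (.e (nat_lit 65598) (nat_lit 9) .nil))) .nil))))))))

noncomputable def tv2688 : DT := (.nd (nat_lit 0) (.nd (nat_lit 1) (.nd (nat_lit 2) (.nd (nat_lit 3) (.nd (nat_lit 4) (.nd (nat_lit 5) 
(.lf (nat_lit 203584) (.g (nat_lit 1400) (.e (nat_lit 73773) (nat_lit 25) (.e (nat_lit 770072) (nat_lit 8) (.e (nat_lit 65598) (nat_lit 9) (.e (nat_lit 336412) (nat_lit 27) (.e (nat_lit 426011) (nat_lit 0) .nil))))) .nil)) 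
(.lf (nat_lit 203616) (.g (nat_lit 1240) (.e (nat_lit 73774) (nat_lit 26) (.e (nat_lit 778337) (nat_lit 9) (.e (nat_lit 311) (nat_lit 23) (.e (nat_lit 352272) (nat_lit 10) (.e (nat_lit 417796) (nat_lit 0) (.e (nat_lit 5412) (nat_lit 303) .nil)))))) (.g (nat_lit 0) .nil .nil)))) (.nd (nat_lit 5) 
(.lf (nat_lit 203600) (.g (nat_lit 633) (.e (nat_lit 73773) (nat_lit 25) (.e (nat_lit 770076) (nat_lit 12) (.e (nat_lit 131125) (nat_lit 13) (.e (nat_lit 393234) (nat_lit 17) .nil)))) .nil)) 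
(.lf (nat_lit 203632) (.g (nat_lit 1036) (.e (nat_lit 73775) (nat_lit 26) (.e (nat_lit 778360) (nat_lit 9) (.e (nat_lit 312) (nat_lit 23) (.e (nat_lit 352257) (nat_lit 0) (.e (nat_lit 7081) (nat_lit 378) (.e (nat_lit 57898) (nat_lit 275) .nil)))))) (.g (nat_lit 0) .nil .nil))))) (.nd (nat_lit 4) (.nd (nat_lit 5) 
(.lf (nat_lit 203592) (.g (nat_lit 1955) (.e (nat_lit 73773) (nat_lit 25) (.e (nat_lit 770073) (nat_lit 9) (.e (nat_lit 73755) (nat_lit 8) (.e (nat_lit 557104) (nat_lit 14) (.e (nat_lit 180233) (nat_lit 0) .nil))))) .nil)) 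
(.lf (nat_lit 203624) (.g (nat_lit 367) (.e (nat_lit 73774) (nat_lit 26) (.e (nat_lit 778340) (nat_lit 9) (.e (nat_lit 318) (nat_lit 23) (.e (nat_lit 352264) (nat_lit 0) (.e (nat_lit 7088) (nat_lit 379) (.e (nat_lit 123214) (nat_lit 275) .nil)))))) (.g (nat_lit 0) .nil .nil)))) (.nd (nat_lit 5) 
(.lf (nat_lit 203608) (.g (nat_lit 264) (.e (nat_lit 73774) (nat_lit 26) (.e (nat_lit 778334) (nat_lit 9) (.e (nat_lit 311) (nat_lit 23) .nil))) .nil)) 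
(.lf (nat_lit 203640) (.g (nat_lit 1625) (.e (nat_lit 73775) (nat_lit 26) (.e (nat_lit 778361) (nat_lit 9) (.e (nat_lit 232) (nat_lit 21) (.e (nat_lit 336224) (nat_lit 13) (.e (nat_lit 393232) (nat_lit 17) .nil))))) .nil))))) (.nd (nat_lit 3) (.nd (nat_lit 4) (.nd (nat_lit 5) 
(.lf (nat_lit 203588) (.g (nat_lit 409) (.e (nat_lit 73773) (nat_lit 25) (.e (nat_lit 770072) (nat_lit 8) (.e (nat_lit 65627) (nat_lit 13) .nil))) .nil)) 
(.lf (nat_lit 203620) (.g (nat_lit 320) (.e (nat_lit 73774) (nat_lit 26) (.e (nat_lit 778339) (nat_lit 9) (.e (nat_lit 311) (nat_lit 23) (.e (nat_lit 352271) (nat_lit 9) .nil)))) .nil))) (.nd (nat_lit 5) 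
(.lf (nat_lit 203604) (.g (nat_lit 1737) (.e (nat_lit 73774) (nat_lit 26) (.e (nat_lit 778325) (nat_lit 6) (.e (nat_lit 81956) (nat_lit 23) (.e (nat_lit 98321) (nat_lit 17) (.e (nat_lit 7936) (nat_lit 216) .nil))))) .nil)) 
(.lf (nat_lit 203636) (.g (nat_lit 2119) (.e (nat_lit 73775) (nat_lit 26) (.e (nat_lit 778360) (nat_lit 9) (.e (nat_lit 312) (nat_lit 23) (.e (nat_lit 352277) (nat_lit 11) (.e (nat_lit 426009) (nat_lit 0) (.e (nat_lit 7593) (nat_lit 407) .nil)))))) (.g (nat_lit 0) .nil .nil))))) (.nd (nat_lit 4) (.nd (nat_lit 5) 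
(.lf (nat_lit 203596) (.g (nat_lit 507) (.e (nat_lit 73773) (nat_lit 25) (.e (nat_lit 770074) (nat_lit 10) (.e (nat_lit 81926) (nat_lit 11) .nil))) .nil)) 
(.lf (nat_lit 203628) (.g (nat_lit 471) (.e (nat_lit 73775) (nat_lit 26) (.e (nat_lit 778359) (nat_lit 9) (.e (nat_lit 334) (nat_lit 26) (.e (nat_lit 384768) (nat_lit 10) .nil)))) .nil))) (.nd (nat_lit 5) 
(.lf (nat_lit 203612) (.g (nat_lit 531) (.e (nat_lit 73774) (nat_lit 26) (.e (nat_lit 778337) (nat_lit 9) (.e (nat_lit 311) (nat_lit 23) (.e (nat_lit 352258) (nat_lit 0) (.e (nat_lit 7088) (nat_lit 379) (.e (nat_lit 123214) (nat_lit 275) .nil)))))) (.g (nat_lit 0) .nil .nil))) 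
(.lf (nat_lit 203644) (.g (nat_lit 616) (.e (nat_lit 73775) (nat_lit 26) (.e (nat_lit 778361) (nat_lit 9) (.e (nat_lit 245) (nat_lit 21) .nil))) .nil)))))) (.nd (nat_lit 2) (.nd (nat_lit 3) (.nd (nat_lit 4) (.nd (nat_lit 5) 
(.lf (nat_lit 203586) (.g (nat_lit 1064) (.e (nat_lit 73773) (nat_lit 25) (.e (nat_lit 770072) (nat_lit 8) (.e (nat_lit 65626) (nat_lit 13) (.e (nat_lit 393231) (nat_lit 17) .nil)))) .nil)) 
(.lf (nat_lit 203618) (.g (nat_lit 218) (.e (nat_lit 73774) (nat_lit 26) (.e (nat_lit 778339) (nat_lit 9) (.e (nat_lit 311) (nat_lit 23) .nil))) .nil))) (.nd (nat_lit 5) 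
(.lf (nat_lit 203602) (.g (nat_lit 1503) (.e (nat_lit 73773) (nat_lit 25) (.e (nat_lit 770076) (nat_lit 12) (.e (nat_lit 131127) (nat_lit 13) (.e (nat_lit 393238) (nat_lit 17) (.e (nat_lit 7936) (nat_lit 407) .nil))))) (.g (nat_lit 4) .nil .nil))) 
(.lf (nat_lit 203634) (.g (nat_lit 584) (.e (nat_lit 73775) (nat_lit 26) (.e (nat_lit 778360) (nat_lit 9) (.e (nat_lit 312) (nat_lit 23) (.e (nat_lit 352271) (nat_lit 9) (.e (nat_lit 409603) (nat_lit 0) .nil))))) .nil)))) (.nd (nat_lit 4) (.nd (nat_lit 5) 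
(.lf (nat_lit 203594) (.g (nat_lit 344) (.e (nat_lit 73773) (nat_lit 25) (.e (nat_lit 770074) (nat_lit 10) (.e (nat_lit 89856) (nat_lit 9) .nil))) .nil)) 
(.lf (nat_lit 203626) (.g (nat_lit 1048) (.e (nat_lit 73775) (nat_lit 26) (.e (nat_lit 778359) (nat_lit 9) (.e (nat_lit 232) (nat_lit 21) (.e (nat_lit 336224) (nat_lit 13) (.e (nat_lit 393231) (nat_lit 17) .nil))))) .nil))) (.nd (nat_lit 5) 
(.lf (nat_lit 203610) (.g (nat_lit 168) (.e (nat_lit 73774) (nat_lit 26) (.e (nat_lit 778337) (nat_lit 9) (.e (nat_lit 311) (nat_lit 23) .nil))) .nil)) 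
(.lf (nat_lit 203642) (.g (nat_lit 1455) (.e (nat_lit 73775) (nat_lit 26) (.e (nat_lit 778361) (nat_lit 9) (.e (nat_lit 243) (nat_lit 21) (.e (nat_lit 336086) (nat_lit 9) (.e (nat_lit 336421) (nat_lit 28) .nil))))) .nil))))) (.nd (nat_lit 3) (.nd (nat_lit 4) (.nd (nat_lit 5) 
(.lf (nat_lit 203590) (.g (nat_lit 2327) (.e (nat_lit 73773) (nat_lit 25) (.e (nat_lit 770073) (nat_lit 9) (.e (nat_lit 73754) (nat_lit 8) (.e (nat_lit 557105) (nat_lit 14) (.e (nat_lit 180265) (nat_lit 21) (.e (nat_lit 671488) (nat_lit 5) .nil)))))) (.g (nat_lit 5) .nil .nil))) 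
(.lf (nat_lit 203622) (.g (nat_lit 1399) (.e (nat_lit 73774) (nat_lit 26) (.e (nat_lit 778339) (nat_lit 9) (.e (nat_lit 311) (nat_lit 23) (.e (nat_lit 352272) (nat_lit 10) (.e (nat_lit 417795) (nat_lit 0) (.e (nat_lit 5412) (nat_lit 303) .nil)))))) (.g (nat_lit 0) .nil .nil)))) (.nd (nat_lit 5) 
(.lf (nat_lit 203606) (.g (nat_lit 1554) (.e (nat_lit 73774) (nat_lit 26) (.e (nat_lit 778325) (nat_lit 6) (.e (nat_lit 81956) (nat_lit 23) (.e (nat_lit 98333) (nat_lit 18) .nil)))) .nil)) 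
(.lf (nat_lit 203638) (.g (nat_lit 622) (.e (nat_lit 73775) (nat_lit 26) (.e (nat_lit 778360) (nat_lit 9) (.e (nat_lit 334) (nat_lit 26) (.e (nat_lit 376838) (nat_lit 11) .nil)))) .nil)))) (.nd (nat_lit 4) (.nd (nat_lit 5) 
(.lf (nat_lit 203598) (.g (nat_lit 338) (.e (nat_lit 73773) (nat_lit 25) (.e (nat_lit 770074) (nat_lit 10) (.e (nat_lit 81965) (nat_lit 26) .nil))) .nil)) 
(.lf (nat_lit 203630) (.g (nat_lit 921) (.e (nat_lit 73775) (nat_lit 26) (.e (nat_lit 778360) (nat_lit 9) (.e (nat_lit 310) (nat_lit 23) (.e (nat_lit 352278) (nat_lit 11) (.e (nat_lit 426035) (nat_lit 0) (.e (nat_lit 7936) (nat_lit 407) .nil)))))) (.g (nat_lit 5) .nil .nil)))) (.nd (nat_lit 5) 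
(.lf (nat_lit 203614) (.g (nat_lit 481) (.e (nat_lit 73774) (nat_lit 26) (.e (nat_lit 778337) (nat_lit 9) (.e (nat_lit 311) (nat_lit 23) (.e (nat_lit 352272) (nat_lit 10) (.e (nat_lit 417793) (nat_lit 0) .nil))))) .nil)) 
(.lf (nat_lit 203646) (.g (nat_lit 1761) (.e (nat_lit 73775) (nat_lit 26) (.e (nat_lit 778361) (nat_lit 9) (.e (nat_lit 246) (nat_lit 21) (.e (nat_lit 336213) (nat_lit 13) (.e (nat_lit 393233) (nat_lit 17) .nil))))) .nil))))))) (.nd (nat_lit 1) (.nd (nat_lit 2) (.nd (nat_lit 3) (.nd (nat_lit 4) (.nd (nat_lit 5) 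
(.lf (nat_lit 203585) (.g (nat_lit 609) (.e (nat_lit 73773) (nat_lit 25) (.e (nat_lit 770072) (nat_lit 8) (.e (nat_lit 65624) (nat_lit 12) .nil))) .nil)) 
(.lf (nat_lit 203617) (.g (nat_lit 1388) (.e (nat_lit 73774) (nat_lit 26) (.e (nat_lit 778337) (nat_lit 9) (.e (nat_lit 311) (nat_lit 23) (.e (nat_lit 352277) (nat_lit 11) (.e (nat_lit 426009) (nat_lit 0) (.e (nat_lit 7593) (nat_lit 407) .nil)))))) (.g (nat_lit 0) .nil .nil)))) (.nd (nat_lit 5) 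
(.lf (nat_lit 203601) (.g (nat_lit 344) (.e (nat_lit 73773) (nat_lit 25) (.e (nat_lit 770076) (nat_lit 12) (.e (nat_lit 131127) (nat_lit 13) .nil))) .nil)) 
(.lf (nat_lit 203633) (.g (nat_lit 1033) (.e (nat_lit 73775) (nat_lit 26) (.e (nat_lit 778360) (nat_lit 9) (.e (nat_lit 312) (nat_lit 23) (.e (nat_lit 352258) (nat_lit 0) (.e (nat_lit 7089) (nat_lit 379) (.e (nat_lit 123214) (nat_lit 275) .nil)))))) (.g (nat_lit 0) .nil .nil))))) (.nd (nat_lit 4) (.nd (nat_lit 5) 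
(.lf (nat_lit 203593) (.g (nat_lit 1609) (.e (nat_lit 73773) (nat_lit 25) (.e (nat_lit 770073) (nat_lit 9) (.e (nat_lit 73755) (nat_lit 8) (.e (nat_lit 557105) (nat_lit 14) (.e (nat_lit 180265) (nat_lit 21) (.e (nat_lit 671488) (nat_lit 5) .nil)))))) (.g (nat_lit 4) .nil .nil))) 
(.lf (nat_lit 203625) (.g (nat_lit 410) (.e (nat_lit 73774) (nat_lit 26) (.e (nat_lit 778340) (nat_lit 9) (.e (nat_lit 318) (nat_lit 23) (.e (nat_lit 352264) (nat_lit 0) (.e (nat_lit 7089) (nat_lit 379) (.e (nat_lit 123214) (nat_lit 275) .nil)))))) (.g (nat_lit 0) .nil .nil)))) (.nd (nat_lit 5) 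
(.lf (nat_lit 203609) (.g (nat_lit 588) (.e (nat_lit 73774) (nat_lit 26) (.e (nat_lit 778334) (nat_lit 9) (.e (nat_lit 311) (nat_lit 23) (.e (nat_lit 352272) (nat_lit 10) (.e (nat_lit 417793) (nat_lit 0) (.e (nat_lit 5410) (nat_lit 303) .nil)))))) (.g (nat_lit 4) .nil .nil))) 
(.lf (nat_lit 203641) (.g (nat_lit 824) (.e (nat_lit 73775) (nat_lit 26) (.e (nat_lit 778361) (nat_lit 9) (.e (nat_lit 243) (nat_lit 21) (.e (nat_lit 336085) (nat_lit 9) .nil)))) .nil))))) (.nd (nat_lit 3) (.nd (nat_lit 4) (.nd (nat_lit 5) 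
(.lf (nat_lit 203589) (.g (nat_lit 287) (.e (nat_lit 73773) (nat_lit 25) (.e (nat_lit 770073) (nat_lit 9) (.e (nat_lit 73746) (nat_lit 3) .nil))) .nil)) 
(.lf (nat_lit 203621) (.g (nat_lit 598) (.e (nat_lit 73774) (nat_lit 26) (.e (nat_lit 778339) (nat_lit 9) (.e (nat_lit 311) (nat_lit 23) (.e (nat_lit 352272) (nat_lit 10) (.e (nat_lit 417793) (nat_lit 0) (.e (nat_lit 5410) (nat_lit 303) .nil)))))) (.g (nat_lit 4) .nil .nil)))) (.nd (nat_lit 5) 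
(.lf (nat_lit 203605) (.g (nat_lit 1847) (.e (nat_lit 73774) (nat_lit 26) (.e (nat_lit 778325) (nat_lit 6) (.e (nat_lit 81956) (nat_lit 23) (.e (nat_lit 98321) (nat_lit 17) (.e (nat_lit 7936) (nat_lit 216) (.e (nat_lit 688182) (nat_lit 17) .nil)))))) (.g (nat_lit 4) .nil .nil))) 
(.lf (nat_lit 203637) (.g (nat_lit 2264) (.e (nat_lit 73775) (nat_lit 26) (.e (nat_lit 778360) (nat_lit 9) (.e (nat_lit 312) (nat_lit 23) (.e (nat_lit 352277) (nat_lit 11) (.e (nat_lit 426010) (nat_lit 0) (.e (nat_lit 7593) (nat_lit 407) .nil)))))) (.g (nat_lit 0) .nil .nil))))) (.nd (nat_lit 4) (.nd (nat_lit 5) 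
(.lf (nat_lit 203597) (.g (nat_lit 1670) (.e (nat_lit 73773) (nat_lit 25) (.e (nat_lit 770074) (nat_lit 10) (.e (nat_lit 81927) (nat_lit 11) (.e (nat_lit 426010) (nat_lit 0) (.e (nat_lit 7593) (nat_lit 407) .nil))))) (.g (nat_lit 5) .nil .nil))) 
(.lf (nat_lit 203629) (.g (nat_lit 1034) (.e (nat_lit 73775) (nat_lit 26) (.e (nat_lit 778360) (nat_lit 9) (.e (nat_lit 232) (nat_lit 21) (.e (nat_lit 336224) (nat_lit 13) (.e (nat_lit 393231) (nat_lit 17) .nil))))) .nil))) (.nd (nat_lit 5) 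
(.lf (nat_lit 203613) (.g (nat_lit 550) (.e (nat_lit 73774) (nat_lit 26) (.e (nat_lit 778337) (nat_lit 9) (.e (nat_lit 311) (nat_lit 23) (.e (nat_lit 352258) (nat_lit 0) (.e (nat_lit 7089) (nat_lit 379) (.e (nat_lit 123214) (nat_lit 275) .nil)))))) (.g (nat_lit 0) .nil .nil))) 
(.lf (nat_lit 203645) (.g (nat_lit 1366) (.e (nat_lit 73775) (nat_lit 26) (.e (nat_lit 778361) (nat_lit 9) (.e (nat_lit 245) (nat_lit 21) (.e (nat_lit 336086) (nat_lit 9) (.e (nat_lit 336421) (nat_lit 28) .nil))))) .nil)))))) (.nd (nat_lit 2) (.nd (nat_lit 3) (.nd (nat_lit 4) (.nd (nat_lit 5) 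
(.lf (nat_lit 203587) (.g (nat_lit 1064) (.e (nat_lit 73773) (nat_lit 25) (.e (nat_lit 770072) (nat_lit 8) (.e (nat_lit 65626) (nat_lit 13) (.e (nat_lit 393242) (nat_lit 17) .nil)))) .nil)) 
(.lf (nat_lit 203619) (.g (nat_lit 650) (.e (nat_lit 73774) (nat_lit 26) (.e (nat_lit 778339) (nat_lit 9) (.e (nat_lit 311) (nat_lit 23) (.e (nat_lit 352258) (nat_lit 0) (.e (nat_lit 7089) (nat_lit 379) (.e (nat_lit 123214) (nat_lit 275) .nil)))))) (.g (nat_lit 0) .nil .nil)))) (.nd (nat_lit 5) 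
(.lf (nat_lit 203603) (.g (nat_lit 1918) (.e (nat_lit 73774) (nat_lit 26) (.e (nat_lit 778325) (nat_lit 6) (.e (nat_lit 81954) (nat_lit 23) (.e (nat_lit 98334) (nat_lit 18) (.e (nat_lit 164159) (nat_lit 152) (.e (nat_lit 1208) (nat_lit 89) .nil)))))) (.g (nat_lit 5) .nil .nil))) 
(.lf (nat_lit 203635) (.g (nat_lit 1741) (.e (nat_lit 73775) (nat_lit 26) (.e (nat_lit 778360) (nat_lit 9) (.e (nat_lit 312) (nat_lit 23) (.e (nat_lit 352272) (nat_lit 10) (.e (nat_lit 417796) (nat_lit 0) (.e (nat_lit 5412) (nat_lit 303) .nil)))))) (.g (nat_lit 0) .nil .nil))))) (.nd (nat_lit 4) (.nd (nat_lit 5) 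
(.lf (nat_lit 203595) (.g (nat_lit 777) (.e (nat_lit 73773) (nat_lit 25) (.e (nat_lit 770074) (nat_lit 10) (.e (nat_lit 81925) (nat_lit 11) (.e (nat_lit 426035) (nat_lit 0) .nil)))) .nil)) 
(.lf (nat_lit 203627) (.g (nat_lit 587) (.e (nat_lit 73775) (nat_lit 26) (.e (nat_lit 778359) (nat_lit 9) (.e (nat_lit 312) (nat_lit 23) (.e (nat_lit 352271) (nat_lit 9) (.e (nat_lit 409603) (nat_lit 0) .nil))))) .nil))) (.nd (nat_lit 5) 
(.lf (nat_lit 203611) (.g (nat_lit 479) (.e (nat_lit 73774) (nat_lit 26) (.e (nat_lit 778337) (nat_lit 9) (.e (nat_lit 311) (nat_lit 23) (.e (nat_lit 352258) (nat_lit 0) (.e (nat_lit 7086) (nat_lit 379) (.e (nat_lit 123214) (nat_lit 275) .nil)))))) (.g (nat_lit 0) .nil .nil))) 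
(.lf (nat_lit 203643) (.g (nat_lit 1854) (.e (nat_lit 73775) (nat_lit 26) (.e (nat_lit 778361) (nat_lit 9) (.e (nat_lit 244) (nat_lit 21) (.e (nat_lit 336213) (nat_lit 13) (.e (nat_lit 393233) (nat_lit 17) .nil))))) .nil))))) (.nd (nat_lit 3) (.nd (nat_lit 4) (.nd (nat_lit 5) 
(.lf (nat_lit 203591) (.g (nat_lit 1319) (.e (nat_lit 73773) (nat_lit 25) (.e (nat_lit 770073) (nat_lit 9) (.e (nat_lit 73755) (nat_lit 8) (.e (nat_lit 557104) (nat_lit 14) .nil)))) .nil)) 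
(.lf (nat_lit 203623) (.g (nat_lit 1339) (.e (nat_lit 73774) (nat_lit 26) (.e (nat_lit 778339) (nat_lit 9) (.e (nat_lit 311) (nat_lit 23) (.e (nat_lit 352272) (nat_lit 10) (.e (nat_lit 417796) (nat_lit 0) (.e (nat_lit 5412) (nat_lit 303) .nil)))))) (.g (nat_lit 0) .nil .nil)))) (.nd (nat_lit 5) 
(.lf (nat_lit 203607) (.g (nat_lit 2920) (.e (nat_lit 73774) (nat_lit 26) (.e (nat_lit 778325) (nat_lit 6) (.e (nat_lit 81956) (nat_lit 23) (.e (nat_lit 98333) (nat_lit 18) (.e (nat_lit 164155) (nat_lit 152) .nil))))) .nil)) 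
(.lf (nat_lit 203639) (.g (nat_lit 616) (.e (nat_lit 73775) (nat_lit 26) (.e (nat_lit 778361) (nat_lit 9) (.e (nat_lit 227) (nat_lit 21) .nil))) .nil)))) (.nd (nat_lit 4) (.nd (nat_lit 5) 
(.lf (nat_lit 203599) (.g (nat_lit 361) (.e (nat_lit 73773) (nat_lit 25) (.e (nat_lit 770076) (nat_lit 12) (.e (nat_lit 131124) (nat_lit 13) .nil))) .nil)) 
(.lf (nat_lit 203631) (.g (nat_lit 1032) (.e (nat_lit 73775) (nat_lit 26) (.e (nat_lit 778360) (nat_lit 9) (.e (nat_lit 312) (nat_lit 23) (.e (nat_lit 352257) (nat_lit 0) (.e (nat_lit 7077) (nat_lit 378) (.e (nat_lit 57898) (nat_lit 275) .nil)))))) (.g (nat_lit 0) .nil .nil)))) (.nd (nat_lit 5) 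
(.lf (nat_lit 203615) (.g (nat_lit 1301) (.e (nat_lit 73774) (nat_lit 26) (.e (nat_lit 778337) (nat_lit 9) (.e (nat_lit 311) (nat_lit 23) (.e (nat_lit 352272) (nat_lit 10) (.e (nat_lit 417795) (nat_lit 0) (.e (nat_lit 5412) (nat_lit 303) .nil)))))) (.g (nat_lit 0) .nil .nil))) 
(.lf (nat_lit 203647) (.g (nat_lit 1593) (.e (nat_lit 73775) (nat_lit 26) (.e (nat_lit 778361) (nat_lit 9) (.e (nat_lit 255) (nat_lit 21) (.e (nat_lit 336088) (nat_lit 9) (.e (nat_lit 336438) (nat_lit 31) (.e (nat_lit 466688) (nat_lit 5) .nil)))))) (.g (nat_lit 4) .nil .nil)))))))))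

noncomputable def tv2689 : DT := (.nd (nat_lit 0) (.nd (nat_lit 1) (.nd (nat_lit 2) (.nd (nat_lit 3) (.nd (nat_lit 4) (.nd (nat_lit 5) (.nd (nat_lit 6) 
(.lf (nat_lit 203648) (.g (nat_lit 624) (.e (nat_lit 73775) (nat_lit 26) (.e (nat_lit 778361) (nat_lit 9) (.e (nat_lit 265) (nat_lit 21) .nil))) .nil)) 
(.lf (nat_lit 203712) (.g (nat_lit 4222) (.e (nat_lit 73775) (nat_lit 26) (.e (nat_lit 778362) (nat_lit 9) (.e (nat_lit 297) (nat_lit 22) (.e (nat_lit 344131) (nat_lit 26) (.e (nat_lit 557103) (nat_lit 14) (.e (nat_lit 180229) (nat_lit 0) (.e (nat_lit 5820) (nat_lit 320) (.e (nat_lit 1214) (nat_lit 89) .nil)))))))) (.g (nat_lit 5) .nil .nil)))) (.nd (nat_lit 6) 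
(.lf (nat_lit 203680) (.g (nat_lit 2559) (.e (nat_lit 73775) (nat_lit 26) (.e (nat_lit 778361) (nat_lit 9) (.e (nat_lit 324) (nat_lit 24) (.e (nat_lit 360449) (nat_lit 0) (.e (nat_lit 7265) (nat_lit 384) (.e (nat_lit 57347) (nat_lit 0) (.e (nat_lit 7936) (nat_lit 348) .nil))))))) (.g (nat_lit 6) .nil .nil))) 
(.lf (nat_lit 203744) (.g (nat_lit 2049) (.e (nat_lit 73775) (nat_lit 26) (.e (nat_lit 778362) (nat_lit 9) (.e (nat_lit 312) (nat_lit 23) (.e (nat_lit 352276) (nat_lit 11) (.e (nat_lit 425987) (nat_lit 0) (.e (nat_lit 7592) (nat_lit 407) .nil)))))) (.g (nat_lit 6) .nil .nil))))) (.nd (nat_lit 5) (.nd (nat_lit 6) 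
(.lf (nat_lit 203664) (.g (nat_lit 1410) (.e (nat_lit 73775) (nat_lit 26) (.e (nat_lit 778361) (nat_lit 9) (.e (nat_lit 310) (nat_lit 23) (.e (nat_lit 352278) (nat_lit 11) (.e (nat_lit 426035) (nat_lit 0) (.e (nat_lit 7936) (nat_lit 407) .nil)))))) (.g (nat_lit 5) .nil .nil))) 
(.lf (nat_lit 203728) (.g (nat_lit 3889) (.e (nat_lit 73775) (nat_lit 26) (.e (nat_lit 778362) (nat_lit 9) (.e (nat_lit 297) (nat_lit 22) (.e (nat_lit 344133) (nat_lit 26) (.e (nat_lit 557105) (nat_lit 14) (.e (nat_lit 180233) (nat_lit 0) (.e (nat_lit 5815) (nat_lit 320) (.e (nat_lit 1214) (nat_lit 89) .nil)))))))) (.g (nat_lit 5) .nil .nil)))) (.nd (nat_lit 6) 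
(.lf (nat_lit 203696) (.g (nat_lit 2448) (.e (nat_lit 73775) (nat_lit 26) (.e (nat_lit 778362) (nat_lit 9) (.e (nat_lit 243) (nat_lit 21) (.e (nat_lit 336213) (nat_lit 13) (.e (nat_lit 393233) (nat_lit 17) (.e (nat_lit 7593) (nat_lit 407) .nil)))))) (.g (nat_lit 4) .nil .nil))) 
(.lf (nat_lit 203760) (.g (nat_lit 2029) (.e (nat_lit 73775) (nat_lit 26) (.e (nat_lit 778362) (nat_lit 9) (.e (nat_lit 314) (nat_lit 23) (.e (nat_lit 352275) (nat_lit 11) (.e (nat_lit 426013) (nat_lit 0) (.e (nat_lit 7936) (nat_lit 407) .nil)))))) (.g (nat_lit 5) .nil .nil)))))) (.nd (nat_lit 4) (.nd (nat_lit 5) (.nd (nat_lit 6) 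
(.lf (nat_lit 203656) (.g (nat_lit 1800) (.e (nat_lit 73775) (nat_lit 26) (.e (nat_lit 778361) (nat_lit 9) (.e (nat_lit 309) (nat_lit 23) (.e (nat_lit 352272) (nat_lit 10) (.e (nat_lit 417793) (nat_lit 0) (.e (nat_lit 5412) (nat_lit 303) .nil)))))) (.g (nat_lit 6) .nil .nil))) 
(.lf (nat_lit 203720) (.g (nat_lit 3231) (.e (nat_lit 73775) (nat_lit 26) (.e (nat_lit 778362) (nat_lit 9) (.e (nat_lit 297) (nat_lit 22) (.e (nat_lit 344133) (nat_lit 26) (.e (nat_lit 557098) (nat_lit 13) (.e (nat_lit 172061) (nat_lit 1) (.e (nat_lit 164391) (nat_lit 254) (.e (nat_lit 1210) (nat_lit 89) .nil)))))))) (.g (nat_lit 4) .nil .nil)))) (.nd (nat_lit 6) 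
(.lf (nat_lit 203688) (.g (nat_lit 2011) (.e (nat_lit 73775) (nat_lit 26) (.e (nat_lit 778362) (nat_lit 9) (.e (nat_lit 232) (nat_lit 21) (.e (nat_lit 336089) (nat_lit 9) .nil)))) .nil)) 
(.lf (nat_lit 203752) (.g (nat_lit 1138) (.e (nat_lit 73775) (nat_lit 26) (.e (nat_lit 778362) (nat_lit 9) (.e (nat_lit 314) (nat_lit 23) (.e (nat_lit 360192) (nat_lit 9) .nil)))) .nil)))) (.nd (nat_lit 5) (.nd (nat_lit 6) 
(.lf (nat_lit 203672) (.g (nat_lit 1453) (.e (nat_lit 73775) (nat_lit 26) (.e (nat_lit 778361) (nat_lit 9) (.e (nat_lit 314) (nat_lit 23) (.e (nat_lit 352273) (nat_lit 11) .nil)))) .nil)) 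
(.lf (nat_lit 203736) (.g (nat_lit 2061) (.e (nat_lit 73775) (nat_lit 26) (.e (nat_lit 778362) (nat_lit 9) (.e (nat_lit 312) (nat_lit 23) (.e (nat_lit 352258) (nat_lit 0) (.e (nat_lit 7089) (nat_lit 379) (.e (nat_lit 123214) (nat_lit 275) .nil)))))) (.g (nat_lit 0) .nil .nil)))) (.nd (nat_lit 6) 
(.lf (nat_lit 203704) (.g (nat_lit 400) (.e (nat_lit 73775) (nat_lit 26) (.e (nat_lit 778362) (nat_lit 9) (.e (nat_lit 293) (nat_lit 21) .nil))) .nil)) 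
(.lf (nat_lit 203768) (.g (nat_lit 1988) (.e (nat_lit 73775) (nat_lit 26) (.e (nat_lit 778362) (nat_lit 9) (.e (nat_lit 314) (nat_lit 23) (.e (nat_lit 352275) (nat_lit 11) (.e (nat_lit 426052) (nat_lit 0) (.e (nat_lit 7936) (nat_lit 407) .nil)))))) (.g (nat_lit 5) .nil .nil))))))) (.nd (nat_lit 3) (.nd (nat_lit 4) (.nd (nat_lit 5) (.nd (nat_lit 6) 
(.lf (nat_lit 203652) (.g (nat_lit 1264) (.e (nat_lit 73775) (nat_lit 26) (.e (nat_lit 778361) (nat_lit 9) (.e (nat_lit 293) (nat_lit 21) (.e (nat_lit 336209) (nat_lit 13) (.e (nat_lit 393231) (nat_lit 17) .nil))))) .nil)) 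
(.lf (nat_lit 203716) (.g (nat_lit 3986) (.e (nat_lit 73775) (nat_lit 26) (.e (nat_lit 778362) (nat_lit 9) (.e (nat_lit 297) (nat_lit 22) (.e (nat_lit 344132) (nat_lit 26) (.e (nat_lit 557105) (nat_lit 14) (.e (nat_lit 180227) (nat_lit 0) (.e (nat_lit 5814) (nat_lit 320) (.e (nat_lit 1214) (nat_lit 89) .nil)))))))) (.g (nat_lit 5) .nil .nil)))) (.nd (nat_lit 6) 
(.lf (nat_lit 203684) (.g (nat_lit 1304) (.e (nat_lit 73775) (nat_lit 26) (.e (nat_lit 778361) (nat_lit 9) (.e (nat_lit 334) (nat_lit 26) (.e (nat_lit 376838) (nat_lit 11) (.e (nat_lit 426077) (nat_lit 0) .nil))))) .nil)) 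
(.lf (nat_lit 203748) (.g (nat_lit 1588) (.e (nat_lit 73775) (nat_lit 26) (.e (nat_lit 778362) (nat_lit 9) (.e (nat_lit 312) (nat_lit 23) (.e (nat_lit 352278) (nat_lit 11) .nil)))) .nil)))) (.nd (nat_lit 5) (.nd (nat_lit 6) 
(.lf (nat_lit 203668) (.g (nat_lit 2696) (.e (nat_lit 73775) (nat_lit 26) (.e (nat_lit 778361) (nat_lit 9) (.e (nat_lit 312) (nat_lit 23) (.e (nat_lit 352277) (nat_lit 11) (.e (nat_lit 426010) (nat_lit 0) (.e (nat_lit 7593) (nat_lit 407) .nil)))))) (.g (nat_lit 0) .nil .nil))) 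
(.lf (nat_lit 203732) (.g (nat_lit 1638) (.e (nat_lit 73775) (nat_lit 26) (.e (nat_lit 778362) (nat_lit 9) (.e (nat_lit 309) (nat_lit 23) (.e (nat_lit 352278) (nat_lit 11) (.e (nat_lit 426035) (nat_lit 0) (.e (nat_lit 7936) (nat_lit 407) .nil)))))) (.g (nat_lit 5) .nil .nil)))) (.nd (nat_lit 6) 
(.lf (nat_lit 203700) (.g (nat_lit 2380) (.e (nat_lit 73775) (nat_lit 26) (.e (nat_lit 778362) (nat_lit 9) (.e (nat_lit 268) (nat_lit 21) (.e (nat_lit 336083) (nat_lit 9) (.e (nat_lit 336421) (nat_lit 28) (.e (nat_lit 442112) (nat_lit 5) .nil)))))) (.g (nat_lit 5) .nil .nil))) 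
(.lf (nat_lit 203764) (.g (nat_lit 1689) (.e (nat_lit 73775) (nat_lit 26) (.e (nat_lit 778362) (nat_lit 9) (.e (nat_lit 314) (nat_lit 23) (.e (nat_lit 352275) (nat_lit 11) (.e (nat_lit 426029) (nat_lit 0) (.e (nat_lit 7936) (nat_lit 407) .nil)))))) (.g (nat_lit 4) .nil .nil)))))) (.nd (nat_lit 4) (.nd (nat_lit 5) (.nd (nat_lit 6) 
(.lf (nat_lit 203660) (.g (nat_lit 1242) (.e (nat_lit 73775) (nat_lit 26) (.e (nat_lit 778361) (nat_lit 9) (.e (nat_lit 309) (nat_lit 23) (.e (nat_lit 352278) (nat_lit 11) (.e (nat_lit 426035) (nat_lit 0) (.e (nat_lit 7936) (nat_lit 407) .nil)))))) (.g (nat_lit 5) .nil .nil))) 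
(.lf (nat_lit 203724) (.g (nat_lit 3394) (.e (nat_lit 73775) (nat_lit 26) (.e (nat_lit 778362) (nat_lit 9) (.e (nat_lit 297) (nat_lit 22) (.e (nat_lit 344133) (nat_lit 26) (.e (nat_lit 557103) (nat_lit 14) (.e (nat_lit 180225) (nat_lit 0) (.e (nat_lit 5823) (nat_lit 320) (.e (nat_lit 1214) (nat_lit 89) .nil)))))))) (.g (nat_lit 4) .nil .nil)))) (.nd (nat_lit 6) 
(.lf (nat_lit 203692) (.g (nat_lit 2642) (.e (nat_lit 73775) (nat_lit 26) (.e (nat_lit 778362) (nat_lit 9) (.e (nat_lit 232) (nat_lit 21) (.e (nat_lit 336212) (nat_lit 13) (.e (nat_lit 393234) (nat_lit 17) .nil))))) .nil)) 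
(.lf (nat_lit 203756) (.g (nat_lit 2286) (.e (nat_lit 73775) (nat_lit 26) (.e (nat_lit 778362) (nat_lit 9) (.e (nat_lit 314) (nat_lit 23) (.e (nat_lit 352273) (nat_lit 11) (.e (nat_lit 426077) (nat_lit 0) (.e (nat_lit 7936) (nat_lit 407) .nil)))))) (.g (nat_lit 4) .nil .nil))))) (.nd (nat_lit 5) (.nd (nat_lit 6) 
(.lf (nat_lit 203676) (.g (nat_lit 1072) (.e (nat_lit 73775) (nat_lit 26) (.e (nat_lit 778361) (nat_lit 9) (.e (nat_lit 314) (nat_lit 23) (.e (nat_lit 360192) (nat_lit 11) .nil)))) .nil)) 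
(.lf (nat_lit 203740) (.g (nat_lit 1830) (.e (nat_lit 73775) (nat_lit 26) (.e (nat_lit 778362) (nat_lit 9) (.e (nat_lit 312) (nat_lit 23) (.e (nat_lit 352271) (nat_lit 9) (.e (nat_lit 409603) (nat_lit 0) (.e (nat_lit 7936) (nat_lit 303) .nil)))))) (.g (nat_lit 5) .nil .nil)))) (.nd (nat_lit 6) 
(.lf (nat_lit 203708) (.g (nat_lit 2565) (.e (nat_lit 73775) (nat_lit 26) (.e (nat_lit 778362) (nat_lit 9) (.e (nat_lit 297) (nat_lit 22) (.e (nat_lit 344119) (nat_lit 21) (.e (nat_lit 516131) (nat_lit 3) (.e (nat_lit 221218) (nat_lit 24) (.e (nat_lit 220928) (nat_lit 5) .nil))))))) (.g (nat_lit 5) .nil .nil))) 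
(.lf (nat_lit 203772) (.g (nat_lit 1670) (.e (nat_lit 73775) (nat_lit 26) (.e (nat_lit 778362) (nat_lit 9) (.e (nat_lit 314) (nat_lit 23) (.e (nat_lit 352275) (nat_lit 11) (.e (nat_lit 426075) (nat_lit 0) (.e (nat_lit 7936) (nat_lit 407) .nil)))))) (.g (nat_lit 4) .nil .nil)))))))) (.nd (nat_lit 2) (.nd (nat_lit 3) (.nd (nat_lit 4) (.nd (nat_lit 5) (.nd (nat_lit 6) 
(.lf (nat_lit 203650) (.g (nat_lit 1267) (.e (nat_lit 73775) (nat_lit 26) (.e (nat_lit 778361) (nat_lit 9) (.e (nat_lit 268) (nat_lit 21) (.e (nat_lit 336219) (nat_lit 13) .nil)))) .nil)) 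
(.lf (nat_lit 203714) (.g (nat_lit 3324) (.e (nat_lit 73775) (nat_lit 26) (.e (nat_lit 778362) (nat_lit 9) (.e (nat_lit 297) (nat_lit 22) (.e (nat_lit 344131) (nat_lit 26) (.e (nat_lit 557105) (nat_lit 14) (.e (nat_lit 180265) (nat_lit 21) (.e (nat_lit 671488) (nat_lit 5) .nil))))))) (.g (nat_lit 5) .nil .nil)))) (.nd (nat_lit 6) 
(.lf (nat_lit 203682) (.g (nat_lit 1000) (.e (nat_lit 73775) (nat_lit 26) (.e (nat_lit 778361) (nat_lit 9) (.e (nat_lit 334) (nat_lit 26) (.e (nat_lit 384768) (nat_lit 9) .nil)))) .nil)) 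
(.lf (nat_lit 203746) (.g (nat_lit 3527) (.e (nat_lit 73775) (nat_lit 26) (.e (nat_lit 778362) (nat_lit 9) (.e (nat_lit 312) (nat_lit 23) (.e (nat_lit 352277) (nat_lit 11) (.e (nat_lit 426012) (nat_lit 0) (.e (nat_lit 7591) (nat_lit 407) .nil)))))) (.g (nat_lit 0) .nil .nil))))) (.nd (nat_lit 5) (.nd (nat_lit 6) 
(.lf (nat_lit 203666) (.g (nat_lit 801) (.e (nat_lit 73775) (nat_lit 26) (.e (nat_lit 778361) (nat_lit 9) (.e (nat_lit 312) (nat_lit 23) (.e (nat_lit 352271) (nat_lit 9) .nil)))) .nil)) 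
(.lf (nat_lit 203730) (.g (nat_lit 422) (.e (nat_lit 73775) (nat_lit 26) (.e (nat_lit 778362) (nat_lit 9) (.e (nat_lit 309) (nat_lit 23) .nil))) .nil))) (.nd (nat_lit 6) 
(.lf (nat_lit 203698) (.g (nat_lit 1926) (.e (nat_lit 73775) (nat_lit 26) (.e (nat_lit 778362) (nat_lit 9) (.e (nat_lit 255) (nat_lit 21) (.e (nat_lit 336088) (nat_lit 9) (.e (nat_lit 336438) (nat_lit 31) (.e (nat_lit 466688) (nat_lit 5) .nil)))))) (.g (nat_lit 4) .nil .nil))) 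
(.lf (nat_lit 203762) (.g (nat_lit 2087) (.e (nat_lit 73775) (nat_lit 26) (.e (nat_lit 778362) (nat_lit 9) (.e (nat_lit 314) (nat_lit 23) (.e (nat_lit 352275) (nat_lit 11) (.e (nat_lit 426016) (nat_lit 0) (.e (nat_lit 7936) (nat_lit 407) .nil)))))) (.g (nat_lit 5) .nil .nil)))))) (.nd (nat_lit 4) (.nd (nat_lit 5) (.nd (nat_lit 6) 
(.lf (nat_lit 203658) (.g (nat_lit 1946) (.e (nat_lit 73775) (nat_lit 26) (.e (nat_lit 778361) (nat_lit 9) (.e (nat_lit 309) (nat_lit 23) (.e (nat_lit 352272) (nat_lit 10) (.e (nat_lit 417796) (nat_lit 0) (.e (nat_lit 5413) (nat_lit 303) .nil)))))) (.g (nat_lit 5) .nil .nil))) 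
(.lf (nat_lit 203722) (.g (nat_lit 3429) (.e (nat_lit 73775) (nat_lit 26) (.e (nat_lit 778362) (nat_lit 9) (.e (nat_lit 297) (nat_lit 22) (.e (nat_lit 344133) (nat_lit 26) (.e (nat_lit 557098) (nat_lit 13) (.e (nat_lit 179968) (nat_lit 4) (.e (nat_lit 229704) (nat_lit 254) (.e (nat_lit 1211) (nat_lit 89) .nil)))))))) (.g (nat_lit 4) .nil .nil)))) (.nd (nat_lit 6) 
(.lf (nat_lit 203690) (.g (nat_lit 3018) (.e (nat_lit 73775) (nat_lit 26) (.e (nat_lit 778362) (nat_lit 9) (.e (nat_lit 232) (nat_lit 21) (.e (nat_lit 336089) (nat_lit 9) (.e (nat_lit 336423) (nat_lit 28) (.e (nat_lit 442112) (nat_lit 5) .nil)))))) (.g (nat_lit 5) .nil .nil))) 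
(.lf (nat_lit 203754) (.g (nat_lit 2433) (.e (nat_lit 73775) (nat_lit 26) (.e (nat_lit 778362) (nat_lit 9) (.e (nat_lit 314) (nat_lit 23) (.e (nat_lit 352273) (nat_lit 11) (.e (nat_lit 426027) (nat_lit 0) (.e (nat_lit 7936) (nat_lit 407) .nil)))))) (.g (nat_lit 4) .nil .nil))))) (.nd (nat_lit 5) (.nd (nat_lit 6) 
(.lf (nat_lit 203674) (.g (nat_lit 1450) (.e (nat_lit 73775) (nat_lit 26) (.e (nat_lit 778361) (nat_lit 9) (.e (nat_lit 314) (nat_lit 23) (.e (nat_lit 352274) (nat_lit 11) .nil)))) .nil)) 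
(.lf (nat_lit 203738) (.g (nat_lit 2462) (.e (nat_lit 73775) (nat_lit 26) (.e (nat_lit 778362) (nat_lit 9) (.e (nat_lit 312) (nat_lit 23) (.e (nat_lit 352271) (nat_lit 9) (.e (nat_lit 409602) (nat_lit 0) (.e (nat_lit 5411) (nat_lit 303) .nil)))))) (.g (nat_lit 0) .nil .nil)))) (.nd (nat_lit 6) 
(.lf (nat_lit 203706) (.g (nat_lit 1760) (.e (nat_lit 73775) (nat_lit 26) (.e (nat_lit 778362) (nat_lit 9) (.e (nat_lit 297) (nat_lit 22) (.e (nat_lit 344118) (nat_lit 21) .nil)))) .nil)) 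
(.lf (nat_lit 203770) (.g (nat_lit 1903) (.e (nat_lit 73775) (nat_lit 26) (.e (nat_lit 778362) (nat_lit 9) (.e (nat_lit 314) (nat_lit 23) (.e (nat_lit 352275) (nat_lit 11) (.e (nat_lit 426054) (nat_lit 0) (.e (nat_lit 7936) (nat_lit 407) .nil)))))) (.g (nat_lit 4) .nil .nil))))))) (.nd (nat_lit 3) (.nd (nat_lit 4) (.nd (nat_lit 5) (.nd (nat_lit 6) 
(.lf (nat_lit 203654) (.g (nat_lit 396) (.e (nat_lit 73775) (nat_lit 26) (.e (nat_lit 778361) (nat_lit 9) (.e (nat_lit 309) (nat_lit 23) .nil))) .nil)) 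
(.lf (nat_lit 203718) (.g (nat_lit 3262) (.e (nat_lit 73775) (nat_lit 26) (.e (nat_lit 778362) (nat_lit 9) (.e (nat_lit 297) (nat_lit 22) (.e (nat_lit 344133) (nat_lit 26) (.e (nat_lit 557098) (nat_lit 13) (.e (nat_lit 172045) (nat_lit 0) (.e (nat_lit 3428) (nat_lit 213) (.e (nat_lit 663568) (nat_lit 5) .nil)))))))) (.g (nat_lit 4) .nil .nil)))) (.nd (nat_lit 6) 
(.lf (nat_lit 203686) (.g (nat_lit 1146) (.e (nat_lit 73775) (nat_lit 26) (.e (nat_lit 778361) (nat_lit 9) (.e (nat_lit 334) (nat_lit 26) (.e (nat_lit 376841) (nat_lit 11) .nil)))) .nil)) 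
(.lf (nat_lit 203750) (.g (nat_lit 1132) (.e (nat_lit 73775) (nat_lit 26) (.e (nat_lit 778362) (nat_lit 9) (.e (nat_lit 314) (nat_lit 23) (.e (nat_lit 352264) (nat_lit 0) .nil)))) .nil)))) (.nd (nat_lit 5) (.nd (nat_lit 6) 
(.lf (nat_lit 203670) (.g (nat_lit 1222) (.e (nat_lit 73775) (nat_lit 26) (.e (nat_lit 778361) (nat_lit 9) (.e (nat_lit 312) (nat_lit 23) (.e (nat_lit 352278) (nat_lit 11) .nil)))) .nil)) 
(.lf (nat_lit 203734) (.g (nat_lit 735) (.e (nat_lit 73775) (nat_lit 26) (.e (nat_lit 778362) (nat_lit 9) (.e (nat_lit 310) (nat_lit 23) (.e (nat_lit 352272) (nat_lit 10) .nil)))) .nil))) (.nd (nat_lit 6) 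
(.lf (nat_lit 203702) (.g (nat_lit 3565) (.e (nat_lit 73775) (nat_lit 26) (.e (nat_lit 778362) (nat_lit 9) (.e (nat_lit 268) (nat_lit 21) (.e (nat_lit 336219) (nat_lit 13) (.e (nat_lit 393234) (nat_lit 17) (.e (nat_lit 7593) (nat_lit 407) .nil)))))) (.g (nat_lit 6) .nil .nil))) 
(.lf (nat_lit 203766) (.g (nat_lit 2056) (.e (nat_lit 73775) (nat_lit 26) (.e (nat_lit 778362) (nat_lit 9) (.e (nat_lit 314) (nat_lit 23) (.e (nat_lit 352275) (nat_lit 11) (.e (nat_lit 426044) (nat_lit 0) (.e (nat_lit 7936) (nat_lit 407) .nil)))))) (.g (nat_lit 5) .nil .nil)))))) (.nd (nat_lit 4) (.nd (nat_lit 5) (.nd (nat_lit 6) 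
(.lf (nat_lit 203662) (.g (nat_lit 769) (.e (nat_lit 73775) (nat_lit 26) (.e (nat_lit 778361) (nat_lit 9) (.e (nat_lit 310) (nat_lit 23) (.e (nat_lit 352276) (nat_lit 11) .nil)))) .nil)) 
(.lf (nat_lit 203726) (.g (nat_lit 2006) (.e (nat_lit 73775) (nat_lit 26) (.e (nat_lit 778362) (nat_lit 9) (.e (nat_lit 297) (nat_lit 22) (.e (nat_lit 344133) (nat_lit 26) (.e (nat_lit 557105) (nat_lit 14) .nil))))) .nil))) (.nd (nat_lit 6) 
(.lf (nat_lit 203694) (.g (nat_lit 2466) (.e (nat_lit 73775) (nat_lit 26) (.e (nat_lit 778362) (nat_lit 9) (.e (nat_lit 232) (nat_lit 21) (.e (nat_lit 336216) (nat_lit 13) (.e (nat_lit 393234) (nat_lit 17) .nil))))) .nil)) 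
(.lf (nat_lit 203758) (.g (nat_lit 1323) (.e (nat_lit 73775) (nat_lit 26) (.e (nat_lit 778362) (nat_lit 9) (.e (nat_lit 314) (nat_lit 23) (.e (nat_lit 352275) (nat_lit 11) (.e (nat_lit 426003) (nat_lit 0) (.e (nat_lit 7936) (nat_lit 407) .nil)))))) (.g (nat_lit 4) .nil .nil))))) (.nd (nat_lit 5) (.nd (nat_lit 6) 
(.lf (nat_lit 203678) (.g (nat_lit 1072) (.e (nat_lit 73775) (nat_lit 26) (.e (nat_lit 778361) (nat_lit 9) (.e (nat_lit 314) (nat_lit 23) (.e (nat_lit 360192) (nat_lit 15) .nil)))) .nil)) 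
(.lf (nat_lit 203742) (.g (nat_lit 1588) (.e (nat_lit 73775) (nat_lit 26) (.e (nat_lit 778362) (nat_lit 9) (.e (nat_lit 312) (nat_lit 23) (.e (nat_lit 352273) (nat_lit 11) .nil)))) .nil))) (.nd (nat_lit 6) 
(.lf (nat_lit 203710) (.g (nat_lit 2136) (.e (nat_lit 73775) (nat_lit 26) (.e (nat_lit 778362) (nat_lit 9) (.e (nat_lit 297) (nat_lit 22) (.e (nat_lit 344127) (nat_lit 26) (.e (nat_lit 557104) (nat_lit 14) .nil))))) .nil)) 
(.lf (nat_lit 203774) (.g (nat_lit 1138) (.e (nat_lit 73775) (nat_lit 26) (.e (nat_lit 778362) (nat_lit 9) (.e (nat_lit 314) (nat_lit 23) (.e (nat_lit 360192) (nat_lit 11) .nil)))) .nil)))))))) (.nd (nat_lit 1) (.nd (nat_lit 2) (.nd (nat_lit 3) (.nd (nat_lit 4) (.nd (nat_lit 5) (.nd (nat_lit 6) 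
(.lf (nat_lit 203649) (.g (nat_lit 616) (.e (nat_lit 73775) (nat_lit 26) (.e (nat_lit 778361) (nat_lit 9) (.e (nat_lit 268) (nat_lit 21) .nil))) .nil)) 
(.lf (nat_lit 203713) (.g (nat_lit 3964) (.e (nat_lit 73775) (nat_lit 26) (.e (nat_lit 778362) (nat_lit 9) (.e (nat_lit 297) (nat_lit 22) (.e (nat_lit 344131) (nat_lit 26) (.e (nat_lit 557105) (nat_lit 14) (.e (nat_lit 180264) (nat_lit 21) (.e (nat_lit 663568) (nat_lit 5) .nil))))))) (.g (nat_lit 5) .nil .nil)))) (.nd (nat_lit 6) 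
(.lf (nat_lit 203681) (.g (nat_lit 616) (.e (nat_lit 73775) (nat_lit 26) (.e (nat_lit 778361) (nat_lit 9) (.e (nat_lit 328) (nat_lit 25) .nil))) .nil)) 
(.lf (nat_lit 203745) (.g (nat_lit 2057) (.e (nat_lit 73775) (nat_lit 26) (.e (nat_lit 778362) (nat_lit 9) (.e (nat_lit 312) (nat_lit 23) (.e (nat_lit 352276) (nat_lit 11) (.e (nat_lit 425989) (nat_lit 0) (.e (nat_lit 7592) (nat_lit 407) .nil)))))) (.g (nat_lit 0) .nil .nil))))) (.nd (nat_lit 5) (.nd (nat_lit 6) 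
(.lf (nat_lit 203665) (.g (nat_lit 421) (.e (nat_lit 73775) (nat_lit 26) (.e (nat_lit 778361) (nat_lit 9) (.e (nat_lit 312) (nat_lit 23) .nil))) .nil)) 
(.lf (nat_lit 203729) (.g (nat_lit 3852) (.e (nat_lit 73775) (nat_lit 26) (.e (nat_lit 778362) (nat_lit 9) (.e (nat_lit 297) (nat_lit 22) (.e (nat_lit 344133) (nat_lit 26) (.e (nat_lit 557105) (nat_lit 14) (.e (nat_lit 180265) (nat_lit 21) (.e (nat_lit 671488) (nat_lit 5) .nil))))))) (.g (nat_lit 6) .nil .nil)))) (.nd (nat_lit 6) 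
(.lf (nat_lit 203697) (.g (nat_lit 415) (.e (nat_lit 73775) (nat_lit 26) (.e (nat_lit 778362) (nat_lit 9) (.e (nat_lit 255) (nat_lit 21) .nil))) .nil)) 
(.lf (nat_lit 203761) (.g (nat_lit 2086) (.e (nat_lit 73775) (nat_lit 26) (.e (nat_lit 778362) (nat_lit 9) (.e (nat_lit 314) (nat_lit 23) (.e (nat_lit 352275) (nat_lit 11) (.e (nat_lit 426015) (nat_lit 0) (.e (nat_lit 7936) (nat_lit 407) .nil)))))) (.g (nat_lit 5) .nil .nil)))))) (.nd (nat_lit 4) (.nd (nat_lit 5) (.nd (nat_lit 6) 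
(.lf (nat_lit 203657) (.g (nat_lit 1793) (.e (nat_lit 73775) (nat_lit 26) (.e (nat_lit 778361) (nat_lit 9) (.e (nat_lit 309) (nat_lit 23) (.e (nat_lit 352272) (nat_lit 10) (.e (nat_lit 417795) (nat_lit 0) (.e (nat_lit 5413) (nat_lit 303) .nil)))))) (.g (nat_lit 5) .nil .nil))) 
(.lf (nat_lit 203721) (.g (nat_lit 3338) (.e (nat_lit 73775) (nat_lit 26) (.e (nat_lit 778362) (nat_lit 9) (.e (nat_lit 297) (nat_lit 22) (.e (nat_lit 344133) (nat_lit 26) (.e (nat_lit 557098) (nat_lit 13) (.e (nat_lit 172061) (nat_lit 1) (.e (nat_lit 164391) (nat_lit 254) (.e (nat_lit 1211) (nat_lit 89) .nil)))))))) (.g (nat_lit 4) .nil .nil)))) (.nd (nat_lit 6) 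
(.lf (nat_lit 203689) (.g (nat_lit 2405) (.e (nat_lit 73775) (nat_lit 26) (.e (nat_lit 778362) (nat_lit 9) (.e (nat_lit 232) (nat_lit 21) (.e (nat_lit 336089) (nat_lit 9) (.e (nat_lit 336414) (nat_lit 27) .nil))))) .nil)) 
(.lf (nat_lit 203753) (.g (nat_lit 1474) (.e (nat_lit 73775) (nat_lit 26) (.e (nat_lit 778362) (nat_lit 9) (.e (nat_lit 314) (nat_lit 23) (.e (nat_lit 352273) (nat_lit 11) .nil)))) .nil)))) (.nd (nat_lit 5) (.nd (nat_lit 6) 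
(.lf (nat_lit 203673) (.g (nat_lit 1799) (.e (nat_lit 73775) (nat_lit 26) (.e (nat_lit 778361) (nat_lit 9) (.e (nat_lit 314) (nat_lit 23) (.e (nat_lit 352273) (nat_lit 11) (.e (nat_lit 426012) (nat_lit 0) .nil))))) .nil)) 
(.lf (nat_lit 203737) (.g (nat_lit 1145) (.e (nat_lit 73775) (nat_lit 26) (.e (nat_lit 778362) (nat_lit 9) (.e (nat_lit 312) (nat_lit 23) (.e (nat_lit 352271) (nat_lit 9) .nil)))) .nil))) (.nd (nat_lit 6) 
(.lf (nat_lit 203705) (.g (nat_lit 1114) (.e (nat_lit 73775) (nat_lit 26) (.e (nat_lit 778362) (nat_lit 9) (.e (nat_lit 293) (nat_lit 21) (.e (nat_lit 336119) (nat_lit 9) (.e (nat_lit 336437) (nat_lit 31) .nil))))) .nil)) 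
(.lf (nat_lit 203769) (.g (nat_lit 1770) (.e (nat_lit 73775) (nat_lit 26) (.e (nat_lit 778362) (nat_lit 9) (.e (nat_lit 314) (nat_lit 23) (.e (nat_lit 352275) (nat_lit 11) (.e (nat_lit 426053) (nat_lit 0) (.e (nat_lit 7936) (nat_lit 407) .nil)))))) (.g (nat_lit 4) .nil .nil))))))) (.nd (nat_lit 3) (.nd (nat_lit 4) (.nd (nat_lit 5) (.nd (nat_lit 6) 
(.lf (nat_lit 203653) (.g (nat_lit 621) (.e (nat_lit 73775) (nat_lit 26) (.e (nat_lit 778361) (nat_lit 9) (.e (nat_lit 297) (nat_lit 22) .nil))) .nil)) 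
(.lf (nat_lit 203717) (.g (nat_lit 3712) (.e (nat_lit 73775) (nat_lit 26) (.e (nat_lit 778362) (nat_lit 9) (.e (nat_lit 297) (nat_lit 22) (.e (nat_lit 344132) (nat_lit 26) (.e (nat_lit 557105) (nat_lit 14) (.e (nat_lit 180265) (nat_lit 21) (.e (nat_lit 671488) (nat_lit 5) .nil))))))) (.g (nat_lit 6) .nil .nil)))) (.nd (nat_lit 6) 
(.lf (nat_lit 203685) (.g (nat_lit 1147) (.e (nat_lit 73775) (nat_lit 26) (.e (nat_lit 778361) (nat_lit 9) (.e (nat_lit 334) (nat_lit 26) (.e (nat_lit 376839) (nat_lit 11) .nil)))) .nil)) 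
(.lf (nat_lit 203749) (.g (nat_lit 390) (.e (nat_lit 73775) (nat_lit 26) (.e (nat_lit 778362) (nat_lit 9) (.e (nat_lit 314) (nat_lit 23) .nil))) .nil)))) (.nd (nat_lit 5) (.nd (nat_lit 6) 
(.lf (nat_lit 203669) (.g (nat_lit 2899) (.e (nat_lit 73775) (nat_lit 26) (.e (nat_lit 778361) (nat_lit 9) (.e (nat_lit 312) (nat_lit 23) (.e (nat_lit 352277) (nat_lit 11) (.e (nat_lit 426012) (nat_lit 0) (.e (nat_lit 7591) (nat_lit 407) .nil)))))) (.g (nat_lit 0) .nil .nil))) 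
(.lf (nat_lit 203733) (.g (nat_lit 411) (.e (nat_lit 73775) (nat_lit 26) (.e (nat_lit 778362) (nat_lit 9) (.e (nat_lit 310) (nat_lit 23) .nil))) .nil))) (.nd (nat_lit 6) 
(.lf (nat_lit 203701) (.g (nat_lit 1691) (.e (nat_lit 73775) (nat_lit 26) (.e (nat_lit 778362) (nat_lit 9) (.e (nat_lit 268) (nat_lit 21) (.e (nat_lit 336219) (nat_lit 13) (.e (nat_lit 393231) (nat_lit 17) .nil))))) .nil)) 
(.lf (nat_lit 203765) (.g (nat_lit 2090) (.e (nat_lit 73775) (nat_lit 26) (.e (nat_lit 778362) (nat_lit 9) (.e (nat_lit 314) (nat_lit 23) (.e (nat_lit 352275) (nat_lit 11) (.e (nat_lit 426030) (nat_lit 0) (.e (nat_lit 7936) (nat_lit 407) .nil)))))) (.g (nat_lit 5) .nil .nil)))))) (.nd (nat_lit 4) (.nd (nat_lit 5) (.nd (nat_lit 6) 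
(.lf (nat_lit 203661) (.g (nat_lit 514) (.e (nat_lit 73775) (nat_lit 26) (.e (nat_lit 778361) (nat_lit 9) (.e (nat_lit 310) (nat_lit 23) .nil))) .nil)) 
(.lf (nat_lit 203725) (.g (nat_lit 4237) (.e (nat_lit 73775) (nat_lit 26) (.e (nat_lit 778362) (nat_lit 9) (.e (nat_lit 297) (nat_lit 22) (.e (nat_lit 344133) (nat_lit 26) (.e (nat_lit 557103) (nat_lit 14) (.e (nat_lit 180229) (nat_lit 0) (.e (nat_lit 5815) (nat_lit 320) (.e (nat_lit 1214) (nat_lit 89) .nil)))))))) (.g (nat_lit 5) .nil .nil)))) (.nd (nat_lit 6) 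
(.lf (nat_lit 203693) (.g (nat_lit 2028) (.e (nat_lit 73775) (nat_lit 26) (.e (nat_lit 778362) (nat_lit 9) (.e (nat_lit 232) (nat_lit 21) (.e (nat_lit 336216) (nat_lit 13) .nil)))) .nil)) 
(.lf (nat_lit 203757) (.g (nat_lit 1275) (.e (nat_lit 73775) (nat_lit 26) (.e (nat_lit 778362) (nat_lit 9) (.e (nat_lit 314) (nat_lit 23) (.e (nat_lit 352275) (nat_lit 11) (.e (nat_lit 426003) (nat_lit 0) .nil))))) .nil)))) (.nd (nat_lit 5) (.nd (nat_lit 6) 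
(.lf (nat_lit 203677) (.g (nat_lit 1072) (.e (nat_lit 73775) (nat_lit 26) (.e (nat_lit 778361) (nat_lit 9) (.e (nat_lit 314) (nat_lit 23) (.e (nat_lit 360192) (nat_lit 12) .nil)))) .nil)) 
(.lf (nat_lit 203741) (.g (nat_lit 2087) (.e (nat_lit 73775) (nat_lit 26) (.e (nat_lit 778362) (nat_lit 9) (.e (nat_lit 312) (nat_lit 23) (.e (nat_lit 352271) (nat_lit 9) (.e (nat_lit 409604) (nat_lit 0) (.e (nat_lit 5411) (nat_lit 303) .nil)))))) (.g (nat_lit 0) .nil .nil)))) (.nd (nat_lit 6) 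
(.lf (nat_lit 203709) (.g (nat_lit 3008) (.e (nat_lit 73775) (nat_lit 26) (.e (nat_lit 778362) (nat_lit 9) (.e (nat_lit 297) (nat_lit 22) (.e (nat_lit 344119) (nat_lit 21) (.e (nat_lit 516131) (nat_lit 3) (.e (nat_lit 221219) (nat_lit 24) (.e (nat_lit 220928) (nat_lit 5) .nil))))))) (.g (nat_lit 6) .nil .nil))) 
(.lf (nat_lit 203773) (.g (nat_lit 2226) (.e (nat_lit 73775) (nat_lit 26) (.e (nat_lit 778362) (nat_lit 9) (.e (nat_lit 314) (nat_lit 23) (.e (nat_lit 352275) (nat_lit 11) (.e (nat_lit 426077) (nat_lit 0) (.e (nat_lit 7936) (nat_lit 407) .nil)))))) (.g (nat_lit 5) .nil .nil)))))))) (.nd (nat_lit 2) (.nd (nat_lit 3) (.nd (nat_lit 4) (.nd (nat_lit 5) (.nd (nat_lit 6) 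
(.lf (nat_lit 203651) (.g (nat_lit 621) (.e (nat_lit 73775) (nat_lit 26) (.e (nat_lit 778361) (nat_lit 9) (.e (nat_lit 276) (nat_lit 21) .nil))) .nil)) 
(.lf (nat_lit 203715) (.g (nat_lit 1490) (.e (nat_lit 73775) (nat_lit 26) (.e (nat_lit 778362) (nat_lit 9) (.e (nat_lit 297) (nat_lit 22) (.e (nat_lit 344132) (nat_lit 26) .nil)))) .nil))) (.nd (nat_lit 6) 
(.lf (nat_lit 203683) (.g (nat_lit 1000) (.e (nat_lit 73775) (nat_lit 26) (.e (nat_lit 778361) (nat_lit 9) (.e (nat_lit 334) (nat_lit 26) (.e (nat_lit 384768) (nat_lit 10) .nil)))) .nil)) 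
(.lf (nat_lit 203747) (.g (nat_lit 1974) (.e (nat_lit 73775) (nat_lit 26) (.e (nat_lit 778362) (nat_lit 9) (.e (nat_lit 312) (nat_lit 23) (.e (nat_lit 352277) (nat_lit 11) (.e (nat_lit 426016) (nat_lit 0) (.e (nat_lit 7936) (nat_lit 407) .nil)))))) (.g (nat_lit 4) .nil .nil))))) (.nd (nat_lit 5) (.nd (nat_lit 6) 
(.lf (nat_lit 203667) (.g (nat_lit 2540) (.e (nat_lit 73775) (nat_lit 26) (.e (nat_lit 778361) (nat_lit 9) (.e (nat_lit 312) (nat_lit 23) (.e (nat_lit 352277) (nat_lit 11) (.e (nat_lit 426009) (nat_lit 0) (.e (nat_lit 7593) (nat_lit 407) .nil)))))) (.g (nat_lit 0) .nil .nil))) 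
(.lf (nat_lit 203731) (.g (nat_lit 693) (.e (nat_lit 73775) (nat_lit 26) (.e (nat_lit 778362) (nat_lit 9) (.e (nat_lit 309) (nat_lit 23) (.e (nat_lit 352257) (nat_lit 0) .nil)))) .nil))) (.nd (nat_lit 6) 
(.lf (nat_lit 203699) (.g (nat_lit 378) (.e (nat_lit 73775) (nat_lit 26) (.e (nat_lit 778362) (nat_lit 9) (.e (nat_lit 268) (nat_lit 21) .nil))) .nil)) 
(.lf (nat_lit 203763) (.g (nat_lit 1992) (.e (nat_lit 73775) (nat_lit 26) (.e (nat_lit 778362) (nat_lit 9) (.e (nat_lit 314) (nat_lit 23) (.e (nat_lit 352275) (nat_lit 11) (.e (nat_lit 426027) (nat_lit 0) (.e (nat_lit 7936) (nat_lit 407) .nil)))))) (.g (nat_lit 5) .nil .nil)))))) (.nd (nat_lit 4) (.nd (nat_lit 5) (.nd (nat_lit 6) 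
(.lf (nat_lit 203659) (.g (nat_lit 562) (.e (nat_lit 73775) (nat_lit 26) (.e (nat_lit 778361) (nat_lit 9) (.e (nat_lit 309) (nat_lit 23) (.e (nat_lit 352276) (nat_lit 11) .nil)))) .nil)) 
(.lf (nat_lit 203723) (.g (nat_lit 2262) (.e (nat_lit 73775) (nat_lit 26) (.e (nat_lit 778362) (nat_lit 9) (.e (nat_lit 297) (nat_lit 22) (.e (nat_lit 344133) (nat_lit 26) (.e (nat_lit 557103) (nat_lit 14) .nil))))) .nil))) (.nd (nat_lit 6) 
(.lf (nat_lit 203691) (.g (nat_lit 1987) (.e (nat_lit 73775) (nat_lit 26) (.e (nat_lit 778362) (nat_lit 9) (.e (nat_lit 232) (nat_lit 21) (.e (nat_lit 336212) (nat_lit 13) .nil)))) .nil)) 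
(.lf (nat_lit 203755) (.g (nat_lit 2555) (.e (nat_lit 73775) (nat_lit 26) (.e (nat_lit 778362) (nat_lit 9) (.e (nat_lit 314) (nat_lit 23) (.e (nat_lit 352273) (nat_lit 11) (.e (nat_lit 426052) (nat_lit 0) (.e (nat_lit 7936) (nat_lit 407) .nil)))))) (.g (nat_lit 5) .nil .nil))))) (.nd (nat_lit 5) (.nd (nat_lit 6) 
(.lf (nat_lit 203675) (.g (nat_lit 1739) (.e (nat_lit 73775) (nat_lit 26) (.e (nat_lit 778361) (nat_lit 9) (.e (nat_lit 314) (nat_lit 23) (.e (nat_lit 352275) (nat_lit 11) (.e (nat_lit 426003) (nat_lit 0) .nil))))) .nil)) 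
(.lf (nat_lit 203739) (.g (nat_lit 2306) (.e (nat_lit 73775) (nat_lit 26) (.e (nat_lit 778362) (nat_lit 9) (.e (nat_lit 312) (nat_lit 23) (.e (nat_lit 352271) (nat_lit 9) (.e (nat_lit 409602) (nat_lit 0) (.e (nat_lit 7936) (nat_lit 303) .nil)))))) (.g (nat_lit 5) .nil .nil)))) (.nd (nat_lit 6) 
(.lf (nat_lit 203707) (.g (nat_lit 1282) (.e (nat_lit 73775) (nat_lit 26) (.e (nat_lit 778362) (nat_lit 9) (.e (nat_lit 297) (nat_lit 22) (.e (nat_lit 344119) (nat_lit 21) .nil)))) .nil)) 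
(.lf (nat_lit 203771) (.g (nat_lit 1840) (.e (nat_lit 73775) (nat_lit 26) (.e (nat_lit 778362) (nat_lit 9) (.e (nat_lit 314) (nat_lit 23) (.e (nat_lit 352275) (nat_lit 11) (.e (nat_lit 426070) (nat_lit 0) (.e (nat_lit 7936) (nat_lit 407) .nil)))))) (.g (nat_lit 4) .nil .nil))))))) (.nd (nat_lit 3) (.nd (nat_lit 4) (.nd (nat_lit 5) (.nd (nat_lit 6) 
(.lf (nat_lit 203655) (.g (nat_lit 562) (.e (nat_lit 73775) (nat_lit 26) (.e (nat_lit 778361) (nat_lit 9) (.e (nat_lit 309) (nat_lit 23) (.e (nat_lit 352257) (nat_lit 0) .nil)))) .nil)) 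
(.lf (nat_lit 203719) (.g (nat_lit 4489) (.e (nat_lit 73775) (nat_lit 26) (.e (nat_lit 778362) (nat_lit 9) (.e (nat_lit 297) (nat_lit 22) (.e (nat_lit 344133) (nat_lit 26) (.e (nat_lit 557098) (nat_lit 13) (.e (nat_lit 172061) (nat_lit 1) (.e (nat_lit 164391) (nat_lit 254) (.e (nat_lit 1209) (nat_lit 89) .nil)))))))) (.g (nat_lit 5) .nil .nil)))) (.nd (nat_lit 6) 
(.lf (nat_lit 203687) (.g (nat_lit 583) (.e (nat_lit 73775) (nat_lit 26) (.e (nat_lit 778361) (nat_lit 9) (.e (nat_lit 336) (nat_lit 26) .nil))) .nil)) 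
(.lf (nat_lit 203751) (.g (nat_lit 2200) (.e (nat_lit 73775) (nat_lit 26) (.e (nat_lit 778362) (nat_lit 9) (.e (nat_lit 314) (nat_lit 23) (.e (nat_lit 352264) (nat_lit 0) (.e (nat_lit 7089) (nat_lit 379) (.e (nat_lit 123214) (nat_lit 275) .nil)))))) (.g (nat_lit 0) .nil .nil))))) (.nd (nat_lit 5) (.nd (nat_lit 6) 
(.lf (nat_lit 203671) (.g (nat_lit 509) (.e (nat_lit 73775) (nat_lit 26) (.e (nat_lit 778361) (nat_lit 9) (.e (nat_lit 314) (nat_lit 23) .nil))) .nil)) 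
(.lf (nat_lit 203735) (.g (nat_lit 402) (.e (nat_lit 73775) (nat_lit 26) (.e (nat_lit 778362) (nat_lit 9) (.e (nat_lit 312) (nat_lit 23) .nil))) .nil))) (.nd (nat_lit 6) 
(.lf (nat_lit 203703) (.g (nat_lit 1946) (.e (nat_lit 73775) (nat_lit 26) (.e (nat_lit 778362) (nat_lit 9) (.e (nat_lit 268) (nat_lit 21) (.e (nat_lit 336224) (nat_lit 13) (.e (nat_lit 393231) (nat_lit 17) .nil))))) .nil)) 
(.lf (nat_lit 203767) (.g (nat_lit 2102) (.e (nat_lit 73775) (nat_lit 26) (.e (nat_lit 778362) (nat_lit 9) (.e (nat_lit 314) (nat_lit 23) (.e (nat_lit 352275) (nat_lit 11) (.e (nat_lit 426051) (nat_lit 0) (.e (nat_lit 7936) (nat_lit 407) .nil)))))) (.g (nat_lit 5) .nil .nil)))))) (.nd (nat_lit 4) (.nd (nat_lit 5) (.nd (nat_lit 6) 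
(.lf (nat_lit 203663) (.g (nat_lit 1815) (.e (nat_lit 73775) (nat_lit 26) (.e (nat_lit 778361) (nat_lit 9) (.e (nat_lit 310) (nat_lit 23) (.e (nat_lit 352277) (nat_lit 11) (.e (nat_lit 426009) (nat_lit 0) (.e (nat_lit 7593) (nat_lit 407) .nil)))))) (.g (nat_lit 4) .nil .nil))) 
(.lf (nat_lit 203727) (.g (nat_lit 4296) (.e (nat_lit 73775) (nat_lit 26) (.e (nat_lit 778362) (nat_lit 9) (.e (nat_lit 297) (nat_lit 22) (.e (nat_lit 344133) (nat_lit 26) (.e (nat_lit 557105) (nat_lit 14) (.e (nat_lit 180227) (nat_lit 0) (.e (nat_lit 5814) (nat_lit 320) (.e (nat_lit 1214) (nat_lit 89) .nil)))))))) (.g (nat_lit 5) .nil .nil)))) (.nd (nat_lit 6) 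
(.lf (nat_lit 203695) (.g (nat_lit 1931) (.e (nat_lit 73775) (nat_lit 26) (.e (nat_lit 778362) (nat_lit 9) (.e (nat_lit 243) (nat_lit 21) (.e (nat_lit 336086) (nat_lit 9) (.e (nat_lit 336421) (nat_lit 28) (.e (nat_lit 442112) (nat_lit 5) .nil)))))) (.g (nat_lit 4) .nil .nil))) 
(.lf (nat_lit 203759) (.g (nat_lit 3727) (.e (nat_lit 73775) (nat_lit 26) (.e (nat_lit 778362) (nat_lit 9) (.e (nat_lit 314) (nat_lit 23) (.e (nat_lit 352275) (nat_lit 11) (.e (nat_lit 426011) (nat_lit 0) (.e (nat_lit 7591) (nat_lit 407) .nil)))))) (.g (nat_lit 0) .nil .nil))))) (.nd (nat_lit 5) (.nd (nat_lit 6) 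
(.lf (nat_lit 203679) (.g (nat_lit 559) (.e (nat_lit 73775) (nat_lit 26) (.e (nat_lit 778361) (nat_lit 9) (.e (nat_lit 315) (nat_lit 23) .nil))) .nil)) 
(.lf (nat_lit 203743) (.g (nat_lit 2105) (.e (nat_lit 73775) (nat_lit 26) (.e (nat_lit 778362) (nat_lit 9) (.e (nat_lit 312) (nat_lit 23) (.e (nat_lit 352276) (nat_lit 11) (.e (nat_lit 425984) (nat_lit 0) (.e (nat_lit 7592) (nat_lit 407) .nil)))))) (.g (nat_lit 0) .nil .nil)))) (.nd (nat_lit 6) 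
(.lf (nat_lit 203711) (.g (nat_lit 1693) (.e (nat_lit 73775) (nat_lit 26) (.e (nat_lit 778362) (nat_lit 9) (.e (nat_lit 297) (nat_lit 22) (.e (nat_lit 344131) (nat_lit 26) .nil)))) .nil)) 
(.lf (nat_lit 203775) (.g (nat_lit 1443) (.e (nat_lit 73775) (nat_lit 26) (.e (nat_lit 778362) (nat_lit 9) (.e (nat_lit 332) (nat_lit 26) (.e (nat_lit 376840) (nat_lit 11) (.e (nat_lit 426072) (nat_lit 0) (.e (nat_lit 7936) (nat_lit 407) .nil)))))) (.g (nat_lit 4) .nil .nil))))))))))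

noncomputable def tv2690 : DT := (.nd (nat_lit 0) (.nd (nat_lit 1) (.nd (nat_lit 2) (.nd (nat_lit 3) (.nd (nat_lit 4) (.nd (nat_lit 5) (.nd (nat_lit 6) 
(.lf (nat_lit 203776) (.g (nat_lit 398) (.e (nat_lit 73775) (nat_lit 26) (.e (nat_lit 778362) (nat_lit 9) (.e (nat_lit 334) (nat_lit 26) .nil))) .nil)) 
(.lf (nat_lit 203840) (.g (nat_lit 1953) (.e (nat_lit 73775) (nat_lit 26) (.e (nat_lit 778465) (nat_lit 11) (.e (nat_lit 24631) (nat_lit 9) (.e (nat_lit 336389) (nat_lit 27) (.e (nat_lit 426010) (nat_lit 0) .nil))))) .nil))) (.nd (nat_lit 6) 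
(.lf (nat_lit 203808) (.g (nat_lit 272) (.e (nat_lit 73775) (nat_lit 26) (.e (nat_lit 778465) (nat_lit 11) (.e (nat_lit 24623) (nat_lit 9) .nil))) .nil)) 
(.lf (nat_lit 203872) (.g (nat_lit 1726) (.e (nat_lit 73775) (nat_lit 26) (.e (nat_lit 778465) (nat_lit 11) (.e (nat_lit 24648) (nat_lit 12) (.e (nat_lit 385038) (nat_lit 16) .nil)))) .nil)))) (.nd (nat_lit 5) (.nd (nat_lit 6) 
(.lf (nat_lit 203792) (.g (nat_lit 839) (.e (nat_lit 73775) (nat_lit 26) (.e (nat_lit 778463) (nat_lit 11) (.e (nat_lit 24660) (nat_lit 13) (.e (nat_lit 393243) (nat_lit 17) (.e (nat_lit 7936) (nat_lit 407) .nil))))) .nil)) 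
(.lf (nat_lit 203856) (.g (nat_lit 1566) (.e (nat_lit 73775) (nat_lit 26) (.e (nat_lit 778465) (nat_lit 11) (.e (nat_lit 24638) (nat_lit 9) (.e (nat_lit 336387) (nat_lit 27) (.e (nat_lit 426024) (nat_lit 0) .nil))))) .nil))) (.nd (nat_lit 6) 
(.lf (nat_lit 203824) (.g (nat_lit 1997) (.e (nat_lit 73775) (nat_lit 26) (.e (nat_lit 778465) (nat_lit 11) (.e (nat_lit 24625) (nat_lit 9) (.e (nat_lit 336439) (nat_lit 31) (.e (nat_lit 466688) (nat_lit 5) .nil))))) .nil)) 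
(.lf (nat_lit 203888) (.g (nat_lit 2515) (.e (nat_lit 73775) (nat_lit 26) (.e (nat_lit 778465) (nat_lit 11) (.e (nat_lit 24658) (nat_lit 13) (.e (nat_lit 393233) (nat_lit 17) (.e (nat_lit 7591) (nat_lit 407) .nil))))) (.g (nat_lit 5) .nil .nil)))))) (.nd (nat_lit 4) (.nd (nat_lit 5) (.nd (nat_lit 6) 
(.lf (nat_lit 203784) (.g (nat_lit 1520) (.e (nat_lit 73775) (nat_lit 26) (.e (nat_lit 778454) (nat_lit 10) (.e (nat_lit 8362) (nat_lit 89) (.e (nat_lit 720956) (nat_lit 25) (.e (nat_lit 114716) (nat_lit 22) (.e (nat_lit 90181) (nat_lit 16) (.e (nat_lit 237312) (nat_lit 192) .nil))))))) (.g (nat_lit 5) .nil .nil))) 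
(.lf (nat_lit 203848) (.g (nat_lit 1188) (.e (nat_lit 73775) (nat_lit 26) (.e (nat_lit 778465) (nat_lit 11) (.e (nat_lit 24631) (nat_lit 9) (.e (nat_lit 336417) (nat_lit 27) (.e (nat_lit 426077) (nat_lit 0) .nil))))) .nil))) (.nd (nat_lit 6) 
(.lf (nat_lit 203816) (.g (nat_lit 1013) (.e (nat_lit 73775) (nat_lit 26) (.e (nat_lit 778465) (nat_lit 11) (.e (nat_lit 24623) (nat_lit 9) (.e (nat_lit 336412) (nat_lit 27) .nil)))) .nil)) 
(.lf (nat_lit 203880) (.g (nat_lit 3051) (.e (nat_lit 73775) (nat_lit 26) (.e (nat_lit 778465) (nat_lit 11) (.e (nat_lit 24655) (nat_lit 13) (.e (nat_lit 393234) (nat_lit 17) (.e (nat_lit 7591) (nat_lit 407) .nil))))) (.g (nat_lit 5) .nil .nil))))) (.nd (nat_lit 5) (.nd (nat_lit 6) 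
(.lf (nat_lit 203800) (.g (nat_lit 1655) (.e (nat_lit 73775) (nat_lit 26) (.e (nat_lit 778464) (nat_lit 11) (.e (nat_lit 24657) (nat_lit 13) (.e (nat_lit 393242) (nat_lit 17) (.e (nat_lit 7936) (nat_lit 407) .nil))))) (.g (nat_lit 4) .nil .nil))) 
(.lf (nat_lit 203864) (.g (nat_lit 1804) (.e (nat_lit 73775) (nat_lit 26) (.e (nat_lit 778465) (nat_lit 11) (.e (nat_lit 24640) (nat_lit 10) (.e (nat_lit 344091) (nat_lit 18) (.e (nat_lit 7265) (nat_lit 384) .nil))))) .nil))) (.nd (nat_lit 6) 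
(.lf (nat_lit 203832) (.g (nat_lit 2001) (.e (nat_lit 73775) (nat_lit 26) (.e (nat_lit 778465) (nat_lit 11) (.e (nat_lit 24628) (nat_lit 9) (.e (nat_lit 343808) (nat_lit 28) .nil)))) .nil)) 
(.lf (nat_lit 203896) (.g (nat_lit 2007) (.e (nat_lit 73775) (nat_lit 26) (.e (nat_lit 778465) (nat_lit 11) (.e (nat_lit 24660) (nat_lit 13) (.e (nat_lit 393242) (nat_lit 17) (.e (nat_lit 7936) (nat_lit 407) .nil))))) (.g (nat_lit 4) .nil .nil))))))) (.nd (nat_lit 3) (.nd (nat_lit 4) (.nd (nat_lit 5) (.nd (nat_lit 6) 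
(.lf (nat_lit 203780) (.g (nat_lit 561) (.e (nat_lit 73775) (nat_lit 26) (.e (nat_lit 778362) (nat_lit 9) (.e (nat_lit 336) (nat_lit 26) (.e (nat_lit 376840) (nat_lit 11) .nil)))) .nil)) 
(.lf (nat_lit 203844) (.g (nat_lit 994) (.e (nat_lit 73775) (nat_lit 26) (.e (nat_lit 778465) (nat_lit 11) (.e (nat_lit 24631) (nat_lit 9) (.e (nat_lit 336410) (nat_lit 27) .nil)))) .nil))) (.nd (nat_lit 6) 
(.lf (nat_lit 203812) (.g (nat_lit 1569) (.e (nat_lit 73775) (nat_lit 26) (.e (nat_lit 778465) (nat_lit 11) (.e (nat_lit 24623) (nat_lit 9) (.e (nat_lit 336364) (nat_lit 26) .nil)))) .nil)) 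
(.lf (nat_lit 203876) (.g (nat_lit 910) (.e (nat_lit 73775) (nat_lit 26) (.e (nat_lit 778465) (nat_lit 11) (.e (nat_lit 24653) (nat_lit 12) .nil))) .nil)))) (.nd (nat_lit 5) (.nd (nat_lit 6) 
(.lf (nat_lit 203796) (.g (nat_lit 2422) (.e (nat_lit 73775) (nat_lit 26) (.e (nat_lit 778464) (nat_lit 11) (.e (nat_lit 24655) (nat_lit 13) (.e (nat_lit 393232) (nat_lit 17) (.e (nat_lit 7591) (nat_lit 407) .nil))))) (.g (nat_lit 4) .nil .nil))) 
(.lf (nat_lit 203860) (.g (nat_lit 2073) (.e (nat_lit 73775) (nat_lit 26) (.e (nat_lit 778465) (nat_lit 11) (.e (nat_lit 24640) (nat_lit 10) (.e (nat_lit 344090) (nat_lit 18) (.e (nat_lit 7261) (nat_lit 384) (.e (nat_lit 57347) (nat_lit 0) (.e (nat_lit 7936) (nat_lit 348) .nil))))))) (.g (nat_lit 4) .nil .nil)))) (.nd (nat_lit 6) 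
(.lf (nat_lit 203828) (.g (nat_lit 1733) (.e (nat_lit 73775) (nat_lit 26) (.e (nat_lit 778465) (nat_lit 11) (.e (nat_lit 24626) (nat_lit 9) (.e (nat_lit 336438) (nat_lit 31) (.e (nat_lit 466688) (nat_lit 5) .nil))))) .nil)) 
(.lf (nat_lit 203892) (.g (nat_lit 1172) (.e (nat_lit 73775) (nat_lit 26) (.e (nat_lit 778465) (nat_lit 11) (.e (nat_lit 24660) (nat_lit 13) (.e (nat_lit 393230) (nat_lit 17) .nil)))) .nil))))) (.nd (nat_lit 4) (.nd (nat_lit 5) (.nd (nat_lit 6) 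
(.lf (nat_lit 203788) (.g (nat_lit 974) (.e (nat_lit 73775) (nat_lit 26) (.e (nat_lit 778463) (nat_lit 11) (.e (nat_lit 24657) (nat_lit 13) (.e (nat_lit 393244) (nat_lit 17) .nil)))) .nil)) 
(.lf (nat_lit 203852) (.g (nat_lit 1903) (.e (nat_lit 73775) (nat_lit 26) (.e (nat_lit 778465) (nat_lit 11) (.e (nat_lit 24635) (nat_lit 9) (.e (nat_lit 336389) (nat_lit 27) (.e (nat_lit 426012) (nat_lit 0) .nil))))) .nil))) (.nd (nat_lit 6) 
(.lf (nat_lit 203820) (.g (nat_lit 1339) (.e (nat_lit 73775) (nat_lit 26) (.e (nat_lit 778465) (nat_lit 11) (.e (nat_lit 24624) (nat_lit 9) (.e (nat_lit 336377) (nat_lit 27) .nil)))) .nil)) 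
(.lf (nat_lit 203884) (.g (nat_lit 1989) (.e (nat_lit 73775) (nat_lit 26) (.e (nat_lit 778465) (nat_lit 11) (.e (nat_lit 24657) (nat_lit 13) (.e (nat_lit 393239) (nat_lit 17) (.e (nat_lit 7936) (nat_lit 407) .nil))))) (.g (nat_lit 4) .nil .nil))))) (.nd (nat_lit 5) (.nd (nat_lit 6) 
(.lf (nat_lit 203804) (.g (nat_lit 966) (.e (nat_lit 73775) (nat_lit 26) (.e (nat_lit 778464) (nat_lit 11) (.e (nat_lit 24665) (nat_lit 14) (.e (nat_lit 409344) (nat_lit 26) .nil)))) .nil)) 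
(.lf (nat_lit 203868) (.g (nat_lit 2190) (.e (nat_lit 73775) (nat_lit 26) (.e (nat_lit 778465) (nat_lit 11) (.e (nat_lit 24640) (nat_lit 10) (.e (nat_lit 344096) (nat_lit 18) (.e (nat_lit 7263) (nat_lit 384) (.e (nat_lit 57354) (nat_lit 0) (.e (nat_lit 7936) (nat_lit 348) .nil))))))) (.g (nat_lit 4) .nil .nil)))) (.nd (nat_lit 6) 
(.lf (nat_lit 203836) (.g (nat_lit 995) (.e (nat_lit 73775) (nat_lit 26) (.e (nat_lit 778465) (nat_lit 11) (.e (nat_lit 24631) (nat_lit 9) (.e (nat_lit 336290) (nat_lit 15) .nil)))) .nil)) 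
(.lf (nat_lit 203900) (.g (nat_lit 1842) (.e (nat_lit 73775) (nat_lit 26) (.e (nat_lit 778465) (nat_lit 11) (.e (nat_lit 24662) (nat_lit 14) (.e (nat_lit 409344) (nat_lit 25) .nil)))) .nil))))))) (.nd (nat_lit 2) (.nd (nat_lit 3) (.nd (nat_lit 4) (.nd (nat_lit 5) (.nd (nat_lit 6) 
(.lf (nat_lit 203778) (.g (nat_lit 1020) (.e (nat_lit 73775) (nat_lit 26) (.e (nat_lit 778362) (nat_lit 9) (.e (nat_lit 334) (nat_lit 26) (.e (nat_lit 376841) (nat_lit 11) .nil)))) .nil)) 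
(.lf (nat_lit 203842) (.g (nat_lit 3952) (.e (nat_lit 73775) (nat_lit 26) (.e (nat_lit 778465) (nat_lit 11) (.e (nat_lit 24631) (nat_lit 9) (.e (nat_lit 336389) (nat_lit 27) (.e (nat_lit 426011) (nat_lit 0) (.e (nat_lit 7593) (nat_lit 407) .nil)))))) (.g (nat_lit 6) .nil .nil)))) (.nd (nat_lit 6) 
(.lf (nat_lit 203810) (.g (nat_lit 1569) (.e (nat_lit 73775) (nat_lit 26) (.e (nat_lit 778465) (nat_lit 11) (.e (nat_lit 24623) (nat_lit 9) (.e (nat_lit 336362) (nat_lit 26) .nil)))) .nil)) 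
(.lf (nat_lit 203874) (.g (nat_lit 609) (.e (nat_lit 73775) (nat_lit 26) (.e (nat_lit 778465) (nat_lit 11) (.e (nat_lit 24650) (nat_lit 12) .nil))) .nil)))) (.nd (nat_lit 5) (.nd (nat_lit 6) 
(.lf (nat_lit 203794) (.g (nat_lit 2102) (.e (nat_lit 73775) (nat_lit 26) (.e (nat_lit 778464) (nat_lit 11) (.e (nat_lit 24654) (nat_lit 13) (.e (nat_lit 393234) (nat_lit 17) (.e (nat_lit 7591) (nat_lit 407) .nil))))) (.g (nat_lit 5) .nil .nil))) 
(.lf (nat_lit 203858) (.g (nat_lit 321) (.e (nat_lit 73775) (nat_lit 26) (.e (nat_lit 778465) (nat_lit 11) (.e (nat_lit 24640) (nat_lit 10) .nil))) .nil))) (.nd (nat_lit 6) 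
(.lf (nat_lit 203826) (.g (nat_lit 1770) (.e (nat_lit 73775) (nat_lit 26) (.e (nat_lit 778465) (nat_lit 11) (.e (nat_lit 24626) (nat_lit 9) (.e (nat_lit 336421) (nat_lit 28) (.e (nat_lit 442112) (nat_lit 5) .nil))))) .nil)) 
(.lf (nat_lit 203890) (.g (nat_lit 1557) (.e (nat_lit 73775) (nat_lit 26) (.e (nat_lit 778465) (nat_lit 11) (.e (nat_lit 24658) (nat_lit 13) (.e (nat_lit 393240) (nat_lit 17) .nil)))) .nil))))) (.nd (nat_lit 4) (.nd (nat_lit 5) (.nd (nat_lit 6) 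
(.lf (nat_lit 203786) (.g (nat_lit 2026) (.e (nat_lit 73775) (nat_lit 26) (.e (nat_lit 778455) (nat_lit 10) (.e (nat_lit 8362) (nat_lit 89) (.e (nat_lit 720956) (nat_lit 25) (.e (nat_lit 114716) (nat_lit 22) (.e (nat_lit 90181) (nat_lit 16) (.e (nat_lit 237312) (nat_lit 192) .nil))))))) (.g (nat_lit 6) .nil .nil))) 
(.lf (nat_lit 203850) (.g (nat_lit 1353) (.e (nat_lit 73775) (nat_lit 26) (.e (nat_lit 778465) (nat_lit 11) (.e (nat_lit 24632) (nat_lit 9) (.e (nat_lit 336363) (nat_lit 26) .nil)))) .nil))) (.nd (nat_lit 6) 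
(.lf (nat_lit 203818) (.g (nat_lit 1954) (.e (nat_lit 73775) (nat_lit 26) (.e (nat_lit 778465) (nat_lit 11) (.e (nat_lit 24623) (nat_lit 9) (.e (nat_lit 336425) (nat_lit 28) (.e (nat_lit 442112) (nat_lit 5) .nil))))) (.g (nat_lit 4) .nil .nil))) 
(.lf (nat_lit 203882) (.g (nat_lit 673) (.e (nat_lit 73775) (nat_lit 26) (.e (nat_lit 778465) (nat_lit 11) (.e (nat_lit 24656) (nat_lit 13) .nil))) .nil)))) (.nd (nat_lit 5) (.nd (nat_lit 6) 
(.lf (nat_lit 203802) (.g (nat_lit 1812) (.e (nat_lit 73775) (nat_lit 26) (.e (nat_lit 778464) (nat_lit 11) (.e (nat_lit 24660) (nat_lit 13) (.e (nat_lit 393232) (nat_lit 17) (.e (nat_lit 7593) (nat_lit 407) .nil))))) (.g (nat_lit 4) .nil .nil))) 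
(.lf (nat_lit 203866) (.g (nat_lit 1174) (.e (nat_lit 73775) (nat_lit 26) (.e (nat_lit 778465) (nat_lit 11) (.e (nat_lit 24640) (nat_lit 10) (.e (nat_lit 344096) (nat_lit 18) .nil)))) .nil))) (.nd (nat_lit 6) 
(.lf (nat_lit 203834) (.g (nat_lit 1212) (.e (nat_lit 73775) (nat_lit 26) (.e (nat_lit 778465) (nat_lit 11) (.e (nat_lit 24630) (nat_lit 9) (.e (nat_lit 336414) (nat_lit 27) .nil)))) .nil)) 
(.lf (nat_lit 203898) (.g (nat_lit 1290) (.e (nat_lit 73775) (nat_lit 26) (.e (nat_lit 778465) (nat_lit 11) (.e (nat_lit 24660) (nat_lit 13) (.e (nat_lit 393247) (nat_lit 17) .nil)))) .nil)))))) (.nd (nat_lit 3) (.nd (nat_lit 4) (.nd (nat_lit 5) (.nd (nat_lit 6) 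
(.lf (nat_lit 203782) (.g (nat_lit 1763) (.e (nat_lit 73775) (nat_lit 26) (.e (nat_lit 778404) (nat_lit 9) (.e (nat_lit 284) (nat_lit 21) (.e (nat_lit 336213) (nat_lit 13) (.e (nat_lit 393233) (nat_lit 17) .nil))))) .nil)) 
(.lf (nat_lit 203846) (.g (nat_lit 997) (.e (nat_lit 73775) (nat_lit 26) (.e (nat_lit 778465) (nat_lit 11) (.e (nat_lit 24631) (nat_lit 9) (.e (nat_lit 336417) (nat_lit 27) .nil)))) .nil))) (.nd (nat_lit 6) 
(.lf (nat_lit 203814) (.g (nat_lit 1569) (.e (nat_lit 73775) (nat_lit 26) (.e (nat_lit 778465) (nat_lit 11) (.e (nat_lit 24623) (nat_lit 9) (.e (nat_lit 336368) (nat_lit 27) .nil)))) .nil)) 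
(.lf (nat_lit 203878) (.g (nat_lit 2660) (.e (nat_lit 73775) (nat_lit 26) (.e (nat_lit 778465) (nat_lit 11) (.e (nat_lit 24654) (nat_lit 13) (.e (nat_lit 393234) (nat_lit 17) (.e (nat_lit 7593) (nat_lit 407) .nil))))) (.g (nat_lit 0) .nil .nil))))) (.nd (nat_lit 5) (.nd (nat_lit 6) 
(.lf (nat_lit 203798) (.g (nat_lit 1508) (.e (nat_lit 73775) (nat_lit 26) (.e (nat_lit 778464) (nat_lit 11) (.e (nat_lit 24655) (nat_lit 13) (.e (nat_lit 393237) (nat_lit 17) .nil)))) .nil)) 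
(.lf (nat_lit 203862) (.g (nat_lit 3199) (.e (nat_lit 73775) (nat_lit 26) (.e (nat_lit 778465) (nat_lit 11) (.e (nat_lit 24640) (nat_lit 10) (.e (nat_lit 344090) (nat_lit 18) (.e (nat_lit 7265) (nat_lit 384) (.e (nat_lit 57347) (nat_lit 0) (.e (nat_lit 7936) (nat_lit 348) .nil))))))) (.g (nat_lit 6) .nil .nil)))) (.nd (nat_lit 6) 
(.lf (nat_lit 203830) (.g (nat_lit 547) (.e (nat_lit 73775) (nat_lit 26) (.e (nat_lit 778465) (nat_lit 11) (.e (nat_lit 24628) (nat_lit 9) .nil))) .nil)) 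
(.lf (nat_lit 203894) (.g (nat_lit 1384) (.e (nat_lit 73775) (nat_lit 26) (.e (nat_lit 778465) (nat_lit 11) (.e (nat_lit 24660) (nat_lit 13) (.e (nat_lit 393235) (nat_lit 17) (.e (nat_lit 7936) (nat_lit 407) .nil))))) .nil))))) (.nd (nat_lit 4) (.nd (nat_lit 5) (.nd (nat_lit 6) 
(.lf (nat_lit 203790) (.g (nat_lit 1975) (.e (nat_lit 73775) (nat_lit 26) (.e (nat_lit 778463) (nat_lit 11) (.e (nat_lit 24660) (nat_lit 13) (.e (nat_lit 393232) (nat_lit 17) (.e (nat_lit 7593) (nat_lit 407) .nil))))) (.g (nat_lit 5) .nil .nil))) 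
(.lf (nat_lit 203854) (.g (nat_lit 903) (.e (nat_lit 73775) (nat_lit 26) (.e (nat_lit 778465) (nat_lit 11) (.e (nat_lit 24636) (nat_lit 9) (.e (nat_lit 336361) (nat_lit 26) .nil)))) .nil))) (.nd (nat_lit 6) 
(.lf (nat_lit 203822) (.g (nat_lit 1925) (.e (nat_lit 73775) (nat_lit 26) (.e (nat_lit 778465) (nat_lit 11) (.e (nat_lit 24625) (nat_lit 9) (.e (nat_lit 336367) (nat_lit 27) .nil)))) .nil)) 
(.lf (nat_lit 203886) (.g (nat_lit 2040) (.e (nat_lit 73775) (nat_lit 26) (.e (nat_lit 778465) (nat_lit 11) (.e (nat_lit 24658) (nat_lit 13) (.e (nat_lit 393232) (nat_lit 17) (.e (nat_lit 7591) (nat_lit 407) .nil))))) .nil)))) (.nd (nat_lit 5) (.nd (nat_lit 6) 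
(.lf (nat_lit 203806) (.g (nat_lit 1217) (.e (nat_lit 73775) (nat_lit 26) (.e (nat_lit 778465) (nat_lit 11) (.e (nat_lit 24580) (nat_lit 0) (.e (nat_lit 6508) (nat_lit 345) .nil)))) .nil)) 
(.lf (nat_lit 203870) (.g (nat_lit 2454) (.e (nat_lit 73775) (nat_lit 26) (.e (nat_lit 778465) (nat_lit 11) (.e (nat_lit 24640) (nat_lit 10) (.e (nat_lit 344096) (nat_lit 18) (.e (nat_lit 7265) (nat_lit 384) (.e (nat_lit 57354) (nat_lit 0) (.e (nat_lit 7936) (nat_lit 348) .nil))))))) (.g (nat_lit 5) .nil .nil)))) (.nd (nat_lit 6) 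
(.lf (nat_lit 203838) (.g (nat_lit 1750) (.e (nat_lit 73775) (nat_lit 26) (.e (nat_lit 778465) (nat_lit 11) (.e (nat_lit 24631) (nat_lit 9) (.e (nat_lit 336363) (nat_lit 26) (.e (nat_lit 417796) (nat_lit 0) (.e (nat_lit 5413) (nat_lit 303) .nil)))))) (.g (nat_lit 5) .nil .nil))) 
(.lf (nat_lit 203902) (.g (nat_lit 964) (.e (nat_lit 73775) (nat_lit 26) (.e (nat_lit 778465) (nat_lit 11) (.e (nat_lit 24664) (nat_lit 14) .nil))) .nil)))))))) (.nd (nat_lit 1) (.nd (nat_lit 2) (.nd (nat_lit 3) (.nd (nat_lit 4) (.nd (nat_lit 5) (.nd (nat_lit 6) 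
(.lf (nat_lit 203777) (.g (nat_lit 906) (.e (nat_lit 73775) (nat_lit 26) (.e (nat_lit 778362) (nat_lit 9) (.e (nat_lit 334) (nat_lit 26) (.e (nat_lit 384768) (nat_lit 10) .nil)))) .nil)) 
(.lf (nat_lit 203841) (.g (nat_lit 3504) (.e (nat_lit 73775) (nat_lit 26) (.e (nat_lit 778465) (nat_lit 11) (.e (nat_lit 24631) (nat_lit 9) (.e (nat_lit 336389) (nat_lit 27) (.e (nat_lit 426011) (nat_lit 0) (.e (nat_lit 7591) (nat_lit 407) .nil)))))) (.g (nat_lit 6) .nil .nil)))) (.nd (nat_lit 6) 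
(.lf (nat_lit 203809) (.g (nat_lit 1569) (.e (nat_lit 73775) (nat_lit 26) (.e (nat_lit 778465) (nat_lit 11) (.e (nat_lit 24623) (nat_lit 9) (.e (nat_lit 336358) (nat_lit 25) .nil)))) .nil)) 
(.lf (nat_lit 203873) (.g (nat_lit 961) (.e (nat_lit 73775) (nat_lit 26) (.e (nat_lit 778465) (nat_lit 11) (.e (nat_lit 24649) (nat_lit 12) .nil))) .nil)))) (.nd (nat_lit 5) (.nd (nat_lit 6) 
(.lf (nat_lit 203793) (.g (nat_lit 1510) (.e (nat_lit 73775) (nat_lit 26) (.e (nat_lit 778464) (nat_lit 11) (.e (nat_lit 24625) (nat_lit 9) (.e (nat_lit 336367) (nat_lit 27) .nil)))) .nil)) 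
(.lf (nat_lit 203857) (.g (nat_lit 1174) (.e (nat_lit 73775) (nat_lit 26) (.e (nat_lit 778465) (nat_lit 11) (.e (nat_lit 24638) (nat_lit 9) (.e (nat_lit 343808) (nat_lit 28) .nil)))) .nil))) (.nd (nat_lit 6) 
(.lf (nat_lit 203825) (.g (nat_lit 720) (.e (nat_lit 73775) (nat_lit 26) (.e (nat_lit 778465) (nat_lit 11) (.e (nat_lit 24626) (nat_lit 9) .nil))) .nil)) 
(.lf (nat_lit 203889) (.g (nat_lit 2441) (.e (nat_lit 73775) (nat_lit 26) (.e (nat_lit 778465) (nat_lit 11) (.e (nat_lit 24658) (nat_lit 13) (.e (nat_lit 393233) (nat_lit 17) (.e (nat_lit 7593) (nat_lit 407) .nil))))) (.g (nat_lit 5) .nil .nil)))))) (.nd (nat_lit 4) (.nd (nat_lit 5) (.nd (nat_lit 6) 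
(.lf (nat_lit 203785) (.g (nat_lit 1776) (.e (nat_lit 73775) (nat_lit 26) (.e (nat_lit 778454) (nat_lit 10) (.e (nat_lit 8363) (nat_lit 89) (.e (nat_lit 720956) (nat_lit 25) (.e (nat_lit 114716) (nat_lit 22) (.e (nat_lit 90181) (nat_lit 16) (.e (nat_lit 237312) (nat_lit 192) .nil))))))) (.g (nat_lit 6) .nil .nil))) 
(.lf (nat_lit 203849) (.g (nat_lit 668) (.e (nat_lit 73775) (nat_lit 26) (.e (nat_lit 778465) (nat_lit 11) (.e (nat_lit 24632) (nat_lit 9) .nil))) .nil))) (.nd (nat_lit 6) 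
(.lf (nat_lit 203817) (.g (nat_lit 1863) (.e (nat_lit 73775) (nat_lit 26) (.e (nat_lit 778465) (nat_lit 11) (.e (nat_lit 24623) (nat_lit 9) (.e (nat_lit 336412) (nat_lit 27) (.e (nat_lit 426012) (nat_lit 0) .nil))))) .nil)) 
(.lf (nat_lit 203881) (.g (nat_lit 1563) (.e (nat_lit 73775) (nat_lit 26) (.e (nat_lit 778465) (nat_lit 11) (.e (nat_lit 24655) (nat_lit 13) (.e (nat_lit 393249) (nat_lit 17) (.e (nat_lit 7936) (nat_lit 407) .nil))))) (.g (nat_lit 4) .nil .nil))))) (.nd (nat_lit 5) (.nd (nat_lit 6) 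
(.lf (nat_lit 203801) (.g (nat_lit 1340) (.e (nat_lit 73775) (nat_lit 26) (.e (nat_lit 778464) (nat_lit 11) (.e (nat_lit 24657) (nat_lit 13) (.e (nat_lit 393248) (nat_lit 17) .nil)))) .nil)) 
(.lf (nat_lit 203865) (.g (nat_lit 1757) (.e (nat_lit 73775) (nat_lit 26) (.e (nat_lit 778465) (nat_lit 11) (.e (nat_lit 24640) (nat_lit 10) (.e (nat_lit 344095) (nat_lit 18) (.e (nat_lit 7263) (nat_lit 384) (.e (nat_lit 57354) (nat_lit 0) (.e (nat_lit 7936) (nat_lit 348) .nil))))))) (.g (nat_lit 4) .nil .nil)))) (.nd (nat_lit 6) 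
(.lf (nat_lit 203833) (.g (nat_lit 1879) (.e (nat_lit 73775) (nat_lit 26) (.e (nat_lit 778465) (nat_lit 11) (.e (nat_lit 24628) (nat_lit 9) (.e (nat_lit 336438) (nat_lit 31) (.e (nat_lit 466688) (nat_lit 5) .nil))))) .nil)) 
(.lf (nat_lit 203897) (.g (nat_lit 1878) (.e (nat_lit 73775) (nat_lit 26) (.e (nat_lit 778465) (nat_lit 11) (.e (nat_lit 24660) (nat_lit 13) (.e (nat_lit 393243) (nat_lit 17) (.e (nat_lit 7936) (nat_lit 407) .nil))))) (.g (nat_lit 4) .nil .nil))))))) (.nd (nat_lit 3) (.nd (nat_lit 4) (.nd (nat_lit 5) (.nd (nat_lit 6) 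
(.lf (nat_lit 203781) (.g (nat_lit 1744) (.e (nat_lit 73775) (nat_lit 26) (.e (nat_lit 778362) (nat_lit 9) (.e (nat_lit 336) (nat_lit 26) (.e (nat_lit 376842) (nat_lit 11) (.e (nat_lit 426009) (nat_lit 0) .nil))))) .nil)) 
(.lf (nat_lit 203845) (.g (nat_lit 1335) (.e (nat_lit 73775) (nat_lit 26) (.e (nat_lit 778465) (nat_lit 11) (.e (nat_lit 24631) (nat_lit 9) (.e (nat_lit 336412) (nat_lit 27) (.e (nat_lit 426012) (nat_lit 0) .nil))))) .nil))) (.nd (nat_lit 6) 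
(.lf (nat_lit 203813) (.g (nat_lit 1237) (.e (nat_lit 73775) (nat_lit 26) (.e (nat_lit 778465) (nat_lit 11) (.e (nat_lit 24623) (nat_lit 9) (.e (nat_lit 343808) (nat_lit 26) .nil)))) .nil)) 
(.lf (nat_lit 203877) (.g (nat_lit 2598) (.e (nat_lit 73775) (nat_lit 26) (.e (nat_lit 778465) (nat_lit 11) (.e (nat_lit 24654) (nat_lit 13) (.e (nat_lit 393232) (nat_lit 17) (.e (nat_lit 7591) (nat_lit 407) .nil))))) (.g (nat_lit 5) .nil .nil))))) (.nd (nat_lit 5) (.nd (nat_lit 6) 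
(.lf (nat_lit 203797) (.g (nat_lit 2368) (.e (nat_lit 73775) (nat_lit 26) (.e (nat_lit 778464) (nat_lit 11) (.e (nat_lit 24655) (nat_lit 13) (.e (nat_lit 393233) (nat_lit 17) (.e (nat_lit 7591) (nat_lit 407) .nil))))) (.g (nat_lit 5) .nil .nil))) 
(.lf (nat_lit 203861) (.g (nat_lit 2026) (.e (nat_lit 73775) (nat_lit 26) (.e (nat_lit 778465) (nat_lit 11) (.e (nat_lit 24640) (nat_lit 10) (.e (nat_lit 344090) (nat_lit 18) (.e (nat_lit 7263) (nat_lit 384) (.e (nat_lit 57354) (nat_lit 0) (.e (nat_lit 7936) (nat_lit 348) .nil))))))) (.g (nat_lit 4) .nil .nil)))) (.nd (nat_lit 6) 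
(.lf (nat_lit 203829) (.g (nat_lit 1388) (.e (nat_lit 73775) (nat_lit 26) (.e (nat_lit 778465) (nat_lit 11) (.e (nat_lit 24626) (nat_lit 9) (.e (nat_lit 336439) (nat_lit 31) .nil)))) .nil)) 
(.lf (nat_lit 203893) (.g (nat_lit 2546) (.e (nat_lit 73775) (nat_lit 26) (.e (nat_lit 778465) (nat_lit 11) (.e (nat_lit 24660) (nat_lit 13) (.e (nat_lit 393232) (nat_lit 17) (.e (nat_lit 7593) (nat_lit 407) .nil))))) (.g (nat_lit 5) .nil .nil)))))) (.nd (nat_lit 4) (.nd (nat_lit 5) (.nd (nat_lit 6) 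
(.lf (nat_lit 203789) (.g (nat_lit 691) (.e (nat_lit 73775) (nat_lit 26) (.e (nat_lit 778463) (nat_lit 11) (.e (nat_lit 24660) (nat_lit 13) (.e (nat_lit 393230) (nat_lit 17) .nil)))) .nil)) 
(.lf (nat_lit 203853) (.g (nat_lit 431) (.e (nat_lit 73775) (nat_lit 26) (.e (nat_lit 778465) (nat_lit 11) (.e (nat_lit 24636) (nat_lit 9) .nil))) .nil))) (.nd (nat_lit 6) 
(.lf (nat_lit 203821) (.g (nat_lit 1825) (.e (nat_lit 73775) (nat_lit 26) (.e (nat_lit 778465) (nat_lit 11) (.e (nat_lit 24625) (nat_lit 9) (.e (nat_lit 336365) (nat_lit 26) .nil)))) .nil)) 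
(.lf (nat_lit 203885) (.g (nat_lit 2131) (.e (nat_lit 73775) (nat_lit 26) (.e (nat_lit 778465) (nat_lit 11) (.e (nat_lit 24657) (nat_lit 13) (.e (nat_lit 393242) (nat_lit 17) (.e (nat_lit 7936) (nat_lit 407) .nil))))) (.g (nat_lit 4) .nil .nil))))) (.nd (nat_lit 5) (.nd (nat_lit 6) 
(.lf (nat_lit 203805) (.g (nat_lit 943) (.e (nat_lit 73775) (nat_lit 26) (.e (nat_lit 778465) (nat_lit 11) (.e (nat_lit 24579) (nat_lit 0) .nil))) .nil)) 
(.lf (nat_lit 203869) (.g (nat_lit 3498) (.e (nat_lit 73775) (nat_lit 26) (.e (nat_lit 778465) (nat_lit 11) (.e (nat_lit 24640) (nat_lit 10) (.e (nat_lit 344096) (nat_lit 18) (.e (nat_lit 7265) (nat_lit 384) (.e (nat_lit 57347) (nat_lit 0) (.e (nat_lit 7936) (nat_lit 348) .nil))))))) (.g (nat_lit 6) .nil .nil)))) (.nd (nat_lit 6) 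
(.lf (nat_lit 203837) (.g (nat_lit 1889) (.e (nat_lit 73775) (nat_lit 26) (.e (nat_lit 778465) (nat_lit 11) (.e (nat_lit 24631) (nat_lit 9) (.e (nat_lit 336363) (nat_lit 26) (.e (nat_lit 417796) (nat_lit 0) (.e (nat_lit 5412) (nat_lit 303) .nil)))))) (.g (nat_lit 5) .nil .nil))) 
(.lf (nat_lit 203901) (.g (nat_lit 1842) (.e (nat_lit 73775) (nat_lit 26) (.e (nat_lit 778465) (nat_lit 11) (.e (nat_lit 24662) (nat_lit 14) (.e (nat_lit 409344) (nat_lit 26) .nil)))) .nil))))))) (.nd (nat_lit 2) (.nd (nat_lit 3) (.nd (nat_lit 4) (.nd (nat_lit 5) (.nd (nat_lit 6) 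
(.lf (nat_lit 203779) (.g (nat_lit 415) (.e (nat_lit 73775) (nat_lit 26) (.e (nat_lit 778362) (nat_lit 9) (.e (nat_lit 336) (nat_lit 26) .nil))) .nil)) 
(.lf (nat_lit 203843) (.g (nat_lit 3467) (.e (nat_lit 73775) (nat_lit 26) (.e (nat_lit 778465) (nat_lit 11) (.e (nat_lit 24631) (nat_lit 9) (.e (nat_lit 336389) (nat_lit 27) (.e (nat_lit 426012) (nat_lit 0) (.e (nat_lit 7591) (nat_lit 407) .nil)))))) (.g (nat_lit 6) .nil .nil)))) (.nd (nat_lit 6) 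
(.lf (nat_lit 203811) (.g (nat_lit 1569) (.e (nat_lit 73775) (nat_lit 26) (.e (nat_lit 778465) (nat_lit 11) (.e (nat_lit 24623) (nat_lit 9) (.e (nat_lit 336363) (nat_lit 26) .nil)))) .nil)) 
(.lf (nat_lit 203875) (.g (nat_lit 1905) (.e (nat_lit 73775) (nat_lit 26) (.e (nat_lit 778465) (nat_lit 11) (.e (nat_lit 24651) (nat_lit 12) (.e (nat_lit 385038) (nat_lit 16) (.e (nat_lit 1011) (nat_lit 81) .nil))))) .nil)))) (.nd (nat_lit 5) (.nd (nat_lit 6) 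
(.lf (nat_lit 203795) (.g (nat_lit 2082) (.e (nat_lit 73775) (nat_lit 26) (.e (nat_lit 778464) (nat_lit 11) (.e (nat_lit 24654) (nat_lit 13) (.e (nat_lit 393234) (nat_lit 17) (.e (nat_lit 7593) (nat_lit 407) .nil))))) (.g (nat_lit 5) .nil .nil))) 
(.lf (nat_lit 203859) (.g (nat_lit 1004) (.e (nat_lit 73775) (nat_lit 26) (.e (nat_lit 778465) (nat_lit 11) (.e (nat_lit 24640) (nat_lit 10) (.e (nat_lit 344088) (nat_lit 18) .nil)))) .nil))) (.nd (nat_lit 6) 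
(.lf (nat_lit 203827) (.g (nat_lit 1387) (.e (nat_lit 73775) (nat_lit 26) (.e (nat_lit 778465) (nat_lit 11) (.e (nat_lit 24626) (nat_lit 9) (.e (nat_lit 336423) (nat_lit 28) .nil)))) .nil)) 
(.lf (nat_lit 203891) (.g (nat_lit 399) (.e (nat_lit 73775) (nat_lit 26) (.e (nat_lit 778465) (nat_lit 11) (.e (nat_lit 24659) (nat_lit 13) .nil))) .nil))))) (.nd (nat_lit 4) (.nd (nat_lit 5) (.nd (nat_lit 6) 
(.lf (nat_lit 203787) (.g (nat_lit 1663) (.e (nat_lit 73775) (nat_lit 26) (.e (nat_lit 778455) (nat_lit 10) (.e (nat_lit 8363) (nat_lit 89) (.e (nat_lit 720956) (nat_lit 25) (.e (nat_lit 114716) (nat_lit 22) (.e (nat_lit 90181) (nat_lit 16) (.e (nat_lit 237312) (nat_lit 192) .nil))))))) (.g (nat_lit 6) .nil .nil))) 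
(.lf (nat_lit 203851) (.g (nat_lit 2343) (.e (nat_lit 73775) (nat_lit 26) (.e (nat_lit 778465) (nat_lit 11) (.e (nat_lit 24634) (nat_lit 9) (.e (nat_lit 336389) (nat_lit 27) (.e (nat_lit 426012) (nat_lit 0) (.e (nat_lit 7593) (nat_lit 407) .nil)))))) (.g (nat_lit 4) .nil .nil)))) (.nd (nat_lit 6) 
(.lf (nat_lit 203819) (.g (nat_lit 964) (.e (nat_lit 73775) (nat_lit 26) (.e (nat_lit 778465) (nat_lit 11) (.e (nat_lit 24624) (nat_lit 9) .nil))) .nil)) 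
(.lf (nat_lit 203883) (.g (nat_lit 1165) (.e (nat_lit 73775) (nat_lit 26) (.e (nat_lit 778465) (nat_lit 11) (.e (nat_lit 24656) (nat_lit 13) (.e (nat_lit 401152) (nat_lit 17) .nil)))) .nil)))) (.nd (nat_lit 5) (.nd (nat_lit 6) 
(.lf (nat_lit 203803) (.g (nat_lit 1315) (.e (nat_lit 73775) (nat_lit 26) (.e (nat_lit 778464) (nat_lit 11) (.e (nat_lit 24660) (nat_lit 13) (.e (nat_lit 393238) (nat_lit 17) (.e (nat_lit 7936) (nat_lit 407) .nil))))) (.g (nat_lit 4) .nil .nil))) 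
(.lf (nat_lit 203867) (.g (nat_lit 1968) (.e (nat_lit 73775) (nat_lit 26) (.e (nat_lit 778465) (nat_lit 11) (.e (nat_lit 24640) (nat_lit 10) (.e (nat_lit 344096) (nat_lit 18) (.e (nat_lit 7261) (nat_lit 384) (.e (nat_lit 57347) (nat_lit 0) (.e (nat_lit 7936) (nat_lit 348) .nil))))))) (.g (nat_lit 4) .nil .nil)))) (.nd (nat_lit 6) 
(.lf (nat_lit 203835) (.g (nat_lit 273) (.e (nat_lit 73775) (nat_lit 26) (.e (nat_lit 778465) (nat_lit 11) (.e (nat_lit 24631) (nat_lit 9) .nil))) .nil)) 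
(.lf (nat_lit 203899) (.g (nat_lit 964) (.e (nat_lit 73775) (nat_lit 26) (.e (nat_lit 778465) (nat_lit 11) (.e (nat_lit 24662) (nat_lit 14) .nil))) .nil)))))) (.nd (nat_lit 3) (.nd (nat_lit 4) (.nd (nat_lit 5) (.nd (nat_lit 6) 
(.lf (nat_lit 203783) (.g (nat_lit 1531) (.e (nat_lit 73775) (nat_lit 26) (.e (nat_lit 778404) (nat_lit 9) (.e (nat_lit 284) (nat_lit 21) (.e (nat_lit 336223) (nat_lit 13) (.e (nat_lit 393234) (nat_lit 17) .nil))))) .nil)) 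
(.lf (nat_lit 203847) (.g (nat_lit 1854) (.e (nat_lit 73775) (nat_lit 26) (.e (nat_lit 778465) (nat_lit 11) (.e (nat_lit 24631) (nat_lit 9) (.e (nat_lit 336417) (nat_lit 27) (.e (nat_lit 426035) (nat_lit 0) (.e (nat_lit 7936) (nat_lit 407) .nil)))))) (.g (nat_lit 5) .nil .nil)))) (.nd (nat_lit 6) 
(.lf (nat_lit 203815) (.g (nat_lit 2278) (.e (nat_lit 73775) (nat_lit 26) (.e (nat_lit 778465) (nat_lit 11) (.e (nat_lit 24623) (nat_lit 9) (.e (nat_lit 336379) (nat_lit 27) (.e (nat_lit 426086) (nat_lit 0) (.e (nat_lit 7936) (nat_lit 407) .nil)))))) (.g (nat_lit 4) .nil .nil))) 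
(.lf (nat_lit 203879) (.g (nat_lit 2995) (.e (nat_lit 73775) (nat_lit 26) (.e (nat_lit 778465) (nat_lit 11) (.e (nat_lit 24655) (nat_lit 13) (.e (nat_lit 393233) (nat_lit 17) (.e (nat_lit 7591) (nat_lit 407) .nil))))) (.g (nat_lit 5) .nil .nil))))) (.nd (nat_lit 5) (.nd (nat_lit 6) 
(.lf (nat_lit 203799) (.g (nat_lit 1459) (.e (nat_lit 73775) (nat_lit 26) (.e (nat_lit 778464) (nat_lit 11) (.e (nat_lit 24655) (nat_lit 13) (.e (nat_lit 393241) (nat_lit 17) (.e (nat_lit 7936) (nat_lit 407) .nil))))) .nil)) 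
(.lf (nat_lit 203863) (.g (nat_lit 2377) (.e (nat_lit 73775) (nat_lit 26) (.e (nat_lit 778465) (nat_lit 11) (.e (nat_lit 24640) (nat_lit 10) (.e (nat_lit 344090) (nat_lit 18) (.e (nat_lit 7265) (nat_lit 384) (.e (nat_lit 57354) (nat_lit 0) (.e (nat_lit 7936) (nat_lit 348) .nil))))))) (.g (nat_lit 5) .nil .nil)))) (.nd (nat_lit 6) 
(.lf (nat_lit 203831) (.g (nat_lit 2030) (.e (nat_lit 73775) (nat_lit 26) (.e (nat_lit 778465) (nat_lit 11) (.e (nat_lit 24628) (nat_lit 9) (.e (nat_lit 336423) (nat_lit 28) .nil)))) .nil)) 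
(.lf (nat_lit 203895) (.g (nat_lit 2100) (.e (nat_lit 73775) (nat_lit 26) (.e (nat_lit 778465) (nat_lit 11) (.e (nat_lit 24660) (nat_lit 13) (.e (nat_lit 393238) (nat_lit 17) (.e (nat_lit 7936) (nat_lit 407) .nil))))) (.g (nat_lit 4) .nil .nil)))))) (.nd (nat_lit 4) (.nd (nat_lit 5) (.nd (nat_lit 6) 
(.lf (nat_lit 203791) (.g (nat_lit 1504) (.e (nat_lit 73775) (nat_lit 26) (.e (nat_lit 778463) (nat_lit 11) (.e (nat_lit 24660) (nat_lit 13) (.e (nat_lit 393238) (nat_lit 17) (.e (nat_lit 7936) (nat_lit 407) .nil))))) (.g (nat_lit 4) .nil .nil))) 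
(.lf (nat_lit 203855) (.g (nat_lit 1120) (.e (nat_lit 73775) (nat_lit 26) (.e (nat_lit 778465) (nat_lit 11) (.e (nat_lit 24638) (nat_lit 9) (.e (nat_lit 336387) (nat_lit 27) .nil)))) .nil))) (.nd (nat_lit 6) 
(.lf (nat_lit 203823) (.g (nat_lit 1836) (.e (nat_lit 73775) (nat_lit 26) (.e (nat_lit 778465) (nat_lit 11) (.e (nat_lit 24625) (nat_lit 9) (.e (nat_lit 336436) (nat_lit 31) .nil)))) .nil)) 
(.lf (nat_lit 203887) (.g (nat_lit 2048) (.e (nat_lit 73775) (nat_lit 26) (.e (nat_lit 778465) (nat_lit 11) (.e (nat_lit 24658) (nat_lit 13) (.e (nat_lit 393232) (nat_lit 17) (.e (nat_lit 7593) (nat_lit 407) .nil))))) .nil)))) (.nd (nat_lit 5) (.nd (nat_lit 6) 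
(.lf (nat_lit 203807) (.g (nat_lit 965) (.e (nat_lit 73775) (nat_lit 26) (.e (nat_lit 778465) (nat_lit 11) (.e (nat_lit 24591) (nat_lit 0) .nil))) .nil)) 
(.lf (nat_lit 203871) (.g (nat_lit 877) (.e (nat_lit 73775) (nat_lit 26) (.e (nat_lit 778465) (nat_lit 11) (.e (nat_lit 24648) (nat_lit 12) .nil))) .nil))) (.nd (nat_lit 6) 
(.lf (nat_lit 203839) (.g (nat_lit 987) (.e (nat_lit 73775) (nat_lit 26) (.e (nat_lit 778465) (nat_lit 11) (.e (nat_lit 24631) (nat_lit 9) (.e (nat_lit 336388) (nat_lit 27) .nil)))) .nil)) 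
(.lf (nat_lit 203903) (.g (nat_lit 477) (.e (nat_lit 73775) (nat_lit 26) (.e (nat_lit 778465) (nat_lit 11) (.e (nat_lit 24665) (nat_lit 14) .nil))) .nil)))))))))

noncomputable def tv2691 : DT := (.nd (nat_lit 0) (.nd (nat_lit 1) (.nd (nat_lit 2) (.nd (nat_lit 3) (.nd (nat_lit 4) (.nd (nat_lit 5) (.nd (nat_lit 6) 
(.lf (nat_lit 203904) (.g (nat_lit 1385) (.e (nat_lit 73775) (nat_lit 26) (.e (nat_lit 778465) (nat_lit 11) (.e (nat_lit 24665) (nat_lit 14) (.e (nat_lit 409344) (nat_lit 26) .nil)))) .nil)) 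
(.lf (nat_lit 203968) (.g (nat_lit 1445) (.e (nat_lit 73775) (nat_lit 26) (.e (nat_lit 778466) (nat_lit 11) (.e (nat_lit 24655) (nat_lit 13) (.e (nat_lit 393243) (nat_lit 17) .nil)))) .nil))) (.nd (nat_lit 6) 
(.lf (nat_lit 203936) (.g (nat_lit 1026) (.e (nat_lit 73775) (nat_lit 26) (.e (nat_lit 778466) (nat_lit 11) (.e (nat_lit 24631) (nat_lit 9) (.e (nat_lit 336417) (nat_lit 27) .nil)))) .nil)) 
(.lf (nat_lit 204000) (.g (nat_lit 1564) (.e (nat_lit 73776) (nat_lit 26) (.e (nat_lit 778361) (nat_lit 9) (.e (nat_lit 314) (nat_lit 23) (.e (nat_lit 352273) (nat_lit 11) .nil)))) .nil)))) (.nd (nat_lit 5) (.nd (nat_lit 6) 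
(.lf (nat_lit 203920) (.g (nat_lit 336) (.e (nat_lit 73775) (nat_lit 26) (.e (nat_lit 778466) (nat_lit 11) (.e (nat_lit 24625) (nat_lit 9) .nil))) .nil)) 
(.lf (nat_lit 203984) (.g (nat_lit 1638) (.e (nat_lit 73775) (nat_lit 26) (.e (nat_lit 778466) (nat_lit 11) (.e (nat_lit 24661) (nat_lit 14) (.e (nat_lit 409344) (nat_lit 25) .nil)))) .nil))) (.nd (nat_lit 6) 
(.lf (nat_lit 203952) (.g (nat_lit 981) (.e (nat_lit 73775) (nat_lit 26) (.e (nat_lit 778466) (nat_lit 11) (.e (nat_lit 24638) (nat_lit 9) (.e (nat_lit 336401) (nat_lit 27) .nil)))) .nil)) 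
(.lf (nat_lit 204016) (.g (nat_lit 1508) (.e (nat_lit 73776) (nat_lit 26) (.e (nat_lit 778362) (nat_lit 9) (.e (nat_lit 297) (nat_lit 22) (.e (nat_lit 344120) (nat_lit 21) .nil)))) .nil))))) (.nd (nat_lit 4) (.nd (nat_lit 5) (.nd (nat_lit 6) 
(.lf (nat_lit 203912) (.g (nat_lit 3324) (.e (nat_lit 73775) (nat_lit 26) (.e (nat_lit 778466) (nat_lit 11) (.e (nat_lit 24608) (nat_lit 3) (.e (nat_lit 98341) (nat_lit 20) .nil)))) .nil)) 
(.lf (nat_lit 203976) (.g (nat_lit 1588) (.e (nat_lit 73775) (nat_lit 26) (.e (nat_lit 778466) (nat_lit 11) (.e (nat_lit 24656) (nat_lit 13) (.e (nat_lit 393249) (nat_lit 17) (.e (nat_lit 7936) (nat_lit 407) .nil))))) (.g (nat_lit 4) .nil .nil)))) (.nd (nat_lit 6) 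
(.lf (nat_lit 203944) (.g (nat_lit 1399) (.e (nat_lit 73775) (nat_lit 26) (.e (nat_lit 778466) (nat_lit 11) (.e (nat_lit 24632) (nat_lit 9) (.e (nat_lit 336386) (nat_lit 27) (.e (nat_lit 426024) (nat_lit 0) .nil))))) .nil)) 
(.lf (nat_lit 204008) (.g (nat_lit 2372) (.e (nat_lit 73776) (nat_lit 26) (.e (nat_lit 778362) (nat_lit 9) (.e (nat_lit 268) (nat_lit 21) (.e (nat_lit 336212) (nat_lit 13) (.e (nat_lit 393234) (nat_lit 17) (.e (nat_lit 7591) (nat_lit 407) .nil)))))) (.g (nat_lit 4) .nil .nil))))) (.nd (nat_lit 5) (.nd (nat_lit 6) 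
(.lf (nat_lit 203928) (.g (nat_lit 1342) (.e (nat_lit 73775) (nat_lit 26) (.e (nat_lit 778466) (nat_lit 11) (.e (nat_lit 24628) (nat_lit 9) (.e (nat_lit 336365) (nat_lit 26) .nil)))) .nil)) 
(.lf (nat_lit 203992) (.g (nat_lit 585) (.e (nat_lit 73776) (nat_lit 26) (.e (nat_lit 778361) (nat_lit 9) (.e (nat_lit 265) (nat_lit 21) .nil))) .nil))) (.nd (nat_lit 6) 
(.lf (nat_lit 203960) (.g (nat_lit 2135) (.e (nat_lit 73775) (nat_lit 26) (.e (nat_lit 778466) (nat_lit 11) (.e (nat_lit 24654) (nat_lit 13) (.e (nat_lit 393233) (nat_lit 17) (.e (nat_lit 7591) (nat_lit 407) .nil))))) (.g (nat_lit 5) .nil .nil))) 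
(.lf (nat_lit 204024) (.g (nat_lit 1708) (.e (nat_lit 73776) (nat_lit 26) (.e (nat_lit 778362) (nat_lit 9) (.e (nat_lit 297) (nat_lit 22) (.e (nat_lit 344132) (nat_lit 26) (.e (nat_lit 557105) (nat_lit 14) .nil))))) .nil)))))) (.nd (nat_lit 3) (.nd (nat_lit 4) (.nd (nat_lit 5) (.nd (nat_lit 6) 
(.lf (nat_lit 203908) (.g (nat_lit 649) (.e (nat_lit 73775) (nat_lit 26) (.e (nat_lit 778466) (nat_lit 11) (.e (nat_lit 24595) (nat_lit 0) .nil))) .nil)) 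
(.lf (nat_lit 203972) (.g (nat_lit 1514) (.e (nat_lit 73775) (nat_lit 26) (.e (nat_lit 778466) (nat_lit 11) (.e (nat_lit 24656) (nat_lit 13) (.e (nat_lit 393235) (nat_lit 17) (.e (nat_lit 7936) (nat_lit 407) .nil))))) (.g (nat_lit 4) .nil .nil)))) (.nd (nat_lit 6) 
(.lf (nat_lit 203940) (.g (nat_lit 1363) (.e (nat_lit 73775) (nat_lit 26) (.e (nat_lit 778466) (nat_lit 11) (.e (nat_lit 24632) (nat_lit 9) (.e (nat_lit 336250) (nat_lit 15) (.e (nat_lit 7082) (nat_lit 378) .nil))))) .nil)) 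
(.lf (nat_lit 204004) (.g (nat_lit 1912) (.e (nat_lit 73776) (nat_lit 26) (.e (nat_lit 778362) (nat_lit 9) (.e (nat_lit 232) (nat_lit 21) (.e (nat_lit 336212) (nat_lit 13) .nil)))) .nil)))) (.nd (nat_lit 5) (.nd (nat_lit 6) 
(.lf (nat_lit 203924) (.g (nat_lit 387) (.e (nat_lit 73775) (nat_lit 26) (.e (nat_lit 778466) (nat_lit 11) (.e (nat_lit 24626) (nat_lit 9) .nil))) .nil)) 
(.lf (nat_lit 203988) (.g (nat_lit 1291) (.e (nat_lit 73776) (nat_lit 26) (.e (nat_lit 778277) (nat_lit 0) (.e (nat_lit 1597) (nat_lit 111) (.e (nat_lit 360466) (nat_lit 3) (.e (nat_lit 516100) (nat_lit 0) (.e (nat_lit 7936) (nat_lit 216) (.e (nat_lit 688182) (nat_lit 17) .nil))))))) (.g (nat_lit 4) .nil .nil)))) (.nd (nat_lit 6) 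
(.lf (nat_lit 203956) (.g (nat_lit 566) (.e (nat_lit 73775) (nat_lit 26) (.e (nat_lit 778466) (nat_lit 11) (.e (nat_lit 24651) (nat_lit 12) .nil))) .nil)) 
(.lf (nat_lit 204020) (.g (nat_lit 3319) (.e (nat_lit 73776) (nat_lit 26) (.e (nat_lit 778362) (nat_lit 9) (.e (nat_lit 297) (nat_lit 22) (.e (nat_lit 344131) (nat_lit 26) (.e (nat_lit 557105) (nat_lit 14) (.e (nat_lit 180264) (nat_lit 21) (.e (nat_lit 663568) (nat_lit 5) .nil))))))) (.g (nat_lit 5) .nil .nil)))))) (.nd (nat_lit 4) (.nd (nat_lit 5) (.nd (nat_lit 6) 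
(.lf (nat_lit 203916) (.g (nat_lit 2933) (.e (nat_lit 73775) (nat_lit 26) (.e (nat_lit 778466) (nat_lit 11) (.e (nat_lit 24617) (nat_lit 7) (.e (nat_lit 319505) (nat_lit 10) (.e (nat_lit 720) (nat_lit 64) (.e (nat_lit 688171) (nat_lit 15) (.e (nat_lit 65280) (nat_lit 192) .nil))))))) (.g (nat_lit 5) .nil .nil))) 
(.lf (nat_lit 203980) (.g (nat_lit 1891) (.e (nat_lit 73775) (nat_lit 26) (.e (nat_lit 778466) (nat_lit 11) (.e (nat_lit 24658) (nat_lit 13) (.e (nat_lit 393243) (nat_lit 17) (.e (nat_lit 7936) (nat_lit 407) .nil))))) .nil))) (.nd (nat_lit 6) 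
(.lf (nat_lit 203948) (.g (nat_lit 729) (.e (nat_lit 73775) (nat_lit 26) (.e (nat_lit 778466) (nat_lit 11) (.e (nat_lit 24636) (nat_lit 9) (.e (nat_lit 336378) (nat_lit 27) .nil)))) .nil)) 
(.lf (nat_lit 204012) (.g (nat_lit 1545) (.e (nat_lit 73776) (nat_lit 26) (.e (nat_lit 778362) (nat_lit 9) (.e (nat_lit 297) (nat_lit 22) (.e (nat_lit 344118) (nat_lit 21) .nil)))) .nil)))) (.nd (nat_lit 5) (.nd (nat_lit 6) 
(.lf (nat_lit 203932) (.g (nat_lit 3283) (.e (nat_lit 73775) (nat_lit 26) (.e (nat_lit 778466) (nat_lit 11) (.e (nat_lit 24631) (nat_lit 9) (.e (nat_lit 336389) (nat_lit 27) (.e (nat_lit 426011) (nat_lit 0) (.e (nat_lit 7591) (nat_lit 407) .nil)))))) (.g (nat_lit 6) .nil .nil))) 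
(.lf (nat_lit 203996) (.g (nat_lit 1008) (.e (nat_lit 73776) (nat_lit 26) (.e (nat_lit 778361) (nat_lit 9) (.e (nat_lit 312) (nat_lit 23) (.e (nat_lit 352271) (nat_lit 9) .nil)))) .nil))) (.nd (nat_lit 6) 
(.lf (nat_lit 203964) (.g (nat_lit 2752) (.e (nat_lit 73775) (nat_lit 26) (.e (nat_lit 778466) (nat_lit 11) (.e (nat_lit 24655) (nat_lit 13) (.e (nat_lit 393233) (nat_lit 17) (.e (nat_lit 7593) (nat_lit 407) .nil))))) (.g (nat_lit 0) .nil .nil))) 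
(.lf (nat_lit 204028) (.g (nat_lit 2650) (.e (nat_lit 73776) (nat_lit 26) (.e (nat_lit 778362) (nat_lit 9) (.e (nat_lit 297) (nat_lit 22) (.e (nat_lit 344133) (nat_lit 26) (.e (nat_lit 557098) (nat_lit 13) (.e (nat_lit 172045) (nat_lit 0) (.e (nat_lit 3428) (nat_lit 213) (.e (nat_lit 663568) (nat_lit 5) .nil)))))))) (.g (nat_lit 4) .nil .nil)))))))) 
(.nd (nat_lit 2) (.nd (nat_lit 3) (.nd (nat_lit 4) (.nd (nat_lit 5) (.nd (nat_lit 6) 
(.lf (nat_lit 203906) (.g (nat_lit 1773) (.e (nat_lit 73775) (nat_lit 26) (.e (nat_lit 778465) (nat_lit 11) (.e (nat_lit 24665) (nat_lit 14) (.e (nat_lit 401472) (nat_lit 28) .nil)))) .nil)) 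
(.lf (nat_lit 203970) (.g (nat_lit 1445) (.e (nat_lit 73775) (nat_lit 26) (.e (nat_lit 778466) (nat_lit 11) (.e (nat_lit 24655) (nat_lit 13) (.e (nat_lit 393248) (nat_lit 17) .nil)))) .nil))) (.nd (nat_lit 6) 
(.lf (nat_lit 203938) (.g (nat_lit 392) (.e (nat_lit 73775) (nat_lit 26) (.e (nat_lit 778466) (nat_lit 11) (.e (nat_lit 24632) (nat_lit 9) .nil))) .nil)) 
(.lf (nat_lit 204002) (.g (nat_lit 629) (.e (nat_lit 73776) (nat_lit 26) (.e (nat_lit 778362) (nat_lit 9) (.e (nat_lit 230) (nat_lit 21) (.e (nat_lit 336219) (nat_lit 13) .nil)))) .nil)))) (.nd (nat_lit 5) (.nd (nat_lit 6) 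
(.lf (nat_lit 203922) (.g (nat_lit 2182) (.e (nat_lit 73775) (nat_lit 26) (.e (nat_lit 778466) (nat_lit 11) (.e (nat_lit 24625) (nat_lit 9) (.e (nat_lit 336421) (nat_lit 28) (.e (nat_lit 442112) (nat_lit 5) .nil))))) .nil)) 
(.lf (nat_lit 203986) (.g (nat_lit 1537) (.e (nat_lit 73775) (nat_lit 26) (.e (nat_lit 778466) (nat_lit 11) (.e (nat_lit 24662) (nat_lit 14) (.e (nat_lit 409344) (nat_lit 25) .nil)))) .nil))) (.nd (nat_lit 6) 
(.lf (nat_lit 203954) (.g (nat_lit 1050) (.e (nat_lit 73775) (nat_lit 26) (.e (nat_lit 778466) (nat_lit 11) (.e (nat_lit 24648) (nat_lit 12) (.e (nat_lit 392960) (nat_lit 16) .nil)))) .nil)) 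
(.lf (nat_lit 204018) (.g (nat_lit 1469) (.e (nat_lit 73776) (nat_lit 26) (.e (nat_lit 778362) (nat_lit 9) (.e (nat_lit 297) (nat_lit 22) (.e (nat_lit 344131) (nat_lit 26) .nil)))) .nil))))) (.nd (nat_lit 4) (.nd (nat_lit 5) (.nd (nat_lit 6) 
(.lf (nat_lit 203914) (.g (nat_lit 2087) (.e (nat_lit 73775) (nat_lit 26) (.e (nat_lit 778466) (nat_lit 11) (.e (nat_lit 24617) (nat_lit 7) (.e (nat_lit 319504) (nat_lit 10) (.e (nat_lit 720) (nat_lit 64) (.e (nat_lit 688170) (nat_lit 15) (.e (nat_lit 65280) (nat_lit 192) .nil))))))) (.g (nat_lit 4) .nil .nil))) 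
(.lf (nat_lit 203978) (.g (nat_lit 3103) (.e (nat_lit 73775) (nat_lit 26) (.e (nat_lit 778466) (nat_lit 11) (.e (nat_lit 24658) (nat_lit 13) (.e (nat_lit 393234) (nat_lit 17) (.e (nat_lit 7593) (nat_lit 407) .nil))))) (.g (nat_lit 0) .nil .nil)))) (.nd (nat_lit 6) 
(.lf (nat_lit 203946) (.g (nat_lit 3442) (.e (nat_lit 73775) (nat_lit 26) (.e (nat_lit 778466) (nat_lit 11) (.e (nat_lit 24634) (nat_lit 9) (.e (nat_lit 336389) (nat_lit 27) (.e (nat_lit 426012) (nat_lit 0) (.e (nat_lit 7591) (nat_lit 407) .nil)))))) (.g (nat_lit 6) .nil .nil))) 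
(.lf (nat_lit 204010) (.g (nat_lit 405) (.e (nat_lit 73776) (nat_lit 26) (.e (nat_lit 778362) (nat_lit 9) (.e (nat_lit 293) (nat_lit 21) .nil))) .nil)))) (.nd (nat_lit 5) (.nd (nat_lit 6) 
(.lf (nat_lit 203930) (.g (nat_lit 1054) (.e (nat_lit 73775) (nat_lit 26) (.e (nat_lit 778466) (nat_lit 11) (.e (nat_lit 24628) (nat_lit 9) (.e (nat_lit 336436) (nat_lit 31) .nil)))) .nil)) 
(.lf (nat_lit 203994) (.g (nat_lit 792) (.e (nat_lit 73776) (nat_lit 26) (.e (nat_lit 778361) (nat_lit 9) (.e (nat_lit 309) (nat_lit 23) (.e (nat_lit 352277) (nat_lit 11) .nil)))) .nil))) (.nd (nat_lit 6) 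
(.lf (nat_lit 203962) (.g (nat_lit 2504) (.e (nat_lit 73775) (nat_lit 26) (.e (nat_lit 778466) (nat_lit 11) (.e (nat_lit 24654) (nat_lit 13) (.e (nat_lit 393234) (nat_lit 17) (.e (nat_lit 7593) (nat_lit 407) .nil))))) (.g (nat_lit 0) .nil .nil))) 
(.lf (nat_lit 204026) (.g (nat_lit 3131) (.e (nat_lit 73776) (nat_lit 26) (.e (nat_lit 778362) (nat_lit 9) (.e (nat_lit 297) (nat_lit 22) (.e (nat_lit 344132) (nat_lit 26) (.e (nat_lit 557105) (nat_lit 14) (.e (nat_lit 180265) (nat_lit 21) (.e (nat_lit 671488) (nat_lit 5) .nil))))))) (.g (nat_lit 6) .nil .nil))))))) (.nd (nat_lit 3) (.nd (nat_lit 4) (.nd (nat_lit 5) (.nd (nat_lit 6) 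
(.lf (nat_lit 203910) (.g (nat_lit 3349) (.e (nat_lit 73775) (nat_lit 26) (.e (nat_lit 778466) (nat_lit 11) (.e (nat_lit 24608) (nat_lit 3) (.e (nat_lit 98337) (nat_lit 19) .nil)))) .nil)) 
(.lf (nat_lit 203974) (.g (nat_lit 1480) (.e (nat_lit 73775) (nat_lit 26) (.e (nat_lit 778466) (nat_lit 11) (.e (nat_lit 24656) (nat_lit 13) (.e (nat_lit 393243) (nat_lit 17) (.e (nat_lit 7936) (nat_lit 407) .nil))))) (.g (nat_lit 4) .nil .nil)))) (.nd (nat_lit 6) 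
(.lf (nat_lit 203942) (.g (nat_lit 2175) (.e (nat_lit 73775) (nat_lit 26) (.e (nat_lit 778466) (nat_lit 11) (.e (nat_lit 24632) (nat_lit 9) (.e (nat_lit 336363) (nat_lit 26) (.e (nat_lit 417793) (nat_lit 0) (.e (nat_lit 5412) (nat_lit 303) .nil)))))) (.g (nat_lit 6) .nil .nil))) 
(.lf (nat_lit 204006) (.g (nat_lit 2315) (.e (nat_lit 73776) (nat_lit 26) (.e (nat_lit 778362) (nat_lit 9) (.e (nat_lit 243) (nat_lit 21) (.e (nat_lit 336213) (nat_lit 13) (.e (nat_lit 393233) (nat_lit 17) (.e (nat_lit 7591) (nat_lit 407) .nil)))))) (.g (nat_lit 4) .nil .nil))))) (.nd (nat_lit 5) (.nd (nat_lit 6) 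
(.lf (nat_lit 203926) (.g (nat_lit 307) (.e (nat_lit 73775) (nat_lit 26) (.e (nat_lit 778466) (nat_lit 11) (.e (nat_lit 24628) (nat_lit 9) .nil))) .nil)) 
(.lf (nat_lit 203990) (.g (nat_lit 1110) (.e (nat_lit 73776) (nat_lit 26) (.e (nat_lit 778359) (nat_lit 9) (.e (nat_lit 312) (nat_lit 23) (.e (nat_lit 352277) (nat_lit 11) (.e (nat_lit 426009) (nat_lit 0) .nil))))) .nil))) (.nd (nat_lit 6) 
(.lf (nat_lit 203958) (.g (nat_lit 1420) (.e (nat_lit 73775) (nat_lit 26) (.e (nat_lit 778466) (nat_lit 11) (.e (nat_lit 24651) (nat_lit 12) (.e (nat_lit 385037) (nat_lit 16) .nil)))) .nil)) 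
(.lf (nat_lit 204022) (.g (nat_lit 2737) (.e (nat_lit 73776) (nat_lit 26) (.e (nat_lit 778362) (nat_lit 9) (.e (nat_lit 297) (nat_lit 22) (.e (nat_lit 344131) (nat_lit 26) (.e (nat_lit 557105) (nat_lit 14) (.e (nat_lit 180265) (nat_lit 21) (.e (nat_lit 671488) (nat_lit 5) .nil))))))) (.g (nat_lit 5) .nil .nil)))))) (.nd (nat_lit 4) (.nd (nat_lit 5) (.nd (nat_lit 6) 
(.lf (nat_lit 203918) (.g (nat_lit 406) (.e (nat_lit 73775) (nat_lit 26) (.e (nat_lit 778466) (nat_lit 11) (.e (nat_lit 24624) (nat_lit 9) .nil))) .nil)) 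
(.lf (nat_lit 203982) (.g (nat_lit 1773) (.e (nat_lit 73775) (nat_lit 26) (.e (nat_lit 778466) (nat_lit 11) (.e (nat_lit 24658) (nat_lit 13) (.e (nat_lit 393248) (nat_lit 17) .nil)))) .nil))) (.nd (nat_lit 6) 
(.lf (nat_lit 203950) (.g (nat_lit 1015) (.e (nat_lit 73775) (nat_lit 26) (.e (nat_lit 778466) (nat_lit 11) (.e (nat_lit 24638) (nat_lit 9) (.e (nat_lit 343808) (nat_lit 26) .nil)))) .nil)) 
(.lf (nat_lit 204014) (.g (nat_lit 2079) (.e (nat_lit 73776) (nat_lit 26) (.e (nat_lit 778362) (nat_lit 9) (.e (nat_lit 297) (nat_lit 22) (.e (nat_lit 344119) (nat_lit 21) (.e (nat_lit 516131) (nat_lit 3) (.e (nat_lit 221218) (nat_lit 24) (.e (nat_lit 220928) (nat_lit 5) .nil))))))) (.g (nat_lit 5) .nil .nil))))) (.nd (nat_lit 5) (.nd (nat_lit 6) 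
(.lf (nat_lit 203934) (.g (nat_lit 1129) (.e (nat_lit 73775) (nat_lit 26) (.e (nat_lit 778466) (nat_lit 11) (.e (nat_lit 24631) (nat_lit 9) (.e (nat_lit 336410) (nat_lit 27) (.e (nat_lit 425984) (nat_lit 0) .nil))))) .nil)) 
(.lf (nat_lit 203998) (.g (nat_lit 1545) (.e (nat_lit 73776) (nat_lit 26) (.e (nat_lit 778361) (nat_lit 9) (.e (nat_lit 312) (nat_lit 23) (.e (nat_lit 352277) (nat_lit 11) (.e (nat_lit 426009) (nat_lit 0) .nil))))) .nil))) (.nd (nat_lit 6) 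
(.lf (nat_lit 203966) (.g (nat_lit 1445) (.e (nat_lit 73775) (nat_lit 26) (.e (nat_lit 778466) (nat_lit 11) (.e (nat_lit 24655) (nat_lit 13) (.e (nat_lit 393240) (nat_lit 17) .nil)))) .nil)) 
(.lf (nat_lit 204030) (.g (nat_lit 2944) (.e (nat_lit 73776) (nat_lit 26) (.e (nat_lit 778362) (nat_lit 9) (.e (nat_lit 297) (nat_lit 22) (.e (nat_lit 344133) (nat_lit 26) (.e (nat_lit 557103) (nat_lit 14) (.e (nat_lit 180233) (nat_lit 0) (.e (nat_lit 5815) (nat_lit 320) (.e (nat_lit 1212) (nat_lit 89) .nil)))))))) (.g (nat_lit 4) .nil .nil))))))))) 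
(.nd (nat_lit 1) (.nd (nat_lit 2) (.nd (nat_lit 3) (.nd (nat_lit 4) (.nd (nat_lit 5) 
(.nd (nat_lit 6) 
(.lf (nat_lit 203905) (.g (nat_lit 2129) (.e (nat_lit 73775) (nat_lit 26) (.e (nat_lit 778465) (nat_lit 11) (.e (nat_lit 24665) (nat_lit 14) (.e (nat_lit 401468) (nat_lit 27) (.e (nat_lit 336032) (nat_lit 4) .nil))))) .nil)) 
(.lf (nat_lit 203969) (.g (nat_lit 1717) (.e (nat_lit 73775) (nat_lit 26) (.e (nat_lit 778466) (nat_lit 11) (.e (nat_lit 24655) (nat_lit 13) (.e (nat_lit 393246) (nat_lit 17) (.e (nat_lit 7936) (nat_lit 407) .nil))))) .nil))) (.nd (nat_lit 6) 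
(.lf (nat_lit 203937) (.g (nat_lit 1865) (.e (nat_lit 73775) (nat_lit 26) (.e (nat_lit 778466) (nat_lit 11) (.e (nat_lit 24631) (nat_lit 9) (.e (nat_lit 336417) (nat_lit 27) (.e (nat_lit 426035) (nat_lit 0) (.e (nat_lit 7936) (nat_lit 407) .nil)))))) (.g (nat_lit 4) .nil .nil))) 
(.lf (nat_lit 204001) (.g (nat_lit 594) (.e (nat_lit 73776) (nat_lit 26) (.e (nat_lit 778361) (nat_lit 9) (.e (nat_lit 334) (nat_lit 26) .nil))) .nil)))) (.nd (nat_lit 5) (.nd (nat_lit 6) 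
(.lf (nat_lit 203921) (.g (nat_lit 1609) (.e (nat_lit 73775) (nat_lit 26) (.e (nat_lit 778466) (nat_lit 11) (.e (nat_lit 24625) (nat_lit 9) (.e (nat_lit 336365) (nat_lit 26) .nil)))) .nil)) 
(.lf (nat_lit 203985) (.g (nat_lit 722) (.e (nat_lit 73775) (nat_lit 26) (.e (nat_lit 778466) (nat_lit 11) (.e (nat_lit 24662) (nat_lit 14) .nil))) .nil))) (.nd (nat_lit 6) 
(.lf (nat_lit 203953) (.g (nat_lit 506) (.e (nat_lit 73775) (nat_lit 26) (.e (nat_lit 778466) (nat_lit 11) (.e (nat_lit 24648) (nat_lit 12) .nil))) .nil)) 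
(.lf (nat_lit 204017) (.g (nat_lit 1544) (.e (nat_lit 73776) (nat_lit 26) (.e (nat_lit 778362) (nat_lit 9) (.e (nat_lit 297) (nat_lit 22) (.e (nat_lit 344127) (nat_lit 26) .nil)))) .nil))))) (.nd (nat_lit 4) (.nd (nat_lit 5) (.nd (nat_lit 6) 
(.lf (nat_lit 203913) (.g (nat_lit 3305) (.e (nat_lit 73775) (nat_lit 26) (.e (nat_lit 778466) (nat_lit 11) (.e (nat_lit 24608) (nat_lit 3) (.e (nat_lit 98342) (nat_lit 20) .nil)))) .nil)) 
(.lf (nat_lit 203977) (.g (nat_lit 2631) (.e (nat_lit 73775) (nat_lit 26) (.e (nat_lit 778466) (nat_lit 11) (.e (nat_lit 24658) (nat_lit 13) (.e (nat_lit 393233) (nat_lit 17) (.e (nat_lit 7593) (nat_lit 407) .nil))))) (.g (nat_lit 0) .nil .nil)))) (.nd (nat_lit 6) 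
(.lf (nat_lit 203945) (.g (nat_lit 1262) (.e (nat_lit 73775) (nat_lit 26) (.e (nat_lit 778466) (nat_lit 11) (.e (nat_lit 24632) (nat_lit 9) (.e (nat_lit 336417) (nat_lit 27) (.e (nat_lit 426077) (nat_lit 0) .nil))))) .nil)) 
(.lf (nat_lit 204009) (.g (nat_lit 1222) (.e (nat_lit 73776) (nat_lit 26) (.e (nat_lit 778362) (nat_lit 9) (.e (nat_lit 268) (nat_lit 21) (.e (nat_lit 336219) (nat_lit 13) .nil)))) .nil)))) (.nd (nat_lit 5) (.nd (nat_lit 6) 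
(.lf (nat_lit 203929) (.g (nat_lit 1673) (.e (nat_lit 73775) (nat_lit 26) (.e (nat_lit 778466) (nat_lit 11) (.e (nat_lit 24628) (nat_lit 9) (.e (nat_lit 336424) (nat_lit 28) (.e (nat_lit 442112) (nat_lit 5) .nil))))) .nil)) 
(.lf (nat_lit 203993) (.g (nat_lit 604) (.e (nat_lit 73776) (nat_lit 26) (.e (nat_lit 778361) (nat_lit 9) (.e (nat_lit 309) (nat_lit 23) .nil))) .nil))) (.nd (nat_lit 6) 
(.lf (nat_lit 203961) (.g (nat_lit 2655) (.e (nat_lit 73775) (nat_lit 26) (.e (nat_lit 778466) (nat_lit 11) (.e (nat_lit 24654) (nat_lit 13) (.e (nat_lit 393234) (nat_lit 17) (.e (nat_lit 7591) (nat_lit 407) .nil))))) (.g (nat_lit 0) .nil .nil))) 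
(.lf (nat_lit 204025) (.g (nat_lit 3719) (.e (nat_lit 73776) (nat_lit 26) (.e (nat_lit 778362) (nat_lit 9) (.e (nat_lit 297) (nat_lit 22) (.e (nat_lit 344132) (nat_lit 26) (.e (nat_lit 557105) (nat_lit 14) (.e (nat_lit 180264) (nat_lit 21) (.e (nat_lit 663568) (nat_lit 5) .nil))))))) (.g (nat_lit 6) .nil .nil))))))) (.nd (nat_lit 3) (.nd (nat_lit 4) (.nd (nat_lit 5) (.nd (nat_lit 6) 
(.lf (nat_lit 203909) (.g (nat_lit 689) (.e (nat_lit 73775) (nat_lit 26) (.e (nat_lit 778466) (nat_lit 11) (.e (nat_lit 24608) (nat_lit 3) .nil))) .nil)) 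
(.lf (nat_lit 203973) (.g (nat_lit 1538) (.e (nat_lit 73775) (nat_lit 26) (.e (nat_lit 778466) (nat_lit 11) (.e (nat_lit 24656) (nat_lit 13) (.e (nat_lit 393239) (nat_lit 17) (.e (nat_lit 7936) (nat_lit 407) .nil))))) (.g (nat_lit 4) .nil .nil)))) (.nd (nat_lit 6) 
(.lf (nat_lit 203941) (.g (nat_lit 1200) (.e (nat_lit 73775) (nat_lit 26) (.e (nat_lit 778466) (nat_lit 11) (.e (nat_lit 24632) (nat_lit 9) (.e (nat_lit 336358) (nat_lit 25) .nil)))) .nil)) 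
(.lf (nat_lit 204005) (.g (nat_lit 2538) (.e (nat_lit 73776) (nat_lit 26) (.e (nat_lit 778362) (nat_lit 9) (.e (nat_lit 232) (nat_lit 21) (.e (nat_lit 336212) (nat_lit 13) (.e (nat_lit 393234) (nat_lit 17) .nil))))) .nil)))) (.nd (nat_lit 5) (.nd (nat_lit 6) 
(.lf (nat_lit 203925) (.g (nat_lit 878) (.e (nat_lit 73775) (nat_lit 26) (.e (nat_lit 778466) (nat_lit 11) (.e (nat_lit 24626) (nat_lit 9) (.e (nat_lit 336364) (nat_lit 26) .nil)))) .nil)) 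
(.lf (nat_lit 203989) (.g (nat_lit 1542) (.e (nat_lit 73776) (nat_lit 26) (.e (nat_lit 778353) (nat_lit 9) (.e (nat_lit 284) (nat_lit 21) (.e (nat_lit 336213) (nat_lit 13) (.e (nat_lit 393233) (nat_lit 17) .nil))))) .nil))) (.nd (nat_lit 6) 
(.lf (nat_lit 203957) (.g (nat_lit 1420) (.e (nat_lit 73775) (nat_lit 26) (.e (nat_lit 778466) (nat_lit 11) (.e (nat_lit 24651) (nat_lit 12) (.e (nat_lit 385033) (nat_lit 16) .nil)))) .nil)) 
(.lf (nat_lit 204021) (.g (nat_lit 3897) (.e (nat_lit 73776) (nat_lit 26) (.e (nat_lit 778362) (nat_lit 9) (.e (nat_lit 297) (nat_lit 22) (.e (nat_lit 344131) (nat_lit 26) (.e (nat_lit 557105) (nat_lit 14) (.e (nat_lit 180265) (nat_lit 21) (.e (nat_lit 663568) (nat_lit 5) .nil))))))) (.g (nat_lit 6) .nil .nil)))))) (.nd (nat_lit 4) (.nd (nat_lit 5) (.nd (nat_lit 6) 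
(.lf (nat_lit 203917) (.g (nat_lit 1593) (.e (nat_lit 73775) (nat_lit 26) (.e (nat_lit 778466) (nat_lit 11) (.e (nat_lit 24623) (nat_lit 9) (.e (nat_lit 336412) (nat_lit 27) (.e (nat_lit 426012) (nat_lit 0) .nil))))) .nil)) 
(.lf (nat_lit 203981) (.g (nat_lit 1929) (.e (nat_lit 73775) (nat_lit 26) (.e (nat_lit 778466) (nat_lit 11) (.e (nat_lit 24658) (nat_lit 13) (.e (nat_lit 393245) (nat_lit 17) (.e (nat_lit 7936) (nat_lit 407) .nil))))) .nil))) (.nd (nat_lit 6) 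
(.lf (nat_lit 203949) (.g (nat_lit 718) (.e (nat_lit 73775) (nat_lit 26) (.e (nat_lit 778466) (nat_lit 11) (.e (nat_lit 24637) (nat_lit 9) .nil))) .nil)) 
(.lf (nat_lit 204013) (.g (nat_lit 1140) (.e (nat_lit 73776) (nat_lit 26) (.e (nat_lit 778362) (nat_lit 9) (.e (nat_lit 297) (nat_lit 22) (.e (nat_lit 344119) (nat_lit 21) .nil)))) .nil)))) (.nd (nat_lit 5) (.nd (nat_lit 6) 
(.lf (nat_lit 203933) (.g (nat_lit 1024) (.e (nat_lit 73775) (nat_lit 26) (.e (nat_lit 778466) (nat_lit 11) (.e (nat_lit 24631) (nat_lit 9) (.e (nat_lit 336410) (nat_lit 27) .nil)))) .nil)) 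
(.lf (nat_lit 203997) (.g (nat_lit 1004) (.e (nat_lit 73776) (nat_lit 26) (.e (nat_lit 778361) (nat_lit 9) (.e (nat_lit 312) (nat_lit 23) (.e (nat_lit 352272) (nat_lit 10) .nil)))) .nil))) (.nd (nat_lit 6) 
(.lf (nat_lit 203965) (.g (nat_lit 2819) (.e (nat_lit 73775) (nat_lit 26) (.e (nat_lit 778466) (nat_lit 11) (.e (nat_lit 24655) (nat_lit 13) (.e (nat_lit 393234) (nat_lit 17) (.e (nat_lit 7591) (nat_lit 407) .nil))))) (.g (nat_lit 0) .nil .nil))) 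
(.lf (nat_lit 204029) (.g (nat_lit 4041) (.e (nat_lit 73776) (nat_lit 26) (.e (nat_lit 778362) (nat_lit 9) (.e (nat_lit 297) (nat_lit 22) (.e (nat_lit 344133) (nat_lit 26) (.e (nat_lit 557098) (nat_lit 13) (.e (nat_lit 172070) (nat_lit 4) (.e (nat_lit 229699) (nat_lit 254) (.e (nat_lit 1212) (nat_lit 89) .nil)))))))) (.g (nat_lit 5) .nil .nil)))))))) 
(.nd (nat_lit 2) (.nd (nat_lit 3) (.nd (nat_lit 4) (.nd (nat_lit 5) (.nd (nat_lit 6) 
(.lf (nat_lit 203907) (.g (nat_lit 871) (.e (nat_lit 73775) (nat_lit 26) (.e (nat_lit 778466) (nat_lit 11) (.e (nat_lit 24594) (nat_lit 0) (.e (nat_lit 7936) (nat_lit 345) .nil)))) .nil)) 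
(.lf (nat_lit 203971) (.g (nat_lit 2015) (.e (nat_lit 73775) (nat_lit 26) (.e (nat_lit 778466) (nat_lit 11) (.e (nat_lit 24655) (nat_lit 13) (.e (nat_lit 393249) (nat_lit 17) (.e (nat_lit 7936) (nat_lit 407) .nil))))) (.g (nat_lit 4) .nil .nil)))) (.nd (nat_lit 6) 
(.lf (nat_lit 203939) (.g (nat_lit 1222) (.e (nat_lit 73775) (nat_lit 26) (.e (nat_lit 778466) (nat_lit 11) (.e (nat_lit 24632) (nat_lit 9) (.e (nat_lit 336250) (nat_lit 15) .nil)))) .nil)) 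
(.lf (nat_lit 204003) (.g (nat_lit 1908) (.e (nat_lit 73776) (nat_lit 26) (.e (nat_lit 778362) (nat_lit 9) (.e (nat_lit 232) (nat_lit 21) (.e (nat_lit 336089) (nat_lit 9) .nil)))) .nil)))) (.nd (nat_lit 5) (.nd (nat_lit 6) 
(.lf (nat_lit 203923) (.g (nat_lit 1402) (.e (nat_lit 73775) (nat_lit 26) (.e (nat_lit 778466) (nat_lit 11) (.e (nat_lit 24625) (nat_lit 9) (.e (nat_lit 336436) (nat_lit 31) .nil)))) .nil)) 
(.lf (nat_lit 203987) (.g (nat_lit 1537) (.e (nat_lit 73775) (nat_lit 26) (.e (nat_lit 778466) (nat_lit 11) (.e (nat_lit 24662) (nat_lit 14) (.e (nat_lit 409344) (nat_lit 26) .nil)))) .nil))) (.nd (nat_lit 6) 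
(.lf (nat_lit 203955) (.g (nat_lit 666) (.e (nat_lit 73775) (nat_lit 26) (.e (nat_lit 778466) (nat_lit 11) (.e (nat_lit 24649) (nat_lit 12) .nil))) .nil)) 
(.lf (nat_lit 204019) (.g (nat_lit 1744) (.e (nat_lit 73776) (nat_lit 26) (.e (nat_lit 778362) (nat_lit 9) (.e (nat_lit 297) (nat_lit 22) (.e (nat_lit 344131) (nat_lit 26) (.e (nat_lit 557098) (nat_lit 13) .nil))))) .nil))))) (.nd (nat_lit 4) (.nd (nat_lit 5) (.nd (nat_lit 6) 
(.lf (nat_lit 203915) (.g (nat_lit 3283) (.e (nat_lit 73775) (nat_lit 26) (.e (nat_lit 778466) (nat_lit 11) (.e (nat_lit 24617) (nat_lit 7) (.e (nat_lit 319505) (nat_lit 10) (.e (nat_lit 720) (nat_lit 64) (.e (nat_lit 688170) (nat_lit 15) (.e (nat_lit 65280) (nat_lit 192) .nil))))))) (.g (nat_lit 6) .nil .nil))) 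
(.lf (nat_lit 203979) (.g (nat_lit 2168) (.e (nat_lit 73775) (nat_lit 26) (.e (nat_lit 778466) (nat_lit 11) (.e (nat_lit 24658) (nat_lit 13) (.e (nat_lit 393238) (nat_lit 17) (.e (nat_lit 7936) (nat_lit 407) .nil))))) .nil))) (.nd (nat_lit 6) 
(.lf (nat_lit 203947) (.g (nat_lit 289) (.e (nat_lit 73775) (nat_lit 26) (.e (nat_lit 778466) (nat_lit 11) (.e (nat_lit 24636) (nat_lit 9) .nil))) .nil)) 
(.lf (nat_lit 204011) (.g (nat_lit 844) (.e (nat_lit 73776) (nat_lit 26) (.e (nat_lit 778362) (nat_lit 9) (.e (nat_lit 293) (nat_lit 21) (.e (nat_lit 343808) (nat_lit 13) .nil)))) .nil)))) (.nd (nat_lit 5) (.nd (nat_lit 6) 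
(.lf (nat_lit 203931) (.g (nat_lit 1698) (.e (nat_lit 73775) (nat_lit 26) (.e (nat_lit 778466) (nat_lit 11) (.e (nat_lit 24631) (nat_lit 9) (.e (nat_lit 336389) (nat_lit 27) (.e (nat_lit 426010) (nat_lit 0) .nil))))) .nil)) 
(.lf (nat_lit 203995) (.g (nat_lit 595) (.e (nat_lit 73776) (nat_lit 26) (.e (nat_lit 778361) (nat_lit 9) (.e (nat_lit 310) (nat_lit 23) .nil))) .nil))) (.nd (nat_lit 6) 
(.lf (nat_lit 203963) (.g (nat_lit 2758) (.e (nat_lit 73775) (nat_lit 26) (.e (nat_lit 778466) (nat_lit 11) (.e (nat_lit 24655) (nat_lit 13) (.e (nat_lit 393233) (nat_lit 17) (.e (nat_lit 7591) (nat_lit 407) .nil))))) (.g (nat_lit 0) .nil .nil))) 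
(.lf (nat_lit 204027) (.g (nat_lit 1229) (.e (nat_lit 73776) (nat_lit 26) (.e (nat_lit 778362) (nat_lit 9) (.e (nat_lit 297) (nat_lit 22) (.e (nat_lit 344133) (nat_lit 26) .nil)))) .nil)))))) (.nd (nat_lit 3) (.nd (nat_lit 4) (.nd (nat_lit 5) (.nd (nat_lit 6) 
(.lf (nat_lit 203911) (.g (nat_lit 3304) (.e (nat_lit 73775) (nat_lit 26) (.e (nat_lit 778466) (nat_lit 11) (.e (nat_lit 24608) (nat_lit 3) (.e (nat_lit 98339) (nat_lit 19) .nil)))) .nil)) 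
(.lf (nat_lit 203975) (.g (nat_lit 1593) (.e (nat_lit 73775) (nat_lit 26) (.e (nat_lit 778466) (nat_lit 11) (.e (nat_lit 24656) (nat_lit 13) (.e (nat_lit 393245) (nat_lit 17) (.e (nat_lit 7936) (nat_lit 407) .nil))))) (.g (nat_lit 4) .nil .nil)))) (.nd (nat_lit 6) 
(.lf (nat_lit 203943) (.g (nat_lit 2518) (.e (nat_lit 73775) (nat_lit 26) (.e (nat_lit 778466) (nat_lit 11) (.e (nat_lit 24632) (nat_lit 9) (.e (nat_lit 336363) (nat_lit 26) (.e (nat_lit 417795) (nat_lit 0) (.e (nat_lit 5412) (nat_lit 303) .nil)))))) (.g (nat_lit 6) .nil .nil))) 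
(.lf (nat_lit 204007) (.g (nat_lit 1851) (.e (nat_lit 73776) (nat_lit 26) (.e (nat_lit 778362) (nat_lit 9) (.e (nat_lit 255) (nat_lit 21) (.e (nat_lit 336088) (nat_lit 9) (.e (nat_lit 336438) (nat_lit 31) (.e (nat_lit 466688) (nat_lit 5) .nil)))))) (.g (nat_lit 4) .nil .nil))))) (.nd (nat_lit 5) (.nd (nat_lit 6) 
(.lf (nat_lit 203927) (.g (nat_lit 1444) (.e (nat_lit 73775) (nat_lit 26) (.e (nat_lit 778466) (nat_lit 11) (.e (nat_lit 24628) (nat_lit 9) (.e (nat_lit 336362) (nat_lit 26) .nil)))) .nil)) 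
(.lf (nat_lit 203991) (.g (nat_lit 1260) (.e (nat_lit 73776) (nat_lit 26) (.e (nat_lit 778361) (nat_lit 9) (.e (nat_lit 232) (nat_lit 21) (.e (nat_lit 336224) (nat_lit 13) .nil)))) .nil))) (.nd (nat_lit 6) 
(.lf (nat_lit 203959) (.g (nat_lit 1312) (.e (nat_lit 73775) (nat_lit 26) (.e (nat_lit 778466) (nat_lit 11) (.e (nat_lit 24651) (nat_lit 12) (.e (nat_lit 385038) (nat_lit 16) .nil)))) .nil)) 
(.lf (nat_lit 204023) (.g (nat_lit 1285) (.e (nat_lit 73776) (nat_lit 26) (.e (nat_lit 778362) (nat_lit 9) (.e (nat_lit 297) (nat_lit 22) (.e (nat_lit 344132) (nat_lit 26) .nil)))) .nil))))) (.nd (nat_lit 4) (.nd (nat_lit 5) (.nd (nat_lit 6) 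
(.lf (nat_lit 203919) (.g (nat_lit 702) (.e (nat_lit 73775) (nat_lit 26) (.e (nat_lit 778466) (nat_lit 11) (.e (nat_lit 24624) (nat_lit 9) (.e (nat_lit 336377) (nat_lit 27) .nil)))) .nil)) 
(.lf (nat_lit 203983) (.g (nat_lit 1908) (.e (nat_lit 73775) (nat_lit 26) (.e (nat_lit 778466) (nat_lit 11) (.e (nat_lit 24658) (nat_lit 13) (.e (nat_lit 393249) (nat_lit 17) (.e (nat_lit 7936) (nat_lit 407) .nil))))) (.g (nat_lit 4) .nil .nil)))) (.nd (nat_lit 6) 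
(.lf (nat_lit 203951) (.g (nat_lit 2810) (.e (nat_lit 73775) (nat_lit 26) (.e (nat_lit 778466) (nat_lit 11) (.e (nat_lit 24638) (nat_lit 9) (.e (nat_lit 336387) (nat_lit 27) (.e (nat_lit 426012) (nat_lit 0) (.e (nat_lit 7593) (nat_lit 407) .nil)))))) (.g (nat_lit 6) .nil .nil))) 
(.lf (nat_lit 204015) (.g (nat_lit 2522) (.e (nat_lit 73776) (nat_lit 26) (.e (nat_lit 778362) (nat_lit 9) (.e (nat_lit 297) (nat_lit 22) (.e (nat_lit 344119) (nat_lit 21) (.e (nat_lit 516131) (nat_lit 3) (.e (nat_lit 221219) (nat_lit 24) (.e (nat_lit 220928) (nat_lit 5) .nil))))))) (.g (nat_lit 6) .nil .nil))))) (.nd (nat_lit 5) (.nd (nat_lit 6) 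
(.lf (nat_lit 203935) (.g (nat_lit 1275) (.e (nat_lit 73775) (nat_lit 26) (.e (nat_lit 778466) (nat_lit 11) (.e (nat_lit 24631) (nat_lit 9) (.e (nat_lit 336412) (nat_lit 27) (.e (nat_lit 426012) (nat_lit 0) .nil))))) .nil)) 
(.lf (nat_lit 203999) (.g (nat_lit 584) (.e (nat_lit 73776) (nat_lit 26) (.e (nat_lit 778361) (nat_lit 9) (.e (nat_lit 314) (nat_lit 23) .nil))) .nil))) (.nd (nat_lit 6) 
(.lf (nat_lit 203967) (.g (nat_lit 1983) (.e (nat_lit 73775) (nat_lit 26) (.e (nat_lit 778466) (nat_lit 11) (.e (nat_lit 24655) (nat_lit 13) (.e (nat_lit 393242) (nat_lit 17) (.e (nat_lit 7936) (nat_lit 407) .nil))))) (.g (nat_lit 4) .nil .nil))) 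
(.lf (nat_lit 204031) (.g (nat_lit 1726) (.e (nat_lit 73776) (nat_lit 26) (.e (nat_lit 778362) (nat_lit 9) (.e (nat_lit 297) (nat_lit 22) (.e (nat_lit 344133) (nat_lit 26) (.e (nat_lit 557105) (nat_lit 14) .nil))))) .nil)))))))))

noncomputable def tv2692 : DT := (.nd (nat_lit 0) (.nd (nat_lit 1) (.nd (nat_lit 2) (.nd (nat_lit 3) (.nd (nat_lit 4) (.nd (nat_lit 5) (.nd (nat_lit 6) 
(.lf (nat_lit 204032) (.g (nat_lit 4367) (.e (nat_lit 73776) (nat_lit 26) (.e (nat_lit 778362) (nat_lit 9) (.e (nat_lit 297) (nat_lit 22) (.e (nat_lit 344133) (nat_lit 26) (.e (nat_lit 557105) (nat_lit 14) (.e (nat_lit 180264) (nat_lit 21) (.e (nat_lit 663568) (nat_lit 5) .nil))))))) (.g (nat_lit 6) .nil .nil))) 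
(.lf (nat_lit 204096) (.g (nat_lit 1114) (.e (nat_lit 73776) (nat_lit 26) (.e (nat_lit 778465) (nat_lit 11) (.e (nat_lit 24638) (nat_lit 9) (.e (nat_lit 336387) (nat_lit 27) .nil)))) .nil))) (.nd (nat_lit 6) 
(.lf (nat_lit 204064) (.g (nat_lit 2274) (.e (nat_lit 73776) (nat_lit 26) (.e (nat_lit 778463) (nat_lit 11) (.e (nat_lit 24655) (nat_lit 13) (.e (nat_lit 393233) (nat_lit 17) (.e (nat_lit 7591) (nat_lit 407) .nil))))) (.g (nat_lit 0) .nil .nil))) 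
(.lf (nat_lit 204128) (.g (nat_lit 664) (.e (nat_lit 73776) (nat_lit 26) (.e (nat_lit 778466) (nat_lit 11) (.e (nat_lit 24576) (nat_lit 0) .nil))) .nil)))) (.nd (nat_lit 5) (.nd (nat_lit 6) 
(.lf (nat_lit 204048) (.g (nat_lit 412) (.e (nat_lit 73776) (nat_lit 26) (.e (nat_lit 778362) (nat_lit 9) (.e (nat_lit 314) (nat_lit 23) .nil))) .nil)) 
(.lf (nat_lit 204112) (.g (nat_lit 1457) (.e (nat_lit 73776) (nat_lit 26) (.e (nat_lit 778465) (nat_lit 11) (.e (nat_lit 24657) (nat_lit 13) (.e (nat_lit 393239) (nat_lit 17) (.e (nat_lit 7936) (nat_lit 407) .nil))))) .nil))) (.nd (nat_lit 6) 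
(.lf (nat_lit 204080) (.g (nat_lit 1495) (.e (nat_lit 73776) (nat_lit 26) (.e (nat_lit 778465) (nat_lit 11) (.e (nat_lit 24625) (nat_lit 9) (.e (nat_lit 336423) (nat_lit 28) .nil)))) .nil)) 
(.lf (nat_lit 204144) (.g (nat_lit 1342) (.e (nat_lit 73776) (nat_lit 26) (.e (nat_lit 778466) (nat_lit 11) (.e (nat_lit 24628) (nat_lit 9) (.e (nat_lit 336439) (nat_lit 31) .nil)))) .nil))))) (.nd (nat_lit 4) (.nd (nat_lit 5) (.nd (nat_lit 6) 
(.lf (nat_lit 204040) (.g (nat_lit 407) (.e (nat_lit 73776) (nat_lit 26) (.e (nat_lit 778362) (nat_lit 9) (.e (nat_lit 312) (nat_lit 23) .nil))) .nil)) 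
(.lf (nat_lit 204104) (.g (nat_lit 1696) (.e (nat_lit 73776) (nat_lit 26) (.e (nat_lit 778465) (nat_lit 11) (.e (nat_lit 24655) (nat_lit 13) (.e (nat_lit 393231) (nat_lit 17) .nil)))) .nil))) (.nd (nat_lit 6) 
(.lf (nat_lit 204072) (.g (nat_lit 1085) (.e (nat_lit 73776) (nat_lit 26) (.e (nat_lit 778464) (nat_lit 11) (.e (nat_lit 24665) (nat_lit 14) (.e (nat_lit 409344) (nat_lit 25) .nil)))) .nil)) 
(.lf (nat_lit 204136) (.g (nat_lit 1580) (.e (nat_lit 73776) (nat_lit 26) (.e (nat_lit 778466) (nat_lit 11) (.e (nat_lit 24625) (nat_lit 9) (.e (nat_lit 336365) (nat_lit 26) .nil)))) .nil)))) (.nd (nat_lit 5) (.nd (nat_lit 6) 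
(.lf (nat_lit 204056) (.g (nat_lit 784) (.e (nat_lit 73776) (nat_lit 26) (.e (nat_lit 778362) (nat_lit 9) (.e (nat_lit 328) (nat_lit 25) (.e (nat_lit 376576) (nat_lit 10) .nil)))) .nil)) 
(.lf (nat_lit 204120) (.g (nat_lit 1121) (.e (nat_lit 73776) (nat_lit 26) (.e (nat_lit 778465) (nat_lit 11) (.e (nat_lit 24660) (nat_lit 13) (.e (nat_lit 393235) (nat_lit 17) .nil)))) .nil))) (.nd (nat_lit 6) 
(.lf (nat_lit 204088) (.g (nat_lit 1437) (.e (nat_lit 73776) (nat_lit 26) (.e (nat_lit 778465) (nat_lit 11) (.e (nat_lit 24631) (nat_lit 9) (.e (nat_lit 336363) (nat_lit 26) .nil)))) .nil)) 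
(.lf (nat_lit 204152) (.g (nat_lit 2062) (.e (nat_lit 73776) (nat_lit 26) (.e (nat_lit 778466) (nat_lit 11) (.e (nat_lit 24632) (nat_lit 9) (.e (nat_lit 336363) (nat_lit 26) (.e (nat_lit 417796) (nat_lit 0) (.e (nat_lit 5410) (nat_lit 303) .nil)))))) (.g (nat_lit 5) .nil .nil))))))) (.nd (nat_lit 3) (.nd (nat_lit 4) (.nd (nat_lit 5) (.nd (nat_lit 6) 
(.lf (nat_lit 204036) (.g (nat_lit 1900) (.e (nat_lit 73776) (nat_lit 26) (.e (nat_lit 778362) (nat_lit 9) (.e (nat_lit 309) (nat_lit 23) (.e (nat_lit 352272) (nat_lit 10) (.e (nat_lit 417795) (nat_lit 0) (.e (nat_lit 5410) (nat_lit 303) .nil)))))) (.g (nat_lit 5) .nil .nil))) 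
(.lf (nat_lit 204100) (.g (nat_lit 1428) (.e (nat_lit 73776) (nat_lit 26) (.e (nat_lit 778465) (nat_lit 11) (.e (nat_lit 24651) (nat_lit 12) (.e (nat_lit 385038) (nat_lit 16) .nil)))) .nil))) (.nd (nat_lit 6) 
(.lf (nat_lit 204068) (.g (nat_lit 1165) (.e (nat_lit 73776) (nat_lit 26) (.e (nat_lit 778463) (nat_lit 11) (.e (nat_lit 24660) (nat_lit 13) (.e (nat_lit 393238) (nat_lit 17) (.e (nat_lit 7936) (nat_lit 407) .nil))))) (.g (nat_lit 4) .nil .nil))) 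
(.lf (nat_lit 204132) (.g (nat_lit 2216) (.e (nat_lit 73776) (nat_lit 26) (.e (nat_lit 778466) (nat_lit 11) (.e (nat_lit 24623) (nat_lit 9) (.e (nat_lit 336389) (nat_lit 27) (.e (nat_lit 426012) (nat_lit 0) (.e (nat_lit 7591) (nat_lit 407) .nil)))))) (.g (nat_lit 4) .nil .nil))))) (.nd (nat_lit 5) (.nd (nat_lit 6) 
(.lf (nat_lit 204052) (.g (nat_lit 1516) (.e (nat_lit 73776) (nat_lit 26) (.e (nat_lit 778362) (nat_lit 9) (.e (nat_lit 314) (nat_lit 23) (.e (nat_lit 352273) (nat_lit 11) .nil)))) .nil)) 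
(.lf (nat_lit 204116) (.g (nat_lit 3391) (.e (nat_lit 73776) (nat_lit 26) (.e (nat_lit 778465) (nat_lit 11) (.e (nat_lit 24658) (nat_lit 13) (.e (nat_lit 393234) (nat_lit 17) (.e (nat_lit 7591) (nat_lit 407) .nil))))) (.g (nat_lit 0) .nil .nil)))) (.nd (nat_lit 6) 
(.lf (nat_lit 204084) (.g (nat_lit 2360) (.e (nat_lit 73776) (nat_lit 26) (.e (nat_lit 778465) (nat_lit 11) (.e (nat_lit 24628) (nat_lit 9) (.e (nat_lit 336438) (nat_lit 31) (.e (nat_lit 466688) (nat_lit 5) .nil))))) (.g (nat_lit 4) .nil .nil))) 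
(.lf (nat_lit 204148) (.g (nat_lit 3126) (.e (nat_lit 73776) (nat_lit 26) (.e (nat_lit 778466) (nat_lit 11) (.e (nat_lit 24631) (nat_lit 9) (.e (nat_lit 336389) (nat_lit 27) (.e (nat_lit 426011) (nat_lit 0) (.e (nat_lit 7591) (nat_lit 407) .nil)))))) (.g (nat_lit 6) .nil .nil)))))) (.nd (nat_lit 4) (.nd (nat_lit 5) (.nd (nat_lit 6) 
(.lf (nat_lit 204044) (.g (nat_lit 1595) (.e (nat_lit 73776) (nat_lit 26) (.e (nat_lit 778362) (nat_lit 9) (.e (nat_lit 312) (nat_lit 23) (.e (nat_lit 352273) (nat_lit 11) .nil)))) .nil)) 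
(.lf (nat_lit 204108) (.g (nat_lit 2052) (.e (nat_lit 73776) (nat_lit 26) (.e (nat_lit 778465) (nat_lit 11) (.e (nat_lit 24655) (nat_lit 13) (.e (nat_lit 393249) (nat_lit 17) (.e (nat_lit 7936) (nat_lit 407) .nil))))) (.g (nat_lit 4) .nil .nil)))) (.nd (nat_lit 6) 
(.lf (nat_lit 204076) (.g (nat_lit 1745) (.e (nat_lit 73776) (nat_lit 26) (.e (nat_lit 778465) (nat_lit 11) (.e (nat_lit 24623) (nat_lit 9) (.e (nat_lit 336369) (nat_lit 27) .nil)))) .nil)) 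
(.lf (nat_lit 204140) (.g (nat_lit 317) (.e (nat_lit 73776) (nat_lit 26) (.e (nat_lit 778466) (nat_lit 11) (.e (nat_lit 24628) (nat_lit 9) .nil))) .nil)))) (.nd (nat_lit 5) (.nd (nat_lit 6) 
(.lf (nat_lit 204060) (.g (nat_lit 2671) (.e (nat_lit 73776) (nat_lit 26) (.e (nat_lit 778403) (nat_lit 9) (.e (nat_lit 284) (nat_lit 21) (.e (nat_lit 336213) (nat_lit 13) (.e (nat_lit 393233) (nat_lit 17) (.e (nat_lit 7591) (nat_lit 407) .nil)))))) (.g (nat_lit 6) .nil .nil))) 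
(.lf (nat_lit 204124) (.g (nat_lit 1105) (.e (nat_lit 73776) (nat_lit 26) (.e (nat_lit 778465) (nat_lit 11) (.e (nat_lit 24660) (nat_lit 13) (.e (nat_lit 393249) (nat_lit 17) .nil)))) .nil))) (.nd (nat_lit 6) 
(.lf (nat_lit 204092) (.g (nat_lit 550) (.e (nat_lit 73776) (nat_lit 26) (.e (nat_lit 778465) (nat_lit 11) (.e (nat_lit 24632) (nat_lit 9) .nil))) .nil)) 
(.lf (nat_lit 204156) (.g (nat_lit 2306) (.e (nat_lit 73776) (nat_lit 26) (.e (nat_lit 778466) (nat_lit 11) (.e (nat_lit 24636) (nat_lit 9) (.e (nat_lit 336390) (nat_lit 27) (.e (nat_lit 426012) (nat_lit 0) (.e (nat_lit 7591) (nat_lit 407) .nil)))))) (.g (nat_lit 6) .nil .nil)))))))) (.nd (nat_lit 2) (.nd (nat_lit 3) (.nd (nat_lit 4) (.nd (nat_lit 5) (.nd (nat_lit 6) 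
(.lf (nat_lit 204034) (.g (nat_lit 3298) (.e (nat_lit 73776) (nat_lit 26) (.e (nat_lit 778362) (nat_lit 9) (.e (nat_lit 297) (nat_lit 22) (.e (nat_lit 344133) (nat_lit 26) (.e (nat_lit 557105) (nat_lit 14) (.e (nat_lit 180265) (nat_lit 21) (.e (nat_lit 671488) (nat_lit 5) .nil))))))) (.g (nat_lit 5) .nil .nil))) 
(.lf (nat_lit 204098) (.g (nat_lit 777) (.e (nat_lit 73776) (nat_lit 26) (.e (nat_lit 778465) (nat_lit 11) (.e (nat_lit 24640) (nat_lit 10) .nil))) .nil))) (.nd (nat_lit 6) 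
(.lf (nat_lit 204066) (.g (nat_lit 901) (.e (nat_lit 73776) (nat_lit 26) (.e (nat_lit 778463) (nat_lit 11) (.e (nat_lit 24657) (nat_lit 13) (.e (nat_lit 393239) (nat_lit 17) .nil)))) .nil)) 
(.lf (nat_lit 204130) (.g (nat_lit 3361) (.e (nat_lit 73776) (nat_lit 26) (.e (nat_lit 778466) (nat_lit 11) (.e (nat_lit 24608) (nat_lit 3) (.e (nat_lit 98341) (nat_lit 20) .nil)))) .nil)))) (.nd (nat_lit 5) (.nd (nat_lit 6) 
(.lf (nat_lit 204050) (.g (nat_lit 2035) (.e (nat_lit 73776) (nat_lit 26) (.e (nat_lit 778362) (nat_lit 9) (.e (nat_lit 314) (nat_lit 23) (.e (nat_lit 352264) (nat_lit 0) (.e (nat_lit 7088) (nat_lit 379) (.e (nat_lit 123214) (nat_lit 275) .nil)))))) (.g (nat_lit 0) .nil .nil))) 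
(.lf (nat_lit 204114) (.g (nat_lit 1577) (.e (nat_lit 73776) (nat_lit 26) (.e (nat_lit 778465) (nat_lit 11) (.e (nat_lit 24657) (nat_lit 13) (.e (nat_lit 393248) (nat_lit 17) .nil)))) .nil))) (.nd (nat_lit 6) 
(.lf (nat_lit 204082) (.g (nat_lit 562) (.e (nat_lit 73776) (nat_lit 26) (.e (nat_lit 778465) (nat_lit 11) (.e (nat_lit 24626) (nat_lit 9) .nil))) .nil)) 
(.lf (nat_lit 204146) (.g (nat_lit 963) (.e (nat_lit 73776) (nat_lit 26) (.e (nat_lit 778466) (nat_lit 11) (.e (nat_lit 24631) (nat_lit 9) (.e (nat_lit 336363) (nat_lit 26) .nil)))) .nil))))) (.nd (nat_lit 4) (.nd (nat_lit 5) (.nd (nat_lit 6) 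
(.lf (nat_lit 204042) (.g (nat_lit 1178) (.e (nat_lit 73776) (nat_lit 26) (.e (nat_lit 778362) (nat_lit 9) (.e (nat_lit 312) (nat_lit 23) (.e (nat_lit 352271) (nat_lit 9) .nil)))) .nil)) 
(.lf (nat_lit 204106) (.g (nat_lit 2015) (.e (nat_lit 73776) (nat_lit 26) (.e (nat_lit 778465) (nat_lit 11) (.e (nat_lit 24655) (nat_lit 13) (.e (nat_lit 393237) (nat_lit 17) (.e (nat_lit 7936) (nat_lit 407) .nil))))) .nil))) (.nd (nat_lit 6) 
(.lf (nat_lit 204074) (.g (nat_lit 1487) (.e (nat_lit 73776) (nat_lit 26) (.e (nat_lit 778465) (nat_lit 11) (.e (nat_lit 24584) (nat_lit 0) (.e (nat_lit 7936) (nat_lit 345) .nil)))) .nil)) 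
(.lf (nat_lit 204138) (.g (nat_lit 1573) (.e (nat_lit 73776) (nat_lit 26) (.e (nat_lit 778466) (nat_lit 11) (.e (nat_lit 24625) (nat_lit 9) (.e (nat_lit 336439) (nat_lit 31) .nil)))) .nil)))) (.nd (nat_lit 5) (.nd (nat_lit 6) 
(.lf (nat_lit 204058) (.g (nat_lit 945) (.e (nat_lit 73776) (nat_lit 26) (.e (nat_lit 778362) (nat_lit 9) (.e (nat_lit 334) (nat_lit 26) (.e (nat_lit 384768) (nat_lit 10) .nil)))) .nil)) 
(.lf (nat_lit 204122) (.g (nat_lit 1644) (.e (nat_lit 73776) (nat_lit 26) (.e (nat_lit 778465) (nat_lit 11) (.e (nat_lit 24660) (nat_lit 13) (.e (nat_lit 393242) (nat_lit 17) (.e (nat_lit 7936) (nat_lit 407) .nil))))) (.g (nat_lit 4) .nil .nil)))) (.nd (nat_lit 6) 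
(.lf (nat_lit 204090) (.g (nat_lit 2389) (.e (nat_lit 73776) (nat_lit 26) (.e (nat_lit 778465) (nat_lit 11) (.e (nat_lit 24631) (nat_lit 9) (.e (nat_lit 336389) (nat_lit 27) (.e (nat_lit 426009) (nat_lit 0) .nil))))) .nil)) 
(.lf (nat_lit 204154) (.g (nat_lit 1139) (.e (nat_lit 73776) (nat_lit 26) (.e (nat_lit 778466) (nat_lit 11) (.e (nat_lit 24632) (nat_lit 9) (.e (nat_lit 336388) (nat_lit 27) .nil)))) .nil)))))) (.nd (nat_lit 3) (.nd (nat_lit 4) (.nd (nat_lit 5) (.nd (nat_lit 6) 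
(.lf (nat_lit 204038) (.g (nat_lit 1385) (.e (nat_lit 73776) (nat_lit 26) (.e (nat_lit 778362) (nat_lit 9) (.e (nat_lit 309) (nat_lit 23) (.e (nat_lit 352278) (nat_lit 11) (.e (nat_lit 426035) (nat_lit 0) (.e (nat_lit 7936) (nat_lit 407) .nil)))))) (.g (nat_lit 4) .nil .nil))) 
(.lf (nat_lit 204102) (.g (nat_lit 2780) (.e (nat_lit 73776) (nat_lit 26) (.e (nat_lit 778465) (nat_lit 11) (.e (nat_lit 24654) (nat_lit 13) (.e (nat_lit 393234) (nat_lit 17) (.e (nat_lit 7591) (nat_lit 407) .nil))))) (.g (nat_lit 0) .nil .nil)))) (.nd (nat_lit 6) 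
(.lf (nat_lit 204070) (.g (nat_lit 1131) (.e (nat_lit 73776) (nat_lit 26) (.e (nat_lit 778464) (nat_lit 11) (.e (nat_lit 24657) (nat_lit 13) (.e (nat_lit 393231) (nat_lit 17) .nil)))) .nil)) 
(.lf (nat_lit 204134) (.g (nat_lit 1131) (.e (nat_lit 73776) (nat_lit 26) (.e (nat_lit 778466) (nat_lit 11) (.e (nat_lit 24623) (nat_lit 9) (.e (nat_lit 336438) (nat_lit 31) .nil)))) .nil)))) (.nd (nat_lit 5) (.nd (nat_lit 6) 
(.lf (nat_lit 204054) (.g (nat_lit 1256) (.e (nat_lit 73776) (nat_lit 26) (.e (nat_lit 778362) (nat_lit 9) (.e (nat_lit 314) (nat_lit 23) (.e (nat_lit 352275) (nat_lit 11) (.e (nat_lit 426003) (nat_lit 0) .nil))))) .nil)) 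
(.lf (nat_lit 204118) (.g (nat_lit 2642) (.e (nat_lit 73776) (nat_lit 26) (.e (nat_lit 778465) (nat_lit 11) (.e (nat_lit 24659) (nat_lit 13) (.e (nat_lit 393234) (nat_lit 17) (.e (nat_lit 7591) (nat_lit 407) .nil))))) (.g (nat_lit 0) .nil .nil)))) (.nd (nat_lit 6) 
(.lf (nat_lit 204086) (.g (nat_lit 1200) (.e (nat_lit 73776) (nat_lit 26) (.e (nat_lit 778465) (nat_lit 11) (.e (nat_lit 24630) (nat_lit 9) (.e (nat_lit 336421) (nat_lit 28) .nil)))) .nil)) 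
(.lf (nat_lit 204150) (.g (nat_lit 410) (.e (nat_lit 73776) (nat_lit 26) (.e (nat_lit 778466) (nat_lit 11) (.e (nat_lit 24632) (nat_lit 9) .nil))) .nil))))) (.nd (nat_lit 4) (.nd (nat_lit 5) (.nd (nat_lit 6) 
(.lf (nat_lit 204046) (.g (nat_lit 3386) (.e (nat_lit 73776) (nat_lit 26) (.e (nat_lit 778362) (nat_lit 9) (.e (nat_lit 312) (nat_lit 23) (.e (nat_lit 352277) (nat_lit 11) (.e (nat_lit 426012) (nat_lit 0) (.e (nat_lit 7591) (nat_lit 407) .nil)))))) (.g (nat_lit 0) .nil .nil))) 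
(.lf (nat_lit 204110) (.g (nat_lit 1053) (.e (nat_lit 73776) (nat_lit 26) (.e (nat_lit 778465) (nat_lit 11) (.e (nat_lit 24656) (nat_lit 13) (.e (nat_lit 393231) (nat_lit 17) .nil)))) .nil))) (.nd (nat_lit 6) 
(.lf (nat_lit 204078) (.g (nat_lit 1664) (.e (nat_lit 73776) (nat_lit 26) (.e (nat_lit 778465) (nat_lit 11) (.e (nat_lit 24623) (nat_lit 9) (.e (nat_lit 336438) (nat_lit 31) .nil)))) .nil)) 
(.lf (nat_lit 204142) (.g (nat_lit 1525) (.e (nat_lit 73776) (nat_lit 26) (.e (nat_lit 778466) (nat_lit 11) (.e (nat_lit 24628) (nat_lit 9) (.e (nat_lit 336422) (nat_lit 28) .nil)))) .nil)))) (.nd (nat_lit 5) (.nd (nat_lit 6) 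
(.lf (nat_lit 204062) (.g (nat_lit 1890) (.e (nat_lit 73776) (nat_lit 26) (.e (nat_lit 778455) (nat_lit 10) (.e (nat_lit 8362) (nat_lit 89) (.e (nat_lit 720956) (nat_lit 25) (.e (nat_lit 114716) (nat_lit 22) (.e (nat_lit 90181) (nat_lit 16) (.e (nat_lit 237312) (nat_lit 192) .nil))))))) (.g (nat_lit 6) .nil .nil))) 
(.lf (nat_lit 204126) (.g (nat_lit 1437) (.e (nat_lit 73776) (nat_lit 26) (.e (nat_lit 778465) (nat_lit 11) (.e (nat_lit 24665) (nat_lit 14) (.e (nat_lit 409344) (nat_lit 26) .nil)))) .nil))) (.nd (nat_lit 6) 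
(.lf (nat_lit 204094) (.g (nat_lit 1202) (.e (nat_lit 73776) (nat_lit 26) (.e (nat_lit 778465) (nat_lit 11) (.e (nat_lit 24636) (nat_lit 9) (.e (nat_lit 336435) (nat_lit 31) (.e (nat_lit 466688) (nat_lit 5) .nil))))) .nil)) 
(.lf (nat_lit 204158) (.g (nat_lit 390) (.e (nat_lit 73776) (nat_lit 26) (.e (nat_lit 778466) (nat_lit 11) (.e (nat_lit 24638) (nat_lit 9) .nil))) .nil)))))))) (.nd (nat_lit 1) (.nd (nat_lit 2) (.nd (nat_lit 3) (.nd (nat_lit 4) (.nd (nat_lit 5) (.nd (nat_lit 6) 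
(.lf (nat_lit 204033) (.g (nat_lit 4446) (.e (nat_lit 73776) (nat_lit 26) (.e (nat_lit 778362) (nat_lit 9) (.e (nat_lit 297) (nat_lit 22) (.e (nat_lit 344133) (nat_lit 26) (.e (nat_lit 557105) (nat_lit 14) (.e (nat_lit 180265) (nat_lit 21) (.e (nat_lit 663568) (nat_lit 5) .nil))))))) (.g (nat_lit 6) .nil .nil))) 
(.lf (nat_lit 204097) (.g (nat_lit 428) (.e (nat_lit 73776) (nat_lit 26) (.e (nat_lit 778465) (nat_lit 11) (.e (nat_lit 32512) (nat_lit 9) .nil))) .nil))) (.nd (nat_lit 6) 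
(.lf (nat_lit 204065) (.g (nat_lit 1153) (.e (nat_lit 73776) (nat_lit 26) (.e (nat_lit 778463) (nat_lit 11) (.e (nat_lit 24655) (nat_lit 13) (.e (nat_lit 393249) (nat_lit 17) (.e (nat_lit 7936) (nat_lit 407) .nil))))) .nil)) 
(.lf (nat_lit 204129) (.g (nat_lit 710) (.e (nat_lit 73776) (nat_lit 26) (.e (nat_lit 778466) (nat_lit 11) (.e (nat_lit 24608) (nat_lit 3) .nil))) .nil)))) (.nd (nat_lit 5) (.nd (nat_lit 6) 
(.lf (nat_lit 204049) (.g (nat_lit 1308) (.e (nat_lit 73776) (nat_lit 26) (.e (nat_lit 778362) (nat_lit 9) (.e (nat_lit 314) (nat_lit 23) (.e (nat_lit 352264) (nat_lit 0) (.e (nat_lit 7086) (nat_lit 379) .nil))))) .nil)) 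
(.lf (nat_lit 204113) (.g (nat_lit 1518) (.e (nat_lit 73776) (nat_lit 26) (.e (nat_lit 778465) (nat_lit 11) (.e (nat_lit 24657) (nat_lit 13) (.e (nat_lit 393244) (nat_lit 17) .nil)))) .nil))) (.nd (nat_lit 6) 
(.lf (nat_lit 204081) (.g (nat_lit 1856) (.e (nat_lit 73776) (nat_lit 26) (.e (nat_lit 778465) (nat_lit 11) (.e (nat_lit 24625) (nat_lit 9) (.e (nat_lit 336439) (nat_lit 31) .nil)))) .nil)) 
(.lf (nat_lit 204145) (.g (nat_lit 335) (.e (nat_lit 73776) (nat_lit 26) (.e (nat_lit 778466) (nat_lit 11) (.e (nat_lit 24631) (nat_lit 9) .nil))) .nil))))) (.nd (nat_lit 4) (.nd (nat_lit 5) (.nd (nat_lit 6) 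
(.lf (nat_lit 204041) (.g (nat_lit 1938) (.e (nat_lit 73776) (nat_lit 26) (.e (nat_lit 778362) (nat_lit 9) (.e (nat_lit 312) (nat_lit 23) (.e (nat_lit 352258) (nat_lit 0) (.e (nat_lit 7089) (nat_lit 379) (.e (nat_lit 123214) (nat_lit 275) .nil)))))) (.g (nat_lit 0) .nil .nil))) 
(.lf (nat_lit 204105) (.g (nat_lit 2673) (.e (nat_lit 73776) (nat_lit 26) (.e (nat_lit 778465) (nat_lit 11) (.e (nat_lit 24655) (nat_lit 13) (.e (nat_lit 393232) (nat_lit 17) (.e (nat_lit 7591) (nat_lit 407) .nil))))) (.g (nat_lit 4) .nil .nil)))) (.nd (nat_lit 6) 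
(.lf (nat_lit 204073) (.g (nat_lit 1767) (.e (nat_lit 73776) (nat_lit 26) (.e (nat_lit 778464) (nat_lit 11) (.e (nat_lit 24665) (nat_lit 14) (.e (nat_lit 409344) (nat_lit 26) (.e (nat_lit 327703) (nat_lit 10) (.e (nat_lit 5410) (nat_lit 303) .nil)))))) (.g (nat_lit 5) .nil .nil))) 
(.lf (nat_lit 204137) (.g (nat_lit 1562) (.e (nat_lit 73776) (nat_lit 26) (.e (nat_lit 778466) (nat_lit 11) (.e (nat_lit 24625) (nat_lit 9) (.e (nat_lit 336414) (nat_lit 27) .nil)))) .nil)))) (.nd (nat_lit 5) (.nd (nat_lit 6) 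
(.lf (nat_lit 204057) (.g (nat_lit 399) (.e (nat_lit 73776) (nat_lit 26) (.e (nat_lit 778362) (nat_lit 9) (.e (nat_lit 334) (nat_lit 26) .nil))) .nil)) 
(.lf (nat_lit 204121) (.g (nat_lit 1977) (.e (nat_lit 73776) (nat_lit 26) (.e (nat_lit 778465) (nat_lit 11) (.e (nat_lit 24660) (nat_lit 13) (.e (nat_lit 393238) (nat_lit 17) (.e (nat_lit 7936) (nat_lit 407) .nil))))) (.g (nat_lit 4) .nil .nil)))) (.nd (nat_lit 6) 
(.lf (nat_lit 204089) (.g (nat_lit 1437) (.e (nat_lit 73776) (nat_lit 26) (.e (nat_lit 778465) (nat_lit 11) (.e (nat_lit 24631) (nat_lit 9) (.e (nat_lit 336388) (nat_lit 27) .nil)))) .nil)) 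
(.lf (nat_lit 204153) (.g (nat_lit 1173) (.e (nat_lit 73776) (nat_lit 26) (.e (nat_lit 778466) (nat_lit 11) (.e (nat_lit 24632) (nat_lit 9) (.e (nat_lit 336386) (nat_lit 27) .nil)))) .nil)))))) (.nd (nat_lit 3) (.nd (nat_lit 4) (.nd (nat_lit 5) (.nd (nat_lit 6) 
(.lf (nat_lit 204037) (.g (nat_lit 2055) (.e (nat_lit 73776) (nat_lit 26) (.e (nat_lit 778362) (nat_lit 9) (.e (nat_lit 309) (nat_lit 23) (.e (nat_lit 352272) (nat_lit 10) (.e (nat_lit 417796) (nat_lit 0) (.e (nat_lit 5410) (nat_lit 303) .nil)))))) (.g (nat_lit 5) .nil .nil))) 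
(.lf (nat_lit 204101) (.g (nat_lit 2204) (.e (nat_lit 73776) (nat_lit 26) (.e (nat_lit 778465) (nat_lit 11) (.e (nat_lit 24654) (nat_lit 13) (.e (nat_lit 393233) (nat_lit 17) (.e (nat_lit 7591) (nat_lit 407) .nil))))) (.g (nat_lit 5) .nil .nil)))) (.nd (nat_lit 6) 
(.lf (nat_lit 204069) (.g (nat_lit 708) (.e (nat_lit 73776) (nat_lit 26) (.e (nat_lit 778463) (nat_lit 11) (.e (nat_lit 24660) (nat_lit 13) (.e (nat_lit 393242) (nat_lit 17) .nil)))) .nil)) 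
(.lf (nat_lit 204133) (.g (nat_lit 1582) (.e (nat_lit 73776) (nat_lit 26) (.e (nat_lit 778466) (nat_lit 11) (.e (nat_lit 24623) (nat_lit 9) (.e (nat_lit 336412) (nat_lit 27) (.e (nat_lit 426012) (nat_lit 0) .nil))))) .nil)))) (.nd (nat_lit 5) (.nd (nat_lit 6) 
(.lf (nat_lit 204053) (.g (nat_lit 1816) (.e (nat_lit 73776) (nat_lit 26) (.e (nat_lit 778362) (nat_lit 9) (.e (nat_lit 314) (nat_lit 23) (.e (nat_lit 352273) (nat_lit 11) (.e (nat_lit 426009) (nat_lit 0) .nil))))) .nil)) 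
(.lf (nat_lit 204117) (.g (nat_lit 1728) (.e (nat_lit 73776) (nat_lit 26) (.e (nat_lit 778465) (nat_lit 11) (.e (nat_lit 24658) (nat_lit 13) (.e (nat_lit 393249) (nat_lit 17) (.e (nat_lit 7936) (nat_lit 407) .nil))))) (.g (nat_lit 4) .nil .nil)))) (.nd (nat_lit 6) 
(.lf (nat_lit 204085) (.g (nat_lit 1080) (.e (nat_lit 73776) (nat_lit 26) (.e (nat_lit 778465) (nat_lit 11) (.e (nat_lit 24630) (nat_lit 9) (.e (nat_lit 336414) (nat_lit 27) .nil)))) .nil)) 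
(.lf (nat_lit 204149) (.g (nat_lit 1019) (.e (nat_lit 73776) (nat_lit 26) (.e (nat_lit 778466) (nat_lit 11) (.e (nat_lit 24631) (nat_lit 9) (.e (nat_lit 336412) (nat_lit 27) .nil)))) .nil))))) (.nd (nat_lit 4) (.nd (nat_lit 5) (.nd (nat_lit 6) 
(.lf (nat_lit 204045) (.g (nat_lit 1188) (.e (nat_lit 73776) (nat_lit 26) (.e (nat_lit 778362) (nat_lit 9) (.e (nat_lit 312) (nat_lit 23) (.e (nat_lit 352276) (nat_lit 11) .nil)))) .nil)) 
(.lf (nat_lit 204109) (.g (nat_lit 551) (.e (nat_lit 73776) (nat_lit 26) (.e (nat_lit 778465) (nat_lit 11) (.e (nat_lit 24656) (nat_lit 13) .nil))) .nil))) (.nd (nat_lit 6) 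
(.lf (nat_lit 204077) (.g (nat_lit 2968) (.e (nat_lit 73776) (nat_lit 26) (.e (nat_lit 778465) (nat_lit 11) (.e (nat_lit 24623) (nat_lit 9) (.e (nat_lit 336389) (nat_lit 27) (.e (nat_lit 426012) (nat_lit 0) .nil))))) .nil)) 
(.lf (nat_lit 204141) (.g (nat_lit 1197) (.e (nat_lit 73776) (nat_lit 26) (.e (nat_lit 778466) (nat_lit 11) (.e (nat_lit 24628) (nat_lit 9) (.e (nat_lit 336414) (nat_lit 27) .nil)))) .nil)))) (.nd (nat_lit 5) (.nd (nat_lit 6) 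
(.lf (nat_lit 204061) (.g (nat_lit 2493) (.e (nat_lit 73776) (nat_lit 26) (.e (nat_lit 778404) (nat_lit 9) (.e (nat_lit 284) (nat_lit 21) (.e (nat_lit 336213) (nat_lit 13) (.e (nat_lit 393232) (nat_lit 17) .nil))))) .nil)) 
(.lf (nat_lit 204125) (.g (nat_lit 1416) (.e (nat_lit 73776) (nat_lit 26) (.e (nat_lit 778465) (nat_lit 11) (.e (nat_lit 24662) (nat_lit 14) (.e (nat_lit 409344) (nat_lit 26) .nil)))) .nil))) (.nd (nat_lit 6) 
(.lf (nat_lit 204093) (.g (nat_lit 538) (.e (nat_lit 73776) (nat_lit 26) (.e (nat_lit 778465) (nat_lit 11) (.e (nat_lit 24634) (nat_lit 9) .nil))) .nil)) 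
(.lf (nat_lit 204157) (.g (nat_lit 978) (.e (nat_lit 73776) (nat_lit 26) (.e (nat_lit 778466) (nat_lit 11) (.e (nat_lit 24636) (nat_lit 9) (.e (nat_lit 336435) (nat_lit 31) (.e (nat_lit 466688) (nat_lit 5) .nil))))) .nil))))))) (.nd (nat_lit 2) (.nd (nat_lit 3) (.nd (nat_lit 4) (.nd (nat_lit 5) (.nd (nat_lit 6) 
(.lf (nat_lit 204035) (.g (nat_lit 1520) (.e (nat_lit 73776) (nat_lit 26) (.e (nat_lit 778362) (nat_lit 9) (.e (nat_lit 309) (nat_lit 23) (.e (nat_lit 352272) (nat_lit 10) (.e (nat_lit 417793) (nat_lit 0) (.e (nat_lit 5410) (nat_lit 303) .nil)))))) (.g (nat_lit 4) .nil .nil))) 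
(.lf (nat_lit 204099) (.g (nat_lit 448) (.e (nat_lit 73776) (nat_lit 26) (.e (nat_lit 778465) (nat_lit 11) (.e (nat_lit 24650) (nat_lit 12) .nil))) .nil))) (.nd (nat_lit 6) 
(.lf (nat_lit 204067) (.g (nat_lit 972) (.e (nat_lit 73776) (nat_lit 26) (.e (nat_lit 778463) (nat_lit 11) (.e (nat_lit 24657) (nat_lit 13) (.e (nat_lit 393242) (nat_lit 17) (.e (nat_lit 7936) (nat_lit 407) .nil))))) .nil)) 
(.lf (nat_lit 204131) (.g (nat_lit 1973) (.e (nat_lit 73776) (nat_lit 26) (.e (nat_lit 778466) (nat_lit 11) (.e (nat_lit 24617) (nat_lit 7) (.e (nat_lit 319505) (nat_lit 10) (.e (nat_lit 720) (nat_lit 64) (.e (nat_lit 688170) (nat_lit 15) (.e (nat_lit 65280) (nat_lit 192) .nil))))))) (.g (nat_lit 4) .nil .nil))))) (.nd (nat_lit 5) (.nd (nat_lit 6) 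
(.lf (nat_lit 204051) (.g (nat_lit 2081) (.e (nat_lit 73776) (nat_lit 26) (.e (nat_lit 778362) (nat_lit 9) (.e (nat_lit 314) (nat_lit 23) (.e (nat_lit 352264) (nat_lit 0) (.e (nat_lit 7089) (nat_lit 379) (.e (nat_lit 123214) (nat_lit 275) .nil)))))) (.g (nat_lit 0) .nil .nil))) 
(.lf (nat_lit 204115) (.g (nat_lit 1540) (.e (nat_lit 73776) (nat_lit 26) (.e (nat_lit 778465) (nat_lit 11) (.e (nat_lit 24657) (nat_lit 13) (.e (nat_lit 393249) (nat_lit 17) (.e (nat_lit 7936) (nat_lit 407) .nil))))) .nil))) (.nd (nat_lit 6) 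
(.lf (nat_lit 204083) (.g (nat_lit 999) (.e (nat_lit 73776) (nat_lit 26) (.e (nat_lit 778465) (nat_lit 11) (.e (nat_lit 24627) (nat_lit 9) (.e (nat_lit 336438) (nat_lit 31) .nil)))) .nil)) 
(.lf (nat_lit 204147) (.g (nat_lit 1914) (.e (nat_lit 73776) (nat_lit 26) (.e (nat_lit 778466) (nat_lit 11) (.e (nat_lit 24631) (nat_lit 9) (.e (nat_lit 336389) (nat_lit 27) (.e (nat_lit 426009) (nat_lit 0) (.e (nat_lit 7591) (nat_lit 407) .nil)))))) (.g (nat_lit 4) .nil .nil)))))) (.nd (nat_lit 4) (.nd (nat_lit 5) (.nd (nat_lit 6) 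
(.lf (nat_lit 204043) (.g (nat_lit 1938) (.e (nat_lit 73776) (nat_lit 26) (.e (nat_lit 778362) (nat_lit 9) (.e (nat_lit 312) (nat_lit 23) (.e (nat_lit 352272) (nat_lit 10) (.e (nat_lit 417793) (nat_lit 0) (.e (nat_lit 5410) (nat_lit 303) .nil)))))) (.g (nat_lit 4) .nil .nil))) 
(.lf (nat_lit 204107) (.g (nat_lit 1540) (.e (nat_lit 73776) (nat_lit 26) (.e (nat_lit 778465) (nat_lit 11) (.e (nat_lit 24655) (nat_lit 13) (.e (nat_lit 393241) (nat_lit 17) .nil)))) .nil))) (.nd (nat_lit 6) 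
(.lf (nat_lit 204075) (.g (nat_lit 447) (.e (nat_lit 73776) (nat_lit 26) (.e (nat_lit 778465) (nat_lit 11) (.e (nat_lit 24623) (nat_lit 9) .nil))) .nil)) 
(.lf (nat_lit 204139) (.g (nat_lit 871) (.e (nat_lit 73776) (nat_lit 26) (.e (nat_lit 778466) (nat_lit 11) (.e (nat_lit 24626) (nat_lit 9) (.e (nat_lit 336439) (nat_lit 31) .nil)))) .nil)))) (.nd (nat_lit 5) (.nd (nat_lit 6) 
(.lf (nat_lit 204059) (.g (nat_lit 1950) (.e (nat_lit 73776) (nat_lit 26) (.e (nat_lit 778380) (nat_lit 9) (.e (nat_lit 290) (nat_lit 21) (.e (nat_lit 336213) (nat_lit 13) (.e (nat_lit 393232) (nat_lit 17) .nil))))) .nil)) 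
(.lf (nat_lit 204123) (.g (nat_lit 1090) (.e (nat_lit 73776) (nat_lit 26) (.e (nat_lit 778465) (nat_lit 11) (.e (nat_lit 24660) (nat_lit 13) (.e (nat_lit 393245) (nat_lit 17) .nil)))) .nil))) (.nd (nat_lit 6) 
(.lf (nat_lit 204091) (.g (nat_lit 1973) (.e (nat_lit 73776) (nat_lit 26) (.e (nat_lit 778465) (nat_lit 11) (.e (nat_lit 24631) (nat_lit 9) (.e (nat_lit 336417) (nat_lit 27) (.e (nat_lit 426035) (nat_lit 0) (.e (nat_lit 7936) (nat_lit 407) .nil)))))) (.g (nat_lit 5) .nil .nil))) 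
(.lf (nat_lit 204155) (.g (nat_lit 1788) (.e (nat_lit 73776) (nat_lit 26) (.e (nat_lit 778466) (nat_lit 11) (.e (nat_lit 24632) (nat_lit 9) (.e (nat_lit 336417) (nat_lit 27) (.e (nat_lit 426035) (nat_lit 0) (.e (nat_lit 7936) (nat_lit 407) .nil)))))) (.g (nat_lit 5) .nil .nil))))))) (.nd (nat_lit 3) (.nd (nat_lit 4) (.nd (nat_lit 5) (.nd (nat_lit 6) 
(.lf (nat_lit 204039) (.g (nat_lit 738) (.e (nat_lit 73776) (nat_lit 26) (.e (nat_lit 778362) (nat_lit 9) (.e (nat_lit 310) (nat_lit 23) (.e (nat_lit 352272) (nat_lit 10) .nil)))) .nil)) 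
(.lf (nat_lit 204103) (.g (nat_lit 955) (.e (nat_lit 73776) (nat_lit 26) (.e (nat_lit 778465) (nat_lit 11) (.e (nat_lit 24654) (nat_lit 13) (.e (nat_lit 393242) (nat_lit 17) .nil)))) .nil))) (.nd (nat_lit 6) 
(.lf (nat_lit 204071) (.g (nat_lit 1100) (.e (nat_lit 73776) (nat_lit 26) (.e (nat_lit 778464) (nat_lit 11) (.e (nat_lit 24658) (nat_lit 13) (.e (nat_lit 393233) (nat_lit 17) .nil)))) .nil)) 
(.lf (nat_lit 204135) (.g (nat_lit 407) (.e (nat_lit 73776) (nat_lit 26) (.e (nat_lit 778466) (nat_lit 11) (.e (nat_lit 24624) (nat_lit 9) .nil))) .nil)))) (.nd (nat_lit 5) (.nd (nat_lit 6) 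
(.lf (nat_lit 204055) (.g (nat_lit 3268) (.e (nat_lit 73776) (nat_lit 26) (.e (nat_lit 778362) (nat_lit 9) (.e (nat_lit 314) (nat_lit 23) (.e (nat_lit 352275) (nat_lit 11) (.e (nat_lit 426012) (nat_lit 0) (.e (nat_lit 7591) (nat_lit 407) .nil)))))) (.g (nat_lit 0) .nil .nil))) 
(.lf (nat_lit 204119) (.g (nat_lit 1143) (.e (nat_lit 73776) (nat_lit 26) (.e (nat_lit 778465) (nat_lit 11) (.e (nat_lit 24660) (nat_lit 13) (.e (nat_lit 393230) (nat_lit 17) .nil)))) .nil))) (.nd (nat_lit 6) 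
(.lf (nat_lit 204087) (.g (nat_lit 491) (.e (nat_lit 73776) (nat_lit 26) (.e (nat_lit 778465) (nat_lit 11) (.e (nat_lit 24631) (nat_lit 9) .nil))) .nil)) 
(.lf (nat_lit 204151) (.g (nat_lit 1189) (.e (nat_lit 73776) (nat_lit 26) (.e (nat_lit 778466) (nat_lit 11) (.e (nat_lit 24632) (nat_lit 9) (.e (nat_lit 336358) (nat_lit 25) .nil)))) .nil))))) (.nd (nat_lit 4) (.nd (nat_lit 5) (.nd (nat_lit 6) 
(.lf (nat_lit 204047) (.g (nat_lit 1595) (.e (nat_lit 73776) (nat_lit 26) (.e (nat_lit 778362) (nat_lit 9) (.e (nat_lit 312) (nat_lit 23) (.e (nat_lit 352278) (nat_lit 11) .nil)))) .nil)) 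
(.lf (nat_lit 204111) (.g (nat_lit 1741) (.e (nat_lit 73776) (nat_lit 26) (.e (nat_lit 778465) (nat_lit 11) (.e (nat_lit 24656) (nat_lit 13) (.e (nat_lit 393249) (nat_lit 17) (.e (nat_lit 7936) (nat_lit 407) .nil))))) (.g (nat_lit 4) .nil .nil)))) (.nd (nat_lit 6) 
(.lf (nat_lit 204079) (.g (nat_lit 520) (.e (nat_lit 73776) (nat_lit 26) (.e (nat_lit 778465) (nat_lit 11) (.e (nat_lit 24625) (nat_lit 9) .nil))) .nil)) 
(.lf (nat_lit 204143) (.g (nat_lit 1937) (.e (nat_lit 73776) (nat_lit 26) (.e (nat_lit 778466) (nat_lit 11) (.e (nat_lit 24628) (nat_lit 9) (.e (nat_lit 336438) (nat_lit 31) (.e (nat_lit 466688) (nat_lit 5) .nil))))) (.g (nat_lit 4) .nil .nil))))) (.nd (nat_lit 5) (.nd (nat_lit 6) 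
(.lf (nat_lit 204063) (.g (nat_lit 1598) (.e (nat_lit 73776) (nat_lit 26) (.e (nat_lit 778455) (nat_lit 10) (.e (nat_lit 8363) (nat_lit 89) (.e (nat_lit 720956) (nat_lit 25) (.e (nat_lit 114716) (nat_lit 22) (.e (nat_lit 90181) (nat_lit 16) (.e (nat_lit 237312) (nat_lit 192) .nil))))))) (.g (nat_lit 6) .nil .nil))) 
(.lf (nat_lit 204127) (.g (nat_lit 1870) (.e (nat_lit 73776) (nat_lit 26) (.e (nat_lit 778465) (nat_lit 11) (.e (nat_lit 24665) (nat_lit 14) (.e (nat_lit 401472) (nat_lit 28) .nil)))) .nil))) (.nd (nat_lit 6) 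
(.lf (nat_lit 204095) (.g (nat_lit 545) (.e (nat_lit 73776) (nat_lit 26) (.e (nat_lit 778465) (nat_lit 11) (.e (nat_lit 24638) (nat_lit 9) .nil))) .nil)) 
(.lf (nat_lit 204159) (.g (nat_lit 1010) (.e (nat_lit 73776) (nat_lit 26) (.e (nat_lit 778466) (nat_lit 11) (.e (nat_lit 24638) (nat_lit 9) (.e (nat_lit 343808) (nat_lit 26) .nil)))) .nil)))))))))

noncomputable def tv2693 : DT := (.nd (nat_lit 0) (.nd (nat_lit 1) (.nd (nat_lit 2) (.nd (nat_lit 3) (.nd (nat_lit 4) (.nd (nat_lit 5) (.nd (nat_lit 6) 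
(.lf (nat_lit 204160) (.g (nat_lit 2770) (.e (nat_lit 73776) (nat_lit 26) (.e (nat_lit 778466) (nat_lit 11) (.e (nat_lit 24638) (nat_lit 9) (.e (nat_lit 336387) (nat_lit 27) (.e (nat_lit 426012) (nat_lit 0) (.e (nat_lit 7591) (nat_lit 407) .nil)))))) (.g (nat_lit 6) .nil .nil))) 
(.lf (nat_lit 204224) (.g (nat_lit 455) (.e (nat_lit 81664) (nat_lit 28) (.e (nat_lit 794635) (nat_lit 11) (.e (nat_lit 336118) (nat_lit 9) (.e (nat_lit 336437) (nat_lit 31) (.e (nat_lit 466688) (nat_lit 5) .nil))))) .nil))) (.nd (nat_lit 6) 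
(.lf (nat_lit 204192) (.g (nat_lit 357) (.e (nat_lit 81664) (nat_lit 26) (.e (nat_lit 778337) (nat_lit 9) (.e (nat_lit 311) (nat_lit 23) (.e (nat_lit 352257) (nat_lit 0) .nil)))) .nil)) 
(.lf (nat_lit 204256) (.g (nat_lit 988) (.e (nat_lit 81664) (nat_lit 28) (.e (nat_lit 794637) (nat_lit 11) (.e (nat_lit 336087) (nat_lit 9) (.e (nat_lit 336439) (nat_lit 31) (.e (nat_lit 466688) (nat_lit 5) .nil))))) .nil)))) (.nd (nat_lit 5) (.nd (nat_lit 6) 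
(.lf (nat_lit 204176) (.g (nat_lit 3033) (.e (nat_lit 73776) (nat_lit 26) (.e (nat_lit 778466) (nat_lit 11) (.e (nat_lit 24658) (nat_lit 13) (.e (nat_lit 393234) (nat_lit 17) (.e (nat_lit 7591) (nat_lit 407) .nil))))) (.g (nat_lit 0) .nil .nil))) 
(.lf (nat_lit 204240) (.g (nat_lit 1087) (.e (nat_lit 81664) (nat_lit 28) (.e (nat_lit 794636) (nat_lit 11) (.e (nat_lit 336086) (nat_lit 9) (.e (nat_lit 336438) (nat_lit 31) (.e (nat_lit 466688) (nat_lit 5) .nil))))) .nil))) (.nd (nat_lit 6) 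
(.lf (nat_lit 204208) (.g (nat_lit 1399) (.e (nat_lit 81664) (nat_lit 26) (.e (nat_lit 778462) (nat_lit 11) (.e (nat_lit 24658) (nat_lit 13) (.e (nat_lit 393232) (nat_lit 17) .nil)))) .nil)) 
(.lf (nat_lit 204272) (.g (nat_lit 859) (.e (nat_lit 81664) (nat_lit 28) (.e (nat_lit 794637) (nat_lit 11) (.e (nat_lit 336222) (nat_lit 13) (.e (nat_lit 393231) (nat_lit 17) .nil)))) .nil))))) (.nd (nat_lit 4) (.nd (nat_lit 5) (.nd (nat_lit 6) 
(.lf (nat_lit 204168) (.g (nat_lit 2418) (.e (nat_lit 73776) (nat_lit 26) (.e (nat_lit 778466) (nat_lit 11) (.e (nat_lit 24654) (nat_lit 13) (.e (nat_lit 393234) (nat_lit 17) (.e (nat_lit 7591) (nat_lit 407) .nil))))) (.g (nat_lit 0) .nil .nil))) 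
(.lf (nat_lit 204232) (.g (nat_lit 528) (.e (nat_lit 81664) (nat_lit 28) (.e (nat_lit 794635) (nat_lit 11) (.e (nat_lit 336153) (nat_lit 9) (.e (nat_lit 336435) (nat_lit 31) (.e (nat_lit 466688) (nat_lit 5) .nil))))) .nil))) (.nd (nat_lit 6) 
(.lf (nat_lit 204200) (.g (nat_lit 227) (.e (nat_lit 81664) (nat_lit 26) (.e (nat_lit 778339) (nat_lit 9) (.e (nat_lit 311) (nat_lit 23) .nil))) .nil)) 
(.lf (nat_lit 204264) (.g (nat_lit 1057) (.e (nat_lit 81664) (nat_lit 28) (.e (nat_lit 794637) (nat_lit 11) (.e (nat_lit 336213) (nat_lit 13) (.e (nat_lit 393249) (nat_lit 17) (.e (nat_lit 7936) (nat_lit 407) .nil))))) .nil)))) (.nd (nat_lit 5) (.nd (nat_lit 6) 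
(.lf (nat_lit 204184) (.g (nat_lit 390) (.e (nat_lit 81664) (nat_lit 26) (.e (nat_lit 778334) (nat_lit 9) (.e (nat_lit 311) (nat_lit 23) (.e (nat_lit 352257) (nat_lit 0) (.e (nat_lit 7079) (nat_lit 378) .nil))))) .nil)) 
(.lf (nat_lit 204248) (.g (nat_lit 979) (.e (nat_lit 81664) (nat_lit 28) (.e (nat_lit 794637) (nat_lit 11) (.e (nat_lit 336084) (nat_lit 9) (.e (nat_lit 336438) (nat_lit 31) (.e (nat_lit 466688) (nat_lit 5) .nil))))) .nil))) (.nd (nat_lit 6) 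
(.lf (nat_lit 204216) (.g (nat_lit 1691) (.e (nat_lit 81664) (nat_lit 27) (.e (nat_lit 786481) (nat_lit 30) (.e (nat_lit 360466) (nat_lit 3) (.e (nat_lit 516117) (nat_lit 1) (.e (nat_lit 164158) (nat_lit 152) .nil))))) .nil)) 
(.lf (nat_lit 204280) (.g (nat_lit 1134) (.e (nat_lit 81664) (nat_lit 29) (.e (nat_lit 802826) (nat_lit 11) (.e (nat_lit 336086) (nat_lit 9) (.e (nat_lit 336438) (nat_lit 31) (.e (nat_lit 466688) (nat_lit 5) .nil))))) .nil)))))) (.nd (nat_lit 3) (.nd (nat_lit 4) (.nd (nat_lit 5) (.nd (nat_lit 6) 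
(.lf (nat_lit 204164) (.g (nat_lit 669) (.e (nat_lit 73776) (nat_lit 26) (.e (nat_lit 778466) (nat_lit 11) (.e (nat_lit 24649) (nat_lit 12) .nil))) .nil)) 
(.lf (nat_lit 204228) (.g (nat_lit 597) (.e (nat_lit 81664) (nat_lit 28) (.e (nat_lit 794635) (nat_lit 11) (.e (nat_lit 336152) (nat_lit 9) (.e (nat_lit 336402) (nat_lit 27) (.e (nat_lit 425984) (nat_lit 0) .nil))))) .nil))) (.nd (nat_lit 6) 
(.lf (nat_lit 204196) (.g (nat_lit 385) (.e (nat_lit 81664) (nat_lit 26) (.e (nat_lit 778337) (nat_lit 9) (.e (nat_lit 311) (nat_lit 23) (.e (nat_lit 352276) (nat_lit 11) (.e (nat_lit 425987) (nat_lit 0) .nil))))) .nil)) 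
(.lf (nat_lit 204260) (.g (nat_lit 1353) (.e (nat_lit 81664) (nat_lit 28) (.e (nat_lit 794637) (nat_lit 11) (.e (nat_lit 336088) (nat_lit 9) (.e (nat_lit 336438) (nat_lit 31) (.e (nat_lit 466688) (nat_lit 5) .nil))))) .nil)))) (.nd (nat_lit 5) (.nd (nat_lit 6) 
(.lf (nat_lit 204180) (.g (nat_lit 2986) (.e (nat_lit 81664) (nat_lit 26) (.e (nat_lit 778327) (nat_lit 6) (.e (nat_lit 81956) (nat_lit 23) (.e (nat_lit 98333) (nat_lit 18) (.e (nat_lit 164151) (nat_lit 152) .nil))))) .nil)) 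
(.lf (nat_lit 204244) (.g (nat_lit 1233) (.e (nat_lit 81664) (nat_lit 28) (.e (nat_lit 794637) (nat_lit 11) (.e (nat_lit 336076) (nat_lit 9) (.e (nat_lit 336438) (nat_lit 31) (.e (nat_lit 466688) (nat_lit 5) .nil))))) .nil))) (.nd (nat_lit 6) 
(.lf (nat_lit 204212) (.g (nat_lit 379) (.e (nat_lit 81664) (nat_lit 27) (.e (nat_lit 786481) (nat_lit 30) (.e (nat_lit 360466) (nat_lit 3) .nil))) .nil)) 
(.lf (nat_lit 204276) (.g (nat_lit 2205) (.e (nat_lit 81664) (nat_lit 28) (.e (nat_lit 794637) (nat_lit 11) (.e (nat_lit 336223) (nat_lit 13) (.e (nat_lit 393240) (nat_lit 17) .nil)))) .nil))))) (.nd (nat_lit 4) (.nd (nat_lit 5) (.nd (nat_lit 6) 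
(.lf (nat_lit 204172) (.g (nat_lit 713) (.e (nat_lit 73776) (nat_lit 26) (.e (nat_lit 778466) (nat_lit 11) (.e (nat_lit 24656) (nat_lit 13) (.e (nat_lit 393230) (nat_lit 17) .nil)))) .nil)) 
(.lf (nat_lit 204236) (.g (nat_lit 626) (.e (nat_lit 81664) (nat_lit 28) (.e (nat_lit 794635) (nat_lit 11) (.e (nat_lit 336154) (nat_lit 9) (.e (nat_lit 336435) (nat_lit 31) (.e (nat_lit 466688) (nat_lit 5) .nil))))) .nil))) (.nd (nat_lit 6) 
(.lf (nat_lit 204204) (.g (nat_lit 171) (.e (nat_lit 81664) (nat_lit 26) (.e (nat_lit 778462) (nat_lit 11) (.e (nat_lit 24655) (nat_lit 13) .nil))) .nil)) 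
(.lf (nat_lit 204268) (.g (nat_lit 1086) (.e (nat_lit 81664) (nat_lit 28) (.e (nat_lit 794637) (nat_lit 11) (.e (nat_lit 336215) (nat_lit 13) (.e (nat_lit 393243) (nat_lit 17) .nil)))) .nil)))) (.nd (nat_lit 5) (.nd (nat_lit 6) 
(.lf (nat_lit 204188) (.g (nat_lit 382) (.e (nat_lit 81664) (nat_lit 26) (.e (nat_lit 778334) (nat_lit 9) (.e (nat_lit 311) (nat_lit 23) (.e (nat_lit 352276) (nat_lit 11) (.e (nat_lit 425989) (nat_lit 0) .nil))))) .nil)) 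
(.lf (nat_lit 204252) (.g (nat_lit 1150) (.e (nat_lit 81664) (nat_lit 28) (.e (nat_lit 794637) (nat_lit 11) (.e (nat_lit 336086) (nat_lit 9) (.e (nat_lit 336438) (nat_lit 31) (.e (nat_lit 466688) (nat_lit 5) .nil))))) .nil))) (.nd (nat_lit 6) 
(.lf (nat_lit 204220) (.g (nat_lit 1604) (.e (nat_lit 81664) (nat_lit 27) (.e (nat_lit 786481) (nat_lit 30) (.e (nat_lit 360466) (nat_lit 3) (.e (nat_lit 516120) (nat_lit 1) (.e (nat_lit 164147) (nat_lit 152) .nil))))) .nil)) 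
(.lf (nat_lit 204284) (.g (nat_lit 56) (.e (nat_lit 81664) (nat_lit 29) (.e (nat_lit 802828) (nat_lit 13) (.e (nat_lit 352274) (nat_lit 11) .nil))) .nil))))))) (.nd (nat_lit 2) (.nd (nat_lit 3) (.nd (nat_lit 4) (.nd (nat_lit 5) (.nd (nat_lit 6) 
(.lf (nat_lit 204162) (.g (nat_lit 2154) (.e (nat_lit 73776) (nat_lit 26) (.e (nat_lit 778466) (nat_lit 11) (.e (nat_lit 24648) (nat_lit 12) (.e (nat_lit 385038) (nat_lit 16) (.e (nat_lit 1011) (nat_lit 81) (.e (nat_lit 5410) (nat_lit 303) .nil)))))) (.g (nat_lit 4) .nil .nil))) 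
(.lf (nat_lit 204226) (.g (nat_lit 474) (.e (nat_lit 81664) (nat_lit 28) (.e (nat_lit 794635) (nat_lit 11) (.e (nat_lit 336121) (nat_lit 9) (.e (nat_lit 336437) (nat_lit 31) (.e (nat_lit 466688) (nat_lit 5) .nil))))) .nil))) (.nd (nat_lit 6) 
(.lf (nat_lit 204194) (.g (nat_lit 356) (.e (nat_lit 81664) (nat_lit 26) (.e (nat_lit 778337) (nat_lit 9) (.e (nat_lit 311) (nat_lit 23) (.e (nat_lit 352276) (nat_lit 11) .nil)))) .nil)) 
(.lf (nat_lit 204258) (.g (nat_lit 866) (.e (nat_lit 81664) (nat_lit 28) (.e (nat_lit 794637) (nat_lit 11) (.e (nat_lit 336088) (nat_lit 9) (.e (nat_lit 336414) (nat_lit 27) .nil)))) .nil)))) (.nd (nat_lit 5) (.nd (nat_lit 6) 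
(.lf (nat_lit 204178) (.g (nat_lit 1832) (.e (nat_lit 73776) (nat_lit 26) (.e (nat_lit 778466) (nat_lit 11) (.e (nat_lit 24658) (nat_lit 13) (.e (nat_lit 393249) (nat_lit 17) (.e (nat_lit 7936) (nat_lit 407) .nil))))) (.g (nat_lit 4) .nil .nil))) 
(.lf (nat_lit 204242) (.g (nat_lit 1602) (.e (nat_lit 81664) (nat_lit 28) (.e (nat_lit 794636) (nat_lit 11) (.e (nat_lit 336213) (nat_lit 13) (.e (nat_lit 393234) (nat_lit 17) .nil)))) .nil))) (.nd (nat_lit 6) 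
(.lf (nat_lit 204210) (.g (nat_lit 1767) (.e (nat_lit 81664) (nat_lit 26) (.e (nat_lit 778467) (nat_lit 11) (.e (nat_lit 24658) (nat_lit 13) (.e (nat_lit 393234) (nat_lit 17) .nil)))) .nil)) 
(.lf (nat_lit 204274) (.g (nat_lit 1079) (.e (nat_lit 81664) (nat_lit 28) (.e (nat_lit 794637) (nat_lit 11) (.e (nat_lit 336223) (nat_lit 13) (.e (nat_lit 393231) (nat_lit 17) .nil)))) .nil))))) (.nd (nat_lit 4) (.nd (nat_lit 5) (.nd (nat_lit 6) 
(.lf (nat_lit 204170) (.g (nat_lit 1477) (.e (nat_lit 73776) (nat_lit 26) (.e (nat_lit 778466) (nat_lit 11) (.e (nat_lit 24655) (nat_lit 13) (.e (nat_lit 393237) (nat_lit 17) (.e (nat_lit 7936) (nat_lit 407) .nil))))) .nil)) 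
(.lf (nat_lit 204234) (.g (nat_lit 610) (.e (nat_lit 81664) (nat_lit 28) (.e (nat_lit 794635) (nat_lit 11) (.e (nat_lit 336154) (nat_lit 9) (.e (nat_lit 336402) (nat_lit 27) (.e (nat_lit 425984) (nat_lit 0) .nil))))) .nil))) (.nd (nat_lit 6) 
(.lf (nat_lit 204202) (.g (nat_lit 1208) (.e (nat_lit 81664) (nat_lit 26) (.e (nat_lit 778461) (nat_lit 11) (.e (nat_lit 24655) (nat_lit 13) (.e (nat_lit 393232) (nat_lit 17) .nil)))) .nil)) 
(.lf (nat_lit 204266) (.g (nat_lit 1066) (.e (nat_lit 81664) (nat_lit 28) (.e (nat_lit 794637) (nat_lit 11) (.e (nat_lit 336215) (nat_lit 13) (.e (nat_lit 393239) (nat_lit 17) .nil)))) .nil)))) (.nd (nat_lit 5) (.nd (nat_lit 6) 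
(.lf (nat_lit 204186) (.g (nat_lit 383) (.e (nat_lit 81664) (nat_lit 26) (.e (nat_lit 778334) (nat_lit 9) (.e (nat_lit 311) (nat_lit 23) (.e (nat_lit 352276) (nat_lit 11) (.e (nat_lit 425984) (nat_lit 0) .nil))))) .nil)) 
(.lf (nat_lit 204250) (.g (nat_lit 1170) (.e (nat_lit 81664) (nat_lit 28) (.e (nat_lit 794637) (nat_lit 11) (.e (nat_lit 336085) (nat_lit 9) (.e (nat_lit 336438) (nat_lit 31) (.e (nat_lit 466688) (nat_lit 5) .nil))))) .nil))) (.nd (nat_lit 6) 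
(.lf (nat_lit 204218) (.g (nat_lit 1728) (.e (nat_lit 81664) (nat_lit 27) (.e (nat_lit 786481) (nat_lit 30) (.e (nat_lit 360466) (nat_lit 3) (.e (nat_lit 516119) (nat_lit 1) (.e (nat_lit 164150) (nat_lit 152) .nil))))) .nil)) 
(.lf (nat_lit 204282) (.g (nat_lit 746) (.e (nat_lit 81664) (nat_lit 29) (.e (nat_lit 802826) (nat_lit 11) (.e (nat_lit 336222) (nat_lit 13) (.e (nat_lit 393232) (nat_lit 17) .nil)))) .nil)))))) (.nd (nat_lit 3) (.nd (nat_lit 4) (.nd (nat_lit 5) (.nd (nat_lit 6) 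
(.lf (nat_lit 204166) (.g (nat_lit 1424) (.e (nat_lit 73776) (nat_lit 26) (.e (nat_lit 778466) (nat_lit 11) (.e (nat_lit 24651) (nat_lit 12) (.e (nat_lit 385039) (nat_lit 18) .nil)))) .nil)) 
(.lf (nat_lit 204230) (.g (nat_lit 626) (.e (nat_lit 81664) (nat_lit 28) (.e (nat_lit 794635) (nat_lit 11) (.e (nat_lit 336152) (nat_lit 9) (.e (nat_lit 336435) (nat_lit 31) (.e (nat_lit 466688) (nat_lit 5) .nil))))) .nil))) (.nd (nat_lit 6) 
(.lf (nat_lit 204198) (.g (nat_lit 365) (.e (nat_lit 81664) (nat_lit 26) (.e (nat_lit 778337) (nat_lit 9) (.e (nat_lit 311) (nat_lit 23) (.e (nat_lit 360192) (nat_lit 12) .nil)))) .nil)) 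
(.lf (nat_lit 204262) (.g (nat_lit 256) (.e (nat_lit 81664) (nat_lit 28) (.e (nat_lit 794637) (nat_lit 11) (.e (nat_lit 336213) (nat_lit 13) .nil))) .nil)))) (.nd (nat_lit 5) (.nd (nat_lit 6) 
(.lf (nat_lit 204182) (.g (nat_lit 350) (.e (nat_lit 81664) (nat_lit 26) (.e (nat_lit 778334) (nat_lit 9) (.e (nat_lit 311) (nat_lit 23) (.e (nat_lit 352257) (nat_lit 0) .nil)))) .nil)) 
(.lf (nat_lit 204246) (.g (nat_lit 1191) (.e (nat_lit 81664) (nat_lit 28) (.e (nat_lit 794637) (nat_lit 11) (.e (nat_lit 336078) (nat_lit 9) (.e (nat_lit 336421) (nat_lit 28) (.e (nat_lit 442112) (nat_lit 5) .nil))))) .nil))) (.nd (nat_lit 6) 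
(.lf (nat_lit 204214) (.g (nat_lit 865) (.e (nat_lit 81664) (nat_lit 27) (.e (nat_lit 786481) (nat_lit 30) (.e (nat_lit 360466) (nat_lit 3) (.e (nat_lit 516117) (nat_lit 1) .nil)))) .nil)) 
(.lf (nat_lit 204278) (.g (nat_lit 870) (.e (nat_lit 81664) (nat_lit 29) (.e (nat_lit 802826) (nat_lit 11) (.e (nat_lit 336077) (nat_lit 9) (.e (nat_lit 336438) (nat_lit 31) (.e (nat_lit 466688) (nat_lit 5) .nil))))) .nil))))) (.nd (nat_lit 4) (.nd (nat_lit 5) (.nd (nat_lit 6) 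
(.lf (nat_lit 204174) (.g (nat_lit 293) (.e (nat_lit 73776) (nat_lit 26) (.e (nat_lit 778466) (nat_lit 11) (.e (nat_lit 24658) (nat_lit 13) .nil))) .nil)) 
(.lf (nat_lit 204238) (.g (nat_lit 355) (.e (nat_lit 81664) (nat_lit 28) (.e (nat_lit 794635) (nat_lit 11) (.e (nat_lit 336154) (nat_lit 9) (.e (nat_lit 343808) (nat_lit 31) .nil)))) .nil))) (.nd (nat_lit 6) 
(.lf (nat_lit 204206) (.g (nat_lit 942) (.e (nat_lit 81664) (nat_lit 26) (.e (nat_lit 778462) (nat_lit 11) (.e (nat_lit 24655) (nat_lit 13) (.e (nat_lit 393249) (nat_lit 17) (.e (nat_lit 7936) (nat_lit 407) .nil))))) .nil)) 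
(.lf (nat_lit 204270) (.g (nat_lit 873) (.e (nat_lit 81664) (nat_lit 28) (.e (nat_lit 794637) (nat_lit 11) (.e (nat_lit 336215) (nat_lit 13) (.e (nat_lit 401152) (nat_lit 17) .nil)))) .nil)))) (.nd (nat_lit 5) (.nd (nat_lit 6) 
(.lf (nat_lit 204190) (.g (nat_lit 337) (.e (nat_lit 81664) (nat_lit 26) (.e (nat_lit 778334) (nat_lit 9) (.e (nat_lit 311) (nat_lit 23) (.e (nat_lit 360192) (nat_lit 15) .nil)))) .nil)) 
(.lf (nat_lit 204254) (.g (nat_lit 960) (.e (nat_lit 81664) (nat_lit 28) (.e (nat_lit 794637) (nat_lit 11) (.e (nat_lit 336087) (nat_lit 9) (.e (nat_lit 336436) (nat_lit 31) (.e (nat_lit 466688) (nat_lit 5) .nil))))) .nil))) (.nd (nat_lit 6) 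
(.lf (nat_lit 204222) (.g (nat_lit 1789) (.e (nat_lit 81664) (nat_lit 27) (.e (nat_lit 786481) (nat_lit 30) (.e (nat_lit 360466) (nat_lit 3) (.e (nat_lit 516120) (nat_lit 1) (.e (nat_lit 164159) (nat_lit 152) .nil))))) .nil)) 
(.lf (nat_lit 204286) (.g (nat_lit 30) (.e (nat_lit 81664) (nat_lit 29) (.e (nat_lit 802828) (nat_lit 13) (.e (nat_lit 360192) (nat_lit 15) .nil))) .nil)))))))) (.nd (nat_lit 1) (.nd (nat_lit 2) (.nd (nat_lit 3) (.nd (nat_lit 4) (.nd (nat_lit 5) (.nd (nat_lit 6) 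
(.lf (nat_lit 204161) (.g (nat_lit 512) (.e (nat_lit 73776) (nat_lit 26) (.e (nat_lit 778466) (nat_lit 11) (.e (nat_lit 24648) (nat_lit 12) .nil))) .nil)) 
(.lf (nat_lit 204225) (.g (nat_lit 505) (.e (nat_lit 81664) (nat_lit 28) (.e (nat_lit 794635) (nat_lit 11) (.e (nat_lit 336119) (nat_lit 9) (.e (nat_lit 336437) (nat_lit 31) (.e (nat_lit 466688) (nat_lit 5) .nil))))) .nil))) (.nd (nat_lit 6) 
(.lf (nat_lit 204193) (.g (nat_lit 396) (.e (nat_lit 81664) (nat_lit 26) (.e (nat_lit 778337) (nat_lit 9) (.e (nat_lit 311) (nat_lit 23) (.e (nat_lit 352257) (nat_lit 0) (.e (nat_lit 7079) (nat_lit 378) .nil))))) .nil)) 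
(.lf (nat_lit 204257) (.g (nat_lit 244) (.e (nat_lit 81664) (nat_lit 28) (.e (nat_lit 794637) (nat_lit 11) (.e (nat_lit 336088) (nat_lit 9) .nil))) .nil)))) (.nd (nat_lit 5) (.nd (nat_lit 6) 
(.lf (nat_lit 204177) (.g (nat_lit 1595) (.e (nat_lit 73776) (nat_lit 26) (.e (nat_lit 778466) (nat_lit 11) (.e (nat_lit 24658) (nat_lit 13) (.e (nat_lit 393237) (nat_lit 17) .nil)))) .nil)) 
(.lf (nat_lit 204241) (.g (nat_lit 1232) (.e (nat_lit 81664) (nat_lit 28) (.e (nat_lit 794636) (nat_lit 11) (.e (nat_lit 336088) (nat_lit 9) (.e (nat_lit 336438) (nat_lit 31) (.e (nat_lit 466688) (nat_lit 5) .nil))))) .nil))) (.nd (nat_lit 6) 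
(.lf (nat_lit 204209) (.g (nat_lit 722) (.e (nat_lit 81664) (nat_lit 26) (.e (nat_lit 778462) (nat_lit 11) (.e (nat_lit 24658) (nat_lit 13) (.e (nat_lit 393249) (nat_lit 17) (.e (nat_lit 7936) (nat_lit 407) .nil))))) .nil)) 
(.lf (nat_lit 204273) (.g (nat_lit 995) (.e (nat_lit 81664) (nat_lit 28) (.e (nat_lit 794637) (nat_lit 11) (.e (nat_lit 336222) (nat_lit 13) (.e (nat_lit 393247) (nat_lit 17) .nil)))) .nil))))) (.nd (nat_lit 4) (.nd (nat_lit 5) (.nd (nat_lit 6) 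
(.lf (nat_lit 204169) (.g (nat_lit 2636) (.e (nat_lit 73776) (nat_lit 26) (.e (nat_lit 778466) (nat_lit 11) (.e (nat_lit 24655) (nat_lit 13) (.e (nat_lit 393234) (nat_lit 17) (.e (nat_lit 7591) (nat_lit 407) .nil))))) (.g (nat_lit 0) .nil .nil))) 
(.lf (nat_lit 204233) (.g (nat_lit 497) (.e (nat_lit 81664) (nat_lit 28) (.e (nat_lit 794635) (nat_lit 11) (.e (nat_lit 336153) (nat_lit 9) (.e (nat_lit 336437) (nat_lit 31) (.e (nat_lit 466688) (nat_lit 5) .nil))))) .nil))) (.nd (nat_lit 6) 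
(.lf (nat_lit 204201) (.g (nat_lit 939) (.e (nat_lit 81664) (nat_lit 26) (.e (nat_lit 778460) (nat_lit 11) (.e (nat_lit 24658) (nat_lit 13) (.e (nat_lit 393234) (nat_lit 17) .nil)))) .nil)) 
(.lf (nat_lit 204265) (.g (nat_lit 659) (.e (nat_lit 81664) (nat_lit 28) (.e (nat_lit 794637) (nat_lit 11) (.e (nat_lit 336214) (nat_lit 13) (.e (nat_lit 393231) (nat_lit 17) .nil)))) .nil)))) (.nd (nat_lit 5) (.nd (nat_lit 6) 
(.lf (nat_lit 204185) (.g (nat_lit 350) (.e (nat_lit 81664) (nat_lit 26) (.e (nat_lit 778334) (nat_lit 9) (.e (nat_lit 311) (nat_lit 23) (.e (nat_lit 352276) (nat_lit 11) .nil)))) .nil)) 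
(.lf (nat_lit 204249) (.g (nat_lit 965) (.e (nat_lit 81664) (nat_lit 28) (.e (nat_lit 794637) (nat_lit 11) (.e (nat_lit 336085) (nat_lit 9) (.e (nat_lit 336421) (nat_lit 28) (.e (nat_lit 442112) (nat_lit 5) .nil))))) .nil))) (.nd (nat_lit 6) 
(.lf (nat_lit 204217) (.g (nat_lit 1766) (.e (nat_lit 81664) (nat_lit 27) (.e (nat_lit 786481) (nat_lit 30) (.e (nat_lit 360466) (nat_lit 3) (.e (nat_lit 516119) (nat_lit 1) (.e (nat_lit 164147) (nat_lit 152) .nil))))) .nil)) 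
(.lf (nat_lit 204281) (.g (nat_lit 1600) (.e (nat_lit 81664) (nat_lit 29) (.e (nat_lit 802826) (nat_lit 11) (.e (nat_lit 336213) (nat_lit 13) (.e (nat_lit 393234) (nat_lit 17) .nil)))) .nil)))))) (.nd (nat_lit 3) (.nd (nat_lit 4) (.nd (nat_lit 5) (.nd (nat_lit 6) 
(.lf (nat_lit 204165) (.g (nat_lit 2546) (.e (nat_lit 73776) (nat_lit 26) (.e (nat_lit 778466) (nat_lit 11) (.e (nat_lit 24651) (nat_lit 12) (.e (nat_lit 385038) (nat_lit 16) (.e (nat_lit 1011) (nat_lit 81) (.e (nat_lit 5410) (nat_lit 303) .nil)))))) (.g (nat_lit 6) .nil .nil))) 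
(.lf (nat_lit 204229) (.g (nat_lit 551) (.e (nat_lit 81664) (nat_lit 28) (.e (nat_lit 794635) (nat_lit 11) (.e (nat_lit 336152) (nat_lit 9) (.e (nat_lit 336407) (nat_lit 27) (.e (nat_lit 426012) (nat_lit 0) .nil))))) .nil))) (.nd (nat_lit 6) 
(.lf (nat_lit 204197) (.g (nat_lit 384) (.e (nat_lit 81664) (nat_lit 26) (.e (nat_lit 778337) (nat_lit 9) (.e (nat_lit 311) (nat_lit 23) (.e (nat_lit 352276) (nat_lit 11) (.e (nat_lit 425989) (nat_lit 0) .nil))))) .nil)) 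
(.lf (nat_lit 204261) (.g (nat_lit 892) (.e (nat_lit 81664) (nat_lit 28) (.e (nat_lit 794637) (nat_lit 11) (.e (nat_lit 336088) (nat_lit 9) (.e (nat_lit 336439) (nat_lit 31) .nil)))) .nil)))) (.nd (nat_lit 5) (.nd (nat_lit 6) 
(.lf (nat_lit 204181) (.g (nat_lit 254) (.e (nat_lit 81664) (nat_lit 26) (.e (nat_lit 778334) (nat_lit 9) (.e (nat_lit 311) (nat_lit 23) .nil))) .nil)) 
(.lf (nat_lit 204245) (.g (nat_lit 1152) (.e (nat_lit 81664) (nat_lit 28) (.e (nat_lit 794637) (nat_lit 11) (.e (nat_lit 336077) (nat_lit 9) (.e (nat_lit 336438) (nat_lit 31) (.e (nat_lit 466688) (nat_lit 5) .nil))))) .nil))) (.nd (nat_lit 6) 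
(.lf (nat_lit 204213) (.g (nat_lit 2099) (.e (nat_lit 81664) (nat_lit 27) (.e (nat_lit 786481) (nat_lit 30) (.e (nat_lit 360466) (nat_lit 3) (.e (nat_lit 516115) (nat_lit 1) (.e (nat_lit 164150) (nat_lit 152) .nil))))) .nil)) 
(.lf (nat_lit 204277) (.g (nat_lit 1075) (.e (nat_lit 81664) (nat_lit 28) (.e (nat_lit 794637) (nat_lit 11) (.e (nat_lit 336223) (nat_lit 13) (.e (nat_lit 393249) (nat_lit 17) (.e (nat_lit 7936) (nat_lit 407) .nil))))) .nil))))) (.nd (nat_lit 4) (.nd (nat_lit 5) (.nd (nat_lit 6) 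
(.lf (nat_lit 204173) (.g (nat_lit 1575) (.e (nat_lit 73776) (nat_lit 26) (.e (nat_lit 778466) (nat_lit 11) (.e (nat_lit 24656) (nat_lit 13) (.e (nat_lit 393249) (nat_lit 17) (.e (nat_lit 7936) (nat_lit 407) .nil))))) (.g (nat_lit 4) .nil .nil))) 
(.lf (nat_lit 204237) (.g (nat_lit 516) (.e (nat_lit 81664) (nat_lit 28) (.e (nat_lit 794635) (nat_lit 11) (.e (nat_lit 336154) (nat_lit 9) (.e (nat_lit 336437) (nat_lit 31) (.e (nat_lit 466688) (nat_lit 5) .nil))))) .nil))) (.nd (nat_lit 6) 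
(.lf (nat_lit 204205) (.g (nat_lit 1503) (.e (nat_lit 81664) (nat_lit 26) (.e (nat_lit 778462) (nat_lit 11) (.e (nat_lit 24655) (nat_lit 13) (.e (nat_lit 393234) (nat_lit 17) .nil)))) .nil)) 
(.lf (nat_lit 204269) (.g (nat_lit 876) (.e (nat_lit 81664) (nat_lit 28) (.e (nat_lit 794637) (nat_lit 11) (.e (nat_lit 336215) (nat_lit 13) (.e (nat_lit 393249) (nat_lit 17) (.e (nat_lit 7936) (nat_lit 407) .nil))))) .nil)))) (.nd (nat_lit 5) (.nd (nat_lit 6) 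
(.lf (nat_lit 204189) (.g (nat_lit 337) (.e (nat_lit 81664) (nat_lit 26) (.e (nat_lit 778334) (nat_lit 9) (.e (nat_lit 311) (nat_lit 23) (.e (nat_lit 360192) (nat_lit 12) .nil)))) .nil)) 
(.lf (nat_lit 204253) (.g (nat_lit 206) (.e (nat_lit 81664) (nat_lit 28) (.e (nat_lit 794637) (nat_lit 11) (.e (nat_lit 336087) (nat_lit 9) .nil))) .nil))) (.nd (nat_lit 6) 
(.lf (nat_lit 204221) (.g (nat_lit 1555) (.e (nat_lit 81664) (nat_lit 27) (.e (nat_lit 786481) (nat_lit 30) (.e (nat_lit 360466) (nat_lit 3) (.e (nat_lit 516120) (nat_lit 1) (.e (nat_lit 164158) (nat_lit 152) .nil))))) .nil)) 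
(.lf (nat_lit 204285) (.g (nat_lit 338) (.e (nat_lit 81664) (nat_lit 29) (.e (nat_lit 802828) (nat_lit 13) (.e (nat_lit 352274) (nat_lit 11) (.e (nat_lit 426035) (nat_lit 0) (.e (nat_lit 7936) (nat_lit 407) .nil))))) .nil))))))) (.nd (nat_lit 2) (.nd (nat_lit 3) (.nd (nat_lit 4) (.nd (nat_lit 5) (.nd (nat_lit 6) 
(.lf (nat_lit 204163) (.g (nat_lit 1566) (.e (nat_lit 73776) (nat_lit 26) (.e (nat_lit 778466) (nat_lit 11) (.e (nat_lit 24648) (nat_lit 12) (.e (nat_lit 385039) (nat_lit 18) (.e (nat_lit 123214) (nat_lit 275) .nil))))) .nil)) 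
(.lf (nat_lit 204227) (.g (nat_lit 452) (.e (nat_lit 81664) (nat_lit 28) (.e (nat_lit 794635) (nat_lit 11) (.e (nat_lit 336151) (nat_lit 9) (.e (nat_lit 336435) (nat_lit 31) (.e (nat_lit 466688) (nat_lit 5) .nil))))) .nil))) (.nd (nat_lit 6) 
(.lf (nat_lit 204195) (.g (nat_lit 393) (.e (nat_lit 81664) (nat_lit 26) (.e (nat_lit 778337) (nat_lit 9) (.e (nat_lit 311) (nat_lit 23) (.e (nat_lit 352276) (nat_lit 11) (.e (nat_lit 425984) (nat_lit 0) .nil))))) .nil)) 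
(.lf (nat_lit 204259) (.g (nat_lit 1503) (.e (nat_lit 81664) (nat_lit 28) (.e (nat_lit 794637) (nat_lit 11) (.e (nat_lit 336088) (nat_lit 9) (.e (nat_lit 336421) (nat_lit 28) (.e (nat_lit 442112) (nat_lit 5) .nil))))) .nil)))) (.nd (nat_lit 5) (.nd (nat_lit 6) 
(.lf (nat_lit 204179) (.g (nat_lit 1591) (.e (nat_lit 73776) (nat_lit 26) (.e (nat_lit 778466) (nat_lit 11) (.e (nat_lit 24662) (nat_lit 14) (.e (nat_lit 409344) (nat_lit 25) .nil)))) .nil)) 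
(.lf (nat_lit 204243) (.g (nat_lit 1352) (.e (nat_lit 81664) (nat_lit 28) (.e (nat_lit 794637) (nat_lit 11) (.e (nat_lit 336075) (nat_lit 9) (.e (nat_lit 336438) (nat_lit 31) (.e (nat_lit 466688) (nat_lit 5) .nil))))) .nil))) (.nd (nat_lit 6) 
(.lf (nat_lit 204211) (.g (nat_lit 604) (.e (nat_lit 81664) (nat_lit 26) (.e (nat_lit 778469) (nat_lit 11) (.e (nat_lit 24660) (nat_lit 13) (.e (nat_lit 393232) (nat_lit 17) .nil)))) .nil)) 
(.lf (nat_lit 204275) (.g (nat_lit 1795) (.e (nat_lit 81664) (nat_lit 28) (.e (nat_lit 794637) (nat_lit 11) (.e (nat_lit 336223) (nat_lit 13) (.e (nat_lit 393237) (nat_lit 17) .nil)))) .nil))))) (.nd (nat_lit 4) (.nd (nat_lit 5) (.nd (nat_lit 6) 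
(.lf (nat_lit 204171) (.g (nat_lit 1945) (.e (nat_lit 73776) (nat_lit 26) (.e (nat_lit 778466) (nat_lit 11) (.e (nat_lit 24655) (nat_lit 13) (.e (nat_lit 393249) (nat_lit 17) (.e (nat_lit 7936) (nat_lit 407) .nil))))) (.g (nat_lit 4) .nil .nil))) 
(.lf (nat_lit 204235) (.g (nat_lit 520) (.e (nat_lit 81664) (nat_lit 28) (.e (nat_lit 794635) (nat_lit 11) (.e (nat_lit 336154) (nat_lit 9) (.e (nat_lit 336420) (nat_lit 28) (.e (nat_lit 442112) (nat_lit 5) .nil))))) .nil))) (.nd (nat_lit 6) 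
(.lf (nat_lit 204203) (.g (nat_lit 1228) (.e (nat_lit 81664) (nat_lit 26) (.e (nat_lit 778461) (nat_lit 11) (.e (nat_lit 24655) (nat_lit 13) (.e (nat_lit 393234) (nat_lit 17) .nil)))) .nil)) 
(.lf (nat_lit 204267) (.g (nat_lit 1152) (.e (nat_lit 81664) (nat_lit 28) (.e (nat_lit 794637) (nat_lit 11) (.e (nat_lit 336215) (nat_lit 13) (.e (nat_lit 393242) (nat_lit 17) (.e (nat_lit 7936) (nat_lit 407) .nil))))) .nil)))) (.nd (nat_lit 5) (.nd (nat_lit 6) 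
(.lf (nat_lit 204187) (.g (nat_lit 379) (.e (nat_lit 81664) (nat_lit 26) (.e (nat_lit 778334) (nat_lit 9) (.e (nat_lit 311) (nat_lit 23) (.e (nat_lit 352276) (nat_lit 11) (.e (nat_lit 425987) (nat_lit 0) .nil))))) .nil)) 
(.lf (nat_lit 204251) (.g (nat_lit 1093) (.e (nat_lit 81664) (nat_lit 28) (.e (nat_lit 794637) (nat_lit 11) (.e (nat_lit 336086) (nat_lit 9) (.e (nat_lit 336421) (nat_lit 28) (.e (nat_lit 442112) (nat_lit 5) .nil))))) .nil))) (.nd (nat_lit 6) 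
(.lf (nat_lit 204219) (.g (nat_lit 1763) (.e (nat_lit 81664) (nat_lit 27) (.e (nat_lit 786481) (nat_lit 30) (.e (nat_lit 360466) (nat_lit 3) (.e (nat_lit 516119) (nat_lit 1) (.e (nat_lit 164151) (nat_lit 152) .nil))))) .nil)) 
(.lf (nat_lit 204283) (.g (nat_lit 506) (.e (nat_lit 81664) (nat_lit 29) (.e (nat_lit 802828) (nat_lit 13) (.e (nat_lit 352273) (nat_lit 11) (.e (nat_lit 426035) (nat_lit 0) (.e (nat_lit 7936) (nat_lit 407) .nil))))) .nil)))))) (.nd (nat_lit 3) (.nd (nat_lit 4) (.nd (nat_lit 5) (.nd (nat_lit 6) 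
(.lf (nat_lit 204167) (.g (nat_lit 2016) (.e (nat_lit 73776) (nat_lit 26) (.e (nat_lit 778466) (nat_lit 11) (.e (nat_lit 24654) (nat_lit 13) (.e (nat_lit 393233) (nat_lit 17) (.e (nat_lit 7591) (nat_lit 407) .nil))))) (.g (nat_lit 5) .nil .nil))) 
(.lf (nat_lit 204231) (.g (nat_lit 433) (.e (nat_lit 81664) (nat_lit 28) (.e (nat_lit 794635) (nat_lit 11) (.e (nat_lit 336152) (nat_lit 9) (.e (nat_lit 336437) (nat_lit 31) (.e (nat_lit 466688) (nat_lit 5) .nil))))) .nil))) (.nd (nat_lit 6) 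
(.lf (nat_lit 204199) (.g (nat_lit 365) (.e (nat_lit 81664) (nat_lit 26) (.e (nat_lit 778337) (nat_lit 9) (.e (nat_lit 311) (nat_lit 23) (.e (nat_lit 360192) (nat_lit 15) .nil)))) .nil)) 
(.lf (nat_lit 204263) (.g (nat_lit 1214) (.e (nat_lit 81664) (nat_lit 28) (.e (nat_lit 794637) (nat_lit 11) (.e (nat_lit 336213) (nat_lit 13) (.e (nat_lit 393237) (nat_lit 17) .nil)))) .nil)))) (.nd (nat_lit 5) (.nd (nat_lit 6) 
(.lf (nat_lit 204183) (.g (nat_lit 389) (.e (nat_lit 81664) (nat_lit 26) (.e (nat_lit 778334) (nat_lit 9) (.e (nat_lit 311) (nat_lit 23) (.e (nat_lit 352257) (nat_lit 0) (.e (nat_lit 7077) (nat_lit 378) .nil))))) .nil)) 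
(.lf (nat_lit 204247) (.g (nat_lit 1063) (.e (nat_lit 81664) (nat_lit 28) (.e (nat_lit 794637) (nat_lit 11) (.e (nat_lit 336078) (nat_lit 9) (.e (nat_lit 336438) (nat_lit 31) (.e (nat_lit 466688) (nat_lit 5) .nil))))) .nil))) (.nd (nat_lit 6) 
(.lf (nat_lit 204215) (.g (nat_lit 1487) (.e (nat_lit 81664) (nat_lit 27) (.e (nat_lit 786481) (nat_lit 30) (.e (nat_lit 360466) (nat_lit 3) (.e (nat_lit 516117) (nat_lit 1) (.e (nat_lit 164147) (nat_lit 152) .nil))))) .nil)) 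
(.lf (nat_lit 204279) (.g (nat_lit 993) (.e (nat_lit 81664) (nat_lit 29) (.e (nat_lit 802826) (nat_lit 11) (.e (nat_lit 336086) (nat_lit 9) (.e (nat_lit 336421) (nat_lit 28) (.e (nat_lit 442112) (nat_lit 5) .nil))))) .nil))))) (.nd (nat_lit 4) (.nd (nat_lit 5) (.nd (nat_lit 6) 
(.lf (nat_lit 204175) (.g (nat_lit 2480) (.e (nat_lit 73776) (nat_lit 26) (.e (nat_lit 778466) (nat_lit 11) (.e (nat_lit 24658) (nat_lit 13) (.e (nat_lit 393233) (nat_lit 17) (.e (nat_lit 7591) (nat_lit 407) .nil))))) (.g (nat_lit 0) .nil .nil))) 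
(.lf (nat_lit 204239) (.g (nat_lit 1039) (.e (nat_lit 81664) (nat_lit 28) (.e (nat_lit 794636) (nat_lit 11) (.e (nat_lit 336086) (nat_lit 9) (.e (nat_lit 336421) (nat_lit 28) (.e (nat_lit 442112) (nat_lit 5) .nil))))) .nil))) (.nd (nat_lit 6) 
(.lf (nat_lit 204207) (.g (nat_lit 1432) (.e (nat_lit 81664) (nat_lit 26) (.e (nat_lit 778462) (nat_lit 11) (.e (nat_lit 24658) (nat_lit 13) (.e (nat_lit 393231) (nat_lit 17) (.e (nat_lit 7591) (nat_lit 407) .nil))))) .nil)) 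
(.lf (nat_lit 204271) (.g (nat_lit 764) (.e (nat_lit 81664) (nat_lit 28) (.e (nat_lit 794637) (nat_lit 11) (.e (nat_lit 336220) (nat_lit 13) (.e (nat_lit 393231) (nat_lit 17) .nil)))) .nil)))) (.nd (nat_lit 5) (.nd (nat_lit 6) 
(.lf (nat_lit 204191) (.g (nat_lit 247) (.e (nat_lit 81664) (nat_lit 26) (.e (nat_lit 778337) (nat_lit 9) (.e (nat_lit 311) (nat_lit 23) .nil))) .nil)) 
(.lf (nat_lit 204255) (.g (nat_lit 1308) (.e (nat_lit 81664) (nat_lit 28) (.e (nat_lit 794637) (nat_lit 11) (.e (nat_lit 336087) (nat_lit 9) (.e (nat_lit 336438) (nat_lit 31) (.e (nat_lit 466688) (nat_lit 5) .nil))))) .nil))) (.nd (nat_lit 6) 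
(.lf (nat_lit 204223) (.g (nat_lit 2632) (.e (nat_lit 81664) (nat_lit 27) (.e (nat_lit 786481) (nat_lit 30) (.e (nat_lit 360467) (nat_lit 3) (.e (nat_lit 516115) (nat_lit 1) (.e (nat_lit 164161) (nat_lit 152) .nil))))) .nil)) 
(.lf (nat_lit 204287) (.g (nat_lit 834) (.e (nat_lit 81664) (nat_lit 29) (.e (nat_lit 802828) (nat_lit 13) (.e (nat_lit 352322) (nat_lit 26) (.e (nat_lit 147489) (nat_lit 10) (.e (nat_lit 16128) (nat_lit 255) .nil))))) .nil)))))))))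

noncomputable def tv2694 : DT := (.nd (nat_lit 0) (.nd (nat_lit 1) (.nd (nat_lit 2) (.nd (nat_lit 3) (.nd (nat_lit 4) (.nd (nat_lit 5) 
(.lf (nat_lit 204288) (.g (nat_lit 835) (.e (nat_lit 81664) (nat_lit 29) (.e (nat_lit 802828) (nat_lit 13) (.e (nat_lit 352322) (nat_lit 26) (.e (nat_lit 147491) (nat_lit 10) (.e (nat_lit 16128) (nat_lit 255) .nil))))) .nil)) 
(.lf (nat_lit 204320) (.g (nat_lit 1954) (.e (nat_lit 73779) (nat_lit 32) (.e (nat_lit 2940) (nat_lit 184) (.e (nat_lit 426541) (nat_lit 29) (.e (nat_lit 352309) (nat_lit 21) (.e (nat_lit 57873) (nat_lit 264) (.e (nat_lit 1211) (nat_lit 89) .nil)))))) (.g (nat_lit 6) .nil .nil)))) (.nd (nat_lit 5) 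
(.lf (nat_lit 204304) (.g (nat_lit 194) (.e (nat_lit 73779) (nat_lit 32) (.e (nat_lit 2939) (nat_lit 184) (.e (nat_lit 426541) (nat_lit 29) (.e (nat_lit 360192) (nat_lit 8) .nil)))) .nil)) 
(.lf (nat_lit 204336) (.g (nat_lit 1731) (.e (nat_lit 73780) (nat_lit 32) (.e (nat_lit 2939) (nat_lit 184) (.e (nat_lit 426554) (nat_lit 32) (.e (nat_lit 376857) (nat_lit 21) (.e (nat_lit 57872) (nat_lit 264) (.e (nat_lit 1209) (nat_lit 89) .nil)))))) (.g (nat_lit 6) .nil .nil))))) (.nd (nat_lit 4) (.nd (nat_lit 5) 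
(.lf (nat_lit 204296) (.g (nat_lit 2257) (.e (nat_lit 73779) (nat_lit 32) (.e (nat_lit 2936) (nat_lit 184) (.e (nat_lit 426541) (nat_lit 29) (.e (nat_lit 352307) (nat_lit 21) (.e (nat_lit 57873) (nat_lit 264) (.e (nat_lit 1211) (nat_lit 89) .nil)))))) (.g (nat_lit 6) .nil .nil))) 
(.lf (nat_lit 204328) (.g (nat_lit 657) (.e (nat_lit 73780) (nat_lit 32) (.e (nat_lit 2936) (nat_lit 184) (.e (nat_lit 426503) (nat_lit 27) (.e (nat_lit 336078) (nat_lit 9) .nil)))) .nil))) (.nd (nat_lit 5) 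
(.lf (nat_lit 204312) (.g (nat_lit 1108) (.e (nat_lit 73779) (nat_lit 32) (.e (nat_lit 2939) (nat_lit 184) (.e (nat_lit 426554) (nat_lit 32) (.e (nat_lit 376857) (nat_lit 21) (.e (nat_lit 57870) (nat_lit 264) (.e (nat_lit 1210) (nat_lit 89) .nil)))))) (.g (nat_lit 5) .nil .nil))) 
(.lf (nat_lit 204344) (.g (nat_lit 1507) (.e (nat_lit 73780) (nat_lit 32) (.e (nat_lit 2941) (nat_lit 184) (.e (nat_lit 426541) (nat_lit 29) (.e (nat_lit 352309) (nat_lit 21) (.e (nat_lit 57870) (nat_lit 264) (.e (nat_lit 1209) (nat_lit 89) .nil)))))) (.g (nat_lit 6) .nil .nil)))))) (.nd (nat_lit 3) (.nd (nat_lit 4) (.nd (nat_lit 5) 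
(.lf (nat_lit 204292) (.g (nat_lit 1229) (.e (nat_lit 73779) (nat_lit 32) (.e (nat_lit 2936) (nat_lit 184) (.e (nat_lit 426541) (nat_lit 29) (.e (nat_lit 352307) (nat_lit 21) (.e (nat_lit 57870) (nat_lit 264) (.e (nat_lit 1210) (nat_lit 89) .nil)))))) (.g (nat_lit 6) .nil .nil))) 
(.lf (nat_lit 204324) (.g (nat_lit 2120) (.e (nat_lit 73779) (nat_lit 32) (.e (nat_lit 2941) (nat_lit 184) (.e (nat_lit 426541) (nat_lit 29) (.e (nat_lit 352307) (nat_lit 21) (.e (nat_lit 57873) (nat_lit 264) (.e (nat_lit 1211) (nat_lit 89) .nil)))))) (.g (nat_lit 6) .nil .nil)))) (.nd (nat_lit 5) 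
(.lf (nat_lit 204308) (.g (nat_lit 2208) (.e (nat_lit 73779) (nat_lit 32) (.e (nat_lit 2939) (nat_lit 184) (.e (nat_lit 426541) (nat_lit 29) (.e (nat_lit 352307) (nat_lit 21) (.e (nat_lit 57873) (nat_lit 264) (.e (nat_lit 1211) (nat_lit 89) .nil)))))) (.g (nat_lit 6) .nil .nil))) 
(.lf (nat_lit 204340) (.g (nat_lit 1550) (.e (nat_lit 73780) (nat_lit 32) (.e (nat_lit 2940) (nat_lit 184) (.e (nat_lit 426541) (nat_lit 29) (.e (nat_lit 352309) (nat_lit 21) (.e (nat_lit 57870) (nat_lit 264) (.e (nat_lit 1209) (nat_lit 89) .nil)))))) (.g (nat_lit 6) .nil .nil))))) (.nd (nat_lit 4) (.nd (nat_lit 5) 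
(.lf (nat_lit 204300) (.g (nat_lit 1139) (.e (nat_lit 73779) (nat_lit 32) (.e (nat_lit 2936) (nat_lit 184) (.e (nat_lit 426554) (nat_lit 32) (.e (nat_lit 376857) (nat_lit 21) (.e (nat_lit 57870) (nat_lit 264) (.e (nat_lit 1210) (nat_lit 89) .nil)))))) (.g (nat_lit 5) .nil .nil))) 
(.lf (nat_lit 204332) (.g (nat_lit 1890) (.e (nat_lit 73780) (nat_lit 32) (.e (nat_lit 2936) (nat_lit 184) (.e (nat_lit 426554) (nat_lit 32) (.e (nat_lit 376857) (nat_lit 21) (.e (nat_lit 57873) (nat_lit 264) (.e (nat_lit 1209) (nat_lit 89) .nil)))))) (.g (nat_lit 6) .nil .nil)))) (.nd (nat_lit 5) 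
(.lf (nat_lit 204316) (.g (nat_lit 1249) (.e (nat_lit 73779) (nat_lit 32) (.e (nat_lit 2940) (nat_lit 184) (.e (nat_lit 426541) (nat_lit 29) (.e (nat_lit 352307) (nat_lit 21) (.e (nat_lit 57870) (nat_lit 264) (.e (nat_lit 1211) (nat_lit 89) .nil)))))) (.g (nat_lit 6) .nil .nil))) 
(.lf (nat_lit 204348) (.g (nat_lit 1758) (.e (nat_lit 73781) (nat_lit 32) (.e (nat_lit 2663) (nat_lit 167) (.e (nat_lit 196666) (nat_lit 13) (.e (nat_lit 65617) (nat_lit 10) (.e (nat_lit 344125) (nat_lit 25) .nil))))) .nil)))))) (.nd (nat_lit 2) (.nd (nat_lit 3) (.nd (nat_lit 4) (.nd (nat_lit 5) 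
(.lf (nat_lit 204290) (.g (nat_lit 845) (.e (nat_lit 81664) (nat_lit 29) (.e (nat_lit 802828) (nat_lit 13) (.e (nat_lit 352324) (nat_lit 26) (.e (nat_lit 147491) (nat_lit 10) (.e (nat_lit 16128) (nat_lit 255) .nil))))) .nil)) 
(.lf (nat_lit 204322) (.g (nat_lit 1800) (.e (nat_lit 73779) (nat_lit 32) (.e (nat_lit 2940) (nat_lit 184) (.e (nat_lit 426554) (nat_lit 32) (.e (nat_lit 376859) (nat_lit 21) (.e (nat_lit 57873) (nat_lit 264) (.e (nat_lit 1211) (nat_lit 89) .nil)))))) (.g (nat_lit 6) .nil .nil)))) (.nd (nat_lit 5) 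
(.lf (nat_lit 204306) (.g (nat_lit 1484) (.e (nat_lit 73779) (nat_lit 32) (.e (nat_lit 2939) (nat_lit 184) (.e (nat_lit 426541) (nat_lit 29) (.e (nat_lit 352307) (nat_lit 21) (.e (nat_lit 57871) (nat_lit 264) (.e (nat_lit 1210) (nat_lit 89) .nil)))))) (.g (nat_lit 6) .nil .nil))) 
(.lf (nat_lit 204338) (.g (nat_lit 1962) (.e (nat_lit 73780) (nat_lit 32) (.e (nat_lit 2939) (nat_lit 184) (.e (nat_lit 426554) (nat_lit 32) (.e (nat_lit 376859) (nat_lit 21) (.e (nat_lit 57873) (nat_lit 264) (.e (nat_lit 1209) (nat_lit 89) .nil)))))) (.g (nat_lit 6) .nil .nil))))) (.nd (nat_lit 4) (.nd (nat_lit 5) 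
(.lf (nat_lit 204298) (.g (nat_lit 2055) (.e (nat_lit 73779) (nat_lit 32) (.e (nat_lit 2936) (nat_lit 184) (.e (nat_lit 426541) (nat_lit 29) (.e (nat_lit 352309) (nat_lit 21) (.e (nat_lit 57873) (nat_lit 264) (.e (nat_lit 1211) (nat_lit 89) .nil)))))) (.g (nat_lit 6) .nil .nil))) 
(.lf (nat_lit 204330) (.g (nat_lit 210) (.e (nat_lit 73780) (nat_lit 32) (.e (nat_lit 2936) (nat_lit 184) (.e (nat_lit 426552) (nat_lit 32) (.e (nat_lit 384768) (nat_lit 4) .nil)))) .nil))) (.nd (nat_lit 5) 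
(.lf (nat_lit 204314) (.g (nat_lit 1873) (.e (nat_lit 73779) (nat_lit 32) (.e (nat_lit 2939) (nat_lit 184) (.e (nat_lit 426554) (nat_lit 32) (.e (nat_lit 376859) (nat_lit 21) (.e (nat_lit 57873) (nat_lit 264) (.e (nat_lit 1211) (nat_lit 89) .nil)))))) (.g (nat_lit 6) .nil .nil))) 
(.lf (nat_lit 204346) (.g (nat_lit 1909) (.e (nat_lit 73781) (nat_lit 32) (.e (nat_lit 2608) (nat_lit 163) (.e (nat_lit 164179) (nat_lit 154) (.e (nat_lit 57437) (nat_lit 17) (.e (nat_lit 376859) (nat_lit 21) .nil))))) .nil))))) (.nd (nat_lit 3) (.nd (nat_lit 4) (.nd (nat_lit 5) 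
(.lf (nat_lit 204294) (.g (nat_lit 1566) (.e (nat_lit 73779) (nat_lit 32) (.e (nat_lit 2936) (nat_lit 184) (.e (nat_lit 426541) (nat_lit 29) (.e (nat_lit 352307) (nat_lit 21) (.e (nat_lit 57871) (nat_lit 264) (.e (nat_lit 1210) (nat_lit 89) .nil)))))) (.g (nat_lit 6) .nil .nil))) 
(.lf (nat_lit 204326) (.g (nat_lit 1746) (.e (nat_lit 73779) (nat_lit 32) (.e (nat_lit 2941) (nat_lit 184) (.e (nat_lit 426541) (nat_lit 29) (.e (nat_lit 352316) (nat_lit 24) (.e (nat_lit 123184) (nat_lit 264) (.e (nat_lit 1214) (nat_lit 89) .nil)))))) (.g (nat_lit 0) .nil .nil)))) (.nd (nat_lit 5) 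
(.lf (nat_lit 204310) (.g (nat_lit 2004) (.e (nat_lit 73779) (nat_lit 32) (.e (nat_lit 2939) (nat_lit 184) (.e (nat_lit 426541) (nat_lit 29) (.e (nat_lit 352309) (nat_lit 21) (.e (nat_lit 57873) (nat_lit 264) (.e (nat_lit 1211) (nat_lit 89) .nil)))))) (.g (nat_lit 6) .nil .nil))) 
(.lf (nat_lit 204342) (.g (nat_lit 1919) (.e (nat_lit 73780) (nat_lit 32) (.e (nat_lit 2940) (nat_lit 184) (.e (nat_lit 426554) (nat_lit 32) (.e (nat_lit 376859) (nat_lit 21) (.e (nat_lit 57873) (nat_lit 264) (.e (nat_lit 1209) (nat_lit 89) .nil)))))) (.g (nat_lit 0) .nil .nil))))) (.nd (nat_lit 4) (.nd (nat_lit 5) 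
(.lf (nat_lit 204302) (.g (nat_lit 1869) (.e (nat_lit 73779) (nat_lit 32) (.e (nat_lit 2936) (nat_lit 184) (.e (nat_lit 426554) (nat_lit 32) (.e (nat_lit 376859) (nat_lit 21) (.e (nat_lit 57873) (nat_lit 264) (.e (nat_lit 1211) (nat_lit 89) .nil)))))) (.g (nat_lit 6) .nil .nil))) 
(.lf (nat_lit 204334) (.g (nat_lit 1563) (.e (nat_lit 73780) (nat_lit 32) (.e (nat_lit 2939) (nat_lit 184) (.e (nat_lit 426541) (nat_lit 29) (.e (nat_lit 352309) (nat_lit 21) (.e (nat_lit 57870) (nat_lit 264) (.e (nat_lit 1209) (nat_lit 89) .nil)))))) (.g (nat_lit 6) .nil .nil)))) (.nd (nat_lit 5) 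
(.lf (nat_lit 204318) (.g (nat_lit 1506) (.e (nat_lit 73779) (nat_lit 32) (.e (nat_lit 2940) (nat_lit 184) (.e (nat_lit 426541) (nat_lit 29) (.e (nat_lit 352307) (nat_lit 21) (.e (nat_lit 57872) (nat_lit 264) (.e (nat_lit 1211) (nat_lit 89) .nil)))))) (.g (nat_lit 6) .nil .nil))) 
(.lf (nat_lit 204350) (.g (nat_lit 1057) (.e (nat_lit 73781) (nat_lit 32) (.e (nat_lit 2664) (nat_lit 167) (.e (nat_lit 196666) (nat_lit 13) (.e (nat_lit 65543) (nat_lit 0) .nil)))) .nil))))))) (.nd (nat_lit 1) (.nd (nat_lit 2) (.nd (nat_lit 3) (.nd (nat_lit 4) (.nd (nat_lit 5) 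
(.lf (nat_lit 204289) (.g (nat_lit 615) (.e (nat_lit 81664) (nat_lit 29) (.e (nat_lit 802828) (nat_lit 13) (.e (nat_lit 352324) (nat_lit 26) (.e (nat_lit 147490) (nat_lit 10) .nil)))) .nil)) 
(.lf (nat_lit 204321) (.g (nat_lit 1688) (.e (nat_lit 73779) (nat_lit 32) (.e (nat_lit 2940) (nat_lit 184) (.e (nat_lit 426554) (nat_lit 32) (.e (nat_lit 376857) (nat_lit 21) (.e (nat_lit 57873) (nat_lit 264) (.e (nat_lit 1211) (nat_lit 89) .nil)))))) (.g (nat_lit 6) .nil .nil)))) (.nd (nat_lit 5) 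
(.lf (nat_lit 204305) (.g (nat_lit 1297) (.e (nat_lit 73779) (nat_lit 32) (.e (nat_lit 2939) (nat_lit 184) (.e (nat_lit 426541) (nat_lit 29) (.e (nat_lit 352307) (nat_lit 21) (.e (nat_lit 57870) (nat_lit 264) (.e (nat_lit 1211) (nat_lit 89) .nil)))))) (.g (nat_lit 6) .nil .nil))) 
(.lf (nat_lit 204337) (.g (nat_lit 1848) (.e (nat_lit 73780) (nat_lit 32) (.e (nat_lit 2939) (nat_lit 184) (.e (nat_lit 426554) (nat_lit 32) (.e (nat_lit 376857) (nat_lit 21) (.e (nat_lit 57873) (nat_lit 264) (.e (nat_lit 1209) (nat_lit 89) .nil)))))) (.g (nat_lit 6) .nil .nil))))) (.nd (nat_lit 4) (.nd (nat_lit 5) 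
(.lf (nat_lit 204297) (.g (nat_lit 1722) (.e (nat_lit 73779) (nat_lit 32) (.e (nat_lit 2936) (nat_lit 184) (.e (nat_lit 426541) (nat_lit 29) (.e (nat_lit 352309) (nat_lit 21) (.e (nat_lit 57872) (nat_lit 264) (.e (nat_lit 1211) (nat_lit 89) .nil)))))) (.g (nat_lit 6) .nil .nil))) 
(.lf (nat_lit 204329) (.g (nat_lit 1593) (.e (nat_lit 73780) (nat_lit 32) (.e (nat_lit 2936) (nat_lit 184) (.e (nat_lit 426541) (nat_lit 29) (.e (nat_lit 352309) (nat_lit 21) (.e (nat_lit 57870) (nat_lit 264) (.e (nat_lit 1209) (nat_lit 89) .nil)))))) (.g (nat_lit 6) .nil .nil)))) (.nd (nat_lit 5) 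
(.lf (nat_lit 204313) (.g (nat_lit 1744) (.e (nat_lit 73779) (nat_lit 32) (.e (nat_lit 2939) (nat_lit 184) (.e (nat_lit 426554) (nat_lit 32) (.e (nat_lit 376857) (nat_lit 21) (.e (nat_lit 57873) (nat_lit 264) (.e (nat_lit 1211) (nat_lit 89) .nil)))))) (.g (nat_lit 6) .nil .nil))) 
(.lf (nat_lit 204345) (.g (nat_lit 1793) (.e (nat_lit 73780) (nat_lit 32) (.e (nat_lit 2941) (nat_lit 184) (.e (nat_lit 426541) (nat_lit 29) (.e (nat_lit 352309) (nat_lit 21) (.e (nat_lit 57871) (nat_lit 264) (.e (nat_lit 1209) (nat_lit 89) .nil)))))) (.g (nat_lit 6) .nil .nil)))))) (.nd (nat_lit 3) (.nd (nat_lit 4) (.nd (nat_lit 5) 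
(.lf (nat_lit 204293) (.g (nat_lit 1349) (.e (nat_lit 73779) (nat_lit 32) (.e (nat_lit 2936) (nat_lit 184) (.e (nat_lit 426541) (nat_lit 29) (.e (nat_lit 352307) (nat_lit 21) (.e (nat_lit 57870) (nat_lit 264) (.e (nat_lit 1211) (nat_lit 89) .nil)))))) (.g (nat_lit 6) .nil .nil))) 
(.lf (nat_lit 204325) (.g (nat_lit 1909) (.e (nat_lit 73779) (nat_lit 32) (.e (nat_lit 2941) (nat_lit 184) (.e (nat_lit 426541) (nat_lit 29) (.e (nat_lit 352309) (nat_lit 21) (.e (nat_lit 57873) (nat_lit 264) (.e (nat_lit 1211) (nat_lit 89) .nil)))))) (.g (nat_lit 6) .nil .nil)))) (.nd (nat_lit 5) 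
(.lf (nat_lit 204309) (.g (nat_lit 1670) (.e (nat_lit 73779) (nat_lit 32) (.e (nat_lit 2939) (nat_lit 184) (.e (nat_lit 426541) (nat_lit 29) (.e (nat_lit 352309) (nat_lit 21) (.e (nat_lit 57872) (nat_lit 264) (.e (nat_lit 1211) (nat_lit 89) .nil)))))) (.g (nat_lit 6) .nil .nil))) 
(.lf (nat_lit 204341) (.g (nat_lit 2114) (.e (nat_lit 73780) (nat_lit 32) (.e (nat_lit 2940) (nat_lit 184) (.e (nat_lit 426554) (nat_lit 32) (.e (nat_lit 376859) (nat_lit 21) (.e (nat_lit 57872) (nat_lit 264) (.e (nat_lit 1209) (nat_lit 89) .nil)))))) (.g (nat_lit 0) .nil .nil))))) (.nd (nat_lit 4) (.nd (nat_lit 5) 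
(.lf (nat_lit 204301) (.g (nat_lit 1759) (.e (nat_lit 73779) (nat_lit 32) (.e (nat_lit 2936) (nat_lit 184) (.e (nat_lit 426554) (nat_lit 32) (.e (nat_lit 376857) (nat_lit 21) (.e (nat_lit 57873) (nat_lit 264) (.e (nat_lit 1211) (nat_lit 89) .nil)))))) (.g (nat_lit 6) .nil .nil))) 
(.lf (nat_lit 204333) (.g (nat_lit 1988) (.e (nat_lit 73780) (nat_lit 32) (.e (nat_lit 2936) (nat_lit 184) (.e (nat_lit 426554) (nat_lit 32) (.e (nat_lit 376859) (nat_lit 21) (.e (nat_lit 57873) (nat_lit 264) (.e (nat_lit 1209) (nat_lit 89) .nil)))))) (.g (nat_lit 6) .nil .nil)))) (.nd (nat_lit 5) 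
(.lf (nat_lit 204317) (.g (nat_lit 1495) (.e (nat_lit 73779) (nat_lit 32) (.e (nat_lit 2940) (nat_lit 184) (.e (nat_lit 426541) (nat_lit 29) (.e (nat_lit 352307) (nat_lit 21) (.e (nat_lit 57871) (nat_lit 264) (.e (nat_lit 1210) (nat_lit 89) .nil)))))) (.g (nat_lit 6) .nil .nil))) 
(.lf (nat_lit 204349) (.g (nat_lit 1762) (.e (nat_lit 73781) (nat_lit 32) (.e (nat_lit 2663) (nat_lit 167) (.e (nat_lit 196668) (nat_lit 14) (.e (nat_lit 73780) (nat_lit 32) .nil)))) .nil)))))) (.nd (nat_lit 2) (.nd (nat_lit 3) (.nd (nat_lit 4) (.nd (nat_lit 5) 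
(.lf (nat_lit 204291) (.g (nat_lit 1354) (.e (nat_lit 73779) (nat_lit 32) (.e (nat_lit 2936) (nat_lit 184) (.e (nat_lit 426503) (nat_lit 27) (.e (nat_lit 336203) (nat_lit 12) (.e (nat_lit 385093) (nat_lit 49) .nil))))) .nil)) 
(.lf (nat_lit 204323) (.g (nat_lit 1460) (.e (nat_lit 73779) (nat_lit 32) (.e (nat_lit 2941) (nat_lit 184) (.e (nat_lit 426541) (nat_lit 29) (.e (nat_lit 352307) (nat_lit 21) (.e (nat_lit 57872) (nat_lit 264) (.e (nat_lit 1211) (nat_lit 89) .nil)))))) (.g (nat_lit 6) .nil .nil)))) (.nd (nat_lit 5) 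
(.lf (nat_lit 204307) (.g (nat_lit 1544) (.e (nat_lit 73779) (nat_lit 32) (.e (nat_lit 2939) (nat_lit 184) (.e (nat_lit 426541) (nat_lit 29) (.e (nat_lit 352307) (nat_lit 21) (.e (nat_lit 57872) (nat_lit 264) (.e (nat_lit 1211) (nat_lit 89) .nil)))))) (.g (nat_lit 6) .nil .nil))) 
(.lf (nat_lit 204339) (.g (nat_lit 377) (.e (nat_lit 73780) (nat_lit 32) (.e (nat_lit 2940) (nat_lit 184) (.e (nat_lit 426541) (nat_lit 29) (.e (nat_lit 352264) (nat_lit 0) (.e (nat_lit 3716) (nat_lit 227) (.e (nat_lit 778322) (nat_lit 5) .nil)))))) (.g (nat_lit 0) .nil .nil))))) (.nd (nat_lit 4) (.nd (nat_lit 5) 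
(.lf (nat_lit 204299) (.g (nat_lit 141) (.e (nat_lit 73779) (nat_lit 32) (.e (nat_lit 2936) (nat_lit 184) (.e (nat_lit 433920) (nat_lit 29) .nil))) .nil)) 
(.lf (nat_lit 204331) (.g (nat_lit 233) (.e (nat_lit 73780) (nat_lit 32) (.e (nat_lit 2936) (nat_lit 184) (.e (nat_lit 426554) (nat_lit 32) (.e (nat_lit 384768) (nat_lit 4) .nil)))) .nil))) (.nd (nat_lit 5) 
(.lf (nat_lit 204315) (.g (nat_lit 1154) (.e (nat_lit 73779) (nat_lit 32) (.e (nat_lit 2940) (nat_lit 184) (.e (nat_lit 426541) (nat_lit 29) (.e (nat_lit 352307) (nat_lit 21) (.e (nat_lit 57870) (nat_lit 264) (.e (nat_lit 1210) (nat_lit 89) .nil)))))) (.g (nat_lit 6) .nil .nil))) 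
(.lf (nat_lit 204347) (.g (nat_lit 1183) (.e (nat_lit 73781) (nat_lit 32) (.e (nat_lit 2663) (nat_lit 167) (.e (nat_lit 196666) (nat_lit 13) (.e (nat_lit 65610) (nat_lit 10) .nil)))) .nil))))) (.nd (nat_lit 3) (.nd (nat_lit 4) (.nd (nat_lit 5) 
(.lf (nat_lit 204295) (.g (nat_lit 1603) (.e (nat_lit 73779) (nat_lit 32) (.e (nat_lit 2936) (nat_lit 184) (.e (nat_lit 426541) (nat_lit 29) (.e (nat_lit 352307) (nat_lit 21) (.e (nat_lit 57872) (nat_lit 264) (.e (nat_lit 1211) (nat_lit 89) .nil)))))) (.g (nat_lit 6) .nil .nil))) 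
(.lf (nat_lit 204327) (.g (nat_lit 1055) (.e (nat_lit 73780) (nat_lit 32) (.e (nat_lit 2505) (nat_lit 157) (.e (nat_lit 3249) (nat_lit 197) (.e (nat_lit 532544) (nat_lit 10) (.e (nat_lit 344081) (nat_lit 13) .nil))))) .nil))) (.nd (nat_lit 5) 
(.lf (nat_lit 204311) (.g (nat_lit 113) (.e (nat_lit 73779) (nat_lit 32) (.e (nat_lit 2939) (nat_lit 184) (.e (nat_lit 433920) (nat_lit 29) .nil))) .nil)) 
(.lf (nat_lit 204343) (.g (nat_lit 2269) (.e (nat_lit 73780) (nat_lit 32) (.e (nat_lit 2941) (nat_lit 184) (.e (nat_lit 426541) (nat_lit 29) (.e (nat_lit 352307) (nat_lit 21) (.e (nat_lit 57873) (nat_lit 264) (.e (nat_lit 1209) (nat_lit 89) .nil)))))) (.g (nat_lit 0) .nil .nil))))) (.nd (nat_lit 4) (.nd (nat_lit 5) 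
(.lf (nat_lit 204303) (.g (nat_lit 600) (.e (nat_lit 73779) (nat_lit 32) (.e (nat_lit 2939) (nat_lit 184) (.e (nat_lit 426488) (nat_lit 27) (.e (nat_lit 336121) (nat_lit 9) (.e (nat_lit 336331) (nat_lit 19) .nil))))) .nil)) 
(.lf (nat_lit 204335) (.g (nat_lit 228) (.e (nat_lit 73780) (nat_lit 32) (.e (nat_lit 2939) (nat_lit 184) (.e (nat_lit 426554) (nat_lit 32) (.e (nat_lit 384768) (nat_lit 4) .nil)))) .nil))) (.nd (nat_lit 5) 
(.lf (nat_lit 204319) (.g (nat_lit 2165) (.e (nat_lit 73779) (nat_lit 32) (.e (nat_lit 2940) (nat_lit 184) (.e (nat_lit 426541) (nat_lit 29) (.e (nat_lit 352307) (nat_lit 21) (.e (nat_lit 57873) (nat_lit 264) (.e (nat_lit 1211) (nat_lit 89) .nil)))))) (.g (nat_lit 6) .nil .nil))) 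
(.lf (nat_lit 204351) (.g (nat_lit 1250) (.e (nat_lit 73781) (nat_lit 32) (.e (nat_lit 2664) (nat_lit 167) (.e (nat_lit 196666) (nat_lit 13) (.e (nat_lit 65581) (nat_lit 7) .nil)))) .nil))))))))

noncomputable def tv2695 : DT := (.nd (nat_lit 0) (.nd (nat_lit 1) (.nd (nat_lit 2) (.nd (nat_lit 3) (.nd (nat_lit 4) (.nd (nat_lit 5) 
(.lf (nat_lit 204352) (.g (nat_lit 1961) (.e (nat_lit 73781) (nat_lit 32) (.e (nat_lit 2664) (nat_lit 167) (.e (nat_lit 196666) (nat_lit 13) (.e (nat_lit 65583) (nat_lit 7) (.e (nat_lit 319518) (nat_lit 12) .nil))))) .nil)) 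
(.lf (nat_lit 204384) (.g (nat_lit 2893) (.e (nat_lit 73781) (nat_lit 32) (.e (nat_lit 2682) (nat_lit 168) (.e (nat_lit 204869) (nat_lit 29) (.e (nat_lit 360448) (nat_lit 0) (.e (nat_lit 3972) (nat_lit 239) (.e (nat_lit 1211) (nat_lit 89) .nil)))))) (.g (nat_lit 4) .nil .nil)))) (.nd (nat_lit 5) 
(.lf (nat_lit 204368) (.g (nat_lit 233) (.e (nat_lit 73781) (nat_lit 32) (.e (nat_lit 2681) (nat_lit 168) (.e (nat_lit 204874) (nat_lit 30) .nil))) .nil)) 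
(.lf (nat_lit 204400) (.g (nat_lit 1372) (.e (nat_lit 73781) (nat_lit 32) (.e (nat_lit 2682) (nat_lit 168) (.e (nat_lit 204869) (nat_lit 29) (.e (nat_lit 368384) (nat_lit 0) .nil)))) .nil)))) (.nd (nat_lit 4) (.nd (nat_lit 5) 
(.lf (nat_lit 204360) (.g (nat_lit 1983) (.e (nat_lit 73781) (nat_lit 32) (.e (nat_lit 2664) (nat_lit 167) (.e (nat_lit 196670) (nat_lit 14) (.e (nat_lit 73791) (nat_lit 45) (.e (nat_lit 1141) (nat_lit 84) (.e (nat_lit 32788) (nat_lit 10) .nil)))))) (.g (nat_lit 0) .nil .nil))) 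
(.lf (nat_lit 204392) (.g (nat_lit 3900) (.e (nat_lit 73781) (nat_lit 32) (.e (nat_lit 2682) (nat_lit 168) (.e (nat_lit 204869) (nat_lit 29) (.e (nat_lit 360451) (nat_lit 0) (.e (nat_lit 3950) (nat_lit 239) .nil))))) .nil))) (.nd (nat_lit 5) 
(.lf (nat_lit 204376) (.g (nat_lit 2872) (.e (nat_lit 73781) (nat_lit 32) (.e (nat_lit 2682) (nat_lit 168) (.e (nat_lit 204869) (nat_lit 29) (.e (nat_lit 360448) (nat_lit 0) (.e (nat_lit 3913) (nat_lit 239) .nil))))) .nil)) 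
(.lf (nat_lit 204408) (.g (nat_lit 2191) (.e (nat_lit 73781) (nat_lit 32) (.e (nat_lit 2854) (nat_lit 184) (.e (nat_lit 426542) (nat_lit 29) (.e (nat_lit 352307) (nat_lit 21) (.e (nat_lit 57872) (nat_lit 264) (.e (nat_lit 1211) (nat_lit 89) .nil)))))) (.g (nat_lit 0) .nil .nil)))))) (.nd (nat_lit 3) (.nd (nat_lit 4) (.nd (nat_lit 5) 
(.lf (nat_lit 204356) (.g (nat_lit 2004) (.e (nat_lit 73781) (nat_lit 32) (.e (nat_lit 2664) (nat_lit 167) (.e (nat_lit 196666) (nat_lit 13) (.e (nat_lit 65617) (nat_lit 10) (.e (nat_lit 344096) (nat_lit 18) (.e (nat_lit 3959) (nat_lit 239) (.e (nat_lit 1208) (nat_lit 89) .nil))))))) (.g (nat_lit 5) .nil .nil))) 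
(.lf (nat_lit 204388) (.g (nat_lit 4751) (.e (nat_lit 73781) (nat_lit 32) (.e (nat_lit 2682) (nat_lit 168) (.e (nat_lit 204869) (nat_lit 29) (.e (nat_lit 360450) (nat_lit 0) (.e (nat_lit 3950) (nat_lit 239) (.e (nat_lit 1208) (nat_lit 89) .nil)))))) (.g (nat_lit 6) .nil .nil)))) (.nd (nat_lit 5) 
(.lf (nat_lit 204372) (.g (nat_lit 1703) (.e (nat_lit 73781) (nat_lit 32) (.e (nat_lit 2682) (nat_lit 168) (.e (nat_lit 204863) (nat_lit 27) (.e (nat_lit 344080) (nat_lit 13) (.e (nat_lit 1140) (nat_lit 84) (.e (nat_lit 32788) (nat_lit 10) .nil)))))) (.g (nat_lit 4) .nil .nil))) 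
(.lf (nat_lit 204404) (.g (nat_lit 598) (.e (nat_lit 73781) (nat_lit 32) (.e (nat_lit 2854) (nat_lit 184) (.e (nat_lit 426540) (nat_lit 29) (.e (nat_lit 352270) (nat_lit 8) .nil)))) .nil)))) (.nd (nat_lit 4) (.nd (nat_lit 5) 
(.lf (nat_lit 204364) (.g (nat_lit 1200) (.e (nat_lit 73781) (nat_lit 32) (.e (nat_lit 2681) (nat_lit 168) (.e (nat_lit 204869) (nat_lit 29) (.e (nat_lit 360450) (nat_lit 0) .nil)))) .nil)) 
(.lf (nat_lit 204396) (.g (nat_lit 4389) (.e (nat_lit 73781) (nat_lit 32) (.e (nat_lit 2682) (nat_lit 168) (.e (nat_lit 204869) (nat_lit 29) (.e (nat_lit 360455) (nat_lit 0) (.e (nat_lit 3962) (nat_lit 239) (.e (nat_lit 1209) (nat_lit 89) .nil)))))) (.g (nat_lit 6) .nil .nil)))) (.nd (nat_lit 5) 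
(.lf (nat_lit 204380) (.g (nat_lit 2868) (.e (nat_lit 73781) (nat_lit 32) (.e (nat_lit 2682) (nat_lit 168) (.e (nat_lit 204869) (nat_lit 29) (.e (nat_lit 360448) (nat_lit 0) (.e (nat_lit 3920) (nat_lit 239) .nil))))) .nil)) 
(.lf (nat_lit 204412) (.g (nat_lit 2428) (.e (nat_lit 73781) (nat_lit 32) (.e (nat_lit 2854) (nat_lit 184) (.e (nat_lit 426546) (nat_lit 30) (.e (nat_lit 360452) (nat_lit 0) (.e (nat_lit 5907) (nat_lit 320) (.e (nat_lit 1211) (nat_lit 89) .nil)))))) (.g (nat_lit 6) .nil .nil))))))) (.nd (nat_lit 2) (.nd (nat_lit 3) (.nd (nat_lit 4) (.nd (nat_lit 5) 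
(.lf (nat_lit 204354) (.g (nat_lit 1892) (.e (nat_lit 73781) (nat_lit 32) (.e (nat_lit 2664) (nat_lit 167) (.e (nat_lit 196666) (nat_lit 13) (.e (nat_lit 65617) (nat_lit 10) (.e (nat_lit 344091) (nat_lit 18) (.e (nat_lit 3957) (nat_lit 239) (.e (nat_lit 1208) (nat_lit 89) .nil))))))) (.g (nat_lit 4) .nil .nil))) 
(.lf (nat_lit 204386) (.g (nat_lit 1159) (.e (nat_lit 73781) (nat_lit 32) (.e (nat_lit 2682) (nat_lit 168) (.e (nat_lit 204869) (nat_lit 29) (.e (nat_lit 360450) (nat_lit 0) .nil)))) .nil))) (.nd (nat_lit 5) 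
(.lf (nat_lit 204370) (.g (nat_lit 1744) (.e (nat_lit 73781) (nat_lit 32) (.e (nat_lit 2682) (nat_lit 168) (.e (nat_lit 204863) (nat_lit 27) (.e (nat_lit 344074) (nat_lit 13) .nil)))) .nil)) 
(.lf (nat_lit 204402) (.g (nat_lit 1270) (.e (nat_lit 73781) (nat_lit 32) (.e (nat_lit 2854) (nat_lit 184) (.e (nat_lit 426540) (nat_lit 29) (.e (nat_lit 352262) (nat_lit 0) (.e (nat_lit 3630) (nat_lit 227) .nil))))) .nil)))) (.nd (nat_lit 4) (.nd (nat_lit 5) 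
(.lf (nat_lit 204362) (.g (nat_lit 1192) (.e (nat_lit 73781) (nat_lit 32) (.e (nat_lit 2681) (nat_lit 168) (.e (nat_lit 204863) (nat_lit 27) (.e (nat_lit 352000) (nat_lit 3) .nil)))) .nil)) 
(.lf (nat_lit 204394) (.g (nat_lit 4134) (.e (nat_lit 73781) (nat_lit 32) (.e (nat_lit 2682) (nat_lit 168) (.e (nat_lit 204869) (nat_lit 29) (.e (nat_lit 360451) (nat_lit 0) (.e (nat_lit 3957) (nat_lit 239) (.e (nat_lit 1208) (nat_lit 89) .nil)))))) (.g (nat_lit 4) .nil .nil)))) (.nd (nat_lit 5) 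
(.lf (nat_lit 204378) (.g (nat_lit 2872) (.e (nat_lit 73781) (nat_lit 32) (.e (nat_lit 2682) (nat_lit 168) (.e (nat_lit 204869) (nat_lit 29) (.e (nat_lit 360448) (nat_lit 0) (.e (nat_lit 3917) (nat_lit 239) .nil))))) .nil)) 
(.lf (nat_lit 204410) (.g (nat_lit 2672) (.e (nat_lit 73781) (nat_lit 32) (.e (nat_lit 2854) (nat_lit 184) (.e (nat_lit 426542) (nat_lit 29) (.e (nat_lit 352309) (nat_lit 21) (.e (nat_lit 57873) (nat_lit 264) (.e (nat_lit 1211) (nat_lit 89) .nil)))))) (.g (nat_lit 0) .nil .nil)))))) (.nd (nat_lit 3) (.nd (nat_lit 4) (.nd (nat_lit 5) 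
(.lf (nat_lit 204358) (.g (nat_lit 1245) (.e (nat_lit 73781) (nat_lit 32) (.e (nat_lit 2664) (nat_lit 167) (.e (nat_lit 196668) (nat_lit 14) (.e (nat_lit 73780) (nat_lit 32) .nil)))) .nil)) 
(.lf (nat_lit 204390) (.g (nat_lit 4414) (.e (nat_lit 73781) (nat_lit 32) (.e (nat_lit 2682) (nat_lit 168) (.e (nat_lit 204869) (nat_lit 29) (.e (nat_lit 360451) (nat_lit 0) (.e (nat_lit 3928) (nat_lit 239) (.e (nat_lit 1205) (nat_lit 89) .nil)))))) (.g (nat_lit 5) .nil .nil)))) (.nd (nat_lit 5) 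
(.lf (nat_lit 204374) (.g (nat_lit 1993) (.e (nat_lit 73781) (nat_lit 32) (.e (nat_lit 2682) (nat_lit 168) (.e (nat_lit 204866) (nat_lit 28) (.e (nat_lit 352318) (nat_lit 24) (.e (nat_lit 123040) (nat_lit 140) .nil))))) .nil)) 
(.lf (nat_lit 204406) (.g (nat_lit 776) (.e (nat_lit 73781) (nat_lit 32) (.e (nat_lit 2854) (nat_lit 184) (.e (nat_lit 426542) (nat_lit 29) (.e (nat_lit 352286) (nat_lit 20) .nil)))) .nil)))) (.nd (nat_lit 4) (.nd (nat_lit 5) 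
(.lf (nat_lit 204366) (.g (nat_lit 3280) (.e (nat_lit 73781) (nat_lit 32) (.e (nat_lit 2681) (nat_lit 168) (.e (nat_lit 204869) (nat_lit 29) (.e (nat_lit 360451) (nat_lit 0) (.e (nat_lit 3928) (nat_lit 239) (.e (nat_lit 1207) (nat_lit 89) .nil)))))) (.g (nat_lit 4) .nil .nil))) 
(.lf (nat_lit 204398) (.g (nat_lit 3226) (.e (nat_lit 73781) (nat_lit 32) (.e (nat_lit 2682) (nat_lit 168) (.e (nat_lit 204869) (nat_lit 29) (.e (nat_lit 360456) (nat_lit 0) (.e (nat_lit 3962) (nat_lit 239) .nil))))) .nil))) (.nd (nat_lit 5) 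
(.lf (nat_lit 204382) (.g (nat_lit 2938) (.e (nat_lit 73781) (nat_lit 32) (.e (nat_lit 2682) (nat_lit 168) (.e (nat_lit 204869) (nat_lit 29) (.e (nat_lit 360448) (nat_lit 0) (.e (nat_lit 3971) (nat_lit 239) (.e (nat_lit 1209) (nat_lit 89) .nil)))))) (.g (nat_lit 4) .nil .nil))) 
(.lf (nat_lit 204414) (.g (nat_lit 2172) (.e (nat_lit 73781) (nat_lit 32) (.e (nat_lit 2854) (nat_lit 184) (.e (nat_lit 426555) (nat_lit 32) (.e (nat_lit 376857) (nat_lit 21) (.e (nat_lit 57872) (nat_lit 264) (.e (nat_lit 1211) (nat_lit 89) .nil)))))) (.g (nat_lit 5) .nil .nil)))))))) (.nd (nat_lit 1) (.nd (nat_lit 2) (.nd (nat_lit 3) (.nd (nat_lit 4) (.nd (nat_lit 5) 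
(.lf (nat_lit 204353) (.g (nat_lit 1106) (.e (nat_lit 73781) (nat_lit 32) (.e (nat_lit 2664) (nat_lit 167) (.e (nat_lit 196666) (nat_lit 13) (.e (nat_lit 65585) (nat_lit 7) .nil)))) .nil)) 
(.lf (nat_lit 204385) (.g (nat_lit 3237) (.e (nat_lit 73781) (nat_lit 32) (.e (nat_lit 2682) (nat_lit 168) (.e (nat_lit 204869) (nat_lit 29) (.e (nat_lit 360448) (nat_lit 0) (.e (nat_lit 3975) (nat_lit 239) (.e (nat_lit 1211) (nat_lit 89) .nil)))))) (.g (nat_lit 4) .nil .nil)))) (.nd (nat_lit 5) 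
(.lf (nat_lit 204369) (.g (nat_lit 1429) (.e (nat_lit 73781) (nat_lit 32) (.e (nat_lit 2682) (nat_lit 168) (.e (nat_lit 204838) (nat_lit 20) (.e (nat_lit 114702) (nat_lit 20) .nil)))) .nil)) 
(.lf (nat_lit 204401) (.g (nat_lit 855) (.e (nat_lit 73781) (nat_lit 32) (.e (nat_lit 2682) (nat_lit 168) (.e (nat_lit 204877) (nat_lit 31) (.e (nat_lit 376855) (nat_lit 20) (.e (nat_lit 1836) (nat_lit 123) .nil))))) .nil)))) (.nd (nat_lit 4) (.nd (nat_lit 5) 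
(.lf (nat_lit 204361) (.g (nat_lit 1368) (.e (nat_lit 73781) (nat_lit 32) (.e (nat_lit 2664) (nat_lit 167) (.e (nat_lit 196673) (nat_lit 15) (.e (nat_lit 81938) (nat_lit 20) (.e (nat_lit 1841) (nat_lit 123) .nil))))) .nil)) 
(.lf (nat_lit 204393) (.g (nat_lit 4762) (.e (nat_lit 73781) (nat_lit 32) (.e (nat_lit 2682) (nat_lit 168) (.e (nat_lit 204869) (nat_lit 29) (.e (nat_lit 360451) (nat_lit 0) (.e (nat_lit 3950) (nat_lit 239) (.e (nat_lit 1208) (nat_lit 89) .nil)))))) (.g (nat_lit 6) .nil .nil)))) (.nd (nat_lit 5) 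
(.lf (nat_lit 204377) (.g (nat_lit 2870) (.e (nat_lit 73781) (nat_lit 32) (.e (nat_lit 2682) (nat_lit 168) (.e (nat_lit 204869) (nat_lit 29) (.e (nat_lit 360448) (nat_lit 0) (.e (nat_lit 3915) (nat_lit 239) .nil))))) .nil)) 
(.lf (nat_lit 204409) (.g (nat_lit 2896) (.e (nat_lit 73781) (nat_lit 32) (.e (nat_lit 2854) (nat_lit 184) (.e (nat_lit 426542) (nat_lit 29) (.e (nat_lit 352307) (nat_lit 21) (.e (nat_lit 57873) (nat_lit 264) (.e (nat_lit 1211) (nat_lit 89) .nil)))))) (.g (nat_lit 0) .nil .nil)))))) (.nd (nat_lit 3) (.nd (nat_lit 4) (.nd (nat_lit 5) 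
(.lf (nat_lit 204357) (.g (nat_lit 1605) (.e (nat_lit 73781) (nat_lit 32) (.e (nat_lit 2664) (nat_lit 167) (.e (nat_lit 196666) (nat_lit 13) (.e (nat_lit 65617) (nat_lit 10) (.e (nat_lit 344125) (nat_lit 25) .nil))))) .nil)) 
(.lf (nat_lit 204389) (.g (nat_lit 4202) (.e (nat_lit 73781) (nat_lit 32) (.e (nat_lit 2682) (nat_lit 168) (.e (nat_lit 204869) (nat_lit 29) (.e (nat_lit 360450) (nat_lit 0) (.e (nat_lit 3957) (nat_lit 239) (.e (nat_lit 1208) (nat_lit 89) .nil)))))) (.g (nat_lit 4) .nil .nil)))) (.nd (nat_lit 5) 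
(.lf (nat_lit 204373) (.g (nat_lit 2030) (.e (nat_lit 73781) (nat_lit 32) (.e (nat_lit 2682) (nat_lit 168) (.e (nat_lit 204863) (nat_lit 27) (.e (nat_lit 344081) (nat_lit 13) (.e (nat_lit 1141) (nat_lit 84) (.e (nat_lit 32788) (nat_lit 10) .nil)))))) (.g (nat_lit 6) .nil .nil))) 
(.lf (nat_lit 204405) (.g (nat_lit 741) (.e (nat_lit 73781) (nat_lit 32) (.e (nat_lit 2854) (nat_lit 184) (.e (nat_lit 426542) (nat_lit 29) (.e (nat_lit 352280) (nat_lit 20) .nil)))) .nil)))) (.nd (nat_lit 4) (.nd (nat_lit 5) 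
(.lf (nat_lit 204365) (.g (nat_lit 2985) (.e (nat_lit 73781) (nat_lit 32) (.e (nat_lit 2681) (nat_lit 168) (.e (nat_lit 204869) (nat_lit 29) (.e (nat_lit 360451) (nat_lit 0) (.e (nat_lit 3928) (nat_lit 239) .nil))))) .nil)) 
(.lf (nat_lit 204397) (.g (nat_lit 3197) (.e (nat_lit 73781) (nat_lit 32) (.e (nat_lit 2682) (nat_lit 168) (.e (nat_lit 204869) (nat_lit 29) (.e (nat_lit 360455) (nat_lit 0) (.e (nat_lit 3962) (nat_lit 239) (.e (nat_lit 1210) (nat_lit 89) .nil)))))) (.g (nat_lit 4) .nil .nil)))) (.nd (nat_lit 5) 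
(.lf (nat_lit 204381) (.g (nat_lit 3060) (.e (nat_lit 73781) (nat_lit 32) (.e (nat_lit 2682) (nat_lit 168) (.e (nat_lit 204869) (nat_lit 29) (.e (nat_lit 360448) (nat_lit 0) (.e (nat_lit 3920) (nat_lit 239) (.e (nat_lit 1214) (nat_lit 89) .nil)))))) (.g (nat_lit 4) .nil .nil))) 
(.lf (nat_lit 204413) (.g (nat_lit 1517) (.e (nat_lit 73781) (nat_lit 32) (.e (nat_lit 2854) (nat_lit 184) (.e (nat_lit 426555) (nat_lit 32) (.e (nat_lit 376837) (nat_lit 0) .nil)))) .nil)))))) (.nd (nat_lit 2) (.nd (nat_lit 3) (.nd (nat_lit 4) (.nd (nat_lit 5) 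
(.lf (nat_lit 204355) (.g (nat_lit 1888) (.e (nat_lit 73781) (nat_lit 32) (.e (nat_lit 2664) (nat_lit 167) (.e (nat_lit 196666) (nat_lit 13) (.e (nat_lit 65617) (nat_lit 10) (.e (nat_lit 344096) (nat_lit 18) (.e (nat_lit 3957) (nat_lit 239) (.e (nat_lit 1208) (nat_lit 89) .nil))))))) (.g (nat_lit 4) .nil .nil))) 
(.lf (nat_lit 204387) (.g (nat_lit 3882) (.e (nat_lit 73781) (nat_lit 32) (.e (nat_lit 2682) (nat_lit 168) (.e (nat_lit 204869) (nat_lit 29) (.e (nat_lit 360450) (nat_lit 0) (.e (nat_lit 3950) (nat_lit 239) .nil))))) .nil))) (.nd (nat_lit 5) 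
(.lf (nat_lit 204371) (.g (nat_lit 1490) (.e (nat_lit 73781) (nat_lit 32) (.e (nat_lit 2682) (nat_lit 168) (.e (nat_lit 204863) (nat_lit 27) (.e (nat_lit 344079) (nat_lit 13) .nil)))) .nil)) 
(.lf (nat_lit 204403) (.g (nat_lit 769) (.e (nat_lit 73781) (nat_lit 32) (.e (nat_lit 2854) (nat_lit 184) (.e (nat_lit 426540) (nat_lit 29) (.e (nat_lit 360192) (nat_lit 4) .nil)))) .nil)))) (.nd (nat_lit 4) (.nd (nat_lit 5) 
(.lf (nat_lit 204363) (.g (nat_lit 1705) (.e (nat_lit 73781) (nat_lit 32) (.e (nat_lit 2681) (nat_lit 168) (.e (nat_lit 204869) (nat_lit 29) (.e (nat_lit 360448) (nat_lit 0) .nil)))) .nil)) 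
(.lf (nat_lit 204395) (.g (nat_lit 3090) (.e (nat_lit 73781) (nat_lit 32) (.e (nat_lit 2682) (nat_lit 168) (.e (nat_lit 204869) (nat_lit 29) (.e (nat_lit 360455) (nat_lit 0) (.e (nat_lit 3962) (nat_lit 239) .nil))))) .nil))) (.nd (nat_lit 5) 
(.lf (nat_lit 204379) (.g (nat_lit 2872) (.e (nat_lit 73781) (nat_lit 32) (.e (nat_lit 2682) (nat_lit 168) (.e (nat_lit 204869) (nat_lit 29) (.e (nat_lit 360448) (nat_lit 0) (.e (nat_lit 3918) (nat_lit 239) .nil))))) .nil)) 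
(.lf (nat_lit 204411) (.g (nat_lit 1729) (.e (nat_lit 73781) (nat_lit 32) (.e (nat_lit 2854) (nat_lit 184) (.e (nat_lit 426546) (nat_lit 30) (.e (nat_lit 360452) (nat_lit 0) (.e (nat_lit 5905) (nat_lit 320) (.e (nat_lit 1210) (nat_lit 89) .nil)))))) (.g (nat_lit 5) .nil .nil)))))) (.nd (nat_lit 3) (.nd (nat_lit 4) (.nd (nat_lit 5) 
(.lf (nat_lit 204359) (.g (nat_lit 1902) (.e (nat_lit 73781) (nat_lit 32) (.e (nat_lit 2664) (nat_lit 167) (.e (nat_lit 196670) (nat_lit 14) (.e (nat_lit 73791) (nat_lit 45) (.e (nat_lit 1140) (nat_lit 84) (.e (nat_lit 32788) (nat_lit 10) .nil)))))) (.g (nat_lit 0) .nil .nil))) 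
(.lf (nat_lit 204391) (.g (nat_lit 3982) (.e (nat_lit 73781) (nat_lit 32) (.e (nat_lit 2682) (nat_lit 168) (.e (nat_lit 204869) (nat_lit 29) (.e (nat_lit 360451) (nat_lit 0) (.e (nat_lit 3933) (nat_lit 239) .nil))))) .nil))) (.nd (nat_lit 5) 
(.lf (nat_lit 204375) (.g (nat_lit 1502) (.e (nat_lit 73781) (nat_lit 32) (.e (nat_lit 2682) (nat_lit 168) (.e (nat_lit 204869) (nat_lit 29) (.e (nat_lit 360448) (nat_lit 0) .nil)))) .nil)) 
(.lf (nat_lit 204407) (.g (nat_lit 788) (.e (nat_lit 73781) (nat_lit 32) (.e (nat_lit 2854) (nat_lit 184) (.e (nat_lit 426542) (nat_lit 29) (.e (nat_lit 352297) (nat_lit 20) (.e (nat_lit 7936) (nat_lit 137) .nil))))) .nil)))) (.nd (nat_lit 4) (.nd (nat_lit 5) 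
(.lf (nat_lit 204367) (.g (nat_lit 3018) (.e (nat_lit 73781) (nat_lit 32) (.e (nat_lit 2681) (nat_lit 168) (.e (nat_lit 204869) (nat_lit 29) (.e (nat_lit 360451) (nat_lit 0) (.e (nat_lit 3950) (nat_lit 239) .nil))))) .nil)) 
(.lf (nat_lit 204399) (.g (nat_lit 3713) (.e (nat_lit 73781) (nat_lit 32) (.e (nat_lit 2682) (nat_lit 168) (.e (nat_lit 204869) (nat_lit 29) (.e (nat_lit 360457) (nat_lit 0) (.e (nat_lit 3962) (nat_lit 239) (.e (nat_lit 1209) (nat_lit 89) .nil)))))) (.g (nat_lit 4) .nil .nil)))) (.nd (nat_lit 5) 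
(.lf (nat_lit 204383) (.g (nat_lit 2870) (.e (nat_lit 73781) (nat_lit 32) (.e (nat_lit 2682) (nat_lit 168) (.e (nat_lit 204869) (nat_lit 29) (.e (nat_lit 360448) (nat_lit 0) (.e (nat_lit 3972) (nat_lit 239) .nil))))) .nil)) 
(.lf (nat_lit 204415) (.g (nat_lit 2766) (.e (nat_lit 73781) (nat_lit 32) (.e (nat_lit 2854) (nat_lit 184) (.e (nat_lit 426555) (nat_lit 32) (.e (nat_lit 376857) (nat_lit 21) (.e (nat_lit 57873) (nat_lit 264) (.e (nat_lit 1211) (nat_lit 89) .nil)))))) (.g (nat_lit 0) .nil .nil)))))))))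

noncomputable def tv2696 : DT := (.nd (nat_lit 0) (.nd (nat_lit 1) (.nd (nat_lit 2) (.nd (nat_lit 3) (.nd (nat_lit 4) (.nd (nat_lit 5) 
(.lf (nat_lit 204416) (.g (nat_lit 2141) (.e (nat_lit 73781) (nat_lit 32) (.e (nat_lit 2854) (nat_lit 184) (.e (nat_lit 426555) (nat_lit 32) (.e (nat_lit 376859) (nat_lit 21) (.e (nat_lit 57872) (nat_lit 264) (.e (nat_lit 1211) (nat_lit 89) .nil)))))) (.g (nat_lit 5) .nil .nil))) 
(.lf (nat_lit 204448) (.g (nat_lit 811) (.e (nat_lit 73781) (nat_lit 32) (.e (nat_lit 2856) (nat_lit 184) (.e (nat_lit 426484) (nat_lit 27) .nil))) .nil))) (.nd (nat_lit 5) 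
(.lf (nat_lit 204432) (.g (nat_lit 2696) (.e (nat_lit 73781) (nat_lit 32) (.e (nat_lit 2855) (nat_lit 184) (.e (nat_lit 426546) (nat_lit 30) (.e (nat_lit 360452) (nat_lit 0) (.e (nat_lit 5907) (nat_lit 320) (.e (nat_lit 1209) (nat_lit 89) .nil)))))) (.g (nat_lit 6) .nil .nil))) 
(.lf (nat_lit 204464) (.g (nat_lit 2775) (.e (nat_lit 73781) (nat_lit 32) (.e (nat_lit 2856) (nat_lit 184) (.e (nat_lit 426530) (nat_lit 27) (.e (nat_lit 336116) (nat_lit 9) (.e (nat_lit 336331) (nat_lit 19) (.e (nat_lit 220928) (nat_lit 5) .nil)))))) (.g (nat_lit 5) .nil .nil))))) (.nd (nat_lit 4) (.nd (nat_lit 5) 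
(.lf (nat_lit 204424) (.g (nat_lit 749) (.e (nat_lit 73781) (nat_lit 32) (.e (nat_lit 2855) (nat_lit 184) (.e (nat_lit 426540) (nat_lit 29) (.e (nat_lit 352270) (nat_lit 8) .nil)))) .nil)) 
(.lf (nat_lit 204456) (.g (nat_lit 909) (.e (nat_lit 73781) (nat_lit 32) (.e (nat_lit 2856) (nat_lit 184) (.e (nat_lit 426509) (nat_lit 27) (.e (nat_lit 336177) (nat_lit 10) (.e (nat_lit 344168) (nat_lit 40) .nil))))) .nil))) (.nd (nat_lit 5) 
(.lf (nat_lit 204440) (.g (nat_lit 2402) (.e (nat_lit 73781) (nat_lit 32) (.e (nat_lit 2855) (nat_lit 184) (.e (nat_lit 426555) (nat_lit 32) (.e (nat_lit 376859) (nat_lit 21) (.e (nat_lit 57872) (nat_lit 264) (.e (nat_lit 1211) (nat_lit 89) .nil)))))) (.g (nat_lit 5) .nil .nil))) 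
(.lf (nat_lit 204472) (.g (nat_lit 3202) (.e (nat_lit 73781) (nat_lit 32) (.e (nat_lit 2856) (nat_lit 184) (.e (nat_lit 426538) (nat_lit 29) (.e (nat_lit 352318) (nat_lit 24) (.e (nat_lit 123184) (nat_lit 264) (.e (nat_lit 1214) (nat_lit 89) .nil)))))) (.g (nat_lit 0) .nil .nil)))))) (.nd (nat_lit 3) (.nd (nat_lit 4) (.nd (nat_lit 5) 
(.lf (nat_lit 204420) (.g (nat_lit 1496) (.e (nat_lit 73781) (nat_lit 32) (.e (nat_lit 2855) (nat_lit 184) (.e (nat_lit 426482) (nat_lit 27) (.e (nat_lit 336205) (nat_lit 12) (.e (nat_lit 385094) (nat_lit 49) .nil))))) .nil)) 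
(.lf (nat_lit 204452) (.g (nat_lit 658) (.e (nat_lit 73781) (nat_lit 32) (.e (nat_lit 2856) (nat_lit 184) (.e (nat_lit 426493) (nat_lit 27) .nil))) .nil))) (.nd (nat_lit 5) 
(.lf (nat_lit 204436) (.g (nat_lit 2470) (.e (nat_lit 73781) (nat_lit 32) (.e (nat_lit 2855) (nat_lit 184) (.e (nat_lit 426555) (nat_lit 32) (.e (nat_lit 376857) (nat_lit 21) (.e (nat_lit 57870) (nat_lit 264) (.e (nat_lit 1210) (nat_lit 89) .nil)))))) (.g (nat_lit 5) .nil .nil))) 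
(.lf (nat_lit 204468) (.g (nat_lit 778) (.e (nat_lit 73781) (nat_lit 32) (.e (nat_lit 2856) (nat_lit 184) (.e (nat_lit 426533) (nat_lit 28) (.e (nat_lit 352000) (nat_lit 8) .nil)))) .nil)))) (.nd (nat_lit 4) (.nd (nat_lit 5) 
(.lf (nat_lit 204428) (.g (nat_lit 1758) (.e (nat_lit 73781) (nat_lit 32) (.e (nat_lit 2855) (nat_lit 184) (.e (nat_lit 426542) (nat_lit 29) (.e (nat_lit 352318) (nat_lit 24) (.e (nat_lit 123182) (nat_lit 264) (.e (nat_lit 1212) (nat_lit 89) .nil)))))) (.g (nat_lit 4) .nil .nil))) 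
(.lf (nat_lit 204460) (.g (nat_lit 682) (.e (nat_lit 73781) (nat_lit 32) (.e (nat_lit 2856) (nat_lit 184) (.e (nat_lit 426515) (nat_lit 27) .nil))) .nil))) (.nd (nat_lit 5) 
(.lf (nat_lit 204444) (.g (nat_lit 2370) (.e (nat_lit 73781) (nat_lit 32) (.e (nat_lit 2855) (nat_lit 184) (.e (nat_lit 426555) (nat_lit 32) (.e (nat_lit 376860) (nat_lit 21) (.e (nat_lit 57870) (nat_lit 264) (.e (nat_lit 1211) (nat_lit 89) .nil)))))) (.g (nat_lit 5) .nil .nil))) 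
(.lf (nat_lit 204476) (.g (nat_lit 363) (.e (nat_lit 73781) (nat_lit 32) (.e (nat_lit 2856) (nat_lit 184) (.e (nat_lit 426540) (nat_lit 29) .nil))) .nil)))))) (.nd (nat_lit 2) (.nd (nat_lit 3) (.nd (nat_lit 4) (.nd (nat_lit 5) 
(.lf (nat_lit 204418) (.g (nat_lit 2221) (.e (nat_lit 73781) (nat_lit 32) (.e (nat_lit 2854) (nat_lit 184) (.e (nat_lit 426555) (nat_lit 32) (.e (nat_lit 376860) (nat_lit 21) (.e (nat_lit 57870) (nat_lit 264) (.e (nat_lit 1210) (nat_lit 89) .nil)))))) (.g (nat_lit 5) .nil .nil))) 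
(.lf (nat_lit 204450) (.g (nat_lit 1017) (.e (nat_lit 73781) (nat_lit 32) (.e (nat_lit 2856) (nat_lit 184) (.e (nat_lit 426487) (nat_lit 27) (.e (nat_lit 336206) (nat_lit 12) .nil)))) .nil))) (.nd (nat_lit 5) 
(.lf (nat_lit 204434) (.g (nat_lit 2530) (.e (nat_lit 73781) (nat_lit 32) (.e (nat_lit 2855) (nat_lit 184) (.e (nat_lit 426546) (nat_lit 30) (.e (nat_lit 360452) (nat_lit 0) (.e (nat_lit 5907) (nat_lit 320) (.e (nat_lit 1211) (nat_lit 89) .nil)))))) (.g (nat_lit 6) .nil .nil))) 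
(.lf (nat_lit 204466) (.g (nat_lit 1539) (.e (nat_lit 73781) (nat_lit 32) (.e (nat_lit 2856) (nat_lit 184) (.e (nat_lit 426530) (nat_lit 27) (.e (nat_lit 336121) (nat_lit 9) .nil)))) .nil)))) (.nd (nat_lit 4) (.nd (nat_lit 5) 
(.lf (nat_lit 204426) (.g (nat_lit 2010) (.e (nat_lit 73781) (nat_lit 32) (.e (nat_lit 2855) (nat_lit 184) (.e (nat_lit 426542) (nat_lit 29) (.e (nat_lit 352287) (nat_lit 20) (.e (nat_lit 1999) (nat_lit 137) (.e (nat_lit 663568) (nat_lit 5) .nil)))))) (.g (nat_lit 6) .nil .nil))) 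
(.lf (nat_lit 204458) (.g (nat_lit 809) (.e (nat_lit 73781) (nat_lit 32) (.e (nat_lit 2856) (nat_lit 184) (.e (nat_lit 426511) (nat_lit 27) .nil))) .nil))) (.nd (nat_lit 5) 
(.lf (nat_lit 204442) (.g (nat_lit 2933) (.e (nat_lit 73781) (nat_lit 32) (.e (nat_lit 2855) (nat_lit 184) (.e (nat_lit 426555) (nat_lit 32) (.e (nat_lit 376859) (nat_lit 21) (.e (nat_lit 57873) (nat_lit 264) (.e (nat_lit 1211) (nat_lit 89) .nil)))))) (.g (nat_lit 0) .nil .nil))) 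
(.lf (nat_lit 204474) (.g (nat_lit 544) (.e (nat_lit 73781) (nat_lit 32) (.e (nat_lit 2856) (nat_lit 184) (.e (nat_lit 426539) (nat_lit 29) .nil))) .nil))))) (.nd (nat_lit 3) (.nd (nat_lit 4) (.nd (nat_lit 5) 
(.lf (nat_lit 204422) (.g (nat_lit 1397) (.e (nat_lit 73781) (nat_lit 32) (.e (nat_lit 2855) (nat_lit 184) (.e (nat_lit 426540) (nat_lit 29) (.e (nat_lit 352262) (nat_lit 0) (.e (nat_lit 3630) (nat_lit 227) .nil))))) .nil)) 
(.lf (nat_lit 204454) (.g (nat_lit 1884) (.e (nat_lit 73781) (nat_lit 32) (.e (nat_lit 2856) (nat_lit 184) (.e (nat_lit 426509) (nat_lit 27) (.e (nat_lit 336102) (nat_lit 9) (.e (nat_lit 335907) (nat_lit 0) (.e (nat_lit 1996) (nat_lit 137) (.e (nat_lit 663568) (nat_lit 5) .nil))))))) (.g (nat_lit 5) .nil .nil)))) (.nd (nat_lit 5) 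
(.lf (nat_lit 204438) (.g (nat_lit 3170) (.e (nat_lit 73781) (nat_lit 32) (.e (nat_lit 2855) (nat_lit 184) (.e (nat_lit 426555) (nat_lit 32) (.e (nat_lit 376857) (nat_lit 21) (.e (nat_lit 57873) (nat_lit 264) (.e (nat_lit 1209) (nat_lit 89) .nil)))))) (.g (nat_lit 6) .nil .nil))) 
(.lf (nat_lit 204470) (.g (nat_lit 958) (.e (nat_lit 73781) (nat_lit 32) (.e (nat_lit 2856) (nat_lit 184) (.e (nat_lit 426538) (nat_lit 29) (.e (nat_lit 352309) (nat_lit 21) .nil)))) .nil)))) (.nd (nat_lit 4) (.nd (nat_lit 5) 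
(.lf (nat_lit 204430) (.g (nat_lit 1619) (.e (nat_lit 73781) (nat_lit 32) (.e (nat_lit 2855) (nat_lit 184) (.e (nat_lit 426544) (nat_lit 30) (.e (nat_lit 360457) (nat_lit 0) (.e (nat_lit 5818) (nat_lit 320) (.e (nat_lit 1214) (nat_lit 89) .nil)))))) (.g (nat_lit 5) .nil .nil))) 
(.lf (nat_lit 204462) (.g (nat_lit 1540) (.e (nat_lit 73781) (nat_lit 32) (.e (nat_lit 2856) (nat_lit 184) (.e (nat_lit 426530) (nat_lit 27) (.e (nat_lit 336113) (nat_lit 9) .nil)))) .nil))) (.nd (nat_lit 5) 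
(.lf (nat_lit 204446) (.g (nat_lit 2336) (.e (nat_lit 73781) (nat_lit 32) (.e (nat_lit 2856) (nat_lit 184) (.e (nat_lit 426479) (nat_lit 27) (.e (nat_lit 336208) (nat_lit 12) (.e (nat_lit 385094) (nat_lit 49) (.e (nat_lit 778324) (nat_lit 5) .nil)))))) (.g (nat_lit 4) .nil .nil))) 
(.lf (nat_lit 204478) (.g (nat_lit 2048) (.e (nat_lit 73781) (nat_lit 32) (.e (nat_lit 2856) (nat_lit 184) (.e (nat_lit 426540) (nat_lit 29) (.e (nat_lit 352258) (nat_lit 0) (.e (nat_lit 3716) (nat_lit 227) (.e (nat_lit 778322) (nat_lit 5) .nil)))))) (.g (nat_lit 0) .nil .nil)))))))) (.nd (nat_lit 1) (.nd (nat_lit 2) (.nd (nat_lit 3) (.nd (nat_lit 4) (.nd (nat_lit 5) 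
(.lf (nat_lit 204417) (.g (nat_lit 2716) (.e (nat_lit 73781) (nat_lit 32) (.e (nat_lit 2854) (nat_lit 184) (.e (nat_lit 426555) (nat_lit 32) (.e (nat_lit 376859) (nat_lit 21) (.e (nat_lit 57873) (nat_lit 264) (.e (nat_lit 1211) (nat_lit 89) .nil)))))) (.g (nat_lit 0) .nil .nil))) 
(.lf (nat_lit 204449) (.g (nat_lit 1744) (.e (nat_lit 73781) (nat_lit 32) (.e (nat_lit 2856) (nat_lit 184) (.e (nat_lit 426484) (nat_lit 27) (.e (nat_lit 336208) (nat_lit 12) (.e (nat_lit 385094) (nat_lit 49) .nil))))) .nil))) (.nd (nat_lit 5) 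
(.lf (nat_lit 204433) (.g (nat_lit 1682) (.e (nat_lit 73781) (nat_lit 32) (.e (nat_lit 2855) (nat_lit 184) (.e (nat_lit 426546) (nat_lit 30) (.e (nat_lit 360452) (nat_lit 0) (.e (nat_lit 5907) (nat_lit 320) (.e (nat_lit 1210) (nat_lit 89) .nil)))))) (.g (nat_lit 5) .nil .nil))) 
(.lf (nat_lit 204465) (.g (nat_lit 2097) (.e (nat_lit 73781) (nat_lit 32) (.e (nat_lit 2856) (nat_lit 184) (.e (nat_lit 426530) (nat_lit 27) (.e (nat_lit 336119) (nat_lit 9) (.e (nat_lit 336331) (nat_lit 19) (.e (nat_lit 220928) (nat_lit 5) .nil)))))) (.g (nat_lit 4) .nil .nil))))) (.nd (nat_lit 4) (.nd (nat_lit 5) 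
(.lf (nat_lit 204425) (.g (nat_lit 825) (.e (nat_lit 73781) (nat_lit 32) (.e (nat_lit 2855) (nat_lit 184) (.e (nat_lit 426542) (nat_lit 29) (.e (nat_lit 352285) (nat_lit 20) .nil)))) .nil)) 
(.lf (nat_lit 204457) (.g (nat_lit 662) (.e (nat_lit 73781) (nat_lit 32) (.e (nat_lit 2856) (nat_lit 184) (.e (nat_lit 426509) (nat_lit 27) (.e (nat_lit 336205) (nat_lit 12) .nil)))) .nil))) (.nd (nat_lit 5) 
(.lf (nat_lit 204441) (.g (nat_lit 3128) (.e (nat_lit 73781) (nat_lit 32) (.e (nat_lit 2855) (nat_lit 184) (.e (nat_lit 426555) (nat_lit 32) (.e (nat_lit 376859) (nat_lit 21) (.e (nat_lit 57873) (nat_lit 264) (.e (nat_lit 1209) (nat_lit 89) .nil)))))) (.g (nat_lit 6) .nil .nil))) 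
(.lf (nat_lit 204473) (.g (nat_lit 2181) (.e (nat_lit 73781) (nat_lit 32) (.e (nat_lit 2856) (nat_lit 184) (.e (nat_lit 426538) (nat_lit 29) (.e (nat_lit 352318) (nat_lit 24) (.e (nat_lit 123185) (nat_lit 264) (.e (nat_lit 1214) (nat_lit 89) .nil)))))) (.g (nat_lit 4) .nil .nil)))))) (.nd (nat_lit 3) (.nd (nat_lit 4) (.nd (nat_lit 5) 
(.lf (nat_lit 204421) (.g (nat_lit 864) (.e (nat_lit 73781) (nat_lit 32) (.e (nat_lit 2855) (nat_lit 184) (.e (nat_lit 426540) (nat_lit 29) (.e (nat_lit 352258) (nat_lit 0) .nil)))) .nil)) 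
(.lf (nat_lit 204453) (.g (nat_lit 2021) (.e (nat_lit 73781) (nat_lit 32) (.e (nat_lit 2856) (nat_lit 184) (.e (nat_lit 426509) (nat_lit 27) (.e (nat_lit 336102) (nat_lit 9) (.e (nat_lit 335907) (nat_lit 0) (.e (nat_lit 1994) (nat_lit 137) (.e (nat_lit 663568) (nat_lit 5) .nil))))))) (.g (nat_lit 5) .nil .nil)))) (.nd (nat_lit 5) 
(.lf (nat_lit 204437) (.g (nat_lit 2367) (.e (nat_lit 73781) (nat_lit 32) (.e (nat_lit 2855) (nat_lit 184) (.e (nat_lit 426555) (nat_lit 32) (.e (nat_lit 376857) (nat_lit 21) (.e (nat_lit 57872) (nat_lit 264) (.e (nat_lit 1211) (nat_lit 89) .nil)))))) (.g (nat_lit 5) .nil .nil))) 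
(.lf (nat_lit 204469) (.g (nat_lit 1067) (.e (nat_lit 73781) (nat_lit 32) (.e (nat_lit 2856) (nat_lit 184) (.e (nat_lit 426533) (nat_lit 28) (.e (nat_lit 344086) (nat_lit 17) .nil)))) .nil)))) (.nd (nat_lit 4) (.nd (nat_lit 5) 
(.lf (nat_lit 204429) (.g (nat_lit 2945) (.e (nat_lit 73781) (nat_lit 32) (.e (nat_lit 2855) (nat_lit 184) (.e (nat_lit 426542) (nat_lit 29) (.e (nat_lit 352318) (nat_lit 24) (.e (nat_lit 123182) (nat_lit 264) (.e (nat_lit 1214) (nat_lit 89) .nil)))))) (.g (nat_lit 6) .nil .nil))) 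
(.lf (nat_lit 204461) (.g (nat_lit 777) (.e (nat_lit 73781) (nat_lit 32) (.e (nat_lit 2856) (nat_lit 184) (.e (nat_lit 426530) (nat_lit 27) (.e (nat_lit 335874) (nat_lit 0) (.e (nat_lit 6202) (nat_lit 332) .nil))))) .nil))) (.nd (nat_lit 5) 
(.lf (nat_lit 204445) (.g (nat_lit 1518) (.e (nat_lit 73781) (nat_lit 32) (.e (nat_lit 2855) (nat_lit 184) (.e (nat_lit 426555) (nat_lit 32) (.e (nat_lit 376870) (nat_lit 24) .nil)))) .nil)) 
(.lf (nat_lit 204477) (.g (nat_lit 1563) (.e (nat_lit 73781) (nat_lit 32) (.e (nat_lit 2856) (nat_lit 184) (.e (nat_lit 426540) (nat_lit 29) (.e (nat_lit 352256) (nat_lit 0) .nil)))) .nil)))))) (.nd (nat_lit 2) (.nd (nat_lit 3) (.nd (nat_lit 4) (.nd (nat_lit 5) 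
(.lf (nat_lit 204419) (.g (nat_lit 2268) (.e (nat_lit 73781) (nat_lit 32) (.e (nat_lit 2854) (nat_lit 184) (.e (nat_lit 426555) (nat_lit 32) (.e (nat_lit 376860) (nat_lit 21) (.e (nat_lit 57870) (nat_lit 264) (.e (nat_lit 1211) (nat_lit 89) .nil)))))) (.g (nat_lit 5) .nil .nil))) 
(.lf (nat_lit 204451) (.g (nat_lit 1049) (.e (nat_lit 73781) (nat_lit 32) (.e (nat_lit 2856) (nat_lit 184) (.e (nat_lit 426489) (nat_lit 27) (.e (nat_lit 336118) (nat_lit 9) .nil)))) .nil))) (.nd (nat_lit 5) 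
(.lf (nat_lit 204435) (.g (nat_lit 1570) (.e (nat_lit 73781) (nat_lit 32) (.e (nat_lit 2855) (nat_lit 184) (.e (nat_lit 426555) (nat_lit 32) (.e (nat_lit 376837) (nat_lit 0) .nil)))) .nil)) 
(.lf (nat_lit 204467) (.g (nat_lit 255) (.e (nat_lit 73781) (nat_lit 32) (.e (nat_lit 2856) (nat_lit 184) (.e (nat_lit 426533) (nat_lit 28) .nil))) .nil)))) (.nd (nat_lit 4) (.nd (nat_lit 5) 
(.lf (nat_lit 204427) (.g (nat_lit 912) (.e (nat_lit 73781) (nat_lit 32) (.e (nat_lit 2855) (nat_lit 184) (.e (nat_lit 426542) (nat_lit 29) (.e (nat_lit 352317) (nat_lit 24) .nil)))) .nil)) 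
(.lf (nat_lit 204459) (.g (nat_lit 819) (.e (nat_lit 73781) (nat_lit 32) (.e (nat_lit 2856) (nat_lit 184) (.e (nat_lit 426512) (nat_lit 27) .nil))) .nil))) (.nd (nat_lit 5) 
(.lf (nat_lit 204443) (.g (nat_lit 2301) (.e (nat_lit 73781) (nat_lit 32) (.e (nat_lit 2855) (nat_lit 184) (.e (nat_lit 426555) (nat_lit 32) (.e (nat_lit 376860) (nat_lit 21) (.e (nat_lit 57870) (nat_lit 264) (.e (nat_lit 1210) (nat_lit 89) .nil)))))) (.g (nat_lit 5) .nil .nil))) 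
(.lf (nat_lit 204475) (.g (nat_lit 813) (.e (nat_lit 73781) (nat_lit 32) (.e (nat_lit 2856) (nat_lit 184) (.e (nat_lit 426539) (nat_lit 29) (.e (nat_lit 352270) (nat_lit 8) .nil)))) .nil))))) (.nd (nat_lit 3) (.nd (nat_lit 4) (.nd (nat_lit 5) 
(.lf (nat_lit 204423) (.g (nat_lit 769) (.e (nat_lit 73781) (nat_lit 32) (.e (nat_lit 2855) (nat_lit 184) (.e (nat_lit 426540) (nat_lit 29) (.e (nat_lit 360192) (nat_lit 4) .nil)))) .nil)) 
(.lf (nat_lit 204455) (.g (nat_lit 814) (.e (nat_lit 73781) (nat_lit 32) (.e (nat_lit 2856) (nat_lit 184) (.e (nat_lit 426509) (nat_lit 27) (.e (nat_lit 336104) (nat_lit 9) (.e (nat_lit 335907) (nat_lit 0) .nil))))) .nil))) (.nd (nat_lit 5) 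
(.lf (nat_lit 204439) (.g (nat_lit 2967) (.e (nat_lit 73781) (nat_lit 32) (.e (nat_lit 2855) (nat_lit 184) (.e (nat_lit 426555) (nat_lit 32) (.e (nat_lit 376857) (nat_lit 21) (.e (nat_lit 57873) (nat_lit 264) (.e (nat_lit 1211) (nat_lit 89) .nil)))))) (.g (nat_lit 0) .nil .nil))) 
(.lf (nat_lit 204471) (.g (nat_lit 2144) (.e (nat_lit 73781) (nat_lit 32) (.e (nat_lit 2856) (nat_lit 184) (.e (nat_lit 426538) (nat_lit 29) (.e (nat_lit 352309) (nat_lit 21) (.e (nat_lit 57872) (nat_lit 264) (.e (nat_lit 1211) (nat_lit 89) .nil)))))) (.g (nat_lit 4) .nil .nil))))) (.nd (nat_lit 4) (.nd (nat_lit 5) 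
(.lf (nat_lit 204431) (.g (nat_lit 1816) (.e (nat_lit 73781) (nat_lit 32) (.e (nat_lit 2855) (nat_lit 184) (.e (nat_lit 426546) (nat_lit 30) (.e (nat_lit 360452) (nat_lit 0) (.e (nat_lit 5905) (nat_lit 320) (.e (nat_lit 1210) (nat_lit 89) .nil)))))) (.g (nat_lit 5) .nil .nil))) 
(.lf (nat_lit 204463) (.g (nat_lit 1996) (.e (nat_lit 73781) (nat_lit 32) (.e (nat_lit 2856) (nat_lit 184) (.e (nat_lit 426530) (nat_lit 27) (.e (nat_lit 336116) (nat_lit 9) (.e (nat_lit 336329) (nat_lit 19) .nil))))) .nil))) (.nd (nat_lit 5) 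
(.lf (nat_lit 204447) (.g (nat_lit 802) (.e (nat_lit 73781) (nat_lit 32) (.e (nat_lit 2856) (nat_lit 184) (.e (nat_lit 426480) (nat_lit 27) .nil))) .nil)) 
(.lf (nat_lit 204479) (.g (nat_lit 1551) (.e (nat_lit 73781) (nat_lit 32) (.e (nat_lit 2856) (nat_lit 184) (.e (nat_lit 426540) (nat_lit 29) (.e (nat_lit 352261) (nat_lit 0) .nil)))) .nil))))))))

noncomputable def tv2697 : DT := (.nd (nat_lit 0) (.nd (nat_lit 1) (.nd (nat_lit 2) (.nd (nat_lit 3) (.nd (nat_lit 4) (.nd (nat_lit 5) 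
(.lf (nat_lit 204480) (.g (nat_lit 1939) (.e (nat_lit 73781) (nat_lit 32) (.e (nat_lit 2856) (nat_lit 184) (.e (nat_lit 426540) (nat_lit 29) (.e (nat_lit 352270) (nat_lit 8) (.e (nat_lit 270080) (nat_lit 5) .nil))))) (.g (nat_lit 4) .nil .nil))) 
(.lf (nat_lit 204512) (.g (nat_lit 1020) (.e (nat_lit 73781) (nat_lit 32) (.e (nat_lit 2856) (nat_lit 184) (.e (nat_lit 426546) (nat_lit 30) (.e (nat_lit 360449) (nat_lit 0) .nil)))) .nil))) (.nd (nat_lit 5) 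
(.lf (nat_lit 204496) (.g (nat_lit 3934) (.e (nat_lit 73781) (nat_lit 32) (.e (nat_lit 2856) (nat_lit 184) (.e (nat_lit 426542) (nat_lit 29) (.e (nat_lit 352307) (nat_lit 21) (.e (nat_lit 57873) (nat_lit 264) (.e (nat_lit 1211) (nat_lit 89) .nil)))))) (.g (nat_lit 0) .nil .nil))) 
(.lf (nat_lit 204528) (.g (nat_lit 2953) (.e (nat_lit 73781) (nat_lit 32) (.e (nat_lit 2856) (nat_lit 184) (.e (nat_lit 426555) (nat_lit 32) (.e (nat_lit 376859) (nat_lit 21) (.e (nat_lit 57872) (nat_lit 264) (.e (nat_lit 1211) (nat_lit 89) .nil)))))) (.g (nat_lit 5) .nil .nil))))) (.nd (nat_lit 4) (.nd (nat_lit 5) 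
(.lf (nat_lit 204488) (.g (nat_lit 1716) (.e (nat_lit 73781) (nat_lit 32) (.e (nat_lit 2856) (nat_lit 184) (.e (nat_lit 426542) (nat_lit 29) (.e (nat_lit 352291) (nat_lit 20) .nil)))) .nil)) 
(.lf (nat_lit 204520) (.g (nat_lit 3052) (.e (nat_lit 73781) (nat_lit 32) (.e (nat_lit 2856) (nat_lit 184) (.e (nat_lit 426555) (nat_lit 32) (.e (nat_lit 376857) (nat_lit 21) (.e (nat_lit 57870) (nat_lit 264) (.e (nat_lit 1210) (nat_lit 89) .nil)))))) (.g (nat_lit 6) .nil .nil)))) (.nd (nat_lit 5) 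
(.lf (nat_lit 204504) (.g (nat_lit 2782) (.e (nat_lit 73781) (nat_lit 32) (.e (nat_lit 2856) (nat_lit 184) (.e (nat_lit 426542) (nat_lit 29) (.e (nat_lit 352318) (nat_lit 24) (.e (nat_lit 123182) (nat_lit 264) (.e (nat_lit 1213) (nat_lit 89) .nil)))))) (.g (nat_lit 4) .nil .nil))) 
(.lf (nat_lit 204536) (.g (nat_lit 835) (.e (nat_lit 73781) (nat_lit 32) (.e (nat_lit 2857) (nat_lit 184) (.e (nat_lit 426540) (nat_lit 29) (.e (nat_lit 352287) (nat_lit 20) .nil)))) .nil))))) (.nd (nat_lit 3) (.nd (nat_lit 4) (.nd (nat_lit 5) 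
(.lf (nat_lit 204484) (.g (nat_lit 1424) (.e (nat_lit 73781) (nat_lit 32) (.e (nat_lit 2856) (nat_lit 184) (.e (nat_lit 426542) (nat_lit 29) (.e (nat_lit 352281) (nat_lit 20) .nil)))) .nil)) 
(.lf (nat_lit 204516) (.g (nat_lit 383) (.e (nat_lit 73781) (nat_lit 32) (.e (nat_lit 2856) (nat_lit 184) (.e (nat_lit 426555) (nat_lit 32) .nil))) .nil))) (.nd (nat_lit 5) 
(.lf (nat_lit 204500) (.g (nat_lit 2647) (.e (nat_lit 73781) (nat_lit 32) (.e (nat_lit 2856) (nat_lit 184) (.e (nat_lit 426542) (nat_lit 29) (.e (nat_lit 352316) (nat_lit 24) (.e (nat_lit 123182) (nat_lit 264) (.e (nat_lit 1213) (nat_lit 89) .nil)))))) (.g (nat_lit 4) .nil .nil))) 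
(.lf (nat_lit 204532) (.g (nat_lit 1226) (.e (nat_lit 73781) (nat_lit 32) (.e (nat_lit 2857) (nat_lit 184) (.e (nat_lit 426482) (nat_lit 27) (.e (nat_lit 336102) (nat_lit 9) .nil)))) .nil)))) (.nd (nat_lit 4) (.nd (nat_lit 5) 
(.lf (nat_lit 204492) (.g (nat_lit 2341) (.e (nat_lit 73781) (nat_lit 32) (.e (nat_lit 2856) (nat_lit 184) (.e (nat_lit 426542) (nat_lit 29) (.e (nat_lit 352307) (nat_lit 21) (.e (nat_lit 57871) (nat_lit 264) (.e (nat_lit 1211) (nat_lit 89) .nil)))))) (.g (nat_lit 4) .nil .nil))) 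
(.lf (nat_lit 204524) (.g (nat_lit 2135) (.e (nat_lit 73781) (nat_lit 32) (.e (nat_lit 2856) (nat_lit 184) (.e (nat_lit 426555) (nat_lit 32) (.e (nat_lit 376858) (nat_lit 21) .nil)))) .nil))) (.nd (nat_lit 5) 
(.lf (nat_lit 204508) (.g (nat_lit 1025) (.e (nat_lit 73781) (nat_lit 32) (.e (nat_lit 2856) (nat_lit 184) (.e (nat_lit 426544) (nat_lit 30) (.e (nat_lit 360449) (nat_lit 0) .nil)))) .nil)) 
(.lf (nat_lit 204540) (.g (nat_lit 1130) (.e (nat_lit 73781) (nat_lit 32) (.e (nat_lit 2857) (nat_lit 184) (.e (nat_lit 426542) (nat_lit 29) (.e (nat_lit 352302) (nat_lit 20) .nil)))) .nil)))))) (.nd (nat_lit 2) (.nd (nat_lit 3) (.nd (nat_lit 4) (.nd (nat_lit 5) 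
(.lf (nat_lit 204482) (.g (nat_lit 1725) (.e (nat_lit 73781) (nat_lit 32) (.e (nat_lit 2856) (nat_lit 184) (.e (nat_lit 426542) (nat_lit 29) (.e (nat_lit 352263) (nat_lit 0) .nil)))) .nil)) 
(.lf (nat_lit 204514) (.g (nat_lit 2310) (.e (nat_lit 73781) (nat_lit 32) (.e (nat_lit 2856) (nat_lit 184) (.e (nat_lit 426546) (nat_lit 30) (.e (nat_lit 360456) (nat_lit 0) (.e (nat_lit 5818) (nat_lit 320) (.e (nat_lit 1214) (nat_lit 89) .nil)))))) (.g (nat_lit 0) .nil .nil)))) (.nd (nat_lit 5) 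
(.lf (nat_lit 204498) (.g (nat_lit 2861) (.e (nat_lit 73781) (nat_lit 32) (.e (nat_lit 2856) (nat_lit 184) (.e (nat_lit 426542) (nat_lit 29) (.e (nat_lit 352309) (nat_lit 21) (.e (nat_lit 57873) (nat_lit 264) (.e (nat_lit 1210) (nat_lit 89) .nil)))))) (.g (nat_lit 5) .nil .nil))) 
(.lf (nat_lit 204530) (.g (nat_lit 3472) (.e (nat_lit 73781) (nat_lit 32) (.e (nat_lit 2856) (nat_lit 184) (.e (nat_lit 426555) (nat_lit 32) (.e (nat_lit 376859) (nat_lit 21) (.e (nat_lit 57873) (nat_lit 264) (.e (nat_lit 1211) (nat_lit 89) .nil)))))) (.g (nat_lit 0) .nil .nil))))) (.nd (nat_lit 4) (.nd (nat_lit 5) 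
(.lf (nat_lit 204490) (.g (nat_lit 1725) (.e (nat_lit 73781) (nat_lit 32) (.e (nat_lit 2856) (nat_lit 184) (.e (nat_lit 426542) (nat_lit 29) (.e (nat_lit 352302) (nat_lit 20) .nil)))) .nil)) 
(.lf (nat_lit 204522) (.g (nat_lit 2739) (.e (nat_lit 73781) (nat_lit 32) (.e (nat_lit 2856) (nat_lit 184) (.e (nat_lit 426555) (nat_lit 32) (.e (nat_lit 376857) (nat_lit 21) (.e (nat_lit 57873) (nat_lit 264) (.e (nat_lit 1210) (nat_lit 89) .nil)))))) (.g (nat_lit 5) .nil .nil)))) (.nd (nat_lit 5) 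
(.lf (nat_lit 204506) (.g (nat_lit 2733) (.e (nat_lit 73781) (nat_lit 32) (.e (nat_lit 2856) (nat_lit 184) (.e (nat_lit 426542) (nat_lit 29) (.e (nat_lit 352318) (nat_lit 24) (.e (nat_lit 123183) (nat_lit 264) (.e (nat_lit 1212) (nat_lit 89) .nil)))))) (.g (nat_lit 4) .nil .nil))) 
(.lf (nat_lit 204538) (.g (nat_lit 1129) (.e (nat_lit 73781) (nat_lit 32) (.e (nat_lit 2857) (nat_lit 184) (.e (nat_lit 426542) (nat_lit 29) (.e (nat_lit 352285) (nat_lit 20) (.e (nat_lit 1999) (nat_lit 137) .nil))))) .nil))))) (.nd (nat_lit 3) (.nd (nat_lit 4) (.nd (nat_lit 5) 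
(.lf (nat_lit 204486) (.g (nat_lit 2952) (.e (nat_lit 73781) (nat_lit 32) (.e (nat_lit 2856) (nat_lit 184) (.e (nat_lit 426542) (nat_lit 29) (.e (nat_lit 352287) (nat_lit 20) (.e (nat_lit 1999) (nat_lit 137) (.e (nat_lit 663568) (nat_lit 5) .nil)))))) (.g (nat_lit 0) .nil .nil))) 
(.lf (nat_lit 204518) (.g (nat_lit 2058) (.e (nat_lit 73781) (nat_lit 32) (.e (nat_lit 2856) (nat_lit 184) (.e (nat_lit 426555) (nat_lit 32) (.e (nat_lit 376844) (nat_lit 20) .nil)))) .nil))) (.nd (nat_lit 5) 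
(.lf (nat_lit 204502) (.g (nat_lit 3215) (.e (nat_lit 73781) (nat_lit 32) (.e (nat_lit 2856) (nat_lit 184) (.e (nat_lit 426542) (nat_lit 29) (.e (nat_lit 352316) (nat_lit 24) (.e (nat_lit 123184) (nat_lit 264) (.e (nat_lit 1214) (nat_lit 89) .nil)))))) (.g (nat_lit 6) .nil .nil))) 
(.lf (nat_lit 204534) (.g (nat_lit 465) (.e (nat_lit 73781) (nat_lit 32) (.e (nat_lit 2857) (nat_lit 184) (.e (nat_lit 426538) (nat_lit 29) .nil))) .nil)))) (.nd (nat_lit 4) (.nd (nat_lit 5) 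
(.lf (nat_lit 204494) (.g (nat_lit 3238) (.e (nat_lit 73781) (nat_lit 32) (.e (nat_lit 2856) (nat_lit 184) (.e (nat_lit 426542) (nat_lit 29) (.e (nat_lit 352307) (nat_lit 21) (.e (nat_lit 57872) (nat_lit 264) (.e (nat_lit 1211) (nat_lit 89) .nil)))))) (.g (nat_lit 0) .nil .nil))) 
(.lf (nat_lit 204526) (.g (nat_lit 2595) (.e (nat_lit 73781) (nat_lit 32) (.e (nat_lit 2856) (nat_lit 184) (.e (nat_lit 426555) (nat_lit 32) (.e (nat_lit 376859) (nat_lit 21) (.e (nat_lit 57871) (nat_lit 264) (.e (nat_lit 1209) (nat_lit 89) .nil)))))) (.g (nat_lit 4) .nil .nil)))) (.nd (nat_lit 5) 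
(.lf (nat_lit 204510) (.g (nat_lit 2176) (.e (nat_lit 73781) (nat_lit 32) (.e (nat_lit 2856) (nat_lit 184) (.e (nat_lit 426544) (nat_lit 30) (.e (nat_lit 360452) (nat_lit 0) (.e (nat_lit 5907) (nat_lit 320) (.e (nat_lit 1211) (nat_lit 89) .nil)))))) (.g (nat_lit 4) .nil .nil))) 
(.lf (nat_lit 204542) (.g (nat_lit 1860) (.e (nat_lit 73781) (nat_lit 32) (.e (nat_lit 2857) (nat_lit 184) (.e (nat_lit 426542) (nat_lit 29) (.e (nat_lit 352307) (nat_lit 21) (.e (nat_lit 57871) (nat_lit 264) (.e (nat_lit 1211) (nat_lit 89) .nil)))))) (.g (nat_lit 4) .nil .nil)))))))) (.nd (nat_lit 1) (.nd (nat_lit 2) (.nd (nat_lit 3) (.nd (nat_lit 4) (.nd (nat_lit 5) 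
(.lf (nat_lit 204481) (.g (nat_lit 1576) (.e (nat_lit 73781) (nat_lit 32) (.e (nat_lit 2856) (nat_lit 184) (.e (nat_lit 426540) (nat_lit 29) (.e (nat_lit 352286) (nat_lit 20) .nil)))) .nil)) 
(.lf (nat_lit 204513) (.g (nat_lit 2425) (.e (nat_lit 73781) (nat_lit 32) (.e (nat_lit 2856) (nat_lit 184) (.e (nat_lit 426546) (nat_lit 30) (.e (nat_lit 360452) (nat_lit 0) (.e (nat_lit 5907) (nat_lit 320) (.e (nat_lit 1210) (nat_lit 89) .nil)))))) (.g (nat_lit 5) .nil .nil)))) (.nd (nat_lit 5) 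
(.lf (nat_lit 204497) (.g (nat_lit 3738) (.e (nat_lit 73781) (nat_lit 32) (.e (nat_lit 2856) (nat_lit 184) (.e (nat_lit 426542) (nat_lit 29) (.e (nat_lit 352309) (nat_lit 21) (.e (nat_lit 57872) (nat_lit 264) (.e (nat_lit 1209) (nat_lit 89) .nil)))))) (.g (nat_lit 6) .nil .nil))) 
(.lf (nat_lit 204529) (.g (nat_lit 2796) (.e (nat_lit 73781) (nat_lit 32) (.e (nat_lit 2856) (nat_lit 184) (.e (nat_lit 426555) (nat_lit 32) (.e (nat_lit 376859) (nat_lit 21) (.e (nat_lit 57873) (nat_lit 264) (.e (nat_lit 1210) (nat_lit 89) .nil)))))) (.g (nat_lit 5) .nil .nil))))) (.nd (nat_lit 4) (.nd (nat_lit 5) 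
(.lf (nat_lit 204489) (.g (nat_lit 1725) (.e (nat_lit 73781) (nat_lit 32) (.e (nat_lit 2856) (nat_lit 184) (.e (nat_lit 426542) (nat_lit 29) (.e (nat_lit 352294) (nat_lit 20) .nil)))) .nil)) 
(.lf (nat_lit 204521) (.g (nat_lit 2900) (.e (nat_lit 73781) (nat_lit 32) (.e (nat_lit 2856) (nat_lit 184) (.e (nat_lit 426555) (nat_lit 32) (.e (nat_lit 376857) (nat_lit 21) (.e (nat_lit 57872) (nat_lit 264) (.e (nat_lit 1211) (nat_lit 89) .nil)))))) (.g (nat_lit 5) .nil .nil)))) (.nd (nat_lit 5) 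
(.lf (nat_lit 204505) (.g (nat_lit 3847) (.e (nat_lit 73781) (nat_lit 32) (.e (nat_lit 2856) (nat_lit 184) (.e (nat_lit 426542) (nat_lit 29) (.e (nat_lit 352318) (nat_lit 24) (.e (nat_lit 123182) (nat_lit 264) (.e (nat_lit 1214) (nat_lit 89) .nil)))))) (.g (nat_lit 6) .nil .nil))) 
(.lf (nat_lit 204537) (.g (nat_lit 319) (.e (nat_lit 73781) (nat_lit 32) (.e (nat_lit 2857) (nat_lit 184) (.e (nat_lit 426542) (nat_lit 29) .nil))) .nil))))) (.nd (nat_lit 3) (.nd (nat_lit 4) (.nd (nat_lit 5) 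
(.lf (nat_lit 204485) (.g (nat_lit 2762) (.e (nat_lit 73781) (nat_lit 32) (.e (nat_lit 2856) (nat_lit 184) (.e (nat_lit 426542) (nat_lit 29) (.e (nat_lit 352283) (nat_lit 20) (.e (nat_lit 1999) (nat_lit 137) (.e (nat_lit 663568) (nat_lit 5) .nil)))))) (.g (nat_lit 0) .nil .nil))) 
(.lf (nat_lit 204517) (.g (nat_lit 2042) (.e (nat_lit 73781) (nat_lit 32) (.e (nat_lit 2856) (nat_lit 184) (.e (nat_lit 426555) (nat_lit 32) (.e (nat_lit 376834) (nat_lit 0) .nil)))) .nil))) (.nd (nat_lit 5) 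
(.lf (nat_lit 204501) (.g (nat_lit 3690) (.e (nat_lit 73781) (nat_lit 32) (.e (nat_lit 2856) (nat_lit 184) (.e (nat_lit 426542) (nat_lit 29) (.e (nat_lit 352316) (nat_lit 24) (.e (nat_lit 123182) (nat_lit 264) (.e (nat_lit 1214) (nat_lit 89) .nil)))))) (.g (nat_lit 6) .nil .nil))) 
(.lf (nat_lit 204533) (.g (nat_lit 1809) (.e (nat_lit 73781) (nat_lit 32) (.e (nat_lit 2857) (nat_lit 184) (.e (nat_lit 426482) (nat_lit 27) (.e (nat_lit 336205) (nat_lit 12) (.e (nat_lit 385092) (nat_lit 49) .nil))))) .nil)))) (.nd (nat_lit 4) (.nd (nat_lit 5) 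
(.lf (nat_lit 204493) (.g (nat_lit 3717) (.e (nat_lit 73781) (nat_lit 32) (.e (nat_lit 2856) (nat_lit 184) (.e (nat_lit 426542) (nat_lit 29) (.e (nat_lit 352307) (nat_lit 21) (.e (nat_lit 57872) (nat_lit 264) (.e (nat_lit 1209) (nat_lit 89) .nil)))))) (.g (nat_lit 6) .nil .nil))) 
(.lf (nat_lit 204525) (.g (nat_lit 2852) (.e (nat_lit 73781) (nat_lit 32) (.e (nat_lit 2856) (nat_lit 184) (.e (nat_lit 426555) (nat_lit 32) (.e (nat_lit 376859) (nat_lit 21) (.e (nat_lit 57870) (nat_lit 264) (.e (nat_lit 1210) (nat_lit 89) .nil)))))) (.g (nat_lit 6) .nil .nil)))) (.nd (nat_lit 5) 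
(.lf (nat_lit 204509) (.g (nat_lit 2395) (.e (nat_lit 73781) (nat_lit 32) (.e (nat_lit 2856) (nat_lit 184) (.e (nat_lit 426544) (nat_lit 30) (.e (nat_lit 360452) (nat_lit 0) (.e (nat_lit 5907) (nat_lit 320) (.e (nat_lit 1209) (nat_lit 89) .nil)))))) (.g (nat_lit 4) .nil .nil))) 
(.lf (nat_lit 204541) (.g (nat_lit 2464) (.e (nat_lit 73781) (nat_lit 32) (.e (nat_lit 2857) (nat_lit 184) (.e (nat_lit 426542) (nat_lit 29) (.e (nat_lit 352307) (nat_lit 21) (.e (nat_lit 57870) (nat_lit 264) (.e (nat_lit 1210) (nat_lit 89) .nil)))))) (.g (nat_lit 0) .nil .nil))))))) (.nd (nat_lit 2) (.nd (nat_lit 3) (.nd (nat_lit 4) (.nd (nat_lit 5) 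
(.lf (nat_lit 204483) (.g (nat_lit 2095) (.e (nat_lit 73781) (nat_lit 32) (.e (nat_lit 2856) (nat_lit 184) (.e (nat_lit 426542) (nat_lit 29) (.e (nat_lit 352264) (nat_lit 0) (.e (nat_lit 3714) (nat_lit 227) (.e (nat_lit 778322) (nat_lit 5) .nil)))))) (.g (nat_lit 4) .nil .nil))) 
(.lf (nat_lit 204515) (.g (nat_lit 635) (.e (nat_lit 73781) (nat_lit 32) (.e (nat_lit 2856) (nat_lit 184) (.e (nat_lit 426553) (nat_lit 32) .nil))) .nil))) (.nd (nat_lit 5) 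
(.lf (nat_lit 204499) (.g (nat_lit 3716) (.e (nat_lit 73781) (nat_lit 32) (.e (nat_lit 2856) (nat_lit 184) (.e (nat_lit 426542) (nat_lit 29) (.e (nat_lit 352309) (nat_lit 21) (.e (nat_lit 57873) (nat_lit 264) (.e (nat_lit 1211) (nat_lit 89) .nil)))))) (.g (nat_lit 0) .nil .nil))) 
(.lf (nat_lit 204531) (.g (nat_lit 1313) (.e (nat_lit 73781) (nat_lit 32) (.e (nat_lit 2856) (nat_lit 184) (.e (nat_lit 426556) (nat_lit 32) (.e (nat_lit 376859) (nat_lit 21) (.e (nat_lit 57870) (nat_lit 264) .nil))))) .nil)))) (.nd (nat_lit 4) (.nd (nat_lit 5) 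
(.lf (nat_lit 204491) (.g (nat_lit 1725) (.e (nat_lit 73781) (nat_lit 32) (.e (nat_lit 2856) (nat_lit 184) (.e (nat_lit 426542) (nat_lit 29) (.e (nat_lit 352303) (nat_lit 20) .nil)))) .nil)) 
(.lf (nat_lit 204523) (.g (nat_lit 3515) (.e (nat_lit 73781) (nat_lit 32) (.e (nat_lit 2856) (nat_lit 184) (.e (nat_lit 426555) (nat_lit 32) (.e (nat_lit 376857) (nat_lit 21) (.e (nat_lit 57873) (nat_lit 264) (.e (nat_lit 1211) (nat_lit 89) .nil)))))) (.g (nat_lit 0) .nil .nil)))) (.nd (nat_lit 5) 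
(.lf (nat_lit 204507) (.g (nat_lit 388) (.e (nat_lit 73781) (nat_lit 32) (.e (nat_lit 2856) (nat_lit 184) (.e (nat_lit 426544) (nat_lit 30) .nil))) .nil)) 
(.lf (nat_lit 204539) (.g (nat_lit 811) (.e (nat_lit 73781) (nat_lit 32) (.e (nat_lit 2857) (nat_lit 184) (.e (nat_lit 426542) (nat_lit 29) (.e (nat_lit 352290) (nat_lit 20) .nil)))) .nil))))) (.nd (nat_lit 3) (.nd (nat_lit 4) (.nd (nat_lit 5) 
(.lf (nat_lit 204487) (.g (nat_lit 1121) (.e (nat_lit 73781) (nat_lit 32) (.e (nat_lit 2856) (nat_lit 184) (.e (nat_lit 426542) (nat_lit 29) (.e (nat_lit 352290) (nat_lit 20) .nil)))) .nil)) 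
(.lf (nat_lit 204519) (.g (nat_lit 2122) (.e (nat_lit 73781) (nat_lit 32) (.e (nat_lit 2856) (nat_lit 184) (.e (nat_lit 426555) (nat_lit 32) (.e (nat_lit 376856) (nat_lit 21) .nil)))) .nil))) (.nd (nat_lit 5) 
(.lf (nat_lit 204503) (.g (nat_lit 3168) (.e (nat_lit 73781) (nat_lit 32) (.e (nat_lit 2856) (nat_lit 184) (.e (nat_lit 426542) (nat_lit 29) (.e (nat_lit 352316) (nat_lit 24) (.e (nat_lit 123185) (nat_lit 264) (.e (nat_lit 1214) (nat_lit 89) .nil)))))) (.g (nat_lit 0) .nil .nil))) 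
(.lf (nat_lit 204535) (.g (nat_lit 1395) (.e (nat_lit 73781) (nat_lit 32) (.e (nat_lit 2857) (nat_lit 184) (.e (nat_lit 426540) (nat_lit 29) (.e (nat_lit 352270) (nat_lit 8) (.e (nat_lit 270080) (nat_lit 5) .nil))))) (.g (nat_lit 4) .nil .nil))))) (.nd (nat_lit 4) (.nd (nat_lit 5) 
(.lf (nat_lit 204495) (.g (nat_lit 3025) (.e (nat_lit 73781) (nat_lit 32) (.e (nat_lit 2856) (nat_lit 184) (.e (nat_lit 426542) (nat_lit 29) (.e (nat_lit 352307) (nat_lit 21) (.e (nat_lit 57873) (nat_lit 264) (.e (nat_lit 1210) (nat_lit 89) .nil)))))) (.g (nat_lit 5) .nil .nil))) 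
(.lf (nat_lit 204527) (.g (nat_lit 2287) (.e (nat_lit 73781) (nat_lit 32) (.e (nat_lit 2856) (nat_lit 184) (.e (nat_lit 426555) (nat_lit 32) (.e (nat_lit 376859) (nat_lit 21) (.e (nat_lit 57871) (nat_lit 264) (.e (nat_lit 1210) (nat_lit 89) .nil)))))) (.g (nat_lit 4) .nil .nil)))) (.nd (nat_lit 5) 
(.lf (nat_lit 204511) (.g (nat_lit 2421) (.e (nat_lit 73781) (nat_lit 32) (.e (nat_lit 2856) (nat_lit 184) (.e (nat_lit 426544) (nat_lit 30) (.e (nat_lit 360453) (nat_lit 0) (.e (nat_lit 5907) (nat_lit 320) (.e (nat_lit 1210) (nat_lit 89) .nil)))))) (.g (nat_lit 5) .nil .nil))) 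
(.lf (nat_lit 204543) (.g (nat_lit 3176) (.e (nat_lit 73781) (nat_lit 32) (.e (nat_lit 2857) (nat_lit 184) (.e (nat_lit 426542) (nat_lit 29) (.e (nat_lit 352307) (nat_lit 21) (.e (nat_lit 57872) (nat_lit 264) (.e (nat_lit 1209) (nat_lit 89) .nil)))))) (.g (nat_lit 6) .nil .nil)))))))))

noncomputable def tv2698 : DT := (.nd (nat_lit 0) (.nd (nat_lit 1) (.nd (nat_lit 2) (.nd (nat_lit 3) (.nd (nat_lit 4) (.nd (nat_lit 5) 
(.lf (nat_lit 204544) (.g (nat_lit 2753) (.e (nat_lit 73781) (nat_lit 32) (.e (nat_lit 2857) (nat_lit 184) (.e (nat_lit 426542) (nat_lit 29) (.e (nat_lit 352307) (nat_lit 21) (.e (nat_lit 57872) (nat_lit 264) (.e (nat_lit 1211) (nat_lit 89) .nil)))))) (.g (nat_lit 0) .nil .nil))) 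
(.lf (nat_lit 204576) (.g (nat_lit 2185) (.e (nat_lit 73781) (nat_lit 32) (.e (nat_lit 2857) (nat_lit 184) (.e (nat_lit 426555) (nat_lit 32) (.e (nat_lit 376860) (nat_lit 21) (.e (nat_lit 57870) (nat_lit 264) (.e (nat_lit 1211) (nat_lit 89) .nil)))))) (.g (nat_lit 4) .nil .nil)))) (.nd (nat_lit 5) 
(.lf (nat_lit 204560) (.g (nat_lit 1508) (.e (nat_lit 73781) (nat_lit 32) (.e (nat_lit 2857) (nat_lit 184) (.e (nat_lit 426544) (nat_lit 30) (.e (nat_lit 368384) (nat_lit 0) (.e (nat_lit 5906) (nat_lit 320) (.e (nat_lit 1211) (nat_lit 89) .nil)))))) (.g (nat_lit 5) .nil .nil))) 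
(.lf (nat_lit 204592) (.g (nat_lit 2286) (.e (nat_lit 73781) (nat_lit 32) (.e (nat_lit 3087) (nat_lit 191) (.e (nat_lit 483394) (nat_lit 24) (.e (nat_lit 344097) (nat_lit 18) (.e (nat_lit 5905) (nat_lit 320) (.e (nat_lit 1211) (nat_lit 89) .nil)))))) (.g (nat_lit 5) .nil .nil))))) (.nd (nat_lit 4) (.nd (nat_lit 5) 
(.lf (nat_lit 204552) (.g (nat_lit 2652) (.e (nat_lit 73781) (nat_lit 32) (.e (nat_lit 2857) (nat_lit 184) (.e (nat_lit 426542) (nat_lit 29) (.e (nat_lit 352316) (nat_lit 24) (.e (nat_lit 123185) (nat_lit 264) (.e (nat_lit 1214) (nat_lit 89) .nil)))))) (.g (nat_lit 0) .nil .nil))) 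
(.lf (nat_lit 204584) (.g (nat_lit 151) (.e (nat_lit 73781) (nat_lit 32) (.e (nat_lit 3087) (nat_lit 191) (.e (nat_lit 483384) (nat_lit 23) .nil))) .nil))) (.nd (nat_lit 5) 
(.lf (nat_lit 204568) (.g (nat_lit 2493) (.e (nat_lit 73781) (nat_lit 32) (.e (nat_lit 2857) (nat_lit 184) (.e (nat_lit 426555) (nat_lit 32) (.e (nat_lit 376857) (nat_lit 21) (.e (nat_lit 57870) (nat_lit 264) (.e (nat_lit 1211) (nat_lit 89) .nil)))))) (.g (nat_lit 4) .nil .nil))) 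
(.lf (nat_lit 204600) (.g (nat_lit 489) (.e (nat_lit 73781) (nat_lit 32) (.e (nat_lit 3088) (nat_lit 191) (.e (nat_lit 483376) (nat_lit 22) .nil))) .nil))))) (.nd (nat_lit 3) (.nd (nat_lit 4) (.nd (nat_lit 5) 
(.lf (nat_lit 204548) (.g (nat_lit 3213) (.e (nat_lit 73781) (nat_lit 32) (.e (nat_lit 2857) (nat_lit 184) (.e (nat_lit 426542) (nat_lit 29) (.e (nat_lit 352309) (nat_lit 21) (.e (nat_lit 57872) (nat_lit 264) (.e (nat_lit 1209) (nat_lit 89) .nil)))))) (.g (nat_lit 6) .nil .nil))) 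
(.lf (nat_lit 204580) (.g (nat_lit 1719) (.e (nat_lit 73781) (nat_lit 32) (.e (nat_lit 3087) (nat_lit 191) (.e (nat_lit 483378) (nat_lit 23) (.e (nat_lit 335997) (nat_lit 1) (.e (nat_lit 57870) (nat_lit 264) (.e (nat_lit 1210) (nat_lit 89) .nil)))))) (.g (nat_lit 0) .nil .nil)))) (.nd (nat_lit 5) 
(.lf (nat_lit 204564) (.g (nat_lit 2567) (.e (nat_lit 73781) (nat_lit 32) (.e (nat_lit 2857) (nat_lit 184) (.e (nat_lit 426546) (nat_lit 30) (.e (nat_lit 360452) (nat_lit 0) (.e (nat_lit 5905) (nat_lit 320) (.e (nat_lit 1211) (nat_lit 89) .nil)))))) (.g (nat_lit 0) .nil .nil))) 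
(.lf (nat_lit 204596) (.g (nat_lit 2776) (.e (nat_lit 73781) (nat_lit 32) (.e (nat_lit 3087) (nat_lit 191) (.e (nat_lit 483395) (nat_lit 24) (.e (nat_lit 344097) (nat_lit 18) (.e (nat_lit 5907) (nat_lit 320) (.e (nat_lit 1209) (nat_lit 89) .nil)))))) (.g (nat_lit 6) .nil .nil))))) (.nd (nat_lit 4) (.nd (nat_lit 5) 
(.lf (nat_lit 204556) (.g (nat_lit 3025) (.e (nat_lit 73781) (nat_lit 32) (.e (nat_lit 2857) (nat_lit 184) (.e (nat_lit 426544) (nat_lit 30) (.e (nat_lit 360453) (nat_lit 0) (.e (nat_lit 5907) (nat_lit 320) (.e (nat_lit 1211) (nat_lit 89) .nil)))))) (.g (nat_lit 0) .nil .nil))) 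
(.lf (nat_lit 204588) (.g (nat_lit 1957) (.e (nat_lit 73781) (nat_lit 32) (.e (nat_lit 3087) (nat_lit 191) (.e (nat_lit 483393) (nat_lit 23) (.e (nat_lit 335986) (nat_lit 1) (.e (nat_lit 57873) (nat_lit 264) (.e (nat_lit 1211) (nat_lit 89) .nil)))))) (.g (nat_lit 5) .nil .nil)))) (.nd (nat_lit 5) 
(.lf (nat_lit 204572) (.g (nat_lit 2379) (.e (nat_lit 73781) (nat_lit 32) (.e (nat_lit 2857) (nat_lit 184) (.e (nat_lit 426555) (nat_lit 32) (.e (nat_lit 376859) (nat_lit 21) (.e (nat_lit 57870) (nat_lit 264) (.e (nat_lit 1211) (nat_lit 89) .nil)))))) (.g (nat_lit 4) .nil .nil))) 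
(.lf (nat_lit 204604) (.g (nat_lit 489) (.e (nat_lit 73781) (nat_lit 32) (.e (nat_lit 3088) (nat_lit 191) (.e (nat_lit 483379) (nat_lit 23) .nil))) .nil)))))) (.nd (nat_lit 2) (.nd (nat_lit 3) (.nd (nat_lit 4) (.nd (nat_lit 5) 
(.lf (nat_lit 204546) (.g (nat_lit 3449) (.e (nat_lit 73781) (nat_lit 32) (.e (nat_lit 2857) (nat_lit 184) (.e (nat_lit 426542) (nat_lit 29) (.e (nat_lit 352307) (nat_lit 21) (.e (nat_lit 57873) (nat_lit 264) (.e (nat_lit 1211) (nat_lit 89) .nil)))))) (.g (nat_lit 0) .nil .nil))) 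
(.lf (nat_lit 204578) (.g (nat_lit 518) (.e (nat_lit 73781) (nat_lit 32) (.e (nat_lit 3067) (nat_lit 190) (.e (nat_lit 475143) (nat_lit 8) .nil))) .nil))) (.nd (nat_lit 5) 
(.lf (nat_lit 204562) (.g (nat_lit 323) (.e (nat_lit 73781) (nat_lit 32) (.e (nat_lit 2857) (nat_lit 184) (.e (nat_lit 426546) (nat_lit 30) .nil))) .nil)) 
(.lf (nat_lit 204594) (.g (nat_lit 2135) (.e (nat_lit 73781) (nat_lit 32) (.e (nat_lit 3087) (nat_lit 191) (.e (nat_lit 483395) (nat_lit 24) (.e (nat_lit 344097) (nat_lit 18) (.e (nat_lit 5905) (nat_lit 320) (.e (nat_lit 1211) (nat_lit 89) .nil)))))) (.g (nat_lit 5) .nil .nil))))) (.nd (nat_lit 4) (.nd (nat_lit 5) 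
(.lf (nat_lit 204554) (.g (nat_lit 3325) (.e (nat_lit 73781) (nat_lit 32) (.e (nat_lit 2857) (nat_lit 184) (.e (nat_lit 426542) (nat_lit 29) (.e (nat_lit 352318) (nat_lit 24) (.e (nat_lit 123182) (nat_lit 264) (.e (nat_lit 1214) (nat_lit 89) .nil)))))) (.g (nat_lit 6) .nil .nil))) 
(.lf (nat_lit 204586) (.g (nat_lit 1308) (.e (nat_lit 73781) (nat_lit 32) (.e (nat_lit 3087) (nat_lit 191) (.e (nat_lit 483393) (nat_lit 23) (.e (nat_lit 335986) (nat_lit 1) (.e (nat_lit 57871) (nat_lit 264) (.e (nat_lit 1210) (nat_lit 89) .nil)))))) (.g (nat_lit 4) .nil .nil)))) (.nd (nat_lit 5) 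
(.lf (nat_lit 204570) (.g (nat_lit 2940) (.e (nat_lit 73781) (nat_lit 32) (.e (nat_lit 2857) (nat_lit 184) (.e (nat_lit 426555) (nat_lit 32) (.e (nat_lit 376857) (nat_lit 21) (.e (nat_lit 57873) (nat_lit 264) (.e (nat_lit 1211) (nat_lit 89) .nil)))))) (.g (nat_lit 5) .nil .nil))) 
(.lf (nat_lit 204602) (.g (nat_lit 1400) (.e (nat_lit 73781) (nat_lit 32) (.e (nat_lit 3088) (nat_lit 191) (.e (nat_lit 483378) (nat_lit 23) (.e (nat_lit 335907) (nat_lit 0) (.e (nat_lit 1996) (nat_lit 137) .nil))))) .nil))))) (.nd (nat_lit 3) (.nd (nat_lit 4) (.nd (nat_lit 5) 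
(.lf (nat_lit 204550) (.g (nat_lit 3237) (.e (nat_lit 73781) (nat_lit 32) (.e (nat_lit 2857) (nat_lit 184) (.e (nat_lit 426542) (nat_lit 29) (.e (nat_lit 352309) (nat_lit 21) (.e (nat_lit 57873) (nat_lit 264) (.e (nat_lit 1211) (nat_lit 89) .nil)))))) (.g (nat_lit 0) .nil .nil))) 
(.lf (nat_lit 204582) (.g (nat_lit 2271) (.e (nat_lit 73781) (nat_lit 32) (.e (nat_lit 3087) (nat_lit 191) (.e (nat_lit 483383) (nat_lit 23) (.e (nat_lit 336240) (nat_lit 15) (.e (nat_lit 3623) (nat_lit 227) .nil))))) .nil))) (.nd (nat_lit 5) 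
(.lf (nat_lit 204566) (.g (nat_lit 2073) (.e (nat_lit 73781) (nat_lit 32) (.e (nat_lit 2857) (nat_lit 184) (.e (nat_lit 426546) (nat_lit 30) (.e (nat_lit 360456) (nat_lit 0) (.e (nat_lit 5818) (nat_lit 320) (.e (nat_lit 1214) (nat_lit 89) .nil)))))) (.g (nat_lit 0) .nil .nil))) 
(.lf (nat_lit 204598) (.g (nat_lit 1432) (.e (nat_lit 73781) (nat_lit 32) (.e (nat_lit 3087) (nat_lit 191) (.e (nat_lit 483403) (nat_lit 26) (.e (nat_lit 385096) (nat_lit 49) (.e (nat_lit 786176) (nat_lit 5) .nil))))) .nil)))) (.nd (nat_lit 4) (.nd (nat_lit 5) 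
(.lf (nat_lit 204558) (.g (nat_lit 880) (.e (nat_lit 73781) (nat_lit 32) (.e (nat_lit 2857) (nat_lit 184) (.e (nat_lit 426544) (nat_lit 30) (.e (nat_lit 360457) (nat_lit 0) (.e (nat_lit 5818) (nat_lit 320) .nil))))) .nil)) 
(.lf (nat_lit 204590) (.g (nat_lit 1908) (.e (nat_lit 73781) (nat_lit 32) (.e (nat_lit 3087) (nat_lit 191) (.e (nat_lit 483393) (nat_lit 23) (.e (nat_lit 335996) (nat_lit 1) (.e (nat_lit 57870) (nat_lit 264) (.e (nat_lit 1209) (nat_lit 89) .nil)))))) (.g (nat_lit 4) .nil .nil)))) (.nd (nat_lit 5) 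
(.lf (nat_lit 204574) (.g (nat_lit 2787) (.e (nat_lit 73781) (nat_lit 32) (.e (nat_lit 2857) (nat_lit 184) (.e (nat_lit 426555) (nat_lit 32) (.e (nat_lit 376859) (nat_lit 21) (.e (nat_lit 57873) (nat_lit 264) (.e (nat_lit 1211) (nat_lit 89) .nil)))))) (.g (nat_lit 5) .nil .nil))) 
(.lf (nat_lit 204606) (.g (nat_lit 1816) (.e (nat_lit 73781) (nat_lit 32) (.e (nat_lit 3088) (nat_lit 191) (.e (nat_lit 483380) (nat_lit 23) (.e (nat_lit 336332) (nat_lit 19) (.e (nat_lit 220928) (nat_lit 5) .nil))))) .nil))))))) (.nd (nat_lit 1) (.nd (nat_lit 2) (.nd (nat_lit 3) (.nd (nat_lit 4) (.nd (nat_lit 5) 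
(.lf (nat_lit 204545) (.g (nat_lit 2523) (.e (nat_lit 73781) (nat_lit 32) (.e (nat_lit 2857) (nat_lit 184) (.e (nat_lit 426542) (nat_lit 29) (.e (nat_lit 352307) (nat_lit 21) (.e (nat_lit 57873) (nat_lit 264) (.e (nat_lit 1210) (nat_lit 89) .nil)))))) (.g (nat_lit 5) .nil .nil))) 
(.lf (nat_lit 204577) (.g (nat_lit 524) (.e (nat_lit 73781) (nat_lit 32) (.e (nat_lit 3067) (nat_lit 190) (.e (nat_lit 475142) (nat_lit 8) .nil))) .nil))) (.nd (nat_lit 5) 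
(.lf (nat_lit 204561) (.g (nat_lit 589) (.e (nat_lit 73781) (nat_lit 32) (.e (nat_lit 2857) (nat_lit 184) (.e (nat_lit 426545) (nat_lit 30) (.e (nat_lit 368384) (nat_lit 17) .nil)))) .nil)) 
(.lf (nat_lit 204593) (.g (nat_lit 2915) (.e (nat_lit 73781) (nat_lit 32) (.e (nat_lit 3087) (nat_lit 191) (.e (nat_lit 483394) (nat_lit 24) (.e (nat_lit 344097) (nat_lit 18) (.e (nat_lit 5907) (nat_lit 320) (.e (nat_lit 1211) (nat_lit 89) .nil)))))) (.g (nat_lit 0) .nil .nil))))) (.nd (nat_lit 4) (.nd (nat_lit 5) 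
(.lf (nat_lit 204553) (.g (nat_lit 2584) (.e (nat_lit 73781) (nat_lit 32) (.e (nat_lit 2857) (nat_lit 184) (.e (nat_lit 426542) (nat_lit 29) (.e (nat_lit 352317) (nat_lit 24) (.e (nat_lit 123182) (nat_lit 264) (.e (nat_lit 1214) (nat_lit 89) .nil)))))) (.g (nat_lit 5) .nil .nil))) 
(.lf (nat_lit 204585) (.g (nat_lit 764) (.e (nat_lit 73781) (nat_lit 32) (.e (nat_lit 3087) (nat_lit 191) (.e (nat_lit 483389) (nat_lit 23) (.e (nat_lit 335907) (nat_lit 0) (.e (nat_lit 1996) (nat_lit 137) .nil))))) .nil))) (.nd (nat_lit 5) 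
(.lf (nat_lit 204569) (.g (nat_lit 2343) (.e (nat_lit 73781) (nat_lit 32) (.e (nat_lit 2857) (nat_lit 184) (.e (nat_lit 426555) (nat_lit 32) (.e (nat_lit 376857) (nat_lit 21) (.e (nat_lit 57872) (nat_lit 264) (.e (nat_lit 1211) (nat_lit 89) .nil)))))) (.g (nat_lit 4) .nil .nil))) 
(.lf (nat_lit 204601) (.g (nat_lit 1388) (.e (nat_lit 73781) (nat_lit 32) (.e (nat_lit 3088) (nat_lit 191) (.e (nat_lit 483378) (nat_lit 23) (.e (nat_lit 335907) (nat_lit 0) (.e (nat_lit 1994) (nat_lit 137) .nil))))) .nil))))) (.nd (nat_lit 3) (.nd (nat_lit 4) (.nd (nat_lit 5) 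
(.lf (nat_lit 204549) (.g (nat_lit 2365) (.e (nat_lit 73781) (nat_lit 32) (.e (nat_lit 2857) (nat_lit 184) (.e (nat_lit 426542) (nat_lit 29) (.e (nat_lit 352309) (nat_lit 21) (.e (nat_lit 57873) (nat_lit 264) (.e (nat_lit 1210) (nat_lit 89) .nil)))))) (.g (nat_lit 5) .nil .nil))) 
(.lf (nat_lit 204581) (.g (nat_lit 501) (.e (nat_lit 73781) (nat_lit 32) (.e (nat_lit 3087) (nat_lit 191) (.e (nat_lit 483379) (nat_lit 23) (.e (nat_lit 336330) (nat_lit 19) .nil)))) .nil))) (.nd (nat_lit 5) 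
(.lf (nat_lit 204565) (.g (nat_lit 2202) (.e (nat_lit 73781) (nat_lit 32) (.e (nat_lit 2857) (nat_lit 184) (.e (nat_lit 426546) (nat_lit 30) (.e (nat_lit 360452) (nat_lit 0) (.e (nat_lit 5907) (nat_lit 320) (.e (nat_lit 1210) (nat_lit 89) .nil)))))) (.g (nat_lit 5) .nil .nil))) 
(.lf (nat_lit 204597) (.g (nat_lit 2771) (.e (nat_lit 73781) (nat_lit 32) (.e (nat_lit 3087) (nat_lit 191) (.e (nat_lit 483395) (nat_lit 24) (.e (nat_lit 344097) (nat_lit 18) (.e (nat_lit 5907) (nat_lit 320) (.e (nat_lit 1211) (nat_lit 89) .nil)))))) (.g (nat_lit 0) .nil .nil))))) (.nd (nat_lit 4) (.nd (nat_lit 5) 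
(.lf (nat_lit 204557) (.g (nat_lit 734) (.e (nat_lit 73781) (nat_lit 32) (.e (nat_lit 2857) (nat_lit 184) (.e (nat_lit 426544) (nat_lit 30) (.e (nat_lit 360455) (nat_lit 0) .nil)))) .nil)) 
(.lf (nat_lit 204589) (.g (nat_lit 1486) (.e (nat_lit 73781) (nat_lit 32) (.e (nat_lit 3087) (nat_lit 191) (.e (nat_lit 483393) (nat_lit 23) (.e (nat_lit 335988) (nat_lit 1) (.e (nat_lit 57870) (nat_lit 264) (.e (nat_lit 1211) (nat_lit 89) .nil)))))) (.g (nat_lit 4) .nil .nil)))) (.nd (nat_lit 5) 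
(.lf (nat_lit 204573) (.g (nat_lit 2300) (.e (nat_lit 73781) (nat_lit 32) (.e (nat_lit 2857) (nat_lit 184) (.e (nat_lit 426555) (nat_lit 32) (.e (nat_lit 376859) (nat_lit 21) (.e (nat_lit 57872) (nat_lit 264) (.e (nat_lit 1211) (nat_lit 89) .nil)))))) (.g (nat_lit 4) .nil .nil))) 
(.lf (nat_lit 204605) (.g (nat_lit 826) (.e (nat_lit 73781) (nat_lit 32) (.e (nat_lit 3088) (nat_lit 191) (.e (nat_lit 483379) (nat_lit 23) (.e (nat_lit 336332) (nat_lit 19) .nil)))) .nil)))))) (.nd (nat_lit 2) (.nd (nat_lit 3) (.nd (nat_lit 4) (.nd (nat_lit 5) 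
(.lf (nat_lit 204547) (.g (nat_lit 2413) (.e (nat_lit 73781) (nat_lit 32) (.e (nat_lit 2857) (nat_lit 184) (.e (nat_lit 426542) (nat_lit 29) (.e (nat_lit 352309) (nat_lit 21) (.e (nat_lit 57870) (nat_lit 264) (.e (nat_lit 1210) (nat_lit 89) .nil)))))) (.g (nat_lit 0) .nil .nil))) 
(.lf (nat_lit 204579) (.g (nat_lit 472) (.e (nat_lit 73781) (nat_lit 32) (.e (nat_lit 3067) (nat_lit 190) (.e (nat_lit 483072) (nat_lit 8) .nil))) .nil))) (.nd (nat_lit 5) 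
(.lf (nat_lit 204563) (.g (nat_lit 2356) (.e (nat_lit 73781) (nat_lit 32) (.e (nat_lit 2857) (nat_lit 184) (.e (nat_lit 426546) (nat_lit 30) (.e (nat_lit 360452) (nat_lit 0) (.e (nat_lit 5905) (nat_lit 320) (.e (nat_lit 1210) (nat_lit 89) .nil)))))) (.g (nat_lit 6) .nil .nil))) 
(.lf (nat_lit 204595) (.g (nat_lit 2143) (.e (nat_lit 73781) (nat_lit 32) (.e (nat_lit 3087) (nat_lit 191) (.e (nat_lit 483395) (nat_lit 24) (.e (nat_lit 344097) (nat_lit 18) (.e (nat_lit 5906) (nat_lit 320) (.e (nat_lit 1211) (nat_lit 89) .nil)))))) (.g (nat_lit 0) .nil .nil))))) (.nd (nat_lit 4) (.nd (nat_lit 5) 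
(.lf (nat_lit 204555) (.g (nat_lit 3208) (.e (nat_lit 73781) (nat_lit 32) (.e (nat_lit 2857) (nat_lit 184) (.e (nat_lit 426544) (nat_lit 30) (.e (nat_lit 360453) (nat_lit 0) (.e (nat_lit 5907) (nat_lit 320) (.e (nat_lit 1209) (nat_lit 89) .nil)))))) (.g (nat_lit 0) .nil .nil))) 
(.lf (nat_lit 204587) (.g (nat_lit 1173) (.e (nat_lit 73781) (nat_lit 32) (.e (nat_lit 3087) (nat_lit 191) (.e (nat_lit 483393) (nat_lit 23) (.e (nat_lit 335986) (nat_lit 1) (.e (nat_lit 57872) (nat_lit 264) .nil))))) .nil))) (.nd (nat_lit 5) 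
(.lf (nat_lit 204571) (.g (nat_lit 2280) (.e (nat_lit 73781) (nat_lit 32) (.e (nat_lit 2857) (nat_lit 184) (.e (nat_lit 426555) (nat_lit 32) (.e (nat_lit 376859) (nat_lit 21) (.e (nat_lit 57870) (nat_lit 264) (.e (nat_lit 1210) (nat_lit 89) .nil)))))) (.g (nat_lit 4) .nil .nil))) 
(.lf (nat_lit 204603) (.g (nat_lit 2633) (.e (nat_lit 73781) (nat_lit 32) (.e (nat_lit 3088) (nat_lit 191) (.e (nat_lit 483378) (nat_lit 23) (.e (nat_lit 335997) (nat_lit 1) (.e (nat_lit 57872) (nat_lit 264) (.e (nat_lit 1209) (nat_lit 89) .nil)))))) (.g (nat_lit 6) .nil .nil)))))) (.nd (nat_lit 3) (.nd (nat_lit 4) (.nd (nat_lit 5) 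
(.lf (nat_lit 204551) (.g (nat_lit 2690) (.e (nat_lit 73781) (nat_lit 32) (.e (nat_lit 2857) (nat_lit 184) (.e (nat_lit 426542) (nat_lit 29) (.e (nat_lit 352316) (nat_lit 24) (.e (nat_lit 123184) (nat_lit 264) (.e (nat_lit 1214) (nat_lit 89) .nil)))))) (.g (nat_lit 6) .nil .nil))) 
(.lf (nat_lit 204583) (.g (nat_lit 2256) (.e (nat_lit 73781) (nat_lit 32) (.e (nat_lit 3087) (nat_lit 191) (.e (nat_lit 483383) (nat_lit 23) (.e (nat_lit 336240) (nat_lit 15) (.e (nat_lit 3637) (nat_lit 227) .nil))))) .nil))) (.nd (nat_lit 5) 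
(.lf (nat_lit 204567) (.g (nat_lit 2460) (.e (nat_lit 73781) (nat_lit 32) (.e (nat_lit 2857) (nat_lit 184) (.e (nat_lit 426555) (nat_lit 32) (.e (nat_lit 376857) (nat_lit 21) (.e (nat_lit 57870) (nat_lit 264) (.e (nat_lit 1210) (nat_lit 89) .nil)))))) (.g (nat_lit 4) .nil .nil))) 
(.lf (nat_lit 204599) (.g (nat_lit 1695) (.e (nat_lit 73781) (nat_lit 32) (.e (nat_lit 3087) (nat_lit 191) (.e (nat_lit 483406) (nat_lit 26) (.e (nat_lit 385092) (nat_lit 49) (.e (nat_lit 778323) (nat_lit 5) .nil))))) .nil)))) (.nd (nat_lit 4) (.nd (nat_lit 5) 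
(.lf (nat_lit 204559) (.g (nat_lit 1523) (.e (nat_lit 73781) (nat_lit 32) (.e (nat_lit 2857) (nat_lit 184) (.e (nat_lit 426544) (nat_lit 30) (.e (nat_lit 368384) (nat_lit 0) (.e (nat_lit 5905) (nat_lit 320) (.e (nat_lit 1210) (nat_lit 89) .nil)))))) (.g (nat_lit 5) .nil .nil))) 
(.lf (nat_lit 204591) (.g (nat_lit 1760) (.e (nat_lit 73781) (nat_lit 32) (.e (nat_lit 3087) (nat_lit 191) (.e (nat_lit 483393) (nat_lit 23) (.e (nat_lit 335996) (nat_lit 1) (.e (nat_lit 57870) (nat_lit 264) (.e (nat_lit 1211) (nat_lit 89) .nil)))))) (.g (nat_lit 4) .nil .nil)))) (.nd (nat_lit 5) 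
(.lf (nat_lit 204575) (.g (nat_lit 2127) (.e (nat_lit 73781) (nat_lit 32) (.e (nat_lit 2857) (nat_lit 184) (.e (nat_lit 426555) (nat_lit 32) (.e (nat_lit 376860) (nat_lit 21) (.e (nat_lit 57870) (nat_lit 264) (.e (nat_lit 1210) (nat_lit 89) .nil)))))) (.g (nat_lit 4) .nil .nil))) 
(.lf (nat_lit 204607) (.g (nat_lit 410) (.e (nat_lit 73781) (nat_lit 32) (.e (nat_lit 3088) (nat_lit 191) (.e (nat_lit 483382) (nat_lit 23) .nil))) .nil))))))))

noncomputable def tv2699 : DT := (.nd (nat_lit 0) (.nd (nat_lit 1) (.nd (nat_lit 2) (.nd (nat_lit 3) (.nd (nat_lit 4) (.nd (nat_lit 5) 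
(.lf (nat_lit 204608) (.g (nat_lit 848) (.e (nat_lit 73781) (nat_lit 32) (.e (nat_lit 3088) (nat_lit 191) (.e (nat_lit 483382) (nat_lit 23) (.e (nat_lit 336306) (nat_lit 15) .nil)))) .nil)) 
(.lf (nat_lit 204640) (.g (nat_lit 2942) (.e (nat_lit 73781) (nat_lit 32) (.e (nat_lit 3088) (nat_lit 191) (.e (nat_lit 483393) (nat_lit 23) (.e (nat_lit 335995) (nat_lit 1) (.e (nat_lit 57872) (nat_lit 264) (.e (nat_lit 1211) (nat_lit 89) .nil)))))) (.g (nat_lit 5) .nil .nil)))) (.nd (nat_lit 5) 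
(.lf (nat_lit 204624) (.g (nat_lit 1341) (.e (nat_lit 73781) (nat_lit 32) (.e (nat_lit 3088) (nat_lit 191) (.e (nat_lit 483389) (nat_lit 23) (.e (nat_lit 335997) (nat_lit 1) (.e (nat_lit 57870) (nat_lit 264) (.e (nat_lit 1210) (nat_lit 89) .nil)))))) (.g (nat_lit 4) .nil .nil))) 
(.lf (nat_lit 204656) (.g (nat_lit 511) (.e (nat_lit 73781) (nat_lit 32) (.e (nat_lit 3088) (nat_lit 191) (.e (nat_lit 483399) (nat_lit 25) .nil))) .nil)))) (.nd (nat_lit 4) (.nd (nat_lit 5) 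
(.lf (nat_lit 204616) (.g (nat_lit 2752) (.e (nat_lit 73781) (nat_lit 32) (.e (nat_lit 3088) (nat_lit 191) (.e (nat_lit 483383) (nat_lit 23) (.e (nat_lit 336240) (nat_lit 15) (.e (nat_lit 3626) (nat_lit 227) (.e (nat_lit 778324) (nat_lit 5) .nil)))))) (.g (nat_lit 4) .nil .nil))) 
(.lf (nat_lit 204648) (.g (nat_lit 3292) (.e (nat_lit 73781) (nat_lit 32) (.e (nat_lit 3088) (nat_lit 191) (.e (nat_lit 483395) (nat_lit 24) (.e (nat_lit 344097) (nat_lit 18) (.e (nat_lit 5905) (nat_lit 320) (.e (nat_lit 1209) (nat_lit 89) .nil)))))) (.g (nat_lit 6) .nil .nil)))) (.nd (nat_lit 5) 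
(.lf (nat_lit 204632) (.g (nat_lit 1687) (.e (nat_lit 73781) (nat_lit 32) (.e (nat_lit 3088) (nat_lit 191) (.e (nat_lit 483393) (nat_lit 23) (.e (nat_lit 335986) (nat_lit 1) (.e (nat_lit 57870) (nat_lit 264) (.e (nat_lit 1211) (nat_lit 89) .nil)))))) (.g (nat_lit 4) .nil .nil))) 
(.lf (nat_lit 204664) (.g (nat_lit 1336) (.e (nat_lit 73781) (nat_lit 32) (.e (nat_lit 3088) (nat_lit 191) (.e (nat_lit 483406) (nat_lit 26) (.e (nat_lit 385096) (nat_lit 49) .nil)))) .nil))))) (.nd (nat_lit 3) (.nd (nat_lit 4) (.nd (nat_lit 5) 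
(.lf (nat_lit 204612) (.g (nat_lit 1658) (.e (nat_lit 73781) (nat_lit 32) (.e (nat_lit 3088) (nat_lit 191) (.e (nat_lit 483383) (nat_lit 23) (.e (nat_lit 336240) (nat_lit 15) .nil)))) .nil)) 
(.lf (nat_lit 204644) (.g (nat_lit 3348) (.e (nat_lit 73781) (nat_lit 32) (.e (nat_lit 3088) (nat_lit 191) (.e (nat_lit 483394) (nat_lit 24) (.e (nat_lit 344097) (nat_lit 18) (.e (nat_lit 5906) (nat_lit 320) (.e (nat_lit 1209) (nat_lit 89) .nil)))))) (.g (nat_lit 6) .nil .nil)))) (.nd (nat_lit 5) 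
(.lf (nat_lit 204628) (.g (nat_lit 2788) (.e (nat_lit 73781) (nat_lit 32) (.e (nat_lit 3088) (nat_lit 191) (.e (nat_lit 483391) (nat_lit 23) (.e (nat_lit 335998) (nat_lit 1) (.e (nat_lit 57873) (nat_lit 264) (.e (nat_lit 1209) (nat_lit 89) .nil)))))) (.g (nat_lit 6) .nil .nil))) 
(.lf (nat_lit 204660) (.g (nat_lit 1577) (.e (nat_lit 73781) (nat_lit 32) (.e (nat_lit 3088) (nat_lit 191) (.e (nat_lit 483405) (nat_lit 26) (.e (nat_lit 385100) (nat_lit 49) (.e (nat_lit 778322) (nat_lit 5) .nil))))) (.g (nat_lit 4) .nil .nil))))) (.nd (nat_lit 4) (.nd (nat_lit 5) 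
(.lf (nat_lit 204620) (.g (nat_lit 1009) (.e (nat_lit 73781) (nat_lit 32) (.e (nat_lit 3088) (nat_lit 191) (.e (nat_lit 483386) (nat_lit 23) (.e (nat_lit 335907) (nat_lit 0) .nil)))) .nil)) 
(.lf (nat_lit 204652) (.g (nat_lit 2412) (.e (nat_lit 73781) (nat_lit 32) (.e (nat_lit 3088) (nat_lit 191) (.e (nat_lit 483395) (nat_lit 24) (.e (nat_lit 344097) (nat_lit 18) (.e (nat_lit 5907) (nat_lit 320) (.e (nat_lit 1210) (nat_lit 89) .nil)))))) (.g (nat_lit 5) .nil .nil)))) (.nd (nat_lit 5) 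
(.lf (nat_lit 204636) (.g (nat_lit 1119) (.e (nat_lit 73781) (nat_lit 32) (.e (nat_lit 3088) (nat_lit 191) (.e (nat_lit 483393) (nat_lit 23) (.e (nat_lit 335993) (nat_lit 1) .nil)))) .nil)) 
(.lf (nat_lit 204668) (.g (nat_lit 1899) (.e (nat_lit 73781) (nat_lit 32) (.e (nat_lit 3088) (nat_lit 191) (.e (nat_lit 483413) (nat_lit 27) (.e (nat_lit 401414) (nat_lit 0) (.e (nat_lit 2424) (nat_lit 157) .nil))))) .nil)))))) (.nd (nat_lit 2) (.nd (nat_lit 3) (.nd (nat_lit 4) (.nd (nat_lit 5) 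
(.lf (nat_lit 204610) (.g (nat_lit 1727) (.e (nat_lit 73781) (nat_lit 32) (.e (nat_lit 3088) (nat_lit 191) (.e (nat_lit 483383) (nat_lit 23) (.e (nat_lit 336000) (nat_lit 1) (.e (nat_lit 57872) (nat_lit 264) .nil))))) .nil)) 
(.lf (nat_lit 204642) (.g (nat_lit 2933) (.e (nat_lit 73781) (nat_lit 32) (.e (nat_lit 3088) (nat_lit 191) (.e (nat_lit 483394) (nat_lit 24) (.e (nat_lit 344097) (nat_lit 18) (.e (nat_lit 5905) (nat_lit 320) (.e (nat_lit 1210) (nat_lit 89) .nil)))))) (.g (nat_lit 6) .nil .nil)))) (.nd (nat_lit 5) 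
(.lf (nat_lit 204626) (.g (nat_lit 1251) (.e (nat_lit 73781) (nat_lit 32) (.e (nat_lit 3088) (nat_lit 191) (.e (nat_lit 483389) (nat_lit 23) (.e (nat_lit 335997) (nat_lit 1) (.e (nat_lit 57871) (nat_lit 264) (.e (nat_lit 1210) (nat_lit 89) .nil)))))) (.g (nat_lit 4) .nil .nil))) 
(.lf (nat_lit 204658) (.g (nat_lit 2040) (.e (nat_lit 73781) (nat_lit 32) (.e (nat_lit 3088) (nat_lit 191) (.e (nat_lit 483403) (nat_lit 26) (.e (nat_lit 385093) (nat_lit 49) (.e (nat_lit 778323) (nat_lit 5) .nil))))) .nil)))) (.nd (nat_lit 4) (.nd (nat_lit 5) 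
(.lf (nat_lit 204618) (.g (nat_lit 2230) (.e (nat_lit 73781) (nat_lit 32) (.e (nat_lit 3088) (nat_lit 191) (.e (nat_lit 483383) (nat_lit 23) (.e (nat_lit 336357) (nat_lit 24) (.e (nat_lit 270080) (nat_lit 5) .nil))))) .nil)) 
(.lf (nat_lit 204650) (.g (nat_lit 3333) (.e (nat_lit 73781) (nat_lit 32) (.e (nat_lit 3088) (nat_lit 191) (.e (nat_lit 483395) (nat_lit 24) (.e (nat_lit 344097) (nat_lit 18) (.e (nat_lit 5906) (nat_lit 320) (.e (nat_lit 1209) (nat_lit 89) .nil)))))) (.g (nat_lit 6) .nil .nil)))) (.nd (nat_lit 5) 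
(.lf (nat_lit 204634) (.g (nat_lit 3222) (.e (nat_lit 73781) (nat_lit 32) (.e (nat_lit 3088) (nat_lit 191) (.e (nat_lit 483393) (nat_lit 23) (.e (nat_lit 335986) (nat_lit 1) (.e (nat_lit 57873) (nat_lit 264) (.e (nat_lit 1209) (nat_lit 89) .nil)))))) (.g (nat_lit 0) .nil .nil))) 
(.lf (nat_lit 204666) (.g (nat_lit 403) (.e (nat_lit 73781) (nat_lit 32) (.e (nat_lit 3088) (nat_lit 191) (.e (nat_lit 483408) (nat_lit 26) .nil))) .nil))))) (.nd (nat_lit 3) (.nd (nat_lit 4) (.nd (nat_lit 5) 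
(.lf (nat_lit 204614) (.g (nat_lit 2878) (.e (nat_lit 73781) (nat_lit 32) (.e (nat_lit 3088) (nat_lit 191) (.e (nat_lit 483383) (nat_lit 23) (.e (nat_lit 336240) (nat_lit 15) (.e (nat_lit 3623) (nat_lit 227) (.e (nat_lit 778324) (nat_lit 5) .nil)))))) (.g (nat_lit 4) .nil .nil))) 
(.lf (nat_lit 204646) (.g (nat_lit 430) (.e (nat_lit 73781) (nat_lit 32) (.e (nat_lit 3088) (nat_lit 191) (.e (nat_lit 483395) (nat_lit 24) .nil))) .nil))) (.nd (nat_lit 5) 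
(.lf (nat_lit 204630) (.g (nat_lit 972) (.e (nat_lit 73781) (nat_lit 32) (.e (nat_lit 3088) (nat_lit 191) (.e (nat_lit 483393) (nat_lit 23) (.e (nat_lit 335897) (nat_lit 0) .nil)))) .nil)) 
(.lf (nat_lit 204662) (.g (nat_lit 2057) (.e (nat_lit 73781) (nat_lit 32) (.e (nat_lit 3088) (nat_lit 191) (.e (nat_lit 483406) (nat_lit 26) (.e (nat_lit 385091) (nat_lit 49) (.e (nat_lit 778324) (nat_lit 5) .nil))))) .nil)))) (.nd (nat_lit 4) (.nd (nat_lit 5) 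
(.lf (nat_lit 204622) (.g (nat_lit 489) (.e (nat_lit 73781) (nat_lit 32) (.e (nat_lit 3088) (nat_lit 191) (.e (nat_lit 483387) (nat_lit 23) .nil))) .nil)) 
(.lf (nat_lit 204654) (.g (nat_lit 1141) (.e (nat_lit 73781) (nat_lit 32) (.e (nat_lit 3088) (nat_lit 191) (.e (nat_lit 483395) (nat_lit 24) (.e (nat_lit 344103) (nat_lit 18) .nil)))) .nil))) (.nd (nat_lit 5) 
(.lf (nat_lit 204638) (.g (nat_lit 2415) (.e (nat_lit 73781) (nat_lit 32) (.e (nat_lit 3088) (nat_lit 191) (.e (nat_lit 483393) (nat_lit 23) (.e (nat_lit 335995) (nat_lit 1) (.e (nat_lit 57870) (nat_lit 264) (.e (nat_lit 1210) (nat_lit 89) .nil)))))) (.g (nat_lit 4) .nil .nil))) 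
(.lf (nat_lit 204670) (.g (nat_lit 1811) (.e (nat_lit 73781) (nat_lit 32) (.e (nat_lit 3088) (nat_lit 191) (.e (nat_lit 483413) (nat_lit 27) (.e (nat_lit 401414) (nat_lit 0) (.e (nat_lit 3349) (nat_lit 206) .nil))))) .nil))))))) (.nd (nat_lit 1) (.nd (nat_lit 2) (.nd (nat_lit 3) (.nd (nat_lit 4) (.nd (nat_lit 5) 
(.lf (nat_lit 204609) (.g (nat_lit 1285) (.e (nat_lit 73781) (nat_lit 32) (.e (nat_lit 3088) (nat_lit 191) (.e (nat_lit 483382) (nat_lit 23) (.e (nat_lit 336330) (nat_lit 19) (.e (nat_lit 220928) (nat_lit 5) .nil))))) .nil)) 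
(.lf (nat_lit 204641) (.g (nat_lit 3392) (.e (nat_lit 73781) (nat_lit 32) (.e (nat_lit 3088) (nat_lit 191) (.e (nat_lit 483394) (nat_lit 24) (.e (nat_lit 344097) (nat_lit 18) (.e (nat_lit 5905) (nat_lit 320) (.e (nat_lit 1209) (nat_lit 89) .nil)))))) (.g (nat_lit 6) .nil .nil)))) (.nd (nat_lit 5) 
(.lf (nat_lit 204625) (.g (nat_lit 1396) (.e (nat_lit 73781) (nat_lit 32) (.e (nat_lit 3088) (nat_lit 191) (.e (nat_lit 483389) (nat_lit 23) (.e (nat_lit 335997) (nat_lit 1) (.e (nat_lit 57870) (nat_lit 264) (.e (nat_lit 1211) (nat_lit 89) .nil)))))) (.g (nat_lit 4) .nil .nil))) 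
(.lf (nat_lit 204657) (.g (nat_lit 1232) (.e (nat_lit 73781) (nat_lit 32) (.e (nat_lit 3088) (nat_lit 191) (.e (nat_lit 483402) (nat_lit 26) (.e (nat_lit 385092) (nat_lit 49) (.e (nat_lit 778324) (nat_lit 5) .nil))))) .nil)))) (.nd (nat_lit 4) (.nd (nat_lit 5) 
(.lf (nat_lit 204617) (.g (nat_lit 2236) (.e (nat_lit 73781) (nat_lit 32) (.e (nat_lit 3088) (nat_lit 191) (.e (nat_lit 483383) (nat_lit 23) (.e (nat_lit 336330) (nat_lit 19) (.e (nat_lit 220928) (nat_lit 5) .nil))))) .nil)) 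
(.lf (nat_lit 204649) (.g (nat_lit 2674) (.e (nat_lit 73781) (nat_lit 32) (.e (nat_lit 3088) (nat_lit 191) (.e (nat_lit 483395) (nat_lit 24) (.e (nat_lit 344097) (nat_lit 18) (.e (nat_lit 5905) (nat_lit 320) (.e (nat_lit 1211) (nat_lit 89) .nil)))))) (.g (nat_lit 5) .nil .nil)))) (.nd (nat_lit 5) 
(.lf (nat_lit 204633) (.g (nat_lit 1910) (.e (nat_lit 73781) (nat_lit 32) (.e (nat_lit 3088) (nat_lit 191) (.e (nat_lit 483393) (nat_lit 23) (.e (nat_lit 335986) (nat_lit 1) (.e (nat_lit 57872) (nat_lit 264) (.e (nat_lit 1211) (nat_lit 89) .nil)))))) (.g (nat_lit 4) .nil .nil))) 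
(.lf (nat_lit 204665) (.g (nat_lit 1519) (.e (nat_lit 73781) (nat_lit 32) (.e (nat_lit 3088) (nat_lit 191) (.e (nat_lit 483407) (nat_lit 26) (.e (nat_lit 385093) (nat_lit 49) (.e (nat_lit 778324) (nat_lit 5) .nil))))) .nil))))) (.nd (nat_lit 3) (.nd (nat_lit 4) (.nd (nat_lit 5) 
(.lf (nat_lit 204613) (.g (nat_lit 2446) (.e (nat_lit 73781) (nat_lit 32) (.e (nat_lit 3088) (nat_lit 191) (.e (nat_lit 483383) (nat_lit 23) (.e (nat_lit 336240) (nat_lit 15) (.e (nat_lit 3623) (nat_lit 227) .nil))))) .nil)) 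
(.lf (nat_lit 204645) (.g (nat_lit 3592) (.e (nat_lit 73781) (nat_lit 32) (.e (nat_lit 3088) (nat_lit 191) (.e (nat_lit 483394) (nat_lit 24) (.e (nat_lit 344097) (nat_lit 18) (.e (nat_lit 5907) (nat_lit 320) (.e (nat_lit 1209) (nat_lit 89) .nil)))))) (.g (nat_lit 6) .nil .nil)))) (.nd (nat_lit 5) 
(.lf (nat_lit 204629) (.g (nat_lit 744) (.e (nat_lit 73781) (nat_lit 32) (.e (nat_lit 3088) (nat_lit 191) (.e (nat_lit 483391) (nat_lit 23) (.e (nat_lit 336329) (nat_lit 19) .nil)))) .nil)) 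
(.lf (nat_lit 204661) (.g (nat_lit 1668) (.e (nat_lit 73781) (nat_lit 32) (.e (nat_lit 3088) (nat_lit 191) (.e (nat_lit 483406) (nat_lit 26) (.e (nat_lit 385091) (nat_lit 49) .nil)))) .nil)))) (.nd (nat_lit 4) (.nd (nat_lit 5) 
(.lf (nat_lit 204621) (.g (nat_lit 1155) (.e (nat_lit 73781) (nat_lit 32) (.e (nat_lit 3088) (nat_lit 191) (.e (nat_lit 483386) (nat_lit 23) (.e (nat_lit 336295) (nat_lit 15) .nil)))) .nil)) 
(.lf (nat_lit 204653) (.g (nat_lit 3358) (.e (nat_lit 73781) (nat_lit 32) (.e (nat_lit 3088) (nat_lit 191) (.e (nat_lit 483395) (nat_lit 24) (.e (nat_lit 344097) (nat_lit 18) (.e (nat_lit 5907) (nat_lit 320) (.e (nat_lit 1211) (nat_lit 89) .nil)))))) (.g (nat_lit 0) .nil .nil)))) (.nd (nat_lit 5) 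
(.lf (nat_lit 204637) (.g (nat_lit 1121) (.e (nat_lit 73781) (nat_lit 32) (.e (nat_lit 3088) (nat_lit 191) (.e (nat_lit 483393) (nat_lit 23) (.e (nat_lit 335994) (nat_lit 1) .nil)))) .nil)) 
(.lf (nat_lit 204669) (.g (nat_lit 1822) (.e (nat_lit 73781) (nat_lit 32) (.e (nat_lit 3088) (nat_lit 191) (.e (nat_lit 483413) (nat_lit 27) (.e (nat_lit 401414) (nat_lit 0) (.e (nat_lit 3348) (nat_lit 206) .nil))))) .nil)))))) (.nd (nat_lit 2) (.nd (nat_lit 3) (.nd (nat_lit 4) (.nd (nat_lit 5) 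
(.lf (nat_lit 204611) (.g (nat_lit 2263) (.e (nat_lit 73781) (nat_lit 32) (.e (nat_lit 3088) (nat_lit 191) (.e (nat_lit 483383) (nat_lit 23) (.e (nat_lit 336000) (nat_lit 1) (.e (nat_lit 57873) (nat_lit 264) (.e (nat_lit 1211) (nat_lit 89) .nil)))))) (.g (nat_lit 4) .nil .nil))) 
(.lf (nat_lit 204643) (.g (nat_lit 2766) (.e (nat_lit 73781) (nat_lit 32) (.e (nat_lit 3088) (nat_lit 191) (.e (nat_lit 483394) (nat_lit 24) (.e (nat_lit 344097) (nat_lit 18) (.e (nat_lit 5905) (nat_lit 320) (.e (nat_lit 1211) (nat_lit 89) .nil)))))) (.g (nat_lit 5) .nil .nil)))) (.nd (nat_lit 5) 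
(.lf (nat_lit 204627) (.g (nat_lit 433) (.e (nat_lit 73781) (nat_lit 32) (.e (nat_lit 3088) (nat_lit 191) (.e (nat_lit 483391) (nat_lit 23) .nil))) .nil)) 
(.lf (nat_lit 204659) (.g (nat_lit 489) (.e (nat_lit 73781) (nat_lit 32) (.e (nat_lit 3088) (nat_lit 191) (.e (nat_lit 483404) (nat_lit 26) .nil))) .nil)))) (.nd (nat_lit 4) (.nd (nat_lit 5) 
(.lf (nat_lit 204619) (.g (nat_lit 1121) (.e (nat_lit 73781) (nat_lit 32) (.e (nat_lit 3088) (nat_lit 191) (.e (nat_lit 483384) (nat_lit 23) (.e (nat_lit 336332) (nat_lit 19) (.e (nat_lit 220928) (nat_lit 5) .nil))))) .nil)) 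
(.lf (nat_lit 204651) (.g (nat_lit 3510) (.e (nat_lit 73781) (nat_lit 32) (.e (nat_lit 3088) (nat_lit 191) (.e (nat_lit 483395) (nat_lit 24) (.e (nat_lit 344097) (nat_lit 18) (.e (nat_lit 5907) (nat_lit 320) (.e (nat_lit 1209) (nat_lit 89) .nil)))))) (.g (nat_lit 0) .nil .nil)))) (.nd (nat_lit 5) 
(.lf (nat_lit 204635) (.g (nat_lit 2099) (.e (nat_lit 73781) (nat_lit 32) (.e (nat_lit 3088) (nat_lit 191) (.e (nat_lit 483393) (nat_lit 23) (.e (nat_lit 335987) (nat_lit 1) (.e (nat_lit 57870) (nat_lit 264) (.e (nat_lit 1210) (nat_lit 89) .nil)))))) (.g (nat_lit 5) .nil .nil))) 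
(.lf (nat_lit 204667) (.g (nat_lit 1620) (.e (nat_lit 73781) (nat_lit 32) (.e (nat_lit 3088) (nat_lit 191) (.e (nat_lit 483413) (nat_lit 27) (.e (nat_lit 401408) (nat_lit 0) (.e (nat_lit 3349) (nat_lit 206) .nil))))) .nil))))) (.nd (nat_lit 3) (.nd (nat_lit 4) (.nd (nat_lit 5) 
(.lf (nat_lit 204615) (.g (nat_lit 2472) (.e (nat_lit 73781) (nat_lit 32) (.e (nat_lit 3088) (nat_lit 191) (.e (nat_lit 483383) (nat_lit 23) (.e (nat_lit 336240) (nat_lit 15) (.e (nat_lit 3626) (nat_lit 227) .nil))))) .nil)) 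
(.lf (nat_lit 204647) (.g (nat_lit 2276) (.e (nat_lit 73781) (nat_lit 32) (.e (nat_lit 3088) (nat_lit 191) (.e (nat_lit 483395) (nat_lit 24) (.e (nat_lit 344090) (nat_lit 18) (.e (nat_lit 5896) (nat_lit 320) (.e (nat_lit 7936) (nat_lit 89) .nil)))))) (.g (nat_lit 4) .nil .nil)))) (.nd (nat_lit 5) 
(.lf (nat_lit 204631) (.g (nat_lit 1668) (.e (nat_lit 73781) (nat_lit 32) (.e (nat_lit 3088) (nat_lit 191) (.e (nat_lit 483393) (nat_lit 23) (.e (nat_lit 335986) (nat_lit 1) (.e (nat_lit 57870) (nat_lit 264) (.e (nat_lit 1210) (nat_lit 89) .nil)))))) (.g (nat_lit 4) .nil .nil))) 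
(.lf (nat_lit 204663) (.g (nat_lit 2194) (.e (nat_lit 73781) (nat_lit 32) (.e (nat_lit 3088) (nat_lit 191) (.e (nat_lit 483406) (nat_lit 26) (.e (nat_lit 385092) (nat_lit 49) (.e (nat_lit 778324) (nat_lit 5) .nil))))) .nil)))) (.nd (nat_lit 4) (.nd (nat_lit 5) 
(.lf (nat_lit 204623) (.g (nat_lit 675) (.e (nat_lit 73781) (nat_lit 32) (.e (nat_lit 3088) (nat_lit 191) (.e (nat_lit 483387) (nat_lit 23) (.e (nat_lit 335997) (nat_lit 1) .nil)))) .nil)) 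
(.lf (nat_lit 204655) (.g (nat_lit 1135) (.e (nat_lit 73781) (nat_lit 32) (.e (nat_lit 3088) (nat_lit 191) (.e (nat_lit 483395) (nat_lit 24) (.e (nat_lit 352000) (nat_lit 39) .nil)))) .nil))) (.nd (nat_lit 5) 
(.lf (nat_lit 204639) (.g (nat_lit 3413) (.e (nat_lit 73781) (nat_lit 32) (.e (nat_lit 3088) (nat_lit 191) (.e (nat_lit 483393) (nat_lit 23) (.e (nat_lit 335995) (nat_lit 1) (.e (nat_lit 57872) (nat_lit 264) (.e (nat_lit 1209) (nat_lit 89) .nil)))))) (.g (nat_lit 6) .nil .nil))) 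
(.lf (nat_lit 204671) (.g (nat_lit 1656) (.e (nat_lit 73781) (nat_lit 32) (.e (nat_lit 3088) (nat_lit 191) (.e (nat_lit 483413) (nat_lit 27) (.e (nat_lit 401421) (nat_lit 1) .nil)))) .nil))))))))

noncomputable def tv2700 : DT := (.nd (nat_lit 0) (.nd (nat_lit 1) (.nd (nat_lit 2) (.nd (nat_lit 3) (.nd (nat_lit 4) (.nd (nat_lit 5) 
(.lf (nat_lit 204672) (.g (nat_lit 1469) (.e (nat_lit 73781) (nat_lit 32) (.e (nat_lit 3088) (nat_lit 191) (.e (nat_lit 483413) (nat_lit 27) (.e (nat_lit 401465) (nat_lit 15) .nil)))) .nil)) 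
(.lf (nat_lit 204704) (.g (nat_lit 1742) (.e (nat_lit 73781) (nat_lit 32) (.e (nat_lit 3089) (nat_lit 191) (.e (nat_lit 483393) (nat_lit 23) (.e (nat_lit 335986) (nat_lit 1) (.e (nat_lit 57872) (nat_lit 264) (.e (nat_lit 1211) (nat_lit 89) .nil)))))) (.g (nat_lit 4) .nil .nil)))) (.nd (nat_lit 5) 
(.lf (nat_lit 204688) (.g (nat_lit 1704) (.e (nat_lit 73781) (nat_lit 32) (.e (nat_lit 3089) (nat_lit 191) (.e (nat_lit 483387) (nat_lit 23) (.e (nat_lit 335907) (nat_lit 0) (.e (nat_lit 1994) (nat_lit 137) (.e (nat_lit 663568) (nat_lit 5) .nil)))))) (.g (nat_lit 4) .nil .nil))) 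
(.lf (nat_lit 204720) (.g (nat_lit 2273) (.e (nat_lit 73781) (nat_lit 32) (.e (nat_lit 3089) (nat_lit 191) (.e (nat_lit 483395) (nat_lit 24) (.e (nat_lit 344090) (nat_lit 18) (.e (nat_lit 5896) (nat_lit 320) (.e (nat_lit 7936) (nat_lit 89) .nil)))))) (.g (nat_lit 5) .nil .nil))))) (.nd (nat_lit 4) (.nd (nat_lit 5) 
(.lf (nat_lit 204680) (.g (nat_lit 1228) (.e (nat_lit 73781) (nat_lit 32) (.e (nat_lit 3089) (nat_lit 191) (.e (nat_lit 483383) (nat_lit 23) (.e (nat_lit 335999) (nat_lit 1) .nil)))) .nil)) 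
(.lf (nat_lit 204712) (.g (nat_lit 2782) (.e (nat_lit 73781) (nat_lit 32) (.e (nat_lit 3089) (nat_lit 191) (.e (nat_lit 483393) (nat_lit 23) (.e (nat_lit 335996) (nat_lit 1) (.e (nat_lit 57870) (nat_lit 264) (.e (nat_lit 1210) (nat_lit 89) .nil)))))) (.g (nat_lit 6) .nil .nil)))) (.nd (nat_lit 5) 
(.lf (nat_lit 204696) (.g (nat_lit 2074) (.e (nat_lit 73781) (nat_lit 32) (.e (nat_lit 3089) (nat_lit 191) (.e (nat_lit 483391) (nat_lit 23) (.e (nat_lit 335998) (nat_lit 1) (.e (nat_lit 57873) (nat_lit 264) (.e (nat_lit 1210) (nat_lit 89) .nil)))))) (.g (nat_lit 5) .nil .nil))) 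
(.lf (nat_lit 204728) (.g (nat_lit 851) (.e (nat_lit 73781) (nat_lit 32) (.e (nat_lit 3089) (nat_lit 191) (.e (nat_lit 483396) (nat_lit 24) (.e (nat_lit 344093) (nat_lit 18) .nil)))) .nil))))) (.nd (nat_lit 3) (.nd (nat_lit 4) (.nd (nat_lit 5) 
(.lf (nat_lit 204676) (.g (nat_lit 2419) (.e (nat_lit 73781) (nat_lit 32) (.e (nat_lit 3089) (nat_lit 191) (.e (nat_lit 483378) (nat_lit 23) (.e (nat_lit 335997) (nat_lit 1) (.e (nat_lit 57871) (nat_lit 264) (.e (nat_lit 1209) (nat_lit 89) .nil)))))) (.g (nat_lit 6) .nil .nil))) 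
(.lf (nat_lit 204708) (.g (nat_lit 2005) (.e (nat_lit 73781) (nat_lit 32) (.e (nat_lit 3089) (nat_lit 191) (.e (nat_lit 483393) (nat_lit 23) (.e (nat_lit 335987) (nat_lit 1) (.e (nat_lit 57870) (nat_lit 264) (.e (nat_lit 1210) (nat_lit 89) .nil)))))) (.g (nat_lit 6) .nil .nil)))) (.nd (nat_lit 5) 
(.lf (nat_lit 204692) (.g (nat_lit 1695) (.e (nat_lit 73781) (nat_lit 32) (.e (nat_lit 3089) (nat_lit 191) (.e (nat_lit 483387) (nat_lit 23) (.e (nat_lit 335997) (nat_lit 1) (.e (nat_lit 57871) (nat_lit 264) (.e (nat_lit 1210) (nat_lit 89) .nil)))))) (.g (nat_lit 4) .nil .nil))) 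
(.lf (nat_lit 204724) (.g (nat_lit 2431) (.e (nat_lit 73781) (nat_lit 32) (.e (nat_lit 3089) (nat_lit 191) (.e (nat_lit 483395) (nat_lit 24) (.e (nat_lit 344097) (nat_lit 18) (.e (nat_lit 5906) (nat_lit 320) (.e (nat_lit 1211) (nat_lit 89) .nil)))))) (.g (nat_lit 0) .nil .nil))))) (.nd (nat_lit 4) (.nd (nat_lit 5) 
(.lf (nat_lit 204684) (.g (nat_lit 2361) (.e (nat_lit 73781) (nat_lit 32) (.e (nat_lit 3089) (nat_lit 191) (.e (nat_lit 483383) (nat_lit 23) (.e (nat_lit 336000) (nat_lit 1) (.e (nat_lit 57873) (nat_lit 264) (.e (nat_lit 1210) (nat_lit 89) .nil)))))) (.g (nat_lit 5) .nil .nil))) 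
(.lf (nat_lit 204716) (.g (nat_lit 3218) (.e (nat_lit 73781) (nat_lit 32) (.e (nat_lit 3089) (nat_lit 191) (.e (nat_lit 483394) (nat_lit 24) (.e (nat_lit 344097) (nat_lit 18) (.e (nat_lit 5906) (nat_lit 320) (.e (nat_lit 1209) (nat_lit 89) .nil)))))) (.g (nat_lit 6) .nil .nil)))) (.nd (nat_lit 5) 
(.lf (nat_lit 204700) (.g (nat_lit 937) (.e (nat_lit 73781) (nat_lit 32) (.e (nat_lit 3089) (nat_lit 191) (.e (nat_lit 483393) (nat_lit 23) (.e (nat_lit 335892) (nat_lit 0) (.e (nat_lit 1997) (nat_lit 137) .nil))))) .nil)) 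
(.lf (nat_lit 204732) (.g (nat_lit 1593) (.e (nat_lit 73781) (nat_lit 32) (.e (nat_lit 3089) (nat_lit 191) (.e (nat_lit 483399) (nat_lit 25) (.e (nat_lit 368662) (nat_lit 18) (.e (nat_lit 5905) (nat_lit 320) (.e (nat_lit 1210) (nat_lit 89) .nil)))))) (.g (nat_lit 4) .nil .nil))))))) (.nd (nat_lit 2) (.nd (nat_lit 3) (.nd (nat_lit 4) (.nd (nat_lit 5) 
(.lf (nat_lit 204674) (.g (nat_lit 2434) (.e (nat_lit 73781) (nat_lit 32) (.e (nat_lit 3089) (nat_lit 191) (.e (nat_lit 483378) (nat_lit 23) (.e (nat_lit 335997) (nat_lit 1) (.e (nat_lit 57870) (nat_lit 264) (.e (nat_lit 1209) (nat_lit 89) .nil)))))) (.g (nat_lit 6) .nil .nil))) 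
(.lf (nat_lit 204706) (.g (nat_lit 2128) (.e (nat_lit 73781) (nat_lit 32) (.e (nat_lit 3089) (nat_lit 191) (.e (nat_lit 483393) (nat_lit 23) (.e (nat_lit 335986) (nat_lit 1) (.e (nat_lit 57873) (nat_lit 264) (.e (nat_lit 1210) (nat_lit 89) .nil)))))) (.g (nat_lit 5) .nil .nil)))) (.nd (nat_lit 5) 
(.lf (nat_lit 204690) (.g (nat_lit 1696) (.e (nat_lit 73781) (nat_lit 32) (.e (nat_lit 3089) (nat_lit 191) (.e (nat_lit 483387) (nat_lit 23) (.e (nat_lit 335997) (nat_lit 1) (.e (nat_lit 57870) (nat_lit 264) (.e (nat_lit 1210) (nat_lit 89) .nil)))))) (.g (nat_lit 4) .nil .nil))) 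
(.lf (nat_lit 204722) (.g (nat_lit 2400) (.e (nat_lit 73781) (nat_lit 32) (.e (nat_lit 3089) (nat_lit 191) (.e (nat_lit 483395) (nat_lit 24) (.e (nat_lit 344097) (nat_lit 18) (.e (nat_lit 5905) (nat_lit 320) (.e (nat_lit 1211) (nat_lit 89) .nil)))))) (.g (nat_lit 5) .nil .nil))))) (.nd (nat_lit 4) (.nd (nat_lit 5) 
(.lf (nat_lit 204682) (.g (nat_lit 2855) (.e (nat_lit 73781) (nat_lit 32) (.e (nat_lit 3089) (nat_lit 191) (.e (nat_lit 483383) (nat_lit 23) (.e (nat_lit 336000) (nat_lit 1) (.e (nat_lit 57872) (nat_lit 264) (.e (nat_lit 1209) (nat_lit 89) .nil)))))) (.g (nat_lit 6) .nil .nil))) 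
(.lf (nat_lit 204714) (.g (nat_lit 3310) (.e (nat_lit 73781) (nat_lit 32) (.e (nat_lit 3089) (nat_lit 191) (.e (nat_lit 483394) (nat_lit 24) (.e (nat_lit 344097) (nat_lit 18) (.e (nat_lit 5905) (nat_lit 320) (.e (nat_lit 1209) (nat_lit 89) .nil)))))) (.g (nat_lit 6) .nil .nil)))) (.nd (nat_lit 5) 
(.lf (nat_lit 204698) (.g (nat_lit 1883) (.e (nat_lit 73781) (nat_lit 32) (.e (nat_lit 3089) (nat_lit 191) (.e (nat_lit 483392) (nat_lit 23) (.e (nat_lit 335995) (nat_lit 1) (.e (nat_lit 57872) (nat_lit 264) (.e (nat_lit 1211) (nat_lit 89) .nil)))))) (.g (nat_lit 4) .nil .nil))) 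
(.lf (nat_lit 204730) (.g (nat_lit 1685) (.e (nat_lit 73781) (nat_lit 32) (.e (nat_lit 3089) (nat_lit 191) (.e (nat_lit 483398) (nat_lit 25) (.e (nat_lit 368662) (nat_lit 18) (.e (nat_lit 5907) (nat_lit 320) (.e (nat_lit 1210) (nat_lit 89) .nil)))))) (.g (nat_lit 5) .nil .nil)))))) (.nd (nat_lit 3) (.nd (nat_lit 4) (.nd (nat_lit 5) 
(.lf (nat_lit 204678) (.g (nat_lit 1449) (.e (nat_lit 73781) (nat_lit 32) (.e (nat_lit 3089) (nat_lit 191) (.e (nat_lit 483383) (nat_lit 23) (.e (nat_lit 335878) (nat_lit 0) (.e (nat_lit 996) (nat_lit 81) (.e (nat_lit 5896) (nat_lit 320) (.e (nat_lit 7936) (nat_lit 89) .nil))))))) (.g (nat_lit 4) .nil .nil))) 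
(.lf (nat_lit 204710) (.g (nat_lit 2748) (.e (nat_lit 73781) (nat_lit 32) (.e (nat_lit 3089) (nat_lit 191) (.e (nat_lit 483393) (nat_lit 23) (.e (nat_lit 335995) (nat_lit 1) (.e (nat_lit 57872) (nat_lit 264) (.e (nat_lit 1211) (nat_lit 89) .nil)))))) (.g (nat_lit 5) .nil .nil)))) (.nd (nat_lit 5) 
(.lf (nat_lit 204694) (.g (nat_lit 1430) (.e (nat_lit 73781) (nat_lit 32) (.e (nat_lit 3089) (nat_lit 191) (.e (nat_lit 483389) (nat_lit 23) (.e (nat_lit 335997) (nat_lit 1) (.e (nat_lit 57871) (nat_lit 264) (.e (nat_lit 1210) (nat_lit 89) .nil)))))) (.g (nat_lit 4) .nil .nil))) 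
(.lf (nat_lit 204726) (.g (nat_lit 2066) (.e (nat_lit 73781) (nat_lit 32) (.e (nat_lit 3089) (nat_lit 191) (.e (nat_lit 483395) (nat_lit 24) (.e (nat_lit 344097) (nat_lit 18) (.e (nat_lit 5907) (nat_lit 320) (.e (nat_lit 1210) (nat_lit 89) .nil)))))) (.g (nat_lit 5) .nil .nil))))) (.nd (nat_lit 4) (.nd (nat_lit 5) 
(.lf (nat_lit 204686) (.g (nat_lit 1361) (.e (nat_lit 73781) (nat_lit 32) (.e (nat_lit 3089) (nat_lit 191) (.e (nat_lit 483383) (nat_lit 23) (.e (nat_lit 336263) (nat_lit 15) .nil)))) .nil)) 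
(.lf (nat_lit 204718) (.g (nat_lit 3250) (.e (nat_lit 73781) (nat_lit 32) (.e (nat_lit 3089) (nat_lit 191) (.e (nat_lit 483394) (nat_lit 24) (.e (nat_lit 344097) (nat_lit 18) (.e (nat_lit 5907) (nat_lit 320) (.e (nat_lit 1211) (nat_lit 89) .nil)))))) (.g (nat_lit 0) .nil .nil)))) (.nd (nat_lit 5) 
(.lf (nat_lit 204702) (.g (nat_lit 1517) (.e (nat_lit 73781) (nat_lit 32) (.e (nat_lit 3089) (nat_lit 191) (.e (nat_lit 483393) (nat_lit 23) (.e (nat_lit 335986) (nat_lit 1) (.e (nat_lit 57870) (nat_lit 264) (.e (nat_lit 1211) (nat_lit 89) .nil)))))) (.g (nat_lit 4) .nil .nil))) 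
(.lf (nat_lit 204734) (.g (nat_lit 3083) (.e (nat_lit 73781) (nat_lit 32) (.e (nat_lit 3089) (nat_lit 191) (.e (nat_lit 483399) (nat_lit 25) (.e (nat_lit 368662) (nat_lit 18) (.e (nat_lit 5906) (nat_lit 320) (.e (nat_lit 1209) (nat_lit 89) .nil)))))) (.g (nat_lit 6) .nil .nil)))))))) (.nd (nat_lit 1) (.nd (nat_lit 2) (.nd (nat_lit 3) (.nd (nat_lit 4) (.nd (nat_lit 5) 
(.lf (nat_lit 204673) (.g (nat_lit 1522) (.e (nat_lit 73781) (nat_lit 32) (.e (nat_lit 3089) (nat_lit 191) (.e (nat_lit 483378) (nat_lit 23) (.e (nat_lit 335907) (nat_lit 0) (.e (nat_lit 1994) (nat_lit 137) (.e (nat_lit 663568) (nat_lit 5) .nil)))))) (.g (nat_lit 4) .nil .nil))) 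
(.lf (nat_lit 204705) (.g (nat_lit 3117) (.e (nat_lit 73781) (nat_lit 32) (.e (nat_lit 3089) (nat_lit 191) (.e (nat_lit 483393) (nat_lit 23) (.e (nat_lit 335986) (nat_lit 1) (.e (nat_lit 57873) (nat_lit 264) (.e (nat_lit 1209) (nat_lit 89) .nil)))))) (.g (nat_lit 0) .nil .nil)))) (.nd (nat_lit 5) 
(.lf (nat_lit 204689) (.g (nat_lit 1572) (.e (nat_lit 73781) (nat_lit 32) (.e (nat_lit 3089) (nat_lit 191) (.e (nat_lit 483387) (nat_lit 23) (.e (nat_lit 335907) (nat_lit 0) (.e (nat_lit 1996) (nat_lit 137) (.e (nat_lit 663568) (nat_lit 5) .nil)))))) (.g (nat_lit 4) .nil .nil))) 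
(.lf (nat_lit 204721) (.g (nat_lit 3047) (.e (nat_lit 73781) (nat_lit 32) (.e (nat_lit 3089) (nat_lit 191) (.e (nat_lit 483395) (nat_lit 24) (.e (nat_lit 344097) (nat_lit 18) (.e (nat_lit 5905) (nat_lit 320) (.e (nat_lit 1209) (nat_lit 89) .nil)))))) (.g (nat_lit 6) .nil .nil))))) (.nd (nat_lit 4) (.nd (nat_lit 5) 
(.lf (nat_lit 204681) (.g (nat_lit 2121) (.e (nat_lit 73781) (nat_lit 32) (.e (nat_lit 3089) (nat_lit 191) (.e (nat_lit 483383) (nat_lit 23) (.e (nat_lit 336000) (nat_lit 1) (.e (nat_lit 57871) (nat_lit 264) (.e (nat_lit 1210) (nat_lit 89) .nil)))))) (.g (nat_lit 5) .nil .nil))) 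
(.lf (nat_lit 204713) (.g (nat_lit 1767) (.e (nat_lit 73781) (nat_lit 32) (.e (nat_lit 3089) (nat_lit 191) (.e (nat_lit 483393) (nat_lit 23) (.e (nat_lit 336288) (nat_lit 15) (.e (nat_lit 3716) (nat_lit 227) .nil))))) .nil))) (.nd (nat_lit 5) 
(.lf (nat_lit 204697) (.g (nat_lit 2759) (.e (nat_lit 73781) (nat_lit 32) (.e (nat_lit 3089) (nat_lit 191) (.e (nat_lit 483391) (nat_lit 23) (.e (nat_lit 335998) (nat_lit 1) (.e (nat_lit 57873) (nat_lit 264) (.e (nat_lit 1211) (nat_lit 89) .nil)))))) (.g (nat_lit 0) .nil .nil))) 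
(.lf (nat_lit 204729) (.g (nat_lit 2339) (.e (nat_lit 73781) (nat_lit 32) (.e (nat_lit 3089) (nat_lit 191) (.e (nat_lit 483398) (nat_lit 25) (.e (nat_lit 368662) (nat_lit 18) (.e (nat_lit 5906) (nat_lit 320) (.e (nat_lit 1211) (nat_lit 89) .nil)))))) (.g (nat_lit 6) .nil .nil)))))) (.nd (nat_lit 3) (.nd (nat_lit 4) (.nd (nat_lit 5) 
(.lf (nat_lit 204677) (.g (nat_lit 2654) (.e (nat_lit 73781) (nat_lit 32) (.e (nat_lit 3089) (nat_lit 191) (.e (nat_lit 483378) (nat_lit 23) (.e (nat_lit 335997) (nat_lit 1) (.e (nat_lit 57872) (nat_lit 264) (.e (nat_lit 1209) (nat_lit 89) .nil)))))) (.g (nat_lit 6) .nil .nil))) 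
(.lf (nat_lit 204709) (.g (nat_lit 2497) (.e (nat_lit 73781) (nat_lit 32) (.e (nat_lit 3089) (nat_lit 191) (.e (nat_lit 483393) (nat_lit 23) (.e (nat_lit 335988) (nat_lit 1) (.e (nat_lit 57870) (nat_lit 264) (.e (nat_lit 1210) (nat_lit 89) .nil)))))) (.g (nat_lit 6) .nil .nil)))) (.nd (nat_lit 5) 
(.lf (nat_lit 204693) (.g (nat_lit 2303) (.e (nat_lit 73781) (nat_lit 32) (.e (nat_lit 3089) (nat_lit 191) (.e (nat_lit 483389) (nat_lit 23) (.e (nat_lit 335991) (nat_lit 1) (.e (nat_lit 57873) (nat_lit 264) (.e (nat_lit 1209) (nat_lit 89) .nil)))))) (.g (nat_lit 0) .nil .nil))) 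
(.lf (nat_lit 204725) (.g (nat_lit 3231) (.e (nat_lit 73781) (nat_lit 32) (.e (nat_lit 3089) (nat_lit 191) (.e (nat_lit 483395) (nat_lit 24) (.e (nat_lit 344097) (nat_lit 18) (.e (nat_lit 5907) (nat_lit 320) (.e (nat_lit 1209) (nat_lit 89) .nil)))))) (.g (nat_lit 0) .nil .nil))))) (.nd (nat_lit 4) (.nd (nat_lit 5) 
(.lf (nat_lit 204685) (.g (nat_lit 2955) (.e (nat_lit 73781) (nat_lit 32) (.e (nat_lit 3089) (nat_lit 191) (.e (nat_lit 483383) (nat_lit 23) (.e (nat_lit 336000) (nat_lit 1) (.e (nat_lit 57873) (nat_lit 264) (.e (nat_lit 1211) (nat_lit 89) .nil)))))) (.g (nat_lit 0) .nil .nil))) 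
(.lf (nat_lit 204717) (.g (nat_lit 3448) (.e (nat_lit 73781) (nat_lit 32) (.e (nat_lit 3089) (nat_lit 191) (.e (nat_lit 483394) (nat_lit 24) (.e (nat_lit 344097) (nat_lit 18) (.e (nat_lit 5907) (nat_lit 320) (.e (nat_lit 1209) (nat_lit 89) .nil)))))) (.g (nat_lit 0) .nil .nil)))) (.nd (nat_lit 5) 
(.lf (nat_lit 204701) (.g (nat_lit 1496) (.e (nat_lit 73781) (nat_lit 32) (.e (nat_lit 3089) (nat_lit 191) (.e (nat_lit 483393) (nat_lit 23) (.e (nat_lit 335986) (nat_lit 1) (.e (nat_lit 57870) (nat_lit 264) (.e (nat_lit 1210) (nat_lit 89) .nil)))))) (.g (nat_lit 4) .nil .nil))) 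
(.lf (nat_lit 204733) (.g (nat_lit 1647) (.e (nat_lit 73781) (nat_lit 32) (.e (nat_lit 3089) (nat_lit 191) (.e (nat_lit 483399) (nat_lit 25) (.e (nat_lit 368662) (nat_lit 18) (.e (nat_lit 5905) (nat_lit 320) (.e (nat_lit 1211) (nat_lit 89) .nil)))))) (.g (nat_lit 4) .nil .nil))))))) (.nd (nat_lit 2) (.nd (nat_lit 3) (.nd (nat_lit 4) (.nd (nat_lit 5) 
(.lf (nat_lit 204675) (.g (nat_lit 2047) (.e (nat_lit 73781) (nat_lit 32) (.e (nat_lit 3089) (nat_lit 191) (.e (nat_lit 483378) (nat_lit 23) (.e (nat_lit 335997) (nat_lit 1) (.e (nat_lit 57870) (nat_lit 264) (.e (nat_lit 1210) (nat_lit 89) .nil)))))) (.g (nat_lit 0) .nil .nil))) 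
(.lf (nat_lit 204707) (.g (nat_lit 2829) (.e (nat_lit 73781) (nat_lit 32) (.e (nat_lit 3089) (nat_lit 191) (.e (nat_lit 483393) (nat_lit 23) (.e (nat_lit 335986) (nat_lit 1) (.e (nat_lit 57873) (nat_lit 264) (.e (nat_lit 1211) (nat_lit 89) .nil)))))) (.g (nat_lit 0) .nil .nil)))) (.nd (nat_lit 5) 
(.lf (nat_lit 204691) (.g (nat_lit 1752) (.e (nat_lit 73781) (nat_lit 32) (.e (nat_lit 3089) (nat_lit 191) (.e (nat_lit 483387) (nat_lit 23) (.e (nat_lit 335997) (nat_lit 1) (.e (nat_lit 57870) (nat_lit 264) (.e (nat_lit 1211) (nat_lit 89) .nil)))))) (.g (nat_lit 4) .nil .nil))) 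
(.lf (nat_lit 204723) (.g (nat_lit 3008) (.e (nat_lit 73781) (nat_lit 32) (.e (nat_lit 3089) (nat_lit 191) (.e (nat_lit 483395) (nat_lit 24) (.e (nat_lit 344097) (nat_lit 18) (.e (nat_lit 5906) (nat_lit 320) (.e (nat_lit 1209) (nat_lit 89) .nil)))))) (.g (nat_lit 6) .nil .nil))))) (.nd (nat_lit 4) (.nd (nat_lit 5) 
(.lf (nat_lit 204683) (.g (nat_lit 2394) (.e (nat_lit 73781) (nat_lit 32) (.e (nat_lit 3089) (nat_lit 191) (.e (nat_lit 483383) (nat_lit 23) (.e (nat_lit 336000) (nat_lit 1) (.e (nat_lit 57872) (nat_lit 264) (.e (nat_lit 1211) (nat_lit 89) .nil)))))) (.g (nat_lit 6) .nil .nil))) 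
(.lf (nat_lit 204715) (.g (nat_lit 2630) (.e (nat_lit 73781) (nat_lit 32) (.e (nat_lit 3089) (nat_lit 191) (.e (nat_lit 483394) (nat_lit 24) (.e (nat_lit 344097) (nat_lit 18) (.e (nat_lit 5905) (nat_lit 320) (.e (nat_lit 1211) (nat_lit 89) .nil)))))) (.g (nat_lit 5) .nil .nil)))) (.nd (nat_lit 5) 
(.lf (nat_lit 204699) (.g (nat_lit 187) (.e (nat_lit 73781) (nat_lit 32) (.e (nat_lit 3089) (nat_lit 191) (.e (nat_lit 483393) (nat_lit 23) .nil))) .nil)) 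
(.lf (nat_lit 204731) (.g (nat_lit 2562) (.e (nat_lit 73781) (nat_lit 32) (.e (nat_lit 3089) (nat_lit 191) (.e (nat_lit 483398) (nat_lit 25) (.e (nat_lit 368662) (nat_lit 18) (.e (nat_lit 5907) (nat_lit 320) (.e (nat_lit 1211) (nat_lit 89) .nil)))))) (.g (nat_lit 0) .nil .nil)))))) (.nd (nat_lit 3) (.nd (nat_lit 4) (.nd (nat_lit 5) 
(.lf (nat_lit 204679) (.g (nat_lit 1128) (.e (nat_lit 73781) (nat_lit 32) (.e (nat_lit 3089) (nat_lit 191) (.e (nat_lit 483383) (nat_lit 23) (.e (nat_lit 335878) (nat_lit 0) (.e (nat_lit 1028) (nat_lit 81) .nil))))) .nil)) 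
(.lf (nat_lit 204711) (.g (nat_lit 3150) (.e (nat_lit 73781) (nat_lit 32) (.e (nat_lit 3089) (nat_lit 191) (.e (nat_lit 483393) (nat_lit 23) (.e (nat_lit 335996) (nat_lit 1) (.e (nat_lit 57870) (nat_lit 264) (.e (nat_lit 1209) (nat_lit 89) .nil)))))) (.g (nat_lit 6) .nil .nil)))) (.nd (nat_lit 5) 
(.lf (nat_lit 204695) (.g (nat_lit 1354) (.e (nat_lit 73781) (nat_lit 32) (.e (nat_lit 3089) (nat_lit 191) (.e (nat_lit 483389) (nat_lit 23) (.e (nat_lit 335997) (nat_lit 1) (.e (nat_lit 57872) (nat_lit 264) (.e (nat_lit 1211) (nat_lit 89) .nil)))))) (.g (nat_lit 4) .nil .nil))) 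
(.lf (nat_lit 204727) (.g (nat_lit 3049) (.e (nat_lit 73781) (nat_lit 32) (.e (nat_lit 3089) (nat_lit 191) (.e (nat_lit 483395) (nat_lit 24) (.e (nat_lit 344097) (nat_lit 18) (.e (nat_lit 5907) (nat_lit 320) (.e (nat_lit 1211) (nat_lit 89) .nil)))))) (.g (nat_lit 0) .nil .nil))))) (.nd (nat_lit 4) (.nd (nat_lit 5) 
(.lf (nat_lit 204687) (.g (nat_lit 1606) (.e (nat_lit 73781) (nat_lit 32) (.e (nat_lit 3089) (nat_lit 191) (.e (nat_lit 483383) (nat_lit 23) (.e (nat_lit 336357) (nat_lit 24) (.e (nat_lit 270080) (nat_lit 5) .nil))))) (.g (nat_lit 4) .nil .nil))) 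
(.lf (nat_lit 204719) (.g (nat_lit 548) (.e (nat_lit 73781) (nat_lit 32) (.e (nat_lit 3089) (nat_lit 191) (.e (nat_lit 483394) (nat_lit 24) (.e (nat_lit 352000) (nat_lit 39) .nil)))) .nil))) (.nd (nat_lit 5) 
(.lf (nat_lit 204703) (.g (nat_lit 2279) (.e (nat_lit 73781) (nat_lit 32) (.e (nat_lit 3089) (nat_lit 191) (.e (nat_lit 483393) (nat_lit 23) (.e (nat_lit 335986) (nat_lit 1) (.e (nat_lit 57871) (nat_lit 264) (.e (nat_lit 1210) (nat_lit 89) .nil)))))) (.g (nat_lit 6) .nil .nil))) 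
(.lf (nat_lit 204735) (.g (nat_lit 2428) (.e (nat_lit 73781) (nat_lit 32) (.e (nat_lit 3089) (nat_lit 191) (.e (nat_lit 483399) (nat_lit 25) (.e (nat_lit 368662) (nat_lit 18) (.e (nat_lit 5906) (nat_lit 320) (.e (nat_lit 1211) (nat_lit 89) .nil)))))) (.g (nat_lit 6) .nil .nil)))))))))

noncomputable def tv2701 : DT := (.nd (nat_lit 0) (.nd (nat_lit 1) (.nd (nat_lit 2) (.nd (nat_lit 3) (.nd (nat_lit 4) (.nd (nat_lit 5) 
(.lf (nat_lit 204736) (.g (nat_lit 1741) (.e (nat_lit 73781) (nat_lit 32) (.e (nat_lit 3089) (nat_lit 191) (.e (nat_lit 483399) (nat_lit 25) (.e (nat_lit 368662) (nat_lit 18) (.e (nat_lit 5907) (nat_lit 320) (.e (nat_lit 1210) (nat_lit 89) .nil)))))) (.g (nat_lit 5) .nil .nil))) 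
(.lf (nat_lit 204768) (.g (nat_lit 3259) (.e (nat_lit 73781) (nat_lit 32) (.e (nat_lit 3090) (nat_lit 191) (.e (nat_lit 483372) (nat_lit 21) (.e (nat_lit 319504) (nat_lit 10) (.e (nat_lit 16) (nat_lit 0) (.e (nat_lit 4602) (nat_lit 269) (.e (nat_lit 1210) (nat_lit 89) .nil))))))) (.g (nat_lit 5) .nil .nil)))) (.nd (nat_lit 5) 
(.lf (nat_lit 204752) (.g (nat_lit 2382) (.e (nat_lit 73781) (nat_lit 32) (.e (nat_lit 3090) (nat_lit 191) (.e (nat_lit 483372) (nat_lit 21) (.e (nat_lit 319490) (nat_lit 0) (.e (nat_lit 75) (nat_lit 0) .nil))))) .nil)) 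
(.lf (nat_lit 204784) (.g (nat_lit 1885) (.e (nat_lit 73781) (nat_lit 32) (.e (nat_lit 3090) (nat_lit 191) (.e (nat_lit 483372) (nat_lit 21) (.e (nat_lit 319504) (nat_lit 10) (.e (nat_lit 7936) (nat_lit 54) .nil))))) .nil)))) (.nd (nat_lit 4) (.nd (nat_lit 5) 
(.lf (nat_lit 204744) (.g (nat_lit 1088) (.e (nat_lit 73781) (nat_lit 32) (.e (nat_lit 3090) (nat_lit 191) (.e (nat_lit 483350) (nat_lit 17) (.e (nat_lit 6113) (nat_lit 332) .nil)))) .nil)) 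
(.lf (nat_lit 204776) (.g (nat_lit 2613) (.e (nat_lit 73781) (nat_lit 32) (.e (nat_lit 3090) (nat_lit 191) (.e (nat_lit 483372) (nat_lit 21) (.e (nat_lit 319504) (nat_lit 10) (.e (nat_lit 52) (nat_lit 0) (.e (nat_lit 4602) (nat_lit 269) (.e (nat_lit 1208) (nat_lit 89) .nil))))))) (.g (nat_lit 4) .nil .nil)))) (.nd (nat_lit 5) 
(.lf (nat_lit 204760) (.g (nat_lit 1077) (.e (nat_lit 73781) (nat_lit 32) (.e (nat_lit 3090) (nat_lit 191) (.e (nat_lit 483372) (nat_lit 21) (.e (nat_lit 327424) (nat_lit 1) .nil)))) .nil)) 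
(.lf (nat_lit 204792) (.g (nat_lit 2030) (.e (nat_lit 73781) (nat_lit 32) (.e (nat_lit 3090) (nat_lit 191) (.e (nat_lit 483372) (nat_lit 21) (.e (nat_lit 319505) (nat_lit 10) (.e (nat_lit 34) (nat_lit 0) (.e (nat_lit 4602) (nat_lit 269) (.e (nat_lit 1211) (nat_lit 89) .nil))))))) (.g (nat_lit 4) .nil .nil)))))) (.nd (nat_lit 3) (.nd (nat_lit 4) (.nd (nat_lit 5) 
(.lf (nat_lit 204740) (.g (nat_lit 788) (.e (nat_lit 73781) (nat_lit 32) (.e (nat_lit 3089) (nat_lit 191) (.e (nat_lit 483406) (nat_lit 26) (.e (nat_lit 385099) (nat_lit 49) .nil)))) .nil)) 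
(.lf (nat_lit 204772) (.g (nat_lit 2653) (.e (nat_lit 73781) (nat_lit 32) (.e (nat_lit 3090) (nat_lit 191) (.e (nat_lit 483372) (nat_lit 21) (.e (nat_lit 319504) (nat_lit 10) (.e (nat_lit 18) (nat_lit 0) (.e (nat_lit 4602) (nat_lit 269) (.e (nat_lit 1210) (nat_lit 89) .nil))))))) (.g (nat_lit 4) .nil .nil)))) (.nd (nat_lit 5) 
(.lf (nat_lit 204756) (.g (nat_lit 2499) (.e (nat_lit 73781) (nat_lit 32) (.e (nat_lit 3090) (nat_lit 191) (.e (nat_lit 483372) (nat_lit 21) (.e (nat_lit 319492) (nat_lit 0) .nil)))) .nil)) 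
(.lf (nat_lit 204788) (.g (nat_lit 2242) (.e (nat_lit 73781) (nat_lit 32) (.e (nat_lit 3090) (nat_lit 191) (.e (nat_lit 483372) (nat_lit 21) (.e (nat_lit 319505) (nat_lit 10) (.e (nat_lit 16) (nat_lit 0) (.e (nat_lit 4602) (nat_lit 269) (.e (nat_lit 1208) (nat_lit 89) .nil))))))) (.g (nat_lit 4) .nil .nil))))) (.nd (nat_lit 4) (.nd (nat_lit 5) 
(.lf (nat_lit 204748) (.g (nat_lit 605) (.e (nat_lit 73781) (nat_lit 32) (.e (nat_lit 3090) (nat_lit 191) (.e (nat_lit 483354) (nat_lit 17) (.e (nat_lit 7936) (nat_lit 344) .nil)))) .nil)) 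
(.lf (nat_lit 204780) (.g (nat_lit 2385) (.e (nat_lit 73781) (nat_lit 32) (.e (nat_lit 3090) (nat_lit 191) (.e (nat_lit 483372) (nat_lit 21) (.e (nat_lit 319504) (nat_lit 10) (.e (nat_lit 63) (nat_lit 0) .nil))))) .nil))) (.nd (nat_lit 5) 
(.lf (nat_lit 204764) (.g (nat_lit 2616) (.e (nat_lit 73781) (nat_lit 32) (.e (nat_lit 3090) (nat_lit 191) (.e (nat_lit 483372) (nat_lit 21) (.e (nat_lit 319504) (nat_lit 10) (.e (nat_lit 11) (nat_lit 0) (.e (nat_lit 4553) (nat_lit 269) (.e (nat_lit 1214) (nat_lit 89) .nil))))))) (.g (nat_lit 4) .nil .nil))) 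
(.lf (nat_lit 204796) (.g (nat_lit 2352) (.e (nat_lit 73781) (nat_lit 32) (.e (nat_lit 3090) (nat_lit 191) (.e (nat_lit 483372) (nat_lit 21) (.e (nat_lit 319505) (nat_lit 10) (.e (nat_lit 63) (nat_lit 0) (.e (nat_lit 4602) (nat_lit 269) (.e (nat_lit 1209) (nat_lit 89) .nil))))))) (.g (nat_lit 4) .nil .nil))))))) (.nd (nat_lit 2) (.nd (nat_lit 3) (.nd (nat_lit 4) (.nd (nat_lit 5) 
(.lf (nat_lit 204738) (.g (nat_lit 1059) (.e (nat_lit 73781) (nat_lit 32) (.e (nat_lit 3089) (nat_lit 191) (.e (nat_lit 483399) (nat_lit 25) (.e (nat_lit 368695) (nat_lit 40) (.e (nat_lit 671763) (nat_lit 5) .nil))))) .nil)) 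
(.lf (nat_lit 204770) (.g (nat_lit 2386) (.e (nat_lit 73781) (nat_lit 32) (.e (nat_lit 3090) (nat_lit 191) (.e (nat_lit 483372) (nat_lit 21) (.e (nat_lit 319504) (nat_lit 10) (.e (nat_lit 18) (nat_lit 0) .nil))))) .nil))) (.nd (nat_lit 5) 
(.lf (nat_lit 204754) (.g (nat_lit 2284) (.e (nat_lit 73781) (nat_lit 32) (.e (nat_lit 3090) (nat_lit 191) (.e (nat_lit 483372) (nat_lit 21) (.e (nat_lit 319490) (nat_lit 0) (.e (nat_lit 7936) (nat_lit 61) (.e (nat_lit 663568) (nat_lit 5) .nil)))))) (.g (nat_lit 4) .nil .nil))) 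
(.lf (nat_lit 204786) (.g (nat_lit 2036) (.e (nat_lit 73781) (nat_lit 32) (.e (nat_lit 3090) (nat_lit 191) (.e (nat_lit 483372) (nat_lit 21) (.e (nat_lit 319505) (nat_lit 10) (.e (nat_lit 11) (nat_lit 0) (.e (nat_lit 4553) (nat_lit 269) (.e (nat_lit 1211) (nat_lit 89) .nil))))))) (.g (nat_lit 4) .nil .nil))))) (.nd (nat_lit 4) (.nd (nat_lit 5) 
(.lf (nat_lit 204746) (.g (nat_lit 987) (.e (nat_lit 73781) (nat_lit 32) (.e (nat_lit 3090) (nat_lit 191) (.e (nat_lit 483350) (nat_lit 17) (.e (nat_lit 6490) (nat_lit 343) .nil)))) .nil)) 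
(.lf (nat_lit 204778) (.g (nat_lit 2658) (.e (nat_lit 73781) (nat_lit 32) (.e (nat_lit 3090) (nat_lit 191) (.e (nat_lit 483372) (nat_lit 21) (.e (nat_lit 319504) (nat_lit 10) (.e (nat_lit 52) (nat_lit 0) (.e (nat_lit 4602) (nat_lit 269) (.e (nat_lit 1211) (nat_lit 89) .nil))))))) (.g (nat_lit 4) .nil .nil)))) (.nd (nat_lit 5) 
(.lf (nat_lit 204762) (.g (nat_lit 1140) (.e (nat_lit 73781) (nat_lit 32) (.e (nat_lit 3090) (nat_lit 191) (.e (nat_lit 483372) (nat_lit 21) (.e (nat_lit 319504) (nat_lit 10) .nil)))) .nil)) 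
(.lf (nat_lit 204794) (.g (nat_lit 2396) (.e (nat_lit 73781) (nat_lit 32) (.e (nat_lit 3090) (nat_lit 191) (.e (nat_lit 483372) (nat_lit 21) (.e (nat_lit 319505) (nat_lit 10) (.e (nat_lit 52) (nat_lit 0) (.e (nat_lit 4602) (nat_lit 269) (.e (nat_lit 1211) (nat_lit 89) .nil))))))) (.g (nat_lit 4) .nil .nil)))))) (.nd (nat_lit 3) (.nd (nat_lit 4) (.nd (nat_lit 5) 
(.lf (nat_lit 204742) (.g (nat_lit 429) (.e (nat_lit 73781) (nat_lit 32) (.e (nat_lit 3090) (nat_lit 191) (.e (nat_lit 483347) (nat_lit 17) .nil))) .nil)) 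
(.lf (nat_lit 204774) (.g (nat_lit 3431) (.e (nat_lit 73781) (nat_lit 32) (.e (nat_lit 3090) (nat_lit 191) (.e (nat_lit 483372) (nat_lit 21) (.e (nat_lit 319504) (nat_lit 10) (.e (nat_lit 34) (nat_lit 0) (.e (nat_lit 4602) (nat_lit 269) (.e (nat_lit 1210) (nat_lit 89) .nil))))))) (.g (nat_lit 5) .nil .nil)))) (.nd (nat_lit 5) 
(.lf (nat_lit 204758) (.g (nat_lit 2489) (.e (nat_lit 73781) (nat_lit 32) (.e (nat_lit 3090) (nat_lit 191) (.e (nat_lit 483372) (nat_lit 21) (.e (nat_lit 319495) (nat_lit 0) .nil)))) .nil)) 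
(.lf (nat_lit 204790) (.g (nat_lit 2287) (.e (nat_lit 73781) (nat_lit 32) (.e (nat_lit 3090) (nat_lit 191) (.e (nat_lit 483372) (nat_lit 21) (.e (nat_lit 319505) (nat_lit 10) (.e (nat_lit 16) (nat_lit 0) (.e (nat_lit 4602) (nat_lit 269) (.e (nat_lit 1211) (nat_lit 89) .nil))))))) (.g (nat_lit 4) .nil .nil))))) (.nd (nat_lit 4) (.nd (nat_lit 5) 
(.lf (nat_lit 204750) (.g (nat_lit 2346) (.e (nat_lit 73781) (nat_lit 32) (.e (nat_lit 3090) (nat_lit 191) (.e (nat_lit 483372) (nat_lit 21) (.e (nat_lit 319488) (nat_lit 0) .nil)))) .nil)) 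
(.lf (nat_lit 204782) (.g (nat_lit 2535) (.e (nat_lit 73781) (nat_lit 32) (.e (nat_lit 3090) (nat_lit 191) (.e (nat_lit 483372) (nat_lit 21) (.e (nat_lit 319504) (nat_lit 10) (.e (nat_lit 63) (nat_lit 0) (.e (nat_lit 4602) (nat_lit 269) (.e (nat_lit 1210) (nat_lit 89) .nil))))))) (.g (nat_lit 4) .nil .nil)))) (.nd (nat_lit 5) 
(.lf (nat_lit 204766) (.g (nat_lit 2214) (.e (nat_lit 73781) (nat_lit 32) (.e (nat_lit 3090) (nat_lit 191) (.e (nat_lit 483372) (nat_lit 21) (.e (nat_lit 319504) (nat_lit 10) (.e (nat_lit 11) (nat_lit 0) (.e (nat_lit 4616) (nat_lit 269) (.e (nat_lit 1211) (nat_lit 89) .nil))))))) (.g (nat_lit 4) .nil .nil))) 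
(.lf (nat_lit 204798) (.g (nat_lit 1832) (.e (nat_lit 73781) (nat_lit 32) (.e (nat_lit 3090) (nat_lit 191) (.e (nat_lit 483372) (nat_lit 21) (.e (nat_lit 319505) (nat_lit 10) (.e (nat_lit 658) (nat_lit 54) .nil))))) .nil))))))) (.nd (nat_lit 1) (.nd (nat_lit 2) (.nd (nat_lit 3) (.nd (nat_lit 4) (.nd (nat_lit 5) 
(.lf (nat_lit 204737) (.g (nat_lit 2633) (.e (nat_lit 73781) (nat_lit 32) (.e (nat_lit 3089) (nat_lit 191) (.e (nat_lit 483399) (nat_lit 25) (.e (nat_lit 368662) (nat_lit 18) (.e (nat_lit 5907) (nat_lit 320) (.e (nat_lit 1211) (nat_lit 89) .nil)))))) (.g (nat_lit 0) .nil .nil))) 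
(.lf (nat_lit 204769) (.g (nat_lit 2692) (.e (nat_lit 73781) (nat_lit 32) (.e (nat_lit 3090) (nat_lit 191) (.e (nat_lit 483372) (nat_lit 21) (.e (nat_lit 319504) (nat_lit 10) (.e (nat_lit 16) (nat_lit 0) (.e (nat_lit 4602) (nat_lit 269) (.e (nat_lit 1211) (nat_lit 89) .nil))))))) (.g (nat_lit 4) .nil .nil)))) (.nd (nat_lit 5) 
(.lf (nat_lit 204753) (.g (nat_lit 2460) (.e (nat_lit 73781) (nat_lit 32) (.e (nat_lit 3090) (nat_lit 191) (.e (nat_lit 483372) (nat_lit 21) (.e (nat_lit 319490) (nat_lit 0) (.e (nat_lit 79) (nat_lit 0) .nil))))) .nil)) 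
(.lf (nat_lit 204785) (.g (nat_lit 791) (.e (nat_lit 73781) (nat_lit 32) (.e (nat_lit 3090) (nat_lit 191) (.e (nat_lit 483372) (nat_lit 21) (.e (nat_lit 319505) (nat_lit 10) .nil)))) .nil)))) (.nd (nat_lit 4) (.nd (nat_lit 5) 
(.lf (nat_lit 204745) (.g (nat_lit 1141) (.e (nat_lit 73781) (nat_lit 32) (.e (nat_lit 3090) (nat_lit 191) (.e (nat_lit 483350) (nat_lit 17) (.e (nat_lit 6475) (nat_lit 343) .nil)))) .nil)) 
(.lf (nat_lit 204777) (.g (nat_lit 3225) (.e (nat_lit 73781) (nat_lit 32) (.e (nat_lit 3090) (nat_lit 191) (.e (nat_lit 483372) (nat_lit 21) (.e (nat_lit 319504) (nat_lit 10) (.e (nat_lit 52) (nat_lit 0) (.e (nat_lit 4602) (nat_lit 269) (.e (nat_lit 1210) (nat_lit 89) .nil))))))) (.g (nat_lit 5) .nil .nil)))) (.nd (nat_lit 5) 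
(.lf (nat_lit 204761) (.g (nat_lit 1558) (.e (nat_lit 73781) (nat_lit 32) (.e (nat_lit 3090) (nat_lit 191) (.e (nat_lit 483372) (nat_lit 21) (.e (nat_lit 319503) (nat_lit 10) .nil)))) .nil)) 
(.lf (nat_lit 204793) (.g (nat_lit 2351) (.e (nat_lit 73781) (nat_lit 32) (.e (nat_lit 3090) (nat_lit 191) (.e (nat_lit 483372) (nat_lit 21) (.e (nat_lit 319505) (nat_lit 10) (.e (nat_lit 52) (nat_lit 0) (.e (nat_lit 4602) (nat_lit 269) (.e (nat_lit 1208) (nat_lit 89) .nil))))))) (.g (nat_lit 4) .nil .nil)))))) (.nd (nat_lit 3) (.nd (nat_lit 4) (.nd (nat_lit 5) 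
(.lf (nat_lit 204741) (.g (nat_lit 476) (.e (nat_lit 73781) (nat_lit 32) (.e (nat_lit 3090) (nat_lit 191) (.e (nat_lit 483343) (nat_lit 17) .nil))) .nil)) 
(.lf (nat_lit 204773) (.g (nat_lit 2819) (.e (nat_lit 73781) (nat_lit 32) (.e (nat_lit 3090) (nat_lit 191) (.e (nat_lit 483372) (nat_lit 21) (.e (nat_lit 319504) (nat_lit 10) (.e (nat_lit 34) (nat_lit 0) (.e (nat_lit 4602) (nat_lit 269) (.e (nat_lit 1208) (nat_lit 89) .nil))))))) (.g (nat_lit 4) .nil .nil)))) (.nd (nat_lit 5) 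
(.lf (nat_lit 204757) (.g (nat_lit 1875) (.e (nat_lit 73781) (nat_lit 32) (.e (nat_lit 3090) (nat_lit 191) (.e (nat_lit 483372) (nat_lit 21) (.e (nat_lit 319494) (nat_lit 0) .nil)))) .nil)) 
(.lf (nat_lit 204789) (.g (nat_lit 2854) (.e (nat_lit 73781) (nat_lit 32) (.e (nat_lit 3090) (nat_lit 191) (.e (nat_lit 483372) (nat_lit 21) (.e (nat_lit 319505) (nat_lit 10) (.e (nat_lit 16) (nat_lit 0) (.e (nat_lit 4602) (nat_lit 269) (.e (nat_lit 1210) (nat_lit 89) .nil))))))) (.g (nat_lit 5) .nil .nil))))) (.nd (nat_lit 4) (.nd (nat_lit 5) 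
(.lf (nat_lit 204749) (.g (nat_lit 1098) (.e (nat_lit 73781) (nat_lit 32) (.e (nat_lit 3090) (nat_lit 191) (.e (nat_lit 483364) (nat_lit 18) (.e (nat_lit 65280) (nat_lit 231) .nil)))) .nil)) 
(.lf (nat_lit 204781) (.g (nat_lit 2737) (.e (nat_lit 73781) (nat_lit 32) (.e (nat_lit 3090) (nat_lit 191) (.e (nat_lit 483372) (nat_lit 21) (.e (nat_lit 319504) (nat_lit 10) (.e (nat_lit 63) (nat_lit 0) (.e (nat_lit 4602) (nat_lit 269) (.e (nat_lit 1209) (nat_lit 89) .nil))))))) (.g (nat_lit 4) .nil .nil)))) (.nd (nat_lit 5) 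
(.lf (nat_lit 204765) (.g (nat_lit 2275) (.e (nat_lit 73781) (nat_lit 32) (.e (nat_lit 3090) (nat_lit 191) (.e (nat_lit 483372) (nat_lit 21) (.e (nat_lit 319504) (nat_lit 10) (.e (nat_lit 11) (nat_lit 0) (.e (nat_lit 4616) (nat_lit 269) (.e (nat_lit 1210) (nat_lit 89) .nil))))))) (.g (nat_lit 4) .nil .nil))) 
(.lf (nat_lit 204797) (.g (nat_lit 2150) (.e (nat_lit 73781) (nat_lit 32) (.e (nat_lit 3090) (nat_lit 191) (.e (nat_lit 483372) (nat_lit 21) (.e (nat_lit 319505) (nat_lit 10) (.e (nat_lit 63) (nat_lit 0) (.e (nat_lit 4602) (nat_lit 269) (.e (nat_lit 1210) (nat_lit 89) .nil))))))) (.g (nat_lit 4) .nil .nil))))))) (.nd (nat_lit 2) (.nd (nat_lit 3) (.nd (nat_lit 4) (.nd (nat_lit 5) 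
(.lf (nat_lit 204739) (.g (nat_lit 1837) (.e (nat_lit 73781) (nat_lit 32) (.e (nat_lit 3089) (nat_lit 191) (.e (nat_lit 483406) (nat_lit 26) (.e (nat_lit 385090) (nat_lit 49) (.e (nat_lit 778324) (nat_lit 5) .nil))))) .nil)) 
(.lf (nat_lit 204771) (.g (nat_lit 2855) (.e (nat_lit 73781) (nat_lit 32) (.e (nat_lit 3090) (nat_lit 191) (.e (nat_lit 483372) (nat_lit 21) (.e (nat_lit 319504) (nat_lit 10) (.e (nat_lit 18) (nat_lit 0) (.e (nat_lit 4602) (nat_lit 269) (.e (nat_lit 1209) (nat_lit 89) .nil))))))) (.g (nat_lit 4) .nil .nil)))) (.nd (nat_lit 5) 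
(.lf (nat_lit 204755) (.g (nat_lit 2523) (.e (nat_lit 73781) (nat_lit 32) (.e (nat_lit 3090) (nat_lit 191) (.e (nat_lit 483372) (nat_lit 21) (.e (nat_lit 319491) (nat_lit 0) .nil)))) .nil)) 
(.lf (nat_lit 204787) (.g (nat_lit 2246) (.e (nat_lit 73781) (nat_lit 32) (.e (nat_lit 3090) (nat_lit 191) (.e (nat_lit 483372) (nat_lit 21) (.e (nat_lit 319505) (nat_lit 10) (.e (nat_lit 11) (nat_lit 0) (.e (nat_lit 4616) (nat_lit 269) (.e (nat_lit 1209) (nat_lit 89) .nil))))))) (.g (nat_lit 4) .nil .nil))))) (.nd (nat_lit 4) (.nd (nat_lit 5) 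
(.lf (nat_lit 204747) (.g (nat_lit 1025) (.e (nat_lit 73781) (nat_lit 32) (.e (nat_lit 3090) (nat_lit 191) (.e (nat_lit 483350) (nat_lit 17) (.e (nat_lit 7936) (nat_lit 343) .nil)))) .nil)) 
(.lf (nat_lit 204779) (.g (nat_lit 2386) (.e (nat_lit 73781) (nat_lit 32) (.e (nat_lit 3090) (nat_lit 191) (.e (nat_lit 483372) (nat_lit 21) (.e (nat_lit 319504) (nat_lit 10) (.e (nat_lit 59) (nat_lit 0) .nil))))) .nil))) (.nd (nat_lit 5) 
(.lf (nat_lit 204763) (.g (nat_lit 2192) (.e (nat_lit 73781) (nat_lit 32) (.e (nat_lit 3090) (nat_lit 191) (.e (nat_lit 483372) (nat_lit 21) (.e (nat_lit 319504) (nat_lit 10) (.e (nat_lit 11) (nat_lit 0) .nil))))) .nil)) 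
(.lf (nat_lit 204795) (.g (nat_lit 1902) (.e (nat_lit 73781) (nat_lit 32) (.e (nat_lit 3090) (nat_lit 191) (.e (nat_lit 483372) (nat_lit 21) (.e (nat_lit 319505) (nat_lit 10) (.e (nat_lit 63) (nat_lit 0) .nil))))) .nil))))) (.nd (nat_lit 3) (.nd (nat_lit 4) (.nd (nat_lit 5) 
(.lf (nat_lit 204743) (.g (nat_lit 1051) (.e (nat_lit 73781) (nat_lit 32) (.e (nat_lit 3090) (nat_lit 191) (.e (nat_lit 483350) (nat_lit 17) (.e (nat_lit 6097) (nat_lit 332) .nil)))) .nil)) 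
(.lf (nat_lit 204775) (.g (nat_lit 2864) (.e (nat_lit 73781) (nat_lit 32) (.e (nat_lit 3090) (nat_lit 191) (.e (nat_lit 483372) (nat_lit 21) (.e (nat_lit 319504) (nat_lit 10) (.e (nat_lit 34) (nat_lit 0) (.e (nat_lit 4602) (nat_lit 269) (.e (nat_lit 1211) (nat_lit 89) .nil))))))) (.g (nat_lit 4) .nil .nil)))) (.nd (nat_lit 5) 
(.lf (nat_lit 204759) (.g (nat_lit 1077) (.e (nat_lit 73781) (nat_lit 32) (.e (nat_lit 3090) (nat_lit 191) (.e (nat_lit 483372) (nat_lit 21) (.e (nat_lit 327424) (nat_lit 0) .nil)))) .nil)) 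
(.lf (nat_lit 204791) (.g (nat_lit 1985) (.e (nat_lit 73781) (nat_lit 32) (.e (nat_lit 3090) (nat_lit 191) (.e (nat_lit 483372) (nat_lit 21) (.e (nat_lit 319505) (nat_lit 10) (.e (nat_lit 34) (nat_lit 0) (.e (nat_lit 4602) (nat_lit 269) (.e (nat_lit 1208) (nat_lit 89) .nil))))))) (.g (nat_lit 4) .nil .nil))))) (.nd (nat_lit 4) (.nd (nat_lit 5) 
(.lf (nat_lit 204751) (.g (nat_lit 1378) (.e (nat_lit 73781) (nat_lit 32) (.e (nat_lit 3090) (nat_lit 191) (.e (nat_lit 483372) (nat_lit 21) (.e (nat_lit 319490) (nat_lit 0) .nil)))) .nil)) 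
(.lf (nat_lit 204783) (.g (nat_lit 2990) (.e (nat_lit 73781) (nat_lit 32) (.e (nat_lit 3090) (nat_lit 191) (.e (nat_lit 483372) (nat_lit 21) (.e (nat_lit 319504) (nat_lit 10) (.e (nat_lit 658) (nat_lit 54) (.e (nat_lit 606227) (nat_lit 5) .nil)))))) (.g (nat_lit 4) .nil .nil)))) (.nd (nat_lit 5) 
(.lf (nat_lit 204767) (.g (nat_lit 2647) (.e (nat_lit 73781) (nat_lit 32) (.e (nat_lit 3090) (nat_lit 191) (.e (nat_lit 483372) (nat_lit 21) (.e (nat_lit 319504) (nat_lit 10) (.e (nat_lit 16) (nat_lit 0) (.e (nat_lit 4602) (nat_lit 269) (.e (nat_lit 1208) (nat_lit 89) .nil))))))) (.g (nat_lit 4) .nil .nil))) 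
(.lf (nat_lit 204799) (.g (nat_lit 2925) (.e (nat_lit 73781) (nat_lit 32) (.e (nat_lit 3090) (nat_lit 191) (.e (nat_lit 483372) (nat_lit 21) (.e (nat_lit 319505) (nat_lit 10) (.e (nat_lit 658) (nat_lit 54) (.e (nat_lit 606227) (nat_lit 5) .nil)))))) (.g (nat_lit 6) .nil .nil)))))))))

noncomputable def tv2702 : DT := (.nd (nat_lit 0) (.nd (nat_lit 1) (.nd (nat_lit 2) (.nd (nat_lit 3) (.nd (nat_lit 4) (.nd (nat_lit 5) 
(.lf (nat_lit 204800) (.g (nat_lit 1984) (.e (nat_lit 73781) (nat_lit 32) (.e (nat_lit 3090) (nat_lit 191) (.e (nat_lit 483372) (nat_lit 21) (.e (nat_lit 319514) (nat_lit 11) .nil)))) .nil)) 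
(.lf (nat_lit 204832) (.g (nat_lit 1814) (.e (nat_lit 73781) (nat_lit 32) (.e (nat_lit 3090) (nat_lit 191) (.e (nat_lit 483380) (nat_lit 23) (.e (nat_lit 336308) (nat_lit 15) .nil)))) .nil))) (.nd (nat_lit 5) 
(.lf (nat_lit 204816) (.g (nat_lit 1581) (.e (nat_lit 73781) (nat_lit 32) (.e (nat_lit 3090) (nat_lit 191) (.e (nat_lit 483380) (nat_lit 23) (.e (nat_lit 336000) (nat_lit 1) .nil)))) .nil)) 
(.lf (nat_lit 204848) (.g (nat_lit 1849) (.e (nat_lit 73781) (nat_lit 32) (.e (nat_lit 3090) (nat_lit 191) (.e (nat_lit 483389) (nat_lit 23) (.e (nat_lit 335907) (nat_lit 0) (.e (nat_lit 1996) (nat_lit 137) (.e (nat_lit 663568) (nat_lit 5) .nil)))))) (.g (nat_lit 4) .nil .nil))))) (.nd (nat_lit 4) (.nd (nat_lit 5) 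
(.lf (nat_lit 204808) (.g (nat_lit 402) (.e (nat_lit 73781) (nat_lit 32) (.e (nat_lit 3090) (nat_lit 191) (.e (nat_lit 483380) (nat_lit 23) .nil))) .nil)) 
(.lf (nat_lit 204840) (.g (nat_lit 377) (.e (nat_lit 73781) (nat_lit 32) (.e (nat_lit 3090) (nat_lit 191) (.e (nat_lit 483387) (nat_lit 23) .nil))) .nil))) (.nd (nat_lit 5) 
(.lf (nat_lit 204824) (.g (nat_lit 1767) (.e (nat_lit 73781) (nat_lit 32) (.e (nat_lit 3090) (nat_lit 191) (.e (nat_lit 483380) (nat_lit 23) (.e (nat_lit 336264) (nat_lit 15) .nil)))) .nil)) 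
(.lf (nat_lit 204856) (.g (nat_lit 2470) (.e (nat_lit 73781) (nat_lit 32) (.e (nat_lit 3090) (nat_lit 191) (.e (nat_lit 483393) (nat_lit 23) (.e (nat_lit 335988) (nat_lit 1) (.e (nat_lit 57870) (nat_lit 264) (.e (nat_lit 1210) (nat_lit 89) .nil)))))) (.g (nat_lit 4) .nil .nil)))))) (.nd (nat_lit 3) (.nd (nat_lit 4) (.nd (nat_lit 5) 
(.lf (nat_lit 204804) (.g (nat_lit 2762) (.e (nat_lit 73781) (nat_lit 32) (.e (nat_lit 3090) (nat_lit 191) (.e (nat_lit 483378) (nat_lit 23) (.e (nat_lit 335997) (nat_lit 1) (.e (nat_lit 57870) (nat_lit 264) (.e (nat_lit 1209) (nat_lit 89) .nil)))))) (.g (nat_lit 6) .nil .nil))) 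
(.lf (nat_lit 204836) (.g (nat_lit 1861) (.e (nat_lit 73781) (nat_lit 32) (.e (nat_lit 3090) (nat_lit 191) (.e (nat_lit 483386) (nat_lit 23) (.e (nat_lit 335985) (nat_lit 1) (.e (nat_lit 57870) (nat_lit 264) (.e (nat_lit 1210) (nat_lit 89) .nil)))))) (.g (nat_lit 0) .nil .nil)))) (.nd (nat_lit 5) 
(.lf (nat_lit 204820) (.g (nat_lit 1790) (.e (nat_lit 73781) (nat_lit 32) (.e (nat_lit 3090) (nat_lit 191) (.e (nat_lit 483380) (nat_lit 23) (.e (nat_lit 336254) (nat_lit 15) .nil)))) .nil)) 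
(.lf (nat_lit 204852) (.g (nat_lit 521) (.e (nat_lit 73781) (nat_lit 32) (.e (nat_lit 3090) (nat_lit 191) (.e (nat_lit 483393) (nat_lit 23) .nil))) .nil)))) (.nd (nat_lit 4) (.nd (nat_lit 5) 
(.lf (nat_lit 204812) (.g (nat_lit 1814) (.e (nat_lit 73781) (nat_lit 32) (.e (nat_lit 3090) (nat_lit 191) (.e (nat_lit 483380) (nat_lit 23) (.e (nat_lit 335885) (nat_lit 0) .nil)))) .nil)) 
(.lf (nat_lit 204844) (.g (nat_lit 2718) (.e (nat_lit 73781) (nat_lit 32) (.e (nat_lit 3090) (nat_lit 191) (.e (nat_lit 483387) (nat_lit 23) (.e (nat_lit 335997) (nat_lit 1) (.e (nat_lit 57871) (nat_lit 264) (.e (nat_lit 1209) (nat_lit 89) .nil)))))) (.g (nat_lit 6) .nil .nil)))) (.nd (nat_lit 5) 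
(.lf (nat_lit 204828) (.g (nat_lit 1511) (.e (nat_lit 73781) (nat_lit 32) (.e (nat_lit 3090) (nat_lit 191) (.e (nat_lit 483380) (nat_lit 23) (.e (nat_lit 336296) (nat_lit 15) .nil)))) .nil)) 
(.lf (nat_lit 204860) (.g (nat_lit 2449) (.e (nat_lit 73781) (nat_lit 32) (.e (nat_lit 3090) (nat_lit 191) (.e (nat_lit 483393) (nat_lit 23) (.e (nat_lit 335995) (nat_lit 1) (.e (nat_lit 57870) (nat_lit 264) (.e (nat_lit 1210) (nat_lit 89) .nil)))))) (.g (nat_lit 4) .nil .nil))))))) (.nd (nat_lit 2) (.nd (nat_lit 3) (.nd (nat_lit 4) (.nd (nat_lit 5) 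
(.lf (nat_lit 204802) (.g (nat_lit 411) (.e (nat_lit 73781) (nat_lit 32) (.e (nat_lit 3090) (nat_lit 191) (.e (nat_lit 483378) (nat_lit 23) .nil))) .nil)) 
(.lf (nat_lit 204834) (.g (nat_lit 2265) (.e (nat_lit 73781) (nat_lit 32) (.e (nat_lit 3090) (nat_lit 191) (.e (nat_lit 483380) (nat_lit 23) (.e (nat_lit 336355) (nat_lit 24) (.e (nat_lit 270080) (nat_lit 5) .nil))))) (.g (nat_lit 4) .nil .nil)))) (.nd (nat_lit 5) 
(.lf (nat_lit 204818) (.g (nat_lit 1691) (.e (nat_lit 73781) (nat_lit 32) (.e (nat_lit 3090) (nat_lit 191) (.e (nat_lit 483380) (nat_lit 23) (.e (nat_lit 336249) (nat_lit 15) .nil)))) .nil)) 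
(.lf (nat_lit 204850) (.g (nat_lit 2842) (.e (nat_lit 73781) (nat_lit 32) (.e (nat_lit 3090) (nat_lit 191) (.e (nat_lit 483391) (nat_lit 23) (.e (nat_lit 335998) (nat_lit 1) (.e (nat_lit 57873) (nat_lit 264) (.e (nat_lit 1211) (nat_lit 89) .nil)))))) (.g (nat_lit 6) .nil .nil))))) (.nd (nat_lit 4) (.nd (nat_lit 5) 
(.lf (nat_lit 204810) (.g (nat_lit 1814) (.e (nat_lit 73781) (nat_lit 32) (.e (nat_lit 3090) (nat_lit 191) (.e (nat_lit 483380) (nat_lit 23) (.e (nat_lit 335880) (nat_lit 0) .nil)))) .nil)) 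
(.lf (nat_lit 204842) (.g (nat_lit 2753) (.e (nat_lit 73781) (nat_lit 32) (.e (nat_lit 3090) (nat_lit 191) (.e (nat_lit 483387) (nat_lit 23) (.e (nat_lit 335997) (nat_lit 1) (.e (nat_lit 57870) (nat_lit 264) (.e (nat_lit 1209) (nat_lit 89) .nil)))))) (.g (nat_lit 6) .nil .nil)))) (.nd (nat_lit 5) 
(.lf (nat_lit 204826) (.g (nat_lit 1814) (.e (nat_lit 73781) (nat_lit 32) (.e (nat_lit 3090) (nat_lit 191) (.e (nat_lit 483380) (nat_lit 23) (.e (nat_lit 336269) (nat_lit 15) .nil)))) .nil)) 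
(.lf (nat_lit 204858) (.g (nat_lit 1164) (.e (nat_lit 73781) (nat_lit 32) (.e (nat_lit 3090) (nat_lit 191) (.e (nat_lit 483393) (nat_lit 23) (.e (nat_lit 335993) (nat_lit 1) .nil)))) .nil))))) (.nd (nat_lit 3) (.nd (nat_lit 4) (.nd (nat_lit 5) 
(.lf (nat_lit 204806) (.g (nat_lit 2742) (.e (nat_lit 73781) (nat_lit 32) (.e (nat_lit 3090) (nat_lit 191) (.e (nat_lit 483378) (nat_lit 23) (.e (nat_lit 335997) (nat_lit 1) (.e (nat_lit 57871) (nat_lit 264) (.e (nat_lit 1209) (nat_lit 89) .nil)))))) (.g (nat_lit 6) .nil .nil))) 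
(.lf (nat_lit 204838) (.g (nat_lit 1921) (.e (nat_lit 73781) (nat_lit 32) (.e (nat_lit 3090) (nat_lit 191) (.e (nat_lit 483386) (nat_lit 23) (.e (nat_lit 335992) (nat_lit 1) (.e (nat_lit 57870) (nat_lit 264) (.e (nat_lit 1211) (nat_lit 89) .nil)))))) (.g (nat_lit 5) .nil .nil)))) (.nd (nat_lit 5) 
(.lf (nat_lit 204822) (.g (nat_lit 2134) (.e (nat_lit 73781) (nat_lit 32) (.e (nat_lit 3090) (nat_lit 191) (.e (nat_lit 483380) (nat_lit 23) (.e (nat_lit 336257) (nat_lit 15) (.e (nat_lit 3672) (nat_lit 227) (.e (nat_lit 786176) (nat_lit 5) .nil)))))) (.g (nat_lit 4) .nil .nil))) 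
(.lf (nat_lit 204854) (.g (nat_lit 3140) (.e (nat_lit 73781) (nat_lit 32) (.e (nat_lit 3090) (nat_lit 191) (.e (nat_lit 483393) (nat_lit 23) (.e (nat_lit 335986) (nat_lit 1) (.e (nat_lit 57873) (nat_lit 264) (.e (nat_lit 1211) (nat_lit 89) .nil)))))) (.g (nat_lit 6) .nil .nil))))) (.nd (nat_lit 4) (.nd (nat_lit 5) 
(.lf (nat_lit 204814) (.g (nat_lit 1829) (.e (nat_lit 73781) (nat_lit 32) (.e (nat_lit 3090) (nat_lit 191) (.e (nat_lit 483380) (nat_lit 23) (.e (nat_lit 335971) (nat_lit 0) .nil)))) .nil)) 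
(.lf (nat_lit 204846) (.g (nat_lit 1993) (.e (nat_lit 73781) (nat_lit 32) (.e (nat_lit 3090) (nat_lit 191) (.e (nat_lit 483388) (nat_lit 23) (.e (nat_lit 335907) (nat_lit 0) (.e (nat_lit 1996) (nat_lit 137) (.e (nat_lit 663568) (nat_lit 5) .nil)))))) (.g (nat_lit 4) .nil .nil)))) (.nd (nat_lit 5) 
(.lf (nat_lit 204830) (.g (nat_lit 1814) (.e (nat_lit 73781) (nat_lit 32) (.e (nat_lit 3090) (nat_lit 191) (.e (nat_lit 483380) (nat_lit 23) (.e (nat_lit 336304) (nat_lit 15) .nil)))) .nil)) 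
(.lf (nat_lit 204862) (.g (nat_lit 2948) (.e (nat_lit 73781) (nat_lit 32) (.e (nat_lit 3090) (nat_lit 191) (.e (nat_lit 483393) (nat_lit 23) (.e (nat_lit 335996) (nat_lit 1) (.e (nat_lit 57870) (nat_lit 264) (.e (nat_lit 1211) (nat_lit 89) .nil)))))) (.g (nat_lit 5) .nil .nil)))))))) (.nd (nat_lit 1) (.nd (nat_lit 2) (.nd (nat_lit 3) (.nd (nat_lit 4) (.nd (nat_lit 5) 
(.lf (nat_lit 204801) (.g (nat_lit 2434) (.e (nat_lit 73781) (nat_lit 32) (.e (nat_lit 3090) (nat_lit 191) (.e (nat_lit 483372) (nat_lit 21) (.e (nat_lit 319515) (nat_lit 11) .nil)))) .nil)) 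
(.lf (nat_lit 204833) (.g (nat_lit 1243) (.e (nat_lit 73781) (nat_lit 32) (.e (nat_lit 3090) (nat_lit 191) (.e (nat_lit 483380) (nat_lit 23) (.e (nat_lit 336310) (nat_lit 16) .nil)))) .nil))) (.nd (nat_lit 5) 
(.lf (nat_lit 204817) (.g (nat_lit 1734) (.e (nat_lit 73781) (nat_lit 32) (.e (nat_lit 3090) (nat_lit 191) (.e (nat_lit 483380) (nat_lit 23) (.e (nat_lit 336245) (nat_lit 15) .nil)))) .nil)) 
(.lf (nat_lit 204849) (.g (nat_lit 2199) (.e (nat_lit 73781) (nat_lit 32) (.e (nat_lit 3090) (nat_lit 191) (.e (nat_lit 483391) (nat_lit 23) (.e (nat_lit 335998) (nat_lit 1) (.e (nat_lit 57873) (nat_lit 264) (.e (nat_lit 1210) (nat_lit 89) .nil)))))) (.g (nat_lit 5) .nil .nil))))) (.nd (nat_lit 4) (.nd (nat_lit 5) 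
(.lf (nat_lit 204809) (.g (nat_lit 1814) (.e (nat_lit 73781) (nat_lit 32) (.e (nat_lit 3090) (nat_lit 191) (.e (nat_lit 483380) (nat_lit 23) (.e (nat_lit 335873) (nat_lit 0) .nil)))) .nil)) 
(.lf (nat_lit 204841) (.g (nat_lit 2207) (.e (nat_lit 73781) (nat_lit 32) (.e (nat_lit 3090) (nat_lit 191) (.e (nat_lit 483387) (nat_lit 23) (.e (nat_lit 335907) (nat_lit 0) (.e (nat_lit 1994) (nat_lit 137) (.e (nat_lit 663568) (nat_lit 5) .nil)))))) (.g (nat_lit 5) .nil .nil)))) (.nd (nat_lit 5) 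
(.lf (nat_lit 204825) (.g (nat_lit 1808) (.e (nat_lit 73781) (nat_lit 32) (.e (nat_lit 3090) (nat_lit 191) (.e (nat_lit 483380) (nat_lit 23) (.e (nat_lit 336268) (nat_lit 15) .nil)))) .nil)) 
(.lf (nat_lit 204857) (.g (nat_lit 2558) (.e (nat_lit 73781) (nat_lit 32) (.e (nat_lit 3090) (nat_lit 191) (.e (nat_lit 483393) (nat_lit 23) (.e (nat_lit 335988) (nat_lit 1) (.e (nat_lit 57870) (nat_lit 264) (.e (nat_lit 1211) (nat_lit 89) .nil)))))) (.g (nat_lit 4) .nil .nil)))))) (.nd (nat_lit 3) (.nd (nat_lit 4) (.nd (nat_lit 5) 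
(.lf (nat_lit 204805) (.g (nat_lit 2352) (.e (nat_lit 73781) (nat_lit 32) (.e (nat_lit 3090) (nat_lit 191) (.e (nat_lit 483378) (nat_lit 23) (.e (nat_lit 335997) (nat_lit 1) (.e (nat_lit 57870) (nat_lit 264) (.e (nat_lit 1210) (nat_lit 89) .nil)))))) (.g (nat_lit 0) .nil .nil))) 
(.lf (nat_lit 204837) (.g (nat_lit 1912) (.e (nat_lit 73781) (nat_lit 32) (.e (nat_lit 3090) (nat_lit 191) (.e (nat_lit 483386) (nat_lit 23) (.e (nat_lit 335985) (nat_lit 1) (.e (nat_lit 57870) (nat_lit 264) (.e (nat_lit 1211) (nat_lit 89) .nil)))))) (.g (nat_lit 0) .nil .nil)))) (.nd (nat_lit 5) 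
(.lf (nat_lit 204821) (.g (nat_lit 1814) (.e (nat_lit 73781) (nat_lit 32) (.e (nat_lit 3090) (nat_lit 191) (.e (nat_lit 483380) (nat_lit 23) (.e (nat_lit 336256) (nat_lit 15) .nil)))) .nil)) 
(.lf (nat_lit 204853) (.g (nat_lit 1056) (.e (nat_lit 73781) (nat_lit 32) (.e (nat_lit 3090) (nat_lit 191) (.e (nat_lit 483393) (nat_lit 23) (.e (nat_lit 335897) (nat_lit 0) .nil)))) .nil)))) (.nd (nat_lit 4) (.nd (nat_lit 5) 
(.lf (nat_lit 204813) (.g (nat_lit 1814) (.e (nat_lit 73781) (nat_lit 32) (.e (nat_lit 3090) (nat_lit 191) (.e (nat_lit 483380) (nat_lit 23) (.e (nat_lit 335969) (nat_lit 0) .nil)))) .nil)) 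
(.lf (nat_lit 204845) (.g (nat_lit 2276) (.e (nat_lit 73781) (nat_lit 32) (.e (nat_lit 3090) (nat_lit 191) (.e (nat_lit 483387) (nat_lit 23) (.e (nat_lit 335997) (nat_lit 1) (.e (nat_lit 57871) (nat_lit 264) (.e (nat_lit 1210) (nat_lit 89) .nil)))))) (.g (nat_lit 6) .nil .nil)))) (.nd (nat_lit 5) 
(.lf (nat_lit 204829) (.g (nat_lit 1799) (.e (nat_lit 73781) (nat_lit 32) (.e (nat_lit 3090) (nat_lit 191) (.e (nat_lit 483380) (nat_lit 23) (.e (nat_lit 336299) (nat_lit 15) .nil)))) .nil)) 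
(.lf (nat_lit 204861) (.g (nat_lit 2503) (.e (nat_lit 73781) (nat_lit 32) (.e (nat_lit 3090) (nat_lit 191) (.e (nat_lit 483393) (nat_lit 23) (.e (nat_lit 335995) (nat_lit 1) (.e (nat_lit 57870) (nat_lit 264) (.e (nat_lit 1211) (nat_lit 89) .nil)))))) (.g (nat_lit 4) .nil .nil))))))) (.nd (nat_lit 2) (.nd (nat_lit 3) (.nd (nat_lit 4) (.nd (nat_lit 5) 
(.lf (nat_lit 204803) (.g (nat_lit 1909) (.e (nat_lit 73781) (nat_lit 32) (.e (nat_lit 3090) (nat_lit 191) (.e (nat_lit 483378) (nat_lit 23) (.e (nat_lit 335907) (nat_lit 0) (.e (nat_lit 1994) (nat_lit 137) (.e (nat_lit 663568) (nat_lit 5) .nil)))))) (.g (nat_lit 4) .nil .nil))) 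
(.lf (nat_lit 204835) (.g (nat_lit 431) (.e (nat_lit 73781) (nat_lit 32) (.e (nat_lit 3090) (nat_lit 191) (.e (nat_lit 483386) (nat_lit 23) .nil))) .nil))) (.nd (nat_lit 5) 
(.lf (nat_lit 204819) (.g (nat_lit 1789) (.e (nat_lit 73781) (nat_lit 32) (.e (nat_lit 3090) (nat_lit 191) (.e (nat_lit 483380) (nat_lit 23) (.e (nat_lit 336252) (nat_lit 15) .nil)))) .nil)) 
(.lf (nat_lit 204851) (.g (nat_lit 790) (.e (nat_lit 73781) (nat_lit 32) (.e (nat_lit 3090) (nat_lit 191) (.e (nat_lit 483391) (nat_lit 23) (.e (nat_lit 336356) (nat_lit 24) .nil)))) .nil)))) (.nd (nat_lit 4) (.nd (nat_lit 5) 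
(.lf (nat_lit 204811) (.g (nat_lit 1814) (.e (nat_lit 73781) (nat_lit 32) (.e (nat_lit 3090) (nat_lit 191) (.e (nat_lit 483380) (nat_lit 23) (.e (nat_lit 335883) (nat_lit 0) .nil)))) .nil)) 
(.lf (nat_lit 204843) (.g (nat_lit 2311) (.e (nat_lit 73781) (nat_lit 32) (.e (nat_lit 3090) (nat_lit 191) (.e (nat_lit 483387) (nat_lit 23) (.e (nat_lit 335997) (nat_lit 1) (.e (nat_lit 57870) (nat_lit 264) (.e (nat_lit 1210) (nat_lit 89) .nil)))))) (.g (nat_lit 6) .nil .nil)))) (.nd (nat_lit 5) 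
(.lf (nat_lit 204827) (.g (nat_lit 1776) (.e (nat_lit 73781) (nat_lit 32) (.e (nat_lit 3090) (nat_lit 191) (.e (nat_lit 483380) (nat_lit 23) (.e (nat_lit 336283) (nat_lit 15) .nil)))) .nil)) 
(.lf (nat_lit 204859) (.g (nat_lit 2783) (.e (nat_lit 73781) (nat_lit 32) (.e (nat_lit 3090) (nat_lit 191) (.e (nat_lit 483393) (nat_lit 23) (.e (nat_lit 335995) (nat_lit 1) (.e (nat_lit 57870) (nat_lit 264) (.e (nat_lit 1209) (nat_lit 89) .nil)))))) (.g (nat_lit 4) .nil .nil)))))) (.nd (nat_lit 3) (.nd (nat_lit 4) (.nd (nat_lit 5) 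
(.lf (nat_lit 204807) (.g (nat_lit 858) (.e (nat_lit 73781) (nat_lit 32) (.e (nat_lit 3090) (nat_lit 191) (.e (nat_lit 483378) (nat_lit 23) (.e (nat_lit 336032) (nat_lit 4) .nil)))) .nil)) 
(.lf (nat_lit 204839) (.g (nat_lit 2141) (.e (nat_lit 73781) (nat_lit 32) (.e (nat_lit 3090) (nat_lit 191) (.e (nat_lit 483386) (nat_lit 23) (.e (nat_lit 336030) (nat_lit 4) (.e (nat_lit 123185) (nat_lit 264) (.e (nat_lit 1214) (nat_lit 89) .nil)))))) (.g (nat_lit 6) .nil .nil)))) (.nd (nat_lit 5) 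
(.lf (nat_lit 204823) (.g (nat_lit 1409) (.e (nat_lit 73781) (nat_lit 32) (.e (nat_lit 3090) (nat_lit 191) (.e (nat_lit 483380) (nat_lit 23) (.e (nat_lit 336257) (nat_lit 15) (.e (nat_lit 3718) (nat_lit 227) .nil))))) .nil)) 
(.lf (nat_lit 204855) (.g (nat_lit 2033) (.e (nat_lit 73781) (nat_lit 32) (.e (nat_lit 3090) (nat_lit 191) (.e (nat_lit 483393) (nat_lit 23) (.e (nat_lit 335987) (nat_lit 1) (.e (nat_lit 57870) (nat_lit 264) (.e (nat_lit 1210) (nat_lit 89) .nil)))))) (.g (nat_lit 4) .nil .nil))))) (.nd (nat_lit 4) (.nd (nat_lit 5) 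
(.lf (nat_lit 204815) (.g (nat_lit 1974) (.e (nat_lit 73781) (nat_lit 32) (.e (nat_lit 3090) (nat_lit 191) (.e (nat_lit 483380) (nat_lit 23) (.e (nat_lit 335973) (nat_lit 0) (.e (nat_lit 1023) (nat_lit 81) .nil))))) .nil)) 
(.lf (nat_lit 204847) (.g (nat_lit 483) (.e (nat_lit 73781) (nat_lit 32) (.e (nat_lit 3090) (nat_lit 191) (.e (nat_lit 483389) (nat_lit 23) .nil))) .nil))) (.nd (nat_lit 5) 
(.lf (nat_lit 204831) (.g (nat_lit 1396) (.e (nat_lit 73781) (nat_lit 32) (.e (nat_lit 3090) (nat_lit 191) (.e (nat_lit 483380) (nat_lit 23) (.e (nat_lit 336306) (nat_lit 15) .nil)))) .nil)) 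
(.lf (nat_lit 204863) (.g (nat_lit 359) (.e (nat_lit 73781) (nat_lit 32) (.e (nat_lit 3090) (nat_lit 191) (.e (nat_lit 491264) (nat_lit 23) .nil))) .nil))))))))

noncomputable def tv2703 : DT := (.nd (nat_lit 0) (.nd (nat_lit 1) (.nd (nat_lit 2) (.nd (nat_lit 3) (.nd (nat_lit 4) (.nd (nat_lit 5) 
(.lf (nat_lit 204864) (.g (nat_lit 1473) (.e (nat_lit 73781) (nat_lit 32) (.e (nat_lit 3090) (nat_lit 191) (.e (nat_lit 491264) (nat_lit 23) (.e (nat_lit 335995) (nat_lit 1) (.e (nat_lit 57870) (nat_lit 264) (.e (nat_lit 1210) (nat_lit 89) .nil)))))) (.g (nat_lit 4) .nil .nil))) 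
(.lf (nat_lit 204896) (.g (nat_lit 1153) (.e (nat_lit 73782) (nat_lit 32) (.e (nat_lit 2664) (nat_lit 167) (.e (nat_lit 196666) (nat_lit 13) (.e (nat_lit 65581) (nat_lit 7) .nil)))) .nil))) (.nd (nat_lit 5) 
(.lf (nat_lit 204880) (.g (nat_lit 1955) (.e (nat_lit 73781) (nat_lit 32) (.e (nat_lit 3090) (nat_lit 191) (.e (nat_lit 483398) (nat_lit 25) (.e (nat_lit 368662) (nat_lit 18) (.e (nat_lit 5907) (nat_lit 320) (.e (nat_lit 1210) (nat_lit 89) .nil)))))) (.g (nat_lit 5) .nil .nil))) 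
(.lf (nat_lit 204912) (.g (nat_lit 3302) (.e (nat_lit 73782) (nat_lit 32) (.e (nat_lit 2681) (nat_lit 168) (.e (nat_lit 204869) (nat_lit 29) (.e (nat_lit 360451) (nat_lit 0) (.e (nat_lit 3928) (nat_lit 239) (.e (nat_lit 1206) (nat_lit 89) .nil)))))) (.g (nat_lit 4) .nil .nil))))) (.nd (nat_lit 4) (.nd (nat_lit 5) 
(.lf (nat_lit 204872) (.g (nat_lit 3397) (.e (nat_lit 73781) (nat_lit 32) (.e (nat_lit 3090) (nat_lit 191) (.e (nat_lit 483395) (nat_lit 24) (.e (nat_lit 344097) (nat_lit 18) (.e (nat_lit 5907) (nat_lit 320) (.e (nat_lit 1211) (nat_lit 89) .nil)))))) (.g (nat_lit 0) .nil .nil))) 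
(.lf (nat_lit 204904) (.g (nat_lit 2054) (.e (nat_lit 73782) (nat_lit 32) (.e (nat_lit 2664) (nat_lit 167) (.e (nat_lit 196670) (nat_lit 14) (.e (nat_lit 73791) (nat_lit 45) (.e (nat_lit 1141) (nat_lit 84) (.e (nat_lit 32788) (nat_lit 10) .nil)))))) (.g (nat_lit 0) .nil .nil)))) (.nd (nat_lit 5) 
(.lf (nat_lit 204888) (.g (nat_lit 1416) (.e (nat_lit 73782) (nat_lit 32) (.e (nat_lit 2663) (nat_lit 167) (.e (nat_lit 196666) (nat_lit 13) (.e (nat_lit 65586) (nat_lit 7) (.e (nat_lit 319500) (nat_lit 10) .nil))))) .nil)) 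
(.lf (nat_lit 204920) (.g (nat_lit 1516) (.e (nat_lit 73782) (nat_lit 32) (.e (nat_lit 2682) (nat_lit 168) (.e (nat_lit 204863) (nat_lit 27) (.e (nat_lit 344079) (nat_lit 13) .nil)))) .nil))))) (.nd (nat_lit 3) (.nd (nat_lit 4) (.nd (nat_lit 5) 
(.lf (nat_lit 204868) (.g (nat_lit 752) (.e (nat_lit 73781) (nat_lit 32) (.e (nat_lit 3090) (nat_lit 191) (.e (nat_lit 483394) (nat_lit 24) (.e (nat_lit 352000) (nat_lit 39) .nil)))) .nil)) 
(.lf (nat_lit 204900) (.g (nat_lit 2009) (.e (nat_lit 73782) (nat_lit 32) (.e (nat_lit 2664) (nat_lit 167) (.e (nat_lit 196666) (nat_lit 13) (.e (nat_lit 65617) (nat_lit 10) (.e (nat_lit 344096) (nat_lit 18) (.e (nat_lit 3928) (nat_lit 239) (.e (nat_lit 1206) (nat_lit 89) .nil))))))) (.g (nat_lit 5) .nil .nil)))) (.nd (nat_lit 5) 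
(.lf (nat_lit 204884) (.g (nat_lit 3101) (.e (nat_lit 73781) (nat_lit 32) (.e (nat_lit 3090) (nat_lit 191) (.e (nat_lit 483399) (nat_lit 25) (.e (nat_lit 368662) (nat_lit 18) (.e (nat_lit 5907) (nat_lit 320) (.e (nat_lit 1209) (nat_lit 89) .nil)))))) (.g (nat_lit 6) .nil .nil))) 
(.lf (nat_lit 204916) (.g (nat_lit 1438) (.e (nat_lit 73782) (nat_lit 32) (.e (nat_lit 2682) (nat_lit 168) (.e (nat_lit 204838) (nat_lit 20) (.e (nat_lit 114702) (nat_lit 20) .nil)))) .nil)))) (.nd (nat_lit 4) (.nd (nat_lit 5) 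
(.lf (nat_lit 204876) (.g (nat_lit 935) (.e (nat_lit 73781) (nat_lit 32) (.e (nat_lit 3090) (nat_lit 191) (.e (nat_lit 483396) (nat_lit 24) (.e (nat_lit 344104) (nat_lit 18) .nil)))) .nil)) 
(.lf (nat_lit 204908) (.g (nat_lit 2421) (.e (nat_lit 73782) (nat_lit 32) (.e (nat_lit 2681) (nat_lit 168) (.e (nat_lit 204863) (nat_lit 27) (.e (nat_lit 344081) (nat_lit 13) (.e (nat_lit 1141) (nat_lit 84) (.e (nat_lit 32788) (nat_lit 10) .nil)))))) (.g (nat_lit 6) .nil .nil)))) (.nd (nat_lit 5) 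
(.lf (nat_lit 204892) (.g (nat_lit 2148) (.e (nat_lit 73782) (nat_lit 32) (.e (nat_lit 2663) (nat_lit 167) (.e (nat_lit 196666) (nat_lit 13) (.e (nat_lit 65617) (nat_lit 10) (.e (nat_lit 344096) (nat_lit 18) (.e (nat_lit 3959) (nat_lit 239) (.e (nat_lit 1208) (nat_lit 89) .nil))))))) (.g (nat_lit 5) .nil .nil))) 
(.lf (nat_lit 204924) (.g (nat_lit 1508) (.e (nat_lit 73782) (nat_lit 32) (.e (nat_lit 2682) (nat_lit 168) (.e (nat_lit 204869) (nat_lit 29) (.e (nat_lit 360448) (nat_lit 0) .nil)))) .nil)))))) (.nd (nat_lit 2) (.nd (nat_lit 3) (.nd (nat_lit 4) (.nd (nat_lit 5) 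
(.lf (nat_lit 204866) (.g (nat_lit 2247) (.e (nat_lit 73781) (nat_lit 32) (.e (nat_lit 3090) (nat_lit 191) (.e (nat_lit 483394) (nat_lit 24) (.e (nat_lit 344090) (nat_lit 18) (.e (nat_lit 5896) (nat_lit 320) (.e (nat_lit 7936) (nat_lit 89) .nil)))))) (.g (nat_lit 4) .nil .nil))) 
(.lf (nat_lit 204898) (.g (nat_lit 1271) (.e (nat_lit 73782) (nat_lit 32) (.e (nat_lit 2664) (nat_lit 167) (.e (nat_lit 196666) (nat_lit 13) (.e (nat_lit 65588) (nat_lit 8) .nil)))) .nil))) (.nd (nat_lit 5) 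
(.lf (nat_lit 204882) (.g (nat_lit 1870) (.e (nat_lit 73781) (nat_lit 32) (.e (nat_lit 3090) (nat_lit 191) (.e (nat_lit 483399) (nat_lit 25) (.e (nat_lit 368662) (nat_lit 18) (.e (nat_lit 5905) (nat_lit 320) (.e (nat_lit 1210) (nat_lit 89) .nil)))))) (.g (nat_lit 4) .nil .nil))) 
(.lf (nat_lit 204914) (.g (nat_lit 1585) (.e (nat_lit 73782) (nat_lit 32) (.e (nat_lit 2681) (nat_lit 168) (.e (nat_lit 204869) (nat_lit 29) (.e (nat_lit 360455) (nat_lit 0) .nil)))) .nil)))) (.nd (nat_lit 4) (.nd (nat_lit 5) 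
(.lf (nat_lit 204874) (.g (nat_lit 1928) (.e (nat_lit 73781) (nat_lit 32) (.e (nat_lit 3090) (nat_lit 191) (.e (nat_lit 483396) (nat_lit 24) (.e (nat_lit 344097) (nat_lit 18) (.e (nat_lit 5905) (nat_lit 320) (.e (nat_lit 1210) (nat_lit 89) .nil)))))) (.g (nat_lit 4) .nil .nil))) 
(.lf (nat_lit 204906) (.g (nat_lit 1726) (.e (nat_lit 73782) (nat_lit 32) (.e (nat_lit 2681) (nat_lit 168) (.e (nat_lit 204863) (nat_lit 27) (.e (nat_lit 344080) (nat_lit 13) (.e (nat_lit 1140) (nat_lit 84) .nil))))) .nil))) (.nd (nat_lit 5) 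
(.lf (nat_lit 204890) (.g (nat_lit 2134) (.e (nat_lit 73782) (nat_lit 32) (.e (nat_lit 2663) (nat_lit 167) (.e (nat_lit 196666) (nat_lit 13) (.e (nat_lit 65617) (nat_lit 10) (.e (nat_lit 344096) (nat_lit 18) (.e (nat_lit 3928) (nat_lit 239) (.e (nat_lit 1206) (nat_lit 89) .nil))))))) (.g (nat_lit 5) .nil .nil))) 
(.lf (nat_lit 204922) (.g (nat_lit 1334) (.e (nat_lit 73782) (nat_lit 32) (.e (nat_lit 2682) (nat_lit 168) (.e (nat_lit 204866) (nat_lit 28) (.e (nat_lit 352303) (nat_lit 20) (.e (nat_lit 1842) (nat_lit 123) .nil))))) .nil))))) (.nd (nat_lit 3) (.nd (nat_lit 4) (.nd (nat_lit 5) 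
(.lf (nat_lit 204870) (.g (nat_lit 2947) (.e (nat_lit 73781) (nat_lit 32) (.e (nat_lit 3090) (nat_lit 191) (.e (nat_lit 483395) (nat_lit 24) (.e (nat_lit 344090) (nat_lit 18) (.e (nat_lit 5896) (nat_lit 320) (.e (nat_lit 7936) (nat_lit 89) .nil)))))) (.g (nat_lit 5) .nil .nil))) 
(.lf (nat_lit 204902) (.g (nat_lit 1748) (.e (nat_lit 73782) (nat_lit 32) (.e (nat_lit 2664) (nat_lit 167) (.e (nat_lit 196668) (nat_lit 14) (.e (nat_lit 73781) (nat_lit 32) (.e (nat_lit 2664) (nat_lit 167) .nil))))) .nil))) (.nd (nat_lit 5) 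
(.lf (nat_lit 204886) (.g (nat_lit 1050) (.e (nat_lit 73782) (nat_lit 32) (.e (nat_lit 2505) (nat_lit 157) (.e (nat_lit 3249) (nat_lit 197) (.e (nat_lit 532544) (nat_lit 10) (.e (nat_lit 344081) (nat_lit 13) .nil))))) .nil)) 
(.lf (nat_lit 204918) (.g (nat_lit 2301) (.e (nat_lit 73782) (nat_lit 32) (.e (nat_lit 2682) (nat_lit 168) (.e (nat_lit 204863) (nat_lit 27) (.e (nat_lit 344074) (nat_lit 13) (.e (nat_lit 1140) (nat_lit 84) (.e (nat_lit 32788) (nat_lit 10) .nil)))))) (.g (nat_lit 4) .nil .nil))))) (.nd (nat_lit 4) (.nd (nat_lit 5) 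
(.lf (nat_lit 204878) (.g (nat_lit 1973) (.e (nat_lit 73781) (nat_lit 32) (.e (nat_lit 3090) (nat_lit 191) (.e (nat_lit 483398) (nat_lit 25) (.e (nat_lit 368662) (nat_lit 18) (.e (nat_lit 5905) (nat_lit 320) (.e (nat_lit 1210) (nat_lit 89) .nil)))))) (.g (nat_lit 4) .nil .nil))) 
(.lf (nat_lit 204910) (.g (nat_lit 1182) (.e (nat_lit 73782) (nat_lit 32) (.e (nat_lit 2681) (nat_lit 168) (.e (nat_lit 204869) (nat_lit 29) (.e (nat_lit 360450) (nat_lit 0) .nil)))) .nil))) (.nd (nat_lit 5) 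
(.lf (nat_lit 204894) (.g (nat_lit 983) (.e (nat_lit 73782) (nat_lit 32) (.e (nat_lit 2664) (nat_lit 167) (.e (nat_lit 196630) (nat_lit 9) (.e (nat_lit 1573) (nat_lit 110) .nil)))) .nil)) 
(.lf (nat_lit 204926) (.g (nat_lit 2876) (.e (nat_lit 73782) (nat_lit 32) (.e (nat_lit 2682) (nat_lit 168) (.e (nat_lit 204869) (nat_lit 29) (.e (nat_lit 360448) (nat_lit 0) (.e (nat_lit 3915) (nat_lit 239) .nil))))) .nil))))))) (.nd (nat_lit 1) (.nd (nat_lit 2) (.nd (nat_lit 3) (.nd (nat_lit 4) (.nd (nat_lit 5) 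
(.lf (nat_lit 204865) (.g (nat_lit 1525) (.e (nat_lit 73781) (nat_lit 32) (.e (nat_lit 3090) (nat_lit 191) (.e (nat_lit 491264) (nat_lit 23) (.e (nat_lit 335995) (nat_lit 1) (.e (nat_lit 57870) (nat_lit 264) (.e (nat_lit 1211) (nat_lit 89) .nil)))))) (.g (nat_lit 4) .nil .nil))) 
(.lf (nat_lit 204897) (.g (nat_lit 1001) (.e (nat_lit 73782) (nat_lit 32) (.e (nat_lit 2664) (nat_lit 167) (.e (nat_lit 196666) (nat_lit 13) (.e (nat_lit 65585) (nat_lit 7) .nil)))) .nil))) (.nd (nat_lit 5) 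
(.lf (nat_lit 204881) (.g (nat_lit 2864) (.e (nat_lit 73781) (nat_lit 32) (.e (nat_lit 3090) (nat_lit 191) (.e (nat_lit 483398) (nat_lit 25) (.e (nat_lit 368662) (nat_lit 18) (.e (nat_lit 5907) (nat_lit 320) (.e (nat_lit 1211) (nat_lit 89) .nil)))))) (.g (nat_lit 0) .nil .nil))) 
(.lf (nat_lit 204913) (.g (nat_lit 3048) (.e (nat_lit 73782) (nat_lit 32) (.e (nat_lit 2681) (nat_lit 168) (.e (nat_lit 204869) (nat_lit 29) (.e (nat_lit 360451) (nat_lit 0) (.e (nat_lit 3950) (nat_lit 239) (.e (nat_lit 1208) (nat_lit 89) .nil)))))) (.g (nat_lit 4) .nil .nil))))) (.nd (nat_lit 4) (.nd (nat_lit 5) 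
(.lf (nat_lit 204873) (.g (nat_lit 947) (.e (nat_lit 73781) (nat_lit 32) (.e (nat_lit 3090) (nat_lit 191) (.e (nat_lit 483396) (nat_lit 24) (.e (nat_lit 344093) (nat_lit 18) .nil)))) .nil)) 
(.lf (nat_lit 204905) (.g (nat_lit 1180) (.e (nat_lit 73782) (nat_lit 32) (.e (nat_lit 2681) (nat_lit 168) (.e (nat_lit 204863) (nat_lit 27) (.e (nat_lit 352000) (nat_lit 3) .nil)))) .nil))) (.nd (nat_lit 5) 
(.lf (nat_lit 204889) (.g (nat_lit 1894) (.e (nat_lit 73782) (nat_lit 32) (.e (nat_lit 2663) (nat_lit 167) (.e (nat_lit 196666) (nat_lit 13) (.e (nat_lit 65617) (nat_lit 10) (.e (nat_lit 344091) (nat_lit 18) (.e (nat_lit 3959) (nat_lit 239) (.e (nat_lit 1208) (nat_lit 89) .nil))))))) (.g (nat_lit 4) .nil .nil))) 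
(.lf (nat_lit 204921) (.g (nat_lit 1829) (.e (nat_lit 73782) (nat_lit 32) (.e (nat_lit 2682) (nat_lit 168) (.e (nat_lit 204863) (nat_lit 27) (.e (nat_lit 344080) (nat_lit 13) (.e (nat_lit 1140) (nat_lit 84) (.e (nat_lit 32788) (nat_lit 10) .nil)))))) (.g (nat_lit 4) .nil .nil)))))) (.nd (nat_lit 3) (.nd (nat_lit 4) (.nd (nat_lit 5) 
(.lf (nat_lit 204869) (.g (nat_lit 1453) (.e (nat_lit 73781) (nat_lit 32) (.e (nat_lit 3090) (nat_lit 191) (.e (nat_lit 483395) (nat_lit 24) (.e (nat_lit 344088) (nat_lit 18) (.e (nat_lit 5896) (nat_lit 320) .nil))))) .nil)) 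
(.lf (nat_lit 204901) (.g (nat_lit 2023) (.e (nat_lit 73782) (nat_lit 32) (.e (nat_lit 2664) (nat_lit 167) (.e (nat_lit 196666) (nat_lit 13) (.e (nat_lit 65617) (nat_lit 10) (.e (nat_lit 344096) (nat_lit 18) (.e (nat_lit 3959) (nat_lit 239) (.e (nat_lit 1208) (nat_lit 89) .nil))))))) (.g (nat_lit 5) .nil .nil)))) (.nd (nat_lit 5) 
(.lf (nat_lit 204885) (.g (nat_lit 2925) (.e (nat_lit 73781) (nat_lit 32) (.e (nat_lit 3090) (nat_lit 191) (.e (nat_lit 483399) (nat_lit 25) (.e (nat_lit 368662) (nat_lit 18) (.e (nat_lit 5907) (nat_lit 320) (.e (nat_lit 1211) (nat_lit 89) .nil)))))) (.g (nat_lit 6) .nil .nil))) 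
(.lf (nat_lit 204917) (.g (nat_lit 921) (.e (nat_lit 73782) (nat_lit 32) (.e (nat_lit 2682) (nat_lit 168) (.e (nat_lit 204862) (nat_lit 27) (.e (nat_lit 344076) (nat_lit 13) .nil)))) .nil)))) (.nd (nat_lit 4) (.nd (nat_lit 5) 
(.lf (nat_lit 204877) (.g (nat_lit 579) (.e (nat_lit 73781) (nat_lit 32) (.e (nat_lit 3090) (nat_lit 191) (.e (nat_lit 483397) (nat_lit 25) .nil))) .nil)) 
(.lf (nat_lit 204909) (.g (nat_lit 1687) (.e (nat_lit 73782) (nat_lit 32) (.e (nat_lit 2681) (nat_lit 168) (.e (nat_lit 204869) (nat_lit 29) (.e (nat_lit 360448) (nat_lit 0) .nil)))) .nil))) (.nd (nat_lit 5) 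
(.lf (nat_lit 204893) (.g (nat_lit 1760) (.e (nat_lit 73782) (nat_lit 32) (.e (nat_lit 2663) (nat_lit 167) (.e (nat_lit 196670) (nat_lit 14) (.e (nat_lit 81664) (nat_lit 35) .nil)))) .nil)) 
(.lf (nat_lit 204925) (.g (nat_lit 3208) (.e (nat_lit 73782) (nat_lit 32) (.e (nat_lit 2682) (nat_lit 168) (.e (nat_lit 204869) (nat_lit 29) (.e (nat_lit 360448) (nat_lit 0) (.e (nat_lit 3913) (nat_lit 239) (.e (nat_lit 1212) (nat_lit 89) .nil)))))) (.g (nat_lit 4) .nil .nil))))))) (.nd (nat_lit 2) (.nd (nat_lit 3) (.nd (nat_lit 4) (.nd (nat_lit 5) 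
(.lf (nat_lit 204867) (.g (nat_lit 3547) (.e (nat_lit 73781) (nat_lit 32) (.e (nat_lit 3090) (nat_lit 191) (.e (nat_lit 483394) (nat_lit 24) (.e (nat_lit 344097) (nat_lit 18) (.e (nat_lit 5907) (nat_lit 320) (.e (nat_lit 1211) (nat_lit 89) .nil)))))) (.g (nat_lit 0) .nil .nil))) 
(.lf (nat_lit 204899) (.g (nat_lit 1835) (.e (nat_lit 73782) (nat_lit 32) (.e (nat_lit 2664) (nat_lit 167) (.e (nat_lit 196666) (nat_lit 13) (.e (nat_lit 65617) (nat_lit 10) (.e (nat_lit 344091) (nat_lit 18) (.e (nat_lit 3928) (nat_lit 239) (.e (nat_lit 1206) (nat_lit 89) .nil))))))) (.g (nat_lit 4) .nil .nil)))) (.nd (nat_lit 5) 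
(.lf (nat_lit 204883) (.g (nat_lit 1961) (.e (nat_lit 73781) (nat_lit 32) (.e (nat_lit 3090) (nat_lit 191) (.e (nat_lit 483399) (nat_lit 25) (.e (nat_lit 368662) (nat_lit 18) (.e (nat_lit 5905) (nat_lit 320) (.e (nat_lit 1211) (nat_lit 89) .nil)))))) (.g (nat_lit 4) .nil .nil))) 
(.lf (nat_lit 204915) (.g (nat_lit 1886) (.e (nat_lit 73782) (nat_lit 32) (.e (nat_lit 2681) (nat_lit 168) (.e (nat_lit 204869) (nat_lit 29) (.e (nat_lit 360456) (nat_lit 0) (.e (nat_lit 3962) (nat_lit 239) .nil))))) .nil)))) (.nd (nat_lit 4) (.nd (nat_lit 5) 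
(.lf (nat_lit 204875) (.g (nat_lit 2686) (.e (nat_lit 73781) (nat_lit 32) (.e (nat_lit 3090) (nat_lit 191) (.e (nat_lit 483396) (nat_lit 24) (.e (nat_lit 344097) (nat_lit 18) (.e (nat_lit 5907) (nat_lit 320) (.e (nat_lit 1211) (nat_lit 89) .nil)))))) (.g (nat_lit 5) .nil .nil))) 
(.lf (nat_lit 204907) (.g (nat_lit 1823) (.e (nat_lit 73782) (nat_lit 32) (.e (nat_lit 2681) (nat_lit 168) (.e (nat_lit 204863) (nat_lit 27) (.e (nat_lit 344080) (nat_lit 13) (.e (nat_lit 1141) (nat_lit 84) (.e (nat_lit 32788) (nat_lit 10) .nil)))))) (.g (nat_lit 4) .nil .nil)))) (.nd (nat_lit 5) 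
(.lf (nat_lit 204891) (.g (nat_lit 2032) (.e (nat_lit 73782) (nat_lit 32) (.e (nat_lit 2663) (nat_lit 167) (.e (nat_lit 196666) (nat_lit 13) (.e (nat_lit 65617) (nat_lit 10) (.e (nat_lit 344096) (nat_lit 18) (.e (nat_lit 3957) (nat_lit 239) (.e (nat_lit 1208) (nat_lit 89) .nil))))))) (.g (nat_lit 5) .nil .nil))) 
(.lf (nat_lit 204923) (.g (nat_lit 1996) (.e (nat_lit 73782) (nat_lit 32) (.e (nat_lit 2682) (nat_lit 168) (.e (nat_lit 204866) (nat_lit 28) (.e (nat_lit 352318) (nat_lit 24) (.e (nat_lit 123040) (nat_lit 140) .nil))))) .nil))))) (.nd (nat_lit 3) (.nd (nat_lit 4) (.nd (nat_lit 5) 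
(.lf (nat_lit 204871) (.g (nat_lit 2454) (.e (nat_lit 73781) (nat_lit 32) (.e (nat_lit 3090) (nat_lit 191) (.e (nat_lit 483395) (nat_lit 24) (.e (nat_lit 344097) (nat_lit 18) (.e (nat_lit 5907) (nat_lit 320) (.e (nat_lit 1210) (nat_lit 89) .nil)))))) (.g (nat_lit 5) .nil .nil))) 
(.lf (nat_lit 204903) (.g (nat_lit 1985) (.e (nat_lit 73782) (nat_lit 32) (.e (nat_lit 2664) (nat_lit 167) (.e (nat_lit 196670) (nat_lit 14) (.e (nat_lit 73791) (nat_lit 45) (.e (nat_lit 1140) (nat_lit 84) (.e (nat_lit 32788) (nat_lit 10) .nil)))))) (.g (nat_lit 0) .nil .nil)))) (.nd (nat_lit 5) 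
(.lf (nat_lit 204887) (.g (nat_lit 1084) (.e (nat_lit 73782) (nat_lit 32) (.e (nat_lit 2663) (nat_lit 167) (.e (nat_lit 196666) (nat_lit 13) (.e (nat_lit 65583) (nat_lit 7) .nil)))) .nil)) 
(.lf (nat_lit 204919) (.g (nat_lit 2256) (.e (nat_lit 73782) (nat_lit 32) (.e (nat_lit 2682) (nat_lit 168) (.e (nat_lit 204863) (nat_lit 27) (.e (nat_lit 344074) (nat_lit 13) (.e (nat_lit 1141) (nat_lit 84) (.e (nat_lit 32788) (nat_lit 10) .nil)))))) (.g (nat_lit 4) .nil .nil))))) (.nd (nat_lit 4) (.nd (nat_lit 5) 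
(.lf (nat_lit 204879) (.g (nat_lit 3038) (.e (nat_lit 73781) (nat_lit 32) (.e (nat_lit 3090) (nat_lit 191) (.e (nat_lit 483398) (nat_lit 25) (.e (nat_lit 368662) (nat_lit 18) (.e (nat_lit 5907) (nat_lit 320) (.e (nat_lit 1209) (nat_lit 89) .nil)))))) (.g (nat_lit 6) .nil .nil))) 
(.lf (nat_lit 204911) (.g (nat_lit 1397) (.e (nat_lit 73782) (nat_lit 32) (.e (nat_lit 2681) (nat_lit 168) (.e (nat_lit 204869) (nat_lit 29) (.e (nat_lit 360451) (nat_lit 0) .nil)))) .nil))) (.nd (nat_lit 5) 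
(.lf (nat_lit 204895) (.g (nat_lit 1076) (.e (nat_lit 73782) (nat_lit 32) (.e (nat_lit 2664) (nat_lit 167) (.e (nat_lit 196666) (nat_lit 13) (.e (nat_lit 65543) (nat_lit 0) (.e (nat_lit 6146) (nat_lit 332) .nil))))) .nil)) 
(.lf (nat_lit 204927) (.g (nat_lit 2878) (.e (nat_lit 73782) (nat_lit 32) (.e (nat_lit 2682) (nat_lit 168) (.e (nat_lit 204869) (nat_lit 29) (.e (nat_lit 360448) (nat_lit 0) (.e (nat_lit 3916) (nat_lit 239) .nil))))) .nil))))))))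

noncomputable def tv2704 : DT := (.nd (nat_lit 0) (.nd (nat_lit 1) (.nd (nat_lit 2) (.nd (nat_lit 3) (.nd (nat_lit 4) (.nd (nat_lit 5) 
(.lf (nat_lit 204928) (.g (nat_lit 2878) (.e (nat_lit 73782) (nat_lit 32) (.e (nat_lit 2682) (nat_lit 168) (.e (nat_lit 204869) (nat_lit 29) (.e (nat_lit 360448) (nat_lit 0) (.e (nat_lit 3917) (nat_lit 239) .nil))))) .nil)) 
(.lf (nat_lit 204960) (.g (nat_lit 2745) (.e (nat_lit 73782) (nat_lit 32) (.e (nat_lit 2854) (nat_lit 184) (.e (nat_lit 426542) (nat_lit 29) (.e (nat_lit 352318) (nat_lit 24) (.e (nat_lit 123182) (nat_lit 264) (.e (nat_lit 1212) (nat_lit 89) .nil)))))) (.g (nat_lit 0) .nil .nil)))) (.nd (nat_lit 5) 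
(.lf (nat_lit 204944) (.g (nat_lit 1681) (.e (nat_lit 73782) (nat_lit 32) (.e (nat_lit 2682) (nat_lit 168) (.e (nat_lit 204869) (nat_lit 29) (.e (nat_lit 360453) (nat_lit 0) .nil)))) .nil)) 
(.lf (nat_lit 204976) (.g (nat_lit 3101) (.e (nat_lit 73782) (nat_lit 32) (.e (nat_lit 2854) (nat_lit 184) (.e (nat_lit 426555) (nat_lit 32) (.e (nat_lit 376859) (nat_lit 21) (.e (nat_lit 57873) (nat_lit 264) (.e (nat_lit 1209) (nat_lit 89) .nil)))))) (.g (nat_lit 0) .nil .nil))))) (.nd (nat_lit 4) (.nd (nat_lit 5) 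
(.lf (nat_lit 204936) (.g (nat_lit 3187) (.e (nat_lit 73782) (nat_lit 32) (.e (nat_lit 2682) (nat_lit 168) (.e (nat_lit 204869) (nat_lit 29) (.e (nat_lit 360448) (nat_lit 0) (.e (nat_lit 3975) (nat_lit 239) (.e (nat_lit 1210) (nat_lit 89) .nil)))))) (.g (nat_lit 4) .nil .nil))) 
(.lf (nat_lit 204968) (.g (nat_lit 3083) (.e (nat_lit 73782) (nat_lit 32) (.e (nat_lit 2854) (nat_lit 184) (.e (nat_lit 426555) (nat_lit 32) (.e (nat_lit 376857) (nat_lit 21) (.e (nat_lit 57872) (nat_lit 264) (.e (nat_lit 1209) (nat_lit 89) .nil)))))) (.g (nat_lit 0) .nil .nil)))) (.nd (nat_lit 5) 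
(.lf (nat_lit 204952) (.g (nat_lit 1469) (.e (nat_lit 73782) (nat_lit 32) (.e (nat_lit 2854) (nat_lit 184) (.e (nat_lit 426542) (nat_lit 29) (.e (nat_lit 352264) (nat_lit 0) (.e (nat_lit 3711) (nat_lit 227) (.e (nat_lit 778322) (nat_lit 5) .nil)))))) (.g (nat_lit 0) .nil .nil))) 
(.lf (nat_lit 204984) (.g (nat_lit 807) (.e (nat_lit 73782) (nat_lit 32) (.e (nat_lit 2855) (nat_lit 184) (.e (nat_lit 426542) (nat_lit 29) (.e (nat_lit 352285) (nat_lit 20) .nil)))) .nil))))) (.nd (nat_lit 3) (.nd (nat_lit 4) (.nd (nat_lit 5) 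
(.lf (nat_lit 204932) (.g (nat_lit 2878) (.e (nat_lit 73782) (nat_lit 32) (.e (nat_lit 2682) (nat_lit 168) (.e (nat_lit 204869) (nat_lit 29) (.e (nat_lit 360448) (nat_lit 0) (.e (nat_lit 3923) (nat_lit 239) .nil))))) .nil)) 
(.lf (nat_lit 204964) (.g (nat_lit 1510) (.e (nat_lit 73782) (nat_lit 32) (.e (nat_lit 2854) (nat_lit 184) (.e (nat_lit 426555) (nat_lit 32) (.e (nat_lit 376837) (nat_lit 0) .nil)))) .nil))) (.nd (nat_lit 5) 
(.lf (nat_lit 204948) (.g (nat_lit 3787) (.e (nat_lit 73782) (nat_lit 32) (.e (nat_lit 2682) (nat_lit 168) (.e (nat_lit 204869) (nat_lit 29) (.e (nat_lit 360457) (nat_lit 0) (.e (nat_lit 3962) (nat_lit 239) (.e (nat_lit 1209) (nat_lit 89) .nil)))))) (.g (nat_lit 4) .nil .nil))) 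
(.lf (nat_lit 204980) (.g (nat_lit 925) (.e (nat_lit 73782) (nat_lit 32) (.e (nat_lit 2855) (nat_lit 184) (.e (nat_lit 426540) (nat_lit 29) (.e (nat_lit 352260) (nat_lit 0) .nil)))) .nil)))) (.nd (nat_lit 4) (.nd (nat_lit 5) 
(.lf (nat_lit 204940) (.g (nat_lit 3574) (.e (nat_lit 73782) (nat_lit 32) (.e (nat_lit 2682) (nat_lit 168) (.e (nat_lit 204869) (nat_lit 29) (.e (nat_lit 360450) (nat_lit 0) (.e (nat_lit 7936) (nat_lit 239) .nil))))) .nil)) 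
(.lf (nat_lit 204972) (.g (nat_lit 2819) (.e (nat_lit 73782) (nat_lit 32) (.e (nat_lit 2854) (nat_lit 184) (.e (nat_lit 426555) (nat_lit 32) (.e (nat_lit 376859) (nat_lit 21) (.e (nat_lit 57870) (nat_lit 264) (.e (nat_lit 1209) (nat_lit 89) .nil)))))) (.g (nat_lit 0) .nil .nil)))) (.nd (nat_lit 5) 
(.lf (nat_lit 204956) (.g (nat_lit 1938) (.e (nat_lit 73782) (nat_lit 32) (.e (nat_lit 2854) (nat_lit 184) (.e (nat_lit 426542) (nat_lit 29) (.e (nat_lit 352307) (nat_lit 21) (.e (nat_lit 57872) (nat_lit 264) (.e (nat_lit 1211) (nat_lit 89) .nil)))))) (.g (nat_lit 5) .nil .nil))) 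
(.lf (nat_lit 204988) (.g (nat_lit 2901) (.e (nat_lit 73782) (nat_lit 32) (.e (nat_lit 2855) (nat_lit 184) (.e (nat_lit 426542) (nat_lit 29) (.e (nat_lit 352309) (nat_lit 21) (.e (nat_lit 57873) (nat_lit 264) (.e (nat_lit 1211) (nat_lit 89) .nil)))))) (.g (nat_lit 0) .nil .nil))))))) (.nd (nat_lit 2) (.nd (nat_lit 3) (.nd (nat_lit 4) (.nd (nat_lit 5) 
(.lf (nat_lit 204930) (.g (nat_lit 2874) (.e (nat_lit 73782) (nat_lit 32) (.e (nat_lit 2682) (nat_lit 168) (.e (nat_lit 204869) (nat_lit 29) (.e (nat_lit 360448) (nat_lit 0) (.e (nat_lit 3920) (nat_lit 239) .nil))))) .nil)) 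
(.lf (nat_lit 204962) (.g (nat_lit 2563) (.e (nat_lit 73782) (nat_lit 32) (.e (nat_lit 2854) (nat_lit 184) (.e (nat_lit 426546) (nat_lit 30) (.e (nat_lit 360452) (nat_lit 0) (.e (nat_lit 5907) (nat_lit 320) (.e (nat_lit 1211) (nat_lit 89) .nil)))))) (.g (nat_lit 6) .nil .nil)))) (.nd (nat_lit 5) 
(.lf (nat_lit 204946) (.g (nat_lit 3241) (.e (nat_lit 73782) (nat_lit 32) (.e (nat_lit 2682) (nat_lit 168) (.e (nat_lit 204869) (nat_lit 29) (.e (nat_lit 360456) (nat_lit 0) (.e (nat_lit 3962) (nat_lit 239) .nil))))) .nil)) 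
(.lf (nat_lit 204978) (.g (nat_lit 2279) (.e (nat_lit 73782) (nat_lit 32) (.e (nat_lit 2854) (nat_lit 184) (.e (nat_lit 426555) (nat_lit 32) (.e (nat_lit 376860) (nat_lit 21) (.e (nat_lit 57870) (nat_lit 264) (.e (nat_lit 1210) (nat_lit 89) .nil)))))) (.g (nat_lit 5) .nil .nil))))) (.nd (nat_lit 4) (.nd (nat_lit 5) 
(.lf (nat_lit 204938) (.g (nat_lit 1170) (.e (nat_lit 73782) (nat_lit 32) (.e (nat_lit 2682) (nat_lit 168) (.e (nat_lit 204869) (nat_lit 29) (.e (nat_lit 360450) (nat_lit 0) .nil)))) .nil)) 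
(.lf (nat_lit 204970) (.g (nat_lit 3191) (.e (nat_lit 73782) (nat_lit 32) (.e (nat_lit 2854) (nat_lit 184) (.e (nat_lit 426555) (nat_lit 32) (.e (nat_lit 376857) (nat_lit 21) (.e (nat_lit 57873) (nat_lit 264) (.e (nat_lit 1209) (nat_lit 89) .nil)))))) (.g (nat_lit 0) .nil .nil)))) (.nd (nat_lit 5) 
(.lf (nat_lit 204954) (.g (nat_lit 800) (.e (nat_lit 73782) (nat_lit 32) (.e (nat_lit 2854) (nat_lit 184) (.e (nat_lit 426542) (nat_lit 29) (.e (nat_lit 352266) (nat_lit 0) .nil)))) .nil)) 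
(.lf (nat_lit 204986) (.g (nat_lit 3118) (.e (nat_lit 73782) (nat_lit 32) (.e (nat_lit 2855) (nat_lit 184) (.e (nat_lit 426542) (nat_lit 29) (.e (nat_lit 352307) (nat_lit 21) (.e (nat_lit 57873) (nat_lit 264) (.e (nat_lit 1211) (nat_lit 89) .nil)))))) (.g (nat_lit 0) .nil .nil)))))) (.nd (nat_lit 3) (.nd (nat_lit 4) (.nd (nat_lit 5) 
(.lf (nat_lit 204934) (.g (nat_lit 2983) (.e (nat_lit 73782) (nat_lit 32) (.e (nat_lit 2682) (nat_lit 168) (.e (nat_lit 204869) (nat_lit 29) (.e (nat_lit 360448) (nat_lit 0) (.e (nat_lit 3971) (nat_lit 239) (.e (nat_lit 1209) (nat_lit 89) .nil)))))) (.g (nat_lit 4) .nil .nil))) 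
(.lf (nat_lit 204966) (.g (nat_lit 2973) (.e (nat_lit 73782) (nat_lit 32) (.e (nat_lit 2854) (nat_lit 184) (.e (nat_lit 426555) (nat_lit 32) (.e (nat_lit 376857) (nat_lit 21) (.e (nat_lit 57870) (nat_lit 264) (.e (nat_lit 1209) (nat_lit 89) .nil)))))) (.g (nat_lit 6) .nil .nil)))) (.nd (nat_lit 5) 
(.lf (nat_lit 204950) (.g (nat_lit 2155) (.e (nat_lit 73782) (nat_lit 32) (.e (nat_lit 2842) (nat_lit 184) (.e (nat_lit 426555) (nat_lit 32) (.e (nat_lit 376860) (nat_lit 21) (.e (nat_lit 57870) (nat_lit 264) (.e (nat_lit 1209) (nat_lit 89) .nil)))))) (.g (nat_lit 4) .nil .nil))) 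
(.lf (nat_lit 204982) (.g (nat_lit 764) (.e (nat_lit 73782) (nat_lit 32) (.e (nat_lit 2855) (nat_lit 184) (.e (nat_lit 426540) (nat_lit 29) (.e (nat_lit 352270) (nat_lit 8) .nil)))) .nil)))) (.nd (nat_lit 4) (.nd (nat_lit 5) 
(.lf (nat_lit 204942) (.g (nat_lit 4307) (.e (nat_lit 73782) (nat_lit 32) (.e (nat_lit 2682) (nat_lit 168) (.e (nat_lit 204869) (nat_lit 29) (.e (nat_lit 360451) (nat_lit 0) (.e (nat_lit 3957) (nat_lit 239) (.e (nat_lit 1208) (nat_lit 89) .nil)))))) (.g (nat_lit 4) .nil .nil))) 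
(.lf (nat_lit 204974) (.g (nat_lit 1887) (.e (nat_lit 73782) (nat_lit 32) (.e (nat_lit 2854) (nat_lit 184) (.e (nat_lit 426555) (nat_lit 32) (.e (nat_lit 376859) (nat_lit 21) (.e (nat_lit 57870) (nat_lit 264) (.e (nat_lit 1211) (nat_lit 89) .nil)))))) (.g (nat_lit 4) .nil .nil)))) (.nd (nat_lit 5) 
(.lf (nat_lit 204958) (.g (nat_lit 1941) (.e (nat_lit 73782) (nat_lit 32) (.e (nat_lit 2854) (nat_lit 184) (.e (nat_lit 426542) (nat_lit 29) (.e (nat_lit 352309) (nat_lit 21) (.e (nat_lit 57872) (nat_lit 264) (.e (nat_lit 1211) (nat_lit 89) .nil)))))) (.g (nat_lit 5) .nil .nil))) 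
(.lf (nat_lit 204990) (.g (nat_lit 2840) (.e (nat_lit 73782) (nat_lit 32) (.e (nat_lit 2855) (nat_lit 184) (.e (nat_lit 426542) (nat_lit 29) (.e (nat_lit 352318) (nat_lit 24) (.e (nat_lit 123183) (nat_lit 264) (.e (nat_lit 1212) (nat_lit 89) .nil)))))) (.g (nat_lit 0) .nil .nil)))))))) (.nd (nat_lit 1) (.nd (nat_lit 2) (.nd (nat_lit 3) (.nd (nat_lit 4) (.nd (nat_lit 5) 
(.lf (nat_lit 204929) (.g (nat_lit 2878) (.e (nat_lit 73782) (nat_lit 32) (.e (nat_lit 2682) (nat_lit 168) (.e (nat_lit 204869) (nat_lit 29) (.e (nat_lit 360448) (nat_lit 0) (.e (nat_lit 3918) (nat_lit 239) .nil))))) .nil)) 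
(.lf (nat_lit 204961) (.g (nat_lit 2669) (.e (nat_lit 73782) (nat_lit 32) (.e (nat_lit 2854) (nat_lit 184) (.e (nat_lit 426542) (nat_lit 29) (.e (nat_lit 352318) (nat_lit 24) (.e (nat_lit 123183) (nat_lit 264) (.e (nat_lit 1212) (nat_lit 89) .nil)))))) (.g (nat_lit 0) .nil .nil)))) (.nd (nat_lit 5) 
(.lf (nat_lit 204945) (.g (nat_lit 3105) (.e (nat_lit 73782) (nat_lit 32) (.e (nat_lit 2682) (nat_lit 168) (.e (nat_lit 204869) (nat_lit 29) (.e (nat_lit 360455) (nat_lit 0) (.e (nat_lit 3962) (nat_lit 239) .nil))))) .nil)) 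
(.lf (nat_lit 204977) (.g (nat_lit 2845) (.e (nat_lit 73782) (nat_lit 32) (.e (nat_lit 2854) (nat_lit 184) (.e (nat_lit 426555) (nat_lit 32) (.e (nat_lit 376859) (nat_lit 21) (.e (nat_lit 57873) (nat_lit 264) (.e (nat_lit 1211) (nat_lit 89) .nil)))))) (.g (nat_lit 0) .nil .nil))))) (.nd (nat_lit 4) (.nd (nat_lit 5) 
(.lf (nat_lit 204937) (.g (nat_lit 3145) (.e (nat_lit 73782) (nat_lit 32) (.e (nat_lit 2682) (nat_lit 168) (.e (nat_lit 204869) (nat_lit 29) (.e (nat_lit 360448) (nat_lit 0) (.e (nat_lit 3975) (nat_lit 239) (.e (nat_lit 1211) (nat_lit 89) .nil)))))) (.g (nat_lit 4) .nil .nil))) 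
(.lf (nat_lit 204969) (.g (nat_lit 2007) (.e (nat_lit 73782) (nat_lit 32) (.e (nat_lit 2854) (nat_lit 184) (.e (nat_lit 426555) (nat_lit 32) (.e (nat_lit 376857) (nat_lit 21) (.e (nat_lit 57872) (nat_lit 264) (.e (nat_lit 1211) (nat_lit 89) .nil)))))) (.g (nat_lit 4) .nil .nil)))) (.nd (nat_lit 5) 
(.lf (nat_lit 204953) (.g (nat_lit 1085) (.e (nat_lit 73782) (nat_lit 32) (.e (nat_lit 2854) (nat_lit 184) (.e (nat_lit 426542) (nat_lit 29) (.e (nat_lit 352264) (nat_lit 0) (.e (nat_lit 3711) (nat_lit 227) (.e (nat_lit 786176) (nat_lit 5) .nil)))))) (.g (nat_lit 4) .nil .nil))) 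
(.lf (nat_lit 204985) (.g (nat_lit 2084) (.e (nat_lit 73782) (nat_lit 32) (.e (nat_lit 2855) (nat_lit 184) (.e (nat_lit 426542) (nat_lit 29) (.e (nat_lit 352307) (nat_lit 21) (.e (nat_lit 57872) (nat_lit 264) (.e (nat_lit 1211) (nat_lit 89) .nil)))))) (.g (nat_lit 5) .nil .nil)))))) (.nd (nat_lit 3) (.nd (nat_lit 4) (.nd (nat_lit 5) 
(.lf (nat_lit 204933) (.g (nat_lit 2878) (.e (nat_lit 73782) (nat_lit 32) (.e (nat_lit 2682) (nat_lit 168) (.e (nat_lit 204869) (nat_lit 29) (.e (nat_lit 360448) (nat_lit 0) (.e (nat_lit 3954) (nat_lit 239) .nil))))) .nil)) 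
(.lf (nat_lit 204965) (.g (nat_lit 1385) (.e (nat_lit 73782) (nat_lit 32) (.e (nat_lit 2854) (nat_lit 184) (.e (nat_lit 426555) (nat_lit 32) (.e (nat_lit 376843) (nat_lit 20) .nil)))) .nil))) (.nd (nat_lit 5) 
(.lf (nat_lit 204949) (.g (nat_lit 1381) (.e (nat_lit 73782) (nat_lit 32) (.e (nat_lit 2682) (nat_lit 168) (.e (nat_lit 204869) (nat_lit 29) (.e (nat_lit 368384) (nat_lit 0) .nil)))) .nil)) 
(.lf (nat_lit 204981) (.g (nat_lit 783) (.e (nat_lit 73782) (nat_lit 32) (.e (nat_lit 2855) (nat_lit 184) (.e (nat_lit 426540) (nat_lit 29) (.e (nat_lit 360192) (nat_lit 4) .nil)))) .nil)))) (.nd (nat_lit 4) (.nd (nat_lit 5) 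
(.lf (nat_lit 204941) (.g (nat_lit 3798) (.e (nat_lit 73782) (nat_lit 32) (.e (nat_lit 2682) (nat_lit 168) (.e (nat_lit 204869) (nat_lit 29) (.e (nat_lit 360451) (nat_lit 0) (.e (nat_lit 3928) (nat_lit 239) .nil))))) .nil)) 
(.lf (nat_lit 204973) (.g (nat_lit 2181) (.e (nat_lit 73782) (nat_lit 32) (.e (nat_lit 2854) (nat_lit 184) (.e (nat_lit 426555) (nat_lit 32) (.e (nat_lit 376859) (nat_lit 21) (.e (nat_lit 57870) (nat_lit 264) (.e (nat_lit 1210) (nat_lit 89) .nil)))))) (.g (nat_lit 5) .nil .nil)))) (.nd (nat_lit 5) 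
(.lf (nat_lit 204957) (.g (nat_lit 2975) (.e (nat_lit 73782) (nat_lit 32) (.e (nat_lit 2854) (nat_lit 184) (.e (nat_lit 426542) (nat_lit 29) (.e (nat_lit 352307) (nat_lit 21) (.e (nat_lit 57873) (nat_lit 264) (.e (nat_lit 1211) (nat_lit 89) .nil)))))) (.g (nat_lit 0) .nil .nil))) 
(.lf (nat_lit 204989) (.g (nat_lit 2903) (.e (nat_lit 73782) (nat_lit 32) (.e (nat_lit 2855) (nat_lit 184) (.e (nat_lit 426542) (nat_lit 29) (.e (nat_lit 352318) (nat_lit 24) (.e (nat_lit 123182) (nat_lit 264) (.e (nat_lit 1212) (nat_lit 89) .nil)))))) (.g (nat_lit 0) .nil .nil))))))) (.nd (nat_lit 2) (.nd (nat_lit 3) (.nd (nat_lit 4) (.nd (nat_lit 5) 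
(.lf (nat_lit 204931) (.g (nat_lit 3240) (.e (nat_lit 73782) (nat_lit 32) (.e (nat_lit 2682) (nat_lit 168) (.e (nat_lit 204869) (nat_lit 29) (.e (nat_lit 360448) (nat_lit 0) (.e (nat_lit 3920) (nat_lit 239) (.e (nat_lit 1212) (nat_lit 89) .nil)))))) (.g (nat_lit 4) .nil .nil))) 
(.lf (nat_lit 204963) (.g (nat_lit 1535) (.e (nat_lit 73782) (nat_lit 32) (.e (nat_lit 2854) (nat_lit 184) (.e (nat_lit 426546) (nat_lit 30) (.e (nat_lit 360456) (nat_lit 0) (.e (nat_lit 5818) (nat_lit 320) (.e (nat_lit 1212) (nat_lit 89) .nil)))))) (.g (nat_lit 6) .nil .nil)))) (.nd (nat_lit 5) 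
(.lf (nat_lit 204947) (.g (nat_lit 3155) (.e (nat_lit 73782) (nat_lit 32) (.e (nat_lit 2682) (nat_lit 168) (.e (nat_lit 204869) (nat_lit 29) (.e (nat_lit 360456) (nat_lit 0) (.e (nat_lit 7936) (nat_lit 239) .nil))))) .nil)) 
(.lf (nat_lit 204979) (.g (nat_lit 1950) (.e (nat_lit 73782) (nat_lit 32) (.e (nat_lit 2854) (nat_lit 184) (.e (nat_lit 426555) (nat_lit 32) (.e (nat_lit 376860) (nat_lit 21) (.e (nat_lit 57870) (nat_lit 264) (.e (nat_lit 1211) (nat_lit 89) .nil)))))) (.g (nat_lit 4) .nil .nil))))) (.nd (nat_lit 4) (.nd (nat_lit 5) 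
(.lf (nat_lit 204939) (.g (nat_lit 4378) (.e (nat_lit 73782) (nat_lit 32) (.e (nat_lit 2682) (nat_lit 168) (.e (nat_lit 204869) (nat_lit 29) (.e (nat_lit 360450) (nat_lit 0) (.e (nat_lit 3957) (nat_lit 239) (.e (nat_lit 1208) (nat_lit 89) .nil)))))) (.g (nat_lit 4) .nil .nil))) 
(.lf (nat_lit 204971) (.g (nat_lit 2932) (.e (nat_lit 73782) (nat_lit 32) (.e (nat_lit 2854) (nat_lit 184) (.e (nat_lit 426555) (nat_lit 32) (.e (nat_lit 376857) (nat_lit 21) (.e (nat_lit 57873) (nat_lit 264) (.e (nat_lit 1211) (nat_lit 89) .nil)))))) (.g (nat_lit 0) .nil .nil)))) (.nd (nat_lit 5) 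
(.lf (nat_lit 204955) (.g (nat_lit 2540) (.e (nat_lit 73782) (nat_lit 32) (.e (nat_lit 2854) (nat_lit 184) (.e (nat_lit 426542) (nat_lit 29) (.e (nat_lit 352267) (nat_lit 0) (.e (nat_lit 3631) (nat_lit 227) (.e (nat_lit 778323) (nat_lit 5) .nil)))))) (.g (nat_lit 0) .nil .nil))) 
(.lf (nat_lit 204987) (.g (nat_lit 2091) (.e (nat_lit 73782) (nat_lit 32) (.e (nat_lit 2855) (nat_lit 184) (.e (nat_lit 426542) (nat_lit 29) (.e (nat_lit 352309) (nat_lit 21) (.e (nat_lit 57872) (nat_lit 264) (.e (nat_lit 1211) (nat_lit 89) .nil)))))) (.g (nat_lit 5) .nil .nil)))))) (.nd (nat_lit 3) (.nd (nat_lit 4) (.nd (nat_lit 5) 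
(.lf (nat_lit 204935) (.g (nat_lit 2876) (.e (nat_lit 73782) (nat_lit 32) (.e (nat_lit 2682) (nat_lit 168) (.e (nat_lit 204869) (nat_lit 29) (.e (nat_lit 360448) (nat_lit 0) (.e (nat_lit 3972) (nat_lit 239) .nil))))) .nil)) 
(.lf (nat_lit 204967) (.g (nat_lit 2386) (.e (nat_lit 73782) (nat_lit 32) (.e (nat_lit 2854) (nat_lit 184) (.e (nat_lit 426555) (nat_lit 32) (.e (nat_lit 376857) (nat_lit 21) (.e (nat_lit 57870) (nat_lit 264) (.e (nat_lit 1210) (nat_lit 89) .nil)))))) (.g (nat_lit 5) .nil .nil)))) (.nd (nat_lit 5) 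
(.lf (nat_lit 204951) (.g (nat_lit 615) (.e (nat_lit 73782) (nat_lit 32) (.e (nat_lit 2854) (nat_lit 184) (.e (nat_lit 426540) (nat_lit 29) (.e (nat_lit 352270) (nat_lit 8) .nil)))) .nil)) 
(.lf (nat_lit 204983) (.g (nat_lit 896) (.e (nat_lit 73782) (nat_lit 32) (.e (nat_lit 2855) (nat_lit 184) (.e (nat_lit 426542) (nat_lit 29) (.e (nat_lit 352266) (nat_lit 0) .nil)))) .nil)))) (.nd (nat_lit 4) (.nd (nat_lit 5) 
(.lf (nat_lit 204943) (.g (nat_lit 4059) (.e (nat_lit 73782) (nat_lit 32) (.e (nat_lit 2682) (nat_lit 168) (.e (nat_lit 204869) (nat_lit 29) (.e (nat_lit 360451) (nat_lit 0) (.e (nat_lit 3959) (nat_lit 239) .nil))))) .nil)) 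
(.lf (nat_lit 204975) (.g (nat_lit 3072) (.e (nat_lit 73782) (nat_lit 32) (.e (nat_lit 2854) (nat_lit 184) (.e (nat_lit 426555) (nat_lit 32) (.e (nat_lit 376859) (nat_lit 21) (.e (nat_lit 57872) (nat_lit 264) (.e (nat_lit 1209) (nat_lit 89) .nil)))))) (.g (nat_lit 0) .nil .nil)))) (.nd (nat_lit 5) 
(.lf (nat_lit 204959) (.g (nat_lit 2753) (.e (nat_lit 73782) (nat_lit 32) (.e (nat_lit 2854) (nat_lit 184) (.e (nat_lit 426542) (nat_lit 29) (.e (nat_lit 352309) (nat_lit 21) (.e (nat_lit 57873) (nat_lit 264) (.e (nat_lit 1211) (nat_lit 89) .nil)))))) (.g (nat_lit 0) .nil .nil))) 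
(.lf (nat_lit 204991) (.g (nat_lit 1661) (.e (nat_lit 73782) (nat_lit 32) (.e (nat_lit 2855) (nat_lit 184) (.e (nat_lit 426544) (nat_lit 30) (.e (nat_lit 360457) (nat_lit 0) (.e (nat_lit 5818) (nat_lit 320) (.e (nat_lit 1212) (nat_lit 89) .nil)))))) (.g (nat_lit 5) .nil .nil)))))))))

noncomputable def tv2705 : DT := (.nd (nat_lit 0) (.nd (nat_lit 1) (.nd (nat_lit 2) (.nd (nat_lit 3) (.nd (nat_lit 4) (.nd (nat_lit 5) 
(.lf (nat_lit 204992) (.g (nat_lit 1949) (.e (nat_lit 73782) (nat_lit 32) (.e (nat_lit 2855) (nat_lit 184) (.e (nat_lit 426546) (nat_lit 30) (.e (nat_lit 360452) (nat_lit 0) (.e (nat_lit 5905) (nat_lit 320) (.e (nat_lit 1210) (nat_lit 89) .nil)))))) (.g (nat_lit 5) .nil .nil))) 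
(.lf (nat_lit 205024) (.g (nat_lit 1999) (.e (nat_lit 73782) (nat_lit 32) (.e (nat_lit 2856) (nat_lit 184) (.e (nat_lit 426540) (nat_lit 29) (.e (nat_lit 352270) (nat_lit 8) (.e (nat_lit 270080) (nat_lit 5) .nil))))) (.g (nat_lit 4) .nil .nil)))) (.nd (nat_lit 5) 
(.lf (nat_lit 205008) (.g (nat_lit 623) (.e (nat_lit 73782) (nat_lit 32) (.e (nat_lit 2856) (nat_lit 184) (.e (nat_lit 426495) (nat_lit 27) .nil))) .nil)) 
(.lf (nat_lit 205040) (.g (nat_lit 2014) (.e (nat_lit 73782) (nat_lit 32) (.e (nat_lit 2856) (nat_lit 184) (.e (nat_lit 426555) (nat_lit 32) (.e (nat_lit 376844) (nat_lit 20) .nil)))) .nil)))) (.nd (nat_lit 4) (.nd (nat_lit 5) 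
(.lf (nat_lit 205000) (.g (nat_lit 3063) (.e (nat_lit 73782) (nat_lit 32) (.e (nat_lit 2855) (nat_lit 184) (.e (nat_lit 426555) (nat_lit 32) (.e (nat_lit 376857) (nat_lit 21) (.e (nat_lit 57873) (nat_lit 264) (.e (nat_lit 1211) (nat_lit 89) .nil)))))) (.g (nat_lit 6) .nil .nil))) 
(.lf (nat_lit 205032) (.g (nat_lit 3723) (.e (nat_lit 73782) (nat_lit 32) (.e (nat_lit 2856) (nat_lit 184) (.e (nat_lit 426542) (nat_lit 29) (.e (nat_lit 352309) (nat_lit 21) (.e (nat_lit 57873) (nat_lit 264) (.e (nat_lit 1211) (nat_lit 89) .nil)))))) (.g (nat_lit 0) .nil .nil)))) (.nd (nat_lit 5) 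
(.lf (nat_lit 205016) (.g (nat_lit 2738) (.e (nat_lit 73782) (nat_lit 32) (.e (nat_lit 2856) (nat_lit 184) (.e (nat_lit 426530) (nat_lit 27) (.e (nat_lit 336116) (nat_lit 9) (.e (nat_lit 336331) (nat_lit 19) (.e (nat_lit 220928) (nat_lit 5) .nil)))))) (.g (nat_lit 5) .nil .nil))) 
(.lf (nat_lit 205048) (.g (nat_lit 1489) (.e (nat_lit 73782) (nat_lit 32) (.e (nat_lit 2857) (nat_lit 184) (.e (nat_lit 426540) (nat_lit 29) (.e (nat_lit 352270) (nat_lit 8) (.e (nat_lit 270080) (nat_lit 5) .nil))))) (.g (nat_lit 4) .nil .nil)))))) (.nd (nat_lit 3) (.nd (nat_lit 4) (.nd (nat_lit 5) 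
(.lf (nat_lit 204996) (.g (nat_lit 2544) (.e (nat_lit 73782) (nat_lit 32) (.e (nat_lit 2855) (nat_lit 184) (.e (nat_lit 426555) (nat_lit 32) (.e (nat_lit 376857) (nat_lit 21) (.e (nat_lit 57870) (nat_lit 264) (.e (nat_lit 1210) (nat_lit 89) .nil)))))) (.g (nat_lit 5) .nil .nil))) 
(.lf (nat_lit 205028) (.g (nat_lit 1390) (.e (nat_lit 73782) (nat_lit 32) (.e (nat_lit 2856) (nat_lit 184) (.e (nat_lit 426542) (nat_lit 29) (.e (nat_lit 352283) (nat_lit 20) (.e (nat_lit 1996) (nat_lit 137) .nil))))) .nil))) (.nd (nat_lit 5) 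
(.lf (nat_lit 205012) (.g (nat_lit 768) (.e (nat_lit 73782) (nat_lit 32) (.e (nat_lit 2856) (nat_lit 184) (.e (nat_lit 426509) (nat_lit 27) (.e (nat_lit 336177) (nat_lit 10) .nil)))) .nil)) 
(.lf (nat_lit 205044) (.g (nat_lit 1898) (.e (nat_lit 73782) (nat_lit 32) (.e (nat_lit 2857) (nat_lit 184) (.e (nat_lit 426482) (nat_lit 27) (.e (nat_lit 336205) (nat_lit 12) (.e (nat_lit 385092) (nat_lit 49) .nil))))) .nil)))) (.nd (nat_lit 4) (.nd (nat_lit 5) 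
(.lf (nat_lit 205004) (.g (nat_lit 3288) (.e (nat_lit 73782) (nat_lit 32) (.e (nat_lit 2855) (nat_lit 184) (.e (nat_lit 426555) (nat_lit 32) (.e (nat_lit 376859) (nat_lit 21) (.e (nat_lit 57873) (nat_lit 264) (.e (nat_lit 1209) (nat_lit 89) .nil)))))) (.g (nat_lit 0) .nil .nil))) 
(.lf (nat_lit 205036) (.g (nat_lit 1032) (.e (nat_lit 73782) (nat_lit 32) (.e (nat_lit 2856) (nat_lit 184) (.e (nat_lit 426546) (nat_lit 30) (.e (nat_lit 360449) (nat_lit 0) .nil)))) .nil))) (.nd (nat_lit 5) 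
(.lf (nat_lit 205020) (.g (nat_lit 1469) (.e (nat_lit 73782) (nat_lit 32) (.e (nat_lit 2856) (nat_lit 184) (.e (nat_lit 426530) (nat_lit 27) (.e (nat_lit 336157) (nat_lit 9) .nil)))) .nil)) 
(.lf (nat_lit 205052) (.g (nat_lit 3541) (.e (nat_lit 73782) (nat_lit 32) (.e (nat_lit 2857) (nat_lit 184) (.e (nat_lit 426542) (nat_lit 29) (.e (nat_lit 352307) (nat_lit 21) (.e (nat_lit 57872) (nat_lit 264) (.e (nat_lit 1209) (nat_lit 89) .nil)))))) (.g (nat_lit 0) .nil .nil))))))) (.nd (nat_lit 2) (.nd (nat_lit 3) (.nd (nat_lit 4) (.nd (nat_lit 5) 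
(.lf (nat_lit 204994) (.g (nat_lit 1507) (.e (nat_lit 73782) (nat_lit 32) (.e (nat_lit 2855) (nat_lit 184) (.e (nat_lit 426555) (nat_lit 32) (.e (nat_lit 376843) (nat_lit 20) .nil)))) .nil)) 
(.lf (nat_lit 205026) (.g (nat_lit 1710) (.e (nat_lit 73782) (nat_lit 32) (.e (nat_lit 2856) (nat_lit 184) (.e (nat_lit 426542) (nat_lit 29) (.e (nat_lit 352263) (nat_lit 0) .nil)))) .nil))) (.nd (nat_lit 5) 
(.lf (nat_lit 205010) (.g (nat_lit 2271) (.e (nat_lit 73782) (nat_lit 32) (.e (nat_lit 2856) (nat_lit 184) (.e (nat_lit 426509) (nat_lit 27) (.e (nat_lit 336102) (nat_lit 9) (.e (nat_lit 335907) (nat_lit 0) (.e (nat_lit 1994) (nat_lit 137) (.e (nat_lit 663568) (nat_lit 5) .nil))))))) (.g (nat_lit 5) .nil .nil))) 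
(.lf (nat_lit 205042) (.g (nat_lit 1305) (.e (nat_lit 73782) (nat_lit 32) (.e (nat_lit 2857) (nat_lit 184) (.e (nat_lit 426482) (nat_lit 27) (.e (nat_lit 336102) (nat_lit 9) .nil)))) .nil)))) (.nd (nat_lit 4) (.nd (nat_lit 5) 
(.lf (nat_lit 205002) (.g (nat_lit 2056) (.e (nat_lit 73782) (nat_lit 32) (.e (nat_lit 2855) (nat_lit 184) (.e (nat_lit 426555) (nat_lit 32) (.e (nat_lit 376859) (nat_lit 21) (.e (nat_lit 57870) (nat_lit 264) (.e (nat_lit 1211) (nat_lit 89) .nil)))))) (.g (nat_lit 4) .nil .nil))) 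
(.lf (nat_lit 205034) (.g (nat_lit 2215) (.e (nat_lit 73782) (nat_lit 32) (.e (nat_lit 2856) (nat_lit 184) (.e (nat_lit 426544) (nat_lit 30) (.e (nat_lit 360452) (nat_lit 0) (.e (nat_lit 5907) (nat_lit 320) (.e (nat_lit 1211) (nat_lit 89) .nil)))))) (.g (nat_lit 4) .nil .nil)))) (.nd (nat_lit 5) 
(.lf (nat_lit 205018) (.g (nat_lit 2513) (.e (nat_lit 73782) (nat_lit 32) (.e (nat_lit 2856) (nat_lit 184) (.e (nat_lit 426530) (nat_lit 27) (.e (nat_lit 336119) (nat_lit 9) (.e (nat_lit 336329) (nat_lit 19) (.e (nat_lit 220928) (nat_lit 5) .nil)))))) (.g (nat_lit 4) .nil .nil))) 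
(.lf (nat_lit 205050) (.g (nat_lit 1063) (.e (nat_lit 73782) (nat_lit 32) (.e (nat_lit 2857) (nat_lit 184) (.e (nat_lit 426542) (nat_lit 29) (.e (nat_lit 352266) (nat_lit 0) .nil)))) .nil))))) (.nd (nat_lit 3) (.nd (nat_lit 4) (.nd (nat_lit 5) 
(.lf (nat_lit 204998) (.g (nat_lit 2139) (.e (nat_lit 73782) (nat_lit 32) (.e (nat_lit 2855) (nat_lit 184) (.e (nat_lit 426555) (nat_lit 32) (.e (nat_lit 376857) (nat_lit 21) (.e (nat_lit 57872) (nat_lit 264) (.e (nat_lit 1211) (nat_lit 89) .nil)))))) (.g (nat_lit 4) .nil .nil))) 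
(.lf (nat_lit 205030) (.g (nat_lit 2909) (.e (nat_lit 73782) (nat_lit 32) (.e (nat_lit 2856) (nat_lit 184) (.e (nat_lit 426542) (nat_lit 29) (.e (nat_lit 352307) (nat_lit 21) (.e (nat_lit 57872) (nat_lit 264) (.e (nat_lit 1211) (nat_lit 89) .nil)))))) (.g (nat_lit 5) .nil .nil)))) (.nd (nat_lit 5) 
(.lf (nat_lit 205014) (.g (nat_lit 1469) (.e (nat_lit 73782) (nat_lit 32) (.e (nat_lit 2856) (nat_lit 184) (.e (nat_lit 426530) (nat_lit 27) (.e (nat_lit 336113) (nat_lit 9) .nil)))) .nil)) 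
(.lf (nat_lit 205046) (.g (nat_lit 238) (.e (nat_lit 73782) (nat_lit 32) (.e (nat_lit 2857) (nat_lit 184) (.e (nat_lit 426530) (nat_lit 27) .nil))) .nil)))) (.nd (nat_lit 4) (.nd (nat_lit 5) 
(.lf (nat_lit 205006) (.g (nat_lit 2018) (.e (nat_lit 73782) (nat_lit 32) (.e (nat_lit 2855) (nat_lit 184) (.e (nat_lit 426555) (nat_lit 32) (.e (nat_lit 376860) (nat_lit 21) (.e (nat_lit 57870) (nat_lit 264) (.e (nat_lit 1211) (nat_lit 89) .nil)))))) (.g (nat_lit 4) .nil .nil))) 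
(.lf (nat_lit 205038) (.g (nat_lit 2618) (.e (nat_lit 73782) (nat_lit 32) (.e (nat_lit 2856) (nat_lit 184) (.e (nat_lit 426546) (nat_lit 30) (.e (nat_lit 360452) (nat_lit 0) (.e (nat_lit 5907) (nat_lit 320) (.e (nat_lit 1210) (nat_lit 89) .nil)))))) (.g (nat_lit 5) .nil .nil)))) (.nd (nat_lit 5) 
(.lf (nat_lit 205022) (.g (nat_lit 582) (.e (nat_lit 73782) (nat_lit 32) (.e (nat_lit 2856) (nat_lit 184) (.e (nat_lit 426539) (nat_lit 29) .nil))) .nil)) 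
(.lf (nat_lit 205054) (.g (nat_lit 2593) (.e (nat_lit 73782) (nat_lit 32) (.e (nat_lit 2857) (nat_lit 184) (.e (nat_lit 426542) (nat_lit 29) (.e (nat_lit 352307) (nat_lit 21) (.e (nat_lit 57873) (nat_lit 264) (.e (nat_lit 1210) (nat_lit 89) .nil)))))) (.g (nat_lit 5) .nil .nil)))))))) (.nd (nat_lit 1) (.nd (nat_lit 2) (.nd (nat_lit 3) (.nd (nat_lit 4) (.nd (nat_lit 5) 
(.lf (nat_lit 204993) (.g (nat_lit 2636) (.e (nat_lit 73782) (nat_lit 32) (.e (nat_lit 2855) (nat_lit 184) (.e (nat_lit 426546) (nat_lit 30) (.e (nat_lit 360452) (nat_lit 0) (.e (nat_lit 5907) (nat_lit 320) (.e (nat_lit 1211) (nat_lit 89) .nil)))))) (.g (nat_lit 6) .nil .nil))) 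
(.lf (nat_lit 205025) (.g (nat_lit 1575) (.e (nat_lit 73782) (nat_lit 32) (.e (nat_lit 2856) (nat_lit 184) (.e (nat_lit 426540) (nat_lit 29) (.e (nat_lit 352286) (nat_lit 20) .nil)))) .nil))) (.nd (nat_lit 5) 
(.lf (nat_lit 205009) (.g (nat_lit 2066) (.e (nat_lit 73782) (nat_lit 32) (.e (nat_lit 2856) (nat_lit 184) (.e (nat_lit 426509) (nat_lit 27) (.e (nat_lit 336093) (nat_lit 9) (.e (nat_lit 335907) (nat_lit 0) (.e (nat_lit 1994) (nat_lit 137) (.e (nat_lit 663568) (nat_lit 5) .nil))))))) (.g (nat_lit 5) .nil .nil))) 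
(.lf (nat_lit 205041) (.g (nat_lit 2577) (.e (nat_lit 73782) (nat_lit 32) (.e (nat_lit 2856) (nat_lit 184) (.e (nat_lit 426555) (nat_lit 32) (.e (nat_lit 376860) (nat_lit 21) (.e (nat_lit 57870) (nat_lit 264) (.e (nat_lit 1211) (nat_lit 89) .nil)))))) (.g (nat_lit 4) .nil .nil))))) (.nd (nat_lit 4) (.nd (nat_lit 5) 
(.lf (nat_lit 205001) (.g (nat_lit 2370) (.e (nat_lit 73782) (nat_lit 32) (.e (nat_lit 2855) (nat_lit 184) (.e (nat_lit 426555) (nat_lit 32) (.e (nat_lit 376859) (nat_lit 21) (.e (nat_lit 57870) (nat_lit 264) (.e (nat_lit 1210) (nat_lit 89) .nil)))))) (.g (nat_lit 5) .nil .nil))) 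
(.lf (nat_lit 205033) (.g (nat_lit 1034) (.e (nat_lit 73782) (nat_lit 32) (.e (nat_lit 2856) (nat_lit 184) (.e (nat_lit 426544) (nat_lit 30) (.e (nat_lit 360449) (nat_lit 0) .nil)))) .nil))) (.nd (nat_lit 5) 
(.lf (nat_lit 205017) (.g (nat_lit 1417) (.e (nat_lit 73782) (nat_lit 32) (.e (nat_lit 2856) (nat_lit 184) (.e (nat_lit 426530) (nat_lit 27) (.e (nat_lit 336119) (nat_lit 9) .nil)))) .nil)) 
(.lf (nat_lit 205049) (.g (nat_lit 318) (.e (nat_lit 73782) (nat_lit 32) (.e (nat_lit 2857) (nat_lit 184) (.e (nat_lit 426542) (nat_lit 29) .nil))) .nil))))) (.nd (nat_lit 3) (.nd (nat_lit 4) (.nd (nat_lit 5) 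
(.lf (nat_lit 204997) (.g (nat_lit 2165) (.e (nat_lit 73782) (nat_lit 32) (.e (nat_lit 2855) (nat_lit 184) (.e (nat_lit 426555) (nat_lit 32) (.e (nat_lit 376857) (nat_lit 21) (.e (nat_lit 57870) (nat_lit 264) (.e (nat_lit 1211) (nat_lit 89) .nil)))))) (.g (nat_lit 4) .nil .nil))) 
(.lf (nat_lit 205029) (.g (nat_lit 1710) (.e (nat_lit 73782) (nat_lit 32) (.e (nat_lit 2856) (nat_lit 184) (.e (nat_lit 426542) (nat_lit 29) (.e (nat_lit 352294) (nat_lit 20) .nil)))) .nil))) (.nd (nat_lit 5) 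
(.lf (nat_lit 205013) (.g (nat_lit 780) (.e (nat_lit 73782) (nat_lit 32) (.e (nat_lit 2856) (nat_lit 184) (.e (nat_lit 426511) (nat_lit 27) .nil))) .nil)) 
(.lf (nat_lit 205045) (.g (nat_lit 589) (.e (nat_lit 73782) (nat_lit 32) (.e (nat_lit 2857) (nat_lit 184) (.e (nat_lit 426509) (nat_lit 27) (.e (nat_lit 336099) (nat_lit 9) .nil)))) .nil)))) (.nd (nat_lit 4) (.nd (nat_lit 5) 
(.lf (nat_lit 205005) (.g (nat_lit 3012) (.e (nat_lit 73782) (nat_lit 32) (.e (nat_lit 2855) (nat_lit 184) (.e (nat_lit 426555) (nat_lit 32) (.e (nat_lit 376859) (nat_lit 21) (.e (nat_lit 57873) (nat_lit 264) (.e (nat_lit 1211) (nat_lit 89) .nil)))))) (.g (nat_lit 6) .nil .nil))) 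
(.lf (nat_lit 205037) (.g (nat_lit 2906) (.e (nat_lit 73782) (nat_lit 32) (.e (nat_lit 2856) (nat_lit 184) (.e (nat_lit 426546) (nat_lit 30) (.e (nat_lit 360452) (nat_lit 0) (.e (nat_lit 5905) (nat_lit 320) (.e (nat_lit 1210) (nat_lit 89) .nil)))))) (.g (nat_lit 5) .nil .nil)))) (.nd (nat_lit 5) 
(.lf (nat_lit 205021) (.g (nat_lit 844) (.e (nat_lit 73782) (nat_lit 32) (.e (nat_lit 2856) (nat_lit 184) (.e (nat_lit 426538) (nat_lit 29) (.e (nat_lit 352270) (nat_lit 8) .nil)))) .nil)) 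
(.lf (nat_lit 205053) (.g (nat_lit 2476) (.e (nat_lit 73782) (nat_lit 32) (.e (nat_lit 2857) (nat_lit 184) (.e (nat_lit 426542) (nat_lit 29) (.e (nat_lit 352307) (nat_lit 21) (.e (nat_lit 57872) (nat_lit 264) (.e (nat_lit 1211) (nat_lit 89) .nil)))))) (.g (nat_lit 5) .nil .nil))))))) (.nd (nat_lit 2) (.nd (nat_lit 3) (.nd (nat_lit 4) (.nd (nat_lit 5) 
(.lf (nat_lit 204995) (.g (nat_lit 3132) (.e (nat_lit 73782) (nat_lit 32) (.e (nat_lit 2855) (nat_lit 184) (.e (nat_lit 426555) (nat_lit 32) (.e (nat_lit 376857) (nat_lit 21) (.e (nat_lit 57870) (nat_lit 264) (.e (nat_lit 1209) (nat_lit 89) .nil)))))) (.g (nat_lit 6) .nil .nil))) 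
(.lf (nat_lit 205027) (.g (nat_lit 1398) (.e (nat_lit 73782) (nat_lit 32) (.e (nat_lit 2856) (nat_lit 184) (.e (nat_lit 426542) (nat_lit 29) (.e (nat_lit 352281) (nat_lit 20) .nil)))) .nil))) (.nd (nat_lit 5) 
(.lf (nat_lit 205011) (.g (nat_lit 2120) (.e (nat_lit 73782) (nat_lit 32) (.e (nat_lit 2856) (nat_lit 184) (.e (nat_lit 426509) (nat_lit 27) (.e (nat_lit 336102) (nat_lit 9) (.e (nat_lit 335907) (nat_lit 0) (.e (nat_lit 1996) (nat_lit 137) (.e (nat_lit 663568) (nat_lit 5) .nil))))))) (.g (nat_lit 5) .nil .nil))) 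
(.lf (nat_lit 205043) (.g (nat_lit 1303) (.e (nat_lit 73782) (nat_lit 32) (.e (nat_lit 2857) (nat_lit 184) (.e (nat_lit 426482) (nat_lit 27) (.e (nat_lit 336193) (nat_lit 12) .nil)))) .nil)))) (.nd (nat_lit 4) (.nd (nat_lit 5) 
(.lf (nat_lit 205003) (.g (nat_lit 3309) (.e (nat_lit 73782) (nat_lit 32) (.e (nat_lit 2855) (nat_lit 184) (.e (nat_lit 426555) (nat_lit 32) (.e (nat_lit 376859) (nat_lit 21) (.e (nat_lit 57872) (nat_lit 264) (.e (nat_lit 1209) (nat_lit 89) .nil)))))) (.g (nat_lit 0) .nil .nil))) 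
(.lf (nat_lit 205035) (.g (nat_lit 2426) (.e (nat_lit 73782) (nat_lit 32) (.e (nat_lit 2856) (nat_lit 184) (.e (nat_lit 426544) (nat_lit 30) (.e (nat_lit 360453) (nat_lit 0) (.e (nat_lit 5907) (nat_lit 320) (.e (nat_lit 1210) (nat_lit 89) .nil)))))) (.g (nat_lit 5) .nil .nil)))) (.nd (nat_lit 5) 
(.lf (nat_lit 205019) (.g (nat_lit 2864) (.e (nat_lit 73782) (nat_lit 32) (.e (nat_lit 2856) (nat_lit 184) (.e (nat_lit 426530) (nat_lit 27) (.e (nat_lit 336119) (nat_lit 9) (.e (nat_lit 336331) (nat_lit 19) (.e (nat_lit 220928) (nat_lit 5) .nil)))))) (.g (nat_lit 5) .nil .nil))) 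
(.lf (nat_lit 205051) (.g (nat_lit 946) (.e (nat_lit 73782) (nat_lit 32) (.e (nat_lit 2857) (nat_lit 184) (.e (nat_lit 426542) (nat_lit 29) (.e (nat_lit 352290) (nat_lit 20) (.e (nat_lit 1023) (nat_lit 81) .nil))))) .nil))))) (.nd (nat_lit 3) (.nd (nat_lit 4) (.nd (nat_lit 5) 
(.lf (nat_lit 204999) (.g (nat_lit 3342) (.e (nat_lit 73782) (nat_lit 32) (.e (nat_lit 2855) (nat_lit 184) (.e (nat_lit 426555) (nat_lit 32) (.e (nat_lit 376857) (nat_lit 21) (.e (nat_lit 57873) (nat_lit 264) (.e (nat_lit 1209) (nat_lit 89) .nil)))))) (.g (nat_lit 0) .nil .nil))) 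
(.lf (nat_lit 205031) (.g (nat_lit 2900) (.e (nat_lit 73782) (nat_lit 32) (.e (nat_lit 2856) (nat_lit 184) (.e (nat_lit 426542) (nat_lit 29) (.e (nat_lit 352309) (nat_lit 21) (.e (nat_lit 57872) (nat_lit 264) (.e (nat_lit 1211) (nat_lit 89) .nil)))))) (.g (nat_lit 5) .nil .nil)))) (.nd (nat_lit 5) 
(.lf (nat_lit 205015) (.g (nat_lit 1707) (.e (nat_lit 73782) (nat_lit 32) (.e (nat_lit 2856) (nat_lit 184) (.e (nat_lit 426530) (nat_lit 27) (.e (nat_lit 336116) (nat_lit 9) (.e (nat_lit 336329) (nat_lit 19) .nil))))) .nil)) 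
(.lf (nat_lit 205047) (.g (nat_lit 467) (.e (nat_lit 73782) (nat_lit 32) (.e (nat_lit 2857) (nat_lit 184) (.e (nat_lit 426538) (nat_lit 29) .nil))) .nil)))) (.nd (nat_lit 4) (.nd (nat_lit 5) 
(.lf (nat_lit 205007) (.g (nat_lit 820) (.e (nat_lit 73782) (nat_lit 32) (.e (nat_lit 2856) (nat_lit 184) (.e (nat_lit 426480) (nat_lit 27) .nil))) .nil)) 
(.lf (nat_lit 205039) (.g (nat_lit 2008) (.e (nat_lit 73782) (nat_lit 32) (.e (nat_lit 2856) (nat_lit 184) (.e (nat_lit 426555) (nat_lit 32) (.e (nat_lit 376834) (nat_lit 0) .nil)))) .nil))) (.nd (nat_lit 5) 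
(.lf (nat_lit 205023) (.g (nat_lit 367) (.e (nat_lit 73782) (nat_lit 32) (.e (nat_lit 2856) (nat_lit 184) (.e (nat_lit 426540) (nat_lit 29) .nil))) .nil)) 
(.lf (nat_lit 205055) (.g (nat_lit 3491) (.e (nat_lit 73782) (nat_lit 32) (.e (nat_lit 2857) (nat_lit 184) (.e (nat_lit 426542) (nat_lit 29) (.e (nat_lit 352307) (nat_lit 21) (.e (nat_lit 57873) (nat_lit 264) (.e (nat_lit 1211) (nat_lit 89) .nil)))))) (.g (nat_lit 0) .nil .nil)))))))))

noncomputable def tv2706 : DT := (.nd (nat_lit 0) (.nd (nat_lit 1) (.nd (nat_lit 2) (.nd (nat_lit 3) (.nd (nat_lit 4) (.nd (nat_lit 5) 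
(.lf (nat_lit 205056) (.g (nat_lit 2494) (.e (nat_lit 73782) (nat_lit 32) (.e (nat_lit 2857) (nat_lit 184) (.e (nat_lit 426542) (nat_lit 29) (.e (nat_lit 352309) (nat_lit 21) (.e (nat_lit 57872) (nat_lit 264) (.e (nat_lit 1211) (nat_lit 89) .nil)))))) (.g (nat_lit 5) .nil .nil))) 
(.lf (nat_lit 205088) (.g (nat_lit 1867) (.e (nat_lit 73782) (nat_lit 32) (.e (nat_lit 3087) (nat_lit 191) (.e (nat_lit 483393) (nat_lit 23) (.e (nat_lit 335995) (nat_lit 1) (.e (nat_lit 57870) (nat_lit 264) (.e (nat_lit 1209) (nat_lit 89) .nil)))))) (.g (nat_lit 4) .nil .nil)))) (.nd (nat_lit 5) 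
(.lf (nat_lit 205072) (.g (nat_lit 369) (.e (nat_lit 73782) (nat_lit 32) (.e (nat_lit 3067) (nat_lit 190) (.e (nat_lit 483072) (nat_lit 8) .nil))) .nil)) 
(.lf (nat_lit 205104) (.g (nat_lit 2163) (.e (nat_lit 73782) (nat_lit 32) (.e (nat_lit 3088) (nat_lit 191) (.e (nat_lit 483378) (nat_lit 23) (.e (nat_lit 335997) (nat_lit 1) (.e (nat_lit 57870) (nat_lit 264) (.e (nat_lit 1210) (nat_lit 89) .nil)))))) (.g (nat_lit 5) .nil .nil))))) (.nd (nat_lit 4) (.nd (nat_lit 5) 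
(.lf (nat_lit 205064) (.g (nat_lit 3087) (.e (nat_lit 73782) (nat_lit 32) (.e (nat_lit 2857) (nat_lit 184) (.e (nat_lit 426546) (nat_lit 30) (.e (nat_lit 360452) (nat_lit 0) (.e (nat_lit 5907) (nat_lit 320) (.e (nat_lit 1211) (nat_lit 89) .nil)))))) (.g (nat_lit 0) .nil .nil))) 
(.lf (nat_lit 205096) (.g (nat_lit 2054) (.e (nat_lit 73782) (nat_lit 32) (.e (nat_lit 3087) (nat_lit 191) (.e (nat_lit 483395) (nat_lit 24) (.e (nat_lit 344097) (nat_lit 18) (.e (nat_lit 5907) (nat_lit 320) (.e (nat_lit 1210) (nat_lit 89) .nil)))))) (.g (nat_lit 5) .nil .nil)))) (.nd (nat_lit 5) 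
(.lf (nat_lit 205080) (.g (nat_lit 1096) (.e (nat_lit 73782) (nat_lit 32) (.e (nat_lit 3087) (nat_lit 191) (.e (nat_lit 483382) (nat_lit 23) (.e (nat_lit 336332) (nat_lit 19) (.e (nat_lit 220928) (nat_lit 5) .nil))))) .nil)) 
(.lf (nat_lit 205112) (.g (nat_lit 2476) (.e (nat_lit 73782) (nat_lit 32) (.e (nat_lit 3088) (nat_lit 191) (.e (nat_lit 483383) (nat_lit 23) (.e (nat_lit 336240) (nat_lit 15) (.e (nat_lit 3626) (nat_lit 227) .nil))))) .nil))))) (.nd (nat_lit 3) (.nd (nat_lit 4) (.nd (nat_lit 5) 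
(.lf (nat_lit 205060) (.g (nat_lit 3082) (.e (nat_lit 73782) (nat_lit 32) (.e (nat_lit 2857) (nat_lit 184) (.e (nat_lit 426544) (nat_lit 30) (.e (nat_lit 360453) (nat_lit 0) (.e (nat_lit 5907) (nat_lit 320) (.e (nat_lit 1211) (nat_lit 89) .nil)))))) (.g (nat_lit 0) .nil .nil))) 
(.lf (nat_lit 205092) (.g (nat_lit 2145) (.e (nat_lit 73782) (nat_lit 32) (.e (nat_lit 3087) (nat_lit 191) (.e (nat_lit 483395) (nat_lit 24) (.e (nat_lit 344090) (nat_lit 18) (.e (nat_lit 5896) (nat_lit 320) (.e (nat_lit 7936) (nat_lit 89) .nil)))))) (.g (nat_lit 5) .nil .nil)))) (.nd (nat_lit 5) 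
(.lf (nat_lit 205076) (.g (nat_lit 1519) (.e (nat_lit 73782) (nat_lit 32) (.e (nat_lit 3087) (nat_lit 191) (.e (nat_lit 483378) (nat_lit 23) (.e (nat_lit 335907) (nat_lit 0) (.e (nat_lit 1994) (nat_lit 137) (.e (nat_lit 663568) (nat_lit 5) .nil)))))) (.g (nat_lit 4) .nil .nil))) 
(.lf (nat_lit 205108) (.g (nat_lit 1795) (.e (nat_lit 73782) (nat_lit 32) (.e (nat_lit 3088) (nat_lit 191) (.e (nat_lit 483380) (nat_lit 23) (.e (nat_lit 336332) (nat_lit 19) (.e (nat_lit 220928) (nat_lit 5) .nil))))) .nil)))) (.nd (nat_lit 4) (.nd (nat_lit 5) 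
(.lf (nat_lit 205068) (.g (nat_lit 2910) (.e (nat_lit 73782) (nat_lit 32) (.e (nat_lit 2857) (nat_lit 184) (.e (nat_lit 426555) (nat_lit 32) (.e (nat_lit 376859) (nat_lit 21) (.e (nat_lit 57873) (nat_lit 264) (.e (nat_lit 1211) (nat_lit 89) .nil)))))) (.g (nat_lit 5) .nil .nil))) 
(.lf (nat_lit 205100) (.g (nat_lit 1433) (.e (nat_lit 73782) (nat_lit 32) (.e (nat_lit 3087) (nat_lit 191) (.e (nat_lit 483403) (nat_lit 26) (.e (nat_lit 385096) (nat_lit 49) (.e (nat_lit 786176) (nat_lit 5) .nil))))) .nil))) (.nd (nat_lit 5) 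
(.lf (nat_lit 205084) (.g (nat_lit 1540) (.e (nat_lit 73782) (nat_lit 32) (.e (nat_lit 3087) (nat_lit 191) (.e (nat_lit 483393) (nat_lit 23) (.e (nat_lit 335986) (nat_lit 1) (.e (nat_lit 57871) (nat_lit 264) (.e (nat_lit 1210) (nat_lit 89) .nil)))))) (.g (nat_lit 4) .nil .nil))) 
(.lf (nat_lit 205116) (.g (nat_lit 1166) (.e (nat_lit 73782) (nat_lit 32) (.e (nat_lit 3088) (nat_lit 191) (.e (nat_lit 483386) (nat_lit 23) (.e (nat_lit 336295) (nat_lit 15) .nil)))) .nil)))))) (.nd (nat_lit 2) (.nd (nat_lit 3) (.nd (nat_lit 4) (.nd (nat_lit 5) 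
(.lf (nat_lit 205058) (.g (nat_lit 3282) (.e (nat_lit 73782) (nat_lit 32) (.e (nat_lit 2857) (nat_lit 184) (.e (nat_lit 426542) (nat_lit 29) (.e (nat_lit 352309) (nat_lit 21) (.e (nat_lit 57873) (nat_lit 264) (.e (nat_lit 1211) (nat_lit 89) .nil)))))) (.g (nat_lit 0) .nil .nil))) 
(.lf (nat_lit 205090) (.g (nat_lit 785) (.e (nat_lit 73782) (nat_lit 32) (.e (nat_lit 3087) (nat_lit 191) (.e (nat_lit 483393) (nat_lit 23) (.e (nat_lit 336293) (nat_lit 15) .nil)))) .nil))) (.nd (nat_lit 5) 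
(.lf (nat_lit 205074) (.g (nat_lit 1826) (.e (nat_lit 73782) (nat_lit 32) (.e (nat_lit 3067) (nat_lit 190) (.e (nat_lit 475214) (nat_lit 42) (.e (nat_lit 720954) (nat_lit 25) .nil)))) .nil)) 
(.lf (nat_lit 205106) (.g (nat_lit 2836) (.e (nat_lit 73782) (nat_lit 32) (.e (nat_lit 3088) (nat_lit 191) (.e (nat_lit 483378) (nat_lit 23) (.e (nat_lit 335997) (nat_lit 1) (.e (nat_lit 57871) (nat_lit 264) (.e (nat_lit 1209) (nat_lit 89) .nil)))))) (.g (nat_lit 0) .nil .nil))))) (.nd (nat_lit 4) (.nd (nat_lit 5) 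
(.lf (nat_lit 205066) (.g (nat_lit 3057) (.e (nat_lit 73782) (nat_lit 32) (.e (nat_lit 2857) (nat_lit 184) (.e (nat_lit 426555) (nat_lit 32) (.e (nat_lit 376857) (nat_lit 21) (.e (nat_lit 57873) (nat_lit 264) (.e (nat_lit 1211) (nat_lit 89) .nil)))))) (.g (nat_lit 5) .nil .nil))) 
(.lf (nat_lit 205098) (.g (nat_lit 675) (.e (nat_lit 73782) (nat_lit 32) (.e (nat_lit 3087) (nat_lit 191) (.e (nat_lit 483395) (nat_lit 24) (.e (nat_lit 352000) (nat_lit 39) .nil)))) .nil))) (.nd (nat_lit 5) 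
(.lf (nat_lit 205082) (.g (nat_lit 2256) (.e (nat_lit 73782) (nat_lit 32) (.e (nat_lit 3087) (nat_lit 191) (.e (nat_lit 483383) (nat_lit 23) (.e (nat_lit 336240) (nat_lit 15) (.e (nat_lit 3623) (nat_lit 227) .nil))))) .nil)) 
(.lf (nat_lit 205114) (.g (nat_lit 2234) (.e (nat_lit 73782) (nat_lit 32) (.e (nat_lit 3088) (nat_lit 191) (.e (nat_lit 483383) (nat_lit 23) (.e (nat_lit 336330) (nat_lit 19) (.e (nat_lit 220928) (nat_lit 5) .nil))))) .nil))))) (.nd (nat_lit 3) (.nd (nat_lit 4) (.nd (nat_lit 5) 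
(.lf (nat_lit 205062) (.g (nat_lit 2520) (.e (nat_lit 73782) (nat_lit 32) (.e (nat_lit 2857) (nat_lit 184) (.e (nat_lit 426546) (nat_lit 30) (.e (nat_lit 360452) (nat_lit 0) (.e (nat_lit 5905) (nat_lit 320) (.e (nat_lit 1210) (nat_lit 89) .nil)))))) (.g (nat_lit 5) .nil .nil))) 
(.lf (nat_lit 205094) (.g (nat_lit 2193) (.e (nat_lit 73782) (nat_lit 32) (.e (nat_lit 3087) (nat_lit 191) (.e (nat_lit 483395) (nat_lit 24) (.e (nat_lit 344097) (nat_lit 18) (.e (nat_lit 5905) (nat_lit 320) (.e (nat_lit 1211) (nat_lit 89) .nil)))))) (.g (nat_lit 5) .nil .nil)))) (.nd (nat_lit 5) 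
(.lf (nat_lit 205078) (.g (nat_lit 2056) (.e (nat_lit 73782) (nat_lit 32) (.e (nat_lit 3087) (nat_lit 191) (.e (nat_lit 483378) (nat_lit 23) (.e (nat_lit 335997) (nat_lit 1) (.e (nat_lit 57871) (nat_lit 264) (.e (nat_lit 1210) (nat_lit 89) .nil)))))) (.g (nat_lit 6) .nil .nil))) 
(.lf (nat_lit 205110) (.g (nat_lit 1302) (.e (nat_lit 73782) (nat_lit 32) (.e (nat_lit 3088) (nat_lit 191) (.e (nat_lit 483382) (nat_lit 23) (.e (nat_lit 336330) (nat_lit 19) (.e (nat_lit 220928) (nat_lit 5) .nil))))) .nil)))) (.nd (nat_lit 4) (.nd (nat_lit 5) 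
(.lf (nat_lit 205070) (.g (nat_lit 1719) (.e (nat_lit 73782) (nat_lit 32) (.e (nat_lit 2857) (nat_lit 184) (.e (nat_lit 426555) (nat_lit 32) (.e (nat_lit 376870) (nat_lit 24) .nil)))) .nil)) 
(.lf (nat_lit 205102) (.g (nat_lit 495) (.e (nat_lit 73782) (nat_lit 32) (.e (nat_lit 3088) (nat_lit 191) (.e (nat_lit 483377) (nat_lit 22) .nil))) .nil))) (.nd (nat_lit 5) 
(.lf (nat_lit 205086) (.g (nat_lit 2000) (.e (nat_lit 73782) (nat_lit 32) (.e (nat_lit 3087) (nat_lit 191) (.e (nat_lit 483393) (nat_lit 23) (.e (nat_lit 335986) (nat_lit 1) (.e (nat_lit 57873) (nat_lit 264) (.e (nat_lit 1211) (nat_lit 89) .nil)))))) (.g (nat_lit 5) .nil .nil))) 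
(.lf (nat_lit 205118) (.g (nat_lit 1734) (.e (nat_lit 73782) (nat_lit 32) (.e (nat_lit 3088) (nat_lit 191) (.e (nat_lit 483390) (nat_lit 23) (.e (nat_lit 335907) (nat_lit 0) (.e (nat_lit 1996) (nat_lit 137) (.e (nat_lit 663568) (nat_lit 5) .nil)))))) (.g (nat_lit 4) .nil .nil)))))))) (.nd (nat_lit 1) (.nd (nat_lit 2) (.nd (nat_lit 3) (.nd (nat_lit 4) (.nd (nat_lit 5) 
(.lf (nat_lit 205057) (.g (nat_lit 2437) (.e (nat_lit 73782) (nat_lit 32) (.e (nat_lit 2857) (nat_lit 184) (.e (nat_lit 426542) (nat_lit 29) (.e (nat_lit 352309) (nat_lit 21) (.e (nat_lit 57873) (nat_lit 264) (.e (nat_lit 1210) (nat_lit 89) .nil)))))) (.g (nat_lit 5) .nil .nil))) 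
(.lf (nat_lit 205089) (.g (nat_lit 1927) (.e (nat_lit 73782) (nat_lit 32) (.e (nat_lit 3087) (nat_lit 191) (.e (nat_lit 483393) (nat_lit 23) (.e (nat_lit 335996) (nat_lit 1) (.e (nat_lit 57870) (nat_lit 264) (.e (nat_lit 1210) (nat_lit 89) .nil)))))) (.g (nat_lit 4) .nil .nil)))) (.nd (nat_lit 5) 
(.lf (nat_lit 205073) (.g (nat_lit 1321) (.e (nat_lit 73782) (nat_lit 32) (.e (nat_lit 3067) (nat_lit 190) (.e (nat_lit 475212) (nat_lit 42) (.e (nat_lit 720956) (nat_lit 25) .nil)))) .nil)) 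
(.lf (nat_lit 205105) (.g (nat_lit 1784) (.e (nat_lit 73782) (nat_lit 32) (.e (nat_lit 3088) (nat_lit 191) (.e (nat_lit 483378) (nat_lit 23) (.e (nat_lit 335997) (nat_lit 1) (.e (nat_lit 57870) (nat_lit 264) (.e (nat_lit 1211) (nat_lit 89) .nil)))))) (.g (nat_lit 4) .nil .nil))))) (.nd (nat_lit 4) (.nd (nat_lit 5) 
(.lf (nat_lit 205065) (.g (nat_lit 2555) (.e (nat_lit 73782) (nat_lit 32) (.e (nat_lit 2857) (nat_lit 184) (.e (nat_lit 426555) (nat_lit 32) (.e (nat_lit 376857) (nat_lit 21) (.e (nat_lit 57870) (nat_lit 264) (.e (nat_lit 1210) (nat_lit 89) .nil)))))) (.g (nat_lit 4) .nil .nil))) 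
(.lf (nat_lit 205097) (.g (nat_lit 2845) (.e (nat_lit 73782) (nat_lit 32) (.e (nat_lit 3087) (nat_lit 191) (.e (nat_lit 483395) (nat_lit 24) (.e (nat_lit 344097) (nat_lit 18) (.e (nat_lit 5907) (nat_lit 320) (.e (nat_lit 1211) (nat_lit 89) .nil)))))) (.g (nat_lit 0) .nil .nil)))) (.nd (nat_lit 5) 
(.lf (nat_lit 205081) (.g (nat_lit 1691) (.e (nat_lit 73782) (nat_lit 32) (.e (nat_lit 3087) (nat_lit 191) (.e (nat_lit 483383) (nat_lit 23) (.e (nat_lit 336000) (nat_lit 1) (.e (nat_lit 57872) (nat_lit 264) .nil))))) .nil)) 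
(.lf (nat_lit 205113) (.g (nat_lit 1690) (.e (nat_lit 73782) (nat_lit 32) (.e (nat_lit 3088) (nat_lit 191) (.e (nat_lit 483383) (nat_lit 23) (.e (nat_lit 336263) (nat_lit 15) .nil)))) .nil))))) (.nd (nat_lit 3) (.nd (nat_lit 4) (.nd (nat_lit 5) 
(.lf (nat_lit 205061) (.g (nat_lit 717) (.e (nat_lit 73782) (nat_lit 32) (.e (nat_lit 2857) (nat_lit 184) (.e (nat_lit 426544) (nat_lit 30) (.e (nat_lit 360455) (nat_lit 0) .nil)))) .nil)) 
(.lf (nat_lit 205093) (.g (nat_lit 2613) (.e (nat_lit 73782) (nat_lit 32) (.e (nat_lit 3087) (nat_lit 191) (.e (nat_lit 483395) (nat_lit 24) (.e (nat_lit 344097) (nat_lit 18) (.e (nat_lit 5905) (nat_lit 320) (.e (nat_lit 1210) (nat_lit 89) .nil)))))) (.g (nat_lit 0) .nil .nil)))) (.nd (nat_lit 5) 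
(.lf (nat_lit 205077) (.g (nat_lit 1430) (.e (nat_lit 73782) (nat_lit 32) (.e (nat_lit 3087) (nat_lit 191) (.e (nat_lit 483378) (nat_lit 23) (.e (nat_lit 335997) (nat_lit 1) (.e (nat_lit 57870) (nat_lit 264) (.e (nat_lit 1211) (nat_lit 89) .nil)))))) (.g (nat_lit 4) .nil .nil))) 
(.lf (nat_lit 205109) (.g (nat_lit 865) (.e (nat_lit 73782) (nat_lit 32) (.e (nat_lit 3088) (nat_lit 191) (.e (nat_lit 483382) (nat_lit 23) (.e (nat_lit 336306) (nat_lit 15) .nil)))) .nil)))) (.nd (nat_lit 4) (.nd (nat_lit 5) 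
(.lf (nat_lit 205069) (.g (nat_lit 2001) (.e (nat_lit 73782) (nat_lit 32) (.e (nat_lit 2857) (nat_lit 184) (.e (nat_lit 426555) (nat_lit 32) (.e (nat_lit 376860) (nat_lit 21) (.e (nat_lit 57870) (nat_lit 264) .nil))))) .nil)) 
(.lf (nat_lit 205101) (.g (nat_lit 1288) (.e (nat_lit 73782) (nat_lit 32) (.e (nat_lit 3087) (nat_lit 191) (.e (nat_lit 483406) (nat_lit 26) (.e (nat_lit 385091) (nat_lit 49) .nil)))) .nil))) (.nd (nat_lit 5) 
(.lf (nat_lit 205085) (.g (nat_lit 1553) (.e (nat_lit 73782) (nat_lit 32) (.e (nat_lit 3087) (nat_lit 191) (.e (nat_lit 483393) (nat_lit 23) (.e (nat_lit 335986) (nat_lit 1) (.e (nat_lit 57872) (nat_lit 264) (.e (nat_lit 1209) (nat_lit 89) .nil)))))) (.g (nat_lit 4) .nil .nil))) 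
(.lf (nat_lit 205117) (.g (nat_lit 1884) (.e (nat_lit 73782) (nat_lit 32) (.e (nat_lit 3088) (nat_lit 191) (.e (nat_lit 483390) (nat_lit 23) (.e (nat_lit 335907) (nat_lit 0) (.e (nat_lit 1994) (nat_lit 137) (.e (nat_lit 663568) (nat_lit 5) .nil)))))) (.g (nat_lit 4) .nil .nil))))))) (.nd (nat_lit 2) (.nd (nat_lit 3) (.nd (nat_lit 4) (.nd (nat_lit 5) 
(.lf (nat_lit 205059) (.g (nat_lit 1078) (.e (nat_lit 73782) (nat_lit 32) (.e (nat_lit 2857) (nat_lit 184) (.e (nat_lit 426542) (nat_lit 29) (.e (nat_lit 352317) (nat_lit 24) .nil)))) .nil)) 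
(.lf (nat_lit 205091) (.g (nat_lit 2325) (.e (nat_lit 73782) (nat_lit 32) (.e (nat_lit 3087) (nat_lit 191) (.e (nat_lit 483394) (nat_lit 24) (.e (nat_lit 344097) (nat_lit 18) (.e (nat_lit 5905) (nat_lit 320) (.e (nat_lit 1211) (nat_lit 89) .nil)))))) (.g (nat_lit 5) .nil .nil)))) (.nd (nat_lit 5) 
(.lf (nat_lit 205075) (.g (nat_lit 1625) (.e (nat_lit 73782) (nat_lit 32) (.e (nat_lit 3067) (nat_lit 190) (.e (nat_lit 475214) (nat_lit 42) (.e (nat_lit 720956) (nat_lit 25) .nil)))) .nil)) 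
(.lf (nat_lit 205107) (.g (nat_lit 2998) (.e (nat_lit 73782) (nat_lit 32) (.e (nat_lit 3088) (nat_lit 191) (.e (nat_lit 483378) (nat_lit 23) (.e (nat_lit 335997) (nat_lit 1) (.e (nat_lit 57872) (nat_lit 264) (.e (nat_lit 1209) (nat_lit 89) .nil)))))) (.g (nat_lit 0) .nil .nil))))) (.nd (nat_lit 4) (.nd (nat_lit 5) 
(.lf (nat_lit 205067) (.g (nat_lit 2385) (.e (nat_lit 73782) (nat_lit 32) (.e (nat_lit 2857) (nat_lit 184) (.e (nat_lit 426555) (nat_lit 32) (.e (nat_lit 376859) (nat_lit 21) (.e (nat_lit 57870) (nat_lit 264) (.e (nat_lit 1210) (nat_lit 89) .nil)))))) (.g (nat_lit 4) .nil .nil))) 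
(.lf (nat_lit 205099) (.g (nat_lit 1342) (.e (nat_lit 73782) (nat_lit 32) (.e (nat_lit 3087) (nat_lit 191) (.e (nat_lit 483403) (nat_lit 26) (.e (nat_lit 385092) (nat_lit 49) .nil)))) .nil))) (.nd (nat_lit 5) 
(.lf (nat_lit 205083) (.g (nat_lit 1039) (.e (nat_lit 73782) (nat_lit 32) (.e (nat_lit 3087) (nat_lit 191) (.e (nat_lit 483387) (nat_lit 23) (.e (nat_lit 335907) (nat_lit 0) (.e (nat_lit 1996) (nat_lit 137) .nil))))) .nil)) 
(.lf (nat_lit 205115) (.g (nat_lit 2228) (.e (nat_lit 73782) (nat_lit 32) (.e (nat_lit 3088) (nat_lit 191) (.e (nat_lit 483383) (nat_lit 23) (.e (nat_lit 336357) (nat_lit 24) (.e (nat_lit 270080) (nat_lit 5) .nil))))) .nil))))) (.nd (nat_lit 3) (.nd (nat_lit 4) (.nd (nat_lit 5) 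
(.lf (nat_lit 205063) (.g (nat_lit 2227) (.e (nat_lit 73782) (nat_lit 32) (.e (nat_lit 2857) (nat_lit 184) (.e (nat_lit 426546) (nat_lit 30) (.e (nat_lit 360452) (nat_lit 0) (.e (nat_lit 5907) (nat_lit 320) (.e (nat_lit 1210) (nat_lit 89) .nil)))))) (.g (nat_lit 5) .nil .nil))) 
(.lf (nat_lit 205095) (.g (nat_lit 2063) (.e (nat_lit 73782) (nat_lit 32) (.e (nat_lit 3087) (nat_lit 191) (.e (nat_lit 483395) (nat_lit 24) (.e (nat_lit 344097) (nat_lit 18) (.e (nat_lit 5906) (nat_lit 320) (.e (nat_lit 1211) (nat_lit 89) .nil)))))) (.g (nat_lit 5) .nil .nil)))) (.nd (nat_lit 5) 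
(.lf (nat_lit 205079) (.g (nat_lit 1063) (.e (nat_lit 73782) (nat_lit 32) (.e (nat_lit 3087) (nat_lit 191) (.e (nat_lit 483379) (nat_lit 23) (.e (nat_lit 336332) (nat_lit 19) (.e (nat_lit 220928) (nat_lit 5) .nil))))) .nil)) 
(.lf (nat_lit 205111) (.g (nat_lit 2295) (.e (nat_lit 73782) (nat_lit 32) (.e (nat_lit 3088) (nat_lit 191) (.e (nat_lit 483383) (nat_lit 23) (.e (nat_lit 336000) (nat_lit 1) (.e (nat_lit 57873) (nat_lit 264) (.e (nat_lit 1211) (nat_lit 89) .nil)))))) (.g (nat_lit 4) .nil .nil))))) (.nd (nat_lit 4) (.nd (nat_lit 5) 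
(.lf (nat_lit 205071) (.g (nat_lit 486) (.e (nat_lit 73782) (nat_lit 32) (.e (nat_lit 3067) (nat_lit 190) (.e (nat_lit 475143) (nat_lit 8) .nil))) .nil)) 
(.lf (nat_lit 205103) (.g (nat_lit 2810) (.e (nat_lit 73782) (nat_lit 32) (.e (nat_lit 3088) (nat_lit 191) (.e (nat_lit 483378) (nat_lit 23) (.e (nat_lit 335997) (nat_lit 1) (.e (nat_lit 57870) (nat_lit 264) (.e (nat_lit 1209) (nat_lit 89) .nil)))))) (.g (nat_lit 0) .nil .nil)))) (.nd (nat_lit 5) 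
(.lf (nat_lit 205087) (.g (nat_lit 1654) (.e (nat_lit 73782) (nat_lit 32) (.e (nat_lit 3087) (nat_lit 191) (.e (nat_lit 483393) (nat_lit 23) (.e (nat_lit 335988) (nat_lit 1) (.e (nat_lit 57870) (nat_lit 264) (.e (nat_lit 1210) (nat_lit 89) .nil)))))) (.g (nat_lit 4) .nil .nil))) 
(.lf (nat_lit 205119) (.g (nat_lit 442) (.e (nat_lit 73782) (nat_lit 32) (.e (nat_lit 3088) (nat_lit 191) (.e (nat_lit 483391) (nat_lit 23) .nil))) .nil))))))))

noncomputable def tv2707 : DT := (.nd (nat_lit 0) (.nd (nat_lit 1) (.nd (nat_lit 2) (.nd (nat_lit 3) (.nd (nat_lit 4) (.nd (nat_lit 5) 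
(.lf (nat_lit 205120) (.g (nat_lit 1722) (.e (nat_lit 73782) (nat_lit 32) (.e (nat_lit 3088) (nat_lit 191) (.e (nat_lit 483391) (nat_lit 23) (.e (nat_lit 335998) (nat_lit 1) (.e (nat_lit 57873) (nat_lit 264) (.e (nat_lit 1210) (nat_lit 89) .nil)))))) (.g (nat_lit 4) .nil .nil))) 
(.lf (nat_lit 205152) (.g (nat_lit 2056) (.e (nat_lit 73782) (nat_lit 32) (.e (nat_lit 3088) (nat_lit 191) (.e (nat_lit 483406) (nat_lit 26) (.e (nat_lit 385091) (nat_lit 49) (.e (nat_lit 778323) (nat_lit 5) .nil))))) .nil))) (.nd (nat_lit 5) 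
(.lf (nat_lit 205136) (.g (nat_lit 3465) (.e (nat_lit 73782) (nat_lit 32) (.e (nat_lit 3088) (nat_lit 191) (.e (nat_lit 483394) (nat_lit 24) (.e (nat_lit 344097) (nat_lit 18) (.e (nat_lit 5907) (nat_lit 320) (.e (nat_lit 1211) (nat_lit 89) .nil)))))) (.g (nat_lit 6) .nil .nil))) 
(.lf (nat_lit 205168) (.g (nat_lit 1360) (.e (nat_lit 73782) (nat_lit 32) (.e (nat_lit 3089) (nat_lit 191) (.e (nat_lit 483383) (nat_lit 23) (.e (nat_lit 336263) (nat_lit 15) .nil)))) .nil)))) (.nd (nat_lit 4) (.nd (nat_lit 5) 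
(.lf (nat_lit 205128) (.g (nat_lit 3257) (.e (nat_lit 73782) (nat_lit 32) (.e (nat_lit 3088) (nat_lit 191) (.e (nat_lit 483393) (nat_lit 23) (.e (nat_lit 335988) (nat_lit 1) (.e (nat_lit 57870) (nat_lit 264) (.e (nat_lit 1209) (nat_lit 89) .nil)))))) (.g (nat_lit 6) .nil .nil))) 
(.lf (nat_lit 205160) (.g (nat_lit 1715) (.e (nat_lit 73782) (nat_lit 32) (.e (nat_lit 3089) (nat_lit 191) (.e (nat_lit 483378) (nat_lit 23) (.e (nat_lit 335907) (nat_lit 0) (.e (nat_lit 1994) (nat_lit 137) (.e (nat_lit 663568) (nat_lit 5) .nil)))))) (.g (nat_lit 4) .nil .nil)))) (.nd (nat_lit 5) 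
(.lf (nat_lit 205144) (.g (nat_lit 2638) (.e (nat_lit 73782) (nat_lit 32) (.e (nat_lit 3088) (nat_lit 191) (.e (nat_lit 483395) (nat_lit 24) (.e (nat_lit 344097) (nat_lit 18) (.e (nat_lit 5906) (nat_lit 320) (.e (nat_lit 1211) (nat_lit 89) .nil)))))) (.g (nat_lit 5) .nil .nil))) 
(.lf (nat_lit 205176) (.g (nat_lit 1528) (.e (nat_lit 73782) (nat_lit 32) (.e (nat_lit 3089) (nat_lit 191) (.e (nat_lit 483389) (nat_lit 23) (.e (nat_lit 335997) (nat_lit 1) (.e (nat_lit 57870) (nat_lit 264) (.e (nat_lit 1210) (nat_lit 89) .nil)))))) (.g (nat_lit 4) .nil .nil)))))) (.nd (nat_lit 3) (.nd (nat_lit 4) (.nd (nat_lit 5) 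
(.lf (nat_lit 205124) (.g (nat_lit 3036) (.e (nat_lit 73782) (nat_lit 32) (.e (nat_lit 3088) (nat_lit 191) (.e (nat_lit 483393) (nat_lit 23) (.e (nat_lit 335986) (nat_lit 1) (.e (nat_lit 57871) (nat_lit 264) (.e (nat_lit 1209) (nat_lit 89) .nil)))))) (.g (nat_lit 6) .nil .nil))) 
(.lf (nat_lit 205156) (.g (nat_lit 1826) (.e (nat_lit 73782) (nat_lit 32) (.e (nat_lit 3088) (nat_lit 191) (.e (nat_lit 483413) (nat_lit 27) (.e (nat_lit 401414) (nat_lit 0) (.e (nat_lit 3348) (nat_lit 206) .nil))))) .nil))) (.nd (nat_lit 5) 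
(.lf (nat_lit 205140) (.g (nat_lit 3541) (.e (nat_lit 73782) (nat_lit 32) (.e (nat_lit 3088) (nat_lit 191) (.e (nat_lit 483395) (nat_lit 24) (.e (nat_lit 344097) (nat_lit 18) (.e (nat_lit 5905) (nat_lit 320) (.e (nat_lit 1209) (nat_lit 89) .nil)))))) (.g (nat_lit 0) .nil .nil))) 
(.lf (nat_lit 205172) (.g (nat_lit 1710) (.e (nat_lit 73782) (nat_lit 32) (.e (nat_lit 3089) (nat_lit 191) (.e (nat_lit 483387) (nat_lit 23) (.e (nat_lit 335907) (nat_lit 0) (.e (nat_lit 1996) (nat_lit 137) (.e (nat_lit 663568) (nat_lit 5) .nil)))))) (.g (nat_lit 4) .nil .nil))))) (.nd (nat_lit 4) (.nd (nat_lit 5) 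
(.lf (nat_lit 205132) (.g (nat_lit 3677) (.e (nat_lit 73782) (nat_lit 32) (.e (nat_lit 3088) (nat_lit 191) (.e (nat_lit 483393) (nat_lit 23) (.e (nat_lit 335995) (nat_lit 1) (.e (nat_lit 57872) (nat_lit 264) (.e (nat_lit 1209) (nat_lit 89) .nil)))))) (.g (nat_lit 0) .nil .nil))) 
(.lf (nat_lit 205164) (.g (nat_lit 1432) (.e (nat_lit 73782) (nat_lit 32) (.e (nat_lit 3089) (nat_lit 191) (.e (nat_lit 483383) (nat_lit 23) (.e (nat_lit 335878) (nat_lit 0) (.e (nat_lit 996) (nat_lit 81) (.e (nat_lit 5896) (nat_lit 320) (.e (nat_lit 7936) (nat_lit 89) .nil))))))) (.g (nat_lit 4) .nil .nil)))) (.nd (nat_lit 5) 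
(.lf (nat_lit 205148) (.g (nat_lit 1127) (.e (nat_lit 73782) (nat_lit 32) (.e (nat_lit 3088) (nat_lit 191) (.e (nat_lit 483395) (nat_lit 24) (.e (nat_lit 352000) (nat_lit 39) .nil)))) .nil)) 
(.lf (nat_lit 205180) (.g (nat_lit 2910) (.e (nat_lit 73782) (nat_lit 32) (.e (nat_lit 3089) (nat_lit 191) (.e (nat_lit 483393) (nat_lit 23) (.e (nat_lit 335986) (nat_lit 1) (.e (nat_lit 57871) (nat_lit 264) (.e (nat_lit 1209) (nat_lit 89) .nil)))))) (.g (nat_lit 6) .nil .nil))))))) (.nd (nat_lit 2) (.nd (nat_lit 3) (.nd (nat_lit 4) (.nd (nat_lit 5) 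
(.lf (nat_lit 205122) (.g (nat_lit 1297) (.e (nat_lit 73782) (nat_lit 32) (.e (nat_lit 3088) (nat_lit 191) (.e (nat_lit 483393) (nat_lit 23) (.e (nat_lit 335892) (nat_lit 0) (.e (nat_lit 1997) (nat_lit 137) .nil))))) .nil)) 
(.lf (nat_lit 205154) (.g (nat_lit 1625) (.e (nat_lit 73782) (nat_lit 32) (.e (nat_lit 3088) (nat_lit 191) (.e (nat_lit 483413) (nat_lit 27) (.e (nat_lit 401408) (nat_lit 0) (.e (nat_lit 3349) (nat_lit 206) .nil))))) .nil))) (.nd (nat_lit 5) 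
(.lf (nat_lit 205138) (.g (nat_lit 416) (.e (nat_lit 73782) (nat_lit 32) (.e (nat_lit 3088) (nat_lit 191) (.e (nat_lit 483395) (nat_lit 24) .nil))) .nil)) 
(.lf (nat_lit 205170) (.g (nat_lit 1709) (.e (nat_lit 73782) (nat_lit 32) (.e (nat_lit 3089) (nat_lit 191) (.e (nat_lit 483383) (nat_lit 23) (.e (nat_lit 336286) (nat_lit 15) (.e (nat_lit 3629) (nat_lit 227) .nil))))) .nil)))) (.nd (nat_lit 4) (.nd (nat_lit 5) 
(.lf (nat_lit 205130) (.g (nat_lit 2400) (.e (nat_lit 73782) (nat_lit 32) (.e (nat_lit 3088) (nat_lit 191) (.e (nat_lit 483393) (nat_lit 23) (.e (nat_lit 335995) (nat_lit 1) (.e (nat_lit 57870) (nat_lit 264) (.e (nat_lit 1210) (nat_lit 89) .nil)))))) (.g (nat_lit 4) .nil .nil))) 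
(.lf (nat_lit 205162) (.g (nat_lit 2156) (.e (nat_lit 73782) (nat_lit 32) (.e (nat_lit 3089) (nat_lit 191) (.e (nat_lit 483378) (nat_lit 23) (.e (nat_lit 335997) (nat_lit 1) (.e (nat_lit 57870) (nat_lit 264) (.e (nat_lit 1210) (nat_lit 89) .nil)))))) (.g (nat_lit 6) .nil .nil)))) (.nd (nat_lit 5) 
(.lf (nat_lit 205146) (.g (nat_lit 2335) (.e (nat_lit 73782) (nat_lit 32) (.e (nat_lit 3088) (nat_lit 191) (.e (nat_lit 483395) (nat_lit 24) (.e (nat_lit 344097) (nat_lit 18) (.e (nat_lit 5907) (nat_lit 320) (.e (nat_lit 1210) (nat_lit 89) .nil)))))) (.g (nat_lit 4) .nil .nil))) 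
(.lf (nat_lit 205178) (.g (nat_lit 2061) (.e (nat_lit 73782) (nat_lit 32) (.e (nat_lit 3089) (nat_lit 191) (.e (nat_lit 483391) (nat_lit 23) (.e (nat_lit 335998) (nat_lit 1) (.e (nat_lit 57873) (nat_lit 264) (.e (nat_lit 1210) (nat_lit 89) .nil)))))) (.g (nat_lit 5) .nil .nil)))))) (.nd (nat_lit 3) (.nd (nat_lit 4) (.nd (nat_lit 5) 
(.lf (nat_lit 205126) (.g (nat_lit 2190) (.e (nat_lit 73782) (nat_lit 32) (.e (nat_lit 3088) (nat_lit 191) (.e (nat_lit 483393) (nat_lit 23) (.e (nat_lit 335986) (nat_lit 1) (.e (nat_lit 57873) (nat_lit 264) (.e (nat_lit 1210) (nat_lit 89) .nil)))))) (.g (nat_lit 4) .nil .nil))) 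
(.lf (nat_lit 205158) (.g (nat_lit 1660) (.e (nat_lit 73782) (nat_lit 32) (.e (nat_lit 3088) (nat_lit 191) (.e (nat_lit 483413) (nat_lit 27) (.e (nat_lit 401421) (nat_lit 1) .nil)))) .nil))) (.nd (nat_lit 5) 
(.lf (nat_lit 205142) (.g (nat_lit 2676) (.e (nat_lit 73782) (nat_lit 32) (.e (nat_lit 3088) (nat_lit 191) (.e (nat_lit 483395) (nat_lit 24) (.e (nat_lit 344097) (nat_lit 18) (.e (nat_lit 5905) (nat_lit 320) (.e (nat_lit 1211) (nat_lit 89) .nil)))))) (.g (nat_lit 5) .nil .nil))) 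
(.lf (nat_lit 205174) (.g (nat_lit 1764) (.e (nat_lit 73782) (nat_lit 32) (.e (nat_lit 3089) (nat_lit 191) (.e (nat_lit 483387) (nat_lit 23) (.e (nat_lit 335997) (nat_lit 1) (.e (nat_lit 57871) (nat_lit 264) (.e (nat_lit 1210) (nat_lit 89) .nil)))))) (.g (nat_lit 4) .nil .nil))))) (.nd (nat_lit 4) (.nd (nat_lit 5) 
(.lf (nat_lit 205134) (.g (nat_lit 2912) (.e (nat_lit 73782) (nat_lit 32) (.e (nat_lit 3088) (nat_lit 191) (.e (nat_lit 483394) (nat_lit 24) (.e (nat_lit 344097) (nat_lit 18) (.e (nat_lit 5905) (nat_lit 320) (.e (nat_lit 1210) (nat_lit 89) .nil)))))) (.g (nat_lit 5) .nil .nil))) 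
(.lf (nat_lit 205166) (.g (nat_lit 3090) (.e (nat_lit 73782) (nat_lit 32) (.e (nat_lit 3089) (nat_lit 191) (.e (nat_lit 483383) (nat_lit 23) (.e (nat_lit 336000) (nat_lit 1) (.e (nat_lit 57872) (nat_lit 264) (.e (nat_lit 1209) (nat_lit 89) .nil)))))) (.g (nat_lit 0) .nil .nil)))) (.nd (nat_lit 5) 
(.lf (nat_lit 205150) (.g (nat_lit 819) (.e (nat_lit 73782) (nat_lit 32) (.e (nat_lit 3088) (nat_lit 191) (.e (nat_lit 483399) (nat_lit 25) (.e (nat_lit 368662) (nat_lit 18) .nil)))) .nil)) 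
(.lf (nat_lit 205182) (.g (nat_lit 2142) (.e (nat_lit 73782) (nat_lit 32) (.e (nat_lit 3089) (nat_lit 191) (.e (nat_lit 483393) (nat_lit 23) (.e (nat_lit 335986) (nat_lit 1) (.e (nat_lit 57873) (nat_lit 264) (.e (nat_lit 1210) (nat_lit 89) .nil)))))) (.g (nat_lit 5) .nil .nil)))))))) (.nd (nat_lit 1) (.nd (nat_lit 2) (.nd (nat_lit 3) (.nd (nat_lit 4) (.nd (nat_lit 5) 
(.lf (nat_lit 205121) (.g (nat_lit 757) (.e (nat_lit 73782) (nat_lit 32) (.e (nat_lit 3088) (nat_lit 191) (.e (nat_lit 483391) (nat_lit 23) (.e (nat_lit 336329) (nat_lit 19) .nil)))) .nil)) 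
(.lf (nat_lit 205153) (.g (nat_lit 1985) (.e (nat_lit 73782) (nat_lit 32) (.e (nat_lit 3088) (nat_lit 191) (.e (nat_lit 483406) (nat_lit 26) (.e (nat_lit 385096) (nat_lit 49) (.e (nat_lit 786176) (nat_lit 5) .nil))))) .nil))) (.nd (nat_lit 5) 
(.lf (nat_lit 205137) (.g (nat_lit 835) (.e (nat_lit 73782) (nat_lit 32) (.e (nat_lit 3088) (nat_lit 191) (.e (nat_lit 483394) (nat_lit 24) (.e (nat_lit 352000) (nat_lit 39) .nil)))) .nil)) 
(.lf (nat_lit 205169) (.g (nat_lit 1360) (.e (nat_lit 73782) (nat_lit 32) (.e (nat_lit 3089) (nat_lit 191) (.e (nat_lit 483383) (nat_lit 23) (.e (nat_lit 336269) (nat_lit 15) .nil)))) .nil)))) (.nd (nat_lit 4) (.nd (nat_lit 5) 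
(.lf (nat_lit 205129) (.g (nat_lit 2260) (.e (nat_lit 73782) (nat_lit 32) (.e (nat_lit 3088) (nat_lit 191) (.e (nat_lit 483393) (nat_lit 23) (.e (nat_lit 335988) (nat_lit 1) (.e (nat_lit 57870) (nat_lit 264) (.e (nat_lit 1211) (nat_lit 89) .nil)))))) (.g (nat_lit 4) .nil .nil))) 
(.lf (nat_lit 205161) (.g (nat_lit 1535) (.e (nat_lit 73782) (nat_lit 32) (.e (nat_lit 3089) (nat_lit 191) (.e (nat_lit 483378) (nat_lit 23) (.e (nat_lit 335907) (nat_lit 0) (.e (nat_lit 1996) (nat_lit 137) (.e (nat_lit 663568) (nat_lit 5) .nil)))))) (.g (nat_lit 4) .nil .nil)))) (.nd (nat_lit 5) 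
(.lf (nat_lit 205145) (.g (nat_lit 3649) (.e (nat_lit 73782) (nat_lit 32) (.e (nat_lit 3088) (nat_lit 191) (.e (nat_lit 483395) (nat_lit 24) (.e (nat_lit 344097) (nat_lit 18) (.e (nat_lit 5907) (nat_lit 320) (.e (nat_lit 1209) (nat_lit 89) .nil)))))) (.g (nat_lit 0) .nil .nil))) 
(.lf (nat_lit 205177) (.g (nat_lit 1413) (.e (nat_lit 73782) (nat_lit 32) (.e (nat_lit 3089) (nat_lit 191) (.e (nat_lit 483389) (nat_lit 23) (.e (nat_lit 335997) (nat_lit 1) (.e (nat_lit 57871) (nat_lit 264) (.e (nat_lit 1210) (nat_lit 89) .nil)))))) (.g (nat_lit 4) .nil .nil)))))) (.nd (nat_lit 3) (.nd (nat_lit 4) (.nd (nat_lit 5) 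
(.lf (nat_lit 205125) (.g (nat_lit 3303) (.e (nat_lit 73782) (nat_lit 32) (.e (nat_lit 3088) (nat_lit 191) (.e (nat_lit 483393) (nat_lit 23) (.e (nat_lit 335986) (nat_lit 1) (.e (nat_lit 57873) (nat_lit 264) (.e (nat_lit 1209) (nat_lit 89) .nil)))))) (.g (nat_lit 0) .nil .nil))) 
(.lf (nat_lit 205157) (.g (nat_lit 1816) (.e (nat_lit 73782) (nat_lit 32) (.e (nat_lit 3088) (nat_lit 191) (.e (nat_lit 483413) (nat_lit 27) (.e (nat_lit 401414) (nat_lit 0) (.e (nat_lit 3349) (nat_lit 206) .nil))))) .nil))) (.nd (nat_lit 5) 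
(.lf (nat_lit 205141) (.g (nat_lit 2843) (.e (nat_lit 73782) (nat_lit 32) (.e (nat_lit 3088) (nat_lit 191) (.e (nat_lit 483395) (nat_lit 24) (.e (nat_lit 344097) (nat_lit 18) (.e (nat_lit 5905) (nat_lit 320) (.e (nat_lit 1210) (nat_lit 89) .nil)))))) (.g (nat_lit 5) .nil .nil))) 
(.lf (nat_lit 205173) (.g (nat_lit 1784) (.e (nat_lit 73782) (nat_lit 32) (.e (nat_lit 3089) (nat_lit 191) (.e (nat_lit 483387) (nat_lit 23) (.e (nat_lit 335997) (nat_lit 1) (.e (nat_lit 57870) (nat_lit 264) (.e (nat_lit 1210) (nat_lit 89) .nil)))))) (.g (nat_lit 4) .nil .nil))))) (.nd (nat_lit 4) (.nd (nat_lit 5) 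
(.lf (nat_lit 205133) (.g (nat_lit 2888) (.e (nat_lit 73782) (nat_lit 32) (.e (nat_lit 3088) (nat_lit 191) (.e (nat_lit 483393) (nat_lit 23) (.e (nat_lit 335996) (nat_lit 1) (.e (nat_lit 57870) (nat_lit 264) (.e (nat_lit 1210) (nat_lit 89) .nil)))))) (.g (nat_lit 5) .nil .nil))) 
(.lf (nat_lit 205165) (.g (nat_lit 1964) (.e (nat_lit 73782) (nat_lit 32) (.e (nat_lit 3089) (nat_lit 191) (.e (nat_lit 483383) (nat_lit 23) (.e (nat_lit 336000) (nat_lit 1) (.e (nat_lit 57870) (nat_lit 264) (.e (nat_lit 1209) (nat_lit 89) .nil)))))) (.g (nat_lit 4) .nil .nil)))) (.nd (nat_lit 5) 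
(.lf (nat_lit 205149) (.g (nat_lit 869) (.e (nat_lit 73782) (nat_lit 32) (.e (nat_lit 3088) (nat_lit 191) (.e (nat_lit 483396) (nat_lit 24) (.e (nat_lit 344169) (nat_lit 40) .nil)))) .nil)) 
(.lf (nat_lit 205181) (.g (nat_lit 2333) (.e (nat_lit 73782) (nat_lit 32) (.e (nat_lit 3089) (nat_lit 191) (.e (nat_lit 483393) (nat_lit 23) (.e (nat_lit 335986) (nat_lit 1) (.e (nat_lit 57871) (nat_lit 264) (.e (nat_lit 1210) (nat_lit 89) .nil)))))) (.g (nat_lit 5) .nil .nil))))))) (.nd (nat_lit 2) (.nd (nat_lit 3) (.nd (nat_lit 4) (.nd (nat_lit 5) 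
(.lf (nat_lit 205123) (.g (nat_lit 959) (.e (nat_lit 73782) (nat_lit 32) (.e (nat_lit 3088) (nat_lit 191) (.e (nat_lit 483393) (nat_lit 23) (.e (nat_lit 335897) (nat_lit 0) .nil)))) .nil)) 
(.lf (nat_lit 205155) (.g (nat_lit 2267) (.e (nat_lit 73782) (nat_lit 32) (.e (nat_lit 3088) (nat_lit 191) (.e (nat_lit 483413) (nat_lit 27) (.e (nat_lit 401414) (nat_lit 0) (.e (nat_lit 2425) (nat_lit 157) (.e (nat_lit 4616) (nat_lit 269) (.e (nat_lit 1209) (nat_lit 89) .nil))))))) (.g (nat_lit 4) .nil .nil)))) (.nd (nat_lit 5) 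
(.lf (nat_lit 205139) (.g (nat_lit 2296) (.e (nat_lit 73782) (nat_lit 32) (.e (nat_lit 3088) (nat_lit 191) (.e (nat_lit 483395) (nat_lit 24) (.e (nat_lit 344090) (nat_lit 18) (.e (nat_lit 5896) (nat_lit 320) (.e (nat_lit 7936) (nat_lit 89) .nil)))))) (.g (nat_lit 4) .nil .nil))) 
(.lf (nat_lit 205171) (.g (nat_lit 1616) (.e (nat_lit 73782) (nat_lit 32) (.e (nat_lit 3089) (nat_lit 191) (.e (nat_lit 483383) (nat_lit 23) (.e (nat_lit 336357) (nat_lit 24) (.e (nat_lit 270080) (nat_lit 5) .nil))))) (.g (nat_lit 4) .nil .nil))))) (.nd (nat_lit 4) (.nd (nat_lit 5) 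
(.lf (nat_lit 205131) (.g (nat_lit 2026) (.e (nat_lit 73782) (nat_lit 32) (.e (nat_lit 3088) (nat_lit 191) (.e (nat_lit 483393) (nat_lit 23) (.e (nat_lit 335995) (nat_lit 1) (.e (nat_lit 57870) (nat_lit 264) (.e (nat_lit 1211) (nat_lit 89) .nil)))))) (.g (nat_lit 4) .nil .nil))) 
(.lf (nat_lit 205163) (.g (nat_lit 759) (.e (nat_lit 73782) (nat_lit 32) (.e (nat_lit 3089) (nat_lit 191) (.e (nat_lit 483383) (nat_lit 23) (.e (nat_lit 335878) (nat_lit 0) .nil)))) .nil))) (.nd (nat_lit 5) 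
(.lf (nat_lit 205147) (.g (nat_lit 3385) (.e (nat_lit 73782) (nat_lit 32) (.e (nat_lit 3088) (nat_lit 191) (.e (nat_lit 483395) (nat_lit 24) (.e (nat_lit 344097) (nat_lit 18) (.e (nat_lit 5907) (nat_lit 320) (.e (nat_lit 1211) (nat_lit 89) .nil)))))) (.g (nat_lit 0) .nil .nil))) 
(.lf (nat_lit 205179) (.g (nat_lit 710) (.e (nat_lit 73782) (nat_lit 32) (.e (nat_lit 3089) (nat_lit 191) (.e (nat_lit 483393) (nat_lit 23) (.e (nat_lit 335897) (nat_lit 0) .nil)))) .nil))))) (.nd (nat_lit 3) (.nd (nat_lit 4) (.nd (nat_lit 5) 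
(.lf (nat_lit 205127) (.g (nat_lit 2709) (.e (nat_lit 73782) (nat_lit 32) (.e (nat_lit 3088) (nat_lit 191) (.e (nat_lit 483393) (nat_lit 23) (.e (nat_lit 335987) (nat_lit 1) (.e (nat_lit 57870) (nat_lit 264) (.e (nat_lit 1209) (nat_lit 89) .nil)))))) (.g (nat_lit 6) .nil .nil))) 
(.lf (nat_lit 205159) (.g (nat_lit 1474) (.e (nat_lit 73782) (nat_lit 32) (.e (nat_lit 3088) (nat_lit 191) (.e (nat_lit 483413) (nat_lit 27) (.e (nat_lit 401465) (nat_lit 15) .nil)))) .nil))) (.nd (nat_lit 5) 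
(.lf (nat_lit 205143) (.g (nat_lit 3494) (.e (nat_lit 73782) (nat_lit 32) (.e (nat_lit 3088) (nat_lit 191) (.e (nat_lit 483395) (nat_lit 24) (.e (nat_lit 344097) (nat_lit 18) (.e (nat_lit 5906) (nat_lit 320) (.e (nat_lit 1209) (nat_lit 89) .nil)))))) (.g (nat_lit 0) .nil .nil))) 
(.lf (nat_lit 205175) (.g (nat_lit 1648) (.e (nat_lit 73782) (nat_lit 32) (.e (nat_lit 3089) (nat_lit 191) (.e (nat_lit 483388) (nat_lit 23) (.e (nat_lit 335907) (nat_lit 0) (.e (nat_lit 1994) (nat_lit 137) (.e (nat_lit 663568) (nat_lit 5) .nil)))))) (.g (nat_lit 4) .nil .nil))))) (.nd (nat_lit 4) (.nd (nat_lit 5) 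
(.lf (nat_lit 205135) (.g (nat_lit 2406) (.e (nat_lit 73782) (nat_lit 32) (.e (nat_lit 3088) (nat_lit 191) (.e (nat_lit 483394) (nat_lit 24) (.e (nat_lit 344097) (nat_lit 18) (.e (nat_lit 5907) (nat_lit 320) (.e (nat_lit 1210) (nat_lit 89) .nil)))))) (.g (nat_lit 4) .nil .nil))) 
(.lf (nat_lit 205167) (.g (nat_lit 2331) (.e (nat_lit 73782) (nat_lit 32) (.e (nat_lit 3089) (nat_lit 191) (.e (nat_lit 483383) (nat_lit 23) (.e (nat_lit 336000) (nat_lit 1) (.e (nat_lit 57873) (nat_lit 264) (.e (nat_lit 1210) (nat_lit 89) .nil)))))) (.g (nat_lit 5) .nil .nil)))) (.nd (nat_lit 5) 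
(.lf (nat_lit 205151) (.g (nat_lit 2048) (.e (nat_lit 73782) (nat_lit 32) (.e (nat_lit 3088) (nat_lit 191) (.e (nat_lit 483403) (nat_lit 26) (.e (nat_lit 385093) (nat_lit 49) (.e (nat_lit 778323) (nat_lit 5) .nil))))) .nil)) 
(.lf (nat_lit 205183) (.g (nat_lit 2812) (.e (nat_lit 73782) (nat_lit 32) (.e (nat_lit 3089) (nat_lit 191) (.e (nat_lit 483393) (nat_lit 23) (.e (nat_lit 335986) (nat_lit 1) (.e (nat_lit 57873) (nat_lit 264) (.e (nat_lit 1211) (nat_lit 89) .nil)))))) (.g (nat_lit 0) .nil .nil)))))))))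

noncomputable def tv2708 : DT := (.nd (nat_lit 0) (.nd (nat_lit 1) (.nd (nat_lit 2) (.nd (nat_lit 3) (.nd (nat_lit 4) (.nd (nat_lit 5) (.nd (nat_lit 6) 
(.lf (nat_lit 205184) (.g (nat_lit 2573) (.e (nat_lit 73782) (nat_lit 32) (.e (nat_lit 3089) (nat_lit 191) (.e (nat_lit 483393) (nat_lit 23) (.e (nat_lit 335987) (nat_lit 1) (.e (nat_lit 57870) (nat_lit 264) (.e (nat_lit 1209) (nat_lit 89) .nil)))))) (.g (nat_lit 0) .nil .nil))) 
(.lf (nat_lit 205248) (.g (nat_lit 2041) (.e (nat_lit 73782) (nat_lit 32) (.e (nat_lit 3090) (nat_lit 191) (.e (nat_lit 483372) (nat_lit 21) (.e (nat_lit 319514) (nat_lit 11) .nil)))) .nil))) (.nd (nat_lit 6) 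
(.lf (nat_lit 205216) (.g (nat_lit 1505) (.e (nat_lit 73782) (nat_lit 32) (.e (nat_lit 3090) (nat_lit 191) (.e (nat_lit 483372) (nat_lit 21) (.e (nat_lit 319503) (nat_lit 10) .nil)))) .nil)) 
(.lf (nat_lit 205280) (.g (nat_lit 1833) (.e (nat_lit 73782) (nat_lit 32) (.e (nat_lit 3090) (nat_lit 191) (.e (nat_lit 483386) (nat_lit 23) (.e (nat_lit 335985) (nat_lit 1) (.e (nat_lit 57870) (nat_lit 264) (.e (nat_lit 1210) (nat_lit 89) .nil)))))) (.g (nat_lit 5) .nil .nil))))) (.nd (nat_lit 5) (.nd (nat_lit 6) 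
(.lf (nat_lit 205200) (.g (nat_lit 1722) (.e (nat_lit 73782) (nat_lit 32) (.e (nat_lit 3089) (nat_lit 191) (.e (nat_lit 483398) (nat_lit 25) (.e (nat_lit 368662) (nat_lit 18) (.e (nat_lit 5905) (nat_lit 320) (.e (nat_lit 1210) (nat_lit 89) .nil)))))) (.g (nat_lit 4) .nil .nil))) 
(.lf (nat_lit 205264) (.g (nat_lit 1583) (.e (nat_lit 73782) (nat_lit 32) (.e (nat_lit 3090) (nat_lit 191) (.e (nat_lit 483380) (nat_lit 23) (.e (nat_lit 336242) (nat_lit 15) .nil)))) .nil))) (.nd (nat_lit 6) 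
(.lf (nat_lit 205232) (.g (nat_lit 2467) (.e (nat_lit 73782) (nat_lit 32) (.e (nat_lit 3090) (nat_lit 191) (.e (nat_lit 483372) (nat_lit 21) (.e (nat_lit 319504) (nat_lit 10) (.e (nat_lit 59) (nat_lit 0) (.e (nat_lit 4602) (nat_lit 269) (.e (nat_lit 1209) (nat_lit 89) .nil))))))) (.g (nat_lit 4) .nil .nil))) 
(.lf (nat_lit 205296) (.g (nat_lit 2752) (.e (nat_lit 73782) (nat_lit 32) (.e (nat_lit 3090) (nat_lit 191) (.e (nat_lit 483391) (nat_lit 23) (.e (nat_lit 335998) (nat_lit 1) (.e (nat_lit 57873) (nat_lit 264) (.e (nat_lit 1211) (nat_lit 89) .nil)))))) (.g (nat_lit 6) .nil .nil)))))) (.nd (nat_lit 4) (.nd (nat_lit 5) (.nd (nat_lit 6) 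
(.lf (nat_lit 205192) (.g (nat_lit 2404) (.e (nat_lit 73782) (nat_lit 32) (.e (nat_lit 3089) (nat_lit 191) (.e (nat_lit 483394) (nat_lit 24) (.e (nat_lit 344097) (nat_lit 18) (.e (nat_lit 5906) (nat_lit 320) (.e (nat_lit 1211) (nat_lit 89) .nil)))))) (.g (nat_lit 5) .nil .nil))) 
(.lf (nat_lit 205256) (.g (nat_lit 380) (.e (nat_lit 73782) (nat_lit 32) (.e (nat_lit 3090) (nat_lit 191) (.e (nat_lit 483380) (nat_lit 23) .nil))) .nil))) (.nd (nat_lit 6) 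
(.lf (nat_lit 205224) (.g (nat_lit 2364) (.e (nat_lit 73782) (nat_lit 32) (.e (nat_lit 3090) (nat_lit 191) (.e (nat_lit 483372) (nat_lit 21) (.e (nat_lit 319504) (nat_lit 10) (.e (nat_lit 18) (nat_lit 0) .nil))))) .nil)) 
(.lf (nat_lit 205288) (.g (nat_lit 2716) (.e (nat_lit 73782) (nat_lit 32) (.e (nat_lit 3090) (nat_lit 191) (.e (nat_lit 483387) (nat_lit 23) (.e (nat_lit 335997) (nat_lit 1) (.e (nat_lit 57871) (nat_lit 264) (.e (nat_lit 1209) (nat_lit 89) .nil)))))) (.g (nat_lit 0) .nil .nil))))) (.nd (nat_lit 5) (.nd (nat_lit 6) 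
(.lf (nat_lit 205208) (.g (nat_lit 2293) (.e (nat_lit 73782) (nat_lit 32) (.e (nat_lit 3090) (nat_lit 191) (.e (nat_lit 483372) (nat_lit 21) (.e (nat_lit 319488) (nat_lit 0) .nil)))) .nil)) 
(.lf (nat_lit 205272) (.g (nat_lit 1758) (.e (nat_lit 73782) (nat_lit 32) (.e (nat_lit 3090) (nat_lit 191) (.e (nat_lit 483380) (nat_lit 23) (.e (nat_lit 336299) (nat_lit 15) .nil)))) .nil))) (.nd (nat_lit 6) 
(.lf (nat_lit 205240) (.g (nat_lit 1841) (.e (nat_lit 73782) (nat_lit 32) (.e (nat_lit 3090) (nat_lit 191) (.e (nat_lit 483372) (nat_lit 21) (.e (nat_lit 319505) (nat_lit 10) (.e (nat_lit 34) (nat_lit 0) .nil))))) .nil)) 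
(.lf (nat_lit 205304) (.g (nat_lit 1960) (.e (nat_lit 73782) (nat_lit 32) (.e (nat_lit 3090) (nat_lit 191) (.e (nat_lit 483393) (nat_lit 23) (.e (nat_lit 335995) (nat_lit 1) (.e (nat_lit 57870) (nat_lit 264) .nil))))) .nil)))))) (.nd (nat_lit 3) (.nd (nat_lit 4) (.nd (nat_lit 5) (.nd (nat_lit 6) 
(.lf (nat_lit 205188) (.g (nat_lit 3427) (.e (nat_lit 73782) (nat_lit 32) (.e (nat_lit 3089) (nat_lit 191) (.e (nat_lit 483393) (nat_lit 23) (.e (nat_lit 335995) (nat_lit 1) (.e (nat_lit 57872) (nat_lit 264) (.e (nat_lit 1209) (nat_lit 89) .nil)))))) (.g (nat_lit 0) .nil .nil))) 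
(.lf (nat_lit 205252) (.g (nat_lit 1924) (.e (nat_lit 73782) (nat_lit 32) (.e (nat_lit 3090) (nat_lit 191) (.e (nat_lit 483378) (nat_lit 23) (.e (nat_lit 335907) (nat_lit 0) (.e (nat_lit 1994) (nat_lit 137) (.e (nat_lit 663568) (nat_lit 5) .nil)))))) (.g (nat_lit 4) .nil .nil)))) (.nd (nat_lit 6) 
(.lf (nat_lit 205220) (.g (nat_lit 2400) (.e (nat_lit 73782) (nat_lit 32) (.e (nat_lit 3090) (nat_lit 191) (.e (nat_lit 483372) (nat_lit 21) (.e (nat_lit 319504) (nat_lit 10) (.e (nat_lit 11) (nat_lit 0) (.e (nat_lit 4553) (nat_lit 269) (.e (nat_lit 1212) (nat_lit 89) .nil))))))) (.g (nat_lit 4) .nil .nil))) 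
(.lf (nat_lit 205284) (.g (nat_lit 782) (.e (nat_lit 73782) (nat_lit 32) (.e (nat_lit 3090) (nat_lit 191) (.e (nat_lit 483386) (nat_lit 23) (.e (nat_lit 336267) (nat_lit 15) .nil)))) .nil)))) (.nd (nat_lit 5) (.nd (nat_lit 6) 
(.lf (nat_lit 205204) (.g (nat_lit 1045) (.e (nat_lit 73782) (nat_lit 32) (.e (nat_lit 3089) (nat_lit 191) (.e (nat_lit 483399) (nat_lit 25) (.e (nat_lit 368695) (nat_lit 40) (.e (nat_lit 671763) (nat_lit 5) .nil))))) .nil)) 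
(.lf (nat_lit 205268) (.g (nat_lit 2099) (.e (nat_lit 73782) (nat_lit 32) (.e (nat_lit 3090) (nat_lit 191) (.e (nat_lit 483380) (nat_lit 23) (.e (nat_lit 336257) (nat_lit 15) (.e (nat_lit 3672) (nat_lit 227) (.e (nat_lit 786176) (nat_lit 5) .nil)))))) (.g (nat_lit 5) .nil .nil)))) (.nd (nat_lit 6) 
(.lf (nat_lit 205236) (.g (nat_lit 2089) (.e (nat_lit 73782) (nat_lit 32) (.e (nat_lit 3090) (nat_lit 191) (.e (nat_lit 483372) (nat_lit 21) (.e (nat_lit 319505) (nat_lit 10) (.e (nat_lit 11) (nat_lit 0) (.e (nat_lit 4616) (nat_lit 269) (.e (nat_lit 1209) (nat_lit 89) .nil))))))) (.g (nat_lit 4) .nil .nil))) 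
(.lf (nat_lit 205300) (.g (nat_lit 2267) (.e (nat_lit 73782) (nat_lit 32) (.e (nat_lit 3090) (nat_lit 191) (.e (nat_lit 483393) (nat_lit 23) (.e (nat_lit 335986) (nat_lit 1) (.e (nat_lit 57871) (nat_lit 264) (.e (nat_lit 1210) (nat_lit 89) .nil)))))) (.g (nat_lit 4) .nil .nil)))))) (.nd (nat_lit 4) (.nd (nat_lit 5) (.nd (nat_lit 6) 
(.lf (nat_lit 205196) (.g (nat_lit 2328) (.e (nat_lit 73782) (nat_lit 32) (.e (nat_lit 3089) (nat_lit 191) (.e (nat_lit 483395) (nat_lit 24) (.e (nat_lit 344097) (nat_lit 18) (.e (nat_lit 5905) (nat_lit 320) (.e (nat_lit 1211) (nat_lit 89) .nil)))))) (.g (nat_lit 5) .nil .nil))) 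
(.lf (nat_lit 205260) (.g (nat_lit 1814) (.e (nat_lit 73782) (nat_lit 32) (.e (nat_lit 3090) (nat_lit 191) (.e (nat_lit 483380) (nat_lit 23) (.e (nat_lit 335973) (nat_lit 0) .nil)))) .nil))) (.nd (nat_lit 6) 
(.lf (nat_lit 205228) (.g (nat_lit 3043) (.e (nat_lit 73782) (nat_lit 32) (.e (nat_lit 3090) (nat_lit 191) (.e (nat_lit 483372) (nat_lit 21) (.e (nat_lit 319504) (nat_lit 10) (.e (nat_lit 34) (nat_lit 0) (.e (nat_lit 4602) (nat_lit 269) (.e (nat_lit 1210) (nat_lit 89) .nil))))))) (.g (nat_lit 4) .nil .nil))) 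
(.lf (nat_lit 205292) (.g (nat_lit 2487) (.e (nat_lit 73782) (nat_lit 32) (.e (nat_lit 3090) (nat_lit 191) (.e (nat_lit 483388) (nat_lit 23) (.e (nat_lit 335907) (nat_lit 0) (.e (nat_lit 1994) (nat_lit 137) (.e (nat_lit 663568) (nat_lit 5) .nil)))))) (.g (nat_lit 5) .nil .nil))))) (.nd (nat_lit 5) (.nd (nat_lit 6) 
(.lf (nat_lit 205212) (.g (nat_lit 2445) (.e (nat_lit 73782) (nat_lit 32) (.e (nat_lit 3090) (nat_lit 191) (.e (nat_lit 483372) (nat_lit 21) (.e (nat_lit 319492) (nat_lit 0) .nil)))) .nil)) 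
(.lf (nat_lit 205276) (.g (nat_lit 2227) (.e (nat_lit 73782) (nat_lit 32) (.e (nat_lit 3090) (nat_lit 191) (.e (nat_lit 483380) (nat_lit 23) (.e (nat_lit 336355) (nat_lit 24) (.e (nat_lit 270080) (nat_lit 5) .nil))))) (.g (nat_lit 4) .nil .nil)))) (.nd (nat_lit 6) 
(.lf (nat_lit 205244) (.g (nat_lit 2487) (.e (nat_lit 73782) (nat_lit 32) (.e (nat_lit 3090) (nat_lit 191) (.e (nat_lit 483372) (nat_lit 21) (.e (nat_lit 319505) (nat_lit 10) (.e (nat_lit 52) (nat_lit 0) (.e (nat_lit 4602) (nat_lit 269) (.e (nat_lit 1210) (nat_lit 89) .nil))))))) (.g (nat_lit 4) .nil .nil))) 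
(.lf (nat_lit 205308) (.g (nat_lit 2292) (.e (nat_lit 73782) (nat_lit 32) (.e (nat_lit 3090) (nat_lit 191) (.e (nat_lit 483393) (nat_lit 23) (.e (nat_lit 335996) (nat_lit 1) (.e (nat_lit 57870) (nat_lit 264) (.e (nat_lit 1211) (nat_lit 89) .nil)))))) (.g (nat_lit 4) .nil .nil)))))))) (.nd (nat_lit 2) (.nd (nat_lit 3) (.nd (nat_lit 4) (.nd (nat_lit 5) (.nd (nat_lit 6) 
(.lf (nat_lit 205186) (.g (nat_lit 2306) (.e (nat_lit 73782) (nat_lit 32) (.e (nat_lit 3089) (nat_lit 191) (.e (nat_lit 483393) (nat_lit 23) (.e (nat_lit 335995) (nat_lit 1) (.e (nat_lit 57870) (nat_lit 264) (.e (nat_lit 1210) (nat_lit 89) .nil)))))) (.g (nat_lit 4) .nil .nil))) 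
(.lf (nat_lit 205250) (.g (nat_lit 515) (.e (nat_lit 73782) (nat_lit 32) (.e (nat_lit 3090) (nat_lit 191) (.e (nat_lit 483375) (nat_lit 22) .nil))) .nil))) (.nd (nat_lit 6) 
(.lf (nat_lit 205218) (.g (nat_lit 2170) (.e (nat_lit 73782) (nat_lit 32) (.e (nat_lit 3090) (nat_lit 191) (.e (nat_lit 483372) (nat_lit 21) (.e (nat_lit 319504) (nat_lit 10) (.e (nat_lit 11) (nat_lit 0) .nil))))) .nil)) 
(.lf (nat_lit 205282) (.g (nat_lit 2349) (.e (nat_lit 73782) (nat_lit 32) (.e (nat_lit 3090) (nat_lit 191) (.e (nat_lit 483386) (nat_lit 23) (.e (nat_lit 335992) (nat_lit 1) (.e (nat_lit 57870) (nat_lit 264) (.e (nat_lit 1209) (nat_lit 89) .nil)))))) (.g (nat_lit 6) .nil .nil))))) (.nd (nat_lit 5) (.nd (nat_lit 6) 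
(.lf (nat_lit 205202) (.g (nat_lit 1591) (.e (nat_lit 73782) (nat_lit 32) (.e (nat_lit 3089) (nat_lit 191) (.e (nat_lit 483399) (nat_lit 25) (.e (nat_lit 368662) (nat_lit 18) (.e (nat_lit 5905) (nat_lit 320) (.e (nat_lit 1210) (nat_lit 89) .nil)))))) (.g (nat_lit 4) .nil .nil))) 
(.lf (nat_lit 205266) (.g (nat_lit 1756) (.e (nat_lit 73782) (nat_lit 32) (.e (nat_lit 3090) (nat_lit 191) (.e (nat_lit 483380) (nat_lit 23) (.e (nat_lit 336254) (nat_lit 15) .nil)))) .nil))) (.nd (nat_lit 6) 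
(.lf (nat_lit 205234) (.g (nat_lit 2668) (.e (nat_lit 73782) (nat_lit 32) (.e (nat_lit 3090) (nat_lit 191) (.e (nat_lit 483372) (nat_lit 21) (.e (nat_lit 319504) (nat_lit 10) (.e (nat_lit 63) (nat_lit 0) (.e (nat_lit 4602) (nat_lit 269) (.e (nat_lit 1209) (nat_lit 89) .nil))))))) (.g (nat_lit 4) .nil .nil))) 
(.lf (nat_lit 205298) (.g (nat_lit 659) (.e (nat_lit 73782) (nat_lit 32) (.e (nat_lit 3090) (nat_lit 191) (.e (nat_lit 483392) (nat_lit 23) .nil))) .nil))))) (.nd (nat_lit 4) (.nd (nat_lit 5) (.nd (nat_lit 6) 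
(.lf (nat_lit 205194) (.g (nat_lit 529) (.e (nat_lit 73782) (nat_lit 32) (.e (nat_lit 3089) (nat_lit 191) (.e (nat_lit 483394) (nat_lit 24) (.e (nat_lit 352000) (nat_lit 39) .nil)))) .nil)) 
(.lf (nat_lit 205258) (.g (nat_lit 1796) (.e (nat_lit 73782) (nat_lit 32) (.e (nat_lit 3090) (nat_lit 191) (.e (nat_lit 483380) (nat_lit 23) (.e (nat_lit 335969) (nat_lit 0) .nil)))) .nil))) (.nd (nat_lit 6) 
(.lf (nat_lit 205226) (.g (nat_lit 2364) (.e (nat_lit 73782) (nat_lit 32) (.e (nat_lit 3090) (nat_lit 191) (.e (nat_lit 483372) (nat_lit 21) (.e (nat_lit 319504) (nat_lit 10) (.e (nat_lit 34) (nat_lit 0) .nil))))) .nil)) 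
(.lf (nat_lit 205290) (.g (nat_lit 2893) (.e (nat_lit 73782) (nat_lit 32) (.e (nat_lit 3090) (nat_lit 191) (.e (nat_lit 483387) (nat_lit 23) (.e (nat_lit 335997) (nat_lit 1) (.e (nat_lit 57872) (nat_lit 264) (.e (nat_lit 1209) (nat_lit 89) .nil)))))) (.g (nat_lit 0) .nil .nil))))) (.nd (nat_lit 5) (.nd (nat_lit 6) 
(.lf (nat_lit 205210) (.g (nat_lit 1881) (.e (nat_lit 73782) (nat_lit 32) (.e (nat_lit 3090) (nat_lit 191) (.e (nat_lit 483372) (nat_lit 21) (.e (nat_lit 319490) (nat_lit 0) (.e (nat_lit 7936) (nat_lit 61) .nil))))) .nil)) 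
(.lf (nat_lit 205274) (.g (nat_lit 1796) (.e (nat_lit 73782) (nat_lit 32) (.e (nat_lit 3090) (nat_lit 191) (.e (nat_lit 483380) (nat_lit 23) (.e (nat_lit 336308) (nat_lit 15) .nil)))) .nil))) (.nd (nat_lit 6) 
(.lf (nat_lit 205242) (.g (nat_lit 1825) (.e (nat_lit 73782) (nat_lit 32) (.e (nat_lit 3090) (nat_lit 191) (.e (nat_lit 483372) (nat_lit 21) (.e (nat_lit 319505) (nat_lit 10) (.e (nat_lit 52) (nat_lit 0) .nil))))) .nil)) 
(.lf (nat_lit 205306) (.g (nat_lit 2502) (.e (nat_lit 73782) (nat_lit 32) (.e (nat_lit 3090) (nat_lit 191) (.e (nat_lit 483393) (nat_lit 23) (.e (nat_lit 335995) (nat_lit 1) (.e (nat_lit 57872) (nat_lit 264) (.e (nat_lit 1211) (nat_lit 89) .nil)))))) (.g (nat_lit 4) .nil .nil))))))) (.nd (nat_lit 3) (.nd (nat_lit 4) (.nd (nat_lit 5) (.nd (nat_lit 6) 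
(.lf (nat_lit 205190) (.g (nat_lit 1739) (.e (nat_lit 73782) (nat_lit 32) (.e (nat_lit 3089) (nat_lit 191) (.e (nat_lit 483393) (nat_lit 23) (.e (nat_lit 336288) (nat_lit 15) (.e (nat_lit 3716) (nat_lit 227) .nil))))) .nil)) 
(.lf (nat_lit 205254) (.g (nat_lit 1862) (.e (nat_lit 73782) (nat_lit 32) (.e (nat_lit 3090) (nat_lit 191) (.e (nat_lit 483378) (nat_lit 23) (.e (nat_lit 335997) (nat_lit 1) (.e (nat_lit 57870) (nat_lit 264) (.e (nat_lit 1211) (nat_lit 89) .nil)))))) (.g (nat_lit 4) .nil .nil)))) (.nd (nat_lit 6) 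
(.lf (nat_lit 205222) (.g (nat_lit 2326) (.e (nat_lit 73782) (nat_lit 32) (.e (nat_lit 3090) (nat_lit 191) (.e (nat_lit 483372) (nat_lit 21) (.e (nat_lit 319504) (nat_lit 10) (.e (nat_lit 16) (nat_lit 0) (.e (nat_lit 4602) (nat_lit 269) (.e (nat_lit 1208) (nat_lit 89) .nil))))))) (.g (nat_lit 4) .nil .nil))) 
(.lf (nat_lit 205286) (.g (nat_lit 2279) (.e (nat_lit 73782) (nat_lit 32) (.e (nat_lit 3090) (nat_lit 191) (.e (nat_lit 483387) (nat_lit 23) (.e (nat_lit 335997) (nat_lit 1) (.e (nat_lit 57870) (nat_lit 264) (.e (nat_lit 1210) (nat_lit 89) .nil)))))) (.g (nat_lit 5) .nil .nil))))) (.nd (nat_lit 5) (.nd (nat_lit 6) 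
(.lf (nat_lit 205206) (.g (nat_lit 1152) (.e (nat_lit 73782) (nat_lit 32) (.e (nat_lit 3090) (nat_lit 191) (.e (nat_lit 483350) (nat_lit 17) (.e (nat_lit 6113) (nat_lit 332) .nil)))) .nil)) 
(.lf (nat_lit 205270) (.g (nat_lit 1749) (.e (nat_lit 73782) (nat_lit 32) (.e (nat_lit 3090) (nat_lit 191) (.e (nat_lit 483380) (nat_lit 23) (.e (nat_lit 336283) (nat_lit 15) .nil)))) .nil))) (.nd (nat_lit 6) 
(.lf (nat_lit 205238) (.g (nat_lit 1833) (.e (nat_lit 73782) (nat_lit 32) (.e (nat_lit 3090) (nat_lit 191) (.e (nat_lit 483372) (nat_lit 21) (.e (nat_lit 319505) (nat_lit 10) (.e (nat_lit 16) (nat_lit 0) (.e (nat_lit 4602) (nat_lit 269) (.e (nat_lit 1208) (nat_lit 89) .nil))))))) (.g (nat_lit 4) .nil .nil))) 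
(.lf (nat_lit 205302) (.g (nat_lit 2152) (.e (nat_lit 73782) (nat_lit 32) (.e (nat_lit 3090) (nat_lit 191) (.e (nat_lit 483393) (nat_lit 23) (.e (nat_lit 335986) (nat_lit 1) (.e (nat_lit 57873) (nat_lit 264) (.e (nat_lit 1210) (nat_lit 89) .nil)))))) (.g (nat_lit 4) .nil .nil)))))) (.nd (nat_lit 4) (.nd (nat_lit 5) (.nd (nat_lit 6) 
(.lf (nat_lit 205198) (.g (nat_lit 2091) (.e (nat_lit 73782) (nat_lit 32) (.e (nat_lit 3089) (nat_lit 191) (.e (nat_lit 483395) (nat_lit 24) (.e (nat_lit 344097) (nat_lit 18) (.e (nat_lit 5907) (nat_lit 320) (.e (nat_lit 1210) (nat_lit 89) .nil)))))) (.g (nat_lit 5) .nil .nil))) 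
(.lf (nat_lit 205262) (.g (nat_lit 1558) (.e (nat_lit 73782) (nat_lit 32) (.e (nat_lit 3090) (nat_lit 191) (.e (nat_lit 483380) (nat_lit 23) (.e (nat_lit 336000) (nat_lit 1) .nil)))) .nil))) (.nd (nat_lit 6) 
(.lf (nat_lit 205230) (.g (nat_lit 2837) (.e (nat_lit 73782) (nat_lit 32) (.e (nat_lit 3090) (nat_lit 191) (.e (nat_lit 483372) (nat_lit 21) (.e (nat_lit 319504) (nat_lit 10) (.e (nat_lit 52) (nat_lit 0) (.e (nat_lit 4602) (nat_lit 269) (.e (nat_lit 1210) (nat_lit 89) .nil))))))) (.g (nat_lit 4) .nil .nil))) 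
(.lf (nat_lit 205294) (.g (nat_lit 3042) (.e (nat_lit 73782) (nat_lit 32) (.e (nat_lit 3090) (nat_lit 191) (.e (nat_lit 483391) (nat_lit 23) (.e (nat_lit 335998) (nat_lit 1) (.e (nat_lit 57873) (nat_lit 264) (.e (nat_lit 1209) (nat_lit 89) .nil)))))) (.g (nat_lit 6) .nil .nil))))) (.nd (nat_lit 5) (.nd (nat_lit 6) 
(.lf (nat_lit 205214) (.g (nat_lit 2436) (.e (nat_lit 73782) (nat_lit 32) (.e (nat_lit 3090) (nat_lit 191) (.e (nat_lit 483372) (nat_lit 21) (.e (nat_lit 319495) (nat_lit 0) .nil)))) .nil)) 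
(.lf (nat_lit 205278) (.g (nat_lit 1972) (.e (nat_lit 73782) (nat_lit 32) (.e (nat_lit 3090) (nat_lit 191) (.e (nat_lit 483383) (nat_lit 23) (.e (nat_lit 336000) (nat_lit 1) (.e (nat_lit 57873) (nat_lit 264) .nil))))) .nil))) (.nd (nat_lit 6) 
(.lf (nat_lit 205246) (.g (nat_lit 2195) (.e (nat_lit 73782) (nat_lit 32) (.e (nat_lit 3090) (nat_lit 191) (.e (nat_lit 483372) (nat_lit 21) (.e (nat_lit 319505) (nat_lit 10) (.e (nat_lit 63) (nat_lit 0) (.e (nat_lit 4602) (nat_lit 269) (.e (nat_lit 1209) (nat_lit 89) .nil))))))) (.g (nat_lit 4) .nil .nil))) 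
(.lf (nat_lit 205310) (.g (nat_lit 2789) (.e (nat_lit 73782) (nat_lit 32) (.e (nat_lit 3090) (nat_lit 191) (.e (nat_lit 483394) (nat_lit 24) (.e (nat_lit 344097) (nat_lit 18) (.e (nat_lit 5905) (nat_lit 320) (.e (nat_lit 1211) (nat_lit 89) .nil)))))) (.g (nat_lit 5) .nil .nil))))))))) (.nd (nat_lit 1) (.nd (nat_lit 2) (.nd (nat_lit 3) (.nd (nat_lit 4) (.nd (nat_lit 5) (.nd (nat_lit 6) 
(.lf (nat_lit 205185) (.g (nat_lit 3096) (.e (nat_lit 73782) (nat_lit 32) (.e (nat_lit 3089) (nat_lit 191) (.e (nat_lit 483393) (nat_lit 23) (.e (nat_lit 335988) (nat_lit 1) (.e (nat_lit 57870) (nat_lit 264) (.e (nat_lit 1209) (nat_lit 89) .nil)))))) (.g (nat_lit 0) .nil .nil))) 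
(.lf (nat_lit 205249) (.g (nat_lit 1879) (.e (nat_lit 73782) (nat_lit 32) (.e (nat_lit 3090) (nat_lit 191) (.e (nat_lit 483372) (nat_lit 21) (.e (nat_lit 319516) (nat_lit 11) (.e (nat_lit 8484) (nat_lit 168) .nil))))) .nil))) (.nd (nat_lit 6) 
(.lf (nat_lit 205217) (.g (nat_lit 1118) (.e (nat_lit 73782) (nat_lit 32) (.e (nat_lit 3090) (nat_lit 191) (.e (nat_lit 483372) (nat_lit 21) (.e (nat_lit 319504) (nat_lit 10) .nil)))) .nil)) 
(.lf (nat_lit 205281) (.g (nat_lit 2444) (.e (nat_lit 73782) (nat_lit 32) (.e (nat_lit 3090) (nat_lit 191) (.e (nat_lit 483386) (nat_lit 23) (.e (nat_lit 335985) (nat_lit 1) (.e (nat_lit 57873) (nat_lit 264) (.e (nat_lit 1211) (nat_lit 89) .nil)))))) (.g (nat_lit 0) .nil .nil))))) (.nd (nat_lit 5) (.nd (nat_lit 6) 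
(.lf (nat_lit 205201) (.g (nat_lit 1710) (.e (nat_lit 73782) (nat_lit 32) (.e (nat_lit 3089) (nat_lit 191) (.e (nat_lit 483398) (nat_lit 25) (.e (nat_lit 368662) (nat_lit 18) (.e (nat_lit 5905) (nat_lit 320) (.e (nat_lit 1211) (nat_lit 89) .nil)))))) (.g (nat_lit 4) .nil .nil))) 
(.lf (nat_lit 205265) (.g (nat_lit 1756) (.e (nat_lit 73782) (nat_lit 32) (.e (nat_lit 3090) (nat_lit 191) (.e (nat_lit 483380) (nat_lit 23) (.e (nat_lit 336252) (nat_lit 15) .nil)))) .nil))) (.nd (nat_lit 6) 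
(.lf (nat_lit 205233) (.g (nat_lit 2363) (.e (nat_lit 73782) (nat_lit 32) (.e (nat_lit 3090) (nat_lit 191) (.e (nat_lit 483372) (nat_lit 21) (.e (nat_lit 319504) (nat_lit 10) (.e (nat_lit 63) (nat_lit 0) .nil))))) .nil)) 
(.lf (nat_lit 205297) (.g (nat_lit 854) (.e (nat_lit 73782) (nat_lit 32) (.e (nat_lit 3090) (nat_lit 191) (.e (nat_lit 483391) (nat_lit 23) (.e (nat_lit 336356) (nat_lit 24) .nil)))) .nil))))) (.nd (nat_lit 4) (.nd (nat_lit 5) (.nd (nat_lit 6) 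
(.lf (nat_lit 205193) (.g (nat_lit 2291) (.e (nat_lit 73782) (nat_lit 32) (.e (nat_lit 3089) (nat_lit 191) (.e (nat_lit 483394) (nat_lit 24) (.e (nat_lit 344097) (nat_lit 18) (.e (nat_lit 5907) (nat_lit 320) (.e (nat_lit 1210) (nat_lit 89) .nil)))))) (.g (nat_lit 5) .nil .nil))) 
(.lf (nat_lit 205257) (.g (nat_lit 1796) (.e (nat_lit 73782) (nat_lit 32) (.e (nat_lit 3090) (nat_lit 191) (.e (nat_lit 483380) (nat_lit 23) (.e (nat_lit 335873) (nat_lit 0) .nil)))) .nil))) (.nd (nat_lit 6) 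
(.lf (nat_lit 205225) (.g (nat_lit 2786) (.e (nat_lit 73782) (nat_lit 32) (.e (nat_lit 3090) (nat_lit 191) (.e (nat_lit 483372) (nat_lit 21) (.e (nat_lit 319504) (nat_lit 10) (.e (nat_lit 18) (nat_lit 0) (.e (nat_lit 4602) (nat_lit 269) (.e (nat_lit 1209) (nat_lit 89) .nil))))))) (.g (nat_lit 4) .nil .nil))) 
(.lf (nat_lit 205289) (.g (nat_lit 2224) (.e (nat_lit 73782) (nat_lit 32) (.e (nat_lit 3090) (nat_lit 191) (.e (nat_lit 483387) (nat_lit 23) (.e (nat_lit 335997) (nat_lit 1) (.e (nat_lit 57871) (nat_lit 264) (.e (nat_lit 1210) (nat_lit 89) .nil)))))) (.g (nat_lit 5) .nil .nil))))) (.nd (nat_lit 5) (.nd (nat_lit 6) 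
(.lf (nat_lit 205209) (.g (nat_lit 2211) (.e (nat_lit 73782) (nat_lit 32) (.e (nat_lit 3090) (nat_lit 191) (.e (nat_lit 483372) (nat_lit 21) (.e (nat_lit 319490) (nat_lit 0) (.e (nat_lit 75) (nat_lit 0) .nil))))) .nil)) 
(.lf (nat_lit 205273) (.g (nat_lit 1796) (.e (nat_lit 73782) (nat_lit 32) (.e (nat_lit 3090) (nat_lit 191) (.e (nat_lit 483380) (nat_lit 23) (.e (nat_lit 336304) (nat_lit 15) .nil)))) .nil))) (.nd (nat_lit 6) 
(.lf (nat_lit 205241) (.g (nat_lit 2121) (.e (nat_lit 73782) (nat_lit 32) (.e (nat_lit 3090) (nat_lit 191) (.e (nat_lit 483372) (nat_lit 21) (.e (nat_lit 319505) (nat_lit 10) (.e (nat_lit 34) (nat_lit 0) (.e (nat_lit 4602) (nat_lit 269) (.e (nat_lit 1210) (nat_lit 89) .nil))))))) (.g (nat_lit 4) .nil .nil))) 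
(.lf (nat_lit 205305) (.g (nat_lit 2247) (.e (nat_lit 73782) (nat_lit 32) (.e (nat_lit 3090) (nat_lit 191) (.e (nat_lit 483393) (nat_lit 23) (.e (nat_lit 335995) (nat_lit 1) (.e (nat_lit 57870) (nat_lit 264) (.e (nat_lit 1210) (nat_lit 89) .nil)))))) (.g (nat_lit 4) .nil .nil))))))) (.nd (nat_lit 3) (.nd (nat_lit 4) (.nd (nat_lit 5) (.nd (nat_lit 6) 
(.lf (nat_lit 205189) (.g (nat_lit 3408) (.e (nat_lit 73782) (nat_lit 32) (.e (nat_lit 3089) (nat_lit 191) (.e (nat_lit 483393) (nat_lit 23) (.e (nat_lit 335996) (nat_lit 1) (.e (nat_lit 57870) (nat_lit 264) (.e (nat_lit 1209) (nat_lit 89) .nil)))))) (.g (nat_lit 0) .nil .nil))) 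
(.lf (nat_lit 205253) (.g (nat_lit 2859) (.e (nat_lit 73782) (nat_lit 32) (.e (nat_lit 3090) (nat_lit 191) (.e (nat_lit 483378) (nat_lit 23) (.e (nat_lit 335997) (nat_lit 1) (.e (nat_lit 57870) (nat_lit 264) (.e (nat_lit 1209) (nat_lit 89) .nil)))))) (.g (nat_lit 0) .nil .nil)))) (.nd (nat_lit 6) 
(.lf (nat_lit 205221) (.g (nat_lit 2320) (.e (nat_lit 73782) (nat_lit 32) (.e (nat_lit 3090) (nat_lit 191) (.e (nat_lit 483372) (nat_lit 21) (.e (nat_lit 319504) (nat_lit 10) (.e (nat_lit 16) (nat_lit 0) .nil))))) .nil)) 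
(.lf (nat_lit 205285) (.g (nat_lit 2689) (.e (nat_lit 73782) (nat_lit 32) (.e (nat_lit 3090) (nat_lit 191) (.e (nat_lit 483387) (nat_lit 23) (.e (nat_lit 335997) (nat_lit 1) (.e (nat_lit 57870) (nat_lit 264) (.e (nat_lit 1209) (nat_lit 89) .nil)))))) (.g (nat_lit 0) .nil .nil))))) (.nd (nat_lit 5) (.nd (nat_lit 6) 
(.lf (nat_lit 205205) (.g (nat_lit 785) (.e (nat_lit 73782) (nat_lit 32) (.e (nat_lit 3089) (nat_lit 191) (.e (nat_lit 483406) (nat_lit 26) (.e (nat_lit 385099) (nat_lit 49) .nil)))) .nil)) 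
(.lf (nat_lit 205269) (.g (nat_lit 1184) (.e (nat_lit 73782) (nat_lit 32) (.e (nat_lit 3090) (nat_lit 191) (.e (nat_lit 483380) (nat_lit 23) (.e (nat_lit 336261) (nat_lit 15) .nil)))) .nil))) (.nd (nat_lit 6) 
(.lf (nat_lit 205237) (.g (nat_lit 1826) (.e (nat_lit 73782) (nat_lit 32) (.e (nat_lit 3090) (nat_lit 191) (.e (nat_lit 483372) (nat_lit 21) (.e (nat_lit 319505) (nat_lit 10) (.e (nat_lit 16) (nat_lit 0) .nil))))) .nil)) 
(.lf (nat_lit 205301) (.g (nat_lit 3269) (.e (nat_lit 73782) (nat_lit 32) (.e (nat_lit 3090) (nat_lit 191) (.e (nat_lit 483393) (nat_lit 23) (.e (nat_lit 335986) (nat_lit 1) (.e (nat_lit 57873) (nat_lit 264) (.e (nat_lit 1209) (nat_lit 89) .nil)))))) (.g (nat_lit 6) .nil .nil)))))) (.nd (nat_lit 4) (.nd (nat_lit 5) (.nd (nat_lit 6) 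
(.lf (nat_lit 205197) (.g (nat_lit 2214) (.e (nat_lit 73782) (nat_lit 32) (.e (nat_lit 3089) (nat_lit 191) (.e (nat_lit 483395) (nat_lit 24) (.e (nat_lit 344097) (nat_lit 18) (.e (nat_lit 5906) (nat_lit 320) (.e (nat_lit 1211) (nat_lit 89) .nil)))))) (.g (nat_lit 5) .nil .nil))) 
(.lf (nat_lit 205261) (.g (nat_lit 1796) (.e (nat_lit 73782) (nat_lit 32) (.e (nat_lit 3090) (nat_lit 191) (.e (nat_lit 483380) (nat_lit 23) (.e (nat_lit 335999) (nat_lit 1) .nil)))) .nil))) (.nd (nat_lit 6) 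
(.lf (nat_lit 205229) (.g (nat_lit 2330) (.e (nat_lit 73782) (nat_lit 32) (.e (nat_lit 3090) (nat_lit 191) (.e (nat_lit 483372) (nat_lit 21) (.e (nat_lit 319504) (nat_lit 10) (.e (nat_lit 52) (nat_lit 0) .nil))))) .nil)) 
(.lf (nat_lit 205293) (.g (nat_lit 1822) (.e (nat_lit 73782) (nat_lit 32) (.e (nat_lit 3090) (nat_lit 191) (.e (nat_lit 483389) (nat_lit 23) (.e (nat_lit 335907) (nat_lit 0) (.e (nat_lit 1996) (nat_lit 137) (.e (nat_lit 663568) (nat_lit 5) .nil)))))) (.g (nat_lit 4) .nil .nil))))) (.nd (nat_lit 5) (.nd (nat_lit 6) 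
(.lf (nat_lit 205213) (.g (nat_lit 1821) (.e (nat_lit 73782) (nat_lit 32) (.e (nat_lit 3090) (nat_lit 191) (.e (nat_lit 483372) (nat_lit 21) (.e (nat_lit 319494) (nat_lit 0) .nil)))) .nil)) 
(.lf (nat_lit 205277) (.g (nat_lit 1314) (.e (nat_lit 73782) (nat_lit 32) (.e (nat_lit 3090) (nat_lit 191) (.e (nat_lit 483383) (nat_lit 23) (.e (nat_lit 336000) (nat_lit 1) .nil)))) .nil))) (.nd (nat_lit 6) 
(.lf (nat_lit 205245) (.g (nat_lit 1841) (.e (nat_lit 73782) (nat_lit 32) (.e (nat_lit 3090) (nat_lit 191) (.e (nat_lit 483372) (nat_lit 21) (.e (nat_lit 319505) (nat_lit 10) (.e (nat_lit 63) (nat_lit 0) .nil))))) .nil)) 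
(.lf (nat_lit 205309) (.g (nat_lit 2219) (.e (nat_lit 73782) (nat_lit 32) (.e (nat_lit 3090) (nat_lit 191) (.e (nat_lit 483394) (nat_lit 24) (.e (nat_lit 344090) (nat_lit 18) (.e (nat_lit 5896) (nat_lit 320) (.e (nat_lit 7936) (nat_lit 89) .nil)))))) (.g (nat_lit 4) .nil .nil)))))))) (.nd (nat_lit 2) (.nd (nat_lit 3) (.nd (nat_lit 4) (.nd (nat_lit 5) (.nd (nat_lit 6) 
(.lf (nat_lit 205187) (.g (nat_lit 1790) (.e (nat_lit 73782) (nat_lit 32) (.e (nat_lit 3089) (nat_lit 191) (.e (nat_lit 483393) (nat_lit 23) (.e (nat_lit 335995) (nat_lit 1) (.e (nat_lit 57870) (nat_lit 264) (.e (nat_lit 1211) (nat_lit 89) .nil)))))) (.g (nat_lit 4) .nil .nil))) 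
(.lf (nat_lit 205251) (.g (nat_lit 408) (.e (nat_lit 73782) (nat_lit 32) (.e (nat_lit 3090) (nat_lit 191) (.e (nat_lit 483378) (nat_lit 23) .nil))) .nil))) (.nd (nat_lit 6) 
(.lf (nat_lit 205219) (.g (nat_lit 2246) (.e (nat_lit 73782) (nat_lit 32) (.e (nat_lit 3090) (nat_lit 191) (.e (nat_lit 483372) (nat_lit 21) (.e (nat_lit 319504) (nat_lit 10) (.e (nat_lit 11) (nat_lit 0) (.e (nat_lit 4553) (nat_lit 269) (.e (nat_lit 1211) (nat_lit 89) .nil))))))) (.g (nat_lit 4) .nil .nil))) 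
(.lf (nat_lit 205283) (.g (nat_lit 1835) (.e (nat_lit 73782) (nat_lit 32) (.e (nat_lit 3090) (nat_lit 191) (.e (nat_lit 483386) (nat_lit 23) (.e (nat_lit 335992) (nat_lit 1) (.e (nat_lit 57870) (nat_lit 264) (.e (nat_lit 1210) (nat_lit 89) .nil)))))) (.g (nat_lit 5) .nil .nil))))) (.nd (nat_lit 5) (.nd (nat_lit 6) 
(.lf (nat_lit 205203) (.g (nat_lit 1578) (.e (nat_lit 73782) (nat_lit 32) (.e (nat_lit 3089) (nat_lit 191) (.e (nat_lit 483399) (nat_lit 25) (.e (nat_lit 368662) (nat_lit 18) (.e (nat_lit 5905) (nat_lit 320) (.e (nat_lit 1211) (nat_lit 89) .nil)))))) (.g (nat_lit 4) .nil .nil))) 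
(.lf (nat_lit 205267) (.g (nat_lit 1796) (.e (nat_lit 73782) (nat_lit 32) (.e (nat_lit 3090) (nat_lit 191) (.e (nat_lit 483380) (nat_lit 23) (.e (nat_lit 336256) (nat_lit 15) .nil)))) .nil))) (.nd (nat_lit 6) 
(.lf (nat_lit 205235) (.g (nat_lit 2940) (.e (nat_lit 73782) (nat_lit 32) (.e (nat_lit 3090) (nat_lit 191) (.e (nat_lit 483372) (nat_lit 21) (.e (nat_lit 319504) (nat_lit 10) (.e (nat_lit 658) (nat_lit 54) (.e (nat_lit 606227) (nat_lit 5) .nil)))))) (.g (nat_lit 5) .nil .nil))) 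
(.lf (nat_lit 205299) (.g (nat_lit 537) (.e (nat_lit 73782) (nat_lit 32) (.e (nat_lit 3090) (nat_lit 191) (.e (nat_lit 483393) (nat_lit 23) .nil))) .nil))))) (.nd (nat_lit 4) (.nd (nat_lit 5) (.nd (nat_lit 6) 
(.lf (nat_lit 205195) (.g (nat_lit 2243) (.e (nat_lit 73782) (nat_lit 32) (.e (nat_lit 3089) (nat_lit 191) (.e (nat_lit 483395) (nat_lit 24) (.e (nat_lit 344090) (nat_lit 18) (.e (nat_lit 5896) (nat_lit 320) (.e (nat_lit 7936) (nat_lit 89) .nil)))))) (.g (nat_lit 5) .nil .nil))) 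
(.lf (nat_lit 205259) (.g (nat_lit 1811) (.e (nat_lit 73782) (nat_lit 32) (.e (nat_lit 3090) (nat_lit 191) (.e (nat_lit 483380) (nat_lit 23) (.e (nat_lit 335971) (nat_lit 0) .nil)))) .nil))) (.nd (nat_lit 6) 
(.lf (nat_lit 205227) (.g (nat_lit 2498) (.e (nat_lit 73782) (nat_lit 32) (.e (nat_lit 3090) (nat_lit 191) (.e (nat_lit 483372) (nat_lit 21) (.e (nat_lit 319504) (nat_lit 10) (.e (nat_lit 34) (nat_lit 0) (.e (nat_lit 4602) (nat_lit 269) (.e (nat_lit 1208) (nat_lit 89) .nil))))))) (.g (nat_lit 4) .nil .nil))) 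
(.lf (nat_lit 205291) (.g (nat_lit 602) (.e (nat_lit 73782) (nat_lit 32) (.e (nat_lit 3090) (nat_lit 191) (.e (nat_lit 483388) (nat_lit 23) .nil))) .nil)))) (.nd (nat_lit 5) (.nd (nat_lit 6) 
(.lf (nat_lit 205211) (.g (nat_lit 2470) (.e (nat_lit 73782) (nat_lit 32) (.e (nat_lit 3090) (nat_lit 191) (.e (nat_lit 483372) (nat_lit 21) (.e (nat_lit 319491) (nat_lit 0) .nil)))) .nil)) 
(.lf (nat_lit 205275) (.g (nat_lit 1201) (.e (nat_lit 73782) (nat_lit 32) (.e (nat_lit 3090) (nat_lit 191) (.e (nat_lit 483380) (nat_lit 23) (.e (nat_lit 336310) (nat_lit 16) .nil)))) .nil))) (.nd (nat_lit 6) 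
(.lf (nat_lit 205243) (.g (nat_lit 1942) (.e (nat_lit 73782) (nat_lit 32) (.e (nat_lit 3090) (nat_lit 191) (.e (nat_lit 483372) (nat_lit 21) (.e (nat_lit 319505) (nat_lit 10) (.e (nat_lit 52) (nat_lit 0) (.e (nat_lit 4602) (nat_lit 269) (.e (nat_lit 1208) (nat_lit 89) .nil))))))) (.g (nat_lit 4) .nil .nil))) 
(.lf (nat_lit 205307) (.g (nat_lit 2659) (.e (nat_lit 73782) (nat_lit 32) (.e (nat_lit 3090) (nat_lit 191) (.e (nat_lit 483393) (nat_lit 23) (.e (nat_lit 335996) (nat_lit 1) (.e (nat_lit 57870) (nat_lit 264) (.e (nat_lit 1210) (nat_lit 89) .nil)))))) (.g (nat_lit 4) .nil .nil))))))) (.nd (nat_lit 3) (.nd (nat_lit 4) (.nd (nat_lit 5) (.nd (nat_lit 6) 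
(.lf (nat_lit 205191) (.g (nat_lit 2558) (.e (nat_lit 73782) (nat_lit 32) (.e (nat_lit 3089) (nat_lit 191) (.e (nat_lit 483394) (nat_lit 24) (.e (nat_lit 344097) (nat_lit 18) (.e (nat_lit 5905) (nat_lit 320) (.e (nat_lit 1211) (nat_lit 89) .nil)))))) (.g (nat_lit 5) .nil .nil))) 
(.lf (nat_lit 205255) (.g (nat_lit 3061) (.e (nat_lit 73782) (nat_lit 32) (.e (nat_lit 3090) (nat_lit 191) (.e (nat_lit 483378) (nat_lit 23) (.e (nat_lit 335997) (nat_lit 1) (.e (nat_lit 57872) (nat_lit 264) (.e (nat_lit 1209) (nat_lit 89) .nil)))))) (.g (nat_lit 0) .nil .nil)))) (.nd (nat_lit 6) 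
(.lf (nat_lit 205223) (.g (nat_lit 2871) (.e (nat_lit 73782) (nat_lit 32) (.e (nat_lit 3090) (nat_lit 191) (.e (nat_lit 483372) (nat_lit 21) (.e (nat_lit 319504) (nat_lit 10) (.e (nat_lit 16) (nat_lit 0) (.e (nat_lit 4602) (nat_lit 269) (.e (nat_lit 1210) (nat_lit 89) .nil))))))) (.g (nat_lit 4) .nil .nil))) 
(.lf (nat_lit 205287) (.g (nat_lit 1806) (.e (nat_lit 73782) (nat_lit 32) (.e (nat_lit 3090) (nat_lit 191) (.e (nat_lit 483387) (nat_lit 23) (.e (nat_lit 335997) (nat_lit 1) (.e (nat_lit 57870) (nat_lit 264) (.e (nat_lit 1211) (nat_lit 89) .nil)))))) (.g (nat_lit 4) .nil .nil))))) (.nd (nat_lit 5) (.nd (nat_lit 6) 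
(.lf (nat_lit 205207) (.g (nat_lit 1086) (.e (nat_lit 73782) (nat_lit 32) (.e (nat_lit 3090) (nat_lit 191) (.e (nat_lit 483350) (nat_lit 17) (.e (nat_lit 7936) (nat_lit 343) .nil)))) .nil)) 
(.lf (nat_lit 205271) (.g (nat_lit 1444) (.e (nat_lit 73782) (nat_lit 32) (.e (nat_lit 3090) (nat_lit 191) (.e (nat_lit 483380) (nat_lit 23) (.e (nat_lit 336296) (nat_lit 15) .nil)))) .nil))) (.nd (nat_lit 6) 
(.lf (nat_lit 205239) (.g (nat_lit 2378) (.e (nat_lit 73782) (nat_lit 32) (.e (nat_lit 3090) (nat_lit 191) (.e (nat_lit 483372) (nat_lit 21) (.e (nat_lit 319505) (nat_lit 10) (.e (nat_lit 16) (nat_lit 0) (.e (nat_lit 4602) (nat_lit 269) (.e (nat_lit 1210) (nat_lit 89) .nil))))))) (.g (nat_lit 4) .nil .nil))) 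
(.lf (nat_lit 205303) (.g (nat_lit 2269) (.e (nat_lit 73782) (nat_lit 32) (.e (nat_lit 3090) (nat_lit 191) (.e (nat_lit 483393) (nat_lit 23) (.e (nat_lit 335988) (nat_lit 1) (.e (nat_lit 57870) (nat_lit 264) (.e (nat_lit 1210) (nat_lit 89) .nil)))))) (.g (nat_lit 4) .nil .nil)))))) (.nd (nat_lit 4) (.nd (nat_lit 5) (.nd (nat_lit 6) 
(.lf (nat_lit 205199) (.g (nat_lit 806) (.e (nat_lit 73782) (nat_lit 32) (.e (nat_lit 3089) (nat_lit 191) (.e (nat_lit 483395) (nat_lit 24) (.e (nat_lit 344103) (nat_lit 18) .nil)))) .nil)) 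
(.lf (nat_lit 205263) (.g (nat_lit 910) (.e (nat_lit 73782) (nat_lit 32) (.e (nat_lit 3090) (nat_lit 191) (.e (nat_lit 483380) (nat_lit 23) (.e (nat_lit 343808) (nat_lit 4) .nil)))) .nil))) (.nd (nat_lit 6) 
(.lf (nat_lit 205231) (.g (nat_lit 2364) (.e (nat_lit 73782) (nat_lit 32) (.e (nat_lit 3090) (nat_lit 191) (.e (nat_lit 483372) (nat_lit 21) (.e (nat_lit 319504) (nat_lit 10) (.e (nat_lit 59) (nat_lit 0) .nil))))) .nil)) 
(.lf (nat_lit 205295) (.g (nat_lit 1983) (.e (nat_lit 73782) (nat_lit 32) (.e (nat_lit 3090) (nat_lit 191) (.e (nat_lit 483391) (nat_lit 23) (.e (nat_lit 335998) (nat_lit 1) (.e (nat_lit 57873) (nat_lit 264) (.e (nat_lit 1210) (nat_lit 89) .nil)))))) (.g (nat_lit 4) .nil .nil))))) (.nd (nat_lit 5) (.nd (nat_lit 6) 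
(.lf (nat_lit 205215) (.g (nat_lit 1110) (.e (nat_lit 73782) (nat_lit 32) (.e (nat_lit 3090) (nat_lit 191) (.e (nat_lit 483372) (nat_lit 21) (.e (nat_lit 327424) (nat_lit 1) .nil)))) .nil)) 
(.lf (nat_lit 205279) (.g (nat_lit 428) (.e (nat_lit 73782) (nat_lit 32) (.e (nat_lit 3090) (nat_lit 191) (.e (nat_lit 483386) (nat_lit 23) .nil))) .nil))) (.nd (nat_lit 6) 
(.lf (nat_lit 205247) (.g (nat_lit 2768) (.e (nat_lit 73782) (nat_lit 32) (.e (nat_lit 3090) (nat_lit 191) (.e (nat_lit 483372) (nat_lit 21) (.e (nat_lit 319505) (nat_lit 10) (.e (nat_lit 658) (nat_lit 54) (.e (nat_lit 606227) (nat_lit 5) .nil)))))) (.g (nat_lit 6) .nil .nil))) 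
(.lf (nat_lit 205311) (.g (nat_lit 2648) (.e (nat_lit 73782) (nat_lit 32) (.e (nat_lit 3090) (nat_lit 191) (.e (nat_lit 483394) (nat_lit 24) (.e (nat_lit 344097) (nat_lit 18) (.e (nat_lit 5906) (nat_lit 320) (.e (nat_lit 1211) (nat_lit 89) .nil)))))) (.g (nat_lit 5) .nil .nil))))))))))

noncomputable def tv2709 : DT := (.nd (nat_lit 0) (.nd (nat_lit 1) (.nd (nat_lit 2) (.nd (nat_lit 3) (.nd (nat_lit 4) (.nd (nat_lit 5) (.nd (nat_lit 6) 
(.lf (nat_lit 205312) (.g (nat_lit 739) (.e (nat_lit 73782) (nat_lit 32) (.e (nat_lit 3090) (nat_lit 191) (.e (nat_lit 483394) (nat_lit 24) (.e (nat_lit 352000) (nat_lit 39) .nil)))) .nil)) 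
(.lf (nat_lit 205376) (.g (nat_lit 1674) (.e (nat_lit 81664) (nat_lit 32) (.e (nat_lit 347) (nat_lit 28) (.e (nat_lit 393268) (nat_lit 23) (.e (nat_lit 426428) (nat_lit 17) (.e (nat_lit 98048) (nat_lit 5) .nil))))) .nil))) (.nd (nat_lit 6) 
(.lf (nat_lit 205344) (.g (nat_lit 1567) (.e (nat_lit 81664) (nat_lit 32) (.e (nat_lit 98) (nat_lit 2) (.e (nat_lit 90170) (nat_lit 13) (.e (nat_lit 172113) (nat_lit 10) .nil)))) .nil)) 
(.lf (nat_lit 205408) (.g (nat_lit 2219) (.e (nat_lit 81664) (nat_lit 32) (.e (nat_lit 2668) (nat_lit 167) (.e (nat_lit 196666) (nat_lit 13) (.e (nat_lit 65628) (nat_lit 14) (.e (nat_lit 401412) (nat_lit 0) .nil))))) .nil)))) (.nd (nat_lit 5) (.nd (nat_lit 6) 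
(.lf (nat_lit 205328) (.g (nat_lit 2716) (.e (nat_lit 73782) (nat_lit 32) (.e (nat_lit 3090) (nat_lit 191) (.e (nat_lit 483398) (nat_lit 25) (.e (nat_lit 368662) (nat_lit 18) (.e (nat_lit 5907) (nat_lit 320) (.e (nat_lit 1211) (nat_lit 89) .nil)))))) (.g (nat_lit 6) .nil .nil))) 
(.lf (nat_lit 205392) (.g (nat_lit 963) (.e (nat_lit 81664) (nat_lit 32) (.e (nat_lit 351) (nat_lit 28) (.e (nat_lit 393270) (nat_lit 23) (.e (nat_lit 426432) (nat_lit 17) (.e (nat_lit 98048) (nat_lit 5) .nil))))) .nil))) (.nd (nat_lit 6) 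
(.lf (nat_lit 205360) (.g (nat_lit 2915) (.e (nat_lit 81664) (nat_lit 32) (.e (nat_lit 112) (nat_lit 3) (.e (nat_lit 98373) (nat_lit 29) (.e (nat_lit 450563) (nat_lit 0) (.e (nat_lit 6806) (nat_lit 365) .nil))))) .nil)) 
(.lf (nat_lit 205424) (.g (nat_lit 506) (.e (nat_lit 81664) (nat_lit 32) (.e (nat_lit 2862) (nat_lit 184) (.e (nat_lit 426538) (nat_lit 29) (.e (nat_lit 352270) (nat_lit 8) (.e (nat_lit 270080) (nat_lit 5) .nil))))) .nil))))) (.nd (nat_lit 4) (.nd (nat_lit 5) (.nd (nat_lit 6) 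
(.lf (nat_lit 205320) (.g (nat_lit 2823) (.e (nat_lit 73782) (nat_lit 32) (.e (nat_lit 3090) (nat_lit 191) (.e (nat_lit 483396) (nat_lit 24) (.e (nat_lit 344097) (nat_lit 18) (.e (nat_lit 5907) (nat_lit 320) (.e (nat_lit 1209) (nat_lit 89) .nil)))))) (.g (nat_lit 5) .nil .nil))) 
(.lf (nat_lit 205384) (.g (nat_lit 1781) (.e (nat_lit 81664) (nat_lit 32) (.e (nat_lit 348) (nat_lit 28) (.e (nat_lit 393291) (nat_lit 26) (.e (nat_lit 475169) (nat_lit 22) (.e (nat_lit 507648) (nat_lit 19) .nil))))) .nil))) (.nd (nat_lit 6) 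
(.lf (nat_lit 205352) (.g (nat_lit 1897) (.e (nat_lit 81664) (nat_lit 32) (.e (nat_lit 100) (nat_lit 2) (.e (nat_lit 90174) (nat_lit 14) (.e (nat_lit 180288) (nat_lit 45) (.e (nat_lit 2580) (nat_lit 161) .nil))))) .nil)) 
(.lf (nat_lit 205416) (.g (nat_lit 992) (.e (nat_lit 81664) (nat_lit 32) (.e (nat_lit 2685) (nat_lit 168) (.e (nat_lit 204866) (nat_lit 28) (.e (nat_lit 352268) (nat_lit 6) (.e (nat_lit 229524) (nat_lit 128) .nil))))) .nil)))) (.nd (nat_lit 5) (.nd (nat_lit 6) 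
(.lf (nat_lit 205336) (.g (nat_lit 2413) (.e (nat_lit 73782) (nat_lit 32) (.e (nat_lit 3090) (nat_lit 191) (.e (nat_lit 483403) (nat_lit 26) (.e (nat_lit 385095) (nat_lit 49) .nil)))) .nil)) 
(.lf (nat_lit 205400) (.g (nat_lit 2543) (.e (nat_lit 81664) (nat_lit 32) (.e (nat_lit 2663) (nat_lit 167) (.e (nat_lit 196666) (nat_lit 13) (.e (nat_lit 65624) (nat_lit 12) (.e (nat_lit 385074) (nat_lit 31) .nil))))) .nil))) (.nd (nat_lit 6) 
(.lf (nat_lit 205368) (.g (nat_lit 1590) (.e (nat_lit 81664) (nat_lit 32) (.e (nat_lit 216) (nat_lit 19) (.e (nat_lit 319534) (nat_lit 16) (.e (nat_lit 286756) (nat_lit 10) (.e (nat_lit 344097) (nat_lit 18) .nil))))) .nil)) 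
(.lf (nat_lit 205432) (.g (nat_lit 146) (.e (nat_lit 81664) (nat_lit 32) (.e (nat_lit 2938) (nat_lit 184) (.e (nat_lit 426554) (nat_lit 32) (.e (nat_lit 384768) (nat_lit 4) .nil)))) .nil)))))) (.nd (nat_lit 3) (.nd (nat_lit 4) (.nd (nat_lit 5) (.nd (nat_lit 6) 
(.lf (nat_lit 205316) (.g (nat_lit 2562) (.e (nat_lit 73782) (nat_lit 32) (.e (nat_lit 3090) (nat_lit 191) (.e (nat_lit 483395) (nat_lit 24) (.e (nat_lit 344097) (nat_lit 18) (.e (nat_lit 5905) (nat_lit 320) (.e (nat_lit 1211) (nat_lit 89) .nil)))))) (.g (nat_lit 5) .nil .nil))) 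
(.lf (nat_lit 205380) (.g (nat_lit 1341) (.e (nat_lit 81664) (nat_lit 32) (.e (nat_lit 348) (nat_lit 28) (.e (nat_lit 393268) (nat_lit 23) (.e (nat_lit 426432) (nat_lit 17) (.e (nat_lit 98048) (nat_lit 5) .nil))))) .nil))) (.nd (nat_lit 6) 
(.lf (nat_lit 205348) (.g (nat_lit 925) (.e (nat_lit 81664) (nat_lit 32) (.e (nat_lit 100) (nat_lit 2) (.e (nat_lit 90172) (nat_lit 14) (.e (nat_lit 180285) (nat_lit 45) .nil)))) .nil)) 
(.lf (nat_lit 205412) (.g (nat_lit 2070) (.e (nat_lit 81664) (nat_lit 32) (.e (nat_lit 2668) (nat_lit 167) (.e (nat_lit 196674) (nat_lit 15) (.e (nat_lit 81946) (nat_lit 20) (.e (nat_lit 1841) (nat_lit 123) .nil))))) .nil)))) (.nd (nat_lit 5) (.nd (nat_lit 6) 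
(.lf (nat_lit 205332) (.g (nat_lit 1825) (.e (nat_lit 73782) (nat_lit 32) (.e (nat_lit 3090) (nat_lit 191) (.e (nat_lit 483399) (nat_lit 25) (.e (nat_lit 368662) (nat_lit 18) (.e (nat_lit 5907) (nat_lit 320) (.e (nat_lit 1210) (nat_lit 89) .nil)))))) (.g (nat_lit 4) .nil .nil))) 
(.lf (nat_lit 205396) (.g (nat_lit 903) (.e (nat_lit 81664) (nat_lit 32) (.e (nat_lit 351) (nat_lit 28) (.e (nat_lit 393301) (nat_lit 27) (.e (nat_lit 499456) (nat_lit 17) .nil)))) .nil))) (.nd (nat_lit 6) 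
(.lf (nat_lit 205364) (.g (nat_lit 2411) (.e (nat_lit 81664) (nat_lit 32) (.e (nat_lit 113) (nat_lit 3) (.e (nat_lit 98373) (nat_lit 29) (.e (nat_lit 450605) (nat_lit 27) (.e (nat_lit 745492) (nat_lit 5) .nil))))) .nil)) 
(.lf (nat_lit 205428) (.g (nat_lit 2663) (.e (nat_lit 81664) (nat_lit 32) (.e (nat_lit 2887) (nat_lit 184) (.e (nat_lit 426499) (nat_lit 27) (.e (nat_lit 336194) (nat_lit 12) (.e (nat_lit 385094) (nat_lit 49) .nil))))) .nil))))) (.nd (nat_lit 4) (.nd (nat_lit 5) (.nd (nat_lit 6) 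
(.lf (nat_lit 205324) (.g (nat_lit 1891) (.e (nat_lit 73782) (nat_lit 32) (.e (nat_lit 3090) (nat_lit 191) (.e (nat_lit 483398) (nat_lit 25) (.e (nat_lit 368662) (nat_lit 18) (.e (nat_lit 5905) (nat_lit 320) (.e (nat_lit 1210) (nat_lit 89) .nil)))))) (.g (nat_lit 4) .nil .nil))) 
(.lf (nat_lit 205388) (.g (nat_lit 2128) (.e (nat_lit 81664) (nat_lit 32) (.e (nat_lit 351) (nat_lit 28) (.e (nat_lit 393260) (nat_lit 21) (.e (nat_lit 409612) (nat_lit 10) (.e (nat_lit 630) (nat_lit 50) .nil))))) .nil))) (.nd (nat_lit 6) 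
(.lf (nat_lit 205356) (.g (nat_lit 1511) (.e (nat_lit 81664) (nat_lit 32) (.e (nat_lit 112) (nat_lit 3) (.e (nat_lit 98372) (nat_lit 29) (.e (nat_lit 450564) (nat_lit 0) (.e (nat_lit 6792) (nat_lit 365) .nil))))) .nil)) 
(.lf (nat_lit 205420) (.g (nat_lit 1424) (.e (nat_lit 81664) (nat_lit 32) (.e (nat_lit 2685) (nat_lit 168) (.e (nat_lit 204869) (nat_lit 29) (.e (nat_lit 360455) (nat_lit 0) .nil)))) .nil)))) (.nd (nat_lit 5) (.nd (nat_lit 6) 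
(.lf (nat_lit 205340) (.g (nat_lit 2700) (.e (nat_lit 73782) (nat_lit 32) (.e (nat_lit 3090) (nat_lit 191) (.e (nat_lit 483403) (nat_lit 26) (.e (nat_lit 385101) (nat_lit 49) .nil)))) .nil)) 
(.lf (nat_lit 205404) (.g (nat_lit 1523) (.e (nat_lit 81664) (nat_lit 32) (.e (nat_lit 2668) (nat_lit 167) (.e (nat_lit 196662) (nat_lit 13) (.e (nat_lit 65624) (nat_lit 12) (.e (nat_lit 385074) (nat_lit 31) .nil))))) .nil))) (.nd (nat_lit 6) 
(.lf (nat_lit 205372) (.g (nat_lit 589) (.e (nat_lit 81664) (nat_lit 32) (.e (nat_lit 226) (nat_lit 21) (.e (nat_lit 336432) (nat_lit 30) .nil))) .nil)) 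
(.lf (nat_lit 205436) (.g (nat_lit 1057) (.e (nat_lit 81664) (nat_lit 32) (.e (nat_lit 3077) (nat_lit 191) (.e (nat_lit 483383) (nat_lit 23) (.e (nat_lit 336332) (nat_lit 19) (.e (nat_lit 220928) (nat_lit 5) .nil))))) .nil))))))) (.nd (nat_lit 2) (.nd (nat_lit 3) (.nd (nat_lit 4) (.nd (nat_lit 5) (.nd (nat_lit 6) 
(.lf (nat_lit 205314) (.g (nat_lit 2873) (.e (nat_lit 73782) (nat_lit 32) (.e (nat_lit 3090) (nat_lit 191) (.e (nat_lit 483395) (nat_lit 24) (.e (nat_lit 344090) (nat_lit 18) (.e (nat_lit 5896) (nat_lit 320) (.e (nat_lit 7936) (nat_lit 89) .nil)))))) (.g (nat_lit 5) .nil .nil))) 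
(.lf (nat_lit 205378) (.g (nat_lit 586) (.e (nat_lit 81664) (nat_lit 32) (.e (nat_lit 347) (nat_lit 28) (.e (nat_lit 393284) (nat_lit 24) (.e (nat_lit 434241) (nat_lit 27) .nil)))) .nil))) (.nd (nat_lit 6) 
(.lf (nat_lit 205346) (.g (nat_lit 1375) (.e (nat_lit 81664) (nat_lit 32) (.e (nat_lit 100) (nat_lit 2) (.e (nat_lit 90170) (nat_lit 13) (.e (nat_lit 172079) (nat_lit 7) .nil)))) .nil)) 
(.lf (nat_lit 205410) (.g (nat_lit 1593) (.e (nat_lit 81664) (nat_lit 32) (.e (nat_lit 2668) (nat_lit 167) (.e (nat_lit 196668) (nat_lit 14) (.e (nat_lit 73789) (nat_lit 45) .nil)))) .nil)))) (.nd (nat_lit 5) (.nd (nat_lit 6) 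
(.lf (nat_lit 205330) (.g (nat_lit 2371) (.e (nat_lit 73782) (nat_lit 32) (.e (nat_lit 3090) (nat_lit 191) (.e (nat_lit 483399) (nat_lit 25) (.e (nat_lit 368662) (nat_lit 18) (.e (nat_lit 5906) (nat_lit 320) (.e (nat_lit 1211) (nat_lit 89) .nil)))))) (.g (nat_lit 5) .nil .nil))) 
(.lf (nat_lit 205394) (.g (nat_lit 663) (.e (nat_lit 81664) (nat_lit 32) (.e (nat_lit 351) (nat_lit 28) (.e (nat_lit 393293) (nat_lit 26) (.e (nat_lit 483072) (nat_lit 22) .nil)))) .nil))) (.nd (nat_lit 6) 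
(.lf (nat_lit 205362) (.g (nat_lit 2085) (.e (nat_lit 81664) (nat_lit 32) (.e (nat_lit 112) (nat_lit 3) (.e (nat_lit 98373) (nat_lit 29) (.e (nat_lit 450566) (nat_lit 0) (.e (nat_lit 6792) (nat_lit 365) .nil))))) .nil)) 
(.lf (nat_lit 205426) (.g (nat_lit 20) (.e (nat_lit 81664) (nat_lit 32) (.e (nat_lit 2862) (nat_lit 184) (.e (nat_lit 426543) (nat_lit 29) .nil))) .nil))))) (.nd (nat_lit 4) (.nd (nat_lit 5) (.nd (nat_lit 6) 
(.lf (nat_lit 205322) (.g (nat_lit 2684) (.e (nat_lit 73782) (nat_lit 32) (.e (nat_lit 3090) (nat_lit 191) (.e (nat_lit 483396) (nat_lit 24) (.e (nat_lit 344100) (nat_lit 18) (.e (nat_lit 5907) (nat_lit 320) (.e (nat_lit 1211) (nat_lit 89) .nil)))))) (.g (nat_lit 5) .nil .nil))) 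
(.lf (nat_lit 205386) (.g (nat_lit 980) (.e (nat_lit 81664) (nat_lit 32) (.e (nat_lit 348) (nat_lit 28) (.e (nat_lit 393294) (nat_lit 26) (.e (nat_lit 483072) (nat_lit 22) .nil)))) .nil))) (.nd (nat_lit 6) 
(.lf (nat_lit 205354) (.g (nat_lit 1052) (.e (nat_lit 81664) (nat_lit 32) (.e (nat_lit 112) (nat_lit 3) (.e (nat_lit 98370) (nat_lit 28) (.e (nat_lit 442421) (nat_lit 21) .nil)))) .nil)) 
(.lf (nat_lit 205418) (.g (nat_lit 1195) (.e (nat_lit 81664) (nat_lit 32) (.e (nat_lit 2685) (nat_lit 168) (.e (nat_lit 204869) (nat_lit 29) (.e (nat_lit 360451) (nat_lit 0) .nil)))) .nil)))) (.nd (nat_lit 5) (.nd (nat_lit 6) 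
(.lf (nat_lit 205338) (.g (nat_lit 2378) (.e (nat_lit 73782) (nat_lit 32) (.e (nat_lit 3090) (nat_lit 191) (.e (nat_lit 483403) (nat_lit 26) (.e (nat_lit 385099) (nat_lit 49) .nil)))) .nil)) 
(.lf (nat_lit 205402) (.g (nat_lit 1253) (.e (nat_lit 81664) (nat_lit 32) (.e (nat_lit 2668) (nat_lit 167) (.e (nat_lit 196630) (nat_lit 9) (.e (nat_lit 1462) (nat_lit 108) .nil)))) .nil))) (.nd (nat_lit 6) 
(.lf (nat_lit 205370) (.g (nat_lit 1002) (.e (nat_lit 81664) (nat_lit 32) (.e (nat_lit 217) (nat_lit 19) (.e (nat_lit 319531) (nat_lit 16) (.e (nat_lit 286756) (nat_lit 10) .nil)))) .nil)) 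
(.lf (nat_lit 205434) (.g (nat_lit 88) (.e (nat_lit 81664) (nat_lit 32) (.e (nat_lit 2941) (nat_lit 184) (.e (nat_lit 426541) (nat_lit 29) (.e (nat_lit 360192) (nat_lit 8) .nil)))) .nil)))))) (.nd (nat_lit 3) (.nd (nat_lit 4) (.nd (nat_lit 5) (.nd (nat_lit 6) 
(.lf (nat_lit 205318) (.g (nat_lit 3262) (.e (nat_lit 73782) (nat_lit 32) (.e (nat_lit 3090) (nat_lit 191) (.e (nat_lit 483395) (nat_lit 24) (.e (nat_lit 344097) (nat_lit 18) (.e (nat_lit 5907) (nat_lit 320) (.e (nat_lit 1211) (nat_lit 89) .nil)))))) (.g (nat_lit 0) .nil .nil))) 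
(.lf (nat_lit 205382) (.g (nat_lit 1426) (.e (nat_lit 81664) (nat_lit 32) (.e (nat_lit 348) (nat_lit 28) (.e (nat_lit 393271) (nat_lit 23) (.e (nat_lit 426432) (nat_lit 17) (.e (nat_lit 98048) (nat_lit 5) .nil))))) .nil))) (.nd (nat_lit 6) 
(.lf (nat_lit 205350) (.g (nat_lit 1355) (.e (nat_lit 81664) (nat_lit 32) (.e (nat_lit 100) (nat_lit 2) (.e (nat_lit 90172) (nat_lit 14) (.e (nat_lit 180285) (nat_lit 45) (.e (nat_lit 2580) (nat_lit 161) .nil))))) .nil)) 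
(.lf (nat_lit 205414) (.g (nat_lit 1837) (.e (nat_lit 81664) (nat_lit 32) (.e (nat_lit 2685) (nat_lit 168) (.e (nat_lit 204855) (nat_lit 26) (.e (nat_lit 336226) (nat_lit 14) (.e (nat_lit 401412) (nat_lit 0) .nil))))) .nil)))) (.nd (nat_lit 5) (.nd (nat_lit 6) 
(.lf (nat_lit 205334) (.g (nat_lit 1775) (.e (nat_lit 73782) (nat_lit 32) (.e (nat_lit 3090) (nat_lit 191) (.e (nat_lit 483400) (nat_lit 25) (.e (nat_lit 368662) (nat_lit 18) (.e (nat_lit 5907) (nat_lit 320) (.e (nat_lit 1211) (nat_lit 89) .nil)))))) (.g (nat_lit 4) .nil .nil))) 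
(.lf (nat_lit 205398) (.g (nat_lit 1736) (.e (nat_lit 81664) (nat_lit 32) (.e (nat_lit 352) (nat_lit 28) (.e (nat_lit 393271) (nat_lit 23) (.e (nat_lit 426428) (nat_lit 17) (.e (nat_lit 98048) (nat_lit 5) .nil))))) .nil))) (.nd (nat_lit 6) 
(.lf (nat_lit 205366) (.g (nat_lit 398) (.e (nat_lit 81664) (nat_lit 32) (.e (nat_lit 214) (nat_lit 19) (.e (nat_lit 319534) (nat_lit 16) .nil))) .nil)) 
(.lf (nat_lit 205430) (.g (nat_lit 670) (.e (nat_lit 81664) (nat_lit 32) (.e (nat_lit 2897) (nat_lit 184) (.e (nat_lit 426556) (nat_lit 32) (.e (nat_lit 376835) (nat_lit 0) (.e (nat_lit 3629) (nat_lit 227) .nil))))) .nil))))) (.nd (nat_lit 4) (.nd (nat_lit 5) (.nd (nat_lit 6) 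
(.lf (nat_lit 205326) (.g (nat_lit 2326) (.e (nat_lit 73782) (nat_lit 32) (.e (nat_lit 3090) (nat_lit 191) (.e (nat_lit 483398) (nat_lit 25) (.e (nat_lit 368662) (nat_lit 18) (.e (nat_lit 5906) (nat_lit 320) (.e (nat_lit 1211) (nat_lit 89) .nil)))))) (.g (nat_lit 5) .nil .nil))) 
(.lf (nat_lit 205390) (.g (nat_lit 1125) (.e (nat_lit 81664) (nat_lit 32) (.e (nat_lit 351) (nat_lit 28) (.e (nat_lit 393270) (nat_lit 23) (.e (nat_lit 426428) (nat_lit 17) (.e (nat_lit 98048) (nat_lit 5) .nil))))) .nil))) (.nd (nat_lit 6) 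
(.lf (nat_lit 205358) (.g (nat_lit 3304) (.e (nat_lit 81664) (nat_lit 32) (.e (nat_lit 112) (nat_lit 3) (.e (nat_lit 98373) (nat_lit 29) (.e (nat_lit 450562) (nat_lit 0) (.e (nat_lit 6806) (nat_lit 365) .nil))))) .nil)) 
(.lf (nat_lit 205422) (.g (nat_lit 387) (.e (nat_lit 81664) (nat_lit 32) (.e (nat_lit 2850) (nat_lit 184) (.e (nat_lit 426538) (nat_lit 29) (.e (nat_lit 352270) (nat_lit 8) .nil)))) .nil)))) (.nd (nat_lit 5) (.nd (nat_lit 6) 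
(.lf (nat_lit 205342) (.g (nat_lit 886) (.e (nat_lit 73782) (nat_lit 32) (.e (nat_lit 3090) (nat_lit 191) (.e (nat_lit 483404) (nat_lit 26) (.e (nat_lit 385095) (nat_lit 49) .nil)))) .nil)) 
(.lf (nat_lit 205406) (.g (nat_lit 1657) (.e (nat_lit 81664) (nat_lit 32) (.e (nat_lit 2668) (nat_lit 167) (.e (nat_lit 196666) (nat_lit 13) (.e (nat_lit 65617) (nat_lit 10) (.e (nat_lit 344096) (nat_lit 18) .nil))))) .nil))) (.nd (nat_lit 6) 
(.lf (nat_lit 205374) (.g (nat_lit 884) (.e (nat_lit 81664) (nat_lit 32) (.e (nat_lit 346) (nat_lit 28) (.e (nat_lit 393269) (nat_lit 23) (.e (nat_lit 426432) (nat_lit 17) (.e (nat_lit 98048) (nat_lit 5) .nil))))) .nil)) 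
(.lf (nat_lit 205438) (.g (nat_lit 143) (.e (nat_lit 81664) (nat_lit 32) (.e (nat_lit 3077) (nat_lit 191) (.e (nat_lit 483403) (nat_lit 26) .nil))) .nil)))))))) (.nd (nat_lit 1) (.nd (nat_lit 2) (.nd (nat_lit 3) (.nd (nat_lit 4) (.nd (nat_lit 5) (.nd (nat_lit 6) 
(.lf (nat_lit 205313) (.g (nat_lit 1446) (.e (nat_lit 73782) (nat_lit 32) (.e (nat_lit 3090) (nat_lit 191) (.e (nat_lit 483395) (nat_lit 24) (.e (nat_lit 344088) (nat_lit 18) (.e (nat_lit 5896) (nat_lit 320) .nil))))) .nil)) 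
(.lf (nat_lit 205377) (.g (nat_lit 698) (.e (nat_lit 81664) (nat_lit 32) (.e (nat_lit 347) (nat_lit 28) (.e (nat_lit 393273) (nat_lit 23) (.e (nat_lit 426364) (nat_lit 15) .nil)))) .nil))) (.nd (nat_lit 6) 
(.lf (nat_lit 205345) (.g (nat_lit 1541) (.e (nat_lit 81664) (nat_lit 32) (.e (nat_lit 99) (nat_lit 2) (.e (nat_lit 90170) (nat_lit 13) (.e (nat_lit 172113) (nat_lit 10) .nil)))) .nil)) 
(.lf (nat_lit 205409) (.g (nat_lit 3085) (.e (nat_lit 81664) (nat_lit 32) (.e (nat_lit 2668) (nat_lit 167) (.e (nat_lit 196666) (nat_lit 13) (.e (nat_lit 65630) (nat_lit 14) (.e (nat_lit 401410) (nat_lit 0) .nil))))) .nil)))) (.nd (nat_lit 5) (.nd (nat_lit 6) 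
(.lf (nat_lit 205329) (.g (nat_lit 3335) (.e (nat_lit 73782) (nat_lit 32) (.e (nat_lit 3090) (nat_lit 191) (.e (nat_lit 483399) (nat_lit 25) (.e (nat_lit 368662) (nat_lit 18) (.e (nat_lit 5906) (nat_lit 320) (.e (nat_lit 1209) (nat_lit 89) .nil)))))) (.g (nat_lit 6) .nil .nil))) 
(.lf (nat_lit 205393) (.g (nat_lit 1225) (.e (nat_lit 81664) (nat_lit 32) (.e (nat_lit 351) (nat_lit 28) (.e (nat_lit 393282) (nat_lit 24) (.e (nat_lit 434241) (nat_lit 27) (.e (nat_lit 565268) (nat_lit 5) .nil))))) .nil))) (.nd (nat_lit 6) 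
(.lf (nat_lit 205361) (.g (nat_lit 2085) (.e (nat_lit 81664) (nat_lit 32) (.e (nat_lit 112) (nat_lit 3) (.e (nat_lit 98373) (nat_lit 29) (.e (nat_lit 450566) (nat_lit 0) (.e (nat_lit 6791) (nat_lit 365) .nil))))) .nil)) 
(.lf (nat_lit 205425) (.g (nat_lit 338) (.e (nat_lit 81664) (nat_lit 32) (.e (nat_lit 2862) (nat_lit 184) (.e (nat_lit 426539) (nat_lit 29) (.e (nat_lit 352270) (nat_lit 8) (.e (nat_lit 270080) (nat_lit 5) .nil))))) .nil))))) (.nd (nat_lit 4) (.nd (nat_lit 5) (.nd (nat_lit 6) 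
(.lf (nat_lit 205321) (.g (nat_lit 3089) (.e (nat_lit 73782) (nat_lit 32) (.e (nat_lit 3090) (nat_lit 191) (.e (nat_lit 483396) (nat_lit 24) (.e (nat_lit 344100) (nat_lit 18) (.e (nat_lit 5907) (nat_lit 320) (.e (nat_lit 1209) (nat_lit 89) .nil)))))) (.g (nat_lit 6) .nil .nil))) 
(.lf (nat_lit 205385) (.g (nat_lit 47) (.e (nat_lit 81664) (nat_lit 32) (.e (nat_lit 348) (nat_lit 28) (.e (nat_lit 393293) (nat_lit 26) .nil))) .nil))) (.nd (nat_lit 6) 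
(.lf (nat_lit 205353) (.g (nat_lit 1320) (.e (nat_lit 81664) (nat_lit 32) (.e (nat_lit 103) (nat_lit 2) (.e (nat_lit 90170) (nat_lit 13) (.e (nat_lit 172113) (nat_lit 10) .nil)))) .nil)) 
(.lf (nat_lit 205417) (.g (nat_lit 1011) (.e (nat_lit 81664) (nat_lit 32) (.e (nat_lit 2685) (nat_lit 168) (.e (nat_lit 204869) (nat_lit 29) (.e (nat_lit 360450) (nat_lit 0) .nil)))) .nil)))) (.nd (nat_lit 5) (.nd (nat_lit 6) 
(.lf (nat_lit 205337) (.g (nat_lit 2644) (.e (nat_lit 73782) (nat_lit 32) (.e (nat_lit 3090) (nat_lit 191) (.e (nat_lit 483403) (nat_lit 26) (.e (nat_lit 385098) (nat_lit 49) .nil)))) .nil)) 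
(.lf (nat_lit 205401) (.g (nat_lit 1582) (.e (nat_lit 81664) (nat_lit 32) (.e (nat_lit 2663) (nat_lit 167) (.e (nat_lit 196668) (nat_lit 14) (.e (nat_lit 73782) (nat_lit 32) (.e (nat_lit 2664) (nat_lit 167) .nil))))) .nil))) (.nd (nat_lit 6) 
(.lf (nat_lit 205369) (.g (nat_lit 1741) (.e (nat_lit 81664) (nat_lit 32) (.e (nat_lit 216) (nat_lit 19) (.e (nat_lit 319534) (nat_lit 16) (.e (nat_lit 286756) (nat_lit 10) (.e (nat_lit 344177) (nat_lit 43) .nil))))) .nil)) 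
(.lf (nat_lit 205433) (.g (nat_lit 77) (.e (nat_lit 81664) (nat_lit 32) (.e (nat_lit 2940) (nat_lit 184) (.e (nat_lit 426541) (nat_lit 29) .nil))) .nil)))))) (.nd (nat_lit 3) (.nd (nat_lit 4) (.nd (nat_lit 5) (.nd (nat_lit 6) 
(.lf (nat_lit 205317) (.g (nat_lit 2487) (.e (nat_lit 73782) (nat_lit 32) (.e (nat_lit 3090) (nat_lit 191) (.e (nat_lit 483395) (nat_lit 24) (.e (nat_lit 344097) (nat_lit 18) (.e (nat_lit 5906) (nat_lit 320) (.e (nat_lit 1211) (nat_lit 89) .nil)))))) (.g (nat_lit 5) .nil .nil))) 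
(.lf (nat_lit 205381) (.g (nat_lit 1415) (.e (nat_lit 81664) (nat_lit 32) (.e (nat_lit 348) (nat_lit 28) (.e (nat_lit 393271) (nat_lit 23) (.e (nat_lit 426428) (nat_lit 17) (.e (nat_lit 98048) (nat_lit 5) .nil))))) .nil))) (.nd (nat_lit 6) 
(.lf (nat_lit 205349) (.g (nat_lit 1284) (.e (nat_lit 81664) (nat_lit 32) (.e (nat_lit 100) (nat_lit 2) (.e (nat_lit 90172) (nat_lit 14) (.e (nat_lit 180285) (nat_lit 45) (.e (nat_lit 2579) (nat_lit 161) .nil))))) .nil)) 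
(.lf (nat_lit 205413) (.g (nat_lit 445) (.e (nat_lit 81664) (nat_lit 32) (.e (nat_lit 2668) (nat_lit 167) (.e (nat_lit 196683) (nat_lit 18) .nil))) .nil)))) (.nd (nat_lit 5) (.nd (nat_lit 6) 
(.lf (nat_lit 205333) (.g (nat_lit 2748) (.e (nat_lit 73782) (nat_lit 32) (.e (nat_lit 3090) (nat_lit 191) (.e (nat_lit 483399) (nat_lit 25) (.e (nat_lit 368662) (nat_lit 18) (.e (nat_lit 5907) (nat_lit 320) (.e (nat_lit 1211) (nat_lit 89) .nil)))))) (.g (nat_lit 6) .nil .nil))) 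
(.lf (nat_lit 205397) (.g (nat_lit 1981) (.e (nat_lit 81664) (nat_lit 32) (.e (nat_lit 352) (nat_lit 28) (.e (nat_lit 393268) (nat_lit 23) (.e (nat_lit 426428) (nat_lit 17) (.e (nat_lit 98048) (nat_lit 5) .nil))))) .nil))) (.nd (nat_lit 6) 
(.lf (nat_lit 205365) (.g (nat_lit 1752) (.e (nat_lit 81664) (nat_lit 32) (.e (nat_lit 214) (nat_lit 19) (.e (nat_lit 319533) (nat_lit 16) (.e (nat_lit 286753) (nat_lit 10) .nil)))) .nil)) 
(.lf (nat_lit 205429) (.g (nat_lit 1219) (.e (nat_lit 81664) (nat_lit 32) (.e (nat_lit 2887) (nat_lit 184) (.e (nat_lit 426499) (nat_lit 27) (.e (nat_lit 336196) (nat_lit 12) .nil)))) .nil))))) (.nd (nat_lit 4) (.nd (nat_lit 5) (.nd (nat_lit 6) 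
(.lf (nat_lit 205325) (.g (nat_lit 1901) (.e (nat_lit 73782) (nat_lit 32) (.e (nat_lit 3090) (nat_lit 191) (.e (nat_lit 483398) (nat_lit 25) (.e (nat_lit 368662) (nat_lit 18) (.e (nat_lit 5905) (nat_lit 320) (.e (nat_lit 1211) (nat_lit 89) .nil)))))) (.g (nat_lit 4) .nil .nil))) 
(.lf (nat_lit 205389) (.g (nat_lit 1431) (.e (nat_lit 81664) (nat_lit 32) (.e (nat_lit 351) (nat_lit 28) (.e (nat_lit 393260) (nat_lit 21) (.e (nat_lit 409615) (nat_lit 10) .nil)))) .nil))) (.nd (nat_lit 6) 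
(.lf (nat_lit 205357) (.g (nat_lit 1799) (.e (nat_lit 81664) (nat_lit 32) (.e (nat_lit 112) (nat_lit 3) (.e (nat_lit 98373) (nat_lit 29) (.e (nat_lit 450560) (nat_lit 0) .nil)))) .nil)) 
(.lf (nat_lit 205421) (.g (nat_lit 1558) (.e (nat_lit 81664) (nat_lit 32) (.e (nat_lit 2848) (nat_lit 184) (.e (nat_lit 426542) (nat_lit 29) (.e (nat_lit 352267) (nat_lit 0) (.e (nat_lit 3632) (nat_lit 227) .nil))))) .nil)))) (.nd (nat_lit 5) (.nd (nat_lit 6) 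
(.lf (nat_lit 205341) (.g (nat_lit 1909) (.e (nat_lit 73782) (nat_lit 32) (.e (nat_lit 3090) (nat_lit 191) (.e (nat_lit 483403) (nat_lit 26) (.e (nat_lit 392960) (nat_lit 49) .nil)))) .nil)) 
(.lf (nat_lit 205405) (.g (nat_lit 2506) (.e (nat_lit 81664) (nat_lit 32) (.e (nat_lit 2668) (nat_lit 167) (.e (nat_lit 196666) (nat_lit 13) (.e (nat_lit 65586) (nat_lit 7) (.e (nat_lit 319500) (nat_lit 10) .nil))))) .nil))) (.nd (nat_lit 6) 
(.lf (nat_lit 205373) (.g (nat_lit 519) (.e (nat_lit 81664) (nat_lit 32) (.e (nat_lit 226) (nat_lit 21) (.e (nat_lit 336434) (nat_lit 30) .nil))) .nil)) 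
(.lf (nat_lit 205437) (.g (nat_lit 876) (.e (nat_lit 81664) (nat_lit 32) (.e (nat_lit 3077) (nat_lit 191) (.e (nat_lit 483385) (nat_lit 23) (.e (nat_lit 336332) (nat_lit 19) (.e (nat_lit 220928) (nat_lit 5) .nil))))) .nil))))))) (.nd (nat_lit 2) (.nd (nat_lit 3) (.nd (nat_lit 4) (.nd (nat_lit 5) (.nd (nat_lit 6) 
(.lf (nat_lit 205315) (.g (nat_lit 1598) (.e (nat_lit 73782) (nat_lit 32) (.e (nat_lit 3090) (nat_lit 191) (.e (nat_lit 483395) (nat_lit 24) (.e (nat_lit 344096) (nat_lit 18) (.e (nat_lit 5896) (nat_lit 320) .nil))))) .nil)) 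
(.lf (nat_lit 205379) (.g (nat_lit 1802) (.e (nat_lit 81664) (nat_lit 32) (.e (nat_lit 347) (nat_lit 28) (.e (nat_lit 393291) (nat_lit 26) (.e (nat_lit 475169) (nat_lit 22) (.e (nat_lit 507648) (nat_lit 19) .nil))))) .nil))) (.nd (nat_lit 6) 
(.lf (nat_lit 205347) (.g (nat_lit 1215) (.e (nat_lit 81664) (nat_lit 32) (.e (nat_lit 100) (nat_lit 2) (.e (nat_lit 90170) (nat_lit 13) (.e (nat_lit 172113) (nat_lit 10) .nil)))) .nil)) 
(.lf (nat_lit 205411) (.g (nat_lit 1651) (.e (nat_lit 81664) (nat_lit 32) (.e (nat_lit 2668) (nat_lit 167) (.e (nat_lit 196672) (nat_lit 15) (.e (nat_lit 81943) (nat_lit 20) (.e (nat_lit 1842) (nat_lit 123) .nil))))) .nil)))) (.nd (nat_lit 5) (.nd (nat_lit 6) 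
(.lf (nat_lit 205331) (.g (nat_lit 3023) (.e (nat_lit 73782) (nat_lit 32) (.e (nat_lit 3090) (nat_lit 191) (.e (nat_lit 483399) (nat_lit 25) (.e (nat_lit 368662) (nat_lit 18) (.e (nat_lit 5907) (nat_lit 320) (.e (nat_lit 1209) (nat_lit 89) .nil)))))) (.g (nat_lit 6) .nil .nil))) 
(.lf (nat_lit 205395) (.g (nat_lit 1365) (.e (nat_lit 81664) (nat_lit 32) (.e (nat_lit 351) (nat_lit 28) (.e (nat_lit 393299) (nat_lit 27) (.e (nat_lit 499456) (nat_lit 17) .nil)))) .nil))) (.nd (nat_lit 6) 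
(.lf (nat_lit 205363) (.g (nat_lit 1407) (.e (nat_lit 81664) (nat_lit 32) (.e (nat_lit 112) (nat_lit 3) (.e (nat_lit 98373) (nat_lit 29) (.e (nat_lit 450605) (nat_lit 27) (.e (nat_lit 745492) (nat_lit 5) .nil))))) .nil)) 
(.lf (nat_lit 205427) (.g (nat_lit 2483) (.e (nat_lit 81664) (nat_lit 32) (.e (nat_lit 2887) (nat_lit 184) (.e (nat_lit 426499) (nat_lit 27) (.e (nat_lit 336193) (nat_lit 12) (.e (nat_lit 385094) (nat_lit 49) .nil))))) .nil))))) (.nd (nat_lit 4) (.nd (nat_lit 5) (.nd (nat_lit 6) 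
(.lf (nat_lit 205323) (.g (nat_lit 996) (.e (nat_lit 73782) (nat_lit 32) (.e (nat_lit 3090) (nat_lit 191) (.e (nat_lit 483396) (nat_lit 24) (.e (nat_lit 344167) (nat_lit 40) .nil)))) .nil)) 
(.lf (nat_lit 205387) (.g (nat_lit 1672) (.e (nat_lit 81664) (nat_lit 32) (.e (nat_lit 351) (nat_lit 28) (.e (nat_lit 393260) (nat_lit 21) (.e (nat_lit 409612) (nat_lit 10) .nil)))) .nil))) (.nd (nat_lit 6) 
(.lf (nat_lit 205355) (.g (nat_lit 2006) (.e (nat_lit 81664) (nat_lit 32) (.e (nat_lit 112) (nat_lit 3) (.e (nat_lit 98370) (nat_lit 28) (.e (nat_lit 442430) (nat_lit 24) (.e (nat_lit 229559) (nat_lit 158) .nil))))) .nil)) 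
(.lf (nat_lit 205419) (.g (nat_lit 2731) (.e (nat_lit 81664) (nat_lit 32) (.e (nat_lit 2685) (nat_lit 168) (.e (nat_lit 204869) (nat_lit 29) (.e (nat_lit 360451) (nat_lit 0) (.e (nat_lit 3928) (nat_lit 239) .nil))))) .nil)))) (.nd (nat_lit 5) (.nd (nat_lit 6) 
(.lf (nat_lit 205339) (.g (nat_lit 1343) (.e (nat_lit 73782) (nat_lit 32) (.e (nat_lit 3090) (nat_lit 191) (.e (nat_lit 483403) (nat_lit 26) (.e (nat_lit 385100) (nat_lit 49) .nil)))) .nil)) 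
(.lf (nat_lit 205403) (.g (nat_lit 1342) (.e (nat_lit 81664) (nat_lit 32) (.e (nat_lit 2668) (nat_lit 167) (.e (nat_lit 196630) (nat_lit 9) (.e (nat_lit 1485) (nat_lit 108) .nil)))) .nil))) (.nd (nat_lit 6) 
(.lf (nat_lit 205371) (.g (nat_lit 1255) (.e (nat_lit 81664) (nat_lit 32) (.e (nat_lit 226) (nat_lit 21) (.e (nat_lit 336428) (nat_lit 29) (.e (nat_lit 442381) (nat_lit 7) .nil)))) .nil)) 
(.lf (nat_lit 205435) (.g (nat_lit 1075) (.e (nat_lit 81664) (nat_lit 32) (.e (nat_lit 3077) (nat_lit 191) (.e (nat_lit 483380) (nat_lit 23) (.e (nat_lit 336332) (nat_lit 19) (.e (nat_lit 220928) (nat_lit 5) .nil))))) .nil)))))) (.nd (nat_lit 3) (.nd (nat_lit 4) (.nd (nat_lit 5) (.nd (nat_lit 6) 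
(.lf (nat_lit 205319) (.g (nat_lit 991) (.e (nat_lit 73782) (nat_lit 32) (.e (nat_lit 3090) (nat_lit 191) (.e (nat_lit 483396) (nat_lit 24) (.e (nat_lit 344093) (nat_lit 18) .nil)))) .nil)) 
(.lf (nat_lit 205383) (.g (nat_lit 956) (.e (nat_lit 81664) (nat_lit 32) (.e (nat_lit 348) (nat_lit 28) (.e (nat_lit 393273) (nat_lit 23) (.e (nat_lit 426432) (nat_lit 17) (.e (nat_lit 98048) (nat_lit 5) .nil))))) .nil))) (.nd (nat_lit 6) 
(.lf (nat_lit 205351) (.g (nat_lit 1901) (.e (nat_lit 81664) (nat_lit 32) (.e (nat_lit 100) (nat_lit 2) (.e (nat_lit 90174) (nat_lit 14) (.e (nat_lit 180288) (nat_lit 45) (.e (nat_lit 2579) (nat_lit 161) .nil))))) .nil)) 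
(.lf (nat_lit 205415) (.g (nat_lit 768) (.e (nat_lit 81664) (nat_lit 32) (.e (nat_lit 2685) (nat_lit 168) (.e (nat_lit 204866) (nat_lit 28) (.e (nat_lit 360192) (nat_lit 1) .nil)))) .nil)))) (.nd (nat_lit 5) (.nd (nat_lit 6) 
(.lf (nat_lit 205335) (.g (nat_lit 1652) (.e (nat_lit 73782) (nat_lit 32) (.e (nat_lit 3090) (nat_lit 191) (.e (nat_lit 483403) (nat_lit 26) (.e (nat_lit 385091) (nat_lit 49) (.e (nat_lit 778323) (nat_lit 5) .nil))))) .nil)) 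
(.lf (nat_lit 205399) (.g (nat_lit 1002) (.e (nat_lit 81664) (nat_lit 32) (.e (nat_lit 352) (nat_lit 28) (.e (nat_lit 393283) (nat_lit 24) (.e (nat_lit 434241) (nat_lit 27) (.e (nat_lit 565268) (nat_lit 5) .nil))))) .nil))) (.nd (nat_lit 6) 
(.lf (nat_lit 205367) (.g (nat_lit 1326) (.e (nat_lit 81664) (nat_lit 32) (.e (nat_lit 216) (nat_lit 19) (.e (nat_lit 319533) (nat_lit 16) (.e (nat_lit 286753) (nat_lit 10) (.e (nat_lit 344174) (nat_lit 42) .nil))))) .nil)) 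
(.lf (nat_lit 205431) (.g (nat_lit 123) (.e (nat_lit 81664) (nat_lit 32) (.e (nat_lit 2898) (nat_lit 184) (.e (nat_lit 426554) (nat_lit 32) (.e (nat_lit 384768) (nat_lit 4) .nil)))) .nil))))) (.nd (nat_lit 4) (.nd (nat_lit 5) (.nd (nat_lit 6) 
(.lf (nat_lit 205327) (.g (nat_lit 1797) (.e (nat_lit 73782) (nat_lit 32) (.e (nat_lit 3090) (nat_lit 191) (.e (nat_lit 483398) (nat_lit 25) (.e (nat_lit 368662) (nat_lit 18) (.e (nat_lit 5907) (nat_lit 320) (.e (nat_lit 1210) (nat_lit 89) .nil)))))) (.g (nat_lit 4) .nil .nil))) 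
(.lf (nat_lit 205391) (.g (nat_lit 683) (.e (nat_lit 81664) (nat_lit 32) (.e (nat_lit 351) (nat_lit 28) (.e (nat_lit 393270) (nat_lit 23) (.e (nat_lit 426430) (nat_lit 17) (.e (nat_lit 98048) (nat_lit 5) .nil))))) .nil))) (.nd (nat_lit 6) 
(.lf (nat_lit 205359) (.g (nat_lit 2852) (.e (nat_lit 81664) (nat_lit 32) (.e (nat_lit 112) (nat_lit 3) (.e (nat_lit 98373) (nat_lit 29) (.e (nat_lit 450562) (nat_lit 0) (.e (nat_lit 6808) (nat_lit 365) .nil))))) .nil)) 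
(.lf (nat_lit 205423) (.g (nat_lit 299) (.e (nat_lit 81664) (nat_lit 32) (.e (nat_lit 2862) (nat_lit 184) (.e (nat_lit 426538) (nat_lit 29) (.e (nat_lit 360192) (nat_lit 4) .nil)))) .nil)))) (.nd (nat_lit 5) (.nd (nat_lit 6) 
(.lf (nat_lit 205343) (.g (nat_lit 1804) (.e (nat_lit 73782) (nat_lit 32) (.e (nat_lit 3090) (nat_lit 191) (.e (nat_lit 483406) (nat_lit 26) (.e (nat_lit 385091) (nat_lit 49) (.e (nat_lit 778323) (nat_lit 5) .nil))))) .nil)) 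
(.lf (nat_lit 205407) (.g (nat_lit 2341) (.e (nat_lit 81664) (nat_lit 32) (.e (nat_lit 2668) (nat_lit 167) (.e (nat_lit 196666) (nat_lit 13) (.e (nat_lit 65619) (nat_lit 10) .nil)))) .nil))) (.nd (nat_lit 6) 
(.lf (nat_lit 205375) (.g (nat_lit 1733) (.e (nat_lit 81664) (nat_lit 32) (.e (nat_lit 346) (nat_lit 28) (.e (nat_lit 393291) (nat_lit 26) (.e (nat_lit 475169) (nat_lit 22) (.e (nat_lit 507648) (nat_lit 19) .nil))))) .nil)) 
(.lf (nat_lit 205439) (.g (nat_lit 722) (.e (nat_lit 81664) (nat_lit 32) (.e (nat_lit 3077) (nat_lit 191) (.e (nat_lit 483403) (nat_lit 26) (.e (nat_lit 385096) (nat_lit 49) (.e (nat_lit 786176) (nat_lit 5) .nil))))) .nil)))))))))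

noncomputable def tv2710 : DT := (.nd (nat_lit 0) (.nd (nat_lit 1) (.nd (nat_lit 2) (.nd (nat_lit 3) (.nd (nat_lit 4) (.nd (nat_lit 5) (.nd (nat_lit 6) 
(.lf (nat_lit 205440) (.g (nat_lit 1153) (.e (nat_lit 81664) (nat_lit 32) (.e (nat_lit 3077) (nat_lit 191) (.e (nat_lit 483406) (nat_lit 26) (.e (nat_lit 385091) (nat_lit 49) (.e (nat_lit 778324) (nat_lit 5) .nil))))) .nil)) 
(.lf (nat_lit 205504) (.g (nat_lit 1769) (.e (nat_lit 81664) (nat_lit 34) (.e (nat_lit 24679) (nat_lit 27) (.e (nat_lit 426187) (nat_lit 9) (.e (nat_lit 426432) (nat_lit 17) (.e (nat_lit 98048) (nat_lit 5) .nil))))) .nil))) (.nd (nat_lit 6) 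
(.lf (nat_lit 205472) (.g (nat_lit 926) (.e (nat_lit 81664) (nat_lit 34) (.e (nat_lit 24675) (nat_lit 27) (.e (nat_lit 426186) (nat_lit 9) (.e (nat_lit 426432) (nat_lit 17) (.e (nat_lit 98048) (nat_lit 5) .nil))))) .nil)) 
(.lf (nat_lit 205536) (.g (nat_lit 2042) (.e (nat_lit 81664) (nat_lit 35) (.e (nat_lit 163962) (nat_lit 25) (.e (nat_lit 532535) (nat_lit 9) (.e (nat_lit 336061) (nat_lit 7) (.e (nat_lit 327424) (nat_lit 10) .nil))))) .nil)))) (.nd (nat_lit 5) (.nd (nat_lit 6) 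
(.lf (nat_lit 205456) (.g (nat_lit 900) (.e (nat_lit 81664) (nat_lit 32) (.e (nat_lit 3085) (nat_lit 191) (.e (nat_lit 483405) (nat_lit 26) (.e (nat_lit 385100) (nat_lit 49) .nil)))) .nil)) 
(.lf (nat_lit 205520) (.g (nat_lit 1728) (.e (nat_lit 81664) (nat_lit 34) (.e (nat_lit 24679) (nat_lit 27) (.e (nat_lit 426200) (nat_lit 9) (.e (nat_lit 426432) (nat_lit 17) (.e (nat_lit 98048) (nat_lit 5) .nil))))) .nil))) (.nd (nat_lit 6) 
(.lf (nat_lit 205488) (.g (nat_lit 853) (.e (nat_lit 81664) (nat_lit 34) (.e (nat_lit 24675) (nat_lit 27) (.e (nat_lit 426308) (nat_lit 12) (.e (nat_lit 483072) (nat_lit 22) .nil)))) .nil)) 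
(.lf (nat_lit 205552) (.g (nat_lit 1507) (.e (nat_lit 81664) (nat_lit 35) (.e (nat_lit 163962) (nat_lit 25) (.e (nat_lit 532550) (nat_lit 12) (.e (nat_lit 360457) (nat_lit 0) (.e (nat_lit 3962) (nat_lit 239) .nil))))) .nil))))) (.nd (nat_lit 4) (.nd (nat_lit 5) (.nd (nat_lit 6) 
(.lf (nat_lit 205448) (.g (nat_lit 1929) (.e (nat_lit 81664) (nat_lit 32) (.e (nat_lit 3083) (nat_lit 191) (.e (nat_lit 483403) (nat_lit 26) (.e (nat_lit 385094) (nat_lit 49) (.e (nat_lit 778323) (nat_lit 5) .nil))))) .nil)) 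
(.lf (nat_lit 205512) (.g (nat_lit 559) (.e (nat_lit 81664) (nat_lit 34) (.e (nat_lit 24679) (nat_lit 27) (.e (nat_lit 426197) (nat_lit 9) .nil))) .nil))) (.nd (nat_lit 6) 
(.lf (nat_lit 205480) (.g (nat_lit 1406) (.e (nat_lit 81664) (nat_lit 34) (.e (nat_lit 24675) (nat_lit 27) (.e (nat_lit 426199) (nat_lit 9) (.e (nat_lit 426432) (nat_lit 17) (.e (nat_lit 98048) (nat_lit 5) .nil))))) .nil)) 
(.lf (nat_lit 205544) (.g (nat_lit 2000) (.e (nat_lit 81664) (nat_lit 35) (.e (nat_lit 163962) (nat_lit 25) (.e (nat_lit 532535) (nat_lit 9) (.e (nat_lit 336178) (nat_lit 10) .nil)))) .nil)))) (.nd (nat_lit 5) (.nd (nat_lit 6) 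
(.lf (nat_lit 205464) (.g (nat_lit 1747) (.e (nat_lit 81664) (nat_lit 33) (.e (nat_lit 8318) (nat_lit 64) (.e (nat_lit 516151) (nat_lit 9) (.e (nat_lit 426170) (nat_lit 7) .nil)))) .nil)) 
(.lf (nat_lit 205528) (.g (nat_lit 264) (.e (nat_lit 81664) (nat_lit 35) (.e (nat_lit 163950) (nat_lit 21) (.e (nat_lit 500073) (nat_lit 19) .nil))) .nil))) (.nd (nat_lit 6) 
(.lf (nat_lit 205496) (.g (nat_lit 456) (.e (nat_lit 81664) (nat_lit 34) (.e (nat_lit 24677) (nat_lit 27) (.e (nat_lit 426232) (nat_lit 9) (.e (nat_lit 426431) (nat_lit 17) (.e (nat_lit 98048) (nat_lit 5) .nil))))) .nil)) 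
(.lf (nat_lit 205560) (.g (nat_lit 1661) (.e (nat_lit 81664) (nat_lit 35) (.e (nat_lit 163978) (nat_lit 30) (.e (nat_lit 573489) (nat_lit 14) (.e (nat_lit 73768) (nat_lit 19) .nil)))) .nil)))))) (.nd (nat_lit 3) (.nd (nat_lit 4) (.nd (nat_lit 5) (.nd (nat_lit 6) 
(.lf (nat_lit 205444) (.g (nat_lit 1540) (.e (nat_lit 81664) (nat_lit 32) (.e (nat_lit 3077) (nat_lit 191) (.e (nat_lit 483408) (nat_lit 26) (.e (nat_lit 385093) (nat_lit 49) (.e (nat_lit 778324) (nat_lit 5) .nil))))) .nil)) 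
(.lf (nat_lit 205508) (.g (nat_lit 1469) (.e (nat_lit 81664) (nat_lit 34) (.e (nat_lit 24679) (nat_lit 27) (.e (nat_lit 426189) (nat_lit 9) (.e (nat_lit 426432) (nat_lit 17) (.e (nat_lit 98048) (nat_lit 5) .nil))))) .nil))) (.nd (nat_lit 6) 
(.lf (nat_lit 205476) (.g (nat_lit 217) (.e (nat_lit 81664) (nat_lit 34) (.e (nat_lit 24675) (nat_lit 27) (.e (nat_lit 426189) (nat_lit 9) .nil))) .nil)) 
(.lf (nat_lit 205540) (.g (nat_lit 2120) (.e (nat_lit 81664) (nat_lit 35) (.e (nat_lit 163962) (nat_lit 25) (.e (nat_lit 532535) (nat_lit 9) (.e (nat_lit 336171) (nat_lit 10) .nil)))) .nil)))) (.nd (nat_lit 5) (.nd (nat_lit 6) 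
(.lf (nat_lit 205460) (.g (nat_lit 1477) (.e (nat_lit 81664) (nat_lit 32) (.e (nat_lit 3092) (nat_lit 191) (.e (nat_lit 483406) (nat_lit 26) (.e (nat_lit 385094) (nat_lit 49) (.e (nat_lit 778324) (nat_lit 5) .nil))))) .nil)) 
(.lf (nat_lit 205524) (.g (nat_lit 502) (.e (nat_lit 81664) (nat_lit 34) (.e (nat_lit 24679) (nat_lit 27) (.e (nat_lit 426314) (nat_lit 12) .nil))) .nil))) (.nd (nat_lit 6) 
(.lf (nat_lit 205492) (.g (nat_lit 1290) (.e (nat_lit 81664) (nat_lit 34) (.e (nat_lit 24675) (nat_lit 27) (.e (nat_lit 426316) (nat_lit 12) (.e (nat_lit 483072) (nat_lit 22) .nil)))) .nil)) 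
(.lf (nat_lit 205556) (.g (nat_lit 1447) (.e (nat_lit 81664) (nat_lit 35) (.e (nat_lit 163977) (nat_lit 30) (.e (nat_lit 573489) (nat_lit 14) (.e (nat_lit 73767) (nat_lit 19) .nil)))) .nil))))) (.nd (nat_lit 4) (.nd (nat_lit 5) (.nd (nat_lit 6) 
(.lf (nat_lit 205452) (.g (nat_lit 469) (.e (nat_lit 81664) (nat_lit 32) (.e (nat_lit 3085) (nat_lit 191) (.e (nat_lit 483382) (nat_lit 23) .nil))) .nil)) 
(.lf (nat_lit 205516) (.g (nat_lit 1669) (.e (nat_lit 81664) (nat_lit 34) (.e (nat_lit 24679) (nat_lit 27) (.e (nat_lit 426198) (nat_lit 9) (.e (nat_lit 426432) (nat_lit 17) (.e (nat_lit 98048) (nat_lit 5) .nil))))) .nil))) (.nd (nat_lit 6) 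
(.lf (nat_lit 205484) (.g (nat_lit 733) (.e (nat_lit 81664) (nat_lit 34) (.e (nat_lit 24675) (nat_lit 27) (.e (nat_lit 426275) (nat_lit 10) (.e (nat_lit 434241) (nat_lit 27) .nil)))) .nil)) 
(.lf (nat_lit 205548) (.g (nat_lit 1536) (.e (nat_lit 81664) (nat_lit 35) (.e (nat_lit 163962) (nat_lit 25) (.e (nat_lit 532547) (nat_lit 11) (.e (nat_lit 352318) (nat_lit 24) (.e (nat_lit 130816) (nat_lit 140) .nil))))) .nil)))) (.nd (nat_lit 5) (.nd (nat_lit 6) 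
(.lf (nat_lit 205468) (.g (nat_lit 1098) (.e (nat_lit 81664) (nat_lit 33) (.e (nat_lit 8318) (nat_lit 64) (.e (nat_lit 516176) (nat_lit 14) (.e (nat_lit 466967) (nat_lit 20) .nil)))) .nil)) 
(.lf (nat_lit 205532) (.g (nat_lit 860) (.e (nat_lit 81664) (nat_lit 35) (.e (nat_lit 163962) (nat_lit 25) (.e (nat_lit 532514) (nat_lit 3) (.e (nat_lit 114723) (nat_lit 24) (.e (nat_lit 106532) (nat_lit 10) .nil))))) .nil))) (.nd (nat_lit 6) 
(.lf (nat_lit 205500) (.g (nat_lit 1230) (.e (nat_lit 81664) (nat_lit 34) (.e (nat_lit 24678) (nat_lit 27) (.e (nat_lit 426187) (nat_lit 9) (.e (nat_lit 426432) (nat_lit 17) (.e (nat_lit 98048) (nat_lit 5) .nil))))) .nil)) 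
(.lf (nat_lit 205564) (.g (nat_lit 951) (.e (nat_lit 81664) (nat_lit 35) (.e (nat_lit 163979) (nat_lit 30) (.e (nat_lit 573489) (nat_lit 14) (.e (nat_lit 73768) (nat_lit 19) .nil)))) .nil))))))) (.nd (nat_lit 2) (.nd (nat_lit 3) (.nd (nat_lit 4) (.nd (nat_lit 5) (.nd (nat_lit 6) 
(.lf (nat_lit 205442) (.g (nat_lit 1284) (.e (nat_lit 81664) (nat_lit 32) (.e (nat_lit 3077) (nat_lit 191) (.e (nat_lit 483406) (nat_lit 26) (.e (nat_lit 385095) (nat_lit 49) .nil)))) .nil)) 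
(.lf (nat_lit 205506) (.g (nat_lit 1703) (.e (nat_lit 81664) (nat_lit 34) (.e (nat_lit 24679) (nat_lit 27) (.e (nat_lit 426188) (nat_lit 9) (.e (nat_lit 426432) (nat_lit 17) (.e (nat_lit 98048) (nat_lit 5) .nil))))) .nil))) (.nd (nat_lit 6) 
(.lf (nat_lit 205474) (.g (nat_lit 1847) (.e (nat_lit 81664) (nat_lit 34) (.e (nat_lit 24675) (nat_lit 27) (.e (nat_lit 426188) (nat_lit 9) (.e (nat_lit 426428) (nat_lit 17) (.e (nat_lit 98048) (nat_lit 5) .nil))))) .nil)) 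
(.lf (nat_lit 205538) (.g (nat_lit 2856) (.e (nat_lit 81664) (nat_lit 35) (.e (nat_lit 163962) (nat_lit 25) (.e (nat_lit 532535) (nat_lit 9) (.e (nat_lit 336163) (nat_lit 10) (.e (nat_lit 344126) (nat_lit 25) .nil))))) .nil)))) (.nd (nat_lit 5) (.nd (nat_lit 6) 
(.lf (nat_lit 205458) (.g (nat_lit 430) (.e (nat_lit 81664) (nat_lit 32) (.e (nat_lit 3092) (nat_lit 191) (.e (nat_lit 483402) (nat_lit 26) (.e (nat_lit 385093) (nat_lit 49) .nil)))) .nil)) 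
(.lf (nat_lit 205522) (.g (nat_lit 408) (.e (nat_lit 81664) (nat_lit 34) (.e (nat_lit 24679) (nat_lit 27) (.e (nat_lit 426308) (nat_lit 12) .nil))) .nil))) (.nd (nat_lit 6) 
(.lf (nat_lit 205490) (.g (nat_lit 1951) (.e (nat_lit 81664) (nat_lit 34) (.e (nat_lit 24675) (nat_lit 27) (.e (nat_lit 426316) (nat_lit 12) (.e (nat_lit 475169) (nat_lit 22) (.e (nat_lit 507648) (nat_lit 19) .nil))))) .nil)) 
(.lf (nat_lit 205554) (.g (nat_lit 930) (.e (nat_lit 81664) (nat_lit 35) (.e (nat_lit 163977) (nat_lit 30) (.e (nat_lit 573487) (nat_lit 14) (.e (nat_lit 73766) (nat_lit 19) .nil)))) .nil))))) (.nd (nat_lit 4) (.nd (nat_lit 5) (.nd (nat_lit 6) 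
(.lf (nat_lit 205450) (.g (nat_lit 1318) (.e (nat_lit 81664) (nat_lit 32) (.e (nat_lit 3085) (nat_lit 191) (.e (nat_lit 483346) (nat_lit 17) (.e (nat_lit 6203) (nat_lit 332) .nil)))) .nil)) 
(.lf (nat_lit 205514) (.g (nat_lit 1489) (.e (nat_lit 81664) (nat_lit 34) (.e (nat_lit 24679) (nat_lit 27) (.e (nat_lit 426197) (nat_lit 9) (.e (nat_lit 426432) (nat_lit 17) (.e (nat_lit 98048) (nat_lit 5) .nil))))) .nil))) (.nd (nat_lit 6) 
(.lf (nat_lit 205482) (.g (nat_lit 1847) (.e (nat_lit 81664) (nat_lit 34) (.e (nat_lit 24675) (nat_lit 27) (.e (nat_lit 426200) (nat_lit 9) (.e (nat_lit 426432) (nat_lit 17) (.e (nat_lit 98048) (nat_lit 5) .nil))))) .nil)) 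
(.lf (nat_lit 205546) (.g (nat_lit 1033) (.e (nat_lit 81664) (nat_lit 35) (.e (nat_lit 163962) (nat_lit 25) (.e (nat_lit 532544) (nat_lit 10) (.e (nat_lit 352000) (nat_lit 3) .nil)))) .nil)))) (.nd (nat_lit 5) (.nd (nat_lit 6) 
(.lf (nat_lit 205466) (.g (nat_lit 3508) (.e (nat_lit 81664) (nat_lit 33) (.e (nat_lit 8318) (nat_lit 64) (.e (nat_lit 516151) (nat_lit 9) (.e (nat_lit 426285) (nat_lit 10) (.e (nat_lit 434295) (nat_lit 49) .nil))))) .nil)) 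
(.lf (nat_lit 205530) (.g (nat_lit 1092) (.e (nat_lit 81664) (nat_lit 35) (.e (nat_lit 163962) (nat_lit 25) (.e (nat_lit 532513) (nat_lit 3) (.e (nat_lit 114721) (nat_lit 24) .nil)))) .nil))) (.nd (nat_lit 6) 
(.lf (nat_lit 205498) (.g (nat_lit 485) (.e (nat_lit 81664) (nat_lit 34) (.e (nat_lit 24677) (nat_lit 27) (.e (nat_lit 426260) (nat_lit 9) (.e (nat_lit 426431) (nat_lit 17) (.e (nat_lit 98048) (nat_lit 5) .nil))))) .nil)) 
(.lf (nat_lit 205562) (.g (nat_lit 2488) (.e (nat_lit 81664) (nat_lit 35) (.e (nat_lit 163978) (nat_lit 30) (.e (nat_lit 573489) (nat_lit 14) (.e (nat_lit 73768) (nat_lit 19) (.e (nat_lit 647196) (nat_lit 9) .nil))))) .nil)))))) (.nd (nat_lit 3) (.nd (nat_lit 4) (.nd (nat_lit 5) (.nd (nat_lit 6) 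
(.lf (nat_lit 205446) (.g (nat_lit 1106) (.e (nat_lit 81664) (nat_lit 32) (.e (nat_lit 3082) (nat_lit 191) (.e (nat_lit 483403) (nat_lit 26) (.e (nat_lit 385094) (nat_lit 49) .nil)))) .nil)) 
(.lf (nat_lit 205510) (.g (nat_lit 1375) (.e (nat_lit 81664) (nat_lit 34) (.e (nat_lit 24679) (nat_lit 27) (.e (nat_lit 426190) (nat_lit 9) (.e (nat_lit 426430) (nat_lit 17) (.e (nat_lit 98048) (nat_lit 5) .nil))))) .nil))) (.nd (nat_lit 6) 
(.lf (nat_lit 205478) (.g (nat_lit 217) (.e (nat_lit 81664) (nat_lit 34) (.e (nat_lit 24675) (nat_lit 27) (.e (nat_lit 426198) (nat_lit 9) .nil))) .nil)) 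
(.lf (nat_lit 205542) (.g (nat_lit 1956) (.e (nat_lit 81664) (nat_lit 35) (.e (nat_lit 163962) (nat_lit 25) (.e (nat_lit 532535) (nat_lit 9) (.e (nat_lit 336176) (nat_lit 10) (.e (nat_lit 344091) (nat_lit 18) .nil))))) .nil)))) (.nd (nat_lit 5) (.nd (nat_lit 6) 
(.lf (nat_lit 205462) (.g (nat_lit 1296) (.e (nat_lit 81664) (nat_lit 32) (.e (nat_lit 3094) (nat_lit 191) (.e (nat_lit 483406) (nat_lit 26) (.e (nat_lit 385092) (nat_lit 49) .nil)))) .nil)) 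
(.lf (nat_lit 205526) (.g (nat_lit 727) (.e (nat_lit 81664) (nat_lit 34) (.e (nat_lit 24679) (nat_lit 27) (.e (nat_lit 426316) (nat_lit 12) (.e (nat_lit 475169) (nat_lit 22) .nil)))) .nil))) (.nd (nat_lit 6) 
(.lf (nat_lit 205494) (.g (nat_lit 477) (.e (nat_lit 81664) (nat_lit 34) (.e (nat_lit 24677) (nat_lit 27) (.e (nat_lit 426230) (nat_lit 9) (.e (nat_lit 426431) (nat_lit 17) (.e (nat_lit 98048) (nat_lit 5) .nil))))) .nil)) 
(.lf (nat_lit 205558) (.g (nat_lit 1030) (.e (nat_lit 81664) (nat_lit 35) (.e (nat_lit 163977) (nat_lit 30) (.e (nat_lit 573489) (nat_lit 14) (.e (nat_lit 73768) (nat_lit 19) .nil)))) .nil))))) (.nd (nat_lit 4) (.nd (nat_lit 5) (.nd (nat_lit 6) 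
(.lf (nat_lit 205454) (.g (nat_lit 1305) (.e (nat_lit 81664) (nat_lit 32) (.e (nat_lit 3085) (nat_lit 191) (.e (nat_lit 483403) (nat_lit 26) (.e (nat_lit 385093) (nat_lit 49) .nil)))) .nil)) 
(.lf (nat_lit 205518) (.g (nat_lit 262) (.e (nat_lit 81664) (nat_lit 34) (.e (nat_lit 24679) (nat_lit 27) (.e (nat_lit 426200) (nat_lit 9) .nil))) .nil))) (.nd (nat_lit 6) 
(.lf (nat_lit 205486) (.g (nat_lit 1886) (.e (nat_lit 81664) (nat_lit 34) (.e (nat_lit 24675) (nat_lit 27) (.e (nat_lit 426306) (nat_lit 12) (.e (nat_lit 475169) (nat_lit 22) (.e (nat_lit 507648) (nat_lit 19) .nil))))) .nil)) 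
(.lf (nat_lit 205550) (.g (nat_lit 1078) (.e (nat_lit 81664) (nat_lit 35) (.e (nat_lit 163962) (nat_lit 25) (.e (nat_lit 532550) (nat_lit 12) (.e (nat_lit 360448) (nat_lit 0) .nil)))) .nil)))) (.nd (nat_lit 5) (.nd (nat_lit 6) 
(.lf (nat_lit 205470) (.g (nat_lit 1362) (.e (nat_lit 81664) (nat_lit 33) (.e (nat_lit 8320) (nat_lit 64) (.e (nat_lit 516176) (nat_lit 14) (.e (nat_lit 466967) (nat_lit 20) (.e (nat_lit 3573) (nat_lit 223) .nil))))) .nil)) 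
(.lf (nat_lit 205534) (.g (nat_lit 2318) (.e (nat_lit 81664) (nat_lit 35) (.e (nat_lit 163962) (nat_lit 25) (.e (nat_lit 532535) (nat_lit 9) (.e (nat_lit 335905) (nat_lit 0) .nil)))) .nil))) (.nd (nat_lit 6) 
(.lf (nat_lit 205502) (.g (nat_lit 8) (.e (nat_lit 81664) (nat_lit 34) (.e (nat_lit 24678) (nat_lit 27) (.e (nat_lit 426196) (nat_lit 9) .nil))) .nil)) 
(.lf (nat_lit 205566) (.g (nat_lit 1176) (.e (nat_lit 81664) (nat_lit 35) (.e (nat_lit 164017) (nat_lit 44) (.e (nat_lit 688177) (nat_lit 16) (.e (nat_lit 65617) (nat_lit 10) .nil)))) .nil)))))))) (.nd (nat_lit 1) (.nd (nat_lit 2) (.nd (nat_lit 3) (.nd (nat_lit 4) (.nd (nat_lit 5) (.nd (nat_lit 6) 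
(.lf (nat_lit 205441) (.g (nat_lit 936) (.e (nat_lit 81664) (nat_lit 32) (.e (nat_lit 3077) (nat_lit 191) (.e (nat_lit 483406) (nat_lit 26) (.e (nat_lit 385092) (nat_lit 49) .nil)))) .nil)) 
(.lf (nat_lit 205505) (.g (nat_lit 1618) (.e (nat_lit 81664) (nat_lit 34) (.e (nat_lit 24679) (nat_lit 27) (.e (nat_lit 426188) (nat_lit 9) (.e (nat_lit 426428) (nat_lit 17) (.e (nat_lit 98048) (nat_lit 5) .nil))))) .nil))) (.nd (nat_lit 6) 
(.lf (nat_lit 205473) (.g (nat_lit 1457) (.e (nat_lit 81664) (nat_lit 34) (.e (nat_lit 24675) (nat_lit 27) (.e (nat_lit 426187) (nat_lit 9) (.e (nat_lit 426432) (nat_lit 17) (.e (nat_lit 98048) (nat_lit 5) .nil))))) .nil)) 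
(.lf (nat_lit 205537) (.g (nat_lit 2112) (.e (nat_lit 81664) (nat_lit 35) (.e (nat_lit 163962) (nat_lit 25) (.e (nat_lit 532535) (nat_lit 9) (.e (nat_lit 336061) (nat_lit 7) (.e (nat_lit 319519) (nat_lit 12) .nil))))) .nil)))) (.nd (nat_lit 5) (.nd (nat_lit 6) 
(.lf (nat_lit 205457) (.g (nat_lit 1439) (.e (nat_lit 81664) (nat_lit 32) (.e (nat_lit 3088) (nat_lit 191) (.e (nat_lit 483395) (nat_lit 24) (.e (nat_lit 344097) (nat_lit 18) (.e (nat_lit 5907) (nat_lit 320) .nil))))) .nil)) 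
(.lf (nat_lit 205521) (.g (nat_lit 107) (.e (nat_lit 81664) (nat_lit 34) (.e (nat_lit 24679) (nat_lit 27) (.e (nat_lit 426306) (nat_lit 12) .nil))) .nil))) (.nd (nat_lit 6) 
(.lf (nat_lit 205489) (.g (nat_lit 1519) (.e (nat_lit 81664) (nat_lit 34) (.e (nat_lit 24675) (nat_lit 27) (.e (nat_lit 426316) (nat_lit 12) (.e (nat_lit 475167) (nat_lit 22) .nil)))) .nil)) 
(.lf (nat_lit 205553) (.g (nat_lit 255) (.e (nat_lit 81664) (nat_lit 35) (.e (nat_lit 163962) (nat_lit 25) (.e (nat_lit 532556) (nat_lit 13) .nil))) .nil))))) (.nd (nat_lit 4) (.nd (nat_lit 5) (.nd (nat_lit 6) 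
(.lf (nat_lit 205449) (.g (nat_lit 1336) (.e (nat_lit 81664) (nat_lit 32) (.e (nat_lit 3084) (nat_lit 191) (.e (nat_lit 483380) (nat_lit 23) (.e (nat_lit 336332) (nat_lit 19) .nil)))) .nil)) 
(.lf (nat_lit 205513) (.g (nat_lit 783) (.e (nat_lit 81664) (nat_lit 34) (.e (nat_lit 24679) (nat_lit 27) (.e (nat_lit 426197) (nat_lit 9) (.e (nat_lit 426427) (nat_lit 17) .nil)))) .nil))) (.nd (nat_lit 6) 
(.lf (nat_lit 205481) (.g (nat_lit 1884) (.e (nat_lit 81664) (nat_lit 34) (.e (nat_lit 24675) (nat_lit 27) (.e (nat_lit 426200) (nat_lit 9) (.e (nat_lit 426428) (nat_lit 17) (.e (nat_lit 98048) (nat_lit 5) .nil))))) .nil)) 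
(.lf (nat_lit 205545) (.g (nat_lit 2262) (.e (nat_lit 81664) (nat_lit 35) (.e (nat_lit 163962) (nat_lit 25) (.e (nat_lit 532535) (nat_lit 9) (.e (nat_lit 336226) (nat_lit 14) (.e (nat_lit 401414) (nat_lit 0) .nil))))) .nil)))) (.nd (nat_lit 5) (.nd (nat_lit 6) 
(.lf (nat_lit 205465) (.g (nat_lit 1744) (.e (nat_lit 81664) (nat_lit 33) (.e (nat_lit 8318) (nat_lit 64) (.e (nat_lit 516151) (nat_lit 9) (.e (nat_lit 426171) (nat_lit 7) .nil)))) .nil)) 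
(.lf (nat_lit 205529) (.g (nat_lit 1259) (.e (nat_lit 81664) (nat_lit 35) (.e (nat_lit 163962) (nat_lit 25) (.e (nat_lit 532481) (nat_lit 0) (.e (nat_lit 2202) (nat_lit 144) (.e (nat_lit 720956) (nat_lit 25) .nil))))) .nil))) (.nd (nat_lit 6) 
(.lf (nat_lit 205497) (.g (nat_lit 520) (.e (nat_lit 81664) (nat_lit 34) (.e (nat_lit 24677) (nat_lit 27) (.e (nat_lit 426234) (nat_lit 9) (.e (nat_lit 426431) (nat_lit 17) (.e (nat_lit 98048) (nat_lit 5) .nil))))) .nil)) 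
(.lf (nat_lit 205561) (.g (nat_lit 2430) (.e (nat_lit 81664) (nat_lit 35) (.e (nat_lit 163978) (nat_lit 30) (.e (nat_lit 573489) (nat_lit 14) (.e (nat_lit 73768) (nat_lit 19) (.e (nat_lit 647195) (nat_lit 9) .nil))))) .nil)))))) (.nd (nat_lit 3) (.nd (nat_lit 4) (.nd (nat_lit 5) (.nd (nat_lit 6) 
(.lf (nat_lit 205445) (.g (nat_lit 508) (.e (nat_lit 81664) (nat_lit 32) (.e (nat_lit 3079) (nat_lit 191) (.e (nat_lit 483382) (nat_lit 23) (.e (nat_lit 336332) (nat_lit 19) .nil)))) .nil)) 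
(.lf (nat_lit 205509) (.g (nat_lit 416) (.e (nat_lit 81664) (nat_lit 34) (.e (nat_lit 24679) (nat_lit 27) (.e (nat_lit 426190) (nat_lit 9) .nil))) .nil))) (.nd (nat_lit 6) 
(.lf (nat_lit 205477) (.g (nat_lit 217) (.e (nat_lit 81664) (nat_lit 34) (.e (nat_lit 24675) (nat_lit 27) (.e (nat_lit 426190) (nat_lit 9) .nil))) .nil)) 
(.lf (nat_lit 205541) (.g (nat_lit 1386) (.e (nat_lit 81664) (nat_lit 35) (.e (nat_lit 163962) (nat_lit 25) (.e (nat_lit 532535) (nat_lit 9) (.e (nat_lit 336173) (nat_lit 10) .nil)))) .nil)))) (.nd (nat_lit 5) (.nd (nat_lit 6) 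
(.lf (nat_lit 205461) (.g (nat_lit 1152) (.e (nat_lit 81664) (nat_lit 32) (.e (nat_lit 3094) (nat_lit 191) (.e (nat_lit 483385) (nat_lit 23) (.e (nat_lit 336332) (nat_lit 19) (.e (nat_lit 220928) (nat_lit 5) .nil))))) .nil)) 
(.lf (nat_lit 205525) (.g (nat_lit 1277) (.e (nat_lit 81664) (nat_lit 34) (.e (nat_lit 24679) (nat_lit 27) (.e (nat_lit 426315) (nat_lit 12) (.e (nat_lit 483072) (nat_lit 22) .nil)))) .nil))) (.nd (nat_lit 6) 
(.lf (nat_lit 205493) (.g (nat_lit 950) (.e (nat_lit 81664) (nat_lit 34) (.e (nat_lit 24677) (nat_lit 27) (.e (nat_lit 426225) (nat_lit 9) (.e (nat_lit 426432) (nat_lit 17) (.e (nat_lit 98048) (nat_lit 5) .nil))))) .nil)) 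
(.lf (nat_lit 205557) (.g (nat_lit 1770) (.e (nat_lit 81664) (nat_lit 35) (.e (nat_lit 163977) (nat_lit 30) (.e (nat_lit 573489) (nat_lit 14) (.e (nat_lit 73767) (nat_lit 19) (.e (nat_lit 647194) (nat_lit 9) .nil))))) .nil))))) (.nd (nat_lit 4) (.nd (nat_lit 5) (.nd (nat_lit 6) 
(.lf (nat_lit 205453) (.g (nat_lit 480) (.e (nat_lit 81664) (nat_lit 32) (.e (nat_lit 3085) (nat_lit 191) (.e (nat_lit 483401) (nat_lit 25) .nil))) .nil)) 
(.lf (nat_lit 205517) (.g (nat_lit 661) (.e (nat_lit 81664) (nat_lit 34) (.e (nat_lit 24679) (nat_lit 27) (.e (nat_lit 426199) (nat_lit 9) (.e (nat_lit 426432) (nat_lit 17) .nil)))) .nil))) (.nd (nat_lit 6) 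
(.lf (nat_lit 205485) (.g (nat_lit 373) (.e (nat_lit 81664) (nat_lit 34) (.e (nat_lit 24675) (nat_lit 27) (.e (nat_lit 426287) (nat_lit 10) (.e (nat_lit 434241) (nat_lit 27) .nil)))) .nil)) 
(.lf (nat_lit 205549) (.g (nat_lit 792) (.e (nat_lit 81664) (nat_lit 35) (.e (nat_lit 163962) (nat_lit 25) (.e (nat_lit 532549) (nat_lit 12) (.e (nat_lit 368384) (nat_lit 0) .nil)))) .nil)))) (.nd (nat_lit 5) (.nd (nat_lit 6) 
(.lf (nat_lit 205469) (.g (nat_lit 2254) (.e (nat_lit 81664) (nat_lit 33) (.e (nat_lit 8318) (nat_lit 64) (.e (nat_lit 516176) (nat_lit 14) (.e (nat_lit 466971) (nat_lit 21) (.e (nat_lit 164196) (nat_lit 158) .nil))))) .nil)) 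
(.lf (nat_lit 205533) (.g (nat_lit 834) (.e (nat_lit 81664) (nat_lit 35) (.e (nat_lit 163962) (nat_lit 25) (.e (nat_lit 532514) (nat_lit 3) (.e (nat_lit 114723) (nat_lit 24) (.e (nat_lit 106533) (nat_lit 10) .nil))))) .nil))) (.nd (nat_lit 6) 
(.lf (nat_lit 205501) (.g (nat_lit 923) (.e (nat_lit 81664) (nat_lit 34) (.e (nat_lit 24678) (nat_lit 27) (.e (nat_lit 426189) (nat_lit 9) (.e (nat_lit 426432) (nat_lit 17) (.e (nat_lit 98048) (nat_lit 5) .nil))))) .nil)) 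
(.lf (nat_lit 205565) (.g (nat_lit 993) (.e (nat_lit 81664) (nat_lit 35) (.e (nat_lit 164017) (nat_lit 44) (.e (nat_lit 688177) (nat_lit 16) (.e (nat_lit 65610) (nat_lit 10) .nil)))) .nil))))))) (.nd (nat_lit 2) (.nd (nat_lit 3) (.nd (nat_lit 4) (.nd (nat_lit 5) (.nd (nat_lit 6) 
(.lf (nat_lit 205443) (.g (nat_lit 942) (.e (nat_lit 81664) (nat_lit 32) (.e (nat_lit 3077) (nat_lit 191) (.e (nat_lit 483406) (nat_lit 26) (.e (nat_lit 385096) (nat_lit 49) (.e (nat_lit 786176) (nat_lit 5) .nil))))) .nil)) 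
(.lf (nat_lit 205507) (.g (nat_lit 557) (.e (nat_lit 81664) (nat_lit 34) (.e (nat_lit 24679) (nat_lit 27) (.e (nat_lit 426189) (nat_lit 9) .nil))) .nil))) (.nd (nat_lit 6) 
(.lf (nat_lit 205475) (.g (nat_lit 1843) (.e (nat_lit 81664) (nat_lit 34) (.e (nat_lit 24675) (nat_lit 27) (.e (nat_lit 426188) (nat_lit 9) (.e (nat_lit 426432) (nat_lit 17) (.e (nat_lit 98048) (nat_lit 5) .nil))))) .nil)) 
(.lf (nat_lit 205539) (.g (nat_lit 2133) (.e (nat_lit 81664) (nat_lit 35) (.e (nat_lit 163962) (nat_lit 25) (.e (nat_lit 532535) (nat_lit 9) (.e (nat_lit 336167) (nat_lit 10) .nil)))) .nil)))) (.nd (nat_lit 5) (.nd (nat_lit 6) 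
(.lf (nat_lit 205459) (.g (nat_lit 2015) (.e (nat_lit 81664) (nat_lit 32) (.e (nat_lit 3092) (nat_lit 191) (.e (nat_lit 483406) (nat_lit 26) (.e (nat_lit 385093) (nat_lit 49) (.e (nat_lit 778324) (nat_lit 5) .nil))))) .nil)) 
(.lf (nat_lit 205523) (.g (nat_lit 1120) (.e (nat_lit 81664) (nat_lit 34) (.e (nat_lit 24679) (nat_lit 27) (.e (nat_lit 426308) (nat_lit 12) (.e (nat_lit 483072) (nat_lit 22) .nil)))) .nil))) (.nd (nat_lit 6) 
(.lf (nat_lit 205491) (.g (nat_lit 1552) (.e (nat_lit 81664) (nat_lit 34) (.e (nat_lit 24675) (nat_lit 27) (.e (nat_lit 426316) (nat_lit 12) (.e (nat_lit 475172) (nat_lit 22) .nil)))) .nil)) 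
(.lf (nat_lit 205555) (.g (nat_lit 1204) (.e (nat_lit 81664) (nat_lit 35) (.e (nat_lit 163977) (nat_lit 30) (.e (nat_lit 573489) (nat_lit 14) (.e (nat_lit 73731) (nat_lit 0) .nil)))) .nil))))) (.nd (nat_lit 4) (.nd (nat_lit 5) (.nd (nat_lit 6) 
(.lf (nat_lit 205451) (.g (nat_lit 956) (.e (nat_lit 81664) (nat_lit 32) (.e (nat_lit 3085) (nat_lit 191) (.e (nat_lit 483377) (nat_lit 22) (.e (nat_lit 327692) (nat_lit 1) .nil)))) .nil)) 
(.lf (nat_lit 205515) (.g (nat_lit 1386) (.e (nat_lit 81664) (nat_lit 34) (.e (nat_lit 24679) (nat_lit 27) (.e (nat_lit 426198) (nat_lit 9) (.e (nat_lit 426427) (nat_lit 17) .nil)))) .nil))) (.nd (nat_lit 6) 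
(.lf (nat_lit 205483) (.g (nat_lit 217) (.e (nat_lit 81664) (nat_lit 34) (.e (nat_lit 24675) (nat_lit 27) (.e (nat_lit 426213) (nat_lit 9) .nil))) .nil)) 
(.lf (nat_lit 205547) (.g (nat_lit 387) (.e (nat_lit 81664) (nat_lit 35) (.e (nat_lit 163962) (nat_lit 25) (.e (nat_lit 532545) (nat_lit 10) (.e (nat_lit 352000) (nat_lit 3) .nil)))) .nil)))) (.nd (nat_lit 5) (.nd (nat_lit 6) 
(.lf (nat_lit 205467) (.g (nat_lit 959) (.e (nat_lit 81664) (nat_lit 33) (.e (nat_lit 8318) (nat_lit 64) (.e (nat_lit 516165) (nat_lit 12) (.e (nat_lit 450605) (nat_lit 27) .nil)))) .nil)) 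
(.lf (nat_lit 205531) (.g (nat_lit 564) (.e (nat_lit 81664) (nat_lit 35) (.e (nat_lit 163962) (nat_lit 25) (.e (nat_lit 532514) (nat_lit 3) (.e (nat_lit 114723) (nat_lit 24) .nil)))) .nil))) (.nd (nat_lit 6) 
(.lf (nat_lit 205499) (.g (nat_lit 490) (.e (nat_lit 81664) (nat_lit 34) (.e (nat_lit 24677) (nat_lit 27) (.e (nat_lit 426262) (nat_lit 9) (.e (nat_lit 426431) (nat_lit 17) (.e (nat_lit 98048) (nat_lit 5) .nil))))) .nil)) 
(.lf (nat_lit 205563) (.g (nat_lit 2410) (.e (nat_lit 81664) (nat_lit 35) (.e (nat_lit 163978) (nat_lit 30) (.e (nat_lit 573489) (nat_lit 14) (.e (nat_lit 73768) (nat_lit 19) (.e (nat_lit 647201) (nat_lit 12) .nil))))) .nil)))))) (.nd (nat_lit 3) (.nd (nat_lit 4) (.nd (nat_lit 5) (.nd (nat_lit 6) 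
(.lf (nat_lit 205447) (.g (nat_lit 927) (.e (nat_lit 81664) (nat_lit 32) (.e (nat_lit 3082) (nat_lit 191) (.e (nat_lit 483406) (nat_lit 26) (.e (nat_lit 385094) (nat_lit 49) .nil)))) .nil)) 
(.lf (nat_lit 205511) (.g (nat_lit 1503) (.e (nat_lit 81664) (nat_lit 34) (.e (nat_lit 24679) (nat_lit 27) (.e (nat_lit 426190) (nat_lit 9) (.e (nat_lit 426432) (nat_lit 17) (.e (nat_lit 98048) (nat_lit 5) .nil))))) .nil))) (.nd (nat_lit 6) 
(.lf (nat_lit 205479) (.g (nat_lit 691) (.e (nat_lit 81664) (nat_lit 34) (.e (nat_lit 24675) (nat_lit 27) (.e (nat_lit 426199) (nat_lit 9) (.e (nat_lit 426427) (nat_lit 17) .nil)))) .nil)) 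
(.lf (nat_lit 205543) (.g (nat_lit 1950) (.e (nat_lit 81664) (nat_lit 35) (.e (nat_lit 163962) (nat_lit 25) (.e (nat_lit 532535) (nat_lit 9) (.e (nat_lit 336176) (nat_lit 10) (.e (nat_lit 344096) (nat_lit 18) .nil))))) .nil)))) (.nd (nat_lit 5) (.nd (nat_lit 6) 
(.lf (nat_lit 205463) (.g (nat_lit 972) (.e (nat_lit 81664) (nat_lit 32) (.e (nat_lit 3094) (nat_lit 191) (.e (nat_lit 483408) (nat_lit 26) (.e (nat_lit 385091) (nat_lit 49) (.e (nat_lit 778324) (nat_lit 5) .nil))))) .nil)) 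
(.lf (nat_lit 205527) (.g (nat_lit 446) (.e (nat_lit 81664) (nat_lit 35) (.e (nat_lit 163843) (nat_lit 0) (.e (nat_lit 4598) (nat_lit 269) .nil))) .nil))) (.nd (nat_lit 6) 
(.lf (nat_lit 205495) (.g (nat_lit 47) (.e (nat_lit 81664) (nat_lit 34) (.e (nat_lit 24677) (nat_lit 27) (.e (nat_lit 426232) (nat_lit 9) .nil))) .nil)) 
(.lf (nat_lit 205559) (.g (nat_lit 552) (.e (nat_lit 81664) (nat_lit 35) (.e (nat_lit 163978) (nat_lit 30) (.e (nat_lit 573489) (nat_lit 14) .nil))) .nil))))) (.nd (nat_lit 4) (.nd (nat_lit 5) (.nd (nat_lit 6) 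
(.lf (nat_lit 205455) (.g (nat_lit 2168) (.e (nat_lit 81664) (nat_lit 32) (.e (nat_lit 3085) (nat_lit 191) (.e (nat_lit 483403) (nat_lit 26) (.e (nat_lit 385094) (nat_lit 49) (.e (nat_lit 778323) (nat_lit 5) .nil))))) .nil)) 
(.lf (nat_lit 205519) (.g (nat_lit 1772) (.e (nat_lit 81664) (nat_lit 34) (.e (nat_lit 24679) (nat_lit 27) (.e (nat_lit 426200) (nat_lit 9) (.e (nat_lit 426428) (nat_lit 17) (.e (nat_lit 98048) (nat_lit 5) .nil))))) .nil))) (.nd (nat_lit 6) 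
(.lf (nat_lit 205487) (.g (nat_lit 192) (.e (nat_lit 81664) (nat_lit 34) (.e (nat_lit 24675) (nat_lit 27) (.e (nat_lit 426308) (nat_lit 12) .nil))) .nil)) 
(.lf (nat_lit 205551) (.g (nat_lit 1763) (.e (nat_lit 81664) (nat_lit 35) (.e (nat_lit 163962) (nat_lit 25) (.e (nat_lit 532550) (nat_lit 12) (.e (nat_lit 360451) (nat_lit 0) (.e (nat_lit 3950) (nat_lit 239) .nil))))) .nil)))) (.nd (nat_lit 5) (.nd (nat_lit 6) 
(.lf (nat_lit 205471) (.g (nat_lit 1472) (.e (nat_lit 81664) (nat_lit 33) (.e (nat_lit 8321) (nat_lit 65) (.e (nat_lit 524322) (nat_lit 12) (.e (nat_lit 450563) (nat_lit 0) (.e (nat_lit 6736) (nat_lit 365) .nil))))) .nil)) 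
(.lf (nat_lit 205535) (.g (nat_lit 1374) (.e (nat_lit 81664) (nat_lit 35) (.e (nat_lit 163962) (nat_lit 25) (.e (nat_lit 532535) (nat_lit 9) (.e (nat_lit 336061) (nat_lit 7) .nil)))) .nil))) (.nd (nat_lit 6) 
(.lf (nat_lit 205503) (.g (nat_lit 918) (.e (nat_lit 81664) (nat_lit 34) (.e (nat_lit 24678) (nat_lit 27) (.e (nat_lit 426316) (nat_lit 12) (.e (nat_lit 475169) (nat_lit 22) .nil)))) .nil)) 
(.lf (nat_lit 205567) (.g (nat_lit 1112) (.e (nat_lit 81664) (nat_lit 35) (.e (nat_lit 164017) (nat_lit 44) (.e (nat_lit 688178) (nat_lit 16) (.e (nat_lit 65619) (nat_lit 10) .nil)))) .nil)))))))))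

noncomputable def tv2711 : DT := (.nd (nat_lit 0) (.nd (nat_lit 1) (.nd (nat_lit 2) (.nd (nat_lit 3) (.nd (nat_lit 4) (.nd (nat_lit 5) (.nd (nat_lit 6) 
(.lf (nat_lit 205568) (.g (nat_lit 2018) (.e (nat_lit 81664) (nat_lit 35) (.e (nat_lit 164017) (nat_lit 44) (.e (nat_lit 688178) (nat_lit 16) (.e (nat_lit 65619) (nat_lit 10) (.e (nat_lit 344177) (nat_lit 43) .nil))))) .nil)) 
(.lf (nat_lit 205632) (.g (nat_lit 505) (.e (nat_lit 81664) (nat_lit 39) (.e (nat_lit 237634) (nat_lit 27) (.e (nat_lit 336153) (nat_lit 9) (.e (nat_lit 336331) (nat_lit 19) (.e (nat_lit 220928) (nat_lit 5) .nil))))) .nil))) (.nd (nat_lit 6) 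
(.lf (nat_lit 205600) (.g (nat_lit 421) (.e (nat_lit 81664) (nat_lit 37) (.e (nat_lit 180229) (nat_lit 0) (.e (nat_lit 6427) (nat_lit 342) .nil))) .nil)) 
(.lf (nat_lit 205664) (.g (nat_lit 873) (.e (nat_lit 81664) (nat_lit 39) (.e (nat_lit 237636) (nat_lit 27) (.e (nat_lit 336194) (nat_lit 12) (.e (nat_lit 385100) (nat_lit 49) .nil)))) .nil)))) (.nd (nat_lit 5) (.nd (nat_lit 6) 
(.lf (nat_lit 205584) (.g (nat_lit 1191) (.e (nat_lit 81664) (nat_lit 36) (.e (nat_lit 172150) (nat_lit 27) (.e (nat_lit 336086) (nat_lit 9) (.e (nat_lit 336332) (nat_lit 19) (.e (nat_lit 220928) (nat_lit 5) .nil))))) .nil)) 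
(.lf (nat_lit 205648) (.g (nat_lit 869) (.e (nat_lit 81664) (nat_lit 39) (.e (nat_lit 237636) (nat_lit 27) (.e (nat_lit 336087) (nat_lit 9) (.e (nat_lit 336000) (nat_lit 1) (.e (nat_lit 57871) (nat_lit 264) .nil))))) .nil))) (.nd (nat_lit 6) 
(.lf (nat_lit 205616) (.g (nat_lit 1115) (.e (nat_lit 81664) (nat_lit 38) (.e (nat_lit 229433) (nat_lit 25) (.e (nat_lit 532515) (nat_lit 3) (.e (nat_lit 114723) (nat_lit 24) (.e (nat_lit 106517) (nat_lit 9) .nil))))) .nil)) 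
(.lf (nat_lit 205680) (.g (nat_lit 1360) (.e (nat_lit 81664) (nat_lit 40) (.e (nat_lit 1181) (nat_lit 87) (.e (nat_lit 57872) (nat_lit 264) (.e (nat_lit 1221) (nat_lit 90) .nil)))) .nil))))) (.nd (nat_lit 4) (.nd (nat_lit 5) (.nd (nat_lit 6) 
(.lf (nat_lit 205576) (.g (nat_lit 1503) (.e (nat_lit 81664) (nat_lit 36) (.e (nat_lit 172150) (nat_lit 27) (.e (nat_lit 336076) (nat_lit 9) (.e (nat_lit 336332) (nat_lit 19) (.e (nat_lit 220928) (nat_lit 5) .nil))))) .nil)) 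
(.lf (nat_lit 205640) (.g (nat_lit 1170) (.e (nat_lit 81664) (nat_lit 39) (.e (nat_lit 237636) (nat_lit 27) (.e (nat_lit 336077) (nat_lit 9) (.e (nat_lit 336332) (nat_lit 19) (.e (nat_lit 220928) (nat_lit 5) .nil))))) .nil))) (.nd (nat_lit 6) 
(.lf (nat_lit 205608) (.g (nat_lit 2464) (.e (nat_lit 81664) (nat_lit 37) (.e (nat_lit 180271) (nat_lit 26) (.e (nat_lit 704738) (nat_lit 11) (.e (nat_lit 16392) (nat_lit 0) (.e (nat_lit 3353) (nat_lit 206) .nil))))) .nil)) 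
(.lf (nat_lit 205672) (.g (nat_lit 755) (.e (nat_lit 81664) (nat_lit 40) (.e (nat_lit 1181) (nat_lit 87) (.e (nat_lit 57870) (nat_lit 264) (.e (nat_lit 1190) (nat_lit 88) .nil)))) .nil)))) (.nd (nat_lit 5) (.nd (nat_lit 6) 
(.lf (nat_lit 205592) (.g (nat_lit 1328) (.e (nat_lit 81664) (nat_lit 36) (.e (nat_lit 172150) (nat_lit 27) (.e (nat_lit 336204) (nat_lit 12) (.e (nat_lit 385093) (nat_lit 49) .nil)))) .nil)) 
(.lf (nat_lit 205656) (.g (nat_lit 914) (.e (nat_lit 81664) (nat_lit 39) (.e (nat_lit 237636) (nat_lit 27) (.e (nat_lit 336165) (nat_lit 10) (.e (nat_lit 344168) (nat_lit 40) (.e (nat_lit 671763) (nat_lit 5) .nil))))) .nil))) (.nd (nat_lit 6) 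
(.lf (nat_lit 205624) (.g (nat_lit 626) (.e (nat_lit 81664) (nat_lit 39) (.e (nat_lit 237633) (nat_lit 27) (.e (nat_lit 336118) (nat_lit 9) (.e (nat_lit 336331) (nat_lit 19) (.e (nat_lit 220928) (nat_lit 5) .nil))))) .nil)) 
(.lf (nat_lit 205688) (.g (nat_lit 1042) (.e (nat_lit 81664) (nat_lit 40) (.e (nat_lit 1250) (nat_lit 92) (.e (nat_lit 98350) (nat_lit 24) (.e (nat_lit 409647) (nat_lit 18) .nil)))) .nil)))))) (.nd (nat_lit 3) (.nd (nat_lit 4) (.nd (nat_lit 5) (.nd (nat_lit 6) 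
(.lf (nat_lit 205572) (.g (nat_lit 56) (.e (nat_lit 81664) (nat_lit 36) (.e (nat_lit 172147) (nat_lit 27) (.e (nat_lit 336196) (nat_lit 12) .nil))) .nil)) 
(.lf (nat_lit 205636) (.g (nat_lit 1308) (.e (nat_lit 81664) (nat_lit 39) (.e (nat_lit 237636) (nat_lit 27) (.e (nat_lit 336075) (nat_lit 9) (.e (nat_lit 336332) (nat_lit 19) (.e (nat_lit 220928) (nat_lit 5) .nil))))) .nil))) (.nd (nat_lit 6) 
(.lf (nat_lit 205604) (.g (nat_lit 2523) (.e (nat_lit 81664) (nat_lit 37) (.e (nat_lit 180271) (nat_lit 26) (.e (nat_lit 704629) (nat_lit 9) (.e (nat_lit 442) (nat_lit 33) (.e (nat_lit 434212) (nat_lit 18) .nil))))) .nil)) 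
(.lf (nat_lit 205668) (.g (nat_lit 1313) (.e (nat_lit 81664) (nat_lit 39) (.e (nat_lit 237636) (nat_lit 27) (.e (nat_lit 336204) (nat_lit 12) (.e (nat_lit 385096) (nat_lit 49) (.e (nat_lit 786176) (nat_lit 5) .nil))))) .nil)))) (.nd (nat_lit 5) (.nd (nat_lit 6) 
(.lf (nat_lit 205588) (.g (nat_lit 807) (.e (nat_lit 81664) (nat_lit 36) (.e (nat_lit 172150) (nat_lit 27) (.e (nat_lit 336196) (nat_lit 12) (.e (nat_lit 385096) (nat_lit 49) .nil)))) .nil)) 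
(.lf (nat_lit 205652) (.g (nat_lit 755) (.e (nat_lit 81664) (nat_lit 39) (.e (nat_lit 237636) (nat_lit 27) (.e (nat_lit 336088) (nat_lit 9) (.e (nat_lit 336000) (nat_lit 1) .nil)))) .nil))) (.nd (nat_lit 6) 
(.lf (nat_lit 205620) (.g (nat_lit 1050) (.e (nat_lit 81664) (nat_lit 38) (.e (nat_lit 229433) (nat_lit 25) (.e (nat_lit 532560) (nat_lit 14) (.e (nat_lit 384768) (nat_lit 1) .nil)))) .nil)) 
(.lf (nat_lit 205684) (.g (nat_lit 1732) (.e (nat_lit 81664) (nat_lit 40) (.e (nat_lit 1183) (nat_lit 87) (.e (nat_lit 57872) (nat_lit 264) (.e (nat_lit 1190) (nat_lit 88) (.e (nat_lit 65622) (nat_lit 12) .nil))))) .nil))))) (.nd (nat_lit 4) (.nd (nat_lit 5) (.nd (nat_lit 6) 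
(.lf (nat_lit 205580) (.g (nat_lit 1032) (.e (nat_lit 81664) (nat_lit 36) (.e (nat_lit 172150) (nat_lit 27) (.e (nat_lit 336078) (nat_lit 9) (.e (nat_lit 336266) (nat_lit 15) .nil)))) .nil)) 
(.lf (nat_lit 205644) (.g (nat_lit 1152) (.e (nat_lit 81664) (nat_lit 39) (.e (nat_lit 237636) (nat_lit 27) (.e (nat_lit 336085) (nat_lit 9) (.e (nat_lit 336332) (nat_lit 19) (.e (nat_lit 220928) (nat_lit 5) .nil))))) .nil))) (.nd (nat_lit 6) 
(.lf (nat_lit 205612) (.g (nat_lit 538) (.e (nat_lit 81664) (nat_lit 38) (.e (nat_lit 229433) (nat_lit 25) (.e (nat_lit 532515) (nat_lit 3) (.e (nat_lit 114722) (nat_lit 24) .nil)))) .nil)) 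
(.lf (nat_lit 205676) (.g (nat_lit 1681) (.e (nat_lit 81664) (nat_lit 40) (.e (nat_lit 1181) (nat_lit 87) (.e (nat_lit 57872) (nat_lit 264) (.e (nat_lit 1196) (nat_lit 88) (.e (nat_lit 65624) (nat_lit 12) .nil))))) .nil)))) (.nd (nat_lit 5) (.nd (nat_lit 6) 
(.lf (nat_lit 205596) (.g (nat_lit 444) (.e (nat_lit 81664) (nat_lit 37) (.e (nat_lit 180228) (nat_lit 0) (.e (nat_lit 5212) (nat_lit 295) .nil))) .nil)) 
(.lf (nat_lit 205660) (.g (nat_lit 887) (.e (nat_lit 81664) (nat_lit 39) (.e (nat_lit 237636) (nat_lit 27) (.e (nat_lit 336194) (nat_lit 12) (.e (nat_lit 385091) (nat_lit 49) .nil)))) .nil))) (.nd (nat_lit 6) 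
(.lf (nat_lit 205628) (.g (nat_lit 433) (.e (nat_lit 81664) (nat_lit 39) (.e (nat_lit 237634) (nat_lit 27) (.e (nat_lit 336118) (nat_lit 9) (.e (nat_lit 336331) (nat_lit 19) (.e (nat_lit 220928) (nat_lit 5) .nil))))) .nil)) 
(.lf (nat_lit 205692) (.g (nat_lit 2766) (.e (nat_lit 81664) (nat_lit 40) (.e (nat_lit 1255) (nat_lit 92) (.e (nat_lit 98350) (nat_lit 24) (.e (nat_lit 409645) (nat_lit 18) (.e (nat_lit 303117) (nat_lit 2) .nil))))) .nil))))))) (.nd (nat_lit 2) (.nd (nat_lit 3) (.nd (nat_lit 4) (.nd (nat_lit 5) (.nd (nat_lit 6) 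
(.lf (nat_lit 205570) (.g (nat_lit 1156) (.e (nat_lit 81664) (nat_lit 36) (.e (nat_lit 172076) (nat_lit 6) (.e (nat_lit 253992) (nat_lit 11) (.e (nat_lit 16407) (nat_lit 1) .nil)))) .nil)) 
(.lf (nat_lit 205634) (.g (nat_lit 960) (.e (nat_lit 81664) (nat_lit 39) (.e (nat_lit 237635) (nat_lit 27) (.e (nat_lit 336075) (nat_lit 9) (.e (nat_lit 336332) (nat_lit 19) (.e (nat_lit 220928) (nat_lit 5) .nil))))) .nil))) (.nd (nat_lit 6) 
(.lf (nat_lit 205602) (.g (nat_lit 1413) (.e (nat_lit 81664) (nat_lit 37) (.e (nat_lit 180269) (nat_lit 25) (.e (nat_lit 696344) (nat_lit 8) (.e (nat_lit 172061) (nat_lit 1) (.e (nat_lit 164422) (nat_lit 272) .nil))))) .nil)) 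
(.lf (nat_lit 205666) (.g (nat_lit 1505) (.e (nat_lit 81664) (nat_lit 39) (.e (nat_lit 237636) (nat_lit 27) (.e (nat_lit 336194) (nat_lit 12) (.e (nat_lit 385101) (nat_lit 49) .nil)))) .nil)))) (.nd (nat_lit 5) (.nd (nat_lit 6) 
(.lf (nat_lit 205586) (.g (nat_lit 926) (.e (nat_lit 81664) (nat_lit 36) (.e (nat_lit 172150) (nat_lit 27) (.e (nat_lit 336184) (nat_lit 11) (.e (nat_lit 368662) (nat_lit 18) (.e (nat_lit 5907) (nat_lit 320) .nil))))) .nil)) 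
(.lf (nat_lit 205650) (.g (nat_lit 242) (.e (nat_lit 81664) (nat_lit 39) (.e (nat_lit 237636) (nat_lit 27) (.e (nat_lit 336088) (nat_lit 9) .nil))) .nil))) (.nd (nat_lit 6) 
(.lf (nat_lit 205618) (.g (nat_lit 1143) (.e (nat_lit 81664) (nat_lit 38) (.e (nat_lit 229433) (nat_lit 25) (.e (nat_lit 532515) (nat_lit 3) (.e (nat_lit 114723) (nat_lit 24) (.e (nat_lit 106532) (nat_lit 10) .nil))))) .nil)) 
(.lf (nat_lit 205682) (.g (nat_lit 833) (.e (nat_lit 81664) (nat_lit 40) (.e (nat_lit 1183) (nat_lit 87) (.e (nat_lit 57871) (nat_lit 264) (.e (nat_lit 1219) (nat_lit 90) .nil)))) .nil))))) (.nd (nat_lit 4) (.nd (nat_lit 5) (.nd (nat_lit 6) 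
(.lf (nat_lit 205578) (.g (nat_lit 965) (.e (nat_lit 81664) (nat_lit 36) (.e (nat_lit 172150) (nat_lit 27) (.e (nat_lit 336077) (nat_lit 9) (.e (nat_lit 336332) (nat_lit 19) (.e (nat_lit 220928) (nat_lit 5) .nil))))) .nil)) 
(.lf (nat_lit 205642) (.g (nat_lit 1150) (.e (nat_lit 81664) (nat_lit 39) (.e (nat_lit 237636) (nat_lit 27) (.e (nat_lit 336078) (nat_lit 9) (.e (nat_lit 336332) (nat_lit 19) (.e (nat_lit 220928) (nat_lit 5) .nil))))) .nil))) (.nd (nat_lit 6) 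
(.lf (nat_lit 205610) (.g (nat_lit 1731) (.e (nat_lit 81664) (nat_lit 37) (.e (nat_lit 180271) (nat_lit 26) (.e (nat_lit 704738) (nat_lit 11) (.e (nat_lit 16407) (nat_lit 1) .nil)))) .nil)) 
(.lf (nat_lit 205674) (.g (nat_lit 354) (.e (nat_lit 81664) (nat_lit 40) (.e (nat_lit 1181) (nat_lit 87) (.e (nat_lit 57872) (nat_lit 264) .nil))) .nil)))) (.nd (nat_lit 5) (.nd (nat_lit 6) 
(.lf (nat_lit 205594) (.g (nat_lit 1205) (.e (nat_lit 81664) (nat_lit 37) (.e (nat_lit 180225) (nat_lit 0) (.e (nat_lit 6420) (nat_lit 341) (.e (nat_lit 163917) (nat_lit 13) .nil)))) .nil)) 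
(.lf (nat_lit 205658) (.g (nat_lit 1257) (.e (nat_lit 81664) (nat_lit 39) (.e (nat_lit 237636) (nat_lit 27) (.e (nat_lit 336194) (nat_lit 12) (.e (nat_lit 385043) (nat_lit 21) (.e (nat_lit 7450) (nat_lit 396) .nil))))) .nil))) (.nd (nat_lit 6) 
(.lf (nat_lit 205626) (.g (nat_lit 626) (.e (nat_lit 81664) (nat_lit 39) (.e (nat_lit 237633) (nat_lit 27) (.e (nat_lit 336121) (nat_lit 9) (.e (nat_lit 336331) (nat_lit 19) (.e (nat_lit 220928) (nat_lit 5) .nil))))) .nil)) 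
(.lf (nat_lit 205690) (.g (nat_lit 2038) (.e (nat_lit 81664) (nat_lit 40) (.e (nat_lit 1255) (nat_lit 92) (.e (nat_lit 98349) (nat_lit 24) (.e (nat_lit 409645) (nat_lit 18) (.e (nat_lit 303117) (nat_lit 2) .nil))))) .nil)))))) (.nd (nat_lit 3) (.nd (nat_lit 4) (.nd (nat_lit 5) (.nd (nat_lit 6) 
(.lf (nat_lit 205574) (.g (nat_lit 237) (.e (nat_lit 81664) (nat_lit 36) (.e (nat_lit 172150) (nat_lit 27) (.e (nat_lit 336069) (nat_lit 8) .nil))) .nil)) 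
(.lf (nat_lit 205638) (.g (nat_lit 1232) (.e (nat_lit 81664) (nat_lit 39) (.e (nat_lit 237636) (nat_lit 27) (.e (nat_lit 336076) (nat_lit 9) (.e (nat_lit 336330) (nat_lit 19) (.e (nat_lit 220928) (nat_lit 5) .nil))))) .nil))) (.nd (nat_lit 6) 
(.lf (nat_lit 205606) (.g (nat_lit 1637) (.e (nat_lit 81664) (nat_lit 37) (.e (nat_lit 180271) (nat_lit 26) (.e (nat_lit 704737) (nat_lit 11) (.e (nat_lit 16407) (nat_lit 1) .nil)))) .nil)) 
(.lf (nat_lit 205670) (.g (nat_lit 1511) (.e (nat_lit 81664) (nat_lit 40) (.e (nat_lit 375) (nat_lit 32) (.e (nat_lit 426173) (nat_lit 7) (.e (nat_lit 409646) (nat_lit 18) .nil)))) .nil)))) (.nd (nat_lit 5) (.nd (nat_lit 6) 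
(.lf (nat_lit 205590) (.g (nat_lit 839) (.e (nat_lit 81664) (nat_lit 36) (.e (nat_lit 172150) (nat_lit 27) (.e (nat_lit 336196) (nat_lit 12) (.e (nat_lit 392960) (nat_lit 49) .nil)))) .nil)) 
(.lf (nat_lit 205654) (.g (nat_lit 1233) (.e (nat_lit 81664) (nat_lit 39) (.e (nat_lit 237636) (nat_lit 27) (.e (nat_lit 336088) (nat_lit 9) (.e (nat_lit 336332) (nat_lit 19) (.e (nat_lit 220928) (nat_lit 5) .nil))))) .nil))) (.nd (nat_lit 6) 
(.lf (nat_lit 205622) (.g (nat_lit 988) (.e (nat_lit 81664) (nat_lit 39) (.e (nat_lit 237632) (nat_lit 27) (.e (nat_lit 336075) (nat_lit 9) (.e (nat_lit 336332) (nat_lit 19) (.e (nat_lit 220928) (nat_lit 5) .nil))))) .nil)) 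
(.lf (nat_lit 205686) (.g (nat_lit 1814) (.e (nat_lit 81664) (nat_lit 40) (.e (nat_lit 1183) (nat_lit 87) (.e (nat_lit 57872) (nat_lit 264) (.e (nat_lit 1219) (nat_lit 90) (.e (nat_lit 81922) (nat_lit 0) .nil))))) .nil))))) (.nd (nat_lit 4) (.nd (nat_lit 5) (.nd (nat_lit 6) 
(.lf (nat_lit 205582) (.g (nat_lit 1093) (.e (nat_lit 81664) (nat_lit 36) (.e (nat_lit 172150) (nat_lit 27) (.e (nat_lit 336078) (nat_lit 9) (.e (nat_lit 336332) (nat_lit 19) (.e (nat_lit 220928) (nat_lit 5) .nil))))) .nil)) 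
(.lf (nat_lit 205646) (.g (nat_lit 1063) (.e (nat_lit 81664) (nat_lit 39) (.e (nat_lit 237636) (nat_lit 27) (.e (nat_lit 336086) (nat_lit 9) (.e (nat_lit 336332) (nat_lit 19) (.e (nat_lit 220928) (nat_lit 5) .nil))))) .nil))) (.nd (nat_lit 6) 
(.lf (nat_lit 205614) (.g (nat_lit 659) (.e (nat_lit 81664) (nat_lit 38) (.e (nat_lit 229433) (nat_lit 25) (.e (nat_lit 532515) (nat_lit 3) (.e (nat_lit 114723) (nat_lit 24) .nil)))) .nil)) 
(.lf (nat_lit 205678) (.g (nat_lit 1304) (.e (nat_lit 81664) (nat_lit 40) (.e (nat_lit 1181) (nat_lit 87) (.e (nat_lit 57872) (nat_lit 264) (.e (nat_lit 1219) (nat_lit 90) .nil)))) .nil)))) (.nd (nat_lit 5) (.nd (nat_lit 6) 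
(.lf (nat_lit 205598) (.g (nat_lit 1010) (.e (nat_lit 81664) (nat_lit 37) (.e (nat_lit 180228) (nat_lit 0) (.e (nat_lit 6427) (nat_lit 342) (.e (nat_lit 229409) (nat_lit 13) .nil)))) .nil)) 
(.lf (nat_lit 205662) (.g (nat_lit 1375) (.e (nat_lit 81664) (nat_lit 39) (.e (nat_lit 237636) (nat_lit 27) (.e (nat_lit 336194) (nat_lit 12) (.e (nat_lit 385096) (nat_lit 49) (.e (nat_lit 786176) (nat_lit 5) .nil))))) .nil))) (.nd (nat_lit 6) 
(.lf (nat_lit 205630) (.g (nat_lit 516) (.e (nat_lit 81664) (nat_lit 39) (.e (nat_lit 237634) (nat_lit 27) (.e (nat_lit 336121) (nat_lit 9) (.e (nat_lit 336331) (nat_lit 19) (.e (nat_lit 220928) (nat_lit 5) .nil))))) .nil)) 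
(.lf (nat_lit 205694) (.g (nat_lit 2167) (.e (nat_lit 81664) (nat_lit 40) (.e (nat_lit 1255) (nat_lit 92) (.e (nat_lit 98350) (nat_lit 24) (.e (nat_lit 409648) (nat_lit 18) (.e (nat_lit 303117) (nat_lit 2) .nil))))) .nil)))))))) (.nd (nat_lit 1) (.nd (nat_lit 2) (.nd (nat_lit 3) (.nd (nat_lit 4) (.nd (nat_lit 5) (.nd (nat_lit 6) 
(.lf (nat_lit 205569) (.g (nat_lit 1001) (.e (nat_lit 81664) (nat_lit 36) (.e (nat_lit 172074) (nat_lit 6) (.e (nat_lit 253992) (nat_lit 11) (.e (nat_lit 16407) (nat_lit 1) .nil)))) .nil)) 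
(.lf (nat_lit 205633) (.g (nat_lit 474) (.e (nat_lit 81664) (nat_lit 39) (.e (nat_lit 237634) (nat_lit 27) (.e (nat_lit 336154) (nat_lit 9) (.e (nat_lit 336331) (nat_lit 19) (.e (nat_lit 220928) (nat_lit 5) .nil))))) .nil))) (.nd (nat_lit 6) 
(.lf (nat_lit 205601) (.g (nat_lit 1015) (.e (nat_lit 81664) (nat_lit 37) (.e (nat_lit 180269) (nat_lit 25) (.e (nat_lit 696344) (nat_lit 8) (.e (nat_lit 172061) (nat_lit 1) .nil)))) .nil)) 
(.lf (nat_lit 205665) (.g (nat_lit 1036) (.e (nat_lit 81664) (nat_lit 39) (.e (nat_lit 237636) (nat_lit 27) (.e (nat_lit 336194) (nat_lit 12) (.e (nat_lit 385100) (nat_lit 49) (.e (nat_lit 778322) (nat_lit 5) .nil))))) .nil)))) (.nd (nat_lit 5) (.nd (nat_lit 6) 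
(.lf (nat_lit 205585) (.g (nat_lit 1109) (.e (nat_lit 81664) (nat_lit 36) (.e (nat_lit 172150) (nat_lit 27) (.e (nat_lit 336163) (nat_lit 10) (.e (nat_lit 344168) (nat_lit 40) (.e (nat_lit 671763) (nat_lit 5) .nil))))) .nil)) 
(.lf (nat_lit 205649) (.g (nat_lit 1352) (.e (nat_lit 81664) (nat_lit 39) (.e (nat_lit 237636) (nat_lit 27) (.e (nat_lit 336087) (nat_lit 9) (.e (nat_lit 336332) (nat_lit 19) (.e (nat_lit 220928) (nat_lit 5) .nil))))) .nil))) (.nd (nat_lit 6) 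
(.lf (nat_lit 205617) (.g (nat_lit 1092) (.e (nat_lit 81664) (nat_lit 38) (.e (nat_lit 229433) (nat_lit 25) (.e (nat_lit 532515) (nat_lit 3) (.e (nat_lit 114723) (nat_lit 24) (.e (nat_lit 106531) (nat_lit 10) .nil))))) .nil)) 
(.lf (nat_lit 205681) (.g (nat_lit 833) (.e (nat_lit 81664) (nat_lit 40) (.e (nat_lit 1183) (nat_lit 87) (.e (nat_lit 57871) (nat_lit 264) (.e (nat_lit 1199) (nat_lit 88) .nil)))) .nil))))) (.nd (nat_lit 4) (.nd (nat_lit 5) (.nd (nat_lit 6) 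
(.lf (nat_lit 205577) (.g (nat_lit 244) (.e (nat_lit 81664) (nat_lit 36) (.e (nat_lit 172150) (nat_lit 27) (.e (nat_lit 336077) (nat_lit 9) .nil))) .nil)) 
(.lf (nat_lit 205641) (.g (nat_lit 1087) (.e (nat_lit 81664) (nat_lit 39) (.e (nat_lit 237636) (nat_lit 27) (.e (nat_lit 336078) (nat_lit 9) (.e (nat_lit 336330) (nat_lit 19) (.e (nat_lit 220928) (nat_lit 5) .nil))))) .nil))) (.nd (nat_lit 6) 
(.lf (nat_lit 205609) (.g (nat_lit 1207) (.e (nat_lit 81664) (nat_lit 37) (.e (nat_lit 180271) (nat_lit 26) (.e (nat_lit 704738) (nat_lit 11) (.e (nat_lit 16397) (nat_lit 0) .nil)))) .nil)) 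
(.lf (nat_lit 205673) (.g (nat_lit 1168) (.e (nat_lit 81664) (nat_lit 40) (.e (nat_lit 1181) (nat_lit 87) (.e (nat_lit 57870) (nat_lit 264) (.e (nat_lit 1199) (nat_lit 88) (.e (nat_lit 65622) (nat_lit 12) .nil))))) .nil)))) (.nd (nat_lit 5) (.nd (nat_lit 6) 
(.lf (nat_lit 205593) (.g (nat_lit 2182) (.e (nat_lit 81664) (nat_lit 36) (.e (nat_lit 172150) (nat_lit 27) (.e (nat_lit 336204) (nat_lit 12) (.e (nat_lit 385094) (nat_lit 49) (.e (nat_lit 778323) (nat_lit 5) .nil))))) .nil)) 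
(.lf (nat_lit 205657) (.g (nat_lit 234) (.e (nat_lit 81664) (nat_lit 39) (.e (nat_lit 237636) (nat_lit 27) (.e (nat_lit 336194) (nat_lit 12) .nil))) .nil))) (.nd (nat_lit 6) 
(.lf (nat_lit 205625) (.g (nat_lit 528) (.e (nat_lit 81664) (nat_lit 39) (.e (nat_lit 237633) (nat_lit 27) (.e (nat_lit 336119) (nat_lit 9) (.e (nat_lit 336331) (nat_lit 19) (.e (nat_lit 220928) (nat_lit 5) .nil))))) .nil)) 
(.lf (nat_lit 205689) (.g (nat_lit 1030) (.e (nat_lit 81664) (nat_lit 40) (.e (nat_lit 1250) (nat_lit 92) (.e (nat_lit 98350) (nat_lit 24) (.e (nat_lit 409648) (nat_lit 18) .nil)))) .nil)))))) (.nd (nat_lit 3) (.nd (nat_lit 4) (.nd (nat_lit 5) (.nd (nat_lit 6) 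
(.lf (nat_lit 205573) (.g (nat_lit 520) (.e (nat_lit 81664) (nat_lit 36) (.e (nat_lit 172149) (nat_lit 27) (.e (nat_lit 336121) (nat_lit 9) (.e (nat_lit 336331) (nat_lit 19) (.e (nat_lit 220928) (nat_lit 5) .nil))))) .nil)) 
(.lf (nat_lit 205637) (.g (nat_lit 237) (.e (nat_lit 81664) (nat_lit 39) (.e (nat_lit 237636) (nat_lit 27) (.e (nat_lit 336076) (nat_lit 9) .nil))) .nil))) (.nd (nat_lit 6) 
(.lf (nat_lit 205605) (.g (nat_lit 947) (.e (nat_lit 81664) (nat_lit 37) (.e (nat_lit 180271) (nat_lit 26) (.e (nat_lit 704629) (nat_lit 9) (.e (nat_lit 452) (nat_lit 33) .nil)))) .nil)) 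
(.lf (nat_lit 205669) (.g (nat_lit 1457) (.e (nat_lit 81664) (nat_lit 40) (.e (nat_lit 375) (nat_lit 32) (.e (nat_lit 426173) (nat_lit 7) (.e (nat_lit 417536) (nat_lit 16) .nil)))) .nil)))) (.nd (nat_lit 5) (.nd (nat_lit 6) 
(.lf (nat_lit 205589) (.g (nat_lit 1183) (.e (nat_lit 81664) (nat_lit 36) (.e (nat_lit 172150) (nat_lit 27) (.e (nat_lit 336196) (nat_lit 12) (.e (nat_lit 385100) (nat_lit 49) (.e (nat_lit 786176) (nat_lit 5) .nil))))) .nil)) 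
(.lf (nat_lit 205653) (.g (nat_lit 1182) (.e (nat_lit 81664) (nat_lit 39) (.e (nat_lit 237636) (nat_lit 27) (.e (nat_lit 336088) (nat_lit 9) (.e (nat_lit 336000) (nat_lit 1) (.e (nat_lit 57871) (nat_lit 264) .nil))))) .nil))) (.nd (nat_lit 6) 
(.lf (nat_lit 205621) (.g (nat_lit 965) (.e (nat_lit 81664) (nat_lit 38) (.e (nat_lit 229433) (nat_lit 25) (.e (nat_lit 532560) (nat_lit 14) (.e (nat_lit 376855) (nat_lit 20) .nil)))) .nil)) 
(.lf (nat_lit 205685) (.g (nat_lit 1542) (.e (nat_lit 81664) (nat_lit 40) (.e (nat_lit 1183) (nat_lit 87) (.e (nat_lit 57872) (nat_lit 264) (.e (nat_lit 1199) (nat_lit 88) (.e (nat_lit 65622) (nat_lit 12) .nil))))) .nil))))) (.nd (nat_lit 4) (.nd (nat_lit 5) (.nd (nat_lit 6) 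
(.lf (nat_lit 205581) (.g (nat_lit 1039) (.e (nat_lit 81664) (nat_lit 36) (.e (nat_lit 172150) (nat_lit 27) (.e (nat_lit 336078) (nat_lit 9) (.e (nat_lit 336330) (nat_lit 19) (.e (nat_lit 220928) (nat_lit 5) .nil))))) .nil)) 
(.lf (nat_lit 205645) (.g (nat_lit 870) (.e (nat_lit 81664) (nat_lit 39) (.e (nat_lit 237636) (nat_lit 27) (.e (nat_lit 336085) (nat_lit 9) (.e (nat_lit 336357) (nat_lit 24) (.e (nat_lit 270080) (nat_lit 5) .nil))))) .nil))) (.nd (nat_lit 6) 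
(.lf (nat_lit 205613) (.g (nat_lit 694) (.e (nat_lit 81664) (nat_lit 38) (.e (nat_lit 229433) (nat_lit 25) (.e (nat_lit 532515) (nat_lit 3) (.e (nat_lit 114722) (nat_lit 24) (.e (nat_lit 106533) (nat_lit 10) .nil))))) .nil)) 
(.lf (nat_lit 205677) (.g (nat_lit 1217) (.e (nat_lit 81664) (nat_lit 40) (.e (nat_lit 1181) (nat_lit 87) (.e (nat_lit 57872) (nat_lit 264) (.e (nat_lit 1200) (nat_lit 88) .nil)))) .nil)))) (.nd (nat_lit 5) (.nd (nat_lit 6) 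
(.lf (nat_lit 205597) (.g (nat_lit 498) (.e (nat_lit 81664) (nat_lit 37) (.e (nat_lit 180228) (nat_lit 0) (.e (nat_lit 6426) (nat_lit 342) .nil))) .nil)) 
(.lf (nat_lit 205661) (.g (nat_lit 876) (.e (nat_lit 81664) (nat_lit 39) (.e (nat_lit 237636) (nat_lit 27) (.e (nat_lit 336194) (nat_lit 12) (.e (nat_lit 385092) (nat_lit 49) .nil)))) .nil))) (.nd (nat_lit 6) 
(.lf (nat_lit 205629) (.g (nat_lit 497) (.e (nat_lit 81664) (nat_lit 39) (.e (nat_lit 237634) (nat_lit 27) (.e (nat_lit 336119) (nat_lit 9) (.e (nat_lit 336331) (nat_lit 19) (.e (nat_lit 220928) (nat_lit 5) .nil))))) .nil)) 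
(.lf (nat_lit 205693) (.g (nat_lit 1966) (.e (nat_lit 81664) (nat_lit 40) (.e (nat_lit 1255) (nat_lit 92) (.e (nat_lit 98350) (nat_lit 24) (.e (nat_lit 409647) (nat_lit 18) (.e (nat_lit 303117) (nat_lit 2) .nil))))) .nil))))))) (.nd (nat_lit 2) (.nd (nat_lit 3) (.nd (nat_lit 4) (.nd (nat_lit 5) (.nd (nat_lit 6) 
(.lf (nat_lit 205571) (.g (nat_lit 1673) (.e (nat_lit 81664) (nat_lit 36) (.e (nat_lit 172146) (nat_lit 27) (.e (nat_lit 336194) (nat_lit 12) (.e (nat_lit 385094) (nat_lit 49) (.e (nat_lit 778323) (nat_lit 5) .nil))))) .nil)) 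
(.lf (nat_lit 205635) (.g (nat_lit 979) (.e (nat_lit 81664) (nat_lit 39) (.e (nat_lit 237636) (nat_lit 27) (.e (nat_lit 336074) (nat_lit 9) (.e (nat_lit 336332) (nat_lit 19) (.e (nat_lit 220928) (nat_lit 5) .nil))))) .nil))) (.nd (nat_lit 6) 
(.lf (nat_lit 205603) (.g (nat_lit 1221) (.e (nat_lit 81664) (nat_lit 37) (.e (nat_lit 180271) (nat_lit 26) (.e (nat_lit 704629) (nat_lit 9) (.e (nat_lit 442) (nat_lit 33) .nil)))) .nil)) 
(.lf (nat_lit 205667) (.g (nat_lit 1309) (.e (nat_lit 81664) (nat_lit 39) (.e (nat_lit 237636) (nat_lit 27) (.e (nat_lit 336196) (nat_lit 12) (.e (nat_lit 385100) (nat_lit 49) (.e (nat_lit 786176) (nat_lit 5) .nil))))) .nil)))) (.nd (nat_lit 5) (.nd (nat_lit 6) 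
(.lf (nat_lit 205587) (.g (nat_lit 731) (.e (nat_lit 81664) (nat_lit 36) (.e (nat_lit 172150) (nat_lit 27) (.e (nat_lit 336186) (nat_lit 11) (.e (nat_lit 368695) (nat_lit 40) .nil)))) .nil)) 
(.lf (nat_lit 205651) (.g (nat_lit 1059) (.e (nat_lit 81664) (nat_lit 39) (.e (nat_lit 237636) (nat_lit 27) (.e (nat_lit 336088) (nat_lit 9) (.e (nat_lit 335999) (nat_lit 1) .nil)))) .nil))) (.nd (nat_lit 6) 
(.lf (nat_lit 205619) (.g (nat_lit 973) (.e (nat_lit 81664) (nat_lit 38) (.e (nat_lit 229433) (nat_lit 25) (.e (nat_lit 532530) (nat_lit 9) (.e (nat_lit 336182) (nat_lit 11) .nil)))) .nil)) 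
(.lf (nat_lit 205683) (.g (nat_lit 1225) (.e (nat_lit 81664) (nat_lit 40) (.e (nat_lit 1183) (nat_lit 87) (.e (nat_lit 57871) (nat_lit 264) (.e (nat_lit 1219) (nat_lit 90) (.e (nat_lit 81924) (nat_lit 0) .nil))))) .nil))))) (.nd (nat_lit 4) (.nd (nat_lit 5) (.nd (nat_lit 6) 
(.lf (nat_lit 205579) (.g (nat_lit 1032) (.e (nat_lit 81664) (nat_lit 36) (.e (nat_lit 172150) (nat_lit 27) (.e (nat_lit 336078) (nat_lit 9) (.e (nat_lit 336264) (nat_lit 15) .nil)))) .nil)) 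
(.lf (nat_lit 205643) (.g (nat_lit 1134) (.e (nat_lit 81664) (nat_lit 39) (.e (nat_lit 237636) (nat_lit 27) (.e (nat_lit 336078) (nat_lit 9) (.e (nat_lit 336357) (nat_lit 24) (.e (nat_lit 270080) (nat_lit 5) .nil))))) .nil))) (.nd (nat_lit 6) 
(.lf (nat_lit 205611) (.g (nat_lit 1478) (.e (nat_lit 81664) (nat_lit 37) (.e (nat_lit 180272) (nat_lit 26) (.e (nat_lit 704738) (nat_lit 11) (.e (nat_lit 16407) (nat_lit 1) .nil)))) .nil)) 
(.lf (nat_lit 205675) (.g (nat_lit 1257) (.e (nat_lit 81664) (nat_lit 40) (.e (nat_lit 1181) (nat_lit 87) (.e (nat_lit 57872) (nat_lit 264) (.e (nat_lit 1190) (nat_lit 88) .nil)))) .nil)))) (.nd (nat_lit 5) (.nd (nat_lit 6) 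
(.lf (nat_lit 205595) (.g (nat_lit 491) (.e (nat_lit 81664) (nat_lit 37) (.e (nat_lit 180225) (nat_lit 0) (.e (nat_lit 6595) (nat_lit 351) .nil))) .nil)) 
(.lf (nat_lit 205659) (.g (nat_lit 1560) (.e (nat_lit 81664) (nat_lit 39) (.e (nat_lit 237636) (nat_lit 27) (.e (nat_lit 336194) (nat_lit 12) (.e (nat_lit 385045) (nat_lit 21) .nil)))) .nil))) (.nd (nat_lit 6) 
(.lf (nat_lit 205627) (.g (nat_lit 81) (.e (nat_lit 81664) (nat_lit 39) (.e (nat_lit 237634) (nat_lit 27) (.e (nat_lit 336116) (nat_lit 9) .nil))) .nil)) 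
(.lf (nat_lit 205691) (.g (nat_lit 1793) (.e (nat_lit 81664) (nat_lit 40) (.e (nat_lit 1255) (nat_lit 92) (.e (nat_lit 98350) (nat_lit 24) (.e (nat_lit 409643) (nat_lit 18) (.e (nat_lit 303117) (nat_lit 2) .nil))))) .nil)))))) (.nd (nat_lit 3) (.nd (nat_lit 4) (.nd (nat_lit 5) (.nd (nat_lit 6) 
(.lf (nat_lit 205575) (.g (nat_lit 749) (.e (nat_lit 81664) (nat_lit 36) (.e (nat_lit 172150) (nat_lit 27) (.e (nat_lit 336070) (nat_lit 8) (.e (nat_lit 327692) (nat_lit 1) .nil)))) .nil)) 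
(.lf (nat_lit 205639) (.g (nat_lit 1353) (.e (nat_lit 81664) (nat_lit 39) (.e (nat_lit 237636) (nat_lit 27) (.e (nat_lit 336076) (nat_lit 9) (.e (nat_lit 336332) (nat_lit 19) (.e (nat_lit 220928) (nat_lit 5) .nil))))) .nil))) (.nd (nat_lit 6) 
(.lf (nat_lit 205607) (.g (nat_lit 2379) (.e (nat_lit 81664) (nat_lit 37) (.e (nat_lit 180271) (nat_lit 26) (.e (nat_lit 704738) (nat_lit 11) (.e (nat_lit 16392) (nat_lit 0) (.e (nat_lit 2397) (nat_lit 157) .nil))))) .nil)) 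
(.lf (nat_lit 205671) (.g (nat_lit 1811) (.e (nat_lit 81664) (nat_lit 40) (.e (nat_lit 375) (nat_lit 32) (.e (nat_lit 426173) (nat_lit 7) (.e (nat_lit 409648) (nat_lit 18) (.e (nat_lit 303106) (nat_lit 0) .nil))))) .nil)))) (.nd (nat_lit 5) (.nd (nat_lit 6) 
(.lf (nat_lit 205591) (.g (nat_lit 1770) (.e (nat_lit 81664) (nat_lit 36) (.e (nat_lit 172150) (nat_lit 27) (.e (nat_lit 336202) (nat_lit 12) (.e (nat_lit 385093) (nat_lit 49) (.e (nat_lit 778323) (nat_lit 5) .nil))))) .nil)) 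
(.lf (nat_lit 205655) (.g (nat_lit 327) (.e (nat_lit 81664) (nat_lit 39) (.e (nat_lit 237636) (nat_lit 27) (.e (nat_lit 336100) (nat_lit 9) .nil))) .nil))) (.nd (nat_lit 6) 
(.lf (nat_lit 205623) (.g (nat_lit 452) (.e (nat_lit 81664) (nat_lit 39) (.e (nat_lit 237633) (nat_lit 27) (.e (nat_lit 336116) (nat_lit 9) (.e (nat_lit 336331) (nat_lit 19) (.e (nat_lit 220928) (nat_lit 5) .nil))))) .nil)) 
(.lf (nat_lit 205687) (.g (nat_lit 1680) (.e (nat_lit 81664) (nat_lit 40) (.e (nat_lit 1183) (nat_lit 87) (.e (nat_lit 57872) (nat_lit 264) (.e (nat_lit 1219) (nat_lit 90) (.e (nat_lit 81924) (nat_lit 0) .nil))))) .nil))))) (.nd (nat_lit 4) (.nd (nat_lit 5) (.nd (nat_lit 6) 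
(.lf (nat_lit 205583) (.g (nat_lit 993) (.e (nat_lit 81664) (nat_lit 36) (.e (nat_lit 172150) (nat_lit 27) (.e (nat_lit 336078) (nat_lit 9) (.e (nat_lit 336357) (nat_lit 24) (.e (nat_lit 270080) (nat_lit 5) .nil))))) .nil)) 
(.lf (nat_lit 205647) (.g (nat_lit 225) (.e (nat_lit 81664) (nat_lit 39) (.e (nat_lit 237636) (nat_lit 27) (.e (nat_lit 336087) (nat_lit 9) .nil))) .nil))) (.nd (nat_lit 6) 
(.lf (nat_lit 205615) (.g (nat_lit 1144) (.e (nat_lit 81664) (nat_lit 38) (.e (nat_lit 229433) (nat_lit 25) (.e (nat_lit 532515) (nat_lit 3) (.e (nat_lit 114723) (nat_lit 24) (.e (nat_lit 106512) (nat_lit 9) .nil))))) .nil)) 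
(.lf (nat_lit 205679) (.g (nat_lit 2230) (.e (nat_lit 81664) (nat_lit 40) (.e (nat_lit 1181) (nat_lit 87) (.e (nat_lit 57872) (nat_lit 264) (.e (nat_lit 1219) (nat_lit 90) (.e (nat_lit 81922) (nat_lit 0) .nil))))) .nil)))) (.nd (nat_lit 5) (.nd (nat_lit 6) 
(.lf (nat_lit 205599) (.g (nat_lit 236) (.e (nat_lit 81664) (nat_lit 37) (.e (nat_lit 180228) (nat_lit 0) (.e (nat_lit 6428) (nat_lit 342) .nil))) .nil)) 
(.lf (nat_lit 205663) (.g (nat_lit 1669) (.e (nat_lit 81664) (nat_lit 39) (.e (nat_lit 237636) (nat_lit 27) (.e (nat_lit 336194) (nat_lit 12) (.e (nat_lit 385097) (nat_lit 49) .nil)))) .nil))) (.nd (nat_lit 6) 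
(.lf (nat_lit 205631) (.g (nat_lit 455) (.e (nat_lit 81664) (nat_lit 39) (.e (nat_lit 237634) (nat_lit 27) (.e (nat_lit 336152) (nat_lit 9) (.e (nat_lit 336331) (nat_lit 19) (.e (nat_lit 220928) (nat_lit 5) .nil))))) .nil)) 
(.lf (nat_lit 205695) (.g (nat_lit 1184) (.e (nat_lit 81664) (nat_lit 42) (.e (nat_lit 16388) (nat_lit 0) (.e (nat_lit 7591) (nat_lit 407) (.e (nat_lit 73772) (nat_lit 24) .nil)))) .nil)))))))))

noncomputable def tv2712 : DT := (.nd (nat_lit 0) (.nd (nat_lit 1) (.nd (nat_lit 2) (.nd (nat_lit 3) (.nd (nat_lit 4) (.nd (nat_lit 5) 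
(.lf (nat_lit 205696) (.g (nat_lit 1233) (.e (nat_lit 81664) (nat_lit 42) (.e (nat_lit 16388) (nat_lit 0) (.e (nat_lit 7593) (nat_lit 407) (.e (nat_lit 73772) (nat_lit 24) (.e (nat_lit 769792) (nat_lit 9) .nil))))) .nil)) 
(.lf (nat_lit 205728) (.g (nat_lit 583) (.e (nat_lit 73786) (nat_lit 45) (.e (nat_lit 1374) (nat_lit 104) (.e (nat_lit 303155) (nat_lit 29) (.e (nat_lit 360192) (nat_lit 8) .nil)))) .nil))) (.nd (nat_lit 5) 
(.lf (nat_lit 205712) (.g (nat_lit 2147) (.e (nat_lit 81664) (nat_lit 42) (.e (nat_lit 16473) (nat_lit 14) (.e (nat_lit 491560) (nat_lit 10) (.e (nat_lit 344089) (nat_lit 18) .nil)))) .nil)) 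
(.lf (nat_lit 205744) (.g (nat_lit 1774) (.e (nat_lit 73788) (nat_lit 45) (.e (nat_lit 1141) (nat_lit 84) (.e (nat_lit 32787) (nat_lit 9) (.e (nat_lit 65611) (nat_lit 10) (.e (nat_lit 344126) (nat_lit 25) (.e (nat_lit 548890) (nat_lit 10) .nil)))))) (.g (nat_lit 6) .nil .nil))))) (.nd (nat_lit 4) (.nd (nat_lit 5) 
(.lf (nat_lit 205704) (.g (nat_lit 1309) (.e (nat_lit 81664) (nat_lit 42) (.e (nat_lit 16473) (nat_lit 14) (.e (nat_lit 491558) (nat_lit 10) (.e (nat_lit 344095) (nat_lit 18) .nil)))) .nil)) 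
(.lf (nat_lit 205736) (.g (nat_lit 718) (.e (nat_lit 73787) (nat_lit 45) (.e (nat_lit 1378) (nat_lit 104) (.e (nat_lit 303155) (nat_lit 29) (.e (nat_lit 352297) (nat_lit 20) (.e (nat_lit 2003) (nat_lit 138) (.e (nat_lit 671763) (nat_lit 5) .nil)))))) (.g (nat_lit 0) .nil .nil)))) (.nd (nat_lit 5) 
(.lf (nat_lit 205720) (.g (nat_lit 1608) (.e (nat_lit 81664) (nat_lit 42) (.e (nat_lit 16473) (nat_lit 14) (.e (nat_lit 491560) (nat_lit 10) (.e (nat_lit 344096) (nat_lit 18) .nil)))) .nil)) 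
(.lf (nat_lit 205752) (.g (nat_lit 412) (.e (nat_lit 73788) (nat_lit 45) (.e (nat_lit 1162) (nat_lit 86) (.e (nat_lit 49157) (nat_lit 0) (.e (nat_lit 2985) (nat_lit 186) (.e (nat_lit 450304) (nat_lit 2) (.e (nat_lit 98048) (nat_lit 5) .nil)))))) (.g (nat_lit 4) .nil .nil)))))) (.nd (nat_lit 3) (.nd (nat_lit 4) (.nd (nat_lit 5) 
(.lf (nat_lit 205700) (.g (nat_lit 1747) (.e (nat_lit 81664) (nat_lit 42) (.e (nat_lit 16471) (nat_lit 14) (.e (nat_lit 491560) (nat_lit 10) (.e (nat_lit 344177) (nat_lit 43) .nil)))) .nil)) 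
(.lf (nat_lit 205732) (.g (nat_lit 2632) (.e (nat_lit 73787) (nat_lit 45) (.e (nat_lit 1374) (nat_lit 104) (.e (nat_lit 303155) (nat_lit 29) (.e (nat_lit 352307) (nat_lit 21) (.e (nat_lit 57873) (nat_lit 264) (.e (nat_lit 1211) (nat_lit 89) .nil)))))) (.g (nat_lit 0) .nil .nil)))) (.nd (nat_lit 5) 
(.lf (nat_lit 205716) (.g (nat_lit 2253) (.e (nat_lit 81664) (nat_lit 42) (.e (nat_lit 16473) (nat_lit 14) (.e (nat_lit 491560) (nat_lit 10) (.e (nat_lit 344091) (nat_lit 18) (.e (nat_lit 7125) (nat_lit 382) .nil))))) .nil)) 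
(.lf (nat_lit 205748) (.g (nat_lit 453) (.e (nat_lit 73788) (nat_lit 45) (.e (nat_lit 1162) (nat_lit 86) (.e (nat_lit 49156) (nat_lit 0) (.e (nat_lit 3003) (nat_lit 186) (.e (nat_lit 450304) (nat_lit 2) (.e (nat_lit 98048) (nat_lit 5) .nil)))))) (.g (nat_lit 4) .nil .nil))))) (.nd (nat_lit 4) (.nd (nat_lit 5) 
(.lf (nat_lit 205708) (.g (nat_lit 1883) (.e (nat_lit 81664) (nat_lit 42) (.e (nat_lit 16473) (nat_lit 14) (.e (nat_lit 491558) (nat_lit 10) (.e (nat_lit 344174) (nat_lit 42) (.e (nat_lit 769792) (nat_lit 9) .nil))))) .nil)) 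
(.lf (nat_lit 205740) (.g (nat_lit 1892) (.e (nat_lit 73787) (nat_lit 45) (.e (nat_lit 1379) (nat_lit 104) (.e (nat_lit 303155) (nat_lit 29) (.e (nat_lit 352318) (nat_lit 24) (.e (nat_lit 123182) (nat_lit 264) (.e (nat_lit 1212) (nat_lit 89) .nil)))))) (.g (nat_lit 6) .nil .nil)))) (.nd (nat_lit 5) 
(.lf (nat_lit 205724) (.g (nat_lit 2724) (.e (nat_lit 81664) (nat_lit 42) (.e (nat_lit 16473) (nat_lit 14) (.e (nat_lit 491560) (nat_lit 10) (.e (nat_lit 344097) (nat_lit 18) (.e (nat_lit 7146) (nat_lit 382) .nil))))) .nil)) 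
(.lf (nat_lit 205756) (.g (nat_lit 349) (.e (nat_lit 73788) (nat_lit 45) (.e (nat_lit 1162) (nat_lit 86) (.e (nat_lit 49157) (nat_lit 0) (.e (nat_lit 3012) (nat_lit 187) (.e (nat_lit 458496) (nat_lit 8) (.e (nat_lit 564992) (nat_lit 5) .nil)))))) (.g (nat_lit 4) .nil .nil))))))) (.nd (nat_lit 2) (.nd (nat_lit 3) (.nd (nat_lit 4) (.nd (nat_lit 5) 
(.lf (nat_lit 205698) (.g (nat_lit 1901) (.e (nat_lit 81664) (nat_lit 42) (.e (nat_lit 16469) (nat_lit 14) (.e (nat_lit 491560) (nat_lit 10) (.e (nat_lit 344177) (nat_lit 43) .nil)))) .nil)) 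
(.lf (nat_lit 205730) (.g (nat_lit 2752) (.e (nat_lit 73786) (nat_lit 45) (.e (nat_lit 1374) (nat_lit 104) (.e (nat_lit 303155) (nat_lit 29) (.e (nat_lit 352307) (nat_lit 21) (.e (nat_lit 57873) (nat_lit 264) (.e (nat_lit 1211) (nat_lit 89) .nil)))))) (.g (nat_lit 0) .nil .nil)))) (.nd (nat_lit 5) 
(.lf (nat_lit 205714) (.g (nat_lit 2297) (.e (nat_lit 81664) (nat_lit 42) (.e (nat_lit 16473) (nat_lit 14) (.e (nat_lit 491560) (nat_lit 10) (.e (nat_lit 344090) (nat_lit 18) (.e (nat_lit 7125) (nat_lit 382) .nil))))) .nil)) 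
(.lf (nat_lit 205746) (.g (nat_lit 1039) (.e (nat_lit 73788) (nat_lit 45) (.e (nat_lit 1141) (nat_lit 84) (.e (nat_lit 32788) (nat_lit 10) (.e (nat_lit 73791) (nat_lit 45) (.e (nat_lit 1141) (nat_lit 84) (.e (nat_lit 32788) (nat_lit 10) .nil)))))) (.g (nat_lit 0) .nil .nil))))) (.nd (nat_lit 4) (.nd (nat_lit 5) 
(.lf (nat_lit 205706) (.g (nat_lit 2353) (.e (nat_lit 81664) (nat_lit 42) (.e (nat_lit 16473) (nat_lit 14) (.e (nat_lit 491558) (nat_lit 10) (.e (nat_lit 344097) (nat_lit 18) (.e (nat_lit 7146) (nat_lit 382) .nil))))) .nil)) 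
(.lf (nat_lit 205738) (.g (nat_lit 1928) (.e (nat_lit 73787) (nat_lit 45) (.e (nat_lit 1378) (nat_lit 104) (.e (nat_lit 303155) (nat_lit 29) (.e (nat_lit 352318) (nat_lit 24) (.e (nat_lit 123182) (nat_lit 264) (.e (nat_lit 1212) (nat_lit 89) .nil)))))) (.g (nat_lit 6) .nil .nil)))) (.nd (nat_lit 5) 
(.lf (nat_lit 205722) (.g (nat_lit 2179) (.e (nat_lit 81664) (nat_lit 42) (.e (nat_lit 16473) (nat_lit 14) (.e (nat_lit 491560) (nat_lit 10) (.e (nat_lit 344096) (nat_lit 18) (.e (nat_lit 7125) (nat_lit 382) .nil))))) .nil)) 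
(.lf (nat_lit 205754) (.g (nat_lit 585) (.e (nat_lit 73788) (nat_lit 45) (.e (nat_lit 1162) (nat_lit 86) (.e (nat_lit 49157) (nat_lit 0) (.e (nat_lit 3003) (nat_lit 186) (.e (nat_lit 450304) (nat_lit 2) (.e (nat_lit 98048) (nat_lit 5) .nil)))))) (.g (nat_lit 4) .nil .nil)))))) (.nd (nat_lit 3) (.nd (nat_lit 4) (.nd (nat_lit 5) 
(.lf (nat_lit 205702) (.g (nat_lit 1520) (.e (nat_lit 81664) (nat_lit 42) (.e (nat_lit 16473) (nat_lit 14) (.e (nat_lit 491558) (nat_lit 10) (.e (nat_lit 344090) (nat_lit 18) .nil)))) .nil)) 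
(.lf (nat_lit 205734) (.g (nat_lit 513) (.e (nat_lit 73787) (nat_lit 45) (.e (nat_lit 1374) (nat_lit 104) (.e (nat_lit 311040) (nat_lit 30) .nil))) .nil))) (.nd (nat_lit 5) 
(.lf (nat_lit 205718) (.g (nat_lit 1760) (.e (nat_lit 81664) (nat_lit 42) (.e (nat_lit 16473) (nat_lit 14) (.e (nat_lit 491560) (nat_lit 10) (.e (nat_lit 344094) (nat_lit 18) (.e (nat_lit 7122) (nat_lit 382) .nil))))) .nil)) 
(.lf (nat_lit 205750) (.g (nat_lit 282) (.e (nat_lit 73788) (nat_lit 45) (.e (nat_lit 1162) (nat_lit 86) (.e (nat_lit 49156) (nat_lit 0) (.e (nat_lit 3012) (nat_lit 187) (.e (nat_lit 458496) (nat_lit 8) (.e (nat_lit 564992) (nat_lit 5) .nil)))))) (.g (nat_lit 4) .nil .nil))))) (.nd (nat_lit 4) (.nd (nat_lit 5) 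
(.lf (nat_lit 205710) (.g (nat_lit 933) (.e (nat_lit 81664) (nat_lit 42) (.e (nat_lit 16473) (nat_lit 14) (.e (nat_lit 491559) (nat_lit 10) .nil))) .nil)) 
(.lf (nat_lit 205742) (.g (nat_lit 2613) (.e (nat_lit 73788) (nat_lit 45) (.e (nat_lit 1140) (nat_lit 84) (.e (nat_lit 32787) (nat_lit 9) (.e (nat_lit 65624) (nat_lit 12) (.e (nat_lit 385074) (nat_lit 31) (.e (nat_lit 573489) (nat_lit 14) .nil)))))) (.g (nat_lit 6) .nil .nil)))) (.nd (nat_lit 5) 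
(.lf (nat_lit 205726) (.g (nat_lit 2693) (.e (nat_lit 81664) (nat_lit 42) (.e (nat_lit 16473) (nat_lit 14) (.e (nat_lit 491560) (nat_lit 10) (.e (nat_lit 344174) (nat_lit 42) (.e (nat_lit 769792) (nat_lit 9) .nil))))) .nil)) 
(.lf (nat_lit 205758) (.g (nat_lit 298) (.e (nat_lit 73788) (nat_lit 45) (.e (nat_lit 1163) (nat_lit 86) (.e (nat_lit 49156) (nat_lit 0) (.e (nat_lit 2985) (nat_lit 186) (.e (nat_lit 450304) (nat_lit 2) (.e (nat_lit 98048) (nat_lit 5) .nil)))))) (.g (nat_lit 4) .nil .nil)))))))) (.nd (nat_lit 1) (.nd (nat_lit 2) (.nd (nat_lit 3) (.nd (nat_lit 4) (.nd (nat_lit 5) 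
(.lf (nat_lit 205697) (.g (nat_lit 1066) (.e (nat_lit 81664) (nat_lit 42) (.e (nat_lit 16388) (nat_lit 0) (.e (nat_lit 7593) (nat_lit 407) (.e (nat_lit 73773) (nat_lit 25) .nil)))) .nil)) 
(.lf (nat_lit 205729) (.g (nat_lit 1037) (.e (nat_lit 73786) (nat_lit 45) (.e (nat_lit 1374) (nat_lit 104) (.e (nat_lit 303155) (nat_lit 29) (.e (nat_lit 352307) (nat_lit 21) (.e (nat_lit 57870) (nat_lit 264) (.e (nat_lit 1210) (nat_lit 89) .nil)))))) (.g (nat_lit 4) .nil .nil)))) (.nd (nat_lit 5) 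
(.lf (nat_lit 205713) (.g (nat_lit 1692) (.e (nat_lit 81664) (nat_lit 42) (.e (nat_lit 16473) (nat_lit 14) (.e (nat_lit 491560) (nat_lit 10) (.e (nat_lit 344090) (nat_lit 18) .nil)))) .nil)) 
(.lf (nat_lit 205745) (.g (nat_lit 1024) (.e (nat_lit 73788) (nat_lit 45) (.e (nat_lit 1141) (nat_lit 84) (.e (nat_lit 32788) (nat_lit 10) (.e (nat_lit 73788) (nat_lit 45) (.e (nat_lit 1141) (nat_lit 84) (.e (nat_lit 32788) (nat_lit 10) .nil)))))) (.g (nat_lit 0) .nil .nil))))) (.nd (nat_lit 4) (.nd (nat_lit 5) 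
(.lf (nat_lit 205705) (.g (nat_lit 1252) (.e (nat_lit 81664) (nat_lit 42) (.e (nat_lit 16473) (nat_lit 14) (.e (nat_lit 491558) (nat_lit 10) (.e (nat_lit 344096) (nat_lit 18) .nil)))) .nil)) 
(.lf (nat_lit 205737) (.g (nat_lit 2188) (.e (nat_lit 73787) (nat_lit 45) (.e (nat_lit 1378) (nat_lit 104) (.e (nat_lit 303155) (nat_lit 29) (.e (nat_lit 352307) (nat_lit 21) (.e (nat_lit 57873) (nat_lit 264) (.e (nat_lit 1211) (nat_lit 89) .nil)))))) (.g (nat_lit 6) .nil .nil)))) (.nd (nat_lit 5) 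
(.lf (nat_lit 205721) (.g (nat_lit 2406) (.e (nat_lit 81664) (nat_lit 42) (.e (nat_lit 16473) (nat_lit 14) (.e (nat_lit 491560) (nat_lit 10) (.e (nat_lit 344096) (nat_lit 18) (.e (nat_lit 7122) (nat_lit 382) .nil))))) .nil)) 
(.lf (nat_lit 205753) (.g (nat_lit 256) (.e (nat_lit 73788) (nat_lit 45) (.e (nat_lit 1162) (nat_lit 86) (.e (nat_lit 49157) (nat_lit 0) (.e (nat_lit 2997) (nat_lit 186) .nil)))) .nil))))) (.nd (nat_lit 3) (.nd (nat_lit 4) (.nd (nat_lit 5) 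
(.lf (nat_lit 205701) (.g (nat_lit 2999) (.e (nat_lit 81664) (nat_lit 42) (.e (nat_lit 16472) (nat_lit 14) (.e (nat_lit 491560) (nat_lit 10) (.e (nat_lit 344177) (nat_lit 43) (.e (nat_lit 770073) (nat_lit 9) .nil))))) .nil)) 
(.lf (nat_lit 205733) (.g (nat_lit 2287) (.e (nat_lit 73787) (nat_lit 45) (.e (nat_lit 1374) (nat_lit 104) (.e (nat_lit 303155) (nat_lit 29) (.e (nat_lit 352318) (nat_lit 24) (.e (nat_lit 123182) (nat_lit 264) (.e (nat_lit 1212) (nat_lit 89) .nil)))))) (.g (nat_lit 6) .nil .nil)))) (.nd (nat_lit 5) 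
(.lf (nat_lit 205717) (.g (nat_lit 1347) (.e (nat_lit 81664) (nat_lit 42) (.e (nat_lit 16473) (nat_lit 14) (.e (nat_lit 491560) (nat_lit 10) (.e (nat_lit 344094) (nat_lit 18) .nil)))) .nil)) 
(.lf (nat_lit 205749) (.g (nat_lit 1196) (.e (nat_lit 73788) (nat_lit 45) (.e (nat_lit 1162) (nat_lit 86) (.e (nat_lit 49156) (nat_lit 0) (.e (nat_lit 3011) (nat_lit 187) (.e (nat_lit 450584) (nat_lit 9) (.e (nat_lit 565268) (nat_lit 5) .nil)))))) (.g (nat_lit 6) .nil .nil))))) (.nd (nat_lit 4) (.nd (nat_lit 5) 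
(.lf (nat_lit 205709) (.g (nat_lit 2175) (.e (nat_lit 81664) (nat_lit 42) (.e (nat_lit 16473) (nat_lit 14) (.e (nat_lit 491558) (nat_lit 10) (.e (nat_lit 344176) (nat_lit 43) (.e (nat_lit 770073) (nat_lit 9) .nil))))) .nil)) 
(.lf (nat_lit 205741) (.g (nat_lit 1766) (.e (nat_lit 73788) (nat_lit 45) (.e (nat_lit 1140) (nat_lit 84) (.e (nat_lit 32787) (nat_lit 9) (.e (nat_lit 65611) (nat_lit 10) (.e (nat_lit 344126) (nat_lit 25) (.e (nat_lit 548890) (nat_lit 10) .nil)))))) (.g (nat_lit 6) .nil .nil)))) (.nd (nat_lit 5) 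
(.lf (nat_lit 205725) (.g (nat_lit 1338) (.e (nat_lit 81664) (nat_lit 42) (.e (nat_lit 16473) (nat_lit 14) (.e (nat_lit 491560) (nat_lit 10) (.e (nat_lit 344173) (nat_lit 42) (.e (nat_lit 769792) (nat_lit 9) .nil))))) .nil)) 
(.lf (nat_lit 205757) (.g (nat_lit 947) (.e (nat_lit 73788) (nat_lit 45) (.e (nat_lit 1162) (nat_lit 86) (.e (nat_lit 49157) (nat_lit 0) (.e (nat_lit 3026) (nat_lit 187) (.e (nat_lit 458496) (nat_lit 8) (.e (nat_lit 564992) (nat_lit 5) .nil)))))) (.g (nat_lit 4) .nil .nil))))))) (.nd (nat_lit 2) (.nd (nat_lit 3) (.nd (nat_lit 4) (.nd (nat_lit 5) 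
(.lf (nat_lit 205699) (.g (nat_lit 2878) (.e (nat_lit 81664) (nat_lit 42) (.e (nat_lit 16470) (nat_lit 14) (.e (nat_lit 491560) (nat_lit 10) (.e (nat_lit 344177) (nat_lit 43) .nil)))) .nil)) 
(.lf (nat_lit 205731) (.g (nat_lit 187) (.e (nat_lit 73786) (nat_lit 45) (.e (nat_lit 1376) (nat_lit 104) (.e (nat_lit 303155) (nat_lit 29) (.e (nat_lit 360192) (nat_lit 8) .nil)))) .nil))) (.nd (nat_lit 5) 
(.lf (nat_lit 205715) (.g (nat_lit 1743) (.e (nat_lit 81664) (nat_lit 42) (.e (nat_lit 16473) (nat_lit 14) (.e (nat_lit 491560) (nat_lit 10) (.e (nat_lit 344091) (nat_lit 18) .nil)))) .nil)) 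
(.lf (nat_lit 205747) (.g (nat_lit 343) (.e (nat_lit 73788) (nat_lit 45) (.e (nat_lit 1162) (nat_lit 86) (.e (nat_lit 49156) (nat_lit 0) (.e (nat_lit 2985) (nat_lit 186) (.e (nat_lit 450304) (nat_lit 2) (.e (nat_lit 98048) (nat_lit 5) .nil)))))) (.g (nat_lit 4) .nil .nil))))) (.nd (nat_lit 4) (.nd (nat_lit 5) 
(.lf (nat_lit 205707) (.g (nat_lit 1688) (.e (nat_lit 81664) (nat_lit 42) (.e (nat_lit 16473) (nat_lit 14) (.e (nat_lit 491558) (nat_lit 10) (.e (nat_lit 344100) (nat_lit 18) (.e (nat_lit 7147) (nat_lit 382) .nil))))) .nil)) 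
(.lf (nat_lit 205739) (.g (nat_lit 96) (.e (nat_lit 73787) (nat_lit 45) (.e (nat_lit 1378) (nat_lit 104) (.e (nat_lit 311040) (nat_lit 29) .nil))) .nil))) (.nd (nat_lit 5) 
(.lf (nat_lit 205723) (.g (nat_lit 1673) (.e (nat_lit 81664) (nat_lit 42) (.e (nat_lit 16473) (nat_lit 14) (.e (nat_lit 491560) (nat_lit 10) (.e (nat_lit 344097) (nat_lit 18) .nil)))) .nil)) 
(.lf (nat_lit 205755) (.g (nat_lit 554) (.e (nat_lit 73788) (nat_lit 45) (.e (nat_lit 1162) (nat_lit 86) (.e (nat_lit 49157) (nat_lit 0) (.e (nat_lit 3011) (nat_lit 187) (.e (nat_lit 458496) (nat_lit 8) .nil))))) .nil))))) (.nd (nat_lit 3) (.nd (nat_lit 4) (.nd (nat_lit 5) 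
(.lf (nat_lit 205703) (.g (nat_lit 1960) (.e (nat_lit 81664) (nat_lit 42) (.e (nat_lit 16473) (nat_lit 14) (.e (nat_lit 491558) (nat_lit 10) (.e (nat_lit 344091) (nat_lit 18) (.e (nat_lit 7125) (nat_lit 382) .nil))))) .nil)) 
(.lf (nat_lit 205735) (.g (nat_lit 1952) (.e (nat_lit 73787) (nat_lit 45) (.e (nat_lit 1376) (nat_lit 104) (.e (nat_lit 303155) (nat_lit 29) (.e (nat_lit 352318) (nat_lit 24) (.e (nat_lit 123182) (nat_lit 264) (.e (nat_lit 1212) (nat_lit 89) .nil)))))) (.g (nat_lit 6) .nil .nil)))) (.nd (nat_lit 5) 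
(.lf (nat_lit 205719) (.g (nat_lit 1702) (.e (nat_lit 81664) (nat_lit 42) (.e (nat_lit 16473) (nat_lit 14) (.e (nat_lit 491560) (nat_lit 10) (.e (nat_lit 344094) (nat_lit 18) (.e (nat_lit 7125) (nat_lit 382) .nil))))) .nil)) 
(.lf (nat_lit 205751) (.g (nat_lit 613) (.e (nat_lit 73788) (nat_lit 45) (.e (nat_lit 1162) (nat_lit 86) (.e (nat_lit 49156) (nat_lit 0) (.e (nat_lit 3026) (nat_lit 187) (.e (nat_lit 458496) (nat_lit 8) (.e (nat_lit 564992) (nat_lit 5) .nil)))))) (.g (nat_lit 4) .nil .nil))))) (.nd (nat_lit 4) (.nd (nat_lit 5) 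
(.lf (nat_lit 205711) (.g (nat_lit 511) (.e (nat_lit 81664) (nat_lit 42) (.e (nat_lit 16473) (nat_lit 14) (.e (nat_lit 491560) (nat_lit 10) .nil))) .nil)) 
(.lf (nat_lit 205743) (.g (nat_lit 1728) (.e (nat_lit 73788) (nat_lit 45) (.e (nat_lit 1141) (nat_lit 84) (.e (nat_lit 32787) (nat_lit 9) (.e (nat_lit 65610) (nat_lit 10) (.e (nat_lit 344126) (nat_lit 25) (.e (nat_lit 548890) (nat_lit 10) .nil)))))) (.g (nat_lit 0) .nil .nil)))) (.nd (nat_lit 5) 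
(.lf (nat_lit 205727) (.g (nat_lit 469) (.e (nat_lit 73786) (nat_lit 45) (.e (nat_lit 1374) (nat_lit 104) (.e (nat_lit 303155) (nat_lit 29) .nil))) .nil)) 
(.lf (nat_lit 205759) (.g (nat_lit 408) (.e (nat_lit 73788) (nat_lit 45) (.e (nat_lit 1163) (nat_lit 86) (.e (nat_lit 49156) (nat_lit 0) (.e (nat_lit 3003) (nat_lit 186) (.e (nat_lit 450304) (nat_lit 2) (.e (nat_lit 98048) (nat_lit 5) .nil)))))) (.g (nat_lit 4) .nil .nil)))))))))

noncomputable def tv2713 : DT := (.nd (nat_lit 0) (.nd (nat_lit 1) (.nd (nat_lit 2) (.nd (nat_lit 3) (.nd (nat_lit 4) (.nd (nat_lit 5) 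
(.lf (nat_lit 205760) (.g (nat_lit 243) (.e (nat_lit 73788) (nat_lit 45) (.e (nat_lit 1163) (nat_lit 86) (.e (nat_lit 49156) (nat_lit 0) (.e (nat_lit 3012) (nat_lit 187) (.e (nat_lit 458496) (nat_lit 8) (.e (nat_lit 564992) (nat_lit 5) .nil)))))) (.g (nat_lit 4) .nil .nil))) 
(.lf (nat_lit 205792) (.g (nat_lit 1132) (.e (nat_lit 73788) (nat_lit 45) (.e (nat_lit 1386) (nat_lit 105) (.e (nat_lit 311358) (nat_lit 29) (.e (nat_lit 352318) (nat_lit 24) (.e (nat_lit 123185) (nat_lit 264) (.e (nat_lit 7936) (nat_lit 89) .nil)))))) (.g (nat_lit 5) .nil .nil)))) (.nd (nat_lit 5) 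
(.lf (nat_lit 205776) (.g (nat_lit 983) (.e (nat_lit 73788) (nat_lit 45) (.e (nat_lit 1385) (nat_lit 105) (.e (nat_lit 311358) (nat_lit 29) (.e (nat_lit 352318) (nat_lit 24) (.e (nat_lit 123185) (nat_lit 264) (.e (nat_lit 7936) (nat_lit 89) .nil)))))) (.g (nat_lit 5) .nil .nil))) 
(.lf (nat_lit 205808) (.g (nat_lit 1916) (.e (nat_lit 73789) (nat_lit 45) (.e (nat_lit 1139) (nat_lit 84) (.e (nat_lit 32787) (nat_lit 9) (.e (nat_lit 65628) (nat_lit 14) (.e (nat_lit 401412) (nat_lit 0) (.e (nat_lit 3142) (nat_lit 193) (.e (nat_lit 500071) (nat_lit 19) .nil))))))) (.g (nat_lit 5) .nil .nil))))) (.nd (nat_lit 4) (.nd (nat_lit 5) 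
(.lf (nat_lit 205768) (.g (nat_lit 1062) (.e (nat_lit 73788) (nat_lit 45) (.e (nat_lit 1385) (nat_lit 105) (.e (nat_lit 311358) (nat_lit 29) (.e (nat_lit 352287) (nat_lit 20) (.e (nat_lit 1998) (nat_lit 137) (.e (nat_lit 663568) (nat_lit 5) .nil)))))) (.g (nat_lit 6) .nil .nil))) 
(.lf (nat_lit 205800) (.g (nat_lit 1486) (.e (nat_lit 73789) (nat_lit 45) (.e (nat_lit 1139) (nat_lit 84) (.e (nat_lit 32787) (nat_lit 9) (.e (nat_lit 65586) (nat_lit 7) (.e (nat_lit 319500) (nat_lit 10) (.e (nat_lit 562) (nat_lit 41) (.e (nat_lit 500070) (nat_lit 19) .nil))))))) (.g (nat_lit 5) .nil .nil)))) (.nd (nat_lit 5) 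
(.lf (nat_lit 205784) (.g (nat_lit 1196) (.e (nat_lit 73788) (nat_lit 45) (.e (nat_lit 1386) (nat_lit 105) (.e (nat_lit 311358) (nat_lit 29) (.e (nat_lit 352287) (nat_lit 20) (.e (nat_lit 1998) (nat_lit 137) (.e (nat_lit 663568) (nat_lit 5) .nil)))))) (.g (nat_lit 6) .nil .nil))) 
(.lf (nat_lit 205816) (.g (nat_lit 1184) (.e (nat_lit 73789) (nat_lit 45) (.e (nat_lit 1139) (nat_lit 84) (.e (nat_lit 32789) (nat_lit 11) (.e (nat_lit 81943) (nat_lit 20) (.e (nat_lit 1841) (nat_lit 123) (.e (nat_lit 548890) (nat_lit 10) .nil)))))) (.g (nat_lit 5) .nil .nil)))))) (.nd (nat_lit 3) (.nd (nat_lit 4) (.nd (nat_lit 5) 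
(.lf (nat_lit 205764) (.g (nat_lit 502) (.e (nat_lit 73788) (nat_lit 45) (.e (nat_lit 1163) (nat_lit 86) (.e (nat_lit 49157) (nat_lit 0) (.e (nat_lit 3011) (nat_lit 187) (.e (nat_lit 458496) (nat_lit 8) .nil))))) .nil)) 
(.lf (nat_lit 205796) (.g (nat_lit 1701) (.e (nat_lit 73788) (nat_lit 45) (.e (nat_lit 1386) (nat_lit 105) (.e (nat_lit 319232) (nat_lit 30) (.e (nat_lit 360452) (nat_lit 0) (.e (nat_lit 5907) (nat_lit 320) (.e (nat_lit 1210) (nat_lit 89) .nil)))))) (.g (nat_lit 5) .nil .nil)))) (.nd (nat_lit 5) 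
(.lf (nat_lit 205780) (.g (nat_lit 277) (.e (nat_lit 73788) (nat_lit 45) (.e (nat_lit 1385) (nat_lit 105) (.e (nat_lit 319232) (nat_lit 30) (.e (nat_lit 360455) (nat_lit 0) (.e (nat_lit 5813) (nat_lit 320) (.e (nat_lit 7936) (nat_lit 89) .nil)))))) (.g (nat_lit 5) .nil .nil))) 
(.lf (nat_lit 205812) (.g (nat_lit 995) (.e (nat_lit 73789) (nat_lit 45) (.e (nat_lit 1139) (nat_lit 84) (.e (nat_lit 32788) (nat_lit 10) (.e (nat_lit 73791) (nat_lit 45) (.e (nat_lit 1140) (nat_lit 84) (.e (nat_lit 32788) (nat_lit 10) .nil)))))) (.g (nat_lit 5) .nil .nil))))) (.nd (nat_lit 4) (.nd (nat_lit 5) 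
(.lf (nat_lit 205772) (.g (nat_lit 1982) (.e (nat_lit 73788) (nat_lit 45) (.e (nat_lit 1385) (nat_lit 105) (.e (nat_lit 311358) (nat_lit 29) (.e (nat_lit 352309) (nat_lit 21) (.e (nat_lit 57873) (nat_lit 264) (.e (nat_lit 1211) (nat_lit 89) .nil)))))) (.g (nat_lit 6) .nil .nil))) 
(.lf (nat_lit 205804) (.g (nat_lit 2190) (.e (nat_lit 73789) (nat_lit 45) (.e (nat_lit 1139) (nat_lit 84) (.e (nat_lit 32787) (nat_lit 9) (.e (nat_lit 65628) (nat_lit 14) (.e (nat_lit 401412) (nat_lit 0) (.e (nat_lit 3123) (nat_lit 193) (.e (nat_lit 500071) (nat_lit 19) .nil))))))) (.g (nat_lit 7) .nil .nil)))) (.nd (nat_lit 5) 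
(.lf (nat_lit 205788) (.g (nat_lit 2140) (.e (nat_lit 73788) (nat_lit 45) (.e (nat_lit 1386) (nat_lit 105) (.e (nat_lit 311358) (nat_lit 29) (.e (nat_lit 352309) (nat_lit 21) (.e (nat_lit 57873) (nat_lit 264) (.e (nat_lit 1211) (nat_lit 89) .nil)))))) (.g (nat_lit 6) .nil .nil))) 
(.lf (nat_lit 205820) (.g (nat_lit 2102) (.e (nat_lit 73789) (nat_lit 45) (.e (nat_lit 1139) (nat_lit 84) (.e (nat_lit 32789) (nat_lit 11) (.e (nat_lit 81947) (nat_lit 20) (.e (nat_lit 1842) (nat_lit 123) (.e (nat_lit 548890) (nat_lit 10) .nil)))))) (.g (nat_lit 6) .nil .nil))))))) (.nd (nat_lit 2) (.nd (nat_lit 3) (.nd (nat_lit 4) (.nd (nat_lit 5) 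
(.lf (nat_lit 205762) (.g (nat_lit 365) (.e (nat_lit 73788) (nat_lit 45) (.e (nat_lit 1163) (nat_lit 86) (.e (nat_lit 49157) (nat_lit 0) (.e (nat_lit 2985) (nat_lit 186) (.e (nat_lit 450304) (nat_lit 2) (.e (nat_lit 98048) (nat_lit 5) .nil)))))) (.g (nat_lit 4) .nil .nil))) 
(.lf (nat_lit 205794) (.g (nat_lit 1274) (.e (nat_lit 73788) (nat_lit 45) (.e (nat_lit 1386) (nat_lit 105) (.e (nat_lit 319232) (nat_lit 30) (.e (nat_lit 360451) (nat_lit 0) (.e (nat_lit 5896) (nat_lit 320) (.e (nat_lit 7936) (nat_lit 89) .nil)))))) (.g (nat_lit 5) .nil .nil)))) (.nd (nat_lit 5) 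
(.lf (nat_lit 205778) (.g (nat_lit 1291) (.e (nat_lit 73788) (nat_lit 45) (.e (nat_lit 1385) (nat_lit 105) (.e (nat_lit 319232) (nat_lit 30) (.e (nat_lit 360451) (nat_lit 0) (.e (nat_lit 5898) (nat_lit 320) (.e (nat_lit 7936) (nat_lit 89) .nil)))))) (.g (nat_lit 5) .nil .nil))) 
(.lf (nat_lit 205810) (.g (nat_lit 2578) (.e (nat_lit 73789) (nat_lit 45) (.e (nat_lit 1139) (nat_lit 84) (.e (nat_lit 32787) (nat_lit 9) (.e (nat_lit 65630) (nat_lit 14) (.e (nat_lit 401412) (nat_lit 0) (.e (nat_lit 3142) (nat_lit 193) (.e (nat_lit 500071) (nat_lit 19) .nil))))))) (.g (nat_lit 5) .nil .nil))))) (.nd (nat_lit 4) (.nd (nat_lit 5) 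
(.lf (nat_lit 205770) (.g (nat_lit 983) (.e (nat_lit 73788) (nat_lit 45) (.e (nat_lit 1385) (nat_lit 105) (.e (nat_lit 311358) (nat_lit 29) (.e (nat_lit 352302) (nat_lit 20) (.e (nat_lit 2006) (nat_lit 138) .nil))))) .nil)) 
(.lf (nat_lit 205802) (.g (nat_lit 2357) (.e (nat_lit 73789) (nat_lit 45) (.e (nat_lit 1139) (nat_lit 84) (.e (nat_lit 32787) (nat_lit 9) (.e (nat_lit 65628) (nat_lit 14) (.e (nat_lit 401412) (nat_lit 0) (.e (nat_lit 3107) (nat_lit 193) (.e (nat_lit 500071) (nat_lit 19) .nil))))))) (.g (nat_lit 7) .nil .nil)))) (.nd (nat_lit 5) 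
(.lf (nat_lit 205786) (.g (nat_lit 2069) (.e (nat_lit 73788) (nat_lit 45) (.e (nat_lit 1386) (nat_lit 105) (.e (nat_lit 311358) (nat_lit 29) (.e (nat_lit 352307) (nat_lit 21) (.e (nat_lit 57873) (nat_lit 264) (.e (nat_lit 1211) (nat_lit 89) .nil)))))) (.g (nat_lit 6) .nil .nil))) 
(.lf (nat_lit 205818) (.g (nat_lit 1518) (.e (nat_lit 73789) (nat_lit 45) (.e (nat_lit 1139) (nat_lit 84) (.e (nat_lit 32789) (nat_lit 11) (.e (nat_lit 81946) (nat_lit 20) (.e (nat_lit 1841) (nat_lit 123) (.e (nat_lit 548890) (nat_lit 10) .nil)))))) (.g (nat_lit 5) .nil .nil)))))) (.nd (nat_lit 3) (.nd (nat_lit 4) (.nd (nat_lit 5) 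
(.lf (nat_lit 205766) (.g (nat_lit 901) (.e (nat_lit 73788) (nat_lit 45) (.e (nat_lit 1163) (nat_lit 86) (.e (nat_lit 49157) (nat_lit 0) (.e (nat_lit 3026) (nat_lit 187) (.e (nat_lit 458496) (nat_lit 8) (.e (nat_lit 564992) (nat_lit 5) .nil)))))) (.g (nat_lit 4) .nil .nil))) 
(.lf (nat_lit 205798) (.g (nat_lit 479) (.e (nat_lit 73788) (nat_lit 45) (.e (nat_lit 1386) (nat_lit 105) (.e (nat_lit 319232) (nat_lit 30) (.e (nat_lit 360455) (nat_lit 0) (.e (nat_lit 5813) (nat_lit 320) (.e (nat_lit 7936) (nat_lit 89) .nil)))))) (.g (nat_lit 5) .nil .nil)))) (.nd (nat_lit 5) 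
(.lf (nat_lit 205782) (.g (nat_lit 783) (.e (nat_lit 73788) (nat_lit 45) (.e (nat_lit 1386) (nat_lit 105) (.e (nat_lit 311358) (nat_lit 29) (.e (nat_lit 352280) (nat_lit 20) (.e (nat_lit 2003) (nat_lit 138) .nil))))) .nil)) 
(.lf (nat_lit 205814) (.g (nat_lit 455) (.e (nat_lit 73789) (nat_lit 45) (.e (nat_lit 1139) (nat_lit 84) (.e (nat_lit 32789) (nat_lit 11) (.e (nat_lit 81939) (nat_lit 20) .nil)))) .nil)))) (.nd (nat_lit 4) (.nd (nat_lit 5) 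
(.lf (nat_lit 205774) (.g (nat_lit 857) (.e (nat_lit 73788) (nat_lit 45) (.e (nat_lit 1385) (nat_lit 105) (.e (nat_lit 311358) (nat_lit 29) (.e (nat_lit 352316) (nat_lit 24) (.e (nat_lit 123185) (nat_lit 264) (.e (nat_lit 7936) (nat_lit 89) .nil)))))) (.g (nat_lit 5) .nil .nil))) 
(.lf (nat_lit 205806) (.g (nat_lit 2197) (.e (nat_lit 73789) (nat_lit 45) (.e (nat_lit 1139) (nat_lit 84) (.e (nat_lit 32787) (nat_lit 9) (.e (nat_lit 65628) (nat_lit 14) (.e (nat_lit 401412) (nat_lit 0) (.e (nat_lit 3132) (nat_lit 193) (.e (nat_lit 500071) (nat_lit 19) .nil))))))) (.g (nat_lit 7) .nil .nil)))) (.nd (nat_lit 5) 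
(.lf (nat_lit 205790) (.g (nat_lit 995) (.e (nat_lit 73788) (nat_lit 45) (.e (nat_lit 1386) (nat_lit 105) (.e (nat_lit 311358) (nat_lit 29) (.e (nat_lit 352316) (nat_lit 24) (.e (nat_lit 123185) (nat_lit 264) (.e (nat_lit 7936) (nat_lit 89) .nil)))))) (.g (nat_lit 5) .nil .nil))) 
(.lf (nat_lit 205822) (.g (nat_lit 1572) (.e (nat_lit 73789) (nat_lit 45) (.e (nat_lit 1140) (nat_lit 84) (.e (nat_lit 32787) (nat_lit 9) (.e (nat_lit 65586) (nat_lit 7) (.e (nat_lit 319500) (nat_lit 10) (.e (nat_lit 562) (nat_lit 41) (.e (nat_lit 500070) (nat_lit 19) .nil))))))) (.g (nat_lit 5) .nil .nil)))))))) (.nd (nat_lit 1) (.nd (nat_lit 2) (.nd (nat_lit 3) (.nd (nat_lit 4) (.nd (nat_lit 5) 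
(.lf (nat_lit 205761) (.g (nat_lit 566) (.e (nat_lit 73788) (nat_lit 45) (.e (nat_lit 1163) (nat_lit 86) (.e (nat_lit 49156) (nat_lit 0) (.e (nat_lit 3026) (nat_lit 187) (.e (nat_lit 458496) (nat_lit 8) (.e (nat_lit 564992) (nat_lit 5) .nil)))))) (.g (nat_lit 4) .nil .nil))) 
(.lf (nat_lit 205793) (.g (nat_lit 1160) (.e (nat_lit 73788) (nat_lit 45) (.e (nat_lit 1386) (nat_lit 105) (.e (nat_lit 319232) (nat_lit 30) (.e (nat_lit 360450) (nat_lit 0) (.e (nat_lit 5898) (nat_lit 320) (.e (nat_lit 7936) (nat_lit 89) .nil)))))) (.g (nat_lit 5) .nil .nil)))) (.nd (nat_lit 5) 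
(.lf (nat_lit 205777) (.g (nat_lit 1078) (.e (nat_lit 73788) (nat_lit 45) (.e (nat_lit 1385) (nat_lit 105) (.e (nat_lit 319232) (nat_lit 30) (.e (nat_lit 360451) (nat_lit 0) (.e (nat_lit 5896) (nat_lit 320) (.e (nat_lit 7936) (nat_lit 89) .nil)))))) (.g (nat_lit 5) .nil .nil))) 
(.lf (nat_lit 205809) (.g (nat_lit 2732) (.e (nat_lit 73789) (nat_lit 45) (.e (nat_lit 1139) (nat_lit 84) (.e (nat_lit 32787) (nat_lit 9) (.e (nat_lit 65628) (nat_lit 14) (.e (nat_lit 401425) (nat_lit 2) (.e (nat_lit 204544) (nat_lit 14) .nil)))))) (.g (nat_lit 5) .nil .nil))))) (.nd (nat_lit 4) (.nd (nat_lit 5) 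
(.lf (nat_lit 205769) (.g (nat_lit 560) (.e (nat_lit 73788) (nat_lit 45) (.e (nat_lit 1385) (nat_lit 105) (.e (nat_lit 311358) (nat_lit 29) (.e (nat_lit 352296) (nat_lit 20) (.e (nat_lit 2003) (nat_lit 138) .nil))))) .nil)) 
(.lf (nat_lit 205801) (.g (nat_lit 2776) (.e (nat_lit 73789) (nat_lit 45) (.e (nat_lit 1139) (nat_lit 84) (.e (nat_lit 32787) (nat_lit 9) (.e (nat_lit 65624) (nat_lit 12) (.e (nat_lit 385074) (nat_lit 31) (.e (nat_lit 573489) (nat_lit 14) .nil)))))) (.g (nat_lit 6) .nil .nil)))) (.nd (nat_lit 5) 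
(.lf (nat_lit 205785) (.g (nat_lit 674) (.e (nat_lit 73788) (nat_lit 45) (.e (nat_lit 1386) (nat_lit 105) (.e (nat_lit 311358) (nat_lit 29) (.e (nat_lit 352296) (nat_lit 20) (.e (nat_lit 2003) (nat_lit 138) .nil))))) .nil)) 
(.lf (nat_lit 205817) (.g (nat_lit 1496) (.e (nat_lit 73789) (nat_lit 45) (.e (nat_lit 1139) (nat_lit 84) (.e (nat_lit 32789) (nat_lit 11) (.e (nat_lit 81943) (nat_lit 20) (.e (nat_lit 1842) (nat_lit 123) (.e (nat_lit 548890) (nat_lit 10) .nil)))))) (.g (nat_lit 5) .nil .nil)))))) (.nd (nat_lit 3) (.nd (nat_lit 4) (.nd (nat_lit 5) 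
(.lf (nat_lit 205765) (.g (nat_lit 302) (.e (nat_lit 73788) (nat_lit 45) (.e (nat_lit 1163) (nat_lit 86) (.e (nat_lit 49157) (nat_lit 0) (.e (nat_lit 3012) (nat_lit 187) (.e (nat_lit 458496) (nat_lit 8) (.e (nat_lit 564992) (nat_lit 5) .nil)))))) (.g (nat_lit 4) .nil .nil))) 
(.lf (nat_lit 205797) (.g (nat_lit 1582) (.e (nat_lit 73788) (nat_lit 45) (.e (nat_lit 1386) (nat_lit 105) (.e (nat_lit 319232) (nat_lit 30) (.e (nat_lit 360453) (nat_lit 0) (.e (nat_lit 5907) (nat_lit 320) (.e (nat_lit 1210) (nat_lit 89) .nil)))))) (.g (nat_lit 5) .nil .nil)))) (.nd (nat_lit 5) 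
(.lf (nat_lit 205781) (.g (nat_lit 795) (.e (nat_lit 73788) (nat_lit 45) (.e (nat_lit 1386) (nat_lit 105) (.e (nat_lit 311358) (nat_lit 29) (.e (nat_lit 352266) (nat_lit 0) .nil)))) .nil)) 
(.lf (nat_lit 205813) (.g (nat_lit 1074) (.e (nat_lit 73789) (nat_lit 45) (.e (nat_lit 1139) (nat_lit 84) (.e (nat_lit 32788) (nat_lit 10) (.e (nat_lit 73791) (nat_lit 45) (.e (nat_lit 1141) (nat_lit 84) (.e (nat_lit 32788) (nat_lit 10) .nil)))))) (.g (nat_lit 5) .nil .nil))))) (.nd (nat_lit 4) (.nd (nat_lit 5) 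
(.lf (nat_lit 205773) (.g (nat_lit 920) (.e (nat_lit 73788) (nat_lit 45) (.e (nat_lit 1385) (nat_lit 105) (.e (nat_lit 311358) (nat_lit 29) (.e (nat_lit 352316) (nat_lit 24) (.e (nat_lit 123185) (nat_lit 264) (.e (nat_lit 1213) (nat_lit 89) .nil)))))) (.g (nat_lit 5) .nil .nil))) 
(.lf (nat_lit 205805) (.g (nat_lit 1743) (.e (nat_lit 73789) (nat_lit 45) (.e (nat_lit 1139) (nat_lit 84) (.e (nat_lit 32787) (nat_lit 9) (.e (nat_lit 65628) (nat_lit 14) (.e (nat_lit 401412) (nat_lit 0) (.e (nat_lit 3127) (nat_lit 193) (.e (nat_lit 500071) (nat_lit 19) .nil))))))) (.g (nat_lit 5) .nil .nil)))) (.nd (nat_lit 5) 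
(.lf (nat_lit 205789) (.g (nat_lit 1062) (.e (nat_lit 73788) (nat_lit 45) (.e (nat_lit 1386) (nat_lit 105) (.e (nat_lit 311358) (nat_lit 29) (.e (nat_lit 352316) (nat_lit 24) (.e (nat_lit 123185) (nat_lit 264) (.e (nat_lit 1213) (nat_lit 89) .nil)))))) (.g (nat_lit 5) .nil .nil))) 
(.lf (nat_lit 205821) (.g (nat_lit 1416) (.e (nat_lit 73789) (nat_lit 45) (.e (nat_lit 1140) (nat_lit 84) (.e (nat_lit 32787) (nat_lit 9) (.e (nat_lit 65586) (nat_lit 7) (.e (nat_lit 319500) (nat_lit 10) (.e (nat_lit 511) (nat_lit 41) (.e (nat_lit 500068) (nat_lit 19) .nil))))))) (.g (nat_lit 5) .nil .nil))))))) (.nd (nat_lit 2) (.nd (nat_lit 3) (.nd (nat_lit 4) (.nd (nat_lit 5) 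
(.lf (nat_lit 205763) (.g (nat_lit 539) (.e (nat_lit 73788) (nat_lit 45) (.e (nat_lit 1163) (nat_lit 86) (.e (nat_lit 49157) (nat_lit 0) (.e (nat_lit 3003) (nat_lit 186) (.e (nat_lit 450304) (nat_lit 2) (.e (nat_lit 98048) (nat_lit 5) .nil)))))) (.g (nat_lit 4) .nil .nil))) 
(.lf (nat_lit 205795) (.g (nat_lit 1487) (.e (nat_lit 73788) (nat_lit 45) (.e (nat_lit 1386) (nat_lit 105) (.e (nat_lit 319232) (nat_lit 30) (.e (nat_lit 360451) (nat_lit 0) (.e (nat_lit 5898) (nat_lit 320) (.e (nat_lit 7936) (nat_lit 89) .nil)))))) (.g (nat_lit 5) .nil .nil)))) (.nd (nat_lit 5) 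
(.lf (nat_lit 205779) (.g (nat_lit 1498) (.e (nat_lit 73788) (nat_lit 45) (.e (nat_lit 1385) (nat_lit 105) (.e (nat_lit 319232) (nat_lit 30) (.e (nat_lit 360452) (nat_lit 0) (.e (nat_lit 5907) (nat_lit 320) (.e (nat_lit 1210) (nat_lit 89) .nil)))))) (.g (nat_lit 5) .nil .nil))) 
(.lf (nat_lit 205811) (.g (nat_lit 968) (.e (nat_lit 73789) (nat_lit 45) (.e (nat_lit 1139) (nat_lit 84) (.e (nat_lit 32788) (nat_lit 10) (.e (nat_lit 73789) (nat_lit 45) (.e (nat_lit 1139) (nat_lit 84) (.e (nat_lit 32788) (nat_lit 10) .nil)))))) (.g (nat_lit 4) .nil .nil))))) (.nd (nat_lit 4) (.nd (nat_lit 5) 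
(.lf (nat_lit 205771) (.g (nat_lit 1912) (.e (nat_lit 73788) (nat_lit 45) (.e (nat_lit 1385) (nat_lit 105) (.e (nat_lit 311358) (nat_lit 29) (.e (nat_lit 352307) (nat_lit 21) (.e (nat_lit 57873) (nat_lit 264) (.e (nat_lit 1211) (nat_lit 89) .nil)))))) (.g (nat_lit 0) .nil .nil))) 
(.lf (nat_lit 205803) (.g (nat_lit 2225) (.e (nat_lit 73789) (nat_lit 45) (.e (nat_lit 1139) (nat_lit 84) (.e (nat_lit 32787) (nat_lit 9) (.e (nat_lit 65628) (nat_lit 14) (.e (nat_lit 401412) (nat_lit 0) (.e (nat_lit 3122) (nat_lit 193) (.e (nat_lit 500071) (nat_lit 19) .nil))))))) (.g (nat_lit 7) .nil .nil)))) (.nd (nat_lit 5) 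
(.lf (nat_lit 205787) (.g (nat_lit 1758) (.e (nat_lit 73788) (nat_lit 45) (.e (nat_lit 1386) (nat_lit 105) (.e (nat_lit 311358) (nat_lit 29) (.e (nat_lit 352309) (nat_lit 21) (.e (nat_lit 57873) (nat_lit 264) (.e (nat_lit 1210) (nat_lit 89) .nil)))))) (.g (nat_lit 5) .nil .nil))) 
(.lf (nat_lit 205819) (.g (nat_lit 1831) (.e (nat_lit 73789) (nat_lit 45) (.e (nat_lit 1139) (nat_lit 84) (.e (nat_lit 32789) (nat_lit 11) (.e (nat_lit 81946) (nat_lit 20) (.e (nat_lit 1842) (nat_lit 123) (.e (nat_lit 548890) (nat_lit 10) .nil)))))) (.g (nat_lit 5) .nil .nil)))))) (.nd (nat_lit 3) (.nd (nat_lit 4) (.nd (nat_lit 5) 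
(.lf (nat_lit 205767) (.g (nat_lit 673) (.e (nat_lit 73788) (nat_lit 45) (.e (nat_lit 1385) (nat_lit 105) (.e (nat_lit 311358) (nat_lit 29) (.e (nat_lit 352266) (nat_lit 0) .nil)))) .nil)) 
(.lf (nat_lit 205799) (.g (nat_lit 1330) (.e (nat_lit 73789) (nat_lit 45) (.e (nat_lit 1139) (nat_lit 84) (.e (nat_lit 32787) (nat_lit 9) (.e (nat_lit 65586) (nat_lit 7) (.e (nat_lit 319500) (nat_lit 10) (.e (nat_lit 511) (nat_lit 41) (.e (nat_lit 500068) (nat_lit 19) .nil))))))) (.g (nat_lit 5) .nil .nil)))) (.nd (nat_lit 5) 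
(.lf (nat_lit 205783) (.g (nat_lit 1192) (.e (nat_lit 73788) (nat_lit 45) (.e (nat_lit 1386) (nat_lit 105) (.e (nat_lit 311358) (nat_lit 29) (.e (nat_lit 352283) (nat_lit 20) (.e (nat_lit 1998) (nat_lit 137) (.e (nat_lit 663568) (nat_lit 5) .nil)))))) (.g (nat_lit 6) .nil .nil))) 
(.lf (nat_lit 205815) (.g (nat_lit 1027) (.e (nat_lit 73789) (nat_lit 45) (.e (nat_lit 1139) (nat_lit 84) (.e (nat_lit 32789) (nat_lit 11) (.e (nat_lit 81943) (nat_lit 20) (.e (nat_lit 1840) (nat_lit 123) (.e (nat_lit 548890) (nat_lit 10) .nil)))))) (.g (nat_lit 4) .nil .nil))))) (.nd (nat_lit 4) (.nd (nat_lit 5) 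
(.lf (nat_lit 205775) (.g (nat_lit 1092) (.e (nat_lit 73788) (nat_lit 45) (.e (nat_lit 1385) (nat_lit 105) (.e (nat_lit 311358) (nat_lit 29) (.e (nat_lit 352318) (nat_lit 24) (.e (nat_lit 123185) (nat_lit 264) (.e (nat_lit 1213) (nat_lit 89) .nil)))))) (.g (nat_lit 6) .nil .nil))) 
(.lf (nat_lit 205807) (.g (nat_lit 2259) (.e (nat_lit 73789) (nat_lit 45) (.e (nat_lit 1139) (nat_lit 84) (.e (nat_lit 32787) (nat_lit 9) (.e (nat_lit 65628) (nat_lit 14) (.e (nat_lit 401412) (nat_lit 0) (.e (nat_lit 3133) (nat_lit 193) (.e (nat_lit 500071) (nat_lit 19) .nil))))))) (.g (nat_lit 7) .nil .nil)))) (.nd (nat_lit 5) 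
(.lf (nat_lit 205791) (.g (nat_lit 1245) (.e (nat_lit 73788) (nat_lit 45) (.e (nat_lit 1386) (nat_lit 105) (.e (nat_lit 311358) (nat_lit 29) (.e (nat_lit 352318) (nat_lit 24) (.e (nat_lit 123185) (nat_lit 264) (.e (nat_lit 1213) (nat_lit 89) .nil)))))) (.g (nat_lit 6) .nil .nil))) 
(.lf (nat_lit 205823) (.g (nat_lit 1883) (.e (nat_lit 73789) (nat_lit 45) (.e (nat_lit 1140) (nat_lit 84) (.e (nat_lit 32787) (nat_lit 9) (.e (nat_lit 65611) (nat_lit 10) (.e (nat_lit 344126) (nat_lit 25) (.e (nat_lit 548890) (nat_lit 10) .nil)))))) (.g (nat_lit 6) .nil .nil)))))))))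

noncomputable def tv2714 : DT := (.nd (nat_lit 0) (.nd (nat_lit 1) (.nd (nat_lit 2) (.nd (nat_lit 3) (.nd (nat_lit 4) (.nd (nat_lit 5) 
(.lf (nat_lit 205824) (.g (nat_lit 2689) (.e (nat_lit 73789) (nat_lit 45) (.e (nat_lit 1140) (nat_lit 84) (.e (nat_lit 32787) (nat_lit 9) (.e (nat_lit 65624) (nat_lit 12) (.e (nat_lit 385074) (nat_lit 31) (.e (nat_lit 573489) (nat_lit 14) .nil)))))) (.g (nat_lit 6) .nil .nil))) 
(.lf (nat_lit 205856) (.g (nat_lit 1388) (.e (nat_lit 73789) (nat_lit 45) (.e (nat_lit 1162) (nat_lit 86) (.e (nat_lit 49156) (nat_lit 0) (.e (nat_lit 3011) (nat_lit 187) (.e (nat_lit 450584) (nat_lit 9) (.e (nat_lit 565268) (nat_lit 5) .nil)))))) (.g (nat_lit 6) .nil .nil)))) (.nd (nat_lit 5) 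
(.lf (nat_lit 205840) (.g (nat_lit 2216) (.e (nat_lit 73789) (nat_lit 45) (.e (nat_lit 1141) (nat_lit 84) (.e (nat_lit 32787) (nat_lit 9) (.e (nat_lit 65628) (nat_lit 14) (.e (nat_lit 401412) (nat_lit 0) (.e (nat_lit 3123) (nat_lit 193) (.e (nat_lit 500071) (nat_lit 19) .nil))))))) (.g (nat_lit 7) .nil .nil))) 
(.lf (nat_lit 205872) (.g (nat_lit 678) (.e (nat_lit 73789) (nat_lit 45) (.e (nat_lit 1163) (nat_lit 86) (.e (nat_lit 49157) (nat_lit 0) (.e (nat_lit 3011) (nat_lit 187) (.e (nat_lit 458496) (nat_lit 8) (.e (nat_lit 564992) (nat_lit 5) .nil)))))) (.g (nat_lit 4) .nil .nil))))) (.nd (nat_lit 4) (.nd (nat_lit 5) 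
(.lf (nat_lit 205832) (.g (nat_lit 2926) (.e (nat_lit 73789) (nat_lit 45) (.e (nat_lit 1140) (nat_lit 84) (.e (nat_lit 32787) (nat_lit 9) (.e (nat_lit 65630) (nat_lit 14) (.e (nat_lit 401412) (nat_lit 0) (.e (nat_lit 3132) (nat_lit 193) (.e (nat_lit 500071) (nat_lit 19) .nil))))))) (.g (nat_lit 7) .nil .nil))) 
(.lf (nat_lit 205864) (.g (nat_lit 497) (.e (nat_lit 73789) (nat_lit 45) (.e (nat_lit 1163) (nat_lit 86) (.e (nat_lit 49156) (nat_lit 0) (.e (nat_lit 2985) (nat_lit 186) (.e (nat_lit 450304) (nat_lit 2) (.e (nat_lit 98048) (nat_lit 5) .nil)))))) (.g (nat_lit 4) .nil .nil)))) (.nd (nat_lit 5) 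
(.lf (nat_lit 205848) (.g (nat_lit 2924) (.e (nat_lit 73789) (nat_lit 45) (.e (nat_lit 1141) (nat_lit 84) (.e (nat_lit 32787) (nat_lit 9) (.e (nat_lit 65630) (nat_lit 14) (.e (nat_lit 401412) (nat_lit 0) (.e (nat_lit 3132) (nat_lit 193) (.e (nat_lit 500071) (nat_lit 19) .nil))))))) (.g (nat_lit 7) .nil .nil))) 
(.lf (nat_lit 205880) (.g (nat_lit 723) (.e (nat_lit 73789) (nat_lit 45) (.e (nat_lit 1340) (nat_lit 101) (.e (nat_lit 278531) (nat_lit 0) (.e (nat_lit 5779) (nat_lit 317) (.e (nat_lit 180260) (nat_lit 18) (.e (nat_lit 639022) (nat_lit 17) .nil)))))) (.g (nat_lit 4) .nil .nil)))))) (.nd (nat_lit 3) (.nd (nat_lit 4) (.nd (nat_lit 5) 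
(.lf (nat_lit 205828) (.g (nat_lit 2731) (.e (nat_lit 73789) (nat_lit 45) (.e (nat_lit 1140) (nat_lit 84) (.e (nat_lit 32787) (nat_lit 9) (.e (nat_lit 65628) (nat_lit 14) (.e (nat_lit 401425) (nat_lit 2) (.e (nat_lit 204544) (nat_lit 14) .nil)))))) (.g (nat_lit 5) .nil .nil))) 
(.lf (nat_lit 205860) (.g (nat_lit 781) (.e (nat_lit 73789) (nat_lit 45) (.e (nat_lit 1162) (nat_lit 86) (.e (nat_lit 49157) (nat_lit 0) (.e (nat_lit 3003) (nat_lit 186) (.e (nat_lit 450304) (nat_lit 2) (.e (nat_lit 98048) (nat_lit 5) .nil)))))) (.g (nat_lit 4) .nil .nil)))) (.nd (nat_lit 5) 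
(.lf (nat_lit 205844) (.g (nat_lit 2740) (.e (nat_lit 73789) (nat_lit 45) (.e (nat_lit 1141) (nat_lit 84) (.e (nat_lit 32787) (nat_lit 9) (.e (nat_lit 65628) (nat_lit 14) (.e (nat_lit 401425) (nat_lit 2) (.e (nat_lit 204544) (nat_lit 14) .nil)))))) (.g (nat_lit 5) .nil .nil))) 
(.lf (nat_lit 205876) (.g (nat_lit 1691) (.e (nat_lit 73789) (nat_lit 45) (.e (nat_lit 1340) (nat_lit 101) (.e (nat_lit 278529) (nat_lit 0) (.e (nat_lit 5779) (nat_lit 317) (.e (nat_lit 180228) (nat_lit 0) (.e (nat_lit 5069) (nat_lit 292) (.e (nat_lit 7936) (nat_lit 89) .nil))))))) (.g (nat_lit 6) .nil .nil))))) (.nd (nat_lit 4) (.nd (nat_lit 5) 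
(.lf (nat_lit 205836) (.g (nat_lit 1441) (.e (nat_lit 73789) (nat_lit 45) (.e (nat_lit 1141) (nat_lit 84) (.e (nat_lit 32787) (nat_lit 9) (.e (nat_lit 65586) (nat_lit 7) (.e (nat_lit 319500) (nat_lit 10) (.e (nat_lit 511) (nat_lit 41) (.e (nat_lit 500068) (nat_lit 19) .nil))))))) (.g (nat_lit 5) .nil .nil))) 
(.lf (nat_lit 205868) (.g (nat_lit 443) (.e (nat_lit 73789) (nat_lit 45) (.e (nat_lit 1163) (nat_lit 86) (.e (nat_lit 49156) (nat_lit 0) (.e (nat_lit 3012) (nat_lit 187) (.e (nat_lit 458496) (nat_lit 8) (.e (nat_lit 564992) (nat_lit 5) .nil)))))) (.g (nat_lit 4) .nil .nil)))) (.nd (nat_lit 5) 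
(.lf (nat_lit 205852) (.g (nat_lit 529) (.e (nat_lit 73789) (nat_lit 45) (.e (nat_lit 1160) (nat_lit 86) (.e (nat_lit 49157) (nat_lit 0) (.e (nat_lit 3011) (nat_lit 187) (.e (nat_lit 458496) (nat_lit 9) .nil))))) .nil)) 
(.lf (nat_lit 205884) (.g (nat_lit 751) (.e (nat_lit 73789) (nat_lit 45) (.e (nat_lit 1342) (nat_lit 101) (.e (nat_lit 278529) (nat_lit 0) (.e (nat_lit 5779) (nat_lit 317) (.e (nat_lit 180259) (nat_lit 17) (.e (nat_lit 630822) (nat_lit 17) .nil)))))) (.g (nat_lit 4) .nil .nil))))))) (.nd (nat_lit 2) (.nd (nat_lit 3) (.nd (nat_lit 4) (.nd (nat_lit 5) 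
(.lf (nat_lit 205826) (.g (nat_lit 1751) (.e (nat_lit 73789) (nat_lit 45) (.e (nat_lit 1140) (nat_lit 84) (.e (nat_lit 32787) (nat_lit 9) (.e (nat_lit 65628) (nat_lit 14) (.e (nat_lit 401412) (nat_lit 0) (.e (nat_lit 3127) (nat_lit 193) (.e (nat_lit 500071) (nat_lit 19) .nil))))))) (.g (nat_lit 5) .nil .nil))) 
(.lf (nat_lit 205858) (.g (nat_lit 808) (.e (nat_lit 73789) (nat_lit 45) (.e (nat_lit 1162) (nat_lit 86) (.e (nat_lit 49156) (nat_lit 0) (.e (nat_lit 3026) (nat_lit 187) (.e (nat_lit 458496) (nat_lit 8) (.e (nat_lit 564992) (nat_lit 5) .nil)))))) (.g (nat_lit 4) .nil .nil)))) (.nd (nat_lit 5) 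
(.lf (nat_lit 205842) (.g (nat_lit 2223) (.e (nat_lit 73789) (nat_lit 45) (.e (nat_lit 1141) (nat_lit 84) (.e (nat_lit 32787) (nat_lit 9) (.e (nat_lit 65628) (nat_lit 14) (.e (nat_lit 401412) (nat_lit 0) (.e (nat_lit 3132) (nat_lit 193) (.e (nat_lit 500071) (nat_lit 19) .nil))))))) (.g (nat_lit 7) .nil .nil))) 
(.lf (nat_lit 205874) (.g (nat_lit 1098) (.e (nat_lit 73789) (nat_lit 45) (.e (nat_lit 1163) (nat_lit 86) (.e (nat_lit 49157) (nat_lit 0) (.e (nat_lit 3026) (nat_lit 187) (.e (nat_lit 458496) (nat_lit 8) (.e (nat_lit 564992) (nat_lit 5) .nil)))))) (.g (nat_lit 4) .nil .nil))))) (.nd (nat_lit 4) (.nd (nat_lit 5) 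
(.lf (nat_lit 205834) (.g (nat_lit 2753) (.e (nat_lit 73789) (nat_lit 45) (.e (nat_lit 1140) (nat_lit 84) (.e (nat_lit 32787) (nat_lit 9) (.e (nat_lit 65630) (nat_lit 14) (.e (nat_lit 401425) (nat_lit 2) (.e (nat_lit 204544) (nat_lit 14) .nil)))))) (.g (nat_lit 5) .nil .nil))) 
(.lf (nat_lit 205866) (.g (nat_lit 484) (.e (nat_lit 73789) (nat_lit 45) (.e (nat_lit 1163) (nat_lit 86) (.e (nat_lit 49156) (nat_lit 0) (.e (nat_lit 3011) (nat_lit 187) (.e (nat_lit 458496) (nat_lit 8) (.e (nat_lit 564992) (nat_lit 5) .nil)))))) (.g (nat_lit 4) .nil .nil)))) (.nd (nat_lit 5) 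
(.lf (nat_lit 205850) (.g (nat_lit 2747) (.e (nat_lit 73789) (nat_lit 45) (.e (nat_lit 1141) (nat_lit 84) (.e (nat_lit 32787) (nat_lit 9) (.e (nat_lit 65630) (nat_lit 14) (.e (nat_lit 401425) (nat_lit 2) (.e (nat_lit 204544) (nat_lit 14) .nil)))))) (.g (nat_lit 5) .nil .nil))) 
(.lf (nat_lit 205882) (.g (nat_lit 815) (.e (nat_lit 73789) (nat_lit 45) (.e (nat_lit 1340) (nat_lit 101) (.e (nat_lit 278546) (nat_lit 8) (.e (nat_lit 303140) (nat_lit 10) (.e (nat_lit 434266) (nat_lit 35) .nil))))) .nil))))) (.nd (nat_lit 3) (.nd (nat_lit 4) (.nd (nat_lit 5) 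
(.lf (nat_lit 205830) (.g (nat_lit 2919) (.e (nat_lit 73789) (nat_lit 45) (.e (nat_lit 1140) (nat_lit 84) (.e (nat_lit 32787) (nat_lit 9) (.e (nat_lit 65630) (nat_lit 14) (.e (nat_lit 401412) (nat_lit 0) (.e (nat_lit 3123) (nat_lit 193) (.e (nat_lit 500071) (nat_lit 19) .nil))))))) (.g (nat_lit 7) .nil .nil))) 
(.lf (nat_lit 205862) (.g (nat_lit 544) (.e (nat_lit 73789) (nat_lit 45) (.e (nat_lit 1162) (nat_lit 86) (.e (nat_lit 49157) (nat_lit 0) (.e (nat_lit 3012) (nat_lit 187) (.e (nat_lit 458496) (nat_lit 8) (.e (nat_lit 564992) (nat_lit 5) .nil)))))) (.g (nat_lit 4) .nil .nil)))) (.nd (nat_lit 5) 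
(.lf (nat_lit 205846) (.g (nat_lit 2917) (.e (nat_lit 73789) (nat_lit 45) (.e (nat_lit 1141) (nat_lit 84) (.e (nat_lit 32787) (nat_lit 9) (.e (nat_lit 65630) (nat_lit 14) (.e (nat_lit 401412) (nat_lit 0) (.e (nat_lit 3123) (nat_lit 193) (.e (nat_lit 500071) (nat_lit 19) .nil))))))) (.g (nat_lit 7) .nil .nil))) 
(.lf (nat_lit 205878) (.g (nat_lit 1341) (.e (nat_lit 73789) (nat_lit 45) (.e (nat_lit 1340) (nat_lit 101) (.e (nat_lit 278531) (nat_lit 0) (.e (nat_lit 5779) (nat_lit 317) (.e (nat_lit 180228) (nat_lit 0) (.e (nat_lit 5069) (nat_lit 292) (.e (nat_lit 7936) (nat_lit 89) .nil))))))) (.g (nat_lit 5) .nil .nil))))) (.nd (nat_lit 4) (.nd (nat_lit 5) 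
(.lf (nat_lit 205838) (.g (nat_lit 1908) (.e (nat_lit 73789) (nat_lit 45) (.e (nat_lit 1141) (nat_lit 84) (.e (nat_lit 32787) (nat_lit 9) (.e (nat_lit 65611) (nat_lit 10) (.e (nat_lit 344126) (nat_lit 25) (.e (nat_lit 548890) (nat_lit 10) .nil)))))) (.g (nat_lit 6) .nil .nil))) 
(.lf (nat_lit 205870) (.g (nat_lit 564) (.e (nat_lit 73789) (nat_lit 45) (.e (nat_lit 1163) (nat_lit 86) (.e (nat_lit 49157) (nat_lit 0) (.e (nat_lit 2985) (nat_lit 186) (.e (nat_lit 450304) (nat_lit 2) (.e (nat_lit 98048) (nat_lit 5) .nil)))))) (.g (nat_lit 4) .nil .nil)))) (.nd (nat_lit 5) 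
(.lf (nat_lit 205854) (.g (nat_lit 651) (.e (nat_lit 73789) (nat_lit 45) (.e (nat_lit 1162) (nat_lit 86) (.e (nat_lit 49156) (nat_lit 0) (.e (nat_lit 3003) (nat_lit 186) (.e (nat_lit 450304) (nat_lit 2) (.e (nat_lit 98048) (nat_lit 5) .nil)))))) (.g (nat_lit 4) .nil .nil))) 
(.lf (nat_lit 205886) (.g (nat_lit 1508) (.e (nat_lit 73789) (nat_lit 45) (.e (nat_lit 1342) (nat_lit 101) (.e (nat_lit 278531) (nat_lit 0) (.e (nat_lit 5776) (nat_lit 317) (.e (nat_lit 180229) (nat_lit 0) (.e (nat_lit 5069) (nat_lit 292) (.e (nat_lit 7936) (nat_lit 89) .nil))))))) (.g (nat_lit 5) .nil .nil)))))))) 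
(.nd (nat_lit 1) (.nd (nat_lit 2) (.nd (nat_lit 3) (.nd (nat_lit 4) (.nd (nat_lit 5) 
(.lf (nat_lit 205825) (.g (nat_lit 2362) (.e (nat_lit 73789) (nat_lit 45) (.e (nat_lit 1140) (nat_lit 84) (.e (nat_lit 32787) (nat_lit 9) (.e (nat_lit 65628) (nat_lit 14) (.e (nat_lit 401412) (nat_lit 0) (.e (nat_lit 3107) (nat_lit 193) (.e (nat_lit 500071) (nat_lit 19) .nil))))))) (.g (nat_lit 7) .nil .nil))) 
(.lf (nat_lit 205857) (.g (nat_lit 476) (.e (nat_lit 73789) (nat_lit 45) (.e (nat_lit 1162) (nat_lit 86) (.e (nat_lit 49156) (nat_lit 0) (.e (nat_lit 3012) (nat_lit 187) (.e (nat_lit 458496) (nat_lit 8) (.e (nat_lit 564992) (nat_lit 5) .nil)))))) (.g (nat_lit 4) .nil .nil)))) (.nd (nat_lit 5) 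
(.lf (nat_lit 205841) (.g (nat_lit 1773) (.e (nat_lit 73789) (nat_lit 45) (.e (nat_lit 1141) (nat_lit 84) (.e (nat_lit 32787) (nat_lit 9) (.e (nat_lit 65628) (nat_lit 14) (.e (nat_lit 401412) (nat_lit 0) (.e (nat_lit 3127) (nat_lit 193) (.e (nat_lit 500071) (nat_lit 19) .nil))))))) (.g (nat_lit 5) .nil .nil))) 
(.lf (nat_lit 205873) (.g (nat_lit 500) (.e (nat_lit 73789) (nat_lit 45) (.e (nat_lit 1163) (nat_lit 86) (.e (nat_lit 49157) (nat_lit 0) (.e (nat_lit 3012) (nat_lit 187) (.e (nat_lit 458496) (nat_lit 8) (.e (nat_lit 564992) (nat_lit 5) .nil)))))) (.g (nat_lit 4) .nil .nil))))) (.nd (nat_lit 4) (.nd (nat_lit 5) 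
(.lf (nat_lit 205833) (.g (nat_lit 2645) (.e (nat_lit 73789) (nat_lit 45) (.e (nat_lit 1140) (nat_lit 84) (.e (nat_lit 32787) (nat_lit 9) (.e (nat_lit 65630) (nat_lit 14) (.e (nat_lit 401412) (nat_lit 0) (.e (nat_lit 3142) (nat_lit 193) (.e (nat_lit 500071) (nat_lit 19) .nil))))))) (.g (nat_lit 5) .nil .nil))) 
(.lf (nat_lit 205865) (.g (nat_lit 608) (.e (nat_lit 73789) (nat_lit 45) (.e (nat_lit 1163) (nat_lit 86) (.e (nat_lit 49156) (nat_lit 0) (.e (nat_lit 3003) (nat_lit 186) (.e (nat_lit 450304) (nat_lit 2) (.e (nat_lit 98048) (nat_lit 5) .nil)))))) (.g (nat_lit 4) .nil .nil)))) (.nd (nat_lit 5) 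
(.lf (nat_lit 205849) (.g (nat_lit 2647) (.e (nat_lit 73789) (nat_lit 45) (.e (nat_lit 1141) (nat_lit 84) (.e (nat_lit 32787) (nat_lit 9) (.e (nat_lit 65630) (nat_lit 14) (.e (nat_lit 401412) (nat_lit 0) (.e (nat_lit 3142) (nat_lit 193) (.e (nat_lit 500071) (nat_lit 19) .nil))))))) (.g (nat_lit 5) .nil .nil))) 
(.lf (nat_lit 205881) (.g (nat_lit 680) (.e (nat_lit 73789) (nat_lit 45) (.e (nat_lit 1340) (nat_lit 101) (.e (nat_lit 278546) (nat_lit 8) (.e (nat_lit 303137) (nat_lit 10) (.e (nat_lit 434266) (nat_lit 35) .nil))))) .nil))))) (.nd (nat_lit 3) (.nd (nat_lit 4) (.nd (nat_lit 5) 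
(.lf (nat_lit 205829) (.g (nat_lit 2951) (.e (nat_lit 73789) (nat_lit 45) (.e (nat_lit 1140) (nat_lit 84) (.e (nat_lit 32787) (nat_lit 9) (.e (nat_lit 65630) (nat_lit 14) (.e (nat_lit 401412) (nat_lit 0) (.e (nat_lit 3122) (nat_lit 193) (.e (nat_lit 500071) (nat_lit 19) .nil))))))) (.g (nat_lit 7) .nil .nil))) 
(.lf (nat_lit 205861) (.g (nat_lit 723) (.e (nat_lit 73789) (nat_lit 45) (.e (nat_lit 1162) (nat_lit 86) (.e (nat_lit 49157) (nat_lit 0) (.e (nat_lit 3011) (nat_lit 187) (.e (nat_lit 458496) (nat_lit 8) (.e (nat_lit 564992) (nat_lit 5) .nil)))))) (.g (nat_lit 4) .nil .nil)))) (.nd (nat_lit 5) 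
(.lf (nat_lit 205845) (.g (nat_lit 2956) (.e (nat_lit 73789) (nat_lit 45) (.e (nat_lit 1141) (nat_lit 84) (.e (nat_lit 32787) (nat_lit 9) (.e (nat_lit 65630) (nat_lit 14) (.e (nat_lit 401412) (nat_lit 0) (.e (nat_lit 3122) (nat_lit 193) (.e (nat_lit 500071) (nat_lit 19) .nil))))))) (.g (nat_lit 7) .nil .nil))) 
(.lf (nat_lit 205877) (.g (nat_lit 705) (.e (nat_lit 73789) (nat_lit 45) (.e (nat_lit 1340) (nat_lit 101) (.e (nat_lit 278531) (nat_lit 0) (.e (nat_lit 5776) (nat_lit 317) (.e (nat_lit 180260) (nat_lit 18) (.e (nat_lit 639022) (nat_lit 17) .nil)))))) (.g (nat_lit 4) .nil .nil))))) (.nd (nat_lit 4) (.nd (nat_lit 5) 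
(.lf (nat_lit 205837) (.g (nat_lit 1597) (.e (nat_lit 73789) (nat_lit 45) (.e (nat_lit 1141) (nat_lit 84) (.e (nat_lit 32787) (nat_lit 9) (.e (nat_lit 65586) (nat_lit 7) (.e (nat_lit 319500) (nat_lit 10) (.e (nat_lit 562) (nat_lit 41) (.e (nat_lit 500070) (nat_lit 19) .nil))))))) (.g (nat_lit 5) .nil .nil))) 
(.lf (nat_lit 205869) (.g (nat_lit 766) (.e (nat_lit 73789) (nat_lit 45) (.e (nat_lit 1163) (nat_lit 86) (.e (nat_lit 49156) (nat_lit 0) (.e (nat_lit 3026) (nat_lit 187) (.e (nat_lit 458496) (nat_lit 8) (.e (nat_lit 564992) (nat_lit 5) .nil)))))) (.g (nat_lit 4) .nil .nil)))) (.nd (nat_lit 5) 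
(.lf (nat_lit 205853) (.g (nat_lit 542) (.e (nat_lit 73789) (nat_lit 45) (.e (nat_lit 1162) (nat_lit 86) (.e (nat_lit 49156) (nat_lit 0) (.e (nat_lit 2985) (nat_lit 186) (.e (nat_lit 450304) (nat_lit 2) (.e (nat_lit 98048) (nat_lit 5) .nil)))))) (.g (nat_lit 4) .nil .nil))) 
(.lf (nat_lit 205885) (.g (nat_lit 723) (.e (nat_lit 73789) (nat_lit 45) (.e (nat_lit 1342) (nat_lit 101) (.e (nat_lit 278529) (nat_lit 0) (.e (nat_lit 5779) (nat_lit 317) (.e (nat_lit 180260) (nat_lit 18) (.e (nat_lit 639022) (nat_lit 17) .nil)))))) (.g (nat_lit 4) .nil .nil))))))) (.nd (nat_lit 2) (.nd (nat_lit 3) (.nd (nat_lit 4) (.nd (nat_lit 5) 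
(.lf (nat_lit 205827) (.g (nat_lit 1924) (.e (nat_lit 73789) (nat_lit 45) (.e (nat_lit 1140) (nat_lit 84) (.e (nat_lit 32787) (nat_lit 9) (.e (nat_lit 65628) (nat_lit 14) (.e (nat_lit 401412) (nat_lit 0) (.e (nat_lit 3142) (nat_lit 193) (.e (nat_lit 500071) (nat_lit 19) .nil))))))) (.g (nat_lit 5) .nil .nil))) 
(.lf (nat_lit 205859) (.g (nat_lit 607) (.e (nat_lit 73789) (nat_lit 45) (.e (nat_lit 1162) (nat_lit 86) (.e (nat_lit 49157) (nat_lit 0) (.e (nat_lit 2985) (nat_lit 186) (.e (nat_lit 450304) (nat_lit 2) (.e (nat_lit 98048) (nat_lit 5) .nil)))))) (.g (nat_lit 4) .nil .nil)))) (.nd (nat_lit 5) 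
(.lf (nat_lit 205843) (.g (nat_lit 1946) (.e (nat_lit 73789) (nat_lit 45) (.e (nat_lit 1141) (nat_lit 84) (.e (nat_lit 32787) (nat_lit 9) (.e (nat_lit 65628) (nat_lit 14) (.e (nat_lit 401412) (nat_lit 0) (.e (nat_lit 3142) (nat_lit 193) (.e (nat_lit 500071) (nat_lit 19) .nil))))))) (.g (nat_lit 5) .nil .nil))) 
(.lf (nat_lit 205875) (.g (nat_lit 1684) (.e (nat_lit 73789) (nat_lit 45) (.e (nat_lit 1340) (nat_lit 101) (.e (nat_lit 278529) (nat_lit 0) (.e (nat_lit 5779) (nat_lit 317) (.e (nat_lit 180225) (nat_lit 0) (.e (nat_lit 5170) (nat_lit 292) (.e (nat_lit 7936) (nat_lit 89) .nil))))))) (.g (nat_lit 5) .nil .nil))))) (.nd (nat_lit 4) (.nd (nat_lit 5) 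
(.lf (nat_lit 205835) (.g (nat_lit 1613) (.e (nat_lit 73789) (nat_lit 45) (.e (nat_lit 1141) (nat_lit 84) (.e (nat_lit 32787) (nat_lit 9) (.e (nat_lit 65583) (nat_lit 7) (.e (nat_lit 319519) (nat_lit 12) (.e (nat_lit 32788) (nat_lit 10) .nil)))))) (.g (nat_lit 0) .nil .nil))) 
(.lf (nat_lit 205867) (.g (nat_lit 1317) (.e (nat_lit 73789) (nat_lit 45) (.e (nat_lit 1163) (nat_lit 86) (.e (nat_lit 49156) (nat_lit 0) (.e (nat_lit 3011) (nat_lit 187) (.e (nat_lit 450584) (nat_lit 9) (.e (nat_lit 565268) (nat_lit 5) .nil)))))) (.g (nat_lit 6) .nil .nil)))) (.nd (nat_lit 5) 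
(.lf (nat_lit 205851) (.g (nat_lit 1352) (.e (nat_lit 73789) (nat_lit 45) (.e (nat_lit 1141) (nat_lit 84) (.e (nat_lit 32788) (nat_lit 10) (.e (nat_lit 73789) (nat_lit 45) (.e (nat_lit 1141) (nat_lit 84) (.e (nat_lit 32788) (nat_lit 10) .nil)))))) (.g (nat_lit 0) .nil .nil))) 
(.lf (nat_lit 205883) (.g (nat_lit 1275) (.e (nat_lit 73789) (nat_lit 45) (.e (nat_lit 1342) (nat_lit 101) (.e (nat_lit 278529) (nat_lit 0) (.e (nat_lit 5779) (nat_lit 317) (.e (nat_lit 180228) (nat_lit 0) (.e (nat_lit 5069) (nat_lit 292) (.e (nat_lit 7936) (nat_lit 89) .nil))))))) (.g (nat_lit 5) .nil .nil)))))) (.nd (nat_lit 3) (.nd (nat_lit 4) (.nd (nat_lit 5) 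
(.lf (nat_lit 205831) (.g (nat_lit 2472) (.e (nat_lit 73789) (nat_lit 45) (.e (nat_lit 1140) (nat_lit 84) (.e (nat_lit 32787) (nat_lit 9) (.e (nat_lit 65630) (nat_lit 14) (.e (nat_lit 401412) (nat_lit 0) (.e (nat_lit 3127) (nat_lit 193) (.e (nat_lit 500071) (nat_lit 19) .nil))))))) (.g (nat_lit 5) .nil .nil))) 
(.lf (nat_lit 205863) (.g (nat_lit 1142) (.e (nat_lit 73789) (nat_lit 45) (.e (nat_lit 1162) (nat_lit 86) (.e (nat_lit 49157) (nat_lit 0) (.e (nat_lit 3026) (nat_lit 187) (.e (nat_lit 458496) (nat_lit 8) (.e (nat_lit 564992) (nat_lit 5) .nil)))))) (.g (nat_lit 4) .nil .nil)))) (.nd (nat_lit 5) 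
(.lf (nat_lit 205847) (.g (nat_lit 2474) (.e (nat_lit 73789) (nat_lit 45) (.e (nat_lit 1141) (nat_lit 84) (.e (nat_lit 32787) (nat_lit 9) (.e (nat_lit 65630) (nat_lit 14) (.e (nat_lit 401412) (nat_lit 0) (.e (nat_lit 3127) (nat_lit 193) (.e (nat_lit 500071) (nat_lit 19) .nil))))))) (.g (nat_lit 5) .nil .nil))) 
(.lf (nat_lit 205879) (.g (nat_lit 751) (.e (nat_lit 73789) (nat_lit 45) (.e (nat_lit 1340) (nat_lit 101) (.e (nat_lit 278531) (nat_lit 0) (.e (nat_lit 5779) (nat_lit 317) (.e (nat_lit 180259) (nat_lit 17) (.e (nat_lit 630822) (nat_lit 17) .nil)))))) (.g (nat_lit 4) .nil .nil))))) (.nd (nat_lit 4) (.nd (nat_lit 5) 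
(.lf (nat_lit 205839) (.g (nat_lit 2387) (.e (nat_lit 73789) (nat_lit 45) (.e (nat_lit 1141) (nat_lit 84) (.e (nat_lit 32787) (nat_lit 9) (.e (nat_lit 65628) (nat_lit 14) (.e (nat_lit 401412) (nat_lit 0) (.e (nat_lit 3107) (nat_lit 193) (.e (nat_lit 500071) (nat_lit 19) .nil))))))) (.g (nat_lit 7) .nil .nil))) 
(.lf (nat_lit 205871) (.g (nat_lit 736) (.e (nat_lit 73789) (nat_lit 45) (.e (nat_lit 1163) (nat_lit 86) (.e (nat_lit 49157) (nat_lit 0) (.e (nat_lit 3003) (nat_lit 186) (.e (nat_lit 450304) (nat_lit 2) (.e (nat_lit 98048) (nat_lit 5) .nil)))))) (.g (nat_lit 4) .nil .nil)))) (.nd (nat_lit 5) 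
(.lf (nat_lit 205855) (.g (nat_lit 546) (.e (nat_lit 73789) (nat_lit 45) (.e (nat_lit 1162) (nat_lit 86) (.e (nat_lit 49156) (nat_lit 0) (.e (nat_lit 3011) (nat_lit 187) (.e (nat_lit 458496) (nat_lit 8) (.e (nat_lit 564992) (nat_lit 5) .nil)))))) (.g (nat_lit 4) .nil .nil))) 
(.lf (nat_lit 205887) (.g (nat_lit 1370) (.e (nat_lit 73789) (nat_lit 45) (.e (nat_lit 1342) (nat_lit 101) (.e (nat_lit 278531) (nat_lit 0) (.e (nat_lit 5779) (nat_lit 317) (.e (nat_lit 180228) (nat_lit 0) (.e (nat_lit 5069) (nat_lit 292) (.e (nat_lit 7936) (nat_lit 89) .nil))))))) (.g (nat_lit 6) .nil .nil)))))))))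

noncomputable def tv2715 : DT := (.nd (nat_lit 0) (.nd (nat_lit 1) (.nd (nat_lit 2) (.nd (nat_lit 3) (.nd (nat_lit 4) (.nd (nat_lit 5) 
(.lf (nat_lit 205888) (.g (nat_lit 1472) (.e (nat_lit 73789) (nat_lit 45) (.e (nat_lit 1343) (nat_lit 101) (.e (nat_lit 278532) (nat_lit 0) (.e (nat_lit 5776) (nat_lit 317) (.e (nat_lit 180229) (nat_lit 0) (.e (nat_lit 5069) (nat_lit 292) (.e (nat_lit 7936) (nat_lit 89) .nil))))))) (.g (nat_lit 5) .nil .nil))) 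
(.lf (nat_lit 205920) (.g (nat_lit 2105) (.e (nat_lit 73789) (nat_lit 45) (.e (nat_lit 1384) (nat_lit 105) (.e (nat_lit 311358) (nat_lit 29) (.e (nat_lit 352318) (nat_lit 24) (.e (nat_lit 123184) (nat_lit 264) (.e (nat_lit 1212) (nat_lit 89) .nil)))))) (.g (nat_lit 6) .nil .nil)))) (.nd (nat_lit 5) 
(.lf (nat_lit 205904) (.g (nat_lit 2242) (.e (nat_lit 73789) (nat_lit 45) (.e (nat_lit 1383) (nat_lit 105) (.e (nat_lit 311358) (nat_lit 29) (.e (nat_lit 352318) (nat_lit 24) (.e (nat_lit 123182) (nat_lit 264) (.e (nat_lit 1212) (nat_lit 89) .nil)))))) (.g (nat_lit 0) .nil .nil))) 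
(.lf (nat_lit 205936) (.g (nat_lit 1517) (.e (nat_lit 73789) (nat_lit 45) (.e (nat_lit 1385) (nat_lit 105) (.e (nat_lit 311358) (nat_lit 29) (.e (nat_lit 352317) (nat_lit 24) (.e (nat_lit 123182) (nat_lit 264) (.e (nat_lit 1212) (nat_lit 89) .nil)))))) (.g (nat_lit 5) .nil .nil))))) (.nd (nat_lit 4) (.nd (nat_lit 5) 
(.lf (nat_lit 205896) (.g (nat_lit 2445) (.e (nat_lit 73789) (nat_lit 45) (.e (nat_lit 1383) (nat_lit 105) (.e (nat_lit 311358) (nat_lit 29) (.e (nat_lit 352307) (nat_lit 21) (.e (nat_lit 57871) (nat_lit 264) (.e (nat_lit 1209) (nat_lit 89) .nil)))))) (.g (nat_lit 0) .nil .nil))) 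
(.lf (nat_lit 205928) (.g (nat_lit 2817) (.e (nat_lit 73789) (nat_lit 45) (.e (nat_lit 1385) (nat_lit 105) (.e (nat_lit 311358) (nat_lit 29) (.e (nat_lit 352307) (nat_lit 21) (.e (nat_lit 57871) (nat_lit 264) (.e (nat_lit 1209) (nat_lit 89) .nil)))))) (.g (nat_lit 0) .nil .nil)))) (.nd (nat_lit 5) 
(.lf (nat_lit 205912) (.g (nat_lit 1679) (.e (nat_lit 73789) (nat_lit 45) (.e (nat_lit 1384) (nat_lit 105) (.e (nat_lit 311358) (nat_lit 29) (.e (nat_lit 352308) (nat_lit 21) (.e (nat_lit 57872) (nat_lit 264) (.e (nat_lit 1209) (nat_lit 89) .nil)))))) (.g (nat_lit 6) .nil .nil))) 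
(.lf (nat_lit 205944) (.g (nat_lit 1354) (.e (nat_lit 73789) (nat_lit 45) (.e (nat_lit 1385) (nat_lit 105) (.e (nat_lit 319232) (nat_lit 30) (.e (nat_lit 360451) (nat_lit 0) (.e (nat_lit 5896) (nat_lit 320) (.e (nat_lit 7936) (nat_lit 89) .nil)))))) (.g (nat_lit 5) .nil .nil)))))) (.nd (nat_lit 3) (.nd (nat_lit 4) (.nd (nat_lit 5) 
(.lf (nat_lit 205892) (.g (nat_lit 1800) (.e (nat_lit 73789) (nat_lit 45) (.e (nat_lit 1383) (nat_lit 105) (.e (nat_lit 311358) (nat_lit 29) (.e (nat_lit 352265) (nat_lit 0) (.e (nat_lit 3631) (nat_lit 227) (.e (nat_lit 778323) (nat_lit 5) .nil)))))) (.g (nat_lit 6) .nil .nil))) 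
(.lf (nat_lit 205924) (.g (nat_lit 989) (.e (nat_lit 73789) (nat_lit 45) (.e (nat_lit 1384) (nat_lit 105) (.e (nat_lit 319232) (nat_lit 30) (.e (nat_lit 360457) (nat_lit 0) (.e (nat_lit 5818) (nat_lit 320) (.e (nat_lit 7936) (nat_lit 89) .nil)))))) (.g (nat_lit 5) .nil .nil)))) (.nd (nat_lit 5) 
(.lf (nat_lit 205908) (.g (nat_lit 1306) (.e (nat_lit 73789) (nat_lit 45) (.e (nat_lit 1384) (nat_lit 105) (.e (nat_lit 311358) (nat_lit 29) (.e (nat_lit 352283) (nat_lit 20) (.e (nat_lit 1999) (nat_lit 137) (.e (nat_lit 663568) (nat_lit 5) .nil)))))) (.g (nat_lit 6) .nil .nil))) 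
(.lf (nat_lit 205940) (.g (nat_lit 805) (.e (nat_lit 73789) (nat_lit 45) (.e (nat_lit 1385) (nat_lit 105) (.e (nat_lit 319232) (nat_lit 29) (.e (nat_lit 352309) (nat_lit 21) (.e (nat_lit 57871) (nat_lit 264) (.e (nat_lit 1209) (nat_lit 89) .nil)))))) (.g (nat_lit 4) .nil .nil))))) (.nd (nat_lit 4) (.nd (nat_lit 5) 
(.lf (nat_lit 205900) (.g (nat_lit 2720) (.e (nat_lit 73789) (nat_lit 45) (.e (nat_lit 1383) (nat_lit 105) (.e (nat_lit 311358) (nat_lit 29) (.e (nat_lit 352309) (nat_lit 21) (.e (nat_lit 57872) (nat_lit 264) (.e (nat_lit 1209) (nat_lit 89) .nil)))))) (.g (nat_lit 0) .nil .nil))) 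
(.lf (nat_lit 205932) (.g (nat_lit 1939) (.e (nat_lit 73789) (nat_lit 45) (.e (nat_lit 1385) (nat_lit 105) (.e (nat_lit 311358) (nat_lit 29) (.e (nat_lit 352309) (nat_lit 21) (.e (nat_lit 57873) (nat_lit 264) (.e (nat_lit 7936) (nat_lit 89) .nil)))))) (.g (nat_lit 5) .nil .nil)))) (.nd (nat_lit 5) 
(.lf (nat_lit 205916) (.g (nat_lit 891) (.e (nat_lit 73789) (nat_lit 45) (.e (nat_lit 1384) (nat_lit 105) (.e (nat_lit 311358) (nat_lit 29) (.e (nat_lit 352316) (nat_lit 24) (.e (nat_lit 123185) (nat_lit 264) (.e (nat_lit 7936) (nat_lit 89) .nil)))))) (.g (nat_lit 5) .nil .nil))) 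
(.lf (nat_lit 205948) (.g (nat_lit 1001) (.e (nat_lit 73789) (nat_lit 45) (.e (nat_lit 1385) (nat_lit 105) (.e (nat_lit 319232) (nat_lit 30) (.e (nat_lit 360456) (nat_lit 0) (.e (nat_lit 5818) (nat_lit 320) (.e (nat_lit 7936) (nat_lit 89) .nil)))))) (.g (nat_lit 5) .nil .nil))))))) (.nd (nat_lit 2) (.nd (nat_lit 3) (.nd (nat_lit 4) (.nd (nat_lit 5) 
(.lf (nat_lit 205890) (.g (nat_lit 1308) (.e (nat_lit 73789) (nat_lit 45) (.e (nat_lit 1349) (nat_lit 102) (.e (nat_lit 294656) (nat_lit 35) (.e (nat_lit 491566) (nat_lit 12) (.e (nat_lit 385092) (nat_lit 49) .nil))))) .nil)) 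
(.lf (nat_lit 205922) (.g (nat_lit 1064) (.e (nat_lit 73789) (nat_lit 45) (.e (nat_lit 1384) (nat_lit 105) (.e (nat_lit 319232) (nat_lit 30) (.e (nat_lit 360449) (nat_lit 0) (.e (nat_lit 5898) (nat_lit 320) (.e (nat_lit 7936) (nat_lit 89) .nil)))))) (.g (nat_lit 5) .nil .nil)))) (.nd (nat_lit 5) 
(.lf (nat_lit 205906) (.g (nat_lit 1029) (.e (nat_lit 73789) (nat_lit 45) (.e (nat_lit 1383) (nat_lit 105) (.e (nat_lit 311358) (nat_lit 29) (.e (nat_lit 352318) (nat_lit 24) (.e (nat_lit 123185) (nat_lit 264) (.e (nat_lit 7936) (nat_lit 89) .nil)))))) (.g (nat_lit 5) .nil .nil))) 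
(.lf (nat_lit 205938) (.g (nat_lit 1416) (.e (nat_lit 73789) (nat_lit 45) (.e (nat_lit 1385) (nat_lit 105) (.e (nat_lit 311358) (nat_lit 29) (.e (nat_lit 352318) (nat_lit 24) (.e (nat_lit 123185) (nat_lit 264) (.e (nat_lit 7936) (nat_lit 89) .nil)))))) (.g (nat_lit 5) .nil .nil))))) (.nd (nat_lit 4) (.nd (nat_lit 5) 
(.lf (nat_lit 205898) (.g (nat_lit 1473) (.e (nat_lit 73789) (nat_lit 45) (.e (nat_lit 1383) (nat_lit 105) (.e (nat_lit 311358) (nat_lit 29) (.e (nat_lit 352308) (nat_lit 21) (.e (nat_lit 57870) (nat_lit 264) (.e (nat_lit 1209) (nat_lit 89) .nil)))))) (.g (nat_lit 0) .nil .nil))) 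
(.lf (nat_lit 205930) (.g (nat_lit 2002) (.e (nat_lit 73789) (nat_lit 45) (.e (nat_lit 1385) (nat_lit 105) (.e (nat_lit 311358) (nat_lit 29) (.e (nat_lit 352308) (nat_lit 21) (.e (nat_lit 57872) (nat_lit 264) (.e (nat_lit 1209) (nat_lit 89) .nil)))))) (.g (nat_lit 6) .nil .nil)))) (.nd (nat_lit 5) 
(.lf (nat_lit 205914) (.g (nat_lit 2145) (.e (nat_lit 73789) (nat_lit 45) (.e (nat_lit 1384) (nat_lit 105) (.e (nat_lit 311358) (nat_lit 29) (.e (nat_lit 352316) (nat_lit 24) (.e (nat_lit 123182) (nat_lit 264) (.e (nat_lit 1212) (nat_lit 89) .nil)))))) (.g (nat_lit 0) .nil .nil))) 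
(.lf (nat_lit 205946) (.g (nat_lit 1654) (.e (nat_lit 73789) (nat_lit 45) (.e (nat_lit 1385) (nat_lit 105) (.e (nat_lit 319232) (nat_lit 30) (.e (nat_lit 360452) (nat_lit 0) (.e (nat_lit 5907) (nat_lit 320) (.e (nat_lit 7936) (nat_lit 89) .nil)))))) (.g (nat_lit 5) .nil .nil)))))) (.nd (nat_lit 3) (.nd (nat_lit 4) (.nd (nat_lit 5) 
(.lf (nat_lit 205894) (.g (nat_lit 970) (.e (nat_lit 73789) (nat_lit 45) (.e (nat_lit 1383) (nat_lit 105) (.e (nat_lit 311358) (nat_lit 29) (.e (nat_lit 352296) (nat_lit 20) (.e (nat_lit 2005) (nat_lit 138) (.e (nat_lit 671763) (nat_lit 5) .nil)))))) (.g (nat_lit 6) .nil .nil))) 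
(.lf (nat_lit 205926) (.g (nat_lit 2812) (.e (nat_lit 73789) (nat_lit 45) (.e (nat_lit 1385) (nat_lit 105) (.e (nat_lit 311358) (nat_lit 29) (.e (nat_lit 352267) (nat_lit 0) (.e (nat_lit 3632) (nat_lit 227) (.e (nat_lit 778323) (nat_lit 5) .nil)))))) (.g (nat_lit 0) .nil .nil)))) (.nd (nat_lit 5) 
(.lf (nat_lit 205910) (.g (nat_lit 2458) (.e (nat_lit 73789) (nat_lit 45) (.e (nat_lit 1384) (nat_lit 105) (.e (nat_lit 311358) (nat_lit 29) (.e (nat_lit 352307) (nat_lit 21) (.e (nat_lit 57871) (nat_lit 264) (.e (nat_lit 1209) (nat_lit 89) .nil)))))) (.g (nat_lit 0) .nil .nil))) 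
(.lf (nat_lit 205942) (.g (nat_lit 1074) (.e (nat_lit 73789) (nat_lit 45) (.e (nat_lit 1385) (nat_lit 105) (.e (nat_lit 319232) (nat_lit 30) (.e (nat_lit 360449) (nat_lit 0) (.e (nat_lit 5898) (nat_lit 320) (.e (nat_lit 7936) (nat_lit 89) .nil)))))) (.g (nat_lit 5) .nil .nil))))) (.nd (nat_lit 4) (.nd (nat_lit 5) 
(.lf (nat_lit 205902) (.g (nat_lit 903) (.e (nat_lit 73789) (nat_lit 45) (.e (nat_lit 1383) (nat_lit 105) (.e (nat_lit 311358) (nat_lit 29) (.e (nat_lit 352316) (nat_lit 24) (.e (nat_lit 123185) (nat_lit 264) (.e (nat_lit 7936) (nat_lit 89) .nil)))))) (.g (nat_lit 5) .nil .nil))) 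
(.lf (nat_lit 205934) (.g (nat_lit 2524) (.e (nat_lit 73789) (nat_lit 45) (.e (nat_lit 1385) (nat_lit 105) (.e (nat_lit 311358) (nat_lit 29) (.e (nat_lit 352316) (nat_lit 24) (.e (nat_lit 123182) (nat_lit 264) (.e (nat_lit 1212) (nat_lit 89) .nil)))))) (.g (nat_lit 0) .nil .nil)))) (.nd (nat_lit 5) 
(.lf (nat_lit 205918) (.g (nat_lit 1476) (.e (nat_lit 73789) (nat_lit 45) (.e (nat_lit 1384) (nat_lit 105) (.e (nat_lit 311358) (nat_lit 29) (.e (nat_lit 352317) (nat_lit 24) (.e (nat_lit 123184) (nat_lit 264) (.e (nat_lit 1212) (nat_lit 89) .nil)))))) (.g (nat_lit 6) .nil .nil))) 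
(.lf (nat_lit 205950) (.g (nat_lit 339) (.e (nat_lit 73789) (nat_lit 45) (.e (nat_lit 1386) (nat_lit 105) (.e (nat_lit 311358) (nat_lit 29) .nil))) .nil))))))) (.nd (nat_lit 1) (.nd (nat_lit 2) (.nd (nat_lit 3) (.nd (nat_lit 4) (.nd (nat_lit 5) 
(.lf (nat_lit 205889) (.g (nat_lit 1309) (.e (nat_lit 73789) (nat_lit 45) (.e (nat_lit 1343) (nat_lit 101) (.e (nat_lit 278532) (nat_lit 0) (.e (nat_lit 5779) (nat_lit 317) (.e (nat_lit 180228) (nat_lit 0) (.e (nat_lit 5069) (nat_lit 292) (.e (nat_lit 7936) (nat_lit 89) .nil))))))) (.g (nat_lit 6) .nil .nil))) 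
(.lf (nat_lit 205921) (.g (nat_lit 1013) (.e (nat_lit 73789) (nat_lit 45) (.e (nat_lit 1384) (nat_lit 105) (.e (nat_lit 311358) (nat_lit 29) (.e (nat_lit 352318) (nat_lit 24) (.e (nat_lit 123185) (nat_lit 264) (.e (nat_lit 7936) (nat_lit 89) .nil)))))) (.g (nat_lit 5) .nil .nil)))) (.nd (nat_lit 5) 
(.lf (nat_lit 205905) (.g (nat_lit 2112) (.e (nat_lit 73789) (nat_lit 45) (.e (nat_lit 1383) (nat_lit 105) (.e (nat_lit 311358) (nat_lit 29) (.e (nat_lit 352318) (nat_lit 24) (.e (nat_lit 123184) (nat_lit 264) (.e (nat_lit 1212) (nat_lit 89) .nil)))))) (.g (nat_lit 0) .nil .nil))) 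
(.lf (nat_lit 205937) (.g (nat_lit 2493) (.e (nat_lit 73789) (nat_lit 45) (.e (nat_lit 1385) (nat_lit 105) (.e (nat_lit 311358) (nat_lit 29) (.e (nat_lit 352318) (nat_lit 24) (.e (nat_lit 123184) (nat_lit 264) (.e (nat_lit 1212) (nat_lit 89) .nil)))))) (.g (nat_lit 0) .nil .nil))))) (.nd (nat_lit 4) (.nd (nat_lit 5) 
(.lf (nat_lit 205897) (.g (nat_lit 1486) (.e (nat_lit 73789) (nat_lit 45) (.e (nat_lit 1383) (nat_lit 105) (.e (nat_lit 311358) (nat_lit 29) (.e (nat_lit 352307) (nat_lit 21) (.e (nat_lit 57873) (nat_lit 264) (.e (nat_lit 7936) (nat_lit 89) .nil)))))) (.g (nat_lit 5) .nil .nil))) 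
(.lf (nat_lit 205929) (.g (nat_lit 1880) (.e (nat_lit 73789) (nat_lit 45) (.e (nat_lit 1385) (nat_lit 105) (.e (nat_lit 311358) (nat_lit 29) (.e (nat_lit 352307) (nat_lit 21) (.e (nat_lit 57873) (nat_lit 264) (.e (nat_lit 7936) (nat_lit 89) .nil)))))) (.g (nat_lit 5) .nil .nil)))) (.nd (nat_lit 5) 
(.lf (nat_lit 205913) (.g (nat_lit 1561) (.e (nat_lit 73789) (nat_lit 45) (.e (nat_lit 1384) (nat_lit 105) (.e (nat_lit 311358) (nat_lit 29) (.e (nat_lit 352309) (nat_lit 21) (.e (nat_lit 57873) (nat_lit 264) (.e (nat_lit 7936) (nat_lit 89) .nil)))))) (.g (nat_lit 5) .nil .nil))) 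
(.lf (nat_lit 205945) (.g (nat_lit 1701) (.e (nat_lit 73789) (nat_lit 45) (.e (nat_lit 1385) (nat_lit 105) (.e (nat_lit 319232) (nat_lit 30) (.e (nat_lit 360451) (nat_lit 0) (.e (nat_lit 5898) (nat_lit 320) (.e (nat_lit 7936) (nat_lit 89) .nil)))))) (.g (nat_lit 5) .nil .nil)))))) (.nd (nat_lit 3) (.nd (nat_lit 4) (.nd (nat_lit 5) 
(.lf (nat_lit 205893) (.g (nat_lit 993) (.e (nat_lit 73789) (nat_lit 45) (.e (nat_lit 1383) (nat_lit 105) (.e (nat_lit 311358) (nat_lit 29) (.e (nat_lit 352286) (nat_lit 20) (.e (nat_lit 1996) (nat_lit 137) (.e (nat_lit 663568) (nat_lit 5) .nil)))))) (.g (nat_lit 6) .nil .nil))) 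
(.lf (nat_lit 205925) (.g (nat_lit 2518) (.e (nat_lit 73789) (nat_lit 45) (.e (nat_lit 1385) (nat_lit 105) (.e (nat_lit 311353) (nat_lit 27) (.e (nat_lit 336200) (nat_lit 12) (.e (nat_lit 385094) (nat_lit 49) (.e (nat_lit 778323) (nat_lit 5) .nil)))))) (.g (nat_lit 6) .nil .nil)))) (.nd (nat_lit 5) 
(.lf (nat_lit 205909) (.g (nat_lit 2097) (.e (nat_lit 73789) (nat_lit 45) (.e (nat_lit 1384) (nat_lit 105) (.e (nat_lit 311358) (nat_lit 29) (.e (nat_lit 352307) (nat_lit 21) (.e (nat_lit 57870) (nat_lit 264) (.e (nat_lit 1209) (nat_lit 89) .nil)))))) (.g (nat_lit 0) .nil .nil))) 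
(.lf (nat_lit 205941) (.g (nat_lit 1128) (.e (nat_lit 73789) (nat_lit 45) (.e (nat_lit 1385) (nat_lit 105) (.e (nat_lit 319232) (nat_lit 30) (.e (nat_lit 360449) (nat_lit 0) (.e (nat_lit 5896) (nat_lit 320) (.e (nat_lit 7936) (nat_lit 89) .nil)))))) (.g (nat_lit 5) .nil .nil))))) (.nd (nat_lit 4) (.nd (nat_lit 5) 
(.lf (nat_lit 205901) (.g (nat_lit 1542) (.e (nat_lit 73789) (nat_lit 45) (.e (nat_lit 1383) (nat_lit 105) (.e (nat_lit 311358) (nat_lit 29) (.e (nat_lit 352309) (nat_lit 21) (.e (nat_lit 57873) (nat_lit 264) (.e (nat_lit 7936) (nat_lit 89) .nil)))))) (.g (nat_lit 5) .nil .nil))) 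
(.lf (nat_lit 205933) (.g (nat_lit 1201) (.e (nat_lit 73789) (nat_lit 45) (.e (nat_lit 1385) (nat_lit 105) (.e (nat_lit 311358) (nat_lit 29) (.e (nat_lit 352309) (nat_lit 21) (.e (nat_lit 65280) (nat_lit 264) .nil))))) .nil))) (.nd (nat_lit 5) 
(.lf (nat_lit 205917) (.g (nat_lit 1422) (.e (nat_lit 73789) (nat_lit 45) (.e (nat_lit 1384) (nat_lit 105) (.e (nat_lit 311358) (nat_lit 29) (.e (nat_lit 352317) (nat_lit 24) (.e (nat_lit 123183) (nat_lit 264) (.e (nat_lit 1212) (nat_lit 89) .nil)))))) (.g (nat_lit 6) .nil .nil))) 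
(.lf (nat_lit 205949) (.g (nat_lit 1320) (.e (nat_lit 73789) (nat_lit 45) (.e (nat_lit 1385) (nat_lit 105) (.e (nat_lit 319232) (nat_lit 30) (.e (nat_lit 360457) (nat_lit 0) (.e (nat_lit 5818) (nat_lit 320) (.e (nat_lit 7936) (nat_lit 89) .nil)))))) (.g (nat_lit 5) .nil .nil))))))) (.nd (nat_lit 2) (.nd (nat_lit 3) (.nd (nat_lit 4) (.nd (nat_lit 5) 
(.lf (nat_lit 205891) (.g (nat_lit 2175) (.e (nat_lit 73789) (nat_lit 45) (.e (nat_lit 1383) (nat_lit 105) (.e (nat_lit 311353) (nat_lit 27) (.e (nat_lit 336200) (nat_lit 12) (.e (nat_lit 385094) (nat_lit 49) (.e (nat_lit 778323) (nat_lit 5) .nil)))))) (.g (nat_lit 6) .nil .nil))) 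
(.lf (nat_lit 205923) (.g (nat_lit 416) (.e (nat_lit 73789) (nat_lit 45) (.e (nat_lit 1384) (nat_lit 105) (.e (nat_lit 319232) (nat_lit 30) (.e (nat_lit 360455) (nat_lit 0) (.e (nat_lit 5813) (nat_lit 320) (.e (nat_lit 7936) (nat_lit 89) .nil)))))) (.g (nat_lit 5) .nil .nil)))) (.nd (nat_lit 5) 
(.lf (nat_lit 205907) (.g (nat_lit 378) (.e (nat_lit 73789) (nat_lit 45) (.e (nat_lit 1383) (nat_lit 105) (.e (nat_lit 319232) (nat_lit 30) (.e (nat_lit 360455) (nat_lit 0) (.e (nat_lit 5813) (nat_lit 320) (.e (nat_lit 7936) (nat_lit 89) .nil)))))) (.g (nat_lit 5) .nil .nil))) 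
(.lf (nat_lit 205939) (.g (nat_lit 732) (.e (nat_lit 73789) (nat_lit 45) (.e (nat_lit 1385) (nat_lit 105) (.e (nat_lit 319232) (nat_lit 29) (.e (nat_lit 352309) (nat_lit 21) (.e (nat_lit 57870) (nat_lit 264) (.e (nat_lit 1209) (nat_lit 89) .nil)))))) (.g (nat_lit 4) .nil .nil))))) (.nd (nat_lit 4) (.nd (nat_lit 5) 
(.lf (nat_lit 205899) (.g (nat_lit 2217) (.e (nat_lit 73789) (nat_lit 45) (.e (nat_lit 1383) (nat_lit 105) (.e (nat_lit 311358) (nat_lit 29) (.e (nat_lit 352309) (nat_lit 21) (.e (nat_lit 57870) (nat_lit 264) (.e (nat_lit 1209) (nat_lit 89) .nil)))))) (.g (nat_lit 0) .nil .nil))) 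
(.lf (nat_lit 205931) (.g (nat_lit 1923) (.e (nat_lit 73789) (nat_lit 45) (.e (nat_lit 1385) (nat_lit 105) (.e (nat_lit 311358) (nat_lit 29) (.e (nat_lit 352309) (nat_lit 21) (.e (nat_lit 57873) (nat_lit 264) (.e (nat_lit 1211) (nat_lit 89) .nil)))))) (.g (nat_lit 5) .nil .nil)))) (.nd (nat_lit 5) 
(.lf (nat_lit 205915) (.g (nat_lit 1979) (.e (nat_lit 73789) (nat_lit 45) (.e (nat_lit 1384) (nat_lit 105) (.e (nat_lit 311358) (nat_lit 29) (.e (nat_lit 352316) (nat_lit 24) (.e (nat_lit 123184) (nat_lit 264) (.e (nat_lit 1212) (nat_lit 89) .nil)))))) (.g (nat_lit 0) .nil .nil))) 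
(.lf (nat_lit 205947) (.g (nat_lit 1681) (.e (nat_lit 73789) (nat_lit 45) (.e (nat_lit 1385) (nat_lit 105) (.e (nat_lit 319232) (nat_lit 30) (.e (nat_lit 360453) (nat_lit 0) (.e (nat_lit 5907) (nat_lit 320) (.e (nat_lit 7936) (nat_lit 89) .nil)))))) (.g (nat_lit 5) .nil .nil)))))) (.nd (nat_lit 3) (.nd (nat_lit 4) (.nd (nat_lit 5) 
(.lf (nat_lit 205895) (.g (nat_lit 1059) (.e (nat_lit 73789) (nat_lit 45) (.e (nat_lit 1383) (nat_lit 105) (.e (nat_lit 311358) (nat_lit 29) (.e (nat_lit 352296) (nat_lit 20) (.e (nat_lit 2006) (nat_lit 138) (.e (nat_lit 671763) (nat_lit 5) .nil)))))) (.g (nat_lit 6) .nil .nil))) 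
(.lf (nat_lit 205927) (.g (nat_lit 2440) (.e (nat_lit 73789) (nat_lit 45) (.e (nat_lit 1385) (nat_lit 105) (.e (nat_lit 311358) (nat_lit 29) (.e (nat_lit 352307) (nat_lit 21) (.e (nat_lit 57870) (nat_lit 264) (.e (nat_lit 1209) (nat_lit 89) .nil)))))) (.g (nat_lit 0) .nil .nil)))) (.nd (nat_lit 5) 
(.lf (nat_lit 205911) (.g (nat_lit 1493) (.e (nat_lit 73789) (nat_lit 45) (.e (nat_lit 1384) (nat_lit 105) (.e (nat_lit 311358) (nat_lit 29) (.e (nat_lit 352307) (nat_lit 21) (.e (nat_lit 57873) (nat_lit 264) (.e (nat_lit 7936) (nat_lit 89) .nil)))))) (.g (nat_lit 5) .nil .nil))) 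
(.lf (nat_lit 205943) (.g (nat_lit 1374) (.e (nat_lit 73789) (nat_lit 45) (.e (nat_lit 1385) (nat_lit 105) (.e (nat_lit 319232) (nat_lit 30) (.e (nat_lit 360450) (nat_lit 0) (.e (nat_lit 5898) (nat_lit 320) (.e (nat_lit 7936) (nat_lit 89) .nil)))))) (.g (nat_lit 5) .nil .nil))))) (.nd (nat_lit 4) (.nd (nat_lit 5) 
(.lf (nat_lit 205903) (.g (nat_lit 1483) (.e (nat_lit 73789) (nat_lit 45) (.e (nat_lit 1383) (nat_lit 105) (.e (nat_lit 311358) (nat_lit 29) (.e (nat_lit 352317) (nat_lit 24) (.e (nat_lit 123184) (nat_lit 264) (.e (nat_lit 1212) (nat_lit 89) .nil)))))) (.g (nat_lit 6) .nil .nil))) 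
(.lf (nat_lit 205935) (.g (nat_lit 1297) (.e (nat_lit 73789) (nat_lit 45) (.e (nat_lit 1385) (nat_lit 105) (.e (nat_lit 311358) (nat_lit 29) (.e (nat_lit 352316) (nat_lit 24) (.e (nat_lit 123185) (nat_lit 264) (.e (nat_lit 7936) (nat_lit 89) .nil)))))) (.g (nat_lit 5) .nil .nil)))) (.nd (nat_lit 5) 
(.lf (nat_lit 205919) (.g (nat_lit 2268) (.e (nat_lit 73789) (nat_lit 45) (.e (nat_lit 1384) (nat_lit 105) (.e (nat_lit 311358) (nat_lit 29) (.e (nat_lit 352318) (nat_lit 24) (.e (nat_lit 123183) (nat_lit 264) (.e (nat_lit 1212) (nat_lit 89) .nil)))))) (.g (nat_lit 6) .nil .nil))) 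
(.lf (nat_lit 205951) (.g (nat_lit 1328) (.e (nat_lit 73789) (nat_lit 45) (.e (nat_lit 1386) (nat_lit 105) (.e (nat_lit 311358) (nat_lit 29) (.e (nat_lit 352264) (nat_lit 0) (.e (nat_lit 3711) (nat_lit 227) (.e (nat_lit 778322) (nat_lit 5) .nil)))))) (.g (nat_lit 0) .nil .nil)))))))))

noncomputable def tv2716 : DT := (.nd (nat_lit 0) (.nd (nat_lit 1) (.nd (nat_lit 2) (.nd (nat_lit 3) (.nd (nat_lit 4) (.nd (nat_lit 5) 
(.lf (nat_lit 205952) (.g (nat_lit 1339) (.e (nat_lit 73789) (nat_lit 45) (.e (nat_lit 1386) (nat_lit 105) (.e (nat_lit 311358) (nat_lit 29) (.e (nat_lit 352264) (nat_lit 0) (.e (nat_lit 3715) (nat_lit 227) (.e (nat_lit 778322) (nat_lit 5) .nil)))))) (.g (nat_lit 0) .nil .nil))) 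
(.lf (nat_lit 205984) (.g (nat_lit 2650) (.e (nat_lit 73791) (nat_lit 45) (.e (nat_lit 1140) (nat_lit 84) (.e (nat_lit 32787) (nat_lit 9) (.e (nat_lit 65630) (nat_lit 14) (.e (nat_lit 401425) (nat_lit 2) (.e (nat_lit 204544) (nat_lit 14) .nil)))))) (.g (nat_lit 5) .nil .nil)))) (.nd (nat_lit 5) 
(.lf (nat_lit 205968) (.g (nat_lit 1233) (.e (nat_lit 73789) (nat_lit 45) (.e (nat_lit 1386) (nat_lit 105) (.e (nat_lit 311358) (nat_lit 29) (.e (nat_lit 352316) (nat_lit 24) (.e (nat_lit 123185) (nat_lit 264) (.e (nat_lit 7936) (nat_lit 89) .nil)))))) (.g (nat_lit 5) .nil .nil))) 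
(.lf (nat_lit 206000) (.g (nat_lit 432) (.e (nat_lit 73791) (nat_lit 45) (.e (nat_lit 1162) (nat_lit 86) (.e (nat_lit 49156) (nat_lit 0) (.e (nat_lit 3011) (nat_lit 187) (.e (nat_lit 458496) (nat_lit 8) .nil))))) .nil)))) (.nd (nat_lit 4) (.nd (nat_lit 5) 
(.lf (nat_lit 205960) (.g (nat_lit 701) (.e (nat_lit 73789) (nat_lit 45) (.e (nat_lit 1386) (nat_lit 105) (.e (nat_lit 311358) (nat_lit 29) (.e (nat_lit 352308) (nat_lit 21) .nil)))) .nil)) 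
(.lf (nat_lit 205992) (.g (nat_lit 419) (.e (nat_lit 73791) (nat_lit 45) (.e (nat_lit 1160) (nat_lit 86) (.e (nat_lit 49157) (nat_lit 0) (.e (nat_lit 2985) (nat_lit 186) (.e (nat_lit 450304) (nat_lit 2) .nil))))) .nil))) (.nd (nat_lit 5) 
(.lf (nat_lit 205976) (.g (nat_lit 1348) (.e (nat_lit 73789) (nat_lit 45) (.e (nat_lit 1386) (nat_lit 105) (.e (nat_lit 319232) (nat_lit 30) (.e (nat_lit 360451) (nat_lit 0) (.e (nat_lit 5896) (nat_lit 320) (.e (nat_lit 7936) (nat_lit 89) .nil)))))) (.g (nat_lit 5) .nil .nil))) 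
(.lf (nat_lit 206008) (.g (nat_lit 263) (.e (nat_lit 73791) (nat_lit 45) (.e (nat_lit 1162) (nat_lit 86) (.e (nat_lit 49157) (nat_lit 0) (.e (nat_lit 3020) (nat_lit 187) .nil)))) .nil))))) (.nd (nat_lit 3) (.nd (nat_lit 4) (.nd (nat_lit 5) 
(.lf (nat_lit 205956) (.g (nat_lit 2381) (.e (nat_lit 73789) (nat_lit 45) (.e (nat_lit 1386) (nat_lit 105) (.e (nat_lit 311358) (nat_lit 29) (.e (nat_lit 352307) (nat_lit 21) (.e (nat_lit 57870) (nat_lit 264) (.e (nat_lit 1209) (nat_lit 89) .nil)))))) (.g (nat_lit 0) .nil .nil))) 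
(.lf (nat_lit 205988) (.g (nat_lit 2629) (.e (nat_lit 73791) (nat_lit 45) (.e (nat_lit 1141) (nat_lit 84) (.e (nat_lit 32787) (nat_lit 9) (.e (nat_lit 65628) (nat_lit 14) (.e (nat_lit 401425) (nat_lit 2) (.e (nat_lit 204544) (nat_lit 14) .nil)))))) (.g (nat_lit 5) .nil .nil)))) (.nd (nat_lit 5) 
(.lf (nat_lit 205972) (.g (nat_lit 320) (.e (nat_lit 73789) (nat_lit 45) (.e (nat_lit 1386) (nat_lit 105) (.e (nat_lit 319232) (nat_lit 29) .nil))) .nil)) 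
(.lf (nat_lit 206004) (.g (nat_lit 454) (.e (nat_lit 73791) (nat_lit 45) (.e (nat_lit 1162) (nat_lit 86) (.e (nat_lit 49157) (nat_lit 0) (.e (nat_lit 2985) (nat_lit 186) (.e (nat_lit 450304) (nat_lit 2) (.e (nat_lit 98048) (nat_lit 5) .nil)))))) (.g (nat_lit 4) .nil .nil))))) (.nd (nat_lit 4) (.nd (nat_lit 5) 
(.lf (nat_lit 205964) (.g (nat_lit 2978) (.e (nat_lit 73789) (nat_lit 45) (.e (nat_lit 1386) (nat_lit 105) (.e (nat_lit 311358) (nat_lit 29) (.e (nat_lit 352309) (nat_lit 21) (.e (nat_lit 57872) (nat_lit 264) (.e (nat_lit 1209) (nat_lit 89) .nil)))))) (.g (nat_lit 0) .nil .nil))) 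
(.lf (nat_lit 205996) (.g (nat_lit 361) (.e (nat_lit 73791) (nat_lit 45) (.e (nat_lit 1160) (nat_lit 86) (.e (nat_lit 49157) (nat_lit 0) (.e (nat_lit 3012) (nat_lit 187) (.e (nat_lit 458496) (nat_lit 8) .nil))))) .nil))) (.nd (nat_lit 5) 
(.lf (nat_lit 205980) (.g (nat_lit 995) (.e (nat_lit 73789) (nat_lit 45) (.e (nat_lit 1386) (nat_lit 105) (.e (nat_lit 319232) (nat_lit 30) (.e (nat_lit 360456) (nat_lit 0) (.e (nat_lit 5818) (nat_lit 320) (.e (nat_lit 7936) (nat_lit 89) .nil)))))) (.g (nat_lit 5) .nil .nil))) 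
(.lf (nat_lit 206012) (.g (nat_lit 493) (.e (nat_lit 73791) (nat_lit 45) (.e (nat_lit 1163) (nat_lit 86) (.e (nat_lit 49156) (nat_lit 0) (.e (nat_lit 3011) (nat_lit 187) (.e (nat_lit 458496) (nat_lit 9) (.e (nat_lit 565268) (nat_lit 5) .nil)))))) (.g (nat_lit 4) .nil .nil))))))) (.nd (nat_lit 2) (.nd (nat_lit 3) (.nd (nat_lit 4) (.nd (nat_lit 5) 
(.lf (nat_lit 205954) (.g (nat_lit 2188) (.e (nat_lit 73789) (nat_lit 45) (.e (nat_lit 1386) (nat_lit 105) (.e (nat_lit 311358) (nat_lit 29) (.e (nat_lit 352267) (nat_lit 0) (.e (nat_lit 3631) (nat_lit 227) (.e (nat_lit 778323) (nat_lit 5) .nil)))))) (.g (nat_lit 0) .nil .nil))) 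
(.lf (nat_lit 205986) (.g (nat_lit 1983) (.e (nat_lit 73791) (nat_lit 45) (.e (nat_lit 1140) (nat_lit 84) (.e (nat_lit 32789) (nat_lit 11) (.e (nat_lit 81924) (nat_lit 0) (.e (nat_lit 3305) (nat_lit 202) (.e (nat_lit 573487) (nat_lit 14) .nil)))))) (.g (nat_lit 0) .nil .nil)))) (.nd (nat_lit 5) 
(.lf (nat_lit 205970) (.g (nat_lit 2432) (.e (nat_lit 73789) (nat_lit 45) (.e (nat_lit 1386) (nat_lit 105) (.e (nat_lit 311358) (nat_lit 29) (.e (nat_lit 352318) (nat_lit 24) (.e (nat_lit 123184) (nat_lit 264) (.e (nat_lit 1212) (nat_lit 89) .nil)))))) (.g (nat_lit 0) .nil .nil))) 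
(.lf (nat_lit 206002) (.g (nat_lit 312) (.e (nat_lit 73791) (nat_lit 45) (.e (nat_lit 1162) (nat_lit 86) (.e (nat_lit 49156) (nat_lit 0) (.e (nat_lit 3012) (nat_lit 187) (.e (nat_lit 458496) (nat_lit 8) (.e (nat_lit 564992) (nat_lit 5) .nil)))))) (.g (nat_lit 4) .nil .nil))))) (.nd (nat_lit 4) (.nd (nat_lit 5) 
(.lf (nat_lit 205962) (.g (nat_lit 1893) (.e (nat_lit 73789) (nat_lit 45) (.e (nat_lit 1386) (nat_lit 105) (.e (nat_lit 311358) (nat_lit 29) (.e (nat_lit 352308) (nat_lit 21) (.e (nat_lit 57872) (nat_lit 264) (.e (nat_lit 1209) (nat_lit 89) .nil)))))) (.g (nat_lit 6) .nil .nil))) 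
(.lf (nat_lit 205994) (.g (nat_lit 518) (.e (nat_lit 73791) (nat_lit 45) (.e (nat_lit 1160) (nat_lit 86) (.e (nat_lit 49157) (nat_lit 0) (.e (nat_lit 3011) (nat_lit 187) (.e (nat_lit 458496) (nat_lit 8) (.e (nat_lit 564992) (nat_lit 5) .nil)))))) (.g (nat_lit 4) .nil .nil)))) (.nd (nat_lit 5) 
(.lf (nat_lit 205978) (.g (nat_lit 1648) (.e (nat_lit 73789) (nat_lit 45) (.e (nat_lit 1386) (nat_lit 105) (.e (nat_lit 319232) (nat_lit 30) (.e (nat_lit 360452) (nat_lit 0) (.e (nat_lit 5907) (nat_lit 320) (.e (nat_lit 7936) (nat_lit 89) .nil)))))) (.g (nat_lit 5) .nil .nil))) 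
(.lf (nat_lit 206010) (.g (nat_lit 330) (.e (nat_lit 73791) (nat_lit 45) (.e (nat_lit 1163) (nat_lit 86) (.e (nat_lit 49156) (nat_lit 0) (.e (nat_lit 2985) (nat_lit 186) (.e (nat_lit 450304) (nat_lit 2) (.e (nat_lit 98048) (nat_lit 5) .nil)))))) (.g (nat_lit 4) .nil .nil)))))) (.nd (nat_lit 3) (.nd (nat_lit 4) (.nd (nat_lit 5) 
(.lf (nat_lit 205958) (.g (nat_lit 2838) (.e (nat_lit 73789) (nat_lit 45) (.e (nat_lit 1386) (nat_lit 105) (.e (nat_lit 311358) (nat_lit 29) (.e (nat_lit 352307) (nat_lit 21) (.e (nat_lit 57872) (nat_lit 264) (.e (nat_lit 1209) (nat_lit 89) .nil)))))) (.g (nat_lit 0) .nil .nil))) 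
(.lf (nat_lit 205990) (.g (nat_lit 1060) (.e (nat_lit 73791) (nat_lit 45) (.e (nat_lit 1141) (nat_lit 84) (.e (nat_lit 32788) (nat_lit 10) (.e (nat_lit 73791) (nat_lit 45) (.e (nat_lit 1141) (nat_lit 84) (.e (nat_lit 32788) (nat_lit 10) .nil)))))) (.g (nat_lit 0) .nil .nil)))) (.nd (nat_lit 5) 
(.lf (nat_lit 205974) (.g (nat_lit 752) (.e (nat_lit 73789) (nat_lit 45) (.e (nat_lit 1386) (nat_lit 105) (.e (nat_lit 319232) (nat_lit 29) (.e (nat_lit 352309) (nat_lit 21) (.e (nat_lit 57871) (nat_lit 264) (.e (nat_lit 1209) (nat_lit 89) .nil)))))) (.g (nat_lit 4) .nil .nil))) 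
(.lf (nat_lit 206006) (.g (nat_lit 570) (.e (nat_lit 73791) (nat_lit 45) (.e (nat_lit 1162) (nat_lit 86) (.e (nat_lit 49157) (nat_lit 0) (.e (nat_lit 3011) (nat_lit 187) (.e (nat_lit 458496) (nat_lit 8) (.e (nat_lit 564992) (nat_lit 5) .nil)))))) (.g (nat_lit 4) .nil .nil))))) (.nd (nat_lit 4) (.nd (nat_lit 5) 
(.lf (nat_lit 205966) (.g (nat_lit 2474) (.e (nat_lit 73789) (nat_lit 45) (.e (nat_lit 1386) (nat_lit 105) (.e (nat_lit 311358) (nat_lit 29) (.e (nat_lit 352316) (nat_lit 24) (.e (nat_lit 123182) (nat_lit 264) (.e (nat_lit 1212) (nat_lit 89) .nil)))))) (.g (nat_lit 0) .nil .nil))) 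
(.lf (nat_lit 205998) (.g (nat_lit 372) (.e (nat_lit 73791) (nat_lit 45) (.e (nat_lit 1162) (nat_lit 86) (.e (nat_lit 49156) (nat_lit 0) (.e (nat_lit 2985) (nat_lit 186) (.e (nat_lit 450304) (nat_lit 2) (.e (nat_lit 98048) (nat_lit 5) .nil)))))) (.g (nat_lit 4) .nil .nil)))) (.nd (nat_lit 5) 
(.lf (nat_lit 205982) (.g (nat_lit 2546) (.e (nat_lit 73791) (nat_lit 45) (.e (nat_lit 991) (nat_lit 81) (.e (nat_lit 5748) (nat_lit 314) (.e (nat_lit 24648) (nat_lit 12) (.e (nat_lit 385094) (nat_lit 49) (.e (nat_lit 778324) (nat_lit 5) .nil)))))) (.g (nat_lit 6) .nil .nil))) 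
(.lf (nat_lit 206014) (.g (nat_lit 598) (.e (nat_lit 73791) (nat_lit 45) (.e (nat_lit 1163) (nat_lit 86) (.e (nat_lit 49156) (nat_lit 0) (.e (nat_lit 3026) (nat_lit 187) (.e (nat_lit 458496) (nat_lit 8) (.e (nat_lit 564992) (nat_lit 5) .nil)))))) (.g (nat_lit 4) .nil .nil)))))))) (.nd (nat_lit 1) (.nd (nat_lit 2) (.nd (nat_lit 3) (.nd (nat_lit 4) (.nd (nat_lit 5) 
(.lf (nat_lit 205953) (.g (nat_lit 1747) (.e (nat_lit 73789) (nat_lit 45) (.e (nat_lit 1386) (nat_lit 105) (.e (nat_lit 311358) (nat_lit 29) (.e (nat_lit 352267) (nat_lit 0) (.e (nat_lit 3629) (nat_lit 227) (.e (nat_lit 778323) (nat_lit 5) .nil)))))) (.g (nat_lit 0) .nil .nil))) 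
(.lf (nat_lit 205985) (.g (nat_lit 892) (.e (nat_lit 73791) (nat_lit 45) (.e (nat_lit 1140) (nat_lit 84) (.e (nat_lit 32788) (nat_lit 10) (.e (nat_lit 73791) (nat_lit 45) (.e (nat_lit 1140) (nat_lit 84) (.e (nat_lit 32788) (nat_lit 10) .nil)))))) (.g (nat_lit 0) .nil .nil)))) (.nd (nat_lit 5) 
(.lf (nat_lit 205969) (.g (nat_lit 2562) (.e (nat_lit 73789) (nat_lit 45) (.e (nat_lit 1386) (nat_lit 105) (.e (nat_lit 311358) (nat_lit 29) (.e (nat_lit 352318) (nat_lit 24) (.e (nat_lit 123182) (nat_lit 264) (.e (nat_lit 1212) (nat_lit 89) .nil)))))) (.g (nat_lit 0) .nil .nil))) 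
(.lf (nat_lit 206001) (.g (nat_lit 1195) (.e (nat_lit 73791) (nat_lit 45) (.e (nat_lit 1162) (nat_lit 86) (.e (nat_lit 49156) (nat_lit 0) (.e (nat_lit 3011) (nat_lit 187) (.e (nat_lit 450584) (nat_lit 9) (.e (nat_lit 565268) (nat_lit 5) .nil)))))) (.g (nat_lit 6) .nil .nil))))) (.nd (nat_lit 4) (.nd (nat_lit 5) 
(.lf (nat_lit 205961) (.g (nat_lit 1614) (.e (nat_lit 73789) (nat_lit 45) (.e (nat_lit 1386) (nat_lit 105) (.e (nat_lit 311358) (nat_lit 29) (.e (nat_lit 352308) (nat_lit 21) (.e (nat_lit 57870) (nat_lit 264) (.e (nat_lit 1209) (nat_lit 89) .nil)))))) (.g (nat_lit 6) .nil .nil))) 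
(.lf (nat_lit 205993) (.g (nat_lit 542) (.e (nat_lit 73791) (nat_lit 45) (.e (nat_lit 1160) (nat_lit 86) (.e (nat_lit 49157) (nat_lit 0) (.e (nat_lit 3003) (nat_lit 186) (.e (nat_lit 450304) (nat_lit 2) (.e (nat_lit 98048) (nat_lit 5) .nil)))))) (.g (nat_lit 4) .nil .nil)))) (.nd (nat_lit 5) 
(.lf (nat_lit 205977) (.g (nat_lit 1695) (.e (nat_lit 73789) (nat_lit 45) (.e (nat_lit 1386) (nat_lit 105) (.e (nat_lit 319232) (nat_lit 30) (.e (nat_lit 360451) (nat_lit 0) (.e (nat_lit 5898) (nat_lit 320) (.e (nat_lit 7936) (nat_lit 89) .nil)))))) (.g (nat_lit 5) .nil .nil))) 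
(.lf (nat_lit 206009) (.g (nat_lit 989) (.e (nat_lit 73791) (nat_lit 45) (.e (nat_lit 1162) (nat_lit 86) (.e (nat_lit 49157) (nat_lit 0) (.e (nat_lit 3026) (nat_lit 187) (.e (nat_lit 458496) (nat_lit 8) (.e (nat_lit 564992) (nat_lit 5) .nil)))))) (.g (nat_lit 4) .nil .nil)))))) (.nd (nat_lit 3) (.nd (nat_lit 4) (.nd (nat_lit 5) 
(.lf (nat_lit 205957) (.g (nat_lit 2748) (.e (nat_lit 73789) (nat_lit 45) (.e (nat_lit 1386) (nat_lit 105) (.e (nat_lit 311358) (nat_lit 29) (.e (nat_lit 352307) (nat_lit 21) (.e (nat_lit 57871) (nat_lit 264) (.e (nat_lit 1209) (nat_lit 89) .nil)))))) (.g (nat_lit 0) .nil .nil))) 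
(.lf (nat_lit 205989) (.g (nat_lit 975) (.e (nat_lit 73791) (nat_lit 45) (.e (nat_lit 1141) (nat_lit 84) (.e (nat_lit 32788) (nat_lit 10) (.e (nat_lit 73791) (nat_lit 45) (.e (nat_lit 1140) (nat_lit 84) (.e (nat_lit 32788) (nat_lit 10) .nil)))))) (.g (nat_lit 0) .nil .nil)))) (.nd (nat_lit 5) 
(.lf (nat_lit 205973) (.g (nat_lit 673) (.e (nat_lit 73789) (nat_lit 45) (.e (nat_lit 1386) (nat_lit 105) (.e (nat_lit 319232) (nat_lit 29) (.e (nat_lit 352309) (nat_lit 21) (.e (nat_lit 57870) (nat_lit 264) (.e (nat_lit 1209) (nat_lit 89) .nil)))))) (.g (nat_lit 4) .nil .nil))) 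
(.lf (nat_lit 206005) (.g (nat_lit 628) (.e (nat_lit 73791) (nat_lit 45) (.e (nat_lit 1162) (nat_lit 86) (.e (nat_lit 49157) (nat_lit 0) (.e (nat_lit 3003) (nat_lit 186) (.e (nat_lit 450304) (nat_lit 2) (.e (nat_lit 98048) (nat_lit 5) .nil)))))) (.g (nat_lit 4) .nil .nil))))) (.nd (nat_lit 4) (.nd (nat_lit 5) 
(.lf (nat_lit 205965) (.g (nat_lit 1885) (.e (nat_lit 73789) (nat_lit 45) (.e (nat_lit 1386) (nat_lit 105) (.e (nat_lit 311358) (nat_lit 29) (.e (nat_lit 352309) (nat_lit 21) (.e (nat_lit 57873) (nat_lit 264) (.e (nat_lit 7936) (nat_lit 89) .nil)))))) (.g (nat_lit 5) .nil .nil))) 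
(.lf (nat_lit 205997) (.g (nat_lit 897) (.e (nat_lit 73791) (nat_lit 45) (.e (nat_lit 1160) (nat_lit 86) (.e (nat_lit 49157) (nat_lit 0) (.e (nat_lit 3026) (nat_lit 187) (.e (nat_lit 458496) (nat_lit 8) (.e (nat_lit 564992) (nat_lit 5) .nil)))))) (.g (nat_lit 4) .nil .nil)))) (.nd (nat_lit 5) 
(.lf (nat_lit 205981) (.g (nat_lit 1314) (.e (nat_lit 73789) (nat_lit 45) (.e (nat_lit 1386) (nat_lit 105) (.e (nat_lit 319232) (nat_lit 30) (.e (nat_lit 360457) (nat_lit 0) (.e (nat_lit 5818) (nat_lit 320) (.e (nat_lit 7936) (nat_lit 89) .nil)))))) (.g (nat_lit 5) .nil .nil))) 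
(.lf (nat_lit 206013) (.g (nat_lit 275) (.e (nat_lit 73791) (nat_lit 45) (.e (nat_lit 1163) (nat_lit 86) (.e (nat_lit 49156) (nat_lit 0) (.e (nat_lit 3012) (nat_lit 187) (.e (nat_lit 458496) (nat_lit 8) (.e (nat_lit 564992) (nat_lit 5) .nil)))))) (.g (nat_lit 4) .nil .nil))))))) (.nd (nat_lit 2) (.nd (nat_lit 3) (.nd (nat_lit 4) (.nd (nat_lit 5) 
(.lf (nat_lit 205955) (.g (nat_lit 677) (.e (nat_lit 73789) (nat_lit 45) (.e (nat_lit 1386) (nat_lit 105) (.e (nat_lit 311358) (nat_lit 29) (.e (nat_lit 352296) (nat_lit 20) (.e (nat_lit 993) (nat_lit 81) .nil))))) .nil)) 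
(.lf (nat_lit 205987) (.g (nat_lit 1163) (.e (nat_lit 73791) (nat_lit 45) (.e (nat_lit 1141) (nat_lit 84) (.e (nat_lit 32787) (nat_lit 9) (.e (nat_lit 65628) (nat_lit 14) (.e (nat_lit 401411) (nat_lit 0) .nil))))) .nil))) (.nd (nat_lit 5) 
(.lf (nat_lit 205971) (.g (nat_lit 1359) (.e (nat_lit 73789) (nat_lit 45) (.e (nat_lit 1386) (nat_lit 105) (.e (nat_lit 311358) (nat_lit 29) (.e (nat_lit 352318) (nat_lit 24) (.e (nat_lit 123185) (nat_lit 264) (.e (nat_lit 7936) (nat_lit 89) .nil)))))) (.g (nat_lit 5) .nil .nil))) 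
(.lf (nat_lit 206003) (.g (nat_lit 640) (.e (nat_lit 73791) (nat_lit 45) (.e (nat_lit 1162) (nat_lit 86) (.e (nat_lit 49156) (nat_lit 0) (.e (nat_lit 3026) (nat_lit 187) (.e (nat_lit 458496) (nat_lit 8) (.e (nat_lit 564992) (nat_lit 5) .nil)))))) (.g (nat_lit 4) .nil .nil))))) (.nd (nat_lit 4) (.nd (nat_lit 5) 
(.lf (nat_lit 205963) (.g (nat_lit 2458) (.e (nat_lit 73789) (nat_lit 45) (.e (nat_lit 1386) (nat_lit 105) (.e (nat_lit 311358) (nat_lit 29) (.e (nat_lit 352309) (nat_lit 21) (.e (nat_lit 57870) (nat_lit 264) (.e (nat_lit 1209) (nat_lit 89) .nil)))))) (.g (nat_lit 6) .nil .nil))) 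
(.lf (nat_lit 205995) (.g (nat_lit 1263) (.e (nat_lit 73791) (nat_lit 45) (.e (nat_lit 1160) (nat_lit 86) (.e (nat_lit 49157) (nat_lit 0) (.e (nat_lit 3011) (nat_lit 187) (.e (nat_lit 450584) (nat_lit 9) (.e (nat_lit 565268) (nat_lit 5) .nil)))))) (.g (nat_lit 6) .nil .nil)))) (.nd (nat_lit 5) 
(.lf (nat_lit 205979) (.g (nat_lit 1675) (.e (nat_lit 73789) (nat_lit 45) (.e (nat_lit 1386) (nat_lit 105) (.e (nat_lit 319232) (nat_lit 30) (.e (nat_lit 360453) (nat_lit 0) (.e (nat_lit 5907) (nat_lit 320) (.e (nat_lit 7936) (nat_lit 89) .nil)))))) (.g (nat_lit 5) .nil .nil))) 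
(.lf (nat_lit 206011) (.g (nat_lit 439) (.e (nat_lit 73791) (nat_lit 45) (.e (nat_lit 1163) (nat_lit 86) (.e (nat_lit 49156) (nat_lit 0) (.e (nat_lit 3003) (nat_lit 186) (.e (nat_lit 450304) (nat_lit 2) (.e (nat_lit 98048) (nat_lit 5) .nil)))))) (.g (nat_lit 4) .nil .nil)))))) (.nd (nat_lit 3) (.nd (nat_lit 4) (.nd (nat_lit 5) 
(.lf (nat_lit 205959) (.g (nat_lit 1796) (.e (nat_lit 73789) (nat_lit 45) (.e (nat_lit 1386) (nat_lit 105) (.e (nat_lit 311358) (nat_lit 29) (.e (nat_lit 352307) (nat_lit 21) (.e (nat_lit 57873) (nat_lit 264) (.e (nat_lit 7936) (nat_lit 89) .nil)))))) (.g (nat_lit 5) .nil .nil))) 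
(.lf (nat_lit 205991) (.g (nat_lit 2056) (.e (nat_lit 73791) (nat_lit 45) (.e (nat_lit 1141) (nat_lit 84) (.e (nat_lit 32789) (nat_lit 11) (.e (nat_lit 81924) (nat_lit 0) (.e (nat_lit 3305) (nat_lit 202) (.e (nat_lit 573487) (nat_lit 14) .nil)))))) (.g (nat_lit 0) .nil .nil)))) (.nd (nat_lit 5) 
(.lf (nat_lit 205975) (.g (nat_lit 1368) (.e (nat_lit 73789) (nat_lit 45) (.e (nat_lit 1386) (nat_lit 105) (.e (nat_lit 319232) (nat_lit 30) (.e (nat_lit 360450) (nat_lit 0) (.e (nat_lit 5898) (nat_lit 320) (.e (nat_lit 7936) (nat_lit 89) .nil)))))) (.g (nat_lit 5) .nil .nil))) 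
(.lf (nat_lit 206007) (.g (nat_lit 391) (.e (nat_lit 73791) (nat_lit 45) (.e (nat_lit 1162) (nat_lit 86) (.e (nat_lit 49157) (nat_lit 0) (.e (nat_lit 3012) (nat_lit 187) (.e (nat_lit 458496) (nat_lit 8) (.e (nat_lit 564992) (nat_lit 5) .nil)))))) (.g (nat_lit 4) .nil .nil))))) (.nd (nat_lit 4) (.nd (nat_lit 5) 
(.lf (nat_lit 205967) (.g (nat_lit 2302) (.e (nat_lit 73789) (nat_lit 45) (.e (nat_lit 1386) (nat_lit 105) (.e (nat_lit 311358) (nat_lit 29) (.e (nat_lit 352316) (nat_lit 24) (.e (nat_lit 123184) (nat_lit 264) (.e (nat_lit 1212) (nat_lit 89) .nil)))))) (.g (nat_lit 0) .nil .nil))) 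
(.lf (nat_lit 205999) (.g (nat_lit 486) (.e (nat_lit 73791) (nat_lit 45) (.e (nat_lit 1162) (nat_lit 86) (.e (nat_lit 49156) (nat_lit 0) (.e (nat_lit 3003) (nat_lit 186) (.e (nat_lit 450304) (nat_lit 2) (.e (nat_lit 98048) (nat_lit 5) .nil)))))) (.g (nat_lit 4) .nil .nil)))) (.nd (nat_lit 5) 
(.lf (nat_lit 205983) (.g (nat_lit 2643) (.e (nat_lit 73791) (nat_lit 45) (.e (nat_lit 1140) (nat_lit 84) (.e (nat_lit 32787) (nat_lit 9) (.e (nat_lit 65628) (nat_lit 14) (.e (nat_lit 401425) (nat_lit 2) (.e (nat_lit 204544) (nat_lit 14) .nil)))))) (.g (nat_lit 5) .nil .nil))) 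
(.lf (nat_lit 206015) (.g (nat_lit 396) (.e (nat_lit 73791) (nat_lit 45) (.e (nat_lit 1163) (nat_lit 86) (.e (nat_lit 49157) (nat_lit 0) (.e (nat_lit 2985) (nat_lit 186) (.e (nat_lit 450304) (nat_lit 2) (.e (nat_lit 98048) (nat_lit 5) .nil)))))) (.g (nat_lit 4) .nil .nil)))))))))

noncomputable def tv2717 : DT := (.nd (nat_lit 0) (.nd (nat_lit 1) (.nd (nat_lit 2) (.nd (nat_lit 3) (.nd (nat_lit 4) (.nd (nat_lit 5) 
(.lf (nat_lit 206016) (.g (nat_lit 196) (.e (nat_lit 73791) (nat_lit 45) (.e (nat_lit 1163) (nat_lit 86) (.e (nat_lit 49157) (nat_lit 0) (.e (nat_lit 2997) (nat_lit 186) .nil)))) .nil)) 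
(.lf (nat_lit 206048) (.g (nat_lit 349) (.e (nat_lit 73791) (nat_lit 45) (.e (nat_lit 1386) (nat_lit 105) (.e (nat_lit 311358) (nat_lit 29) .nil))) .nil))) (.nd (nat_lit 5) 
(.lf (nat_lit 206032) (.g (nat_lit 558) (.e (nat_lit 73791) (nat_lit 45) (.e (nat_lit 1385) (nat_lit 105) (.e (nat_lit 311358) (nat_lit 29) (.e (nat_lit 352296) (nat_lit 20) (.e (nat_lit 2003) (nat_lit 138) .nil))))) .nil)) 
(.lf (nat_lit 206064) (.g (nat_lit 1547) (.e (nat_lit 73791) (nat_lit 45) (.e (nat_lit 1386) (nat_lit 105) (.e (nat_lit 319232) (nat_lit 30) (.e (nat_lit 360451) (nat_lit 0) (.e (nat_lit 5898) (nat_lit 320) (.e (nat_lit 7936) (nat_lit 89) .nil)))))) (.g (nat_lit 5) .nil .nil))))) (.nd (nat_lit 4) (.nd (nat_lit 5) 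
(.lf (nat_lit 206024) (.g (nat_lit 36) (.e (nat_lit 73791) (nat_lit 45) (.e (nat_lit 1383) (nat_lit 105) (.e (nat_lit 319232) (nat_lit 30) .nil))) .nil)) 
(.lf (nat_lit 206056) (.g (nat_lit 1650) (.e (nat_lit 73791) (nat_lit 45) (.e (nat_lit 1386) (nat_lit 105) (.e (nat_lit 311358) (nat_lit 29) (.e (nat_lit 352307) (nat_lit 21) (.e (nat_lit 57873) (nat_lit 264) (.e (nat_lit 7936) (nat_lit 89) .nil)))))) (.g (nat_lit 5) .nil .nil)))) (.nd (nat_lit 5) 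
(.lf (nat_lit 206040) (.g (nat_lit 1012) (.e (nat_lit 73791) (nat_lit 45) (.e (nat_lit 1385) (nat_lit 105) (.e (nat_lit 319232) (nat_lit 30) (.e (nat_lit 360450) (nat_lit 0) (.e (nat_lit 5898) (nat_lit 320) (.e (nat_lit 7936) (nat_lit 89) .nil)))))) (.g (nat_lit 5) .nil .nil))) 
(.lf (nat_lit 206072) (.g (nat_lit 756) (.e (nat_lit 73792) (nat_lit 45) (.e (nat_lit 1141) (nat_lit 84) (.e (nat_lit 32787) (nat_lit 9) (.e (nat_lit 65583) (nat_lit 7) (.e (nat_lit 319499) (nat_lit 10) .nil))))) .nil))))) (.nd (nat_lit 3) (.nd (nat_lit 4) (.nd (nat_lit 5) 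
(.lf (nat_lit 206020) (.g (nat_lit 931) (.e (nat_lit 73791) (nat_lit 45) (.e (nat_lit 1163) (nat_lit 86) (.e (nat_lit 49157) (nat_lit 0) (.e (nat_lit 3026) (nat_lit 187) (.e (nat_lit 458496) (nat_lit 8) (.e (nat_lit 564992) (nat_lit 5) .nil)))))) (.g (nat_lit 4) .nil .nil))) 
(.lf (nat_lit 206052) (.g (nat_lit 685) (.e (nat_lit 73791) (nat_lit 45) (.e (nat_lit 1386) (nat_lit 105) (.e (nat_lit 311358) (nat_lit 29) (.e (nat_lit 352296) (nat_lit 20) (.e (nat_lit 993) (nat_lit 81) .nil))))) .nil))) (.nd (nat_lit 5) 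
(.lf (nat_lit 206036) (.g (nat_lit 2460) (.e (nat_lit 73791) (nat_lit 45) (.e (nat_lit 1385) (nat_lit 105) (.e (nat_lit 311358) (nat_lit 29) (.e (nat_lit 352309) (nat_lit 21) (.e (nat_lit 57873) (nat_lit 264) (.e (nat_lit 1209) (nat_lit 89) .nil)))))) (.g (nat_lit 0) .nil .nil))) 
(.lf (nat_lit 206068) (.g (nat_lit 853) (.e (nat_lit 73791) (nat_lit 45) (.e (nat_lit 1386) (nat_lit 105) (.e (nat_lit 319232) (nat_lit 30) (.e (nat_lit 360456) (nat_lit 0) (.e (nat_lit 5818) (nat_lit 320) (.e (nat_lit 7936) (nat_lit 89) .nil)))))) (.g (nat_lit 5) .nil .nil))))) (.nd (nat_lit 4) (.nd (nat_lit 5) 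
(.lf (nat_lit 206028) (.g (nat_lit 380) (.e (nat_lit 73791) (nat_lit 45) (.e (nat_lit 1384) (nat_lit 105) (.e (nat_lit 311358) (nat_lit 29) (.e (nat_lit 352296) (nat_lit 20) .nil)))) .nil)) 
(.lf (nat_lit 206060) (.g (nat_lit 1221) (.e (nat_lit 73791) (nat_lit 45) (.e (nat_lit 1386) (nat_lit 105) (.e (nat_lit 311358) (nat_lit 29) (.e (nat_lit 352318) (nat_lit 24) (.e (nat_lit 123185) (nat_lit 264) (.e (nat_lit 7936) (nat_lit 89) .nil)))))) (.g (nat_lit 5) .nil .nil)))) (.nd (nat_lit 5) 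
(.lf (nat_lit 206044) (.g (nat_lit 1330) (.e (nat_lit 73791) (nat_lit 45) (.e (nat_lit 1385) (nat_lit 105) (.e (nat_lit 319232) (nat_lit 30) (.e (nat_lit 360453) (nat_lit 0) (.e (nat_lit 5907) (nat_lit 320) (.e (nat_lit 7936) (nat_lit 89) .nil)))))) (.g (nat_lit 5) .nil .nil))) 
(.lf (nat_lit 206076) (.g (nat_lit 574) (.e (nat_lit 73792) (nat_lit 45) (.e (nat_lit 1162) (nat_lit 86) (.e (nat_lit 49156) (nat_lit 0) (.e (nat_lit 3003) (nat_lit 186) (.e (nat_lit 450304) (nat_lit 2) (.e (nat_lit 98048) (nat_lit 5) .nil)))))) (.g (nat_lit 4) .nil .nil))))))) (.nd (nat_lit 2) (.nd (nat_lit 3) (.nd (nat_lit 4) (.nd (nat_lit 5) 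
(.lf (nat_lit 206018) (.g (nat_lit 510) (.e (nat_lit 73791) (nat_lit 45) (.e (nat_lit 1163) (nat_lit 86) (.e (nat_lit 49157) (nat_lit 0) (.e (nat_lit 3011) (nat_lit 187) (.e (nat_lit 458496) (nat_lit 8) (.e (nat_lit 564992) (nat_lit 5) .nil)))))) (.g (nat_lit 4) .nil .nil))) 
(.lf (nat_lit 206050) (.g (nat_lit 799) (.e (nat_lit 73791) (nat_lit 45) (.e (nat_lit 1386) (nat_lit 105) (.e (nat_lit 311358) (nat_lit 29) (.e (nat_lit 352280) (nat_lit 20) (.e (nat_lit 2003) (nat_lit 138) .nil))))) .nil))) (.nd (nat_lit 5) 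
(.lf (nat_lit 206034) (.g (nat_lit 2422) (.e (nat_lit 73791) (nat_lit 45) (.e (nat_lit 1385) (nat_lit 105) (.e (nat_lit 311358) (nat_lit 29) (.e (nat_lit 352307) (nat_lit 21) (.e (nat_lit 57873) (nat_lit 264) (.e (nat_lit 1209) (nat_lit 89) .nil)))))) (.g (nat_lit 0) .nil .nil))) 
(.lf (nat_lit 206066) (.g (nat_lit 1538) (.e (nat_lit 73791) (nat_lit 45) (.e (nat_lit 1386) (nat_lit 105) (.e (nat_lit 319232) (nat_lit 30) (.e (nat_lit 360453) (nat_lit 0) (.e (nat_lit 5907) (nat_lit 320) (.e (nat_lit 7936) (nat_lit 89) .nil)))))) (.g (nat_lit 5) .nil .nil))))) (.nd (nat_lit 4) (.nd (nat_lit 5) 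
(.lf (nat_lit 206026) (.g (nat_lit 382) (.e (nat_lit 73791) (nat_lit 45) (.e (nat_lit 1384) (nat_lit 105) (.e (nat_lit 311358) (nat_lit 29) (.e (nat_lit 352286) (nat_lit 20) .nil)))) .nil)) 
(.lf (nat_lit 206058) (.g (nat_lit 1744) (.e (nat_lit 73791) (nat_lit 45) (.e (nat_lit 1386) (nat_lit 105) (.e (nat_lit 311358) (nat_lit 29) (.e (nat_lit 352309) (nat_lit 21) (.e (nat_lit 57873) (nat_lit 264) (.e (nat_lit 7936) (nat_lit 89) .nil)))))) (.g (nat_lit 5) .nil .nil)))) (.nd (nat_lit 5) 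
(.lf (nat_lit 206042) (.g (nat_lit 1339) (.e (nat_lit 73791) (nat_lit 45) (.e (nat_lit 1385) (nat_lit 105) (.e (nat_lit 319232) (nat_lit 30) (.e (nat_lit 360451) (nat_lit 0) (.e (nat_lit 5898) (nat_lit 320) (.e (nat_lit 7936) (nat_lit 89) .nil)))))) (.g (nat_lit 5) .nil .nil))) 
(.lf (nat_lit 206074) (.g (nat_lit 542) (.e (nat_lit 73792) (nat_lit 45) (.e (nat_lit 1141) (nat_lit 84) (.e (nat_lit 32789) (nat_lit 11) (.e (nat_lit 81939) (nat_lit 20) (.e (nat_lit 1840) (nat_lit 123) .nil))))) .nil))))) (.nd (nat_lit 3) (.nd (nat_lit 4) (.nd (nat_lit 5) 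
(.lf (nat_lit 206022) (.g (nat_lit 618) (.e (nat_lit 73791) (nat_lit 45) (.e (nat_lit 1340) (nat_lit 101) (.e (nat_lit 278529) (nat_lit 0) (.e (nat_lit 5779) (nat_lit 317) (.e (nat_lit 180260) (nat_lit 18) .nil))))) .nil)) 
(.lf (nat_lit 206054) (.g (nat_lit 1118) (.e (nat_lit 73791) (nat_lit 45) (.e (nat_lit 1386) (nat_lit 105) (.e (nat_lit 311358) (nat_lit 29) (.e (nat_lit 352296) (nat_lit 20) (.e (nat_lit 2005) (nat_lit 138) (.e (nat_lit 671763) (nat_lit 5) .nil)))))) (.g (nat_lit 6) .nil .nil)))) (.nd (nat_lit 5) 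
(.lf (nat_lit 206038) (.g (nat_lit 940) (.e (nat_lit 73791) (nat_lit 45) (.e (nat_lit 1385) (nat_lit 105) (.e (nat_lit 311358) (nat_lit 29) (.e (nat_lit 352316) (nat_lit 24) (.e (nat_lit 123185) (nat_lit 264) (.e (nat_lit 7936) (nat_lit 89) .nil)))))) (.g (nat_lit 5) .nil .nil))) 
(.lf (nat_lit 206070) (.g (nat_lit 3524) (.e (nat_lit 73792) (nat_lit 45) (.e (nat_lit 993) (nat_lit 81) (.e (nat_lit 618) (nat_lit 48) (.e (nat_lit 557109) (nat_lit 15) (.e (nat_lit 188434) (nat_lit 20) (.e (nat_lit 3578) (nat_lit 223) (.e (nat_lit 745492) (nat_lit 5) .nil))))))) (.g (nat_lit 6) .nil .nil))))) (.nd (nat_lit 4) (.nd (nat_lit 5) 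
(.lf (nat_lit 206030) (.g (nat_lit 514) (.e (nat_lit 73791) (nat_lit 45) (.e (nat_lit 1384) (nat_lit 105) (.e (nat_lit 311358) (nat_lit 29) (.e (nat_lit 352297) (nat_lit 20) (.e (nat_lit 2006) (nat_lit 138) .nil))))) .nil)) 
(.lf (nat_lit 206062) (.g (nat_lit 1220) (.e (nat_lit 73791) (nat_lit 45) (.e (nat_lit 1386) (nat_lit 105) (.e (nat_lit 319232) (nat_lit 30) (.e (nat_lit 360450) (nat_lit 0) (.e (nat_lit 5898) (nat_lit 320) (.e (nat_lit 7936) (nat_lit 89) .nil)))))) (.g (nat_lit 5) .nil .nil)))) (.nd (nat_lit 5) 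
(.lf (nat_lit 206046) (.g (nat_lit 645) (.e (nat_lit 73791) (nat_lit 45) (.e (nat_lit 1385) (nat_lit 105) (.e (nat_lit 319232) (nat_lit 30) (.e (nat_lit 360456) (nat_lit 0) (.e (nat_lit 5818) (nat_lit 320) (.e (nat_lit 7936) (nat_lit 89) .nil)))))) (.g (nat_lit 5) .nil .nil))) 
(.lf (nat_lit 206078) (.g (nat_lit 1337) (.e (nat_lit 73792) (nat_lit 45) (.e (nat_lit 1162) (nat_lit 86) (.e (nat_lit 49156) (nat_lit 0) (.e (nat_lit 3011) (nat_lit 187) (.e (nat_lit 450584) (nat_lit 9) (.e (nat_lit 565268) (nat_lit 5) .nil)))))) (.g (nat_lit 6) .nil .nil)))))))) (.nd (nat_lit 1) (.nd (nat_lit 2) (.nd (nat_lit 3) (.nd (nat_lit 4) (.nd (nat_lit 5) 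
(.lf (nat_lit 206017) (.g (nat_lit 569) (.e (nat_lit 73791) (nat_lit 45) (.e (nat_lit 1163) (nat_lit 86) (.e (nat_lit 49157) (nat_lit 0) (.e (nat_lit 3003) (nat_lit 186) (.e (nat_lit 450304) (nat_lit 2) (.e (nat_lit 98048) (nat_lit 5) .nil)))))) (.g (nat_lit 4) .nil .nil))) 
(.lf (nat_lit 206049) (.g (nat_lit 619) (.e (nat_lit 73791) (nat_lit 45) (.e (nat_lit 1386) (nat_lit 105) (.e (nat_lit 311358) (nat_lit 29) (.e (nat_lit 352267) (nat_lit 0) .nil)))) .nil))) (.nd (nat_lit 5) 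
(.lf (nat_lit 206033) (.g (nat_lit 973) (.e (nat_lit 73791) (nat_lit 45) (.e (nat_lit 1385) (nat_lit 105) (.e (nat_lit 311358) (nat_lit 29) (.e (nat_lit 352296) (nat_lit 20) (.e (nat_lit 2005) (nat_lit 138) (.e (nat_lit 671763) (nat_lit 5) .nil)))))) (.g (nat_lit 6) .nil .nil))) 
(.lf (nat_lit 206065) (.g (nat_lit 1511) (.e (nat_lit 73791) (nat_lit 45) (.e (nat_lit 1386) (nat_lit 105) (.e (nat_lit 319232) (nat_lit 30) (.e (nat_lit 360452) (nat_lit 0) (.e (nat_lit 5907) (nat_lit 320) (.e (nat_lit 7936) (nat_lit 89) .nil)))))) (.g (nat_lit 5) .nil .nil))))) (.nd (nat_lit 4) (.nd (nat_lit 5) 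
(.lf (nat_lit 206025) (.g (nat_lit 553) (.e (nat_lit 73791) (nat_lit 45) (.e (nat_lit 1384) (nat_lit 105) (.e (nat_lit 311358) (nat_lit 29) (.e (nat_lit 352283) (nat_lit 20) (.e (nat_lit 1999) (nat_lit 137) .nil))))) .nil)) 
(.lf (nat_lit 206057) (.g (nat_lit 2611) (.e (nat_lit 73791) (nat_lit 45) (.e (nat_lit 1386) (nat_lit 105) (.e (nat_lit 311358) (nat_lit 29) (.e (nat_lit 352309) (nat_lit 21) (.e (nat_lit 57873) (nat_lit 264) (.e (nat_lit 1209) (nat_lit 89) .nil)))))) (.g (nat_lit 0) .nil .nil)))) (.nd (nat_lit 5) 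
(.lf (nat_lit 206041) (.g (nat_lit 1141) (.e (nat_lit 73791) (nat_lit 45) (.e (nat_lit 1385) (nat_lit 105) (.e (nat_lit 319232) (nat_lit 30) (.e (nat_lit 360451) (nat_lit 0) (.e (nat_lit 5896) (nat_lit 320) (.e (nat_lit 7936) (nat_lit 89) .nil)))))) (.g (nat_lit 5) .nil .nil))) 
(.lf (nat_lit 206073) (.g (nat_lit 1759) (.e (nat_lit 73792) (nat_lit 45) (.e (nat_lit 1141) (nat_lit 84) (.e (nat_lit 32787) (nat_lit 9) (.e (nat_lit 65586) (nat_lit 7) (.e (nat_lit 319500) (nat_lit 10) (.e (nat_lit 562) (nat_lit 41) (.e (nat_lit 500070) (nat_lit 19) .nil))))))) (.g (nat_lit 5) .nil .nil)))))) (.nd (nat_lit 3) (.nd (nat_lit 4) (.nd (nat_lit 5) 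
(.lf (nat_lit 206021) (.g (nat_lit 616) (.e (nat_lit 73791) (nat_lit 45) (.e (nat_lit 1340) (nat_lit 101) (.e (nat_lit 278529) (nat_lit 0) (.e (nat_lit 5779) (nat_lit 317) (.e (nat_lit 180259) (nat_lit 17) .nil))))) .nil)) 
(.lf (nat_lit 206053) (.g (nat_lit 686) (.e (nat_lit 73791) (nat_lit 45) (.e (nat_lit 1386) (nat_lit 105) (.e (nat_lit 311358) (nat_lit 29) (.e (nat_lit 352296) (nat_lit 20) (.e (nat_lit 2003) (nat_lit 138) .nil))))) .nil))) (.nd (nat_lit 5) 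
(.lf (nat_lit 206037) (.g (nat_lit 1587) (.e (nat_lit 73791) (nat_lit 45) (.e (nat_lit 1385) (nat_lit 105) (.e (nat_lit 311358) (nat_lit 29) (.e (nat_lit 352309) (nat_lit 21) (.e (nat_lit 57873) (nat_lit 264) (.e (nat_lit 7936) (nat_lit 89) .nil)))))) (.g (nat_lit 5) .nil .nil))) 
(.lf (nat_lit 206069) (.g (nat_lit 1172) (.e (nat_lit 73791) (nat_lit 45) (.e (nat_lit 1386) (nat_lit 105) (.e (nat_lit 319232) (nat_lit 30) (.e (nat_lit 360457) (nat_lit 0) (.e (nat_lit 5818) (nat_lit 320) (.e (nat_lit 7936) (nat_lit 89) .nil)))))) (.g (nat_lit 5) .nil .nil))))) (.nd (nat_lit 4) (.nd (nat_lit 5) 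
(.lf (nat_lit 206029) (.g (nat_lit 355) (.e (nat_lit 73791) (nat_lit 45) (.e (nat_lit 1384) (nat_lit 105) (.e (nat_lit 311358) (nat_lit 29) (.e (nat_lit 352297) (nat_lit 20) .nil)))) .nil)) 
(.lf (nat_lit 206061) (.g (nat_lit 333) (.e (nat_lit 73791) (nat_lit 45) (.e (nat_lit 1386) (nat_lit 105) (.e (nat_lit 319232) (nat_lit 30) .nil))) .nil))) (.nd (nat_lit 5) 
(.lf (nat_lit 206045) (.g (nat_lit 323) (.e (nat_lit 73791) (nat_lit 45) (.e (nat_lit 1385) (nat_lit 105) (.e (nat_lit 319232) (nat_lit 30) (.e (nat_lit 360455) (nat_lit 0) (.e (nat_lit 5813) (nat_lit 320) (.e (nat_lit 7936) (nat_lit 89) .nil)))))) (.g (nat_lit 5) .nil .nil))) 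
(.lf (nat_lit 206077) (.g (nat_lit 471) (.e (nat_lit 73792) (nat_lit 45) (.e (nat_lit 1162) (nat_lit 86) (.e (nat_lit 49156) (nat_lit 0) (.e (nat_lit 3011) (nat_lit 187) (.e (nat_lit 458496) (nat_lit 8) (.e (nat_lit 564992) (nat_lit 5) .nil)))))) (.g (nat_lit 4) .nil .nil))))))) (.nd (nat_lit 2) (.nd (nat_lit 3) (.nd (nat_lit 4) (.nd (nat_lit 5) 
(.lf (nat_lit 206019) (.g (nat_lit 333) (.e (nat_lit 73791) (nat_lit 45) (.e (nat_lit 1163) (nat_lit 86) (.e (nat_lit 49157) (nat_lit 0) (.e (nat_lit 3012) (nat_lit 187) (.e (nat_lit 458496) (nat_lit 8) (.e (nat_lit 564992) (nat_lit 5) .nil)))))) (.g (nat_lit 4) .nil .nil))) 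
(.lf (nat_lit 206051) (.g (nat_lit 1230) (.e (nat_lit 73791) (nat_lit 45) (.e (nat_lit 1386) (nat_lit 105) (.e (nat_lit 311358) (nat_lit 29) (.e (nat_lit 352283) (nat_lit 20) (.e (nat_lit 1998) (nat_lit 137) (.e (nat_lit 663568) (nat_lit 5) .nil)))))) (.g (nat_lit 6) .nil .nil)))) (.nd (nat_lit 5) 
(.lf (nat_lit 206035) (.g (nat_lit 1518) (.e (nat_lit 73791) (nat_lit 45) (.e (nat_lit 1385) (nat_lit 105) (.e (nat_lit 311358) (nat_lit 29) (.e (nat_lit 352307) (nat_lit 21) (.e (nat_lit 57873) (nat_lit 264) (.e (nat_lit 7936) (nat_lit 89) .nil)))))) (.g (nat_lit 5) .nil .nil))) 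
(.lf (nat_lit 206067) (.g (nat_lit 537) (.e (nat_lit 73791) (nat_lit 45) (.e (nat_lit 1386) (nat_lit 105) (.e (nat_lit 319232) (nat_lit 30) (.e (nat_lit 360455) (nat_lit 0) (.e (nat_lit 5813) (nat_lit 320) (.e (nat_lit 7936) (nat_lit 89) .nil)))))) (.g (nat_lit 5) .nil .nil))))) (.nd (nat_lit 4) (.nd (nat_lit 5) 
(.lf (nat_lit 206027) (.g (nat_lit 360) (.e (nat_lit 73791) (nat_lit 45) (.e (nat_lit 1384) (nat_lit 105) (.e (nat_lit 311358) (nat_lit 29) (.e (nat_lit 352287) (nat_lit 20) .nil)))) .nil)) 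
(.lf (nat_lit 206059) (.g (nat_lit 1087) (.e (nat_lit 73791) (nat_lit 45) (.e (nat_lit 1386) (nat_lit 105) (.e (nat_lit 311358) (nat_lit 29) (.e (nat_lit 352316) (nat_lit 24) (.e (nat_lit 123185) (nat_lit 264) (.e (nat_lit 7936) (nat_lit 89) .nil)))))) (.g (nat_lit 5) .nil .nil)))) (.nd (nat_lit 5) 
(.lf (nat_lit 206043) (.g (nat_lit 1303) (.e (nat_lit 73791) (nat_lit 45) (.e (nat_lit 1385) (nat_lit 105) (.e (nat_lit 319232) (nat_lit 30) (.e (nat_lit 360452) (nat_lit 0) (.e (nat_lit 5907) (nat_lit 320) (.e (nat_lit 7936) (nat_lit 89) .nil)))))) (.g (nat_lit 5) .nil .nil))) 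
(.lf (nat_lit 206075) (.g (nat_lit 465) (.e (nat_lit 73792) (nat_lit 45) (.e (nat_lit 1162) (nat_lit 86) (.e (nat_lit 49156) (nat_lit 0) (.e (nat_lit 2985) (nat_lit 186) (.e (nat_lit 450304) (nat_lit 2) (.e (nat_lit 98048) (nat_lit 5) .nil)))))) (.g (nat_lit 4) .nil .nil)))))) (.nd (nat_lit 3) (.nd (nat_lit 4) (.nd (nat_lit 5) 
(.lf (nat_lit 206023) (.g (nat_lit 316) (.e (nat_lit 73791) (nat_lit 45) (.e (nat_lit 1383) (nat_lit 105) (.e (nat_lit 311358) (nat_lit 29) (.e (nat_lit 352264) (nat_lit 0) .nil)))) .nil)) 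
(.lf (nat_lit 206055) (.g (nat_lit 2548) (.e (nat_lit 73791) (nat_lit 45) (.e (nat_lit 1386) (nat_lit 105) (.e (nat_lit 311358) (nat_lit 29) (.e (nat_lit 352307) (nat_lit 21) (.e (nat_lit 57873) (nat_lit 264) (.e (nat_lit 1209) (nat_lit 89) .nil)))))) (.g (nat_lit 0) .nil .nil)))) (.nd (nat_lit 5) 
(.lf (nat_lit 206039) (.g (nat_lit 1062) (.e (nat_lit 73791) (nat_lit 45) (.e (nat_lit 1385) (nat_lit 105) (.e (nat_lit 311358) (nat_lit 29) (.e (nat_lit 352318) (nat_lit 24) (.e (nat_lit 123185) (nat_lit 264) (.e (nat_lit 7936) (nat_lit 89) .nil)))))) (.g (nat_lit 5) .nil .nil))) 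
(.lf (nat_lit 206071) (.g (nat_lit 773) (.e (nat_lit 73792) (nat_lit 45) (.e (nat_lit 1140) (nat_lit 84) (.e (nat_lit 32787) (nat_lit 9) (.e (nat_lit 65583) (nat_lit 7) (.e (nat_lit 319499) (nat_lit 10) .nil))))) .nil)))) (.nd (nat_lit 4) (.nd (nat_lit 5) 
(.lf (nat_lit 206031) (.g (nat_lit 386) (.e (nat_lit 73791) (nat_lit 45) (.e (nat_lit 1384) (nat_lit 105) (.e (nat_lit 311358) (nat_lit 29) (.e (nat_lit 352303) (nat_lit 20) .nil)))) .nil)) 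
(.lf (nat_lit 206063) (.g (nat_lit 1349) (.e (nat_lit 73791) (nat_lit 45) (.e (nat_lit 1386) (nat_lit 105) (.e (nat_lit 319232) (nat_lit 30) (.e (nat_lit 360451) (nat_lit 0) (.e (nat_lit 5896) (nat_lit 320) (.e (nat_lit 7936) (nat_lit 89) .nil)))))) (.g (nat_lit 5) .nil .nil)))) (.nd (nat_lit 5) 
(.lf (nat_lit 206047) (.g (nat_lit 964) (.e (nat_lit 73791) (nat_lit 45) (.e (nat_lit 1385) (nat_lit 105) (.e (nat_lit 319232) (nat_lit 30) (.e (nat_lit 360457) (nat_lit 0) (.e (nat_lit 5818) (nat_lit 320) (.e (nat_lit 7936) (nat_lit 89) .nil)))))) (.g (nat_lit 5) .nil .nil))) 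
(.lf (nat_lit 206079) (.g (nat_lit 403) (.e (nat_lit 73792) (nat_lit 45) (.e (nat_lit 1162) (nat_lit 86) (.e (nat_lit 49156) (nat_lit 0) (.e (nat_lit 3012) (nat_lit 187) (.e (nat_lit 458496) (nat_lit 8) (.e (nat_lit 564992) (nat_lit 5) .nil)))))) (.g (nat_lit 4) .nil .nil)))))))))

noncomputable def tv2718 : DT := (.nd (nat_lit 0) (.nd (nat_lit 1) (.nd (nat_lit 2) (.nd (nat_lit 3) (.nd (nat_lit 4) (.nd (nat_lit 5) 
(.lf (nat_lit 206080) (.g (nat_lit 732) (.e (nat_lit 73792) (nat_lit 45) (.e (nat_lit 1162) (nat_lit 86) (.e (nat_lit 49156) (nat_lit 0) (.e (nat_lit 3026) (nat_lit 187) (.e (nat_lit 458496) (nat_lit 8) (.e (nat_lit 564992) (nat_lit 5) .nil)))))) (.g (nat_lit 4) .nil .nil))) 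
(.lf (nat_lit 206112) (.g (nat_lit 226) (.e (nat_lit 73792) (nat_lit 45) (.e (nat_lit 1385) (nat_lit 105) (.e (nat_lit 319232) (nat_lit 30) .nil))) .nil))) (.nd (nat_lit 5) 
(.lf (nat_lit 206096) (.g (nat_lit 419) (.e (nat_lit 73792) (nat_lit 45) (.e (nat_lit 1163) (nat_lit 86) (.e (nat_lit 49157) (nat_lit 0) (.e (nat_lit 3012) (nat_lit 187) (.e (nat_lit 458496) (nat_lit 8) (.e (nat_lit 564992) (nat_lit 5) .nil)))))) (.g (nat_lit 4) .nil .nil))) 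
(.lf (nat_lit 206128) (.g (nat_lit 1402) (.e (nat_lit 73792) (nat_lit 45) (.e (nat_lit 1386) (nat_lit 105) (.e (nat_lit 311358) (nat_lit 29) (.e (nat_lit 352316) (nat_lit 24) (.e (nat_lit 123185) (nat_lit 264) (.e (nat_lit 7936) (nat_lit 89) .nil)))))) (.g (nat_lit 5) .nil .nil))))) (.nd (nat_lit 4) (.nd (nat_lit 5) 
(.lf (nat_lit 206088) (.g (nat_lit 526) (.e (nat_lit 73792) (nat_lit 45) (.e (nat_lit 1163) (nat_lit 86) (.e (nat_lit 49156) (nat_lit 0) (.e (nat_lit 3003) (nat_lit 186) (.e (nat_lit 450304) (nat_lit 2) (.e (nat_lit 98048) (nat_lit 5) .nil)))))) (.g (nat_lit 4) .nil .nil))) 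
(.lf (nat_lit 206120) (.g (nat_lit 253) (.e (nat_lit 73792) (nat_lit 45) (.e (nat_lit 1386) (nat_lit 105) (.e (nat_lit 311358) (nat_lit 29) .nil))) .nil))) (.nd (nat_lit 5) 
(.lf (nat_lit 206104) (.g (nat_lit 2846) (.e (nat_lit 73792) (nat_lit 45) (.e (nat_lit 1385) (nat_lit 105) (.e (nat_lit 311358) (nat_lit 29) (.e (nat_lit 352309) (nat_lit 21) (.e (nat_lit 57872) (nat_lit 264) (.e (nat_lit 1209) (nat_lit 89) .nil)))))) (.g (nat_lit 6) .nil .nil))) 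
(.lf (nat_lit 206136) (.g (nat_lit 1196) (.e (nat_lit 73792) (nat_lit 45) (.e (nat_lit 1386) (nat_lit 105) (.e (nat_lit 319232) (nat_lit 30) (.e (nat_lit 360449) (nat_lit 0) (.e (nat_lit 5898) (nat_lit 320) (.e (nat_lit 7936) (nat_lit 89) .nil)))))) (.g (nat_lit 5) .nil .nil)))))) (.nd (nat_lit 3) (.nd (nat_lit 4) (.nd (nat_lit 5) 
(.lf (nat_lit 206084) (.g (nat_lit 474) (.e (nat_lit 73792) (nat_lit 45) (.e (nat_lit 1162) (nat_lit 86) (.e (nat_lit 49157) (nat_lit 0) (.e (nat_lit 3012) (nat_lit 187) (.e (nat_lit 458496) (nat_lit 8) (.e (nat_lit 564992) (nat_lit 5) .nil)))))) (.g (nat_lit 4) .nil .nil))) 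
(.lf (nat_lit 206116) (.g (nat_lit 482) (.e (nat_lit 73792) (nat_lit 45) (.e (nat_lit 1385) (nat_lit 105) (.e (nat_lit 319232) (nat_lit 30) (.e (nat_lit 360455) (nat_lit 0) (.e (nat_lit 5813) (nat_lit 320) (.e (nat_lit 7936) (nat_lit 89) .nil)))))) (.g (nat_lit 5) .nil .nil)))) (.nd (nat_lit 5) 
(.lf (nat_lit 206100) (.g (nat_lit 1303) (.e (nat_lit 73792) (nat_lit 45) (.e (nat_lit 1349) (nat_lit 102) (.e (nat_lit 294656) (nat_lit 35) (.e (nat_lit 491566) (nat_lit 12) (.e (nat_lit 385092) (nat_lit 49) .nil))))) .nil)) 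
(.lf (nat_lit 206132) (.g (nat_lit 1076) (.e (nat_lit 73792) (nat_lit 45) (.e (nat_lit 1386) (nat_lit 105) (.e (nat_lit 319232) (nat_lit 29) (.e (nat_lit 352316) (nat_lit 24) (.e (nat_lit 123184) (nat_lit 264) (.e (nat_lit 1214) (nat_lit 89) .nil)))))) (.g (nat_lit 4) .nil .nil))))) (.nd (nat_lit 4) (.nd (nat_lit 5) 
(.lf (nat_lit 206092) (.g (nat_lit 684) (.e (nat_lit 73792) (nat_lit 45) (.e (nat_lit 1163) (nat_lit 86) (.e (nat_lit 49156) (nat_lit 0) (.e (nat_lit 3026) (nat_lit 187) (.e (nat_lit 458496) (nat_lit 8) (.e (nat_lit 564992) (nat_lit 5) .nil)))))) (.g (nat_lit 4) .nil .nil))) 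
(.lf (nat_lit 206124) (.g (nat_lit 2150) (.e (nat_lit 73792) (nat_lit 45) (.e (nat_lit 1386) (nat_lit 105) (.e (nat_lit 311358) (nat_lit 29) (.e (nat_lit 352308) (nat_lit 21) (.e (nat_lit 57872) (nat_lit 264) (.e (nat_lit 1209) (nat_lit 89) .nil)))))) (.g (nat_lit 6) .nil .nil)))) (.nd (nat_lit 5) 
(.lf (nat_lit 206108) (.g (nat_lit 1505) (.e (nat_lit 73792) (nat_lit 45) (.e (nat_lit 1385) (nat_lit 105) (.e (nat_lit 311358) (nat_lit 29) (.e (nat_lit 352317) (nat_lit 24) (.e (nat_lit 123184) (nat_lit 264) (.e (nat_lit 1214) (nat_lit 89) .nil)))))) (.g (nat_lit 6) .nil .nil))) 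
(.lf (nat_lit 206140) (.g (nat_lit 1510) (.e (nat_lit 73792) (nat_lit 45) (.e (nat_lit 1386) (nat_lit 105) (.e (nat_lit 319232) (nat_lit 30) (.e (nat_lit 360453) (nat_lit 0) (.e (nat_lit 5907) (nat_lit 320) (.e (nat_lit 7936) (nat_lit 89) .nil)))))) (.g (nat_lit 5) .nil .nil))))))) (.nd (nat_lit 2) (.nd (nat_lit 3) (.nd (nat_lit 4) (.nd (nat_lit 5) 
(.lf (nat_lit 206082) (.g (nat_lit 710) (.e (nat_lit 73792) (nat_lit 45) (.e (nat_lit 1162) (nat_lit 86) (.e (nat_lit 49157) (nat_lit 0) (.e (nat_lit 3003) (nat_lit 186) (.e (nat_lit 450304) (nat_lit 2) (.e (nat_lit 98048) (nat_lit 5) .nil)))))) (.g (nat_lit 4) .nil .nil))) 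
(.lf (nat_lit 206114) (.g (nat_lit 1306) (.e (nat_lit 73792) (nat_lit 45) (.e (nat_lit 1385) (nat_lit 105) (.e (nat_lit 319232) (nat_lit 30) (.e (nat_lit 360451) (nat_lit 0) (.e (nat_lit 5896) (nat_lit 320) (.e (nat_lit 7936) (nat_lit 89) .nil)))))) (.g (nat_lit 5) .nil .nil)))) (.nd (nat_lit 5) 
(.lf (nat_lit 206098) (.g (nat_lit 1017) (.e (nat_lit 73792) (nat_lit 45) (.e (nat_lit 1163) (nat_lit 86) (.e (nat_lit 49157) (nat_lit 0) (.e (nat_lit 3026) (nat_lit 187) (.e (nat_lit 458496) (nat_lit 8) (.e (nat_lit 564992) (nat_lit 5) .nil)))))) (.g (nat_lit 4) .nil .nil))) 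
(.lf (nat_lit 206130) (.g (nat_lit 1537) (.e (nat_lit 73792) (nat_lit 45) (.e (nat_lit 1386) (nat_lit 105) (.e (nat_lit 311358) (nat_lit 29) (.e (nat_lit 352318) (nat_lit 24) (.e (nat_lit 123185) (nat_lit 264) (.e (nat_lit 7936) (nat_lit 89) .nil)))))) (.g (nat_lit 5) .nil .nil))))) (.nd (nat_lit 4) (.nd (nat_lit 5) 
(.lf (nat_lit 206090) (.g (nat_lit 1246) (.e (nat_lit 73792) (nat_lit 45) (.e (nat_lit 1163) (nat_lit 86) (.e (nat_lit 49156) (nat_lit 0) (.e (nat_lit 3011) (nat_lit 187) (.e (nat_lit 450584) (nat_lit 9) (.e (nat_lit 565268) (nat_lit 5) .nil)))))) (.g (nat_lit 6) .nil .nil))) 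
(.lf (nat_lit 206122) (.g (nat_lit 3025) (.e (nat_lit 73792) (nat_lit 45) (.e (nat_lit 1386) (nat_lit 105) (.e (nat_lit 311358) (nat_lit 29) (.e (nat_lit 352307) (nat_lit 21) (.e (nat_lit 57872) (nat_lit 264) (.e (nat_lit 1209) (nat_lit 89) .nil)))))) (.g (nat_lit 0) .nil .nil)))) (.nd (nat_lit 5) 
(.lf (nat_lit 206106) (.g (nat_lit 1131) (.e (nat_lit 73792) (nat_lit 45) (.e (nat_lit 1385) (nat_lit 105) (.e (nat_lit 311358) (nat_lit 29) (.e (nat_lit 352309) (nat_lit 21) (.e (nat_lit 65280) (nat_lit 264) .nil))))) .nil)) 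
(.lf (nat_lit 206138) (.g (nat_lit 1678) (.e (nat_lit 73792) (nat_lit 45) (.e (nat_lit 1386) (nat_lit 105) (.e (nat_lit 319232) (nat_lit 30) (.e (nat_lit 360451) (nat_lit 0) (.e (nat_lit 5896) (nat_lit 320) (.e (nat_lit 7936) (nat_lit 89) .nil)))))) (.g (nat_lit 5) .nil .nil)))))) (.nd (nat_lit 3) (.nd (nat_lit 4) (.nd (nat_lit 5) 
(.lf (nat_lit 206086) (.g (nat_lit 1072) (.e (nat_lit 73792) (nat_lit 45) (.e (nat_lit 1162) (nat_lit 86) (.e (nat_lit 49157) (nat_lit 0) (.e (nat_lit 3026) (nat_lit 187) (.e (nat_lit 458496) (nat_lit 8) (.e (nat_lit 564992) (nat_lit 5) .nil)))))) (.g (nat_lit 4) .nil .nil))) 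
(.lf (nat_lit 206118) (.g (nat_lit 1010) (.e (nat_lit 73792) (nat_lit 45) (.e (nat_lit 1385) (nat_lit 105) (.e (nat_lit 319232) (nat_lit 30) (.e (nat_lit 360457) (nat_lit 0) (.e (nat_lit 5818) (nat_lit 320) (.e (nat_lit 7936) (nat_lit 89) .nil)))))) (.g (nat_lit 5) .nil .nil)))) (.nd (nat_lit 5) 
(.lf (nat_lit 206102) (.g (nat_lit 2654) (.e (nat_lit 73792) (nat_lit 45) (.e (nat_lit 1385) (nat_lit 105) (.e (nat_lit 311358) (nat_lit 29) (.e (nat_lit 352307) (nat_lit 21) (.e (nat_lit 57872) (nat_lit 264) (.e (nat_lit 1209) (nat_lit 89) .nil)))))) (.g (nat_lit 0) .nil .nil))) 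
(.lf (nat_lit 206134) (.g (nat_lit 381) (.e (nat_lit 73792) (nat_lit 45) (.e (nat_lit 1386) (nat_lit 105) (.e (nat_lit 319232) (nat_lit 30) .nil))) .nil)))) (.nd (nat_lit 4) (.nd (nat_lit 5) 
(.lf (nat_lit 206094) (.g (nat_lit 655) (.e (nat_lit 73792) (nat_lit 45) (.e (nat_lit 1163) (nat_lit 86) (.e (nat_lit 49157) (nat_lit 0) (.e (nat_lit 3003) (nat_lit 186) (.e (nat_lit 450304) (nat_lit 2) (.e (nat_lit 98048) (nat_lit 5) .nil)))))) (.g (nat_lit 4) .nil .nil))) 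
(.lf (nat_lit 206126) (.g (nat_lit 1741) (.e (nat_lit 73792) (nat_lit 45) (.e (nat_lit 1386) (nat_lit 105) (.e (nat_lit 311358) (nat_lit 29) (.e (nat_lit 352309) (nat_lit 21) (.e (nat_lit 57873) (nat_lit 264) (.e (nat_lit 7936) (nat_lit 89) .nil)))))) (.g (nat_lit 5) .nil .nil)))) (.nd (nat_lit 5) 
(.lf (nat_lit 206110) (.g (nat_lit 1303) (.e (nat_lit 73792) (nat_lit 45) (.e (nat_lit 1385) (nat_lit 105) (.e (nat_lit 319232) (nat_lit 29) (.e (nat_lit 352309) (nat_lit 21) (.e (nat_lit 57872) (nat_lit 264) (.e (nat_lit 1209) (nat_lit 89) .nil)))))) (.g (nat_lit 5) .nil .nil))) 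
(.lf (nat_lit 206142) (.g (nat_lit 1063) (.e (nat_lit 73792) (nat_lit 45) (.e (nat_lit 1386) (nat_lit 105) (.e (nat_lit 319232) (nat_lit 30) (.e (nat_lit 360456) (nat_lit 0) (.e (nat_lit 5818) (nat_lit 320) (.e (nat_lit 7936) (nat_lit 89) .nil)))))) (.g (nat_lit 5) .nil .nil)))))))) (.nd (nat_lit 1) (.nd (nat_lit 2) (.nd (nat_lit 3) (.nd (nat_lit 4) (.nd (nat_lit 5) 
(.lf (nat_lit 206081) (.g (nat_lit 537) (.e (nat_lit 73792) (nat_lit 45) (.e (nat_lit 1162) (nat_lit 86) (.e (nat_lit 49157) (nat_lit 0) (.e (nat_lit 2985) (nat_lit 186) (.e (nat_lit 450304) (nat_lit 2) (.e (nat_lit 98048) (nat_lit 5) .nil)))))) (.g (nat_lit 4) .nil .nil))) 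
(.lf (nat_lit 206113) (.g (nat_lit 1181) (.e (nat_lit 73792) (nat_lit 45) (.e (nat_lit 1385) (nat_lit 105) (.e (nat_lit 319232) (nat_lit 30) (.e (nat_lit 360450) (nat_lit 0) (.e (nat_lit 5898) (nat_lit 320) (.e (nat_lit 7936) (nat_lit 89) .nil)))))) (.g (nat_lit 5) .nil .nil)))) (.nd (nat_lit 5) 
(.lf (nat_lit 206097) (.g (nat_lit 269) (.e (nat_lit 73792) (nat_lit 45) (.e (nat_lit 1163) (nat_lit 86) (.e (nat_lit 49157) (nat_lit 0) (.e (nat_lit 3020) (nat_lit 187) (.e (nat_lit 458496) (nat_lit 8) .nil))))) .nil)) 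
(.lf (nat_lit 206129) (.g (nat_lit 1814) (.e (nat_lit 73792) (nat_lit 45) (.e (nat_lit 1386) (nat_lit 105) (.e (nat_lit 311358) (nat_lit 29) (.e (nat_lit 352317) (nat_lit 24) (.e (nat_lit 123184) (nat_lit 264) (.e (nat_lit 1214) (nat_lit 89) .nil)))))) (.g (nat_lit 6) .nil .nil))))) (.nd (nat_lit 4) (.nd (nat_lit 5) 
(.lf (nat_lit 206089) (.g (nat_lit 416) (.e (nat_lit 73792) (nat_lit 45) (.e (nat_lit 1163) (nat_lit 86) (.e (nat_lit 49156) (nat_lit 0) (.e (nat_lit 3011) (nat_lit 187) (.e (nat_lit 458496) (nat_lit 8) .nil))))) .nil)) 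
(.lf (nat_lit 206121) (.g (nat_lit 710) (.e (nat_lit 73792) (nat_lit 45) (.e (nat_lit 1386) (nat_lit 105) (.e (nat_lit 311358) (nat_lit 29) (.e (nat_lit 352266) (nat_lit 0) .nil)))) .nil))) (.nd (nat_lit 5) 
(.lf (nat_lit 206105) (.g (nat_lit 1424) (.e (nat_lit 73792) (nat_lit 45) (.e (nat_lit 1385) (nat_lit 105) (.e (nat_lit 311358) (nat_lit 29) (.e (nat_lit 352309) (nat_lit 21) (.e (nat_lit 57873) (nat_lit 264) (.e (nat_lit 7936) (nat_lit 89) .nil)))))) (.g (nat_lit 5) .nil .nil))) 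
(.lf (nat_lit 206137) (.g (nat_lit 1553) (.e (nat_lit 73792) (nat_lit 45) (.e (nat_lit 1386) (nat_lit 105) (.e (nat_lit 319232) (nat_lit 30) (.e (nat_lit 360450) (nat_lit 0) (.e (nat_lit 5898) (nat_lit 320) (.e (nat_lit 7936) (nat_lit 89) .nil)))))) (.g (nat_lit 5) .nil .nil)))))) (.nd (nat_lit 3) (.nd (nat_lit 4) (.nd (nat_lit 5) 
(.lf (nat_lit 206085) (.g (nat_lit 328) (.e (nat_lit 73792) (nat_lit 45) (.e (nat_lit 1162) (nat_lit 86) (.e (nat_lit 49157) (nat_lit 0) (.e (nat_lit 3020) (nat_lit 187) (.e (nat_lit 458496) (nat_lit 8) .nil))))) .nil)) 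
(.lf (nat_lit 206117) (.g (nat_lit 691) (.e (nat_lit 73792) (nat_lit 45) (.e (nat_lit 1385) (nat_lit 105) (.e (nat_lit 319232) (nat_lit 30) (.e (nat_lit 360456) (nat_lit 0) (.e (nat_lit 5818) (nat_lit 320) (.e (nat_lit 7936) (nat_lit 89) .nil)))))) (.g (nat_lit 5) .nil .nil)))) (.nd (nat_lit 5) 
(.lf (nat_lit 206101) (.g (nat_lit 636) (.e (nat_lit 73792) (nat_lit 45) (.e (nat_lit 1385) (nat_lit 105) (.e (nat_lit 311358) (nat_lit 29) (.e (nat_lit 352291) (nat_lit 20) (.e (nat_lit 2006) (nat_lit 138) .nil))))) .nil)) 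
(.lf (nat_lit 206133) (.g (nat_lit 1868) (.e (nat_lit 73792) (nat_lit 45) (.e (nat_lit 1386) (nat_lit 105) (.e (nat_lit 319232) (nat_lit 29) (.e (nat_lit 352318) (nat_lit 24) (.e (nat_lit 123184) (nat_lit 264) (.e (nat_lit 1214) (nat_lit 89) .nil)))))) (.g (nat_lit 5) .nil .nil))))) (.nd (nat_lit 4) (.nd (nat_lit 5) 
(.lf (nat_lit 206093) (.g (nat_lit 482) (.e (nat_lit 73792) (nat_lit 45) (.e (nat_lit 1163) (nat_lit 86) (.e (nat_lit 49157) (nat_lit 0) (.e (nat_lit 2985) (nat_lit 186) (.e (nat_lit 450304) (nat_lit 2) (.e (nat_lit 98048) (nat_lit 5) .nil)))))) (.g (nat_lit 4) .nil .nil))) 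
(.lf (nat_lit 206125) (.g (nat_lit 3157) (.e (nat_lit 73792) (nat_lit 45) (.e (nat_lit 1386) (nat_lit 105) (.e (nat_lit 311358) (nat_lit 29) (.e (nat_lit 352309) (nat_lit 21) (.e (nat_lit 57872) (nat_lit 264) (.e (nat_lit 1209) (nat_lit 89) .nil)))))) (.g (nat_lit 6) .nil .nil)))) (.nd (nat_lit 5) 
(.lf (nat_lit 206109) (.g (nat_lit 1225) (.e (nat_lit 73792) (nat_lit 45) (.e (nat_lit 1385) (nat_lit 105) (.e (nat_lit 311358) (nat_lit 29) (.e (nat_lit 352318) (nat_lit 24) (.e (nat_lit 123185) (nat_lit 264) (.e (nat_lit 7936) (nat_lit 89) .nil)))))) (.g (nat_lit 5) .nil .nil))) 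
(.lf (nat_lit 206141) (.g (nat_lit 860) (.e (nat_lit 73792) (nat_lit 45) (.e (nat_lit 1386) (nat_lit 105) (.e (nat_lit 319232) (nat_lit 30) (.e (nat_lit 360455) (nat_lit 0) (.e (nat_lit 5813) (nat_lit 320) (.e (nat_lit 7936) (nat_lit 89) .nil)))))) (.g (nat_lit 5) .nil .nil))))))) (.nd (nat_lit 2) (.nd (nat_lit 3) (.nd (nat_lit 4) (.nd (nat_lit 5) 
(.lf (nat_lit 206083) (.g (nat_lit 654) (.e (nat_lit 73792) (nat_lit 45) (.e (nat_lit 1162) (nat_lit 86) (.e (nat_lit 49157) (nat_lit 0) (.e (nat_lit 3011) (nat_lit 187) (.e (nat_lit 458496) (nat_lit 8) (.e (nat_lit 564992) (nat_lit 5) .nil)))))) (.g (nat_lit 4) .nil .nil))) 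
(.lf (nat_lit 206115) (.g (nat_lit 1508) (.e (nat_lit 73792) (nat_lit 45) (.e (nat_lit 1385) (nat_lit 105) (.e (nat_lit 319232) (nat_lit 30) (.e (nat_lit 360451) (nat_lit 0) (.e (nat_lit 5898) (nat_lit 320) (.e (nat_lit 7936) (nat_lit 89) .nil)))))) (.g (nat_lit 5) .nil .nil)))) (.nd (nat_lit 5) 
(.lf (nat_lit 206099) (.g (nat_lit 705) (.e (nat_lit 73792) (nat_lit 45) (.e (nat_lit 1342) (nat_lit 101) (.e (nat_lit 278529) (nat_lit 0) (.e (nat_lit 5779) (nat_lit 317) (.e (nat_lit 180260) (nat_lit 18) (.e (nat_lit 639022) (nat_lit 17) .nil)))))) (.g (nat_lit 4) .nil .nil))) 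
(.lf (nat_lit 206131) (.g (nat_lit 1669) (.e (nat_lit 73792) (nat_lit 45) (.e (nat_lit 1386) (nat_lit 105) (.e (nat_lit 319232) (nat_lit 29) (.e (nat_lit 352309) (nat_lit 21) (.e (nat_lit 57872) (nat_lit 264) (.e (nat_lit 1209) (nat_lit 89) .nil)))))) (.g (nat_lit 5) .nil .nil))))) (.nd (nat_lit 4) (.nd (nat_lit 5) 
(.lf (nat_lit 206091) (.g (nat_lit 362) (.e (nat_lit 73792) (nat_lit 45) (.e (nat_lit 1163) (nat_lit 86) (.e (nat_lit 49156) (nat_lit 0) (.e (nat_lit 3012) (nat_lit 187) (.e (nat_lit 458496) (nat_lit 8) (.e (nat_lit 564992) (nat_lit 5) .nil)))))) (.g (nat_lit 4) .nil .nil))) 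
(.lf (nat_lit 206123) (.g (nat_lit 1642) (.e (nat_lit 73792) (nat_lit 45) (.e (nat_lit 1386) (nat_lit 105) (.e (nat_lit 311358) (nat_lit 29) (.e (nat_lit 352307) (nat_lit 21) (.e (nat_lit 57873) (nat_lit 264) (.e (nat_lit 7936) (nat_lit 89) .nil)))))) (.g (nat_lit 5) .nil .nil)))) (.nd (nat_lit 5) 
(.lf (nat_lit 206107) (.g (nat_lit 1084) (.e (nat_lit 73792) (nat_lit 45) (.e (nat_lit 1385) (nat_lit 105) (.e (nat_lit 311358) (nat_lit 29) (.e (nat_lit 352316) (nat_lit 24) (.e (nat_lit 123185) (nat_lit 264) (.e (nat_lit 7936) (nat_lit 89) .nil)))))) (.g (nat_lit 5) .nil .nil))) 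
(.lf (nat_lit 206139) (.g (nat_lit 1880) (.e (nat_lit 73792) (nat_lit 45) (.e (nat_lit 1386) (nat_lit 105) (.e (nat_lit 319232) (nat_lit 30) (.e (nat_lit 360451) (nat_lit 0) (.e (nat_lit 5898) (nat_lit 320) (.e (nat_lit 7936) (nat_lit 89) .nil)))))) (.g (nat_lit 5) .nil .nil)))))) (.nd (nat_lit 3) (.nd (nat_lit 4) (.nd (nat_lit 5) 
(.lf (nat_lit 206087) (.g (nat_lit 416) (.e (nat_lit 73792) (nat_lit 45) (.e (nat_lit 1163) (nat_lit 86) (.e (nat_lit 49156) (nat_lit 0) (.e (nat_lit 2985) (nat_lit 186) (.e (nat_lit 450304) (nat_lit 2) (.e (nat_lit 98048) (nat_lit 5) .nil)))))) (.g (nat_lit 4) .nil .nil))) 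
(.lf (nat_lit 206119) (.g (nat_lit 1186) (.e (nat_lit 73792) (nat_lit 45) (.e (nat_lit 1385) (nat_lit 105) (.e (nat_lit 319232) (nat_lit 32) (.e (nat_lit 376859) (nat_lit 21) (.e (nat_lit 57872) (nat_lit 264) (.e (nat_lit 1209) (nat_lit 89) .nil)))))) (.g (nat_lit 5) .nil .nil)))) (.nd (nat_lit 5) 
(.lf (nat_lit 206103) (.g (nat_lit 1830) (.e (nat_lit 73792) (nat_lit 45) (.e (nat_lit 1385) (nat_lit 105) (.e (nat_lit 311358) (nat_lit 29) (.e (nat_lit 352308) (nat_lit 21) (.e (nat_lit 57872) (nat_lit 264) (.e (nat_lit 1209) (nat_lit 89) .nil)))))) (.g (nat_lit 6) .nil .nil))) 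
(.lf (nat_lit 206135) (.g (nat_lit 1395) (.e (nat_lit 73792) (nat_lit 45) (.e (nat_lit 1386) (nat_lit 105) (.e (nat_lit 319232) (nat_lit 30) (.e (nat_lit 360449) (nat_lit 0) (.e (nat_lit 5896) (nat_lit 320) (.e (nat_lit 7936) (nat_lit 89) .nil)))))) (.g (nat_lit 5) .nil .nil))))) (.nd (nat_lit 4) (.nd (nat_lit 5) 
(.lf (nat_lit 206095) (.g (nat_lit 597) (.e (nat_lit 73792) (nat_lit 45) (.e (nat_lit 1163) (nat_lit 86) (.e (nat_lit 49157) (nat_lit 0) (.e (nat_lit 3011) (nat_lit 187) (.e (nat_lit 458496) (nat_lit 8) (.e (nat_lit 564992) (nat_lit 5) .nil)))))) (.g (nat_lit 4) .nil .nil))) 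
(.lf (nat_lit 206127) (.g (nat_lit 1393) (.e (nat_lit 73792) (nat_lit 45) (.e (nat_lit 1386) (nat_lit 105) (.e (nat_lit 311358) (nat_lit 29) (.e (nat_lit 352309) (nat_lit 21) (.e (nat_lit 65280) (nat_lit 264) (.e (nat_lit 1207) (nat_lit 89) .nil)))))) (.g (nat_lit 4) .nil .nil)))) (.nd (nat_lit 5) 
(.lf (nat_lit 206111) (.g (nat_lit 1504) (.e (nat_lit 73792) (nat_lit 45) (.e (nat_lit 1385) (nat_lit 105) (.e (nat_lit 319232) (nat_lit 29) (.e (nat_lit 352318) (nat_lit 24) (.e (nat_lit 123184) (nat_lit 264) (.e (nat_lit 1214) (nat_lit 89) .nil)))))) (.g (nat_lit 5) .nil .nil))) 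
(.lf (nat_lit 206143) (.g (nat_lit 1382) (.e (nat_lit 73792) (nat_lit 45) (.e (nat_lit 1386) (nat_lit 105) (.e (nat_lit 319232) (nat_lit 30) (.e (nat_lit 360457) (nat_lit 0) (.e (nat_lit 5818) (nat_lit 320) (.e (nat_lit 7936) (nat_lit 89) .nil)))))) (.g (nat_lit 5) .nil .nil)))))))))

noncomputable def tv2719 : DT := (.nd (nat_lit 0) (.nd (nat_lit 1) (.nd (nat_lit 2) (.nd (nat_lit 3) (.nd (nat_lit 4) 
(.lf (nat_lit 206144) (.g (nat_lit 1553) (.e (nat_lit 73792) (nat_lit 45) (.e (nat_lit 1386) (nat_lit 105) (.e (nat_lit 319232) (nat_lit 32) (.e (nat_lit 376859) (nat_lit 21) (.e (nat_lit 57872) (nat_lit 264) (.e (nat_lit 1209) (nat_lit 89) .nil)))))) (.g (nat_lit 5) .nil .nil))) 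
(.lf (nat_lit 206160) (.g (nat_lit 696) (.e (nat_lit 73794) (nat_lit 46) (.e (nat_lit 57864) (nat_lit 256) (.e (nat_lit 317) (nat_lit 23) (.e (nat_lit 352287) (nat_lit 20) (.e (nat_lit 1998) (nat_lit 137) (.e (nat_lit 663568) (nat_lit 5) .nil)))))) (.g (nat_lit 0) .nil .nil)))) (.nd (nat_lit 4) 
(.lf (nat_lit 206152) (.g (nat_lit 787) (.e (nat_lit 73794) (nat_lit 46) (.e (nat_lit 57862) (nat_lit 256) (.e (nat_lit 317) (nat_lit 23) (.e (nat_lit 352297) (nat_lit 20) (.e (nat_lit 2006) (nat_lit 138) (.e (nat_lit 671763) (nat_lit 5) .nil)))))) (.g (nat_lit 0) .nil .nil))) 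
(.lf (nat_lit 206168) (.g (nat_lit 1416) (.e (nat_lit 73795) (nat_lit 47) (.e (nat_lit 123163) (nat_lit 256) (.e (nat_lit 318) (nat_lit 23) (.e (nat_lit 352267) (nat_lit 0) (.e (nat_lit 3631) (nat_lit 227) (.e (nat_lit 778323) (nat_lit 5) .nil)))))) (.g (nat_lit 0) .nil .nil))))) (.nd (nat_lit 3) (.nd (nat_lit 4) 
(.lf (nat_lit 206148) (.g (nat_lit 1039) (.e (nat_lit 73794) (nat_lit 46) (.e (nat_lit 57862) (nat_lit 256) (.e (nat_lit 317) (nat_lit 23) (.e (nat_lit 352267) (nat_lit 0) (.e (nat_lit 3629) (nat_lit 227) (.e (nat_lit 778323) (nat_lit 5) .nil)))))) (.g (nat_lit 0) .nil .nil))) 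
(.lf (nat_lit 206164) (.g (nat_lit 1778) (.e (nat_lit 73794) (nat_lit 46) (.e (nat_lit 57864) (nat_lit 256) (.e (nat_lit 317) (nat_lit 23) (.e (nat_lit 352318) (nat_lit 24) (.e (nat_lit 123184) (nat_lit 264) (.e (nat_lit 1212) (nat_lit 89) .nil)))))) (.g (nat_lit 6) .nil .nil)))) (.nd (nat_lit 4) 
(.lf (nat_lit 206156) (.g (nat_lit 1876) (.e (nat_lit 73794) (nat_lit 46) (.e (nat_lit 57863) (nat_lit 256) (.e (nat_lit 317) (nat_lit 23) (.e (nat_lit 352318) (nat_lit 24) (.e (nat_lit 123182) (nat_lit 264) (.e (nat_lit 1212) (nat_lit 89) .nil)))))) (.g (nat_lit 6) .nil .nil))) 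
(.lf (nat_lit 206172) (.g (nat_lit 2035) (.e (nat_lit 73795) (nat_lit 47) (.e (nat_lit 123165) (nat_lit 256) (.e (nat_lit 311) (nat_lit 23) (.e (nat_lit 352262) (nat_lit 0) (.e (nat_lit 3632) (nat_lit 227) (.e (nat_lit 778324) (nat_lit 5) .nil)))))) (.g (nat_lit 0) .nil .nil)))))) (.nd (nat_lit 2) (.nd (nat_lit 3) (.nd (nat_lit 4) 
(.lf (nat_lit 206146) (.g (nat_lit 642) (.e (nat_lit 81664) (nat_lit 45) (.e (nat_lit 1374) (nat_lit 104) (.e (nat_lit 303155) (nat_lit 29) (.e (nat_lit 352297) (nat_lit 20) .nil)))) .nil)) 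
(.lf (nat_lit 206162) (.g (nat_lit 1872) (.e (nat_lit 73794) (nat_lit 46) (.e (nat_lit 57864) (nat_lit 256) (.e (nat_lit 317) (nat_lit 23) (.e (nat_lit 352318) (nat_lit 24) (.e (nat_lit 123182) (nat_lit 264) (.e (nat_lit 1212) (nat_lit 89) .nil)))))) (.g (nat_lit 6) .nil .nil)))) (.nd (nat_lit 4) 
(.lf (nat_lit 206154) (.g (nat_lit 1777) (.e (nat_lit 73794) (nat_lit 46) (.e (nat_lit 57862) (nat_lit 256) (.e (nat_lit 317) (nat_lit 23) (.e (nat_lit 352318) (nat_lit 24) (.e (nat_lit 123183) (nat_lit 264) (.e (nat_lit 1212) (nat_lit 89) .nil)))))) (.g (nat_lit 6) .nil .nil))) 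
(.lf (nat_lit 206170) (.g (nat_lit 582) (.e (nat_lit 73795) (nat_lit 47) (.e (nat_lit 123163) (nat_lit 256) (.e (nat_lit 318) (nat_lit 23) (.e (nat_lit 352297) (nat_lit 20) (.e (nat_lit 2005) (nat_lit 138) (.e (nat_lit 671763) (nat_lit 5) .nil)))))) (.g (nat_lit 0) .nil .nil))))) (.nd (nat_lit 3) (.nd (nat_lit 4) 
(.lf (nat_lit 206150) (.g (nat_lit 690) (.e (nat_lit 73794) (nat_lit 46) (.e (nat_lit 57862) (nat_lit 256) (.e (nat_lit 317) (nat_lit 23) (.e (nat_lit 352287) (nat_lit 20) (.e (nat_lit 1998) (nat_lit 137) (.e (nat_lit 663568) (nat_lit 5) .nil)))))) (.g (nat_lit 0) .nil .nil))) 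
(.lf (nat_lit 206166) (.g (nat_lit 320) (.e (nat_lit 73795) (nat_lit 47) (.e (nat_lit 123163) (nat_lit 256) (.e (nat_lit 318) (nat_lit 23) (.e (nat_lit 352264) (nat_lit 0) (.e (nat_lit 3716) (nat_lit 227) (.e (nat_lit 778322) (nat_lit 5) .nil)))))) (.g (nat_lit 0) .nil .nil)))) (.nd (nat_lit 4) 
(.lf (nat_lit 206158) (.g (nat_lit 1777) (.e (nat_lit 73794) (nat_lit 46) (.e (nat_lit 57863) (nat_lit 256) (.e (nat_lit 317) (nat_lit 23) (.e (nat_lit 352318) (nat_lit 24) (.e (nat_lit 123184) (nat_lit 264) (.e (nat_lit 1212) (nat_lit 89) .nil)))))) (.g (nat_lit 6) .nil .nil))) 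
(.lf (nat_lit 206174) (.g (nat_lit 1923) (.e (nat_lit 73795) (nat_lit 47) (.e (nat_lit 123165) (nat_lit 256) (.e (nat_lit 318) (nat_lit 23) (.e (nat_lit 352267) (nat_lit 0) (.e (nat_lit 3632) (nat_lit 227) (.e (nat_lit 778324) (nat_lit 5) .nil)))))) (.g (nat_lit 0) .nil .nil))))))) (.nd (nat_lit 1) (.nd (nat_lit 2) (.nd (nat_lit 3) (.nd (nat_lit 4) 
(.lf (nat_lit 206145) (.g (nat_lit 530) (.e (nat_lit 81664) (nat_lit 45) (.e (nat_lit 1374) (nat_lit 104) (.e (nat_lit 303155) (nat_lit 29) .nil))) .nil)) 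
(.lf (nat_lit 206161) (.g (nat_lit 1055) (.e (nat_lit 73794) (nat_lit 46) (.e (nat_lit 57864) (nat_lit 256) (.e (nat_lit 317) (nat_lit 23) (.e (nat_lit 352287) (nat_lit 20) (.e (nat_lit 1999) (nat_lit 137) (.e (nat_lit 663568) (nat_lit 5) .nil)))))) (.g (nat_lit 0) .nil .nil)))) (.nd (nat_lit 4) 
(.lf (nat_lit 206153) (.g (nat_lit 1882) (.e (nat_lit 73794) (nat_lit 46) (.e (nat_lit 57862) (nat_lit 256) (.e (nat_lit 317) (nat_lit 23) (.e (nat_lit 352318) (nat_lit 24) (.e (nat_lit 123182) (nat_lit 264) (.e (nat_lit 1212) (nat_lit 89) .nil)))))) (.g (nat_lit 6) .nil .nil))) 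
(.lf (nat_lit 206169) (.g (nat_lit 1993) (.e (nat_lit 73795) (nat_lit 47) (.e (nat_lit 123163) (nat_lit 256) (.e (nat_lit 318) (nat_lit 23) (.e (nat_lit 352267) (nat_lit 0) (.e (nat_lit 3632) (nat_lit 227) (.e (nat_lit 778323) (nat_lit 5) .nil)))))) (.g (nat_lit 0) .nil .nil))))) (.nd (nat_lit 3) (.nd (nat_lit 4) 
(.lf (nat_lit 206149) (.g (nat_lit 2053) (.e (nat_lit 73794) (nat_lit 46) (.e (nat_lit 57862) (nat_lit 256) (.e (nat_lit 317) (nat_lit 23) (.e (nat_lit 352267) (nat_lit 0) (.e (nat_lit 3632) (nat_lit 227) (.e (nat_lit 778323) (nat_lit 5) .nil)))))) (.g (nat_lit 0) .nil .nil))) 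
(.lf (nat_lit 206165) (.g (nat_lit 571) (.e (nat_lit 73795) (nat_lit 47) (.e (nat_lit 123163) (nat_lit 256) (.e (nat_lit 318) (nat_lit 23) (.e (nat_lit 352264) (nat_lit 0) (.e (nat_lit 3711) (nat_lit 227) (.e (nat_lit 778322) (nat_lit 5) .nil)))))) (.g (nat_lit 0) .nil .nil)))) (.nd (nat_lit 4) 
(.lf (nat_lit 206157) (.g (nat_lit 1781) (.e (nat_lit 73794) (nat_lit 46) (.e (nat_lit 57863) (nat_lit 256) (.e (nat_lit 317) (nat_lit 23) (.e (nat_lit 352318) (nat_lit 24) (.e (nat_lit 123183) (nat_lit 264) (.e (nat_lit 1212) (nat_lit 89) .nil)))))) (.g (nat_lit 6) .nil .nil))) 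
(.lf (nat_lit 206173) (.g (nat_lit 201) (.e (nat_lit 73795) (nat_lit 47) (.e (nat_lit 123165) (nat_lit 256) (.e (nat_lit 311) (nat_lit 23) (.e (nat_lit 352270) (nat_lit 8) (.e (nat_lit 270080) (nat_lit 5) .nil))))) (.g (nat_lit 4) .nil .nil)))))) (.nd (nat_lit 2) (.nd (nat_lit 3) (.nd (nat_lit 4) 
(.lf (nat_lit 206147) (.g (nat_lit 375) (.e (nat_lit 73794) (nat_lit 46) (.e (nat_lit 57862) (nat_lit 256) (.e (nat_lit 317) (nat_lit 23) (.e (nat_lit 352264) (nat_lit 0) (.e (nat_lit 3716) (nat_lit 227) (.e (nat_lit 778322) (nat_lit 5) .nil)))))) (.g (nat_lit 0) .nil .nil))) 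
(.lf (nat_lit 206163) (.g (nat_lit 1789) (.e (nat_lit 73794) (nat_lit 46) (.e (nat_lit 57864) (nat_lit 256) (.e (nat_lit 317) (nat_lit 23) (.e (nat_lit 352318) (nat_lit 24) (.e (nat_lit 123183) (nat_lit 264) (.e (nat_lit 1212) (nat_lit 89) .nil)))))) (.g (nat_lit 6) .nil .nil)))) (.nd (nat_lit 4) 
(.lf (nat_lit 206155) (.g (nat_lit 1783) (.e (nat_lit 73794) (nat_lit 46) (.e (nat_lit 57862) (nat_lit 256) (.e (nat_lit 317) (nat_lit 23) (.e (nat_lit 352318) (nat_lit 24) (.e (nat_lit 123184) (nat_lit 264) (.e (nat_lit 1212) (nat_lit 89) .nil)))))) (.g (nat_lit 6) .nil .nil))) 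
(.lf (nat_lit 206171) (.g (nat_lit 2173) (.e (nat_lit 73795) (nat_lit 47) (.e (nat_lit 123163) (nat_lit 256) (.e (nat_lit 318) (nat_lit 23) (.e (nat_lit 352307) (nat_lit 21) (.e (nat_lit 57873) (nat_lit 264) (.e (nat_lit 1209) (nat_lit 89) .nil)))))) (.g (nat_lit 0) .nil .nil))))) (.nd (nat_lit 3) (.nd (nat_lit 4) 
(.lf (nat_lit 206151) (.g (nat_lit 1049) (.e (nat_lit 73794) (nat_lit 46) (.e (nat_lit 57862) (nat_lit 256) (.e (nat_lit 317) (nat_lit 23) (.e (nat_lit 352287) (nat_lit 20) (.e (nat_lit 1999) (nat_lit 137) (.e (nat_lit 663568) (nat_lit 5) .nil)))))) (.g (nat_lit 0) .nil .nil))) 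
(.lf (nat_lit 206167) (.g (nat_lit 970) (.e (nat_lit 73795) (nat_lit 47) (.e (nat_lit 123163) (nat_lit 256) (.e (nat_lit 318) (nat_lit 23) (.e (nat_lit 352267) (nat_lit 0) (.e (nat_lit 3629) (nat_lit 227) (.e (nat_lit 778323) (nat_lit 5) .nil)))))) (.g (nat_lit 0) .nil .nil)))) (.nd (nat_lit 4) 
(.lf (nat_lit 206159) (.g (nat_lit 2054) (.e (nat_lit 73794) (nat_lit 46) (.e (nat_lit 57864) (nat_lit 256) (.e (nat_lit 317) (nat_lit 23) (.e (nat_lit 352267) (nat_lit 0) (.e (nat_lit 3632) (nat_lit 227) (.e (nat_lit 778323) (nat_lit 5) .nil)))))) (.g (nat_lit 0) .nil .nil))) 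
(.lf (nat_lit 206175) (.g (nat_lit 685) (.e (nat_lit 73795) (nat_lit 47) (.e (nat_lit 123165) (nat_lit 256) (.e (nat_lit 318) (nat_lit 23) (.e (nat_lit 352287) (nat_lit 20) (.e (nat_lit 1998) (nat_lit 137) (.e (nat_lit 663568) (nat_lit 5) .nil)))))) (.g (nat_lit 0) .nil .nil))))))))

noncomputable def tv2720 : DT := (.nd (nat_lit 0) (.nd (nat_lit 1) (.nd (nat_lit 2) (.nd (nat_lit 3) (.nd (nat_lit 4) 
(.lf (nat_lit 206176) (.g (nat_lit 1053) (.e (nat_lit 73795) (nat_lit 47) (.e (nat_lit 123165) (nat_lit 256) (.e (nat_lit 318) (nat_lit 23) (.e (nat_lit 352287) (nat_lit 20) (.e (nat_lit 1999) (nat_lit 137) (.e (nat_lit 663568) (nat_lit 5) .nil)))))) (.g (nat_lit 0) .nil .nil))) 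
(.lf (nat_lit 206192) (.g (nat_lit 639) (.e (nat_lit 81920) (nat_lit 0) (.e (nat_lit 3715) (nat_lit 227) (.e (nat_lit 778325) (nat_lit 6) (.e (nat_lit 81921) (nat_lit 0) (.e (nat_lit 3714) (nat_lit 227) (.e (nat_lit 786176) (nat_lit 6) .nil)))))) (.g (nat_lit 5) .nil .nil)))) (.nd (nat_lit 4) 
(.lf (nat_lit 206184) (.g (nat_lit 2061) (.e (nat_lit 73795) (nat_lit 47) (.e (nat_lit 123166) (nat_lit 256) (.e (nat_lit 318) (nat_lit 23) (.e (nat_lit 352267) (nat_lit 0) (.e (nat_lit 3632) (nat_lit 227) (.e (nat_lit 778323) (nat_lit 5) .nil)))))) (.g (nat_lit 0) .nil .nil))) 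
(.lf (nat_lit 206200) (.g (nat_lit 2388) (.e (nat_lit 81920) (nat_lit 0) (.e (nat_lit 3715) (nat_lit 227) (.e (nat_lit 778325) (nat_lit 6) (.e (nat_lit 81957) (nat_lit 24) (.e (nat_lit 123184) (nat_lit 264) (.e (nat_lit 1224) (nat_lit 90) .nil)))))) (.g (nat_lit 6) .nil .nil))))) (.nd (nat_lit 3) (.nd (nat_lit 4) 
(.lf (nat_lit 206180) (.g (nat_lit 250) (.e (nat_lit 73795) (nat_lit 47) (.e (nat_lit 123166) (nat_lit 256) (.e (nat_lit 311) (nat_lit 23) (.e (nat_lit 352270) (nat_lit 8) (.e (nat_lit 270080) (nat_lit 5) .nil))))) (.g (nat_lit 4) .nil .nil))) 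
(.lf (nat_lit 206196) (.g (nat_lit 1415) (.e (nat_lit 81920) (nat_lit 0) (.e (nat_lit 3715) (nat_lit 227) (.e (nat_lit 778325) (nat_lit 6) (.e (nat_lit 81946) (nat_lit 20) (.e (nat_lit 2006) (nat_lit 138) (.e (nat_lit 671764) (nat_lit 6) .nil)))))) (.g (nat_lit 6) .nil .nil)))) (.nd (nat_lit 4) 
(.lf (nat_lit 206188) (.g (nat_lit 229) (.e (nat_lit 81920) (nat_lit 0) (.e (nat_lit 3714) (nat_lit 227) (.e (nat_lit 778325) (nat_lit 6) .nil))) .nil)) 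
(.lf (nat_lit 206204) (.g (nat_lit 549) (.e (nat_lit 81921) (nat_lit 0) (.e (nat_lit 3711) (nat_lit 227) (.e (nat_lit 778247) (nat_lit 0) (.e (nat_lit 1574) (nat_lit 110) (.e (nat_lit 360192) (nat_lit 4) .nil))))) .nil))))) (.nd (nat_lit 2) (.nd (nat_lit 3) (.nd (nat_lit 4) 
(.lf (nat_lit 206178) (.g (nat_lit 1269) (.e (nat_lit 73795) (nat_lit 47) (.e (nat_lit 123165) (nat_lit 256) (.e (nat_lit 318) (nat_lit 23) (.e (nat_lit 352316) (nat_lit 24) (.e (nat_lit 123185) (nat_lit 264) (.e (nat_lit 1214) (nat_lit 89) .nil)))))) (.g (nat_lit 0) .nil .nil))) 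
(.lf (nat_lit 206194) (.g (nat_lit 1251) (.e (nat_lit 81920) (nat_lit 0) (.e (nat_lit 3715) (nat_lit 227) (.e (nat_lit 778325) (nat_lit 6) (.e (nat_lit 81943) (nat_lit 20) (.e (nat_lit 2006) (nat_lit 138) (.e (nat_lit 671764) (nat_lit 6) .nil)))))) (.g (nat_lit 6) .nil .nil)))) (.nd (nat_lit 4) 
(.lf (nat_lit 206186) (.g (nat_lit 645) (.e (nat_lit 73795) (nat_lit 47) (.e (nat_lit 123166) (nat_lit 256) (.e (nat_lit 318) (nat_lit 23) (.e (nat_lit 352297) (nat_lit 20) (.e (nat_lit 2005) (nat_lit 138) (.e (nat_lit 671763) (nat_lit 5) .nil)))))) (.g (nat_lit 0) .nil .nil))) 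
(.lf (nat_lit 206202) (.g (nat_lit 3377) (.e (nat_lit 81920) (nat_lit 0) (.e (nat_lit 3715) (nat_lit 227) (.e (nat_lit 778325) (nat_lit 6) (.e (nat_lit 81959) (nat_lit 24) (.e (nat_lit 123182) (nat_lit 264) (.e (nat_lit 1224) (nat_lit 90) .nil)))))) (.g (nat_lit 6) .nil .nil))))) (.nd (nat_lit 3) (.nd (nat_lit 4) 
(.lf (nat_lit 206182) (.g (nat_lit 650) (.e (nat_lit 73795) (nat_lit 47) (.e (nat_lit 123166) (nat_lit 256) (.e (nat_lit 318) (nat_lit 23) (.e (nat_lit 352264) (nat_lit 0) (.e (nat_lit 3715) (nat_lit 227) (.e (nat_lit 778322) (nat_lit 5) .nil)))))) (.g (nat_lit 0) .nil .nil))) 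
(.lf (nat_lit 206198) (.g (nat_lit 2135) (.e (nat_lit 81920) (nat_lit 0) (.e (nat_lit 3715) (nat_lit 227) (.e (nat_lit 778325) (nat_lit 6) (.e (nat_lit 81948) (nat_lit 21) (.e (nat_lit 57873) (nat_lit 264) (.e (nat_lit 1219) (nat_lit 90) .nil)))))) (.g (nat_lit 0) .nil .nil)))) (.nd (nat_lit 4) 
(.lf (nat_lit 206190) (.g (nat_lit 396) (.e (nat_lit 81920) (nat_lit 0) (.e (nat_lit 3715) (nat_lit 227) (.e (nat_lit 778325) (nat_lit 6) (.e (nat_lit 81920) (nat_lit 0) .nil)))) .nil)) 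
(.lf (nat_lit 206206) (.g (nat_lit 666) (.e (nat_lit 81921) (nat_lit 0) (.e (nat_lit 3711) (nat_lit 227) (.e (nat_lit 778325) (nat_lit 6) (.e (nat_lit 81921) (nat_lit 0) (.e (nat_lit 3716) (nat_lit 227) (.e (nat_lit 778325) (nat_lit 6) .nil)))))) (.g (nat_lit 0) .nil .nil))))))) (.nd (nat_lit 1) (.nd (nat_lit 2) (.nd (nat_lit 3) (.nd (nat_lit 4) 
(.lf (nat_lit 206177) (.g (nat_lit 627) (.e (nat_lit 73795) (nat_lit 47) (.e (nat_lit 123165) (nat_lit 256) (.e (nat_lit 318) (nat_lit 23) (.e (nat_lit 352297) (nat_lit 20) (.e (nat_lit 2005) (nat_lit 138) (.e (nat_lit 671763) (nat_lit 5) .nil)))))) (.g (nat_lit 0) .nil .nil))) 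
(.lf (nat_lit 206193) (.g (nat_lit 1140) (.e (nat_lit 81920) (nat_lit 0) (.e (nat_lit 3715) (nat_lit 227) (.e (nat_lit 778325) (nat_lit 6) (.e (nat_lit 81943) (nat_lit 20) (.e (nat_lit 2004) (nat_lit 138) (.e (nat_lit 671764) (nat_lit 6) .nil)))))) (.g (nat_lit 6) .nil .nil)))) (.nd (nat_lit 4) 
(.lf (nat_lit 206185) (.g (nat_lit 1938) (.e (nat_lit 73795) (nat_lit 47) (.e (nat_lit 123166) (nat_lit 256) (.e (nat_lit 318) (nat_lit 23) (.e (nat_lit 352267) (nat_lit 0) (.e (nat_lit 3632) (nat_lit 227) (.e (nat_lit 778324) (nat_lit 5) .nil)))))) (.g (nat_lit 0) .nil .nil))) 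
(.lf (nat_lit 206201) (.g (nat_lit 1016) (.e (nat_lit 81920) (nat_lit 0) (.e (nat_lit 3715) (nat_lit 227) (.e (nat_lit 778325) (nat_lit 6) (.e (nat_lit 81957) (nat_lit 24) (.e (nat_lit 123185) (nat_lit 264) .nil))))) .nil)))) (.nd (nat_lit 3) (.nd (nat_lit 4) 
(.lf (nat_lit 206181) (.g (nat_lit 640) (.e (nat_lit 73795) (nat_lit 47) (.e (nat_lit 123166) (nat_lit 256) (.e (nat_lit 318) (nat_lit 23) (.e (nat_lit 352264) (nat_lit 0) (.e (nat_lit 3711) (nat_lit 227) (.e (nat_lit 778322) (nat_lit 5) .nil)))))) (.g (nat_lit 0) .nil .nil))) 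
(.lf (nat_lit 206197) (.g (nat_lit 1514) (.e (nat_lit 81920) (nat_lit 0) (.e (nat_lit 3715) (nat_lit 227) (.e (nat_lit 778325) (nat_lit 6) (.e (nat_lit 81948) (nat_lit 21) (.e (nat_lit 57871) (nat_lit 264) (.e (nat_lit 1219) (nat_lit 90) .nil)))))) (.g (nat_lit 6) .nil .nil)))) (.nd (nat_lit 4) 
(.lf (nat_lit 206189) (.g (nat_lit 226) (.e (nat_lit 81920) (nat_lit 0) (.e (nat_lit 3715) (nat_lit 227) (.e (nat_lit 778325) (nat_lit 6) .nil))) .nil)) 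
(.lf (nat_lit 206205) (.g (nat_lit 284) (.e (nat_lit 81921) (nat_lit 0) (.e (nat_lit 3711) (nat_lit 227) (.e (nat_lit 778249) (nat_lit 0) .nil))) .nil))))) (.nd (nat_lit 2) (.nd (nat_lit 3) (.nd (nat_lit 4) 
(.lf (nat_lit 206179) (.g (nat_lit 2081) (.e (nat_lit 73795) (nat_lit 47) (.e (nat_lit 123166) (nat_lit 256) (.e (nat_lit 311) (nat_lit 23) (.e (nat_lit 352262) (nat_lit 0) (.e (nat_lit 3632) (nat_lit 227) (.e (nat_lit 778324) (nat_lit 5) .nil)))))) (.g (nat_lit 0) .nil .nil))) 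
(.lf (nat_lit 206195) (.g (nat_lit 1492) (.e (nat_lit 81920) (nat_lit 0) (.e (nat_lit 3715) (nat_lit 227) (.e (nat_lit 778325) (nat_lit 6) (.e (nat_lit 81946) (nat_lit 20) (.e (nat_lit 2005) (nat_lit 138) (.e (nat_lit 671764) (nat_lit 6) .nil)))))) (.g (nat_lit 6) .nil .nil)))) (.nd (nat_lit 4) 
(.lf (nat_lit 206187) (.g (nat_lit 300) (.e (nat_lit 81920) (nat_lit 0) (.e (nat_lit 3714) (nat_lit 227) (.e (nat_lit 778247) (nat_lit 0) .nil))) .nil)) 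
(.lf (nat_lit 206203) (.g (nat_lit 296) (.e (nat_lit 81920) (nat_lit 0) (.e (nat_lit 6988) (nat_lit 377) (.e (nat_lit 7936) (nat_lit 102) .nil))) .nil)))) (.nd (nat_lit 3) (.nd (nat_lit 4) 
(.lf (nat_lit 206183) (.g (nat_lit 386) (.e (nat_lit 73795) (nat_lit 47) (.e (nat_lit 123166) (nat_lit 256) (.e (nat_lit 318) (nat_lit 23) (.e (nat_lit 352264) (nat_lit 0) (.e (nat_lit 3716) (nat_lit 227) (.e (nat_lit 778322) (nat_lit 5) .nil)))))) (.g (nat_lit 0) .nil .nil))) 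
(.lf (nat_lit 206199) (.g (nat_lit 2602) (.e (nat_lit 81920) (nat_lit 0) (.e (nat_lit 3715) (nat_lit 227) (.e (nat_lit 778325) (nat_lit 6) (.e (nat_lit 81950) (nat_lit 21) (.e (nat_lit 57872) (nat_lit 264) (.e (nat_lit 1219) (nat_lit 90) .nil)))))) (.g (nat_lit 6) .nil .nil)))) (.nd (nat_lit 4) 
(.lf (nat_lit 206191) (.g (nat_lit 362) (.e (nat_lit 81920) (nat_lit 0) (.e (nat_lit 3715) (nat_lit 227) (.e (nat_lit 778325) (nat_lit 6) (.e (nat_lit 81921) (nat_lit 0) .nil)))) .nil)) 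
(.lf (nat_lit 206207) (.g (nat_lit 1327) (.e (nat_lit 81921) (nat_lit 0) (.e (nat_lit 3711) (nat_lit 227) (.e (nat_lit 778325) (nat_lit 6) (.e (nat_lit 81922) (nat_lit 0) (.e (nat_lit 3631) (nat_lit 227) (.e (nat_lit 778326) (nat_lit 6) .nil)))))) (.g (nat_lit 6) .nil .nil))))))))

noncomputable def tv2721 : DT := (.nd (nat_lit 0) (.nd (nat_lit 1) (.nd (nat_lit 2) (.nd (nat_lit 3) (.nd (nat_lit 4) (.nd (nat_lit 5) 
(.lf (nat_lit 206208) (.g (nat_lit 1447) (.e (nat_lit 81921) (nat_lit 0) (.e (nat_lit 3711) (nat_lit 227) (.e (nat_lit 778325) (nat_lit 6) (.e (nat_lit 81935) (nat_lit 20) (.e (nat_lit 1999) (nat_lit 137) (.e (nat_lit 663569) (nat_lit 6) .nil)))))) (.g (nat_lit 0) .nil .nil))) 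
(.lf (nat_lit 206240) (.g (nat_lit 667) (.e (nat_lit 81922) (nat_lit 0) (.e (nat_lit 3253) (nat_lit 197) (.e (nat_lit 532483) (nat_lit 0) .nil))) .nil))) (.nd (nat_lit 5) 
(.lf (nat_lit 206224) (.g (nat_lit 1448) (.e (nat_lit 81921) (nat_lit 0) (.e (nat_lit 3715) (nat_lit 227) (.e (nat_lit 778325) (nat_lit 6) (.e (nat_lit 81946) (nat_lit 20) (.e (nat_lit 2005) (nat_lit 138) (.e (nat_lit 671764) (nat_lit 6) .nil)))))) (.g (nat_lit 6) .nil .nil))) 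
(.lf (nat_lit 206256) (.g (nat_lit 3102) (.e (nat_lit 81922) (nat_lit 0) (.e (nat_lit 3305) (nat_lit 202) (.e (nat_lit 573491) (nat_lit 15) (.e (nat_lit 81946) (nat_lit 20) (.e (nat_lit 1842) (nat_lit 123) (.e (nat_lit 548891) (nat_lit 11) .nil)))))) (.g (nat_lit 0) .nil .nil))))) (.nd (nat_lit 4) (.nd (nat_lit 5) 
(.lf (nat_lit 206216) (.g (nat_lit 525) (.e (nat_lit 81921) (nat_lit 0) (.e (nat_lit 3714) (nat_lit 227) (.e (nat_lit 778247) (nat_lit 0) (.e (nat_lit 1574) (nat_lit 110) (.e (nat_lit 360192) (nat_lit 4) .nil))))) .nil)) 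
(.lf (nat_lit 206248) (.g (nat_lit 2019) (.e (nat_lit 81922) (nat_lit 0) (.e (nat_lit 3305) (nat_lit 202) (.e (nat_lit 573487) (nat_lit 14) (.e (nat_lit 73791) (nat_lit 45) (.e (nat_lit 1140) (nat_lit 84) (.e (nat_lit 32789) (nat_lit 11) .nil)))))) (.g (nat_lit 0) .nil .nil)))) (.nd (nat_lit 5) 
(.lf (nat_lit 206232) (.g (nat_lit 1967) (.e (nat_lit 81921) (nat_lit 0) (.e (nat_lit 3716) (nat_lit 227) (.e (nat_lit 778325) (nat_lit 6) (.e (nat_lit 81950) (nat_lit 21) (.e (nat_lit 57873) (nat_lit 264) (.e (nat_lit 1219) (nat_lit 90) .nil)))))) (.g (nat_lit 6) .nil .nil))) 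
(.lf (nat_lit 206264) (.g (nat_lit 243) (.e (nat_lit 81922) (nat_lit 0) (.e (nat_lit 3630) (nat_lit 227) (.e (nat_lit 778327) (nat_lit 6) (.e (nat_lit 89856) (nat_lit 8) .nil)))) .nil))))) (.nd (nat_lit 3) (.nd (nat_lit 4) (.nd (nat_lit 5) 
(.lf (nat_lit 206212) (.g (nat_lit 1329) (.e (nat_lit 81921) (nat_lit 0) (.e (nat_lit 3711) (nat_lit 227) (.e (nat_lit 778325) (nat_lit 6) (.e (nat_lit 81946) (nat_lit 20) (.e (nat_lit 2006) (nat_lit 138) (.e (nat_lit 671764) (nat_lit 6) .nil)))))) (.g (nat_lit 6) .nil .nil))) 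
(.lf (nat_lit 206244) (.g (nat_lit 861) (.e (nat_lit 81922) (nat_lit 0) (.e (nat_lit 3305) (nat_lit 202) (.e (nat_lit 573456) (nat_lit 9) (.e (nat_lit 1444) (nat_lit 108) .nil)))) .nil))) (.nd (nat_lit 5) 
(.lf (nat_lit 206228) (.g (nat_lit 1206) (.e (nat_lit 81921) (nat_lit 0) (.e (nat_lit 3716) (nat_lit 227) (.e (nat_lit 778325) (nat_lit 6) (.e (nat_lit 81935) (nat_lit 20) (.e (nat_lit 1999) (nat_lit 137) (.e (nat_lit 663569) (nat_lit 6) .nil)))))) (.g (nat_lit 0) .nil .nil))) 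
(.lf (nat_lit 206260) (.g (nat_lit 1285) (.e (nat_lit 81922) (nat_lit 0) (.e (nat_lit 3630) (nat_lit 227) (.e (nat_lit 778326) (nat_lit 6) (.e (nat_lit 81938) (nat_lit 20) (.e (nat_lit 2006) (nat_lit 138) (.e (nat_lit 671764) (nat_lit 6) .nil)))))) (.g (nat_lit 5) .nil .nil))))) (.nd (nat_lit 4) (.nd (nat_lit 5) 
(.lf (nat_lit 206220) (.g (nat_lit 2442) (.e (nat_lit 81921) (nat_lit 0) (.e (nat_lit 3714) (nat_lit 227) (.e (nat_lit 778325) (nat_lit 6) (.e (nat_lit 81950) (nat_lit 21) (.e (nat_lit 57872) (nat_lit 264) (.e (nat_lit 1219) (nat_lit 90) .nil)))))) (.g (nat_lit 6) .nil .nil))) 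
(.lf (nat_lit 206252) (.g (nat_lit 1380) (.e (nat_lit 81922) (nat_lit 0) (.e (nat_lit 3305) (nat_lit 202) (.e (nat_lit 573488) (nat_lit 14) (.e (nat_lit 73781) (nat_lit 32) .nil)))) .nil))) (.nd (nat_lit 5) 
(.lf (nat_lit 206236) (.g (nat_lit 401) (.e (nat_lit 81921) (nat_lit 0) (.e (nat_lit 7089) (nat_lit 379) (.e (nat_lit 123214) (nat_lit 275) (.e (nat_lit 73772) (nat_lit 24) (.e (nat_lit 769792) (nat_lit 10) .nil))))) (.g (nat_lit 4) .nil .nil))) 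
(.lf (nat_lit 206268) (.g (nat_lit 412) (.e (nat_lit 81922) (nat_lit 0) (.e (nat_lit 3631) (nat_lit 227) (.e (nat_lit 778326) (nat_lit 6) .nil))) .nil)))))) (.nd (nat_lit 2) (.nd (nat_lit 3) (.nd (nat_lit 4) (.nd (nat_lit 5) 
(.lf (nat_lit 206210) (.g (nat_lit 1131) (.e (nat_lit 81921) (nat_lit 0) (.e (nat_lit 3711) (nat_lit 227) (.e (nat_lit 778325) (nat_lit 6) (.e (nat_lit 81943) (nat_lit 20) (.e (nat_lit 2005) (nat_lit 138) (.e (nat_lit 671764) (nat_lit 6) .nil)))))) (.g (nat_lit 0) .nil .nil))) 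
(.lf (nat_lit 206242) (.g (nat_lit 602) (.e (nat_lit 81922) (nat_lit 0) (.e (nat_lit 3253) (nat_lit 197) (.e (nat_lit 540416) (nat_lit 2) .nil))) .nil))) (.nd (nat_lit 5) 
(.lf (nat_lit 206226) (.g (nat_lit 2203) (.e (nat_lit 81921) (nat_lit 0) (.e (nat_lit 3715) (nat_lit 227) (.e (nat_lit 778325) (nat_lit 6) (.e (nat_lit 81950) (nat_lit 21) (.e (nat_lit 57873) (nat_lit 264) (.e (nat_lit 1219) (nat_lit 90) .nil)))))) (.g (nat_lit 6) .nil .nil))) 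
(.lf (nat_lit 206258) (.g (nat_lit 2939) (.e (nat_lit 81922) (nat_lit 0) (.e (nat_lit 3305) (nat_lit 202) (.e (nat_lit 573493) (nat_lit 15) (.e (nat_lit 81959) (nat_lit 24) (.e (nat_lit 130816) (nat_lit 140) (.e (nat_lit 1217) (nat_lit 90) .nil)))))) (.g (nat_lit 4) .nil .nil))))) (.nd (nat_lit 4) (.nd (nat_lit 5) 
(.lf (nat_lit 206218) (.g (nat_lit 1347) (.e (nat_lit 81921) (nat_lit 0) (.e (nat_lit 3714) (nat_lit 227) (.e (nat_lit 778325) (nat_lit 6) (.e (nat_lit 81946) (nat_lit 20) (.e (nat_lit 2005) (nat_lit 138) (.e (nat_lit 671764) (nat_lit 6) .nil)))))) (.g (nat_lit 6) .nil .nil))) 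
(.lf (nat_lit 206250) (.g (nat_lit 2403) (.e (nat_lit 81922) (nat_lit 0) (.e (nat_lit 3305) (nat_lit 202) (.e (nat_lit 573487) (nat_lit 14) (.e (nat_lit 73792) (nat_lit 45) (.e (nat_lit 1140) (nat_lit 84) (.e (nat_lit 32789) (nat_lit 11) .nil)))))) (.g (nat_lit 6) .nil .nil)))) (.nd (nat_lit 5) 
(.lf (nat_lit 206234) (.g (nat_lit 396) (.e (nat_lit 81921) (nat_lit 0) (.e (nat_lit 7088) (nat_lit 379) (.e (nat_lit 123214) (nat_lit 275) (.e (nat_lit 73772) (nat_lit 24) (.e (nat_lit 769792) (nat_lit 10) .nil))))) (.g (nat_lit 4) .nil .nil))) 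
(.lf (nat_lit 206266) (.g (nat_lit 2605) (.e (nat_lit 81922) (nat_lit 0) (.e (nat_lit 3631) (nat_lit 227) (.e (nat_lit 778320) (nat_lit 4) (.e (nat_lit 65623) (nat_lit 12) (.e (nat_lit 385094) (nat_lit 49) (.e (nat_lit 778327) (nat_lit 6) .nil)))))) (.g (nat_lit 6) .nil .nil)))))) (.nd (nat_lit 3) (.nd (nat_lit 4) (.nd (nat_lit 5) 
(.lf (nat_lit 206214) (.g (nat_lit 2217) (.e (nat_lit 81921) (nat_lit 0) (.e (nat_lit 3711) (nat_lit 227) (.e (nat_lit 778325) (nat_lit 6) (.e (nat_lit 81950) (nat_lit 21) (.e (nat_lit 57873) (nat_lit 264) (.e (nat_lit 1219) (nat_lit 90) .nil)))))) (.g (nat_lit 6) .nil .nil))) 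
(.lf (nat_lit 206246) (.g (nat_lit 1933) (.e (nat_lit 81922) (nat_lit 0) (.e (nat_lit 3305) (nat_lit 202) (.e (nat_lit 573482) (nat_lit 13) (.e (nat_lit 65619) (nat_lit 10) (.e (nat_lit 344126) (nat_lit 25) .nil))))) .nil))) (.nd (nat_lit 5) 
(.lf (nat_lit 206230) (.g (nat_lit 1071) (.e (nat_lit 81921) (nat_lit 0) (.e (nat_lit 3716) (nat_lit 227) (.e (nat_lit 778325) (nat_lit 6) (.e (nat_lit 81946) (nat_lit 20) (.e (nat_lit 2006) (nat_lit 138) (.e (nat_lit 671764) (nat_lit 6) .nil)))))) (.g (nat_lit 0) .nil .nil))) 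
(.lf (nat_lit 206262) (.g (nat_lit 2044) (.e (nat_lit 81922) (nat_lit 0) (.e (nat_lit 3630) (nat_lit 227) (.e (nat_lit 778326) (nat_lit 6) (.e (nat_lit 81948) (nat_lit 21) (.e (nat_lit 57873) (nat_lit 264) (.e (nat_lit 1219) (nat_lit 90) .nil)))))) (.g (nat_lit 0) .nil .nil))))) (.nd (nat_lit 4) (.nd (nat_lit 5) 
(.lf (nat_lit 206222) (.g (nat_lit 157) (.e (nat_lit 81921) (nat_lit 0) (.e (nat_lit 3714) (nat_lit 227) (.e (nat_lit 786176) (nat_lit 6) .nil))) .nil)) 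
(.lf (nat_lit 206254) (.g (nat_lit 1185) (.e (nat_lit 81922) (nat_lit 0) (.e (nat_lit 3305) (nat_lit 202) (.e (nat_lit 573489) (nat_lit 14) (.e (nat_lit 81664) (nat_lit 35) .nil)))) .nil))) (.nd (nat_lit 5) 
(.lf (nat_lit 206238) (.g (nat_lit 834) (.e (nat_lit 81922) (nat_lit 0) (.e (nat_lit 3234) (nat_lit 197) (.e (nat_lit 532508) (nat_lit 2) (.e (nat_lit 106534) (nat_lit 11) (.e (nat_lit 16412) (nat_lit 2) .nil))))) .nil)) 
(.lf (nat_lit 206270) (.g (nat_lit 1881) (.e (nat_lit 81922) (nat_lit 0) (.e (nat_lit 3631) (nat_lit 227) (.e (nat_lit 778326) (nat_lit 6) (.e (nat_lit 81935) (nat_lit 20) (.e (nat_lit 1998) (nat_lit 137) (.e (nat_lit 663569) (nat_lit 6) .nil)))))) (.g (nat_lit 0) .nil .nil)))))))) (.nd (nat_lit 1) (.nd (nat_lit 2) (.nd (nat_lit 3) (.nd (nat_lit 4) (.nd (nat_lit 5) 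
(.lf (nat_lit 206209) (.g (nat_lit 1125) (.e (nat_lit 81921) (nat_lit 0) (.e (nat_lit 3711) (nat_lit 227) (.e (nat_lit 778325) (nat_lit 6) (.e (nat_lit 81943) (nat_lit 20) (.e (nat_lit 2003) (nat_lit 138) (.e (nat_lit 671764) (nat_lit 6) .nil)))))) (.g (nat_lit 0) .nil .nil))) 
(.lf (nat_lit 206241) (.g (nat_lit 667) (.e (nat_lit 81922) (nat_lit 0) (.e (nat_lit 3253) (nat_lit 197) (.e (nat_lit 532507) (nat_lit 2) .nil))) .nil))) (.nd (nat_lit 5) 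
(.lf (nat_lit 206225) (.g (nat_lit 1342) (.e (nat_lit 81921) (nat_lit 0) (.e (nat_lit 3715) (nat_lit 227) (.e (nat_lit 778325) (nat_lit 6) (.e (nat_lit 81946) (nat_lit 20) (.e (nat_lit 2006) (nat_lit 138) (.e (nat_lit 671764) (nat_lit 6) .nil)))))) (.g (nat_lit 6) .nil .nil))) 
(.lf (nat_lit 206257) (.g (nat_lit 2246) (.e (nat_lit 81922) (nat_lit 0) (.e (nat_lit 3305) (nat_lit 202) (.e (nat_lit 573491) (nat_lit 15) (.e (nat_lit 81957) (nat_lit 24) (.e (nat_lit 130816) (nat_lit 140) .nil))))) .nil)))) (.nd (nat_lit 4) (.nd (nat_lit 5) 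
(.lf (nat_lit 206217) (.g (nat_lit 1225) (.e (nat_lit 81921) (nat_lit 0) (.e (nat_lit 3714) (nat_lit 227) (.e (nat_lit 778325) (nat_lit 6) (.e (nat_lit 81922) (nat_lit 0) (.e (nat_lit 3631) (nat_lit 227) (.e (nat_lit 778326) (nat_lit 6) .nil)))))) (.g (nat_lit 6) .nil .nil))) 
(.lf (nat_lit 206249) (.g (nat_lit 2096) (.e (nat_lit 81922) (nat_lit 0) (.e (nat_lit 3305) (nat_lit 202) (.e (nat_lit 573487) (nat_lit 14) (.e (nat_lit 73791) (nat_lit 45) (.e (nat_lit 1141) (nat_lit 84) (.e (nat_lit 32789) (nat_lit 11) .nil)))))) (.g (nat_lit 0) .nil .nil)))) (.nd (nat_lit 5) 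
(.lf (nat_lit 206233) (.g (nat_lit 1053) (.e (nat_lit 81921) (nat_lit 0) (.e (nat_lit 7088) (nat_lit 379) (.e (nat_lit 123214) (nat_lit 275) (.e (nat_lit 73729) (nat_lit 0) (.e (nat_lit 7119) (nat_lit 382) (.e (nat_lit 7936) (nat_lit 90) .nil)))))) (.g (nat_lit 5) .nil .nil))) 
(.lf (nat_lit 206265) (.g (nat_lit 826) (.e (nat_lit 81922) (nat_lit 0) (.e (nat_lit 3631) (nat_lit 227) (.e (nat_lit 778241) (nat_lit 0) .nil))) .nil))))) (.nd (nat_lit 3) (.nd (nat_lit 4) (.nd (nat_lit 5) 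
(.lf (nat_lit 206213) (.g (nat_lit 2544) (.e (nat_lit 81921) (nat_lit 0) (.e (nat_lit 3711) (nat_lit 227) (.e (nat_lit 778325) (nat_lit 6) (.e (nat_lit 81950) (nat_lit 21) (.e (nat_lit 57872) (nat_lit 264) (.e (nat_lit 1219) (nat_lit 90) .nil)))))) (.g (nat_lit 6) .nil .nil))) 
(.lf (nat_lit 206245) (.g (nat_lit 538) (.e (nat_lit 81922) (nat_lit 0) (.e (nat_lit 3305) (nat_lit 202) (.e (nat_lit 573457) (nat_lit 9) .nil))) .nil))) (.nd (nat_lit 5) 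
(.lf (nat_lit 206229) (.g (nat_lit 893) (.e (nat_lit 81921) (nat_lit 0) (.e (nat_lit 3716) (nat_lit 227) (.e (nat_lit 778325) (nat_lit 6) (.e (nat_lit 81943) (nat_lit 20) (.e (nat_lit 2006) (nat_lit 138) (.e (nat_lit 671764) (nat_lit 6) .nil)))))) (.g (nat_lit 0) .nil .nil))) 
(.lf (nat_lit 206261) (.g (nat_lit 1316) (.e (nat_lit 81922) (nat_lit 0) (.e (nat_lit 3630) (nat_lit 227) (.e (nat_lit 778326) (nat_lit 6) (.e (nat_lit 81943) (nat_lit 20) (.e (nat_lit 2006) (nat_lit 138) (.e (nat_lit 671764) (nat_lit 6) .nil)))))) (.g (nat_lit 6) .nil .nil))))) (.nd (nat_lit 4) (.nd (nat_lit 5) 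
(.lf (nat_lit 206221) (.g (nat_lit 2121) (.e (nat_lit 81921) (nat_lit 0) (.e (nat_lit 3714) (nat_lit 227) (.e (nat_lit 778325) (nat_lit 6) (.e (nat_lit 81950) (nat_lit 21) (.e (nat_lit 57873) (nat_lit 264) (.e (nat_lit 1219) (nat_lit 90) .nil)))))) (.g (nat_lit 6) .nil .nil))) 
(.lf (nat_lit 206253) (.g (nat_lit 1920) (.e (nat_lit 81922) (nat_lit 0) (.e (nat_lit 3305) (nat_lit 202) (.e (nat_lit 573488) (nat_lit 14) (.e (nat_lit 73788) (nat_lit 45) (.e (nat_lit 1140) (nat_lit 84) (.e (nat_lit 32789) (nat_lit 11) .nil)))))) (.g (nat_lit 4) .nil .nil)))) (.nd (nat_lit 5) 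
(.lf (nat_lit 206237) (.g (nat_lit 518) (.e (nat_lit 81922) (nat_lit 0) (.e (nat_lit 3230) (nat_lit 197) (.e (nat_lit 532510) (nat_lit 2) (.e (nat_lit 106536) (nat_lit 11) .nil)))) .nil)) 
(.lf (nat_lit 206269) (.g (nat_lit 768) (.e (nat_lit 81922) (nat_lit 0) (.e (nat_lit 3631) (nat_lit 227) (.e (nat_lit 778326) (nat_lit 6) (.e (nat_lit 81920) (nat_lit 0) .nil)))) .nil)))))) (.nd (nat_lit 2) (.nd (nat_lit 3) (.nd (nat_lit 4) (.nd (nat_lit 5) 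
(.lf (nat_lit 206211) (.g (nat_lit 1433) (.e (nat_lit 81921) (nat_lit 0) (.e (nat_lit 3711) (nat_lit 227) (.e (nat_lit 778325) (nat_lit 6) (.e (nat_lit 81946) (nat_lit 20) (.e (nat_lit 2005) (nat_lit 138) (.e (nat_lit 671764) (nat_lit 6) .nil)))))) (.g (nat_lit 6) .nil .nil))) 
(.lf (nat_lit 206243) (.g (nat_lit 2049) (.e (nat_lit 81922) (nat_lit 0) (.e (nat_lit 3304) (nat_lit 202) (.e (nat_lit 573482) (nat_lit 13) (.e (nat_lit 65624) (nat_lit 12) (.e (nat_lit 385074) (nat_lit 31) .nil))))) .nil))) (.nd (nat_lit 5) 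
(.lf (nat_lit 206227) (.g (nat_lit 2218) (.e (nat_lit 81921) (nat_lit 0) (.e (nat_lit 3716) (nat_lit 227) (.e (nat_lit 778319) (nat_lit 4) (.e (nat_lit 65624) (nat_lit 12) (.e (nat_lit 385094) (nat_lit 49) (.e (nat_lit 778326) (nat_lit 6) .nil)))))) (.g (nat_lit 6) .nil .nil))) 
(.lf (nat_lit 206259) (.g (nat_lit 3130) (.e (nat_lit 81922) (nat_lit 0) (.e (nat_lit 3305) (nat_lit 202) (.e (nat_lit 573493) (nat_lit 15) (.e (nat_lit 81959) (nat_lit 24) (.e (nat_lit 130816) (nat_lit 140) (.e (nat_lit 1224) (nat_lit 90) .nil)))))) (.g (nat_lit 4) .nil .nil))))) (.nd (nat_lit 4) (.nd (nat_lit 5) 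
(.lf (nat_lit 206219) (.g (nat_lit 1241) (.e (nat_lit 81921) (nat_lit 0) (.e (nat_lit 3714) (nat_lit 227) (.e (nat_lit 778325) (nat_lit 6) (.e (nat_lit 81946) (nat_lit 20) (.e (nat_lit 2006) (nat_lit 138) (.e (nat_lit 671764) (nat_lit 6) .nil)))))) (.g (nat_lit 6) .nil .nil))) 
(.lf (nat_lit 206251) (.g (nat_lit 2437) (.e (nat_lit 81922) (nat_lit 0) (.e (nat_lit 3305) (nat_lit 202) (.e (nat_lit 573487) (nat_lit 14) (.e (nat_lit 73792) (nat_lit 45) (.e (nat_lit 1141) (nat_lit 84) (.e (nat_lit 32789) (nat_lit 11) .nil)))))) (.g (nat_lit 6) .nil .nil)))) (.nd (nat_lit 5) 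
(.lf (nat_lit 206235) (.g (nat_lit 1062) (.e (nat_lit 81921) (nat_lit 0) (.e (nat_lit 7089) (nat_lit 379) (.e (nat_lit 123214) (nat_lit 275) (.e (nat_lit 73729) (nat_lit 0) (.e (nat_lit 7119) (nat_lit 382) (.e (nat_lit 7936) (nat_lit 90) .nil)))))) (.g (nat_lit 5) .nil .nil))) 
(.lf (nat_lit 206267) (.g (nat_lit 2780) (.e (nat_lit 81922) (nat_lit 0) (.e (nat_lit 3631) (nat_lit 227) (.e (nat_lit 778320) (nat_lit 4) (.e (nat_lit 65624) (nat_lit 12) (.e (nat_lit 385094) (nat_lit 49) (.e (nat_lit 778327) (nat_lit 6) .nil)))))) (.g (nat_lit 6) .nil .nil)))))) (.nd (nat_lit 3) (.nd (nat_lit 4) (.nd (nat_lit 5) 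
(.lf (nat_lit 206215) (.g (nat_lit 274) (.e (nat_lit 81921) (nat_lit 0) (.e (nat_lit 3711) (nat_lit 227) (.e (nat_lit 786176) (nat_lit 6) .nil))) .nil)) 
(.lf (nat_lit 206247) (.g (nat_lit 1304) (.e (nat_lit 81922) (nat_lit 0) (.e (nat_lit 3305) (nat_lit 202) (.e (nat_lit 573487) (nat_lit 14) (.e (nat_lit 81664) (nat_lit 35) .nil)))) .nil))) (.nd (nat_lit 5) 
(.lf (nat_lit 206231) (.g (nat_lit 2291) (.e (nat_lit 81921) (nat_lit 0) (.e (nat_lit 3716) (nat_lit 227) (.e (nat_lit 778325) (nat_lit 6) (.e (nat_lit 81950) (nat_lit 21) (.e (nat_lit 57872) (nat_lit 264) (.e (nat_lit 1219) (nat_lit 90) .nil)))))) (.g (nat_lit 6) .nil .nil))) 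
(.lf (nat_lit 206263) (.g (nat_lit 2134) (.e (nat_lit 81922) (nat_lit 0) (.e (nat_lit 3630) (nat_lit 227) (.e (nat_lit 778326) (nat_lit 6) (.e (nat_lit 81950) (nat_lit 21) (.e (nat_lit 57873) (nat_lit 264) (.e (nat_lit 1219) (nat_lit 90) .nil)))))) (.g (nat_lit 6) .nil .nil))))) (.nd (nat_lit 4) (.nd (nat_lit 5) 
(.lf (nat_lit 206223) (.g (nat_lit 1125) (.e (nat_lit 81921) (nat_lit 0) (.e (nat_lit 3715) (nat_lit 227) (.e (nat_lit 778325) (nat_lit 6) (.e (nat_lit 81943) (nat_lit 20) (.e (nat_lit 2005) (nat_lit 138) (.e (nat_lit 671764) (nat_lit 6) .nil)))))) (.g (nat_lit 0) .nil .nil))) 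
(.lf (nat_lit 206255) (.g (nat_lit 1456) (.e (nat_lit 81922) (nat_lit 0) (.e (nat_lit 3305) (nat_lit 202) (.e (nat_lit 573491) (nat_lit 15) (.e (nat_lit 81942) (nat_lit 20) .nil)))) .nil))) (.nd (nat_lit 5) 
(.lf (nat_lit 206239) (.g (nat_lit 1505) (.e (nat_lit 81922) (nat_lit 0) (.e (nat_lit 3251) (nat_lit 197) (.e (nat_lit 532508) (nat_lit 2) (.e (nat_lit 106536) (nat_lit 11) (.e (nat_lit 16413) (nat_lit 2) .nil))))) .nil)) 
(.lf (nat_lit 206271) (.g (nat_lit 3228) (.e (nat_lit 81922) (nat_lit 0) (.e (nat_lit 3631) (nat_lit 227) (.e (nat_lit 778326) (nat_lit 6) (.e (nat_lit 81959) (nat_lit 24) (.e (nat_lit 123182) (nat_lit 264) (.e (nat_lit 1224) (nat_lit 90) .nil)))))) (.g (nat_lit 6) .nil .nil)))))))))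

noncomputable def tv2722 : DT := (.nd (nat_lit 0) (.nd (nat_lit 1) (.nd (nat_lit 2) (.nd (nat_lit 3) (.nd (nat_lit 4) (.nd (nat_lit 5) 
(.lf (nat_lit 206272) (.g (nat_lit 438) (.e (nat_lit 81922) (nat_lit 0) (.e (nat_lit 3631) (nat_lit 227) (.e (nat_lit 778327) (nat_lit 6) .nil))) .nil)) 
(.lf (nat_lit 206304) (.g (nat_lit 2399) (.e (nat_lit 81922) (nat_lit 0) (.e (nat_lit 3747) (nat_lit 228) (.e (nat_lit 786483) (nat_lit 30) (.e (nat_lit 360451) (nat_lit 0) (.e (nat_lit 5898) (nat_lit 320) (.e (nat_lit 7936) (nat_lit 90) .nil)))))) (.g (nat_lit 5) .nil .nil)))) (.nd (nat_lit 5) 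
(.lf (nat_lit 206288) (.g (nat_lit 635) (.e (nat_lit 81922) (nat_lit 0) (.e (nat_lit 3747) (nat_lit 228) (.e (nat_lit 786470) (nat_lit 27) (.e (nat_lit 336193) (nat_lit 12) .nil)))) .nil)) 
(.lf (nat_lit 206320) (.g (nat_lit 2293) (.e (nat_lit 81922) (nat_lit 0) (.e (nat_lit 3748) (nat_lit 228) (.e (nat_lit 786483) (nat_lit 30) (.e (nat_lit 360451) (nat_lit 0) (.e (nat_lit 5898) (nat_lit 320) (.e (nat_lit 7936) (nat_lit 90) .nil)))))) (.g (nat_lit 5) .nil .nil))))) (.nd (nat_lit 4) (.nd (nat_lit 5) 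
(.lf (nat_lit 206280) (.g (nat_lit 380) (.e (nat_lit 81922) (nat_lit 0) (.e (nat_lit 3632) (nat_lit 227) (.e (nat_lit 778327) (nat_lit 6) .nil))) .nil)) 
(.lf (nat_lit 206312) (.g (nat_lit 1991) (.e (nat_lit 81922) (nat_lit 0) (.e (nat_lit 3748) (nat_lit 228) (.e (nat_lit 786478) (nat_lit 29) (.e (nat_lit 352318) (nat_lit 24) (.e (nat_lit 123184) (nat_lit 264) (.e (nat_lit 1224) (nat_lit 90) .nil)))))) (.g (nat_lit 5) .nil .nil)))) (.nd (nat_lit 5) 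
(.lf (nat_lit 206296) (.g (nat_lit 1368) (.e (nat_lit 81922) (nat_lit 0) (.e (nat_lit 3747) (nat_lit 228) (.e (nat_lit 786480) (nat_lit 29) (.e (nat_lit 352265) (nat_lit 0) (.e (nat_lit 3632) (nat_lit 227) .nil))))) .nil)) 
(.lf (nat_lit 206328) (.g (nat_lit 2454) (.e (nat_lit 81923) (nat_lit 0) (.e (nat_lit 3630) (nat_lit 227) (.e (nat_lit 778326) (nat_lit 6) (.e (nat_lit 81950) (nat_lit 21) (.e (nat_lit 57872) (nat_lit 264) (.e (nat_lit 1221) (nat_lit 90) .nil)))))) (.g (nat_lit 6) .nil .nil)))))) (.nd (nat_lit 3) (.nd (nat_lit 4) (.nd (nat_lit 5) 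
(.lf (nat_lit 206276) (.g (nat_lit 380) (.e (nat_lit 81922) (nat_lit 0) (.e (nat_lit 3632) (nat_lit 227) (.e (nat_lit 778326) (nat_lit 6) .nil))) .nil)) 
(.lf (nat_lit 206308) (.g (nat_lit 2783) (.e (nat_lit 81922) (nat_lit 0) (.e (nat_lit 3747) (nat_lit 228) (.e (nat_lit 786483) (nat_lit 30) (.e (nat_lit 360454) (nat_lit 0) (.e (nat_lit 5907) (nat_lit 320) (.e (nat_lit 1219) (nat_lit 90) .nil)))))) (.g (nat_lit 6) .nil .nil)))) (.nd (nat_lit 5) 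
(.lf (nat_lit 206292) (.g (nat_lit 1436) (.e (nat_lit 81922) (nat_lit 0) (.e (nat_lit 3747) (nat_lit 228) (.e (nat_lit 786478) (nat_lit 29) (.e (nat_lit 352258) (nat_lit 0) (.e (nat_lit 3716) (nat_lit 227) (.e (nat_lit 778325) (nat_lit 6) .nil)))))) (.g (nat_lit 0) .nil .nil))) 
(.lf (nat_lit 206324) (.g (nat_lit 1421) (.e (nat_lit 81922) (nat_lit 0) (.e (nat_lit 3748) (nat_lit 228) (.e (nat_lit 786483) (nat_lit 30) (.e (nat_lit 360455) (nat_lit 0) .nil)))) .nil)))) (.nd (nat_lit 4) (.nd (nat_lit 5) 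
(.lf (nat_lit 206284) (.g (nat_lit 3413) (.e (nat_lit 81922) (nat_lit 0) (.e (nat_lit 3632) (nat_lit 227) (.e (nat_lit 778327) (nat_lit 6) (.e (nat_lit 81959) (nat_lit 24) (.e (nat_lit 123182) (nat_lit 264) (.e (nat_lit 1224) (nat_lit 90) .nil)))))) (.g (nat_lit 6) .nil .nil))) 
(.lf (nat_lit 206316) (.g (nat_lit 1179) (.e (nat_lit 81922) (nat_lit 0) (.e (nat_lit 3748) (nat_lit 228) (.e (nat_lit 786481) (nat_lit 30) (.e (nat_lit 360455) (nat_lit 0) (.e (nat_lit 5813) (nat_lit 320) (.e (nat_lit 7936) (nat_lit 90) .nil)))))) (.g (nat_lit 5) .nil .nil)))) (.nd (nat_lit 5) 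
(.lf (nat_lit 206300) (.g (nat_lit 410) (.e (nat_lit 81922) (nat_lit 0) (.e (nat_lit 3747) (nat_lit 228) (.e (nat_lit 786483) (nat_lit 30) .nil))) .nil)) 
(.lf (nat_lit 206332) (.g (nat_lit 2900) (.e (nat_lit 81923) (nat_lit 0) (.e (nat_lit 3733) (nat_lit 228) (.e (nat_lit 786483) (nat_lit 30) (.e (nat_lit 360454) (nat_lit 0) (.e (nat_lit 5907) (nat_lit 320) (.e (nat_lit 1221) (nat_lit 90) .nil)))))) (.g (nat_lit 6) .nil .nil))))))) (.nd (nat_lit 2) (.nd (nat_lit 3) (.nd (nat_lit 4) (.nd (nat_lit 5) 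
(.lf (nat_lit 206274) (.g (nat_lit 3424) (.e (nat_lit 81922) (nat_lit 0) (.e (nat_lit 3631) (nat_lit 227) (.e (nat_lit 778327) (nat_lit 6) (.e (nat_lit 81959) (nat_lit 24) (.e (nat_lit 123182) (nat_lit 264) (.e (nat_lit 1224) (nat_lit 90) .nil)))))) (.g (nat_lit 6) .nil .nil))) 
(.lf (nat_lit 206306) (.g (nat_lit 3110) (.e (nat_lit 81922) (nat_lit 0) (.e (nat_lit 3747) (nat_lit 228) (.e (nat_lit 786483) (nat_lit 30) (.e (nat_lit 360452) (nat_lit 0) (.e (nat_lit 5907) (nat_lit 320) (.e (nat_lit 1219) (nat_lit 90) .nil)))))) (.g (nat_lit 5) .nil .nil)))) (.nd (nat_lit 5) 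
(.lf (nat_lit 206290) (.g (nat_lit 1251) (.e (nat_lit 81922) (nat_lit 0) (.e (nat_lit 3747) (nat_lit 228) (.e (nat_lit 786473) (nat_lit 27) (.e (nat_lit 336119) (nat_lit 9) (.e (nat_lit 336329) (nat_lit 19) .nil))))) .nil)) 
(.lf (nat_lit 206322) (.g (nat_lit 2995) (.e (nat_lit 81922) (nat_lit 0) (.e (nat_lit 3748) (nat_lit 228) (.e (nat_lit 786483) (nat_lit 30) (.e (nat_lit 360452) (nat_lit 0) (.e (nat_lit 5907) (nat_lit 320) (.e (nat_lit 1219) (nat_lit 90) .nil)))))) (.g (nat_lit 5) .nil .nil))))) (.nd (nat_lit 4) (.nd (nat_lit 5) 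
(.lf (nat_lit 206282) (.g (nat_lit 2529) (.e (nat_lit 81922) (nat_lit 0) (.e (nat_lit 3632) (nat_lit 227) (.e (nat_lit 778327) (nat_lit 6) (.e (nat_lit 81957) (nat_lit 24) (.e (nat_lit 123184) (nat_lit 264) (.e (nat_lit 1224) (nat_lit 90) .nil)))))) (.g (nat_lit 0) .nil .nil))) 
(.lf (nat_lit 206314) (.g (nat_lit 2679) (.e (nat_lit 81922) (nat_lit 0) (.e (nat_lit 3748) (nat_lit 228) (.e (nat_lit 786481) (nat_lit 30) (.e (nat_lit 360452) (nat_lit 0) (.e (nat_lit 5907) (nat_lit 320) (.e (nat_lit 1219) (nat_lit 90) .nil)))))) (.g (nat_lit 0) .nil .nil)))) (.nd (nat_lit 5) 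
(.lf (nat_lit 206298) (.g (nat_lit 1902) (.e (nat_lit 81922) (nat_lit 0) (.e (nat_lit 3747) (nat_lit 228) (.e (nat_lit 786480) (nat_lit 29) (.e (nat_lit 352318) (nat_lit 24) (.e (nat_lit 123185) (nat_lit 264) (.e (nat_lit 1224) (nat_lit 90) .nil)))))) (.g (nat_lit 4) .nil .nil))) 
(.lf (nat_lit 206330) (.g (nat_lit 846) (.e (nat_lit 81923) (nat_lit 0) (.e (nat_lit 3632) (nat_lit 227) (.e (nat_lit 778327) (nat_lit 6) (.e (nat_lit 81949) (nat_lit 21) .nil)))) .nil))))) (.nd (nat_lit 3) (.nd (nat_lit 4) (.nd (nat_lit 5) 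
(.lf (nat_lit 206278) (.g (nat_lit 3271) (.e (nat_lit 81922) (nat_lit 0) (.e (nat_lit 3632) (nat_lit 227) (.e (nat_lit 778326) (nat_lit 6) (.e (nat_lit 81959) (nat_lit 24) (.e (nat_lit 123182) (nat_lit 264) (.e (nat_lit 1224) (nat_lit 90) .nil)))))) (.g (nat_lit 6) .nil .nil))) 
(.lf (nat_lit 206310) (.g (nat_lit 585) (.e (nat_lit 81922) (nat_lit 0) (.e (nat_lit 3747) (nat_lit 228) (.e (nat_lit 786485) (nat_lit 32) .nil))) .nil))) (.nd (nat_lit 5) 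
(.lf (nat_lit 206294) (.g (nat_lit 2160) (.e (nat_lit 81922) (nat_lit 0) (.e (nat_lit 3747) (nat_lit 228) (.e (nat_lit 786478) (nat_lit 29) (.e (nat_lit 352318) (nat_lit 24) (.e (nat_lit 123184) (nat_lit 264) (.e (nat_lit 1224) (nat_lit 90) .nil)))))) (.g (nat_lit 5) .nil .nil))) 
(.lf (nat_lit 206326) (.g (nat_lit 1250) (.e (nat_lit 81923) (nat_lit 0) (.e (nat_lit 3305) (nat_lit 202) (.e (nat_lit 573491) (nat_lit 15) (.e (nat_lit 81943) (nat_lit 20) .nil)))) .nil)))) (.nd (nat_lit 4) (.nd (nat_lit 5) 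
(.lf (nat_lit 206286) (.g (nat_lit 1751) (.e (nat_lit 81922) (nat_lit 0) (.e (nat_lit 3746) (nat_lit 228) (.e (nat_lit 786480) (nat_lit 29) (.e (nat_lit 352309) (nat_lit 21) (.e (nat_lit 57870) (nat_lit 264) (.e (nat_lit 1219) (nat_lit 90) .nil)))))) (.g (nat_lit 4) .nil .nil))) 
(.lf (nat_lit 206318) (.g (nat_lit 2284) (.e (nat_lit 81922) (nat_lit 0) (.e (nat_lit 3748) (nat_lit 228) (.e (nat_lit 786483) (nat_lit 30) (.e (nat_lit 360450) (nat_lit 0) (.e (nat_lit 5898) (nat_lit 320) (.e (nat_lit 7936) (nat_lit 90) .nil)))))) (.g (nat_lit 5) .nil .nil)))) (.nd (nat_lit 5) 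
(.lf (nat_lit 206302) (.g (nat_lit 2475) (.e (nat_lit 81922) (nat_lit 0) (.e (nat_lit 3747) (nat_lit 228) (.e (nat_lit 786483) (nat_lit 30) (.e (nat_lit 360450) (nat_lit 0) (.e (nat_lit 5898) (nat_lit 320) (.e (nat_lit 7936) (nat_lit 90) .nil)))))) (.g (nat_lit 5) .nil .nil))) 
(.lf (nat_lit 206334) (.g (nat_lit 2062) (.e (nat_lit 81923) (nat_lit 0) (.e (nat_lit 3747) (nat_lit 228) (.e (nat_lit 786483) (nat_lit 30) (.e (nat_lit 360452) (nat_lit 0) (.e (nat_lit 5907) (nat_lit 320) .nil))))) .nil))))))) (.nd (nat_lit 1) (.nd (nat_lit 2) (.nd (nat_lit 3) (.nd (nat_lit 4) (.nd (nat_lit 5) 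
(.lf (nat_lit 206273) (.g (nat_lit 2004) (.e (nat_lit 81922) (nat_lit 0) (.e (nat_lit 3631) (nat_lit 227) (.e (nat_lit 778327) (nat_lit 6) (.e (nat_lit 81946) (nat_lit 20) (.e (nat_lit 2005) (nat_lit 138) (.e (nat_lit 671764) (nat_lit 6) .nil)))))) (.g (nat_lit 6) .nil .nil))) 
(.lf (nat_lit 206305) (.g (nat_lit 1982) (.e (nat_lit 81922) (nat_lit 0) (.e (nat_lit 3747) (nat_lit 228) (.e (nat_lit 786483) (nat_lit 30) (.e (nat_lit 360451) (nat_lit 0) (.e (nat_lit 7936) (nat_lit 320) (.e (nat_lit 1224) (nat_lit 90) .nil)))))) (.g (nat_lit 4) .nil .nil)))) (.nd (nat_lit 5) 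
(.lf (nat_lit 206289) (.g (nat_lit 2253) (.e (nat_lit 81922) (nat_lit 0) (.e (nat_lit 3747) (nat_lit 228) (.e (nat_lit 786470) (nat_lit 27) (.e (nat_lit 336200) (nat_lit 12) (.e (nat_lit 385094) (nat_lit 49) (.e (nat_lit 778327) (nat_lit 6) .nil)))))) (.g (nat_lit 6) .nil .nil))) 
(.lf (nat_lit 206321) (.g (nat_lit 1527) (.e (nat_lit 81922) (nat_lit 0) (.e (nat_lit 3748) (nat_lit 228) (.e (nat_lit 786483) (nat_lit 30) (.e (nat_lit 360451) (nat_lit 0) (.e (nat_lit 7936) (nat_lit 320) .nil))))) .nil)))) (.nd (nat_lit 4) (.nd (nat_lit 5) 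
(.lf (nat_lit 206281) (.g (nat_lit 1973) (.e (nat_lit 81922) (nat_lit 0) (.e (nat_lit 3632) (nat_lit 227) (.e (nat_lit 778327) (nat_lit 6) (.e (nat_lit 81946) (nat_lit 20) (.e (nat_lit 2005) (nat_lit 138) (.e (nat_lit 671764) (nat_lit 6) .nil)))))) (.g (nat_lit 6) .nil .nil))) 
(.lf (nat_lit 206313) (.g (nat_lit 1122) (.e (nat_lit 81922) (nat_lit 0) (.e (nat_lit 3748) (nat_lit 228) (.e (nat_lit 786480) (nat_lit 29) (.e (nat_lit 352316) (nat_lit 24) .nil)))) .nil))) (.nd (nat_lit 5) 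
(.lf (nat_lit 206297) (.g (nat_lit 1494) (.e (nat_lit 81922) (nat_lit 0) (.e (nat_lit 3747) (nat_lit 228) (.e (nat_lit 786480) (nat_lit 29) (.e (nat_lit 352285) (nat_lit 20) .nil)))) .nil)) 
(.lf (nat_lit 206329) (.g (nat_lit 440) (.e (nat_lit 81923) (nat_lit 0) (.e (nat_lit 3631) (nat_lit 227) (.e (nat_lit 778326) (nat_lit 6) .nil))) .nil))))) (.nd (nat_lit 3) (.nd (nat_lit 4) (.nd (nat_lit 5) 
(.lf (nat_lit 206277) (.g (nat_lit 2710) (.e (nat_lit 81922) (nat_lit 0) (.e (nat_lit 3632) (nat_lit 227) (.e (nat_lit 778326) (nat_lit 6) (.e (nat_lit 81957) (nat_lit 24) (.e (nat_lit 123184) (nat_lit 264) (.e (nat_lit 1224) (nat_lit 90) .nil)))))) (.g (nat_lit 0) .nil .nil))) 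
(.lf (nat_lit 206309) (.g (nat_lit 1595) (.e (nat_lit 81922) (nat_lit 0) (.e (nat_lit 3747) (nat_lit 228) (.e (nat_lit 786483) (nat_lit 30) (.e (nat_lit 360455) (nat_lit 0) (.e (nat_lit 5813) (nat_lit 320) .nil))))) .nil))) (.nd (nat_lit 5) 
(.lf (nat_lit 206293) (.g (nat_lit 1344) (.e (nat_lit 81922) (nat_lit 0) (.e (nat_lit 3747) (nat_lit 228) (.e (nat_lit 786478) (nat_lit 29) (.e (nat_lit 352270) (nat_lit 8) (.e (nat_lit 270080) (nat_lit 6) .nil))))) (.g (nat_lit 4) .nil .nil))) 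
(.lf (nat_lit 206325) (.g (nat_lit 1387) (.e (nat_lit 81923) (nat_lit 0) (.e (nat_lit 3305) (nat_lit 202) (.e (nat_lit 573482) (nat_lit 13) (.e (nat_lit 65630) (nat_lit 14) .nil)))) .nil)))) (.nd (nat_lit 4) (.nd (nat_lit 5) 
(.lf (nat_lit 206285) (.g (nat_lit 2424) (.e (nat_lit 81922) (nat_lit 0) (.e (nat_lit 3632) (nat_lit 227) (.e (nat_lit 778327) (nat_lit 6) (.e (nat_lit 81959) (nat_lit 24) (.e (nat_lit 123184) (nat_lit 264) (.e (nat_lit 1224) (nat_lit 90) .nil)))))) (.g (nat_lit 0) .nil .nil))) 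
(.lf (nat_lit 206317) (.g (nat_lit 1091) (.e (nat_lit 81922) (nat_lit 0) (.e (nat_lit 3748) (nat_lit 228) (.e (nat_lit 786483) (nat_lit 30) (.e (nat_lit 360450) (nat_lit 0) .nil)))) .nil))) (.nd (nat_lit 5) 
(.lf (nat_lit 206301) (.g (nat_lit 1091) (.e (nat_lit 81922) (nat_lit 0) (.e (nat_lit 3747) (nat_lit 228) (.e (nat_lit 786483) (nat_lit 30) (.e (nat_lit 360450) (nat_lit 0) .nil)))) .nil)) 
(.lf (nat_lit 206333) (.g (nat_lit 1425) (.e (nat_lit 81923) (nat_lit 0) (.e (nat_lit 3747) (nat_lit 228) (.e (nat_lit 786483) (nat_lit 30) (.e (nat_lit 360452) (nat_lit 0) .nil)))) .nil)))))) (.nd (nat_lit 2) (.nd (nat_lit 3) (.nd (nat_lit 4) (.nd (nat_lit 5) 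
(.lf (nat_lit 206275) (.g (nat_lit 2453) (.e (nat_lit 81922) (nat_lit 0) (.e (nat_lit 3631) (nat_lit 227) (.e (nat_lit 778327) (nat_lit 6) (.e (nat_lit 81959) (nat_lit 24) (.e (nat_lit 123184) (nat_lit 264) (.e (nat_lit 1224) (nat_lit 90) .nil)))))) (.g (nat_lit 6) .nil .nil))) 
(.lf (nat_lit 206307) (.g (nat_lit 2945) (.e (nat_lit 81922) (nat_lit 0) (.e (nat_lit 3747) (nat_lit 228) (.e (nat_lit 786483) (nat_lit 30) (.e (nat_lit 360453) (nat_lit 0) (.e (nat_lit 5907) (nat_lit 320) (.e (nat_lit 1219) (nat_lit 90) .nil)))))) (.g (nat_lit 5) .nil .nil)))) (.nd (nat_lit 5) 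
(.lf (nat_lit 206291) (.g (nat_lit 1296) (.e (nat_lit 81922) (nat_lit 0) (.e (nat_lit 3747) (nat_lit 228) (.e (nat_lit 786473) (nat_lit 27) (.e (nat_lit 336206) (nat_lit 12) (.e (nat_lit 385093) (nat_lit 49) .nil))))) .nil)) 
(.lf (nat_lit 206323) (.g (nat_lit 2850) (.e (nat_lit 81922) (nat_lit 0) (.e (nat_lit 3748) (nat_lit 228) (.e (nat_lit 786483) (nat_lit 30) (.e (nat_lit 360454) (nat_lit 0) (.e (nat_lit 5907) (nat_lit 320) (.e (nat_lit 1219) (nat_lit 90) .nil)))))) (.g (nat_lit 6) .nil .nil))))) (.nd (nat_lit 4) (.nd (nat_lit 5) 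
(.lf (nat_lit 206283) (.g (nat_lit 1146) (.e (nat_lit 81922) (nat_lit 0) (.e (nat_lit 3632) (nat_lit 227) (.e (nat_lit 778327) (nat_lit 6) (.e (nat_lit 81958) (nat_lit 24) (.e (nat_lit 123184) (nat_lit 264) .nil))))) .nil)) 
(.lf (nat_lit 206315) (.g (nat_lit 2565) (.e (nat_lit 81922) (nat_lit 0) (.e (nat_lit 3748) (nat_lit 228) (.e (nat_lit 786481) (nat_lit 30) (.e (nat_lit 360453) (nat_lit 0) (.e (nat_lit 5907) (nat_lit 320) (.e (nat_lit 1219) (nat_lit 90) .nil)))))) (.g (nat_lit 0) .nil .nil)))) (.nd (nat_lit 5) 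
(.lf (nat_lit 206299) (.g (nat_lit 1472) (.e (nat_lit 81922) (nat_lit 0) (.e (nat_lit 3747) (nat_lit 228) (.e (nat_lit 786481) (nat_lit 30) (.e (nat_lit 360455) (nat_lit 0) (.e (nat_lit 5813) (nat_lit 320) (.e (nat_lit 7936) (nat_lit 90) .nil)))))) (.g (nat_lit 5) .nil .nil))) 
(.lf (nat_lit 206331) (.g (nat_lit 3019) (.e (nat_lit 81923) (nat_lit 0) (.e (nat_lit 3733) (nat_lit 228) (.e (nat_lit 786481) (nat_lit 30) (.e (nat_lit 360452) (nat_lit 0) (.e (nat_lit 5907) (nat_lit 320) (.e (nat_lit 1221) (nat_lit 90) .nil)))))) (.g (nat_lit 0) .nil .nil)))))) (.nd (nat_lit 3) (.nd (nat_lit 4) (.nd (nat_lit 5) 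
(.lf (nat_lit 206279) (.g (nat_lit 2400) (.e (nat_lit 81922) (nat_lit 0) (.e (nat_lit 3632) (nat_lit 227) (.e (nat_lit 778326) (nat_lit 6) (.e (nat_lit 81959) (nat_lit 24) (.e (nat_lit 123184) (nat_lit 264) (.e (nat_lit 1224) (nat_lit 90) .nil)))))) (.g (nat_lit 0) .nil .nil))) 
(.lf (nat_lit 206311) (.g (nat_lit 1171) (.e (nat_lit 81922) (nat_lit 0) (.e (nat_lit 3748) (nat_lit 228) (.e (nat_lit 786478) (nat_lit 29) (.e (nat_lit 352270) (nat_lit 8) (.e (nat_lit 270080) (nat_lit 6) .nil))))) (.g (nat_lit 4) .nil .nil)))) (.nd (nat_lit 5) 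
(.lf (nat_lit 206295) (.g (nat_lit 416) (.e (nat_lit 81922) (nat_lit 0) (.e (nat_lit 3747) (nat_lit 228) (.e (nat_lit 786480) (nat_lit 29) .nil))) .nil)) 
(.lf (nat_lit 206327) (.g (nat_lit 2354) (.e (nat_lit 81923) (nat_lit 0) (.e (nat_lit 3630) (nat_lit 227) (.e (nat_lit 778326) (nat_lit 6) (.e (nat_lit 81948) (nat_lit 21) (.e (nat_lit 57872) (nat_lit 264) (.e (nat_lit 1221) (nat_lit 90) .nil)))))) (.g (nat_lit 0) .nil .nil))))) (.nd (nat_lit 4) (.nd (nat_lit 5) 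
(.lf (nat_lit 206287) (.g (nat_lit 562) (.e (nat_lit 81922) (nat_lit 0) (.e (nat_lit 3747) (nat_lit 228) (.e (nat_lit 786467) (nat_lit 27) (.e (nat_lit 336200) (nat_lit 12) .nil)))) .nil)) 
(.lf (nat_lit 206319) (.g (nat_lit 2188) (.e (nat_lit 81922) (nat_lit 0) (.e (nat_lit 3748) (nat_lit 228) (.e (nat_lit 786483) (nat_lit 30) (.e (nat_lit 360451) (nat_lit 0) (.e (nat_lit 5896) (nat_lit 320) (.e (nat_lit 7936) (nat_lit 90) .nil)))))) (.g (nat_lit 5) .nil .nil)))) (.nd (nat_lit 5) 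
(.lf (nat_lit 206303) (.g (nat_lit 2355) (.e (nat_lit 81922) (nat_lit 0) (.e (nat_lit 3747) (nat_lit 228) (.e (nat_lit 786483) (nat_lit 30) (.e (nat_lit 360451) (nat_lit 0) (.e (nat_lit 5896) (nat_lit 320) (.e (nat_lit 7936) (nat_lit 90) .nil)))))) (.g (nat_lit 5) .nil .nil))) 
(.lf (nat_lit 206335) (.g (nat_lit 1905) (.e (nat_lit 81923) (nat_lit 0) (.e (nat_lit 3747) (nat_lit 228) (.e (nat_lit 786483) (nat_lit 30) (.e (nat_lit 360453) (nat_lit 0) (.e (nat_lit 5907) (nat_lit 320) .nil))))) .nil))))))))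

noncomputable def tv2723 : DT := (.nd (nat_lit 0) (.nd (nat_lit 1) (.nd (nat_lit 2) (.nd (nat_lit 3) (.nd (nat_lit 4) (.nd (nat_lit 5) 
(.lf (nat_lit 206336) (.g (nat_lit 725) (.e (nat_lit 81924) (nat_lit 0) (.e (nat_lit 3253) (nat_lit 197) (.e (nat_lit 532490) (nat_lit 0) .nil))) .nil)) 
(.lf (nat_lit 206368) (.g (nat_lit 1304) (.e (nat_lit 81924) (nat_lit 0) (.e (nat_lit 3631) (nat_lit 227) (.e (nat_lit 778327) (nat_lit 6) (.e (nat_lit 81950) (nat_lit 21) (.e (nat_lit 57870) (nat_lit 264) (.e (nat_lit 1219) (nat_lit 90) .nil)))))) (.g (nat_lit 4) .nil .nil)))) (.nd (nat_lit 5) 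
(.lf (nat_lit 206352) (.g (nat_lit 1502) (.e (nat_lit 81924) (nat_lit 0) (.e (nat_lit 3629) (nat_lit 227) (.e (nat_lit 778327) (nat_lit 6) (.e (nat_lit 81946) (nat_lit 20) (.e (nat_lit 2005) (nat_lit 138) (.e (nat_lit 671764) (nat_lit 6) .nil)))))) (.g (nat_lit 0) .nil .nil))) 
(.lf (nat_lit 206384) (.g (nat_lit 422) (.e (nat_lit 81924) (nat_lit 0) (.e (nat_lit 3747) (nat_lit 228) (.e (nat_lit 786478) (nat_lit 29) .nil))) .nil)))) (.nd (nat_lit 4) (.nd (nat_lit 5) 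
(.lf (nat_lit 206344) (.g (nat_lit 1269) (.e (nat_lit 81924) (nat_lit 0) (.e (nat_lit 3629) (nat_lit 227) (.e (nat_lit 778326) (nat_lit 6) (.e (nat_lit 81938) (nat_lit 20) (.e (nat_lit 2006) (nat_lit 138) (.e (nat_lit 671764) (nat_lit 6) .nil)))))) (.g (nat_lit 0) .nil .nil))) 
(.lf (nat_lit 206376) (.g (nat_lit 2867) (.e (nat_lit 81924) (nat_lit 0) (.e (nat_lit 3632) (nat_lit 227) (.e (nat_lit 778326) (nat_lit 6) (.e (nat_lit 81950) (nat_lit 21) (.e (nat_lit 57872) (nat_lit 264) (.e (nat_lit 1219) (nat_lit 90) .nil)))))) (.g (nat_lit 0) .nil .nil)))) (.nd (nat_lit 5) 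
(.lf (nat_lit 206360) (.g (nat_lit 1463) (.e (nat_lit 81924) (nat_lit 0) (.e (nat_lit 3631) (nat_lit 227) (.e (nat_lit 778326) (nat_lit 6) (.e (nat_lit 81939) (nat_lit 20) (.e (nat_lit 2005) (nat_lit 138) (.e (nat_lit 671764) (nat_lit 6) .nil)))))) (.g (nat_lit 6) .nil .nil))) 
(.lf (nat_lit 206392) (.g (nat_lit 1014) (.e (nat_lit 81924) (nat_lit 0) (.e (nat_lit 3747) (nat_lit 228) (.e (nat_lit 786480) (nat_lit 29) (.e (nat_lit 352270) (nat_lit 8) .nil)))) .nil))))) (.nd (nat_lit 3) (.nd (nat_lit 4) (.nd (nat_lit 5) 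
(.lf (nat_lit 206340) (.g (nat_lit 2381) (.e (nat_lit 81924) (nat_lit 0) (.e (nat_lit 3305) (nat_lit 202) (.e (nat_lit 573487) (nat_lit 14) (.e (nat_lit 73792) (nat_lit 45) (.e (nat_lit 1141) (nat_lit 84) (.e (nat_lit 32789) (nat_lit 11) .nil)))))) (.g (nat_lit 6) .nil .nil))) 
(.lf (nat_lit 206372) (.g (nat_lit 3101) (.e (nat_lit 81924) (nat_lit 0) (.e (nat_lit 3631) (nat_lit 227) (.e (nat_lit 778327) (nat_lit 6) (.e (nat_lit 81959) (nat_lit 24) (.e (nat_lit 123184) (nat_lit 264) (.e (nat_lit 1222) (nat_lit 90) .nil)))))) (.g (nat_lit 0) .nil .nil)))) (.nd (nat_lit 5) 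
(.lf (nat_lit 206356) (.g (nat_lit 842) (.e (nat_lit 81924) (nat_lit 0) (.e (nat_lit 3631) (nat_lit 227) (.e (nat_lit 778241) (nat_lit 0) .nil))) .nil)) 
(.lf (nat_lit 206388) (.g (nat_lit 1664) (.e (nat_lit 81924) (nat_lit 0) (.e (nat_lit 3747) (nat_lit 228) (.e (nat_lit 786478) (nat_lit 29) (.e (nat_lit 352309) (nat_lit 21) (.e (nat_lit 57870) (nat_lit 264) (.e (nat_lit 1219) (nat_lit 90) .nil)))))) (.g (nat_lit 4) .nil .nil))))) (.nd (nat_lit 4) (.nd (nat_lit 5) 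
(.lf (nat_lit 206348) (.g (nat_lit 2006) (.e (nat_lit 81924) (nat_lit 0) (.e (nat_lit 3629) (nat_lit 227) (.e (nat_lit 778326) (nat_lit 6) (.e (nat_lit 81950) (nat_lit 21) (.e (nat_lit 57873) (nat_lit 264) (.e (nat_lit 1219) (nat_lit 90) .nil)))))) (.g (nat_lit 0) .nil .nil))) 
(.lf (nat_lit 206380) (.g (nat_lit 410) (.e (nat_lit 81924) (nat_lit 0) (.e (nat_lit 3747) (nat_lit 228) (.e (nat_lit 786470) (nat_lit 27) .nil))) .nil))) (.nd (nat_lit 5) 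
(.lf (nat_lit 206364) (.g (nat_lit 428) (.e (nat_lit 81924) (nat_lit 0) (.e (nat_lit 3631) (nat_lit 227) (.e (nat_lit 778327) (nat_lit 6) .nil))) .nil)) 
(.lf (nat_lit 206396) (.g (nat_lit 3536) (.e (nat_lit 81924) (nat_lit 0) (.e (nat_lit 3747) (nat_lit 228) (.e (nat_lit 786480) (nat_lit 29) (.e (nat_lit 352318) (nat_lit 24) (.e (nat_lit 123182) (nat_lit 264) (.e (nat_lit 1222) (nat_lit 90) .nil)))))) (.g (nat_lit 0) .nil .nil))))))) (.nd (nat_lit 2) (.nd (nat_lit 3) (.nd (nat_lit 4) (.nd (nat_lit 5) 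
(.lf (nat_lit 206338) (.g (nat_lit 1934) (.e (nat_lit 81924) (nat_lit 0) (.e (nat_lit 3305) (nat_lit 202) (.e (nat_lit 573481) (nat_lit 13) (.e (nat_lit 65630) (nat_lit 14) (.e (nat_lit 401425) (nat_lit 2) .nil))))) .nil)) 
(.lf (nat_lit 206370) (.g (nat_lit 3226) (.e (nat_lit 81924) (nat_lit 0) (.e (nat_lit 3631) (nat_lit 227) (.e (nat_lit 778327) (nat_lit 6) (.e (nat_lit 81957) (nat_lit 24) (.e (nat_lit 123184) (nat_lit 264) (.e (nat_lit 1222) (nat_lit 90) .nil)))))) (.g (nat_lit 0) .nil .nil)))) (.nd (nat_lit 5) 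
(.lf (nat_lit 206354) (.g (nat_lit 2302) (.e (nat_lit 81924) (nat_lit 0) (.e (nat_lit 3630) (nat_lit 227) (.e (nat_lit 778326) (nat_lit 6) (.e (nat_lit 81950) (nat_lit 21) (.e (nat_lit 57872) (nat_lit 264) (.e (nat_lit 1219) (nat_lit 90) .nil)))))) (.g (nat_lit 0) .nil .nil))) 
(.lf (nat_lit 206386) (.g (nat_lit 974) (.e (nat_lit 81924) (nat_lit 0) (.e (nat_lit 3747) (nat_lit 228) (.e (nat_lit 786478) (nat_lit 29) (.e (nat_lit 352287) (nat_lit 20) .nil)))) .nil)))) (.nd (nat_lit 4) (.nd (nat_lit 5) 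
(.lf (nat_lit 206346) (.g (nat_lit 1542) (.e (nat_lit 81924) (nat_lit 0) (.e (nat_lit 3629) (nat_lit 227) (.e (nat_lit 778326) (nat_lit 6) (.e (nat_lit 81950) (nat_lit 21) (.e (nat_lit 57870) (nat_lit 264) (.e (nat_lit 1219) (nat_lit 90) .nil)))))) (.g (nat_lit 0) .nil .nil))) 
(.lf (nat_lit 206378) (.g (nat_lit 1459) (.e (nat_lit 81924) (nat_lit 0) (.e (nat_lit 3746) (nat_lit 228) (.e (nat_lit 786480) (nat_lit 29) (.e (nat_lit 352309) (nat_lit 21) (.e (nat_lit 57870) (nat_lit 264) (.e (nat_lit 1219) (nat_lit 90) .nil)))))) (.g (nat_lit 4) .nil .nil)))) (.nd (nat_lit 5) 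
(.lf (nat_lit 206362) (.g (nat_lit 2756) (.e (nat_lit 81924) (nat_lit 0) (.e (nat_lit 3631) (nat_lit 227) (.e (nat_lit 778326) (nat_lit 6) (.e (nat_lit 81950) (nat_lit 21) (.e (nat_lit 57872) (nat_lit 264) (.e (nat_lit 1219) (nat_lit 90) .nil)))))) (.g (nat_lit 0) .nil .nil))) 
(.lf (nat_lit 206394) (.g (nat_lit 1349) (.e (nat_lit 81924) (nat_lit 0) (.e (nat_lit 3747) (nat_lit 228) (.e (nat_lit 786480) (nat_lit 29) (.e (nat_lit 352316) (nat_lit 24) .nil)))) .nil))))) (.nd (nat_lit 3) (.nd (nat_lit 4) (.nd (nat_lit 5) 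
(.lf (nat_lit 206342) (.g (nat_lit 2957) (.e (nat_lit 81924) (nat_lit 0) (.e (nat_lit 3305) (nat_lit 202) (.e (nat_lit 573493) (nat_lit 15) (.e (nat_lit 81959) (nat_lit 24) (.e (nat_lit 130816) (nat_lit 140) .nil))))) .nil)) 
(.lf (nat_lit 206374) (.g (nat_lit 2546) (.e (nat_lit 81924) (nat_lit 0) (.e (nat_lit 3632) (nat_lit 227) (.e (nat_lit 778326) (nat_lit 6) (.e (nat_lit 81948) (nat_lit 21) (.e (nat_lit 57873) (nat_lit 264) (.e (nat_lit 1219) (nat_lit 90) .nil)))))) (.g (nat_lit 0) .nil .nil)))) (.nd (nat_lit 5) 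
(.lf (nat_lit 206358) (.g (nat_lit 415) (.e (nat_lit 81924) (nat_lit 0) (.e (nat_lit 3631) (nat_lit 227) (.e (nat_lit 778326) (nat_lit 6) .nil))) .nil)) 
(.lf (nat_lit 206390) (.g (nat_lit 3095) (.e (nat_lit 81924) (nat_lit 0) (.e (nat_lit 3747) (nat_lit 228) (.e (nat_lit 786478) (nat_lit 29) (.e (nat_lit 352318) (nat_lit 24) (.e (nat_lit 123182) (nat_lit 264) (.e (nat_lit 1222) (nat_lit 90) .nil)))))) (.g (nat_lit 6) .nil .nil))))) (.nd (nat_lit 4) (.nd (nat_lit 5) 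
(.lf (nat_lit 206350) (.g (nat_lit 1974) (.e (nat_lit 81924) (nat_lit 0) (.e (nat_lit 3629) (nat_lit 227) (.e (nat_lit 778326) (nat_lit 6) (.e (nat_lit 81959) (nat_lit 24) (.e (nat_lit 123185) (nat_lit 264) (.e (nat_lit 1222) (nat_lit 90) .nil)))))) (.g (nat_lit 0) .nil .nil))) 
(.lf (nat_lit 206382) (.g (nat_lit 1166) (.e (nat_lit 81924) (nat_lit 0) (.e (nat_lit 3747) (nat_lit 228) (.e (nat_lit 786473) (nat_lit 27) (.e (nat_lit 336121) (nat_lit 9) (.e (nat_lit 336329) (nat_lit 19) .nil))))) .nil))) (.nd (nat_lit 5) 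
(.lf (nat_lit 206366) (.g (nat_lit 894) (.e (nat_lit 81924) (nat_lit 0) (.e (nat_lit 3631) (nat_lit 227) (.e (nat_lit 778327) (nat_lit 6) (.e (nat_lit 81922) (nat_lit 0) (.e (nat_lit 3629) (nat_lit 227) .nil))))) .nil)) 
(.lf (nat_lit 206398) (.g (nat_lit 1414) (.e (nat_lit 81924) (nat_lit 0) (.e (nat_lit 3747) (nat_lit 228) (.e (nat_lit 786481) (nat_lit 30) (.e (nat_lit 360455) (nat_lit 0) (.e (nat_lit 5813) (nat_lit 320) (.e (nat_lit 7936) (nat_lit 90) .nil)))))) (.g (nat_lit 5) .nil .nil)))))))) (.nd (nat_lit 1) (.nd (nat_lit 2) (.nd (nat_lit 3) (.nd (nat_lit 4) (.nd (nat_lit 5) 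
(.lf (nat_lit 206337) (.g (nat_lit 585) (.e (nat_lit 81924) (nat_lit 0) (.e (nat_lit 3305) (nat_lit 202) (.e (nat_lit 573460) (nat_lit 9) .nil))) .nil)) 
(.lf (nat_lit 206369) (.g (nat_lit 3524) (.e (nat_lit 81924) (nat_lit 0) (.e (nat_lit 3631) (nat_lit 227) (.e (nat_lit 778327) (nat_lit 6) (.e (nat_lit 81957) (nat_lit 24) (.e (nat_lit 123182) (nat_lit 264) (.e (nat_lit 1222) (nat_lit 90) .nil)))))) (.g (nat_lit 0) .nil .nil)))) (.nd (nat_lit 5) 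
(.lf (nat_lit 206353) (.g (nat_lit 1400) (.e (nat_lit 81924) (nat_lit 0) (.e (nat_lit 3629) (nat_lit 227) (.e (nat_lit 778327) (nat_lit 6) (.e (nat_lit 81946) (nat_lit 20) (.e (nat_lit 2006) (nat_lit 138) (.e (nat_lit 671764) (nat_lit 6) .nil)))))) (.g (nat_lit 0) .nil .nil))) 
(.lf (nat_lit 206385) (.g (nat_lit 1298) (.e (nat_lit 81924) (nat_lit 0) (.e (nat_lit 3747) (nat_lit 228) (.e (nat_lit 786478) (nat_lit 29) (.e (nat_lit 352270) (nat_lit 8) (.e (nat_lit 270080) (nat_lit 6) .nil))))) (.g (nat_lit 4) .nil .nil))))) (.nd (nat_lit 4) (.nd (nat_lit 5) 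
(.lf (nat_lit 206345) (.g (nat_lit 1116) (.e (nat_lit 81924) (nat_lit 0) (.e (nat_lit 3629) (nat_lit 227) (.e (nat_lit 778326) (nat_lit 6) (.e (nat_lit 81943) (nat_lit 20) (.e (nat_lit 2006) (nat_lit 138) (.e (nat_lit 671764) (nat_lit 6) .nil)))))) (.g (nat_lit 0) .nil .nil))) 
(.lf (nat_lit 206377) (.g (nat_lit 1688) (.e (nat_lit 81924) (nat_lit 0) (.e (nat_lit 3632) (nat_lit 227) (.e (nat_lit 778327) (nat_lit 6) (.e (nat_lit 81949) (nat_lit 21) (.e (nat_lit 57870) (nat_lit 264) (.e (nat_lit 1219) (nat_lit 90) .nil)))))) (.g (nat_lit 5) .nil .nil)))) (.nd (nat_lit 5) 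
(.lf (nat_lit 206361) (.g (nat_lit 2033) (.e (nat_lit 81924) (nat_lit 0) (.e (nat_lit 3631) (nat_lit 227) (.e (nat_lit 778326) (nat_lit 6) (.e (nat_lit 81950) (nat_lit 21) (.e (nat_lit 57870) (nat_lit 264) (.e (nat_lit 1219) (nat_lit 90) .nil)))))) (.g (nat_lit 0) .nil .nil))) 
(.lf (nat_lit 206393) (.g (nat_lit 1523) (.e (nat_lit 81924) (nat_lit 0) (.e (nat_lit 3747) (nat_lit 228) (.e (nat_lit 786480) (nat_lit 29) (.e (nat_lit 352285) (nat_lit 20) .nil)))) .nil))))) (.nd (nat_lit 3) (.nd (nat_lit 4) (.nd (nat_lit 5) 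
(.lf (nat_lit 206341) (.g (nat_lit 2271) (.e (nat_lit 81924) (nat_lit 0) (.e (nat_lit 3305) (nat_lit 202) (.e (nat_lit 573491) (nat_lit 15) (.e (nat_lit 81957) (nat_lit 24) (.e (nat_lit 130816) (nat_lit 140) .nil))))) .nil)) 
(.lf (nat_lit 206373) (.g (nat_lit 1200) (.e (nat_lit 81924) (nat_lit 0) (.e (nat_lit 3632) (nat_lit 227) (.e (nat_lit 778326) (nat_lit 6) (.e (nat_lit 81922) (nat_lit 0) (.e (nat_lit 3630) (nat_lit 227) .nil))))) .nil))) (.nd (nat_lit 5) 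
(.lf (nat_lit 206357) (.g (nat_lit 2584) (.e (nat_lit 81924) (nat_lit 0) (.e (nat_lit 3631) (nat_lit 227) (.e (nat_lit 778320) (nat_lit 4) (.e (nat_lit 65624) (nat_lit 12) (.e (nat_lit 385093) (nat_lit 49) (.e (nat_lit 778326) (nat_lit 6) .nil)))))) (.g (nat_lit 6) .nil .nil))) 
(.lf (nat_lit 206389) (.g (nat_lit 1221) (.e (nat_lit 81924) (nat_lit 0) (.e (nat_lit 3747) (nat_lit 228) (.e (nat_lit 786478) (nat_lit 29) (.e (nat_lit 352317) (nat_lit 24) .nil)))) .nil)))) (.nd (nat_lit 4) (.nd (nat_lit 5) 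
(.lf (nat_lit 206349) (.g (nat_lit 2787) (.e (nat_lit 81924) (nat_lit 0) (.e (nat_lit 3629) (nat_lit 227) (.e (nat_lit 778326) (nat_lit 6) (.e (nat_lit 81959) (nat_lit 24) (.e (nat_lit 123182) (nat_lit 264) (.e (nat_lit 1222) (nat_lit 90) .nil)))))) (.g (nat_lit 0) .nil .nil))) 
(.lf (nat_lit 206381) (.g (nat_lit 1135) (.e (nat_lit 81924) (nat_lit 0) (.e (nat_lit 3747) (nat_lit 228) (.e (nat_lit 786473) (nat_lit 27) (.e (nat_lit 336119) (nat_lit 9) (.e (nat_lit 336329) (nat_lit 19) .nil))))) .nil))) (.nd (nat_lit 5) 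
(.lf (nat_lit 206365) (.g (nat_lit 811) (.e (nat_lit 81924) (nat_lit 0) (.e (nat_lit 3631) (nat_lit 227) (.e (nat_lit 778327) (nat_lit 6) (.e (nat_lit 81920) (nat_lit 0) (.e (nat_lit 3714) (nat_lit 227) .nil))))) .nil)) 
(.lf (nat_lit 206397) (.g (nat_lit 418) (.e (nat_lit 81924) (nat_lit 0) (.e (nat_lit 3747) (nat_lit 228) (.e (nat_lit 786481) (nat_lit 30) .nil))) .nil)))))) (.nd (nat_lit 2) (.nd (nat_lit 3) (.nd (nat_lit 4) (.nd (nat_lit 5) 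
(.lf (nat_lit 206339) (.g (nat_lit 2350) (.e (nat_lit 81924) (nat_lit 0) (.e (nat_lit 3305) (nat_lit 202) (.e (nat_lit 573487) (nat_lit 14) (.e (nat_lit 73792) (nat_lit 45) (.e (nat_lit 1140) (nat_lit 84) (.e (nat_lit 32789) (nat_lit 11) .nil)))))) (.g (nat_lit 6) .nil .nil))) 
(.lf (nat_lit 206371) (.g (nat_lit 2466) (.e (nat_lit 81924) (nat_lit 0) (.e (nat_lit 3631) (nat_lit 227) (.e (nat_lit 778327) (nat_lit 6) (.e (nat_lit 81957) (nat_lit 24) (.e (nat_lit 123185) (nat_lit 264) (.e (nat_lit 1222) (nat_lit 90) .nil)))))) (.g (nat_lit 0) .nil .nil)))) (.nd (nat_lit 5) 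
(.lf (nat_lit 206355) (.g (nat_lit 2621) (.e (nat_lit 81924) (nat_lit 0) (.e (nat_lit 3630) (nat_lit 227) (.e (nat_lit 778326) (nat_lit 6) (.e (nat_lit 81959) (nat_lit 24) (.e (nat_lit 123184) (nat_lit 264) (.e (nat_lit 1222) (nat_lit 90) .nil)))))) (.g (nat_lit 0) .nil .nil))) 
(.lf (nat_lit 206387) (.g (nat_lit 1122) (.e (nat_lit 81924) (nat_lit 0) (.e (nat_lit 3747) (nat_lit 228) (.e (nat_lit 786478) (nat_lit 29) (.e (nat_lit 352287) (nat_lit 20) (.e (nat_lit 1999) (nat_lit 137) .nil))))) .nil)))) (.nd (nat_lit 4) (.nd (nat_lit 5) 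
(.lf (nat_lit 206347) (.g (nat_lit 2266) (.e (nat_lit 81924) (nat_lit 0) (.e (nat_lit 3629) (nat_lit 227) (.e (nat_lit 778326) (nat_lit 6) (.e (nat_lit 81950) (nat_lit 21) (.e (nat_lit 57872) (nat_lit 264) (.e (nat_lit 1219) (nat_lit 90) .nil)))))) (.g (nat_lit 0) .nil .nil))) 
(.lf (nat_lit 206379) (.g (nat_lit 526) (.e (nat_lit 81924) (nat_lit 0) (.e (nat_lit 3747) (nat_lit 228) (.e (nat_lit 786467) (nat_lit 27) (.e (nat_lit 336099) (nat_lit 9) .nil)))) .nil))) (.nd (nat_lit 5) 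
(.lf (nat_lit 206363) (.g (nat_lit 2983) (.e (nat_lit 81924) (nat_lit 0) (.e (nat_lit 3631) (nat_lit 227) (.e (nat_lit 778326) (nat_lit 6) (.e (nat_lit 81959) (nat_lit 24) (.e (nat_lit 123184) (nat_lit 264) (.e (nat_lit 1222) (nat_lit 90) .nil)))))) (.g (nat_lit 0) .nil .nil))) 
(.lf (nat_lit 206395) (.g (nat_lit 2083) (.e (nat_lit 81924) (nat_lit 0) (.e (nat_lit 3747) (nat_lit 228) (.e (nat_lit 786480) (nat_lit 29) (.e (nat_lit 352316) (nat_lit 24) (.e (nat_lit 123185) (nat_lit 264) .nil))))) .nil))))) (.nd (nat_lit 3) (.nd (nat_lit 4) (.nd (nat_lit 5) 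
(.lf (nat_lit 206343) (.g (nat_lit 1663) (.e (nat_lit 81924) (nat_lit 0) (.e (nat_lit 3629) (nat_lit 227) (.e (nat_lit 778321) (nat_lit 4) (.e (nat_lit 65623) (nat_lit 12) (.e (nat_lit 385094) (nat_lit 49) (.e (nat_lit 778326) (nat_lit 6) .nil)))))) (.g (nat_lit 6) .nil .nil))) 
(.lf (nat_lit 206375) (.g (nat_lit 2134) (.e (nat_lit 81924) (nat_lit 0) (.e (nat_lit 3632) (nat_lit 227) (.e (nat_lit 778326) (nat_lit 6) (.e (nat_lit 81950) (nat_lit 21) (.e (nat_lit 57870) (nat_lit 264) (.e (nat_lit 1219) (nat_lit 90) .nil)))))) (.g (nat_lit 0) .nil .nil)))) (.nd (nat_lit 5) 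
(.lf (nat_lit 206359) (.g (nat_lit 1779) (.e (nat_lit 81924) (nat_lit 0) (.e (nat_lit 3631) (nat_lit 227) (.e (nat_lit 778326) (nat_lit 6) (.e (nat_lit 81935) (nat_lit 20) (.e (nat_lit 1999) (nat_lit 137) (.e (nat_lit 663569) (nat_lit 6) .nil)))))) (.g (nat_lit 0) .nil .nil))) 
(.lf (nat_lit 206391) (.g (nat_lit 430) (.e (nat_lit 81924) (nat_lit 0) (.e (nat_lit 3747) (nat_lit 228) (.e (nat_lit 786480) (nat_lit 29) .nil))) .nil)))) (.nd (nat_lit 4) (.nd (nat_lit 5) 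
(.lf (nat_lit 206351) (.g (nat_lit 359) (.e (nat_lit 81924) (nat_lit 0) (.e (nat_lit 3629) (nat_lit 227) (.e (nat_lit 778327) (nat_lit 6) (.e (nat_lit 81920) (nat_lit 0) .nil)))) .nil)) 
(.lf (nat_lit 206383) (.g (nat_lit 829) (.e (nat_lit 81924) (nat_lit 0) (.e (nat_lit 3747) (nat_lit 228) (.e (nat_lit 786473) (nat_lit 27) (.e (nat_lit 343808) (nat_lit 12) .nil)))) .nil))) (.nd (nat_lit 5) 
(.lf (nat_lit 206367) (.g (nat_lit 1952) (.e (nat_lit 81924) (nat_lit 0) (.e (nat_lit 3631) (nat_lit 227) (.e (nat_lit 778327) (nat_lit 6) (.e (nat_lit 81946) (nat_lit 20) (.e (nat_lit 2005) (nat_lit 138) (.e (nat_lit 671764) (nat_lit 6) .nil)))))) (.g (nat_lit 0) .nil .nil))) 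
(.lf (nat_lit 206399) (.g (nat_lit 858) (.e (nat_lit 81924) (nat_lit 0) (.e (nat_lit 3747) (nat_lit 228) (.e (nat_lit 786481) (nat_lit 30) (.e (nat_lit 368384) (nat_lit 0) .nil)))) .nil))))))))

noncomputable def tv2724 : DT := (.nd (nat_lit 0) (.nd (nat_lit 1) (.nd (nat_lit 2) (.nd (nat_lit 3) (.nd (nat_lit 4) (.nd (nat_lit 5) 
(.lf (nat_lit 206400) (.g (nat_lit 648) (.e (nat_lit 81924) (nat_lit 0) (.e (nat_lit 3747) (nat_lit 228) (.e (nat_lit 786482) (nat_lit 30) .nil))) .nil)) 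
(.lf (nat_lit 206432) (.g (nat_lit 2846) (.e (nat_lit 81924) (nat_lit 0) (.e (nat_lit 3748) (nat_lit 228) (.e (nat_lit 786483) (nat_lit 30) (.e (nat_lit 360454) (nat_lit 0) (.e (nat_lit 5907) (nat_lit 320) (.e (nat_lit 1219) (nat_lit 90) .nil)))))) (.g (nat_lit 6) .nil .nil)))) (.nd (nat_lit 5) 
(.lf (nat_lit 206416) (.g (nat_lit 1048) (.e (nat_lit 81924) (nat_lit 0) (.e (nat_lit 3748) (nat_lit 228) (.e (nat_lit 786478) (nat_lit 29) (.e (nat_lit 352270) (nat_lit 8) (.e (nat_lit 270080) (nat_lit 6) .nil))))) (.g (nat_lit 4) .nil .nil))) 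
(.lf (nat_lit 206448) (.g (nat_lit 3014) (.e (nat_lit 89856) (nat_lit 0) (.e (nat_lit 3302) (nat_lit 202) (.e (nat_lit 573492) (nat_lit 15) (.e (nat_lit 81950) (nat_lit 21) (.e (nat_lit 57639) (nat_lit 140) .nil))))) .nil)))) (.nd (nat_lit 4) (.nd (nat_lit 5) 
(.lf (nat_lit 206408) (.g (nat_lit 1802) (.e (nat_lit 81924) (nat_lit 0) (.e (nat_lit 3747) (nat_lit 228) (.e (nat_lit 786483) (nat_lit 30) (.e (nat_lit 360451) (nat_lit 0) (.e (nat_lit 5898) (nat_lit 320) (.e (nat_lit 1218) (nat_lit 90) .nil)))))) (.g (nat_lit 4) .nil .nil))) 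
(.lf (nat_lit 206440) (.g (nat_lit 791) (.e (nat_lit 89856) (nat_lit 0) (.e (nat_lit 3244) (nat_lit 197) (.e (nat_lit 532510) (nat_lit 2) (.e (nat_lit 106534) (nat_lit 11) (.e (nat_lit 16413) (nat_lit 2) .nil))))) .nil))) (.nd (nat_lit 5) 
(.lf (nat_lit 206424) (.g (nat_lit 3436) (.e (nat_lit 81924) (nat_lit 0) (.e (nat_lit 3748) (nat_lit 228) (.e (nat_lit 786480) (nat_lit 29) (.e (nat_lit 352318) (nat_lit 24) (.e (nat_lit 123182) (nat_lit 264) (.e (nat_lit 1222) (nat_lit 90) .nil)))))) (.g (nat_lit 0) .nil .nil))) 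
(.lf (nat_lit 206456) (.g (nat_lit 812) (.e (nat_lit 89856) (nat_lit 0) (.e (nat_lit 3604) (nat_lit 225) (.e (nat_lit 761914) (nat_lit 18) (.e (nat_lit 196352) (nat_lit 0) .nil)))) .nil))))) (.nd (nat_lit 3) (.nd (nat_lit 4) (.nd (nat_lit 5) 
(.lf (nat_lit 206404) (.g (nat_lit 2405) (.e (nat_lit 81924) (nat_lit 0) (.e (nat_lit 3747) (nat_lit 228) (.e (nat_lit 786483) (nat_lit 30) (.e (nat_lit 360450) (nat_lit 0) (.e (nat_lit 5898) (nat_lit 320) (.e (nat_lit 7936) (nat_lit 90) .nil)))))) (.g (nat_lit 5) .nil .nil))) 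
(.lf (nat_lit 206436) (.g (nat_lit 1943) (.e (nat_lit 89856) (nat_lit 0) (.e (nat_lit 3211) (nat_lit 195) (.e (nat_lit 516151) (nat_lit 9) (.e (nat_lit 426170) (nat_lit 7) (.e (nat_lit 409634) (nat_lit 13) .nil))))) .nil))) (.nd (nat_lit 5) 
(.lf (nat_lit 206420) (.g (nat_lit 2710) (.e (nat_lit 81924) (nat_lit 0) (.e (nat_lit 3748) (nat_lit 228) (.e (nat_lit 786478) (nat_lit 29) (.e (nat_lit 352318) (nat_lit 24) (.e (nat_lit 123184) (nat_lit 264) (.e (nat_lit 1222) (nat_lit 90) .nil)))))) (.g (nat_lit 6) .nil .nil))) 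
(.lf (nat_lit 206452) (.g (nat_lit 1232) (.e (nat_lit 89856) (nat_lit 0) (.e (nat_lit 3604) (nat_lit 225) (.e (nat_lit 761905) (nat_lit 16) (.e (nat_lit 172118) (nat_lit 12) .nil)))) .nil)))) (.nd (nat_lit 4) (.nd (nat_lit 5) 
(.lf (nat_lit 206412) (.g (nat_lit 1480) (.e (nat_lit 81924) (nat_lit 0) (.e (nat_lit 3747) (nat_lit 228) (.e (nat_lit 786483) (nat_lit 30) (.e (nat_lit 360455) (nat_lit 0) .nil)))) .nil)) 
(.lf (nat_lit 206444) (.g (nat_lit 2419) (.e (nat_lit 89856) (nat_lit 0) (.e (nat_lit 3302) (nat_lit 202) (.e (nat_lit 573482) (nat_lit 13) (.e (nat_lit 65624) (nat_lit 12) (.e (nat_lit 385074) (nat_lit 31) .nil))))) .nil))) (.nd (nat_lit 5) 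
(.lf (nat_lit 206428) (.g (nat_lit 1791) (.e (nat_lit 81924) (nat_lit 0) (.e (nat_lit 3748) (nat_lit 228) (.e (nat_lit 786483) (nat_lit 30) (.e (nat_lit 360450) (nat_lit 0) (.e (nat_lit 5898) (nat_lit 320) .nil))))) .nil)) 
(.lf (nat_lit 206460) (.g (nat_lit 2185) (.e (nat_lit 89856) (nat_lit 0) (.e (nat_lit 3605) (nat_lit 225) (.e (nat_lit 761905) (nat_lit 16) (.e (nat_lit 172120) (nat_lit 12) (.e (nat_lit 475193) (nat_lit 38) .nil))))) .nil)))))) (.nd (nat_lit 2) (.nd (nat_lit 3) (.nd (nat_lit 4) (.nd (nat_lit 5) 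
(.lf (nat_lit 206402) (.g (nat_lit 1258) (.e (nat_lit 81924) (nat_lit 0) (.e (nat_lit 3747) (nat_lit 228) (.e (nat_lit 786483) (nat_lit 30) (.e (nat_lit 360448) (nat_lit 0) .nil)))) .nil)) 
(.lf (nat_lit 206434) (.g (nat_lit 1382) (.e (nat_lit 89856) (nat_lit 0) (.e (nat_lit 3209) (nat_lit 195) (.e (nat_lit 516151) (nat_lit 9) (.e (nat_lit 426170) (nat_lit 7) .nil)))) .nil))) (.nd (nat_lit 5) 
(.lf (nat_lit 206418) (.g (nat_lit 1009) (.e (nat_lit 81924) (nat_lit 0) (.e (nat_lit 3748) (nat_lit 228) (.e (nat_lit 786478) (nat_lit 29) (.e (nat_lit 352317) (nat_lit 24) .nil)))) .nil)) 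
(.lf (nat_lit 206450) (.g (nat_lit 1960) (.e (nat_lit 89856) (nat_lit 0) (.e (nat_lit 3308) (nat_lit 202) (.e (nat_lit 573482) (nat_lit 13) (.e (nat_lit 65630) (nat_lit 14) (.e (nat_lit 401425) (nat_lit 2) .nil))))) .nil)))) (.nd (nat_lit 4) (.nd (nat_lit 5) 
(.lf (nat_lit 206410) (.g (nat_lit 2033) (.e (nat_lit 81924) (nat_lit 0) (.e (nat_lit 3747) (nat_lit 228) (.e (nat_lit 786483) (nat_lit 30) (.e (nat_lit 360451) (nat_lit 0) (.e (nat_lit 7936) (nat_lit 320) (.e (nat_lit 1216) (nat_lit 90) .nil)))))) (.g (nat_lit 4) .nil .nil))) 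
(.lf (nat_lit 206442) (.g (nat_lit 1223) (.e (nat_lit 89856) (nat_lit 0) (.e (nat_lit 3253) (nat_lit 197) (.e (nat_lit 532508) (nat_lit 2) (.e (nat_lit 106534) (nat_lit 11) (.e (nat_lit 16413) (nat_lit 2) .nil))))) .nil))) (.nd (nat_lit 5) 
(.lf (nat_lit 206426) (.g (nat_lit 1409) (.e (nat_lit 81924) (nat_lit 0) (.e (nat_lit 3748) (nat_lit 228) (.e (nat_lit 786483) (nat_lit 30) (.e (nat_lit 360448) (nat_lit 0) .nil)))) .nil)) 
(.lf (nat_lit 206458) (.g (nat_lit 1443) (.e (nat_lit 89856) (nat_lit 0) (.e (nat_lit 3605) (nat_lit 225) (.e (nat_lit 761905) (nat_lit 16) (.e (nat_lit 172118) (nat_lit 12) .nil)))) .nil))))) (.nd (nat_lit 3) (.nd (nat_lit 4) (.nd (nat_lit 5) 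
(.lf (nat_lit 206406) (.g (nat_lit 1025) (.e (nat_lit 81924) (nat_lit 0) (.e (nat_lit 3747) (nat_lit 228) (.e (nat_lit 786483) (nat_lit 30) (.e (nat_lit 360451) (nat_lit 0) .nil)))) .nil)) 
(.lf (nat_lit 206438) (.g (nat_lit 1067) (.e (nat_lit 89856) (nat_lit 0) (.e (nat_lit 3238) (nat_lit 197) (.e (nat_lit 532511) (nat_lit 2) (.e (nat_lit 106534) (nat_lit 11) (.e (nat_lit 16413) (nat_lit 2) .nil))))) .nil))) (.nd (nat_lit 5) 
(.lf (nat_lit 206422) (.g (nat_lit 1155) (.e (nat_lit 81924) (nat_lit 0) (.e (nat_lit 3748) (nat_lit 228) (.e (nat_lit 786480) (nat_lit 29) (.e (nat_lit 352316) (nat_lit 24) .nil)))) .nil)) 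
(.lf (nat_lit 206454) (.g (nat_lit 1694) (.e (nat_lit 89856) (nat_lit 0) (.e (nat_lit 3604) (nat_lit 225) (.e (nat_lit 761906) (nat_lit 16) (.e (nat_lit 172119) (nat_lit 12) (.e (nat_lit 475193) (nat_lit 38) .nil))))) .nil)))) (.nd (nat_lit 4) (.nd (nat_lit 5) 
(.lf (nat_lit 206414) (.g (nat_lit 1151) (.e (nat_lit 81924) (nat_lit 0) (.e (nat_lit 3747) (nat_lit 228) (.e (nat_lit 786483) (nat_lit 30) (.e (nat_lit 368384) (nat_lit 0) .nil)))) .nil)) 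
(.lf (nat_lit 206446) (.g (nat_lit 1255) (.e (nat_lit 89856) (nat_lit 0) (.e (nat_lit 3302) (nat_lit 202) (.e (nat_lit 573488) (nat_lit 14) (.e (nat_lit 81664) (nat_lit 35) .nil)))) .nil))) (.nd (nat_lit 5) 
(.lf (nat_lit 206430) (.g (nat_lit 2146) (.e (nat_lit 81924) (nat_lit 0) (.e (nat_lit 3748) (nat_lit 228) (.e (nat_lit 786483) (nat_lit 30) (.e (nat_lit 360451) (nat_lit 0) (.e (nat_lit 5898) (nat_lit 320) (.e (nat_lit 7936) (nat_lit 90) .nil)))))) (.g (nat_lit 5) .nil .nil))) 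
(.lf (nat_lit 206462) (.g (nat_lit 949) (.e (nat_lit 89856) (nat_lit 0) (.e (nat_lit 3605) (nat_lit 225) (.e (nat_lit 761912) (nat_lit 18) (.e (nat_lit 196352) (nat_lit 0) .nil)))) .nil))))))) (.nd (nat_lit 1) (.nd (nat_lit 2) (.nd (nat_lit 3) (.nd (nat_lit 4) (.nd (nat_lit 5) 
(.lf (nat_lit 206401) (.g (nat_lit 409) (.e (nat_lit 81924) (nat_lit 0) (.e (nat_lit 3747) (nat_lit 228) (.e (nat_lit 786483) (nat_lit 30) .nil))) .nil)) 
(.lf (nat_lit 206433) (.g (nat_lit 1435) (.e (nat_lit 81924) (nat_lit 0) (.e (nat_lit 3748) (nat_lit 228) (.e (nat_lit 786483) (nat_lit 30) (.e (nat_lit 360455) (nat_lit 0) .nil)))) .nil))) (.nd (nat_lit 5) 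
(.lf (nat_lit 206417) (.g (nat_lit 1414) (.e (nat_lit 81924) (nat_lit 0) (.e (nat_lit 3748) (nat_lit 228) (.e (nat_lit 786478) (nat_lit 29) (.e (nat_lit 352309) (nat_lit 21) (.e (nat_lit 57870) (nat_lit 264) (.e (nat_lit 1219) (nat_lit 90) .nil)))))) (.g (nat_lit 4) .nil .nil))) 
(.lf (nat_lit 206449) (.g (nat_lit 953) (.e (nat_lit 89856) (nat_lit 0) (.e (nat_lit 3308) (nat_lit 202) (.e (nat_lit 573482) (nat_lit 13) (.e (nat_lit 65628) (nat_lit 14) .nil)))) .nil)))) (.nd (nat_lit 4) (.nd (nat_lit 5) 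
(.lf (nat_lit 206409) (.g (nat_lit 2348) (.e (nat_lit 81924) (nat_lit 0) (.e (nat_lit 3747) (nat_lit 228) (.e (nat_lit 786483) (nat_lit 30) (.e (nat_lit 360451) (nat_lit 0) (.e (nat_lit 5898) (nat_lit 320) (.e (nat_lit 7936) (nat_lit 90) .nil)))))) (.g (nat_lit 5) .nil .nil))) 
(.lf (nat_lit 206441) (.g (nat_lit 954) (.e (nat_lit 89856) (nat_lit 0) (.e (nat_lit 3246) (nat_lit 197) (.e (nat_lit 532511) (nat_lit 2) (.e (nat_lit 106536) (nat_lit 11) (.e (nat_lit 16413) (nat_lit 2) .nil))))) .nil))) (.nd (nat_lit 5) 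
(.lf (nat_lit 206425) (.g (nat_lit 1043) (.e (nat_lit 81924) (nat_lit 0) (.e (nat_lit 3748) (nat_lit 228) (.e (nat_lit 786481) (nat_lit 30) (.e (nat_lit 360455) (nat_lit 0) (.e (nat_lit 5813) (nat_lit 320) (.e (nat_lit 7936) (nat_lit 90) .nil)))))) (.g (nat_lit 5) .nil .nil))) 
(.lf (nat_lit 206457) (.g (nat_lit 1609) (.e (nat_lit 89856) (nat_lit 0) (.e (nat_lit 3604) (nat_lit 225) (.e (nat_lit 761914) (nat_lit 18) (.e (nat_lit 188446) (nat_lit 21) (.e (nat_lit 164309) (nat_lit 226) .nil))))) .nil))))) (.nd (nat_lit 3) (.nd (nat_lit 4) (.nd (nat_lit 5) 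
(.lf (nat_lit 206405) (.g (nat_lit 1546) (.e (nat_lit 81924) (nat_lit 0) (.e (nat_lit 3747) (nat_lit 228) (.e (nat_lit 786483) (nat_lit 30) (.e (nat_lit 360450) (nat_lit 0) (.e (nat_lit 7936) (nat_lit 320) .nil))))) .nil)) 
(.lf (nat_lit 206437) (.g (nat_lit 1223) (.e (nat_lit 89856) (nat_lit 0) (.e (nat_lit 3238) (nat_lit 197) (.e (nat_lit 532510) (nat_lit 2) (.e (nat_lit 106536) (nat_lit 11) (.e (nat_lit 16413) (nat_lit 2) .nil))))) .nil))) (.nd (nat_lit 5) 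
(.lf (nat_lit 206421) (.g (nat_lit 3463) (.e (nat_lit 81924) (nat_lit 0) (.e (nat_lit 3748) (nat_lit 228) (.e (nat_lit 786480) (nat_lit 29) (.e (nat_lit 352309) (nat_lit 21) (.e (nat_lit 57872) (nat_lit 264) (.e (nat_lit 1219) (nat_lit 90) .nil)))))) (.g (nat_lit 0) .nil .nil))) 
(.lf (nat_lit 206453) (.g (nat_lit 1255) (.e (nat_lit 89856) (nat_lit 0) (.e (nat_lit 3604) (nat_lit 225) (.e (nat_lit 761905) (nat_lit 16) (.e (nat_lit 172120) (nat_lit 12) .nil)))) .nil)))) (.nd (nat_lit 4) (.nd (nat_lit 5) 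
(.lf (nat_lit 206413) (.g (nat_lit 3251) (.e (nat_lit 81924) (nat_lit 0) (.e (nat_lit 3747) (nat_lit 228) (.e (nat_lit 786483) (nat_lit 30) (.e (nat_lit 360457) (nat_lit 0) (.e (nat_lit 5818) (nat_lit 320) (.e (nat_lit 1222) (nat_lit 90) .nil)))))) (.g (nat_lit 0) .nil .nil))) 
(.lf (nat_lit 206445) (.g (nat_lit 1294) (.e (nat_lit 89856) (nat_lit 0) (.e (nat_lit 3302) (nat_lit 202) (.e (nat_lit 573487) (nat_lit 14) (.e (nat_lit 81664) (nat_lit 35) .nil)))) .nil))) (.nd (nat_lit 5) 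
(.lf (nat_lit 206429) (.g (nat_lit 2056) (.e (nat_lit 81924) (nat_lit 0) (.e (nat_lit 3748) (nat_lit 228) (.e (nat_lit 786483) (nat_lit 30) (.e (nat_lit 360451) (nat_lit 0) (.e (nat_lit 5896) (nat_lit 320) (.e (nat_lit 7936) (nat_lit 90) .nil)))))) (.g (nat_lit 5) .nil .nil))) 
(.lf (nat_lit 206461) (.g (nat_lit 1956) (.e (nat_lit 89856) (nat_lit 0) (.e (nat_lit 3605) (nat_lit 225) (.e (nat_lit 761906) (nat_lit 16) (.e (nat_lit 172119) (nat_lit 12) (.e (nat_lit 475193) (nat_lit 38) .nil))))) .nil)))))) (.nd (nat_lit 2) (.nd (nat_lit 3) (.nd (nat_lit 4) (.nd (nat_lit 5) 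
(.lf (nat_lit 206403) (.g (nat_lit 1864) (.e (nat_lit 81924) (nat_lit 0) (.e (nat_lit 3747) (nat_lit 228) (.e (nat_lit 786483) (nat_lit 30) (.e (nat_lit 360450) (nat_lit 0) (.e (nat_lit 5898) (nat_lit 320) .nil))))) .nil)) 
(.lf (nat_lit 206435) (.g (nat_lit 1490) (.e (nat_lit 89856) (nat_lit 0) (.e (nat_lit 3209) (nat_lit 195) (.e (nat_lit 516151) (nat_lit 9) (.e (nat_lit 426171) (nat_lit 7) .nil)))) .nil))) (.nd (nat_lit 5) 
(.lf (nat_lit 206419) (.g (nat_lit 2839) (.e (nat_lit 81924) (nat_lit 0) (.e (nat_lit 3748) (nat_lit 228) (.e (nat_lit 786478) (nat_lit 29) (.e (nat_lit 352318) (nat_lit 24) (.e (nat_lit 123182) (nat_lit 264) (.e (nat_lit 1222) (nat_lit 90) .nil)))))) (.g (nat_lit 6) .nil .nil))) 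
(.lf (nat_lit 206451) (.g (nat_lit 1197) (.e (nat_lit 89856) (nat_lit 0) (.e (nat_lit 3309) (nat_lit 202) (.e (nat_lit 573488) (nat_lit 14) (.e (nat_lit 81664) (nat_lit 35) .nil)))) .nil)))) (.nd (nat_lit 4) (.nd (nat_lit 5) 
(.lf (nat_lit 206411) (.g (nat_lit 3151) (.e (nat_lit 81924) (nat_lit 0) (.e (nat_lit 3747) (nat_lit 228) (.e (nat_lit 786483) (nat_lit 30) (.e (nat_lit 360452) (nat_lit 0) (.e (nat_lit 5907) (nat_lit 320) (.e (nat_lit 1219) (nat_lit 90) .nil)))))) (.g (nat_lit 5) .nil .nil))) 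
(.lf (nat_lit 206443) (.g (nat_lit 1830) (.e (nat_lit 89856) (nat_lit 0) (.e (nat_lit 3302) (nat_lit 202) (.e (nat_lit 573481) (nat_lit 13) (.e (nat_lit 65619) (nat_lit 10) (.e (nat_lit 344126) (nat_lit 25) .nil))))) .nil))) (.nd (nat_lit 5) 
(.lf (nat_lit 206427) (.g (nat_lit 1086) (.e (nat_lit 81924) (nat_lit 0) (.e (nat_lit 3748) (nat_lit 228) (.e (nat_lit 786483) (nat_lit 30) (.e (nat_lit 360450) (nat_lit 0) .nil)))) .nil)) 
(.lf (nat_lit 206459) (.g (nat_lit 1969) (.e (nat_lit 89856) (nat_lit 0) (.e (nat_lit 3605) (nat_lit 225) (.e (nat_lit 761905) (nat_lit 16) (.e (nat_lit 172119) (nat_lit 12) (.e (nat_lit 475193) (nat_lit 38) .nil))))) .nil))))) (.nd (nat_lit 3) (.nd (nat_lit 4) (.nd (nat_lit 5) 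
(.lf (nat_lit 206407) (.g (nat_lit 2319) (.e (nat_lit 81924) (nat_lit 0) (.e (nat_lit 3747) (nat_lit 228) (.e (nat_lit 786483) (nat_lit 30) (.e (nat_lit 360451) (nat_lit 0) (.e (nat_lit 5896) (nat_lit 320) (.e (nat_lit 7936) (nat_lit 90) .nil)))))) (.g (nat_lit 5) .nil .nil))) 
(.lf (nat_lit 206439) (.g (nat_lit 1219) (.e (nat_lit 89856) (nat_lit 0) (.e (nat_lit 3238) (nat_lit 197) (.e (nat_lit 532511) (nat_lit 2) (.e (nat_lit 106536) (nat_lit 11) (.e (nat_lit 16413) (nat_lit 2) .nil))))) .nil))) (.nd (nat_lit 5) 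
(.lf (nat_lit 206423) (.g (nat_lit 1819) (.e (nat_lit 81924) (nat_lit 0) (.e (nat_lit 3748) (nat_lit 228) (.e (nat_lit 786480) (nat_lit 29) (.e (nat_lit 352316) (nat_lit 24) (.e (nat_lit 123185) (nat_lit 264) .nil))))) .nil)) 
(.lf (nat_lit 206455) (.g (nat_lit 360) (.e (nat_lit 89856) (nat_lit 0) (.e (nat_lit 3604) (nat_lit 225) (.e (nat_lit 761914) (nat_lit 18) .nil))) .nil)))) (.nd (nat_lit 4) (.nd (nat_lit 5) 
(.lf (nat_lit 206415) (.g (nat_lit 573) (.e (nat_lit 81924) (nat_lit 0) (.e (nat_lit 3747) (nat_lit 228) (.e (nat_lit 786485) (nat_lit 32) .nil))) .nil)) 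
(.lf (nat_lit 206447) (.g (nat_lit 1043) (.e (nat_lit 89856) (nat_lit 0) (.e (nat_lit 3302) (nat_lit 202) (.e (nat_lit 573489) (nat_lit 14) (.e (nat_lit 81664) (nat_lit 35) .nil)))) .nil))) (.nd (nat_lit 5) 
(.lf (nat_lit 206431) (.g (nat_lit 2852) (.e (nat_lit 81924) (nat_lit 0) (.e (nat_lit 3748) (nat_lit 228) (.e (nat_lit 786483) (nat_lit 30) (.e (nat_lit 360452) (nat_lit 0) (.e (nat_lit 5907) (nat_lit 320) (.e (nat_lit 1219) (nat_lit 90) .nil)))))) (.g (nat_lit 5) .nil .nil))) 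
(.lf (nat_lit 206463) (.g (nat_lit 499) (.e (nat_lit 89856) (nat_lit 0) (.e (nat_lit 3605) (nat_lit 225) (.e (nat_lit 761913) (nat_lit 18) .nil))) .nil))))))))

noncomputable def tv2725 : DT := (.nd (nat_lit 0) (.nd (nat_lit 1) (.nd (nat_lit 2) (.nd (nat_lit 3) (.nd (nat_lit 4) (.nd (nat_lit 5) (.nd (nat_lit 6) 
(.lf (nat_lit 206464) (.g (nat_lit 1001) (.e (nat_lit 89856) (nat_lit 0) (.e (nat_lit 3605) (nat_lit 225) (.e (nat_lit 761914) (nat_lit 18) (.e (nat_lit 196352) (nat_lit 0) .nil)))) .nil)) 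
(.lf (nat_lit 206528) (.g (nat_lit 253) (.e (nat_lit 89856) (nat_lit 9) (.e (nat_lit 409604) (nat_lit 0) (.e (nat_lit 5411) (nat_lit 303) (.e (nat_lit 73772) (nat_lit 24) (.e (nat_lit 769792) (nat_lit 10) .nil))))) .nil))) (.nd (nat_lit 6) 
(.lf (nat_lit 206496) (.g (nat_lit 317) (.e (nat_lit 89856) (nat_lit 7) (.e (nat_lit 245777) (nat_lit 5) (.e (nat_lit 180288) (nat_lit 45) (.e (nat_lit 2580) (nat_lit 161) (.e (nat_lit 48896) (nat_lit 6) .nil))))) .nil)) 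
(.lf (nat_lit 206560) (.g (nat_lit 880) (.e (nat_lit 89856) (nat_lit 10) (.e (nat_lit 417811) (nat_lit 6) (.e (nat_lit 286749) (nat_lit 9) (.e (nat_lit 335997) (nat_lit 1) .nil)))) .nil)))) (.nd (nat_lit 5) (.nd (nat_lit 6) 
(.lf (nat_lit 206480) (.g (nat_lit 1424) (.e (nat_lit 89856) (nat_lit 5) (.e (nat_lit 221207) (nat_lit 21) (.e (nat_lit 164325) (nat_lit 230) (.e (nat_lit 163939) (nat_lit 18) .nil)))) .nil)) 
(.lf (nat_lit 206544) (.g (nat_lit 1696) (.e (nat_lit 89856) (nat_lit 10) (.e (nat_lit 417796) (nat_lit 0) (.e (nat_lit 5409) (nat_lit 303) (.e (nat_lit 73733) (nat_lit 0) (.e (nat_lit 7145) (nat_lit 382) .nil))))) .nil))) (.nd (nat_lit 6) 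
(.lf (nat_lit 206512) (.g (nat_lit 164) (.e (nat_lit 89856) (nat_lit 8) (.e (nat_lit 262148) (nat_lit 0) (.e (nat_lit 1568) (nat_lit 110) (.e (nat_lit 352270) (nat_lit 8) (.e (nat_lit 270080) (nat_lit 6) .nil))))) .nil)) 
(.lf (nat_lit 206576) (.g (nat_lit 1586) (.e (nat_lit 81925) (nat_lit 11) (.e (nat_lit 426009) (nat_lit 0) (.e (nat_lit 7593) (nat_lit 407) (.e (nat_lit 73729) (nat_lit 0) (.e (nat_lit 7124) (nat_lit 382) (.e (nat_lit 7936) (nat_lit 90) .nil)))))) (.g (nat_lit 5) .nil .nil)))))) (.nd (nat_lit 4) (.nd (nat_lit 5) (.nd (nat_lit 6) 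
(.lf (nat_lit 206472) (.g (nat_lit 170) (.e (nat_lit 89856) (nat_lit 4) (.e (nat_lit 212996) (nat_lit 0) (.e (nat_lit 1558) (nat_lit 110) (.e (nat_lit 360192) (nat_lit 4) .nil)))) .nil)) 
(.lf (nat_lit 206536) (.g (nat_lit 1176) (.e (nat_lit 89856) (nat_lit 10) (.e (nat_lit 417795) (nat_lit 0) (.e (nat_lit 5412) (nat_lit 303) (.e (nat_lit 73732) (nat_lit 0) (.e (nat_lit 7144) (nat_lit 382) .nil))))) .nil))) (.nd (nat_lit 6) 
(.lf (nat_lit 206504) (.g (nat_lit 257) (.e (nat_lit 89856) (nat_lit 8) (.e (nat_lit 262145) (nat_lit 0) (.e (nat_lit 1574) (nat_lit 110) (.e (nat_lit 360192) (nat_lit 4) .nil)))) .nil)) 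
(.lf (nat_lit 206568) (.g (nat_lit 742) (.e (nat_lit 89856) (nat_lit 10) (.e (nat_lit 417811) (nat_lit 6) (.e (nat_lit 286753) (nat_lit 10) (.e (nat_lit 344173) (nat_lit 42) .nil)))) .nil)))) (.nd (nat_lit 5) (.nd (nat_lit 6) 
(.lf (nat_lit 206488) (.g (nat_lit 1452) (.e (nat_lit 89856) (nat_lit 7) (.e (nat_lit 245776) (nat_lit 4) (.e (nat_lit 172115) (nat_lit 10) (.e (nat_lit 434202) (nat_lit 18) (.e (nat_lit 6740) (nat_lit 365) .nil))))) .nil)) 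
(.lf (nat_lit 206552) (.g (nat_lit 603) (.e (nat_lit 89856) (nat_lit 10) (.e (nat_lit 417796) (nat_lit 0) (.e (nat_lit 5413) (nat_lit 303) (.e (nat_lit 73772) (nat_lit 24) (.e (nat_lit 769792) (nat_lit 10) .nil))))) .nil))) (.nd (nat_lit 6) 
(.lf (nat_lit 206520) (.g (nat_lit 2005) (.e (nat_lit 89856) (nat_lit 9) (.e (nat_lit 409602) (nat_lit 0) (.e (nat_lit 5293) (nat_lit 298) (.e (nat_lit 1633) (nat_lit 114) .nil)))) .nil)) 
(.lf (nat_lit 206584) (.g (nat_lit 1882) (.e (nat_lit 81925) (nat_lit 11) (.e (nat_lit 426011) (nat_lit 0) (.e (nat_lit 7591) (nat_lit 407) (.e (nat_lit 73729) (nat_lit 0) (.e (nat_lit 7119) (nat_lit 382) (.e (nat_lit 7936) (nat_lit 90) .nil)))))) (.g (nat_lit 4) .nil .nil))))))) (.nd (nat_lit 3) (.nd (nat_lit 4) (.nd (nat_lit 5) (.nd (nat_lit 6) 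
(.lf (nat_lit 206468) (.g (nat_lit 1212) (.e (nat_lit 89856) (nat_lit 0) (.e (nat_lit 7574) (nat_lit 404) (.e (nat_lit 16433) (nat_lit 9) (.e (nat_lit 426428) (nat_lit 17) .nil)))) .nil)) 
(.lf (nat_lit 206532) (.g (nat_lit 226) (.e (nat_lit 89856) (nat_lit 10) (.e (nat_lit 417795) (nat_lit 0) (.e (nat_lit 5409) (nat_lit 303) .nil))) .nil))) (.nd (nat_lit 6) 
(.lf (nat_lit 206500) (.g (nat_lit 336) (.e (nat_lit 89856) (nat_lit 8) (.e (nat_lit 262145) (nat_lit 0) (.e (nat_lit 1555) (nat_lit 110) (.e (nat_lit 352270) (nat_lit 8) (.e (nat_lit 270080) (nat_lit 6) .nil))))) .nil)) 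
(.lf (nat_lit 206564) (.g (nat_lit 1108) (.e (nat_lit 89856) (nat_lit 10) (.e (nat_lit 417811) (nat_lit 6) (.e (nat_lit 286753) (nat_lit 10) (.e (nat_lit 344088) (nat_lit 18) (.e (nat_lit 7125) (nat_lit 382) .nil))))) .nil)))) (.nd (nat_lit 5) (.nd (nat_lit 6) 
(.lf (nat_lit 206484) (.g (nat_lit 510) (.e (nat_lit 89856) (nat_lit 7) (.e (nat_lit 245776) (nat_lit 4) (.e (nat_lit 172081) (nat_lit 7) (.e (nat_lit 409634) (nat_lit 13) (.e (nat_lit 48896) (nat_lit 6) .nil))))) .nil)) 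
(.lf (nat_lit 206548) (.g (nat_lit 621) (.e (nat_lit 89856) (nat_lit 10) (.e (nat_lit 417796) (nat_lit 0) (.e (nat_lit 5410) (nat_lit 303) (.e (nat_lit 73772) (nat_lit 24) (.e (nat_lit 769792) (nat_lit 10) .nil))))) .nil))) (.nd (nat_lit 6) 
(.lf (nat_lit 206516) (.g (nat_lit 367) (.e (nat_lit 89856) (nat_lit 9) (.e (nat_lit 409602) (nat_lit 0) (.e (nat_lit 5293) (nat_lit 298) .nil))) .nil)) 
(.lf (nat_lit 206580) (.g (nat_lit 1571) (.e (nat_lit 81925) (nat_lit 11) (.e (nat_lit 426010) (nat_lit 0) (.e (nat_lit 7593) (nat_lit 407) (.e (nat_lit 73729) (nat_lit 0) (.e (nat_lit 7124) (nat_lit 382) (.e (nat_lit 7936) (nat_lit 90) .nil)))))) (.g (nat_lit 4) .nil .nil)))))) (.nd (nat_lit 4) (.nd (nat_lit 5) (.nd (nat_lit 6) 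
(.lf (nat_lit 206476) (.g (nat_lit 1167) (.e (nat_lit 89856) (nat_lit 5) (.e (nat_lit 221206) (nat_lit 21) (.e (nat_lit 164325) (nat_lit 230) (.e (nat_lit 163939) (nat_lit 18) .nil)))) .nil)) 
(.lf (nat_lit 206540) (.g (nat_lit 381) (.e (nat_lit 89856) (nat_lit 10) (.e (nat_lit 417796) (nat_lit 0) (.e (nat_lit 5409) (nat_lit 303) .nil))) .nil))) (.nd (nat_lit 6) 
(.lf (nat_lit 206508) (.g (nat_lit 179) (.e (nat_lit 89856) (nat_lit 8) (.e (nat_lit 262148) (nat_lit 0) (.e (nat_lit 1555) (nat_lit 110) (.e (nat_lit 360192) (nat_lit 4) .nil)))) .nil)) 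
(.lf (nat_lit 206572) (.g (nat_lit 1124) (.e (nat_lit 89856) (nat_lit 10) (.e (nat_lit 417811) (nat_lit 6) (.e (nat_lit 286756) (nat_lit 10) (.e (nat_lit 344100) (nat_lit 18) (.e (nat_lit 7147) (nat_lit 382) .nil))))) .nil)))) (.nd (nat_lit 5) (.nd (nat_lit 6) 
(.lf (nat_lit 206492) (.g (nat_lit 365) (.e (nat_lit 89856) (nat_lit 7) (.e (nat_lit 245777) (nat_lit 5) (.e (nat_lit 180285) (nat_lit 45) (.e (nat_lit 2580) (nat_lit 161) (.e (nat_lit 48896) (nat_lit 6) .nil))))) .nil)) 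
(.lf (nat_lit 206556) (.g (nat_lit 458) (.e (nat_lit 89856) (nat_lit 10) (.e (nat_lit 417811) (nat_lit 6) (.e (nat_lit 286740) (nat_lit 7) .nil))) .nil))) (.nd (nat_lit 6) 
(.lf (nat_lit 206524) (.g (nat_lit 1658) (.e (nat_lit 89856) (nat_lit 9) (.e (nat_lit 409603) (nat_lit 0) (.e (nat_lit 5293) (nat_lit 298) (.e (nat_lit 1534) (nat_lit 109) .nil)))) .nil)) 
(.lf (nat_lit 206588) (.g (nat_lit 1705) (.e (nat_lit 81925) (nat_lit 11) (.e (nat_lit 426011) (nat_lit 0) (.e (nat_lit 7591) (nat_lit 407) (.e (nat_lit 73731) (nat_lit 0) (.e (nat_lit 7124) (nat_lit 382) (.e (nat_lit 7936) (nat_lit 90) .nil)))))) (.g (nat_lit 5) .nil .nil)))))))) (.nd (nat_lit 2) (.nd (nat_lit 3) (.nd (nat_lit 4) (.nd (nat_lit 5) (.nd (nat_lit 6) 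
(.lf (nat_lit 206466) (.g (nat_lit 178) (.e (nat_lit 89856) (nat_lit 0) (.e (nat_lit 7082) (nat_lit 378) (.e (nat_lit 57898) (nat_lit 275) (.e (nat_lit 73772) (nat_lit 24) (.e (nat_lit 769792) (nat_lit 10) .nil))))) .nil)) 
(.lf (nat_lit 206530) (.g (nat_lit 522) (.e (nat_lit 89856) (nat_lit 10) (.e (nat_lit 417794) (nat_lit 0) (.e (nat_lit 5412) (nat_lit 303) (.e (nat_lit 73772) (nat_lit 24) (.e (nat_lit 769792) (nat_lit 10) .nil))))) .nil))) (.nd (nat_lit 6) 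
(.lf (nat_lit 206498) (.g (nat_lit 660) (.e (nat_lit 89856) (nat_lit 7) (.e (nat_lit 245778) (nat_lit 6) (.e (nat_lit 188455) (nat_lit 24) (.e (nat_lit 237312) (nat_lit 158) .nil)))) .nil)) 
(.lf (nat_lit 206562) (.g (nat_lit 1773) (.e (nat_lit 89856) (nat_lit 10) (.e (nat_lit 417811) (nat_lit 6) (.e (nat_lit 286749) (nat_lit 9) (.e (nat_lit 335997) (nat_lit 1) (.e (nat_lit 57653) (nat_lit 152) .nil))))) .nil)))) (.nd (nat_lit 5) (.nd (nat_lit 6) 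
(.lf (nat_lit 206482) (.g (nat_lit 764) (.e (nat_lit 89856) (nat_lit 7) (.e (nat_lit 245776) (nat_lit 4) (.e (nat_lit 172079) (nat_lit 7) (.e (nat_lit 409634) (nat_lit 13) (.e (nat_lit 48896) (nat_lit 6) .nil))))) .nil)) 
(.lf (nat_lit 206546) (.g (nat_lit 1208) (.e (nat_lit 89856) (nat_lit 10) (.e (nat_lit 417796) (nat_lit 0) (.e (nat_lit 5409) (nat_lit 303) (.e (nat_lit 73772) (nat_lit 24) (.e (nat_lit 769792) (nat_lit 10) .nil))))) .nil))) (.nd (nat_lit 6) 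
(.lf (nat_lit 206514) (.g (nat_lit 297) (.e (nat_lit 89856) (nat_lit 8) (.e (nat_lit 262148) (nat_lit 0) (.e (nat_lit 1574) (nat_lit 110) (.e (nat_lit 352270) (nat_lit 8) (.e (nat_lit 270080) (nat_lit 6) .nil))))) .nil)) 
(.lf (nat_lit 206578) (.g (nat_lit 778) (.e (nat_lit 81925) (nat_lit 11) (.e (nat_lit 426010) (nat_lit 0) (.e (nat_lit 7591) (nat_lit 407) (.e (nat_lit 73772) (nat_lit 24) (.e (nat_lit 769792) (nat_lit 10) .nil))))) .nil))))) (.nd (nat_lit 4) (.nd (nat_lit 5) (.nd (nat_lit 6) 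
(.lf (nat_lit 206474) (.g (nat_lit 1167) (.e (nat_lit 89856) (nat_lit 5) (.e (nat_lit 221206) (nat_lit 21) (.e (nat_lit 164325) (nat_lit 230) (.e (nat_lit 163937) (nat_lit 18) .nil)))) .nil)) 
(.lf (nat_lit 206538) (.g (nat_lit 772) (.e (nat_lit 89856) (nat_lit 10) (.e (nat_lit 417795) (nat_lit 0) (.e (nat_lit 5412) (nat_lit 303) (.e (nat_lit 73772) (nat_lit 24) (.e (nat_lit 769792) (nat_lit 10) .nil))))) .nil))) (.nd (nat_lit 6) 
(.lf (nat_lit 206506) (.g (nat_lit 353) (.e (nat_lit 89856) (nat_lit 8) (.e (nat_lit 262146) (nat_lit 0) (.e (nat_lit 1555) (nat_lit 110) (.e (nat_lit 352270) (nat_lit 8) (.e (nat_lit 270080) (nat_lit 6) .nil))))) .nil)) 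
(.lf (nat_lit 206570) (.g (nat_lit 1121) (.e (nat_lit 89856) (nat_lit 10) (.e (nat_lit 417811) (nat_lit 6) (.e (nat_lit 286754) (nat_lit 10) (.e (nat_lit 344174) (nat_lit 42) (.e (nat_lit 769792) (nat_lit 10) .nil))))) .nil)))) (.nd (nat_lit 5) (.nd (nat_lit 6) 
(.lf (nat_lit 206490) (.g (nat_lit 160) (.e (nat_lit 89856) (nat_lit 7) (.e (nat_lit 245777) (nat_lit 5) (.e (nat_lit 180284) (nat_lit 45) (.e (nat_lit 2580) (nat_lit 161) (.e (nat_lit 48896) (nat_lit 6) .nil))))) .nil)) 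
(.lf (nat_lit 206554) (.g (nat_lit 1568) (.e (nat_lit 89856) (nat_lit 10) (.e (nat_lit 417810) (nat_lit 6) (.e (nat_lit 286753) (nat_lit 10) (.e (nat_lit 344174) (nat_lit 42) (.e (nat_lit 769792) (nat_lit 10) .nil))))) .nil))) (.nd (nat_lit 6) 
(.lf (nat_lit 206522) (.g (nat_lit 1688) (.e (nat_lit 89856) (nat_lit 9) (.e (nat_lit 409603) (nat_lit 0) (.e (nat_lit 5293) (nat_lit 298) (.e (nat_lit 1530) (nat_lit 109) .nil)))) .nil)) 
(.lf (nat_lit 206586) (.g (nat_lit 1877) (.e (nat_lit 81925) (nat_lit 11) (.e (nat_lit 426011) (nat_lit 0) (.e (nat_lit 7591) (nat_lit 407) (.e (nat_lit 73730) (nat_lit 0) (.e (nat_lit 7122) (nat_lit 382) (.e (nat_lit 7936) (nat_lit 90) .nil)))))) (.g (nat_lit 5) .nil .nil))))))) (.nd (nat_lit 3) (.nd (nat_lit 4) (.nd (nat_lit 5) (.nd (nat_lit 6) 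
(.lf (nat_lit 206470) (.g (nat_lit 1325) (.e (nat_lit 89856) (nat_lit 0) (.e (nat_lit 7575) (nat_lit 404) (.e (nat_lit 16433) (nat_lit 9) (.e (nat_lit 426428) (nat_lit 17) .nil)))) .nil)) 
(.lf (nat_lit 206534) (.g (nat_lit 838) (.e (nat_lit 89856) (nat_lit 10) (.e (nat_lit 417795) (nat_lit 0) (.e (nat_lit 5409) (nat_lit 303) (.e (nat_lit 73772) (nat_lit 24) (.e (nat_lit 769792) (nat_lit 10) .nil))))) .nil))) (.nd (nat_lit 6) 
(.lf (nat_lit 206502) (.g (nat_lit 162) (.e (nat_lit 89856) (nat_lit 8) (.e (nat_lit 262145) (nat_lit 0) (.e (nat_lit 1558) (nat_lit 110) (.e (nat_lit 352270) (nat_lit 8) .nil)))) .nil)) 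
(.lf (nat_lit 206566) (.g (nat_lit 1601) (.e (nat_lit 89856) (nat_lit 10) (.e (nat_lit 417811) (nat_lit 6) (.e (nat_lit 286753) (nat_lit 10) (.e (nat_lit 344097) (nat_lit 18) (.e (nat_lit 7145) (nat_lit 382) .nil))))) .nil)))) (.nd (nat_lit 5) (.nd (nat_lit 6) 
(.lf (nat_lit 206486) (.g (nat_lit 902) (.e (nat_lit 89856) (nat_lit 7) (.e (nat_lit 245776) (nat_lit 4) (.e (nat_lit 172082) (nat_lit 7) (.e (nat_lit 409634) (nat_lit 13) (.e (nat_lit 48896) (nat_lit 6) .nil))))) .nil)) 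
(.lf (nat_lit 206550) (.g (nat_lit 600) (.e (nat_lit 89856) (nat_lit 10) (.e (nat_lit 417796) (nat_lit 0) (.e (nat_lit 5412) (nat_lit 303) (.e (nat_lit 81664) (nat_lit 0) .nil)))) .nil))) (.nd (nat_lit 6) 
(.lf (nat_lit 206518) (.g (nat_lit 1631) (.e (nat_lit 89856) (nat_lit 9) (.e (nat_lit 409602) (nat_lit 0) (.e (nat_lit 5293) (nat_lit 298) (.e (nat_lit 1544) (nat_lit 109) .nil)))) .nil)) 
(.lf (nat_lit 206582) (.g (nat_lit 388) (.e (nat_lit 81925) (nat_lit 11) (.e (nat_lit 426011) (nat_lit 0) (.e (nat_lit 7591) (nat_lit 407) .nil))) .nil))))) (.nd (nat_lit 4) (.nd (nat_lit 5) (.nd (nat_lit 6) 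
(.lf (nat_lit 206478) (.g (nat_lit 1439) (.e (nat_lit 89856) (nat_lit 5) (.e (nat_lit 221207) (nat_lit 21) (.e (nat_lit 164325) (nat_lit 230) (.e (nat_lit 163937) (nat_lit 18) .nil)))) .nil)) 
(.lf (nat_lit 206542) (.g (nat_lit 985) (.e (nat_lit 89856) (nat_lit 10) (.e (nat_lit 417796) (nat_lit 0) (.e (nat_lit 5409) (nat_lit 303) (.e (nat_lit 73732) (nat_lit 0) .nil)))) .nil))) (.nd (nat_lit 6) 
(.lf (nat_lit 206510) (.g (nat_lit 165) (.e (nat_lit 89856) (nat_lit 8) (.e (nat_lit 262148) (nat_lit 0) (.e (nat_lit 1558) (nat_lit 110) (.e (nat_lit 360192) (nat_lit 4) .nil)))) .nil)) 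
(.lf (nat_lit 206574) (.g (nat_lit 802) (.e (nat_lit 81925) (nat_lit 11) (.e (nat_lit 426009) (nat_lit 0) (.e (nat_lit 7591) (nat_lit 407) (.e (nat_lit 73731) (nat_lit 0) (.e (nat_lit 7124) (nat_lit 382) (.e (nat_lit 7936) (nat_lit 90) .nil)))))) (.g (nat_lit 4) .nil .nil))))) (.nd (nat_lit 5) (.nd (nat_lit 6) 
(.lf (nat_lit 206494) (.g (nat_lit 198) (.e (nat_lit 89856) (nat_lit 7) (.e (nat_lit 245777) (nat_lit 5) (.e (nat_lit 180287) (nat_lit 45) (.e (nat_lit 2580) (nat_lit 161) (.e (nat_lit 48896) (nat_lit 6) .nil))))) .nil)) 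
(.lf (nat_lit 206558) (.g (nat_lit 1303) (.e (nat_lit 89856) (nat_lit 10) (.e (nat_lit 417811) (nat_lit 6) (.e (nat_lit 286747) (nat_lit 9) (.e (nat_lit 335997) (nat_lit 1) (.e (nat_lit 57651) (nat_lit 152) .nil))))) .nil))) (.nd (nat_lit 6) 
(.lf (nat_lit 206526) (.g (nat_lit 1788) (.e (nat_lit 89856) (nat_lit 9) (.e (nat_lit 409603) (nat_lit 0) (.e (nat_lit 5293) (nat_lit 298) (.e (nat_lit 1633) (nat_lit 114) (.e (nat_lit 385047) (nat_lit 21) .nil))))) .nil)) 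
(.lf (nat_lit 206590) (.g (nat_lit 1603) (.e (nat_lit 81925) (nat_lit 11) (.e (nat_lit 426011) (nat_lit 0) (.e (nat_lit 7591) (nat_lit 407) (.e (nat_lit 73734) (nat_lit 0) .nil)))) .nil)))))))) (.nd (nat_lit 1) (.nd (nat_lit 2) (.nd (nat_lit 3) (.nd (nat_lit 4) (.nd (nat_lit 5) (.nd (nat_lit 6) 
(.lf (nat_lit 206465) (.g (nat_lit 1812) (.e (nat_lit 89856) (nat_lit 0) (.e (nat_lit 3605) (nat_lit 225) (.e (nat_lit 761914) (nat_lit 18) (.e (nat_lit 188446) (nat_lit 21) (.e (nat_lit 164305) (nat_lit 226) .nil))))) .nil)) 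
(.lf (nat_lit 206529) (.g (nat_lit 446) (.e (nat_lit 89856) (nat_lit 10) (.e (nat_lit 417793) (nat_lit 0) (.e (nat_lit 5412) (nat_lit 303) (.e (nat_lit 73772) (nat_lit 24) (.e (nat_lit 769792) (nat_lit 10) .nil))))) .nil))) (.nd (nat_lit 6) 
(.lf (nat_lit 206497) (.g (nat_lit 739) (.e (nat_lit 89856) (nat_lit 7) (.e (nat_lit 245778) (nat_lit 6) (.e (nat_lit 188453) (nat_lit 24) (.e (nat_lit 237312) (nat_lit 158) .nil)))) .nil)) 
(.lf (nat_lit 206561) (.g (nat_lit 1769) (.e (nat_lit 89856) (nat_lit 10) (.e (nat_lit 417811) (nat_lit 6) (.e (nat_lit 286749) (nat_lit 9) (.e (nat_lit 335997) (nat_lit 1) (.e (nat_lit 57651) (nat_lit 152) .nil))))) .nil)))) (.nd (nat_lit 5) (.nd (nat_lit 6) 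
(.lf (nat_lit 206481) (.g (nat_lit 847) (.e (nat_lit 89856) (nat_lit 7) (.e (nat_lit 245776) (nat_lit 4) (.e (nat_lit 172079) (nat_lit 7) (.e (nat_lit 409611) (nat_lit 10) (.e (nat_lit 856) (nat_lit 75) .nil))))) .nil)) 
(.lf (nat_lit 206545) (.g (nat_lit 978) (.e (nat_lit 89856) (nat_lit 10) (.e (nat_lit 417796) (nat_lit 0) (.e (nat_lit 5409) (nat_lit 303) (.e (nat_lit 73737) (nat_lit 0) .nil)))) .nil))) (.nd (nat_lit 6) 
(.lf (nat_lit 206513) (.g (nat_lit 246) (.e (nat_lit 89856) (nat_lit 8) (.e (nat_lit 262148) (nat_lit 0) (.e (nat_lit 1574) (nat_lit 110) (.e (nat_lit 360192) (nat_lit 4) .nil)))) .nil)) 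
(.lf (nat_lit 206577) (.g (nat_lit 950) (.e (nat_lit 81925) (nat_lit 11) (.e (nat_lit 426009) (nat_lit 0) (.e (nat_lit 7593) (nat_lit 407) (.e (nat_lit 73772) (nat_lit 24) (.e (nat_lit 769792) (nat_lit 10) .nil))))) (.g (nat_lit 4) .nil .nil)))))) (.nd (nat_lit 4) (.nd (nat_lit 5) (.nd (nat_lit 6) 
(.lf (nat_lit 206473) (.g (nat_lit 1688) (.e (nat_lit 89856) (nat_lit 5) (.e (nat_lit 221206) (nat_lit 21) (.e (nat_lit 164325) (nat_lit 230) (.e (nat_lit 163936) (nat_lit 18) (.e (nat_lit 483072) (nat_lit 49) .nil))))) .nil)) 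
(.lf (nat_lit 206537) (.g (nat_lit 606) (.e (nat_lit 89856) (nat_lit 10) (.e (nat_lit 417795) (nat_lit 0) (.e (nat_lit 5412) (nat_lit 303) (.e (nat_lit 81664) (nat_lit 0) .nil)))) .nil))) (.nd (nat_lit 6) 
(.lf (nat_lit 206505) (.g (nat_lit 322) (.e (nat_lit 89856) (nat_lit 8) (.e (nat_lit 262145) (nat_lit 0) (.e (nat_lit 1574) (nat_lit 110) (.e (nat_lit 352270) (nat_lit 8) (.e (nat_lit 270080) (nat_lit 6) .nil))))) .nil)) 
(.lf (nat_lit 206569) (.g (nat_lit 1212) (.e (nat_lit 89856) (nat_lit 10) (.e (nat_lit 417811) (nat_lit 6) (.e (nat_lit 286753) (nat_lit 10) (.e (nat_lit 344174) (nat_lit 42) (.e (nat_lit 769792) (nat_lit 10) .nil))))) .nil)))) (.nd (nat_lit 5) (.nd (nat_lit 6) 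
(.lf (nat_lit 206489) (.g (nat_lit 211) (.e (nat_lit 89856) (nat_lit 7) (.e (nat_lit 245777) (nat_lit 5) (.e (nat_lit 180284) (nat_lit 45) (.e (nat_lit 2579) (nat_lit 161) (.e (nat_lit 48896) (nat_lit 6) .nil))))) .nil)) 
(.lf (nat_lit 206553) (.g (nat_lit 963) (.e (nat_lit 89856) (nat_lit 10) (.e (nat_lit 417810) (nat_lit 6) (.e (nat_lit 286753) (nat_lit 10) (.e (nat_lit 344097) (nat_lit 18) .nil)))) .nil))) (.nd (nat_lit 6) 
(.lf (nat_lit 206521) (.g (nat_lit 513) (.e (nat_lit 89856) (nat_lit 9) (.e (nat_lit 409602) (nat_lit 0) (.e (nat_lit 5411) (nat_lit 303) .nil))) .nil)) 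
(.lf (nat_lit 206585) (.g (nat_lit 1538) (.e (nat_lit 81925) (nat_lit 11) (.e (nat_lit 426011) (nat_lit 0) (.e (nat_lit 7591) (nat_lit 407) (.e (nat_lit 73730) (nat_lit 0) (.e (nat_lit 7119) (nat_lit 382) (.e (nat_lit 7936) (nat_lit 90) .nil)))))) (.g (nat_lit 4) .nil .nil))))))) (.nd (nat_lit 3) (.nd (nat_lit 4) (.nd (nat_lit 5) (.nd (nat_lit 6) 
(.lf (nat_lit 206469) (.g (nat_lit 1321) (.e (nat_lit 89856) (nat_lit 0) (.e (nat_lit 7574) (nat_lit 404) (.e (nat_lit 16456) (nat_lit 12) (.e (nat_lit 475169) (nat_lit 22) (.e (nat_lit 507648) (nat_lit 20) .nil))))) .nil)) 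
(.lf (nat_lit 206533) (.g (nat_lit 665) (.e (nat_lit 89856) (nat_lit 10) (.e (nat_lit 417795) (nat_lit 0) (.e (nat_lit 5409) (nat_lit 303) (.e (nat_lit 73729) (nat_lit 0) .nil)))) .nil))) (.nd (nat_lit 6) 
(.lf (nat_lit 206501) (.g (nat_lit 175) (.e (nat_lit 89856) (nat_lit 8) (.e (nat_lit 262145) (nat_lit 0) (.e (nat_lit 1558) (nat_lit 110) (.e (nat_lit 360192) (nat_lit 4) .nil)))) .nil)) 
(.lf (nat_lit 206565) (.g (nat_lit 737) (.e (nat_lit 89856) (nat_lit 10) (.e (nat_lit 417811) (nat_lit 6) (.e (nat_lit 286753) (nat_lit 10) (.e (nat_lit 344089) (nat_lit 18) .nil)))) .nil)))) (.nd (nat_lit 5) (.nd (nat_lit 6) 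
(.lf (nat_lit 206485) (.g (nat_lit 1222) (.e (nat_lit 89856) (nat_lit 7) (.e (nat_lit 245776) (nat_lit 4) (.e (nat_lit 172082) (nat_lit 7) (.e (nat_lit 409612) (nat_lit 10) (.e (nat_lit 858) (nat_lit 75) .nil))))) .nil)) 
(.lf (nat_lit 206549) (.g (nat_lit 1168) (.e (nat_lit 89856) (nat_lit 10) (.e (nat_lit 417796) (nat_lit 0) (.e (nat_lit 5412) (nat_lit 303) (.e (nat_lit 73732) (nat_lit 0) (.e (nat_lit 7144) (nat_lit 382) .nil))))) .nil))) (.nd (nat_lit 6) 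
(.lf (nat_lit 206517) (.g (nat_lit 2119) (.e (nat_lit 89856) (nat_lit 9) (.e (nat_lit 409602) (nat_lit 0) (.e (nat_lit 5293) (nat_lit 298) (.e (nat_lit 1531) (nat_lit 109) .nil)))) .nil)) 
(.lf (nat_lit 206581) (.g (nat_lit 1476) (.e (nat_lit 81925) (nat_lit 11) (.e (nat_lit 426011) (nat_lit 0) (.e (nat_lit 7587) (nat_lit 406) (.e (nat_lit 65565) (nat_lit 1) .nil)))) .nil))))) (.nd (nat_lit 4) (.nd (nat_lit 5) (.nd (nat_lit 6) 
(.lf (nat_lit 206477) (.g (nat_lit 1224) (.e (nat_lit 89856) (nat_lit 5) (.e (nat_lit 221207) (nat_lit 21) (.e (nat_lit 164325) (nat_lit 230) (.e (nat_lit 163936) (nat_lit 18) .nil)))) .nil)) 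
(.lf (nat_lit 206541) (.g (nat_lit 1034) (.e (nat_lit 89856) (nat_lit 10) (.e (nat_lit 417796) (nat_lit 0) (.e (nat_lit 5409) (nat_lit 303) (.e (nat_lit 73729) (nat_lit 0) .nil)))) .nil))) (.nd (nat_lit 6) 
(.lf (nat_lit 206509) (.g (nat_lit 333) (.e (nat_lit 89856) (nat_lit 8) (.e (nat_lit 262148) (nat_lit 0) (.e (nat_lit 1555) (nat_lit 110) (.e (nat_lit 352270) (nat_lit 8) (.e (nat_lit 270080) (nat_lit 6) .nil))))) .nil)) 
(.lf (nat_lit 206573) (.g (nat_lit 1360) (.e (nat_lit 89856) (nat_lit 10) (.e (nat_lit 417811) (nat_lit 6) (.e (nat_lit 286756) (nat_lit 10) (.e (nat_lit 344174) (nat_lit 42) (.e (nat_lit 769792) (nat_lit 10) .nil))))) .nil)))) (.nd (nat_lit 5) (.nd (nat_lit 6) 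
(.lf (nat_lit 206493) (.g (nat_lit 259) (.e (nat_lit 89856) (nat_lit 7) (.e (nat_lit 245777) (nat_lit 5) (.e (nat_lit 180287) (nat_lit 45) (.e (nat_lit 2579) (nat_lit 161) (.e (nat_lit 48896) (nat_lit 6) .nil))))) .nil)) 
(.lf (nat_lit 206557) (.g (nat_lit 432) (.e (nat_lit 89856) (nat_lit 10) (.e (nat_lit 417811) (nat_lit 6) (.e (nat_lit 286747) (nat_lit 9) .nil))) .nil))) (.nd (nat_lit 6) 
(.lf (nat_lit 206525) (.g (nat_lit 1240) (.e (nat_lit 89856) (nat_lit 9) (.e (nat_lit 409603) (nat_lit 0) (.e (nat_lit 5293) (nat_lit 298) (.e (nat_lit 1633) (nat_lit 114) .nil)))) .nil)) 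
(.lf (nat_lit 206589) (.g (nat_lit 1520) (.e (nat_lit 81925) (nat_lit 11) (.e (nat_lit 426011) (nat_lit 0) (.e (nat_lit 7591) (nat_lit 407) (.e (nat_lit 73732) (nat_lit 0) .nil)))) .nil))))))) (.nd (nat_lit 2) (.nd (nat_lit 3) (.nd (nat_lit 4) (.nd (nat_lit 5) (.nd (nat_lit 6) 
(.lf (nat_lit 206467) (.g (nat_lit 1197) (.e (nat_lit 89856) (nat_lit 0) (.e (nat_lit 7573) (nat_lit 404) (.e (nat_lit 16456) (nat_lit 12) (.e (nat_lit 475169) (nat_lit 22) (.e (nat_lit 507648) (nat_lit 20) .nil))))) .nil)) 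
(.lf (nat_lit 206531) (.g (nat_lit 800) (.e (nat_lit 89856) (nat_lit 10) (.e (nat_lit 417795) (nat_lit 0) (.e (nat_lit 5403) (nat_lit 302) (.e (nat_lit 65565) (nat_lit 1) (.e (nat_lit 57655) (nat_lit 152) .nil))))) .nil))) (.nd (nat_lit 6) 
(.lf (nat_lit 206499) (.g (nat_lit 156) (.e (nat_lit 89856) (nat_lit 8) (.e (nat_lit 262145) (nat_lit 0) (.e (nat_lit 1554) (nat_lit 110) (.e (nat_lit 360192) (nat_lit 4) .nil)))) .nil)) 
(.lf (nat_lit 206563) (.g (nat_lit 403) (.e (nat_lit 89856) (nat_lit 10) (.e (nat_lit 417811) (nat_lit 6) (.e (nat_lit 286753) (nat_lit 10) .nil))) .nil)))) (.nd (nat_lit 5) (.nd (nat_lit 6) 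
(.lf (nat_lit 206483) (.g (nat_lit 671) (.e (nat_lit 89856) (nat_lit 7) (.e (nat_lit 245776) (nat_lit 4) (.e (nat_lit 172080) (nat_lit 7) (.e (nat_lit 409634) (nat_lit 13) (.e (nat_lit 48896) (nat_lit 6) .nil))))) .nil)) 
(.lf (nat_lit 206547) (.g (nat_lit 333) (.e (nat_lit 89856) (nat_lit 10) (.e (nat_lit 417796) (nat_lit 0) (.e (nat_lit 5410) (nat_lit 303) .nil))) .nil))) (.nd (nat_lit 6) 
(.lf (nat_lit 206515) (.g (nat_lit 595) (.e (nat_lit 89856) (nat_lit 8) (.e (nat_lit 262148) (nat_lit 0) (.e (nat_lit 1597) (nat_lit 111) (.e (nat_lit 368384) (nat_lit 0) .nil)))) .nil)) 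
(.lf (nat_lit 206579) (.g (nat_lit 1335) (.e (nat_lit 81925) (nat_lit 11) (.e (nat_lit 426010) (nat_lit 0) (.e (nat_lit 7593) (nat_lit 407) (.e (nat_lit 73729) (nat_lit 0) (.e (nat_lit 7119) (nat_lit 382) (.e (nat_lit 7936) (nat_lit 90) .nil)))))) (.g (nat_lit 4) .nil .nil)))))) (.nd (nat_lit 4) (.nd (nat_lit 5) (.nd (nat_lit 6) 
(.lf (nat_lit 206475) (.g (nat_lit 1197) (.e (nat_lit 89856) (nat_lit 5) (.e (nat_lit 221206) (nat_lit 21) (.e (nat_lit 164325) (nat_lit 230) (.e (nat_lit 163938) (nat_lit 18) .nil)))) .nil)) 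
(.lf (nat_lit 206539) (.g (nat_lit 406) (.e (nat_lit 89856) (nat_lit 10) (.e (nat_lit 417795) (nat_lit 0) (.e (nat_lit 5413) (nat_lit 303) (.e (nat_lit 73772) (nat_lit 24) (.e (nat_lit 769792) (nat_lit 10) .nil))))) .nil))) (.nd (nat_lit 6) 
(.lf (nat_lit 206507) (.g (nat_lit 381) (.e (nat_lit 89856) (nat_lit 8) (.e (nat_lit 262147) (nat_lit 0) (.e (nat_lit 1555) (nat_lit 110) (.e (nat_lit 352270) (nat_lit 8) (.e (nat_lit 270080) (nat_lit 6) .nil))))) .nil)) 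
(.lf (nat_lit 206571) (.g (nat_lit 956) (.e (nat_lit 89856) (nat_lit 10) (.e (nat_lit 417811) (nat_lit 6) (.e (nat_lit 286755) (nat_lit 10) (.e (nat_lit 344174) (nat_lit 42) (.e (nat_lit 769792) (nat_lit 10) .nil))))) .nil)))) (.nd (nat_lit 5) (.nd (nat_lit 6) 
(.lf (nat_lit 206491) (.g (nat_lit 412) (.e (nat_lit 89856) (nat_lit 7) (.e (nat_lit 245777) (nat_lit 5) (.e (nat_lit 180285) (nat_lit 45) (.e (nat_lit 2579) (nat_lit 161) (.e (nat_lit 48896) (nat_lit 6) .nil))))) .nil)) 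
(.lf (nat_lit 206555) (.g (nat_lit 443) (.e (nat_lit 89856) (nat_lit 10) (.e (nat_lit 417810) (nat_lit 6) (.e (nat_lit 286756) (nat_lit 10) .nil))) .nil))) (.nd (nat_lit 6) 
(.lf (nat_lit 206523) (.g (nat_lit 1778) (.e (nat_lit 89856) (nat_lit 9) (.e (nat_lit 409603) (nat_lit 0) (.e (nat_lit 5293) (nat_lit 298) (.e (nat_lit 1533) (nat_lit 109) .nil)))) .nil)) 
(.lf (nat_lit 206587) (.g (nat_lit 1308) (.e (nat_lit 81925) (nat_lit 11) (.e (nat_lit 426011) (nat_lit 0) (.e (nat_lit 7591) (nat_lit 407) (.e (nat_lit 73731) (nat_lit 0) (.e (nat_lit 7119) (nat_lit 382) .nil))))) .nil)))))) (.nd (nat_lit 3) (.nd (nat_lit 4) (.nd (nat_lit 5) (.nd (nat_lit 6) 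
(.lf (nat_lit 206471) (.g (nat_lit 2082) (.e (nat_lit 89856) (nat_lit 2) (.e (nat_lit 196624) (nat_lit 9) (.e (nat_lit 1273) (nat_lit 93) (.e (nat_lit 106536) (nat_lit 11) (.e (nat_lit 16412) (nat_lit 2) .nil))))) .nil)) 
(.lf (nat_lit 206535) (.g (nat_lit 412) (.e (nat_lit 89856) (nat_lit 10) (.e (nat_lit 417795) (nat_lit 0) (.e (nat_lit 5410) (nat_lit 303) (.e (nat_lit 73772) (nat_lit 24) (.e (nat_lit 769792) (nat_lit 10) .nil))))) .nil))) (.nd (nat_lit 6) 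
(.lf (nat_lit 206503) (.g (nat_lit 209) (.e (nat_lit 89856) (nat_lit 8) (.e (nat_lit 262145) (nat_lit 0) (.e (nat_lit 1568) (nat_lit 110) (.e (nat_lit 352270) (nat_lit 8) (.e (nat_lit 270080) (nat_lit 6) .nil))))) .nil)) 
(.lf (nat_lit 206567) (.g (nat_lit 1705) (.e (nat_lit 89856) (nat_lit 10) (.e (nat_lit 417811) (nat_lit 6) (.e (nat_lit 286753) (nat_lit 10) (.e (nat_lit 344097) (nat_lit 18) (.e (nat_lit 7160) (nat_lit 382) .nil))))) .nil)))) (.nd (nat_lit 5) (.nd (nat_lit 6) 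
(.lf (nat_lit 206487) (.g (nat_lit 197) (.e (nat_lit 89856) (nat_lit 7) (.e (nat_lit 245776) (nat_lit 4) (.e (nat_lit 172113) (nat_lit 10) .nil))) .nil)) 
(.lf (nat_lit 206551) (.g (nat_lit 768) (.e (nat_lit 89856) (nat_lit 10) (.e (nat_lit 417796) (nat_lit 0) (.e (nat_lit 5412) (nat_lit 303) (.e (nat_lit 73772) (nat_lit 24) (.e (nat_lit 769792) (nat_lit 10) .nil))))) .nil))) (.nd (nat_lit 6) 
(.lf (nat_lit 206519) (.g (nat_lit 2161) (.e (nat_lit 89856) (nat_lit 9) (.e (nat_lit 409602) (nat_lit 0) (.e (nat_lit 5293) (nat_lit 298) (.e (nat_lit 1550) (nat_lit 109) .nil)))) .nil)) 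
(.lf (nat_lit 206583) (.g (nat_lit 1559) (.e (nat_lit 81925) (nat_lit 11) (.e (nat_lit 426011) (nat_lit 0) (.e (nat_lit 7591) (nat_lit 407) (.e (nat_lit 73728) (nat_lit 0) .nil)))) .nil))))) (.nd (nat_lit 4) (.nd (nat_lit 5) (.nd (nat_lit 6) 
(.lf (nat_lit 206479) (.g (nat_lit 1668) (.e (nat_lit 89856) (nat_lit 5) (.e (nat_lit 221207) (nat_lit 21) (.e (nat_lit 164325) (nat_lit 230) (.e (nat_lit 163938) (nat_lit 18) (.e (nat_lit 483072) (nat_lit 49) .nil))))) .nil)) 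
(.lf (nat_lit 206543) (.g (nat_lit 1960) (.e (nat_lit 89856) (nat_lit 10) (.e (nat_lit 417796) (nat_lit 0) (.e (nat_lit 5409) (nat_lit 303) (.e (nat_lit 73733) (nat_lit 0) (.e (nat_lit 7144) (nat_lit 382) .nil))))) .nil))) (.nd (nat_lit 6) 
(.lf (nat_lit 206511) (.g (nat_lit 202) (.e (nat_lit 89856) (nat_lit 8) (.e (nat_lit 262148) (nat_lit 0) (.e (nat_lit 1558) (nat_lit 110) (.e (nat_lit 352270) (nat_lit 8) (.e (nat_lit 270080) (nat_lit 6) .nil))))) .nil)) 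
(.lf (nat_lit 206575) (.g (nat_lit 1350) (.e (nat_lit 81925) (nat_lit 11) (.e (nat_lit 426009) (nat_lit 0) (.e (nat_lit 7593) (nat_lit 407) (.e (nat_lit 73729) (nat_lit 0) (.e (nat_lit 7119) (nat_lit 382) (.e (nat_lit 7936) (nat_lit 90) .nil)))))) (.g (nat_lit 4) .nil .nil))))) (.nd (nat_lit 5) (.nd (nat_lit 6) 
(.lf (nat_lit 206495) (.g (nat_lit 372) (.e (nat_lit 89856) (nat_lit 7) (.e (nat_lit 245777) (nat_lit 5) (.e (nat_lit 180288) (nat_lit 45) (.e (nat_lit 2579) (nat_lit 161) (.e (nat_lit 48896) (nat_lit 6) .nil))))) .nil)) 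
(.lf (nat_lit 206559) (.g (nat_lit 1320) (.e (nat_lit 89856) (nat_lit 10) (.e (nat_lit 417811) (nat_lit 6) (.e (nat_lit 286747) (nat_lit 9) (.e (nat_lit 335997) (nat_lit 1) (.e (nat_lit 57653) (nat_lit 152) .nil))))) .nil))) (.nd (nat_lit 6) 
(.lf (nat_lit 206527) (.g (nat_lit 206) (.e (nat_lit 89856) (nat_lit 9) (.e (nat_lit 409603) (nat_lit 0) (.e (nat_lit 5411) (nat_lit 303) (.e (nat_lit 73772) (nat_lit 24) (.e (nat_lit 769792) (nat_lit 10) .nil))))) .nil)) 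
(.lf (nat_lit 206591) (.g (nat_lit 1677) (.e (nat_lit 81925) (nat_lit 11) (.e (nat_lit 426011) (nat_lit 0) (.e (nat_lit 7591) (nat_lit 407) (.e (nat_lit 73772) (nat_lit 24) (.e (nat_lit 769792) (nat_lit 10) .nil))))) (.g (nat_lit 4) .nil .nil))))))))))

noncomputable def tv2726 : DT := (.nd (nat_lit 0) (.nd (nat_lit 1) (.nd (nat_lit 2) (.nd (nat_lit 3) (.nd (nat_lit 4) (.nd (nat_lit 5) (.nd (nat_lit 6) 
(.lf (nat_lit 206592) (.g (nat_lit 1434) (.e (nat_lit 81925) (nat_lit 11) (.e (nat_lit 426011) (nat_lit 0) (.e (nat_lit 7593) (nat_lit 407) (.e (nat_lit 73728) (nat_lit 0) .nil)))) .nil)) 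
(.lf (nat_lit 206656) (.g (nat_lit 1446) (.e (nat_lit 81925) (nat_lit 11) (.e (nat_lit 426200) (nat_lit 9) (.e (nat_lit 426354) (nat_lit 15) (.e (nat_lit 2031) (nat_lit 140) .nil)))) .nil))) (.nd (nat_lit 6) 
(.lf (nat_lit 206624) (.g (nat_lit 2825) (.e (nat_lit 81925) (nat_lit 11) (.e (nat_lit 426108) (nat_lit 1) (.e (nat_lit 164176) (nat_lit 154) (.e (nat_lit 57407) (nat_lit 12) (.e (nat_lit 336316) (nat_lit 17) .nil))))) .nil)) 
(.lf (nat_lit 206688) (.g (nat_lit 1003) (.e (nat_lit 81925) (nat_lit 11) (.e (nat_lit 426341) (nat_lit 14) (.e (nat_lit 491560) (nat_lit 10) (.e (nat_lit 344096) (nat_lit 18) .nil)))) .nil)))) (.nd (nat_lit 5) (.nd (nat_lit 6) 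
(.lf (nat_lit 206608) (.g (nat_lit 783) (.e (nat_lit 81925) (nat_lit 11) (.e (nat_lit 426012) (nat_lit 0) (.e (nat_lit 7591) (nat_lit 407) (.e (nat_lit 81664) (nat_lit 0) .nil)))) .nil)) 
(.lf (nat_lit 206672) (.g (nat_lit 2026) (.e (nat_lit 81925) (nat_lit 11) (.e (nat_lit 426315) (nat_lit 12) (.e (nat_lit 475214) (nat_lit 42) (.e (nat_lit 720934) (nat_lit 21) .nil)))) .nil))) (.nd (nat_lit 6) 
(.lf (nat_lit 206640) (.g (nat_lit 1056) (.e (nat_lit 81925) (nat_lit 11) (.e (nat_lit 426172) (nat_lit 7) (.e (nat_lit 409648) (nat_lit 18) (.e (nat_lit 303108) (nat_lit 0) .nil)))) .nil)) 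
(.lf (nat_lit 206704) (.g (nat_lit 3034) (.e (nat_lit 81925) (nat_lit 11) (.e (nat_lit 426342) (nat_lit 14) (.e (nat_lit 491558) (nat_lit 10) (.e (nat_lit 344096) (nat_lit 18) (.e (nat_lit 7125) (nat_lit 382) (.e (nat_lit 1224) (nat_lit 90) .nil)))))) (.g (nat_lit 6) .nil .nil)))))) (.nd (nat_lit 4) (.nd (nat_lit 5) (.nd (nat_lit 6) 
(.lf (nat_lit 206600) (.g (nat_lit 1736) (.e (nat_lit 81925) (nat_lit 11) (.e (nat_lit 426011) (nat_lit 0) (.e (nat_lit 7593) (nat_lit 407) (.e (nat_lit 73731) (nat_lit 0) (.e (nat_lit 7122) (nat_lit 382) (.e (nat_lit 7936) (nat_lit 90) .nil)))))) (.g (nat_lit 4) .nil .nil))) 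
(.lf (nat_lit 206664) (.g (nat_lit 897) (.e (nat_lit 81925) (nat_lit 11) (.e (nat_lit 426308) (nat_lit 12) (.e (nat_lit 475212) (nat_lit 42) (.e (nat_lit 720930) (nat_lit 21) .nil)))) .nil))) (.nd (nat_lit 6) 
(.lf (nat_lit 206632) (.g (nat_lit 2139) (.e (nat_lit 81925) (nat_lit 11) (.e (nat_lit 426172) (nat_lit 7) (.e (nat_lit 409643) (nat_lit 18) (.e (nat_lit 303115) (nat_lit 1) (.e (nat_lit 164151) (nat_lit 152) (.e (nat_lit 1217) (nat_lit 90) .nil)))))) (.g (nat_lit 0) .nil .nil))) 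
(.lf (nat_lit 206696) (.g (nat_lit 859) (.e (nat_lit 81925) (nat_lit 11) (.e (nat_lit 426342) (nat_lit 14) (.e (nat_lit 491546) (nat_lit 9) (.e (nat_lit 335997) (nat_lit 1) .nil)))) .nil)))) (.nd (nat_lit 5) (.nd (nat_lit 6) 
(.lf (nat_lit 206616) (.g (nat_lit 1598) (.e (nat_lit 81925) (nat_lit 11) (.e (nat_lit 426012) (nat_lit 0) (.e (nat_lit 7593) (nat_lit 407) (.e (nat_lit 73772) (nat_lit 24) (.e (nat_lit 769792) (nat_lit 10) .nil))))) (.g (nat_lit 4) .nil .nil))) 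
(.lf (nat_lit 206680) (.g (nat_lit 629) (.e (nat_lit 81925) (nat_lit 11) (.e (nat_lit 426341) (nat_lit 14) (.e (nat_lit 491552) (nat_lit 9) .nil))) .nil))) (.nd (nat_lit 6) 
(.lf (nat_lit 206648) (.g (nat_lit 710) (.e (nat_lit 81925) (nat_lit 11) (.e (nat_lit 426188) (nat_lit 9) (.e (nat_lit 426426) (nat_lit 16) .nil))) .nil)) 
(.lf (nat_lit 206712) (.g (nat_lit 1924) (.e (nat_lit 81925) (nat_lit 11) (.e (nat_lit 426342) (nat_lit 14) (.e (nat_lit 491560) (nat_lit 10) (.e (nat_lit 344091) (nat_lit 18) (.e (nat_lit 7124) (nat_lit 382) (.e (nat_lit 7936) (nat_lit 90) .nil)))))) (.g (nat_lit 4) .nil .nil))))))) (.nd (nat_lit 3) (.nd (nat_lit 4) (.nd (nat_lit 5) (.nd (nat_lit 6) 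
(.lf (nat_lit 206596) (.g (nat_lit 2412) (.e (nat_lit 81925) (nat_lit 11) (.e (nat_lit 426011) (nat_lit 0) (.e (nat_lit 7593) (nat_lit 407) (.e (nat_lit 73729) (nat_lit 0) (.e (nat_lit 7124) (nat_lit 382) (.e (nat_lit 7936) (nat_lit 90) .nil)))))) (.g (nat_lit 5) .nil .nil))) 
(.lf (nat_lit 206660) (.g (nat_lit 667) (.e (nat_lit 81925) (nat_lit 11) (.e (nat_lit 426306) (nat_lit 12) (.e (nat_lit 475214) (nat_lit 42) .nil))) .nil))) (.nd (nat_lit 6) 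
(.lf (nat_lit 206628) (.g (nat_lit 2504) (.e (nat_lit 81925) (nat_lit 11) (.e (nat_lit 426166) (nat_lit 7) (.e (nat_lit 409645) (nat_lit 18) (.e (nat_lit 303115) (nat_lit 1) (.e (nat_lit 164150) (nat_lit 152) (.e (nat_lit 1217) (nat_lit 90) .nil)))))) (.g (nat_lit 6) .nil .nil))) 
(.lf (nat_lit 206692) (.g (nat_lit 789) (.e (nat_lit 81925) (nat_lit 11) (.e (nat_lit 426341) (nat_lit 14) (.e (nat_lit 491560) (nat_lit 10) (.e (nat_lit 352000) (nat_lit 18) .nil)))) .nil)))) (.nd (nat_lit 5) (.nd (nat_lit 6) 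
(.lf (nat_lit 206612) (.g (nat_lit 2284) (.e (nat_lit 81925) (nat_lit 11) (.e (nat_lit 426012) (nat_lit 0) (.e (nat_lit 7593) (nat_lit 407) (.e (nat_lit 73729) (nat_lit 0) (.e (nat_lit 7124) (nat_lit 382) (.e (nat_lit 7936) (nat_lit 90) .nil)))))) (.g (nat_lit 5) .nil .nil))) 
(.lf (nat_lit 206676) (.g (nat_lit 2830) (.e (nat_lit 81925) (nat_lit 11) (.e (nat_lit 426338) (nat_lit 14) (.e (nat_lit 491560) (nat_lit 10) (.e (nat_lit 344177) (nat_lit 43) (.e (nat_lit 770074) (nat_lit 10) .nil))))) .nil))) (.nd (nat_lit 6) 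
(.lf (nat_lit 206644) (.g (nat_lit 1166) (.e (nat_lit 81925) (nat_lit 11) (.e (nat_lit 426172) (nat_lit 7) (.e (nat_lit 409649) (nat_lit 18) (.e (nat_lit 303114) (nat_lit 1) .nil)))) .nil)) 
(.lf (nat_lit 206708) (.g (nat_lit 1598) (.e (nat_lit 81925) (nat_lit 11) (.e (nat_lit 426342) (nat_lit 14) (.e (nat_lit 491560) (nat_lit 10) (.e (nat_lit 344089) (nat_lit 18) .nil)))) .nil))))) (.nd (nat_lit 4) (.nd (nat_lit 5) (.nd (nat_lit 6) 
(.lf (nat_lit 206604) (.g (nat_lit 1134) (.e (nat_lit 81925) (nat_lit 11) (.e (nat_lit 426012) (nat_lit 0) (.e (nat_lit 7591) (nat_lit 407) (.e (nat_lit 73731) (nat_lit 0) (.e (nat_lit 7119) (nat_lit 382) .nil))))) .nil)) 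
(.lf (nat_lit 206668) (.g (nat_lit 1317) (.e (nat_lit 81925) (nat_lit 11) (.e (nat_lit 426308) (nat_lit 12) (.e (nat_lit 475214) (nat_lit 42) (.e (nat_lit 720931) (nat_lit 21) (.e (nat_lit 57837) (nat_lit 250) .nil))))) .nil))) (.nd (nat_lit 6) 
(.lf (nat_lit 206636) (.g (nat_lit 1852) (.e (nat_lit 81925) (nat_lit 11) (.e (nat_lit 426172) (nat_lit 7) (.e (nat_lit 409645) (nat_lit 18) (.e (nat_lit 303115) (nat_lit 1) (.e (nat_lit 164151) (nat_lit 152) .nil))))) .nil)) 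
(.lf (nat_lit 206700) (.g (nat_lit 1280) (.e (nat_lit 81925) (nat_lit 11) (.e (nat_lit 426342) (nat_lit 14) (.e (nat_lit 491558) (nat_lit 10) (.e (nat_lit 344095) (nat_lit 18) (.e (nat_lit 7119) (nat_lit 382) (.e (nat_lit 7936) (nat_lit 90) .nil)))))) (.g (nat_lit 4) .nil .nil))))) (.nd (nat_lit 5) (.nd (nat_lit 6) 
(.lf (nat_lit 206620) (.g (nat_lit 1950) (.e (nat_lit 81925) (nat_lit 11) (.e (nat_lit 426100) (nat_lit 1) (.e (nat_lit 164182) (nat_lit 154) (.e (nat_lit 57410) (nat_lit 12) (.e (nat_lit 336316) (nat_lit 17) .nil))))) .nil)) 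
(.lf (nat_lit 206684) (.g (nat_lit 1854) (.e (nat_lit 81925) (nat_lit 11) (.e (nat_lit 426341) (nat_lit 14) (.e (nat_lit 491560) (nat_lit 10) (.e (nat_lit 344090) (nat_lit 18) (.e (nat_lit 7124) (nat_lit 382) .nil))))) .nil))) (.nd (nat_lit 6) 
(.lf (nat_lit 206652) (.g (nat_lit 794) (.e (nat_lit 81925) (nat_lit 11) (.e (nat_lit 426190) (nat_lit 9) (.e (nat_lit 426446) (nat_lit 20) (.e (nat_lit 114710) (nat_lit 21) .nil)))) .nil)) 
(.lf (nat_lit 206716) (.g (nat_lit 2959) (.e (nat_lit 81925) (nat_lit 11) (.e (nat_lit 426342) (nat_lit 14) (.e (nat_lit 491560) (nat_lit 10) (.e (nat_lit 344094) (nat_lit 18) (.e (nat_lit 7125) (nat_lit 382) (.e (nat_lit 1224) (nat_lit 90) .nil)))))) (.g (nat_lit 6) .nil .nil)))))))) (.nd (nat_lit 2) (.nd (nat_lit 3) (.nd (nat_lit 4) (.nd (nat_lit 5) (.nd (nat_lit 6) 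
(.lf (nat_lit 206594) (.g (nat_lit 2177) (.e (nat_lit 81925) (nat_lit 11) (.e (nat_lit 426011) (nat_lit 0) (.e (nat_lit 7593) (nat_lit 407) (.e (nat_lit 73729) (nat_lit 0) (.e (nat_lit 7119) (nat_lit 382) (.e (nat_lit 7936) (nat_lit 90) .nil)))))) (.g (nat_lit 5) .nil .nil))) 
(.lf (nat_lit 206658) (.g (nat_lit 2198) (.e (nat_lit 81925) (nat_lit 11) (.e (nat_lit 426265) (nat_lit 9) (.e (nat_lit 426098) (nat_lit 1) (.e (nat_lit 164325) (nat_lit 230) (.e (nat_lit 163844) (nat_lit 0) .nil))))) .nil))) (.nd (nat_lit 6) 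
(.lf (nat_lit 206626) (.g (nat_lit 2572) (.e (nat_lit 81925) (nat_lit 11) (.e (nat_lit 426108) (nat_lit 1) (.e (nat_lit 164182) (nat_lit 154) (.e (nat_lit 57411) (nat_lit 12) (.e (nat_lit 336320) (nat_lit 17) .nil))))) .nil)) 
(.lf (nat_lit 206690) (.g (nat_lit 1404) (.e (nat_lit 81925) (nat_lit 11) (.e (nat_lit 426341) (nat_lit 14) (.e (nat_lit 491560) (nat_lit 10) (.e (nat_lit 344097) (nat_lit 18) .nil)))) .nil)))) (.nd (nat_lit 5) (.nd (nat_lit 6) 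
(.lf (nat_lit 206610) (.g (nat_lit 1050) (.e (nat_lit 81925) (nat_lit 11) (.e (nat_lit 426012) (nat_lit 0) (.e (nat_lit 7593) (nat_lit 407) (.e (nat_lit 73729) (nat_lit 0) .nil)))) .nil)) 
(.lf (nat_lit 206674) (.g (nat_lit 899) (.e (nat_lit 81925) (nat_lit 11) (.e (nat_lit 426316) (nat_lit 12) (.e (nat_lit 475212) (nat_lit 42) .nil))) .nil))) (.nd (nat_lit 6) 
(.lf (nat_lit 206642) (.g (nat_lit 2189) (.e (nat_lit 81925) (nat_lit 11) (.e (nat_lit 426172) (nat_lit 7) (.e (nat_lit 409648) (nat_lit 18) (.e (nat_lit 303114) (nat_lit 1) (.e (nat_lit 164149) (nat_lit 152) (.e (nat_lit 1217) (nat_lit 90) .nil)))))) (.g (nat_lit 0) .nil .nil))) 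
(.lf (nat_lit 206706) (.g (nat_lit 2529) (.e (nat_lit 81925) (nat_lit 11) (.e (nat_lit 426342) (nat_lit 14) (.e (nat_lit 491558) (nat_lit 10) (.e (nat_lit 344177) (nat_lit 43) (.e (nat_lit 770074) (nat_lit 10) .nil))))) (.g (nat_lit 5) .nil .nil)))))) (.nd (nat_lit 4) (.nd (nat_lit 5) (.nd (nat_lit 6) 
(.lf (nat_lit 206602) (.g (nat_lit 1660) (.e (nat_lit 81925) (nat_lit 11) (.e (nat_lit 426012) (nat_lit 0) (.e (nat_lit 7591) (nat_lit 407) (.e (nat_lit 73729) (nat_lit 0) (.e (nat_lit 7119) (nat_lit 382) (.e (nat_lit 7936) (nat_lit 90) .nil)))))) (.g (nat_lit 4) .nil .nil))) 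
(.lf (nat_lit 206666) (.g (nat_lit 913) (.e (nat_lit 81925) (nat_lit 11) (.e (nat_lit 426308) (nat_lit 12) (.e (nat_lit 475212) (nat_lit 42) (.e (nat_lit 720934) (nat_lit 21) .nil)))) .nil))) (.nd (nat_lit 6) 
(.lf (nat_lit 206634) (.g (nat_lit 2336) (.e (nat_lit 81925) (nat_lit 11) (.e (nat_lit 426172) (nat_lit 7) (.e (nat_lit 409644) (nat_lit 18) (.e (nat_lit 303115) (nat_lit 1) (.e (nat_lit 164151) (nat_lit 152) (.e (nat_lit 1217) (nat_lit 90) .nil)))))) (.g (nat_lit 0) .nil .nil))) 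
(.lf (nat_lit 206698) (.g (nat_lit 1853) (.e (nat_lit 81925) (nat_lit 11) (.e (nat_lit 426342) (nat_lit 14) (.e (nat_lit 491558) (nat_lit 10) (.e (nat_lit 344091) (nat_lit 18) (.e (nat_lit 7122) (nat_lit 382) (.e (nat_lit 7936) (nat_lit 90) .nil)))))) (.g (nat_lit 4) .nil .nil))))) (.nd (nat_lit 5) (.nd (nat_lit 6) 
(.lf (nat_lit 206618) (.g (nat_lit 1227) (.e (nat_lit 81925) (nat_lit 11) (.e (nat_lit 426100) (nat_lit 1) (.e (nat_lit 164180) (nat_lit 154) .nil))) .nil)) 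
(.lf (nat_lit 206682) (.g (nat_lit 424) (.e (nat_lit 81925) (nat_lit 11) (.e (nat_lit 426341) (nat_lit 14) (.e (nat_lit 491560) (nat_lit 10) .nil))) .nil))) (.nd (nat_lit 6) 
(.lf (nat_lit 206650) (.g (nat_lit 1836) (.e (nat_lit 81925) (nat_lit 11) (.e (nat_lit 426188) (nat_lit 9) (.e (nat_lit 426448) (nat_lit 20) (.e (nat_lit 114710) (nat_lit 21) .nil)))) .nil)) 
(.lf (nat_lit 206714) (.g (nat_lit 1800) (.e (nat_lit 81925) (nat_lit 11) (.e (nat_lit 426342) (nat_lit 14) (.e (nat_lit 491560) (nat_lit 10) (.e (nat_lit 344094) (nat_lit 18) (.e (nat_lit 7122) (nat_lit 382) (.e (nat_lit 7936) (nat_lit 90) .nil)))))) (.g (nat_lit 4) .nil .nil))))))) (.nd (nat_lit 3) (.nd (nat_lit 4) (.nd (nat_lit 5) (.nd (nat_lit 6) 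
(.lf (nat_lit 206598) (.g (nat_lit 1641) (.e (nat_lit 81925) (nat_lit 11) (.e (nat_lit 426011) (nat_lit 0) (.e (nat_lit 7593) (nat_lit 407) (.e (nat_lit 73730) (nat_lit 0) (.e (nat_lit 7119) (nat_lit 382) .nil))))) .nil)) 
(.lf (nat_lit 206662) (.g (nat_lit 2077) (.e (nat_lit 81925) (nat_lit 11) (.e (nat_lit 426307) (nat_lit 12) (.e (nat_lit 475212) (nat_lit 42) (.e (nat_lit 720931) (nat_lit 21) (.e (nat_lit 57830) (nat_lit 250) (.e (nat_lit 1224) (nat_lit 90) .nil)))))) (.g (nat_lit 6) .nil .nil)))) (.nd (nat_lit 6) 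
(.lf (nat_lit 206630) (.g (nat_lit 954) (.e (nat_lit 81925) (nat_lit 11) (.e (nat_lit 426172) (nat_lit 7) (.e (nat_lit 409623) (nat_lit 10) (.e (nat_lit 5664) (nat_lit 312) (.e (nat_lit 2605) (nat_lit 163) .nil))))) .nil)) 
(.lf (nat_lit 206694) (.g (nat_lit 2008) (.e (nat_lit 81925) (nat_lit 11) (.e (nat_lit 426341) (nat_lit 14) (.e (nat_lit 491566) (nat_lit 12) (.e (nat_lit 385045) (nat_lit 21) .nil)))) .nil)))) (.nd (nat_lit 5) (.nd (nat_lit 6) 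
(.lf (nat_lit 206614) (.g (nat_lit 1603) (.e (nat_lit 81925) (nat_lit 11) (.e (nat_lit 426012) (nat_lit 0) (.e (nat_lit 7593) (nat_lit 407) (.e (nat_lit 73732) (nat_lit 0) (.e (nat_lit 7147) (nat_lit 382) (.e (nat_lit 1216) (nat_lit 90) .nil)))))) (.g (nat_lit 4) .nil .nil))) 
(.lf (nat_lit 206678) (.g (nat_lit 2438) (.e (nat_lit 81925) (nat_lit 11) (.e (nat_lit 426338) (nat_lit 14) (.e (nat_lit 491566) (nat_lit 12) (.e (nat_lit 385077) (nat_lit 34) .nil)))) .nil))) (.nd (nat_lit 6) 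
(.lf (nat_lit 206646) (.g (nat_lit 1002) (.e (nat_lit 81925) (nat_lit 11) (.e (nat_lit 426187) (nat_lit 9) (.e (nat_lit 426448) (nat_lit 20) (.e (nat_lit 114710) (nat_lit 21) .nil)))) .nil)) 
(.lf (nat_lit 206710) (.g (nat_lit 2117) (.e (nat_lit 81925) (nat_lit 11) (.e (nat_lit 426342) (nat_lit 14) (.e (nat_lit 491560) (nat_lit 10) (.e (nat_lit 344090) (nat_lit 18) (.e (nat_lit 7124) (nat_lit 382) (.e (nat_lit 7936) (nat_lit 90) .nil)))))) (.g (nat_lit 5) .nil .nil)))))) (.nd (nat_lit 4) (.nd (nat_lit 5) (.nd (nat_lit 6) 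
(.lf (nat_lit 206606) (.g (nat_lit 1508) (.e (nat_lit 81925) (nat_lit 11) (.e (nat_lit 426012) (nat_lit 0) (.e (nat_lit 7591) (nat_lit 407) (.e (nat_lit 73731) (nat_lit 0) (.e (nat_lit 7124) (nat_lit 382) (.e (nat_lit 7936) (nat_lit 90) .nil)))))) (.g (nat_lit 5) .nil .nil))) 
(.lf (nat_lit 206670) (.g (nat_lit 633) (.e (nat_lit 81925) (nat_lit 11) (.e (nat_lit 426315) (nat_lit 12) (.e (nat_lit 475209) (nat_lit 41) .nil))) .nil))) (.nd (nat_lit 6) 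
(.lf (nat_lit 206638) (.g (nat_lit 985) (.e (nat_lit 81925) (nat_lit 11) (.e (nat_lit 426172) (nat_lit 7) (.e (nat_lit 409646) (nat_lit 18) (.e (nat_lit 303115) (nat_lit 1) .nil)))) .nil)) 
(.lf (nat_lit 206702) (.g (nat_lit 1718) (.e (nat_lit 81925) (nat_lit 11) (.e (nat_lit 426342) (nat_lit 14) (.e (nat_lit 491558) (nat_lit 10) (.e (nat_lit 344096) (nat_lit 18) (.e (nat_lit 7119) (nat_lit 382) (.e (nat_lit 7936) (nat_lit 90) .nil)))))) (.g (nat_lit 4) .nil .nil))))) (.nd (nat_lit 5) (.nd (nat_lit 6) 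
(.lf (nat_lit 206622) (.g (nat_lit 1179) (.e (nat_lit 81925) (nat_lit 11) (.e (nat_lit 426100) (nat_lit 1) (.e (nat_lit 164183) (nat_lit 154) (.e (nat_lit 65280) (nat_lit 12) .nil)))) .nil)) 
(.lf (nat_lit 206686) (.g (nat_lit 1649) (.e (nat_lit 81925) (nat_lit 11) (.e (nat_lit 426341) (nat_lit 14) (.e (nat_lit 491560) (nat_lit 10) (.e (nat_lit 344094) (nat_lit 18) (.e (nat_lit 7122) (nat_lit 382) (.e (nat_lit 7936) (nat_lit 90) .nil)))))) (.g (nat_lit 4) .nil .nil)))) (.nd (nat_lit 6) 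
(.lf (nat_lit 206654) (.g (nat_lit 1605) (.e (nat_lit 81925) (nat_lit 11) (.e (nat_lit 426190) (nat_lit 9) (.e (nat_lit 426448) (nat_lit 20) (.e (nat_lit 114710) (nat_lit 21) (.e (nat_lit 57837) (nat_lit 250) .nil))))) .nil)) 
(.lf (nat_lit 206718) (.g (nat_lit 1850) (.e (nat_lit 81925) (nat_lit 11) (.e (nat_lit 426342) (nat_lit 14) (.e (nat_lit 491560) (nat_lit 10) (.e (nat_lit 344096) (nat_lit 18) (.e (nat_lit 7119) (nat_lit 382) .nil))))) .nil)))))))) (.nd (nat_lit 1) (.nd (nat_lit 2) (.nd (nat_lit 3) (.nd (nat_lit 4) (.nd (nat_lit 5) (.nd (nat_lit 6) 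
(.lf (nat_lit 206593) (.g (nat_lit 1150) (.e (nat_lit 81925) (nat_lit 11) (.e (nat_lit 426011) (nat_lit 0) (.e (nat_lit 7593) (nat_lit 407) (.e (nat_lit 73729) (nat_lit 0) .nil)))) .nil)) 
(.lf (nat_lit 206657) (.g (nat_lit 1568) (.e (nat_lit 81925) (nat_lit 11) (.e (nat_lit 426200) (nat_lit 9) (.e (nat_lit 426448) (nat_lit 20) (.e (nat_lit 114710) (nat_lit 21) .nil)))) .nil))) (.nd (nat_lit 6) 
(.lf (nat_lit 206625) (.g (nat_lit 1607) (.e (nat_lit 81925) (nat_lit 11) (.e (nat_lit 426108) (nat_lit 1) (.e (nat_lit 164182) (nat_lit 154) (.e (nat_lit 57410) (nat_lit 12) .nil)))) .nil)) 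
(.lf (nat_lit 206689) (.g (nat_lit 2559) (.e (nat_lit 81925) (nat_lit 11) (.e (nat_lit 426341) (nat_lit 14) (.e (nat_lit 491560) (nat_lit 10) (.e (nat_lit 344096) (nat_lit 18) (.e (nat_lit 7125) (nat_lit 382) (.e (nat_lit 1224) (nat_lit 90) .nil)))))) (.g (nat_lit 5) .nil .nil))))) (.nd (nat_lit 5) (.nd (nat_lit 6) 
(.lf (nat_lit 206609) (.g (nat_lit 1458) (.e (nat_lit 81925) (nat_lit 11) (.e (nat_lit 426012) (nat_lit 0) (.e (nat_lit 7591) (nat_lit 407) (.e (nat_lit 73772) (nat_lit 24) (.e (nat_lit 769792) (nat_lit 10) .nil))))) (.g (nat_lit 4) .nil .nil))) 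
(.lf (nat_lit 206673) (.g (nat_lit 916) (.e (nat_lit 81925) (nat_lit 11) (.e (nat_lit 426316) (nat_lit 12) (.e (nat_lit 475193) (nat_lit 38) .nil))) .nil))) (.nd (nat_lit 6) 
(.lf (nat_lit 206641) (.g (nat_lit 1053) (.e (nat_lit 81925) (nat_lit 11) (.e (nat_lit 426172) (nat_lit 7) (.e (nat_lit 409648) (nat_lit 18) (.e (nat_lit 303114) (nat_lit 1) .nil)))) .nil)) 
(.lf (nat_lit 206705) (.g (nat_lit 1552) (.e (nat_lit 81925) (nat_lit 11) (.e (nat_lit 426342) (nat_lit 14) (.e (nat_lit 491558) (nat_lit 10) (.e (nat_lit 344174) (nat_lit 42) (.e (nat_lit 769792) (nat_lit 10) .nil))))) (.g (nat_lit 4) .nil .nil)))))) (.nd (nat_lit 4) (.nd (nat_lit 5) (.nd (nat_lit 6) 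
(.lf (nat_lit 206601) (.g (nat_lit 1787) (.e (nat_lit 81925) (nat_lit 11) (.e (nat_lit 426011) (nat_lit 0) (.e (nat_lit 7593) (nat_lit 407) (.e (nat_lit 73772) (nat_lit 24) (.e (nat_lit 769792) (nat_lit 10) .nil))))) (.g (nat_lit 4) .nil .nil))) 
(.lf (nat_lit 206665) (.g (nat_lit 1130) (.e (nat_lit 81925) (nat_lit 11) (.e (nat_lit 426308) (nat_lit 12) (.e (nat_lit 475212) (nat_lit 42) (.e (nat_lit 720931) (nat_lit 21) (.e (nat_lit 57837) (nat_lit 250) .nil))))) .nil))) (.nd (nat_lit 6) 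
(.lf (nat_lit 206633) (.g (nat_lit 1728) (.e (nat_lit 81925) (nat_lit 11) (.e (nat_lit 426172) (nat_lit 7) (.e (nat_lit 409644) (nat_lit 18) (.e (nat_lit 303115) (nat_lit 1) (.e (nat_lit 164148) (nat_lit 152) (.e (nat_lit 1217) (nat_lit 90) .nil)))))) (.g (nat_lit 4) .nil .nil))) 
(.lf (nat_lit 206697) (.g (nat_lit 2051) (.e (nat_lit 81925) (nat_lit 11) (.e (nat_lit 426342) (nat_lit 14) (.e (nat_lit 491558) (nat_lit 10) (.e (nat_lit 344091) (nat_lit 18) (.e (nat_lit 7119) (nat_lit 382) (.e (nat_lit 7936) (nat_lit 90) .nil)))))) (.g (nat_lit 5) .nil .nil))))) (.nd (nat_lit 5) (.nd (nat_lit 6) 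
(.lf (nat_lit 206617) (.g (nat_lit 1227) (.e (nat_lit 81925) (nat_lit 11) (.e (nat_lit 426100) (nat_lit 1) (.e (nat_lit 164176) (nat_lit 154) .nil))) .nil)) 
(.lf (nat_lit 206681) (.g (nat_lit 1519) (.e (nat_lit 81925) (nat_lit 11) (.e (nat_lit 426341) (nat_lit 14) (.e (nat_lit 491558) (nat_lit 10) (.e (nat_lit 344090) (nat_lit 18) .nil)))) .nil))) (.nd (nat_lit 6) 
(.lf (nat_lit 206649) (.g (nat_lit 678) (.e (nat_lit 81925) (nat_lit 11) (.e (nat_lit 426188) (nat_lit 9) (.e (nat_lit 426448) (nat_lit 20) .nil))) .nil)) 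
(.lf (nat_lit 206713) (.g (nat_lit 1801) (.e (nat_lit 81925) (nat_lit 11) (.e (nat_lit 426342) (nat_lit 14) (.e (nat_lit 491560) (nat_lit 10) (.e (nat_lit 344094) (nat_lit 18) (.e (nat_lit 7119) (nat_lit 382) (.e (nat_lit 7936) (nat_lit 90) .nil)))))) (.g (nat_lit 4) .nil .nil))))))) (.nd (nat_lit 3) (.nd (nat_lit 4) (.nd (nat_lit 5) (.nd (nat_lit 6) 
(.lf (nat_lit 206597) (.g (nat_lit 1512) (.e (nat_lit 81925) (nat_lit 11) (.e (nat_lit 426011) (nat_lit 0) (.e (nat_lit 7593) (nat_lit 407) (.e (nat_lit 73730) (nat_lit 0) .nil)))) .nil)) 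
(.lf (nat_lit 206661) (.g (nat_lit 2495) (.e (nat_lit 81925) (nat_lit 11) (.e (nat_lit 426306) (nat_lit 12) (.e (nat_lit 475214) (nat_lit 42) (.e (nat_lit 720932) (nat_lit 21) .nil)))) .nil))) (.nd (nat_lit 6) 
(.lf (nat_lit 206629) (.g (nat_lit 2046) (.e (nat_lit 81925) (nat_lit 11) (.e (nat_lit 426166) (nat_lit 7) (.e (nat_lit 409646) (nat_lit 18) (.e (nat_lit 303115) (nat_lit 1) (.e (nat_lit 164148) (nat_lit 152) (.e (nat_lit 1217) (nat_lit 90) .nil)))))) (.g (nat_lit 4) .nil .nil))) 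
(.lf (nat_lit 206693) (.g (nat_lit 3337) (.e (nat_lit 81925) (nat_lit 11) (.e (nat_lit 426341) (nat_lit 14) (.e (nat_lit 491560) (nat_lit 10) (.e (nat_lit 344177) (nat_lit 43) (.e (nat_lit 770074) (nat_lit 10) .nil))))) (.g (nat_lit 0) .nil .nil))))) (.nd (nat_lit 5) (.nd (nat_lit 6) 
(.lf (nat_lit 206613) (.g (nat_lit 1603) (.e (nat_lit 81925) (nat_lit 11) (.e (nat_lit 426012) (nat_lit 0) (.e (nat_lit 7593) (nat_lit 407) (.e (nat_lit 73731) (nat_lit 0) (.e (nat_lit 7122) (nat_lit 382) (.e (nat_lit 7936) (nat_lit 90) .nil)))))) (.g (nat_lit 4) .nil .nil))) 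
(.lf (nat_lit 206677) (.g (nat_lit 2247) (.e (nat_lit 81925) (nat_lit 11) (.e (nat_lit 426338) (nat_lit 14) (.e (nat_lit 491566) (nat_lit 12) (.e (nat_lit 385045) (nat_lit 21) .nil)))) .nil))) (.nd (nat_lit 6) 
(.lf (nat_lit 206645) (.g (nat_lit 2122) (.e (nat_lit 81925) (nat_lit 11) (.e (nat_lit 426172) (nat_lit 7) (.e (nat_lit 409649) (nat_lit 18) (.e (nat_lit 303114) (nat_lit 1) (.e (nat_lit 164151) (nat_lit 152) (.e (nat_lit 1217) (nat_lit 90) .nil)))))) (.g (nat_lit 5) .nil .nil))) 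
(.lf (nat_lit 206709) (.g (nat_lit 2023) (.e (nat_lit 81925) (nat_lit 11) (.e (nat_lit 426342) (nat_lit 14) (.e (nat_lit 491560) (nat_lit 10) (.e (nat_lit 344090) (nat_lit 18) (.e (nat_lit 7119) (nat_lit 382) (.e (nat_lit 7936) (nat_lit 90) .nil)))))) (.g (nat_lit 5) .nil .nil)))))) (.nd (nat_lit 4) (.nd (nat_lit 5) (.nd (nat_lit 6) 
(.lf (nat_lit 206605) (.g (nat_lit 1575) (.e (nat_lit 81925) (nat_lit 11) (.e (nat_lit 426012) (nat_lit 0) (.e (nat_lit 7591) (nat_lit 407) (.e (nat_lit 73731) (nat_lit 0) (.e (nat_lit 7122) (nat_lit 382) (.e (nat_lit 7936) (nat_lit 90) .nil)))))) (.g (nat_lit 4) .nil .nil))) 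
(.lf (nat_lit 206669) (.g (nat_lit 630) (.e (nat_lit 81925) (nat_lit 11) (.e (nat_lit 426315) (nat_lit 12) (.e (nat_lit 475193) (nat_lit 38) .nil))) .nil))) (.nd (nat_lit 6) 
(.lf (nat_lit 206637) (.g (nat_lit 2692) (.e (nat_lit 81925) (nat_lit 11) (.e (nat_lit 426172) (nat_lit 7) (.e (nat_lit 409646) (nat_lit 18) (.e (nat_lit 303112) (nat_lit 0) (.e (nat_lit 2478) (nat_lit 157) (.e (nat_lit 6273) (nat_lit 337) (.e (nat_lit 1217) (nat_lit 90) .nil))))))) (.g (nat_lit 4) .nil .nil))) 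
(.lf (nat_lit 206701) (.g (nat_lit 1624) (.e (nat_lit 81925) (nat_lit 11) (.e (nat_lit 426342) (nat_lit 14) (.e (nat_lit 491558) (nat_lit 10) (.e (nat_lit 344095) (nat_lit 18) (.e (nat_lit 7122) (nat_lit 382) (.e (nat_lit 7936) (nat_lit 90) .nil)))))) (.g (nat_lit 5) .nil .nil))))) (.nd (nat_lit 5) (.nd (nat_lit 6) 
(.lf (nat_lit 206621) (.g (nat_lit 2827) (.e (nat_lit 81925) (nat_lit 11) (.e (nat_lit 426100) (nat_lit 1) (.e (nat_lit 164182) (nat_lit 154) (.e (nat_lit 57411) (nat_lit 12) (.e (nat_lit 336320) (nat_lit 17) .nil))))) .nil)) 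
(.lf (nat_lit 206685) (.g (nat_lit 1650) (.e (nat_lit 81925) (nat_lit 11) (.e (nat_lit 426341) (nat_lit 14) (.e (nat_lit 491560) (nat_lit 10) (.e (nat_lit 344094) (nat_lit 18) (.e (nat_lit 7119) (nat_lit 382) (.e (nat_lit 7936) (nat_lit 90) .nil)))))) (.g (nat_lit 4) .nil .nil)))) (.nd (nat_lit 6) 
(.lf (nat_lit 206653) (.g (nat_lit 1324) (.e (nat_lit 81925) (nat_lit 11) (.e (nat_lit 426190) (nat_lit 9) (.e (nat_lit 426448) (nat_lit 20) (.e (nat_lit 114710) (nat_lit 21) (.e (nat_lit 57829) (nat_lit 250) .nil))))) .nil)) 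
(.lf (nat_lit 206717) (.g (nat_lit 1537) (.e (nat_lit 81925) (nat_lit 11) (.e (nat_lit 426342) (nat_lit 14) (.e (nat_lit 491560) (nat_lit 10) (.e (nat_lit 344095) (nat_lit 18) .nil)))) .nil))))))) (.nd (nat_lit 2) (.nd (nat_lit 3) (.nd (nat_lit 4) (.nd (nat_lit 5) (.nd (nat_lit 6) 
(.lf (nat_lit 206595) (.g (nat_lit 2342) (.e (nat_lit 81925) (nat_lit 11) (.e (nat_lit 426011) (nat_lit 0) (.e (nat_lit 7593) (nat_lit 407) (.e (nat_lit 73729) (nat_lit 0) (.e (nat_lit 7122) (nat_lit 382) (.e (nat_lit 7936) (nat_lit 90) .nil)))))) (.g (nat_lit 5) .nil .nil))) 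
(.lf (nat_lit 206659) (.g (nat_lit 789) (.e (nat_lit 81925) (nat_lit 11) (.e (nat_lit 426306) (nat_lit 12) (.e (nat_lit 475193) (nat_lit 38) .nil))) .nil))) (.nd (nat_lit 6) 
(.lf (nat_lit 206627) (.g (nat_lit 1632) (.e (nat_lit 81925) (nat_lit 11) (.e (nat_lit 426108) (nat_lit 1) (.e (nat_lit 164183) (nat_lit 154) (.e (nat_lit 57410) (nat_lit 12) (.e (nat_lit 336320) (nat_lit 17) .nil))))) .nil)) 
(.lf (nat_lit 206691) (.g (nat_lit 2221) (.e (nat_lit 81925) (nat_lit 11) (.e (nat_lit 426341) (nat_lit 14) (.e (nat_lit 491560) (nat_lit 10) (.e (nat_lit 344097) (nat_lit 18) (.e (nat_lit 7147) (nat_lit 382) .nil))))) .nil)))) (.nd (nat_lit 5) (.nd (nat_lit 6) 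
(.lf (nat_lit 206611) (.g (nat_lit 2062) (.e (nat_lit 81925) (nat_lit 11) (.e (nat_lit 426012) (nat_lit 0) (.e (nat_lit 7593) (nat_lit 407) (.e (nat_lit 73729) (nat_lit 0) (.e (nat_lit 7119) (nat_lit 382) (.e (nat_lit 7936) (nat_lit 90) .nil)))))) (.g (nat_lit 5) .nil .nil))) 
(.lf (nat_lit 206675) (.g (nat_lit 2005) (.e (nat_lit 81925) (nat_lit 11) (.e (nat_lit 426316) (nat_lit 12) (.e (nat_lit 475212) (nat_lit 42) (.e (nat_lit 720934) (nat_lit 21) .nil)))) .nil))) (.nd (nat_lit 6) 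
(.lf (nat_lit 206643) (.g (nat_lit 2332) (.e (nat_lit 81925) (nat_lit 11) (.e (nat_lit 426172) (nat_lit 7) (.e (nat_lit 409649) (nat_lit 18) (.e (nat_lit 303111) (nat_lit 0) (.e (nat_lit 3468) (nat_lit 217) (.e (nat_lit 696363) (nat_lit 18) .nil)))))) (.g (nat_lit 5) .nil .nil))) 
(.lf (nat_lit 206707) (.g (nat_lit 220) (.e (nat_lit 81925) (nat_lit 11) (.e (nat_lit 426342) (nat_lit 14) (.e (nat_lit 491560) (nat_lit 10) .nil))) .nil))))) (.nd (nat_lit 4) (.nd (nat_lit 5) (.nd (nat_lit 6) 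
(.lf (nat_lit 206603) (.g (nat_lit 1523) (.e (nat_lit 81925) (nat_lit 11) (.e (nat_lit 426012) (nat_lit 0) (.e (nat_lit 7591) (nat_lit 407) (.e (nat_lit 73730) (nat_lit 0) (.e (nat_lit 7122) (nat_lit 382) (.e (nat_lit 7936) (nat_lit 90) .nil)))))) (.g (nat_lit 5) .nil .nil))) 
(.lf (nat_lit 206667) (.g (nat_lit 960) (.e (nat_lit 81925) (nat_lit 11) (.e (nat_lit 426308) (nat_lit 12) (.e (nat_lit 475214) (nat_lit 42) (.e (nat_lit 720930) (nat_lit 21) .nil)))) .nil))) (.nd (nat_lit 6) 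
(.lf (nat_lit 206635) (.g (nat_lit 1291) (.e (nat_lit 81925) (nat_lit 11) (.e (nat_lit 426172) (nat_lit 7) (.e (nat_lit 409645) (nat_lit 18) (.e (nat_lit 303114) (nat_lit 1) .nil)))) .nil)) 
(.lf (nat_lit 206699) (.g (nat_lit 2011) (.e (nat_lit 81925) (nat_lit 11) (.e (nat_lit 426342) (nat_lit 14) (.e (nat_lit 491558) (nat_lit 10) (.e (nat_lit 344091) (nat_lit 18) (.e (nat_lit 7124) (nat_lit 382) (.e (nat_lit 7936) (nat_lit 90) .nil)))))) (.g (nat_lit 5) .nil .nil))))) (.nd (nat_lit 5) (.nd (nat_lit 6) 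
(.lf (nat_lit 206619) (.g (nat_lit 2923) (.e (nat_lit 81925) (nat_lit 11) (.e (nat_lit 426100) (nat_lit 1) (.e (nat_lit 164180) (nat_lit 154) (.e (nat_lit 57411) (nat_lit 12) (.e (nat_lit 336316) (nat_lit 17) .nil))))) .nil)) 
(.lf (nat_lit 206683) (.g (nat_lit 1716) (.e (nat_lit 81925) (nat_lit 11) (.e (nat_lit 426341) (nat_lit 14) (.e (nat_lit 491560) (nat_lit 10) (.e (nat_lit 344089) (nat_lit 18) .nil)))) .nil))) (.nd (nat_lit 6) 
(.lf (nat_lit 206651) (.g (nat_lit 2427) (.e (nat_lit 81925) (nat_lit 11) (.e (nat_lit 426189) (nat_lit 9) (.e (nat_lit 426448) (nat_lit 20) (.e (nat_lit 114712) (nat_lit 21) (.e (nat_lit 57830) (nat_lit 250) (.e (nat_lit 1224) (nat_lit 90) .nil)))))) (.g (nat_lit 6) .nil .nil))) 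
(.lf (nat_lit 206715) (.g (nat_lit 1819) (.e (nat_lit 81925) (nat_lit 11) (.e (nat_lit 426342) (nat_lit 14) (.e (nat_lit 491560) (nat_lit 10) (.e (nat_lit 344094) (nat_lit 18) (.e (nat_lit 7124) (nat_lit 382) (.e (nat_lit 7936) (nat_lit 90) .nil)))))) (.g (nat_lit 4) .nil .nil))))))) (.nd (nat_lit 3) (.nd (nat_lit 4) (.nd (nat_lit 5) (.nd (nat_lit 6) 
(.lf (nat_lit 206599) (.g (nat_lit 1941) (.e (nat_lit 81925) (nat_lit 11) (.e (nat_lit 426011) (nat_lit 0) (.e (nat_lit 7593) (nat_lit 407) (.e (nat_lit 73730) (nat_lit 0) (.e (nat_lit 7122) (nat_lit 382) (.e (nat_lit 7936) (nat_lit 90) .nil)))))) (.g (nat_lit 4) .nil .nil))) 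
(.lf (nat_lit 206663) (.g (nat_lit 2306) (.e (nat_lit 81925) (nat_lit 11) (.e (nat_lit 426307) (nat_lit 12) (.e (nat_lit 475214) (nat_lit 42) (.e (nat_lit 720931) (nat_lit 21) (.e (nat_lit 57830) (nat_lit 250) (.e (nat_lit 1224) (nat_lit 90) .nil)))))) (.g (nat_lit 6) .nil .nil)))) (.nd (nat_lit 6) 
(.lf (nat_lit 206631) (.g (nat_lit 373) (.e (nat_lit 81925) (nat_lit 11) (.e (nat_lit 426172) (nat_lit 7) (.e (nat_lit 417536) (nat_lit 16) .nil))) .nil)) 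
(.lf (nat_lit 206695) (.g (nat_lit 2362) (.e (nat_lit 81925) (nat_lit 11) (.e (nat_lit 426341) (nat_lit 14) (.e (nat_lit 491566) (nat_lit 12) (.e (nat_lit 385077) (nat_lit 34) .nil)))) .nil)))) (.nd (nat_lit 5) (.nd (nat_lit 6) 
(.lf (nat_lit 206615) (.g (nat_lit 859) (.e (nat_lit 81925) (nat_lit 11) (.e (nat_lit 426012) (nat_lit 0) (.e (nat_lit 7593) (nat_lit 407) (.e (nat_lit 81664) (nat_lit 0) .nil)))) .nil)) 
(.lf (nat_lit 206679) (.g (nat_lit 1206) (.e (nat_lit 81925) (nat_lit 11) (.e (nat_lit 426341) (nat_lit 14) (.e (nat_lit 491546) (nat_lit 9) (.e (nat_lit 335997) (nat_lit 1) .nil)))) .nil))) (.nd (nat_lit 6) 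
(.lf (nat_lit 206647) (.g (nat_lit 1030) (.e (nat_lit 81925) (nat_lit 11) (.e (nat_lit 426187) (nat_lit 9) (.e (nat_lit 426448) (nat_lit 20) (.e (nat_lit 114711) (nat_lit 21) .nil)))) .nil)) 
(.lf (nat_lit 206711) (.g (nat_lit 1949) (.e (nat_lit 81925) (nat_lit 11) (.e (nat_lit 426342) (nat_lit 14) (.e (nat_lit 491560) (nat_lit 10) (.e (nat_lit 344091) (nat_lit 18) (.e (nat_lit 7119) (nat_lit 382) (.e (nat_lit 7936) (nat_lit 90) .nil)))))) (.g (nat_lit 4) .nil .nil)))))) (.nd (nat_lit 4) (.nd (nat_lit 5) (.nd (nat_lit 6) 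
(.lf (nat_lit 206607) (.g (nat_lit 1615) (.e (nat_lit 81925) (nat_lit 11) (.e (nat_lit 426012) (nat_lit 0) (.e (nat_lit 7591) (nat_lit 407) (.e (nat_lit 73733) (nat_lit 0) (.e (nat_lit 7147) (nat_lit 382) (.e (nat_lit 1216) (nat_lit 90) .nil)))))) (.g (nat_lit 4) .nil .nil))) 
(.lf (nat_lit 206671) (.g (nat_lit 834) (.e (nat_lit 81925) (nat_lit 11) (.e (nat_lit 426315) (nat_lit 12) (.e (nat_lit 475213) (nat_lit 42) (.e (nat_lit 720931) (nat_lit 21) .nil)))) .nil))) (.nd (nat_lit 6) 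
(.lf (nat_lit 206639) (.g (nat_lit 1642) (.e (nat_lit 81925) (nat_lit 11) (.e (nat_lit 426172) (nat_lit 7) (.e (nat_lit 409646) (nat_lit 18) (.e (nat_lit 303115) (nat_lit 1) (.e (nat_lit 164151) (nat_lit 152) .nil))))) .nil)) 
(.lf (nat_lit 206703) (.g (nat_lit 2032) (.e (nat_lit 81925) (nat_lit 11) (.e (nat_lit 426342) (nat_lit 14) (.e (nat_lit 491558) (nat_lit 10) (.e (nat_lit 344096) (nat_lit 18) (.e (nat_lit 7124) (nat_lit 382) (.e (nat_lit 7936) (nat_lit 90) .nil)))))) (.g (nat_lit 5) .nil .nil))))) (.nd (nat_lit 5) (.nd (nat_lit 6) 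
(.lf (nat_lit 206623) (.g (nat_lit 1502) (.e (nat_lit 81925) (nat_lit 11) (.e (nat_lit 426107) (nat_lit 1) (.e (nat_lit 164179) (nat_lit 154) (.e (nat_lit 57408) (nat_lit 12) .nil)))) .nil)) 
(.lf (nat_lit 206687) (.g (nat_lit 1668) (.e (nat_lit 81925) (nat_lit 11) (.e (nat_lit 426341) (nat_lit 14) (.e (nat_lit 491560) (nat_lit 10) (.e (nat_lit 344094) (nat_lit 18) (.e (nat_lit 7124) (nat_lit 382) (.e (nat_lit 7936) (nat_lit 90) .nil)))))) (.g (nat_lit 4) .nil .nil)))) (.nd (nat_lit 6) 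
(.lf (nat_lit 206655) (.g (nat_lit 703) (.e (nat_lit 81925) (nat_lit 11) (.e (nat_lit 426198) (nat_lit 9) (.e (nat_lit 426446) (nat_lit 20) .nil))) .nil)) 
(.lf (nat_lit 206719) (.g (nat_lit 2092) (.e (nat_lit 81925) (nat_lit 11) (.e (nat_lit 426342) (nat_lit 14) (.e (nat_lit 491560) (nat_lit 10) (.e (nat_lit 344096) (nat_lit 18) (.e (nat_lit 7122) (nat_lit 382) (.e (nat_lit 7936) (nat_lit 90) .nil)))))) (.g (nat_lit 4) .nil .nil))))))))))

noncomputable def tv2727 : DT := (.nd (nat_lit 0) (.nd (nat_lit 1) (.nd (nat_lit 2) (.nd (nat_lit 3) (.nd (nat_lit 4) (.nd (nat_lit 5) (.nd (nat_lit 6) 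
(.lf (nat_lit 206720) (.g (nat_lit 2014) (.e (nat_lit 81925) (nat_lit 11) (.e (nat_lit 426342) (nat_lit 14) (.e (nat_lit 491560) (nat_lit 10) (.e (nat_lit 344096) (nat_lit 18) (.e (nat_lit 7124) (nat_lit 382) (.e (nat_lit 7936) (nat_lit 90) .nil)))))) (.g (nat_lit 4) .nil .nil))) 
(.lf (nat_lit 206784) (.g (nat_lit 1716) (.e (nat_lit 81925) (nat_lit 11) (.e (nat_lit 426343) (nat_lit 14) (.e (nat_lit 491560) (nat_lit 10) (.e (nat_lit 344091) (nat_lit 18) (.e (nat_lit 7226) (nat_lit 382) .nil))))) .nil))) (.nd (nat_lit 6) 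
(.lf (nat_lit 206752) (.g (nat_lit 1068) (.e (nat_lit 81925) (nat_lit 11) (.e (nat_lit 426343) (nat_lit 14) (.e (nat_lit 491558) (nat_lit 10) (.e (nat_lit 344090) (nat_lit 18) .nil)))) .nil)) 
(.lf (nat_lit 206816) (.g (nat_lit 2343) (.e (nat_lit 81925) (nat_lit 11) (.e (nat_lit 426344) (nat_lit 14) (.e (nat_lit 491558) (nat_lit 10) (.e (nat_lit 344091) (nat_lit 18) (.e (nat_lit 7124) (nat_lit 382) (.e (nat_lit 7936) (nat_lit 90) .nil)))))) (.g (nat_lit 5) .nil .nil))))) (.nd (nat_lit 5) (.nd (nat_lit 6) 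
(.lf (nat_lit 206736) (.g (nat_lit 2180) (.e (nat_lit 81925) (nat_lit 11) (.e (nat_lit 426343) (nat_lit 14) (.e (nat_lit 491546) (nat_lit 9) (.e (nat_lit 335997) (nat_lit 1) (.e (nat_lit 57651) (nat_lit 152) .nil))))) .nil)) 
(.lf (nat_lit 206800) (.g (nat_lit 3182) (.e (nat_lit 81925) (nat_lit 11) (.e (nat_lit 426343) (nat_lit 14) (.e (nat_lit 491560) (nat_lit 10) (.e (nat_lit 344097) (nat_lit 18) (.e (nat_lit 7160) (nat_lit 382) (.e (nat_lit 1215) (nat_lit 90) .nil)))))) (.g (nat_lit 5) .nil .nil)))) (.nd (nat_lit 6) 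
(.lf (nat_lit 206768) (.g (nat_lit 1899) (.e (nat_lit 81925) (nat_lit 11) (.e (nat_lit 426343) (nat_lit 14) (.e (nat_lit 491558) (nat_lit 10) (.e (nat_lit 344097) (nat_lit 18) (.e (nat_lit 7146) (nat_lit 382) .nil))))) .nil)) 
(.lf (nat_lit 206832) (.g (nat_lit 1670) (.e (nat_lit 81925) (nat_lit 11) (.e (nat_lit 426344) (nat_lit 14) (.e (nat_lit 491560) (nat_lit 10) (.e (nat_lit 344088) (nat_lit 18) .nil)))) .nil))))) (.nd (nat_lit 4) (.nd (nat_lit 5) (.nd (nat_lit 6) 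
(.lf (nat_lit 206728) (.g (nat_lit 1881) (.e (nat_lit 81925) (nat_lit 11) (.e (nat_lit 426342) (nat_lit 14) (.e (nat_lit 491560) (nat_lit 10) (.e (nat_lit 344174) (nat_lit 42) (.e (nat_lit 769792) (nat_lit 10) .nil))))) (.g (nat_lit 4) .nil .nil))) 
(.lf (nat_lit 206792) (.g (nat_lit 2355) (.e (nat_lit 81925) (nat_lit 11) (.e (nat_lit 426343) (nat_lit 14) (.e (nat_lit 491560) (nat_lit 10) (.e (nat_lit 344096) (nat_lit 18) (.e (nat_lit 7124) (nat_lit 382) (.e (nat_lit 7936) (nat_lit 90) .nil)))))) (.g (nat_lit 4) .nil .nil)))) (.nd (nat_lit 6) 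
(.lf (nat_lit 206760) (.g (nat_lit 1956) (.e (nat_lit 81925) (nat_lit 11) (.e (nat_lit 426343) (nat_lit 14) (.e (nat_lit 491558) (nat_lit 10) (.e (nat_lit 344093) (nat_lit 18) (.e (nat_lit 7168) (nat_lit 382) .nil))))) .nil)) 
(.lf (nat_lit 206824) (.g (nat_lit 1737) (.e (nat_lit 81925) (nat_lit 11) (.e (nat_lit 426344) (nat_lit 14) (.e (nat_lit 491558) (nat_lit 10) (.e (nat_lit 344097) (nat_lit 18) (.e (nat_lit 7147) (nat_lit 382) (.e (nat_lit 1216) (nat_lit 90) .nil)))))) (.g (nat_lit 4) .nil .nil))))) (.nd (nat_lit 5) (.nd (nat_lit 6) 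
(.lf (nat_lit 206744) (.g (nat_lit 1673) (.e (nat_lit 81925) (nat_lit 11) (.e (nat_lit 426343) (nat_lit 14) (.e (nat_lit 491546) (nat_lit 9) (.e (nat_lit 336000) (nat_lit 1) .nil)))) .nil)) 
(.lf (nat_lit 206808) (.g (nat_lit 1231) (.e (nat_lit 81925) (nat_lit 11) (.e (nat_lit 426344) (nat_lit 14) (.e (nat_lit 491546) (nat_lit 9) (.e (nat_lit 335997) (nat_lit 1) .nil)))) .nil))) (.nd (nat_lit 6) 
(.lf (nat_lit 206776) (.g (nat_lit 1154) (.e (nat_lit 81925) (nat_lit 11) (.e (nat_lit 426343) (nat_lit 14) (.e (nat_lit 491560) (nat_lit 10) (.e (nat_lit 344090) (nat_lit 18) .nil)))) .nil)) 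
(.lf (nat_lit 206840) (.g (nat_lit 2002) (.e (nat_lit 81925) (nat_lit 11) (.e (nat_lit 426344) (nat_lit 14) (.e (nat_lit 491560) (nat_lit 10) (.e (nat_lit 344091) (nat_lit 18) (.e (nat_lit 7124) (nat_lit 382) (.e (nat_lit 7936) (nat_lit 90) .nil)))))) (.g (nat_lit 4) .nil .nil))))))) (.nd (nat_lit 3) (.nd (nat_lit 4) (.nd (nat_lit 5) (.nd (nat_lit 6) 
(.lf (nat_lit 206724) (.g (nat_lit 2115) (.e (nat_lit 81925) (nat_lit 11) (.e (nat_lit 426342) (nat_lit 14) (.e (nat_lit 491560) (nat_lit 10) (.e (nat_lit 344097) (nat_lit 18) (.e (nat_lit 7147) (nat_lit 382) (.e (nat_lit 1216) (nat_lit 90) .nil)))))) (.g (nat_lit 4) .nil .nil))) 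
(.lf (nat_lit 206788) (.g (nat_lit 3355) (.e (nat_lit 81925) (nat_lit 11) (.e (nat_lit 426343) (nat_lit 14) (.e (nat_lit 491560) (nat_lit 10) (.e (nat_lit 344094) (nat_lit 18) (.e (nat_lit 7125) (nat_lit 382) (.e (nat_lit 1224) (nat_lit 90) .nil)))))) (.g (nat_lit 6) .nil .nil)))) (.nd (nat_lit 6) 
(.lf (nat_lit 206756) (.g (nat_lit 2536) (.e (nat_lit 81925) (nat_lit 11) (.e (nat_lit 426343) (nat_lit 14) (.e (nat_lit 491558) (nat_lit 10) (.e (nat_lit 344091) (nat_lit 18) (.e (nat_lit 7122) (nat_lit 382) (.e (nat_lit 7936) (nat_lit 90) .nil)))))) (.g (nat_lit 4) .nil .nil))) 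
(.lf (nat_lit 206820) (.g (nat_lit 2104) (.e (nat_lit 81925) (nat_lit 11) (.e (nat_lit 426344) (nat_lit 14) (.e (nat_lit 491558) (nat_lit 10) (.e (nat_lit 344096) (nat_lit 18) (.e (nat_lit 7119) (nat_lit 382) (.e (nat_lit 7936) (nat_lit 90) .nil)))))) (.g (nat_lit 4) .nil .nil))))) (.nd (nat_lit 5) (.nd (nat_lit 6) 
(.lf (nat_lit 206740) (.g (nat_lit 3026) (.e (nat_lit 81925) (nat_lit 11) (.e (nat_lit 426343) (nat_lit 14) (.e (nat_lit 491546) (nat_lit 9) (.e (nat_lit 335997) (nat_lit 1) (.e (nat_lit 57660) (nat_lit 152) (.e (nat_lit 7936) (nat_lit 90) .nil)))))) (.g (nat_lit 5) .nil .nil))) 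
(.lf (nat_lit 206804) (.g (nat_lit 1635) (.e (nat_lit 81925) (nat_lit 11) (.e (nat_lit 426343) (nat_lit 14) (.e (nat_lit 491560) (nat_lit 10) (.e (nat_lit 352000) (nat_lit 18) .nil)))) .nil))) (.nd (nat_lit 6) 
(.lf (nat_lit 206772) (.g (nat_lit 3026) (.e (nat_lit 81925) (nat_lit 11) (.e (nat_lit 426343) (nat_lit 14) (.e (nat_lit 491559) (nat_lit 10) (.e (nat_lit 344177) (nat_lit 43) (.e (nat_lit 770074) (nat_lit 10) .nil))))) (.g (nat_lit 5) .nil .nil))) 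
(.lf (nat_lit 206836) (.g (nat_lit 1653) (.e (nat_lit 81925) (nat_lit 11) (.e (nat_lit 426344) (nat_lit 14) (.e (nat_lit 491560) (nat_lit 10) (.e (nat_lit 344090) (nat_lit 18) (.e (nat_lit 7122) (nat_lit 382) .nil))))) .nil))))) (.nd (nat_lit 4) (.nd (nat_lit 5) (.nd (nat_lit 6) 
(.lf (nat_lit 206732) (.g (nat_lit 484) (.e (nat_lit 81925) (nat_lit 11) (.e (nat_lit 426343) (nat_lit 14) (.e (nat_lit 491546) (nat_lit 9) .nil))) .nil)) 
(.lf (nat_lit 206796) (.g (nat_lit 2295) (.e (nat_lit 81925) (nat_lit 11) (.e (nat_lit 426343) (nat_lit 14) (.e (nat_lit 491560) (nat_lit 10) (.e (nat_lit 344097) (nat_lit 18) (.e (nat_lit 7146) (nat_lit 382) (.e (nat_lit 1216) (nat_lit 90) .nil)))))) (.g (nat_lit 4) .nil .nil)))) (.nd (nat_lit 6) 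
(.lf (nat_lit 206764) (.g (nat_lit 2326) (.e (nat_lit 81925) (nat_lit 11) (.e (nat_lit 426343) (nat_lit 14) (.e (nat_lit 491558) (nat_lit 10) (.e (nat_lit 344096) (nat_lit 18) (.e (nat_lit 7122) (nat_lit 382) (.e (nat_lit 1224) (nat_lit 90) .nil)))))) (.g (nat_lit 4) .nil .nil))) 
(.lf (nat_lit 206828) (.g (nat_lit 1932) (.e (nat_lit 81925) (nat_lit 11) (.e (nat_lit 426344) (nat_lit 14) (.e (nat_lit 491558) (nat_lit 10) (.e (nat_lit 344174) (nat_lit 42) (.e (nat_lit 769792) (nat_lit 10) .nil))))) (.g (nat_lit 4) .nil .nil))))) (.nd (nat_lit 5) (.nd (nat_lit 6) 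
(.lf (nat_lit 206748) (.g (nat_lit 1717) (.e (nat_lit 81925) (nat_lit 11) (.e (nat_lit 426343) (nat_lit 14) (.e (nat_lit 491556) (nat_lit 9) (.e (nat_lit 335872) (nat_lit 0) .nil)))) .nil)) 
(.lf (nat_lit 206812) (.g (nat_lit 1688) (.e (nat_lit 81925) (nat_lit 11) (.e (nat_lit 426344) (nat_lit 14) (.e (nat_lit 491558) (nat_lit 10) (.e (nat_lit 344090) (nat_lit 18) (.e (nat_lit 7119) (nat_lit 382) (.e (nat_lit 7936) (nat_lit 90) .nil)))))) (.g (nat_lit 4) .nil .nil)))) (.nd (nat_lit 6) 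
(.lf (nat_lit 206780) (.g (nat_lit 2349) (.e (nat_lit 81925) (nat_lit 11) (.e (nat_lit 426343) (nat_lit 14) (.e (nat_lit 491560) (nat_lit 10) (.e (nat_lit 344091) (nat_lit 18) (.e (nat_lit 7119) (nat_lit 382) (.e (nat_lit 7936) (nat_lit 90) .nil)))))) (.g (nat_lit 4) .nil .nil))) 
(.lf (nat_lit 206844) (.g (nat_lit 2009) (.e (nat_lit 81925) (nat_lit 11) (.e (nat_lit 426344) (nat_lit 14) (.e (nat_lit 491560) (nat_lit 10) (.e (nat_lit 344094) (nat_lit 18) (.e (nat_lit 7122) (nat_lit 382) (.e (nat_lit 7936) (nat_lit 90) .nil)))))) (.g (nat_lit 4) .nil .nil)))))))) (.nd (nat_lit 2) (.nd (nat_lit 3) (.nd (nat_lit 4) (.nd (nat_lit 5) (.nd (nat_lit 6) 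
(.lf (nat_lit 206722) (.g (nat_lit 1952) (.e (nat_lit 81925) (nat_lit 11) (.e (nat_lit 426342) (nat_lit 14) (.e (nat_lit 491560) (nat_lit 10) (.e (nat_lit 344097) (nat_lit 18) (.e (nat_lit 7145) (nat_lit 382) .nil))))) .nil)) 
(.lf (nat_lit 206786) (.g (nat_lit 2171) (.e (nat_lit 81925) (nat_lit 11) (.e (nat_lit 426343) (nat_lit 14) (.e (nat_lit 491560) (nat_lit 10) (.e (nat_lit 344094) (nat_lit 18) (.e (nat_lit 7122) (nat_lit 382) (.e (nat_lit 7936) (nat_lit 90) .nil)))))) (.g (nat_lit 4) .nil .nil)))) (.nd (nat_lit 6) 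
(.lf (nat_lit 206754) (.g (nat_lit 2113) (.e (nat_lit 81925) (nat_lit 11) (.e (nat_lit 426343) (nat_lit 14) (.e (nat_lit 491558) (nat_lit 10) (.e (nat_lit 344090) (nat_lit 18) (.e (nat_lit 7124) (nat_lit 382) (.e (nat_lit 7936) (nat_lit 90) .nil)))))) (.g (nat_lit 4) .nil .nil))) 
(.lf (nat_lit 206818) (.g (nat_lit 1776) (.e (nat_lit 81925) (nat_lit 11) (.e (nat_lit 426344) (nat_lit 14) (.e (nat_lit 491558) (nat_lit 10) (.e (nat_lit 344095) (nat_lit 18) (.e (nat_lit 7119) (nat_lit 382) (.e (nat_lit 7936) (nat_lit 90) .nil)))))) (.g (nat_lit 4) .nil .nil))))) (.nd (nat_lit 5) (.nd (nat_lit 6) 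
(.lf (nat_lit 206738) (.g (nat_lit 3680) (.e (nat_lit 81925) (nat_lit 11) (.e (nat_lit 426343) (nat_lit 14) (.e (nat_lit 491546) (nat_lit 9) (.e (nat_lit 335997) (nat_lit 1) (.e (nat_lit 57655) (nat_lit 152) (.e (nat_lit 1217) (nat_lit 90) .nil)))))) (.g (nat_lit 6) .nil .nil))) 
(.lf (nat_lit 206802) (.g (nat_lit 1698) (.e (nat_lit 81925) (nat_lit 11) (.e (nat_lit 426343) (nat_lit 14) (.e (nat_lit 491560) (nat_lit 10) (.e (nat_lit 344099) (nat_lit 18) (.e (nat_lit 7160) (nat_lit 382) .nil))))) .nil))) (.nd (nat_lit 6) 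
(.lf (nat_lit 206770) (.g (nat_lit 2254) (.e (nat_lit 81925) (nat_lit 11) (.e (nat_lit 426343) (nat_lit 14) (.e (nat_lit 491558) (nat_lit 10) (.e (nat_lit 344174) (nat_lit 42) (.e (nat_lit 769792) (nat_lit 10) .nil))))) (.g (nat_lit 4) .nil .nil))) 
(.lf (nat_lit 206834) (.g (nat_lit 1209) (.e (nat_lit 81925) (nat_lit 11) (.e (nat_lit 426344) (nat_lit 14) (.e (nat_lit 491560) (nat_lit 10) (.e (nat_lit 344090) (nat_lit 18) .nil)))) .nil))))) (.nd (nat_lit 4) (.nd (nat_lit 5) (.nd (nat_lit 6) 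
(.lf (nat_lit 206730) (.g (nat_lit 1888) (.e (nat_lit 81925) (nat_lit 11) (.e (nat_lit 426342) (nat_lit 14) (.e (nat_lit 491560) (nat_lit 10) (.e (nat_lit 344176) (nat_lit 43) (.e (nat_lit 770074) (nat_lit 10) .nil))))) (.g (nat_lit 4) .nil .nil))) 
(.lf (nat_lit 206794) (.g (nat_lit 2149) (.e (nat_lit 81925) (nat_lit 11) (.e (nat_lit 426343) (nat_lit 14) (.e (nat_lit 491560) (nat_lit 10) (.e (nat_lit 344097) (nat_lit 18) (.e (nat_lit 7145) (nat_lit 382) .nil))))) .nil))) (.nd (nat_lit 6) 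
(.lf (nat_lit 206762) (.g (nat_lit 2952) (.e (nat_lit 81925) (nat_lit 11) (.e (nat_lit 426343) (nat_lit 14) (.e (nat_lit 491558) (nat_lit 10) (.e (nat_lit 344095) (nat_lit 18) (.e (nat_lit 7122) (nat_lit 382) (.e (nat_lit 7936) (nat_lit 90) .nil)))))) (.g (nat_lit 5) .nil .nil))) 
(.lf (nat_lit 206826) (.g (nat_lit 1681) (.e (nat_lit 81925) (nat_lit 11) (.e (nat_lit 426344) (nat_lit 14) (.e (nat_lit 491558) (nat_lit 10) (.e (nat_lit 344100) (nat_lit 18) (.e (nat_lit 7147) (nat_lit 382) .nil))))) .nil)))) (.nd (nat_lit 5) (.nd (nat_lit 6) 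
(.lf (nat_lit 206746) (.g (nat_lit 1392) (.e (nat_lit 81925) (nat_lit 11) (.e (nat_lit 426343) (nat_lit 14) (.e (nat_lit 491552) (nat_lit 9) (.e (nat_lit 335886) (nat_lit 0) .nil)))) .nil)) 
(.lf (nat_lit 206810) (.g (nat_lit 1779) (.e (nat_lit 81925) (nat_lit 11) (.e (nat_lit 426344) (nat_lit 14) (.e (nat_lit 491556) (nat_lit 9) (.e (nat_lit 335998) (nat_lit 1) .nil)))) .nil))) (.nd (nat_lit 6) 
(.lf (nat_lit 206778) (.g (nat_lit 1881) (.e (nat_lit 81925) (nat_lit 11) (.e (nat_lit 426343) (nat_lit 14) (.e (nat_lit 491560) (nat_lit 10) (.e (nat_lit 344090) (nat_lit 18) (.e (nat_lit 7122) (nat_lit 382) (.e (nat_lit 7936) (nat_lit 90) .nil)))))) (.g (nat_lit 4) .nil .nil))) 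
(.lf (nat_lit 206842) (.g (nat_lit 1467) (.e (nat_lit 81925) (nat_lit 11) (.e (nat_lit 426344) (nat_lit 14) (.e (nat_lit 491560) (nat_lit 10) (.e (nat_lit 344093) (nat_lit 18) .nil)))) .nil)))))) (.nd (nat_lit 3) (.nd (nat_lit 4) (.nd (nat_lit 5) (.nd (nat_lit 6) 
(.lf (nat_lit 206726) (.g (nat_lit 2000) (.e (nat_lit 81925) (nat_lit 11) (.e (nat_lit 426342) (nat_lit 14) (.e (nat_lit 491560) (nat_lit 10) (.e (nat_lit 344097) (nat_lit 18) (.e (nat_lit 7160) (nat_lit 382) (.e (nat_lit 1215) (nat_lit 90) .nil)))))) (.g (nat_lit 4) .nil .nil))) 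
(.lf (nat_lit 206790) (.g (nat_lit 1905) (.e (nat_lit 81925) (nat_lit 11) (.e (nat_lit 426343) (nat_lit 14) (.e (nat_lit 491560) (nat_lit 10) (.e (nat_lit 344096) (nat_lit 18) (.e (nat_lit 7119) (nat_lit 382) .nil))))) .nil))) (.nd (nat_lit 6) 
(.lf (nat_lit 206758) (.g (nat_lit 1928) (.e (nat_lit 81925) (nat_lit 11) (.e (nat_lit 426343) (nat_lit 14) (.e (nat_lit 491558) (nat_lit 10) (.e (nat_lit 344091) (nat_lit 18) (.e (nat_lit 7226) (nat_lit 382) .nil))))) .nil)) 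
(.lf (nat_lit 206822) (.g (nat_lit 2583) (.e (nat_lit 81925) (nat_lit 11) (.e (nat_lit 426344) (nat_lit 14) (.e (nat_lit 491558) (nat_lit 10) (.e (nat_lit 344096) (nat_lit 18) (.e (nat_lit 7122) (nat_lit 382) (.e (nat_lit 7936) (nat_lit 90) .nil)))))) (.g (nat_lit 5) .nil .nil))))) (.nd (nat_lit 5) (.nd (nat_lit 6) 
(.lf (nat_lit 206742) (.g (nat_lit 3153) (.e (nat_lit 81925) (nat_lit 11) (.e (nat_lit 426343) (nat_lit 14) (.e (nat_lit 491546) (nat_lit 9) (.e (nat_lit 335997) (nat_lit 1) (.e (nat_lit 57665) (nat_lit 152) (.e (nat_lit 7936) (nat_lit 90) .nil)))))) (.g (nat_lit 5) .nil .nil))) 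
(.lf (nat_lit 206806) (.g (nat_lit 2722) (.e (nat_lit 81925) (nat_lit 11) (.e (nat_lit 426343) (nat_lit 14) (.e (nat_lit 491560) (nat_lit 10) (.e (nat_lit 344175) (nat_lit 43) (.e (nat_lit 770074) (nat_lit 10) .nil))))) (.g (nat_lit 5) .nil .nil)))) (.nd (nat_lit 6) 
(.lf (nat_lit 206774) (.g (nat_lit 1756) (.e (nat_lit 81925) (nat_lit 11) (.e (nat_lit 426343) (nat_lit 14) (.e (nat_lit 491560) (nat_lit 10) (.e (nat_lit 344088) (nat_lit 18) .nil)))) .nil)) 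
(.lf (nat_lit 206838) (.g (nat_lit 2026) (.e (nat_lit 81925) (nat_lit 11) (.e (nat_lit 426344) (nat_lit 14) (.e (nat_lit 491560) (nat_lit 10) (.e (nat_lit 344091) (nat_lit 18) (.e (nat_lit 7119) (nat_lit 382) (.e (nat_lit 7936) (nat_lit 90) .nil)))))) (.g (nat_lit 4) .nil .nil)))))) (.nd (nat_lit 4) (.nd (nat_lit 5) (.nd (nat_lit 6) 
(.lf (nat_lit 206734) (.g (nat_lit 1884) (.e (nat_lit 81925) (nat_lit 11) (.e (nat_lit 426343) (nat_lit 14) (.e (nat_lit 491546) (nat_lit 9) (.e (nat_lit 335903) (nat_lit 0) (.e (nat_lit 2271) (nat_lit 149) .nil))))) .nil)) 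
(.lf (nat_lit 206798) (.g (nat_lit 3422) (.e (nat_lit 81925) (nat_lit 11) (.e (nat_lit 426343) (nat_lit 14) (.e (nat_lit 491560) (nat_lit 10) (.e (nat_lit 344097) (nat_lit 18) (.e (nat_lit 7147) (nat_lit 382) (.e (nat_lit 1217) (nat_lit 90) .nil)))))) (.g (nat_lit 0) .nil .nil)))) (.nd (nat_lit 6) 
(.lf (nat_lit 206766) (.g (nat_lit 2741) (.e (nat_lit 81925) (nat_lit 11) (.e (nat_lit 426343) (nat_lit 14) (.e (nat_lit 491558) (nat_lit 10) (.e (nat_lit 344096) (nat_lit 18) (.e (nat_lit 7124) (nat_lit 382) (.e (nat_lit 7936) (nat_lit 90) .nil)))))) (.g (nat_lit 5) .nil .nil))) 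
(.lf (nat_lit 206830) (.g (nat_lit 362) (.e (nat_lit 81925) (nat_lit 11) (.e (nat_lit 426344) (nat_lit 14) (.e (nat_lit 491560) (nat_lit 10) .nil))) .nil)))) (.nd (nat_lit 5) (.nd (nat_lit 6) 
(.lf (nat_lit 206750) (.g (nat_lit 415) (.e (nat_lit 81925) (nat_lit 11) (.e (nat_lit 426343) (nat_lit 14) (.e (nat_lit 491558) (nat_lit 10) .nil))) .nil)) 
(.lf (nat_lit 206814) (.g (nat_lit 2389) (.e (nat_lit 81925) (nat_lit 11) (.e (nat_lit 426344) (nat_lit 14) (.e (nat_lit 491558) (nat_lit 10) (.e (nat_lit 344091) (nat_lit 18) (.e (nat_lit 7119) (nat_lit 382) (.e (nat_lit 7936) (nat_lit 90) .nil)))))) (.g (nat_lit 5) .nil .nil)))) (.nd (nat_lit 6) 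
(.lf (nat_lit 206782) (.g (nat_lit 2310) (.e (nat_lit 81925) (nat_lit 11) (.e (nat_lit 426343) (nat_lit 14) (.e (nat_lit 491560) (nat_lit 10) (.e (nat_lit 344091) (nat_lit 18) (.e (nat_lit 7124) (nat_lit 382) (.e (nat_lit 7936) (nat_lit 90) .nil)))))) (.g (nat_lit 5) .nil .nil))) 
(.lf (nat_lit 206846) (.g (nat_lit 1632) (.e (nat_lit 81925) (nat_lit 11) (.e (nat_lit 426344) (nat_lit 14) (.e (nat_lit 491560) (nat_lit 10) (.e (nat_lit 344095) (nat_lit 18) .nil)))) .nil)))))))) (.nd (nat_lit 1) (.nd (nat_lit 2) (.nd (nat_lit 3) (.nd (nat_lit 4) (.nd (nat_lit 5) (.nd (nat_lit 6) 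
(.lf (nat_lit 206721) (.g (nat_lit 3259) (.e (nat_lit 81925) (nat_lit 11) (.e (nat_lit 426342) (nat_lit 14) (.e (nat_lit 491560) (nat_lit 10) (.e (nat_lit 344096) (nat_lit 18) (.e (nat_lit 7125) (nat_lit 382) (.e (nat_lit 1224) (nat_lit 90) .nil)))))) (.g (nat_lit 6) .nil .nil))) 
(.lf (nat_lit 206785) (.g (nat_lit 2172) (.e (nat_lit 81925) (nat_lit 11) (.e (nat_lit 426343) (nat_lit 14) (.e (nat_lit 491560) (nat_lit 10) (.e (nat_lit 344094) (nat_lit 18) (.e (nat_lit 7119) (nat_lit 382) (.e (nat_lit 7936) (nat_lit 90) .nil)))))) (.g (nat_lit 4) .nil .nil)))) (.nd (nat_lit 6) 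
(.lf (nat_lit 206753) (.g (nat_lit 2040) (.e (nat_lit 81925) (nat_lit 11) (.e (nat_lit 426343) (nat_lit 14) (.e (nat_lit 491558) (nat_lit 10) (.e (nat_lit 344090) (nat_lit 18) (.e (nat_lit 7119) (nat_lit 382) (.e (nat_lit 7936) (nat_lit 90) .nil)))))) (.g (nat_lit 4) .nil .nil))) 
(.lf (nat_lit 206817) (.g (nat_lit 1454) (.e (nat_lit 81925) (nat_lit 11) (.e (nat_lit 426344) (nat_lit 14) (.e (nat_lit 491558) (nat_lit 10) (.e (nat_lit 344093) (nat_lit 18) .nil)))) .nil)))) (.nd (nat_lit 5) (.nd (nat_lit 6) 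
(.lf (nat_lit 206737) (.g (nat_lit 2906) (.e (nat_lit 81925) (nat_lit 11) (.e (nat_lit 426343) (nat_lit 14) (.e (nat_lit 491546) (nat_lit 9) (.e (nat_lit 335997) (nat_lit 1) (.e (nat_lit 57655) (nat_lit 152) (.e (nat_lit 1216) (nat_lit 90) .nil)))))) (.g (nat_lit 4) .nil .nil))) 
(.lf (nat_lit 206801) (.g (nat_lit 1516) (.e (nat_lit 81925) (nat_lit 11) (.e (nat_lit 426343) (nat_lit 14) (.e (nat_lit 491560) (nat_lit 10) (.e (nat_lit 344099) (nat_lit 18) .nil)))) .nil))) (.nd (nat_lit 6) 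
(.lf (nat_lit 206769) (.g (nat_lit 2945) (.e (nat_lit 81925) (nat_lit 11) (.e (nat_lit 426343) (nat_lit 14) (.e (nat_lit 491558) (nat_lit 10) (.e (nat_lit 344097) (nat_lit 18) (.e (nat_lit 7147) (nat_lit 382) (.e (nat_lit 1217) (nat_lit 90) .nil)))))) (.g (nat_lit 0) .nil .nil))) 
(.lf (nat_lit 206833) (.g (nat_lit 1818) (.e (nat_lit 81925) (nat_lit 11) (.e (nat_lit 426344) (nat_lit 14) (.e (nat_lit 491560) (nat_lit 10) (.e (nat_lit 344089) (nat_lit 18) .nil)))) .nil))))) (.nd (nat_lit 4) (.nd (nat_lit 5) (.nd (nat_lit 6) 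
(.lf (nat_lit 206729) (.g (nat_lit 2219) (.e (nat_lit 81925) (nat_lit 11) (.e (nat_lit 426342) (nat_lit 14) (.e (nat_lit 491560) (nat_lit 10) (.e (nat_lit 344175) (nat_lit 43) (.e (nat_lit 770074) (nat_lit 10) .nil))))) (.g (nat_lit 5) .nil .nil))) 
(.lf (nat_lit 206793) (.g (nat_lit 3620) (.e (nat_lit 81925) (nat_lit 11) (.e (nat_lit 426343) (nat_lit 14) (.e (nat_lit 491560) (nat_lit 10) (.e (nat_lit 344096) (nat_lit 18) (.e (nat_lit 7125) (nat_lit 382) (.e (nat_lit 1224) (nat_lit 90) .nil)))))) (.g (nat_lit 6) .nil .nil)))) (.nd (nat_lit 6) 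
(.lf (nat_lit 206761) (.g (nat_lit 2607) (.e (nat_lit 81925) (nat_lit 11) (.e (nat_lit 426343) (nat_lit 14) (.e (nat_lit 491558) (nat_lit 10) (.e (nat_lit 344095) (nat_lit 18) (.e (nat_lit 7119) (nat_lit 382) (.e (nat_lit 7936) (nat_lit 90) .nil)))))) (.g (nat_lit 5) .nil .nil))) 
(.lf (nat_lit 206825) (.g (nat_lit 2590) (.e (nat_lit 81925) (nat_lit 11) (.e (nat_lit 426344) (nat_lit 14) (.e (nat_lit 491558) (nat_lit 10) (.e (nat_lit 344097) (nat_lit 18) (.e (nat_lit 7147) (nat_lit 382) (.e (nat_lit 1217) (nat_lit 90) .nil)))))) (.g (nat_lit 0) .nil .nil))))) (.nd (nat_lit 5) (.nd (nat_lit 6) 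
(.lf (nat_lit 206745) (.g (nat_lit 670) (.e (nat_lit 81925) (nat_lit 11) (.e (nat_lit 426343) (nat_lit 14) (.e (nat_lit 491552) (nat_lit 9) .nil))) .nil)) 
(.lf (nat_lit 206809) (.g (nat_lit 1330) (.e (nat_lit 81925) (nat_lit 11) (.e (nat_lit 426344) (nat_lit 14) (.e (nat_lit 491556) (nat_lit 9) (.e (nat_lit 335872) (nat_lit 0) .nil)))) .nil))) (.nd (nat_lit 6) 
(.lf (nat_lit 206777) (.g (nat_lit 2486) (.e (nat_lit 81925) (nat_lit 11) (.e (nat_lit 426343) (nat_lit 14) (.e (nat_lit 491560) (nat_lit 10) (.e (nat_lit 344090) (nat_lit 18) (.e (nat_lit 7119) (nat_lit 382) (.e (nat_lit 7936) (nat_lit 90) .nil)))))) (.g (nat_lit 5) .nil .nil))) 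
(.lf (nat_lit 206841) (.g (nat_lit 3126) (.e (nat_lit 81925) (nat_lit 11) (.e (nat_lit 426344) (nat_lit 14) (.e (nat_lit 491560) (nat_lit 10) (.e (nat_lit 344091) (nat_lit 18) (.e (nat_lit 7125) (nat_lit 382) (.e (nat_lit 1224) (nat_lit 90) .nil)))))) (.g (nat_lit 6) .nil .nil))))))) (.nd (nat_lit 3) (.nd (nat_lit 4) (.nd (nat_lit 5) (.nd (nat_lit 6) 
(.lf (nat_lit 206725) (.g (nat_lit 2924) (.e (nat_lit 81925) (nat_lit 11) (.e (nat_lit 426342) (nat_lit 14) (.e (nat_lit 491560) (nat_lit 10) (.e (nat_lit 344097) (nat_lit 18) (.e (nat_lit 7147) (nat_lit 382) (.e (nat_lit 1217) (nat_lit 90) .nil)))))) (.g (nat_lit 0) .nil .nil))) 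
(.lf (nat_lit 206789) (.g (nat_lit 1983) (.e (nat_lit 81925) (nat_lit 11) (.e (nat_lit 426343) (nat_lit 14) (.e (nat_lit 491560) (nat_lit 10) (.e (nat_lit 344095) (nat_lit 18) .nil)))) .nil))) (.nd (nat_lit 6) 
(.lf (nat_lit 206757) (.g (nat_lit 2689) (.e (nat_lit 81925) (nat_lit 11) (.e (nat_lit 426343) (nat_lit 14) (.e (nat_lit 491558) (nat_lit 10) (.e (nat_lit 344091) (nat_lit 18) (.e (nat_lit 7124) (nat_lit 382) (.e (nat_lit 7936) (nat_lit 90) .nil)))))) (.g (nat_lit 5) .nil .nil))) 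
(.lf (nat_lit 206821) (.g (nat_lit 2005) (.e (nat_lit 81925) (nat_lit 11) (.e (nat_lit 426344) (nat_lit 14) (.e (nat_lit 491558) (nat_lit 10) (.e (nat_lit 344096) (nat_lit 18) (.e (nat_lit 7122) (nat_lit 382) (.e (nat_lit 1224) (nat_lit 90) .nil)))))) (.g (nat_lit 4) .nil .nil))))) (.nd (nat_lit 5) (.nd (nat_lit 6) 
(.lf (nat_lit 206741) (.g (nat_lit 2577) (.e (nat_lit 81925) (nat_lit 11) (.e (nat_lit 426343) (nat_lit 14) (.e (nat_lit 491546) (nat_lit 9) (.e (nat_lit 335997) (nat_lit 1) (.e (nat_lit 57664) (nat_lit 152) (.e (nat_lit 7936) (nat_lit 90) .nil)))))) (.g (nat_lit 4) .nil .nil))) 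
(.lf (nat_lit 206805) (.g (nat_lit 2347) (.e (nat_lit 81925) (nat_lit 11) (.e (nat_lit 426343) (nat_lit 14) (.e (nat_lit 491560) (nat_lit 10) (.e (nat_lit 344174) (nat_lit 42) (.e (nat_lit 769792) (nat_lit 10) .nil))))) (.g (nat_lit 4) .nil .nil)))) (.nd (nat_lit 6) 
(.lf (nat_lit 206773) (.g (nat_lit 1942) (.e (nat_lit 81925) (nat_lit 11) (.e (nat_lit 426343) (nat_lit 14) (.e (nat_lit 491560) (nat_lit 10) (.e (nat_lit 344087) (nat_lit 18) .nil)))) .nil)) 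
(.lf (nat_lit 206837) (.g (nat_lit 2351) (.e (nat_lit 81925) (nat_lit 11) (.e (nat_lit 426344) (nat_lit 14) (.e (nat_lit 491560) (nat_lit 10) (.e (nat_lit 344090) (nat_lit 18) (.e (nat_lit 7124) (nat_lit 382) (.e (nat_lit 7936) (nat_lit 90) .nil)))))) (.g (nat_lit 5) .nil .nil)))))) (.nd (nat_lit 4) (.nd (nat_lit 5) (.nd (nat_lit 6) 
(.lf (nat_lit 206733) (.g (nat_lit 1669) (.e (nat_lit 81925) (nat_lit 11) (.e (nat_lit 426343) (nat_lit 14) (.e (nat_lit 491546) (nat_lit 9) (.e (nat_lit 335900) (nat_lit 0) .nil)))) .nil)) 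
(.lf (nat_lit 206797) (.g (nat_lit 2408) (.e (nat_lit 81925) (nat_lit 11) (.e (nat_lit 426343) (nat_lit 14) (.e (nat_lit 491560) (nat_lit 10) (.e (nat_lit 344097) (nat_lit 18) (.e (nat_lit 7146) (nat_lit 382) (.e (nat_lit 1217) (nat_lit 90) .nil)))))) (.g (nat_lit 4) .nil .nil)))) (.nd (nat_lit 6) 
(.lf (nat_lit 206765) (.g (nat_lit 2906) (.e (nat_lit 81925) (nat_lit 11) (.e (nat_lit 426343) (nat_lit 14) (.e (nat_lit 491558) (nat_lit 10) (.e (nat_lit 344096) (nat_lit 18) (.e (nat_lit 7122) (nat_lit 382) (.e (nat_lit 7936) (nat_lit 90) .nil)))))) (.g (nat_lit 5) .nil .nil))) 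
(.lf (nat_lit 206829) (.g (nat_lit 1442) (.e (nat_lit 81925) (nat_lit 11) (.e (nat_lit 426344) (nat_lit 14) (.e (nat_lit 491558) (nat_lit 10) (.e (nat_lit 344176) (nat_lit 43) .nil)))) .nil)))) (.nd (nat_lit 5) (.nd (nat_lit 6) 
(.lf (nat_lit 206749) (.g (nat_lit 1774) (.e (nat_lit 81925) (nat_lit 11) (.e (nat_lit 426343) (nat_lit 14) (.e (nat_lit 491556) (nat_lit 9) (.e (nat_lit 335998) (nat_lit 1) .nil)))) .nil)) 
(.lf (nat_lit 206813) (.g (nat_lit 1758) (.e (nat_lit 81925) (nat_lit 11) (.e (nat_lit 426344) (nat_lit 14) (.e (nat_lit 491558) (nat_lit 10) (.e (nat_lit 344090) (nat_lit 18) (.e (nat_lit 7124) (nat_lit 382) (.e (nat_lit 7936) (nat_lit 90) .nil)))))) (.g (nat_lit 4) .nil .nil)))) (.nd (nat_lit 6) 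
(.lf (nat_lit 206781) (.g (nat_lit 2143) (.e (nat_lit 81925) (nat_lit 11) (.e (nat_lit 426343) (nat_lit 14) (.e (nat_lit 491560) (nat_lit 10) (.e (nat_lit 344091) (nat_lit 18) (.e (nat_lit 7122) (nat_lit 382) (.e (nat_lit 7936) (nat_lit 90) .nil)))))) (.g (nat_lit 4) .nil .nil))) 
(.lf (nat_lit 206845) (.g (nat_lit 2028) (.e (nat_lit 81925) (nat_lit 11) (.e (nat_lit 426344) (nat_lit 14) (.e (nat_lit 491560) (nat_lit 10) (.e (nat_lit 344094) (nat_lit 18) (.e (nat_lit 7124) (nat_lit 382) (.e (nat_lit 7936) (nat_lit 90) .nil)))))) (.g (nat_lit 4) .nil .nil)))))))) (.nd (nat_lit 2) (.nd (nat_lit 3) (.nd (nat_lit 4) (.nd (nat_lit 5) (.nd (nat_lit 6) 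
(.lf (nat_lit 206723) (.g (nat_lit 1936) (.e (nat_lit 81925) (nat_lit 11) (.e (nat_lit 426342) (nat_lit 14) (.e (nat_lit 491560) (nat_lit 10) (.e (nat_lit 344097) (nat_lit 18) (.e (nat_lit 7146) (nat_lit 382) .nil))))) .nil)) 
(.lf (nat_lit 206787) (.g (nat_lit 2190) (.e (nat_lit 81925) (nat_lit 11) (.e (nat_lit 426343) (nat_lit 14) (.e (nat_lit 491560) (nat_lit 10) (.e (nat_lit 344094) (nat_lit 18) (.e (nat_lit 7124) (nat_lit 382) (.e (nat_lit 7936) (nat_lit 90) .nil)))))) (.g (nat_lit 4) .nil .nil)))) (.nd (nat_lit 6) 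
(.lf (nat_lit 206755) (.g (nat_lit 2733) (.e (nat_lit 81925) (nat_lit 11) (.e (nat_lit 426343) (nat_lit 14) (.e (nat_lit 491558) (nat_lit 10) (.e (nat_lit 344091) (nat_lit 18) (.e (nat_lit 7119) (nat_lit 382) (.e (nat_lit 7936) (nat_lit 90) .nil)))))) (.g (nat_lit 5) .nil .nil))) 
(.lf (nat_lit 206819) (.g (nat_lit 2120) (.e (nat_lit 81925) (nat_lit 11) (.e (nat_lit 426344) (nat_lit 14) (.e (nat_lit 491558) (nat_lit 10) (.e (nat_lit 344095) (nat_lit 18) (.e (nat_lit 7122) (nat_lit 382) (.e (nat_lit 7936) (nat_lit 90) .nil)))))) (.g (nat_lit 5) .nil .nil))))) (.nd (nat_lit 5) (.nd (nat_lit 6) 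
(.lf (nat_lit 206739) (.g (nat_lit 3010) (.e (nat_lit 81925) (nat_lit 11) (.e (nat_lit 426343) (nat_lit 14) (.e (nat_lit 491546) (nat_lit 9) (.e (nat_lit 335997) (nat_lit 1) (.e (nat_lit 57660) (nat_lit 152) (.e (nat_lit 1215) (nat_lit 90) .nil)))))) (.g (nat_lit 4) .nil .nil))) 
(.lf (nat_lit 206803) (.g (nat_lit 2010) (.e (nat_lit 81925) (nat_lit 11) (.e (nat_lit 426343) (nat_lit 14) (.e (nat_lit 491560) (nat_lit 10) (.e (nat_lit 344101) (nat_lit 18) .nil)))) .nil))) (.nd (nat_lit 6) 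
(.lf (nat_lit 206771) (.g (nat_lit 2965) (.e (nat_lit 81925) (nat_lit 11) (.e (nat_lit 426343) (nat_lit 14) (.e (nat_lit 491558) (nat_lit 10) (.e (nat_lit 344175) (nat_lit 43) (.e (nat_lit 770074) (nat_lit 10) .nil))))) (.g (nat_lit 5) .nil .nil))) 
(.lf (nat_lit 206835) (.g (nat_lit 2257) (.e (nat_lit 81925) (nat_lit 11) (.e (nat_lit 426344) (nat_lit 14) (.e (nat_lit 491560) (nat_lit 10) (.e (nat_lit 344090) (nat_lit 18) (.e (nat_lit 7119) (nat_lit 382) (.e (nat_lit 7936) (nat_lit 90) .nil)))))) (.g (nat_lit 5) .nil .nil)))))) (.nd (nat_lit 4) (.nd (nat_lit 5) (.nd (nat_lit 6) 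
(.lf (nat_lit 206731) (.g (nat_lit 3176) (.e (nat_lit 81925) (nat_lit 11) (.e (nat_lit 426342) (nat_lit 14) (.e (nat_lit 491560) (nat_lit 10) (.e (nat_lit 344177) (nat_lit 43) (.e (nat_lit 770074) (nat_lit 10) .nil))))) (.g (nat_lit 0) .nil .nil))) 
(.lf (nat_lit 206795) (.g (nat_lit 2185) (.e (nat_lit 81925) (nat_lit 11) (.e (nat_lit 426343) (nat_lit 14) (.e (nat_lit 491560) (nat_lit 10) (.e (nat_lit 344097) (nat_lit 18) (.e (nat_lit 7145) (nat_lit 382) (.e (nat_lit 1217) (nat_lit 90) .nil)))))) (.g (nat_lit 4) .nil .nil)))) (.nd (nat_lit 6) 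
(.lf (nat_lit 206763) (.g (nat_lit 2427) (.e (nat_lit 81925) (nat_lit 11) (.e (nat_lit 426343) (nat_lit 14) (.e (nat_lit 491558) (nat_lit 10) (.e (nat_lit 344096) (nat_lit 18) (.e (nat_lit 7119) (nat_lit 382) (.e (nat_lit 7936) (nat_lit 90) .nil)))))) (.g (nat_lit 4) .nil .nil))) 
(.lf (nat_lit 206827) (.g (nat_lit 2322) (.e (nat_lit 81925) (nat_lit 11) (.e (nat_lit 426344) (nat_lit 14) (.e (nat_lit 491558) (nat_lit 10) (.e (nat_lit 344100) (nat_lit 18) (.e (nat_lit 7147) (nat_lit 382) (.e (nat_lit 1217) (nat_lit 90) .nil)))))) (.g (nat_lit 5) .nil .nil))))) (.nd (nat_lit 5) (.nd (nat_lit 6) 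
(.lf (nat_lit 206747) (.g (nat_lit 670) (.e (nat_lit 81925) (nat_lit 11) (.e (nat_lit 426343) (nat_lit 14) (.e (nat_lit 491555) (nat_lit 9) .nil))) .nil)) 
(.lf (nat_lit 206811) (.g (nat_lit 411) (.e (nat_lit 81925) (nat_lit 11) (.e (nat_lit 426344) (nat_lit 14) (.e (nat_lit 491558) (nat_lit 10) .nil))) .nil))) (.nd (nat_lit 6) 
(.lf (nat_lit 206779) (.g (nat_lit 2580) (.e (nat_lit 81925) (nat_lit 11) (.e (nat_lit 426343) (nat_lit 14) (.e (nat_lit 491560) (nat_lit 10) (.e (nat_lit 344090) (nat_lit 18) (.e (nat_lit 7124) (nat_lit 382) (.e (nat_lit 7936) (nat_lit 90) .nil)))))) (.g (nat_lit 5) .nil .nil))) 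
(.lf (nat_lit 206843) (.g (nat_lit 2010) (.e (nat_lit 81925) (nat_lit 11) (.e (nat_lit 426344) (nat_lit 14) (.e (nat_lit 491560) (nat_lit 10) (.e (nat_lit 344094) (nat_lit 18) (.e (nat_lit 7119) (nat_lit 382) (.e (nat_lit 7936) (nat_lit 90) .nil)))))) (.g (nat_lit 4) .nil .nil))))))) (.nd (nat_lit 3) (.nd (nat_lit 4) (.nd (nat_lit 5) (.nd (nat_lit 6) 
(.lf (nat_lit 206727) (.g (nat_lit 1138) (.e (nat_lit 81925) (nat_lit 11) (.e (nat_lit 426342) (nat_lit 14) (.e (nat_lit 491560) (nat_lit 10) (.e (nat_lit 344099) (nat_lit 18) .nil)))) .nil)) 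
(.lf (nat_lit 206791) (.g (nat_lit 2433) (.e (nat_lit 81925) (nat_lit 11) (.e (nat_lit 426343) (nat_lit 14) (.e (nat_lit 491560) (nat_lit 10) (.e (nat_lit 344096) (nat_lit 18) (.e (nat_lit 7122) (nat_lit 382) (.e (nat_lit 7936) (nat_lit 90) .nil)))))) (.g (nat_lit 4) .nil .nil)))) (.nd (nat_lit 6) 
(.lf (nat_lit 206759) (.g (nat_lit 1837) (.e (nat_lit 81925) (nat_lit 11) (.e (nat_lit 426343) (nat_lit 14) (.e (nat_lit 491558) (nat_lit 10) (.e (nat_lit 344093) (nat_lit 18) .nil)))) .nil)) 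
(.lf (nat_lit 206823) (.g (nat_lit 2417) (.e (nat_lit 81925) (nat_lit 11) (.e (nat_lit 426344) (nat_lit 14) (.e (nat_lit 491558) (nat_lit 10) (.e (nat_lit 344096) (nat_lit 18) (.e (nat_lit 7124) (nat_lit 382) (.e (nat_lit 7936) (nat_lit 90) .nil)))))) (.g (nat_lit 5) .nil .nil))))) (.nd (nat_lit 5) (.nd (nat_lit 6) 
(.lf (nat_lit 206743) (.g (nat_lit 2393) (.e (nat_lit 81925) (nat_lit 11) (.e (nat_lit 426343) (nat_lit 14) (.e (nat_lit 491546) (nat_lit 9) (.e (nat_lit 335997) (nat_lit 1) (.e (nat_lit 57666) (nat_lit 152) (.e (nat_lit 7936) (nat_lit 90) .nil)))))) (.g (nat_lit 4) .nil .nil))) 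
(.lf (nat_lit 206807) (.g (nat_lit 2900) (.e (nat_lit 81925) (nat_lit 11) (.e (nat_lit 426343) (nat_lit 14) (.e (nat_lit 491560) (nat_lit 10) (.e (nat_lit 344176) (nat_lit 43) (.e (nat_lit 770074) (nat_lit 10) .nil))))) (.g (nat_lit 5) .nil .nil)))) (.nd (nat_lit 6) 
(.lf (nat_lit 206775) (.g (nat_lit 1917) (.e (nat_lit 81925) (nat_lit 11) (.e (nat_lit 426343) (nat_lit 14) (.e (nat_lit 491560) (nat_lit 10) (.e (nat_lit 344089) (nat_lit 18) .nil)))) .nil)) 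
(.lf (nat_lit 206839) (.g (nat_lit 2007) (.e (nat_lit 81925) (nat_lit 11) (.e (nat_lit 426344) (nat_lit 14) (.e (nat_lit 491560) (nat_lit 10) (.e (nat_lit 344091) (nat_lit 18) (.e (nat_lit 7122) (nat_lit 382) .nil))))) .nil))))) (.nd (nat_lit 4) (.nd (nat_lit 5) (.nd (nat_lit 6) 
(.lf (nat_lit 206735) (.g (nat_lit 1520) (.e (nat_lit 81925) (nat_lit 11) (.e (nat_lit 426343) (nat_lit 14) (.e (nat_lit 491546) (nat_lit 9) (.e (nat_lit 335997) (nat_lit 1) .nil)))) .nil)) 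
(.lf (nat_lit 206799) (.g (nat_lit 2166) (.e (nat_lit 81925) (nat_lit 11) (.e (nat_lit 426343) (nat_lit 14) (.e (nat_lit 491560) (nat_lit 10) (.e (nat_lit 344097) (nat_lit 18) (.e (nat_lit 7160) (nat_lit 382) .nil))))) .nil))) (.nd (nat_lit 6) 
(.lf (nat_lit 206767) (.g (nat_lit 2867) (.e (nat_lit 81925) (nat_lit 11) (.e (nat_lit 426343) (nat_lit 14) (.e (nat_lit 491558) (nat_lit 10) (.e (nat_lit 344096) (nat_lit 18) (.e (nat_lit 7125) (nat_lit 382) (.e (nat_lit 1222) (nat_lit 90) .nil)))))) (.g (nat_lit 4) .nil .nil))) 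
(.lf (nat_lit 206831) (.g (nat_lit 1579) (.e (nat_lit 81925) (nat_lit 11) (.e (nat_lit 426344) (nat_lit 14) (.e (nat_lit 491560) (nat_lit 10) (.e (nat_lit 344087) (nat_lit 18) .nil)))) .nil)))) (.nd (nat_lit 5) (.nd (nat_lit 6) 
(.lf (nat_lit 206751) (.g (nat_lit 1827) (.e (nat_lit 81925) (nat_lit 11) (.e (nat_lit 426343) (nat_lit 14) (.e (nat_lit 491558) (nat_lit 10) (.e (nat_lit 344088) (nat_lit 18) .nil)))) .nil)) 
(.lf (nat_lit 206815) (.g (nat_lit 2191) (.e (nat_lit 81925) (nat_lit 11) (.e (nat_lit 426344) (nat_lit 14) (.e (nat_lit 491558) (nat_lit 10) (.e (nat_lit 344091) (nat_lit 18) (.e (nat_lit 7122) (nat_lit 382) (.e (nat_lit 7936) (nat_lit 90) .nil)))))) (.g (nat_lit 4) .nil .nil)))) (.nd (nat_lit 6) 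
(.lf (nat_lit 206783) (.g (nat_lit 1716) (.e (nat_lit 81925) (nat_lit 11) (.e (nat_lit 426343) (nat_lit 14) (.e (nat_lit 491560) (nat_lit 10) (.e (nat_lit 344091) (nat_lit 18) (.e (nat_lit 7132) (nat_lit 382) .nil))))) .nil)) 
(.lf (nat_lit 206847) (.g (nat_lit 2106) (.e (nat_lit 81925) (nat_lit 11) (.e (nat_lit 426344) (nat_lit 14) (.e (nat_lit 491560) (nat_lit 10) (.e (nat_lit 344096) (nat_lit 18) (.e (nat_lit 7119) (nat_lit 382) .nil))))) .nil)))))))))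

noncomputable def tv2728 : DT := (.nd (nat_lit 0) (.nd (nat_lit 1) (.nd (nat_lit 2) (.nd (nat_lit 3) (.nd (nat_lit 4) (.nd (nat_lit 5) (.nd (nat_lit 6) 
(.lf (nat_lit 206848) (.g (nat_lit 2113) (.e (nat_lit 81925) (nat_lit 11) (.e (nat_lit 426344) (nat_lit 14) (.e (nat_lit 491560) (nat_lit 10) (.e (nat_lit 344096) (nat_lit 18) (.e (nat_lit 7122) (nat_lit 382) (.e (nat_lit 7936) (nat_lit 90) .nil)))))) (.g (nat_lit 4) .nil .nil))) 
(.lf (nat_lit 206912) (.g (nat_lit 1360) (.e (nat_lit 81926) (nat_lit 11) (.e (nat_lit 426172) (nat_lit 7) (.e (nat_lit 409647) (nat_lit 18) (.e (nat_lit 303115) (nat_lit 1) (.e (nat_lit 164149) (nat_lit 152) .nil))))) .nil))) (.nd (nat_lit 6) 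
(.lf (nat_lit 206880) (.g (nat_lit 908) (.e (nat_lit 81926) (nat_lit 11) (.e (nat_lit 426010) (nat_lit 0) (.e (nat_lit 7593) (nat_lit 407) (.e (nat_lit 73772) (nat_lit 24) (.e (nat_lit 769792) (nat_lit 10) .nil))))) .nil)) 
(.lf (nat_lit 206944) (.g (nat_lit 1350) (.e (nat_lit 81926) (nat_lit 11) (.e (nat_lit 426344) (nat_lit 14) (.e (nat_lit 491558) (nat_lit 10) (.e (nat_lit 344174) (nat_lit 42) .nil)))) .nil)))) (.nd (nat_lit 5) (.nd (nat_lit 6) 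
(.lf (nat_lit 206864) (.g (nat_lit 1149) (.e (nat_lit 81925) (nat_lit 11) (.e (nat_lit 426408) (nat_lit 15) (.e (nat_lit 6209) (nat_lit 333) (.e (nat_lit 57814) (nat_lit 246) (.e (nat_lit 65280) (nat_lit 89) (.e (nat_lit 564992) (nat_lit 6) .nil)))))) (.g (nat_lit 4) .nil .nil))) 
(.lf (nat_lit 206928) (.g (nat_lit 1594) (.e (nat_lit 81926) (nat_lit 11) (.e (nat_lit 426172) (nat_lit 7) (.e (nat_lit 409649) (nat_lit 18) (.e (nat_lit 303115) (nat_lit 1) (.e (nat_lit 164149) (nat_lit 152) .nil))))) .nil))) (.nd (nat_lit 6) 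
(.lf (nat_lit 206896) (.g (nat_lit 1474) (.e (nat_lit 81926) (nat_lit 11) (.e (nat_lit 426172) (nat_lit 7) (.e (nat_lit 409643) (nat_lit 18) (.e (nat_lit 303115) (nat_lit 1) (.e (nat_lit 164149) (nat_lit 152) (.e (nat_lit 1217) (nat_lit 90) .nil)))))) (.g (nat_lit 4) .nil .nil))) 
(.lf (nat_lit 206960) (.g (nat_lit 498) (.e (nat_lit 81927) (nat_lit 11) (.e (nat_lit 426011) (nat_lit 0) (.e (nat_lit 7495) (nat_lit 402) .nil))) .nil))))) (.nd (nat_lit 4) (.nd (nat_lit 5) (.nd (nat_lit 6) 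
(.lf (nat_lit 206856) (.g (nat_lit 2222) (.e (nat_lit 81925) (nat_lit 11) (.e (nat_lit 426344) (nat_lit 14) (.e (nat_lit 491560) (nat_lit 10) (.e (nat_lit 344097) (nat_lit 18) (.e (nat_lit 7160) (nat_lit 382) (.e (nat_lit 1215) (nat_lit 90) .nil)))))) (.g (nat_lit 4) .nil .nil))) 
(.lf (nat_lit 206920) (.g (nat_lit 1586) (.e (nat_lit 81926) (nat_lit 11) (.e (nat_lit 426172) (nat_lit 7) (.e (nat_lit 409648) (nat_lit 18) (.e (nat_lit 303115) (nat_lit 1) (.e (nat_lit 164151) (nat_lit 152) .nil))))) .nil))) (.nd (nat_lit 6) 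
(.lf (nat_lit 206888) (.g (nat_lit 2641) (.e (nat_lit 81926) (nat_lit 11) (.e (nat_lit 426107) (nat_lit 1) (.e (nat_lit 164179) (nat_lit 154) (.e (nat_lit 57411) (nat_lit 12) (.e (nat_lit 336316) (nat_lit 17) .nil))))) .nil)) 
(.lf (nat_lit 206952) (.g (nat_lit 692) (.e (nat_lit 81927) (nat_lit 11) (.e (nat_lit 426010) (nat_lit 0) (.e (nat_lit 7591) (nat_lit 407) (.e (nat_lit 73730) (nat_lit 0) (.e (nat_lit 7119) (nat_lit 382) .nil))))) .nil)))) (.nd (nat_lit 5) (.nd (nat_lit 6) 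
(.lf (nat_lit 206872) (.g (nat_lit 2280) (.e (nat_lit 81925) (nat_lit 11) (.e (nat_lit 426500) (nat_lit 27) (.e (nat_lit 335995) (nat_lit 1) (.e (nat_lit 57872) (nat_lit 264) (.e (nat_lit 988) (nat_lit 81) (.e (nat_lit 1239) (nat_lit 91) (.e (nat_lit 98048) (nat_lit 6) .nil))))))) (.g (nat_lit 6) .nil .nil))) 
(.lf (nat_lit 206936) (.g (nat_lit 1097) (.e (nat_lit 81926) (nat_lit 11) (.e (nat_lit 426308) (nat_lit 12) (.e (nat_lit 475193) (nat_lit 38) (.e (nat_lit 688166) (nat_lit 15) (.e (nat_lit 57521) (nat_lit 44) .nil))))) .nil))) (.nd (nat_lit 6) 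
(.lf (nat_lit 206904) (.g (nat_lit 1844) (.e (nat_lit 81926) (nat_lit 11) (.e (nat_lit 426172) (nat_lit 7) (.e (nat_lit 409645) (nat_lit 18) (.e (nat_lit 303115) (nat_lit 1) (.e (nat_lit 164151) (nat_lit 152) .nil))))) .nil)) 
(.lf (nat_lit 206968) (.g (nat_lit 2779) (.e (nat_lit 81927) (nat_lit 11) (.e (nat_lit 426011) (nat_lit 0) (.e (nat_lit 7591) (nat_lit 407) (.e (nat_lit 73731) (nat_lit 0) (.e (nat_lit 7122) (nat_lit 382) (.e (nat_lit 1222) (nat_lit 90) .nil)))))) (.g (nat_lit 0) .nil .nil))))))) (.nd (nat_lit 3) (.nd (nat_lit 4) (.nd (nat_lit 5) (.nd (nat_lit 6) 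
(.lf (nat_lit 206852) (.g (nat_lit 1964) (.e (nat_lit 81925) (nat_lit 11) (.e (nat_lit 426344) (nat_lit 14) (.e (nat_lit 491560) (nat_lit 10) (.e (nat_lit 344097) (nat_lit 18) (.e (nat_lit 7146) (nat_lit 382) .nil))))) .nil)) 
(.lf (nat_lit 206916) (.g (nat_lit 2008) (.e (nat_lit 81926) (nat_lit 11) (.e (nat_lit 426172) (nat_lit 7) (.e (nat_lit 409648) (nat_lit 18) (.e (nat_lit 303108) (nat_lit 0) (.e (nat_lit 3469) (nat_lit 217) (.e (nat_lit 704256) (nat_lit 18) .nil)))))) (.g (nat_lit 5) .nil .nil)))) (.nd (nat_lit 6) 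
(.lf (nat_lit 206884) (.g (nat_lit 1201) (.e (nat_lit 81926) (nat_lit 11) (.e (nat_lit 426012) (nat_lit 0) (.e (nat_lit 7593) (nat_lit 407) (.e (nat_lit 73772) (nat_lit 24) .nil)))) .nil)) 
(.lf (nat_lit 206948) (.g (nat_lit 2563) (.e (nat_lit 81927) (nat_lit 11) (.e (nat_lit 426009) (nat_lit 0) (.e (nat_lit 7593) (nat_lit 407) (.e (nat_lit 73731) (nat_lit 0) (.e (nat_lit 7125) (nat_lit 382) (.e (nat_lit 1222) (nat_lit 90) .nil)))))) (.g (nat_lit 6) .nil .nil))))) (.nd (nat_lit 5) (.nd (nat_lit 6) 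
(.lf (nat_lit 206868) (.g (nat_lit 1175) (.e (nat_lit 81925) (nat_lit 11) (.e (nat_lit 426408) (nat_lit 15) (.e (nat_lit 6216) (nat_lit 333) (.e (nat_lit 57864) (nat_lit 256) (.e (nat_lit 7936) (nat_lit 2) (.e (nat_lit 98048) (nat_lit 6) .nil)))))) (.g (nat_lit 4) .nil .nil))) 
(.lf (nat_lit 206932) (.g (nat_lit 707) (.e (nat_lit 81926) (nat_lit 11) (.e (nat_lit 426188) (nat_lit 9) (.e (nat_lit 426448) (nat_lit 20) .nil))) .nil))) (.nd (nat_lit 6) 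
(.lf (nat_lit 206900) (.g (nat_lit 1521) (.e (nat_lit 81926) (nat_lit 11) (.e (nat_lit 426172) (nat_lit 7) (.e (nat_lit 409644) (nat_lit 18) (.e (nat_lit 303115) (nat_lit 1) (.e (nat_lit 164149) (nat_lit 152) .nil))))) .nil)) 
(.lf (nat_lit 206964) (.g (nat_lit 1903) (.e (nat_lit 81927) (nat_lit 11) (.e (nat_lit 426011) (nat_lit 0) (.e (nat_lit 7591) (nat_lit 407) (.e (nat_lit 73729) (nat_lit 0) (.e (nat_lit 7119) (nat_lit 382) (.e (nat_lit 7936) (nat_lit 90) .nil)))))) (.g (nat_lit 4) .nil .nil)))))) (.nd (nat_lit 4) (.nd (nat_lit 5) (.nd (nat_lit 6) 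
(.lf (nat_lit 206860) (.g (nat_lit 2436) (.e (nat_lit 81925) (nat_lit 11) (.e (nat_lit 426344) (nat_lit 14) (.e (nat_lit 491560) (nat_lit 10) (.e (nat_lit 344175) (nat_lit 43) (.e (nat_lit 770074) (nat_lit 10) .nil))))) (.g (nat_lit 0) .nil .nil))) 
(.lf (nat_lit 206924) (.g (nat_lit 1994) (.e (nat_lit 81926) (nat_lit 11) (.e (nat_lit 426172) (nat_lit 7) (.e (nat_lit 409649) (nat_lit 18) (.e (nat_lit 303111) (nat_lit 0) (.e (nat_lit 2424) (nat_lit 157) .nil))))) .nil))) (.nd (nat_lit 6) 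
(.lf (nat_lit 206892) (.g (nat_lit 1685) (.e (nat_lit 81926) (nat_lit 11) (.e (nat_lit 426166) (nat_lit 7) (.e (nat_lit 409646) (nat_lit 18) (.e (nat_lit 303106) (nat_lit 0) (.e (nat_lit 3453) (nat_lit 216) .nil))))) .nil)) 
(.lf (nat_lit 206956) (.g (nat_lit 817) (.e (nat_lit 81927) (nat_lit 11) (.e (nat_lit 426010) (nat_lit 0) (.e (nat_lit 7591) (nat_lit 407) (.e (nat_lit 73772) (nat_lit 24) (.e (nat_lit 769792) (nat_lit 10) .nil))))) (.g (nat_lit 4) .nil .nil))))) (.nd (nat_lit 5) (.nd (nat_lit 6) 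
(.lf (nat_lit 206876) (.g (nat_lit 1043) (.e (nat_lit 81925) (nat_lit 11) (.e (nat_lit 426500) (nat_lit 27) (.e (nat_lit 335995) (nat_lit 1) (.e (nat_lit 57872) (nat_lit 264) (.e (nat_lit 1170) (nat_lit 87) (.e (nat_lit 57454) (nat_lit 21) (.e (nat_lit 507648) (nat_lit 20) .nil))))))) (.g (nat_lit 4) .nil .nil))) 
(.lf (nat_lit 206940) (.g (nat_lit 1614) (.e (nat_lit 81926) (nat_lit 11) (.e (nat_lit 426342) (nat_lit 14) (.e (nat_lit 491560) (nat_lit 10) (.e (nat_lit 344174) (nat_lit 42) (.e (nat_lit 769792) (nat_lit 10) .nil))))) .nil))) (.nd (nat_lit 6) 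
(.lf (nat_lit 206908) (.g (nat_lit 1497) (.e (nat_lit 81926) (nat_lit 11) (.e (nat_lit 426172) (nat_lit 7) (.e (nat_lit 409646) (nat_lit 18) (.e (nat_lit 303114) (nat_lit 1) .nil)))) .nil)) 
(.lf (nat_lit 206972) (.g (nat_lit 1490) (.e (nat_lit 81927) (nat_lit 11) (.e (nat_lit 426011) (nat_lit 0) (.e (nat_lit 7593) (nat_lit 407) (.e (nat_lit 73728) (nat_lit 0) .nil)))) .nil))))))) (.nd (nat_lit 2) (.nd (nat_lit 3) (.nd (nat_lit 4) (.nd (nat_lit 5) (.nd (nat_lit 6) 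
(.lf (nat_lit 206850) (.g (nat_lit 3324) (.e (nat_lit 81925) (nat_lit 11) (.e (nat_lit 426344) (nat_lit 14) (.e (nat_lit 491560) (nat_lit 10) (.e (nat_lit 344096) (nat_lit 18) (.e (nat_lit 7125) (nat_lit 382) (.e (nat_lit 1224) (nat_lit 90) .nil)))))) (.g (nat_lit 6) .nil .nil))) 
(.lf (nat_lit 206914) (.g (nat_lit 969) (.e (nat_lit 81926) (nat_lit 11) (.e (nat_lit 426172) (nat_lit 7) (.e (nat_lit 409648) (nat_lit 18) (.e (nat_lit 303106) (nat_lit 0) .nil)))) .nil))) (.nd (nat_lit 6) 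
(.lf (nat_lit 206882) (.g (nat_lit 1523) (.e (nat_lit 81926) (nat_lit 11) (.e (nat_lit 426011) (nat_lit 0) (.e (nat_lit 7593) (nat_lit 407) (.e (nat_lit 73772) (nat_lit 24) .nil)))) .nil)) 
(.lf (nat_lit 206946) (.g (nat_lit 1411) (.e (nat_lit 81926) (nat_lit 11) (.e (nat_lit 426344) (nat_lit 14) (.e (nat_lit 491560) (nat_lit 10) (.e (nat_lit 344174) (nat_lit 42) .nil)))) .nil)))) (.nd (nat_lit 5) (.nd (nat_lit 6) 
(.lf (nat_lit 206866) (.g (nat_lit 390) (.e (nat_lit 81925) (nat_lit 11) (.e (nat_lit 426408) (nat_lit 15) (.e (nat_lit 6216) (nat_lit 333) .nil))) .nil)) 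
(.lf (nat_lit 206930) (.g (nat_lit 1673) (.e (nat_lit 81926) (nat_lit 11) (.e (nat_lit 426172) (nat_lit 7) (.e (nat_lit 409649) (nat_lit 18) (.e (nat_lit 303120) (nat_lit 4) (.e (nat_lit 229547) (nat_lit 152) .nil))))) .nil))) (.nd (nat_lit 6) 
(.lf (nat_lit 206898) (.g (nat_lit 784) (.e (nat_lit 81926) (nat_lit 11) (.e (nat_lit 426172) (nat_lit 7) (.e (nat_lit 409644) (nat_lit 18) (.e (nat_lit 303106) (nat_lit 0) .nil)))) .nil)) 
(.lf (nat_lit 206962) (.g (nat_lit 381) (.e (nat_lit 81927) (nat_lit 11) (.e (nat_lit 426011) (nat_lit 0) (.e (nat_lit 7591) (nat_lit 407) .nil))) .nil))))) (.nd (nat_lit 4) (.nd (nat_lit 5) (.nd (nat_lit 6) 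
(.lf (nat_lit 206858) (.g (nat_lit 1711) (.e (nat_lit 81925) (nat_lit 11) (.e (nat_lit 426344) (nat_lit 14) (.e (nat_lit 491560) (nat_lit 10) (.e (nat_lit 344101) (nat_lit 18) .nil)))) .nil)) 
(.lf (nat_lit 206922) (.g (nat_lit 753) (.e (nat_lit 81926) (nat_lit 11) (.e (nat_lit 426172) (nat_lit 7) (.e (nat_lit 409649) (nat_lit 18) (.e (nat_lit 303106) (nat_lit 0) .nil)))) .nil))) (.nd (nat_lit 6) 
(.lf (nat_lit 206890) (.g (nat_lit 1610) (.e (nat_lit 81926) (nat_lit 11) (.e (nat_lit 426166) (nat_lit 7) (.e (nat_lit 409645) (nat_lit 18) (.e (nat_lit 303115) (nat_lit 1) (.e (nat_lit 164149) (nat_lit 152) .nil))))) .nil)) 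
(.lf (nat_lit 206954) (.g (nat_lit 804) (.e (nat_lit 81927) (nat_lit 11) (.e (nat_lit 426010) (nat_lit 0) (.e (nat_lit 7591) (nat_lit 407) (.e (nat_lit 73731) (nat_lit 0) (.e (nat_lit 7124) (nat_lit 382) (.e (nat_lit 7936) (nat_lit 90) .nil)))))) (.g (nat_lit 4) .nil .nil))))) (.nd (nat_lit 5) (.nd (nat_lit 6) 
(.lf (nat_lit 206874) (.g (nat_lit 1227) (.e (nat_lit 81925) (nat_lit 11) (.e (nat_lit 426500) (nat_lit 27) (.e (nat_lit 335995) (nat_lit 1) (.e (nat_lit 57872) (nat_lit 264) (.e (nat_lit 1086) (nat_lit 81) (.e (nat_lit 1234) (nat_lit 91) (.e (nat_lit 98048) (nat_lit 6) .nil))))))) (.g (nat_lit 4) .nil .nil))) 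
(.lf (nat_lit 206938) (.g (nat_lit 1418) (.e (nat_lit 81926) (nat_lit 11) (.e (nat_lit 426341) (nat_lit 14) (.e (nat_lit 491560) (nat_lit 10) (.e (nat_lit 344173) (nat_lit 42) .nil)))) .nil))) (.nd (nat_lit 6) 
(.lf (nat_lit 206906) (.g (nat_lit 952) (.e (nat_lit 81926) (nat_lit 11) (.e (nat_lit 426172) (nat_lit 7) (.e (nat_lit 409646) (nat_lit 18) (.e (nat_lit 303106) (nat_lit 0) .nil)))) .nil)) 
(.lf (nat_lit 206970) (.g (nat_lit 1657) (.e (nat_lit 81927) (nat_lit 11) (.e (nat_lit 426011) (nat_lit 0) (.e (nat_lit 7591) (nat_lit 407) (.e (nat_lit 73734) (nat_lit 0) .nil)))) .nil)))))) (.nd (nat_lit 3) (.nd (nat_lit 4) (.nd (nat_lit 5) (.nd (nat_lit 6) 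
(.lf (nat_lit 206854) (.g (nat_lit 3140) (.e (nat_lit 81925) (nat_lit 11) (.e (nat_lit 426344) (nat_lit 14) (.e (nat_lit 491560) (nat_lit 10) (.e (nat_lit 344097) (nat_lit 18) (.e (nat_lit 7147) (nat_lit 382) (.e (nat_lit 1217) (nat_lit 90) .nil)))))) (.g (nat_lit 0) .nil .nil))) 
(.lf (nat_lit 206918) (.g (nat_lit 1739) (.e (nat_lit 81926) (nat_lit 11) (.e (nat_lit 426172) (nat_lit 7) (.e (nat_lit 409648) (nat_lit 18) (.e (nat_lit 303115) (nat_lit 1) (.e (nat_lit 164149) (nat_lit 152) .nil))))) .nil))) (.nd (nat_lit 6) 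
(.lf (nat_lit 206886) (.g (nat_lit 884) (.e (nat_lit 81926) (nat_lit 11) (.e (nat_lit 426024) (nat_lit 0) (.e (nat_lit 7936) (nat_lit 407) (.e (nat_lit 73731) (nat_lit 0) (.e (nat_lit 7124) (nat_lit 382) (.e (nat_lit 7936) (nat_lit 90) .nil)))))) (.g (nat_lit 5) .nil .nil))) 
(.lf (nat_lit 206950) (.g (nat_lit 934) (.e (nat_lit 81927) (nat_lit 11) (.e (nat_lit 426009) (nat_lit 0) (.e (nat_lit 7593) (nat_lit 407) (.e (nat_lit 73772) (nat_lit 24) (.e (nat_lit 769792) (nat_lit 10) .nil))))) (.g (nat_lit 4) .nil .nil))))) (.nd (nat_lit 5) (.nd (nat_lit 6) 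
(.lf (nat_lit 206870) (.g (nat_lit 861) (.e (nat_lit 81925) (nat_lit 11) (.e (nat_lit 426408) (nat_lit 15) (.e (nat_lit 6217) (nat_lit 333) (.e (nat_lit 57816) (nat_lit 246) (.e (nat_lit 65280) (nat_lit 89) (.e (nat_lit 564992) (nat_lit 6) .nil)))))) (.g (nat_lit 4) .nil .nil))) 
(.lf (nat_lit 206934) (.g (nat_lit 762) (.e (nat_lit 81926) (nat_lit 11) (.e (nat_lit 426306) (nat_lit 12) (.e (nat_lit 475214) (nat_lit 42) .nil))) .nil))) (.nd (nat_lit 6) 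
(.lf (nat_lit 206902) (.g (nat_lit 2024) (.e (nat_lit 81926) (nat_lit 11) (.e (nat_lit 426172) (nat_lit 7) (.e (nat_lit 409645) (nat_lit 18) (.e (nat_lit 303115) (nat_lit 1) (.e (nat_lit 164147) (nat_lit 152) .nil))))) .nil)) 
(.lf (nat_lit 206966) (.g (nat_lit 1787) (.e (nat_lit 81927) (nat_lit 11) (.e (nat_lit 426011) (nat_lit 0) (.e (nat_lit 7591) (nat_lit 407) (.e (nat_lit 73730) (nat_lit 0) (.e (nat_lit 7122) (nat_lit 382) (.e (nat_lit 7936) (nat_lit 90) .nil)))))) (.g (nat_lit 5) .nil .nil)))))) (.nd (nat_lit 4) (.nd (nat_lit 5) (.nd (nat_lit 6) 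
(.lf (nat_lit 206862) (.g (nat_lit 597) (.e (nat_lit 81925) (nat_lit 11) (.e (nat_lit 426408) (nat_lit 15) (.e (nat_lit 6112) (nat_lit 332) .nil))) .nil)) 
(.lf (nat_lit 206926) (.g (nat_lit 932) (.e (nat_lit 81926) (nat_lit 11) (.e (nat_lit 426172) (nat_lit 7) (.e (nat_lit 409649) (nat_lit 18) (.e (nat_lit 303115) (nat_lit 1) .nil)))) .nil))) (.nd (nat_lit 6) 
(.lf (nat_lit 206894) (.g (nat_lit 359) (.e (nat_lit 81926) (nat_lit 11) (.e (nat_lit 426172) (nat_lit 7) (.e (nat_lit 409617) (nat_lit 10) .nil))) .nil)) 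
(.lf (nat_lit 206958) (.g (nat_lit 1584) (.e (nat_lit 81927) (nat_lit 11) (.e (nat_lit 426010) (nat_lit 0) (.e (nat_lit 7593) (nat_lit 407) (.e (nat_lit 73732) (nat_lit 0) (.e (nat_lit 7147) (nat_lit 382) (.e (nat_lit 1216) (nat_lit 90) .nil)))))) (.g (nat_lit 6) .nil .nil))))) (.nd (nat_lit 5) (.nd (nat_lit 6) 
(.lf (nat_lit 206878) (.g (nat_lit 585) (.e (nat_lit 81926) (nat_lit 11) (.e (nat_lit 426009) (nat_lit 0) (.e (nat_lit 7593) (nat_lit 407) (.e (nat_lit 73772) (nat_lit 24) .nil)))) .nil)) 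
(.lf (nat_lit 206942) (.g (nat_lit 1948) (.e (nat_lit 81926) (nat_lit 11) (.e (nat_lit 426343) (nat_lit 14) (.e (nat_lit 491560) (nat_lit 10) (.e (nat_lit 344173) (nat_lit 42) .nil)))) .nil))) (.nd (nat_lit 6) 
(.lf (nat_lit 206910) (.g (nat_lit 1992) (.e (nat_lit 81926) (nat_lit 11) (.e (nat_lit 426172) (nat_lit 7) (.e (nat_lit 409646) (nat_lit 18) (.e (nat_lit 303115) (nat_lit 1) (.e (nat_lit 164163) (nat_lit 152) (.e (nat_lit 1221) (nat_lit 90) .nil)))))) (.g (nat_lit 4) .nil .nil))) 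
(.lf (nat_lit 206974) (.g (nat_lit 2204) (.e (nat_lit 81927) (nat_lit 11) (.e (nat_lit 426011) (nat_lit 0) (.e (nat_lit 7593) (nat_lit 407) (.e (nat_lit 73729) (nat_lit 0) (.e (nat_lit 7119) (nat_lit 382) (.e (nat_lit 7936) (nat_lit 90) .nil)))))) (.g (nat_lit 5) .nil .nil))))))))) (.nd (nat_lit 1) (.nd (nat_lit 2) (.nd (nat_lit 3) (.nd (nat_lit 4) (.nd (nat_lit 5) (.nd (nat_lit 6) 
(.lf (nat_lit 206849) (.g (nat_lit 2035) (.e (nat_lit 81925) (nat_lit 11) (.e (nat_lit 426344) (nat_lit 14) (.e (nat_lit 491560) (nat_lit 10) (.e (nat_lit 344096) (nat_lit 18) (.e (nat_lit 7124) (nat_lit 382) (.e (nat_lit 7936) (nat_lit 90) .nil)))))) (.g (nat_lit 4) .nil .nil))) 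
(.lf (nat_lit 206913) (.g (nat_lit 936) (.e (nat_lit 81926) (nat_lit 11) (.e (nat_lit 426172) (nat_lit 7) (.e (nat_lit 409648) (nat_lit 18) (.e (nat_lit 303104) (nat_lit 0) .nil)))) .nil))) (.nd (nat_lit 6) 
(.lf (nat_lit 206881) (.g (nat_lit 1480) (.e (nat_lit 81926) (nat_lit 11) (.e (nat_lit 426011) (nat_lit 0) (.e (nat_lit 7591) (nat_lit 407) (.e (nat_lit 73772) (nat_lit 24) .nil)))) .nil)) 
(.lf (nat_lit 206945) (.g (nat_lit 1571) (.e (nat_lit 81926) (nat_lit 11) (.e (nat_lit 426344) (nat_lit 14) (.e (nat_lit 491560) (nat_lit 10) (.e (nat_lit 344173) (nat_lit 42) (.e (nat_lit 769792) (nat_lit 10) .nil))))) (.g (nat_lit 4) .nil .nil))))) (.nd (nat_lit 5) (.nd (nat_lit 6) 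
(.lf (nat_lit 206865) (.g (nat_lit 1074) (.e (nat_lit 81925) (nat_lit 11) (.e (nat_lit 426408) (nat_lit 15) (.e (nat_lit 6209) (nat_lit 333) (.e (nat_lit 57816) (nat_lit 246) (.e (nat_lit 65280) (nat_lit 89) (.e (nat_lit 564992) (nat_lit 6) .nil)))))) (.g (nat_lit 4) .nil .nil))) 
(.lf (nat_lit 206929) (.g (nat_lit 1551) (.e (nat_lit 81926) (nat_lit 11) (.e (nat_lit 426172) (nat_lit 7) (.e (nat_lit 409649) (nat_lit 18) (.e (nat_lit 303115) (nat_lit 1) (.e (nat_lit 164163) (nat_lit 152) .nil))))) .nil))) (.nd (nat_lit 6) 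
(.lf (nat_lit 206897) (.g (nat_lit 1288) (.e (nat_lit 81926) (nat_lit 11) (.e (nat_lit 426172) (nat_lit 7) (.e (nat_lit 409643) (nat_lit 18) (.e (nat_lit 303115) (nat_lit 1) (.e (nat_lit 164163) (nat_lit 152) .nil))))) .nil)) 
(.lf (nat_lit 206961) (.g (nat_lit 1314) (.e (nat_lit 81927) (nat_lit 11) (.e (nat_lit 426011) (nat_lit 0) (.e (nat_lit 7587) (nat_lit 406) (.e (nat_lit 65565) (nat_lit 1) .nil)))) .nil))))) (.nd (nat_lit 4) (.nd (nat_lit 5) (.nd (nat_lit 6) 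
(.lf (nat_lit 206857) (.g (nat_lit 1394) (.e (nat_lit 81925) (nat_lit 11) (.e (nat_lit 426344) (nat_lit 14) (.e (nat_lit 491560) (nat_lit 10) (.e (nat_lit 344099) (nat_lit 18) .nil)))) .nil)) 
(.lf (nat_lit 206921) (.g (nat_lit 1633) (.e (nat_lit 81926) (nat_lit 11) (.e (nat_lit 426172) (nat_lit 7) (.e (nat_lit 409648) (nat_lit 18) (.e (nat_lit 303120) (nat_lit 4) .nil)))) .nil))) (.nd (nat_lit 6) 
(.lf (nat_lit 206889) (.g (nat_lit 1811) (.e (nat_lit 81926) (nat_lit 11) (.e (nat_lit 426108) (nat_lit 1) (.e (nat_lit 164183) (nat_lit 154) (.e (nat_lit 57409) (nat_lit 12) .nil)))) .nil)) 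
(.lf (nat_lit 206953) (.g (nat_lit 2045) (.e (nat_lit 81927) (nat_lit 11) (.e (nat_lit 426010) (nat_lit 0) (.e (nat_lit 7591) (nat_lit 407) (.e (nat_lit 73731) (nat_lit 0) (.e (nat_lit 7122) (nat_lit 382) (.e (nat_lit 1222) (nat_lit 90) .nil)))))) (.g (nat_lit 6) .nil .nil))))) (.nd (nat_lit 5) (.nd (nat_lit 6) 
(.lf (nat_lit 206873) (.g (nat_lit 1191) (.e (nat_lit 81925) (nat_lit 11) (.e (nat_lit 426500) (nat_lit 27) (.e (nat_lit 335995) (nat_lit 1) (.e (nat_lit 57872) (nat_lit 264) (.e (nat_lit 1039) (nat_lit 81) (.e (nat_lit 1234) (nat_lit 91) (.e (nat_lit 98048) (nat_lit 6) .nil))))))) (.g (nat_lit 4) .nil .nil))) 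
(.lf (nat_lit 206937) (.g (nat_lit 2247) (.e (nat_lit 81926) (nat_lit 11) (.e (nat_lit 426338) (nat_lit 14) (.e (nat_lit 491566) (nat_lit 12) (.e (nat_lit 385045) (nat_lit 21) .nil)))) .nil))) (.nd (nat_lit 6) 
(.lf (nat_lit 206905) (.g (nat_lit 2079) (.e (nat_lit 81926) (nat_lit 11) (.e (nat_lit 426172) (nat_lit 7) (.e (nat_lit 409645) (nat_lit 18) (.e (nat_lit 303115) (nat_lit 1) (.e (nat_lit 164163) (nat_lit 152) (.e (nat_lit 1221) (nat_lit 90) .nil)))))) (.g (nat_lit 4) .nil .nil))) 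
(.lf (nat_lit 206969) (.g (nat_lit 1577) (.e (nat_lit 81927) (nat_lit 11) (.e (nat_lit 426011) (nat_lit 0) (.e (nat_lit 7591) (nat_lit 407) (.e (nat_lit 73732) (nat_lit 0) .nil)))) .nil)))))) (.nd (nat_lit 3) (.nd (nat_lit 4) (.nd (nat_lit 5) (.nd (nat_lit 6) 
(.lf (nat_lit 206853) (.g (nat_lit 2118) (.e (nat_lit 81925) (nat_lit 11) (.e (nat_lit 426344) (nat_lit 14) (.e (nat_lit 491560) (nat_lit 10) (.e (nat_lit 344097) (nat_lit 18) (.e (nat_lit 7146) (nat_lit 382) (.e (nat_lit 1217) (nat_lit 90) .nil)))))) (.g (nat_lit 4) .nil .nil))) 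
(.lf (nat_lit 206917) (.g (nat_lit 1119) (.e (nat_lit 81926) (nat_lit 11) (.e (nat_lit 426172) (nat_lit 7) (.e (nat_lit 409648) (nat_lit 18) (.e (nat_lit 303115) (nat_lit 1) .nil)))) .nil))) (.nd (nat_lit 6) 
(.lf (nat_lit 206885) (.g (nat_lit 1293) (.e (nat_lit 81926) (nat_lit 11) (.e (nat_lit 426024) (nat_lit 0) (.e (nat_lit 7936) (nat_lit 407) (.e (nat_lit 73729) (nat_lit 0) (.e (nat_lit 7124) (nat_lit 382) (.e (nat_lit 7936) (nat_lit 90) .nil)))))) (.g (nat_lit 5) .nil .nil))) 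
(.lf (nat_lit 206949) (.g (nat_lit 1535) (.e (nat_lit 81927) (nat_lit 11) (.e (nat_lit 426009) (nat_lit 0) (.e (nat_lit 7593) (nat_lit 407) (.e (nat_lit 73732) (nat_lit 0) (.e (nat_lit 7147) (nat_lit 382) (.e (nat_lit 1216) (nat_lit 90) .nil)))))) (.g (nat_lit 6) .nil .nil))))) (.nd (nat_lit 5) (.nd (nat_lit 6) 
(.lf (nat_lit 206869) (.g (nat_lit 877) (.e (nat_lit 81925) (nat_lit 11) (.e (nat_lit 426408) (nat_lit 15) (.e (nat_lit 6217) (nat_lit 333) (.e (nat_lit 57814) (nat_lit 246) (.e (nat_lit 65280) (nat_lit 89) (.e (nat_lit 564992) (nat_lit 6) .nil)))))) (.g (nat_lit 4) .nil .nil))) 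
(.lf (nat_lit 206933) (.g (nat_lit 828) (.e (nat_lit 81926) (nat_lit 11) (.e (nat_lit 426306) (nat_lit 12) (.e (nat_lit 475193) (nat_lit 38) .nil))) .nil))) (.nd (nat_lit 6) 
(.lf (nat_lit 206901) (.g (nat_lit 983) (.e (nat_lit 81926) (nat_lit 11) (.e (nat_lit 426172) (nat_lit 7) (.e (nat_lit 409645) (nat_lit 18) (.e (nat_lit 303106) (nat_lit 0) .nil)))) .nil)) 
(.lf (nat_lit 206965) (.g (nat_lit 1397) (.e (nat_lit 81927) (nat_lit 11) (.e (nat_lit 426011) (nat_lit 0) (.e (nat_lit 7591) (nat_lit 407) (.e (nat_lit 73730) (nat_lit 0) (.e (nat_lit 7119) (nat_lit 382) (.e (nat_lit 7936) (nat_lit 90) .nil)))))) (.g (nat_lit 4) .nil .nil)))))) (.nd (nat_lit 4) (.nd (nat_lit 5) (.nd (nat_lit 6) 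
(.lf (nat_lit 206861) (.g (nat_lit 656) (.e (nat_lit 81925) (nat_lit 11) (.e (nat_lit 426344) (nat_lit 14) (.e (nat_lit 491561) (nat_lit 11) .nil))) .nil)) 
(.lf (nat_lit 206925) (.g (nat_lit 2506) (.e (nat_lit 81926) (nat_lit 11) (.e (nat_lit 426172) (nat_lit 7) (.e (nat_lit 409649) (nat_lit 18) (.e (nat_lit 303111) (nat_lit 0) (.e (nat_lit 3469) (nat_lit 217) (.e (nat_lit 704256) (nat_lit 18) .nil)))))) (.g (nat_lit 5) .nil .nil)))) (.nd (nat_lit 6) 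
(.lf (nat_lit 206893) (.g (nat_lit 355) (.e (nat_lit 81926) (nat_lit 11) (.e (nat_lit 426172) (nat_lit 7) (.e (nat_lit 409616) (nat_lit 10) .nil))) .nil)) 
(.lf (nat_lit 206957) (.g (nat_lit 2636) (.e (nat_lit 81927) (nat_lit 11) (.e (nat_lit 426010) (nat_lit 0) (.e (nat_lit 7593) (nat_lit 407) (.e (nat_lit 73731) (nat_lit 0) (.e (nat_lit 7125) (nat_lit 382) (.e (nat_lit 1222) (nat_lit 90) .nil)))))) (.g (nat_lit 6) .nil .nil))))) (.nd (nat_lit 5) (.nd (nat_lit 6) 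
(.lf (nat_lit 206877) (.g (nat_lit 1751) (.e (nat_lit 81925) (nat_lit 11) (.e (nat_lit 426500) (nat_lit 27) (.e (nat_lit 335995) (nat_lit 1) (.e (nat_lit 57872) (nat_lit 264) (.e (nat_lit 1172) (nat_lit 87) (.e (nat_lit 57454) (nat_lit 21) (.e (nat_lit 507648) (nat_lit 20) .nil))))))) (.g (nat_lit 6) .nil .nil))) 
(.lf (nat_lit 206941) (.g (nat_lit 1549) (.e (nat_lit 81926) (nat_lit 11) (.e (nat_lit 426343) (nat_lit 14) (.e (nat_lit 491558) (nat_lit 10) (.e (nat_lit 344174) (nat_lit 42) .nil)))) .nil))) (.nd (nat_lit 6) 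
(.lf (nat_lit 206909) (.g (nat_lit 1709) (.e (nat_lit 81926) (nat_lit 11) (.e (nat_lit 426172) (nat_lit 7) (.e (nat_lit 409646) (nat_lit 18) (.e (nat_lit 303115) (nat_lit 1) (.e (nat_lit 164148) (nat_lit 152) .nil))))) .nil)) 
(.lf (nat_lit 206973) (.g (nat_lit 1178) (.e (nat_lit 81927) (nat_lit 11) (.e (nat_lit 426011) (nat_lit 0) (.e (nat_lit 7593) (nat_lit 407) (.e (nat_lit 73729) (nat_lit 0) .nil)))) .nil))))))) (.nd (nat_lit 2) (.nd (nat_lit 3) (.nd (nat_lit 4) (.nd (nat_lit 5) (.nd (nat_lit 6) 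
(.lf (nat_lit 206851) (.g (nat_lit 1980) (.e (nat_lit 81925) (nat_lit 11) (.e (nat_lit 426344) (nat_lit 14) (.e (nat_lit 491560) (nat_lit 10) (.e (nat_lit 344097) (nat_lit 18) (.e (nat_lit 7145) (nat_lit 382) .nil))))) .nil)) 
(.lf (nat_lit 206915) (.g (nat_lit 1170) (.e (nat_lit 81926) (nat_lit 11) (.e (nat_lit 426172) (nat_lit 7) (.e (nat_lit 409648) (nat_lit 18) (.e (nat_lit 303107) (nat_lit 0) .nil)))) .nil))) (.nd (nat_lit 6) 
(.lf (nat_lit 206883) (.g (nat_lit 1127) (.e (nat_lit 81926) (nat_lit 11) (.e (nat_lit 426012) (nat_lit 0) (.e (nat_lit 7591) (nat_lit 407) (.e (nat_lit 73772) (nat_lit 24) .nil)))) .nil)) 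
(.lf (nat_lit 206947) (.g (nat_lit 572) (.e (nat_lit 81927) (nat_lit 11) (.e (nat_lit 426009) (nat_lit 0) (.e (nat_lit 7591) (nat_lit 407) (.e (nat_lit 73730) (nat_lit 0) (.e (nat_lit 7119) (nat_lit 382) .nil))))) .nil)))) (.nd (nat_lit 5) (.nd (nat_lit 6) 
(.lf (nat_lit 206867) (.g (nat_lit 952) (.e (nat_lit 81925) (nat_lit 11) (.e (nat_lit 426408) (nat_lit 15) (.e (nat_lit 6216) (nat_lit 333) (.e (nat_lit 57862) (nat_lit 256) (.e (nat_lit 7936) (nat_lit 2) .nil))))) .nil)) 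
(.lf (nat_lit 206931) (.g (nat_lit 336) (.e (nat_lit 81926) (nat_lit 11) (.e (nat_lit 426172) (nat_lit 7) (.e (nat_lit 417536) (nat_lit 18) .nil))) .nil))) (.nd (nat_lit 6) 
(.lf (nat_lit 206899) (.g (nat_lit 894) (.e (nat_lit 81926) (nat_lit 11) (.e (nat_lit 426172) (nat_lit 7) (.e (nat_lit 409644) (nat_lit 18) (.e (nat_lit 303115) (nat_lit 1) .nil)))) .nil)) 
(.lf (nat_lit 206963) (.g (nat_lit 1614) (.e (nat_lit 81927) (nat_lit 11) (.e (nat_lit 426011) (nat_lit 0) (.e (nat_lit 7591) (nat_lit 407) (.e (nat_lit 73728) (nat_lit 0) .nil)))) .nil))))) (.nd (nat_lit 4) (.nd (nat_lit 5) (.nd (nat_lit 6) 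
(.lf (nat_lit 206859) (.g (nat_lit 2059) (.e (nat_lit 81925) (nat_lit 11) (.e (nat_lit 426344) (nat_lit 14) (.e (nat_lit 491560) (nat_lit 10) (.e (nat_lit 344174) (nat_lit 42) (.e (nat_lit 769792) (nat_lit 10) .nil))))) (.g (nat_lit 4) .nil .nil))) 
(.lf (nat_lit 206923) (.g (nat_lit 1025) (.e (nat_lit 81926) (nat_lit 11) (.e (nat_lit 426172) (nat_lit 7) (.e (nat_lit 409649) (nat_lit 18) (.e (nat_lit 303111) (nat_lit 0) .nil)))) .nil))) (.nd (nat_lit 6) 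
(.lf (nat_lit 206891) (.g (nat_lit 1449) (.e (nat_lit 81926) (nat_lit 11) (.e (nat_lit 426166) (nat_lit 7) (.e (nat_lit 409645) (nat_lit 18) (.e (nat_lit 303115) (nat_lit 1) (.e (nat_lit 164151) (nat_lit 152) .nil))))) .nil)) 
(.lf (nat_lit 206955) (.g (nat_lit 2530) (.e (nat_lit 81927) (nat_lit 11) (.e (nat_lit 426010) (nat_lit 0) (.e (nat_lit 7591) (nat_lit 407) (.e (nat_lit 73731) (nat_lit 0) (.e (nat_lit 7125) (nat_lit 382) (.e (nat_lit 1222) (nat_lit 90) .nil)))))) (.g (nat_lit 6) .nil .nil))))) (.nd (nat_lit 5) (.nd (nat_lit 6) 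
(.lf (nat_lit 206875) (.g (nat_lit 1568) (.e (nat_lit 81925) (nat_lit 11) (.e (nat_lit 426500) (nat_lit 27) (.e (nat_lit 335995) (nat_lit 1) (.e (nat_lit 57872) (nat_lit 264) (.e (nat_lit 7936) (nat_lit 81) (.e (nat_lit 1239) (nat_lit 91) (.e (nat_lit 98048) (nat_lit 6) .nil))))))) (.g (nat_lit 4) .nil .nil))) 
(.lf (nat_lit 206939) (.g (nat_lit 1411) (.e (nat_lit 81926) (nat_lit 11) (.e (nat_lit 426342) (nat_lit 14) (.e (nat_lit 491558) (nat_lit 10) (.e (nat_lit 344174) (nat_lit 42) (.e (nat_lit 769792) (nat_lit 10) .nil))))) .nil))) (.nd (nat_lit 6) 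
(.lf (nat_lit 206907) (.g (nat_lit 2457) (.e (nat_lit 81926) (nat_lit 11) (.e (nat_lit 426172) (nat_lit 7) (.e (nat_lit 409646) (nat_lit 18) (.e (nat_lit 303112) (nat_lit 0) (.e (nat_lit 3452) (nat_lit 216) .nil))))) .nil)) 
(.lf (nat_lit 206971) (.g (nat_lit 1598) (.e (nat_lit 81927) (nat_lit 11) (.e (nat_lit 426011) (nat_lit 0) (.e (nat_lit 7591) (nat_lit 407) (.e (nat_lit 73772) (nat_lit 24) (.e (nat_lit 769792) (nat_lit 10) .nil))))) (.g (nat_lit 4) .nil .nil))))))) (.nd (nat_lit 3) (.nd (nat_lit 4) (.nd (nat_lit 5) (.nd (nat_lit 6) 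
(.lf (nat_lit 206855) (.g (nat_lit 2002) (.e (nat_lit 81925) (nat_lit 11) (.e (nat_lit 426344) (nat_lit 14) (.e (nat_lit 491560) (nat_lit 10) (.e (nat_lit 344097) (nat_lit 18) (.e (nat_lit 7160) (nat_lit 382) .nil))))) .nil)) 
(.lf (nat_lit 206919) (.g (nat_lit 1665) (.e (nat_lit 81926) (nat_lit 11) (.e (nat_lit 426172) (nat_lit 7) (.e (nat_lit 409648) (nat_lit 18) (.e (nat_lit 303115) (nat_lit 1) (.e (nat_lit 164150) (nat_lit 152) (.e (nat_lit 1217) (nat_lit 90) .nil)))))) (.g (nat_lit 4) .nil .nil)))) (.nd (nat_lit 6) 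
(.lf (nat_lit 206887) (.g (nat_lit 2245) (.e (nat_lit 81926) (nat_lit 11) (.e (nat_lit 426107) (nat_lit 1) (.e (nat_lit 164179) (nat_lit 154) (.e (nat_lit 57409) (nat_lit 12) (.e (nat_lit 336316) (nat_lit 17) .nil))))) .nil)) 
(.lf (nat_lit 206951) (.g (nat_lit 2696) (.e (nat_lit 81927) (nat_lit 11) (.e (nat_lit 426010) (nat_lit 0) (.e (nat_lit 7591) (nat_lit 407) (.e (nat_lit 73729) (nat_lit 0) (.e (nat_lit 7125) (nat_lit 382) (.e (nat_lit 1222) (nat_lit 90) .nil)))))) (.g (nat_lit 6) .nil .nil))))) (.nd (nat_lit 5) (.nd (nat_lit 6) 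
(.lf (nat_lit 206871) (.g (nat_lit 589) (.e (nat_lit 81925) (nat_lit 11) (.e (nat_lit 426408) (nat_lit 15) (.e (nat_lit 7936) (nat_lit 362) .nil))) .nil)) 
(.lf (nat_lit 206935) (.g (nat_lit 3305) (.e (nat_lit 81926) (nat_lit 11) (.e (nat_lit 426306) (nat_lit 12) (.e (nat_lit 475214) (nat_lit 42) (.e (nat_lit 720912) (nat_lit 20) .nil)))) .nil))) (.nd (nat_lit 6) 
(.lf (nat_lit 206903) (.g (nat_lit 2015) (.e (nat_lit 81926) (nat_lit 11) (.e (nat_lit 426172) (nat_lit 7) (.e (nat_lit 409645) (nat_lit 18) (.e (nat_lit 303115) (nat_lit 1) (.e (nat_lit 164148) (nat_lit 152) .nil))))) .nil)) 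
(.lf (nat_lit 206967) (.g (nat_lit 1365) (.e (nat_lit 81927) (nat_lit 11) (.e (nat_lit 426011) (nat_lit 0) (.e (nat_lit 7591) (nat_lit 407) (.e (nat_lit 73731) (nat_lit 0) (.e (nat_lit 7119) (nat_lit 382) .nil))))) .nil))))) (.nd (nat_lit 4) (.nd (nat_lit 5) (.nd (nat_lit 6) 
(.lf (nat_lit 206863) (.g (nat_lit 914) (.e (nat_lit 81925) (nat_lit 11) (.e (nat_lit 426408) (nat_lit 15) (.e (nat_lit 6112) (nat_lit 332) (.e (nat_lit 1376) (nat_lit 104) .nil)))) .nil)) 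
(.lf (nat_lit 206927) (.g (nat_lit 1488) (.e (nat_lit 81926) (nat_lit 11) (.e (nat_lit 426172) (nat_lit 7) (.e (nat_lit 409649) (nat_lit 18) (.e (nat_lit 303115) (nat_lit 1) (.e (nat_lit 164148) (nat_lit 152) .nil))))) .nil))) (.nd (nat_lit 6) 
(.lf (nat_lit 206895) (.g (nat_lit 336) (.e (nat_lit 81926) (nat_lit 11) (.e (nat_lit 426172) (nat_lit 7) (.e (nat_lit 417536) (nat_lit 10) .nil))) .nil)) 
(.lf (nat_lit 206959) (.g (nat_lit 1042) (.e (nat_lit 81927) (nat_lit 11) (.e (nat_lit 426010) (nat_lit 0) (.e (nat_lit 7593) (nat_lit 407) (.e (nat_lit 73772) (nat_lit 24) (.e (nat_lit 769792) (nat_lit 10) .nil))))) (.g (nat_lit 4) .nil .nil))))) (.nd (nat_lit 5) (.nd (nat_lit 6) 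
(.lf (nat_lit 206879) (.g (nat_lit 602) (.e (nat_lit 81926) (nat_lit 11) (.e (nat_lit 426010) (nat_lit 0) (.e (nat_lit 7591) (nat_lit 407) (.e (nat_lit 73772) (nat_lit 24) .nil)))) .nil)) 
(.lf (nat_lit 206943) (.g (nat_lit 1650) (.e (nat_lit 81926) (nat_lit 11) (.e (nat_lit 426343) (nat_lit 14) (.e (nat_lit 491560) (nat_lit 10) (.e (nat_lit 344174) (nat_lit 42) .nil)))) .nil))) (.nd (nat_lit 6) 
(.lf (nat_lit 206911) (.g (nat_lit 344) (.e (nat_lit 81926) (nat_lit 11) (.e (nat_lit 426172) (nat_lit 7) (.e (nat_lit 409647) (nat_lit 18) .nil))) .nil)) 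
(.lf (nat_lit 206975) (.g (nat_lit 2420) (.e (nat_lit 81927) (nat_lit 11) (.e (nat_lit 426011) (nat_lit 0) (.e (nat_lit 7593) (nat_lit 407) (.e (nat_lit 73729) (nat_lit 0) (.e (nat_lit 7122) (nat_lit 382) (.e (nat_lit 7936) (nat_lit 90) .nil)))))) (.g (nat_lit 5) .nil .nil))))))))))

noncomputable def tv2729 : DT := (.nd (nat_lit 0) (.nd (nat_lit 1) (.nd (nat_lit 2) (.nd (nat_lit 3) (.nd (nat_lit 4) (.nd (nat_lit 5) (.nd (nat_lit 6) 
(.lf (nat_lit 206976) (.g (nat_lit 2231) (.e (nat_lit 81927) (nat_lit 11) (.e (nat_lit 426011) (nat_lit 0) (.e (nat_lit 7593) (nat_lit 407) (.e (nat_lit 73729) (nat_lit 0) (.e (nat_lit 7124) (nat_lit 382) (.e (nat_lit 7936) (nat_lit 90) .nil)))))) (.g (nat_lit 5) .nil .nil))) 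
(.lf (nat_lit 207040) (.g (nat_lit 1333) (.e (nat_lit 81927) (nat_lit 11) (.e (nat_lit 426172) (nat_lit 7) (.e (nat_lit 409649) (nat_lit 18) (.e (nat_lit 303114) (nat_lit 1) .nil)))) .nil))) (.nd (nat_lit 6) 
(.lf (nat_lit 207008) (.g (nat_lit 3141) (.e (nat_lit 81927) (nat_lit 11) (.e (nat_lit 426107) (nat_lit 1) (.e (nat_lit 164179) (nat_lit 154) (.e (nat_lit 57406) (nat_lit 12) (.e (nat_lit 336316) (nat_lit 17) (.e (nat_lit 196672) (nat_lit 15) .nil)))))) (.g (nat_lit 0) .nil .nil))) 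
(.lf (nat_lit 207072) (.g (nat_lit 1253) (.e (nat_lit 81927) (nat_lit 11) (.e (nat_lit 426315) (nat_lit 12) (.e (nat_lit 475214) (nat_lit 42) (.e (nat_lit 720931) (nat_lit 21) .nil)))) .nil)))) (.nd (nat_lit 5) (.nd (nat_lit 6) 
(.lf (nat_lit 206992) (.g (nat_lit 2662) (.e (nat_lit 81927) (nat_lit 11) (.e (nat_lit 426012) (nat_lit 0) (.e (nat_lit 7593) (nat_lit 407) (.e (nat_lit 73731) (nat_lit 0) (.e (nat_lit 7122) (nat_lit 382) (.e (nat_lit 1222) (nat_lit 90) .nil)))))) (.g (nat_lit 6) .nil .nil))) 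
(.lf (nat_lit 207056) (.g (nat_lit 1550) (.e (nat_lit 81927) (nat_lit 11) (.e (nat_lit 426200) (nat_lit 9) (.e (nat_lit 426448) (nat_lit 20) (.e (nat_lit 114712) (nat_lit 21) .nil)))) .nil))) (.nd (nat_lit 6) 
(.lf (nat_lit 207024) (.g (nat_lit 1416) (.e (nat_lit 81927) (nat_lit 11) (.e (nat_lit 426172) (nat_lit 7) (.e (nat_lit 409644) (nat_lit 18) (.e (nat_lit 303115) (nat_lit 1) (.e (nat_lit 164150) (nat_lit 152) .nil))))) .nil)) 
(.lf (nat_lit 207088) (.g (nat_lit 2005) (.e (nat_lit 81927) (nat_lit 11) (.e (nat_lit 426341) (nat_lit 14) (.e (nat_lit 491566) (nat_lit 12) (.e (nat_lit 385045) (nat_lit 21) .nil)))) .nil))))) (.nd (nat_lit 4) (.nd (nat_lit 5) (.nd (nat_lit 6) 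
(.lf (nat_lit 206984) (.g (nat_lit 1159) (.e (nat_lit 81927) (nat_lit 11) (.e (nat_lit 426012) (nat_lit 0) (.e (nat_lit 7591) (nat_lit 407) (.e (nat_lit 73731) (nat_lit 0) (.e (nat_lit 7119) (nat_lit 382) .nil))))) .nil)) 
(.lf (nat_lit 207048) (.g (nat_lit 2328) (.e (nat_lit 81927) (nat_lit 11) (.e (nat_lit 426189) (nat_lit 9) (.e (nat_lit 426448) (nat_lit 20) (.e (nat_lit 114712) (nat_lit 21) (.e (nat_lit 57830) (nat_lit 250) (.e (nat_lit 1222) (nat_lit 90) .nil)))))) (.g (nat_lit 6) .nil .nil)))) (.nd (nat_lit 6) 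
(.lf (nat_lit 207016) (.g (nat_lit 2852) (.e (nat_lit 81927) (nat_lit 11) (.e (nat_lit 426108) (nat_lit 1) (.e (nat_lit 164182) (nat_lit 154) (.e (nat_lit 57411) (nat_lit 12) (.e (nat_lit 336315) (nat_lit 17) .nil))))) .nil)) 
(.lf (nat_lit 207080) (.g (nat_lit 1237) (.e (nat_lit 81927) (nat_lit 11) (.e (nat_lit 426341) (nat_lit 14) (.e (nat_lit 491560) (nat_lit 10) (.e (nat_lit 344090) (nat_lit 18) .nil)))) .nil)))) (.nd (nat_lit 5) (.nd (nat_lit 6) 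
(.lf (nat_lit 207000) (.g (nat_lit 2751) (.e (nat_lit 81927) (nat_lit 11) (.e (nat_lit 426098) (nat_lit 1) (.e (nat_lit 164179) (nat_lit 154) (.e (nat_lit 57411) (nat_lit 12) (.e (nat_lit 336320) (nat_lit 17) .nil))))) .nil)) 
(.lf (nat_lit 207064) (.g (nat_lit 2444) (.e (nat_lit 81927) (nat_lit 11) (.e (nat_lit 426308) (nat_lit 12) (.e (nat_lit 475212) (nat_lit 42) (.e (nat_lit 720934) (nat_lit 21) (.e (nat_lit 57830) (nat_lit 250) (.e (nat_lit 1222) (nat_lit 90) .nil)))))) (.g (nat_lit 0) .nil .nil)))) (.nd (nat_lit 6) 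
(.lf (nat_lit 207032) (.g (nat_lit 1830) (.e (nat_lit 81927) (nat_lit 11) (.e (nat_lit 426172) (nat_lit 7) (.e (nat_lit 409646) (nat_lit 18) (.e (nat_lit 303115) (nat_lit 1) (.e (nat_lit 164148) (nat_lit 152) .nil))))) .nil)) 
(.lf (nat_lit 207096) (.g (nat_lit 1585) (.e (nat_lit 81927) (nat_lit 11) (.e (nat_lit 426342) (nat_lit 14) (.e (nat_lit 491558) (nat_lit 10) (.e (nat_lit 344095) (nat_lit 18) (.e (nat_lit 7122) (nat_lit 382) (.e (nat_lit 7936) (nat_lit 90) .nil)))))) (.g (nat_lit 5) .nil .nil))))))) (.nd (nat_lit 3) (.nd (nat_lit 4) (.nd (nat_lit 5) (.nd (nat_lit 6) 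
(.lf (nat_lit 206980) (.g (nat_lit 323) (.e (nat_lit 81927) (nat_lit 11) (.e (nat_lit 426012) (nat_lit 0) (.e (nat_lit 7591) (nat_lit 407) .nil))) .nil)) 
(.lf (nat_lit 207044) (.g (nat_lit 1071) (.e (nat_lit 81927) (nat_lit 11) (.e (nat_lit 426182) (nat_lit 8) (.e (nat_lit 417820) (nat_lit 10) (.e (nat_lit 5761) (nat_lit 315) (.e (nat_lit 163850) (nat_lit 0) .nil))))) .nil))) (.nd (nat_lit 6) 
(.lf (nat_lit 207012) (.g (nat_lit 3070) (.e (nat_lit 81927) (nat_lit 11) (.e (nat_lit 426107) (nat_lit 1) (.e (nat_lit 164179) (nat_lit 154) (.e (nat_lit 57411) (nat_lit 12) (.e (nat_lit 336320) (nat_lit 17) .nil))))) .nil)) 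
(.lf (nat_lit 207076) (.g (nat_lit 2438) (.e (nat_lit 81927) (nat_lit 11) (.e (nat_lit 426338) (nat_lit 14) (.e (nat_lit 491566) (nat_lit 12) (.e (nat_lit 385077) (nat_lit 34) .nil)))) .nil)))) (.nd (nat_lit 5) (.nd (nat_lit 6) 
(.lf (nat_lit 206996) (.g (nat_lit 1879) (.e (nat_lit 81927) (nat_lit 11) (.e (nat_lit 426098) (nat_lit 1) (.e (nat_lit 164177) (nat_lit 154) (.e (nat_lit 57407) (nat_lit 12) (.e (nat_lit 336315) (nat_lit 17) (.e (nat_lit 196672) (nat_lit 15) .nil)))))) (.g (nat_lit 4) .nil .nil))) 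
(.lf (nat_lit 207060) (.g (nat_lit 2067) (.e (nat_lit 81927) (nat_lit 11) (.e (nat_lit 426307) (nat_lit 12) (.e (nat_lit 475214) (nat_lit 42) (.e (nat_lit 720930) (nat_lit 21) (.e (nat_lit 57830) (nat_lit 250) (.e (nat_lit 1222) (nat_lit 90) .nil)))))) (.g (nat_lit 0) .nil .nil)))) (.nd (nat_lit 6) 
(.lf (nat_lit 207028) (.g (nat_lit 980) (.e (nat_lit 81927) (nat_lit 11) (.e (nat_lit 426172) (nat_lit 7) (.e (nat_lit 409646) (nat_lit 18) (.e (nat_lit 303111) (nat_lit 0) .nil)))) .nil)) 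
(.lf (nat_lit 207092) (.g (nat_lit 1729) (.e (nat_lit 81927) (nat_lit 11) (.e (nat_lit 426342) (nat_lit 14) (.e (nat_lit 491558) (nat_lit 10) (.e (nat_lit 344091) (nat_lit 18) (.e (nat_lit 7124) (nat_lit 382) (.e (nat_lit 7936) (nat_lit 90) .nil)))))) (.g (nat_lit 5) .nil .nil)))))) (.nd (nat_lit 4) (.nd (nat_lit 5) (.nd (nat_lit 6) 
(.lf (nat_lit 206988) (.g (nat_lit 2022) (.e (nat_lit 81927) (nat_lit 11) (.e (nat_lit 426012) (nat_lit 0) (.e (nat_lit 7593) (nat_lit 407) (.e (nat_lit 73729) (nat_lit 0) (.e (nat_lit 7119) (nat_lit 382) (.e (nat_lit 7936) (nat_lit 90) .nil)))))) (.g (nat_lit 5) .nil .nil))) 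
(.lf (nat_lit 207052) (.g (nat_lit 1963) (.e (nat_lit 81927) (nat_lit 11) (.e (nat_lit 426198) (nat_lit 9) (.e (nat_lit 426354) (nat_lit 15) (.e (nat_lit 2031) (nat_lit 140) (.e (nat_lit 688171) (nat_lit 15) .nil))))) .nil))) (.nd (nat_lit 6) 
(.lf (nat_lit 207020) (.g (nat_lit 1834) (.e (nat_lit 81927) (nat_lit 11) (.e (nat_lit 426166) (nat_lit 7) (.e (nat_lit 409646) (nat_lit 18) (.e (nat_lit 303115) (nat_lit 1) (.e (nat_lit 164150) (nat_lit 152) .nil))))) .nil)) 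
(.lf (nat_lit 207084) (.g (nat_lit 1099) (.e (nat_lit 81927) (nat_lit 11) (.e (nat_lit 426341) (nat_lit 14) (.e (nat_lit 491560) (nat_lit 10) (.e (nat_lit 344096) (nat_lit 18) .nil)))) .nil)))) (.nd (nat_lit 5) (.nd (nat_lit 6) 
(.lf (nat_lit 207004) (.g (nat_lit 1632) (.e (nat_lit 81927) (nat_lit 11) (.e (nat_lit 426100) (nat_lit 1) (.e (nat_lit 164183) (nat_lit 154) (.e (nat_lit 57409) (nat_lit 12) .nil)))) .nil)) 
(.lf (nat_lit 207068) (.g (nat_lit 1549) (.e (nat_lit 81927) (nat_lit 11) (.e (nat_lit 426308) (nat_lit 12) (.e (nat_lit 475214) (nat_lit 42) (.e (nat_lit 720934) (nat_lit 21) .nil)))) .nil))) (.nd (nat_lit 6) 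
(.lf (nat_lit 207036) (.g (nat_lit 1282) (.e (nat_lit 81927) (nat_lit 11) (.e (nat_lit 426172) (nat_lit 7) (.e (nat_lit 409648) (nat_lit 18) (.e (nat_lit 303114) (nat_lit 1) .nil)))) .nil)) 
(.lf (nat_lit 207100) (.g (nat_lit 1377) (.e (nat_lit 81927) (nat_lit 11) (.e (nat_lit 426342) (nat_lit 14) (.e (nat_lit 491560) (nat_lit 10) (.e (nat_lit 344088) (nat_lit 18) .nil)))) .nil))))))) (.nd (nat_lit 2) (.nd (nat_lit 3) (.nd (nat_lit 4) (.nd (nat_lit 5) (.nd (nat_lit 6) 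
(.lf (nat_lit 206978) (.g (nat_lit 2815) (.e (nat_lit 81927) (nat_lit 11) (.e (nat_lit 426011) (nat_lit 0) (.e (nat_lit 7593) (nat_lit 407) (.e (nat_lit 73731) (nat_lit 0) (.e (nat_lit 7122) (nat_lit 382) (.e (nat_lit 1222) (nat_lit 90) .nil)))))) (.g (nat_lit 6) .nil .nil))) 
(.lf (nat_lit 207042) (.g (nat_lit 1573) (.e (nat_lit 81927) (nat_lit 11) (.e (nat_lit 426172) (nat_lit 7) (.e (nat_lit 409649) (nat_lit 18) (.e (nat_lit 303115) (nat_lit 1) (.e (nat_lit 164151) (nat_lit 152) .nil))))) .nil))) (.nd (nat_lit 6) 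
(.lf (nat_lit 207010) (.g (nat_lit 1515) (.e (nat_lit 81927) (nat_lit 11) (.e (nat_lit 426107) (nat_lit 1) (.e (nat_lit 164179) (nat_lit 154) (.e (nat_lit 57409) (nat_lit 12) .nil)))) .nil)) 
(.lf (nat_lit 207074) (.g (nat_lit 2698) (.e (nat_lit 81927) (nat_lit 11) (.e (nat_lit 426338) (nat_lit 14) (.e (nat_lit 491560) (nat_lit 10) (.e (nat_lit 344177) (nat_lit 43) (.e (nat_lit 770074) (nat_lit 10) .nil))))) .nil)))) (.nd (nat_lit 5) (.nd (nat_lit 6) 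
(.lf (nat_lit 206994) (.g (nat_lit 1469) (.e (nat_lit 81927) (nat_lit 11) (.e (nat_lit 426012) (nat_lit 0) (.e (nat_lit 7593) (nat_lit 407) (.e (nat_lit 73772) (nat_lit 24) (.e (nat_lit 769792) (nat_lit 10) .nil))))) (.g (nat_lit 4) .nil .nil))) 
(.lf (nat_lit 207058) (.g (nat_lit 2565) (.e (nat_lit 81927) (nat_lit 11) (.e (nat_lit 426306) (nat_lit 12) (.e (nat_lit 475214) (nat_lit 42) (.e (nat_lit 720932) (nat_lit 21) .nil)))) .nil))) (.nd (nat_lit 6) 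
(.lf (nat_lit 207026) (.g (nat_lit 2214) (.e (nat_lit 81927) (nat_lit 11) (.e (nat_lit 426172) (nat_lit 7) (.e (nat_lit 409645) (nat_lit 18) (.e (nat_lit 303115) (nat_lit 1) (.e (nat_lit 164151) (nat_lit 152) (.e (nat_lit 1216) (nat_lit 90) .nil)))))) (.g (nat_lit 4) .nil .nil))) 
(.lf (nat_lit 207090) (.g (nat_lit 729) (.e (nat_lit 81927) (nat_lit 11) (.e (nat_lit 426342) (nat_lit 14) (.e (nat_lit 491558) (nat_lit 10) (.e (nat_lit 344091) (nat_lit 18) .nil)))) .nil))))) (.nd (nat_lit 4) (.nd (nat_lit 5) (.nd (nat_lit 6) 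
(.lf (nat_lit 206986) (.g (nat_lit 830) (.e (nat_lit 81927) (nat_lit 11) (.e (nat_lit 426012) (nat_lit 0) (.e (nat_lit 7591) (nat_lit 407) (.e (nat_lit 81664) (nat_lit 0) .nil)))) .nil)) 
(.lf (nat_lit 207050) (.g (nat_lit 1693) (.e (nat_lit 81927) (nat_lit 11) (.e (nat_lit 426190) (nat_lit 9) (.e (nat_lit 426448) (nat_lit 20) (.e (nat_lit 114710) (nat_lit 21) (.e (nat_lit 57832) (nat_lit 250) .nil))))) .nil))) (.nd (nat_lit 6) 
(.lf (nat_lit 207018) (.g (nat_lit 1796) (.e (nat_lit 81927) (nat_lit 11) (.e (nat_lit 426108) (nat_lit 1) (.e (nat_lit 164183) (nat_lit 154) (.e (nat_lit 65280) (nat_lit 12) .nil)))) .nil)) 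
(.lf (nat_lit 207082) (.g (nat_lit 1227) (.e (nat_lit 81927) (nat_lit 11) (.e (nat_lit 426341) (nat_lit 14) (.e (nat_lit 491560) (nat_lit 10) (.e (nat_lit 344091) (nat_lit 18) .nil)))) .nil)))) (.nd (nat_lit 5) (.nd (nat_lit 6) 
(.lf (nat_lit 207002) (.g (nat_lit 1544) (.e (nat_lit 81927) (nat_lit 11) (.e (nat_lit 426098) (nat_lit 1) (.e (nat_lit 164182) (nat_lit 154) (.e (nat_lit 57410) (nat_lit 12) (.e (nat_lit 336315) (nat_lit 17) .nil))))) .nil)) 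
(.lf (nat_lit 207066) (.g (nat_lit 960) (.e (nat_lit 81927) (nat_lit 11) (.e (nat_lit 426308) (nat_lit 12) (.e (nat_lit 475214) (nat_lit 42) (.e (nat_lit 720931) (nat_lit 21) .nil)))) .nil))) (.nd (nat_lit 6) 
(.lf (nat_lit 207034) (.g (nat_lit 1359) (.e (nat_lit 81927) (nat_lit 11) (.e (nat_lit 426172) (nat_lit 7) (.e (nat_lit 409647) (nat_lit 18) (.e (nat_lit 303115) (nat_lit 1) (.e (nat_lit 164150) (nat_lit 152) .nil))))) .nil)) 
(.lf (nat_lit 207098) (.g (nat_lit 1338) (.e (nat_lit 81927) (nat_lit 11) (.e (nat_lit 426342) (nat_lit 14) (.e (nat_lit 491558) (nat_lit 10) (.e (nat_lit 344174) (nat_lit 42) (.e (nat_lit 769792) (nat_lit 10) .nil))))) (.g (nat_lit 4) .nil .nil))))))) (.nd (nat_lit 3) (.nd (nat_lit 4) (.nd (nat_lit 5) (.nd (nat_lit 6) 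
(.lf (nat_lit 206982) (.g (nat_lit 1179) (.e (nat_lit 81927) (nat_lit 11) (.e (nat_lit 426012) (nat_lit 0) (.e (nat_lit 7591) (nat_lit 407) (.e (nat_lit 73730) (nat_lit 0) (.e (nat_lit 7119) (nat_lit 382) (.e (nat_lit 7936) (nat_lit 90) .nil)))))) (.g (nat_lit 4) .nil .nil))) 
(.lf (nat_lit 207046) (.g (nat_lit 1886) (.e (nat_lit 81927) (nat_lit 11) (.e (nat_lit 426187) (nat_lit 9) (.e (nat_lit 426448) (nat_lit 20) (.e (nat_lit 114710) (nat_lit 21) (.e (nat_lit 57829) (nat_lit 250) (.e (nat_lit 1222) (nat_lit 90) .nil)))))) (.g (nat_lit 4) .nil .nil)))) (.nd (nat_lit 6) 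
(.lf (nat_lit 207014) (.g (nat_lit 2493) (.e (nat_lit 81927) (nat_lit 11) (.e (nat_lit 426107) (nat_lit 1) (.e (nat_lit 164182) (nat_lit 154) (.e (nat_lit 57411) (nat_lit 12) (.e (nat_lit 336320) (nat_lit 17) .nil))))) .nil)) 
(.lf (nat_lit 207078) (.g (nat_lit 634) (.e (nat_lit 81927) (nat_lit 11) (.e (nat_lit 426341) (nat_lit 14) (.e (nat_lit 491552) (nat_lit 9) .nil))) .nil)))) (.nd (nat_lit 5) (.nd (nat_lit 6) 
(.lf (nat_lit 206998) (.g (nat_lit 2264) (.e (nat_lit 81927) (nat_lit 11) (.e (nat_lit 426098) (nat_lit 1) (.e (nat_lit 164179) (nat_lit 154) (.e (nat_lit 57406) (nat_lit 12) (.e (nat_lit 336315) (nat_lit 17) .nil))))) .nil)) 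
(.lf (nat_lit 207062) (.g (nat_lit 395) (.e (nat_lit 81927) (nat_lit 11) (.e (nat_lit 426308) (nat_lit 12) (.e (nat_lit 475212) (nat_lit 42) .nil))) .nil))) (.nd (nat_lit 6) 
(.lf (nat_lit 207030) (.g (nat_lit 1539) (.e (nat_lit 81927) (nat_lit 11) (.e (nat_lit 426172) (nat_lit 7) (.e (nat_lit 409646) (nat_lit 18) (.e (nat_lit 303114) (nat_lit 1) .nil)))) .nil)) 
(.lf (nat_lit 207094) (.g (nat_lit 1190) (.e (nat_lit 81927) (nat_lit 11) (.e (nat_lit 426342) (nat_lit 14) (.e (nat_lit 491558) (nat_lit 10) (.e (nat_lit 344095) (nat_lit 18) (.e (nat_lit 7119) (nat_lit 382) (.e (nat_lit 7936) (nat_lit 90) .nil)))))) (.g (nat_lit 4) .nil .nil)))))) (.nd (nat_lit 4) (.nd (nat_lit 5) (.nd (nat_lit 6) 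
(.lf (nat_lit 206990) (.g (nat_lit 2036) (.e (nat_lit 81927) (nat_lit 11) (.e (nat_lit 426012) (nat_lit 0) (.e (nat_lit 7593) (nat_lit 407) (.e (nat_lit 73729) (nat_lit 0) (.e (nat_lit 7124) (nat_lit 382) (.e (nat_lit 7936) (nat_lit 90) .nil)))))) (.g (nat_lit 5) .nil .nil))) 
(.lf (nat_lit 207054) (.g (nat_lit 1574) (.e (nat_lit 81927) (nat_lit 11) (.e (nat_lit 426200) (nat_lit 9) (.e (nat_lit 426448) (nat_lit 20) (.e (nat_lit 114710) (nat_lit 21) .nil)))) .nil))) (.nd (nat_lit 6) 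
(.lf (nat_lit 207022) (.g (nat_lit 1354) (.e (nat_lit 81927) (nat_lit 11) (.e (nat_lit 426172) (nat_lit 7) (.e (nat_lit 409643) (nat_lit 18) (.e (nat_lit 303115) (nat_lit 1) (.e (nat_lit 164150) (nat_lit 152) .nil))))) .nil)) 
(.lf (nat_lit 207086) (.g (nat_lit 1704) (.e (nat_lit 81927) (nat_lit 11) (.e (nat_lit 426341) (nat_lit 14) (.e (nat_lit 491560) (nat_lit 10) (.e (nat_lit 344176) (nat_lit 43) .nil)))) .nil)))) (.nd (nat_lit 5) (.nd (nat_lit 6) 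
(.lf (nat_lit 207006) (.g (nat_lit 1083) (.e (nat_lit 81927) (nat_lit 11) (.e (nat_lit 426107) (nat_lit 1) (.e (nat_lit 164178) (nat_lit 154) (.e (nat_lit 57407) (nat_lit 12) .nil)))) .nil)) 
(.lf (nat_lit 207070) (.g (nat_lit 1444) (.e (nat_lit 81927) (nat_lit 11) (.e (nat_lit 426315) (nat_lit 12) (.e (nat_lit 475193) (nat_lit 38) (.e (nat_lit 688166) (nat_lit 15) (.e (nat_lit 57521) (nat_lit 44) .nil))))) .nil))) (.nd (nat_lit 6) 
(.lf (nat_lit 207038) (.g (nat_lit 1700) (.e (nat_lit 81927) (nat_lit 11) (.e (nat_lit 426172) (nat_lit 7) (.e (nat_lit 409648) (nat_lit 18) (.e (nat_lit 303115) (nat_lit 1) (.e (nat_lit 164151) (nat_lit 152) .nil))))) .nil)) 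
(.lf (nat_lit 207102) (.g (nat_lit 1609) (.e (nat_lit 81927) (nat_lit 11) (.e (nat_lit 426342) (nat_lit 14) (.e (nat_lit 491560) (nat_lit 10) (.e (nat_lit 344089) (nat_lit 18) .nil)))) .nil)))))))) (.nd (nat_lit 1) (.nd (nat_lit 2) (.nd (nat_lit 3) (.nd (nat_lit 4) (.nd (nat_lit 5) (.nd (nat_lit 6) 
(.lf (nat_lit 206977) (.g (nat_lit 1697) (.e (nat_lit 81927) (nat_lit 11) (.e (nat_lit 426011) (nat_lit 0) (.e (nat_lit 7593) (nat_lit 407) (.e (nat_lit 73730) (nat_lit 0) (.e (nat_lit 7119) (nat_lit 382) .nil))))) .nil)) 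
(.lf (nat_lit 207041) (.g (nat_lit 1514) (.e (nat_lit 81927) (nat_lit 11) (.e (nat_lit 426172) (nat_lit 7) (.e (nat_lit 409649) (nat_lit 18) (.e (nat_lit 303115) (nat_lit 1) (.e (nat_lit 164150) (nat_lit 152) .nil))))) .nil))) (.nd (nat_lit 6) 
(.lf (nat_lit 207009) (.g (nat_lit 3247) (.e (nat_lit 81927) (nat_lit 11) (.e (nat_lit 426107) (nat_lit 1) (.e (nat_lit 164179) (nat_lit 154) (.e (nat_lit 57407) (nat_lit 12) (.e (nat_lit 336316) (nat_lit 17) (.e (nat_lit 196672) (nat_lit 15) .nil)))))) (.g (nat_lit 0) .nil .nil))) 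
(.lf (nat_lit 207073) (.g (nat_lit 1576) (.e (nat_lit 81927) (nat_lit 11) (.e (nat_lit 426316) (nat_lit 12) (.e (nat_lit 475214) (nat_lit 42) (.e (nat_lit 720932) (nat_lit 21) .nil)))) .nil)))) (.nd (nat_lit 5) (.nd (nat_lit 6) 
(.lf (nat_lit 206993) (.g (nat_lit 902) (.e (nat_lit 81927) (nat_lit 11) (.e (nat_lit 426012) (nat_lit 0) (.e (nat_lit 7593) (nat_lit 407) (.e (nat_lit 81664) (nat_lit 0) .nil)))) .nil)) 
(.lf (nat_lit 207057) (.g (nat_lit 733) (.e (nat_lit 81927) (nat_lit 11) (.e (nat_lit 426306) (nat_lit 12) (.e (nat_lit 475214) (nat_lit 42) .nil))) .nil))) (.nd (nat_lit 6) 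
(.lf (nat_lit 207025) (.g (nat_lit 2091) (.e (nat_lit 81927) (nat_lit 11) (.e (nat_lit 426172) (nat_lit 7) (.e (nat_lit 409645) (nat_lit 18) (.e (nat_lit 303115) (nat_lit 1) (.e (nat_lit 164150) (nat_lit 152) .nil))))) .nil)) 
(.lf (nat_lit 207089) (.g (nat_lit 2359) (.e (nat_lit 81927) (nat_lit 11) (.e (nat_lit 426341) (nat_lit 14) (.e (nat_lit 491566) (nat_lit 12) (.e (nat_lit 385077) (nat_lit 34) .nil)))) .nil))))) (.nd (nat_lit 4) (.nd (nat_lit 5) (.nd (nat_lit 6) 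
(.lf (nat_lit 206985) (.g (nat_lit 2567) (.e (nat_lit 81927) (nat_lit 11) (.e (nat_lit 426012) (nat_lit 0) (.e (nat_lit 7591) (nat_lit 407) (.e (nat_lit 73731) (nat_lit 0) (.e (nat_lit 7122) (nat_lit 382) (.e (nat_lit 1222) (nat_lit 90) .nil)))))) (.g (nat_lit 0) .nil .nil))) 
(.lf (nat_lit 207049) (.g (nat_lit 1538) (.e (nat_lit 81927) (nat_lit 11) (.e (nat_lit 426190) (nat_lit 9) (.e (nat_lit 426446) (nat_lit 20) (.e (nat_lit 114710) (nat_lit 21) (.e (nat_lit 57829) (nat_lit 250) (.e (nat_lit 1222) (nat_lit 90) .nil)))))) (.g (nat_lit 4) .nil .nil)))) (.nd (nat_lit 6) 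
(.lf (nat_lit 207017) (.g (nat_lit 2918) (.e (nat_lit 81927) (nat_lit 11) (.e (nat_lit 426108) (nat_lit 1) (.e (nat_lit 164182) (nat_lit 154) (.e (nat_lit 57411) (nat_lit 12) (.e (nat_lit 336320) (nat_lit 17) .nil))))) .nil)) 
(.lf (nat_lit 207081) (.g (nat_lit 2158) (.e (nat_lit 81927) (nat_lit 11) (.e (nat_lit 426341) (nat_lit 14) (.e (nat_lit 491560) (nat_lit 10) (.e (nat_lit 344090) (nat_lit 18) (.e (nat_lit 7125) (nat_lit 382) (.e (nat_lit 1222) (nat_lit 90) .nil)))))) (.g (nat_lit 4) .nil .nil))))) (.nd (nat_lit 5) (.nd (nat_lit 6) 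
(.lf (nat_lit 207001) (.g (nat_lit 1996) (.e (nat_lit 81927) (nat_lit 11) (.e (nat_lit 426098) (nat_lit 1) (.e (nat_lit 164182) (nat_lit 154) (.e (nat_lit 57409) (nat_lit 12) (.e (nat_lit 336315) (nat_lit 17) .nil))))) .nil)) 
(.lf (nat_lit 207065) (.g (nat_lit 392) (.e (nat_lit 81927) (nat_lit 11) (.e (nat_lit 426308) (nat_lit 12) (.e (nat_lit 475214) (nat_lit 42) .nil))) .nil))) (.nd (nat_lit 6) 
(.lf (nat_lit 207033) (.g (nat_lit 2119) (.e (nat_lit 81927) (nat_lit 11) (.e (nat_lit 426172) (nat_lit 7) (.e (nat_lit 409646) (nat_lit 18) (.e (nat_lit 303115) (nat_lit 1) (.e (nat_lit 164150) (nat_lit 152) (.e (nat_lit 1216) (nat_lit 90) .nil)))))) (.g (nat_lit 4) .nil .nil))) 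
(.lf (nat_lit 207097) (.g (nat_lit 1632) (.e (nat_lit 81927) (nat_lit 11) (.e (nat_lit 426342) (nat_lit 14) (.e (nat_lit 491558) (nat_lit 10) (.e (nat_lit 344096) (nat_lit 18) (.e (nat_lit 7119) (nat_lit 382) (.e (nat_lit 7936) (nat_lit 90) .nil)))))) (.g (nat_lit 5) .nil .nil))))))) (.nd (nat_lit 3) (.nd (nat_lit 4) (.nd (nat_lit 5) (.nd (nat_lit 6) 
(.lf (nat_lit 206981) (.g (nat_lit 1648) (.e (nat_lit 81927) (nat_lit 11) (.e (nat_lit 426012) (nat_lit 0) (.e (nat_lit 7591) (nat_lit 407) (.e (nat_lit 73729) (nat_lit 0) (.e (nat_lit 7119) (nat_lit 382) (.e (nat_lit 7936) (nat_lit 90) .nil)))))) (.g (nat_lit 4) .nil .nil))) 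
(.lf (nat_lit 207045) (.g (nat_lit 2550) (.e (nat_lit 81927) (nat_lit 11) (.e (nat_lit 426182) (nat_lit 8) (.e (nat_lit 417820) (nat_lit 10) (.e (nat_lit 5761) (nat_lit 315) (.e (nat_lit 163850) (nat_lit 0) (.e (nat_lit 6273) (nat_lit 337) (.e (nat_lit 1216) (nat_lit 90) .nil))))))) (.g (nat_lit 6) .nil .nil)))) (.nd (nat_lit 6) 
(.lf (nat_lit 207013) (.g (nat_lit 2426) (.e (nat_lit 81927) (nat_lit 11) (.e (nat_lit 426107) (nat_lit 1) (.e (nat_lit 164182) (nat_lit 154) (.e (nat_lit 57411) (nat_lit 12) (.e (nat_lit 336315) (nat_lit 17) .nil))))) .nil)) 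
(.lf (nat_lit 207077) (.g (nat_lit 622) (.e (nat_lit 81927) (nat_lit 11) (.e (nat_lit 426341) (nat_lit 14) (.e (nat_lit 491546) (nat_lit 9) .nil))) .nil)))) (.nd (nat_lit 5) (.nd (nat_lit 6) 
(.lf (nat_lit 206997) (.g (nat_lit 1283) (.e (nat_lit 81927) (nat_lit 11) (.e (nat_lit 426098) (nat_lit 1) (.e (nat_lit 164179) (nat_lit 154) (.e (nat_lit 57405) (nat_lit 12) .nil)))) .nil)) 
(.lf (nat_lit 207061) (.g (nat_lit 1345) (.e (nat_lit 81927) (nat_lit 11) (.e (nat_lit 426307) (nat_lit 12) (.e (nat_lit 475214) (nat_lit 42) (.e (nat_lit 720934) (nat_lit 21) .nil)))) .nil))) (.nd (nat_lit 6) 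
(.lf (nat_lit 207029) (.g (nat_lit 2466) (.e (nat_lit 81927) (nat_lit 11) (.e (nat_lit 426172) (nat_lit 7) (.e (nat_lit 409646) (nat_lit 18) (.e (nat_lit 303112) (nat_lit 0) (.e (nat_lit 2478) (nat_lit 157) .nil))))) .nil)) 
(.lf (nat_lit 207093) (.g (nat_lit 2905) (.e (nat_lit 81927) (nat_lit 11) (.e (nat_lit 426342) (nat_lit 14) (.e (nat_lit 491558) (nat_lit 10) (.e (nat_lit 344091) (nat_lit 18) (.e (nat_lit 7125) (nat_lit 382) (.e (nat_lit 1222) (nat_lit 90) .nil)))))) (.g (nat_lit 0) .nil .nil)))))) (.nd (nat_lit 4) (.nd (nat_lit 5) (.nd (nat_lit 6) 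
(.lf (nat_lit 206989) (.g (nat_lit 2238) (.e (nat_lit 81927) (nat_lit 11) (.e (nat_lit 426012) (nat_lit 0) (.e (nat_lit 7593) (nat_lit 407) (.e (nat_lit 73729) (nat_lit 0) (.e (nat_lit 7122) (nat_lit 382) (.e (nat_lit 7936) (nat_lit 90) .nil)))))) (.g (nat_lit 5) .nil .nil))) 
(.lf (nat_lit 207053) (.g (nat_lit 642) (.e (nat_lit 81927) (nat_lit 11) (.e (nat_lit 426200) (nat_lit 9) (.e (nat_lit 426446) (nat_lit 20) .nil))) .nil))) (.nd (nat_lit 6) 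
(.lf (nat_lit 207021) (.g (nat_lit 391) (.e (nat_lit 81927) (nat_lit 11) (.e (nat_lit 426172) (nat_lit 7) (.e (nat_lit 409643) (nat_lit 18) .nil))) .nil)) 
(.lf (nat_lit 207085) (.g (nat_lit 1501) (.e (nat_lit 81927) (nat_lit 11) (.e (nat_lit 426341) (nat_lit 14) (.e (nat_lit 491560) (nat_lit 10) (.e (nat_lit 344097) (nat_lit 18) .nil)))) .nil)))) (.nd (nat_lit 5) (.nd (nat_lit 6) 
(.lf (nat_lit 207005) (.g (nat_lit 2188) (.e (nat_lit 81927) (nat_lit 11) (.e (nat_lit 426107) (nat_lit 1) (.e (nat_lit 164177) (nat_lit 154) (.e (nat_lit 57407) (nat_lit 12) (.e (nat_lit 336316) (nat_lit 17) .nil))))) .nil)) 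
(.lf (nat_lit 207069) (.g (nat_lit 798) (.e (nat_lit 81927) (nat_lit 11) (.e (nat_lit 426315) (nat_lit 12) (.e (nat_lit 475193) (nat_lit 38) .nil))) .nil))) (.nd (nat_lit 6) 
(.lf (nat_lit 207037) (.g (nat_lit 1734) (.e (nat_lit 81927) (nat_lit 11) (.e (nat_lit 426172) (nat_lit 7) (.e (nat_lit 409648) (nat_lit 18) (.e (nat_lit 303115) (nat_lit 1) (.e (nat_lit 164150) (nat_lit 152) .nil))))) .nil)) 
(.lf (nat_lit 207101) (.g (nat_lit 1861) (.e (nat_lit 81927) (nat_lit 11) (.e (nat_lit 426342) (nat_lit 14) (.e (nat_lit 491560) (nat_lit 10) (.e (nat_lit 344088) (nat_lit 18) (.e (nat_lit 7125) (nat_lit 382) .nil))))) .nil))))))) (.nd (nat_lit 2) (.nd (nat_lit 3) (.nd (nat_lit 4) (.nd (nat_lit 5) (.nd (nat_lit 6) 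
(.lf (nat_lit 206979) (.g (nat_lit 1710) (.e (nat_lit 81927) (nat_lit 11) (.e (nat_lit 426011) (nat_lit 0) (.e (nat_lit 7593) (nat_lit 407) (.e (nat_lit 73772) (nat_lit 24) (.e (nat_lit 769792) (nat_lit 10) .nil))))) (.g (nat_lit 4) .nil .nil))) 
(.lf (nat_lit 207043) (.g (nat_lit 2162) (.e (nat_lit 81927) (nat_lit 11) (.e (nat_lit 426182) (nat_lit 8) (.e (nat_lit 417820) (nat_lit 10) (.e (nat_lit 5626) (nat_lit 312) (.e (nat_lit 2612) (nat_lit 163) .nil))))) .nil))) (.nd (nat_lit 6) 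
(.lf (nat_lit 207011) (.g (nat_lit 3073) (.e (nat_lit 81927) (nat_lit 11) (.e (nat_lit 426107) (nat_lit 1) (.e (nat_lit 164179) (nat_lit 154) (.e (nat_lit 57411) (nat_lit 12) (.e (nat_lit 336315) (nat_lit 17) .nil))))) .nil)) 
(.lf (nat_lit 207075) (.g (nat_lit 2247) (.e (nat_lit 81927) (nat_lit 11) (.e (nat_lit 426338) (nat_lit 14) (.e (nat_lit 491566) (nat_lit 12) (.e (nat_lit 385045) (nat_lit 21) .nil)))) .nil)))) (.nd (nat_lit 5) (.nd (nat_lit 6) 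
(.lf (nat_lit 206995) (.g (nat_lit 1601) (.e (nat_lit 81927) (nat_lit 11) (.e (nat_lit 426098) (nat_lit 1) (.e (nat_lit 164177) (nat_lit 154) (.e (nat_lit 57406) (nat_lit 12) (.e (nat_lit 336315) (nat_lit 17) .nil))))) .nil)) 
(.lf (nat_lit 207059) (.g (nat_lit 2086) (.e (nat_lit 81927) (nat_lit 11) (.e (nat_lit 426307) (nat_lit 12) (.e (nat_lit 475212) (nat_lit 42) (.e (nat_lit 720931) (nat_lit 21) (.e (nat_lit 57830) (nat_lit 250) (.e (nat_lit 1222) (nat_lit 90) .nil)))))) (.g (nat_lit 0) .nil .nil)))) (.nd (nat_lit 6) 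
(.lf (nat_lit 207027) (.g (nat_lit 1144) (.e (nat_lit 81927) (nat_lit 11) (.e (nat_lit 426172) (nat_lit 7) (.e (nat_lit 409646) (nat_lit 18) (.e (nat_lit 303106) (nat_lit 0) .nil)))) .nil)) 
(.lf (nat_lit 207091) (.g (nat_lit 1977) (.e (nat_lit 81927) (nat_lit 11) (.e (nat_lit 426342) (nat_lit 14) (.e (nat_lit 491558) (nat_lit 10) (.e (nat_lit 344091) (nat_lit 18) (.e (nat_lit 7119) (nat_lit 382) (.e (nat_lit 7936) (nat_lit 90) .nil)))))) (.g (nat_lit 5) .nil .nil)))))) (.nd (nat_lit 4) (.nd (nat_lit 5) (.nd (nat_lit 6) 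
(.lf (nat_lit 206987) (.g (nat_lit 1343) (.e (nat_lit 81927) (nat_lit 11) (.e (nat_lit 426012) (nat_lit 0) (.e (nat_lit 7591) (nat_lit 407) (.e (nat_lit 73772) (nat_lit 24) (.e (nat_lit 769792) (nat_lit 10) .nil))))) (.g (nat_lit 4) .nil .nil))) 
(.lf (nat_lit 207051) (.g (nat_lit 1618) (.e (nat_lit 81927) (nat_lit 11) (.e (nat_lit 426190) (nat_lit 9) (.e (nat_lit 426448) (nat_lit 20) (.e (nat_lit 114710) (nat_lit 21) (.e (nat_lit 57837) (nat_lit 250) .nil))))) .nil))) (.nd (nat_lit 6) 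
(.lf (nat_lit 207019) (.g (nat_lit 2085) (.e (nat_lit 81927) (nat_lit 11) (.e (nat_lit 426166) (nat_lit 7) (.e (nat_lit 409645) (nat_lit 18) (.e (nat_lit 303115) (nat_lit 1) (.e (nat_lit 164151) (nat_lit 152) (.e (nat_lit 1216) (nat_lit 90) .nil)))))) (.g (nat_lit 5) .nil .nil))) 
(.lf (nat_lit 207083) (.g (nat_lit 1248) (.e (nat_lit 81927) (nat_lit 11) (.e (nat_lit 426341) (nat_lit 14) (.e (nat_lit 491560) (nat_lit 10) (.e (nat_lit 344094) (nat_lit 18) .nil)))) .nil)))) (.nd (nat_lit 5) (.nd (nat_lit 6) 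
(.lf (nat_lit 207003) (.g (nat_lit 820) (.e (nat_lit 81927) (nat_lit 11) (.e (nat_lit 426100) (nat_lit 1) (.e (nat_lit 164183) (nat_lit 154) .nil))) .nil)) 
(.lf (nat_lit 207067) (.g (nat_lit 1325) (.e (nat_lit 81927) (nat_lit 11) (.e (nat_lit 426308) (nat_lit 12) (.e (nat_lit 475214) (nat_lit 42) (.e (nat_lit 720931) (nat_lit 21) (.e (nat_lit 57832) (nat_lit 250) .nil))))) .nil))) (.nd (nat_lit 6) 
(.lf (nat_lit 207035) (.g (nat_lit 1203) (.e (nat_lit 81927) (nat_lit 11) (.e (nat_lit 426172) (nat_lit 7) (.e (nat_lit 409648) (nat_lit 18) (.e (nat_lit 303108) (nat_lit 0) .nil)))) .nil)) 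
(.lf (nat_lit 207099) (.g (nat_lit 2383) (.e (nat_lit 81927) (nat_lit 11) (.e (nat_lit 426342) (nat_lit 14) (.e (nat_lit 491558) (nat_lit 10) (.e (nat_lit 344177) (nat_lit 43) (.e (nat_lit 770074) (nat_lit 10) .nil))))) (.g (nat_lit 0) .nil .nil))))))) (.nd (nat_lit 3) (.nd (nat_lit 4) (.nd (nat_lit 5) (.nd (nat_lit 6) 
(.lf (nat_lit 206983) (.g (nat_lit 1569) (.e (nat_lit 81927) (nat_lit 11) (.e (nat_lit 426012) (nat_lit 0) (.e (nat_lit 7591) (nat_lit 407) (.e (nat_lit 73730) (nat_lit 0) (.e (nat_lit 7122) (nat_lit 382) (.e (nat_lit 7936) (nat_lit 90) .nil)))))) (.g (nat_lit 5) .nil .nil))) 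
(.lf (nat_lit 207047) (.g (nat_lit 2894) (.e (nat_lit 81927) (nat_lit 11) (.e (nat_lit 426189) (nat_lit 9) (.e (nat_lit 426448) (nat_lit 20) (.e (nat_lit 114710) (nat_lit 21) (.e (nat_lit 57830) (nat_lit 250) (.e (nat_lit 1222) (nat_lit 90) .nil)))))) (.g (nat_lit 0) .nil .nil)))) (.nd (nat_lit 6) 
(.lf (nat_lit 207015) (.g (nat_lit 1153) (.e (nat_lit 81927) (nat_lit 11) (.e (nat_lit 426108) (nat_lit 1) (.e (nat_lit 164176) (nat_lit 154) .nil))) .nil)) 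
(.lf (nat_lit 207079) (.g (nat_lit 1455) (.e (nat_lit 81927) (nat_lit 11) (.e (nat_lit 426341) (nat_lit 14) (.e (nat_lit 491558) (nat_lit 10) (.e (nat_lit 344091) (nat_lit 18) .nil)))) .nil)))) (.nd (nat_lit 5) (.nd (nat_lit 6) 
(.lf (nat_lit 206999) (.g (nat_lit 2754) (.e (nat_lit 81927) (nat_lit 11) (.e (nat_lit 426098) (nat_lit 1) (.e (nat_lit 164179) (nat_lit 154) (.e (nat_lit 57411) (nat_lit 12) (.e (nat_lit 336315) (nat_lit 17) .nil))))) .nil)) 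
(.lf (nat_lit 207063) (.g (nat_lit 903) (.e (nat_lit 81927) (nat_lit 11) (.e (nat_lit 426308) (nat_lit 12) (.e (nat_lit 475212) (nat_lit 42) (.e (nat_lit 720931) (nat_lit 21) .nil)))) .nil))) (.nd (nat_lit 6) 
(.lf (nat_lit 207031) (.g (nat_lit 1146) (.e (nat_lit 81927) (nat_lit 11) (.e (nat_lit 426172) (nat_lit 7) (.e (nat_lit 409646) (nat_lit 18) (.e (nat_lit 303115) (nat_lit 1) .nil)))) .nil)) 
(.lf (nat_lit 207095) (.g (nat_lit 2250) (.e (nat_lit 81927) (nat_lit 11) (.e (nat_lit 426342) (nat_lit 14) (.e (nat_lit 491558) (nat_lit 10) (.e (nat_lit 344095) (nat_lit 18) (.e (nat_lit 7122) (nat_lit 382) (.e (nat_lit 1222) (nat_lit 90) .nil)))))) (.g (nat_lit 6) .nil .nil)))))) (.nd (nat_lit 4) (.nd (nat_lit 5) (.nd (nat_lit 6) 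
(.lf (nat_lit 206991) (.g (nat_lit 1231) (.e (nat_lit 81927) (nat_lit 11) (.e (nat_lit 426012) (nat_lit 0) (.e (nat_lit 7593) (nat_lit 407) (.e (nat_lit 73730) (nat_lit 0) .nil)))) .nil)) 
(.lf (nat_lit 207055) (.g (nat_lit 2299) (.e (nat_lit 81927) (nat_lit 11) (.e (nat_lit 426200) (nat_lit 9) (.e (nat_lit 426448) (nat_lit 20) (.e (nat_lit 114710) (nat_lit 21) (.e (nat_lit 57830) (nat_lit 250) .nil))))) .nil))) (.nd (nat_lit 6) 
(.lf (nat_lit 207023) (.g (nat_lit 1523) (.e (nat_lit 81927) (nat_lit 11) (.e (nat_lit 426172) (nat_lit 7) (.e (nat_lit 409643) (nat_lit 18) (.e (nat_lit 303115) (nat_lit 1) (.e (nat_lit 164151) (nat_lit 152) (.e (nat_lit 1216) (nat_lit 90) .nil)))))) (.g (nat_lit 4) .nil .nil))) 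
(.lf (nat_lit 207087) (.g (nat_lit 2986) (.e (nat_lit 81927) (nat_lit 11) (.e (nat_lit 426341) (nat_lit 14) (.e (nat_lit 491560) (nat_lit 10) (.e (nat_lit 344177) (nat_lit 43) (.e (nat_lit 770074) (nat_lit 10) .nil))))) (.g (nat_lit 0) .nil .nil))))) (.nd (nat_lit 5) (.nd (nat_lit 6) 
(.lf (nat_lit 207007) (.g (nat_lit 2713) (.e (nat_lit 81927) (nat_lit 11) (.e (nat_lit 426107) (nat_lit 1) (.e (nat_lit 164179) (nat_lit 154) (.e (nat_lit 57406) (nat_lit 12) (.e (nat_lit 336315) (nat_lit 17) .nil))))) .nil)) 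
(.lf (nat_lit 207071) (.g (nat_lit 641) (.e (nat_lit 81927) (nat_lit 11) (.e (nat_lit 426315) (nat_lit 12) (.e (nat_lit 475214) (nat_lit 42) .nil))) .nil))) (.nd (nat_lit 6) 
(.lf (nat_lit 207039) (.g (nat_lit 1849) (.e (nat_lit 81927) (nat_lit 11) (.e (nat_lit 426172) (nat_lit 7) (.e (nat_lit 409649) (nat_lit 18) (.e (nat_lit 303111) (nat_lit 0) (.e (nat_lit 3469) (nat_lit 217) .nil))))) .nil)) 
(.lf (nat_lit 207103) (.g (nat_lit 3072) (.e (nat_lit 81927) (nat_lit 11) (.e (nat_lit 426342) (nat_lit 14) (.e (nat_lit 491560) (nat_lit 10) (.e (nat_lit 344090) (nat_lit 18) (.e (nat_lit 7125) (nat_lit 382) (.e (nat_lit 1222) (nat_lit 90) .nil)))))) (.g (nat_lit 0) .nil .nil))))))))))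

noncomputable def tv2730 : DT := (.nd (nat_lit 0) (.nd (nat_lit 1) (.nd (nat_lit 2) (.nd (nat_lit 3) (.nd (nat_lit 4) (.nd (nat_lit 5) (.nd (nat_lit 6) 
(.lf (nat_lit 207104) (.g (nat_lit 1001) (.e (nat_lit 81927) (nat_lit 11) (.e (nat_lit 426342) (nat_lit 14) (.e (nat_lit 491560) (nat_lit 10) (.e (nat_lit 344091) (nat_lit 18) .nil)))) .nil)) 
(.lf (nat_lit 207168) (.g (nat_lit 2192) (.e (nat_lit 81927) (nat_lit 11) (.e (nat_lit 426343) (nat_lit 14) (.e (nat_lit 491560) (nat_lit 10) (.e (nat_lit 344087) (nat_lit 18) (.e (nat_lit 7125) (nat_lit 382) .nil))))) .nil))) (.nd (nat_lit 6) 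
(.lf (nat_lit 207136) (.g (nat_lit 1348) (.e (nat_lit 81927) (nat_lit 11) (.e (nat_lit 426343) (nat_lit 14) (.e (nat_lit 491552) (nat_lit 9) (.e (nat_lit 335992) (nat_lit 1) .nil)))) .nil)) 
(.lf (nat_lit 207200) (.g (nat_lit 3416) (.e (nat_lit 81927) (nat_lit 11) (.e (nat_lit 426343) (nat_lit 14) (.e (nat_lit 491560) (nat_lit 10) (.e (nat_lit 344176) (nat_lit 43) (.e (nat_lit 770074) (nat_lit 10) .nil))))) (.g (nat_lit 5) .nil .nil))))) (.nd (nat_lit 5) (.nd (nat_lit 6) 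
(.lf (nat_lit 207120) (.g (nat_lit 2282) (.e (nat_lit 81927) (nat_lit 11) (.e (nat_lit 426342) (nat_lit 14) (.e (nat_lit 491560) (nat_lit 10) (.e (nat_lit 344175) (nat_lit 43) (.e (nat_lit 770074) (nat_lit 10) .nil))))) (.g (nat_lit 0) .nil .nil))) 
(.lf (nat_lit 207184) (.g (nat_lit 2137) (.e (nat_lit 81927) (nat_lit 11) (.e (nat_lit 426343) (nat_lit 14) (.e (nat_lit 491560) (nat_lit 10) (.e (nat_lit 344094) (nat_lit 18) (.e (nat_lit 7124) (nat_lit 382) (.e (nat_lit 7936) (nat_lit 90) .nil)))))) (.g (nat_lit 4) .nil .nil)))) (.nd (nat_lit 6) 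
(.lf (nat_lit 207152) (.g (nat_lit 2622) (.e (nat_lit 81927) (nat_lit 11) (.e (nat_lit 426343) (nat_lit 14) (.e (nat_lit 491558) (nat_lit 10) (.e (nat_lit 344091) (nat_lit 18) (.e (nat_lit 7124) (nat_lit 382) (.e (nat_lit 7936) (nat_lit 90) .nil)))))) (.g (nat_lit 5) .nil .nil))) 
(.lf (nat_lit 207216) (.g (nat_lit 2031) (.e (nat_lit 81927) (nat_lit 11) (.e (nat_lit 426344) (nat_lit 14) (.e (nat_lit 491558) (nat_lit 10) (.e (nat_lit 344096) (nat_lit 18) (.e (nat_lit 7119) (nat_lit 382) (.e (nat_lit 7936) (nat_lit 90) .nil)))))) (.g (nat_lit 4) .nil .nil)))))) (.nd (nat_lit 4) (.nd (nat_lit 5) (.nd (nat_lit 6) 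
(.lf (nat_lit 207112) (.g (nat_lit 1548) (.e (nat_lit 81927) (nat_lit 11) (.e (nat_lit 426342) (nat_lit 14) (.e (nat_lit 491560) (nat_lit 10) (.e (nat_lit 344095) (nat_lit 18) .nil)))) .nil)) 
(.lf (nat_lit 207176) (.g (nat_lit 2515) (.e (nat_lit 81927) (nat_lit 11) (.e (nat_lit 426343) (nat_lit 14) (.e (nat_lit 491560) (nat_lit 10) (.e (nat_lit 344090) (nat_lit 18) (.e (nat_lit 7124) (nat_lit 382) (.e (nat_lit 7936) (nat_lit 90) .nil)))))) (.g (nat_lit 5) .nil .nil)))) (.nd (nat_lit 6) 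
(.lf (nat_lit 207144) (.g (nat_lit 428) (.e (nat_lit 81927) (nat_lit 11) (.e (nat_lit 426343) (nat_lit 14) (.e (nat_lit 491558) (nat_lit 10) .nil))) .nil)) 
(.lf (nat_lit 207208) (.g (nat_lit 1481) (.e (nat_lit 81927) (nat_lit 11) (.e (nat_lit 426344) (nat_lit 14) (.e (nat_lit 491558) (nat_lit 10) (.e (nat_lit 344090) (nat_lit 18) (.e (nat_lit 7124) (nat_lit 382) (.e (nat_lit 7936) (nat_lit 90) .nil)))))) (.g (nat_lit 4) .nil .nil))))) (.nd (nat_lit 5) (.nd (nat_lit 6) 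
(.lf (nat_lit 207128) (.g (nat_lit 3711) (.e (nat_lit 81927) (nat_lit 11) (.e (nat_lit 426343) (nat_lit 14) (.e (nat_lit 491546) (nat_lit 9) (.e (nat_lit 335997) (nat_lit 1) (.e (nat_lit 57655) (nat_lit 152) (.e (nat_lit 1216) (nat_lit 90) .nil)))))) (.g (nat_lit 6) .nil .nil))) 
(.lf (nat_lit 207192) (.g (nat_lit 2212) (.e (nat_lit 81927) (nat_lit 11) (.e (nat_lit 426343) (nat_lit 14) (.e (nat_lit 491560) (nat_lit 10) (.e (nat_lit 344097) (nat_lit 18) (.e (nat_lit 7160) (nat_lit 382) .nil))))) .nil))) (.nd (nat_lit 6) 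
(.lf (nat_lit 207160) (.g (nat_lit 3100) (.e (nat_lit 81927) (nat_lit 11) (.e (nat_lit 426343) (nat_lit 14) (.e (nat_lit 491558) (nat_lit 10) (.e (nat_lit 344096) (nat_lit 18) (.e (nat_lit 7122) (nat_lit 382) (.e (nat_lit 7936) (nat_lit 90) .nil)))))) (.g (nat_lit 5) .nil .nil))) 
(.lf (nat_lit 207224) (.g (nat_lit 1816) (.e (nat_lit 81927) (nat_lit 11) (.e (nat_lit 426344) (nat_lit 14) (.e (nat_lit 491560) (nat_lit 10) (.e (nat_lit 344089) (nat_lit 18) .nil)))) .nil)))))) (.nd (nat_lit 3) (.nd (nat_lit 4) (.nd (nat_lit 5) (.nd (nat_lit 6) 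
(.lf (nat_lit 207108) (.g (nat_lit 1726) (.e (nat_lit 81927) (nat_lit 11) (.e (nat_lit 426342) (nat_lit 14) (.e (nat_lit 491560) (nat_lit 10) (.e (nat_lit 344094) (nat_lit 18) (.e (nat_lit 7119) (nat_lit 382) (.e (nat_lit 7936) (nat_lit 90) .nil)))))) (.g (nat_lit 4) .nil .nil))) 
(.lf (nat_lit 207172) (.g (nat_lit 2233) (.e (nat_lit 81927) (nat_lit 11) (.e (nat_lit 426343) (nat_lit 14) (.e (nat_lit 491560) (nat_lit 10) (.e (nat_lit 344088) (nat_lit 18) (.e (nat_lit 7236) (nat_lit 382) .nil))))) .nil))) (.nd (nat_lit 6) 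
(.lf (nat_lit 207140) (.g (nat_lit 2959) (.e (nat_lit 81927) (nat_lit 11) (.e (nat_lit 426343) (nat_lit 14) (.e (nat_lit 491556) (nat_lit 9) (.e (nat_lit 335872) (nat_lit 0) (.e (nat_lit 7936) (nat_lit 149) (.e (nat_lit 769792) (nat_lit 10) .nil)))))) (.g (nat_lit 4) .nil .nil))) 
(.lf (nat_lit 207204) (.g (nat_lit 1334) (.e (nat_lit 81927) (nat_lit 11) (.e (nat_lit 426344) (nat_lit 14) (.e (nat_lit 491556) (nat_lit 9) (.e (nat_lit 335872) (nat_lit 0) .nil)))) .nil)))) (.nd (nat_lit 5) (.nd (nat_lit 6) 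
(.lf (nat_lit 207124) (.g (nat_lit 1468) (.e (nat_lit 81927) (nat_lit 11) (.e (nat_lit 426343) (nat_lit 14) (.e (nat_lit 491546) (nat_lit 9) (.e (nat_lit 335997) (nat_lit 1) .nil)))) .nil)) 
(.lf (nat_lit 207188) (.g (nat_lit 2651) (.e (nat_lit 81927) (nat_lit 11) (.e (nat_lit 426343) (nat_lit 14) (.e (nat_lit 491560) (nat_lit 10) (.e (nat_lit 344096) (nat_lit 18) (.e (nat_lit 7122) (nat_lit 382) (.e (nat_lit 7936) (nat_lit 90) .nil)))))) (.g (nat_lit 4) .nil .nil)))) (.nd (nat_lit 6) 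
(.lf (nat_lit 207156) (.g (nat_lit 2145) (.e (nat_lit 81927) (nat_lit 11) (.e (nat_lit 426343) (nat_lit 14) (.e (nat_lit 491558) (nat_lit 10) (.e (nat_lit 344095) (nat_lit 18) (.e (nat_lit 7119) (nat_lit 382) (.e (nat_lit 7936) (nat_lit 90) .nil)))))) (.g (nat_lit 5) .nil .nil))) 
(.lf (nat_lit 207220) (.g (nat_lit 356) (.e (nat_lit 81927) (nat_lit 11) (.e (nat_lit 426344) (nat_lit 14) (.e (nat_lit 491560) (nat_lit 10) .nil))) .nil))))) (.nd (nat_lit 4) (.nd (nat_lit 5) (.nd (nat_lit 6) 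
(.lf (nat_lit 207116) (.g (nat_lit 1942) (.e (nat_lit 81927) (nat_lit 11) (.e (nat_lit 426342) (nat_lit 14) (.e (nat_lit 491560) (nat_lit 10) (.e (nat_lit 344097) (nat_lit 18) (.e (nat_lit 7146) (nat_lit 382) .nil))))) .nil)) 
(.lf (nat_lit 207180) (.g (nat_lit 2248) (.e (nat_lit 81927) (nat_lit 11) (.e (nat_lit 426343) (nat_lit 14) (.e (nat_lit 491560) (nat_lit 10) (.e (nat_lit 344091) (nat_lit 18) (.e (nat_lit 7124) (nat_lit 382) (.e (nat_lit 7936) (nat_lit 90) .nil)))))) (.g (nat_lit 4) .nil .nil)))) (.nd (nat_lit 6) 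
(.lf (nat_lit 207148) (.g (nat_lit 2027) (.e (nat_lit 81927) (nat_lit 11) (.e (nat_lit 426343) (nat_lit 14) (.e (nat_lit 491558) (nat_lit 10) (.e (nat_lit 344090) (nat_lit 18) (.e (nat_lit 7124) (nat_lit 382) (.e (nat_lit 7936) (nat_lit 90) .nil)))))) (.g (nat_lit 4) .nil .nil))) 
(.lf (nat_lit 207212) (.g (nat_lit 2065) (.e (nat_lit 81927) (nat_lit 11) (.e (nat_lit 426344) (nat_lit 14) (.e (nat_lit 491558) (nat_lit 10) (.e (nat_lit 344091) (nat_lit 18) (.e (nat_lit 7124) (nat_lit 382) (.e (nat_lit 7936) (nat_lit 90) .nil)))))) (.g (nat_lit 5) .nil .nil))))) (.nd (nat_lit 5) (.nd (nat_lit 6) 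
(.lf (nat_lit 207132) (.g (nat_lit 2474) (.e (nat_lit 81927) (nat_lit 11) (.e (nat_lit 426343) (nat_lit 14) (.e (nat_lit 491546) (nat_lit 9) (.e (nat_lit 335997) (nat_lit 1) (.e (nat_lit 57666) (nat_lit 152) (.e (nat_lit 7936) (nat_lit 90) .nil)))))) (.g (nat_lit 4) .nil .nil))) 
(.lf (nat_lit 207196) (.g (nat_lit 2069) (.e (nat_lit 81927) (nat_lit 11) (.e (nat_lit 426343) (nat_lit 14) (.e (nat_lit 491560) (nat_lit 10) (.e (nat_lit 344101) (nat_lit 18) .nil)))) .nil))) (.nd (nat_lit 6) 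
(.lf (nat_lit 207164) (.g (nat_lit 2273) (.e (nat_lit 81927) (nat_lit 11) (.e (nat_lit 426343) (nat_lit 14) (.e (nat_lit 491558) (nat_lit 10) (.e (nat_lit 344174) (nat_lit 42) (.e (nat_lit 769792) (nat_lit 10) .nil))))) (.g (nat_lit 4) .nil .nil))) 
(.lf (nat_lit 207228) (.g (nat_lit 2073) (.e (nat_lit 81927) (nat_lit 11) (.e (nat_lit 426344) (nat_lit 14) (.e (nat_lit 491560) (nat_lit 10) (.e (nat_lit 344090) (nat_lit 18) (.e (nat_lit 7124) (nat_lit 382) (.e (nat_lit 7936) (nat_lit 90) .nil)))))) (.g (nat_lit 5) .nil .nil)))))))) (.nd (nat_lit 2) (.nd (nat_lit 3) (.nd (nat_lit 4) (.nd (nat_lit 5) (.nd (nat_lit 6) 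
(.lf (nat_lit 207106) (.g (nat_lit 1641) (.e (nat_lit 81927) (nat_lit 11) (.e (nat_lit 426342) (nat_lit 14) (.e (nat_lit 491560) (nat_lit 10) (.e (nat_lit 344091) (nat_lit 18) (.e (nat_lit 7124) (nat_lit 382) (.e (nat_lit 7936) (nat_lit 90) .nil)))))) (.g (nat_lit 4) .nil .nil))) 
(.lf (nat_lit 207170) (.g (nat_lit 2235) (.e (nat_lit 81927) (nat_lit 11) (.e (nat_lit 426343) (nat_lit 14) (.e (nat_lit 491560) (nat_lit 10) (.e (nat_lit 344088) (nat_lit 18) (.e (nat_lit 7122) (nat_lit 382) .nil))))) .nil))) (.nd (nat_lit 6) 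
(.lf (nat_lit 207138) (.g (nat_lit 1906) (.e (nat_lit 81927) (nat_lit 11) (.e (nat_lit 426343) (nat_lit 14) (.e (nat_lit 491556) (nat_lit 9) (.e (nat_lit 335872) (nat_lit 0) .nil)))) .nil)) 
(.lf (nat_lit 207202) (.g (nat_lit 1236) (.e (nat_lit 81927) (nat_lit 11) (.e (nat_lit 426344) (nat_lit 14) (.e (nat_lit 491546) (nat_lit 9) (.e (nat_lit 335997) (nat_lit 1) .nil)))) .nil)))) (.nd (nat_lit 5) (.nd (nat_lit 6) 
(.lf (nat_lit 207122) (.g (nat_lit 452) (.e (nat_lit 81927) (nat_lit 11) (.e (nat_lit 426343) (nat_lit 14) (.e (nat_lit 491546) (nat_lit 9) .nil))) .nil)) 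
(.lf (nat_lit 207186) (.g (nat_lit 2264) (.e (nat_lit 81927) (nat_lit 11) (.e (nat_lit 426343) (nat_lit 14) (.e (nat_lit 491560) (nat_lit 10) (.e (nat_lit 344095) (nat_lit 18) (.e (nat_lit 7125) (nat_lit 382) .nil))))) .nil))) (.nd (nat_lit 6) 
(.lf (nat_lit 207154) (.g (nat_lit 2003) (.e (nat_lit 81927) (nat_lit 11) (.e (nat_lit 426343) (nat_lit 14) (.e (nat_lit 491558) (nat_lit 10) (.e (nat_lit 344093) (nat_lit 18) (.e (nat_lit 7168) (nat_lit 382) .nil))))) .nil)) 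
(.lf (nat_lit 207218) (.g (nat_lit 2136) (.e (nat_lit 81927) (nat_lit 11) (.e (nat_lit 426344) (nat_lit 14) (.e (nat_lit 491558) (nat_lit 10) (.e (nat_lit 344096) (nat_lit 18) (.e (nat_lit 7124) (nat_lit 382) (.e (nat_lit 7936) (nat_lit 90) .nil)))))) (.g (nat_lit 5) .nil .nil)))))) (.nd (nat_lit 4) (.nd (nat_lit 5) (.nd (nat_lit 6) 
(.lf (nat_lit 207114) (.g (nat_lit 2066) (.e (nat_lit 81927) (nat_lit 11) (.e (nat_lit 426342) (nat_lit 14) (.e (nat_lit 491560) (nat_lit 10) (.e (nat_lit 344096) (nat_lit 18) (.e (nat_lit 7122) (nat_lit 382) (.e (nat_lit 7936) (nat_lit 90) .nil)))))) (.g (nat_lit 4) .nil .nil))) 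
(.lf (nat_lit 207178) (.g (nat_lit 2495) (.e (nat_lit 81927) (nat_lit 11) (.e (nat_lit 426343) (nat_lit 14) (.e (nat_lit 491560) (nat_lit 10) (.e (nat_lit 344091) (nat_lit 18) (.e (nat_lit 7119) (nat_lit 382) (.e (nat_lit 7936) (nat_lit 90) .nil)))))) (.g (nat_lit 5) .nil .nil)))) (.nd (nat_lit 6) 
(.lf (nat_lit 207146) (.g (nat_lit 2230) (.e (nat_lit 81927) (nat_lit 11) (.e (nat_lit 426343) (nat_lit 14) (.e (nat_lit 491558) (nat_lit 10) (.e (nat_lit 344088) (nat_lit 18) (.e (nat_lit 7219) (nat_lit 382) .nil))))) .nil)) 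
(.lf (nat_lit 207210) (.g (nat_lit 3085) (.e (nat_lit 81927) (nat_lit 11) (.e (nat_lit 426344) (nat_lit 14) (.e (nat_lit 491558) (nat_lit 10) (.e (nat_lit 344091) (nat_lit 18) (.e (nat_lit 7122) (nat_lit 382) (.e (nat_lit 1222) (nat_lit 90) .nil)))))) (.g (nat_lit 6) .nil .nil))))) (.nd (nat_lit 5) (.nd (nat_lit 6) 
(.lf (nat_lit 207130) (.g (nat_lit 2658) (.e (nat_lit 81927) (nat_lit 11) (.e (nat_lit 426343) (nat_lit 14) (.e (nat_lit 491546) (nat_lit 9) (.e (nat_lit 335997) (nat_lit 1) (.e (nat_lit 57664) (nat_lit 152) (.e (nat_lit 7936) (nat_lit 90) .nil)))))) (.g (nat_lit 4) .nil .nil))) 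
(.lf (nat_lit 207194) (.g (nat_lit 1545) (.e (nat_lit 81927) (nat_lit 11) (.e (nat_lit 426343) (nat_lit 14) (.e (nat_lit 491560) (nat_lit 10) (.e (nat_lit 344099) (nat_lit 18) .nil)))) .nil))) (.nd (nat_lit 6) 
(.lf (nat_lit 207162) (.g (nat_lit 1964) (.e (nat_lit 81927) (nat_lit 11) (.e (nat_lit 426343) (nat_lit 14) (.e (nat_lit 491558) (nat_lit 10) (.e (nat_lit 344097) (nat_lit 18) (.e (nat_lit 7146) (nat_lit 382) .nil))))) .nil)) 
(.lf (nat_lit 207226) (.g (nat_lit 2187) (.e (nat_lit 81927) (nat_lit 11) (.e (nat_lit 426344) (nat_lit 14) (.e (nat_lit 491560) (nat_lit 10) (.e (nat_lit 344090) (nat_lit 18) (.e (nat_lit 7119) (nat_lit 382) (.e (nat_lit 7936) (nat_lit 90) .nil)))))) (.g (nat_lit 5) .nil .nil))))))) (.nd (nat_lit 3) (.nd (nat_lit 4) (.nd (nat_lit 5) (.nd (nat_lit 6) 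
(.lf (nat_lit 207110) (.g (nat_lit 1536) (.e (nat_lit 81927) (nat_lit 11) (.e (nat_lit 426342) (nat_lit 14) (.e (nat_lit 491560) (nat_lit 10) (.e (nat_lit 344094) (nat_lit 18) (.e (nat_lit 7124) (nat_lit 382) (.e (nat_lit 7936) (nat_lit 90) .nil)))))) (.g (nat_lit 4) .nil .nil))) 
(.lf (nat_lit 207174) (.g (nat_lit 2629) (.e (nat_lit 81927) (nat_lit 11) (.e (nat_lit 426343) (nat_lit 14) (.e (nat_lit 491560) (nat_lit 10) (.e (nat_lit 344090) (nat_lit 18) (.e (nat_lit 7119) (nat_lit 382) (.e (nat_lit 7936) (nat_lit 90) .nil)))))) (.g (nat_lit 5) .nil .nil)))) (.nd (nat_lit 6) 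
(.lf (nat_lit 207142) (.g (nat_lit 1898) (.e (nat_lit 81927) (nat_lit 11) (.e (nat_lit 426343) (nat_lit 14) (.e (nat_lit 491556) (nat_lit 9) (.e (nat_lit 335998) (nat_lit 1) .nil)))) .nil)) 
(.lf (nat_lit 207206) (.g (nat_lit 1443) (.e (nat_lit 81927) (nat_lit 11) (.e (nat_lit 426344) (nat_lit 14) (.e (nat_lit 491558) (nat_lit 10) (.e (nat_lit 344088) (nat_lit 18) .nil)))) .nil)))) (.nd (nat_lit 5) (.nd (nat_lit 6) 
(.lf (nat_lit 207126) (.g (nat_lit 2947) (.e (nat_lit 81927) (nat_lit 11) (.e (nat_lit 426343) (nat_lit 14) (.e (nat_lit 491546) (nat_lit 9) (.e (nat_lit 335997) (nat_lit 1) (.e (nat_lit 57653) (nat_lit 152) (.e (nat_lit 1216) (nat_lit 90) .nil)))))) (.g (nat_lit 4) .nil .nil))) 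
(.lf (nat_lit 207190) (.g (nat_lit 2229) (.e (nat_lit 81927) (nat_lit 11) (.e (nat_lit 426343) (nat_lit 14) (.e (nat_lit 491560) (nat_lit 10) (.e (nat_lit 344097) (nat_lit 18) (.e (nat_lit 7145) (nat_lit 382) (.e (nat_lit 1216) (nat_lit 90) .nil)))))) (.g (nat_lit 4) .nil .nil)))) (.nd (nat_lit 6) 
(.lf (nat_lit 207158) (.g (nat_lit 2570) (.e (nat_lit 81927) (nat_lit 11) (.e (nat_lit 426343) (nat_lit 14) (.e (nat_lit 491558) (nat_lit 10) (.e (nat_lit 344096) (nat_lit 18) (.e (nat_lit 7119) (nat_lit 382) (.e (nat_lit 7936) (nat_lit 90) .nil)))))) (.g (nat_lit 5) .nil .nil))) 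
(.lf (nat_lit 207222) (.g (nat_lit 1669) (.e (nat_lit 81927) (nat_lit 11) (.e (nat_lit 426344) (nat_lit 14) (.e (nat_lit 491560) (nat_lit 10) (.e (nat_lit 344088) (nat_lit 18) .nil)))) .nil))))) (.nd (nat_lit 4) (.nd (nat_lit 5) (.nd (nat_lit 6) 
(.lf (nat_lit 207118) (.g (nat_lit 2083) (.e (nat_lit 81927) (nat_lit 11) (.e (nat_lit 426342) (nat_lit 14) (.e (nat_lit 491560) (nat_lit 10) (.e (nat_lit 344097) (nat_lit 18) (.e (nat_lit 7160) (nat_lit 382) (.e (nat_lit 1215) (nat_lit 90) .nil)))))) (.g (nat_lit 4) .nil .nil))) 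
(.lf (nat_lit 207182) (.g (nat_lit 3261) (.e (nat_lit 81927) (nat_lit 11) (.e (nat_lit 426343) (nat_lit 14) (.e (nat_lit 491560) (nat_lit 10) (.e (nat_lit 344094) (nat_lit 18) (.e (nat_lit 7122) (nat_lit 382) (.e (nat_lit 1222) (nat_lit 90) .nil)))))) (.g (nat_lit 6) .nil .nil)))) (.nd (nat_lit 6) 
(.lf (nat_lit 207150) (.g (nat_lit 3601) (.e (nat_lit 81927) (nat_lit 11) (.e (nat_lit 426343) (nat_lit 14) (.e (nat_lit 491558) (nat_lit 10) (.e (nat_lit 344091) (nat_lit 18) (.e (nat_lit 7122) (nat_lit 382) (.e (nat_lit 1222) (nat_lit 90) .nil)))))) (.g (nat_lit 6) .nil .nil))) 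
(.lf (nat_lit 207214) (.g (nat_lit 1610) (.e (nat_lit 81927) (nat_lit 11) (.e (nat_lit 426344) (nat_lit 14) (.e (nat_lit 491558) (nat_lit 10) (.e (nat_lit 344095) (nat_lit 18) (.e (nat_lit 7119) (nat_lit 382) (.e (nat_lit 7936) (nat_lit 90) .nil)))))) (.g (nat_lit 4) .nil .nil))))) (.nd (nat_lit 5) (.nd (nat_lit 6) 
(.lf (nat_lit 207134) (.g (nat_lit 1530) (.e (nat_lit 81927) (nat_lit 11) (.e (nat_lit 426343) (nat_lit 14) (.e (nat_lit 491551) (nat_lit 9) (.e (nat_lit 335928) (nat_lit 0) (.e (nat_lit 2281) (nat_lit 150) .nil))))) .nil)) 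
(.lf (nat_lit 207198) (.g (nat_lit 2382) (.e (nat_lit 81927) (nat_lit 11) (.e (nat_lit 426343) (nat_lit 14) (.e (nat_lit 491560) (nat_lit 10) (.e (nat_lit 344174) (nat_lit 42) (.e (nat_lit 769792) (nat_lit 10) .nil))))) (.g (nat_lit 4) .nil .nil)))) (.nd (nat_lit 6) 
(.lf (nat_lit 207166) (.g (nat_lit 2497) (.e (nat_lit 81927) (nat_lit 11) (.e (nat_lit 426343) (nat_lit 14) (.e (nat_lit 491558) (nat_lit 10) (.e (nat_lit 344176) (nat_lit 43) (.e (nat_lit 770074) (nat_lit 10) .nil))))) (.g (nat_lit 4) .nil .nil))) 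
(.lf (nat_lit 207230) (.g (nat_lit 1984) (.e (nat_lit 81927) (nat_lit 11) (.e (nat_lit 426344) (nat_lit 14) (.e (nat_lit 491560) (nat_lit 10) (.e (nat_lit 344091) (nat_lit 18) (.e (nat_lit 7119) (nat_lit 382) .nil))))) .nil)))))))) (.nd (nat_lit 1) (.nd (nat_lit 2) (.nd (nat_lit 3) (.nd (nat_lit 4) (.nd (nat_lit 5) (.nd (nat_lit 6) 
(.lf (nat_lit 207105) (.g (nat_lit 1874) (.e (nat_lit 81927) (nat_lit 11) (.e (nat_lit 426342) (nat_lit 14) (.e (nat_lit 491560) (nat_lit 10) (.e (nat_lit 344091) (nat_lit 18) (.e (nat_lit 7119) (nat_lit 382) (.e (nat_lit 7936) (nat_lit 90) .nil)))))) (.g (nat_lit 4) .nil .nil))) 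
(.lf (nat_lit 207169) (.g (nat_lit 1783) (.e (nat_lit 81927) (nat_lit 11) (.e (nat_lit 426343) (nat_lit 14) (.e (nat_lit 491560) (nat_lit 10) (.e (nat_lit 344088) (nat_lit 18) .nil)))) .nil))) (.nd (nat_lit 6) 
(.lf (nat_lit 207137) (.g (nat_lit 653) (.e (nat_lit 81927) (nat_lit 11) (.e (nat_lit 426343) (nat_lit 14) (.e (nat_lit 491555) (nat_lit 9) .nil))) .nil)) 
(.lf (nat_lit 207201) (.g (nat_lit 1695) (.e (nat_lit 81927) (nat_lit 11) (.e (nat_lit 426343) (nat_lit 14) (.e (nat_lit 491560) (nat_lit 10) (.e (nat_lit 352000) (nat_lit 43) .nil)))) .nil)))) (.nd (nat_lit 5) (.nd (nat_lit 6) 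
(.lf (nat_lit 207121) (.g (nat_lit 3048) (.e (nat_lit 81927) (nat_lit 11) (.e (nat_lit 426342) (nat_lit 14) (.e (nat_lit 491560) (nat_lit 10) (.e (nat_lit 344177) (nat_lit 43) (.e (nat_lit 770074) (nat_lit 10) .nil))))) (.g (nat_lit 0) .nil .nil))) 
(.lf (nat_lit 207185) (.g (nat_lit 3567) (.e (nat_lit 81927) (nat_lit 11) (.e (nat_lit 426343) (nat_lit 14) (.e (nat_lit 491560) (nat_lit 10) (.e (nat_lit 344094) (nat_lit 18) (.e (nat_lit 7125) (nat_lit 382) (.e (nat_lit 1222) (nat_lit 90) .nil)))))) (.g (nat_lit 0) .nil .nil)))) (.nd (nat_lit 6) 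
(.lf (nat_lit 207153) (.g (nat_lit 1884) (.e (nat_lit 81927) (nat_lit 11) (.e (nat_lit 426343) (nat_lit 14) (.e (nat_lit 491558) (nat_lit 10) (.e (nat_lit 344093) (nat_lit 18) .nil)))) .nil)) 
(.lf (nat_lit 207217) (.g (nat_lit 3454) (.e (nat_lit 81927) (nat_lit 11) (.e (nat_lit 426344) (nat_lit 14) (.e (nat_lit 491558) (nat_lit 10) (.e (nat_lit 344096) (nat_lit 18) (.e (nat_lit 7122) (nat_lit 382) (.e (nat_lit 1222) (nat_lit 90) .nil)))))) (.g (nat_lit 0) .nil .nil)))))) (.nd (nat_lit 4) (.nd (nat_lit 5) (.nd (nat_lit 6) 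
(.lf (nat_lit 207113) (.g (nat_lit 1854) (.e (nat_lit 81927) (nat_lit 11) (.e (nat_lit 426342) (nat_lit 14) (.e (nat_lit 491560) (nat_lit 10) (.e (nat_lit 344096) (nat_lit 18) (.e (nat_lit 7119) (nat_lit 382) .nil))))) .nil)) 
(.lf (nat_lit 207177) (.g (nat_lit 1230) (.e (nat_lit 81927) (nat_lit 11) (.e (nat_lit 426343) (nat_lit 14) (.e (nat_lit 491560) (nat_lit 10) (.e (nat_lit 344091) (nat_lit 18) .nil)))) .nil))) (.nd (nat_lit 6) 
(.lf (nat_lit 207145) (.g (nat_lit 1861) (.e (nat_lit 81927) (nat_lit 11) (.e (nat_lit 426343) (nat_lit 14) (.e (nat_lit 491558) (nat_lit 10) (.e (nat_lit 344088) (nat_lit 18) .nil)))) .nil)) 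
(.lf (nat_lit 207209) (.g (nat_lit 2319) (.e (nat_lit 81927) (nat_lit 11) (.e (nat_lit 426344) (nat_lit 14) (.e (nat_lit 491558) (nat_lit 10) (.e (nat_lit 344091) (nat_lit 18) (.e (nat_lit 7119) (nat_lit 382) (.e (nat_lit 7936) (nat_lit 90) .nil)))))) (.g (nat_lit 5) .nil .nil))))) (.nd (nat_lit 5) (.nd (nat_lit 6) 
(.lf (nat_lit 207129) (.g (nat_lit 3045) (.e (nat_lit 81927) (nat_lit 11) (.e (nat_lit 426343) (nat_lit 14) (.e (nat_lit 491546) (nat_lit 9) (.e (nat_lit 335997) (nat_lit 1) (.e (nat_lit 57660) (nat_lit 152) (.e (nat_lit 7936) (nat_lit 90) .nil)))))) (.g (nat_lit 5) .nil .nil))) 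
(.lf (nat_lit 207193) (.g (nat_lit 3398) (.e (nat_lit 81927) (nat_lit 11) (.e (nat_lit 426343) (nat_lit 14) (.e (nat_lit 491560) (nat_lit 10) (.e (nat_lit 344097) (nat_lit 18) (.e (nat_lit 7160) (nat_lit 382) (.e (nat_lit 1215) (nat_lit 90) .nil)))))) (.g (nat_lit 6) .nil .nil)))) (.nd (nat_lit 6) 
(.lf (nat_lit 207161) (.g (nat_lit 2676) (.e (nat_lit 81927) (nat_lit 11) (.e (nat_lit 426343) (nat_lit 14) (.e (nat_lit 491558) (nat_lit 10) (.e (nat_lit 344096) (nat_lit 18) (.e (nat_lit 7124) (nat_lit 382) (.e (nat_lit 7936) (nat_lit 90) .nil)))))) (.g (nat_lit 5) .nil .nil))) 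
(.lf (nat_lit 207225) (.g (nat_lit 2032) (.e (nat_lit 81927) (nat_lit 11) (.e (nat_lit 426344) (nat_lit 14) (.e (nat_lit 491560) (nat_lit 10) (.e (nat_lit 344089) (nat_lit 18) (.e (nat_lit 7133) (nat_lit 382) .nil))))) .nil)))))) (.nd (nat_lit 3) (.nd (nat_lit 4) (.nd (nat_lit 5) (.nd (nat_lit 6) 
(.lf (nat_lit 207109) (.g (nat_lit 1776) (.e (nat_lit 81927) (nat_lit 11) (.e (nat_lit 426342) (nat_lit 14) (.e (nat_lit 491560) (nat_lit 10) (.e (nat_lit 344094) (nat_lit 18) (.e (nat_lit 7122) (nat_lit 382) (.e (nat_lit 7936) (nat_lit 90) .nil)))))) (.g (nat_lit 4) .nil .nil))) 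
(.lf (nat_lit 207173) (.g (nat_lit 1944) (.e (nat_lit 81927) (nat_lit 11) (.e (nat_lit 426343) (nat_lit 14) (.e (nat_lit 491560) (nat_lit 10) (.e (nat_lit 344089) (nat_lit 18) .nil)))) .nil))) (.nd (nat_lit 6) 
(.lf (nat_lit 207141) (.g (nat_lit 1909) (.e (nat_lit 81927) (nat_lit 11) (.e (nat_lit 426343) (nat_lit 14) (.e (nat_lit 491556) (nat_lit 9) (.e (nat_lit 335874) (nat_lit 0) .nil)))) .nil)) 
(.lf (nat_lit 207205) (.g (nat_lit 408) (.e (nat_lit 81927) (nat_lit 11) (.e (nat_lit 426344) (nat_lit 14) (.e (nat_lit 491558) (nat_lit 10) .nil))) .nil)))) (.nd (nat_lit 5) (.nd (nat_lit 6) 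
(.lf (nat_lit 207125) (.g (nat_lit 2228) (.e (nat_lit 81927) (nat_lit 11) (.e (nat_lit 426343) (nat_lit 14) (.e (nat_lit 491546) (nat_lit 9) (.e (nat_lit 335997) (nat_lit 1) (.e (nat_lit 57651) (nat_lit 152) .nil))))) .nil)) 
(.lf (nat_lit 207189) (.g (nat_lit 2314) (.e (nat_lit 81927) (nat_lit 11) (.e (nat_lit 426343) (nat_lit 14) (.e (nat_lit 491560) (nat_lit 10) (.e (nat_lit 344096) (nat_lit 18) (.e (nat_lit 7124) (nat_lit 382) (.e (nat_lit 7936) (nat_lit 90) .nil)))))) (.g (nat_lit 4) .nil .nil)))) (.nd (nat_lit 6) 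
(.lf (nat_lit 207157) (.g (nat_lit 2541) (.e (nat_lit 81927) (nat_lit 11) (.e (nat_lit 426343) (nat_lit 14) (.e (nat_lit 491558) (nat_lit 10) (.e (nat_lit 344095) (nat_lit 18) (.e (nat_lit 7122) (nat_lit 382) (.e (nat_lit 7936) (nat_lit 90) .nil)))))) (.g (nat_lit 5) .nil .nil))) 
(.lf (nat_lit 207221) (.g (nat_lit 1578) (.e (nat_lit 81927) (nat_lit 11) (.e (nat_lit 426344) (nat_lit 14) (.e (nat_lit 491560) (nat_lit 10) (.e (nat_lit 344087) (nat_lit 18) .nil)))) .nil))))) (.nd (nat_lit 4) (.nd (nat_lit 5) (.nd (nat_lit 6) 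
(.lf (nat_lit 207117) (.g (nat_lit 2511) (.e (nat_lit 81927) (nat_lit 11) (.e (nat_lit 426342) (nat_lit 14) (.e (nat_lit 491560) (nat_lit 10) (.e (nat_lit 344097) (nat_lit 18) (.e (nat_lit 7147) (nat_lit 382) (.e (nat_lit 1216) (nat_lit 90) .nil)))))) (.g (nat_lit 6) .nil .nil))) 
(.lf (nat_lit 207181) (.g (nat_lit 2327) (.e (nat_lit 81927) (nat_lit 11) (.e (nat_lit 426343) (nat_lit 14) (.e (nat_lit 491560) (nat_lit 10) (.e (nat_lit 344094) (nat_lit 18) (.e (nat_lit 7119) (nat_lit 382) (.e (nat_lit 7936) (nat_lit 90) .nil)))))) (.g (nat_lit 5) .nil .nil)))) (.nd (nat_lit 6) 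
(.lf (nat_lit 207149) (.g (nat_lit 2874) (.e (nat_lit 81927) (nat_lit 11) (.e (nat_lit 426343) (nat_lit 14) (.e (nat_lit 491558) (nat_lit 10) (.e (nat_lit 344091) (nat_lit 18) (.e (nat_lit 7119) (nat_lit 382) (.e (nat_lit 7936) (nat_lit 90) .nil)))))) (.g (nat_lit 5) .nil .nil))) 
(.lf (nat_lit 207213) (.g (nat_lit 1449) (.e (nat_lit 81927) (nat_lit 11) (.e (nat_lit 426344) (nat_lit 14) (.e (nat_lit 491558) (nat_lit 10) (.e (nat_lit 344093) (nat_lit 18) .nil)))) .nil)))) (.nd (nat_lit 5) (.nd (nat_lit 6) 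
(.lf (nat_lit 207133) (.g (nat_lit 1642) (.e (nat_lit 81927) (nat_lit 11) (.e (nat_lit 426343) (nat_lit 14) (.e (nat_lit 491546) (nat_lit 9) (.e (nat_lit 336000) (nat_lit 1) .nil)))) .nil)) 
(.lf (nat_lit 207197) (.g (nat_lit 1695) (.e (nat_lit 81927) (nat_lit 11) (.e (nat_lit 426343) (nat_lit 14) (.e (nat_lit 491560) (nat_lit 10) (.e (nat_lit 352000) (nat_lit 18) .nil)))) .nil))) (.nd (nat_lit 6) 
(.lf (nat_lit 207165) (.g (nat_lit 3251) (.e (nat_lit 81927) (nat_lit 11) (.e (nat_lit 426343) (nat_lit 14) (.e (nat_lit 491558) (nat_lit 10) (.e (nat_lit 344175) (nat_lit 43) (.e (nat_lit 770074) (nat_lit 10) .nil))))) (.g (nat_lit 5) .nil .nil))) 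
(.lf (nat_lit 207229) (.g (nat_lit 1397) (.e (nat_lit 81927) (nat_lit 11) (.e (nat_lit 426344) (nat_lit 14) (.e (nat_lit 491560) (nat_lit 10) (.e (nat_lit 344091) (nat_lit 18) .nil)))) .nil))))))) (.nd (nat_lit 2) (.nd (nat_lit 3) (.nd (nat_lit 4) (.nd (nat_lit 5) (.nd (nat_lit 6) 
(.lf (nat_lit 207107) (.g (nat_lit 2924) (.e (nat_lit 81927) (nat_lit 11) (.e (nat_lit 426342) (nat_lit 14) (.e (nat_lit 491560) (nat_lit 10) (.e (nat_lit 344091) (nat_lit 18) (.e (nat_lit 7125) (nat_lit 382) (.e (nat_lit 1222) (nat_lit 90) .nil)))))) (.g (nat_lit 6) .nil .nil))) 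
(.lf (nat_lit 207171) (.g (nat_lit 2235) (.e (nat_lit 81927) (nat_lit 11) (.e (nat_lit 426343) (nat_lit 14) (.e (nat_lit 491560) (nat_lit 10) (.e (nat_lit 344088) (nat_lit 18) (.e (nat_lit 7219) (nat_lit 382) .nil))))) .nil))) (.nd (nat_lit 6) 
(.lf (nat_lit 207139) (.g (nat_lit 2203) (.e (nat_lit 81927) (nat_lit 11) (.e (nat_lit 426343) (nat_lit 14) (.e (nat_lit 491556) (nat_lit 9) (.e (nat_lit 335872) (nat_lit 0) (.e (nat_lit 2271) (nat_lit 149) .nil))))) .nil)) 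
(.lf (nat_lit 207203) (.g (nat_lit 2003) (.e (nat_lit 81927) (nat_lit 11) (.e (nat_lit 426344) (nat_lit 14) (.e (nat_lit 491546) (nat_lit 9) (.e (nat_lit 335997) (nat_lit 1) (.e (nat_lit 57655) (nat_lit 152) .nil))))) .nil)))) (.nd (nat_lit 5) (.nd (nat_lit 6) 
(.lf (nat_lit 207123) (.g (nat_lit 1638) (.e (nat_lit 81927) (nat_lit 11) (.e (nat_lit 426343) (nat_lit 14) (.e (nat_lit 491546) (nat_lit 9) (.e (nat_lit 335900) (nat_lit 0) .nil)))) .nil)) 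
(.lf (nat_lit 207187) (.g (nat_lit 2063) (.e (nat_lit 81927) (nat_lit 11) (.e (nat_lit 426343) (nat_lit 14) (.e (nat_lit 491560) (nat_lit 10) (.e (nat_lit 344096) (nat_lit 18) (.e (nat_lit 7119) (nat_lit 382) (.e (nat_lit 7936) (nat_lit 90) .nil)))))) (.g (nat_lit 4) .nil .nil)))) (.nd (nat_lit 6) 
(.lf (nat_lit 207155) (.g (nat_lit 1859) (.e (nat_lit 81927) (nat_lit 11) (.e (nat_lit 426343) (nat_lit 14) (.e (nat_lit 491558) (nat_lit 10) (.e (nat_lit 344094) (nat_lit 18) .nil)))) .nil)) 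
(.lf (nat_lit 207219) (.g (nat_lit 1759) (.e (nat_lit 81927) (nat_lit 11) (.e (nat_lit 426344) (nat_lit 14) (.e (nat_lit 491558) (nat_lit 10) (.e (nat_lit 344174) (nat_lit 42) (.e (nat_lit 769792) (nat_lit 10) .nil))))) (.g (nat_lit 4) .nil .nil)))))) (.nd (nat_lit 4) (.nd (nat_lit 5) (.nd (nat_lit 6) 
(.lf (nat_lit 207115) (.g (nat_lit 1729) (.e (nat_lit 81927) (nat_lit 11) (.e (nat_lit 426342) (nat_lit 14) (.e (nat_lit 491560) (nat_lit 10) (.e (nat_lit 344096) (nat_lit 18) (.e (nat_lit 7124) (nat_lit 382) (.e (nat_lit 7936) (nat_lit 90) .nil)))))) (.g (nat_lit 4) .nil .nil))) 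
(.lf (nat_lit 207179) (.g (nat_lit 2340) (.e (nat_lit 81927) (nat_lit 11) (.e (nat_lit 426343) (nat_lit 14) (.e (nat_lit 491560) (nat_lit 10) (.e (nat_lit 344091) (nat_lit 18) (.e (nat_lit 7122) (nat_lit 382) (.e (nat_lit 7936) (nat_lit 90) .nil)))))) (.g (nat_lit 4) .nil .nil)))) (.nd (nat_lit 6) 
(.lf (nat_lit 207147) (.g (nat_lit 2162) (.e (nat_lit 81927) (nat_lit 11) (.e (nat_lit 426343) (nat_lit 14) (.e (nat_lit 491558) (nat_lit 10) (.e (nat_lit 344090) (nat_lit 18) (.e (nat_lit 7119) (nat_lit 382) (.e (nat_lit 7936) (nat_lit 90) .nil)))))) (.g (nat_lit 4) .nil .nil))) 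
(.lf (nat_lit 207211) (.g (nat_lit 2172) (.e (nat_lit 81927) (nat_lit 11) (.e (nat_lit 426344) (nat_lit 14) (.e (nat_lit 491558) (nat_lit 10) (.e (nat_lit 344091) (nat_lit 18) (.e (nat_lit 7122) (nat_lit 382) (.e (nat_lit 7936) (nat_lit 90) .nil)))))) (.g (nat_lit 4) .nil .nil))))) (.nd (nat_lit 5) (.nd (nat_lit 6) 
(.lf (nat_lit 207131) (.g (nat_lit 3234) (.e (nat_lit 81927) (nat_lit 11) (.e (nat_lit 426343) (nat_lit 14) (.e (nat_lit 491546) (nat_lit 9) (.e (nat_lit 335997) (nat_lit 1) (.e (nat_lit 57665) (nat_lit 152) (.e (nat_lit 7936) (nat_lit 90) .nil)))))) (.g (nat_lit 5) .nil .nil))) 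
(.lf (nat_lit 207195) (.g (nat_lit 2524) (.e (nat_lit 81927) (nat_lit 11) (.e (nat_lit 426343) (nat_lit 14) (.e (nat_lit 491560) (nat_lit 10) (.e (nat_lit 344099) (nat_lit 18) (.e (nat_lit 7147) (nat_lit 382) (.e (nat_lit 1216) (nat_lit 90) .nil)))))) (.g (nat_lit 5) .nil .nil)))) (.nd (nat_lit 6) 
(.lf (nat_lit 207163) (.g (nat_lit 2419) (.e (nat_lit 81927) (nat_lit 11) (.e (nat_lit 426343) (nat_lit 14) (.e (nat_lit 491558) (nat_lit 10) (.e (nat_lit 344097) (nat_lit 18) (.e (nat_lit 7160) (nat_lit 382) (.e (nat_lit 1215) (nat_lit 90) .nil)))))) (.g (nat_lit 4) .nil .nil))) 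
(.lf (nat_lit 207227) (.g (nat_lit 1639) (.e (nat_lit 81927) (nat_lit 11) (.e (nat_lit 426344) (nat_lit 14) (.e (nat_lit 491560) (nat_lit 10) (.e (nat_lit 344090) (nat_lit 18) (.e (nat_lit 7122) (nat_lit 382) .nil))))) .nil)))))) (.nd (nat_lit 3) (.nd (nat_lit 4) (.nd (nat_lit 5) (.nd (nat_lit 6) 
(.lf (nat_lit 207111) (.g (nat_lit 2986) (.e (nat_lit 81927) (nat_lit 11) (.e (nat_lit 426342) (nat_lit 14) (.e (nat_lit 491560) (nat_lit 10) (.e (nat_lit 344094) (nat_lit 18) (.e (nat_lit 7125) (nat_lit 382) (.e (nat_lit 1222) (nat_lit 90) .nil)))))) (.g (nat_lit 6) .nil .nil))) 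
(.lf (nat_lit 207175) (.g (nat_lit 2075) (.e (nat_lit 81927) (nat_lit 11) (.e (nat_lit 426343) (nat_lit 14) (.e (nat_lit 491560) (nat_lit 10) (.e (nat_lit 344090) (nat_lit 18) (.e (nat_lit 7122) (nat_lit 382) (.e (nat_lit 7936) (nat_lit 90) .nil)))))) (.g (nat_lit 4) .nil .nil)))) (.nd (nat_lit 6) 
(.lf (nat_lit 207143) (.g (nat_lit 3140) (.e (nat_lit 81927) (nat_lit 11) (.e (nat_lit 426343) (nat_lit 14) (.e (nat_lit 491556) (nat_lit 9) (.e (nat_lit 335998) (nat_lit 1) (.e (nat_lit 57655) (nat_lit 152) (.e (nat_lit 1216) (nat_lit 90) .nil)))))) (.g (nat_lit 4) .nil .nil))) 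
(.lf (nat_lit 207207) (.g (nat_lit 1619) (.e (nat_lit 81927) (nat_lit 11) (.e (nat_lit 426344) (nat_lit 14) (.e (nat_lit 491558) (nat_lit 10) (.e (nat_lit 344090) (nat_lit 18) (.e (nat_lit 7119) (nat_lit 382) (.e (nat_lit 7936) (nat_lit 90) .nil)))))) (.g (nat_lit 4) .nil .nil))))) (.nd (nat_lit 5) (.nd (nat_lit 6) 
(.lf (nat_lit 207127) (.g (nat_lit 2725) (.e (nat_lit 81927) (nat_lit 11) (.e (nat_lit 426343) (nat_lit 14) (.e (nat_lit 491546) (nat_lit 9) (.e (nat_lit 335997) (nat_lit 1) (.e (nat_lit 57654) (nat_lit 152) (.e (nat_lit 1216) (nat_lit 90) .nil)))))) (.g (nat_lit 4) .nil .nil))) 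
(.lf (nat_lit 207191) (.g (nat_lit 2543) (.e (nat_lit 81927) (nat_lit 11) (.e (nat_lit 426343) (nat_lit 14) (.e (nat_lit 491560) (nat_lit 10) (.e (nat_lit 344097) (nat_lit 18) (.e (nat_lit 7146) (nat_lit 382) (.e (nat_lit 1216) (nat_lit 90) .nil)))))) (.g (nat_lit 4) .nil .nil)))) (.nd (nat_lit 6) 
(.lf (nat_lit 207159) (.g (nat_lit 3953) (.e (nat_lit 81927) (nat_lit 11) (.e (nat_lit 426343) (nat_lit 14) (.e (nat_lit 491558) (nat_lit 10) (.e (nat_lit 344096) (nat_lit 18) (.e (nat_lit 7122) (nat_lit 382) (.e (nat_lit 1222) (nat_lit 90) .nil)))))) (.g (nat_lit 0) .nil .nil))) 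
(.lf (nat_lit 207223) (.g (nat_lit 2094) (.e (nat_lit 81927) (nat_lit 11) (.e (nat_lit 426344) (nat_lit 14) (.e (nat_lit 491560) (nat_lit 10) (.e (nat_lit 344088) (nat_lit 18) (.e (nat_lit 7122) (nat_lit 382) .nil))))) .nil))))) (.nd (nat_lit 4) (.nd (nat_lit 5) (.nd (nat_lit 6) 
(.lf (nat_lit 207119) (.g (nat_lit 1707) (.e (nat_lit 81927) (nat_lit 11) (.e (nat_lit 426342) (nat_lit 14) (.e (nat_lit 491560) (nat_lit 10) (.e (nat_lit 344174) (nat_lit 42) (.e (nat_lit 769792) (nat_lit 10) .nil))))) (.g (nat_lit 4) .nil .nil))) 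
(.lf (nat_lit 207183) (.g (nat_lit 2377) (.e (nat_lit 81927) (nat_lit 11) (.e (nat_lit 426343) (nat_lit 14) (.e (nat_lit 491560) (nat_lit 10) (.e (nat_lit 344094) (nat_lit 18) (.e (nat_lit 7122) (nat_lit 382) (.e (nat_lit 7936) (nat_lit 90) .nil)))))) (.g (nat_lit 5) .nil .nil)))) (.nd (nat_lit 6) 
(.lf (nat_lit 207151) (.g (nat_lit 2728) (.e (nat_lit 81927) (nat_lit 11) (.e (nat_lit 426343) (nat_lit 14) (.e (nat_lit 491558) (nat_lit 10) (.e (nat_lit 344091) (nat_lit 18) (.e (nat_lit 7122) (nat_lit 382) (.e (nat_lit 7936) (nat_lit 90) .nil)))))) (.g (nat_lit 5) .nil .nil))) 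
(.lf (nat_lit 207215) (.g (nat_lit 2005) (.e (nat_lit 81927) (nat_lit 11) (.e (nat_lit 426344) (nat_lit 14) (.e (nat_lit 491558) (nat_lit 10) (.e (nat_lit 344095) (nat_lit 18) (.e (nat_lit 7122) (nat_lit 382) (.e (nat_lit 7936) (nat_lit 90) .nil)))))) (.g (nat_lit 5) .nil .nil))))) (.nd (nat_lit 5) (.nd (nat_lit 6) 
(.lf (nat_lit 207135) (.g (nat_lit 625) (.e (nat_lit 81927) (nat_lit 11) (.e (nat_lit 426343) (nat_lit 14) (.e (nat_lit 491552) (nat_lit 9) .nil))) .nil)) 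
(.lf (nat_lit 207199) (.g (nat_lit 2940) (.e (nat_lit 81927) (nat_lit 11) (.e (nat_lit 426343) (nat_lit 14) (.e (nat_lit 491560) (nat_lit 10) (.e (nat_lit 344175) (nat_lit 43) (.e (nat_lit 770074) (nat_lit 10) .nil))))) (.g (nat_lit 0) .nil .nil)))) (.nd (nat_lit 6) 
(.lf (nat_lit 207167) (.g (nat_lit 1947) (.e (nat_lit 81927) (nat_lit 11) (.e (nat_lit 426343) (nat_lit 14) (.e (nat_lit 491560) (nat_lit 10) (.e (nat_lit 344087) (nat_lit 18) .nil)))) .nil)) 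
(.lf (nat_lit 207231) (.g (nat_lit 2004) (.e (nat_lit 81927) (nat_lit 11) (.e (nat_lit 426344) (nat_lit 14) (.e (nat_lit 491560) (nat_lit 10) (.e (nat_lit 344091) (nat_lit 18) (.e (nat_lit 7122) (nat_lit 382) .nil))))) .nil)))))))))

noncomputable def tv2731 : DT := (.nd (nat_lit 0) (.nd (nat_lit 1) (.nd (nat_lit 2) (.nd (nat_lit 3) (.nd (nat_lit 4) (.nd (nat_lit 5) (.nd (nat_lit 6) 
(.lf (nat_lit 207232) (.g (nat_lit 1883) (.e (nat_lit 81927) (nat_lit 11) (.e (nat_lit 426344) (nat_lit 14) (.e (nat_lit 491560) (nat_lit 10) (.e (nat_lit 344091) (nat_lit 18) (.e (nat_lit 7124) (nat_lit 382) .nil))))) .nil)) 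
(.lf (nat_lit 207296) (.g (nat_lit 1714) (.e (nat_lit 89856) (nat_lit 11) (.e (nat_lit 426503) (nat_lit 27) (.e (nat_lit 335986) (nat_lit 1) (.e (nat_lit 57927) (nat_lit 282) (.e (nat_lit 163866) (nat_lit 2) .nil))))) .nil))) (.nd (nat_lit 6) 
(.lf (nat_lit 207264) (.g (nat_lit 1784) (.e (nat_lit 81927) (nat_lit 11) (.e (nat_lit 426500) (nat_lit 27) (.e (nat_lit 335986) (nat_lit 1) (.e (nat_lit 57930) (nat_lit 282) (.e (nat_lit 163869) (nat_lit 2) .nil))))) .nil)) 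
(.lf (nat_lit 207328) (.g (nat_lit 778) (.e (nat_lit 89856) (nat_lit 18) (.e (nat_lit 483331) (nat_lit 0) (.e (nat_lit 3632) (nat_lit 227) (.e (nat_lit 778246) (nat_lit 0) .nil)))) .nil)))) (.nd (nat_lit 5) (.nd (nat_lit 6) 
(.lf (nat_lit 207248) (.g (nat_lit 1876) (.e (nat_lit 81927) (nat_lit 11) (.e (nat_lit 426344) (nat_lit 14) (.e (nat_lit 491560) (nat_lit 10) (.e (nat_lit 344174) (nat_lit 42) (.e (nat_lit 769792) (nat_lit 10) .nil))))) (.g (nat_lit 4) .nil .nil))) 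
(.lf (nat_lit 207312) (.g (nat_lit 1082) (.e (nat_lit 89856) (nat_lit 11) (.e (nat_lit 426562) (nat_lit 33) (.e (nat_lit 385104) (nat_lit 50) (.e (nat_lit 786455) (nat_lit 17) .nil)))) .nil))) (.nd (nat_lit 6) 
(.lf (nat_lit 207280) (.g (nat_lit 1131) (.e (nat_lit 89856) (nat_lit 11) (.e (nat_lit 426171) (nat_lit 7) (.e (nat_lit 409646) (nat_lit 18) (.e (nat_lit 303115) (nat_lit 1) .nil)))) .nil)) 
(.lf (nat_lit 207344) (.g (nat_lit 1662) (.e (nat_lit 89856) (nat_lit 18) (.e (nat_lit 483364) (nat_lit 18) (.e (nat_lit 57927) (nat_lit 282) (.e (nat_lit 163869) (nat_lit 2) (.e (nat_lit 196673) (nat_lit 15) .nil))))) .nil))))) (.nd (nat_lit 4) (.nd (nat_lit 5) (.nd (nat_lit 6) 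
(.lf (nat_lit 207240) (.g (nat_lit 1931) (.e (nat_lit 81927) (nat_lit 11) (.e (nat_lit 426344) (nat_lit 14) (.e (nat_lit 491560) (nat_lit 10) (.e (nat_lit 344096) (nat_lit 18) (.e (nat_lit 7124) (nat_lit 382) .nil))))) .nil)) 
(.lf (nat_lit 207304) (.g (nat_lit 1844) (.e (nat_lit 89856) (nat_lit 11) (.e (nat_lit 426528) (nat_lit 27) (.e (nat_lit 335988) (nat_lit 1) (.e (nat_lit 57927) (nat_lit 282) (.e (nat_lit 163869) (nat_lit 2) .nil))))) .nil))) (.nd (nat_lit 6) 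
(.lf (nat_lit 207272) (.g (nat_lit 882) (.e (nat_lit 81927) (nat_lit 11) (.e (nat_lit 426523) (nat_lit 27) (.e (nat_lit 335988) (nat_lit 1) (.e (nat_lit 57927) (nat_lit 282) .nil)))) .nil)) 
(.lf (nat_lit 207336) (.g (nat_lit 1594) (.e (nat_lit 89856) (nat_lit 18) (.e (nat_lit 483363) (nat_lit 18) (.e (nat_lit 57926) (nat_lit 282) (.e (nat_lit 163865) (nat_lit 2) .nil)))) .nil)))) (.nd (nat_lit 5) (.nd (nat_lit 6) 
(.lf (nat_lit 207256) (.g (nat_lit 519) (.e (nat_lit 81927) (nat_lit 11) (.e (nat_lit 426408) (nat_lit 15) (.e (nat_lit 7936) (nat_lit 362) .nil))) .nil)) 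
(.lf (nat_lit 207320) (.g (nat_lit 611) (.e (nat_lit 89856) (nat_lit 16) (.e (nat_lit 466972) (nat_lit 21) (.e (nat_lit 164307) (nat_lit 226) (.e (nat_lit 7936) (nat_lit 87) .nil)))) .nil))) (.nd (nat_lit 6) 
(.lf (nat_lit 207288) (.g (nat_lit 181) (.e (nat_lit 89856) (nat_lit 11) (.e (nat_lit 426488) (nat_lit 27) (.e (nat_lit 336331) (nat_lit 19) (.e (nat_lit 220928) (nat_lit 0) .nil)))) .nil)) 
(.lf (nat_lit 207352) (.g (nat_lit 1472) (.e (nat_lit 89856) (nat_lit 18) (.e (nat_lit 483366) (nat_lit 18) (.e (nat_lit 57854) (nat_lit 252) (.e (nat_lit 57351) (nat_lit 0) (.e (nat_lit 1867) (nat_lit 125) .nil))))) .nil)))))) (.nd (nat_lit 3) (.nd (nat_lit 4) (.nd (nat_lit 5) (.nd (nat_lit 6) 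
(.lf (nat_lit 207236) (.g (nat_lit 3224) (.e (nat_lit 81927) (nat_lit 11) (.e (nat_lit 426344) (nat_lit 14) (.e (nat_lit 491560) (nat_lit 10) (.e (nat_lit 344094) (nat_lit 18) (.e (nat_lit 7125) (nat_lit 382) (.e (nat_lit 1222) (nat_lit 90) .nil)))))) (.g (nat_lit 0) .nil .nil))) 
(.lf (nat_lit 207300) (.g (nat_lit 2105) (.e (nat_lit 89856) (nat_lit 11) (.e (nat_lit 426503) (nat_lit 27) (.e (nat_lit 335988) (nat_lit 1) (.e (nat_lit 57926) (nat_lit 282) (.e (nat_lit 163871) (nat_lit 2) .nil))))) .nil))) (.nd (nat_lit 6) 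
(.lf (nat_lit 207268) (.g (nat_lit 900) (.e (nat_lit 81927) (nat_lit 11) (.e (nat_lit 426500) (nat_lit 27) (.e (nat_lit 335995) (nat_lit 1) (.e (nat_lit 57872) (nat_lit 264) (.e (nat_lit 1172) (nat_lit 87) (.e (nat_lit 57454) (nat_lit 21) (.e (nat_lit 507648) (nat_lit 20) .nil))))))) (.g (nat_lit 4) .nil .nil))) 
(.lf (nat_lit 207332) (.g (nat_lit 553) (.e (nat_lit 89856) (nat_lit 18) (.e (nat_lit 483333) (nat_lit 0) (.e (nat_lit 3683) (nat_lit 227) .nil))) .nil)))) (.nd (nat_lit 5) (.nd (nat_lit 6) 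
(.lf (nat_lit 207252) (.g (nat_lit 396) (.e (nat_lit 81927) (nat_lit 11) (.e (nat_lit 426408) (nat_lit 15) (.e (nat_lit 6216) (nat_lit 333) .nil))) .nil)) 
(.lf (nat_lit 207316) (.g (nat_lit 1260) (.e (nat_lit 89856) (nat_lit 16) (.e (nat_lit 466969) (nat_lit 21) (.e (nat_lit 164325) (nat_lit 230) (.e (nat_lit 163841) (nat_lit 0) .nil)))) .nil))) (.nd (nat_lit 6) 
(.lf (nat_lit 207284) (.g (nat_lit 1516) (.e (nat_lit 89856) (nat_lit 11) (.e (nat_lit 426344) (nat_lit 14) (.e (nat_lit 491560) (nat_lit 10) (.e (nat_lit 344173) (nat_lit 42) .nil)))) .nil)) 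
(.lf (nat_lit 207348) (.g (nat_lit 1252) (.e (nat_lit 89856) (nat_lit 18) (.e (nat_lit 483365) (nat_lit 18) (.e (nat_lit 57873) (nat_lit 264) (.e (nat_lit 7936) (nat_lit 81) .nil)))) .nil))))) (.nd (nat_lit 4) (.nd (nat_lit 5) (.nd (nat_lit 6) 
(.lf (nat_lit 207244) (.g (nat_lit 2065) (.e (nat_lit 81927) (nat_lit 11) (.e (nat_lit 426344) (nat_lit 14) (.e (nat_lit 491560) (nat_lit 10) (.e (nat_lit 344097) (nat_lit 18) (.e (nat_lit 7146) (nat_lit 382) (.e (nat_lit 1216) (nat_lit 90) .nil)))))) (.g (nat_lit 4) .nil .nil))) 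
(.lf (nat_lit 207308) (.g (nat_lit 730) (.e (nat_lit 89856) (nat_lit 11) (.e (nat_lit 426558) (nat_lit 33) (.e (nat_lit 385104) (nat_lit 50) (.e (nat_lit 786455) (nat_lit 17) .nil)))) .nil))) (.nd (nat_lit 6) 
(.lf (nat_lit 207276) (.g (nat_lit 1286) (.e (nat_lit 89856) (nat_lit 11) (.e (nat_lit 426011) (nat_lit 0) (.e (nat_lit 7591) (nat_lit 407) (.e (nat_lit 73772) (nat_lit 24) .nil)))) .nil)) 
(.lf (nat_lit 207340) (.g (nat_lit 817) (.e (nat_lit 89856) (nat_lit 18) (.e (nat_lit 483363) (nat_lit 18) (.e (nat_lit 57929) (nat_lit 282) .nil))) .nil)))) (.nd (nat_lit 5) (.nd (nat_lit 6) 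
(.lf (nat_lit 207260) (.g (nat_lit 1796) (.e (nat_lit 81927) (nat_lit 11) (.e (nat_lit 426497) (nat_lit 27) (.e (nat_lit 335986) (nat_lit 1) (.e (nat_lit 57927) (nat_lit 282) (.e (nat_lit 163869) (nat_lit 2) .nil))))) .nil)) 
(.lf (nat_lit 207324) (.g (nat_lit 1210) (.e (nat_lit 89856) (nat_lit 16) (.e (nat_lit 466972) (nat_lit 21) (.e (nat_lit 164332) (nat_lit 230) (.e (nat_lit 163850) (nat_lit 0) .nil)))) .nil))) (.nd (nat_lit 6) 
(.lf (nat_lit 207292) (.g (nat_lit 2333) (.e (nat_lit 89856) (nat_lit 11) (.e (nat_lit 426499) (nat_lit 27) (.e (nat_lit 335986) (nat_lit 1) (.e (nat_lit 57927) (nat_lit 282) (.e (nat_lit 163869) (nat_lit 2) .nil))))) .nil)) 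
(.lf (nat_lit 207356) (.g (nat_lit 2059) (.e (nat_lit 89856) (nat_lit 19) (.e (nat_lit 491579) (nat_lit 27) (.e (nat_lit 426188) (nat_lit 9) (.e (nat_lit 426432) (nat_lit 17) (.e (nat_lit 98048) (nat_lit 6) .nil))))) .nil))))))) (.nd (nat_lit 2) (.nd (nat_lit 3) (.nd (nat_lit 4) (.nd (nat_lit 5) (.nd (nat_lit 6) 
(.lf (nat_lit 207234) (.g (nat_lit 1940) (.e (nat_lit 81927) (nat_lit 11) (.e (nat_lit 426344) (nat_lit 14) (.e (nat_lit 491560) (nat_lit 10) (.e (nat_lit 344094) (nat_lit 18) (.e (nat_lit 7119) (nat_lit 382) (.e (nat_lit 7936) (nat_lit 90) .nil)))))) (.g (nat_lit 5) .nil .nil))) 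
(.lf (nat_lit 207298) (.g (nat_lit 1974) (.e (nat_lit 89856) (nat_lit 11) (.e (nat_lit 426503) (nat_lit 27) (.e (nat_lit 335986) (nat_lit 1) (.e (nat_lit 57931) (nat_lit 282) (.e (nat_lit 163867) (nat_lit 2) .nil))))) .nil))) (.nd (nat_lit 6) 
(.lf (nat_lit 207266) (.g (nat_lit 1731) (.e (nat_lit 81927) (nat_lit 11) (.e (nat_lit 426500) (nat_lit 27) (.e (nat_lit 335988) (nat_lit 1) (.e (nat_lit 57930) (nat_lit 282) .nil)))) .nil)) 
(.lf (nat_lit 207330) (.g (nat_lit 82) (.e (nat_lit 89856) (nat_lit 18) (.e (nat_lit 483332) (nat_lit 0) (.e (nat_lit 3716) (nat_lit 227) (.e (nat_lit 786176) (nat_lit 0) .nil)))) .nil)))) (.nd (nat_lit 5) (.nd (nat_lit 6) 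
(.lf (nat_lit 207250) (.g (nat_lit 517) (.e (nat_lit 81927) (nat_lit 11) (.e (nat_lit 426408) (nat_lit 15) (.e (nat_lit 6112) (nat_lit 332) .nil))) .nil)) 
(.lf (nat_lit 207314) (.g (nat_lit 972) (.e (nat_lit 89856) (nat_lit 16) (.e (nat_lit 466969) (nat_lit 21) (.e (nat_lit 164305) (nat_lit 226) (.e (nat_lit 7936) (nat_lit 87) .nil)))) .nil))) (.nd (nat_lit 6) 
(.lf (nat_lit 207282) (.g (nat_lit 1126) (.e (nat_lit 89856) (nat_lit 11) (.e (nat_lit 426342) (nat_lit 14) (.e (nat_lit 491560) (nat_lit 10) (.e (nat_lit 344174) (nat_lit 42) .nil)))) .nil)) 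
(.lf (nat_lit 207346) (.g (nat_lit 1296) (.e (nat_lit 89856) (nat_lit 18) (.e (nat_lit 483365) (nat_lit 18) (.e (nat_lit 57847) (nat_lit 252) (.e (nat_lit 57345) (nat_lit 0) .nil)))) .nil))))) (.nd (nat_lit 4) (.nd (nat_lit 5) (.nd (nat_lit 6) 
(.lf (nat_lit 207242) (.g (nat_lit 3275) (.e (nat_lit 81927) (nat_lit 11) (.e (nat_lit 426344) (nat_lit 14) (.e (nat_lit 491560) (nat_lit 10) (.e (nat_lit 344096) (nat_lit 18) (.e (nat_lit 7125) (nat_lit 382) (.e (nat_lit 1222) (nat_lit 90) .nil)))))) (.g (nat_lit 6) .nil .nil))) 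
(.lf (nat_lit 207306) (.g (nat_lit 631) (.e (nat_lit 89856) (nat_lit 11) (.e (nat_lit 426558) (nat_lit 33) (.e (nat_lit 385102) (nat_lit 50) (.e (nat_lit 786455) (nat_lit 17) (.e (nat_lit 98048) (nat_lit 6) .nil))))) .nil))) (.nd (nat_lit 6) 
(.lf (nat_lit 207274) (.g (nat_lit 545) (.e (nat_lit 89856) (nat_lit 11) (.e (nat_lit 425987) (nat_lit 0) (.e (nat_lit 7590) (nat_lit 407) (.e (nat_lit 73772) (nat_lit 24) (.e (nat_lit 769792) (nat_lit 10) .nil))))) .nil)) 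
(.lf (nat_lit 207338) (.g (nat_lit 1918) (.e (nat_lit 89856) (nat_lit 18) (.e (nat_lit 483363) (nat_lit 18) (.e (nat_lit 57927) (nat_lit 282) (.e (nat_lit 163869) (nat_lit 2) (.e (nat_lit 196673) (nat_lit 15) .nil))))) .nil)))) (.nd (nat_lit 5) (.nd (nat_lit 6) 
(.lf (nat_lit 207258) (.g (nat_lit 1760) (.e (nat_lit 81927) (nat_lit 11) (.e (nat_lit 426497) (nat_lit 27) (.e (nat_lit 335986) (nat_lit 1) (.e (nat_lit 57926) (nat_lit 282) (.e (nat_lit 163869) (nat_lit 2) .nil))))) .nil)) 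
(.lf (nat_lit 207322) (.g (nat_lit 396) (.e (nat_lit 89856) (nat_lit 16) (.e (nat_lit 466972) (nat_lit 21) (.e (nat_lit 164332) (nat_lit 230) .nil))) .nil))) (.nd (nat_lit 6) 
(.lf (nat_lit 207290) (.g (nat_lit 1712) (.e (nat_lit 89856) (nat_lit 11) (.e (nat_lit 426499) (nat_lit 27) (.e (nat_lit 335986) (nat_lit 1) (.e (nat_lit 57927) (nat_lit 282) .nil)))) .nil)) 
(.lf (nat_lit 207354) (.g (nat_lit 997) (.e (nat_lit 89856) (nat_lit 18) (.e (nat_lit 483366) (nat_lit 18) (.e (nat_lit 57873) (nat_lit 264) (.e (nat_lit 7936) (nat_lit 81) .nil)))) .nil)))))) (.nd (nat_lit 3) (.nd (nat_lit 4) (.nd (nat_lit 5) (.nd (nat_lit 6) 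
(.lf (nat_lit 207238) (.g (nat_lit 2079) (.e (nat_lit 81927) (nat_lit 11) (.e (nat_lit 426344) (nat_lit 14) (.e (nat_lit 491560) (nat_lit 10) (.e (nat_lit 344096) (nat_lit 18) (.e (nat_lit 7119) (nat_lit 382) .nil))))) .nil)) 
(.lf (nat_lit 207302) (.g (nat_lit 2154) (.e (nat_lit 89856) (nat_lit 11) (.e (nat_lit 426503) (nat_lit 27) (.e (nat_lit 335988) (nat_lit 1) (.e (nat_lit 57931) (nat_lit 282) (.e (nat_lit 163869) (nat_lit 2) .nil))))) .nil))) (.nd (nat_lit 6) 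
(.lf (nat_lit 207270) (.g (nat_lit 1442) (.e (nat_lit 81927) (nat_lit 11) (.e (nat_lit 426500) (nat_lit 27) (.e (nat_lit 335996) (nat_lit 1) (.e (nat_lit 57929) (nat_lit 282) (.e (nat_lit 163865) (nat_lit 2) .nil))))) .nil)) 
(.lf (nat_lit 207334) (.g (nat_lit 555) (.e (nat_lit 89856) (nat_lit 18) (.e (nat_lit 483333) (nat_lit 0) (.e (nat_lit 3716) (nat_lit 227) (.e (nat_lit 786176) (nat_lit 0) .nil)))) .nil)))) (.nd (nat_lit 5) (.nd (nat_lit 6) 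
(.lf (nat_lit 207254) (.g (nat_lit 892) (.e (nat_lit 81927) (nat_lit 11) (.e (nat_lit 426408) (nat_lit 15) (.e (nat_lit 6216) (nat_lit 333) (.e (nat_lit 57864) (nat_lit 256) (.e (nat_lit 7936) (nat_lit 7) .nil))))) .nil)) 
(.lf (nat_lit 207318) (.g (nat_lit 1324) (.e (nat_lit 89856) (nat_lit 16) (.e (nat_lit 466971) (nat_lit 21) (.e (nat_lit 164325) (nat_lit 230) (.e (nat_lit 163841) (nat_lit 0) .nil)))) .nil))) (.nd (nat_lit 6) 
(.lf (nat_lit 207286) (.g (nat_lit 1575) (.e (nat_lit 89856) (nat_lit 11) (.e (nat_lit 426482) (nat_lit 27) (.e (nat_lit 335997) (nat_lit 1) (.e (nat_lit 57924) (nat_lit 282) .nil)))) .nil)) 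
(.lf (nat_lit 207350) (.g (nat_lit 1808) (.e (nat_lit 89856) (nat_lit 18) (.e (nat_lit 483365) (nat_lit 18) (.e (nat_lit 57929) (nat_lit 282) (.e (nat_lit 163869) (nat_lit 2) (.e (nat_lit 196673) (nat_lit 15) .nil))))) .nil))))) (.nd (nat_lit 4) (.nd (nat_lit 5) (.nd (nat_lit 6) 
(.lf (nat_lit 207246) (.g (nat_lit 1710) (.e (nat_lit 81927) (nat_lit 11) (.e (nat_lit 426344) (nat_lit 14) (.e (nat_lit 491560) (nat_lit 10) (.e (nat_lit 344101) (nat_lit 18) .nil)))) .nil)) 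
(.lf (nat_lit 207310) (.g (nat_lit 1311) (.e (nat_lit 89856) (nat_lit 11) (.e (nat_lit 426562) (nat_lit 33) (.e (nat_lit 385094) (nat_lit 49) (.e (nat_lit 778246) (nat_lit 0) .nil)))) .nil))) (.nd (nat_lit 6) 
(.lf (nat_lit 207278) (.g (nat_lit 1448) (.e (nat_lit 89856) (nat_lit 11) (.e (nat_lit 426171) (nat_lit 7) (.e (nat_lit 409646) (nat_lit 18) (.e (nat_lit 303106) (nat_lit 0) .nil)))) .nil)) 
(.lf (nat_lit 207342) (.g (nat_lit 2033) (.e (nat_lit 89856) (nat_lit 18) (.e (nat_lit 483363) (nat_lit 18) (.e (nat_lit 57931) (nat_lit 282) (.e (nat_lit 163867) (nat_lit 2) (.e (nat_lit 196673) (nat_lit 15) .nil))))) .nil)))) (.nd (nat_lit 5) (.nd (nat_lit 6) 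
(.lf (nat_lit 207262) (.g (nat_lit 1391) (.e (nat_lit 81927) (nat_lit 11) (.e (nat_lit 426497) (nat_lit 27) (.e (nat_lit 335995) (nat_lit 1) (.e (nat_lit 57931) (nat_lit 282) .nil)))) .nil)) 
(.lf (nat_lit 207326) (.g (nat_lit 22) (.e (nat_lit 89856) (nat_lit 18) (.e (nat_lit 483329) (nat_lit 0) (.e (nat_lit 3640) (nat_lit 227) .nil))) .nil))) (.nd (nat_lit 6) 
(.lf (nat_lit 207294) (.g (nat_lit 1170) (.e (nat_lit 89856) (nat_lit 11) (.e (nat_lit 426503) (nat_lit 27) (.e (nat_lit 335986) (nat_lit 1) (.e (nat_lit 57924) (nat_lit 282) .nil)))) .nil)) 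
(.lf (nat_lit 207358) (.g (nat_lit 827) (.e (nat_lit 89856) (nat_lit 19) (.e (nat_lit 491580) (nat_lit 27) (.e (nat_lit 426195) (nat_lit 9) (.e (nat_lit 426428) (nat_lit 17) (.e (nat_lit 98048) (nat_lit 6) .nil))))) .nil)))))))) (.nd (nat_lit 1) (.nd (nat_lit 2) (.nd (nat_lit 3) (.nd (nat_lit 4) (.nd (nat_lit 5) (.nd (nat_lit 6) 
(.lf (nat_lit 207233) (.g (nat_lit 1467) (.e (nat_lit 81927) (nat_lit 11) (.e (nat_lit 426344) (nat_lit 14) (.e (nat_lit 491560) (nat_lit 10) (.e (nat_lit 344093) (nat_lit 18) .nil)))) .nil)) 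
(.lf (nat_lit 207297) (.g (nat_lit 1350) (.e (nat_lit 89856) (nat_lit 11) (.e (nat_lit 426503) (nat_lit 27) (.e (nat_lit 335986) (nat_lit 1) (.e (nat_lit 57928) (nat_lit 282) .nil)))) .nil))) (.nd (nat_lit 6) 
(.lf (nat_lit 207265) (.g (nat_lit 2010) (.e (nat_lit 81927) (nat_lit 11) (.e (nat_lit 426500) (nat_lit 27) (.e (nat_lit 335988) (nat_lit 1) (.e (nat_lit 57926) (nat_lit 282) (.e (nat_lit 163865) (nat_lit 2) .nil))))) .nil)) 
(.lf (nat_lit 207329) (.g (nat_lit 96) (.e (nat_lit 89856) (nat_lit 18) (.e (nat_lit 483332) (nat_lit 0) (.e (nat_lit 3681) (nat_lit 227) (.e (nat_lit 786176) (nat_lit 0) .nil)))) .nil)))) (.nd (nat_lit 5) (.nd (nat_lit 6) 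
(.lf (nat_lit 207249) (.g (nat_lit 2419) (.e (nat_lit 81927) (nat_lit 11) (.e (nat_lit 426344) (nat_lit 14) (.e (nat_lit 491560) (nat_lit 10) (.e (nat_lit 344175) (nat_lit 43) (.e (nat_lit 770074) (nat_lit 10) .nil))))) (.g (nat_lit 0) .nil .nil))) 
(.lf (nat_lit 207313) (.g (nat_lit 544) (.e (nat_lit 89856) (nat_lit 12) (.e (nat_lit 434179) (nat_lit 0) (.e (nat_lit 1515) (nat_lit 108) (.e (nat_lit 335874) (nat_lit 0) (.e (nat_lit 7936) (nat_lit 150) .nil))))) .nil))) (.nd (nat_lit 6) 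
(.lf (nat_lit 207281) (.g (nat_lit 1607) (.e (nat_lit 89856) (nat_lit 11) (.e (nat_lit 426340) (nat_lit 14) (.e (nat_lit 491566) (nat_lit 12) (.e (nat_lit 385077) (nat_lit 34) .nil)))) .nil)) 
(.lf (nat_lit 207345) (.g (nat_lit 631) (.e (nat_lit 89856) (nat_lit 18) (.e (nat_lit 483364) (nat_lit 18) (.e (nat_lit 57930) (nat_lit 282) .nil))) .nil))))) (.nd (nat_lit 4) (.nd (nat_lit 5) (.nd (nat_lit 6) 
(.lf (nat_lit 207241) (.g (nat_lit 1960) (.e (nat_lit 81927) (nat_lit 11) (.e (nat_lit 426344) (nat_lit 14) (.e (nat_lit 491560) (nat_lit 10) (.e (nat_lit 344096) (nat_lit 18) (.e (nat_lit 7124) (nat_lit 382) (.e (nat_lit 1222) (nat_lit 90) .nil)))))) (.g (nat_lit 4) .nil .nil))) 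
(.lf (nat_lit 207305) (.g (nat_lit 395) (.e (nat_lit 89856) (nat_lit 11) (.e (nat_lit 426558) (nat_lit 33) (.e (nat_lit 385100) (nat_lit 49) (.e (nat_lit 786176) (nat_lit 0) .nil)))) .nil))) (.nd (nat_lit 6) 
(.lf (nat_lit 207273) (.g (nat_lit 599) (.e (nat_lit 89856) (nat_lit 11) (.e (nat_lit 425984) (nat_lit 0) (.e (nat_lit 7590) (nat_lit 407) (.e (nat_lit 73772) (nat_lit 24) (.e (nat_lit 769792) (nat_lit 10) .nil))))) .nil)) 
(.lf (nat_lit 207337) (.g (nat_lit 1511) (.e (nat_lit 89856) (nat_lit 18) (.e (nat_lit 483363) (nat_lit 18) (.e (nat_lit 57926) (nat_lit 282) (.e (nat_lit 163870) (nat_lit 2) .nil)))) .nil)))) (.nd (nat_lit 5) (.nd (nat_lit 6) 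
(.lf (nat_lit 207257) (.g (nat_lit 1870) (.e (nat_lit 81927) (nat_lit 11) (.e (nat_lit 426497) (nat_lit 27) (.e (nat_lit 335986) (nat_lit 1) (.e (nat_lit 57926) (nat_lit 282) (.e (nat_lit 163868) (nat_lit 2) .nil))))) .nil)) 
(.lf (nat_lit 207321) (.g (nat_lit 1606) (.e (nat_lit 89856) (nat_lit 16) (.e (nat_lit 466972) (nat_lit 21) (.e (nat_lit 164330) (nat_lit 230) (.e (nat_lit 163841) (nat_lit 0) .nil)))) .nil))) (.nd (nat_lit 6) 
(.lf (nat_lit 207289) (.g (nat_lit 2233) (.e (nat_lit 89856) (nat_lit 11) (.e (nat_lit 426499) (nat_lit 27) (.e (nat_lit 335986) (nat_lit 1) (.e (nat_lit 57926) (nat_lit 282) (.e (nat_lit 163869) (nat_lit 2) .nil))))) .nil)) 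
(.lf (nat_lit 207353) (.g (nat_lit 183) (.e (nat_lit 89856) (nat_lit 18) (.e (nat_lit 483366) (nat_lit 18) (.e (nat_lit 57870) (nat_lit 264) .nil))) .nil)))))) (.nd (nat_lit 3) (.nd (nat_lit 4) (.nd (nat_lit 5) (.nd (nat_lit 6) 
(.lf (nat_lit 207237) (.g (nat_lit 1844) (.e (nat_lit 81927) (nat_lit 11) (.e (nat_lit 426344) (nat_lit 14) (.e (nat_lit 491560) (nat_lit 10) (.e (nat_lit 344095) (nat_lit 18) (.e (nat_lit 7125) (nat_lit 382) .nil))))) .nil)) 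
(.lf (nat_lit 207301) (.g (nat_lit 1380) (.e (nat_lit 89856) (nat_lit 11) (.e (nat_lit 426503) (nat_lit 27) (.e (nat_lit 335988) (nat_lit 1) (.e (nat_lit 57927) (nat_lit 282) .nil)))) .nil))) (.nd (nat_lit 6) 
(.lf (nat_lit 207269) (.g (nat_lit 1058) (.e (nat_lit 81927) (nat_lit 11) (.e (nat_lit 426500) (nat_lit 27) (.e (nat_lit 335995) (nat_lit 1) (.e (nat_lit 57929) (nat_lit 282) (.e (nat_lit 163865) (nat_lit 2) .nil))))) .nil)) 
(.lf (nat_lit 207333) (.g (nat_lit 517) (.e (nat_lit 89856) (nat_lit 18) (.e (nat_lit 483333) (nat_lit 0) (.e (nat_lit 3715) (nat_lit 227) .nil))) .nil)))) (.nd (nat_lit 5) (.nd (nat_lit 6) 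
(.lf (nat_lit 207253) (.g (nat_lit 760) (.e (nat_lit 81927) (nat_lit 11) (.e (nat_lit 426408) (nat_lit 15) (.e (nat_lit 6216) (nat_lit 333) (.e (nat_lit 57864) (nat_lit 256) .nil)))) .nil)) 
(.lf (nat_lit 207317) (.g (nat_lit 1208) (.e (nat_lit 89856) (nat_lit 16) (.e (nat_lit 466969) (nat_lit 21) (.e (nat_lit 164332) (nat_lit 230) (.e (nat_lit 163860) (nat_lit 1) (.e (nat_lit 164220) (nat_lit 181) .nil))))) .nil))) (.nd (nat_lit 6) 
(.lf (nat_lit 207285) (.g (nat_lit 1481) (.e (nat_lit 89856) (nat_lit 11) (.e (nat_lit 426344) (nat_lit 14) (.e (nat_lit 491560) (nat_lit 10) (.e (nat_lit 344174) (nat_lit 42) .nil)))) .nil)) 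
(.lf (nat_lit 207349) (.g (nat_lit 861) (.e (nat_lit 89856) (nat_lit 18) (.e (nat_lit 483365) (nat_lit 18) (.e (nat_lit 57929) (nat_lit 282) (.e (nat_lit 163865) (nat_lit 2) .nil)))) .nil))))) (.nd (nat_lit 4) (.nd (nat_lit 5) (.nd (nat_lit 6) 
(.lf (nat_lit 207245) (.g (nat_lit 1390) (.e (nat_lit 81927) (nat_lit 11) (.e (nat_lit 426344) (nat_lit 14) (.e (nat_lit 491560) (nat_lit 10) (.e (nat_lit 344099) (nat_lit 18) .nil)))) .nil)) 
(.lf (nat_lit 207309) (.g (nat_lit 590) (.e (nat_lit 89856) (nat_lit 11) (.e (nat_lit 426562) (nat_lit 33) (.e (nat_lit 385093) (nat_lit 49) .nil))) .nil))) (.nd (nat_lit 6) 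
(.lf (nat_lit 207277) (.g (nat_lit 1307) (.e (nat_lit 89856) (nat_lit 11) (.e (nat_lit 426011) (nat_lit 0) (.e (nat_lit 7593) (nat_lit 407) (.e (nat_lit 73772) (nat_lit 24) .nil)))) .nil)) 
(.lf (nat_lit 207341) (.g (nat_lit 1307) (.e (nat_lit 89856) (nat_lit 18) (.e (nat_lit 483363) (nat_lit 18) (.e (nat_lit 57931) (nat_lit 282) (.e (nat_lit 163866) (nat_lit 2) .nil)))) .nil)))) (.nd (nat_lit 5) (.nd (nat_lit 6) 
(.lf (nat_lit 207261) (.g (nat_lit 1834) (.e (nat_lit 81927) (nat_lit 11) (.e (nat_lit 426497) (nat_lit 27) (.e (nat_lit 335986) (nat_lit 1) (.e (nat_lit 57927) (nat_lit 282) (.e (nat_lit 163871) (nat_lit 2) .nil))))) .nil)) 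
(.lf (nat_lit 207325) (.g (nat_lit 1406) (.e (nat_lit 89856) (nat_lit 16) (.e (nat_lit 466972) (nat_lit 21) (.e (nat_lit 164332) (nat_lit 230) (.e (nat_lit 163860) (nat_lit 1) (.e (nat_lit 164220) (nat_lit 181) .nil))))) .nil))) (.nd (nat_lit 6) 
(.lf (nat_lit 207293) (.g (nat_lit 2383) (.e (nat_lit 89856) (nat_lit 11) (.e (nat_lit 426499) (nat_lit 27) (.e (nat_lit 335986) (nat_lit 1) (.e (nat_lit 57927) (nat_lit 282) (.e (nat_lit 163871) (nat_lit 2) .nil))))) .nil)) 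
(.lf (nat_lit 207357) (.g (nat_lit 2142) (.e (nat_lit 89856) (nat_lit 19) (.e (nat_lit 491579) (nat_lit 27) (.e (nat_lit 426316) (nat_lit 12) (.e (nat_lit 475169) (nat_lit 22) (.e (nat_lit 507648) (nat_lit 20) .nil))))) .nil))))))) (.nd (nat_lit 2) (.nd (nat_lit 3) (.nd (nat_lit 4) (.nd (nat_lit 5) (.nd (nat_lit 6) 
(.lf (nat_lit 207235) (.g (nat_lit 1750) (.e (nat_lit 81927) (nat_lit 11) (.e (nat_lit 426344) (nat_lit 14) (.e (nat_lit 491560) (nat_lit 10) (.e (nat_lit 344094) (nat_lit 18) (.e (nat_lit 7124) (nat_lit 382) (.e (nat_lit 7936) (nat_lit 90) .nil)))))) (.g (nat_lit 4) .nil .nil))) 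
(.lf (nat_lit 207299) (.g (nat_lit 2174) (.e (nat_lit 89856) (nat_lit 11) (.e (nat_lit 426503) (nat_lit 27) (.e (nat_lit 335988) (nat_lit 1) (.e (nat_lit 57926) (nat_lit 282) (.e (nat_lit 163869) (nat_lit 2) .nil))))) .nil))) (.nd (nat_lit 6) 
(.lf (nat_lit 207267) (.g (nat_lit 1118) (.e (nat_lit 81927) (nat_lit 11) (.e (nat_lit 426500) (nat_lit 27) (.e (nat_lit 335995) (nat_lit 1) (.e (nat_lit 57872) (nat_lit 264) (.e (nat_lit 7936) (nat_lit 81) .nil))))) .nil)) 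
(.lf (nat_lit 207331) (.g (nat_lit 553) (.e (nat_lit 89856) (nat_lit 18) (.e (nat_lit 483333) (nat_lit 0) (.e (nat_lit 3681) (nat_lit 227) .nil))) .nil)))) (.nd (nat_lit 5) (.nd (nat_lit 6) 
(.lf (nat_lit 207251) (.g (nat_lit 409) (.e (nat_lit 81927) (nat_lit 11) (.e (nat_lit 426408) (nat_lit 15) (.e (nat_lit 6209) (nat_lit 333) .nil))) .nil)) 
(.lf (nat_lit 207315) (.g (nat_lit 587) (.e (nat_lit 89856) (nat_lit 16) (.e (nat_lit 466969) (nat_lit 21) (.e (nat_lit 164307) (nat_lit 226) (.e (nat_lit 7936) (nat_lit 87) .nil)))) .nil))) (.nd (nat_lit 6) 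
(.lf (nat_lit 207283) (.g (nat_lit 1374) (.e (nat_lit 89856) (nat_lit 11) (.e (nat_lit 426344) (nat_lit 14) (.e (nat_lit 491558) (nat_lit 10) (.e (nat_lit 344174) (nat_lit 42) .nil)))) .nil)) 
(.lf (nat_lit 207347) (.g (nat_lit 1008) (.e (nat_lit 89856) (nat_lit 18) (.e (nat_lit 483365) (nat_lit 18) (.e (nat_lit 57847) (nat_lit 252) (.e (nat_lit 57365) (nat_lit 1) .nil)))) .nil))))) (.nd (nat_lit 4) (.nd (nat_lit 5) (.nd (nat_lit 6) 
(.lf (nat_lit 207243) (.g (nat_lit 1967) (.e (nat_lit 81927) (nat_lit 11) (.e (nat_lit 426344) (nat_lit 14) (.e (nat_lit 491560) (nat_lit 10) (.e (nat_lit 344097) (nat_lit 18) (.e (nat_lit 7145) (nat_lit 382) .nil))))) .nil)) 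
(.lf (nat_lit 207307) (.g (nat_lit 781) (.e (nat_lit 89856) (nat_lit 11) (.e (nat_lit 426558) (nat_lit 33) (.e (nat_lit 385104) (nat_lit 50) (.e (nat_lit 786454) (nat_lit 17) (.e (nat_lit 98048) (nat_lit 6) .nil))))) .nil))) (.nd (nat_lit 6) 
(.lf (nat_lit 207275) (.g (nat_lit 829) (.e (nat_lit 89856) (nat_lit 11) (.e (nat_lit 426009) (nat_lit 0) (.e (nat_lit 7593) (nat_lit 407) (.e (nat_lit 73772) (nat_lit 24) (.e (nat_lit 769792) (nat_lit 10) .nil))))) .nil)) 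
(.lf (nat_lit 207339) (.g (nat_lit 1996) (.e (nat_lit 89856) (nat_lit 18) (.e (nat_lit 483363) (nat_lit 18) (.e (nat_lit 57927) (nat_lit 282) (.e (nat_lit 163871) (nat_lit 2) (.e (nat_lit 196673) (nat_lit 15) .nil))))) .nil)))) (.nd (nat_lit 5) (.nd (nat_lit 6) 
(.lf (nat_lit 207259) (.g (nat_lit 1910) (.e (nat_lit 81927) (nat_lit 11) (.e (nat_lit 426497) (nat_lit 27) (.e (nat_lit 335986) (nat_lit 1) (.e (nat_lit 57927) (nat_lit 282) (.e (nat_lit 163867) (nat_lit 2) .nil))))) .nil)) 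
(.lf (nat_lit 207323) (.g (nat_lit 1191) (.e (nat_lit 89856) (nat_lit 16) (.e (nat_lit 466972) (nat_lit 21) (.e (nat_lit 164332) (nat_lit 230) (.e (nat_lit 163847) (nat_lit 0) (.e (nat_lit 3603) (nat_lit 225) .nil))))) .nil))) (.nd (nat_lit 6) 
(.lf (nat_lit 207291) (.g (nat_lit 2323) (.e (nat_lit 89856) (nat_lit 11) (.e (nat_lit 426499) (nat_lit 27) (.e (nat_lit 335986) (nat_lit 1) (.e (nat_lit 57927) (nat_lit 282) (.e (nat_lit 163868) (nat_lit 2) .nil))))) .nil)) 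
(.lf (nat_lit 207355) (.g (nat_lit 925) (.e (nat_lit 89856) (nat_lit 18) (.e (nat_lit 483366) (nat_lit 18) (.e (nat_lit 57931) (nat_lit 282) (.e (nat_lit 163865) (nat_lit 2) .nil)))) .nil)))))) (.nd (nat_lit 3) (.nd (nat_lit 4) (.nd (nat_lit 5) (.nd (nat_lit 6) 
(.lf (nat_lit 207239) (.g (nat_lit 2082) (.e (nat_lit 81927) (nat_lit 11) (.e (nat_lit 426344) (nat_lit 14) (.e (nat_lit 491560) (nat_lit 10) (.e (nat_lit 344096) (nat_lit 18) (.e (nat_lit 7122) (nat_lit 382) .nil))))) .nil)) 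
(.lf (nat_lit 207303) (.g (nat_lit 809) (.e (nat_lit 89856) (nat_lit 11) (.e (nat_lit 426525) (nat_lit 27) (.e (nat_lit 335986) (nat_lit 1) (.e (nat_lit 57927) (nat_lit 282) .nil)))) .nil))) (.nd (nat_lit 6) 
(.lf (nat_lit 207271) (.g (nat_lit 1782) (.e (nat_lit 81927) (nat_lit 11) (.e (nat_lit 426500) (nat_lit 27) (.e (nat_lit 335996) (nat_lit 1) (.e (nat_lit 57931) (nat_lit 282) (.e (nat_lit 163865) (nat_lit 2) .nil))))) .nil)) 
(.lf (nat_lit 207335) (.g (nat_lit 1464) (.e (nat_lit 89856) (nat_lit 18) (.e (nat_lit 483363) (nat_lit 18) (.e (nat_lit 57847) (nat_lit 252) (.e (nat_lit 57345) (nat_lit 0) .nil)))) .nil)))) (.nd (nat_lit 5) (.nd (nat_lit 6) 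
(.lf (nat_lit 207255) (.g (nat_lit 396) (.e (nat_lit 81927) (nat_lit 11) (.e (nat_lit 426408) (nat_lit 15) (.e (nat_lit 6217) (nat_lit 333) .nil))) .nil)) 
(.lf (nat_lit 207319) (.g (nat_lit 562) (.e (nat_lit 89856) (nat_lit 16) (.e (nat_lit 466972) (nat_lit 21) (.e (nat_lit 164305) (nat_lit 226) .nil))) .nil))) (.nd (nat_lit 6) 
(.lf (nat_lit 207287) (.g (nat_lit 2215) (.e (nat_lit 89856) (nat_lit 11) (.e (nat_lit 426482) (nat_lit 27) (.e (nat_lit 335997) (nat_lit 1) (.e (nat_lit 57931) (nat_lit 282) (.e (nat_lit 163869) (nat_lit 2) .nil))))) .nil)) 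
(.lf (nat_lit 207351) (.g (nat_lit 1299) (.e (nat_lit 89856) (nat_lit 18) (.e (nat_lit 483365) (nat_lit 18) (.e (nat_lit 57931) (nat_lit 282) (.e (nat_lit 163865) (nat_lit 2) .nil)))) .nil))))) (.nd (nat_lit 4) (.nd (nat_lit 5) (.nd (nat_lit 6) 
(.lf (nat_lit 207247) (.g (nat_lit 1294) (.e (nat_lit 81927) (nat_lit 11) (.e (nat_lit 426344) (nat_lit 14) (.e (nat_lit 491560) (nat_lit 10) (.e (nat_lit 352000) (nat_lit 18) .nil)))) .nil)) 
(.lf (nat_lit 207311) (.g (nat_lit 974) (.e (nat_lit 89856) (nat_lit 11) (.e (nat_lit 426562) (nat_lit 33) (.e (nat_lit 385104) (nat_lit 50) (.e (nat_lit 786454) (nat_lit 17) .nil)))) .nil))) (.nd (nat_lit 6) 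
(.lf (nat_lit 207279) (.g (nat_lit 1866) (.e (nat_lit 89856) (nat_lit 11) (.e (nat_lit 426171) (nat_lit 7) (.e (nat_lit 409646) (nat_lit 18) (.e (nat_lit 303112) (nat_lit 0) (.e (nat_lit 2478) (nat_lit 157) .nil))))) .nil)) 
(.lf (nat_lit 207343) (.g (nat_lit 2725) (.e (nat_lit 89856) (nat_lit 18) (.e (nat_lit 483363) (nat_lit 18) (.e (nat_lit 57931) (nat_lit 282) (.e (nat_lit 163869) (nat_lit 2) (.e (nat_lit 196673) (nat_lit 15) .nil))))) .nil)))) (.nd (nat_lit 5) (.nd (nat_lit 6) 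
(.lf (nat_lit 207263) (.g (nat_lit 1931) (.e (nat_lit 81927) (nat_lit 11) (.e (nat_lit 426500) (nat_lit 27) (.e (nat_lit 335986) (nat_lit 1) (.e (nat_lit 57926) (nat_lit 282) (.e (nat_lit 163865) (nat_lit 2) .nil))))) .nil)) 
(.lf (nat_lit 207327) (.g (nat_lit 149) (.e (nat_lit 89856) (nat_lit 18) (.e (nat_lit 483329) (nat_lit 0) (.e (nat_lit 3681) (nat_lit 227) (.e (nat_lit 786176) (nat_lit 0) .nil)))) .nil))) (.nd (nat_lit 6) 
(.lf (nat_lit 207295) (.g (nat_lit 1366) (.e (nat_lit 89856) (nat_lit 11) (.e (nat_lit 426503) (nat_lit 27) (.e (nat_lit 335986) (nat_lit 1) (.e (nat_lit 57925) (nat_lit 282) .nil)))) .nil)) 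
(.lf (nat_lit 207359) (.g (nat_lit 887) (.e (nat_lit 89856) (nat_lit 19) (.e (nat_lit 491580) (nat_lit 27) (.e (nat_lit 426201) (nat_lit 9) (.e (nat_lit 426428) (nat_lit 17) (.e (nat_lit 98048) (nat_lit 6) .nil))))) .nil)))))))))

noncomputable def tv2732 : DT := (.nd (nat_lit 0) (.nd (nat_lit 1) (.nd (nat_lit 2) (.nd (nat_lit 3) (.nd (nat_lit 4) (.nd (nat_lit 5) 
(.lf (nat_lit 207360) (.g (nat_lit 893) (.e (nat_lit 89856) (nat_lit 19) (.e (nat_lit 491580) (nat_lit 27) (.e (nat_lit 426201) (nat_lit 9) (.e (nat_lit 426432) (nat_lit 17) (.e (nat_lit 98048) (nat_lit 6) .nil))))) .nil)) 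
(.lf (nat_lit 207392) (.g (nat_lit 341) (.e (nat_lit 81928) (nat_lit 20) (.e (nat_lit 2270) (nat_lit 149) (.e (nat_lit 761868) (nat_lit 5) .nil))) .nil))) (.nd (nat_lit 5) 
(.lf (nat_lit 207376) (.g (nat_lit 4989) (.e (nat_lit 81928) (nat_lit 20) (.e (nat_lit 1788) (nat_lit 119) (.e (nat_lit 516139) (nat_lit 7) (.e (nat_lit 409646) (nat_lit 18) (.e (nat_lit 303117) (nat_lit 2) (.e (nat_lit 196674) (nat_lit 15) .nil)))))) (.g (nat_lit 6) .nil .nil))) 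
(.lf (nat_lit 207408) (.g (nat_lit 1681) (.e (nat_lit 81931) (nat_lit 20) (.e (nat_lit 970) (nat_lit 81) (.e (nat_lit 5954) (nat_lit 322) (.e (nat_lit 57427) (nat_lit 15) (.e (nat_lit 360455) (nat_lit 0) .nil))))) .nil)))) (.nd (nat_lit 4) (.nd (nat_lit 5) 
(.lf (nat_lit 207368) (.g (nat_lit 184) (.e (nat_lit 89856) (nat_lit 19) (.e (nat_lit 491585) (nat_lit 29) (.e (nat_lit 442396) (nat_lit 20) (.e (nat_lit 3282) (nat_lit 200) (.e (nat_lit 564992) (nat_lit 6) .nil))))) .nil)) 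
(.lf (nat_lit 207400) (.g (nat_lit 989) (.e (nat_lit 81928) (nat_lit 20) (.e (nat_lit 2370) (nat_lit 154) (.e (nat_lit 810752) (nat_lit 14) (.e (nat_lit 360449) (nat_lit 0) (.e (nat_lit 7124) (nat_lit 382) (.e (nat_lit 7936) (nat_lit 90) .nil)))))) (.g (nat_lit 5) .nil .nil)))) (.nd (nat_lit 5) 
(.lf (nat_lit 207384) (.g (nat_lit 2726) (.e (nat_lit 81928) (nat_lit 20) (.e (nat_lit 1858) (nat_lit 124) (.e (nat_lit 557091) (nat_lit 12) (.e (nat_lit 164022) (nat_lit 46) .nil)))) .nil)) 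
(.lf (nat_lit 207416) (.g (nat_lit 2450) (.e (nat_lit 81931) (nat_lit 20) (.e (nat_lit 1994) (nat_lit 137) (.e (nat_lit 663569) (nat_lit 6) (.e (nat_lit 81948) (nat_lit 21) (.e (nat_lit 57873) (nat_lit 264) (.e (nat_lit 1221) (nat_lit 90) .nil)))))) (.g (nat_lit 0) .nil .nil)))))) (.nd (nat_lit 3) (.nd (nat_lit 4) (.nd (nat_lit 5) 
(.lf (nat_lit 207364) (.g (nat_lit 49) (.e (nat_lit 89856) (nat_lit 19) (.e (nat_lit 491585) (nat_lit 29) (.e (nat_lit 450304) (nat_lit 2) .nil))) .nil)) 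
(.lf (nat_lit 207396) (.g (nat_lit 1911) (.e (nat_lit 81928) (nat_lit 20) (.e (nat_lit 2270) (nat_lit 149) (.e (nat_lit 761868) (nat_lit 5) (.e (nat_lit 1597) (nat_lit 111) (.e (nat_lit 360449) (nat_lit 0) (.e (nat_lit 7124) (nat_lit 382) (.e (nat_lit 7936) (nat_lit 90) .nil))))))) (.g (nat_lit 6) .nil .nil)))) (.nd (nat_lit 5) 
(.lf (nat_lit 207380) (.g (nat_lit 2101) (.e (nat_lit 81928) (nat_lit 20) (.e (nat_lit 1841) (nat_lit 123) (.e (nat_lit 548889) (nat_lit 9) (.e (nat_lit 65624) (nat_lit 12) .nil)))) .nil)) 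
(.lf (nat_lit 207412) (.g (nat_lit 3724) (.e (nat_lit 81931) (nat_lit 20) (.e (nat_lit 1994) (nat_lit 137) (.e (nat_lit 663567) (nat_lit 4) (.e (nat_lit 65610) (nat_lit 10) (.e (nat_lit 344097) (nat_lit 18) (.e (nat_lit 5907) (nat_lit 320) (.e (nat_lit 1221) (nat_lit 90) .nil))))))) (.g (nat_lit 7) .nil .nil))))) (.nd (nat_lit 4) (.nd (nat_lit 5) 
(.lf (nat_lit 207372) (.g (nat_lit 2788) (.e (nat_lit 81928) (nat_lit 20) (.e (nat_lit 1023) (nat_lit 81) (.e (nat_lit 7270) (nat_lit 385) (.e (nat_lit 122919) (nat_lit 15) (.e (nat_lit 360451) (nat_lit 0) (.e (nat_lit 7124) (nat_lit 382) (.e (nat_lit 7936) (nat_lit 90) .nil))))))) (.g (nat_lit 6) .nil .nil))) 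
(.lf (nat_lit 207404) (.g (nat_lit 1409) (.e (nat_lit 81929) (nat_lit 20) (.e (nat_lit 2372) (nat_lit 154) (.e (nat_lit 810752) (nat_lit 14) (.e (nat_lit 360451) (nat_lit 0) (.e (nat_lit 7124) (nat_lit 382) (.e (nat_lit 7936) (nat_lit 90) .nil)))))) (.g (nat_lit 5) .nil .nil)))) (.nd (nat_lit 5) 
(.lf (nat_lit 207388) (.g (nat_lit 3421) (.e (nat_lit 81928) (nat_lit 20) (.e (nat_lit 1968) (nat_lit 135) (.e (nat_lit 647203) (nat_lit 14) (.e (nat_lit 1349) (nat_lit 102) (.e (nat_lit 286759) (nat_lit 12) (.e (nat_lit 385094) (nat_lit 49) (.e (nat_lit 778326) (nat_lit 6) .nil))))))) (.g (nat_lit 7) .nil .nil))) 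
(.lf (nat_lit 207420) (.g (nat_lit 865) (.e (nat_lit 81931) (nat_lit 20) (.e (nat_lit 1998) (nat_lit 137) (.e (nat_lit 663554) (nat_lit 0) (.e (nat_lit 1567) (nat_lit 110) (.e (nat_lit 352318) (nat_lit 24) .nil))))) .nil)))))) (.nd (nat_lit 2) (.nd (nat_lit 3) (.nd (nat_lit 4) (.nd (nat_lit 5) 
(.lf (nat_lit 207362) (.g (nat_lit 245) (.e (nat_lit 89856) (nat_lit 19) (.e (nat_lit 491585) (nat_lit 29) (.e (nat_lit 442376) (nat_lit 0) (.e (nat_lit 7936) (nat_lit 117) .nil)))) .nil)) 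
(.lf (nat_lit 207394) (.g (nat_lit 1272) (.e (nat_lit 81928) (nat_lit 20) (.e (nat_lit 2270) (nat_lit 149) (.e (nat_lit 761868) (nat_lit 5) (.e (nat_lit 1585) (nat_lit 111) (.e (nat_lit 360449) (nat_lit 0) (.e (nat_lit 7124) (nat_lit 382) (.e (nat_lit 7936) (nat_lit 90) .nil))))))) (.g (nat_lit 5) .nil .nil)))) (.nd (nat_lit 5) 
(.lf (nat_lit 207378) (.g (nat_lit 3700) (.e (nat_lit 81928) (nat_lit 20) (.e (nat_lit 1840) (nat_lit 123) (.e (nat_lit 548889) (nat_lit 9) (.e (nat_lit 65624) (nat_lit 12) (.e (nat_lit 385073) (nat_lit 31) .nil))))) .nil)) 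
(.lf (nat_lit 207410) (.g (nat_lit 2269) (.e (nat_lit 81931) (nat_lit 20) (.e (nat_lit 972) (nat_lit 81) (.e (nat_lit 5954) (nat_lit 322) (.e (nat_lit 57424) (nat_lit 14) (.e (nat_lit 352270) (nat_lit 8) (.e (nat_lit 270080) (nat_lit 6) .nil)))))) (.g (nat_lit 5) .nil .nil))))) (.nd (nat_lit 4) (.nd (nat_lit 5) 
(.lf (nat_lit 207370) (.g (nat_lit 290) (.e (nat_lit 89856) (nat_lit 19) (.e (nat_lit 491585) (nat_lit 29) (.e (nat_lit 442399) (nat_lit 20) (.e (nat_lit 3281) (nat_lit 200) (.e (nat_lit 564992) (nat_lit 6) .nil))))) .nil)) 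
(.lf (nat_lit 207402) (.g (nat_lit 2236) (.e (nat_lit 81929) (nat_lit 20) (.e (nat_lit 1835) (nat_lit 123) (.e (nat_lit 548889) (nat_lit 9) (.e (nat_lit 65624) (nat_lit 12) .nil)))) .nil))) (.nd (nat_lit 5) 
(.lf (nat_lit 207386) (.g (nat_lit 4983) (.e (nat_lit 81928) (nat_lit 20) (.e (nat_lit 1858) (nat_lit 124) (.e (nat_lit 557093) (nat_lit 12) (.e (nat_lit 164022) (nat_lit 46) (.e (nat_lit 704738) (nat_lit 11) (.e (nat_lit 16412) (nat_lit 2) (.e (nat_lit 196672) (nat_lit 15) .nil))))))) (.g (nat_lit 7) .nil .nil))) 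
(.lf (nat_lit 207418) (.g (nat_lit 1042) (.e (nat_lit 81931) (nat_lit 20) (.e (nat_lit 1998) (nat_lit 137) (.e (nat_lit 663554) (nat_lit 0) (.e (nat_lit 1562) (nat_lit 110) (.e (nat_lit 360192) (nat_lit 4) (.e (nat_lit 220928) (nat_lit 6) .nil)))))) (.g (nat_lit 4) .nil .nil)))))) (.nd (nat_lit 3) (.nd (nat_lit 4) (.nd (nat_lit 5) 
(.lf (nat_lit 207366) (.g (nat_lit 291) (.e (nat_lit 89856) (nat_lit 19) (.e (nat_lit 491585) (nat_lit 29) (.e (nat_lit 442395) (nat_lit 20) (.e (nat_lit 3282) (nat_lit 200) (.e (nat_lit 564992) (nat_lit 6) .nil))))) .nil)) 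
(.lf (nat_lit 207398) (.g (nat_lit 1600) (.e (nat_lit 81928) (nat_lit 20) (.e (nat_lit 2270) (nat_lit 149) (.e (nat_lit 761868) (nat_lit 5) (.e (nat_lit 1597) (nat_lit 111) (.e (nat_lit 360488) (nat_lit 20) (.e (nat_lit 769792) (nat_lit 10) .nil)))))) (.g (nat_lit 5) .nil .nil)))) (.nd (nat_lit 5) 
(.lf (nat_lit 207382) (.g (nat_lit 2722) (.e (nat_lit 81928) (nat_lit 20) (.e (nat_lit 1848) (nat_lit 124) (.e (nat_lit 557087) (nat_lit 11) (.e (nat_lit 24617) (nat_lit 7) (.e (nat_lit 319504) (nat_lit 10) .nil))))) .nil)) 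
(.lf (nat_lit 207414) (.g (nat_lit 165) (.e (nat_lit 81931) (nat_lit 20) (.e (nat_lit 1994) (nat_lit 137) (.e (nat_lit 663569) (nat_lit 6) .nil))) .nil)))) (.nd (nat_lit 4) (.nd (nat_lit 5) 
(.lf (nat_lit 207374) (.g (nat_lit 2711) (.e (nat_lit 81928) (nat_lit 20) (.e (nat_lit 1036) (nat_lit 81) (.e (nat_lit 7270) (nat_lit 385) (.e (nat_lit 122919) (nat_lit 15) (.e (nat_lit 360451) (nat_lit 0) (.e (nat_lit 7124) (nat_lit 382) (.e (nat_lit 7936) (nat_lit 90) .nil))))))) (.g (nat_lit 6) .nil .nil))) 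
(.lf (nat_lit 207406) (.g (nat_lit 2341) (.e (nat_lit 81930) (nat_lit 20) (.e (nat_lit 1822) (nat_lit 121) (.e (nat_lit 532504) (nat_lit 1) (.e (nat_lit 57851) (nat_lit 252) (.e (nat_lit 57364) (nat_lit 1) .nil))))) .nil))) (.nd (nat_lit 5) 
(.lf (nat_lit 207390) (.g (nat_lit 460) (.e (nat_lit 81928) (nat_lit 20) (.e (nat_lit 2003) (nat_lit 138) (.e (nat_lit 671764) (nat_lit 6) (.e (nat_lit 81943) (nat_lit 20) .nil)))) .nil)) 
(.lf (nat_lit 207422) (.g (nat_lit 1061) (.e (nat_lit 81931) (nat_lit 20) (.e (nat_lit 1998) (nat_lit 137) (.e (nat_lit 663554) (nat_lit 0) (.e (nat_lit 1572) (nat_lit 110) (.e (nat_lit 360192) (nat_lit 4) (.e (nat_lit 220928) (nat_lit 6) .nil)))))) (.g (nat_lit 4) .nil .nil)))))))) (.nd (nat_lit 1) (.nd (nat_lit 2) (.nd (nat_lit 3) (.nd (nat_lit 4) (.nd (nat_lit 5) 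
(.lf (nat_lit 207361) (.g (nat_lit 101) (.e (nat_lit 89856) (nat_lit 19) (.e (nat_lit 491585) (nat_lit 29) (.e (nat_lit 442375) (nat_lit 0) .nil))) .nil)) 
(.lf (nat_lit 207393) (.g (nat_lit 590) (.e (nat_lit 81928) (nat_lit 20) (.e (nat_lit 2270) (nat_lit 149) (.e (nat_lit 761868) (nat_lit 5) (.e (nat_lit 1582) (nat_lit 111) .nil)))) .nil))) (.nd (nat_lit 5) 
(.lf (nat_lit 207377) (.g (nat_lit 1519) (.e (nat_lit 81928) (nat_lit 20) (.e (nat_lit 1788) (nat_lit 119) (.e (nat_lit 516139) (nat_lit 7) (.e (nat_lit 417536) (nat_lit 18) .nil)))) .nil)) 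
(.lf (nat_lit 207409) (.g (nat_lit 64) (.e (nat_lit 81931) (nat_lit 20) (.e (nat_lit 972) (nat_lit 81) (.e (nat_lit 5954) (nat_lit 322) .nil))) .nil)))) (.nd (nat_lit 4) (.nd (nat_lit 5) 
(.lf (nat_lit 207369) (.g (nat_lit 155) (.e (nat_lit 89856) (nat_lit 19) (.e (nat_lit 491585) (nat_lit 29) (.e (nat_lit 442398) (nat_lit 20) (.e (nat_lit 3282) (nat_lit 200) (.e (nat_lit 564992) (nat_lit 6) .nil))))) .nil)) 
(.lf (nat_lit 207401) (.g (nat_lit 1390) (.e (nat_lit 81928) (nat_lit 20) (.e (nat_lit 2370) (nat_lit 154) (.e (nat_lit 810752) (nat_lit 14) (.e (nat_lit 360451) (nat_lit 0) (.e (nat_lit 7124) (nat_lit 382) (.e (nat_lit 7936) (nat_lit 90) .nil)))))) (.g (nat_lit 5) .nil .nil)))) (.nd (nat_lit 5) 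
(.lf (nat_lit 207385) (.g (nat_lit 1844) (.e (nat_lit 81928) (nat_lit 20) (.e (nat_lit 1858) (nat_lit 124) (.e (nat_lit 557093) (nat_lit 12) (.e (nat_lit 164022) (nat_lit 46) (.e (nat_lit 704736) (nat_lit 11) .nil))))) .nil)) 
(.lf (nat_lit 207417) (.g (nat_lit 684) (.e (nat_lit 81931) (nat_lit 20) (.e (nat_lit 1998) (nat_lit 137) (.e (nat_lit 663554) (nat_lit 0) (.e (nat_lit 1559) (nat_lit 110) .nil)))) .nil))))) (.nd (nat_lit 3) (.nd (nat_lit 4) (.nd (nat_lit 5) 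
(.lf (nat_lit 207365) (.g (nat_lit 335) (.e (nat_lit 89856) (nat_lit 19) (.e (nat_lit 491585) (nat_lit 29) (.e (nat_lit 442395) (nat_lit 20) (.e (nat_lit 3281) (nat_lit 200) (.e (nat_lit 564992) (nat_lit 6) .nil))))) .nil)) 
(.lf (nat_lit 207397) (.g (nat_lit 1089) (.e (nat_lit 81928) (nat_lit 20) (.e (nat_lit 2270) (nat_lit 149) (.e (nat_lit 761868) (nat_lit 5) (.e (nat_lit 1597) (nat_lit 111) (.e (nat_lit 368384) (nat_lit 0) .nil))))) .nil))) (.nd (nat_lit 5) 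
(.lf (nat_lit 207381) (.g (nat_lit 2914) (.e (nat_lit 81928) (nat_lit 20) (.e (nat_lit 1842) (nat_lit 123) (.e (nat_lit 548889) (nat_lit 9) (.e (nat_lit 65624) (nat_lit 12) .nil)))) .nil)) 
(.lf (nat_lit 207413) (.g (nat_lit 2329) (.e (nat_lit 81931) (nat_lit 20) (.e (nat_lit 1994) (nat_lit 137) (.e (nat_lit 663567) (nat_lit 4) (.e (nat_lit 65624) (nat_lit 12) (.e (nat_lit 385093) (nat_lit 49) (.e (nat_lit 778326) (nat_lit 6) .nil)))))) (.g (nat_lit 6) .nil .nil))))) (.nd (nat_lit 4) (.nd (nat_lit 5) 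
(.lf (nat_lit 207373) (.g (nat_lit 1691) (.e (nat_lit 81928) (nat_lit 20) (.e (nat_lit 1036) (nat_lit 81) (.e (nat_lit 7270) (nat_lit 385) (.e (nat_lit 122919) (nat_lit 15) (.e (nat_lit 360450) (nat_lit 0) .nil))))) .nil)) 
(.lf (nat_lit 207405) (.g (nat_lit 3216) (.e (nat_lit 81930) (nat_lit 20) (.e (nat_lit 1819) (nat_lit 121) (.e (nat_lit 532499) (nat_lit 1) (.e (nat_lit 57847) (nat_lit 252) (.e (nat_lit 57365) (nat_lit 1) .nil))))) .nil))) (.nd (nat_lit 5) 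
(.lf (nat_lit 207389) (.g (nat_lit 3146) (.e (nat_lit 81928) (nat_lit 20) (.e (nat_lit 1968) (nat_lit 135) (.e (nat_lit 647203) (nat_lit 14) (.e (nat_lit 1349) (nat_lit 102) (.e (nat_lit 286759) (nat_lit 12) (.e (nat_lit 385094) (nat_lit 49) (.e (nat_lit 778327) (nat_lit 6) .nil))))))) (.g (nat_lit 6) .nil .nil))) 
(.lf (nat_lit 207421) (.g (nat_lit 1033) (.e (nat_lit 81931) (nat_lit 20) (.e (nat_lit 1998) (nat_lit 137) (.e (nat_lit 663554) (nat_lit 0) (.e (nat_lit 1569) (nat_lit 110) (.e (nat_lit 360192) (nat_lit 4) (.e (nat_lit 220928) (nat_lit 6) .nil)))))) (.g (nat_lit 4) .nil .nil))))))) (.nd (nat_lit 2) (.nd (nat_lit 3) (.nd (nat_lit 4) (.nd (nat_lit 5) 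
(.lf (nat_lit 207363) (.g (nat_lit 559) (.e (nat_lit 89856) (nat_lit 19) (.e (nat_lit 491585) (nat_lit 29) (.e (nat_lit 442379) (nat_lit 0) (.e (nat_lit 7936) (nat_lit 117) .nil)))) .nil)) 
(.lf (nat_lit 207395) (.g (nat_lit 1150) (.e (nat_lit 81928) (nat_lit 20) (.e (nat_lit 2270) (nat_lit 149) (.e (nat_lit 761868) (nat_lit 5) (.e (nat_lit 1585) (nat_lit 111) (.e (nat_lit 360488) (nat_lit 20) (.e (nat_lit 769792) (nat_lit 10) .nil)))))) (.g (nat_lit 5) .nil .nil)))) (.nd (nat_lit 5) 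
(.lf (nat_lit 207379) (.g (nat_lit 2735) (.e (nat_lit 81928) (nat_lit 20) (.e (nat_lit 1840) (nat_lit 123) (.e (nat_lit 548889) (nat_lit 9) (.e (nat_lit 65624) (nat_lit 12) (.e (nat_lit 385074) (nat_lit 31) .nil))))) .nil)) 
(.lf (nat_lit 207411) (.g (nat_lit 2148) (.e (nat_lit 81931) (nat_lit 20) (.e (nat_lit 1874) (nat_lit 126) (.e (nat_lit 573474) (nat_lit 12) (.e (nat_lit 57528) (nat_lit 46) .nil)))) .nil)))) (.nd (nat_lit 4) (.nd (nat_lit 5) 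
(.lf (nat_lit 207371) (.g (nat_lit 256) (.e (nat_lit 89856) (nat_lit 19) (.e (nat_lit 491585) (nat_lit 29) (.e (nat_lit 442399) (nat_lit 20) (.e (nat_lit 3282) (nat_lit 200) (.e (nat_lit 564992) (nat_lit 6) .nil))))) .nil)) 
(.lf (nat_lit 207403) (.g (nat_lit 2934) (.e (nat_lit 81929) (nat_lit 20) (.e (nat_lit 2309) (nat_lit 151) (.e (nat_lit 778465) (nat_lit 11) (.e (nat_lit 24640) (nat_lit 10) (.e (nat_lit 344174) (nat_lit 42) (.e (nat_lit 769792) (nat_lit 10) .nil)))))) (.g (nat_lit 5) .nil .nil)))) (.nd (nat_lit 5) 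
(.lf (nat_lit 207387) (.g (nat_lit 2337) (.e (nat_lit 81928) (nat_lit 20) (.e (nat_lit 1859) (nat_lit 124) (.e (nat_lit 557091) (nat_lit 12) (.e (nat_lit 164022) (nat_lit 46) (.e (nat_lit 704737) (nat_lit 11) .nil))))) .nil)) 
(.lf (nat_lit 207419) (.g (nat_lit 895) (.e (nat_lit 81931) (nat_lit 20) (.e (nat_lit 1998) (nat_lit 137) (.e (nat_lit 663554) (nat_lit 0) (.e (nat_lit 1567) (nat_lit 110) (.e (nat_lit 360192) (nat_lit 4) .nil))))) .nil))))) (.nd (nat_lit 3) (.nd (nat_lit 4) (.nd (nat_lit 5) 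
(.lf (nat_lit 207367) (.g (nat_lit 195) (.e (nat_lit 89856) (nat_lit 19) (.e (nat_lit 491585) (nat_lit 29) (.e (nat_lit 442396) (nat_lit 20) (.e (nat_lit 3281) (nat_lit 200) (.e (nat_lit 564992) (nat_lit 6) .nil))))) .nil)) 
(.lf (nat_lit 207399) (.g (nat_lit 1046) (.e (nat_lit 81928) (nat_lit 20) (.e (nat_lit 2283) (nat_lit 150) (.e (nat_lit 770072) (nat_lit 8) (.e (nat_lit 65617) (nat_lit 10) .nil)))) .nil))) (.nd (nat_lit 5) 
(.lf (nat_lit 207383) (.g (nat_lit 2455) (.e (nat_lit 81928) (nat_lit 20) (.e (nat_lit 1848) (nat_lit 124) (.e (nat_lit 557087) (nat_lit 11) (.e (nat_lit 24617) (nat_lit 7) (.e (nat_lit 319505) (nat_lit 10) .nil))))) .nil)) 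
(.lf (nat_lit 207415) (.g (nat_lit 561) (.e (nat_lit 81931) (nat_lit 20) (.e (nat_lit 1994) (nat_lit 137) (.e (nat_lit 663569) (nat_lit 6) (.e (nat_lit 81922) (nat_lit 0) .nil)))) .nil)))) (.nd (nat_lit 4) (.nd (nat_lit 5) 
(.lf (nat_lit 207375) (.g (nat_lit 524) (.e (nat_lit 81928) (nat_lit 20) (.e (nat_lit 1788) (nat_lit 119) (.e (nat_lit 516139) (nat_lit 7) .nil))) .nil)) 
(.lf (nat_lit 207407) (.g (nat_lit 2334) (.e (nat_lit 81931) (nat_lit 20) (.e (nat_lit 970) (nat_lit 81) (.e (nat_lit 5954) (nat_lit 322) (.e (nat_lit 57424) (nat_lit 14) (.e (nat_lit 352270) (nat_lit 8) (.e (nat_lit 270080) (nat_lit 6) .nil)))))) (.g (nat_lit 5) .nil .nil)))) (.nd (nat_lit 5) 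
(.lf (nat_lit 207391) (.g (nat_lit 1041) (.e (nat_lit 81928) (nat_lit 20) (.e (nat_lit 2003) (nat_lit 138) (.e (nat_lit 671764) (nat_lit 6) (.e (nat_lit 81946) (nat_lit 20) (.e (nat_lit 2005) (nat_lit 138) .nil))))) .nil)) 
(.lf (nat_lit 207423) (.g (nat_lit 718) (.e (nat_lit 81931) (nat_lit 20) (.e (nat_lit 1998) (nat_lit 137) (.e (nat_lit 663554) (nat_lit 0) (.e (nat_lit 1573) (nat_lit 110) (.e (nat_lit 360192) (nat_lit 4) .nil))))) .nil))))))))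

noncomputable def tv2733 : DT := (.nd (nat_lit 0) (.nd (nat_lit 1) (.nd (nat_lit 2) (.nd (nat_lit 3) (.nd (nat_lit 4) (.nd (nat_lit 5) 
(.lf (nat_lit 207424) (.g (nat_lit 945) (.e (nat_lit 81931) (nat_lit 20) (.e (nat_lit 1998) (nat_lit 137) (.e (nat_lit 663554) (nat_lit 0) (.e (nat_lit 1575) (nat_lit 110) (.e (nat_lit 360192) (nat_lit 4) .nil))))) .nil)) 
(.lf (nat_lit 207456) (.g (nat_lit 1111) (.e (nat_lit 81931) (nat_lit 20) (.e (nat_lit 2374) (nat_lit 154) (.e (nat_lit 810752) (nat_lit 14) (.e (nat_lit 360451) (nat_lit 0) (.e (nat_lit 7119) (nat_lit 382) (.e (nat_lit 7936) (nat_lit 90) .nil)))))) (.g (nat_lit 5) .nil .nil)))) (.nd (nat_lit 5) 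
(.lf (nat_lit 207440) (.g (nat_lit 3132) (.e (nat_lit 81931) (nat_lit 20) (.e (nat_lit 1999) (nat_lit 137) (.e (nat_lit 663567) (nat_lit 4) (.e (nat_lit 65598) (nat_lit 9) (.e (nat_lit 335997) (nat_lit 1) (.e (nat_lit 57872) (nat_lit 264) (.e (nat_lit 1221) (nat_lit 90) .nil))))))) (.g (nat_lit 7) .nil .nil))) 
(.lf (nat_lit 207472) (.g (nat_lit 900) (.e (nat_lit 81931) (nat_lit 20) (.e (nat_lit 2384) (nat_lit 155) (.e (nat_lit 811011) (nat_lit 0) (.e (nat_lit 5776) (nat_lit 317) (.e (nat_lit 180248) (nat_lit 9) (.e (nat_lit 573184) (nat_lit 6) .nil)))))) (.g (nat_lit 5) .nil .nil))))) (.nd (nat_lit 4) (.nd (nat_lit 5) 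
(.lf (nat_lit 207432) (.g (nat_lit 739) (.e (nat_lit 81931) (nat_lit 20) (.e (nat_lit 1998) (nat_lit 137) (.e (nat_lit 663554) (nat_lit 0) (.e (nat_lit 1596) (nat_lit 111) .nil)))) .nil)) 
(.lf (nat_lit 207464) (.g (nat_lit 484) (.e (nat_lit 81931) (nat_lit 20) (.e (nat_lit 2383) (nat_lit 155) (.e (nat_lit 811012) (nat_lit 0) (.e (nat_lit 5779) (nat_lit 317) (.e (nat_lit 188160) (nat_lit 8) (.e (nat_lit 564992) (nat_lit 6) .nil)))))) (.g (nat_lit 4) .nil .nil)))) (.nd (nat_lit 5) 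
(.lf (nat_lit 207448) (.g (nat_lit 817) (.e (nat_lit 81931) (nat_lit 20) (.e (nat_lit 2010) (nat_lit 138) (.e (nat_lit 671762) (nat_lit 4) (.e (nat_lit 65619) (nat_lit 10) .nil)))) .nil)) 
(.lf (nat_lit 207480) (.g (nat_lit 510) (.e (nat_lit 81931) (nat_lit 20) (.e (nat_lit 2384) (nat_lit 155) (.e (nat_lit 811012) (nat_lit 0) (.e (nat_lit 5777) (nat_lit 317) (.e (nat_lit 188160) (nat_lit 8) (.e (nat_lit 564992) (nat_lit 6) .nil)))))) (.g (nat_lit 4) .nil .nil)))))) (.nd (nat_lit 3) (.nd (nat_lit 4) (.nd (nat_lit 5) 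
(.lf (nat_lit 207428) (.g (nat_lit 1569) (.e (nat_lit 81931) (nat_lit 20) (.e (nat_lit 1998) (nat_lit 137) (.e (nat_lit 663554) (nat_lit 0) (.e (nat_lit 1589) (nat_lit 111) (.e (nat_lit 368384) (nat_lit 0) .nil))))) .nil)) 
(.lf (nat_lit 207460) (.g (nat_lit 471) (.e (nat_lit 81931) (nat_lit 20) (.e (nat_lit 2383) (nat_lit 155) (.e (nat_lit 811011) (nat_lit 0) (.e (nat_lit 5776) (nat_lit 317) (.e (nat_lit 188160) (nat_lit 8) (.e (nat_lit 564992) (nat_lit 6) .nil)))))) (.g (nat_lit 4) .nil .nil)))) (.nd (nat_lit 5) 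
(.lf (nat_lit 207444) (.g (nat_lit 877) (.e (nat_lit 81931) (nat_lit 20) (.e (nat_lit 1999) (nat_lit 137) (.e (nat_lit 663569) (nat_lit 6) (.e (nat_lit 81922) (nat_lit 0) (.e (nat_lit 3629) (nat_lit 227) .nil))))) .nil)) 
(.lf (nat_lit 207476) (.g (nat_lit 941) (.e (nat_lit 81931) (nat_lit 20) (.e (nat_lit 2384) (nat_lit 155) (.e (nat_lit 811011) (nat_lit 0) (.e (nat_lit 5779) (nat_lit 317) (.e (nat_lit 180248) (nat_lit 9) (.e (nat_lit 573184) (nat_lit 6) .nil)))))) (.g (nat_lit 5) .nil .nil))))) (.nd (nat_lit 4) (.nd (nat_lit 5) 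
(.lf (nat_lit 207436) (.g (nat_lit 332) (.e (nat_lit 81931) (nat_lit 20) (.e (nat_lit 1998) (nat_lit 137) (.e (nat_lit 663569) (nat_lit 6) (.e (nat_lit 89856) (nat_lit 4) .nil)))) .nil)) 
(.lf (nat_lit 207468) (.g (nat_lit 1740) (.e (nat_lit 81931) (nat_lit 20) (.e (nat_lit 2383) (nat_lit 155) (.e (nat_lit 811030) (nat_lit 10) (.e (nat_lit 311325) (nat_lit 9) (.e (nat_lit 426432) (nat_lit 17) (.e (nat_lit 98048) (nat_lit 6) .nil)))))) (.g (nat_lit 5) .nil .nil)))) (.nd (nat_lit 5) 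
(.lf (nat_lit 207452) (.g (nat_lit 840) (.e (nat_lit 81931) (nat_lit 20) (.e (nat_lit 2372) (nat_lit 154) (.e (nat_lit 810752) (nat_lit 14) (.e (nat_lit 360451) (nat_lit 0) (.e (nat_lit 7119) (nat_lit 382) (.e (nat_lit 7936) (nat_lit 90) .nil)))))) (.g (nat_lit 4) .nil .nil))) 
(.lf (nat_lit 207484) (.g (nat_lit 699) (.e (nat_lit 81931) (nat_lit 20) (.e (nat_lit 2384) (nat_lit 155) (.e (nat_lit 811012) (nat_lit 0) (.e (nat_lit 5780) (nat_lit 317) (.e (nat_lit 180248) (nat_lit 9) (.e (nat_lit 573184) (nat_lit 6) .nil)))))) (.g (nat_lit 5) .nil .nil))))))) (.nd (nat_lit 2) (.nd (nat_lit 3) (.nd (nat_lit 4) (.nd (nat_lit 5) 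
(.lf (nat_lit 207426) (.g (nat_lit 1611) (.e (nat_lit 81931) (nat_lit 20) (.e (nat_lit 1998) (nat_lit 137) (.e (nat_lit 663554) (nat_lit 0) (.e (nat_lit 1586) (nat_lit 111) (.e (nat_lit 368384) (nat_lit 0) (.e (nat_lit 5906) (nat_lit 320) (.e (nat_lit 1221) (nat_lit 90) .nil))))))) (.g (nat_lit 4) .nil .nil))) 
(.lf (nat_lit 207458) (.g (nat_lit 1713) (.e (nat_lit 81931) (nat_lit 20) (.e (nat_lit 2374) (nat_lit 154) (.e (nat_lit 810752) (nat_lit 14) (.e (nat_lit 360451) (nat_lit 0) (.e (nat_lit 7124) (nat_lit 382) (.e (nat_lit 7936) (nat_lit 90) .nil)))))) (.g (nat_lit 5) .nil .nil)))) (.nd (nat_lit 5) 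
(.lf (nat_lit 207442) (.g (nat_lit 2090) (.e (nat_lit 81931) (nat_lit 20) (.e (nat_lit 1999) (nat_lit 137) (.e (nat_lit 663567) (nat_lit 4) (.e (nat_lit 65624) (nat_lit 12) (.e (nat_lit 385093) (nat_lit 49) (.e (nat_lit 786176) (nat_lit 6) .nil)))))) (.g (nat_lit 5) .nil .nil))) 
(.lf (nat_lit 207474) (.g (nat_lit 742) (.e (nat_lit 81931) (nat_lit 20) (.e (nat_lit 2384) (nat_lit 155) (.e (nat_lit 811011) (nat_lit 0) (.e (nat_lit 5777) (nat_lit 317) (.e (nat_lit 180248) (nat_lit 9) (.e (nat_lit 573184) (nat_lit 6) .nil)))))) (.g (nat_lit 5) .nil .nil))))) (.nd (nat_lit 4) (.nd (nat_lit 5) 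
(.lf (nat_lit 207434) (.g (nat_lit 2093) (.e (nat_lit 81931) (nat_lit 20) (.e (nat_lit 1998) (nat_lit 137) (.e (nat_lit 663567) (nat_lit 4) (.e (nat_lit 65624) (nat_lit 12) (.e (nat_lit 385093) (nat_lit 49) (.e (nat_lit 778326) (nat_lit 6) .nil)))))) (.g (nat_lit 6) .nil .nil))) 
(.lf (nat_lit 207466) (.g (nat_lit 1388) (.e (nat_lit 81931) (nat_lit 20) (.e (nat_lit 2383) (nat_lit 155) (.e (nat_lit 811030) (nat_lit 10) (.e (nat_lit 311324) (nat_lit 9) (.e (nat_lit 426428) (nat_lit 17) (.e (nat_lit 98048) (nat_lit 6) .nil)))))) (.g (nat_lit 5) .nil .nil)))) (.nd (nat_lit 5) 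
(.lf (nat_lit 207450) (.g (nat_lit 1623) (.e (nat_lit 81931) (nat_lit 20) (.e (nat_lit 2347) (nat_lit 151) (.e (nat_lit 778465) (nat_lit 11) (.e (nat_lit 24640) (nat_lit 10) .nil)))) .nil)) 
(.lf (nat_lit 207482) (.g (nat_lit 678) (.e (nat_lit 81931) (nat_lit 20) (.e (nat_lit 2384) (nat_lit 155) (.e (nat_lit 811012) (nat_lit 0) (.e (nat_lit 5779) (nat_lit 317) (.e (nat_lit 188160) (nat_lit 8) (.e (nat_lit 564992) (nat_lit 6) .nil)))))) (.g (nat_lit 4) .nil .nil)))))) (.nd (nat_lit 3) (.nd (nat_lit 4) (.nd (nat_lit 5) 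
(.lf (nat_lit 207430) (.g (nat_lit 3566) (.e (nat_lit 81931) (nat_lit 20) (.e (nat_lit 1998) (nat_lit 137) (.e (nat_lit 663554) (nat_lit 0) (.e (nat_lit 1595) (nat_lit 111) (.e (nat_lit 360453) (nat_lit 0) (.e (nat_lit 5907) (nat_lit 320) (.e (nat_lit 1221) (nat_lit 90) .nil))))))) (.g (nat_lit 0) .nil .nil))) 
(.lf (nat_lit 207462) (.g (nat_lit 546) (.e (nat_lit 81931) (nat_lit 20) (.e (nat_lit 2383) (nat_lit 155) (.e (nat_lit 811011) (nat_lit 0) (.e (nat_lit 5779) (nat_lit 317) (.e (nat_lit 188160) (nat_lit 8) (.e (nat_lit 564992) (nat_lit 6) .nil)))))) (.g (nat_lit 4) .nil .nil)))) (.nd (nat_lit 5) 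
(.lf (nat_lit 207446) (.g (nat_lit 611) (.e (nat_lit 81931) (nat_lit 20) (.e (nat_lit 1999) (nat_lit 137) (.e (nat_lit 663569) (nat_lit 6) (.e (nat_lit 89856) (nat_lit 8) .nil)))) .nil)) 
(.lf (nat_lit 207478) (.g (nat_lit 597) (.e (nat_lit 81931) (nat_lit 20) (.e (nat_lit 2384) (nat_lit 155) (.e (nat_lit 811012) (nat_lit 0) (.e (nat_lit 5776) (nat_lit 317) (.e (nat_lit 188160) (nat_lit 8) (.e (nat_lit 564992) (nat_lit 6) .nil)))))) (.g (nat_lit 4) .nil .nil))))) (.nd (nat_lit 4) (.nd (nat_lit 5) 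
(.lf (nat_lit 207438) (.g (nat_lit 1543) (.e (nat_lit 81931) (nat_lit 20) (.e (nat_lit 1998) (nat_lit 137) (.e (nat_lit 663569) (nat_lit 6) (.e (nat_lit 81943) (nat_lit 20) (.e (nat_lit 2005) (nat_lit 138) (.e (nat_lit 671764) (nat_lit 6) .nil)))))) (.g (nat_lit 0) .nil .nil))) 
(.lf (nat_lit 207470) (.g (nat_lit 688) (.e (nat_lit 81931) (nat_lit 20) (.e (nat_lit 2384) (nat_lit 155) (.e (nat_lit 811009) (nat_lit 0) (.e (nat_lit 5777) (nat_lit 317) (.e (nat_lit 180248) (nat_lit 9) (.e (nat_lit 573184) (nat_lit 6) .nil)))))) (.g (nat_lit 5) .nil .nil)))) (.nd (nat_lit 5) 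
(.lf (nat_lit 207454) (.g (nat_lit 1319) (.e (nat_lit 81931) (nat_lit 20) (.e (nat_lit 2374) (nat_lit 154) (.e (nat_lit 810752) (nat_lit 14) (.e (nat_lit 360450) (nat_lit 0) (.e (nat_lit 7119) (nat_lit 382) (.e (nat_lit 7936) (nat_lit 90) .nil)))))) (.g (nat_lit 5) .nil .nil))) 
(.lf (nat_lit 207486) (.g (nat_lit 1822) (.e (nat_lit 81931) (nat_lit 20) (.e (nat_lit 2384) (nat_lit 155) (.e (nat_lit 811028) (nat_lit 9) (.e (nat_lit 303127) (nat_lit 9) (.e (nat_lit 426428) (nat_lit 17) (.e (nat_lit 98048) (nat_lit 6) .nil)))))) (.g (nat_lit 5) .nil .nil)))))))) (.nd (nat_lit 1) (.nd (nat_lit 2) (.nd (nat_lit 3) (.nd (nat_lit 4) (.nd (nat_lit 5) 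
(.lf (nat_lit 207425) (.g (nat_lit 1414) (.e (nat_lit 81931) (nat_lit 20) (.e (nat_lit 1998) (nat_lit 137) (.e (nat_lit 663554) (nat_lit 0) (.e (nat_lit 1586) (nat_lit 111) (.e (nat_lit 368384) (nat_lit 0) .nil))))) .nil)) 
(.lf (nat_lit 207457) (.g (nat_lit 1859) (.e (nat_lit 81931) (nat_lit 20) (.e (nat_lit 2374) (nat_lit 154) (.e (nat_lit 810752) (nat_lit 14) (.e (nat_lit 360451) (nat_lit 0) (.e (nat_lit 7122) (nat_lit 382) (.e (nat_lit 7936) (nat_lit 90) .nil)))))) (.g (nat_lit 5) .nil .nil)))) (.nd (nat_lit 5) 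
(.lf (nat_lit 207441) (.g (nat_lit 2071) (.e (nat_lit 81931) (nat_lit 20) (.e (nat_lit 1999) (nat_lit 137) (.e (nat_lit 663567) (nat_lit 4) (.e (nat_lit 65622) (nat_lit 12) (.e (nat_lit 385093) (nat_lit 49) (.e (nat_lit 786176) (nat_lit 6) .nil)))))) (.g (nat_lit 5) .nil .nil))) 
(.lf (nat_lit 207473) (.g (nat_lit 570) (.e (nat_lit 81931) (nat_lit 20) (.e (nat_lit 2384) (nat_lit 155) (.e (nat_lit 811011) (nat_lit 0) (.e (nat_lit 5777) (nat_lit 317) (.e (nat_lit 188160) (nat_lit 8) (.e (nat_lit 564992) (nat_lit 6) .nil)))))) (.g (nat_lit 4) .nil .nil))))) (.nd (nat_lit 4) (.nd (nat_lit 5) 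
(.lf (nat_lit 207433) (.g (nat_lit 677) (.e (nat_lit 81931) (nat_lit 20) (.e (nat_lit 1998) (nat_lit 137) (.e (nat_lit 663554) (nat_lit 0) (.e (nat_lit 1616) (nat_lit 113) .nil)))) .nil)) 
(.lf (nat_lit 207465) (.g (nat_lit 1621) (.e (nat_lit 81931) (nat_lit 20) (.e (nat_lit 2383) (nat_lit 155) (.e (nat_lit 811027) (nat_lit 9) (.e (nat_lit 303127) (nat_lit 9) (.e (nat_lit 426428) (nat_lit 17) (.e (nat_lit 98048) (nat_lit 6) .nil)))))) (.g (nat_lit 5) .nil .nil)))) (.nd (nat_lit 5) 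
(.lf (nat_lit 207449) (.g (nat_lit 1042) (.e (nat_lit 81931) (nat_lit 20) (.e (nat_lit 2274) (nat_lit 150) (.e (nat_lit 770074) (nat_lit 10) (.e (nat_lit 81938) (nat_lit 20) (.e (nat_lit 2280) (nat_lit 150) .nil))))) .nil)) 
(.lf (nat_lit 207481) (.g (nat_lit 687) (.e (nat_lit 81931) (nat_lit 20) (.e (nat_lit 2384) (nat_lit 155) (.e (nat_lit 811012) (nat_lit 0) (.e (nat_lit 5777) (nat_lit 317) (.e (nat_lit 180248) (nat_lit 9) (.e (nat_lit 573184) (nat_lit 6) .nil)))))) (.g (nat_lit 5) .nil .nil)))))) (.nd (nat_lit 3) (.nd (nat_lit 4) (.nd (nat_lit 5) 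
(.lf (nat_lit 207429) (.g (nat_lit 731) (.e (nat_lit 81931) (nat_lit 20) (.e (nat_lit 1998) (nat_lit 137) (.e (nat_lit 663554) (nat_lit 0) (.e (nat_lit 1590) (nat_lit 111) .nil)))) .nil)) 
(.lf (nat_lit 207461) (.g (nat_lit 726) (.e (nat_lit 81931) (nat_lit 20) (.e (nat_lit 2383) (nat_lit 155) (.e (nat_lit 811011) (nat_lit 0) (.e (nat_lit 5776) (nat_lit 317) (.e (nat_lit 180248) (nat_lit 9) (.e (nat_lit 573184) (nat_lit 6) .nil)))))) (.g (nat_lit 5) .nil .nil)))) (.nd (nat_lit 5) 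
(.lf (nat_lit 207445) (.g (nat_lit 751) (.e (nat_lit 81931) (nat_lit 20) (.e (nat_lit 1999) (nat_lit 137) (.e (nat_lit 663569) (nat_lit 6) (.e (nat_lit 81924) (nat_lit 0) (.e (nat_lit 3629) (nat_lit 227) (.e (nat_lit 786176) (nat_lit 6) .nil)))))) (.g (nat_lit 4) .nil .nil))) 
(.lf (nat_lit 207477) (.g (nat_lit 745) (.e (nat_lit 81931) (nat_lit 20) (.e (nat_lit 2384) (nat_lit 155) (.e (nat_lit 811011) (nat_lit 0) (.e (nat_lit 5780) (nat_lit 317) (.e (nat_lit 180248) (nat_lit 9) (.e (nat_lit 573184) (nat_lit 6) .nil)))))) (.g (nat_lit 5) .nil .nil))))) (.nd (nat_lit 4) (.nd (nat_lit 5) 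
(.lf (nat_lit 207437) (.g (nat_lit 1556) (.e (nat_lit 81931) (nat_lit 20) (.e (nat_lit 1998) (nat_lit 137) (.e (nat_lit 663569) (nat_lit 6) (.e (nat_lit 81943) (nat_lit 20) (.e (nat_lit 2003) (nat_lit 138) (.e (nat_lit 671764) (nat_lit 6) .nil)))))) (.g (nat_lit 0) .nil .nil))) 
(.lf (nat_lit 207469) (.g (nat_lit 518) (.e (nat_lit 81931) (nat_lit 20) (.e (nat_lit 2384) (nat_lit 155) (.e (nat_lit 811009) (nat_lit 0) (.e (nat_lit 5777) (nat_lit 317) (.e (nat_lit 188160) (nat_lit 8) (.e (nat_lit 564992) (nat_lit 6) .nil)))))) (.g (nat_lit 4) .nil .nil)))) (.nd (nat_lit 5) 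
(.lf (nat_lit 207453) (.g (nat_lit 672) (.e (nat_lit 81931) (nat_lit 20) (.e (nat_lit 2374) (nat_lit 154) (.e (nat_lit 810752) (nat_lit 14) (.e (nat_lit 360449) (nat_lit 0) (.e (nat_lit 7119) (nat_lit 382) (.e (nat_lit 7936) (nat_lit 90) .nil)))))) (.g (nat_lit 4) .nil .nil))) 
(.lf (nat_lit 207485) (.g (nat_lit 1657) (.e (nat_lit 81931) (nat_lit 20) (.e (nat_lit 2384) (nat_lit 155) (.e (nat_lit 811027) (nat_lit 9) (.e (nat_lit 303127) (nat_lit 9) (.e (nat_lit 426428) (nat_lit 17) (.e (nat_lit 98048) (nat_lit 6) .nil)))))) (.g (nat_lit 5) .nil .nil))))))) (.nd (nat_lit 2) (.nd (nat_lit 3) (.nd (nat_lit 4) (.nd (nat_lit 5) 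
(.lf (nat_lit 207427) (.g (nat_lit 3931) (.e (nat_lit 81931) (nat_lit 20) (.e (nat_lit 1998) (nat_lit 137) (.e (nat_lit 663554) (nat_lit 0) (.e (nat_lit 1589) (nat_lit 111) (.e (nat_lit 360453) (nat_lit 0) (.e (nat_lit 5907) (nat_lit 320) (.e (nat_lit 1221) (nat_lit 90) .nil))))))) (.g (nat_lit 0) .nil .nil))) 
(.lf (nat_lit 207459) (.g (nat_lit 1587) (.e (nat_lit 81931) (nat_lit 20) (.e (nat_lit 2375) (nat_lit 154) (.e (nat_lit 802828) (nat_lit 13) (.e (nat_lit 352307) (nat_lit 21) (.e (nat_lit 57665) (nat_lit 152) (.e (nat_lit 7936) (nat_lit 90) .nil)))))) (.g (nat_lit 5) .nil .nil)))) (.nd (nat_lit 5) 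
(.lf (nat_lit 207443) (.g (nat_lit 226) (.e (nat_lit 81931) (nat_lit 20) (.e (nat_lit 1999) (nat_lit 137) (.e (nat_lit 663569) (nat_lit 6) .nil))) .nil)) 
(.lf (nat_lit 207475) (.g (nat_lit 723) (.e (nat_lit 81931) (nat_lit 20) (.e (nat_lit 2384) (nat_lit 155) (.e (nat_lit 811011) (nat_lit 0) (.e (nat_lit 5779) (nat_lit 317) (.e (nat_lit 188160) (nat_lit 8) (.e (nat_lit 564992) (nat_lit 6) .nil)))))) (.g (nat_lit 4) .nil .nil))))) (.nd (nat_lit 4) (.nd (nat_lit 5) 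
(.lf (nat_lit 207435) (.g (nat_lit 2196) (.e (nat_lit 81931) (nat_lit 20) (.e (nat_lit 1998) (nat_lit 137) (.e (nat_lit 663567) (nat_lit 4) (.e (nat_lit 65624) (nat_lit 12) (.e (nat_lit 385094) (nat_lit 49) (.e (nat_lit 778326) (nat_lit 6) .nil)))))) (.g (nat_lit 6) .nil .nil))) 
(.lf (nat_lit 207467) (.g (nat_lit 1419) (.e (nat_lit 81931) (nat_lit 20) (.e (nat_lit 2383) (nat_lit 155) (.e (nat_lit 811030) (nat_lit 10) (.e (nat_lit 311324) (nat_lit 9) (.e (nat_lit 426432) (nat_lit 17) (.e (nat_lit 98048) (nat_lit 6) .nil)))))) (.g (nat_lit 5) .nil .nil)))) (.nd (nat_lit 5) 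
(.lf (nat_lit 207451) (.g (nat_lit 685) (.e (nat_lit 81931) (nat_lit 20) (.e (nat_lit 2372) (nat_lit 154) (.e (nat_lit 810752) (nat_lit 14) (.e (nat_lit 360449) (nat_lit 0) (.e (nat_lit 7119) (nat_lit 382) (.e (nat_lit 7936) (nat_lit 90) .nil)))))) (.g (nat_lit 4) .nil .nil))) 
(.lf (nat_lit 207483) (.g (nat_lit 903) (.e (nat_lit 81931) (nat_lit 20) (.e (nat_lit 2384) (nat_lit 155) (.e (nat_lit 811012) (nat_lit 0) (.e (nat_lit 5779) (nat_lit 317) (.e (nat_lit 180248) (nat_lit 9) (.e (nat_lit 573184) (nat_lit 6) .nil)))))) (.g (nat_lit 5) .nil .nil)))))) (.nd (nat_lit 3) (.nd (nat_lit 4) (.nd (nat_lit 5) 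
(.lf (nat_lit 207431) (.g (nat_lit 1379) (.e (nat_lit 81931) (nat_lit 20) (.e (nat_lit 1998) (nat_lit 137) (.e (nat_lit 663554) (nat_lit 0) (.e (nat_lit 1595) (nat_lit 111) (.e (nat_lit 368384) (nat_lit 0) .nil))))) .nil)) 
(.lf (nat_lit 207463) (.g (nat_lit 493) (.e (nat_lit 81931) (nat_lit 20) (.e (nat_lit 2383) (nat_lit 155) (.e (nat_lit 811012) (nat_lit 0) (.e (nat_lit 5777) (nat_lit 317) (.e (nat_lit 180248) (nat_lit 9) (.e (nat_lit 573184) (nat_lit 6) .nil)))))) (.g (nat_lit 4) .nil .nil)))) (.nd (nat_lit 5) 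
(.lf (nat_lit 207447) (.g (nat_lit 2808) (.e (nat_lit 81931) (nat_lit 20) (.e (nat_lit 1999) (nat_lit 137) (.e (nat_lit 663569) (nat_lit 6) (.e (nat_lit 81948) (nat_lit 21) (.e (nat_lit 57872) (nat_lit 264) (.e (nat_lit 1221) (nat_lit 90) .nil)))))) (.g (nat_lit 0) .nil .nil))) 
(.lf (nat_lit 207479) (.g (nat_lit 846) (.e (nat_lit 81931) (nat_lit 20) (.e (nat_lit 2384) (nat_lit 155) (.e (nat_lit 811012) (nat_lit 0) (.e (nat_lit 5776) (nat_lit 317) (.e (nat_lit 180248) (nat_lit 9) (.e (nat_lit 573184) (nat_lit 6) .nil)))))) (.g (nat_lit 5) .nil .nil))))) (.nd (nat_lit 4) (.nd (nat_lit 5) 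
(.lf (nat_lit 207439) (.g (nat_lit 2381) (.e (nat_lit 81931) (nat_lit 20) (.e (nat_lit 1998) (nat_lit 137) (.e (nat_lit 663569) (nat_lit 6) (.e (nat_lit 81948) (nat_lit 21) (.e (nat_lit 57873) (nat_lit 264) (.e (nat_lit 1221) (nat_lit 90) .nil)))))) (.g (nat_lit 0) .nil .nil))) 
(.lf (nat_lit 207471) (.g (nat_lit 654) (.e (nat_lit 81931) (nat_lit 20) (.e (nat_lit 2384) (nat_lit 155) (.e (nat_lit 811011) (nat_lit 0) (.e (nat_lit 5776) (nat_lit 317) (.e (nat_lit 188160) (nat_lit 8) (.e (nat_lit 564992) (nat_lit 6) .nil)))))) (.g (nat_lit 4) .nil .nil)))) (.nd (nat_lit 5) 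
(.lf (nat_lit 207455) (.g (nat_lit 1866) (.e (nat_lit 81931) (nat_lit 20) (.e (nat_lit 2374) (nat_lit 154) (.e (nat_lit 810752) (nat_lit 14) (.e (nat_lit 360450) (nat_lit 0) (.e (nat_lit 7122) (nat_lit 382) (.e (nat_lit 7936) (nat_lit 90) .nil)))))) (.g (nat_lit 5) .nil .nil))) 
(.lf (nat_lit 207487) (.g (nat_lit 2170) (.e (nat_lit 81933) (nat_lit 20) (.e (nat_lit 1878) (nat_lit 126) (.e (nat_lit 573474) (nat_lit 12) (.e (nat_lit 57528) (nat_lit 46) .nil)))) .nil))))))))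

noncomputable def tv2734 : DT := (.nd (nat_lit 0) (.nd (nat_lit 1) (.nd (nat_lit 2) (.nd (nat_lit 3) (.nd (nat_lit 4) (.nd (nat_lit 5) 
(.lf (nat_lit 207488) (.g (nat_lit 1261) (.e (nat_lit 81933) (nat_lit 20) (.e (nat_lit 1879) (nat_lit 126) (.e (nat_lit 573445) (nat_lit 0) (.e (nat_lit 3011) (nat_lit 187) (.e (nat_lit 450562) (nat_lit 0) (.e (nat_lit 6808) (nat_lit 365) (.e (nat_lit 7936) (nat_lit 90) .nil))))))) (.g (nat_lit 6) .nil .nil))) 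
(.lf (nat_lit 207520) (.g (nat_lit 1189) (.e (nat_lit 81933) (nat_lit 20) (.e (nat_lit 1998) (nat_lit 137) (.e (nat_lit 663554) (nat_lit 0) (.e (nat_lit 1598) (nat_lit 111) (.e (nat_lit 360455) (nat_lit 0) .nil))))) .nil))) (.nd (nat_lit 5) 
(.lf (nat_lit 207504) (.g (nat_lit 962) (.e (nat_lit 81933) (nat_lit 20) (.e (nat_lit 1998) (nat_lit 137) (.e (nat_lit 663554) (nat_lit 0) (.e (nat_lit 1576) (nat_lit 110) (.e (nat_lit 360192) (nat_lit 4) (.e (nat_lit 220928) (nat_lit 6) .nil)))))) (.g (nat_lit 4) .nil .nil))) 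
(.lf (nat_lit 207536) (.g (nat_lit 1168) (.e (nat_lit 81933) (nat_lit 20) (.e (nat_lit 1998) (nat_lit 137) (.e (nat_lit 663569) (nat_lit 6) (.e (nat_lit 81957) (nat_lit 24) (.e (nat_lit 123185) (nat_lit 264) (.e (nat_lit 7936) (nat_lit 90) .nil)))))) (.g (nat_lit 5) .nil .nil))))) (.nd (nat_lit 4) (.nd (nat_lit 5) 
(.lf (nat_lit 207496) (.g (nat_lit 976) (.e (nat_lit 81933) (nat_lit 20) (.e (nat_lit 1998) (nat_lit 137) (.e (nat_lit 663554) (nat_lit 0) (.e (nat_lit 1567) (nat_lit 110) (.e (nat_lit 360192) (nat_lit 4) (.e (nat_lit 220928) (nat_lit 6) .nil)))))) (.g (nat_lit 4) .nil .nil))) 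
(.lf (nat_lit 207528) (.g (nat_lit 1844) (.e (nat_lit 81933) (nat_lit 20) (.e (nat_lit 1998) (nat_lit 137) (.e (nat_lit 663567) (nat_lit 4) (.e (nat_lit 65619) (nat_lit 10) (.e (nat_lit 344169) (nat_lit 40) (.e (nat_lit 671764) (nat_lit 6) .nil)))))) (.g (nat_lit 6) .nil .nil)))) (.nd (nat_lit 5) 
(.lf (nat_lit 207512) (.g (nat_lit 1234) (.e (nat_lit 81933) (nat_lit 20) (.e (nat_lit 1998) (nat_lit 137) (.e (nat_lit 663554) (nat_lit 0) (.e (nat_lit 1590) (nat_lit 111) (.e (nat_lit 360455) (nat_lit 0) (.e (nat_lit 5813) (nat_lit 320) (.e (nat_lit 7936) (nat_lit 90) .nil))))))) (.g (nat_lit 6) .nil .nil))) 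
(.lf (nat_lit 207544) (.g (nat_lit 914) (.e (nat_lit 81933) (nat_lit 20) (.e (nat_lit 1999) (nat_lit 137) (.e (nat_lit 663569) (nat_lit 6) (.e (nat_lit 81922) (nat_lit 0) (.e (nat_lit 3630) (nat_lit 227) (.e (nat_lit 786176) (nat_lit 6) .nil)))))) (.g (nat_lit 5) .nil .nil)))))) (.nd (nat_lit 3) (.nd (nat_lit 4) (.nd (nat_lit 5) 
(.lf (nat_lit 207492) (.g (nat_lit 951) (.e (nat_lit 81933) (nat_lit 20) (.e (nat_lit 1998) (nat_lit 137) (.e (nat_lit 663554) (nat_lit 0) (.e (nat_lit 1559) (nat_lit 110) (.e (nat_lit 360192) (nat_lit 4) .nil))))) .nil)) 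
(.lf (nat_lit 207524) (.g (nat_lit 1930) (.e (nat_lit 81933) (nat_lit 20) (.e (nat_lit 1998) (nat_lit 137) (.e (nat_lit 663567) (nat_lit 4) (.e (nat_lit 65598) (nat_lit 9) (.e (nat_lit 335907) (nat_lit 0) (.e (nat_lit 1996) (nat_lit 137) (.e (nat_lit 663569) (nat_lit 6) .nil))))))) (.g (nat_lit 5) .nil .nil)))) (.nd (nat_lit 5) 
(.lf (nat_lit 207508) (.g (nat_lit 1443) (.e (nat_lit 81933) (nat_lit 20) (.e (nat_lit 1998) (nat_lit 137) (.e (nat_lit 663554) (nat_lit 0) (.e (nat_lit 1586) (nat_lit 111) (.e (nat_lit 368384) (nat_lit 0) .nil))))) .nil)) 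
(.lf (nat_lit 207540) (.g (nat_lit 218) (.e (nat_lit 81933) (nat_lit 20) (.e (nat_lit 1999) (nat_lit 137) (.e (nat_lit 663569) (nat_lit 6) .nil))) .nil)))) (.nd (nat_lit 4) (.nd (nat_lit 5) 
(.lf (nat_lit 207500) (.g (nat_lit 1186) (.e (nat_lit 81933) (nat_lit 20) (.e (nat_lit 1998) (nat_lit 137) (.e (nat_lit 663554) (nat_lit 0) (.e (nat_lit 1572) (nat_lit 110) (.e (nat_lit 360192) (nat_lit 4) (.e (nat_lit 220928) (nat_lit 6) .nil)))))) (.g (nat_lit 4) .nil .nil))) 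
(.lf (nat_lit 207532) (.g (nat_lit 818) (.e (nat_lit 81933) (nat_lit 20) (.e (nat_lit 1998) (nat_lit 137) (.e (nat_lit 663569) (nat_lit 6) (.e (nat_lit 81922) (nat_lit 0) (.e (nat_lit 3630) (nat_lit 227) .nil))))) .nil))) (.nd (nat_lit 5) 
(.lf (nat_lit 207516) (.g (nat_lit 2227) (.e (nat_lit 81933) (nat_lit 20) (.e (nat_lit 1998) (nat_lit 137) (.e (nat_lit 663554) (nat_lit 0) (.e (nat_lit 1595) (nat_lit 111) (.e (nat_lit 360486) (nat_lit 18) (.e (nat_lit 671764) (nat_lit 6) .nil)))))) (.g (nat_lit 6) .nil .nil))) 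
(.lf (nat_lit 207548) (.g (nat_lit 1259) (.e (nat_lit 81933) (nat_lit 20) (.e (nat_lit 1999) (nat_lit 137) (.e (nat_lit 663569) (nat_lit 6) (.e (nat_lit 81933) (nat_lit 20) (.e (nat_lit 1998) (nat_lit 137) (.e (nat_lit 663569) (nat_lit 6) .nil)))))) (.g (nat_lit 0) .nil .nil))))))) (.nd (nat_lit 2) (.nd (nat_lit 3) (.nd (nat_lit 4) (.nd (nat_lit 5) 
(.lf (nat_lit 207490) (.g (nat_lit 1050) (.e (nat_lit 81933) (nat_lit 20) (.e (nat_lit 1998) (nat_lit 137) (.e (nat_lit 663554) (nat_lit 0) (.e (nat_lit 1553) (nat_lit 110) (.e (nat_lit 360192) (nat_lit 4) (.e (nat_lit 220928) (nat_lit 6) .nil)))))) (.g (nat_lit 4) .nil .nil))) 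
(.lf (nat_lit 207522) (.g (nat_lit 739) (.e (nat_lit 81933) (nat_lit 20) (.e (nat_lit 1998) (nat_lit 137) (.e (nat_lit 663554) (nat_lit 0) (.e (nat_lit 1616) (nat_lit 113) .nil)))) .nil))) (.nd (nat_lit 5) 
(.lf (nat_lit 207506) (.g (nat_lit 664) (.e (nat_lit 81933) (nat_lit 20) (.e (nat_lit 1998) (nat_lit 137) (.e (nat_lit 663554) (nat_lit 0) (.e (nat_lit 1580) (nat_lit 111) .nil)))) .nil)) 
(.lf (nat_lit 207538) (.g (nat_lit 1812) (.e (nat_lit 81933) (nat_lit 20) (.e (nat_lit 1999) (nat_lit 137) (.e (nat_lit 663567) (nat_lit 4) (.e (nat_lit 65624) (nat_lit 12) (.e (nat_lit 385092) (nat_lit 49) (.e (nat_lit 786176) (nat_lit 6) .nil)))))) (.g (nat_lit 5) .nil .nil))))) (.nd (nat_lit 4) (.nd (nat_lit 5) 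
(.lf (nat_lit 207498) (.g (nat_lit 1150) (.e (nat_lit 81933) (nat_lit 20) (.e (nat_lit 1998) (nat_lit 137) (.e (nat_lit 663554) (nat_lit 0) (.e (nat_lit 1569) (nat_lit 110) (.e (nat_lit 360192) (nat_lit 4) (.e (nat_lit 220928) (nat_lit 6) .nil)))))) (.g (nat_lit 4) .nil .nil))) 
(.lf (nat_lit 207530) (.g (nat_lit 957) (.e (nat_lit 81933) (nat_lit 20) (.e (nat_lit 1998) (nat_lit 137) (.e (nat_lit 663569) (nat_lit 6) (.e (nat_lit 81921) (nat_lit 0) (.e (nat_lit 3711) (nat_lit 227) (.e (nat_lit 786176) (nat_lit 6) .nil)))))) (.g (nat_lit 5) .nil .nil)))) (.nd (nat_lit 5) 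
(.lf (nat_lit 207514) (.g (nat_lit 1407) (.e (nat_lit 81933) (nat_lit 20) (.e (nat_lit 1998) (nat_lit 137) (.e (nat_lit 663554) (nat_lit 0) (.e (nat_lit 1595) (nat_lit 111) (.e (nat_lit 368384) (nat_lit 0) .nil))))) .nil)) 
(.lf (nat_lit 207546) (.g (nat_lit 780) (.e (nat_lit 81933) (nat_lit 20) (.e (nat_lit 1999) (nat_lit 137) (.e (nat_lit 663569) (nat_lit 6) (.e (nat_lit 81924) (nat_lit 0) (.e (nat_lit 3629) (nat_lit 227) (.e (nat_lit 786176) (nat_lit 6) .nil)))))) (.g (nat_lit 5) .nil .nil)))))) (.nd (nat_lit 3) (.nd (nat_lit 4) (.nd (nat_lit 5) 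
(.lf (nat_lit 207494) (.g (nat_lit 1165) (.e (nat_lit 81933) (nat_lit 20) (.e (nat_lit 1998) (nat_lit 137) (.e (nat_lit 663554) (nat_lit 0) (.e (nat_lit 1562) (nat_lit 110) (.e (nat_lit 360192) (nat_lit 4) (.e (nat_lit 220928) (nat_lit 6) .nil)))))) (.g (nat_lit 4) .nil .nil))) 
(.lf (nat_lit 207526) (.g (nat_lit 1674) (.e (nat_lit 81933) (nat_lit 20) (.e (nat_lit 1998) (nat_lit 137) (.e (nat_lit 663567) (nat_lit 4) (.e (nat_lit 65611) (nat_lit 10) (.e (nat_lit 344169) (nat_lit 40) (.e (nat_lit 671764) (nat_lit 6) .nil)))))) (.g (nat_lit 6) .nil .nil)))) (.nd (nat_lit 5) 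
(.lf (nat_lit 207510) (.g (nat_lit 1473) (.e (nat_lit 81933) (nat_lit 20) (.e (nat_lit 1998) (nat_lit 137) (.e (nat_lit 663554) (nat_lit 0) (.e (nat_lit 1586) (nat_lit 111) (.e (nat_lit 368384) (nat_lit 17) (.e (nat_lit 663569) (nat_lit 6) .nil)))))) (.g (nat_lit 4) .nil .nil))) 
(.lf (nat_lit 207542) (.g (nat_lit 1025) (.e (nat_lit 81933) (nat_lit 20) (.e (nat_lit 1999) (nat_lit 137) (.e (nat_lit 663569) (nat_lit 6) (.e (nat_lit 81921) (nat_lit 0) (.e (nat_lit 3711) (nat_lit 227) (.e (nat_lit 786176) (nat_lit 6) .nil)))))) (.g (nat_lit 5) .nil .nil))))) (.nd (nat_lit 4) (.nd (nat_lit 5) 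
(.lf (nat_lit 207502) (.g (nat_lit 1044) (.e (nat_lit 81933) (nat_lit 20) (.e (nat_lit 1998) (nat_lit 137) (.e (nat_lit 663554) (nat_lit 0) (.e (nat_lit 1575) (nat_lit 110) (.e (nat_lit 360192) (nat_lit 4) (.e (nat_lit 220928) (nat_lit 6) .nil)))))) (.g (nat_lit 4) .nil .nil))) 
(.lf (nat_lit 207534) (.g (nat_lit 1614) (.e (nat_lit 81933) (nat_lit 20) (.e (nat_lit 1998) (nat_lit 137) (.e (nat_lit 663569) (nat_lit 6) (.e (nat_lit 81935) (nat_lit 20) (.e (nat_lit 1998) (nat_lit 137) (.e (nat_lit 663569) (nat_lit 6) .nil)))))) (.g (nat_lit 0) .nil .nil)))) (.nd (nat_lit 5) 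
(.lf (nat_lit 207518) (.g (nat_lit 1245) (.e (nat_lit 81933) (nat_lit 20) (.e (nat_lit 1998) (nat_lit 137) (.e (nat_lit 663554) (nat_lit 0) (.e (nat_lit 1596) (nat_lit 111) (.e (nat_lit 360455) (nat_lit 0) (.e (nat_lit 5813) (nat_lit 320) (.e (nat_lit 7936) (nat_lit 90) .nil))))))) (.g (nat_lit 6) .nil .nil))) 
(.lf (nat_lit 207550) (.g (nat_lit 1705) (.e (nat_lit 81933) (nat_lit 20) (.e (nat_lit 1999) (nat_lit 137) (.e (nat_lit 663569) (nat_lit 6) (.e (nat_lit 81935) (nat_lit 20) (.e (nat_lit 1998) (nat_lit 137) (.e (nat_lit 663569) (nat_lit 6) .nil)))))) (.g (nat_lit 0) .nil .nil)))))))) (.nd (nat_lit 1) (.nd (nat_lit 2) (.nd (nat_lit 3) (.nd (nat_lit 4) (.nd (nat_lit 5) 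
(.lf (nat_lit 207489) (.g (nat_lit 1097) (.e (nat_lit 81933) (nat_lit 20) (.e (nat_lit 1879) (nat_lit 126) (.e (nat_lit 573445) (nat_lit 0) (.e (nat_lit 3011) (nat_lit 187) (.e (nat_lit 450563) (nat_lit 0) (.e (nat_lit 6808) (nat_lit 365) (.e (nat_lit 7936) (nat_lit 90) .nil))))))) (.g (nat_lit 6) .nil .nil))) 
(.lf (nat_lit 207521) (.g (nat_lit 771) (.e (nat_lit 81933) (nat_lit 20) (.e (nat_lit 1998) (nat_lit 137) (.e (nat_lit 663554) (nat_lit 0) (.e (nat_lit 1599) (nat_lit 111) .nil)))) .nil))) (.nd (nat_lit 5) 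
(.lf (nat_lit 207505) (.g (nat_lit 963) (.e (nat_lit 81933) (nat_lit 20) (.e (nat_lit 1998) (nat_lit 137) (.e (nat_lit 663554) (nat_lit 0) (.e (nat_lit 1576) (nat_lit 110) (.e (nat_lit 352270) (nat_lit 8) (.e (nat_lit 270080) (nat_lit 6) .nil)))))) (.g (nat_lit 4) .nil .nil))) 
(.lf (nat_lit 207537) (.g (nat_lit 2081) (.e (nat_lit 81933) (nat_lit 20) (.e (nat_lit 1999) (nat_lit 137) (.e (nat_lit 663567) (nat_lit 4) (.e (nat_lit 65622) (nat_lit 12) (.e (nat_lit 385093) (nat_lit 49) (.e (nat_lit 786176) (nat_lit 6) .nil)))))) (.g (nat_lit 5) .nil .nil))))) (.nd (nat_lit 4) (.nd (nat_lit 5) 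
(.lf (nat_lit 207497) (.g (nat_lit 1023) (.e (nat_lit 81933) (nat_lit 20) (.e (nat_lit 1998) (nat_lit 137) (.e (nat_lit 663554) (nat_lit 0) (.e (nat_lit 1567) (nat_lit 110) (.e (nat_lit 352270) (nat_lit 8) (.e (nat_lit 270080) (nat_lit 6) .nil)))))) (.g (nat_lit 4) .nil .nil))) 
(.lf (nat_lit 207529) (.g (nat_lit 641) (.e (nat_lit 81933) (nat_lit 20) (.e (nat_lit 1998) (nat_lit 137) (.e (nat_lit 663569) (nat_lit 6) (.e (nat_lit 81920) (nat_lit 0) .nil)))) .nil))) (.nd (nat_lit 5) 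
(.lf (nat_lit 207513) (.g (nat_lit 1881) (.e (nat_lit 81933) (nat_lit 20) (.e (nat_lit 1998) (nat_lit 137) (.e (nat_lit 663554) (nat_lit 0) (.e (nat_lit 1595) (nat_lit 111) (.e (nat_lit 360455) (nat_lit 0) (.e (nat_lit 5813) (nat_lit 320) (.e (nat_lit 7936) (nat_lit 90) .nil))))))) (.g (nat_lit 6) .nil .nil))) 
(.lf (nat_lit 207545) (.g (nat_lit 1352) (.e (nat_lit 81933) (nat_lit 20) (.e (nat_lit 1999) (nat_lit 137) (.e (nat_lit 663569) (nat_lit 6) (.e (nat_lit 81922) (nat_lit 0) (.e (nat_lit 3631) (nat_lit 227) (.e (nat_lit 786176) (nat_lit 6) .nil)))))) (.g (nat_lit 5) .nil .nil)))))) (.nd (nat_lit 3) (.nd (nat_lit 4) (.nd (nat_lit 5) 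
(.lf (nat_lit 207493) (.g (nat_lit 1333) (.e (nat_lit 81933) (nat_lit 20) (.e (nat_lit 1998) (nat_lit 137) (.e (nat_lit 663554) (nat_lit 0) (.e (nat_lit 1559) (nat_lit 110) (.e (nat_lit 352270) (nat_lit 8) (.e (nat_lit 270080) (nat_lit 6) .nil)))))) (.g (nat_lit 5) .nil .nil))) 
(.lf (nat_lit 207525) (.g (nat_lit 2611) (.e (nat_lit 81933) (nat_lit 20) (.e (nat_lit 1998) (nat_lit 137) (.e (nat_lit 663567) (nat_lit 4) (.e (nat_lit 65604) (nat_lit 9) (.e (nat_lit 335997) (nat_lit 1) (.e (nat_lit 57872) (nat_lit 264) (.e (nat_lit 1219) (nat_lit 90) .nil))))))) (.g (nat_lit 7) .nil .nil)))) (.nd (nat_lit 5) 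
(.lf (nat_lit 207509) (.g (nat_lit 1495) (.e (nat_lit 81933) (nat_lit 20) (.e (nat_lit 1998) (nat_lit 137) (.e (nat_lit 663554) (nat_lit 0) (.e (nat_lit 1586) (nat_lit 111) (.e (nat_lit 368384) (nat_lit 0) (.e (nat_lit 5905) (nat_lit 320) (.e (nat_lit 1219) (nat_lit 90) .nil))))))) (.g (nat_lit 4) .nil .nil))) 
(.lf (nat_lit 207541) (.g (nat_lit 722) (.e (nat_lit 81933) (nat_lit 20) (.e (nat_lit 1999) (nat_lit 137) (.e (nat_lit 663569) (nat_lit 6) (.e (nat_lit 81920) (nat_lit 0) .nil)))) .nil)))) (.nd (nat_lit 4) (.nd (nat_lit 5) 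
(.lf (nat_lit 207501) (.g (nat_lit 780) (.e (nat_lit 81933) (nat_lit 20) (.e (nat_lit 1998) (nat_lit 137) (.e (nat_lit 663554) (nat_lit 0) (.e (nat_lit 1573) (nat_lit 110) (.e (nat_lit 360192) (nat_lit 4) .nil))))) .nil)) 
(.lf (nat_lit 207533) (.g (nat_lit 1168) (.e (nat_lit 81933) (nat_lit 20) (.e (nat_lit 1998) (nat_lit 137) (.e (nat_lit 663569) (nat_lit 6) (.e (nat_lit 81933) (nat_lit 20) (.e (nat_lit 1998) (nat_lit 137) (.e (nat_lit 663569) (nat_lit 6) .nil)))))) (.g (nat_lit 0) .nil .nil)))) (.nd (nat_lit 5) 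
(.lf (nat_lit 207517) (.g (nat_lit 787) (.e (nat_lit 81933) (nat_lit 20) (.e (nat_lit 1998) (nat_lit 137) (.e (nat_lit 663554) (nat_lit 0) (.e (nat_lit 1596) (nat_lit 111) .nil)))) .nil)) 
(.lf (nat_lit 207549) (.g (nat_lit 1344) (.e (nat_lit 81933) (nat_lit 20) (.e (nat_lit 1999) (nat_lit 137) (.e (nat_lit 663569) (nat_lit 6) (.e (nat_lit 81933) (nat_lit 20) (.e (nat_lit 1999) (nat_lit 137) (.e (nat_lit 663569) (nat_lit 6) .nil)))))) (.g (nat_lit 0) .nil .nil))))))) (.nd (nat_lit 2) (.nd (nat_lit 3) (.nd (nat_lit 4) (.nd (nat_lit 5) 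
(.lf (nat_lit 207491) (.g (nat_lit 1150) (.e (nat_lit 81933) (nat_lit 20) (.e (nat_lit 1998) (nat_lit 137) (.e (nat_lit 663554) (nat_lit 0) (.e (nat_lit 1553) (nat_lit 110) (.e (nat_lit 352270) (nat_lit 8) (.e (nat_lit 270080) (nat_lit 6) .nil)))))) (.g (nat_lit 5) .nil .nil))) 
(.lf (nat_lit 207523) (.g (nat_lit 90) (.e (nat_lit 81933) (nat_lit 20) (.e (nat_lit 1998) (nat_lit 137) (.e (nat_lit 663565) (nat_lit 3) .nil))) .nil))) (.nd (nat_lit 5) 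
(.lf (nat_lit 207507) (.g (nat_lit 1036) (.e (nat_lit 81933) (nat_lit 20) (.e (nat_lit 1998) (nat_lit 137) (.e (nat_lit 663554) (nat_lit 0) (.e (nat_lit 1580) (nat_lit 111) (.e (nat_lit 360455) (nat_lit 0) (.e (nat_lit 5813) (nat_lit 320) (.e (nat_lit 7936) (nat_lit 90) .nil))))))) (.g (nat_lit 5) .nil .nil))) 
(.lf (nat_lit 207539) (.g (nat_lit 2119) (.e (nat_lit 81933) (nat_lit 20) (.e (nat_lit 1999) (nat_lit 137) (.e (nat_lit 663567) (nat_lit 4) (.e (nat_lit 65624) (nat_lit 12) (.e (nat_lit 385093) (nat_lit 49) (.e (nat_lit 786176) (nat_lit 6) .nil)))))) (.g (nat_lit 5) .nil .nil))))) (.nd (nat_lit 4) (.nd (nat_lit 5) 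
(.lf (nat_lit 207499) (.g (nat_lit 1218) (.e (nat_lit 81933) (nat_lit 20) (.e (nat_lit 1998) (nat_lit 137) (.e (nat_lit 663554) (nat_lit 0) (.e (nat_lit 1569) (nat_lit 110) (.e (nat_lit 352270) (nat_lit 8) (.e (nat_lit 270080) (nat_lit 6) .nil)))))) (.g (nat_lit 5) .nil .nil))) 
(.lf (nat_lit 207531) (.g (nat_lit 850) (.e (nat_lit 81933) (nat_lit 20) (.e (nat_lit 1998) (nat_lit 137) (.e (nat_lit 663569) (nat_lit 6) (.e (nat_lit 81921) (nat_lit 0) (.e (nat_lit 3714) (nat_lit 227) (.e (nat_lit 786176) (nat_lit 6) .nil)))))) (.g (nat_lit 5) .nil .nil)))) (.nd (nat_lit 5) 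
(.lf (nat_lit 207515) (.g (nat_lit 1533) (.e (nat_lit 81933) (nat_lit 20) (.e (nat_lit 1998) (nat_lit 137) (.e (nat_lit 663554) (nat_lit 0) (.e (nat_lit 1595) (nat_lit 111) (.e (nat_lit 368384) (nat_lit 0) (.e (nat_lit 5905) (nat_lit 320) (.e (nat_lit 1219) (nat_lit 90) .nil))))))) (.g (nat_lit 4) .nil .nil))) 
(.lf (nat_lit 207547) (.g (nat_lit 769) (.e (nat_lit 81933) (nat_lit 20) (.e (nat_lit 1999) (nat_lit 137) (.e (nat_lit 663569) (nat_lit 6) (.e (nat_lit 81924) (nat_lit 0) (.e (nat_lit 3630) (nat_lit 227) (.e (nat_lit 786176) (nat_lit 6) .nil)))))) (.g (nat_lit 5) .nil .nil)))))) (.nd (nat_lit 3) (.nd (nat_lit 4) (.nd (nat_lit 5) 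
(.lf (nat_lit 207495) (.g (nat_lit 1206) (.e (nat_lit 81933) (nat_lit 20) (.e (nat_lit 1998) (nat_lit 137) (.e (nat_lit 663554) (nat_lit 0) (.e (nat_lit 1562) (nat_lit 110) (.e (nat_lit 352270) (nat_lit 8) (.e (nat_lit 270080) (nat_lit 6) .nil)))))) (.g (nat_lit 5) .nil .nil))) 
(.lf (nat_lit 207527) (.g (nat_lit 1558) (.e (nat_lit 81933) (nat_lit 20) (.e (nat_lit 1998) (nat_lit 137) (.e (nat_lit 663567) (nat_lit 4) (.e (nat_lit 65616) (nat_lit 10) (.e (nat_lit 344169) (nat_lit 40) (.e (nat_lit 671764) (nat_lit 6) .nil)))))) (.g (nat_lit 6) .nil .nil)))) (.nd (nat_lit 5) 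
(.lf (nat_lit 207511) (.g (nat_lit 1625) (.e (nat_lit 81933) (nat_lit 20) (.e (nat_lit 1998) (nat_lit 137) (.e (nat_lit 663554) (nat_lit 0) (.e (nat_lit 1589) (nat_lit 111) (.e (nat_lit 368384) (nat_lit 0) .nil))))) .nil)) 
(.lf (nat_lit 207543) (.g (nat_lit 926) (.e (nat_lit 81933) (nat_lit 20) (.e (nat_lit 1999) (nat_lit 137) (.e (nat_lit 663569) (nat_lit 6) (.e (nat_lit 81921) (nat_lit 0) (.e (nat_lit 3714) (nat_lit 227) (.e (nat_lit 786176) (nat_lit 6) .nil)))))) (.g (nat_lit 5) .nil .nil))))) (.nd (nat_lit 4) (.nd (nat_lit 5) 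
(.lf (nat_lit 207503) (.g (nat_lit 1039) (.e (nat_lit 81933) (nat_lit 20) (.e (nat_lit 1998) (nat_lit 137) (.e (nat_lit 663554) (nat_lit 0) (.e (nat_lit 1575) (nat_lit 110) (.e (nat_lit 352270) (nat_lit 8) (.e (nat_lit 270080) (nat_lit 6) .nil)))))) (.g (nat_lit 4) .nil .nil))) 
(.lf (nat_lit 207535) (.g (nat_lit 1614) (.e (nat_lit 81933) (nat_lit 20) (.e (nat_lit 1998) (nat_lit 137) (.e (nat_lit 663569) (nat_lit 6) (.e (nat_lit 81935) (nat_lit 20) (.e (nat_lit 1999) (nat_lit 137) (.e (nat_lit 663569) (nat_lit 6) .nil)))))) (.g (nat_lit 0) .nil .nil)))) (.nd (nat_lit 5) 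
(.lf (nat_lit 207519) (.g (nat_lit 751) (.e (nat_lit 81933) (nat_lit 20) (.e (nat_lit 1998) (nat_lit 137) (.e (nat_lit 663554) (nat_lit 0) (.e (nat_lit 1598) (nat_lit 111) .nil)))) .nil)) 
(.lf (nat_lit 207551) (.g (nat_lit 1705) (.e (nat_lit 81933) (nat_lit 20) (.e (nat_lit 1999) (nat_lit 137) (.e (nat_lit 663569) (nat_lit 6) (.e (nat_lit 81935) (nat_lit 20) (.e (nat_lit 1999) (nat_lit 137) (.e (nat_lit 663569) (nat_lit 6) .nil)))))) (.g (nat_lit 0) .nil .nil)))))))))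

noncomputable def tv2735 : DT := (.nd (nat_lit 0) (.nd (nat_lit 1) (.nd (nat_lit 2) (.nd (nat_lit 3) (.nd (nat_lit 4) (.nd (nat_lit 5) 
(.lf (nat_lit 207552) (.g (nat_lit 2860) (.e (nat_lit 81933) (nat_lit 20) (.e (nat_lit 2309) (nat_lit 151) (.e (nat_lit 778465) (nat_lit 11) (.e (nat_lit 24640) (nat_lit 10) (.e (nat_lit 344174) (nat_lit 42) (.e (nat_lit 769792) (nat_lit 10) .nil)))))) (.g (nat_lit 5) .nil .nil))) 
(.lf (nat_lit 207584) (.g (nat_lit 568) (.e (nat_lit 81933) (nat_lit 20) (.e (nat_lit 2383) (nat_lit 155) (.e (nat_lit 811012) (nat_lit 0) (.e (nat_lit 5776) (nat_lit 317) (.e (nat_lit 180248) (nat_lit 9) (.e (nat_lit 573184) (nat_lit 6) .nil)))))) (.g (nat_lit 5) .nil .nil)))) (.nd (nat_lit 5) 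
(.lf (nat_lit 207568) (.g (nat_lit 390) (.e (nat_lit 81933) (nat_lit 20) (.e (nat_lit 2383) (nat_lit 155) (.e (nat_lit 811011) (nat_lit 0) (.e (nat_lit 5772) (nat_lit 316) (.e (nat_lit 179968) (nat_lit 17) (.e (nat_lit 98048) (nat_lit 6) .nil)))))) (.g (nat_lit 4) .nil .nil))) 
(.lf (nat_lit 207600) (.g (nat_lit 434) (.e (nat_lit 81933) (nat_lit 20) (.e (nat_lit 2384) (nat_lit 155) (.e (nat_lit 811011) (nat_lit 0) (.e (nat_lit 5772) (nat_lit 316) (.e (nat_lit 179968) (nat_lit 17) (.e (nat_lit 98048) (nat_lit 6) .nil)))))) (.g (nat_lit 4) .nil .nil))))) (.nd (nat_lit 4) (.nd (nat_lit 5) 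
(.lf (nat_lit 207560) (.g (nat_lit 1030) (.e (nat_lit 81933) (nat_lit 20) (.e (nat_lit 2375) (nat_lit 154) (.e (nat_lit 810752) (nat_lit 14) (.e (nat_lit 360449) (nat_lit 0) (.e (nat_lit 7125) (nat_lit 382) (.e (nat_lit 7936) (nat_lit 90) .nil)))))) (.g (nat_lit 5) .nil .nil))) 
(.lf (nat_lit 207592) (.g (nat_lit 1437) (.e (nat_lit 81933) (nat_lit 20) (.e (nat_lit 2383) (nat_lit 155) (.e (nat_lit 811029) (nat_lit 9) (.e (nat_lit 303139) (nat_lit 10) (.e (nat_lit 434241) (nat_lit 27) (.e (nat_lit 565269) (nat_lit 6) .nil)))))) (.g (nat_lit 6) .nil .nil)))) (.nd (nat_lit 5) 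
(.lf (nat_lit 207576) (.g (nat_lit 282) (.e (nat_lit 81933) (nat_lit 20) (.e (nat_lit 2383) (nat_lit 155) (.e (nat_lit 811011) (nat_lit 0) (.e (nat_lit 5780) (nat_lit 317) (.e (nat_lit 188160) (nat_lit 8) (.e (nat_lit 564992) (nat_lit 6) .nil)))))) (.g (nat_lit 4) .nil .nil))) 
(.lf (nat_lit 207608) (.g (nat_lit 349) (.e (nat_lit 81933) (nat_lit 20) (.e (nat_lit 2384) (nat_lit 155) (.e (nat_lit 811011) (nat_lit 0) (.e (nat_lit 5780) (nat_lit 317) (.e (nat_lit 188160) (nat_lit 8) (.e (nat_lit 564992) (nat_lit 6) .nil)))))) (.g (nat_lit 4) .nil .nil)))))) (.nd (nat_lit 3) (.nd (nat_lit 4) (.nd (nat_lit 5) 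
(.lf (nat_lit 207556) (.g (nat_lit 1174) (.e (nat_lit 81933) (nat_lit 20) (.e (nat_lit 2375) (nat_lit 154) (.e (nat_lit 802828) (nat_lit 13) (.e (nat_lit 352309) (nat_lit 21) (.e (nat_lit 57655) (nat_lit 152) (.e (nat_lit 7936) (nat_lit 90) .nil)))))) (.g (nat_lit 5) .nil .nil))) 
(.lf (nat_lit 207588) (.g (nat_lit 623) (.e (nat_lit 81933) (nat_lit 20) (.e (nat_lit 2383) (nat_lit 155) (.e (nat_lit 811012) (nat_lit 0) (.e (nat_lit 5779) (nat_lit 317) (.e (nat_lit 180248) (nat_lit 9) (.e (nat_lit 573184) (nat_lit 6) .nil)))))) (.g (nat_lit 5) .nil .nil)))) (.nd (nat_lit 5) 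
(.lf (nat_lit 207572) (.g (nat_lit 312) (.e (nat_lit 81933) (nat_lit 20) (.e (nat_lit 2383) (nat_lit 155) (.e (nat_lit 811011) (nat_lit 0) (.e (nat_lit 5777) (nat_lit 317) (.e (nat_lit 188160) (nat_lit 8) (.e (nat_lit 564992) (nat_lit 6) .nil)))))) (.g (nat_lit 4) .nil .nil))) 
(.lf (nat_lit 207604) (.g (nat_lit 391) (.e (nat_lit 81933) (nat_lit 20) (.e (nat_lit 2384) (nat_lit 155) (.e (nat_lit 811011) (nat_lit 0) (.e (nat_lit 5777) (nat_lit 317) (.e (nat_lit 188160) (nat_lit 8) (.e (nat_lit 564992) (nat_lit 6) .nil)))))) (.g (nat_lit 4) .nil .nil))))) (.nd (nat_lit 4) (.nd (nat_lit 5) 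
(.lf (nat_lit 207564) (.g (nat_lit 554) (.e (nat_lit 81933) (nat_lit 20) (.e (nat_lit 2375) (nat_lit 154) (.e (nat_lit 810752) (nat_lit 14) (.e (nat_lit 360453) (nat_lit 0) (.e (nat_lit 7146) (nat_lit 382) (.e (nat_lit 7936) (nat_lit 90) .nil)))))) (.g (nat_lit 5) .nil .nil))) 
(.lf (nat_lit 207596) (.g (nat_lit 225) (.e (nat_lit 81933) (nat_lit 20) (.e (nat_lit 2384) (nat_lit 155) (.e (nat_lit 811009) (nat_lit 0) (.e (nat_lit 5772) (nat_lit 316) .nil)))) .nil))) (.nd (nat_lit 5) 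
(.lf (nat_lit 207580) (.g (nat_lit 327) (.e (nat_lit 81933) (nat_lit 20) (.e (nat_lit 2383) (nat_lit 155) (.e (nat_lit 811012) (nat_lit 0) (.e (nat_lit 5772) (nat_lit 316) (.e (nat_lit 179968) (nat_lit 17) (.e (nat_lit 98048) (nat_lit 6) .nil)))))) (.g (nat_lit 4) .nil .nil))) 
(.lf (nat_lit 207612) (.g (nat_lit 388) (.e (nat_lit 81933) (nat_lit 20) (.e (nat_lit 2384) (nat_lit 155) (.e (nat_lit 811012) (nat_lit 0) (.e (nat_lit 5772) (nat_lit 316) (.e (nat_lit 179968) (nat_lit 17) (.e (nat_lit 98048) (nat_lit 6) .nil)))))) (.g (nat_lit 4) .nil .nil))))))) (.nd (nat_lit 2) (.nd (nat_lit 3) (.nd (nat_lit 4) (.nd (nat_lit 5) 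
(.lf (nat_lit 207554) (.g (nat_lit 1082) (.e (nat_lit 81933) (nat_lit 20) (.e (nat_lit 2375) (nat_lit 154) (.e (nat_lit 802828) (nat_lit 13) (.e (nat_lit 352307) (nat_lit 21) (.e (nat_lit 57655) (nat_lit 152) (.e (nat_lit 7936) (nat_lit 90) .nil)))))) (.g (nat_lit 5) .nil .nil))) 
(.lf (nat_lit 207586) (.g (nat_lit 408) (.e (nat_lit 81933) (nat_lit 20) (.e (nat_lit 2383) (nat_lit 155) (.e (nat_lit 811012) (nat_lit 0) (.e (nat_lit 5777) (nat_lit 317) (.e (nat_lit 180248) (nat_lit 9) (.e (nat_lit 573184) (nat_lit 6) .nil)))))) (.g (nat_lit 5) .nil .nil)))) (.nd (nat_lit 5) 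
(.lf (nat_lit 207570) (.g (nat_lit 403) (.e (nat_lit 81933) (nat_lit 20) (.e (nat_lit 2383) (nat_lit 155) (.e (nat_lit 811011) (nat_lit 0) (.e (nat_lit 5776) (nat_lit 317) (.e (nat_lit 188160) (nat_lit 8) (.e (nat_lit 564992) (nat_lit 6) .nil)))))) (.g (nat_lit 4) .nil .nil))) 
(.lf (nat_lit 207602) (.g (nat_lit 474) (.e (nat_lit 81933) (nat_lit 20) (.e (nat_lit 2384) (nat_lit 155) (.e (nat_lit 811011) (nat_lit 0) (.e (nat_lit 5776) (nat_lit 317) (.e (nat_lit 188160) (nat_lit 8) (.e (nat_lit 564992) (nat_lit 6) .nil)))))) (.g (nat_lit 4) .nil .nil))))) (.nd (nat_lit 4) (.nd (nat_lit 5) 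
(.lf (nat_lit 207562) (.g (nat_lit 666) (.e (nat_lit 81933) (nat_lit 20) (.e (nat_lit 2375) (nat_lit 154) (.e (nat_lit 810752) (nat_lit 14) (.e (nat_lit 360452) (nat_lit 0) (.e (nat_lit 7146) (nat_lit 382) (.e (nat_lit 7936) (nat_lit 90) .nil)))))) (.g (nat_lit 5) .nil .nil))) 
(.lf (nat_lit 207594) (.g (nat_lit 1183) (.e (nat_lit 81933) (nat_lit 20) (.e (nat_lit 2383) (nat_lit 155) (.e (nat_lit 811030) (nat_lit 10) (.e (nat_lit 311324) (nat_lit 9) (.e (nat_lit 426432) (nat_lit 17) (.e (nat_lit 98048) (nat_lit 6) .nil)))))) (.g (nat_lit 5) .nil .nil)))) (.nd (nat_lit 5) 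
(.lf (nat_lit 207578) (.g (nat_lit 366) (.e (nat_lit 81933) (nat_lit 20) (.e (nat_lit 2383) (nat_lit 155) (.e (nat_lit 811012) (nat_lit 0) (.e (nat_lit 5768) (nat_lit 316) (.e (nat_lit 179968) (nat_lit 17) (.e (nat_lit 98048) (nat_lit 6) .nil)))))) (.g (nat_lit 4) .nil .nil))) 
(.lf (nat_lit 207610) (.g (nat_lit 424) (.e (nat_lit 81933) (nat_lit 20) (.e (nat_lit 2384) (nat_lit 155) (.e (nat_lit 811012) (nat_lit 0) (.e (nat_lit 5768) (nat_lit 316) (.e (nat_lit 179968) (nat_lit 17) (.e (nat_lit 98048) (nat_lit 6) .nil)))))) (.g (nat_lit 4) .nil .nil)))))) (.nd (nat_lit 3) (.nd (nat_lit 4) (.nd (nat_lit 5) 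
(.lf (nat_lit 207558) (.g (nat_lit 1226) (.e (nat_lit 81933) (nat_lit 20) (.e (nat_lit 2375) (nat_lit 154) (.e (nat_lit 810752) (nat_lit 14) (.e (nat_lit 360449) (nat_lit 0) (.e (nat_lit 7122) (nat_lit 382) (.e (nat_lit 7936) (nat_lit 90) .nil)))))) (.g (nat_lit 5) .nil .nil))) 
(.lf (nat_lit 207590) (.g (nat_lit 420) (.e (nat_lit 81933) (nat_lit 20) (.e (nat_lit 2383) (nat_lit 155) (.e (nat_lit 811012) (nat_lit 0) (.e (nat_lit 5780) (nat_lit 317) (.e (nat_lit 180248) (nat_lit 9) (.e (nat_lit 573184) (nat_lit 6) .nil)))))) (.g (nat_lit 5) .nil .nil)))) (.nd (nat_lit 5) 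
(.lf (nat_lit 207574) (.g (nat_lit 476) (.e (nat_lit 81933) (nat_lit 20) (.e (nat_lit 2383) (nat_lit 155) (.e (nat_lit 811011) (nat_lit 0) (.e (nat_lit 5779) (nat_lit 317) (.e (nat_lit 188160) (nat_lit 8) (.e (nat_lit 564992) (nat_lit 6) .nil)))))) (.g (nat_lit 4) .nil .nil))) 
(.lf (nat_lit 207606) (.g (nat_lit 544) (.e (nat_lit 81933) (nat_lit 20) (.e (nat_lit 2384) (nat_lit 155) (.e (nat_lit 811011) (nat_lit 0) (.e (nat_lit 5779) (nat_lit 317) (.e (nat_lit 188160) (nat_lit 8) (.e (nat_lit 564992) (nat_lit 6) .nil)))))) (.g (nat_lit 4) .nil .nil))))) (.nd (nat_lit 4) (.nd (nat_lit 5) 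
(.lf (nat_lit 207566) (.g (nat_lit 361) (.e (nat_lit 81933) (nat_lit 20) (.e (nat_lit 2383) (nat_lit 155) (.e (nat_lit 811010) (nat_lit 0) (.e (nat_lit 5773) (nat_lit 316) (.e (nat_lit 179968) (nat_lit 17) (.e (nat_lit 98048) (nat_lit 6) .nil)))))) (.g (nat_lit 4) .nil .nil))) 
(.lf (nat_lit 207598) (.g (nat_lit 342) (.e (nat_lit 81933) (nat_lit 20) (.e (nat_lit 2384) (nat_lit 155) (.e (nat_lit 811009) (nat_lit 0) (.e (nat_lit 5777) (nat_lit 317) (.e (nat_lit 188160) (nat_lit 8) .nil))))) .nil))) (.nd (nat_lit 5) 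
(.lf (nat_lit 207582) (.g (nat_lit 306) (.e (nat_lit 81933) (nat_lit 20) (.e (nat_lit 2383) (nat_lit 155) (.e (nat_lit 811012) (nat_lit 0) (.e (nat_lit 5773) (nat_lit 316) (.e (nat_lit 179968) (nat_lit 17) (.e (nat_lit 98048) (nat_lit 6) .nil)))))) (.g (nat_lit 4) .nil .nil))) 
(.lf (nat_lit 207614) (.g (nat_lit 419) (.e (nat_lit 81933) (nat_lit 20) (.e (nat_lit 2384) (nat_lit 155) (.e (nat_lit 811012) (nat_lit 0) (.e (nat_lit 5776) (nat_lit 317) (.e (nat_lit 188160) (nat_lit 8) (.e (nat_lit 564992) (nat_lit 6) .nil)))))) (.g (nat_lit 4) .nil .nil)))))))) (.nd (nat_lit 1) (.nd (nat_lit 2) (.nd (nat_lit 3) (.nd (nat_lit 4) (.nd (nat_lit 5) 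
(.lf (nat_lit 207553) (.g (nat_lit 1350) (.e (nat_lit 81933) (nat_lit 20) (.e (nat_lit 2375) (nat_lit 154) (.e (nat_lit 802828) (nat_lit 13) (.e (nat_lit 352307) (nat_lit 21) (.e (nat_lit 57654) (nat_lit 152) (.e (nat_lit 7936) (nat_lit 90) .nil)))))) (.g (nat_lit 5) .nil .nil))) 
(.lf (nat_lit 207585) (.g (nat_lit 275) (.e (nat_lit 81933) (nat_lit 20) (.e (nat_lit 2383) (nat_lit 155) (.e (nat_lit 811012) (nat_lit 0) (.e (nat_lit 5777) (nat_lit 317) (.e (nat_lit 188160) (nat_lit 8) (.e (nat_lit 564992) (nat_lit 6) .nil)))))) (.g (nat_lit 4) .nil .nil)))) (.nd (nat_lit 5) 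
(.lf (nat_lit 207569) (.g (nat_lit 370) (.e (nat_lit 81933) (nat_lit 20) (.e (nat_lit 2383) (nat_lit 155) (.e (nat_lit 811011) (nat_lit 0) (.e (nat_lit 5773) (nat_lit 316) (.e (nat_lit 179968) (nat_lit 17) (.e (nat_lit 98048) (nat_lit 6) .nil)))))) (.g (nat_lit 4) .nil .nil))) 
(.lf (nat_lit 207601) (.g (nat_lit 446) (.e (nat_lit 81933) (nat_lit 20) (.e (nat_lit 2384) (nat_lit 155) (.e (nat_lit 811011) (nat_lit 0) (.e (nat_lit 5773) (nat_lit 316) (.e (nat_lit 179968) (nat_lit 17) (.e (nat_lit 98048) (nat_lit 6) .nil)))))) (.g (nat_lit 4) .nil .nil))))) (.nd (nat_lit 4) (.nd (nat_lit 5) 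
(.lf (nat_lit 207561) (.g (nat_lit 866) (.e (nat_lit 81933) (nat_lit 20) (.e (nat_lit 2375) (nat_lit 154) (.e (nat_lit 810752) (nat_lit 14) (.e (nat_lit 360450) (nat_lit 0) (.e (nat_lit 7119) (nat_lit 382) (.e (nat_lit 7936) (nat_lit 90) .nil)))))) (.g (nat_lit 5) .nil .nil))) 
(.lf (nat_lit 207593) (.g (nat_lit 1783) (.e (nat_lit 81933) (nat_lit 20) (.e (nat_lit 2383) (nat_lit 155) (.e (nat_lit 811029) (nat_lit 9) (.e (nat_lit 303140) (nat_lit 10) (.e (nat_lit 434241) (nat_lit 27) (.e (nat_lit 565269) (nat_lit 6) .nil)))))) (.g (nat_lit 6) .nil .nil)))) (.nd (nat_lit 5) 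
(.lf (nat_lit 207577) (.g (nat_lit 458) (.e (nat_lit 81933) (nat_lit 20) (.e (nat_lit 2383) (nat_lit 155) (.e (nat_lit 811011) (nat_lit 0) (.e (nat_lit 5780) (nat_lit 317) (.e (nat_lit 180248) (nat_lit 9) (.e (nat_lit 573184) (nat_lit 6) .nil)))))) (.g (nat_lit 5) .nil .nil))) 
(.lf (nat_lit 207609) (.g (nat_lit 524) (.e (nat_lit 81933) (nat_lit 20) (.e (nat_lit 2384) (nat_lit 155) (.e (nat_lit 811011) (nat_lit 0) (.e (nat_lit 5780) (nat_lit 317) (.e (nat_lit 180248) (nat_lit 9) (.e (nat_lit 573184) (nat_lit 6) .nil)))))) (.g (nat_lit 5) .nil .nil)))))) (.nd (nat_lit 3) (.nd (nat_lit 4) (.nd (nat_lit 5) 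
(.lf (nat_lit 207557) (.g (nat_lit 679) (.e (nat_lit 81933) (nat_lit 20) (.e (nat_lit 2375) (nat_lit 154) (.e (nat_lit 810752) (nat_lit 14) (.e (nat_lit 360449) (nat_lit 0) (.e (nat_lit 7119) (nat_lit 382) (.e (nat_lit 7936) (nat_lit 90) .nil)))))) (.g (nat_lit 5) .nil .nil))) 
(.lf (nat_lit 207589) (.g (nat_lit 243) (.e (nat_lit 81933) (nat_lit 20) (.e (nat_lit 2383) (nat_lit 155) (.e (nat_lit 811012) (nat_lit 0) (.e (nat_lit 5780) (nat_lit 317) (.e (nat_lit 188160) (nat_lit 8) (.e (nat_lit 564992) (nat_lit 6) .nil)))))) (.g (nat_lit 4) .nil .nil)))) (.nd (nat_lit 5) 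
(.lf (nat_lit 207573) (.g (nat_lit 436) (.e (nat_lit 81933) (nat_lit 20) (.e (nat_lit 2383) (nat_lit 155) (.e (nat_lit 811011) (nat_lit 0) (.e (nat_lit 5777) (nat_lit 317) (.e (nat_lit 180248) (nat_lit 9) (.e (nat_lit 573184) (nat_lit 6) .nil)))))) (.g (nat_lit 5) .nil .nil))) 
(.lf (nat_lit 207605) (.g (nat_lit 520) (.e (nat_lit 81933) (nat_lit 20) (.e (nat_lit 2384) (nat_lit 155) (.e (nat_lit 811011) (nat_lit 0) (.e (nat_lit 5777) (nat_lit 317) (.e (nat_lit 180248) (nat_lit 9) (.e (nat_lit 573184) (nat_lit 6) .nil)))))) (.g (nat_lit 5) .nil .nil))))) (.nd (nat_lit 4) (.nd (nat_lit 5) 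
(.lf (nat_lit 207565) (.g (nat_lit 593) (.e (nat_lit 81933) (nat_lit 20) (.e (nat_lit 2375) (nat_lit 154) (.e (nat_lit 810752) (nat_lit 14) (.e (nat_lit 360453) (nat_lit 0) (.e (nat_lit 7147) (nat_lit 382) (.e (nat_lit 7936) (nat_lit 90) .nil)))))) (.g (nat_lit 5) .nil .nil))) 
(.lf (nat_lit 207597) (.g (nat_lit 353) (.e (nat_lit 81933) (nat_lit 20) (.e (nat_lit 2384) (nat_lit 155) (.e (nat_lit 811009) (nat_lit 0) (.e (nat_lit 5772) (nat_lit 316) (.e (nat_lit 172140) (nat_lit 22) .nil))))) .nil))) (.nd (nat_lit 5) 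
(.lf (nat_lit 207581) (.g (nat_lit 476) (.e (nat_lit 81933) (nat_lit 20) (.e (nat_lit 2383) (nat_lit 155) (.e (nat_lit 811012) (nat_lit 0) (.e (nat_lit 5772) (nat_lit 316) (.e (nat_lit 172140) (nat_lit 22) (.e (nat_lit 139282) (nat_lit 6) .nil)))))) (.g (nat_lit 0) .nil .nil))) 
(.lf (nat_lit 207613) (.g (nat_lit 350) (.e (nat_lit 81933) (nat_lit 20) (.e (nat_lit 2384) (nat_lit 155) (.e (nat_lit 811012) (nat_lit 0) (.e (nat_lit 5773) (nat_lit 316) (.e (nat_lit 179968) (nat_lit 17) (.e (nat_lit 98048) (nat_lit 6) .nil)))))) (.g (nat_lit 4) .nil .nil))))))) (.nd (nat_lit 2) (.nd (nat_lit 3) (.nd (nat_lit 4) (.nd (nat_lit 5) 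
(.lf (nat_lit 207555) (.g (nat_lit 1294) (.e (nat_lit 81933) (nat_lit 20) (.e (nat_lit 2375) (nat_lit 154) (.e (nat_lit 802828) (nat_lit 13) (.e (nat_lit 352309) (nat_lit 21) (.e (nat_lit 57654) (nat_lit 152) (.e (nat_lit 7936) (nat_lit 90) .nil)))))) (.g (nat_lit 5) .nil .nil))) 
(.lf (nat_lit 207587) (.g (nat_lit 443) (.e (nat_lit 81933) (nat_lit 20) (.e (nat_lit 2383) (nat_lit 155) (.e (nat_lit 811012) (nat_lit 0) (.e (nat_lit 5779) (nat_lit 317) (.e (nat_lit 188160) (nat_lit 8) (.e (nat_lit 564992) (nat_lit 6) .nil)))))) (.g (nat_lit 4) .nil .nil)))) (.nd (nat_lit 5) 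
(.lf (nat_lit 207571) (.g (nat_lit 615) (.e (nat_lit 81933) (nat_lit 20) (.e (nat_lit 2383) (nat_lit 155) (.e (nat_lit 811011) (nat_lit 0) (.e (nat_lit 5776) (nat_lit 317) (.e (nat_lit 180248) (nat_lit 9) (.e (nat_lit 573184) (nat_lit 6) .nil)))))) (.g (nat_lit 5) .nil .nil))) 
(.lf (nat_lit 207603) (.g (nat_lit 677) (.e (nat_lit 81933) (nat_lit 20) (.e (nat_lit 2384) (nat_lit 155) (.e (nat_lit 811011) (nat_lit 0) (.e (nat_lit 5776) (nat_lit 317) (.e (nat_lit 180248) (nat_lit 9) (.e (nat_lit 573184) (nat_lit 6) .nil)))))) (.g (nat_lit 5) .nil .nil))))) (.nd (nat_lit 4) (.nd (nat_lit 5) 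
(.lf (nat_lit 207563) (.g (nat_lit 646) (.e (nat_lit 81933) (nat_lit 20) (.e (nat_lit 2375) (nat_lit 154) (.e (nat_lit 810752) (nat_lit 14) (.e (nat_lit 360452) (nat_lit 0) (.e (nat_lit 7147) (nat_lit 382) (.e (nat_lit 7936) (nat_lit 90) .nil)))))) (.g (nat_lit 5) .nil .nil))) 
(.lf (nat_lit 207595) (.g (nat_lit 1497) (.e (nat_lit 81933) (nat_lit 20) (.e (nat_lit 2383) (nat_lit 155) (.e (nat_lit 811030) (nat_lit 10) (.e (nat_lit 311325) (nat_lit 9) (.e (nat_lit 426432) (nat_lit 17) (.e (nat_lit 98048) (nat_lit 6) .nil)))))) (.g (nat_lit 5) .nil .nil)))) (.nd (nat_lit 5) 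
(.lf (nat_lit 207579) (.g (nat_lit 257) (.e (nat_lit 81933) (nat_lit 20) (.e (nat_lit 2383) (nat_lit 155) (.e (nat_lit 811012) (nat_lit 0) (.e (nat_lit 5770) (nat_lit 316) (.e (nat_lit 179968) (nat_lit 17) .nil))))) .nil)) 
(.lf (nat_lit 207611) (.g (nat_lit 324) (.e (nat_lit 81933) (nat_lit 20) (.e (nat_lit 2384) (nat_lit 155) (.e (nat_lit 811012) (nat_lit 0) (.e (nat_lit 5770) (nat_lit 316) (.e (nat_lit 179968) (nat_lit 17) .nil))))) .nil))))) (.nd (nat_lit 3) (.nd (nat_lit 4) (.nd (nat_lit 5) 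
(.lf (nat_lit 207559) (.g (nat_lit 884) (.e (nat_lit 81933) (nat_lit 20) (.e (nat_lit 2375) (nat_lit 154) (.e (nat_lit 810752) (nat_lit 14) (.e (nat_lit 360449) (nat_lit 0) (.e (nat_lit 7124) (nat_lit 382) (.e (nat_lit 7936) (nat_lit 90) .nil)))))) (.g (nat_lit 5) .nil .nil))) 
(.lf (nat_lit 207591) (.g (nat_lit 1641) (.e (nat_lit 81933) (nat_lit 20) (.e (nat_lit 2383) (nat_lit 155) (.e (nat_lit 811029) (nat_lit 9) (.e (nat_lit 303137) (nat_lit 10) (.e (nat_lit 434241) (nat_lit 27) (.e (nat_lit 565269) (nat_lit 6) .nil)))))) (.g (nat_lit 6) .nil .nil)))) (.nd (nat_lit 5) 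
(.lf (nat_lit 207575) (.g (nat_lit 649) (.e (nat_lit 81933) (nat_lit 20) (.e (nat_lit 2383) (nat_lit 155) (.e (nat_lit 811011) (nat_lit 0) (.e (nat_lit 5779) (nat_lit 317) (.e (nat_lit 180248) (nat_lit 9) (.e (nat_lit 573184) (nat_lit 6) .nil)))))) (.g (nat_lit 5) .nil .nil))) 
(.lf (nat_lit 207607) (.g (nat_lit 719) (.e (nat_lit 81933) (nat_lit 20) (.e (nat_lit 2384) (nat_lit 155) (.e (nat_lit 811011) (nat_lit 0) (.e (nat_lit 5779) (nat_lit 317) (.e (nat_lit 180248) (nat_lit 9) (.e (nat_lit 573184) (nat_lit 6) .nil)))))) (.g (nat_lit 5) .nil .nil))))) (.nd (nat_lit 4) (.nd (nat_lit 5) 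
(.lf (nat_lit 207567) (.g (nat_lit 431) (.e (nat_lit 81933) (nat_lit 20) (.e (nat_lit 2383) (nat_lit 155) (.e (nat_lit 811011) (nat_lit 0) (.e (nat_lit 5768) (nat_lit 316) (.e (nat_lit 179968) (nat_lit 17) (.e (nat_lit 98048) (nat_lit 6) .nil)))))) (.g (nat_lit 4) .nil .nil))) 
(.lf (nat_lit 207599) (.g (nat_lit 479) (.e (nat_lit 81933) (nat_lit 20) (.e (nat_lit 2384) (nat_lit 155) (.e (nat_lit 811011) (nat_lit 0) (.e (nat_lit 5768) (nat_lit 316) (.e (nat_lit 179968) (nat_lit 17) (.e (nat_lit 98048) (nat_lit 6) .nil)))))) (.g (nat_lit 4) .nil .nil)))) (.nd (nat_lit 5) 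
(.lf (nat_lit 207583) (.g (nat_lit 362) (.e (nat_lit 81933) (nat_lit 20) (.e (nat_lit 2383) (nat_lit 155) (.e (nat_lit 811012) (nat_lit 0) (.e (nat_lit 5776) (nat_lit 317) (.e (nat_lit 188160) (nat_lit 8) (.e (nat_lit 564992) (nat_lit 6) .nil)))))) (.g (nat_lit 4) .nil .nil))) 
(.lf (nat_lit 207615) (.g (nat_lit 625) (.e (nat_lit 81933) (nat_lit 20) (.e (nat_lit 2384) (nat_lit 155) (.e (nat_lit 811012) (nat_lit 0) (.e (nat_lit 5776) (nat_lit 317) (.e (nat_lit 180248) (nat_lit 9) (.e (nat_lit 573184) (nat_lit 6) .nil)))))) (.g (nat_lit 5) .nil .nil)))))))))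

noncomputable def tv2736 : DT := (.nd (nat_lit 0) (.nd (nat_lit 1) (.nd (nat_lit 2) (.nd (nat_lit 3) (.nd (nat_lit 4) (.nd (nat_lit 5) 
(.lf (nat_lit 207616) (.g (nat_lit 333) (.e (nat_lit 81933) (nat_lit 20) (.e (nat_lit 2384) (nat_lit 155) (.e (nat_lit 811012) (nat_lit 0) (.e (nat_lit 5777) (nat_lit 317) (.e (nat_lit 188160) (nat_lit 8) (.e (nat_lit 564992) (nat_lit 6) .nil)))))) (.g (nat_lit 4) .nil .nil))) 
(.lf (nat_lit 207648) (.g (nat_lit 371) (.e (nat_lit 81934) (nat_lit 20) (.e (nat_lit 2384) (nat_lit 155) (.e (nat_lit 811012) (nat_lit 0) (.e (nat_lit 5776) (nat_lit 317) (.e (nat_lit 188160) (nat_lit 8) .nil))))) .nil))) (.nd (nat_lit 5) 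
(.lf (nat_lit 207632) (.g (nat_lit 1272) (.e (nat_lit 81934) (nat_lit 20) (.e (nat_lit 2375) (nat_lit 154) (.e (nat_lit 802828) (nat_lit 13) (.e (nat_lit 352290) (nat_lit 20) (.e (nat_lit 2281) (nat_lit 150) (.e (nat_lit 770074) (nat_lit 10) .nil)))))) (.g (nat_lit 0) .nil .nil))) 
(.lf (nat_lit 207664) (.g (nat_lit 1364) (.e (nat_lit 81935) (nat_lit 20) (.e (nat_lit 1879) (nat_lit 126) (.e (nat_lit 573445) (nat_lit 0) (.e (nat_lit 3011) (nat_lit 187) (.e (nat_lit 450563) (nat_lit 0) (.e (nat_lit 6808) (nat_lit 365) (.e (nat_lit 7936) (nat_lit 90) .nil))))))) (.g (nat_lit 6) .nil .nil))))) (.nd (nat_lit 4) (.nd (nat_lit 5) 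
(.lf (nat_lit 207624) (.g (nat_lit 1310) (.e (nat_lit 81934) (nat_lit 20) (.e (nat_lit 1996) (nat_lit 137) (.e (nat_lit 663569) (nat_lit 6) (.e (nat_lit 81943) (nat_lit 20) (.e (nat_lit 2005) (nat_lit 138) (.e (nat_lit 671764) (nat_lit 6) .nil)))))) (.g (nat_lit 6) .nil .nil))) 
(.lf (nat_lit 207656) (.g (nat_lit 1139) (.e (nat_lit 81935) (nat_lit 20) (.e (nat_lit 973) (nat_lit 81) (.e (nat_lit 5961) (nat_lit 323) (.e (nat_lit 122916) (nat_lit 14) (.e (nat_lit 352270) (nat_lit 8) .nil))))) .nil))) (.nd (nat_lit 5) 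
(.lf (nat_lit 207640) (.g (nat_lit 431) (.e (nat_lit 81934) (nat_lit 20) (.e (nat_lit 2384) (nat_lit 155) (.e (nat_lit 811011) (nat_lit 0) (.e (nat_lit 5776) (nat_lit 317) (.e (nat_lit 188160) (nat_lit 8) .nil))))) .nil)) 
(.lf (nat_lit 207672) (.g (nat_lit 829) (.e (nat_lit 81935) (nat_lit 20) (.e (nat_lit 1994) (nat_lit 137) (.e (nat_lit 663567) (nat_lit 4) (.e (nat_lit 65609) (nat_lit 10) .nil)))) .nil))))) (.nd (nat_lit 3) (.nd (nat_lit 4) (.nd (nat_lit 5) 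
(.lf (nat_lit 207620) (.g (nat_lit 302) (.e (nat_lit 81933) (nat_lit 20) (.e (nat_lit 2384) (nat_lit 155) (.e (nat_lit 811012) (nat_lit 0) (.e (nat_lit 5780) (nat_lit 317) (.e (nat_lit 188160) (nat_lit 8) (.e (nat_lit 564992) (nat_lit 6) .nil)))))) (.g (nat_lit 4) .nil .nil))) 
(.lf (nat_lit 207652) (.g (nat_lit 4537) (.e (nat_lit 81935) (nat_lit 20) (.e (nat_lit 970) (nat_lit 81) (.e (nat_lit 5954) (nat_lit 322) (.e (nat_lit 57424) (nat_lit 14) (.e (nat_lit 352318) (nat_lit 24) (.e (nat_lit 123182) (nat_lit 264) (.e (nat_lit 1222) (nat_lit 90) .nil))))))) (.g (nat_lit 7) .nil .nil)))) (.nd (nat_lit 5) 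
(.lf (nat_lit 207636) (.g (nat_lit 149) (.e (nat_lit 81934) (nat_lit 20) (.e (nat_lit 2384) (nat_lit 155) (.e (nat_lit 811011) (nat_lit 0) .nil))) .nil)) 
(.lf (nat_lit 207668) (.g (nat_lit 3284) (.e (nat_lit 81935) (nat_lit 20) (.e (nat_lit 1994) (nat_lit 137) (.e (nat_lit 663567) (nat_lit 4) (.e (nat_lit 65598) (nat_lit 9) (.e (nat_lit 335997) (nat_lit 1) (.e (nat_lit 57872) (nat_lit 264) (.e (nat_lit 1219) (nat_lit 90) .nil))))))) (.g (nat_lit 7) .nil .nil))))) (.nd (nat_lit 4) (.nd (nat_lit 5) 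
(.lf (nat_lit 207628) (.g (nat_lit 1271) (.e (nat_lit 81934) (nat_lit 20) (.e (nat_lit 1999) (nat_lit 137) (.e (nat_lit 663569) (nat_lit 6) (.e (nat_lit 81939) (nat_lit 20) (.e (nat_lit 2006) (nat_lit 138) (.e (nat_lit 671764) (nat_lit 6) .nil)))))) (.g (nat_lit 0) .nil .nil))) 
(.lf (nat_lit 207660) (.g (nat_lit 1403) (.e (nat_lit 81935) (nat_lit 20) (.e (nat_lit 1878) (nat_lit 126) (.e (nat_lit 573445) (nat_lit 0) (.e (nat_lit 3011) (nat_lit 187) (.e (nat_lit 450563) (nat_lit 0) (.e (nat_lit 6808) (nat_lit 365) (.e (nat_lit 7936) (nat_lit 90) .nil))))))) (.g (nat_lit 6) .nil .nil)))) (.nd (nat_lit 5) 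
(.lf (nat_lit 207644) (.g (nat_lit 358) (.e (nat_lit 81934) (nat_lit 20) (.e (nat_lit 2384) (nat_lit 155) (.e (nat_lit 811012) (nat_lit 0) (.e (nat_lit 5768) (nat_lit 316) (.e (nat_lit 179968) (nat_lit 17) .nil))))) .nil)) 
(.lf (nat_lit 207676) (.g (nat_lit 2252) (.e (nat_lit 81935) (nat_lit 20) (.e (nat_lit 1994) (nat_lit 137) (.e (nat_lit 663567) (nat_lit 4) (.e (nat_lit 65622) (nat_lit 12) (.e (nat_lit 385093) (nat_lit 49) (.e (nat_lit 786176) (nat_lit 6) .nil)))))) (.g (nat_lit 5) .nil .nil))))))) (.nd (nat_lit 2) (.nd (nat_lit 3) (.nd (nat_lit 4) (.nd (nat_lit 5) 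
(.lf (nat_lit 207618) (.g (nat_lit 500) (.e (nat_lit 81933) (nat_lit 20) (.e (nat_lit 2384) (nat_lit 155) (.e (nat_lit 811012) (nat_lit 0) (.e (nat_lit 5779) (nat_lit 317) (.e (nat_lit 188160) (nat_lit 8) (.e (nat_lit 564992) (nat_lit 6) .nil)))))) (.g (nat_lit 4) .nil .nil))) 
(.lf (nat_lit 207650) (.g (nat_lit 2678) (.e (nat_lit 81935) (nat_lit 20) (.e (nat_lit 970) (nat_lit 81) (.e (nat_lit 5954) (nat_lit 322) (.e (nat_lit 57424) (nat_lit 14) (.e (nat_lit 352270) (nat_lit 8) (.e (nat_lit 270080) (nat_lit 6) .nil)))))) (.g (nat_lit 5) .nil .nil)))) (.nd (nat_lit 5) 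
(.lf (nat_lit 207634) (.g (nat_lit 1229) (.e (nat_lit 81934) (nat_lit 20) (.e (nat_lit 2375) (nat_lit 154) (.e (nat_lit 802828) (nat_lit 13) (.e (nat_lit 352303) (nat_lit 20) (.e (nat_lit 2281) (nat_lit 150) (.e (nat_lit 770074) (nat_lit 10) .nil)))))) (.g (nat_lit 0) .nil .nil))) 
(.lf (nat_lit 207666) (.g (nat_lit 2514) (.e (nat_lit 81935) (nat_lit 20) (.e (nat_lit 1994) (nat_lit 137) (.e (nat_lit 663567) (nat_lit 4) (.e (nat_lit 65598) (nat_lit 9) (.e (nat_lit 335907) (nat_lit 0) (.e (nat_lit 1994) (nat_lit 137) (.e (nat_lit 663569) (nat_lit 6) .nil))))))) (.g (nat_lit 5) .nil .nil))))) (.nd (nat_lit 4) (.nd (nat_lit 5) 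
(.lf (nat_lit 207626) (.g (nat_lit 1685) (.e (nat_lit 81934) (nat_lit 20) (.e (nat_lit 1996) (nat_lit 137) (.e (nat_lit 663569) (nat_lit 6) (.e (nat_lit 81947) (nat_lit 20) (.e (nat_lit 2005) (nat_lit 138) (.e (nat_lit 671764) (nat_lit 6) .nil)))))) (.g (nat_lit 6) .nil .nil))) 
(.lf (nat_lit 207658) (.g (nat_lit 2828) (.e (nat_lit 81935) (nat_lit 20) (.e (nat_lit 1874) (nat_lit 126) (.e (nat_lit 573474) (nat_lit 12) (.e (nat_lit 57528) (nat_lit 46) (.e (nat_lit 712448) (nat_lit 11) .nil))))) .nil))) (.nd (nat_lit 5) 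
(.lf (nat_lit 207642) (.g (nat_lit 500) (.e (nat_lit 81934) (nat_lit 20) (.e (nat_lit 2384) (nat_lit 155) (.e (nat_lit 811011) (nat_lit 0) (.e (nat_lit 5779) (nat_lit 317) (.e (nat_lit 188160) (nat_lit 8) .nil))))) .nil)) 
(.lf (nat_lit 207674) (.g (nat_lit 1786) (.e (nat_lit 81935) (nat_lit 20) (.e (nat_lit 1994) (nat_lit 137) (.e (nat_lit 663567) (nat_lit 4) (.e (nat_lit 65610) (nat_lit 10) (.e (nat_lit 344097) (nat_lit 18) (.e (nat_lit 5907) (nat_lit 320) (.e (nat_lit 7936) (nat_lit 90) .nil))))))) (.g (nat_lit 4) .nil .nil)))))) (.nd (nat_lit 3) (.nd (nat_lit 4) (.nd (nat_lit 5) 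
(.lf (nat_lit 207622) (.g (nat_lit 1457) (.e (nat_lit 81934) (nat_lit 20) (.e (nat_lit 1994) (nat_lit 137) (.e (nat_lit 663569) (nat_lit 6) (.e (nat_lit 81947) (nat_lit 20) (.e (nat_lit 2003) (nat_lit 138) .nil))))) .nil)) 
(.lf (nat_lit 207654) (.g (nat_lit 855) (.e (nat_lit 81935) (nat_lit 20) (.e (nat_lit 970) (nat_lit 81) (.e (nat_lit 5954) (nat_lit 322) (.e (nat_lit 57427) (nat_lit 15) .nil)))) .nil))) (.nd (nat_lit 5) 
(.lf (nat_lit 207638) (.g (nat_lit 380) (.e (nat_lit 81934) (nat_lit 20) (.e (nat_lit 2384) (nat_lit 155) (.e (nat_lit 811011) (nat_lit 0) (.e (nat_lit 5772) (nat_lit 316) (.e (nat_lit 179968) (nat_lit 17) .nil))))) .nil)) 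
(.lf (nat_lit 207670) (.g (nat_lit 2776) (.e (nat_lit 81935) (nat_lit 20) (.e (nat_lit 1994) (nat_lit 137) (.e (nat_lit 663567) (nat_lit 4) (.e (nat_lit 65604) (nat_lit 9) (.e (nat_lit 335997) (nat_lit 1) (.e (nat_lit 57870) (nat_lit 264) (.e (nat_lit 1219) (nat_lit 90) .nil))))))) (.g (nat_lit 7) .nil .nil))))) (.nd (nat_lit 4) (.nd (nat_lit 5) 
(.lf (nat_lit 207630) (.g (nat_lit 1942) (.e (nat_lit 81934) (nat_lit 20) (.e (nat_lit 1999) (nat_lit 137) (.e (nat_lit 663569) (nat_lit 6) (.e (nat_lit 81947) (nat_lit 20) (.e (nat_lit 2006) (nat_lit 138) (.e (nat_lit 671764) (nat_lit 6) .nil)))))) (.g (nat_lit 0) .nil .nil))) 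
(.lf (nat_lit 207662) (.g (nat_lit 1361) (.e (nat_lit 81935) (nat_lit 20) (.e (nat_lit 1879) (nat_lit 126) (.e (nat_lit 573444) (nat_lit 0) (.e (nat_lit 3011) (nat_lit 187) (.e (nat_lit 450563) (nat_lit 0) (.e (nat_lit 6808) (nat_lit 365) (.e (nat_lit 7936) (nat_lit 90) .nil))))))) (.g (nat_lit 6) .nil .nil)))) (.nd (nat_lit 5) 
(.lf (nat_lit 207646) (.g (nat_lit 330) (.e (nat_lit 81934) (nat_lit 20) (.e (nat_lit 2384) (nat_lit 155) (.e (nat_lit 811012) (nat_lit 0) (.e (nat_lit 5772) (nat_lit 316) (.e (nat_lit 179968) (nat_lit 17) .nil))))) .nil)) 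
(.lf (nat_lit 207678) (.g (nat_lit 2434) (.e (nat_lit 81935) (nat_lit 20) (.e (nat_lit 1994) (nat_lit 137) (.e (nat_lit 663567) (nat_lit 4) (.e (nat_lit 65624) (nat_lit 12) (.e (nat_lit 385093) (nat_lit 49) (.e (nat_lit 778326) (nat_lit 6) .nil)))))) (.g (nat_lit 6) .nil .nil)))))))) (.nd (nat_lit 1) (.nd (nat_lit 2) (.nd (nat_lit 3) (.nd (nat_lit 4) (.nd (nat_lit 5) 
(.lf (nat_lit 207617) (.g (nat_lit 467) (.e (nat_lit 81933) (nat_lit 20) (.e (nat_lit 2384) (nat_lit 155) (.e (nat_lit 811012) (nat_lit 0) (.e (nat_lit 5777) (nat_lit 317) (.e (nat_lit 180248) (nat_lit 9) (.e (nat_lit 573184) (nat_lit 6) .nil)))))) (.g (nat_lit 5) .nil .nil))) 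
(.lf (nat_lit 207649) (.g (nat_lit 452) (.e (nat_lit 81934) (nat_lit 20) (.e (nat_lit 2384) (nat_lit 155) (.e (nat_lit 811012) (nat_lit 0) (.e (nat_lit 5779) (nat_lit 317) (.e (nat_lit 188160) (nat_lit 8) .nil))))) .nil))) (.nd (nat_lit 5) 
(.lf (nat_lit 207633) (.g (nat_lit 1304) (.e (nat_lit 81934) (nat_lit 20) (.e (nat_lit 2375) (nat_lit 154) (.e (nat_lit 802828) (nat_lit 13) (.e (nat_lit 352297) (nat_lit 20) (.e (nat_lit 2281) (nat_lit 150) (.e (nat_lit 770074) (nat_lit 10) .nil)))))) (.g (nat_lit 0) .nil .nil))) 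
(.lf (nat_lit 207665) (.g (nat_lit 1622) (.e (nat_lit 81935) (nat_lit 20) (.e (nat_lit 1994) (nat_lit 137) (.e (nat_lit 663554) (nat_lit 0) (.e (nat_lit 1595) (nat_lit 111) (.e (nat_lit 360453) (nat_lit 0) (.e (nat_lit 5907) (nat_lit 320) (.e (nat_lit 1219) (nat_lit 90) .nil))))))) (.g (nat_lit 4) .nil .nil))))) (.nd (nat_lit 4) (.nd (nat_lit 5) 
(.lf (nat_lit 207625) (.g (nat_lit 1488) (.e (nat_lit 81934) (nat_lit 20) (.e (nat_lit 1996) (nat_lit 137) (.e (nat_lit 663569) (nat_lit 6) (.e (nat_lit 81946) (nat_lit 20) (.e (nat_lit 2005) (nat_lit 138) (.e (nat_lit 671764) (nat_lit 6) .nil)))))) (.g (nat_lit 6) .nil .nil))) 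
(.lf (nat_lit 207657) (.g (nat_lit 2119) (.e (nat_lit 81935) (nat_lit 20) (.e (nat_lit 1834) (nat_lit 123) (.e (nat_lit 548889) (nat_lit 9) (.e (nat_lit 65624) (nat_lit 12) .nil)))) .nil))) (.nd (nat_lit 5) 
(.lf (nat_lit 207641) (.g (nat_lit 263) (.e (nat_lit 81934) (nat_lit 20) (.e (nat_lit 2384) (nat_lit 155) (.e (nat_lit 811011) (nat_lit 0) (.e (nat_lit 5777) (nat_lit 317) .nil)))) .nil)) 
(.lf (nat_lit 207673) (.g (nat_lit 3442) (.e (nat_lit 81935) (nat_lit 20) (.e (nat_lit 1994) (nat_lit 137) (.e (nat_lit 663567) (nat_lit 4) (.e (nat_lit 65610) (nat_lit 10) (.e (nat_lit 344097) (nat_lit 18) (.e (nat_lit 5907) (nat_lit 320) (.e (nat_lit 1219) (nat_lit 90) .nil))))))) (.g (nat_lit 7) .nil .nil)))))) (.nd (nat_lit 3) (.nd (nat_lit 4) (.nd (nat_lit 5) 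
(.lf (nat_lit 207621) (.g (nat_lit 477) (.e (nat_lit 81933) (nat_lit 20) (.e (nat_lit 2384) (nat_lit 155) (.e (nat_lit 811012) (nat_lit 0) (.e (nat_lit 5780) (nat_lit 317) (.e (nat_lit 180248) (nat_lit 9) (.e (nat_lit 573184) (nat_lit 6) .nil)))))) (.g (nat_lit 5) .nil .nil))) 
(.lf (nat_lit 207653) (.g (nat_lit 4044) (.e (nat_lit 81935) (nat_lit 20) (.e (nat_lit 970) (nat_lit 81) (.e (nat_lit 5954) (nat_lit 322) (.e (nat_lit 57424) (nat_lit 14) (.e (nat_lit 352318) (nat_lit 24) (.e (nat_lit 123183) (nat_lit 264) (.e (nat_lit 1222) (nat_lit 90) .nil))))))) (.g (nat_lit 7) .nil .nil)))) (.nd (nat_lit 5) 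
(.lf (nat_lit 207637) (.g (nat_lit 419) (.e (nat_lit 81934) (nat_lit 20) (.e (nat_lit 2384) (nat_lit 155) (.e (nat_lit 811011) (nat_lit 0) (.e (nat_lit 5768) (nat_lit 316) (.e (nat_lit 179968) (nat_lit 17) .nil))))) .nil)) 
(.lf (nat_lit 207669) (.g (nat_lit 1802) (.e (nat_lit 81935) (nat_lit 20) (.e (nat_lit 1994) (nat_lit 137) (.e (nat_lit 663567) (nat_lit 4) (.e (nat_lit 65598) (nat_lit 9) (.e (nat_lit 336032) (nat_lit 4) (.e (nat_lit 123184) (nat_lit 264) (.e (nat_lit 1222) (nat_lit 90) .nil))))))) (.g (nat_lit 4) .nil .nil))))) (.nd (nat_lit 4) (.nd (nat_lit 5) 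
(.lf (nat_lit 207629) (.g (nat_lit 1384) (.e (nat_lit 81934) (nat_lit 20) (.e (nat_lit 1999) (nat_lit 137) (.e (nat_lit 663569) (nat_lit 6) (.e (nat_lit 81943) (nat_lit 20) (.e (nat_lit 2005) (nat_lit 138) (.e (nat_lit 671764) (nat_lit 6) .nil)))))) (.g (nat_lit 0) .nil .nil))) 
(.lf (nat_lit 207661) (.g (nat_lit 1562) (.e (nat_lit 81935) (nat_lit 20) (.e (nat_lit 1879) (nat_lit 126) (.e (nat_lit 573444) (nat_lit 0) (.e (nat_lit 3011) (nat_lit 187) (.e (nat_lit 450562) (nat_lit 0) (.e (nat_lit 6808) (nat_lit 365) (.e (nat_lit 7936) (nat_lit 90) .nil))))))) (.g (nat_lit 6) .nil .nil)))) (.nd (nat_lit 5) 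
(.lf (nat_lit 207645) (.g (nat_lit 225) (.e (nat_lit 81934) (nat_lit 20) (.e (nat_lit 2384) (nat_lit 155) (.e (nat_lit 811012) (nat_lit 0) (.e (nat_lit 5770) (nat_lit 316) .nil)))) .nil)) 
(.lf (nat_lit 207677) (.g (nat_lit 2344) (.e (nat_lit 81935) (nat_lit 20) (.e (nat_lit 1994) (nat_lit 137) (.e (nat_lit 663567) (nat_lit 4) (.e (nat_lit 65622) (nat_lit 12) (.e (nat_lit 385094) (nat_lit 49) (.e (nat_lit 778326) (nat_lit 6) .nil)))))) (.g (nat_lit 6) .nil .nil))))))) (.nd (nat_lit 2) (.nd (nat_lit 3) (.nd (nat_lit 4) (.nd (nat_lit 5) 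
(.lf (nat_lit 207619) (.g (nat_lit 682) (.e (nat_lit 81933) (nat_lit 20) (.e (nat_lit 2384) (nat_lit 155) (.e (nat_lit 811012) (nat_lit 0) (.e (nat_lit 5779) (nat_lit 317) (.e (nat_lit 180248) (nat_lit 9) (.e (nat_lit 573184) (nat_lit 6) .nil)))))) (.g (nat_lit 5) .nil .nil))) 
(.lf (nat_lit 207651) (.g (nat_lit 1714) (.e (nat_lit 81935) (nat_lit 20) (.e (nat_lit 970) (nat_lit 81) (.e (nat_lit 5954) (nat_lit 322) (.e (nat_lit 57424) (nat_lit 14) (.e (nat_lit 352318) (nat_lit 24) .nil))))) .nil))) (.nd (nat_lit 5) 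
(.lf (nat_lit 207635) (.g (nat_lit 155) (.e (nat_lit 81934) (nat_lit 20) (.e (nat_lit 2384) (nat_lit 155) (.e (nat_lit 811009) (nat_lit 0) .nil))) .nil)) 
(.lf (nat_lit 207667) (.g (nat_lit 2492) (.e (nat_lit 81935) (nat_lit 20) (.e (nat_lit 1994) (nat_lit 137) (.e (nat_lit 663567) (nat_lit 4) (.e (nat_lit 65598) (nat_lit 9) (.e (nat_lit 335907) (nat_lit 0) (.e (nat_lit 1996) (nat_lit 137) (.e (nat_lit 663569) (nat_lit 6) .nil))))))) (.g (nat_lit 5) .nil .nil))))) (.nd (nat_lit 4) (.nd (nat_lit 5) 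
(.lf (nat_lit 207627) (.g (nat_lit 72) (.e (nat_lit 81934) (nat_lit 20) (.e (nat_lit 1998) (nat_lit 137) (.e (nat_lit 663569) (nat_lit 6) .nil))) .nil)) 
(.lf (nat_lit 207659) (.g (nat_lit 1569) (.e (nat_lit 81935) (nat_lit 20) (.e (nat_lit 1878) (nat_lit 126) (.e (nat_lit 573445) (nat_lit 0) (.e (nat_lit 3011) (nat_lit 187) (.e (nat_lit 450562) (nat_lit 0) (.e (nat_lit 6808) (nat_lit 365) (.e (nat_lit 7936) (nat_lit 90) .nil))))))) (.g (nat_lit 6) .nil .nil)))) (.nd (nat_lit 5) 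
(.lf (nat_lit 207643) (.g (nat_lit 149) (.e (nat_lit 81934) (nat_lit 20) (.e (nat_lit 2384) (nat_lit 155) (.e (nat_lit 811012) (nat_lit 0) .nil))) .nil)) 
(.lf (nat_lit 207675) (.g (nat_lit 3476) (.e (nat_lit 81935) (nat_lit 20) (.e (nat_lit 1994) (nat_lit 137) (.e (nat_lit 663567) (nat_lit 4) (.e (nat_lit 65619) (nat_lit 10) (.e (nat_lit 344097) (nat_lit 18) (.e (nat_lit 5907) (nat_lit 320) (.e (nat_lit 1219) (nat_lit 90) .nil))))))) (.g (nat_lit 7) .nil .nil)))))) (.nd (nat_lit 3) (.nd (nat_lit 4) (.nd (nat_lit 5) 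
(.lf (nat_lit 207623) (.g (nat_lit 1121) (.e (nat_lit 81934) (nat_lit 20) (.e (nat_lit 1996) (nat_lit 137) (.e (nat_lit 663569) (nat_lit 6) (.e (nat_lit 81939) (nat_lit 20) (.e (nat_lit 2005) (nat_lit 138) (.e (nat_lit 671764) (nat_lit 6) .nil)))))) (.g (nat_lit 6) .nil .nil))) 
(.lf (nat_lit 207655) (.g (nat_lit 1715) (.e (nat_lit 81935) (nat_lit 20) (.e (nat_lit 970) (nat_lit 81) (.e (nat_lit 5954) (nat_lit 322) (.e (nat_lit 57427) (nat_lit 15) (.e (nat_lit 360455) (nat_lit 0) .nil))))) .nil))) (.nd (nat_lit 5) 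
(.lf (nat_lit 207639) (.g (nat_lit 412) (.e (nat_lit 81934) (nat_lit 20) (.e (nat_lit 2384) (nat_lit 155) (.e (nat_lit 811011) (nat_lit 0) (.e (nat_lit 5773) (nat_lit 316) (.e (nat_lit 179968) (nat_lit 17) .nil))))) .nil)) 
(.lf (nat_lit 207671) (.g (nat_lit 3244) (.e (nat_lit 81935) (nat_lit 20) (.e (nat_lit 1994) (nat_lit 137) (.e (nat_lit 663567) (nat_lit 4) (.e (nat_lit 65604) (nat_lit 9) (.e (nat_lit 335997) (nat_lit 1) (.e (nat_lit 57872) (nat_lit 264) (.e (nat_lit 1219) (nat_lit 90) .nil))))))) (.g (nat_lit 7) .nil .nil))))) (.nd (nat_lit 4) (.nd (nat_lit 5) 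
(.lf (nat_lit 207631) (.g (nat_lit 1350) (.e (nat_lit 81934) (nat_lit 20) (.e (nat_lit 2372) (nat_lit 154) (.e (nat_lit 810752) (nat_lit 14) (.e (nat_lit 360451) (nat_lit 0) (.e (nat_lit 7124) (nat_lit 382) (.e (nat_lit 7936) (nat_lit 90) .nil)))))) (.g (nat_lit 5) .nil .nil))) 
(.lf (nat_lit 207663) (.g (nat_lit 1528) (.e (nat_lit 81935) (nat_lit 20) (.e (nat_lit 1879) (nat_lit 126) (.e (nat_lit 573445) (nat_lit 0) (.e (nat_lit 3011) (nat_lit 187) (.e (nat_lit 450562) (nat_lit 0) (.e (nat_lit 6808) (nat_lit 365) (.e (nat_lit 7936) (nat_lit 90) .nil))))))) (.g (nat_lit 6) .nil .nil)))) (.nd (nat_lit 5) 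
(.lf (nat_lit 207647) (.g (nat_lit 317) (.e (nat_lit 81934) (nat_lit 20) (.e (nat_lit 2384) (nat_lit 155) (.e (nat_lit 811012) (nat_lit 0) (.e (nat_lit 5773) (nat_lit 316) (.e (nat_lit 179968) (nat_lit 17) .nil))))) .nil)) 
(.lf (nat_lit 207679) (.g (nat_lit 2488) (.e (nat_lit 81935) (nat_lit 20) (.e (nat_lit 1994) (nat_lit 137) (.e (nat_lit 663567) (nat_lit 4) (.e (nat_lit 65624) (nat_lit 12) (.e (nat_lit 385094) (nat_lit 49) (.e (nat_lit 778326) (nat_lit 6) .nil)))))) (.g (nat_lit 6) .nil .nil)))))))))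

noncomputable def tv2737 : DT := (.nd (nat_lit 0) (.nd (nat_lit 1) (.nd (nat_lit 2) (.nd (nat_lit 3) (.nd (nat_lit 4) (.nd (nat_lit 5) 
(.lf (nat_lit 207680) (.g (nat_lit 1620) (.e (nat_lit 81935) (nat_lit 20) (.e (nat_lit 1994) (nat_lit 137) (.e (nat_lit 663569) (nat_lit 6) (.e (nat_lit 81920) (nat_lit 0) (.e (nat_lit 3715) (nat_lit 227) (.e (nat_lit 778325) (nat_lit 6) .nil)))))) (.g (nat_lit 6) .nil .nil))) 
(.lf (nat_lit 207712) (.g (nat_lit 1503) (.e (nat_lit 81935) (nat_lit 20) (.e (nat_lit 1998) (nat_lit 137) (.e (nat_lit 663554) (nat_lit 0) (.e (nat_lit 1569) (nat_lit 110) (.e (nat_lit 360192) (nat_lit 4) (.e (nat_lit 220928) (nat_lit 6) .nil)))))) (.g (nat_lit 4) .nil .nil)))) (.nd (nat_lit 5) 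
(.lf (nat_lit 207696) (.g (nat_lit 1265) (.e (nat_lit 81935) (nat_lit 20) (.e (nat_lit 1996) (nat_lit 137) (.e (nat_lit 663569) (nat_lit 6) (.e (nat_lit 81957) (nat_lit 24) (.e (nat_lit 123185) (nat_lit 264) (.e (nat_lit 7936) (nat_lit 90) .nil)))))) (.g (nat_lit 4) .nil .nil))) 
(.lf (nat_lit 207728) (.g (nat_lit 3744) (.e (nat_lit 81935) (nat_lit 20) (.e (nat_lit 1998) (nat_lit 137) (.e (nat_lit 663554) (nat_lit 0) (.e (nat_lit 1589) (nat_lit 111) (.e (nat_lit 360453) (nat_lit 0) (.e (nat_lit 5907) (nat_lit 320) (.e (nat_lit 1219) (nat_lit 90) .nil))))))) (.g (nat_lit 7) .nil .nil))))) (.nd (nat_lit 4) (.nd (nat_lit 5) 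
(.lf (nat_lit 207688) (.g (nat_lit 2269) (.e (nat_lit 81935) (nat_lit 20) (.e (nat_lit 1996) (nat_lit 137) (.e (nat_lit 663567) (nat_lit 4) (.e (nat_lit 65598) (nat_lit 9) (.e (nat_lit 335907) (nat_lit 0) (.e (nat_lit 1994) (nat_lit 137) (.e (nat_lit 663569) (nat_lit 6) .nil))))))) (.g (nat_lit 5) .nil .nil))) 
(.lf (nat_lit 207720) (.g (nat_lit 1376) (.e (nat_lit 81935) (nat_lit 20) (.e (nat_lit 1998) (nat_lit 137) (.e (nat_lit 663554) (nat_lit 0) (.e (nat_lit 1575) (nat_lit 110) (.e (nat_lit 352270) (nat_lit 8) (.e (nat_lit 270080) (nat_lit 6) .nil)))))) (.g (nat_lit 4) .nil .nil)))) (.nd (nat_lit 5) 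
(.lf (nat_lit 207704) (.g (nat_lit 1781) (.e (nat_lit 81935) (nat_lit 20) (.e (nat_lit 1998) (nat_lit 137) (.e (nat_lit 663554) (nat_lit 0) (.e (nat_lit 1563) (nat_lit 110) (.e (nat_lit 352318) (nat_lit 24) (.e (nat_lit 123185) (nat_lit 264) (.e (nat_lit 1222) (nat_lit 90) .nil))))))) (.g (nat_lit 4) .nil .nil))) 
(.lf (nat_lit 207736) (.g (nat_lit 741) (.e (nat_lit 81935) (nat_lit 20) (.e (nat_lit 1998) (nat_lit 137) (.e (nat_lit 663554) (nat_lit 0) (.e (nat_lit 1590) (nat_lit 111) .nil)))) .nil))))) (.nd (nat_lit 3) (.nd (nat_lit 4) (.nd (nat_lit 5) 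
(.lf (nat_lit 207684) (.g (nat_lit 3141) (.e (nat_lit 81935) (nat_lit 20) (.e (nat_lit 1994) (nat_lit 137) (.e (nat_lit 663569) (nat_lit 6) (.e (nat_lit 81959) (nat_lit 24) (.e (nat_lit 123182) (nat_lit 264) (.e (nat_lit 1222) (nat_lit 90) .nil)))))) (.g (nat_lit 6) .nil .nil))) 
(.lf (nat_lit 207716) (.g (nat_lit 3439) (.e (nat_lit 81935) (nat_lit 20) (.e (nat_lit 1998) (nat_lit 137) (.e (nat_lit 663554) (nat_lit 0) (.e (nat_lit 1572) (nat_lit 110) (.e (nat_lit 352318) (nat_lit 24) (.e (nat_lit 123184) (nat_lit 264) (.e (nat_lit 1222) (nat_lit 90) .nil))))))) (.g (nat_lit 7) .nil .nil)))) (.nd (nat_lit 5) 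
(.lf (nat_lit 207700) (.g (nat_lit 1649) (.e (nat_lit 81935) (nat_lit 20) (.e (nat_lit 1998) (nat_lit 137) (.e (nat_lit 663554) (nat_lit 0) (.e (nat_lit 1559) (nat_lit 110) (.e (nat_lit 352270) (nat_lit 8) (.e (nat_lit 270080) (nat_lit 6) .nil)))))) (.g (nat_lit 5) .nil .nil))) 
(.lf (nat_lit 207732) (.g (nat_lit 1776) (.e (nat_lit 81935) (nat_lit 20) (.e (nat_lit 1998) (nat_lit 137) (.e (nat_lit 663554) (nat_lit 0) (.e (nat_lit 1589) (nat_lit 111) (.e (nat_lit 368384) (nat_lit 0) (.e (nat_lit 5902) (nat_lit 320) (.e (nat_lit 1219) (nat_lit 90) .nil))))))) (.g (nat_lit 4) .nil .nil))))) (.nd (nat_lit 4) (.nd (nat_lit 5) 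
(.lf (nat_lit 207692) (.g (nat_lit 2217) (.e (nat_lit 81935) (nat_lit 20) (.e (nat_lit 1996) (nat_lit 137) (.e (nat_lit 663567) (nat_lit 4) (.e (nat_lit 65624) (nat_lit 12) (.e (nat_lit 385093) (nat_lit 49) (.e (nat_lit 778326) (nat_lit 6) .nil)))))) (.g (nat_lit 6) .nil .nil))) 
(.lf (nat_lit 207724) (.g (nat_lit 2112) (.e (nat_lit 81935) (nat_lit 20) (.e (nat_lit 1998) (nat_lit 137) (.e (nat_lit 663554) (nat_lit 0) (.e (nat_lit 1586) (nat_lit 111) (.e (nat_lit 360450) (nat_lit 0) (.e (nat_lit 5898) (nat_lit 320) (.e (nat_lit 7936) (nat_lit 90) .nil))))))) (.g (nat_lit 5) .nil .nil)))) (.nd (nat_lit 5) 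
(.lf (nat_lit 207708) (.g (nat_lit 950) (.e (nat_lit 81935) (nat_lit 20) (.e (nat_lit 1998) (nat_lit 137) (.e (nat_lit 663554) (nat_lit 0) (.e (nat_lit 1567) (nat_lit 110) (.e (nat_lit 352317) (nat_lit 24) .nil))))) .nil)) 
(.lf (nat_lit 207740) (.g (nat_lit 999) (.e (nat_lit 81935) (nat_lit 20) (.e (nat_lit 1998) (nat_lit 137) (.e (nat_lit 663554) (nat_lit 0) (.e (nat_lit 1592) (nat_lit 111) (.e (nat_lit 368384) (nat_lit 17) .nil))))) .nil)))))) (.nd (nat_lit 2) (.nd (nat_lit 3) (.nd (nat_lit 4) (.nd (nat_lit 5) 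
(.lf (nat_lit 207682) (.g (nat_lit 920) (.e (nat_lit 81935) (nat_lit 20) (.e (nat_lit 1994) (nat_lit 137) (.e (nat_lit 663569) (nat_lit 6) (.e (nat_lit 81922) (nat_lit 0) (.e (nat_lit 3629) (nat_lit 227) .nil))))) .nil)) 
(.lf (nat_lit 207714) (.g (nat_lit 1563) (.e (nat_lit 81935) (nat_lit 20) (.e (nat_lit 1998) (nat_lit 137) (.e (nat_lit 663554) (nat_lit 0) (.e (nat_lit 1572) (nat_lit 110) (.e (nat_lit 360192) (nat_lit 4) (.e (nat_lit 220928) (nat_lit 6) .nil)))))) (.g (nat_lit 4) .nil .nil)))) (.nd (nat_lit 5) 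
(.lf (nat_lit 207698) (.g (nat_lit 1430) (.e (nat_lit 81935) (nat_lit 20) (.e (nat_lit 1998) (nat_lit 137) (.e (nat_lit 663554) (nat_lit 0) (.e (nat_lit 1553) (nat_lit 110) (.e (nat_lit 360192) (nat_lit 4) (.e (nat_lit 220928) (nat_lit 6) .nil)))))) (.g (nat_lit 4) .nil .nil))) 
(.lf (nat_lit 207730) (.g (nat_lit 1728) (.e (nat_lit 81935) (nat_lit 20) (.e (nat_lit 1998) (nat_lit 137) (.e (nat_lit 663554) (nat_lit 0) (.e (nat_lit 1589) (nat_lit 111) (.e (nat_lit 360455) (nat_lit 0) .nil))))) .nil)))) (.nd (nat_lit 4) (.nd (nat_lit 5) 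
(.lf (nat_lit 207690) (.g (nat_lit 3278) (.e (nat_lit 81935) (nat_lit 20) (.e (nat_lit 1996) (nat_lit 137) (.e (nat_lit 663567) (nat_lit 4) (.e (nat_lit 65619) (nat_lit 10) (.e (nat_lit 344097) (nat_lit 18) (.e (nat_lit 5907) (nat_lit 320) (.e (nat_lit 1219) (nat_lit 90) .nil))))))) (.g (nat_lit 7) .nil .nil))) 
(.lf (nat_lit 207722) (.g (nat_lit 1282) (.e (nat_lit 81935) (nat_lit 20) (.e (nat_lit 1998) (nat_lit 137) (.e (nat_lit 663554) (nat_lit 0) (.e (nat_lit 1576) (nat_lit 110) (.e (nat_lit 352270) (nat_lit 8) (.e (nat_lit 270080) (nat_lit 6) .nil)))))) (.g (nat_lit 4) .nil .nil)))) (.nd (nat_lit 5) 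
(.lf (nat_lit 207706) (.g (nat_lit 1324) (.e (nat_lit 81935) (nat_lit 20) (.e (nat_lit 1998) (nat_lit 137) (.e (nat_lit 663554) (nat_lit 0) (.e (nat_lit 1567) (nat_lit 110) (.e (nat_lit 360192) (nat_lit 4) (.e (nat_lit 220928) (nat_lit 6) .nil)))))) (.g (nat_lit 4) .nil .nil))) 
(.lf (nat_lit 207738) (.g (nat_lit 1545) (.e (nat_lit 81935) (nat_lit 20) (.e (nat_lit 1998) (nat_lit 137) (.e (nat_lit 663554) (nat_lit 0) (.e (nat_lit 1590) (nat_lit 111) (.e (nat_lit 360455) (nat_lit 0) (.e (nat_lit 5813) (nat_lit 320) (.e (nat_lit 7936) (nat_lit 90) .nil))))))) (.g (nat_lit 6) .nil .nil)))))) (.nd (nat_lit 3) (.nd (nat_lit 4) (.nd (nat_lit 5) 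
(.lf (nat_lit 207686) (.g (nat_lit 607) (.e (nat_lit 81935) (nat_lit 20) (.e (nat_lit 1996) (nat_lit 137) (.e (nat_lit 663554) (nat_lit 0) (.e (nat_lit 1447) (nat_lit 108) .nil)))) .nil)) 
(.lf (nat_lit 207718) (.g (nat_lit 1152) (.e (nat_lit 81935) (nat_lit 20) (.e (nat_lit 1998) (nat_lit 137) (.e (nat_lit 663554) (nat_lit 0) (.e (nat_lit 1573) (nat_lit 110) (.e (nat_lit 360192) (nat_lit 4) (.e (nat_lit 220928) (nat_lit 6) .nil)))))) (.g (nat_lit 4) .nil .nil)))) (.nd (nat_lit 5) 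
(.lf (nat_lit 207702) (.g (nat_lit 1510) (.e (nat_lit 81935) (nat_lit 20) (.e (nat_lit 1998) (nat_lit 137) (.e (nat_lit 663554) (nat_lit 0) (.e (nat_lit 1562) (nat_lit 110) (.e (nat_lit 352270) (nat_lit 8) (.e (nat_lit 270080) (nat_lit 6) .nil)))))) (.g (nat_lit 5) .nil .nil))) 
(.lf (nat_lit 207734) (.g (nat_lit 1689) (.e (nat_lit 81935) (nat_lit 20) (.e (nat_lit 1998) (nat_lit 137) (.e (nat_lit 663554) (nat_lit 0) (.e (nat_lit 1589) (nat_lit 111) (.e (nat_lit 368384) (nat_lit 0) (.e (nat_lit 5906) (nat_lit 320) (.e (nat_lit 1219) (nat_lit 90) .nil))))))) (.g (nat_lit 4) .nil .nil))))) (.nd (nat_lit 4) (.nd (nat_lit 5) 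
(.lf (nat_lit 207694) (.g (nat_lit 1505) (.e (nat_lit 81935) (nat_lit 20) (.e (nat_lit 1996) (nat_lit 137) (.e (nat_lit 663569) (nat_lit 6) (.e (nat_lit 81920) (nat_lit 0) (.e (nat_lit 3715) (nat_lit 227) (.e (nat_lit 778325) (nat_lit 6) .nil)))))) (.g (nat_lit 6) .nil .nil))) 
(.lf (nat_lit 207726) (.g (nat_lit 1842) (.e (nat_lit 81935) (nat_lit 20) (.e (nat_lit 1998) (nat_lit 137) (.e (nat_lit 663554) (nat_lit 0) (.e (nat_lit 1589) (nat_lit 111) (.e (nat_lit 360451) (nat_lit 0) (.e (nat_lit 5898) (nat_lit 320) (.e (nat_lit 7936) (nat_lit 90) .nil))))))) (.g (nat_lit 5) .nil .nil)))) (.nd (nat_lit 5) 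
(.lf (nat_lit 207710) (.g (nat_lit 3003) (.e (nat_lit 81935) (nat_lit 20) (.e (nat_lit 1998) (nat_lit 137) (.e (nat_lit 663554) (nat_lit 0) (.e (nat_lit 1567) (nat_lit 110) (.e (nat_lit 352318) (nat_lit 24) (.e (nat_lit 123183) (nat_lit 264) (.e (nat_lit 1222) (nat_lit 90) .nil))))))) (.g (nat_lit 7) .nil .nil))) 
(.lf (nat_lit 207742) (.g (nat_lit 2190) (.e (nat_lit 81935) (nat_lit 20) (.e (nat_lit 1998) (nat_lit 137) (.e (nat_lit 663554) (nat_lit 0) (.e (nat_lit 1595) (nat_lit 111) (.e (nat_lit 360455) (nat_lit 0) (.e (nat_lit 5813) (nat_lit 320) (.e (nat_lit 7936) (nat_lit 90) .nil))))))) (.g (nat_lit 6) .nil .nil)))))))) 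
(.nd (nat_lit 1) (.nd (nat_lit 2) (.nd (nat_lit 3) (.nd (nat_lit 4) (.nd (nat_lit 5) 
(.lf (nat_lit 207681) (.g (nat_lit 1078) (.e (nat_lit 81935) (nat_lit 20) (.e (nat_lit 1994) (nat_lit 137) (.e (nat_lit 663569) (nat_lit 6) (.e (nat_lit 81921) (nat_lit 0) (.e (nat_lit 3714) (nat_lit 227) (.e (nat_lit 786176) (nat_lit 6) .nil)))))) (.g (nat_lit 4) .nil .nil))) 
(.lf (nat_lit 207713) (.g (nat_lit 1535) (.e (nat_lit 81935) (nat_lit 20) (.e (nat_lit 1998) (nat_lit 137) (.e (nat_lit 663554) (nat_lit 0) (.e (nat_lit 1569) (nat_lit 110) (.e (nat_lit 352270) (nat_lit 8) (.e (nat_lit 270080) (nat_lit 6) .nil)))))) (.g (nat_lit 5) .nil .nil)))) (.nd (nat_lit 5) 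
(.lf (nat_lit 207697) (.g (nat_lit 2678) (.e (nat_lit 81935) (nat_lit 20) (.e (nat_lit 1996) (nat_lit 137) (.e (nat_lit 663569) (nat_lit 6) (.e (nat_lit 81959) (nat_lit 24) (.e (nat_lit 123184) (nat_lit 264) (.e (nat_lit 1222) (nat_lit 90) .nil)))))) (.g (nat_lit 6) .nil .nil))) 
(.lf (nat_lit 207729) (.g (nat_lit 1981) (.e (nat_lit 81935) (nat_lit 20) (.e (nat_lit 1998) (nat_lit 137) (.e (nat_lit 663554) (nat_lit 0) (.e (nat_lit 1589) (nat_lit 111) (.e (nat_lit 360453) (nat_lit 0) (.e (nat_lit 5907) (nat_lit 320) (.e (nat_lit 7936) (nat_lit 90) .nil))))))) (.g (nat_lit 4) .nil .nil))))) (.nd (nat_lit 4) (.nd (nat_lit 5) 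
(.lf (nat_lit 207689) (.g (nat_lit 3017) (.e (nat_lit 81935) (nat_lit 20) (.e (nat_lit 1996) (nat_lit 137) (.e (nat_lit 663567) (nat_lit 4) (.e (nat_lit 65604) (nat_lit 9) (.e (nat_lit 335997) (nat_lit 1) (.e (nat_lit 57872) (nat_lit 264) (.e (nat_lit 1219) (nat_lit 90) .nil))))))) (.g (nat_lit 7) .nil .nil))) 
(.lf (nat_lit 207721) (.g (nat_lit 1317) (.e (nat_lit 81935) (nat_lit 20) (.e (nat_lit 1998) (nat_lit 137) (.e (nat_lit 663554) (nat_lit 0) (.e (nat_lit 1576) (nat_lit 110) (.e (nat_lit 360192) (nat_lit 4) (.e (nat_lit 220928) (nat_lit 6) .nil)))))) (.g (nat_lit 4) .nil .nil)))) (.nd (nat_lit 5) 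
(.lf (nat_lit 207705) (.g (nat_lit 654) (.e (nat_lit 81935) (nat_lit 20) (.e (nat_lit 1998) (nat_lit 137) (.e (nat_lit 663554) (nat_lit 0) (.e (nat_lit 1566) (nat_lit 110) .nil)))) .nil)) 
(.lf (nat_lit 207737) (.g (nat_lit 2429) (.e (nat_lit 81935) (nat_lit 20) (.e (nat_lit 1998) (nat_lit 137) (.e (nat_lit 663554) (nat_lit 0) (.e (nat_lit 1590) (nat_lit 111) (.e (nat_lit 360453) (nat_lit 0) (.e (nat_lit 5907) (nat_lit 320) (.e (nat_lit 1219) (nat_lit 90) .nil))))))) (.g (nat_lit 6) .nil .nil)))))) (.nd (nat_lit 3) (.nd (nat_lit 4) (.nd (nat_lit 5) 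
(.lf (nat_lit 207685) (.g (nat_lit 2789) (.e (nat_lit 81935) (nat_lit 20) (.e (nat_lit 1994) (nat_lit 137) (.e (nat_lit 663569) (nat_lit 6) (.e (nat_lit 81959) (nat_lit 24) (.e (nat_lit 123184) (nat_lit 264) (.e (nat_lit 1222) (nat_lit 90) .nil)))))) (.g (nat_lit 6) .nil .nil))) 
(.lf (nat_lit 207717) (.g (nat_lit 1621) (.e (nat_lit 81935) (nat_lit 20) (.e (nat_lit 1998) (nat_lit 137) (.e (nat_lit 663554) (nat_lit 0) (.e (nat_lit 1572) (nat_lit 110) (.e (nat_lit 352318) (nat_lit 24) (.e (nat_lit 123184) (nat_lit 264) (.e (nat_lit 7936) (nat_lit 90) .nil))))))) (.g (nat_lit 4) .nil .nil)))) (.nd (nat_lit 5) 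
(.lf (nat_lit 207701) (.g (nat_lit 1505) (.e (nat_lit 81935) (nat_lit 20) (.e (nat_lit 1998) (nat_lit 137) (.e (nat_lit 663554) (nat_lit 0) (.e (nat_lit 1562) (nat_lit 110) (.e (nat_lit 360192) (nat_lit 4) (.e (nat_lit 220928) (nat_lit 6) .nil)))))) (.g (nat_lit 4) .nil .nil))) 
(.lf (nat_lit 207733) (.g (nat_lit 2429) (.e (nat_lit 81935) (nat_lit 20) (.e (nat_lit 1998) (nat_lit 137) (.e (nat_lit 663554) (nat_lit 0) (.e (nat_lit 1589) (nat_lit 111) (.e (nat_lit 368384) (nat_lit 0) (.e (nat_lit 5905) (nat_lit 320) (.e (nat_lit 1219) (nat_lit 90) .nil))))))) (.g (nat_lit 6) .nil .nil))))) (.nd (nat_lit 4) (.nd (nat_lit 5) 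
(.lf (nat_lit 207693) (.g (nat_lit 2268) (.e (nat_lit 81935) (nat_lit 20) (.e (nat_lit 1996) (nat_lit 137) (.e (nat_lit 663567) (nat_lit 4) (.e (nat_lit 65624) (nat_lit 12) (.e (nat_lit 385094) (nat_lit 49) (.e (nat_lit 778326) (nat_lit 6) .nil)))))) (.g (nat_lit 6) .nil .nil))) 
(.lf (nat_lit 207725) (.g (nat_lit 1605) (.e (nat_lit 81935) (nat_lit 20) (.e (nat_lit 1998) (nat_lit 137) (.e (nat_lit 663554) (nat_lit 0) (.e (nat_lit 1586) (nat_lit 111) (.e (nat_lit 368384) (nat_lit 0) (.e (nat_lit 5813) (nat_lit 320) (.e (nat_lit 7936) (nat_lit 90) .nil))))))) (.g (nat_lit 4) .nil .nil)))) (.nd (nat_lit 5) 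
(.lf (nat_lit 207709) (.g (nat_lit 3380) (.e (nat_lit 81935) (nat_lit 20) (.e (nat_lit 1998) (nat_lit 137) (.e (nat_lit 663554) (nat_lit 0) (.e (nat_lit 1567) (nat_lit 110) (.e (nat_lit 352318) (nat_lit 24) (.e (nat_lit 123182) (nat_lit 264) (.e (nat_lit 1222) (nat_lit 90) .nil))))))) (.g (nat_lit 0) .nil .nil))) 
(.lf (nat_lit 207741) (.g (nat_lit 3396) (.e (nat_lit 81935) (nat_lit 20) (.e (nat_lit 1998) (nat_lit 137) (.e (nat_lit 663554) (nat_lit 0) (.e (nat_lit 1595) (nat_lit 111) (.e (nat_lit 360453) (nat_lit 0) (.e (nat_lit 5907) (nat_lit 320) (.e (nat_lit 1219) (nat_lit 90) .nil))))))) (.g (nat_lit 7) .nil .nil))))))) (.nd (nat_lit 2) (.nd (nat_lit 3) (.nd (nat_lit 4) (.nd (nat_lit 5) 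
(.lf (nat_lit 207683) (.g (nat_lit 1383) (.e (nat_lit 81935) (nat_lit 20) (.e (nat_lit 1994) (nat_lit 137) (.e (nat_lit 663569) (nat_lit 6) (.e (nat_lit 81957) (nat_lit 24) (.e (nat_lit 123185) (nat_lit 264) (.e (nat_lit 7936) (nat_lit 90) .nil)))))) (.g (nat_lit 4) .nil .nil))) 
(.lf (nat_lit 207715) (.g (nat_lit 3313) (.e (nat_lit 81935) (nat_lit 20) (.e (nat_lit 1998) (nat_lit 137) (.e (nat_lit 663554) (nat_lit 0) (.e (nat_lit 1572) (nat_lit 110) (.e (nat_lit 352318) (nat_lit 24) (.e (nat_lit 123182) (nat_lit 264) (.e (nat_lit 1222) (nat_lit 90) .nil))))))) (.g (nat_lit 7) .nil .nil)))) (.nd (nat_lit 5) 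
(.lf (nat_lit 207699) (.g (nat_lit 1494) (.e (nat_lit 81935) (nat_lit 20) (.e (nat_lit 1998) (nat_lit 137) (.e (nat_lit 663554) (nat_lit 0) (.e (nat_lit 1553) (nat_lit 110) (.e (nat_lit 352270) (nat_lit 8) (.e (nat_lit 270080) (nat_lit 6) .nil)))))) (.g (nat_lit 5) .nil .nil))) 
(.lf (nat_lit 207731) (.g (nat_lit 1937) (.e (nat_lit 81935) (nat_lit 20) (.e (nat_lit 1998) (nat_lit 137) (.e (nat_lit 663554) (nat_lit 0) (.e (nat_lit 1589) (nat_lit 111) (.e (nat_lit 368384) (nat_lit 0) (.e (nat_lit 5813) (nat_lit 320) (.e (nat_lit 7936) (nat_lit 90) .nil))))))) (.g (nat_lit 4) .nil .nil))))) (.nd (nat_lit 4) (.nd (nat_lit 5) 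
(.lf (nat_lit 207691) (.g (nat_lit 2117) (.e (nat_lit 81935) (nat_lit 20) (.e (nat_lit 1996) (nat_lit 137) (.e (nat_lit 663567) (nat_lit 4) (.e (nat_lit 65622) (nat_lit 12) (.e (nat_lit 385094) (nat_lit 49) (.e (nat_lit 778326) (nat_lit 6) .nil)))))) (.g (nat_lit 6) .nil .nil))) 
(.lf (nat_lit 207723) (.g (nat_lit 1351) (.e (nat_lit 81935) (nat_lit 20) (.e (nat_lit 1998) (nat_lit 137) (.e (nat_lit 663554) (nat_lit 0) (.e (nat_lit 1580) (nat_lit 111) (.e (nat_lit 360455) (nat_lit 0) (.e (nat_lit 5813) (nat_lit 320) (.e (nat_lit 7936) (nat_lit 90) .nil))))))) (.g (nat_lit 6) .nil .nil)))) (.nd (nat_lit 5) 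
(.lf (nat_lit 207707) (.g (nat_lit 1335) (.e (nat_lit 81935) (nat_lit 20) (.e (nat_lit 1998) (nat_lit 137) (.e (nat_lit 663554) (nat_lit 0) (.e (nat_lit 1567) (nat_lit 110) (.e (nat_lit 352270) (nat_lit 8) (.e (nat_lit 270080) (nat_lit 6) .nil)))))) (.g (nat_lit 4) .nil .nil))) 
(.lf (nat_lit 207739) (.g (nat_lit 673) (.e (nat_lit 81935) (nat_lit 20) (.e (nat_lit 1998) (nat_lit 137) (.e (nat_lit 663554) (nat_lit 0) (.e (nat_lit 1592) (nat_lit 111) .nil)))) .nil))))) (.nd (nat_lit 3) (.nd (nat_lit 4) (.nd (nat_lit 5) 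
(.lf (nat_lit 207687) (.g (nat_lit 614) (.e (nat_lit 81935) (nat_lit 20) (.e (nat_lit 1996) (nat_lit 137) (.e (nat_lit 663554) (nat_lit 0) (.e (nat_lit 1599) (nat_lit 111) .nil)))) .nil)) 
(.lf (nat_lit 207719) (.g (nat_lit 1417) (.e (nat_lit 81935) (nat_lit 20) (.e (nat_lit 1998) (nat_lit 137) (.e (nat_lit 663554) (nat_lit 0) (.e (nat_lit 1575) (nat_lit 110) (.e (nat_lit 360192) (nat_lit 4) (.e (nat_lit 220928) (nat_lit 6) .nil)))))) (.g (nat_lit 4) .nil .nil)))) (.nd (nat_lit 5) 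
(.lf (nat_lit 207703) (.g (nat_lit 1789) (.e (nat_lit 81935) (nat_lit 20) (.e (nat_lit 1998) (nat_lit 137) (.e (nat_lit 663554) (nat_lit 0) (.e (nat_lit 1563) (nat_lit 110) (.e (nat_lit 352318) (nat_lit 24) (.e (nat_lit 123183) (nat_lit 264) (.e (nat_lit 1222) (nat_lit 90) .nil))))))) (.g (nat_lit 4) .nil .nil))) 
(.lf (nat_lit 207735) (.g (nat_lit 1558) (.e (nat_lit 81935) (nat_lit 20) (.e (nat_lit 1998) (nat_lit 137) (.e (nat_lit 663554) (nat_lit 0) (.e (nat_lit 1589) (nat_lit 111) (.e (nat_lit 368384) (nat_lit 17) .nil))))) .nil)))) (.nd (nat_lit 4) (.nd (nat_lit 5) 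
(.lf (nat_lit 207695) (.g (nat_lit 965) (.e (nat_lit 81935) (nat_lit 20) (.e (nat_lit 1996) (nat_lit 137) (.e (nat_lit 663569) (nat_lit 6) (.e (nat_lit 81921) (nat_lit 0) (.e (nat_lit 3714) (nat_lit 227) (.e (nat_lit 786176) (nat_lit 6) .nil)))))) (.g (nat_lit 4) .nil .nil))) 
(.lf (nat_lit 207727) (.g (nat_lit 1979) (.e (nat_lit 81935) (nat_lit 20) (.e (nat_lit 1998) (nat_lit 137) (.e (nat_lit 663554) (nat_lit 0) (.e (nat_lit 1589) (nat_lit 111) (.e (nat_lit 360453) (nat_lit 0) (.e (nat_lit 5905) (nat_lit 320) (.e (nat_lit 1219) (nat_lit 90) .nil))))))) (.g (nat_lit 4) .nil .nil)))) (.nd (nat_lit 5) 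
(.lf (nat_lit 207711) (.g (nat_lit 1774) (.e (nat_lit 81935) (nat_lit 20) (.e (nat_lit 1998) (nat_lit 137) (.e (nat_lit 663554) (nat_lit 0) (.e (nat_lit 1567) (nat_lit 110) (.e (nat_lit 352318) (nat_lit 24) (.e (nat_lit 123185) (nat_lit 264) (.e (nat_lit 7936) (nat_lit 90) .nil))))))) (.g (nat_lit 5) .nil .nil))) 
(.lf (nat_lit 207743) (.g (nat_lit 1370) (.e (nat_lit 81935) (nat_lit 20) (.e (nat_lit 1998) (nat_lit 137) (.e (nat_lit 663554) (nat_lit 0) (.e (nat_lit 1595) (nat_lit 111) (.e (nat_lit 368384) (nat_lit 0) .nil))))) .nil))))))))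

noncomputable def tv2738 : DT := (.nd (nat_lit 0) (.nd (nat_lit 1) (.nd (nat_lit 2) (.nd (nat_lit 3) (.nd (nat_lit 4) 
(.lf (nat_lit 207744) (.g (nat_lit 1652) (.e (nat_lit 81935) (nat_lit 20) (.e (nat_lit 1998) (nat_lit 137) (.e (nat_lit 663554) (nat_lit 0) (.e (nat_lit 1595) (nat_lit 111) (.e (nat_lit 368384) (nat_lit 0) (.e (nat_lit 5813) (nat_lit 320) (.e (nat_lit 7936) (nat_lit 90) .nil))))))) (.g (nat_lit 4) .nil .nil))) 
(.lf (nat_lit 207760) (.g (nat_lit 2149) (.e (nat_lit 81935) (nat_lit 20) (.e (nat_lit 1998) (nat_lit 137) (.e (nat_lit 663567) (nat_lit 4) (.e (nat_lit 65622) (nat_lit 12) (.e (nat_lit 385094) (nat_lit 49) (.e (nat_lit 778326) (nat_lit 6) .nil)))))) (.g (nat_lit 6) .nil .nil)))) (.nd (nat_lit 4) 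
(.lf (nat_lit 207752) (.g (nat_lit 1856) (.e (nat_lit 81935) (nat_lit 20) (.e (nat_lit 1998) (nat_lit 137) (.e (nat_lit 663567) (nat_lit 4) (.e (nat_lit 65604) (nat_lit 9) (.e (nat_lit 335907) (nat_lit 0) (.e (nat_lit 1994) (nat_lit 137) (.e (nat_lit 663569) (nat_lit 6) .nil))))))) (.g (nat_lit 5) .nil .nil))) 
(.lf (nat_lit 207768) (.g (nat_lit 1073) (.e (nat_lit 81935) (nat_lit 20) (.e (nat_lit 1998) (nat_lit 137) (.e (nat_lit 663569) (nat_lit 6) (.e (nat_lit 81922) (nat_lit 0) (.e (nat_lit 3630) (nat_lit 227) (.e (nat_lit 786176) (nat_lit 6) .nil)))))) (.g (nat_lit 4) .nil .nil))))) (.nd (nat_lit 3) (.nd (nat_lit 4) 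
(.lf (nat_lit 207748) (.g (nat_lit 1076) (.e (nat_lit 81935) (nat_lit 20) (.e (nat_lit 1998) (nat_lit 137) (.e (nat_lit 663554) (nat_lit 0) (.e (nat_lit 1598) (nat_lit 111) (.e (nat_lit 368384) (nat_lit 17) .nil))))) .nil)) 
(.lf (nat_lit 207764) (.g (nat_lit 1228) (.e (nat_lit 81935) (nat_lit 20) (.e (nat_lit 1998) (nat_lit 137) (.e (nat_lit 663569) (nat_lit 6) (.e (nat_lit 81921) (nat_lit 0) (.e (nat_lit 3711) (nat_lit 227) (.e (nat_lit 786176) (nat_lit 6) .nil)))))) (.g (nat_lit 5) .nil .nil)))) (.nd (nat_lit 4) 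
(.lf (nat_lit 207756) (.g (nat_lit 3243) (.e (nat_lit 81935) (nat_lit 20) (.e (nat_lit 1998) (nat_lit 137) (.e (nat_lit 663567) (nat_lit 4) (.e (nat_lit 65610) (nat_lit 10) (.e (nat_lit 344097) (nat_lit 18) (.e (nat_lit 5907) (nat_lit 320) (.e (nat_lit 1219) (nat_lit 90) .nil))))))) (.g (nat_lit 7) .nil .nil))) 
(.lf (nat_lit 207772) (.g (nat_lit 1889) (.e (nat_lit 81935) (nat_lit 20) (.e (nat_lit 1998) (nat_lit 137) (.e (nat_lit 663569) (nat_lit 6) (.e (nat_lit 81924) (nat_lit 0) (.e (nat_lit 3632) (nat_lit 227) (.e (nat_lit 778326) (nat_lit 6) .nil)))))) (.g (nat_lit 0) .nil .nil)))))) (.nd (nat_lit 2) (.nd (nat_lit 3) (.nd (nat_lit 4) 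
(.lf (nat_lit 207746) (.g (nat_lit 1556) (.e (nat_lit 81935) (nat_lit 20) (.e (nat_lit 1998) (nat_lit 137) (.e (nat_lit 663554) (nat_lit 0) (.e (nat_lit 1596) (nat_lit 111) (.e (nat_lit 360455) (nat_lit 0) (.e (nat_lit 5813) (nat_lit 320) (.e (nat_lit 7936) (nat_lit 90) .nil))))))) (.g (nat_lit 6) .nil .nil))) 
(.lf (nat_lit 207762) (.g (nat_lit 1633) (.e (nat_lit 81935) (nat_lit 20) (.e (nat_lit 1998) (nat_lit 137) (.e (nat_lit 663569) (nat_lit 6) (.e (nat_lit 81920) (nat_lit 0) (.e (nat_lit 3715) (nat_lit 227) (.e (nat_lit 778325) (nat_lit 6) .nil)))))) (.g (nat_lit 6) .nil .nil)))) (.nd (nat_lit 4) 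
(.lf (nat_lit 207754) (.g (nat_lit 2571) (.e (nat_lit 81935) (nat_lit 20) (.e (nat_lit 1998) (nat_lit 137) (.e (nat_lit 663567) (nat_lit 4) (.e (nat_lit 65604) (nat_lit 9) (.e (nat_lit 335997) (nat_lit 1) (.e (nat_lit 57871) (nat_lit 264) (.e (nat_lit 1219) (nat_lit 90) .nil))))))) (.g (nat_lit 7) .nil .nil))) 
(.lf (nat_lit 207770) (.g (nat_lit 971) (.e (nat_lit 81935) (nat_lit 20) (.e (nat_lit 1998) (nat_lit 137) (.e (nat_lit 663569) (nat_lit 6) (.e (nat_lit 81924) (nat_lit 0) (.e (nat_lit 3629) (nat_lit 227) (.e (nat_lit 786176) (nat_lit 6) .nil)))))) (.g (nat_lit 4) .nil .nil))))) (.nd (nat_lit 3) (.nd (nat_lit 4) 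
(.lf (nat_lit 207750) (.g (nat_lit 816) (.e (nat_lit 81935) (nat_lit 20) (.e (nat_lit 1998) (nat_lit 137) (.e (nat_lit 663554) (nat_lit 0) (.e (nat_lit 1599) (nat_lit 111) (.e (nat_lit 368384) (nat_lit 0) .nil))))) .nil)) 
(.lf (nat_lit 207766) (.g (nat_lit 1184) (.e (nat_lit 81935) (nat_lit 20) (.e (nat_lit 1998) (nat_lit 137) (.e (nat_lit 663569) (nat_lit 6) (.e (nat_lit 81921) (nat_lit 0) (.e (nat_lit 3716) (nat_lit 227) (.e (nat_lit 778325) (nat_lit 6) .nil)))))) (.g (nat_lit 0) .nil .nil)))) (.nd (nat_lit 4) 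
(.lf (nat_lit 207758) (.g (nat_lit 3335) (.e (nat_lit 81935) (nat_lit 20) (.e (nat_lit 1998) (nat_lit 137) (.e (nat_lit 663567) (nat_lit 4) (.e (nat_lit 65619) (nat_lit 10) (.e (nat_lit 344097) (nat_lit 18) (.e (nat_lit 5907) (nat_lit 320) (.e (nat_lit 1219) (nat_lit 90) .nil))))))) (.g (nat_lit 7) .nil .nil))) 
(.lf (nat_lit 207774) (.g (nat_lit 1785) (.e (nat_lit 81935) (nat_lit 20) (.e (nat_lit 1998) (nat_lit 137) (.e (nat_lit 663569) (nat_lit 6) (.e (nat_lit 81943) (nat_lit 20) (.e (nat_lit 2003) (nat_lit 138) (.e (nat_lit 671764) (nat_lit 6) .nil)))))) (.g (nat_lit 0) .nil .nil))))))) (.nd (nat_lit 1) (.nd (nat_lit 2) (.nd (nat_lit 3) (.nd (nat_lit 4) 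
(.lf (nat_lit 207745) (.g (nat_lit 749) (.e (nat_lit 81935) (nat_lit 20) (.e (nat_lit 1998) (nat_lit 137) (.e (nat_lit 663554) (nat_lit 0) (.e (nat_lit 1596) (nat_lit 111) .nil)))) .nil)) 
(.lf (nat_lit 207761) (.g (nat_lit 2331) (.e (nat_lit 81935) (nat_lit 20) (.e (nat_lit 1998) (nat_lit 137) (.e (nat_lit 663567) (nat_lit 4) (.e (nat_lit 65624) (nat_lit 12) (.e (nat_lit 385094) (nat_lit 49) (.e (nat_lit 778326) (nat_lit 6) .nil)))))) (.g (nat_lit 6) .nil .nil)))) (.nd (nat_lit 4) 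
(.lf (nat_lit 207753) (.g (nat_lit 2610) (.e (nat_lit 81935) (nat_lit 20) (.e (nat_lit 1998) (nat_lit 137) (.e (nat_lit 663567) (nat_lit 4) (.e (nat_lit 65604) (nat_lit 9) (.e (nat_lit 335997) (nat_lit 1) (.e (nat_lit 57870) (nat_lit 264) (.e (nat_lit 1219) (nat_lit 90) .nil))))))) (.g (nat_lit 7) .nil .nil))) 
(.lf (nat_lit 207769) (.g (nat_lit 1878) (.e (nat_lit 81935) (nat_lit 20) (.e (nat_lit 1998) (nat_lit 137) (.e (nat_lit 663569) (nat_lit 6) (.e (nat_lit 81922) (nat_lit 0) (.e (nat_lit 3632) (nat_lit 227) (.e (nat_lit 778326) (nat_lit 6) .nil)))))) (.g (nat_lit 6) .nil .nil))))) (.nd (nat_lit 3) (.nd (nat_lit 4) 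
(.lf (nat_lit 207749) (.g (nat_lit 724) (.e (nat_lit 81935) (nat_lit 20) (.e (nat_lit 1998) (nat_lit 137) (.e (nat_lit 663554) (nat_lit 0) (.e (nat_lit 1599) (nat_lit 111) .nil)))) .nil)) 
(.lf (nat_lit 207765) (.g (nat_lit 1144) (.e (nat_lit 81935) (nat_lit 20) (.e (nat_lit 1998) (nat_lit 137) (.e (nat_lit 663569) (nat_lit 6) (.e (nat_lit 81921) (nat_lit 0) (.e (nat_lit 3714) (nat_lit 227) (.e (nat_lit 786176) (nat_lit 6) .nil)))))) (.g (nat_lit 5) .nil .nil)))) (.nd (nat_lit 4) 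
(.lf (nat_lit 207757) (.g (nat_lit 2322) (.e (nat_lit 81935) (nat_lit 20) (.e (nat_lit 1998) (nat_lit 137) (.e (nat_lit 663567) (nat_lit 4) (.e (nat_lit 65610) (nat_lit 10) (.e (nat_lit 344169) (nat_lit 40) (.e (nat_lit 671764) (nat_lit 6) .nil)))))) (.g (nat_lit 0) .nil .nil))) 
(.lf (nat_lit 207773) (.g (nat_lit 777) (.e (nat_lit 81935) (nat_lit 20) (.e (nat_lit 1998) (nat_lit 137) (.e (nat_lit 663569) (nat_lit 6) (.e (nat_lit 81931) (nat_lit 20) .nil)))) .nil))))) (.nd (nat_lit 2) (.nd (nat_lit 3) (.nd (nat_lit 4) 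
(.lf (nat_lit 207747) (.g (nat_lit 1446) (.e (nat_lit 81935) (nat_lit 20) (.e (nat_lit 1998) (nat_lit 137) (.e (nat_lit 663554) (nat_lit 0) (.e (nat_lit 1598) (nat_lit 111) (.e (nat_lit 360455) (nat_lit 0) (.e (nat_lit 5813) (nat_lit 320) (.e (nat_lit 7936) (nat_lit 90) .nil))))))) (.g (nat_lit 4) .nil .nil))) 
(.lf (nat_lit 207763) (.g (nat_lit 1433) (.e (nat_lit 81935) (nat_lit 20) (.e (nat_lit 1998) (nat_lit 137) (.e (nat_lit 663569) (nat_lit 6) (.e (nat_lit 81921) (nat_lit 0) (.e (nat_lit 3711) (nat_lit 227) (.e (nat_lit 778325) (nat_lit 6) .nil)))))) (.g (nat_lit 0) .nil .nil)))) (.nd (nat_lit 4) 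
(.lf (nat_lit 207755) (.g (nat_lit 3070) (.e (nat_lit 81935) (nat_lit 20) (.e (nat_lit 1998) (nat_lit 137) (.e (nat_lit 663567) (nat_lit 4) (.e (nat_lit 65604) (nat_lit 9) (.e (nat_lit 335997) (nat_lit 1) (.e (nat_lit 57872) (nat_lit 264) (.e (nat_lit 1219) (nat_lit 90) .nil))))))) (.g (nat_lit 7) .nil .nil))) 
(.lf (nat_lit 207771) (.g (nat_lit 1749) (.e (nat_lit 81935) (nat_lit 20) (.e (nat_lit 1998) (nat_lit 137) (.e (nat_lit 663569) (nat_lit 6) (.e (nat_lit 81924) (nat_lit 0) (.e (nat_lit 3631) (nat_lit 227) (.e (nat_lit 778326) (nat_lit 6) .nil)))))) (.g (nat_lit 0) .nil .nil))))) (.nd (nat_lit 3) (.nd (nat_lit 4) 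
(.lf (nat_lit 207751) (.g (nat_lit 3165) (.e (nat_lit 81935) (nat_lit 20) (.e (nat_lit 1998) (nat_lit 137) (.e (nat_lit 663567) (nat_lit 4) (.e (nat_lit 65598) (nat_lit 9) (.e (nat_lit 335997) (nat_lit 1) (.e (nat_lit 57872) (nat_lit 264) (.e (nat_lit 1219) (nat_lit 90) .nil))))))) (.g (nat_lit 7) .nil .nil))) 
(.lf (nat_lit 207767) (.g (nat_lit 903) (.e (nat_lit 81935) (nat_lit 20) (.e (nat_lit 1998) (nat_lit 137) (.e (nat_lit 663569) (nat_lit 6) (.e (nat_lit 81922) (nat_lit 0) (.e (nat_lit 3629) (nat_lit 227) .nil))))) .nil))) (.nd (nat_lit 4) 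
(.lf (nat_lit 207759) (.g (nat_lit 2112) (.e (nat_lit 81935) (nat_lit 20) (.e (nat_lit 1998) (nat_lit 137) (.e (nat_lit 663567) (nat_lit 4) (.e (nat_lit 65622) (nat_lit 12) (.e (nat_lit 385093) (nat_lit 49) (.e (nat_lit 786176) (nat_lit 6) .nil)))))) (.g (nat_lit 5) .nil .nil))) 
(.lf (nat_lit 207775) (.g (nat_lit 1788) (.e (nat_lit 81935) (nat_lit 20) (.e (nat_lit 1998) (nat_lit 137) (.e (nat_lit 663569) (nat_lit 6) (.e (nat_lit 81943) (nat_lit 20) (.e (nat_lit 2005) (nat_lit 138) (.e (nat_lit 671764) (nat_lit 6) .nil)))))) (.g (nat_lit 0) .nil .nil))))))))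

noncomputable def tv2739 : DT := (.nd (nat_lit 0) (.nd (nat_lit 1) (.nd (nat_lit 2) (.nd (nat_lit 3) (.nd (nat_lit 4) 
(.lf (nat_lit 207776) (.g (nat_lit 2258) (.e (nat_lit 81935) (nat_lit 20) (.e (nat_lit 1998) (nat_lit 137) (.e (nat_lit 663569) (nat_lit 6) (.e (nat_lit 81947) (nat_lit 20) (.e (nat_lit 2005) (nat_lit 138) (.e (nat_lit 671764) (nat_lit 6) .nil)))))) (.g (nat_lit 0) .nil .nil))) 
(.lf (nat_lit 207792) (.g (nat_lit 1630) (.e (nat_lit 81935) (nat_lit 20) (.e (nat_lit 1999) (nat_lit 137) (.e (nat_lit 663569) (nat_lit 6) (.e (nat_lit 81920) (nat_lit 0) (.e (nat_lit 3715) (nat_lit 227) (.e (nat_lit 778325) (nat_lit 6) .nil)))))) (.g (nat_lit 6) .nil .nil)))) (.nd (nat_lit 4) 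
(.lf (nat_lit 207784) (.g (nat_lit 2342) (.e (nat_lit 81935) (nat_lit 20) (.e (nat_lit 1999) (nat_lit 137) (.e (nat_lit 663567) (nat_lit 4) (.e (nat_lit 65598) (nat_lit 9) (.e (nat_lit 335907) (nat_lit 0) (.e (nat_lit 1996) (nat_lit 137) (.e (nat_lit 663569) (nat_lit 6) .nil))))))) (.g (nat_lit 5) .nil .nil))) 
(.lf (nat_lit 207800) (.g (nat_lit 2028) (.e (nat_lit 81935) (nat_lit 20) (.e (nat_lit 1999) (nat_lit 137) (.e (nat_lit 663569) (nat_lit 6) (.e (nat_lit 81935) (nat_lit 20) (.e (nat_lit 1994) (nat_lit 137) (.e (nat_lit 663569) (nat_lit 6) .nil)))))) (.g (nat_lit 0) .nil .nil))))) (.nd (nat_lit 3) (.nd (nat_lit 4) 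
(.lf (nat_lit 207780) (.g (nat_lit 2859) (.e (nat_lit 81935) (nat_lit 20) (.e (nat_lit 1998) (nat_lit 137) (.e (nat_lit 663569) (nat_lit 6) (.e (nat_lit 81959) (nat_lit 24) (.e (nat_lit 123184) (nat_lit 264) (.e (nat_lit 1222) (nat_lit 90) .nil)))))) (.g (nat_lit 6) .nil .nil))) 
(.lf (nat_lit 207796) (.g (nat_lit 1036) (.e (nat_lit 81935) (nat_lit 20) (.e (nat_lit 1999) (nat_lit 137) (.e (nat_lit 663569) (nat_lit 6) (.e (nat_lit 81924) (nat_lit 0) (.e (nat_lit 3629) (nat_lit 227) (.e (nat_lit 786176) (nat_lit 6) .nil)))))) (.g (nat_lit 5) .nil .nil)))) (.nd (nat_lit 4) 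
(.lf (nat_lit 207788) (.g (nat_lit 3086) (.e (nat_lit 81935) (nat_lit 20) (.e (nat_lit 1999) (nat_lit 137) (.e (nat_lit 663567) (nat_lit 4) (.e (nat_lit 65604) (nat_lit 9) (.e (nat_lit 335997) (nat_lit 1) (.e (nat_lit 57872) (nat_lit 264) (.e (nat_lit 1219) (nat_lit 90) .nil))))))) (.g (nat_lit 7) .nil .nil))) 
(.lf (nat_lit 207804) (.g (nat_lit 2045) (.e (nat_lit 81935) (nat_lit 20) (.e (nat_lit 1999) (nat_lit 137) (.e (nat_lit 663569) (nat_lit 6) (.e (nat_lit 81948) (nat_lit 21) (.e (nat_lit 57870) (nat_lit 264) (.e (nat_lit 1219) (nat_lit 90) .nil)))))) (.g (nat_lit 0) .nil .nil)))))) (.nd (nat_lit 2) (.nd (nat_lit 3) (.nd (nat_lit 4) 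
(.lf (nat_lit 207778) (.g (nat_lit 1428) (.e (nat_lit 81935) (nat_lit 20) (.e (nat_lit 1998) (nat_lit 137) (.e (nat_lit 663569) (nat_lit 6) (.e (nat_lit 81957) (nat_lit 24) (.e (nat_lit 123185) (nat_lit 264) (.e (nat_lit 7936) (nat_lit 90) .nil)))))) (.g (nat_lit 5) .nil .nil))) 
(.lf (nat_lit 207794) (.g (nat_lit 1156) (.e (nat_lit 81935) (nat_lit 20) (.e (nat_lit 1999) (nat_lit 137) (.e (nat_lit 663569) (nat_lit 6) (.e (nat_lit 81922) (nat_lit 0) (.e (nat_lit 3630) (nat_lit 227) (.e (nat_lit 786176) (nat_lit 6) .nil)))))) (.g (nat_lit 5) .nil .nil)))) (.nd (nat_lit 4) 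
(.lf (nat_lit 207786) (.g (nat_lit 2626) (.e (nat_lit 81935) (nat_lit 20) (.e (nat_lit 1999) (nat_lit 137) (.e (nat_lit 663567) (nat_lit 4) (.e (nat_lit 65604) (nat_lit 9) (.e (nat_lit 335997) (nat_lit 1) (.e (nat_lit 57870) (nat_lit 264) (.e (nat_lit 1219) (nat_lit 90) .nil))))))) (.g (nat_lit 7) .nil .nil))) 
(.lf (nat_lit 207802) (.g (nat_lit 2072) (.e (nat_lit 81935) (nat_lit 20) (.e (nat_lit 1999) (nat_lit 137) (.e (nat_lit 663569) (nat_lit 6) (.e (nat_lit 81935) (nat_lit 20) (.e (nat_lit 1999) (nat_lit 137) (.e (nat_lit 663569) (nat_lit 6) .nil)))))) (.g (nat_lit 0) .nil .nil))))) (.nd (nat_lit 3) (.nd (nat_lit 4) 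
(.lf (nat_lit 207782) (.g (nat_lit 2363) (.e (nat_lit 81935) (nat_lit 20) (.e (nat_lit 1999) (nat_lit 137) (.e (nat_lit 663567) (nat_lit 4) (.e (nat_lit 65595) (nat_lit 9) (.e (nat_lit 336032) (nat_lit 4) (.e (nat_lit 123184) (nat_lit 264) (.e (nat_lit 1222) (nat_lit 90) .nil))))))) (.g (nat_lit 7) .nil .nil))) 
(.lf (nat_lit 207798) (.g (nat_lit 1297) (.e (nat_lit 81935) (nat_lit 20) (.e (nat_lit 1999) (nat_lit 137) (.e (nat_lit 663569) (nat_lit 6) (.e (nat_lit 81924) (nat_lit 0) (.e (nat_lit 3631) (nat_lit 227) (.e (nat_lit 786176) (nat_lit 6) .nil)))))) (.g (nat_lit 5) .nil .nil)))) (.nd (nat_lit 4) 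
(.lf (nat_lit 207790) (.g (nat_lit 1957) (.e (nat_lit 81935) (nat_lit 20) (.e (nat_lit 1999) (nat_lit 137) (.e (nat_lit 663567) (nat_lit 4) (.e (nat_lit 65624) (nat_lit 12) (.e (nat_lit 385092) (nat_lit 49) (.e (nat_lit 786176) (nat_lit 6) .nil)))))) (.g (nat_lit 5) .nil .nil))) 
(.lf (nat_lit 207806) (.g (nat_lit 2745) (.e (nat_lit 81935) (nat_lit 20) (.e (nat_lit 1999) (nat_lit 137) (.e (nat_lit 663569) (nat_lit 6) (.e (nat_lit 81950) (nat_lit 21) (.e (nat_lit 57872) (nat_lit 264) (.e (nat_lit 1219) (nat_lit 90) .nil)))))) (.g (nat_lit 6) .nil .nil))))))) (.nd (nat_lit 1) (.nd (nat_lit 2) (.nd (nat_lit 3) (.nd (nat_lit 4) 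
(.lf (nat_lit 207777) (.g (nat_lit 2766) (.e (nat_lit 81935) (nat_lit 20) (.e (nat_lit 1998) (nat_lit 137) (.e (nat_lit 663569) (nat_lit 6) (.e (nat_lit 81950) (nat_lit 21) (.e (nat_lit 57872) (nat_lit 264) (.e (nat_lit 1219) (nat_lit 90) .nil)))))) (.g (nat_lit 6) .nil .nil))) 
(.lf (nat_lit 207793) (.g (nat_lit 1154) (.e (nat_lit 81935) (nat_lit 20) (.e (nat_lit 1999) (nat_lit 137) (.e (nat_lit 663569) (nat_lit 6) (.e (nat_lit 81921) (nat_lit 0) (.e (nat_lit 3714) (nat_lit 227) (.e (nat_lit 786176) (nat_lit 6) .nil)))))) (.g (nat_lit 5) .nil .nil)))) (.nd (nat_lit 4) 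
(.lf (nat_lit 207785) (.g (nat_lit 3141) (.e (nat_lit 81935) (nat_lit 20) (.e (nat_lit 1999) (nat_lit 137) (.e (nat_lit 663567) (nat_lit 4) (.e (nat_lit 65598) (nat_lit 9) (.e (nat_lit 335997) (nat_lit 1) (.e (nat_lit 57872) (nat_lit 264) (.e (nat_lit 1219) (nat_lit 90) .nil))))))) (.g (nat_lit 7) .nil .nil))) 
(.lf (nat_lit 207801) (.g (nat_lit 2063) (.e (nat_lit 81935) (nat_lit 20) (.e (nat_lit 1999) (nat_lit 137) (.e (nat_lit 663569) (nat_lit 6) (.e (nat_lit 81935) (nat_lit 20) (.e (nat_lit 1998) (nat_lit 137) (.e (nat_lit 663569) (nat_lit 6) .nil)))))) (.g (nat_lit 0) .nil .nil))))) (.nd (nat_lit 3) (.nd (nat_lit 4) 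
(.lf (nat_lit 207781) (.g (nat_lit 1172) (.e (nat_lit 81935) (nat_lit 20) (.e (nat_lit 1998) (nat_lit 137) (.e (nat_lit 663569) (nat_lit 6) (.e (nat_lit 81959) (nat_lit 24) (.e (nat_lit 123185) (nat_lit 264) (.e (nat_lit 7936) (nat_lit 90) .nil)))))) (.g (nat_lit 4) .nil .nil))) 
(.lf (nat_lit 207797) (.g (nat_lit 1013) (.e (nat_lit 81935) (nat_lit 20) (.e (nat_lit 1999) (nat_lit 137) (.e (nat_lit 663569) (nat_lit 6) (.e (nat_lit 81924) (nat_lit 0) (.e (nat_lit 3630) (nat_lit 227) (.e (nat_lit 786176) (nat_lit 6) .nil)))))) (.g (nat_lit 5) .nil .nil)))) (.nd (nat_lit 4) 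
(.lf (nat_lit 207789) (.g (nat_lit 2227) (.e (nat_lit 81935) (nat_lit 20) (.e (nat_lit 1999) (nat_lit 137) (.e (nat_lit 663567) (nat_lit 4) (.e (nat_lit 65622) (nat_lit 12) (.e (nat_lit 385093) (nat_lit 49) (.e (nat_lit 786176) (nat_lit 6) .nil)))))) (.g (nat_lit 5) .nil .nil))) 
(.lf (nat_lit 207805) (.g (nat_lit 2826) (.e (nat_lit 81935) (nat_lit 20) (.e (nat_lit 1999) (nat_lit 137) (.e (nat_lit 663569) (nat_lit 6) (.e (nat_lit 81948) (nat_lit 21) (.e (nat_lit 57872) (nat_lit 264) (.e (nat_lit 1219) (nat_lit 90) .nil)))))) (.g (nat_lit 0) .nil .nil)))))) (.nd (nat_lit 2) (.nd (nat_lit 3) (.nd (nat_lit 4) 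
(.lf (nat_lit 207779) (.g (nat_lit 3213) (.e (nat_lit 81935) (nat_lit 20) (.e (nat_lit 1998) (nat_lit 137) (.e (nat_lit 663569) (nat_lit 6) (.e (nat_lit 81959) (nat_lit 24) (.e (nat_lit 123182) (nat_lit 264) (.e (nat_lit 1222) (nat_lit 90) .nil)))))) (.g (nat_lit 6) .nil .nil))) 
(.lf (nat_lit 207795) (.g (nat_lit 1550) (.e (nat_lit 81935) (nat_lit 20) (.e (nat_lit 1999) (nat_lit 137) (.e (nat_lit 663569) (nat_lit 6) (.e (nat_lit 81922) (nat_lit 0) (.e (nat_lit 3631) (nat_lit 227) (.e (nat_lit 786176) (nat_lit 6) .nil)))))) (.g (nat_lit 5) .nil .nil)))) (.nd (nat_lit 4) 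
(.lf (nat_lit 207787) (.g (nat_lit 2588) (.e (nat_lit 81935) (nat_lit 20) (.e (nat_lit 1999) (nat_lit 137) (.e (nat_lit 663567) (nat_lit 4) (.e (nat_lit 65604) (nat_lit 9) (.e (nat_lit 335997) (nat_lit 1) (.e (nat_lit 57871) (nat_lit 264) (.e (nat_lit 1219) (nat_lit 90) .nil))))))) (.g (nat_lit 7) .nil .nil))) 
(.lf (nat_lit 207803) (.g (nat_lit 1088) (.e (nat_lit 81935) (nat_lit 20) (.e (nat_lit 1999) (nat_lit 137) (.e (nat_lit 663569) (nat_lit 6) (.e (nat_lit 81946) (nat_lit 20) (.e (nat_lit 2003) (nat_lit 138) .nil))))) .nil)))) (.nd (nat_lit 3) (.nd (nat_lit 4) 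
(.lf (nat_lit 207783) (.g (nat_lit 2364) (.e (nat_lit 81935) (nat_lit 20) (.e (nat_lit 1999) (nat_lit 137) (.e (nat_lit 663567) (nat_lit 4) (.e (nat_lit 65598) (nat_lit 9) (.e (nat_lit 335907) (nat_lit 0) (.e (nat_lit 1994) (nat_lit 137) (.e (nat_lit 663569) (nat_lit 6) .nil))))))) (.g (nat_lit 5) .nil .nil))) 
(.lf (nat_lit 207799) (.g (nat_lit 1941) (.e (nat_lit 81935) (nat_lit 20) (.e (nat_lit 1999) (nat_lit 137) (.e (nat_lit 663569) (nat_lit 6) (.e (nat_lit 81924) (nat_lit 0) (.e (nat_lit 3632) (nat_lit 227) (.e (nat_lit 778326) (nat_lit 6) .nil)))))) (.g (nat_lit 0) .nil .nil)))) (.nd (nat_lit 4) 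
(.lf (nat_lit 207791) (.g (nat_lit 2263) (.e (nat_lit 81935) (nat_lit 20) (.e (nat_lit 1999) (nat_lit 137) (.e (nat_lit 663567) (nat_lit 4) (.e (nat_lit 65624) (nat_lit 12) (.e (nat_lit 385093) (nat_lit 49) (.e (nat_lit 786176) (nat_lit 6) .nil)))))) (.g (nat_lit 5) .nil .nil))) 
(.lf (nat_lit 207807) (.g (nat_lit 3220) (.e (nat_lit 81935) (nat_lit 20) (.e (nat_lit 1999) (nat_lit 137) (.e (nat_lit 663569) (nat_lit 6) (.e (nat_lit 81957) (nat_lit 24) (.e (nat_lit 123182) (nat_lit 264) (.e (nat_lit 1222) (nat_lit 90) .nil)))))) (.g (nat_lit 0) .nil .nil))))))))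

noncomputable def tv2740 : DT := (.nd (nat_lit 0) (.nd (nat_lit 1) (.nd (nat_lit 2) (.nd (nat_lit 3) (.nd (nat_lit 4) (.nd (nat_lit 5) 
(.lf (nat_lit 207808) (.g (nat_lit 2988) (.e (nat_lit 81935) (nat_lit 20) (.e (nat_lit 1999) (nat_lit 137) (.e (nat_lit 663569) (nat_lit 6) (.e (nat_lit 81957) (nat_lit 24) (.e (nat_lit 123184) (nat_lit 264) (.e (nat_lit 1222) (nat_lit 90) .nil)))))) (.g (nat_lit 0) .nil .nil))) 
(.lf (nat_lit 207840) (.g (nat_lit 763) (.e (nat_lit 81935) (nat_lit 20) (.e (nat_lit 2383) (nat_lit 155) (.e (nat_lit 811011) (nat_lit 0) (.e (nat_lit 5768) (nat_lit 316) (.e (nat_lit 179968) (nat_lit 17) (.e (nat_lit 98048) (nat_lit 6) .nil)))))) (.g (nat_lit 4) .nil .nil)))) (.nd (nat_lit 5) 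
(.lf (nat_lit 207824) (.g (nat_lit 1710) (.e (nat_lit 81935) (nat_lit 20) (.e (nat_lit 2375) (nat_lit 154) (.e (nat_lit 810752) (nat_lit 14) (.e (nat_lit 360449) (nat_lit 0) (.e (nat_lit 7122) (nat_lit 382) (.e (nat_lit 7936) (nat_lit 90) .nil)))))) (.g (nat_lit 5) .nil .nil))) 
(.lf (nat_lit 207856) (.g (nat_lit 598) (.e (nat_lit 81935) (nat_lit 20) (.e (nat_lit 2383) (nat_lit 155) (.e (nat_lit 811012) (nat_lit 0) (.e (nat_lit 5777) (nat_lit 317) (.e (nat_lit 188160) (nat_lit 8) (.e (nat_lit 564992) (nat_lit 6) .nil)))))) (.g (nat_lit 4) .nil .nil))))) (.nd (nat_lit 4) (.nd (nat_lit 5) 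
(.lf (nat_lit 207816) (.g (nat_lit 1779) (.e (nat_lit 81935) (nat_lit 20) (.e (nat_lit 2375) (nat_lit 154) (.e (nat_lit 802828) (nat_lit 13) (.e (nat_lit 352307) (nat_lit 21) (.e (nat_lit 57655) (nat_lit 152) (.e (nat_lit 1216) (nat_lit 90) .nil)))))) (.g (nat_lit 0) .nil .nil))) 
(.lf (nat_lit 207848) (.g (nat_lit 914) (.e (nat_lit 81935) (nat_lit 20) (.e (nat_lit 2383) (nat_lit 155) (.e (nat_lit 811011) (nat_lit 0) (.e (nat_lit 5779) (nat_lit 317) (.e (nat_lit 180248) (nat_lit 9) (.e (nat_lit 573184) (nat_lit 6) .nil)))))) (.g (nat_lit 5) .nil .nil)))) (.nd (nat_lit 5) 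
(.lf (nat_lit 207832) (.g (nat_lit 1114) (.e (nat_lit 81935) (nat_lit 20) (.e (nat_lit 2375) (nat_lit 154) (.e (nat_lit 810752) (nat_lit 14) (.e (nat_lit 360452) (nat_lit 0) (.e (nat_lit 7146) (nat_lit 382) (.e (nat_lit 7936) (nat_lit 90) .nil)))))) (.g (nat_lit 5) .nil .nil))) 
(.lf (nat_lit 207864) (.g (nat_lit 1077) (.e (nat_lit 81935) (nat_lit 20) (.e (nat_lit 2384) (nat_lit 155) (.e (nat_lit 811011) (nat_lit 0) (.e (nat_lit 5768) (nat_lit 316) (.e (nat_lit 179968) (nat_lit 17) (.e (nat_lit 98048) (nat_lit 6) .nil)))))) (.g (nat_lit 4) .nil .nil)))))) (.nd (nat_lit 3) (.nd (nat_lit 4) (.nd (nat_lit 5) 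
(.lf (nat_lit 207812) (.g (nat_lit 1133) (.e (nat_lit 81935) (nat_lit 20) (.e (nat_lit 1999) (nat_lit 137) (.e (nat_lit 663569) (nat_lit 6) (.e (nat_lit 81959) (nat_lit 24) (.e (nat_lit 123185) (nat_lit 264) (.e (nat_lit 7936) (nat_lit 90) .nil)))))) (.g (nat_lit 4) .nil .nil))) 
(.lf (nat_lit 207844) (.g (nat_lit 877) (.e (nat_lit 81935) (nat_lit 20) (.e (nat_lit 2383) (nat_lit 155) (.e (nat_lit 811011) (nat_lit 0) (.e (nat_lit 5776) (nat_lit 317) (.e (nat_lit 180248) (nat_lit 9) (.e (nat_lit 573184) (nat_lit 6) .nil)))))) (.g (nat_lit 5) .nil .nil)))) (.nd (nat_lit 5) 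
(.lf (nat_lit 207828) (.g (nat_lit 689) (.e (nat_lit 81935) (nat_lit 20) (.e (nat_lit 2375) (nat_lit 154) (.e (nat_lit 810752) (nat_lit 14) (.e (nat_lit 360451) (nat_lit 0) (.e (nat_lit 7119) (nat_lit 382) (.e (nat_lit 7936) (nat_lit 90) .nil)))))) (.g (nat_lit 4) .nil .nil))) 
(.lf (nat_lit 207860) (.g (nat_lit 1804) (.e (nat_lit 81935) (nat_lit 20) (.e (nat_lit 2383) (nat_lit 155) (.e (nat_lit 811030) (nat_lit 10) (.e (nat_lit 311325) (nat_lit 9) (.e (nat_lit 426432) (nat_lit 17) (.e (nat_lit 98048) (nat_lit 6) .nil)))))) (.g (nat_lit 5) .nil .nil))))) (.nd (nat_lit 4) (.nd (nat_lit 5) 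
(.lf (nat_lit 207820) (.g (nat_lit 1940) (.e (nat_lit 81935) (nat_lit 20) (.e (nat_lit 2375) (nat_lit 154) (.e (nat_lit 802828) (nat_lit 13) (.e (nat_lit 352309) (nat_lit 21) (.e (nat_lit 57655) (nat_lit 152) (.e (nat_lit 1216) (nat_lit 90) .nil)))))) (.g (nat_lit 0) .nil .nil))) 
(.lf (nat_lit 207852) (.g (nat_lit 650) (.e (nat_lit 81935) (nat_lit 20) (.e (nat_lit 2383) (nat_lit 155) (.e (nat_lit 811012) (nat_lit 0) (.e (nat_lit 5772) (nat_lit 316) (.e (nat_lit 179968) (nat_lit 17) (.e (nat_lit 98048) (nat_lit 6) .nil)))))) (.g (nat_lit 4) .nil .nil)))) (.nd (nat_lit 5) 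
(.lf (nat_lit 207836) (.g (nat_lit 1002) (.e (nat_lit 81935) (nat_lit 20) (.e (nat_lit 2375) (nat_lit 154) (.e (nat_lit 810752) (nat_lit 14) (.e (nat_lit 360453) (nat_lit 0) (.e (nat_lit 7146) (nat_lit 382) (.e (nat_lit 7936) (nat_lit 90) .nil)))))) (.g (nat_lit 5) .nil .nil))) 
(.lf (nat_lit 207868) (.g (nat_lit 1208) (.e (nat_lit 81935) (nat_lit 20) (.e (nat_lit 2384) (nat_lit 155) (.e (nat_lit 811011) (nat_lit 0) (.e (nat_lit 5776) (nat_lit 317) (.e (nat_lit 180248) (nat_lit 9) (.e (nat_lit 573184) (nat_lit 6) .nil)))))) (.g (nat_lit 5) .nil .nil))))))) (.nd (nat_lit 2) (.nd (nat_lit 3) (.nd (nat_lit 4) (.nd (nat_lit 5) 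
(.lf (nat_lit 207810) (.g (nat_lit 3172) (.e (nat_lit 81935) (nat_lit 20) (.e (nat_lit 1999) (nat_lit 137) (.e (nat_lit 663569) (nat_lit 6) (.e (nat_lit 81959) (nat_lit 24) (.e (nat_lit 123182) (nat_lit 264) (.e (nat_lit 1222) (nat_lit 90) .nil)))))) (.g (nat_lit 6) .nil .nil))) 
(.lf (nat_lit 207842) (.g (nat_lit 700) (.e (nat_lit 81935) (nat_lit 20) (.e (nat_lit 2383) (nat_lit 155) (.e (nat_lit 811011) (nat_lit 0) (.e (nat_lit 5773) (nat_lit 316) (.e (nat_lit 179968) (nat_lit 17) (.e (nat_lit 98048) (nat_lit 6) .nil)))))) (.g (nat_lit 4) .nil .nil)))) (.nd (nat_lit 5) 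
(.lf (nat_lit 207826) (.g (nat_lit 1450) (.e (nat_lit 81935) (nat_lit 20) (.e (nat_lit 2375) (nat_lit 154) (.e (nat_lit 810752) (nat_lit 14) (.e (nat_lit 360449) (nat_lit 0) (.e (nat_lit 7125) (nat_lit 382) (.e (nat_lit 7936) (nat_lit 90) .nil)))))) (.g (nat_lit 5) .nil .nil))) 
(.lf (nat_lit 207858) (.g (nat_lit 566) (.e (nat_lit 81935) (nat_lit 20) (.e (nat_lit 2383) (nat_lit 155) (.e (nat_lit 811012) (nat_lit 0) (.e (nat_lit 5780) (nat_lit 317) (.e (nat_lit 188160) (nat_lit 8) (.e (nat_lit 564992) (nat_lit 6) .nil)))))) (.g (nat_lit 4) .nil .nil))))) (.nd (nat_lit 4) (.nd (nat_lit 5) 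
(.lf (nat_lit 207818) (.g (nat_lit 1409) (.e (nat_lit 81935) (nat_lit 20) (.e (nat_lit 2375) (nat_lit 154) (.e (nat_lit 802828) (nat_lit 13) (.e (nat_lit 352307) (nat_lit 21) (.e (nat_lit 57665) (nat_lit 152) (.e (nat_lit 7936) (nat_lit 90) .nil)))))) (.g (nat_lit 4) .nil .nil))) 
(.lf (nat_lit 207850) (.g (nat_lit 688) (.e (nat_lit 81935) (nat_lit 20) (.e (nat_lit 2383) (nat_lit 155) (.e (nat_lit 811012) (nat_lit 0) (.e (nat_lit 5768) (nat_lit 316) (.e (nat_lit 179968) (nat_lit 17) (.e (nat_lit 98048) (nat_lit 6) .nil)))))) (.g (nat_lit 4) .nil .nil)))) (.nd (nat_lit 5) 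
(.lf (nat_lit 207834) (.g (nat_lit 625) (.e (nat_lit 81935) (nat_lit 20) (.e (nat_lit 2375) (nat_lit 154) (.e (nat_lit 810752) (nat_lit 14) (.e (nat_lit 360452) (nat_lit 0) (.e (nat_lit 7167) (nat_lit 382) (.e (nat_lit 7936) (nat_lit 90) .nil)))))) (.g (nat_lit 4) .nil .nil))) 
(.lf (nat_lit 207866) (.g (nat_lit 1043) (.e (nat_lit 81935) (nat_lit 20) (.e (nat_lit 2384) (nat_lit 155) (.e (nat_lit 811011) (nat_lit 0) (.e (nat_lit 5773) (nat_lit 316) (.e (nat_lit 179968) (nat_lit 17) (.e (nat_lit 98048) (nat_lit 6) .nil)))))) (.g (nat_lit 4) .nil .nil)))))) (.nd (nat_lit 3) (.nd (nat_lit 4) (.nd (nat_lit 5) 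
(.lf (nat_lit 207814) (.g (nat_lit 680) (.e (nat_lit 81935) (nat_lit 20) (.e (nat_lit 2370) (nat_lit 154) (.e (nat_lit 810752) (nat_lit 14) (.e (nat_lit 360451) (nat_lit 0) (.e (nat_lit 7132) (nat_lit 382) (.e (nat_lit 7936) (nat_lit 90) .nil)))))) (.g (nat_lit 4) .nil .nil))) 
(.lf (nat_lit 207846) (.g (nat_lit 697) (.e (nat_lit 81935) (nat_lit 20) (.e (nat_lit 2383) (nat_lit 155) (.e (nat_lit 811011) (nat_lit 0) (.e (nat_lit 5777) (nat_lit 317) (.e (nat_lit 180248) (nat_lit 9) (.e (nat_lit 573184) (nat_lit 6) .nil)))))) (.g (nat_lit 5) .nil .nil)))) (.nd (nat_lit 5) 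
(.lf (nat_lit 207830) (.g (nat_lit 930) (.e (nat_lit 81935) (nat_lit 20) (.e (nat_lit 2375) (nat_lit 154) (.e (nat_lit 810752) (nat_lit 14) (.e (nat_lit 360452) (nat_lit 0) (.e (nat_lit 7144) (nat_lit 382) (.e (nat_lit 7936) (nat_lit 90) .nil)))))) (.g (nat_lit 4) .nil .nil))) 
(.lf (nat_lit 207862) (.g (nat_lit 897) (.e (nat_lit 81935) (nat_lit 20) (.e (nat_lit 2384) (nat_lit 155) (.e (nat_lit 811009) (nat_lit 0) (.e (nat_lit 5777) (nat_lit 317) (.e (nat_lit 188160) (nat_lit 8) (.e (nat_lit 564992) (nat_lit 6) .nil)))))) (.g (nat_lit 4) .nil .nil))))) (.nd (nat_lit 4) (.nd (nat_lit 5) 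
(.lf (nat_lit 207822) (.g (nat_lit 1650) (.e (nat_lit 81935) (nat_lit 20) (.e (nat_lit 2375) (nat_lit 154) (.e (nat_lit 802828) (nat_lit 13) (.e (nat_lit 352309) (nat_lit 21) (.e (nat_lit 57660) (nat_lit 152) (.e (nat_lit 7936) (nat_lit 90) .nil)))))) (.g (nat_lit 5) .nil .nil))) 
(.lf (nat_lit 207854) (.g (nat_lit 684) (.e (nat_lit 81935) (nat_lit 20) (.e (nat_lit 2383) (nat_lit 155) (.e (nat_lit 811012) (nat_lit 0) (.e (nat_lit 5776) (nat_lit 317) (.e (nat_lit 188160) (nat_lit 8) (.e (nat_lit 564992) (nat_lit 6) .nil)))))) (.g (nat_lit 4) .nil .nil)))) (.nd (nat_lit 5) 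
(.lf (nat_lit 207838) (.g (nat_lit 634) (.e (nat_lit 81935) (nat_lit 20) (.e (nat_lit 2375) (nat_lit 154) (.e (nat_lit 810752) (nat_lit 14) (.e (nat_lit 360453) (nat_lit 0) (.e (nat_lit 7167) (nat_lit 382) (.e (nat_lit 7936) (nat_lit 90) .nil)))))) (.g (nat_lit 4) .nil .nil))) 
(.lf (nat_lit 207870) (.g (nat_lit 1051) (.e (nat_lit 81935) (nat_lit 20) (.e (nat_lit 2384) (nat_lit 155) (.e (nat_lit 811011) (nat_lit 0) (.e (nat_lit 5777) (nat_lit 317) (.e (nat_lit 180248) (nat_lit 9) (.e (nat_lit 573184) (nat_lit 6) .nil)))))) (.g (nat_lit 5) .nil .nil)))))))) (.nd (nat_lit 1) (.nd (nat_lit 2) (.nd (nat_lit 3) (.nd (nat_lit 4) (.nd (nat_lit 5) 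
(.lf (nat_lit 207809) (.g (nat_lit 1442) (.e (nat_lit 81935) (nat_lit 20) (.e (nat_lit 1999) (nat_lit 137) (.e (nat_lit 663569) (nat_lit 6) (.e (nat_lit 81957) (nat_lit 24) (.e (nat_lit 123185) (nat_lit 264) (.e (nat_lit 7936) (nat_lit 90) .nil)))))) (.g (nat_lit 4) .nil .nil))) 
(.lf (nat_lit 207841) (.g (nat_lit 720) (.e (nat_lit 81935) (nat_lit 20) (.e (nat_lit 2383) (nat_lit 155) (.e (nat_lit 811011) (nat_lit 0) (.e (nat_lit 5772) (nat_lit 316) (.e (nat_lit 179968) (nat_lit 17) (.e (nat_lit 98048) (nat_lit 6) .nil)))))) (.g (nat_lit 4) .nil .nil)))) (.nd (nat_lit 5) 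
(.lf (nat_lit 207825) (.g (nat_lit 1372) (.e (nat_lit 81935) (nat_lit 20) (.e (nat_lit 2375) (nat_lit 154) (.e (nat_lit 810752) (nat_lit 14) (.e (nat_lit 360449) (nat_lit 0) (.e (nat_lit 7124) (nat_lit 382) (.e (nat_lit 7936) (nat_lit 90) .nil)))))) (.g (nat_lit 5) .nil .nil))) 
(.lf (nat_lit 207857) (.g (nat_lit 766) (.e (nat_lit 81935) (nat_lit 20) (.e (nat_lit 2383) (nat_lit 155) (.e (nat_lit 811012) (nat_lit 0) (.e (nat_lit 5779) (nat_lit 317) (.e (nat_lit 188160) (nat_lit 8) (.e (nat_lit 564992) (nat_lit 6) .nil)))))) (.g (nat_lit 4) .nil .nil))))) (.nd (nat_lit 4) (.nd (nat_lit 5) 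
(.lf (nat_lit 207817) (.g (nat_lit 1505) (.e (nat_lit 81935) (nat_lit 20) (.e (nat_lit 2375) (nat_lit 154) (.e (nat_lit 802828) (nat_lit 13) (.e (nat_lit 352307) (nat_lit 21) (.e (nat_lit 57655) (nat_lit 152) (.e (nat_lit 7936) (nat_lit 90) .nil)))))) (.g (nat_lit 5) .nil .nil))) 
(.lf (nat_lit 207849) (.g (nat_lit 613) (.e (nat_lit 81935) (nat_lit 20) (.e (nat_lit 2383) (nat_lit 155) (.e (nat_lit 811011) (nat_lit 0) (.e (nat_lit 5780) (nat_lit 317) (.e (nat_lit 188160) (nat_lit 8) (.e (nat_lit 564992) (nat_lit 6) .nil)))))) (.g (nat_lit 4) .nil .nil)))) (.nd (nat_lit 5) 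
(.lf (nat_lit 207833) (.g (nat_lit 1066) (.e (nat_lit 81935) (nat_lit 20) (.e (nat_lit 2375) (nat_lit 154) (.e (nat_lit 810752) (nat_lit 14) (.e (nat_lit 360452) (nat_lit 0) (.e (nat_lit 7147) (nat_lit 382) (.e (nat_lit 7936) (nat_lit 90) .nil)))))) (.g (nat_lit 5) .nil .nil))) 
(.lf (nat_lit 207865) (.g (nat_lit 1032) (.e (nat_lit 81935) (nat_lit 20) (.e (nat_lit 2384) (nat_lit 155) (.e (nat_lit 811011) (nat_lit 0) (.e (nat_lit 5772) (nat_lit 316) (.e (nat_lit 179968) (nat_lit 17) (.e (nat_lit 98048) (nat_lit 6) .nil)))))) (.g (nat_lit 4) .nil .nil)))))) (.nd (nat_lit 3) (.nd (nat_lit 4) (.nd (nat_lit 5) 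
(.lf (nat_lit 207813) (.g (nat_lit 738) (.e (nat_lit 81935) (nat_lit 20) (.e (nat_lit 2370) (nat_lit 154) (.e (nat_lit 810752) (nat_lit 14) (.e (nat_lit 360449) (nat_lit 0) (.e (nat_lit 7119) (nat_lit 382) (.e (nat_lit 7936) (nat_lit 90) .nil)))))) (.g (nat_lit 4) .nil .nil))) 
(.lf (nat_lit 207845) (.g (nat_lit 640) (.e (nat_lit 81935) (nat_lit 20) (.e (nat_lit 2383) (nat_lit 155) (.e (nat_lit 811011) (nat_lit 0) (.e (nat_lit 5777) (nat_lit 317) (.e (nat_lit 188160) (nat_lit 8) (.e (nat_lit 564992) (nat_lit 6) .nil)))))) (.g (nat_lit 4) .nil .nil)))) (.nd (nat_lit 5) 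
(.lf (nat_lit 207829) (.g (nat_lit 762) (.e (nat_lit 81935) (nat_lit 20) (.e (nat_lit 2375) (nat_lit 154) (.e (nat_lit 810752) (nat_lit 14) (.e (nat_lit 360451) (nat_lit 0) (.e (nat_lit 7132) (nat_lit 382) (.e (nat_lit 7936) (nat_lit 90) .nil)))))) (.g (nat_lit 4) .nil .nil))) 
(.lf (nat_lit 207861) (.g (nat_lit 149) (.e (nat_lit 81935) (nat_lit 20) (.e (nat_lit 2384) (nat_lit 155) (.e (nat_lit 811009) (nat_lit 0) .nil))) .nil)))) (.nd (nat_lit 4) (.nd (nat_lit 5) 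
(.lf (nat_lit 207821) (.g (nat_lit 1595) (.e (nat_lit 81935) (nat_lit 20) (.e (nat_lit 2375) (nat_lit 154) (.e (nat_lit 802828) (nat_lit 13) (.e (nat_lit 352309) (nat_lit 21) (.e (nat_lit 57655) (nat_lit 152) (.e (nat_lit 7936) (nat_lit 90) .nil)))))) (.g (nat_lit 5) .nil .nil))) 
(.lf (nat_lit 207853) (.g (nat_lit 628) (.e (nat_lit 81935) (nat_lit 20) (.e (nat_lit 2383) (nat_lit 155) (.e (nat_lit 811012) (nat_lit 0) (.e (nat_lit 5773) (nat_lit 316) (.e (nat_lit 179968) (nat_lit 17) (.e (nat_lit 98048) (nat_lit 6) .nil)))))) (.g (nat_lit 4) .nil .nil)))) (.nd (nat_lit 5) 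
(.lf (nat_lit 207837) (.g (nat_lit 1013) (.e (nat_lit 81935) (nat_lit 20) (.e (nat_lit 2375) (nat_lit 154) (.e (nat_lit 810752) (nat_lit 14) (.e (nat_lit 360453) (nat_lit 0) (.e (nat_lit 7147) (nat_lit 382) (.e (nat_lit 7936) (nat_lit 90) .nil)))))) (.g (nat_lit 5) .nil .nil))) 
(.lf (nat_lit 207869) (.g (nat_lit 989) (.e (nat_lit 81935) (nat_lit 20) (.e (nat_lit 2384) (nat_lit 155) (.e (nat_lit 811011) (nat_lit 0) (.e (nat_lit 5777) (nat_lit 317) (.e (nat_lit 188160) (nat_lit 8) (.e (nat_lit 564992) (nat_lit 6) .nil)))))) (.g (nat_lit 4) .nil .nil))))))) (.nd (nat_lit 2) (.nd (nat_lit 3) (.nd (nat_lit 4) (.nd (nat_lit 5) 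
(.lf (nat_lit 207811) (.g (nat_lit 2576) (.e (nat_lit 81935) (nat_lit 20) (.e (nat_lit 1999) (nat_lit 137) (.e (nat_lit 663569) (nat_lit 6) (.e (nat_lit 81959) (nat_lit 24) (.e (nat_lit 123183) (nat_lit 264) (.e (nat_lit 1222) (nat_lit 90) .nil)))))) (.g (nat_lit 6) .nil .nil))) 
(.lf (nat_lit 207843) (.g (nat_lit 732) (.e (nat_lit 81935) (nat_lit 20) (.e (nat_lit 2383) (nat_lit 155) (.e (nat_lit 811011) (nat_lit 0) (.e (nat_lit 5776) (nat_lit 317) (.e (nat_lit 188160) (nat_lit 8) (.e (nat_lit 564992) (nat_lit 6) .nil)))))) (.g (nat_lit 4) .nil .nil)))) (.nd (nat_lit 5) 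
(.lf (nat_lit 207827) (.g (nat_lit 1361) (.e (nat_lit 81935) (nat_lit 20) (.e (nat_lit 2375) (nat_lit 154) (.e (nat_lit 810752) (nat_lit 14) (.e (nat_lit 360450) (nat_lit 0) (.e (nat_lit 7119) (nat_lit 382) (.e (nat_lit 7936) (nat_lit 90) .nil)))))) (.g (nat_lit 5) .nil .nil))) 
(.lf (nat_lit 207859) (.g (nat_lit 1488) (.e (nat_lit 81935) (nat_lit 20) (.e (nat_lit 2383) (nat_lit 155) (.e (nat_lit 811030) (nat_lit 10) (.e (nat_lit 311324) (nat_lit 9) (.e (nat_lit 426432) (nat_lit 17) (.e (nat_lit 98048) (nat_lit 6) .nil)))))) (.g (nat_lit 5) .nil .nil))))) (.nd (nat_lit 4) (.nd (nat_lit 5) 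
(.lf (nat_lit 207819) (.g (nat_lit 1690) (.e (nat_lit 81935) (nat_lit 20) (.e (nat_lit 2375) (nat_lit 154) (.e (nat_lit 802828) (nat_lit 13) (.e (nat_lit 352309) (nat_lit 21) (.e (nat_lit 57654) (nat_lit 152) (.e (nat_lit 7936) (nat_lit 90) .nil)))))) (.g (nat_lit 5) .nil .nil))) 
(.lf (nat_lit 207851) (.g (nat_lit 575) (.e (nat_lit 81935) (nat_lit 20) (.e (nat_lit 2383) (nat_lit 155) (.e (nat_lit 811012) (nat_lit 0) (.e (nat_lit 5770) (nat_lit 316) (.e (nat_lit 179968) (nat_lit 17) (.e (nat_lit 98048) (nat_lit 6) .nil)))))) (.g (nat_lit 4) .nil .nil)))) (.nd (nat_lit 5) 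
(.lf (nat_lit 207835) (.g (nat_lit 646) (.e (nat_lit 81935) (nat_lit 20) (.e (nat_lit 2375) (nat_lit 154) (.e (nat_lit 810752) (nat_lit 14) (.e (nat_lit 360453) (nat_lit 0) (.e (nat_lit 7145) (nat_lit 382) (.e (nat_lit 7936) (nat_lit 90) .nil)))))) (.g (nat_lit 4) .nil .nil))) 
(.lf (nat_lit 207867) (.g (nat_lit 1072) (.e (nat_lit 81935) (nat_lit 20) (.e (nat_lit 2384) (nat_lit 155) (.e (nat_lit 811011) (nat_lit 0) (.e (nat_lit 5776) (nat_lit 317) (.e (nat_lit 188160) (nat_lit 8) (.e (nat_lit 564992) (nat_lit 6) .nil)))))) (.g (nat_lit 4) .nil .nil)))))) (.nd (nat_lit 3) (.nd (nat_lit 4) (.nd (nat_lit 5) 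
(.lf (nat_lit 207815) (.g (nat_lit 1748) (.e (nat_lit 81935) (nat_lit 20) (.e (nat_lit 2375) (nat_lit 154) (.e (nat_lit 802828) (nat_lit 13) (.e (nat_lit 352307) (nat_lit 21) (.e (nat_lit 57654) (nat_lit 152) (.e (nat_lit 7936) (nat_lit 90) .nil)))))) (.g (nat_lit 5) .nil .nil))) 
(.lf (nat_lit 207847) (.g (nat_lit 808) (.e (nat_lit 81935) (nat_lit 20) (.e (nat_lit 2383) (nat_lit 155) (.e (nat_lit 811011) (nat_lit 0) (.e (nat_lit 5779) (nat_lit 317) (.e (nat_lit 188160) (nat_lit 8) (.e (nat_lit 564992) (nat_lit 6) .nil)))))) (.g (nat_lit 4) .nil .nil)))) (.nd (nat_lit 5) 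
(.lf (nat_lit 207831) (.g (nat_lit 869) (.e (nat_lit 81935) (nat_lit 20) (.e (nat_lit 2375) (nat_lit 154) (.e (nat_lit 810752) (nat_lit 14) (.e (nat_lit 360452) (nat_lit 0) (.e (nat_lit 7145) (nat_lit 382) (.e (nat_lit 7936) (nat_lit 90) .nil)))))) (.g (nat_lit 4) .nil .nil))) 
(.lf (nat_lit 207863) (.g (nat_lit 957) (.e (nat_lit 81935) (nat_lit 20) (.e (nat_lit 2384) (nat_lit 155) (.e (nat_lit 811009) (nat_lit 0) (.e (nat_lit 5777) (nat_lit 317) (.e (nat_lit 180248) (nat_lit 9) (.e (nat_lit 573184) (nat_lit 6) .nil)))))) (.g (nat_lit 4) .nil .nil))))) (.nd (nat_lit 4) (.nd (nat_lit 5) 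
(.lf (nat_lit 207823) (.g (nat_lit 1174) (.e (nat_lit 81935) (nat_lit 20) (.e (nat_lit 2375) (nat_lit 154) (.e (nat_lit 810752) (nat_lit 14) (.e (nat_lit 360449) (nat_lit 0) (.e (nat_lit 7119) (nat_lit 382) (.e (nat_lit 7936) (nat_lit 90) .nil)))))) (.g (nat_lit 5) .nil .nil))) 
(.lf (nat_lit 207855) (.g (nat_lit 823) (.e (nat_lit 81935) (nat_lit 20) (.e (nat_lit 2383) (nat_lit 155) (.e (nat_lit 811012) (nat_lit 0) (.e (nat_lit 5776) (nat_lit 317) (.e (nat_lit 180248) (nat_lit 9) (.e (nat_lit 573184) (nat_lit 6) .nil)))))) (.g (nat_lit 5) .nil .nil)))) (.nd (nat_lit 5) 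
(.lf (nat_lit 207839) (.g (nat_lit 685) (.e (nat_lit 81935) (nat_lit 20) (.e (nat_lit 2383) (nat_lit 155) (.e (nat_lit 811010) (nat_lit 0) (.e (nat_lit 5773) (nat_lit 316) (.e (nat_lit 179968) (nat_lit 17) (.e (nat_lit 98048) (nat_lit 6) .nil)))))) (.g (nat_lit 4) .nil .nil))) 
(.lf (nat_lit 207871) (.g (nat_lit 1142) (.e (nat_lit 81935) (nat_lit 20) (.e (nat_lit 2384) (nat_lit 155) (.e (nat_lit 811011) (nat_lit 0) (.e (nat_lit 5779) (nat_lit 317) (.e (nat_lit 188160) (nat_lit 8) (.e (nat_lit 564992) (nat_lit 6) .nil)))))) (.g (nat_lit 4) .nil .nil)))))))))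


end

end Pool.Agent.Lib.MP_5854e1_co.Cz
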