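import Pool.Agent.Lib.MP_5854e1_co.DtD

/-!
# Windows and cells of the rings
-/

set_option autoImplicit false
set_option maxRecDepth 100000
set_option deprecated.oldSectionVars true

namespace Pool.Agent.Lib.MP_5854e1_co.Cz

open Pool.Agent.Lib.MP_5854e1_co

noncomputable section

noncomputable def tv2741 : DT := (.nd (nat_lit 0) (.nd (nat_lit 1) (.nd (nat_lit 2) (.nd (nat_lit 3) (.nd (nat_lit 4) (.nd (nat_lit 5) 
(.lf (nat_lit 207872) (.g (nat_lit 1250) (.e (nat_lit 81935) (nat_lit 20) (.e (nat_lit 2384) (nat_lit 155) (.e (nat_lit 811011) (nat_lit 0) (.e (nat_lit 5779) (nat_lit 317) (.e (nat_lit 180248) (nat_lit 9) (.e (nat_lit 573184) (nat_lit 6) .nil)))))) (.g (nat_lit 5) .nil .nil))) 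
(.lf (nat_lit 207904) (.g (nat_lit 1384) (.e (nat_lit 81938) (nat_lit 20) (.e (nat_lit 1842) (nat_lit 123) (.e (nat_lit 548891) (nat_lit 11) (.e (nat_lit 81959) (nat_lit 24) .nil)))) .nil))) (.nd (nat_lit 5) 
(.lf (nat_lit 207888) (.g (nat_lit 2430) (.e (nat_lit 81938) (nat_lit 20) (.e (nat_lit 1788) (nat_lit 119) (.e (nat_lit 516139) (nat_lit 7) (.e (nat_lit 409649) (nat_lit 18) (.e (nat_lit 303117) (nat_lit 2) .nil))))) .nil)) 
(.lf (nat_lit 207920) (.g (nat_lit 890) (.e (nat_lit 81938) (nat_lit 20) (.e (nat_lit 1886) (nat_lit 127) (.e (nat_lit 581652) (nat_lit 5) (.e (nat_lit 180291) (nat_lit 48) (.e (nat_lit 164108) (nat_lit 116) (.e (nat_lit 786176) (nat_lit 6) .nil)))))) (.g (nat_lit 5) .nil .nil))))) (.nd (nat_lit 4) (.nd (nat_lit 5) 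
(.lf (nat_lit 207880) (.g (nat_lit 931) (.e (nat_lit 81935) (nat_lit 20) (.e (nat_lit 2384) (nat_lit 155) (.e (nat_lit 811012) (nat_lit 0) (.e (nat_lit 5777) (nat_lit 317) (.e (nat_lit 188160) (nat_lit 8) (.e (nat_lit 564992) (nat_lit 6) .nil)))))) (.g (nat_lit 4) .nil .nil))) 
(.lf (nat_lit 207912) (.g (nat_lit 2245) (.e (nat_lit 81938) (nat_lit 20) (.e (nat_lit 1886) (nat_lit 127) (.e (nat_lit 581635) (nat_lit 0) (.e (nat_lit 3015) (nat_lit 187) (.e (nat_lit 450562) (nat_lit 0) (.e (nat_lit 6808) (nat_lit 365) (.e (nat_lit 7936) (nat_lit 90) .nil))))))) (.g (nat_lit 6) .nil .nil)))) (.nd (nat_lit 5) 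
(.lf (nat_lit 207896) (.g (nat_lit 1378) (.e (nat_lit 81938) (nat_lit 20) (.e (nat_lit 1842) (nat_lit 123) (.e (nat_lit 548889) (nat_lit 9) (.e (nat_lit 65543) (nat_lit 0) .nil)))) .nil)) 
(.lf (nat_lit 207928) (.g (nat_lit 2083) (.e (nat_lit 81938) (nat_lit 20) (.e (nat_lit 1960) (nat_lit 134) (.e (nat_lit 638998) (nat_lit 8) (.e (nat_lit 172120) (nat_lit 12) (.e (nat_lit 475155) (nat_lit 21) (.e (nat_lit 6320) (nat_lit 337) (.e (nat_lit 1221) (nat_lit 90) .nil))))))) (.g (nat_lit 4) .nil .nil)))))) (.nd (nat_lit 3) (.nd (nat_lit 4) (.nd (nat_lit 5) 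
(.lf (nat_lit 207876) (.g (nat_lit 986) (.e (nat_lit 81935) (nat_lit 20) (.e (nat_lit 2384) (nat_lit 155) (.e (nat_lit 811012) (nat_lit 0) (.e (nat_lit 5772) (nat_lit 316) (.e (nat_lit 179968) (nat_lit 17) (.e (nat_lit 98048) (nat_lit 6) .nil)))))) (.g (nat_lit 4) .nil .nil))) 
(.lf (nat_lit 207908) (.g (nat_lit 1410) (.e (nat_lit 81938) (nat_lit 20) (.e (nat_lit 1885) (nat_lit 127) (.e (nat_lit 581651) (nat_lit 4) (.e (nat_lit 172079) (nat_lit 7) (.e (nat_lit 409634) (nat_lit 13) (.e (nat_lit 48896) (nat_lit 6) .nil)))))) (.g (nat_lit 5) .nil .nil)))) (.nd (nat_lit 5) 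
(.lf (nat_lit 207892) (.g (nat_lit 1816) (.e (nat_lit 81938) (nat_lit 20) (.e (nat_lit 1841) (nat_lit 123) (.e (nat_lit 548889) (nat_lit 9) (.e (nat_lit 65583) (nat_lit 7) (.e (nat_lit 319519) (nat_lit 12) (.e (nat_lit 40704) (nat_lit 11) .nil)))))) (.g (nat_lit 5) .nil .nil))) 
(.lf (nat_lit 207924) (.g (nat_lit 2283) (.e (nat_lit 81938) (nat_lit 20) (.e (nat_lit 1960) (nat_lit 134) (.e (nat_lit 638998) (nat_lit 8) (.e (nat_lit 172120) (nat_lit 12) (.e (nat_lit 475155) (nat_lit 21) (.e (nat_lit 6264) (nat_lit 337) (.e (nat_lit 1220) (nat_lit 90) .nil))))))) (.g (nat_lit 4) .nil .nil))))) (.nd (nat_lit 4) (.nd (nat_lit 5) 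
(.lf (nat_lit 207884) (.g (nat_lit 1413) (.e (nat_lit 81938) (nat_lit 20) (.e (nat_lit 1023) (nat_lit 81) (.e (nat_lit 5905) (nat_lit 320) (.e (nat_lit 1221) (nat_lit 90) (.e (nat_lit 81950) (nat_lit 21) .nil))))) .nil)) 
(.lf (nat_lit 207916) (.g (nat_lit 1433) (.e (nat_lit 81938) (nat_lit 20) (.e (nat_lit 1886) (nat_lit 127) (.e (nat_lit 581651) (nat_lit 4) (.e (nat_lit 172079) (nat_lit 7) (.e (nat_lit 409634) (nat_lit 13) (.e (nat_lit 48896) (nat_lit 6) .nil)))))) (.g (nat_lit 5) .nil .nil)))) (.nd (nat_lit 5) 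
(.lf (nat_lit 207900) (.g (nat_lit 1116) (.e (nat_lit 81938) (nat_lit 20) (.e (nat_lit 1842) (nat_lit 123) (.e (nat_lit 548889) (nat_lit 9) (.e (nat_lit 65586) (nat_lit 7) .nil)))) .nil)) 
(.lf (nat_lit 207932) (.g (nat_lit 1940) (.e (nat_lit 81938) (nat_lit 20) (.e (nat_lit 1960) (nat_lit 134) (.e (nat_lit 638998) (nat_lit 8) (.e (nat_lit 172120) (nat_lit 12) (.e (nat_lit 475163) (nat_lit 21) .nil))))) .nil)))))) (.nd (nat_lit 2) (.nd (nat_lit 3) (.nd (nat_lit 4) (.nd (nat_lit 5) 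
(.lf (nat_lit 207874) (.g (nat_lit 1023) (.e (nat_lit 81935) (nat_lit 20) (.e (nat_lit 2384) (nat_lit 155) (.e (nat_lit 811012) (nat_lit 0) (.e (nat_lit 5768) (nat_lit 316) (.e (nat_lit 179968) (nat_lit 17) (.e (nat_lit 98048) (nat_lit 6) .nil)))))) (.g (nat_lit 4) .nil .nil))) 
(.lf (nat_lit 207906) (.g (nat_lit 2316) (.e (nat_lit 81938) (nat_lit 20) (.e (nat_lit 1885) (nat_lit 127) (.e (nat_lit 581636) (nat_lit 0) (.e (nat_lit 3015) (nat_lit 187) (.e (nat_lit 450562) (nat_lit 0) (.e (nat_lit 6808) (nat_lit 365) (.e (nat_lit 7936) (nat_lit 90) .nil))))))) (.g (nat_lit 6) .nil .nil)))) (.nd (nat_lit 5) 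
(.lf (nat_lit 207890) (.g (nat_lit 2300) (.e (nat_lit 81938) (nat_lit 20) (.e (nat_lit 1836) (nat_lit 123) (.e (nat_lit 548889) (nat_lit 9) (.e (nat_lit 65624) (nat_lit 12) .nil)))) .nil)) 
(.lf (nat_lit 207922) (.g (nat_lit 666) (.e (nat_lit 81938) (nat_lit 20) (.e (nat_lit 1886) (nat_lit 127) (.e (nat_lit 581653) (nat_lit 6) (.e (nat_lit 188438) (nat_lit 20) (.e (nat_lit 3577) (nat_lit 223) .nil))))) .nil)))) (.nd (nat_lit 4) (.nd (nat_lit 5) 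
(.lf (nat_lit 207882) (.g (nat_lit 1213) (.e (nat_lit 81935) (nat_lit 20) (.e (nat_lit 2384) (nat_lit 155) (.e (nat_lit 811012) (nat_lit 0) (.e (nat_lit 5779) (nat_lit 317) (.e (nat_lit 180248) (nat_lit 9) (.e (nat_lit 573184) (nat_lit 6) .nil)))))) (.g (nat_lit 5) .nil .nil))) 
(.lf (nat_lit 207914) (.g (nat_lit 2345) (.e (nat_lit 81938) (nat_lit 20) (.e (nat_lit 1886) (nat_lit 127) (.e (nat_lit 581636) (nat_lit 0) (.e (nat_lit 3015) (nat_lit 187) (.e (nat_lit 450562) (nat_lit 0) (.e (nat_lit 6808) (nat_lit 365) (.e (nat_lit 7936) (nat_lit 90) .nil))))))) (.g (nat_lit 6) .nil .nil)))) (.nd (nat_lit 5) 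
(.lf (nat_lit 207898) (.g (nat_lit 1474) (.e (nat_lit 81938) (nat_lit 20) (.e (nat_lit 1842) (nat_lit 123) (.e (nat_lit 548889) (nat_lit 9) (.e (nat_lit 65583) (nat_lit 7) (.e (nat_lit 319519) (nat_lit 12) .nil))))) .nil)) 
(.lf (nat_lit 207930) (.g (nat_lit 2020) (.e (nat_lit 81938) (nat_lit 20) (.e (nat_lit 1960) (nat_lit 134) (.e (nat_lit 638998) (nat_lit 8) (.e (nat_lit 172120) (nat_lit 12) (.e (nat_lit 475160) (nat_lit 21) (.e (nat_lit 6319) (nat_lit 337) (.e (nat_lit 1220) (nat_lit 90) .nil))))))) (.g (nat_lit 4) .nil .nil)))))) (.nd (nat_lit 3) (.nd (nat_lit 4) (.nd (nat_lit 5) 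
(.lf (nat_lit 207878) (.g (nat_lit 1017) (.e (nat_lit 81935) (nat_lit 20) (.e (nat_lit 2384) (nat_lit 155) (.e (nat_lit 811012) (nat_lit 0) (.e (nat_lit 5776) (nat_lit 317) (.e (nat_lit 188160) (nat_lit 8) (.e (nat_lit 564992) (nat_lit 6) .nil)))))) (.g (nat_lit 4) .nil .nil))) 
(.lf (nat_lit 207910) (.g (nat_lit 895) (.e (nat_lit 81938) (nat_lit 20) (.e (nat_lit 1885) (nat_lit 127) (.e (nat_lit 581651) (nat_lit 4) (.e (nat_lit 172081) (nat_lit 7) (.e (nat_lit 409634) (nat_lit 13) (.e (nat_lit 48896) (nat_lit 6) .nil)))))) (.g (nat_lit 4) .nil .nil)))) (.nd (nat_lit 5) 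
(.lf (nat_lit 207894) (.g (nat_lit 3932) (.e (nat_lit 81938) (nat_lit 20) (.e (nat_lit 1841) (nat_lit 123) (.e (nat_lit 548889) (nat_lit 9) (.e (nat_lit 65624) (nat_lit 12) (.e (nat_lit 385074) (nat_lit 31) (.e (nat_lit 573493) (nat_lit 15) .nil)))))) (.g (nat_lit 0) .nil .nil))) 
(.lf (nat_lit 207926) (.g (nat_lit 2077) (.e (nat_lit 81938) (nat_lit 20) (.e (nat_lit 1960) (nat_lit 134) (.e (nat_lit 638998) (nat_lit 8) (.e (nat_lit 172120) (nat_lit 12) (.e (nat_lit 475155) (nat_lit 21) (.e (nat_lit 6317) (nat_lit 337) (.e (nat_lit 1221) (nat_lit 90) .nil))))))) (.g (nat_lit 4) .nil .nil))))) (.nd (nat_lit 4) (.nd (nat_lit 5) 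
(.lf (nat_lit 207886) (.g (nat_lit 3652) (.e (nat_lit 81938) (nat_lit 20) (.e (nat_lit 1788) (nat_lit 119) (.e (nat_lit 516139) (nat_lit 7) (.e (nat_lit 409644) (nat_lit 18) (.e (nat_lit 303117) (nat_lit 2) (.e (nat_lit 196673) (nat_lit 15) .nil)))))) (.g (nat_lit 5) .nil .nil))) 
(.lf (nat_lit 207918) (.g (nat_lit 1170) (.e (nat_lit 81938) (nat_lit 20) (.e (nat_lit 1886) (nat_lit 127) (.e (nat_lit 581651) (nat_lit 4) (.e (nat_lit 172081) (nat_lit 7) (.e (nat_lit 409634) (nat_lit 13) (.e (nat_lit 48896) (nat_lit 6) .nil)))))) (.g (nat_lit 5) .nil .nil)))) (.nd (nat_lit 5) 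
(.lf (nat_lit 207902) (.g (nat_lit 458) (.e (nat_lit 81938) (nat_lit 20) (.e (nat_lit 1842) (nat_lit 123) (.e (nat_lit 548890) (nat_lit 10) .nil))) .nil)) 
(.lf (nat_lit 207934) (.g (nat_lit 2439) (.e (nat_lit 81938) (nat_lit 20) (.e (nat_lit 1960) (nat_lit 134) (.e (nat_lit 638998) (nat_lit 8) (.e (nat_lit 172120) (nat_lit 12) (.e (nat_lit 475194) (nat_lit 39) (.e (nat_lit 696363) (nat_lit 18) .nil)))))) (.g (nat_lit 4) .nil .nil)))))))) (.nd (nat_lit 1) (.nd (nat_lit 2) (.nd (nat_lit 3) (.nd (nat_lit 4) (.nd (nat_lit 5) 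
(.lf (nat_lit 207873) (.g (nat_lit 947) (.e (nat_lit 81935) (nat_lit 20) (.e (nat_lit 2384) (nat_lit 155) (.e (nat_lit 811011) (nat_lit 0) (.e (nat_lit 5780) (nat_lit 317) (.e (nat_lit 188160) (nat_lit 8) (.e (nat_lit 564992) (nat_lit 6) .nil)))))) (.g (nat_lit 4) .nil .nil))) 
(.lf (nat_lit 207905) (.g (nat_lit 1955) (.e (nat_lit 81938) (nat_lit 20) (.e (nat_lit 1842) (nat_lit 123) (.e (nat_lit 548891) (nat_lit 11) (.e (nat_lit 81959) (nat_lit 24) (.e (nat_lit 130816) (nat_lit 140) .nil))))) .nil))) (.nd (nat_lit 5) 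
(.lf (nat_lit 207889) (.g (nat_lit 1004) (.e (nat_lit 81938) (nat_lit 20) (.e (nat_lit 1799) (nat_lit 119) (.e (nat_lit 516184) (nat_lit 16) (.e (nat_lit 491563) (nat_lit 12) .nil)))) .nil)) 
(.lf (nat_lit 207921) (.g (nat_lit 1513) (.e (nat_lit 81938) (nat_lit 20) (.e (nat_lit 1886) (nat_lit 127) (.e (nat_lit 581653) (nat_lit 6) (.e (nat_lit 188434) (nat_lit 20) (.e (nat_lit 3577) (nat_lit 223) (.e (nat_lit 745493) (nat_lit 6) .nil)))))) (.g (nat_lit 4) .nil .nil))))) (.nd (nat_lit 4) (.nd (nat_lit 5) 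
(.lf (nat_lit 207881) (.g (nat_lit 1098) (.e (nat_lit 81935) (nat_lit 20) (.e (nat_lit 2384) (nat_lit 155) (.e (nat_lit 811012) (nat_lit 0) (.e (nat_lit 5779) (nat_lit 317) (.e (nat_lit 188160) (nat_lit 8) (.e (nat_lit 564992) (nat_lit 6) .nil)))))) (.g (nat_lit 4) .nil .nil))) 
(.lf (nat_lit 207913) (.g (nat_lit 2052) (.e (nat_lit 81938) (nat_lit 20) (.e (nat_lit 1886) (nat_lit 127) (.e (nat_lit 581635) (nat_lit 0) (.e (nat_lit 3015) (nat_lit 187) (.e (nat_lit 450563) (nat_lit 0) (.e (nat_lit 6808) (nat_lit 365) (.e (nat_lit 7936) (nat_lit 90) .nil))))))) (.g (nat_lit 5) .nil .nil)))) (.nd (nat_lit 5) 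
(.lf (nat_lit 207897) (.g (nat_lit 1901) (.e (nat_lit 81938) (nat_lit 20) (.e (nat_lit 1842) (nat_lit 123) (.e (nat_lit 548889) (nat_lit 9) (.e (nat_lit 65545) (nat_lit 0) (.e (nat_lit 6684) (nat_lit 357) .nil))))) .nil)) 
(.lf (nat_lit 207929) (.g (nat_lit 2157) (.e (nat_lit 81938) (nat_lit 20) (.e (nat_lit 1960) (nat_lit 134) (.e (nat_lit 638998) (nat_lit 8) (.e (nat_lit 172120) (nat_lit 12) (.e (nat_lit 475155) (nat_lit 21) (.e (nat_lit 6322) (nat_lit 337) (.e (nat_lit 1221) (nat_lit 90) .nil))))))) (.g (nat_lit 4) .nil .nil)))))) (.nd (nat_lit 3) (.nd (nat_lit 4) (.nd (nat_lit 5) 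
(.lf (nat_lit 207877) (.g (nat_lit 948) (.e (nat_lit 81935) (nat_lit 20) (.e (nat_lit 2384) (nat_lit 155) (.e (nat_lit 811012) (nat_lit 0) (.e (nat_lit 5773) (nat_lit 316) (.e (nat_lit 179968) (nat_lit 17) (.e (nat_lit 98048) (nat_lit 6) .nil)))))) (.g (nat_lit 4) .nil .nil))) 
(.lf (nat_lit 207909) (.g (nat_lit 1112) (.e (nat_lit 81938) (nat_lit 20) (.e (nat_lit 1885) (nat_lit 127) (.e (nat_lit 581651) (nat_lit 4) (.e (nat_lit 172080) (nat_lit 7) (.e (nat_lit 409634) (nat_lit 13) (.e (nat_lit 48896) (nat_lit 6) .nil)))))) (.g (nat_lit 4) .nil .nil)))) (.nd (nat_lit 5) 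
(.lf (nat_lit 207893) (.g (nat_lit 1894) (.e (nat_lit 81938) (nat_lit 20) (.e (nat_lit 1841) (nat_lit 123) (.e (nat_lit 548889) (nat_lit 9) (.e (nat_lit 65586) (nat_lit 7) (.e (nat_lit 319519) (nat_lit 12) (.e (nat_lit 40704) (nat_lit 11) .nil)))))) (.g (nat_lit 5) .nil .nil))) 
(.lf (nat_lit 207925) (.g (nat_lit 2067) (.e (nat_lit 81938) (nat_lit 20) (.e (nat_lit 1960) (nat_lit 134) (.e (nat_lit 638998) (nat_lit 8) (.e (nat_lit 172120) (nat_lit 12) (.e (nat_lit 475155) (nat_lit 21) (.e (nat_lit 6308) (nat_lit 337) (.e (nat_lit 1220) (nat_lit 90) .nil))))))) (.g (nat_lit 4) .nil .nil))))) (.nd (nat_lit 4) (.nd (nat_lit 5) 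
(.lf (nat_lit 207885) (.g (nat_lit 2051) (.e (nat_lit 81938) (nat_lit 20) (.e (nat_lit 1788) (nat_lit 119) (.e (nat_lit 516139) (nat_lit 7) (.e (nat_lit 409623) (nat_lit 10) (.e (nat_lit 5664) (nat_lit 312) .nil))))) .nil)) 
(.lf (nat_lit 207917) (.g (nat_lit 1301) (.e (nat_lit 81938) (nat_lit 20) (.e (nat_lit 1886) (nat_lit 127) (.e (nat_lit 581651) (nat_lit 4) (.e (nat_lit 172080) (nat_lit 7) (.e (nat_lit 409634) (nat_lit 13) (.e (nat_lit 48896) (nat_lit 6) .nil)))))) (.g (nat_lit 5) .nil .nil)))) (.nd (nat_lit 5) 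
(.lf (nat_lit 207901) (.g (nat_lit 2419) (.e (nat_lit 81938) (nat_lit 20) (.e (nat_lit 1842) (nat_lit 123) (.e (nat_lit 548889) (nat_lit 9) (.e (nat_lit 65586) (nat_lit 7) (.e (nat_lit 319519) (nat_lit 12) (.e (nat_lit 40704) (nat_lit 11) .nil)))))) (.g (nat_lit 5) .nil .nil))) 
(.lf (nat_lit 207933) (.g (nat_lit 2109) (.e (nat_lit 81938) (nat_lit 20) (.e (nat_lit 1960) (nat_lit 134) (.e (nat_lit 638998) (nat_lit 8) (.e (nat_lit 172120) (nat_lit 12) (.e (nat_lit 475163) (nat_lit 21) (.e (nat_lit 6264) (nat_lit 337) (.e (nat_lit 1220) (nat_lit 90) .nil))))))) (.g (nat_lit 4) .nil .nil))))))) (.nd (nat_lit 2) (.nd (nat_lit 3) (.nd (nat_lit 4) (.nd (nat_lit 5) 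
(.lf (nat_lit 207875) (.g (nat_lit 898) (.e (nat_lit 81935) (nat_lit 20) (.e (nat_lit 2384) (nat_lit 155) (.e (nat_lit 811012) (nat_lit 0) (.e (nat_lit 5770) (nat_lit 316) (.e (nat_lit 179968) (nat_lit 17) (.e (nat_lit 98048) (nat_lit 6) .nil)))))) (.g (nat_lit 4) .nil .nil))) 
(.lf (nat_lit 207907) (.g (nat_lit 2241) (.e (nat_lit 81938) (nat_lit 20) (.e (nat_lit 1885) (nat_lit 127) (.e (nat_lit 581636) (nat_lit 0) (.e (nat_lit 3015) (nat_lit 187) (.e (nat_lit 450563) (nat_lit 0) (.e (nat_lit 6808) (nat_lit 365) (.e (nat_lit 7936) (nat_lit 90) .nil))))))) (.g (nat_lit 6) .nil .nil)))) (.nd (nat_lit 5) 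
(.lf (nat_lit 207891) (.g (nat_lit 1710) (.e (nat_lit 81938) (nat_lit 20) (.e (nat_lit 1840) (nat_lit 123) (.e (nat_lit 548889) (nat_lit 9) (.e (nat_lit 65619) (nat_lit 10) (.e (nat_lit 344126) (nat_lit 25) .nil))))) .nil)) 
(.lf (nat_lit 207923) (.g (nat_lit 1355) (.e (nat_lit 81938) (nat_lit 20) (.e (nat_lit 1886) (nat_lit 127) (.e (nat_lit 581653) (nat_lit 6) (.e (nat_lit 188453) (nat_lit 24) (.e (nat_lit 237312) (nat_lit 158) .nil))))) .nil)))) (.nd (nat_lit 4) (.nd (nat_lit 5) 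
(.lf (nat_lit 207883) (.g (nat_lit 901) (.e (nat_lit 81935) (nat_lit 20) (.e (nat_lit 2384) (nat_lit 155) (.e (nat_lit 811012) (nat_lit 0) (.e (nat_lit 5780) (nat_lit 317) (.e (nat_lit 188160) (nat_lit 8) (.e (nat_lit 564992) (nat_lit 6) .nil)))))) (.g (nat_lit 4) .nil .nil))) 
(.lf (nat_lit 207915) (.g (nat_lit 2269) (.e (nat_lit 81938) (nat_lit 20) (.e (nat_lit 1886) (nat_lit 127) (.e (nat_lit 581636) (nat_lit 0) (.e (nat_lit 3015) (nat_lit 187) (.e (nat_lit 450563) (nat_lit 0) (.e (nat_lit 6808) (nat_lit 365) (.e (nat_lit 7936) (nat_lit 90) .nil))))))) (.g (nat_lit 6) .nil .nil)))) (.nd (nat_lit 5) 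
(.lf (nat_lit 207899) (.g (nat_lit 2524) (.e (nat_lit 81938) (nat_lit 20) (.e (nat_lit 1842) (nat_lit 123) (.e (nat_lit 548889) (nat_lit 9) (.e (nat_lit 65583) (nat_lit 7) (.e (nat_lit 319519) (nat_lit 12) (.e (nat_lit 40704) (nat_lit 11) .nil)))))) (.g (nat_lit 5) .nil .nil))) 
(.lf (nat_lit 207931) (.g (nat_lit 1921) (.e (nat_lit 81938) (nat_lit 20) (.e (nat_lit 1960) (nat_lit 134) (.e (nat_lit 638998) (nat_lit 8) (.e (nat_lit 172120) (nat_lit 12) (.e (nat_lit 475161) (nat_lit 21) .nil))))) .nil))))) (.nd (nat_lit 3) (.nd (nat_lit 4) (.nd (nat_lit 5) 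
(.lf (nat_lit 207879) (.g (nat_lit 1156) (.e (nat_lit 81935) (nat_lit 20) (.e (nat_lit 2384) (nat_lit 155) (.e (nat_lit 811012) (nat_lit 0) (.e (nat_lit 5776) (nat_lit 317) (.e (nat_lit 180248) (nat_lit 9) (.e (nat_lit 573184) (nat_lit 6) .nil)))))) (.g (nat_lit 5) .nil .nil))) 
(.lf (nat_lit 207911) (.g (nat_lit 1030) (.e (nat_lit 81938) (nat_lit 20) (.e (nat_lit 1885) (nat_lit 127) (.e (nat_lit 581653) (nat_lit 6) (.e (nat_lit 188439) (nat_lit 20) (.e (nat_lit 3578) (nat_lit 223) .nil))))) .nil))) (.nd (nat_lit 5) 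
(.lf (nat_lit 207895) (.g (nat_lit 1679) (.e (nat_lit 81938) (nat_lit 20) (.e (nat_lit 1841) (nat_lit 123) (.e (nat_lit 548891) (nat_lit 11) (.e (nat_lit 81959) (nat_lit 24) (.e (nat_lit 130816) (nat_lit 140) .nil))))) .nil)) 
(.lf (nat_lit 207927) (.g (nat_lit 2441) (.e (nat_lit 81938) (nat_lit 20) (.e (nat_lit 1960) (nat_lit 134) (.e (nat_lit 638998) (nat_lit 8) (.e (nat_lit 172120) (nat_lit 12) (.e (nat_lit 475155) (nat_lit 21) (.e (nat_lit 6319) (nat_lit 337) (.e (nat_lit 1220) (nat_lit 90) .nil))))))) (.g (nat_lit 4) .nil .nil))))) (.nd (nat_lit 4) (.nd (nat_lit 5) 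
(.lf (nat_lit 207887) (.g (nat_lit 4458) (.e (nat_lit 81938) (nat_lit 20) (.e (nat_lit 1788) (nat_lit 119) (.e (nat_lit 516139) (nat_lit 7) (.e (nat_lit 409645) (nat_lit 18) (.e (nat_lit 303117) (nat_lit 2) (.e (nat_lit 196673) (nat_lit 15) .nil)))))) (.g (nat_lit 5) .nil .nil))) 
(.lf (nat_lit 207919) (.g (nat_lit 1526) (.e (nat_lit 81938) (nat_lit 20) (.e (nat_lit 1886) (nat_lit 127) (.e (nat_lit 581651) (nat_lit 4) (.e (nat_lit 172082) (nat_lit 7) (.e (nat_lit 409634) (nat_lit 13) (.e (nat_lit 48896) (nat_lit 6) .nil)))))) (.g (nat_lit 5) .nil .nil)))) (.nd (nat_lit 5) 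
(.lf (nat_lit 207903) (.g (nat_lit 3110) (.e (nat_lit 81938) (nat_lit 20) (.e (nat_lit 1842) (nat_lit 123) (.e (nat_lit 548891) (nat_lit 11) (.e (nat_lit 81938) (nat_lit 20) (.e (nat_lit 1842) (nat_lit 123) (.e (nat_lit 548891) (nat_lit 11) .nil)))))) (.g (nat_lit 0) .nil .nil))) 
(.lf (nat_lit 207935) (.g (nat_lit 2092) (.e (nat_lit 81938) (nat_lit 20) (.e (nat_lit 1962) (nat_lit 134) (.e (nat_lit 638982) (nat_lit 5) (.e (nat_lit 3044) (nat_lit 189) (.e (nat_lit 466972) (nat_lit 21) (.e (nat_lit 164305) (nat_lit 226) (.e (nat_lit 7936) (nat_lit 90) .nil))))))) (.g (nat_lit 6) .nil .nil)))))))))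

noncomputable def tv2742 : DT := (.nd (nat_lit 0) (.nd (nat_lit 1) (.nd (nat_lit 2) (.nd (nat_lit 3) (.nd (nat_lit 4) (.nd (nat_lit 5) 
(.lf (nat_lit 207936) (.g (nat_lit 1927) (.e (nat_lit 81938) (nat_lit 20) (.e (nat_lit 1962) (nat_lit 134) (.e (nat_lit 638982) (nat_lit 5) (.e (nat_lit 3044) (nat_lit 189) (.e (nat_lit 466972) (nat_lit 21) (.e (nat_lit 164307) (nat_lit 226) (.e (nat_lit 7936) (nat_lit 90) .nil))))))) (.g (nat_lit 6) .nil .nil))) 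
(.lf (nat_lit 207968) (.g (nat_lit 2669) (.e (nat_lit 81938) (nat_lit 20) (.e (nat_lit 1962) (nat_lit 134) (.e (nat_lit 638998) (nat_lit 8) (.e (nat_lit 172120) (nat_lit 12) (.e (nat_lit 475163) (nat_lit 21) (.e (nat_lit 6322) (nat_lit 337) (.e (nat_lit 1221) (nat_lit 90) .nil))))))) (.g (nat_lit 4) .nil .nil)))) (.nd (nat_lit 5) 
(.lf (nat_lit 207952) (.g (nat_lit 2621) (.e (nat_lit 81938) (nat_lit 20) (.e (nat_lit 1962) (nat_lit 134) (.e (nat_lit 638998) (nat_lit 8) (.e (nat_lit 172120) (nat_lit 12) (.e (nat_lit 475155) (nat_lit 21) (.e (nat_lit 6307) (nat_lit 337) (.e (nat_lit 1220) (nat_lit 90) .nil))))))) (.g (nat_lit 4) .nil .nil))) 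
(.lf (nat_lit 207984) (.g (nat_lit 2210) (.e (nat_lit 81938) (nat_lit 20) (.e (nat_lit 1963) (nat_lit 134) (.e (nat_lit 638986) (nat_lit 5) (.e (nat_lit 3015) (nat_lit 187) (.e (nat_lit 450562) (nat_lit 0) (.e (nat_lit 5170) (nat_lit 292) (.e (nat_lit 7936) (nat_lit 90) .nil))))))) (.g (nat_lit 6) .nil .nil))))) (.nd (nat_lit 4) (.nd (nat_lit 5) 
(.lf (nat_lit 207944) (.g (nat_lit 1853) (.e (nat_lit 81938) (nat_lit 20) (.e (nat_lit 1962) (nat_lit 134) (.e (nat_lit 638985) (nat_lit 5) (.e (nat_lit 3027) (nat_lit 187) (.e (nat_lit 450564) (nat_lit 0) (.e (nat_lit 5069) (nat_lit 292) (.e (nat_lit 7936) (nat_lit 90) .nil))))))) (.g (nat_lit 6) .nil .nil))) 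
(.lf (nat_lit 207976) (.g (nat_lit 2448) (.e (nat_lit 81938) (nat_lit 20) (.e (nat_lit 1962) (nat_lit 134) (.e (nat_lit 639003) (nat_lit 12) (.e (nat_lit 237612) (nat_lit 9) (.e (nat_lit 426100) (nat_lit 1) (.e (nat_lit 164305) (nat_lit 226) (.e (nat_lit 7936) (nat_lit 90) .nil))))))) (.g (nat_lit 6) .nil .nil)))) (.nd (nat_lit 5) 
(.lf (nat_lit 207960) (.g (nat_lit 2254) (.e (nat_lit 81938) (nat_lit 20) (.e (nat_lit 1962) (nat_lit 134) (.e (nat_lit 638998) (nat_lit 8) (.e (nat_lit 172120) (nat_lit 12) (.e (nat_lit 475160) (nat_lit 21) (.e (nat_lit 6308) (nat_lit 337) (.e (nat_lit 1220) (nat_lit 90) .nil))))))) (.g (nat_lit 4) .nil .nil))) 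
(.lf (nat_lit 207992) (.g (nat_lit 1719) (.e (nat_lit 81938) (nat_lit 20) (.e (nat_lit 1963) (nat_lit 134) (.e (nat_lit 638999) (nat_lit 8) (.e (nat_lit 172097) (nat_lit 9) (.e (nat_lit 426109) (nat_lit 1) (.e (nat_lit 164297) (nat_lit 226) (.e (nat_lit 7936) (nat_lit 90) .nil))))))) (.g (nat_lit 5) .nil .nil)))))) (.nd (nat_lit 3) (.nd (nat_lit 4) (.nd (nat_lit 5) 
(.lf (nat_lit 207940) (.g (nat_lit 2222) (.e (nat_lit 81938) (nat_lit 20) (.e (nat_lit 1962) (nat_lit 134) (.e (nat_lit 638985) (nat_lit 5) (.e (nat_lit 3015) (nat_lit 187) (.e (nat_lit 450562) (nat_lit 0) (.e (nat_lit 5170) (nat_lit 292) (.e (nat_lit 7936) (nat_lit 90) .nil))))))) (.g (nat_lit 5) .nil .nil))) 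
(.lf (nat_lit 207972) (.g (nat_lit 1851) (.e (nat_lit 81938) (nat_lit 20) (.e (nat_lit 1962) (nat_lit 134) (.e (nat_lit 638999) (nat_lit 8) (.e (nat_lit 172097) (nat_lit 9) (.e (nat_lit 426109) (nat_lit 1) (.e (nat_lit 164309) (nat_lit 226) (.e (nat_lit 7936) (nat_lit 90) .nil))))))) (.g (nat_lit 5) .nil .nil)))) (.nd (nat_lit 5) 
(.lf (nat_lit 207956) (.g (nat_lit 2391) (.e (nat_lit 81938) (nat_lit 20) (.e (nat_lit 1962) (nat_lit 134) (.e (nat_lit 638998) (nat_lit 8) (.e (nat_lit 172120) (nat_lit 12) (.e (nat_lit 475155) (nat_lit 21) (.e (nat_lit 6321) (nat_lit 337) (.e (nat_lit 1221) (nat_lit 90) .nil))))))) (.g (nat_lit 4) .nil .nil))) 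
(.lf (nat_lit 207988) (.g (nat_lit 1831) (.e (nat_lit 81938) (nat_lit 20) (.e (nat_lit 1963) (nat_lit 134) (.e (nat_lit 638986) (nat_lit 5) (.e (nat_lit 3027) (nat_lit 187) (.e (nat_lit 450564) (nat_lit 0) (.e (nat_lit 5069) (nat_lit 292) (.e (nat_lit 7936) (nat_lit 90) .nil))))))) (.g (nat_lit 6) .nil .nil))))) (.nd (nat_lit 4) (.nd (nat_lit 5) 
(.lf (nat_lit 207948) (.g (nat_lit 1374) (.e (nat_lit 81938) (nat_lit 20) (.e (nat_lit 1962) (nat_lit 134) (.e (nat_lit 638998) (nat_lit 8) (.e (nat_lit 172115) (nat_lit 10) (.e (nat_lit 434209) (nat_lit 18) .nil))))) .nil)) 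
(.lf (nat_lit 207980) (.g (nat_lit 1163) (.e (nat_lit 81938) (nat_lit 20) (.e (nat_lit 1963) (nat_lit 134) (.e (nat_lit 638986) (nat_lit 5) (.e (nat_lit 3015) (nat_lit 187) (.e (nat_lit 450560) (nat_lit 0) (.e (nat_lit 5062) (nat_lit 292) (.e (nat_lit 1218) (nat_lit 90) .nil))))))) (.g (nat_lit 4) .nil .nil)))) (.nd (nat_lit 5) 
(.lf (nat_lit 207964) (.g (nat_lit 2349) (.e (nat_lit 81938) (nat_lit 20) (.e (nat_lit 1962) (nat_lit 134) (.e (nat_lit 638998) (nat_lit 8) (.e (nat_lit 172120) (nat_lit 12) (.e (nat_lit 475162) (nat_lit 21) (.e (nat_lit 6308) (nat_lit 337) (.e (nat_lit 1220) (nat_lit 90) .nil))))))) (.g (nat_lit 4) .nil .nil))) 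
(.lf (nat_lit 207996) (.g (nat_lit 1974) (.e (nat_lit 81938) (nat_lit 20) (.e (nat_lit 1963) (nat_lit 134) (.e (nat_lit 638999) (nat_lit 8) (.e (nat_lit 172115) (nat_lit 10) (.e (nat_lit 434209) (nat_lit 18) (.e (nat_lit 5089) (nat_lit 292) (.e (nat_lit 1218) (nat_lit 90) .nil))))))) (.g (nat_lit 5) .nil .nil))))))) (.nd (nat_lit 2) (.nd (nat_lit 3) (.nd (nat_lit 4) (.nd (nat_lit 5) 
(.lf (nat_lit 207938) (.g (nat_lit 1081) (.e (nat_lit 81938) (nat_lit 20) (.e (nat_lit 1962) (nat_lit 134) (.e (nat_lit 638985) (nat_lit 5) (.e (nat_lit 3015) (nat_lit 187) (.e (nat_lit 450560) (nat_lit 0) (.e (nat_lit 5096) (nat_lit 292) (.e (nat_lit 1218) (nat_lit 90) .nil))))))) (.g (nat_lit 4) .nil .nil))) 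
(.lf (nat_lit 207970) (.g (nat_lit 1692) (.e (nat_lit 81938) (nat_lit 20) (.e (nat_lit 1962) (nat_lit 134) (.e (nat_lit 638999) (nat_lit 8) (.e (nat_lit 172097) (nat_lit 9) (.e (nat_lit 426109) (nat_lit 1) (.e (nat_lit 164297) (nat_lit 226) (.e (nat_lit 7936) (nat_lit 90) .nil))))))) (.g (nat_lit 5) .nil .nil)))) (.nd (nat_lit 5) 
(.lf (nat_lit 207954) (.g (nat_lit 2516) (.e (nat_lit 81938) (nat_lit 20) (.e (nat_lit 1962) (nat_lit 134) (.e (nat_lit 638998) (nat_lit 8) (.e (nat_lit 172120) (nat_lit 12) (.e (nat_lit 475155) (nat_lit 21) (.e (nat_lit 6317) (nat_lit 337) (.e (nat_lit 1221) (nat_lit 90) .nil))))))) (.g (nat_lit 4) .nil .nil))) 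
(.lf (nat_lit 207986) (.g (nat_lit 1475) (.e (nat_lit 81938) (nat_lit 20) (.e (nat_lit 1963) (nat_lit 134) (.e (nat_lit 638986) (nat_lit 5) (.e (nat_lit 3016) (nat_lit 187) (.e (nat_lit 450565) (nat_lit 0) (.e (nat_lit 5069) (nat_lit 292) (.e (nat_lit 7936) (nat_lit 90) .nil))))))) (.g (nat_lit 5) .nil .nil))))) (.nd (nat_lit 4) (.nd (nat_lit 5) 
(.lf (nat_lit 207946) (.g (nat_lit 1748) (.e (nat_lit 81938) (nat_lit 20) (.e (nat_lit 1962) (nat_lit 134) (.e (nat_lit 638985) (nat_lit 5) (.e (nat_lit 3027) (nat_lit 187) (.e (nat_lit 450564) (nat_lit 0) (.e (nat_lit 5095) (nat_lit 292) (.e (nat_lit 1218) (nat_lit 90) .nil))))))) (.g (nat_lit 5) .nil .nil))) 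
(.lf (nat_lit 207978) (.g (nat_lit 1502) (.e (nat_lit 81938) (nat_lit 20) (.e (nat_lit 1963) (nat_lit 134) (.e (nat_lit 638982) (nat_lit 5) (.e (nat_lit 3044) (nat_lit 189) (.e (nat_lit 466972) (nat_lit 21) (.e (nat_lit 164307) (nat_lit 226) (.e (nat_lit 7936) (nat_lit 90) .nil))))))) (.g (nat_lit 5) .nil .nil)))) (.nd (nat_lit 5) 
(.lf (nat_lit 207962) (.g (nat_lit 2440) (.e (nat_lit 81938) (nat_lit 20) (.e (nat_lit 1962) (nat_lit 134) (.e (nat_lit 638998) (nat_lit 8) (.e (nat_lit 172120) (nat_lit 12) (.e (nat_lit 475161) (nat_lit 21) (.e (nat_lit 6319) (nat_lit 337) (.e (nat_lit 1220) (nat_lit 90) .nil))))))) (.g (nat_lit 4) .nil .nil))) 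
(.lf (nat_lit 207994) (.g (nat_lit 1878) (.e (nat_lit 81938) (nat_lit 20) (.e (nat_lit 1963) (nat_lit 134) (.e (nat_lit 638999) (nat_lit 8) (.e (nat_lit 172097) (nat_lit 9) (.e (nat_lit 426109) (nat_lit 1) (.e (nat_lit 164309) (nat_lit 226) (.e (nat_lit 7936) (nat_lit 90) .nil))))))) (.g (nat_lit 6) .nil .nil)))))) (.nd (nat_lit 3) (.nd (nat_lit 4) (.nd (nat_lit 5) 
(.lf (nat_lit 207942) (.g (nat_lit 1352) (.e (nat_lit 81938) (nat_lit 20) (.e (nat_lit 1962) (nat_lit 134) (.e (nat_lit 638985) (nat_lit 5) (.e (nat_lit 3016) (nat_lit 187) (.e (nat_lit 450565) (nat_lit 0) (.e (nat_lit 5069) (nat_lit 292) (.e (nat_lit 7936) (nat_lit 90) .nil))))))) (.g (nat_lit 5) .nil .nil))) 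
(.lf (nat_lit 207974) (.g (nat_lit 1979) (.e (nat_lit 81938) (nat_lit 20) (.e (nat_lit 1962) (nat_lit 134) (.e (nat_lit 638999) (nat_lit 8) (.e (nat_lit 172115) (nat_lit 10) (.e (nat_lit 434209) (nat_lit 18) (.e (nat_lit 5089) (nat_lit 292) (.e (nat_lit 1218) (nat_lit 90) .nil))))))) (.g (nat_lit 5) .nil .nil)))) (.nd (nat_lit 5) 
(.lf (nat_lit 207958) (.g (nat_lit 2220) (.e (nat_lit 81938) (nat_lit 20) (.e (nat_lit 1962) (nat_lit 134) (.e (nat_lit 638998) (nat_lit 8) (.e (nat_lit 172120) (nat_lit 12) (.e (nat_lit 475160) (nat_lit 21) .nil))))) .nil)) 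
(.lf (nat_lit 207990) (.g (nat_lit 1726) (.e (nat_lit 81938) (nat_lit 20) (.e (nat_lit 1963) (nat_lit 134) (.e (nat_lit 638986) (nat_lit 5) (.e (nat_lit 3027) (nat_lit 187) (.e (nat_lit 450564) (nat_lit 0) (.e (nat_lit 5095) (nat_lit 292) (.e (nat_lit 1218) (nat_lit 90) .nil))))))) (.g (nat_lit 5) .nil .nil))))) (.nd (nat_lit 4) (.nd (nat_lit 5) 
(.lf (nat_lit 207950) (.g (nat_lit 2534) (.e (nat_lit 81938) (nat_lit 20) (.e (nat_lit 1962) (nat_lit 134) (.e (nat_lit 638998) (nat_lit 8) (.e (nat_lit 172120) (nat_lit 12) (.e (nat_lit 475155) (nat_lit 21) (.e (nat_lit 6297) (nat_lit 337) (.e (nat_lit 1220) (nat_lit 90) .nil))))))) (.g (nat_lit 4) .nil .nil))) 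
(.lf (nat_lit 207982) (.g (nat_lit 1163) (.e (nat_lit 81938) (nat_lit 20) (.e (nat_lit 1963) (nat_lit 134) (.e (nat_lit 638986) (nat_lit 5) (.e (nat_lit 3015) (nat_lit 187) (.e (nat_lit 450560) (nat_lit 0) (.e (nat_lit 5096) (nat_lit 292) (.e (nat_lit 1218) (nat_lit 90) .nil))))))) (.g (nat_lit 4) .nil .nil)))) (.nd (nat_lit 5) 
(.lf (nat_lit 207966) (.g (nat_lit 2647) (.e (nat_lit 81938) (nat_lit 20) (.e (nat_lit 1962) (nat_lit 134) (.e (nat_lit 638998) (nat_lit 8) (.e (nat_lit 172120) (nat_lit 12) (.e (nat_lit 475163) (nat_lit 21) (.e (nat_lit 6308) (nat_lit 337) (.e (nat_lit 1220) (nat_lit 90) .nil))))))) (.g (nat_lit 4) .nil .nil))) 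
(.lf (nat_lit 207998) (.g (nat_lit 1774) (.e (nat_lit 81938) (nat_lit 20) (.e (nat_lit 1963) (nat_lit 134) (.e (nat_lit 639001) (nat_lit 10) (.e (nat_lit 188445) (nat_lit 21) (.e (nat_lit 164305) (nat_lit 226) (.e (nat_lit 7936) (nat_lit 90) .nil)))))) (.g (nat_lit 5) .nil .nil)))))))) (.nd (nat_lit 1) (.nd (nat_lit 2) (.nd (nat_lit 3) (.nd (nat_lit 4) (.nd (nat_lit 5) 
(.lf (nat_lit 207937) (.g (nat_lit 1081) (.e (nat_lit 81938) (nat_lit 20) (.e (nat_lit 1962) (nat_lit 134) (.e (nat_lit 638985) (nat_lit 5) (.e (nat_lit 3015) (nat_lit 187) (.e (nat_lit 450560) (nat_lit 0) (.e (nat_lit 5062) (nat_lit 292) (.e (nat_lit 1218) (nat_lit 90) .nil))))))) (.g (nat_lit 4) .nil .nil))) 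
(.lf (nat_lit 207969) (.g (nat_lit 3342) (.e (nat_lit 81938) (nat_lit 20) (.e (nat_lit 1962) (nat_lit 134) (.e (nat_lit 638998) (nat_lit 8) (.e (nat_lit 172120) (nat_lit 12) (.e (nat_lit 475193) (nat_lit 38) (.e (nat_lit 688185) (nat_lit 18) .nil)))))) (.g (nat_lit 6) .nil .nil)))) (.nd (nat_lit 5) 
(.lf (nat_lit 207953) (.g (nat_lit 2329) (.e (nat_lit 81938) (nat_lit 20) (.e (nat_lit 1962) (nat_lit 134) (.e (nat_lit 638998) (nat_lit 8) (.e (nat_lit 172120) (nat_lit 12) (.e (nat_lit 475155) (nat_lit 21) (.e (nat_lit 6307) (nat_lit 337) (.e (nat_lit 1221) (nat_lit 90) .nil))))))) (.g (nat_lit 4) .nil .nil))) 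
(.lf (nat_lit 207985) (.g (nat_lit 1997) (.e (nat_lit 81938) (nat_lit 20) (.e (nat_lit 1963) (nat_lit 134) (.e (nat_lit 638986) (nat_lit 5) (.e (nat_lit 3015) (nat_lit 187) (.e (nat_lit 450563) (nat_lit 0) (.e (nat_lit 5172) (nat_lit 292) (.e (nat_lit 7936) (nat_lit 90) .nil))))))) (.g (nat_lit 5) .nil .nil))))) (.nd (nat_lit 4) (.nd (nat_lit 5) 
(.lf (nat_lit 207945) (.g (nat_lit 1407) (.e (nat_lit 81938) (nat_lit 20) (.e (nat_lit 1962) (nat_lit 134) (.e (nat_lit 638985) (nat_lit 5) (.e (nat_lit 3027) (nat_lit 187) (.e (nat_lit 450564) (nat_lit 0) (.e (nat_lit 5079) (nat_lit 292) (.e (nat_lit 1218) (nat_lit 90) .nil))))))) (.g (nat_lit 5) .nil .nil))) 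
(.lf (nat_lit 207977) (.g (nat_lit 2115) (.e (nat_lit 81938) (nat_lit 20) (.e (nat_lit 1962) (nat_lit 134) (.e (nat_lit 639003) (nat_lit 12) (.e (nat_lit 237612) (nat_lit 9) (.e (nat_lit 426100) (nat_lit 1) (.e (nat_lit 164307) (nat_lit 226) (.e (nat_lit 7936) (nat_lit 90) .nil))))))) (.g (nat_lit 6) .nil .nil)))) (.nd (nat_lit 5) 
(.lf (nat_lit 207961) (.g (nat_lit 2481) (.e (nat_lit 81938) (nat_lit 20) (.e (nat_lit 1962) (nat_lit 134) (.e (nat_lit 638998) (nat_lit 8) (.e (nat_lit 172120) (nat_lit 12) (.e (nat_lit 475161) (nat_lit 21) (.e (nat_lit 6264) (nat_lit 337) (.e (nat_lit 1220) (nat_lit 90) .nil))))))) (.g (nat_lit 4) .nil .nil))) 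
(.lf (nat_lit 207993) (.g (nat_lit 1511) (.e (nat_lit 81938) (nat_lit 20) (.e (nat_lit 1963) (nat_lit 134) (.e (nat_lit 638999) (nat_lit 8) (.e (nat_lit 172097) (nat_lit 9) (.e (nat_lit 426109) (nat_lit 1) (.e (nat_lit 164301) (nat_lit 226) (.e (nat_lit 7936) (nat_lit 90) .nil))))))) (.g (nat_lit 5) .nil .nil)))))) (.nd (nat_lit 3) (.nd (nat_lit 4) (.nd (nat_lit 5) 
(.lf (nat_lit 207941) (.g (nat_lit 1804) (.e (nat_lit 81938) (nat_lit 20) (.e (nat_lit 1962) (nat_lit 134) (.e (nat_lit 638985) (nat_lit 5) (.e (nat_lit 3015) (nat_lit 187) (.e (nat_lit 450563) (nat_lit 0) (.e (nat_lit 5172) (nat_lit 292) (.e (nat_lit 7936) (nat_lit 90) .nil))))))) (.g (nat_lit 5) .nil .nil))) 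
(.lf (nat_lit 207973) (.g (nat_lit 2112) (.e (nat_lit 81938) (nat_lit 20) (.e (nat_lit 1962) (nat_lit 134) (.e (nat_lit 638999) (nat_lit 8) (.e (nat_lit 172106) (nat_lit 10) (.e (nat_lit 434209) (nat_lit 18) (.e (nat_lit 5097) (nat_lit 292) (.e (nat_lit 1218) (nat_lit 90) .nil))))))) (.g (nat_lit 5) .nil .nil)))) (.nd (nat_lit 5) 
(.lf (nat_lit 207957) (.g (nat_lit 2596) (.e (nat_lit 81938) (nat_lit 20) (.e (nat_lit 1962) (nat_lit 134) (.e (nat_lit 638998) (nat_lit 8) (.e (nat_lit 172120) (nat_lit 12) (.e (nat_lit 475155) (nat_lit 21) (.e (nat_lit 6322) (nat_lit 337) (.e (nat_lit 1221) (nat_lit 90) .nil))))))) (.g (nat_lit 4) .nil .nil))) 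
(.lf (nat_lit 207989) (.g (nat_lit 1385) (.e (nat_lit 81938) (nat_lit 20) (.e (nat_lit 1963) (nat_lit 134) (.e (nat_lit 638986) (nat_lit 5) (.e (nat_lit 3027) (nat_lit 187) (.e (nat_lit 450564) (nat_lit 0) (.e (nat_lit 5079) (nat_lit 292) (.e (nat_lit 1218) (nat_lit 90) .nil))))))) (.g (nat_lit 5) .nil .nil))))) (.nd (nat_lit 4) (.nd (nat_lit 5) 
(.lf (nat_lit 207949) (.g (nat_lit 2199) (.e (nat_lit 81938) (nat_lit 20) (.e (nat_lit 1962) (nat_lit 134) (.e (nat_lit 638998) (nat_lit 8) (.e (nat_lit 172120) (nat_lit 12) (.e (nat_lit 475155) (nat_lit 21) .nil))))) .nil)) 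
(.lf (nat_lit 207981) (.g (nat_lit 1023) (.e (nat_lit 81938) (nat_lit 20) (.e (nat_lit 1963) (nat_lit 134) (.e (nat_lit 638986) (nat_lit 5) (.e (nat_lit 3015) (nat_lit 187) (.e (nat_lit 450560) (nat_lit 0) (.e (nat_lit 5095) (nat_lit 292) (.e (nat_lit 1218) (nat_lit 90) .nil))))))) (.g (nat_lit 4) .nil .nil)))) (.nd (nat_lit 5) 
(.lf (nat_lit 207965) (.g (nat_lit 2287) (.e (nat_lit 81938) (nat_lit 20) (.e (nat_lit 1962) (nat_lit 134) (.e (nat_lit 638998) (nat_lit 8) (.e (nat_lit 172120) (nat_lit 12) (.e (nat_lit 475163) (nat_lit 21) .nil))))) .nil)) 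
(.lf (nat_lit 207997) (.g (nat_lit 1935) (.e (nat_lit 81938) (nat_lit 20) (.e (nat_lit 1963) (nat_lit 134) (.e (nat_lit 638999) (nat_lit 8) (.e (nat_lit 172115) (nat_lit 10) (.e (nat_lit 434209) (nat_lit 18) (.e (nat_lit 5095) (nat_lit 292) (.e (nat_lit 1218) (nat_lit 90) .nil))))))) (.g (nat_lit 5) .nil .nil))))))) (.nd (nat_lit 2) (.nd (nat_lit 3) (.nd (nat_lit 4) (.nd (nat_lit 5) 
(.lf (nat_lit 207939) (.g (nat_lit 1970) (.e (nat_lit 81938) (nat_lit 20) (.e (nat_lit 1962) (nat_lit 134) (.e (nat_lit 638985) (nat_lit 5) (.e (nat_lit 3015) (nat_lit 187) (.e (nat_lit 450562) (nat_lit 0) (.e (nat_lit 5122) (nat_lit 292) (.e (nat_lit 7936) (nat_lit 90) .nil))))))) (.g (nat_lit 5) .nil .nil))) 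
(.lf (nat_lit 207971) (.g (nat_lit 1484) (.e (nat_lit 81938) (nat_lit 20) (.e (nat_lit 1962) (nat_lit 134) (.e (nat_lit 638999) (nat_lit 8) (.e (nat_lit 172097) (nat_lit 9) (.e (nat_lit 426109) (nat_lit 1) (.e (nat_lit 164301) (nat_lit 226) (.e (nat_lit 7936) (nat_lit 90) .nil))))))) (.g (nat_lit 5) .nil .nil)))) (.nd (nat_lit 5) 
(.lf (nat_lit 207955) (.g (nat_lit 2522) (.e (nat_lit 81938) (nat_lit 20) (.e (nat_lit 1962) (nat_lit 134) (.e (nat_lit 638998) (nat_lit 8) (.e (nat_lit 172120) (nat_lit 12) (.e (nat_lit 475155) (nat_lit 21) (.e (nat_lit 6320) (nat_lit 337) (.e (nat_lit 1221) (nat_lit 90) .nil))))))) (.g (nat_lit 4) .nil .nil))) 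
(.lf (nat_lit 207987) (.g (nat_lit 1915) (.e (nat_lit 81938) (nat_lit 20) (.e (nat_lit 1963) (nat_lit 134) (.e (nat_lit 638986) (nat_lit 5) (.e (nat_lit 3022) (nat_lit 187) (.e (nat_lit 450565) (nat_lit 0) (.e (nat_lit 5069) (nat_lit 292) (.e (nat_lit 7936) (nat_lit 90) .nil))))))) (.g (nat_lit 6) .nil .nil))))) (.nd (nat_lit 4) (.nd (nat_lit 5) 
(.lf (nat_lit 207947) (.g (nat_lit 872) (.e (nat_lit 81938) (nat_lit 20) (.e (nat_lit 1962) (nat_lit 134) (.e (nat_lit 638985) (nat_lit 5) (.e (nat_lit 3028) (nat_lit 187) (.e (nat_lit 450566) (nat_lit 0) (.e (nat_lit 5069) (nat_lit 292) (.e (nat_lit 7936) (nat_lit 90) .nil))))))) (.g (nat_lit 5) .nil .nil))) 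
(.lf (nat_lit 207979) (.g (nat_lit 1023) (.e (nat_lit 81938) (nat_lit 20) (.e (nat_lit 1963) (nat_lit 134) (.e (nat_lit 638986) (nat_lit 5) (.e (nat_lit 3015) (nat_lit 187) (.e (nat_lit 450560) (nat_lit 0) (.e (nat_lit 5060) (nat_lit 292) (.e (nat_lit 1218) (nat_lit 90) .nil))))))) (.g (nat_lit 4) .nil .nil)))) (.nd (nat_lit 5) 
(.lf (nat_lit 207963) (.g (nat_lit 2246) (.e (nat_lit 81938) (nat_lit 20) (.e (nat_lit 1962) (nat_lit 134) (.e (nat_lit 638998) (nat_lit 8) (.e (nat_lit 172120) (nat_lit 12) (.e (nat_lit 475162) (nat_lit 21) .nil))))) .nil)) 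
(.lf (nat_lit 207995) (.g (nat_lit 2120) (.e (nat_lit 81938) (nat_lit 20) (.e (nat_lit 1963) (nat_lit 134) (.e (nat_lit 638999) (nat_lit 8) (.e (nat_lit 172106) (nat_lit 10) (.e (nat_lit 434209) (nat_lit 18) (.e (nat_lit 5097) (nat_lit 292) (.e (nat_lit 1218) (nat_lit 90) .nil))))))) (.g (nat_lit 5) .nil .nil)))))) (.nd (nat_lit 3) (.nd (nat_lit 4) (.nd (nat_lit 5) 
(.lf (nat_lit 207943) (.g (nat_lit 1869) (.e (nat_lit 81938) (nat_lit 20) (.e (nat_lit 1962) (nat_lit 134) (.e (nat_lit 638985) (nat_lit 5) (.e (nat_lit 3022) (nat_lit 187) (.e (nat_lit 450565) (nat_lit 0) (.e (nat_lit 5069) (nat_lit 292) (.e (nat_lit 7936) (nat_lit 90) .nil))))))) (.g (nat_lit 6) .nil .nil))) 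
(.lf (nat_lit 207975) (.g (nat_lit 1940) (.e (nat_lit 81938) (nat_lit 20) (.e (nat_lit 1962) (nat_lit 134) (.e (nat_lit 638999) (nat_lit 8) (.e (nat_lit 172115) (nat_lit 10) (.e (nat_lit 434209) (nat_lit 18) (.e (nat_lit 5095) (nat_lit 292) (.e (nat_lit 1218) (nat_lit 90) .nil))))))) (.g (nat_lit 5) .nil .nil)))) (.nd (nat_lit 5) 
(.lf (nat_lit 207959) (.g (nat_lit 2634) (.e (nat_lit 81938) (nat_lit 20) (.e (nat_lit 1962) (nat_lit 134) (.e (nat_lit 638998) (nat_lit 8) (.e (nat_lit 172120) (nat_lit 12) (.e (nat_lit 475160) (nat_lit 21) (.e (nat_lit 6264) (nat_lit 337) (.e (nat_lit 1220) (nat_lit 90) .nil))))))) (.g (nat_lit 4) .nil .nil))) 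
(.lf (nat_lit 207991) (.g (nat_lit 957) (.e (nat_lit 81938) (nat_lit 20) (.e (nat_lit 1963) (nat_lit 134) (.e (nat_lit 638986) (nat_lit 5) (.e (nat_lit 3028) (nat_lit 187) (.e (nat_lit 450566) (nat_lit 0) (.e (nat_lit 5069) (nat_lit 292) (.e (nat_lit 7936) (nat_lit 90) .nil))))))) (.g (nat_lit 5) .nil .nil))))) (.nd (nat_lit 4) (.nd (nat_lit 5) 
(.lf (nat_lit 207951) (.g (nat_lit 2428) (.e (nat_lit 81938) (nat_lit 20) (.e (nat_lit 1962) (nat_lit 134) (.e (nat_lit 638998) (nat_lit 8) (.e (nat_lit 172120) (nat_lit 12) (.e (nat_lit 475155) (nat_lit 21) (.e (nat_lit 6301) (nat_lit 337) (.e (nat_lit 1221) (nat_lit 90) .nil))))))) (.g (nat_lit 4) .nil .nil))) 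
(.lf (nat_lit 207983) (.g (nat_lit 1950) (.e (nat_lit 81938) (nat_lit 20) (.e (nat_lit 1963) (nat_lit 134) (.e (nat_lit 638986) (nat_lit 5) (.e (nat_lit 3015) (nat_lit 187) (.e (nat_lit 450562) (nat_lit 0) (.e (nat_lit 5122) (nat_lit 292) (.e (nat_lit 7936) (nat_lit 90) .nil))))))) (.g (nat_lit 5) .nil .nil)))) (.nd (nat_lit 5) 
(.lf (nat_lit 207967) (.g (nat_lit 2426) (.e (nat_lit 81938) (nat_lit 20) (.e (nat_lit 1962) (nat_lit 134) (.e (nat_lit 638998) (nat_lit 8) (.e (nat_lit 172120) (nat_lit 12) (.e (nat_lit 475163) (nat_lit 21) (.e (nat_lit 6321) (nat_lit 337) (.e (nat_lit 1221) (nat_lit 90) .nil))))))) (.g (nat_lit 4) .nil .nil))) 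
(.lf (nat_lit 207999) (.g (nat_lit 1960) (.e (nat_lit 81938) (nat_lit 20) (.e (nat_lit 1963) (nat_lit 134) (.e (nat_lit 639001) (nat_lit 10) (.e (nat_lit 188446) (nat_lit 21) (.e (nat_lit 164305) (nat_lit 226) (.e (nat_lit 7936) (nat_lit 90) .nil)))))) (.g (nat_lit 5) .nil .nil)))))))))

noncomputable def tv2743 : DT := (.nd (nat_lit 0) (.nd (nat_lit 1) (.nd (nat_lit 2) (.nd (nat_lit 3) (.nd (nat_lit 4) (.nd (nat_lit 5) 
(.lf (nat_lit 208000) (.g (nat_lit 1340) (.e (nat_lit 81938) (nat_lit 20) (.e (nat_lit 1963) (nat_lit 134) (.e (nat_lit 639001) (nat_lit 10) (.e (nat_lit 188446) (nat_lit 21) (.e (nat_lit 164308) (nat_lit 226) (.e (nat_lit 1218) (nat_lit 90) .nil)))))) (.g (nat_lit 4) .nil .nil))) 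
(.lf (nat_lit 208032) (.g (nat_lit 2182) (.e (nat_lit 81938) (nat_lit 20) (.e (nat_lit 2005) (nat_lit 138) (.e (nat_lit 671762) (nat_lit 4) (.e (nat_lit 65620) (nat_lit 10) (.e (nat_lit 344169) (nat_lit 40) (.e (nat_lit 671764) (nat_lit 6) .nil)))))) (.g (nat_lit 5) .nil .nil)))) (.nd (nat_lit 5) 
(.lf (nat_lit 208016) (.g (nat_lit 1622) (.e (nat_lit 81938) (nat_lit 20) (.e (nat_lit 2003) (nat_lit 138) (.e (nat_lit 671762) (nat_lit 4) (.e (nat_lit 65623) (nat_lit 12) (.e (nat_lit 385093) (nat_lit 49) .nil))))) .nil)) 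
(.lf (nat_lit 208048) (.g (nat_lit 1515) (.e (nat_lit 81938) (nat_lit 20) (.e (nat_lit 2006) (nat_lit 138) (.e (nat_lit 671748) (nat_lit 0) (.e (nat_lit 1575) (nat_lit 110) (.e (nat_lit 352270) (nat_lit 8) (.e (nat_lit 270080) (nat_lit 6) .nil)))))) (.g (nat_lit 5) .nil .nil))))) (.nd (nat_lit 4) (.nd (nat_lit 5) 
(.lf (nat_lit 208008) (.g (nat_lit 1068) (.e (nat_lit 81938) (nat_lit 20) (.e (nat_lit 2003) (nat_lit 138) (.e (nat_lit 671747) (nat_lit 0) (.e (nat_lit 1569) (nat_lit 110) (.e (nat_lit 360192) (nat_lit 4) .nil))))) .nil)) 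
(.lf (nat_lit 208040) (.g (nat_lit 784) (.e (nat_lit 81938) (nat_lit 20) (.e (nat_lit 2006) (nat_lit 138) (.e (nat_lit 671748) (nat_lit 0) (.e (nat_lit 1559) (nat_lit 110) .nil)))) .nil))) (.nd (nat_lit 5) 
(.lf (nat_lit 208024) (.g (nat_lit 2121) (.e (nat_lit 81938) (nat_lit 20) (.e (nat_lit 2005) (nat_lit 138) (.e (nat_lit 671748) (nat_lit 0) (.e (nat_lit 1586) (nat_lit 111) (.e (nat_lit 360450) (nat_lit 0) (.e (nat_lit 5898) (nat_lit 320) (.e (nat_lit 7936) (nat_lit 90) .nil))))))) (.g (nat_lit 5) .nil .nil))) 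
(.lf (nat_lit 208056) (.g (nat_lit 3715) (.e (nat_lit 81938) (nat_lit 20) (.e (nat_lit 2006) (nat_lit 138) (.e (nat_lit 671762) (nat_lit 4) (.e (nat_lit 65598) (nat_lit 9) (.e (nat_lit 335997) (nat_lit 1) (.e (nat_lit 57872) (nat_lit 264) (.e (nat_lit 1221) (nat_lit 90) .nil))))))) (.g (nat_lit 7) .nil .nil)))))) (.nd (nat_lit 3) (.nd (nat_lit 4) (.nd (nat_lit 5) 
(.lf (nat_lit 208004) (.g (nat_lit 2100) (.e (nat_lit 81938) (nat_lit 20) (.e (nat_lit 1963) (nat_lit 134) (.e (nat_lit 639003) (nat_lit 12) (.e (nat_lit 237612) (nat_lit 9) (.e (nat_lit 426100) (nat_lit 1) (.e (nat_lit 164307) (nat_lit 226) (.e (nat_lit 7936) (nat_lit 90) .nil))))))) (.g (nat_lit 6) .nil .nil))) 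
(.lf (nat_lit 208036) (.g (nat_lit 2140) (.e (nat_lit 81938) (nat_lit 20) (.e (nat_lit 2005) (nat_lit 138) (.e (nat_lit 671764) (nat_lit 6) (.e (nat_lit 81947) (nat_lit 20) (.e (nat_lit 2005) (nat_lit 138) (.e (nat_lit 671764) (nat_lit 6) .nil)))))) (.g (nat_lit 0) .nil .nil)))) (.nd (nat_lit 5) 
(.lf (nat_lit 208020) (.g (nat_lit 2391) (.e (nat_lit 81938) (nat_lit 20) (.e (nat_lit 2003) (nat_lit 138) (.e (nat_lit 671764) (nat_lit 6) (.e (nat_lit 81950) (nat_lit 21) (.e (nat_lit 57870) (nat_lit 264) (.e (nat_lit 1220) (nat_lit 90) .nil)))))) (.g (nat_lit 0) .nil .nil))) 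
(.lf (nat_lit 208052) (.g (nat_lit 3396) (.e (nat_lit 81938) (nat_lit 20) (.e (nat_lit 2006) (nat_lit 138) (.e (nat_lit 671748) (nat_lit 0) (.e (nat_lit 1598) (nat_lit 111) (.e (nat_lit 360452) (nat_lit 0) (.e (nat_lit 5905) (nat_lit 320) (.e (nat_lit 1220) (nat_lit 90) .nil))))))) (.g (nat_lit 7) .nil .nil))))) (.nd (nat_lit 4) (.nd (nat_lit 5) 
(.lf (nat_lit 208012) (.g (nat_lit 3826) (.e (nat_lit 81938) (nat_lit 20) (.e (nat_lit 2003) (nat_lit 138) (.e (nat_lit 671747) (nat_lit 0) (.e (nat_lit 1595) (nat_lit 111) (.e (nat_lit 360453) (nat_lit 0) (.e (nat_lit 5907) (nat_lit 320) (.e (nat_lit 1221) (nat_lit 90) .nil))))))) (.g (nat_lit 7) .nil .nil))) 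
(.lf (nat_lit 208044) (.g (nat_lit 1192) (.e (nat_lit 81938) (nat_lit 20) (.e (nat_lit 2006) (nat_lit 138) (.e (nat_lit 671748) (nat_lit 0) (.e (nat_lit 1569) (nat_lit 110) (.e (nat_lit 360192) (nat_lit 4) (.e (nat_lit 220928) (nat_lit 6) .nil)))))) (.g (nat_lit 4) .nil .nil)))) (.nd (nat_lit 5) 
(.lf (nat_lit 208028) (.g (nat_lit 1315) (.e (nat_lit 81938) (nat_lit 20) (.e (nat_lit 2005) (nat_lit 138) (.e (nat_lit 671748) (nat_lit 0) (.e (nat_lit 1598) (nat_lit 111) (.e (nat_lit 360455) (nat_lit 0) (.e (nat_lit 5813) (nat_lit 320) (.e (nat_lit 7936) (nat_lit 90) .nil))))))) (.g (nat_lit 4) .nil .nil))) 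
(.lf (nat_lit 208060) (.g (nat_lit 3058) (.e (nat_lit 81938) (nat_lit 20) (.e (nat_lit 2006) (nat_lit 138) (.e (nat_lit 671764) (nat_lit 6) (.e (nat_lit 81948) (nat_lit 21) (.e (nat_lit 57872) (nat_lit 264) (.e (nat_lit 1221) (nat_lit 90) .nil)))))) (.g (nat_lit 0) .nil .nil))))))) (.nd (nat_lit 2) (.nd (nat_lit 3) (.nd (nat_lit 4) (.nd (nat_lit 5) 
(.lf (nat_lit 208002) (.g (nat_lit 1228) (.e (nat_lit 81938) (nat_lit 20) (.e (nat_lit 1963) (nat_lit 134) (.e (nat_lit 639001) (nat_lit 10) (.e (nat_lit 188455) (nat_lit 24) (.e (nat_lit 237312) (nat_lit 226) (.e (nat_lit 1220) (nat_lit 90) .nil)))))) (.g (nat_lit 4) .nil .nil))) 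
(.lf (nat_lit 208034) (.g (nat_lit 2481) (.e (nat_lit 81938) (nat_lit 20) (.e (nat_lit 2005) (nat_lit 138) (.e (nat_lit 671762) (nat_lit 4) (.e (nat_lit 65624) (nat_lit 12) (.e (nat_lit 385092) (nat_lit 49) (.e (nat_lit 778326) (nat_lit 6) .nil)))))) (.g (nat_lit 5) .nil .nil)))) (.nd (nat_lit 5) 
(.lf (nat_lit 208018) (.g (nat_lit 2946) (.e (nat_lit 81938) (nat_lit 20) (.e (nat_lit 2003) (nat_lit 138) (.e (nat_lit 671764) (nat_lit 6) (.e (nat_lit 81948) (nat_lit 21) (.e (nat_lit 57872) (nat_lit 264) (.e (nat_lit 1221) (nat_lit 90) .nil)))))) (.g (nat_lit 0) .nil .nil))) 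
(.lf (nat_lit 208050) (.g (nat_lit 2748) (.e (nat_lit 81938) (nat_lit 20) (.e (nat_lit 2006) (nat_lit 138) (.e (nat_lit 671748) (nat_lit 0) (.e (nat_lit 1586) (nat_lit 111) (.e (nat_lit 360450) (nat_lit 0) (.e (nat_lit 5898) (nat_lit 320) (.e (nat_lit 7936) (nat_lit 90) .nil))))))) (.g (nat_lit 6) .nil .nil))))) (.nd (nat_lit 4) (.nd (nat_lit 5) 
(.lf (nat_lit 208010) (.g (nat_lit 2760) (.e (nat_lit 81938) (nat_lit 20) (.e (nat_lit 2003) (nat_lit 138) (.e (nat_lit 671747) (nat_lit 0) (.e (nat_lit 1575) (nat_lit 110) (.e (nat_lit 352262) (nat_lit 0) (.e (nat_lit 3632) (nat_lit 227) (.e (nat_lit 778326) (nat_lit 6) .nil))))))) (.g (nat_lit 6) .nil .nil))) 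
(.lf (nat_lit 208042) (.g (nat_lit 1291) (.e (nat_lit 81938) (nat_lit 20) (.e (nat_lit 2006) (nat_lit 138) (.e (nat_lit 671748) (nat_lit 0) (.e (nat_lit 1562) (nat_lit 110) (.e (nat_lit 360192) (nat_lit 4) (.e (nat_lit 220928) (nat_lit 6) .nil)))))) (.g (nat_lit 4) .nil .nil)))) (.nd (nat_lit 5) 
(.lf (nat_lit 208026) (.g (nat_lit 3330) (.e (nat_lit 81938) (nat_lit 20) (.e (nat_lit 2005) (nat_lit 138) (.e (nat_lit 671748) (nat_lit 0) (.e (nat_lit 1598) (nat_lit 111) (.e (nat_lit 360452) (nat_lit 0) (.e (nat_lit 5905) (nat_lit 320) (.e (nat_lit 1220) (nat_lit 90) .nil))))))) (.g (nat_lit 7) .nil .nil))) 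
(.lf (nat_lit 208058) (.g (nat_lit 1651) (.e (nat_lit 81938) (nat_lit 20) (.e (nat_lit 2006) (nat_lit 138) (.e (nat_lit 671762) (nat_lit 4) (.e (nat_lit 65622) (nat_lit 12) (.e (nat_lit 385092) (nat_lit 49) (.e (nat_lit 778326) (nat_lit 6) .nil)))))) (.g (nat_lit 4) .nil .nil)))))) (.nd (nat_lit 3) (.nd (nat_lit 4) (.nd (nat_lit 5) 
(.lf (nat_lit 208006) (.g (nat_lit 3129) (.e (nat_lit 81938) (nat_lit 20) (.e (nat_lit 1967) (nat_lit 135) (.e (nat_lit 647203) (nat_lit 14) (.e (nat_lit 1349) (nat_lit 102) (.e (nat_lit 286759) (nat_lit 12) (.e (nat_lit 385094) (nat_lit 49) (.e (nat_lit 778326) (nat_lit 6) .nil))))))) (.g (nat_lit 6) .nil .nil))) 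
(.lf (nat_lit 208038) (.g (nat_lit 2321) (.e (nat_lit 81938) (nat_lit 20) (.e (nat_lit 2005) (nat_lit 138) (.e (nat_lit 671764) (nat_lit 6) (.e (nat_lit 81950) (nat_lit 21) (.e (nat_lit 57870) (nat_lit 264) (.e (nat_lit 1220) (nat_lit 90) .nil)))))) (.g (nat_lit 0) .nil .nil)))) (.nd (nat_lit 5) 
(.lf (nat_lit 208022) (.g (nat_lit 721) (.e (nat_lit 81938) (nat_lit 20) (.e (nat_lit 2005) (nat_lit 138) (.e (nat_lit 671747) (nat_lit 0) (.e (nat_lit 1569) (nat_lit 110) (.e (nat_lit 360192) (nat_lit 4) .nil))))) .nil)) 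
(.lf (nat_lit 208054) (.g (nat_lit 1776) (.e (nat_lit 81938) (nat_lit 20) (.e (nat_lit 2006) (nat_lit 138) (.e (nat_lit 671748) (nat_lit 0) (.e (nat_lit 1598) (nat_lit 111) (.e (nat_lit 360455) (nat_lit 0) (.e (nat_lit 5813) (nat_lit 320) (.e (nat_lit 7936) (nat_lit 90) .nil))))))) (.g (nat_lit 6) .nil .nil))))) (.nd (nat_lit 4) (.nd (nat_lit 5) 
(.lf (nat_lit 208014) (.g (nat_lit 2500) (.e (nat_lit 81938) (nat_lit 20) (.e (nat_lit 2003) (nat_lit 138) (.e (nat_lit 671762) (nat_lit 4) (.e (nat_lit 65617) (nat_lit 10) (.e (nat_lit 344169) (nat_lit 40) (.e (nat_lit 671764) (nat_lit 6) .nil)))))) (.g (nat_lit 5) .nil .nil))) 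
(.lf (nat_lit 208046) (.g (nat_lit 1350) (.e (nat_lit 81938) (nat_lit 20) (.e (nat_lit 2006) (nat_lit 138) (.e (nat_lit 671748) (nat_lit 0) (.e (nat_lit 1572) (nat_lit 110) (.e (nat_lit 352309) (nat_lit 21) .nil))))) .nil))) (.nd (nat_lit 5) 
(.lf (nat_lit 208030) (.g (nat_lit 3581) (.e (nat_lit 81938) (nat_lit 20) (.e (nat_lit 2005) (nat_lit 138) (.e (nat_lit 671762) (nat_lit 4) (.e (nat_lit 65598) (nat_lit 9) (.e (nat_lit 335997) (nat_lit 1) (.e (nat_lit 57872) (nat_lit 264) (.e (nat_lit 1221) (nat_lit 90) .nil))))))) (.g (nat_lit 7) .nil .nil))) 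
(.lf (nat_lit 208062) (.g (nat_lit 3166) (.e (nat_lit 81938) (nat_lit 20) (.e (nat_lit 2006) (nat_lit 138) (.e (nat_lit 671764) (nat_lit 6) (.e (nat_lit 81950) (nat_lit 21) (.e (nat_lit 57872) (nat_lit 264) (.e (nat_lit 1221) (nat_lit 90) .nil)))))) (.g (nat_lit 0) .nil .nil)))))))) (.nd (nat_lit 1) (.nd (nat_lit 2) (.nd (nat_lit 3) (.nd (nat_lit 4) (.nd (nat_lit 5) 
(.lf (nat_lit 208001) (.g (nat_lit 895) (.e (nat_lit 81938) (nat_lit 20) (.e (nat_lit 1963) (nat_lit 134) (.e (nat_lit 639001) (nat_lit 10) (.e (nat_lit 188446) (nat_lit 21) (.e (nat_lit 164309) (nat_lit 226) (.e (nat_lit 7936) (nat_lit 90) .nil)))))) (.g (nat_lit 4) .nil .nil))) 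
(.lf (nat_lit 208033) (.g (nat_lit 1680) (.e (nat_lit 81938) (nat_lit 20) (.e (nat_lit 2005) (nat_lit 138) (.e (nat_lit 671762) (nat_lit 4) (.e (nat_lit 65623) (nat_lit 12) (.e (nat_lit 385093) (nat_lit 49) .nil))))) .nil))) (.nd (nat_lit 5) 
(.lf (nat_lit 208017) (.g (nat_lit 1616) (.e (nat_lit 81938) (nat_lit 20) (.e (nat_lit 2003) (nat_lit 138) (.e (nat_lit 671764) (nat_lit 6) (.e (nat_lit 81947) (nat_lit 20) (.e (nat_lit 2003) (nat_lit 138) (.e (nat_lit 671764) (nat_lit 6) .nil)))))) (.g (nat_lit 4) .nil .nil))) 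
(.lf (nat_lit 208049) (.g (nat_lit 810) (.e (nat_lit 81938) (nat_lit 20) (.e (nat_lit 2006) (nat_lit 138) (.e (nat_lit 671748) (nat_lit 0) (.e (nat_lit 1586) (nat_lit 111) .nil)))) .nil)))) (.nd (nat_lit 4) (.nd (nat_lit 5) 
(.lf (nat_lit 208009) (.g (nat_lit 877) (.e (nat_lit 81938) (nat_lit 20) (.e (nat_lit 2003) (nat_lit 138) (.e (nat_lit 671747) (nat_lit 0) (.e (nat_lit 1575) (nat_lit 110) .nil)))) .nil)) 
(.lf (nat_lit 208041) (.g (nat_lit 1539) (.e (nat_lit 81938) (nat_lit 20) (.e (nat_lit 2006) (nat_lit 138) (.e (nat_lit 671748) (nat_lit 0) (.e (nat_lit 1559) (nat_lit 110) (.e (nat_lit 352270) (nat_lit 8) (.e (nat_lit 270080) (nat_lit 6) .nil)))))) (.g (nat_lit 5) .nil .nil)))) (.nd (nat_lit 5) 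
(.lf (nat_lit 208025) (.g (nat_lit 3745) (.e (nat_lit 81938) (nat_lit 20) (.e (nat_lit 2005) (nat_lit 138) (.e (nat_lit 671748) (nat_lit 0) (.e (nat_lit 1589) (nat_lit 111) (.e (nat_lit 360453) (nat_lit 0) (.e (nat_lit 5907) (nat_lit 320) (.e (nat_lit 1221) (nat_lit 90) .nil))))))) (.g (nat_lit 0) .nil .nil))) 
(.lf (nat_lit 208057) (.g (nat_lit 1154) (.e (nat_lit 81938) (nat_lit 20) (.e (nat_lit 2006) (nat_lit 138) (.e (nat_lit 671762) (nat_lit 4) (.e (nat_lit 65599) (nat_lit 9) .nil)))) .nil))))) (.nd (nat_lit 3) (.nd (nat_lit 4) (.nd (nat_lit 5) 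
(.lf (nat_lit 208005) (.g (nat_lit 2655) (.e (nat_lit 81938) (nat_lit 20) (.e (nat_lit 1966) (nat_lit 135) (.e (nat_lit 647203) (nat_lit 14) (.e (nat_lit 1349) (nat_lit 102) (.e (nat_lit 286759) (nat_lit 12) (.e (nat_lit 385094) (nat_lit 49) (.e (nat_lit 778326) (nat_lit 6) .nil))))))) (.g (nat_lit 5) .nil .nil))) 
(.lf (nat_lit 208037) (.g (nat_lit 2869) (.e (nat_lit 81938) (nat_lit 20) (.e (nat_lit 2005) (nat_lit 138) (.e (nat_lit 671764) (nat_lit 6) (.e (nat_lit 81948) (nat_lit 21) (.e (nat_lit 57872) (nat_lit 264) (.e (nat_lit 1221) (nat_lit 90) .nil)))))) (.g (nat_lit 0) .nil .nil)))) (.nd (nat_lit 5) 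
(.lf (nat_lit 208021) (.g (nat_lit 3108) (.e (nat_lit 81938) (nat_lit 20) (.e (nat_lit 2003) (nat_lit 138) (.e (nat_lit 671764) (nat_lit 6) (.e (nat_lit 81950) (nat_lit 21) (.e (nat_lit 57872) (nat_lit 264) (.e (nat_lit 1221) (nat_lit 90) .nil)))))) (.g (nat_lit 0) .nil .nil))) 
(.lf (nat_lit 208053) (.g (nat_lit 2925) (.e (nat_lit 81938) (nat_lit 20) (.e (nat_lit 2006) (nat_lit 138) (.e (nat_lit 671748) (nat_lit 0) (.e (nat_lit 1598) (nat_lit 111) (.e (nat_lit 360452) (nat_lit 0) (.e (nat_lit 5906) (nat_lit 320) (.e (nat_lit 1221) (nat_lit 90) .nil))))))) (.g (nat_lit 7) .nil .nil))))) (.nd (nat_lit 4) (.nd (nat_lit 5) 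
(.lf (nat_lit 208013) (.g (nat_lit 2523) (.e (nat_lit 81938) (nat_lit 20) (.e (nat_lit 2003) (nat_lit 138) (.e (nat_lit 671747) (nat_lit 0) (.e (nat_lit 1598) (nat_lit 111) (.e (nat_lit 360452) (nat_lit 0) (.e (nat_lit 5905) (nat_lit 320) (.e (nat_lit 1220) (nat_lit 90) .nil))))))) (.g (nat_lit 5) .nil .nil))) 
(.lf (nat_lit 208045) (.g (nat_lit 1304) (.e (nat_lit 81938) (nat_lit 20) (.e (nat_lit 2006) (nat_lit 138) (.e (nat_lit 671748) (nat_lit 0) (.e (nat_lit 1569) (nat_lit 110) (.e (nat_lit 352270) (nat_lit 8) (.e (nat_lit 270080) (nat_lit 6) .nil)))))) (.g (nat_lit 5) .nil .nil)))) (.nd (nat_lit 5) 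
(.lf (nat_lit 208029) (.g (nat_lit 2797) (.e (nat_lit 81938) (nat_lit 20) (.e (nat_lit 2005) (nat_lit 138) (.e (nat_lit 671751) (nat_lit 0) (.e (nat_lit 1524) (nat_lit 108) (.e (nat_lit 336194) (nat_lit 12) (.e (nat_lit 385094) (nat_lit 49) (.e (nat_lit 778326) (nat_lit 6) .nil))))))) (.g (nat_lit 7) .nil .nil))) 
(.lf (nat_lit 208061) (.g (nat_lit 2328) (.e (nat_lit 81938) (nat_lit 20) (.e (nat_lit 2006) (nat_lit 138) (.e (nat_lit 671764) (nat_lit 6) (.e (nat_lit 81950) (nat_lit 21) (.e (nat_lit 57870) (nat_lit 264) (.e (nat_lit 1220) (nat_lit 90) .nil)))))) (.g (nat_lit 0) .nil .nil))))))) (.nd (nat_lit 2) (.nd (nat_lit 3) (.nd (nat_lit 4) (.nd (nat_lit 5) 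
(.lf (nat_lit 208003) (.g (nat_lit 2433) (.e (nat_lit 81938) (nat_lit 20) (.e (nat_lit 1963) (nat_lit 134) (.e (nat_lit 639003) (nat_lit 12) (.e (nat_lit 237612) (nat_lit 9) (.e (nat_lit 426100) (nat_lit 1) (.e (nat_lit 164305) (nat_lit 226) (.e (nat_lit 7936) (nat_lit 90) .nil))))))) (.g (nat_lit 6) .nil .nil))) 
(.lf (nat_lit 208035) (.g (nat_lit 1477) (.e (nat_lit 81938) (nat_lit 20) (.e (nat_lit 2005) (nat_lit 138) (.e (nat_lit 671764) (nat_lit 6) (.e (nat_lit 81947) (nat_lit 20) (.e (nat_lit 2003) (nat_lit 138) (.e (nat_lit 671764) (nat_lit 6) .nil)))))) (.g (nat_lit 4) .nil .nil)))) (.nd (nat_lit 5) 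
(.lf (nat_lit 208019) (.g (nat_lit 2642) (.e (nat_lit 81938) (nat_lit 20) (.e (nat_lit 2003) (nat_lit 138) (.e (nat_lit 671764) (nat_lit 6) (.e (nat_lit 81949) (nat_lit 21) (.e (nat_lit 57870) (nat_lit 264) (.e (nat_lit 1220) (nat_lit 90) .nil)))))) (.g (nat_lit 6) .nil .nil))) 
(.lf (nat_lit 208051) (.g (nat_lit 1316) (.e (nat_lit 81938) (nat_lit 20) (.e (nat_lit 2006) (nat_lit 138) (.e (nat_lit 671748) (nat_lit 0) (.e (nat_lit 1595) (nat_lit 111) (.e (nat_lit 360455) (nat_lit 0) .nil))))) .nil)))) (.nd (nat_lit 4) (.nd (nat_lit 5) 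
(.lf (nat_lit 208011) (.g (nat_lit 1237) (.e (nat_lit 81938) (nat_lit 20) (.e (nat_lit 2003) (nat_lit 138) (.e (nat_lit 671747) (nat_lit 0) (.e (nat_lit 1575) (nat_lit 110) (.e (nat_lit 352270) (nat_lit 8) .nil))))) .nil)) 
(.lf (nat_lit 208043) (.g (nat_lit 1422) (.e (nat_lit 81938) (nat_lit 20) (.e (nat_lit 2006) (nat_lit 138) (.e (nat_lit 671748) (nat_lit 0) (.e (nat_lit 1562) (nat_lit 110) (.e (nat_lit 352270) (nat_lit 8) (.e (nat_lit 270080) (nat_lit 6) .nil)))))) (.g (nat_lit 5) .nil .nil)))) (.nd (nat_lit 5) 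
(.lf (nat_lit 208027) (.g (nat_lit 2729) (.e (nat_lit 81938) (nat_lit 20) (.e (nat_lit 2005) (nat_lit 138) (.e (nat_lit 671748) (nat_lit 0) (.e (nat_lit 1598) (nat_lit 111) (.e (nat_lit 360452) (nat_lit 0) (.e (nat_lit 5906) (nat_lit 320) (.e (nat_lit 1221) (nat_lit 90) .nil))))))) (.g (nat_lit 7) .nil .nil))) 
(.lf (nat_lit 208059) (.g (nat_lit 1560) (.e (nat_lit 81938) (nat_lit 20) (.e (nat_lit 2006) (nat_lit 138) (.e (nat_lit 671764) (nat_lit 6) (.e (nat_lit 81947) (nat_lit 20) (.e (nat_lit 2003) (nat_lit 138) (.e (nat_lit 671764) (nat_lit 6) .nil)))))) (.g (nat_lit 4) .nil .nil)))))) (.nd (nat_lit 3) (.nd (nat_lit 4) (.nd (nat_lit 5) 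
(.lf (nat_lit 208007) (.g (nat_lit 3211) (.e (nat_lit 81938) (nat_lit 20) (.e (nat_lit 1975) (nat_lit 135) (.e (nat_lit 647203) (nat_lit 14) (.e (nat_lit 1349) (nat_lit 102) (.e (nat_lit 286759) (nat_lit 12) (.e (nat_lit 385094) (nat_lit 49) (.e (nat_lit 778326) (nat_lit 6) .nil))))))) (.g (nat_lit 6) .nil .nil))) 
(.lf (nat_lit 208039) (.g (nat_lit 3018) (.e (nat_lit 81938) (nat_lit 20) (.e (nat_lit 2005) (nat_lit 138) (.e (nat_lit 671764) (nat_lit 6) (.e (nat_lit 81950) (nat_lit 21) (.e (nat_lit 57872) (nat_lit 264) (.e (nat_lit 1221) (nat_lit 90) .nil)))))) (.g (nat_lit 0) .nil .nil)))) (.nd (nat_lit 5) 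
(.lf (nat_lit 208023) (.g (nat_lit 878) (.e (nat_lit 81938) (nat_lit 20) (.e (nat_lit 2005) (nat_lit 138) (.e (nat_lit 671747) (nat_lit 0) (.e (nat_lit 1575) (nat_lit 110) (.e (nat_lit 352270) (nat_lit 8) .nil))))) .nil)) 
(.lf (nat_lit 208055) (.g (nat_lit 2278) (.e (nat_lit 81938) (nat_lit 20) (.e (nat_lit 2006) (nat_lit 138) (.e (nat_lit 671760) (nat_lit 4) (.e (nat_lit 65624) (nat_lit 12) (.e (nat_lit 385093) (nat_lit 49) (.e (nat_lit 778326) (nat_lit 6) .nil)))))) (.g (nat_lit 5) .nil .nil))))) (.nd (nat_lit 4) (.nd (nat_lit 5) 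
(.lf (nat_lit 208015) (.g (nat_lit 2602) (.e (nat_lit 81938) (nat_lit 20) (.e (nat_lit 2003) (nat_lit 138) (.e (nat_lit 671762) (nat_lit 4) (.e (nat_lit 65619) (nat_lit 10) (.e (nat_lit 344169) (nat_lit 40) (.e (nat_lit 671764) (nat_lit 6) .nil)))))) (.g (nat_lit 0) .nil .nil))) 
(.lf (nat_lit 208047) (.g (nat_lit 1393) (.e (nat_lit 81938) (nat_lit 20) (.e (nat_lit 2006) (nat_lit 138) (.e (nat_lit 671748) (nat_lit 0) (.e (nat_lit 1575) (nat_lit 110) (.e (nat_lit 360192) (nat_lit 4) (.e (nat_lit 220928) (nat_lit 6) .nil)))))) (.g (nat_lit 4) .nil .nil)))) (.nd (nat_lit 5) 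
(.lf (nat_lit 208031) (.g (nat_lit 2535) (.e (nat_lit 81938) (nat_lit 20) (.e (nat_lit 2005) (nat_lit 138) (.e (nat_lit 671762) (nat_lit 4) (.e (nat_lit 65617) (nat_lit 10) (.e (nat_lit 344169) (nat_lit 40) (.e (nat_lit 671764) (nat_lit 6) .nil)))))) (.g (nat_lit 5) .nil .nil))) 
(.lf (nat_lit 208063) (.g (nat_lit 454) (.e (nat_lit 81938) (nat_lit 20) (.e (nat_lit 2270) (nat_lit 149) (.e (nat_lit 761866) (nat_lit 5) .nil))) .nil))))))))

noncomputable def tv2744 : DT := (.nd (nat_lit 0) (.nd (nat_lit 1) (.nd (nat_lit 2) (.nd (nat_lit 3) (.nd (nat_lit 4) (.nd (nat_lit 5) 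
(.lf (nat_lit 208064) (.g (nat_lit 427) (.e (nat_lit 81938) (nat_lit 20) (.e (nat_lit 2270) (nat_lit 149) (.e (nat_lit 761868) (nat_lit 5) .nil))) .nil)) 
(.lf (nat_lit 208096) (.g (nat_lit 1974) (.e (nat_lit 81938) (nat_lit 20) (.e (nat_lit 2280) (nat_lit 150) (.e (nat_lit 770055) (nat_lit 5) (.e (nat_lit 1598) (nat_lit 111) (.e (nat_lit 360449) (nat_lit 0) (.e (nat_lit 7122) (nat_lit 382) (.e (nat_lit 7936) (nat_lit 90) .nil))))))) (.g (nat_lit 6) .nil .nil)))) (.nd (nat_lit 5) 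
(.lf (nat_lit 208080) (.g (nat_lit 2622) (.e (nat_lit 81938) (nat_lit 20) (.e (nat_lit 2279) (nat_lit 150) (.e (nat_lit 770072) (nat_lit 8) (.e (nat_lit 65610) (nat_lit 10) (.e (nat_lit 344097) (nat_lit 18) (.e (nat_lit 7146) (nat_lit 382) (.e (nat_lit 1216) (nat_lit 90) .nil))))))) (.g (nat_lit 5) .nil .nil))) 
(.lf (nat_lit 208112) (.g (nat_lit 2100) (.e (nat_lit 81938) (nat_lit 20) (.e (nat_lit 2280) (nat_lit 150) (.e (nat_lit 770071) (nat_lit 8) (.e (nat_lit 65610) (nat_lit 10) (.e (nat_lit 344090) (nat_lit 18) (.e (nat_lit 7124) (nat_lit 382) (.e (nat_lit 7936) (nat_lit 90) .nil))))))) (.g (nat_lit 5) .nil .nil))))) (.nd (nat_lit 4) (.nd (nat_lit 5) 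
(.lf (nat_lit 208072) (.g (nat_lit 1908) (.e (nat_lit 81938) (nat_lit 20) (.e (nat_lit 2270) (nat_lit 149) (.e (nat_lit 761868) (nat_lit 5) (.e (nat_lit 1597) (nat_lit 111) (.e (nat_lit 360488) (nat_lit 20) (.e (nat_lit 769792) (nat_lit 10) .nil)))))) (.g (nat_lit 5) .nil .nil))) 
(.lf (nat_lit 208104) (.g (nat_lit 1499) (.e (nat_lit 81938) (nat_lit 20) (.e (nat_lit 2280) (nat_lit 150) (.e (nat_lit 770057) (nat_lit 5) (.e (nat_lit 1589) (nat_lit 111) (.e (nat_lit 360488) (nat_lit 20) (.e (nat_lit 769792) (nat_lit 10) .nil)))))) (.g (nat_lit 4) .nil .nil)))) (.nd (nat_lit 5) 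
(.lf (nat_lit 208088) (.g (nat_lit 2497) (.e (nat_lit 81938) (nat_lit 20) (.e (nat_lit 2280) (nat_lit 150) (.e (nat_lit 770055) (nat_lit 5) (.e (nat_lit 1586) (nat_lit 111) (.e (nat_lit 360450) (nat_lit 0) (.e (nat_lit 7122) (nat_lit 382) (.e (nat_lit 7936) (nat_lit 90) .nil))))))) (.g (nat_lit 6) .nil .nil))) 
(.lf (nat_lit 208120) (.g (nat_lit 2096) (.e (nat_lit 81938) (nat_lit 20) (.e (nat_lit 2280) (nat_lit 150) (.e (nat_lit 770071) (nat_lit 8) (.e (nat_lit 65617) (nat_lit 10) (.e (nat_lit 344095) (nat_lit 18) (.e (nat_lit 7119) (nat_lit 382) (.e (nat_lit 7936) (nat_lit 90) .nil))))))) (.g (nat_lit 4) .nil .nil)))))) (.nd (nat_lit 3) (.nd (nat_lit 4) (.nd (nat_lit 5) 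
(.lf (nat_lit 208068) (.g (nat_lit 1462) (.e (nat_lit 81938) (nat_lit 20) (.e (nat_lit 2270) (nat_lit 149) (.e (nat_lit 761868) (nat_lit 5) (.e (nat_lit 1597) (nat_lit 111) (.e (nat_lit 360449) (nat_lit 0) (.e (nat_lit 7119) (nat_lit 382) (.e (nat_lit 7936) (nat_lit 90) .nil))))))) (.g (nat_lit 4) .nil .nil))) 
(.lf (nat_lit 208100) (.g (nat_lit 1524) (.e (nat_lit 81938) (nat_lit 20) (.e (nat_lit 2280) (nat_lit 150) (.e (nat_lit 770056) (nat_lit 5) (.e (nat_lit 1598) (nat_lit 111) (.e (nat_lit 360449) (nat_lit 0) (.e (nat_lit 7122) (nat_lit 382) (.e (nat_lit 7936) (nat_lit 90) .nil))))))) (.g (nat_lit 5) .nil .nil)))) (.nd (nat_lit 5) 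
(.lf (nat_lit 208084) (.g (nat_lit 2018) (.e (nat_lit 81938) (nat_lit 20) (.e (nat_lit 2279) (nat_lit 150) (.e (nat_lit 770072) (nat_lit 8) (.e (nat_lit 65617) (nat_lit 10) (.e (nat_lit 344095) (nat_lit 18) (.e (nat_lit 7122) (nat_lit 382) (.e (nat_lit 7936) (nat_lit 90) .nil))))))) (.g (nat_lit 5) .nil .nil))) 
(.lf (nat_lit 208116) (.g (nat_lit 1848) (.e (nat_lit 81938) (nat_lit 20) (.e (nat_lit 2280) (nat_lit 150) (.e (nat_lit 770071) (nat_lit 8) (.e (nat_lit 65616) (nat_lit 10) (.e (nat_lit 344174) (nat_lit 42) (.e (nat_lit 769792) (nat_lit 10) .nil)))))) (.g (nat_lit 5) .nil .nil))))) (.nd (nat_lit 4) (.nd (nat_lit 5) 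
(.lf (nat_lit 208076) (.g (nat_lit 2089) (.e (nat_lit 81938) (nat_lit 20) (.e (nat_lit 2279) (nat_lit 150) (.e (nat_lit 770071) (nat_lit 8) (.e (nat_lit 65617) (nat_lit 10) (.e (nat_lit 344091) (nat_lit 18) (.e (nat_lit 7119) (nat_lit 382) (.e (nat_lit 7936) (nat_lit 90) .nil))))))) (.g (nat_lit 5) .nil .nil))) 
(.lf (nat_lit 208108) (.g (nat_lit 1809) (.e (nat_lit 81938) (nat_lit 20) (.e (nat_lit 2280) (nat_lit 150) (.e (nat_lit 770057) (nat_lit 5) (.e (nat_lit 1598) (nat_lit 111) (.e (nat_lit 360449) (nat_lit 0) (.e (nat_lit 7122) (nat_lit 382) (.e (nat_lit 7936) (nat_lit 90) .nil))))))) (.g (nat_lit 6) .nil .nil)))) (.nd (nat_lit 5) 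
(.lf (nat_lit 208092) (.g (nat_lit 1485) (.e (nat_lit 81938) (nat_lit 20) (.e (nat_lit 2280) (nat_lit 150) (.e (nat_lit 770055) (nat_lit 5) (.e (nat_lit 1589) (nat_lit 111) (.e (nat_lit 360488) (nat_lit 20) .nil))))) .nil)) 
(.lf (nat_lit 208124) (.g (nat_lit 2546) (.e (nat_lit 81938) (nat_lit 20) (.e (nat_lit 2280) (nat_lit 150) (.e (nat_lit 770071) (nat_lit 8) (.e (nat_lit 65617) (nat_lit 10) (.e (nat_lit 344096) (nat_lit 18) (.e (nat_lit 7124) (nat_lit 382) (.e (nat_lit 7936) (nat_lit 90) .nil))))))) (.g (nat_lit 5) .nil .nil))))))) (.nd (nat_lit 2) (.nd (nat_lit 3) (.nd (nat_lit 4) (.nd (nat_lit 5) 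
(.lf (nat_lit 208066) (.g (nat_lit 1495) (.e (nat_lit 81938) (nat_lit 20) (.e (nat_lit 2270) (nat_lit 149) (.e (nat_lit 761868) (nat_lit 5) (.e (nat_lit 1585) (nat_lit 111) (.e (nat_lit 360449) (nat_lit 0) (.e (nat_lit 7122) (nat_lit 382) (.e (nat_lit 7936) (nat_lit 90) .nil))))))) (.g (nat_lit 4) .nil .nil))) 
(.lf (nat_lit 208098) (.g (nat_lit 2770) (.e (nat_lit 81938) (nat_lit 20) (.e (nat_lit 2280) (nat_lit 150) (.e (nat_lit 770055) (nat_lit 5) (.e (nat_lit 1598) (nat_lit 111) (.e (nat_lit 360452) (nat_lit 0) (.e (nat_lit 7147) (nat_lit 382) (.e (nat_lit 1216) (nat_lit 90) .nil))))))) (.g (nat_lit 0) .nil .nil)))) (.nd (nat_lit 5) 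
(.lf (nat_lit 208082) (.g (nat_lit 1819) (.e (nat_lit 81938) (nat_lit 20) (.e (nat_lit 2279) (nat_lit 150) (.e (nat_lit 770072) (nat_lit 8) (.e (nat_lit 65617) (nat_lit 10) (.e (nat_lit 344091) (nat_lit 18) (.e (nat_lit 7124) (nat_lit 382) (.e (nat_lit 7936) (nat_lit 90) .nil))))))) (.g (nat_lit 4) .nil .nil))) 
(.lf (nat_lit 208114) (.g (nat_lit 2014) (.e (nat_lit 81938) (nat_lit 20) (.e (nat_lit 2280) (nat_lit 150) (.e (nat_lit 770071) (nat_lit 8) (.e (nat_lit 65610) (nat_lit 10) (.e (nat_lit 344174) (nat_lit 42) (.e (nat_lit 769792) (nat_lit 10) .nil)))))) (.g (nat_lit 5) .nil .nil))))) (.nd (nat_lit 4) (.nd (nat_lit 5) 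
(.lf (nat_lit 208074) (.g (nat_lit 1805) (.e (nat_lit 81938) (nat_lit 20) (.e (nat_lit 2279) (nat_lit 150) (.e (nat_lit 770071) (nat_lit 8) (.e (nat_lit 65610) (nat_lit 10) (.e (nat_lit 344090) (nat_lit 18) (.e (nat_lit 7119) (nat_lit 382) (.e (nat_lit 7936) (nat_lit 90) .nil))))))) (.g (nat_lit 5) .nil .nil))) 
(.lf (nat_lit 208106) (.g (nat_lit 1344) (.e (nat_lit 81938) (nat_lit 20) (.e (nat_lit 2280) (nat_lit 150) (.e (nat_lit 770057) (nat_lit 5) (.e (nat_lit 1595) (nat_lit 111) (.e (nat_lit 360488) (nat_lit 20) (.e (nat_lit 769792) (nat_lit 10) .nil)))))) (.g (nat_lit 4) .nil .nil)))) (.nd (nat_lit 5) 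
(.lf (nat_lit 208090) (.g (nat_lit 2227) (.e (nat_lit 81938) (nat_lit 20) (.e (nat_lit 2280) (nat_lit 150) (.e (nat_lit 770055) (nat_lit 5) (.e (nat_lit 1586) (nat_lit 111) (.e (nat_lit 360451) (nat_lit 0) (.e (nat_lit 7124) (nat_lit 382) (.e (nat_lit 7936) (nat_lit 90) .nil))))))) (.g (nat_lit 5) .nil .nil))) 
(.lf (nat_lit 208122) (.g (nat_lit 2839) (.e (nat_lit 81938) (nat_lit 20) (.e (nat_lit 2280) (nat_lit 150) (.e (nat_lit 770071) (nat_lit 8) (.e (nat_lit 65617) (nat_lit 10) (.e (nat_lit 344096) (nat_lit 18) (.e (nat_lit 7119) (nat_lit 382) (.e (nat_lit 7936) (nat_lit 90) .nil))))))) (.g (nat_lit 5) .nil .nil)))))) (.nd (nat_lit 3) (.nd (nat_lit 4) (.nd (nat_lit 5) 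
(.lf (nat_lit 208070) (.g (nat_lit 1439) (.e (nat_lit 81938) (nat_lit 20) (.e (nat_lit 2270) (nat_lit 149) (.e (nat_lit 761868) (nat_lit 5) (.e (nat_lit 1597) (nat_lit 111) (.e (nat_lit 360449) (nat_lit 0) (.e (nat_lit 7124) (nat_lit 382) (.e (nat_lit 7936) (nat_lit 90) .nil))))))) (.g (nat_lit 4) .nil .nil))) 
(.lf (nat_lit 208102) (.g (nat_lit 1998) (.e (nat_lit 81938) (nat_lit 20) (.e (nat_lit 2280) (nat_lit 150) (.e (nat_lit 770057) (nat_lit 5) (.e (nat_lit 1586) (nat_lit 111) (.e (nat_lit 360451) (nat_lit 0) (.e (nat_lit 7124) (nat_lit 382) (.e (nat_lit 7936) (nat_lit 90) .nil))))))) (.g (nat_lit 5) .nil .nil)))) (.nd (nat_lit 5) 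
(.lf (nat_lit 208086) (.g (nat_lit 1149) (.e (nat_lit 81938) (nat_lit 20) (.e (nat_lit 2280) (nat_lit 150) (.e (nat_lit 770055) (nat_lit 5) (.e (nat_lit 1580) (nat_lit 111) (.e (nat_lit 360489) (nat_lit 21) .nil))))) .nil)) 
(.lf (nat_lit 208118) (.g (nat_lit 2761) (.e (nat_lit 81938) (nat_lit 20) (.e (nat_lit 2280) (nat_lit 150) (.e (nat_lit 770071) (nat_lit 8) (.e (nat_lit 65617) (nat_lit 10) (.e (nat_lit 344091) (nat_lit 18) (.e (nat_lit 7122) (nat_lit 382) (.e (nat_lit 7936) (nat_lit 90) .nil))))))) (.g (nat_lit 5) .nil .nil))))) (.nd (nat_lit 4) (.nd (nat_lit 5) 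
(.lf (nat_lit 208078) (.g (nat_lit 2711) (.e (nat_lit 81938) (nat_lit 20) (.e (nat_lit 2279) (nat_lit 150) (.e (nat_lit 770071) (nat_lit 8) (.e (nat_lit 65617) (nat_lit 10) (.e (nat_lit 344096) (nat_lit 18) (.e (nat_lit 7122) (nat_lit 382) (.e (nat_lit 7936) (nat_lit 90) .nil))))))) (.g (nat_lit 6) .nil .nil))) 
(.lf (nat_lit 208110) (.g (nat_lit 1064) (.e (nat_lit 81938) (nat_lit 20) (.e (nat_lit 2280) (nat_lit 150) (.e (nat_lit 770057) (nat_lit 5) (.e (nat_lit 1598) (nat_lit 111) (.e (nat_lit 360488) (nat_lit 20) (.e (nat_lit 769792) (nat_lit 10) .nil)))))) (.g (nat_lit 4) .nil .nil)))) (.nd (nat_lit 5) 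
(.lf (nat_lit 208094) (.g (nat_lit 1766) (.e (nat_lit 81938) (nat_lit 20) (.e (nat_lit 2280) (nat_lit 150) (.e (nat_lit 770055) (nat_lit 5) (.e (nat_lit 1595) (nat_lit 111) (.e (nat_lit 360453) (nat_lit 0) (.e (nat_lit 7147) (nat_lit 382) (.e (nat_lit 1216) (nat_lit 90) .nil))))))) (.g (nat_lit 4) .nil .nil))) 
(.lf (nat_lit 208126) (.g (nat_lit 1868) (.e (nat_lit 81938) (nat_lit 20) (.e (nat_lit 2280) (nat_lit 150) (.e (nat_lit 770071) (nat_lit 8) (.e (nat_lit 65619) (nat_lit 10) (.e (nat_lit 344090) (nat_lit 18) (.e (nat_lit 7124) (nat_lit 382) (.e (nat_lit 7936) (nat_lit 90) .nil))))))) (.g (nat_lit 4) .nil .nil)))))))) 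
(.nd (nat_lit 1) (.nd (nat_lit 2) (.nd (nat_lit 3) (.nd (nat_lit 4) (.nd (nat_lit 5) 
(.lf (nat_lit 208065) (.g (nat_lit 1611) (.e (nat_lit 81938) (nat_lit 20) (.e (nat_lit 2270) (nat_lit 149) (.e (nat_lit 761868) (nat_lit 5) (.e (nat_lit 1582) (nat_lit 111) (.e (nat_lit 360451) (nat_lit 0) (.e (nat_lit 7124) (nat_lit 382) (.e (nat_lit 7936) (nat_lit 90) .nil))))))) (.g (nat_lit 4) .nil .nil))) 
(.lf (nat_lit 208097) (.g (nat_lit 1372) (.e (nat_lit 81938) (nat_lit 20) (.e (nat_lit 2280) (nat_lit 150) (.e (nat_lit 770055) (nat_lit 5) (.e (nat_lit 1598) (nat_lit 111) (.e (nat_lit 360449) (nat_lit 0) (.e (nat_lit 7124) (nat_lit 382) (.e (nat_lit 7936) (nat_lit 90) .nil))))))) (.g (nat_lit 4) .nil .nil)))) (.nd (nat_lit 5) 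
(.lf (nat_lit 208081) (.g (nat_lit 2177) (.e (nat_lit 81938) (nat_lit 20) (.e (nat_lit 2279) (nat_lit 150) (.e (nat_lit 770072) (nat_lit 8) (.e (nat_lit 65617) (nat_lit 10) (.e (nat_lit 344091) (nat_lit 18) (.e (nat_lit 7119) (nat_lit 382) (.e (nat_lit 7936) (nat_lit 90) .nil))))))) (.g (nat_lit 5) .nil .nil))) 
(.lf (nat_lit 208113) (.g (nat_lit 1480) (.e (nat_lit 81938) (nat_lit 20) (.e (nat_lit 2280) (nat_lit 150) (.e (nat_lit 770071) (nat_lit 8) (.e (nat_lit 65610) (nat_lit 10) (.e (nat_lit 344173) (nat_lit 42) .nil))))) .nil)))) (.nd (nat_lit 4) (.nd (nat_lit 5) 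
(.lf (nat_lit 208073) (.g (nat_lit 1283) (.e (nat_lit 81938) (nat_lit 20) (.e (nat_lit 2279) (nat_lit 150) (.e (nat_lit 770057) (nat_lit 5) (.e (nat_lit 1595) (nat_lit 111) (.e (nat_lit 360453) (nat_lit 0) (.e (nat_lit 7147) (nat_lit 382) (.e (nat_lit 1216) (nat_lit 90) .nil))))))) (.g (nat_lit 4) .nil .nil))) 
(.lf (nat_lit 208105) (.g (nat_lit 2402) (.e (nat_lit 81938) (nat_lit 20) (.e (nat_lit 2280) (nat_lit 150) (.e (nat_lit 770057) (nat_lit 5) (.e (nat_lit 1589) (nat_lit 111) (.e (nat_lit 360489) (nat_lit 21) (.e (nat_lit 770074) (nat_lit 10) .nil)))))) (.g (nat_lit 6) .nil .nil)))) (.nd (nat_lit 5) 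
(.lf (nat_lit 208089) (.g (nat_lit 2497) (.e (nat_lit 81938) (nat_lit 20) (.e (nat_lit 2280) (nat_lit 150) (.e (nat_lit 770055) (nat_lit 5) (.e (nat_lit 1586) (nat_lit 111) (.e (nat_lit 360451) (nat_lit 0) (.e (nat_lit 7122) (nat_lit 382) (.e (nat_lit 7936) (nat_lit 90) .nil))))))) (.g (nat_lit 5) .nil .nil))) 
(.lf (nat_lit 208121) (.g (nat_lit 2591) (.e (nat_lit 81938) (nat_lit 20) (.e (nat_lit 2280) (nat_lit 150) (.e (nat_lit 770071) (nat_lit 8) (.e (nat_lit 65617) (nat_lit 10) (.e (nat_lit 344095) (nat_lit 18) (.e (nat_lit 7122) (nat_lit 382) (.e (nat_lit 7936) (nat_lit 90) .nil))))))) (.g (nat_lit 6) .nil .nil)))))) (.nd (nat_lit 3) (.nd (nat_lit 4) (.nd (nat_lit 5) 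
(.lf (nat_lit 208069) (.g (nat_lit 2097) (.e (nat_lit 81938) (nat_lit 20) (.e (nat_lit 2270) (nat_lit 149) (.e (nat_lit 761868) (nat_lit 5) (.e (nat_lit 1597) (nat_lit 111) (.e (nat_lit 360449) (nat_lit 0) (.e (nat_lit 7122) (nat_lit 382) (.e (nat_lit 7936) (nat_lit 90) .nil))))))) (.g (nat_lit 5) .nil .nil))) 
(.lf (nat_lit 208101) (.g (nat_lit 2034) (.e (nat_lit 81938) (nat_lit 20) (.e (nat_lit 2280) (nat_lit 150) (.e (nat_lit 770057) (nat_lit 5) (.e (nat_lit 1586) (nat_lit 111) (.e (nat_lit 360450) (nat_lit 0) (.e (nat_lit 7119) (nat_lit 382) (.e (nat_lit 7936) (nat_lit 90) .nil))))))) (.g (nat_lit 5) .nil .nil)))) (.nd (nat_lit 5) 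
(.lf (nat_lit 208085) (.g (nat_lit 2282) (.e (nat_lit 81938) (nat_lit 20) (.e (nat_lit 2279) (nat_lit 150) (.e (nat_lit 770072) (nat_lit 8) (.e (nat_lit 65617) (nat_lit 10) (.e (nat_lit 344096) (nat_lit 18) (.e (nat_lit 7119) (nat_lit 382) (.e (nat_lit 7936) (nat_lit 90) .nil))))))) (.g (nat_lit 5) .nil .nil))) 
(.lf (nat_lit 208117) (.g (nat_lit 2752) (.e (nat_lit 81938) (nat_lit 20) (.e (nat_lit 2280) (nat_lit 150) (.e (nat_lit 770071) (nat_lit 8) (.e (nat_lit 65617) (nat_lit 10) (.e (nat_lit 344091) (nat_lit 18) (.e (nat_lit 7119) (nat_lit 382) (.e (nat_lit 7936) (nat_lit 90) .nil))))))) (.g (nat_lit 5) .nil .nil))))) (.nd (nat_lit 4) (.nd (nat_lit 5) 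
(.lf (nat_lit 208077) (.g (nat_lit 2159) (.e (nat_lit 81938) (nat_lit 20) (.e (nat_lit 2279) (nat_lit 150) (.e (nat_lit 770071) (nat_lit 8) (.e (nat_lit 65617) (nat_lit 10) (.e (nat_lit 344096) (nat_lit 18) (.e (nat_lit 7119) (nat_lit 382) (.e (nat_lit 7936) (nat_lit 90) .nil))))))) (.g (nat_lit 5) .nil .nil))) 
(.lf (nat_lit 208109) (.g (nat_lit 1207) (.e (nat_lit 81938) (nat_lit 20) (.e (nat_lit 2280) (nat_lit 150) (.e (nat_lit 770057) (nat_lit 5) (.e (nat_lit 1598) (nat_lit 111) (.e (nat_lit 360449) (nat_lit 0) (.e (nat_lit 7124) (nat_lit 382) (.e (nat_lit 7936) (nat_lit 90) .nil))))))) (.g (nat_lit 4) .nil .nil)))) (.nd (nat_lit 5) 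
(.lf (nat_lit 208093) (.g (nat_lit 906) (.e (nat_lit 81938) (nat_lit 20) (.e (nat_lit 2280) (nat_lit 150) (.e (nat_lit 770055) (nat_lit 5) (.e (nat_lit 1592) (nat_lit 111) (.e (nat_lit 360489) (nat_lit 21) .nil))))) .nil)) 
(.lf (nat_lit 208125) (.g (nat_lit 2156) (.e (nat_lit 81938) (nat_lit 20) (.e (nat_lit 2280) (nat_lit 150) (.e (nat_lit 770071) (nat_lit 8) (.e (nat_lit 65617) (nat_lit 10) (.e (nat_lit 344174) (nat_lit 42) (.e (nat_lit 769792) (nat_lit 10) .nil)))))) (.g (nat_lit 5) .nil .nil))))))) (.nd (nat_lit 2) (.nd (nat_lit 3) (.nd (nat_lit 4) (.nd (nat_lit 5) 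
(.lf (nat_lit 208067) (.g (nat_lit 1473) (.e (nat_lit 81938) (nat_lit 20) (.e (nat_lit 2270) (nat_lit 149) (.e (nat_lit 761868) (nat_lit 5) (.e (nat_lit 1585) (nat_lit 111) (.e (nat_lit 360488) (nat_lit 20) (.e (nat_lit 769792) (nat_lit 10) .nil)))))) (.g (nat_lit 4) .nil .nil))) 
(.lf (nat_lit 208099) (.g (nat_lit 1249) (.e (nat_lit 81938) (nat_lit 20) (.e (nat_lit 2280) (nat_lit 150) (.e (nat_lit 770055) (nat_lit 5) (.e (nat_lit 1598) (nat_lit 111) (.e (nat_lit 360488) (nat_lit 20) (.e (nat_lit 769792) (nat_lit 10) .nil)))))) (.g (nat_lit 4) .nil .nil)))) (.nd (nat_lit 5) 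
(.lf (nat_lit 208083) (.g (nat_lit 1525) (.e (nat_lit 81938) (nat_lit 20) (.e (nat_lit 2279) (nat_lit 150) (.e (nat_lit 770072) (nat_lit 8) (.e (nat_lit 65617) (nat_lit 10) (.e (nat_lit 344095) (nat_lit 18) (.e (nat_lit 7119) (nat_lit 382) (.e (nat_lit 7936) (nat_lit 90) .nil))))))) (.g (nat_lit 4) .nil .nil))) 
(.lf (nat_lit 208115) (.g (nat_lit 1975) (.e (nat_lit 81938) (nat_lit 20) (.e (nat_lit 2280) (nat_lit 150) (.e (nat_lit 770071) (nat_lit 8) (.e (nat_lit 65611) (nat_lit 10) (.e (nat_lit 344174) (nat_lit 42) (.e (nat_lit 769792) (nat_lit 10) .nil)))))) (.g (nat_lit 5) .nil .nil))))) (.nd (nat_lit 4) (.nd (nat_lit 5) 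
(.lf (nat_lit 208075) (.g (nat_lit 2615) (.e (nat_lit 81938) (nat_lit 20) (.e (nat_lit 2279) (nat_lit 150) (.e (nat_lit 770071) (nat_lit 8) (.e (nat_lit 65610) (nat_lit 10) (.e (nat_lit 344097) (nat_lit 18) (.e (nat_lit 7146) (nat_lit 382) (.e (nat_lit 1216) (nat_lit 90) .nil))))))) (.g (nat_lit 5) .nil .nil))) 
(.lf (nat_lit 208107) (.g (nat_lit 1244) (.e (nat_lit 81938) (nat_lit 20) (.e (nat_lit 2280) (nat_lit 150) (.e (nat_lit 770057) (nat_lit 5) (.e (nat_lit 1598) (nat_lit 111) (.e (nat_lit 360449) (nat_lit 0) (.e (nat_lit 7119) (nat_lit 382) (.e (nat_lit 7936) (nat_lit 90) .nil))))))) (.g (nat_lit 4) .nil .nil)))) (.nd (nat_lit 5) 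
(.lf (nat_lit 208091) (.g (nat_lit 1815) (.e (nat_lit 81938) (nat_lit 20) (.e (nat_lit 2280) (nat_lit 150) (.e (nat_lit 770055) (nat_lit 5) (.e (nat_lit 1589) (nat_lit 111) (.e (nat_lit 360453) (nat_lit 0) (.e (nat_lit 7147) (nat_lit 382) (.e (nat_lit 1216) (nat_lit 90) .nil))))))) (.g (nat_lit 4) .nil .nil))) 
(.lf (nat_lit 208123) (.g (nat_lit 3391) (.e (nat_lit 81938) (nat_lit 20) (.e (nat_lit 2280) (nat_lit 150) (.e (nat_lit 770071) (nat_lit 8) (.e (nat_lit 65617) (nat_lit 10) (.e (nat_lit 344096) (nat_lit 18) (.e (nat_lit 7122) (nat_lit 382) (.e (nat_lit 7936) (nat_lit 90) .nil))))))) (.g (nat_lit 6) .nil .nil)))))) (.nd (nat_lit 3) (.nd (nat_lit 4) (.nd (nat_lit 5) 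
(.lf (nat_lit 208071) (.g (nat_lit 1605) (.e (nat_lit 81938) (nat_lit 20) (.e (nat_lit 2270) (nat_lit 149) (.e (nat_lit 761868) (nat_lit 5) (.e (nat_lit 1597) (nat_lit 111) (.e (nat_lit 368384) (nat_lit 0) (.e (nat_lit 7160) (nat_lit 382) (.e (nat_lit 7936) (nat_lit 90) .nil))))))) (.g (nat_lit 4) .nil .nil))) 
(.lf (nat_lit 208103) (.g (nat_lit 1343) (.e (nat_lit 81938) (nat_lit 20) (.e (nat_lit 2280) (nat_lit 150) (.e (nat_lit 770057) (nat_lit 5) (.e (nat_lit 1589) (nat_lit 111) (.e (nat_lit 360449) (nat_lit 0) (.e (nat_lit 7124) (nat_lit 382) (.e (nat_lit 7936) (nat_lit 90) .nil))))))) (.g (nat_lit 4) .nil .nil)))) (.nd (nat_lit 5) 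
(.lf (nat_lit 208087) (.g (nat_lit 2251) (.e (nat_lit 81938) (nat_lit 20) (.e (nat_lit 2280) (nat_lit 150) (.e (nat_lit 770055) (nat_lit 5) (.e (nat_lit 1586) (nat_lit 111) (.e (nat_lit 360450) (nat_lit 0) (.e (nat_lit 7119) (nat_lit 382) (.e (nat_lit 7936) (nat_lit 90) .nil))))))) (.g (nat_lit 5) .nil .nil))) 
(.lf (nat_lit 208119) (.g (nat_lit 2403) (.e (nat_lit 81938) (nat_lit 20) (.e (nat_lit 2280) (nat_lit 150) (.e (nat_lit 770071) (nat_lit 8) (.e (nat_lit 65617) (nat_lit 10) (.e (nat_lit 344091) (nat_lit 18) (.e (nat_lit 7124) (nat_lit 382) (.e (nat_lit 7936) (nat_lit 90) .nil))))))) (.g (nat_lit 5) .nil .nil))))) (.nd (nat_lit 4) (.nd (nat_lit 5) 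
(.lf (nat_lit 208079) (.g (nat_lit 1915) (.e (nat_lit 81938) (nat_lit 20) (.e (nat_lit 2279) (nat_lit 150) (.e (nat_lit 770071) (nat_lit 8) (.e (nat_lit 65619) (nat_lit 10) (.e (nat_lit 344097) (nat_lit 18) (.e (nat_lit 7147) (nat_lit 382) (.e (nat_lit 1216) (nat_lit 90) .nil))))))) (.g (nat_lit 5) .nil .nil))) 
(.lf (nat_lit 208111) (.g (nat_lit 2402) (.e (nat_lit 81938) (nat_lit 20) (.e (nat_lit 2280) (nat_lit 150) (.e (nat_lit 770071) (nat_lit 8) (.e (nat_lit 65610) (nat_lit 10) (.e (nat_lit 344090) (nat_lit 18) (.e (nat_lit 7119) (nat_lit 382) (.e (nat_lit 7936) (nat_lit 90) .nil))))))) (.g (nat_lit 5) .nil .nil)))) (.nd (nat_lit 5) 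
(.lf (nat_lit 208095) (.g (nat_lit 1409) (.e (nat_lit 81938) (nat_lit 20) (.e (nat_lit 2280) (nat_lit 150) (.e (nat_lit 770055) (nat_lit 5) (.e (nat_lit 1598) (nat_lit 111) (.e (nat_lit 360449) (nat_lit 0) (.e (nat_lit 7119) (nat_lit 382) (.e (nat_lit 7936) (nat_lit 90) .nil))))))) (.g (nat_lit 4) .nil .nil))) 
(.lf (nat_lit 208127) (.g (nat_lit 2445) (.e (nat_lit 81938) (nat_lit 20) (.e (nat_lit 2280) (nat_lit 150) (.e (nat_lit 770071) (nat_lit 8) (.e (nat_lit 65619) (nat_lit 10) (.e (nat_lit 344174) (nat_lit 42) (.e (nat_lit 769792) (nat_lit 10) .nil)))))) (.g (nat_lit 5) .nil .nil)))))))))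

noncomputable def tv2745 : DT := (.nd (nat_lit 0) (.nd (nat_lit 1) (.nd (nat_lit 2) (.nd (nat_lit 3) (.nd (nat_lit 4) (.nd (nat_lit 5) 
(.lf (nat_lit 208128) (.g (nat_lit 1844) (.e (nat_lit 81938) (nat_lit 20) (.e (nat_lit 2280) (nat_lit 150) (.e (nat_lit 770071) (nat_lit 8) (.e (nat_lit 65620) (nat_lit 10) (.e (nat_lit 344174) (nat_lit 42) (.e (nat_lit 769792) (nat_lit 10) .nil)))))) (.g (nat_lit 5) .nil .nil))) 
(.lf (nat_lit 208160) (.g (nat_lit 2305) (.e (nat_lit 81938) (nat_lit 20) (.e (nat_lit 2281) (nat_lit 150) (.e (nat_lit 770056) (nat_lit 5) (.e (nat_lit 1598) (nat_lit 111) (.e (nat_lit 360449) (nat_lit 0) (.e (nat_lit 7122) (nat_lit 382) (.e (nat_lit 7936) (nat_lit 90) .nil))))))) (.g (nat_lit 6) .nil .nil)))) (.nd (nat_lit 5) 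
(.lf (nat_lit 208144) (.g (nat_lit 2169) (.e (nat_lit 81938) (nat_lit 20) (.e (nat_lit 2280) (nat_lit 150) (.e (nat_lit 770072) (nat_lit 8) (.e (nat_lit 65617) (nat_lit 10) (.e (nat_lit 344095) (nat_lit 18) (.e (nat_lit 7119) (nat_lit 382) (.e (nat_lit 7936) (nat_lit 90) .nil))))))) (.g (nat_lit 5) .nil .nil))) 
(.lf (nat_lit 208176) (.g (nat_lit 1874) (.e (nat_lit 81938) (nat_lit 20) (.e (nat_lit 2281) (nat_lit 150) (.e (nat_lit 770057) (nat_lit 5) (.e (nat_lit 1595) (nat_lit 111) (.e (nat_lit 360488) (nat_lit 20) (.e (nat_lit 769792) (nat_lit 10) .nil)))))) (.g (nat_lit 5) .nil .nil))))) (.nd (nat_lit 4) (.nd (nat_lit 5) 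
(.lf (nat_lit 208136) (.g (nat_lit 2291) (.e (nat_lit 81938) (nat_lit 20) (.e (nat_lit 2280) (nat_lit 150) (.e (nat_lit 770072) (nat_lit 8) (.e (nat_lit 65610) (nat_lit 10) (.e (nat_lit 344174) (nat_lit 42) (.e (nat_lit 769792) (nat_lit 10) .nil)))))) (.g (nat_lit 5) .nil .nil))) 
(.lf (nat_lit 208168) (.g (nat_lit 1608) (.e (nat_lit 81938) (nat_lit 20) (.e (nat_lit 2281) (nat_lit 150) (.e (nat_lit 770057) (nat_lit 5) (.e (nat_lit 1586) (nat_lit 111) (.e (nat_lit 360451) (nat_lit 0) (.e (nat_lit 7132) (nat_lit 382) (.e (nat_lit 7936) (nat_lit 90) .nil))))))) (.g (nat_lit 4) .nil .nil)))) (.nd (nat_lit 5) 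
(.lf (nat_lit 208152) (.g (nat_lit 1908) (.e (nat_lit 81938) (nat_lit 20) (.e (nat_lit 2280) (nat_lit 150) (.e (nat_lit 770072) (nat_lit 8) (.e (nat_lit 65620) (nat_lit 10) (.e (nat_lit 344174) (nat_lit 42) (.e (nat_lit 769792) (nat_lit 10) .nil)))))) (.g (nat_lit 5) .nil .nil))) 
(.lf (nat_lit 208184) (.g (nat_lit 2821) (.e (nat_lit 81938) (nat_lit 20) (.e (nat_lit 2281) (nat_lit 150) (.e (nat_lit 770058) (nat_lit 5) (.e (nat_lit 1586) (nat_lit 111) (.e (nat_lit 360450) (nat_lit 0) (.e (nat_lit 7119) (nat_lit 382) (.e (nat_lit 7936) (nat_lit 90) .nil))))))) (.g (nat_lit 6) .nil .nil)))))) (.nd (nat_lit 3) (.nd (nat_lit 4) (.nd (nat_lit 5) 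
(.lf (nat_lit 208132) (.g (nat_lit 2222) (.e (nat_lit 81938) (nat_lit 20) (.e (nat_lit 2280) (nat_lit 150) (.e (nat_lit 770072) (nat_lit 8) (.e (nat_lit 65610) (nat_lit 10) (.e (nat_lit 344090) (nat_lit 18) (.e (nat_lit 7122) (nat_lit 382) (.e (nat_lit 7936) (nat_lit 90) .nil))))))) (.g (nat_lit 5) .nil .nil))) 
(.lf (nat_lit 208164) (.g (nat_lit 2627) (.e (nat_lit 81938) (nat_lit 20) (.e (nat_lit 2281) (nat_lit 150) (.e (nat_lit 770057) (nat_lit 5) (.e (nat_lit 1586) (nat_lit 111) (.e (nat_lit 360450) (nat_lit 0) (.e (nat_lit 7119) (nat_lit 382) (.e (nat_lit 7936) (nat_lit 90) .nil))))))) (.g (nat_lit 6) .nil .nil)))) (.nd (nat_lit 5) 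
(.lf (nat_lit 208148) (.g (nat_lit 2612) (.e (nat_lit 81938) (nat_lit 20) (.e (nat_lit 2280) (nat_lit 150) (.e (nat_lit 770072) (nat_lit 8) (.e (nat_lit 65617) (nat_lit 10) (.e (nat_lit 344096) (nat_lit 18) (.e (nat_lit 7124) (nat_lit 382) (.e (nat_lit 7936) (nat_lit 90) .nil))))))) (.g (nat_lit 5) .nil .nil))) 
(.lf (nat_lit 208180) (.g (nat_lit 2756) (.e (nat_lit 81938) (nat_lit 20) (.e (nat_lit 2281) (nat_lit 150) (.e (nat_lit 770057) (nat_lit 5) (.e (nat_lit 1598) (nat_lit 111) (.e (nat_lit 360452) (nat_lit 0) (.e (nat_lit 7147) (nat_lit 382) (.e (nat_lit 1216) (nat_lit 90) .nil))))))) (.g (nat_lit 0) .nil .nil))))) (.nd (nat_lit 4) (.nd (nat_lit 5) 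
(.lf (nat_lit 208140) (.g (nat_lit 3034) (.e (nat_lit 81938) (nat_lit 20) (.e (nat_lit 2280) (nat_lit 150) (.e (nat_lit 770072) (nat_lit 8) (.e (nat_lit 65616) (nat_lit 10) (.e (nat_lit 344177) (nat_lit 43) (.e (nat_lit 770074) (nat_lit 10) .nil)))))) (.g (nat_lit 6) .nil .nil))) 
(.lf (nat_lit 208172) (.g (nat_lit 2183) (.e (nat_lit 81938) (nat_lit 20) (.e (nat_lit 2281) (nat_lit 150) (.e (nat_lit 770057) (nat_lit 5) (.e (nat_lit 1589) (nat_lit 111) (.e (nat_lit 360488) (nat_lit 20) (.e (nat_lit 769792) (nat_lit 10) .nil)))))) (.g (nat_lit 5) .nil .nil)))) (.nd (nat_lit 5) 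
(.lf (nat_lit 208156) (.g (nat_lit 1710) (.e (nat_lit 81938) (nat_lit 20) (.e (nat_lit 2280) (nat_lit 150) (.e (nat_lit 770074) (nat_lit 10) (.e (nat_lit 81949) (nat_lit 21) (.e (nat_lit 57655) (nat_lit 152) (.e (nat_lit 1216) (nat_lit 90) .nil)))))) (.g (nat_lit 4) .nil .nil))) 
(.lf (nat_lit 208188) (.g (nat_lit 1910) (.e (nat_lit 81938) (nat_lit 20) (.e (nat_lit 2281) (nat_lit 150) (.e (nat_lit 770058) (nat_lit 5) (.e (nat_lit 1586) (nat_lit 111) (.e (nat_lit 360451) (nat_lit 0) (.e (nat_lit 7132) (nat_lit 382) (.e (nat_lit 7936) (nat_lit 90) .nil))))))) (.g (nat_lit 4) .nil .nil))))))) (.nd (nat_lit 2) (.nd (nat_lit 3) (.nd (nat_lit 4) (.nd (nat_lit 5) 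
(.lf (nat_lit 208130) (.g (nat_lit 1738) (.e (nat_lit 81938) (nat_lit 20) (.e (nat_lit 2280) (nat_lit 150) (.e (nat_lit 770072) (nat_lit 8) (.e (nat_lit 65583) (nat_lit 7) (.e (nat_lit 319516) (nat_lit 11) .nil))))) .nil)) 
(.lf (nat_lit 208162) (.g (nat_lit 2812) (.e (nat_lit 81938) (nat_lit 20) (.e (nat_lit 2281) (nat_lit 150) (.e (nat_lit 770056) (nat_lit 5) (.e (nat_lit 1598) (nat_lit 111) (.e (nat_lit 360452) (nat_lit 0) (.e (nat_lit 7147) (nat_lit 382) (.e (nat_lit 1216) (nat_lit 90) .nil))))))) (.g (nat_lit 0) .nil .nil)))) (.nd (nat_lit 5) 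
(.lf (nat_lit 208146) (.g (nat_lit 2898) (.e (nat_lit 81938) (nat_lit 20) (.e (nat_lit 2280) (nat_lit 150) (.e (nat_lit 770072) (nat_lit 8) (.e (nat_lit 65617) (nat_lit 10) (.e (nat_lit 344096) (nat_lit 18) (.e (nat_lit 7119) (nat_lit 382) (.e (nat_lit 7936) (nat_lit 90) .nil))))))) (.g (nat_lit 5) .nil .nil))) 
(.lf (nat_lit 208178) (.g (nat_lit 2327) (.e (nat_lit 81938) (nat_lit 20) (.e (nat_lit 2281) (nat_lit 150) (.e (nat_lit 770057) (nat_lit 5) (.e (nat_lit 1598) (nat_lit 111) (.e (nat_lit 360449) (nat_lit 0) (.e (nat_lit 7122) (nat_lit 382) (.e (nat_lit 7936) (nat_lit 90) .nil))))))) (.g (nat_lit 6) .nil .nil))))) (.nd (nat_lit 4) (.nd (nat_lit 5) 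
(.lf (nat_lit 208138) (.g (nat_lit 1905) (.e (nat_lit 81938) (nat_lit 20) (.e (nat_lit 2280) (nat_lit 150) (.e (nat_lit 770072) (nat_lit 8) (.e (nat_lit 65611) (nat_lit 10) (.e (nat_lit 344174) (nat_lit 42) (.e (nat_lit 769792) (nat_lit 10) .nil)))))) (.g (nat_lit 5) .nil .nil))) 
(.lf (nat_lit 208170) (.g (nat_lit 2686) (.e (nat_lit 81938) (nat_lit 20) (.e (nat_lit 2281) (nat_lit 150) (.e (nat_lit 770057) (nat_lit 5) (.e (nat_lit 1589) (nat_lit 111) (.e (nat_lit 360449) (nat_lit 0) (.e (nat_lit 7122) (nat_lit 382) (.e (nat_lit 7936) (nat_lit 90) .nil))))))) (.g (nat_lit 6) .nil .nil)))) (.nd (nat_lit 5) 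
(.lf (nat_lit 208154) (.g (nat_lit 1353) (.e (nat_lit 81938) (nat_lit 20) (.e (nat_lit 2280) (nat_lit 150) (.e (nat_lit 770074) (nat_lit 10) (.e (nat_lit 81938) (nat_lit 20) (.e (nat_lit 2280) (nat_lit 150) .nil))))) .nil)) 
(.lf (nat_lit 208186) (.g (nat_lit 2454) (.e (nat_lit 81938) (nat_lit 20) (.e (nat_lit 2281) (nat_lit 150) (.e (nat_lit 770058) (nat_lit 5) (.e (nat_lit 1586) (nat_lit 111) (.e (nat_lit 360451) (nat_lit 0) (.e (nat_lit 7119) (nat_lit 382) (.e (nat_lit 7936) (nat_lit 90) .nil))))))) (.g (nat_lit 5) .nil .nil)))))) (.nd (nat_lit 3) (.nd (nat_lit 4) (.nd (nat_lit 5) 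
(.lf (nat_lit 208134) (.g (nat_lit 2698) (.e (nat_lit 81938) (nat_lit 20) (.e (nat_lit 2280) (nat_lit 150) (.e (nat_lit 770072) (nat_lit 8) (.e (nat_lit 65610) (nat_lit 10) (.e (nat_lit 344097) (nat_lit 18) (.e (nat_lit 7145) (nat_lit 382) (.e (nat_lit 1216) (nat_lit 90) .nil))))))) (.g (nat_lit 5) .nil .nil))) 
(.lf (nat_lit 208166) (.g (nat_lit 2152) (.e (nat_lit 81938) (nat_lit 20) (.e (nat_lit 2281) (nat_lit 150) (.e (nat_lit 770057) (nat_lit 5) (.e (nat_lit 1586) (nat_lit 111) (.e (nat_lit 360451) (nat_lit 0) (.e (nat_lit 7119) (nat_lit 382) (.e (nat_lit 7936) (nat_lit 90) .nil))))))) (.g (nat_lit 5) .nil .nil)))) (.nd (nat_lit 5) 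
(.lf (nat_lit 208150) (.g (nat_lit 1952) (.e (nat_lit 81938) (nat_lit 20) (.e (nat_lit 2280) (nat_lit 150) (.e (nat_lit 770072) (nat_lit 8) (.e (nat_lit 65619) (nat_lit 10) (.e (nat_lit 344090) (nat_lit 18) (.e (nat_lit 7124) (nat_lit 382) (.e (nat_lit 7936) (nat_lit 90) .nil))))))) (.g (nat_lit 4) .nil .nil))) 
(.lf (nat_lit 208182) (.g (nat_lit 1504) (.e (nat_lit 81938) (nat_lit 20) (.e (nat_lit 2281) (nat_lit 150) (.e (nat_lit 770057) (nat_lit 5) (.e (nat_lit 1599) (nat_lit 111) (.e (nat_lit 360488) (nat_lit 20) (.e (nat_lit 769792) (nat_lit 10) .nil)))))) (.g (nat_lit 5) .nil .nil))))) (.nd (nat_lit 4) (.nd (nat_lit 5) 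
(.lf (nat_lit 208142) (.g (nat_lit 2767) (.e (nat_lit 81938) (nat_lit 20) (.e (nat_lit 2280) (nat_lit 150) (.e (nat_lit 770072) (nat_lit 8) (.e (nat_lit 65617) (nat_lit 10) (.e (nat_lit 344091) (nat_lit 18) (.e (nat_lit 7122) (nat_lit 382) (.e (nat_lit 7936) (nat_lit 90) .nil))))))) (.g (nat_lit 5) .nil .nil))) 
(.lf (nat_lit 208174) (.g (nat_lit 1534) (.e (nat_lit 81938) (nat_lit 20) (.e (nat_lit 2281) (nat_lit 150) (.e (nat_lit 770057) (nat_lit 5) (.e (nat_lit 1595) (nat_lit 111) (.e (nat_lit 360449) (nat_lit 0) (.e (nat_lit 7124) (nat_lit 382) (.e (nat_lit 7936) (nat_lit 90) .nil))))))) (.g (nat_lit 4) .nil .nil)))) (.nd (nat_lit 5) 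
(.lf (nat_lit 208158) (.g (nat_lit 2293) (.e (nat_lit 81938) (nat_lit 20) (.e (nat_lit 2281) (nat_lit 150) (.e (nat_lit 770054) (nat_lit 5) (.e (nat_lit 1615) (nat_lit 113) (.e (nat_lit 376860) (nat_lit 21) (.e (nat_lit 57665) (nat_lit 152) (.e (nat_lit 7936) (nat_lit 90) .nil))))))) (.g (nat_lit 6) .nil .nil))) 
(.lf (nat_lit 208190) (.g (nat_lit 2273) (.e (nat_lit 81938) (nat_lit 20) (.e (nat_lit 2281) (nat_lit 150) (.e (nat_lit 770058) (nat_lit 5) (.e (nat_lit 1589) (nat_lit 111) (.e (nat_lit 360449) (nat_lit 0) (.e (nat_lit 7119) (nat_lit 382) (.e (nat_lit 7936) (nat_lit 90) .nil))))))) (.g (nat_lit 5) .nil .nil)))))))) 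
(.nd (nat_lit 1) (.nd (nat_lit 2) (.nd (nat_lit 3) (.nd (nat_lit 4) (.nd (nat_lit 5) 
(.lf (nat_lit 208129) (.g (nat_lit 1481) (.e (nat_lit 81938) (nat_lit 20) (.e (nat_lit 2280) (nat_lit 150) (.e (nat_lit 770071) (nat_lit 8) (.e (nat_lit 65630) (nat_lit 14) (.e (nat_lit 401412) (nat_lit 0) .nil))))) .nil)) 
(.lf (nat_lit 208161) (.g (nat_lit 1700) (.e (nat_lit 81938) (nat_lit 20) (.e (nat_lit 2281) (nat_lit 150) (.e (nat_lit 770056) (nat_lit 5) (.e (nat_lit 1598) (nat_lit 111) (.e (nat_lit 360449) (nat_lit 0) (.e (nat_lit 7124) (nat_lit 382) (.e (nat_lit 7936) (nat_lit 90) .nil))))))) (.g (nat_lit 5) .nil .nil)))) (.nd (nat_lit 5) 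
(.lf (nat_lit 208145) (.g (nat_lit 2662) (.e (nat_lit 81938) (nat_lit 20) (.e (nat_lit 2280) (nat_lit 150) (.e (nat_lit 770072) (nat_lit 8) (.e (nat_lit 65617) (nat_lit 10) (.e (nat_lit 344095) (nat_lit 18) (.e (nat_lit 7122) (nat_lit 382) (.e (nat_lit 7936) (nat_lit 90) .nil))))))) (.g (nat_lit 6) .nil .nil))) 
(.lf (nat_lit 208177) (.g (nat_lit 1762) (.e (nat_lit 81938) (nat_lit 20) (.e (nat_lit 2281) (nat_lit 150) (.e (nat_lit 770057) (nat_lit 5) (.e (nat_lit 1598) (nat_lit 111) (.e (nat_lit 360449) (nat_lit 0) (.e (nat_lit 7119) (nat_lit 382) (.e (nat_lit 7936) (nat_lit 90) .nil))))))) (.g (nat_lit 5) .nil .nil))))) (.nd (nat_lit 4) (.nd (nat_lit 5) 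
(.lf (nat_lit 208137) (.g (nat_lit 1654) (.e (nat_lit 81938) (nat_lit 20) (.e (nat_lit 2280) (nat_lit 150) (.e (nat_lit 770072) (nat_lit 8) (.e (nat_lit 65610) (nat_lit 10) (.e (nat_lit 344175) (nat_lit 43) .nil))))) .nil)) 
(.lf (nat_lit 208169) (.g (nat_lit 2052) (.e (nat_lit 81938) (nat_lit 20) (.e (nat_lit 2281) (nat_lit 150) (.e (nat_lit 770057) (nat_lit 5) (.e (nat_lit 1589) (nat_lit 111) (.e (nat_lit 360449) (nat_lit 0) (.e (nat_lit 7119) (nat_lit 382) (.e (nat_lit 7936) (nat_lit 90) .nil))))))) (.g (nat_lit 5) .nil .nil)))) (.nd (nat_lit 5) 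
(.lf (nat_lit 208153) (.g (nat_lit 3144) (.e (nat_lit 81938) (nat_lit 20) (.e (nat_lit 2280) (nat_lit 150) (.e (nat_lit 770072) (nat_lit 8) (.e (nat_lit 65620) (nat_lit 10) (.e (nat_lit 344177) (nat_lit 43) (.e (nat_lit 770074) (nat_lit 10) .nil)))))) (.g (nat_lit 6) .nil .nil))) 
(.lf (nat_lit 208185) (.g (nat_lit 3067) (.e (nat_lit 81938) (nat_lit 20) (.e (nat_lit 2281) (nat_lit 150) (.e (nat_lit 770058) (nat_lit 5) (.e (nat_lit 1586) (nat_lit 111) (.e (nat_lit 360450) (nat_lit 0) (.e (nat_lit 7122) (nat_lit 382) (.e (nat_lit 7936) (nat_lit 90) .nil))))))) (.g (nat_lit 6) .nil .nil)))))) (.nd (nat_lit 3) (.nd (nat_lit 4) (.nd (nat_lit 5) 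
(.lf (nat_lit 208133) (.g (nat_lit 2276) (.e (nat_lit 81938) (nat_lit 20) (.e (nat_lit 2280) (nat_lit 150) (.e (nat_lit 770072) (nat_lit 8) (.e (nat_lit 65610) (nat_lit 10) (.e (nat_lit 344090) (nat_lit 18) (.e (nat_lit 7124) (nat_lit 382) (.e (nat_lit 7936) (nat_lit 90) .nil))))))) (.g (nat_lit 5) .nil .nil))) 
(.lf (nat_lit 208165) (.g (nat_lit 2871) (.e (nat_lit 81938) (nat_lit 20) (.e (nat_lit 2281) (nat_lit 150) (.e (nat_lit 770057) (nat_lit 5) (.e (nat_lit 1586) (nat_lit 111) (.e (nat_lit 360450) (nat_lit 0) (.e (nat_lit 7122) (nat_lit 382) (.e (nat_lit 7936) (nat_lit 90) .nil))))))) (.g (nat_lit 6) .nil .nil)))) (.nd (nat_lit 5) 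
(.lf (nat_lit 208149) (.g (nat_lit 2199) (.e (nat_lit 81938) (nat_lit 20) (.e (nat_lit 2280) (nat_lit 150) (.e (nat_lit 770072) (nat_lit 8) (.e (nat_lit 65617) (nat_lit 10) (.e (nat_lit 344174) (nat_lit 42) (.e (nat_lit 769792) (nat_lit 10) .nil)))))) (.g (nat_lit 5) .nil .nil))) 
(.lf (nat_lit 208181) (.g (nat_lit 1654) (.e (nat_lit 81938) (nat_lit 20) (.e (nat_lit 2281) (nat_lit 150) (.e (nat_lit 770057) (nat_lit 5) (.e (nat_lit 1598) (nat_lit 111) (.e (nat_lit 360488) (nat_lit 20) (.e (nat_lit 769792) (nat_lit 10) .nil)))))) (.g (nat_lit 5) .nil .nil))))) (.nd (nat_lit 4) (.nd (nat_lit 5) 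
(.lf (nat_lit 208141) (.g (nat_lit 2758) (.e (nat_lit 81938) (nat_lit 20) (.e (nat_lit 2280) (nat_lit 150) (.e (nat_lit 770072) (nat_lit 8) (.e (nat_lit 65617) (nat_lit 10) (.e (nat_lit 344091) (nat_lit 18) (.e (nat_lit 7119) (nat_lit 382) (.e (nat_lit 7936) (nat_lit 90) .nil))))))) (.g (nat_lit 5) .nil .nil))) 
(.lf (nat_lit 208173) (.g (nat_lit 1630) (.e (nat_lit 81938) (nat_lit 20) (.e (nat_lit 2281) (nat_lit 150) (.e (nat_lit 770057) (nat_lit 5) (.e (nat_lit 1595) (nat_lit 111) (.e (nat_lit 360449) (nat_lit 0) (.e (nat_lit 7119) (nat_lit 382) (.e (nat_lit 7936) (nat_lit 90) .nil))))))) (.g (nat_lit 4) .nil .nil)))) (.nd (nat_lit 5) 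
(.lf (nat_lit 208157) (.g (nat_lit 1967) (.e (nat_lit 81938) (nat_lit 20) (.e (nat_lit 2280) (nat_lit 150) (.e (nat_lit 770074) (nat_lit 10) (.e (nat_lit 81959) (nat_lit 24) (.e (nat_lit 123048) (nat_lit 152) (.e (nat_lit 1216) (nat_lit 90) .nil)))))) (.g (nat_lit 4) .nil .nil))) 
(.lf (nat_lit 208189) (.g (nat_lit 2752) (.e (nat_lit 81938) (nat_lit 20) (.e (nat_lit 2281) (nat_lit 150) (.e (nat_lit 770058) (nat_lit 5) (.e (nat_lit 1586) (nat_lit 111) (.e (nat_lit 360489) (nat_lit 21) (.e (nat_lit 770074) (nat_lit 10) .nil)))))) (.g (nat_lit 0) .nil .nil))))))) (.nd (nat_lit 2) (.nd (nat_lit 3) (.nd (nat_lit 4) (.nd (nat_lit 5) 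
(.lf (nat_lit 208131) (.g (nat_lit 2532) (.e (nat_lit 81938) (nat_lit 20) (.e (nat_lit 2280) (nat_lit 150) (.e (nat_lit 770072) (nat_lit 8) (.e (nat_lit 65610) (nat_lit 10) (.e (nat_lit 344090) (nat_lit 18) (.e (nat_lit 7119) (nat_lit 382) (.e (nat_lit 7936) (nat_lit 90) .nil))))))) (.g (nat_lit 5) .nil .nil))) 
(.lf (nat_lit 208163) (.g (nat_lit 1634) (.e (nat_lit 81938) (nat_lit 20) (.e (nat_lit 2281) (nat_lit 150) (.e (nat_lit 770056) (nat_lit 5) (.e (nat_lit 1598) (nat_lit 111) (.e (nat_lit 360488) (nat_lit 20) (.e (nat_lit 769792) (nat_lit 10) .nil)))))) (.g (nat_lit 5) .nil .nil)))) (.nd (nat_lit 5) 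
(.lf (nat_lit 208147) (.g (nat_lit 3336) (.e (nat_lit 81938) (nat_lit 20) (.e (nat_lit 2280) (nat_lit 150) (.e (nat_lit 770072) (nat_lit 8) (.e (nat_lit 65617) (nat_lit 10) (.e (nat_lit 344096) (nat_lit 18) (.e (nat_lit 7122) (nat_lit 382) (.e (nat_lit 7936) (nat_lit 90) .nil))))))) (.g (nat_lit 6) .nil .nil))) 
(.lf (nat_lit 208179) (.g (nat_lit 1725) (.e (nat_lit 81938) (nat_lit 20) (.e (nat_lit 2281) (nat_lit 150) (.e (nat_lit 770057) (nat_lit 5) (.e (nat_lit 1598) (nat_lit 111) (.e (nat_lit 360449) (nat_lit 0) (.e (nat_lit 7124) (nat_lit 382) (.e (nat_lit 7936) (nat_lit 90) .nil))))))) (.g (nat_lit 6) .nil .nil))))) (.nd (nat_lit 4) (.nd (nat_lit 5) 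
(.lf (nat_lit 208139) (.g (nat_lit 1863) (.e (nat_lit 81938) (nat_lit 20) (.e (nat_lit 2280) (nat_lit 150) (.e (nat_lit 770072) (nat_lit 8) (.e (nat_lit 65616) (nat_lit 10) (.e (nat_lit 344174) (nat_lit 42) (.e (nat_lit 769792) (nat_lit 10) .nil)))))) (.g (nat_lit 5) .nil .nil))) 
(.lf (nat_lit 208171) (.g (nat_lit 2052) (.e (nat_lit 81938) (nat_lit 20) (.e (nat_lit 2281) (nat_lit 150) (.e (nat_lit 770057) (nat_lit 5) (.e (nat_lit 1589) (nat_lit 111) (.e (nat_lit 360449) (nat_lit 0) (.e (nat_lit 7124) (nat_lit 382) (.e (nat_lit 7936) (nat_lit 90) .nil))))))) (.g (nat_lit 5) .nil .nil)))) (.nd (nat_lit 5) 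
(.lf (nat_lit 208155) (.g (nat_lit 1641) (.e (nat_lit 81938) (nat_lit 20) (.e (nat_lit 2280) (nat_lit 150) (.e (nat_lit 770074) (nat_lit 10) (.e (nat_lit 81948) (nat_lit 21) (.e (nat_lit 57655) (nat_lit 152) (.e (nat_lit 1216) (nat_lit 90) .nil)))))) (.g (nat_lit 4) .nil .nil))) 
(.lf (nat_lit 208187) (.g (nat_lit 2815) (.e (nat_lit 81938) (nat_lit 20) (.e (nat_lit 2281) (nat_lit 150) (.e (nat_lit 770058) (nat_lit 5) (.e (nat_lit 1586) (nat_lit 111) (.e (nat_lit 360451) (nat_lit 0) (.e (nat_lit 7124) (nat_lit 382) (.e (nat_lit 7936) (nat_lit 90) .nil))))))) (.g (nat_lit 6) .nil .nil)))))) (.nd (nat_lit 3) (.nd (nat_lit 4) (.nd (nat_lit 5) 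
(.lf (nat_lit 208135) (.g (nat_lit 1964) (.e (nat_lit 81938) (nat_lit 20) (.e (nat_lit 2280) (nat_lit 150) (.e (nat_lit 770072) (nat_lit 8) (.e (nat_lit 65610) (nat_lit 10) (.e (nat_lit 344173) (nat_lit 42) (.e (nat_lit 769792) (nat_lit 10) .nil)))))) (.g (nat_lit 4) .nil .nil))) 
(.lf (nat_lit 208167) (.g (nat_lit 2489) (.e (nat_lit 81938) (nat_lit 20) (.e (nat_lit 2281) (nat_lit 150) (.e (nat_lit 770057) (nat_lit 5) (.e (nat_lit 1586) (nat_lit 111) (.e (nat_lit 360451) (nat_lit 0) (.e (nat_lit 7124) (nat_lit 382) (.e (nat_lit 7936) (nat_lit 90) .nil))))))) (.g (nat_lit 6) .nil .nil)))) (.nd (nat_lit 5) 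
(.lf (nat_lit 208151) (.g (nat_lit 2237) (.e (nat_lit 81938) (nat_lit 20) (.e (nat_lit 2280) (nat_lit 150) (.e (nat_lit 770072) (nat_lit 8) (.e (nat_lit 65619) (nat_lit 10) (.e (nat_lit 344174) (nat_lit 42) (.e (nat_lit 769792) (nat_lit 10) .nil)))))) (.g (nat_lit 5) .nil .nil))) 
(.lf (nat_lit 208183) (.g (nat_lit 810) (.e (nat_lit 81938) (nat_lit 20) (.e (nat_lit 2281) (nat_lit 150) (.e (nat_lit 770058) (nat_lit 5) (.e (nat_lit 1586) (nat_lit 111) .nil)))) .nil)))) (.nd (nat_lit 4) (.nd (nat_lit 5) 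
(.lf (nat_lit 208143) (.g (nat_lit 2400) (.e (nat_lit 81938) (nat_lit 20) (.e (nat_lit 2280) (nat_lit 150) (.e (nat_lit 770072) (nat_lit 8) (.e (nat_lit 65617) (nat_lit 10) (.e (nat_lit 344091) (nat_lit 18) (.e (nat_lit 7124) (nat_lit 382) (.e (nat_lit 7936) (nat_lit 90) .nil))))))) (.g (nat_lit 5) .nil .nil))) 
(.lf (nat_lit 208175) (.g (nat_lit 2628) (.e (nat_lit 81938) (nat_lit 20) (.e (nat_lit 2281) (nat_lit 150) (.e (nat_lit 770057) (nat_lit 5) (.e (nat_lit 1595) (nat_lit 111) (.e (nat_lit 360453) (nat_lit 0) (.e (nat_lit 7147) (nat_lit 382) (.e (nat_lit 1216) (nat_lit 90) .nil))))))) (.g (nat_lit 0) .nil .nil)))) (.nd (nat_lit 5) 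
(.lf (nat_lit 208159) (.g (nat_lit 1737) (.e (nat_lit 81938) (nat_lit 20) (.e (nat_lit 2281) (nat_lit 150) (.e (nat_lit 770056) (nat_lit 5) (.e (nat_lit 1598) (nat_lit 111) (.e (nat_lit 360449) (nat_lit 0) (.e (nat_lit 7119) (nat_lit 382) (.e (nat_lit 7936) (nat_lit 90) .nil))))))) (.g (nat_lit 5) .nil .nil))) 
(.lf (nat_lit 208191) (.g (nat_lit 2898) (.e (nat_lit 81938) (nat_lit 20) (.e (nat_lit 2281) (nat_lit 150) (.e (nat_lit 770058) (nat_lit 5) (.e (nat_lit 1589) (nat_lit 111) (.e (nat_lit 360449) (nat_lit 0) (.e (nat_lit 7122) (nat_lit 382) (.e (nat_lit 7936) (nat_lit 90) .nil))))))) (.g (nat_lit 6) .nil .nil)))))))))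

noncomputable def tv2746 : DT := (.nd (nat_lit 0) (.nd (nat_lit 1) (.nd (nat_lit 2) (.nd (nat_lit 3) (.nd (nat_lit 4) (.nd (nat_lit 5) 
(.lf (nat_lit 208192) (.g (nat_lit 2269) (.e (nat_lit 81938) (nat_lit 20) (.e (nat_lit 2281) (nat_lit 150) (.e (nat_lit 770058) (nat_lit 5) (.e (nat_lit 1589) (nat_lit 111) (.e (nat_lit 360449) (nat_lit 0) (.e (nat_lit 7124) (nat_lit 382) (.e (nat_lit 7936) (nat_lit 90) .nil))))))) (.g (nat_lit 5) .nil .nil))) 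
(.lf (nat_lit 208224) (.g (nat_lit 3277) (.e (nat_lit 81938) (nat_lit 20) (.e (nat_lit 2281) (nat_lit 150) (.e (nat_lit 770072) (nat_lit 8) (.e (nat_lit 65617) (nat_lit 10) (.e (nat_lit 344091) (nat_lit 18) (.e (nat_lit 7122) (nat_lit 382) (.e (nat_lit 7936) (nat_lit 90) .nil))))))) (.g (nat_lit 6) .nil .nil)))) (.nd (nat_lit 5) 
(.lf (nat_lit 208208) (.g (nat_lit 347) (.e (nat_lit 81938) (nat_lit 20) (.e (nat_lit 2281) (nat_lit 150) (.e (nat_lit 770072) (nat_lit 8) .nil))) .nil)) 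
(.lf (nat_lit 208240) (.g (nat_lit 2449) (.e (nat_lit 81938) (nat_lit 20) (.e (nat_lit 2281) (nat_lit 150) (.e (nat_lit 770072) (nat_lit 8) (.e (nat_lit 65620) (nat_lit 10) (.e (nat_lit 344174) (nat_lit 42) (.e (nat_lit 769792) (nat_lit 10) .nil)))))) (.g (nat_lit 5) .nil .nil))))) (.nd (nat_lit 4) (.nd (nat_lit 5) 
(.lf (nat_lit 208200) (.g (nat_lit 1977) (.e (nat_lit 81938) (nat_lit 20) (.e (nat_lit 2281) (nat_lit 150) (.e (nat_lit 770058) (nat_lit 5) (.e (nat_lit 1595) (nat_lit 111) (.e (nat_lit 360488) (nat_lit 20) (.e (nat_lit 769792) (nat_lit 10) .nil)))))) (.g (nat_lit 5) .nil .nil))) 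
(.lf (nat_lit 208232) (.g (nat_lit 1879) (.e (nat_lit 81938) (nat_lit 20) (.e (nat_lit 2281) (nat_lit 150) (.e (nat_lit 770072) (nat_lit 8) (.e (nat_lit 65617) (nat_lit 10) (.e (nat_lit 344096) (nat_lit 18) (.e (nat_lit 7132) (nat_lit 382) (.e (nat_lit 7936) (nat_lit 90) .nil))))))) (.g (nat_lit 4) .nil .nil)))) (.nd (nat_lit 5) 
(.lf (nat_lit 208216) (.g (nat_lit 2966) (.e (nat_lit 81938) (nat_lit 20) (.e (nat_lit 2281) (nat_lit 150) (.e (nat_lit 770072) (nat_lit 8) (.e (nat_lit 65610) (nat_lit 10) (.e (nat_lit 344097) (nat_lit 18) (.e (nat_lit 7160) (nat_lit 382) (.e (nat_lit 1215) (nat_lit 90) .nil))))))) (.g (nat_lit 5) .nil .nil))) 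
(.lf (nat_lit 208248) (.g (nat_lit 2789) (.e (nat_lit 81938) (nat_lit 20) (.e (nat_lit 2281) (nat_lit 150) (.e (nat_lit 770074) (nat_lit 10) (.e (nat_lit 81950) (nat_lit 21) (.e (nat_lit 57655) (nat_lit 152) (.e (nat_lit 1216) (nat_lit 90) .nil)))))) (.g (nat_lit 0) .nil .nil)))))) (.nd (nat_lit 3) (.nd (nat_lit 4) (.nd (nat_lit 5) 
(.lf (nat_lit 208196) (.g (nat_lit 2970) (.e (nat_lit 81938) (nat_lit 20) (.e (nat_lit 2281) (nat_lit 150) (.e (nat_lit 770058) (nat_lit 5) (.e (nat_lit 1589) (nat_lit 111) (.e (nat_lit 360489) (nat_lit 21) (.e (nat_lit 770074) (nat_lit 10) .nil)))))) (.g (nat_lit 0) .nil .nil))) 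
(.lf (nat_lit 208228) (.g (nat_lit 3048) (.e (nat_lit 81938) (nat_lit 20) (.e (nat_lit 2281) (nat_lit 150) (.e (nat_lit 770072) (nat_lit 8) (.e (nat_lit 65617) (nat_lit 10) (.e (nat_lit 344095) (nat_lit 18) (.e (nat_lit 7122) (nat_lit 382) (.e (nat_lit 7936) (nat_lit 90) .nil))))))) (.g (nat_lit 6) .nil .nil)))) (.nd (nat_lit 5) 
(.lf (nat_lit 208212) (.g (nat_lit 3159) (.e (nat_lit 81938) (nat_lit 20) (.e (nat_lit 2281) (nat_lit 150) (.e (nat_lit 770072) (nat_lit 8) (.e (nat_lit 65610) (nat_lit 10) (.e (nat_lit 344090) (nat_lit 18) (.e (nat_lit 7119) (nat_lit 382) (.e (nat_lit 7936) (nat_lit 90) .nil))))))) (.g (nat_lit 6) .nil .nil))) 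
(.lf (nat_lit 208244) (.g (nat_lit 2325) (.e (nat_lit 81938) (nat_lit 20) (.e (nat_lit 2281) (nat_lit 150) (.e (nat_lit 770072) (nat_lit 8) (.e (nat_lit 65630) (nat_lit 14) (.e (nat_lit 401412) (nat_lit 0) (.e (nat_lit 3454) (nat_lit 216) (.e (nat_lit 688185) (nat_lit 18) .nil))))))) (.g (nat_lit 4) .nil .nil))))) (.nd (nat_lit 4) (.nd (nat_lit 5) 
(.lf (nat_lit 208204) (.g (nat_lit 1813) (.e (nat_lit 81938) (nat_lit 20) (.e (nat_lit 2281) (nat_lit 150) (.e (nat_lit 770058) (nat_lit 5) (.e (nat_lit 1598) (nat_lit 111) (.e (nat_lit 360488) (nat_lit 20) (.e (nat_lit 769792) (nat_lit 10) .nil)))))) (.g (nat_lit 5) .nil .nil))) 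
(.lf (nat_lit 208236) (.g (nat_lit 2495) (.e (nat_lit 81938) (nat_lit 20) (.e (nat_lit 2281) (nat_lit 150) (.e (nat_lit 770072) (nat_lit 8) (.e (nat_lit 65619) (nat_lit 10) (.e (nat_lit 344090) (nat_lit 18) (.e (nat_lit 7124) (nat_lit 382) (.e (nat_lit 7936) (nat_lit 90) .nil))))))) (.g (nat_lit 5) .nil .nil)))) (.nd (nat_lit 5) 
(.lf (nat_lit 208220) (.g (nat_lit 1931) (.e (nat_lit 81938) (nat_lit 20) (.e (nat_lit 2281) (nat_lit 150) (.e (nat_lit 770072) (nat_lit 8) (.e (nat_lit 65610) (nat_lit 10) (.e (nat_lit 344175) (nat_lit 43) .nil))))) .nil)) 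
(.lf (nat_lit 208252) (.g (nat_lit 352) (.e (nat_lit 81938) (nat_lit 20) (.e (nat_lit 2391) (nat_lit 156) (.e (nat_lit 819219) (nat_lit 4) .nil))) .nil)))))) (.nd (nat_lit 2) (.nd (nat_lit 3) (.nd (nat_lit 4) (.nd (nat_lit 5) 
(.lf (nat_lit 208194) (.g (nat_lit 2516) (.e (nat_lit 81938) (nat_lit 20) (.e (nat_lit 2281) (nat_lit 150) (.e (nat_lit 770058) (nat_lit 5) (.e (nat_lit 1589) (nat_lit 111) (.e (nat_lit 360451) (nat_lit 0) (.e (nat_lit 7124) (nat_lit 382) (.e (nat_lit 7936) (nat_lit 90) .nil))))))) (.g (nat_lit 5) .nil .nil))) 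
(.lf (nat_lit 208226) (.g (nat_lit 1977) (.e (nat_lit 81938) (nat_lit 20) (.e (nat_lit 2281) (nat_lit 150) (.e (nat_lit 770072) (nat_lit 8) (.e (nat_lit 65617) (nat_lit 10) (.e (nat_lit 344091) (nat_lit 18) (.e (nat_lit 7132) (nat_lit 382) (.e (nat_lit 7936) (nat_lit 90) .nil))))))) (.g (nat_lit 4) .nil .nil)))) (.nd (nat_lit 5) 
(.lf (nat_lit 208210) (.g (nat_lit 2029) (.e (nat_lit 81938) (nat_lit 20) (.e (nat_lit 2281) (nat_lit 150) (.e (nat_lit 770072) (nat_lit 8) (.e (nat_lit 65598) (nat_lit 9) (.e (nat_lit 335903) (nat_lit 0) .nil))))) .nil)) 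
(.lf (nat_lit 208242) (.g (nat_lit 2067) (.e (nat_lit 81938) (nat_lit 20) (.e (nat_lit 2281) (nat_lit 150) (.e (nat_lit 770072) (nat_lit 8) (.e (nat_lit 65630) (nat_lit 14) (.e (nat_lit 401412) (nat_lit 0) .nil))))) .nil)))) (.nd (nat_lit 4) (.nd (nat_lit 5) 
(.lf (nat_lit 208202) (.g (nat_lit 2663) (.e (nat_lit 81938) (nat_lit 20) (.e (nat_lit 2281) (nat_lit 150) (.e (nat_lit 770058) (nat_lit 5) (.e (nat_lit 1598) (nat_lit 111) (.e (nat_lit 360449) (nat_lit 0) (.e (nat_lit 7122) (nat_lit 382) (.e (nat_lit 7936) (nat_lit 90) .nil))))))) (.g (nat_lit 6) .nil .nil))) 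
(.lf (nat_lit 208234) (.g (nat_lit 2587) (.e (nat_lit 81938) (nat_lit 20) (.e (nat_lit 2281) (nat_lit 150) (.e (nat_lit 770072) (nat_lit 8) (.e (nat_lit 65617) (nat_lit 10) (.e (nat_lit 344174) (nat_lit 42) (.e (nat_lit 769792) (nat_lit 10) .nil)))))) (.g (nat_lit 5) .nil .nil)))) (.nd (nat_lit 5) 
(.lf (nat_lit 208218) (.g (nat_lit 2550) (.e (nat_lit 81938) (nat_lit 20) (.e (nat_lit 2281) (nat_lit 150) (.e (nat_lit 770072) (nat_lit 8) (.e (nat_lit 65610) (nat_lit 10) (.e (nat_lit 344173) (nat_lit 42) (.e (nat_lit 769792) (nat_lit 10) .nil)))))) (.g (nat_lit 4) .nil .nil))) 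
(.lf (nat_lit 208250) (.g (nat_lit 3053) (.e (nat_lit 81938) (nat_lit 20) (.e (nat_lit 2281) (nat_lit 150) (.e (nat_lit 770076) (nat_lit 12) (.e (nat_lit 131116) (nat_lit 9) (.e (nat_lit 335988) (nat_lit 1) (.e (nat_lit 57665) (nat_lit 152) (.e (nat_lit 7936) (nat_lit 90) .nil))))))) (.g (nat_lit 6) .nil .nil)))))) (.nd (nat_lit 3) (.nd (nat_lit 4) (.nd (nat_lit 5) 
(.lf (nat_lit 208198) (.g (nat_lit 1832) (.e (nat_lit 81938) (nat_lit 20) (.e (nat_lit 2281) (nat_lit 150) (.e (nat_lit 770058) (nat_lit 5) (.e (nat_lit 1595) (nat_lit 111) (.e (nat_lit 360449) (nat_lit 0) (.e (nat_lit 7124) (nat_lit 382) (.e (nat_lit 7936) (nat_lit 90) .nil))))))) (.g (nat_lit 4) .nil .nil))) 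
(.lf (nat_lit 208230) (.g (nat_lit 3797) (.e (nat_lit 81938) (nat_lit 20) (.e (nat_lit 2281) (nat_lit 150) (.e (nat_lit 770072) (nat_lit 8) (.e (nat_lit 65617) (nat_lit 10) (.e (nat_lit 344096) (nat_lit 18) (.e (nat_lit 7122) (nat_lit 382) (.e (nat_lit 7936) (nat_lit 90) .nil))))))) (.g (nat_lit 6) .nil .nil)))) (.nd (nat_lit 5) 
(.lf (nat_lit 208214) (.g (nat_lit 2903) (.e (nat_lit 81938) (nat_lit 20) (.e (nat_lit 2281) (nat_lit 150) (.e (nat_lit 770072) (nat_lit 8) (.e (nat_lit 65610) (nat_lit 10) (.e (nat_lit 344090) (nat_lit 18) (.e (nat_lit 7124) (nat_lit 382) (.e (nat_lit 7936) (nat_lit 90) .nil))))))) (.g (nat_lit 6) .nil .nil))) 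
(.lf (nat_lit 208246) (.g (nat_lit 1725) (.e (nat_lit 81938) (nat_lit 20) (.e (nat_lit 2281) (nat_lit 150) (.e (nat_lit 770074) (nat_lit 10) (.e (nat_lit 81948) (nat_lit 21) (.e (nat_lit 57654) (nat_lit 152) (.e (nat_lit 1216) (nat_lit 90) .nil)))))) (.g (nat_lit 4) .nil .nil))))) (.nd (nat_lit 4) (.nd (nat_lit 5) 
(.lf (nat_lit 208206) (.g (nat_lit 2201) (.e (nat_lit 81938) (nat_lit 20) (.e (nat_lit 2281) (nat_lit 150) (.e (nat_lit 770058) (nat_lit 5) (.e (nat_lit 1599) (nat_lit 111) (.e (nat_lit 360489) (nat_lit 21) (.e (nat_lit 770074) (nat_lit 10) .nil)))))) (.g (nat_lit 0) .nil .nil))) 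
(.lf (nat_lit 208238) (.g (nat_lit 1774) (.e (nat_lit 81938) (nat_lit 20) (.e (nat_lit 2281) (nat_lit 150) (.e (nat_lit 770072) (nat_lit 8) (.e (nat_lit 65619) (nat_lit 10) (.e (nat_lit 344173) (nat_lit 42) .nil))))) .nil))) (.nd (nat_lit 5) 
(.lf (nat_lit 208222) (.g (nat_lit 2363) (.e (nat_lit 81938) (nat_lit 20) (.e (nat_lit 2281) (nat_lit 150) (.e (nat_lit 770072) (nat_lit 8) (.e (nat_lit 65616) (nat_lit 10) (.e (nat_lit 344174) (nat_lit 42) (.e (nat_lit 769792) (nat_lit 10) .nil)))))) (.g (nat_lit 5) .nil .nil))) 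
(.lf (nat_lit 208254) (.g (nat_lit 878) (.e (nat_lit 81938) (nat_lit 20) (.e (nat_lit 2391) (nat_lit 156) (.e (nat_lit 819219) (nat_lit 4) (.e (nat_lit 172087) (nat_lit 9) .nil)))) .nil))))))) (.nd (nat_lit 1) (.nd (nat_lit 2) (.nd (nat_lit 3) (.nd (nat_lit 4) (.nd (nat_lit 5) 
(.lf (nat_lit 208193) (.g (nat_lit 2073) (.e (nat_lit 81938) (nat_lit 20) (.e (nat_lit 2281) (nat_lit 150) (.e (nat_lit 770058) (nat_lit 5) (.e (nat_lit 1589) (nat_lit 111) (.e (nat_lit 360451) (nat_lit 0) (.e (nat_lit 7122) (nat_lit 382) (.e (nat_lit 7936) (nat_lit 90) .nil))))))) (.g (nat_lit 4) .nil .nil))) 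
(.lf (nat_lit 208225) (.g (nat_lit 2910) (.e (nat_lit 81938) (nat_lit 20) (.e (nat_lit 2281) (nat_lit 150) (.e (nat_lit 770072) (nat_lit 8) (.e (nat_lit 65617) (nat_lit 10) (.e (nat_lit 344091) (nat_lit 18) (.e (nat_lit 7124) (nat_lit 382) (.e (nat_lit 7936) (nat_lit 90) .nil))))))) (.g (nat_lit 6) .nil .nil)))) (.nd (nat_lit 5) 
(.lf (nat_lit 208209) (.g (nat_lit 1226) (.e (nat_lit 81938) (nat_lit 20) (.e (nat_lit 2281) (nat_lit 150) (.e (nat_lit 770072) (nat_lit 8) (.e (nat_lit 65583) (nat_lit 7) .nil)))) .nil)) 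
(.lf (nat_lit 208241) (.g (nat_lit 1892) (.e (nat_lit 81938) (nat_lit 20) (.e (nat_lit 2281) (nat_lit 150) (.e (nat_lit 770072) (nat_lit 8) (.e (nat_lit 65629) (nat_lit 14) (.e (nat_lit 401412) (nat_lit 0) .nil))))) .nil)))) (.nd (nat_lit 4) (.nd (nat_lit 5) 
(.lf (nat_lit 208201) (.g (nat_lit 2106) (.e (nat_lit 81938) (nat_lit 20) (.e (nat_lit 2281) (nat_lit 150) (.e (nat_lit 770058) (nat_lit 5) (.e (nat_lit 1598) (nat_lit 111) (.e (nat_lit 360449) (nat_lit 0) (.e (nat_lit 7119) (nat_lit 382) (.e (nat_lit 7936) (nat_lit 90) .nil))))))) (.g (nat_lit 5) .nil .nil))) 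
(.lf (nat_lit 208233) (.g (nat_lit 2028) (.e (nat_lit 81938) (nat_lit 20) (.e (nat_lit 2281) (nat_lit 150) (.e (nat_lit 770072) (nat_lit 8) (.e (nat_lit 65617) (nat_lit 10) (.e (nat_lit 344173) (nat_lit 42) .nil))))) .nil))) (.nd (nat_lit 5) 
(.lf (nat_lit 208217) (.g (nat_lit 2913) (.e (nat_lit 81938) (nat_lit 20) (.e (nat_lit 2281) (nat_lit 150) (.e (nat_lit 770072) (nat_lit 8) (.e (nat_lit 65610) (nat_lit 10) (.e (nat_lit 344097) (nat_lit 18) (.e (nat_lit 7160) (nat_lit 382) (.e (nat_lit 7936) (nat_lit 90) .nil))))))) (.g (nat_lit 5) .nil .nil))) 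
(.lf (nat_lit 208249) (.g (nat_lit 1610) (.e (nat_lit 81938) (nat_lit 20) (.e (nat_lit 2281) (nat_lit 150) (.e (nat_lit 770074) (nat_lit 10) (.e (nat_lit 81959) (nat_lit 24) (.e (nat_lit 130816) (nat_lit 152) .nil))))) .nil))))) (.nd (nat_lit 3) (.nd (nat_lit 4) (.nd (nat_lit 5) 
(.lf (nat_lit 208197) (.g (nat_lit 1928) (.e (nat_lit 81938) (nat_lit 20) (.e (nat_lit 2281) (nat_lit 150) (.e (nat_lit 770058) (nat_lit 5) (.e (nat_lit 1595) (nat_lit 111) (.e (nat_lit 360449) (nat_lit 0) (.e (nat_lit 7119) (nat_lit 382) (.e (nat_lit 7936) (nat_lit 90) .nil))))))) (.g (nat_lit 4) .nil .nil))) 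
(.lf (nat_lit 208229) (.g (nat_lit 3359) (.e (nat_lit 81938) (nat_lit 20) (.e (nat_lit 2281) (nat_lit 150) (.e (nat_lit 770072) (nat_lit 8) (.e (nat_lit 65617) (nat_lit 10) (.e (nat_lit 344096) (nat_lit 18) (.e (nat_lit 7119) (nat_lit 382) (.e (nat_lit 7936) (nat_lit 90) .nil))))))) (.g (nat_lit 6) .nil .nil)))) (.nd (nat_lit 5) 
(.lf (nat_lit 208213) (.g (nat_lit 2849) (.e (nat_lit 81938) (nat_lit 20) (.e (nat_lit 2281) (nat_lit 150) (.e (nat_lit 770072) (nat_lit 8) (.e (nat_lit 65610) (nat_lit 10) (.e (nat_lit 344090) (nat_lit 18) (.e (nat_lit 7122) (nat_lit 382) (.e (nat_lit 7936) (nat_lit 90) .nil))))))) (.g (nat_lit 6) .nil .nil))) 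
(.lf (nat_lit 208245) (.g (nat_lit 385) (.e (nat_lit 81938) (nat_lit 20) (.e (nat_lit 2281) (nat_lit 150) (.e (nat_lit 770074) (nat_lit 10) .nil))) .nil)))) (.nd (nat_lit 4) (.nd (nat_lit 5) 
(.lf (nat_lit 208205) (.g (nat_lit 1621) (.e (nat_lit 81938) (nat_lit 20) (.e (nat_lit 2281) (nat_lit 150) (.e (nat_lit 770058) (nat_lit 5) (.e (nat_lit 1599) (nat_lit 111) (.e (nat_lit 360488) (nat_lit 20) (.e (nat_lit 769792) (nat_lit 10) .nil)))))) (.g (nat_lit 5) .nil .nil))) 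
(.lf (nat_lit 208237) (.g (nat_lit 1878) (.e (nat_lit 81938) (nat_lit 20) (.e (nat_lit 2281) (nat_lit 150) (.e (nat_lit 770072) (nat_lit 8) (.e (nat_lit 65619) (nat_lit 10) (.e (nat_lit 344097) (nat_lit 18) (.e (nat_lit 7146) (nat_lit 382) (.e (nat_lit 1216) (nat_lit 90) .nil))))))) (.g (nat_lit 4) .nil .nil)))) (.nd (nat_lit 5) 
(.lf (nat_lit 208221) (.g (nat_lit 2409) (.e (nat_lit 81938) (nat_lit 20) (.e (nat_lit 2281) (nat_lit 150) (.e (nat_lit 770072) (nat_lit 8) (.e (nat_lit 65611) (nat_lit 10) (.e (nat_lit 344174) (nat_lit 42) (.e (nat_lit 769792) (nat_lit 10) .nil)))))) (.g (nat_lit 5) .nil .nil))) 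
(.lf (nat_lit 208253) (.g (nat_lit 1038) (.e (nat_lit 81938) (nat_lit 20) (.e (nat_lit 2391) (nat_lit 156) (.e (nat_lit 819219) (nat_lit 4) (.e (nat_lit 172086) (nat_lit 9) (.e (nat_lit 426428) (nat_lit 17) .nil))))) .nil)))))) (.nd (nat_lit 2) (.nd (nat_lit 3) (.nd (nat_lit 4) (.nd (nat_lit 5) 
(.lf (nat_lit 208195) (.g (nat_lit 2377) (.e (nat_lit 81938) (nat_lit 20) (.e (nat_lit 2281) (nat_lit 150) (.e (nat_lit 770058) (nat_lit 5) (.e (nat_lit 1589) (nat_lit 111) (.e (nat_lit 360488) (nat_lit 20) (.e (nat_lit 769792) (nat_lit 10) .nil)))))) (.g (nat_lit 5) .nil .nil))) 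
(.lf (nat_lit 208227) (.g (nat_lit 2555) (.e (nat_lit 81938) (nat_lit 20) (.e (nat_lit 2281) (nat_lit 150) (.e (nat_lit 770072) (nat_lit 8) (.e (nat_lit 65617) (nat_lit 10) (.e (nat_lit 344095) (nat_lit 18) (.e (nat_lit 7119) (nat_lit 382) (.e (nat_lit 7936) (nat_lit 90) .nil))))))) (.g (nat_lit 5) .nil .nil)))) (.nd (nat_lit 5) 
(.lf (nat_lit 208211) (.g (nat_lit 1526) (.e (nat_lit 81938) (nat_lit 20) (.e (nat_lit 2281) (nat_lit 150) (.e (nat_lit 770072) (nat_lit 8) (.e (nat_lit 65609) (nat_lit 10) (.e (nat_lit 344174) (nat_lit 42) .nil))))) .nil)) 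
(.lf (nat_lit 208243) (.g (nat_lit 2645) (.e (nat_lit 81938) (nat_lit 20) (.e (nat_lit 2281) (nat_lit 150) (.e (nat_lit 770072) (nat_lit 8) (.e (nat_lit 65630) (nat_lit 14) (.e (nat_lit 401412) (nat_lit 0) (.e (nat_lit 3453) (nat_lit 216) (.e (nat_lit 688186) (nat_lit 18) .nil))))))) (.g (nat_lit 4) .nil .nil))))) (.nd (nat_lit 4) (.nd (nat_lit 5) 
(.lf (nat_lit 208203) (.g (nat_lit 2057) (.e (nat_lit 81938) (nat_lit 20) (.e (nat_lit 2281) (nat_lit 150) (.e (nat_lit 770058) (nat_lit 5) (.e (nat_lit 1598) (nat_lit 111) (.e (nat_lit 360449) (nat_lit 0) (.e (nat_lit 7124) (nat_lit 382) (.e (nat_lit 7936) (nat_lit 90) .nil))))))) (.g (nat_lit 6) .nil .nil))) 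
(.lf (nat_lit 208235) (.g (nat_lit 2726) (.e (nat_lit 81938) (nat_lit 20) (.e (nat_lit 2281) (nat_lit 150) (.e (nat_lit 770072) (nat_lit 8) (.e (nat_lit 65619) (nat_lit 10) (.e (nat_lit 344090) (nat_lit 18) (.e (nat_lit 7119) (nat_lit 382) (.e (nat_lit 7936) (nat_lit 90) .nil))))))) (.g (nat_lit 5) .nil .nil)))) (.nd (nat_lit 5) 
(.lf (nat_lit 208219) (.g (nat_lit 2685) (.e (nat_lit 81938) (nat_lit 20) (.e (nat_lit 2281) (nat_lit 150) (.e (nat_lit 770072) (nat_lit 8) (.e (nat_lit 65610) (nat_lit 10) (.e (nat_lit 344174) (nat_lit 42) (.e (nat_lit 769792) (nat_lit 10) .nil)))))) (.g (nat_lit 5) .nil .nil))) 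
(.lf (nat_lit 208251) (.g (nat_lit 1828) (.e (nat_lit 81938) (nat_lit 20) (.e (nat_lit 2390) (nat_lit 156) (.e (nat_lit 819223) (nat_lit 8) (.e (nat_lit 237605) (nat_lit 9) (.e (nat_lit 426432) (nat_lit 17) (.e (nat_lit 98048) (nat_lit 6) .nil)))))) (.g (nat_lit 5) .nil .nil)))))) (.nd (nat_lit 3) (.nd (nat_lit 4) (.nd (nat_lit 5) 
(.lf (nat_lit 208199) (.g (nat_lit 2855) (.e (nat_lit 81938) (nat_lit 20) (.e (nat_lit 2281) (nat_lit 150) (.e (nat_lit 770058) (nat_lit 5) (.e (nat_lit 1595) (nat_lit 111) (.e (nat_lit 360453) (nat_lit 0) (.e (nat_lit 7147) (nat_lit 382) (.e (nat_lit 1216) (nat_lit 90) .nil))))))) (.g (nat_lit 0) .nil .nil))) 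
(.lf (nat_lit 208231) (.g (nat_lit 3073) (.e (nat_lit 81938) (nat_lit 20) (.e (nat_lit 2281) (nat_lit 150) (.e (nat_lit 770072) (nat_lit 8) (.e (nat_lit 65617) (nat_lit 10) (.e (nat_lit 344096) (nat_lit 18) (.e (nat_lit 7124) (nat_lit 382) (.e (nat_lit 7936) (nat_lit 90) .nil))))))) (.g (nat_lit 6) .nil .nil)))) (.nd (nat_lit 5) 
(.lf (nat_lit 208215) (.g (nat_lit 3010) (.e (nat_lit 81938) (nat_lit 20) (.e (nat_lit 2281) (nat_lit 150) (.e (nat_lit 770072) (nat_lit 8) (.e (nat_lit 65610) (nat_lit 10) (.e (nat_lit 344097) (nat_lit 18) (.e (nat_lit 7145) (nat_lit 382) (.e (nat_lit 1216) (nat_lit 90) .nil))))))) (.g (nat_lit 5) .nil .nil))) 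
(.lf (nat_lit 208247) (.g (nat_lit 2726) (.e (nat_lit 81938) (nat_lit 20) (.e (nat_lit 2281) (nat_lit 150) (.e (nat_lit 770074) (nat_lit 10) (.e (nat_lit 81949) (nat_lit 21) (.e (nat_lit 57655) (nat_lit 152) (.e (nat_lit 1216) (nat_lit 90) .nil)))))) (.g (nat_lit 6) .nil .nil))))) (.nd (nat_lit 4) (.nd (nat_lit 5) 
(.lf (nat_lit 208207) (.g (nat_lit 907) (.e (nat_lit 81938) (nat_lit 20) (.e (nat_lit 2281) (nat_lit 150) (.e (nat_lit 770071) (nat_lit 8) (.e (nat_lit 65611) (nat_lit 10) .nil)))) .nil)) 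
(.lf (nat_lit 208239) (.g (nat_lit 2779) (.e (nat_lit 81938) (nat_lit 20) (.e (nat_lit 2281) (nat_lit 150) (.e (nat_lit 770072) (nat_lit 8) (.e (nat_lit 65619) (nat_lit 10) (.e (nat_lit 344174) (nat_lit 42) (.e (nat_lit 769792) (nat_lit 10) .nil)))))) (.g (nat_lit 5) .nil .nil)))) (.nd (nat_lit 5) 
(.lf (nat_lit 208223) (.g (nat_lit 3268) (.e (nat_lit 81938) (nat_lit 20) (.e (nat_lit 2281) (nat_lit 150) (.e (nat_lit 770072) (nat_lit 8) (.e (nat_lit 65617) (nat_lit 10) (.e (nat_lit 344091) (nat_lit 18) (.e (nat_lit 7119) (nat_lit 382) (.e (nat_lit 7936) (nat_lit 90) .nil))))))) (.g (nat_lit 6) .nil .nil))) 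
(.lf (nat_lit 208255) (.g (nat_lit 1541) (.e (nat_lit 81938) (nat_lit 20) (.e (nat_lit 2391) (nat_lit 156) (.e (nat_lit 819219) (nat_lit 4) (.e (nat_lit 172087) (nat_lit 9) (.e (nat_lit 426428) (nat_lit 17) (.e (nat_lit 98048) (nat_lit 6) .nil)))))) (.g (nat_lit 4) .nil .nil)))))))))

noncomputable def tv2747 : DT := (.nd (nat_lit 0) (.nd (nat_lit 1) (.nd (nat_lit 2) (.nd (nat_lit 3) (.nd (nat_lit 4) (.nd (nat_lit 5) 
(.lf (nat_lit 208256) (.g (nat_lit 1538) (.e (nat_lit 81938) (nat_lit 20) (.e (nat_lit 2391) (nat_lit 156) (.e (nat_lit 819219) (nat_lit 4) (.e (nat_lit 172113) (nat_lit 10) (.e (nat_lit 434239) (nat_lit 27) .nil))))) .nil)) 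
(.lf (nat_lit 208288) (.g (nat_lit 913) (.e (nat_lit 81939) (nat_lit 20) (.e (nat_lit 1886) (nat_lit 127) (.e (nat_lit 581651) (nat_lit 4) (.e (nat_lit 172080) (nat_lit 7) (.e (nat_lit 409634) (nat_lit 13) (.e (nat_lit 48896) (nat_lit 6) .nil)))))) (.g (nat_lit 5) .nil .nil)))) (.nd (nat_lit 5) 
(.lf (nat_lit 208272) (.g (nat_lit 1896) (.e (nat_lit 81939) (nat_lit 20) (.e (nat_lit 1842) (nat_lit 123) (.e (nat_lit 548889) (nat_lit 9) (.e (nat_lit 65583) (nat_lit 7) (.e (nat_lit 319518) (nat_lit 12) .nil))))) .nil)) 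
(.lf (nat_lit 208304) (.g (nat_lit 1521) (.e (nat_lit 81939) (nat_lit 20) (.e (nat_lit 2004) (nat_lit 138) (.e (nat_lit 671762) (nat_lit 4) (.e (nat_lit 65622) (nat_lit 12) (.e (nat_lit 385094) (nat_lit 49) .nil))))) .nil)))) (.nd (nat_lit 4) (.nd (nat_lit 5) 
(.lf (nat_lit 208264) (.g (nat_lit 1285) (.e (nat_lit 81939) (nat_lit 20) (.e (nat_lit 1841) (nat_lit 123) (.e (nat_lit 548889) (nat_lit 9) (.e (nat_lit 65583) (nat_lit 7) (.e (nat_lit 319518) (nat_lit 12) .nil))))) .nil)) 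
(.lf (nat_lit 208296) (.g (nat_lit 1057) (.e (nat_lit 81939) (nat_lit 20) (.e (nat_lit 1886) (nat_lit 127) (.e (nat_lit 581653) (nat_lit 6) (.e (nat_lit 188438) (nat_lit 20) (.e (nat_lit 3578) (nat_lit 223) (.e (nat_lit 745493) (nat_lit 6) .nil)))))) (.g (nat_lit 6) .nil .nil)))) (.nd (nat_lit 5) 
(.lf (nat_lit 208280) (.g (nat_lit 1554) (.e (nat_lit 81939) (nat_lit 20) (.e (nat_lit 1842) (nat_lit 123) (.e (nat_lit 548890) (nat_lit 10) (.e (nat_lit 73789) (nat_lit 45) (.e (nat_lit 1139) (nat_lit 84) (.e (nat_lit 32789) (nat_lit 11) .nil)))))) (.g (nat_lit 6) .nil .nil))) 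
(.lf (nat_lit 208312) (.g (nat_lit 857) (.e (nat_lit 81939) (nat_lit 20) (.e (nat_lit 2005) (nat_lit 138) (.e (nat_lit 671747) (nat_lit 0) (.e (nat_lit 1575) (nat_lit 110) (.e (nat_lit 352270) (nat_lit 8) .nil))))) .nil))))) (.nd (nat_lit 3) (.nd (nat_lit 4) (.nd (nat_lit 5) 
(.lf (nat_lit 208260) (.g (nat_lit 2359) (.e (nat_lit 81939) (nat_lit 20) (.e (nat_lit 1788) (nat_lit 119) (.e (nat_lit 516139) (nat_lit 7) (.e (nat_lit 409649) (nat_lit 18) (.e (nat_lit 303116) (nat_lit 2) .nil))))) .nil)) 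
(.lf (nat_lit 208292) (.g (nat_lit 297) (.e (nat_lit 81939) (nat_lit 20) (.e (nat_lit 1886) (nat_lit 127) (.e (nat_lit 581652) (nat_lit 5) (.e (nat_lit 180287) (nat_lit 45) (.e (nat_lit 2578) (nat_lit 161) .nil))))) .nil))) (.nd (nat_lit 5) 
(.lf (nat_lit 208276) (.g (nat_lit 1588) (.e (nat_lit 81939) (nat_lit 20) (.e (nat_lit 1842) (nat_lit 123) (.e (nat_lit 548889) (nat_lit 9) (.e (nat_lit 65586) (nat_lit 7) (.e (nat_lit 319519) (nat_lit 12) .nil))))) .nil)) 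
(.lf (nat_lit 208308) (.g (nat_lit 869) (.e (nat_lit 81939) (nat_lit 20) (.e (nat_lit 2005) (nat_lit 138) (.e (nat_lit 671747) (nat_lit 0) (.e (nat_lit 1559) (nat_lit 110) (.e (nat_lit 352270) (nat_lit 8) (.e (nat_lit 270080) (nat_lit 6) .nil)))))) (.g (nat_lit 5) .nil .nil))))) (.nd (nat_lit 4) (.nd (nat_lit 5) 
(.lf (nat_lit 208268) (.g (nat_lit 1144) (.e (nat_lit 81939) (nat_lit 20) (.e (nat_lit 1841) (nat_lit 123) (.e (nat_lit 548890) (nat_lit 10) (.e (nat_lit 73789) (nat_lit 45) (.e (nat_lit 1139) (nat_lit 84) (.e (nat_lit 32789) (nat_lit 11) .nil)))))) (.g (nat_lit 6) .nil .nil))) 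
(.lf (nat_lit 208300) (.g (nat_lit 686) (.e (nat_lit 81939) (nat_lit 20) (.e (nat_lit 2004) (nat_lit 138) (.e (nat_lit 671762) (nat_lit 4) (.e (nat_lit 65611) (nat_lit 10) .nil)))) .nil))) (.nd (nat_lit 5) 
(.lf (nat_lit 208284) (.g (nat_lit 2455) (.e (nat_lit 81939) (nat_lit 20) (.e (nat_lit 1848) (nat_lit 124) (.e (nat_lit 557087) (nat_lit 11) (.e (nat_lit 24617) (nat_lit 7) (.e (nat_lit 319505) (nat_lit 10) .nil))))) .nil)) 
(.lf (nat_lit 208316) (.g (nat_lit 913) (.e (nat_lit 81939) (nat_lit 20) (.e (nat_lit 2005) (nat_lit 138) (.e (nat_lit 671748) (nat_lit 0) (.e (nat_lit 1562) (nat_lit 110) (.e (nat_lit 360192) (nat_lit 4) (.e (nat_lit 220928) (nat_lit 6) .nil)))))) (.g (nat_lit 4) .nil .nil))))))) (.nd (nat_lit 2) (.nd (nat_lit 3) (.nd (nat_lit 4) (.nd (nat_lit 5) 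
(.lf (nat_lit 208258) (.g (nat_lit 2216) (.e (nat_lit 81939) (nat_lit 20) (.e (nat_lit 1788) (nat_lit 119) (.e (nat_lit 516139) (nat_lit 7) (.e (nat_lit 409643) (nat_lit 18) (.e (nat_lit 303117) (nat_lit 2) .nil))))) .nil)) 
(.lf (nat_lit 208290) (.g (nat_lit 1140) (.e (nat_lit 81939) (nat_lit 20) (.e (nat_lit 1886) (nat_lit 127) (.e (nat_lit 581651) (nat_lit 4) (.e (nat_lit 172082) (nat_lit 7) (.e (nat_lit 409634) (nat_lit 13) (.e (nat_lit 48896) (nat_lit 6) .nil)))))) (.g (nat_lit 5) .nil .nil)))) (.nd (nat_lit 5) 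
(.lf (nat_lit 208274) (.g (nat_lit 1157) (.e (nat_lit 81939) (nat_lit 20) (.e (nat_lit 1842) (nat_lit 123) (.e (nat_lit 548889) (nat_lit 9) (.e (nat_lit 65586) (nat_lit 7) .nil)))) .nil)) 
(.lf (nat_lit 208306) (.g (nat_lit 1691) (.e (nat_lit 81939) (nat_lit 20) (.e (nat_lit 2004) (nat_lit 138) (.e (nat_lit 671762) (nat_lit 4) (.e (nat_lit 65624) (nat_lit 12) (.e (nat_lit 385094) (nat_lit 49) .nil))))) .nil)))) (.nd (nat_lit 4) (.nd (nat_lit 5) 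
(.lf (nat_lit 208266) (.g (nat_lit 1798) (.e (nat_lit 81939) (nat_lit 20) (.e (nat_lit 1841) (nat_lit 123) (.e (nat_lit 548889) (nat_lit 9) (.e (nat_lit 65586) (nat_lit 7) (.e (nat_lit 319519) (nat_lit 12) (.e (nat_lit 32789) (nat_lit 11) .nil)))))) (.g (nat_lit 0) .nil .nil))) 
(.lf (nat_lit 208298) (.g (nat_lit 1444) (.e (nat_lit 81939) (nat_lit 20) (.e (nat_lit 2004) (nat_lit 138) (.e (nat_lit 671761) (nat_lit 4) (.e (nat_lit 65624) (nat_lit 12) (.e (nat_lit 385094) (nat_lit 49) .nil))))) .nil))) (.nd (nat_lit 5) 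
(.lf (nat_lit 208282) (.g (nat_lit 1351) (.e (nat_lit 81939) (nat_lit 20) (.e (nat_lit 1842) (nat_lit 123) (.e (nat_lit 548891) (nat_lit 11) (.e (nat_lit 81959) (nat_lit 24) .nil)))) .nil)) 
(.lf (nat_lit 208314) (.g (nat_lit 1042) (.e (nat_lit 81939) (nat_lit 20) (.e (nat_lit 2005) (nat_lit 138) (.e (nat_lit 671747) (nat_lit 0) (.e (nat_lit 1595) (nat_lit 111) (.e (nat_lit 368384) (nat_lit 17) .nil))))) .nil))))) (.nd (nat_lit 3) (.nd (nat_lit 4) (.nd (nat_lit 5) 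
(.lf (nat_lit 208262) (.g (nat_lit 2726) (.e (nat_lit 81939) (nat_lit 20) (.e (nat_lit 1840) (nat_lit 123) (.e (nat_lit 548889) (nat_lit 9) (.e (nat_lit 65624) (nat_lit 12) (.e (nat_lit 385074) (nat_lit 31) .nil))))) .nil)) 
(.lf (nat_lit 208294) (.g (nat_lit 1150) (.e (nat_lit 81939) (nat_lit 20) (.e (nat_lit 1886) (nat_lit 127) (.e (nat_lit 581653) (nat_lit 6) (.e (nat_lit 188434) (nat_lit 20) (.e (nat_lit 3577) (nat_lit 223) (.e (nat_lit 745493) (nat_lit 6) .nil)))))) (.g (nat_lit 4) .nil .nil)))) (.nd (nat_lit 5) 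
(.lf (nat_lit 208278) (.g (nat_lit 2841) (.e (nat_lit 81939) (nat_lit 20) (.e (nat_lit 1842) (nat_lit 123) (.e (nat_lit 548889) (nat_lit 9) (.e (nat_lit 65624) (nat_lit 12) (.e (nat_lit 385074) (nat_lit 31) .nil))))) .nil)) 
(.lf (nat_lit 208310) (.g (nat_lit 821) (.e (nat_lit 81939) (nat_lit 20) (.e (nat_lit 2005) (nat_lit 138) (.e (nat_lit 671747) (nat_lit 0) (.e (nat_lit 1569) (nat_lit 110) (.e (nat_lit 352270) (nat_lit 8) (.e (nat_lit 270080) (nat_lit 6) .nil)))))) (.g (nat_lit 5) .nil .nil))))) (.nd (nat_lit 4) (.nd (nat_lit 5) 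
(.lf (nat_lit 208270) (.g (nat_lit 1580) (.e (nat_lit 81939) (nat_lit 20) (.e (nat_lit 1842) (nat_lit 123) (.e (nat_lit 548889) (nat_lit 9) (.e (nat_lit 65582) (nat_lit 7) .nil)))) .nil)) 
(.lf (nat_lit 208302) (.g (nat_lit 1309) (.e (nat_lit 81939) (nat_lit 20) (.e (nat_lit 2004) (nat_lit 138) (.e (nat_lit 671762) (nat_lit 4) (.e (nat_lit 65619) (nat_lit 10) (.e (nat_lit 344169) (nat_lit 40) .nil))))) .nil))) (.nd (nat_lit 5) 
(.lf (nat_lit 208286) (.g (nat_lit 1882) (.e (nat_lit 81939) (nat_lit 20) (.e (nat_lit 1886) (nat_lit 127) (.e (nat_lit 581636) (nat_lit 0) (.e (nat_lit 3015) (nat_lit 187) (.e (nat_lit 450562) (nat_lit 0) (.e (nat_lit 6808) (nat_lit 365) (.e (nat_lit 7936) (nat_lit 90) .nil))))))) (.g (nat_lit 6) .nil .nil))) 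
(.lf (nat_lit 208318) (.g (nat_lit 871) (.e (nat_lit 81939) (nat_lit 20) (.e (nat_lit 2005) (nat_lit 138) (.e (nat_lit 671748) (nat_lit 0) (.e (nat_lit 1569) (nat_lit 110) (.e (nat_lit 360192) (nat_lit 4) (.e (nat_lit 220928) (nat_lit 6) .nil)))))) (.g (nat_lit 4) .nil .nil)))))))) (.nd (nat_lit 1) (.nd (nat_lit 2) (.nd (nat_lit 3) (.nd (nat_lit 4) (.nd (nat_lit 5) 
(.lf (nat_lit 208257) (.g (nat_lit 1617) (.e (nat_lit 81938) (nat_lit 20) (.e (nat_lit 2391) (nat_lit 156) (.e (nat_lit 819221) (nat_lit 6) (.e (nat_lit 188446) (nat_lit 21) (.e (nat_lit 164116) (nat_lit 122) (.e (nat_lit 7936) (nat_lit 90) .nil)))))) (.g (nat_lit 4) .nil .nil))) 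
(.lf (nat_lit 208289) (.g (nat_lit 789) (.e (nat_lit 81939) (nat_lit 20) (.e (nat_lit 1886) (nat_lit 127) (.e (nat_lit 581651) (nat_lit 4) (.e (nat_lit 172081) (nat_lit 7) (.e (nat_lit 409634) (nat_lit 13) (.e (nat_lit 48896) (nat_lit 6) .nil)))))) (.g (nat_lit 5) .nil .nil)))) (.nd (nat_lit 5) 
(.lf (nat_lit 208273) (.g (nat_lit 1185) (.e (nat_lit 81939) (nat_lit 20) (.e (nat_lit 1842) (nat_lit 123) (.e (nat_lit 548889) (nat_lit 9) (.e (nat_lit 65584) (nat_lit 7) .nil)))) .nil)) 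
(.lf (nat_lit 208305) (.g (nat_lit 1571) (.e (nat_lit 81939) (nat_lit 20) (.e (nat_lit 2004) (nat_lit 138) (.e (nat_lit 671762) (nat_lit 4) (.e (nat_lit 65624) (nat_lit 12) (.e (nat_lit 385093) (nat_lit 49) .nil))))) .nil)))) (.nd (nat_lit 4) (.nd (nat_lit 5) 
(.lf (nat_lit 208265) (.g (nat_lit 1062) (.e (nat_lit 81939) (nat_lit 20) (.e (nat_lit 1841) (nat_lit 123) (.e (nat_lit 548889) (nat_lit 9) (.e (nat_lit 65586) (nat_lit 7) (.e (nat_lit 319517) (nat_lit 12) .nil))))) .nil)) 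
(.lf (nat_lit 208297) (.g (nat_lit 715) (.e (nat_lit 81939) (nat_lit 20) (.e (nat_lit 1963) (nat_lit 134) (.e (nat_lit 638999) (nat_lit 8) (.e (nat_lit 172112) (nat_lit 10) (.e (nat_lit 434266) (nat_lit 35) (.e (nat_lit 630823) (nat_lit 18) .nil)))))) (.g (nat_lit 0) .nil .nil)))) (.nd (nat_lit 5) 
(.lf (nat_lit 208281) (.g (nat_lit 2338) (.e (nat_lit 81939) (nat_lit 20) (.e (nat_lit 1842) (nat_lit 123) (.e (nat_lit 548891) (nat_lit 11) (.e (nat_lit 81947) (nat_lit 20) (.e (nat_lit 1841) (nat_lit 123) (.e (nat_lit 548891) (nat_lit 11) .nil)))))) (.g (nat_lit 0) .nil .nil))) 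
(.lf (nat_lit 208313) (.g (nat_lit 1043) (.e (nat_lit 81939) (nat_lit 20) (.e (nat_lit 2005) (nat_lit 138) (.e (nat_lit 671747) (nat_lit 0) (.e (nat_lit 1586) (nat_lit 111) (.e (nat_lit 368384) (nat_lit 17) .nil))))) .nil))))) (.nd (nat_lit 3) (.nd (nat_lit 4) (.nd (nat_lit 5) 
(.lf (nat_lit 208261) (.g (nat_lit 934) (.e (nat_lit 81939) (nat_lit 20) (.e (nat_lit 1840) (nat_lit 123) (.e (nat_lit 548889) (nat_lit 9) (.e (nat_lit 65582) (nat_lit 7) .nil)))) .nil)) 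
(.lf (nat_lit 208293) (.g (nat_lit 333) (.e (nat_lit 81939) (nat_lit 20) (.e (nat_lit 1886) (nat_lit 127) (.e (nat_lit 581652) (nat_lit 5) (.e (nat_lit 180291) (nat_lit 48) (.e (nat_lit 164108) (nat_lit 116) .nil))))) .nil))) (.nd (nat_lit 5) 
(.lf (nat_lit 208277) (.g (nat_lit 2373) (.e (nat_lit 81939) (nat_lit 20) (.e (nat_lit 1842) (nat_lit 123) (.e (nat_lit 548889) (nat_lit 9) (.e (nat_lit 65586) (nat_lit 7) (.e (nat_lit 319519) (nat_lit 12) (.e (nat_lit 32789) (nat_lit 11) .nil)))))) (.g (nat_lit 0) .nil .nil))) 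
(.lf (nat_lit 208309) (.g (nat_lit 779) (.e (nat_lit 81939) (nat_lit 20) (.e (nat_lit 2005) (nat_lit 138) (.e (nat_lit 671747) (nat_lit 0) (.e (nat_lit 1569) (nat_lit 110) (.e (nat_lit 360192) (nat_lit 4) (.e (nat_lit 220928) (nat_lit 6) .nil)))))) (.g (nat_lit 4) .nil .nil))))) (.nd (nat_lit 4) (.nd (nat_lit 5) 
(.lf (nat_lit 208269) (.g (nat_lit 1078) (.e (nat_lit 81939) (nat_lit 20) (.e (nat_lit 1842) (nat_lit 123) (.e (nat_lit 548874) (nat_lit 5) (.e (nat_lit 1464) (nat_lit 108) .nil)))) .nil)) 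
(.lf (nat_lit 208301) (.g (nat_lit 1319) (.e (nat_lit 81939) (nat_lit 20) (.e (nat_lit 2004) (nat_lit 138) (.e (nat_lit 671762) (nat_lit 4) (.e (nat_lit 65619) (nat_lit 10) (.e (nat_lit 344168) (nat_lit 40) .nil))))) .nil))) (.nd (nat_lit 5) 
(.lf (nat_lit 208285) (.g (nat_lit 577) (.e (nat_lit 81939) (nat_lit 20) (.e (nat_lit 1885) (nat_lit 127) (.e (nat_lit 581651) (nat_lit 4) (.e (nat_lit 172107) (nat_lit 10) (.e (nat_lit 434295) (nat_lit 49) .nil))))) .nil)) 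
(.lf (nat_lit 208317) (.g (nat_lit 966) (.e (nat_lit 81939) (nat_lit 20) (.e (nat_lit 2005) (nat_lit 138) (.e (nat_lit 671748) (nat_lit 0) (.e (nat_lit 1562) (nat_lit 110) (.e (nat_lit 352270) (nat_lit 8) (.e (nat_lit 270080) (nat_lit 6) .nil)))))) (.g (nat_lit 5) .nil .nil))))))) (.nd (nat_lit 2) (.nd (nat_lit 3) (.nd (nat_lit 4) (.nd (nat_lit 5) 
(.lf (nat_lit 208259) (.g (nat_lit 2382) (.e (nat_lit 81939) (nat_lit 20) (.e (nat_lit 1788) (nat_lit 119) (.e (nat_lit 516139) (nat_lit 7) (.e (nat_lit 409648) (nat_lit 18) (.e (nat_lit 303116) (nat_lit 2) .nil))))) .nil)) 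
(.lf (nat_lit 208291) (.g (nat_lit 568) (.e (nat_lit 81939) (nat_lit 20) (.e (nat_lit 1886) (nat_lit 127) (.e (nat_lit 581652) (nat_lit 5) (.e (nat_lit 180285) (nat_lit 45) (.e (nat_lit 2578) (nat_lit 161) .nil))))) .nil))) (.nd (nat_lit 5) 
(.lf (nat_lit 208275) (.g (nat_lit 1707) (.e (nat_lit 81939) (nat_lit 20) (.e (nat_lit 1842) (nat_lit 123) (.e (nat_lit 548889) (nat_lit 9) (.e (nat_lit 65586) (nat_lit 7) (.e (nat_lit 319517) (nat_lit 12) .nil))))) .nil)) 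
(.lf (nat_lit 208307) (.g (nat_lit 741) (.e (nat_lit 81939) (nat_lit 20) (.e (nat_lit 2005) (nat_lit 138) (.e (nat_lit 671744) (nat_lit 0) (.e (nat_lit 1615) (nat_lit 113) (.e (nat_lit 384768) (nat_lit 4) .nil))))) .nil)))) (.nd (nat_lit 4) (.nd (nat_lit 5) 
(.lf (nat_lit 208267) (.g (nat_lit 2356) (.e (nat_lit 81939) (nat_lit 20) (.e (nat_lit 1841) (nat_lit 123) (.e (nat_lit 548889) (nat_lit 9) (.e (nat_lit 65624) (nat_lit 12) (.e (nat_lit 385074) (nat_lit 31) .nil))))) .nil)) 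
(.lf (nat_lit 208299) (.g (nat_lit 1387) (.e (nat_lit 81939) (nat_lit 20) (.e (nat_lit 2004) (nat_lit 138) (.e (nat_lit 671762) (nat_lit 4) (.e (nat_lit 65610) (nat_lit 10) (.e (nat_lit 344169) (nat_lit 40) .nil))))) .nil))) (.nd (nat_lit 5) 
(.lf (nat_lit 208283) (.g (nat_lit 2722) (.e (nat_lit 81939) (nat_lit 20) (.e (nat_lit 1848) (nat_lit 124) (.e (nat_lit 557087) (nat_lit 11) (.e (nat_lit 24617) (nat_lit 7) (.e (nat_lit 319504) (nat_lit 10) .nil))))) .nil)) 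
(.lf (nat_lit 208315) (.g (nat_lit 982) (.e (nat_lit 81939) (nat_lit 20) (.e (nat_lit 2005) (nat_lit 138) (.e (nat_lit 671748) (nat_lit 0) (.e (nat_lit 1559) (nat_lit 110) (.e (nat_lit 352270) (nat_lit 8) (.e (nat_lit 270080) (nat_lit 6) .nil)))))) (.g (nat_lit 5) .nil .nil)))))) (.nd (nat_lit 3) (.nd (nat_lit 4) (.nd (nat_lit 5) 
(.lf (nat_lit 208263) (.g (nat_lit 1116) (.e (nat_lit 81939) (nat_lit 20) (.e (nat_lit 1841) (nat_lit 123) (.e (nat_lit 548889) (nat_lit 9) (.e (nat_lit 65582) (nat_lit 7) (.e (nat_lit 319517) (nat_lit 12) .nil))))) .nil)) 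
(.lf (nat_lit 208295) (.g (nat_lit 1768) (.e (nat_lit 81939) (nat_lit 20) (.e (nat_lit 1886) (nat_lit 127) (.e (nat_lit 581653) (nat_lit 6) (.e (nat_lit 188434) (nat_lit 20) (.e (nat_lit 3578) (nat_lit 223) (.e (nat_lit 745493) (nat_lit 6) .nil)))))) (.g (nat_lit 6) .nil .nil)))) (.nd (nat_lit 5) 
(.lf (nat_lit 208279) (.g (nat_lit 2386) (.e (nat_lit 81939) (nat_lit 20) (.e (nat_lit 1842) (nat_lit 123) (.e (nat_lit 548889) (nat_lit 9) (.e (nat_lit 65630) (nat_lit 14) (.e (nat_lit 401412) (nat_lit 0) .nil))))) .nil)) 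
(.lf (nat_lit 208311) (.g (nat_lit 863) (.e (nat_lit 81939) (nat_lit 20) (.e (nat_lit 2005) (nat_lit 138) (.e (nat_lit 671747) (nat_lit 0) (.e (nat_lit 1575) (nat_lit 110) (.e (nat_lit 360192) (nat_lit 4) .nil))))) .nil)))) (.nd (nat_lit 4) (.nd (nat_lit 5) 
(.lf (nat_lit 208271) (.g (nat_lit 1898) (.e (nat_lit 81939) (nat_lit 20) (.e (nat_lit 1842) (nat_lit 123) (.e (nat_lit 548889) (nat_lit 9) (.e (nat_lit 65582) (nat_lit 7) (.e (nat_lit 319517) (nat_lit 12) .nil))))) .nil)) 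
(.lf (nat_lit 208303) (.g (nat_lit 1473) (.e (nat_lit 81939) (nat_lit 20) (.e (nat_lit 2004) (nat_lit 138) (.e (nat_lit 671762) (nat_lit 4) (.e (nat_lit 65622) (nat_lit 12) (.e (nat_lit 385093) (nat_lit 49) .nil))))) .nil))) (.nd (nat_lit 5) 
(.lf (nat_lit 208287) (.g (nat_lit 1050) (.e (nat_lit 81939) (nat_lit 20) (.e (nat_lit 1886) (nat_lit 127) (.e (nat_lit 581651) (nat_lit 4) (.e (nat_lit 172079) (nat_lit 7) (.e (nat_lit 409634) (nat_lit 13) (.e (nat_lit 48896) (nat_lit 6) .nil)))))) (.g (nat_lit 5) .nil .nil))) 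
(.lf (nat_lit 208319) (.g (nat_lit 865) (.e (nat_lit 81939) (nat_lit 20) (.e (nat_lit 2005) (nat_lit 138) (.e (nat_lit 671748) (nat_lit 0) (.e (nat_lit 1569) (nat_lit 110) (.e (nat_lit 352270) (nat_lit 8) (.e (nat_lit 270080) (nat_lit 6) .nil)))))) (.g (nat_lit 4) .nil .nil)))))))))

noncomputable def tv2748 : DT := (.nd (nat_lit 0) (.nd (nat_lit 1) (.nd (nat_lit 2) (.nd (nat_lit 3) (.nd (nat_lit 4) (.nd (nat_lit 5) 
(.lf (nat_lit 208320) (.g (nat_lit 1053) (.e (nat_lit 81939) (nat_lit 20) (.e (nat_lit 2005) (nat_lit 138) (.e (nat_lit 671748) (nat_lit 0) (.e (nat_lit 1575) (nat_lit 110) (.e (nat_lit 360192) (nat_lit 4) (.e (nat_lit 220928) (nat_lit 6) .nil)))))) (.g (nat_lit 4) .nil .nil))) 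
(.lf (nat_lit 208352) (.g (nat_lit 771) (.e (nat_lit 81939) (nat_lit 20) (.e (nat_lit 2270) (nat_lit 149) (.e (nat_lit 761868) (nat_lit 5) (.e (nat_lit 1585) (nat_lit 111) .nil)))) .nil))) (.nd (nat_lit 5) 
(.lf (nat_lit 208336) (.g (nat_lit 929) (.e (nat_lit 81939) (nat_lit 20) (.e (nat_lit 2006) (nat_lit 138) (.e (nat_lit 671748) (nat_lit 0) (.e (nat_lit 1569) (nat_lit 110) (.e (nat_lit 360192) (nat_lit 4) (.e (nat_lit 220928) (nat_lit 6) .nil)))))) (.g (nat_lit 4) .nil .nil))) 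
(.lf (nat_lit 208368) (.g (nat_lit 2392) (.e (nat_lit 81939) (nat_lit 20) (.e (nat_lit 2281) (nat_lit 150) (.e (nat_lit 770057) (nat_lit 5) (.e (nat_lit 1586) (nat_lit 111) (.e (nat_lit 360450) (nat_lit 0) (.e (nat_lit 7122) (nat_lit 382) (.e (nat_lit 7936) (nat_lit 90) .nil))))))) (.g (nat_lit 6) .nil .nil))))) (.nd (nat_lit 4) (.nd (nat_lit 5) 
(.lf (nat_lit 208328) (.g (nat_lit 1368) (.e (nat_lit 81939) (nat_lit 20) (.e (nat_lit 2005) (nat_lit 138) (.e (nat_lit 671764) (nat_lit 6) (.e (nat_lit 81931) (nat_lit 20) (.e (nat_lit 1998) (nat_lit 137) (.e (nat_lit 663569) (nat_lit 6) .nil)))))) (.g (nat_lit 0) .nil .nil))) 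
(.lf (nat_lit 208360) (.g (nat_lit 1034) (.e (nat_lit 81939) (nat_lit 20) (.e (nat_lit 2280) (nat_lit 150) (.e (nat_lit 770057) (nat_lit 5) (.e (nat_lit 1586) (nat_lit 111) (.e (nat_lit 360489) (nat_lit 21) .nil))))) .nil))) (.nd (nat_lit 5) 
(.lf (nat_lit 208344) (.g (nat_lit 1648) (.e (nat_lit 81939) (nat_lit 20) (.e (nat_lit 2006) (nat_lit 138) (.e (nat_lit 671764) (nat_lit 6) (.e (nat_lit 81935) (nat_lit 20) (.e (nat_lit 1998) (nat_lit 137) (.e (nat_lit 663569) (nat_lit 6) .nil)))))) (.g (nat_lit 0) .nil .nil))) 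
(.lf (nat_lit 208376) (.g (nat_lit 371) (.e (nat_lit 81939) (nat_lit 20) (.e (nat_lit 2281) (nat_lit 150) (.e (nat_lit 770058) (nat_lit 5) .nil))) .nil))))) (.nd (nat_lit 3) (.nd (nat_lit 4) (.nd (nat_lit 5) 
(.lf (nat_lit 208324) (.g (nat_lit 1574) (.e (nat_lit 81939) (nat_lit 20) (.e (nat_lit 2005) (nat_lit 138) (.e (nat_lit 671762) (nat_lit 4) (.e (nat_lit 65622) (nat_lit 12) (.e (nat_lit 385092) (nat_lit 49) .nil))))) .nil)) 
(.lf (nat_lit 208356) (.g (nat_lit 1239) (.e (nat_lit 81939) (nat_lit 20) (.e (nat_lit 2270) (nat_lit 149) (.e (nat_lit 761868) (nat_lit 5) (.e (nat_lit 1597) (nat_lit 111) (.e (nat_lit 368384) (nat_lit 0) .nil))))) .nil))) (.nd (nat_lit 5) 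
(.lf (nat_lit 208340) (.g (nat_lit 744) (.e (nat_lit 81939) (nat_lit 20) (.e (nat_lit 2006) (nat_lit 138) (.e (nat_lit 671748) (nat_lit 0) (.e (nat_lit 1598) (nat_lit 111) .nil)))) .nil)) 
(.lf (nat_lit 208372) (.g (nat_lit 1861) (.e (nat_lit 81939) (nat_lit 20) (.e (nat_lit 2281) (nat_lit 150) (.e (nat_lit 770057) (nat_lit 5) (.e (nat_lit 1598) (nat_lit 111) (.e (nat_lit 360449) (nat_lit 0) (.e (nat_lit 7122) (nat_lit 382) (.e (nat_lit 7936) (nat_lit 90) .nil))))))) (.g (nat_lit 6) .nil .nil))))) (.nd (nat_lit 4) (.nd (nat_lit 5) 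
(.lf (nat_lit 208332) (.g (nat_lit 1747) (.e (nat_lit 81939) (nat_lit 20) (.e (nat_lit 2005) (nat_lit 138) (.e (nat_lit 671764) (nat_lit 6) (.e (nat_lit 81947) (nat_lit 20) (.e (nat_lit 2005) (nat_lit 138) (.e (nat_lit 671764) (nat_lit 6) .nil)))))) (.g (nat_lit 6) .nil .nil))) 
(.lf (nat_lit 208364) (.g (nat_lit 502) (.e (nat_lit 81939) (nat_lit 20) (.e (nat_lit 2281) (nat_lit 150) (.e (nat_lit 770056) (nat_lit 5) .nil))) .nil))) (.nd (nat_lit 5) 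
(.lf (nat_lit 208348) (.g (nat_lit 1172) (.e (nat_lit 81939) (nat_lit 20) (.e (nat_lit 2006) (nat_lit 138) (.e (nat_lit 671764) (nat_lit 6) (.e (nat_lit 81947) (nat_lit 20) (.e (nat_lit 2003) (nat_lit 138) .nil))))) .nil)) 
(.lf (nat_lit 208380) (.g (nat_lit 2030) (.e (nat_lit 81939) (nat_lit 20) (.e (nat_lit 2281) (nat_lit 150) (.e (nat_lit 770058) (nat_lit 5) (.e (nat_lit 1589) (nat_lit 111) (.e (nat_lit 360488) (nat_lit 20) (.e (nat_lit 769792) (nat_lit 10) .nil)))))) (.g (nat_lit 5) .nil .nil))))))) (.nd (nat_lit 2) (.nd (nat_lit 3) (.nd (nat_lit 4) (.nd (nat_lit 5) 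
(.lf (nat_lit 208322) (.g (nat_lit 1176) (.e (nat_lit 81939) (nat_lit 20) (.e (nat_lit 2005) (nat_lit 138) (.e (nat_lit 671748) (nat_lit 0) (.e (nat_lit 1598) (nat_lit 111) (.e (nat_lit 360455) (nat_lit 0) (.e (nat_lit 5813) (nat_lit 320) (.e (nat_lit 7936) (nat_lit 90) .nil))))))) (.g (nat_lit 4) .nil .nil))) 
(.lf (nat_lit 208354) (.g (nat_lit 1162) (.e (nat_lit 81939) (nat_lit 20) (.e (nat_lit 2270) (nat_lit 149) (.e (nat_lit 761868) (nat_lit 5) (.e (nat_lit 1597) (nat_lit 111) (.e (nat_lit 360449) (nat_lit 0) .nil))))) .nil))) (.nd (nat_lit 5) 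
(.lf (nat_lit 208338) (.g (nat_lit 1040) (.e (nat_lit 81939) (nat_lit 20) (.e (nat_lit 2006) (nat_lit 138) (.e (nat_lit 671748) (nat_lit 0) (.e (nat_lit 1575) (nat_lit 110) (.e (nat_lit 360192) (nat_lit 4) (.e (nat_lit 220928) (nat_lit 6) .nil)))))) (.g (nat_lit 4) .nil .nil))) 
(.lf (nat_lit 208370) (.g (nat_lit 1561) (.e (nat_lit 81939) (nat_lit 20) (.e (nat_lit 2281) (nat_lit 150) (.e (nat_lit 770057) (nat_lit 5) (.e (nat_lit 1595) (nat_lit 111) (.e (nat_lit 360488) (nat_lit 20) (.e (nat_lit 769792) (nat_lit 10) .nil)))))) (.g (nat_lit 5) .nil .nil))))) (.nd (nat_lit 4) (.nd (nat_lit 5) 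
(.lf (nat_lit 208330) (.g (nat_lit 1123) (.e (nat_lit 81939) (nat_lit 20) (.e (nat_lit 2005) (nat_lit 138) (.e (nat_lit 671764) (nat_lit 6) (.e (nat_lit 81942) (nat_lit 20) (.e (nat_lit 2005) (nat_lit 138) (.e (nat_lit 671764) (nat_lit 6) .nil)))))) (.g (nat_lit 6) .nil .nil))) 
(.lf (nat_lit 208362) (.g (nat_lit 1660) (.e (nat_lit 81939) (nat_lit 20) (.e (nat_lit 2280) (nat_lit 150) (.e (nat_lit 770071) (nat_lit 8) (.e (nat_lit 65617) (nat_lit 10) (.e (nat_lit 344095) (nat_lit 18) (.e (nat_lit 7122) (nat_lit 382) (.e (nat_lit 7936) (nat_lit 90) .nil))))))) (.g (nat_lit 4) .nil .nil)))) (.nd (nat_lit 5) 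
(.lf (nat_lit 208346) (.g (nat_lit 1211) (.e (nat_lit 81939) (nat_lit 20) (.e (nat_lit 2006) (nat_lit 138) (.e (nat_lit 671764) (nat_lit 6) (.e (nat_lit 81943) (nat_lit 20) (.e (nat_lit 2005) (nat_lit 138) (.e (nat_lit 671764) (nat_lit 6) .nil)))))) (.g (nat_lit 6) .nil .nil))) 
(.lf (nat_lit 208378) (.g (nat_lit 2448) (.e (nat_lit 81939) (nat_lit 20) (.e (nat_lit 2281) (nat_lit 150) (.e (nat_lit 770058) (nat_lit 5) (.e (nat_lit 1586) (nat_lit 111) (.e (nat_lit 360450) (nat_lit 0) (.e (nat_lit 7122) (nat_lit 382) (.e (nat_lit 7936) (nat_lit 90) .nil))))))) (.g (nat_lit 6) .nil .nil)))))) (.nd (nat_lit 3) (.nd (nat_lit 4) (.nd (nat_lit 5) 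
(.lf (nat_lit 208326) (.g (nat_lit 475) (.e (nat_lit 81939) (nat_lit 20) (.e (nat_lit 2005) (nat_lit 138) (.e (nat_lit 671764) (nat_lit 6) (.e (nat_lit 81921) (nat_lit 0) .nil)))) .nil)) 
(.lf (nat_lit 208358) (.g (nat_lit 945) (.e (nat_lit 81939) (nat_lit 20) (.e (nat_lit 2280) (nat_lit 150) (.e (nat_lit 770055) (nat_lit 5) (.e (nat_lit 1598) (nat_lit 111) .nil)))) .nil))) (.nd (nat_lit 5) 
(.lf (nat_lit 208342) (.g (nat_lit 2303) (.e (nat_lit 81939) (nat_lit 20) (.e (nat_lit 2006) (nat_lit 138) (.e (nat_lit 671762) (nat_lit 4) (.e (nat_lit 65622) (nat_lit 12) (.e (nat_lit 385094) (nat_lit 49) (.e (nat_lit 778326) (nat_lit 6) .nil)))))) (.g (nat_lit 6) .nil .nil))) 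
(.lf (nat_lit 208374) (.g (nat_lit 1351) (.e (nat_lit 81939) (nat_lit 20) (.e (nat_lit 2281) (nat_lit 150) (.e (nat_lit 770057) (nat_lit 5) (.e (nat_lit 1598) (nat_lit 111) (.e (nat_lit 360488) (nat_lit 20) (.e (nat_lit 769792) (nat_lit 10) .nil)))))) (.g (nat_lit 5) .nil .nil))))) (.nd (nat_lit 4) (.nd (nat_lit 5) 
(.lf (nat_lit 208334) (.g (nat_lit 997) (.e (nat_lit 81939) (nat_lit 20) (.e (nat_lit 2006) (nat_lit 138) (.e (nat_lit 671748) (nat_lit 0) (.e (nat_lit 1562) (nat_lit 110) (.e (nat_lit 360192) (nat_lit 4) (.e (nat_lit 220928) (nat_lit 6) .nil)))))) (.g (nat_lit 4) .nil .nil))) 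
(.lf (nat_lit 208366) (.g (nat_lit 372) (.e (nat_lit 81939) (nat_lit 20) (.e (nat_lit 2281) (nat_lit 150) (.e (nat_lit 770057) (nat_lit 5) .nil))) .nil))) (.nd (nat_lit 5) 
(.lf (nat_lit 208350) (.g (nat_lit 614) (.e (nat_lit 81939) (nat_lit 20) (.e (nat_lit 2270) (nat_lit 149) (.e (nat_lit 761867) (nat_lit 5) (.e (nat_lit 1597) (nat_lit 111) .nil)))) .nil)) 
(.lf (nat_lit 208382) (.g (nat_lit 2318) (.e (nat_lit 81939) (nat_lit 20) (.e (nat_lit 2281) (nat_lit 150) (.e (nat_lit 770058) (nat_lit 5) (.e (nat_lit 1595) (nat_lit 111) (.e (nat_lit 360453) (nat_lit 0) (.e (nat_lit 7147) (nat_lit 382) (.e (nat_lit 1216) (nat_lit 90) .nil))))))) (.g (nat_lit 7) .nil .nil)))))))) 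
(.nd (nat_lit 1) (.nd (nat_lit 2) (.nd (nat_lit 3) (.nd (nat_lit 4) (.nd (nat_lit 5) 
(.lf (nat_lit 208321) (.g (nat_lit 1100) (.e (nat_lit 81939) (nat_lit 20) (.e (nat_lit 2005) (nat_lit 138) (.e (nat_lit 671748) (nat_lit 0) (.e (nat_lit 1575) (nat_lit 110) (.e (nat_lit 352270) (nat_lit 8) (.e (nat_lit 270080) (nat_lit 6) .nil)))))) (.g (nat_lit 5) .nil .nil))) 
(.lf (nat_lit 208353) (.g (nat_lit 724) (.e (nat_lit 81939) (nat_lit 20) (.e (nat_lit 2270) (nat_lit 149) (.e (nat_lit 761868) (nat_lit 5) (.e (nat_lit 1597) (nat_lit 111) .nil)))) .nil))) (.nd (nat_lit 5) 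
(.lf (nat_lit 208337) (.g (nat_lit 964) (.e (nat_lit 81939) (nat_lit 20) (.e (nat_lit 2006) (nat_lit 138) (.e (nat_lit 671748) (nat_lit 0) (.e (nat_lit 1569) (nat_lit 110) (.e (nat_lit 352270) (nat_lit 8) (.e (nat_lit 270080) (nat_lit 6) .nil)))))) (.g (nat_lit 5) .nil .nil))) 
(.lf (nat_lit 208369) (.g (nat_lit 1874) (.e (nat_lit 81939) (nat_lit 20) (.e (nat_lit 2281) (nat_lit 150) (.e (nat_lit 770057) (nat_lit 5) (.e (nat_lit 1589) (nat_lit 111) (.e (nat_lit 360488) (nat_lit 20) (.e (nat_lit 769792) (nat_lit 10) .nil)))))) (.g (nat_lit 5) .nil .nil))))) (.nd (nat_lit 4) (.nd (nat_lit 5) 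
(.lf (nat_lit 208329) (.g (nat_lit 1653) (.e (nat_lit 81939) (nat_lit 20) (.e (nat_lit 2005) (nat_lit 138) (.e (nat_lit 671764) (nat_lit 6) (.e (nat_lit 81935) (nat_lit 20) (.e (nat_lit 1998) (nat_lit 137) (.e (nat_lit 663569) (nat_lit 6) .nil)))))) (.g (nat_lit 0) .nil .nil))) 
(.lf (nat_lit 208361) (.g (nat_lit 1216) (.e (nat_lit 81939) (nat_lit 20) (.e (nat_lit 2280) (nat_lit 150) (.e (nat_lit 770057) (nat_lit 5) (.e (nat_lit 1595) (nat_lit 111) (.e (nat_lit 360453) (nat_lit 0) .nil))))) .nil))) (.nd (nat_lit 5) 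
(.lf (nat_lit 208345) (.g (nat_lit 1119) (.e (nat_lit 81939) (nat_lit 20) (.e (nat_lit 2006) (nat_lit 138) (.e (nat_lit 671764) (nat_lit 6) (.e (nat_lit 81939) (nat_lit 20) (.e (nat_lit 2005) (nat_lit 138) (.e (nat_lit 671764) (nat_lit 6) .nil)))))) (.g (nat_lit 6) .nil .nil))) 
(.lf (nat_lit 208377) (.g (nat_lit 2177) (.e (nat_lit 81939) (nat_lit 20) (.e (nat_lit 2281) (nat_lit 150) (.e (nat_lit 770058) (nat_lit 5) (.e (nat_lit 1586) (nat_lit 111) (.e (nat_lit 360450) (nat_lit 0) (.e (nat_lit 7119) (nat_lit 382) (.e (nat_lit 7936) (nat_lit 90) .nil))))))) (.g (nat_lit 6) .nil .nil)))))) (.nd (nat_lit 3) (.nd (nat_lit 4) (.nd (nat_lit 5) 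
(.lf (nat_lit 208325) (.g (nat_lit 586) (.e (nat_lit 81939) (nat_lit 20) (.e (nat_lit 2005) (nat_lit 138) (.e (nat_lit 671764) (nat_lit 6) (.e (nat_lit 81920) (nat_lit 0) .nil)))) .nil)) 
(.lf (nat_lit 208357) (.g (nat_lit 1401) (.e (nat_lit 81939) (nat_lit 20) (.e (nat_lit 2280) (nat_lit 150) (.e (nat_lit 770055) (nat_lit 5) (.e (nat_lit 1586) (nat_lit 111) (.e (nat_lit 360489) (nat_lit 21) .nil))))) .nil))) (.nd (nat_lit 5) 
(.lf (nat_lit 208341) (.g (nat_lit 1246) (.e (nat_lit 81939) (nat_lit 20) (.e (nat_lit 2006) (nat_lit 138) (.e (nat_lit 671748) (nat_lit 0) (.e (nat_lit 1598) (nat_lit 111) (.e (nat_lit 360455) (nat_lit 0) (.e (nat_lit 5813) (nat_lit 320) (.e (nat_lit 7936) (nat_lit 90) .nil))))))) (.g (nat_lit 4) .nil .nil))) 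
(.lf (nat_lit 208373) (.g (nat_lit 1168) (.e (nat_lit 81939) (nat_lit 20) (.e (nat_lit 2281) (nat_lit 150) (.e (nat_lit 770057) (nat_lit 5) (.e (nat_lit 1598) (nat_lit 111) (.e (nat_lit 360449) (nat_lit 0) (.e (nat_lit 7124) (nat_lit 382) (.e (nat_lit 7936) (nat_lit 90) .nil))))))) (.g (nat_lit 5) .nil .nil))))) (.nd (nat_lit 4) (.nd (nat_lit 5) 
(.lf (nat_lit 208333) (.g (nat_lit 1145) (.e (nat_lit 81939) (nat_lit 20) (.e (nat_lit 2006) (nat_lit 138) (.e (nat_lit 671748) (nat_lit 0) (.e (nat_lit 1559) (nat_lit 110) (.e (nat_lit 352270) (nat_lit 8) (.e (nat_lit 270080) (nat_lit 6) .nil)))))) (.g (nat_lit 5) .nil .nil))) 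
(.lf (nat_lit 208365) (.g (nat_lit 1363) (.e (nat_lit 81939) (nat_lit 20) (.e (nat_lit 2281) (nat_lit 150) (.e (nat_lit 770056) (nat_lit 5) (.e (nat_lit 1598) (nat_lit 111) (.e (nat_lit 360488) (nat_lit 20) (.e (nat_lit 769792) (nat_lit 10) .nil)))))) (.g (nat_lit 5) .nil .nil)))) (.nd (nat_lit 5) 
(.lf (nat_lit 208349) (.g (nat_lit 1802) (.e (nat_lit 81939) (nat_lit 20) (.e (nat_lit 2006) (nat_lit 138) (.e (nat_lit 671764) (nat_lit 6) (.e (nat_lit 81947) (nat_lit 20) (.e (nat_lit 2005) (nat_lit 138) (.e (nat_lit 671764) (nat_lit 6) .nil)))))) (.g (nat_lit 6) .nil .nil))) 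
(.lf (nat_lit 208381) (.g (nat_lit 1359) (.e (nat_lit 81939) (nat_lit 20) (.e (nat_lit 2281) (nat_lit 150) (.e (nat_lit 770058) (nat_lit 5) (.e (nat_lit 1595) (nat_lit 111) (.e (nat_lit 360449) (nat_lit 0) (.e (nat_lit 7119) (nat_lit 382) (.e (nat_lit 7936) (nat_lit 90) .nil))))))) (.g (nat_lit 4) .nil .nil))))))) (.nd (nat_lit 2) (.nd (nat_lit 3) (.nd (nat_lit 4) (.nd (nat_lit 5) 
(.lf (nat_lit 208323) (.g (nat_lit 2182) (.e (nat_lit 81939) (nat_lit 20) (.e (nat_lit 2005) (nat_lit 138) (.e (nat_lit 671762) (nat_lit 4) (.e (nat_lit 65619) (nat_lit 10) (.e (nat_lit 344169) (nat_lit 40) (.e (nat_lit 671764) (nat_lit 6) .nil)))))) (.g (nat_lit 6) .nil .nil))) 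
(.lf (nat_lit 208355) (.g (nat_lit 1281) (.e (nat_lit 81939) (nat_lit 20) (.e (nat_lit 2270) (nat_lit 149) (.e (nat_lit 761868) (nat_lit 5) (.e (nat_lit 1597) (nat_lit 111) (.e (nat_lit 360452) (nat_lit 0) (.e (nat_lit 7147) (nat_lit 382) (.e (nat_lit 1216) (nat_lit 90) .nil))))))) (.g (nat_lit 4) .nil .nil)))) (.nd (nat_lit 5) 
(.lf (nat_lit 208339) (.g (nat_lit 1085) (.e (nat_lit 81939) (nat_lit 20) (.e (nat_lit 2006) (nat_lit 138) (.e (nat_lit 671748) (nat_lit 0) (.e (nat_lit 1575) (nat_lit 110) (.e (nat_lit 352270) (nat_lit 8) (.e (nat_lit 270080) (nat_lit 6) .nil)))))) (.g (nat_lit 5) .nil .nil))) 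
(.lf (nat_lit 208371) (.g (nat_lit 1271) (.e (nat_lit 81939) (nat_lit 20) (.e (nat_lit 2281) (nat_lit 150) (.e (nat_lit 770057) (nat_lit 5) (.e (nat_lit 1598) (nat_lit 111) (.e (nat_lit 360449) (nat_lit 0) (.e (nat_lit 7119) (nat_lit 382) (.e (nat_lit 7936) (nat_lit 90) .nil))))))) (.g (nat_lit 5) .nil .nil))))) (.nd (nat_lit 4) (.nd (nat_lit 5) 
(.lf (nat_lit 208331) (.g (nat_lit 1111) (.e (nat_lit 81939) (nat_lit 20) (.e (nat_lit 2005) (nat_lit 138) (.e (nat_lit 671764) (nat_lit 6) (.e (nat_lit 81947) (nat_lit 20) (.e (nat_lit 2003) (nat_lit 138) .nil))))) .nil)) 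
(.lf (nat_lit 208363) (.g (nat_lit 1861) (.e (nat_lit 81939) (nat_lit 20) (.e (nat_lit 2281) (nat_lit 150) (.e (nat_lit 770054) (nat_lit 5) (.e (nat_lit 1615) (nat_lit 113) (.e (nat_lit 376860) (nat_lit 21) (.e (nat_lit 57665) (nat_lit 152) (.e (nat_lit 7936) (nat_lit 90) .nil))))))) (.g (nat_lit 6) .nil .nil)))) (.nd (nat_lit 5) 
(.lf (nat_lit 208347) (.g (nat_lit 1497) (.e (nat_lit 81939) (nat_lit 20) (.e (nat_lit 2006) (nat_lit 138) (.e (nat_lit 671764) (nat_lit 6) (.e (nat_lit 81946) (nat_lit 20) (.e (nat_lit 2005) (nat_lit 138) (.e (nat_lit 671764) (nat_lit 6) .nil)))))) (.g (nat_lit 6) .nil .nil))) 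
(.lf (nat_lit 208379) (.g (nat_lit 1157) (.e (nat_lit 81939) (nat_lit 20) (.e (nat_lit 2281) (nat_lit 150) (.e (nat_lit 770058) (nat_lit 5) (.e (nat_lit 1586) (nat_lit 111) (.e (nat_lit 368384) (nat_lit 0) .nil))))) .nil))))) (.nd (nat_lit 3) (.nd (nat_lit 4) (.nd (nat_lit 5) 
(.lf (nat_lit 208327) (.g (nat_lit 841) (.e (nat_lit 81939) (nat_lit 20) (.e (nat_lit 2005) (nat_lit 138) (.e (nat_lit 671764) (nat_lit 6) (.e (nat_lit 81922) (nat_lit 0) (.e (nat_lit 3629) (nat_lit 227) .nil))))) .nil)) 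
(.lf (nat_lit 208359) (.g (nat_lit 1446) (.e (nat_lit 81939) (nat_lit 20) (.e (nat_lit 2280) (nat_lit 150) (.e (nat_lit 770055) (nat_lit 5) (.e (nat_lit 1598) (nat_lit 111) (.e (nat_lit 360452) (nat_lit 0) (.e (nat_lit 7147) (nat_lit 382) (.e (nat_lit 1216) (nat_lit 90) .nil))))))) (.g (nat_lit 4) .nil .nil)))) (.nd (nat_lit 5) 
(.lf (nat_lit 208343) (.g (nat_lit 1390) (.e (nat_lit 81939) (nat_lit 20) (.e (nat_lit 2006) (nat_lit 138) (.e (nat_lit 671764) (nat_lit 6) (.e (nat_lit 81931) (nat_lit 20) (.e (nat_lit 1998) (nat_lit 137) (.e (nat_lit 663569) (nat_lit 6) .nil)))))) (.g (nat_lit 0) .nil .nil))) 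
(.lf (nat_lit 208375) (.g (nat_lit 1188) (.e (nat_lit 81939) (nat_lit 20) (.e (nat_lit 2281) (nat_lit 150) (.e (nat_lit 770057) (nat_lit 5) (.e (nat_lit 1599) (nat_lit 111) (.e (nat_lit 360488) (nat_lit 20) (.e (nat_lit 769792) (nat_lit 10) .nil)))))) (.g (nat_lit 5) .nil .nil))))) (.nd (nat_lit 4) (.nd (nat_lit 5) 
(.lf (nat_lit 208335) (.g (nat_lit 1051) (.e (nat_lit 81939) (nat_lit 20) (.e (nat_lit 2006) (nat_lit 138) (.e (nat_lit 671748) (nat_lit 0) (.e (nat_lit 1562) (nat_lit 110) (.e (nat_lit 352270) (nat_lit 8) (.e (nat_lit 270080) (nat_lit 6) .nil)))))) (.g (nat_lit 5) .nil .nil))) 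
(.lf (nat_lit 208367) (.g (nat_lit 2123) (.e (nat_lit 81939) (nat_lit 20) (.e (nat_lit 2281) (nat_lit 150) (.e (nat_lit 770057) (nat_lit 5) (.e (nat_lit 1586) (nat_lit 111) (.e (nat_lit 360450) (nat_lit 0) (.e (nat_lit 7119) (nat_lit 382) (.e (nat_lit 7936) (nat_lit 90) .nil))))))) (.g (nat_lit 6) .nil .nil)))) (.nd (nat_lit 5) 
(.lf (nat_lit 208351) (.g (nat_lit 442) (.e (nat_lit 81939) (nat_lit 20) (.e (nat_lit 2270) (nat_lit 149) (.e (nat_lit 761868) (nat_lit 5) .nil))) .nil)) 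
(.lf (nat_lit 208383) (.g (nat_lit 1596) (.e (nat_lit 81939) (nat_lit 20) (.e (nat_lit 2281) (nat_lit 150) (.e (nat_lit 770058) (nat_lit 5) (.e (nat_lit 1595) (nat_lit 111) (.e (nat_lit 360488) (nat_lit 20) (.e (nat_lit 769792) (nat_lit 10) .nil)))))) (.g (nat_lit 5) .nil .nil)))))))))

noncomputable def tv2749 : DT := (.nd (nat_lit 0) (.nd (nat_lit 1) (.nd (nat_lit 2) (.nd (nat_lit 3) (.nd (nat_lit 4) (.nd (nat_lit 5) (.nd (nat_lit 6) 
(.lf (nat_lit 208384) (.g (nat_lit 1531) (.e (nat_lit 81939) (nat_lit 20) (.e (nat_lit 2281) (nat_lit 150) (.e (nat_lit 770058) (nat_lit 5) (.e (nat_lit 1598) (nat_lit 111) (.e (nat_lit 360449) (nat_lit 0) (.e (nat_lit 7119) (nat_lit 382) (.e (nat_lit 7936) (nat_lit 90) .nil))))))) (.g (nat_lit 5) .nil .nil))) 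
(.lf (nat_lit 208448) (.g (nat_lit 2171) (.e (nat_lit 81941) (nat_lit 20) (.e (nat_lit 1788) (nat_lit 119) (.e (nat_lit 516139) (nat_lit 7) (.e (nat_lit 409643) (nat_lit 18) (.e (nat_lit 303117) (nat_lit 2) .nil))))) .nil))) (.nd (nat_lit 6) 
(.lf (nat_lit 208416) (.g (nat_lit 2110) (.e (nat_lit 81939) (nat_lit 20) (.e (nat_lit 2281) (nat_lit 150) (.e (nat_lit 770076) (nat_lit 12) (.e (nat_lit 131116) (nat_lit 9) (.e (nat_lit 335986) (nat_lit 1) (.e (nat_lit 57655) (nat_lit 152) (.e (nat_lit 1216) (nat_lit 90) .nil))))))) (.g (nat_lit 5) .nil .nil))) 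
(.lf (nat_lit 208480) (.g (nat_lit 1963) (.e (nat_lit 81942) (nat_lit 20) (.e (nat_lit 1842) (nat_lit 123) (.e (nat_lit 548872) (nat_lit 5) (.e (nat_lit 1598) (nat_lit 111) (.e (nat_lit 360471) (nat_lit 7) (.e (nat_lit 548891) (nat_lit 11) .nil)))))) (.g (nat_lit 6) .nil .nil))))) (.nd (nat_lit 5) (.nd (nat_lit 6) 
(.lf (nat_lit 208400) (.g (nat_lit 1199) (.e (nat_lit 81939) (nat_lit 20) (.e (nat_lit 2281) (nat_lit 150) (.e (nat_lit 770072) (nat_lit 8) (.e (nat_lit 65617) (nat_lit 10) .nil)))) .nil)) 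
(.lf (nat_lit 208464) (.g (nat_lit 2084) (.e (nat_lit 81941) (nat_lit 20) (.e (nat_lit 1848) (nat_lit 124) (.e (nat_lit 557087) (nat_lit 11) (.e (nat_lit 24625) (nat_lit 9) .nil)))) .nil))) (.nd (nat_lit 6) 
(.lf (nat_lit 208432) (.g (nat_lit 1550) (.e (nat_lit 81940) (nat_lit 20) (.e (nat_lit 1859) (nat_lit 124) (.e (nat_lit 557087) (nat_lit 11) (.e (nat_lit 24617) (nat_lit 7) .nil)))) .nil)) 
(.lf (nat_lit 208496) (.g (nat_lit 2990) (.e (nat_lit 81942) (nat_lit 20) (.e (nat_lit 1858) (nat_lit 124) (.e (nat_lit 557091) (nat_lit 12) (.e (nat_lit 164022) (nat_lit 46) (.e (nat_lit 704737) (nat_lit 11) .nil))))) .nil))))) (.nd (nat_lit 4) (.nd (nat_lit 5) (.nd (nat_lit 6) 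
(.lf (nat_lit 208392) (.g (nat_lit 1411) (.e (nat_lit 81939) (nat_lit 20) (.e (nat_lit 2281) (nat_lit 150) (.e (nat_lit 770072) (nat_lit 8) (.e (nat_lit 65609) (nat_lit 10) .nil)))) .nil)) 
(.lf (nat_lit 208456) (.g (nat_lit 2482) (.e (nat_lit 81941) (nat_lit 20) (.e (nat_lit 1788) (nat_lit 119) (.e (nat_lit 516139) (nat_lit 7) (.e (nat_lit 409649) (nat_lit 18) (.e (nat_lit 303111) (nat_lit 0) (.e (nat_lit 3124) (nat_lit 193) (.e (nat_lit 507648) (nat_lit 20) .nil))))))) (.g (nat_lit 4) .nil .nil)))) (.nd (nat_lit 6) 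
(.lf (nat_lit 208424) (.g (nat_lit 1338) (.e (nat_lit 81939) (nat_lit 20) (.e (nat_lit 2391) (nat_lit 156) (.e (nat_lit 819218) (nat_lit 4) (.e (nat_lit 172113) (nat_lit 10) (.e (nat_lit 434241) (nat_lit 27) .nil))))) .nil)) 
(.lf (nat_lit 208488) (.g (nat_lit 2727) (.e (nat_lit 81942) (nat_lit 20) (.e (nat_lit 1848) (nat_lit 124) (.e (nat_lit 557087) (nat_lit 11) (.e (nat_lit 24617) (nat_lit 7) (.e (nat_lit 319504) (nat_lit 10) .nil))))) .nil)))) (.nd (nat_lit 5) (.nd (nat_lit 6) 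
(.lf (nat_lit 208408) (.g (nat_lit 2828) (.e (nat_lit 81939) (nat_lit 20) (.e (nat_lit 2281) (nat_lit 150) (.e (nat_lit 770072) (nat_lit 8) (.e (nat_lit 65619) (nat_lit 10) (.e (nat_lit 344097) (nat_lit 18) (.e (nat_lit 7147) (nat_lit 382) (.e (nat_lit 1216) (nat_lit 90) .nil))))))) (.g (nat_lit 7) .nil .nil))) 
(.lf (nat_lit 208472) (.g (nat_lit 1530) (.e (nat_lit 81942) (nat_lit 20) (.e (nat_lit 1788) (nat_lit 119) (.e (nat_lit 516139) (nat_lit 7) (.e (nat_lit 409643) (nat_lit 18) .nil)))) .nil))) (.nd (nat_lit 6) 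
(.lf (nat_lit 208440) (.g (nat_lit 2957) (.e (nat_lit 81941) (nat_lit 20) (.e (nat_lit 1023) (nat_lit 81) (.e (nat_lit 7270) (nat_lit 385) (.e (nat_lit 122919) (nat_lit 15) (.e (nat_lit 360451) (nat_lit 0) (.e (nat_lit 7124) (nat_lit 382) (.e (nat_lit 7936) (nat_lit 90) .nil))))))) (.g (nat_lit 6) .nil .nil))) 
(.lf (nat_lit 208504) (.g (nat_lit 1072) (.e (nat_lit 81942) (nat_lit 20) (.e (nat_lit 1886) (nat_lit 127) (.e (nat_lit 581653) (nat_lit 6) (.e (nat_lit 188438) (nat_lit 20) (.e (nat_lit 3578) (nat_lit 223) (.e (nat_lit 745493) (nat_lit 6) .nil)))))) (.g (nat_lit 6) .nil .nil))))))) (.nd (nat_lit 3) (.nd (nat_lit 4) (.nd (nat_lit 5) (.nd (nat_lit 6) 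
(.lf (nat_lit 208388) (.g (nat_lit 1426) (.e (nat_lit 81939) (nat_lit 20) (.e (nat_lit 2281) (nat_lit 150) (.e (nat_lit 770058) (nat_lit 5) (.e (nat_lit 1598) (nat_lit 111) (.e (nat_lit 360488) (nat_lit 20) (.e (nat_lit 769792) (nat_lit 10) .nil)))))) (.g (nat_lit 5) .nil .nil))) 
(.lf (nat_lit 208452) (.g (nat_lit 2373) (.e (nat_lit 81941) (nat_lit 20) (.e (nat_lit 1788) (nat_lit 119) (.e (nat_lit 516139) (nat_lit 7) (.e (nat_lit 409647) (nat_lit 18) (.e (nat_lit 303117) (nat_lit 2) .nil))))) .nil))) (.nd (nat_lit 6) 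
(.lf (nat_lit 208420) (.g (nat_lit 591) (.e (nat_lit 81939) (nat_lit 20) (.e (nat_lit 2391) (nat_lit 156) (.e (nat_lit 819203) (nat_lit 0) (.e (nat_lit 2988) (nat_lit 186) .nil)))) .nil)) 
(.lf (nat_lit 208484) (.g (nat_lit 1263) (.e (nat_lit 81942) (nat_lit 20) (.e (nat_lit 1842) (nat_lit 123) (.e (nat_lit 548889) (nat_lit 9) (.e (nat_lit 65586) (nat_lit 7) .nil)))) .nil)))) (.nd (nat_lit 5) (.nd (nat_lit 6) 
(.lf (nat_lit 208404) (.g (nat_lit 2613) (.e (nat_lit 81939) (nat_lit 20) (.e (nat_lit 2281) (nat_lit 150) (.e (nat_lit 770072) (nat_lit 8) (.e (nat_lit 65617) (nat_lit 10) (.e (nat_lit 344095) (nat_lit 18) (.e (nat_lit 7122) (nat_lit 382) (.e (nat_lit 7936) (nat_lit 90) .nil))))))) (.g (nat_lit 6) .nil .nil))) 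
(.lf (nat_lit 208468) (.g (nat_lit 749) (.e (nat_lit 81941) (nat_lit 20) (.e (nat_lit 2270) (nat_lit 149) (.e (nat_lit 761868) (nat_lit 5) (.e (nat_lit 1597) (nat_lit 111) .nil)))) .nil))) (.nd (nat_lit 6) 
(.lf (nat_lit 208436) (.g (nat_lit 453) (.e (nat_lit 81940) (nat_lit 20) (.e (nat_lit 2270) (nat_lit 149) (.e (nat_lit 761868) (nat_lit 5) .nil))) .nil)) 
(.lf (nat_lit 208500) (.g (nat_lit 3704) (.e (nat_lit 81942) (nat_lit 20) (.e (nat_lit 1858) (nat_lit 124) (.e (nat_lit 557093) (nat_lit 12) (.e (nat_lit 164023) (nat_lit 46) (.e (nat_lit 704737) (nat_lit 11) (.e (nat_lit 16411) (nat_lit 2) (.e (nat_lit 196672) (nat_lit 15) .nil))))))) (.g (nat_lit 5) .nil .nil)))))) (.nd (nat_lit 4) (.nd (nat_lit 5) (.nd (nat_lit 6) 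
(.lf (nat_lit 208396) (.g (nat_lit 2336) (.e (nat_lit 81939) (nat_lit 20) (.e (nat_lit 2281) (nat_lit 150) (.e (nat_lit 770072) (nat_lit 8) (.e (nat_lit 65610) (nat_lit 10) (.e (nat_lit 344174) (nat_lit 42) (.e (nat_lit 769792) (nat_lit 10) .nil)))))) (.g (nat_lit 5) .nil .nil))) 
(.lf (nat_lit 208460) (.g (nat_lit 2765) (.e (nat_lit 81941) (nat_lit 20) (.e (nat_lit 1848) (nat_lit 124) (.e (nat_lit 557087) (nat_lit 11) (.e (nat_lit 24617) (nat_lit 7) (.e (nat_lit 319504) (nat_lit 10) .nil))))) .nil))) (.nd (nat_lit 6) 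
(.lf (nat_lit 208428) (.g (nat_lit 2805) (.e (nat_lit 81940) (nat_lit 20) (.e (nat_lit 1848) (nat_lit 124) (.e (nat_lit 557087) (nat_lit 11) (.e (nat_lit 24617) (nat_lit 7) (.e (nat_lit 319504) (nat_lit 10) (.e (nat_lit 7936) (nat_lit 41) (.e (nat_lit 500077) (nat_lit 20) .nil))))))) (.g (nat_lit 4) .nil .nil))) 
(.lf (nat_lit 208492) (.g (nat_lit 586) (.e (nat_lit 81942) (nat_lit 20) (.e (nat_lit 1858) (nat_lit 124) (.e (nat_lit 557072) (nat_lit 9) .nil))) .nil)))) (.nd (nat_lit 5) (.nd (nat_lit 6) 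
(.lf (nat_lit 208412) (.g (nat_lit 385) (.e (nat_lit 81939) (nat_lit 20) (.e (nat_lit 2281) (nat_lit 150) (.e (nat_lit 770074) (nat_lit 10) .nil))) .nil)) 
(.lf (nat_lit 208476) (.g (nat_lit 2076) (.e (nat_lit 81942) (nat_lit 20) (.e (nat_lit 1841) (nat_lit 123) (.e (nat_lit 548874) (nat_lit 5) (.e (nat_lit 1586) (nat_lit 111) (.e (nat_lit 360471) (nat_lit 7) (.e (nat_lit 548891) (nat_lit 11) .nil)))))) (.g (nat_lit 0) .nil .nil)))) (.nd (nat_lit 6) 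
(.lf (nat_lit 208444) (.g (nat_lit 2130) (.e (nat_lit 81941) (nat_lit 20) (.e (nat_lit 1788) (nat_lit 119) (.e (nat_lit 516139) (nat_lit 7) (.e (nat_lit 409616) (nat_lit 10) (.e (nat_lit 5763) (nat_lit 315) .nil))))) .nil)) 
(.lf (nat_lit 208508) (.g (nat_lit 805) (.e (nat_lit 81942) (nat_lit 20) (.e (nat_lit 2000) (nat_lit 138) (.e (nat_lit 671762) (nat_lit 4) (.e (nat_lit 65611) (nat_lit 10) .nil)))) .nil))))))) (.nd (nat_lit 2) (.nd (nat_lit 3) (.nd (nat_lit 4) (.nd (nat_lit 5) (.nd (nat_lit 6) 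
(.lf (nat_lit 208386) (.g (nat_lit 1416) (.e (nat_lit 81939) (nat_lit 20) (.e (nat_lit 2281) (nat_lit 150) (.e (nat_lit 770058) (nat_lit 5) (.e (nat_lit 1598) (nat_lit 111) (.e (nat_lit 360449) (nat_lit 0) (.e (nat_lit 7124) (nat_lit 382) (.e (nat_lit 7936) (nat_lit 90) .nil))))))) (.g (nat_lit 5) .nil .nil))) 
(.lf (nat_lit 208450) (.g (nat_lit 3822) (.e (nat_lit 81941) (nat_lit 20) (.e (nat_lit 1788) (nat_lit 119) (.e (nat_lit 516139) (nat_lit 7) (.e (nat_lit 409644) (nat_lit 18) (.e (nat_lit 303117) (nat_lit 2) (.e (nat_lit 196673) (nat_lit 15) .nil)))))) (.g (nat_lit 6) .nil .nil)))) (.nd (nat_lit 6) 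
(.lf (nat_lit 208418) (.g (nat_lit 313) (.e (nat_lit 81939) (nat_lit 20) (.e (nat_lit 2390) (nat_lit 156) (.e (nat_lit 819203) (nat_lit 0) (.e (nat_lit 2988) (nat_lit 186) .nil)))) .nil)) 
(.lf (nat_lit 208482) (.g (nat_lit 1310) (.e (nat_lit 81942) (nat_lit 20) (.e (nat_lit 1842) (nat_lit 123) (.e (nat_lit 548889) (nat_lit 9) (.e (nat_lit 65583) (nat_lit 7) .nil)))) .nil)))) (.nd (nat_lit 5) (.nd (nat_lit 6) 
(.lf (nat_lit 208402) (.g (nat_lit 2384) (.e (nat_lit 81939) (nat_lit 20) (.e (nat_lit 2281) (nat_lit 150) (.e (nat_lit 770072) (nat_lit 8) (.e (nat_lit 65617) (nat_lit 10) (.e (nat_lit 344091) (nat_lit 18) (.e (nat_lit 7124) (nat_lit 382) (.e (nat_lit 7936) (nat_lit 90) .nil))))))) (.g (nat_lit 5) .nil .nil))) 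
(.lf (nat_lit 208466) (.g (nat_lit 739) (.e (nat_lit 81941) (nat_lit 20) (.e (nat_lit 2270) (nat_lit 149) (.e (nat_lit 761868) (nat_lit 5) (.e (nat_lit 1582) (nat_lit 111) .nil)))) .nil))) (.nd (nat_lit 6) 
(.lf (nat_lit 208434) (.g (nat_lit 3284) (.e (nat_lit 81940) (nat_lit 20) (.e (nat_lit 1968) (nat_lit 135) (.e (nat_lit 647203) (nat_lit 14) (.e (nat_lit 1349) (nat_lit 102) (.e (nat_lit 286759) (nat_lit 12) (.e (nat_lit 385094) (nat_lit 49) (.e (nat_lit 778326) (nat_lit 6) .nil))))))) (.g (nat_lit 7) .nil .nil))) 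
(.lf (nat_lit 208498) (.g (nat_lit 1203) (.e (nat_lit 81942) (nat_lit 20) (.e (nat_lit 1858) (nat_lit 124) (.e (nat_lit 557093) (nat_lit 12) (.e (nat_lit 164022) (nat_lit 46) .nil)))) .nil))))) (.nd (nat_lit 4) (.nd (nat_lit 5) (.nd (nat_lit 6) 
(.lf (nat_lit 208394) (.g (nat_lit 3401) (.e (nat_lit 81939) (nat_lit 20) (.e (nat_lit 2281) (nat_lit 150) (.e (nat_lit 770072) (nat_lit 8) (.e (nat_lit 65610) (nat_lit 10) (.e (nat_lit 344097) (nat_lit 18) (.e (nat_lit 7147) (nat_lit 382) (.e (nat_lit 1216) (nat_lit 90) .nil))))))) (.g (nat_lit 7) .nil .nil))) 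
(.lf (nat_lit 208458) (.g (nat_lit 1876) (.e (nat_lit 81941) (nat_lit 20) (.e (nat_lit 1788) (nat_lit 119) (.e (nat_lit 516139) (nat_lit 7) (.e (nat_lit 409649) (nat_lit 18) (.e (nat_lit 311040) (nat_lit 2) .nil))))) .nil))) (.nd (nat_lit 6) 
(.lf (nat_lit 208426) (.g (nat_lit 1437) (.e (nat_lit 81940) (nat_lit 20) (.e (nat_lit 1023) (nat_lit 81) (.e (nat_lit 5905) (nat_lit 320) (.e (nat_lit 1220) (nat_lit 90) (.e (nat_lit 81959) (nat_lit 24) .nil))))) .nil)) 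
(.lf (nat_lit 208490) (.g (nat_lit 2439) (.e (nat_lit 81942) (nat_lit 20) (.e (nat_lit 1849) (nat_lit 124) (.e (nat_lit 557087) (nat_lit 11) (.e (nat_lit 24617) (nat_lit 7) (.e (nat_lit 319505) (nat_lit 10) .nil))))) .nil)))) (.nd (nat_lit 5) (.nd (nat_lit 6) 
(.lf (nat_lit 208410) (.g (nat_lit 2425) (.e (nat_lit 81939) (nat_lit 20) (.e (nat_lit 2281) (nat_lit 150) (.e (nat_lit 770072) (nat_lit 8) (.e (nat_lit 65619) (nat_lit 10) (.e (nat_lit 344174) (nat_lit 42) (.e (nat_lit 769792) (nat_lit 10) .nil)))))) (.g (nat_lit 5) .nil .nil))) 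
(.lf (nat_lit 208474) (.g (nat_lit 2092) (.e (nat_lit 81942) (nat_lit 20) (.e (nat_lit 1802) (nat_lit 119) (.e (nat_lit 516179) (nat_lit 15) (.e (nat_lit 475198) (nat_lit 40) (.e (nat_lit 704590) (nat_lit 3) .nil))))) .nil))) (.nd (nat_lit 6) 
(.lf (nat_lit 208442) (.g (nat_lit 2144) (.e (nat_lit 81941) (nat_lit 20) (.e (nat_lit 1788) (nat_lit 119) (.e (nat_lit 516139) (nat_lit 7) (.e (nat_lit 409616) (nat_lit 10) (.e (nat_lit 5756) (nat_lit 315) .nil))))) .nil)) 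
(.lf (nat_lit 208506) (.g (nat_lit 1134) (.e (nat_lit 81942) (nat_lit 20) (.e (nat_lit 1962) (nat_lit 134) (.e (nat_lit 638999) (nat_lit 8) (.e (nat_lit 172113) (nat_lit 10) (.e (nat_lit 434269) (nat_lit 36) (.e (nat_lit 639023) (nat_lit 18) .nil)))))) (.g (nat_lit 5) .nil .nil))))))) (.nd (nat_lit 3) (.nd (nat_lit 4) (.nd (nat_lit 5) (.nd (nat_lit 6) 
(.lf (nat_lit 208390) (.g (nat_lit 1904) (.e (nat_lit 81939) (nat_lit 20) (.e (nat_lit 2281) (nat_lit 150) (.e (nat_lit 770072) (nat_lit 8) (.e (nat_lit 65583) (nat_lit 7) (.e (nat_lit 319516) (nat_lit 11) .nil))))) .nil)) 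
(.lf (nat_lit 208454) (.g (nat_lit 1332) (.e (nat_lit 81941) (nat_lit 20) (.e (nat_lit 1788) (nat_lit 119) (.e (nat_lit 516139) (nat_lit 7) (.e (nat_lit 409649) (nat_lit 18) .nil)))) .nil))) (.nd (nat_lit 6) 
(.lf (nat_lit 208422) (.g (nat_lit 1324) (.e (nat_lit 81939) (nat_lit 20) (.e (nat_lit 2391) (nat_lit 156) (.e (nat_lit 819204) (nat_lit 0) (.e (nat_lit 2999) (nat_lit 186) (.e (nat_lit 450304) (nat_lit 2) .nil))))) .nil)) 
(.lf (nat_lit 208486) (.g (nat_lit 3512) (.e (nat_lit 81942) (nat_lit 20) (.e (nat_lit 1842) (nat_lit 123) (.e (nat_lit 548889) (nat_lit 9) (.e (nat_lit 65624) (nat_lit 12) (.e (nat_lit 385072) (nat_lit 31) .nil))))) .nil)))) (.nd (nat_lit 5) (.nd (nat_lit 6) 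
(.lf (nat_lit 208406) (.g (nat_lit 3362) (.e (nat_lit 81939) (nat_lit 20) (.e (nat_lit 2281) (nat_lit 150) (.e (nat_lit 770072) (nat_lit 8) (.e (nat_lit 65617) (nat_lit 10) (.e (nat_lit 344096) (nat_lit 18) (.e (nat_lit 7122) (nat_lit 382) (.e (nat_lit 7936) (nat_lit 90) .nil))))))) (.g (nat_lit 6) .nil .nil))) 
(.lf (nat_lit 208470) (.g (nat_lit 1215) (.e (nat_lit 81941) (nat_lit 20) (.e (nat_lit 2270) (nat_lit 149) (.e (nat_lit 761868) (nat_lit 5) (.e (nat_lit 1597) (nat_lit 111) (.e (nat_lit 360488) (nat_lit 20) .nil))))) .nil))) (.nd (nat_lit 6) 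
(.lf (nat_lit 208438) (.g (nat_lit 741) (.e (nat_lit 81940) (nat_lit 20) (.e (nat_lit 2270) (nat_lit 149) (.e (nat_lit 761868) (nat_lit 5) (.e (nat_lit 1597) (nat_lit 111) .nil)))) .nil)) 
(.lf (nat_lit 208502) (.g (nat_lit 86) (.e (nat_lit 81942) (nat_lit 20) (.e (nat_lit 1886) (nat_lit 127) (.e (nat_lit 581652) (nat_lit 5) .nil))) .nil))))) (.nd (nat_lit 4) (.nd (nat_lit 5) (.nd (nat_lit 6) 
(.lf (nat_lit 208398) (.g (nat_lit 2053) (.e (nat_lit 81939) (nat_lit 20) (.e (nat_lit 2281) (nat_lit 150) (.e (nat_lit 770072) (nat_lit 8) (.e (nat_lit 65611) (nat_lit 10) (.e (nat_lit 344174) (nat_lit 42) (.e (nat_lit 769792) (nat_lit 10) .nil)))))) (.g (nat_lit 5) .nil .nil))) 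
(.lf (nat_lit 208462) (.g (nat_lit 2498) (.e (nat_lit 81941) (nat_lit 20) (.e (nat_lit 1848) (nat_lit 124) (.e (nat_lit 557087) (nat_lit 11) (.e (nat_lit 24617) (nat_lit 7) (.e (nat_lit 319505) (nat_lit 10) .nil))))) .nil))) (.nd (nat_lit 6) 
(.lf (nat_lit 208430) (.g (nat_lit 1874) (.e (nat_lit 81940) (nat_lit 20) (.e (nat_lit 1858) (nat_lit 124) (.e (nat_lit 557093) (nat_lit 12) (.e (nat_lit 164022) (nat_lit 46) (.e (nat_lit 704737) (nat_lit 11) .nil))))) .nil)) 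
(.lf (nat_lit 208494) (.g (nat_lit 1391) (.e (nat_lit 81942) (nat_lit 20) (.e (nat_lit 1858) (nat_lit 124) (.e (nat_lit 557085) (nat_lit 11) (.e (nat_lit 24653) (nat_lit 12) .nil)))) .nil)))) (.nd (nat_lit 5) (.nd (nat_lit 6) 
(.lf (nat_lit 208414) (.g (nat_lit 2144) (.e (nat_lit 81939) (nat_lit 20) (.e (nat_lit 2281) (nat_lit 150) (.e (nat_lit 770074) (nat_lit 10) (.e (nat_lit 81948) (nat_lit 21) (.e (nat_lit 57655) (nat_lit 152) (.e (nat_lit 1216) (nat_lit 90) .nil)))))) (.g (nat_lit 6) .nil .nil))) 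
(.lf (nat_lit 208478) (.g (nat_lit 1992) (.e (nat_lit 81942) (nat_lit 20) (.e (nat_lit 1841) (nat_lit 123) (.e (nat_lit 548874) (nat_lit 5) (.e (nat_lit 1598) (nat_lit 111) (.e (nat_lit 360471) (nat_lit 7) (.e (nat_lit 548891) (nat_lit 11) .nil)))))) (.g (nat_lit 0) .nil .nil)))) (.nd (nat_lit 6) 
(.lf (nat_lit 208446) (.g (nat_lit 1556) (.e (nat_lit 81941) (nat_lit 20) (.e (nat_lit 1788) (nat_lit 119) (.e (nat_lit 516139) (nat_lit 7) (.e (nat_lit 409617) (nat_lit 10) (.e (nat_lit 5762) (nat_lit 315) .nil))))) .nil)) 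
(.lf (nat_lit 208510) (.g (nat_lit 1458) (.e (nat_lit 81942) (nat_lit 20) (.e (nat_lit 2000) (nat_lit 138) (.e (nat_lit 671762) (nat_lit 4) (.e (nat_lit 65619) (nat_lit 10) (.e (nat_lit 344169) (nat_lit 40) .nil))))) .nil)))))))) (.nd (nat_lit 1) (.nd (nat_lit 2) (.nd (nat_lit 3) (.nd (nat_lit 4) (.nd (nat_lit 5) (.nd (nat_lit 6) 
(.lf (nat_lit 208385) (.g (nat_lit 2113) (.e (nat_lit 81939) (nat_lit 20) (.e (nat_lit 2281) (nat_lit 150) (.e (nat_lit 770058) (nat_lit 5) (.e (nat_lit 1598) (nat_lit 111) (.e (nat_lit 360449) (nat_lit 0) (.e (nat_lit 7122) (nat_lit 382) (.e (nat_lit 7936) (nat_lit 90) .nil))))))) (.g (nat_lit 6) .nil .nil))) 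
(.lf (nat_lit 208449) (.g (nat_lit 2280) (.e (nat_lit 81941) (nat_lit 20) (.e (nat_lit 1788) (nat_lit 119) (.e (nat_lit 516139) (nat_lit 7) (.e (nat_lit 409644) (nat_lit 18) (.e (nat_lit 303117) (nat_lit 2) .nil))))) .nil))) (.nd (nat_lit 6) 
(.lf (nat_lit 208417) (.g (nat_lit 2651) (.e (nat_lit 81939) (nat_lit 20) (.e (nat_lit 2281) (nat_lit 150) (.e (nat_lit 770076) (nat_lit 12) (.e (nat_lit 131116) (nat_lit 9) (.e (nat_lit 335988) (nat_lit 1) (.e (nat_lit 57665) (nat_lit 152) (.e (nat_lit 7936) (nat_lit 90) .nil))))))) (.g (nat_lit 6) .nil .nil))) 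
(.lf (nat_lit 208481) (.g (nat_lit 1130) (.e (nat_lit 81942) (nat_lit 20) (.e (nat_lit 1842) (nat_lit 123) (.e (nat_lit 548874) (nat_lit 5) (.e (nat_lit 1464) (nat_lit 108) .nil)))) .nil)))) (.nd (nat_lit 5) (.nd (nat_lit 6) 
(.lf (nat_lit 208401) (.g (nat_lit 2808) (.e (nat_lit 81939) (nat_lit 20) (.e (nat_lit 2281) (nat_lit 150) (.e (nat_lit 770072) (nat_lit 8) (.e (nat_lit 65617) (nat_lit 10) (.e (nat_lit 344091) (nat_lit 18) (.e (nat_lit 7119) (nat_lit 382) (.e (nat_lit 7936) (nat_lit 90) .nil))))))) (.g (nat_lit 6) .nil .nil))) 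
(.lf (nat_lit 208465) (.g (nat_lit 3307) (.e (nat_lit 81941) (nat_lit 20) (.e (nat_lit 1968) (nat_lit 135) (.e (nat_lit 647203) (nat_lit 14) (.e (nat_lit 1349) (nat_lit 102) (.e (nat_lit 286759) (nat_lit 12) (.e (nat_lit 385094) (nat_lit 49) (.e (nat_lit 778326) (nat_lit 6) .nil))))))) (.g (nat_lit 7) .nil .nil)))) (.nd (nat_lit 6) 
(.lf (nat_lit 208433) (.g (nat_lit 1603) (.e (nat_lit 81940) (nat_lit 20) (.e (nat_lit 1859) (nat_lit 124) (.e (nat_lit 557091) (nat_lit 12) (.e (nat_lit 164022) (nat_lit 46) .nil)))) .nil)) 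
(.lf (nat_lit 208497) (.g (nat_lit 545) (.e (nat_lit 81942) (nat_lit 20) (.e (nat_lit 1858) (nat_lit 124) (.e (nat_lit 557093) (nat_lit 12) .nil))) .nil))))) (.nd (nat_lit 4) (.nd (nat_lit 5) (.nd (nat_lit 6) 
(.lf (nat_lit 208393) (.g (nat_lit 2705) (.e (nat_lit 81939) (nat_lit 20) (.e (nat_lit 2281) (nat_lit 150) (.e (nat_lit 770072) (nat_lit 8) (.e (nat_lit 65610) (nat_lit 10) (.e (nat_lit 344090) (nat_lit 18) (.e (nat_lit 7119) (nat_lit 382) (.e (nat_lit 7936) (nat_lit 90) .nil))))))) (.g (nat_lit 6) .nil .nil))) 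
(.lf (nat_lit 208457) (.g (nat_lit 3266) (.e (nat_lit 81941) (nat_lit 20) (.e (nat_lit 1788) (nat_lit 119) (.e (nat_lit 516139) (nat_lit 7) (.e (nat_lit 409649) (nat_lit 18) (.e (nat_lit 303111) (nat_lit 0) (.e (nat_lit 7936) (nat_lit 193) (.e (nat_lit 500077) (nat_lit 20) .nil))))))) (.g (nat_lit 5) .nil .nil)))) (.nd (nat_lit 6) 
(.lf (nat_lit 208425) (.g (nat_lit 408) (.e (nat_lit 81939) (nat_lit 20) (.e (nat_lit 2391) (nat_lit 156) (.e (nat_lit 819221) (nat_lit 6) .nil))) .nil)) 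
(.lf (nat_lit 208489) (.g (nat_lit 2532) (.e (nat_lit 81942) (nat_lit 20) (.e (nat_lit 1848) (nat_lit 124) (.e (nat_lit 557087) (nat_lit 11) (.e (nat_lit 24617) (nat_lit 7) (.e (nat_lit 319505) (nat_lit 10) (.e (nat_lit 7936) (nat_lit 41) (.e (nat_lit 500077) (nat_lit 20) .nil))))))) (.g (nat_lit 4) .nil .nil))))) (.nd (nat_lit 5) (.nd (nat_lit 6) 
(.lf (nat_lit 208409) (.g (nat_lit 1785) (.e (nat_lit 81939) (nat_lit 20) (.e (nat_lit 2281) (nat_lit 150) (.e (nat_lit 770072) (nat_lit 8) (.e (nat_lit 65619) (nat_lit 10) (.e (nat_lit 344173) (nat_lit 42) .nil))))) .nil)) 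
(.lf (nat_lit 208473) (.g (nat_lit 2382) (.e (nat_lit 81942) (nat_lit 20) (.e (nat_lit 1788) (nat_lit 119) (.e (nat_lit 516139) (nat_lit 7) (.e (nat_lit 409648) (nat_lit 18) (.e (nat_lit 303116) (nat_lit 2) .nil))))) .nil))) (.nd (nat_lit 6) 
(.lf (nat_lit 208441) (.g (nat_lit 489) (.e (nat_lit 81941) (nat_lit 20) (.e (nat_lit 1788) (nat_lit 119) (.e (nat_lit 516139) (nat_lit 7) .nil))) .nil)) 
(.lf (nat_lit 208505) (.g (nat_lit 910) (.e (nat_lit 81942) (nat_lit 20) (.e (nat_lit 1962) (nat_lit 134) (.e (nat_lit 638999) (nat_lit 8) (.e (nat_lit 172107) (nat_lit 10) (.e (nat_lit 434269) (nat_lit 36) (.e (nat_lit 639023) (nat_lit 18) .nil)))))) (.g (nat_lit 6) .nil .nil))))))) (.nd (nat_lit 3) (.nd (nat_lit 4) (.nd (nat_lit 5) (.nd (nat_lit 6) 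
(.lf (nat_lit 208389) (.g (nat_lit 1266) (.e (nat_lit 81939) (nat_lit 20) (.e (nat_lit 2281) (nat_lit 150) (.e (nat_lit 770058) (nat_lit 5) (.e (nat_lit 1599) (nat_lit 111) (.e (nat_lit 360488) (nat_lit 20) (.e (nat_lit 769792) (nat_lit 10) .nil)))))) (.g (nat_lit 5) .nil .nil))) 
(.lf (nat_lit 208453) (.g (nat_lit 1226) (.e (nat_lit 81941) (nat_lit 20) (.e (nat_lit 1788) (nat_lit 119) (.e (nat_lit 516139) (nat_lit 7) (.e (nat_lit 409648) (nat_lit 18) .nil)))) .nil))) (.nd (nat_lit 6) 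
(.lf (nat_lit 208421) (.g (nat_lit 957) (.e (nat_lit 81939) (nat_lit 20) (.e (nat_lit 2391) (nat_lit 156) (.e (nat_lit 819203) (nat_lit 0) (.e (nat_lit 2999) (nat_lit 186) (.e (nat_lit 450304) (nat_lit 2) .nil))))) .nil)) 
(.lf (nat_lit 208485) (.g (nat_lit 1695) (.e (nat_lit 81942) (nat_lit 20) (.e (nat_lit 1842) (nat_lit 123) (.e (nat_lit 548889) (nat_lit 9) (.e (nat_lit 65586) (nat_lit 7) (.e (nat_lit 319519) (nat_lit 12) .nil))))) .nil)))) (.nd (nat_lit 5) (.nd (nat_lit 6) 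
(.lf (nat_lit 208405) (.g (nat_lit 2899) (.e (nat_lit 81939) (nat_lit 20) (.e (nat_lit 2281) (nat_lit 150) (.e (nat_lit 770072) (nat_lit 8) (.e (nat_lit 65617) (nat_lit 10) (.e (nat_lit 344096) (nat_lit 18) (.e (nat_lit 7119) (nat_lit 382) (.e (nat_lit 7936) (nat_lit 90) .nil))))))) (.g (nat_lit 6) .nil .nil))) 
(.lf (nat_lit 208469) (.g (nat_lit 1187) (.e (nat_lit 81941) (nat_lit 20) (.e (nat_lit 2270) (nat_lit 149) (.e (nat_lit 761868) (nat_lit 5) (.e (nat_lit 1597) (nat_lit 111) (.e (nat_lit 360449) (nat_lit 0) .nil))))) .nil))) (.nd (nat_lit 6) 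
(.lf (nat_lit 208437) (.g (nat_lit 731) (.e (nat_lit 81940) (nat_lit 20) (.e (nat_lit 2270) (nat_lit 149) (.e (nat_lit 761868) (nat_lit 5) (.e (nat_lit 1582) (nat_lit 111) .nil)))) .nil)) 
(.lf (nat_lit 208501) (.g (nat_lit 1578) (.e (nat_lit 81942) (nat_lit 20) (.e (nat_lit 1858) (nat_lit 124) (.e (nat_lit 557094) (nat_lit 12) (.e (nat_lit 164022) (nat_lit 46) (.e (nat_lit 704737) (nat_lit 11) .nil))))) .nil))))) (.nd (nat_lit 4) (.nd (nat_lit 5) (.nd (nat_lit 6) 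
(.lf (nat_lit 208397) (.g (nat_lit 1981) (.e (nat_lit 81939) (nat_lit 20) (.e (nat_lit 2281) (nat_lit 150) (.e (nat_lit 770072) (nat_lit 8) (.e (nat_lit 65610) (nat_lit 10) (.e (nat_lit 344175) (nat_lit 43) .nil))))) .nil)) 
(.lf (nat_lit 208461) (.g (nat_lit 2770) (.e (nat_lit 81941) (nat_lit 20) (.e (nat_lit 1848) (nat_lit 124) (.e (nat_lit 557087) (nat_lit 11) (.e (nat_lit 24617) (nat_lit 7) (.e (nat_lit 319504) (nat_lit 10) (.e (nat_lit 7936) (nat_lit 41) (.e (nat_lit 500077) (nat_lit 20) .nil))))))) (.g (nat_lit 4) .nil .nil)))) (.nd (nat_lit 6) 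
(.lf (nat_lit 208429) (.g (nat_lit 2658) (.e (nat_lit 81940) (nat_lit 20) (.e (nat_lit 1848) (nat_lit 124) (.e (nat_lit 557087) (nat_lit 11) (.e (nat_lit 24617) (nat_lit 7) (.e (nat_lit 319505) (nat_lit 10) (.e (nat_lit 7936) (nat_lit 41) (.e (nat_lit 500077) (nat_lit 20) .nil))))))) (.g (nat_lit 4) .nil .nil))) 
(.lf (nat_lit 208493) (.g (nat_lit 1416) (.e (nat_lit 81942) (nat_lit 20) (.e (nat_lit 1858) (nat_lit 124) (.e (nat_lit 557085) (nat_lit 11) (.e (nat_lit 24651) (nat_lit 12) .nil)))) .nil)))) (.nd (nat_lit 5) (.nd (nat_lit 6) 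
(.lf (nat_lit 208413) (.g (nat_lit 1409) (.e (nat_lit 81939) (nat_lit 20) (.e (nat_lit 2281) (nat_lit 150) (.e (nat_lit 770074) (nat_lit 10) (.e (nat_lit 81948) (nat_lit 21) (.e (nat_lit 57654) (nat_lit 152) .nil))))) .nil)) 
(.lf (nat_lit 208477) (.g (nat_lit 2515) (.e (nat_lit 81942) (nat_lit 20) (.e (nat_lit 1841) (nat_lit 123) (.e (nat_lit 548874) (nat_lit 5) (.e (nat_lit 1589) (nat_lit 111) (.e (nat_lit 360471) (nat_lit 7) (.e (nat_lit 548891) (nat_lit 11) .nil)))))) (.g (nat_lit 0) .nil .nil)))) (.nd (nat_lit 6) 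
(.lf (nat_lit 208445) (.g (nat_lit 1721) (.e (nat_lit 81941) (nat_lit 20) (.e (nat_lit 1788) (nat_lit 119) (.e (nat_lit 516139) (nat_lit 7) (.e (nat_lit 409616) (nat_lit 10) (.e (nat_lit 7936) (nat_lit 315) (.e (nat_lit 163950) (nat_lit 21) (.e (nat_lit 507648) (nat_lit 20) .nil))))))) (.g (nat_lit 4) .nil .nil))) 
(.lf (nat_lit 208509) (.g (nat_lit 1468) (.e (nat_lit 81942) (nat_lit 20) (.e (nat_lit 2000) (nat_lit 138) (.e (nat_lit 671762) (nat_lit 4) (.e (nat_lit 65619) (nat_lit 10) (.e (nat_lit 344168) (nat_lit 40) .nil))))) .nil))))))) (.nd (nat_lit 2) (.nd (nat_lit 3) (.nd (nat_lit 4) (.nd (nat_lit 5) (.nd (nat_lit 6) 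
(.lf (nat_lit 208387) (.g (nat_lit 2481) (.e (nat_lit 81939) (nat_lit 20) (.e (nat_lit 2281) (nat_lit 150) (.e (nat_lit 770058) (nat_lit 5) (.e (nat_lit 1598) (nat_lit 111) (.e (nat_lit 360452) (nat_lit 0) (.e (nat_lit 7147) (nat_lit 382) (.e (nat_lit 1216) (nat_lit 90) .nil))))))) (.g (nat_lit 7) .nil .nil))) 
(.lf (nat_lit 208451) (.g (nat_lit 2726) (.e (nat_lit 81941) (nat_lit 20) (.e (nat_lit 1788) (nat_lit 119) (.e (nat_lit 516139) (nat_lit 7) (.e (nat_lit 409645) (nat_lit 18) (.e (nat_lit 303117) (nat_lit 2) .nil))))) .nil))) (.nd (nat_lit 6) 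
(.lf (nat_lit 208419) (.g (nat_lit 1021) (.e (nat_lit 81939) (nat_lit 20) (.e (nat_lit 2390) (nat_lit 156) (.e (nat_lit 819204) (nat_lit 0) (.e (nat_lit 2999) (nat_lit 186) (.e (nat_lit 450304) (nat_lit 2) .nil))))) .nil)) 
(.lf (nat_lit 208483) (.g (nat_lit 1240) (.e (nat_lit 81942) (nat_lit 20) (.e (nat_lit 1842) (nat_lit 123) (.e (nat_lit 548889) (nat_lit 9) (.e (nat_lit 65585) (nat_lit 7) (.e (nat_lit 319519) (nat_lit 12) .nil))))) .nil)))) (.nd (nat_lit 5) (.nd (nat_lit 6) 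
(.lf (nat_lit 208403) (.g (nat_lit 2095) (.e (nat_lit 81939) (nat_lit 20) (.e (nat_lit 2281) (nat_lit 150) (.e (nat_lit 770072) (nat_lit 8) (.e (nat_lit 65617) (nat_lit 10) (.e (nat_lit 344095) (nat_lit 18) (.e (nat_lit 7119) (nat_lit 382) (.e (nat_lit 7936) (nat_lit 90) .nil))))))) (.g (nat_lit 5) .nil .nil))) 
(.lf (nat_lit 208467) (.g (nat_lit 787) (.e (nat_lit 81941) (nat_lit 20) (.e (nat_lit 2270) (nat_lit 149) (.e (nat_lit 761868) (nat_lit 5) (.e (nat_lit 1585) (nat_lit 111) .nil)))) .nil))) (.nd (nat_lit 6) 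
(.lf (nat_lit 208435) (.g (nat_lit 456) (.e (nat_lit 81940) (nat_lit 20) (.e (nat_lit 2270) (nat_lit 149) (.e (nat_lit 761866) (nat_lit 5) .nil))) .nil)) 
(.lf (nat_lit 208499) (.g (nat_lit 1957) (.e (nat_lit 81942) (nat_lit 20) (.e (nat_lit 1858) (nat_lit 124) (.e (nat_lit 557093) (nat_lit 12) (.e (nat_lit 164022) (nat_lit 46) (.e (nat_lit 704737) (nat_lit 11) .nil))))) .nil))))) (.nd (nat_lit 4) (.nd (nat_lit 5) (.nd (nat_lit 6) 
(.lf (nat_lit 208395) (.g (nat_lit 2121) (.e (nat_lit 81939) (nat_lit 20) (.e (nat_lit 2281) (nat_lit 150) (.e (nat_lit 770072) (nat_lit 8) (.e (nat_lit 65610) (nat_lit 10) (.e (nat_lit 344173) (nat_lit 42) (.e (nat_lit 769792) (nat_lit 10) .nil)))))) (.g (nat_lit 5) .nil .nil))) 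
(.lf (nat_lit 208459) (.g (nat_lit 1492) (.e (nat_lit 81941) (nat_lit 20) (.e (nat_lit 1788) (nat_lit 119) (.e (nat_lit 516139) (nat_lit 7) (.e (nat_lit 417536) (nat_lit 18) .nil)))) .nil))) (.nd (nat_lit 6) 
(.lf (nat_lit 208427) (.g (nat_lit 4849) (.e (nat_lit 81940) (nat_lit 20) (.e (nat_lit 1788) (nat_lit 119) (.e (nat_lit 516139) (nat_lit 7) (.e (nat_lit 409646) (nat_lit 18) (.e (nat_lit 303117) (nat_lit 2) (.e (nat_lit 196674) (nat_lit 15) .nil)))))) (.g (nat_lit 6) .nil .nil))) 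
(.lf (nat_lit 208491) (.g (nat_lit 1626) (.e (nat_lit 81942) (nat_lit 20) (.e (nat_lit 1849) (nat_lit 124) (.e (nat_lit 557087) (nat_lit 11) (.e (nat_lit 24647) (nat_lit 12) .nil)))) .nil)))) (.nd (nat_lit 5) (.nd (nat_lit 6) 
(.lf (nat_lit 208411) (.g (nat_lit 2059) (.e (nat_lit 81939) (nat_lit 20) (.e (nat_lit 2281) (nat_lit 150) (.e (nat_lit 770072) (nat_lit 8) (.e (nat_lit 65620) (nat_lit 10) (.e (nat_lit 344174) (nat_lit 42) (.e (nat_lit 769792) (nat_lit 10) .nil)))))) (.g (nat_lit 5) .nil .nil))) 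
(.lf (nat_lit 208475) (.g (nat_lit 3795) (.e (nat_lit 81942) (nat_lit 20) (.e (nat_lit 1840) (nat_lit 123) (.e (nat_lit 548889) (nat_lit 9) (.e (nat_lit 65624) (nat_lit 12) (.e (nat_lit 385072) (nat_lit 31) .nil))))) .nil))) (.nd (nat_lit 6) 
(.lf (nat_lit 208443) (.g (nat_lit 2116) (.e (nat_lit 81941) (nat_lit 20) (.e (nat_lit 1788) (nat_lit 119) (.e (nat_lit 516139) (nat_lit 7) (.e (nat_lit 409616) (nat_lit 10) (.e (nat_lit 5762) (nat_lit 315) .nil))))) .nil)) 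
(.lf (nat_lit 208507) (.g (nat_lit 1298) (.e (nat_lit 81942) (nat_lit 20) (.e (nat_lit 2000) (nat_lit 138) (.e (nat_lit 671761) (nat_lit 4) (.e (nat_lit 65610) (nat_lit 10) (.e (nat_lit 344168) (nat_lit 40) .nil))))) .nil)))))) (.nd (nat_lit 3) (.nd (nat_lit 4) (.nd (nat_lit 5) (.nd (nat_lit 6) 
(.lf (nat_lit 208391) (.g (nat_lit 2073) (.e (nat_lit 81939) (nat_lit 20) (.e (nat_lit 2281) (nat_lit 150) (.e (nat_lit 770072) (nat_lit 8) (.e (nat_lit 65598) (nat_lit 9) (.e (nat_lit 335903) (nat_lit 0) .nil))))) .nil)) 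
(.lf (nat_lit 208455) (.g (nat_lit 2269) (.e (nat_lit 81941) (nat_lit 20) (.e (nat_lit 1788) (nat_lit 119) (.e (nat_lit 516139) (nat_lit 7) (.e (nat_lit 409649) (nat_lit 18) (.e (nat_lit 303111) (nat_lit 0) .nil))))) .nil))) (.nd (nat_lit 6) 
(.lf (nat_lit 208423) (.g (nat_lit 1276) (.e (nat_lit 81939) (nat_lit 20) (.e (nat_lit 2391) (nat_lit 156) (.e (nat_lit 819218) (nat_lit 4) (.e (nat_lit 172106) (nat_lit 10) (.e (nat_lit 434241) (nat_lit 27) .nil))))) .nil)) 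
(.lf (nat_lit 208487) (.g (nat_lit 2222) (.e (nat_lit 81942) (nat_lit 20) (.e (nat_lit 1842) (nat_lit 123) (.e (nat_lit 548891) (nat_lit 11) (.e (nat_lit 81943) (nat_lit 20) (.e (nat_lit 1841) (nat_lit 123) (.e (nat_lit 548891) (nat_lit 11) .nil)))))) (.g (nat_lit 0) .nil .nil))))) (.nd (nat_lit 5) (.nd (nat_lit 6) 
(.lf (nat_lit 208407) (.g (nat_lit 1880) (.e (nat_lit 81939) (nat_lit 20) (.e (nat_lit 2281) (nat_lit 150) (.e (nat_lit 770072) (nat_lit 8) (.e (nat_lit 65617) (nat_lit 10) (.e (nat_lit 344175) (nat_lit 43) .nil))))) .nil)) 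
(.lf (nat_lit 208471) (.g (nat_lit 2873) (.e (nat_lit 81942) (nat_lit 20) (.e (nat_lit 1023) (nat_lit 81) (.e (nat_lit 7270) (nat_lit 385) (.e (nat_lit 122919) (nat_lit 15) (.e (nat_lit 360451) (nat_lit 0) (.e (nat_lit 7124) (nat_lit 382) (.e (nat_lit 7936) (nat_lit 90) .nil))))))) (.g (nat_lit 6) .nil .nil)))) (.nd (nat_lit 6) 
(.lf (nat_lit 208439) (.g (nat_lit 1179) (.e (nat_lit 81940) (nat_lit 20) (.e (nat_lit 2270) (nat_lit 149) (.e (nat_lit 761868) (nat_lit 5) (.e (nat_lit 1597) (nat_lit 111) (.e (nat_lit 360449) (nat_lit 0) .nil))))) .nil)) 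
(.lf (nat_lit 208503) (.g (nat_lit 1139) (.e (nat_lit 81942) (nat_lit 20) (.e (nat_lit 1886) (nat_lit 127) (.e (nat_lit 581653) (nat_lit 6) (.e (nat_lit 188434) (nat_lit 20) (.e (nat_lit 3577) (nat_lit 223) .nil))))) .nil))))) (.nd (nat_lit 4) (.nd (nat_lit 5) (.nd (nat_lit 6) 
(.lf (nat_lit 208399) (.g (nat_lit 2010) (.e (nat_lit 81939) (nat_lit 20) (.e (nat_lit 2281) (nat_lit 150) (.e (nat_lit 770072) (nat_lit 8) (.e (nat_lit 65616) (nat_lit 10) (.e (nat_lit 344174) (nat_lit 42) (.e (nat_lit 769792) (nat_lit 10) .nil)))))) (.g (nat_lit 5) .nil .nil))) 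
(.lf (nat_lit 208463) (.g (nat_lit 2623) (.e (nat_lit 81941) (nat_lit 20) (.e (nat_lit 1848) (nat_lit 124) (.e (nat_lit 557087) (nat_lit 11) (.e (nat_lit 24617) (nat_lit 7) (.e (nat_lit 319505) (nat_lit 10) (.e (nat_lit 7936) (nat_lit 41) (.e (nat_lit 500077) (nat_lit 20) .nil))))))) (.g (nat_lit 4) .nil .nil)))) (.nd (nat_lit 6) 
(.lf (nat_lit 208431) (.g (nat_lit 1607) (.e (nat_lit 81940) (nat_lit 20) (.e (nat_lit 1858) (nat_lit 124) (.e (nat_lit 557093) (nat_lit 12) (.e (nat_lit 164023) (nat_lit 46) .nil)))) .nil)) 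
(.lf (nat_lit 208495) (.g (nat_lit 1419) (.e (nat_lit 81942) (nat_lit 20) (.e (nat_lit 1858) (nat_lit 124) (.e (nat_lit 557091) (nat_lit 12) (.e (nat_lit 163999) (nat_lit 38) .nil)))) .nil)))) (.nd (nat_lit 5) (.nd (nat_lit 6) 
(.lf (nat_lit 208415) (.g (nat_lit 2386) (.e (nat_lit 81939) (nat_lit 20) (.e (nat_lit 2281) (nat_lit 150) (.e (nat_lit 770074) (nat_lit 10) (.e (nat_lit 81950) (nat_lit 21) (.e (nat_lit 57655) (nat_lit 152) (.e (nat_lit 1216) (nat_lit 90) .nil)))))) (.g (nat_lit 6) .nil .nil))) 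
(.lf (nat_lit 208479) (.g (nat_lit 3604) (.e (nat_lit 81942) (nat_lit 20) (.e (nat_lit 1841) (nat_lit 123) (.e (nat_lit 548889) (nat_lit 9) (.e (nat_lit 65624) (nat_lit 12) (.e (nat_lit 385072) (nat_lit 31) .nil))))) .nil))) (.nd (nat_lit 6) 
(.lf (nat_lit 208447) (.g (nat_lit 1618) (.e (nat_lit 81941) (nat_lit 20) (.e (nat_lit 1788) (nat_lit 119) (.e (nat_lit 516139) (nat_lit 7) (.e (nat_lit 409617) (nat_lit 10) (.e (nat_lit 7936) (nat_lit 315) .nil))))) .nil)) 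
(.lf (nat_lit 208511) (.g (nat_lit 997) (.e (nat_lit 81942) (nat_lit 20) (.e (nat_lit 2003) (nat_lit 138) (.e (nat_lit 671762) (nat_lit 4) (.e (nat_lit 65611) (nat_lit 10) (.e (nat_lit 344168) (nat_lit 40) .nil))))) .nil)))))))))

noncomputable def tv2750 : DT := (.nd (nat_lit 0) (.nd (nat_lit 1) (.nd (nat_lit 2) (.nd (nat_lit 3) (.nd (nat_lit 4) (.nd (nat_lit 5) 
(.lf (nat_lit 208512) (.g (nat_lit 953) (.e (nat_lit 81942) (nat_lit 20) (.e (nat_lit 2003) (nat_lit 138) (.e (nat_lit 671764) (nat_lit 6) (.e (nat_lit 81938) (nat_lit 20) (.e (nat_lit 2006) (nat_lit 138) .nil))))) .nil)) 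
(.lf (nat_lit 208544) (.g (nat_lit 2569) (.e (nat_lit 81942) (nat_lit 20) (.e (nat_lit 2280) (nat_lit 150) (.e (nat_lit 770071) (nat_lit 8) (.e (nat_lit 65617) (nat_lit 10) (.e (nat_lit 344091) (nat_lit 18) (.e (nat_lit 7124) (nat_lit 382) (.e (nat_lit 7936) (nat_lit 90) .nil))))))) (.g (nat_lit 6) .nil .nil)))) (.nd (nat_lit 5) 
(.lf (nat_lit 208528) (.g (nat_lit 1244) (.e (nat_lit 81942) (nat_lit 20) (.e (nat_lit 2006) (nat_lit 138) (.e (nat_lit 671764) (nat_lit 6) (.e (nat_lit 81943) (nat_lit 20) (.e (nat_lit 2006) (nat_lit 138) (.e (nat_lit 671764) (nat_lit 6) .nil)))))) (.g (nat_lit 0) .nil .nil))) 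
(.lf (nat_lit 208560) (.g (nat_lit 675) (.e (nat_lit 81942) (nat_lit 20) (.e (nat_lit 2281) (nat_lit 150) (.e (nat_lit 770057) (nat_lit 5) (.e (nat_lit 1598) (nat_lit 111) .nil)))) .nil)))) (.nd (nat_lit 4) (.nd (nat_lit 5) 
(.lf (nat_lit 208520) (.g (nat_lit 2052) (.e (nat_lit 81942) (nat_lit 20) (.e (nat_lit 2005) (nat_lit 138) (.e (nat_lit 671748) (nat_lit 0) (.e (nat_lit 1589) (nat_lit 111) (.e (nat_lit 360486) (nat_lit 18) (.e (nat_lit 671764) (nat_lit 6) .nil)))))) (.g (nat_lit 6) .nil .nil))) 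
(.lf (nat_lit 208552) (.g (nat_lit 2886) (.e (nat_lit 81942) (nat_lit 20) (.e (nat_lit 2280) (nat_lit 150) (.e (nat_lit 770072) (nat_lit 8) (.e (nat_lit 65617) (nat_lit 10) (.e (nat_lit 344177) (nat_lit 43) (.e (nat_lit 770074) (nat_lit 10) .nil)))))) (.g (nat_lit 6) .nil .nil)))) (.nd (nat_lit 5) 
(.lf (nat_lit 208536) (.g (nat_lit 1024) (.e (nat_lit 81942) (nat_lit 20) (.e (nat_lit 2280) (nat_lit 150) (.e (nat_lit 770055) (nat_lit 5) (.e (nat_lit 1589) (nat_lit 111) .nil)))) .nil)) 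
(.lf (nat_lit 208568) (.g (nat_lit 1084) (.e (nat_lit 81942) (nat_lit 20) (.e (nat_lit 2281) (nat_lit 150) (.e (nat_lit 770058) (nat_lit 5) (.e (nat_lit 1598) (nat_lit 111) (.e (nat_lit 360449) (nat_lit 0) .nil))))) .nil))))) (.nd (nat_lit 3) (.nd (nat_lit 4) (.nd (nat_lit 5) 
(.lf (nat_lit 208516) (.g (nat_lit 1479) (.e (nat_lit 81942) (nat_lit 20) (.e (nat_lit 2004) (nat_lit 138) (.e (nat_lit 671764) (nat_lit 6) (.e (nat_lit 81938) (nat_lit 20) (.e (nat_lit 2006) (nat_lit 138) (.e (nat_lit 671764) (nat_lit 6) .nil)))))) (.g (nat_lit 6) .nil .nil))) 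
(.lf (nat_lit 208548) (.g (nat_lit 2461) (.e (nat_lit 81942) (nat_lit 20) (.e (nat_lit 2280) (nat_lit 150) (.e (nat_lit 770072) (nat_lit 8) (.e (nat_lit 65610) (nat_lit 10) (.e (nat_lit 344090) (nat_lit 18) (.e (nat_lit 7124) (nat_lit 382) (.e (nat_lit 7936) (nat_lit 90) .nil))))))) (.g (nat_lit 6) .nil .nil)))) (.nd (nat_lit 5) 
(.lf (nat_lit 208532) (.g (nat_lit 673) (.e (nat_lit 81942) (nat_lit 20) (.e (nat_lit 2270) (nat_lit 149) (.e (nat_lit 761868) (nat_lit 5) (.e (nat_lit 1597) (nat_lit 111) .nil)))) .nil)) 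
(.lf (nat_lit 208564) (.g (nat_lit 1466) (.e (nat_lit 81942) (nat_lit 20) (.e (nat_lit 2281) (nat_lit 150) (.e (nat_lit 770058) (nat_lit 5) (.e (nat_lit 1589) (nat_lit 111) (.e (nat_lit 360449) (nat_lit 0) .nil))))) .nil)))) (.nd (nat_lit 4) (.nd (nat_lit 5) 
(.lf (nat_lit 208524) (.g (nat_lit 1164) (.e (nat_lit 81942) (nat_lit 20) (.e (nat_lit 2005) (nat_lit 138) (.e (nat_lit 671764) (nat_lit 6) (.e (nat_lit 81947) (nat_lit 20) (.e (nat_lit 2003) (nat_lit 138) (.e (nat_lit 671764) (nat_lit 6) .nil)))))) (.g (nat_lit 4) .nil .nil))) 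
(.lf (nat_lit 208556) (.g (nat_lit 2047) (.e (nat_lit 81942) (nat_lit 20) (.e (nat_lit 2281) (nat_lit 150) (.e (nat_lit 770057) (nat_lit 5) (.e (nat_lit 1586) (nat_lit 111) (.e (nat_lit 360489) (nat_lit 21) (.e (nat_lit 770074) (nat_lit 10) .nil)))))) (.g (nat_lit 6) .nil .nil)))) (.nd (nat_lit 5) 
(.lf (nat_lit 208540) (.g (nat_lit 1090) (.e (nat_lit 81942) (nat_lit 20) (.e (nat_lit 2280) (nat_lit 150) (.e (nat_lit 770056) (nat_lit 5) (.e (nat_lit 1598) (nat_lit 111) (.e (nat_lit 360449) (nat_lit 0) (.e (nat_lit 7124) (nat_lit 382) (.e (nat_lit 7936) (nat_lit 90) .nil))))))) (.g (nat_lit 5) .nil .nil))) 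
(.lf (nat_lit 208572) (.g (nat_lit 2866) (.e (nat_lit 81942) (nat_lit 20) (.e (nat_lit 2281) (nat_lit 150) (.e (nat_lit 770072) (nat_lit 8) (.e (nat_lit 65610) (nat_lit 10) (.e (nat_lit 344090) (nat_lit 18) (.e (nat_lit 7124) (nat_lit 382) (.e (nat_lit 7936) (nat_lit 90) .nil))))))) (.g (nat_lit 6) .nil .nil))))))) (.nd (nat_lit 2) (.nd (nat_lit 3) (.nd (nat_lit 4) (.nd (nat_lit 5) 
(.lf (nat_lit 208514) (.g (nat_lit 622) (.e (nat_lit 81942) (nat_lit 20) (.e (nat_lit 2003) (nat_lit 138) (.e (nat_lit 671764) (nat_lit 6) (.e (nat_lit 81946) (nat_lit 20) .nil)))) .nil)) 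
(.lf (nat_lit 208546) (.g (nat_lit 2712) (.e (nat_lit 81942) (nat_lit 20) (.e (nat_lit 2280) (nat_lit 150) (.e (nat_lit 770071) (nat_lit 8) (.e (nat_lit 65617) (nat_lit 10) (.e (nat_lit 344096) (nat_lit 18) (.e (nat_lit 7124) (nat_lit 382) (.e (nat_lit 7936) (nat_lit 90) .nil))))))) (.g (nat_lit 6) .nil .nil)))) (.nd (nat_lit 5) 
(.lf (nat_lit 208530) (.g (nat_lit 1848) (.e (nat_lit 81942) (nat_lit 20) (.e (nat_lit 2006) (nat_lit 138) (.e (nat_lit 671764) (nat_lit 6) (.e (nat_lit 81947) (nat_lit 20) (.e (nat_lit 2006) (nat_lit 138) (.e (nat_lit 671764) (nat_lit 6) .nil)))))) (.g (nat_lit 0) .nil .nil))) 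
(.lf (nat_lit 208562) (.g (nat_lit 1788) (.e (nat_lit 81942) (nat_lit 20) (.e (nat_lit 2281) (nat_lit 150) (.e (nat_lit 770057) (nat_lit 5) (.e (nat_lit 1598) (nat_lit 111) (.e (nat_lit 360489) (nat_lit 21) (.e (nat_lit 770074) (nat_lit 10) .nil)))))) (.g (nat_lit 6) .nil .nil))))) (.nd (nat_lit 4) (.nd (nat_lit 5) 
(.lf (nat_lit 208522) (.g (nat_lit 1839) (.e (nat_lit 81942) (nat_lit 20) (.e (nat_lit 2005) (nat_lit 138) (.e (nat_lit 671748) (nat_lit 0) (.e (nat_lit 1598) (nat_lit 111) (.e (nat_lit 360486) (nat_lit 18) (.e (nat_lit 671764) (nat_lit 6) .nil)))))) (.g (nat_lit 6) .nil .nil))) 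
(.lf (nat_lit 208554) (.g (nat_lit 443) (.e (nat_lit 81942) (nat_lit 20) (.e (nat_lit 2281) (nat_lit 150) (.e (nat_lit 770056) (nat_lit 5) .nil))) .nil))) (.nd (nat_lit 5) 
(.lf (nat_lit 208538) (.g (nat_lit 919) (.e (nat_lit 81942) (nat_lit 20) (.e (nat_lit 2280) (nat_lit 150) (.e (nat_lit 770055) (nat_lit 5) (.e (nat_lit 1598) (nat_lit 111) .nil)))) .nil)) 
(.lf (nat_lit 208570) (.g (nat_lit 423) (.e (nat_lit 81942) (nat_lit 20) (.e (nat_lit 2281) (nat_lit 150) (.e (nat_lit 770072) (nat_lit 8) .nil))) .nil))))) (.nd (nat_lit 3) (.nd (nat_lit 4) (.nd (nat_lit 5) 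
(.lf (nat_lit 208518) (.g (nat_lit 1685) (.e (nat_lit 81942) (nat_lit 20) (.e (nat_lit 2004) (nat_lit 138) (.e (nat_lit 671764) (nat_lit 6) (.e (nat_lit 81947) (nat_lit 20) (.e (nat_lit 2005) (nat_lit 138) (.e (nat_lit 671764) (nat_lit 6) .nil)))))) (.g (nat_lit 6) .nil .nil))) 
(.lf (nat_lit 208550) (.g (nat_lit 1560) (.e (nat_lit 81942) (nat_lit 20) (.e (nat_lit 2280) (nat_lit 150) (.e (nat_lit 770072) (nat_lit 8) (.e (nat_lit 65617) (nat_lit 10) (.e (nat_lit 344095) (nat_lit 18) .nil))))) .nil))) (.nd (nat_lit 5) 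
(.lf (nat_lit 208534) (.g (nat_lit 1139) (.e (nat_lit 81942) (nat_lit 20) (.e (nat_lit 2270) (nat_lit 149) (.e (nat_lit 761868) (nat_lit 5) (.e (nat_lit 1597) (nat_lit 111) (.e (nat_lit 360488) (nat_lit 20) .nil))))) .nil)) 
(.lf (nat_lit 208566) (.g (nat_lit 717) (.e (nat_lit 81942) (nat_lit 20) (.e (nat_lit 2281) (nat_lit 150) (.e (nat_lit 770058) (nat_lit 5) (.e (nat_lit 1595) (nat_lit 111) .nil)))) .nil)))) (.nd (nat_lit 4) (.nd (nat_lit 5) 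
(.lf (nat_lit 208526) (.g (nat_lit 1860) (.e (nat_lit 81942) (nat_lit 20) (.e (nat_lit 2006) (nat_lit 138) (.e (nat_lit 671762) (nat_lit 4) (.e (nat_lit 65616) (nat_lit 10) (.e (nat_lit 344169) (nat_lit 40) (.e (nat_lit 671764) (nat_lit 6) .nil)))))) (.g (nat_lit 0) .nil .nil))) 
(.lf (nat_lit 208558) (.g (nat_lit 1248) (.e (nat_lit 81942) (nat_lit 20) (.e (nat_lit 2281) (nat_lit 150) (.e (nat_lit 770057) (nat_lit 5) (.e (nat_lit 1589) (nat_lit 111) (.e (nat_lit 360488) (nat_lit 20) .nil))))) .nil))) (.nd (nat_lit 5) 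
(.lf (nat_lit 208542) (.g (nat_lit 2121) (.e (nat_lit 81942) (nat_lit 20) (.e (nat_lit 2280) (nat_lit 150) (.e (nat_lit 770057) (nat_lit 5) (.e (nat_lit 1589) (nat_lit 111) (.e (nat_lit 360489) (nat_lit 21) (.e (nat_lit 770074) (nat_lit 10) .nil)))))) (.g (nat_lit 6) .nil .nil))) 
(.lf (nat_lit 208574) (.g (nat_lit 2059) (.e (nat_lit 81942) (nat_lit 20) (.e (nat_lit 2281) (nat_lit 150) (.e (nat_lit 770072) (nat_lit 8) (.e (nat_lit 65610) (nat_lit 10) (.e (nat_lit 344175) (nat_lit 43) .nil))))) .nil))))))) (.nd (nat_lit 1) (.nd (nat_lit 2) (.nd (nat_lit 3) (.nd (nat_lit 4) (.nd (nat_lit 5) 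
(.lf (nat_lit 208513) (.g (nat_lit 491) (.e (nat_lit 81942) (nat_lit 20) (.e (nat_lit 2003) (nat_lit 138) (.e (nat_lit 671764) (nat_lit 6) (.e (nat_lit 81943) (nat_lit 20) .nil)))) .nil)) 
(.lf (nat_lit 208545) (.g (nat_lit 1567) (.e (nat_lit 81942) (nat_lit 20) (.e (nat_lit 2280) (nat_lit 150) (.e (nat_lit 770071) (nat_lit 8) (.e (nat_lit 65617) (nat_lit 10) (.e (nat_lit 344095) (nat_lit 18) .nil))))) .nil))) (.nd (nat_lit 5) 
(.lf (nat_lit 208529) (.g (nat_lit 1156) (.e (nat_lit 81942) (nat_lit 20) (.e (nat_lit 2006) (nat_lit 138) (.e (nat_lit 671764) (nat_lit 6) (.e (nat_lit 81947) (nat_lit 20) (.e (nat_lit 2003) (nat_lit 138) .nil))))) .nil)) 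
(.lf (nat_lit 208561) (.g (nat_lit 1504) (.e (nat_lit 81942) (nat_lit 20) (.e (nat_lit 2281) (nat_lit 150) (.e (nat_lit 770057) (nat_lit 5) (.e (nat_lit 1598) (nat_lit 111) (.e (nat_lit 360449) (nat_lit 0) (.e (nat_lit 7124) (nat_lit 382) (.e (nat_lit 7936) (nat_lit 90) .nil))))))) (.g (nat_lit 6) .nil .nil))))) (.nd (nat_lit 4) (.nd (nat_lit 5) 
(.lf (nat_lit 208521) (.g (nat_lit 2023) (.e (nat_lit 81942) (nat_lit 20) (.e (nat_lit 2005) (nat_lit 138) (.e (nat_lit 671748) (nat_lit 0) (.e (nat_lit 1595) (nat_lit 111) (.e (nat_lit 360486) (nat_lit 18) (.e (nat_lit 671764) (nat_lit 6) .nil)))))) (.g (nat_lit 6) .nil .nil))) 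
(.lf (nat_lit 208553) (.g (nat_lit 2134) (.e (nat_lit 81942) (nat_lit 20) (.e (nat_lit 2280) (nat_lit 150) (.e (nat_lit 770072) (nat_lit 8) (.e (nat_lit 65619) (nat_lit 10) (.e (nat_lit 344090) (nat_lit 18) (.e (nat_lit 7124) (nat_lit 382) (.e (nat_lit 7936) (nat_lit 90) .nil))))))) (.g (nat_lit 5) .nil .nil)))) (.nd (nat_lit 5) 
(.lf (nat_lit 208537) (.g (nat_lit 1652) (.e (nat_lit 81942) (nat_lit 20) (.e (nat_lit 2280) (nat_lit 150) (.e (nat_lit 770055) (nat_lit 5) (.e (nat_lit 1589) (nat_lit 111) (.e (nat_lit 360489) (nat_lit 21) (.e (nat_lit 770074) (nat_lit 10) .nil)))))) (.g (nat_lit 4) .nil .nil))) 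
(.lf (nat_lit 208569) (.g (nat_lit 1693) (.e (nat_lit 81942) (nat_lit 20) (.e (nat_lit 2281) (nat_lit 150) (.e (nat_lit 770058) (nat_lit 5) (.e (nat_lit 1598) (nat_lit 111) (.e (nat_lit 360449) (nat_lit 0) (.e (nat_lit 7124) (nat_lit 382) (.e (nat_lit 7936) (nat_lit 90) .nil))))))) (.g (nat_lit 6) .nil .nil)))))) (.nd (nat_lit 3) (.nd (nat_lit 4) (.nd (nat_lit 5) 
(.lf (nat_lit 208517) (.g (nat_lit 1189) (.e (nat_lit 81942) (nat_lit 20) (.e (nat_lit 2004) (nat_lit 138) (.e (nat_lit 671764) (nat_lit 6) (.e (nat_lit 81943) (nat_lit 20) (.e (nat_lit 2006) (nat_lit 138) (.e (nat_lit 671764) (nat_lit 6) .nil)))))) (.g (nat_lit 6) .nil .nil))) 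
(.lf (nat_lit 208549) (.g (nat_lit 2477) (.e (nat_lit 81942) (nat_lit 20) (.e (nat_lit 2280) (nat_lit 150) (.e (nat_lit 770072) (nat_lit 8) (.e (nat_lit 65617) (nat_lit 10) (.e (nat_lit 344091) (nat_lit 18) (.e (nat_lit 7124) (nat_lit 382) (.e (nat_lit 7936) (nat_lit 90) .nil))))))) (.g (nat_lit 6) .nil .nil)))) (.nd (nat_lit 5) 
(.lf (nat_lit 208533) (.g (nat_lit 1300) (.e (nat_lit 81942) (nat_lit 20) (.e (nat_lit 2270) (nat_lit 149) (.e (nat_lit 761868) (nat_lit 5) (.e (nat_lit 1597) (nat_lit 111) (.e (nat_lit 360449) (nat_lit 0) (.e (nat_lit 7124) (nat_lit 382) (.e (nat_lit 7936) (nat_lit 90) .nil))))))) (.g (nat_lit 4) .nil .nil))) 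
(.lf (nat_lit 208565) (.g (nat_lit 1384) (.e (nat_lit 81942) (nat_lit 20) (.e (nat_lit 2281) (nat_lit 150) (.e (nat_lit 770058) (nat_lit 5) (.e (nat_lit 1589) (nat_lit 111) (.e (nat_lit 360488) (nat_lit 20) .nil))))) .nil)))) (.nd (nat_lit 4) (.nd (nat_lit 5) 
(.lf (nat_lit 208525) (.g (nat_lit 672) (.e (nat_lit 81942) (nat_lit 20) (.e (nat_lit 2006) (nat_lit 138) (.e (nat_lit 671748) (nat_lit 0) (.e (nat_lit 1575) (nat_lit 110) .nil)))) .nil)) 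
(.lf (nat_lit 208557) (.g (nat_lit 1814) (.e (nat_lit 81942) (nat_lit 20) (.e (nat_lit 2281) (nat_lit 150) (.e (nat_lit 770057) (nat_lit 5) (.e (nat_lit 1589) (nat_lit 111) (.e (nat_lit 360449) (nat_lit 0) (.e (nat_lit 7124) (nat_lit 382) (.e (nat_lit 7936) (nat_lit 90) .nil))))))) (.g (nat_lit 5) .nil .nil)))) (.nd (nat_lit 5) 
(.lf (nat_lit 208541) (.g (nat_lit 1514) (.e (nat_lit 81942) (nat_lit 20) (.e (nat_lit 2280) (nat_lit 150) (.e (nat_lit 770057) (nat_lit 5) (.e (nat_lit 1589) (nat_lit 111) (.e (nat_lit 360449) (nat_lit 0) (.e (nat_lit 7124) (nat_lit 382) (.e (nat_lit 7936) (nat_lit 90) .nil))))))) (.g (nat_lit 5) .nil .nil))) 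
(.lf (nat_lit 208573) (.g (nat_lit 1843) (.e (nat_lit 81942) (nat_lit 20) (.e (nat_lit 2281) (nat_lit 150) (.e (nat_lit 770072) (nat_lit 8) (.e (nat_lit 65610) (nat_lit 10) (.e (nat_lit 344174) (nat_lit 42) .nil))))) .nil)))))) (.nd (nat_lit 2) (.nd (nat_lit 3) (.nd (nat_lit 4) (.nd (nat_lit 5) 
(.lf (nat_lit 208515) (.g (nat_lit 1410) (.e (nat_lit 81942) (nat_lit 20) (.e (nat_lit 2004) (nat_lit 138) (.e (nat_lit 671764) (nat_lit 6) (.e (nat_lit 81938) (nat_lit 20) (.e (nat_lit 2005) (nat_lit 138) (.e (nat_lit 671764) (nat_lit 6) .nil)))))) (.g (nat_lit 6) .nil .nil))) 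
(.lf (nat_lit 208547) (.g (nat_lit 3091) (.e (nat_lit 81942) (nat_lit 20) (.e (nat_lit 2280) (nat_lit 150) (.e (nat_lit 770071) (nat_lit 8) (.e (nat_lit 65619) (nat_lit 10) (.e (nat_lit 344177) (nat_lit 43) (.e (nat_lit 770074) (nat_lit 10) .nil)))))) (.g (nat_lit 6) .nil .nil)))) (.nd (nat_lit 5) 
(.lf (nat_lit 208531) (.g (nat_lit 420) (.e (nat_lit 81942) (nat_lit 20) (.e (nat_lit 2270) (nat_lit 149) (.e (nat_lit 761868) (nat_lit 5) .nil))) .nil)) 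
(.lf (nat_lit 208563) (.g (nat_lit 400) (.e (nat_lit 81942) (nat_lit 20) (.e (nat_lit 2281) (nat_lit 150) (.e (nat_lit 770058) (nat_lit 5) .nil))) .nil)))) (.nd (nat_lit 4) (.nd (nat_lit 5) 
(.lf (nat_lit 208523) (.g (nat_lit 2434) (.e (nat_lit 81942) (nat_lit 20) (.e (nat_lit 2005) (nat_lit 138) (.e (nat_lit 671762) (nat_lit 4) (.e (nat_lit 65610) (nat_lit 10) (.e (nat_lit 344169) (nat_lit 40) (.e (nat_lit 671764) (nat_lit 6) .nil)))))) (.g (nat_lit 6) .nil .nil))) 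
(.lf (nat_lit 208555) (.g (nat_lit 383) (.e (nat_lit 81942) (nat_lit 20) (.e (nat_lit 2281) (nat_lit 150) (.e (nat_lit 770057) (nat_lit 5) .nil))) .nil))) (.nd (nat_lit 5) 
(.lf (nat_lit 208539) (.g (nat_lit 1571) (.e (nat_lit 81942) (nat_lit 20) (.e (nat_lit 2280) (nat_lit 150) (.e (nat_lit 770055) (nat_lit 5) (.e (nat_lit 1598) (nat_lit 111) (.e (nat_lit 360449) (nat_lit 0) (.e (nat_lit 7124) (nat_lit 382) (.e (nat_lit 7936) (nat_lit 90) .nil))))))) (.g (nat_lit 5) .nil .nil))) 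
(.lf (nat_lit 208571) (.g (nat_lit 1416) (.e (nat_lit 81942) (nat_lit 20) (.e (nat_lit 2281) (nat_lit 150) (.e (nat_lit 770072) (nat_lit 8) (.e (nat_lit 65598) (nat_lit 9) .nil)))) .nil))))) (.nd (nat_lit 3) (.nd (nat_lit 4) (.nd (nat_lit 5) 
(.lf (nat_lit 208519) (.g (nat_lit 2015) (.e (nat_lit 81942) (nat_lit 20) (.e (nat_lit 2005) (nat_lit 138) (.e (nat_lit 671748) (nat_lit 0) (.e (nat_lit 1586) (nat_lit 111) (.e (nat_lit 360486) (nat_lit 18) (.e (nat_lit 671764) (nat_lit 6) .nil)))))) (.g (nat_lit 6) .nil .nil))) 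
(.lf (nat_lit 208551) (.g (nat_lit 2689) (.e (nat_lit 81942) (nat_lit 20) (.e (nat_lit 2280) (nat_lit 150) (.e (nat_lit 770072) (nat_lit 8) (.e (nat_lit 65617) (nat_lit 10) (.e (nat_lit 344096) (nat_lit 18) (.e (nat_lit 7124) (nat_lit 382) (.e (nat_lit 7936) (nat_lit 90) .nil))))))) (.g (nat_lit 6) .nil .nil)))) (.nd (nat_lit 5) 
(.lf (nat_lit 208535) (.g (nat_lit 1573) (.e (nat_lit 81942) (nat_lit 20) (.e (nat_lit 2280) (nat_lit 150) (.e (nat_lit 770055) (nat_lit 5) (.e (nat_lit 1586) (nat_lit 111) (.e (nat_lit 360450) (nat_lit 0) (.e (nat_lit 7119) (nat_lit 382) (.e (nat_lit 7936) (nat_lit 90) .nil))))))) (.g (nat_lit 4) .nil .nil))) 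
(.lf (nat_lit 208567) (.g (nat_lit 1492) (.e (nat_lit 81942) (nat_lit 20) (.e (nat_lit 2281) (nat_lit 150) (.e (nat_lit 770058) (nat_lit 5) (.e (nat_lit 1595) (nat_lit 111) (.e (nat_lit 360449) (nat_lit 0) (.e (nat_lit 7124) (nat_lit 382) (.e (nat_lit 7936) (nat_lit 90) .nil))))))) (.g (nat_lit 4) .nil .nil))))) (.nd (nat_lit 4) (.nd (nat_lit 5) 
(.lf (nat_lit 208527) (.g (nat_lit 1093) (.e (nat_lit 81942) (nat_lit 20) (.e (nat_lit 2006) (nat_lit 138) (.e (nat_lit 671764) (nat_lit 6) (.e (nat_lit 81939) (nat_lit 20) (.e (nat_lit 2006) (nat_lit 138) (.e (nat_lit 671764) (nat_lit 6) .nil)))))) (.g (nat_lit 0) .nil .nil))) 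
(.lf (nat_lit 208559) (.g (nat_lit 2055) (.e (nat_lit 81942) (nat_lit 20) (.e (nat_lit 2281) (nat_lit 150) (.e (nat_lit 770057) (nat_lit 5) (.e (nat_lit 1595) (nat_lit 111) (.e (nat_lit 360489) (nat_lit 21) (.e (nat_lit 770074) (nat_lit 10) .nil)))))) (.g (nat_lit 6) .nil .nil)))) (.nd (nat_lit 5) 
(.lf (nat_lit 208543) (.g (nat_lit 2296) (.e (nat_lit 81942) (nat_lit 20) (.e (nat_lit 2280) (nat_lit 150) (.e (nat_lit 770071) (nat_lit 8) (.e (nat_lit 65610) (nat_lit 10) (.e (nat_lit 344090) (nat_lit 18) (.e (nat_lit 7124) (nat_lit 382) (.e (nat_lit 7936) (nat_lit 90) .nil))))))) (.g (nat_lit 6) .nil .nil))) 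
(.lf (nat_lit 208575) (.g (nat_lit 1425) (.e (nat_lit 81942) (nat_lit 20) (.e (nat_lit 2281) (nat_lit 150) (.e (nat_lit 770072) (nat_lit 8) (.e (nat_lit 65611) (nat_lit 10) (.e (nat_lit 344174) (nat_lit 42) .nil))))) .nil))))))))

noncomputable def tv2751 : DT := (.nd (nat_lit 0) (.nd (nat_lit 1) (.nd (nat_lit 2) (.nd (nat_lit 3) (.nd (nat_lit 4) (.nd (nat_lit 5) 
(.lf (nat_lit 208576) (.g (nat_lit 2810) (.e (nat_lit 81942) (nat_lit 20) (.e (nat_lit 2281) (nat_lit 150) (.e (nat_lit 770072) (nat_lit 8) (.e (nat_lit 65617) (nat_lit 10) (.e (nat_lit 344091) (nat_lit 18) (.e (nat_lit 7124) (nat_lit 382) (.e (nat_lit 7936) (nat_lit 90) .nil))))))) (.g (nat_lit 6) .nil .nil))) 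
(.lf (nat_lit 208608) (.g (nat_lit 1708) (.e (nat_lit 81943) (nat_lit 20) (.e (nat_lit 1841) (nat_lit 123) (.e (nat_lit 548889) (nat_lit 9) (.e (nat_lit 65583) (nat_lit 7) (.e (nat_lit 319519) (nat_lit 12) (.e (nat_lit 40704) (nat_lit 11) .nil)))))) (.g (nat_lit 5) .nil .nil)))) (.nd (nat_lit 5) 
(.lf (nat_lit 208592) (.g (nat_lit 1294) (.e (nat_lit 81942) (nat_lit 20) (.e (nat_lit 2391) (nat_lit 156) (.e (nat_lit 819218) (nat_lit 4) (.e (nat_lit 172113) (nat_lit 10) (.e (nat_lit 434241) (nat_lit 27) .nil))))) .nil)) 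
(.lf (nat_lit 208624) (.g (nat_lit 1311) (.e (nat_lit 81943) (nat_lit 20) (.e (nat_lit 1842) (nat_lit 123) (.e (nat_lit 548889) (nat_lit 9) (.e (nat_lit 65598) (nat_lit 9) .nil)))) .nil)))) (.nd (nat_lit 4) (.nd (nat_lit 5) 
(.lf (nat_lit 208584) (.g (nat_lit 831) (.e (nat_lit 81942) (nat_lit 20) (.e (nat_lit 2281) (nat_lit 150) (.e (nat_lit 770074) (nat_lit 10) (.e (nat_lit 81935) (nat_lit 20) .nil)))) .nil)) 
(.lf (nat_lit 208616) (.g (nat_lit 1707) (.e (nat_lit 81943) (nat_lit 20) (.e (nat_lit 1842) (nat_lit 123) (.e (nat_lit 548889) (nat_lit 9) (.e (nat_lit 65583) (nat_lit 7) (.e (nat_lit 319498) (nat_lit 10) .nil))))) .nil))) (.nd (nat_lit 5) 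
(.lf (nat_lit 208600) (.g (nat_lit 1652) (.e (nat_lit 81943) (nat_lit 20) (.e (nat_lit 1840) (nat_lit 123) (.e (nat_lit 548889) (nat_lit 9) (.e (nat_lit 65586) (nat_lit 7) (.e (nat_lit 319519) (nat_lit 12) (.e (nat_lit 40704) (nat_lit 11) .nil)))))) (.g (nat_lit 5) .nil .nil))) 
(.lf (nat_lit 208632) (.g (nat_lit 3267) (.e (nat_lit 81943) (nat_lit 20) (.e (nat_lit 1842) (nat_lit 123) (.e (nat_lit 548889) (nat_lit 9) (.e (nat_lit 65630) (nat_lit 14) (.e (nat_lit 401412) (nat_lit 0) (.e (nat_lit 3107) (nat_lit 193) (.e (nat_lit 500077) (nat_lit 20) .nil))))))) (.g (nat_lit 5) .nil .nil)))))) (.nd (nat_lit 3) (.nd (nat_lit 4) (.nd (nat_lit 5) 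
(.lf (nat_lit 208580) (.g (nat_lit 1803) (.e (nat_lit 81942) (nat_lit 20) (.e (nat_lit 2281) (nat_lit 150) (.e (nat_lit 770072) (nat_lit 8) (.e (nat_lit 65619) (nat_lit 10) (.e (nat_lit 344090) (nat_lit 18) (.e (nat_lit 7119) (nat_lit 382) (.e (nat_lit 7936) (nat_lit 90) .nil))))))) (.g (nat_lit 4) .nil .nil))) 
(.lf (nat_lit 208612) (.g (nat_lit 1091) (.e (nat_lit 81943) (nat_lit 20) (.e (nat_lit 1841) (nat_lit 123) (.e (nat_lit 548891) (nat_lit 11) (.e (nat_lit 81959) (nat_lit 24) .nil)))) .nil))) (.nd (nat_lit 5) 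
(.lf (nat_lit 208596) (.g (nat_lit 1766) (.e (nat_lit 81943) (nat_lit 20) (.e (nat_lit 1840) (nat_lit 123) (.e (nat_lit 548889) (nat_lit 9) (.e (nat_lit 65583) (nat_lit 7) (.e (nat_lit 319499) (nat_lit 10) (.e (nat_lit 511) (nat_lit 41) (.e (nat_lit 500074) (nat_lit 20) .nil))))))) (.g (nat_lit 5) .nil .nil))) 
(.lf (nat_lit 208628) (.g (nat_lit 4244) (.e (nat_lit 81943) (nat_lit 20) (.e (nat_lit 1842) (nat_lit 123) (.e (nat_lit 548889) (nat_lit 9) (.e (nat_lit 65623) (nat_lit 12) (.e (nat_lit 385074) (nat_lit 31) (.e (nat_lit 573491) (nat_lit 15) .nil)))))) (.g (nat_lit 6) .nil .nil))))) (.nd (nat_lit 4) (.nd (nat_lit 5) 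
(.lf (nat_lit 208588) (.g (nat_lit 935) (.e (nat_lit 81942) (nat_lit 20) (.e (nat_lit 2391) (nat_lit 156) (.e (nat_lit 819204) (nat_lit 0) (.e (nat_lit 2998) (nat_lit 186) .nil)))) .nil)) 
(.lf (nat_lit 208620) (.g (nat_lit 1706) (.e (nat_lit 81943) (nat_lit 20) (.e (nat_lit 1842) (nat_lit 123) (.e (nat_lit 548889) (nat_lit 9) (.e (nat_lit 65586) (nat_lit 7) (.e (nat_lit 319498) (nat_lit 10) .nil))))) .nil))) (.nd (nat_lit 5) 
(.lf (nat_lit 208604) (.g (nat_lit 1140) (.e (nat_lit 81943) (nat_lit 20) (.e (nat_lit 1840) (nat_lit 123) (.e (nat_lit 548890) (nat_lit 10) (.e (nat_lit 73789) (nat_lit 45) (.e (nat_lit 1141) (nat_lit 84) (.e (nat_lit 32789) (nat_lit 11) .nil)))))) (.g (nat_lit 5) .nil .nil))) 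
(.lf (nat_lit 208636) (.g (nat_lit 1152) (.e (nat_lit 81943) (nat_lit 20) (.e (nat_lit 1847) (nat_lit 124) (.e (nat_lit 557094) (nat_lit 12) (.e (nat_lit 164022) (nat_lit 46) (.e (nat_lit 704737) (nat_lit 11) .nil))))) .nil)))))) (.nd (nat_lit 2) (.nd (nat_lit 3) (.nd (nat_lit 4) (.nd (nat_lit 5) 
(.lf (nat_lit 208578) (.g (nat_lit 1781) (.e (nat_lit 81942) (nat_lit 20) (.e (nat_lit 2281) (nat_lit 150) (.e (nat_lit 770072) (nat_lit 8) (.e (nat_lit 65617) (nat_lit 10) (.e (nat_lit 344174) (nat_lit 42) .nil))))) .nil)) 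
(.lf (nat_lit 208610) (.g (nat_lit 3630) (.e (nat_lit 81943) (nat_lit 20) (.e (nat_lit 1841) (nat_lit 123) (.e (nat_lit 548889) (nat_lit 9) (.e (nat_lit 65623) (nat_lit 12) (.e (nat_lit 385074) (nat_lit 31) (.e (nat_lit 573491) (nat_lit 15) .nil)))))) (.g (nat_lit 6) .nil .nil)))) (.nd (nat_lit 5) 
(.lf (nat_lit 208594) (.g (nat_lit 2300) (.e (nat_lit 81943) (nat_lit 20) (.e (nat_lit 1836) (nat_lit 123) (.e (nat_lit 548889) (nat_lit 9) (.e (nat_lit 65624) (nat_lit 12) .nil)))) .nil)) 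
(.lf (nat_lit 208626) (.g (nat_lit 1535) (.e (nat_lit 81943) (nat_lit 20) (.e (nat_lit 1842) (nat_lit 123) (.e (nat_lit 548889) (nat_lit 9) (.e (nat_lit 65622) (nat_lit 12) (.e (nat_lit 385073) (nat_lit 31) .nil))))) .nil)))) (.nd (nat_lit 4) (.nd (nat_lit 5) 
(.lf (nat_lit 208586) (.g (nat_lit 779) (.e (nat_lit 81942) (nat_lit 20) (.e (nat_lit 2390) (nat_lit 156) (.e (nat_lit 819204) (nat_lit 0) (.e (nat_lit 3021) (nat_lit 187) (.e (nat_lit 458496) (nat_lit 8) .nil))))) .nil)) 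
(.lf (nat_lit 208618) (.g (nat_lit 1407) (.e (nat_lit 81943) (nat_lit 20) (.e (nat_lit 1842) (nat_lit 123) (.e (nat_lit 548889) (nat_lit 9) (.e (nat_lit 65584) (nat_lit 7) (.e (nat_lit 319518) (nat_lit 12) .nil))))) .nil))) (.nd (nat_lit 5) 
(.lf (nat_lit 208602) (.g (nat_lit 2227) (.e (nat_lit 81943) (nat_lit 20) (.e (nat_lit 1840) (nat_lit 123) (.e (nat_lit 548889) (nat_lit 9) (.e (nat_lit 65630) (nat_lit 14) (.e (nat_lit 401412) (nat_lit 0) .nil))))) .nil)) 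
(.lf (nat_lit 208634) (.g (nat_lit 2300) (.e (nat_lit 81943) (nat_lit 20) (.e (nat_lit 1842) (nat_lit 123) (.e (nat_lit 548891) (nat_lit 11) (.e (nat_lit 81957) (nat_lit 24) (.e (nat_lit 130816) (nat_lit 140) .nil))))) .nil))))) (.nd (nat_lit 3) (.nd (nat_lit 4) (.nd (nat_lit 5) 
(.lf (nat_lit 208582) (.g (nat_lit 1715) (.e (nat_lit 81942) (nat_lit 20) (.e (nat_lit 2281) (nat_lit 150) (.e (nat_lit 770072) (nat_lit 8) (.e (nat_lit 65619) (nat_lit 10) (.e (nat_lit 344174) (nat_lit 42) .nil))))) .nil)) 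
(.lf (nat_lit 208614) (.g (nat_lit 1414) (.e (nat_lit 81943) (nat_lit 20) (.e (nat_lit 1842) (nat_lit 123) (.e (nat_lit 548889) (nat_lit 9) (.e (nat_lit 65543) (nat_lit 0) .nil)))) .nil))) (.nd (nat_lit 5) 
(.lf (nat_lit 208598) (.g (nat_lit 756) (.e (nat_lit 81943) (nat_lit 20) (.e (nat_lit 1840) (nat_lit 123) (.e (nat_lit 548889) (nat_lit 9) (.e (nat_lit 65584) (nat_lit 7) .nil)))) .nil)) 
(.lf (nat_lit 208630) (.g (nat_lit 1848) (.e (nat_lit 81943) (nat_lit 20) (.e (nat_lit 1842) (nat_lit 123) (.e (nat_lit 548889) (nat_lit 9) (.e (nat_lit 65629) (nat_lit 14) (.e (nat_lit 401412) (nat_lit 0) .nil))))) .nil)))) (.nd (nat_lit 4) (.nd (nat_lit 5) 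
(.lf (nat_lit 208590) (.g (nat_lit 903) (.e (nat_lit 81942) (nat_lit 20) (.e (nat_lit 2391) (nat_lit 156) (.e (nat_lit 819204) (nat_lit 0) (.e (nat_lit 3004) (nat_lit 186) .nil)))) .nil)) 
(.lf (nat_lit 208622) (.g (nat_lit 1600) (.e (nat_lit 81943) (nat_lit 20) (.e (nat_lit 1842) (nat_lit 123) (.e (nat_lit 548889) (nat_lit 9) (.e (nat_lit 65586) (nat_lit 7) (.e (nat_lit 327424) (nat_lit 10) .nil))))) .nil))) (.nd (nat_lit 5) 
(.lf (nat_lit 208606) (.g (nat_lit 1113) (.e (nat_lit 81943) (nat_lit 20) (.e (nat_lit 1840) (nat_lit 123) (.e (nat_lit 548890) (nat_lit 10) (.e (nat_lit 73791) (nat_lit 45) (.e (nat_lit 1141) (nat_lit 84) (.e (nat_lit 32789) (nat_lit 11) .nil)))))) (.g (nat_lit 6) .nil .nil))) 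
(.lf (nat_lit 208638) (.g (nat_lit 2470) (.e (nat_lit 81943) (nat_lit 20) (.e (nat_lit 1848) (nat_lit 124) (.e (nat_lit 557087) (nat_lit 11) (.e (nat_lit 24617) (nat_lit 7) (.e (nat_lit 319505) (nat_lit 10) .nil))))) .nil))))))) (.nd (nat_lit 1) (.nd (nat_lit 2) (.nd (nat_lit 3) (.nd (nat_lit 4) (.nd (nat_lit 5) 
(.lf (nat_lit 208577) (.g (nat_lit 2973) (.e (nat_lit 81942) (nat_lit 20) (.e (nat_lit 2281) (nat_lit 150) (.e (nat_lit 770072) (nat_lit 8) (.e (nat_lit 65617) (nat_lit 10) (.e (nat_lit 344096) (nat_lit 18) (.e (nat_lit 7124) (nat_lit 382) (.e (nat_lit 7936) (nat_lit 90) .nil))))))) (.g (nat_lit 6) .nil .nil))) 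
(.lf (nat_lit 208609) (.g (nat_lit 1700) (.e (nat_lit 81943) (nat_lit 20) (.e (nat_lit 1841) (nat_lit 123) (.e (nat_lit 548889) (nat_lit 9) (.e (nat_lit 65586) (nat_lit 7) (.e (nat_lit 319519) (nat_lit 12) (.e (nat_lit 40704) (nat_lit 11) .nil)))))) (.g (nat_lit 5) .nil .nil)))) (.nd (nat_lit 5) 
(.lf (nat_lit 208593) (.g (nat_lit 403) (.e (nat_lit 81942) (nat_lit 20) (.e (nat_lit 2391) (nat_lit 156) (.e (nat_lit 819221) (nat_lit 6) .nil))) .nil)) 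
(.lf (nat_lit 208625) (.g (nat_lit 898) (.e (nat_lit 81943) (nat_lit 20) (.e (nat_lit 1842) (nat_lit 123) (.e (nat_lit 548889) (nat_lit 9) (.e (nat_lit 65617) (nat_lit 10) .nil)))) .nil)))) (.nd (nat_lit 4) (.nd (nat_lit 5) 
(.lf (nat_lit 208585) (.g (nat_lit 453) (.e (nat_lit 81942) (nat_lit 20) (.e (nat_lit 2390) (nat_lit 156) (.e (nat_lit 819203) (nat_lit 0) (.e (nat_lit 3021) (nat_lit 187) (.e (nat_lit 458496) (nat_lit 8) .nil))))) .nil)) 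
(.lf (nat_lit 208617) (.g (nat_lit 2388) (.e (nat_lit 81943) (nat_lit 20) (.e (nat_lit 1842) (nat_lit 123) (.e (nat_lit 548889) (nat_lit 9) (.e (nat_lit 65583) (nat_lit 7) (.e (nat_lit 319519) (nat_lit 12) (.e (nat_lit 40704) (nat_lit 11) .nil)))))) (.g (nat_lit 5) .nil .nil)))) (.nd (nat_lit 5) 
(.lf (nat_lit 208601) (.g (nat_lit 1678) (.e (nat_lit 81943) (nat_lit 20) (.e (nat_lit 1840) (nat_lit 123) (.e (nat_lit 548889) (nat_lit 9) (.e (nat_lit 65623) (nat_lit 12) (.e (nat_lit 385073) (nat_lit 31) .nil))))) .nil)) 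
(.lf (nat_lit 208633) (.g (nat_lit 1456) (.e (nat_lit 81943) (nat_lit 20) (.e (nat_lit 1842) (nat_lit 123) (.e (nat_lit 548890) (nat_lit 10) (.e (nat_lit 73788) (nat_lit 45) (.e (nat_lit 1141) (nat_lit 84) (.e (nat_lit 32789) (nat_lit 11) .nil)))))) (.g (nat_lit 0) .nil .nil)))))) (.nd (nat_lit 3) (.nd (nat_lit 4) (.nd (nat_lit 5) 
(.lf (nat_lit 208581) (.g (nat_lit 2449) (.e (nat_lit 81942) (nat_lit 20) (.e (nat_lit 2281) (nat_lit 150) (.e (nat_lit 770072) (nat_lit 8) (.e (nat_lit 65619) (nat_lit 10) (.e (nat_lit 344090) (nat_lit 18) (.e (nat_lit 7124) (nat_lit 382) (.e (nat_lit 7936) (nat_lit 90) .nil))))))) (.g (nat_lit 5) .nil .nil))) 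
(.lf (nat_lit 208613) (.g (nat_lit 1625) (.e (nat_lit 81943) (nat_lit 20) (.e (nat_lit 1842) (nat_lit 123) (.e (nat_lit 548889) (nat_lit 9) (.e (nat_lit 65537) (nat_lit 0) (.e (nat_lit 6681) (nat_lit 357) .nil))))) .nil))) (.nd (nat_lit 5) 
(.lf (nat_lit 208597) (.g (nat_lit 1740) (.e (nat_lit 81943) (nat_lit 20) (.e (nat_lit 1840) (nat_lit 123) (.e (nat_lit 548889) (nat_lit 9) (.e (nat_lit 65583) (nat_lit 7) (.e (nat_lit 319519) (nat_lit 12) (.e (nat_lit 40704) (nat_lit 11) .nil)))))) (.g (nat_lit 5) .nil .nil))) 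
(.lf (nat_lit 208629) (.g (nat_lit 1329) (.e (nat_lit 81943) (nat_lit 20) (.e (nat_lit 1842) (nat_lit 123) (.e (nat_lit 548889) (nat_lit 9) (.e (nat_lit 73472) (nat_lit 12) .nil)))) .nil)))) (.nd (nat_lit 4) (.nd (nat_lit 5) 
(.lf (nat_lit 208589) (.g (nat_lit 1010) (.e (nat_lit 81942) (nat_lit 20) (.e (nat_lit 2391) (nat_lit 156) (.e (nat_lit 819204) (nat_lit 0) (.e (nat_lit 2999) (nat_lit 186) .nil)))) .nil)) 
(.lf (nat_lit 208621) (.g (nat_lit 1862) (.e (nat_lit 81943) (nat_lit 20) (.e (nat_lit 1842) (nat_lit 123) (.e (nat_lit 548889) (nat_lit 9) (.e (nat_lit 65586) (nat_lit 7) (.e (nat_lit 319500) (nat_lit 10) (.e (nat_lit 562) (nat_lit 41) (.e (nat_lit 500076) (nat_lit 20) .nil))))))) (.g (nat_lit 4) .nil .nil)))) (.nd (nat_lit 5) 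
(.lf (nat_lit 208605) (.g (nat_lit 1033) (.e (nat_lit 81943) (nat_lit 20) (.e (nat_lit 1840) (nat_lit 123) (.e (nat_lit 548890) (nat_lit 10) (.e (nat_lit 73791) (nat_lit 45) (.e (nat_lit 1140) (nat_lit 84) (.e (nat_lit 32789) (nat_lit 11) .nil)))))) (.g (nat_lit 6) .nil .nil))) 
(.lf (nat_lit 208637) (.g (nat_lit 2737) (.e (nat_lit 81943) (nat_lit 20) (.e (nat_lit 1848) (nat_lit 124) (.e (nat_lit 557087) (nat_lit 11) (.e (nat_lit 24617) (nat_lit 7) (.e (nat_lit 319504) (nat_lit 10) .nil))))) .nil)))))) (.nd (nat_lit 2) (.nd (nat_lit 3) (.nd (nat_lit 4) (.nd (nat_lit 5) 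
(.lf (nat_lit 208579) (.g (nat_lit 1900) (.e (nat_lit 81942) (nat_lit 20) (.e (nat_lit 2281) (nat_lit 150) (.e (nat_lit 770072) (nat_lit 8) (.e (nat_lit 65617) (nat_lit 10) (.e (nat_lit 344175) (nat_lit 43) .nil))))) .nil)) 
(.lf (nat_lit 208611) (.g (nat_lit 1153) (.e (nat_lit 81943) (nat_lit 20) (.e (nat_lit 1841) (nat_lit 123) (.e (nat_lit 548890) (nat_lit 10) (.e (nat_lit 73788) (nat_lit 45) (.e (nat_lit 1141) (nat_lit 84) (.e (nat_lit 32789) (nat_lit 11) .nil)))))) (.g (nat_lit 0) .nil .nil)))) (.nd (nat_lit 5) 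
(.lf (nat_lit 208595) (.g (nat_lit 1297) (.e (nat_lit 81943) (nat_lit 20) (.e (nat_lit 1840) (nat_lit 123) (.e (nat_lit 548889) (nat_lit 9) (.e (nat_lit 65582) (nat_lit 7) (.e (nat_lit 319517) (nat_lit 12) .nil))))) .nil)) 
(.lf (nat_lit 208627) (.g (nat_lit 2000) (.e (nat_lit 81943) (nat_lit 20) (.e (nat_lit 1842) (nat_lit 123) (.e (nat_lit 548889) (nat_lit 9) (.e (nat_lit 65623) (nat_lit 12) (.e (nat_lit 385073) (nat_lit 31) .nil))))) .nil)))) (.nd (nat_lit 4) (.nd (nat_lit 5) 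
(.lf (nat_lit 208587) (.g (nat_lit 920) (.e (nat_lit 81942) (nat_lit 20) (.e (nat_lit 2391) (nat_lit 156) (.e (nat_lit 819204) (nat_lit 0) (.e (nat_lit 2989) (nat_lit 186) .nil)))) .nil)) 
(.lf (nat_lit 208619) (.g (nat_lit 1051) (.e (nat_lit 81943) (nat_lit 20) (.e (nat_lit 1842) (nat_lit 123) (.e (nat_lit 548889) (nat_lit 9) (.e (nat_lit 65586) (nat_lit 7) .nil)))) .nil))) (.nd (nat_lit 5) 
(.lf (nat_lit 208603) (.g (nat_lit 1064) (.e (nat_lit 81943) (nat_lit 20) (.e (nat_lit 1840) (nat_lit 123) (.e (nat_lit 548890) (nat_lit 10) (.e (nat_lit 73789) (nat_lit 45) (.e (nat_lit 1140) (nat_lit 84) (.e (nat_lit 32789) (nat_lit 11) .nil)))))) (.g (nat_lit 5) .nil .nil))) 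
(.lf (nat_lit 208635) (.g (nat_lit 2200) (.e (nat_lit 81943) (nat_lit 20) (.e (nat_lit 1842) (nat_lit 123) (.e (nat_lit 548891) (nat_lit 11) (.e (nat_lit 81959) (nat_lit 24) (.e (nat_lit 130816) (nat_lit 140) .nil))))) .nil))))) (.nd (nat_lit 3) (.nd (nat_lit 4) (.nd (nat_lit 5) 
(.lf (nat_lit 208583) (.g (nat_lit 1433) (.e (nat_lit 81942) (nat_lit 20) (.e (nat_lit 2281) (nat_lit 150) (.e (nat_lit 770072) (nat_lit 8) (.e (nat_lit 65620) (nat_lit 10) (.e (nat_lit 344174) (nat_lit 42) .nil))))) .nil)) 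
(.lf (nat_lit 208615) (.g (nat_lit 1111) (.e (nat_lit 81943) (nat_lit 20) (.e (nat_lit 1842) (nat_lit 123) (.e (nat_lit 548889) (nat_lit 9) (.e (nat_lit 65583) (nat_lit 7) .nil)))) .nil))) (.nd (nat_lit 5) 
(.lf (nat_lit 208599) (.g (nat_lit 777) (.e (nat_lit 81943) (nat_lit 20) (.e (nat_lit 1840) (nat_lit 123) (.e (nat_lit 548889) (nat_lit 9) (.e (nat_lit 65585) (nat_lit 7) .nil)))) .nil)) 
(.lf (nat_lit 208631) (.g (nat_lit 2077) (.e (nat_lit 81943) (nat_lit 20) (.e (nat_lit 1842) (nat_lit 123) (.e (nat_lit 548889) (nat_lit 9) (.e (nat_lit 65630) (nat_lit 14) (.e (nat_lit 401412) (nat_lit 0) .nil))))) .nil)))) (.nd (nat_lit 4) (.nd (nat_lit 5) 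
(.lf (nat_lit 208591) (.g (nat_lit 1231) (.e (nat_lit 81942) (nat_lit 20) (.e (nat_lit 2391) (nat_lit 156) (.e (nat_lit 819218) (nat_lit 4) (.e (nat_lit 172106) (nat_lit 10) (.e (nat_lit 434241) (nat_lit 27) .nil))))) .nil)) 
(.lf (nat_lit 208623) (.g (nat_lit 2322) (.e (nat_lit 81943) (nat_lit 20) (.e (nat_lit 1842) (nat_lit 123) (.e (nat_lit 548889) (nat_lit 9) (.e (nat_lit 65586) (nat_lit 7) (.e (nat_lit 319519) (nat_lit 12) (.e (nat_lit 40704) (nat_lit 11) .nil)))))) (.g (nat_lit 5) .nil .nil)))) (.nd (nat_lit 5) 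
(.lf (nat_lit 208607) (.g (nat_lit 2504) (.e (nat_lit 81943) (nat_lit 20) (.e (nat_lit 1840) (nat_lit 123) (.e (nat_lit 548891) (nat_lit 11) (.e (nat_lit 81924) (nat_lit 0) (.e (nat_lit 3305) (nat_lit 202) (.e (nat_lit 573491) (nat_lit 15) .nil)))))) (.g (nat_lit 6) .nil .nil))) 
(.lf (nat_lit 208639) (.g (nat_lit 2040) (.e (nat_lit 81943) (nat_lit 20) (.e (nat_lit 1848) (nat_lit 124) (.e (nat_lit 557087) (nat_lit 11) (.e (nat_lit 24663) (nat_lit 14) .nil)))) .nil))))))))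

noncomputable def tv2752 : DT := (.nd (nat_lit 0) (.nd (nat_lit 1) (.nd (nat_lit 2) (.nd (nat_lit 3) (.nd (nat_lit 4) (.nd (nat_lit 5) 
(.lf (nat_lit 208640) (.g (nat_lit 2392) (.e (nat_lit 81943) (nat_lit 20) (.e (nat_lit 1848) (nat_lit 124) (.e (nat_lit 557087) (nat_lit 11) (.e (nat_lit 24664) (nat_lit 14) (.e (nat_lit 401423) (nat_lit 2) .nil))))) .nil)) 
(.lf (nat_lit 208672) (.g (nat_lit 1881) (.e (nat_lit 81943) (nat_lit 20) (.e (nat_lit 1962) (nat_lit 134) (.e (nat_lit 638982) (nat_lit 5) (.e (nat_lit 3044) (nat_lit 189) (.e (nat_lit 466972) (nat_lit 21) (.e (nat_lit 164305) (nat_lit 226) (.e (nat_lit 7936) (nat_lit 90) .nil))))))) (.g (nat_lit 6) .nil .nil)))) (.nd (nat_lit 5) 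
(.lf (nat_lit 208656) (.g (nat_lit 1880) (.e (nat_lit 81943) (nat_lit 20) (.e (nat_lit 1886) (nat_lit 127) (.e (nat_lit 581635) (nat_lit 0) (.e (nat_lit 3015) (nat_lit 187) (.e (nat_lit 450562) (nat_lit 0) (.e (nat_lit 6808) (nat_lit 365) (.e (nat_lit 7936) (nat_lit 90) .nil))))))) (.g (nat_lit 6) .nil .nil))) 
(.lf (nat_lit 208688) (.g (nat_lit 1597) (.e (nat_lit 81943) (nat_lit 20) (.e (nat_lit 1962) (nat_lit 134) (.e (nat_lit 638999) (nat_lit 8) (.e (nat_lit 172097) (nat_lit 9) (.e (nat_lit 426109) (nat_lit 1) (.e (nat_lit 164309) (nat_lit 226) (.e (nat_lit 7936) (nat_lit 90) .nil))))))) (.g (nat_lit 5) .nil .nil))))) (.nd (nat_lit 4) (.nd (nat_lit 5) 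
(.lf (nat_lit 208648) (.g (nat_lit 1829) (.e (nat_lit 81943) (nat_lit 20) (.e (nat_lit 1858) (nat_lit 124) (.e (nat_lit 557093) (nat_lit 12) (.e (nat_lit 164023) (nat_lit 46) .nil)))) .nil)) 
(.lf (nat_lit 208680) (.g (nat_lit 2866) (.e (nat_lit 81943) (nat_lit 20) (.e (nat_lit 1962) (nat_lit 134) (.e (nat_lit 638998) (nat_lit 8) (.e (nat_lit 172120) (nat_lit 12) (.e (nat_lit 475155) (nat_lit 21) (.e (nat_lit 6285) (nat_lit 337) (.e (nat_lit 1215) (nat_lit 90) .nil))))))) (.g (nat_lit 5) .nil .nil)))) (.nd (nat_lit 5) 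
(.lf (nat_lit 208664) (.g (nat_lit 1872) (.e (nat_lit 81943) (nat_lit 20) (.e (nat_lit 1886) (nat_lit 127) (.e (nat_lit 581653) (nat_lit 6) (.e (nat_lit 188434) (nat_lit 20) (.e (nat_lit 3578) (nat_lit 223) (.e (nat_lit 745493) (nat_lit 6) .nil)))))) (.g (nat_lit 6) .nil .nil))) 
(.lf (nat_lit 208696) (.g (nat_lit 2012) (.e (nat_lit 81943) (nat_lit 20) (.e (nat_lit 1963) (nat_lit 134) (.e (nat_lit 638986) (nat_lit 5) (.e (nat_lit 3015) (nat_lit 187) (.e (nat_lit 450563) (nat_lit 0) (.e (nat_lit 5172) (nat_lit 292) (.e (nat_lit 7936) (nat_lit 90) .nil))))))) (.g (nat_lit 5) .nil .nil)))))) (.nd (nat_lit 3) (.nd (nat_lit 4) (.nd (nat_lit 5) 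
(.lf (nat_lit 208644) (.g (nat_lit 1736) (.e (nat_lit 81943) (nat_lit 20) (.e (nat_lit 1855) (nat_lit 124) (.e (nat_lit 557093) (nat_lit 12) (.e (nat_lit 164023) (nat_lit 46) (.e (nat_lit 704736) (nat_lit 11) .nil))))) .nil)) 
(.lf (nat_lit 208676) (.g (nat_lit 1870) (.e (nat_lit 81943) (nat_lit 20) (.e (nat_lit 1962) (nat_lit 134) (.e (nat_lit 638985) (nat_lit 5) (.e (nat_lit 3015) (nat_lit 187) (.e (nat_lit 450563) (nat_lit 0) (.e (nat_lit 5172) (nat_lit 292) (.e (nat_lit 7936) (nat_lit 90) .nil))))))) (.g (nat_lit 5) .nil .nil)))) (.nd (nat_lit 5) 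
(.lf (nat_lit 208660) (.g (nat_lit 926) (.e (nat_lit 81943) (nat_lit 20) (.e (nat_lit 1886) (nat_lit 127) (.e (nat_lit 581651) (nat_lit 4) (.e (nat_lit 172081) (nat_lit 7) (.e (nat_lit 409634) (nat_lit 13) (.e (nat_lit 48896) (nat_lit 6) .nil)))))) (.g (nat_lit 5) .nil .nil))) 
(.lf (nat_lit 208692) (.g (nat_lit 1812) (.e (nat_lit 81943) (nat_lit 20) (.e (nat_lit 1962) (nat_lit 134) (.e (nat_lit 639003) (nat_lit 12) (.e (nat_lit 237612) (nat_lit 9) (.e (nat_lit 426100) (nat_lit 1) (.e (nat_lit 164307) (nat_lit 226) (.e (nat_lit 7936) (nat_lit 90) .nil))))))) (.g (nat_lit 6) .nil .nil))))) (.nd (nat_lit 4) (.nd (nat_lit 5) 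
(.lf (nat_lit 208652) (.g (nat_lit 1217) (.e (nat_lit 81943) (nat_lit 20) (.e (nat_lit 1885) (nat_lit 127) (.e (nat_lit 581651) (nat_lit 4) (.e (nat_lit 172079) (nat_lit 7) (.e (nat_lit 409634) (nat_lit 13) (.e (nat_lit 48896) (nat_lit 6) .nil)))))) (.g (nat_lit 5) .nil .nil))) 
(.lf (nat_lit 208684) (.g (nat_lit 2632) (.e (nat_lit 81943) (nat_lit 20) (.e (nat_lit 1962) (nat_lit 134) (.e (nat_lit 638998) (nat_lit 8) (.e (nat_lit 172120) (nat_lit 12) (.e (nat_lit 475163) (nat_lit 21) (.e (nat_lit 6308) (nat_lit 337) (.e (nat_lit 1219) (nat_lit 90) .nil))))))) (.g (nat_lit 4) .nil .nil)))) (.nd (nat_lit 5) 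
(.lf (nat_lit 208668) (.g (nat_lit 2334) (.e (nat_lit 81943) (nat_lit 20) (.e (nat_lit 1960) (nat_lit 134) (.e (nat_lit 638998) (nat_lit 8) (.e (nat_lit 172120) (nat_lit 12) (.e (nat_lit 475155) (nat_lit 21) (.e (nat_lit 6308) (nat_lit 337) (.e (nat_lit 1219) (nat_lit 90) .nil))))))) (.g (nat_lit 4) .nil .nil))) 
(.lf (nat_lit 208700) (.g (nat_lit 868) (.e (nat_lit 81943) (nat_lit 20) (.e (nat_lit 1963) (nat_lit 134) (.e (nat_lit 638999) (nat_lit 8) (.e (nat_lit 172112) (nat_lit 10) (.e (nat_lit 434265) (nat_lit 35) (.e (nat_lit 630823) (nat_lit 18) .nil)))))) (.g (nat_lit 6) .nil .nil))))))) (.nd (nat_lit 2) (.nd (nat_lit 3) (.nd (nat_lit 4) (.nd (nat_lit 5) 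
(.lf (nat_lit 208642) (.g (nat_lit 476) (.e (nat_lit 81943) (nat_lit 20) (.e (nat_lit 1855) (nat_lit 124) (.e (nat_lit 557093) (nat_lit 12) .nil))) .nil)) 
(.lf (nat_lit 208674) (.g (nat_lit 1910) (.e (nat_lit 81943) (nat_lit 20) (.e (nat_lit 1962) (nat_lit 134) (.e (nat_lit 638985) (nat_lit 5) (.e (nat_lit 3015) (nat_lit 187) (.e (nat_lit 450562) (nat_lit 0) (.e (nat_lit 5122) (nat_lit 292) (.e (nat_lit 7936) (nat_lit 90) .nil))))))) (.g (nat_lit 5) .nil .nil)))) (.nd (nat_lit 5) 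
(.lf (nat_lit 208658) (.g (nat_lit 1188) (.e (nat_lit 81943) (nat_lit 20) (.e (nat_lit 1886) (nat_lit 127) (.e (nat_lit 581651) (nat_lit 4) (.e (nat_lit 172079) (nat_lit 7) (.e (nat_lit 409634) (nat_lit 13) (.e (nat_lit 48896) (nat_lit 6) .nil)))))) (.g (nat_lit 5) .nil .nil))) 
(.lf (nat_lit 208690) (.g (nat_lit 1215) (.e (nat_lit 81943) (nat_lit 20) (.e (nat_lit 1962) (nat_lit 134) (.e (nat_lit 638999) (nat_lit 8) (.e (nat_lit 172113) (nat_lit 10) (.e (nat_lit 434269) (nat_lit 36) (.e (nat_lit 639023) (nat_lit 18) .nil)))))) (.g (nat_lit 5) .nil .nil))))) (.nd (nat_lit 4) (.nd (nat_lit 5) 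
(.lf (nat_lit 208650) (.g (nat_lit 1621) (.e (nat_lit 81943) (nat_lit 20) (.e (nat_lit 1859) (nat_lit 124) (.e (nat_lit 557091) (nat_lit 12) (.e (nat_lit 164022) (nat_lit 46) .nil)))) .nil)) 
(.lf (nat_lit 208682) (.g (nat_lit 2334) (.e (nat_lit 81943) (nat_lit 20) (.e (nat_lit 1962) (nat_lit 134) (.e (nat_lit 638998) (nat_lit 8) (.e (nat_lit 172120) (nat_lit 12) (.e (nat_lit 475162) (nat_lit 21) (.e (nat_lit 6308) (nat_lit 337) (.e (nat_lit 1219) (nat_lit 90) .nil))))))) (.g (nat_lit 4) .nil .nil)))) (.nd (nat_lit 5) 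
(.lf (nat_lit 208666) (.g (nat_lit 2206) (.e (nat_lit 81943) (nat_lit 20) (.e (nat_lit 1960) (nat_lit 134) (.e (nat_lit 638998) (nat_lit 8) (.e (nat_lit 172120) (nat_lit 12) (.e (nat_lit 475155) (nat_lit 21) (.e (nat_lit 6278) (nat_lit 337) (.e (nat_lit 1222) (nat_lit 90) .nil))))))) (.g (nat_lit 4) .nil .nil))) 
(.lf (nat_lit 208698) (.g (nat_lit 1531) (.e (nat_lit 81943) (nat_lit 20) (.e (nat_lit 1963) (nat_lit 134) (.e (nat_lit 638999) (nat_lit 8) (.e (nat_lit 172097) (nat_lit 9) (.e (nat_lit 426109) (nat_lit 1) (.e (nat_lit 164301) (nat_lit 226) (.e (nat_lit 7936) (nat_lit 90) .nil))))))) (.g (nat_lit 5) .nil .nil)))))) (.nd (nat_lit 3) (.nd (nat_lit 4) (.nd (nat_lit 5) 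
(.lf (nat_lit 208646) (.g (nat_lit 2876) (.e (nat_lit 81943) (nat_lit 20) (.e (nat_lit 1858) (nat_lit 124) (.e (nat_lit 557091) (nat_lit 12) (.e (nat_lit 164022) (nat_lit 46) .nil)))) .nil)) 
(.lf (nat_lit 208678) (.g (nat_lit 2816) (.e (nat_lit 81943) (nat_lit 20) (.e (nat_lit 1962) (nat_lit 134) (.e (nat_lit 638998) (nat_lit 8) (.e (nat_lit 172120) (nat_lit 12) (.e (nat_lit 475155) (nat_lit 21) (.e (nat_lit 6269) (nat_lit 337) (.e (nat_lit 1215) (nat_lit 90) .nil))))))) (.g (nat_lit 5) .nil .nil)))) (.nd (nat_lit 5) 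
(.lf (nat_lit 208662) (.g (nat_lit 80) (.e (nat_lit 81943) (nat_lit 20) (.e (nat_lit 1886) (nat_lit 127) (.e (nat_lit 581652) (nat_lit 5) .nil))) .nil)) 
(.lf (nat_lit 208694) (.g (nat_lit 1839) (.e (nat_lit 81943) (nat_lit 20) (.e (nat_lit 1963) (nat_lit 134) (.e (nat_lit 638986) (nat_lit 5) (.e (nat_lit 3015) (nat_lit 187) (.e (nat_lit 450562) (nat_lit 0) (.e (nat_lit 5122) (nat_lit 292) (.e (nat_lit 7936) (nat_lit 90) .nil))))))) (.g (nat_lit 5) .nil .nil))))) (.nd (nat_lit 4) (.nd (nat_lit 5) 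
(.lf (nat_lit 208654) (.g (nat_lit 702) (.e (nat_lit 81943) (nat_lit 20) (.e (nat_lit 1885) (nat_lit 127) (.e (nat_lit 581651) (nat_lit 4) (.e (nat_lit 172081) (nat_lit 7) (.e (nat_lit 409634) (nat_lit 13) (.e (nat_lit 48896) (nat_lit 6) .nil)))))) (.g (nat_lit 4) .nil .nil))) 
(.lf (nat_lit 208686) (.g (nat_lit 1744) (.e (nat_lit 81943) (nat_lit 20) (.e (nat_lit 1962) (nat_lit 134) (.e (nat_lit 638999) (nat_lit 8) (.e (nat_lit 172097) (nat_lit 9) (.e (nat_lit 426109) (nat_lit 1) (.e (nat_lit 164297) (nat_lit 226) (.e (nat_lit 7936) (nat_lit 90) .nil))))))) (.g (nat_lit 6) .nil .nil)))) (.nd (nat_lit 5) 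
(.lf (nat_lit 208670) (.g (nat_lit 2149) (.e (nat_lit 81943) (nat_lit 20) (.e (nat_lit 1960) (nat_lit 134) (.e (nat_lit 638998) (nat_lit 8) (.e (nat_lit 172120) (nat_lit 12) (.e (nat_lit 475163) (nat_lit 21) (.e (nat_lit 6308) (nat_lit 337) (.e (nat_lit 1219) (nat_lit 90) .nil))))))) (.g (nat_lit 4) .nil .nil))) 
(.lf (nat_lit 208702) (.g (nat_lit 1721) (.e (nat_lit 81943) (nat_lit 20) (.e (nat_lit 1963) (nat_lit 134) (.e (nat_lit 639001) (nat_lit 10) (.e (nat_lit 188446) (nat_lit 21) (.e (nat_lit 164305) (nat_lit 226) (.e (nat_lit 7936) (nat_lit 90) .nil)))))) (.g (nat_lit 5) .nil .nil)))))))) (.nd (nat_lit 1) (.nd (nat_lit 2) (.nd (nat_lit 3) (.nd (nat_lit 4) (.nd (nat_lit 5) 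
(.lf (nat_lit 208641) (.g (nat_lit 2401) (.e (nat_lit 81943) (nat_lit 20) (.e (nat_lit 1849) (nat_lit 124) (.e (nat_lit 557087) (nat_lit 11) (.e (nat_lit 24665) (nat_lit 14) (.e (nat_lit 401423) (nat_lit 2) .nil))))) .nil)) 
(.lf (nat_lit 208673) (.g (nat_lit 1683) (.e (nat_lit 81943) (nat_lit 20) (.e (nat_lit 1962) (nat_lit 134) (.e (nat_lit 638982) (nat_lit 5) (.e (nat_lit 3044) (nat_lit 189) (.e (nat_lit 466972) (nat_lit 21) (.e (nat_lit 164307) (nat_lit 226) (.e (nat_lit 7936) (nat_lit 90) .nil))))))) (.g (nat_lit 6) .nil .nil)))) (.nd (nat_lit 5) 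
(.lf (nat_lit 208657) (.g (nat_lit 1985) (.e (nat_lit 81943) (nat_lit 20) (.e (nat_lit 1886) (nat_lit 127) (.e (nat_lit 581636) (nat_lit 0) (.e (nat_lit 3015) (nat_lit 187) (.e (nat_lit 450562) (nat_lit 0) (.e (nat_lit 6808) (nat_lit 365) (.e (nat_lit 7936) (nat_lit 90) .nil))))))) (.g (nat_lit 6) .nil .nil))) 
(.lf (nat_lit 208689) (.g (nat_lit 818) (.e (nat_lit 81943) (nat_lit 20) (.e (nat_lit 1962) (nat_lit 134) (.e (nat_lit 638999) (nat_lit 8) (.e (nat_lit 172112) (nat_lit 10) (.e (nat_lit 434265) (nat_lit 35) (.e (nat_lit 630823) (nat_lit 18) .nil)))))) (.g (nat_lit 6) .nil .nil))))) (.nd (nat_lit 4) (.nd (nat_lit 5) 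
(.lf (nat_lit 208649) (.g (nat_lit 2115) (.e (nat_lit 81943) (nat_lit 20) (.e (nat_lit 1859) (nat_lit 124) (.e (nat_lit 557087) (nat_lit 11) (.e (nat_lit 24665) (nat_lit 14) (.e (nat_lit 401423) (nat_lit 2) .nil))))) .nil)) 
(.lf (nat_lit 208681) (.g (nat_lit 2239) (.e (nat_lit 81943) (nat_lit 20) (.e (nat_lit 1962) (nat_lit 134) (.e (nat_lit 638998) (nat_lit 8) (.e (nat_lit 172120) (nat_lit 12) (.e (nat_lit 475160) (nat_lit 21) (.e (nat_lit 6308) (nat_lit 337) (.e (nat_lit 1219) (nat_lit 90) .nil))))))) (.g (nat_lit 4) .nil .nil)))) (.nd (nat_lit 5) 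
(.lf (nat_lit 208665) (.g (nat_lit 2335) (.e (nat_lit 81943) (nat_lit 20) (.e (nat_lit 1960) (nat_lit 134) (.e (nat_lit 638998) (nat_lit 8) (.e (nat_lit 172120) (nat_lit 12) (.e (nat_lit 475155) (nat_lit 21) (.e (nat_lit 6269) (nat_lit 337) (.e (nat_lit 1215) (nat_lit 90) .nil))))))) (.g (nat_lit 4) .nil .nil))) 
(.lf (nat_lit 208697) (.g (nat_lit 1739) (.e (nat_lit 81943) (nat_lit 20) (.e (nat_lit 1963) (nat_lit 134) (.e (nat_lit 638999) (nat_lit 8) (.e (nat_lit 172097) (nat_lit 9) (.e (nat_lit 426109) (nat_lit 1) (.e (nat_lit 164297) (nat_lit 226) (.e (nat_lit 7936) (nat_lit 90) .nil))))))) (.g (nat_lit 6) .nil .nil)))))) (.nd (nat_lit 3) (.nd (nat_lit 4) (.nd (nat_lit 5) 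
(.lf (nat_lit 208645) (.g (nat_lit 2728) (.e (nat_lit 81943) (nat_lit 20) (.e (nat_lit 1855) (nat_lit 124) (.e (nat_lit 557093) (nat_lit 12) (.e (nat_lit 164023) (nat_lit 46) (.e (nat_lit 704738) (nat_lit 11) (.e (nat_lit 16411) (nat_lit 2) (.e (nat_lit 196672) (nat_lit 15) .nil))))))) (.g (nat_lit 5) .nil .nil))) 
(.lf (nat_lit 208677) (.g (nat_lit 2244) (.e (nat_lit 81943) (nat_lit 20) (.e (nat_lit 1962) (nat_lit 134) (.e (nat_lit 638998) (nat_lit 8) (.e (nat_lit 172120) (nat_lit 12) (.e (nat_lit 475155) (nat_lit 21) .nil))))) .nil))) (.nd (nat_lit 5) 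
(.lf (nat_lit 208661) (.g (nat_lit 1275) (.e (nat_lit 81943) (nat_lit 20) (.e (nat_lit 1886) (nat_lit 127) (.e (nat_lit 581651) (nat_lit 4) (.e (nat_lit 172082) (nat_lit 7) (.e (nat_lit 409634) (nat_lit 13) (.e (nat_lit 48896) (nat_lit 6) .nil)))))) (.g (nat_lit 5) .nil .nil))) 
(.lf (nat_lit 208693) (.g (nat_lit 1232) (.e (nat_lit 81943) (nat_lit 20) (.e (nat_lit 1963) (nat_lit 134) (.e (nat_lit 638982) (nat_lit 5) (.e (nat_lit 3044) (nat_lit 189) (.e (nat_lit 466972) (nat_lit 21) (.e (nat_lit 164307) (nat_lit 226) (.e (nat_lit 7936) (nat_lit 90) .nil))))))) (.g (nat_lit 5) .nil .nil))))) (.nd (nat_lit 4) (.nd (nat_lit 5) 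
(.lf (nat_lit 208653) (.g (nat_lit 919) (.e (nat_lit 81943) (nat_lit 20) (.e (nat_lit 1885) (nat_lit 127) (.e (nat_lit 581651) (nat_lit 4) (.e (nat_lit 172080) (nat_lit 7) (.e (nat_lit 409634) (nat_lit 13) (.e (nat_lit 48896) (nat_lit 6) .nil)))))) (.g (nat_lit 4) .nil .nil))) 
(.lf (nat_lit 208685) (.g (nat_lit 3317) (.e (nat_lit 81943) (nat_lit 20) (.e (nat_lit 1962) (nat_lit 134) (.e (nat_lit 638998) (nat_lit 8) (.e (nat_lit 172120) (nat_lit 12) (.e (nat_lit 475193) (nat_lit 38) (.e (nat_lit 688184) (nat_lit 18) .nil)))))) (.g (nat_lit 6) .nil .nil)))) (.nd (nat_lit 5) 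
(.lf (nat_lit 208669) (.g (nat_lit 1881) (.e (nat_lit 81943) (nat_lit 20) (.e (nat_lit 1960) (nat_lit 134) (.e (nat_lit 638998) (nat_lit 8) (.e (nat_lit 172120) (nat_lit 12) (.e (nat_lit 475160) (nat_lit 21) .nil))))) .nil)) 
(.lf (nat_lit 208701) (.g (nat_lit 1538) (.e (nat_lit 81943) (nat_lit 20) (.e (nat_lit 1963) (nat_lit 134) (.e (nat_lit 639001) (nat_lit 10) (.e (nat_lit 188445) (nat_lit 21) (.e (nat_lit 164305) (nat_lit 226) (.e (nat_lit 7936) (nat_lit 90) .nil)))))) (.g (nat_lit 5) .nil .nil))))))) (.nd (nat_lit 2) (.nd (nat_lit 3) (.nd (nat_lit 4) (.nd (nat_lit 5) 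
(.lf (nat_lit 208643) (.g (nat_lit 1870) (.e (nat_lit 81943) (nat_lit 20) (.e (nat_lit 1855) (nat_lit 124) (.e (nat_lit 557093) (nat_lit 12) (.e (nat_lit 164022) (nat_lit 46) (.e (nat_lit 704736) (nat_lit 11) .nil))))) .nil)) 
(.lf (nat_lit 208675) (.g (nat_lit 1986) (.e (nat_lit 81943) (nat_lit 20) (.e (nat_lit 1962) (nat_lit 134) (.e (nat_lit 638985) (nat_lit 5) (.e (nat_lit 3015) (nat_lit 187) (.e (nat_lit 450562) (nat_lit 0) (.e (nat_lit 5170) (nat_lit 292) (.e (nat_lit 7936) (nat_lit 90) .nil))))))) (.g (nat_lit 6) .nil .nil)))) (.nd (nat_lit 5) 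
(.lf (nat_lit 208659) (.g (nat_lit 1048) (.e (nat_lit 81943) (nat_lit 20) (.e (nat_lit 1886) (nat_lit 127) (.e (nat_lit 581651) (nat_lit 4) (.e (nat_lit 172080) (nat_lit 7) (.e (nat_lit 409634) (nat_lit 13) (.e (nat_lit 48896) (nat_lit 6) .nil)))))) (.g (nat_lit 5) .nil .nil))) 
(.lf (nat_lit 208691) (.g (nat_lit 2178) (.e (nat_lit 81943) (nat_lit 20) (.e (nat_lit 1962) (nat_lit 134) (.e (nat_lit 639003) (nat_lit 12) (.e (nat_lit 237612) (nat_lit 9) (.e (nat_lit 426100) (nat_lit 1) (.e (nat_lit 164305) (nat_lit 226) (.e (nat_lit 7936) (nat_lit 90) .nil))))))) (.g (nat_lit 6) .nil .nil))))) (.nd (nat_lit 4) (.nd (nat_lit 5) 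
(.lf (nat_lit 208651) (.g (nat_lit 1955) (.e (nat_lit 81943) (nat_lit 20) (.e (nat_lit 1885) (nat_lit 127) (.e (nat_lit 581636) (nat_lit 0) (.e (nat_lit 3015) (nat_lit 187) (.e (nat_lit 450562) (nat_lit 0) (.e (nat_lit 6808) (nat_lit 365) (.e (nat_lit 7936) (nat_lit 90) .nil))))))) (.g (nat_lit 6) .nil .nil))) 
(.lf (nat_lit 208683) (.g (nat_lit 2315) (.e (nat_lit 81943) (nat_lit 20) (.e (nat_lit 1962) (nat_lit 134) (.e (nat_lit 638998) (nat_lit 8) (.e (nat_lit 172120) (nat_lit 12) (.e (nat_lit 475163) (nat_lit 21) .nil))))) .nil))) (.nd (nat_lit 5) 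
(.lf (nat_lit 208667) (.g (nat_lit 2162) (.e (nat_lit 81943) (nat_lit 20) (.e (nat_lit 1960) (nat_lit 134) (.e (nat_lit 638998) (nat_lit 8) (.e (nat_lit 172120) (nat_lit 12) (.e (nat_lit 475155) (nat_lit 21) (.e (nat_lit 6282) (nat_lit 337) (.e (nat_lit 1222) (nat_lit 90) .nil))))))) (.g (nat_lit 4) .nil .nil))) 
(.lf (nat_lit 208699) (.g (nat_lit 1592) (.e (nat_lit 81943) (nat_lit 20) (.e (nat_lit 1963) (nat_lit 134) (.e (nat_lit 638999) (nat_lit 8) (.e (nat_lit 172097) (nat_lit 9) (.e (nat_lit 426109) (nat_lit 1) (.e (nat_lit 164309) (nat_lit 226) (.e (nat_lit 7936) (nat_lit 90) .nil))))))) (.g (nat_lit 5) .nil .nil)))))) (.nd (nat_lit 3) (.nd (nat_lit 4) (.nd (nat_lit 5) 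
(.lf (nat_lit 208647) (.g (nat_lit 2002) (.e (nat_lit 81943) (nat_lit 20) (.e (nat_lit 1858) (nat_lit 124) (.e (nat_lit 557093) (nat_lit 12) (.e (nat_lit 164022) (nat_lit 46) (.e (nat_lit 704736) (nat_lit 11) .nil))))) .nil)) 
(.lf (nat_lit 208679) (.g (nat_lit 2432) (.e (nat_lit 81943) (nat_lit 20) (.e (nat_lit 1962) (nat_lit 134) (.e (nat_lit 638998) (nat_lit 8) (.e (nat_lit 172120) (nat_lit 12) (.e (nat_lit 475155) (nat_lit 21) (.e (nat_lit 6281) (nat_lit 337) (.e (nat_lit 1222) (nat_lit 90) .nil))))))) (.g (nat_lit 4) .nil .nil)))) (.nd (nat_lit 5) 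
(.lf (nat_lit 208663) (.g (nat_lit 1254) (.e (nat_lit 81943) (nat_lit 20) (.e (nat_lit 1886) (nat_lit 127) (.e (nat_lit 581653) (nat_lit 6) (.e (nat_lit 188434) (nat_lit 20) (.e (nat_lit 3577) (nat_lit 223) (.e (nat_lit 745493) (nat_lit 6) .nil)))))) (.g (nat_lit 4) .nil .nil))) 
(.lf (nat_lit 208695) (.g (nat_lit 1923) (.e (nat_lit 81943) (nat_lit 20) (.e (nat_lit 1963) (nat_lit 134) (.e (nat_lit 638986) (nat_lit 5) (.e (nat_lit 3015) (nat_lit 187) (.e (nat_lit 450562) (nat_lit 0) (.e (nat_lit 5170) (nat_lit 292) (.e (nat_lit 7936) (nat_lit 90) .nil))))))) (.g (nat_lit 6) .nil .nil))))) (.nd (nat_lit 4) (.nd (nat_lit 5) 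
(.lf (nat_lit 208655) (.g (nat_lit 1375) (.e (nat_lit 81943) (nat_lit 20) (.e (nat_lit 1885) (nat_lit 127) (.e (nat_lit 581651) (nat_lit 4) (.e (nat_lit 172113) (nat_lit 10) (.e (nat_lit 434295) (nat_lit 49) (.e (nat_lit 745493) (nat_lit 6) .nil)))))) (.g (nat_lit 5) .nil .nil))) 
(.lf (nat_lit 208687) (.g (nat_lit 1536) (.e (nat_lit 81943) (nat_lit 20) (.e (nat_lit 1962) (nat_lit 134) (.e (nat_lit 638999) (nat_lit 8) (.e (nat_lit 172097) (nat_lit 9) (.e (nat_lit 426109) (nat_lit 1) (.e (nat_lit 164301) (nat_lit 226) (.e (nat_lit 7936) (nat_lit 90) .nil))))))) (.g (nat_lit 5) .nil .nil)))) (.nd (nat_lit 5) 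
(.lf (nat_lit 208671) (.g (nat_lit 3344) (.e (nat_lit 81943) (nat_lit 20) (.e (nat_lit 1960) (nat_lit 134) (.e (nat_lit 638998) (nat_lit 8) (.e (nat_lit 172120) (nat_lit 12) (.e (nat_lit 475193) (nat_lit 38) (.e (nat_lit 688184) (nat_lit 18) .nil)))))) (.g (nat_lit 6) .nil .nil))) 
(.lf (nat_lit 208703) (.g (nat_lit 2158) (.e (nat_lit 81943) (nat_lit 20) (.e (nat_lit 1963) (nat_lit 134) (.e (nat_lit 639003) (nat_lit 12) (.e (nat_lit 237612) (nat_lit 9) (.e (nat_lit 426100) (nat_lit 1) (.e (nat_lit 164305) (nat_lit 226) (.e (nat_lit 7936) (nat_lit 90) .nil))))))) (.g (nat_lit 6) .nil .nil)))))))))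

noncomputable def tv2753 : DT := (.nd (nat_lit 0) (.nd (nat_lit 1) (.nd (nat_lit 2) (.nd (nat_lit 3) (.nd (nat_lit 4) (.nd (nat_lit 5) 
(.lf (nat_lit 208704) (.g (nat_lit 1792) (.e (nat_lit 81943) (nat_lit 20) (.e (nat_lit 1963) (nat_lit 134) (.e (nat_lit 639003) (nat_lit 12) (.e (nat_lit 237612) (nat_lit 9) (.e (nat_lit 426100) (nat_lit 1) (.e (nat_lit 164307) (nat_lit 226) (.e (nat_lit 7936) (nat_lit 90) .nil))))))) (.g (nat_lit 6) .nil .nil))) 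
(.lf (nat_lit 208736) (.g (nat_lit 1046) (.e (nat_lit 81943) (nat_lit 20) (.e (nat_lit 2004) (nat_lit 138) (.e (nat_lit 671748) (nat_lit 0) (.e (nat_lit 1562) (nat_lit 110) (.e (nat_lit 360192) (nat_lit 4) (.e (nat_lit 220928) (nat_lit 6) .nil)))))) (.g (nat_lit 4) .nil .nil)))) (.nd (nat_lit 5) 
(.lf (nat_lit 208720) (.g (nat_lit 1378) (.e (nat_lit 81943) (nat_lit 20) (.e (nat_lit 2003) (nat_lit 138) (.e (nat_lit 671747) (nat_lit 0) (.e (nat_lit 1598) (nat_lit 111) (.e (nat_lit 368384) (nat_lit 0) .nil))))) .nil)) 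
(.lf (nat_lit 208752) (.g (nat_lit 1653) (.e (nat_lit 81943) (nat_lit 20) (.e (nat_lit 2004) (nat_lit 138) (.e (nat_lit 671761) (nat_lit 4) (.e (nat_lit 65624) (nat_lit 12) (.e (nat_lit 385093) (nat_lit 49) .nil))))) .nil)))) (.nd (nat_lit 4) (.nd (nat_lit 5) 
(.lf (nat_lit 208712) (.g (nat_lit 1409) (.e (nat_lit 81943) (nat_lit 20) (.e (nat_lit 2003) (nat_lit 138) (.e (nat_lit 671747) (nat_lit 0) (.e (nat_lit 1586) (nat_lit 111) (.e (nat_lit 368384) (nat_lit 0) (.e (nat_lit 5902) (nat_lit 320) (.e (nat_lit 1219) (nat_lit 90) .nil))))))) (.g (nat_lit 4) .nil .nil))) 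
(.lf (nat_lit 208744) (.g (nat_lit 3015) (.e (nat_lit 81943) (nat_lit 20) (.e (nat_lit 2004) (nat_lit 138) (.e (nat_lit 671748) (nat_lit 0) (.e (nat_lit 1589) (nat_lit 111) (.e (nat_lit 360453) (nat_lit 0) (.e (nat_lit 5907) (nat_lit 320) (.e (nat_lit 1219) (nat_lit 90) .nil))))))) (.g (nat_lit 7) .nil .nil)))) (.nd (nat_lit 5) 
(.lf (nat_lit 208728) (.g (nat_lit 1825) (.e (nat_lit 81943) (nat_lit 20) (.e (nat_lit 2003) (nat_lit 138) (.e (nat_lit 671764) (nat_lit 6) (.e (nat_lit 81947) (nat_lit 20) (.e (nat_lit 2005) (nat_lit 138) (.e (nat_lit 671764) (nat_lit 6) .nil)))))) (.g (nat_lit 6) .nil .nil))) 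
(.lf (nat_lit 208760) (.g (nat_lit 1997) (.e (nat_lit 81943) (nat_lit 20) (.e (nat_lit 2004) (nat_lit 138) (.e (nat_lit 671764) (nat_lit 6) (.e (nat_lit 81949) (nat_lit 21) (.e (nat_lit 57870) (nat_lit 264) (.e (nat_lit 1219) (nat_lit 90) .nil)))))) (.g (nat_lit 6) .nil .nil)))))) (.nd (nat_lit 3) (.nd (nat_lit 4) (.nd (nat_lit 5) 
(.lf (nat_lit 208708) (.g (nat_lit 1282) (.e (nat_lit 81943) (nat_lit 20) (.e (nat_lit 2003) (nat_lit 138) (.e (nat_lit 671747) (nat_lit 0) (.e (nat_lit 1575) (nat_lit 110) (.e (nat_lit 352258) (nat_lit 0) .nil))))) .nil)) 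
(.lf (nat_lit 208740) (.g (nat_lit 1199) (.e (nat_lit 81943) (nat_lit 20) (.e (nat_lit 2004) (nat_lit 138) (.e (nat_lit 671748) (nat_lit 0) (.e (nat_lit 1575) (nat_lit 110) (.e (nat_lit 360192) (nat_lit 4) (.e (nat_lit 220928) (nat_lit 6) .nil)))))) (.g (nat_lit 4) .nil .nil)))) (.nd (nat_lit 5) 
(.lf (nat_lit 208724) (.g (nat_lit 2201) (.e (nat_lit 81943) (nat_lit 20) (.e (nat_lit 2003) (nat_lit 138) (.e (nat_lit 671762) (nat_lit 4) (.e (nat_lit 65623) (nat_lit 12) (.e (nat_lit 385094) (nat_lit 49) (.e (nat_lit 778326) (nat_lit 6) .nil)))))) (.g (nat_lit 6) .nil .nil))) 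
(.lf (nat_lit 208756) (.g (nat_lit 2659) (.e (nat_lit 81943) (nat_lit 20) (.e (nat_lit 2004) (nat_lit 138) (.e (nat_lit 671762) (nat_lit 4) (.e (nat_lit 65624) (nat_lit 12) (.e (nat_lit 385094) (nat_lit 49) (.e (nat_lit 778326) (nat_lit 6) .nil)))))) (.g (nat_lit 0) .nil .nil))))) (.nd (nat_lit 4) (.nd (nat_lit 5) 
(.lf (nat_lit 208716) (.g (nat_lit 919) (.e (nat_lit 81943) (nat_lit 20) (.e (nat_lit 2003) (nat_lit 138) (.e (nat_lit 671747) (nat_lit 0) (.e (nat_lit 1592) (nat_lit 111) .nil)))) .nil)) 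
(.lf (nat_lit 208748) (.g (nat_lit 1145) (.e (nat_lit 81943) (nat_lit 20) (.e (nat_lit 2004) (nat_lit 138) (.e (nat_lit 671748) (nat_lit 0) (.e (nat_lit 1598) (nat_lit 111) (.e (nat_lit 360455) (nat_lit 0) (.e (nat_lit 5813) (nat_lit 320) (.e (nat_lit 7936) (nat_lit 90) .nil))))))) (.g (nat_lit 4) .nil .nil)))) (.nd (nat_lit 5) 
(.lf (nat_lit 208732) (.g (nat_lit 636) (.e (nat_lit 81943) (nat_lit 20) (.e (nat_lit 2004) (nat_lit 138) (.e (nat_lit 671747) (nat_lit 0) (.e (nat_lit 1569) (nat_lit 110) (.e (nat_lit 360192) (nat_lit 4) .nil))))) .nil)) 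
(.lf (nat_lit 208764) (.g (nat_lit 996) (.e (nat_lit 81943) (nat_lit 20) (.e (nat_lit 2005) (nat_lit 138) (.e (nat_lit 671747) (nat_lit 0) (.e (nat_lit 1569) (nat_lit 110) (.e (nat_lit 360192) (nat_lit 4) (.e (nat_lit 220928) (nat_lit 6) .nil)))))) (.g (nat_lit 4) .nil .nil))))))) (.nd (nat_lit 2) (.nd (nat_lit 3) (.nd (nat_lit 4) (.nd (nat_lit 5) 
(.lf (nat_lit 208706) (.g (nat_lit 1261) (.e (nat_lit 81943) (nat_lit 20) (.e (nat_lit 2003) (nat_lit 138) (.e (nat_lit 671747) (nat_lit 0) (.e (nat_lit 1559) (nat_lit 110) (.e (nat_lit 352270) (nat_lit 8) (.e (nat_lit 270080) (nat_lit 6) .nil)))))) (.g (nat_lit 4) .nil .nil))) 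
(.lf (nat_lit 208738) (.g (nat_lit 986) (.e (nat_lit 81943) (nat_lit 20) (.e (nat_lit 2004) (nat_lit 138) (.e (nat_lit 671748) (nat_lit 0) (.e (nat_lit 1569) (nat_lit 110) (.e (nat_lit 360192) (nat_lit 4) (.e (nat_lit 220928) (nat_lit 6) .nil)))))) (.g (nat_lit 4) .nil .nil)))) (.nd (nat_lit 5) 
(.lf (nat_lit 208722) (.g (nat_lit 945) (.e (nat_lit 81943) (nat_lit 20) (.e (nat_lit 2003) (nat_lit 138) (.e (nat_lit 671747) (nat_lit 0) (.e (nat_lit 1599) (nat_lit 111) .nil)))) .nil)) 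
(.lf (nat_lit 208754) (.g (nat_lit 1599) (.e (nat_lit 81943) (nat_lit 20) (.e (nat_lit 2004) (nat_lit 138) (.e (nat_lit 671762) (nat_lit 4) (.e (nat_lit 65599) (nat_lit 9) (.e (nat_lit 336032) (nat_lit 4) .nil))))) .nil)))) (.nd (nat_lit 4) (.nd (nat_lit 5) 
(.lf (nat_lit 208714) (.g (nat_lit 1249) (.e (nat_lit 81943) (nat_lit 20) (.e (nat_lit 2003) (nat_lit 138) (.e (nat_lit 671747) (nat_lit 0) (.e (nat_lit 1586) (nat_lit 111) (.e (nat_lit 368384) (nat_lit 17) (.e (nat_lit 663569) (nat_lit 6) .nil)))))) (.g (nat_lit 4) .nil .nil))) 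
(.lf (nat_lit 208746) (.g (nat_lit 1417) (.e (nat_lit 81943) (nat_lit 20) (.e (nat_lit 2004) (nat_lit 138) (.e (nat_lit 671748) (nat_lit 0) (.e (nat_lit 1595) (nat_lit 111) (.e (nat_lit 368384) (nat_lit 0) (.e (nat_lit 5906) (nat_lit 320) (.e (nat_lit 1219) (nat_lit 90) .nil))))))) (.g (nat_lit 4) .nil .nil)))) (.nd (nat_lit 5) 
(.lf (nat_lit 208730) (.g (nat_lit 1964) (.e (nat_lit 81943) (nat_lit 20) (.e (nat_lit 2004) (nat_lit 138) (.e (nat_lit 671747) (nat_lit 0) (.e (nat_lit 1559) (nat_lit 110) (.e (nat_lit 352262) (nat_lit 0) (.e (nat_lit 3632) (nat_lit 227) (.e (nat_lit 778326) (nat_lit 6) .nil))))))) (.g (nat_lit 6) .nil .nil))) 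
(.lf (nat_lit 208762) (.g (nat_lit 2392) (.e (nat_lit 81943) (nat_lit 20) (.e (nat_lit 2005) (nat_lit 138) (.e (nat_lit 671744) (nat_lit 0) (.e (nat_lit 1615) (nat_lit 113) (.e (nat_lit 376859) (nat_lit 21) (.e (nat_lit 57872) (nat_lit 264) (.e (nat_lit 1219) (nat_lit 90) .nil))))))) (.g (nat_lit 7) .nil .nil)))))) (.nd (nat_lit 3) (.nd (nat_lit 4) (.nd (nat_lit 5) 
(.lf (nat_lit 208710) (.g (nat_lit 1306) (.e (nat_lit 81943) (nat_lit 20) (.e (nat_lit 2003) (nat_lit 138) (.e (nat_lit 671747) (nat_lit 0) (.e (nat_lit 1575) (nat_lit 110) (.e (nat_lit 352270) (nat_lit 8) .nil))))) .nil)) 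
(.lf (nat_lit 208742) (.g (nat_lit 2812) (.e (nat_lit 81943) (nat_lit 20) (.e (nat_lit 2004) (nat_lit 138) (.e (nat_lit 671748) (nat_lit 0) (.e (nat_lit 1586) (nat_lit 111) (.e (nat_lit 360456) (nat_lit 0) (.e (nat_lit 5818) (nat_lit 320) (.e (nat_lit 1222) (nat_lit 90) .nil))))))) (.g (nat_lit 0) .nil .nil)))) (.nd (nat_lit 5) 
(.lf (nat_lit 208726) (.g (nat_lit 833) (.e (nat_lit 81943) (nat_lit 20) (.e (nat_lit 2003) (nat_lit 138) (.e (nat_lit 671764) (nat_lit 6) (.e (nat_lit 81922) (nat_lit 0) (.e (nat_lit 3629) (nat_lit 227) .nil))))) .nil)) 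
(.lf (nat_lit 208758) (.g (nat_lit 780) (.e (nat_lit 81943) (nat_lit 20) (.e (nat_lit 2004) (nat_lit 138) (.e (nat_lit 671764) (nat_lit 6) (.e (nat_lit 81922) (nat_lit 0) (.e (nat_lit 3629) (nat_lit 227) .nil))))) .nil)))) (.nd (nat_lit 4) (.nd (nat_lit 5) 
(.lf (nat_lit 208718) (.g (nat_lit 1468) (.e (nat_lit 81943) (nat_lit 20) (.e (nat_lit 2003) (nat_lit 138) (.e (nat_lit 671747) (nat_lit 0) (.e (nat_lit 1595) (nat_lit 111) (.e (nat_lit 368384) (nat_lit 17) .nil))))) .nil)) 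
(.lf (nat_lit 208750) (.g (nat_lit 1217) (.e (nat_lit 81943) (nat_lit 20) (.e (nat_lit 2004) (nat_lit 138) (.e (nat_lit 671748) (nat_lit 0) (.e (nat_lit 1598) (nat_lit 111) (.e (nat_lit 368384) (nat_lit 0) (.e (nat_lit 5906) (nat_lit 320) (.e (nat_lit 1219) (nat_lit 90) .nil))))))) (.g (nat_lit 4) .nil .nil)))) (.nd (nat_lit 5) 
(.lf (nat_lit 208734) (.g (nat_lit 2373) (.e (nat_lit 81943) (nat_lit 20) (.e (nat_lit 2004) (nat_lit 138) (.e (nat_lit 671748) (nat_lit 0) (.e (nat_lit 1559) (nat_lit 110) (.e (nat_lit 352262) (nat_lit 0) (.e (nat_lit 3632) (nat_lit 227) (.e (nat_lit 778326) (nat_lit 6) .nil))))))) (.g (nat_lit 7) .nil .nil))) 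
(.lf (nat_lit 208766) (.g (nat_lit 903) (.e (nat_lit 81943) (nat_lit 20) (.e (nat_lit 2005) (nat_lit 138) (.e (nat_lit 671747) (nat_lit 0) (.e (nat_lit 1575) (nat_lit 110) (.e (nat_lit 352258) (nat_lit 0) (.e (nat_lit 3716) (nat_lit 227) (.e (nat_lit 778325) (nat_lit 6) .nil))))))) (.g (nat_lit 4) .nil .nil)))))))) 
(.nd (nat_lit 1) (.nd (nat_lit 2) (.nd (nat_lit 3) (.nd (nat_lit 4) (.nd (nat_lit 5) 
(.lf (nat_lit 208705) (.g (nat_lit 2435) (.e (nat_lit 81943) (nat_lit 20) (.e (nat_lit 2003) (nat_lit 138) (.e (nat_lit 671747) (nat_lit 0) (.e (nat_lit 1559) (nat_lit 110) (.e (nat_lit 352262) (nat_lit 0) (.e (nat_lit 3632) (nat_lit 227) (.e (nat_lit 778326) (nat_lit 6) .nil))))))) (.g (nat_lit 6) .nil .nil))) 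
(.lf (nat_lit 208737) (.g (nat_lit 1097) (.e (nat_lit 81943) (nat_lit 20) (.e (nat_lit 2004) (nat_lit 138) (.e (nat_lit 671748) (nat_lit 0) (.e (nat_lit 1562) (nat_lit 110) (.e (nat_lit 352270) (nat_lit 8) (.e (nat_lit 270080) (nat_lit 6) .nil)))))) (.g (nat_lit 4) .nil .nil)))) (.nd (nat_lit 5) 
(.lf (nat_lit 208721) (.g (nat_lit 1347) (.e (nat_lit 81943) (nat_lit 20) (.e (nat_lit 2003) (nat_lit 138) (.e (nat_lit 671747) (nat_lit 0) (.e (nat_lit 1598) (nat_lit 111) (.e (nat_lit 360486) (nat_lit 18) .nil))))) .nil)) 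
(.lf (nat_lit 208753) (.g (nat_lit 2642) (.e (nat_lit 81943) (nat_lit 20) (.e (nat_lit 2004) (nat_lit 138) (.e (nat_lit 671761) (nat_lit 4) (.e (nat_lit 65624) (nat_lit 12) (.e (nat_lit 385094) (nat_lit 49) (.e (nat_lit 778326) (nat_lit 6) .nil)))))) (.g (nat_lit 6) .nil .nil))))) (.nd (nat_lit 4) (.nd (nat_lit 5) 
(.lf (nat_lit 208713) (.g (nat_lit 1372) (.e (nat_lit 81943) (nat_lit 20) (.e (nat_lit 2003) (nat_lit 138) (.e (nat_lit 671747) (nat_lit 0) (.e (nat_lit 1586) (nat_lit 111) (.e (nat_lit 368384) (nat_lit 0) (.e (nat_lit 5906) (nat_lit 320) (.e (nat_lit 1219) (nat_lit 90) .nil))))))) (.g (nat_lit 4) .nil .nil))) 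
(.lf (nat_lit 208745) (.g (nat_lit 3152) (.e (nat_lit 81943) (nat_lit 20) (.e (nat_lit 2004) (nat_lit 138) (.e (nat_lit 671748) (nat_lit 0) (.e (nat_lit 1595) (nat_lit 111) (.e (nat_lit 360453) (nat_lit 0) (.e (nat_lit 5907) (nat_lit 320) (.e (nat_lit 1219) (nat_lit 90) .nil))))))) (.g (nat_lit 7) .nil .nil)))) (.nd (nat_lit 5) 
(.lf (nat_lit 208729) (.g (nat_lit 2040) (.e (nat_lit 81943) (nat_lit 20) (.e (nat_lit 2003) (nat_lit 138) (.e (nat_lit 671764) (nat_lit 6) (.e (nat_lit 81949) (nat_lit 21) (.e (nat_lit 57870) (nat_lit 264) (.e (nat_lit 1219) (nat_lit 90) .nil)))))) (.g (nat_lit 6) .nil .nil))) 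
(.lf (nat_lit 208761) (.g (nat_lit 830) (.e (nat_lit 81943) (nat_lit 20) (.e (nat_lit 2005) (nat_lit 138) (.e (nat_lit 671744) (nat_lit 0) (.e (nat_lit 1615) (nat_lit 113) (.e (nat_lit 384768) (nat_lit 4) (.e (nat_lit 220928) (nat_lit 6) .nil)))))) (.g (nat_lit 4) .nil .nil)))))) (.nd (nat_lit 3) (.nd (nat_lit 4) (.nd (nat_lit 5) 
(.lf (nat_lit 208709) (.g (nat_lit 1312) (.e (nat_lit 81943) (nat_lit 20) (.e (nat_lit 2003) (nat_lit 138) (.e (nat_lit 671747) (nat_lit 0) (.e (nat_lit 1575) (nat_lit 110) (.e (nat_lit 360192) (nat_lit 4) .nil))))) .nil)) 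
(.lf (nat_lit 208741) (.g (nat_lit 1233) (.e (nat_lit 81943) (nat_lit 20) (.e (nat_lit 2004) (nat_lit 138) (.e (nat_lit 671748) (nat_lit 0) (.e (nat_lit 1575) (nat_lit 110) (.e (nat_lit 352270) (nat_lit 8) (.e (nat_lit 270080) (nat_lit 6) .nil)))))) (.g (nat_lit 4) .nil .nil)))) (.nd (nat_lit 5) 
(.lf (nat_lit 208725) (.g (nat_lit 621) (.e (nat_lit 81943) (nat_lit 20) (.e (nat_lit 2003) (nat_lit 138) (.e (nat_lit 671764) (nat_lit 6) (.e (nat_lit 81920) (nat_lit 0) (.e (nat_lit 3714) (nat_lit 227) .nil))))) .nil)) 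
(.lf (nat_lit 208757) (.g (nat_lit 569) (.e (nat_lit 81943) (nat_lit 20) (.e (nat_lit 2004) (nat_lit 138) (.e (nat_lit 671764) (nat_lit 6) (.e (nat_lit 81920) (nat_lit 0) (.e (nat_lit 3714) (nat_lit 227) .nil))))) .nil)))) (.nd (nat_lit 4) (.nd (nat_lit 5) 
(.lf (nat_lit 208717) (.g (nat_lit 1468) (.e (nat_lit 81943) (nat_lit 20) (.e (nat_lit 2003) (nat_lit 138) (.e (nat_lit 671747) (nat_lit 0) (.e (nat_lit 1595) (nat_lit 111) (.e (nat_lit 368384) (nat_lit 0) .nil))))) .nil)) 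
(.lf (nat_lit 208749) (.g (nat_lit 2567) (.e (nat_lit 81943) (nat_lit 20) (.e (nat_lit 2004) (nat_lit 138) (.e (nat_lit 671748) (nat_lit 0) (.e (nat_lit 1598) (nat_lit 111) (.e (nat_lit 360456) (nat_lit 0) (.e (nat_lit 5818) (nat_lit 320) (.e (nat_lit 1222) (nat_lit 90) .nil))))))) (.g (nat_lit 0) .nil .nil)))) (.nd (nat_lit 5) 
(.lf (nat_lit 208733) (.g (nat_lit 996) (.e (nat_lit 81943) (nat_lit 20) (.e (nat_lit 2004) (nat_lit 138) (.e (nat_lit 671747) (nat_lit 0) (.e (nat_lit 1586) (nat_lit 111) (.e (nat_lit 368384) (nat_lit 0) .nil))))) .nil)) 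
(.lf (nat_lit 208765) (.g (nat_lit 1038) (.e (nat_lit 81943) (nat_lit 20) (.e (nat_lit 2005) (nat_lit 138) (.e (nat_lit 671747) (nat_lit 0) (.e (nat_lit 1569) (nat_lit 110) (.e (nat_lit 352270) (nat_lit 8) (.e (nat_lit 270080) (nat_lit 6) .nil)))))) (.g (nat_lit 5) .nil .nil))))))) (.nd (nat_lit 2) (.nd (nat_lit 3) (.nd (nat_lit 4) (.nd (nat_lit 5) 
(.lf (nat_lit 208707) (.g (nat_lit 1137) (.e (nat_lit 81943) (nat_lit 20) (.e (nat_lit 2003) (nat_lit 138) (.e (nat_lit 671747) (nat_lit 0) (.e (nat_lit 1569) (nat_lit 110) (.e (nat_lit 360192) (nat_lit 4) .nil))))) .nil)) 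
(.lf (nat_lit 208739) (.g (nat_lit 1013) (.e (nat_lit 81943) (nat_lit 20) (.e (nat_lit 2004) (nat_lit 138) (.e (nat_lit 671748) (nat_lit 0) (.e (nat_lit 1569) (nat_lit 110) (.e (nat_lit 352270) (nat_lit 8) (.e (nat_lit 270080) (nat_lit 6) .nil)))))) (.g (nat_lit 4) .nil .nil)))) (.nd (nat_lit 5) 
(.lf (nat_lit 208723) (.g (nat_lit 2776) (.e (nat_lit 81943) (nat_lit 20) (.e (nat_lit 2003) (nat_lit 138) (.e (nat_lit 671761) (nat_lit 4) (.e (nat_lit 65624) (nat_lit 12) (.e (nat_lit 385094) (nat_lit 49) (.e (nat_lit 778326) (nat_lit 6) .nil)))))) (.g (nat_lit 6) .nil .nil))) 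
(.lf (nat_lit 208755) (.g (nat_lit 2396) (.e (nat_lit 81943) (nat_lit 20) (.e (nat_lit 2004) (nat_lit 138) (.e (nat_lit 671762) (nat_lit 4) (.e (nat_lit 65622) (nat_lit 12) (.e (nat_lit 385093) (nat_lit 49) (.e (nat_lit 778326) (nat_lit 6) .nil)))))) (.g (nat_lit 6) .nil .nil))))) (.nd (nat_lit 4) (.nd (nat_lit 5) 
(.lf (nat_lit 208715) (.g (nat_lit 2080) (.e (nat_lit 81943) (nat_lit 20) (.e (nat_lit 2003) (nat_lit 138) (.e (nat_lit 671747) (nat_lit 0) (.e (nat_lit 1586) (nat_lit 111) (.e (nat_lit 360486) (nat_lit 18) (.e (nat_lit 671764) (nat_lit 6) .nil)))))) (.g (nat_lit 6) .nil .nil))) 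
(.lf (nat_lit 208747) (.g (nat_lit 2957) (.e (nat_lit 81943) (nat_lit 20) (.e (nat_lit 2004) (nat_lit 138) (.e (nat_lit 671748) (nat_lit 0) (.e (nat_lit 1598) (nat_lit 111) (.e (nat_lit 360452) (nat_lit 0) (.e (nat_lit 5905) (nat_lit 320) (.e (nat_lit 1219) (nat_lit 90) .nil))))))) (.g (nat_lit 7) .nil .nil)))) (.nd (nat_lit 5) 
(.lf (nat_lit 208731) (.g (nat_lit 776) (.e (nat_lit 81943) (nat_lit 20) (.e (nat_lit 2004) (nat_lit 138) (.e (nat_lit 671747) (nat_lit 0) (.e (nat_lit 1559) (nat_lit 110) (.e (nat_lit 352270) (nat_lit 8) (.e (nat_lit 270080) (nat_lit 6) .nil)))))) (.g (nat_lit 4) .nil .nil))) 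
(.lf (nat_lit 208763) (.g (nat_lit 1089) (.e (nat_lit 81943) (nat_lit 20) (.e (nat_lit 2005) (nat_lit 138) (.e (nat_lit 671747) (nat_lit 0) (.e (nat_lit 1559) (nat_lit 110) (.e (nat_lit 352270) (nat_lit 8) (.e (nat_lit 270080) (nat_lit 6) .nil)))))) (.g (nat_lit 5) .nil .nil)))))) (.nd (nat_lit 3) (.nd (nat_lit 4) (.nd (nat_lit 5) 
(.lf (nat_lit 208711) (.g (nat_lit 2770) (.e (nat_lit 81943) (nat_lit 20) (.e (nat_lit 2003) (nat_lit 138) (.e (nat_lit 671747) (nat_lit 0) (.e (nat_lit 1586) (nat_lit 111) (.e (nat_lit 360456) (nat_lit 0) (.e (nat_lit 5818) (nat_lit 320) (.e (nat_lit 1222) (nat_lit 90) .nil))))))) (.g (nat_lit 0) .nil .nil))) 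
(.lf (nat_lit 208743) (.g (nat_lit 2184) (.e (nat_lit 81943) (nat_lit 20) (.e (nat_lit 2004) (nat_lit 138) (.e (nat_lit 671748) (nat_lit 0) (.e (nat_lit 1586) (nat_lit 111) (.e (nat_lit 360486) (nat_lit 18) (.e (nat_lit 671764) (nat_lit 6) .nil)))))) (.g (nat_lit 6) .nil .nil)))) (.nd (nat_lit 5) 
(.lf (nat_lit 208727) (.g (nat_lit 1243) (.e (nat_lit 81943) (nat_lit 20) (.e (nat_lit 2003) (nat_lit 138) (.e (nat_lit 671764) (nat_lit 6) (.e (nat_lit 81947) (nat_lit 20) (.e (nat_lit 2003) (nat_lit 138) .nil))))) .nil)) 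
(.lf (nat_lit 208759) (.g (nat_lit 1776) (.e (nat_lit 81943) (nat_lit 20) (.e (nat_lit 2004) (nat_lit 138) (.e (nat_lit 671764) (nat_lit 6) (.e (nat_lit 81947) (nat_lit 20) (.e (nat_lit 2005) (nat_lit 138) (.e (nat_lit 671764) (nat_lit 6) .nil)))))) (.g (nat_lit 6) .nil .nil))))) (.nd (nat_lit 4) (.nd (nat_lit 5) 
(.lf (nat_lit 208719) (.g (nat_lit 946) (.e (nat_lit 81943) (nat_lit 20) (.e (nat_lit 2003) (nat_lit 138) (.e (nat_lit 671747) (nat_lit 0) (.e (nat_lit 1598) (nat_lit 111) .nil)))) .nil)) 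
(.lf (nat_lit 208751) (.g (nat_lit 1977) (.e (nat_lit 81943) (nat_lit 20) (.e (nat_lit 2004) (nat_lit 138) (.e (nat_lit 671760) (nat_lit 4) (.e (nat_lit 65624) (nat_lit 12) (.e (nat_lit 385094) (nat_lit 49) (.e (nat_lit 778326) (nat_lit 6) .nil)))))) (.g (nat_lit 6) .nil .nil)))) (.nd (nat_lit 5) 
(.lf (nat_lit 208735) (.g (nat_lit 1203) (.e (nat_lit 81943) (nat_lit 20) (.e (nat_lit 2004) (nat_lit 138) (.e (nat_lit 671748) (nat_lit 0) (.e (nat_lit 1559) (nat_lit 110) (.e (nat_lit 352270) (nat_lit 8) (.e (nat_lit 270080) (nat_lit 6) .nil)))))) (.g (nat_lit 5) .nil .nil))) 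
(.lf (nat_lit 208767) (.g (nat_lit 931) (.e (nat_lit 81943) (nat_lit 20) (.e (nat_lit 2005) (nat_lit 138) (.e (nat_lit 671747) (nat_lit 0) (.e (nat_lit 1575) (nat_lit 110) (.e (nat_lit 360192) (nat_lit 4) (.e (nat_lit 220928) (nat_lit 6) .nil)))))) (.g (nat_lit 4) .nil .nil)))))))))

noncomputable def tv2754 : DT := (.nd (nat_lit 0) (.nd (nat_lit 1) (.nd (nat_lit 2) (.nd (nat_lit 3) (.nd (nat_lit 4) 
(.lf (nat_lit 208768) (.g (nat_lit 977) (.e (nat_lit 81943) (nat_lit 20) (.e (nat_lit 2005) (nat_lit 138) (.e (nat_lit 671747) (nat_lit 0) (.e (nat_lit 1575) (nat_lit 110) (.e (nat_lit 352270) (nat_lit 8) (.e (nat_lit 270080) (nat_lit 6) .nil)))))) (.g (nat_lit 4) .nil .nil))) 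
(.lf (nat_lit 208784) (.g (nat_lit 2042) (.e (nat_lit 81943) (nat_lit 20) (.e (nat_lit 2005) (nat_lit 138) (.e (nat_lit 671748) (nat_lit 0) (.e (nat_lit 1586) (nat_lit 111) (.e (nat_lit 360450) (nat_lit 0) (.e (nat_lit 5898) (nat_lit 320) (.e (nat_lit 7936) (nat_lit 90) .nil))))))) (.g (nat_lit 5) .nil .nil)))) (.nd (nat_lit 4) 
(.lf (nat_lit 208776) (.g (nat_lit 1114) (.e (nat_lit 81943) (nat_lit 20) (.e (nat_lit 2005) (nat_lit 138) (.e (nat_lit 671748) (nat_lit 0) (.e (nat_lit 1562) (nat_lit 110) (.e (nat_lit 352270) (nat_lit 8) (.e (nat_lit 270080) (nat_lit 6) .nil)))))) (.g (nat_lit 5) .nil .nil))) 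
(.lf (nat_lit 208792) (.g (nat_lit 1595) (.e (nat_lit 81943) (nat_lit 20) (.e (nat_lit 2005) (nat_lit 138) (.e (nat_lit 671762) (nat_lit 4) (.e (nat_lit 65599) (nat_lit 9) (.e (nat_lit 336032) (nat_lit 4) .nil))))) .nil)))) (.nd (nat_lit 3) (.nd (nat_lit 4) 
(.lf (nat_lit 208772) (.g (nat_lit 1053) (.e (nat_lit 81943) (nat_lit 20) (.e (nat_lit 2005) (nat_lit 138) (.e (nat_lit 671747) (nat_lit 0) (.e (nat_lit 1595) (nat_lit 111) (.e (nat_lit 368384) (nat_lit 0) .nil))))) .nil)) 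
(.lf (nat_lit 208788) (.g (nat_lit 1261) (.e (nat_lit 81943) (nat_lit 20) (.e (nat_lit 2005) (nat_lit 138) (.e (nat_lit 671748) (nat_lit 0) (.e (nat_lit 1598) (nat_lit 111) (.e (nat_lit 360455) (nat_lit 0) (.e (nat_lit 5813) (nat_lit 320) (.e (nat_lit 7936) (nat_lit 90) .nil))))))) (.g (nat_lit 4) .nil .nil)))) (.nd (nat_lit 4) 
(.lf (nat_lit 208780) (.g (nat_lit 1392) (.e (nat_lit 81943) (nat_lit 20) (.e (nat_lit 2005) (nat_lit 138) (.e (nat_lit 671748) (nat_lit 0) (.e (nat_lit 1575) (nat_lit 110) (.e (nat_lit 352258) (nat_lit 0) (.e (nat_lit 3716) (nat_lit 227) (.e (nat_lit 778325) (nat_lit 6) .nil))))))) (.g (nat_lit 0) .nil .nil))) 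
(.lf (nat_lit 208796) (.g (nat_lit 1709) (.e (nat_lit 81943) (nat_lit 20) (.e (nat_lit 2005) (nat_lit 138) (.e (nat_lit 671764) (nat_lit 6) (.e (nat_lit 81924) (nat_lit 0) (.e (nat_lit 3632) (nat_lit 227) (.e (nat_lit 778326) (nat_lit 6) .nil)))))) (.g (nat_lit 0) .nil .nil)))))) (.nd (nat_lit 2) (.nd (nat_lit 3) (.nd (nat_lit 4) 
(.lf (nat_lit 208770) (.g (nat_lit 1207) (.e (nat_lit 81943) (nat_lit 20) (.e (nat_lit 2005) (nat_lit 138) (.e (nat_lit 671747) (nat_lit 0) (.e (nat_lit 1586) (nat_lit 111) (.e (nat_lit 368384) (nat_lit 0) (.e (nat_lit 5906) (nat_lit 320) (.e (nat_lit 1219) (nat_lit 90) .nil))))))) (.g (nat_lit 4) .nil .nil))) 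
(.lf (nat_lit 208786) (.g (nat_lit 675) (.e (nat_lit 81943) (nat_lit 20) (.e (nat_lit 2005) (nat_lit 138) (.e (nat_lit 671748) (nat_lit 0) (.e (nat_lit 1592) (nat_lit 111) .nil)))) .nil))) (.nd (nat_lit 4) 
(.lf (nat_lit 208778) (.g (nat_lit 1033) (.e (nat_lit 81943) (nat_lit 20) (.e (nat_lit 2005) (nat_lit 138) (.e (nat_lit 671748) (nat_lit 0) (.e (nat_lit 1569) (nat_lit 110) (.e (nat_lit 352270) (nat_lit 8) (.e (nat_lit 270080) (nat_lit 6) .nil)))))) (.g (nat_lit 5) .nil .nil))) 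
(.lf (nat_lit 208794) (.g (nat_lit 809) (.e (nat_lit 81943) (nat_lit 20) (.e (nat_lit 2005) (nat_lit 138) (.e (nat_lit 671764) (nat_lit 6) (.e (nat_lit 81922) (nat_lit 0) (.e (nat_lit 3629) (nat_lit 227) .nil))))) .nil)))) (.nd (nat_lit 3) (.nd (nat_lit 4) 
(.lf (nat_lit 208774) (.g (nat_lit 1131) (.e (nat_lit 81943) (nat_lit 20) (.e (nat_lit 2005) (nat_lit 138) (.e (nat_lit 671748) (nat_lit 0) (.e (nat_lit 1559) (nat_lit 110) (.e (nat_lit 352270) (nat_lit 8) (.e (nat_lit 270080) (nat_lit 6) .nil)))))) (.g (nat_lit 5) .nil .nil))) 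
(.lf (nat_lit 208790) (.g (nat_lit 2083) (.e (nat_lit 81943) (nat_lit 20) (.e (nat_lit 2005) (nat_lit 138) (.e (nat_lit 671760) (nat_lit 4) (.e (nat_lit 65624) (nat_lit 12) (.e (nat_lit 385094) (nat_lit 49) (.e (nat_lit 778326) (nat_lit 6) .nil)))))) (.g (nat_lit 6) .nil .nil)))) (.nd (nat_lit 4) 
(.lf (nat_lit 208782) (.g (nat_lit 1249) (.e (nat_lit 81943) (nat_lit 20) (.e (nat_lit 2005) (nat_lit 138) (.e (nat_lit 671748) (nat_lit 0) (.e (nat_lit 1575) (nat_lit 110) (.e (nat_lit 360192) (nat_lit 4) (.e (nat_lit 220928) (nat_lit 6) .nil)))))) (.g (nat_lit 4) .nil .nil))) 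
(.lf (nat_lit 208798) (.g (nat_lit 1834) (.e (nat_lit 81943) (nat_lit 20) (.e (nat_lit 2005) (nat_lit 138) (.e (nat_lit 671764) (nat_lit 6) (.e (nat_lit 81935) (nat_lit 20) (.e (nat_lit 1999) (nat_lit 137) (.e (nat_lit 663569) (nat_lit 6) .nil)))))) (.g (nat_lit 0) .nil .nil))))))) (.nd (nat_lit 1) (.nd (nat_lit 2) (.nd (nat_lit 3) (.nd (nat_lit 4) 
(.lf (nat_lit 208769) (.g (nat_lit 1809) (.e (nat_lit 81943) (nat_lit 20) (.e (nat_lit 2005) (nat_lit 138) (.e (nat_lit 671747) (nat_lit 0) (.e (nat_lit 1586) (nat_lit 111) (.e (nat_lit 368384) (nat_lit 0) (.e (nat_lit 5905) (nat_lit 320) (.e (nat_lit 1219) (nat_lit 90) .nil))))))) (.g (nat_lit 6) .nil .nil))) 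
(.lf (nat_lit 208785) (.g (nat_lit 2998) (.e (nat_lit 81943) (nat_lit 20) (.e (nat_lit 2005) (nat_lit 138) (.e (nat_lit 671748) (nat_lit 0) (.e (nat_lit 1589) (nat_lit 111) (.e (nat_lit 360453) (nat_lit 0) (.e (nat_lit 5907) (nat_lit 320) (.e (nat_lit 1219) (nat_lit 90) .nil))))))) (.g (nat_lit 7) .nil .nil)))) (.nd (nat_lit 4) 
(.lf (nat_lit 208777) (.g (nat_lit 1039) (.e (nat_lit 81943) (nat_lit 20) (.e (nat_lit 2005) (nat_lit 138) (.e (nat_lit 671748) (nat_lit 0) (.e (nat_lit 1569) (nat_lit 110) (.e (nat_lit 360192) (nat_lit 4) (.e (nat_lit 220928) (nat_lit 6) .nil)))))) (.g (nat_lit 4) .nil .nil))) 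
(.lf (nat_lit 208793) (.g (nat_lit 674) (.e (nat_lit 81943) (nat_lit 20) (.e (nat_lit 2005) (nat_lit 138) (.e (nat_lit 671764) (nat_lit 6) (.e (nat_lit 81920) (nat_lit 0) (.e (nat_lit 3714) (nat_lit 227) .nil))))) .nil)))) (.nd (nat_lit 3) (.nd (nat_lit 4) 
(.lf (nat_lit 208773) (.g (nat_lit 2437) (.e (nat_lit 81943) (nat_lit 20) (.e (nat_lit 2005) (nat_lit 138) (.e (nat_lit 671748) (nat_lit 0) (.e (nat_lit 1559) (nat_lit 110) (.e (nat_lit 352262) (nat_lit 0) (.e (nat_lit 3632) (nat_lit 227) (.e (nat_lit 778326) (nat_lit 6) .nil))))))) (.g (nat_lit 7) .nil .nil))) 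
(.lf (nat_lit 208789) (.g (nat_lit 2460) (.e (nat_lit 81943) (nat_lit 20) (.e (nat_lit 2005) (nat_lit 138) (.e (nat_lit 671751) (nat_lit 0) (.e (nat_lit 1524) (nat_lit 108) (.e (nat_lit 336194) (nat_lit 12) (.e (nat_lit 385094) (nat_lit 49) (.e (nat_lit 778326) (nat_lit 6) .nil))))))) (.g (nat_lit 7) .nil .nil)))) (.nd (nat_lit 4) 
(.lf (nat_lit 208781) (.g (nat_lit 2665) (.e (nat_lit 81943) (nat_lit 20) (.e (nat_lit 2005) (nat_lit 138) (.e (nat_lit 671748) (nat_lit 0) (.e (nat_lit 1575) (nat_lit 110) (.e (nat_lit 352262) (nat_lit 0) (.e (nat_lit 3632) (nat_lit 227) (.e (nat_lit 778326) (nat_lit 6) .nil))))))) (.g (nat_lit 0) .nil .nil))) 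
(.lf (nat_lit 208797) (.g (nat_lit 1395) (.e (nat_lit 81943) (nat_lit 20) (.e (nat_lit 2005) (nat_lit 138) (.e (nat_lit 671764) (nat_lit 6) (.e (nat_lit 81933) (nat_lit 20) (.e (nat_lit 1999) (nat_lit 137) (.e (nat_lit 663569) (nat_lit 6) .nil)))))) (.g (nat_lit 0) .nil .nil)))))) (.nd (nat_lit 2) (.nd (nat_lit 3) (.nd (nat_lit 4) 
(.lf (nat_lit 208771) (.g (nat_lit 2799) (.e (nat_lit 81943) (nat_lit 20) (.e (nat_lit 2005) (nat_lit 138) (.e (nat_lit 671747) (nat_lit 0) (.e (nat_lit 1595) (nat_lit 111) (.e (nat_lit 360453) (nat_lit 0) (.e (nat_lit 5907) (nat_lit 320) (.e (nat_lit 1219) (nat_lit 90) .nil))))))) (.g (nat_lit 7) .nil .nil))) 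
(.lf (nat_lit 208787) (.g (nat_lit 2929) (.e (nat_lit 81943) (nat_lit 20) (.e (nat_lit 2005) (nat_lit 138) (.e (nat_lit 671748) (nat_lit 0) (.e (nat_lit 1598) (nat_lit 111) (.e (nat_lit 360452) (nat_lit 0) (.e (nat_lit 5905) (nat_lit 320) (.e (nat_lit 1219) (nat_lit 90) .nil))))))) (.g (nat_lit 7) .nil .nil)))) (.nd (nat_lit 4) 
(.lf (nat_lit 208779) (.g (nat_lit 3554) (.e (nat_lit 81943) (nat_lit 20) (.e (nat_lit 2005) (nat_lit 138) (.e (nat_lit 671748) (nat_lit 0) (.e (nat_lit 1572) (nat_lit 110) (.e (nat_lit 352318) (nat_lit 24) (.e (nat_lit 123184) (nat_lit 264) (.e (nat_lit 1222) (nat_lit 90) .nil))))))) (.g (nat_lit 0) .nil .nil))) 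
(.lf (nat_lit 208795) (.g (nat_lit 1589) (.e (nat_lit 81943) (nat_lit 20) (.e (nat_lit 2005) (nat_lit 138) (.e (nat_lit 671764) (nat_lit 6) (.e (nat_lit 81924) (nat_lit 0) (.e (nat_lit 3631) (nat_lit 227) (.e (nat_lit 778326) (nat_lit 6) .nil)))))) (.g (nat_lit 0) .nil .nil))))) (.nd (nat_lit 3) (.nd (nat_lit 4) 
(.lf (nat_lit 208775) (.g (nat_lit 1061) (.e (nat_lit 81943) (nat_lit 20) (.e (nat_lit 2005) (nat_lit 138) (.e (nat_lit 671748) (nat_lit 0) (.e (nat_lit 1562) (nat_lit 110) (.e (nat_lit 360192) (nat_lit 4) (.e (nat_lit 220928) (nat_lit 6) .nil)))))) (.g (nat_lit 4) .nil .nil))) 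
(.lf (nat_lit 208791) (.g (nat_lit 2715) (.e (nat_lit 81943) (nat_lit 20) (.e (nat_lit 2005) (nat_lit 138) (.e (nat_lit 671761) (nat_lit 4) (.e (nat_lit 65624) (nat_lit 12) (.e (nat_lit 385094) (nat_lit 49) (.e (nat_lit 778326) (nat_lit 6) .nil)))))) (.g (nat_lit 6) .nil .nil)))) (.nd (nat_lit 4) 
(.lf (nat_lit 208783) (.g (nat_lit 1296) (.e (nat_lit 81943) (nat_lit 20) (.e (nat_lit 2005) (nat_lit 138) (.e (nat_lit 671748) (nat_lit 0) (.e (nat_lit 1575) (nat_lit 110) (.e (nat_lit 352270) (nat_lit 8) (.e (nat_lit 270080) (nat_lit 6) .nil)))))) (.g (nat_lit 5) .nil .nil))) 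
(.lf (nat_lit 208799) (.g (nat_lit 1229) (.e (nat_lit 81943) (nat_lit 20) (.e (nat_lit 2005) (nat_lit 138) (.e (nat_lit 671764) (nat_lit 6) (.e (nat_lit 81947) (nat_lit 20) (.e (nat_lit 2003) (nat_lit 138) (.e (nat_lit 671764) (nat_lit 6) .nil)))))) (.g (nat_lit 4) .nil .nil))))))))

noncomputable def tv2755 : DT := (.nd (nat_lit 0) (.nd (nat_lit 1) (.nd (nat_lit 2) (.nd (nat_lit 3) (.nd (nat_lit 4) 
(.lf (nat_lit 208800) (.g (nat_lit 2439) (.e (nat_lit 81943) (nat_lit 20) (.e (nat_lit 2005) (nat_lit 138) (.e (nat_lit 671764) (nat_lit 6) (.e (nat_lit 81948) (nat_lit 21) (.e (nat_lit 57872) (nat_lit 264) (.e (nat_lit 1219) (nat_lit 90) .nil)))))) (.g (nat_lit 0) .nil .nil))) 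
(.lf (nat_lit 208816) (.g (nat_lit 2093) (.e (nat_lit 81943) (nat_lit 20) (.e (nat_lit 2006) (nat_lit 138) (.e (nat_lit 671748) (nat_lit 0) (.e (nat_lit 1598) (nat_lit 111) (.e (nat_lit 360452) (nat_lit 0) (.e (nat_lit 5906) (nat_lit 320) (.e (nat_lit 1219) (nat_lit 90) .nil))))))) (.g (nat_lit 6) .nil .nil)))) (.nd (nat_lit 4) 
(.lf (nat_lit 208808) (.g (nat_lit 1238) (.e (nat_lit 81943) (nat_lit 20) (.e (nat_lit 2006) (nat_lit 138) (.e (nat_lit 671748) (nat_lit 0) (.e (nat_lit 1562) (nat_lit 110) (.e (nat_lit 352270) (nat_lit 8) (.e (nat_lit 270080) (nat_lit 6) .nil)))))) (.g (nat_lit 5) .nil .nil))) 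
(.lf (nat_lit 208824) (.g (nat_lit 3144) (.e (nat_lit 81943) (nat_lit 20) (.e (nat_lit 2006) (nat_lit 138) (.e (nat_lit 671762) (nat_lit 4) (.e (nat_lit 65619) (nat_lit 10) (.e (nat_lit 344097) (nat_lit 18) (.e (nat_lit 5906) (nat_lit 320) (.e (nat_lit 1219) (nat_lit 90) .nil))))))) (.g (nat_lit 0) .nil .nil))))) (.nd (nat_lit 3) (.nd (nat_lit 4) 
(.lf (nat_lit 208804) (.g (nat_lit 2874) (.e (nat_lit 81943) (nat_lit 20) (.e (nat_lit 2005) (nat_lit 138) (.e (nat_lit 671764) (nat_lit 6) (.e (nat_lit 81959) (nat_lit 24) (.e (nat_lit 123184) (nat_lit 264) (.e (nat_lit 1222) (nat_lit 90) .nil)))))) (.g (nat_lit 0) .nil .nil))) 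
(.lf (nat_lit 208820) (.g (nat_lit 1721) (.e (nat_lit 81943) (nat_lit 20) (.e (nat_lit 2006) (nat_lit 138) (.e (nat_lit 671762) (nat_lit 4) (.e (nat_lit 65599) (nat_lit 9) (.e (nat_lit 336032) (nat_lit 4) .nil))))) .nil))) (.nd (nat_lit 4) 
(.lf (nat_lit 208812) (.g (nat_lit 1297) (.e (nat_lit 81943) (nat_lit 20) (.e (nat_lit 2006) (nat_lit 138) (.e (nat_lit 671748) (nat_lit 0) (.e (nat_lit 1575) (nat_lit 110) (.e (nat_lit 360192) (nat_lit 4) (.e (nat_lit 220928) (nat_lit 6) .nil)))))) (.g (nat_lit 4) .nil .nil))) 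
(.lf (nat_lit 208828) (.g (nat_lit 610) (.e (nat_lit 81943) (nat_lit 20) (.e (nat_lit 2006) (nat_lit 138) (.e (nat_lit 671764) (nat_lit 6) (.e (nat_lit 81928) (nat_lit 20) .nil)))) .nil))))) (.nd (nat_lit 2) (.nd (nat_lit 3) (.nd (nat_lit 4) 
(.lf (nat_lit 208802) (.g (nat_lit 3251) (.e (nat_lit 81943) (nat_lit 20) (.e (nat_lit 2005) (nat_lit 138) (.e (nat_lit 671764) (nat_lit 6) (.e (nat_lit 81957) (nat_lit 24) (.e (nat_lit 123184) (nat_lit 264) (.e (nat_lit 1222) (nat_lit 90) .nil)))))) (.g (nat_lit 0) .nil .nil))) 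
(.lf (nat_lit 208818) (.g (nat_lit 2901) (.e (nat_lit 81943) (nat_lit 20) (.e (nat_lit 2006) (nat_lit 138) (.e (nat_lit 671762) (nat_lit 4) (.e (nat_lit 65598) (nat_lit 9) (.e (nat_lit 335997) (nat_lit 1) (.e (nat_lit 57870) (nat_lit 264) (.e (nat_lit 1219) (nat_lit 90) .nil))))))) (.g (nat_lit 6) .nil .nil)))) (.nd (nat_lit 4) 
(.lf (nat_lit 208810) (.g (nat_lit 1135) (.e (nat_lit 81943) (nat_lit 20) (.e (nat_lit 2006) (nat_lit 138) (.e (nat_lit 671748) (nat_lit 0) (.e (nat_lit 1569) (nat_lit 110) (.e (nat_lit 352270) (nat_lit 8) (.e (nat_lit 270080) (nat_lit 6) .nil)))))) (.g (nat_lit 5) .nil .nil))) 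
(.lf (nat_lit 208826) (.g (nat_lit 2424) (.e (nat_lit 81943) (nat_lit 20) (.e (nat_lit 2006) (nat_lit 138) (.e (nat_lit 671762) (nat_lit 4) (.e (nat_lit 65623) (nat_lit 12) (.e (nat_lit 385094) (nat_lit 49) (.e (nat_lit 778326) (nat_lit 6) .nil)))))) (.g (nat_lit 0) .nil .nil))))) (.nd (nat_lit 3) (.nd (nat_lit 4) 
(.lf (nat_lit 208806) (.g (nat_lit 1349) (.e (nat_lit 81943) (nat_lit 20) (.e (nat_lit 2006) (nat_lit 138) (.e (nat_lit 671748) (nat_lit 0) (.e (nat_lit 1559) (nat_lit 110) (.e (nat_lit 352270) (nat_lit 8) (.e (nat_lit 270080) (nat_lit 6) .nil)))))) (.g (nat_lit 5) .nil .nil))) 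
(.lf (nat_lit 208822) (.g (nat_lit 3371) (.e (nat_lit 81943) (nat_lit 20) (.e (nat_lit 2006) (nat_lit 138) (.e (nat_lit 671762) (nat_lit 4) (.e (nat_lit 65604) (nat_lit 9) (.e (nat_lit 335997) (nat_lit 1) (.e (nat_lit 57872) (nat_lit 264) (.e (nat_lit 1219) (nat_lit 90) .nil))))))) (.g (nat_lit 0) .nil .nil)))) (.nd (nat_lit 4) 
(.lf (nat_lit 208814) (.g (nat_lit 2301) (.e (nat_lit 81943) (nat_lit 20) (.e (nat_lit 2006) (nat_lit 138) (.e (nat_lit 671748) (nat_lit 0) (.e (nat_lit 1586) (nat_lit 111) (.e (nat_lit 360450) (nat_lit 0) (.e (nat_lit 5898) (nat_lit 320) (.e (nat_lit 7936) (nat_lit 90) .nil))))))) (.g (nat_lit 5) .nil .nil))) 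
(.lf (nat_lit 208830) (.g (nat_lit 1430) (.e (nat_lit 81943) (nat_lit 20) (.e (nat_lit 2006) (nat_lit 138) (.e (nat_lit 671764) (nat_lit 6) (.e (nat_lit 81934) (nat_lit 20) (.e (nat_lit 1999) (nat_lit 137) (.e (nat_lit 663569) (nat_lit 6) .nil)))))) (.g (nat_lit 0) .nil .nil))))))) (.nd (nat_lit 1) (.nd (nat_lit 2) (.nd (nat_lit 3) (.nd (nat_lit 4) 
(.lf (nat_lit 208801) (.g (nat_lit 1994) (.e (nat_lit 81943) (nat_lit 20) (.e (nat_lit 2005) (nat_lit 138) (.e (nat_lit 671764) (nat_lit 6) (.e (nat_lit 81949) (nat_lit 21) (.e (nat_lit 57870) (nat_lit 264) (.e (nat_lit 1219) (nat_lit 90) .nil)))))) (.g (nat_lit 6) .nil .nil))) 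
(.lf (nat_lit 208817) (.g (nat_lit 1347) (.e (nat_lit 81943) (nat_lit 20) (.e (nat_lit 2006) (nat_lit 138) (.e (nat_lit 671748) (nat_lit 0) (.e (nat_lit 1598) (nat_lit 111) (.e (nat_lit 360455) (nat_lit 0) (.e (nat_lit 5813) (nat_lit 320) (.e (nat_lit 7936) (nat_lit 90) .nil))))))) (.g (nat_lit 4) .nil .nil)))) (.nd (nat_lit 4) 
(.lf (nat_lit 208809) (.g (nat_lit 1100) (.e (nat_lit 81943) (nat_lit 20) (.e (nat_lit 2006) (nat_lit 138) (.e (nat_lit 671748) (nat_lit 0) (.e (nat_lit 1569) (nat_lit 110) (.e (nat_lit 360192) (nat_lit 4) (.e (nat_lit 220928) (nat_lit 6) .nil)))))) (.g (nat_lit 4) .nil .nil))) 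
(.lf (nat_lit 208825) (.g (nat_lit 2413) (.e (nat_lit 81943) (nat_lit 20) (.e (nat_lit 2006) (nat_lit 138) (.e (nat_lit 671762) (nat_lit 4) (.e (nat_lit 65622) (nat_lit 12) (.e (nat_lit 385094) (nat_lit 49) (.e (nat_lit 778326) (nat_lit 6) .nil)))))) (.g (nat_lit 0) .nil .nil))))) (.nd (nat_lit 3) (.nd (nat_lit 4) 
(.lf (nat_lit 208805) (.g (nat_lit 751) (.e (nat_lit 81943) (nat_lit 20) (.e (nat_lit 2006) (nat_lit 138) (.e (nat_lit 671748) (nat_lit 0) (.e (nat_lit 1559) (nat_lit 110) .nil)))) .nil)) 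
(.lf (nat_lit 208821) (.g (nat_lit 2884) (.e (nat_lit 81943) (nat_lit 20) (.e (nat_lit 2006) (nat_lit 138) (.e (nat_lit 671762) (nat_lit 4) (.e (nat_lit 65604) (nat_lit 9) (.e (nat_lit 335997) (nat_lit 1) (.e (nat_lit 57870) (nat_lit 264) (.e (nat_lit 1219) (nat_lit 90) .nil))))))) (.g (nat_lit 0) .nil .nil)))) (.nd (nat_lit 4) 
(.lf (nat_lit 208813) (.g (nat_lit 1342) (.e (nat_lit 81943) (nat_lit 20) (.e (nat_lit 2006) (nat_lit 138) (.e (nat_lit 671748) (nat_lit 0) (.e (nat_lit 1575) (nat_lit 110) (.e (nat_lit 352270) (nat_lit 8) (.e (nat_lit 270080) (nat_lit 6) .nil)))))) (.g (nat_lit 5) .nil .nil))) 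
(.lf (nat_lit 208829) (.g (nat_lit 1447) (.e (nat_lit 81943) (nat_lit 20) (.e (nat_lit 2006) (nat_lit 138) (.e (nat_lit 671764) (nat_lit 6) (.e (nat_lit 81933) (nat_lit 20) (.e (nat_lit 1999) (nat_lit 137) (.e (nat_lit 663569) (nat_lit 6) .nil)))))) (.g (nat_lit 0) .nil .nil)))))) (.nd (nat_lit 2) (.nd (nat_lit 3) (.nd (nat_lit 4) 
(.lf (nat_lit 208803) (.g (nat_lit 3170) (.e (nat_lit 81943) (nat_lit 20) (.e (nat_lit 2005) (nat_lit 138) (.e (nat_lit 671764) (nat_lit 6) (.e (nat_lit 81959) (nat_lit 24) (.e (nat_lit 123182) (nat_lit 264) (.e (nat_lit 1222) (nat_lit 90) .nil)))))) (.g (nat_lit 0) .nil .nil))) 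
(.lf (nat_lit 208819) (.g (nat_lit 3371) (.e (nat_lit 81943) (nat_lit 20) (.e (nat_lit 2006) (nat_lit 138) (.e (nat_lit 671762) (nat_lit 4) (.e (nat_lit 65598) (nat_lit 9) (.e (nat_lit 335997) (nat_lit 1) (.e (nat_lit 57872) (nat_lit 264) (.e (nat_lit 1219) (nat_lit 90) .nil))))))) (.g (nat_lit 7) .nil .nil)))) (.nd (nat_lit 4) 
(.lf (nat_lit 208811) (.g (nat_lit 885) (.e (nat_lit 81943) (nat_lit 20) (.e (nat_lit 2006) (nat_lit 138) (.e (nat_lit 671748) (nat_lit 0) (.e (nat_lit 1572) (nat_lit 110) .nil)))) .nil)) 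
(.lf (nat_lit 208827) (.g (nat_lit 2776) (.e (nat_lit 81943) (nat_lit 20) (.e (nat_lit 2006) (nat_lit 138) (.e (nat_lit 671762) (nat_lit 4) (.e (nat_lit 65624) (nat_lit 12) (.e (nat_lit 385094) (nat_lit 49) (.e (nat_lit 778326) (nat_lit 6) .nil)))))) (.g (nat_lit 0) .nil .nil))))) (.nd (nat_lit 3) (.nd (nat_lit 4) 
(.lf (nat_lit 208807) (.g (nat_lit 1184) (.e (nat_lit 81943) (nat_lit 20) (.e (nat_lit 2006) (nat_lit 138) (.e (nat_lit 671748) (nat_lit 0) (.e (nat_lit 1562) (nat_lit 110) (.e (nat_lit 360192) (nat_lit 4) (.e (nat_lit 220928) (nat_lit 6) .nil)))))) (.g (nat_lit 4) .nil .nil))) 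
(.lf (nat_lit 208823) (.g (nat_lit 3296) (.e (nat_lit 81943) (nat_lit 20) (.e (nat_lit 2006) (nat_lit 138) (.e (nat_lit 671762) (nat_lit 4) (.e (nat_lit 65610) (nat_lit 10) (.e (nat_lit 344097) (nat_lit 18) (.e (nat_lit 5906) (nat_lit 320) (.e (nat_lit 1219) (nat_lit 90) .nil))))))) (.g (nat_lit 0) .nil .nil)))) (.nd (nat_lit 4) 
(.lf (nat_lit 208815) (.g (nat_lit 3128) (.e (nat_lit 81943) (nat_lit 20) (.e (nat_lit 2006) (nat_lit 138) (.e (nat_lit 671748) (nat_lit 0) (.e (nat_lit 1598) (nat_lit 111) (.e (nat_lit 360452) (nat_lit 0) (.e (nat_lit 5905) (nat_lit 320) (.e (nat_lit 1219) (nat_lit 90) .nil))))))) (.g (nat_lit 7) .nil .nil))) 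
(.lf (nat_lit 208831) (.g (nat_lit 1872) (.e (nat_lit 81943) (nat_lit 20) (.e (nat_lit 2006) (nat_lit 138) (.e (nat_lit 671764) (nat_lit 6) (.e (nat_lit 81935) (nat_lit 20) (.e (nat_lit 1999) (nat_lit 137) (.e (nat_lit 663569) (nat_lit 6) .nil)))))) (.g (nat_lit 0) .nil .nil))))))))

noncomputable def tv2756 : DT := (.nd (nat_lit 0) (.nd (nat_lit 1) (.nd (nat_lit 2) (.nd (nat_lit 3) (.nd (nat_lit 4) (.nd (nat_lit 5) 
(.lf (nat_lit 208832) (.g (nat_lit 1299) (.e (nat_lit 81943) (nat_lit 20) (.e (nat_lit 2006) (nat_lit 138) (.e (nat_lit 671764) (nat_lit 6) (.e (nat_lit 81939) (nat_lit 20) (.e (nat_lit 2005) (nat_lit 138) (.e (nat_lit 671764) (nat_lit 6) .nil)))))) (.g (nat_lit 0) .nil .nil))) 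
(.lf (nat_lit 208864) (.g (nat_lit 2452) (.e (nat_lit 81943) (nat_lit 20) (.e (nat_lit 2280) (nat_lit 150) (.e (nat_lit 770071) (nat_lit 8) (.e (nat_lit 65610) (nat_lit 10) (.e (nat_lit 344097) (nat_lit 18) (.e (nat_lit 7147) (nat_lit 382) (.e (nat_lit 1216) (nat_lit 90) .nil))))))) (.g (nat_lit 5) .nil .nil)))) (.nd (nat_lit 5) 
(.lf (nat_lit 208848) (.g (nat_lit 751) (.e (nat_lit 81943) (nat_lit 20) (.e (nat_lit 2270) (nat_lit 149) (.e (nat_lit 761868) (nat_lit 5) (.e (nat_lit 1585) (nat_lit 111) .nil)))) .nil)) 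
(.lf (nat_lit 208880) (.g (nat_lit 1969) (.e (nat_lit 81943) (nat_lit 20) (.e (nat_lit 2281) (nat_lit 150) (.e (nat_lit 770056) (nat_lit 5) (.e (nat_lit 1598) (nat_lit 111) (.e (nat_lit 360449) (nat_lit 0) (.e (nat_lit 7122) (nat_lit 382) (.e (nat_lit 7936) (nat_lit 90) .nil))))))) (.g (nat_lit 6) .nil .nil))))) (.nd (nat_lit 4) (.nd (nat_lit 5) 
(.lf (nat_lit 208840) (.g (nat_lit 1895) (.e (nat_lit 81943) (nat_lit 20) (.e (nat_lit 2006) (nat_lit 138) (.e (nat_lit 671764) (nat_lit 6) (.e (nat_lit 81948) (nat_lit 21) (.e (nat_lit 57870) (nat_lit 264) (.e (nat_lit 1219) (nat_lit 90) .nil)))))) (.g (nat_lit 0) .nil .nil))) 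
(.lf (nat_lit 208872) (.g (nat_lit 2356) (.e (nat_lit 81943) (nat_lit 20) (.e (nat_lit 2280) (nat_lit 150) (.e (nat_lit 770072) (nat_lit 8) (.e (nat_lit 65617) (nat_lit 10) (.e (nat_lit 344096) (nat_lit 18) (.e (nat_lit 7124) (nat_lit 382) (.e (nat_lit 1222) (nat_lit 90) .nil))))))) (.g (nat_lit 5) .nil .nil)))) (.nd (nat_lit 5) 
(.lf (nat_lit 208856) (.g (nat_lit 1143) (.e (nat_lit 81943) (nat_lit 20) (.e (nat_lit 2280) (nat_lit 150) (.e (nat_lit 770055) (nat_lit 5) (.e (nat_lit 1595) (nat_lit 111) .nil)))) .nil)) 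
(.lf (nat_lit 208888) (.g (nat_lit 2543) (.e (nat_lit 81943) (nat_lit 20) (.e (nat_lit 2281) (nat_lit 150) (.e (nat_lit 770057) (nat_lit 5) (.e (nat_lit 1586) (nat_lit 111) (.e (nat_lit 360450) (nat_lit 0) (.e (nat_lit 7122) (nat_lit 382) (.e (nat_lit 7936) (nat_lit 90) .nil))))))) (.g (nat_lit 6) .nil .nil)))))) (.nd (nat_lit 3) (.nd (nat_lit 4) (.nd (nat_lit 5) 
(.lf (nat_lit 208836) (.g (nat_lit 1650) (.e (nat_lit 81943) (nat_lit 20) (.e (nat_lit 2006) (nat_lit 138) (.e (nat_lit 671764) (nat_lit 6) (.e (nat_lit 81943) (nat_lit 20) (.e (nat_lit 2006) (nat_lit 138) (.e (nat_lit 671764) (nat_lit 6) .nil)))))) (.g (nat_lit 0) .nil .nil))) 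
(.lf (nat_lit 208868) (.g (nat_lit 1739) (.e (nat_lit 81943) (nat_lit 20) (.e (nat_lit 2280) (nat_lit 150) (.e (nat_lit 770072) (nat_lit 8) (.e (nat_lit 65610) (nat_lit 10) (.e (nat_lit 344090) (nat_lit 18) (.e (nat_lit 7119) (nat_lit 382) (.e (nat_lit 7936) (nat_lit 90) .nil))))))) (.g (nat_lit 4) .nil .nil)))) (.nd (nat_lit 5) 
(.lf (nat_lit 208852) (.g (nat_lit 1732) (.e (nat_lit 81943) (nat_lit 20) (.e (nat_lit 2279) (nat_lit 150) (.e (nat_lit 770072) (nat_lit 8) (.e (nat_lit 65617) (nat_lit 10) (.e (nat_lit 344091) (nat_lit 18) (.e (nat_lit 7124) (nat_lit 382) (.e (nat_lit 1222) (nat_lit 90) .nil))))))) (.g (nat_lit 4) .nil .nil))) 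
(.lf (nat_lit 208884) (.g (nat_lit 1145) (.e (nat_lit 81943) (nat_lit 20) (.e (nat_lit 2281) (nat_lit 150) (.e (nat_lit 770056) (nat_lit 5) (.e (nat_lit 1598) (nat_lit 111) (.e (nat_lit 368384) (nat_lit 0) (.e (nat_lit 7160) (nat_lit 382) (.e (nat_lit 1215) (nat_lit 90) .nil))))))) (.g (nat_lit 4) .nil .nil))))) (.nd (nat_lit 4) (.nd (nat_lit 5) 
(.lf (nat_lit 208844) (.g (nat_lit 2761) (.e (nat_lit 81943) (nat_lit 20) (.e (nat_lit 2006) (nat_lit 138) (.e (nat_lit 671764) (nat_lit 6) (.e (nat_lit 81950) (nat_lit 21) (.e (nat_lit 57872) (nat_lit 264) (.e (nat_lit 1219) (nat_lit 90) .nil)))))) (.g (nat_lit 0) .nil .nil))) 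
(.lf (nat_lit 208876) (.g (nat_lit 1424) (.e (nat_lit 81943) (nat_lit 20) (.e (nat_lit 2280) (nat_lit 150) (.e (nat_lit 770074) (nat_lit 10) (.e (nat_lit 81947) (nat_lit 20) (.e (nat_lit 2281) (nat_lit 150) .nil))))) .nil))) (.nd (nat_lit 5) 
(.lf (nat_lit 208860) (.g (nat_lit 1102) (.e (nat_lit 81943) (nat_lit 20) (.e (nat_lit 2280) (nat_lit 150) (.e (nat_lit 770057) (nat_lit 5) (.e (nat_lit 1589) (nat_lit 111) (.e (nat_lit 360488) (nat_lit 20) .nil))))) .nil)) 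
(.lf (nat_lit 208892) (.g (nat_lit 2221) (.e (nat_lit 81943) (nat_lit 20) (.e (nat_lit 2281) (nat_lit 150) (.e (nat_lit 770057) (nat_lit 5) (.e (nat_lit 1589) (nat_lit 111) (.e (nat_lit 360449) (nat_lit 0) (.e (nat_lit 7124) (nat_lit 382) (.e (nat_lit 1222) (nat_lit 90) .nil))))))) (.g (nat_lit 6) .nil .nil))))))) (.nd (nat_lit 2) (.nd (nat_lit 3) (.nd (nat_lit 4) (.nd (nat_lit 5) 
(.lf (nat_lit 208834) (.g (nat_lit 1482) (.e (nat_lit 81943) (nat_lit 20) (.e (nat_lit 2006) (nat_lit 138) (.e (nat_lit 671764) (nat_lit 6) (.e (nat_lit 81943) (nat_lit 20) (.e (nat_lit 2003) (nat_lit 138) (.e (nat_lit 671764) (nat_lit 6) .nil)))))) (.g (nat_lit 0) .nil .nil))) 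
(.lf (nat_lit 208866) (.g (nat_lit 2359) (.e (nat_lit 81943) (nat_lit 20) (.e (nat_lit 2280) (nat_lit 150) (.e (nat_lit 770071) (nat_lit 8) (.e (nat_lit 65617) (nat_lit 10) (.e (nat_lit 344096) (nat_lit 18) (.e (nat_lit 7124) (nat_lit 382) (.e (nat_lit 1222) (nat_lit 90) .nil))))))) (.g (nat_lit 5) .nil .nil)))) (.nd (nat_lit 5) 
(.lf (nat_lit 208850) (.g (nat_lit 1446) (.e (nat_lit 81943) (nat_lit 20) (.e (nat_lit 2270) (nat_lit 149) (.e (nat_lit 761868) (nat_lit 5) (.e (nat_lit 1597) (nat_lit 111) (.e (nat_lit 368384) (nat_lit 0) (.e (nat_lit 7160) (nat_lit 382) (.e (nat_lit 1215) (nat_lit 90) .nil))))))) (.g (nat_lit 4) .nil .nil))) 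
(.lf (nat_lit 208882) (.g (nat_lit 3294) (.e (nat_lit 81943) (nat_lit 20) (.e (nat_lit 2281) (nat_lit 150) (.e (nat_lit 770056) (nat_lit 5) (.e (nat_lit 1598) (nat_lit 111) (.e (nat_lit 360449) (nat_lit 0) (.e (nat_lit 7125) (nat_lit 382) (.e (nat_lit 1222) (nat_lit 90) .nil))))))) (.g (nat_lit 0) .nil .nil))))) (.nd (nat_lit 4) (.nd (nat_lit 5) 
(.lf (nat_lit 208842) (.g (nat_lit 2167) (.e (nat_lit 81943) (nat_lit 20) (.e (nat_lit 2006) (nat_lit 138) (.e (nat_lit 671764) (nat_lit 6) (.e (nat_lit 81949) (nat_lit 21) (.e (nat_lit 57870) (nat_lit 264) (.e (nat_lit 1219) (nat_lit 90) .nil)))))) (.g (nat_lit 6) .nil .nil))) 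
(.lf (nat_lit 208874) (.g (nat_lit 2002) (.e (nat_lit 81943) (nat_lit 20) (.e (nat_lit 2280) (nat_lit 150) (.e (nat_lit 770072) (nat_lit 8) (.e (nat_lit 65619) (nat_lit 10) (.e (nat_lit 344097) (nat_lit 18) (.e (nat_lit 7147) (nat_lit 382) (.e (nat_lit 1216) (nat_lit 90) .nil))))))) (.g (nat_lit 5) .nil .nil)))) (.nd (nat_lit 5) 
(.lf (nat_lit 208858) (.g (nat_lit 283) (.e (nat_lit 81943) (nat_lit 20) (.e (nat_lit 2280) (nat_lit 150) (.e (nat_lit 770057) (nat_lit 5) .nil))) .nil)) 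
(.lf (nat_lit 208890) (.g (nat_lit 2729) (.e (nat_lit 81943) (nat_lit 20) (.e (nat_lit 2281) (nat_lit 150) (.e (nat_lit 770057) (nat_lit 5) (.e (nat_lit 1586) (nat_lit 111) (.e (nat_lit 360451) (nat_lit 0) (.e (nat_lit 7124) (nat_lit 382) (.e (nat_lit 1222) (nat_lit 90) .nil))))))) (.g (nat_lit 7) .nil .nil)))))) (.nd (nat_lit 3) (.nd (nat_lit 4) (.nd (nat_lit 5) 
(.lf (nat_lit 208838) (.g (nat_lit 1283) (.e (nat_lit 81943) (nat_lit 20) (.e (nat_lit 2006) (nat_lit 138) (.e (nat_lit 671764) (nat_lit 6) (.e (nat_lit 81947) (nat_lit 20) (.e (nat_lit 2003) (nat_lit 138) (.e (nat_lit 671764) (nat_lit 6) .nil)))))) (.g (nat_lit 4) .nil .nil))) 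
(.lf (nat_lit 208870) (.g (nat_lit 2641) (.e (nat_lit 81943) (nat_lit 20) (.e (nat_lit 2280) (nat_lit 150) (.e (nat_lit 770072) (nat_lit 8) (.e (nat_lit 65610) (nat_lit 10) (.e (nat_lit 344097) (nat_lit 18) (.e (nat_lit 7147) (nat_lit 382) (.e (nat_lit 1216) (nat_lit 90) .nil))))))) (.g (nat_lit 5) .nil .nil)))) (.nd (nat_lit 5) 
(.lf (nat_lit 208854) (.g (nat_lit 1052) (.e (nat_lit 81943) (nat_lit 20) (.e (nat_lit 2280) (nat_lit 150) (.e (nat_lit 770055) (nat_lit 5) (.e (nat_lit 1589) (nat_lit 111) .nil)))) .nil)) 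
(.lf (nat_lit 208886) (.g (nat_lit 361) (.e (nat_lit 81943) (nat_lit 20) (.e (nat_lit 2281) (nat_lit 150) (.e (nat_lit 770057) (nat_lit 5) .nil))) .nil)))) (.nd (nat_lit 4) (.nd (nat_lit 5) 
(.lf (nat_lit 208846) (.g (nat_lit 415) (.e (nat_lit 81943) (nat_lit 20) (.e (nat_lit 2270) (nat_lit 149) (.e (nat_lit 761868) (nat_lit 5) .nil))) .nil)) 
(.lf (nat_lit 208878) (.g (nat_lit 1824) (.e (nat_lit 81943) (nat_lit 20) (.e (nat_lit 2281) (nat_lit 150) (.e (nat_lit 770054) (nat_lit 5) (.e (nat_lit 1615) (nat_lit 113) (.e (nat_lit 376860) (nat_lit 21) (.e (nat_lit 57665) (nat_lit 152) (.e (nat_lit 7936) (nat_lit 90) .nil))))))) (.g (nat_lit 6) .nil .nil)))) (.nd (nat_lit 5) 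
(.lf (nat_lit 208862) (.g (nat_lit 1118) (.e (nat_lit 81943) (nat_lit 20) (.e (nat_lit 2280) (nat_lit 150) (.e (nat_lit 770057) (nat_lit 5) (.e (nat_lit 1595) (nat_lit 111) (.e (nat_lit 360488) (nat_lit 20) .nil))))) .nil)) 
(.lf (nat_lit 208894) (.g (nat_lit 2522) (.e (nat_lit 81943) (nat_lit 20) (.e (nat_lit 2281) (nat_lit 150) (.e (nat_lit 770057) (nat_lit 5) (.e (nat_lit 1589) (nat_lit 111) (.e (nat_lit 360453) (nat_lit 0) (.e (nat_lit 7147) (nat_lit 382) (.e (nat_lit 1216) (nat_lit 90) .nil))))))) (.g (nat_lit 7) .nil .nil)))))))) 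
(.nd (nat_lit 1) (.nd (nat_lit 2) (.nd (nat_lit 3) (.nd (nat_lit 4) (.nd (nat_lit 5) 
(.lf (nat_lit 208833) (.g (nat_lit 1296) (.e (nat_lit 81943) (nat_lit 20) (.e (nat_lit 2006) (nat_lit 138) (.e (nat_lit 671764) (nat_lit 6) (.e (nat_lit 81939) (nat_lit 20) (.e (nat_lit 2006) (nat_lit 138) (.e (nat_lit 671764) (nat_lit 6) .nil)))))) (.g (nat_lit 0) .nil .nil))) 
(.lf (nat_lit 208865) (.g (nat_lit 1820) (.e (nat_lit 81943) (nat_lit 20) (.e (nat_lit 2280) (nat_lit 150) (.e (nat_lit 770071) (nat_lit 8) (.e (nat_lit 65617) (nat_lit 10) (.e (nat_lit 344095) (nat_lit 18) (.e (nat_lit 7122) (nat_lit 382) (.e (nat_lit 7936) (nat_lit 90) .nil))))))) (.g (nat_lit 4) .nil .nil)))) (.nd (nat_lit 5) 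
(.lf (nat_lit 208849) (.g (nat_lit 1192) (.e (nat_lit 81943) (nat_lit 20) (.e (nat_lit 2270) (nat_lit 149) (.e (nat_lit 761868) (nat_lit 5) (.e (nat_lit 1597) (nat_lit 111) (.e (nat_lit 360452) (nat_lit 0) .nil))))) .nil)) 
(.lf (nat_lit 208881) (.g (nat_lit 1217) (.e (nat_lit 81943) (nat_lit 20) (.e (nat_lit 2281) (nat_lit 150) (.e (nat_lit 770056) (nat_lit 5) (.e (nat_lit 1598) (nat_lit 111) (.e (nat_lit 360449) (nat_lit 0) (.e (nat_lit 7124) (nat_lit 382) (.e (nat_lit 7936) (nat_lit 90) .nil))))))) (.g (nat_lit 4) .nil .nil))))) (.nd (nat_lit 4) (.nd (nat_lit 5) 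
(.lf (nat_lit 208841) (.g (nat_lit 2692) (.e (nat_lit 81943) (nat_lit 20) (.e (nat_lit 2006) (nat_lit 138) (.e (nat_lit 671764) (nat_lit 6) (.e (nat_lit 81948) (nat_lit 21) (.e (nat_lit 57872) (nat_lit 264) (.e (nat_lit 1219) (nat_lit 90) .nil)))))) (.g (nat_lit 0) .nil .nil))) 
(.lf (nat_lit 208873) (.g (nat_lit 1767) (.e (nat_lit 81943) (nat_lit 20) (.e (nat_lit 2280) (nat_lit 150) (.e (nat_lit 770072) (nat_lit 8) (.e (nat_lit 65619) (nat_lit 10) (.e (nat_lit 344090) (nat_lit 18) (.e (nat_lit 7124) (nat_lit 382) (.e (nat_lit 1222) (nat_lit 90) .nil))))))) (.g (nat_lit 4) .nil .nil)))) (.nd (nat_lit 5) 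
(.lf (nat_lit 208857) (.g (nat_lit 1208) (.e (nat_lit 81943) (nat_lit 20) (.e (nat_lit 2280) (nat_lit 150) (.e (nat_lit 770055) (nat_lit 5) (.e (nat_lit 1598) (nat_lit 111) (.e (nat_lit 360449) (nat_lit 0) .nil))))) .nil)) 
(.lf (nat_lit 208889) (.g (nat_lit 1784) (.e (nat_lit 81943) (nat_lit 20) (.e (nat_lit 2281) (nat_lit 150) (.e (nat_lit 770057) (nat_lit 5) (.e (nat_lit 1586) (nat_lit 111) (.e (nat_lit 360451) (nat_lit 0) (.e (nat_lit 7119) (nat_lit 382) (.e (nat_lit 7936) (nat_lit 90) .nil))))))) (.g (nat_lit 5) .nil .nil)))))) (.nd (nat_lit 3) (.nd (nat_lit 4) (.nd (nat_lit 5) 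
(.lf (nat_lit 208837) (.g (nat_lit 1806) (.e (nat_lit 81943) (nat_lit 20) (.e (nat_lit 2006) (nat_lit 138) (.e (nat_lit 671764) (nat_lit 6) (.e (nat_lit 81946) (nat_lit 20) (.e (nat_lit 2005) (nat_lit 138) (.e (nat_lit 671764) (nat_lit 6) .nil)))))) (.g (nat_lit 0) .nil .nil))) 
(.lf (nat_lit 208869) (.g (nat_lit 2499) (.e (nat_lit 81943) (nat_lit 20) (.e (nat_lit 2280) (nat_lit 150) (.e (nat_lit 770072) (nat_lit 8) (.e (nat_lit 65610) (nat_lit 10) (.e (nat_lit 344097) (nat_lit 18) (.e (nat_lit 7146) (nat_lit 382) (.e (nat_lit 1216) (nat_lit 90) .nil))))))) (.g (nat_lit 5) .nil .nil)))) (.nd (nat_lit 5) 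
(.lf (nat_lit 208853) (.g (nat_lit 1708) (.e (nat_lit 81943) (nat_lit 20) (.e (nat_lit 2280) (nat_lit 150) (.e (nat_lit 770055) (nat_lit 5) (.e (nat_lit 1586) (nat_lit 111) (.e (nat_lit 360450) (nat_lit 0) (.e (nat_lit 7122) (nat_lit 382) (.e (nat_lit 7936) (nat_lit 90) .nil))))))) (.g (nat_lit 4) .nil .nil))) 
(.lf (nat_lit 208885) (.g (nat_lit 1521) (.e (nat_lit 81943) (nat_lit 20) (.e (nat_lit 2281) (nat_lit 150) (.e (nat_lit 770056) (nat_lit 5) (.e (nat_lit 1598) (nat_lit 111) (.e (nat_lit 360488) (nat_lit 20) (.e (nat_lit 769792) (nat_lit 10) .nil)))))) (.g (nat_lit 5) .nil .nil))))) (.nd (nat_lit 4) (.nd (nat_lit 5) 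
(.lf (nat_lit 208845) (.g (nat_lit 474) (.e (nat_lit 81943) (nat_lit 20) (.e (nat_lit 2270) (nat_lit 149) (.e (nat_lit 761867) (nat_lit 5) .nil))) .nil)) 
(.lf (nat_lit 208877) (.g (nat_lit 911) (.e (nat_lit 81943) (nat_lit 20) (.e (nat_lit 2280) (nat_lit 150) (.e (nat_lit 770074) (nat_lit 10) (.e (nat_lit 81948) (nat_lit 21) .nil)))) .nil))) (.nd (nat_lit 5) 
(.lf (nat_lit 208861) (.g (nat_lit 1490) (.e (nat_lit 81943) (nat_lit 20) (.e (nat_lit 2280) (nat_lit 150) (.e (nat_lit 770057) (nat_lit 5) (.e (nat_lit 1595) (nat_lit 111) (.e (nat_lit 360453) (nat_lit 0) (.e (nat_lit 7147) (nat_lit 382) (.e (nat_lit 1216) (nat_lit 90) .nil))))))) (.g (nat_lit 4) .nil .nil))) 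
(.lf (nat_lit 208893) (.g (nat_lit 1585) (.e (nat_lit 81943) (nat_lit 20) (.e (nat_lit 2281) (nat_lit 150) (.e (nat_lit 770057) (nat_lit 5) (.e (nat_lit 1589) (nat_lit 111) (.e (nat_lit 360449) (nat_lit 0) (.e (nat_lit 7124) (nat_lit 382) (.e (nat_lit 7936) (nat_lit 90) .nil))))))) (.g (nat_lit 4) .nil .nil))))))) (.nd (nat_lit 2) (.nd (nat_lit 3) (.nd (nat_lit 4) (.nd (nat_lit 5) 
(.lf (nat_lit 208835) (.g (nat_lit 1465) (.e (nat_lit 81943) (nat_lit 20) (.e (nat_lit 2006) (nat_lit 138) (.e (nat_lit 671764) (nat_lit 6) (.e (nat_lit 81943) (nat_lit 20) (.e (nat_lit 2005) (nat_lit 138) (.e (nat_lit 671764) (nat_lit 6) .nil)))))) (.g (nat_lit 0) .nil .nil))) 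
(.lf (nat_lit 208867) (.g (nat_lit 2164) (.e (nat_lit 81943) (nat_lit 20) (.e (nat_lit 2280) (nat_lit 150) (.e (nat_lit 770071) (nat_lit 8) (.e (nat_lit 65619) (nat_lit 10) (.e (nat_lit 344097) (nat_lit 18) (.e (nat_lit 7147) (nat_lit 382) (.e (nat_lit 1216) (nat_lit 90) .nil))))))) (.g (nat_lit 5) .nil .nil)))) (.nd (nat_lit 5) 
(.lf (nat_lit 208851) (.g (nat_lit 1162) (.e (nat_lit 81943) (nat_lit 20) (.e (nat_lit 2270) (nat_lit 149) (.e (nat_lit 761868) (nat_lit 5) (.e (nat_lit 1597) (nat_lit 111) (.e (nat_lit 360488) (nat_lit 20) .nil))))) .nil)) 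
(.lf (nat_lit 208883) (.g (nat_lit 2567) (.e (nat_lit 81943) (nat_lit 20) (.e (nat_lit 2281) (nat_lit 150) (.e (nat_lit 770056) (nat_lit 5) (.e (nat_lit 1598) (nat_lit 111) (.e (nat_lit 360452) (nat_lit 0) (.e (nat_lit 7147) (nat_lit 382) (.e (nat_lit 1216) (nat_lit 90) .nil))))))) (.g (nat_lit 0) .nil .nil))))) (.nd (nat_lit 4) (.nd (nat_lit 5) 
(.lf (nat_lit 208843) (.g (nat_lit 1991) (.e (nat_lit 81943) (nat_lit 20) (.e (nat_lit 2006) (nat_lit 138) (.e (nat_lit 671764) (nat_lit 6) (.e (nat_lit 81950) (nat_lit 21) (.e (nat_lit 57870) (nat_lit 264) (.e (nat_lit 1219) (nat_lit 90) .nil)))))) (.g (nat_lit 0) .nil .nil))) 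
(.lf (nat_lit 208875) (.g (nat_lit 1429) (.e (nat_lit 81943) (nat_lit 20) (.e (nat_lit 2280) (nat_lit 150) (.e (nat_lit 770074) (nat_lit 10) (.e (nat_lit 81938) (nat_lit 20) (.e (nat_lit 2281) (nat_lit 150) .nil))))) .nil))) (.nd (nat_lit 5) 
(.lf (nat_lit 208859) (.g (nat_lit 1436) (.e (nat_lit 81943) (nat_lit 20) (.e (nat_lit 2280) (nat_lit 150) (.e (nat_lit 770057) (nat_lit 5) (.e (nat_lit 1589) (nat_lit 111) (.e (nat_lit 360453) (nat_lit 0) (.e (nat_lit 7147) (nat_lit 382) (.e (nat_lit 1216) (nat_lit 90) .nil))))))) (.g (nat_lit 4) .nil .nil))) 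
(.lf (nat_lit 208891) (.g (nat_lit 1315) (.e (nat_lit 81943) (nat_lit 20) (.e (nat_lit 2281) (nat_lit 150) (.e (nat_lit 770057) (nat_lit 5) (.e (nat_lit 1586) (nat_lit 111) (.e (nat_lit 368384) (nat_lit 0) (.e (nat_lit 7160) (nat_lit 382) (.e (nat_lit 1215) (nat_lit 90) .nil))))))) (.g (nat_lit 4) .nil .nil)))))) (.nd (nat_lit 3) (.nd (nat_lit 4) (.nd (nat_lit 5) 
(.lf (nat_lit 208839) (.g (nat_lit 1914) (.e (nat_lit 81943) (nat_lit 20) (.e (nat_lit 2006) (nat_lit 138) (.e (nat_lit 671764) (nat_lit 6) (.e (nat_lit 81947) (nat_lit 20) (.e (nat_lit 2005) (nat_lit 138) (.e (nat_lit 671764) (nat_lit 6) .nil)))))) (.g (nat_lit 0) .nil .nil))) 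
(.lf (nat_lit 208871) (.g (nat_lit 1819) (.e (nat_lit 81943) (nat_lit 20) (.e (nat_lit 2280) (nat_lit 150) (.e (nat_lit 770072) (nat_lit 8) (.e (nat_lit 65617) (nat_lit 10) (.e (nat_lit 344095) (nat_lit 18) (.e (nat_lit 7122) (nat_lit 382) (.e (nat_lit 7936) (nat_lit 90) .nil))))))) (.g (nat_lit 4) .nil .nil)))) (.nd (nat_lit 5) 
(.lf (nat_lit 208855) (.g (nat_lit 1736) (.e (nat_lit 81943) (nat_lit 20) (.e (nat_lit 2280) (nat_lit 150) (.e (nat_lit 770055) (nat_lit 5) (.e (nat_lit 1589) (nat_lit 111) (.e (nat_lit 360451) (nat_lit 0) .nil))))) .nil)) 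
(.lf (nat_lit 208887) (.g (nat_lit 2259) (.e (nat_lit 81943) (nat_lit 20) (.e (nat_lit 2281) (nat_lit 150) (.e (nat_lit 770057) (nat_lit 5) (.e (nat_lit 1586) (nat_lit 111) (.e (nat_lit 360450) (nat_lit 0) (.e (nat_lit 7119) (nat_lit 382) (.e (nat_lit 7936) (nat_lit 90) .nil))))))) (.g (nat_lit 6) .nil .nil))))) (.nd (nat_lit 4) (.nd (nat_lit 5) 
(.lf (nat_lit 208847) (.g (nat_lit 686) (.e (nat_lit 81943) (nat_lit 20) (.e (nat_lit 2270) (nat_lit 149) (.e (nat_lit 761868) (nat_lit 5) (.e (nat_lit 1582) (nat_lit 111) .nil)))) .nil)) 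
(.lf (nat_lit 208879) (.g (nat_lit 1361) (.e (nat_lit 81943) (nat_lit 20) (.e (nat_lit 2281) (nat_lit 150) (.e (nat_lit 770056) (nat_lit 5) (.e (nat_lit 1598) (nat_lit 111) (.e (nat_lit 360449) (nat_lit 0) (.e (nat_lit 7119) (nat_lit 382) (.e (nat_lit 7936) (nat_lit 90) .nil))))))) (.g (nat_lit 5) .nil .nil)))) (.nd (nat_lit 5) 
(.lf (nat_lit 208863) (.g (nat_lit 1603) (.e (nat_lit 81943) (nat_lit 20) (.e (nat_lit 2280) (nat_lit 150) (.e (nat_lit 770071) (nat_lit 8) (.e (nat_lit 65610) (nat_lit 10) (.e (nat_lit 344090) (nat_lit 18) (.e (nat_lit 7119) (nat_lit 382) (.e (nat_lit 7936) (nat_lit 90) .nil))))))) (.g (nat_lit 4) .nil .nil))) 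
(.lf (nat_lit 208895) (.g (nat_lit 1647) (.e (nat_lit 81943) (nat_lit 20) (.e (nat_lit 2281) (nat_lit 150) (.e (nat_lit 770057) (nat_lit 5) (.e (nat_lit 1589) (nat_lit 111) (.e (nat_lit 368384) (nat_lit 0) (.e (nat_lit 7160) (nat_lit 382) (.e (nat_lit 1215) (nat_lit 90) .nil))))))) (.g (nat_lit 4) .nil .nil)))))))))

noncomputable def tv2757 : DT := (.nd (nat_lit 0) (.nd (nat_lit 1) (.nd (nat_lit 2) (.nd (nat_lit 3) (.nd (nat_lit 4) (.nd (nat_lit 5) 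
(.lf (nat_lit 208896) (.g (nat_lit 2086) (.e (nat_lit 81943) (nat_lit 20) (.e (nat_lit 2281) (nat_lit 150) (.e (nat_lit 770057) (nat_lit 5) (.e (nat_lit 1589) (nat_lit 111) (.e (nat_lit 360488) (nat_lit 20) (.e (nat_lit 769792) (nat_lit 10) .nil)))))) (.g (nat_lit 5) .nil .nil))) 
(.lf (nat_lit 208928) (.g (nat_lit 1273) (.e (nat_lit 81943) (nat_lit 20) (.e (nat_lit 2281) (nat_lit 150) (.e (nat_lit 770072) (nat_lit 8) (.e (nat_lit 65583) (nat_lit 7) .nil)))) .nil))) (.nd (nat_lit 5) 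
(.lf (nat_lit 208912) (.g (nat_lit 2370) (.e (nat_lit 81943) (nat_lit 20) (.e (nat_lit 2281) (nat_lit 150) (.e (nat_lit 770058) (nat_lit 5) (.e (nat_lit 1589) (nat_lit 111) (.e (nat_lit 360449) (nat_lit 0) (.e (nat_lit 7124) (nat_lit 382) (.e (nat_lit 1222) (nat_lit 90) .nil))))))) (.g (nat_lit 6) .nil .nil))) 
(.lf (nat_lit 208944) (.g (nat_lit 2481) (.e (nat_lit 81943) (nat_lit 20) (.e (nat_lit 2281) (nat_lit 150) (.e (nat_lit 770072) (nat_lit 8) (.e (nat_lit 65617) (nat_lit 10) (.e (nat_lit 344091) (nat_lit 18) (.e (nat_lit 7124) (nat_lit 382) (.e (nat_lit 7936) (nat_lit 90) .nil))))))) (.g (nat_lit 5) .nil .nil))))) (.nd (nat_lit 4) (.nd (nat_lit 5) 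
(.lf (nat_lit 208904) (.g (nat_lit 1561) (.e (nat_lit 81943) (nat_lit 20) (.e (nat_lit 2281) (nat_lit 150) (.e (nat_lit 770057) (nat_lit 5) (.e (nat_lit 1598) (nat_lit 111) (.e (nat_lit 360488) (nat_lit 20) (.e (nat_lit 769792) (nat_lit 10) .nil)))))) (.g (nat_lit 5) .nil .nil))) 
(.lf (nat_lit 208936) (.g (nat_lit 2247) (.e (nat_lit 81943) (nat_lit 20) (.e (nat_lit 2281) (nat_lit 150) (.e (nat_lit 770072) (nat_lit 8) (.e (nat_lit 65610) (nat_lit 10) (.e (nat_lit 344173) (nat_lit 42) (.e (nat_lit 769792) (nat_lit 10) .nil)))))) (.g (nat_lit 4) .nil .nil)))) (.nd (nat_lit 5) 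
(.lf (nat_lit 208920) (.g (nat_lit 1655) (.e (nat_lit 81943) (nat_lit 20) (.e (nat_lit 2281) (nat_lit 150) (.e (nat_lit 770058) (nat_lit 5) (.e (nat_lit 1598) (nat_lit 111) (.e (nat_lit 360449) (nat_lit 0) (.e (nat_lit 7119) (nat_lit 382) (.e (nat_lit 7936) (nat_lit 90) .nil))))))) (.g (nat_lit 5) .nil .nil))) 
(.lf (nat_lit 208952) (.g (nat_lit 2751) (.e (nat_lit 81943) (nat_lit 20) (.e (nat_lit 2281) (nat_lit 150) (.e (nat_lit 770072) (nat_lit 8) (.e (nat_lit 65619) (nat_lit 10) (.e (nat_lit 344090) (nat_lit 18) (.e (nat_lit 7124) (nat_lit 382) (.e (nat_lit 1222) (nat_lit 90) .nil))))))) (.g (nat_lit 6) .nil .nil)))))) (.nd (nat_lit 3) (.nd (nat_lit 4) (.nd (nat_lit 5) 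
(.lf (nat_lit 208900) (.g (nat_lit 1406) (.e (nat_lit 81943) (nat_lit 20) (.e (nat_lit 2281) (nat_lit 150) (.e (nat_lit 770057) (nat_lit 5) (.e (nat_lit 1598) (nat_lit 111) (.e (nat_lit 360449) (nat_lit 0) (.e (nat_lit 7119) (nat_lit 382) (.e (nat_lit 7936) (nat_lit 90) .nil))))))) (.g (nat_lit 5) .nil .nil))) 
(.lf (nat_lit 208932) (.g (nat_lit 2816) (.e (nat_lit 81943) (nat_lit 20) (.e (nat_lit 2281) (nat_lit 150) (.e (nat_lit 770072) (nat_lit 8) (.e (nat_lit 65610) (nat_lit 10) (.e (nat_lit 344090) (nat_lit 18) (.e (nat_lit 7119) (nat_lit 382) (.e (nat_lit 7936) (nat_lit 90) .nil))))))) (.g (nat_lit 6) .nil .nil)))) (.nd (nat_lit 5) 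
(.lf (nat_lit 208916) (.g (nat_lit 1500) (.e (nat_lit 81943) (nat_lit 20) (.e (nat_lit 2281) (nat_lit 150) (.e (nat_lit 770058) (nat_lit 5) (.e (nat_lit 1595) (nat_lit 111) (.e (nat_lit 360449) (nat_lit 0) (.e (nat_lit 7119) (nat_lit 382) (.e (nat_lit 7936) (nat_lit 90) .nil))))))) (.g (nat_lit 4) .nil .nil))) 
(.lf (nat_lit 208948) (.g (nat_lit 3515) (.e (nat_lit 81943) (nat_lit 20) (.e (nat_lit 2281) (nat_lit 150) (.e (nat_lit 770072) (nat_lit 8) (.e (nat_lit 65617) (nat_lit 10) (.e (nat_lit 344096) (nat_lit 18) (.e (nat_lit 7122) (nat_lit 382) (.e (nat_lit 7936) (nat_lit 90) .nil))))))) (.g (nat_lit 6) .nil .nil))))) (.nd (nat_lit 4) (.nd (nat_lit 5) 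
(.lf (nat_lit 208908) (.g (nat_lit 2365) (.e (nat_lit 81943) (nat_lit 20) (.e (nat_lit 2281) (nat_lit 150) (.e (nat_lit 770058) (nat_lit 5) (.e (nat_lit 1586) (nat_lit 111) (.e (nat_lit 360450) (nat_lit 0) (.e (nat_lit 7119) (nat_lit 382) (.e (nat_lit 7936) (nat_lit 90) .nil))))))) (.g (nat_lit 6) .nil .nil))) 
(.lf (nat_lit 208940) (.g (nat_lit 2195) (.e (nat_lit 81943) (nat_lit 20) (.e (nat_lit 2281) (nat_lit 150) (.e (nat_lit 770072) (nat_lit 8) (.e (nat_lit 65616) (nat_lit 10) (.e (nat_lit 344174) (nat_lit 42) (.e (nat_lit 769792) (nat_lit 10) .nil)))))) (.g (nat_lit 5) .nil .nil)))) (.nd (nat_lit 5) 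
(.lf (nat_lit 208924) (.g (nat_lit 1625) (.e (nat_lit 81943) (nat_lit 20) (.e (nat_lit 2281) (nat_lit 150) (.e (nat_lit 770058) (nat_lit 5) (.e (nat_lit 1598) (nat_lit 111) (.e (nat_lit 360488) (nat_lit 20) (.e (nat_lit 769792) (nat_lit 10) .nil)))))) (.g (nat_lit 5) .nil .nil))) 
(.lf (nat_lit 208956) (.g (nat_lit 2279) (.e (nat_lit 81943) (nat_lit 20) (.e (nat_lit 2281) (nat_lit 150) (.e (nat_lit 770072) (nat_lit 8) (.e (nat_lit 65620) (nat_lit 10) (.e (nat_lit 344174) (nat_lit 42) (.e (nat_lit 769792) (nat_lit 10) .nil)))))) (.g (nat_lit 5) .nil .nil))))))) (.nd (nat_lit 2) (.nd (nat_lit 3) (.nd (nat_lit 4) (.nd (nat_lit 5) 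
(.lf (nat_lit 208898) (.g (nat_lit 1533) (.e (nat_lit 81943) (nat_lit 20) (.e (nat_lit 2281) (nat_lit 150) (.e (nat_lit 770057) (nat_lit 5) (.e (nat_lit 1595) (nat_lit 111) (.e (nat_lit 368384) (nat_lit 0) (.e (nat_lit 7160) (nat_lit 382) (.e (nat_lit 1215) (nat_lit 90) .nil))))))) (.g (nat_lit 4) .nil .nil))) 
(.lf (nat_lit 208930) (.g (nat_lit 2068) (.e (nat_lit 81943) (nat_lit 20) (.e (nat_lit 2281) (nat_lit 150) (.e (nat_lit 770072) (nat_lit 8) (.e (nat_lit 65598) (nat_lit 9) (.e (nat_lit 335903) (nat_lit 0) .nil))))) .nil))) (.nd (nat_lit 5) 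
(.lf (nat_lit 208914) (.g (nat_lit 1785) (.e (nat_lit 81943) (nat_lit 20) (.e (nat_lit 2281) (nat_lit 150) (.e (nat_lit 770058) (nat_lit 5) (.e (nat_lit 1589) (nat_lit 111) (.e (nat_lit 368384) (nat_lit 0) (.e (nat_lit 7160) (nat_lit 382) (.e (nat_lit 1215) (nat_lit 90) .nil))))))) (.g (nat_lit 4) .nil .nil))) 
(.lf (nat_lit 208946) (.g (nat_lit 2766) (.e (nat_lit 81943) (nat_lit 20) (.e (nat_lit 2281) (nat_lit 150) (.e (nat_lit 770072) (nat_lit 8) (.e (nat_lit 65617) (nat_lit 10) (.e (nat_lit 344095) (nat_lit 18) (.e (nat_lit 7122) (nat_lit 382) (.e (nat_lit 7936) (nat_lit 90) .nil))))))) (.g (nat_lit 6) .nil .nil))))) (.nd (nat_lit 4) (.nd (nat_lit 5) 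
(.lf (nat_lit 208906) (.g (nat_lit 1399) (.e (nat_lit 81943) (nat_lit 20) (.e (nat_lit 2281) (nat_lit 150) (.e (nat_lit 770057) (nat_lit 5) (.e (nat_lit 1599) (nat_lit 111) (.e (nat_lit 360488) (nat_lit 20) (.e (nat_lit 769792) (nat_lit 10) .nil)))))) (.g (nat_lit 5) .nil .nil))) 
(.lf (nat_lit 208938) (.g (nat_lit 1936) (.e (nat_lit 81943) (nat_lit 20) (.e (nat_lit 2281) (nat_lit 150) (.e (nat_lit 770072) (nat_lit 8) (.e (nat_lit 65610) (nat_lit 10) (.e (nat_lit 344175) (nat_lit 43) .nil))))) .nil))) (.nd (nat_lit 5) 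
(.lf (nat_lit 208922) (.g (nat_lit 1499) (.e (nat_lit 81943) (nat_lit 20) (.e (nat_lit 2281) (nat_lit 150) (.e (nat_lit 770058) (nat_lit 5) (.e (nat_lit 1598) (nat_lit 111) (.e (nat_lit 360449) (nat_lit 0) (.e (nat_lit 7124) (nat_lit 382) (.e (nat_lit 7936) (nat_lit 90) .nil))))))) (.g (nat_lit 5) .nil .nil))) 
(.lf (nat_lit 208954) (.g (nat_lit 1820) (.e (nat_lit 81943) (nat_lit 20) (.e (nat_lit 2281) (nat_lit 150) (.e (nat_lit 770072) (nat_lit 8) (.e (nat_lit 65619) (nat_lit 10) (.e (nat_lit 344173) (nat_lit 42) .nil))))) .nil))))) (.nd (nat_lit 3) (.nd (nat_lit 4) (.nd (nat_lit 5) 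
(.lf (nat_lit 208902) (.g (nat_lit 1262) (.e (nat_lit 81943) (nat_lit 20) (.e (nat_lit 2281) (nat_lit 150) (.e (nat_lit 770057) (nat_lit 5) (.e (nat_lit 1598) (nat_lit 111) (.e (nat_lit 360449) (nat_lit 0) (.e (nat_lit 7124) (nat_lit 382) (.e (nat_lit 7936) (nat_lit 90) .nil))))))) (.g (nat_lit 5) .nil .nil))) 
(.lf (nat_lit 208934) (.g (nat_lit 3552) (.e (nat_lit 81943) (nat_lit 20) (.e (nat_lit 2281) (nat_lit 150) (.e (nat_lit 770072) (nat_lit 8) (.e (nat_lit 65610) (nat_lit 10) (.e (nat_lit 344097) (nat_lit 18) (.e (nat_lit 7147) (nat_lit 382) (.e (nat_lit 1216) (nat_lit 90) .nil))))))) (.g (nat_lit 0) .nil .nil)))) (.nd (nat_lit 5) 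
(.lf (nat_lit 208918) (.g (nat_lit 1562) (.e (nat_lit 81943) (nat_lit 20) (.e (nat_lit 2281) (nat_lit 150) (.e (nat_lit 770058) (nat_lit 5) (.e (nat_lit 1595) (nat_lit 111) (.e (nat_lit 368384) (nat_lit 0) (.e (nat_lit 7160) (nat_lit 382) (.e (nat_lit 1215) (nat_lit 90) .nil))))))) (.g (nat_lit 4) .nil .nil))) 
(.lf (nat_lit 208950) (.g (nat_lit 2445) (.e (nat_lit 81943) (nat_lit 20) (.e (nat_lit 2281) (nat_lit 150) (.e (nat_lit 770072) (nat_lit 8) (.e (nat_lit 65617) (nat_lit 10) (.e (nat_lit 344174) (nat_lit 42) (.e (nat_lit 769792) (nat_lit 10) .nil)))))) (.g (nat_lit 5) .nil .nil))))) (.nd (nat_lit 4) (.nd (nat_lit 5) 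
(.lf (nat_lit 208910) (.g (nat_lit 1998) (.e (nat_lit 81943) (nat_lit 20) (.e (nat_lit 2281) (nat_lit 150) (.e (nat_lit 770058) (nat_lit 5) (.e (nat_lit 1586) (nat_lit 111) (.e (nat_lit 360451) (nat_lit 0) (.e (nat_lit 7119) (nat_lit 382) (.e (nat_lit 7936) (nat_lit 90) .nil))))))) (.g (nat_lit 5) .nil .nil))) 
(.lf (nat_lit 208942) (.g (nat_lit 1713) (.e (nat_lit 81943) (nat_lit 20) (.e (nat_lit 2281) (nat_lit 150) (.e (nat_lit 770072) (nat_lit 8) (.e (nat_lit 65617) (nat_lit 10) (.e (nat_lit 344091) (nat_lit 18) .nil))))) .nil))) (.nd (nat_lit 5) 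
(.lf (nat_lit 208926) (.g (nat_lit 1246) (.e (nat_lit 81943) (nat_lit 20) (.e (nat_lit 2281) (nat_lit 150) (.e (nat_lit 770058) (nat_lit 5) (.e (nat_lit 1599) (nat_lit 111) (.e (nat_lit 368384) (nat_lit 0) (.e (nat_lit 7160) (nat_lit 382) (.e (nat_lit 1215) (nat_lit 90) .nil))))))) (.g (nat_lit 4) .nil .nil))) 
(.lf (nat_lit 208958) (.g (nat_lit 1262) (.e (nat_lit 81943) (nat_lit 20) (.e (nat_lit 2281) (nat_lit 150) (.e (nat_lit 770074) (nat_lit 10) (.e (nat_lit 81935) (nat_lit 20) (.e (nat_lit 2274) (nat_lit 150) .nil))))) .nil))))))) (.nd (nat_lit 1) (.nd (nat_lit 2) (.nd (nat_lit 3) (.nd (nat_lit 4) (.nd (nat_lit 5) 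
(.lf (nat_lit 208897) (.g (nat_lit 1264) (.e (nat_lit 81943) (nat_lit 20) (.e (nat_lit 2281) (nat_lit 150) (.e (nat_lit 770057) (nat_lit 5) (.e (nat_lit 1595) (nat_lit 111) (.e (nat_lit 360449) (nat_lit 0) (.e (nat_lit 7119) (nat_lit 382) (.e (nat_lit 7936) (nat_lit 90) .nil))))))) (.g (nat_lit 4) .nil .nil))) 
(.lf (nat_lit 208929) (.g (nat_lit 1852) (.e (nat_lit 81943) (nat_lit 20) (.e (nat_lit 2281) (nat_lit 150) (.e (nat_lit 770072) (nat_lit 8) (.e (nat_lit 65583) (nat_lit 7) (.e (nat_lit 319516) (nat_lit 11) .nil))))) .nil))) (.nd (nat_lit 5) 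
(.lf (nat_lit 208913) (.g (nat_lit 2666) (.e (nat_lit 81943) (nat_lit 20) (.e (nat_lit 2281) (nat_lit 150) (.e (nat_lit 770058) (nat_lit 5) (.e (nat_lit 1589) (nat_lit 111) (.e (nat_lit 360453) (nat_lit 0) (.e (nat_lit 7147) (nat_lit 382) (.e (nat_lit 1216) (nat_lit 90) .nil))))))) (.g (nat_lit 0) .nil .nil))) 
(.lf (nat_lit 208945) (.g (nat_lit 2233) (.e (nat_lit 81943) (nat_lit 20) (.e (nat_lit 2281) (nat_lit 150) (.e (nat_lit 770072) (nat_lit 8) (.e (nat_lit 65617) (nat_lit 10) (.e (nat_lit 344095) (nat_lit 18) (.e (nat_lit 7119) (nat_lit 382) (.e (nat_lit 7936) (nat_lit 90) .nil))))))) (.g (nat_lit 5) .nil .nil))))) (.nd (nat_lit 4) (.nd (nat_lit 5) 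
(.lf (nat_lit 208905) (.g (nat_lit 1176) (.e (nat_lit 81943) (nat_lit 20) (.e (nat_lit 2281) (nat_lit 150) (.e (nat_lit 770057) (nat_lit 5) (.e (nat_lit 1599) (nat_lit 111) (.e (nat_lit 368384) (nat_lit 0) (.e (nat_lit 7160) (nat_lit 382) (.e (nat_lit 1215) (nat_lit 90) .nil))))))) (.g (nat_lit 4) .nil .nil))) 
(.lf (nat_lit 208937) (.g (nat_lit 2522) (.e (nat_lit 81943) (nat_lit 20) (.e (nat_lit 2281) (nat_lit 150) (.e (nat_lit 770072) (nat_lit 8) (.e (nat_lit 65610) (nat_lit 10) (.e (nat_lit 344174) (nat_lit 42) (.e (nat_lit 769792) (nat_lit 10) .nil)))))) (.g (nat_lit 5) .nil .nil)))) (.nd (nat_lit 5) 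
(.lf (nat_lit 208921) (.g (nat_lit 2252) (.e (nat_lit 81943) (nat_lit 20) (.e (nat_lit 2281) (nat_lit 150) (.e (nat_lit 770058) (nat_lit 5) (.e (nat_lit 1598) (nat_lit 111) (.e (nat_lit 360449) (nat_lit 0) (.e (nat_lit 7122) (nat_lit 382) (.e (nat_lit 7936) (nat_lit 90) .nil))))))) (.g (nat_lit 6) .nil .nil))) 
(.lf (nat_lit 208953) (.g (nat_lit 3008) (.e (nat_lit 81943) (nat_lit 20) (.e (nat_lit 2281) (nat_lit 150) (.e (nat_lit 770072) (nat_lit 8) (.e (nat_lit 65619) (nat_lit 10) (.e (nat_lit 344097) (nat_lit 18) (.e (nat_lit 7147) (nat_lit 382) (.e (nat_lit 1216) (nat_lit 90) .nil))))))) (.g (nat_lit 0) .nil .nil)))))) (.nd (nat_lit 3) (.nd (nat_lit 4) (.nd (nat_lit 5) 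
(.lf (nat_lit 208901) (.g (nat_lit 2011) (.e (nat_lit 81943) (nat_lit 20) (.e (nat_lit 2281) (nat_lit 150) (.e (nat_lit 770057) (nat_lit 5) (.e (nat_lit 1598) (nat_lit 111) (.e (nat_lit 360449) (nat_lit 0) (.e (nat_lit 7122) (nat_lit 382) (.e (nat_lit 7936) (nat_lit 90) .nil))))))) (.g (nat_lit 6) .nil .nil))) 
(.lf (nat_lit 208933) (.g (nat_lit 2453) (.e (nat_lit 81943) (nat_lit 20) (.e (nat_lit 2281) (nat_lit 150) (.e (nat_lit 770072) (nat_lit 8) (.e (nat_lit 65610) (nat_lit 10) (.e (nat_lit 344090) (nat_lit 18) (.e (nat_lit 7124) (nat_lit 382) (.e (nat_lit 7936) (nat_lit 90) .nil))))))) (.g (nat_lit 5) .nil .nil)))) (.nd (nat_lit 5) 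
(.lf (nat_lit 208917) (.g (nat_lit 2189) (.e (nat_lit 81943) (nat_lit 20) (.e (nat_lit 2281) (nat_lit 150) (.e (nat_lit 770058) (nat_lit 5) (.e (nat_lit 1595) (nat_lit 111) (.e (nat_lit 360449) (nat_lit 0) (.e (nat_lit 7122) (nat_lit 382) (.e (nat_lit 7936) (nat_lit 90) .nil))))))) (.g (nat_lit 5) .nil .nil))) 
(.lf (nat_lit 208949) (.g (nat_lit 2027) (.e (nat_lit 81943) (nat_lit 20) (.e (nat_lit 2281) (nat_lit 150) (.e (nat_lit 770072) (nat_lit 8) (.e (nat_lit 65617) (nat_lit 10) (.e (nat_lit 344173) (nat_lit 42) .nil))))) .nil)))) (.nd (nat_lit 4) (.nd (nat_lit 5) 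
(.lf (nat_lit 208909) (.g (nat_lit 2651) (.e (nat_lit 81943) (nat_lit 20) (.e (nat_lit 2281) (nat_lit 150) (.e (nat_lit 770058) (nat_lit 5) (.e (nat_lit 1586) (nat_lit 111) (.e (nat_lit 360450) (nat_lit 0) (.e (nat_lit 7122) (nat_lit 382) (.e (nat_lit 7936) (nat_lit 90) .nil))))))) (.g (nat_lit 6) .nil .nil))) 
(.lf (nat_lit 208941) (.g (nat_lit 1171) (.e (nat_lit 81943) (nat_lit 20) (.e (nat_lit 2281) (nat_lit 150) (.e (nat_lit 770072) (nat_lit 8) (.e (nat_lit 65617) (nat_lit 10) .nil)))) .nil))) (.nd (nat_lit 5) 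
(.lf (nat_lit 208925) (.g (nat_lit 744) (.e (nat_lit 81943) (nat_lit 20) (.e (nat_lit 2281) (nat_lit 150) (.e (nat_lit 770058) (nat_lit 5) (.e (nat_lit 1599) (nat_lit 111) .nil)))) .nil)) 
(.lf (nat_lit 208957) (.g (nat_lit 385) (.e (nat_lit 81943) (nat_lit 20) (.e (nat_lit 2281) (nat_lit 150) (.e (nat_lit 770074) (nat_lit 10) .nil))) .nil)))))) (.nd (nat_lit 2) (.nd (nat_lit 3) (.nd (nat_lit 4) (.nd (nat_lit 5) 
(.lf (nat_lit 208899) (.g (nat_lit 1771) (.e (nat_lit 81943) (nat_lit 20) (.e (nat_lit 2281) (nat_lit 150) (.e (nat_lit 770057) (nat_lit 5) (.e (nat_lit 1595) (nat_lit 111) (.e (nat_lit 360488) (nat_lit 20) (.e (nat_lit 769792) (nat_lit 10) .nil)))))) (.g (nat_lit 5) .nil .nil))) 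
(.lf (nat_lit 208931) (.g (nat_lit 1547) (.e (nat_lit 81943) (nat_lit 20) (.e (nat_lit 2281) (nat_lit 150) (.e (nat_lit 770072) (nat_lit 8) (.e (nat_lit 65609) (nat_lit 10) (.e (nat_lit 344174) (nat_lit 42) .nil))))) .nil))) (.nd (nat_lit 5) 
(.lf (nat_lit 208915) (.g (nat_lit 2254) (.e (nat_lit 81943) (nat_lit 20) (.e (nat_lit 2281) (nat_lit 150) (.e (nat_lit 770058) (nat_lit 5) (.e (nat_lit 1589) (nat_lit 111) (.e (nat_lit 360488) (nat_lit 20) (.e (nat_lit 769792) (nat_lit 10) .nil)))))) (.g (nat_lit 5) .nil .nil))) 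
(.lf (nat_lit 208947) (.g (nat_lit 3037) (.e (nat_lit 81943) (nat_lit 20) (.e (nat_lit 2281) (nat_lit 150) (.e (nat_lit 770072) (nat_lit 8) (.e (nat_lit 65617) (nat_lit 10) (.e (nat_lit 344096) (nat_lit 18) (.e (nat_lit 7119) (nat_lit 382) (.e (nat_lit 7936) (nat_lit 90) .nil))))))) (.g (nat_lit 6) .nil .nil))))) (.nd (nat_lit 4) (.nd (nat_lit 5) 
(.lf (nat_lit 208907) (.g (nat_lit 359) (.e (nat_lit 81943) (nat_lit 20) (.e (nat_lit 2281) (nat_lit 150) (.e (nat_lit 770058) (nat_lit 5) .nil))) .nil)) 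
(.lf (nat_lit 208939) (.g (nat_lit 2241) (.e (nat_lit 81943) (nat_lit 20) (.e (nat_lit 2281) (nat_lit 150) (.e (nat_lit 770072) (nat_lit 8) (.e (nat_lit 65611) (nat_lit 10) (.e (nat_lit 344174) (nat_lit 42) (.e (nat_lit 769792) (nat_lit 10) .nil)))))) (.g (nat_lit 5) .nil .nil)))) (.nd (nat_lit 5) 
(.lf (nat_lit 208923) (.g (nat_lit 1347) (.e (nat_lit 81943) (nat_lit 20) (.e (nat_lit 2281) (nat_lit 150) (.e (nat_lit 770058) (nat_lit 5) (.e (nat_lit 1598) (nat_lit 111) (.e (nat_lit 368384) (nat_lit 0) (.e (nat_lit 7160) (nat_lit 382) (.e (nat_lit 1215) (nat_lit 90) .nil))))))) (.g (nat_lit 4) .nil .nil))) 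
(.lf (nat_lit 208955) (.g (nat_lit 2640) (.e (nat_lit 81943) (nat_lit 20) (.e (nat_lit 2281) (nat_lit 150) (.e (nat_lit 770072) (nat_lit 8) (.e (nat_lit 65619) (nat_lit 10) (.e (nat_lit 344174) (nat_lit 42) (.e (nat_lit 769792) (nat_lit 10) .nil)))))) (.g (nat_lit 5) .nil .nil)))))) (.nd (nat_lit 3) (.nd (nat_lit 4) (.nd (nat_lit 5) 
(.lf (nat_lit 208903) (.g (nat_lit 1261) (.e (nat_lit 81943) (nat_lit 20) (.e (nat_lit 2281) (nat_lit 150) (.e (nat_lit 770057) (nat_lit 5) (.e (nat_lit 1598) (nat_lit 111) (.e (nat_lit 368384) (nat_lit 0) (.e (nat_lit 7160) (nat_lit 382) (.e (nat_lit 1215) (nat_lit 90) .nil))))))) (.g (nat_lit 4) .nil .nil))) 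
(.lf (nat_lit 208935) (.g (nat_lit 3676) (.e (nat_lit 81943) (nat_lit 20) (.e (nat_lit 2281) (nat_lit 150) (.e (nat_lit 770072) (nat_lit 8) (.e (nat_lit 65610) (nat_lit 10) (.e (nat_lit 344097) (nat_lit 18) (.e (nat_lit 7160) (nat_lit 382) (.e (nat_lit 1215) (nat_lit 90) .nil))))))) (.g (nat_lit 7) .nil .nil)))) (.nd (nat_lit 5) 
(.lf (nat_lit 208919) (.g (nat_lit 1812) (.e (nat_lit 81943) (nat_lit 20) (.e (nat_lit 2281) (nat_lit 150) (.e (nat_lit 770058) (nat_lit 5) (.e (nat_lit 1595) (nat_lit 111) (.e (nat_lit 360488) (nat_lit 20) (.e (nat_lit 769792) (nat_lit 10) .nil)))))) (.g (nat_lit 5) .nil .nil))) 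
(.lf (nat_lit 208951) (.g (nat_lit 1849) (.e (nat_lit 81943) (nat_lit 20) (.e (nat_lit 2281) (nat_lit 150) (.e (nat_lit 770072) (nat_lit 8) (.e (nat_lit 65617) (nat_lit 10) (.e (nat_lit 344175) (nat_lit 43) .nil))))) .nil)))) (.nd (nat_lit 4) (.nd (nat_lit 5) 
(.lf (nat_lit 208911) (.g (nat_lit 2925) (.e (nat_lit 81943) (nat_lit 20) (.e (nat_lit 2281) (nat_lit 150) (.e (nat_lit 770058) (nat_lit 5) (.e (nat_lit 1586) (nat_lit 111) (.e (nat_lit 360451) (nat_lit 0) (.e (nat_lit 7124) (nat_lit 382) (.e (nat_lit 1222) (nat_lit 90) .nil))))))) (.g (nat_lit 7) .nil .nil))) 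
(.lf (nat_lit 208943) (.g (nat_lit 2946) (.e (nat_lit 81943) (nat_lit 20) (.e (nat_lit 2281) (nat_lit 150) (.e (nat_lit 770072) (nat_lit 8) (.e (nat_lit 65617) (nat_lit 10) (.e (nat_lit 344091) (nat_lit 18) (.e (nat_lit 7119) (nat_lit 382) (.e (nat_lit 7936) (nat_lit 90) .nil))))))) (.g (nat_lit 6) .nil .nil)))) (.nd (nat_lit 5) 
(.lf (nat_lit 208927) (.g (nat_lit 1486) (.e (nat_lit 81943) (nat_lit 20) (.e (nat_lit 2281) (nat_lit 150) (.e (nat_lit 770058) (nat_lit 5) (.e (nat_lit 1599) (nat_lit 111) (.e (nat_lit 360488) (nat_lit 20) (.e (nat_lit 769792) (nat_lit 10) .nil)))))) (.g (nat_lit 5) .nil .nil))) 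
(.lf (nat_lit 208959) (.g (nat_lit 1467) (.e (nat_lit 81943) (nat_lit 20) (.e (nat_lit 2281) (nat_lit 150) (.e (nat_lit 770074) (nat_lit 10) (.e (nat_lit 81948) (nat_lit 21) (.e (nat_lit 57654) (nat_lit 152) (.e (nat_lit 1216) (nat_lit 90) .nil)))))) (.g (nat_lit 4) .nil .nil)))))))))

noncomputable def tv2758 : DT := (.nd (nat_lit 0) (.nd (nat_lit 1) (.nd (nat_lit 2) (.nd (nat_lit 3) (.nd (nat_lit 4) (.nd (nat_lit 5) 
(.lf (nat_lit 208960) (.g (nat_lit 2490) (.e (nat_lit 81943) (nat_lit 20) (.e (nat_lit 2281) (nat_lit 150) (.e (nat_lit 770074) (nat_lit 10) (.e (nat_lit 81949) (nat_lit 21) (.e (nat_lit 57655) (nat_lit 152) (.e (nat_lit 1216) (nat_lit 90) .nil)))))) (.g (nat_lit 6) .nil .nil))) 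
(.lf (nat_lit 208992) (.g (nat_lit 2385) (.e (nat_lit 81946) (nat_lit 20) (.e (nat_lit 1842) (nat_lit 123) (.e (nat_lit 548889) (nat_lit 9) (.e (nat_lit 65583) (nat_lit 7) (.e (nat_lit 319519) (nat_lit 12) (.e (nat_lit 40704) (nat_lit 11) .nil)))))) (.g (nat_lit 5) .nil .nil)))) (.nd (nat_lit 5) 
(.lf (nat_lit 208976) (.g (nat_lit 2376) (.e (nat_lit 81946) (nat_lit 20) (.e (nat_lit 1841) (nat_lit 123) (.e (nat_lit 548874) (nat_lit 5) (.e (nat_lit 1598) (nat_lit 111) (.e (nat_lit 360471) (nat_lit 7) (.e (nat_lit 548891) (nat_lit 11) .nil)))))) (.g (nat_lit 0) .nil .nil))) 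
(.lf (nat_lit 209008) (.g (nat_lit 1699) (.e (nat_lit 81946) (nat_lit 20) (.e (nat_lit 1842) (nat_lit 123) (.e (nat_lit 548890) (nat_lit 10) (.e (nat_lit 73788) (nat_lit 45) (.e (nat_lit 1141) (nat_lit 84) (.e (nat_lit 32789) (nat_lit 11) .nil)))))) (.g (nat_lit 0) .nil .nil))))) (.nd (nat_lit 4) (.nd (nat_lit 5) 
(.lf (nat_lit 208968) (.g (nat_lit 1455) (.e (nat_lit 81945) (nat_lit 20) (.e (nat_lit 1855) (nat_lit 124) (.e (nat_lit 557070) (nat_lit 9) (.e (nat_lit 253) (nat_lit 21) .nil)))) .nil)) 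
(.lf (nat_lit 209000) (.g (nat_lit 958) (.e (nat_lit 81946) (nat_lit 20) (.e (nat_lit 1842) (nat_lit 123) (.e (nat_lit 548889) (nat_lit 9) (.e (nat_lit 65622) (nat_lit 12) .nil)))) .nil))) (.nd (nat_lit 5) 
(.lf (nat_lit 208984) (.g (nat_lit 1996) (.e (nat_lit 81946) (nat_lit 20) (.e (nat_lit 1841) (nat_lit 123) (.e (nat_lit 548889) (nat_lit 9) (.e (nat_lit 65586) (nat_lit 7) (.e (nat_lit 319519) (nat_lit 12) (.e (nat_lit 40704) (nat_lit 11) .nil)))))) (.g (nat_lit 5) .nil .nil))) 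
(.lf (nat_lit 209016) (.g (nat_lit 2897) (.e (nat_lit 81946) (nat_lit 20) (.e (nat_lit 1858) (nat_lit 124) (.e (nat_lit 557066) (nat_lit 9) (.e (nat_lit 232) (nat_lit 21) (.e (nat_lit 336060) (nat_lit 7) (.e (nat_lit 319505) (nat_lit 10) (.e (nat_lit 531) (nat_lit 41) (.e (nat_lit 500076) (nat_lit 20) .nil)))))))) (.g (nat_lit 4) .nil .nil)))))) (.nd (nat_lit 3) (.nd (nat_lit 4) (.nd (nat_lit 5) 
(.lf (nat_lit 208964) (.g (nat_lit 442) (.e (nat_lit 81943) (nat_lit 20) (.e (nat_lit 2390) (nat_lit 156) (.e (nat_lit 819203) (nat_lit 0) (.e (nat_lit 2988) (nat_lit 186) (.e (nat_lit 450304) (nat_lit 2) .nil))))) .nil)) 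
(.lf (nat_lit 208996) (.g (nat_lit 1966) (.e (nat_lit 81946) (nat_lit 20) (.e (nat_lit 1842) (nat_lit 123) (.e (nat_lit 548889) (nat_lit 9) (.e (nat_lit 65586) (nat_lit 7) (.e (nat_lit 319500) (nat_lit 10) (.e (nat_lit 536) (nat_lit 41) (.e (nat_lit 500076) (nat_lit 20) .nil))))))) (.g (nat_lit 4) .nil .nil)))) (.nd (nat_lit 5) 
(.lf (nat_lit 208980) (.g (nat_lit 1420) (.e (nat_lit 81946) (nat_lit 20) (.e (nat_lit 1841) (nat_lit 123) (.e (nat_lit 548889) (nat_lit 9) (.e (nat_lit 65584) (nat_lit 7) (.e (nat_lit 319519) (nat_lit 12) (.e (nat_lit 40704) (nat_lit 11) .nil)))))) (.g (nat_lit 4) .nil .nil))) 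
(.lf (nat_lit 209012) (.g (nat_lit 1139) (.e (nat_lit 81946) (nat_lit 20) (.e (nat_lit 1855) (nat_lit 124) (.e (nat_lit 557085) (nat_lit 11) (.e (nat_lit 24653) (nat_lit 12) .nil)))) .nil)))) (.nd (nat_lit 4) (.nd (nat_lit 5) 
(.lf (nat_lit 208972) (.g (nat_lit 2764) (.e (nat_lit 81946) (nat_lit 20) (.e (nat_lit 1840) (nat_lit 123) (.e (nat_lit 548889) (nat_lit 9) (.e (nat_lit 65624) (nat_lit 12) (.e (nat_lit 385074) (nat_lit 31) .nil))))) .nil)) 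
(.lf (nat_lit 209004) (.g (nat_lit 2111) (.e (nat_lit 81946) (nat_lit 20) (.e (nat_lit 1842) (nat_lit 123) (.e (nat_lit 548889) (nat_lit 9) (.e (nat_lit 65629) (nat_lit 14) (.e (nat_lit 401418) (nat_lit 0) .nil))))) .nil))) (.nd (nat_lit 5) 
(.lf (nat_lit 208988) (.g (nat_lit 415) (.e (nat_lit 81946) (nat_lit 20) (.e (nat_lit 1842) (nat_lit 123) (.e (nat_lit 548874) (nat_lit 5) .nil))) .nil)) 
(.lf (nat_lit 209020) (.g (nat_lit 4721) (.e (nat_lit 81946) (nat_lit 20) (.e (nat_lit 1858) (nat_lit 124) (.e (nat_lit 557087) (nat_lit 11) (.e (nat_lit 24617) (nat_lit 7) (.e (nat_lit 319504) (nat_lit 10) .nil))))) .nil)))))) (.nd (nat_lit 2) (.nd (nat_lit 3) (.nd (nat_lit 4) (.nd (nat_lit 5) 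
(.lf (nat_lit 208962) (.g (nat_lit 2610) (.e (nat_lit 81943) (nat_lit 20) (.e (nat_lit 2281) (nat_lit 150) (.e (nat_lit 770076) (nat_lit 12) (.e (nat_lit 131116) (nat_lit 9) (.e (nat_lit 335988) (nat_lit 1) (.e (nat_lit 57665) (nat_lit 152) (.e (nat_lit 7936) (nat_lit 90) .nil))))))) (.g (nat_lit 6) .nil .nil))) 
(.lf (nat_lit 208994) (.g (nat_lit 1775) (.e (nat_lit 81946) (nat_lit 20) (.e (nat_lit 1842) (nat_lit 123) (.e (nat_lit 548889) (nat_lit 9) (.e (nat_lit 65584) (nat_lit 7) (.e (nat_lit 319519) (nat_lit 12) (.e (nat_lit 40704) (nat_lit 11) .nil)))))) (.g (nat_lit 4) .nil .nil)))) (.nd (nat_lit 5) 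
(.lf (nat_lit 208978) (.g (nat_lit 1281) (.e (nat_lit 81946) (nat_lit 20) (.e (nat_lit 1841) (nat_lit 123) (.e (nat_lit 548889) (nat_lit 9) (.e (nat_lit 65583) (nat_lit 7) (.e (nat_lit 319499) (nat_lit 10) (.e (nat_lit 562) (nat_lit 41) (.e (nat_lit 500076) (nat_lit 20) .nil))))))) (.g (nat_lit 4) .nil .nil))) 
(.lf (nat_lit 209010) (.g (nat_lit 3081) (.e (nat_lit 81946) (nat_lit 20) (.e (nat_lit 1842) (nat_lit 123) (.e (nat_lit 548891) (nat_lit 11) (.e (nat_lit 81924) (nat_lit 0) (.e (nat_lit 3305) (nat_lit 202) (.e (nat_lit 573491) (nat_lit 15) .nil)))))) (.g (nat_lit 0) .nil .nil))))) (.nd (nat_lit 4) (.nd (nat_lit 5) 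
(.lf (nat_lit 208970) (.g (nat_lit 2021) (.e (nat_lit 81946) (nat_lit 20) (.e (nat_lit 1788) (nat_lit 119) (.e (nat_lit 516139) (nat_lit 7) (.e (nat_lit 409623) (nat_lit 10) (.e (nat_lit 5664) (nat_lit 312) .nil))))) .nil)) 
(.lf (nat_lit 209002) (.g (nat_lit 2276) (.e (nat_lit 81946) (nat_lit 20) (.e (nat_lit 1842) (nat_lit 123) (.e (nat_lit 548889) (nat_lit 9) (.e (nat_lit 65628) (nat_lit 14) (.e (nat_lit 401412) (nat_lit 0) .nil))))) .nil))) (.nd (nat_lit 5) 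
(.lf (nat_lit 208986) (.g (nat_lit 1382) (.e (nat_lit 81946) (nat_lit 20) (.e (nat_lit 1841) (nat_lit 123) (.e (nat_lit 548890) (nat_lit 10) (.e (nat_lit 73791) (nat_lit 45) (.e (nat_lit 1141) (nat_lit 84) (.e (nat_lit 32789) (nat_lit 11) .nil)))))) (.g (nat_lit 0) .nil .nil))) 
(.lf (nat_lit 209018) (.g (nat_lit 3087) (.e (nat_lit 81946) (nat_lit 20) (.e (nat_lit 1858) (nat_lit 124) (.e (nat_lit 557066) (nat_lit 9) (.e (nat_lit 232) (nat_lit 21) (.e (nat_lit 336060) (nat_lit 7) (.e (nat_lit 319517) (nat_lit 12) (.e (nat_lit 32789) (nat_lit 11) .nil))))))) (.g (nat_lit 4) .nil .nil)))))) (.nd (nat_lit 3) (.nd (nat_lit 4) (.nd (nat_lit 5) 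
(.lf (nat_lit 208966) (.g (nat_lit 1018) (.e (nat_lit 81943) (nat_lit 20) (.e (nat_lit 2390) (nat_lit 156) (.e (nat_lit 819204) (nat_lit 0) (.e (nat_lit 2999) (nat_lit 186) (.e (nat_lit 450304) (nat_lit 2) .nil))))) .nil)) 
(.lf (nat_lit 208998) (.g (nat_lit 1964) (.e (nat_lit 81946) (nat_lit 20) (.e (nat_lit 1842) (nat_lit 123) (.e (nat_lit 548889) (nat_lit 9) (.e (nat_lit 65586) (nat_lit 7) (.e (nat_lit 319517) (nat_lit 12) (.e (nat_lit 32789) (nat_lit 11) .nil)))))) (.g (nat_lit 4) .nil .nil)))) (.nd (nat_lit 5) 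
(.lf (nat_lit 208982) (.g (nat_lit 1993) (.e (nat_lit 81946) (nat_lit 20) (.e (nat_lit 1841) (nat_lit 123) (.e (nat_lit 548889) (nat_lit 9) (.e (nat_lit 65586) (nat_lit 7) (.e (nat_lit 319500) (nat_lit 10) (.e (nat_lit 562) (nat_lit 41) (.e (nat_lit 500076) (nat_lit 20) .nil))))))) (.g (nat_lit 5) .nil .nil))) 
(.lf (nat_lit 209014) (.g (nat_lit 3256) (.e (nat_lit 81946) (nat_lit 20) (.e (nat_lit 1858) (nat_lit 124) (.e (nat_lit 557066) (nat_lit 9) (.e (nat_lit 232) (nat_lit 21) (.e (nat_lit 336060) (nat_lit 7) (.e (nat_lit 319504) (nat_lit 10) (.e (nat_lit 531) (nat_lit 41) (.e (nat_lit 500076) (nat_lit 20) .nil)))))))) (.g (nat_lit 4) .nil .nil))))) (.nd (nat_lit 4) (.nd (nat_lit 5) 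
(.lf (nat_lit 208974) (.g (nat_lit 3021) (.e (nat_lit 81946) (nat_lit 20) (.e (nat_lit 1841) (nat_lit 123) (.e (nat_lit 548874) (nat_lit 5) (.e (nat_lit 1575) (nat_lit 110) (.e (nat_lit 352262) (nat_lit 0) (.e (nat_lit 3305) (nat_lit 202) (.e (nat_lit 573491) (nat_lit 15) .nil))))))) (.g (nat_lit 0) .nil .nil))) 
(.lf (nat_lit 209006) (.g (nat_lit 2543) (.e (nat_lit 81946) (nat_lit 20) (.e (nat_lit 1842) (nat_lit 123) (.e (nat_lit 548889) (nat_lit 9) (.e (nat_lit 65630) (nat_lit 14) (.e (nat_lit 401424) (nat_lit 2) .nil))))) .nil))) (.nd (nat_lit 5) 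
(.lf (nat_lit 208990) (.g (nat_lit 968) (.e (nat_lit 81946) (nat_lit 20) (.e (nat_lit 1842) (nat_lit 123) (.e (nat_lit 548889) (nat_lit 9) (.e (nat_lit 65583) (nat_lit 7) .nil)))) .nil)) 
(.lf (nat_lit 209022) (.g (nat_lit 4639) (.e (nat_lit 81946) (nat_lit 20) (.e (nat_lit 1858) (nat_lit 124) (.e (nat_lit 557087) (nat_lit 11) (.e (nat_lit 24617) (nat_lit 7) (.e (nat_lit 319505) (nat_lit 10) .nil))))) .nil))))))) (.nd (nat_lit 1) (.nd (nat_lit 2) (.nd (nat_lit 3) (.nd (nat_lit 4) (.nd (nat_lit 5) 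
(.lf (nat_lit 208961) (.g (nat_lit 2417) (.e (nat_lit 81943) (nat_lit 20) (.e (nat_lit 2281) (nat_lit 150) (.e (nat_lit 770076) (nat_lit 12) (.e (nat_lit 131116) (nat_lit 9) (.e (nat_lit 335986) (nat_lit 1) (.e (nat_lit 57655) (nat_lit 152) (.e (nat_lit 1216) (nat_lit 90) .nil))))))) (.g (nat_lit 6) .nil .nil))) 
(.lf (nat_lit 208993) (.g (nat_lit 1315) (.e (nat_lit 81946) (nat_lit 20) (.e (nat_lit 1842) (nat_lit 123) (.e (nat_lit 548889) (nat_lit 9) (.e (nat_lit 65584) (nat_lit 7) (.e (nat_lit 319518) (nat_lit 12) .nil))))) .nil))) (.nd (nat_lit 5) 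
(.lf (nat_lit 208977) (.g (nat_lit 2262) (.e (nat_lit 81946) (nat_lit 20) (.e (nat_lit 1841) (nat_lit 123) (.e (nat_lit 548874) (nat_lit 5) (.e (nat_lit 1599) (nat_lit 111) (.e (nat_lit 360471) (nat_lit 7) (.e (nat_lit 548891) (nat_lit 11) .nil)))))) (.g (nat_lit 6) .nil .nil))) 
(.lf (nat_lit 209009) (.g (nat_lit 1706) (.e (nat_lit 81946) (nat_lit 20) (.e (nat_lit 1842) (nat_lit 123) (.e (nat_lit 548890) (nat_lit 10) (.e (nat_lit 73791) (nat_lit 45) (.e (nat_lit 1141) (nat_lit 84) (.e (nat_lit 32789) (nat_lit 11) .nil)))))) (.g (nat_lit 0) .nil .nil))))) (.nd (nat_lit 4) (.nd (nat_lit 5) 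
(.lf (nat_lit 208969) (.g (nat_lit 452) (.e (nat_lit 81945) (nat_lit 20) (.e (nat_lit 1855) (nat_lit 124) (.e (nat_lit 564992) (nat_lit 11) .nil))) .nil)) 
(.lf (nat_lit 209001) (.g (nat_lit 1143) (.e (nat_lit 81946) (nat_lit 20) (.e (nat_lit 1842) (nat_lit 123) (.e (nat_lit 548889) (nat_lit 9) (.e (nat_lit 65623) (nat_lit 12) .nil)))) .nil))) (.nd (nat_lit 5) 
(.lf (nat_lit 208985) (.g (nat_lit 1397) (.e (nat_lit 81946) (nat_lit 20) (.e (nat_lit 1841) (nat_lit 123) (.e (nat_lit 548890) (nat_lit 10) (.e (nat_lit 73788) (nat_lit 45) (.e (nat_lit 1141) (nat_lit 84) (.e (nat_lit 32789) (nat_lit 11) .nil)))))) (.g (nat_lit 0) .nil .nil))) 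
(.lf (nat_lit 209017) (.g (nat_lit 2503) (.e (nat_lit 81946) (nat_lit 20) (.e (nat_lit 1858) (nat_lit 124) (.e (nat_lit 557066) (nat_lit 9) (.e (nat_lit 232) (nat_lit 21) (.e (nat_lit 336060) (nat_lit 7) (.e (nat_lit 319505) (nat_lit 10) (.e (nat_lit 7936) (nat_lit 41) (.e (nat_lit 500079) (nat_lit 20) .nil)))))))) (.g (nat_lit 4) .nil .nil)))))) (.nd (nat_lit 3) (.nd (nat_lit 4) (.nd (nat_lit 5) 
(.lf (nat_lit 208965) (.g (nat_lit 667) (.e (nat_lit 81943) (nat_lit 20) (.e (nat_lit 2390) (nat_lit 156) (.e (nat_lit 819203) (nat_lit 0) (.e (nat_lit 2999) (nat_lit 186) (.e (nat_lit 450304) (nat_lit 2) .nil))))) .nil)) 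
(.lf (nat_lit 208997) (.g (nat_lit 2422) (.e (nat_lit 81946) (nat_lit 20) (.e (nat_lit 1842) (nat_lit 123) (.e (nat_lit 548889) (nat_lit 9) (.e (nat_lit 65586) (nat_lit 7) (.e (nat_lit 319500) (nat_lit 10) (.e (nat_lit 562) (nat_lit 41) (.e (nat_lit 500076) (nat_lit 20) .nil))))))) (.g (nat_lit 5) .nil .nil)))) (.nd (nat_lit 5) 
(.lf (nat_lit 208981) (.g (nat_lit 1537) (.e (nat_lit 81946) (nat_lit 20) (.e (nat_lit 1841) (nat_lit 123) (.e (nat_lit 548889) (nat_lit 9) (.e (nat_lit 65586) (nat_lit 7) (.e (nat_lit 319500) (nat_lit 10) (.e (nat_lit 536) (nat_lit 41) (.e (nat_lit 500076) (nat_lit 20) .nil))))))) (.g (nat_lit 4) .nil .nil))) 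
(.lf (nat_lit 209013) (.g (nat_lit 2255) (.e (nat_lit 81946) (nat_lit 20) (.e (nat_lit 1858) (nat_lit 124) (.e (nat_lit 557066) (nat_lit 9) (.e (nat_lit 232) (nat_lit 21) (.e (nat_lit 336060) (nat_lit 7) .nil))))) .nil)))) (.nd (nat_lit 4) (.nd (nat_lit 5) 
(.lf (nat_lit 208973) (.g (nat_lit 3077) (.e (nat_lit 81946) (nat_lit 20) (.e (nat_lit 1841) (nat_lit 123) (.e (nat_lit 548874) (nat_lit 5) (.e (nat_lit 1559) (nat_lit 110) (.e (nat_lit 352262) (nat_lit 0) (.e (nat_lit 3305) (nat_lit 202) (.e (nat_lit 573491) (nat_lit 15) .nil))))))) (.g (nat_lit 0) .nil .nil))) 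
(.lf (nat_lit 209005) (.g (nat_lit 2853) (.e (nat_lit 81946) (nat_lit 20) (.e (nat_lit 1842) (nat_lit 123) (.e (nat_lit 548889) (nat_lit 9) (.e (nat_lit 65630) (nat_lit 14) (.e (nat_lit 401412) (nat_lit 0) .nil))))) .nil))) (.nd (nat_lit 5) 
(.lf (nat_lit 208989) (.g (nat_lit 3173) (.e (nat_lit 81946) (nat_lit 20) (.e (nat_lit 1842) (nat_lit 123) (.e (nat_lit 548874) (nat_lit 5) (.e (nat_lit 1589) (nat_lit 111) (.e (nat_lit 360471) (nat_lit 7) (.e (nat_lit 548891) (nat_lit 11) .nil)))))) (.g (nat_lit 0) .nil .nil))) 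
(.lf (nat_lit 209021) (.g (nat_lit 4761) (.e (nat_lit 81946) (nat_lit 20) (.e (nat_lit 1858) (nat_lit 124) (.e (nat_lit 557087) (nat_lit 11) (.e (nat_lit 24617) (nat_lit 7) (.e (nat_lit 319504) (nat_lit 10) (.e (nat_lit 531) (nat_lit 41) (.e (nat_lit 500076) (nat_lit 20) .nil))))))) (.g (nat_lit 4) .nil .nil))))))) (.nd (nat_lit 2) (.nd (nat_lit 3) (.nd (nat_lit 4) (.nd (nat_lit 5) 
(.lf (nat_lit 208963) (.g (nat_lit 151) (.e (nat_lit 81943) (nat_lit 20) (.e (nat_lit 2390) (nat_lit 156) (.e (nat_lit 819202) (nat_lit 0) .nil))) .nil)) 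
(.lf (nat_lit 208995) (.g (nat_lit 952) (.e (nat_lit 81946) (nat_lit 20) (.e (nat_lit 1842) (nat_lit 123) (.e (nat_lit 548889) (nat_lit 9) (.e (nat_lit 65586) (nat_lit 7) .nil)))) .nil))) (.nd (nat_lit 5) 
(.lf (nat_lit 208979) (.g (nat_lit 1991) (.e (nat_lit 81946) (nat_lit 20) (.e (nat_lit 1841) (nat_lit 123) (.e (nat_lit 548889) (nat_lit 9) (.e (nat_lit 65583) (nat_lit 7) (.e (nat_lit 319519) (nat_lit 12) (.e (nat_lit 40704) (nat_lit 11) .nil)))))) (.g (nat_lit 5) .nil .nil))) 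
(.lf (nat_lit 209011) (.g (nat_lit 1627) (.e (nat_lit 81946) (nat_lit 20) (.e (nat_lit 1848) (nat_lit 124) (.e (nat_lit 557087) (nat_lit 11) (.e (nat_lit 24617) (nat_lit 7) .nil)))) .nil)))) (.nd (nat_lit 4) (.nd (nat_lit 5) 
(.lf (nat_lit 208971) (.g (nat_lit 3649) (.e (nat_lit 81946) (nat_lit 20) (.e (nat_lit 1836) (nat_lit 123) (.e (nat_lit 548889) (nat_lit 9) (.e (nat_lit 65624) (nat_lit 12) (.e (nat_lit 385074) (nat_lit 31) .nil))))) .nil)) 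
(.lf (nat_lit 209003) (.g (nat_lit 1323) (.e (nat_lit 81946) (nat_lit 20) (.e (nat_lit 1842) (nat_lit 123) (.e (nat_lit 548889) (nat_lit 9) (.e (nat_lit 65629) (nat_lit 14) .nil)))) .nil))) (.nd (nat_lit 5) 
(.lf (nat_lit 208987) (.g (nat_lit 1715) (.e (nat_lit 81946) (nat_lit 20) (.e (nat_lit 1841) (nat_lit 123) (.e (nat_lit 548891) (nat_lit 11) (.e (nat_lit 81957) (nat_lit 24) (.e (nat_lit 130816) (nat_lit 140) .nil))))) .nil)) 
(.lf (nat_lit 209019) (.g (nat_lit 1952) (.e (nat_lit 81946) (nat_lit 20) (.e (nat_lit 1858) (nat_lit 124) (.e (nat_lit 557085) (nat_lit 11) (.e (nat_lit 24664) (nat_lit 14) (.e (nat_lit 401425) (nat_lit 2) .nil))))) .nil))))) (.nd (nat_lit 3) (.nd (nat_lit 4) (.nd (nat_lit 5) 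
(.lf (nat_lit 208967) (.g (nat_lit 798) (.e (nat_lit 81944) (nat_lit 20) (.e (nat_lit 1801) (nat_lit 119) (.e (nat_lit 516139) (nat_lit 7) (.e (nat_lit 417536) (nat_lit 18) .nil)))) .nil)) 
(.lf (nat_lit 208999) (.g (nat_lit 2396) (.e (nat_lit 81946) (nat_lit 20) (.e (nat_lit 1842) (nat_lit 123) (.e (nat_lit 548889) (nat_lit 9) (.e (nat_lit 65586) (nat_lit 7) (.e (nat_lit 319519) (nat_lit 12) (.e (nat_lit 40704) (nat_lit 11) .nil)))))) (.g (nat_lit 5) .nil .nil)))) (.nd (nat_lit 5) 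
(.lf (nat_lit 208983) (.g (nat_lit 1513) (.e (nat_lit 81946) (nat_lit 20) (.e (nat_lit 1841) (nat_lit 123) (.e (nat_lit 548889) (nat_lit 9) (.e (nat_lit 65586) (nat_lit 7) (.e (nat_lit 319517) (nat_lit 12) (.e (nat_lit 32789) (nat_lit 11) .nil)))))) (.g (nat_lit 4) .nil .nil))) 
(.lf (nat_lit 209015) (.g (nat_lit 2659) (.e (nat_lit 81946) (nat_lit 20) (.e (nat_lit 1858) (nat_lit 124) (.e (nat_lit 557066) (nat_lit 9) (.e (nat_lit 232) (nat_lit 21) (.e (nat_lit 336060) (nat_lit 7) (.e (nat_lit 319504) (nat_lit 10) (.e (nat_lit 7936) (nat_lit 41) (.e (nat_lit 500079) (nat_lit 20) .nil)))))))) (.g (nat_lit 4) .nil .nil))))) (.nd (nat_lit 4) (.nd (nat_lit 5) 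
(.lf (nat_lit 208975) (.g (nat_lit 2850) (.e (nat_lit 81946) (nat_lit 20) (.e (nat_lit 1841) (nat_lit 123) (.e (nat_lit 548874) (nat_lit 5) (.e (nat_lit 1589) (nat_lit 111) (.e (nat_lit 360471) (nat_lit 7) (.e (nat_lit 548891) (nat_lit 11) .nil)))))) (.g (nat_lit 0) .nil .nil))) 
(.lf (nat_lit 209007) (.g (nat_lit 881) (.e (nat_lit 81946) (nat_lit 20) (.e (nat_lit 1842) (nat_lit 123) (.e (nat_lit 548890) (nat_lit 10) (.e (nat_lit 81664) (nat_lit 35) .nil)))) .nil))) (.nd (nat_lit 5) 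
(.lf (nat_lit 208991) (.g (nat_lit 1380) (.e (nat_lit 81946) (nat_lit 20) (.e (nat_lit 1842) (nat_lit 123) (.e (nat_lit 548889) (nat_lit 9) (.e (nat_lit 65583) (nat_lit 7) (.e (nat_lit 319499) (nat_lit 10) .nil))))) .nil)) 
(.lf (nat_lit 209023) (.g (nat_lit 4163) (.e (nat_lit 81946) (nat_lit 20) (.e (nat_lit 1858) (nat_lit 124) (.e (nat_lit 557087) (nat_lit 11) (.e (nat_lit 24617) (nat_lit 7) (.e (nat_lit 319517) (nat_lit 12) .nil))))) .nil))))))))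

noncomputable def tv2759 : DT := (.nd (nat_lit 0) (.nd (nat_lit 1) (.nd (nat_lit 2) (.nd (nat_lit 3) (.nd (nat_lit 4) (.nd (nat_lit 5) 
(.lf (nat_lit 209024) (.g (nat_lit 1559) (.e (nat_lit 81946) (nat_lit 20) (.e (nat_lit 1858) (nat_lit 124) (.e (nat_lit 557087) (nat_lit 11) (.e (nat_lit 24648) (nat_lit 12) .nil)))) .nil)) 
(.lf (nat_lit 209056) (.g (nat_lit 2033) (.e (nat_lit 81946) (nat_lit 20) (.e (nat_lit 1962) (nat_lit 134) (.e (nat_lit 638982) (nat_lit 5) (.e (nat_lit 3044) (nat_lit 189) (.e (nat_lit 466972) (nat_lit 21) (.e (nat_lit 164305) (nat_lit 226) (.e (nat_lit 7936) (nat_lit 90) .nil))))))) (.g (nat_lit 6) .nil .nil)))) (.nd (nat_lit 5) 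
(.lf (nat_lit 209040) (.g (nat_lit 1264) (.e (nat_lit 81946) (nat_lit 20) (.e (nat_lit 1885) (nat_lit 127) (.e (nat_lit 581651) (nat_lit 4) (.e (nat_lit 172113) (nat_lit 10) (.e (nat_lit 434295) (nat_lit 49) (.e (nat_lit 745493) (nat_lit 6) .nil)))))) (.g (nat_lit 4) .nil .nil))) 
(.lf (nat_lit 209072) (.g (nat_lit 2755) (.e (nat_lit 81946) (nat_lit 20) (.e (nat_lit 1962) (nat_lit 134) (.e (nat_lit 638998) (nat_lit 8) (.e (nat_lit 172120) (nat_lit 12) (.e (nat_lit 475194) (nat_lit 39) (.e (nat_lit 696363) (nat_lit 18) .nil)))))) (.g (nat_lit 4) .nil .nil))))) (.nd (nat_lit 4) (.nd (nat_lit 5) 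
(.lf (nat_lit 209032) (.g (nat_lit 3685) (.e (nat_lit 81946) (nat_lit 20) (.e (nat_lit 1858) (nat_lit 124) (.e (nat_lit 557091) (nat_lit 12) (.e (nat_lit 164022) (nat_lit 46) (.e (nat_lit 704738) (nat_lit 11) (.e (nat_lit 16411) (nat_lit 2) (.e (nat_lit 196671) (nat_lit 15) .nil))))))) (.g (nat_lit 5) .nil .nil))) 
(.lf (nat_lit 209064) (.g (nat_lit 1782) (.e (nat_lit 81946) (nat_lit 20) (.e (nat_lit 1962) (nat_lit 134) (.e (nat_lit 638985) (nat_lit 5) (.e (nat_lit 3027) (nat_lit 187) (.e (nat_lit 450564) (nat_lit 0) (.e (nat_lit 5069) (nat_lit 292) (.e (nat_lit 7936) (nat_lit 90) .nil))))))) (.g (nat_lit 6) .nil .nil)))) (.nd (nat_lit 5) 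
(.lf (nat_lit 209048) (.g (nat_lit 1139) (.e (nat_lit 81946) (nat_lit 20) (.e (nat_lit 1886) (nat_lit 127) (.e (nat_lit 581651) (nat_lit 4) (.e (nat_lit 172081) (nat_lit 7) (.e (nat_lit 409634) (nat_lit 13) (.e (nat_lit 48896) (nat_lit 6) .nil)))))) (.g (nat_lit 5) .nil .nil))) 
(.lf (nat_lit 209080) (.g (nat_lit 1940) (.e (nat_lit 81946) (nat_lit 20) (.e (nat_lit 1963) (nat_lit 134) (.e (nat_lit 638986) (nat_lit 5) (.e (nat_lit 3015) (nat_lit 187) (.e (nat_lit 450563) (nat_lit 0) (.e (nat_lit 5172) (nat_lit 292) (.e (nat_lit 7936) (nat_lit 90) .nil))))))) (.g (nat_lit 5) .nil .nil)))))) (.nd (nat_lit 3) (.nd (nat_lit 4) (.nd (nat_lit 5) 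
(.lf (nat_lit 209028) (.g (nat_lit 1719) (.e (nat_lit 81946) (nat_lit 20) (.e (nat_lit 1858) (nat_lit 124) (.e (nat_lit 557091) (nat_lit 12) (.e (nat_lit 163999) (nat_lit 38) (.e (nat_lit 639021) (nat_lit 16) .nil))))) .nil)) 
(.lf (nat_lit 209060) (.g (nat_lit 2165) (.e (nat_lit 81946) (nat_lit 20) (.e (nat_lit 1962) (nat_lit 134) (.e (nat_lit 638985) (nat_lit 5) (.e (nat_lit 3015) (nat_lit 187) (.e (nat_lit 450562) (nat_lit 0) (.e (nat_lit 5170) (nat_lit 292) (.e (nat_lit 7936) (nat_lit 90) .nil))))))) (.g (nat_lit 5) .nil .nil)))) (.nd (nat_lit 5) 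
(.lf (nat_lit 209044) (.g (nat_lit 2180) (.e (nat_lit 81946) (nat_lit 20) (.e (nat_lit 1886) (nat_lit 127) (.e (nat_lit 581636) (nat_lit 0) (.e (nat_lit 3015) (nat_lit 187) (.e (nat_lit 450562) (nat_lit 0) (.e (nat_lit 6808) (nat_lit 365) (.e (nat_lit 7936) (nat_lit 90) .nil))))))) (.g (nat_lit 6) .nil .nil))) 
(.lf (nat_lit 209076) (.g (nat_lit 2036) (.e (nat_lit 81946) (nat_lit 20) (.e (nat_lit 1962) (nat_lit 134) (.e (nat_lit 639003) (nat_lit 12) (.e (nat_lit 237612) (nat_lit 9) (.e (nat_lit 426100) (nat_lit 1) (.e (nat_lit 164307) (nat_lit 226) (.e (nat_lit 7936) (nat_lit 90) .nil))))))) (.g (nat_lit 6) .nil .nil))))) (.nd (nat_lit 4) (.nd (nat_lit 5) 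
(.lf (nat_lit 209036) (.g (nat_lit 4646) (.e (nat_lit 81946) (nat_lit 20) (.e (nat_lit 1858) (nat_lit 124) (.e (nat_lit 557093) (nat_lit 12) (.e (nat_lit 164023) (nat_lit 46) (.e (nat_lit 704738) (nat_lit 11) (.e (nat_lit 16411) (nat_lit 2) (.e (nat_lit 196672) (nat_lit 15) .nil))))))) (.g (nat_lit 5) .nil .nil))) 
(.lf (nat_lit 209068) (.g (nat_lit 2350) (.e (nat_lit 81946) (nat_lit 20) (.e (nat_lit 1962) (nat_lit 134) (.e (nat_lit 638998) (nat_lit 8) (.e (nat_lit 172120) (nat_lit 12) (.e (nat_lit 475155) (nat_lit 21) (.e (nat_lit 6282) (nat_lit 337) (.e (nat_lit 1224) (nat_lit 90) .nil))))))) (.g (nat_lit 4) .nil .nil)))) (.nd (nat_lit 5) 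
(.lf (nat_lit 209052) (.g (nat_lit 1366) (.e (nat_lit 81946) (nat_lit 20) (.e (nat_lit 1886) (nat_lit 127) (.e (nat_lit 581653) (nat_lit 6) (.e (nat_lit 188438) (nat_lit 20) (.e (nat_lit 3578) (nat_lit 223) (.e (nat_lit 745493) (nat_lit 6) .nil)))))) (.g (nat_lit 6) .nil .nil))) 
(.lf (nat_lit 209084) (.g (nat_lit 883) (.e (nat_lit 81946) (nat_lit 20) (.e (nat_lit 1963) (nat_lit 134) (.e (nat_lit 638986) (nat_lit 5) (.e (nat_lit 3028) (nat_lit 187) (.e (nat_lit 450566) (nat_lit 0) (.e (nat_lit 5069) (nat_lit 292) (.e (nat_lit 7936) (nat_lit 90) .nil))))))) (.g (nat_lit 5) .nil .nil))))))) (.nd (nat_lit 2) (.nd (nat_lit 3) (.nd (nat_lit 4) (.nd (nat_lit 5) 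
(.lf (nat_lit 209026) (.g (nat_lit 2082) (.e (nat_lit 81946) (nat_lit 20) (.e (nat_lit 1858) (nat_lit 124) (.e (nat_lit 557090) (nat_lit 12) (.e (nat_lit 164022) (nat_lit 46) .nil)))) .nil)) 
(.lf (nat_lit 209058) (.g (nat_lit 747) (.e (nat_lit 81946) (nat_lit 20) (.e (nat_lit 1962) (nat_lit 134) (.e (nat_lit 638985) (nat_lit 5) (.e (nat_lit 3015) (nat_lit 187) (.e (nat_lit 450560) (nat_lit 0) .nil))))) .nil))) (.nd (nat_lit 5) 
(.lf (nat_lit 209042) (.g (nat_lit 2062) (.e (nat_lit 81946) (nat_lit 20) (.e (nat_lit 1886) (nat_lit 127) (.e (nat_lit 581635) (nat_lit 0) (.e (nat_lit 3015) (nat_lit 187) (.e (nat_lit 450562) (nat_lit 0) (.e (nat_lit 6808) (nat_lit 365) (.e (nat_lit 7936) (nat_lit 90) .nil))))))) (.g (nat_lit 6) .nil .nil))) 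
(.lf (nat_lit 209074) (.g (nat_lit 1750) (.e (nat_lit 81946) (nat_lit 20) (.e (nat_lit 1962) (nat_lit 134) (.e (nat_lit 638999) (nat_lit 8) (.e (nat_lit 172097) (nat_lit 9) (.e (nat_lit 426109) (nat_lit 1) (.e (nat_lit 164309) (nat_lit 226) (.e (nat_lit 7936) (nat_lit 90) .nil))))))) (.g (nat_lit 5) .nil .nil))))) (.nd (nat_lit 4) (.nd (nat_lit 5) 
(.lf (nat_lit 209034) (.g (nat_lit 3982) (.e (nat_lit 81946) (nat_lit 20) (.e (nat_lit 1858) (nat_lit 124) (.e (nat_lit 557093) (nat_lit 12) (.e (nat_lit 164022) (nat_lit 46) (.e (nat_lit 704737) (nat_lit 11) (.e (nat_lit 16411) (nat_lit 2) (.e (nat_lit 196671) (nat_lit 15) .nil))))))) (.g (nat_lit 5) .nil .nil))) 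
(.lf (nat_lit 209066) (.g (nat_lit 2229) (.e (nat_lit 81946) (nat_lit 20) (.e (nat_lit 1962) (nat_lit 134) (.e (nat_lit 638998) (nat_lit 8) (.e (nat_lit 172120) (nat_lit 12) (.e (nat_lit 475155) (nat_lit 21) .nil))))) .nil))) (.nd (nat_lit 5) 
(.lf (nat_lit 209050) (.g (nat_lit 1459) (.e (nat_lit 81946) (nat_lit 20) (.e (nat_lit 1886) (nat_lit 127) (.e (nat_lit 581653) (nat_lit 6) (.e (nat_lit 188434) (nat_lit 20) (.e (nat_lit 3577) (nat_lit 223) (.e (nat_lit 745493) (nat_lit 6) .nil)))))) (.g (nat_lit 4) .nil .nil))) 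
(.lf (nat_lit 209082) (.g (nat_lit 1840) (.e (nat_lit 81946) (nat_lit 20) (.e (nat_lit 1963) (nat_lit 134) (.e (nat_lit 638986) (nat_lit 5) (.e (nat_lit 3022) (nat_lit 187) (.e (nat_lit 450565) (nat_lit 0) (.e (nat_lit 5069) (nat_lit 292) (.e (nat_lit 7936) (nat_lit 90) .nil))))))) (.g (nat_lit 5) .nil .nil)))))) (.nd (nat_lit 3) (.nd (nat_lit 4) (.nd (nat_lit 5) 
(.lf (nat_lit 209030) (.g (nat_lit 3164) (.e (nat_lit 81946) (nat_lit 20) (.e (nat_lit 1858) (nat_lit 124) (.e (nat_lit 557091) (nat_lit 12) (.e (nat_lit 164022) (nat_lit 46) (.e (nat_lit 704737) (nat_lit 11) (.e (nat_lit 16411) (nat_lit 2) (.e (nat_lit 196671) (nat_lit 15) .nil))))))) (.g (nat_lit 4) .nil .nil))) 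
(.lf (nat_lit 209062) (.g (nat_lit 1278) (.e (nat_lit 81946) (nat_lit 20) (.e (nat_lit 1962) (nat_lit 134) (.e (nat_lit 638985) (nat_lit 5) (.e (nat_lit 3016) (nat_lit 187) (.e (nat_lit 450565) (nat_lit 0) (.e (nat_lit 5069) (nat_lit 292) (.e (nat_lit 7936) (nat_lit 90) .nil))))))) (.g (nat_lit 5) .nil .nil)))) (.nd (nat_lit 5) 
(.lf (nat_lit 209046) (.g (nat_lit 1400) (.e (nat_lit 81946) (nat_lit 20) (.e (nat_lit 1886) (nat_lit 127) (.e (nat_lit 581651) (nat_lit 4) (.e (nat_lit 172079) (nat_lit 7) (.e (nat_lit 409634) (nat_lit 13) (.e (nat_lit 48896) (nat_lit 6) .nil)))))) (.g (nat_lit 5) .nil .nil))) 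
(.lf (nat_lit 209078) (.g (nat_lit 1893) (.e (nat_lit 81946) (nat_lit 20) (.e (nat_lit 1963) (nat_lit 134) (.e (nat_lit 638986) (nat_lit 5) (.e (nat_lit 3015) (nat_lit 187) (.e (nat_lit 450562) (nat_lit 0) (.e (nat_lit 5122) (nat_lit 292) (.e (nat_lit 7936) (nat_lit 90) .nil))))))) (.g (nat_lit 5) .nil .nil))))) (.nd (nat_lit 4) (.nd (nat_lit 5) 
(.lf (nat_lit 209038) (.g (nat_lit 1612) (.e (nat_lit 81946) (nat_lit 20) (.e (nat_lit 1859) (nat_lit 124) (.e (nat_lit 557091) (nat_lit 12) (.e (nat_lit 164022) (nat_lit 46) .nil)))) .nil)) 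
(.lf (nat_lit 209070) (.g (nat_lit 2218) (.e (nat_lit 81946) (nat_lit 20) (.e (nat_lit 1962) (nat_lit 134) (.e (nat_lit 638998) (nat_lit 8) (.e (nat_lit 172120) (nat_lit 12) (.e (nat_lit 475162) (nat_lit 21) .nil))))) .nil))) (.nd (nat_lit 5) 
(.lf (nat_lit 209054) (.g (nat_lit 2301) (.e (nat_lit 81946) (nat_lit 20) (.e (nat_lit 1960) (nat_lit 134) (.e (nat_lit 638998) (nat_lit 8) (.e (nat_lit 172120) (nat_lit 12) (.e (nat_lit 475155) (nat_lit 21) (.e (nat_lit 6280) (nat_lit 337) (.e (nat_lit 1224) (nat_lit 90) .nil))))))) (.g (nat_lit 4) .nil .nil))) 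
(.lf (nat_lit 209086) (.g (nat_lit 1675) (.e (nat_lit 81946) (nat_lit 20) (.e (nat_lit 1963) (nat_lit 134) (.e (nat_lit 638999) (nat_lit 8) (.e (nat_lit 172097) (nat_lit 9) (.e (nat_lit 426109) (nat_lit 1) (.e (nat_lit 164297) (nat_lit 226) (.e (nat_lit 7936) (nat_lit 90) .nil))))))) (.g (nat_lit 5) .nil .nil)))))))) 
(.nd (nat_lit 1) (.nd (nat_lit 2) (.nd (nat_lit 3) (.nd (nat_lit 4) (.nd (nat_lit 5) 
(.lf (nat_lit 209025) (.g (nat_lit 3681) (.e (nat_lit 81946) (nat_lit 20) (.e (nat_lit 1858) (nat_lit 124) (.e (nat_lit 557090) (nat_lit 12) (.e (nat_lit 164020) (nat_lit 45) (.e (nat_lit 696344) (nat_lit 8) (.e (nat_lit 172073) (nat_lit 5) (.e (nat_lit 245792) (nat_lit 15) .nil))))))) (.g (nat_lit 5) .nil .nil))) 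
(.lf (nat_lit 209057) (.g (nat_lit 1846) (.e (nat_lit 81946) (nat_lit 20) (.e (nat_lit 1962) (nat_lit 134) (.e (nat_lit 638982) (nat_lit 5) (.e (nat_lit 3044) (nat_lit 189) (.e (nat_lit 466972) (nat_lit 21) (.e (nat_lit 164307) (nat_lit 226) (.e (nat_lit 7936) (nat_lit 90) .nil))))))) (.g (nat_lit 6) .nil .nil)))) (.nd (nat_lit 5) 
(.lf (nat_lit 209041) (.g (nat_lit 91) (.e (nat_lit 81946) (nat_lit 20) (.e (nat_lit 1886) (nat_lit 127) (.e (nat_lit 581635) (nat_lit 0) .nil))) .nil)) 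
(.lf (nat_lit 209073) (.g (nat_lit 1632) (.e (nat_lit 81946) (nat_lit 20) (.e (nat_lit 1962) (nat_lit 134) (.e (nat_lit 638999) (nat_lit 8) (.e (nat_lit 172097) (nat_lit 9) (.e (nat_lit 426109) (nat_lit 1) (.e (nat_lit 164297) (nat_lit 226) (.e (nat_lit 7936) (nat_lit 90) .nil))))))) (.g (nat_lit 5) .nil .nil))))) (.nd (nat_lit 4) (.nd (nat_lit 5) 
(.lf (nat_lit 209033) (.g (nat_lit 1328) (.e (nat_lit 81946) (nat_lit 20) (.e (nat_lit 1858) (nat_lit 124) (.e (nat_lit 557091) (nat_lit 12) (.e (nat_lit 171776) (nat_lit 46) .nil)))) .nil)) 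
(.lf (nat_lit 209065) (.g (nat_lit 801) (.e (nat_lit 81946) (nat_lit 20) (.e (nat_lit 1962) (nat_lit 134) (.e (nat_lit 638985) (nat_lit 5) (.e (nat_lit 3028) (nat_lit 187) (.e (nat_lit 450566) (nat_lit 0) (.e (nat_lit 5069) (nat_lit 292) (.e (nat_lit 7936) (nat_lit 90) .nil))))))) (.g (nat_lit 5) .nil .nil)))) (.nd (nat_lit 5) 
(.lf (nat_lit 209049) (.g (nat_lit 1489) (.e (nat_lit 81946) (nat_lit 20) (.e (nat_lit 1886) (nat_lit 127) (.e (nat_lit 581651) (nat_lit 4) (.e (nat_lit 172082) (nat_lit 7) (.e (nat_lit 409634) (nat_lit 13) (.e (nat_lit 48896) (nat_lit 6) .nil)))))) (.g (nat_lit 5) .nil .nil))) 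
(.lf (nat_lit 209081) (.g (nat_lit 1399) (.e (nat_lit 81946) (nat_lit 20) (.e (nat_lit 1963) (nat_lit 134) (.e (nat_lit 638986) (nat_lit 5) (.e (nat_lit 3016) (nat_lit 187) (.e (nat_lit 450565) (nat_lit 0) (.e (nat_lit 5069) (nat_lit 292) (.e (nat_lit 7936) (nat_lit 90) .nil))))))) (.g (nat_lit 5) .nil .nil)))))) (.nd (nat_lit 3) (.nd (nat_lit 4) (.nd (nat_lit 5) 
(.lf (nat_lit 209029) (.g (nat_lit 2556) (.e (nat_lit 81946) (nat_lit 20) (.e (nat_lit 1858) (nat_lit 124) (.e (nat_lit 557091) (nat_lit 12) (.e (nat_lit 164022) (nat_lit 46) (.e (nat_lit 704736) (nat_lit 11) .nil))))) .nil)) 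
(.lf (nat_lit 209061) (.g (nat_lit 1747) (.e (nat_lit 81946) (nat_lit 20) (.e (nat_lit 1962) (nat_lit 134) (.e (nat_lit 638985) (nat_lit 5) (.e (nat_lit 3015) (nat_lit 187) (.e (nat_lit 450563) (nat_lit 0) (.e (nat_lit 5172) (nat_lit 292) (.e (nat_lit 7936) (nat_lit 90) .nil))))))) (.g (nat_lit 5) .nil .nil)))) (.nd (nat_lit 5) 
(.lf (nat_lit 209045) (.g (nat_lit 2104) (.e (nat_lit 81946) (nat_lit 20) (.e (nat_lit 1886) (nat_lit 127) (.e (nat_lit 581636) (nat_lit 0) (.e (nat_lit 3015) (nat_lit 187) (.e (nat_lit 450563) (nat_lit 0) (.e (nat_lit 6808) (nat_lit 365) (.e (nat_lit 7936) (nat_lit 90) .nil))))))) (.g (nat_lit 5) .nil .nil))) 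
(.lf (nat_lit 209077) (.g (nat_lit 1490) (.e (nat_lit 81946) (nat_lit 20) (.e (nat_lit 1963) (nat_lit 134) (.e (nat_lit 638982) (nat_lit 5) (.e (nat_lit 3044) (nat_lit 189) (.e (nat_lit 466972) (nat_lit 21) (.e (nat_lit 164307) (nat_lit 226) (.e (nat_lit 7936) (nat_lit 90) .nil))))))) (.g (nat_lit 5) .nil .nil))))) (.nd (nat_lit 4) (.nd (nat_lit 5) 
(.lf (nat_lit 209037) (.g (nat_lit 2407) (.e (nat_lit 81946) (nat_lit 20) (.e (nat_lit 1858) (nat_lit 124) (.e (nat_lit 557094) (nat_lit 12) (.e (nat_lit 164022) (nat_lit 46) (.e (nat_lit 704738) (nat_lit 11) (.e (nat_lit 16411) (nat_lit 2) (.e (nat_lit 196671) (nat_lit 15) .nil))))))) (.g (nat_lit 5) .nil .nil))) 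
(.lf (nat_lit 209069) (.g (nat_lit 2191) (.e (nat_lit 81946) (nat_lit 20) (.e (nat_lit 1962) (nat_lit 134) (.e (nat_lit 638998) (nat_lit 8) (.e (nat_lit 172120) (nat_lit 12) (.e (nat_lit 475160) (nat_lit 21) .nil))))) .nil))) (.nd (nat_lit 5) 
(.lf (nat_lit 209053) (.g (nat_lit 1923) (.e (nat_lit 81946) (nat_lit 20) (.e (nat_lit 1960) (nat_lit 134) (.e (nat_lit 638998) (nat_lit 8) (.e (nat_lit 172120) (nat_lit 12) (.e (nat_lit 475155) (nat_lit 21) .nil))))) .nil)) 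
(.lf (nat_lit 209085) (.g (nat_lit 1734) (.e (nat_lit 81946) (nat_lit 20) (.e (nat_lit 1963) (nat_lit 134) (.e (nat_lit 638999) (nat_lit 8) (.e (nat_lit 172097) (nat_lit 9) (.e (nat_lit 426109) (nat_lit 1) (.e (nat_lit 164297) (nat_lit 226) (.e (nat_lit 1217) (nat_lit 90) .nil))))))) (.g (nat_lit 5) .nil .nil))))))) (.nd (nat_lit 2) (.nd (nat_lit 3) (.nd (nat_lit 4) (.nd (nat_lit 5) 
(.lf (nat_lit 209027) (.g (nat_lit 3510) (.e (nat_lit 81946) (nat_lit 20) (.e (nat_lit 1858) (nat_lit 124) (.e (nat_lit 557091) (nat_lit 12) (.e (nat_lit 163999) (nat_lit 38) (.e (nat_lit 639020) (nat_lit 16) (.e (nat_lit 65580) (nat_lit 6) (.e (nat_lit 155392) (nat_lit 6) .nil))))))) (.g (nat_lit 6) .nil .nil))) 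
(.lf (nat_lit 209059) (.g (nat_lit 1913) (.e (nat_lit 81946) (nat_lit 20) (.e (nat_lit 1962) (nat_lit 134) (.e (nat_lit 638985) (nat_lit 5) (.e (nat_lit 3015) (nat_lit 187) (.e (nat_lit 450562) (nat_lit 0) (.e (nat_lit 5122) (nat_lit 292) (.e (nat_lit 7936) (nat_lit 90) .nil))))))) (.g (nat_lit 5) .nil .nil)))) (.nd (nat_lit 5) 
(.lf (nat_lit 209043) (.g (nat_lit 1715) (.e (nat_lit 81946) (nat_lit 20) (.e (nat_lit 1886) (nat_lit 127) (.e (nat_lit 581635) (nat_lit 0) (.e (nat_lit 3027) (nat_lit 187) (.e (nat_lit 450564) (nat_lit 0) (.e (nat_lit 6792) (nat_lit 365) (.e (nat_lit 1219) (nat_lit 90) .nil))))))) (.g (nat_lit 5) .nil .nil))) 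
(.lf (nat_lit 209075) (.g (nat_lit 2391) (.e (nat_lit 81946) (nat_lit 20) (.e (nat_lit 1962) (nat_lit 134) (.e (nat_lit 639003) (nat_lit 12) (.e (nat_lit 237612) (nat_lit 9) (.e (nat_lit 426100) (nat_lit 1) (.e (nat_lit 164305) (nat_lit 226) (.e (nat_lit 7936) (nat_lit 90) .nil))))))) (.g (nat_lit 6) .nil .nil))))) (.nd (nat_lit 4) (.nd (nat_lit 5) 
(.lf (nat_lit 209035) (.g (nat_lit 4217) (.e (nat_lit 81946) (nat_lit 20) (.e (nat_lit 1858) (nat_lit 124) (.e (nat_lit 557093) (nat_lit 12) (.e (nat_lit 164023) (nat_lit 46) (.e (nat_lit 704737) (nat_lit 11) (.e (nat_lit 16411) (nat_lit 2) (.e (nat_lit 196671) (nat_lit 15) .nil))))))) (.g (nat_lit 5) .nil .nil))) 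
(.lf (nat_lit 209067) (.g (nat_lit 2646) (.e (nat_lit 81946) (nat_lit 20) (.e (nat_lit 1962) (nat_lit 134) (.e (nat_lit 638998) (nat_lit 8) (.e (nat_lit 172120) (nat_lit 12) (.e (nat_lit 475155) (nat_lit 21) (.e (nat_lit 6280) (nat_lit 337) (.e (nat_lit 1224) (nat_lit 90) .nil))))))) (.g (nat_lit 4) .nil .nil)))) (.nd (nat_lit 5) 
(.lf (nat_lit 209051) (.g (nat_lit 669) (.e (nat_lit 81946) (nat_lit 20) (.e (nat_lit 1886) (nat_lit 127) (.e (nat_lit 581653) (nat_lit 6) (.e (nat_lit 188438) (nat_lit 20) (.e (nat_lit 3577) (nat_lit 223) .nil))))) .nil)) 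
(.lf (nat_lit 209083) (.g (nat_lit 1755) (.e (nat_lit 81946) (nat_lit 20) (.e (nat_lit 1963) (nat_lit 134) (.e (nat_lit 638986) (nat_lit 5) (.e (nat_lit 3027) (nat_lit 187) (.e (nat_lit 450564) (nat_lit 0) (.e (nat_lit 5069) (nat_lit 292) (.e (nat_lit 7936) (nat_lit 90) .nil))))))) (.g (nat_lit 5) .nil .nil)))))) (.nd (nat_lit 3) (.nd (nat_lit 4) (.nd (nat_lit 5) 
(.lf (nat_lit 209031) (.g (nat_lit 2472) (.e (nat_lit 81946) (nat_lit 20) (.e (nat_lit 1858) (nat_lit 124) (.e (nat_lit 557091) (nat_lit 12) (.e (nat_lit 164022) (nat_lit 46) (.e (nat_lit 704738) (nat_lit 11) .nil))))) .nil)) 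
(.lf (nat_lit 209063) (.g (nat_lit 1797) (.e (nat_lit 81946) (nat_lit 20) (.e (nat_lit 1962) (nat_lit 134) (.e (nat_lit 638985) (nat_lit 5) (.e (nat_lit 3022) (nat_lit 187) (.e (nat_lit 450565) (nat_lit 0) (.e (nat_lit 5069) (nat_lit 292) (.e (nat_lit 7936) (nat_lit 90) .nil))))))) (.g (nat_lit 6) .nil .nil)))) (.nd (nat_lit 5) 
(.lf (nat_lit 209047) (.g (nat_lit 1262) (.e (nat_lit 81946) (nat_lit 20) (.e (nat_lit 1886) (nat_lit 127) (.e (nat_lit 581651) (nat_lit 4) (.e (nat_lit 172080) (nat_lit 7) (.e (nat_lit 409634) (nat_lit 13) (.e (nat_lit 48896) (nat_lit 6) .nil)))))) (.g (nat_lit 5) .nil .nil))) 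
(.lf (nat_lit 209079) (.g (nat_lit 2153) (.e (nat_lit 81946) (nat_lit 20) (.e (nat_lit 1963) (nat_lit 134) (.e (nat_lit 638986) (nat_lit 5) (.e (nat_lit 3015) (nat_lit 187) (.e (nat_lit 450562) (nat_lit 0) (.e (nat_lit 5170) (nat_lit 292) (.e (nat_lit 7936) (nat_lit 90) .nil))))))) (.g (nat_lit 6) .nil .nil))))) (.nd (nat_lit 4) (.nd (nat_lit 5) 
(.lf (nat_lit 209039) (.g (nat_lit 1055) (.e (nat_lit 81946) (nat_lit 20) (.e (nat_lit 1885) (nat_lit 127) (.e (nat_lit 581651) (nat_lit 4) (.e (nat_lit 172079) (nat_lit 7) (.e (nat_lit 409634) (nat_lit 13) (.e (nat_lit 48896) (nat_lit 6) .nil)))))) (.g (nat_lit 4) .nil .nil))) 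
(.lf (nat_lit 209071) (.g (nat_lit 2303) (.e (nat_lit 81946) (nat_lit 20) (.e (nat_lit 1962) (nat_lit 134) (.e (nat_lit 638998) (nat_lit 8) (.e (nat_lit 172120) (nat_lit 12) (.e (nat_lit 475163) (nat_lit 21) .nil))))) .nil))) (.nd (nat_lit 5) 
(.lf (nat_lit 209055) (.g (nat_lit 2216) (.e (nat_lit 81946) (nat_lit 20) (.e (nat_lit 1960) (nat_lit 134) (.e (nat_lit 638998) (nat_lit 8) (.e (nat_lit 172120) (nat_lit 12) (.e (nat_lit 475194) (nat_lit 39) (.e (nat_lit 696363) (nat_lit 18) .nil)))))) (.g (nat_lit 4) .nil .nil))) 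
(.lf (nat_lit 209087) (.g (nat_lit 1467) (.e (nat_lit 81946) (nat_lit 20) (.e (nat_lit 1963) (nat_lit 134) (.e (nat_lit 638999) (nat_lit 8) (.e (nat_lit 172097) (nat_lit 9) (.e (nat_lit 426109) (nat_lit 1) (.e (nat_lit 164301) (nat_lit 226) (.e (nat_lit 7936) (nat_lit 90) .nil))))))) (.g (nat_lit 5) .nil .nil)))))))))

noncomputable def tv2760 : DT := (.nd (nat_lit 0) (.nd (nat_lit 1) (.nd (nat_lit 2) (.nd (nat_lit 3) (.nd (nat_lit 4) (.nd (nat_lit 5) 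
(.lf (nat_lit 209088) (.g (nat_lit 1793) (.e (nat_lit 81946) (nat_lit 20) (.e (nat_lit 1963) (nat_lit 134) (.e (nat_lit 638999) (nat_lit 8) (.e (nat_lit 172097) (nat_lit 9) (.e (nat_lit 426109) (nat_lit 1) (.e (nat_lit 164309) (nat_lit 226) (.e (nat_lit 7936) (nat_lit 90) .nil))))))) (.g (nat_lit 5) .nil .nil))) 
(.lf (nat_lit 209120) (.g (nat_lit 1315) (.e (nat_lit 81946) (nat_lit 20) (.e (nat_lit 2005) (nat_lit 138) (.e (nat_lit 671748) (nat_lit 0) (.e (nat_lit 1569) (nat_lit 110) (.e (nat_lit 352270) (nat_lit 8) (.e (nat_lit 270080) (nat_lit 6) .nil)))))) (.g (nat_lit 5) .nil .nil)))) (.nd (nat_lit 5) 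
(.lf (nat_lit 209104) (.g (nat_lit 1190) (.e (nat_lit 81946) (nat_lit 20) (.e (nat_lit 2005) (nat_lit 138) (.e (nat_lit 671747) (nat_lit 0) (.e (nat_lit 1569) (nat_lit 110) (.e (nat_lit 360192) (nat_lit 4) (.e (nat_lit 220928) (nat_lit 6) .nil)))))) (.g (nat_lit 4) .nil .nil))) 
(.lf (nat_lit 209136) (.g (nat_lit 2145) (.e (nat_lit 81946) (nat_lit 20) (.e (nat_lit 2005) (nat_lit 138) (.e (nat_lit 671762) (nat_lit 4) (.e (nat_lit 65620) (nat_lit 10) (.e (nat_lit 344169) (nat_lit 40) (.e (nat_lit 671764) (nat_lit 6) .nil)))))) (.g (nat_lit 5) .nil .nil))))) (.nd (nat_lit 4) (.nd (nat_lit 5) 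
(.lf (nat_lit 209096) (.g (nat_lit 3201) (.e (nat_lit 81946) (nat_lit 20) (.e (nat_lit 1969) (nat_lit 135) (.e (nat_lit 647203) (nat_lit 14) (.e (nat_lit 1349) (nat_lit 102) (.e (nat_lit 286759) (nat_lit 12) (.e (nat_lit 385094) (nat_lit 49) (.e (nat_lit 778327) (nat_lit 6) .nil))))))) (.g (nat_lit 6) .nil .nil))) 
(.lf (nat_lit 209128) (.g (nat_lit 3379) (.e (nat_lit 81946) (nat_lit 20) (.e (nat_lit 2005) (nat_lit 138) (.e (nat_lit 671748) (nat_lit 0) (.e (nat_lit 1595) (nat_lit 111) (.e (nat_lit 360453) (nat_lit 0) (.e (nat_lit 5907) (nat_lit 320) (.e (nat_lit 1219) (nat_lit 90) .nil))))))) (.g (nat_lit 0) .nil .nil)))) (.nd (nat_lit 5) 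
(.lf (nat_lit 209112) (.g (nat_lit 1941) (.e (nat_lit 81946) (nat_lit 20) (.e (nat_lit 2005) (nat_lit 138) (.e (nat_lit 671747) (nat_lit 0) (.e (nat_lit 1595) (nat_lit 111) (.e (nat_lit 360486) (nat_lit 18) (.e (nat_lit 671764) (nat_lit 6) .nil)))))) (.g (nat_lit 5) .nil .nil))) 
(.lf (nat_lit 209144) (.g (nat_lit 1441) (.e (nat_lit 81946) (nat_lit 20) (.e (nat_lit 2005) (nat_lit 138) (.e (nat_lit 671764) (nat_lit 6) (.e (nat_lit 81947) (nat_lit 20) (.e (nat_lit 2003) (nat_lit 138) (.e (nat_lit 671764) (nat_lit 6) .nil)))))) (.g (nat_lit 4) .nil .nil)))))) (.nd (nat_lit 3) (.nd (nat_lit 4) (.nd (nat_lit 5) 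
(.lf (nat_lit 209092) (.g (nat_lit 1942) (.e (nat_lit 81946) (nat_lit 20) (.e (nat_lit 1963) (nat_lit 134) (.e (nat_lit 639001) (nat_lit 10) (.e (nat_lit 188446) (nat_lit 21) (.e (nat_lit 164305) (nat_lit 226) (.e (nat_lit 7936) (nat_lit 90) .nil)))))) (.g (nat_lit 5) .nil .nil))) 
(.lf (nat_lit 209124) (.g (nat_lit 698) (.e (nat_lit 81946) (nat_lit 20) (.e (nat_lit 2005) (nat_lit 138) (.e (nat_lit 671748) (nat_lit 0) (.e (nat_lit 1576) (nat_lit 110) .nil)))) .nil))) (.nd (nat_lit 5) 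
(.lf (nat_lit 209108) (.g (nat_lit 1818) (.e (nat_lit 81946) (nat_lit 20) (.e (nat_lit 2005) (nat_lit 138) (.e (nat_lit 671747) (nat_lit 0) (.e (nat_lit 1589) (nat_lit 111) (.e (nat_lit 360453) (nat_lit 0) (.e (nat_lit 5907) (nat_lit 320) (.e (nat_lit 1219) (nat_lit 90) .nil))))))) (.g (nat_lit 4) .nil .nil))) 
(.lf (nat_lit 209140) (.g (nat_lit 1177) (.e (nat_lit 81946) (nat_lit 20) (.e (nat_lit 2005) (nat_lit 138) (.e (nat_lit 671764) (nat_lit 6) (.e (nat_lit 81921) (nat_lit 0) (.e (nat_lit 3716) (nat_lit 227) (.e (nat_lit 778325) (nat_lit 6) .nil)))))) (.g (nat_lit 0) .nil .nil))))) (.nd (nat_lit 4) (.nd (nat_lit 5) 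
(.lf (nat_lit 209100) (.g (nat_lit 1155) (.e (nat_lit 81946) (nat_lit 20) (.e (nat_lit 2003) (nat_lit 138) (.e (nat_lit 671762) (nat_lit 4) (.e (nat_lit 65616) (nat_lit 10) (.e (nat_lit 344169) (nat_lit 40) .nil))))) .nil)) 
(.lf (nat_lit 209132) (.g (nat_lit 2954) (.e (nat_lit 81946) (nat_lit 20) (.e (nat_lit 2005) (nat_lit 138) (.e (nat_lit 671761) (nat_lit 4) (.e (nat_lit 65624) (nat_lit 12) (.e (nat_lit 385094) (nat_lit 49) (.e (nat_lit 778327) (nat_lit 6) .nil)))))) (.g (nat_lit 6) .nil .nil)))) (.nd (nat_lit 5) 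
(.lf (nat_lit 209116) (.g (nat_lit 1335) (.e (nat_lit 81946) (nat_lit 20) (.e (nat_lit 2005) (nat_lit 138) (.e (nat_lit 671748) (nat_lit 0) (.e (nat_lit 1562) (nat_lit 110) (.e (nat_lit 360192) (nat_lit 4) (.e (nat_lit 220928) (nat_lit 6) .nil)))))) (.g (nat_lit 4) .nil .nil))) 
(.lf (nat_lit 209148) (.g (nat_lit 1543) (.e (nat_lit 81946) (nat_lit 20) (.e (nat_lit 2006) (nat_lit 138) (.e (nat_lit 671748) (nat_lit 0) (.e (nat_lit 1559) (nat_lit 110) (.e (nat_lit 352270) (nat_lit 8) (.e (nat_lit 270080) (nat_lit 6) .nil)))))) (.g (nat_lit 5) .nil .nil))))))) (.nd (nat_lit 2) (.nd (nat_lit 3) (.nd (nat_lit 4) (.nd (nat_lit 5) 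
(.lf (nat_lit 209090) (.g (nat_lit 1490) (.e (nat_lit 81946) (nat_lit 20) (.e (nat_lit 1963) (nat_lit 134) (.e (nat_lit 639001) (nat_lit 10) (.e (nat_lit 188444) (nat_lit 21) (.e (nat_lit 164305) (nat_lit 226) (.e (nat_lit 7936) (nat_lit 90) .nil)))))) (.g (nat_lit 5) .nil .nil))) 
(.lf (nat_lit 209122) (.g (nat_lit 1572) (.e (nat_lit 81946) (nat_lit 20) (.e (nat_lit 2005) (nat_lit 138) (.e (nat_lit 671748) (nat_lit 0) (.e (nat_lit 1575) (nat_lit 110) (.e (nat_lit 360192) (nat_lit 4) (.e (nat_lit 220928) (nat_lit 6) .nil)))))) (.g (nat_lit 4) .nil .nil)))) (.nd (nat_lit 5) 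
(.lf (nat_lit 209106) (.g (nat_lit 1122) (.e (nat_lit 81946) (nat_lit 20) (.e (nat_lit 2005) (nat_lit 138) (.e (nat_lit 671747) (nat_lit 0) (.e (nat_lit 1575) (nat_lit 110) (.e (nat_lit 360192) (nat_lit 4) (.e (nat_lit 220928) (nat_lit 6) .nil)))))) (.g (nat_lit 4) .nil .nil))) 
(.lf (nat_lit 209138) (.g (nat_lit 2695) (.e (nat_lit 81946) (nat_lit 20) (.e (nat_lit 2005) (nat_lit 138) (.e (nat_lit 671762) (nat_lit 4) (.e (nat_lit 65622) (nat_lit 12) (.e (nat_lit 385094) (nat_lit 49) (.e (nat_lit 778327) (nat_lit 6) .nil)))))) (.g (nat_lit 6) .nil .nil))))) (.nd (nat_lit 4) (.nd (nat_lit 5) 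
(.lf (nat_lit 209098) (.g (nat_lit 1360) (.e (nat_lit 81946) (nat_lit 20) (.e (nat_lit 2003) (nat_lit 138) (.e (nat_lit 671747) (nat_lit 0) (.e (nat_lit 1586) (nat_lit 111) (.e (nat_lit 360486) (nat_lit 18) .nil))))) .nil)) 
(.lf (nat_lit 209130) (.g (nat_lit 1533) (.e (nat_lit 81946) (nat_lit 20) (.e (nat_lit 2005) (nat_lit 138) (.e (nat_lit 671748) (nat_lit 0) (.e (nat_lit 1598) (nat_lit 111) (.e (nat_lit 360455) (nat_lit 0) (.e (nat_lit 5813) (nat_lit 320) (.e (nat_lit 7936) (nat_lit 90) .nil))))))) (.g (nat_lit 4) .nil .nil)))) (.nd (nat_lit 5) 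
(.lf (nat_lit 209114) (.g (nat_lit 784) (.e (nat_lit 81946) (nat_lit 20) (.e (nat_lit 2005) (nat_lit 138) (.e (nat_lit 671748) (nat_lit 0) (.e (nat_lit 1559) (nat_lit 110) (.e (nat_lit 360192) (nat_lit 4) .nil))))) .nil)) 
(.lf (nat_lit 209146) (.g (nat_lit 2877) (.e (nat_lit 81946) (nat_lit 20) (.e (nat_lit 2005) (nat_lit 138) (.e (nat_lit 671764) (nat_lit 6) (.e (nat_lit 81957) (nat_lit 24) (.e (nat_lit 123182) (nat_lit 264) (.e (nat_lit 1224) (nat_lit 90) .nil)))))) (.g (nat_lit 5) .nil .nil)))))) (.nd (nat_lit 3) (.nd (nat_lit 4) (.nd (nat_lit 5) 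
(.lf (nat_lit 209094) (.g (nat_lit 2387) (.e (nat_lit 81946) (nat_lit 20) (.e (nat_lit 1963) (nat_lit 134) (.e (nat_lit 639003) (nat_lit 12) (.e (nat_lit 237612) (nat_lit 9) (.e (nat_lit 426100) (nat_lit 1) (.e (nat_lit 164305) (nat_lit 226) (.e (nat_lit 7936) (nat_lit 90) .nil))))))) (.g (nat_lit 6) .nil .nil))) 
(.lf (nat_lit 209126) (.g (nat_lit 1630) (.e (nat_lit 81946) (nat_lit 20) (.e (nat_lit 2005) (nat_lit 138) (.e (nat_lit 671748) (nat_lit 0) (.e (nat_lit 1586) (nat_lit 111) (.e (nat_lit 368384) (nat_lit 0) (.e (nat_lit 5902) (nat_lit 320) (.e (nat_lit 1219) (nat_lit 90) .nil))))))) (.g (nat_lit 4) .nil .nil)))) (.nd (nat_lit 5) 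
(.lf (nat_lit 209110) (.g (nat_lit 1697) (.e (nat_lit 81946) (nat_lit 20) (.e (nat_lit 2005) (nat_lit 138) (.e (nat_lit 671747) (nat_lit 0) (.e (nat_lit 1595) (nat_lit 111) (.e (nat_lit 368384) (nat_lit 0) (.e (nat_lit 5905) (nat_lit 320) (.e (nat_lit 1219) (nat_lit 90) .nil))))))) (.g (nat_lit 4) .nil .nil))) 
(.lf (nat_lit 209142) (.g (nat_lit 1594) (.e (nat_lit 81946) (nat_lit 20) (.e (nat_lit 2005) (nat_lit 138) (.e (nat_lit 671764) (nat_lit 6) (.e (nat_lit 81933) (nat_lit 20) (.e (nat_lit 1999) (nat_lit 137) (.e (nat_lit 663569) (nat_lit 6) .nil)))))) (.g (nat_lit 0) .nil .nil))))) (.nd (nat_lit 4) (.nd (nat_lit 5) 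
(.lf (nat_lit 209102) (.g (nat_lit 1076) (.e (nat_lit 81946) (nat_lit 20) (.e (nat_lit 2005) (nat_lit 138) (.e (nat_lit 671744) (nat_lit 0) (.e (nat_lit 1615) (nat_lit 113) (.e (nat_lit 384768) (nat_lit 4) (.e (nat_lit 220928) (nat_lit 6) .nil)))))) (.g (nat_lit 4) .nil .nil))) 
(.lf (nat_lit 209134) (.g (nat_lit 1709) (.e (nat_lit 81946) (nat_lit 20) (.e (nat_lit 2005) (nat_lit 138) (.e (nat_lit 671762) (nat_lit 4) (.e (nat_lit 65604) (nat_lit 9) (.e (nat_lit 335907) (nat_lit 0) (.e (nat_lit 1994) (nat_lit 137) (.e (nat_lit 663569) (nat_lit 6) .nil))))))) (.g (nat_lit 4) .nil .nil)))) (.nd (nat_lit 5) 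
(.lf (nat_lit 209118) (.g (nat_lit 2117) (.e (nat_lit 81946) (nat_lit 20) (.e (nat_lit 2005) (nat_lit 138) (.e (nat_lit 671748) (nat_lit 0) (.e (nat_lit 1562) (nat_lit 110) (.e (nat_lit 352318) (nat_lit 24) (.e (nat_lit 123185) (nat_lit 264) (.e (nat_lit 1224) (nat_lit 90) .nil))))))) (.g (nat_lit 5) .nil .nil))) 
(.lf (nat_lit 209150) (.g (nat_lit 1441) (.e (nat_lit 81946) (nat_lit 20) (.e (nat_lit 2006) (nat_lit 138) (.e (nat_lit 671748) (nat_lit 0) (.e (nat_lit 1562) (nat_lit 110) (.e (nat_lit 352270) (nat_lit 8) (.e (nat_lit 270080) (nat_lit 6) .nil)))))) (.g (nat_lit 5) .nil .nil)))))))) (.nd (nat_lit 1) (.nd (nat_lit 2) (.nd (nat_lit 3) (.nd (nat_lit 4) (.nd (nat_lit 5) 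
(.lf (nat_lit 209089) (.g (nat_lit 2755) (.e (nat_lit 81946) (nat_lit 20) (.e (nat_lit 1963) (nat_lit 134) (.e (nat_lit 638999) (nat_lit 8) (.e (nat_lit 172106) (nat_lit 10) (.e (nat_lit 434209) (nat_lit 18) (.e (nat_lit 5046) (nat_lit 292) (.e (nat_lit 1217) (nat_lit 90) .nil))))))) (.g (nat_lit 6) .nil .nil))) 
(.lf (nat_lit 209121) (.g (nat_lit 1712) (.e (nat_lit 81946) (nat_lit 20) (.e (nat_lit 2005) (nat_lit 138) (.e (nat_lit 671748) (nat_lit 0) (.e (nat_lit 1575) (nat_lit 110) (.e (nat_lit 352258) (nat_lit 0) (.e (nat_lit 3716) (nat_lit 227) (.e (nat_lit 778325) (nat_lit 6) .nil))))))) (.g (nat_lit 0) .nil .nil)))) (.nd (nat_lit 5) 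
(.lf (nat_lit 209105) (.g (nat_lit 1232) (.e (nat_lit 81946) (nat_lit 20) (.e (nat_lit 2005) (nat_lit 138) (.e (nat_lit 671747) (nat_lit 0) (.e (nat_lit 1569) (nat_lit 110) (.e (nat_lit 352270) (nat_lit 8) (.e (nat_lit 270080) (nat_lit 6) .nil)))))) (.g (nat_lit 5) .nil .nil))) 
(.lf (nat_lit 209137) (.g (nat_lit 1507) (.e (nat_lit 81946) (nat_lit 20) (.e (nat_lit 2005) (nat_lit 138) (.e (nat_lit 671762) (nat_lit 4) (.e (nat_lit 65622) (nat_lit 12) (.e (nat_lit 385092) (nat_lit 49) .nil))))) .nil)))) (.nd (nat_lit 4) (.nd (nat_lit 5) 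
(.lf (nat_lit 209097) (.g (nat_lit 1580) (.e (nat_lit 81946) (nat_lit 20) (.e (nat_lit 2003) (nat_lit 138) (.e (nat_lit 671747) (nat_lit 0) (.e (nat_lit 1572) (nat_lit 110) (.e (nat_lit 352318) (nat_lit 24) .nil))))) .nil)) 
(.lf (nat_lit 209129) (.g (nat_lit 1271) (.e (nat_lit 81946) (nat_lit 20) (.e (nat_lit 2005) (nat_lit 138) (.e (nat_lit 671748) (nat_lit 0) (.e (nat_lit 1595) (nat_lit 111) (.e (nat_lit 360455) (nat_lit 0) .nil))))) .nil))) (.nd (nat_lit 5) 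
(.lf (nat_lit 209113) (.g (nat_lit 967) (.e (nat_lit 81946) (nat_lit 20) (.e (nat_lit 2005) (nat_lit 138) (.e (nat_lit 671747) (nat_lit 0) (.e (nat_lit 1598) (nat_lit 111) (.e (nat_lit 368384) (nat_lit 17) .nil))))) .nil)) 
(.lf (nat_lit 209145) (.g (nat_lit 2591) (.e (nat_lit 81946) (nat_lit 20) (.e (nat_lit 2005) (nat_lit 138) (.e (nat_lit 671764) (nat_lit 6) (.e (nat_lit 81950) (nat_lit 21) (.e (nat_lit 57873) (nat_lit 264) (.e (nat_lit 1219) (nat_lit 90) .nil)))))) (.g (nat_lit 0) .nil .nil)))))) (.nd (nat_lit 3) (.nd (nat_lit 4) (.nd (nat_lit 5) 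
(.lf (nat_lit 209093) (.g (nat_lit 836) (.e (nat_lit 81946) (nat_lit 20) (.e (nat_lit 1963) (nat_lit 134) (.e (nat_lit 639001) (nat_lit 10) (.e (nat_lit 188446) (nat_lit 21) (.e (nat_lit 164309) (nat_lit 226) (.e (nat_lit 7936) (nat_lit 90) .nil)))))) (.g (nat_lit 4) .nil .nil))) 
(.lf (nat_lit 209125) (.g (nat_lit 2324) (.e (nat_lit 81946) (nat_lit 20) (.e (nat_lit 2005) (nat_lit 138) (.e (nat_lit 671748) (nat_lit 0) (.e (nat_lit 1586) (nat_lit 111) (.e (nat_lit 360450) (nat_lit 0) (.e (nat_lit 5898) (nat_lit 320) (.e (nat_lit 7936) (nat_lit 90) .nil))))))) (.g (nat_lit 5) .nil .nil)))) (.nd (nat_lit 5) 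
(.lf (nat_lit 209109) (.g (nat_lit 3196) (.e (nat_lit 81946) (nat_lit 20) (.e (nat_lit 2005) (nat_lit 138) (.e (nat_lit 671747) (nat_lit 0) (.e (nat_lit 1595) (nat_lit 111) (.e (nat_lit 360453) (nat_lit 0) (.e (nat_lit 5907) (nat_lit 320) (.e (nat_lit 1219) (nat_lit 90) .nil))))))) (.g (nat_lit 7) .nil .nil))) 
(.lf (nat_lit 209141) (.g (nat_lit 1853) (.e (nat_lit 81946) (nat_lit 20) (.e (nat_lit 2005) (nat_lit 138) (.e (nat_lit 671764) (nat_lit 6) (.e (nat_lit 81931) (nat_lit 20) (.e (nat_lit 1999) (nat_lit 137) (.e (nat_lit 663569) (nat_lit 6) .nil)))))) (.g (nat_lit 0) .nil .nil))))) (.nd (nat_lit 4) (.nd (nat_lit 5) 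
(.lf (nat_lit 209101) (.g (nat_lit 3014) (.e (nat_lit 81946) (nat_lit 20) (.e (nat_lit 2003) (nat_lit 138) (.e (nat_lit 671762) (nat_lit 4) (.e (nat_lit 65619) (nat_lit 10) (.e (nat_lit 344097) (nat_lit 18) (.e (nat_lit 5907) (nat_lit 320) (.e (nat_lit 1219) (nat_lit 90) .nil))))))) (.g (nat_lit 6) .nil .nil))) 
(.lf (nat_lit 209133) (.g (nat_lit 2583) (.e (nat_lit 81946) (nat_lit 20) (.e (nat_lit 2005) (nat_lit 138) (.e (nat_lit 671762) (nat_lit 4) (.e (nat_lit 65598) (nat_lit 9) (.e (nat_lit 335997) (nat_lit 1) (.e (nat_lit 57870) (nat_lit 264) (.e (nat_lit 1219) (nat_lit 90) .nil))))))) (.g (nat_lit 5) .nil .nil)))) (.nd (nat_lit 5) 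
(.lf (nat_lit 209117) (.g (nat_lit 1388) (.e (nat_lit 81946) (nat_lit 20) (.e (nat_lit 2005) (nat_lit 138) (.e (nat_lit 671748) (nat_lit 0) (.e (nat_lit 1562) (nat_lit 110) (.e (nat_lit 352270) (nat_lit 8) (.e (nat_lit 270080) (nat_lit 6) .nil)))))) (.g (nat_lit 5) .nil .nil))) 
(.lf (nat_lit 209149) (.g (nat_lit 1387) (.e (nat_lit 81946) (nat_lit 20) (.e (nat_lit 2006) (nat_lit 138) (.e (nat_lit 671748) (nat_lit 0) (.e (nat_lit 1562) (nat_lit 110) (.e (nat_lit 360192) (nat_lit 4) (.e (nat_lit 220928) (nat_lit 6) .nil)))))) (.g (nat_lit 4) .nil .nil))))))) (.nd (nat_lit 2) (.nd (nat_lit 3) (.nd (nat_lit 4) (.nd (nat_lit 5) 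
(.lf (nat_lit 209091) (.g (nat_lit 1756) (.e (nat_lit 81946) (nat_lit 20) (.e (nat_lit 1963) (nat_lit 134) (.e (nat_lit 639001) (nat_lit 10) (.e (nat_lit 188445) (nat_lit 21) (.e (nat_lit 164305) (nat_lit 226) (.e (nat_lit 7936) (nat_lit 90) .nil)))))) (.g (nat_lit 5) .nil .nil))) 
(.lf (nat_lit 209123) (.g (nat_lit 1619) (.e (nat_lit 81946) (nat_lit 20) (.e (nat_lit 2005) (nat_lit 138) (.e (nat_lit 671748) (nat_lit 0) (.e (nat_lit 1575) (nat_lit 110) (.e (nat_lit 352270) (nat_lit 8) (.e (nat_lit 270080) (nat_lit 6) .nil)))))) (.g (nat_lit 5) .nil .nil)))) (.nd (nat_lit 5) 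
(.lf (nat_lit 209107) (.g (nat_lit 1168) (.e (nat_lit 81946) (nat_lit 20) (.e (nat_lit 2005) (nat_lit 138) (.e (nat_lit 671747) (nat_lit 0) (.e (nat_lit 1575) (nat_lit 110) (.e (nat_lit 352270) (nat_lit 8) (.e (nat_lit 270080) (nat_lit 6) .nil)))))) (.g (nat_lit 4) .nil .nil))) 
(.lf (nat_lit 209139) (.g (nat_lit 2970) (.e (nat_lit 81946) (nat_lit 20) (.e (nat_lit 2005) (nat_lit 138) (.e (nat_lit 671762) (nat_lit 4) (.e (nat_lit 65624) (nat_lit 12) (.e (nat_lit 385092) (nat_lit 49) (.e (nat_lit 778327) (nat_lit 6) .nil)))))) (.g (nat_lit 5) .nil .nil))))) (.nd (nat_lit 4) (.nd (nat_lit 5) 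
(.lf (nat_lit 209099) (.g (nat_lit 2033) (.e (nat_lit 81946) (nat_lit 20) (.e (nat_lit 2003) (nat_lit 138) (.e (nat_lit 671762) (nat_lit 4) (.e (nat_lit 65598) (nat_lit 9) (.e (nat_lit 335997) (nat_lit 1) (.e (nat_lit 57872) (nat_lit 264) (.e (nat_lit 1219) (nat_lit 90) .nil))))))) (.g (nat_lit 4) .nil .nil))) 
(.lf (nat_lit 209131) (.g (nat_lit 2229) (.e (nat_lit 81946) (nat_lit 20) (.e (nat_lit 2005) (nat_lit 138) (.e (nat_lit 671748) (nat_lit 0) (.e (nat_lit 1598) (nat_lit 111) (.e (nat_lit 360486) (nat_lit 18) (.e (nat_lit 671764) (nat_lit 6) .nil)))))) (.g (nat_lit 0) .nil .nil)))) (.nd (nat_lit 5) 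
(.lf (nat_lit 209115) (.g (nat_lit 1407) (.e (nat_lit 81946) (nat_lit 20) (.e (nat_lit 2005) (nat_lit 138) (.e (nat_lit 671748) (nat_lit 0) (.e (nat_lit 1559) (nat_lit 110) (.e (nat_lit 352270) (nat_lit 8) (.e (nat_lit 270080) (nat_lit 6) .nil)))))) (.g (nat_lit 5) .nil .nil))) 
(.lf (nat_lit 209147) (.g (nat_lit 835) (.e (nat_lit 81946) (nat_lit 20) (.e (nat_lit 2006) (nat_lit 138) (.e (nat_lit 671748) (nat_lit 0) (.e (nat_lit 1559) (nat_lit 110) (.e (nat_lit 360192) (nat_lit 4) .nil))))) .nil))))) (.nd (nat_lit 3) (.nd (nat_lit 4) (.nd (nat_lit 5) 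
(.lf (nat_lit 209095) (.g (nat_lit 2032) (.e (nat_lit 81946) (nat_lit 20) (.e (nat_lit 1963) (nat_lit 134) (.e (nat_lit 639003) (nat_lit 12) (.e (nat_lit 237612) (nat_lit 9) (.e (nat_lit 426100) (nat_lit 1) (.e (nat_lit 164307) (nat_lit 226) (.e (nat_lit 7936) (nat_lit 90) .nil))))))) (.g (nat_lit 6) .nil .nil))) 
(.lf (nat_lit 209127) (.g (nat_lit 3268) (.e (nat_lit 81946) (nat_lit 20) (.e (nat_lit 2005) (nat_lit 138) (.e (nat_lit 671748) (nat_lit 0) (.e (nat_lit 1589) (nat_lit 111) (.e (nat_lit 360453) (nat_lit 0) (.e (nat_lit 5907) (nat_lit 320) (.e (nat_lit 1219) (nat_lit 90) .nil))))))) (.g (nat_lit 7) .nil .nil)))) (.nd (nat_lit 5) 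
(.lf (nat_lit 209111) (.g (nat_lit 1385) (.e (nat_lit 81946) (nat_lit 20) (.e (nat_lit 2005) (nat_lit 138) (.e (nat_lit 671747) (nat_lit 0) (.e (nat_lit 1595) (nat_lit 111) (.e (nat_lit 368384) (nat_lit 17) (.e (nat_lit 663569) (nat_lit 6) .nil)))))) (.g (nat_lit 4) .nil .nil))) 
(.lf (nat_lit 209143) (.g (nat_lit 1584) (.e (nat_lit 81946) (nat_lit 20) (.e (nat_lit 2005) (nat_lit 138) (.e (nat_lit 671764) (nat_lit 6) (.e (nat_lit 81934) (nat_lit 20) (.e (nat_lit 1999) (nat_lit 137) (.e (nat_lit 663569) (nat_lit 6) .nil)))))) (.g (nat_lit 0) .nil .nil))))) (.nd (nat_lit 4) (.nd (nat_lit 5) 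
(.lf (nat_lit 209103) (.g (nat_lit 1313) (.e (nat_lit 81946) (nat_lit 20) (.e (nat_lit 2005) (nat_lit 138) (.e (nat_lit 671747) (nat_lit 0) (.e (nat_lit 1559) (nat_lit 110) (.e (nat_lit 352270) (nat_lit 8) (.e (nat_lit 270080) (nat_lit 6) .nil)))))) (.g (nat_lit 5) .nil .nil))) 
(.lf (nat_lit 209135) (.g (nat_lit 2478) (.e (nat_lit 81946) (nat_lit 20) (.e (nat_lit 2005) (nat_lit 138) (.e (nat_lit 671762) (nat_lit 4) (.e (nat_lit 65617) (nat_lit 10) (.e (nat_lit 344169) (nat_lit 40) (.e (nat_lit 671764) (nat_lit 6) .nil)))))) (.g (nat_lit 5) .nil .nil)))) (.nd (nat_lit 5) 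
(.lf (nat_lit 209119) (.g (nat_lit 1321) (.e (nat_lit 81946) (nat_lit 20) (.e (nat_lit 2005) (nat_lit 138) (.e (nat_lit 671748) (nat_lit 0) (.e (nat_lit 1569) (nat_lit 110) (.e (nat_lit 360192) (nat_lit 4) (.e (nat_lit 220928) (nat_lit 6) .nil)))))) (.g (nat_lit 4) .nil .nil))) 
(.lf (nat_lit 209151) (.g (nat_lit 1305) (.e (nat_lit 81946) (nat_lit 20) (.e (nat_lit 2006) (nat_lit 138) (.e (nat_lit 671748) (nat_lit 0) (.e (nat_lit 1569) (nat_lit 110) (.e (nat_lit 360192) (nat_lit 4) (.e (nat_lit 220928) (nat_lit 6) .nil)))))) (.g (nat_lit 4) .nil .nil)))))))))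

noncomputable def tv2761 : DT := (.nd (nat_lit 0) (.nd (nat_lit 1) (.nd (nat_lit 2) (.nd (nat_lit 3) (.nd (nat_lit 4) (.nd (nat_lit 5) 
(.lf (nat_lit 209152) (.g (nat_lit 1340) (.e (nat_lit 81946) (nat_lit 20) (.e (nat_lit 2006) (nat_lit 138) (.e (nat_lit 671748) (nat_lit 0) (.e (nat_lit 1569) (nat_lit 110) (.e (nat_lit 352270) (nat_lit 8) (.e (nat_lit 270080) (nat_lit 6) .nil)))))) (.g (nat_lit 5) .nil .nil))) 
(.lf (nat_lit 209184) (.g (nat_lit 2144) (.e (nat_lit 81946) (nat_lit 20) (.e (nat_lit 2270) (nat_lit 149) (.e (nat_lit 761868) (nat_lit 5) (.e (nat_lit 1597) (nat_lit 111) (.e (nat_lit 360449) (nat_lit 0) (.e (nat_lit 7122) (nat_lit 382) (.e (nat_lit 7936) (nat_lit 90) .nil))))))) (.g (nat_lit 5) .nil .nil)))) (.nd (nat_lit 5) 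
(.lf (nat_lit 209168) (.g (nat_lit 2902) (.e (nat_lit 81946) (nat_lit 20) (.e (nat_lit 2006) (nat_lit 138) (.e (nat_lit 671762) (nat_lit 4) (.e (nat_lit 65624) (nat_lit 12) (.e (nat_lit 385092) (nat_lit 49) (.e (nat_lit 778327) (nat_lit 6) .nil)))))) (.g (nat_lit 5) .nil .nil))) 
(.lf (nat_lit 209200) (.g (nat_lit 3196) (.e (nat_lit 81946) (nat_lit 20) (.e (nat_lit 2280) (nat_lit 150) (.e (nat_lit 770057) (nat_lit 5) (.e (nat_lit 1595) (nat_lit 111) (.e (nat_lit 360449) (nat_lit 0) (.e (nat_lit 7125) (nat_lit 382) (.e (nat_lit 1224) (nat_lit 90) .nil))))))) (.g (nat_lit 7) .nil .nil))))) (.nd (nat_lit 4) (.nd (nat_lit 5) 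
(.lf (nat_lit 209160) (.g (nat_lit 1393) (.e (nat_lit 81946) (nat_lit 20) (.e (nat_lit 2006) (nat_lit 138) (.e (nat_lit 671748) (nat_lit 0) (.e (nat_lit 1595) (nat_lit 111) (.e (nat_lit 360455) (nat_lit 0) .nil))))) .nil)) 
(.lf (nat_lit 209192) (.g (nat_lit 1648) (.e (nat_lit 81946) (nat_lit 20) (.e (nat_lit 2280) (nat_lit 150) (.e (nat_lit 770055) (nat_lit 5) (.e (nat_lit 1589) (nat_lit 111) (.e (nat_lit 360488) (nat_lit 20) .nil))))) .nil))) (.nd (nat_lit 5) 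
(.lf (nat_lit 209176) (.g (nat_lit 3061) (.e (nat_lit 81946) (nat_lit 20) (.e (nat_lit 2006) (nat_lit 138) (.e (nat_lit 671764) (nat_lit 6) (.e (nat_lit 81957) (nat_lit 24) (.e (nat_lit 123182) (nat_lit 264) (.e (nat_lit 1224) (nat_lit 90) .nil)))))) (.g (nat_lit 5) .nil .nil))) 
(.lf (nat_lit 209208) (.g (nat_lit 2219) (.e (nat_lit 81946) (nat_lit 20) (.e (nat_lit 2280) (nat_lit 150) (.e (nat_lit 770071) (nat_lit 8) (.e (nat_lit 65610) (nat_lit 10) (.e (nat_lit 344090) (nat_lit 18) (.e (nat_lit 7119) (nat_lit 382) (.e (nat_lit 7936) (nat_lit 90) .nil))))))) (.g (nat_lit 5) .nil .nil)))))) (.nd (nat_lit 3) (.nd (nat_lit 4) (.nd (nat_lit 5) 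
(.lf (nat_lit 209156) (.g (nat_lit 2493) (.e (nat_lit 81946) (nat_lit 20) (.e (nat_lit 2006) (nat_lit 138) (.e (nat_lit 671748) (nat_lit 0) (.e (nat_lit 1586) (nat_lit 111) (.e (nat_lit 360450) (nat_lit 0) (.e (nat_lit 5898) (nat_lit 320) (.e (nat_lit 7936) (nat_lit 90) .nil))))))) (.g (nat_lit 5) .nil .nil))) 
(.lf (nat_lit 209188) (.g (nat_lit 2338) (.e (nat_lit 81946) (nat_lit 20) (.e (nat_lit 2280) (nat_lit 150) (.e (nat_lit 770055) (nat_lit 5) (.e (nat_lit 1586) (nat_lit 111) (.e (nat_lit 360450) (nat_lit 0) (.e (nat_lit 7122) (nat_lit 382) (.e (nat_lit 7936) (nat_lit 90) .nil))))))) (.g (nat_lit 5) .nil .nil)))) (.nd (nat_lit 5) 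
(.lf (nat_lit 209172) (.g (nat_lit 1779) (.e (nat_lit 81946) (nat_lit 20) (.e (nat_lit 2006) (nat_lit 138) (.e (nat_lit 671764) (nat_lit 6) (.e (nat_lit 81943) (nat_lit 20) (.e (nat_lit 2006) (nat_lit 138) (.e (nat_lit 671764) (nat_lit 6) .nil)))))) (.g (nat_lit 0) .nil .nil))) 
(.lf (nat_lit 209204) (.g (nat_lit 2506) (.e (nat_lit 81946) (nat_lit 20) (.e (nat_lit 2280) (nat_lit 150) (.e (nat_lit 770057) (nat_lit 5) (.e (nat_lit 1598) (nat_lit 111) (.e (nat_lit 360452) (nat_lit 0) (.e (nat_lit 7147) (nat_lit 382) (.e (nat_lit 1217) (nat_lit 90) .nil))))))) (.g (nat_lit 6) .nil .nil))))) (.nd (nat_lit 4) (.nd (nat_lit 5) 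
(.lf (nat_lit 209164) (.g (nat_lit 2773) (.e (nat_lit 81946) (nat_lit 20) (.e (nat_lit 2006) (nat_lit 138) (.e (nat_lit 671762) (nat_lit 4) (.e (nat_lit 65598) (nat_lit 9) (.e (nat_lit 335997) (nat_lit 1) (.e (nat_lit 57870) (nat_lit 264) (.e (nat_lit 1219) (nat_lit 90) .nil))))))) (.g (nat_lit 5) .nil .nil))) 
(.lf (nat_lit 209196) (.g (nat_lit 3567) (.e (nat_lit 81946) (nat_lit 20) (.e (nat_lit 2280) (nat_lit 150) (.e (nat_lit 770057) (nat_lit 5) (.e (nat_lit 1586) (nat_lit 111) (.e (nat_lit 360451) (nat_lit 0) (.e (nat_lit 7125) (nat_lit 382) (.e (nat_lit 1224) (nat_lit 90) .nil))))))) (.g (nat_lit 7) .nil .nil)))) (.nd (nat_lit 5) 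
(.lf (nat_lit 209180) (.g (nat_lit 1954) (.e (nat_lit 81946) (nat_lit 20) (.e (nat_lit 2270) (nat_lit 149) (.e (nat_lit 761868) (nat_lit 5) (.e (nat_lit 1582) (nat_lit 111) (.e (nat_lit 360451) (nat_lit 0) (.e (nat_lit 7122) (nat_lit 382) (.e (nat_lit 7936) (nat_lit 90) .nil))))))) (.g (nat_lit 5) .nil .nil))) 
(.lf (nat_lit 209212) (.g (nat_lit 2026) (.e (nat_lit 81946) (nat_lit 20) (.e (nat_lit 2280) (nat_lit 150) (.e (nat_lit 770071) (nat_lit 8) (.e (nat_lit 65610) (nat_lit 10) (.e (nat_lit 344174) (nat_lit 42) (.e (nat_lit 769792) (nat_lit 10) .nil)))))) (.g (nat_lit 5) .nil .nil))))))) (.nd (nat_lit 2) (.nd (nat_lit 3) (.nd (nat_lit 4) (.nd (nat_lit 5) 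
(.lf (nat_lit 209154) (.g (nat_lit 1505) (.e (nat_lit 81946) (nat_lit 20) (.e (nat_lit 2006) (nat_lit 138) (.e (nat_lit 671748) (nat_lit 0) (.e (nat_lit 1575) (nat_lit 110) (.e (nat_lit 360192) (nat_lit 4) (.e (nat_lit 220928) (nat_lit 6) .nil)))))) (.g (nat_lit 4) .nil .nil))) 
(.lf (nat_lit 209186) (.g (nat_lit 1652) (.e (nat_lit 81946) (nat_lit 20) (.e (nat_lit 2270) (nat_lit 149) (.e (nat_lit 761868) (nat_lit 5) (.e (nat_lit 1597) (nat_lit 111) (.e (nat_lit 368384) (nat_lit 0) (.e (nat_lit 7160) (nat_lit 382) (.e (nat_lit 7936) (nat_lit 90) .nil))))))) (.g (nat_lit 4) .nil .nil)))) (.nd (nat_lit 5) 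
(.lf (nat_lit 209170) (.g (nat_lit 1580) (.e (nat_lit 81946) (nat_lit 20) (.e (nat_lit 2006) (nat_lit 138) (.e (nat_lit 671764) (nat_lit 6) (.e (nat_lit 81933) (nat_lit 20) (.e (nat_lit 1999) (nat_lit 137) (.e (nat_lit 663569) (nat_lit 6) .nil)))))) (.g (nat_lit 0) .nil .nil))) 
(.lf (nat_lit 209202) (.g (nat_lit 1622) (.e (nat_lit 81946) (nat_lit 20) (.e (nat_lit 2280) (nat_lit 150) (.e (nat_lit 770057) (nat_lit 5) (.e (nat_lit 1598) (nat_lit 111) (.e (nat_lit 360449) (nat_lit 0) (.e (nat_lit 7122) (nat_lit 382) (.e (nat_lit 7936) (nat_lit 90) .nil))))))) (.g (nat_lit 5) .nil .nil))))) (.nd (nat_lit 4) (.nd (nat_lit 5) 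
(.lf (nat_lit 209162) (.g (nat_lit 1562) (.e (nat_lit 81946) (nat_lit 20) (.e (nat_lit 2006) (nat_lit 138) (.e (nat_lit 671748) (nat_lit 0) (.e (nat_lit 1598) (nat_lit 111) (.e (nat_lit 360455) (nat_lit 0) (.e (nat_lit 5813) (nat_lit 320) (.e (nat_lit 7936) (nat_lit 90) .nil))))))) (.g (nat_lit 4) .nil .nil))) 
(.lf (nat_lit 209194) (.g (nat_lit 1797) (.e (nat_lit 81946) (nat_lit 20) (.e (nat_lit 2280) (nat_lit 150) (.e (nat_lit 770057) (nat_lit 5) (.e (nat_lit 1586) (nat_lit 111) (.e (nat_lit 360450) (nat_lit 0) (.e (nat_lit 7119) (nat_lit 382) (.e (nat_lit 7936) (nat_lit 90) .nil))))))) (.g (nat_lit 5) .nil .nil)))) (.nd (nat_lit 5) 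
(.lf (nat_lit 209178) (.g (nat_lit 425) (.e (nat_lit 81946) (nat_lit 20) (.e (nat_lit 2270) (nat_lit 149) (.e (nat_lit 761867) (nat_lit 5) .nil))) .nil)) 
(.lf (nat_lit 209210) (.g (nat_lit 2851) (.e (nat_lit 81946) (nat_lit 20) (.e (nat_lit 2280) (nat_lit 150) (.e (nat_lit 770071) (nat_lit 8) (.e (nat_lit 65610) (nat_lit 10) (.e (nat_lit 344097) (nat_lit 18) (.e (nat_lit 7146) (nat_lit 382) (.e (nat_lit 1217) (nat_lit 90) .nil))))))) (.g (nat_lit 5) .nil .nil)))))) (.nd (nat_lit 3) (.nd (nat_lit 4) (.nd (nat_lit 5) 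
(.lf (nat_lit 209158) (.g (nat_lit 717) (.e (nat_lit 81946) (nat_lit 20) (.e (nat_lit 2006) (nat_lit 138) (.e (nat_lit 671748) (nat_lit 0) (.e (nat_lit 1592) (nat_lit 111) .nil)))) .nil)) 
(.lf (nat_lit 209190) (.g (nat_lit 1904) (.e (nat_lit 81946) (nat_lit 20) (.e (nat_lit 2280) (nat_lit 150) (.e (nat_lit 770055) (nat_lit 5) (.e (nat_lit 1586) (nat_lit 111) (.e (nat_lit 360451) (nat_lit 0) (.e (nat_lit 7124) (nat_lit 382) (.e (nat_lit 7936) (nat_lit 90) .nil))))))) (.g (nat_lit 4) .nil .nil)))) (.nd (nat_lit 5) 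
(.lf (nat_lit 209174) (.g (nat_lit 1420) (.e (nat_lit 81946) (nat_lit 20) (.e (nat_lit 2006) (nat_lit 138) (.e (nat_lit 671764) (nat_lit 6) (.e (nat_lit 81947) (nat_lit 20) (.e (nat_lit 2003) (nat_lit 138) (.e (nat_lit 671764) (nat_lit 6) .nil)))))) (.g (nat_lit 4) .nil .nil))) 
(.lf (nat_lit 209206) (.g (nat_lit 1589) (.e (nat_lit 81946) (nat_lit 20) (.e (nat_lit 2280) (nat_lit 150) (.e (nat_lit 770058) (nat_lit 5) (.e (nat_lit 1589) (nat_lit 111) (.e (nat_lit 360449) (nat_lit 0) (.e (nat_lit 7125) (nat_lit 382) (.e (nat_lit 1224) (nat_lit 90) .nil))))))) (.g (nat_lit 4) .nil .nil))))) (.nd (nat_lit 4) (.nd (nat_lit 5) 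
(.lf (nat_lit 209166) (.g (nat_lit 3832) (.e (nat_lit 81946) (nat_lit 20) (.e (nat_lit 2006) (nat_lit 138) (.e (nat_lit 671762) (nat_lit 4) (.e (nat_lit 65619) (nat_lit 10) (.e (nat_lit 344097) (nat_lit 18) (.e (nat_lit 5907) (nat_lit 320) (.e (nat_lit 1219) (nat_lit 90) .nil))))))) (.g (nat_lit 0) .nil .nil))) 
(.lf (nat_lit 209198) (.g (nat_lit 1540) (.e (nat_lit 81946) (nat_lit 20) (.e (nat_lit 2280) (nat_lit 150) (.e (nat_lit 770057) (nat_lit 5) (.e (nat_lit 1589) (nat_lit 111) (.e (nat_lit 360488) (nat_lit 20) (.e (nat_lit 769792) (nat_lit 10) .nil)))))) (.g (nat_lit 4) .nil .nil)))) (.nd (nat_lit 5) 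
(.lf (nat_lit 209182) (.g (nat_lit 1739) (.e (nat_lit 81946) (nat_lit 20) (.e (nat_lit 2270) (nat_lit 149) (.e (nat_lit 761868) (nat_lit 5) (.e (nat_lit 1585) (nat_lit 111) (.e (nat_lit 360488) (nat_lit 20) (.e (nat_lit 769792) (nat_lit 10) .nil)))))) (.g (nat_lit 5) .nil .nil))) 
(.lf (nat_lit 209214) (.g (nat_lit 1859) (.e (nat_lit 81946) (nat_lit 20) (.e (nat_lit 2280) (nat_lit 150) (.e (nat_lit 770071) (nat_lit 8) (.e (nat_lit 65616) (nat_lit 10) (.e (nat_lit 344174) (nat_lit 42) (.e (nat_lit 769792) (nat_lit 10) .nil)))))) (.g (nat_lit 5) .nil .nil)))))))) (.nd (nat_lit 1) (.nd (nat_lit 2) (.nd (nat_lit 3) (.nd (nat_lit 4) (.nd (nat_lit 5) 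
(.lf (nat_lit 209153) (.g (nat_lit 1670) (.e (nat_lit 81946) (nat_lit 20) (.e (nat_lit 2006) (nat_lit 138) (.e (nat_lit 671748) (nat_lit 0) (.e (nat_lit 1575) (nat_lit 110) (.e (nat_lit 352258) (nat_lit 0) (.e (nat_lit 3716) (nat_lit 227) (.e (nat_lit 778325) (nat_lit 6) .nil))))))) (.g (nat_lit 0) .nil .nil))) 
(.lf (nat_lit 209185) (.g (nat_lit 2588) (.e (nat_lit 81946) (nat_lit 20) (.e (nat_lit 2270) (nat_lit 149) (.e (nat_lit 761868) (nat_lit 5) (.e (nat_lit 1597) (nat_lit 111) (.e (nat_lit 360452) (nat_lit 0) (.e (nat_lit 7147) (nat_lit 382) (.e (nat_lit 1217) (nat_lit 90) .nil))))))) (.g (nat_lit 6) .nil .nil)))) (.nd (nat_lit 5) 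
(.lf (nat_lit 209169) (.g (nat_lit 2965) (.e (nat_lit 81946) (nat_lit 20) (.e (nat_lit 2006) (nat_lit 138) (.e (nat_lit 671762) (nat_lit 4) (.e (nat_lit 65624) (nat_lit 12) (.e (nat_lit 385094) (nat_lit 49) (.e (nat_lit 778327) (nat_lit 6) .nil)))))) (.g (nat_lit 0) .nil .nil))) 
(.lf (nat_lit 209201) (.g (nat_lit 1385) (.e (nat_lit 81946) (nat_lit 20) (.e (nat_lit 2280) (nat_lit 150) (.e (nat_lit 770057) (nat_lit 5) (.e (nat_lit 1595) (nat_lit 111) (.e (nat_lit 360488) (nat_lit 20) (.e (nat_lit 769792) (nat_lit 10) .nil)))))) (.g (nat_lit 4) .nil .nil))))) (.nd (nat_lit 4) (.nd (nat_lit 5) 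
(.lf (nat_lit 209161) (.g (nat_lit 1204) (.e (nat_lit 81946) (nat_lit 20) (.e (nat_lit 2006) (nat_lit 138) (.e (nat_lit 671748) (nat_lit 0) (.e (nat_lit 1595) (nat_lit 111) (.e (nat_lit 360457) (nat_lit 0) .nil))))) .nil)) 
(.lf (nat_lit 209193) (.g (nat_lit 1815) (.e (nat_lit 81946) (nat_lit 20) (.e (nat_lit 2280) (nat_lit 150) (.e (nat_lit 770055) (nat_lit 5) (.e (nat_lit 1598) (nat_lit 111) (.e (nat_lit 360449) (nat_lit 0) (.e (nat_lit 7122) (nat_lit 382) (.e (nat_lit 7936) (nat_lit 90) .nil))))))) (.g (nat_lit 5) .nil .nil)))) (.nd (nat_lit 5) 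
(.lf (nat_lit 209177) (.g (nat_lit 429) (.e (nat_lit 81946) (nat_lit 20) (.e (nat_lit 2270) (nat_lit 149) (.e (nat_lit 761866) (nat_lit 5) .nil))) .nil)) 
(.lf (nat_lit 209209) (.g (nat_lit 1803) (.e (nat_lit 81946) (nat_lit 20) (.e (nat_lit 2280) (nat_lit 150) (.e (nat_lit 770071) (nat_lit 8) (.e (nat_lit 65610) (nat_lit 10) (.e (nat_lit 344090) (nat_lit 18) (.e (nat_lit 7124) (nat_lit 382) (.e (nat_lit 7936) (nat_lit 90) .nil))))))) (.g (nat_lit 4) .nil .nil)))))) (.nd (nat_lit 3) (.nd (nat_lit 4) (.nd (nat_lit 5) 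
(.lf (nat_lit 209157) (.g (nat_lit 3492) (.e (nat_lit 81946) (nat_lit 20) (.e (nat_lit 2006) (nat_lit 138) (.e (nat_lit 671748) (nat_lit 0) (.e (nat_lit 1589) (nat_lit 111) (.e (nat_lit 360453) (nat_lit 0) (.e (nat_lit 5907) (nat_lit 320) (.e (nat_lit 1219) (nat_lit 90) .nil))))))) (.g (nat_lit 0) .nil .nil))) 
(.lf (nat_lit 209189) (.g (nat_lit 1670) (.e (nat_lit 81946) (nat_lit 20) (.e (nat_lit 2280) (nat_lit 150) (.e (nat_lit 770055) (nat_lit 5) (.e (nat_lit 1586) (nat_lit 111) (.e (nat_lit 360451) (nat_lit 0) (.e (nat_lit 7119) (nat_lit 382) (.e (nat_lit 7936) (nat_lit 90) .nil))))))) (.g (nat_lit 4) .nil .nil)))) (.nd (nat_lit 5) 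
(.lf (nat_lit 209173) (.g (nat_lit 1972) (.e (nat_lit 81946) (nat_lit 20) (.e (nat_lit 2006) (nat_lit 138) (.e (nat_lit 671764) (nat_lit 6) (.e (nat_lit 81946) (nat_lit 20) (.e (nat_lit 2006) (nat_lit 138) (.e (nat_lit 671764) (nat_lit 6) .nil)))))) (.g (nat_lit 0) .nil .nil))) 
(.lf (nat_lit 209205) (.g (nat_lit 1105) (.e (nat_lit 81946) (nat_lit 20) (.e (nat_lit 2280) (nat_lit 150) (.e (nat_lit 770057) (nat_lit 5) (.e (nat_lit 1598) (nat_lit 111) (.e (nat_lit 360488) (nat_lit 20) (.e (nat_lit 769792) (nat_lit 10) .nil)))))) (.g (nat_lit 4) .nil .nil))))) (.nd (nat_lit 4) (.nd (nat_lit 5) 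
(.lf (nat_lit 209165) (.g (nat_lit 3966) (.e (nat_lit 81946) (nat_lit 20) (.e (nat_lit 2006) (nat_lit 138) (.e (nat_lit 671762) (nat_lit 4) (.e (nat_lit 65610) (nat_lit 10) (.e (nat_lit 344097) (nat_lit 18) (.e (nat_lit 5907) (nat_lit 320) (.e (nat_lit 1219) (nat_lit 90) .nil))))))) (.g (nat_lit 0) .nil .nil))) 
(.lf (nat_lit 209197) (.g (nat_lit 1113) (.e (nat_lit 81946) (nat_lit 20) (.e (nat_lit 2280) (nat_lit 150) (.e (nat_lit 770057) (nat_lit 5) (.e (nat_lit 1589) (nat_lit 111) (.e (nat_lit 360449) (nat_lit 0) .nil))))) .nil))) (.nd (nat_lit 5) 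
(.lf (nat_lit 209181) (.g (nat_lit 1533) (.e (nat_lit 81946) (nat_lit 20) (.e (nat_lit 2270) (nat_lit 149) (.e (nat_lit 761868) (nat_lit 5) (.e (nat_lit 1585) (nat_lit 111) (.e (nat_lit 360449) (nat_lit 0) (.e (nat_lit 7122) (nat_lit 382) (.e (nat_lit 7936) (nat_lit 90) .nil))))))) (.g (nat_lit 4) .nil .nil))) 
(.lf (nat_lit 209213) (.g (nat_lit 1984) (.e (nat_lit 81946) (nat_lit 20) (.e (nat_lit 2280) (nat_lit 150) (.e (nat_lit 770071) (nat_lit 8) (.e (nat_lit 65611) (nat_lit 10) (.e (nat_lit 344174) (nat_lit 42) (.e (nat_lit 769792) (nat_lit 10) .nil)))))) (.g (nat_lit 5) .nil .nil))))))) (.nd (nat_lit 2) (.nd (nat_lit 3) (.nd (nat_lit 4) (.nd (nat_lit 5) 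
(.lf (nat_lit 209155) (.g (nat_lit 1550) (.e (nat_lit 81946) (nat_lit 20) (.e (nat_lit 2006) (nat_lit 138) (.e (nat_lit 671748) (nat_lit 0) (.e (nat_lit 1575) (nat_lit 110) (.e (nat_lit 352270) (nat_lit 8) (.e (nat_lit 270080) (nat_lit 6) .nil)))))) (.g (nat_lit 5) .nil .nil))) 
(.lf (nat_lit 209187) (.g (nat_lit 2183) (.e (nat_lit 81946) (nat_lit 20) (.e (nat_lit 2270) (nat_lit 149) (.e (nat_lit 761868) (nat_lit 5) (.e (nat_lit 1597) (nat_lit 111) (.e (nat_lit 360488) (nat_lit 20) (.e (nat_lit 769792) (nat_lit 10) .nil)))))) (.g (nat_lit 5) .nil .nil)))) (.nd (nat_lit 5) 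
(.lf (nat_lit 209171) (.g (nat_lit 1565) (.e (nat_lit 81946) (nat_lit 20) (.e (nat_lit 2006) (nat_lit 138) (.e (nat_lit 671764) (nat_lit 6) (.e (nat_lit 81934) (nat_lit 20) (.e (nat_lit 1999) (nat_lit 137) (.e (nat_lit 663569) (nat_lit 6) .nil)))))) (.g (nat_lit 0) .nil .nil))) 
(.lf (nat_lit 209203) (.g (nat_lit 2799) (.e (nat_lit 81946) (nat_lit 20) (.e (nat_lit 2280) (nat_lit 150) (.e (nat_lit 770057) (nat_lit 5) (.e (nat_lit 1598) (nat_lit 111) (.e (nat_lit 360449) (nat_lit 0) (.e (nat_lit 7125) (nat_lit 382) (.e (nat_lit 1224) (nat_lit 90) .nil))))))) (.g (nat_lit 7) .nil .nil))))) (.nd (nat_lit 4) (.nd (nat_lit 5) 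
(.lf (nat_lit 209163) (.g (nat_lit 2960) (.e (nat_lit 81946) (nat_lit 20) (.e (nat_lit 2006) (nat_lit 138) (.e (nat_lit 671761) (nat_lit 4) (.e (nat_lit 65624) (nat_lit 12) (.e (nat_lit 385094) (nat_lit 49) (.e (nat_lit 778327) (nat_lit 6) .nil)))))) (.g (nat_lit 6) .nil .nil))) 
(.lf (nat_lit 209195) (.g (nat_lit 1424) (.e (nat_lit 81946) (nat_lit 20) (.e (nat_lit 2280) (nat_lit 150) (.e (nat_lit 770057) (nat_lit 5) (.e (nat_lit 1586) (nat_lit 111) (.e (nat_lit 360451) (nat_lit 0) (.e (nat_lit 7119) (nat_lit 382) (.e (nat_lit 7936) (nat_lit 90) .nil))))))) (.g (nat_lit 4) .nil .nil)))) (.nd (nat_lit 5) 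
(.lf (nat_lit 209179) (.g (nat_lit 395) (.e (nat_lit 81946) (nat_lit 20) (.e (nat_lit 2270) (nat_lit 149) (.e (nat_lit 761868) (nat_lit 5) .nil))) .nil)) 
(.lf (nat_lit 209211) (.g (nat_lit 1444) (.e (nat_lit 81946) (nat_lit 20) (.e (nat_lit 2280) (nat_lit 150) (.e (nat_lit 770071) (nat_lit 8) (.e (nat_lit 65610) (nat_lit 10) (.e (nat_lit 344173) (nat_lit 42) .nil))))) .nil))))) (.nd (nat_lit 3) (.nd (nat_lit 4) (.nd (nat_lit 5) 
(.lf (nat_lit 209159) (.g (nat_lit 3637) (.e (nat_lit 81946) (nat_lit 20) (.e (nat_lit 2006) (nat_lit 138) (.e (nat_lit 671748) (nat_lit 0) (.e (nat_lit 1595) (nat_lit 111) (.e (nat_lit 360453) (nat_lit 0) (.e (nat_lit 5907) (nat_lit 320) (.e (nat_lit 1219) (nat_lit 90) .nil))))))) (.g (nat_lit 0) .nil .nil))) 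
(.lf (nat_lit 209191) (.g (nat_lit 3826) (.e (nat_lit 81946) (nat_lit 20) (.e (nat_lit 2280) (nat_lit 150) (.e (nat_lit 770055) (nat_lit 5) (.e (nat_lit 1586) (nat_lit 111) (.e (nat_lit 360451) (nat_lit 0) (.e (nat_lit 7125) (nat_lit 382) (.e (nat_lit 1224) (nat_lit 90) .nil))))))) (.g (nat_lit 7) .nil .nil)))) (.nd (nat_lit 5) 
(.lf (nat_lit 209175) (.g (nat_lit 2012) (.e (nat_lit 81946) (nat_lit 20) (.e (nat_lit 2006) (nat_lit 138) (.e (nat_lit 671764) (nat_lit 6) (.e (nat_lit 81949) (nat_lit 21) (.e (nat_lit 57870) (nat_lit 264) (.e (nat_lit 1219) (nat_lit 90) .nil)))))) (.g (nat_lit 5) .nil .nil))) 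
(.lf (nat_lit 209207) (.g (nat_lit 1949) (.e (nat_lit 81946) (nat_lit 20) (.e (nat_lit 2280) (nat_lit 150) (.e (nat_lit 770058) (nat_lit 5) (.e (nat_lit 1589) (nat_lit 111) (.e (nat_lit 360451) (nat_lit 0) (.e (nat_lit 7125) (nat_lit 382) (.e (nat_lit 1224) (nat_lit 90) .nil))))))) (.g (nat_lit 4) .nil .nil))))) (.nd (nat_lit 4) (.nd (nat_lit 5) 
(.lf (nat_lit 209167) (.g (nat_lit 2593) (.e (nat_lit 81946) (nat_lit 20) (.e (nat_lit 2006) (nat_lit 138) (.e (nat_lit 671762) (nat_lit 4) (.e (nat_lit 65622) (nat_lit 12) (.e (nat_lit 385094) (nat_lit 49) (.e (nat_lit 778327) (nat_lit 6) .nil)))))) (.g (nat_lit 0) .nil .nil))) 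
(.lf (nat_lit 209199) (.g (nat_lit 1697) (.e (nat_lit 81946) (nat_lit 20) (.e (nat_lit 2280) (nat_lit 150) (.e (nat_lit 770057) (nat_lit 5) (.e (nat_lit 1595) (nat_lit 111) (.e (nat_lit 360449) (nat_lit 0) (.e (nat_lit 7122) (nat_lit 382) (.e (nat_lit 7936) (nat_lit 90) .nil))))))) (.g (nat_lit 4) .nil .nil)))) (.nd (nat_lit 5) 
(.lf (nat_lit 209183) (.g (nat_lit 1459) (.e (nat_lit 81946) (nat_lit 20) (.e (nat_lit 2270) (nat_lit 149) (.e (nat_lit 761868) (nat_lit 5) (.e (nat_lit 1597) (nat_lit 111) (.e (nat_lit 360449) (nat_lit 0) (.e (nat_lit 7119) (nat_lit 382) (.e (nat_lit 7936) (nat_lit 90) .nil))))))) (.g (nat_lit 4) .nil .nil))) 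
(.lf (nat_lit 209215) (.g (nat_lit 2561) (.e (nat_lit 81946) (nat_lit 20) (.e (nat_lit 2280) (nat_lit 150) (.e (nat_lit 770071) (nat_lit 8) (.e (nat_lit 65617) (nat_lit 10) (.e (nat_lit 344091) (nat_lit 18) (.e (nat_lit 7119) (nat_lit 382) (.e (nat_lit 7936) (nat_lit 90) .nil))))))) (.g (nat_lit 5) .nil .nil)))))))))

noncomputable def tv2762 : DT := (.nd (nat_lit 0) (.nd (nat_lit 1) (.nd (nat_lit 2) (.nd (nat_lit 3) (.nd (nat_lit 4) (.nd (nat_lit 5) 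
(.lf (nat_lit 209216) (.g (nat_lit 2620) (.e (nat_lit 81946) (nat_lit 20) (.e (nat_lit 2280) (nat_lit 150) (.e (nat_lit 770071) (nat_lit 8) (.e (nat_lit 65617) (nat_lit 10) (.e (nat_lit 344091) (nat_lit 18) (.e (nat_lit 7122) (nat_lit 382) (.e (nat_lit 7936) (nat_lit 90) .nil))))))) (.g (nat_lit 5) .nil .nil))) 
(.lf (nat_lit 209248) (.g (nat_lit 1807) (.e (nat_lit 81946) (nat_lit 20) (.e (nat_lit 2280) (nat_lit 150) (.e (nat_lit 770074) (nat_lit 10) (.e (nat_lit 81950) (nat_lit 21) (.e (nat_lit 57654) (nat_lit 152) (.e (nat_lit 1217) (nat_lit 90) .nil)))))) (.g (nat_lit 4) .nil .nil)))) (.nd (nat_lit 5) 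
(.lf (nat_lit 209232) (.g (nat_lit 1885) (.e (nat_lit 81946) (nat_lit 20) (.e (nat_lit 2280) (nat_lit 150) (.e (nat_lit 770072) (nat_lit 8) (.e (nat_lit 65611) (nat_lit 10) (.e (nat_lit 344174) (nat_lit 42) (.e (nat_lit 769792) (nat_lit 10) .nil)))))) (.g (nat_lit 5) .nil .nil))) 
(.lf (nat_lit 209264) (.g (nat_lit 2735) (.e (nat_lit 81946) (nat_lit 20) (.e (nat_lit 2281) (nat_lit 150) (.e (nat_lit 770057) (nat_lit 5) (.e (nat_lit 1589) (nat_lit 111) (.e (nat_lit 360489) (nat_lit 21) (.e (nat_lit 770074) (nat_lit 10) .nil)))))) (.g (nat_lit 0) .nil .nil))))) (.nd (nat_lit 4) (.nd (nat_lit 5) 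
(.lf (nat_lit 209224) (.g (nat_lit 1574) (.e (nat_lit 81946) (nat_lit 20) (.e (nat_lit 2280) (nat_lit 150) (.e (nat_lit 770071) (nat_lit 8) (.e (nat_lit 65617) (nat_lit 10) (.e (nat_lit 344175) (nat_lit 43) .nil))))) .nil)) 
(.lf (nat_lit 209256) (.g (nat_lit 2429) (.e (nat_lit 81946) (nat_lit 20) (.e (nat_lit 2281) (nat_lit 150) (.e (nat_lit 770057) (nat_lit 5) (.e (nat_lit 1586) (nat_lit 111) (.e (nat_lit 360450) (nat_lit 0) (.e (nat_lit 7119) (nat_lit 382) (.e (nat_lit 7936) (nat_lit 90) .nil))))))) (.g (nat_lit 6) .nil .nil)))) (.nd (nat_lit 5) 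
(.lf (nat_lit 209240) (.g (nat_lit 3094) (.e (nat_lit 81946) (nat_lit 20) (.e (nat_lit 2280) (nat_lit 150) (.e (nat_lit 770072) (nat_lit 8) (.e (nat_lit 65617) (nat_lit 10) (.e (nat_lit 344096) (nat_lit 18) (.e (nat_lit 7122) (nat_lit 382) (.e (nat_lit 7936) (nat_lit 90) .nil))))))) (.g (nat_lit 6) .nil .nil))) 
(.lf (nat_lit 209272) (.g (nat_lit 2991) (.e (nat_lit 81946) (nat_lit 20) (.e (nat_lit 2281) (nat_lit 150) (.e (nat_lit 770057) (nat_lit 5) (.e (nat_lit 1598) (nat_lit 111) (.e (nat_lit 360452) (nat_lit 0) (.e (nat_lit 7147) (nat_lit 382) (.e (nat_lit 1217) (nat_lit 90) .nil))))))) (.g (nat_lit 0) .nil .nil)))))) (.nd (nat_lit 3) (.nd (nat_lit 4) (.nd (nat_lit 5) 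
(.lf (nat_lit 209220) (.g (nat_lit 2648) (.e (nat_lit 81946) (nat_lit 20) (.e (nat_lit 2280) (nat_lit 150) (.e (nat_lit 770071) (nat_lit 8) (.e (nat_lit 65617) (nat_lit 10) (.e (nat_lit 344096) (nat_lit 18) (.e (nat_lit 7119) (nat_lit 382) (.e (nat_lit 7936) (nat_lit 90) .nil))))))) (.g (nat_lit 5) .nil .nil))) 
(.lf (nat_lit 209252) (.g (nat_lit 2186) (.e (nat_lit 81946) (nat_lit 20) (.e (nat_lit 2281) (nat_lit 150) (.e (nat_lit 770056) (nat_lit 5) (.e (nat_lit 1598) (nat_lit 111) (.e (nat_lit 360449) (nat_lit 0) (.e (nat_lit 7122) (nat_lit 382) (.e (nat_lit 7936) (nat_lit 90) .nil))))))) (.g (nat_lit 6) .nil .nil)))) (.nd (nat_lit 5) 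
(.lf (nat_lit 209236) (.g (nat_lit 1994) (.e (nat_lit 81946) (nat_lit 20) (.e (nat_lit 2280) (nat_lit 150) (.e (nat_lit 770072) (nat_lit 8) (.e (nat_lit 65617) (nat_lit 10) (.e (nat_lit 344091) (nat_lit 18) (.e (nat_lit 7124) (nat_lit 382) (.e (nat_lit 7936) (nat_lit 90) .nil))))))) (.g (nat_lit 4) .nil .nil))) 
(.lf (nat_lit 209268) (.g (nat_lit 1963) (.e (nat_lit 81946) (nat_lit 20) (.e (nat_lit 2281) (nat_lit 150) (.e (nat_lit 770057) (nat_lit 5) (.e (nat_lit 1595) (nat_lit 111) (.e (nat_lit 360488) (nat_lit 20) (.e (nat_lit 769792) (nat_lit 10) .nil)))))) (.g (nat_lit 5) .nil .nil))))) (.nd (nat_lit 4) (.nd (nat_lit 5) 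
(.lf (nat_lit 209228) (.g (nat_lit 2131) (.e (nat_lit 81946) (nat_lit 20) (.e (nat_lit 2280) (nat_lit 150) (.e (nat_lit 770072) (nat_lit 8) (.e (nat_lit 65583) (nat_lit 7) (.e (nat_lit 319516) (nat_lit 11) (.e (nat_lit 8544) (nat_lit 230) (.e (nat_lit 1217) (nat_lit 90) .nil))))))) (.g (nat_lit 4) .nil .nil))) 
(.lf (nat_lit 209260) (.g (nat_lit 1754) (.e (nat_lit 81946) (nat_lit 20) (.e (nat_lit 2281) (nat_lit 150) (.e (nat_lit 770057) (nat_lit 5) (.e (nat_lit 1589) (nat_lit 111) (.e (nat_lit 360449) (nat_lit 0) (.e (nat_lit 7124) (nat_lit 382) (.e (nat_lit 7936) (nat_lit 90) .nil))))))) (.g (nat_lit 4) .nil .nil)))) (.nd (nat_lit 5) 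
(.lf (nat_lit 209244) (.g (nat_lit 1968) (.e (nat_lit 81946) (nat_lit 20) (.e (nat_lit 2280) (nat_lit 150) (.e (nat_lit 770072) (nat_lit 8) (.e (nat_lit 65619) (nat_lit 10) (.e (nat_lit 344090) (nat_lit 18) (.e (nat_lit 7119) (nat_lit 382) (.e (nat_lit 7936) (nat_lit 90) .nil))))))) (.g (nat_lit 4) .nil .nil))) 
(.lf (nat_lit 209276) (.g (nat_lit 2452) (.e (nat_lit 81946) (nat_lit 20) (.e (nat_lit 2281) (nat_lit 150) (.e (nat_lit 770058) (nat_lit 5) (.e (nat_lit 1586) (nat_lit 111) (.e (nat_lit 360450) (nat_lit 0) (.e (nat_lit 7119) (nat_lit 382) (.e (nat_lit 7936) (nat_lit 90) .nil))))))) (.g (nat_lit 6) .nil .nil))))))) (.nd (nat_lit 2) (.nd (nat_lit 3) (.nd (nat_lit 4) (.nd (nat_lit 5) 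
(.lf (nat_lit 209218) (.g (nat_lit 1905) (.e (nat_lit 81946) (nat_lit 20) (.e (nat_lit 2280) (nat_lit 150) (.e (nat_lit 770071) (nat_lit 8) (.e (nat_lit 65617) (nat_lit 10) (.e (nat_lit 344095) (nat_lit 18) (.e (nat_lit 7119) (nat_lit 382) (.e (nat_lit 7936) (nat_lit 90) .nil))))))) (.g (nat_lit 4) .nil .nil))) 
(.lf (nat_lit 209250) (.g (nat_lit 1913) (.e (nat_lit 81946) (nat_lit 20) (.e (nat_lit 2281) (nat_lit 150) (.e (nat_lit 770054) (nat_lit 5) (.e (nat_lit 1615) (nat_lit 113) (.e (nat_lit 376860) (nat_lit 21) (.e (nat_lit 57665) (nat_lit 152) (.e (nat_lit 7936) (nat_lit 90) .nil))))))) (.g (nat_lit 5) .nil .nil)))) (.nd (nat_lit 5) 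
(.lf (nat_lit 209234) (.g (nat_lit 2466) (.e (nat_lit 81946) (nat_lit 20) (.e (nat_lit 2280) (nat_lit 150) (.e (nat_lit 770072) (nat_lit 8) (.e (nat_lit 65617) (nat_lit 10) (.e (nat_lit 344091) (nat_lit 18) (.e (nat_lit 7119) (nat_lit 382) (.e (nat_lit 7936) (nat_lit 90) .nil))))))) (.g (nat_lit 5) .nil .nil))) 
(.lf (nat_lit 209266) (.g (nat_lit 2146) (.e (nat_lit 81946) (nat_lit 20) (.e (nat_lit 2281) (nat_lit 150) (.e (nat_lit 770057) (nat_lit 5) (.e (nat_lit 1595) (nat_lit 111) (.e (nat_lit 360449) (nat_lit 0) (.e (nat_lit 7122) (nat_lit 382) (.e (nat_lit 7936) (nat_lit 90) .nil))))))) (.g (nat_lit 5) .nil .nil))))) (.nd (nat_lit 4) (.nd (nat_lit 5) 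
(.lf (nat_lit 209226) (.g (nat_lit 2456) (.e (nat_lit 81946) (nat_lit 20) (.e (nat_lit 2280) (nat_lit 150) (.e (nat_lit 770071) (nat_lit 8) (.e (nat_lit 65619) (nat_lit 10) (.e (nat_lit 344174) (nat_lit 42) (.e (nat_lit 769792) (nat_lit 10) .nil)))))) (.g (nat_lit 5) .nil .nil))) 
(.lf (nat_lit 209258) (.g (nat_lit 1954) (.e (nat_lit 81946) (nat_lit 20) (.e (nat_lit 2281) (nat_lit 150) (.e (nat_lit 770057) (nat_lit 5) (.e (nat_lit 1586) (nat_lit 111) (.e (nat_lit 360451) (nat_lit 0) (.e (nat_lit 7119) (nat_lit 382) (.e (nat_lit 7936) (nat_lit 90) .nil))))))) (.g (nat_lit 5) .nil .nil)))) (.nd (nat_lit 5) 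
(.lf (nat_lit 209242) (.g (nat_lit 2102) (.e (nat_lit 81946) (nat_lit 20) (.e (nat_lit 2280) (nat_lit 150) (.e (nat_lit 770072) (nat_lit 8) (.e (nat_lit 65617) (nat_lit 10) (.e (nat_lit 344174) (nat_lit 42) (.e (nat_lit 769792) (nat_lit 10) .nil)))))) (.g (nat_lit 4) .nil .nil))) 
(.lf (nat_lit 209274) (.g (nat_lit 1589) (.e (nat_lit 81946) (nat_lit 20) (.e (nat_lit 2281) (nat_lit 150) (.e (nat_lit 770057) (nat_lit 5) (.e (nat_lit 1599) (nat_lit 111) (.e (nat_lit 360488) (nat_lit 20) (.e (nat_lit 769792) (nat_lit 10) .nil)))))) (.g (nat_lit 5) .nil .nil)))))) (.nd (nat_lit 3) (.nd (nat_lit 4) (.nd (nat_lit 5) 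
(.lf (nat_lit 209222) (.g (nat_lit 3971) (.e (nat_lit 81946) (nat_lit 20) (.e (nat_lit 2280) (nat_lit 150) (.e (nat_lit 770071) (nat_lit 8) (.e (nat_lit 65617) (nat_lit 10) (.e (nat_lit 344096) (nat_lit 18) (.e (nat_lit 7125) (nat_lit 382) (.e (nat_lit 1224) (nat_lit 90) .nil))))))) (.g (nat_lit 7) .nil .nil))) 
(.lf (nat_lit 209254) (.g (nat_lit 2991) (.e (nat_lit 81946) (nat_lit 20) (.e (nat_lit 2281) (nat_lit 150) (.e (nat_lit 770056) (nat_lit 5) (.e (nat_lit 1598) (nat_lit 111) (.e (nat_lit 360452) (nat_lit 0) (.e (nat_lit 7147) (nat_lit 382) (.e (nat_lit 1217) (nat_lit 90) .nil))))))) (.g (nat_lit 7) .nil .nil)))) (.nd (nat_lit 5) 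
(.lf (nat_lit 209238) (.g (nat_lit 2420) (.e (nat_lit 81946) (nat_lit 20) (.e (nat_lit 2280) (nat_lit 150) (.e (nat_lit 770072) (nat_lit 8) (.e (nat_lit 65617) (nat_lit 10) (.e (nat_lit 344095) (nat_lit 18) (.e (nat_lit 7122) (nat_lit 382) (.e (nat_lit 7936) (nat_lit 90) .nil))))))) (.g (nat_lit 6) .nil .nil))) 
(.lf (nat_lit 209270) (.g (nat_lit 2198) (.e (nat_lit 81946) (nat_lit 20) (.e (nat_lit 2281) (nat_lit 150) (.e (nat_lit 770057) (nat_lit 5) (.e (nat_lit 1598) (nat_lit 111) (.e (nat_lit 360449) (nat_lit 0) (.e (nat_lit 7122) (nat_lit 382) (.e (nat_lit 7936) (nat_lit 90) .nil))))))) (.g (nat_lit 6) .nil .nil))))) (.nd (nat_lit 4) (.nd (nat_lit 5) 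
(.lf (nat_lit 209230) (.g (nat_lit 1947) (.e (nat_lit 81946) (nat_lit 20) (.e (nat_lit 2280) (nat_lit 150) (.e (nat_lit 770072) (nat_lit 8) (.e (nat_lit 65610) (nat_lit 10) (.e (nat_lit 344090) (nat_lit 18) (.e (nat_lit 7124) (nat_lit 382) (.e (nat_lit 7936) (nat_lit 90) .nil))))))) (.g (nat_lit 4) .nil .nil))) 
(.lf (nat_lit 209262) (.g (nat_lit 3006) (.e (nat_lit 81946) (nat_lit 20) (.e (nat_lit 2281) (nat_lit 150) (.e (nat_lit 770057) (nat_lit 5) (.e (nat_lit 1589) (nat_lit 111) (.e (nat_lit 360453) (nat_lit 0) (.e (nat_lit 7147) (nat_lit 382) (.e (nat_lit 1217) (nat_lit 90) .nil))))))) (.g (nat_lit 7) .nil .nil)))) (.nd (nat_lit 5) 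
(.lf (nat_lit 209246) (.g (nat_lit 1886) (.e (nat_lit 81946) (nat_lit 20) (.e (nat_lit 2280) (nat_lit 150) (.e (nat_lit 770072) (nat_lit 8) (.e (nat_lit 65620) (nat_lit 10) (.e (nat_lit 344174) (nat_lit 42) (.e (nat_lit 769792) (nat_lit 10) .nil)))))) (.g (nat_lit 5) .nil .nil))) 
(.lf (nat_lit 209278) (.g (nat_lit 2085) (.e (nat_lit 81946) (nat_lit 20) (.e (nat_lit 2281) (nat_lit 150) (.e (nat_lit 770058) (nat_lit 5) (.e (nat_lit 1586) (nat_lit 111) (.e (nat_lit 360451) (nat_lit 0) (.e (nat_lit 7119) (nat_lit 382) (.e (nat_lit 7936) (nat_lit 90) .nil))))))) (.g (nat_lit 5) .nil .nil)))))))) 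
(.nd (nat_lit 1) (.nd (nat_lit 2) (.nd (nat_lit 3) (.nd (nat_lit 4) (.nd (nat_lit 5) 
(.lf (nat_lit 209217) (.g (nat_lit 2098) (.e (nat_lit 81946) (nat_lit 20) (.e (nat_lit 2280) (nat_lit 150) (.e (nat_lit 770071) (nat_lit 8) (.e (nat_lit 65617) (nat_lit 10) (.e (nat_lit 344091) (nat_lit 18) (.e (nat_lit 7124) (nat_lit 382) (.e (nat_lit 7936) (nat_lit 90) .nil))))))) (.g (nat_lit 5) .nil .nil))) 
(.lf (nat_lit 209249) (.g (nat_lit 1647) (.e (nat_lit 81946) (nat_lit 20) (.e (nat_lit 2280) (nat_lit 150) (.e (nat_lit 770074) (nat_lit 10) (.e (nat_lit 81950) (nat_lit 21) (.e (nat_lit 57655) (nat_lit 152) (.e (nat_lit 1217) (nat_lit 90) .nil)))))) (.g (nat_lit 4) .nil .nil)))) (.nd (nat_lit 5) 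
(.lf (nat_lit 209233) (.g (nat_lit 1838) (.e (nat_lit 81946) (nat_lit 20) (.e (nat_lit 2280) (nat_lit 150) (.e (nat_lit 770072) (nat_lit 8) (.e (nat_lit 65616) (nat_lit 10) (.e (nat_lit 344174) (nat_lit 42) (.e (nat_lit 769792) (nat_lit 10) .nil)))))) (.g (nat_lit 5) .nil .nil))) 
(.lf (nat_lit 209265) (.g (nat_lit 1441) (.e (nat_lit 81946) (nat_lit 20) (.e (nat_lit 2281) (nat_lit 150) (.e (nat_lit 770057) (nat_lit 5) (.e (nat_lit 1595) (nat_lit 111) (.e (nat_lit 360449) (nat_lit 0) (.e (nat_lit 7119) (nat_lit 382) (.e (nat_lit 7936) (nat_lit 90) .nil))))))) (.g (nat_lit 4) .nil .nil))))) (.nd (nat_lit 4) (.nd (nat_lit 5) 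
(.lf (nat_lit 209225) (.g (nat_lit 1891) (.e (nat_lit 81946) (nat_lit 20) (.e (nat_lit 2280) (nat_lit 150) (.e (nat_lit 770071) (nat_lit 8) (.e (nat_lit 65619) (nat_lit 10) (.e (nat_lit 344090) (nat_lit 18) (.e (nat_lit 7119) (nat_lit 382) (.e (nat_lit 7936) (nat_lit 90) .nil))))))) (.g (nat_lit 4) .nil .nil))) 
(.lf (nat_lit 209257) (.g (nat_lit 2723) (.e (nat_lit 81946) (nat_lit 20) (.e (nat_lit 2281) (nat_lit 150) (.e (nat_lit 770057) (nat_lit 5) (.e (nat_lit 1586) (nat_lit 111) (.e (nat_lit 360450) (nat_lit 0) (.e (nat_lit 7122) (nat_lit 382) (.e (nat_lit 7936) (nat_lit 90) .nil))))))) (.g (nat_lit 6) .nil .nil)))) (.nd (nat_lit 5) 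
(.lf (nat_lit 209241) (.g (nat_lit 3910) (.e (nat_lit 81946) (nat_lit 20) (.e (nat_lit 2280) (nat_lit 150) (.e (nat_lit 770072) (nat_lit 8) (.e (nat_lit 65617) (nat_lit 10) (.e (nat_lit 344096) (nat_lit 18) (.e (nat_lit 7125) (nat_lit 382) (.e (nat_lit 1224) (nat_lit 90) .nil))))))) (.g (nat_lit 7) .nil .nil))) 
(.lf (nat_lit 209273) (.g (nat_lit 1753) (.e (nat_lit 81946) (nat_lit 20) (.e (nat_lit 2281) (nat_lit 150) (.e (nat_lit 770057) (nat_lit 5) (.e (nat_lit 1598) (nat_lit 111) (.e (nat_lit 360488) (nat_lit 20) (.e (nat_lit 769792) (nat_lit 10) .nil)))))) (.g (nat_lit 5) .nil .nil)))))) (.nd (nat_lit 3) (.nd (nat_lit 4) (.nd (nat_lit 5) 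
(.lf (nat_lit 209221) (.g (nat_lit 3250) (.e (nat_lit 81946) (nat_lit 20) (.e (nat_lit 2280) (nat_lit 150) (.e (nat_lit 770071) (nat_lit 8) (.e (nat_lit 65617) (nat_lit 10) (.e (nat_lit 344096) (nat_lit 18) (.e (nat_lit 7122) (nat_lit 382) (.e (nat_lit 7936) (nat_lit 90) .nil))))))) (.g (nat_lit 6) .nil .nil))) 
(.lf (nat_lit 209253) (.g (nat_lit 1417) (.e (nat_lit 81946) (nat_lit 20) (.e (nat_lit 2281) (nat_lit 150) (.e (nat_lit 770056) (nat_lit 5) (.e (nat_lit 1598) (nat_lit 111) (.e (nat_lit 360449) (nat_lit 0) (.e (nat_lit 7124) (nat_lit 382) (.e (nat_lit 7936) (nat_lit 90) .nil))))))) (.g (nat_lit 4) .nil .nil)))) (.nd (nat_lit 5) 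
(.lf (nat_lit 209237) (.g (nat_lit 1877) (.e (nat_lit 81946) (nat_lit 20) (.e (nat_lit 2280) (nat_lit 150) (.e (nat_lit 770072) (nat_lit 8) (.e (nat_lit 65617) (nat_lit 10) (.e (nat_lit 344095) (nat_lit 18) (.e (nat_lit 7119) (nat_lit 382) (.e (nat_lit 7936) (nat_lit 90) .nil))))))) (.g (nat_lit 4) .nil .nil))) 
(.lf (nat_lit 209269) (.g (nat_lit 1583) (.e (nat_lit 81946) (nat_lit 20) (.e (nat_lit 2281) (nat_lit 150) (.e (nat_lit 770057) (nat_lit 5) (.e (nat_lit 1598) (nat_lit 111) (.e (nat_lit 360449) (nat_lit 0) (.e (nat_lit 7119) (nat_lit 382) (.e (nat_lit 7936) (nat_lit 90) .nil))))))) (.g (nat_lit 5) .nil .nil))))) (.nd (nat_lit 4) (.nd (nat_lit 5) 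
(.lf (nat_lit 209229) (.g (nat_lit 2317) (.e (nat_lit 81946) (nat_lit 20) (.e (nat_lit 2280) (nat_lit 150) (.e (nat_lit 770072) (nat_lit 8) (.e (nat_lit 65610) (nat_lit 10) (.e (nat_lit 344090) (nat_lit 18) (.e (nat_lit 7119) (nat_lit 382) (.e (nat_lit 7936) (nat_lit 90) .nil))))))) (.g (nat_lit 5) .nil .nil))) 
(.lf (nat_lit 209261) (.g (nat_lit 3892) (.e (nat_lit 81946) (nat_lit 20) (.e (nat_lit 2281) (nat_lit 150) (.e (nat_lit 770057) (nat_lit 5) (.e (nat_lit 1589) (nat_lit 111) (.e (nat_lit 360451) (nat_lit 0) (.e (nat_lit 7125) (nat_lit 382) (.e (nat_lit 1224) (nat_lit 90) .nil))))))) (.g (nat_lit 7) .nil .nil)))) (.nd (nat_lit 5) 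
(.lf (nat_lit 209245) (.g (nat_lit 2217) (.e (nat_lit 81946) (nat_lit 20) (.e (nat_lit 2280) (nat_lit 150) (.e (nat_lit 770072) (nat_lit 8) (.e (nat_lit 65619) (nat_lit 10) (.e (nat_lit 344174) (nat_lit 42) (.e (nat_lit 769792) (nat_lit 10) .nil)))))) (.g (nat_lit 5) .nil .nil))) 
(.lf (nat_lit 209277) (.g (nat_lit 2748) (.e (nat_lit 81946) (nat_lit 20) (.e (nat_lit 2281) (nat_lit 150) (.e (nat_lit 770058) (nat_lit 5) (.e (nat_lit 1586) (nat_lit 111) (.e (nat_lit 360450) (nat_lit 0) (.e (nat_lit 7122) (nat_lit 382) (.e (nat_lit 7936) (nat_lit 90) .nil))))))) (.g (nat_lit 6) .nil .nil))))))) (.nd (nat_lit 2) (.nd (nat_lit 3) (.nd (nat_lit 4) (.nd (nat_lit 5) 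
(.lf (nat_lit 209219) (.g (nat_lit 2450) (.e (nat_lit 81946) (nat_lit 20) (.e (nat_lit 2280) (nat_lit 150) (.e (nat_lit 770071) (nat_lit 8) (.e (nat_lit 65617) (nat_lit 10) (.e (nat_lit 344095) (nat_lit 18) (.e (nat_lit 7122) (nat_lit 382) (.e (nat_lit 7936) (nat_lit 90) .nil))))))) (.g (nat_lit 6) .nil .nil))) 
(.lf (nat_lit 209251) (.g (nat_lit 1568) (.e (nat_lit 81946) (nat_lit 20) (.e (nat_lit 2281) (nat_lit 150) (.e (nat_lit 770056) (nat_lit 5) (.e (nat_lit 1598) (nat_lit 111) (.e (nat_lit 360449) (nat_lit 0) (.e (nat_lit 7119) (nat_lit 382) (.e (nat_lit 7936) (nat_lit 90) .nil))))))) (.g (nat_lit 5) .nil .nil)))) (.nd (nat_lit 5) 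
(.lf (nat_lit 209235) (.g (nat_lit 2525) (.e (nat_lit 81946) (nat_lit 20) (.e (nat_lit 2280) (nat_lit 150) (.e (nat_lit 770072) (nat_lit 8) (.e (nat_lit 65617) (nat_lit 10) (.e (nat_lit 344091) (nat_lit 18) (.e (nat_lit 7122) (nat_lit 382) (.e (nat_lit 7936) (nat_lit 90) .nil))))))) (.g (nat_lit 5) .nil .nil))) 
(.lf (nat_lit 209267) (.g (nat_lit 2865) (.e (nat_lit 81946) (nat_lit 20) (.e (nat_lit 2281) (nat_lit 150) (.e (nat_lit 770057) (nat_lit 5) (.e (nat_lit 1595) (nat_lit 111) (.e (nat_lit 360453) (nat_lit 0) (.e (nat_lit 7147) (nat_lit 382) (.e (nat_lit 1217) (nat_lit 90) .nil))))))) (.g (nat_lit 0) .nil .nil))))) (.nd (nat_lit 4) (.nd (nat_lit 5) 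
(.lf (nat_lit 209227) (.g (nat_lit 1855) (.e (nat_lit 81946) (nat_lit 20) (.e (nat_lit 2280) (nat_lit 150) (.e (nat_lit 770071) (nat_lit 8) (.e (nat_lit 65620) (nat_lit 10) (.e (nat_lit 344174) (nat_lit 42) (.e (nat_lit 769792) (nat_lit 10) .nil)))))) (.g (nat_lit 5) .nil .nil))) 
(.lf (nat_lit 209259) (.g (nat_lit 1868) (.e (nat_lit 81946) (nat_lit 20) (.e (nat_lit 2281) (nat_lit 150) (.e (nat_lit 770057) (nat_lit 5) (.e (nat_lit 1589) (nat_lit 111) (.e (nat_lit 360449) (nat_lit 0) (.e (nat_lit 7119) (nat_lit 382) (.e (nat_lit 7936) (nat_lit 90) .nil))))))) (.g (nat_lit 5) .nil .nil)))) (.nd (nat_lit 5) 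
(.lf (nat_lit 209243) (.g (nat_lit 1565) (.e (nat_lit 81946) (nat_lit 20) (.e (nat_lit 2280) (nat_lit 150) (.e (nat_lit 770072) (nat_lit 8) (.e (nat_lit 65617) (nat_lit 10) (.e (nat_lit 344175) (nat_lit 43) .nil))))) .nil)) 
(.lf (nat_lit 209275) (.g (nat_lit 383) (.e (nat_lit 81946) (nat_lit 20) (.e (nat_lit 2281) (nat_lit 150) (.e (nat_lit 770058) (nat_lit 5) .nil))) .nil))))) (.nd (nat_lit 3) (.nd (nat_lit 4) (.nd (nat_lit 5) 
(.lf (nat_lit 209223) (.g (nat_lit 2160) (.e (nat_lit 81946) (nat_lit 20) (.e (nat_lit 2280) (nat_lit 150) (.e (nat_lit 770071) (nat_lit 8) (.e (nat_lit 65617) (nat_lit 10) (.e (nat_lit 344174) (nat_lit 42) (.e (nat_lit 769792) (nat_lit 10) .nil)))))) (.g (nat_lit 5) .nil .nil))) 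
(.lf (nat_lit 209255) (.g (nat_lit 1743) (.e (nat_lit 81946) (nat_lit 20) (.e (nat_lit 2281) (nat_lit 150) (.e (nat_lit 770056) (nat_lit 5) (.e (nat_lit 1598) (nat_lit 111) (.e (nat_lit 360488) (nat_lit 20) (.e (nat_lit 769792) (nat_lit 10) .nil)))))) (.g (nat_lit 5) .nil .nil)))) (.nd (nat_lit 5) 
(.lf (nat_lit 209239) (.g (nat_lit 2606) (.e (nat_lit 81946) (nat_lit 20) (.e (nat_lit 2280) (nat_lit 150) (.e (nat_lit 770072) (nat_lit 8) (.e (nat_lit 65617) (nat_lit 10) (.e (nat_lit 344096) (nat_lit 18) (.e (nat_lit 7119) (nat_lit 382) (.e (nat_lit 7936) (nat_lit 90) .nil))))))) (.g (nat_lit 5) .nil .nil))) 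
(.lf (nat_lit 209271) (.g (nat_lit 1432) (.e (nat_lit 81946) (nat_lit 20) (.e (nat_lit 2281) (nat_lit 150) (.e (nat_lit 770057) (nat_lit 5) (.e (nat_lit 1598) (nat_lit 111) (.e (nat_lit 360449) (nat_lit 0) (.e (nat_lit 7124) (nat_lit 382) (.e (nat_lit 7936) (nat_lit 90) .nil))))))) (.g (nat_lit 5) .nil .nil))))) (.nd (nat_lit 4) (.nd (nat_lit 5) 
(.lf (nat_lit 209231) (.g (nat_lit 2271) (.e (nat_lit 81946) (nat_lit 20) (.e (nat_lit 2280) (nat_lit 150) (.e (nat_lit 770072) (nat_lit 8) (.e (nat_lit 65610) (nat_lit 10) (.e (nat_lit 344174) (nat_lit 42) (.e (nat_lit 769792) (nat_lit 10) .nil)))))) (.g (nat_lit 5) .nil .nil))) 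
(.lf (nat_lit 209263) (.g (nat_lit 2277) (.e (nat_lit 81946) (nat_lit 20) (.e (nat_lit 2281) (nat_lit 150) (.e (nat_lit 770057) (nat_lit 5) (.e (nat_lit 1589) (nat_lit 111) (.e (nat_lit 360488) (nat_lit 20) (.e (nat_lit 769792) (nat_lit 10) .nil)))))) (.g (nat_lit 5) .nil .nil)))) (.nd (nat_lit 5) 
(.lf (nat_lit 209247) (.g (nat_lit 789) (.e (nat_lit 81946) (nat_lit 20) (.e (nat_lit 2280) (nat_lit 150) (.e (nat_lit 770074) (nat_lit 10) (.e (nat_lit 81931) (nat_lit 20) .nil)))) .nil)) 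
(.lf (nat_lit 209279) (.g (nat_lit 2059) (.e (nat_lit 81946) (nat_lit 20) (.e (nat_lit 2281) (nat_lit 150) (.e (nat_lit 770058) (nat_lit 5) (.e (nat_lit 1589) (nat_lit 111) (.e (nat_lit 360449) (nat_lit 0) (.e (nat_lit 7119) (nat_lit 382) (.e (nat_lit 7936) (nat_lit 90) .nil))))))) (.g (nat_lit 5) .nil .nil)))))))))

noncomputable def tv2763 : DT := (.nd (nat_lit 0) (.nd (nat_lit 1) (.nd (nat_lit 2) (.nd (nat_lit 3) (.nd (nat_lit 4) (.nd (nat_lit 5) 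
(.lf (nat_lit 209280) (.g (nat_lit 1941) (.e (nat_lit 81946) (nat_lit 20) (.e (nat_lit 2281) (nat_lit 150) (.e (nat_lit 770058) (nat_lit 5) (.e (nat_lit 1589) (nat_lit 111) (.e (nat_lit 360449) (nat_lit 0) (.e (nat_lit 7124) (nat_lit 382) (.e (nat_lit 7936) (nat_lit 90) .nil))))))) (.g (nat_lit 4) .nil .nil))) 
(.lf (nat_lit 209312) (.g (nat_lit 2435) (.e (nat_lit 81946) (nat_lit 20) (.e (nat_lit 2281) (nat_lit 150) (.e (nat_lit 770072) (nat_lit 8) (.e (nat_lit 65611) (nat_lit 10) (.e (nat_lit 344174) (nat_lit 42) (.e (nat_lit 769792) (nat_lit 10) .nil)))))) (.g (nat_lit 5) .nil .nil)))) (.nd (nat_lit 5) 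
(.lf (nat_lit 209296) (.g (nat_lit 2107) (.e (nat_lit 81946) (nat_lit 20) (.e (nat_lit 2281) (nat_lit 150) (.e (nat_lit 770058) (nat_lit 5) (.e (nat_lit 1599) (nat_lit 111) (.e (nat_lit 360489) (nat_lit 21) (.e (nat_lit 770074) (nat_lit 10) .nil)))))) (.g (nat_lit 0) .nil .nil))) 
(.lf (nat_lit 209328) (.g (nat_lit 3463) (.e (nat_lit 81946) (nat_lit 20) (.e (nat_lit 2281) (nat_lit 150) (.e (nat_lit 770072) (nat_lit 8) (.e (nat_lit 65619) (nat_lit 10) (.e (nat_lit 344097) (nat_lit 18) (.e (nat_lit 7147) (nat_lit 382) (.e (nat_lit 1217) (nat_lit 90) .nil))))))) (.g (nat_lit 0) .nil .nil))))) (.nd (nat_lit 4) (.nd (nat_lit 5) 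
(.lf (nat_lit 209288) (.g (nat_lit 2953) (.e (nat_lit 81946) (nat_lit 20) (.e (nat_lit 2281) (nat_lit 150) (.e (nat_lit 770058) (nat_lit 5) (.e (nat_lit 1595) (nat_lit 111) (.e (nat_lit 360453) (nat_lit 0) (.e (nat_lit 7147) (nat_lit 382) (.e (nat_lit 1217) (nat_lit 90) .nil))))))) (.g (nat_lit 0) .nil .nil))) 
(.lf (nat_lit 209320) (.g (nat_lit 2947) (.e (nat_lit 81946) (nat_lit 20) (.e (nat_lit 2281) (nat_lit 150) (.e (nat_lit 770072) (nat_lit 8) (.e (nat_lit 65617) (nat_lit 10) (.e (nat_lit 344095) (nat_lit 18) (.e (nat_lit 7122) (nat_lit 382) (.e (nat_lit 7936) (nat_lit 90) .nil))))))) (.g (nat_lit 6) .nil .nil)))) (.nd (nat_lit 5) 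
(.lf (nat_lit 209304) (.g (nat_lit 2995) (.e (nat_lit 81946) (nat_lit 20) (.e (nat_lit 2281) (nat_lit 150) (.e (nat_lit 770072) (nat_lit 8) (.e (nat_lit 65610) (nat_lit 10) (.e (nat_lit 344090) (nat_lit 18) (.e (nat_lit 7119) (nat_lit 382) (.e (nat_lit 7936) (nat_lit 90) .nil))))))) (.g (nat_lit 6) .nil .nil))) 
(.lf (nat_lit 209336) (.g (nat_lit 1640) (.e (nat_lit 81946) (nat_lit 20) (.e (nat_lit 2281) (nat_lit 150) (.e (nat_lit 770074) (nat_lit 10) (.e (nat_lit 81959) (nat_lit 24) (.e (nat_lit 130816) (nat_lit 152) .nil))))) .nil))))) (.nd (nat_lit 3) (.nd (nat_lit 4) (.nd (nat_lit 5) 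
(.lf (nat_lit 209284) (.g (nat_lit 2889) (.e (nat_lit 81946) (nat_lit 20) (.e (nat_lit 2281) (nat_lit 150) (.e (nat_lit 770058) (nat_lit 5) (.e (nat_lit 1589) (nat_lit 111) (.e (nat_lit 360489) (nat_lit 21) (.e (nat_lit 770074) (nat_lit 10) .nil)))))) (.g (nat_lit 0) .nil .nil))) 
(.lf (nat_lit 209316) (.g (nat_lit 3176) (.e (nat_lit 81946) (nat_lit 20) (.e (nat_lit 2281) (nat_lit 150) (.e (nat_lit 770072) (nat_lit 8) (.e (nat_lit 65617) (nat_lit 10) (.e (nat_lit 344091) (nat_lit 18) (.e (nat_lit 7122) (nat_lit 382) (.e (nat_lit 7936) (nat_lit 90) .nil))))))) (.g (nat_lit 6) .nil .nil)))) (.nd (nat_lit 5) 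
(.lf (nat_lit 209300) (.g (nat_lit 1627) (.e (nat_lit 81946) (nat_lit 20) (.e (nat_lit 2281) (nat_lit 150) (.e (nat_lit 770072) (nat_lit 8) (.e (nat_lit 65583) (nat_lit 7) (.e (nat_lit 319499) (nat_lit 10) .nil))))) .nil)) 
(.lf (nat_lit 209332) (.g (nat_lit 404) (.e (nat_lit 81946) (nat_lit 20) (.e (nat_lit 2281) (nat_lit 150) (.e (nat_lit 770074) (nat_lit 10) .nil))) .nil)))) (.nd (nat_lit 4) (.nd (nat_lit 5) 
(.lf (nat_lit 209292) (.g (nat_lit 1668) (.e (nat_lit 81946) (nat_lit 20) (.e (nat_lit 2281) (nat_lit 150) (.e (nat_lit 770058) (nat_lit 5) (.e (nat_lit 1598) (nat_lit 111) (.e (nat_lit 360449) (nat_lit 0) (.e (nat_lit 7124) (nat_lit 382) (.e (nat_lit 7936) (nat_lit 90) .nil))))))) (.g (nat_lit 5) .nil .nil))) 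
(.lf (nat_lit 209324) (.g (nat_lit 1778) (.e (nat_lit 81946) (nat_lit 20) (.e (nat_lit 2281) (nat_lit 150) (.e (nat_lit 770072) (nat_lit 8) (.e (nat_lit 65617) (nat_lit 10) (.e (nat_lit 344096) (nat_lit 18) (.e (nat_lit 7132) (nat_lit 382) (.e (nat_lit 7936) (nat_lit 90) .nil))))))) (.g (nat_lit 4) .nil .nil)))) (.nd (nat_lit 5) 
(.lf (nat_lit 209308) (.g (nat_lit 3261) (.e (nat_lit 81946) (nat_lit 20) (.e (nat_lit 2281) (nat_lit 150) (.e (nat_lit 770072) (nat_lit 8) (.e (nat_lit 65610) (nat_lit 10) (.e (nat_lit 344097) (nat_lit 18) (.e (nat_lit 7160) (nat_lit 382) (.e (nat_lit 1215) (nat_lit 90) .nil))))))) (.g (nat_lit 5) .nil .nil))) 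
(.lf (nat_lit 209340) (.g (nat_lit 1072) (.e (nat_lit 81946) (nat_lit 20) (.e (nat_lit 2391) (nat_lit 156) (.e (nat_lit 819219) (nat_lit 4) (.e (nat_lit 172087) (nat_lit 9) (.e (nat_lit 426428) (nat_lit 17) .nil))))) .nil)))))) (.nd (nat_lit 2) (.nd (nat_lit 3) (.nd (nat_lit 4) (.nd (nat_lit 5) 
(.lf (nat_lit 209282) (.g (nat_lit 3027) (.e (nat_lit 81946) (nat_lit 20) (.e (nat_lit 2281) (nat_lit 150) (.e (nat_lit 770058) (nat_lit 5) (.e (nat_lit 1589) (nat_lit 111) (.e (nat_lit 360453) (nat_lit 0) (.e (nat_lit 7147) (nat_lit 382) (.e (nat_lit 1217) (nat_lit 90) .nil))))))) (.g (nat_lit 7) .nil .nil))) 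
(.lf (nat_lit 209314) (.g (nat_lit 1152) (.e (nat_lit 81946) (nat_lit 20) (.e (nat_lit 2281) (nat_lit 150) (.e (nat_lit 770072) (nat_lit 8) (.e (nat_lit 65617) (nat_lit 10) .nil)))) .nil))) (.nd (nat_lit 5) 
(.lf (nat_lit 209298) (.g (nat_lit 2017) (.e (nat_lit 81946) (nat_lit 20) (.e (nat_lit 2281) (nat_lit 150) (.e (nat_lit 770071) (nat_lit 8) (.e (nat_lit 65617) (nat_lit 10) (.e (nat_lit 344096) (nat_lit 18) (.e (nat_lit 7125) (nat_lit 382) (.e (nat_lit 1224) (nat_lit 90) .nil))))))) (.g (nat_lit 4) .nil .nil))) 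
(.lf (nat_lit 209330) (.g (nat_lit 2826) (.e (nat_lit 81946) (nat_lit 20) (.e (nat_lit 2281) (nat_lit 150) (.e (nat_lit 770072) (nat_lit 8) (.e (nat_lit 65619) (nat_lit 10) (.e (nat_lit 344174) (nat_lit 42) (.e (nat_lit 769792) (nat_lit 10) .nil)))))) (.g (nat_lit 5) .nil .nil))))) (.nd (nat_lit 4) (.nd (nat_lit 5) 
(.lf (nat_lit 209290) (.g (nat_lit 1831) (.e (nat_lit 81946) (nat_lit 20) (.e (nat_lit 2281) (nat_lit 150) (.e (nat_lit 770058) (nat_lit 5) (.e (nat_lit 1598) (nat_lit 111) (.e (nat_lit 360449) (nat_lit 0) (.e (nat_lit 7119) (nat_lit 382) (.e (nat_lit 7936) (nat_lit 90) .nil))))))) (.g (nat_lit 5) .nil .nil))) 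
(.lf (nat_lit 209322) (.g (nat_lit 3696) (.e (nat_lit 81946) (nat_lit 20) (.e (nat_lit 2281) (nat_lit 150) (.e (nat_lit 770072) (nat_lit 8) (.e (nat_lit 65617) (nat_lit 10) (.e (nat_lit 344096) (nat_lit 18) (.e (nat_lit 7122) (nat_lit 382) (.e (nat_lit 7936) (nat_lit 90) .nil))))))) (.g (nat_lit 6) .nil .nil)))) (.nd (nat_lit 5) 
(.lf (nat_lit 209306) (.g (nat_lit 2625) (.e (nat_lit 81946) (nat_lit 20) (.e (nat_lit 2281) (nat_lit 150) (.e (nat_lit 770072) (nat_lit 8) (.e (nat_lit 65610) (nat_lit 10) (.e (nat_lit 344090) (nat_lit 18) (.e (nat_lit 7124) (nat_lit 382) (.e (nat_lit 7936) (nat_lit 90) .nil))))))) (.g (nat_lit 5) .nil .nil))) 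
(.lf (nat_lit 209338) (.g (nat_lit 2706) (.e (nat_lit 81946) (nat_lit 20) (.e (nat_lit 2281) (nat_lit 150) (.e (nat_lit 770076) (nat_lit 12) (.e (nat_lit 131116) (nat_lit 9) (.e (nat_lit 335988) (nat_lit 1) (.e (nat_lit 57665) (nat_lit 152) (.e (nat_lit 7936) (nat_lit 90) .nil))))))) (.g (nat_lit 6) .nil .nil)))))) (.nd (nat_lit 3) (.nd (nat_lit 4) (.nd (nat_lit 5) 
(.lf (nat_lit 209286) (.g (nat_lit 2376) (.e (nat_lit 81946) (nat_lit 20) (.e (nat_lit 2281) (nat_lit 150) (.e (nat_lit 770058) (nat_lit 5) (.e (nat_lit 1595) (nat_lit 111) (.e (nat_lit 360449) (nat_lit 0) (.e (nat_lit 7122) (nat_lit 382) (.e (nat_lit 7936) (nat_lit 90) .nil))))))) (.g (nat_lit 5) .nil .nil))) 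
(.lf (nat_lit 209318) (.g (nat_lit 1876) (.e (nat_lit 81946) (nat_lit 20) (.e (nat_lit 2281) (nat_lit 150) (.e (nat_lit 770072) (nat_lit 8) (.e (nat_lit 65617) (nat_lit 10) (.e (nat_lit 344091) (nat_lit 18) (.e (nat_lit 7132) (nat_lit 382) (.e (nat_lit 7936) (nat_lit 90) .nil))))))) (.g (nat_lit 4) .nil .nil)))) (.nd (nat_lit 5) 
(.lf (nat_lit 209302) (.g (nat_lit 1538) (.e (nat_lit 81946) (nat_lit 20) (.e (nat_lit 2281) (nat_lit 150) (.e (nat_lit 770072) (nat_lit 8) (.e (nat_lit 65609) (nat_lit 10) (.e (nat_lit 344174) (nat_lit 42) .nil))))) .nil)) 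
(.lf (nat_lit 209334) (.g (nat_lit 2731) (.e (nat_lit 81946) (nat_lit 20) (.e (nat_lit 2281) (nat_lit 150) (.e (nat_lit 770074) (nat_lit 10) (.e (nat_lit 81949) (nat_lit 21) (.e (nat_lit 57655) (nat_lit 152) (.e (nat_lit 1217) (nat_lit 90) .nil)))))) (.g (nat_lit 6) .nil .nil))))) (.nd (nat_lit 4) (.nd (nat_lit 5) 
(.lf (nat_lit 209294) (.g (nat_lit 1816) (.e (nat_lit 81946) (nat_lit 20) (.e (nat_lit 2281) (nat_lit 150) (.e (nat_lit 770058) (nat_lit 5) (.e (nat_lit 1598) (nat_lit 111) (.e (nat_lit 360488) (nat_lit 20) (.e (nat_lit 769792) (nat_lit 10) .nil)))))) (.g (nat_lit 5) .nil .nil))) 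
(.lf (nat_lit 209326) (.g (nat_lit 2631) (.e (nat_lit 81946) (nat_lit 20) (.e (nat_lit 2281) (nat_lit 150) (.e (nat_lit 770072) (nat_lit 8) (.e (nat_lit 65617) (nat_lit 10) (.e (nat_lit 344174) (nat_lit 42) (.e (nat_lit 769792) (nat_lit 10) .nil)))))) (.g (nat_lit 5) .nil .nil)))) (.nd (nat_lit 5) 
(.lf (nat_lit 209310) (.g (nat_lit 2716) (.e (nat_lit 81946) (nat_lit 20) (.e (nat_lit 2281) (nat_lit 150) (.e (nat_lit 770072) (nat_lit 8) (.e (nat_lit 65610) (nat_lit 10) (.e (nat_lit 344174) (nat_lit 42) (.e (nat_lit 769792) (nat_lit 10) .nil)))))) (.g (nat_lit 5) .nil .nil))) 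
(.lf (nat_lit 209342) (.g (nat_lit 548) (.e (nat_lit 81946) (nat_lit 20) (.e (nat_lit 2391) (nat_lit 156) (.e (nat_lit 819221) (nat_lit 6) (.e (nat_lit 188440) (nat_lit 20) .nil)))) .nil))))))) (.nd (nat_lit 1) (.nd (nat_lit 2) (.nd (nat_lit 3) (.nd (nat_lit 4) (.nd (nat_lit 5) 
(.lf (nat_lit 209281) (.g (nat_lit 4054) (.e (nat_lit 81946) (nat_lit 20) (.e (nat_lit 2281) (nat_lit 150) (.e (nat_lit 770058) (nat_lit 5) (.e (nat_lit 1589) (nat_lit 111) (.e (nat_lit 360451) (nat_lit 0) (.e (nat_lit 7125) (nat_lit 382) (.e (nat_lit 1224) (nat_lit 90) .nil))))))) (.g (nat_lit 7) .nil .nil))) 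
(.lf (nat_lit 209313) (.g (nat_lit 2394) (.e (nat_lit 81946) (nat_lit 20) (.e (nat_lit 2281) (nat_lit 150) (.e (nat_lit 770072) (nat_lit 8) (.e (nat_lit 65616) (nat_lit 10) (.e (nat_lit 344174) (nat_lit 42) (.e (nat_lit 769792) (nat_lit 10) .nil)))))) (.g (nat_lit 5) .nil .nil)))) (.nd (nat_lit 5) 
(.lf (nat_lit 209297) (.g (nat_lit 1419) (.e (nat_lit 81946) (nat_lit 20) (.e (nat_lit 2281) (nat_lit 150) (.e (nat_lit 770070) (nat_lit 8) (.e (nat_lit 65619) (nat_lit 10) (.e (nat_lit 344097) (nat_lit 18) (.e (nat_lit 7147) (nat_lit 382) (.e (nat_lit 1217) (nat_lit 90) .nil))))))) (.g (nat_lit 4) .nil .nil))) 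
(.lf (nat_lit 209329) (.g (nat_lit 1818) (.e (nat_lit 81946) (nat_lit 20) (.e (nat_lit 2281) (nat_lit 150) (.e (nat_lit 770072) (nat_lit 8) (.e (nat_lit 65619) (nat_lit 10) (.e (nat_lit 344173) (nat_lit 42) .nil))))) .nil)))) (.nd (nat_lit 4) (.nd (nat_lit 5) 
(.lf (nat_lit 209289) (.g (nat_lit 2004) (.e (nat_lit 81946) (nat_lit 20) (.e (nat_lit 2281) (nat_lit 150) (.e (nat_lit 770058) (nat_lit 5) (.e (nat_lit 1595) (nat_lit 111) (.e (nat_lit 360488) (nat_lit 20) (.e (nat_lit 769792) (nat_lit 10) .nil)))))) (.g (nat_lit 5) .nil .nil))) 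
(.lf (nat_lit 209321) (.g (nat_lit 3208) (.e (nat_lit 81946) (nat_lit 20) (.e (nat_lit 2281) (nat_lit 150) (.e (nat_lit 770072) (nat_lit 8) (.e (nat_lit 65617) (nat_lit 10) (.e (nat_lit 344096) (nat_lit 18) (.e (nat_lit 7119) (nat_lit 382) (.e (nat_lit 7936) (nat_lit 90) .nil))))))) (.g (nat_lit 6) .nil .nil)))) (.nd (nat_lit 5) 
(.lf (nat_lit 209305) (.g (nat_lit 2735) (.e (nat_lit 81946) (nat_lit 20) (.e (nat_lit 2281) (nat_lit 150) (.e (nat_lit 770072) (nat_lit 8) (.e (nat_lit 65610) (nat_lit 10) (.e (nat_lit 344090) (nat_lit 18) (.e (nat_lit 7122) (nat_lit 382) (.e (nat_lit 7936) (nat_lit 90) .nil))))))) (.g (nat_lit 5) .nil .nil))) 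
(.lf (nat_lit 209337) (.g (nat_lit 2106) (.e (nat_lit 81946) (nat_lit 20) (.e (nat_lit 2281) (nat_lit 150) (.e (nat_lit 770074) (nat_lit 10) (.e (nat_lit 81959) (nat_lit 24) (.e (nat_lit 130816) (nat_lit 152) (.e (nat_lit 1224) (nat_lit 90) .nil)))))) (.g (nat_lit 4) .nil .nil)))))) (.nd (nat_lit 3) (.nd (nat_lit 4) (.nd (nat_lit 5) 
(.lf (nat_lit 209285) (.g (nat_lit 1677) (.e (nat_lit 81946) (nat_lit 20) (.e (nat_lit 2281) (nat_lit 150) (.e (nat_lit 770058) (nat_lit 5) (.e (nat_lit 1595) (nat_lit 111) (.e (nat_lit 360449) (nat_lit 0) (.e (nat_lit 7119) (nat_lit 382) (.e (nat_lit 7936) (nat_lit 90) .nil))))))) (.g (nat_lit 4) .nil .nil))) 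
(.lf (nat_lit 209317) (.g (nat_lit 2645) (.e (nat_lit 81946) (nat_lit 20) (.e (nat_lit 2281) (nat_lit 150) (.e (nat_lit 770072) (nat_lit 8) (.e (nat_lit 65617) (nat_lit 10) (.e (nat_lit 344091) (nat_lit 18) (.e (nat_lit 7124) (nat_lit 382) (.e (nat_lit 7936) (nat_lit 90) .nil))))))) (.g (nat_lit 5) .nil .nil)))) (.nd (nat_lit 5) 
(.lf (nat_lit 209301) (.g (nat_lit 2058) (.e (nat_lit 81946) (nat_lit 20) (.e (nat_lit 2281) (nat_lit 150) (.e (nat_lit 770072) (nat_lit 8) (.e (nat_lit 65598) (nat_lit 9) (.e (nat_lit 335903) (nat_lit 0) .nil))))) .nil)) 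
(.lf (nat_lit 209333) (.g (nat_lit 2529) (.e (nat_lit 81946) (nat_lit 20) (.e (nat_lit 2281) (nat_lit 150) (.e (nat_lit 770074) (nat_lit 10) (.e (nat_lit 81948) (nat_lit 21) (.e (nat_lit 57655) (nat_lit 152) (.e (nat_lit 1217) (nat_lit 90) .nil)))))) (.g (nat_lit 0) .nil .nil))))) (.nd (nat_lit 4) (.nd (nat_lit 5) 
(.lf (nat_lit 209293) (.g (nat_lit 3092) (.e (nat_lit 81946) (nat_lit 20) (.e (nat_lit 2281) (nat_lit 150) (.e (nat_lit 770058) (nat_lit 5) (.e (nat_lit 1598) (nat_lit 111) (.e (nat_lit 360452) (nat_lit 0) (.e (nat_lit 7147) (nat_lit 382) (.e (nat_lit 1217) (nat_lit 90) .nil))))))) (.g (nat_lit 0) .nil .nil))) 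
(.lf (nat_lit 209325) (.g (nat_lit 2000) (.e (nat_lit 81946) (nat_lit 20) (.e (nat_lit 2281) (nat_lit 150) (.e (nat_lit 770072) (nat_lit 8) (.e (nat_lit 65617) (nat_lit 10) (.e (nat_lit 344173) (nat_lit 42) .nil))))) .nil))) (.nd (nat_lit 5) 
(.lf (nat_lit 209309) (.g (nat_lit 2436) (.e (nat_lit 81946) (nat_lit 20) (.e (nat_lit 2281) (nat_lit 150) (.e (nat_lit 770072) (nat_lit 8) (.e (nat_lit 65610) (nat_lit 10) (.e (nat_lit 344173) (nat_lit 42) (.e (nat_lit 769792) (nat_lit 10) .nil)))))) (.g (nat_lit 4) .nil .nil))) 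
(.lf (nat_lit 209341) (.g (nat_lit 1610) (.e (nat_lit 81946) (nat_lit 20) (.e (nat_lit 2391) (nat_lit 156) (.e (nat_lit 819219) (nat_lit 4) (.e (nat_lit 172113) (nat_lit 10) (.e (nat_lit 434239) (nat_lit 27) .nil))))) .nil)))))) (.nd (nat_lit 2) (.nd (nat_lit 3) (.nd (nat_lit 4) (.nd (nat_lit 5) 
(.lf (nat_lit 209283) (.g (nat_lit 2441) (.e (nat_lit 81946) (nat_lit 20) (.e (nat_lit 2281) (nat_lit 150) (.e (nat_lit 770058) (nat_lit 5) (.e (nat_lit 1589) (nat_lit 111) (.e (nat_lit 360488) (nat_lit 20) (.e (nat_lit 769792) (nat_lit 10) .nil)))))) (.g (nat_lit 5) .nil .nil))) 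
(.lf (nat_lit 209315) (.g (nat_lit 3117) (.e (nat_lit 81946) (nat_lit 20) (.e (nat_lit 2281) (nat_lit 150) (.e (nat_lit 770072) (nat_lit 8) (.e (nat_lit 65617) (nat_lit 10) (.e (nat_lit 344091) (nat_lit 18) (.e (nat_lit 7119) (nat_lit 382) (.e (nat_lit 7936) (nat_lit 90) .nil))))))) (.g (nat_lit 6) .nil .nil)))) (.nd (nat_lit 5) 
(.lf (nat_lit 209299) (.g (nat_lit 356) (.e (nat_lit 81946) (nat_lit 20) (.e (nat_lit 2281) (nat_lit 150) (.e (nat_lit 770072) (nat_lit 8) .nil))) .nil)) 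
(.lf (nat_lit 209331) (.g (nat_lit 2463) (.e (nat_lit 81946) (nat_lit 20) (.e (nat_lit 2281) (nat_lit 150) (.e (nat_lit 770072) (nat_lit 8) (.e (nat_lit 65620) (nat_lit 10) (.e (nat_lit 344174) (nat_lit 42) (.e (nat_lit 769792) (nat_lit 10) .nil)))))) (.g (nat_lit 5) .nil .nil))))) (.nd (nat_lit 4) (.nd (nat_lit 5) 
(.lf (nat_lit 209291) (.g (nat_lit 2438) (.e (nat_lit 81946) (nat_lit 20) (.e (nat_lit 2281) (nat_lit 150) (.e (nat_lit 770058) (nat_lit 5) (.e (nat_lit 1598) (nat_lit 111) (.e (nat_lit 360449) (nat_lit 0) (.e (nat_lit 7122) (nat_lit 382) (.e (nat_lit 7936) (nat_lit 90) .nil))))))) (.g (nat_lit 6) .nil .nil))) 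
(.lf (nat_lit 209323) (.g (nat_lit 2808) (.e (nat_lit 81946) (nat_lit 20) (.e (nat_lit 2281) (nat_lit 150) (.e (nat_lit 770072) (nat_lit 8) (.e (nat_lit 65617) (nat_lit 10) (.e (nat_lit 344096) (nat_lit 18) (.e (nat_lit 7124) (nat_lit 382) (.e (nat_lit 7936) (nat_lit 90) .nil))))))) (.g (nat_lit 5) .nil .nil)))) (.nd (nat_lit 5) 
(.lf (nat_lit 209307) (.g (nat_lit 2978) (.e (nat_lit 81946) (nat_lit 20) (.e (nat_lit 2281) (nat_lit 150) (.e (nat_lit 770072) (nat_lit 8) (.e (nat_lit 65610) (nat_lit 10) (.e (nat_lit 344097) (nat_lit 18) (.e (nat_lit 7145) (nat_lit 382) (.e (nat_lit 1217) (nat_lit 90) .nil))))))) (.g (nat_lit 5) .nil .nil))) 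
(.lf (nat_lit 209339) (.g (nat_lit 398) (.e (nat_lit 81946) (nat_lit 20) (.e (nat_lit 2391) (nat_lit 156) (.e (nat_lit 819219) (nat_lit 4) .nil))) .nil))))) (.nd (nat_lit 3) (.nd (nat_lit 4) (.nd (nat_lit 5) 
(.lf (nat_lit 209287) (.g (nat_lit 1467) (.e (nat_lit 81946) (nat_lit 20) (.e (nat_lit 2281) (nat_lit 150) (.e (nat_lit 770058) (nat_lit 5) (.e (nat_lit 1595) (nat_lit 111) (.e (nat_lit 360449) (nat_lit 0) (.e (nat_lit 7124) (nat_lit 382) (.e (nat_lit 7936) (nat_lit 90) .nil))))))) (.g (nat_lit 4) .nil .nil))) 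
(.lf (nat_lit 209319) (.g (nat_lit 2404) (.e (nat_lit 81946) (nat_lit 20) (.e (nat_lit 2281) (nat_lit 150) (.e (nat_lit 770072) (nat_lit 8) (.e (nat_lit 65617) (nat_lit 10) (.e (nat_lit 344095) (nat_lit 18) (.e (nat_lit 7119) (nat_lit 382) (.e (nat_lit 7936) (nat_lit 90) .nil))))))) (.g (nat_lit 5) .nil .nil)))) (.nd (nat_lit 5) 
(.lf (nat_lit 209303) (.g (nat_lit 1737) (.e (nat_lit 81946) (nat_lit 20) (.e (nat_lit 2281) (nat_lit 150) (.e (nat_lit 770072) (nat_lit 8) (.e (nat_lit 65610) (nat_lit 10) (.e (nat_lit 344090) (nat_lit 18) .nil))))) .nil)) 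
(.lf (nat_lit 209335) (.g (nat_lit 2782) (.e (nat_lit 81946) (nat_lit 20) (.e (nat_lit 2281) (nat_lit 150) (.e (nat_lit 770074) (nat_lit 10) (.e (nat_lit 81950) (nat_lit 21) (.e (nat_lit 57655) (nat_lit 152) (.e (nat_lit 1217) (nat_lit 90) .nil)))))) (.g (nat_lit 0) .nil .nil))))) (.nd (nat_lit 4) (.nd (nat_lit 5) 
(.lf (nat_lit 209295) (.g (nat_lit 1669) (.e (nat_lit 81946) (nat_lit 20) (.e (nat_lit 2281) (nat_lit 150) (.e (nat_lit 770058) (nat_lit 5) (.e (nat_lit 1599) (nat_lit 111) (.e (nat_lit 360488) (nat_lit 20) (.e (nat_lit 769792) (nat_lit 10) .nil)))))) (.g (nat_lit 5) .nil .nil))) 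
(.lf (nat_lit 209327) (.g (nat_lit 2578) (.e (nat_lit 81946) (nat_lit 20) (.e (nat_lit 2281) (nat_lit 150) (.e (nat_lit 770072) (nat_lit 8) (.e (nat_lit 65619) (nat_lit 10) (.e (nat_lit 344090) (nat_lit 18) (.e (nat_lit 7119) (nat_lit 382) (.e (nat_lit 7936) (nat_lit 90) .nil))))))) (.g (nat_lit 5) .nil .nil)))) (.nd (nat_lit 5) 
(.lf (nat_lit 209311) (.g (nat_lit 1930) (.e (nat_lit 81946) (nat_lit 20) (.e (nat_lit 2281) (nat_lit 150) (.e (nat_lit 770072) (nat_lit 8) (.e (nat_lit 65610) (nat_lit 10) (.e (nat_lit 344175) (nat_lit 43) .nil))))) .nil)) 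
(.lf (nat_lit 209343) (.g (nat_lit 1437) (.e (nat_lit 81947) (nat_lit 20) (.e (nat_lit 1040) (nat_lit 81) (.e (nat_lit 5906) (nat_lit 320) (.e (nat_lit 1221) (nat_lit 90) (.e (nat_lit 81959) (nat_lit 24) .nil))))) .nil))))))))

noncomputable def tv2764 : DT := (.nd (nat_lit 0) (.nd (nat_lit 1) (.nd (nat_lit 2) (.nd (nat_lit 3) (.nd (nat_lit 4) (.nd (nat_lit 5) 
(.lf (nat_lit 209344) (.g (nat_lit 2060) (.e (nat_lit 81947) (nat_lit 20) (.e (nat_lit 1788) (nat_lit 119) (.e (nat_lit 516139) (nat_lit 7) (.e (nat_lit 409623) (nat_lit 10) (.e (nat_lit 5664) (nat_lit 312) .nil))))) .nil)) 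
(.lf (nat_lit 209376) (.g (nat_lit 655) (.e (nat_lit 81947) (nat_lit 20) (.e (nat_lit 1886) (nat_lit 127) (.e (nat_lit 581653) (nat_lit 6) (.e (nat_lit 188438) (nat_lit 20) (.e (nat_lit 3577) (nat_lit 223) .nil))))) .nil))) (.nd (nat_lit 5) 
(.lf (nat_lit 209360) (.g (nat_lit 3954) (.e (nat_lit 81947) (nat_lit 20) (.e (nat_lit 1842) (nat_lit 123) (.e (nat_lit 548889) (nat_lit 9) (.e (nat_lit 65617) (nat_lit 10) (.e (nat_lit 344126) (nat_lit 25) (.e (nat_lit 548891) (nat_lit 11) .nil)))))) (.g (nat_lit 0) .nil .nil))) 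
(.lf (nat_lit 209392) (.g (nat_lit 1044) (.e (nat_lit 81947) (nat_lit 20) (.e (nat_lit 2003) (nat_lit 138) (.e (nat_lit 671747) (nat_lit 0) (.e (nat_lit 1569) (nat_lit 110) .nil)))) .nil)))) (.nd (nat_lit 4) (.nd (nat_lit 5) 
(.lf (nat_lit 209352) (.g (nat_lit 2083) (.e (nat_lit 81947) (nat_lit 20) (.e (nat_lit 1841) (nat_lit 123) (.e (nat_lit 548889) (nat_lit 9) (.e (nat_lit 65630) (nat_lit 14) (.e (nat_lit 401424) (nat_lit 2) .nil))))) .nil)) 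
(.lf (nat_lit 209384) (.g (nat_lit 2180) (.e (nat_lit 81947) (nat_lit 20) (.e (nat_lit 1962) (nat_lit 134) (.e (nat_lit 638998) (nat_lit 8) (.e (nat_lit 172120) (nat_lit 12) (.e (nat_lit 475194) (nat_lit 39) .nil))))) .nil))) (.nd (nat_lit 5) 
(.lf (nat_lit 209368) (.g (nat_lit 1921) (.e (nat_lit 81947) (nat_lit 20) (.e (nat_lit 1886) (nat_lit 127) (.e (nat_lit 581635) (nat_lit 0) (.e (nat_lit 3015) (nat_lit 187) (.e (nat_lit 450563) (nat_lit 0) (.e (nat_lit 6808) (nat_lit 365) (.e (nat_lit 7936) (nat_lit 90) .nil))))))) (.g (nat_lit 5) .nil .nil))) 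
(.lf (nat_lit 209400) (.g (nat_lit 1051) (.e (nat_lit 81947) (nat_lit 20) (.e (nat_lit 2003) (nat_lit 138) (.e (nat_lit 671747) (nat_lit 0) (.e (nat_lit 1599) (nat_lit 111) .nil)))) .nil))))) (.nd (nat_lit 3) (.nd (nat_lit 4) (.nd (nat_lit 5) 
(.lf (nat_lit 209348) (.g (nat_lit 2193) (.e (nat_lit 81947) (nat_lit 20) (.e (nat_lit 1841) (nat_lit 123) (.e (nat_lit 548889) (nat_lit 9) (.e (nat_lit 65586) (nat_lit 7) (.e (nat_lit 319519) (nat_lit 12) (.e (nat_lit 32789) (nat_lit 11) .nil)))))) (.g (nat_lit 0) .nil .nil))) 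
(.lf (nat_lit 209380) (.g (nat_lit 1278) (.e (nat_lit 81947) (nat_lit 20) (.e (nat_lit 1962) (nat_lit 134) (.e (nat_lit 638998) (nat_lit 8) (.e (nat_lit 172119) (nat_lit 12) (.e (nat_lit 475193) (nat_lit 38) .nil))))) .nil))) (.nd (nat_lit 5) 
(.lf (nat_lit 209364) (.g (nat_lit 216) (.e (nat_lit 81947) (nat_lit 20) (.e (nat_lit 1859) (nat_lit 124) (.e (nat_lit 557086) (nat_lit 11) .nil))) .nil)) 
(.lf (nat_lit 209396) (.g (nat_lit 1024) (.e (nat_lit 81947) (nat_lit 20) (.e (nat_lit 2003) (nat_lit 138) (.e (nat_lit 671747) (nat_lit 0) (.e (nat_lit 1592) (nat_lit 111) .nil)))) .nil)))) (.nd (nat_lit 4) (.nd (nat_lit 5) 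
(.lf (nat_lit 209356) (.g (nat_lit 1575) (.e (nat_lit 81947) (nat_lit 20) (.e (nat_lit 1842) (nat_lit 123) (.e (nat_lit 548889) (nat_lit 9) (.e (nat_lit 65584) (nat_lit 7) (.e (nat_lit 319518) (nat_lit 12) .nil))))) .nil)) 
(.lf (nat_lit 209388) (.g (nat_lit 1382) (.e (nat_lit 81947) (nat_lit 20) (.e (nat_lit 1963) (nat_lit 134) (.e (nat_lit 639001) (nat_lit 10) (.e (nat_lit 188446) (nat_lit 21) (.e (nat_lit 164305) (nat_lit 226) (.e (nat_lit 7936) (nat_lit 90) .nil)))))) (.g (nat_lit 4) .nil .nil)))) (.nd (nat_lit 5) 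
(.lf (nat_lit 209372) (.g (nat_lit 1252) (.e (nat_lit 81947) (nat_lit 20) (.e (nat_lit 1886) (nat_lit 127) (.e (nat_lit 581651) (nat_lit 4) (.e (nat_lit 172080) (nat_lit 7) (.e (nat_lit 409634) (nat_lit 13) (.e (nat_lit 48896) (nat_lit 6) .nil)))))) (.g (nat_lit 5) .nil .nil))) 
(.lf (nat_lit 209404) (.g (nat_lit 3564) (.e (nat_lit 81947) (nat_lit 20) (.e (nat_lit 2003) (nat_lit 138) (.e (nat_lit 671762) (nat_lit 4) (.e (nat_lit 65604) (nat_lit 9) (.e (nat_lit 335997) (nat_lit 1) (.e (nat_lit 57872) (nat_lit 264) (.e (nat_lit 1221) (nat_lit 90) .nil))))))) (.g (nat_lit 7) .nil .nil))))))) (.nd (nat_lit 2) (.nd (nat_lit 3) (.nd (nat_lit 4) (.nd (nat_lit 5) 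
(.lf (nat_lit 209346) (.g (nat_lit 3812) (.e (nat_lit 81947) (nat_lit 20) (.e (nat_lit 1840) (nat_lit 123) (.e (nat_lit 548889) (nat_lit 9) (.e (nat_lit 65624) (nat_lit 12) (.e (nat_lit 385072) (nat_lit 31) .nil))))) .nil)) 
(.lf (nat_lit 209378) (.g (nat_lit 1302) (.e (nat_lit 81947) (nat_lit 20) (.e (nat_lit 1962) (nat_lit 134) (.e (nat_lit 638985) (nat_lit 5) (.e (nat_lit 3022) (nat_lit 187) (.e (nat_lit 450565) (nat_lit 0) (.e (nat_lit 5069) (nat_lit 292) (.e (nat_lit 7936) (nat_lit 90) .nil))))))) (.g (nat_lit 5) .nil .nil)))) (.nd (nat_lit 5) 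
(.lf (nat_lit 209362) (.g (nat_lit 2406) (.e (nat_lit 81947) (nat_lit 20) (.e (nat_lit 1842) (nat_lit 123) (.e (nat_lit 548889) (nat_lit 9) (.e (nat_lit 65630) (nat_lit 14) (.e (nat_lit 401412) (nat_lit 0) .nil))))) .nil)) 
(.lf (nat_lit 209394) (.g (nat_lit 838) (.e (nat_lit 81947) (nat_lit 20) (.e (nat_lit 2003) (nat_lit 138) (.e (nat_lit 671747) (nat_lit 0) (.e (nat_lit 1586) (nat_lit 111) .nil)))) .nil)))) (.nd (nat_lit 4) (.nd (nat_lit 5) 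
(.lf (nat_lit 209354) (.g (nat_lit 2962) (.e (nat_lit 81947) (nat_lit 20) (.e (nat_lit 1842) (nat_lit 123) (.e (nat_lit 548889) (nat_lit 9) (.e (nat_lit 65583) (nat_lit 7) (.e (nat_lit 319519) (nat_lit 12) (.e (nat_lit 32789) (nat_lit 11) .nil)))))) (.g (nat_lit 0) .nil .nil))) 
(.lf (nat_lit 209386) (.g (nat_lit 1355) (.e (nat_lit 81947) (nat_lit 20) (.e (nat_lit 1963) (nat_lit 134) (.e (nat_lit 638986) (nat_lit 5) (.e (nat_lit 3022) (nat_lit 187) (.e (nat_lit 450565) (nat_lit 0) (.e (nat_lit 5069) (nat_lit 292) (.e (nat_lit 7936) (nat_lit 90) .nil))))))) (.g (nat_lit 5) .nil .nil)))) (.nd (nat_lit 5) 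
(.lf (nat_lit 209370) (.g (nat_lit 2150) (.e (nat_lit 81947) (nat_lit 20) (.e (nat_lit 1886) (nat_lit 127) (.e (nat_lit 581636) (nat_lit 0) (.e (nat_lit 3015) (nat_lit 187) (.e (nat_lit 450563) (nat_lit 0) (.e (nat_lit 6808) (nat_lit 365) (.e (nat_lit 7936) (nat_lit 90) .nil))))))) (.g (nat_lit 6) .nil .nil))) 
(.lf (nat_lit 209402) (.g (nat_lit 2478) (.e (nat_lit 81947) (nat_lit 20) (.e (nat_lit 2003) (nat_lit 138) (.e (nat_lit 671762) (nat_lit 4) (.e (nat_lit 65598) (nat_lit 9) (.e (nat_lit 335997) (nat_lit 1) (.e (nat_lit 57872) (nat_lit 264) (.e (nat_lit 1219) (nat_lit 90) .nil))))))) (.g (nat_lit 5) .nil .nil)))))) (.nd (nat_lit 3) (.nd (nat_lit 4) (.nd (nat_lit 5) 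
(.lf (nat_lit 209350) (.g (nat_lit 3121) (.e (nat_lit 81947) (nat_lit 20) (.e (nat_lit 1841) (nat_lit 123) (.e (nat_lit 548889) (nat_lit 9) (.e (nat_lit 65617) (nat_lit 10) (.e (nat_lit 344126) (nat_lit 25) (.e (nat_lit 548891) (nat_lit 11) .nil)))))) (.g (nat_lit 0) .nil .nil))) 
(.lf (nat_lit 209382) (.g (nat_lit 2439) (.e (nat_lit 81947) (nat_lit 20) (.e (nat_lit 1962) (nat_lit 134) (.e (nat_lit 638998) (nat_lit 8) (.e (nat_lit 172120) (nat_lit 12) (.e (nat_lit 475155) (nat_lit 21) (.e (nat_lit 6279) (nat_lit 337) (.e (nat_lit 1217) (nat_lit 90) .nil))))))) (.g (nat_lit 4) .nil .nil)))) (.nd (nat_lit 5) 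
(.lf (nat_lit 209366) (.g (nat_lit 1207) (.e (nat_lit 81947) (nat_lit 20) (.e (nat_lit 1885) (nat_lit 127) (.e (nat_lit 581651) (nat_lit 4) (.e (nat_lit 172106) (nat_lit 10) (.e (nat_lit 434295) (nat_lit 49) (.e (nat_lit 745493) (nat_lit 6) .nil)))))) (.g (nat_lit 4) .nil .nil))) 
(.lf (nat_lit 209398) (.g (nat_lit 1052) (.e (nat_lit 81947) (nat_lit 20) (.e (nat_lit 2003) (nat_lit 138) (.e (nat_lit 671747) (nat_lit 0) (.e (nat_lit 1598) (nat_lit 111) .nil)))) .nil)))) (.nd (nat_lit 4) (.nd (nat_lit 5) 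
(.lf (nat_lit 209358) (.g (nat_lit 2933) (.e (nat_lit 81947) (nat_lit 20) (.e (nat_lit 1842) (nat_lit 123) (.e (nat_lit 548889) (nat_lit 9) (.e (nat_lit 65586) (nat_lit 7) (.e (nat_lit 319519) (nat_lit 12) (.e (nat_lit 32789) (nat_lit 11) .nil)))))) (.g (nat_lit 0) .nil .nil))) 
(.lf (nat_lit 209390) (.g (nat_lit 3609) (.e (nat_lit 81947) (nat_lit 20) (.e (nat_lit 1968) (nat_lit 135) (.e (nat_lit 647203) (nat_lit 14) (.e (nat_lit 1349) (nat_lit 102) (.e (nat_lit 286759) (nat_lit 12) (.e (nat_lit 385094) (nat_lit 49) (.e (nat_lit 778327) (nat_lit 6) .nil))))))) (.g (nat_lit 6) .nil .nil)))) (.nd (nat_lit 5) 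
(.lf (nat_lit 209374) (.g (nat_lit 1478) (.e (nat_lit 81947) (nat_lit 20) (.e (nat_lit 1886) (nat_lit 127) (.e (nat_lit 581651) (nat_lit 4) (.e (nat_lit 172082) (nat_lit 7) (.e (nat_lit 409634) (nat_lit 13) (.e (nat_lit 48896) (nat_lit 6) .nil)))))) (.g (nat_lit 5) .nil .nil))) 
(.lf (nat_lit 209406) (.g (nat_lit 2923) (.e (nat_lit 81947) (nat_lit 20) (.e (nat_lit 2003) (nat_lit 138) (.e (nat_lit 671762) (nat_lit 4) (.e (nat_lit 65619) (nat_lit 10) (.e (nat_lit 344097) (nat_lit 18) (.e (nat_lit 5907) (nat_lit 320) (.e (nat_lit 1219) (nat_lit 90) .nil))))))) (.g (nat_lit 6) .nil .nil)))))))) 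
(.nd (nat_lit 1) (.nd (nat_lit 2) (.nd (nat_lit 3) (.nd (nat_lit 4) (.nd (nat_lit 5) 
(.lf (nat_lit 209345) (.g (nat_lit 2459) (.e (nat_lit 81947) (nat_lit 20) (.e (nat_lit 1788) (nat_lit 119) (.e (nat_lit 516139) (nat_lit 7) (.e (nat_lit 409649) (nat_lit 18) (.e (nat_lit 303117) (nat_lit 2) .nil))))) .nil)) 
(.lf (nat_lit 209377) (.g (nat_lit 1379) (.e (nat_lit 81947) (nat_lit 20) (.e (nat_lit 1962) (nat_lit 134) (.e (nat_lit 638982) (nat_lit 5) (.e (nat_lit 3044) (nat_lit 189) (.e (nat_lit 466972) (nat_lit 21) (.e (nat_lit 164307) (nat_lit 226) (.e (nat_lit 7936) (nat_lit 90) .nil))))))) (.g (nat_lit 5) .nil .nil)))) (.nd (nat_lit 5) 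
(.lf (nat_lit 209361) (.g (nat_lit 3621) (.e (nat_lit 81947) (nat_lit 20) (.e (nat_lit 1842) (nat_lit 123) (.e (nat_lit 548889) (nat_lit 9) (.e (nat_lit 65620) (nat_lit 10) (.e (nat_lit 344126) (nat_lit 25) (.e (nat_lit 548891) (nat_lit 11) .nil)))))) (.g (nat_lit 0) .nil .nil))) 
(.lf (nat_lit 209393) (.g (nat_lit 1053) (.e (nat_lit 81947) (nat_lit 20) (.e (nat_lit 2003) (nat_lit 138) (.e (nat_lit 671747) (nat_lit 0) (.e (nat_lit 1575) (nat_lit 110) .nil)))) .nil)))) (.nd (nat_lit 4) (.nd (nat_lit 5) 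
(.lf (nat_lit 209353) (.g (nat_lit 1592) (.e (nat_lit 81947) (nat_lit 20) (.e (nat_lit 1841) (nat_lit 123) (.e (nat_lit 548891) (nat_lit 11) (.e (nat_lit 81959) (nat_lit 24) (.e (nat_lit 130816) (nat_lit 140) .nil))))) .nil)) 
(.lf (nat_lit 209385) (.g (nat_lit 1581) (.e (nat_lit 81947) (nat_lit 20) (.e (nat_lit 1962) (nat_lit 134) (.e (nat_lit 639003) (nat_lit 12) (.e (nat_lit 237612) (nat_lit 9) (.e (nat_lit 426100) (nat_lit 1) (.e (nat_lit 164307) (nat_lit 226) (.e (nat_lit 7936) (nat_lit 90) .nil))))))) (.g (nat_lit 5) .nil .nil)))) (.nd (nat_lit 5) 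
(.lf (nat_lit 209369) (.g (nat_lit 2226) (.e (nat_lit 81947) (nat_lit 20) (.e (nat_lit 1886) (nat_lit 127) (.e (nat_lit 581636) (nat_lit 0) (.e (nat_lit 3015) (nat_lit 187) (.e (nat_lit 450562) (nat_lit 0) (.e (nat_lit 6808) (nat_lit 365) (.e (nat_lit 7936) (nat_lit 90) .nil))))))) (.g (nat_lit 6) .nil .nil))) 
(.lf (nat_lit 209401) (.g (nat_lit 1917) (.e (nat_lit 81947) (nat_lit 20) (.e (nat_lit 2003) (nat_lit 138) (.e (nat_lit 671762) (nat_lit 4) (.e (nat_lit 65598) (nat_lit 9) (.e (nat_lit 335997) (nat_lit 1) (.e (nat_lit 57871) (nat_lit 264) (.e (nat_lit 1219) (nat_lit 90) .nil))))))) (.g (nat_lit 4) .nil .nil)))))) (.nd (nat_lit 3) (.nd (nat_lit 4) (.nd (nat_lit 5) 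
(.lf (nat_lit 209349) (.g (nat_lit 2684) (.e (nat_lit 81947) (nat_lit 20) (.e (nat_lit 1841) (nat_lit 123) (.e (nat_lit 548889) (nat_lit 9) (.e (nat_lit 65616) (nat_lit 10) (.e (nat_lit 344126) (nat_lit 25) (.e (nat_lit 548891) (nat_lit 11) .nil)))))) (.g (nat_lit 0) .nil .nil))) 
(.lf (nat_lit 209381) (.g (nat_lit 2166) (.e (nat_lit 81947) (nat_lit 20) (.e (nat_lit 1962) (nat_lit 134) (.e (nat_lit 638998) (nat_lit 8) (.e (nat_lit 172120) (nat_lit 12) (.e (nat_lit 475155) (nat_lit 21) .nil))))) .nil))) (.nd (nat_lit 5) 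
(.lf (nat_lit 209365) (.g (nat_lit 1613) (.e (nat_lit 81947) (nat_lit 20) (.e (nat_lit 1859) (nat_lit 124) (.e (nat_lit 557091) (nat_lit 12) (.e (nat_lit 164022) (nat_lit 46) .nil)))) .nil)) 
(.lf (nat_lit 209397) (.g (nat_lit 1574) (.e (nat_lit 81947) (nat_lit 20) (.e (nat_lit 2003) (nat_lit 138) (.e (nat_lit 671747) (nat_lit 0) (.e (nat_lit 1595) (nat_lit 111) (.e (nat_lit 368384) (nat_lit 17) .nil))))) .nil)))) (.nd (nat_lit 4) (.nd (nat_lit 5) 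
(.lf (nat_lit 209357) (.g (nat_lit 2190) (.e (nat_lit 81947) (nat_lit 20) (.e (nat_lit 1842) (nat_lit 123) (.e (nat_lit 548889) (nat_lit 9) (.e (nat_lit 65586) (nat_lit 7) (.e (nat_lit 319517) (nat_lit 12) (.e (nat_lit 32789) (nat_lit 11) .nil)))))) (.g (nat_lit 4) .nil .nil))) 
(.lf (nat_lit 209389) (.g (nat_lit 1622) (.e (nat_lit 81947) (nat_lit 20) (.e (nat_lit 1963) (nat_lit 134) (.e (nat_lit 639003) (nat_lit 12) (.e (nat_lit 237612) (nat_lit 9) (.e (nat_lit 426100) (nat_lit 1) (.e (nat_lit 164307) (nat_lit 226) (.e (nat_lit 7936) (nat_lit 90) .nil))))))) (.g (nat_lit 5) .nil .nil)))) (.nd (nat_lit 5) 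
(.lf (nat_lit 209373) (.g (nat_lit 1128) (.e (nat_lit 81947) (nat_lit 20) (.e (nat_lit 1886) (nat_lit 127) (.e (nat_lit 581651) (nat_lit 4) (.e (nat_lit 172081) (nat_lit 7) (.e (nat_lit 409634) (nat_lit 13) (.e (nat_lit 48896) (nat_lit 6) .nil)))))) (.g (nat_lit 5) .nil .nil))) 
(.lf (nat_lit 209405) (.g (nat_lit 2927) (.e (nat_lit 81947) (nat_lit 20) (.e (nat_lit 2003) (nat_lit 138) (.e (nat_lit 671762) (nat_lit 4) (.e (nat_lit 65610) (nat_lit 10) (.e (nat_lit 344097) (nat_lit 18) (.e (nat_lit 5907) (nat_lit 320) (.e (nat_lit 1219) (nat_lit 90) .nil))))))) (.g (nat_lit 6) .nil .nil))))))) (.nd (nat_lit 2) (.nd (nat_lit 3) (.nd (nat_lit 4) (.nd (nat_lit 5) 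
(.lf (nat_lit 209347) (.g (nat_lit 3728) (.e (nat_lit 81947) (nat_lit 20) (.e (nat_lit 1840) (nat_lit 123) (.e (nat_lit 548889) (nat_lit 9) (.e (nat_lit 65624) (nat_lit 12) (.e (nat_lit 385073) (nat_lit 31) .nil))))) .nil)) 
(.lf (nat_lit 209379) (.g (nat_lit 1287) (.e (nat_lit 81947) (nat_lit 20) (.e (nat_lit 1962) (nat_lit 134) (.e (nat_lit 638985) (nat_lit 5) (.e (nat_lit 3027) (nat_lit 187) (.e (nat_lit 450564) (nat_lit 0) (.e (nat_lit 5069) (nat_lit 292) (.e (nat_lit 7936) (nat_lit 90) .nil))))))) (.g (nat_lit 5) .nil .nil)))) (.nd (nat_lit 5) 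
(.lf (nat_lit 209363) (.g (nat_lit 1598) (.e (nat_lit 81947) (nat_lit 20) (.e (nat_lit 1848) (nat_lit 124) (.e (nat_lit 557087) (nat_lit 11) (.e (nat_lit 24617) (nat_lit 7) .nil)))) .nil)) 
(.lf (nat_lit 209395) (.g (nat_lit 1403) (.e (nat_lit 81947) (nat_lit 20) (.e (nat_lit 2003) (nat_lit 138) (.e (nat_lit 671747) (nat_lit 0) (.e (nat_lit 1586) (nat_lit 111) (.e (nat_lit 368384) (nat_lit 17) .nil))))) .nil)))) (.nd (nat_lit 4) (.nd (nat_lit 5) 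
(.lf (nat_lit 209355) (.g (nat_lit 1254) (.e (nat_lit 81947) (nat_lit 20) (.e (nat_lit 1842) (nat_lit 123) (.e (nat_lit 548889) (nat_lit 9) (.e (nat_lit 65584) (nat_lit 7) .nil)))) .nil)) 
(.lf (nat_lit 209387) (.g (nat_lit 1271) (.e (nat_lit 81947) (nat_lit 20) (.e (nat_lit 1963) (nat_lit 134) (.e (nat_lit 638986) (nat_lit 5) (.e (nat_lit 3027) (nat_lit 187) (.e (nat_lit 450564) (nat_lit 0) (.e (nat_lit 5069) (nat_lit 292) (.e (nat_lit 7936) (nat_lit 90) .nil))))))) (.g (nat_lit 5) .nil .nil)))) (.nd (nat_lit 5) 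
(.lf (nat_lit 209371) (.g (nat_lit 1389) (.e (nat_lit 81947) (nat_lit 20) (.e (nat_lit 1886) (nat_lit 127) (.e (nat_lit 581651) (nat_lit 4) (.e (nat_lit 172079) (nat_lit 7) (.e (nat_lit 409634) (nat_lit 13) (.e (nat_lit 48896) (nat_lit 6) .nil)))))) (.g (nat_lit 5) .nil .nil))) 
(.lf (nat_lit 209403) (.g (nat_lit 1540) (.e (nat_lit 81947) (nat_lit 20) (.e (nat_lit 2003) (nat_lit 138) (.e (nat_lit 671762) (nat_lit 4) (.e (nat_lit 65599) (nat_lit 9) (.e (nat_lit 336032) (nat_lit 4) .nil))))) .nil))))) (.nd (nat_lit 3) (.nd (nat_lit 4) (.nd (nat_lit 5) 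
(.lf (nat_lit 209351) (.g (nat_lit 2381) (.e (nat_lit 81947) (nat_lit 20) (.e (nat_lit 1841) (nat_lit 123) (.e (nat_lit 548889) (nat_lit 9) (.e (nat_lit 65624) (nat_lit 12) (.e (nat_lit 385072) (nat_lit 31) .nil))))) .nil)) 
(.lf (nat_lit 209383) (.g (nat_lit 3697) (.e (nat_lit 81947) (nat_lit 20) (.e (nat_lit 1962) (nat_lit 134) (.e (nat_lit 638998) (nat_lit 8) (.e (nat_lit 172120) (nat_lit 12) (.e (nat_lit 475193) (nat_lit 38) (.e (nat_lit 688184) (nat_lit 18) .nil)))))) (.g (nat_lit 6) .nil .nil)))) (.nd (nat_lit 5) 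
(.lf (nat_lit 209367) (.g (nat_lit 2114) (.e (nat_lit 81947) (nat_lit 20) (.e (nat_lit 1886) (nat_lit 127) (.e (nat_lit 581635) (nat_lit 0) (.e (nat_lit 3015) (nat_lit 187) (.e (nat_lit 450562) (nat_lit 0) (.e (nat_lit 6808) (nat_lit 365) (.e (nat_lit 7936) (nat_lit 90) .nil))))))) (.g (nat_lit 6) .nil .nil))) 
(.lf (nat_lit 209399) (.g (nat_lit 1453) (.e (nat_lit 81947) (nat_lit 20) (.e (nat_lit 2003) (nat_lit 138) (.e (nat_lit 671747) (nat_lit 0) (.e (nat_lit 1598) (nat_lit 111) (.e (nat_lit 360486) (nat_lit 18) .nil))))) .nil)))) (.nd (nat_lit 4) (.nd (nat_lit 5) 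
(.lf (nat_lit 209359) (.g (nat_lit 3692) (.e (nat_lit 81947) (nat_lit 20) (.e (nat_lit 1842) (nat_lit 123) (.e (nat_lit 548889) (nat_lit 9) (.e (nat_lit 65610) (nat_lit 10) (.e (nat_lit 344126) (nat_lit 25) (.e (nat_lit 548891) (nat_lit 11) .nil)))))) (.g (nat_lit 0) .nil .nil))) 
(.lf (nat_lit 209391) (.g (nat_lit 1045) (.e (nat_lit 81947) (nat_lit 20) (.e (nat_lit 2003) (nat_lit 138) (.e (nat_lit 671747) (nat_lit 0) (.e (nat_lit 1559) (nat_lit 110) .nil)))) .nil))) (.nd (nat_lit 5) 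
(.lf (nat_lit 209375) (.g (nat_lit 1475) (.e (nat_lit 81947) (nat_lit 20) (.e (nat_lit 1886) (nat_lit 127) (.e (nat_lit 581653) (nat_lit 6) (.e (nat_lit 188434) (nat_lit 20) (.e (nat_lit 3577) (nat_lit 223) (.e (nat_lit 745493) (nat_lit 6) .nil)))))) (.g (nat_lit 4) .nil .nil))) 
(.lf (nat_lit 209407) (.g (nat_lit 1297) (.e (nat_lit 81947) (nat_lit 20) (.e (nat_lit 2003) (nat_lit 138) (.e (nat_lit 671764) (nat_lit 6) (.e (nat_lit 81947) (nat_lit 20) (.e (nat_lit 2003) (nat_lit 138) .nil))))) .nil))))))))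

noncomputable def tv2765 : DT := (.nd (nat_lit 0) (.nd (nat_lit 1) (.nd (nat_lit 2) (.nd (nat_lit 3) (.nd (nat_lit 4) (.nd (nat_lit 5) 
(.lf (nat_lit 209408) (.g (nat_lit 1761) (.e (nat_lit 81947) (nat_lit 20) (.e (nat_lit 2003) (nat_lit 138) (.e (nat_lit 671764) (nat_lit 6) (.e (nat_lit 81947) (nat_lit 20) (.e (nat_lit 2005) (nat_lit 138) (.e (nat_lit 671764) (nat_lit 6) .nil)))))) (.g (nat_lit 4) .nil .nil))) 
(.lf (nat_lit 209440) (.g (nat_lit 3653) (.e (nat_lit 81947) (nat_lit 20) (.e (nat_lit 2005) (nat_lit 138) (.e (nat_lit 671748) (nat_lit 0) (.e (nat_lit 1598) (nat_lit 111) (.e (nat_lit 360452) (nat_lit 0) (.e (nat_lit 5907) (nat_lit 320) (.e (nat_lit 1219) (nat_lit 90) .nil))))))) (.g (nat_lit 0) .nil .nil)))) (.nd (nat_lit 5) 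
(.lf (nat_lit 209424) (.g (nat_lit 1452) (.e (nat_lit 81947) (nat_lit 20) (.e (nat_lit 2005) (nat_lit 138) (.e (nat_lit 671748) (nat_lit 0) (.e (nat_lit 1559) (nat_lit 110) (.e (nat_lit 352270) (nat_lit 8) (.e (nat_lit 270080) (nat_lit 6) .nil)))))) (.g (nat_lit 5) .nil .nil))) 
(.lf (nat_lit 209456) (.g (nat_lit 1699) (.e (nat_lit 81947) (nat_lit 20) (.e (nat_lit 2006) (nat_lit 138) (.e (nat_lit 671748) (nat_lit 0) (.e (nat_lit 1559) (nat_lit 110) (.e (nat_lit 352270) (nat_lit 8) (.e (nat_lit 270080) (nat_lit 6) .nil)))))) (.g (nat_lit 5) .nil .nil))))) (.nd (nat_lit 4) (.nd (nat_lit 5) 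
(.lf (nat_lit 209416) (.g (nat_lit 1129) (.e (nat_lit 81947) (nat_lit 20) (.e (nat_lit 2005) (nat_lit 138) (.e (nat_lit 671747) (nat_lit 0) (.e (nat_lit 1575) (nat_lit 110) (.e (nat_lit 360192) (nat_lit 4) (.e (nat_lit 220928) (nat_lit 6) .nil)))))) (.g (nat_lit 4) .nil .nil))) 
(.lf (nat_lit 209448) (.g (nat_lit 3727) (.e (nat_lit 81947) (nat_lit 20) (.e (nat_lit 2005) (nat_lit 138) (.e (nat_lit 671762) (nat_lit 4) (.e (nat_lit 65619) (nat_lit 10) (.e (nat_lit 344097) (nat_lit 18) (.e (nat_lit 5907) (nat_lit 320) (.e (nat_lit 1219) (nat_lit 90) .nil))))))) (.g (nat_lit 7) .nil .nil)))) (.nd (nat_lit 5) 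
(.lf (nat_lit 209432) (.g (nat_lit 781) (.e (nat_lit 81947) (nat_lit 20) (.e (nat_lit 2005) (nat_lit 138) (.e (nat_lit 671748) (nat_lit 0) (.e (nat_lit 1576) (nat_lit 110) .nil)))) .nil)) 
(.lf (nat_lit 209464) (.g (nat_lit 1584) (.e (nat_lit 81947) (nat_lit 20) (.e (nat_lit 2006) (nat_lit 138) (.e (nat_lit 671748) (nat_lit 0) (.e (nat_lit 1575) (nat_lit 110) (.e (nat_lit 360192) (nat_lit 4) (.e (nat_lit 220928) (nat_lit 6) .nil)))))) (.g (nat_lit 4) .nil .nil)))))) (.nd (nat_lit 3) (.nd (nat_lit 4) (.nd (nat_lit 5) 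
(.lf (nat_lit 209412) (.g (nat_lit 1121) (.e (nat_lit 81947) (nat_lit 20) (.e (nat_lit 2005) (nat_lit 138) (.e (nat_lit 671744) (nat_lit 0) (.e (nat_lit 1615) (nat_lit 113) (.e (nat_lit 384768) (nat_lit 4) (.e (nat_lit 220928) (nat_lit 6) .nil)))))) (.g (nat_lit 4) .nil .nil))) 
(.lf (nat_lit 209444) (.g (nat_lit 3304) (.e (nat_lit 81947) (nat_lit 20) (.e (nat_lit 2005) (nat_lit 138) (.e (nat_lit 671762) (nat_lit 4) (.e (nat_lit 65604) (nat_lit 9) (.e (nat_lit 335997) (nat_lit 1) (.e (nat_lit 57872) (nat_lit 264) (.e (nat_lit 1219) (nat_lit 90) .nil))))))) (.g (nat_lit 7) .nil .nil)))) (.nd (nat_lit 5) 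
(.lf (nat_lit 209428) (.g (nat_lit 1341) (.e (nat_lit 81947) (nat_lit 20) (.e (nat_lit 2005) (nat_lit 138) (.e (nat_lit 671748) (nat_lit 0) (.e (nat_lit 1569) (nat_lit 110) (.e (nat_lit 360192) (nat_lit 4) (.e (nat_lit 220928) (nat_lit 6) .nil)))))) (.g (nat_lit 4) .nil .nil))) 
(.lf (nat_lit 209460) (.g (nat_lit 1471) (.e (nat_lit 81947) (nat_lit 20) (.e (nat_lit 2006) (nat_lit 138) (.e (nat_lit 671748) (nat_lit 0) (.e (nat_lit 1569) (nat_lit 110) (.e (nat_lit 360192) (nat_lit 4) (.e (nat_lit 220928) (nat_lit 6) .nil)))))) (.g (nat_lit 4) .nil .nil))))) (.nd (nat_lit 4) (.nd (nat_lit 5) 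
(.lf (nat_lit 209420) (.g (nat_lit 1540) (.e (nat_lit 81947) (nat_lit 20) (.e (nat_lit 2005) (nat_lit 138) (.e (nat_lit 671747) (nat_lit 0) (.e (nat_lit 1595) (nat_lit 111) (.e (nat_lit 368384) (nat_lit 17) (.e (nat_lit 663569) (nat_lit 6) .nil)))))) (.g (nat_lit 4) .nil .nil))) 
(.lf (nat_lit 209452) (.g (nat_lit 3530) (.e (nat_lit 81947) (nat_lit 20) (.e (nat_lit 2005) (nat_lit 138) (.e (nat_lit 671764) (nat_lit 6) (.e (nat_lit 81957) (nat_lit 24) (.e (nat_lit 123182) (nat_lit 264) (.e (nat_lit 1224) (nat_lit 90) .nil)))))) (.g (nat_lit 0) .nil .nil)))) (.nd (nat_lit 5) 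
(.lf (nat_lit 209436) (.g (nat_lit 3488) (.e (nat_lit 81947) (nat_lit 20) (.e (nat_lit 2005) (nat_lit 138) (.e (nat_lit 671748) (nat_lit 0) (.e (nat_lit 1595) (nat_lit 111) (.e (nat_lit 360453) (nat_lit 0) (.e (nat_lit 5907) (nat_lit 320) (.e (nat_lit 1219) (nat_lit 90) .nil))))))) (.g (nat_lit 7) .nil .nil))) 
(.lf (nat_lit 209468) (.g (nat_lit 1465) (.e (nat_lit 81947) (nat_lit 20) (.e (nat_lit 2006) (nat_lit 138) (.e (nat_lit 671748) (nat_lit 0) (.e (nat_lit 1586) (nat_lit 111) (.e (nat_lit 360451) (nat_lit 0) (.e (nat_lit 5896) (nat_lit 320) (.e (nat_lit 7936) (nat_lit 90) .nil))))))) (.g (nat_lit 4) .nil .nil))))))) (.nd (nat_lit 2) (.nd (nat_lit 3) (.nd (nat_lit 4) (.nd (nat_lit 5) 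
(.lf (nat_lit 209410) (.g (nat_lit 1691) (.e (nat_lit 81947) (nat_lit 20) (.e (nat_lit 2003) (nat_lit 138) (.e (nat_lit 671764) (nat_lit 6) (.e (nat_lit 81957) (nat_lit 24) (.e (nat_lit 123185) (nat_lit 264) (.e (nat_lit 1224) (nat_lit 90) .nil)))))) (.g (nat_lit 4) .nil .nil))) 
(.lf (nat_lit 209442) (.g (nat_lit 975) (.e (nat_lit 81947) (nat_lit 20) (.e (nat_lit 2005) (nat_lit 138) (.e (nat_lit 671762) (nat_lit 4) (.e (nat_lit 65595) (nat_lit 9) .nil)))) .nil))) (.nd (nat_lit 5) 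
(.lf (nat_lit 209426) (.g (nat_lit 1436) (.e (nat_lit 81947) (nat_lit 20) (.e (nat_lit 2005) (nat_lit 138) (.e (nat_lit 671748) (nat_lit 0) (.e (nat_lit 1562) (nat_lit 110) (.e (nat_lit 352270) (nat_lit 8) (.e (nat_lit 270080) (nat_lit 6) .nil)))))) (.g (nat_lit 5) .nil .nil))) 
(.lf (nat_lit 209458) (.g (nat_lit 1591) (.e (nat_lit 81947) (nat_lit 20) (.e (nat_lit 2006) (nat_lit 138) (.e (nat_lit 671748) (nat_lit 0) (.e (nat_lit 1562) (nat_lit 110) (.e (nat_lit 352270) (nat_lit 8) (.e (nat_lit 270080) (nat_lit 6) .nil)))))) (.g (nat_lit 5) .nil .nil))))) (.nd (nat_lit 4) (.nd (nat_lit 5) 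
(.lf (nat_lit 209418) (.g (nat_lit 1499) (.e (nat_lit 81947) (nat_lit 20) (.e (nat_lit 2005) (nat_lit 138) (.e (nat_lit 671747) (nat_lit 0) (.e (nat_lit 1586) (nat_lit 111) (.e (nat_lit 368384) (nat_lit 17) (.e (nat_lit 663569) (nat_lit 6) .nil)))))) (.g (nat_lit 4) .nil .nil))) 
(.lf (nat_lit 209450) (.g (nat_lit 2833) (.e (nat_lit 81947) (nat_lit 20) (.e (nat_lit 2005) (nat_lit 138) (.e (nat_lit 671764) (nat_lit 6) (.e (nat_lit 81950) (nat_lit 21) (.e (nat_lit 57872) (nat_lit 264) (.e (nat_lit 1219) (nat_lit 90) .nil)))))) (.g (nat_lit 0) .nil .nil)))) (.nd (nat_lit 5) 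
(.lf (nat_lit 209434) (.g (nat_lit 1800) (.e (nat_lit 81947) (nat_lit 20) (.e (nat_lit 2005) (nat_lit 138) (.e (nat_lit 671748) (nat_lit 0) (.e (nat_lit 1589) (nat_lit 111) (.e (nat_lit 360453) (nat_lit 0) (.e (nat_lit 5905) (nat_lit 320) (.e (nat_lit 1219) (nat_lit 90) .nil))))))) (.g (nat_lit 4) .nil .nil))) 
(.lf (nat_lit 209466) (.g (nat_lit 844) (.e (nat_lit 81947) (nat_lit 20) (.e (nat_lit 2006) (nat_lit 138) (.e (nat_lit 671748) (nat_lit 0) (.e (nat_lit 1576) (nat_lit 110) .nil)))) .nil))))) (.nd (nat_lit 3) (.nd (nat_lit 4) (.nd (nat_lit 5) 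
(.lf (nat_lit 209414) (.g (nat_lit 1197) (.e (nat_lit 81947) (nat_lit 20) (.e (nat_lit 2005) (nat_lit 138) (.e (nat_lit 671747) (nat_lit 0) (.e (nat_lit 1569) (nat_lit 110) (.e (nat_lit 360192) (nat_lit 4) (.e (nat_lit 220928) (nat_lit 6) .nil)))))) (.g (nat_lit 4) .nil .nil))) 
(.lf (nat_lit 209446) (.g (nat_lit 4372) (.e (nat_lit 81947) (nat_lit 20) (.e (nat_lit 2005) (nat_lit 138) (.e (nat_lit 671762) (nat_lit 4) (.e (nat_lit 65610) (nat_lit 10) (.e (nat_lit 344097) (nat_lit 18) (.e (nat_lit 5907) (nat_lit 320) (.e (nat_lit 1221) (nat_lit 90) .nil))))))) (.g (nat_lit 7) .nil .nil)))) (.nd (nat_lit 5) 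
(.lf (nat_lit 209430) (.g (nat_lit 1526) (.e (nat_lit 81947) (nat_lit 20) (.e (nat_lit 2005) (nat_lit 138) (.e (nat_lit 671748) (nat_lit 0) (.e (nat_lit 1575) (nat_lit 110) (.e (nat_lit 360192) (nat_lit 4) (.e (nat_lit 220928) (nat_lit 6) .nil)))))) (.g (nat_lit 4) .nil .nil))) 
(.lf (nat_lit 209462) (.g (nat_lit 3176) (.e (nat_lit 81947) (nat_lit 20) (.e (nat_lit 2006) (nat_lit 138) (.e (nat_lit 671748) (nat_lit 0) (.e (nat_lit 1572) (nat_lit 110) (.e (nat_lit 352318) (nat_lit 24) (.e (nat_lit 123184) (nat_lit 264) (.e (nat_lit 1224) (nat_lit 90) .nil))))))) (.g (nat_lit 7) .nil .nil))))) (.nd (nat_lit 4) (.nd (nat_lit 5) 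
(.lf (nat_lit 209422) (.g (nat_lit 927) (.e (nat_lit 81947) (nat_lit 20) (.e (nat_lit 2005) (nat_lit 138) (.e (nat_lit 671747) (nat_lit 0) (.e (nat_lit 1598) (nat_lit 111) (.e (nat_lit 368384) (nat_lit 17) .nil))))) .nil)) 
(.lf (nat_lit 209454) (.g (nat_lit 3419) (.e (nat_lit 81947) (nat_lit 20) (.e (nat_lit 2005) (nat_lit 138) (.e (nat_lit 671764) (nat_lit 6) (.e (nat_lit 81959) (nat_lit 24) (.e (nat_lit 123182) (nat_lit 264) (.e (nat_lit 1224) (nat_lit 90) .nil)))))) (.g (nat_lit 0) .nil .nil)))) (.nd (nat_lit 5) 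
(.lf (nat_lit 209438) (.g (nat_lit 1754) (.e (nat_lit 81947) (nat_lit 20) (.e (nat_lit 2005) (nat_lit 138) (.e (nat_lit 671748) (nat_lit 0) (.e (nat_lit 1595) (nat_lit 111) (.e (nat_lit 368384) (nat_lit 0) (.e (nat_lit 5906) (nat_lit 320) (.e (nat_lit 1219) (nat_lit 90) .nil))))))) (.g (nat_lit 4) .nil .nil))) 
(.lf (nat_lit 209470) (.g (nat_lit 3702) (.e (nat_lit 81947) (nat_lit 20) (.e (nat_lit 2006) (nat_lit 138) (.e (nat_lit 671748) (nat_lit 0) (.e (nat_lit 1595) (nat_lit 111) (.e (nat_lit 360453) (nat_lit 0) (.e (nat_lit 5907) (nat_lit 320) (.e (nat_lit 1219) (nat_lit 90) .nil))))))) (.g (nat_lit 7) .nil .nil)))))))) 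
(.nd (nat_lit 1) (.nd (nat_lit 2) (.nd (nat_lit 3) (.nd (nat_lit 4) (.nd (nat_lit 5) 
(.lf (nat_lit 209409) (.g (nat_lit 3020) (.e (nat_lit 81947) (nat_lit 20) (.e (nat_lit 2003) (nat_lit 138) (.e (nat_lit 671764) (nat_lit 6) (.e (nat_lit 81950) (nat_lit 21) (.e (nat_lit 57873) (nat_lit 264) (.e (nat_lit 1221) (nat_lit 90) .nil)))))) (.g (nat_lit 0) .nil .nil))) 
(.lf (nat_lit 209441) (.g (nat_lit 1647) (.e (nat_lit 81947) (nat_lit 20) (.e (nat_lit 2005) (nat_lit 138) (.e (nat_lit 671748) (nat_lit 0) (.e (nat_lit 1598) (nat_lit 111) (.e (nat_lit 360455) (nat_lit 0) (.e (nat_lit 5813) (nat_lit 320) (.e (nat_lit 7936) (nat_lit 90) .nil))))))) (.g (nat_lit 4) .nil .nil)))) (.nd (nat_lit 5) 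
(.lf (nat_lit 209425) (.g (nat_lit 1383) (.e (nat_lit 81947) (nat_lit 20) (.e (nat_lit 2005) (nat_lit 138) (.e (nat_lit 671748) (nat_lit 0) (.e (nat_lit 1562) (nat_lit 110) (.e (nat_lit 360192) (nat_lit 4) (.e (nat_lit 220928) (nat_lit 6) .nil)))))) (.g (nat_lit 4) .nil .nil))) 
(.lf (nat_lit 209457) (.g (nat_lit 1537) (.e (nat_lit 81947) (nat_lit 20) (.e (nat_lit 2006) (nat_lit 138) (.e (nat_lit 671748) (nat_lit 0) (.e (nat_lit 1562) (nat_lit 110) (.e (nat_lit 360192) (nat_lit 4) (.e (nat_lit 220928) (nat_lit 6) .nil)))))) (.g (nat_lit 4) .nil .nil))))) (.nd (nat_lit 4) (.nd (nat_lit 5) 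
(.lf (nat_lit 209417) (.g (nat_lit 1175) (.e (nat_lit 81947) (nat_lit 20) (.e (nat_lit 2005) (nat_lit 138) (.e (nat_lit 671747) (nat_lit 0) (.e (nat_lit 1575) (nat_lit 110) (.e (nat_lit 352270) (nat_lit 8) (.e (nat_lit 270080) (nat_lit 6) .nil)))))) (.g (nat_lit 4) .nil .nil))) 
(.lf (nat_lit 209449) (.g (nat_lit 2763) (.e (nat_lit 81947) (nat_lit 20) (.e (nat_lit 2005) (nat_lit 138) (.e (nat_lit 671764) (nat_lit 6) (.e (nat_lit 81948) (nat_lit 21) (.e (nat_lit 57872) (nat_lit 264) (.e (nat_lit 1219) (nat_lit 90) .nil)))))) (.g (nat_lit 0) .nil .nil)))) (.nd (nat_lit 5) 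
(.lf (nat_lit 209433) (.g (nat_lit 2432) (.e (nat_lit 81947) (nat_lit 20) (.e (nat_lit 2005) (nat_lit 138) (.e (nat_lit 671748) (nat_lit 0) (.e (nat_lit 1586) (nat_lit 111) (.e (nat_lit 360450) (nat_lit 0) (.e (nat_lit 5898) (nat_lit 320) (.e (nat_lit 7936) (nat_lit 90) .nil))))))) (.g (nat_lit 6) .nil .nil))) 
(.lf (nat_lit 209465) (.g (nat_lit 1629) (.e (nat_lit 81947) (nat_lit 20) (.e (nat_lit 2006) (nat_lit 138) (.e (nat_lit 671748) (nat_lit 0) (.e (nat_lit 1575) (nat_lit 110) (.e (nat_lit 352270) (nat_lit 8) (.e (nat_lit 270080) (nat_lit 6) .nil)))))) (.g (nat_lit 5) .nil .nil)))))) (.nd (nat_lit 3) (.nd (nat_lit 4) (.nd (nat_lit 5) 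
(.lf (nat_lit 209413) (.g (nat_lit 1287) (.e (nat_lit 81947) (nat_lit 20) (.e (nat_lit 2005) (nat_lit 138) (.e (nat_lit 671747) (nat_lit 0) (.e (nat_lit 1559) (nat_lit 110) (.e (nat_lit 352270) (nat_lit 8) (.e (nat_lit 270080) (nat_lit 6) .nil)))))) (.g (nat_lit 4) .nil .nil))) 
(.lf (nat_lit 209445) (.g (nat_lit 3859) (.e (nat_lit 81947) (nat_lit 20) (.e (nat_lit 2005) (nat_lit 138) (.e (nat_lit 671762) (nat_lit 4) (.e (nat_lit 65610) (nat_lit 10) (.e (nat_lit 344097) (nat_lit 18) (.e (nat_lit 5907) (nat_lit 320) (.e (nat_lit 1219) (nat_lit 90) .nil))))))) (.g (nat_lit 7) .nil .nil)))) (.nd (nat_lit 5) 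
(.lf (nat_lit 209429) (.g (nat_lit 1335) (.e (nat_lit 81947) (nat_lit 20) (.e (nat_lit 2005) (nat_lit 138) (.e (nat_lit 671748) (nat_lit 0) (.e (nat_lit 1569) (nat_lit 110) (.e (nat_lit 352270) (nat_lit 8) (.e (nat_lit 270080) (nat_lit 6) .nil)))))) (.g (nat_lit 5) .nil .nil))) 
(.lf (nat_lit 209461) (.g (nat_lit 1506) (.e (nat_lit 81947) (nat_lit 20) (.e (nat_lit 2006) (nat_lit 138) (.e (nat_lit 671748) (nat_lit 0) (.e (nat_lit 1569) (nat_lit 110) (.e (nat_lit 352270) (nat_lit 8) (.e (nat_lit 270080) (nat_lit 6) .nil)))))) (.g (nat_lit 5) .nil .nil))))) (.nd (nat_lit 4) (.nd (nat_lit 5) 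
(.lf (nat_lit 209421) (.g (nat_lit 521) (.e (nat_lit 81947) (nat_lit 20) (.e (nat_lit 2005) (nat_lit 138) (.e (nat_lit 671747) (nat_lit 0) (.e (nat_lit 1598) (nat_lit 111) .nil)))) .nil)) 
(.lf (nat_lit 209453) (.g (nat_lit 2997) (.e (nat_lit 81947) (nat_lit 20) (.e (nat_lit 2005) (nat_lit 138) (.e (nat_lit 671764) (nat_lit 6) (.e (nat_lit 81957) (nat_lit 24) (.e (nat_lit 123184) (nat_lit 264) (.e (nat_lit 1224) (nat_lit 90) .nil)))))) (.g (nat_lit 0) .nil .nil)))) (.nd (nat_lit 5) 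
(.lf (nat_lit 209437) (.g (nat_lit 1358) (.e (nat_lit 81947) (nat_lit 20) (.e (nat_lit 2005) (nat_lit 138) (.e (nat_lit 671748) (nat_lit 0) (.e (nat_lit 1595) (nat_lit 111) (.e (nat_lit 360455) (nat_lit 0) .nil))))) .nil)) 
(.lf (nat_lit 209469) (.g (nat_lit 2894) (.e (nat_lit 81947) (nat_lit 20) (.e (nat_lit 2006) (nat_lit 138) (.e (nat_lit 671748) (nat_lit 0) (.e (nat_lit 1586) (nat_lit 111) (.e (nat_lit 360456) (nat_lit 0) (.e (nat_lit 5818) (nat_lit 320) (.e (nat_lit 1224) (nat_lit 90) .nil))))))) (.g (nat_lit 0) .nil .nil))))))) (.nd (nat_lit 2) (.nd (nat_lit 3) (.nd (nat_lit 4) (.nd (nat_lit 5) 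
(.lf (nat_lit 209411) (.g (nat_lit 2861) (.e (nat_lit 81947) (nat_lit 20) (.e (nat_lit 2003) (nat_lit 138) (.e (nat_lit 671764) (nat_lit 6) (.e (nat_lit 81959) (nat_lit 24) (.e (nat_lit 123182) (nat_lit 264) (.e (nat_lit 1224) (nat_lit 90) .nil)))))) (.g (nat_lit 5) .nil .nil))) 
(.lf (nat_lit 209443) (.g (nat_lit 2775) (.e (nat_lit 81947) (nat_lit 20) (.e (nat_lit 2005) (nat_lit 138) (.e (nat_lit 671762) (nat_lit 4) (.e (nat_lit 65598) (nat_lit 9) (.e (nat_lit 335997) (nat_lit 1) (.e (nat_lit 57871) (nat_lit 264) (.e (nat_lit 1219) (nat_lit 90) .nil))))))) (.g (nat_lit 5) .nil .nil)))) (.nd (nat_lit 5) 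
(.lf (nat_lit 209427) (.g (nat_lit 2525) (.e (nat_lit 81947) (nat_lit 20) (.e (nat_lit 2005) (nat_lit 138) (.e (nat_lit 671748) (nat_lit 0) (.e (nat_lit 1562) (nat_lit 110) (.e (nat_lit 352318) (nat_lit 24) (.e (nat_lit 123184) (nat_lit 264) (.e (nat_lit 1224) (nat_lit 90) .nil))))))) (.g (nat_lit 6) .nil .nil))) 
(.lf (nat_lit 209459) (.g (nat_lit 2045) (.e (nat_lit 81947) (nat_lit 20) (.e (nat_lit 2006) (nat_lit 138) (.e (nat_lit 671748) (nat_lit 0) (.e (nat_lit 1562) (nat_lit 110) (.e (nat_lit 352318) (nat_lit 24) (.e (nat_lit 123185) (nat_lit 264) (.e (nat_lit 1224) (nat_lit 90) .nil))))))) (.g (nat_lit 5) .nil .nil))))) (.nd (nat_lit 4) (.nd (nat_lit 5) 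
(.lf (nat_lit 209419) (.g (nat_lit 1614) (.e (nat_lit 81947) (nat_lit 20) (.e (nat_lit 2005) (nat_lit 138) (.e (nat_lit 671747) (nat_lit 0) (.e (nat_lit 1589) (nat_lit 111) (.e (nat_lit 360453) (nat_lit 0) (.e (nat_lit 5907) (nat_lit 320) (.e (nat_lit 1219) (nat_lit 90) .nil))))))) (.g (nat_lit 4) .nil .nil))) 
(.lf (nat_lit 209451) (.g (nat_lit 2578) (.e (nat_lit 81947) (nat_lit 20) (.e (nat_lit 2005) (nat_lit 138) (.e (nat_lit 671764) (nat_lit 6) (.e (nat_lit 81950) (nat_lit 21) (.e (nat_lit 57873) (nat_lit 264) (.e (nat_lit 1219) (nat_lit 90) .nil)))))) (.g (nat_lit 0) .nil .nil)))) (.nd (nat_lit 5) 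
(.lf (nat_lit 209435) (.g (nat_lit 3376) (.e (nat_lit 81947) (nat_lit 20) (.e (nat_lit 2005) (nat_lit 138) (.e (nat_lit 671748) (nat_lit 0) (.e (nat_lit 1589) (nat_lit 111) (.e (nat_lit 360453) (nat_lit 0) (.e (nat_lit 5907) (nat_lit 320) (.e (nat_lit 1219) (nat_lit 90) .nil))))))) (.g (nat_lit 7) .nil .nil))) 
(.lf (nat_lit 209467) (.g (nat_lit 2674) (.e (nat_lit 81947) (nat_lit 20) (.e (nat_lit 2006) (nat_lit 138) (.e (nat_lit 671748) (nat_lit 0) (.e (nat_lit 1586) (nat_lit 111) (.e (nat_lit 360450) (nat_lit 0) (.e (nat_lit 5898) (nat_lit 320) (.e (nat_lit 7936) (nat_lit 90) .nil))))))) (.g (nat_lit 6) .nil .nil)))))) (.nd (nat_lit 3) (.nd (nat_lit 4) (.nd (nat_lit 5) 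
(.lf (nat_lit 209415) (.g (nat_lit 1239) (.e (nat_lit 81947) (nat_lit 20) (.e (nat_lit 2005) (nat_lit 138) (.e (nat_lit 671747) (nat_lit 0) (.e (nat_lit 1569) (nat_lit 110) (.e (nat_lit 352270) (nat_lit 8) (.e (nat_lit 270080) (nat_lit 6) .nil)))))) (.g (nat_lit 4) .nil .nil))) 
(.lf (nat_lit 209447) (.g (nat_lit 1795) (.e (nat_lit 81947) (nat_lit 20) (.e (nat_lit 2005) (nat_lit 138) (.e (nat_lit 671762) (nat_lit 4) (.e (nat_lit 65619) (nat_lit 10) (.e (nat_lit 344090) (nat_lit 18) (.e (nat_lit 5896) (nat_lit 320) (.e (nat_lit 7936) (nat_lit 90) .nil))))))) (.g (nat_lit 4) .nil .nil)))) (.nd (nat_lit 5) 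
(.lf (nat_lit 209431) (.g (nat_lit 1573) (.e (nat_lit 81947) (nat_lit 20) (.e (nat_lit 2005) (nat_lit 138) (.e (nat_lit 671748) (nat_lit 0) (.e (nat_lit 1575) (nat_lit 110) (.e (nat_lit 352270) (nat_lit 8) (.e (nat_lit 270080) (nat_lit 6) .nil)))))) (.g (nat_lit 5) .nil .nil))) 
(.lf (nat_lit 209463) (.g (nat_lit 2405) (.e (nat_lit 81947) (nat_lit 20) (.e (nat_lit 2006) (nat_lit 138) (.e (nat_lit 671748) (nat_lit 0) (.e (nat_lit 1572) (nat_lit 110) (.e (nat_lit 352318) (nat_lit 24) (.e (nat_lit 123185) (nat_lit 264) (.e (nat_lit 1224) (nat_lit 90) .nil))))))) (.g (nat_lit 5) .nil .nil))))) (.nd (nat_lit 4) (.nd (nat_lit 5) 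
(.lf (nat_lit 209423) (.g (nat_lit 845) (.e (nat_lit 81947) (nat_lit 20) (.e (nat_lit 2005) (nat_lit 138) (.e (nat_lit 671748) (nat_lit 0) (.e (nat_lit 1559) (nat_lit 110) (.e (nat_lit 360192) (nat_lit 4) .nil))))) .nil)) 
(.lf (nat_lit 209455) (.g (nat_lit 2542) (.e (nat_lit 81947) (nat_lit 20) (.e (nat_lit 2005) (nat_lit 138) (.e (nat_lit 671764) (nat_lit 6) (.e (nat_lit 81959) (nat_lit 24) (.e (nat_lit 123184) (nat_lit 264) (.e (nat_lit 1224) (nat_lit 90) .nil)))))) (.g (nat_lit 0) .nil .nil)))) (.nd (nat_lit 5) 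
(.lf (nat_lit 209439) (.g (nat_lit 2221) (.e (nat_lit 81947) (nat_lit 20) (.e (nat_lit 2005) (nat_lit 138) (.e (nat_lit 671748) (nat_lit 0) (.e (nat_lit 1598) (nat_lit 111) (.e (nat_lit 360452) (nat_lit 0) (.e (nat_lit 5906) (nat_lit 320) (.e (nat_lit 1219) (nat_lit 90) .nil))))))) (.g (nat_lit 6) .nil .nil))) 
(.lf (nat_lit 209471) (.g (nat_lit 1419) (.e (nat_lit 81947) (nat_lit 20) (.e (nat_lit 2006) (nat_lit 138) (.e (nat_lit 671748) (nat_lit 0) (.e (nat_lit 1595) (nat_lit 111) (.e (nat_lit 360455) (nat_lit 0) .nil))))) .nil))))))))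

noncomputable def tv2766 : DT := (.nd (nat_lit 0) (.nd (nat_lit 1) (.nd (nat_lit 2) (.nd (nat_lit 3) (.nd (nat_lit 4) (.nd (nat_lit 5) 
(.lf (nat_lit 209472) (.g (nat_lit 1941) (.e (nat_lit 81947) (nat_lit 20) (.e (nat_lit 2006) (nat_lit 138) (.e (nat_lit 671748) (nat_lit 0) (.e (nat_lit 1595) (nat_lit 111) (.e (nat_lit 368384) (nat_lit 0) (.e (nat_lit 5906) (nat_lit 320) (.e (nat_lit 1219) (nat_lit 90) .nil))))))) (.g (nat_lit 4) .nil .nil))) 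
(.lf (nat_lit 209504) (.g (nat_lit 1689) (.e (nat_lit 81947) (nat_lit 20) (.e (nat_lit 2270) (nat_lit 149) (.e (nat_lit 761868) (nat_lit 5) (.e (nat_lit 1597) (nat_lit 111) (.e (nat_lit 360449) (nat_lit 0) (.e (nat_lit 7124) (nat_lit 382) (.e (nat_lit 7936) (nat_lit 90) .nil))))))) (.g (nat_lit 4) .nil .nil)))) (.nd (nat_lit 5) 
(.lf (nat_lit 209488) (.g (nat_lit 3916) (.e (nat_lit 81947) (nat_lit 20) (.e (nat_lit 2006) (nat_lit 138) (.e (nat_lit 671762) (nat_lit 4) (.e (nat_lit 65619) (nat_lit 10) (.e (nat_lit 344097) (nat_lit 18) (.e (nat_lit 5907) (nat_lit 320) (.e (nat_lit 1219) (nat_lit 90) .nil))))))) (.g (nat_lit 0) .nil .nil))) 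
(.lf (nat_lit 209520) (.g (nat_lit 1757) (.e (nat_lit 81947) (nat_lit 20) (.e (nat_lit 2281) (nat_lit 150) (.e (nat_lit 770056) (nat_lit 5) (.e (nat_lit 1598) (nat_lit 111) (.e (nat_lit 360449) (nat_lit 0) (.e (nat_lit 7119) (nat_lit 382) (.e (nat_lit 7936) (nat_lit 90) .nil))))))) (.g (nat_lit 5) .nil .nil))))) (.nd (nat_lit 4) (.nd (nat_lit 5) 
(.lf (nat_lit 209480) (.g (nat_lit 3577) (.e (nat_lit 81947) (nat_lit 20) (.e (nat_lit 2006) (nat_lit 138) (.e (nat_lit 671762) (nat_lit 4) (.e (nat_lit 65598) (nat_lit 9) (.e (nat_lit 335997) (nat_lit 1) (.e (nat_lit 57872) (nat_lit 264) (.e (nat_lit 1219) (nat_lit 90) .nil))))))) (.g (nat_lit 7) .nil .nil))) 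
(.lf (nat_lit 209512) (.g (nat_lit 2745) (.e (nat_lit 81947) (nat_lit 20) (.e (nat_lit 2280) (nat_lit 150) (.e (nat_lit 770071) (nat_lit 8) (.e (nat_lit 65617) (nat_lit 10) (.e (nat_lit 344096) (nat_lit 18) (.e (nat_lit 7125) (nat_lit 382) (.e (nat_lit 1224) (nat_lit 90) .nil))))))) (.g (nat_lit 5) .nil .nil)))) (.nd (nat_lit 5) 
(.lf (nat_lit 209496) (.g (nat_lit 1647) (.e (nat_lit 81947) (nat_lit 20) (.e (nat_lit 2270) (nat_lit 149) (.e (nat_lit 761868) (nat_lit 5) (.e (nat_lit 1582) (nat_lit 111) (.e (nat_lit 360450) (nat_lit 0) (.e (nat_lit 7119) (nat_lit 382) (.e (nat_lit 7936) (nat_lit 90) .nil))))))) (.g (nat_lit 4) .nil .nil))) 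
(.lf (nat_lit 209528) (.g (nat_lit 2103) (.e (nat_lit 81947) (nat_lit 20) (.e (nat_lit 2281) (nat_lit 150) (.e (nat_lit 770057) (nat_lit 5) (.e (nat_lit 1586) (nat_lit 111) (.e (nat_lit 360451) (nat_lit 0) (.e (nat_lit 7119) (nat_lit 382) (.e (nat_lit 7936) (nat_lit 90) .nil))))))) (.g (nat_lit 5) .nil .nil)))))) (.nd (nat_lit 3) (.nd (nat_lit 4) (.nd (nat_lit 5) 
(.lf (nat_lit 209476) (.g (nat_lit 2666) (.e (nat_lit 81947) (nat_lit 20) (.e (nat_lit 2006) (nat_lit 138) (.e (nat_lit 671748) (nat_lit 0) (.e (nat_lit 1598) (nat_lit 111) (.e (nat_lit 360456) (nat_lit 0) (.e (nat_lit 5818) (nat_lit 320) (.e (nat_lit 1224) (nat_lit 90) .nil))))))) (.g (nat_lit 0) .nil .nil))) 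
(.lf (nat_lit 209508) (.g (nat_lit 2341) (.e (nat_lit 81947) (nat_lit 20) (.e (nat_lit 2280) (nat_lit 150) (.e (nat_lit 770055) (nat_lit 5) (.e (nat_lit 1589) (nat_lit 111) (.e (nat_lit 360451) (nat_lit 0) (.e (nat_lit 7125) (nat_lit 382) (.e (nat_lit 1224) (nat_lit 90) .nil))))))) (.g (nat_lit 4) .nil .nil)))) (.nd (nat_lit 5) 
(.lf (nat_lit 209492) (.g (nat_lit 3699) (.e (nat_lit 81947) (nat_lit 20) (.e (nat_lit 2006) (nat_lit 138) (.e (nat_lit 671764) (nat_lit 6) (.e (nat_lit 81957) (nat_lit 24) (.e (nat_lit 123182) (nat_lit 264) (.e (nat_lit 1224) (nat_lit 90) .nil)))))) (.g (nat_lit 0) .nil .nil))) 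
(.lf (nat_lit 209524) (.g (nat_lit 2416) (.e (nat_lit 81947) (nat_lit 20) (.e (nat_lit 2281) (nat_lit 150) (.e (nat_lit 770056) (nat_lit 5) (.e (nat_lit 1598) (nat_lit 111) (.e (nat_lit 360452) (nat_lit 0) (.e (nat_lit 7147) (nat_lit 382) (.e (nat_lit 1217) (nat_lit 90) .nil))))))) (.g (nat_lit 5) .nil .nil))))) (.nd (nat_lit 4) (.nd (nat_lit 5) 
(.lf (nat_lit 209484) (.g (nat_lit 3565) (.e (nat_lit 81947) (nat_lit 20) (.e (nat_lit 2006) (nat_lit 138) (.e (nat_lit 671762) (nat_lit 4) (.e (nat_lit 65610) (nat_lit 10) (.e (nat_lit 344097) (nat_lit 18) (.e (nat_lit 5906) (nat_lit 320) (.e (nat_lit 1219) (nat_lit 90) .nil))))))) (.g (nat_lit 0) .nil .nil))) 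
(.lf (nat_lit 209516) (.g (nat_lit 2814) (.e (nat_lit 81947) (nat_lit 20) (.e (nat_lit 2280) (nat_lit 150) (.e (nat_lit 770072) (nat_lit 8) (.e (nat_lit 65617) (nat_lit 10) (.e (nat_lit 344096) (nat_lit 18) (.e (nat_lit 7125) (nat_lit 382) (.e (nat_lit 1224) (nat_lit 90) .nil))))))) (.g (nat_lit 5) .nil .nil)))) (.nd (nat_lit 5) 
(.lf (nat_lit 209500) (.g (nat_lit 1814) (.e (nat_lit 81947) (nat_lit 20) (.e (nat_lit 2270) (nat_lit 149) (.e (nat_lit 761868) (nat_lit 5) (.e (nat_lit 1585) (nat_lit 111) (.e (nat_lit 360449) (nat_lit 0) (.e (nat_lit 7122) (nat_lit 382) (.e (nat_lit 7936) (nat_lit 90) .nil))))))) (.g (nat_lit 5) .nil .nil))) 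
(.lf (nat_lit 209532) (.g (nat_lit 1800) (.e (nat_lit 81947) (nat_lit 20) (.e (nat_lit 2281) (nat_lit 150) (.e (nat_lit 770057) (nat_lit 5) (.e (nat_lit 1589) (nat_lit 111) (.e (nat_lit 360449) (nat_lit 0) (.e (nat_lit 7122) (nat_lit 382) (.e (nat_lit 1224) (nat_lit 90) .nil))))))) (.g (nat_lit 4) .nil .nil))))))) (.nd (nat_lit 2) (.nd (nat_lit 3) (.nd (nat_lit 4) (.nd (nat_lit 5) 
(.lf (nat_lit 209474) (.g (nat_lit 3806) (.e (nat_lit 81947) (nat_lit 20) (.e (nat_lit 2006) (nat_lit 138) (.e (nat_lit 671748) (nat_lit 0) (.e (nat_lit 1598) (nat_lit 111) (.e (nat_lit 360452) (nat_lit 0) (.e (nat_lit 5907) (nat_lit 320) (.e (nat_lit 1219) (nat_lit 90) .nil))))))) (.g (nat_lit 0) .nil .nil))) 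
(.lf (nat_lit 209506) (.g (nat_lit 1937) (.e (nat_lit 81947) (nat_lit 20) (.e (nat_lit 2270) (nat_lit 149) (.e (nat_lit 761868) (nat_lit 5) (.e (nat_lit 1597) (nat_lit 111) (.e (nat_lit 368384) (nat_lit 0) (.e (nat_lit 7160) (nat_lit 382) (.e (nat_lit 7936) (nat_lit 90) .nil))))))) (.g (nat_lit 4) .nil .nil)))) (.nd (nat_lit 5) 
(.lf (nat_lit 209490) (.g (nat_lit 2269) (.e (nat_lit 81947) (nat_lit 20) (.e (nat_lit 2006) (nat_lit 138) (.e (nat_lit 671764) (nat_lit 6) (.e (nat_lit 81949) (nat_lit 21) (.e (nat_lit 57872) (nat_lit 264) (.e (nat_lit 1219) (nat_lit 90) .nil)))))) (.g (nat_lit 6) .nil .nil))) 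
(.lf (nat_lit 209522) (.g (nat_lit 1656) (.e (nat_lit 81947) (nat_lit 20) (.e (nat_lit 2281) (nat_lit 150) (.e (nat_lit 770056) (nat_lit 5) (.e (nat_lit 1598) (nat_lit 111) (.e (nat_lit 360449) (nat_lit 0) (.e (nat_lit 7124) (nat_lit 382) (.e (nat_lit 7936) (nat_lit 90) .nil))))))) (.g (nat_lit 5) .nil .nil))))) (.nd (nat_lit 4) (.nd (nat_lit 5) 
(.lf (nat_lit 209482) (.g (nat_lit 3635) (.e (nat_lit 81947) (nat_lit 20) (.e (nat_lit 2006) (nat_lit 138) (.e (nat_lit 671762) (nat_lit 4) (.e (nat_lit 65604) (nat_lit 9) (.e (nat_lit 335997) (nat_lit 1) (.e (nat_lit 57872) (nat_lit 264) (.e (nat_lit 1219) (nat_lit 90) .nil))))))) (.g (nat_lit 0) .nil .nil))) 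
(.lf (nat_lit 209514) (.g (nat_lit 2558) (.e (nat_lit 81947) (nat_lit 20) (.e (nat_lit 2280) (nat_lit 150) (.e (nat_lit 770072) (nat_lit 8) (.e (nat_lit 65617) (nat_lit 10) (.e (nat_lit 344091) (nat_lit 18) (.e (nat_lit 7125) (nat_lit 382) (.e (nat_lit 1224) (nat_lit 90) .nil))))))) (.g (nat_lit 5) .nil .nil)))) (.nd (nat_lit 5) 
(.lf (nat_lit 209498) (.g (nat_lit 2234) (.e (nat_lit 81947) (nat_lit 20) (.e (nat_lit 2270) (nat_lit 149) (.e (nat_lit 761868) (nat_lit 5) (.e (nat_lit 1582) (nat_lit 111) (.e (nat_lit 360451) (nat_lit 0) (.e (nat_lit 7122) (nat_lit 382) (.e (nat_lit 7936) (nat_lit 90) .nil))))))) (.g (nat_lit 5) .nil .nil))) 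
(.lf (nat_lit 209530) (.g (nat_lit 3745) (.e (nat_lit 81947) (nat_lit 20) (.e (nat_lit 2281) (nat_lit 150) (.e (nat_lit 770057) (nat_lit 5) (.e (nat_lit 1586) (nat_lit 111) (.e (nat_lit 360451) (nat_lit 0) (.e (nat_lit 7125) (nat_lit 382) (.e (nat_lit 1224) (nat_lit 90) .nil))))))) (.g (nat_lit 0) .nil .nil)))))) (.nd (nat_lit 3) (.nd (nat_lit 4) (.nd (nat_lit 5) 
(.lf (nat_lit 209478) (.g (nat_lit 2294) (.e (nat_lit 81947) (nat_lit 20) (.e (nat_lit 2006) (nat_lit 138) (.e (nat_lit 671760) (nat_lit 4) (.e (nat_lit 65619) (nat_lit 10) (.e (nat_lit 344097) (nat_lit 18) (.e (nat_lit 5906) (nat_lit 320) (.e (nat_lit 1219) (nat_lit 90) .nil))))))) (.g (nat_lit 5) .nil .nil))) 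
(.lf (nat_lit 209510) (.g (nat_lit 1818) (.e (nat_lit 81947) (nat_lit 20) (.e (nat_lit 2280) (nat_lit 150) (.e (nat_lit 770057) (nat_lit 5) (.e (nat_lit 1595) (nat_lit 111) (.e (nat_lit 360449) (nat_lit 0) (.e (nat_lit 7125) (nat_lit 382) (.e (nat_lit 1224) (nat_lit 90) .nil))))))) (.g (nat_lit 4) .nil .nil)))) (.nd (nat_lit 5) 
(.lf (nat_lit 209494) (.g (nat_lit 3666) (.e (nat_lit 81947) (nat_lit 20) (.e (nat_lit 2006) (nat_lit 138) (.e (nat_lit 671764) (nat_lit 6) (.e (nat_lit 81959) (nat_lit 24) (.e (nat_lit 123182) (nat_lit 264) (.e (nat_lit 1224) (nat_lit 90) .nil)))))) (.g (nat_lit 0) .nil .nil))) 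
(.lf (nat_lit 209526) (.g (nat_lit 2578) (.e (nat_lit 81947) (nat_lit 20) (.e (nat_lit 2281) (nat_lit 150) (.e (nat_lit 770057) (nat_lit 5) (.e (nat_lit 1586) (nat_lit 111) (.e (nat_lit 360450) (nat_lit 0) (.e (nat_lit 7119) (nat_lit 382) (.e (nat_lit 7936) (nat_lit 90) .nil))))))) (.g (nat_lit 6) .nil .nil))))) (.nd (nat_lit 4) (.nd (nat_lit 5) 
(.lf (nat_lit 209486) (.g (nat_lit 1921) (.e (nat_lit 81947) (nat_lit 20) (.e (nat_lit 2006) (nat_lit 138) (.e (nat_lit 671762) (nat_lit 4) (.e (nat_lit 65619) (nat_lit 10) (.e (nat_lit 344090) (nat_lit 18) (.e (nat_lit 5896) (nat_lit 320) (.e (nat_lit 7936) (nat_lit 90) .nil))))))) (.g (nat_lit 4) .nil .nil))) 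
(.lf (nat_lit 209518) (.g (nat_lit 2220) (.e (nat_lit 81947) (nat_lit 20) (.e (nat_lit 2281) (nat_lit 150) (.e (nat_lit 770054) (nat_lit 5) (.e (nat_lit 1615) (nat_lit 113) (.e (nat_lit 376860) (nat_lit 21) (.e (nat_lit 57665) (nat_lit 152) (.e (nat_lit 7936) (nat_lit 90) .nil))))))) (.g (nat_lit 6) .nil .nil)))) (.nd (nat_lit 5) 
(.lf (nat_lit 209502) (.g (nat_lit 1776) (.e (nat_lit 81947) (nat_lit 20) (.e (nat_lit 2270) (nat_lit 149) (.e (nat_lit 761868) (nat_lit 5) (.e (nat_lit 1597) (nat_lit 111) (.e (nat_lit 360449) (nat_lit 0) (.e (nat_lit 7119) (nat_lit 382) (.e (nat_lit 7936) (nat_lit 90) .nil))))))) (.g (nat_lit 4) .nil .nil))) 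
(.lf (nat_lit 209534) (.g (nat_lit 1949) (.e (nat_lit 81947) (nat_lit 20) (.e (nat_lit 2281) (nat_lit 150) (.e (nat_lit 770057) (nat_lit 5) (.e (nat_lit 1589) (nat_lit 111) (.e (nat_lit 360449) (nat_lit 0) (.e (nat_lit 7124) (nat_lit 382) (.e (nat_lit 7936) (nat_lit 90) .nil))))))) (.g (nat_lit 5) .nil .nil)))))))) 
(.nd (nat_lit 1) (.nd (nat_lit 2) (.nd (nat_lit 3) (.nd (nat_lit 4) (.nd (nat_lit 5) 
(.lf (nat_lit 209473) (.g (nat_lit 2370) (.e (nat_lit 81947) (nat_lit 20) (.e (nat_lit 2006) (nat_lit 138) (.e (nat_lit 671748) (nat_lit 0) (.e (nat_lit 1598) (nat_lit 111) (.e (nat_lit 360452) (nat_lit 0) (.e (nat_lit 5906) (nat_lit 320) (.e (nat_lit 1219) (nat_lit 90) .nil))))))) (.g (nat_lit 6) .nil .nil))) 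
(.lf (nat_lit 209505) (.g (nat_lit 1981) (.e (nat_lit 81947) (nat_lit 20) (.e (nat_lit 2270) (nat_lit 149) (.e (nat_lit 761868) (nat_lit 5) (.e (nat_lit 1597) (nat_lit 111) (.e (nat_lit 368384) (nat_lit 0) (.e (nat_lit 7125) (nat_lit 382) (.e (nat_lit 1224) (nat_lit 90) .nil))))))) (.g (nat_lit 4) .nil .nil)))) (.nd (nat_lit 5) 
(.lf (nat_lit 209489) (.g (nat_lit 2936) (.e (nat_lit 81947) (nat_lit 20) (.e (nat_lit 2006) (nat_lit 138) (.e (nat_lit 671764) (nat_lit 6) (.e (nat_lit 81948) (nat_lit 21) (.e (nat_lit 57872) (nat_lit 264) (.e (nat_lit 1219) (nat_lit 90) .nil)))))) (.g (nat_lit 0) .nil .nil))) 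
(.lf (nat_lit 209521) (.g (nat_lit 2343) (.e (nat_lit 81947) (nat_lit 20) (.e (nat_lit 2281) (nat_lit 150) (.e (nat_lit 770056) (nat_lit 5) (.e (nat_lit 1598) (nat_lit 111) (.e (nat_lit 360449) (nat_lit 0) (.e (nat_lit 7122) (nat_lit 382) (.e (nat_lit 7936) (nat_lit 90) .nil))))))) (.g (nat_lit 6) .nil .nil))))) (.nd (nat_lit 4) (.nd (nat_lit 5) 
(.lf (nat_lit 209481) (.g (nat_lit 2193) (.e (nat_lit 81947) (nat_lit 20) (.e (nat_lit 2006) (nat_lit 138) (.e (nat_lit 671762) (nat_lit 4) (.e (nat_lit 65599) (nat_lit 9) (.e (nat_lit 336032) (nat_lit 4) (.e (nat_lit 123184) (nat_lit 264) (.e (nat_lit 1224) (nat_lit 90) .nil))))))) (.g (nat_lit 4) .nil .nil))) 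
(.lf (nat_lit 209513) (.g (nat_lit 2388) (.e (nat_lit 81947) (nat_lit 20) (.e (nat_lit 2280) (nat_lit 150) (.e (nat_lit 770072) (nat_lit 8) (.e (nat_lit 65610) (nat_lit 10) (.e (nat_lit 344090) (nat_lit 18) (.e (nat_lit 7125) (nat_lit 382) (.e (nat_lit 1224) (nat_lit 90) .nil))))))) (.g (nat_lit 5) .nil .nil)))) (.nd (nat_lit 5) 
(.lf (nat_lit 209497) (.g (nat_lit 1957) (.e (nat_lit 81947) (nat_lit 20) (.e (nat_lit 2270) (nat_lit 149) (.e (nat_lit 761868) (nat_lit 5) (.e (nat_lit 1582) (nat_lit 111) (.e (nat_lit 360450) (nat_lit 0) (.e (nat_lit 7122) (nat_lit 382) (.e (nat_lit 7936) (nat_lit 90) .nil))))))) (.g (nat_lit 5) .nil .nil))) 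
(.lf (nat_lit 209529) (.g (nat_lit 2376) (.e (nat_lit 81947) (nat_lit 20) (.e (nat_lit 2281) (nat_lit 150) (.e (nat_lit 770057) (nat_lit 5) (.e (nat_lit 1586) (nat_lit 111) (.e (nat_lit 360451) (nat_lit 0) (.e (nat_lit 7124) (nat_lit 382) (.e (nat_lit 7936) (nat_lit 90) .nil))))))) (.g (nat_lit 6) .nil .nil)))))) (.nd (nat_lit 3) (.nd (nat_lit 4) (.nd (nat_lit 5) 
(.lf (nat_lit 209477) (.g (nat_lit 2412) (.e (nat_lit 81947) (nat_lit 20) (.e (nat_lit 2006) (nat_lit 138) (.e (nat_lit 671760) (nat_lit 4) (.e (nat_lit 65619) (nat_lit 10) (.e (nat_lit 344097) (nat_lit 18) (.e (nat_lit 5905) (nat_lit 320) (.e (nat_lit 1219) (nat_lit 90) .nil))))))) (.g (nat_lit 5) .nil .nil))) 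
(.lf (nat_lit 209509) (.g (nat_lit 1614) (.e (nat_lit 81947) (nat_lit 20) (.e (nat_lit 2280) (nat_lit 150) (.e (nat_lit 770057) (nat_lit 5) (.e (nat_lit 1589) (nat_lit 111) (.e (nat_lit 360449) (nat_lit 0) (.e (nat_lit 7125) (nat_lit 382) (.e (nat_lit 1224) (nat_lit 90) .nil))))))) (.g (nat_lit 4) .nil .nil)))) (.nd (nat_lit 5) 
(.lf (nat_lit 209493) (.g (nat_lit 3178) (.e (nat_lit 81947) (nat_lit 20) (.e (nat_lit 2006) (nat_lit 138) (.e (nat_lit 671764) (nat_lit 6) (.e (nat_lit 81957) (nat_lit 24) (.e (nat_lit 123184) (nat_lit 264) (.e (nat_lit 1224) (nat_lit 90) .nil)))))) (.g (nat_lit 0) .nil .nil))) 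
(.lf (nat_lit 209525) (.g (nat_lit 1835) (.e (nat_lit 81947) (nat_lit 20) (.e (nat_lit 2281) (nat_lit 150) (.e (nat_lit 770056) (nat_lit 5) (.e (nat_lit 1598) (nat_lit 111) (.e (nat_lit 360488) (nat_lit 20) (.e (nat_lit 769792) (nat_lit 10) .nil)))))) (.g (nat_lit 5) .nil .nil))))) (.nd (nat_lit 4) (.nd (nat_lit 5) 
(.lf (nat_lit 209485) (.g (nat_lit 3974) (.e (nat_lit 81947) (nat_lit 20) (.e (nat_lit 2006) (nat_lit 138) (.e (nat_lit 671762) (nat_lit 4) (.e (nat_lit 65610) (nat_lit 10) (.e (nat_lit 344097) (nat_lit 18) (.e (nat_lit 5907) (nat_lit 320) (.e (nat_lit 1219) (nat_lit 90) .nil))))))) (.g (nat_lit 0) .nil .nil))) 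
(.lf (nat_lit 209517) (.g (nat_lit 474) (.e (nat_lit 81947) (nat_lit 20) (.e (nat_lit 2281) (nat_lit 150) (.e (nat_lit 770054) (nat_lit 5) .nil))) .nil))) (.nd (nat_lit 5) 
(.lf (nat_lit 209501) (.g (nat_lit 1955) (.e (nat_lit 81947) (nat_lit 20) (.e (nat_lit 2270) (nat_lit 149) (.e (nat_lit 761868) (nat_lit 5) (.e (nat_lit 1585) (nat_lit 111) (.e (nat_lit 360488) (nat_lit 20) (.e (nat_lit 769792) (nat_lit 10) .nil)))))) (.g (nat_lit 5) .nil .nil))) 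
(.lf (nat_lit 209533) (.g (nat_lit 2665) (.e (nat_lit 81947) (nat_lit 20) (.e (nat_lit 2281) (nat_lit 150) (.e (nat_lit 770057) (nat_lit 5) (.e (nat_lit 1589) (nat_lit 111) (.e (nat_lit 360449) (nat_lit 0) (.e (nat_lit 7122) (nat_lit 382) (.e (nat_lit 7936) (nat_lit 90) .nil))))))) (.g (nat_lit 6) .nil .nil))))))) (.nd (nat_lit 2) (.nd (nat_lit 3) (.nd (nat_lit 4) (.nd (nat_lit 5) 
(.lf (nat_lit 209475) (.g (nat_lit 1785) (.e (nat_lit 81947) (nat_lit 20) (.e (nat_lit 2006) (nat_lit 138) (.e (nat_lit 671748) (nat_lit 0) (.e (nat_lit 1598) (nat_lit 111) (.e (nat_lit 360455) (nat_lit 0) (.e (nat_lit 5813) (nat_lit 320) (.e (nat_lit 7936) (nat_lit 90) .nil))))))) (.g (nat_lit 4) .nil .nil))) 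
(.lf (nat_lit 209507) (.g (nat_lit 2403) (.e (nat_lit 81947) (nat_lit 20) (.e (nat_lit 2270) (nat_lit 149) (.e (nat_lit 761868) (nat_lit 5) (.e (nat_lit 1597) (nat_lit 111) (.e (nat_lit 360488) (nat_lit 20) (.e (nat_lit 769792) (nat_lit 10) .nil)))))) (.g (nat_lit 5) .nil .nil)))) (.nd (nat_lit 5) 
(.lf (nat_lit 209491) (.g (nat_lit 2999) (.e (nat_lit 81947) (nat_lit 20) (.e (nat_lit 2006) (nat_lit 138) (.e (nat_lit 671764) (nat_lit 6) (.e (nat_lit 81950) (nat_lit 21) (.e (nat_lit 57872) (nat_lit 264) (.e (nat_lit 1219) (nat_lit 90) .nil)))))) (.g (nat_lit 0) .nil .nil))) 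
(.lf (nat_lit 209523) (.g (nat_lit 3015) (.e (nat_lit 81947) (nat_lit 20) (.e (nat_lit 2281) (nat_lit 150) (.e (nat_lit 770056) (nat_lit 5) (.e (nat_lit 1598) (nat_lit 111) (.e (nat_lit 360449) (nat_lit 0) (.e (nat_lit 7125) (nat_lit 382) (.e (nat_lit 1224) (nat_lit 90) .nil))))))) (.g (nat_lit 7) .nil .nil))))) (.nd (nat_lit 4) (.nd (nat_lit 5) 
(.lf (nat_lit 209483) (.g (nat_lit 1042) (.e (nat_lit 81947) (nat_lit 20) (.e (nat_lit 2006) (nat_lit 138) (.e (nat_lit 671762) (nat_lit 4) (.e (nat_lit 65609) (nat_lit 10) .nil)))) .nil)) 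
(.lf (nat_lit 209515) (.g (nat_lit 2098) (.e (nat_lit 81947) (nat_lit 20) (.e (nat_lit 2280) (nat_lit 150) (.e (nat_lit 770072) (nat_lit 8) (.e (nat_lit 65617) (nat_lit 10) (.e (nat_lit 344096) (nat_lit 18) (.e (nat_lit 7122) (nat_lit 382) (.e (nat_lit 7936) (nat_lit 90) .nil))))))) (.g (nat_lit 4) .nil .nil)))) (.nd (nat_lit 5) 
(.lf (nat_lit 209499) (.g (nat_lit 1869) (.e (nat_lit 81947) (nat_lit 20) (.e (nat_lit 2270) (nat_lit 149) (.e (nat_lit 761868) (nat_lit 5) (.e (nat_lit 1582) (nat_lit 111) (.e (nat_lit 360451) (nat_lit 0) (.e (nat_lit 7124) (nat_lit 382) (.e (nat_lit 7936) (nat_lit 90) .nil))))))) (.g (nat_lit 5) .nil .nil))) 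
(.lf (nat_lit 209531) (.g (nat_lit 2013) (.e (nat_lit 81947) (nat_lit 20) (.e (nat_lit 2281) (nat_lit 150) (.e (nat_lit 770057) (nat_lit 5) (.e (nat_lit 1589) (nat_lit 111) (.e (nat_lit 360449) (nat_lit 0) (.e (nat_lit 7119) (nat_lit 382) (.e (nat_lit 7936) (nat_lit 90) .nil))))))) (.g (nat_lit 5) .nil .nil)))))) (.nd (nat_lit 3) (.nd (nat_lit 4) (.nd (nat_lit 5) 
(.lf (nat_lit 209479) (.g (nat_lit 1261) (.e (nat_lit 81947) (nat_lit 20) (.e (nat_lit 2006) (nat_lit 138) (.e (nat_lit 671762) (nat_lit 4) (.e (nat_lit 65595) (nat_lit 9) (.e (nat_lit 336032) (nat_lit 4) .nil))))) .nil)) 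
(.lf (nat_lit 209511) (.g (nat_lit 2528) (.e (nat_lit 81947) (nat_lit 20) (.e (nat_lit 2280) (nat_lit 150) (.e (nat_lit 770071) (nat_lit 8) (.e (nat_lit 65617) (nat_lit 10) (.e (nat_lit 344091) (nat_lit 18) (.e (nat_lit 7125) (nat_lit 382) (.e (nat_lit 1224) (nat_lit 90) .nil))))))) (.g (nat_lit 5) .nil .nil)))) (.nd (nat_lit 5) 
(.lf (nat_lit 209495) (.g (nat_lit 2730) (.e (nat_lit 81947) (nat_lit 20) (.e (nat_lit 2006) (nat_lit 138) (.e (nat_lit 671764) (nat_lit 6) (.e (nat_lit 81959) (nat_lit 24) (.e (nat_lit 123184) (nat_lit 264) (.e (nat_lit 1224) (nat_lit 90) .nil)))))) (.g (nat_lit 0) .nil .nil))) 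
(.lf (nat_lit 209527) (.g (nat_lit 2840) (.e (nat_lit 81947) (nat_lit 20) (.e (nat_lit 2281) (nat_lit 150) (.e (nat_lit 770057) (nat_lit 5) (.e (nat_lit 1586) (nat_lit 111) (.e (nat_lit 360450) (nat_lit 0) (.e (nat_lit 7122) (nat_lit 382) (.e (nat_lit 7936) (nat_lit 90) .nil))))))) (.g (nat_lit 6) .nil .nil))))) (.nd (nat_lit 4) (.nd (nat_lit 5) 
(.lf (nat_lit 209487) (.g (nat_lit 3469) (.e (nat_lit 81947) (nat_lit 20) (.e (nat_lit 2006) (nat_lit 138) (.e (nat_lit 671762) (nat_lit 4) (.e (nat_lit 65619) (nat_lit 10) (.e (nat_lit 344097) (nat_lit 18) (.e (nat_lit 5906) (nat_lit 320) (.e (nat_lit 1219) (nat_lit 90) .nil))))))) (.g (nat_lit 0) .nil .nil))) 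
(.lf (nat_lit 209519) (.g (nat_lit 499) (.e (nat_lit 81947) (nat_lit 20) (.e (nat_lit 2281) (nat_lit 150) (.e (nat_lit 770056) (nat_lit 5) .nil))) .nil))) (.nd (nat_lit 5) 
(.lf (nat_lit 209503) (.g (nat_lit 2429) (.e (nat_lit 81947) (nat_lit 20) (.e (nat_lit 2270) (nat_lit 149) (.e (nat_lit 761868) (nat_lit 5) (.e (nat_lit 1597) (nat_lit 111) (.e (nat_lit 360449) (nat_lit 0) (.e (nat_lit 7122) (nat_lit 382) (.e (nat_lit 7936) (nat_lit 90) .nil))))))) (.g (nat_lit 6) .nil .nil))) 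
(.lf (nat_lit 209535) (.g (nat_lit 3376) (.e (nat_lit 81947) (nat_lit 20) (.e (nat_lit 2281) (nat_lit 150) (.e (nat_lit 770057) (nat_lit 5) (.e (nat_lit 1589) (nat_lit 111) (.e (nat_lit 360449) (nat_lit 0) (.e (nat_lit 7125) (nat_lit 382) (.e (nat_lit 1224) (nat_lit 90) .nil))))))) (.g (nat_lit 7) .nil .nil)))))))))

noncomputable def tv2767 : DT := (.nd (nat_lit 0) (.nd (nat_lit 1) (.nd (nat_lit 2) (.nd (nat_lit 3) (.nd (nat_lit 4) (.nd (nat_lit 5) 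
(.lf (nat_lit 209536) (.g (nat_lit 3802) (.e (nat_lit 81947) (nat_lit 20) (.e (nat_lit 2281) (nat_lit 150) (.e (nat_lit 770057) (nat_lit 5) (.e (nat_lit 1589) (nat_lit 111) (.e (nat_lit 360451) (nat_lit 0) (.e (nat_lit 7125) (nat_lit 382) (.e (nat_lit 1224) (nat_lit 90) .nil))))))) (.g (nat_lit 7) .nil .nil))) 
(.lf (nat_lit 209568) (.g (nat_lit 3492) (.e (nat_lit 81947) (nat_lit 20) (.e (nat_lit 2281) (nat_lit 150) (.e (nat_lit 770058) (nat_lit 5) (.e (nat_lit 1595) (nat_lit 111) (.e (nat_lit 360449) (nat_lit 0) (.e (nat_lit 7125) (nat_lit 382) (.e (nat_lit 1224) (nat_lit 90) .nil))))))) (.g (nat_lit 0) .nil .nil)))) (.nd (nat_lit 5) 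
(.lf (nat_lit 209552) (.g (nat_lit 2325) (.e (nat_lit 81947) (nat_lit 20) (.e (nat_lit 2281) (nat_lit 150) (.e (nat_lit 770058) (nat_lit 5) (.e (nat_lit 1586) (nat_lit 111) (.e (nat_lit 360451) (nat_lit 0) (.e (nat_lit 7119) (nat_lit 382) (.e (nat_lit 7936) (nat_lit 90) .nil))))))) (.g (nat_lit 5) .nil .nil))) 
(.lf (nat_lit 209584) (.g (nat_lit 2849) (.e (nat_lit 81947) (nat_lit 20) (.e (nat_lit 2281) (nat_lit 150) (.e (nat_lit 770072) (nat_lit 8) (.e (nat_lit 65610) (nat_lit 10) (.e (nat_lit 344090) (nat_lit 18) (.e (nat_lit 7124) (nat_lit 382) (.e (nat_lit 7936) (nat_lit 90) .nil))))))) (.g (nat_lit 6) .nil .nil))))) (.nd (nat_lit 4) (.nd (nat_lit 5) 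
(.lf (nat_lit 209544) (.g (nat_lit 2312) (.e (nat_lit 81947) (nat_lit 20) (.e (nat_lit 2281) (nat_lit 150) (.e (nat_lit 770057) (nat_lit 5) (.e (nat_lit 1598) (nat_lit 111) (.e (nat_lit 360449) (nat_lit 0) (.e (nat_lit 7122) (nat_lit 382) (.e (nat_lit 7936) (nat_lit 90) .nil))))))) (.g (nat_lit 6) .nil .nil))) 
(.lf (nat_lit 209576) (.g (nat_lit 1723) (.e (nat_lit 81947) (nat_lit 20) (.e (nat_lit 2281) (nat_lit 150) (.e (nat_lit 770058) (nat_lit 5) (.e (nat_lit 1599) (nat_lit 111) (.e (nat_lit 360488) (nat_lit 20) (.e (nat_lit 769792) (nat_lit 10) .nil)))))) (.g (nat_lit 5) .nil .nil)))) (.nd (nat_lit 5) 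
(.lf (nat_lit 209560) (.g (nat_lit 3568) (.e (nat_lit 81947) (nat_lit 20) (.e (nat_lit 2281) (nat_lit 150) (.e (nat_lit 770058) (nat_lit 5) (.e (nat_lit 1589) (nat_lit 111) (.e (nat_lit 360449) (nat_lit 0) (.e (nat_lit 7125) (nat_lit 382) (.e (nat_lit 1224) (nat_lit 90) .nil))))))) (.g (nat_lit 7) .nil .nil))) 
(.lf (nat_lit 209592) (.g (nat_lit 2461) (.e (nat_lit 81947) (nat_lit 20) (.e (nat_lit 2281) (nat_lit 150) (.e (nat_lit 770072) (nat_lit 8) (.e (nat_lit 65616) (nat_lit 10) (.e (nat_lit 344174) (nat_lit 42) (.e (nat_lit 769792) (nat_lit 10) .nil)))))) (.g (nat_lit 5) .nil .nil)))))) (.nd (nat_lit 3) (.nd (nat_lit 4) (.nd (nat_lit 5) 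
(.lf (nat_lit 209540) (.g (nat_lit 1427) (.e (nat_lit 81947) (nat_lit 20) (.e (nat_lit 2281) (nat_lit 150) (.e (nat_lit 770057) (nat_lit 5) (.e (nat_lit 1595) (nat_lit 111) (.e (nat_lit 360449) (nat_lit 0) (.e (nat_lit 7124) (nat_lit 382) (.e (nat_lit 7936) (nat_lit 90) .nil))))))) (.g (nat_lit 4) .nil .nil))) 
(.lf (nat_lit 209572) (.g (nat_lit 2562) (.e (nat_lit 81947) (nat_lit 20) (.e (nat_lit 2281) (nat_lit 150) (.e (nat_lit 770058) (nat_lit 5) (.e (nat_lit 1598) (nat_lit 111) (.e (nat_lit 360449) (nat_lit 0) (.e (nat_lit 7122) (nat_lit 382) (.e (nat_lit 7936) (nat_lit 90) .nil))))))) (.g (nat_lit 6) .nil .nil)))) (.nd (nat_lit 5) 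
(.lf (nat_lit 209556) (.g (nat_lit 2638) (.e (nat_lit 81947) (nat_lit 20) (.e (nat_lit 2281) (nat_lit 150) (.e (nat_lit 770058) (nat_lit 5) (.e (nat_lit 1586) (nat_lit 111) (.e (nat_lit 360489) (nat_lit 21) (.e (nat_lit 770074) (nat_lit 10) .nil)))))) (.g (nat_lit 0) .nil .nil))) 
(.lf (nat_lit 209588) (.g (nat_lit 2578) (.e (nat_lit 81947) (nat_lit 20) (.e (nat_lit 2281) (nat_lit 150) (.e (nat_lit 770072) (nat_lit 8) (.e (nat_lit 65610) (nat_lit 10) (.e (nat_lit 344173) (nat_lit 42) (.e (nat_lit 769792) (nat_lit 10) .nil)))))) (.g (nat_lit 5) .nil .nil))))) (.nd (nat_lit 4) (.nd (nat_lit 5) 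
(.lf (nat_lit 209548) (.g (nat_lit 1638) (.e (nat_lit 81947) (nat_lit 20) (.e (nat_lit 2281) (nat_lit 150) (.e (nat_lit 770057) (nat_lit 5) (.e (nat_lit 1599) (nat_lit 111) (.e (nat_lit 360488) (nat_lit 20) (.e (nat_lit 769792) (nat_lit 10) .nil)))))) (.g (nat_lit 5) .nil .nil))) 
(.lf (nat_lit 209580) (.g (nat_lit 1694) (.e (nat_lit 81947) (nat_lit 20) (.e (nat_lit 2281) (nat_lit 150) (.e (nat_lit 770072) (nat_lit 8) (.e (nat_lit 65583) (nat_lit 7) (.e (nat_lit 319499) (nat_lit 10) .nil))))) .nil))) (.nd (nat_lit 5) 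
(.lf (nat_lit 209564) (.g (nat_lit 2489) (.e (nat_lit 81947) (nat_lit 20) (.e (nat_lit 2281) (nat_lit 150) (.e (nat_lit 770058) (nat_lit 5) (.e (nat_lit 1589) (nat_lit 111) (.e (nat_lit 360488) (nat_lit 20) (.e (nat_lit 769792) (nat_lit 10) .nil)))))) (.g (nat_lit 5) .nil .nil))) 
(.lf (nat_lit 209596) (.g (nat_lit 4031) (.e (nat_lit 81947) (nat_lit 20) (.e (nat_lit 2281) (nat_lit 150) (.e (nat_lit 770072) (nat_lit 8) (.e (nat_lit 65617) (nat_lit 10) (.e (nat_lit 344091) (nat_lit 18) (.e (nat_lit 7125) (nat_lit 382) (.e (nat_lit 1224) (nat_lit 90) .nil))))))) (.g (nat_lit 0) .nil .nil))))))) (.nd (nat_lit 2) (.nd (nat_lit 3) (.nd (nat_lit 4) (.nd (nat_lit 5) 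
(.lf (nat_lit 209538) (.g (nat_lit 2325) (.e (nat_lit 81947) (nat_lit 20) (.e (nat_lit 2281) (nat_lit 150) (.e (nat_lit 770057) (nat_lit 5) (.e (nat_lit 1589) (nat_lit 111) (.e (nat_lit 360488) (nat_lit 20) (.e (nat_lit 769792) (nat_lit 10) .nil)))))) (.g (nat_lit 5) .nil .nil))) 
(.lf (nat_lit 209570) (.g (nat_lit 2041) (.e (nat_lit 81947) (nat_lit 20) (.e (nat_lit 2281) (nat_lit 150) (.e (nat_lit 770058) (nat_lit 5) (.e (nat_lit 1595) (nat_lit 111) (.e (nat_lit 360488) (nat_lit 20) (.e (nat_lit 769792) (nat_lit 10) .nil)))))) (.g (nat_lit 5) .nil .nil)))) (.nd (nat_lit 5) 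
(.lf (nat_lit 209554) (.g (nat_lit 4065) (.e (nat_lit 81947) (nat_lit 20) (.e (nat_lit 2281) (nat_lit 150) (.e (nat_lit 770058) (nat_lit 5) (.e (nat_lit 1586) (nat_lit 111) (.e (nat_lit 360451) (nat_lit 0) (.e (nat_lit 7125) (nat_lit 382) (.e (nat_lit 1224) (nat_lit 90) .nil))))))) (.g (nat_lit 0) .nil .nil))) 
(.lf (nat_lit 209586) (.g (nat_lit 2832) (.e (nat_lit 81947) (nat_lit 20) (.e (nat_lit 2281) (nat_lit 150) (.e (nat_lit 770072) (nat_lit 8) (.e (nat_lit 65610) (nat_lit 10) (.e (nat_lit 344097) (nat_lit 18) (.e (nat_lit 7146) (nat_lit 382) (.e (nat_lit 1217) (nat_lit 90) .nil))))))) (.g (nat_lit 5) .nil .nil))))) (.nd (nat_lit 4) (.nd (nat_lit 5) 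
(.lf (nat_lit 209546) (.g (nat_lit 2392) (.e (nat_lit 81947) (nat_lit 20) (.e (nat_lit 2281) (nat_lit 150) (.e (nat_lit 770057) (nat_lit 5) (.e (nat_lit 1598) (nat_lit 111) (.e (nat_lit 360452) (nat_lit 0) (.e (nat_lit 7147) (nat_lit 382) (.e (nat_lit 1217) (nat_lit 90) .nil))))))) (.g (nat_lit 5) .nil .nil))) 
(.lf (nat_lit 209578) (.g (nat_lit 1898) (.e (nat_lit 81947) (nat_lit 20) (.e (nat_lit 2281) (nat_lit 150) (.e (nat_lit 770071) (nat_lit 8) (.e (nat_lit 65617) (nat_lit 10) (.e (nat_lit 344096) (nat_lit 18) (.e (nat_lit 7125) (nat_lit 382) (.e (nat_lit 1224) (nat_lit 90) .nil))))))) (.g (nat_lit 4) .nil .nil)))) (.nd (nat_lit 5) 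
(.lf (nat_lit 209562) (.g (nat_lit 2418) (.e (nat_lit 81947) (nat_lit 20) (.e (nat_lit 2281) (nat_lit 150) (.e (nat_lit 770058) (nat_lit 5) (.e (nat_lit 1589) (nat_lit 111) (.e (nat_lit 360453) (nat_lit 0) (.e (nat_lit 7147) (nat_lit 382) (.e (nat_lit 1217) (nat_lit 90) .nil))))))) (.g (nat_lit 5) .nil .nil))) 
(.lf (nat_lit 209594) (.g (nat_lit 3281) (.e (nat_lit 81947) (nat_lit 20) (.e (nat_lit 2281) (nat_lit 150) (.e (nat_lit 770072) (nat_lit 8) (.e (nat_lit 65617) (nat_lit 10) (.e (nat_lit 344091) (nat_lit 18) (.e (nat_lit 7122) (nat_lit 382) (.e (nat_lit 7936) (nat_lit 90) .nil))))))) (.g (nat_lit 6) .nil .nil)))))) (.nd (nat_lit 3) (.nd (nat_lit 4) (.nd (nat_lit 5) 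
(.lf (nat_lit 209542) (.g (nat_lit 2012) (.e (nat_lit 81947) (nat_lit 20) (.e (nat_lit 2281) (nat_lit 150) (.e (nat_lit 770057) (nat_lit 5) (.e (nat_lit 1595) (nat_lit 111) (.e (nat_lit 360488) (nat_lit 20) (.e (nat_lit 769792) (nat_lit 10) .nil)))))) (.g (nat_lit 5) .nil .nil))) 
(.lf (nat_lit 209574) (.g (nat_lit 3274) (.e (nat_lit 81947) (nat_lit 20) (.e (nat_lit 2281) (nat_lit 150) (.e (nat_lit 770058) (nat_lit 5) (.e (nat_lit 1598) (nat_lit 111) (.e (nat_lit 360449) (nat_lit 0) (.e (nat_lit 7125) (nat_lit 382) (.e (nat_lit 1224) (nat_lit 90) .nil))))))) (.g (nat_lit 0) .nil .nil)))) (.nd (nat_lit 5) 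
(.lf (nat_lit 209558) (.g (nat_lit 2847) (.e (nat_lit 81947) (nat_lit 20) (.e (nat_lit 2281) (nat_lit 150) (.e (nat_lit 770058) (nat_lit 5) (.e (nat_lit 1589) (nat_lit 111) (.e (nat_lit 360449) (nat_lit 0) (.e (nat_lit 7122) (nat_lit 382) (.e (nat_lit 7936) (nat_lit 90) .nil))))))) (.g (nat_lit 6) .nil .nil))) 
(.lf (nat_lit 209590) (.g (nat_lit 1999) (.e (nat_lit 81947) (nat_lit 20) (.e (nat_lit 2281) (nat_lit 150) (.e (nat_lit 770072) (nat_lit 8) (.e (nat_lit 65610) (nat_lit 10) (.e (nat_lit 344175) (nat_lit 43) .nil))))) .nil)))) (.nd (nat_lit 4) (.nd (nat_lit 5) 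
(.lf (nat_lit 209550) (.g (nat_lit 2692) (.e (nat_lit 81947) (nat_lit 20) (.e (nat_lit 2281) (nat_lit 150) (.e (nat_lit 770058) (nat_lit 5) (.e (nat_lit 1586) (nat_lit 111) (.e (nat_lit 360450) (nat_lit 0) (.e (nat_lit 7119) (nat_lit 382) (.e (nat_lit 7936) (nat_lit 90) .nil))))))) (.g (nat_lit 6) .nil .nil))) 
(.lf (nat_lit 209582) (.g (nat_lit 1613) (.e (nat_lit 81947) (nat_lit 20) (.e (nat_lit 2281) (nat_lit 150) (.e (nat_lit 770072) (nat_lit 8) (.e (nat_lit 65609) (nat_lit 10) (.e (nat_lit 344174) (nat_lit 42) .nil))))) .nil))) (.nd (nat_lit 5) 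
(.lf (nat_lit 209566) (.g (nat_lit 1811) (.e (nat_lit 81947) (nat_lit 20) (.e (nat_lit 2281) (nat_lit 150) (.e (nat_lit 770058) (nat_lit 5) (.e (nat_lit 1595) (nat_lit 111) (.e (nat_lit 360449) (nat_lit 0) (.e (nat_lit 7119) (nat_lit 382) (.e (nat_lit 7936) (nat_lit 90) .nil))))))) (.g (nat_lit 4) .nil .nil))) 
(.lf (nat_lit 209598) (.g (nat_lit 2541) (.e (nat_lit 81947) (nat_lit 20) (.e (nat_lit 2281) (nat_lit 150) (.e (nat_lit 770072) (nat_lit 8) (.e (nat_lit 65617) (nat_lit 10) (.e (nat_lit 344095) (nat_lit 18) (.e (nat_lit 7119) (nat_lit 382) (.e (nat_lit 7936) (nat_lit 90) .nil))))))) (.g (nat_lit 5) .nil .nil)))))))) 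
(.nd (nat_lit 1) (.nd (nat_lit 2) (.nd (nat_lit 3) (.nd (nat_lit 4) (.nd (nat_lit 5) 
(.lf (nat_lit 209537) (.g (nat_lit 2405) (.e (nat_lit 81947) (nat_lit 20) (.e (nat_lit 2281) (nat_lit 150) (.e (nat_lit 770057) (nat_lit 5) (.e (nat_lit 1589) (nat_lit 111) (.e (nat_lit 360453) (nat_lit 0) (.e (nat_lit 7147) (nat_lit 382) (.e (nat_lit 1217) (nat_lit 90) .nil))))))) (.g (nat_lit 5) .nil .nil))) 
(.lf (nat_lit 209569) (.g (nat_lit 2333) (.e (nat_lit 81947) (nat_lit 20) (.e (nat_lit 2281) (nat_lit 150) (.e (nat_lit 770058) (nat_lit 5) (.e (nat_lit 1595) (nat_lit 111) (.e (nat_lit 360453) (nat_lit 0) (.e (nat_lit 7147) (nat_lit 382) (.e (nat_lit 1217) (nat_lit 90) .nil))))))) (.g (nat_lit 5) .nil .nil)))) (.nd (nat_lit 5) 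
(.lf (nat_lit 209553) (.g (nat_lit 2622) (.e (nat_lit 81947) (nat_lit 20) (.e (nat_lit 2281) (nat_lit 150) (.e (nat_lit 770058) (nat_lit 5) (.e (nat_lit 1586) (nat_lit 111) (.e (nat_lit 360451) (nat_lit 0) (.e (nat_lit 7124) (nat_lit 382) (.e (nat_lit 7936) (nat_lit 90) .nil))))))) (.g (nat_lit 6) .nil .nil))) 
(.lf (nat_lit 209585) (.g (nat_lit 4027) (.e (nat_lit 81947) (nat_lit 20) (.e (nat_lit 2281) (nat_lit 150) (.e (nat_lit 770072) (nat_lit 8) (.e (nat_lit 65610) (nat_lit 10) (.e (nat_lit 344090) (nat_lit 18) (.e (nat_lit 7125) (nat_lit 382) (.e (nat_lit 1224) (nat_lit 90) .nil))))))) (.g (nat_lit 0) .nil .nil))))) (.nd (nat_lit 4) (.nd (nat_lit 5) 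
(.lf (nat_lit 209545) (.g (nat_lit 1628) (.e (nat_lit 81947) (nat_lit 20) (.e (nat_lit 2281) (nat_lit 150) (.e (nat_lit 770057) (nat_lit 5) (.e (nat_lit 1598) (nat_lit 111) (.e (nat_lit 360449) (nat_lit 0) (.e (nat_lit 7124) (nat_lit 382) (.e (nat_lit 7936) (nat_lit 90) .nil))))))) (.g (nat_lit 5) .nil .nil))) 
(.lf (nat_lit 209577) (.g (nat_lit 2166) (.e (nat_lit 81947) (nat_lit 20) (.e (nat_lit 2281) (nat_lit 150) (.e (nat_lit 770058) (nat_lit 5) (.e (nat_lit 1599) (nat_lit 111) (.e (nat_lit 360489) (nat_lit 21) (.e (nat_lit 770074) (nat_lit 10) .nil)))))) (.g (nat_lit 0) .nil .nil)))) (.nd (nat_lit 5) 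
(.lf (nat_lit 209561) (.g (nat_lit 3942) (.e (nat_lit 81947) (nat_lit 20) (.e (nat_lit 2281) (nat_lit 150) (.e (nat_lit 770058) (nat_lit 5) (.e (nat_lit 1589) (nat_lit 111) (.e (nat_lit 360451) (nat_lit 0) (.e (nat_lit 7125) (nat_lit 382) (.e (nat_lit 1224) (nat_lit 90) .nil))))))) (.g (nat_lit 7) .nil .nil))) 
(.lf (nat_lit 209593) (.g (nat_lit 3254) (.e (nat_lit 81947) (nat_lit 20) (.e (nat_lit 2281) (nat_lit 150) (.e (nat_lit 770072) (nat_lit 8) (.e (nat_lit 65617) (nat_lit 10) (.e (nat_lit 344091) (nat_lit 18) (.e (nat_lit 7119) (nat_lit 382) (.e (nat_lit 7936) (nat_lit 90) .nil))))))) (.g (nat_lit 6) .nil .nil)))))) (.nd (nat_lit 3) (.nd (nat_lit 4) (.nd (nat_lit 5) 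
(.lf (nat_lit 209541) (.g (nat_lit 2265) (.e (nat_lit 81947) (nat_lit 20) (.e (nat_lit 2281) (nat_lit 150) (.e (nat_lit 770057) (nat_lit 5) (.e (nat_lit 1595) (nat_lit 111) (.e (nat_lit 360453) (nat_lit 0) (.e (nat_lit 7147) (nat_lit 382) (.e (nat_lit 1217) (nat_lit 90) .nil))))))) (.g (nat_lit 5) .nil .nil))) 
(.lf (nat_lit 209573) (.g (nat_lit 1874) (.e (nat_lit 81947) (nat_lit 20) (.e (nat_lit 2281) (nat_lit 150) (.e (nat_lit 770058) (nat_lit 5) (.e (nat_lit 1598) (nat_lit 111) (.e (nat_lit 360449) (nat_lit 0) (.e (nat_lit 7124) (nat_lit 382) (.e (nat_lit 7936) (nat_lit 90) .nil))))))) (.g (nat_lit 5) .nil .nil)))) (.nd (nat_lit 5) 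
(.lf (nat_lit 209557) (.g (nat_lit 2204) (.e (nat_lit 81947) (nat_lit 20) (.e (nat_lit 2281) (nat_lit 150) (.e (nat_lit 770058) (nat_lit 5) (.e (nat_lit 1589) (nat_lit 111) (.e (nat_lit 360449) (nat_lit 0) (.e (nat_lit 7119) (nat_lit 382) (.e (nat_lit 7936) (nat_lit 90) .nil))))))) (.g (nat_lit 5) .nil .nil))) 
(.lf (nat_lit 209589) (.g (nat_lit 2793) (.e (nat_lit 81947) (nat_lit 20) (.e (nat_lit 2281) (nat_lit 150) (.e (nat_lit 770072) (nat_lit 8) (.e (nat_lit 65610) (nat_lit 10) (.e (nat_lit 344174) (nat_lit 42) (.e (nat_lit 769792) (nat_lit 10) .nil)))))) (.g (nat_lit 5) .nil .nil))))) (.nd (nat_lit 4) (.nd (nat_lit 5) 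
(.lf (nat_lit 209549) (.g (nat_lit 381) (.e (nat_lit 81947) (nat_lit 20) (.e (nat_lit 2281) (nat_lit 150) (.e (nat_lit 770058) (nat_lit 5) .nil))) .nil)) 
(.lf (nat_lit 209581) (.g (nat_lit 2086) (.e (nat_lit 81947) (nat_lit 20) (.e (nat_lit 2281) (nat_lit 150) (.e (nat_lit 770072) (nat_lit 8) (.e (nat_lit 65598) (nat_lit 9) (.e (nat_lit 335903) (nat_lit 0) .nil))))) .nil))) (.nd (nat_lit 5) 
(.lf (nat_lit 209565) (.g (nat_lit 2947) (.e (nat_lit 81947) (nat_lit 20) (.e (nat_lit 2281) (nat_lit 150) (.e (nat_lit 770058) (nat_lit 5) (.e (nat_lit 1589) (nat_lit 111) (.e (nat_lit 360489) (nat_lit 21) (.e (nat_lit 770074) (nat_lit 10) .nil)))))) (.g (nat_lit 0) .nil .nil))) 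
(.lf (nat_lit 209597) (.g (nat_lit 1981) (.e (nat_lit 81947) (nat_lit 20) (.e (nat_lit 2281) (nat_lit 150) (.e (nat_lit 770072) (nat_lit 8) (.e (nat_lit 65617) (nat_lit 10) (.e (nat_lit 344091) (nat_lit 18) (.e (nat_lit 7132) (nat_lit 382) (.e (nat_lit 7936) (nat_lit 90) .nil))))))) (.g (nat_lit 4) .nil .nil))))))) (.nd (nat_lit 2) (.nd (nat_lit 3) (.nd (nat_lit 4) (.nd (nat_lit 5) 
(.lf (nat_lit 209539) (.g (nat_lit 1587) (.e (nat_lit 81947) (nat_lit 20) (.e (nat_lit 2281) (nat_lit 150) (.e (nat_lit 770057) (nat_lit 5) (.e (nat_lit 1595) (nat_lit 111) (.e (nat_lit 360449) (nat_lit 0) (.e (nat_lit 7119) (nat_lit 382) (.e (nat_lit 7936) (nat_lit 90) .nil))))))) (.g (nat_lit 4) .nil .nil))) 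
(.lf (nat_lit 209571) (.g (nat_lit 1987) (.e (nat_lit 81947) (nat_lit 20) (.e (nat_lit 2281) (nat_lit 150) (.e (nat_lit 770058) (nat_lit 5) (.e (nat_lit 1598) (nat_lit 111) (.e (nat_lit 360449) (nat_lit 0) (.e (nat_lit 7119) (nat_lit 382) (.e (nat_lit 7936) (nat_lit 90) .nil))))))) (.g (nat_lit 5) .nil .nil)))) (.nd (nat_lit 5) 
(.lf (nat_lit 209555) (.g (nat_lit 1799) (.e (nat_lit 81947) (nat_lit 20) (.e (nat_lit 2281) (nat_lit 150) (.e (nat_lit 770058) (nat_lit 5) (.e (nat_lit 1586) (nat_lit 111) (.e (nat_lit 360451) (nat_lit 0) (.e (nat_lit 7132) (nat_lit 382) (.e (nat_lit 7936) (nat_lit 90) .nil))))))) (.g (nat_lit 4) .nil .nil))) 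
(.lf (nat_lit 209587) (.g (nat_lit 2941) (.e (nat_lit 81947) (nat_lit 20) (.e (nat_lit 2281) (nat_lit 150) (.e (nat_lit 770072) (nat_lit 8) (.e (nat_lit 65610) (nat_lit 10) (.e (nat_lit 344097) (nat_lit 18) (.e (nat_lit 7160) (nat_lit 382) (.e (nat_lit 7936) (nat_lit 90) .nil))))))) (.g (nat_lit 5) .nil .nil))))) (.nd (nat_lit 4) (.nd (nat_lit 5) 
(.lf (nat_lit 209547) (.g (nat_lit 1802) (.e (nat_lit 81947) (nat_lit 20) (.e (nat_lit 2281) (nat_lit 150) (.e (nat_lit 770057) (nat_lit 5) (.e (nat_lit 1598) (nat_lit 111) (.e (nat_lit 360488) (nat_lit 20) (.e (nat_lit 769792) (nat_lit 10) .nil)))))) (.g (nat_lit 5) .nil .nil))) 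
(.lf (nat_lit 209579) (.g (nat_lit 387) (.e (nat_lit 81947) (nat_lit 20) (.e (nat_lit 2281) (nat_lit 150) (.e (nat_lit 770072) (nat_lit 8) .nil))) .nil))) (.nd (nat_lit 5) 
(.lf (nat_lit 209563) (.g (nat_lit 1344) (.e (nat_lit 81947) (nat_lit 20) (.e (nat_lit 2281) (nat_lit 150) (.e (nat_lit 770058) (nat_lit 5) (.e (nat_lit 1589) (nat_lit 111) (.e (nat_lit 368384) (nat_lit 0) .nil))))) .nil)) 
(.lf (nat_lit 209595) (.g (nat_lit 2832) (.e (nat_lit 81947) (nat_lit 20) (.e (nat_lit 2281) (nat_lit 150) (.e (nat_lit 770072) (nat_lit 8) (.e (nat_lit 65617) (nat_lit 10) (.e (nat_lit 344091) (nat_lit 18) (.e (nat_lit 7124) (nat_lit 382) (.e (nat_lit 7936) (nat_lit 90) .nil))))))) (.g (nat_lit 5) .nil .nil)))))) (.nd (nat_lit 3) (.nd (nat_lit 4) (.nd (nat_lit 5) 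
(.lf (nat_lit 209543) (.g (nat_lit 1729) (.e (nat_lit 81947) (nat_lit 20) (.e (nat_lit 2281) (nat_lit 150) (.e (nat_lit 770057) (nat_lit 5) (.e (nat_lit 1598) (nat_lit 111) (.e (nat_lit 360449) (nat_lit 0) (.e (nat_lit 7119) (nat_lit 382) (.e (nat_lit 7936) (nat_lit 90) .nil))))))) (.g (nat_lit 5) .nil .nil))) 
(.lf (nat_lit 209575) (.g (nat_lit 1875) (.e (nat_lit 81947) (nat_lit 20) (.e (nat_lit 2281) (nat_lit 150) (.e (nat_lit 770058) (nat_lit 5) (.e (nat_lit 1598) (nat_lit 111) (.e (nat_lit 360488) (nat_lit 20) (.e (nat_lit 769792) (nat_lit 10) .nil)))))) (.g (nat_lit 5) .nil .nil)))) (.nd (nat_lit 5) 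
(.lf (nat_lit 209559) (.g (nat_lit 2136) (.e (nat_lit 81947) (nat_lit 20) (.e (nat_lit 2281) (nat_lit 150) (.e (nat_lit 770058) (nat_lit 5) (.e (nat_lit 1589) (nat_lit 111) (.e (nat_lit 360449) (nat_lit 0) (.e (nat_lit 7124) (nat_lit 382) (.e (nat_lit 7936) (nat_lit 90) .nil))))))) (.g (nat_lit 5) .nil .nil))) 
(.lf (nat_lit 209591) (.g (nat_lit 2504) (.e (nat_lit 81947) (nat_lit 20) (.e (nat_lit 2281) (nat_lit 150) (.e (nat_lit 770072) (nat_lit 8) (.e (nat_lit 65611) (nat_lit 10) (.e (nat_lit 344174) (nat_lit 42) (.e (nat_lit 769792) (nat_lit 10) .nil)))))) (.g (nat_lit 5) .nil .nil))))) (.nd (nat_lit 4) (.nd (nat_lit 5) 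
(.lf (nat_lit 209551) (.g (nat_lit 2956) (.e (nat_lit 81947) (nat_lit 20) (.e (nat_lit 2281) (nat_lit 150) (.e (nat_lit 770058) (nat_lit 5) (.e (nat_lit 1586) (nat_lit 111) (.e (nat_lit 360450) (nat_lit 0) (.e (nat_lit 7122) (nat_lit 382) (.e (nat_lit 7936) (nat_lit 90) .nil))))))) (.g (nat_lit 6) .nil .nil))) 
(.lf (nat_lit 209583) (.g (nat_lit 3169) (.e (nat_lit 81947) (nat_lit 20) (.e (nat_lit 2281) (nat_lit 150) (.e (nat_lit 770072) (nat_lit 8) (.e (nat_lit 65610) (nat_lit 10) (.e (nat_lit 344090) (nat_lit 18) (.e (nat_lit 7119) (nat_lit 382) (.e (nat_lit 7936) (nat_lit 90) .nil))))))) (.g (nat_lit 6) .nil .nil)))) (.nd (nat_lit 5) 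
(.lf (nat_lit 209567) (.g (nat_lit 1651) (.e (nat_lit 81947) (nat_lit 20) (.e (nat_lit 2281) (nat_lit 150) (.e (nat_lit 770058) (nat_lit 5) (.e (nat_lit 1595) (nat_lit 111) (.e (nat_lit 360449) (nat_lit 0) (.e (nat_lit 7124) (nat_lit 382) (.e (nat_lit 7936) (nat_lit 90) .nil))))))) (.g (nat_lit 4) .nil .nil))) 
(.lf (nat_lit 209599) (.g (nat_lit 2177) (.e (nat_lit 81947) (nat_lit 20) (.e (nat_lit 2281) (nat_lit 150) (.e (nat_lit 770072) (nat_lit 8) (.e (nat_lit 65617) (nat_lit 10) (.e (nat_lit 344095) (nat_lit 18) (.e (nat_lit 7122) (nat_lit 382) (.e (nat_lit 1224) (nat_lit 90) .nil))))))) (.g (nat_lit 4) .nil .nil)))))))))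

noncomputable def tv2768 : DT := (.nd (nat_lit 0) (.nd (nat_lit 1) (.nd (nat_lit 2) (.nd (nat_lit 3) (.nd (nat_lit 4) (.nd (nat_lit 5) 
(.lf (nat_lit 209600) (.g (nat_lit 3052) (.e (nat_lit 81947) (nat_lit 20) (.e (nat_lit 2281) (nat_lit 150) (.e (nat_lit 770072) (nat_lit 8) (.e (nat_lit 65617) (nat_lit 10) (.e (nat_lit 344095) (nat_lit 18) (.e (nat_lit 7122) (nat_lit 382) (.e (nat_lit 7936) (nat_lit 90) .nil))))))) (.g (nat_lit 6) .nil .nil))) 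
(.lf (nat_lit 209632) (.g (nat_lit 3031) (.e (nat_lit 81948) (nat_lit 21) (.e (nat_lit 57680) (nat_lit 155) (.e (nat_lit 122919) (nat_lit 15) (.e (nat_lit 360451) (nat_lit 0) (.e (nat_lit 7122) (nat_lit 382) (.e (nat_lit 7936) (nat_lit 90) .nil)))))) (.g (nat_lit 5) .nil .nil)))) (.nd (nat_lit 5) 
(.lf (nat_lit 209616) (.g (nat_lit 2513) (.e (nat_lit 81947) (nat_lit 20) (.e (nat_lit 2281) (nat_lit 150) (.e (nat_lit 770072) (nat_lit 8) (.e (nat_lit 65620) (nat_lit 10) (.e (nat_lit 344174) (nat_lit 42) (.e (nat_lit 769792) (nat_lit 10) .nil)))))) (.g (nat_lit 5) .nil .nil))) 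
(.lf (nat_lit 209648) (.g (nat_lit 4727) (.e (nat_lit 81948) (nat_lit 21) (.e (nat_lit 57681) (nat_lit 155) (.e (nat_lit 122919) (nat_lit 15) (.e (nat_lit 360451) (nat_lit 0) (.e (nat_lit 7122) (nat_lit 382) (.e (nat_lit 1222) (nat_lit 90) .nil)))))) (.g (nat_lit 0) .nil .nil))))) (.nd (nat_lit 4) (.nd (nat_lit 5) 
(.lf (nat_lit 209608) (.g (nat_lit 2671) (.e (nat_lit 81947) (nat_lit 20) (.e (nat_lit 2281) (nat_lit 150) (.e (nat_lit 770072) (nat_lit 8) (.e (nat_lit 65617) (nat_lit 10) (.e (nat_lit 344174) (nat_lit 42) (.e (nat_lit 769792) (nat_lit 10) .nil)))))) (.g (nat_lit 5) .nil .nil))) 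
(.lf (nat_lit 209640) (.g (nat_lit 2071) (.e (nat_lit 81948) (nat_lit 21) (.e (nat_lit 57681) (nat_lit 155) (.e (nat_lit 122917) (nat_lit 15) (.e (nat_lit 360451) (nat_lit 0) (.e (nat_lit 7122) (nat_lit 382) .nil))))) .nil))) (.nd (nat_lit 5) 
(.lf (nat_lit 209624) (.g (nat_lit 1058) (.e (nat_lit 81947) (nat_lit 20) (.e (nat_lit 2391) (nat_lit 156) (.e (nat_lit 819219) (nat_lit 4) (.e (nat_lit 172087) (nat_lit 9) (.e (nat_lit 426428) (nat_lit 17) .nil))))) .nil)) 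
(.lf (nat_lit 209656) (.g (nat_lit 2227) (.e (nat_lit 81948) (nat_lit 21) (.e (nat_lit 57682) (nat_lit 155) (.e (nat_lit 122919) (nat_lit 15) (.e (nat_lit 360451) (nat_lit 0) (.e (nat_lit 7119) (nat_lit 382) (.e (nat_lit 7936) (nat_lit 90) .nil)))))) (.g (nat_lit 5) .nil .nil)))))) (.nd (nat_lit 3) (.nd (nat_lit 4) (.nd (nat_lit 5) 
(.lf (nat_lit 209604) (.g (nat_lit 2995) (.e (nat_lit 81947) (nat_lit 20) (.e (nat_lit 2281) (nat_lit 150) (.e (nat_lit 770072) (nat_lit 8) (.e (nat_lit 65617) (nat_lit 10) (.e (nat_lit 344096) (nat_lit 18) (.e (nat_lit 7124) (nat_lit 382) (.e (nat_lit 7936) (nat_lit 90) .nil))))))) (.g (nat_lit 6) .nil .nil))) 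
(.lf (nat_lit 209636) (.g (nat_lit 2208) (.e (nat_lit 81948) (nat_lit 21) (.e (nat_lit 57681) (nat_lit 155) (.e (nat_lit 122917) (nat_lit 15) (.e (nat_lit 360449) (nat_lit 0) (.e (nat_lit 7119) (nat_lit 382) (.e (nat_lit 7936) (nat_lit 90) .nil)))))) (.g (nat_lit 4) .nil .nil)))) (.nd (nat_lit 5) 
(.lf (nat_lit 209620) (.g (nat_lit 2061) (.e (nat_lit 81947) (nat_lit 20) (.e (nat_lit 2281) (nat_lit 150) (.e (nat_lit 770074) (nat_lit 10) (.e (nat_lit 81950) (nat_lit 21) (.e (nat_lit 57655) (nat_lit 152) (.e (nat_lit 1217) (nat_lit 90) .nil)))))) (.g (nat_lit 4) .nil .nil))) 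
(.lf (nat_lit 209652) (.g (nat_lit 1860) (.e (nat_lit 81948) (nat_lit 21) (.e (nat_lit 57681) (nat_lit 155) (.e (nat_lit 122919) (nat_lit 15) (.e (nat_lit 360452) (nat_lit 0) .nil)))) .nil)))) (.nd (nat_lit 4) (.nd (nat_lit 5) 
(.lf (nat_lit 209612) (.g (nat_lit 3900) (.e (nat_lit 81947) (nat_lit 20) (.e (nat_lit 2281) (nat_lit 150) (.e (nat_lit 770072) (nat_lit 8) (.e (nat_lit 65619) (nat_lit 10) (.e (nat_lit 344090) (nat_lit 18) (.e (nat_lit 7125) (nat_lit 382) (.e (nat_lit 1224) (nat_lit 90) .nil))))))) (.g (nat_lit 0) .nil .nil))) 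
(.lf (nat_lit 209644) (.g (nat_lit 2445) (.e (nat_lit 81948) (nat_lit 21) (.e (nat_lit 57681) (nat_lit 155) (.e (nat_lit 122919) (nat_lit 15) (.e (nat_lit 360450) (nat_lit 0) (.e (nat_lit 7119) (nat_lit 382) .nil))))) .nil))) (.nd (nat_lit 5) 
(.lf (nat_lit 209628) (.g (nat_lit 1142) (.e (nat_lit 81948) (nat_lit 21) (.e (nat_lit 57655) (nat_lit 152) (.e (nat_lit 1216) (nat_lit 90) (.e (nat_lit 81948) (nat_lit 21) (.e (nat_lit 57654) (nat_lit 152) .nil))))) .nil)) 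
(.lf (nat_lit 209660) (.g (nat_lit 1395) (.e (nat_lit 81948) (nat_lit 21) (.e (nat_lit 57683) (nat_lit 155) (.e (nat_lit 122906) (nat_lit 12) (.e (nat_lit 336172) (nat_lit 10) (.e (nat_lit 344174) (nat_lit 42) (.e (nat_lit 769792) (nat_lit 10) .nil)))))) (.g (nat_lit 5) .nil .nil))))))) (.nd (nat_lit 2) (.nd (nat_lit 3) (.nd (nat_lit 4) (.nd (nat_lit 5) 
(.lf (nat_lit 209602) (.g (nat_lit 2926) (.e (nat_lit 81947) (nat_lit 20) (.e (nat_lit 2281) (nat_lit 150) (.e (nat_lit 770072) (nat_lit 8) (.e (nat_lit 65617) (nat_lit 10) (.e (nat_lit 344096) (nat_lit 18) (.e (nat_lit 7122) (nat_lit 382) (.e (nat_lit 1224) (nat_lit 90) .nil))))))) (.g (nat_lit 5) .nil .nil))) 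
(.lf (nat_lit 209634) (.g (nat_lit 2104) (.e (nat_lit 81948) (nat_lit 21) (.e (nat_lit 57680) (nat_lit 155) (.e (nat_lit 122919) (nat_lit 15) (.e (nat_lit 360451) (nat_lit 0) (.e (nat_lit 7132) (nat_lit 382) (.e (nat_lit 7936) (nat_lit 90) .nil)))))) (.g (nat_lit 4) .nil .nil)))) (.nd (nat_lit 5) 
(.lf (nat_lit 209618) (.g (nat_lit 1814) (.e (nat_lit 81947) (nat_lit 20) (.e (nat_lit 2281) (nat_lit 150) (.e (nat_lit 770074) (nat_lit 10) (.e (nat_lit 81948) (nat_lit 21) (.e (nat_lit 57655) (nat_lit 152) (.e (nat_lit 1217) (nat_lit 90) .nil)))))) (.g (nat_lit 4) .nil .nil))) 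
(.lf (nat_lit 209650) (.g (nat_lit 3752) (.e (nat_lit 81948) (nat_lit 21) (.e (nat_lit 57681) (nat_lit 155) (.e (nat_lit 122919) (nat_lit 15) (.e (nat_lit 360451) (nat_lit 0) (.e (nat_lit 7124) (nat_lit 382) (.e (nat_lit 7936) (nat_lit 90) .nil)))))) (.g (nat_lit 5) .nil .nil))))) (.nd (nat_lit 4) (.nd (nat_lit 5) 
(.lf (nat_lit 209610) (.g (nat_lit 2726) (.e (nat_lit 81947) (nat_lit 20) (.e (nat_lit 2281) (nat_lit 150) (.e (nat_lit 770072) (nat_lit 8) (.e (nat_lit 65619) (nat_lit 10) (.e (nat_lit 344090) (nat_lit 18) (.e (nat_lit 7119) (nat_lit 382) (.e (nat_lit 7936) (nat_lit 90) .nil))))))) (.g (nat_lit 5) .nil .nil))) 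
(.lf (nat_lit 209642) (.g (nat_lit 357) (.e (nat_lit 81948) (nat_lit 21) (.e (nat_lit 57681) (nat_lit 155) (.e (nat_lit 122919) (nat_lit 15) .nil))) .nil))) (.nd (nat_lit 5) 
(.lf (nat_lit 209626) (.g (nat_lit 1318) (.e (nat_lit 81948) (nat_lit 21) (.e (nat_lit 57654) (nat_lit 152) (.e (nat_lit 1216) (nat_lit 90) (.e (nat_lit 81950) (nat_lit 21) (.e (nat_lit 57655) (nat_lit 152) (.e (nat_lit 1216) (nat_lit 90) .nil)))))) (.g (nat_lit 4) .nil .nil))) 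
(.lf (nat_lit 209658) (.g (nat_lit 2439) (.e (nat_lit 81948) (nat_lit 21) (.e (nat_lit 57682) (nat_lit 155) (.e (nat_lit 122919) (nat_lit 15) (.e (nat_lit 360451) (nat_lit 0) (.e (nat_lit 7124) (nat_lit 382) (.e (nat_lit 7936) (nat_lit 90) .nil)))))) (.g (nat_lit 5) .nil .nil)))))) (.nd (nat_lit 3) (.nd (nat_lit 4) (.nd (nat_lit 5) 
(.lf (nat_lit 209606) (.g (nat_lit 1883) (.e (nat_lit 81947) (nat_lit 20) (.e (nat_lit 2281) (nat_lit 150) (.e (nat_lit 770072) (nat_lit 8) (.e (nat_lit 65617) (nat_lit 10) (.e (nat_lit 344096) (nat_lit 18) (.e (nat_lit 7132) (nat_lit 382) (.e (nat_lit 7936) (nat_lit 90) .nil))))))) (.g (nat_lit 4) .nil .nil))) 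
(.lf (nat_lit 209638) (.g (nat_lit 2109) (.e (nat_lit 81948) (nat_lit 21) (.e (nat_lit 57681) (nat_lit 155) (.e (nat_lit 122917) (nat_lit 15) (.e (nat_lit 360449) (nat_lit 0) (.e (nat_lit 7124) (nat_lit 382) (.e (nat_lit 7936) (nat_lit 90) .nil)))))) (.g (nat_lit 4) .nil .nil)))) (.nd (nat_lit 5) 
(.lf (nat_lit 209622) (.g (nat_lit 2979) (.e (nat_lit 81947) (nat_lit 20) (.e (nat_lit 2281) (nat_lit 150) (.e (nat_lit 770076) (nat_lit 12) (.e (nat_lit 131116) (nat_lit 9) (.e (nat_lit 335988) (nat_lit 1) (.e (nat_lit 57665) (nat_lit 152) (.e (nat_lit 7936) (nat_lit 90) .nil))))))) (.g (nat_lit 6) .nil .nil))) 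
(.lf (nat_lit 209654) (.g (nat_lit 2030) (.e (nat_lit 81948) (nat_lit 21) (.e (nat_lit 57681) (nat_lit 155) (.e (nat_lit 122919) (nat_lit 15) (.e (nat_lit 360454) (nat_lit 0) (.e (nat_lit 7147) (nat_lit 382) .nil))))) .nil)))) (.nd (nat_lit 4) (.nd (nat_lit 5) 
(.lf (nat_lit 209614) (.g (nat_lit 1800) (.e (nat_lit 81947) (nat_lit 20) (.e (nat_lit 2281) (nat_lit 150) (.e (nat_lit 770072) (nat_lit 8) (.e (nat_lit 65619) (nat_lit 10) (.e (nat_lit 344173) (nat_lit 42) .nil))))) .nil)) 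
(.lf (nat_lit 209646) (.g (nat_lit 2614) (.e (nat_lit 81948) (nat_lit 21) (.e (nat_lit 57681) (nat_lit 155) (.e (nat_lit 122919) (nat_lit 15) (.e (nat_lit 360450) (nat_lit 0) (.e (nat_lit 7122) (nat_lit 382) (.e (nat_lit 7936) (nat_lit 90) .nil)))))) (.g (nat_lit 5) .nil .nil)))) (.nd (nat_lit 5) 
(.lf (nat_lit 209630) (.g (nat_lit 2091) (.e (nat_lit 81948) (nat_lit 21) (.e (nat_lit 57655) (nat_lit 152) (.e (nat_lit 1217) (nat_lit 90) (.e (nat_lit 81950) (nat_lit 21) (.e (nat_lit 57655) (nat_lit 152) (.e (nat_lit 1216) (nat_lit 90) .nil)))))) (.g (nat_lit 5) .nil .nil))) 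
(.lf (nat_lit 209662) (.g (nat_lit 2814) (.e (nat_lit 81948) (nat_lit 21) (.e (nat_lit 57683) (nat_lit 155) (.e (nat_lit 122916) (nat_lit 14) (.e (nat_lit 352307) (nat_lit 21) (.e (nat_lit 57655) (nat_lit 152) (.e (nat_lit 1216) (nat_lit 90) .nil)))))) (.g (nat_lit 5) .nil .nil)))))))) (.nd (nat_lit 1) (.nd (nat_lit 2) (.nd (nat_lit 3) (.nd (nat_lit 4) (.nd (nat_lit 5) 
(.lf (nat_lit 209601) (.g (nat_lit 3345) (.e (nat_lit 81947) (nat_lit 20) (.e (nat_lit 2281) (nat_lit 150) (.e (nat_lit 770072) (nat_lit 8) (.e (nat_lit 65617) (nat_lit 10) (.e (nat_lit 344096) (nat_lit 18) (.e (nat_lit 7119) (nat_lit 382) (.e (nat_lit 7936) (nat_lit 90) .nil))))))) (.g (nat_lit 6) .nil .nil))) 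
(.lf (nat_lit 209633) (.g (nat_lit 2614) (.e (nat_lit 81948) (nat_lit 21) (.e (nat_lit 57680) (nat_lit 155) (.e (nat_lit 122919) (nat_lit 15) (.e (nat_lit 360451) (nat_lit 0) (.e (nat_lit 7124) (nat_lit 382) (.e (nat_lit 7936) (nat_lit 90) .nil)))))) (.g (nat_lit 5) .nil .nil)))) (.nd (nat_lit 5) 
(.lf (nat_lit 209617) (.g (nat_lit 371) (.e (nat_lit 81947) (nat_lit 20) (.e (nat_lit 2281) (nat_lit 150) (.e (nat_lit 770074) (nat_lit 10) .nil))) .nil)) 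
(.lf (nat_lit 209649) (.g (nat_lit 3730) (.e (nat_lit 81948) (nat_lit 21) (.e (nat_lit 57681) (nat_lit 155) (.e (nat_lit 122919) (nat_lit 15) (.e (nat_lit 360451) (nat_lit 0) (.e (nat_lit 7122) (nat_lit 382) (.e (nat_lit 7936) (nat_lit 90) .nil)))))) (.g (nat_lit 5) .nil .nil))))) (.nd (nat_lit 4) (.nd (nat_lit 5) 
(.lf (nat_lit 209609) (.g (nat_lit 1684) (.e (nat_lit 81947) (nat_lit 20) (.e (nat_lit 2281) (nat_lit 150) (.e (nat_lit 770072) (nat_lit 8) (.e (nat_lit 65619) (nat_lit 10) (.e (nat_lit 344090) (nat_lit 18) .nil))))) .nil)) 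
(.lf (nat_lit 209641) (.g (nat_lit 1294) (.e (nat_lit 81948) (nat_lit 21) (.e (nat_lit 57681) (nat_lit 155) (.e (nat_lit 122917) (nat_lit 15) (.e (nat_lit 368384) (nat_lit 21) .nil)))) .nil))) (.nd (nat_lit 5) 
(.lf (nat_lit 209625) (.g (nat_lit 1421) (.e (nat_lit 89856) (nat_lit 20) (.e (nat_lit 1800) (nat_lit 119) (.e (nat_lit 516139) (nat_lit 7) (.e (nat_lit 417536) (nat_lit 18) .nil)))) .nil)) 
(.lf (nat_lit 209657) (.g (nat_lit 2779) (.e (nat_lit 81948) (nat_lit 21) (.e (nat_lit 57682) (nat_lit 155) (.e (nat_lit 122919) (nat_lit 15) (.e (nat_lit 360451) (nat_lit 0) (.e (nat_lit 7122) (nat_lit 382) (.e (nat_lit 7936) (nat_lit 90) .nil)))))) (.g (nat_lit 5) .nil .nil)))))) (.nd (nat_lit 3) (.nd (nat_lit 4) (.nd (nat_lit 5) 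
(.lf (nat_lit 209605) (.g (nat_lit 4238) (.e (nat_lit 81947) (nat_lit 20) (.e (nat_lit 2281) (nat_lit 150) (.e (nat_lit 770072) (nat_lit 8) (.e (nat_lit 65617) (nat_lit 10) (.e (nat_lit 344096) (nat_lit 18) (.e (nat_lit 7125) (nat_lit 382) (.e (nat_lit 1224) (nat_lit 90) .nil))))))) (.g (nat_lit 7) .nil .nil))) 
(.lf (nat_lit 209637) (.g (nat_lit 3243) (.e (nat_lit 81948) (nat_lit 21) (.e (nat_lit 57681) (nat_lit 155) (.e (nat_lit 122917) (nat_lit 15) (.e (nat_lit 360449) (nat_lit 0) (.e (nat_lit 7122) (nat_lit 382) (.e (nat_lit 7936) (nat_lit 90) .nil)))))) (.g (nat_lit 5) .nil .nil)))) (.nd (nat_lit 5) 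
(.lf (nat_lit 209621) (.g (nat_lit 2227) (.e (nat_lit 81947) (nat_lit 20) (.e (nat_lit 2281) (nat_lit 150) (.e (nat_lit 770074) (nat_lit 10) (.e (nat_lit 81959) (nat_lit 24) (.e (nat_lit 123048) (nat_lit 152) (.e (nat_lit 1217) (nat_lit 90) .nil)))))) (.g (nat_lit 4) .nil .nil))) 
(.lf (nat_lit 209653) (.g (nat_lit 1880) (.e (nat_lit 81948) (nat_lit 21) (.e (nat_lit 57681) (nat_lit 155) (.e (nat_lit 122919) (nat_lit 15) (.e (nat_lit 360453) (nat_lit 0) (.e (nat_lit 7147) (nat_lit 382) .nil))))) .nil)))) (.nd (nat_lit 4) (.nd (nat_lit 5) 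
(.lf (nat_lit 209613) (.g (nat_lit 2843) (.e (nat_lit 81947) (nat_lit 20) (.e (nat_lit 2281) (nat_lit 150) (.e (nat_lit 770072) (nat_lit 8) (.e (nat_lit 65619) (nat_lit 10) (.e (nat_lit 344097) (nat_lit 18) (.e (nat_lit 7147) (nat_lit 382) (.e (nat_lit 1217) (nat_lit 90) .nil))))))) (.g (nat_lit 5) .nil .nil))) 
(.lf (nat_lit 209645) (.g (nat_lit 3400) (.e (nat_lit 81948) (nat_lit 21) (.e (nat_lit 57681) (nat_lit 155) (.e (nat_lit 122919) (nat_lit 15) (.e (nat_lit 360450) (nat_lit 0) (.e (nat_lit 7122) (nat_lit 382) (.e (nat_lit 1222) (nat_lit 90) .nil)))))) (.g (nat_lit 6) .nil .nil)))) (.nd (nat_lit 5) 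
(.lf (nat_lit 209629) (.g (nat_lit 1458) (.e (nat_lit 81948) (nat_lit 21) (.e (nat_lit 57655) (nat_lit 152) (.e (nat_lit 1216) (nat_lit 90) (.e (nat_lit 81950) (nat_lit 21) (.e (nat_lit 57654) (nat_lit 152) (.e (nat_lit 1216) (nat_lit 90) .nil)))))) (.g (nat_lit 4) .nil .nil))) 
(.lf (nat_lit 209661) (.g (nat_lit 2841) (.e (nat_lit 81948) (nat_lit 21) (.e (nat_lit 57683) (nat_lit 155) (.e (nat_lit 122916) (nat_lit 14) (.e (nat_lit 352302) (nat_lit 20) (.e (nat_lit 2281) (nat_lit 150) (.e (nat_lit 770074) (nat_lit 10) .nil)))))) (.g (nat_lit 6) .nil .nil))))))) (.nd (nat_lit 2) (.nd (nat_lit 3) (.nd (nat_lit 4) (.nd (nat_lit 5) 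
(.lf (nat_lit 209603) (.g (nat_lit 3801) (.e (nat_lit 81947) (nat_lit 20) (.e (nat_lit 2281) (nat_lit 150) (.e (nat_lit 770072) (nat_lit 8) (.e (nat_lit 65617) (nat_lit 10) (.e (nat_lit 344096) (nat_lit 18) (.e (nat_lit 7122) (nat_lit 382) (.e (nat_lit 7936) (nat_lit 90) .nil))))))) (.g (nat_lit 6) .nil .nil))) 
(.lf (nat_lit 209635) (.g (nat_lit 552) (.e (nat_lit 81948) (nat_lit 21) (.e (nat_lit 57681) (nat_lit 155) (.e (nat_lit 122917) (nat_lit 15) .nil))) .nil))) (.nd (nat_lit 5) 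
(.lf (nat_lit 209619) (.g (nat_lit 2191) (.e (nat_lit 81947) (nat_lit 20) (.e (nat_lit 2281) (nat_lit 150) (.e (nat_lit 770074) (nat_lit 10) (.e (nat_lit 81950) (nat_lit 21) (.e (nat_lit 57654) (nat_lit 152) (.e (nat_lit 1217) (nat_lit 90) .nil)))))) (.g (nat_lit 4) .nil .nil))) 
(.lf (nat_lit 209651) (.g (nat_lit 3040) (.e (nat_lit 81948) (nat_lit 21) (.e (nat_lit 57681) (nat_lit 155) (.e (nat_lit 122919) (nat_lit 15) (.e (nat_lit 360451) (nat_lit 0) (.e (nat_lit 7132) (nat_lit 382) (.e (nat_lit 7936) (nat_lit 90) .nil)))))) (.g (nat_lit 4) .nil .nil))))) (.nd (nat_lit 4) (.nd (nat_lit 5) 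
(.lf (nat_lit 209611) (.g (nat_lit 2431) (.e (nat_lit 81947) (nat_lit 20) (.e (nat_lit 2281) (nat_lit 150) (.e (nat_lit 770072) (nat_lit 8) (.e (nat_lit 65619) (nat_lit 10) (.e (nat_lit 344090) (nat_lit 18) (.e (nat_lit 7124) (nat_lit 382) (.e (nat_lit 7936) (nat_lit 90) .nil))))))) (.g (nat_lit 5) .nil .nil))) 
(.lf (nat_lit 209643) (.g (nat_lit 1847) (.e (nat_lit 81948) (nat_lit 21) (.e (nat_lit 57681) (nat_lit 155) (.e (nat_lit 122919) (nat_lit 15) (.e (nat_lit 360449) (nat_lit 0) .nil)))) .nil))) (.nd (nat_lit 5) 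
(.lf (nat_lit 209627) (.g (nat_lit 1713) (.e (nat_lit 81948) (nat_lit 21) (.e (nat_lit 57654) (nat_lit 152) (.e (nat_lit 1217) (nat_lit 90) (.e (nat_lit 81950) (nat_lit 21) (.e (nat_lit 57655) (nat_lit 152) (.e (nat_lit 1216) (nat_lit 90) .nil)))))) (.g (nat_lit 4) .nil .nil))) 
(.lf (nat_lit 209659) (.g (nat_lit 1999) (.e (nat_lit 81948) (nat_lit 21) (.e (nat_lit 57682) (nat_lit 155) (.e (nat_lit 122919) (nat_lit 15) (.e (nat_lit 360451) (nat_lit 0) (.e (nat_lit 7132) (nat_lit 382) (.e (nat_lit 7936) (nat_lit 90) .nil)))))) (.g (nat_lit 4) .nil .nil)))))) (.nd (nat_lit 3) (.nd (nat_lit 4) (.nd (nat_lit 5) 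
(.lf (nat_lit 209607) (.g (nat_lit 2064) (.e (nat_lit 81947) (nat_lit 20) (.e (nat_lit 2281) (nat_lit 150) (.e (nat_lit 770072) (nat_lit 8) (.e (nat_lit 65617) (nat_lit 10) (.e (nat_lit 344173) (nat_lit 42) .nil))))) .nil)) 
(.lf (nat_lit 209639) (.g (nat_lit 4371) (.e (nat_lit 81948) (nat_lit 21) (.e (nat_lit 57681) (nat_lit 155) (.e (nat_lit 122917) (nat_lit 15) (.e (nat_lit 360449) (nat_lit 0) (.e (nat_lit 7125) (nat_lit 382) (.e (nat_lit 1222) (nat_lit 90) .nil)))))) (.g (nat_lit 0) .nil .nil)))) (.nd (nat_lit 5) 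
(.lf (nat_lit 209623) (.g (nat_lit 462) (.e (nat_lit 81947) (nat_lit 20) (.e (nat_lit 2391) (nat_lit 156) (.e (nat_lit 819218) (nat_lit 4) .nil))) .nil)) 
(.lf (nat_lit 209655) (.g (nat_lit 1705) (.e (nat_lit 81948) (nat_lit 21) (.e (nat_lit 57681) (nat_lit 155) (.e (nat_lit 122919) (nat_lit 15) (.e (nat_lit 360488) (nat_lit 20) .nil)))) .nil)))) (.nd (nat_lit 4) (.nd (nat_lit 5) 
(.lf (nat_lit 209615) (.g (nat_lit 2877) (.e (nat_lit 81947) (nat_lit 20) (.e (nat_lit 2281) (nat_lit 150) (.e (nat_lit 770072) (nat_lit 8) (.e (nat_lit 65619) (nat_lit 10) (.e (nat_lit 344174) (nat_lit 42) (.e (nat_lit 769792) (nat_lit 10) .nil)))))) (.g (nat_lit 5) .nil .nil))) 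
(.lf (nat_lit 209647) (.g (nat_lit 3499) (.e (nat_lit 81948) (nat_lit 21) (.e (nat_lit 57681) (nat_lit 155) (.e (nat_lit 122919) (nat_lit 15) (.e (nat_lit 360451) (nat_lit 0) (.e (nat_lit 7119) (nat_lit 382) (.e (nat_lit 7936) (nat_lit 90) .nil)))))) (.g (nat_lit 5) .nil .nil)))) (.nd (nat_lit 5) 
(.lf (nat_lit 209631) (.g (nat_lit 2601) (.e (nat_lit 81948) (nat_lit 21) (.e (nat_lit 57680) (nat_lit 155) (.e (nat_lit 122919) (nat_lit 15) (.e (nat_lit 360451) (nat_lit 0) (.e (nat_lit 7119) (nat_lit 382) (.e (nat_lit 7936) (nat_lit 90) .nil)))))) (.g (nat_lit 5) .nil .nil))) 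
(.lf (nat_lit 209663) (.g (nat_lit 2558) (.e (nat_lit 81948) (nat_lit 21) (.e (nat_lit 57683) (nat_lit 155) (.e (nat_lit 122916) (nat_lit 14) (.e (nat_lit 352309) (nat_lit 21) (.e (nat_lit 57651) (nat_lit 152) (.e (nat_lit 1215) (nat_lit 90) .nil)))))) (.g (nat_lit 4) .nil .nil)))))))))

noncomputable def tv2769 : DT := (.nd (nat_lit 0) (.nd (nat_lit 1) (.nd (nat_lit 2) (.nd (nat_lit 3) (.nd (nat_lit 4) (.nd (nat_lit 5) 
(.lf (nat_lit 209664) (.g (nat_lit 2292) (.e (nat_lit 81948) (nat_lit 21) (.e (nat_lit 57683) (nat_lit 155) (.e (nat_lit 122916) (nat_lit 14) (.e (nat_lit 352309) (nat_lit 21) (.e (nat_lit 57652) (nat_lit 152) .nil))))) .nil)) 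
(.lf (nat_lit 209696) (.g (nat_lit 2304) (.e (nat_lit 81948) (nat_lit 21) (.e (nat_lit 57684) (nat_lit 155) (.e (nat_lit 122916) (nat_lit 14) (.e (nat_lit 352309) (nat_lit 21) (.e (nat_lit 57651) (nat_lit 152) (.e (nat_lit 1216) (nat_lit 90) .nil)))))) (.g (nat_lit 4) .nil .nil)))) (.nd (nat_lit 5) 
(.lf (nat_lit 209680) (.g (nat_lit 2423) (.e (nat_lit 81948) (nat_lit 21) (.e (nat_lit 57683) (nat_lit 155) (.e (nat_lit 122919) (nat_lit 15) (.e (nat_lit 360450) (nat_lit 0) (.e (nat_lit 7119) (nat_lit 382) (.e (nat_lit 7936) (nat_lit 90) .nil)))))) (.g (nat_lit 4) .nil .nil))) 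
(.lf (nat_lit 209712) (.g (nat_lit 1379) (.e (nat_lit 81948) (nat_lit 21) (.e (nat_lit 57684) (nat_lit 155) (.e (nat_lit 122919) (nat_lit 15) (.e (nat_lit 360488) (nat_lit 20) (.e (nat_lit 769792) (nat_lit 10) .nil))))) (.g (nat_lit 4) .nil .nil))))) (.nd (nat_lit 4) (.nd (nat_lit 5) 
(.lf (nat_lit 209672) (.g (nat_lit 1792) (.e (nat_lit 81948) (nat_lit 21) (.e (nat_lit 57683) (nat_lit 155) (.e (nat_lit 122917) (nat_lit 15) (.e (nat_lit 360449) (nat_lit 0) (.e (nat_lit 7119) (nat_lit 382) (.e (nat_lit 7936) (nat_lit 90) .nil)))))) (.g (nat_lit 4) .nil .nil))) 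
(.lf (nat_lit 209704) (.g (nat_lit 2930) (.e (nat_lit 81948) (nat_lit 21) (.e (nat_lit 57684) (nat_lit 155) (.e (nat_lit 122919) (nat_lit 15) (.e (nat_lit 360449) (nat_lit 0) (.e (nat_lit 7125) (nat_lit 382) (.e (nat_lit 1222) (nat_lit 90) .nil)))))) (.g (nat_lit 6) .nil .nil)))) (.nd (nat_lit 5) 
(.lf (nat_lit 209688) (.g (nat_lit 2303) (.e (nat_lit 81948) (nat_lit 21) (.e (nat_lit 57683) (nat_lit 155) (.e (nat_lit 122919) (nat_lit 15) (.e (nat_lit 360451) (nat_lit 0) (.e (nat_lit 7124) (nat_lit 382) (.e (nat_lit 7936) (nat_lit 90) .nil)))))) (.g (nat_lit 4) .nil .nil))) 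
(.lf (nat_lit 209720) (.g (nat_lit 3659) (.e (nat_lit 81948) (nat_lit 21) (.e (nat_lit 57847) (nat_lit 252) (.e (nat_lit 57368) (nat_lit 1) (.e (nat_lit 57854) (nat_lit 252) (.e (nat_lit 57409) (nat_lit 12) (.e (nat_lit 336240) (nat_lit 15) (.e (nat_lit 3453) (nat_lit 216) (.e (nat_lit 688186) (nat_lit 18) .nil)))))))) (.g (nat_lit 5) .nil .nil)))))) 
(.nd (nat_lit 3) (.nd (nat_lit 4) (.nd (nat_lit 5) 
(.lf (nat_lit 209668) (.g (nat_lit 1805) (.e (nat_lit 81948) (nat_lit 21) (.e (nat_lit 57683) (nat_lit 155) (.e (nat_lit 122916) (nat_lit 14) (.e (nat_lit 352309) (nat_lit 21) (.e (nat_lit 57660) (nat_lit 152) (.e (nat_lit 7936) (nat_lit 90) .nil)))))) (.g (nat_lit 4) .nil .nil))) 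
(.lf (nat_lit 209700) (.g (nat_lit 2200) (.e (nat_lit 81948) (nat_lit 21) (.e (nat_lit 57684) (nat_lit 155) (.e (nat_lit 122916) (nat_lit 14) (.e (nat_lit 352309) (nat_lit 21) (.e (nat_lit 57660) (nat_lit 152) (.e (nat_lit 1215) (nat_lit 90) .nil)))))) (.g (nat_lit 4) .nil .nil)))) (.nd (nat_lit 5) 
(.lf (nat_lit 209684) (.g (nat_lit 2590) (.e (nat_lit 81948) (nat_lit 21) (.e (nat_lit 57683) (nat_lit 155) (.e (nat_lit 122919) (nat_lit 15) (.e (nat_lit 360451) (nat_lit 0) (.e (nat_lit 7119) (nat_lit 382) (.e (nat_lit 7936) (nat_lit 90) .nil)))))) (.g (nat_lit 4) .nil .nil))) 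
(.lf (nat_lit 209716) (.g (nat_lit 2717) (.e (nat_lit 81948) (nat_lit 21) (.e (nat_lit 57847) (nat_lit 252) (.e (nat_lit 57365) (nat_lit 1) (.e (nat_lit 57854) (nat_lit 252) (.e (nat_lit 57409) (nat_lit 12) (.e (nat_lit 336240) (nat_lit 15) (.e (nat_lit 3453) (nat_lit 216) (.e (nat_lit 688185) (nat_lit 18) .nil)))))))) (.g (nat_lit 4) .nil .nil))))) (.nd (nat_lit 4) (.nd (nat_lit 5) 
(.lf (nat_lit 209676) (.g (nat_lit 1363) (.e (nat_lit 81948) (nat_lit 21) (.e (nat_lit 57683) (nat_lit 155) (.e (nat_lit 122917) (nat_lit 15) (.e (nat_lit 360450) (nat_lit 0) .nil)))) .nil)) 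
(.lf (nat_lit 209708) (.g (nat_lit 3509) (.e (nat_lit 81948) (nat_lit 21) (.e (nat_lit 57684) (nat_lit 155) (.e (nat_lit 122919) (nat_lit 15) (.e (nat_lit 360451) (nat_lit 0) (.e (nat_lit 7122) (nat_lit 382) (.e (nat_lit 1222) (nat_lit 90) .nil)))))) (.g (nat_lit 0) .nil .nil)))) (.nd (nat_lit 5) 
(.lf (nat_lit 209692) (.g (nat_lit 1855) (.e (nat_lit 81948) (nat_lit 21) (.e (nat_lit 57683) (nat_lit 155) (.e (nat_lit 122919) (nat_lit 15) (.e (nat_lit 360488) (nat_lit 20) (.e (nat_lit 769792) (nat_lit 10) .nil))))) (.g (nat_lit 4) .nil .nil))) 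
(.lf (nat_lit 209724) (.g (nat_lit 2404) (.e (nat_lit 81948) (nat_lit 21) (.e (nat_lit 57870) (nat_lit 264) (.e (nat_lit 1190) (nat_lit 88) (.e (nat_lit 65624) (nat_lit 12) (.e (nat_lit 385092) (nat_lit 49) (.e (nat_lit 778326) (nat_lit 6) .nil)))))) (.g (nat_lit 5) .nil .nil))))))) (.nd (nat_lit 2) (.nd (nat_lit 3) (.nd (nat_lit 4) (.nd (nat_lit 5) 
(.lf (nat_lit 209666) (.g (nat_lit 3617) (.e (nat_lit 81948) (nat_lit 21) (.e (nat_lit 57683) (nat_lit 155) (.e (nat_lit 122916) (nat_lit 14) (.e (nat_lit 352309) (nat_lit 21) (.e (nat_lit 57655) (nat_lit 152) (.e (nat_lit 1216) (nat_lit 90) .nil)))))) (.g (nat_lit 0) .nil .nil))) 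
(.lf (nat_lit 209698) (.g (nat_lit 2097) (.e (nat_lit 81948) (nat_lit 21) (.e (nat_lit 57684) (nat_lit 155) (.e (nat_lit 122916) (nat_lit 14) (.e (nat_lit 352309) (nat_lit 21) (.e (nat_lit 57654) (nat_lit 152) (.e (nat_lit 1217) (nat_lit 90) .nil)))))) (.g (nat_lit 4) .nil .nil)))) (.nd (nat_lit 5) 
(.lf (nat_lit 209682) (.g (nat_lit 2934) (.e (nat_lit 81948) (nat_lit 21) (.e (nat_lit 57683) (nat_lit 155) (.e (nat_lit 122919) (nat_lit 15) (.e (nat_lit 360450) (nat_lit 0) (.e (nat_lit 7122) (nat_lit 382) (.e (nat_lit 7936) (nat_lit 90) .nil)))))) (.g (nat_lit 5) .nil .nil))) 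
(.lf (nat_lit 209714) (.g (nat_lit 2641) (.e (nat_lit 81948) (nat_lit 21) (.e (nat_lit 57847) (nat_lit 252) (.e (nat_lit 57365) (nat_lit 1) (.e (nat_lit 57852) (nat_lit 252) (.e (nat_lit 57421) (nat_lit 13) (.e (nat_lit 344144) (nat_lit 31) (.e (nat_lit 598041) (nat_lit 10) .nil))))))) (.g (nat_lit 4) .nil .nil))))) (.nd (nat_lit 4) (.nd (nat_lit 5) 
(.lf (nat_lit 209674) (.g (nat_lit 2597) (.e (nat_lit 81948) (nat_lit 21) (.e (nat_lit 57683) (nat_lit 155) (.e (nat_lit 122917) (nat_lit 15) (.e (nat_lit 360449) (nat_lit 0) (.e (nat_lit 7122) (nat_lit 382) (.e (nat_lit 7936) (nat_lit 90) .nil)))))) (.g (nat_lit 5) .nil .nil))) 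
(.lf (nat_lit 209706) (.g (nat_lit 2612) (.e (nat_lit 81948) (nat_lit 21) (.e (nat_lit 57684) (nat_lit 155) (.e (nat_lit 122919) (nat_lit 15) (.e (nat_lit 360450) (nat_lit 0) (.e (nat_lit 7122) (nat_lit 382) (.e (nat_lit 7936) (nat_lit 90) .nil)))))) (.g (nat_lit 5) .nil .nil)))) (.nd (nat_lit 5) 
(.lf (nat_lit 209690) (.g (nat_lit 1804) (.e (nat_lit 81948) (nat_lit 21) (.e (nat_lit 57683) (nat_lit 155) (.e (nat_lit 122919) (nat_lit 15) (.e (nat_lit 360452) (nat_lit 0) (.e (nat_lit 7147) (nat_lit 382) (.e (nat_lit 1216) (nat_lit 90) .nil)))))) (.g (nat_lit 4) .nil .nil))) 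
(.lf (nat_lit 209722) (.g (nat_lit 3729) (.e (nat_lit 81948) (nat_lit 21) (.e (nat_lit 57870) (nat_lit 264) (.e (nat_lit 1189) (nat_lit 88) (.e (nat_lit 65619) (nat_lit 10) (.e (nat_lit 344097) (nat_lit 18) (.e (nat_lit 5907) (nat_lit 320) (.e (nat_lit 1221) (nat_lit 90) .nil))))))) (.g (nat_lit 7) .nil .nil)))))) (.nd (nat_lit 3) (.nd (nat_lit 4) (.nd (nat_lit 5) 
(.lf (nat_lit 209670) (.g (nat_lit 2651) (.e (nat_lit 81948) (nat_lit 21) (.e (nat_lit 57683) (nat_lit 155) (.e (nat_lit 122916) (nat_lit 14) (.e (nat_lit 352309) (nat_lit 21) (.e (nat_lit 57666) (nat_lit 152) (.e (nat_lit 7936) (nat_lit 90) .nil)))))) (.g (nat_lit 4) .nil .nil))) 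
(.lf (nat_lit 209702) (.g (nat_lit 2094) (.e (nat_lit 81948) (nat_lit 21) (.e (nat_lit 57684) (nat_lit 155) (.e (nat_lit 122917) (nat_lit 15) (.e (nat_lit 360449) (nat_lit 0) (.e (nat_lit 7122) (nat_lit 382) (.e (nat_lit 7936) (nat_lit 90) .nil)))))) (.g (nat_lit 5) .nil .nil)))) (.nd (nat_lit 5) 
(.lf (nat_lit 209686) (.g (nat_lit 2691) (.e (nat_lit 81948) (nat_lit 21) (.e (nat_lit 57683) (nat_lit 155) (.e (nat_lit 122919) (nat_lit 15) (.e (nat_lit 360451) (nat_lit 0) (.e (nat_lit 7122) (nat_lit 382) (.e (nat_lit 7936) (nat_lit 90) .nil)))))) (.g (nat_lit 4) .nil .nil))) 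
(.lf (nat_lit 209718) (.g (nat_lit 2391) (.e (nat_lit 81948) (nat_lit 21) (.e (nat_lit 57847) (nat_lit 252) (.e (nat_lit 57368) (nat_lit 1) (.e (nat_lit 57852) (nat_lit 252) (.e (nat_lit 57421) (nat_lit 13) .nil))))) .nil)))) (.nd (nat_lit 4) (.nd (nat_lit 5) 
(.lf (nat_lit 209678) (.g (nat_lit 2696) (.e (nat_lit 81948) (nat_lit 21) (.e (nat_lit 57683) (nat_lit 155) (.e (nat_lit 122917) (nat_lit 15) (.e (nat_lit 360489) (nat_lit 21) (.e (nat_lit 770074) (nat_lit 10) .nil))))) (.g (nat_lit 0) .nil .nil))) 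
(.lf (nat_lit 209710) (.g (nat_lit 2042) (.e (nat_lit 81948) (nat_lit 21) (.e (nat_lit 57684) (nat_lit 155) (.e (nat_lit 122919) (nat_lit 15) (.e (nat_lit 360451) (nat_lit 0) (.e (nat_lit 7132) (nat_lit 382) (.e (nat_lit 7936) (nat_lit 90) .nil)))))) (.g (nat_lit 4) .nil .nil)))) (.nd (nat_lit 5) 
(.lf (nat_lit 209694) (.g (nat_lit 1975) (.e (nat_lit 81948) (nat_lit 21) (.e (nat_lit 57684) (nat_lit 155) (.e (nat_lit 122916) (nat_lit 14) (.e (nat_lit 352307) (nat_lit 21) (.e (nat_lit 57655) (nat_lit 152) (.e (nat_lit 1216) (nat_lit 90) .nil)))))) (.g (nat_lit 4) .nil .nil))) 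
(.lf (nat_lit 209726) (.g (nat_lit 3903) (.e (nat_lit 81948) (nat_lit 21) (.e (nat_lit 57870) (nat_lit 264) (.e (nat_lit 1199) (nat_lit 88) (.e (nat_lit 65610) (nat_lit 10) (.e (nat_lit 344097) (nat_lit 18) (.e (nat_lit 5907) (nat_lit 320) (.e (nat_lit 1221) (nat_lit 90) .nil))))))) (.g (nat_lit 7) .nil .nil)))))))) 
(.nd (nat_lit 1) (.nd (nat_lit 2) (.nd (nat_lit 3) (.nd (nat_lit 4) (.nd (nat_lit 5) 
(.lf (nat_lit 209665) (.g (nat_lit 2493) (.e (nat_lit 81948) (nat_lit 21) (.e (nat_lit 57683) (nat_lit 155) (.e (nat_lit 122916) (nat_lit 14) (.e (nat_lit 352309) (nat_lit 21) (.e (nat_lit 57653) (nat_lit 152) (.e (nat_lit 1217) (nat_lit 90) .nil)))))) (.g (nat_lit 4) .nil .nil))) 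
(.lf (nat_lit 209697) (.g (nat_lit 2640) (.e (nat_lit 81948) (nat_lit 21) (.e (nat_lit 57684) (nat_lit 155) (.e (nat_lit 122916) (nat_lit 14) (.e (nat_lit 352309) (nat_lit 21) (.e (nat_lit 57654) (nat_lit 152) (.e (nat_lit 1216) (nat_lit 90) .nil)))))) (.g (nat_lit 5) .nil .nil)))) (.nd (nat_lit 5) 
(.lf (nat_lit 209681) (.g (nat_lit 3823) (.e (nat_lit 81948) (nat_lit 21) (.e (nat_lit 57683) (nat_lit 155) (.e (nat_lit 122919) (nat_lit 15) (.e (nat_lit 360450) (nat_lit 0) (.e (nat_lit 7122) (nat_lit 382) (.e (nat_lit 1222) (nat_lit 90) .nil)))))) (.g (nat_lit 0) .nil .nil))) 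
(.lf (nat_lit 209713) (.g (nat_lit 894) (.e (nat_lit 81948) (nat_lit 21) (.e (nat_lit 57688) (nat_lit 156) (.e (nat_lit 163884) (nat_lit 5) .nil))) .nil)))) (.nd (nat_lit 4) (.nd (nat_lit 5) 
(.lf (nat_lit 209673) (.g (nat_lit 3562) (.e (nat_lit 81948) (nat_lit 21) (.e (nat_lit 57683) (nat_lit 155) (.e (nat_lit 122917) (nat_lit 15) (.e (nat_lit 360449) (nat_lit 0) (.e (nat_lit 7122) (nat_lit 382) (.e (nat_lit 1222) (nat_lit 90) .nil)))))) (.g (nat_lit 0) .nil .nil))) 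
(.lf (nat_lit 209705) (.g (nat_lit 2066) (.e (nat_lit 81948) (nat_lit 21) (.e (nat_lit 57684) (nat_lit 155) (.e (nat_lit 122919) (nat_lit 15) (.e (nat_lit 360450) (nat_lit 0) (.e (nat_lit 7119) (nat_lit 382) (.e (nat_lit 7936) (nat_lit 90) .nil)))))) (.g (nat_lit 4) .nil .nil)))) (.nd (nat_lit 5) 
(.lf (nat_lit 209689) (.g (nat_lit 2134) (.e (nat_lit 81948) (nat_lit 21) (.e (nat_lit 57683) (nat_lit 155) (.e (nat_lit 122919) (nat_lit 15) (.e (nat_lit 360451) (nat_lit 0) (.e (nat_lit 7132) (nat_lit 382) (.e (nat_lit 7936) (nat_lit 90) .nil)))))) (.g (nat_lit 4) .nil .nil))) 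
(.lf (nat_lit 209721) (.g (nat_lit 2644) (.e (nat_lit 81948) (nat_lit 21) (.e (nat_lit 57870) (nat_lit 264) (.e (nat_lit 1188) (nat_lit 88) (.e (nat_lit 65624) (nat_lit 12) (.e (nat_lit 385094) (nat_lit 49) (.e (nat_lit 778326) (nat_lit 6) .nil)))))) (.g (nat_lit 6) .nil .nil)))))) (.nd (nat_lit 3) (.nd (nat_lit 4) (.nd (nat_lit 5) 
(.lf (nat_lit 209669) (.g (nat_lit 2756) (.e (nat_lit 81948) (nat_lit 21) (.e (nat_lit 57683) (nat_lit 155) (.e (nat_lit 122916) (nat_lit 14) (.e (nat_lit 352309) (nat_lit 21) (.e (nat_lit 57665) (nat_lit 152) (.e (nat_lit 7936) (nat_lit 90) .nil)))))) (.g (nat_lit 4) .nil .nil))) 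
(.lf (nat_lit 209701) (.g (nat_lit 2992) (.e (nat_lit 81948) (nat_lit 21) (.e (nat_lit 57684) (nat_lit 155) (.e (nat_lit 122917) (nat_lit 15) (.e (nat_lit 360449) (nat_lit 0) (.e (nat_lit 7122) (nat_lit 382) (.e (nat_lit 1222) (nat_lit 90) .nil)))))) (.g (nat_lit 0) .nil .nil)))) (.nd (nat_lit 5) 
(.lf (nat_lit 209685) (.g (nat_lit 3791) (.e (nat_lit 81948) (nat_lit 21) (.e (nat_lit 57683) (nat_lit 155) (.e (nat_lit 122919) (nat_lit 15) (.e (nat_lit 360451) (nat_lit 0) (.e (nat_lit 7122) (nat_lit 382) (.e (nat_lit 1222) (nat_lit 90) .nil)))))) (.g (nat_lit 0) .nil .nil))) 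
(.lf (nat_lit 209717) (.g (nat_lit 905) (.e (nat_lit 81948) (nat_lit 21) (.e (nat_lit 57847) (nat_lit 252) (.e (nat_lit 57368) (nat_lit 1) .nil))) .nil)))) (.nd (nat_lit 4) (.nd (nat_lit 5) 
(.lf (nat_lit 209677) (.g (nat_lit 2084) (.e (nat_lit 81948) (nat_lit 21) (.e (nat_lit 57683) (nat_lit 155) (.e (nat_lit 122917) (nat_lit 15) (.e (nat_lit 360488) (nat_lit 20) (.e (nat_lit 769792) (nat_lit 10) .nil))))) (.g (nat_lit 4) .nil .nil))) 
(.lf (nat_lit 209709) (.g (nat_lit 2312) (.e (nat_lit 81948) (nat_lit 21) (.e (nat_lit 57684) (nat_lit 155) (.e (nat_lit 122919) (nat_lit 15) (.e (nat_lit 360451) (nat_lit 0) (.e (nat_lit 7124) (nat_lit 382) (.e (nat_lit 7936) (nat_lit 90) .nil)))))) (.g (nat_lit 5) .nil .nil)))) (.nd (nat_lit 5) 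
(.lf (nat_lit 209693) (.g (nat_lit 2238) (.e (nat_lit 81948) (nat_lit 21) (.e (nat_lit 57683) (nat_lit 155) (.e (nat_lit 122919) (nat_lit 15) (.e (nat_lit 360489) (nat_lit 21) (.e (nat_lit 770074) (nat_lit 10) .nil))))) (.g (nat_lit 5) .nil .nil))) 
(.lf (nat_lit 209725) (.g (nat_lit 2854) (.e (nat_lit 81948) (nat_lit 21) (.e (nat_lit 57870) (nat_lit 264) (.e (nat_lit 1190) (nat_lit 88) (.e (nat_lit 65624) (nat_lit 12) (.e (nat_lit 385094) (nat_lit 49) (.e (nat_lit 778326) (nat_lit 6) .nil)))))) (.g (nat_lit 6) .nil .nil))))))) (.nd (nat_lit 2) (.nd (nat_lit 3) (.nd (nat_lit 4) (.nd (nat_lit 5) 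
(.lf (nat_lit 209667) (.g (nat_lit 2237) (.e (nat_lit 81948) (nat_lit 21) (.e (nat_lit 57683) (nat_lit 155) (.e (nat_lit 122916) (nat_lit 14) (.e (nat_lit 352309) (nat_lit 21) (.e (nat_lit 57655) (nat_lit 152) (.e (nat_lit 1217) (nat_lit 90) .nil)))))) (.g (nat_lit 4) .nil .nil))) 
(.lf (nat_lit 209699) (.g (nat_lit 3063) (.e (nat_lit 81948) (nat_lit 21) (.e (nat_lit 57684) (nat_lit 155) (.e (nat_lit 122916) (nat_lit 14) (.e (nat_lit 352309) (nat_lit 21) (.e (nat_lit 57655) (nat_lit 152) (.e (nat_lit 1216) (nat_lit 90) .nil)))))) (.g (nat_lit 6) .nil .nil)))) (.nd (nat_lit 5) 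
(.lf (nat_lit 209683) (.g (nat_lit 2382) (.e (nat_lit 81948) (nat_lit 21) (.e (nat_lit 57683) (nat_lit 155) (.e (nat_lit 122919) (nat_lit 15) (.e (nat_lit 360450) (nat_lit 0) (.e (nat_lit 7124) (nat_lit 382) .nil))))) .nil)) 
(.lf (nat_lit 209715) (.g (nat_lit 1494) (.e (nat_lit 81948) (nat_lit 21) (.e (nat_lit 57847) (nat_lit 252) (.e (nat_lit 57365) (nat_lit 1) (.e (nat_lit 57854) (nat_lit 252) .nil)))) .nil)))) (.nd (nat_lit 4) (.nd (nat_lit 5) 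
(.lf (nat_lit 209675) (.g (nat_lit 2357) (.e (nat_lit 81948) (nat_lit 21) (.e (nat_lit 57683) (nat_lit 155) (.e (nat_lit 122917) (nat_lit 15) (.e (nat_lit 360449) (nat_lit 0) (.e (nat_lit 7124) (nat_lit 382) (.e (nat_lit 1222) (nat_lit 90) .nil)))))) (.g (nat_lit 5) .nil .nil))) 
(.lf (nat_lit 209707) (.g (nat_lit 2371) (.e (nat_lit 81948) (nat_lit 21) (.e (nat_lit 57684) (nat_lit 155) (.e (nat_lit 122919) (nat_lit 15) (.e (nat_lit 360451) (nat_lit 0) (.e (nat_lit 7119) (nat_lit 382) (.e (nat_lit 7936) (nat_lit 90) .nil)))))) (.g (nat_lit 5) .nil .nil)))) (.nd (nat_lit 5) 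
(.lf (nat_lit 209691) (.g (nat_lit 2275) (.e (nat_lit 81948) (nat_lit 21) (.e (nat_lit 57683) (nat_lit 155) (.e (nat_lit 122919) (nat_lit 15) (.e (nat_lit 360453) (nat_lit 0) (.e (nat_lit 7147) (nat_lit 382) (.e (nat_lit 1216) (nat_lit 90) .nil)))))) (.g (nat_lit 0) .nil .nil))) 
(.lf (nat_lit 209723) (.g (nat_lit 4064) (.e (nat_lit 81948) (nat_lit 21) (.e (nat_lit 57870) (nat_lit 264) (.e (nat_lit 1190) (nat_lit 88) (.e (nat_lit 65619) (nat_lit 10) (.e (nat_lit 344097) (nat_lit 18) (.e (nat_lit 5907) (nat_lit 320) (.e (nat_lit 1221) (nat_lit 90) .nil))))))) (.g (nat_lit 7) .nil .nil)))))) (.nd (nat_lit 3) (.nd (nat_lit 4) (.nd (nat_lit 5) 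
(.lf (nat_lit 209671) (.g (nat_lit 1809) (.e (nat_lit 81948) (nat_lit 21) (.e (nat_lit 57683) (nat_lit 155) (.e (nat_lit 122916) (nat_lit 14) (.e (nat_lit 352309) (nat_lit 21) (.e (nat_lit 65280) (nat_lit 152) .nil))))) .nil)) 
(.lf (nat_lit 209703) (.g (nat_lit 1501) (.e (nat_lit 81948) (nat_lit 21) (.e (nat_lit 57684) (nat_lit 155) (.e (nat_lit 122917) (nat_lit 15) (.e (nat_lit 360488) (nat_lit 20) (.e (nat_lit 769792) (nat_lit 10) .nil))))) (.g (nat_lit 4) .nil .nil)))) (.nd (nat_lit 5) 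
(.lf (nat_lit 209687) (.g (nat_lit 3214) (.e (nat_lit 81948) (nat_lit 21) (.e (nat_lit 57683) (nat_lit 155) (.e (nat_lit 122919) (nat_lit 15) (.e (nat_lit 360451) (nat_lit 0) (.e (nat_lit 7124) (nat_lit 382) (.e (nat_lit 1222) (nat_lit 90) .nil)))))) (.g (nat_lit 6) .nil .nil))) 
(.lf (nat_lit 209719) (.g (nat_lit 2535) (.e (nat_lit 81948) (nat_lit 21) (.e (nat_lit 57847) (nat_lit 252) (.e (nat_lit 57368) (nat_lit 1) (.e (nat_lit 57854) (nat_lit 252) (.e (nat_lit 57409) (nat_lit 12) (.e (nat_lit 336240) (nat_lit 15) (.e (nat_lit 3453) (nat_lit 216) (.e (nat_lit 688184) (nat_lit 18) .nil)))))))) (.g (nat_lit 4) .nil .nil))))) (.nd (nat_lit 4) (.nd (nat_lit 5) 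
(.lf (nat_lit 209679) (.g (nat_lit 1803) (.e (nat_lit 81948) (nat_lit 21) (.e (nat_lit 57683) (nat_lit 155) (.e (nat_lit 122919) (nat_lit 15) (.e (nat_lit 360449) (nat_lit 0) (.e (nat_lit 7122) (nat_lit 382) (.e (nat_lit 7936) (nat_lit 90) .nil)))))) (.g (nat_lit 4) .nil .nil))) 
(.lf (nat_lit 209711) (.g (nat_lit 1809) (.e (nat_lit 81948) (nat_lit 21) (.e (nat_lit 57684) (nat_lit 155) (.e (nat_lit 122919) (nat_lit 15) (.e (nat_lit 360454) (nat_lit 0) (.e (nat_lit 7147) (nat_lit 382) (.e (nat_lit 1216) (nat_lit 90) .nil)))))) (.g (nat_lit 5) .nil .nil)))) (.nd (nat_lit 5) 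
(.lf (nat_lit 209695) (.g (nat_lit 1032) (.e (nat_lit 81948) (nat_lit 21) (.e (nat_lit 57684) (nat_lit 155) (.e (nat_lit 122916) (nat_lit 14) (.e (nat_lit 352308) (nat_lit 21) .nil)))) .nil)) 
(.lf (nat_lit 209727) (.g (nat_lit 3916) (.e (nat_lit 81948) (nat_lit 21) (.e (nat_lit 57870) (nat_lit 264) (.e (nat_lit 1200) (nat_lit 88) (.e (nat_lit 65619) (nat_lit 10) (.e (nat_lit 344097) (nat_lit 18) (.e (nat_lit 5907) (nat_lit 320) (.e (nat_lit 1221) (nat_lit 90) .nil))))))) (.g (nat_lit 7) .nil .nil)))))))))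

noncomputable def tv2770 : DT := (.nd (nat_lit 0) (.nd (nat_lit 1) (.nd (nat_lit 2) (.nd (nat_lit 3) (.nd (nat_lit 4) (.nd (nat_lit 5) 
(.lf (nat_lit 209728) (.g (nat_lit 186) (.e (nat_lit 81948) (nat_lit 21) (.e (nat_lit 57870) (nat_lit 264) (.e (nat_lit 1219) (nat_lit 90) .nil))) .nil)) 
(.lf (nat_lit 209760) (.g (nat_lit 4433) (.e (nat_lit 81948) (nat_lit 21) (.e (nat_lit 57872) (nat_lit 264) (.e (nat_lit 1190) (nat_lit 88) (.e (nat_lit 65619) (nat_lit 10) (.e (nat_lit 344097) (nat_lit 18) (.e (nat_lit 5907) (nat_lit 320) (.e (nat_lit 1221) (nat_lit 90) .nil))))))) (.g (nat_lit 7) .nil .nil)))) (.nd (nat_lit 5) 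
(.lf (nat_lit 209744) (.g (nat_lit 3165) (.e (nat_lit 81948) (nat_lit 21) (.e (nat_lit 57870) (nat_lit 264) (.e (nat_lit 1221) (nat_lit 90) (.e (nat_lit 81950) (nat_lit 21) (.e (nat_lit 57872) (nat_lit 264) (.e (nat_lit 1221) (nat_lit 90) .nil)))))) (.g (nat_lit 6) .nil .nil))) 
(.lf (nat_lit 209776) (.g (nat_lit 2280) (.e (nat_lit 81948) (nat_lit 21) (.e (nat_lit 57872) (nat_lit 264) (.e (nat_lit 1219) (nat_lit 90) (.e (nat_lit 81946) (nat_lit 20) (.e (nat_lit 2005) (nat_lit 138) (.e (nat_lit 671764) (nat_lit 6) .nil)))))) (.g (nat_lit 4) .nil .nil))))) (.nd (nat_lit 4) (.nd (nat_lit 5) 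
(.lf (nat_lit 209736) (.g (nat_lit 3551) (.e (nat_lit 81948) (nat_lit 21) (.e (nat_lit 57870) (nat_lit 264) (.e (nat_lit 1220) (nat_lit 90) (.e (nat_lit 81950) (nat_lit 21) (.e (nat_lit 57873) (nat_lit 264) (.e (nat_lit 1221) (nat_lit 90) .nil)))))) (.g (nat_lit 6) .nil .nil))) 
(.lf (nat_lit 209768) (.g (nat_lit 2368) (.e (nat_lit 81948) (nat_lit 21) (.e (nat_lit 57872) (nat_lit 264) (.e (nat_lit 1200) (nat_lit 88) (.e (nat_lit 65604) (nat_lit 9) (.e (nat_lit 335907) (nat_lit 0) (.e (nat_lit 1994) (nat_lit 137) (.e (nat_lit 663569) (nat_lit 6) .nil))))))) (.g (nat_lit 5) .nil .nil)))) (.nd (nat_lit 5) 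
(.lf (nat_lit 209752) (.g (nat_lit 2236) (.e (nat_lit 81948) (nat_lit 21) (.e (nat_lit 57871) (nat_lit 264) (.e (nat_lit 1199) (nat_lit 88) (.e (nat_lit 65624) (nat_lit 12) (.e (nat_lit 385093) (nat_lit 49) (.e (nat_lit 778326) (nat_lit 6) .nil)))))) (.g (nat_lit 5) .nil .nil))) 
(.lf (nat_lit 209784) (.g (nat_lit 1202) (.e (nat_lit 81948) (nat_lit 21) (.e (nat_lit 57872) (nat_lit 264) (.e (nat_lit 1219) (nat_lit 90) (.e (nat_lit 81958) (nat_lit 24) .nil)))) .nil))))) (.nd (nat_lit 3) (.nd (nat_lit 4) (.nd (nat_lit 5) 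
(.lf (nat_lit 209732) (.g (nat_lit 893) (.e (nat_lit 81948) (nat_lit 21) (.e (nat_lit 57870) (nat_lit 264) (.e (nat_lit 1220) (nat_lit 90) (.e (nat_lit 81948) (nat_lit 21) .nil)))) .nil)) 
(.lf (nat_lit 209764) (.g (nat_lit 1903) (.e (nat_lit 81948) (nat_lit 21) (.e (nat_lit 57872) (nat_lit 264) (.e (nat_lit 1196) (nat_lit 88) (.e (nat_lit 65624) (nat_lit 12) (.e (nat_lit 385093) (nat_lit 49) (.e (nat_lit 778326) (nat_lit 6) .nil)))))) (.g (nat_lit 4) .nil .nil)))) (.nd (nat_lit 5) 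
(.lf (nat_lit 209748) (.g (nat_lit 2373) (.e (nat_lit 81948) (nat_lit 21) (.e (nat_lit 57871) (nat_lit 264) (.e (nat_lit 1189) (nat_lit 88) (.e (nat_lit 65624) (nat_lit 12) (.e (nat_lit 385094) (nat_lit 49) (.e (nat_lit 778326) (nat_lit 6) .nil)))))) (.g (nat_lit 6) .nil .nil))) 
(.lf (nat_lit 209780) (.g (nat_lit 1222) (.e (nat_lit 81948) (nat_lit 21) (.e (nat_lit 57872) (nat_lit 264) (.e (nat_lit 1219) (nat_lit 90) (.e (nat_lit 81950) (nat_lit 21) .nil)))) .nil)))) (.nd (nat_lit 4) (.nd (nat_lit 5) 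
(.lf (nat_lit 209740) (.g (nat_lit 2241) (.e (nat_lit 81948) (nat_lit 21) (.e (nat_lit 57870) (nat_lit 264) (.e (nat_lit 1221) (nat_lit 90) (.e (nat_lit 81931) (nat_lit 20) (.e (nat_lit 1999) (nat_lit 137) (.e (nat_lit 663569) (nat_lit 6) .nil)))))) (.g (nat_lit 6) .nil .nil))) 
(.lf (nat_lit 209772) (.g (nat_lit 2004) (.e (nat_lit 81948) (nat_lit 21) (.e (nat_lit 57872) (nat_lit 264) (.e (nat_lit 1219) (nat_lit 90) (.e (nat_lit 81921) (nat_lit 0) (.e (nat_lit 3716) (nat_lit 227) (.e (nat_lit 778325) (nat_lit 6) .nil)))))) (.g (nat_lit 0) .nil .nil)))) (.nd (nat_lit 5) 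
(.lf (nat_lit 209756) (.g (nat_lit 3476) (.e (nat_lit 81948) (nat_lit 21) (.e (nat_lit 57871) (nat_lit 264) (.e (nat_lit 1220) (nat_lit 90) (.e (nat_lit 81950) (nat_lit 21) (.e (nat_lit 57873) (nat_lit 264) (.e (nat_lit 1221) (nat_lit 90) .nil)))))) (.g (nat_lit 6) .nil .nil))) 
(.lf (nat_lit 209788) (.g (nat_lit 1046) (.e (nat_lit 81948) (nat_lit 21) (.e (nat_lit 57872) (nat_lit 264) (.e (nat_lit 1221) (nat_lit 90) (.e (nat_lit 89856) (nat_lit 0) .nil)))) .nil)))))) (.nd (nat_lit 2) (.nd (nat_lit 3) (.nd (nat_lit 4) (.nd (nat_lit 5) 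
(.lf (nat_lit 209730) (.g (nat_lit 1476) (.e (nat_lit 81948) (nat_lit 21) (.e (nat_lit 57870) (nat_lit 264) (.e (nat_lit 1219) (nat_lit 90) (.e (nat_lit 81946) (nat_lit 20) (.e (nat_lit 2005) (nat_lit 138) (.e (nat_lit 671764) (nat_lit 6) .nil)))))) (.g (nat_lit 4) .nil .nil))) 
(.lf (nat_lit 209762) (.g (nat_lit 2789) (.e (nat_lit 81948) (nat_lit 21) (.e (nat_lit 57872) (nat_lit 264) (.e (nat_lit 1190) (nat_lit 88) (.e (nat_lit 65624) (nat_lit 12) (.e (nat_lit 385092) (nat_lit 49) (.e (nat_lit 778326) (nat_lit 6) .nil)))))) (.g (nat_lit 5) .nil .nil)))) (.nd (nat_lit 5) 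
(.lf (nat_lit 209746) (.g (nat_lit 1248) (.e (nat_lit 81948) (nat_lit 21) (.e (nat_lit 57870) (nat_lit 264) (.e (nat_lit 1221) (nat_lit 90) (.e (nat_lit 81958) (nat_lit 24) (.e (nat_lit 123185) (nat_lit 264) .nil))))) .nil)) 
(.lf (nat_lit 209778) (.g (nat_lit 3268) (.e (nat_lit 81948) (nat_lit 21) (.e (nat_lit 57872) (nat_lit 264) (.e (nat_lit 1219) (nat_lit 90) (.e (nat_lit 81948) (nat_lit 21) (.e (nat_lit 57873) (nat_lit 264) (.e (nat_lit 1221) (nat_lit 90) .nil)))))) (.g (nat_lit 6) .nil .nil))))) (.nd (nat_lit 4) (.nd (nat_lit 5) 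
(.lf (nat_lit 209738) (.g (nat_lit 930) (.e (nat_lit 81948) (nat_lit 21) (.e (nat_lit 57870) (nat_lit 264) (.e (nat_lit 1221) (nat_lit 90) (.e (nat_lit 81923) (nat_lit 0) .nil)))) .nil)) 
(.lf (nat_lit 209770) (.g (nat_lit 2383) (.e (nat_lit 81948) (nat_lit 21) (.e (nat_lit 57872) (nat_lit 264) (.e (nat_lit 1200) (nat_lit 88) (.e (nat_lit 65624) (nat_lit 12) (.e (nat_lit 385092) (nat_lit 49) (.e (nat_lit 778326) (nat_lit 6) .nil)))))) (.g (nat_lit 5) .nil .nil)))) (.nd (nat_lit 5) 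
(.lf (nat_lit 209754) (.g (nat_lit 878) (.e (nat_lit 81948) (nat_lit 21) (.e (nat_lit 57871) (nat_lit 264) (.e (nat_lit 1220) (nat_lit 90) (.e (nat_lit 81948) (nat_lit 21) .nil)))) .nil)) 
(.lf (nat_lit 209786) (.g (nat_lit 3193) (.e (nat_lit 81948) (nat_lit 21) (.e (nat_lit 57872) (nat_lit 264) (.e (nat_lit 1220) (nat_lit 90) (.e (nat_lit 81950) (nat_lit 21) (.e (nat_lit 57873) (nat_lit 264) (.e (nat_lit 1219) (nat_lit 90) .nil)))))) (.g (nat_lit 6) .nil .nil)))))) (.nd (nat_lit 3) (.nd (nat_lit 4) (.nd (nat_lit 5) 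
(.lf (nat_lit 209734) (.g (nat_lit 3452) (.e (nat_lit 81948) (nat_lit 21) (.e (nat_lit 57870) (nat_lit 264) (.e (nat_lit 1220) (nat_lit 90) (.e (nat_lit 81950) (nat_lit 21) (.e (nat_lit 57872) (nat_lit 264) (.e (nat_lit 1221) (nat_lit 90) .nil)))))) (.g (nat_lit 6) .nil .nil))) 
(.lf (nat_lit 209766) (.g (nat_lit 2087) (.e (nat_lit 81948) (nat_lit 21) (.e (nat_lit 57872) (nat_lit 264) (.e (nat_lit 1199) (nat_lit 88) (.e (nat_lit 65617) (nat_lit 10) (.e (nat_lit 344168) (nat_lit 40) (.e (nat_lit 671764) (nat_lit 6) .nil)))))) (.g (nat_lit 4) .nil .nil)))) (.nd (nat_lit 5) 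
(.lf (nat_lit 209750) (.g (nat_lit 2754) (.e (nat_lit 81948) (nat_lit 21) (.e (nat_lit 57871) (nat_lit 264) (.e (nat_lit 1190) (nat_lit 88) (.e (nat_lit 65619) (nat_lit 10) (.e (nat_lit 344168) (nat_lit 40) (.e (nat_lit 671764) (nat_lit 6) .nil)))))) (.g (nat_lit 6) .nil .nil))) 
(.lf (nat_lit 209782) (.g (nat_lit 2911) (.e (nat_lit 81948) (nat_lit 21) (.e (nat_lit 57872) (nat_lit 264) (.e (nat_lit 1219) (nat_lit 90) (.e (nat_lit 81950) (nat_lit 21) (.e (nat_lit 57873) (nat_lit 264) (.e (nat_lit 1219) (nat_lit 90) .nil)))))) (.g (nat_lit 5) .nil .nil))))) (.nd (nat_lit 4) (.nd (nat_lit 5) 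
(.lf (nat_lit 209742) (.g (nat_lit 1307) (.e (nat_lit 81948) (nat_lit 21) (.e (nat_lit 57870) (nat_lit 264) (.e (nat_lit 1221) (nat_lit 90) (.e (nat_lit 81948) (nat_lit 21) (.e (nat_lit 57871) (nat_lit 264) .nil))))) .nil)) 
(.lf (nat_lit 209774) (.g (nat_lit 2810) (.e (nat_lit 81948) (nat_lit 21) (.e (nat_lit 57872) (nat_lit 264) (.e (nat_lit 1219) (nat_lit 90) (.e (nat_lit 81935) (nat_lit 20) (.e (nat_lit 1998) (nat_lit 137) (.e (nat_lit 663569) (nat_lit 6) .nil)))))) (.g (nat_lit 0) .nil .nil)))) (.nd (nat_lit 5) 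
(.lf (nat_lit 209758) (.g (nat_lit 3090) (.e (nat_lit 81948) (nat_lit 21) (.e (nat_lit 57871) (nat_lit 264) (.e (nat_lit 1221) (nat_lit 90) (.e (nat_lit 81950) (nat_lit 21) (.e (nat_lit 57873) (nat_lit 264) (.e (nat_lit 1219) (nat_lit 90) .nil)))))) (.g (nat_lit 6) .nil .nil))) 
(.lf (nat_lit 209790) (.g (nat_lit 2683) (.e (nat_lit 81948) (nat_lit 21) (.e (nat_lit 57872) (nat_lit 264) (.e (nat_lit 1221) (nat_lit 90) (.e (nat_lit 81931) (nat_lit 20) (.e (nat_lit 1998) (nat_lit 137) (.e (nat_lit 663569) (nat_lit 6) .nil)))))) (.g (nat_lit 6) .nil .nil)))))))) (.nd (nat_lit 1) (.nd (nat_lit 2) (.nd (nat_lit 3) (.nd (nat_lit 4) (.nd (nat_lit 5) 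
(.lf (nat_lit 209729) (.g (nat_lit 719) (.e (nat_lit 81948) (nat_lit 21) (.e (nat_lit 57870) (nat_lit 264) (.e (nat_lit 1219) (nat_lit 90) (.e (nat_lit 81922) (nat_lit 0) .nil)))) .nil)) 
(.lf (nat_lit 209761) (.g (nat_lit 2412) (.e (nat_lit 81948) (nat_lit 21) (.e (nat_lit 57872) (nat_lit 264) (.e (nat_lit 1190) (nat_lit 88) (.e (nat_lit 65622) (nat_lit 12) (.e (nat_lit 385093) (nat_lit 49) (.e (nat_lit 778326) (nat_lit 6) .nil)))))) (.g (nat_lit 5) .nil .nil)))) (.nd (nat_lit 5) 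
(.lf (nat_lit 209745) (.g (nat_lit 3186) (.e (nat_lit 81948) (nat_lit 21) (.e (nat_lit 57870) (nat_lit 264) (.e (nat_lit 1221) (nat_lit 90) (.e (nat_lit 81950) (nat_lit 21) (.e (nat_lit 57873) (nat_lit 264) (.e (nat_lit 1221) (nat_lit 90) .nil)))))) (.g (nat_lit 6) .nil .nil))) 
(.lf (nat_lit 209777) (.g (nat_lit 3284) (.e (nat_lit 81948) (nat_lit 21) (.e (nat_lit 57872) (nat_lit 264) (.e (nat_lit 1219) (nat_lit 90) (.e (nat_lit 81948) (nat_lit 21) (.e (nat_lit 57873) (nat_lit 264) (.e (nat_lit 1219) (nat_lit 90) .nil)))))) (.g (nat_lit 0) .nil .nil))))) (.nd (nat_lit 4) (.nd (nat_lit 5) 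
(.lf (nat_lit 209737) (.g (nat_lit 150) (.e (nat_lit 81948) (nat_lit 21) (.e (nat_lit 57870) (nat_lit 264) (.e (nat_lit 1221) (nat_lit 90) .nil))) .nil)) 
(.lf (nat_lit 209769) (.g (nat_lit 4249) (.e (nat_lit 81948) (nat_lit 21) (.e (nat_lit 57872) (nat_lit 264) (.e (nat_lit 1200) (nat_lit 88) (.e (nat_lit 65619) (nat_lit 10) (.e (nat_lit 344097) (nat_lit 18) (.e (nat_lit 5907) (nat_lit 320) (.e (nat_lit 1221) (nat_lit 90) .nil))))))) (.g (nat_lit 7) .nil .nil)))) (.nd (nat_lit 5) 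
(.lf (nat_lit 209753) (.g (nat_lit 1852) (.e (nat_lit 81948) (nat_lit 21) (.e (nat_lit 57871) (nat_lit 264) (.e (nat_lit 1219) (nat_lit 90) (.e (nat_lit 81947) (nat_lit 20) (.e (nat_lit 2005) (nat_lit 138) (.e (nat_lit 671764) (nat_lit 6) .nil)))))) (.g (nat_lit 5) .nil .nil))) 
(.lf (nat_lit 209785) (.g (nat_lit 2517) (.e (nat_lit 81948) (nat_lit 21) (.e (nat_lit 57872) (nat_lit 264) (.e (nat_lit 1220) (nat_lit 90) (.e (nat_lit 81950) (nat_lit 21) (.e (nat_lit 57871) (nat_lit 264) (.e (nat_lit 1219) (nat_lit 90) .nil)))))) (.g (nat_lit 4) .nil .nil)))))) (.nd (nat_lit 3) (.nd (nat_lit 4) (.nd (nat_lit 5) 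
(.lf (nat_lit 209733) (.g (nat_lit 1605) (.e (nat_lit 81948) (nat_lit 21) (.e (nat_lit 57870) (nat_lit 264) (.e (nat_lit 1220) (nat_lit 90) (.e (nat_lit 81950) (nat_lit 21) (.e (nat_lit 57870) (nat_lit 264) .nil))))) .nil)) 
(.lf (nat_lit 209765) (.g (nat_lit 4102) (.e (nat_lit 81948) (nat_lit 21) (.e (nat_lit 57872) (nat_lit 264) (.e (nat_lit 1199) (nat_lit 88) (.e (nat_lit 65610) (nat_lit 10) (.e (nat_lit 344097) (nat_lit 18) (.e (nat_lit 5907) (nat_lit 320) (.e (nat_lit 1221) (nat_lit 90) .nil))))))) (.g (nat_lit 7) .nil .nil)))) (.nd (nat_lit 5) 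
(.lf (nat_lit 209749) (.g (nat_lit 4120) (.e (nat_lit 81948) (nat_lit 21) (.e (nat_lit 57871) (nat_lit 264) (.e (nat_lit 1190) (nat_lit 88) (.e (nat_lit 65619) (nat_lit 10) (.e (nat_lit 344097) (nat_lit 18) (.e (nat_lit 5907) (nat_lit 320) (.e (nat_lit 1221) (nat_lit 90) .nil))))))) (.g (nat_lit 7) .nil .nil))) 
(.lf (nat_lit 209781) (.g (nat_lit 2020) (.e (nat_lit 81948) (nat_lit 21) (.e (nat_lit 57872) (nat_lit 264) (.e (nat_lit 1219) (nat_lit 90) (.e (nat_lit 81950) (nat_lit 21) (.e (nat_lit 57871) (nat_lit 264) (.e (nat_lit 1219) (nat_lit 90) .nil)))))) (.g (nat_lit 4) .nil .nil))))) (.nd (nat_lit 4) (.nd (nat_lit 5) 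
(.lf (nat_lit 209741) (.g (nat_lit 892) (.e (nat_lit 81948) (nat_lit 21) (.e (nat_lit 57870) (nat_lit 264) (.e (nat_lit 1221) (nat_lit 90) (.e (nat_lit 81948) (nat_lit 21) .nil)))) .nil)) 
(.lf (nat_lit 209773) (.g (nat_lit 1202) (.e (nat_lit 81948) (nat_lit 21) (.e (nat_lit 57872) (nat_lit 264) (.e (nat_lit 1219) (nat_lit 90) (.e (nat_lit 81931) (nat_lit 20) .nil)))) .nil))) (.nd (nat_lit 5) 
(.lf (nat_lit 209757) (.g (nat_lit 2505) (.e (nat_lit 81948) (nat_lit 21) (.e (nat_lit 57871) (nat_lit 264) (.e (nat_lit 1221) (nat_lit 90) (.e (nat_lit 81950) (nat_lit 21) (.e (nat_lit 57870) (nat_lit 264) (.e (nat_lit 1219) (nat_lit 90) .nil)))))) (.g (nat_lit 6) .nil .nil))) 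
(.lf (nat_lit 209789) (.g (nat_lit 1108) (.e (nat_lit 81948) (nat_lit 21) (.e (nat_lit 57872) (nat_lit 264) (.e (nat_lit 1221) (nat_lit 90) (.e (nat_lit 81931) (nat_lit 20) .nil)))) .nil)))))) (.nd (nat_lit 2) (.nd (nat_lit 3) (.nd (nat_lit 4) (.nd (nat_lit 5) 
(.lf (nat_lit 209731) (.g (nat_lit 1608) (.e (nat_lit 81948) (nat_lit 21) (.e (nat_lit 57870) (nat_lit 264) (.e (nat_lit 1220) (nat_lit 90) (.e (nat_lit 81931) (nat_lit 20) (.e (nat_lit 1998) (nat_lit 137) (.e (nat_lit 663569) (nat_lit 6) .nil)))))) (.g (nat_lit 4) .nil .nil))) 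
(.lf (nat_lit 209763) (.g (nat_lit 2986) (.e (nat_lit 81948) (nat_lit 21) (.e (nat_lit 57872) (nat_lit 264) (.e (nat_lit 1190) (nat_lit 88) (.e (nat_lit 65624) (nat_lit 12) (.e (nat_lit 385093) (nat_lit 49) (.e (nat_lit 778326) (nat_lit 6) .nil)))))) (.g (nat_lit 5) .nil .nil)))) (.nd (nat_lit 5) 
(.lf (nat_lit 209747) (.g (nat_lit 1833) (.e (nat_lit 81948) (nat_lit 21) (.e (nat_lit 57870) (nat_lit 264) (.e (nat_lit 1221) (nat_lit 90) (.e (nat_lit 81959) (nat_lit 24) (.e (nat_lit 123191) (nat_lit 264) .nil))))) .nil)) 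
(.lf (nat_lit 209779) (.g (nat_lit 1202) (.e (nat_lit 81948) (nat_lit 21) (.e (nat_lit 57872) (nat_lit 264) (.e (nat_lit 1219) (nat_lit 90) (.e (nat_lit 81949) (nat_lit 21) .nil)))) .nil)))) (.nd (nat_lit 4) (.nd (nat_lit 5) 
(.lf (nat_lit 209739) (.g (nat_lit 867) (.e (nat_lit 81948) (nat_lit 21) (.e (nat_lit 57870) (nat_lit 264) (.e (nat_lit 1221) (nat_lit 90) (.e (nat_lit 89856) (nat_lit 8) .nil)))) .nil)) 
(.lf (nat_lit 209771) (.g (nat_lit 2924) (.e (nat_lit 81948) (nat_lit 21) (.e (nat_lit 57872) (nat_lit 264) (.e (nat_lit 1200) (nat_lit 88) (.e (nat_lit 65624) (nat_lit 12) (.e (nat_lit 385094) (nat_lit 49) (.e (nat_lit 778326) (nat_lit 6) .nil)))))) (.g (nat_lit 6) .nil .nil)))) (.nd (nat_lit 5) 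
(.lf (nat_lit 209755) (.g (nat_lit 3388) (.e (nat_lit 81948) (nat_lit 21) (.e (nat_lit 57871) (nat_lit 264) (.e (nat_lit 1220) (nat_lit 90) (.e (nat_lit 81950) (nat_lit 21) (.e (nat_lit 57872) (nat_lit 264) (.e (nat_lit 1221) (nat_lit 90) .nil)))))) (.g (nat_lit 6) .nil .nil))) 
(.lf (nat_lit 209787) (.g (nat_lit 204) (.e (nat_lit 81948) (nat_lit 21) (.e (nat_lit 57872) (nat_lit 264) (.e (nat_lit 1221) (nat_lit 90) .nil))) .nil))))) (.nd (nat_lit 3) (.nd (nat_lit 4) (.nd (nat_lit 5) 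
(.lf (nat_lit 209735) (.g (nat_lit 3445) (.e (nat_lit 81948) (nat_lit 21) (.e (nat_lit 57870) (nat_lit 264) (.e (nat_lit 1220) (nat_lit 90) (.e (nat_lit 81950) (nat_lit 21) (.e (nat_lit 57873) (nat_lit 264) (.e (nat_lit 1219) (nat_lit 90) .nil)))))) (.g (nat_lit 0) .nil .nil))) 
(.lf (nat_lit 209767) (.g (nat_lit 2243) (.e (nat_lit 81948) (nat_lit 21) (.e (nat_lit 57872) (nat_lit 264) (.e (nat_lit 1199) (nat_lit 88) (.e (nat_lit 65622) (nat_lit 12) (.e (nat_lit 385093) (nat_lit 49) (.e (nat_lit 778326) (nat_lit 6) .nil)))))) (.g (nat_lit 5) .nil .nil)))) (.nd (nat_lit 5) 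
(.lf (nat_lit 209751) (.g (nat_lit 2078) (.e (nat_lit 81948) (nat_lit 21) (.e (nat_lit 57871) (nat_lit 264) (.e (nat_lit 1190) (nat_lit 88) (.e (nat_lit 65623) (nat_lit 12) (.e (nat_lit 385094) (nat_lit 49) (.e (nat_lit 778326) (nat_lit 6) .nil)))))) (.g (nat_lit 5) .nil .nil))) 
(.lf (nat_lit 209783) (.g (nat_lit 4242) (.e (nat_lit 81948) (nat_lit 21) (.e (nat_lit 57872) (nat_lit 264) (.e (nat_lit 1219) (nat_lit 90) (.e (nat_lit 81957) (nat_lit 24) (.e (nat_lit 123184) (nat_lit 264) (.e (nat_lit 1222) (nat_lit 90) .nil)))))) (.g (nat_lit 0) .nil .nil))))) (.nd (nat_lit 4) (.nd (nat_lit 5) 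
(.lf (nat_lit 209743) (.g (nat_lit 1839) (.e (nat_lit 81948) (nat_lit 21) (.e (nat_lit 57870) (nat_lit 264) (.e (nat_lit 1221) (nat_lit 90) (.e (nat_lit 81948) (nat_lit 21) (.e (nat_lit 57873) (nat_lit 264) (.e (nat_lit 1221) (nat_lit 90) .nil)))))) (.g (nat_lit 4) .nil .nil))) 
(.lf (nat_lit 209775) (.g (nat_lit 1673) (.e (nat_lit 81948) (nat_lit 21) (.e (nat_lit 57872) (nat_lit 264) (.e (nat_lit 1219) (nat_lit 90) (.e (nat_lit 81946) (nat_lit 20) (.e (nat_lit 2003) (nat_lit 138) .nil))))) .nil))) (.nd (nat_lit 5) 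
(.lf (nat_lit 209759) (.g (nat_lit 2394) (.e (nat_lit 81948) (nat_lit 21) (.e (nat_lit 57872) (nat_lit 264) (.e (nat_lit 1190) (nat_lit 88) (.e (nat_lit 65604) (nat_lit 9) (.e (nat_lit 335907) (nat_lit 0) (.e (nat_lit 1994) (nat_lit 137) (.e (nat_lit 663569) (nat_lit 6) .nil))))))) (.g (nat_lit 5) .nil .nil))) 
(.lf (nat_lit 209791) (.g (nat_lit 1352) (.e (nat_lit 81948) (nat_lit 21) (.e (nat_lit 57872) (nat_lit 264) (.e (nat_lit 1221) (nat_lit 90) (.e (nat_lit 81935) (nat_lit 20) .nil)))) .nil))))))))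

noncomputable def tv2771 : DT := (.nd (nat_lit 0) (.nd (nat_lit 1) (.nd (nat_lit 2) (.nd (nat_lit 3) (.nd (nat_lit 4) 
(.lf (nat_lit 209792) (.g (nat_lit 2845) (.e (nat_lit 81948) (nat_lit 21) (.e (nat_lit 57872) (nat_lit 264) (.e (nat_lit 1221) (nat_lit 90) (.e (nat_lit 81947) (nat_lit 20) (.e (nat_lit 2005) (nat_lit 138) (.e (nat_lit 671764) (nat_lit 6) .nil)))))) (.g (nat_lit 5) .nil .nil))) 
(.lf (nat_lit 209808) (.g (nat_lit 1664) (.e (nat_lit 81948) (nat_lit 21) (.e (nat_lit 57872) (nat_lit 264) (.e (nat_lit 1221) (nat_lit 90) (.e (nat_lit 81959) (nat_lit 24) (.e (nat_lit 123185) (nat_lit 264) (.e (nat_lit 7936) (nat_lit 90) .nil)))))) (.g (nat_lit 4) .nil .nil)))) (.nd (nat_lit 4) 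
(.lf (nat_lit 209800) (.g (nat_lit 1325) (.e (nat_lit 81948) (nat_lit 21) (.e (nat_lit 57872) (nat_lit 264) (.e (nat_lit 1221) (nat_lit 90) (.e (nat_lit 81957) (nat_lit 24) .nil)))) .nil)) 
(.lf (nat_lit 209816) (.g (nat_lit 2991) (.e (nat_lit 81948) (nat_lit 21) (.e (nat_lit 57873) (nat_lit 264) (.e (nat_lit 1190) (nat_lit 88) (.e (nat_lit 65619) (nat_lit 10) (.e (nat_lit 344169) (nat_lit 40) (.e (nat_lit 671764) (nat_lit 6) .nil)))))) (.g (nat_lit 0) .nil .nil))))) (.nd (nat_lit 3) (.nd (nat_lit 4) 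
(.lf (nat_lit 209796) (.g (nat_lit 3030) (.e (nat_lit 81948) (nat_lit 21) (.e (nat_lit 57872) (nat_lit 264) (.e (nat_lit 1221) (nat_lit 90) (.e (nat_lit 81948) (nat_lit 21) (.e (nat_lit 57873) (nat_lit 264) (.e (nat_lit 1221) (nat_lit 90) .nil)))))) (.g (nat_lit 5) .nil .nil))) 
(.lf (nat_lit 209812) (.g (nat_lit 980) (.e (nat_lit 81948) (nat_lit 21) (.e (nat_lit 57873) (nat_lit 264) (.e (nat_lit 1190) (nat_lit 88) (.e (nat_lit 65595) (nat_lit 9) .nil)))) .nil))) (.nd (nat_lit 4) 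
(.lf (nat_lit 209804) (.g (nat_lit 4270) (.e (nat_lit 81948) (nat_lit 21) (.e (nat_lit 57872) (nat_lit 264) (.e (nat_lit 1221) (nat_lit 90) (.e (nat_lit 81959) (nat_lit 24) (.e (nat_lit 123183) (nat_lit 264) (.e (nat_lit 1222) (nat_lit 90) .nil)))))) (.g (nat_lit 0) .nil .nil))) 
(.lf (nat_lit 209820) (.g (nat_lit 1671) (.e (nat_lit 81948) (nat_lit 21) (.e (nat_lit 57873) (nat_lit 264) (.e (nat_lit 1199) (nat_lit 88) (.e (nat_lit 65622) (nat_lit 12) (.e (nat_lit 385092) (nat_lit 49) (.e (nat_lit 778326) (nat_lit 6) .nil)))))) (.g (nat_lit 4) .nil .nil)))))) (.nd (nat_lit 2) (.nd (nat_lit 3) (.nd (nat_lit 4) 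
(.lf (nat_lit 209794) (.g (nat_lit 3264) (.e (nat_lit 81948) (nat_lit 21) (.e (nat_lit 57872) (nat_lit 264) (.e (nat_lit 1221) (nat_lit 90) (.e (nat_lit 81948) (nat_lit 21) (.e (nat_lit 57872) (nat_lit 264) (.e (nat_lit 1219) (nat_lit 90) .nil)))))) (.g (nat_lit 6) .nil .nil))) 
(.lf (nat_lit 209810) (.g (nat_lit 523) (.e (nat_lit 81948) (nat_lit 21) (.e (nat_lit 57873) (nat_lit 264) (.e (nat_lit 1015) (nat_lit 81) .nil))) .nil))) (.nd (nat_lit 4) 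
(.lf (nat_lit 209802) (.g (nat_lit 1806) (.e (nat_lit 81948) (nat_lit 21) (.e (nat_lit 57872) (nat_lit 264) (.e (nat_lit 1221) (nat_lit 90) (.e (nat_lit 81959) (nat_lit 24) (.e (nat_lit 123181) (nat_lit 264) (.e (nat_lit 7936) (nat_lit 90) .nil)))))) (.g (nat_lit 4) .nil .nil))) 
(.lf (nat_lit 209818) (.g (nat_lit 3336) (.e (nat_lit 81948) (nat_lit 21) (.e (nat_lit 57873) (nat_lit 264) (.e (nat_lit 1190) (nat_lit 88) (.e (nat_lit 65624) (nat_lit 12) (.e (nat_lit 385094) (nat_lit 49) (.e (nat_lit 778326) (nat_lit 6) .nil)))))) (.g (nat_lit 0) .nil .nil))))) (.nd (nat_lit 3) (.nd (nat_lit 4) 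
(.lf (nat_lit 209798) (.g (nat_lit 3648) (.e (nat_lit 81948) (nat_lit 21) (.e (nat_lit 57872) (nat_lit 264) (.e (nat_lit 1221) (nat_lit 90) (.e (nat_lit 81950) (nat_lit 21) (.e (nat_lit 57873) (nat_lit 264) (.e (nat_lit 1219) (nat_lit 90) .nil)))))) (.g (nat_lit 0) .nil .nil))) 
(.lf (nat_lit 209814) (.g (nat_lit 2028) (.e (nat_lit 81948) (nat_lit 21) (.e (nat_lit 57873) (nat_lit 264) (.e (nat_lit 1190) (nat_lit 88) (.e (nat_lit 65604) (nat_lit 9) (.e (nat_lit 335907) (nat_lit 0) (.e (nat_lit 1996) (nat_lit 137) (.e (nat_lit 663569) (nat_lit 6) .nil))))))) (.g (nat_lit 4) .nil .nil)))) (.nd (nat_lit 4) 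
(.lf (nat_lit 209806) (.g (nat_lit 4431) (.e (nat_lit 81948) (nat_lit 21) (.e (nat_lit 57872) (nat_lit 264) (.e (nat_lit 1221) (nat_lit 90) (.e (nat_lit 81959) (nat_lit 24) (.e (nat_lit 123184) (nat_lit 264) (.e (nat_lit 1222) (nat_lit 90) .nil)))))) (.g (nat_lit 0) .nil .nil))) 
(.lf (nat_lit 209822) (.g (nat_lit 1954) (.e (nat_lit 81948) (nat_lit 21) (.e (nat_lit 57873) (nat_lit 264) (.e (nat_lit 1200) (nat_lit 88) (.e (nat_lit 65604) (nat_lit 9) (.e (nat_lit 335907) (nat_lit 0) (.e (nat_lit 1994) (nat_lit 137) (.e (nat_lit 663569) (nat_lit 6) .nil))))))) (.g (nat_lit 4) .nil .nil))))))) (.nd (nat_lit 1) (.nd (nat_lit 2) (.nd (nat_lit 3) (.nd (nat_lit 4) 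
(.lf (nat_lit 209793) (.g (nat_lit 2981) (.e (nat_lit 81948) (nat_lit 21) (.e (nat_lit 57872) (nat_lit 264) (.e (nat_lit 1221) (nat_lit 90) (.e (nat_lit 81947) (nat_lit 20) (.e (nat_lit 2006) (nat_lit 138) (.e (nat_lit 671764) (nat_lit 6) .nil)))))) (.g (nat_lit 5) .nil .nil))) 
(.lf (nat_lit 209809) (.g (nat_lit 410) (.e (nat_lit 81948) (nat_lit 21) (.e (nat_lit 57873) (nat_lit 264) (.e (nat_lit 993) (nat_lit 81) .nil))) .nil))) (.nd (nat_lit 4) 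
(.lf (nat_lit 209801) (.g (nat_lit 782) (.e (nat_lit 81948) (nat_lit 21) (.e (nat_lit 57872) (nat_lit 264) (.e (nat_lit 1221) (nat_lit 90) (.e (nat_lit 81959) (nat_lit 24) .nil)))) .nil)) 
(.lf (nat_lit 209817) (.g (nat_lit 3161) (.e (nat_lit 81948) (nat_lit 21) (.e (nat_lit 57873) (nat_lit 264) (.e (nat_lit 1190) (nat_lit 88) (.e (nat_lit 65624) (nat_lit 12) (.e (nat_lit 385093) (nat_lit 49) (.e (nat_lit 778326) (nat_lit 6) .nil)))))) (.g (nat_lit 0) .nil .nil))))) (.nd (nat_lit 3) (.nd (nat_lit 4) 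
(.lf (nat_lit 209797) (.g (nat_lit 3633) (.e (nat_lit 81948) (nat_lit 21) (.e (nat_lit 57872) (nat_lit 264) (.e (nat_lit 1221) (nat_lit 90) (.e (nat_lit 81950) (nat_lit 21) (.e (nat_lit 57872) (nat_lit 264) (.e (nat_lit 1221) (nat_lit 90) .nil)))))) (.g (nat_lit 6) .nil .nil))) 
(.lf (nat_lit 209813) (.g (nat_lit 2145) (.e (nat_lit 81948) (nat_lit 21) (.e (nat_lit 57873) (nat_lit 264) (.e (nat_lit 1190) (nat_lit 88) (.e (nat_lit 65604) (nat_lit 9) (.e (nat_lit 335907) (nat_lit 0) (.e (nat_lit 1994) (nat_lit 137) (.e (nat_lit 663569) (nat_lit 6) .nil))))))) (.g (nat_lit 4) .nil .nil)))) (.nd (nat_lit 4) 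
(.lf (nat_lit 209805) (.g (nat_lit 1907) (.e (nat_lit 81948) (nat_lit 21) (.e (nat_lit 57872) (nat_lit 264) (.e (nat_lit 1221) (nat_lit 90) (.e (nat_lit 81959) (nat_lit 24) (.e (nat_lit 123183) (nat_lit 264) (.e (nat_lit 7936) (nat_lit 90) .nil)))))) (.g (nat_lit 4) .nil .nil))) 
(.lf (nat_lit 209821) (.g (nat_lit 2925) (.e (nat_lit 81948) (nat_lit 21) (.e (nat_lit 57873) (nat_lit 264) (.e (nat_lit 1199) (nat_lit 88) (.e (nat_lit 65624) (nat_lit 12) (.e (nat_lit 385093) (nat_lit 49) (.e (nat_lit 778326) (nat_lit 6) .nil)))))) (.g (nat_lit 0) .nil .nil)))))) (.nd (nat_lit 2) (.nd (nat_lit 3) (.nd (nat_lit 4) 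
(.lf (nat_lit 209795) (.g (nat_lit 3096) (.e (nat_lit 81948) (nat_lit 21) (.e (nat_lit 57872) (nat_lit 264) (.e (nat_lit 1221) (nat_lit 90) (.e (nat_lit 81948) (nat_lit 21) (.e (nat_lit 57872) (nat_lit 264) (.e (nat_lit 1221) (nat_lit 90) .nil)))))) (.g (nat_lit 5) .nil .nil))) 
(.lf (nat_lit 209811) (.g (nat_lit 523) (.e (nat_lit 81948) (nat_lit 21) (.e (nat_lit 57873) (nat_lit 264) (.e (nat_lit 1189) (nat_lit 88) .nil))) .nil))) (.nd (nat_lit 4) 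
(.lf (nat_lit 209803) (.g (nat_lit 2034) (.e (nat_lit 81948) (nat_lit 21) (.e (nat_lit 57872) (nat_lit 264) (.e (nat_lit 1221) (nat_lit 90) (.e (nat_lit 81959) (nat_lit 24) (.e (nat_lit 123182) (nat_lit 264) (.e (nat_lit 1223) (nat_lit 90) .nil)))))) (.g (nat_lit 4) .nil .nil))) 
(.lf (nat_lit 209819) (.g (nat_lit 1499) (.e (nat_lit 81948) (nat_lit 21) (.e (nat_lit 57873) (nat_lit 264) (.e (nat_lit 1196) (nat_lit 88) (.e (nat_lit 65624) (nat_lit 12) (.e (nat_lit 385092) (nat_lit 49) .nil))))) .nil)))) (.nd (nat_lit 3) (.nd (nat_lit 4) 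
(.lf (nat_lit 209799) (.g (nat_lit 3642) (.e (nat_lit 81948) (nat_lit 21) (.e (nat_lit 57872) (nat_lit 264) (.e (nat_lit 1221) (nat_lit 90) (.e (nat_lit 81950) (nat_lit 21) (.e (nat_lit 57873) (nat_lit 264) (.e (nat_lit 1221) (nat_lit 90) .nil)))))) (.g (nat_lit 6) .nil .nil))) 
(.lf (nat_lit 209815) (.g (nat_lit 989) (.e (nat_lit 81948) (nat_lit 21) (.e (nat_lit 57873) (nat_lit 264) (.e (nat_lit 1190) (nat_lit 88) (.e (nat_lit 65616) (nat_lit 10) .nil)))) .nil))) (.nd (nat_lit 4) 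
(.lf (nat_lit 209807) (.g (nat_lit 3879) (.e (nat_lit 81948) (nat_lit 21) (.e (nat_lit 57872) (nat_lit 264) (.e (nat_lit 1221) (nat_lit 90) (.e (nat_lit 81959) (nat_lit 24) (.e (nat_lit 123185) (nat_lit 264) (.e (nat_lit 1222) (nat_lit 90) .nil)))))) (.g (nat_lit 0) .nil .nil))) 
(.lf (nat_lit 209823) (.g (nat_lit 1837) (.e (nat_lit 81948) (nat_lit 21) (.e (nat_lit 57873) (nat_lit 264) (.e (nat_lit 1200) (nat_lit 88) (.e (nat_lit 65604) (nat_lit 9) (.e (nat_lit 335907) (nat_lit 0) (.e (nat_lit 1996) (nat_lit 137) (.e (nat_lit 663569) (nat_lit 6) .nil))))))) (.g (nat_lit 4) .nil .nil))))))))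

noncomputable def tv2772 : DT := (.nd (nat_lit 0) (.nd (nat_lit 1) (.nd (nat_lit 2) (.nd (nat_lit 3) (.nd (nat_lit 4) 
(.lf (nat_lit 209824) (.g (nat_lit 2424) (.e (nat_lit 81948) (nat_lit 21) (.e (nat_lit 57873) (nat_lit 264) (.e (nat_lit 1200) (nat_lit 88) (.e (nat_lit 65624) (nat_lit 12) (.e (nat_lit 385092) (nat_lit 49) (.e (nat_lit 778326) (nat_lit 6) .nil)))))) (.g (nat_lit 5) .nil .nil))) 
(.lf (nat_lit 209840) (.g (nat_lit 2470) (.e (nat_lit 81948) (nat_lit 21) (.e (nat_lit 57873) (nat_lit 264) (.e (nat_lit 1219) (nat_lit 90) (.e (nat_lit 81946) (nat_lit 20) (.e (nat_lit 2005) (nat_lit 138) (.e (nat_lit 671764) (nat_lit 6) .nil)))))) (.g (nat_lit 0) .nil .nil)))) (.nd (nat_lit 4) 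
(.lf (nat_lit 209832) (.g (nat_lit 1309) (.e (nat_lit 81948) (nat_lit 21) (.e (nat_lit 57873) (nat_lit 264) (.e (nat_lit 1219) (nat_lit 90) (.e (nat_lit 81931) (nat_lit 20) .nil)))) .nil)) 
(.lf (nat_lit 209848) (.g (nat_lit 1990) (.e (nat_lit 81948) (nat_lit 21) (.e (nat_lit 57873) (nat_lit 264) (.e (nat_lit 1219) (nat_lit 90) (.e (nat_lit 81950) (nat_lit 21) (.e (nat_lit 57870) (nat_lit 264) (.e (nat_lit 1219) (nat_lit 90) .nil)))))) (.g (nat_lit 4) .nil .nil))))) (.nd (nat_lit 3) (.nd (nat_lit 4) 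
(.lf (nat_lit 209828) (.g (nat_lit 2474) (.e (nat_lit 81948) (nat_lit 21) (.e (nat_lit 57873) (nat_lit 264) (.e (nat_lit 1219) (nat_lit 90) (.e (nat_lit 81922) (nat_lit 0) (.e (nat_lit 3631) (nat_lit 227) (.e (nat_lit 778326) (nat_lit 6) .nil)))))) (.g (nat_lit 0) .nil .nil))) 
(.lf (nat_lit 209844) (.g (nat_lit 2608) (.e (nat_lit 81948) (nat_lit 21) (.e (nat_lit 57873) (nat_lit 264) (.e (nat_lit 1219) (nat_lit 90) (.e (nat_lit 81947) (nat_lit 20) (.e (nat_lit 2006) (nat_lit 138) (.e (nat_lit 671764) (nat_lit 6) .nil)))))) (.g (nat_lit 6) .nil .nil)))) (.nd (nat_lit 4) 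
(.lf (nat_lit 209836) (.g (nat_lit 2178) (.e (nat_lit 81948) (nat_lit 21) (.e (nat_lit 57873) (nat_lit 264) (.e (nat_lit 1219) (nat_lit 90) (.e (nat_lit 81943) (nat_lit 20) (.e (nat_lit 2003) (nat_lit 138) (.e (nat_lit 671764) (nat_lit 6) .nil)))))) (.g (nat_lit 0) .nil .nil))) 
(.lf (nat_lit 209852) (.g (nat_lit 435) (.e (nat_lit 81948) (nat_lit 21) (.e (nat_lit 57873) (nat_lit 264) (.e (nat_lit 1220) (nat_lit 90) .nil))) .nil))))) (.nd (nat_lit 2) (.nd (nat_lit 3) (.nd (nat_lit 4) 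
(.lf (nat_lit 209826) (.g (nat_lit 419) (.e (nat_lit 81948) (nat_lit 21) (.e (nat_lit 57873) (nat_lit 264) (.e (nat_lit 1219) (nat_lit 90) .nil))) .nil)) 
(.lf (nat_lit 209842) (.g (nat_lit 1642) (.e (nat_lit 81948) (nat_lit 21) (.e (nat_lit 57873) (nat_lit 264) (.e (nat_lit 1219) (nat_lit 90) (.e (nat_lit 81947) (nat_lit 20) (.e (nat_lit 2003) (nat_lit 138) .nil))))) .nil))) (.nd (nat_lit 4) 
(.lf (nat_lit 209834) (.g (nat_lit 1295) (.e (nat_lit 81948) (nat_lit 21) (.e (nat_lit 57873) (nat_lit 264) (.e (nat_lit 1219) (nat_lit 90) (.e (nat_lit 81939) (nat_lit 20) .nil)))) .nil)) 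
(.lf (nat_lit 209850) (.g (nat_lit 2823) (.e (nat_lit 81948) (nat_lit 21) (.e (nat_lit 57873) (nat_lit 264) (.e (nat_lit 1219) (nat_lit 90) (.e (nat_lit 81950) (nat_lit 21) (.e (nat_lit 57873) (nat_lit 264) (.e (nat_lit 1219) (nat_lit 90) .nil)))))) (.g (nat_lit 5) .nil .nil))))) (.nd (nat_lit 3) (.nd (nat_lit 4) 
(.lf (nat_lit 209830) (.g (nat_lit 2420) (.e (nat_lit 81948) (nat_lit 21) (.e (nat_lit 57873) (nat_lit 264) (.e (nat_lit 1219) (nat_lit 90) (.e (nat_lit 81924) (nat_lit 0) (.e (nat_lit 3631) (nat_lit 227) (.e (nat_lit 778326) (nat_lit 6) .nil)))))) (.g (nat_lit 0) .nil .nil))) 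
(.lf (nat_lit 209846) (.g (nat_lit 1304) (.e (nat_lit 81948) (nat_lit 21) (.e (nat_lit 57873) (nat_lit 264) (.e (nat_lit 1219) (nat_lit 90) (.e (nat_lit 81949) (nat_lit 21) .nil)))) .nil))) (.nd (nat_lit 4) 
(.lf (nat_lit 209838) (.g (nat_lit 2412) (.e (nat_lit 81948) (nat_lit 21) (.e (nat_lit 57873) (nat_lit 264) (.e (nat_lit 1219) (nat_lit 90) (.e (nat_lit 81943) (nat_lit 20) (.e (nat_lit 2006) (nat_lit 138) (.e (nat_lit 671764) (nat_lit 6) .nil)))))) (.g (nat_lit 0) .nil .nil))) 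
(.lf (nat_lit 209854) (.g (nat_lit 2777) (.e (nat_lit 81948) (nat_lit 21) (.e (nat_lit 57873) (nat_lit 264) (.e (nat_lit 1220) (nat_lit 90) (.e (nat_lit 81950) (nat_lit 21) (.e (nat_lit 57870) (nat_lit 264) (.e (nat_lit 1219) (nat_lit 90) .nil)))))) (.g (nat_lit 4) .nil .nil))))))) (.nd (nat_lit 1) (.nd (nat_lit 2) (.nd (nat_lit 3) (.nd (nat_lit 4) 
(.lf (nat_lit 209825) (.g (nat_lit 2940) (.e (nat_lit 81948) (nat_lit 21) (.e (nat_lit 57873) (nat_lit 264) (.e (nat_lit 1200) (nat_lit 88) (.e (nat_lit 65624) (nat_lit 12) (.e (nat_lit 385094) (nat_lit 49) (.e (nat_lit 778326) (nat_lit 6) .nil)))))) (.g (nat_lit 0) .nil .nil))) 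
(.lf (nat_lit 209841) (.g (nat_lit 2698) (.e (nat_lit 81948) (nat_lit 21) (.e (nat_lit 57873) (nat_lit 264) (.e (nat_lit 1219) (nat_lit 90) (.e (nat_lit 81946) (nat_lit 20) (.e (nat_lit 2006) (nat_lit 138) (.e (nat_lit 671764) (nat_lit 6) .nil)))))) (.g (nat_lit 0) .nil .nil)))) (.nd (nat_lit 4) 
(.lf (nat_lit 209833) (.g (nat_lit 1285) (.e (nat_lit 81948) (nat_lit 21) (.e (nat_lit 57873) (nat_lit 264) (.e (nat_lit 1219) (nat_lit 90) (.e (nat_lit 81934) (nat_lit 20) .nil)))) .nil)) 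
(.lf (nat_lit 209849) (.g (nat_lit 1930) (.e (nat_lit 81948) (nat_lit 21) (.e (nat_lit 57873) (nat_lit 264) (.e (nat_lit 1219) (nat_lit 90) (.e (nat_lit 81950) (nat_lit 21) (.e (nat_lit 57871) (nat_lit 264) (.e (nat_lit 1219) (nat_lit 90) .nil)))))) (.g (nat_lit 4) .nil .nil))))) (.nd (nat_lit 3) (.nd (nat_lit 4) 
(.lf (nat_lit 209829) (.g (nat_lit 1947) (.e (nat_lit 81948) (nat_lit 21) (.e (nat_lit 57873) (nat_lit 264) (.e (nat_lit 1219) (nat_lit 90) (.e (nat_lit 81924) (nat_lit 0) (.e (nat_lit 3629) (nat_lit 227) (.e (nat_lit 778326) (nat_lit 6) .nil)))))) (.g (nat_lit 0) .nil .nil))) 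
(.lf (nat_lit 209845) (.g (nat_lit 3100) (.e (nat_lit 81948) (nat_lit 21) (.e (nat_lit 57873) (nat_lit 264) (.e (nat_lit 1219) (nat_lit 90) (.e (nat_lit 81948) (nat_lit 21) (.e (nat_lit 57873) (nat_lit 264) (.e (nat_lit 1219) (nat_lit 90) .nil)))))) (.g (nat_lit 0) .nil .nil)))) (.nd (nat_lit 4) 
(.lf (nat_lit 209837) (.g (nat_lit 2162) (.e (nat_lit 81948) (nat_lit 21) (.e (nat_lit 57873) (nat_lit 264) (.e (nat_lit 1219) (nat_lit 90) (.e (nat_lit 81943) (nat_lit 20) (.e (nat_lit 2005) (nat_lit 138) (.e (nat_lit 671764) (nat_lit 6) .nil)))))) (.g (nat_lit 0) .nil .nil))) 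
(.lf (nat_lit 209853) (.g (nat_lit 2111) (.e (nat_lit 81948) (nat_lit 21) (.e (nat_lit 57873) (nat_lit 264) (.e (nat_lit 1220) (nat_lit 90) (.e (nat_lit 81950) (nat_lit 21) (.e (nat_lit 57870) (nat_lit 264) .nil))))) .nil))))) (.nd (nat_lit 2) (.nd (nat_lit 3) (.nd (nat_lit 4) 
(.lf (nat_lit 209827) (.g (nat_lit 1686) (.e (nat_lit 81948) (nat_lit 21) (.e (nat_lit 57873) (nat_lit 264) (.e (nat_lit 1219) (nat_lit 90) (.e (nat_lit 81922) (nat_lit 0) (.e (nat_lit 3629) (nat_lit 227) (.e (nat_lit 778326) (nat_lit 6) .nil)))))) (.g (nat_lit 4) .nil .nil))) 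
(.lf (nat_lit 209843) (.g (nat_lit 2474) (.e (nat_lit 81948) (nat_lit 21) (.e (nat_lit 57873) (nat_lit 264) (.e (nat_lit 1219) (nat_lit 90) (.e (nat_lit 81947) (nat_lit 20) (.e (nat_lit 2005) (nat_lit 138) (.e (nat_lit 671764) (nat_lit 6) .nil)))))) (.g (nat_lit 6) .nil .nil)))) (.nd (nat_lit 4) 
(.lf (nat_lit 209835) (.g (nat_lit 1249) (.e (nat_lit 81948) (nat_lit 21) (.e (nat_lit 57873) (nat_lit 264) (.e (nat_lit 1219) (nat_lit 90) (.e (nat_lit 81942) (nat_lit 20) .nil)))) .nil)) 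
(.lf (nat_lit 209851) (.g (nat_lit 3994) (.e (nat_lit 81948) (nat_lit 21) (.e (nat_lit 57873) (nat_lit 264) (.e (nat_lit 1219) (nat_lit 90) (.e (nat_lit 81957) (nat_lit 24) (.e (nat_lit 123184) (nat_lit 264) (.e (nat_lit 1222) (nat_lit 90) .nil)))))) (.g (nat_lit 0) .nil .nil))))) (.nd (nat_lit 3) (.nd (nat_lit 4) 
(.lf (nat_lit 209831) (.g (nat_lit 1319) (.e (nat_lit 81948) (nat_lit 21) (.e (nat_lit 57873) (nat_lit 264) (.e (nat_lit 1219) (nat_lit 90) (.e (nat_lit 81928) (nat_lit 20) .nil)))) .nil)) 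
(.lf (nat_lit 209847) (.g (nat_lit 1676) (.e (nat_lit 81948) (nat_lit 21) (.e (nat_lit 57873) (nat_lit 264) (.e (nat_lit 1219) (nat_lit 90) (.e (nat_lit 81949) (nat_lit 21) (.e (nat_lit 57873) (nat_lit 264) .nil))))) .nil))) (.nd (nat_lit 4) 
(.lf (nat_lit 209839) (.g (nat_lit 1636) (.e (nat_lit 81948) (nat_lit 21) (.e (nat_lit 57873) (nat_lit 264) (.e (nat_lit 1219) (nat_lit 90) (.e (nat_lit 81946) (nat_lit 20) (.e (nat_lit 2003) (nat_lit 138) (.e (nat_lit 671764) (nat_lit 6) .nil)))))) (.g (nat_lit 4) .nil .nil))) 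
(.lf (nat_lit 209855) (.g (nat_lit 2641) (.e (nat_lit 81948) (nat_lit 21) (.e (nat_lit 57873) (nat_lit 264) (.e (nat_lit 1220) (nat_lit 90) (.e (nat_lit 81950) (nat_lit 21) (.e (nat_lit 57871) (nat_lit 264) (.e (nat_lit 1219) (nat_lit 90) .nil)))))) (.g (nat_lit 4) .nil .nil))))))))

noncomputable def tv2773 : DT := (.nd (nat_lit 0) (.nd (nat_lit 1) (.nd (nat_lit 2) (.nd (nat_lit 3) (.nd (nat_lit 4) (.nd (nat_lit 5) 
(.lf (nat_lit 209856) (.g (nat_lit 3422) (.e (nat_lit 81948) (nat_lit 21) (.e (nat_lit 57873) (nat_lit 264) (.e (nat_lit 1220) (nat_lit 90) (.e (nat_lit 81950) (nat_lit 21) (.e (nat_lit 57873) (nat_lit 264) (.e (nat_lit 1219) (nat_lit 90) .nil)))))) (.g (nat_lit 0) .nil .nil))) 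
(.lf (nat_lit 209888) (.g (nat_lit 1900) (.e (nat_lit 81949) (nat_lit 21) (.e (nat_lit 57681) (nat_lit 155) (.e (nat_lit 122919) (nat_lit 15) (.e (nat_lit 368384) (nat_lit 0) .nil)))) .nil))) (.nd (nat_lit 5) 
(.lf (nat_lit 209872) (.g (nat_lit 1083) (.e (nat_lit 81948) (nat_lit 21) (.e (nat_lit 65280) (nat_lit 267) (.e (nat_lit 122919) (nat_lit 15) (.e (nat_lit 360451) (nat_lit 0) (.e (nat_lit 5898) (nat_lit 320) (.e (nat_lit 7936) (nat_lit 90) .nil)))))) (.g (nat_lit 5) .nil .nil))) 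
(.lf (nat_lit 209904) (.g (nat_lit 2930) (.e (nat_lit 81949) (nat_lit 21) (.e (nat_lit 57870) (nat_lit 264) (.e (nat_lit 1200) (nat_lit 88) (.e (nat_lit 65619) (nat_lit 10) (.e (nat_lit 344168) (nat_lit 40) (.e (nat_lit 671764) (nat_lit 6) .nil)))))) (.g (nat_lit 6) .nil .nil))))) (.nd (nat_lit 4) (.nd (nat_lit 5) 
(.lf (nat_lit 209864) (.g (nat_lit 2873) (.e (nat_lit 81948) (nat_lit 21) (.e (nat_lit 57873) (nat_lit 264) (.e (nat_lit 1221) (nat_lit 90) (.e (nat_lit 81947) (nat_lit 20) (.e (nat_lit 2006) (nat_lit 138) (.e (nat_lit 671764) (nat_lit 6) .nil)))))) (.g (nat_lit 6) .nil .nil))) 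
(.lf (nat_lit 209896) (.g (nat_lit 1540) (.e (nat_lit 81949) (nat_lit 21) (.e (nat_lit 57684) (nat_lit 155) (.e (nat_lit 122919) (nat_lit 15) (.e (nat_lit 360452) (nat_lit 0) (.e (nat_lit 7147) (nat_lit 382) .nil))))) .nil))) (.nd (nat_lit 5) 
(.lf (nat_lit 209880) (.g (nat_lit 1487) (.e (nat_lit 81949) (nat_lit 21) (.e (nat_lit 57681) (nat_lit 155) (.e (nat_lit 122917) (nat_lit 15) (.e (nat_lit 368384) (nat_lit 21) .nil)))) .nil)) 
(.lf (nat_lit 209912) (.g (nat_lit 2725) (.e (nat_lit 81949) (nat_lit 21) (.e (nat_lit 57870) (nat_lit 264) (.e (nat_lit 1221) (nat_lit 90) (.e (nat_lit 81938) (nat_lit 20) (.e (nat_lit 2006) (nat_lit 138) (.e (nat_lit 671764) (nat_lit 6) .nil)))))) (.g (nat_lit 6) .nil .nil)))))) (.nd (nat_lit 3) (.nd (nat_lit 4) (.nd (nat_lit 5) 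
(.lf (nat_lit 209860) (.g (nat_lit 2828) (.e (nat_lit 81948) (nat_lit 21) (.e (nat_lit 57873) (nat_lit 264) (.e (nat_lit 1221) (nat_lit 90) (.e (nat_lit 81938) (nat_lit 20) (.e (nat_lit 2003) (nat_lit 138) (.e (nat_lit 671764) (nat_lit 6) .nil)))))) (.g (nat_lit 0) .nil .nil))) 
(.lf (nat_lit 209892) (.g (nat_lit 926) (.e (nat_lit 81949) (nat_lit 21) (.e (nat_lit 57683) (nat_lit 155) (.e (nat_lit 122917) (nat_lit 15) (.e (nat_lit 368384) (nat_lit 21) .nil)))) .nil))) (.nd (nat_lit 5) 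
(.lf (nat_lit 209876) (.g (nat_lit 1445) (.e (nat_lit 81949) (nat_lit 21) (.e (nat_lit 57681) (nat_lit 155) (.e (nat_lit 122916) (nat_lit 14) (.e (nat_lit 352309) (nat_lit 21) .nil)))) .nil)) 
(.lf (nat_lit 209908) (.g (nat_lit 1836) (.e (nat_lit 81949) (nat_lit 21) (.e (nat_lit 57870) (nat_lit 264) (.e (nat_lit 1219) (nat_lit 90) (.e (nat_lit 81946) (nat_lit 20) (.e (nat_lit 2005) (nat_lit 138) (.e (nat_lit 671764) (nat_lit 6) .nil)))))) (.g (nat_lit 4) .nil .nil))))) (.nd (nat_lit 4) (.nd (nat_lit 5) 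
(.lf (nat_lit 209868) (.g (nat_lit 3483) (.e (nat_lit 81948) (nat_lit 21) (.e (nat_lit 57873) (nat_lit 264) (.e (nat_lit 1221) (nat_lit 90) (.e (nat_lit 81950) (nat_lit 21) (.e (nat_lit 57873) (nat_lit 264) (.e (nat_lit 1219) (nat_lit 90) .nil)))))) (.g (nat_lit 0) .nil .nil))) 
(.lf (nat_lit 209900) (.g (nat_lit 2596) (.e (nat_lit 81949) (nat_lit 21) (.e (nat_lit 57870) (nat_lit 264) (.e (nat_lit 1189) (nat_lit 88) (.e (nat_lit 65619) (nat_lit 10) (.e (nat_lit 344169) (nat_lit 40) (.e (nat_lit 671764) (nat_lit 6) .nil)))))) (.g (nat_lit 6) .nil .nil)))) (.nd (nat_lit 5) 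
(.lf (nat_lit 209884) (.g (nat_lit 2554) (.e (nat_lit 81949) (nat_lit 21) (.e (nat_lit 57681) (nat_lit 155) (.e (nat_lit 122919) (nat_lit 15) (.e (nat_lit 360451) (nat_lit 0) (.e (nat_lit 7119) (nat_lit 382) (.e (nat_lit 7936) (nat_lit 90) .nil)))))) (.g (nat_lit 5) .nil .nil))) 
(.lf (nat_lit 209916) (.g (nat_lit 2320) (.e (nat_lit 81949) (nat_lit 21) (.e (nat_lit 57870) (nat_lit 264) (.e (nat_lit 1221) (nat_lit 90) (.e (nat_lit 81950) (nat_lit 21) (.e (nat_lit 57873) (nat_lit 264) (.e (nat_lit 1219) (nat_lit 90) .nil)))))) (.g (nat_lit 4) .nil .nil))))))) (.nd (nat_lit 2) (.nd (nat_lit 3) (.nd (nat_lit 4) (.nd (nat_lit 5) 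
(.lf (nat_lit 209858) (.g (nat_lit 2542) (.e (nat_lit 81948) (nat_lit 21) (.e (nat_lit 57873) (nat_lit 264) (.e (nat_lit 1220) (nat_lit 90) (.e (nat_lit 81959) (nat_lit 24) (.e (nat_lit 123185) (nat_lit 264) (.e (nat_lit 1222) (nat_lit 90) .nil)))))) (.g (nat_lit 4) .nil .nil))) 
(.lf (nat_lit 209890) (.g (nat_lit 2160) (.e (nat_lit 81949) (nat_lit 21) (.e (nat_lit 57683) (nat_lit 155) (.e (nat_lit 122916) (nat_lit 14) (.e (nat_lit 352309) (nat_lit 21) (.e (nat_lit 57653) (nat_lit 152) .nil))))) .nil))) (.nd (nat_lit 5) 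
(.lf (nat_lit 209874) (.g (nat_lit 2008) (.e (nat_lit 81949) (nat_lit 21) (.e (nat_lit 57655) (nat_lit 152) (.e (nat_lit 1217) (nat_lit 90) (.e (nat_lit 81950) (nat_lit 21) (.e (nat_lit 57655) (nat_lit 152) (.e (nat_lit 1217) (nat_lit 90) .nil)))))) (.g (nat_lit 4) .nil .nil))) 
(.lf (nat_lit 209906) (.g (nat_lit 257) (.e (nat_lit 81949) (nat_lit 21) (.e (nat_lit 57870) (nat_lit 264) (.e (nat_lit 1219) (nat_lit 90) .nil))) .nil)))) (.nd (nat_lit 4) (.nd (nat_lit 5) 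
(.lf (nat_lit 209866) (.g (nat_lit 2990) (.e (nat_lit 81948) (nat_lit 21) (.e (nat_lit 57873) (nat_lit 264) (.e (nat_lit 1221) (nat_lit 90) (.e (nat_lit 81948) (nat_lit 21) (.e (nat_lit 57873) (nat_lit 264) (.e (nat_lit 1221) (nat_lit 90) .nil)))))) (.g (nat_lit 5) .nil .nil))) 
(.lf (nat_lit 209898) (.g (nat_lit 1494) (.e (nat_lit 81949) (nat_lit 21) (.e (nat_lit 57847) (nat_lit 252) (.e (nat_lit 57365) (nat_lit 1) (.e (nat_lit 57854) (nat_lit 252) .nil)))) .nil))) (.nd (nat_lit 5) 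
(.lf (nat_lit 209882) (.g (nat_lit 2384) (.e (nat_lit 81949) (nat_lit 21) (.e (nat_lit 57681) (nat_lit 155) (.e (nat_lit 122919) (nat_lit 15) (.e (nat_lit 360450) (nat_lit 0) (.e (nat_lit 7125) (nat_lit 382) .nil))))) .nil)) 
(.lf (nat_lit 209914) (.g (nat_lit 1770) (.e (nat_lit 81949) (nat_lit 21) (.e (nat_lit 57870) (nat_lit 264) (.e (nat_lit 1221) (nat_lit 90) (.e (nat_lit 81947) (nat_lit 20) (.e (nat_lit 2005) (nat_lit 138) .nil))))) .nil))))) (.nd (nat_lit 3) (.nd (nat_lit 4) (.nd (nat_lit 5) 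
(.lf (nat_lit 209862) (.g (nat_lit 2981) (.e (nat_lit 81948) (nat_lit 21) (.e (nat_lit 57873) (nat_lit 264) (.e (nat_lit 1221) (nat_lit 90) (.e (nat_lit 81938) (nat_lit 20) (.e (nat_lit 2006) (nat_lit 138) (.e (nat_lit 671764) (nat_lit 6) .nil)))))) (.g (nat_lit 0) .nil .nil))) 
(.lf (nat_lit 209894) (.g (nat_lit 2652) (.e (nat_lit 81949) (nat_lit 21) (.e (nat_lit 57684) (nat_lit 155) (.e (nat_lit 122916) (nat_lit 14) (.e (nat_lit 352309) (nat_lit 21) (.e (nat_lit 57653) (nat_lit 152) (.e (nat_lit 1217) (nat_lit 90) .nil)))))) (.g (nat_lit 4) .nil .nil)))) (.nd (nat_lit 5) 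
(.lf (nat_lit 209878) (.g (nat_lit 1865) (.e (nat_lit 81949) (nat_lit 21) (.e (nat_lit 57681) (nat_lit 155) (.e (nat_lit 122917) (nat_lit 15) (.e (nat_lit 360449) (nat_lit 0) (.e (nat_lit 7125) (nat_lit 382) .nil))))) .nil)) 
(.lf (nat_lit 209910) (.g (nat_lit 2534) (.e (nat_lit 81949) (nat_lit 21) (.e (nat_lit 57870) (nat_lit 264) (.e (nat_lit 1220) (nat_lit 90) (.e (nat_lit 81938) (nat_lit 20) (.e (nat_lit 2006) (nat_lit 138) (.e (nat_lit 671764) (nat_lit 6) .nil)))))) (.g (nat_lit 6) .nil .nil))))) (.nd (nat_lit 4) (.nd (nat_lit 5) 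
(.lf (nat_lit 209870) (.g (nat_lit 3556) (.e (nat_lit 81948) (nat_lit 21) (.e (nat_lit 57873) (nat_lit 264) (.e (nat_lit 1221) (nat_lit 90) (.e (nat_lit 81959) (nat_lit 24) (.e (nat_lit 123185) (nat_lit 264) (.e (nat_lit 1222) (nat_lit 90) .nil)))))) (.g (nat_lit 0) .nil .nil))) 
(.lf (nat_lit 209902) (.g (nat_lit 2960) (.e (nat_lit 81949) (nat_lit 21) (.e (nat_lit 57870) (nat_lit 264) (.e (nat_lit 1190) (nat_lit 88) (.e (nat_lit 65619) (nat_lit 10) (.e (nat_lit 344169) (nat_lit 40) (.e (nat_lit 671764) (nat_lit 6) .nil)))))) (.g (nat_lit 6) .nil .nil)))) (.nd (nat_lit 5) 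
(.lf (nat_lit 209886) (.g (nat_lit 2679) (.e (nat_lit 81949) (nat_lit 21) (.e (nat_lit 57681) (nat_lit 155) (.e (nat_lit 122919) (nat_lit 15) (.e (nat_lit 360453) (nat_lit 0) (.e (nat_lit 7147) (nat_lit 382) .nil))))) .nil)) 
(.lf (nat_lit 209918) (.g (nat_lit 1792) (.e (nat_lit 81949) (nat_lit 21) (.e (nat_lit 57871) (nat_lit 264) (.e (nat_lit 1220) (nat_lit 90) (.e (nat_lit 81938) (nat_lit 20) (.e (nat_lit 2005) (nat_lit 138) (.e (nat_lit 671764) (nat_lit 6) .nil)))))) (.g (nat_lit 4) .nil .nil)))))))) (.nd (nat_lit 1) (.nd (nat_lit 2) (.nd (nat_lit 3) (.nd (nat_lit 4) (.nd (nat_lit 5) 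
(.lf (nat_lit 209857) (.g (nat_lit 1055) (.e (nat_lit 81948) (nat_lit 21) (.e (nat_lit 57873) (nat_lit 264) (.e (nat_lit 1220) (nat_lit 90) (.e (nat_lit 81958) (nat_lit 24) .nil)))) .nil)) 
(.lf (nat_lit 209889) (.g (nat_lit 1900) (.e (nat_lit 81949) (nat_lit 21) (.e (nat_lit 57681) (nat_lit 155) (.e (nat_lit 122919) (nat_lit 15) (.e (nat_lit 368384) (nat_lit 21) .nil)))) .nil))) (.nd (nat_lit 5) 
(.lf (nat_lit 209873) (.g (nat_lit 1776) (.e (nat_lit 81949) (nat_lit 21) (.e (nat_lit 57655) (nat_lit 152) (.e (nat_lit 1216) (nat_lit 90) (.e (nat_lit 81948) (nat_lit 21) (.e (nat_lit 57654) (nat_lit 152) (.e (nat_lit 1217) (nat_lit 90) .nil)))))) (.g (nat_lit 4) .nil .nil))) 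
(.lf (nat_lit 209905) (.g (nat_lit 2801) (.e (nat_lit 81949) (nat_lit 21) (.e (nat_lit 57870) (nat_lit 264) (.e (nat_lit 1200) (nat_lit 88) (.e (nat_lit 65619) (nat_lit 10) (.e (nat_lit 344169) (nat_lit 40) (.e (nat_lit 671764) (nat_lit 6) .nil)))))) (.g (nat_lit 6) .nil .nil))))) (.nd (nat_lit 4) (.nd (nat_lit 5) 
(.lf (nat_lit 209865) (.g (nat_lit 2665) (.e (nat_lit 81948) (nat_lit 21) (.e (nat_lit 57873) (nat_lit 264) (.e (nat_lit 1221) (nat_lit 90) (.e (nat_lit 81948) (nat_lit 21) (.e (nat_lit 57870) (nat_lit 264) (.e (nat_lit 1219) (nat_lit 90) .nil)))))) (.g (nat_lit 6) .nil .nil))) 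
(.lf (nat_lit 209897) (.g (nat_lit 2312) (.e (nat_lit 81949) (nat_lit 21) (.e (nat_lit 57684) (nat_lit 155) (.e (nat_lit 122919) (nat_lit 15) (.e (nat_lit 360489) (nat_lit 21) (.e (nat_lit 770074) (nat_lit 10) .nil))))) (.g (nat_lit 5) .nil .nil)))) (.nd (nat_lit 5) 
(.lf (nat_lit 209881) (.g (nat_lit 338) (.e (nat_lit 81949) (nat_lit 21) (.e (nat_lit 57681) (nat_lit 155) (.e (nat_lit 122919) (nat_lit 15) .nil))) .nil)) 
(.lf (nat_lit 209913) (.g (nat_lit 1905) (.e (nat_lit 81949) (nat_lit 21) (.e (nat_lit 57870) (nat_lit 264) (.e (nat_lit 1221) (nat_lit 90) (.e (nat_lit 81947) (nat_lit 20) (.e (nat_lit 2003) (nat_lit 138) .nil))))) .nil))))) (.nd (nat_lit 3) (.nd (nat_lit 4) (.nd (nat_lit 5) 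
(.lf (nat_lit 209861) (.g (nat_lit 2749) (.e (nat_lit 81948) (nat_lit 21) (.e (nat_lit 57873) (nat_lit 264) (.e (nat_lit 1221) (nat_lit 90) (.e (nat_lit 81938) (nat_lit 20) (.e (nat_lit 2005) (nat_lit 138) (.e (nat_lit 671764) (nat_lit 6) .nil)))))) (.g (nat_lit 0) .nil .nil))) 
(.lf (nat_lit 209893) (.g (nat_lit 2286) (.e (nat_lit 81949) (nat_lit 21) (.e (nat_lit 57684) (nat_lit 155) (.e (nat_lit 122916) (nat_lit 14) (.e (nat_lit 352309) (nat_lit 21) (.e (nat_lit 57652) (nat_lit 152) .nil))))) .nil))) (.nd (nat_lit 5) 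
(.lf (nat_lit 209877) (.g (nat_lit 649) (.e (nat_lit 81949) (nat_lit 21) (.e (nat_lit 57681) (nat_lit 155) (.e (nat_lit 122917) (nat_lit 15) .nil))) .nil)) 
(.lf (nat_lit 209909) (.g (nat_lit 1387) (.e (nat_lit 81949) (nat_lit 21) (.e (nat_lit 57870) (nat_lit 264) (.e (nat_lit 1219) (nat_lit 90) (.e (nat_lit 81947) (nat_lit 20) (.e (nat_lit 2003) (nat_lit 138) .nil))))) .nil)))) (.nd (nat_lit 4) (.nd (nat_lit 5) 
(.lf (nat_lit 209869) (.g (nat_lit 3419) (.e (nat_lit 81948) (nat_lit 21) (.e (nat_lit 57873) (nat_lit 264) (.e (nat_lit 1221) (nat_lit 90) (.e (nat_lit 81950) (nat_lit 21) (.e (nat_lit 57873) (nat_lit 264) (.e (nat_lit 1221) (nat_lit 90) .nil)))))) (.g (nat_lit 6) .nil .nil))) 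
(.lf (nat_lit 209901) (.g (nat_lit 3108) (.e (nat_lit 81949) (nat_lit 21) (.e (nat_lit 57870) (nat_lit 264) (.e (nat_lit 1190) (nat_lit 88) (.e (nat_lit 65619) (nat_lit 10) (.e (nat_lit 344168) (nat_lit 40) (.e (nat_lit 671764) (nat_lit 6) .nil)))))) (.g (nat_lit 6) .nil .nil)))) (.nd (nat_lit 5) 
(.lf (nat_lit 209885) (.g (nat_lit 2369) (.e (nat_lit 81949) (nat_lit 21) (.e (nat_lit 57681) (nat_lit 155) (.e (nat_lit 122919) (nat_lit 15) (.e (nat_lit 360452) (nat_lit 0) .nil)))) .nil)) 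
(.lf (nat_lit 209917) (.g (nat_lit 1826) (.e (nat_lit 81949) (nat_lit 21) (.e (nat_lit 57871) (nat_lit 264) (.e (nat_lit 1220) (nat_lit 90) (.e (nat_lit 81938) (nat_lit 20) (.e (nat_lit 2003) (nat_lit 138) (.e (nat_lit 671764) (nat_lit 6) .nil)))))) (.g (nat_lit 4) .nil .nil))))))) (.nd (nat_lit 2) (.nd (nat_lit 3) (.nd (nat_lit 4) (.nd (nat_lit 5) 
(.lf (nat_lit 209859) (.g (nat_lit 409) (.e (nat_lit 81948) (nat_lit 21) (.e (nat_lit 57873) (nat_lit 264) (.e (nat_lit 1221) (nat_lit 90) .nil))) .nil)) 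
(.lf (nat_lit 209891) (.g (nat_lit 2344) (.e (nat_lit 81949) (nat_lit 21) (.e (nat_lit 57683) (nat_lit 155) (.e (nat_lit 122916) (nat_lit 14) (.e (nat_lit 352309) (nat_lit 21) (.e (nat_lit 57654) (nat_lit 152) (.e (nat_lit 1217) (nat_lit 90) .nil)))))) (.g (nat_lit 4) .nil .nil)))) (.nd (nat_lit 5) 
(.lf (nat_lit 209875) (.g (nat_lit 904) (.e (nat_lit 81949) (nat_lit 21) (.e (nat_lit 57680) (nat_lit 155) (.e (nat_lit 122919) (nat_lit 15) (.e (nat_lit 360489) (nat_lit 21) .nil)))) .nil)) 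
(.lf (nat_lit 209907) (.g (nat_lit 693) (.e (nat_lit 81949) (nat_lit 21) (.e (nat_lit 57870) (nat_lit 264) (.e (nat_lit 1219) (nat_lit 90) (.e (nat_lit 81935) (nat_lit 20) .nil)))) .nil)))) (.nd (nat_lit 4) (.nd (nat_lit 5) 
(.lf (nat_lit 209867) (.g (nat_lit 3395) (.e (nat_lit 81948) (nat_lit 21) (.e (nat_lit 57873) (nat_lit 264) (.e (nat_lit 1221) (nat_lit 90) (.e (nat_lit 81950) (nat_lit 21) (.e (nat_lit 57872) (nat_lit 264) (.e (nat_lit 1221) (nat_lit 90) .nil)))))) (.g (nat_lit 6) .nil .nil))) 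
(.lf (nat_lit 209899) (.g (nat_lit 2732) (.e (nat_lit 81949) (nat_lit 21) (.e (nat_lit 57870) (nat_lit 264) (.e (nat_lit 1189) (nat_lit 88) (.e (nat_lit 65619) (nat_lit 10) (.e (nat_lit 344168) (nat_lit 40) (.e (nat_lit 671764) (nat_lit 6) .nil)))))) (.g (nat_lit 6) .nil .nil)))) (.nd (nat_lit 5) 
(.lf (nat_lit 209883) (.g (nat_lit 2157) (.e (nat_lit 81949) (nat_lit 21) (.e (nat_lit 57681) (nat_lit 155) (.e (nat_lit 122919) (nat_lit 15) (.e (nat_lit 360451) (nat_lit 0) (.e (nat_lit 7119) (nat_lit 382) (.e (nat_lit 1217) (nat_lit 90) .nil)))))) (.g (nat_lit 4) .nil .nil))) 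
(.lf (nat_lit 209915) (.g (nat_lit 951) (.e (nat_lit 81949) (nat_lit 21) (.e (nat_lit 57870) (nat_lit 264) (.e (nat_lit 1221) (nat_lit 90) (.e (nat_lit 81950) (nat_lit 21) .nil)))) .nil))))) (.nd (nat_lit 3) (.nd (nat_lit 4) (.nd (nat_lit 5) 
(.lf (nat_lit 209863) (.g (nat_lit 2781) (.e (nat_lit 81948) (nat_lit 21) (.e (nat_lit 57873) (nat_lit 264) (.e (nat_lit 1221) (nat_lit 90) (.e (nat_lit 81947) (nat_lit 20) (.e (nat_lit 2005) (nat_lit 138) (.e (nat_lit 671764) (nat_lit 6) .nil)))))) (.g (nat_lit 0) .nil .nil))) 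
(.lf (nat_lit 209895) (.g (nat_lit 1628) (.e (nat_lit 81949) (nat_lit 21) (.e (nat_lit 57684) (nat_lit 155) (.e (nat_lit 122917) (nat_lit 15) (.e (nat_lit 360453) (nat_lit 0) (.e (nat_lit 7147) (nat_lit 382) (.e (nat_lit 1217) (nat_lit 90) .nil)))))) (.g (nat_lit 4) .nil .nil)))) (.nd (nat_lit 5) 
(.lf (nat_lit 209879) (.g (nat_lit 2054) (.e (nat_lit 81949) (nat_lit 21) (.e (nat_lit 57681) (nat_lit 155) (.e (nat_lit 122917) (nat_lit 15) (.e (nat_lit 360452) (nat_lit 0) (.e (nat_lit 7147) (nat_lit 382) .nil))))) .nil)) 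
(.lf (nat_lit 209911) (.g (nat_lit 2564) (.e (nat_lit 81949) (nat_lit 21) (.e (nat_lit 57870) (nat_lit 264) (.e (nat_lit 1220) (nat_lit 90) (.e (nat_lit 81950) (nat_lit 21) (.e (nat_lit 57873) (nat_lit 264) (.e (nat_lit 1219) (nat_lit 90) .nil)))))) (.g (nat_lit 4) .nil .nil))))) (.nd (nat_lit 4) (.nd (nat_lit 5) 
(.lf (nat_lit 209871) (.g (nat_lit 513) (.e (nat_lit 81948) (nat_lit 21) (.e (nat_lit 57873) (nat_lit 264) (.e (nat_lit 7936) (nat_lit 90) .nil))) .nil)) 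
(.lf (nat_lit 209903) (.g (nat_lit 2834) (.e (nat_lit 81949) (nat_lit 21) (.e (nat_lit 57870) (nat_lit 264) (.e (nat_lit 1199) (nat_lit 88) (.e (nat_lit 65610) (nat_lit 10) (.e (nat_lit 344168) (nat_lit 40) (.e (nat_lit 671764) (nat_lit 6) .nil)))))) (.g (nat_lit 6) .nil .nil)))) (.nd (nat_lit 5) 
(.lf (nat_lit 209887) (.g (nat_lit 2514) (.e (nat_lit 81949) (nat_lit 21) (.e (nat_lit 57681) (nat_lit 155) (.e (nat_lit 122919) (nat_lit 15) (.e (nat_lit 360454) (nat_lit 0) (.e (nat_lit 7147) (nat_lit 382) .nil))))) .nil)) 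
(.lf (nat_lit 209919) (.g (nat_lit 1783) (.e (nat_lit 81949) (nat_lit 21) (.e (nat_lit 57871) (nat_lit 264) (.e (nat_lit 1220) (nat_lit 90) (.e (nat_lit 81950) (nat_lit 21) (.e (nat_lit 57873) (nat_lit 264) .nil))))) .nil))))))))

noncomputable def tv2774 : DT := (.nd (nat_lit 0) (.nd (nat_lit 1) (.nd (nat_lit 2) (.nd (nat_lit 3) (.nd (nat_lit 4) (.nd (nat_lit 5) 
(.lf (nat_lit 209920) (.g (nat_lit 2389) (.e (nat_lit 81949) (nat_lit 21) (.e (nat_lit 57872) (nat_lit 264) (.e (nat_lit 1190) (nat_lit 88) (.e (nat_lit 65619) (nat_lit 10) (.e (nat_lit 344168) (nat_lit 40) (.e (nat_lit 671764) (nat_lit 6) .nil)))))) (.g (nat_lit 5) .nil .nil))) 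
(.lf (nat_lit 209952) (.g (nat_lit 1703) (.e (nat_lit 81950) (nat_lit 21) (.e (nat_lit 57654) (nat_lit 152) (.e (nat_lit 1216) (nat_lit 90) (.e (nat_lit 81950) (nat_lit 21) (.e (nat_lit 57655) (nat_lit 152) (.e (nat_lit 1216) (nat_lit 90) .nil)))))) (.g (nat_lit 4) .nil .nil)))) (.nd (nat_lit 5) 
(.lf (nat_lit 209936) (.g (nat_lit 1812) (.e (nat_lit 81949) (nat_lit 21) (.e (nat_lit 57873) (nat_lit 264) (.e (nat_lit 1190) (nat_lit 88) (.e (nat_lit 65624) (nat_lit 12) (.e (nat_lit 385092) (nat_lit 49) .nil))))) .nil)) 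
(.lf (nat_lit 209968) (.g (nat_lit 2063) (.e (nat_lit 81950) (nat_lit 21) (.e (nat_lit 57680) (nat_lit 155) (.e (nat_lit 122919) (nat_lit 15) (.e (nat_lit 360451) (nat_lit 0) (.e (nat_lit 7132) (nat_lit 382) (.e (nat_lit 7936) (nat_lit 90) .nil)))))) (.g (nat_lit 4) .nil .nil))))) (.nd (nat_lit 4) (.nd (nat_lit 5) 
(.lf (nat_lit 209928) (.g (nat_lit 1460) (.e (nat_lit 81949) (nat_lit 21) (.e (nat_lit 57872) (nat_lit 264) (.e (nat_lit 1221) (nat_lit 90) (.e (nat_lit 81939) (nat_lit 20) .nil)))) .nil)) 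
(.lf (nat_lit 209960) (.g (nat_lit 1782) (.e (nat_lit 81950) (nat_lit 21) (.e (nat_lit 57655) (nat_lit 152) (.e (nat_lit 1217) (nat_lit 90) (.e (nat_lit 81959) (nat_lit 24) (.e (nat_lit 130816) (nat_lit 152) (.e (nat_lit 1220) (nat_lit 90) .nil)))))) (.g (nat_lit 4) .nil .nil)))) (.nd (nat_lit 5) 
(.lf (nat_lit 209944) (.g (nat_lit 1792) (.e (nat_lit 81949) (nat_lit 21) (.e (nat_lit 57873) (nat_lit 264) (.e (nat_lit 1219) (nat_lit 90) (.e (nat_lit 81947) (nat_lit 20) (.e (nat_lit 2003) (nat_lit 138) .nil))))) .nil)) 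
(.lf (nat_lit 209976) (.g (nat_lit 2978) (.e (nat_lit 81950) (nat_lit 21) (.e (nat_lit 57681) (nat_lit 155) (.e (nat_lit 122917) (nat_lit 15) (.e (nat_lit 360449) (nat_lit 0) (.e (nat_lit 7125) (nat_lit 382) (.e (nat_lit 1223) (nat_lit 90) .nil)))))) (.g (nat_lit 4) .nil .nil)))))) (.nd (nat_lit 3) (.nd (nat_lit 4) (.nd (nat_lit 5) 
(.lf (nat_lit 209924) (.g (nat_lit 1496) (.e (nat_lit 81949) (nat_lit 21) (.e (nat_lit 57872) (nat_lit 264) (.e (nat_lit 1219) (nat_lit 90) (.e (nat_lit 81947) (nat_lit 20) (.e (nat_lit 2003) (nat_lit 138) .nil))))) .nil)) 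
(.lf (nat_lit 209956) (.g (nat_lit 2524) (.e (nat_lit 81950) (nat_lit 21) (.e (nat_lit 57655) (nat_lit 152) (.e (nat_lit 1216) (nat_lit 90) (.e (nat_lit 81950) (nat_lit 21) (.e (nat_lit 57655) (nat_lit 152) (.e (nat_lit 1216) (nat_lit 90) .nil)))))) (.g (nat_lit 0) .nil .nil)))) (.nd (nat_lit 5) 
(.lf (nat_lit 209940) (.g (nat_lit 2692) (.e (nat_lit 81949) (nat_lit 21) (.e (nat_lit 57873) (nat_lit 264) (.e (nat_lit 1200) (nat_lit 88) (.e (nat_lit 65619) (nat_lit 10) (.e (nat_lit 344169) (nat_lit 40) (.e (nat_lit 671764) (nat_lit 6) .nil)))))) (.g (nat_lit 5) .nil .nil))) 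
(.lf (nat_lit 209972) (.g (nat_lit 3140) (.e (nat_lit 81950) (nat_lit 21) (.e (nat_lit 57681) (nat_lit 155) (.e (nat_lit 122916) (nat_lit 14) (.e (nat_lit 352309) (nat_lit 21) (.e (nat_lit 57655) (nat_lit 152) (.e (nat_lit 1216) (nat_lit 90) .nil)))))) (.g (nat_lit 4) .nil .nil))))) (.nd (nat_lit 4) (.nd (nat_lit 5) 
(.lf (nat_lit 209932) (.g (nat_lit 911) (.e (nat_lit 81949) (nat_lit 21) (.e (nat_lit 57872) (nat_lit 264) (.e (nat_lit 1221) (nat_lit 90) (.e (nat_lit 81959) (nat_lit 24) .nil)))) .nil)) 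
(.lf (nat_lit 209964) (.g (nat_lit 2364) (.e (nat_lit 81950) (nat_lit 21) (.e (nat_lit 57680) (nat_lit 155) (.e (nat_lit 122919) (nat_lit 15) (.e (nat_lit 360451) (nat_lit 0) (.e (nat_lit 7119) (nat_lit 382) (.e (nat_lit 7936) (nat_lit 90) .nil)))))) (.g (nat_lit 4) .nil .nil)))) (.nd (nat_lit 5) 
(.lf (nat_lit 209948) (.g (nat_lit 2541) (.e (nat_lit 81949) (nat_lit 21) (.e (nat_lit 57873) (nat_lit 264) (.e (nat_lit 1221) (nat_lit 90) (.e (nat_lit 81938) (nat_lit 20) (.e (nat_lit 2003) (nat_lit 138) (.e (nat_lit 671764) (nat_lit 6) .nil)))))) (.g (nat_lit 4) .nil .nil))) 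
(.lf (nat_lit 209980) (.g (nat_lit 1983) (.e (nat_lit 81950) (nat_lit 21) (.e (nat_lit 57681) (nat_lit 155) (.e (nat_lit 122919) (nat_lit 15) (.e (nat_lit 360449) (nat_lit 0) .nil)))) .nil)))))) (.nd (nat_lit 2) (.nd (nat_lit 3) (.nd (nat_lit 4) (.nd (nat_lit 5) 
(.lf (nat_lit 209922) (.g (nat_lit 1234) (.e (nat_lit 81949) (nat_lit 21) (.e (nat_lit 57872) (nat_lit 264) (.e (nat_lit 1190) (nat_lit 88) (.e (nat_lit 65623) (nat_lit 12) (.e (nat_lit 385094) (nat_lit 49) .nil))))) .nil)) 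
(.lf (nat_lit 209954) (.g (nat_lit 2069) (.e (nat_lit 81950) (nat_lit 21) (.e (nat_lit 57654) (nat_lit 152) (.e (nat_lit 1217) (nat_lit 90) (.e (nat_lit 81950) (nat_lit 21) (.e (nat_lit 57655) (nat_lit 152) (.e (nat_lit 1216) (nat_lit 90) .nil)))))) (.g (nat_lit 4) .nil .nil)))) (.nd (nat_lit 5) 
(.lf (nat_lit 209938) (.g (nat_lit 2140) (.e (nat_lit 81949) (nat_lit 21) (.e (nat_lit 57873) (nat_lit 264) (.e (nat_lit 1199) (nat_lit 88) (.e (nat_lit 65617) (nat_lit 10) (.e (nat_lit 344168) (nat_lit 40) (.e (nat_lit 671764) (nat_lit 6) .nil)))))) (.g (nat_lit 4) .nil .nil))) 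
(.lf (nat_lit 209970) (.g (nat_lit 472) (.e (nat_lit 81950) (nat_lit 21) (.e (nat_lit 57681) (nat_lit 155) (.e (nat_lit 122916) (nat_lit 14) .nil))) .nil)))) (.nd (nat_lit 4) (.nd (nat_lit 5) 
(.lf (nat_lit 209930) (.g (nat_lit 1949) (.e (nat_lit 81949) (nat_lit 21) (.e (nat_lit 57872) (nat_lit 264) (.e (nat_lit 1221) (nat_lit 90) (.e (nat_lit 81947) (nat_lit 20) (.e (nat_lit 2005) (nat_lit 138) .nil))))) .nil)) 
(.lf (nat_lit 209962) (.g (nat_lit 931) (.e (nat_lit 81950) (nat_lit 21) (.e (nat_lit 57680) (nat_lit 155) (.e (nat_lit 122917) (nat_lit 15) (.e (nat_lit 360489) (nat_lit 21) .nil)))) .nil))) (.nd (nat_lit 5) 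
(.lf (nat_lit 209946) (.g (nat_lit 479) (.e (nat_lit 81949) (nat_lit 21) (.e (nat_lit 57873) (nat_lit 264) (.e (nat_lit 1221) (nat_lit 90) .nil))) .nil)) 
(.lf (nat_lit 209978) (.g (nat_lit 1942) (.e (nat_lit 81950) (nat_lit 21) (.e (nat_lit 57681) (nat_lit 155) (.e (nat_lit 122919) (nat_lit 15) (.e (nat_lit 360448) (nat_lit 0) .nil)))) .nil))))) (.nd (nat_lit 3) (.nd (nat_lit 4) (.nd (nat_lit 5) 
(.lf (nat_lit 209926) (.g (nat_lit 2063) (.e (nat_lit 81949) (nat_lit 21) (.e (nat_lit 57872) (nat_lit 264) (.e (nat_lit 1221) (nat_lit 90) (.e (nat_lit 81938) (nat_lit 20) (.e (nat_lit 2005) (nat_lit 138) (.e (nat_lit 671764) (nat_lit 6) .nil)))))) (.g (nat_lit 4) .nil .nil))) 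
(.lf (nat_lit 209958) (.g (nat_lit 2282) (.e (nat_lit 81950) (nat_lit 21) (.e (nat_lit 57655) (nat_lit 152) (.e (nat_lit 1217) (nat_lit 90) (.e (nat_lit 81950) (nat_lit 21) (.e (nat_lit 57655) (nat_lit 152) (.e (nat_lit 1216) (nat_lit 90) .nil)))))) (.g (nat_lit 5) .nil .nil)))) (.nd (nat_lit 5) 
(.lf (nat_lit 209942) (.g (nat_lit 1639) (.e (nat_lit 81949) (nat_lit 21) (.e (nat_lit 57873) (nat_lit 264) (.e (nat_lit 1219) (nat_lit 90) (.e (nat_lit 81946) (nat_lit 20) (.e (nat_lit 2003) (nat_lit 138) .nil))))) .nil)) 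
(.lf (nat_lit 209974) (.g (nat_lit 418) (.e (nat_lit 81950) (nat_lit 21) (.e (nat_lit 57681) (nat_lit 155) (.e (nat_lit 122917) (nat_lit 15) .nil))) .nil)))) (.nd (nat_lit 4) (.nd (nat_lit 5) 
(.lf (nat_lit 209934) (.g (nat_lit 554) (.e (nat_lit 81949) (nat_lit 21) (.e (nat_lit 57873) (nat_lit 264) (.e (nat_lit 1190) (nat_lit 88) .nil))) .nil)) 
(.lf (nat_lit 209966) (.g (nat_lit 2409) (.e (nat_lit 81950) (nat_lit 21) (.e (nat_lit 57680) (nat_lit 155) (.e (nat_lit 122919) (nat_lit 15) (.e (nat_lit 360451) (nat_lit 0) (.e (nat_lit 7124) (nat_lit 382) (.e (nat_lit 7936) (nat_lit 90) .nil)))))) (.g (nat_lit 5) .nil .nil)))) (.nd (nat_lit 5) 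
(.lf (nat_lit 209950) (.g (nat_lit 1208) (.e (nat_lit 81949) (nat_lit 21) (.e (nat_lit 57873) (nat_lit 264) (.e (nat_lit 1221) (nat_lit 90) (.e (nat_lit 81950) (nat_lit 21) .nil)))) .nil)) 
(.lf (nat_lit 209982) (.g (nat_lit 2419) (.e (nat_lit 81950) (nat_lit 21) (.e (nat_lit 57681) (nat_lit 155) (.e (nat_lit 122919) (nat_lit 15) (.e (nat_lit 360450) (nat_lit 0) (.e (nat_lit 7125) (nat_lit 382) (.e (nat_lit 1222) (nat_lit 90) .nil)))))) (.g (nat_lit 4) .nil .nil)))))))) (.nd (nat_lit 1) (.nd (nat_lit 2) (.nd (nat_lit 3) (.nd (nat_lit 4) (.nd (nat_lit 5) 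
(.lf (nat_lit 209921) (.g (nat_lit 2240) (.e (nat_lit 81949) (nat_lit 21) (.e (nat_lit 57872) (nat_lit 264) (.e (nat_lit 1190) (nat_lit 88) (.e (nat_lit 65619) (nat_lit 10) (.e (nat_lit 344169) (nat_lit 40) (.e (nat_lit 671764) (nat_lit 6) .nil)))))) (.g (nat_lit 5) .nil .nil))) 
(.lf (nat_lit 209953) (.g (nat_lit 2120) (.e (nat_lit 81950) (nat_lit 21) (.e (nat_lit 57654) (nat_lit 152) (.e (nat_lit 1217) (nat_lit 90) (.e (nat_lit 81949) (nat_lit 21) (.e (nat_lit 57655) (nat_lit 152) (.e (nat_lit 1216) (nat_lit 90) .nil)))))) (.g (nat_lit 5) .nil .nil)))) (.nd (nat_lit 5) 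
(.lf (nat_lit 209937) (.g (nat_lit 2513) (.e (nat_lit 81949) (nat_lit 21) (.e (nat_lit 57873) (nat_lit 264) (.e (nat_lit 1199) (nat_lit 88) (.e (nat_lit 65610) (nat_lit 10) (.e (nat_lit 344169) (nat_lit 40) (.e (nat_lit 671764) (nat_lit 6) .nil)))))) (.g (nat_lit 5) .nil .nil))) 
(.lf (nat_lit 209969) (.g (nat_lit 495) (.e (nat_lit 81950) (nat_lit 21) (.e (nat_lit 57681) (nat_lit 155) (.e (nat_lit 122913) (nat_lit 13) .nil))) .nil)))) (.nd (nat_lit 4) (.nd (nat_lit 5) 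
(.lf (nat_lit 209929) (.g (nat_lit 2084) (.e (nat_lit 81949) (nat_lit 21) (.e (nat_lit 57872) (nat_lit 264) (.e (nat_lit 1221) (nat_lit 90) (.e (nat_lit 81947) (nat_lit 20) (.e (nat_lit 2003) (nat_lit 138) .nil))))) .nil)) 
(.lf (nat_lit 209961) (.g (nat_lit 382) (.e (nat_lit 81950) (nat_lit 21) (.e (nat_lit 57666) (nat_lit 152) (.e (nat_lit 1077) (nat_lit 81) .nil))) .nil))) (.nd (nat_lit 5) 
(.lf (nat_lit 209945) (.g (nat_lit 2240) (.e (nat_lit 81949) (nat_lit 21) (.e (nat_lit 57873) (nat_lit 264) (.e (nat_lit 1219) (nat_lit 90) (.e (nat_lit 81947) (nat_lit 20) (.e (nat_lit 2005) (nat_lit 138) (.e (nat_lit 671764) (nat_lit 6) .nil)))))) (.g (nat_lit 4) .nil .nil))) 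
(.lf (nat_lit 209977) (.g (nat_lit 1310) (.e (nat_lit 81950) (nat_lit 21) (.e (nat_lit 57681) (nat_lit 155) (.e (nat_lit 122917) (nat_lit 15) (.e (nat_lit 360488) (nat_lit 20) .nil)))) .nil))))) (.nd (nat_lit 3) (.nd (nat_lit 4) (.nd (nat_lit 5) 
(.lf (nat_lit 209925) (.g (nat_lit 2097) (.e (nat_lit 81949) (nat_lit 21) (.e (nat_lit 57872) (nat_lit 264) (.e (nat_lit 1221) (nat_lit 90) (.e (nat_lit 81938) (nat_lit 20) (.e (nat_lit 2003) (nat_lit 138) (.e (nat_lit 671764) (nat_lit 6) .nil)))))) (.g (nat_lit 4) .nil .nil))) 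
(.lf (nat_lit 209957) (.g (nat_lit 1786) (.e (nat_lit 81950) (nat_lit 21) (.e (nat_lit 57655) (nat_lit 152) (.e (nat_lit 1216) (nat_lit 90) (.e (nat_lit 81959) (nat_lit 24) (.e (nat_lit 130816) (nat_lit 152) (.e (nat_lit 1220) (nat_lit 90) .nil)))))) (.g (nat_lit 4) .nil .nil)))) (.nd (nat_lit 5) 
(.lf (nat_lit 209941) (.g (nat_lit 1091) (.e (nat_lit 81949) (nat_lit 21) (.e (nat_lit 57873) (nat_lit 264) (.e (nat_lit 1219) (nat_lit 90) (.e (nat_lit 81935) (nat_lit 20) .nil)))) .nil)) 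
(.lf (nat_lit 209973) (.g (nat_lit 2166) (.e (nat_lit 81950) (nat_lit 21) (.e (nat_lit 57681) (nat_lit 155) (.e (nat_lit 122916) (nat_lit 14) (.e (nat_lit 352318) (nat_lit 24) (.e (nat_lit 130816) (nat_lit 152) .nil))))) .nil)))) (.nd (nat_lit 4) (.nd (nat_lit 5) 
(.lf (nat_lit 209933) (.g (nat_lit 602) (.e (nat_lit 81949) (nat_lit 21) (.e (nat_lit 57873) (nat_lit 264) (.e (nat_lit 1189) (nat_lit 88) .nil))) .nil)) 
(.lf (nat_lit 209965) (.g (nat_lit 3259) (.e (nat_lit 81950) (nat_lit 21) (.e (nat_lit 57680) (nat_lit 155) (.e (nat_lit 122919) (nat_lit 15) (.e (nat_lit 360451) (nat_lit 0) (.e (nat_lit 7122) (nat_lit 382) (.e (nat_lit 7936) (nat_lit 90) .nil)))))) (.g (nat_lit 5) .nil .nil)))) (.nd (nat_lit 5) 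
(.lf (nat_lit 209949) (.g (nat_lit 1499) (.e (nat_lit 81949) (nat_lit 21) (.e (nat_lit 57873) (nat_lit 264) (.e (nat_lit 1221) (nat_lit 90) (.e (nat_lit 81939) (nat_lit 20) .nil)))) .nil)) 
(.lf (nat_lit 209981) (.g (nat_lit 1862) (.e (nat_lit 81950) (nat_lit 21) (.e (nat_lit 57681) (nat_lit 155) (.e (nat_lit 122919) (nat_lit 15) (.e (nat_lit 360450) (nat_lit 0) (.e (nat_lit 7122) (nat_lit 382) (.e (nat_lit 7936) (nat_lit 90) .nil)))))) (.g (nat_lit 4) .nil .nil))))))) (.nd (nat_lit 2) (.nd (nat_lit 3) (.nd (nat_lit 4) (.nd (nat_lit 5) 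
(.lf (nat_lit 209923) (.g (nat_lit 1551) (.e (nat_lit 81949) (nat_lit 21) (.e (nat_lit 57872) (nat_lit 264) (.e (nat_lit 1199) (nat_lit 88) (.e (nat_lit 65617) (nat_lit 10) (.e (nat_lit 344168) (nat_lit 40) .nil))))) .nil)) 
(.lf (nat_lit 209955) (.g (nat_lit 2344) (.e (nat_lit 81950) (nat_lit 21) (.e (nat_lit 57655) (nat_lit 152) (.e (nat_lit 1216) (nat_lit 90) (.e (nat_lit 81948) (nat_lit 21) (.e (nat_lit 57655) (nat_lit 152) (.e (nat_lit 1216) (nat_lit 90) .nil)))))) (.g (nat_lit 0) .nil .nil)))) (.nd (nat_lit 5) 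
(.lf (nat_lit 209939) (.g (nat_lit 2813) (.e (nat_lit 81949) (nat_lit 21) (.e (nat_lit 57873) (nat_lit 264) (.e (nat_lit 1200) (nat_lit 88) (.e (nat_lit 65619) (nat_lit 10) (.e (nat_lit 344168) (nat_lit 40) (.e (nat_lit 671764) (nat_lit 6) .nil)))))) (.g (nat_lit 5) .nil .nil))) 
(.lf (nat_lit 209971) (.g (nat_lit 3626) (.e (nat_lit 81950) (nat_lit 21) (.e (nat_lit 57681) (nat_lit 155) (.e (nat_lit 122916) (nat_lit 14) (.e (nat_lit 352309) (nat_lit 21) (.e (nat_lit 57654) (nat_lit 152) (.e (nat_lit 1217) (nat_lit 90) .nil)))))) (.g (nat_lit 4) .nil .nil))))) (.nd (nat_lit 4) (.nd (nat_lit 5) 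
(.lf (nat_lit 209931) (.g (nat_lit 1946) (.e (nat_lit 81949) (nat_lit 21) (.e (nat_lit 57872) (nat_lit 264) (.e (nat_lit 1221) (nat_lit 90) (.e (nat_lit 81950) (nat_lit 21) (.e (nat_lit 57873) (nat_lit 264) .nil))))) .nil)) 
(.lf (nat_lit 209963) (.g (nat_lit 188) (.e (nat_lit 81950) (nat_lit 21) (.e (nat_lit 57680) (nat_lit 155) (.e (nat_lit 122919) (nat_lit 15) .nil))) .nil))) (.nd (nat_lit 5) 
(.lf (nat_lit 209947) (.g (nat_lit 1168) (.e (nat_lit 81949) (nat_lit 21) (.e (nat_lit 57873) (nat_lit 264) (.e (nat_lit 1221) (nat_lit 90) (.e (nat_lit 81931) (nat_lit 20) .nil)))) .nil)) 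
(.lf (nat_lit 209979) (.g (nat_lit 2090) (.e (nat_lit 81950) (nat_lit 21) (.e (nat_lit 57681) (nat_lit 155) (.e (nat_lit 122919) (nat_lit 15) (.e (nat_lit 360448) (nat_lit 0) (.e (nat_lit 7230) (nat_lit 382) .nil))))) .nil))))) (.nd (nat_lit 3) (.nd (nat_lit 4) (.nd (nat_lit 5) 
(.lf (nat_lit 209927) (.g (nat_lit 2128) (.e (nat_lit 81949) (nat_lit 21) (.e (nat_lit 57872) (nat_lit 264) (.e (nat_lit 1221) (nat_lit 90) (.e (nat_lit 81938) (nat_lit 20) (.e (nat_lit 2006) (nat_lit 138) (.e (nat_lit 671764) (nat_lit 6) .nil)))))) (.g (nat_lit 4) .nil .nil))) 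
(.lf (nat_lit 209959) (.g (nat_lit 1976) (.e (nat_lit 81950) (nat_lit 21) (.e (nat_lit 57655) (nat_lit 152) (.e (nat_lit 1217) (nat_lit 90) (.e (nat_lit 81950) (nat_lit 21) (.e (nat_lit 57655) (nat_lit 152) (.e (nat_lit 1217) (nat_lit 90) .nil)))))) (.g (nat_lit 4) .nil .nil)))) (.nd (nat_lit 5) 
(.lf (nat_lit 209943) (.g (nat_lit 2459) (.e (nat_lit 81949) (nat_lit 21) (.e (nat_lit 57873) (nat_lit 264) (.e (nat_lit 1219) (nat_lit 90) (.e (nat_lit 81946) (nat_lit 20) (.e (nat_lit 2006) (nat_lit 138) (.e (nat_lit 671764) (nat_lit 6) .nil)))))) (.g (nat_lit 5) .nil .nil))) 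
(.lf (nat_lit 209975) (.g (nat_lit 2897) (.e (nat_lit 81950) (nat_lit 21) (.e (nat_lit 57681) (nat_lit 155) (.e (nat_lit 122917) (nat_lit 15) (.e (nat_lit 360449) (nat_lit 0) (.e (nat_lit 7122) (nat_lit 382) (.e (nat_lit 7936) (nat_lit 90) .nil)))))) (.g (nat_lit 4) .nil .nil))))) (.nd (nat_lit 4) (.nd (nat_lit 5) 
(.lf (nat_lit 209935) (.g (nat_lit 2369) (.e (nat_lit 81949) (nat_lit 21) (.e (nat_lit 57873) (nat_lit 264) (.e (nat_lit 1190) (nat_lit 88) (.e (nat_lit 65622) (nat_lit 12) (.e (nat_lit 385093) (nat_lit 49) (.e (nat_lit 778327) (nat_lit 6) .nil)))))) (.g (nat_lit 4) .nil .nil))) 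
(.lf (nat_lit 209967) (.g (nat_lit 2379) (.e (nat_lit 81950) (nat_lit 21) (.e (nat_lit 57680) (nat_lit 155) (.e (nat_lit 122919) (nat_lit 15) (.e (nat_lit 360451) (nat_lit 0) (.e (nat_lit 7125) (nat_lit 382) (.e (nat_lit 1222) (nat_lit 90) .nil)))))) (.g (nat_lit 4) .nil .nil)))) (.nd (nat_lit 5) 
(.lf (nat_lit 209951) (.g (nat_lit 1739) (.e (nat_lit 81949) (nat_lit 21) (.e (nat_lit 57873) (nat_lit 264) (.e (nat_lit 1221) (nat_lit 90) (.e (nat_lit 81950) (nat_lit 21) (.e (nat_lit 57872) (nat_lit 264) .nil))))) .nil)) 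
(.lf (nat_lit 209983) (.g (nat_lit 3108) (.e (nat_lit 81950) (nat_lit 21) (.e (nat_lit 57681) (nat_lit 155) (.e (nat_lit 122919) (nat_lit 15) (.e (nat_lit 360451) (nat_lit 0) (.e (nat_lit 7119) (nat_lit 382) (.e (nat_lit 1217) (nat_lit 90) .nil)))))) (.g (nat_lit 4) .nil .nil)))))))))

noncomputable def tv2775 : DT := (.nd (nat_lit 0) (.nd (nat_lit 1) (.nd (nat_lit 2) (.nd (nat_lit 3) (.nd (nat_lit 4) (.nd (nat_lit 5) 
(.lf (nat_lit 209984) (.g (nat_lit 2947) (.e (nat_lit 81950) (nat_lit 21) (.e (nat_lit 57681) (nat_lit 155) (.e (nat_lit 122919) (nat_lit 15) (.e (nat_lit 360451) (nat_lit 0) (.e (nat_lit 7119) (nat_lit 382) (.e (nat_lit 7936) (nat_lit 90) .nil)))))) (.g (nat_lit 5) .nil .nil))) 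
(.lf (nat_lit 210016) (.g (nat_lit 3122) (.e (nat_lit 81950) (nat_lit 21) (.e (nat_lit 57683) (nat_lit 155) (.e (nat_lit 122916) (nat_lit 14) (.e (nat_lit 352309) (nat_lit 21) (.e (nat_lit 57655) (nat_lit 152) (.e (nat_lit 1217) (nat_lit 90) .nil)))))) (.g (nat_lit 5) .nil .nil)))) (.nd (nat_lit 5) 
(.lf (nat_lit 210000) (.g (nat_lit 2857) (.e (nat_lit 81950) (nat_lit 21) (.e (nat_lit 57681) (nat_lit 155) (.e (nat_lit 122919) (nat_lit 15) (.e (nat_lit 360451) (nat_lit 0) (.e (nat_lit 7238) (nat_lit 382) (.e (nat_lit 1218) (nat_lit 90) .nil)))))) (.g (nat_lit 4) .nil .nil))) 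
(.lf (nat_lit 210032) (.g (nat_lit 2306) (.e (nat_lit 81950) (nat_lit 21) (.e (nat_lit 57683) (nat_lit 155) (.e (nat_lit 122919) (nat_lit 15) (.e (nat_lit 360451) (nat_lit 0) (.e (nat_lit 7125) (nat_lit 382) (.e (nat_lit 1223) (nat_lit 90) .nil)))))) (.g (nat_lit 4) .nil .nil))))) (.nd (nat_lit 4) (.nd (nat_lit 5) 
(.lf (nat_lit 209992) (.g (nat_lit 4727) (.e (nat_lit 81950) (nat_lit 21) (.e (nat_lit 57681) (nat_lit 155) (.e (nat_lit 122919) (nat_lit 15) (.e (nat_lit 360451) (nat_lit 0) (.e (nat_lit 7125) (nat_lit 382) (.e (nat_lit 1222) (nat_lit 90) .nil)))))) (.g (nat_lit 6) .nil .nil))) 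
(.lf (nat_lit 210024) (.g (nat_lit 1414) (.e (nat_lit 81950) (nat_lit 21) (.e (nat_lit 57683) (nat_lit 155) (.e (nat_lit 122917) (nat_lit 15) (.e (nat_lit 360456) (nat_lit 0) .nil)))) .nil))) (.nd (nat_lit 5) 
(.lf (nat_lit 210008) (.g (nat_lit 1961) (.e (nat_lit 81950) (nat_lit 21) (.e (nat_lit 57683) (nat_lit 155) (.e (nat_lit 122916) (nat_lit 14) (.e (nat_lit 352307) (nat_lit 21) (.e (nat_lit 57654) (nat_lit 152) .nil))))) .nil)) 
(.lf (nat_lit 210040) (.g (nat_lit 2200) (.e (nat_lit 81950) (nat_lit 21) (.e (nat_lit 57684) (nat_lit 155) (.e (nat_lit 122916) (nat_lit 14) (.e (nat_lit 352307) (nat_lit 21) (.e (nat_lit 57655) (nat_lit 152) (.e (nat_lit 1216) (nat_lit 90) .nil)))))) (.g (nat_lit 4) .nil .nil)))))) (.nd (nat_lit 3) (.nd (nat_lit 4) (.nd (nat_lit 5) 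
(.lf (nat_lit 209988) (.g (nat_lit 4498) (.e (nat_lit 81950) (nat_lit 21) (.e (nat_lit 57681) (nat_lit 155) (.e (nat_lit 122919) (nat_lit 15) (.e (nat_lit 360451) (nat_lit 0) (.e (nat_lit 7124) (nat_lit 382) (.e (nat_lit 1222) (nat_lit 90) .nil)))))) (.g (nat_lit 6) .nil .nil))) 
(.lf (nat_lit 210020) (.g (nat_lit 2357) (.e (nat_lit 81950) (nat_lit 21) (.e (nat_lit 57683) (nat_lit 155) (.e (nat_lit 122917) (nat_lit 15) (.e (nat_lit 360449) (nat_lit 0) (.e (nat_lit 7122) (nat_lit 382) (.e (nat_lit 7936) (nat_lit 90) .nil)))))) (.g (nat_lit 4) .nil .nil)))) (.nd (nat_lit 5) 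
(.lf (nat_lit 210004) (.g (nat_lit 3020) (.e (nat_lit 81950) (nat_lit 21) (.e (nat_lit 57682) (nat_lit 155) (.e (nat_lit 122919) (nat_lit 15) (.e (nat_lit 360451) (nat_lit 0) (.e (nat_lit 7122) (nat_lit 382) (.e (nat_lit 7936) (nat_lit 90) .nil)))))) (.g (nat_lit 5) .nil .nil))) 
(.lf (nat_lit 210036) (.g (nat_lit 1334) (.e (nat_lit 81950) (nat_lit 21) (.e (nat_lit 57683) (nat_lit 155) (.e (nat_lit 122919) (nat_lit 15) (.e (nat_lit 360457) (nat_lit 0) (.e (nat_lit 7936) (nat_lit 382) .nil))))) .nil)))) (.nd (nat_lit 4) (.nd (nat_lit 5) 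
(.lf (nat_lit 209996) (.g (nat_lit 3078) (.e (nat_lit 81950) (nat_lit 21) (.e (nat_lit 57681) (nat_lit 155) (.e (nat_lit 122919) (nat_lit 15) (.e (nat_lit 360451) (nat_lit 0) (.e (nat_lit 7200) (nat_lit 382) (.e (nat_lit 1218) (nat_lit 90) .nil)))))) (.g (nat_lit 4) .nil .nil))) 
(.lf (nat_lit 210028) (.g (nat_lit 2137) (.e (nat_lit 81950) (nat_lit 21) (.e (nat_lit 57683) (nat_lit 155) (.e (nat_lit 122919) (nat_lit 15) (.e (nat_lit 360450) (nat_lit 0) (.e (nat_lit 7119) (nat_lit 382) .nil))))) .nil))) (.nd (nat_lit 5) 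
(.lf (nat_lit 210012) (.g (nat_lit 2709) (.e (nat_lit 81950) (nat_lit 21) (.e (nat_lit 57683) (nat_lit 155) (.e (nat_lit 122916) (nat_lit 14) (.e (nat_lit 352309) (nat_lit 21) (.e (nat_lit 57651) (nat_lit 152) (.e (nat_lit 1217) (nat_lit 90) .nil)))))) (.g (nat_lit 4) .nil .nil))) 
(.lf (nat_lit 210044) (.g (nat_lit 2488) (.e (nat_lit 81950) (nat_lit 21) (.e (nat_lit 57684) (nat_lit 155) (.e (nat_lit 122916) (nat_lit 14) (.e (nat_lit 352309) (nat_lit 21) (.e (nat_lit 57651) (nat_lit 152) (.e (nat_lit 1217) (nat_lit 90) .nil)))))) (.g (nat_lit 4) .nil .nil))))))) (.nd (nat_lit 2) (.nd (nat_lit 3) (.nd (nat_lit 4) (.nd (nat_lit 5) 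
(.lf (nat_lit 209986) (.g (nat_lit 4324) (.e (nat_lit 81950) (nat_lit 21) (.e (nat_lit 57681) (nat_lit 155) (.e (nat_lit 122919) (nat_lit 15) (.e (nat_lit 360451) (nat_lit 0) (.e (nat_lit 7122) (nat_lit 382) (.e (nat_lit 1222) (nat_lit 90) .nil)))))) (.g (nat_lit 6) .nil .nil))) 
(.lf (nat_lit 210018) (.g (nat_lit 2576) (.e (nat_lit 81950) (nat_lit 21) (.e (nat_lit 57683) (nat_lit 155) (.e (nat_lit 122916) (nat_lit 14) (.e (nat_lit 352309) (nat_lit 21) (.e (nat_lit 57665) (nat_lit 152) (.e (nat_lit 7936) (nat_lit 90) .nil)))))) (.g (nat_lit 4) .nil .nil)))) (.nd (nat_lit 5) 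
(.lf (nat_lit 210002) (.g (nat_lit 3395) (.e (nat_lit 81950) (nat_lit 21) (.e (nat_lit 57681) (nat_lit 155) (.e (nat_lit 122919) (nat_lit 15) (.e (nat_lit 360453) (nat_lit 0) (.e (nat_lit 7147) (nat_lit 382) (.e (nat_lit 1216) (nat_lit 90) .nil)))))) (.g (nat_lit 4) .nil .nil))) 
(.lf (nat_lit 210034) (.g (nat_lit 1928) (.e (nat_lit 81950) (nat_lit 21) (.e (nat_lit 57683) (nat_lit 155) (.e (nat_lit 122919) (nat_lit 15) (.e (nat_lit 360452) (nat_lit 0) (.e (nat_lit 7147) (nat_lit 382) (.e (nat_lit 1216) (nat_lit 90) .nil)))))) (.g (nat_lit 4) .nil .nil))))) (.nd (nat_lit 4) (.nd (nat_lit 5) 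
(.lf (nat_lit 209994) (.g (nat_lit 2426) (.e (nat_lit 81950) (nat_lit 21) (.e (nat_lit 57681) (nat_lit 155) (.e (nat_lit 122919) (nat_lit 15) (.e (nat_lit 360451) (nat_lit 0) (.e (nat_lit 7125) (nat_lit 382) (.e (nat_lit 7936) (nat_lit 90) .nil)))))) (.g (nat_lit 4) .nil .nil))) 
(.lf (nat_lit 210026) (.g (nat_lit 1508) (.e (nat_lit 81950) (nat_lit 21) (.e (nat_lit 57683) (nat_lit 155) (.e (nat_lit 122917) (nat_lit 15) (.e (nat_lit 360488) (nat_lit 20) (.e (nat_lit 769792) (nat_lit 10) .nil))))) .nil))) (.nd (nat_lit 5) 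
(.lf (nat_lit 210010) (.g (nat_lit 2349) (.e (nat_lit 81950) (nat_lit 21) (.e (nat_lit 57683) (nat_lit 155) (.e (nat_lit 122916) (nat_lit 14) (.e (nat_lit 352307) (nat_lit 21) (.e (nat_lit 57655) (nat_lit 152) (.e (nat_lit 1217) (nat_lit 90) .nil)))))) (.g (nat_lit 4) .nil .nil))) 
(.lf (nat_lit 210042) (.g (nat_lit 2291) (.e (nat_lit 81950) (nat_lit 21) (.e (nat_lit 57684) (nat_lit 155) (.e (nat_lit 122916) (nat_lit 14) (.e (nat_lit 352309) (nat_lit 21) (.e (nat_lit 57651) (nat_lit 152) (.e (nat_lit 1215) (nat_lit 90) .nil)))))) (.g (nat_lit 4) .nil .nil)))))) (.nd (nat_lit 3) (.nd (nat_lit 4) (.nd (nat_lit 5) 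
(.lf (nat_lit 209990) (.g (nat_lit 3232) (.e (nat_lit 81950) (nat_lit 21) (.e (nat_lit 57681) (nat_lit 155) (.e (nat_lit 122919) (nat_lit 15) (.e (nat_lit 360451) (nat_lit 0) (.e (nat_lit 7124) (nat_lit 382) (.e (nat_lit 7936) (nat_lit 90) .nil)))))) (.g (nat_lit 5) .nil .nil))) 
(.lf (nat_lit 210022) (.g (nat_lit 2754) (.e (nat_lit 81950) (nat_lit 21) (.e (nat_lit 57683) (nat_lit 155) (.e (nat_lit 122917) (nat_lit 15) (.e (nat_lit 360452) (nat_lit 0) (.e (nat_lit 7147) (nat_lit 382) (.e (nat_lit 1216) (nat_lit 90) .nil)))))) (.g (nat_lit 0) .nil .nil)))) (.nd (nat_lit 5) 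
(.lf (nat_lit 210006) (.g (nat_lit 1971) (.e (nat_lit 81950) (nat_lit 21) (.e (nat_lit 57682) (nat_lit 155) (.e (nat_lit 122919) (nat_lit 15) (.e (nat_lit 360451) (nat_lit 0) (.e (nat_lit 7132) (nat_lit 382) (.e (nat_lit 7936) (nat_lit 90) .nil)))))) (.g (nat_lit 4) .nil .nil))) 
(.lf (nat_lit 210038) (.g (nat_lit 2433) (.e (nat_lit 81950) (nat_lit 21) (.e (nat_lit 57683) (nat_lit 155) (.e (nat_lit 122919) (nat_lit 15) (.e (nat_lit 360489) (nat_lit 21) (.e (nat_lit 770074) (nat_lit 10) .nil))))) (.g (nat_lit 0) .nil .nil))))) (.nd (nat_lit 4) (.nd (nat_lit 5) 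
(.lf (nat_lit 209998) (.g (nat_lit 3101) (.e (nat_lit 81950) (nat_lit 21) (.e (nat_lit 57681) (nat_lit 155) (.e (nat_lit 122919) (nat_lit 15) (.e (nat_lit 360451) (nat_lit 0) (.e (nat_lit 7221) (nat_lit 382) (.e (nat_lit 1218) (nat_lit 90) .nil)))))) (.g (nat_lit 4) .nil .nil))) 
(.lf (nat_lit 210030) (.g (nat_lit 2306) (.e (nat_lit 81950) (nat_lit 21) (.e (nat_lit 57683) (nat_lit 155) (.e (nat_lit 122919) (nat_lit 15) (.e (nat_lit 360451) (nat_lit 0) (.e (nat_lit 7119) (nat_lit 382) .nil))))) .nil))) (.nd (nat_lit 5) 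
(.lf (nat_lit 210014) (.g (nat_lit 2821) (.e (nat_lit 81950) (nat_lit 21) (.e (nat_lit 57683) (nat_lit 155) (.e (nat_lit 122916) (nat_lit 14) (.e (nat_lit 352309) (nat_lit 21) (.e (nat_lit 57652) (nat_lit 152) (.e (nat_lit 1217) (nat_lit 90) .nil)))))) (.g (nat_lit 4) .nil .nil))) 
(.lf (nat_lit 210046) (.g (nat_lit 3308) (.e (nat_lit 81950) (nat_lit 21) (.e (nat_lit 57684) (nat_lit 155) (.e (nat_lit 122916) (nat_lit 14) (.e (nat_lit 352309) (nat_lit 21) (.e (nat_lit 57655) (nat_lit 152) (.e (nat_lit 1216) (nat_lit 90) .nil)))))) (.g (nat_lit 6) .nil .nil)))))))) (.nd (nat_lit 1) (.nd (nat_lit 2) (.nd (nat_lit 3) (.nd (nat_lit 4) (.nd (nat_lit 5) 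
(.lf (nat_lit 209985) (.g (nat_lit 3584) (.e (nat_lit 81950) (nat_lit 21) (.e (nat_lit 57681) (nat_lit 155) (.e (nat_lit 122919) (nat_lit 15) (.e (nat_lit 360451) (nat_lit 0) (.e (nat_lit 7122) (nat_lit 382) (.e (nat_lit 1218) (nat_lit 90) .nil)))))) (.g (nat_lit 5) .nil .nil))) 
(.lf (nat_lit 210017) (.g (nat_lit 1625) (.e (nat_lit 81950) (nat_lit 21) (.e (nat_lit 57683) (nat_lit 155) (.e (nat_lit 122916) (nat_lit 14) (.e (nat_lit 352309) (nat_lit 21) (.e (nat_lit 57660) (nat_lit 152) (.e (nat_lit 7936) (nat_lit 90) .nil)))))) (.g (nat_lit 4) .nil .nil)))) (.nd (nat_lit 5) 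
(.lf (nat_lit 210001) (.g (nat_lit 2687) (.e (nat_lit 81950) (nat_lit 21) (.e (nat_lit 57681) (nat_lit 155) (.e (nat_lit 122919) (nat_lit 15) (.e (nat_lit 360452) (nat_lit 0) (.e (nat_lit 7936) (nat_lit 382) .nil))))) .nil)) 
(.lf (nat_lit 210033) (.g (nat_lit 2137) (.e (nat_lit 81950) (nat_lit 21) (.e (nat_lit 57683) (nat_lit 155) (.e (nat_lit 122919) (nat_lit 15) (.e (nat_lit 360451) (nat_lit 0) (.e (nat_lit 7132) (nat_lit 382) .nil))))) .nil)))) (.nd (nat_lit 4) (.nd (nat_lit 5) 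
(.lf (nat_lit 209993) (.g (nat_lit 3156) (.e (nat_lit 81950) (nat_lit 21) (.e (nat_lit 57681) (nat_lit 155) (.e (nat_lit 122919) (nat_lit 15) (.e (nat_lit 360451) (nat_lit 0) (.e (nat_lit 7125) (nat_lit 382) (.e (nat_lit 1224) (nat_lit 90) .nil)))))) (.g (nat_lit 4) .nil .nil))) 
(.lf (nat_lit 210025) (.g (nat_lit 1425) (.e (nat_lit 81950) (nat_lit 21) (.e (nat_lit 57683) (nat_lit 155) (.e (nat_lit 122917) (nat_lit 15) (.e (nat_lit 360457) (nat_lit 0) .nil)))) .nil))) (.nd (nat_lit 5) 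
(.lf (nat_lit 210009) (.g (nat_lit 2678) (.e (nat_lit 81950) (nat_lit 21) (.e (nat_lit 57683) (nat_lit 155) (.e (nat_lit 122916) (nat_lit 14) (.e (nat_lit 352307) (nat_lit 21) (.e (nat_lit 57655) (nat_lit 152) (.e (nat_lit 1216) (nat_lit 90) .nil)))))) (.g (nat_lit 5) .nil .nil))) 
(.lf (nat_lit 210041) (.g (nat_lit 1192) (.e (nat_lit 81950) (nat_lit 21) (.e (nat_lit 57684) (nat_lit 155) (.e (nat_lit 122916) (nat_lit 14) (.e (nat_lit 352308) (nat_lit 21) (.e (nat_lit 57655) (nat_lit 152) .nil))))) .nil))))) (.nd (nat_lit 3) (.nd (nat_lit 4) (.nd (nat_lit 5) 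
(.lf (nat_lit 209989) (.g (nat_lit 3281) (.e (nat_lit 81950) (nat_lit 21) (.e (nat_lit 57681) (nat_lit 155) (.e (nat_lit 122919) (nat_lit 15) (.e (nat_lit 360451) (nat_lit 0) (.e (nat_lit 7124) (nat_lit 382) (.e (nat_lit 1223) (nat_lit 90) .nil)))))) (.g (nat_lit 5) .nil .nil))) 
(.lf (nat_lit 210021) (.g (nat_lit 1446) (.e (nat_lit 81950) (nat_lit 21) (.e (nat_lit 57683) (nat_lit 155) (.e (nat_lit 122917) (nat_lit 15) (.e (nat_lit 360451) (nat_lit 0) .nil)))) .nil))) (.nd (nat_lit 5) 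
(.lf (nat_lit 210005) (.g (nat_lit 2247) (.e (nat_lit 81950) (nat_lit 21) (.e (nat_lit 57682) (nat_lit 155) (.e (nat_lit 122919) (nat_lit 15) (.e (nat_lit 360451) (nat_lit 0) (.e (nat_lit 7124) (nat_lit 382) (.e (nat_lit 7936) (nat_lit 90) .nil)))))) (.g (nat_lit 5) .nil .nil))) 
(.lf (nat_lit 210037) (.g (nat_lit 905) (.e (nat_lit 81950) (nat_lit 21) (.e (nat_lit 57683) (nat_lit 155) (.e (nat_lit 122919) (nat_lit 15) (.e (nat_lit 360488) (nat_lit 20) .nil)))) .nil)))) (.nd (nat_lit 4) (.nd (nat_lit 5) 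
(.lf (nat_lit 209997) (.g (nat_lit 3121) (.e (nat_lit 81950) (nat_lit 21) (.e (nat_lit 57681) (nat_lit 155) (.e (nat_lit 122919) (nat_lit 15) (.e (nat_lit 360451) (nat_lit 0) (.e (nat_lit 7218) (nat_lit 382) (.e (nat_lit 1218) (nat_lit 90) .nil)))))) (.g (nat_lit 4) .nil .nil))) 
(.lf (nat_lit 210029) (.g (nat_lit 2106) (.e (nat_lit 81950) (nat_lit 21) (.e (nat_lit 57683) (nat_lit 155) (.e (nat_lit 122919) (nat_lit 15) (.e (nat_lit 360450) (nat_lit 0) (.e (nat_lit 7125) (nat_lit 382) .nil))))) .nil))) (.nd (nat_lit 5) 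
(.lf (nat_lit 210013) (.g (nat_lit 2272) (.e (nat_lit 81950) (nat_lit 21) (.e (nat_lit 57683) (nat_lit 155) (.e (nat_lit 122916) (nat_lit 14) (.e (nat_lit 352309) (nat_lit 21) (.e (nat_lit 57652) (nat_lit 152) .nil))))) .nil)) 
(.lf (nat_lit 210045) (.g (nat_lit 2600) (.e (nat_lit 81950) (nat_lit 21) (.e (nat_lit 57684) (nat_lit 155) (.e (nat_lit 122916) (nat_lit 14) (.e (nat_lit 352309) (nat_lit 21) (.e (nat_lit 57652) (nat_lit 152) (.e (nat_lit 1217) (nat_lit 90) .nil)))))) (.g (nat_lit 4) .nil .nil))))))) (.nd (nat_lit 2) (.nd (nat_lit 3) (.nd (nat_lit 4) (.nd (nat_lit 5) 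
(.lf (nat_lit 209987) (.g (nat_lit 3643) (.e (nat_lit 81950) (nat_lit 21) (.e (nat_lit 57681) (nat_lit 155) (.e (nat_lit 122919) (nat_lit 15) (.e (nat_lit 360451) (nat_lit 0) (.e (nat_lit 7122) (nat_lit 382) (.e (nat_lit 7936) (nat_lit 90) .nil)))))) (.g (nat_lit 5) .nil .nil))) 
(.lf (nat_lit 210019) (.g (nat_lit 2471) (.e (nat_lit 81950) (nat_lit 21) (.e (nat_lit 57683) (nat_lit 155) (.e (nat_lit 122916) (nat_lit 14) (.e (nat_lit 352309) (nat_lit 21) (.e (nat_lit 57666) (nat_lit 152) (.e (nat_lit 7936) (nat_lit 90) .nil)))))) (.g (nat_lit 4) .nil .nil)))) (.nd (nat_lit 5) 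
(.lf (nat_lit 210003) (.g (nat_lit 2003) (.e (nat_lit 81950) (nat_lit 21) (.e (nat_lit 57682) (nat_lit 155) (.e (nat_lit 122919) (nat_lit 15) (.e (nat_lit 360451) (nat_lit 0) (.e (nat_lit 7119) (nat_lit 382) (.e (nat_lit 7936) (nat_lit 90) .nil)))))) (.g (nat_lit 4) .nil .nil))) 
(.lf (nat_lit 210035) (.g (nat_lit 2446) (.e (nat_lit 81950) (nat_lit 21) (.e (nat_lit 57683) (nat_lit 155) (.e (nat_lit 122919) (nat_lit 15) (.e (nat_lit 360454) (nat_lit 0) (.e (nat_lit 7147) (nat_lit 382) (.e (nat_lit 1216) (nat_lit 90) .nil)))))) (.g (nat_lit 6) .nil .nil))))) (.nd (nat_lit 4) (.nd (nat_lit 5) 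
(.lf (nat_lit 209995) (.g (nat_lit 2684) (.e (nat_lit 81950) (nat_lit 21) (.e (nat_lit 57681) (nat_lit 155) (.e (nat_lit 122919) (nat_lit 15) (.e (nat_lit 360451) (nat_lit 0) (.e (nat_lit 7132) (nat_lit 382) (.e (nat_lit 7936) (nat_lit 90) .nil)))))) (.g (nat_lit 4) .nil .nil))) 
(.lf (nat_lit 210027) (.g (nat_lit 2985) (.e (nat_lit 81950) (nat_lit 21) (.e (nat_lit 57683) (nat_lit 155) (.e (nat_lit 122917) (nat_lit 15) (.e (nat_lit 360489) (nat_lit 21) (.e (nat_lit 770074) (nat_lit 10) .nil))))) (.g (nat_lit 0) .nil .nil)))) (.nd (nat_lit 5) 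
(.lf (nat_lit 210011) (.g (nat_lit 2526) (.e (nat_lit 81950) (nat_lit 21) (.e (nat_lit 57683) (nat_lit 155) (.e (nat_lit 122916) (nat_lit 14) (.e (nat_lit 352309) (nat_lit 21) (.e (nat_lit 57651) (nat_lit 152) (.e (nat_lit 1215) (nat_lit 90) .nil)))))) (.g (nat_lit 4) .nil .nil))) 
(.lf (nat_lit 210043) (.g (nat_lit 2535) (.e (nat_lit 81950) (nat_lit 21) (.e (nat_lit 57684) (nat_lit 155) (.e (nat_lit 122916) (nat_lit 14) (.e (nat_lit 352309) (nat_lit 21) (.e (nat_lit 57651) (nat_lit 152) (.e (nat_lit 1216) (nat_lit 90) .nil)))))) (.g (nat_lit 4) .nil .nil)))))) (.nd (nat_lit 3) (.nd (nat_lit 4) (.nd (nat_lit 5) 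
(.lf (nat_lit 209991) (.g (nat_lit 3753) (.e (nat_lit 81950) (nat_lit 21) (.e (nat_lit 57681) (nat_lit 155) (.e (nat_lit 122919) (nat_lit 15) (.e (nat_lit 360451) (nat_lit 0) (.e (nat_lit 7125) (nat_lit 382) (.e (nat_lit 1218) (nat_lit 90) .nil)))))) (.g (nat_lit 5) .nil .nil))) 
(.lf (nat_lit 210023) (.g (nat_lit 2562) (.e (nat_lit 81950) (nat_lit 21) (.e (nat_lit 57683) (nat_lit 155) (.e (nat_lit 122917) (nat_lit 15) (.e (nat_lit 360453) (nat_lit 0) (.e (nat_lit 7147) (nat_lit 382) (.e (nat_lit 1216) (nat_lit 90) .nil)))))) (.g (nat_lit 0) .nil .nil)))) (.nd (nat_lit 5) 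
(.lf (nat_lit 210007) (.g (nat_lit 2943) (.e (nat_lit 81950) (nat_lit 21) (.e (nat_lit 57683) (nat_lit 155) (.e (nat_lit 122916) (nat_lit 14) (.e (nat_lit 352302) (nat_lit 20) (.e (nat_lit 2281) (nat_lit 150) (.e (nat_lit 770074) (nat_lit 10) .nil)))))) (.g (nat_lit 6) .nil .nil))) 
(.lf (nat_lit 210039) (.g (nat_lit 1001) (.e (nat_lit 81950) (nat_lit 21) (.e (nat_lit 57684) (nat_lit 155) (.e (nat_lit 122916) (nat_lit 14) (.e (nat_lit 352293) (nat_lit 20) .nil)))) .nil)))) (.nd (nat_lit 4) (.nd (nat_lit 5) 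
(.lf (nat_lit 209999) (.g (nat_lit 3126) (.e (nat_lit 81950) (nat_lit 21) (.e (nat_lit 57681) (nat_lit 155) (.e (nat_lit 122919) (nat_lit 15) (.e (nat_lit 360451) (nat_lit 0) (.e (nat_lit 7227) (nat_lit 382) (.e (nat_lit 1218) (nat_lit 90) .nil)))))) (.g (nat_lit 4) .nil .nil))) 
(.lf (nat_lit 210031) (.g (nat_lit 2595) (.e (nat_lit 81950) (nat_lit 21) (.e (nat_lit 57683) (nat_lit 155) (.e (nat_lit 122919) (nat_lit 15) (.e (nat_lit 360451) (nat_lit 0) (.e (nat_lit 7122) (nat_lit 382) (.e (nat_lit 7936) (nat_lit 90) .nil)))))) (.g (nat_lit 4) .nil .nil)))) (.nd (nat_lit 5) 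
(.lf (nat_lit 210015) (.g (nat_lit 3502) (.e (nat_lit 81950) (nat_lit 21) (.e (nat_lit 57683) (nat_lit 155) (.e (nat_lit 122916) (nat_lit 14) (.e (nat_lit 352309) (nat_lit 21) (.e (nat_lit 57655) (nat_lit 152) (.e (nat_lit 1216) (nat_lit 90) .nil)))))) (.g (nat_lit 6) .nil .nil))) 
(.lf (nat_lit 210047) (.g (nat_lit 3080) (.e (nat_lit 81950) (nat_lit 21) (.e (nat_lit 57684) (nat_lit 155) (.e (nat_lit 122916) (nat_lit 14) (.e (nat_lit 352309) (nat_lit 21) (.e (nat_lit 57655) (nat_lit 152) (.e (nat_lit 1217) (nat_lit 90) .nil)))))) (.g (nat_lit 5) .nil .nil)))))))))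

noncomputable def tv2776 : DT := (.nd (nat_lit 0) (.nd (nat_lit 1) (.nd (nat_lit 2) (.nd (nat_lit 3) (.nd (nat_lit 4) (.nd (nat_lit 5) 
(.lf (nat_lit 210048) (.g (nat_lit 2275) (.e (nat_lit 81950) (nat_lit 21) (.e (nat_lit 57684) (nat_lit 155) (.e (nat_lit 122916) (nat_lit 14) (.e (nat_lit 352309) (nat_lit 21) (.e (nat_lit 57665) (nat_lit 152) (.e (nat_lit 7936) (nat_lit 90) .nil)))))) (.g (nat_lit 4) .nil .nil))) 
(.lf (nat_lit 210080) (.g (nat_lit 2260) (.e (nat_lit 81950) (nat_lit 21) (.e (nat_lit 57847) (nat_lit 252) (.e (nat_lit 57365) (nat_lit 1) (.e (nat_lit 57854) (nat_lit 252) (.e (nat_lit 57440) (nat_lit 18) .nil))))) .nil))) (.nd (nat_lit 5) 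
(.lf (nat_lit 210064) (.g (nat_lit 370) (.e (nat_lit 81950) (nat_lit 21) (.e (nat_lit 57830) (nat_lit 250) (.e (nat_lit 7936) (nat_lit 166) .nil))) .nil)) 
(.lf (nat_lit 210096) (.g (nat_lit 1818) (.e (nat_lit 81950) (nat_lit 21) (.e (nat_lit 57848) (nat_lit 252) (.e (nat_lit 57368) (nat_lit 1) (.e (nat_lit 57854) (nat_lit 252) (.e (nat_lit 57441) (nat_lit 18) .nil))))) .nil)))) (.nd (nat_lit 4) (.nd (nat_lit 5) 
(.lf (nat_lit 210056) (.g (nat_lit 127) (.e (nat_lit 81950) (nat_lit 21) (.e (nat_lit 57684) (nat_lit 155) (.e (nat_lit 122919) (nat_lit 15) .nil))) .nil)) 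
(.lf (nat_lit 210088) (.g (nat_lit 2289) (.e (nat_lit 81950) (nat_lit 21) (.e (nat_lit 57848) (nat_lit 252) (.e (nat_lit 57367) (nat_lit 1) (.e (nat_lit 57847) (nat_lit 252) (.e (nat_lit 57411) (nat_lit 12) (.e (nat_lit 335878) (nat_lit 0) (.e (nat_lit 1912) (nat_lit 129) (.e (nat_lit 598041) (nat_lit 10) .nil)))))))) (.g (nat_lit 5) .nil .nil)))) (.nd (nat_lit 5) 
(.lf (nat_lit 210072) (.g (nat_lit 2613) (.e (nat_lit 81950) (nat_lit 21) (.e (nat_lit 57847) (nat_lit 252) (.e (nat_lit 57365) (nat_lit 1) (.e (nat_lit 57851) (nat_lit 252) (.e (nat_lit 57406) (nat_lit 12) (.e (nat_lit 336240) (nat_lit 15) (.e (nat_lit 3453) (nat_lit 216) (.e (nat_lit 688185) (nat_lit 18) .nil)))))))) (.g (nat_lit 4) .nil .nil))) 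
(.lf (nat_lit 210104) (.g (nat_lit 2333) (.e (nat_lit 81950) (nat_lit 21) (.e (nat_lit 57849) (nat_lit 252) (.e (nat_lit 57365) (nat_lit 1) (.e (nat_lit 57854) (nat_lit 252) (.e (nat_lit 57409) (nat_lit 12) (.e (nat_lit 335878) (nat_lit 0) (.e (nat_lit 1912) (nat_lit 129) (.e (nat_lit 598041) (nat_lit 10) .nil)))))))) (.g (nat_lit 4) .nil .nil)))))) 
(.nd (nat_lit 3) (.nd (nat_lit 4) (.nd (nat_lit 5) 
(.lf (nat_lit 210052) (.g (nat_lit 2214) (.e (nat_lit 81950) (nat_lit 21) (.e (nat_lit 57684) (nat_lit 155) (.e (nat_lit 122917) (nat_lit 15) (.e (nat_lit 360452) (nat_lit 0) (.e (nat_lit 7147) (nat_lit 382) (.e (nat_lit 1216) (nat_lit 90) .nil)))))) (.g (nat_lit 0) .nil .nil))) 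
(.lf (nat_lit 210084) (.g (nat_lit 3173) (.e (nat_lit 81950) (nat_lit 21) (.e (nat_lit 57847) (nat_lit 252) (.e (nat_lit 57368) (nat_lit 1) (.e (nat_lit 57852) (nat_lit 252) (.e (nat_lit 57421) (nat_lit 13) (.e (nat_lit 344144) (nat_lit 31) (.e (nat_lit 598041) (nat_lit 10) .nil))))))) (.g (nat_lit 4) .nil .nil)))) (.nd (nat_lit 5) 
(.lf (nat_lit 210068) (.g (nat_lit 3188) (.e (nat_lit 81950) (nat_lit 21) (.e (nat_lit 57846) (nat_lit 252) (.e (nat_lit 57365) (nat_lit 1) (.e (nat_lit 57854) (nat_lit 252) (.e (nat_lit 57409) (nat_lit 12) (.e (nat_lit 336240) (nat_lit 15) (.e (nat_lit 3453) (nat_lit 216) (.e (nat_lit 688185) (nat_lit 18) .nil)))))))) (.g (nat_lit 5) .nil .nil))) 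
(.lf (nat_lit 210100) (.g (nat_lit 3107) (.e (nat_lit 81950) (nat_lit 21) (.e (nat_lit 57849) (nat_lit 252) (.e (nat_lit 57363) (nat_lit 1) (.e (nat_lit 57847) (nat_lit 252) (.e (nat_lit 57411) (nat_lit 12) (.e (nat_lit 336240) (nat_lit 15) (.e (nat_lit 3453) (nat_lit 216) (.e (nat_lit 688186) (nat_lit 18) .nil)))))))) (.g (nat_lit 5) .nil .nil))))) (.nd (nat_lit 4) (.nd (nat_lit 5) 
(.lf (nat_lit 210060) (.g (nat_lit 1769) (.e (nat_lit 81950) (nat_lit 21) (.e (nat_lit 57684) (nat_lit 155) (.e (nat_lit 122919) (nat_lit 15) (.e (nat_lit 360451) (nat_lit 0) (.e (nat_lit 7132) (nat_lit 382) .nil))))) .nil)) 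
(.lf (nat_lit 210092) (.g (nat_lit 2311) (.e (nat_lit 81950) (nat_lit 21) (.e (nat_lit 57848) (nat_lit 252) (.e (nat_lit 57368) (nat_lit 1) (.e (nat_lit 57854) (nat_lit 252) (.e (nat_lit 57405) (nat_lit 12) (.e (nat_lit 336240) (nat_lit 15) (.e (nat_lit 3453) (nat_lit 216) (.e (nat_lit 688186) (nat_lit 18) .nil)))))))) (.g (nat_lit 4) .nil .nil)))) (.nd (nat_lit 5) 
(.lf (nat_lit 210076) (.g (nat_lit 2406) (.e (nat_lit 81950) (nat_lit 21) (.e (nat_lit 57847) (nat_lit 252) (.e (nat_lit 57365) (nat_lit 1) (.e (nat_lit 57854) (nat_lit 252) (.e (nat_lit 57405) (nat_lit 12) .nil))))) .nil)) 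
(.lf (nat_lit 210108) (.g (nat_lit 1174) (.e (nat_lit 81950) (nat_lit 21) (.e (nat_lit 57849) (nat_lit 252) (.e (nat_lit 57367) (nat_lit 1) (.e (nat_lit 57844) (nat_lit 252) .nil)))) .nil)))))) (.nd (nat_lit 2) (.nd (nat_lit 3) (.nd (nat_lit 4) (.nd (nat_lit 5) 
(.lf (nat_lit 210050) (.g (nat_lit 2329) (.e (nat_lit 81950) (nat_lit 21) (.e (nat_lit 57684) (nat_lit 155) (.e (nat_lit 122916) (nat_lit 14) (.e (nat_lit 352309) (nat_lit 21) (.e (nat_lit 65280) (nat_lit 152) (.e (nat_lit 1220) (nat_lit 90) .nil)))))) (.g (nat_lit 4) .nil .nil))) 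
(.lf (nat_lit 210082) (.g (nat_lit 3152) (.e (nat_lit 81950) (nat_lit 21) (.e (nat_lit 57847) (nat_lit 252) (.e (nat_lit 57365) (nat_lit 1) (.e (nat_lit 57854) (nat_lit 252) (.e (nat_lit 57442) (nat_lit 18) (.e (nat_lit 385081) (nat_lit 38) (.e (nat_lit 688185) (nat_lit 18) .nil))))))) (.g (nat_lit 4) .nil .nil)))) (.nd (nat_lit 5) 
(.lf (nat_lit 210066) (.g (nat_lit 2487) (.e (nat_lit 81950) (nat_lit 21) (.e (nat_lit 57844) (nat_lit 252) (.e (nat_lit 57389) (nat_lit 5) (.e (nat_lit 114698) (nat_lit 11) (.e (nat_lit 426107) (nat_lit 1) .nil))))) .nil)) 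
(.lf (nat_lit 210098) (.g (nat_lit 947) (.e (nat_lit 81950) (nat_lit 21) (.e (nat_lit 57849) (nat_lit 252) (.e (nat_lit 57363) (nat_lit 1) .nil))) .nil)))) (.nd (nat_lit 4) (.nd (nat_lit 5) 
(.lf (nat_lit 210058) (.g (nat_lit 1870) (.e (nat_lit 81950) (nat_lit 21) (.e (nat_lit 57684) (nat_lit 155) (.e (nat_lit 122919) (nat_lit 15) (.e (nat_lit 360451) (nat_lit 0) (.e (nat_lit 7119) (nat_lit 382) .nil))))) .nil)) 
(.lf (nat_lit 210090) (.g (nat_lit 2778) (.e (nat_lit 81950) (nat_lit 21) (.e (nat_lit 57848) (nat_lit 252) (.e (nat_lit 57367) (nat_lit 1) (.e (nat_lit 57847) (nat_lit 252) (.e (nat_lit 57411) (nat_lit 12) (.e (nat_lit 336240) (nat_lit 15) (.e (nat_lit 3453) (nat_lit 216) (.e (nat_lit 688186) (nat_lit 18) .nil)))))))) (.g (nat_lit 5) .nil .nil)))) (.nd (nat_lit 5) 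
(.lf (nat_lit 210074) (.g (nat_lit 3760) (.e (nat_lit 81950) (nat_lit 21) (.e (nat_lit 57847) (nat_lit 252) (.e (nat_lit 57365) (nat_lit 1) (.e (nat_lit 57852) (nat_lit 252) (.e (nat_lit 57421) (nat_lit 13) (.e (nat_lit 344144) (nat_lit 31) (.e (nat_lit 598041) (nat_lit 10) .nil))))))) (.g (nat_lit 5) .nil .nil))) 
(.lf (nat_lit 210106) (.g (nat_lit 2474) (.e (nat_lit 81950) (nat_lit 21) (.e (nat_lit 57849) (nat_lit 252) (.e (nat_lit 57365) (nat_lit 1) (.e (nat_lit 57854) (nat_lit 252) (.e (nat_lit 57442) (nat_lit 18) (.e (nat_lit 385081) (nat_lit 38) (.e (nat_lit 688185) (nat_lit 18) .nil))))))) (.g (nat_lit 4) .nil .nil)))))) (.nd (nat_lit 3) (.nd (nat_lit 4) (.nd (nat_lit 5) 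
(.lf (nat_lit 210054) (.g (nat_lit 1274) (.e (nat_lit 81950) (nat_lit 21) (.e (nat_lit 57684) (nat_lit 155) (.e (nat_lit 122917) (nat_lit 15) (.e (nat_lit 360457) (nat_lit 0) (.e (nat_lit 7936) (nat_lit 382) .nil))))) .nil)) 
(.lf (nat_lit 210086) (.g (nat_lit 3020) (.e (nat_lit 81950) (nat_lit 21) (.e (nat_lit 57847) (nat_lit 252) (.e (nat_lit 57368) (nat_lit 1) (.e (nat_lit 57854) (nat_lit 252) (.e (nat_lit 57442) (nat_lit 18) (.e (nat_lit 385081) (nat_lit 38) (.e (nat_lit 688185) (nat_lit 18) .nil))))))) (.g (nat_lit 4) .nil .nil)))) (.nd (nat_lit 5) 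
(.lf (nat_lit 210070) (.g (nat_lit 2435) (.e (nat_lit 81950) (nat_lit 21) (.e (nat_lit 57846) (nat_lit 252) (.e (nat_lit 57388) (nat_lit 5) (.e (nat_lit 114698) (nat_lit 11) (.e (nat_lit 426107) (nat_lit 1) .nil))))) .nil)) 
(.lf (nat_lit 210102) (.g (nat_lit 2977) (.e (nat_lit 81950) (nat_lit 21) (.e (nat_lit 57849) (nat_lit 252) (.e (nat_lit 57365) (nat_lit 1) (.e (nat_lit 57852) (nat_lit 252) (.e (nat_lit 57421) (nat_lit 13) (.e (nat_lit 344144) (nat_lit 31) (.e (nat_lit 598041) (nat_lit 10) .nil))))))) (.g (nat_lit 4) .nil .nil))))) (.nd (nat_lit 4) (.nd (nat_lit 5) 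
(.lf (nat_lit 210062) (.g (nat_lit 820) (.e (nat_lit 81950) (nat_lit 21) (.e (nat_lit 57684) (nat_lit 155) (.e (nat_lit 122919) (nat_lit 15) (.e (nat_lit 360488) (nat_lit 20) .nil)))) .nil)) 
(.lf (nat_lit 210094) (.g (nat_lit 2569) (.e (nat_lit 81950) (nat_lit 21) (.e (nat_lit 57848) (nat_lit 252) (.e (nat_lit 57368) (nat_lit 1) (.e (nat_lit 57854) (nat_lit 252) (.e (nat_lit 57420) (nat_lit 13) (.e (nat_lit 344144) (nat_lit 31) (.e (nat_lit 598041) (nat_lit 10) .nil))))))) (.g (nat_lit 4) .nil .nil)))) (.nd (nat_lit 5) 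
(.lf (nat_lit 210078) (.g (nat_lit 2930) (.e (nat_lit 81950) (nat_lit 21) (.e (nat_lit 57847) (nat_lit 252) (.e (nat_lit 57365) (nat_lit 1) (.e (nat_lit 57854) (nat_lit 252) (.e (nat_lit 57409) (nat_lit 12) (.e (nat_lit 335878) (nat_lit 0) (.e (nat_lit 1912) (nat_lit 129) (.e (nat_lit 598041) (nat_lit 10) .nil)))))))) (.g (nat_lit 4) .nil .nil))) 
(.lf (nat_lit 210110) (.g (nat_lit 3060) (.e (nat_lit 81950) (nat_lit 21) (.e (nat_lit 57849) (nat_lit 252) (.e (nat_lit 57367) (nat_lit 1) (.e (nat_lit 57847) (nat_lit 252) (.e (nat_lit 57411) (nat_lit 12) (.e (nat_lit 336240) (nat_lit 15) (.e (nat_lit 3453) (nat_lit 216) (.e (nat_lit 688186) (nat_lit 18) .nil)))))))) (.g (nat_lit 5) .nil .nil)))))))) 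
(.nd (nat_lit 1) (.nd (nat_lit 2) (.nd (nat_lit 3) (.nd (nat_lit 4) (.nd (nat_lit 5) 
(.lf (nat_lit 210049) (.g (nat_lit 2245) (.e (nat_lit 81950) (nat_lit 21) (.e (nat_lit 57684) (nat_lit 155) (.e (nat_lit 122916) (nat_lit 14) (.e (nat_lit 352309) (nat_lit 21) (.e (nat_lit 57666) (nat_lit 152) .nil))))) .nil)) 
(.lf (nat_lit 210081) (.g (nat_lit 2446) (.e (nat_lit 81950) (nat_lit 21) (.e (nat_lit 57847) (nat_lit 252) (.e (nat_lit 57365) (nat_lit 1) (.e (nat_lit 57854) (nat_lit 252) (.e (nat_lit 57442) (nat_lit 18) .nil))))) .nil))) (.nd (nat_lit 5) 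
(.lf (nat_lit 210065) (.g (nat_lit 1909) (.e (nat_lit 81950) (nat_lit 21) (.e (nat_lit 57844) (nat_lit 252) (.e (nat_lit 57364) (nat_lit 1) (.e (nat_lit 57852) (nat_lit 252) (.e (nat_lit 57421) (nat_lit 13) (.e (nat_lit 344144) (nat_lit 31) (.e (nat_lit 598041) (nat_lit 10) .nil))))))) (.g (nat_lit 4) .nil .nil))) 
(.lf (nat_lit 210097) (.g (nat_lit 2660) (.e (nat_lit 81950) (nat_lit 21) (.e (nat_lit 57848) (nat_lit 252) (.e (nat_lit 57368) (nat_lit 1) (.e (nat_lit 57854) (nat_lit 252) (.e (nat_lit 57442) (nat_lit 18) (.e (nat_lit 385081) (nat_lit 38) (.e (nat_lit 688186) (nat_lit 18) .nil))))))) (.g (nat_lit 4) .nil .nil))))) (.nd (nat_lit 4) (.nd (nat_lit 5) 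
(.lf (nat_lit 210057) (.g (nat_lit 2476) (.e (nat_lit 81950) (nat_lit 21) (.e (nat_lit 57684) (nat_lit 155) (.e (nat_lit 122919) (nat_lit 15) (.e (nat_lit 360450) (nat_lit 0) (.e (nat_lit 7122) (nat_lit 382) (.e (nat_lit 7936) (nat_lit 90) .nil)))))) (.g (nat_lit 5) .nil .nil))) 
(.lf (nat_lit 210089) (.g (nat_lit 2782) (.e (nat_lit 81950) (nat_lit 21) (.e (nat_lit 57848) (nat_lit 252) (.e (nat_lit 57367) (nat_lit 1) (.e (nat_lit 57847) (nat_lit 252) (.e (nat_lit 57411) (nat_lit 12) (.e (nat_lit 336240) (nat_lit 15) (.e (nat_lit 3453) (nat_lit 216) (.e (nat_lit 688185) (nat_lit 18) .nil)))))))) (.g (nat_lit 5) .nil .nil)))) (.nd (nat_lit 5) 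
(.lf (nat_lit 210073) (.g (nat_lit 3294) (.e (nat_lit 81950) (nat_lit 21) (.e (nat_lit 57847) (nat_lit 252) (.e (nat_lit 57365) (nat_lit 1) (.e (nat_lit 57851) (nat_lit 252) (.e (nat_lit 57421) (nat_lit 13) (.e (nat_lit 344144) (nat_lit 31) (.e (nat_lit 598041) (nat_lit 10) .nil))))))) (.g (nat_lit 5) .nil .nil))) 
(.lf (nat_lit 210105) (.g (nat_lit 4322) (.e (nat_lit 81950) (nat_lit 21) (.e (nat_lit 57849) (nat_lit 252) (.e (nat_lit 57365) (nat_lit 1) (.e (nat_lit 57854) (nat_lit 252) (.e (nat_lit 57409) (nat_lit 12) (.e (nat_lit 336240) (nat_lit 15) (.e (nat_lit 3453) (nat_lit 216) (.e (nat_lit 688185) (nat_lit 18) .nil)))))))) (.g (nat_lit 6) .nil .nil)))))) 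
(.nd (nat_lit 3) (.nd (nat_lit 4) (.nd (nat_lit 5) 
(.lf (nat_lit 210053) (.g (nat_lit 2027) (.e (nat_lit 81950) (nat_lit 21) (.e (nat_lit 57684) (nat_lit 155) (.e (nat_lit 122917) (nat_lit 15) (.e (nat_lit 360453) (nat_lit 0) (.e (nat_lit 7147) (nat_lit 382) (.e (nat_lit 1216) (nat_lit 90) .nil)))))) (.g (nat_lit 0) .nil .nil))) 
(.lf (nat_lit 210085) (.g (nat_lit 4491) (.e (nat_lit 81950) (nat_lit 21) (.e (nat_lit 57847) (nat_lit 252) (.e (nat_lit 57368) (nat_lit 1) (.e (nat_lit 57854) (nat_lit 252) (.e (nat_lit 57409) (nat_lit 12) (.e (nat_lit 336240) (nat_lit 15) (.e (nat_lit 3453) (nat_lit 216) (.e (nat_lit 688186) (nat_lit 18) .nil)))))))) (.g (nat_lit 5) .nil .nil)))) (.nd (nat_lit 5) 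
(.lf (nat_lit 210069) (.g (nat_lit 3151) (.e (nat_lit 81950) (nat_lit 21) (.e (nat_lit 57846) (nat_lit 252) (.e (nat_lit 57365) (nat_lit 1) (.e (nat_lit 57854) (nat_lit 252) (.e (nat_lit 57409) (nat_lit 12) (.e (nat_lit 336240) (nat_lit 15) (.e (nat_lit 3453) (nat_lit 216) (.e (nat_lit 688186) (nat_lit 18) .nil)))))))) (.g (nat_lit 5) .nil .nil))) 
(.lf (nat_lit 210101) (.g (nat_lit 2611) (.e (nat_lit 81950) (nat_lit 21) (.e (nat_lit 57849) (nat_lit 252) (.e (nat_lit 57365) (nat_lit 1) (.e (nat_lit 57851) (nat_lit 252) (.e (nat_lit 57421) (nat_lit 13) (.e (nat_lit 344144) (nat_lit 31) (.e (nat_lit 598041) (nat_lit 10) .nil))))))) (.g (nat_lit 4) .nil .nil))))) (.nd (nat_lit 4) (.nd (nat_lit 5) 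
(.lf (nat_lit 210061) (.g (nat_lit 1308) (.e (nat_lit 81950) (nat_lit 21) (.e (nat_lit 57684) (nat_lit 155) (.e (nat_lit 122919) (nat_lit 15) (.e (nat_lit 360457) (nat_lit 0) (.e (nat_lit 7936) (nat_lit 382) .nil))))) .nil)) 
(.lf (nat_lit 210093) (.g (nat_lit 2794) (.e (nat_lit 81950) (nat_lit 21) (.e (nat_lit 57848) (nat_lit 252) (.e (nat_lit 57368) (nat_lit 1) (.e (nat_lit 57854) (nat_lit 252) (.e (nat_lit 57406) (nat_lit 12) (.e (nat_lit 336240) (nat_lit 15) (.e (nat_lit 3453) (nat_lit 216) (.e (nat_lit 688185) (nat_lit 18) .nil)))))))) (.g (nat_lit 5) .nil .nil)))) (.nd (nat_lit 5) 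
(.lf (nat_lit 210077) (.g (nat_lit 2930) (.e (nat_lit 81950) (nat_lit 21) (.e (nat_lit 57847) (nat_lit 252) (.e (nat_lit 57365) (nat_lit 1) (.e (nat_lit 57854) (nat_lit 252) (.e (nat_lit 57406) (nat_lit 12) (.e (nat_lit 336240) (nat_lit 15) (.e (nat_lit 3453) (nat_lit 216) (.e (nat_lit 688186) (nat_lit 18) .nil)))))))) (.g (nat_lit 4) .nil .nil))) 
(.lf (nat_lit 210109) (.g (nat_lit 3139) (.e (nat_lit 81950) (nat_lit 21) (.e (nat_lit 57849) (nat_lit 252) (.e (nat_lit 57367) (nat_lit 1) (.e (nat_lit 57847) (nat_lit 252) (.e (nat_lit 57411) (nat_lit 12) (.e (nat_lit 336240) (nat_lit 15) (.e (nat_lit 3453) (nat_lit 216) (.e (nat_lit 688185) (nat_lit 18) .nil)))))))) (.g (nat_lit 5) .nil .nil))))))) 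
(.nd (nat_lit 2) (.nd (nat_lit 3) (.nd (nat_lit 4) (.nd (nat_lit 5) 
(.lf (nat_lit 210051) (.g (nat_lit 2049) (.e (nat_lit 81950) (nat_lit 21) (.e (nat_lit 57684) (nat_lit 155) (.e (nat_lit 122917) (nat_lit 15) (.e (nat_lit 360449) (nat_lit 0) (.e (nat_lit 7122) (nat_lit 382) (.e (nat_lit 7936) (nat_lit 90) .nil)))))) (.g (nat_lit 5) .nil .nil))) 
(.lf (nat_lit 210083) (.g (nat_lit 965) (.e (nat_lit 81950) (nat_lit 21) (.e (nat_lit 57847) (nat_lit 252) (.e (nat_lit 57367) (nat_lit 1) .nil))) .nil))) (.nd (nat_lit 5) 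
(.lf (nat_lit 210067) (.g (nat_lit 634) (.e (nat_lit 81950) (nat_lit 21) (.e (nat_lit 57846) (nat_lit 252) (.e (nat_lit 57365) (nat_lit 1) .nil))) .nil)) 
(.lf (nat_lit 210099) (.g (nat_lit 3186) (.e (nat_lit 81950) (nat_lit 21) (.e (nat_lit 57849) (nat_lit 252) (.e (nat_lit 57363) (nat_lit 1) (.e (nat_lit 57847) (nat_lit 252) (.e (nat_lit 57411) (nat_lit 12) (.e (nat_lit 336240) (nat_lit 15) (.e (nat_lit 3453) (nat_lit 216) (.e (nat_lit 688185) (nat_lit 18) .nil)))))))) (.g (nat_lit 5) .nil .nil))))) (.nd (nat_lit 4) (.nd (nat_lit 5) 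
(.lf (nat_lit 210059) (.g (nat_lit 2399) (.e (nat_lit 81950) (nat_lit 21) (.e (nat_lit 57684) (nat_lit 155) (.e (nat_lit 122919) (nat_lit 15) (.e (nat_lit 360451) (nat_lit 0) (.e (nat_lit 7122) (nat_lit 382) (.e (nat_lit 7936) (nat_lit 90) .nil)))))) (.g (nat_lit 4) .nil .nil))) 
(.lf (nat_lit 210091) (.g (nat_lit 2314) (.e (nat_lit 81950) (nat_lit 21) (.e (nat_lit 57848) (nat_lit 252) (.e (nat_lit 57368) (nat_lit 1) (.e (nat_lit 57854) (nat_lit 252) (.e (nat_lit 57405) (nat_lit 12) (.e (nat_lit 336240) (nat_lit 15) (.e (nat_lit 3453) (nat_lit 216) (.e (nat_lit 688185) (nat_lit 18) .nil)))))))) (.g (nat_lit 4) .nil .nil)))) (.nd (nat_lit 5) 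
(.lf (nat_lit 210075) (.g (nat_lit 1495) (.e (nat_lit 81950) (nat_lit 21) (.e (nat_lit 57847) (nat_lit 252) (.e (nat_lit 57365) (nat_lit 1) (.e (nat_lit 57854) (nat_lit 252) .nil)))) .nil)) 
(.lf (nat_lit 210107) (.g (nat_lit 873) (.e (nat_lit 81950) (nat_lit 21) (.e (nat_lit 57849) (nat_lit 252) (.e (nat_lit 57367) (nat_lit 1) .nil))) .nil))))) (.nd (nat_lit 3) (.nd (nat_lit 4) (.nd (nat_lit 5) 
(.lf (nat_lit 210055) (.g (nat_lit 705) (.e (nat_lit 81950) (nat_lit 21) (.e (nat_lit 57684) (nat_lit 155) (.e (nat_lit 122917) (nat_lit 15) (.e (nat_lit 368384) (nat_lit 20) .nil)))) .nil)) 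
(.lf (nat_lit 210087) (.g (nat_lit 2925) (.e (nat_lit 81950) (nat_lit 21) (.e (nat_lit 57848) (nat_lit 252) (.e (nat_lit 57365) (nat_lit 1) (.e (nat_lit 57852) (nat_lit 252) (.e (nat_lit 57421) (nat_lit 13) (.e (nat_lit 344144) (nat_lit 31) (.e (nat_lit 598041) (nat_lit 10) .nil))))))) (.g (nat_lit 5) .nil .nil)))) (.nd (nat_lit 5) 
(.lf (nat_lit 210071) (.g (nat_lit 763) (.e (nat_lit 81950) (nat_lit 21) (.e (nat_lit 57847) (nat_lit 252) (.e (nat_lit 57365) (nat_lit 1) .nil))) .nil)) 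
(.lf (nat_lit 210103) (.g (nat_lit 2338) (.e (nat_lit 81950) (nat_lit 21) (.e (nat_lit 57849) (nat_lit 252) (.e (nat_lit 57365) (nat_lit 1) (.e (nat_lit 57854) (nat_lit 252) (.e (nat_lit 57406) (nat_lit 12) (.e (nat_lit 336240) (nat_lit 15) (.e (nat_lit 3453) (nat_lit 216) (.e (nat_lit 688185) (nat_lit 18) .nil)))))))) (.g (nat_lit 4) .nil .nil))))) (.nd (nat_lit 4) (.nd (nat_lit 5) 
(.lf (nat_lit 210063) (.g (nat_lit 743) (.e (nat_lit 81950) (nat_lit 21) (.e (nat_lit 57684) (nat_lit 155) (.e (nat_lit 122919) (nat_lit 15) (.e (nat_lit 368384) (nat_lit 20) .nil)))) .nil)) 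
(.lf (nat_lit 210095) (.g (nat_lit 2703) (.e (nat_lit 81950) (nat_lit 21) (.e (nat_lit 57848) (nat_lit 252) (.e (nat_lit 57368) (nat_lit 1) (.e (nat_lit 57854) (nat_lit 252) (.e (nat_lit 57421) (nat_lit 13) (.e (nat_lit 344144) (nat_lit 31) (.e (nat_lit 598041) (nat_lit 10) .nil))))))) (.g (nat_lit 4) .nil .nil)))) (.nd (nat_lit 5) 
(.lf (nat_lit 210079) (.g (nat_lit 2755) (.e (nat_lit 81950) (nat_lit 21) (.e (nat_lit 57847) (nat_lit 252) (.e (nat_lit 57365) (nat_lit 1) (.e (nat_lit 57854) (nat_lit 252) (.e (nat_lit 57409) (nat_lit 12) (.e (nat_lit 336240) (nat_lit 15) (.e (nat_lit 3455) (nat_lit 216) (.e (nat_lit 688185) (nat_lit 18) .nil)))))))) (.g (nat_lit 4) .nil .nil))) 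
(.lf (nat_lit 210111) (.g (nat_lit 848) (.e (nat_lit 81950) (nat_lit 21) (.e (nat_lit 57849) (nat_lit 252) (.e (nat_lit 57368) (nat_lit 1) .nil))) .nil))))))))

noncomputable def tv2777 : DT := (.nd (nat_lit 0) (.nd (nat_lit 1) (.nd (nat_lit 2) (.nd (nat_lit 3) (.nd (nat_lit 4) (.nd (nat_lit 5) 
(.lf (nat_lit 210112) (.g (nat_lit 2965) (.e (nat_lit 81950) (nat_lit 21) (.e (nat_lit 57849) (nat_lit 252) (.e (nat_lit 57368) (nat_lit 1) (.e (nat_lit 57852) (nat_lit 252) (.e (nat_lit 57421) (nat_lit 13) (.e (nat_lit 344144) (nat_lit 31) (.e (nat_lit 598041) (nat_lit 10) .nil))))))) (.g (nat_lit 4) .nil .nil))) 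
(.lf (nat_lit 210144) (.g (nat_lit 756) (.e (nat_lit 81950) (nat_lit 21) (.e (nat_lit 57870) (nat_lit 264) (.e (nat_lit 1219) (nat_lit 90) (.e (nat_lit 81946) (nat_lit 20) .nil)))) .nil))) (.nd (nat_lit 5) 
(.lf (nat_lit 210128) (.g (nat_lit 1275) (.e (nat_lit 81950) (nat_lit 21) (.e (nat_lit 57857) (nat_lit 254) (.e (nat_lit 163920) (nat_lit 14) (.e (nat_lit 442411) (nat_lit 20) .nil)))) .nil)) 
(.lf (nat_lit 210160) (.g (nat_lit 2207) (.e (nat_lit 81950) (nat_lit 21) (.e (nat_lit 57871) (nat_lit 264) (.e (nat_lit 1190) (nat_lit 88) (.e (nat_lit 65623) (nat_lit 12) (.e (nat_lit 385094) (nat_lit 49) (.e (nat_lit 778326) (nat_lit 6) .nil)))))) (.g (nat_lit 5) .nil .nil))))) (.nd (nat_lit 4) (.nd (nat_lit 5) 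
(.lf (nat_lit 210120) (.g (nat_lit 2734) (.e (nat_lit 81950) (nat_lit 21) (.e (nat_lit 57849) (nat_lit 252) (.e (nat_lit 57388) (nat_lit 5) (.e (nat_lit 114698) (nat_lit 11) (.e (nat_lit 426107) (nat_lit 1) .nil))))) .nil)) 
(.lf (nat_lit 210152) (.g (nat_lit 894) (.e (nat_lit 81950) (nat_lit 21) (.e (nat_lit 57870) (nat_lit 264) (.e (nat_lit 1221) (nat_lit 90) (.e (nat_lit 89856) (nat_lit 4) .nil)))) .nil))) (.nd (nat_lit 5) 
(.lf (nat_lit 210136) (.g (nat_lit 2298) (.e (nat_lit 81950) (nat_lit 21) (.e (nat_lit 57870) (nat_lit 264) (.e (nat_lit 1189) (nat_lit 88) (.e (nat_lit 65624) (nat_lit 12) (.e (nat_lit 385092) (nat_lit 49) (.e (nat_lit 778326) (nat_lit 6) .nil)))))) (.g (nat_lit 5) .nil .nil))) 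
(.lf (nat_lit 210168) (.g (nat_lit 1957) (.e (nat_lit 81950) (nat_lit 21) (.e (nat_lit 57871) (nat_lit 264) (.e (nat_lit 1220) (nat_lit 90) (.e (nat_lit 81950) (nat_lit 21) (.e (nat_lit 57870) (nat_lit 264) (.e (nat_lit 1219) (nat_lit 90) .nil)))))) (.g (nat_lit 4) .nil .nil)))))) (.nd (nat_lit 3) (.nd (nat_lit 4) (.nd (nat_lit 5) 
(.lf (nat_lit 210116) (.g (nat_lit 2496) (.e (nat_lit 81950) (nat_lit 21) (.e (nat_lit 57849) (nat_lit 252) (.e (nat_lit 57368) (nat_lit 1) (.e (nat_lit 57854) (nat_lit 252) (.e (nat_lit 57420) (nat_lit 13) .nil))))) .nil)) 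
(.lf (nat_lit 210148) (.g (nat_lit 1954) (.e (nat_lit 81950) (nat_lit 21) (.e (nat_lit 57870) (nat_lit 264) (.e (nat_lit 1220) (nat_lit 90) (.e (nat_lit 81950) (nat_lit 21) (.e (nat_lit 57871) (nat_lit 264) (.e (nat_lit 1219) (nat_lit 90) .nil)))))) (.g (nat_lit 4) .nil .nil)))) (.nd (nat_lit 5) 
(.lf (nat_lit 210132) (.g (nat_lit 1839) (.e (nat_lit 81950) (nat_lit 21) (.e (nat_lit 57857) (nat_lit 254) (.e (nat_lit 163920) (nat_lit 14) (.e (nat_lit 442430) (nat_lit 24) (.e (nat_lit 229630) (nat_lit 226) (.e (nat_lit 1218) (nat_lit 90) .nil)))))) (.g (nat_lit 4) .nil .nil))) 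
(.lf (nat_lit 210164) (.g (nat_lit 138) (.e (nat_lit 81950) (nat_lit 21) (.e (nat_lit 57871) (nat_lit 264) (.e (nat_lit 1219) (nat_lit 90) .nil))) .nil)))) (.nd (nat_lit 4) (.nd (nat_lit 5) 
(.lf (nat_lit 210124) (.g (nat_lit 1334) (.e (nat_lit 81950) (nat_lit 21) (.e (nat_lit 57857) (nat_lit 254) (.e (nat_lit 163920) (nat_lit 14) (.e (nat_lit 442392) (nat_lit 20) .nil)))) .nil)) 
(.lf (nat_lit 210156) (.g (nat_lit 2434) (.e (nat_lit 81950) (nat_lit 21) (.e (nat_lit 57870) (nat_lit 264) (.e (nat_lit 1221) (nat_lit 90) (.e (nat_lit 81959) (nat_lit 24) (.e (nat_lit 123182) (nat_lit 264) (.e (nat_lit 1218) (nat_lit 90) .nil)))))) (.g (nat_lit 5) .nil .nil)))) (.nd (nat_lit 5) 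
(.lf (nat_lit 210140) (.g (nat_lit 2706) (.e (nat_lit 81950) (nat_lit 21) (.e (nat_lit 57870) (nat_lit 264) (.e (nat_lit 1190) (nat_lit 88) (.e (nat_lit 65624) (nat_lit 12) (.e (nat_lit 385093) (nat_lit 49) (.e (nat_lit 778326) (nat_lit 6) .nil)))))) (.g (nat_lit 5) .nil .nil))) 
(.lf (nat_lit 210172) (.g (nat_lit 854) (.e (nat_lit 81950) (nat_lit 21) (.e (nat_lit 57871) (nat_lit 264) (.e (nat_lit 1221) (nat_lit 90) (.e (nat_lit 81931) (nat_lit 20) .nil)))) .nil)))))) (.nd (nat_lit 2) (.nd (nat_lit 3) (.nd (nat_lit 4) (.nd (nat_lit 5) 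
(.lf (nat_lit 210114) (.g (nat_lit 2108) (.e (nat_lit 81950) (nat_lit 21) (.e (nat_lit 57849) (nat_lit 252) (.e (nat_lit 57368) (nat_lit 1) (.e (nat_lit 57854) (nat_lit 252) (.e (nat_lit 57405) (nat_lit 12) .nil))))) .nil)) 
(.lf (nat_lit 210146) (.g (nat_lit 1480) (.e (nat_lit 81950) (nat_lit 21) (.e (nat_lit 57870) (nat_lit 264) (.e (nat_lit 1220) (nat_lit 90) (.e (nat_lit 81948) (nat_lit 21) (.e (nat_lit 57871) (nat_lit 264) .nil))))) .nil))) (.nd (nat_lit 5) 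
(.lf (nat_lit 210130) (.g (nat_lit 1577) (.e (nat_lit 81950) (nat_lit 21) (.e (nat_lit 57857) (nat_lit 254) (.e (nat_lit 163920) (nat_lit 14) (.e (nat_lit 442430) (nat_lit 24) (.e (nat_lit 229627) (nat_lit 226) (.e (nat_lit 1223) (nat_lit 90) .nil)))))) (.g (nat_lit 4) .nil .nil))) 
(.lf (nat_lit 210162) (.g (nat_lit 1806) (.e (nat_lit 81950) (nat_lit 21) (.e (nat_lit 57871) (nat_lit 264) (.e (nat_lit 1200) (nat_lit 88) (.e (nat_lit 65604) (nat_lit 9) (.e (nat_lit 335997) (nat_lit 1) (.e (nat_lit 57870) (nat_lit 264) (.e (nat_lit 1219) (nat_lit 90) .nil))))))) (.g (nat_lit 4) .nil .nil))))) (.nd (nat_lit 4) (.nd (nat_lit 5) 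
(.lf (nat_lit 210122) (.g (nat_lit 1951) (.e (nat_lit 81950) (nat_lit 21) (.e (nat_lit 57857) (nat_lit 254) (.e (nat_lit 163920) (nat_lit 14) (.e (nat_lit 442374) (nat_lit 0) (.e (nat_lit 2024) (nat_lit 140) .nil))))) .nil)) 
(.lf (nat_lit 210154) (.g (nat_lit 2541) (.e (nat_lit 81950) (nat_lit 21) (.e (nat_lit 57870) (nat_lit 264) (.e (nat_lit 1221) (nat_lit 90) (.e (nat_lit 81950) (nat_lit 21) (.e (nat_lit 57873) (nat_lit 264) (.e (nat_lit 1219) (nat_lit 90) .nil)))))) (.g (nat_lit 5) .nil .nil)))) (.nd (nat_lit 5) 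
(.lf (nat_lit 210138) (.g (nat_lit 2520) (.e (nat_lit 81950) (nat_lit 21) (.e (nat_lit 57870) (nat_lit 264) (.e (nat_lit 1190) (nat_lit 88) (.e (nat_lit 65623) (nat_lit 12) (.e (nat_lit 385094) (nat_lit 49) (.e (nat_lit 778326) (nat_lit 6) .nil)))))) (.g (nat_lit 6) .nil .nil))) 
(.lf (nat_lit 210170) (.g (nat_lit 2875) (.e (nat_lit 81950) (nat_lit 21) (.e (nat_lit 57871) (nat_lit 264) (.e (nat_lit 1220) (nat_lit 90) (.e (nat_lit 81950) (nat_lit 21) (.e (nat_lit 57873) (nat_lit 264) (.e (nat_lit 1219) (nat_lit 90) .nil)))))) (.g (nat_lit 5) .nil .nil)))))) (.nd (nat_lit 3) (.nd (nat_lit 4) (.nd (nat_lit 5) 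
(.lf (nat_lit 210118) (.g (nat_lit 1963) (.e (nat_lit 81950) (nat_lit 21) (.e (nat_lit 57849) (nat_lit 252) (.e (nat_lit 57368) (nat_lit 1) (.e (nat_lit 57854) (nat_lit 252) (.e (nat_lit 57440) (nat_lit 18) .nil))))) .nil)) 
(.lf (nat_lit 210150) (.g (nat_lit 957) (.e (nat_lit 81950) (nat_lit 21) (.e (nat_lit 57870) (nat_lit 264) (.e (nat_lit 1221) (nat_lit 90) (.e (nat_lit 81923) (nat_lit 0) .nil)))) .nil))) (.nd (nat_lit 5) 
(.lf (nat_lit 210134) (.g (nat_lit 2263) (.e (nat_lit 81950) (nat_lit 21) (.e (nat_lit 57870) (nat_lit 264) (.e (nat_lit 1189) (nat_lit 88) (.e (nat_lit 65622) (nat_lit 12) (.e (nat_lit 385094) (nat_lit 49) (.e (nat_lit 778326) (nat_lit 6) .nil)))))) (.g (nat_lit 6) .nil .nil))) 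
(.lf (nat_lit 210166) (.g (nat_lit 1471) (.e (nat_lit 81950) (nat_lit 21) (.e (nat_lit 57871) (nat_lit 264) (.e (nat_lit 1220) (nat_lit 90) (.e (nat_lit 81948) (nat_lit 21) (.e (nat_lit 57870) (nat_lit 264) .nil))))) .nil)))) (.nd (nat_lit 4) (.nd (nat_lit 5) 
(.lf (nat_lit 210126) (.g (nat_lit 1259) (.e (nat_lit 81950) (nat_lit 21) (.e (nat_lit 57857) (nat_lit 254) (.e (nat_lit 163920) (nat_lit 14) (.e (nat_lit 442400) (nat_lit 20) .nil)))) .nil)) 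
(.lf (nat_lit 210158) (.g (nat_lit 1635) (.e (nat_lit 81950) (nat_lit 21) (.e (nat_lit 57870) (nat_lit 264) (.e (nat_lit 1221) (nat_lit 90) (.e (nat_lit 81959) (nat_lit 24) (.e (nat_lit 130816) (nat_lit 264) .nil))))) .nil))) (.nd (nat_lit 5) 
(.lf (nat_lit 210142) (.g (nat_lit 2792) (.e (nat_lit 81950) (nat_lit 21) (.e (nat_lit 57870) (nat_lit 264) (.e (nat_lit 1199) (nat_lit 88) (.e (nat_lit 65624) (nat_lit 12) (.e (nat_lit 385094) (nat_lit 49) (.e (nat_lit 778326) (nat_lit 6) .nil)))))) (.g (nat_lit 6) .nil .nil))) 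
(.lf (nat_lit 210174) (.g (nat_lit 1702) (.e (nat_lit 81950) (nat_lit 21) (.e (nat_lit 57871) (nat_lit 264) (.e (nat_lit 1221) (nat_lit 90) (.e (nat_lit 81938) (nat_lit 20) (.e (nat_lit 2006) (nat_lit 138) .nil))))) .nil))))))) (.nd (nat_lit 1) (.nd (nat_lit 2) (.nd (nat_lit 3) (.nd (nat_lit 4) (.nd (nat_lit 5) 
(.lf (nat_lit 210113) (.g (nat_lit 1180) (.e (nat_lit 81950) (nat_lit 21) (.e (nat_lit 57849) (nat_lit 252) (.e (nat_lit 57368) (nat_lit 1) (.e (nat_lit 57854) (nat_lit 252) .nil)))) .nil)) 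
(.lf (nat_lit 210145) (.g (nat_lit 1596) (.e (nat_lit 81950) (nat_lit 21) (.e (nat_lit 57870) (nat_lit 264) (.e (nat_lit 1219) (nat_lit 90) (.e (nat_lit 81946) (nat_lit 20) (.e (nat_lit 2005) (nat_lit 138) (.e (nat_lit 671764) (nat_lit 6) .nil)))))) (.g (nat_lit 4) .nil .nil)))) (.nd (nat_lit 5) 
(.lf (nat_lit 210129) (.g (nat_lit 1288) (.e (nat_lit 81950) (nat_lit 21) (.e (nat_lit 57857) (nat_lit 254) (.e (nat_lit 163920) (nat_lit 14) (.e (nat_lit 442412) (nat_lit 20) (.e (nat_lit 3391) (nat_lit 210) .nil))))) .nil)) 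
(.lf (nat_lit 210161) (.g (nat_lit 2379) (.e (nat_lit 81950) (nat_lit 21) (.e (nat_lit 57871) (nat_lit 264) (.e (nat_lit 1199) (nat_lit 88) (.e (nat_lit 65624) (nat_lit 12) (.e (nat_lit 385093) (nat_lit 49) (.e (nat_lit 778326) (nat_lit 6) .nil)))))) (.g (nat_lit 5) .nil .nil))))) (.nd (nat_lit 4) (.nd (nat_lit 5) 
(.lf (nat_lit 210121) (.g (nat_lit 2684) (.e (nat_lit 81950) (nat_lit 21) (.e (nat_lit 57854) (nat_lit 252) (.e (nat_lit 57389) (nat_lit 5) (.e (nat_lit 114698) (nat_lit 11) (.e (nat_lit 426107) (nat_lit 1) .nil))))) .nil)) 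
(.lf (nat_lit 210153) (.g (nat_lit 1002) (.e (nat_lit 81950) (nat_lit 21) (.e (nat_lit 57870) (nat_lit 264) (.e (nat_lit 1221) (nat_lit 90) (.e (nat_lit 81933) (nat_lit 20) .nil)))) .nil))) (.nd (nat_lit 5) 
(.lf (nat_lit 210137) (.g (nat_lit 2674) (.e (nat_lit 81950) (nat_lit 21) (.e (nat_lit 57870) (nat_lit 264) (.e (nat_lit 1189) (nat_lit 88) (.e (nat_lit 65624) (nat_lit 12) (.e (nat_lit 385094) (nat_lit 49) (.e (nat_lit 778326) (nat_lit 6) .nil)))))) (.g (nat_lit 6) .nil .nil))) 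
(.lf (nat_lit 210169) (.g (nat_lit 1949) (.e (nat_lit 81950) (nat_lit 21) (.e (nat_lit 57871) (nat_lit 264) (.e (nat_lit 1220) (nat_lit 90) (.e (nat_lit 81950) (nat_lit 21) (.e (nat_lit 57871) (nat_lit 264) (.e (nat_lit 1219) (nat_lit 90) .nil)))))) (.g (nat_lit 4) .nil .nil)))))) (.nd (nat_lit 3) (.nd (nat_lit 4) (.nd (nat_lit 5) 
(.lf (nat_lit 210117) (.g (nat_lit 2496) (.e (nat_lit 81950) (nat_lit 21) (.e (nat_lit 57849) (nat_lit 252) (.e (nat_lit 57368) (nat_lit 1) (.e (nat_lit 57854) (nat_lit 252) (.e (nat_lit 57421) (nat_lit 13) .nil))))) .nil)) 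
(.lf (nat_lit 210149) (.g (nat_lit 2876) (.e (nat_lit 81950) (nat_lit 21) (.e (nat_lit 57870) (nat_lit 264) (.e (nat_lit 1220) (nat_lit 90) (.e (nat_lit 81950) (nat_lit 21) (.e (nat_lit 57873) (nat_lit 264) (.e (nat_lit 1219) (nat_lit 90) .nil)))))) (.g (nat_lit 5) .nil .nil)))) (.nd (nat_lit 5) 
(.lf (nat_lit 210133) (.g (nat_lit 2260) (.e (nat_lit 81950) (nat_lit 21) (.e (nat_lit 57870) (nat_lit 264) (.e (nat_lit 1189) (nat_lit 88) (.e (nat_lit 65622) (nat_lit 12) (.e (nat_lit 385093) (nat_lit 49) (.e (nat_lit 778326) (nat_lit 6) .nil)))))) (.g (nat_lit 6) .nil .nil))) 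
(.lf (nat_lit 210165) (.g (nat_lit 1518) (.e (nat_lit 81950) (nat_lit 21) (.e (nat_lit 57871) (nat_lit 264) (.e (nat_lit 1219) (nat_lit 90) (.e (nat_lit 81946) (nat_lit 20) (.e (nat_lit 2005) (nat_lit 138) (.e (nat_lit 671764) (nat_lit 6) .nil)))))) (.g (nat_lit 4) .nil .nil))))) (.nd (nat_lit 4) (.nd (nat_lit 5) 
(.lf (nat_lit 210125) (.g (nat_lit 1188) (.e (nat_lit 81950) (nat_lit 21) (.e (nat_lit 57857) (nat_lit 254) (.e (nat_lit 163920) (nat_lit 14) (.e (nat_lit 442396) (nat_lit 20) .nil)))) .nil)) 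
(.lf (nat_lit 210157) (.g (nat_lit 1557) (.e (nat_lit 81950) (nat_lit 21) (.e (nat_lit 57870) (nat_lit 264) (.e (nat_lit 1221) (nat_lit 90) (.e (nat_lit 81959) (nat_lit 24) (.e (nat_lit 123185) (nat_lit 264) .nil))))) .nil))) (.nd (nat_lit 5) 
(.lf (nat_lit 210141) (.g (nat_lit 2266) (.e (nat_lit 81950) (nat_lit 21) (.e (nat_lit 57870) (nat_lit 264) (.e (nat_lit 1199) (nat_lit 88) (.e (nat_lit 65622) (nat_lit 12) (.e (nat_lit 385093) (nat_lit 49) (.e (nat_lit 778326) (nat_lit 6) .nil)))))) (.g (nat_lit 5) .nil .nil))) 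
(.lf (nat_lit 210173) (.g (nat_lit 1710) (.e (nat_lit 81950) (nat_lit 21) (.e (nat_lit 57871) (nat_lit 264) (.e (nat_lit 1221) (nat_lit 90) (.e (nat_lit 81938) (nat_lit 20) (.e (nat_lit 2003) (nat_lit 138) .nil))))) .nil)))))) (.nd (nat_lit 2) (.nd (nat_lit 3) (.nd (nat_lit 4) (.nd (nat_lit 5) 
(.lf (nat_lit 210115) (.g (nat_lit 2323) (.e (nat_lit 81950) (nat_lit 21) (.e (nat_lit 57849) (nat_lit 252) (.e (nat_lit 57368) (nat_lit 1) (.e (nat_lit 57854) (nat_lit 252) (.e (nat_lit 57406) (nat_lit 12) (.e (nat_lit 336240) (nat_lit 15) (.e (nat_lit 3453) (nat_lit 216) (.e (nat_lit 688185) (nat_lit 18) .nil)))))))) (.g (nat_lit 4) .nil .nil))) 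
(.lf (nat_lit 210147) (.g (nat_lit 1962) (.e (nat_lit 81950) (nat_lit 21) (.e (nat_lit 57870) (nat_lit 264) (.e (nat_lit 1220) (nat_lit 90) (.e (nat_lit 81950) (nat_lit 21) (.e (nat_lit 57870) (nat_lit 264) (.e (nat_lit 1219) (nat_lit 90) .nil)))))) (.g (nat_lit 4) .nil .nil)))) (.nd (nat_lit 5) 
(.lf (nat_lit 210131) (.g (nat_lit 1901) (.e (nat_lit 81950) (nat_lit 21) (.e (nat_lit 57857) (nat_lit 254) (.e (nat_lit 163920) (nat_lit 14) (.e (nat_lit 442430) (nat_lit 24) (.e (nat_lit 229629) (nat_lit 226) (.e (nat_lit 1218) (nat_lit 90) .nil)))))) (.g (nat_lit 4) .nil .nil))) 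
(.lf (nat_lit 210163) (.g (nat_lit 1830) (.e (nat_lit 81950) (nat_lit 21) (.e (nat_lit 57871) (nat_lit 264) (.e (nat_lit 1200) (nat_lit 88) (.e (nat_lit 65604) (nat_lit 9) (.e (nat_lit 335997) (nat_lit 1) (.e (nat_lit 57871) (nat_lit 264) (.e (nat_lit 1219) (nat_lit 90) .nil))))))) (.g (nat_lit 4) .nil .nil))))) (.nd (nat_lit 4) (.nd (nat_lit 5) 
(.lf (nat_lit 210123) (.g (nat_lit 1422) (.e (nat_lit 81950) (nat_lit 21) (.e (nat_lit 57857) (nat_lit 254) (.e (nat_lit 163920) (nat_lit 14) (.e (nat_lit 442377) (nat_lit 0) (.e (nat_lit 2024) (nat_lit 140) .nil))))) .nil)) 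
(.lf (nat_lit 210155) (.g (nat_lit 2078) (.e (nat_lit 81950) (nat_lit 21) (.e (nat_lit 57870) (nat_lit 264) (.e (nat_lit 1221) (nat_lit 90) (.e (nat_lit 81959) (nat_lit 24) (.e (nat_lit 123181) (nat_lit 264) (.e (nat_lit 1217) (nat_lit 90) .nil)))))) (.g (nat_lit 4) .nil .nil)))) (.nd (nat_lit 5) 
(.lf (nat_lit 210139) (.g (nat_lit 2513) (.e (nat_lit 81950) (nat_lit 21) (.e (nat_lit 57870) (nat_lit 264) (.e (nat_lit 1190) (nat_lit 88) (.e (nat_lit 65624) (nat_lit 12) (.e (nat_lit 385092) (nat_lit 49) (.e (nat_lit 778326) (nat_lit 6) .nil)))))) (.g (nat_lit 5) .nil .nil))) 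
(.lf (nat_lit 210171) (.g (nat_lit 1851) (.e (nat_lit 81950) (nat_lit 21) (.e (nat_lit 57871) (nat_lit 264) (.e (nat_lit 1220) (nat_lit 90) (.e (nat_lit 81959) (nat_lit 24) (.e (nat_lit 123185) (nat_lit 264) (.e (nat_lit 1223) (nat_lit 90) .nil)))))) (.g (nat_lit 4) .nil .nil)))))) (.nd (nat_lit 3) (.nd (nat_lit 4) (.nd (nat_lit 5) 
(.lf (nat_lit 210119) (.g (nat_lit 2908) (.e (nat_lit 81950) (nat_lit 21) (.e (nat_lit 57849) (nat_lit 252) (.e (nat_lit 57368) (nat_lit 1) (.e (nat_lit 57854) (nat_lit 252) (.e (nat_lit 57442) (nat_lit 18) (.e (nat_lit 385081) (nat_lit 38) (.e (nat_lit 688185) (nat_lit 18) .nil))))))) (.g (nat_lit 4) .nil .nil))) 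
(.lf (nat_lit 210151) (.g (nat_lit 1243) (.e (nat_lit 81950) (nat_lit 21) (.e (nat_lit 57870) (nat_lit 264) (.e (nat_lit 1221) (nat_lit 90) (.e (nat_lit 81923) (nat_lit 0) (.e (nat_lit 3630) (nat_lit 227) .nil))))) .nil))) (.nd (nat_lit 5) 
(.lf (nat_lit 210135) (.g (nat_lit 2311) (.e (nat_lit 81950) (nat_lit 21) (.e (nat_lit 57870) (nat_lit 264) (.e (nat_lit 1189) (nat_lit 88) (.e (nat_lit 65623) (nat_lit 12) (.e (nat_lit 385094) (nat_lit 49) (.e (nat_lit 778326) (nat_lit 6) .nil)))))) (.g (nat_lit 6) .nil .nil))) 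
(.lf (nat_lit 210167) (.g (nat_lit 1471) (.e (nat_lit 81950) (nat_lit 21) (.e (nat_lit 57871) (nat_lit 264) (.e (nat_lit 1220) (nat_lit 90) (.e (nat_lit 81948) (nat_lit 21) (.e (nat_lit 57871) (nat_lit 264) .nil))))) .nil)))) (.nd (nat_lit 4) (.nd (nat_lit 5) 
(.lf (nat_lit 210127) (.g (nat_lit 1334) (.e (nat_lit 81950) (nat_lit 21) (.e (nat_lit 57857) (nat_lit 254) (.e (nat_lit 163920) (nat_lit 14) (.e (nat_lit 442401) (nat_lit 20) .nil)))) .nil)) 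
(.lf (nat_lit 210159) (.g (nat_lit 1274) (.e (nat_lit 81950) (nat_lit 21) (.e (nat_lit 57871) (nat_lit 264) (.e (nat_lit 1190) (nat_lit 88) (.e (nat_lit 65604) (nat_lit 9) (.e (nat_lit 335907) (nat_lit 0) .nil))))) .nil))) (.nd (nat_lit 5) 
(.lf (nat_lit 210143) (.g (nat_lit 692) (.e (nat_lit 81950) (nat_lit 21) (.e (nat_lit 57870) (nat_lit 264) (.e (nat_lit 1219) (nat_lit 90) (.e (nat_lit 89856) (nat_lit 4) .nil)))) .nil)) 
(.lf (nat_lit 210175) (.g (nat_lit 731) (.e (nat_lit 81950) (nat_lit 21) (.e (nat_lit 57871) (nat_lit 264) (.e (nat_lit 1221) (nat_lit 90) (.e (nat_lit 81947) (nat_lit 20) .nil)))) .nil))))))))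

noncomputable def tv2778 : DT := (.nd (nat_lit 0) (.nd (nat_lit 1) (.nd (nat_lit 2) (.nd (nat_lit 3) (.nd (nat_lit 4) (.nd (nat_lit 5) 
(.lf (nat_lit 210176) (.g (nat_lit 3432) (.e (nat_lit 81950) (nat_lit 21) (.e (nat_lit 57871) (nat_lit 264) (.e (nat_lit 1221) (nat_lit 90) (.e (nat_lit 81950) (nat_lit 21) (.e (nat_lit 57873) (nat_lit 264) (.e (nat_lit 1221) (nat_lit 90) .nil)))))) (.g (nat_lit 6) .nil .nil))) 
(.lf (nat_lit 210208) (.g (nat_lit 1336) (.e (nat_lit 81950) (nat_lit 21) (.e (nat_lit 57872) (nat_lit 264) (.e (nat_lit 1221) (nat_lit 90) (.e (nat_lit 81932) (nat_lit 20) .nil)))) .nil))) (.nd (nat_lit 5) 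
(.lf (nat_lit 210192) (.g (nat_lit 1612) (.e (nat_lit 81950) (nat_lit 21) (.e (nat_lit 57872) (nat_lit 264) (.e (nat_lit 1219) (nat_lit 90) (.e (nat_lit 81946) (nat_lit 20) (.e (nat_lit 2003) (nat_lit 138) .nil))))) .nil)) 
(.lf (nat_lit 210224) (.g (nat_lit 2095) (.e (nat_lit 81950) (nat_lit 21) (.e (nat_lit 57872) (nat_lit 264) (.e (nat_lit 1221) (nat_lit 90) (.e (nat_lit 81959) (nat_lit 24) (.e (nat_lit 123184) (nat_lit 264) (.e (nat_lit 7936) (nat_lit 90) .nil)))))) (.g (nat_lit 4) .nil .nil))))) (.nd (nat_lit 4) (.nd (nat_lit 5) 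
(.lf (nat_lit 210184) (.g (nat_lit 1976) (.e (nat_lit 81950) (nat_lit 21) (.e (nat_lit 57872) (nat_lit 264) (.e (nat_lit 1196) (nat_lit 88) (.e (nat_lit 65624) (nat_lit 12) (.e (nat_lit 385093) (nat_lit 49) (.e (nat_lit 778326) (nat_lit 6) .nil)))))) (.g (nat_lit 4) .nil .nil))) 
(.lf (nat_lit 210216) (.g (nat_lit 2320) (.e (nat_lit 81950) (nat_lit 21) (.e (nat_lit 57872) (nat_lit 264) (.e (nat_lit 1221) (nat_lit 90) (.e (nat_lit 81950) (nat_lit 21) (.e (nat_lit 57871) (nat_lit 264) (.e (nat_lit 1219) (nat_lit 90) .nil)))))) (.g (nat_lit 4) .nil .nil)))) (.nd (nat_lit 5) 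
(.lf (nat_lit 210200) (.g (nat_lit 2698) (.e (nat_lit 81950) (nat_lit 21) (.e (nat_lit 57872) (nat_lit 264) (.e (nat_lit 1220) (nat_lit 90) (.e (nat_lit 81950) (nat_lit 21) (.e (nat_lit 57872) (nat_lit 264) (.e (nat_lit 1219) (nat_lit 90) .nil)))))) (.g (nat_lit 4) .nil .nil))) 
(.lf (nat_lit 210232) (.g (nat_lit 1005) (.e (nat_lit 81950) (nat_lit 21) (.e (nat_lit 57873) (nat_lit 264) (.e (nat_lit 1190) (nat_lit 88) (.e (nat_lit 65616) (nat_lit 10) .nil)))) .nil))))) (.nd (nat_lit 3) (.nd (nat_lit 4) (.nd (nat_lit 5) 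
(.lf (nat_lit 210180) (.g (nat_lit 2541) (.e (nat_lit 81950) (nat_lit 21) (.e (nat_lit 57872) (nat_lit 264) (.e (nat_lit 1190) (nat_lit 88) (.e (nat_lit 65622) (nat_lit 12) (.e (nat_lit 385093) (nat_lit 49) (.e (nat_lit 778326) (nat_lit 6) .nil)))))) (.g (nat_lit 5) .nil .nil))) 
(.lf (nat_lit 210212) (.g (nat_lit 2979) (.e (nat_lit 81950) (nat_lit 21) (.e (nat_lit 57872) (nat_lit 264) (.e (nat_lit 1221) (nat_lit 90) (.e (nat_lit 81947) (nat_lit 20) (.e (nat_lit 2005) (nat_lit 138) (.e (nat_lit 671764) (nat_lit 6) .nil)))))) (.g (nat_lit 5) .nil .nil)))) (.nd (nat_lit 5) 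
(.lf (nat_lit 210196) (.g (nat_lit 2005) (.e (nat_lit 81950) (nat_lit 21) (.e (nat_lit 57872) (nat_lit 264) (.e (nat_lit 1219) (nat_lit 90) (.e (nat_lit 81957) (nat_lit 24) (.e (nat_lit 123184) (nat_lit 264) (.e (nat_lit 7936) (nat_lit 90) .nil)))))) (.g (nat_lit 5) .nil .nil))) 
(.lf (nat_lit 210228) (.g (nat_lit 534) (.e (nat_lit 81950) (nat_lit 21) (.e (nat_lit 57873) (nat_lit 264) (.e (nat_lit 992) (nat_lit 81) .nil))) .nil)))) (.nd (nat_lit 4) (.nd (nat_lit 5) 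
(.lf (nat_lit 210188) (.g (nat_lit 2078) (.e (nat_lit 81950) (nat_lit 21) (.e (nat_lit 57872) (nat_lit 264) (.e (nat_lit 1200) (nat_lit 88) (.e (nat_lit 65604) (nat_lit 9) (.e (nat_lit 335907) (nat_lit 0) (.e (nat_lit 1994) (nat_lit 137) (.e (nat_lit 663569) (nat_lit 6) .nil))))))) (.g (nat_lit 4) .nil .nil))) 
(.lf (nat_lit 210220) (.g (nat_lit 1987) (.e (nat_lit 81950) (nat_lit 21) (.e (nat_lit 57872) (nat_lit 264) (.e (nat_lit 1221) (nat_lit 90) (.e (nat_lit 81957) (nat_lit 24) (.e (nat_lit 123185) (nat_lit 264) .nil))))) .nil))) (.nd (nat_lit 5) 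
(.lf (nat_lit 210204) (.g (nat_lit 1326) (.e (nat_lit 81950) (nat_lit 21) (.e (nat_lit 57872) (nat_lit 264) (.e (nat_lit 1221) (nat_lit 90) (.e (nat_lit 81924) (nat_lit 0) .nil)))) .nil)) 
(.lf (nat_lit 210236) (.g (nat_lit 1531) (.e (nat_lit 81950) (nat_lit 21) (.e (nat_lit 57873) (nat_lit 264) (.e (nat_lit 1196) (nat_lit 88) (.e (nat_lit 65624) (nat_lit 12) (.e (nat_lit 385092) (nat_lit 49) .nil))))) .nil)))))) (.nd (nat_lit 2) (.nd (nat_lit 3) (.nd (nat_lit 4) (.nd (nat_lit 5) 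
(.lf (nat_lit 210178) (.g (nat_lit 2987) (.e (nat_lit 81950) (nat_lit 21) (.e (nat_lit 57872) (nat_lit 264) (.e (nat_lit 1188) (nat_lit 88) (.e (nat_lit 65624) (nat_lit 12) (.e (nat_lit 385093) (nat_lit 49) (.e (nat_lit 778326) (nat_lit 6) .nil)))))) (.g (nat_lit 5) .nil .nil))) 
(.lf (nat_lit 210210) (.g (nat_lit 2085) (.e (nat_lit 81950) (nat_lit 21) (.e (nat_lit 57872) (nat_lit 264) (.e (nat_lit 1221) (nat_lit 90) (.e (nat_lit 81947) (nat_lit 20) (.e (nat_lit 1023) (nat_lit 81) .nil))))) .nil))) (.nd (nat_lit 5) 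
(.lf (nat_lit 210194) (.g (nat_lit 3569) (.e (nat_lit 81950) (nat_lit 21) (.e (nat_lit 57872) (nat_lit 264) (.e (nat_lit 1219) (nat_lit 90) (.e (nat_lit 81948) (nat_lit 21) (.e (nat_lit 57873) (nat_lit 264) (.e (nat_lit 1221) (nat_lit 90) .nil)))))) (.g (nat_lit 0) .nil .nil))) 
(.lf (nat_lit 210226) (.g (nat_lit 2206) (.e (nat_lit 81950) (nat_lit 21) (.e (nat_lit 57872) (nat_lit 264) (.e (nat_lit 1221) (nat_lit 90) (.e (nat_lit 81959) (nat_lit 24) (.e (nat_lit 123188) (nat_lit 264) (.e (nat_lit 7936) (nat_lit 90) .nil)))))) (.g (nat_lit 4) .nil .nil))))) (.nd (nat_lit 4) (.nd (nat_lit 5) 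
(.lf (nat_lit 210186) (.g (nat_lit 2405) (.e (nat_lit 81950) (nat_lit 21) (.e (nat_lit 57872) (nat_lit 264) (.e (nat_lit 1199) (nat_lit 88) (.e (nat_lit 65622) (nat_lit 12) (.e (nat_lit 385093) (nat_lit 49) (.e (nat_lit 778326) (nat_lit 6) .nil)))))) (.g (nat_lit 5) .nil .nil))) 
(.lf (nat_lit 210218) (.g (nat_lit 3953) (.e (nat_lit 81950) (nat_lit 21) (.e (nat_lit 57872) (nat_lit 264) (.e (nat_lit 1221) (nat_lit 90) (.e (nat_lit 81950) (nat_lit 21) (.e (nat_lit 57873) (nat_lit 264) (.e (nat_lit 1221) (nat_lit 90) .nil)))))) (.g (nat_lit 0) .nil .nil)))) (.nd (nat_lit 5) 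
(.lf (nat_lit 210202) (.g (nat_lit 170) (.e (nat_lit 81950) (nat_lit 21) (.e (nat_lit 57872) (nat_lit 264) (.e (nat_lit 1221) (nat_lit 90) .nil))) .nil)) 
(.lf (nat_lit 210234) (.g (nat_lit 3787) (.e (nat_lit 81950) (nat_lit 21) (.e (nat_lit 57873) (nat_lit 264) (.e (nat_lit 1190) (nat_lit 88) (.e (nat_lit 65619) (nat_lit 10) (.e (nat_lit 344097) (nat_lit 18) (.e (nat_lit 5907) (nat_lit 320) (.e (nat_lit 1219) (nat_lit 90) .nil))))))) (.g (nat_lit 6) .nil .nil)))))) (.nd (nat_lit 3) (.nd (nat_lit 4) (.nd (nat_lit 5) 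
(.lf (nat_lit 210182) (.g (nat_lit 3071) (.e (nat_lit 81950) (nat_lit 21) (.e (nat_lit 57872) (nat_lit 264) (.e (nat_lit 1190) (nat_lit 88) (.e (nat_lit 65624) (nat_lit 12) (.e (nat_lit 385093) (nat_lit 49) (.e (nat_lit 778326) (nat_lit 6) .nil)))))) (.g (nat_lit 5) .nil .nil))) 
(.lf (nat_lit 210214) (.g (nat_lit 2590) (.e (nat_lit 81950) (nat_lit 21) (.e (nat_lit 57872) (nat_lit 264) (.e (nat_lit 1221) (nat_lit 90) (.e (nat_lit 81948) (nat_lit 21) (.e (nat_lit 57873) (nat_lit 264) (.e (nat_lit 1219) (nat_lit 90) .nil)))))) (.g (nat_lit 4) .nil .nil)))) (.nd (nat_lit 5) 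
(.lf (nat_lit 210198) (.g (nat_lit 1182) (.e (nat_lit 81950) (nat_lit 21) (.e (nat_lit 57872) (nat_lit 264) (.e (nat_lit 1219) (nat_lit 90) (.e (nat_lit 81959) (nat_lit 24) .nil)))) .nil)) 
(.lf (nat_lit 210230) (.g (nat_lit 534) (.e (nat_lit 81950) (nat_lit 21) (.e (nat_lit 57873) (nat_lit 264) (.e (nat_lit 1015) (nat_lit 81) .nil))) .nil)))) (.nd (nat_lit 4) (.nd (nat_lit 5) 
(.lf (nat_lit 210190) (.g (nat_lit 2026) (.e (nat_lit 81950) (nat_lit 21) (.e (nat_lit 57872) (nat_lit 264) (.e (nat_lit 1200) (nat_lit 88) (.e (nat_lit 65623) (nat_lit 12) (.e (nat_lit 385094) (nat_lit 49) (.e (nat_lit 778327) (nat_lit 6) .nil)))))) (.g (nat_lit 4) .nil .nil))) 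
(.lf (nat_lit 210222) (.g (nat_lit 2476) (.e (nat_lit 81950) (nat_lit 21) (.e (nat_lit 57872) (nat_lit 264) (.e (nat_lit 1221) (nat_lit 90) (.e (nat_lit 81959) (nat_lit 24) (.e (nat_lit 123181) (nat_lit 264) (.e (nat_lit 7936) (nat_lit 90) .nil)))))) (.g (nat_lit 5) .nil .nil)))) (.nd (nat_lit 5) 
(.lf (nat_lit 210206) (.g (nat_lit 1332) (.e (nat_lit 81950) (nat_lit 21) (.e (nat_lit 57872) (nat_lit 264) (.e (nat_lit 1221) (nat_lit 90) (.e (nat_lit 81930) (nat_lit 20) .nil)))) .nil)) 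
(.lf (nat_lit 210238) (.g (nat_lit 2925) (.e (nat_lit 81950) (nat_lit 21) (.e (nat_lit 57873) (nat_lit 264) (.e (nat_lit 1199) (nat_lit 88) (.e (nat_lit 65617) (nat_lit 10) (.e (nat_lit 344169) (nat_lit 40) (.e (nat_lit 671764) (nat_lit 6) .nil)))))) (.g (nat_lit 0) .nil .nil)))))))) (.nd (nat_lit 1) (.nd (nat_lit 2) (.nd (nat_lit 3) (.nd (nat_lit 4) (.nd (nat_lit 5) 
(.lf (nat_lit 210177) (.g (nat_lit 1893) (.e (nat_lit 81950) (nat_lit 21) (.e (nat_lit 57871) (nat_lit 264) (.e (nat_lit 1221) (nat_lit 90) (.e (nat_lit 81959) (nat_lit 24) (.e (nat_lit 123191) (nat_lit 264) .nil))))) .nil)) 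
(.lf (nat_lit 210209) (.g (nat_lit 1343) (.e (nat_lit 81950) (nat_lit 21) (.e (nat_lit 57872) (nat_lit 264) (.e (nat_lit 1221) (nat_lit 90) (.e (nat_lit 81937) (nat_lit 20) .nil)))) .nil))) (.nd (nat_lit 5) 
(.lf (nat_lit 210193) (.g (nat_lit 2393) (.e (nat_lit 81950) (nat_lit 21) (.e (nat_lit 57872) (nat_lit 264) (.e (nat_lit 1219) (nat_lit 90) (.e (nat_lit 81946) (nat_lit 20) (.e (nat_lit 2005) (nat_lit 138) (.e (nat_lit 671764) (nat_lit 6) .nil)))))) (.g (nat_lit 4) .nil .nil))) 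
(.lf (nat_lit 210225) (.g (nat_lit 2334) (.e (nat_lit 81950) (nat_lit 21) (.e (nat_lit 57872) (nat_lit 264) (.e (nat_lit 1221) (nat_lit 90) (.e (nat_lit 81959) (nat_lit 24) (.e (nat_lit 123185) (nat_lit 264) (.e (nat_lit 7936) (nat_lit 90) .nil)))))) (.g (nat_lit 5) .nil .nil))))) (.nd (nat_lit 4) (.nd (nat_lit 5) 
(.lf (nat_lit 210185) (.g (nat_lit 2306) (.e (nat_lit 81950) (nat_lit 21) (.e (nat_lit 57872) (nat_lit 264) (.e (nat_lit 1199) (nat_lit 88) (.e (nat_lit 65617) (nat_lit 10) (.e (nat_lit 344168) (nat_lit 40) (.e (nat_lit 671764) (nat_lit 6) .nil)))))) (.g (nat_lit 4) .nil .nil))) 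
(.lf (nat_lit 210217) (.g (nat_lit 3189) (.e (nat_lit 81950) (nat_lit 21) (.e (nat_lit 57872) (nat_lit 264) (.e (nat_lit 1221) (nat_lit 90) (.e (nat_lit 81950) (nat_lit 21) (.e (nat_lit 57872) (nat_lit 264) (.e (nat_lit 1219) (nat_lit 90) .nil)))))) (.g (nat_lit 6) .nil .nil)))) (.nd (nat_lit 5) 
(.lf (nat_lit 210201) (.g (nat_lit 2684) (.e (nat_lit 81950) (nat_lit 21) (.e (nat_lit 57872) (nat_lit 264) (.e (nat_lit 1220) (nat_lit 90) (.e (nat_lit 81950) (nat_lit 21) (.e (nat_lit 57873) (nat_lit 264) (.e (nat_lit 1219) (nat_lit 90) .nil)))))) (.g (nat_lit 5) .nil .nil))) 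
(.lf (nat_lit 210233) (.g (nat_lit 3139) (.e (nat_lit 81950) (nat_lit 21) (.e (nat_lit 57873) (nat_lit 264) (.e (nat_lit 1190) (nat_lit 88) (.e (nat_lit 65619) (nat_lit 10) (.e (nat_lit 344097) (nat_lit 18) (.e (nat_lit 5906) (nat_lit 320) (.e (nat_lit 1219) (nat_lit 90) .nil))))))) (.g (nat_lit 5) .nil .nil)))))) (.nd (nat_lit 3) (.nd (nat_lit 4) (.nd (nat_lit 5) 
(.lf (nat_lit 210181) (.g (nat_lit 2872) (.e (nat_lit 81950) (nat_lit 21) (.e (nat_lit 57872) (nat_lit 264) (.e (nat_lit 1190) (nat_lit 88) (.e (nat_lit 65624) (nat_lit 12) (.e (nat_lit 385092) (nat_lit 49) (.e (nat_lit 778326) (nat_lit 6) .nil)))))) (.g (nat_lit 5) .nil .nil))) 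
(.lf (nat_lit 210213) (.g (nat_lit 3108) (.e (nat_lit 81950) (nat_lit 21) (.e (nat_lit 57872) (nat_lit 264) (.e (nat_lit 1221) (nat_lit 90) (.e (nat_lit 81947) (nat_lit 20) (.e (nat_lit 2006) (nat_lit 138) (.e (nat_lit 671764) (nat_lit 6) .nil)))))) (.g (nat_lit 5) .nil .nil)))) (.nd (nat_lit 5) 
(.lf (nat_lit 210197) (.g (nat_lit 2160) (.e (nat_lit 81950) (nat_lit 21) (.e (nat_lit 57872) (nat_lit 264) (.e (nat_lit 1219) (nat_lit 90) (.e (nat_lit 81957) (nat_lit 24) (.e (nat_lit 123185) (nat_lit 264) (.e (nat_lit 7936) (nat_lit 90) .nil)))))) (.g (nat_lit 5) .nil .nil))) 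
(.lf (nat_lit 210229) (.g (nat_lit 425) (.e (nat_lit 81950) (nat_lit 21) (.e (nat_lit 57873) (nat_lit 264) (.e (nat_lit 993) (nat_lit 81) .nil))) .nil)))) (.nd (nat_lit 4) (.nd (nat_lit 5) 
(.lf (nat_lit 210189) (.g (nat_lit 1994) (.e (nat_lit 81950) (nat_lit 21) (.e (nat_lit 57872) (nat_lit 264) (.e (nat_lit 1200) (nat_lit 88) (.e (nat_lit 65604) (nat_lit 9) (.e (nat_lit 335907) (nat_lit 0) (.e (nat_lit 1996) (nat_lit 137) (.e (nat_lit 663569) (nat_lit 6) .nil))))))) (.g (nat_lit 4) .nil .nil))) 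
(.lf (nat_lit 210221) (.g (nat_lit 2260) (.e (nat_lit 81950) (nat_lit 21) (.e (nat_lit 57872) (nat_lit 264) (.e (nat_lit 1221) (nat_lit 90) (.e (nat_lit 81959) (nat_lit 24) (.e (nat_lit 123181) (nat_lit 264) (.e (nat_lit 1218) (nat_lit 90) .nil)))))) (.g (nat_lit 4) .nil .nil)))) (.nd (nat_lit 5) 
(.lf (nat_lit 210205) (.g (nat_lit 1337) (.e (nat_lit 81950) (nat_lit 21) (.e (nat_lit 57872) (nat_lit 264) (.e (nat_lit 1221) (nat_lit 90) (.e (nat_lit 81929) (nat_lit 20) .nil)))) .nil)) 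
(.lf (nat_lit 210237) (.g (nat_lit 4286) (.e (nat_lit 81950) (nat_lit 21) (.e (nat_lit 57873) (nat_lit 264) (.e (nat_lit 1199) (nat_lit 88) (.e (nat_lit 65610) (nat_lit 10) (.e (nat_lit 344097) (nat_lit 18) (.e (nat_lit 5907) (nat_lit 320) (.e (nat_lit 1220) (nat_lit 90) .nil))))))) (.g (nat_lit 0) .nil .nil))))))) (.nd (nat_lit 2) (.nd (nat_lit 3) (.nd (nat_lit 4) (.nd (nat_lit 5) 
(.lf (nat_lit 210179) (.g (nat_lit 2112) (.e (nat_lit 81950) (nat_lit 21) (.e (nat_lit 57872) (nat_lit 264) (.e (nat_lit 1190) (nat_lit 88) (.e (nat_lit 65604) (nat_lit 9) (.e (nat_lit 335907) (nat_lit 0) (.e (nat_lit 1994) (nat_lit 137) (.e (nat_lit 663569) (nat_lit 6) .nil))))))) (.g (nat_lit 4) .nil .nil))) 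
(.lf (nat_lit 210211) (.g (nat_lit 3078) (.e (nat_lit 81950) (nat_lit 21) (.e (nat_lit 57872) (nat_lit 264) (.e (nat_lit 1221) (nat_lit 90) (.e (nat_lit 81947) (nat_lit 20) (.e (nat_lit 2003) (nat_lit 138) (.e (nat_lit 671764) (nat_lit 6) .nil)))))) (.g (nat_lit 5) .nil .nil)))) (.nd (nat_lit 5) 
(.lf (nat_lit 210195) (.g (nat_lit 1173) (.e (nat_lit 81950) (nat_lit 21) (.e (nat_lit 57872) (nat_lit 264) (.e (nat_lit 1219) (nat_lit 90) (.e (nat_lit 81949) (nat_lit 21) .nil)))) .nil)) 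
(.lf (nat_lit 210227) (.g (nat_lit 957) (.e (nat_lit 81950) (nat_lit 21) (.e (nat_lit 57873) (nat_lit 264) (.e (nat_lit 989) (nat_lit 81) (.e (nat_lit 1615) (nat_lit 113) (.e (nat_lit 376859) (nat_lit 21) .nil))))) .nil)))) (.nd (nat_lit 4) (.nd (nat_lit 5) 
(.lf (nat_lit 210187) (.g (nat_lit 2713) (.e (nat_lit 81950) (nat_lit 21) (.e (nat_lit 57872) (nat_lit 264) (.e (nat_lit 1199) (nat_lit 88) (.e (nat_lit 65624) (nat_lit 12) (.e (nat_lit 385094) (nat_lit 49) (.e (nat_lit 778327) (nat_lit 6) .nil)))))) (.g (nat_lit 5) .nil .nil))) 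
(.lf (nat_lit 210219) (.g (nat_lit 1313) (.e (nat_lit 81950) (nat_lit 21) (.e (nat_lit 57872) (nat_lit 264) (.e (nat_lit 1221) (nat_lit 90) (.e (nat_lit 81957) (nat_lit 24) .nil)))) .nil))) (.nd (nat_lit 5) 
(.lf (nat_lit 210203) (.g (nat_lit 1320) (.e (nat_lit 81950) (nat_lit 21) (.e (nat_lit 57872) (nat_lit 264) (.e (nat_lit 1221) (nat_lit 90) (.e (nat_lit 81922) (nat_lit 0) .nil)))) .nil)) 
(.lf (nat_lit 210235) (.g (nat_lit 2154) (.e (nat_lit 81950) (nat_lit 21) (.e (nat_lit 57873) (nat_lit 264) (.e (nat_lit 1190) (nat_lit 88) (.e (nat_lit 65623) (nat_lit 12) (.e (nat_lit 385094) (nat_lit 49) (.e (nat_lit 778327) (nat_lit 6) .nil)))))) (.g (nat_lit 4) .nil .nil)))))) (.nd (nat_lit 3) (.nd (nat_lit 4) (.nd (nat_lit 5) 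
(.lf (nat_lit 210183) (.g (nat_lit 2918) (.e (nat_lit 81950) (nat_lit 21) (.e (nat_lit 57872) (nat_lit 264) (.e (nat_lit 1190) (nat_lit 88) (.e (nat_lit 65624) (nat_lit 12) (.e (nat_lit 385094) (nat_lit 49) (.e (nat_lit 778327) (nat_lit 6) .nil)))))) (.g (nat_lit 5) .nil .nil))) 
(.lf (nat_lit 210215) (.g (nat_lit 2333) (.e (nat_lit 81950) (nat_lit 21) (.e (nat_lit 57872) (nat_lit 264) (.e (nat_lit 1221) (nat_lit 90) (.e (nat_lit 81950) (nat_lit 21) (.e (nat_lit 57870) (nat_lit 264) (.e (nat_lit 1219) (nat_lit 90) .nil)))))) (.g (nat_lit 4) .nil .nil)))) (.nd (nat_lit 5) 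
(.lf (nat_lit 210199) (.g (nat_lit 1682) (.e (nat_lit 81950) (nat_lit 21) (.e (nat_lit 57872) (nat_lit 264) (.e (nat_lit 1219) (nat_lit 90) (.e (nat_lit 81959) (nat_lit 24) (.e (nat_lit 123185) (nat_lit 264) .nil))))) .nil)) 
(.lf (nat_lit 210231) (.g (nat_lit 2731) (.e (nat_lit 81950) (nat_lit 21) (.e (nat_lit 57873) (nat_lit 264) (.e (nat_lit 1188) (nat_lit 88) (.e (nat_lit 65624) (nat_lit 12) (.e (nat_lit 385093) (nat_lit 49) (.e (nat_lit 778326) (nat_lit 6) .nil)))))) (.g (nat_lit 5) .nil .nil))))) (.nd (nat_lit 4) (.nd (nat_lit 5) 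
(.lf (nat_lit 210191) (.g (nat_lit 1043) (.e (nat_lit 81950) (nat_lit 21) (.e (nat_lit 57872) (nat_lit 264) (.e (nat_lit 1219) (nat_lit 90) (.e (nat_lit 81920) (nat_lit 0) .nil)))) .nil)) 
(.lf (nat_lit 210223) (.g (nat_lit 2577) (.e (nat_lit 81950) (nat_lit 21) (.e (nat_lit 57872) (nat_lit 264) (.e (nat_lit 1221) (nat_lit 90) (.e (nat_lit 81959) (nat_lit 24) (.e (nat_lit 123183) (nat_lit 264) (.e (nat_lit 7936) (nat_lit 90) .nil)))))) (.g (nat_lit 5) .nil .nil)))) (.nd (nat_lit 5) 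
(.lf (nat_lit 210207) (.g (nat_lit 1091) (.e (nat_lit 81950) (nat_lit 21) (.e (nat_lit 57872) (nat_lit 264) (.e (nat_lit 1221) (nat_lit 90) (.e (nat_lit 81931) (nat_lit 20) .nil)))) .nil)) 
(.lf (nat_lit 210239) (.g (nat_lit 1797) (.e (nat_lit 81950) (nat_lit 21) (.e (nat_lit 57873) (nat_lit 264) (.e (nat_lit 1199) (nat_lit 88) (.e (nat_lit 65622) (nat_lit 12) (.e (nat_lit 385092) (nat_lit 49) (.e (nat_lit 778326) (nat_lit 6) .nil)))))) (.g (nat_lit 4) .nil .nil)))))))))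

noncomputable def tv2779 : DT := (.nd (nat_lit 0) (.nd (nat_lit 1) (.nd (nat_lit 2) (.nd (nat_lit 3) (.nd (nat_lit 4) (.nd (nat_lit 5) 
(.lf (nat_lit 210240) (.g (nat_lit 2302) (.e (nat_lit 81950) (nat_lit 21) (.e (nat_lit 57873) (nat_lit 264) (.e (nat_lit 1199) (nat_lit 88) (.e (nat_lit 65624) (nat_lit 12) (.e (nat_lit 385093) (nat_lit 49) (.e (nat_lit 778327) (nat_lit 6) .nil)))))) (.g (nat_lit 4) .nil .nil))) 
(.lf (nat_lit 210272) (.g (nat_lit 1193) (.e (nat_lit 81950) (nat_lit 21) (.e (nat_lit 57873) (nat_lit 264) (.e (nat_lit 1221) (nat_lit 90) (.e (nat_lit 81957) (nat_lit 24) .nil)))) .nil))) (.nd (nat_lit 5) 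
(.lf (nat_lit 210256) (.g (nat_lit 1279) (.e (nat_lit 81950) (nat_lit 21) (.e (nat_lit 57873) (nat_lit 264) (.e (nat_lit 1219) (nat_lit 90) (.e (nat_lit 81949) (nat_lit 21) .nil)))) .nil)) 
(.lf (nat_lit 210288) (.g (nat_lit 3560) (.e (nat_lit 81951) (nat_lit 22) (.e (nat_lit 90134) (nat_lit 9) (.e (nat_lit 3098) (nat_lit 192) (.e (nat_lit 491566) (nat_lit 12) (.e (nat_lit 385046) (nat_lit 21) (.e (nat_lit 4175) (nat_lit 251) (.e (nat_lit 1217) (nat_lit 90) .nil))))))) (.g (nat_lit 4) .nil .nil))))) (.nd (nat_lit 4) (.nd (nat_lit 5) 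
(.lf (nat_lit 210248) (.g (nat_lit 1425) (.e (nat_lit 81950) (nat_lit 21) (.e (nat_lit 57873) (nat_lit 264) (.e (nat_lit 1219) (nat_lit 90) (.e (nat_lit 81928) (nat_lit 20) (.e (nat_lit 2003) (nat_lit 138) .nil))))) .nil)) 
(.lf (nat_lit 210280) (.g (nat_lit 506) (.e (nat_lit 81951) (nat_lit 22) (.e (nat_lit 90134) (nat_lit 9) (.e (nat_lit 353) (nat_lit 29) .nil))) .nil))) (.nd (nat_lit 5) 
(.lf (nat_lit 210264) (.g (nat_lit 3844) (.e (nat_lit 81950) (nat_lit 21) (.e (nat_lit 57873) (nat_lit 264) (.e (nat_lit 1220) (nat_lit 90) (.e (nat_lit 81950) (nat_lit 21) (.e (nat_lit 57873) (nat_lit 264) (.e (nat_lit 1220) (nat_lit 90) .nil)))))) (.g (nat_lit 0) .nil .nil))) 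
(.lf (nat_lit 210296) (.g (nat_lit 908) (.e (nat_lit 81951) (nat_lit 22) (.e (nat_lit 90160) (nat_lit 11) (.e (nat_lit 32512) (nat_lit 20) .nil))) .nil))))) (.nd (nat_lit 3) (.nd (nat_lit 4) (.nd (nat_lit 5) 
(.lf (nat_lit 210244) (.g (nat_lit 2518) (.e (nat_lit 81950) (nat_lit 21) (.e (nat_lit 57873) (nat_lit 264) (.e (nat_lit 1200) (nat_lit 88) (.e (nat_lit 65624) (nat_lit 12) (.e (nat_lit 385092) (nat_lit 49) (.e (nat_lit 778326) (nat_lit 6) .nil)))))) (.g (nat_lit 5) .nil .nil))) 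
(.lf (nat_lit 210276) (.g (nat_lit 3860) (.e (nat_lit 81950) (nat_lit 21) (.e (nat_lit 57873) (nat_lit 264) (.e (nat_lit 1221) (nat_lit 90) (.e (nat_lit 81959) (nat_lit 24) (.e (nat_lit 123182) (nat_lit 264) (.e (nat_lit 1223) (nat_lit 90) .nil)))))) (.g (nat_lit 0) .nil .nil)))) (.nd (nat_lit 5) 
(.lf (nat_lit 210260) (.g (nat_lit 1305) (.e (nat_lit 81950) (nat_lit 21) (.e (nat_lit 57873) (nat_lit 264) (.e (nat_lit 1219) (nat_lit 90) (.e (nat_lit 81958) (nat_lit 24) .nil)))) .nil)) 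
(.lf (nat_lit 210292) (.g (nat_lit 443) (.e (nat_lit 81951) (nat_lit 22) (.e (nat_lit 90158) (nat_lit 11) (.e (nat_lit 32512) (nat_lit 20) .nil))) .nil)))) (.nd (nat_lit 4) (.nd (nat_lit 5) 
(.lf (nat_lit 210252) (.g (nat_lit 2295) (.e (nat_lit 81950) (nat_lit 21) (.e (nat_lit 57873) (nat_lit 264) (.e (nat_lit 1219) (nat_lit 90) (.e (nat_lit 81943) (nat_lit 20) (.e (nat_lit 2005) (nat_lit 138) (.e (nat_lit 671764) (nat_lit 6) .nil)))))) (.g (nat_lit 0) .nil .nil))) 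
(.lf (nat_lit 210284) (.g (nat_lit 2785) (.e (nat_lit 81951) (nat_lit 22) (.e (nat_lit 90134) (nat_lit 9) (.e (nat_lit 3098) (nat_lit 192) (.e (nat_lit 491566) (nat_lit 12) (.e (nat_lit 385043) (nat_lit 21) (.e (nat_lit 4181) (nat_lit 251) (.e (nat_lit 1215) (nat_lit 90) .nil))))))) (.g (nat_lit 4) .nil .nil)))) (.nd (nat_lit 5) 
(.lf (nat_lit 210268) (.g (nat_lit 2391) (.e (nat_lit 81950) (nat_lit 21) (.e (nat_lit 57873) (nat_lit 264) (.e (nat_lit 1221) (nat_lit 90) (.e (nat_lit 81950) (nat_lit 21) (.e (nat_lit 57870) (nat_lit 264) (.e (nat_lit 1219) (nat_lit 90) .nil)))))) (.g (nat_lit 4) .nil .nil))) 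
(.lf (nat_lit 210300) (.g (nat_lit 2854) (.e (nat_lit 81951) (nat_lit 22) (.e (nat_lit 90170) (nat_lit 13) (.e (nat_lit 172042) (nat_lit 0) (.e (nat_lit 3391) (nat_lit 210) (.e (nat_lit 639011) (nat_lit 13) (.e (nat_lit 1234) (nat_lit 91) (.e (nat_lit 98048) (nat_lit 6) .nil))))))) (.g (nat_lit 6) .nil .nil))))))) (.nd (nat_lit 2) (.nd (nat_lit 3) (.nd (nat_lit 4) (.nd (nat_lit 5) 
(.lf (nat_lit 210242) (.g (nat_lit 2970) (.e (nat_lit 81950) (nat_lit 21) (.e (nat_lit 57873) (nat_lit 264) (.e (nat_lit 1200) (nat_lit 88) (.e (nat_lit 65619) (nat_lit 10) (.e (nat_lit 344169) (nat_lit 40) (.e (nat_lit 671764) (nat_lit 6) .nil)))))) (.g (nat_lit 0) .nil .nil))) 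
(.lf (nat_lit 210274) (.g (nat_lit 968) (.e (nat_lit 81950) (nat_lit 21) (.e (nat_lit 57873) (nat_lit 264) (.e (nat_lit 1221) (nat_lit 90) (.e (nat_lit 81959) (nat_lit 24) .nil)))) .nil))) (.nd (nat_lit 5) 
(.lf (nat_lit 210258) (.g (nat_lit 866) (.e (nat_lit 81950) (nat_lit 21) (.e (nat_lit 57873) (nat_lit 264) (.e (nat_lit 1219) (nat_lit 90) (.e (nat_lit 81957) (nat_lit 24) .nil)))) .nil)) 
(.lf (nat_lit 210290) (.g (nat_lit 3402) (.e (nat_lit 81951) (nat_lit 22) (.e (nat_lit 90134) (nat_lit 9) (.e (nat_lit 3098) (nat_lit 192) (.e (nat_lit 491566) (nat_lit 12) (.e (nat_lit 385046) (nat_lit 21) (.e (nat_lit 4186) (nat_lit 251) (.e (nat_lit 7936) (nat_lit 90) .nil))))))) (.g (nat_lit 4) .nil .nil))))) (.nd (nat_lit 4) (.nd (nat_lit 5) 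
(.lf (nat_lit 210250) (.g (nat_lit 1261) (.e (nat_lit 81950) (nat_lit 21) (.e (nat_lit 57873) (nat_lit 264) (.e (nat_lit 1219) (nat_lit 90) (.e (nat_lit 81939) (nat_lit 20) .nil)))) .nil)) 
(.lf (nat_lit 210282) (.g (nat_lit 2699) (.e (nat_lit 81951) (nat_lit 22) (.e (nat_lit 90134) (nat_lit 9) (.e (nat_lit 3098) (nat_lit 192) (.e (nat_lit 491566) (nat_lit 12) (.e (nat_lit 385043) (nat_lit 21) .nil))))) .nil))) (.nd (nat_lit 5) 
(.lf (nat_lit 210266) (.g (nat_lit 3011) (.e (nat_lit 81950) (nat_lit 21) (.e (nat_lit 57873) (nat_lit 264) (.e (nat_lit 1221) (nat_lit 90) (.e (nat_lit 81947) (nat_lit 20) (.e (nat_lit 2006) (nat_lit 138) (.e (nat_lit 671764) (nat_lit 6) .nil)))))) (.g (nat_lit 0) .nil .nil))) 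
(.lf (nat_lit 210298) (.g (nat_lit 3177) (.e (nat_lit 81951) (nat_lit 22) (.e (nat_lit 90165) (nat_lit 12) (.e (nat_lit 164239) (nat_lit 187) (.e (nat_lit 1638) (nat_lit 114) (.e (nat_lit 385074) (nat_lit 31) (.e (nat_lit 573491) (nat_lit 15) .nil)))))) (.g (nat_lit 0) .nil .nil)))))) (.nd (nat_lit 3) (.nd (nat_lit 4) (.nd (nat_lit 5) 
(.lf (nat_lit 210246) (.g (nat_lit 396) (.e (nat_lit 81950) (nat_lit 21) (.e (nat_lit 57873) (nat_lit 264) (.e (nat_lit 1219) (nat_lit 90) .nil))) .nil)) 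
(.lf (nat_lit 210278) (.g (nat_lit 2040) (.e (nat_lit 81950) (nat_lit 21) (.e (nat_lit 57873) (nat_lit 264) (.e (nat_lit 1221) (nat_lit 90) (.e (nat_lit 81959) (nat_lit 24) (.e (nat_lit 130816) (nat_lit 264) .nil))))) .nil))) (.nd (nat_lit 5) 
(.lf (nat_lit 210262) (.g (nat_lit 1090) (.e (nat_lit 81950) (nat_lit 21) (.e (nat_lit 57873) (nat_lit 264) (.e (nat_lit 1220) (nat_lit 90) (.e (nat_lit 81948) (nat_lit 21) .nil)))) .nil)) 
(.lf (nat_lit 210294) (.g (nat_lit 866) (.e (nat_lit 81951) (nat_lit 22) (.e (nat_lit 90160) (nat_lit 11) (.e (nat_lit 24599) (nat_lit 1) .nil))) .nil)))) (.nd (nat_lit 4) (.nd (nat_lit 5) 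
(.lf (nat_lit 210254) (.g (nat_lit 1769) (.e (nat_lit 81950) (nat_lit 21) (.e (nat_lit 57873) (nat_lit 264) (.e (nat_lit 1219) (nat_lit 90) (.e (nat_lit 81946) (nat_lit 20) (.e (nat_lit 2003) (nat_lit 138) (.e (nat_lit 671764) (nat_lit 6) .nil)))))) (.g (nat_lit 4) .nil .nil))) 
(.lf (nat_lit 210286) (.g (nat_lit 2540) (.e (nat_lit 81951) (nat_lit 22) (.e (nat_lit 90134) (nat_lit 9) (.e (nat_lit 3098) (nat_lit 192) (.e (nat_lit 491566) (nat_lit 12) (.e (nat_lit 385045) (nat_lit 21) .nil))))) .nil))) (.nd (nat_lit 5) 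
(.lf (nat_lit 210270) (.g (nat_lit 3820) (.e (nat_lit 81950) (nat_lit 21) (.e (nat_lit 57873) (nat_lit 264) (.e (nat_lit 1221) (nat_lit 90) (.e (nat_lit 81950) (nat_lit 21) (.e (nat_lit 57873) (nat_lit 264) (.e (nat_lit 1220) (nat_lit 90) .nil)))))) (.g (nat_lit 0) .nil .nil))) 
(.lf (nat_lit 210302) (.g (nat_lit 2558) (.e (nat_lit 81951) (nat_lit 22) (.e (nat_lit 90170) (nat_lit 13) (.e (nat_lit 172049) (nat_lit 0) (.e (nat_lit 3388) (nat_lit 210) (.e (nat_lit 639011) (nat_lit 13) (.e (nat_lit 1234) (nat_lit 91) (.e (nat_lit 98048) (nat_lit 6) .nil))))))) (.g (nat_lit 6) .nil .nil)))))))) 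
(.nd (nat_lit 1) (.nd (nat_lit 2) (.nd (nat_lit 3) (.nd (nat_lit 4) (.nd (nat_lit 5) 
(.lf (nat_lit 210241) (.g (nat_lit 2920) (.e (nat_lit 81950) (nat_lit 21) (.e (nat_lit 57873) (nat_lit 264) (.e (nat_lit 1200) (nat_lit 88) (.e (nat_lit 65619) (nat_lit 10) (.e (nat_lit 344097) (nat_lit 18) (.e (nat_lit 5906) (nat_lit 320) (.e (nat_lit 1219) (nat_lit 90) .nil))))))) (.g (nat_lit 5) .nil .nil))) 
(.lf (nat_lit 210273) (.g (nat_lit 1912) (.e (nat_lit 81950) (nat_lit 21) (.e (nat_lit 57873) (nat_lit 264) (.e (nat_lit 1221) (nat_lit 90) (.e (nat_lit 81957) (nat_lit 24) (.e (nat_lit 123185) (nat_lit 264) (.e (nat_lit 1223) (nat_lit 90) .nil)))))) (.g (nat_lit 4) .nil .nil)))) (.nd (nat_lit 5) 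
(.lf (nat_lit 210257) (.g (nat_lit 2572) (.e (nat_lit 81950) (nat_lit 21) (.e (nat_lit 57873) (nat_lit 264) (.e (nat_lit 1219) (nat_lit 90) (.e (nat_lit 81950) (nat_lit 21) (.e (nat_lit 57873) (nat_lit 264) (.e (nat_lit 1219) (nat_lit 90) .nil)))))) (.g (nat_lit 4) .nil .nil))) 
(.lf (nat_lit 210289) (.g (nat_lit 2875) (.e (nat_lit 81951) (nat_lit 22) (.e (nat_lit 90134) (nat_lit 9) (.e (nat_lit 3098) (nat_lit 192) (.e (nat_lit 491566) (nat_lit 12) (.e (nat_lit 385046) (nat_lit 21) (.e (nat_lit 4176) (nat_lit 251) (.e (nat_lit 1222) (nat_lit 90) .nil))))))) (.g (nat_lit 4) .nil .nil))))) (.nd (nat_lit 4) (.nd (nat_lit 5) 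
(.lf (nat_lit 210249) (.g (nat_lit 1206) (.e (nat_lit 81950) (nat_lit 21) (.e (nat_lit 57873) (nat_lit 264) (.e (nat_lit 1219) (nat_lit 90) (.e (nat_lit 81938) (nat_lit 20) .nil)))) .nil)) 
(.lf (nat_lit 210281) (.g (nat_lit 1716) (.e (nat_lit 81951) (nat_lit 22) (.e (nat_lit 90134) (nat_lit 9) (.e (nat_lit 2978) (nat_lit 185) (.e (nat_lit 434275) (nat_lit 39) (.e (nat_lit 663580) (nat_lit 9) (.e (nat_lit 7936) (nat_lit 2) (.e (nat_lit 98048) (nat_lit 6) .nil))))))) (.g (nat_lit 4) .nil .nil)))) (.nd (nat_lit 5) 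
(.lf (nat_lit 210265) (.g (nat_lit 386) (.e (nat_lit 81950) (nat_lit 21) (.e (nat_lit 57873) (nat_lit 264) (.e (nat_lit 1221) (nat_lit 90) .nil))) .nil)) 
(.lf (nat_lit 210297) (.g (nat_lit 2373) (.e (nat_lit 81951) (nat_lit 22) (.e (nat_lit 90165) (nat_lit 12) (.e (nat_lit 164238) (nat_lit 187) (.e (nat_lit 1427) (nat_lit 108) (.e (nat_lit 336306) (nat_lit 15) (.e (nat_lit 3297) (nat_lit 202) (.e (nat_lit 573492) (nat_lit 15) .nil))))))) (.g (nat_lit 4) .nil .nil)))))) (.nd (nat_lit 3) (.nd (nat_lit 4) (.nd (nat_lit 5) 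
(.lf (nat_lit 210245) (.g (nat_lit 534) (.e (nat_lit 81950) (nat_lit 21) (.e (nat_lit 57873) (nat_lit 264) (.e (nat_lit 1218) (nat_lit 90) .nil))) .nil)) 
(.lf (nat_lit 210277) (.g (nat_lit 2838) (.e (nat_lit 81950) (nat_lit 21) (.e (nat_lit 57873) (nat_lit 264) (.e (nat_lit 1221) (nat_lit 90) (.e (nat_lit 81959) (nat_lit 24) (.e (nat_lit 123182) (nat_lit 264) (.e (nat_lit 1224) (nat_lit 90) .nil)))))) (.g (nat_lit 4) .nil .nil)))) (.nd (nat_lit 5) 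
(.lf (nat_lit 210261) (.g (nat_lit 446) (.e (nat_lit 81950) (nat_lit 21) (.e (nat_lit 57873) (nat_lit 264) (.e (nat_lit 1220) (nat_lit 90) .nil))) .nil)) 
(.lf (nat_lit 210293) (.g (nat_lit 892) (.e (nat_lit 81951) (nat_lit 22) (.e (nat_lit 90160) (nat_lit 11) (.e (nat_lit 24597) (nat_lit 1) .nil))) .nil)))) (.nd (nat_lit 4) (.nd (nat_lit 5) 
(.lf (nat_lit 210253) (.g (nat_lit 2536) (.e (nat_lit 81950) (nat_lit 21) (.e (nat_lit 57873) (nat_lit 264) (.e (nat_lit 1219) (nat_lit 90) (.e (nat_lit 81943) (nat_lit 20) (.e (nat_lit 2006) (nat_lit 138) (.e (nat_lit 671764) (nat_lit 6) .nil)))))) (.g (nat_lit 0) .nil .nil))) 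
(.lf (nat_lit 210285) (.g (nat_lit 3170) (.e (nat_lit 81951) (nat_lit 22) (.e (nat_lit 90134) (nat_lit 9) (.e (nat_lit 3098) (nat_lit 192) (.e (nat_lit 491566) (nat_lit 12) (.e (nat_lit 385044) (nat_lit 21) .nil))))) .nil))) (.nd (nat_lit 5) 
(.lf (nat_lit 210269) (.g (nat_lit 2380) (.e (nat_lit 81950) (nat_lit 21) (.e (nat_lit 57873) (nat_lit 264) (.e (nat_lit 1221) (nat_lit 90) (.e (nat_lit 81950) (nat_lit 21) (.e (nat_lit 57871) (nat_lit 264) (.e (nat_lit 1219) (nat_lit 90) .nil)))))) (.g (nat_lit 4) .nil .nil))) 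
(.lf (nat_lit 210301) (.g (nat_lit 2225) (.e (nat_lit 81951) (nat_lit 22) (.e (nat_lit 90170) (nat_lit 13) (.e (nat_lit 172049) (nat_lit 0) (.e (nat_lit 3388) (nat_lit 210) (.e (nat_lit 639009) (nat_lit 13) (.e (nat_lit 1234) (nat_lit 91) (.e (nat_lit 98048) (nat_lit 6) .nil))))))) (.g (nat_lit 6) .nil .nil))))))) (.nd (nat_lit 2) (.nd (nat_lit 3) (.nd (nat_lit 4) (.nd (nat_lit 5) 
(.lf (nat_lit 210243) (.g (nat_lit 2693) (.e (nat_lit 81950) (nat_lit 21) (.e (nat_lit 57873) (nat_lit 264) (.e (nat_lit 1200) (nat_lit 88) (.e (nat_lit 65623) (nat_lit 12) (.e (nat_lit 385094) (nat_lit 49) (.e (nat_lit 778326) (nat_lit 6) .nil)))))) (.g (nat_lit 6) .nil .nil))) 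
(.lf (nat_lit 210275) (.g (nat_lit 2364) (.e (nat_lit 81950) (nat_lit 21) (.e (nat_lit 57873) (nat_lit 264) (.e (nat_lit 1221) (nat_lit 90) (.e (nat_lit 81959) (nat_lit 24) (.e (nat_lit 123181) (nat_lit 264) .nil))))) .nil))) (.nd (nat_lit 5) 
(.lf (nat_lit 210259) (.g (nat_lit 1447) (.e (nat_lit 81950) (nat_lit 21) (.e (nat_lit 57873) (nat_lit 264) (.e (nat_lit 1219) (nat_lit 90) (.e (nat_lit 81957) (nat_lit 24) (.e (nat_lit 123185) (nat_lit 264) .nil))))) .nil)) 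
(.lf (nat_lit 210291) (.g (nat_lit 466) (.e (nat_lit 81951) (nat_lit 22) (.e (nat_lit 90158) (nat_lit 11) (.e (nat_lit 24599) (nat_lit 1) .nil))) .nil)))) (.nd (nat_lit 4) (.nd (nat_lit 5) 
(.lf (nat_lit 210251) (.g (nat_lit 1269) (.e (nat_lit 81950) (nat_lit 21) (.e (nat_lit 57873) (nat_lit 264) (.e (nat_lit 1219) (nat_lit 90) (.e (nat_lit 81942) (nat_lit 20) .nil)))) .nil)) 
(.lf (nat_lit 210283) (.g (nat_lit 3029) (.e (nat_lit 81951) (nat_lit 22) (.e (nat_lit 90134) (nat_lit 9) (.e (nat_lit 3098) (nat_lit 192) (.e (nat_lit 491566) (nat_lit 12) (.e (nat_lit 385043) (nat_lit 21) (.e (nat_lit 4175) (nat_lit 251) (.e (nat_lit 1217) (nat_lit 90) .nil))))))) (.g (nat_lit 4) .nil .nil)))) (.nd (nat_lit 5) 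
(.lf (nat_lit 210267) (.g (nat_lit 2897) (.e (nat_lit 81950) (nat_lit 21) (.e (nat_lit 57873) (nat_lit 264) (.e (nat_lit 1221) (nat_lit 90) (.e (nat_lit 81948) (nat_lit 21) (.e (nat_lit 57872) (nat_lit 264) (.e (nat_lit 1219) (nat_lit 90) .nil)))))) (.g (nat_lit 5) .nil .nil))) 
(.lf (nat_lit 210299) (.g (nat_lit 3061) (.e (nat_lit 81951) (nat_lit 22) (.e (nat_lit 90170) (nat_lit 13) (.e (nat_lit 172042) (nat_lit 0) (.e (nat_lit 3391) (nat_lit 210) (.e (nat_lit 639008) (nat_lit 13) (.e (nat_lit 1239) (nat_lit 91) (.e (nat_lit 98048) (nat_lit 6) .nil))))))) (.g (nat_lit 6) .nil .nil)))))) (.nd (nat_lit 3) (.nd (nat_lit 4) (.nd (nat_lit 5) 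
(.lf (nat_lit 210247) (.g (nat_lit 1759) (.e (nat_lit 81950) (nat_lit 21) (.e (nat_lit 57873) (nat_lit 264) (.e (nat_lit 1219) (nat_lit 90) (.e (nat_lit 81922) (nat_lit 0) (.e (nat_lit 3629) (nat_lit 227) (.e (nat_lit 778326) (nat_lit 6) .nil)))))) (.g (nat_lit 4) .nil .nil))) 
(.lf (nat_lit 210279) (.g (nat_lit 508) (.e (nat_lit 81950) (nat_lit 21) (.e (nat_lit 57873) (nat_lit 264) (.e (nat_lit 7936) (nat_lit 90) .nil))) .nil))) (.nd (nat_lit 5) 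
(.lf (nat_lit 210263) (.g (nat_lit 3132) (.e (nat_lit 81950) (nat_lit 21) (.e (nat_lit 57873) (nat_lit 264) (.e (nat_lit 1220) (nat_lit 90) (.e (nat_lit 81950) (nat_lit 21) (.e (nat_lit 57872) (nat_lit 264) (.e (nat_lit 1219) (nat_lit 90) .nil)))))) (.g (nat_lit 4) .nil .nil))) 
(.lf (nat_lit 210295) (.g (nat_lit 2194) (.e (nat_lit 81951) (nat_lit 22) (.e (nat_lit 90160) (nat_lit 11) (.e (nat_lit 24599) (nat_lit 1) (.e (nat_lit 57847) (nat_lit 252) (.e (nat_lit 57365) (nat_lit 1) .nil))))) .nil)))) (.nd (nat_lit 4) (.nd (nat_lit 5) 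
(.lf (nat_lit 210255) (.g (nat_lit 2794) (.e (nat_lit 81950) (nat_lit 21) (.e (nat_lit 57873) (nat_lit 264) (.e (nat_lit 1219) (nat_lit 90) (.e (nat_lit 81946) (nat_lit 20) (.e (nat_lit 2006) (nat_lit 138) (.e (nat_lit 671764) (nat_lit 6) .nil)))))) (.g (nat_lit 0) .nil .nil))) 
(.lf (nat_lit 210287) (.g (nat_lit 3014) (.e (nat_lit 81951) (nat_lit 22) (.e (nat_lit 90134) (nat_lit 9) (.e (nat_lit 3098) (nat_lit 192) (.e (nat_lit 491566) (nat_lit 12) (.e (nat_lit 385045) (nat_lit 21) (.e (nat_lit 4186) (nat_lit 251) (.e (nat_lit 7936) (nat_lit 90) .nil))))))) (.g (nat_lit 4) .nil .nil)))) (.nd (nat_lit 5) 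
(.lf (nat_lit 210271) (.g (nat_lit 3866) (.e (nat_lit 81950) (nat_lit 21) (.e (nat_lit 57873) (nat_lit 264) (.e (nat_lit 1221) (nat_lit 90) (.e (nat_lit 81950) (nat_lit 21) (.e (nat_lit 57873) (nat_lit 264) (.e (nat_lit 1221) (nat_lit 90) .nil)))))) (.g (nat_lit 0) .nil .nil))) 
(.lf (nat_lit 210303) (.g (nat_lit 2237) (.e (nat_lit 81951) (nat_lit 22) (.e (nat_lit 90170) (nat_lit 13) (.e (nat_lit 172049) (nat_lit 0) (.e (nat_lit 3389) (nat_lit 210) (.e (nat_lit 639011) (nat_lit 13) (.e (nat_lit 1234) (nat_lit 91) (.e (nat_lit 98048) (nat_lit 6) .nil))))))) (.g (nat_lit 6) .nil .nil)))))))))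

noncomputable def tv2780 : DT := (.nd (nat_lit 0) (.nd (nat_lit 1) (.nd (nat_lit 2) (.nd (nat_lit 3) (.nd (nat_lit 4) (.nd (nat_lit 5) (.nd (nat_lit 6) 
(.lf (nat_lit 210304) (.g (nat_lit 2712) (.e (nat_lit 81951) (nat_lit 22) (.e (nat_lit 90170) (nat_lit 13) (.e (nat_lit 172049) (nat_lit 0) (.e (nat_lit 3391) (nat_lit 210) (.e (nat_lit 639008) (nat_lit 13) (.e (nat_lit 1239) (nat_lit 91) (.e (nat_lit 98048) (nat_lit 6) .nil))))))) (.g (nat_lit 6) .nil .nil))) 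
(.lf (nat_lit 210368) (.g (nat_lit 3789) (.e (nat_lit 81953) (nat_lit 22) (.e (nat_lit 90134) (nat_lit 9) (.e (nat_lit 3098) (nat_lit 192) (.e (nat_lit 491566) (nat_lit 12) (.e (nat_lit 385044) (nat_lit 21) (.e (nat_lit 4196) (nat_lit 251) (.e (nat_lit 1221) (nat_lit 90) .nil))))))) (.g (nat_lit 4) .nil .nil)))) (.nd (nat_lit 6) 
(.lf (nat_lit 210336) (.g (nat_lit 1756) (.e (nat_lit 81952) (nat_lit 22) (.e (nat_lit 90185) (nat_lit 17) (.e (nat_lit 237585) (nat_lit 1) (.e (nat_lit 164307) (nat_lit 226) (.e (nat_lit 7936) (nat_lit 81) .nil))))) .nil)) 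
(.lf (nat_lit 210400) (.g (nat_lit 3365) (.e (nat_lit 81953) (nat_lit 22) (.e (nat_lit 90134) (nat_lit 9) (.e (nat_lit 3098) (nat_lit 192) (.e (nat_lit 491566) (nat_lit 12) (.e (nat_lit 385049) (nat_lit 21) .nil))))) .nil)))) (.nd (nat_lit 5) (.nd (nat_lit 6) 
(.lf (nat_lit 210320) (.g (nat_lit 2071) (.e (nat_lit 81952) (nat_lit 22) (.e (nat_lit 90160) (nat_lit 11) (.e (nat_lit 24599) (nat_lit 1) (.e (nat_lit 57847) (nat_lit 252) (.e (nat_lit 57365) (nat_lit 1) .nil))))) .nil)) 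
(.lf (nat_lit 210384) (.g (nat_lit 2920) (.e (nat_lit 81953) (nat_lit 22) (.e (nat_lit 90134) (nat_lit 9) (.e (nat_lit 3098) (nat_lit 192) (.e (nat_lit 491566) (nat_lit 12) (.e (nat_lit 385046) (nat_lit 21) (.e (nat_lit 4176) (nat_lit 251) (.e (nat_lit 1218) (nat_lit 90) .nil))))))) (.g (nat_lit 4) .nil .nil)))) (.nd (nat_lit 6) 
(.lf (nat_lit 210352) (.g (nat_lit 3286) (.e (nat_lit 81953) (nat_lit 22) (.e (nat_lit 90134) (nat_lit 9) (.e (nat_lit 3098) (nat_lit 192) (.e (nat_lit 491566) (nat_lit 12) (.e (nat_lit 385043) (nat_lit 21) (.e (nat_lit 4181) (nat_lit 251) (.e (nat_lit 1215) (nat_lit 90) .nil))))))) (.g (nat_lit 4) .nil .nil))) 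
(.lf (nat_lit 210416) (.g (nat_lit 3702) (.e (nat_lit 81953) (nat_lit 22) (.e (nat_lit 90134) (nat_lit 9) (.e (nat_lit 3098) (nat_lit 192) (.e (nat_lit 491566) (nat_lit 12) (.e (nat_lit 385054) (nat_lit 21) (.e (nat_lit 4215) (nat_lit 251) (.e (nat_lit 1220) (nat_lit 90) .nil))))))) (.g (nat_lit 4) .nil .nil)))))) (.nd (nat_lit 4) (.nd (nat_lit 5) (.nd (nat_lit 6) 
(.lf (nat_lit 210312) (.g (nat_lit 1015) (.e (nat_lit 81952) (nat_lit 22) (.e (nat_lit 90160) (nat_lit 11) (.e (nat_lit 24580) (nat_lit 0) .nil))) .nil)) 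
(.lf (nat_lit 210376) (.g (nat_lit 3297) (.e (nat_lit 81953) (nat_lit 22) (.e (nat_lit 90134) (nat_lit 9) (.e (nat_lit 3098) (nat_lit 192) (.e (nat_lit 491566) (nat_lit 12) (.e (nat_lit 385044) (nat_lit 21) (.e (nat_lit 4218) (nat_lit 251) (.e (nat_lit 1221) (nat_lit 90) .nil))))))) (.g (nat_lit 4) .nil .nil)))) (.nd (nat_lit 6) 
(.lf (nat_lit 210344) (.g (nat_lit 3097) (.e (nat_lit 81953) (nat_lit 22) (.e (nat_lit 90130) (nat_lit 9) (.e (nat_lit 2830) (nat_lit 182) (.e (nat_lit 409649) (nat_lit 18) (.e (nat_lit 303121) (nat_lit 5) (.e (nat_lit 253696) (nat_lit 15) .nil)))))) (.g (nat_lit 5) .nil .nil))) 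
(.lf (nat_lit 210408) (.g (nat_lit 4183) (.e (nat_lit 81953) (nat_lit 22) (.e (nat_lit 90134) (nat_lit 9) (.e (nat_lit 3098) (nat_lit 192) (.e (nat_lit 491566) (nat_lit 12) (.e (nat_lit 385050) (nat_lit 21) (.e (nat_lit 4216) (nat_lit 251) (.e (nat_lit 1221) (nat_lit 90) .nil))))))) (.g (nat_lit 4) .nil .nil))))) (.nd (nat_lit 5) (.nd (nat_lit 6) 
(.lf (nat_lit 210328) (.g (nat_lit 1466) (.e (nat_lit 81952) (nat_lit 22) (.e (nat_lit 90160) (nat_lit 11) (.e (nat_lit 32512) (nat_lit 20) (.e (nat_lit 221208) (nat_lit 21) (.e (nat_lit 164385) (nat_lit 254) (.e (nat_lit 7936) (nat_lit 90) .nil)))))) (.g (nat_lit 5) .nil .nil))) 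
(.lf (nat_lit 210392) (.g (nat_lit 3426) (.e (nat_lit 81953) (nat_lit 22) (.e (nat_lit 90134) (nat_lit 9) (.e (nat_lit 3098) (nat_lit 192) (.e (nat_lit 491566) (nat_lit 12) (.e (nat_lit 385048) (nat_lit 21) (.e (nat_lit 4168) (nat_lit 251) (.e (nat_lit 1220) (nat_lit 90) .nil))))))) (.g (nat_lit 4) .nil .nil)))) (.nd (nat_lit 6) 
(.lf (nat_lit 210360) (.g (nat_lit 3319) (.e (nat_lit 81953) (nat_lit 22) (.e (nat_lit 90134) (nat_lit 9) (.e (nat_lit 3098) (nat_lit 192) (.e (nat_lit 491566) (nat_lit 12) (.e (nat_lit 385043) (nat_lit 21) (.e (nat_lit 4212) (nat_lit 251) (.e (nat_lit 1221) (nat_lit 90) .nil))))))) (.g (nat_lit 4) .nil .nil))) 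
(.lf (nat_lit 210424) (.g (nat_lit 584) (.e (nat_lit 81953) (nat_lit 22) (.e (nat_lit 90170) (nat_lit 13) (.e (nat_lit 172136) (nat_lit 15) .nil))) .nil)))))) (.nd (nat_lit 3) (.nd (nat_lit 4) (.nd (nat_lit 5) (.nd (nat_lit 6) 
(.lf (nat_lit 210308) (.g (nat_lit 1559) (.e (nat_lit 81951) (nat_lit 22) (.e (nat_lit 90170) (nat_lit 13) (.e (nat_lit 172070) (nat_lit 4) (.e (nat_lit 229665) (nat_lit 240) (.e (nat_lit 2604) (nat_lit 163) .nil))))) .nil)) 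
(.lf (nat_lit 210372) (.g (nat_lit 3193) (.e (nat_lit 81953) (nat_lit 22) (.e (nat_lit 90134) (nat_lit 9) (.e (nat_lit 3098) (nat_lit 192) (.e (nat_lit 491566) (nat_lit 12) (.e (nat_lit 385044) (nat_lit 21) (.e (nat_lit 4202) (nat_lit 251) (.e (nat_lit 1220) (nat_lit 90) .nil))))))) (.g (nat_lit 4) .nil .nil)))) (.nd (nat_lit 6) 
(.lf (nat_lit 210340) (.g (nat_lit 2102) (.e (nat_lit 81953) (nat_lit 22) (.e (nat_lit 90130) (nat_lit 9) (.e (nat_lit 2830) (nat_lit 182) (.e (nat_lit 409616) (nat_lit 10) (.e (nat_lit 5763) (nat_lit 315) (.e (nat_lit 163950) (nat_lit 21) (.e (nat_lit 507648) (nat_lit 20) .nil))))))) (.g (nat_lit 4) .nil .nil))) 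
(.lf (nat_lit 210404) (.g (nat_lit 4229) (.e (nat_lit 81953) (nat_lit 22) (.e (nat_lit 90134) (nat_lit 9) (.e (nat_lit 3098) (nat_lit 192) (.e (nat_lit 491566) (nat_lit 12) (.e (nat_lit 385050) (nat_lit 21) (.e (nat_lit 4213) (nat_lit 251) (.e (nat_lit 1220) (nat_lit 90) .nil))))))) (.g (nat_lit 4) .nil .nil))))) (.nd (nat_lit 5) (.nd (nat_lit 6) 
(.lf (nat_lit 210324) (.g (nat_lit 2071) (.e (nat_lit 81952) (nat_lit 22) (.e (nat_lit 90160) (nat_lit 11) (.e (nat_lit 24599) (nat_lit 1) (.e (nat_lit 57854) (nat_lit 252) (.e (nat_lit 57363) (nat_lit 1) .nil))))) .nil)) 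
(.lf (nat_lit 210388) (.g (nat_lit 3516) (.e (nat_lit 81953) (nat_lit 22) (.e (nat_lit 90134) (nat_lit 9) (.e (nat_lit 3098) (nat_lit 192) (.e (nat_lit 491566) (nat_lit 12) (.e (nat_lit 385046) (nat_lit 21) (.e (nat_lit 4202) (nat_lit 251) (.e (nat_lit 1220) (nat_lit 90) .nil))))))) (.g (nat_lit 4) .nil .nil)))) (.nd (nat_lit 6) 
(.lf (nat_lit 210356) (.g (nat_lit 3753) (.e (nat_lit 81953) (nat_lit 22) (.e (nat_lit 90134) (nat_lit 9) (.e (nat_lit 3098) (nat_lit 192) (.e (nat_lit 491566) (nat_lit 12) (.e (nat_lit 385043) (nat_lit 21) (.e (nat_lit 4200) (nat_lit 251) (.e (nat_lit 1220) (nat_lit 90) .nil))))))) (.g (nat_lit 4) .nil .nil))) 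
(.lf (nat_lit 210420) (.g (nat_lit 2245) (.e (nat_lit 81953) (nat_lit 22) (.e (nat_lit 90160) (nat_lit 11) (.e (nat_lit 24584) (nat_lit 0) (.e (nat_lit 1105) (nat_lit 81) .nil)))) .nil))))) (.nd (nat_lit 4) (.nd (nat_lit 5) (.nd (nat_lit 6) 
(.lf (nat_lit 210316) (.g (nat_lit 2276) (.e (nat_lit 81952) (nat_lit 22) (.e (nat_lit 90160) (nat_lit 11) (.e (nat_lit 24597) (nat_lit 1) (.e (nat_lit 57847) (nat_lit 252) (.e (nat_lit 57365) (nat_lit 1) .nil))))) .nil)) 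
(.lf (nat_lit 210380) (.g (nat_lit 3343) (.e (nat_lit 81953) (nat_lit 22) (.e (nat_lit 90134) (nat_lit 9) (.e (nat_lit 3098) (nat_lit 192) (.e (nat_lit 491566) (nat_lit 12) (.e (nat_lit 385045) (nat_lit 21) (.e (nat_lit 4197) (nat_lit 251) (.e (nat_lit 1221) (nat_lit 90) .nil))))))) (.g (nat_lit 4) .nil .nil)))) (.nd (nat_lit 6) 
(.lf (nat_lit 210348) (.g (nat_lit 342) (.e (nat_lit 81953) (nat_lit 22) (.e (nat_lit 90134) (nat_lit 9) (.e (nat_lit 3098) (nat_lit 192) .nil))) .nil)) 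
(.lf (nat_lit 210412) (.g (nat_lit 4152) (.e (nat_lit 81953) (nat_lit 22) (.e (nat_lit 90134) (nat_lit 9) (.e (nat_lit 3098) (nat_lit 192) (.e (nat_lit 491566) (nat_lit 12) (.e (nat_lit 385052) (nat_lit 21) (.e (nat_lit 4190) (nat_lit 251) (.e (nat_lit 1220) (nat_lit 90) .nil))))))) (.g (nat_lit 4) .nil .nil))))) (.nd (nat_lit 5) (.nd (nat_lit 6) 
(.lf (nat_lit 210332) (.g (nat_lit 786) (.e (nat_lit 81952) (nat_lit 22) (.e (nat_lit 90174) (nat_lit 14) (.e (nat_lit 180224) (nat_lit 0) .nil))) .nil)) 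
(.lf (nat_lit 210396) (.g (nat_lit 3652) (.e (nat_lit 81953) (nat_lit 22) (.e (nat_lit 90134) (nat_lit 9) (.e (nat_lit 3098) (nat_lit 192) (.e (nat_lit 491566) (nat_lit 12) (.e (nat_lit 385048) (nat_lit 21) (.e (nat_lit 4213) (nat_lit 251) (.e (nat_lit 1221) (nat_lit 90) .nil))))))) (.g (nat_lit 4) .nil .nil)))) (.nd (nat_lit 6) 
(.lf (nat_lit 210364) (.g (nat_lit 3532) (.e (nat_lit 81953) (nat_lit 22) (.e (nat_lit 90134) (nat_lit 9) (.e (nat_lit 3098) (nat_lit 192) (.e (nat_lit 491566) (nat_lit 12) (.e (nat_lit 385044) (nat_lit 21) (.e (nat_lit 4168) (nat_lit 251) (.e (nat_lit 1220) (nat_lit 90) .nil))))))) (.g (nat_lit 4) .nil .nil))) 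
(.lf (nat_lit 210428) (.g (nat_lit 1476) (.e (nat_lit 81954) (nat_lit 23) (.e (nat_lit 98309) (nat_lit 0) (.e (nat_lit 6209) (nat_lit 333) (.e (nat_lit 57796) (nat_lit 245) (.e (nat_lit 7936) (nat_lit 161) (.e (nat_lit 48896) (nat_lit 6) .nil)))))) (.g (nat_lit 4) .nil .nil)))))))) (.nd (nat_lit 2) (.nd (nat_lit 3) (.nd (nat_lit 4) (.nd (nat_lit 5) (.nd (nat_lit 6) 
(.lf (nat_lit 210306) (.g (nat_lit 2881) (.e (nat_lit 81951) (nat_lit 22) (.e (nat_lit 90170) (nat_lit 13) (.e (nat_lit 172068) (nat_lit 4) (.e (nat_lit 229638) (nat_lit 228) (.e (nat_lit 57373) (nat_lit 2) (.e (nat_lit 98048) (nat_lit 6) .nil)))))) (.g (nat_lit 5) .nil .nil))) 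
(.lf (nat_lit 210370) (.g (nat_lit 3689) (.e (nat_lit 81953) (nat_lit 22) (.e (nat_lit 90134) (nat_lit 9) (.e (nat_lit 3098) (nat_lit 192) (.e (nat_lit 491566) (nat_lit 12) (.e (nat_lit 385044) (nat_lit 21) (.e (nat_lit 4200) (nat_lit 251) (.e (nat_lit 1220) (nat_lit 90) .nil))))))) (.g (nat_lit 4) .nil .nil)))) (.nd (nat_lit 6) 
(.lf (nat_lit 210338) (.g (nat_lit 2118) (.e (nat_lit 81953) (nat_lit 22) (.e (nat_lit 98048) (nat_lit 2) (.e (nat_lit 16473) (nat_lit 14) (.e (nat_lit 491526) (nat_lit 0) (.e (nat_lit 2346) (nat_lit 151) (.e (nat_lit 786176) (nat_lit 6) .nil)))))) (.g (nat_lit 5) .nil .nil))) 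
(.lf (nat_lit 210402) (.g (nat_lit 3978) (.e (nat_lit 81953) (nat_lit 22) (.e (nat_lit 90134) (nat_lit 9) (.e (nat_lit 3098) (nat_lit 192) (.e (nat_lit 491566) (nat_lit 12) (.e (nat_lit 385050) (nat_lit 21) (.e (nat_lit 4168) (nat_lit 251) (.e (nat_lit 1220) (nat_lit 90) .nil))))))) (.g (nat_lit 4) .nil .nil))))) (.nd (nat_lit 5) (.nd (nat_lit 6) 
(.lf (nat_lit 210322) (.g (nat_lit 2353) (.e (nat_lit 81952) (nat_lit 22) (.e (nat_lit 90160) (nat_lit 11) (.e (nat_lit 24599) (nat_lit 1) (.e (nat_lit 57847) (nat_lit 252) (.e (nat_lit 57368) (nat_lit 1) .nil))))) .nil)) 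
(.lf (nat_lit 210386) (.g (nat_lit 3204) (.e (nat_lit 81953) (nat_lit 22) (.e (nat_lit 90134) (nat_lit 9) (.e (nat_lit 3098) (nat_lit 192) (.e (nat_lit 491566) (nat_lit 12) (.e (nat_lit 385046) (nat_lit 21) (.e (nat_lit 4193) (nat_lit 251) (.e (nat_lit 1220) (nat_lit 90) .nil))))))) (.g (nat_lit 4) .nil .nil)))) (.nd (nat_lit 6) 
(.lf (nat_lit 210354) (.g (nat_lit 3199) (.e (nat_lit 81953) (nat_lit 22) (.e (nat_lit 90134) (nat_lit 9) (.e (nat_lit 3098) (nat_lit 192) (.e (nat_lit 491566) (nat_lit 12) (.e (nat_lit 385043) (nat_lit 21) (.e (nat_lit 4198) (nat_lit 251) (.e (nat_lit 1221) (nat_lit 90) .nil))))))) (.g (nat_lit 4) .nil .nil))) 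
(.lf (nat_lit 210418) (.g (nat_lit 1013) (.e (nat_lit 81953) (nat_lit 22) (.e (nat_lit 90160) (nat_lit 11) (.e (nat_lit 24580) (nat_lit 0) .nil))) .nil))))) (.nd (nat_lit 4) (.nd (nat_lit 5) (.nd (nat_lit 6) 
(.lf (nat_lit 210314) (.g (nat_lit 893) (.e (nat_lit 81952) (nat_lit 22) (.e (nat_lit 90160) (nat_lit 11) (.e (nat_lit 24597) (nat_lit 1) .nil))) .nil)) 
(.lf (nat_lit 210378) (.g (nat_lit 2894) (.e (nat_lit 81953) (nat_lit 22) (.e (nat_lit 90134) (nat_lit 9) (.e (nat_lit 3098) (nat_lit 192) (.e (nat_lit 491566) (nat_lit 12) (.e (nat_lit 385045) (nat_lit 21) (.e (nat_lit 4173) (nat_lit 251) (.e (nat_lit 1215) (nat_lit 90) .nil))))))) (.g (nat_lit 4) .nil .nil)))) (.nd (nat_lit 6) 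
(.lf (nat_lit 210346) (.g (nat_lit 1926) (.e (nat_lit 81953) (nat_lit 22) (.e (nat_lit 90133) (nat_lit 9) (.e (nat_lit 3105) (nat_lit 192) (.e (nat_lit 491566) (nat_lit 12) (.e (nat_lit 385045) (nat_lit 21) .nil))))) .nil)) 
(.lf (nat_lit 210410) (.g (nat_lit 4005) (.e (nat_lit 81953) (nat_lit 22) (.e (nat_lit 90134) (nat_lit 9) (.e (nat_lit 3098) (nat_lit 192) (.e (nat_lit 491566) (nat_lit 12) (.e (nat_lit 385050) (nat_lit 21) (.e (nat_lit 4217) (nat_lit 251) (.e (nat_lit 1221) (nat_lit 90) .nil))))))) (.g (nat_lit 4) .nil .nil))))) (.nd (nat_lit 5) (.nd (nat_lit 6) 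
(.lf (nat_lit 210330) (.g (nat_lit 451) (.e (nat_lit 81952) (nat_lit 22) (.e (nat_lit 90169) (nat_lit 13) (.e (nat_lit 172130) (nat_lit 15) .nil))) .nil)) 
(.lf (nat_lit 210394) (.g (nat_lit 3820) (.e (nat_lit 81953) (nat_lit 22) (.e (nat_lit 90134) (nat_lit 9) (.e (nat_lit 3098) (nat_lit 192) (.e (nat_lit 491566) (nat_lit 12) (.e (nat_lit 385048) (nat_lit 21) (.e (nat_lit 4204) (nat_lit 251) (.e (nat_lit 1220) (nat_lit 90) .nil))))))) (.g (nat_lit 4) .nil .nil)))) (.nd (nat_lit 6) 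
(.lf (nat_lit 210362) (.g (nat_lit 3162) (.e (nat_lit 81953) (nat_lit 22) (.e (nat_lit 90134) (nat_lit 9) (.e (nat_lit 3098) (nat_lit 192) (.e (nat_lit 491566) (nat_lit 12) (.e (nat_lit 385043) (nat_lit 21) (.e (nat_lit 4214) (nat_lit 251) (.e (nat_lit 1221) (nat_lit 90) .nil))))))) (.g (nat_lit 4) .nil .nil))) 
(.lf (nat_lit 210426) (.g (nat_lit 373) (.e (nat_lit 81953) (nat_lit 22) (.e (nat_lit 90170) (nat_lit 13) (.e (nat_lit 179968) (nat_lit 20) .nil))) .nil)))))) (.nd (nat_lit 3) (.nd (nat_lit 4) (.nd (nat_lit 5) (.nd (nat_lit 6) 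
(.lf (nat_lit 210310) (.g (nat_lit 2043) (.e (nat_lit 81951) (nat_lit 22) (.e (nat_lit 90170) (nat_lit 13) (.e (nat_lit 179968) (nat_lit 20) (.e (nat_lit 114708) (nat_lit 20) (.e (nat_lit 1855) (nat_lit 124) (.e (nat_lit 564992) (nat_lit 6) .nil)))))) (.g (nat_lit 5) .nil .nil))) 
(.lf (nat_lit 210374) (.g (nat_lit 4226) (.e (nat_lit 81953) (nat_lit 22) (.e (nat_lit 90134) (nat_lit 9) (.e (nat_lit 3098) (nat_lit 192) (.e (nat_lit 491566) (nat_lit 12) (.e (nat_lit 385044) (nat_lit 21) (.e (nat_lit 4210) (nat_lit 251) (.e (nat_lit 1221) (nat_lit 90) .nil))))))) (.g (nat_lit 4) .nil .nil)))) (.nd (nat_lit 6) 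
(.lf (nat_lit 210342) (.g (nat_lit 1932) (.e (nat_lit 81953) (nat_lit 22) (.e (nat_lit 90130) (nat_lit 9) (.e (nat_lit 2830) (nat_lit 182) (.e (nat_lit 409649) (nat_lit 18) (.e (nat_lit 303111) (nat_lit 0) (.e (nat_lit 3115) (nat_lit 193) (.e (nat_lit 507648) (nat_lit 20) .nil))))))) (.g (nat_lit 4) .nil .nil))) 
(.lf (nat_lit 210406) (.g (nat_lit 4013) (.e (nat_lit 81953) (nat_lit 22) (.e (nat_lit 90134) (nat_lit 9) (.e (nat_lit 3098) (nat_lit 192) (.e (nat_lit 491566) (nat_lit 12) (.e (nat_lit 385050) (nat_lit 21) (.e (nat_lit 4214) (nat_lit 251) (.e (nat_lit 1221) (nat_lit 90) .nil))))))) (.g (nat_lit 4) .nil .nil))))) (.nd (nat_lit 5) (.nd (nat_lit 6) 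
(.lf (nat_lit 210326) (.g (nat_lit 762) (.e (nat_lit 81952) (nat_lit 22) (.e (nat_lit 90160) (nat_lit 11) (.e (nat_lit 32512) (nat_lit 20) .nil))) .nil)) 
(.lf (nat_lit 210390) (.g (nat_lit 3400) (.e (nat_lit 81953) (nat_lit 22) (.e (nat_lit 90134) (nat_lit 9) (.e (nat_lit 3098) (nat_lit 192) (.e (nat_lit 491566) (nat_lit 12) (.e (nat_lit 385046) (nat_lit 21) (.e (nat_lit 4212) (nat_lit 251) (.e (nat_lit 1220) (nat_lit 90) .nil))))))) (.g (nat_lit 4) .nil .nil)))) (.nd (nat_lit 6) 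
(.lf (nat_lit 210358) (.g (nat_lit 3282) (.e (nat_lit 81953) (nat_lit 22) (.e (nat_lit 90134) (nat_lit 9) (.e (nat_lit 3098) (nat_lit 192) (.e (nat_lit 491566) (nat_lit 12) (.e (nat_lit 385043) (nat_lit 21) (.e (nat_lit 4203) (nat_lit 251) (.e (nat_lit 1220) (nat_lit 90) .nil))))))) (.g (nat_lit 4) .nil .nil))) 
(.lf (nat_lit 210422) (.g (nat_lit 726) (.e (nat_lit 81953) (nat_lit 22) (.e (nat_lit 90160) (nat_lit 11) (.e (nat_lit 32512) (nat_lit 20) .nil))) .nil))))) (.nd (nat_lit 4) (.nd (nat_lit 5) (.nd (nat_lit 6) 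
(.lf (nat_lit 210318) (.g (nat_lit 744) (.e (nat_lit 81952) (nat_lit 22) (.e (nat_lit 90160) (nat_lit 11) (.e (nat_lit 24599) (nat_lit 1) .nil))) .nil)) 
(.lf (nat_lit 210382) (.g (nat_lit 3102) (.e (nat_lit 81953) (nat_lit 22) (.e (nat_lit 90134) (nat_lit 9) (.e (nat_lit 3098) (nat_lit 192) (.e (nat_lit 491566) (nat_lit 12) (.e (nat_lit 385045) (nat_lit 21) (.e (nat_lit 4210) (nat_lit 251) (.e (nat_lit 1221) (nat_lit 90) .nil))))))) (.g (nat_lit 4) .nil .nil)))) (.nd (nat_lit 6) 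
(.lf (nat_lit 210350) (.g (nat_lit 3390) (.e (nat_lit 81953) (nat_lit 22) (.e (nat_lit 90134) (nat_lit 9) (.e (nat_lit 3098) (nat_lit 192) (.e (nat_lit 491566) (nat_lit 12) (.e (nat_lit 385043) (nat_lit 21) (.e (nat_lit 4168) (nat_lit 251) (.e (nat_lit 1220) (nat_lit 90) .nil))))))) (.g (nat_lit 4) .nil .nil))) 
(.lf (nat_lit 210414) (.g (nat_lit 3315) (.e (nat_lit 81953) (nat_lit 22) (.e (nat_lit 90134) (nat_lit 9) (.e (nat_lit 3098) (nat_lit 192) (.e (nat_lit 491566) (nat_lit 12) (.e (nat_lit 385053) (nat_lit 21) .nil))))) .nil)))) (.nd (nat_lit 5) (.nd (nat_lit 6) 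
(.lf (nat_lit 210334) (.g (nat_lit 1410) (.e (nat_lit 81952) (nat_lit 22) (.e (nat_lit 90185) (nat_lit 17) (.e (nat_lit 237585) (nat_lit 1) (.e (nat_lit 164297) (nat_lit 226) .nil)))) .nil)) 
(.lf (nat_lit 210398) (.g (nat_lit 3601) (.e (nat_lit 81953) (nat_lit 22) (.e (nat_lit 90134) (nat_lit 9) (.e (nat_lit 3098) (nat_lit 192) (.e (nat_lit 491566) (nat_lit 12) (.e (nat_lit 385048) (nat_lit 21) (.e (nat_lit 4216) (nat_lit 251) (.e (nat_lit 1220) (nat_lit 90) .nil))))))) (.g (nat_lit 4) .nil .nil)))) (.nd (nat_lit 6) 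
(.lf (nat_lit 210366) (.g (nat_lit 3842) (.e (nat_lit 81953) (nat_lit 22) (.e (nat_lit 90134) (nat_lit 9) (.e (nat_lit 3098) (nat_lit 192) (.e (nat_lit 491566) (nat_lit 12) (.e (nat_lit 385044) (nat_lit 21) (.e (nat_lit 4175) (nat_lit 251) (.e (nat_lit 1217) (nat_lit 90) .nil))))))) (.g (nat_lit 4) .nil .nil))) 
(.lf (nat_lit 210430) (.g (nat_lit 435) (.e (nat_lit 81954) (nat_lit 23) (.e (nat_lit 98313) (nat_lit 9) (.e (nat_lit 335995) (nat_lit 1) .nil))) .nil)))))))) (.nd (nat_lit 1) (.nd (nat_lit 2) (.nd (nat_lit 3) (.nd (nat_lit 4) (.nd (nat_lit 5) (.nd (nat_lit 6) 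
(.lf (nat_lit 210305) (.g (nat_lit 2468) (.e (nat_lit 81951) (nat_lit 22) (.e (nat_lit 90170) (nat_lit 13) (.e (nat_lit 172049) (nat_lit 0) (.e (nat_lit 3391) (nat_lit 210) (.e (nat_lit 639011) (nat_lit 13) (.e (nat_lit 1234) (nat_lit 91) (.e (nat_lit 98048) (nat_lit 6) .nil))))))) (.g (nat_lit 6) .nil .nil))) 
(.lf (nat_lit 210369) (.g (nat_lit 3198) (.e (nat_lit 81953) (nat_lit 22) (.e (nat_lit 90134) (nat_lit 9) (.e (nat_lit 3098) (nat_lit 192) (.e (nat_lit 491566) (nat_lit 12) (.e (nat_lit 385044) (nat_lit 21) (.e (nat_lit 4198) (nat_lit 251) (.e (nat_lit 1221) (nat_lit 90) .nil))))))) (.g (nat_lit 4) .nil .nil)))) (.nd (nat_lit 6) 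
(.lf (nat_lit 210337) (.g (nat_lit 2200) (.e (nat_lit 81953) (nat_lit 22) (.e (nat_lit 98048) (nat_lit 2) (.e (nat_lit 16392) (nat_lit 0) (.e (nat_lit 7107) (nat_lit 380) (.e (nat_lit 164108) (nat_lit 116) (.e (nat_lit 786176) (nat_lit 6) .nil)))))) (.g (nat_lit 5) .nil .nil))) 
(.lf (nat_lit 210401) (.g (nat_lit 4157) (.e (nat_lit 81953) (nat_lit 22) (.e (nat_lit 90134) (nat_lit 9) (.e (nat_lit 3098) (nat_lit 192) (.e (nat_lit 491566) (nat_lit 12) (.e (nat_lit 385049) (nat_lit 21) (.e (nat_lit 4214) (nat_lit 251) (.e (nat_lit 1220) (nat_lit 90) .nil))))))) (.g (nat_lit 4) .nil .nil))))) (.nd (nat_lit 5) (.nd (nat_lit 6) 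
(.lf (nat_lit 210321) (.g (nat_lit 2382) (.e (nat_lit 81952) (nat_lit 22) (.e (nat_lit 90160) (nat_lit 11) (.e (nat_lit 24599) (nat_lit 1) (.e (nat_lit 57847) (nat_lit 252) (.e (nat_lit 57367) (nat_lit 1) .nil))))) .nil)) 
(.lf (nat_lit 210385) (.g (nat_lit 3249) (.e (nat_lit 81953) (nat_lit 22) (.e (nat_lit 90134) (nat_lit 9) (.e (nat_lit 3098) (nat_lit 192) (.e (nat_lit 491566) (nat_lit 12) (.e (nat_lit 385046) (nat_lit 21) (.e (nat_lit 4192) (nat_lit 251) (.e (nat_lit 1220) (nat_lit 90) .nil))))))) (.g (nat_lit 4) .nil .nil)))) (.nd (nat_lit 6) 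
(.lf (nat_lit 210353) (.g (nat_lit 3705) (.e (nat_lit 81953) (nat_lit 22) (.e (nat_lit 90134) (nat_lit 9) (.e (nat_lit 3098) (nat_lit 192) (.e (nat_lit 491566) (nat_lit 12) (.e (nat_lit 385043) (nat_lit 21) (.e (nat_lit 4196) (nat_lit 251) (.e (nat_lit 1221) (nat_lit 90) .nil))))))) (.g (nat_lit 4) .nil .nil))) 
(.lf (nat_lit 210417) (.g (nat_lit 3394) (.e (nat_lit 81953) (nat_lit 22) (.e (nat_lit 90134) (nat_lit 9) (.e (nat_lit 3098) (nat_lit 192) (.e (nat_lit 491566) (nat_lit 12) (.e (nat_lit 385075) (nat_lit 32) (.e (nat_lit 581671) (nat_lit 15) .nil)))))) (.g (nat_lit 4) .nil .nil)))))) (.nd (nat_lit 4) (.nd (nat_lit 5) (.nd (nat_lit 6) 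
(.lf (nat_lit 210313) (.g (nat_lit 2247) (.e (nat_lit 81952) (nat_lit 22) (.e (nat_lit 90160) (nat_lit 11) (.e (nat_lit 24584) (nat_lit 0) (.e (nat_lit 1105) (nat_lit 81) .nil)))) .nil)) 
(.lf (nat_lit 210377) (.g (nat_lit 2431) (.e (nat_lit 81953) (nat_lit 22) (.e (nat_lit 90134) (nat_lit 9) (.e (nat_lit 3098) (nat_lit 192) (.e (nat_lit 491566) (nat_lit 12) (.e (nat_lit 385045) (nat_lit 21) .nil))))) .nil))) (.nd (nat_lit 6) 
(.lf (nat_lit 210345) (.g (nat_lit 2510) (.e (nat_lit 81953) (nat_lit 22) (.e (nat_lit 90133) (nat_lit 9) (.e (nat_lit 2744) (nat_lit 174) (.e (nat_lit 253963) (nat_lit 9) (.e (nat_lit 1277) (nat_lit 94) (.e (nat_lit 114711) (nat_lit 21) (.e (nat_lit 57872) (nat_lit 264) (.e (nat_lit 1221) (nat_lit 90) .nil)))))))) (.g (nat_lit 4) .nil .nil))) 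
(.lf (nat_lit 210409) (.g (nat_lit 3742) (.e (nat_lit 81953) (nat_lit 22) (.e (nat_lit 90134) (nat_lit 9) (.e (nat_lit 3098) (nat_lit 192) (.e (nat_lit 491566) (nat_lit 12) (.e (nat_lit 385050) (nat_lit 21) (.e (nat_lit 4217) (nat_lit 251) (.e (nat_lit 1220) (nat_lit 90) .nil))))))) (.g (nat_lit 4) .nil .nil))))) (.nd (nat_lit 5) (.nd (nat_lit 6) 
(.lf (nat_lit 210329) (.g (nat_lit 144) (.e (nat_lit 81952) (nat_lit 22) (.e (nat_lit 90165) (nat_lit 12) (.e (nat_lit 171776) (nat_lit 194) .nil))) .nil)) 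
(.lf (nat_lit 210393) (.g (nat_lit 3805) (.e (nat_lit 81953) (nat_lit 22) (.e (nat_lit 90134) (nat_lit 9) (.e (nat_lit 3098) (nat_lit 192) (.e (nat_lit 491566) (nat_lit 12) (.e (nat_lit 385048) (nat_lit 21) (.e (nat_lit 4168) (nat_lit 251) (.e (nat_lit 1221) (nat_lit 90) .nil))))))) (.g (nat_lit 4) .nil .nil)))) (.nd (nat_lit 6) 
(.lf (nat_lit 210361) (.g (nat_lit 3614) (.e (nat_lit 81953) (nat_lit 22) (.e (nat_lit 90134) (nat_lit 9) (.e (nat_lit 3098) (nat_lit 192) (.e (nat_lit 491566) (nat_lit 12) (.e (nat_lit 385043) (nat_lit 21) (.e (nat_lit 4213) (nat_lit 251) (.e (nat_lit 1221) (nat_lit 90) .nil))))))) (.g (nat_lit 4) .nil .nil))) 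
(.lf (nat_lit 210425) (.g (nat_lit 782) (.e (nat_lit 81953) (nat_lit 22) (.e (nat_lit 90170) (nat_lit 13) (.e (nat_lit 172137) (nat_lit 15) .nil))) .nil)))))) (.nd (nat_lit 3) (.nd (nat_lit 4) (.nd (nat_lit 5) (.nd (nat_lit 6) 
(.lf (nat_lit 210309) (.g (nat_lit 1917) (.e (nat_lit 81951) (nat_lit 22) (.e (nat_lit 90170) (nat_lit 13) (.e (nat_lit 179968) (nat_lit 20) (.e (nat_lit 114703) (nat_lit 20) (.e (nat_lit 1855) (nat_lit 124) (.e (nat_lit 564992) (nat_lit 6) .nil)))))) (.g (nat_lit 5) .nil .nil))) 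
(.lf (nat_lit 210373) (.g (nat_lit 3299) (.e (nat_lit 81953) (nat_lit 22) (.e (nat_lit 90134) (nat_lit 9) (.e (nat_lit 3098) (nat_lit 192) (.e (nat_lit 491566) (nat_lit 12) (.e (nat_lit 385044) (nat_lit 21) (.e (nat_lit 4203) (nat_lit 251) (.e (nat_lit 1220) (nat_lit 90) .nil))))))) (.g (nat_lit 4) .nil .nil)))) (.nd (nat_lit 6) 
(.lf (nat_lit 210341) (.g (nat_lit 2582) (.e (nat_lit 81953) (nat_lit 22) (.e (nat_lit 90130) (nat_lit 9) (.e (nat_lit 2830) (nat_lit 182) (.e (nat_lit 409617) (nat_lit 10) (.e (nat_lit 5762) (nat_lit 315) (.e (nat_lit 163950) (nat_lit 21) (.e (nat_lit 507648) (nat_lit 20) .nil))))))) (.g (nat_lit 6) .nil .nil))) 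
(.lf (nat_lit 210405) (.g (nat_lit 3946) (.e (nat_lit 81953) (nat_lit 22) (.e (nat_lit 90134) (nat_lit 9) (.e (nat_lit 3098) (nat_lit 192) (.e (nat_lit 491566) (nat_lit 12) (.e (nat_lit 385050) (nat_lit 21) (.e (nat_lit 4213) (nat_lit 251) (.e (nat_lit 1221) (nat_lit 90) .nil))))))) (.g (nat_lit 4) .nil .nil))))) (.nd (nat_lit 5) (.nd (nat_lit 6) 
(.lf (nat_lit 210325) (.g (nat_lit 2329) (.e (nat_lit 81952) (nat_lit 22) (.e (nat_lit 90160) (nat_lit 11) (.e (nat_lit 24599) (nat_lit 1) (.e (nat_lit 57854) (nat_lit 252) (.e (nat_lit 57364) (nat_lit 1) (.e (nat_lit 65280) (nat_lit 209) (.e (nat_lit 1217) (nat_lit 90) .nil))))))) (.g (nat_lit 4) .nil .nil))) 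
(.lf (nat_lit 210389) (.g (nat_lit 3529) (.e (nat_lit 81953) (nat_lit 22) (.e (nat_lit 90134) (nat_lit 9) (.e (nat_lit 3098) (nat_lit 192) (.e (nat_lit 491566) (nat_lit 12) (.e (nat_lit 385046) (nat_lit 21) (.e (nat_lit 4203) (nat_lit 251) (.e (nat_lit 1220) (nat_lit 90) .nil))))))) (.g (nat_lit 4) .nil .nil)))) (.nd (nat_lit 6) 
(.lf (nat_lit 210357) (.g (nat_lit 3656) (.e (nat_lit 81953) (nat_lit 22) (.e (nat_lit 90134) (nat_lit 9) (.e (nat_lit 3098) (nat_lit 192) (.e (nat_lit 491566) (nat_lit 12) (.e (nat_lit 385043) (nat_lit 21) (.e (nat_lit 4200) (nat_lit 251) (.e (nat_lit 1221) (nat_lit 90) .nil))))))) (.g (nat_lit 4) .nil .nil))) 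
(.lf (nat_lit 210421) (.g (nat_lit 1932) (.e (nat_lit 81953) (nat_lit 22) (.e (nat_lit 90160) (nat_lit 11) (.e (nat_lit 24584) (nat_lit 0) (.e (nat_lit 1996) (nat_lit 137) .nil)))) .nil))))) (.nd (nat_lit 4) (.nd (nat_lit 5) (.nd (nat_lit 6) 
(.lf (nat_lit 210317) (.g (nat_lit 893) (.e (nat_lit 81952) (nat_lit 22) (.e (nat_lit 90160) (nat_lit 11) (.e (nat_lit 24598) (nat_lit 1) .nil))) .nil)) 
(.lf (nat_lit 210381) (.g (nat_lit 3328) (.e (nat_lit 81953) (nat_lit 22) (.e (nat_lit 90134) (nat_lit 9) (.e (nat_lit 3098) (nat_lit 192) (.e (nat_lit 491566) (nat_lit 12) (.e (nat_lit 385045) (nat_lit 21) (.e (nat_lit 4202) (nat_lit 251) (.e (nat_lit 1221) (nat_lit 90) .nil))))))) (.g (nat_lit 4) .nil .nil)))) (.nd (nat_lit 6) 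
(.lf (nat_lit 210349) (.g (nat_lit 2590) (.e (nat_lit 81953) (nat_lit 22) (.e (nat_lit 90134) (nat_lit 9) (.e (nat_lit 3098) (nat_lit 192) (.e (nat_lit 491566) (nat_lit 12) (.e (nat_lit 385043) (nat_lit 21) .nil))))) .nil)) 
(.lf (nat_lit 210413) (.g (nat_lit 3578) (.e (nat_lit 81953) (nat_lit 22) (.e (nat_lit 90134) (nat_lit 9) (.e (nat_lit 3098) (nat_lit 192) (.e (nat_lit 491566) (nat_lit 12) (.e (nat_lit 385052) (nat_lit 21) (.e (nat_lit 4215) (nat_lit 251) (.e (nat_lit 1221) (nat_lit 90) .nil))))))) (.g (nat_lit 4) .nil .nil))))) (.nd (nat_lit 5) (.nd (nat_lit 6) 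
(.lf (nat_lit 210333) (.g (nat_lit 787) (.e (nat_lit 81952) (nat_lit 22) (.e (nat_lit 90174) (nat_lit 14) (.e (nat_lit 180260) (nat_lit 18) .nil))) .nil)) 
(.lf (nat_lit 210397) (.g (nat_lit 3805) (.e (nat_lit 81953) (nat_lit 22) (.e (nat_lit 90134) (nat_lit 9) (.e (nat_lit 3098) (nat_lit 192) (.e (nat_lit 491566) (nat_lit 12) (.e (nat_lit 385048) (nat_lit 21) (.e (nat_lit 4214) (nat_lit 251) (.e (nat_lit 1221) (nat_lit 90) .nil))))))) (.g (nat_lit 4) .nil .nil)))) (.nd (nat_lit 6) 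
(.lf (nat_lit 210365) (.g (nat_lit 3911) (.e (nat_lit 81953) (nat_lit 22) (.e (nat_lit 90134) (nat_lit 9) (.e (nat_lit 3098) (nat_lit 192) (.e (nat_lit 491566) (nat_lit 12) (.e (nat_lit 385044) (nat_lit 21) (.e (nat_lit 4168) (nat_lit 251) (.e (nat_lit 1221) (nat_lit 90) .nil))))))) (.g (nat_lit 4) .nil .nil))) 
(.lf (nat_lit 210429) (.g (nat_lit 1065) (.e (nat_lit 81954) (nat_lit 23) (.e (nat_lit 106240) (nat_lit 7) (.e (nat_lit 319534) (nat_lit 16) (.e (nat_lit 286738) (nat_lit 6) (.e (nat_lit 155392) (nat_lit 6) .nil))))) (.g (nat_lit 4) .nil .nil)))))))) (.nd (nat_lit 2) (.nd (nat_lit 3) (.nd (nat_lit 4) (.nd (nat_lit 5) (.nd (nat_lit 6) 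
(.lf (nat_lit 210307) (.g (nat_lit 3020) (.e (nat_lit 81951) (nat_lit 22) (.e (nat_lit 90170) (nat_lit 13) (.e (nat_lit 172070) (nat_lit 4) (.e (nat_lit 229638) (nat_lit 228) (.e (nat_lit 57373) (nat_lit 2) (.e (nat_lit 98048) (nat_lit 6) .nil)))))) (.g (nat_lit 5) .nil .nil))) 
(.lf (nat_lit 210371) (.g (nat_lit 3592) (.e (nat_lit 81953) (nat_lit 22) (.e (nat_lit 90134) (nat_lit 9) (.e (nat_lit 3098) (nat_lit 192) (.e (nat_lit 491566) (nat_lit 12) (.e (nat_lit 385044) (nat_lit 21) (.e (nat_lit 4200) (nat_lit 251) (.e (nat_lit 1221) (nat_lit 90) .nil))))))) (.g (nat_lit 4) .nil .nil)))) (.nd (nat_lit 6) 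
(.lf (nat_lit 210339) (.g (nat_lit 2091) (.e (nat_lit 81953) (nat_lit 22) (.e (nat_lit 90130) (nat_lit 9) (.e (nat_lit 2830) (nat_lit 182) (.e (nat_lit 409616) (nat_lit 10) (.e (nat_lit 5762) (nat_lit 315) (.e (nat_lit 163950) (nat_lit 21) (.e (nat_lit 507648) (nat_lit 20) .nil))))))) (.g (nat_lit 4) .nil .nil))) 
(.lf (nat_lit 210403) (.g (nat_lit 4357) (.e (nat_lit 81953) (nat_lit 22) (.e (nat_lit 90134) (nat_lit 9) (.e (nat_lit 3098) (nat_lit 192) (.e (nat_lit 491566) (nat_lit 12) (.e (nat_lit 385050) (nat_lit 21) (.e (nat_lit 4168) (nat_lit 251) (.e (nat_lit 1221) (nat_lit 90) .nil))))))) (.g (nat_lit 4) .nil .nil))))) (.nd (nat_lit 5) (.nd (nat_lit 6) 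
(.lf (nat_lit 210323) (.g (nat_lit 1384) (.e (nat_lit 81952) (nat_lit 22) (.e (nat_lit 90160) (nat_lit 11) (.e (nat_lit 24599) (nat_lit 1) (.e (nat_lit 57854) (nat_lit 252) .nil)))) .nil)) 
(.lf (nat_lit 210387) (.g (nat_lit 3759) (.e (nat_lit 81953) (nat_lit 22) (.e (nat_lit 90134) (nat_lit 9) (.e (nat_lit 3098) (nat_lit 192) (.e (nat_lit 491566) (nat_lit 12) (.e (nat_lit 385046) (nat_lit 21) (.e (nat_lit 4198) (nat_lit 251) (.e (nat_lit 1221) (nat_lit 90) .nil))))))) (.g (nat_lit 4) .nil .nil)))) (.nd (nat_lit 6) 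
(.lf (nat_lit 210355) (.g (nat_lit 3277) (.e (nat_lit 81953) (nat_lit 22) (.e (nat_lit 90134) (nat_lit 9) (.e (nat_lit 3098) (nat_lit 192) (.e (nat_lit 491566) (nat_lit 12) (.e (nat_lit 385043) (nat_lit 21) (.e (nat_lit 4199) (nat_lit 251) (.e (nat_lit 1221) (nat_lit 90) .nil))))))) (.g (nat_lit 4) .nil .nil))) 
(.lf (nat_lit 210419) (.g (nat_lit 1030) (.e (nat_lit 81953) (nat_lit 22) (.e (nat_lit 90160) (nat_lit 11) (.e (nat_lit 24584) (nat_lit 0) .nil))) .nil))))) (.nd (nat_lit 4) (.nd (nat_lit 5) (.nd (nat_lit 6) 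
(.lf (nat_lit 210315) (.g (nat_lit 1513) (.e (nat_lit 81952) (nat_lit 22) (.e (nat_lit 90160) (nat_lit 11) (.e (nat_lit 24597) (nat_lit 1) (.e (nat_lit 57847) (nat_lit 252) .nil)))) .nil)) 
(.lf (nat_lit 210379) (.g (nat_lit 3032) (.e (nat_lit 81953) (nat_lit 22) (.e (nat_lit 90134) (nat_lit 9) (.e (nat_lit 3098) (nat_lit 192) (.e (nat_lit 491566) (nat_lit 12) (.e (nat_lit 385045) (nat_lit 21) (.e (nat_lit 4181) (nat_lit 251) (.e (nat_lit 1215) (nat_lit 90) .nil))))))) (.g (nat_lit 4) .nil .nil)))) (.nd (nat_lit 6) 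
(.lf (nat_lit 210347) (.g (nat_lit 391) (.e (nat_lit 81953) (nat_lit 22) (.e (nat_lit 90134) (nat_lit 9) (.e (nat_lit 3097) (nat_lit 192) .nil))) .nil)) 
(.lf (nat_lit 210411) (.g (nat_lit 4024) (.e (nat_lit 81953) (nat_lit 22) (.e (nat_lit 90134) (nat_lit 9) (.e (nat_lit 3098) (nat_lit 192) (.e (nat_lit 491566) (nat_lit 12) (.e (nat_lit 385051) (nat_lit 21) (.e (nat_lit 4217) (nat_lit 251) (.e (nat_lit 1220) (nat_lit 90) .nil))))))) (.g (nat_lit 4) .nil .nil))))) (.nd (nat_lit 5) (.nd (nat_lit 6) 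
(.lf (nat_lit 210331) (.g (nat_lit 221) (.e (nat_lit 81952) (nat_lit 22) (.e (nat_lit 90173) (nat_lit 14) (.e (nat_lit 188160) (nat_lit 0) .nil))) .nil)) 
(.lf (nat_lit 210395) (.g (nat_lit 3935) (.e (nat_lit 81953) (nat_lit 22) (.e (nat_lit 90134) (nat_lit 9) (.e (nat_lit 3098) (nat_lit 192) (.e (nat_lit 491566) (nat_lit 12) (.e (nat_lit 385048) (nat_lit 21) (.e (nat_lit 4213) (nat_lit 251) (.e (nat_lit 1220) (nat_lit 90) .nil))))))) (.g (nat_lit 4) .nil .nil)))) (.nd (nat_lit 6) 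
(.lf (nat_lit 210363) (.g (nat_lit 3366) (.e (nat_lit 81953) (nat_lit 22) (.e (nat_lit 90134) (nat_lit 9) (.e (nat_lit 3098) (nat_lit 192) (.e (nat_lit 491566) (nat_lit 12) (.e (nat_lit 385043) (nat_lit 21) (.e (nat_lit 4218) (nat_lit 251) (.e (nat_lit 1221) (nat_lit 90) .nil))))))) (.g (nat_lit 4) .nil .nil))) 
(.lf (nat_lit 210427) (.g (nat_lit 908) (.e (nat_lit 81953) (nat_lit 22) (.e (nat_lit 90174) (nat_lit 14) (.e (nat_lit 180259) (nat_lit 17) (.e (nat_lit 630811) (nat_lit 13) .nil)))) .nil)))))) (.nd (nat_lit 3) (.nd (nat_lit 4) (.nd (nat_lit 5) (.nd (nat_lit 6) 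
(.lf (nat_lit 210311) (.g (nat_lit 930) (.e (nat_lit 81951) (nat_lit 22) (.e (nat_lit 90174) (nat_lit 14) (.e (nat_lit 180224) (nat_lit 0) (.e (nat_lit 5206) (nat_lit 294) .nil)))) .nil)) 
(.lf (nat_lit 210375) (.g (nat_lit 4002) (.e (nat_lit 81953) (nat_lit 22) (.e (nat_lit 90134) (nat_lit 9) (.e (nat_lit 3098) (nat_lit 192) (.e (nat_lit 491566) (nat_lit 12) (.e (nat_lit 385044) (nat_lit 21) (.e (nat_lit 4212) (nat_lit 251) (.e (nat_lit 1221) (nat_lit 90) .nil))))))) (.g (nat_lit 4) .nil .nil)))) (.nd (nat_lit 6) 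
(.lf (nat_lit 210343) (.g (nat_lit 2593) (.e (nat_lit 81953) (nat_lit 22) (.e (nat_lit 90130) (nat_lit 9) (.e (nat_lit 2830) (nat_lit 182) (.e (nat_lit 409649) (nat_lit 18) (.e (nat_lit 303111) (nat_lit 0) (.e (nat_lit 3124) (nat_lit 193) (.e (nat_lit 507648) (nat_lit 20) .nil))))))) (.g (nat_lit 5) .nil .nil))) 
(.lf (nat_lit 210407) (.g (nat_lit 3925) (.e (nat_lit 81953) (nat_lit 22) (.e (nat_lit 90134) (nat_lit 9) (.e (nat_lit 3098) (nat_lit 192) (.e (nat_lit 491566) (nat_lit 12) (.e (nat_lit 385050) (nat_lit 21) (.e (nat_lit 4216) (nat_lit 251) (.e (nat_lit 1220) (nat_lit 90) .nil))))))) (.g (nat_lit 4) .nil .nil))))) (.nd (nat_lit 5) (.nd (nat_lit 6) 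
(.lf (nat_lit 210327) (.g (nat_lit 1385) (.e (nat_lit 81952) (nat_lit 22) (.e (nat_lit 90160) (nat_lit 11) (.e (nat_lit 32512) (nat_lit 20) (.e (nat_lit 221207) (nat_lit 21) (.e (nat_lit 164385) (nat_lit 254) (.e (nat_lit 7936) (nat_lit 90) .nil)))))) (.g (nat_lit 4) .nil .nil))) 
(.lf (nat_lit 210391) (.g (nat_lit 3346) (.e (nat_lit 81953) (nat_lit 22) (.e (nat_lit 90134) (nat_lit 9) (.e (nat_lit 3098) (nat_lit 192) (.e (nat_lit 491566) (nat_lit 12) (.e (nat_lit 385048) (nat_lit 21) .nil))))) .nil))) (.nd (nat_lit 6) 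
(.lf (nat_lit 210359) (.g (nat_lit 3226) (.e (nat_lit 81953) (nat_lit 22) (.e (nat_lit 90134) (nat_lit 9) (.e (nat_lit 3098) (nat_lit 192) (.e (nat_lit 491566) (nat_lit 12) (.e (nat_lit 385043) (nat_lit 21) (.e (nat_lit 4204) (nat_lit 251) (.e (nat_lit 1221) (nat_lit 90) .nil))))))) (.g (nat_lit 4) .nil .nil))) 
(.lf (nat_lit 210423) (.g (nat_lit 1461) (.e (nat_lit 81953) (nat_lit 22) (.e (nat_lit 90165) (nat_lit 12) (.e (nat_lit 171776) (nat_lit 192) (.e (nat_lit 73729) (nat_lit 0) (.e (nat_lit 3959) (nat_lit 239) (.e (nat_lit 1218) (nat_lit 90) .nil)))))) (.g (nat_lit 4) .nil .nil)))))) (.nd (nat_lit 4) (.nd (nat_lit 5) (.nd (nat_lit 6) 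
(.lf (nat_lit 210319) (.g (nat_lit 1411) (.e (nat_lit 81952) (nat_lit 22) (.e (nat_lit 90160) (nat_lit 11) (.e (nat_lit 24599) (nat_lit 1) (.e (nat_lit 57847) (nat_lit 252) .nil)))) .nil)) 
(.lf (nat_lit 210383) (.g (nat_lit 2733) (.e (nat_lit 81953) (nat_lit 22) (.e (nat_lit 90134) (nat_lit 9) (.e (nat_lit 3098) (nat_lit 192) (.e (nat_lit 491566) (nat_lit 12) (.e (nat_lit 385046) (nat_lit 21) .nil))))) .nil))) (.nd (nat_lit 6) 
(.lf (nat_lit 210351) (.g (nat_lit 3769) (.e (nat_lit 81953) (nat_lit 22) (.e (nat_lit 90134) (nat_lit 9) (.e (nat_lit 3098) (nat_lit 192) (.e (nat_lit 491566) (nat_lit 12) (.e (nat_lit 385043) (nat_lit 21) (.e (nat_lit 4168) (nat_lit 251) (.e (nat_lit 1221) (nat_lit 90) .nil))))))) (.g (nat_lit 4) .nil .nil))) 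
(.lf (nat_lit 210415) (.g (nat_lit 3469) (.e (nat_lit 81953) (nat_lit 22) (.e (nat_lit 90134) (nat_lit 9) (.e (nat_lit 3098) (nat_lit 192) (.e (nat_lit 491566) (nat_lit 12) (.e (nat_lit 385053) (nat_lit 21) (.e (nat_lit 4188) (nat_lit 251) (.e (nat_lit 1220) (nat_lit 90) .nil))))))) (.g (nat_lit 4) .nil .nil))))) (.nd (nat_lit 5) (.nd (nat_lit 6) 
(.lf (nat_lit 210335) (.g (nat_lit 2095) (.e (nat_lit 81952) (nat_lit 22) (.e (nat_lit 90185) (nat_lit 17) (.e (nat_lit 237585) (nat_lit 1) (.e (nat_lit 164305) (nat_lit 226) (.e (nat_lit 7936) (nat_lit 81) .nil))))) .nil)) 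
(.lf (nat_lit 210399) (.g (nat_lit 3859) (.e (nat_lit 81953) (nat_lit 22) (.e (nat_lit 90134) (nat_lit 9) (.e (nat_lit 3098) (nat_lit 192) (.e (nat_lit 491566) (nat_lit 12) (.e (nat_lit 385048) (nat_lit 21) (.e (nat_lit 4216) (nat_lit 251) (.e (nat_lit 1221) (nat_lit 90) .nil))))))) (.g (nat_lit 4) .nil .nil)))) (.nd (nat_lit 6) 
(.lf (nat_lit 210367) (.g (nat_lit 3246) (.e (nat_lit 81953) (nat_lit 22) (.e (nat_lit 90134) (nat_lit 9) (.e (nat_lit 3098) (nat_lit 192) (.e (nat_lit 491566) (nat_lit 12) (.e (nat_lit 385044) (nat_lit 21) (.e (nat_lit 4181) (nat_lit 251) (.e (nat_lit 1215) (nat_lit 90) .nil))))))) (.g (nat_lit 4) .nil .nil))) 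
(.lf (nat_lit 210431) (.g (nat_lit 1515) (.e (nat_lit 81954) (nat_lit 23) (.e (nat_lit 98313) (nat_lit 9) (.e (nat_lit 335995) (nat_lit 1) (.e (nat_lit 57843) (nat_lit 251) .nil)))) .nil)))))))))

noncomputable def tv2781 : DT := (.nd (nat_lit 0) (.nd (nat_lit 1) (.nd (nat_lit 2) (.nd (nat_lit 3) (.nd (nat_lit 4) (.nd (nat_lit 5) (.nd (nat_lit 6) 
(.lf (nat_lit 210432) (.g (nat_lit 1066) (.e (nat_lit 81954) (nat_lit 23) (.e (nat_lit 98313) (nat_lit 9) (.e (nat_lit 335995) (nat_lit 1) (.e (nat_lit 57847) (nat_lit 252) .nil)))) .nil)) 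
(.lf (nat_lit 210496) (.g (nat_lit 366) (.e (nat_lit 81954) (nat_lit 23) (.e (nat_lit 98349) (nat_lit 24) (.e (nat_lit 417536) (nat_lit 10) .nil))) .nil))) (.nd (nat_lit 6) 
(.lf (nat_lit 210464) (.g (nat_lit 1103) (.e (nat_lit 81954) (nat_lit 23) (.e (nat_lit 98323) (nat_lit 17) (.e (nat_lit 7107) (nat_lit 380) (.e (nat_lit 164371) (nat_lit 249) .nil)))) .nil)) 
(.lf (nat_lit 210528) (.g (nat_lit 2736) (.e (nat_lit 81954) (nat_lit 23) (.e (nat_lit 98350) (nat_lit 24) (.e (nat_lit 409643) (nat_lit 18) (.e (nat_lit 303117) (nat_lit 2) (.e (nat_lit 196674) (nat_lit 15) .nil))))) (.g (nat_lit 4) .nil .nil))))) (.nd (nat_lit 5) (.nd (nat_lit 6) 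
(.lf (nat_lit 210448) (.g (nat_lit 3070) (.e (nat_lit 81954) (nat_lit 23) (.e (nat_lit 98317) (nat_lit 9) (.e (nat_lit 335995) (nat_lit 1) (.e (nat_lit 57849) (nat_lit 252) (.e (nat_lit 57367) (nat_lit 1) .nil))))) .nil)) 
(.lf (nat_lit 210512) (.g (nat_lit 3055) (.e (nat_lit 81954) (nat_lit 23) (.e (nat_lit 98350) (nat_lit 24) (.e (nat_lit 409615) (nat_lit 10) (.e (nat_lit 5762) (nat_lit 315) (.e (nat_lit 163950) (nat_lit 21) (.e (nat_lit 507648) (nat_lit 20) .nil)))))) (.g (nat_lit 4) .nil .nil)))) (.nd (nat_lit 6) 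
(.lf (nat_lit 210480) (.g (nat_lit 1858) (.e (nat_lit 81954) (nat_lit 23) (.e (nat_lit 98334) (nat_lit 18) (.e (nat_lit 164159) (nat_lit 152) (.e (nat_lit 1201) (nat_lit 88) (.e (nat_lit 65543) (nat_lit 0) .nil))))) .nil)) 
(.lf (nat_lit 210544) (.g (nat_lit 584) (.e (nat_lit 81954) (nat_lit 23) (.e (nat_lit 98350) (nat_lit 24) (.e (nat_lit 409647) (nat_lit 18) .nil))) .nil))))) (.nd (nat_lit 4) (.nd (nat_lit 5) (.nd (nat_lit 6) 
(.lf (nat_lit 210440) (.g (nat_lit 968) (.e (nat_lit 81954) (nat_lit 23) (.e (nat_lit 98317) (nat_lit 9) (.e (nat_lit 335894) (nat_lit 0) .nil))) .nil)) 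
(.lf (nat_lit 210504) (.g (nat_lit 4376) (.e (nat_lit 81954) (nat_lit 23) (.e (nat_lit 98349) (nat_lit 24) (.e (nat_lit 409646) (nat_lit 18) (.e (nat_lit 303116) (nat_lit 2) (.e (nat_lit 196672) (nat_lit 15) .nil))))) (.g (nat_lit 0) .nil .nil)))) (.nd (nat_lit 6) 
(.lf (nat_lit 210472) (.g (nat_lit 1130) (.e (nat_lit 81954) (nat_lit 23) (.e (nat_lit 98333) (nat_lit 18) (.e (nat_lit 164182) (nat_lit 154) .nil))) .nil)) 
(.lf (nat_lit 210536) (.g (nat_lit 3734) (.e (nat_lit 81954) (nat_lit 23) (.e (nat_lit 98350) (nat_lit 24) (.e (nat_lit 409645) (nat_lit 18) (.e (nat_lit 303116) (nat_lit 2) (.e (nat_lit 196672) (nat_lit 15) .nil))))) (.g (nat_lit 0) .nil .nil))))) (.nd (nat_lit 5) (.nd (nat_lit 6) 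
(.lf (nat_lit 210456) (.g (nat_lit 2039) (.e (nat_lit 81954) (nat_lit 23) (.e (nat_lit 98320) (nat_lit 17) (.e (nat_lit 7591) (nat_lit 407) (.e (nat_lit 73751) (nat_lit 7) (.e (nat_lit 548891) (nat_lit 11) .nil))))) (.g (nat_lit 0) .nil .nil))) 
(.lf (nat_lit 210520) (.g (nat_lit 3436) (.e (nat_lit 81954) (nat_lit 23) (.e (nat_lit 98350) (nat_lit 24) (.e (nat_lit 409617) (nat_lit 10) (.e (nat_lit 5762) (nat_lit 315) (.e (nat_lit 163950) (nat_lit 21) (.e (nat_lit 507648) (nat_lit 20) .nil)))))) (.g (nat_lit 5) .nil .nil)))) (.nd (nat_lit 6) 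
(.lf (nat_lit 210488) (.g (nat_lit 819) (.e (nat_lit 81954) (nat_lit 23) (.e (nat_lit 98334) (nat_lit 18) (.e (nat_lit 164182) (nat_lit 154) .nil))) .nil)) 
(.lf (nat_lit 210552) (.g (nat_lit 1736) (.e (nat_lit 81954) (nat_lit 23) (.e (nat_lit 98350) (nat_lit 24) (.e (nat_lit 409648) (nat_lit 18) (.e (nat_lit 303117) (nat_lit 2) .nil)))) .nil)))))) (.nd (nat_lit 3) (.nd (nat_lit 4) (.nd (nat_lit 5) (.nd (nat_lit 6) 
(.lf (nat_lit 210436) (.g (nat_lit 2721) (.e (nat_lit 81954) (nat_lit 23) (.e (nat_lit 98313) (nat_lit 9) (.e (nat_lit 335995) (nat_lit 1) (.e (nat_lit 57849) (nat_lit 252) (.e (nat_lit 57367) (nat_lit 1) .nil))))) .nil)) 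
(.lf (nat_lit 210500) (.g (nat_lit 2472) (.e (nat_lit 81954) (nat_lit 23) (.e (nat_lit 98349) (nat_lit 24) (.e (nat_lit 409645) (nat_lit 18) (.e (nat_lit 303112) (nat_lit 0) (.e (nat_lit 3107) (nat_lit 193) .nil))))) .nil))) (.nd (nat_lit 6) 
(.lf (nat_lit 210468) (.g (nat_lit 1726) (.e (nat_lit 81954) (nat_lit 23) (.e (nat_lit 98333) (nat_lit 18) (.e (nat_lit 164179) (nat_lit 154) (.e (nat_lit 57402) (nat_lit 11) .nil)))) .nil)) 
(.lf (nat_lit 210532) (.g (nat_lit 3610) (.e (nat_lit 81954) (nat_lit 23) (.e (nat_lit 98350) (nat_lit 24) (.e (nat_lit 409644) (nat_lit 18) (.e (nat_lit 303117) (nat_lit 2) (.e (nat_lit 196674) (nat_lit 15) .nil))))) (.g (nat_lit 5) .nil .nil))))) (.nd (nat_lit 5) (.nd (nat_lit 6) 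
(.lf (nat_lit 210452) (.g (nat_lit 781) (.e (nat_lit 81954) (nat_lit 23) (.e (nat_lit 98317) (nat_lit 9) (.e (nat_lit 343808) (nat_lit 20) .nil))) .nil)) 
(.lf (nat_lit 210516) (.g (nat_lit 1387) (.e (nat_lit 81954) (nat_lit 23) (.e (nat_lit 98350) (nat_lit 24) (.e (nat_lit 409616) (nat_lit 10) (.e (nat_lit 7936) (nat_lit 312) .nil)))) .nil))) (.nd (nat_lit 6) 
(.lf (nat_lit 210484) (.g (nat_lit 2679) (.e (nat_lit 81954) (nat_lit 23) (.e (nat_lit 98334) (nat_lit 18) (.e (nat_lit 164159) (nat_lit 152) (.e (nat_lit 1201) (nat_lit 88) (.e (nat_lit 65580) (nat_lit 6) (.e (nat_lit 155392) (nat_lit 6) .nil)))))) (.g (nat_lit 5) .nil .nil))) 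
(.lf (nat_lit 210548) (.g (nat_lit 4068) (.e (nat_lit 81954) (nat_lit 23) (.e (nat_lit 98350) (nat_lit 24) (.e (nat_lit 409647) (nat_lit 18) (.e (nat_lit 303117) (nat_lit 2) (.e (nat_lit 196672) (nat_lit 15) .nil))))) (.g (nat_lit 0) .nil .nil)))))) (.nd (nat_lit 4) (.nd (nat_lit 5) (.nd (nat_lit 6) 
(.lf (nat_lit 210444) (.g (nat_lit 799) (.e (nat_lit 81954) (nat_lit 23) (.e (nat_lit 98317) (nat_lit 9) (.e (nat_lit 335995) (nat_lit 1) .nil))) .nil)) 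
(.lf (nat_lit 210508) (.g (nat_lit 4303) (.e (nat_lit 81954) (nat_lit 23) (.e (nat_lit 98349) (nat_lit 24) (.e (nat_lit 409648) (nat_lit 18) (.e (nat_lit 303116) (nat_lit 2) (.e (nat_lit 196672) (nat_lit 15) .nil))))) (.g (nat_lit 0) .nil .nil)))) (.nd (nat_lit 6) 
(.lf (nat_lit 210476) (.g (nat_lit 915) (.e (nat_lit 81954) (nat_lit 23) (.e (nat_lit 98333) (nat_lit 18) (.e (nat_lit 164183) (nat_lit 154) .nil))) .nil)) 
(.lf (nat_lit 210540) (.g (nat_lit 3626) (.e (nat_lit 81954) (nat_lit 23) (.e (nat_lit 98350) (nat_lit 24) (.e (nat_lit 409646) (nat_lit 18) (.e (nat_lit 303116) (nat_lit 2) (.e (nat_lit 196672) (nat_lit 15) .nil))))) (.g (nat_lit 0) .nil .nil))))) (.nd (nat_lit 5) (.nd (nat_lit 6) 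
(.lf (nat_lit 210460) (.g (nat_lit 967) (.e (nat_lit 81954) (nat_lit 23) (.e (nat_lit 98323) (nat_lit 17) (.e (nat_lit 7101) (nat_lit 380) (.e (nat_lit 164371) (nat_lit 249) .nil)))) .nil)) 
(.lf (nat_lit 210524) (.g (nat_lit 986) (.e (nat_lit 81954) (nat_lit 23) (.e (nat_lit 98350) (nat_lit 24) (.e (nat_lit 409625) (nat_lit 10) .nil))) .nil))) (.nd (nat_lit 6) 
(.lf (nat_lit 210492) (.g (nat_lit 1928) (.e (nat_lit 81954) (nat_lit 23) (.e (nat_lit 98335) (nat_lit 18) (.e (nat_lit 164179) (nat_lit 154) (.e (nat_lit 57403) (nat_lit 11) .nil)))) .nil)) 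
(.lf (nat_lit 210556) (.g (nat_lit 2424) (.e (nat_lit 81954) (nat_lit 23) (.e (nat_lit 98350) (nat_lit 24) (.e (nat_lit 409649) (nat_lit 18) (.e (nat_lit 303111) (nat_lit 0) (.e (nat_lit 3115) (nat_lit 193) .nil))))) .nil))))))) (.nd (nat_lit 2) (.nd (nat_lit 3) (.nd (nat_lit 4) (.nd (nat_lit 5) (.nd (nat_lit 6) 
(.lf (nat_lit 210434) (.g (nat_lit 3079) (.e (nat_lit 81954) (nat_lit 23) (.e (nat_lit 98313) (nat_lit 9) (.e (nat_lit 335995) (nat_lit 1) (.e (nat_lit 57847) (nat_lit 252) (.e (nat_lit 57365) (nat_lit 1) (.e (nat_lit 65280) (nat_lit 209) (.e (nat_lit 1216) (nat_lit 90) .nil))))))) (.g (nat_lit 5) .nil .nil))) 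
(.lf (nat_lit 210498) (.g (nat_lit 3419) (.e (nat_lit 81954) (nat_lit 23) (.e (nat_lit 98349) (nat_lit 24) (.e (nat_lit 409644) (nat_lit 18) (.e (nat_lit 303116) (nat_lit 2) (.e (nat_lit 196672) (nat_lit 15) .nil))))) (.g (nat_lit 0) .nil .nil)))) (.nd (nat_lit 6) 
(.lf (nat_lit 210466) (.g (nat_lit 801) (.e (nat_lit 81954) (nat_lit 23) (.e (nat_lit 98333) (nat_lit 18) (.e (nat_lit 164161) (nat_lit 152) .nil))) .nil)) 
(.lf (nat_lit 210530) (.g (nat_lit 3982) (.e (nat_lit 81954) (nat_lit 23) (.e (nat_lit 98350) (nat_lit 24) (.e (nat_lit 409644) (nat_lit 18) (.e (nat_lit 303117) (nat_lit 2) (.e (nat_lit 196672) (nat_lit 15) .nil))))) (.g (nat_lit 5) .nil .nil))))) (.nd (nat_lit 5) (.nd (nat_lit 6) 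
(.lf (nat_lit 210450) (.g (nat_lit 2015) (.e (nat_lit 81954) (nat_lit 23) (.e (nat_lit 98317) (nat_lit 9) (.e (nat_lit 335996) (nat_lit 1) (.e (nat_lit 57851) (nat_lit 252) .nil)))) .nil)) 
(.lf (nat_lit 210514) (.g (nat_lit 1940) (.e (nat_lit 81954) (nat_lit 23) (.e (nat_lit 98350) (nat_lit 24) (.e (nat_lit 409616) (nat_lit 10) (.e (nat_lit 5710) (nat_lit 312) .nil)))) .nil))) (.nd (nat_lit 6) 
(.lf (nat_lit 210482) (.g (nat_lit 2576) (.e (nat_lit 81954) (nat_lit 23) (.e (nat_lit 98334) (nat_lit 18) (.e (nat_lit 164159) (nat_lit 152) (.e (nat_lit 1201) (nat_lit 88) (.e (nat_lit 65578) (nat_lit 6) (.e (nat_lit 155392) (nat_lit 6) .nil)))))) (.g (nat_lit 5) .nil .nil))) 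
(.lf (nat_lit 210546) (.g (nat_lit 4371) (.e (nat_lit 81954) (nat_lit 23) (.e (nat_lit 98350) (nat_lit 24) (.e (nat_lit 409647) (nat_lit 18) (.e (nat_lit 303116) (nat_lit 2) (.e (nat_lit 196672) (nat_lit 15) .nil))))) (.g (nat_lit 0) .nil .nil)))))) (.nd (nat_lit 4) (.nd (nat_lit 5) (.nd (nat_lit 6) 
(.lf (nat_lit 210442) (.g (nat_lit 3327) (.e (nat_lit 81954) (nat_lit 23) (.e (nat_lit 98317) (nat_lit 9) (.e (nat_lit 335986) (nat_lit 1) (.e (nat_lit 57847) (nat_lit 252) (.e (nat_lit 57367) (nat_lit 1) .nil))))) .nil)) 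
(.lf (nat_lit 210506) (.g (nat_lit 584) (.e (nat_lit 81954) (nat_lit 23) (.e (nat_lit 98349) (nat_lit 24) (.e (nat_lit 409647) (nat_lit 18) .nil))) .nil))) (.nd (nat_lit 6) 
(.lf (nat_lit 210474) (.g (nat_lit 3312) (.e (nat_lit 81954) (nat_lit 23) (.e (nat_lit 98333) (nat_lit 18) (.e (nat_lit 164182) (nat_lit 154) (.e (nat_lit 57411) (nat_lit 12) (.e (nat_lit 336052) (nat_lit 6) .nil))))) .nil)) 
(.lf (nat_lit 210538) (.g (nat_lit 2936) (.e (nat_lit 81954) (nat_lit 23) (.e (nat_lit 98350) (nat_lit 24) (.e (nat_lit 409645) (nat_lit 18) (.e (nat_lit 303117) (nat_lit 2) (.e (nat_lit 204544) (nat_lit 15) .nil))))) (.g (nat_lit 4) .nil .nil))))) (.nd (nat_lit 5) (.nd (nat_lit 6) 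
(.lf (nat_lit 210458) (.g (nat_lit 1533) (.e (nat_lit 81954) (nat_lit 23) (.e (nat_lit 98321) (nat_lit 17) (.e (nat_lit 3458) (nat_lit 216) (.e (nat_lit 688176) (nat_lit 16) (.e (nat_lit 65580) (nat_lit 6) (.e (nat_lit 155392) (nat_lit 6) .nil)))))) (.g (nat_lit 5) .nil .nil))) 
(.lf (nat_lit 210522) (.g (nat_lit 982) (.e (nat_lit 81954) (nat_lit 23) (.e (nat_lit 98350) (nat_lit 24) (.e (nat_lit 409622) (nat_lit 10) .nil))) .nil))) (.nd (nat_lit 6) 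
(.lf (nat_lit 210490) (.g (nat_lit 2473) (.e (nat_lit 81954) (nat_lit 23) (.e (nat_lit 98334) (nat_lit 18) (.e (nat_lit 164183) (nat_lit 154) (.e (nat_lit 57411) (nat_lit 12) (.e (nat_lit 335878) (nat_lit 0) .nil))))) .nil)) 
(.lf (nat_lit 210554) (.g (nat_lit 2408) (.e (nat_lit 81954) (nat_lit 23) (.e (nat_lit 98350) (nat_lit 24) (.e (nat_lit 409649) (nat_lit 18) (.e (nat_lit 303107) (nat_lit 0) .nil)))) .nil)))))) (.nd (nat_lit 3) (.nd (nat_lit 4) (.nd (nat_lit 5) (.nd (nat_lit 6) 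
(.lf (nat_lit 210438) (.g (nat_lit 2259) (.e (nat_lit 81954) (nat_lit 23) (.e (nat_lit 98313) (nat_lit 9) (.e (nat_lit 335996) (nat_lit 1) (.e (nat_lit 57854) (nat_lit 252) (.e (nat_lit 57364) (nat_lit 1) (.e (nat_lit 57754) (nat_lit 209) (.e (nat_lit 1219) (nat_lit 90) .nil))))))) (.g (nat_lit 4) .nil .nil))) 
(.lf (nat_lit 210502) (.g (nat_lit 4136) (.e (nat_lit 81954) (nat_lit 23) (.e (nat_lit 98349) (nat_lit 24) (.e (nat_lit 409645) (nat_lit 18) (.e (nat_lit 303116) (nat_lit 2) (.e (nat_lit 196672) (nat_lit 15) .nil))))) (.g (nat_lit 0) .nil .nil)))) (.nd (nat_lit 6) 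
(.lf (nat_lit 210470) (.g (nat_lit 1704) (.e (nat_lit 81954) (nat_lit 23) (.e (nat_lit 98333) (nat_lit 18) (.e (nat_lit 164179) (nat_lit 154) (.e (nat_lit 57412) (nat_lit 12) .nil)))) .nil)) 
(.lf (nat_lit 210534) (.g (nat_lit 2966) (.e (nat_lit 81954) (nat_lit 23) (.e (nat_lit 98350) (nat_lit 24) (.e (nat_lit 409645) (nat_lit 18) (.e (nat_lit 303112) (nat_lit 0) (.e (nat_lit 3144) (nat_lit 193) (.e (nat_lit 500078) (nat_lit 20) .nil)))))) (.g (nat_lit 4) .nil .nil))))) (.nd (nat_lit 5) (.nd (nat_lit 6) 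
(.lf (nat_lit 210454) (.g (nat_lit 738) (.e (nat_lit 81954) (nat_lit 23) (.e (nat_lit 98320) (nat_lit 17) (.e (nat_lit 7109) (nat_lit 380) (.e (nat_lit 164375) (nat_lit 252) .nil)))) .nil)) 
(.lf (nat_lit 210518) (.g (nat_lit 1322) (.e (nat_lit 81954) (nat_lit 23) (.e (nat_lit 98350) (nat_lit 24) (.e (nat_lit 409617) (nat_lit 10) (.e (nat_lit 7936) (nat_lit 299) .nil)))) .nil))) (.nd (nat_lit 6) 
(.lf (nat_lit 210486) (.g (nat_lit 1549) (.e (nat_lit 81954) (nat_lit 23) (.e (nat_lit 98334) (nat_lit 18) (.e (nat_lit 164166) (nat_lit 152) (.e (nat_lit 1199) (nat_lit 88) (.e (nat_lit 65580) (nat_lit 6) (.e (nat_lit 155392) (nat_lit 6) .nil)))))) (.g (nat_lit 4) .nil .nil))) 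
(.lf (nat_lit 210550) (.g (nat_lit 2939) (.e (nat_lit 81954) (nat_lit 23) (.e (nat_lit 98350) (nat_lit 24) (.e (nat_lit 409647) (nat_lit 18) (.e (nat_lit 303117) (nat_lit 2) (.e (nat_lit 196674) (nat_lit 15) .nil))))) (.g (nat_lit 4) .nil .nil)))))) (.nd (nat_lit 4) (.nd (nat_lit 5) (.nd (nat_lit 6) 
(.lf (nat_lit 210446) (.g (nat_lit 2139) (.e (nat_lit 81954) (nat_lit 23) (.e (nat_lit 98317) (nat_lit 9) (.e (nat_lit 335995) (nat_lit 1) (.e (nat_lit 57848) (nat_lit 252) .nil)))) .nil)) 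
(.lf (nat_lit 210510) (.g (nat_lit 906) (.e (nat_lit 81954) (nat_lit 23) (.e (nat_lit 98350) (nat_lit 24) (.e (nat_lit 409612) (nat_lit 10) .nil))) .nil))) (.nd (nat_lit 6) 
(.lf (nat_lit 210478) (.g (nat_lit 829) (.e (nat_lit 81954) (nat_lit 23) (.e (nat_lit 98333) (nat_lit 18) (.e (nat_lit 164428) (nat_lit 278) .nil))) .nil)) 
(.lf (nat_lit 210542) (.g (nat_lit 3383) (.e (nat_lit 81954) (nat_lit 23) (.e (nat_lit 98350) (nat_lit 24) (.e (nat_lit 409646) (nat_lit 18) (.e (nat_lit 303117) (nat_lit 2) (.e (nat_lit 196673) (nat_lit 15) .nil))))) (.g (nat_lit 0) .nil .nil))))) (.nd (nat_lit 5) (.nd (nat_lit 6) 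
(.lf (nat_lit 210462) (.g (nat_lit 1120) (.e (nat_lit 81954) (nat_lit 23) (.e (nat_lit 98323) (nat_lit 17) (.e (nat_lit 7107) (nat_lit 380) (.e (nat_lit 164261) (nat_lit 221) .nil)))) .nil)) 
(.lf (nat_lit 210526) (.g (nat_lit 3761) (.e (nat_lit 81954) (nat_lit 23) (.e (nat_lit 98350) (nat_lit 24) (.e (nat_lit 409643) (nat_lit 18) (.e (nat_lit 303116) (nat_lit 2) (.e (nat_lit 196672) (nat_lit 15) .nil))))) (.g (nat_lit 0) .nil .nil)))) (.nd (nat_lit 6) 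
(.lf (nat_lit 210494) (.g (nat_lit 593) (.e (nat_lit 81954) (nat_lit 23) (.e (nat_lit 98349) (nat_lit 24) (.e (nat_lit 409611) (nat_lit 10) .nil))) .nil)) 
(.lf (nat_lit 210558) (.g (nat_lit 2954) (.e (nat_lit 81954) (nat_lit 23) (.e (nat_lit 98350) (nat_lit 24) (.e (nat_lit 409649) (nat_lit 18) (.e (nat_lit 303117) (nat_lit 2) (.e (nat_lit 196674) (nat_lit 15) .nil))))) (.g (nat_lit 4) .nil .nil))))))))) (.nd (nat_lit 1) (.nd (nat_lit 2) (.nd (nat_lit 3) (.nd (nat_lit 4) (.nd (nat_lit 5) (.nd (nat_lit 6) 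
(.lf (nat_lit 210433) (.g (nat_lit 1740) (.e (nat_lit 81954) (nat_lit 23) (.e (nat_lit 98313) (nat_lit 9) (.e (nat_lit 335995) (nat_lit 1) (.e (nat_lit 57847) (nat_lit 252) (.e (nat_lit 57365) (nat_lit 1) .nil))))) .nil)) 
(.lf (nat_lit 210497) (.g (nat_lit 2889) (.e (nat_lit 81954) (nat_lit 23) (.e (nat_lit 98349) (nat_lit 24) (.e (nat_lit 409643) (nat_lit 18) (.e (nat_lit 303116) (nat_lit 2) (.e (nat_lit 196672) (nat_lit 15) .nil))))) (.g (nat_lit 5) .nil .nil)))) (.nd (nat_lit 6) 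
(.lf (nat_lit 210465) (.g (nat_lit 1485) (.e (nat_lit 81954) (nat_lit 23) (.e (nat_lit 98333) (nat_lit 18) (.e (nat_lit 164151) (nat_lit 152) (.e (nat_lit 1207) (nat_lit 89) (.e (nat_lit 73729) (nat_lit 0) .nil))))) .nil)) 
(.lf (nat_lit 210529) (.g (nat_lit 3159) (.e (nat_lit 81954) (nat_lit 23) (.e (nat_lit 98350) (nat_lit 24) (.e (nat_lit 409644) (nat_lit 18) (.e (nat_lit 303116) (nat_lit 2) (.e (nat_lit 196672) (nat_lit 15) .nil))))) (.g (nat_lit 4) .nil .nil))))) (.nd (nat_lit 5) (.nd (nat_lit 6) 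
(.lf (nat_lit 210449) (.g (nat_lit 792) (.e (nat_lit 81954) (nat_lit 23) (.e (nat_lit 98317) (nat_lit 9) (.e (nat_lit 335996) (nat_lit 1) .nil))) .nil)) 
(.lf (nat_lit 210513) (.g (nat_lit 2278) (.e (nat_lit 81954) (nat_lit 23) (.e (nat_lit 98350) (nat_lit 24) (.e (nat_lit 409616) (nat_lit 10) (.e (nat_lit 5615) (nat_lit 312) .nil)))) .nil))) (.nd (nat_lit 6) 
(.lf (nat_lit 210481) (.g (nat_lit 1913) (.e (nat_lit 81954) (nat_lit 23) (.e (nat_lit 98334) (nat_lit 18) (.e (nat_lit 164159) (nat_lit 152) (.e (nat_lit 1201) (nat_lit 88) (.e (nat_lit 65546) (nat_lit 0) (.e (nat_lit 2334) (nat_lit 151) (.e (nat_lit 778325) (nat_lit 6) .nil))))))) (.g (nat_lit 4) .nil .nil))) 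
(.lf (nat_lit 210545) (.g (nat_lit 1341) (.e (nat_lit 81954) (nat_lit 23) (.e (nat_lit 98350) (nat_lit 24) (.e (nat_lit 409647) (nat_lit 18) (.e (nat_lit 303106) (nat_lit 0) .nil)))) .nil))))) (.nd (nat_lit 4) (.nd (nat_lit 5) (.nd (nat_lit 6) 
(.lf (nat_lit 210441) (.g (nat_lit 2147) (.e (nat_lit 81954) (nat_lit 23) (.e (nat_lit 98317) (nat_lit 9) (.e (nat_lit 335986) (nat_lit 1) (.e (nat_lit 57847) (nat_lit 252) .nil)))) .nil)) 
(.lf (nat_lit 210505) (.g (nat_lit 2754) (.e (nat_lit 81954) (nat_lit 23) (.e (nat_lit 98349) (nat_lit 24) (.e (nat_lit 409646) (nat_lit 18) (.e (nat_lit 303117) (nat_lit 2) (.e (nat_lit 204544) (nat_lit 15) .nil))))) (.g (nat_lit 4) .nil .nil)))) (.nd (nat_lit 6) 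
(.lf (nat_lit 210473) (.g (nat_lit 3145) (.e (nat_lit 81954) (nat_lit 23) (.e (nat_lit 98333) (nat_lit 18) (.e (nat_lit 164182) (nat_lit 154) (.e (nat_lit 57411) (nat_lit 12) (.e (nat_lit 335878) (nat_lit 0) .nil))))) .nil)) 
(.lf (nat_lit 210537) (.g (nat_lit 2869) (.e (nat_lit 81954) (nat_lit 23) (.e (nat_lit 98350) (nat_lit 24) (.e (nat_lit 409645) (nat_lit 18) (.e (nat_lit 303117) (nat_lit 2) (.e (nat_lit 196671) (nat_lit 15) .nil))))) (.g (nat_lit 4) .nil .nil))))) (.nd (nat_lit 5) (.nd (nat_lit 6) 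
(.lf (nat_lit 210457) (.g (nat_lit 2105) (.e (nat_lit 81954) (nat_lit 23) (.e (nat_lit 98320) (nat_lit 17) (.e (nat_lit 7593) (nat_lit 407) (.e (nat_lit 73751) (nat_lit 7) (.e (nat_lit 548891) (nat_lit 11) .nil))))) (.g (nat_lit 0) .nil .nil))) 
(.lf (nat_lit 210521) (.g (nat_lit 2049) (.e (nat_lit 81954) (nat_lit 23) (.e (nat_lit 98350) (nat_lit 24) (.e (nat_lit 409618) (nat_lit 10) (.e (nat_lit 5756) (nat_lit 315) (.e (nat_lit 163950) (nat_lit 21) (.e (nat_lit 507648) (nat_lit 20) .nil)))))) (.g (nat_lit 4) .nil .nil)))) (.nd (nat_lit 6) 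
(.lf (nat_lit 210489) (.g (nat_lit 3113) (.e (nat_lit 81954) (nat_lit 23) (.e (nat_lit 98334) (nat_lit 18) (.e (nat_lit 164182) (nat_lit 154) (.e (nat_lit 57411) (nat_lit 12) (.e (nat_lit 335878) (nat_lit 0) (.e (nat_lit 1016) (nat_lit 81) (.e (nat_lit 7454) (nat_lit 396) (.e (nat_lit 1219) (nat_lit 90) .nil)))))))) (.g (nat_lit 4) .nil .nil))) 
(.lf (nat_lit 210553) (.g (nat_lit 2043) (.e (nat_lit 81954) (nat_lit 23) (.e (nat_lit 98350) (nat_lit 24) (.e (nat_lit 409649) (nat_lit 18) (.e (nat_lit 303104) (nat_lit 0) .nil)))) .nil)))))) (.nd (nat_lit 3) (.nd (nat_lit 4) (.nd (nat_lit 5) (.nd (nat_lit 6) 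
(.lf (nat_lit 210437) (.g (nat_lit 472) (.e (nat_lit 81954) (nat_lit 23) (.e (nat_lit 98313) (nat_lit 9) (.e (nat_lit 335996) (nat_lit 1) .nil))) .nil)) 
(.lf (nat_lit 210501) (.g (nat_lit 2488) (.e (nat_lit 81954) (nat_lit 23) (.e (nat_lit 98349) (nat_lit 24) (.e (nat_lit 409645) (nat_lit 18) (.e (nat_lit 303112) (nat_lit 0) (.e (nat_lit 3144) (nat_lit 193) .nil))))) .nil))) (.nd (nat_lit 6) 
(.lf (nat_lit 210469) (.g (nat_lit 2623) (.e (nat_lit 81954) (nat_lit 23) (.e (nat_lit 98333) (nat_lit 18) (.e (nat_lit 164179) (nat_lit 154) (.e (nat_lit 57403) (nat_lit 11) (.e (nat_lit 327694) (nat_lit 3) (.e (nat_lit 48896) (nat_lit 6) .nil)))))) (.g (nat_lit 4) .nil .nil))) 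
(.lf (nat_lit 210533) (.g (nat_lit 3038) (.e (nat_lit 81954) (nat_lit 23) (.e (nat_lit 98350) (nat_lit 24) (.e (nat_lit 409645) (nat_lit 18) (.e (nat_lit 303112) (nat_lit 0) (.e (nat_lit 3144) (nat_lit 193) (.e (nat_lit 500076) (nat_lit 20) .nil)))))) (.g (nat_lit 4) .nil .nil))))) (.nd (nat_lit 5) (.nd (nat_lit 6) 
(.lf (nat_lit 210453) (.g (nat_lit 1526) (.e (nat_lit 81954) (nat_lit 23) (.e (nat_lit 106240) (nat_lit 16) (.e (nat_lit 401448) (nat_lit 10) (.e (nat_lit 434295) (nat_lit 49) (.e (nat_lit 745493) (nat_lit 6) .nil))))) (.g (nat_lit 4) .nil .nil))) 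
(.lf (nat_lit 210517) (.g (nat_lit 2278) (.e (nat_lit 81954) (nat_lit 23) (.e (nat_lit 98350) (nat_lit 24) (.e (nat_lit 409616) (nat_lit 10) (.e (nat_lit 5760) (nat_lit 315) .nil)))) .nil))) (.nd (nat_lit 6) 
(.lf (nat_lit 210485) (.g (nat_lit 2005) (.e (nat_lit 81954) (nat_lit 23) (.e (nat_lit 98334) (nat_lit 18) (.e (nat_lit 164166) (nat_lit 152) (.e (nat_lit 1196) (nat_lit 88) (.e (nat_lit 65580) (nat_lit 6) (.e (nat_lit 155392) (nat_lit 6) .nil)))))) (.g (nat_lit 5) .nil .nil))) 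
(.lf (nat_lit 210549) (.g (nat_lit 2857) (.e (nat_lit 81954) (nat_lit 23) (.e (nat_lit 98350) (nat_lit 24) (.e (nat_lit 409647) (nat_lit 18) (.e (nat_lit 303117) (nat_lit 2) (.e (nat_lit 196673) (nat_lit 15) .nil))))) (.g (nat_lit 4) .nil .nil)))))) (.nd (nat_lit 4) (.nd (nat_lit 5) (.nd (nat_lit 6) 
(.lf (nat_lit 210445) (.g (nat_lit 1954) (.e (nat_lit 81954) (nat_lit 23) (.e (nat_lit 98317) (nat_lit 9) (.e (nat_lit 335995) (nat_lit 1) (.e (nat_lit 57847) (nat_lit 252) .nil)))) .nil)) 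
(.lf (nat_lit 210509) (.g (nat_lit 692) (.e (nat_lit 81954) (nat_lit 23) (.e (nat_lit 98350) (nat_lit 24) (.e (nat_lit 409609) (nat_lit 10) .nil))) .nil))) (.nd (nat_lit 6) 
(.lf (nat_lit 210477) (.g (nat_lit 1699) (.e (nat_lit 81954) (nat_lit 23) (.e (nat_lit 98333) (nat_lit 18) (.e (nat_lit 164183) (nat_lit 154) (.e (nat_lit 57411) (nat_lit 12) .nil)))) .nil)) 
(.lf (nat_lit 210541) (.g (nat_lit 3079) (.e (nat_lit 81954) (nat_lit 23) (.e (nat_lit 98350) (nat_lit 24) (.e (nat_lit 409646) (nat_lit 18) (.e (nat_lit 303117) (nat_lit 2) (.e (nat_lit 196671) (nat_lit 15) .nil))))) (.g (nat_lit 4) .nil .nil))))) (.nd (nat_lit 5) (.nd (nat_lit 6) 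
(.lf (nat_lit 210461) (.g (nat_lit 2032) (.e (nat_lit 81954) (nat_lit 23) (.e (nat_lit 98323) (nat_lit 17) (.e (nat_lit 7101) (nat_lit 380) (.e (nat_lit 164371) (nat_lit 249) (.e (nat_lit 163950) (nat_lit 21) (.e (nat_lit 507648) (nat_lit 20) .nil)))))) (.g (nat_lit 5) .nil .nil))) 
(.lf (nat_lit 210525) (.g (nat_lit 871) (.e (nat_lit 81954) (nat_lit 23) (.e (nat_lit 98350) (nat_lit 24) (.e (nat_lit 409635) (nat_lit 14) .nil))) .nil))) (.nd (nat_lit 6) 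
(.lf (nat_lit 210493) (.g (nat_lit 1199) (.e (nat_lit 81954) (nat_lit 23) (.e (nat_lit 98335) (nat_lit 18) (.e (nat_lit 164428) (nat_lit 278) (.e (nat_lit 1122) (nat_lit 83) .nil)))) .nil)) 
(.lf (nat_lit 210557) (.g (nat_lit 2760) (.e (nat_lit 81954) (nat_lit 23) (.e (nat_lit 98350) (nat_lit 24) (.e (nat_lit 409649) (nat_lit 18) (.e (nat_lit 303111) (nat_lit 0) (.e (nat_lit 3124) (nat_lit 193) (.e (nat_lit 507648) (nat_lit 20) .nil)))))) (.g (nat_lit 4) .nil .nil)))))))) (.nd (nat_lit 2) (.nd (nat_lit 3) (.nd (nat_lit 4) (.nd (nat_lit 5) (.nd (nat_lit 6) 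
(.lf (nat_lit 210435) (.g (nat_lit 2693) (.e (nat_lit 81954) (nat_lit 23) (.e (nat_lit 98313) (nat_lit 9) (.e (nat_lit 335995) (nat_lit 1) (.e (nat_lit 57849) (nat_lit 252) (.e (nat_lit 57363) (nat_lit 1) .nil))))) .nil)) 
(.lf (nat_lit 210499) (.g (nat_lit 2096) (.e (nat_lit 81954) (nat_lit 23) (.e (nat_lit 98349) (nat_lit 24) (.e (nat_lit 409644) (nat_lit 18) (.e (nat_lit 303117) (nat_lit 2) (.e (nat_lit 204544) (nat_lit 15) .nil))))) (.g (nat_lit 4) .nil .nil)))) (.nd (nat_lit 6) 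
(.lf (nat_lit 210467) (.g (nat_lit 1795) (.e (nat_lit 81954) (nat_lit 23) (.e (nat_lit 98333) (nat_lit 18) (.e (nat_lit 164177) (nat_lit 154) (.e (nat_lit 57412) (nat_lit 12) .nil)))) .nil)) 
(.lf (nat_lit 210531) (.g (nat_lit 3519) (.e (nat_lit 81954) (nat_lit 23) (.e (nat_lit 98350) (nat_lit 24) (.e (nat_lit 409644) (nat_lit 18) (.e (nat_lit 303117) (nat_lit 2) (.e (nat_lit 196673) (nat_lit 15) .nil))))) (.g (nat_lit 5) .nil .nil))))) (.nd (nat_lit 5) (.nd (nat_lit 6) 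
(.lf (nat_lit 210451) (.g (nat_lit 2260) (.e (nat_lit 81954) (nat_lit 23) (.e (nat_lit 98317) (nat_lit 9) (.e (nat_lit 335996) (nat_lit 1) (.e (nat_lit 57854) (nat_lit 252) .nil)))) .nil)) 
(.lf (nat_lit 210515) (.g (nat_lit 2278) (.e (nat_lit 81954) (nat_lit 23) (.e (nat_lit 98350) (nat_lit 24) (.e (nat_lit 409616) (nat_lit 10) (.e (nat_lit 5732) (nat_lit 312) .nil)))) .nil))) (.nd (nat_lit 6) 
(.lf (nat_lit 210483) (.g (nat_lit 2262) (.e (nat_lit 81954) (nat_lit 23) (.e (nat_lit 98334) (nat_lit 18) (.e (nat_lit 164159) (nat_lit 152) (.e (nat_lit 1201) (nat_lit 88) (.e (nat_lit 65579) (nat_lit 6) (.e (nat_lit 155392) (nat_lit 6) .nil)))))) (.g (nat_lit 4) .nil .nil))) 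
(.lf (nat_lit 210547) (.g (nat_lit 2823) (.e (nat_lit 81954) (nat_lit 23) (.e (nat_lit 98350) (nat_lit 24) (.e (nat_lit 409647) (nat_lit 18) (.e (nat_lit 303116) (nat_lit 2) (.e (nat_lit 196674) (nat_lit 15) .nil))))) (.g (nat_lit 4) .nil .nil)))))) (.nd (nat_lit 4) (.nd (nat_lit 5) (.nd (nat_lit 6) 
(.lf (nat_lit 210443) (.g (nat_lit 835) (.e (nat_lit 81954) (nat_lit 23) (.e (nat_lit 98317) (nat_lit 9) (.e (nat_lit 335988) (nat_lit 1) .nil))) .nil)) 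
(.lf (nat_lit 210507) (.g (nat_lit 2524) (.e (nat_lit 81954) (nat_lit 23) (.e (nat_lit 98349) (nat_lit 24) (.e (nat_lit 409647) (nat_lit 18) (.e (nat_lit 303116) (nat_lit 2) (.e (nat_lit 196672) (nat_lit 15) .nil))))) (.g (nat_lit 4) .nil .nil)))) (.nd (nat_lit 6) 
(.lf (nat_lit 210475) (.g (nat_lit 1996) (.e (nat_lit 81954) (nat_lit 23) (.e (nat_lit 98333) (nat_lit 18) (.e (nat_lit 164182) (nat_lit 154) (.e (nat_lit 57416) (nat_lit 12) .nil)))) .nil)) 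
(.lf (nat_lit 210539) (.g (nat_lit 1846) (.e (nat_lit 81954) (nat_lit 23) (.e (nat_lit 98350) (nat_lit 24) (.e (nat_lit 409646) (nat_lit 18) (.e (nat_lit 303112) (nat_lit 0) (.e (nat_lit 3144) (nat_lit 193) .nil))))) .nil)))) (.nd (nat_lit 5) (.nd (nat_lit 6) 
(.lf (nat_lit 210459) (.g (nat_lit 2390) (.e (nat_lit 81954) (nat_lit 23) (.e (nat_lit 98323) (nat_lit 17) (.e (nat_lit 6989) (nat_lit 377) (.e (nat_lit 2810) (nat_lit 180) (.e (nat_lit 303117) (nat_lit 2) (.e (nat_lit 204544) (nat_lit 15) .nil)))))) (.g (nat_lit 5) .nil .nil))) 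
(.lf (nat_lit 210523) (.g (nat_lit 974) (.e (nat_lit 81954) (nat_lit 23) (.e (nat_lit 98350) (nat_lit 24) (.e (nat_lit 409624) (nat_lit 10) .nil))) .nil))) (.nd (nat_lit 6) 
(.lf (nat_lit 210491) (.g (nat_lit 888) (.e (nat_lit 81954) (nat_lit 23) (.e (nat_lit 98335) (nat_lit 18) (.e (nat_lit 164179) (nat_lit 154) .nil))) .nil)) 
(.lf (nat_lit 210555) (.g (nat_lit 1698) (.e (nat_lit 81954) (nat_lit 23) (.e (nat_lit 98350) (nat_lit 24) (.e (nat_lit 409649) (nat_lit 18) (.e (nat_lit 303111) (nat_lit 0) .nil)))) .nil)))))) (.nd (nat_lit 3) (.nd (nat_lit 4) (.nd (nat_lit 5) (.nd (nat_lit 6) 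
(.lf (nat_lit 210439) (.g (nat_lit 494) (.e (nat_lit 81954) (nat_lit 23) (.e (nat_lit 98313) (nat_lit 9) (.e (nat_lit 343808) (nat_lit 20) .nil))) .nil)) 
(.lf (nat_lit 210503) (.g (nat_lit 2457) (.e (nat_lit 81954) (nat_lit 23) (.e (nat_lit 98349) (nat_lit 24) (.e (nat_lit 409645) (nat_lit 18) (.e (nat_lit 303117) (nat_lit 2) (.e (nat_lit 204544) (nat_lit 15) .nil))))) (.g (nat_lit 4) .nil .nil)))) (.nd (nat_lit 6) 
(.lf (nat_lit 210471) (.g (nat_lit 1436) (.e (nat_lit 81954) (nat_lit 23) (.e (nat_lit 98333) (nat_lit 18) (.e (nat_lit 164179) (nat_lit 154) (.e (nat_lit 57432) (nat_lit 16) .nil)))) .nil)) 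
(.lf (nat_lit 210535) (.g (nat_lit 2839) (.e (nat_lit 81954) (nat_lit 23) (.e (nat_lit 98350) (nat_lit 24) (.e (nat_lit 409645) (nat_lit 18) (.e (nat_lit 303112) (nat_lit 0) (.e (nat_lit 3144) (nat_lit 193) (.e (nat_lit 507648) (nat_lit 20) .nil)))))) (.g (nat_lit 4) .nil .nil))))) (.nd (nat_lit 5) (.nd (nat_lit 6) 
(.lf (nat_lit 210455) (.g (nat_lit 660) (.e (nat_lit 81954) (nat_lit 23) (.e (nat_lit 98320) (nat_lit 17) (.e (nat_lit 7583) (nat_lit 405) (.e (nat_lit 57713) (nat_lit 176) .nil)))) .nil)) 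
(.lf (nat_lit 210519) (.g (nat_lit 1780) (.e (nat_lit 81954) (nat_lit 23) (.e (nat_lit 98350) (nat_lit 24) (.e (nat_lit 409617) (nat_lit 10) (.e (nat_lit 5758) (nat_lit 315) .nil)))) .nil))) (.nd (nat_lit 6) 
(.lf (nat_lit 210487) (.g (nat_lit 1983) (.e (nat_lit 81954) (nat_lit 23) (.e (nat_lit 98334) (nat_lit 18) (.e (nat_lit 164166) (nat_lit 152) (.e (nat_lit 1200) (nat_lit 88) (.e (nat_lit 65580) (nat_lit 6) (.e (nat_lit 155392) (nat_lit 6) .nil)))))) (.g (nat_lit 5) .nil .nil))) 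
(.lf (nat_lit 210551) (.g (nat_lit 2002) (.e (nat_lit 81954) (nat_lit 23) (.e (nat_lit 98350) (nat_lit 24) (.e (nat_lit 409648) (nat_lit 18) (.e (nat_lit 303108) (nat_lit 0) .nil)))) .nil))))) (.nd (nat_lit 4) (.nd (nat_lit 5) (.nd (nat_lit 6) 
(.lf (nat_lit 210447) (.g (nat_lit 1959) (.e (nat_lit 81954) (nat_lit 23) (.e (nat_lit 98317) (nat_lit 9) (.e (nat_lit 335995) (nat_lit 1) (.e (nat_lit 57849) (nat_lit 252) .nil)))) .nil)) 
(.lf (nat_lit 210511) (.g (nat_lit 904) (.e (nat_lit 81954) (nat_lit 23) (.e (nat_lit 98350) (nat_lit 24) (.e (nat_lit 409615) (nat_lit 10) .nil))) .nil))) (.nd (nat_lit 6) 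
(.lf (nat_lit 210479) (.g (nat_lit 488) (.e (nat_lit 81954) (nat_lit 23) (.e (nat_lit 98334) (nat_lit 18) (.e (nat_lit 164159) (nat_lit 152) .nil))) .nil)) 
(.lf (nat_lit 210543) (.g (nat_lit 2973) (.e (nat_lit 81954) (nat_lit 23) (.e (nat_lit 98350) (nat_lit 24) (.e (nat_lit 409646) (nat_lit 18) (.e (nat_lit 303117) (nat_lit 2) (.e (nat_lit 204544) (nat_lit 15) .nil))))) (.g (nat_lit 4) .nil .nil))))) (.nd (nat_lit 5) (.nd (nat_lit 6) 
(.lf (nat_lit 210463) (.g (nat_lit 1649) (.e (nat_lit 81954) (nat_lit 23) (.e (nat_lit 98323) (nat_lit 17) (.e (nat_lit 7107) (nat_lit 380) (.e (nat_lit 164281) (nat_lit 222) (.e (nat_lit 57596) (nat_lit 82) (.e (nat_lit 507648) (nat_lit 20) .nil)))))) (.g (nat_lit 5) .nil .nil))) 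
(.lf (nat_lit 210527) (.g (nat_lit 2519) (.e (nat_lit 81954) (nat_lit 23) (.e (nat_lit 98350) (nat_lit 24) (.e (nat_lit 409643) (nat_lit 18) (.e (nat_lit 303117) (nat_lit 2) (.e (nat_lit 196673) (nat_lit 15) .nil))))) (.g (nat_lit 4) .nil .nil)))) (.nd (nat_lit 6) 
(.lf (nat_lit 210495) (.g (nat_lit 590) (.e (nat_lit 81954) (nat_lit 23) (.e (nat_lit 98349) (nat_lit 24) (.e (nat_lit 409612) (nat_lit 10) .nil))) .nil)) 
(.lf (nat_lit 210559) (.g (nat_lit 1904) (.e (nat_lit 81954) (nat_lit 23) (.e (nat_lit 98350) (nat_lit 24) (.e (nat_lit 409649) (nat_lit 18) (.e (nat_lit 303121) (nat_lit 5) .nil)))) .nil)))))))))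

noncomputable def tv2782 : DT := (.nd (nat_lit 0) (.nd (nat_lit 1) (.nd (nat_lit 2) (.nd (nat_lit 3) (.nd (nat_lit 4) (.nd (nat_lit 5) (.nd (nat_lit 6) 
(.lf (nat_lit 210560) (.g (nat_lit 3033) (.e (nat_lit 81954) (nat_lit 23) (.e (nat_lit 98350) (nat_lit 24) (.e (nat_lit 409650) (nat_lit 19) (.e (nat_lit 311312) (nat_lit 2) (.e (nat_lit 196674) (nat_lit 15) .nil))))) (.g (nat_lit 4) .nil .nil))) 
(.lf (nat_lit 210624) (.g (nat_lit 1956) (.e (nat_lit 81954) (nat_lit 23) (.e (nat_lit 98384) (nat_lit 32) (.e (nat_lit 475214) (nat_lit 42) (.e (nat_lit 720913) (nat_lit 20) (.e (nat_lit 1852) (nat_lit 124) .nil))))) .nil))) (.nd (nat_lit 6) 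
(.lf (nat_lit 210592) (.g (nat_lit 758) (.e (nat_lit 81954) (nat_lit 23) (.e (nat_lit 98359) (nat_lit 26) (.e (nat_lit 426102) (nat_lit 1) (.e (nat_lit 164398) (nat_lit 256) .nil)))) .nil)) 
(.lf (nat_lit 210656) (.g (nat_lit 1359) (.e (nat_lit 81954) (nat_lit 23) (.e (nat_lit 98389) (nat_lit 33) (.e (nat_lit 491560) (nat_lit 10) (.e (nat_lit 344089) (nat_lit 18) .nil)))) .nil)))) (.nd (nat_lit 5) (.nd (nat_lit 6) 
(.lf (nat_lit 210576) (.g (nat_lit 3008) (.e (nat_lit 81954) (nat_lit 23) (.e (nat_lit 98356) (nat_lit 26) (.e (nat_lit 426361) (nat_lit 15) (.e (nat_lit 2032) (nat_lit 140) (.e (nat_lit 688152) (nat_lit 13) (.e (nat_lit 1239) (nat_lit 91) (.e (nat_lit 98048) (nat_lit 6) .nil))))))) (.g (nat_lit 6) .nil .nil))) 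
(.lf (nat_lit 210640) (.g (nat_lit 3032) (.e (nat_lit 81954) (nat_lit 23) (.e (nat_lit 98387) (nat_lit 33) (.e (nat_lit 491565) (nat_lit 12) (.e (nat_lit 385072) (nat_lit 31) (.e (nat_lit 573491) (nat_lit 15) .nil))))) (.g (nat_lit 0) .nil .nil)))) (.nd (nat_lit 6) 
(.lf (nat_lit 210608) (.g (nat_lit 2802) (.e (nat_lit 81954) (nat_lit 23) (.e (nat_lit 98367) (nat_lit 27) (.e (nat_lit 434269) (nat_lit 36) (.e (nat_lit 639008) (nat_lit 13) (.e (nat_lit 1239) (nat_lit 91) (.e (nat_lit 98048) (nat_lit 6) .nil)))))) (.g (nat_lit 5) .nil .nil))) 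
(.lf (nat_lit 210672) (.g (nat_lit 2852) (.e (nat_lit 81954) (nat_lit 23) (.e (nat_lit 98389) (nat_lit 33) (.e (nat_lit 491565) (nat_lit 12) (.e (nat_lit 385072) (nat_lit 31) (.e (nat_lit 573491) (nat_lit 15) .nil))))) (.g (nat_lit 5) .nil .nil)))))) (.nd (nat_lit 4) (.nd (nat_lit 5) (.nd (nat_lit 6) 
(.lf (nat_lit 210568) (.g (nat_lit 3376) (.e (nat_lit 81954) (nat_lit 23) (.e (nat_lit 98353) (nat_lit 25) (.e (nat_lit 417829) (nat_lit 18) (.e (nat_lit 303116) (nat_lit 2) (.e (nat_lit 196672) (nat_lit 15) .nil))))) (.g (nat_lit 0) .nil .nil))) 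
(.lf (nat_lit 210632) (.g (nat_lit 2149) (.e (nat_lit 81954) (nat_lit 23) (.e (nat_lit 98384) (nat_lit 32) (.e (nat_lit 475214) (nat_lit 42) (.e (nat_lit 720934) (nat_lit 21) .nil)))) .nil))) (.nd (nat_lit 6) 
(.lf (nat_lit 210600) (.g (nat_lit 3115) (.e (nat_lit 81954) (nat_lit 23) (.e (nat_lit 98367) (nat_lit 27) (.e (nat_lit 434268) (nat_lit 36) (.e (nat_lit 639004) (nat_lit 13) (.e (nat_lit 1234) (nat_lit 91) (.e (nat_lit 98048) (nat_lit 6) .nil)))))) (.g (nat_lit 4) .nil .nil))) 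
(.lf (nat_lit 210664) (.g (nat_lit 2677) (.e (nat_lit 81954) (nat_lit 23) (.e (nat_lit 98389) (nat_lit 33) (.e (nat_lit 491560) (nat_lit 10) (.e (nat_lit 344124) (nat_lit 25) (.e (nat_lit 548891) (nat_lit 11) .nil))))) (.g (nat_lit 0) .nil .nil))))) (.nd (nat_lit 5) (.nd (nat_lit 6) 
(.lf (nat_lit 210584) (.g (nat_lit 359) (.e (nat_lit 81954) (nat_lit 23) (.e (nat_lit 98356) (nat_lit 26) (.e (nat_lit 426448) (nat_lit 20) .nil))) .nil)) 
(.lf (nat_lit 210648) (.g (nat_lit 839) (.e (nat_lit 81954) (nat_lit 23) (.e (nat_lit 98389) (nat_lit 33) (.e (nat_lit 491526) (nat_lit 0) (.e (nat_lit 7936) (nat_lit 360) .nil)))) .nil))) (.nd (nat_lit 6) 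
(.lf (nat_lit 210616) (.g (nat_lit 508) (.e (nat_lit 81954) (nat_lit 23) (.e (nat_lit 98367) (nat_lit 27) (.e (nat_lit 434276) (nat_lit 39) .nil))) .nil)) 
(.lf (nat_lit 210680) (.g (nat_lit 484) (.e (nat_lit 81955) (nat_lit 23) (.e (nat_lit 98313) (nat_lit 9) (.e (nat_lit 335996) (nat_lit 1) .nil))) .nil)))))) (.nd (nat_lit 3) (.nd (nat_lit 4) (.nd (nat_lit 5) (.nd (nat_lit 6) 
(.lf (nat_lit 210564) (.g (nat_lit 1950) (.e (nat_lit 81954) (nat_lit 23) (.e (nat_lit 98353) (nat_lit 25) (.e (nat_lit 417820) (nat_lit 10) (.e (nat_lit 5756) (nat_lit 315) (.e (nat_lit 163950) (nat_lit 21) (.e (nat_lit 507648) (nat_lit 20) .nil)))))) (.g (nat_lit 4) .nil .nil))) 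
(.lf (nat_lit 210628) (.g (nat_lit 2347) (.e (nat_lit 81954) (nat_lit 23) (.e (nat_lit 98384) (nat_lit 32) (.e (nat_lit 475214) (nat_lit 42) (.e (nat_lit 720929) (nat_lit 21) (.e (nat_lit 57622) (nat_lit 128) .nil))))) .nil))) (.nd (nat_lit 6) 
(.lf (nat_lit 210596) (.g (nat_lit 2157) (.e (nat_lit 81954) (nat_lit 23) (.e (nat_lit 98366) (nat_lit 27) (.e (nat_lit 434275) (nat_lit 39) (.e (nat_lit 663580) (nat_lit 9) (.e (nat_lit 7936) (nat_lit 2) (.e (nat_lit 98048) (nat_lit 6) .nil)))))) (.g (nat_lit 4) .nil .nil))) 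
(.lf (nat_lit 210660) (.g (nat_lit 2129) (.e (nat_lit 81954) (nat_lit 23) (.e (nat_lit 98389) (nat_lit 33) (.e (nat_lit 491560) (nat_lit 10) (.e (nat_lit 344096) (nat_lit 18) (.e (nat_lit 3928) (nat_lit 239) .nil))))) .nil)))) (.nd (nat_lit 5) (.nd (nat_lit 6) 
(.lf (nat_lit 210580) (.g (nat_lit 2606) (.e (nat_lit 81954) (nat_lit 23) (.e (nat_lit 98356) (nat_lit 26) (.e (nat_lit 426422) (nat_lit 16) (.e (nat_lit 57726) (nat_lit 181) (.e (nat_lit 1039) (nat_lit 81) (.e (nat_lit 1234) (nat_lit 91) (.e (nat_lit 98048) (nat_lit 6) .nil))))))) (.g (nat_lit 6) .nil .nil))) 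
(.lf (nat_lit 210644) (.g (nat_lit 1620) (.e (nat_lit 81954) (nat_lit 23) (.e (nat_lit 98388) (nat_lit 33) (.e (nat_lit 491562) (nat_lit 12) (.e (nat_lit 385072) (nat_lit 31) .nil)))) .nil))) (.nd (nat_lit 6) 
(.lf (nat_lit 210612) (.g (nat_lit 2132) (.e (nat_lit 81954) (nat_lit 23) (.e (nat_lit 98367) (nat_lit 27) (.e (nat_lit 434272) (nat_lit 38) (.e (nat_lit 655367) (nat_lit 0) .nil)))) .nil)) 
(.lf (nat_lit 210676) (.g (nat_lit 447) (.e (nat_lit 81955) (nat_lit 23) (.e (nat_lit 98313) (nat_lit 9) (.e (nat_lit 335995) (nat_lit 1) .nil))) .nil))))) (.nd (nat_lit 4) (.nd (nat_lit 5) (.nd (nat_lit 6) 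
(.lf (nat_lit 210572) (.g (nat_lit 2600) (.e (nat_lit 81954) (nat_lit 23) (.e (nat_lit 98356) (nat_lit 26) (.e (nat_lit 426361) (nat_lit 15) (.e (nat_lit 2026) (nat_lit 140) (.e (nat_lit 688145) (nat_lit 13) (.e (nat_lit 1239) (nat_lit 91) (.e (nat_lit 98048) (nat_lit 6) .nil))))))) (.g (nat_lit 6) .nil .nil))) 
(.lf (nat_lit 210636) (.g (nat_lit 2192) (.e (nat_lit 81954) (nat_lit 23) (.e (nat_lit 98385) (nat_lit 32) (.e (nat_lit 475214) (nat_lit 42) (.e (nat_lit 720920) (nat_lit 20) (.e (nat_lit 1855) (nat_lit 124) (.e (nat_lit 564992) (nat_lit 6) .nil)))))) (.g (nat_lit 5) .nil .nil)))) (.nd (nat_lit 6) 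
(.lf (nat_lit 210604) (.g (nat_lit 3720) (.e (nat_lit 81954) (nat_lit 23) (.e (nat_lit 98367) (nat_lit 27) (.e (nat_lit 434268) (nat_lit 36) (.e (nat_lit 639007) (nat_lit 13) (.e (nat_lit 1239) (nat_lit 91) (.e (nat_lit 98048) (nat_lit 6) .nil)))))) (.g (nat_lit 5) .nil .nil))) 
(.lf (nat_lit 210668) (.g (nat_lit 4210) (.e (nat_lit 81954) (nat_lit 23) (.e (nat_lit 98389) (nat_lit 33) (.e (nat_lit 491563) (nat_lit 12) (.e (nat_lit 385073) (nat_lit 31) (.e (nat_lit 573493) (nat_lit 15) .nil))))) (.g (nat_lit 5) .nil .nil))))) (.nd (nat_lit 5) (.nd (nat_lit 6) 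
(.lf (nat_lit 210588) (.g (nat_lit 761) (.e (nat_lit 81954) (nat_lit 23) (.e (nat_lit 98356) (nat_lit 26) (.e (nat_lit 426467) (nat_lit 24) (.e (nat_lit 155674) (nat_lit 12) .nil)))) .nil)) 
(.lf (nat_lit 210652) (.g (nat_lit 1485) (.e (nat_lit 81954) (nat_lit 23) (.e (nat_lit 98389) (nat_lit 33) (.e (nat_lit 491549) (nat_lit 9) (.e (nat_lit 336260) (nat_lit 15) .nil)))) .nil))) (.nd (nat_lit 6) 
(.lf (nat_lit 210620) (.g (nat_lit 1308) (.e (nat_lit 81954) (nat_lit 23) (.e (nat_lit 98384) (nat_lit 32) (.e (nat_lit 475194) (nat_lit 39) .nil))) .nil)) 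
(.lf (nat_lit 210684) (.g (nat_lit 685) (.e (nat_lit 81955) (nat_lit 23) (.e (nat_lit 98333) (nat_lit 18) (.e (nat_lit 164151) (nat_lit 152) .nil))) .nil))))))) (.nd (nat_lit 2) (.nd (nat_lit 3) (.nd (nat_lit 4) (.nd (nat_lit 5) (.nd (nat_lit 6) 
(.lf (nat_lit 210562) (.g (nat_lit 2916) (.e (nat_lit 81954) (nat_lit 23) (.e (nat_lit 98352) (nat_lit 25) (.e (nat_lit 417828) (nat_lit 18) (.e (nat_lit 303116) (nat_lit 2) (.e (nat_lit 196672) (nat_lit 15) .nil))))) (.g (nat_lit 0) .nil .nil))) 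
(.lf (nat_lit 210626) (.g (nat_lit 2993) (.e (nat_lit 81954) (nat_lit 23) (.e (nat_lit 98384) (nat_lit 32) (.e (nat_lit 475214) (nat_lit 42) (.e (nat_lit 720920) (nat_lit 20) (.e (nat_lit 1855) (nat_lit 124) (.e (nat_lit 564992) (nat_lit 6) .nil)))))) (.g (nat_lit 5) .nil .nil)))) (.nd (nat_lit 6) 
(.lf (nat_lit 210594) (.g (nat_lit 1914) (.e (nat_lit 81954) (nat_lit 23) (.e (nat_lit 98365) (nat_lit 26) (.e (nat_lit 426100) (nat_lit 1) (.e (nat_lit 164297) (nat_lit 226) .nil)))) .nil)) 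
(.lf (nat_lit 210658) (.g (nat_lit 2029) (.e (nat_lit 81954) (nat_lit 23) (.e (nat_lit 98389) (nat_lit 33) (.e (nat_lit 491560) (nat_lit 10) (.e (nat_lit 344091) (nat_lit 18) (.e (nat_lit 3928) (nat_lit 239) .nil))))) .nil)))) (.nd (nat_lit 5) (.nd (nat_lit 6) 
(.lf (nat_lit 210578) (.g (nat_lit 2547) (.e (nat_lit 81954) (nat_lit 23) (.e (nat_lit 98356) (nat_lit 26) (.e (nat_lit 426361) (nat_lit 15) (.e (nat_lit 2032) (nat_lit 140) (.e (nat_lit 688168) (nat_lit 15) (.e (nat_lit 57454) (nat_lit 21) (.e (nat_lit 507648) (nat_lit 20) .nil))))))) (.g (nat_lit 6) .nil .nil))) 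
(.lf (nat_lit 210642) (.g (nat_lit 1072) (.e (nat_lit 81954) (nat_lit 23) (.e (nat_lit 98388) (nat_lit 33) (.e (nat_lit 491547) (nat_lit 9) (.e (nat_lit 336306) (nat_lit 15) .nil)))) .nil))) (.nd (nat_lit 6) 
(.lf (nat_lit 210610) (.g (nat_lit 1189) (.e (nat_lit 81954) (nat_lit 23) (.e (nat_lit 98367) (nat_lit 27) (.e (nat_lit 434271) (nat_lit 38) (.e (nat_lit 655367) (nat_lit 0) .nil)))) .nil)) 
(.lf (nat_lit 210674) (.g (nat_lit 2899) (.e (nat_lit 81954) (nat_lit 23) (.e (nat_lit 98389) (nat_lit 33) (.e (nat_lit 491565) (nat_lit 12) (.e (nat_lit 385074) (nat_lit 31) (.e (nat_lit 573491) (nat_lit 15) .nil))))) (.g (nat_lit 0) .nil .nil)))))) (.nd (nat_lit 4) (.nd (nat_lit 5) (.nd (nat_lit 6) 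
(.lf (nat_lit 210570) (.g (nat_lit 2664) (.e (nat_lit 81954) (nat_lit 23) (.e (nat_lit 98356) (nat_lit 26) (.e (nat_lit 426354) (nat_lit 15) (.e (nat_lit 2031) (nat_lit 140) (.e (nat_lit 688152) (nat_lit 13) (.e (nat_lit 1239) (nat_lit 91) (.e (nat_lit 98048) (nat_lit 6) .nil))))))) (.g (nat_lit 4) .nil .nil))) 
(.lf (nat_lit 210634) (.g (nat_lit 1640) (.e (nat_lit 81954) (nat_lit 23) (.e (nat_lit 98385) (nat_lit 32) (.e (nat_lit 475193) (nat_lit 38) (.e (nat_lit 688145) (nat_lit 13) (.e (nat_lit 1239) (nat_lit 91) (.e (nat_lit 98048) (nat_lit 6) .nil)))))) (.g (nat_lit 4) .nil .nil)))) (.nd (nat_lit 6) 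
(.lf (nat_lit 210602) (.g (nat_lit 3621) (.e (nat_lit 81954) (nat_lit 23) (.e (nat_lit 98367) (nat_lit 27) (.e (nat_lit 434268) (nat_lit 36) (.e (nat_lit 639005) (nat_lit 13) (.e (nat_lit 1239) (nat_lit 91) (.e (nat_lit 98048) (nat_lit 6) .nil)))))) (.g (nat_lit 5) .nil .nil))) 
(.lf (nat_lit 210666) (.g (nat_lit 2264) (.e (nat_lit 81954) (nat_lit 23) (.e (nat_lit 98389) (nat_lit 33) (.e (nat_lit 491562) (nat_lit 12) (.e (nat_lit 385072) (nat_lit 31) (.e (nat_lit 573491) (nat_lit 15) .nil))))) (.g (nat_lit 4) .nil .nil))))) (.nd (nat_lit 5) (.nd (nat_lit 6) 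
(.lf (nat_lit 210586) (.g (nat_lit 2753) (.e (nat_lit 81954) (nat_lit 23) (.e (nat_lit 98356) (nat_lit 26) (.e (nat_lit 426448) (nat_lit 20) (.e (nat_lit 114706) (nat_lit 20) .nil)))) .nil)) 
(.lf (nat_lit 210650) (.g (nat_lit 1527) (.e (nat_lit 81954) (nat_lit 23) (.e (nat_lit 98389) (nat_lit 33) (.e (nat_lit 491544) (nat_lit 7) (.e (nat_lit 319519) (nat_lit 12) (.e (nat_lit 40704) (nat_lit 11) .nil))))) (.g (nat_lit 4) .nil .nil)))) (.nd (nat_lit 6) 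
(.lf (nat_lit 210618) (.g (nat_lit 726) (.e (nat_lit 81954) (nat_lit 23) (.e (nat_lit 98367) (nat_lit 27) (.e (nat_lit 434278) (nat_lit 39) (.e (nat_lit 663573) (nat_lit 9) .nil)))) .nil)) 
(.lf (nat_lit 210682) (.g (nat_lit 208) (.e (nat_lit 81955) (nat_lit 23) (.e (nat_lit 98325) (nat_lit 17) (.e (nat_lit 6986) (nat_lit 377) .nil))) .nil)))))) (.nd (nat_lit 3) (.nd (nat_lit 4) (.nd (nat_lit 5) (.nd (nat_lit 6) 
(.lf (nat_lit 210566) (.g (nat_lit 2719) (.e (nat_lit 81954) (nat_lit 23) (.e (nat_lit 98353) (nat_lit 25) (.e (nat_lit 417820) (nat_lit 10) (.e (nat_lit 5761) (nat_lit 315) (.e (nat_lit 163950) (nat_lit 21) (.e (nat_lit 507648) (nat_lit 20) .nil)))))) (.g (nat_lit 5) .nil .nil))) 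
(.lf (nat_lit 210630) (.g (nat_lit 3362) (.e (nat_lit 81954) (nat_lit 23) (.e (nat_lit 98384) (nat_lit 32) (.e (nat_lit 475214) (nat_lit 42) (.e (nat_lit 720930) (nat_lit 21) (.e (nat_lit 57623) (nat_lit 128) (.e (nat_lit 7936) (nat_lit 90) .nil)))))) (.g (nat_lit 5) .nil .nil)))) (.nd (nat_lit 6) 
(.lf (nat_lit 210598) (.g (nat_lit 658) (.e (nat_lit 81954) (nat_lit 23) (.e (nat_lit 98367) (nat_lit 27) (.e (nat_lit 434213) (nat_lit 18) .nil))) .nil)) 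
(.lf (nat_lit 210662) (.g (nat_lit 1180) (.e (nat_lit 81954) (nat_lit 23) (.e (nat_lit 98389) (nat_lit 33) (.e (nat_lit 491560) (nat_lit 10) (.e (nat_lit 344099) (nat_lit 18) .nil)))) .nil)))) (.nd (nat_lit 5) (.nd (nat_lit 6) 
(.lf (nat_lit 210582) (.g (nat_lit 387) (.e (nat_lit 81954) (nat_lit 23) (.e (nat_lit 98356) (nat_lit 26) (.e (nat_lit 426440) (nat_lit 19) .nil))) .nil)) 
(.lf (nat_lit 210646) (.g (nat_lit 2656) (.e (nat_lit 81954) (nat_lit 23) (.e (nat_lit 98388) (nat_lit 33) (.e (nat_lit 491565) (nat_lit 12) (.e (nat_lit 385074) (nat_lit 31) (.e (nat_lit 573491) (nat_lit 15) .nil))))) (.g (nat_lit 0) .nil .nil)))) (.nd (nat_lit 6) 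
(.lf (nat_lit 210614) (.g (nat_lit 3224) (.e (nat_lit 81954) (nat_lit 23) (.e (nat_lit 98367) (nat_lit 27) (.e (nat_lit 434275) (nat_lit 39) (.e (nat_lit 663580) (nat_lit 9) (.e (nat_lit 7936) (nat_lit 2) (.e (nat_lit 98048) (nat_lit 6) .nil)))))) (.g (nat_lit 4) .nil .nil))) 
(.lf (nat_lit 210678) (.g (nat_lit 2030) (.e (nat_lit 81955) (nat_lit 23) (.e (nat_lit 98313) (nat_lit 9) (.e (nat_lit 335995) (nat_lit 1) (.e (nat_lit 57847) (nat_lit 252) (.e (nat_lit 57367) (nat_lit 1) .nil))))) .nil))))) (.nd (nat_lit 4) (.nd (nat_lit 5) (.nd (nat_lit 6) 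
(.lf (nat_lit 210574) (.g (nat_lit 2580) (.e (nat_lit 81954) (nat_lit 23) (.e (nat_lit 98356) (nat_lit 26) (.e (nat_lit 426361) (nat_lit 15) (.e (nat_lit 2027) (nat_lit 140) (.e (nat_lit 688145) (nat_lit 13) (.e (nat_lit 1239) (nat_lit 91) (.e (nat_lit 98048) (nat_lit 6) .nil))))))) (.g (nat_lit 6) .nil .nil))) 
(.lf (nat_lit 210638) (.g (nat_lit 2222) (.e (nat_lit 81954) (nat_lit 23) (.e (nat_lit 98387) (nat_lit 33) (.e (nat_lit 491563) (nat_lit 12) (.e (nat_lit 385074) (nat_lit 31) (.e (nat_lit 573491) (nat_lit 15) .nil))))) (.g (nat_lit 4) .nil .nil)))) (.nd (nat_lit 6) 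
(.lf (nat_lit 210606) (.g (nat_lit 3639) (.e (nat_lit 81954) (nat_lit 23) (.e (nat_lit 98367) (nat_lit 27) (.e (nat_lit 434268) (nat_lit 36) (.e (nat_lit 639010) (nat_lit 13) (.e (nat_lit 1234) (nat_lit 91) (.e (nat_lit 98048) (nat_lit 6) .nil)))))) (.g (nat_lit 5) .nil .nil))) 
(.lf (nat_lit 210670) (.g (nat_lit 1165) (.e (nat_lit 81954) (nat_lit 23) (.e (nat_lit 98389) (nat_lit 33) (.e (nat_lit 491564) (nat_lit 12) (.e (nat_lit 385073) (nat_lit 31) .nil)))) .nil)))) (.nd (nat_lit 5) (.nd (nat_lit 6) 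
(.lf (nat_lit 210590) (.g (nat_lit 2795) (.e (nat_lit 81954) (nat_lit 23) (.e (nat_lit 98356) (nat_lit 26) (.e (nat_lit 426467) (nat_lit 24) (.e (nat_lit 155674) (nat_lit 12) (.e (nat_lit 57479) (nat_lit 28) (.e (nat_lit 564992) (nat_lit 6) .nil)))))) (.g (nat_lit 5) .nil .nil))) 
(.lf (nat_lit 210654) (.g (nat_lit 1703) (.e (nat_lit 81954) (nat_lit 23) (.e (nat_lit 98389) (nat_lit 33) (.e (nat_lit 491558) (nat_lit 10) (.e (nat_lit 344126) (nat_lit 25) (.e (nat_lit 556800) (nat_lit 11) .nil))))) (.g (nat_lit 4) .nil .nil)))) (.nd (nat_lit 6) 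
(.lf (nat_lit 210622) (.g (nat_lit 1826) (.e (nat_lit 81954) (nat_lit 23) (.e (nat_lit 98384) (nat_lit 32) (.e (nat_lit 475212) (nat_lit 42) (.e (nat_lit 720920) (nat_lit 20) (.e (nat_lit 1855) (nat_lit 124) (.e (nat_lit 564992) (nat_lit 6) .nil)))))) (.g (nat_lit 4) .nil .nil))) 
(.lf (nat_lit 210686) (.g (nat_lit 1012) (.e (nat_lit 81955) (nat_lit 23) (.e (nat_lit 98333) (nat_lit 18) (.e (nat_lit 164179) (nat_lit 154) .nil))) .nil)))))))) (.nd (nat_lit 1) (.nd (nat_lit 2) (.nd (nat_lit 3) (.nd (nat_lit 4) (.nd (nat_lit 5) (.nd (nat_lit 6) 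
(.lf (nat_lit 210561) (.g (nat_lit 1494) (.e (nat_lit 81954) (nat_lit 23) (.e (nat_lit 98352) (nat_lit 25) (.e (nat_lit 417816) (nat_lit 10) (.e (nat_lit 5756) (nat_lit 315) (.e (nat_lit 163950) (nat_lit 21) (.e (nat_lit 507648) (nat_lit 20) .nil)))))) (.g (nat_lit 4) .nil .nil))) 
(.lf (nat_lit 210625) (.g (nat_lit 2029) (.e (nat_lit 81954) (nat_lit 23) (.e (nat_lit 98384) (nat_lit 32) (.e (nat_lit 475214) (nat_lit 42) (.e (nat_lit 720917) (nat_lit 20) .nil)))) .nil))) (.nd (nat_lit 6) 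
(.lf (nat_lit 210593) (.g (nat_lit 554) (.e (nat_lit 81954) (nat_lit 23) (.e (nat_lit 98363) (nat_lit 26) (.e (nat_lit 426391) (nat_lit 15) .nil))) .nil)) 
(.lf (nat_lit 210657) (.g (nat_lit 3327) (.e (nat_lit 81954) (nat_lit 23) (.e (nat_lit 98389) (nat_lit 33) (.e (nat_lit 491560) (nat_lit 10) (.e (nat_lit 344089) (nat_lit 18) (.e (nat_lit 3915) (nat_lit 239) (.e (nat_lit 1222) (nat_lit 90) .nil)))))) (.g (nat_lit 6) .nil .nil))))) (.nd (nat_lit 5) (.nd (nat_lit 6) 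
(.lf (nat_lit 210577) (.g (nat_lit 2700) (.e (nat_lit 81954) (nat_lit 23) (.e (nat_lit 98356) (nat_lit 26) (.e (nat_lit 426361) (nat_lit 15) (.e (nat_lit 2032) (nat_lit 140) (.e (nat_lit 688154) (nat_lit 13) (.e (nat_lit 1234) (nat_lit 91) (.e (nat_lit 98048) (nat_lit 6) .nil))))))) (.g (nat_lit 6) .nil .nil))) 
(.lf (nat_lit 210641) (.g (nat_lit 2452) (.e (nat_lit 81954) (nat_lit 23) (.e (nat_lit 98387) (nat_lit 33) (.e (nat_lit 491565) (nat_lit 12) (.e (nat_lit 385073) (nat_lit 31) (.e (nat_lit 573491) (nat_lit 15) .nil))))) (.g (nat_lit 0) .nil .nil)))) (.nd (nat_lit 6) 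
(.lf (nat_lit 210609) (.g (nat_lit 841) (.e (nat_lit 81954) (nat_lit 23) (.e (nat_lit 98367) (nat_lit 27) (.e (nat_lit 434269) (nat_lit 36) (.e (nat_lit 639016) (nat_lit 15) .nil)))) .nil)) 
(.lf (nat_lit 210673) (.g (nat_lit 2664) (.e (nat_lit 81954) (nat_lit 23) (.e (nat_lit 98389) (nat_lit 33) (.e (nat_lit 491565) (nat_lit 12) (.e (nat_lit 385073) (nat_lit 31) (.e (nat_lit 573491) (nat_lit 15) .nil))))) (.g (nat_lit 0) .nil .nil)))))) (.nd (nat_lit 4) (.nd (nat_lit 5) (.nd (nat_lit 6) 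
(.lf (nat_lit 210569) (.g (nat_lit 1288) (.e (nat_lit 81954) (nat_lit 23) (.e (nat_lit 98353) (nat_lit 25) (.e (nat_lit 417830) (nat_lit 19) (.e (nat_lit 311310) (nat_lit 2) .nil)))) .nil)) 
(.lf (nat_lit 210633) (.g (nat_lit 990) (.e (nat_lit 81954) (nat_lit 23) (.e (nat_lit 98384) (nat_lit 32) (.e (nat_lit 475215) (nat_lit 43) .nil))) .nil))) (.nd (nat_lit 6) 
(.lf (nat_lit 210601) (.g (nat_lit 3593) (.e (nat_lit 81954) (nat_lit 23) (.e (nat_lit 98367) (nat_lit 27) (.e (nat_lit 434268) (nat_lit 36) (.e (nat_lit 639004) (nat_lit 13) (.e (nat_lit 1239) (nat_lit 91) (.e (nat_lit 98048) (nat_lit 6) .nil)))))) (.g (nat_lit 5) .nil .nil))) 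
(.lf (nat_lit 210665) (.g (nat_lit 2087) (.e (nat_lit 81954) (nat_lit 23) (.e (nat_lit 98389) (nat_lit 33) (.e (nat_lit 491560) (nat_lit 10) (.e (nat_lit 344126) (nat_lit 25) (.e (nat_lit 556800) (nat_lit 11) .nil))))) .nil)))) (.nd (nat_lit 5) (.nd (nat_lit 6) 
(.lf (nat_lit 210585) (.g (nat_lit 2696) (.e (nat_lit 81954) (nat_lit 23) (.e (nat_lit 98356) (nat_lit 26) (.e (nat_lit 426448) (nat_lit 20) (.e (nat_lit 114699) (nat_lit 20) .nil)))) .nil)) 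
(.lf (nat_lit 210649) (.g (nat_lit 2370) (.e (nat_lit 81954) (nat_lit 23) (.e (nat_lit 98389) (nat_lit 33) (.e (nat_lit 491544) (nat_lit 7) (.e (nat_lit 319519) (nat_lit 12) (.e (nat_lit 32789) (nat_lit 11) .nil))))) (.g (nat_lit 0) .nil .nil)))) (.nd (nat_lit 6) 
(.lf (nat_lit 210617) (.g (nat_lit 1088) (.e (nat_lit 81954) (nat_lit 23) (.e (nat_lit 98367) (nat_lit 27) (.e (nat_lit 434276) (nat_lit 39) (.e (nat_lit 663573) (nat_lit 9) .nil)))) .nil)) 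
(.lf (nat_lit 210681) (.g (nat_lit 480) (.e (nat_lit 81955) (nat_lit 23) (.e (nat_lit 98313) (nat_lit 9) (.e (nat_lit 343808) (nat_lit 20) .nil))) .nil)))))) (.nd (nat_lit 3) (.nd (nat_lit 4) (.nd (nat_lit 5) (.nd (nat_lit 6) 
(.lf (nat_lit 210565) (.g (nat_lit 1972) (.e (nat_lit 81954) (nat_lit 23) (.e (nat_lit 98353) (nat_lit 25) (.e (nat_lit 417820) (nat_lit 10) (.e (nat_lit 5761) (nat_lit 315) (.e (nat_lit 163950) (nat_lit 21) (.e (nat_lit 500077) (nat_lit 20) .nil)))))) (.g (nat_lit 4) .nil .nil))) 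
(.lf (nat_lit 210629) (.g (nat_lit 3416) (.e (nat_lit 81954) (nat_lit 23) (.e (nat_lit 98384) (nat_lit 32) (.e (nat_lit 475214) (nat_lit 42) (.e (nat_lit 720929) (nat_lit 21) (.e (nat_lit 57623) (nat_lit 128) (.e (nat_lit 7936) (nat_lit 90) .nil)))))) (.g (nat_lit 4) .nil .nil)))) (.nd (nat_lit 6) 
(.lf (nat_lit 210597) (.g (nat_lit 988) (.e (nat_lit 81954) (nat_lit 23) (.e (nat_lit 98367) (nat_lit 27) (.e (nat_lit 434208) (nat_lit 18) (.e (nat_lit 5117) (nat_lit 292) .nil)))) .nil)) 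
(.lf (nat_lit 210661) (.g (nat_lit 2699) (.e (nat_lit 81954) (nat_lit 23) (.e (nat_lit 98389) (nat_lit 33) (.e (nat_lit 491560) (nat_lit 10) (.e (nat_lit 344096) (nat_lit 18) (.e (nat_lit 3928) (nat_lit 239) (.e (nat_lit 1216) (nat_lit 90) .nil)))))) (.g (nat_lit 4) .nil .nil))))) (.nd (nat_lit 5) (.nd (nat_lit 6) 
(.lf (nat_lit 210581) (.g (nat_lit 2568) (.e (nat_lit 81954) (nat_lit 23) (.e (nat_lit 98356) (nat_lit 26) (.e (nat_lit 426422) (nat_lit 16) (.e (nat_lit 57726) (nat_lit 181) (.e (nat_lit 1086) (nat_lit 81) (.e (nat_lit 1234) (nat_lit 91) (.e (nat_lit 98048) (nat_lit 6) .nil))))))) (.g (nat_lit 6) .nil .nil))) 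
(.lf (nat_lit 210645) (.g (nat_lit 3425) (.e (nat_lit 81954) (nat_lit 23) (.e (nat_lit 98388) (nat_lit 33) (.e (nat_lit 491562) (nat_lit 12) (.e (nat_lit 385074) (nat_lit 31) (.e (nat_lit 573491) (nat_lit 15) .nil))))) (.g (nat_lit 0) .nil .nil)))) (.nd (nat_lit 6) 
(.lf (nat_lit 210613) (.g (nat_lit 1853) (.e (nat_lit 81954) (nat_lit 23) (.e (nat_lit 98367) (nat_lit 27) (.e (nat_lit 434272) (nat_lit 38) (.e (nat_lit 655375) (nat_lit 3) (.e (nat_lit 163973) (nat_lit 30) .nil))))) .nil)) 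
(.lf (nat_lit 210677) (.g (nat_lit 1079) (.e (nat_lit 81955) (nat_lit 23) (.e (nat_lit 98313) (nat_lit 9) (.e (nat_lit 335995) (nat_lit 1) (.e (nat_lit 57847) (nat_lit 252) .nil)))) .nil))))) (.nd (nat_lit 4) (.nd (nat_lit 5) (.nd (nat_lit 6) 
(.lf (nat_lit 210573) (.g (nat_lit 2407) (.e (nat_lit 81954) (nat_lit 23) (.e (nat_lit 98356) (nat_lit 26) (.e (nat_lit 426361) (nat_lit 15) (.e (nat_lit 2026) (nat_lit 140) (.e (nat_lit 688167) (nat_lit 15) (.e (nat_lit 57454) (nat_lit 21) (.e (nat_lit 507648) (nat_lit 20) .nil))))))) (.g (nat_lit 6) .nil .nil))) 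
(.lf (nat_lit 210637) (.g (nat_lit 606) (.e (nat_lit 81954) (nat_lit 23) (.e (nat_lit 98386) (nat_lit 32) (.e (nat_lit 475205) (nat_lit 40) .nil))) .nil))) (.nd (nat_lit 6) 
(.lf (nat_lit 210605) (.g (nat_lit 3516) (.e (nat_lit 81954) (nat_lit 23) (.e (nat_lit 98367) (nat_lit 27) (.e (nat_lit 434268) (nat_lit 36) (.e (nat_lit 639009) (nat_lit 13) (.e (nat_lit 1234) (nat_lit 91) (.e (nat_lit 98048) (nat_lit 6) .nil)))))) (.g (nat_lit 5) .nil .nil))) 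
(.lf (nat_lit 210669) (.g (nat_lit 3221) (.e (nat_lit 81954) (nat_lit 23) (.e (nat_lit 98389) (nat_lit 33) (.e (nat_lit 491563) (nat_lit 12) (.e (nat_lit 385074) (nat_lit 31) (.e (nat_lit 573491) (nat_lit 15) .nil))))) (.g (nat_lit 0) .nil .nil))))) (.nd (nat_lit 5) (.nd (nat_lit 6) 
(.lf (nat_lit 210589) (.g (nat_lit 2300) (.e (nat_lit 81954) (nat_lit 23) (.e (nat_lit 98356) (nat_lit 26) (.e (nat_lit 426467) (nat_lit 24) (.e (nat_lit 155674) (nat_lit 12) (.e (nat_lit 57478) (nat_lit 28) (.e (nat_lit 564992) (nat_lit 6) .nil)))))) (.g (nat_lit 5) .nil .nil))) 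
(.lf (nat_lit 210653) (.g (nat_lit 1265) (.e (nat_lit 81954) (nat_lit 23) (.e (nat_lit 98389) (nat_lit 33) (.e (nat_lit 491558) (nat_lit 10) (.e (nat_lit 344089) (nat_lit 18) .nil)))) .nil))) (.nd (nat_lit 6) 
(.lf (nat_lit 210621) (.g (nat_lit 1002) (.e (nat_lit 81954) (nat_lit 23) (.e (nat_lit 98384) (nat_lit 32) (.e (nat_lit 483072) (nat_lit 40) .nil))) .nil)) 
(.lf (nat_lit 210685) (.g (nat_lit 1245) (.e (nat_lit 81955) (nat_lit 23) (.e (nat_lit 98333) (nat_lit 18) (.e (nat_lit 164151) (nat_lit 152) (.e (nat_lit 1207) (nat_lit 89) .nil)))) .nil))))))) (.nd (nat_lit 2) (.nd (nat_lit 3) (.nd (nat_lit 4) (.nd (nat_lit 5) (.nd (nat_lit 6) 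
(.lf (nat_lit 210563) (.g (nat_lit 867) (.e (nat_lit 81954) (nat_lit 23) (.e (nat_lit 98353) (nat_lit 25) (.e (nat_lit 417820) (nat_lit 10) (.e (nat_lit 5756) (nat_lit 315) .nil)))) .nil)) 
(.lf (nat_lit 210627) (.g (nat_lit 2159) (.e (nat_lit 81954) (nat_lit 23) (.e (nat_lit 98384) (nat_lit 32) (.e (nat_lit 475214) (nat_lit 42) (.e (nat_lit 720926) (nat_lit 20) .nil)))) .nil))) (.nd (nat_lit 6) 
(.lf (nat_lit 210595) (.g (nat_lit 687) (.e (nat_lit 81954) (nat_lit 23) (.e (nat_lit 98366) (nat_lit 27) (.e (nat_lit 434266) (nat_lit 35) (.e (nat_lit 630814) (nat_lit 13) .nil)))) .nil)) 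
(.lf (nat_lit 210659) (.g (nat_lit 1621) (.e (nat_lit 81954) (nat_lit 23) (.e (nat_lit 98389) (nat_lit 33) (.e (nat_lit 491560) (nat_lit 10) (.e (nat_lit 344093) (nat_lit 18) .nil)))) .nil)))) (.nd (nat_lit 5) (.nd (nat_lit 6) 
(.lf (nat_lit 210579) (.g (nat_lit 2504) (.e (nat_lit 81954) (nat_lit 23) (.e (nat_lit 98356) (nat_lit 26) (.e (nat_lit 426361) (nat_lit 15) (.e (nat_lit 2206) (nat_lit 144) (.e (nat_lit 720920) (nat_lit 20) (.e (nat_lit 1855) (nat_lit 124) (.e (nat_lit 564992) (nat_lit 6) .nil))))))) (.g (nat_lit 6) .nil .nil))) 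
(.lf (nat_lit 210643) (.g (nat_lit 2159) (.e (nat_lit 81954) (nat_lit 23) (.e (nat_lit 98388) (nat_lit 33) (.e (nat_lit 491560) (nat_lit 10) (.e (nat_lit 344126) (nat_lit 25) (.e (nat_lit 548891) (nat_lit 11) .nil))))) (.g (nat_lit 4) .nil .nil)))) (.nd (nat_lit 6) 
(.lf (nat_lit 210611) (.g (nat_lit 2930) (.e (nat_lit 81954) (nat_lit 23) (.e (nat_lit 98367) (nat_lit 27) (.e (nat_lit 434272) (nat_lit 38) (.e (nat_lit 655364) (nat_lit 0) (.e (nat_lit 2472) (nat_lit 157) .nil))))) .nil)) 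
(.lf (nat_lit 210675) (.g (nat_lit 1792) (.e (nat_lit 81955) (nat_lit 23) (.e (nat_lit 98313) (nat_lit 9) (.e (nat_lit 335986) (nat_lit 1) (.e (nat_lit 57847) (nat_lit 252) (.e (nat_lit 57365) (nat_lit 1) (.e (nat_lit 65280) (nat_lit 209) (.e (nat_lit 1217) (nat_lit 90) .nil))))))) (.g (nat_lit 4) .nil .nil)))))) (.nd (nat_lit 4) (.nd (nat_lit 5) (.nd (nat_lit 6) 
(.lf (nat_lit 210571) (.g (nat_lit 447) (.e (nat_lit 81954) (nat_lit 23) (.e (nat_lit 98356) (nat_lit 26) (.e (nat_lit 426361) (nat_lit 15) .nil))) .nil)) 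
(.lf (nat_lit 210635) (.g (nat_lit 2188) (.e (nat_lit 81954) (nat_lit 23) (.e (nat_lit 98385) (nat_lit 32) (.e (nat_lit 475212) (nat_lit 42) (.e (nat_lit 720920) (nat_lit 20) (.e (nat_lit 1855) (nat_lit 124) (.e (nat_lit 564992) (nat_lit 6) .nil)))))) (.g (nat_lit 5) .nil .nil)))) (.nd (nat_lit 6) 
(.lf (nat_lit 210603) (.g (nat_lit 3420) (.e (nat_lit 81954) (nat_lit 23) (.e (nat_lit 98367) (nat_lit 27) (.e (nat_lit 434268) (nat_lit 36) (.e (nat_lit 639006) (nat_lit 13) (.e (nat_lit 1239) (nat_lit 91) (.e (nat_lit 98048) (nat_lit 6) .nil)))))) (.g (nat_lit 5) .nil .nil))) 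
(.lf (nat_lit 210667) (.g (nat_lit 3287) (.e (nat_lit 81954) (nat_lit 23) (.e (nat_lit 98389) (nat_lit 33) (.e (nat_lit 491562) (nat_lit 12) (.e (nat_lit 385074) (nat_lit 31) (.e (nat_lit 573491) (nat_lit 15) .nil))))) (.g (nat_lit 0) .nil .nil))))) (.nd (nat_lit 5) (.nd (nat_lit 6) 
(.lf (nat_lit 210587) (.g (nat_lit 2701) (.e (nat_lit 81954) (nat_lit 23) (.e (nat_lit 98356) (nat_lit 26) (.e (nat_lit 426448) (nat_lit 20) (.e (nat_lit 114707) (nat_lit 20) .nil)))) .nil)) 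
(.lf (nat_lit 210651) (.g (nat_lit 791) (.e (nat_lit 81954) (nat_lit 23) (.e (nat_lit 98389) (nat_lit 33) (.e (nat_lit 491546) (nat_lit 9) (.e (nat_lit 343808) (nat_lit 15) .nil)))) .nil))) (.nd (nat_lit 6) 
(.lf (nat_lit 210619) (.g (nat_lit 1897) (.e (nat_lit 81954) (nat_lit 23) (.e (nat_lit 98383) (nat_lit 32) (.e (nat_lit 475210) (nat_lit 41) (.e (nat_lit 712722) (nat_lit 15) (.e (nat_lit 3302) (nat_lit 202) .nil))))) .nil)) 
(.lf (nat_lit 210683) (.g (nat_lit 969) (.e (nat_lit 81955) (nat_lit 23) (.e (nat_lit 98325) (nat_lit 17) (.e (nat_lit 6986) (nat_lit 377) (.e (nat_lit 2810) (nat_lit 180) (.e (nat_lit 303106) (nat_lit 0) .nil))))) .nil)))))) (.nd (nat_lit 3) (.nd (nat_lit 4) (.nd (nat_lit 5) (.nd (nat_lit 6) 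
(.lf (nat_lit 210567) (.g (nat_lit 2921) (.e (nat_lit 81954) (nat_lit 23) (.e (nat_lit 98353) (nat_lit 25) (.e (nat_lit 417828) (nat_lit 18) (.e (nat_lit 303116) (nat_lit 2) (.e (nat_lit 196672) (nat_lit 15) .nil))))) (.g (nat_lit 0) .nil .nil))) 
(.lf (nat_lit 210631) (.g (nat_lit 1751) (.e (nat_lit 81954) (nat_lit 23) (.e (nat_lit 98384) (nat_lit 32) (.e (nat_lit 475214) (nat_lit 42) (.e (nat_lit 720931) (nat_lit 21) (.e (nat_lit 57623) (nat_lit 128) .nil))))) .nil))) (.nd (nat_lit 6) 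
(.lf (nat_lit 210599) (.g (nat_lit 2479) (.e (nat_lit 81954) (nat_lit 23) (.e (nat_lit 98367) (nat_lit 27) (.e (nat_lit 434265) (nat_lit 35) (.e (nat_lit 630814) (nat_lit 13) (.e (nat_lit 1234) (nat_lit 91) (.e (nat_lit 98048) (nat_lit 6) .nil)))))) (.g (nat_lit 5) .nil .nil))) 
(.lf (nat_lit 210663) (.g (nat_lit 1198) (.e (nat_lit 81954) (nat_lit 23) (.e (nat_lit 98389) (nat_lit 33) (.e (nat_lit 491560) (nat_lit 10) (.e (nat_lit 352000) (nat_lit 18) .nil)))) .nil)))) (.nd (nat_lit 5) (.nd (nat_lit 6) 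
(.lf (nat_lit 210583) (.g (nat_lit 1243) (.e (nat_lit 81954) (nat_lit 23) (.e (nat_lit 98356) (nat_lit 26) (.e (nat_lit 426446) (nat_lit 20) (.e (nat_lit 114704) (nat_lit 20) .nil)))) .nil)) 
(.lf (nat_lit 210647) (.g (nat_lit 1286) (.e (nat_lit 81954) (nat_lit 23) (.e (nat_lit 98389) (nat_lit 33) (.e (nat_lit 491526) (nat_lit 0) (.e (nat_lit 6126) (nat_lit 332) .nil)))) .nil))) (.nd (nat_lit 6) 
(.lf (nat_lit 210615) (.g (nat_lit 1055) (.e (nat_lit 81954) (nat_lit 23) (.e (nat_lit 98367) (nat_lit 27) (.e (nat_lit 434275) (nat_lit 39) (.e (nat_lit 663585) (nat_lit 12) .nil)))) .nil)) 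
(.lf (nat_lit 210679) (.g (nat_lit 1854) (.e (nat_lit 81955) (nat_lit 23) (.e (nat_lit 98313) (nat_lit 9) (.e (nat_lit 335995) (nat_lit 1) (.e (nat_lit 57847) (nat_lit 252) (.e (nat_lit 57368) (nat_lit 1) .nil))))) .nil))))) (.nd (nat_lit 4) (.nd (nat_lit 5) (.nd (nat_lit 6) 
(.lf (nat_lit 210575) (.g (nat_lit 2687) (.e (nat_lit 81954) (nat_lit 23) (.e (nat_lit 98356) (nat_lit 26) (.e (nat_lit 426361) (nat_lit 15) (.e (nat_lit 2032) (nat_lit 140) (.e (nat_lit 688145) (nat_lit 13) (.e (nat_lit 1239) (nat_lit 91) (.e (nat_lit 98048) (nat_lit 6) .nil))))))) (.g (nat_lit 6) .nil .nil))) 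
(.lf (nat_lit 210639) (.g (nat_lit 2796) (.e (nat_lit 81954) (nat_lit 23) (.e (nat_lit 98387) (nat_lit 33) (.e (nat_lit 491563) (nat_lit 12) (.e (nat_lit 385074) (nat_lit 31) (.e (nat_lit 573493) (nat_lit 15) .nil))))) (.g (nat_lit 4) .nil .nil)))) (.nd (nat_lit 6) 
(.lf (nat_lit 210607) (.g (nat_lit 3747) (.e (nat_lit 81954) (nat_lit 23) (.e (nat_lit 98367) (nat_lit 27) (.e (nat_lit 434268) (nat_lit 36) (.e (nat_lit 639011) (nat_lit 13) (.e (nat_lit 1234) (nat_lit 91) (.e (nat_lit 98048) (nat_lit 6) .nil)))))) (.g (nat_lit 5) .nil .nil))) 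
(.lf (nat_lit 210671) (.g (nat_lit 2827) (.e (nat_lit 81954) (nat_lit 23) (.e (nat_lit 98389) (nat_lit 33) (.e (nat_lit 491564) (nat_lit 12) (.e (nat_lit 385074) (nat_lit 31) (.e (nat_lit 573491) (nat_lit 15) .nil))))) (.g (nat_lit 0) .nil .nil))))) (.nd (nat_lit 5) (.nd (nat_lit 6) 
(.lf (nat_lit 210591) (.g (nat_lit 2556) (.e (nat_lit 81954) (nat_lit 23) (.e (nat_lit 98356) (nat_lit 26) (.e (nat_lit 426467) (nat_lit 24) (.e (nat_lit 155674) (nat_lit 12) (.e (nat_lit 57480) (nat_lit 28) (.e (nat_lit 564992) (nat_lit 6) .nil)))))) (.g (nat_lit 5) .nil .nil))) 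
(.lf (nat_lit 210655) (.g (nat_lit 3227) (.e (nat_lit 81954) (nat_lit 23) (.e (nat_lit 98389) (nat_lit 33) (.e (nat_lit 491560) (nat_lit 10) (.e (nat_lit 344088) (nat_lit 18) (.e (nat_lit 3915) (nat_lit 239) (.e (nat_lit 1222) (nat_lit 90) .nil)))))) (.g (nat_lit 6) .nil .nil)))) (.nd (nat_lit 6) 
(.lf (nat_lit 210623) (.g (nat_lit 3189) (.e (nat_lit 81954) (nat_lit 23) (.e (nat_lit 98384) (nat_lit 32) (.e (nat_lit 475214) (nat_lit 42) (.e (nat_lit 720912) (nat_lit 20) (.e (nat_lit 1863) (nat_lit 124) (.e (nat_lit 564992) (nat_lit 6) .nil)))))) (.g (nat_lit 5) .nil .nil))) 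
(.lf (nat_lit 210687) (.g (nat_lit 2133) (.e (nat_lit 81955) (nat_lit 23) (.e (nat_lit 98333) (nat_lit 18) (.e (nat_lit 164179) (nat_lit 154) (.e (nat_lit 57403) (nat_lit 11) .nil)))) .nil)))))))))

noncomputable def tv2783 : DT := (.nd (nat_lit 0) (.nd (nat_lit 1) (.nd (nat_lit 2) (.nd (nat_lit 3) (.nd (nat_lit 4) (.nd (nat_lit 5) (.nd (nat_lit 6) 
(.lf (nat_lit 210688) (.g (nat_lit 1130) (.e (nat_lit 81955) (nat_lit 23) (.e (nat_lit 98333) (nat_lit 18) (.e (nat_lit 164182) (nat_lit 154) .nil))) .nil)) 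
(.lf (nat_lit 210752) (.g (nat_lit 3032) (.e (nat_lit 81955) (nat_lit 23) (.e (nat_lit 98367) (nat_lit 27) (.e (nat_lit 434268) (nat_lit 36) (.e (nat_lit 639007) (nat_lit 13) (.e (nat_lit 1239) (nat_lit 91) (.e (nat_lit 98048) (nat_lit 6) .nil)))))) (.g (nat_lit 5) .nil .nil)))) (.nd (nat_lit 6) 
(.lf (nat_lit 210720) (.g (nat_lit 2009) (.e (nat_lit 81955) (nat_lit 23) (.e (nat_lit 98350) (nat_lit 24) (.e (nat_lit 409649) (nat_lit 18) (.e (nat_lit 303105) (nat_lit 0) .nil)))) .nil)) 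
(.lf (nat_lit 210784) (.g (nat_lit 1805) (.e (nat_lit 81956) (nat_lit 23) (.e (nat_lit 98313) (nat_lit 9) (.e (nat_lit 343808) (nat_lit 20) (.e (nat_lit 221208) (nat_lit 21) (.e (nat_lit 164385) (nat_lit 254) (.e (nat_lit 7936) (nat_lit 90) .nil)))))) (.g (nat_lit 4) .nil .nil))))) (.nd (nat_lit 5) (.nd (nat_lit 6) 
(.lf (nat_lit 210704) (.g (nat_lit 550) (.e (nat_lit 81955) (nat_lit 23) (.e (nat_lit 98350) (nat_lit 24) (.e (nat_lit 409617) (nat_lit 10) .nil))) .nil)) 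
(.lf (nat_lit 210768) (.g (nat_lit 1951) (.e (nat_lit 81955) (nat_lit 23) (.e (nat_lit 98389) (nat_lit 33) (.e (nat_lit 491560) (nat_lit 10) (.e (nat_lit 344088) (nat_lit 18) (.e (nat_lit 3920) (nat_lit 239) .nil))))) .nil))) (.nd (nat_lit 6) 
(.lf (nat_lit 210736) (.g (nat_lit 3191) (.e (nat_lit 81955) (nat_lit 23) (.e (nat_lit 98353) (nat_lit 25) (.e (nat_lit 417828) (nat_lit 18) (.e (nat_lit 303117) (nat_lit 2) (.e (nat_lit 196674) (nat_lit 15) .nil))))) (.g (nat_lit 0) .nil .nil))) 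
(.lf (nat_lit 210800) (.g (nat_lit 2373) (.e (nat_lit 81956) (nat_lit 23) (.e (nat_lit 98320) (nat_lit 17) (.e (nat_lit 7591) (nat_lit 407) (.e (nat_lit 73733) (nat_lit 0) (.e (nat_lit 3982) (nat_lit 239) (.e (nat_lit 7936) (nat_lit 90) .nil)))))) (.g (nat_lit 5) .nil .nil)))))) (.nd (nat_lit 4) (.nd (nat_lit 5) (.nd (nat_lit 6) 
(.lf (nat_lit 210696) (.g (nat_lit 371) (.e (nat_lit 81955) (nat_lit 23) (.e (nat_lit 98350) (nat_lit 24) (.e (nat_lit 409616) (nat_lit 10) .nil))) .nil)) 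
(.lf (nat_lit 210760) (.g (nat_lit 318) (.e (nat_lit 81955) (nat_lit 23) (.e (nat_lit 98385) (nat_lit 32) (.e (nat_lit 475193) (nat_lit 38) .nil))) .nil))) (.nd (nat_lit 6) 
(.lf (nat_lit 210728) (.g (nat_lit 1784) (.e (nat_lit 81955) (nat_lit 23) (.e (nat_lit 98350) (nat_lit 24) (.e (nat_lit 409649) (nat_lit 18) (.e (nat_lit 303116) (nat_lit 2) (.e (nat_lit 204544) (nat_lit 15) .nil))))) (.g (nat_lit 4) .nil .nil))) 
(.lf (nat_lit 210792) (.g (nat_lit 2847) (.e (nat_lit 81956) (nat_lit 23) (.e (nat_lit 98320) (nat_lit 17) (.e (nat_lit 7581) (nat_lit 405) (.e (nat_lit 57721) (nat_lit 177) (.e (nat_lit 57596) (nat_lit 82) (.e (nat_lit 507648) (nat_lit 20) .nil)))))) (.g (nat_lit 5) .nil .nil))))) (.nd (nat_lit 5) (.nd (nat_lit 6) 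
(.lf (nat_lit 210712) (.g (nat_lit 1277) (.e (nat_lit 81955) (nat_lit 23) (.e (nat_lit 98350) (nat_lit 24) (.e (nat_lit 409648) (nat_lit 18) (.e (nat_lit 303107) (nat_lit 0) .nil)))) .nil)) 
(.lf (nat_lit 210776) (.g (nat_lit 357) (.e (nat_lit 81956) (nat_lit 23) (.e (nat_lit 98313) (nat_lit 9) (.e (nat_lit 335995) (nat_lit 1) .nil))) .nil))) (.nd (nat_lit 6) 
(.lf (nat_lit 210744) (.g (nat_lit 2351) (.e (nat_lit 81955) (nat_lit 23) (.e (nat_lit 98365) (nat_lit 26) (.e (nat_lit 426100) (nat_lit 1) (.e (nat_lit 164297) (nat_lit 226) (.e (nat_lit 999) (nat_lit 81) .nil))))) .nil)) 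
(.lf (nat_lit 210808) (.g (nat_lit 2558) (.e (nat_lit 81956) (nat_lit 23) (.e (nat_lit 98320) (nat_lit 17) (.e (nat_lit 7593) (nat_lit 407) (.e (nat_lit 73732) (nat_lit 0) (.e (nat_lit 3978) (nat_lit 239) (.e (nat_lit 7936) (nat_lit 90) .nil)))))) (.g (nat_lit 5) .nil .nil))))))) (.nd (nat_lit 3) (.nd (nat_lit 4) (.nd (nat_lit 5) (.nd (nat_lit 6) 
(.lf (nat_lit 210692) (.g (nat_lit 2661) (.e (nat_lit 81955) (nat_lit 23) (.e (nat_lit 98349) (nat_lit 24) (.e (nat_lit 409644) (nat_lit 18) (.e (nat_lit 303117) (nat_lit 2) (.e (nat_lit 196674) (nat_lit 15) .nil))))) (.g (nat_lit 5) .nil .nil))) 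
(.lf (nat_lit 210756) (.g (nat_lit 1550) (.e (nat_lit 81955) (nat_lit 23) (.e (nat_lit 98367) (nat_lit 27) (.e (nat_lit 434269) (nat_lit 36) (.e (nat_lit 639008) (nat_lit 13) .nil)))) .nil))) (.nd (nat_lit 6) 
(.lf (nat_lit 210724) (.g (nat_lit 2251) (.e (nat_lit 81955) (nat_lit 23) (.e (nat_lit 98350) (nat_lit 24) (.e (nat_lit 409649) (nat_lit 18) (.e (nat_lit 303111) (nat_lit 0) (.e (nat_lit 3124) (nat_lit 193) (.e (nat_lit 507648) (nat_lit 20) .nil)))))) (.g (nat_lit 4) .nil .nil))) 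
(.lf (nat_lit 210788) (.g (nat_lit 2480) (.e (nat_lit 81956) (nat_lit 23) (.e (nat_lit 98319) (nat_lit 17) (.e (nat_lit 7591) (nat_lit 407) (.e (nat_lit 73729) (nat_lit 0) (.e (nat_lit 3950) (nat_lit 239) (.e (nat_lit 1218) (nat_lit 90) .nil)))))) (.g (nat_lit 4) .nil .nil))))) (.nd (nat_lit 5) (.nd (nat_lit 6) 
(.lf (nat_lit 210708) (.g (nat_lit 428) (.e (nat_lit 81955) (nat_lit 23) (.e (nat_lit 98350) (nat_lit 24) (.e (nat_lit 409623) (nat_lit 10) .nil))) .nil)) 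
(.lf (nat_lit 210772) (.g (nat_lit 2193) (.e (nat_lit 81956) (nat_lit 23) (.e (nat_lit 98309) (nat_lit 0) (.e (nat_lit 6112) (nat_lit 332) (.e (nat_lit 1374) (nat_lit 104) (.e (nat_lit 303106) (nat_lit 0) (.e (nat_lit 3575) (nat_lit 223) (.e (nat_lit 745493) (nat_lit 6) .nil))))))) (.g (nat_lit 4) .nil .nil)))) (.nd (nat_lit 6) 
(.lf (nat_lit 210740) (.g (nat_lit 851) (.e (nat_lit 81955) (nat_lit 23) (.e (nat_lit 98365) (nat_lit 26) (.e (nat_lit 426098) (nat_lit 1) .nil))) .nil)) 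
(.lf (nat_lit 210804) (.g (nat_lit 2247) (.e (nat_lit 81956) (nat_lit 23) (.e (nat_lit 98320) (nat_lit 17) (.e (nat_lit 7593) (nat_lit 407) (.e (nat_lit 73729) (nat_lit 0) (.e (nat_lit 3957) (nat_lit 239) (.e (nat_lit 7936) (nat_lit 90) .nil)))))) (.g (nat_lit 4) .nil .nil)))))) (.nd (nat_lit 4) (.nd (nat_lit 5) (.nd (nat_lit 6) 
(.lf (nat_lit 210700) (.g (nat_lit 2020) (.e (nat_lit 81955) (nat_lit 23) (.e (nat_lit 98350) (nat_lit 24) (.e (nat_lit 409616) (nat_lit 10) (.e (nat_lit 5758) (nat_lit 315) .nil)))) .nil)) 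
(.lf (nat_lit 210764) (.g (nat_lit 2052) (.e (nat_lit 81955) (nat_lit 23) (.e (nat_lit 98387) (nat_lit 33) (.e (nat_lit 491566) (nat_lit 12) (.e (nat_lit 385043) (nat_lit 21) (.e (nat_lit 4175) (nat_lit 251) .nil))))) .nil))) (.nd (nat_lit 6) 
(.lf (nat_lit 210732) (.g (nat_lit 3944) (.e (nat_lit 81955) (nat_lit 23) (.e (nat_lit 98350) (nat_lit 24) (.e (nat_lit 409650) (nat_lit 19) (.e (nat_lit 311312) (nat_lit 2) (.e (nat_lit 196674) (nat_lit 15) .nil))))) (.g (nat_lit 0) .nil .nil))) 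
(.lf (nat_lit 210796) (.g (nat_lit 2197) (.e (nat_lit 81956) (nat_lit 23) (.e (nat_lit 98320) (nat_lit 17) (.e (nat_lit 7591) (nat_lit 407) (.e (nat_lit 73729) (nat_lit 0) (.e (nat_lit 3957) (nat_lit 239) (.e (nat_lit 7936) (nat_lit 90) .nil)))))) (.g (nat_lit 4) .nil .nil))))) (.nd (nat_lit 5) (.nd (nat_lit 6) 
(.lf (nat_lit 210716) (.g (nat_lit 1062) (.e (nat_lit 81955) (nat_lit 23) (.e (nat_lit 98350) (nat_lit 24) (.e (nat_lit 409648) (nat_lit 18) (.e (nat_lit 311040) (nat_lit 0) .nil)))) .nil)) 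
(.lf (nat_lit 210780) (.g (nat_lit 2221) (.e (nat_lit 81956) (nat_lit 23) (.e (nat_lit 98313) (nat_lit 9) (.e (nat_lit 335995) (nat_lit 1) (.e (nat_lit 57847) (nat_lit 252) (.e (nat_lit 57365) (nat_lit 1) (.e (nat_lit 57756) (nat_lit 209) (.e (nat_lit 7936) (nat_lit 90) .nil))))))) (.g (nat_lit 4) .nil .nil)))) (.nd (nat_lit 6) 
(.lf (nat_lit 210748) (.g (nat_lit 550) (.e (nat_lit 81955) (nat_lit 23) (.e (nat_lit 98366) (nat_lit 27) (.e (nat_lit 434269) (nat_lit 36) .nil))) .nil)) 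
(.lf (nat_lit 210812) (.g (nat_lit 1505) (.e (nat_lit 81956) (nat_lit 23) (.e (nat_lit 98321) (nat_lit 17) (.e (nat_lit 3458) (nat_lit 216) (.e (nat_lit 688176) (nat_lit 16) (.e (nat_lit 65580) (nat_lit 6) (.e (nat_lit 155392) (nat_lit 6) .nil)))))) (.g (nat_lit 5) .nil .nil)))))))) (.nd (nat_lit 2) (.nd (nat_lit 3) (.nd (nat_lit 4) (.nd (nat_lit 5) (.nd (nat_lit 6) 
(.lf (nat_lit 210690) (.g (nat_lit 831) (.e (nat_lit 81955) (nat_lit 23) (.e (nat_lit 98334) (nat_lit 18) (.e (nat_lit 164159) (nat_lit 152) .nil))) .nil)) 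
(.lf (nat_lit 210754) (.g (nat_lit 2037) (.e (nat_lit 81955) (nat_lit 23) (.e (nat_lit 98367) (nat_lit 27) (.e (nat_lit 434268) (nat_lit 36) (.e (nat_lit 646912) (nat_lit 13) .nil)))) .nil))) (.nd (nat_lit 6) 
(.lf (nat_lit 210722) (.g (nat_lit 1869) (.e (nat_lit 81955) (nat_lit 23) (.e (nat_lit 98350) (nat_lit 24) (.e (nat_lit 409649) (nat_lit 18) (.e (nat_lit 303107) (nat_lit 0) .nil)))) .nil)) 
(.lf (nat_lit 210786) (.g (nat_lit 2231) (.e (nat_lit 81956) (nat_lit 23) (.e (nat_lit 106240) (nat_lit 10) (.e (nat_lit 344160) (nat_lit 37) (.e (nat_lit 647200) (nat_lit 12) (.e (nat_lit 57516) (nat_lit 42) (.e (nat_lit 671764) (nat_lit 6) .nil)))))) (.g (nat_lit 4) .nil .nil))))) (.nd (nat_lit 5) (.nd (nat_lit 6) 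
(.lf (nat_lit 210706) (.g (nat_lit 1863) (.e (nat_lit 81955) (nat_lit 23) (.e (nat_lit 98350) (nat_lit 24) (.e (nat_lit 409617) (nat_lit 10) (.e (nat_lit 5756) (nat_lit 315) (.e (nat_lit 163950) (nat_lit 21) .nil))))) .nil)) 
(.lf (nat_lit 210770) (.g (nat_lit 1906) (.e (nat_lit 81955) (nat_lit 23) (.e (nat_lit 98389) (nat_lit 33) (.e (nat_lit 491560) (nat_lit 10) (.e (nat_lit 344124) (nat_lit 25) (.e (nat_lit 548891) (nat_lit 11) .nil))))) (.g (nat_lit 4) .nil .nil)))) (.nd (nat_lit 6) 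
(.lf (nat_lit 210738) (.g (nat_lit 1068) (.e (nat_lit 81955) (nat_lit 23) (.e (nat_lit 98358) (nat_lit 26) (.e (nat_lit 426354) (nat_lit 15) .nil))) .nil)) 
(.lf (nat_lit 210802) (.g (nat_lit 2262) (.e (nat_lit 81956) (nat_lit 23) (.e (nat_lit 98320) (nat_lit 17) (.e (nat_lit 7593) (nat_lit 407) (.e (nat_lit 73729) (nat_lit 0) (.e (nat_lit 3928) (nat_lit 239) (.e (nat_lit 7936) (nat_lit 90) .nil)))))) (.g (nat_lit 4) .nil .nil)))))) (.nd (nat_lit 4) (.nd (nat_lit 5) (.nd (nat_lit 6) 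
(.lf (nat_lit 210698) (.g (nat_lit 2044) (.e (nat_lit 81955) (nat_lit 23) (.e (nat_lit 98350) (nat_lit 24) (.e (nat_lit 409616) (nat_lit 10) (.e (nat_lit 5656) (nat_lit 312) .nil)))) .nil)) 
(.lf (nat_lit 210762) (.g (nat_lit 2875) (.e (nat_lit 81955) (nat_lit 23) (.e (nat_lit 98386) (nat_lit 32) (.e (nat_lit 475199) (nat_lit 40) (.e (nat_lit 704590) (nat_lit 3) (.e (nat_lit 163975) (nat_lit 30) .nil))))) .nil))) (.nd (nat_lit 6) 
(.lf (nat_lit 210730) (.g (nat_lit 3526) (.e (nat_lit 81955) (nat_lit 23) (.e (nat_lit 98350) (nat_lit 24) (.e (nat_lit 409650) (nat_lit 19) (.e (nat_lit 311311) (nat_lit 2) (.e (nat_lit 196674) (nat_lit 15) .nil))))) (.g (nat_lit 0) .nil .nil))) 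
(.lf (nat_lit 210794) (.g (nat_lit 2212) (.e (nat_lit 81956) (nat_lit 23) (.e (nat_lit 98320) (nat_lit 17) (.e (nat_lit 7591) (nat_lit 407) (.e (nat_lit 73729) (nat_lit 0) (.e (nat_lit 3928) (nat_lit 239) (.e (nat_lit 7936) (nat_lit 90) .nil)))))) (.g (nat_lit 4) .nil .nil))))) (.nd (nat_lit 5) (.nd (nat_lit 6) 
(.lf (nat_lit 210714) (.g (nat_lit 2426) (.e (nat_lit 81955) (nat_lit 23) (.e (nat_lit 98350) (nat_lit 24) (.e (nat_lit 409648) (nat_lit 18) (.e (nat_lit 303108) (nat_lit 0) (.e (nat_lit 7936) (nat_lit 193) (.e (nat_lit 500077) (nat_lit 20) .nil)))))) (.g (nat_lit 4) .nil .nil))) 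
(.lf (nat_lit 210778) (.g (nat_lit 2795) (.e (nat_lit 81956) (nat_lit 23) (.e (nat_lit 98313) (nat_lit 9) (.e (nat_lit 335995) (nat_lit 1) (.e (nat_lit 57847) (nat_lit 252) (.e (nat_lit 57348) (nat_lit 0) (.e (nat_lit 2250) (nat_lit 147) (.e (nat_lit 745493) (nat_lit 6) .nil))))))) (.g (nat_lit 4) .nil .nil)))) (.nd (nat_lit 6) 
(.lf (nat_lit 210746) (.g (nat_lit 2731) (.e (nat_lit 81955) (nat_lit 23) (.e (nat_lit 98365) (nat_lit 26) (.e (nat_lit 426100) (nat_lit 1) (.e (nat_lit 164307) (nat_lit 226) (.e (nat_lit 7936) (nat_lit 81) (.e (nat_lit 1239) (nat_lit 91) (.e (nat_lit 98048) (nat_lit 6) .nil))))))) (.g (nat_lit 4) .nil .nil))) 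
(.lf (nat_lit 210810) (.g (nat_lit 2926) (.e (nat_lit 81956) (nat_lit 23) (.e (nat_lit 98320) (nat_lit 17) (.e (nat_lit 7593) (nat_lit 407) (.e (nat_lit 73751) (nat_lit 7) (.e (nat_lit 548891) (nat_lit 11) .nil))))) (.g (nat_lit 0) .nil .nil))))))) (.nd (nat_lit 3) (.nd (nat_lit 4) (.nd (nat_lit 5) (.nd (nat_lit 6) 
(.lf (nat_lit 210694) (.g (nat_lit 1240) (.e (nat_lit 81955) (nat_lit 23) (.e (nat_lit 98350) (nat_lit 24) (.e (nat_lit 409614) (nat_lit 10) (.e (nat_lit 7936) (nat_lit 315) .nil)))) .nil)) 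
(.lf (nat_lit 210758) (.g (nat_lit 1615) (.e (nat_lit 81955) (nat_lit 23) (.e (nat_lit 98367) (nat_lit 27) (.e (nat_lit 434275) (nat_lit 39) (.e (nat_lit 663580) (nat_lit 9) .nil)))) .nil))) (.nd (nat_lit 6) 
(.lf (nat_lit 210726) (.g (nat_lit 2475) (.e (nat_lit 81955) (nat_lit 23) (.e (nat_lit 98350) (nat_lit 24) (.e (nat_lit 409649) (nat_lit 18) (.e (nat_lit 303111) (nat_lit 0) (.e (nat_lit 7936) (nat_lit 193) (.e (nat_lit 500077) (nat_lit 20) .nil)))))) (.g (nat_lit 4) .nil .nil))) 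
(.lf (nat_lit 210790) (.g (nat_lit 2418) (.e (nat_lit 81956) (nat_lit 23) (.e (nat_lit 98319) (nat_lit 17) (.e (nat_lit 7593) (nat_lit 407) (.e (nat_lit 73729) (nat_lit 0) (.e (nat_lit 3959) (nat_lit 239) (.e (nat_lit 1218) (nat_lit 90) .nil)))))) (.g (nat_lit 4) .nil .nil))))) (.nd (nat_lit 5) (.nd (nat_lit 6) 
(.lf (nat_lit 210710) (.g (nat_lit 1565) (.e (nat_lit 81955) (nat_lit 23) (.e (nat_lit 98350) (nat_lit 24) (.e (nat_lit 409648) (nat_lit 18) (.e (nat_lit 303104) (nat_lit 0) (.e (nat_lit 3111) (nat_lit 193) .nil))))) .nil)) 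
(.lf (nat_lit 210774) (.g (nat_lit 1294) (.e (nat_lit 81956) (nat_lit 23) (.e (nat_lit 106240) (nat_lit 7) (.e (nat_lit 319534) (nat_lit 16) (.e (nat_lit 286738) (nat_lit 6) (.e (nat_lit 155392) (nat_lit 6) .nil))))) (.g (nat_lit 4) .nil .nil)))) (.nd (nat_lit 6) 
(.lf (nat_lit 210742) (.g (nat_lit 1384) (.e (nat_lit 81955) (nat_lit 23) (.e (nat_lit 98365) (nat_lit 26) (.e (nat_lit 426099) (nat_lit 1) (.e (nat_lit 164307) (nat_lit 226) (.e (nat_lit 7936) (nat_lit 81) .nil))))) .nil)) 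
(.lf (nat_lit 210806) (.g (nat_lit 2171) (.e (nat_lit 81956) (nat_lit 23) (.e (nat_lit 98320) (nat_lit 17) (.e (nat_lit 7593) (nat_lit 407) (.e (nat_lit 73732) (nat_lit 0) (.e (nat_lit 3942) (nat_lit 239) (.e (nat_lit 7936) (nat_lit 90) .nil)))))) (.g (nat_lit 4) .nil .nil)))))) (.nd (nat_lit 4) (.nd (nat_lit 5) (.nd (nat_lit 6) 
(.lf (nat_lit 210702) (.g (nat_lit 3066) (.e (nat_lit 81955) (nat_lit 23) (.e (nat_lit 98350) (nat_lit 24) (.e (nat_lit 409616) (nat_lit 10) (.e (nat_lit 5762) (nat_lit 315) (.e (nat_lit 163950) (nat_lit 21) (.e (nat_lit 507648) (nat_lit 20) .nil)))))) (.g (nat_lit 4) .nil .nil))) 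
(.lf (nat_lit 210766) (.g (nat_lit 1732) (.e (nat_lit 81955) (nat_lit 23) (.e (nat_lit 98387) (nat_lit 33) (.e (nat_lit 491566) (nat_lit 12) (.e (nat_lit 385045) (nat_lit 21) (.e (nat_lit 4175) (nat_lit 251) .nil))))) .nil))) (.nd (nat_lit 6) 
(.lf (nat_lit 210734) (.g (nat_lit 1105) (.e (nat_lit 81955) (nat_lit 23) (.e (nat_lit 98353) (nat_lit 25) (.e (nat_lit 417820) (nat_lit 10) (.e (nat_lit 5756) (nat_lit 315) .nil)))) .nil)) 
(.lf (nat_lit 210798) (.g (nat_lit 1899) (.e (nat_lit 81956) (nat_lit 23) (.e (nat_lit 98320) (nat_lit 17) (.e (nat_lit 7591) (nat_lit 407) (.e (nat_lit 73733) (nat_lit 0) (.e (nat_lit 3946) (nat_lit 239) (.e (nat_lit 7936) (nat_lit 90) .nil)))))) (.g (nat_lit 4) .nil .nil))))) (.nd (nat_lit 5) (.nd (nat_lit 6) 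
(.lf (nat_lit 210718) (.g (nat_lit 2235) (.e (nat_lit 81955) (nat_lit 23) (.e (nat_lit 98350) (nat_lit 24) (.e (nat_lit 409648) (nat_lit 18) (.e (nat_lit 303116) (nat_lit 2) (.e (nat_lit 204544) (nat_lit 15) .nil))))) (.g (nat_lit 4) .nil .nil))) 
(.lf (nat_lit 210782) (.g (nat_lit 1467) (.e (nat_lit 81956) (nat_lit 23) (.e (nat_lit 98313) (nat_lit 9) (.e (nat_lit 335996) (nat_lit 1) (.e (nat_lit 57842) (nat_lit 251) .nil)))) .nil))) (.nd (nat_lit 6) 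
(.lf (nat_lit 210750) (.g (nat_lit 2068) (.e (nat_lit 81955) (nat_lit 23) (.e (nat_lit 98367) (nat_lit 27) (.e (nat_lit 434268) (nat_lit 36) (.e (nat_lit 639004) (nat_lit 13) .nil)))) .nil)) 
(.lf (nat_lit 210814) (.g (nat_lit 2109) (.e (nat_lit 81956) (nat_lit 23) (.e (nat_lit 98325) (nat_lit 17) (.e (nat_lit 7936) (nat_lit 407) (.e (nat_lit 73729) (nat_lit 0) (.e (nat_lit 3959) (nat_lit 239) (.e (nat_lit 1218) (nat_lit 90) .nil)))))) (.g (nat_lit 4) .nil .nil))))))))) (.nd (nat_lit 1) (.nd (nat_lit 2) (.nd (nat_lit 3) (.nd (nat_lit 4) (.nd (nat_lit 5) (.nd (nat_lit 6) 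
(.lf (nat_lit 210689) (.g (nat_lit 2010) (.e (nat_lit 81955) (nat_lit 23) (.e (nat_lit 98333) (nat_lit 18) (.e (nat_lit 164183) (nat_lit 154) (.e (nat_lit 57411) (nat_lit 12) .nil)))) .nil)) 
(.lf (nat_lit 210753) (.g (nat_lit 2069) (.e (nat_lit 81955) (nat_lit 23) (.e (nat_lit 98367) (nat_lit 27) (.e (nat_lit 434268) (nat_lit 36) (.e (nat_lit 639008) (nat_lit 13) .nil)))) .nil))) (.nd (nat_lit 6) 
(.lf (nat_lit 210721) (.g (nat_lit 2057) (.e (nat_lit 81955) (nat_lit 23) (.e (nat_lit 98350) (nat_lit 24) (.e (nat_lit 409649) (nat_lit 18) (.e (nat_lit 303106) (nat_lit 0) (.e (nat_lit 3111) (nat_lit 193) .nil))))) .nil)) 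
(.lf (nat_lit 210785) (.g (nat_lit 2156) (.e (nat_lit 81956) (nat_lit 23) (.e (nat_lit 98317) (nat_lit 9) (.e (nat_lit 335986) (nat_lit 1) (.e (nat_lit 57847) (nat_lit 252) .nil)))) .nil)))) (.nd (nat_lit 5) (.nd (nat_lit 6) 
(.lf (nat_lit 210705) (.g (nat_lit 1562) (.e (nat_lit 81955) (nat_lit 23) (.e (nat_lit 98350) (nat_lit 24) (.e (nat_lit 409617) (nat_lit 10) (.e (nat_lit 5710) (nat_lit 312) .nil)))) .nil)) 
(.lf (nat_lit 210769) (.g (nat_lit 1939) (.e (nat_lit 81955) (nat_lit 23) (.e (nat_lit 98389) (nat_lit 33) (.e (nat_lit 491560) (nat_lit 10) (.e (nat_lit 344089) (nat_lit 18) (.e (nat_lit 3920) (nat_lit 239) .nil))))) .nil))) (.nd (nat_lit 6) 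
(.lf (nat_lit 210737) (.g (nat_lit 797) (.e (nat_lit 81955) (nat_lit 23) (.e (nat_lit 98356) (nat_lit 26) (.e (nat_lit 426467) (nat_lit 24) .nil))) .nil)) 
(.lf (nat_lit 210801) (.g (nat_lit 1907) (.e (nat_lit 81956) (nat_lit 23) (.e (nat_lit 98320) (nat_lit 17) (.e (nat_lit 7591) (nat_lit 407) (.e (nat_lit 73751) (nat_lit 7) (.e (nat_lit 556800) (nat_lit 11) .nil))))) (.g (nat_lit 4) .nil .nil)))))) (.nd (nat_lit 4) (.nd (nat_lit 5) (.nd (nat_lit 6) 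
(.lf (nat_lit 210697) (.g (nat_lit 1715) (.e (nat_lit 81955) (nat_lit 23) (.e (nat_lit 98350) (nat_lit 24) (.e (nat_lit 409616) (nat_lit 10) (.e (nat_lit 5628) (nat_lit 312) .nil)))) .nil)) 
(.lf (nat_lit 210761) (.g (nat_lit 1489) (.e (nat_lit 81955) (nat_lit 23) (.e (nat_lit 98386) (nat_lit 32) (.e (nat_lit 475197) (nat_lit 40) (.e (nat_lit 704590) (nat_lit 3) .nil)))) .nil))) (.nd (nat_lit 6) 
(.lf (nat_lit 210729) (.g (nat_lit 1365) (.e (nat_lit 81955) (nat_lit 23) (.e (nat_lit 98350) (nat_lit 24) (.e (nat_lit 409649) (nat_lit 18) (.e (nat_lit 303121) (nat_lit 5) .nil)))) .nil)) 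
(.lf (nat_lit 210793) (.g (nat_lit 2512) (.e (nat_lit 81956) (nat_lit 23) (.e (nat_lit 98320) (nat_lit 17) (.e (nat_lit 7583) (nat_lit 405) (.e (nat_lit 57721) (nat_lit 177) (.e (nat_lit 57596) (nat_lit 82) (.e (nat_lit 507648) (nat_lit 20) .nil)))))) (.g (nat_lit 5) .nil .nil))))) (.nd (nat_lit 5) (.nd (nat_lit 6) 
(.lf (nat_lit 210713) (.g (nat_lit 1477) (.e (nat_lit 81955) (nat_lit 23) (.e (nat_lit 98350) (nat_lit 24) (.e (nat_lit 409648) (nat_lit 18) (.e (nat_lit 303108) (nat_lit 0) .nil)))) .nil)) 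
(.lf (nat_lit 210777) (.g (nat_lit 978) (.e (nat_lit 81956) (nat_lit 23) (.e (nat_lit 98313) (nat_lit 9) (.e (nat_lit 335995) (nat_lit 1) (.e (nat_lit 57847) (nat_lit 252) .nil)))) .nil))) (.nd (nat_lit 6) 
(.lf (nat_lit 210745) (.g (nat_lit 3194) (.e (nat_lit 81955) (nat_lit 23) (.e (nat_lit 98365) (nat_lit 26) (.e (nat_lit 426100) (nat_lit 1) (.e (nat_lit 164305) (nat_lit 226) (.e (nat_lit 7936) (nat_lit 81) (.e (nat_lit 1239) (nat_lit 91) (.e (nat_lit 98048) (nat_lit 6) .nil))))))) (.g (nat_lit 4) .nil .nil))) 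
(.lf (nat_lit 210809) (.g (nat_lit 2554) (.e (nat_lit 81956) (nat_lit 23) (.e (nat_lit 98320) (nat_lit 17) (.e (nat_lit 7593) (nat_lit 407) (.e (nat_lit 73732) (nat_lit 0) (.e (nat_lit 3982) (nat_lit 239) (.e (nat_lit 7936) (nat_lit 90) .nil)))))) (.g (nat_lit 5) .nil .nil))))))) (.nd (nat_lit 3) (.nd (nat_lit 4) (.nd (nat_lit 5) (.nd (nat_lit 6) 
(.lf (nat_lit 210693) (.g (nat_lit 1882) (.e (nat_lit 81955) (nat_lit 23) (.e (nat_lit 98349) (nat_lit 24) (.e (nat_lit 409646) (nat_lit 18) (.e (nat_lit 303106) (nat_lit 0) (.e (nat_lit 3114) (nat_lit 193) .nil))))) .nil)) 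
(.lf (nat_lit 210757) (.g (nat_lit 729) (.e (nat_lit 81955) (nat_lit 23) (.e (nat_lit 98367) (nat_lit 27) (.e (nat_lit 434275) (nat_lit 39) .nil))) .nil))) (.nd (nat_lit 6) 
(.lf (nat_lit 210725) (.g (nat_lit 2021) (.e (nat_lit 81955) (nat_lit 23) (.e (nat_lit 98350) (nat_lit 24) (.e (nat_lit 409649) (nat_lit 18) (.e (nat_lit 303111) (nat_lit 0) (.e (nat_lit 3168) (nat_lit 193) .nil))))) .nil)) 
(.lf (nat_lit 210789) (.g (nat_lit 2594) (.e (nat_lit 81956) (nat_lit 23) (.e (nat_lit 98319) (nat_lit 17) (.e (nat_lit 7593) (nat_lit 407) (.e (nat_lit 73729) (nat_lit 0) (.e (nat_lit 3950) (nat_lit 239) (.e (nat_lit 1218) (nat_lit 90) .nil)))))) (.g (nat_lit 4) .nil .nil))))) (.nd (nat_lit 5) (.nd (nat_lit 6) 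
(.lf (nat_lit 210709) (.g (nat_lit 2978) (.e (nat_lit 81955) (nat_lit 23) (.e (nat_lit 98350) (nat_lit 24) (.e (nat_lit 409647) (nat_lit 18) (.e (nat_lit 303116) (nat_lit 2) (.e (nat_lit 196674) (nat_lit 15) .nil))))) (.g (nat_lit 0) .nil .nil))) 
(.lf (nat_lit 210773) (.g (nat_lit 1683) (.e (nat_lit 81956) (nat_lit 23) (.e (nat_lit 98309) (nat_lit 0) (.e (nat_lit 6209) (nat_lit 333) (.e (nat_lit 57796) (nat_lit 245) (.e (nat_lit 7936) (nat_lit 161) (.e (nat_lit 48896) (nat_lit 6) .nil)))))) (.g (nat_lit 4) .nil .nil)))) (.nd (nat_lit 6) 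
(.lf (nat_lit 210741) (.g (nat_lit 1861) (.e (nat_lit 81955) (nat_lit 23) (.e (nat_lit 98365) (nat_lit 26) (.e (nat_lit 426098) (nat_lit 1) (.e (nat_lit 164298) (nat_lit 226) .nil)))) .nil)) 
(.lf (nat_lit 210805) (.g (nat_lit 2515) (.e (nat_lit 81956) (nat_lit 23) (.e (nat_lit 98320) (nat_lit 17) (.e (nat_lit 7593) (nat_lit 407) (.e (nat_lit 73729) (nat_lit 0) (.e (nat_lit 3959) (nat_lit 239) (.e (nat_lit 7936) (nat_lit 90) .nil)))))) (.g (nat_lit 4) .nil .nil)))))) (.nd (nat_lit 4) (.nd (nat_lit 5) (.nd (nat_lit 6) 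
(.lf (nat_lit 210701) (.g (nat_lit 2048) (.e (nat_lit 81955) (nat_lit 23) (.e (nat_lit 98350) (nat_lit 24) (.e (nat_lit 409616) (nat_lit 10) (.e (nat_lit 5760) (nat_lit 315) .nil)))) .nil)) 
(.lf (nat_lit 210765) (.g (nat_lit 2240) (.e (nat_lit 81955) (nat_lit 23) (.e (nat_lit 98387) (nat_lit 33) (.e (nat_lit 491566) (nat_lit 12) (.e (nat_lit 385044) (nat_lit 21) .nil)))) .nil))) (.nd (nat_lit 6) 
(.lf (nat_lit 210733) (.g (nat_lit 2630) (.e (nat_lit 81955) (nat_lit 23) (.e (nat_lit 98350) (nat_lit 24) (.e (nat_lit 409651) (nat_lit 19) (.e (nat_lit 311312) (nat_lit 2) (.e (nat_lit 196674) (nat_lit 15) .nil))))) (.g (nat_lit 4) .nil .nil))) 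
(.lf (nat_lit 210797) (.g (nat_lit 2472) (.e (nat_lit 81956) (nat_lit 23) (.e (nat_lit 98320) (nat_lit 17) (.e (nat_lit 7591) (nat_lit 407) (.e (nat_lit 73729) (nat_lit 0) (.e (nat_lit 3959) (nat_lit 239) (.e (nat_lit 7936) (nat_lit 90) .nil)))))) (.g (nat_lit 4) .nil .nil))))) (.nd (nat_lit 5) (.nd (nat_lit 6) 
(.lf (nat_lit 210717) (.g (nat_lit 3473) (.e (nat_lit 81955) (nat_lit 23) (.e (nat_lit 98350) (nat_lit 24) (.e (nat_lit 409648) (nat_lit 18) (.e (nat_lit 303116) (nat_lit 2) (.e (nat_lit 196672) (nat_lit 15) .nil))))) (.g (nat_lit 0) .nil .nil))) 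
(.lf (nat_lit 210781) (.g (nat_lit 410) (.e (nat_lit 81956) (nat_lit 23) (.e (nat_lit 98313) (nat_lit 9) (.e (nat_lit 335996) (nat_lit 1) .nil))) .nil))) (.nd (nat_lit 6) 
(.lf (nat_lit 210749) (.g (nat_lit 1757) (.e (nat_lit 81955) (nat_lit 23) (.e (nat_lit 98366) (nat_lit 27) (.e (nat_lit 434275) (nat_lit 39) (.e (nat_lit 663580) (nat_lit 9) (.e (nat_lit 7936) (nat_lit 2) .nil))))) .nil)) 
(.lf (nat_lit 210813) (.g (nat_lit 3840) (.e (nat_lit 81956) (nat_lit 23) (.e (nat_lit 98325) (nat_lit 17) (.e (nat_lit 7556) (nat_lit 402) (.e (nat_lit 1638) (nat_lit 114) (.e (nat_lit 385073) (nat_lit 31) (.e (nat_lit 573493) (nat_lit 15) .nil)))))) (.g (nat_lit 0) .nil .nil)))))))) (.nd (nat_lit 2) (.nd (nat_lit 3) (.nd (nat_lit 4) (.nd (nat_lit 5) (.nd (nat_lit 6) 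
(.lf (nat_lit 210691) (.g (nat_lit 887) (.e (nat_lit 81955) (nat_lit 23) (.e (nat_lit 98335) (nat_lit 18) (.e (nat_lit 164179) (nat_lit 154) .nil))) .nil)) 
(.lf (nat_lit 210755) (.g (nat_lit 2123) (.e (nat_lit 81955) (nat_lit 23) (.e (nat_lit 98367) (nat_lit 27) (.e (nat_lit 434268) (nat_lit 36) (.e (nat_lit 639016) (nat_lit 15) .nil)))) .nil))) (.nd (nat_lit 6) 
(.lf (nat_lit 210723) (.g (nat_lit 1158) (.e (nat_lit 81955) (nat_lit 23) (.e (nat_lit 98350) (nat_lit 24) (.e (nat_lit 409649) (nat_lit 18) (.e (nat_lit 303111) (nat_lit 0) .nil)))) .nil)) 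
(.lf (nat_lit 210787) (.g (nat_lit 1482) (.e (nat_lit 81956) (nat_lit 23) (.e (nat_lit 98319) (nat_lit 17) (.e (nat_lit 7591) (nat_lit 407) (.e (nat_lit 73729) (nat_lit 0) (.e (nat_lit 3928) (nat_lit 239) .nil))))) .nil)))) (.nd (nat_lit 5) (.nd (nat_lit 6) 
(.lf (nat_lit 210707) (.g (nat_lit 2988) (.e (nat_lit 81955) (nat_lit 23) (.e (nat_lit 98350) (nat_lit 24) (.e (nat_lit 409617) (nat_lit 10) (.e (nat_lit 5762) (nat_lit 315) (.e (nat_lit 163950) (nat_lit 21) (.e (nat_lit 507648) (nat_lit 20) .nil)))))) (.g (nat_lit 5) .nil .nil))) 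
(.lf (nat_lit 210771) (.g (nat_lit 2962) (.e (nat_lit 81955) (nat_lit 23) (.e (nat_lit 98389) (nat_lit 33) (.e (nat_lit 491560) (nat_lit 10) (.e (nat_lit 344126) (nat_lit 25) (.e (nat_lit 548891) (nat_lit 11) .nil))))) (.g (nat_lit 0) .nil .nil)))) (.nd (nat_lit 6) 
(.lf (nat_lit 210739) (.g (nat_lit 1211) (.e (nat_lit 81955) (nat_lit 23) (.e (nat_lit 98358) (nat_lit 26) (.e (nat_lit 426402) (nat_lit 15) .nil))) .nil)) 
(.lf (nat_lit 210803) (.g (nat_lit 2291) (.e (nat_lit 81956) (nat_lit 23) (.e (nat_lit 98320) (nat_lit 17) (.e (nat_lit 7593) (nat_lit 407) (.e (nat_lit 73729) (nat_lit 0) (.e (nat_lit 3950) (nat_lit 239) (.e (nat_lit 7936) (nat_lit 90) .nil)))))) (.g (nat_lit 4) .nil .nil)))))) (.nd (nat_lit 4) (.nd (nat_lit 5) (.nd (nat_lit 6) 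
(.lf (nat_lit 210699) (.g (nat_lit 1402) (.e (nat_lit 81955) (nat_lit 23) (.e (nat_lit 98350) (nat_lit 24) (.e (nat_lit 409616) (nat_lit 10) (.e (nat_lit 7936) (nat_lit 312) .nil)))) .nil)) 
(.lf (nat_lit 210763) (.g (nat_lit 826) (.e (nat_lit 81955) (nat_lit 23) (.e (nat_lit 98386) (nat_lit 32) (.e (nat_lit 475209) (nat_lit 41) .nil))) .nil))) (.nd (nat_lit 6) 
(.lf (nat_lit 210731) (.g (nat_lit 2517) (.e (nat_lit 81955) (nat_lit 23) (.e (nat_lit 98350) (nat_lit 24) (.e (nat_lit 409650) (nat_lit 19) (.e (nat_lit 311312) (nat_lit 2) (.e (nat_lit 196672) (nat_lit 15) .nil))))) (.g (nat_lit 4) .nil .nil))) 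
(.lf (nat_lit 210795) (.g (nat_lit 2277) (.e (nat_lit 81956) (nat_lit 23) (.e (nat_lit 98320) (nat_lit 17) (.e (nat_lit 7591) (nat_lit 407) (.e (nat_lit 73729) (nat_lit 0) (.e (nat_lit 3950) (nat_lit 239) (.e (nat_lit 7936) (nat_lit 90) .nil)))))) (.g (nat_lit 4) .nil .nil))))) (.nd (nat_lit 5) (.nd (nat_lit 6) 
(.lf (nat_lit 210715) (.g (nat_lit 1429) (.e (nat_lit 81955) (nat_lit 23) (.e (nat_lit 98350) (nat_lit 24) (.e (nat_lit 409648) (nat_lit 18) (.e (nat_lit 303109) (nat_lit 0) .nil)))) .nil)) 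
(.lf (nat_lit 210779) (.g (nat_lit 3079) (.e (nat_lit 81956) (nat_lit 23) (.e (nat_lit 98313) (nat_lit 9) (.e (nat_lit 335995) (nat_lit 1) (.e (nat_lit 57847) (nat_lit 252) (.e (nat_lit 57363) (nat_lit 1) (.e (nat_lit 57754) (nat_lit 209) (.e (nat_lit 1218) (nat_lit 90) .nil))))))) (.g (nat_lit 4) .nil .nil)))) (.nd (nat_lit 6) 
(.lf (nat_lit 210747) (.g (nat_lit 822) (.e (nat_lit 81955) (nat_lit 23) (.e (nat_lit 98366) (nat_lit 27) (.e (nat_lit 434266) (nat_lit 35) (.e (nat_lit 630812) (nat_lit 13) .nil)))) .nil)) 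
(.lf (nat_lit 210811) (.g (nat_lit 1936) (.e (nat_lit 81956) (nat_lit 23) (.e (nat_lit 98320) (nat_lit 17) (.e (nat_lit 7593) (nat_lit 407) (.e (nat_lit 73751) (nat_lit 7) (.e (nat_lit 556800) (nat_lit 11) .nil))))) (.g (nat_lit 4) .nil .nil))))))) (.nd (nat_lit 3) (.nd (nat_lit 4) (.nd (nat_lit 5) (.nd (nat_lit 6) 
(.lf (nat_lit 210695) (.g (nat_lit 882) (.e (nat_lit 81955) (nat_lit 23) (.e (nat_lit 98350) (nat_lit 24) (.e (nat_lit 409615) (nat_lit 10) .nil))) .nil)) 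
(.lf (nat_lit 210759) (.g (nat_lit 3032) (.e (nat_lit 81955) (nat_lit 23) (.e (nat_lit 98384) (nat_lit 32) (.e (nat_lit 475199) (nat_lit 40) (.e (nat_lit 704590) (nat_lit 3) (.e (nat_lit 163975) (nat_lit 30) .nil))))) .nil))) (.nd (nat_lit 6) 
(.lf (nat_lit 210727) (.g (nat_lit 2995) (.e (nat_lit 81955) (nat_lit 23) (.e (nat_lit 98350) (nat_lit 24) (.e (nat_lit 409649) (nat_lit 18) (.e (nat_lit 303116) (nat_lit 2) (.e (nat_lit 196672) (nat_lit 15) .nil))))) (.g (nat_lit 0) .nil .nil))) 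
(.lf (nat_lit 210791) (.g (nat_lit 1051) (.e (nat_lit 81956) (nat_lit 23) (.e (nat_lit 98320) (nat_lit 17) (.e (nat_lit 7581) (nat_lit 405) (.e (nat_lit 57721) (nat_lit 177) .nil)))) .nil)))) (.nd (nat_lit 5) (.nd (nat_lit 6) 
(.lf (nat_lit 210711) (.g (nat_lit 2336) (.e (nat_lit 81955) (nat_lit 23) (.e (nat_lit 98350) (nat_lit 24) (.e (nat_lit 409648) (nat_lit 18) (.e (nat_lit 303105) (nat_lit 0) .nil)))) .nil)) 
(.lf (nat_lit 210775) (.g (nat_lit 1313) (.e (nat_lit 81956) (nat_lit 23) (.e (nat_lit 98312) (nat_lit 9) (.e (nat_lit 335894) (nat_lit 0) (.e (nat_lit 974) (nat_lit 81) .nil)))) .nil))) (.nd (nat_lit 6) 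
(.lf (nat_lit 210743) (.g (nat_lit 2180) (.e (nat_lit 81955) (nat_lit 23) (.e (nat_lit 98365) (nat_lit 26) (.e (nat_lit 426100) (nat_lit 1) (.e (nat_lit 164297) (nat_lit 226) .nil)))) .nil)) 
(.lf (nat_lit 210807) (.g (nat_lit 2314) (.e (nat_lit 81956) (nat_lit 23) (.e (nat_lit 98320) (nat_lit 17) (.e (nat_lit 7593) (nat_lit 407) (.e (nat_lit 73732) (nat_lit 0) (.e (nat_lit 3946) (nat_lit 239) (.e (nat_lit 7936) (nat_lit 90) .nil)))))) (.g (nat_lit 4) .nil .nil)))))) (.nd (nat_lit 4) (.nd (nat_lit 5) (.nd (nat_lit 6) 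
(.lf (nat_lit 210703) (.g (nat_lit 3260) (.e (nat_lit 81955) (nat_lit 23) (.e (nat_lit 98350) (nat_lit 24) (.e (nat_lit 409616) (nat_lit 10) (.e (nat_lit 5763) (nat_lit 315) (.e (nat_lit 163950) (nat_lit 21) (.e (nat_lit 507648) (nat_lit 20) .nil)))))) (.g (nat_lit 5) .nil .nil))) 
(.lf (nat_lit 210767) (.g (nat_lit 1877) (.e (nat_lit 81955) (nat_lit 23) (.e (nat_lit 98388) (nat_lit 33) (.e (nat_lit 491566) (nat_lit 12) (.e (nat_lit 385045) (nat_lit 21) .nil)))) .nil))) (.nd (nat_lit 6) 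
(.lf (nat_lit 210735) (.g (nat_lit 1807) (.e (nat_lit 81955) (nat_lit 23) (.e (nat_lit 98353) (nat_lit 25) (.e (nat_lit 417820) (nat_lit 10) (.e (nat_lit 5761) (nat_lit 315) (.e (nat_lit 163950) (nat_lit 21) .nil))))) .nil)) 
(.lf (nat_lit 210799) (.g (nat_lit 1964) (.e (nat_lit 81956) (nat_lit 23) (.e (nat_lit 98320) (nat_lit 17) (.e (nat_lit 7591) (nat_lit 407) (.e (nat_lit 73733) (nat_lit 0) (.e (nat_lit 3978) (nat_lit 239) (.e (nat_lit 7936) (nat_lit 90) .nil)))))) (.g (nat_lit 4) .nil .nil))))) (.nd (nat_lit 5) (.nd (nat_lit 6) 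
(.lf (nat_lit 210719) (.g (nat_lit 1696) (.e (nat_lit 81955) (nat_lit 23) (.e (nat_lit 98350) (nat_lit 24) (.e (nat_lit 409649) (nat_lit 18) (.e (nat_lit 303104) (nat_lit 0) (.e (nat_lit 3111) (nat_lit 193) .nil))))) .nil)) 
(.lf (nat_lit 210783) (.g (nat_lit 1785) (.e (nat_lit 81956) (nat_lit 23) (.e (nat_lit 98313) (nat_lit 9) (.e (nat_lit 343808) (nat_lit 20) (.e (nat_lit 221207) (nat_lit 21) (.e (nat_lit 164385) (nat_lit 254) (.e (nat_lit 7936) (nat_lit 90) .nil)))))) (.g (nat_lit 4) .nil .nil)))) (.nd (nat_lit 6) 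
(.lf (nat_lit 210751) (.g (nat_lit 2000) (.e (nat_lit 81955) (nat_lit 23) (.e (nat_lit 98367) (nat_lit 27) (.e (nat_lit 434268) (nat_lit 36) (.e (nat_lit 639007) (nat_lit 13) .nil)))) .nil)) 
(.lf (nat_lit 210815) (.g (nat_lit 1337) (.e (nat_lit 81956) (nat_lit 23) (.e (nat_lit 98333) (nat_lit 18) (.e (nat_lit 164177) (nat_lit 154) (.e (nat_lit 57412) (nat_lit 12) .nil)))) .nil)))))))))

noncomputable def tv2784 : DT := (.nd (nat_lit 0) (.nd (nat_lit 1) (.nd (nat_lit 2) (.nd (nat_lit 3) (.nd (nat_lit 4) (.nd (nat_lit 5) (.nd (nat_lit 6) 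
(.lf (nat_lit 210816) (.g (nat_lit 1560) (.e (nat_lit 81956) (nat_lit 23) (.e (nat_lit 98333) (nat_lit 18) (.e (nat_lit 164179) (nat_lit 154) (.e (nat_lit 57402) (nat_lit 11) .nil)))) .nil)) 
(.lf (nat_lit 210880) (.g (nat_lit 3646) (.e (nat_lit 81956) (nat_lit 23) (.e (nat_lit 98350) (nat_lit 24) (.e (nat_lit 409649) (nat_lit 18) (.e (nat_lit 303116) (nat_lit 2) (.e (nat_lit 196673) (nat_lit 15) .nil))))) (.g (nat_lit 0) .nil .nil)))) (.nd (nat_lit 6) 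
(.lf (nat_lit 210848) (.g (nat_lit 3031) (.e (nat_lit 81956) (nat_lit 23) (.e (nat_lit 98349) (nat_lit 24) (.e (nat_lit 409646) (nat_lit 18) (.e (nat_lit 303117) (nat_lit 2) (.e (nat_lit 204544) (nat_lit 15) .nil))))) (.g (nat_lit 4) .nil .nil))) 
(.lf (nat_lit 210912) (.g (nat_lit 2525) (.e (nat_lit 81956) (nat_lit 23) (.e (nat_lit 98356) (nat_lit 26) (.e (nat_lit 426467) (nat_lit 24) (.e (nat_lit 155674) (nat_lit 12) (.e (nat_lit 57480) (nat_lit 28) (.e (nat_lit 564992) (nat_lit 6) .nil)))))) (.g (nat_lit 5) .nil .nil))))) (.nd (nat_lit 5) (.nd (nat_lit 6) 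
(.lf (nat_lit 210832) (.g (nat_lit 2287) (.e (nat_lit 81956) (nat_lit 23) (.e (nat_lit 98334) (nat_lit 18) (.e (nat_lit 164166) (nat_lit 152) (.e (nat_lit 1200) (nat_lit 88) (.e (nat_lit 65580) (nat_lit 6) (.e (nat_lit 155392) (nat_lit 6) .nil)))))) (.g (nat_lit 5) .nil .nil))) 
(.lf (nat_lit 210896) (.g (nat_lit 2865) (.e (nat_lit 81956) (nat_lit 23) (.e (nat_lit 98353) (nat_lit 25) (.e (nat_lit 417830) (nat_lit 19) (.e (nat_lit 311312) (nat_lit 2) (.e (nat_lit 196672) (nat_lit 15) .nil))))) (.g (nat_lit 4) .nil .nil)))) (.nd (nat_lit 6) 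
(.lf (nat_lit 210864) (.g (nat_lit 2314) (.e (nat_lit 81956) (nat_lit 23) (.e (nat_lit 98350) (nat_lit 24) (.e (nat_lit 409645) (nat_lit 18) (.e (nat_lit 303112) (nat_lit 0) (.e (nat_lit 3107) (nat_lit 193) .nil))))) .nil)) 
(.lf (nat_lit 210928) (.g (nat_lit 2768) (.e (nat_lit 81956) (nat_lit 23) (.e (nat_lit 98367) (nat_lit 27) (.e (nat_lit 434275) (nat_lit 39) (.e (nat_lit 663580) (nat_lit 9) (.e (nat_lit 7936) (nat_lit 2) (.e (nat_lit 98048) (nat_lit 6) .nil)))))) (.g (nat_lit 4) .nil .nil)))))) (.nd (nat_lit 4) (.nd (nat_lit 5) (.nd (nat_lit 6) 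
(.lf (nat_lit 210824) (.g (nat_lit 1874) (.e (nat_lit 81956) (nat_lit 23) (.e (nat_lit 98334) (nat_lit 18) (.e (nat_lit 164159) (nat_lit 152) (.e (nat_lit 1201) (nat_lit 88) (.e (nat_lit 65537) (nat_lit 0) .nil))))) .nil)) 
(.lf (nat_lit 210888) (.g (nat_lit 2055) (.e (nat_lit 81956) (nat_lit 23) (.e (nat_lit 98352) (nat_lit 25) (.e (nat_lit 417816) (nat_lit 10) (.e (nat_lit 5756) (nat_lit 315) (.e (nat_lit 163950) (nat_lit 21) (.e (nat_lit 507648) (nat_lit 20) .nil)))))) (.g (nat_lit 5) .nil .nil)))) (.nd (nat_lit 6) 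
(.lf (nat_lit 210856) (.g (nat_lit 1381) (.e (nat_lit 81956) (nat_lit 23) (.e (nat_lit 98350) (nat_lit 24) (.e (nat_lit 409616) (nat_lit 10) (.e (nat_lit 5613) (nat_lit 312) .nil)))) .nil)) 
(.lf (nat_lit 210920) (.g (nat_lit 3152) (.e (nat_lit 81956) (nat_lit 23) (.e (nat_lit 98367) (nat_lit 27) (.e (nat_lit 434268) (nat_lit 36) (.e (nat_lit 639005) (nat_lit 13) (.e (nat_lit 1239) (nat_lit 91) (.e (nat_lit 98048) (nat_lit 6) .nil)))))) (.g (nat_lit 5) .nil .nil))))) (.nd (nat_lit 5) (.nd (nat_lit 6) 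
(.lf (nat_lit 210840) (.g (nat_lit 1096) (.e (nat_lit 81956) (nat_lit 23) (.e (nat_lit 98349) (nat_lit 24) (.e (nat_lit 409617) (nat_lit 10) (.e (nat_lit 7936) (nat_lit 299) .nil)))) .nil)) 
(.lf (nat_lit 210904) (.g (nat_lit 2674) (.e (nat_lit 81956) (nat_lit 23) (.e (nat_lit 98356) (nat_lit 26) (.e (nat_lit 426448) (nat_lit 20) (.e (nat_lit 114707) (nat_lit 20) .nil)))) .nil))) (.nd (nat_lit 6) 
(.lf (nat_lit 210872) (.g (nat_lit 2945) (.e (nat_lit 81956) (nat_lit 23) (.e (nat_lit 98350) (nat_lit 24) (.e (nat_lit 409648) (nat_lit 18) (.e (nat_lit 303108) (nat_lit 0) (.e (nat_lit 3124) (nat_lit 193) (.e (nat_lit 507648) (nat_lit 20) .nil)))))) (.g (nat_lit 4) .nil .nil))) 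
(.lf (nat_lit 210936) (.g (nat_lit 1982) (.e (nat_lit 81956) (nat_lit 23) (.e (nat_lit 98384) (nat_lit 32) (.e (nat_lit 475214) (nat_lit 42) (.e (nat_lit 720910) (nat_lit 20) .nil)))) .nil)))))) (.nd (nat_lit 3) (.nd (nat_lit 4) (.nd (nat_lit 5) (.nd (nat_lit 6) 
(.lf (nat_lit 210820) (.g (nat_lit 918) (.e (nat_lit 81956) (nat_lit 23) (.e (nat_lit 98333) (nat_lit 18) (.e (nat_lit 164182) (nat_lit 154) .nil))) .nil)) 
(.lf (nat_lit 210884) (.g (nat_lit 2918) (.e (nat_lit 81956) (nat_lit 23) (.e (nat_lit 98350) (nat_lit 24) (.e (nat_lit 409649) (nat_lit 18) (.e (nat_lit 303121) (nat_lit 5) (.e (nat_lit 253696) (nat_lit 15) .nil))))) (.g (nat_lit 4) .nil .nil)))) (.nd (nat_lit 6) 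
(.lf (nat_lit 210852) (.g (nat_lit 970) (.e (nat_lit 81956) (nat_lit 23) (.e (nat_lit 98350) (nat_lit 24) (.e (nat_lit 409611) (nat_lit 10) .nil))) .nil)) 
(.lf (nat_lit 210916) (.g (nat_lit 2021) (.e (nat_lit 81956) (nat_lit 23) (.e (nat_lit 98366) (nat_lit 27) (.e (nat_lit 434275) (nat_lit 39) (.e (nat_lit 663580) (nat_lit 9) (.e (nat_lit 7936) (nat_lit 2) (.e (nat_lit 98048) (nat_lit 6) .nil)))))) (.g (nat_lit 4) .nil .nil))))) (.nd (nat_lit 5) (.nd (nat_lit 6) 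
(.lf (nat_lit 210836) (.g (nat_lit 2951) (.e (nat_lit 81956) (nat_lit 23) (.e (nat_lit 98334) (nat_lit 18) (.e (nat_lit 164182) (nat_lit 154) (.e (nat_lit 57411) (nat_lit 12) (.e (nat_lit 336310) (nat_lit 16) .nil))))) .nil)) 
(.lf (nat_lit 210900) (.g (nat_lit 2817) (.e (nat_lit 81956) (nat_lit 23) (.e (nat_lit 98356) (nat_lit 26) (.e (nat_lit 426361) (nat_lit 15) (.e (nat_lit 2032) (nat_lit 140) (.e (nat_lit 688152) (nat_lit 13) (.e (nat_lit 1239) (nat_lit 91) (.e (nat_lit 98048) (nat_lit 6) .nil))))))) (.g (nat_lit 6) .nil .nil)))) (.nd (nat_lit 6) 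
(.lf (nat_lit 210868) (.g (nat_lit 2847) (.e (nat_lit 81956) (nat_lit 23) (.e (nat_lit 98350) (nat_lit 24) (.e (nat_lit 409646) (nat_lit 18) (.e (nat_lit 303117) (nat_lit 2) (.e (nat_lit 204544) (nat_lit 15) .nil))))) (.g (nat_lit 4) .nil .nil))) 
(.lf (nat_lit 210932) (.g (nat_lit 1468) (.e (nat_lit 81956) (nat_lit 23) (.e (nat_lit 98384) (nat_lit 32) (.e (nat_lit 475163) (nat_lit 21) .nil))) .nil))))) (.nd (nat_lit 4) (.nd (nat_lit 5) (.nd (nat_lit 6) 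
(.lf (nat_lit 210828) (.g (nat_lit 2456) (.e (nat_lit 81956) (nat_lit 23) (.e (nat_lit 98334) (nat_lit 18) (.e (nat_lit 164159) (nat_lit 152) (.e (nat_lit 1201) (nat_lit 88) (.e (nat_lit 65579) (nat_lit 6) (.e (nat_lit 155392) (nat_lit 6) .nil)))))) (.g (nat_lit 4) .nil .nil))) 
(.lf (nat_lit 210892) (.g (nat_lit 353) (.e (nat_lit 81956) (nat_lit 23) (.e (nat_lit 98353) (nat_lit 25) (.e (nat_lit 417828) (nat_lit 18) .nil))) .nil))) (.nd (nat_lit 6) 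
(.lf (nat_lit 210860) (.g (nat_lit 972) (.e (nat_lit 81956) (nat_lit 23) (.e (nat_lit 98350) (nat_lit 24) (.e (nat_lit 409635) (nat_lit 14) .nil))) .nil)) 
(.lf (nat_lit 210924) (.g (nat_lit 3156) (.e (nat_lit 81956) (nat_lit 23) (.e (nat_lit 98367) (nat_lit 27) (.e (nat_lit 434268) (nat_lit 36) (.e (nat_lit 639010) (nat_lit 13) (.e (nat_lit 1234) (nat_lit 91) (.e (nat_lit 98048) (nat_lit 6) .nil)))))) (.g (nat_lit 5) .nil .nil))))) (.nd (nat_lit 5) (.nd (nat_lit 6) 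
(.lf (nat_lit 210844) (.g (nat_lit 2688) (.e (nat_lit 81956) (nat_lit 23) (.e (nat_lit 98349) (nat_lit 24) (.e (nat_lit 409645) (nat_lit 18) (.e (nat_lit 303117) (nat_lit 2) (.e (nat_lit 204544) (nat_lit 15) .nil))))) (.g (nat_lit 4) .nil .nil))) 
(.lf (nat_lit 210908) (.g (nat_lit 2836) (.e (nat_lit 81956) (nat_lit 23) (.e (nat_lit 98356) (nat_lit 26) (.e (nat_lit 426448) (nat_lit 20) (.e (nat_lit 114725) (nat_lit 26) .nil)))) .nil))) (.nd (nat_lit 6) 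
(.lf (nat_lit 210876) (.g (nat_lit 3333) (.e (nat_lit 81956) (nat_lit 23) (.e (nat_lit 98350) (nat_lit 24) (.e (nat_lit 409649) (nat_lit 18) (.e (nat_lit 303111) (nat_lit 0) (.e (nat_lit 3115) (nat_lit 193) (.e (nat_lit 507648) (nat_lit 20) .nil)))))) (.g (nat_lit 5) .nil .nil))) 
(.lf (nat_lit 210940) (.g (nat_lit 2005) (.e (nat_lit 81956) (nat_lit 23) (.e (nat_lit 98384) (nat_lit 32) (.e (nat_lit 475214) (nat_lit 42) (.e (nat_lit 720917) (nat_lit 20) .nil)))) .nil))))))) (.nd (nat_lit 2) (.nd (nat_lit 3) (.nd (nat_lit 4) (.nd (nat_lit 5) (.nd (nat_lit 6) 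
(.lf (nat_lit 210818) (.g (nat_lit 2329) (.e (nat_lit 81956) (nat_lit 23) (.e (nat_lit 98333) (nat_lit 18) (.e (nat_lit 164179) (nat_lit 154) (.e (nat_lit 57412) (nat_lit 12) (.e (nat_lit 336046) (nat_lit 6) .nil))))) .nil)) 
(.lf (nat_lit 210882) (.g (nat_lit 3760) (.e (nat_lit 81956) (nat_lit 23) (.e (nat_lit 98350) (nat_lit 24) (.e (nat_lit 409649) (nat_lit 18) (.e (nat_lit 303117) (nat_lit 2) (.e (nat_lit 196671) (nat_lit 15) .nil))))) (.g (nat_lit 0) .nil .nil)))) (.nd (nat_lit 6) 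
(.lf (nat_lit 210850) (.g (nat_lit 1671) (.e (nat_lit 81956) (nat_lit 23) (.e (nat_lit 98349) (nat_lit 24) (.e (nat_lit 409649) (nat_lit 18) (.e (nat_lit 303116) (nat_lit 2) .nil)))) .nil)) 
(.lf (nat_lit 210914) (.g (nat_lit 470) (.e (nat_lit 81956) (nat_lit 23) (.e (nat_lit 98366) (nat_lit 27) (.e (nat_lit 434265) (nat_lit 35) .nil))) .nil)))) (.nd (nat_lit 5) (.nd (nat_lit 6) 
(.lf (nat_lit 210834) (.g (nat_lit 781) (.e (nat_lit 81956) (nat_lit 23) (.e (nat_lit 98334) (nat_lit 18) (.e (nat_lit 164182) (nat_lit 154) .nil))) .nil)) 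
(.lf (nat_lit 210898) (.g (nat_lit 2419) (.e (nat_lit 81956) (nat_lit 23) (.e (nat_lit 98356) (nat_lit 26) (.e (nat_lit 426354) (nat_lit 15) (.e (nat_lit 2031) (nat_lit 140) (.e (nat_lit 688152) (nat_lit 13) (.e (nat_lit 1239) (nat_lit 91) (.e (nat_lit 98048) (nat_lit 6) .nil))))))) (.g (nat_lit 4) .nil .nil)))) (.nd (nat_lit 6) 
(.lf (nat_lit 210866) (.g (nat_lit 588) (.e (nat_lit 81956) (nat_lit 23) (.e (nat_lit 98350) (nat_lit 24) (.e (nat_lit 409646) (nat_lit 18) (.e (nat_lit 303106) (nat_lit 0) .nil)))) .nil)) 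
(.lf (nat_lit 210930) (.g (nat_lit 962) (.e (nat_lit 81956) (nat_lit 23) (.e (nat_lit 98367) (nat_lit 27) (.e (nat_lit 434279) (nat_lit 39) (.e (nat_lit 663573) (nat_lit 9) .nil)))) .nil))))) (.nd (nat_lit 4) (.nd (nat_lit 5) (.nd (nat_lit 6) 
(.lf (nat_lit 210826) (.g (nat_lit 2462) (.e (nat_lit 81956) (nat_lit 23) (.e (nat_lit 98334) (nat_lit 18) (.e (nat_lit 164159) (nat_lit 152) (.e (nat_lit 1201) (nat_lit 88) (.e (nat_lit 65546) (nat_lit 0) (.e (nat_lit 2334) (nat_lit 151) (.e (nat_lit 778325) (nat_lit 6) .nil))))))) (.g (nat_lit 4) .nil .nil))) 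
(.lf (nat_lit 210890) (.g (nat_lit 2213) (.e (nat_lit 81956) (nat_lit 23) (.e (nat_lit 98353) (nat_lit 25) (.e (nat_lit 417820) (nat_lit 10) (.e (nat_lit 5756) (nat_lit 315) (.e (nat_lit 163950) (nat_lit 21) (.e (nat_lit 507648) (nat_lit 20) .nil)))))) (.g (nat_lit 4) .nil .nil)))) (.nd (nat_lit 6) 
(.lf (nat_lit 210858) (.g (nat_lit 3360) (.e (nat_lit 81956) (nat_lit 23) (.e (nat_lit 98350) (nat_lit 24) (.e (nat_lit 409617) (nat_lit 10) (.e (nat_lit 5762) (nat_lit 315) (.e (nat_lit 163950) (nat_lit 21) (.e (nat_lit 507648) (nat_lit 20) .nil)))))) (.g (nat_lit 5) .nil .nil))) 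
(.lf (nat_lit 210922) (.g (nat_lit 1657) (.e (nat_lit 81956) (nat_lit 23) (.e (nat_lit 98367) (nat_lit 27) (.e (nat_lit 434268) (nat_lit 36) (.e (nat_lit 639007) (nat_lit 13) (.e (nat_lit 1225) (nat_lit 91) .nil))))) .nil)))) (.nd (nat_lit 5) (.nd (nat_lit 6) 
(.lf (nat_lit 210842) (.g (nat_lit 2975) (.e (nat_lit 81956) (nat_lit 23) (.e (nat_lit 98349) (nat_lit 24) (.e (nat_lit 409645) (nat_lit 18) (.e (nat_lit 303112) (nat_lit 0) (.e (nat_lit 3144) (nat_lit 193) .nil))))) .nil)) 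
(.lf (nat_lit 210906) (.g (nat_lit 3236) (.e (nat_lit 81956) (nat_lit 23) (.e (nat_lit 98356) (nat_lit 26) (.e (nat_lit 426448) (nat_lit 20) (.e (nat_lit 114711) (nat_lit 21) (.e (nat_lit 57621) (nat_lit 128) .nil))))) .nil))) (.nd (nat_lit 6) 
(.lf (nat_lit 210874) (.g (nat_lit 3993) (.e (nat_lit 81956) (nat_lit 23) (.e (nat_lit 98350) (nat_lit 24) (.e (nat_lit 409648) (nat_lit 18) (.e (nat_lit 303117) (nat_lit 2) (.e (nat_lit 196671) (nat_lit 15) .nil))))) (.g (nat_lit 4) .nil .nil))) 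
(.lf (nat_lit 210938) (.g (nat_lit 1759) (.e (nat_lit 81956) (nat_lit 23) (.e (nat_lit 98384) (nat_lit 32) (.e (nat_lit 475214) (nat_lit 42) (.e (nat_lit 720913) (nat_lit 20) .nil)))) .nil)))))) (.nd (nat_lit 3) (.nd (nat_lit 4) (.nd (nat_lit 5) (.nd (nat_lit 6) 
(.lf (nat_lit 210822) (.g (nat_lit 3080) (.e (nat_lit 81956) (nat_lit 23) (.e (nat_lit 98333) (nat_lit 18) (.e (nat_lit 164182) (nat_lit 154) (.e (nat_lit 57411) (nat_lit 12) (.e (nat_lit 336240) (nat_lit 15) .nil))))) .nil)) 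
(.lf (nat_lit 210886) (.g (nat_lit 1298) (.e (nat_lit 81956) (nat_lit 23) (.e (nat_lit 98350) (nat_lit 24) (.e (nat_lit 409650) (nat_lit 19) (.e (nat_lit 311305) (nat_lit 0) .nil)))) .nil))) (.nd (nat_lit 6) 
(.lf (nat_lit 210854) (.g (nat_lit 998) (.e (nat_lit 81956) (nat_lit 23) (.e (nat_lit 98350) (nat_lit 24) (.e (nat_lit 409614) (nat_lit 10) (.e (nat_lit 7936) (nat_lit 312) .nil)))) .nil)) 
(.lf (nat_lit 210918) (.g (nat_lit 2523) (.e (nat_lit 81956) (nat_lit 23) (.e (nat_lit 98367) (nat_lit 27) (.e (nat_lit 434268) (nat_lit 36) (.e (nat_lit 639004) (nat_lit 13) (.e (nat_lit 1234) (nat_lit 91) (.e (nat_lit 98048) (nat_lit 6) .nil)))))) (.g (nat_lit 4) .nil .nil))))) (.nd (nat_lit 5) (.nd (nat_lit 6) 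
(.lf (nat_lit 210838) (.g (nat_lit 685) (.e (nat_lit 81956) (nat_lit 23) (.e (nat_lit 98349) (nat_lit 24) (.e (nat_lit 409614) (nat_lit 10) (.e (nat_lit 5377) (nat_lit 299) .nil)))) .nil)) 
(.lf (nat_lit 210902) (.g (nat_lit 308) (.e (nat_lit 81956) (nat_lit 23) (.e (nat_lit 98356) (nat_lit 26) (.e (nat_lit 426448) (nat_lit 20) .nil))) .nil))) (.nd (nat_lit 6) 
(.lf (nat_lit 210870) (.g (nat_lit 3935) (.e (nat_lit 81956) (nat_lit 23) (.e (nat_lit 98350) (nat_lit 24) (.e (nat_lit 409647) (nat_lit 18) (.e (nat_lit 303117) (nat_lit 2) (.e (nat_lit 196673) (nat_lit 15) .nil))))) (.g (nat_lit 5) .nil .nil))) 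
(.lf (nat_lit 210934) (.g (nat_lit 1529) (.e (nat_lit 81956) (nat_lit 23) (.e (nat_lit 98384) (nat_lit 32) (.e (nat_lit 475203) (nat_lit 40) .nil))) .nil))))) (.nd (nat_lit 4) (.nd (nat_lit 5) (.nd (nat_lit 6) 
(.lf (nat_lit 210830) (.g (nat_lit 2309) (.e (nat_lit 81956) (nat_lit 23) (.e (nat_lit 98334) (nat_lit 18) (.e (nat_lit 164166) (nat_lit 152) (.e (nat_lit 1196) (nat_lit 88) (.e (nat_lit 65580) (nat_lit 6) (.e (nat_lit 155392) (nat_lit 6) .nil)))))) (.g (nat_lit 5) .nil .nil))) 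
(.lf (nat_lit 210894) (.g (nat_lit 4089) (.e (nat_lit 81956) (nat_lit 23) (.e (nat_lit 98353) (nat_lit 25) (.e (nat_lit 417828) (nat_lit 18) (.e (nat_lit 303117) (nat_lit 2) (.e (nat_lit 196672) (nat_lit 15) .nil))))) (.g (nat_lit 5) .nil .nil)))) (.nd (nat_lit 6) 
(.lf (nat_lit 210862) (.g (nat_lit 2446) (.e (nat_lit 81956) (nat_lit 23) (.e (nat_lit 98350) (nat_lit 24) (.e (nat_lit 409643) (nat_lit 18) (.e (nat_lit 303117) (nat_lit 2) (.e (nat_lit 196671) (nat_lit 15) .nil))))) (.g (nat_lit 4) .nil .nil))) 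
(.lf (nat_lit 210926) (.g (nat_lit 398) (.e (nat_lit 81956) (nat_lit 23) (.e (nat_lit 98367) (nat_lit 27) (.e (nat_lit 434269) (nat_lit 36) .nil))) .nil)))) (.nd (nat_lit 5) (.nd (nat_lit 6) 
(.lf (nat_lit 210846) (.g (nat_lit 977) (.e (nat_lit 81956) (nat_lit 23) (.e (nat_lit 98349) (nat_lit 24) (.e (nat_lit 409646) (nat_lit 18) (.e (nat_lit 303116) (nat_lit 2) .nil)))) .nil)) 
(.lf (nat_lit 210910) (.g (nat_lit 2280) (.e (nat_lit 81956) (nat_lit 23) (.e (nat_lit 98356) (nat_lit 26) (.e (nat_lit 426467) (nat_lit 24) (.e (nat_lit 155674) (nat_lit 12) (.e (nat_lit 57478) (nat_lit 28) (.e (nat_lit 564992) (nat_lit 6) .nil)))))) (.g (nat_lit 5) .nil .nil)))) (.nd (nat_lit 6) 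
(.lf (nat_lit 210878) (.g (nat_lit 2285) (.e (nat_lit 81956) (nat_lit 23) (.e (nat_lit 98350) (nat_lit 24) (.e (nat_lit 409649) (nat_lit 18) (.e (nat_lit 303112) (nat_lit 0) (.e (nat_lit 3144) (nat_lit 193) .nil))))) .nil)) 
(.lf (nat_lit 210942) (.g (nat_lit 3232) (.e (nat_lit 81956) (nat_lit 23) (.e (nat_lit 98384) (nat_lit 32) (.e (nat_lit 475214) (nat_lit 42) (.e (nat_lit 720920) (nat_lit 20) (.e (nat_lit 1855) (nat_lit 124) (.e (nat_lit 564992) (nat_lit 6) .nil)))))) (.g (nat_lit 5) .nil .nil))))))))) (.nd (nat_lit 1) (.nd (nat_lit 2) (.nd (nat_lit 3) (.nd (nat_lit 4) (.nd (nat_lit 5) (.nd (nat_lit 6) 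
(.lf (nat_lit 210817) (.g (nat_lit 2865) (.e (nat_lit 81956) (nat_lit 23) (.e (nat_lit 98333) (nat_lit 18) (.e (nat_lit 164179) (nat_lit 154) (.e (nat_lit 57403) (nat_lit 11) (.e (nat_lit 327694) (nat_lit 3) (.e (nat_lit 48896) (nat_lit 6) .nil)))))) (.g (nat_lit 5) .nil .nil))) 
(.lf (nat_lit 210881) (.g (nat_lit 3266) (.e (nat_lit 81956) (nat_lit 23) (.e (nat_lit 98350) (nat_lit 24) (.e (nat_lit 409649) (nat_lit 18) (.e (nat_lit 303116) (nat_lit 2) (.e (nat_lit 204544) (nat_lit 15) .nil))))) (.g (nat_lit 4) .nil .nil)))) (.nd (nat_lit 6) 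
(.lf (nat_lit 210849) (.g (nat_lit 1980) (.e (nat_lit 81956) (nat_lit 23) (.e (nat_lit 98349) (nat_lit 24) (.e (nat_lit 409649) (nat_lit 18) (.e (nat_lit 303106) (nat_lit 0) .nil)))) .nil)) 
(.lf (nat_lit 210913) (.g (nat_lit 2421) (.e (nat_lit 81956) (nat_lit 23) (.e (nat_lit 98365) (nat_lit 26) (.e (nat_lit 426100) (nat_lit 1) (.e (nat_lit 164305) (nat_lit 226) (.e (nat_lit 7936) (nat_lit 81) .nil))))) .nil)))) (.nd (nat_lit 5) (.nd (nat_lit 6) 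
(.lf (nat_lit 210833) (.g (nat_lit 2083) (.e (nat_lit 81956) (nat_lit 23) (.e (nat_lit 98334) (nat_lit 18) (.e (nat_lit 164170) (nat_lit 152) (.e (nat_lit 1196) (nat_lit 88) (.e (nat_lit 65580) (nat_lit 6) (.e (nat_lit 155392) (nat_lit 6) .nil)))))) (.g (nat_lit 4) .nil .nil))) 
(.lf (nat_lit 210897) (.g (nat_lit 2882) (.e (nat_lit 81956) (nat_lit 23) (.e (nat_lit 98353) (nat_lit 25) (.e (nat_lit 417830) (nat_lit 19) (.e (nat_lit 311312) (nat_lit 2) (.e (nat_lit 196673) (nat_lit 15) .nil))))) (.g (nat_lit 4) .nil .nil)))) (.nd (nat_lit 6) 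
(.lf (nat_lit 210865) (.g (nat_lit 2262) (.e (nat_lit 81956) (nat_lit 23) (.e (nat_lit 98350) (nat_lit 24) (.e (nat_lit 409645) (nat_lit 18) (.e (nat_lit 303112) (nat_lit 0) (.e (nat_lit 3144) (nat_lit 193) .nil))))) .nil)) 
(.lf (nat_lit 210929) (.g (nat_lit 550) (.e (nat_lit 81956) (nat_lit 23) (.e (nat_lit 98367) (nat_lit 27) (.e (nat_lit 434278) (nat_lit 39) .nil))) .nil))))) (.nd (nat_lit 4) (.nd (nat_lit 5) (.nd (nat_lit 6) 
(.lf (nat_lit 210825) (.g (nat_lit 2216) (.e (nat_lit 81956) (nat_lit 23) (.e (nat_lit 98334) (nat_lit 18) (.e (nat_lit 164159) (nat_lit 152) (.e (nat_lit 1201) (nat_lit 88) (.e (nat_lit 65543) (nat_lit 0) (.e (nat_lit 2334) (nat_lit 151) (.e (nat_lit 778325) (nat_lit 6) .nil))))))) (.g (nat_lit 4) .nil .nil))) 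
(.lf (nat_lit 210889) (.g (nat_lit 2206) (.e (nat_lit 81956) (nat_lit 23) (.e (nat_lit 98352) (nat_lit 25) (.e (nat_lit 417828) (nat_lit 18) (.e (nat_lit 303117) (nat_lit 2) (.e (nat_lit 196671) (nat_lit 15) .nil))))) (.g (nat_lit 4) .nil .nil)))) (.nd (nat_lit 6) 
(.lf (nat_lit 210857) (.g (nat_lit 1380) (.e (nat_lit 81956) (nat_lit 23) (.e (nat_lit 98350) (nat_lit 24) (.e (nat_lit 409616) (nat_lit 10) (.e (nat_lit 5665) (nat_lit 312) .nil)))) .nil)) 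
(.lf (nat_lit 210921) (.g (nat_lit 2938) (.e (nat_lit 81956) (nat_lit 23) (.e (nat_lit 98367) (nat_lit 27) (.e (nat_lit 434268) (nat_lit 36) (.e (nat_lit 639006) (nat_lit 13) (.e (nat_lit 1239) (nat_lit 91) (.e (nat_lit 98048) (nat_lit 6) .nil)))))) (.g (nat_lit 5) .nil .nil))))) (.nd (nat_lit 5) (.nd (nat_lit 6) 
(.lf (nat_lit 210841) (.g (nat_lit 2612) (.e (nat_lit 81956) (nat_lit 23) (.e (nat_lit 98349) (nat_lit 24) (.e (nat_lit 409644) (nat_lit 18) (.e (nat_lit 303117) (nat_lit 2) (.e (nat_lit 196672) (nat_lit 15) .nil))))) (.g (nat_lit 4) .nil .nil))) 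
(.lf (nat_lit 210905) (.g (nat_lit 3165) (.e (nat_lit 81956) (nat_lit 23) (.e (nat_lit 98356) (nat_lit 26) (.e (nat_lit 426448) (nat_lit 20) (.e (nat_lit 114710) (nat_lit 21) (.e (nat_lit 57621) (nat_lit 128) .nil))))) .nil))) (.nd (nat_lit 6) 
(.lf (nat_lit 210873) (.g (nat_lit 3450) (.e (nat_lit 81956) (nat_lit 23) (.e (nat_lit 98350) (nat_lit 24) (.e (nat_lit 409648) (nat_lit 18) (.e (nat_lit 303116) (nat_lit 2) (.e (nat_lit 204544) (nat_lit 15) .nil))))) (.g (nat_lit 4) .nil .nil))) 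
(.lf (nat_lit 210937) (.g (nat_lit 3203) (.e (nat_lit 81956) (nat_lit 23) (.e (nat_lit 98384) (nat_lit 32) (.e (nat_lit 475214) (nat_lit 42) (.e (nat_lit 720912) (nat_lit 20) (.e (nat_lit 1863) (nat_lit 124) (.e (nat_lit 564992) (nat_lit 6) .nil)))))) (.g (nat_lit 5) .nil .nil))))))) (.nd (nat_lit 3) (.nd (nat_lit 4) (.nd (nat_lit 5) (.nd (nat_lit 6) 
(.lf (nat_lit 210821) (.g (nat_lit 3080) (.e (nat_lit 81956) (nat_lit 23) (.e (nat_lit 98333) (nat_lit 18) (.e (nat_lit 164182) (nat_lit 154) (.e (nat_lit 57411) (nat_lit 12) (.e (nat_lit 336052) (nat_lit 6) .nil))))) .nil)) 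
(.lf (nat_lit 210885) (.g (nat_lit 1287) (.e (nat_lit 81956) (nat_lit 23) (.e (nat_lit 98350) (nat_lit 24) (.e (nat_lit 409649) (nat_lit 18) (.e (nat_lit 303149) (nat_lit 15) (.e (nat_lit 1077) (nat_lit 81) .nil))))) .nil))) (.nd (nat_lit 6) 
(.lf (nat_lit 210853) (.g (nat_lit 731) (.e (nat_lit 81956) (nat_lit 23) (.e (nat_lit 98350) (nat_lit 24) (.e (nat_lit 409612) (nat_lit 10) .nil))) .nil)) 
(.lf (nat_lit 210917) (.g (nat_lit 549) (.e (nat_lit 81956) (nat_lit 23) (.e (nat_lit 98367) (nat_lit 27) (.e (nat_lit 434266) (nat_lit 35) .nil))) .nil)))) (.nd (nat_lit 5) (.nd (nat_lit 6) 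
(.lf (nat_lit 210837) (.g (nat_lit 540) (.e (nat_lit 81956) (nat_lit 23) (.e (nat_lit 98349) (nat_lit 24) (.e (nat_lit 409612) (nat_lit 10) .nil))) .nil)) 
(.lf (nat_lit 210901) (.g (nat_lit 2635) (.e (nat_lit 81956) (nat_lit 23) (.e (nat_lit 98356) (nat_lit 26) (.e (nat_lit 426361) (nat_lit 15) (.e (nat_lit 2206) (nat_lit 144) (.e (nat_lit 720920) (nat_lit 20) (.e (nat_lit 1855) (nat_lit 124) (.e (nat_lit 564992) (nat_lit 6) .nil))))))) (.g (nat_lit 6) .nil .nil)))) (.nd (nat_lit 6) 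
(.lf (nat_lit 210869) (.g (nat_lit 688) (.e (nat_lit 81956) (nat_lit 23) (.e (nat_lit 98350) (nat_lit 24) (.e (nat_lit 409647) (nat_lit 18) .nil))) .nil)) 
(.lf (nat_lit 210933) (.g (nat_lit 1316) (.e (nat_lit 81956) (nat_lit 23) (.e (nat_lit 98384) (nat_lit 32) (.e (nat_lit 475194) (nat_lit 39) .nil))) .nil))))) (.nd (nat_lit 4) (.nd (nat_lit 5) (.nd (nat_lit 6) 
(.lf (nat_lit 210829) (.g (nat_lit 2991) (.e (nat_lit 81956) (nat_lit 23) (.e (nat_lit 98334) (nat_lit 18) (.e (nat_lit 164159) (nat_lit 152) (.e (nat_lit 1201) (nat_lit 88) (.e (nat_lit 65580) (nat_lit 6) (.e (nat_lit 155392) (nat_lit 6) .nil)))))) (.g (nat_lit 5) .nil .nil))) 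
(.lf (nat_lit 210893) (.g (nat_lit 2868) (.e (nat_lit 81956) (nat_lit 23) (.e (nat_lit 98353) (nat_lit 25) (.e (nat_lit 417828) (nat_lit 18) (.e (nat_lit 303117) (nat_lit 2) (.e (nat_lit 196671) (nat_lit 15) .nil))))) (.g (nat_lit 4) .nil .nil)))) (.nd (nat_lit 6) 
(.lf (nat_lit 210861) (.g (nat_lit 765) (.e (nat_lit 81956) (nat_lit 23) (.e (nat_lit 98350) (nat_lit 24) (.e (nat_lit 409636) (nat_lit 14) .nil))) .nil)) 
(.lf (nat_lit 210925) (.g (nat_lit 3273) (.e (nat_lit 81956) (nat_lit 23) (.e (nat_lit 98367) (nat_lit 27) (.e (nat_lit 434268) (nat_lit 36) (.e (nat_lit 639011) (nat_lit 13) (.e (nat_lit 1234) (nat_lit 91) (.e (nat_lit 98048) (nat_lit 6) .nil)))))) (.g (nat_lit 5) .nil .nil))))) (.nd (nat_lit 5) (.nd (nat_lit 6) 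
(.lf (nat_lit 210845) (.g (nat_lit 2459) (.e (nat_lit 81956) (nat_lit 23) (.e (nat_lit 98349) (nat_lit 24) (.e (nat_lit 409646) (nat_lit 18) (.e (nat_lit 303112) (nat_lit 0) (.e (nat_lit 3144) (nat_lit 193) .nil))))) .nil)) 
(.lf (nat_lit 210909) (.g (nat_lit 2884) (.e (nat_lit 81956) (nat_lit 23) (.e (nat_lit 98356) (nat_lit 26) (.e (nat_lit 426452) (nat_lit 21) (.e (nat_lit 123092) (nat_lit 183) (.e (nat_lit 57373) (nat_lit 2) (.e (nat_lit 98048) (nat_lit 6) .nil)))))) (.g (nat_lit 5) .nil .nil)))) (.nd (nat_lit 6) 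
(.lf (nat_lit 210877) (.g (nat_lit 3449) (.e (nat_lit 81956) (nat_lit 23) (.e (nat_lit 98350) (nat_lit 24) (.e (nat_lit 409649) (nat_lit 18) (.e (nat_lit 303111) (nat_lit 0) (.e (nat_lit 3124) (nat_lit 193) (.e (nat_lit 507648) (nat_lit 20) .nil)))))) (.g (nat_lit 5) .nil .nil))) 
(.lf (nat_lit 210941) (.g (nat_lit 2092) (.e (nat_lit 81956) (nat_lit 23) (.e (nat_lit 98384) (nat_lit 32) (.e (nat_lit 475214) (nat_lit 42) (.e (nat_lit 720919) (nat_lit 20) .nil)))) .nil))))))) (.nd (nat_lit 2) (.nd (nat_lit 3) (.nd (nat_lit 4) (.nd (nat_lit 5) (.nd (nat_lit 6) 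
(.lf (nat_lit 210819) (.g (nat_lit 1538) (.e (nat_lit 81956) (nat_lit 23) (.e (nat_lit 98333) (nat_lit 18) (.e (nat_lit 164179) (nat_lit 154) (.e (nat_lit 57422) (nat_lit 13) .nil)))) .nil)) 
(.lf (nat_lit 210883) (.g (nat_lit 3224) (.e (nat_lit 81956) (nat_lit 23) (.e (nat_lit 98350) (nat_lit 24) (.e (nat_lit 409649) (nat_lit 18) (.e (nat_lit 303117) (nat_lit 2) (.e (nat_lit 204544) (nat_lit 15) .nil))))) (.g (nat_lit 4) .nil .nil)))) (.nd (nat_lit 6) 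
(.lf (nat_lit 210851) (.g (nat_lit 861) (.e (nat_lit 81956) (nat_lit 23) (.e (nat_lit 98350) (nat_lit 24) (.e (nat_lit 409609) (nat_lit 10) .nil))) .nil)) 
(.lf (nat_lit 210915) (.g (nat_lit 519) (.e (nat_lit 81956) (nat_lit 23) (.e (nat_lit 98366) (nat_lit 27) (.e (nat_lit 434266) (nat_lit 35) (.e (nat_lit 630814) (nat_lit 13) .nil)))) .nil)))) (.nd (nat_lit 5) (.nd (nat_lit 6) 
(.lf (nat_lit 210835) (.g (nat_lit 1616) (.e (nat_lit 81956) (nat_lit 23) (.e (nat_lit 98334) (nat_lit 18) (.e (nat_lit 164182) (nat_lit 154) (.e (nat_lit 57411) (nat_lit 12) .nil)))) .nil)) 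
(.lf (nat_lit 210899) (.g (nat_lit 2175) (.e (nat_lit 81956) (nat_lit 23) (.e (nat_lit 98356) (nat_lit 26) (.e (nat_lit 426361) (nat_lit 15) (.e (nat_lit 2026) (nat_lit 140) (.e (nat_lit 688167) (nat_lit 15) (.e (nat_lit 57454) (nat_lit 21) (.e (nat_lit 507648) (nat_lit 20) .nil))))))) (.g (nat_lit 5) .nil .nil)))) (.nd (nat_lit 6) 
(.lf (nat_lit 210867) (.g (nat_lit 3713) (.e (nat_lit 81956) (nat_lit 23) (.e (nat_lit 98350) (nat_lit 24) (.e (nat_lit 409646) (nat_lit 18) (.e (nat_lit 303117) (nat_lit 2) (.e (nat_lit 196671) (nat_lit 15) .nil))))) (.g (nat_lit 4) .nil .nil))) 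
(.lf (nat_lit 210931) (.g (nat_lit 2348) (.e (nat_lit 81956) (nat_lit 23) (.e (nat_lit 98383) (nat_lit 32) (.e (nat_lit 475199) (nat_lit 40) (.e (nat_lit 704590) (nat_lit 3) (.e (nat_lit 163975) (nat_lit 30) .nil))))) .nil))))) (.nd (nat_lit 4) (.nd (nat_lit 5) (.nd (nat_lit 6) 
(.lf (nat_lit 210827) (.g (nat_lit 2893) (.e (nat_lit 81956) (nat_lit 23) (.e (nat_lit 98334) (nat_lit 18) (.e (nat_lit 164159) (nat_lit 152) (.e (nat_lit 1201) (nat_lit 88) (.e (nat_lit 65578) (nat_lit 6) (.e (nat_lit 155392) (nat_lit 6) .nil)))))) (.g (nat_lit 5) .nil .nil))) 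
(.lf (nat_lit 210891) (.g (nat_lit 2970) (.e (nat_lit 81956) (nat_lit 23) (.e (nat_lit 98353) (nat_lit 25) (.e (nat_lit 417820) (nat_lit 10) (.e (nat_lit 5761) (nat_lit 315) (.e (nat_lit 163950) (nat_lit 21) (.e (nat_lit 507648) (nat_lit 20) .nil)))))) (.g (nat_lit 5) .nil .nil)))) (.nd (nat_lit 6) 
(.lf (nat_lit 210859) (.g (nat_lit 947) (.e (nat_lit 81956) (nat_lit 23) (.e (nat_lit 98350) (nat_lit 24) (.e (nat_lit 409623) (nat_lit 10) (.e (nat_lit 5664) (nat_lit 312) .nil)))) .nil)) 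
(.lf (nat_lit 210923) (.g (nat_lit 3263) (.e (nat_lit 81956) (nat_lit 23) (.e (nat_lit 98367) (nat_lit 27) (.e (nat_lit 434268) (nat_lit 36) (.e (nat_lit 639007) (nat_lit 13) (.e (nat_lit 1239) (nat_lit 91) (.e (nat_lit 98048) (nat_lit 6) .nil)))))) (.g (nat_lit 5) .nil .nil))))) (.nd (nat_lit 5) (.nd (nat_lit 6) 
(.lf (nat_lit 210843) (.g (nat_lit 2985) (.e (nat_lit 81956) (nat_lit 23) (.e (nat_lit 98349) (nat_lit 24) (.e (nat_lit 409645) (nat_lit 18) (.e (nat_lit 303117) (nat_lit 2) (.e (nat_lit 196671) (nat_lit 15) .nil))))) (.g (nat_lit 4) .nil .nil))) 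
(.lf (nat_lit 210907) (.g (nat_lit 2386) (.e (nat_lit 81956) (nat_lit 23) (.e (nat_lit 98356) (nat_lit 26) (.e (nat_lit 426448) (nat_lit 20) (.e (nat_lit 114712) (nat_lit 21) .nil)))) .nil))) (.nd (nat_lit 6) 
(.lf (nat_lit 210875) (.g (nat_lit 3070) (.e (nat_lit 81956) (nat_lit 23) (.e (nat_lit 98350) (nat_lit 24) (.e (nat_lit 409648) (nat_lit 18) (.e (nat_lit 303117) (nat_lit 2) (.e (nat_lit 204544) (nat_lit 15) .nil))))) (.g (nat_lit 4) .nil .nil))) 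
(.lf (nat_lit 210939) (.g (nat_lit 2161) (.e (nat_lit 81956) (nat_lit 23) (.e (nat_lit 98384) (nat_lit 32) (.e (nat_lit 475214) (nat_lit 42) (.e (nat_lit 720916) (nat_lit 20) .nil)))) .nil)))))) (.nd (nat_lit 3) (.nd (nat_lit 4) (.nd (nat_lit 5) (.nd (nat_lit 6) 
(.lf (nat_lit 210823) (.g (nat_lit 826) (.e (nat_lit 81956) (nat_lit 23) (.e (nat_lit 98333) (nat_lit 18) (.e (nat_lit 164429) (nat_lit 278) .nil))) .nil)) 
(.lf (nat_lit 210887) (.g (nat_lit 2846) (.e (nat_lit 81956) (nat_lit 23) (.e (nat_lit 98350) (nat_lit 24) (.e (nat_lit 409650) (nat_lit 19) (.e (nat_lit 311312) (nat_lit 2) (.e (nat_lit 204544) (nat_lit 15) .nil))))) (.g (nat_lit 4) .nil .nil)))) (.nd (nat_lit 6) 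
(.lf (nat_lit 210855) (.g (nat_lit 1381) (.e (nat_lit 81956) (nat_lit 23) (.e (nat_lit 98350) (nat_lit 24) (.e (nat_lit 409616) (nat_lit 10) (.e (nat_lit 4934) (nat_lit 287) .nil)))) .nil)) 
(.lf (nat_lit 210919) (.g (nat_lit 3072) (.e (nat_lit 81956) (nat_lit 23) (.e (nat_lit 98367) (nat_lit 27) (.e (nat_lit 434268) (nat_lit 36) (.e (nat_lit 639004) (nat_lit 13) (.e (nat_lit 1239) (nat_lit 91) (.e (nat_lit 98048) (nat_lit 6) .nil)))))) (.g (nat_lit 5) .nil .nil))))) (.nd (nat_lit 5) (.nd (nat_lit 6) 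
(.lf (nat_lit 210839) (.g (nat_lit 534) (.e (nat_lit 81956) (nat_lit 23) (.e (nat_lit 98349) (nat_lit 24) (.e (nat_lit 409616) (nat_lit 10) .nil))) .nil)) 
(.lf (nat_lit 210903) (.g (nat_lit 2508) (.e (nat_lit 81956) (nat_lit 23) (.e (nat_lit 98356) (nat_lit 26) (.e (nat_lit 426448) (nat_lit 20) (.e (nat_lit 114699) (nat_lit 20) .nil)))) .nil))) (.nd (nat_lit 6) 
(.lf (nat_lit 210871) (.g (nat_lit 4112) (.e (nat_lit 81956) (nat_lit 23) (.e (nat_lit 98350) (nat_lit 24) (.e (nat_lit 409647) (nat_lit 18) (.e (nat_lit 303117) (nat_lit 2) (.e (nat_lit 196674) (nat_lit 15) .nil))))) (.g (nat_lit 4) .nil .nil))) 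
(.lf (nat_lit 210935) (.g (nat_lit 524) (.e (nat_lit 81956) (nat_lit 23) (.e (nat_lit 98384) (nat_lit 32) (.e (nat_lit 475210) (nat_lit 41) .nil))) .nil))))) (.nd (nat_lit 4) (.nd (nat_lit 5) (.nd (nat_lit 6) 
(.lf (nat_lit 210831) (.g (nat_lit 1852) (.e (nat_lit 81956) (nat_lit 23) (.e (nat_lit 98334) (nat_lit 18) (.e (nat_lit 164166) (nat_lit 152) (.e (nat_lit 1199) (nat_lit 88) (.e (nat_lit 65580) (nat_lit 6) (.e (nat_lit 155392) (nat_lit 6) .nil)))))) (.g (nat_lit 4) .nil .nil))) 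
(.lf (nat_lit 210895) (.g (nat_lit 3843) (.e (nat_lit 81956) (nat_lit 23) (.e (nat_lit 98353) (nat_lit 25) (.e (nat_lit 417829) (nat_lit 18) (.e (nat_lit 303117) (nat_lit 2) (.e (nat_lit 196673) (nat_lit 15) .nil))))) (.g (nat_lit 0) .nil .nil)))) (.nd (nat_lit 6) 
(.lf (nat_lit 210863) (.g (nat_lit 462) (.e (nat_lit 81956) (nat_lit 23) (.e (nat_lit 98350) (nat_lit 24) (.e (nat_lit 409644) (nat_lit 18) .nil))) .nil)) 
(.lf (nat_lit 210927) (.g (nat_lit 2561) (.e (nat_lit 81956) (nat_lit 23) (.e (nat_lit 98367) (nat_lit 27) (.e (nat_lit 434269) (nat_lit 36) (.e (nat_lit 639008) (nat_lit 13) (.e (nat_lit 1239) (nat_lit 91) (.e (nat_lit 98048) (nat_lit 6) .nil)))))) (.g (nat_lit 5) .nil .nil))))) (.nd (nat_lit 5) (.nd (nat_lit 6) 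
(.lf (nat_lit 210847) (.g (nat_lit 3356) (.e (nat_lit 81956) (nat_lit 23) (.e (nat_lit 98349) (nat_lit 24) (.e (nat_lit 409646) (nat_lit 18) (.e (nat_lit 303117) (nat_lit 2) (.e (nat_lit 196671) (nat_lit 15) .nil))))) (.g (nat_lit 4) .nil .nil))) 
(.lf (nat_lit 210911) (.g (nat_lit 2740) (.e (nat_lit 81956) (nat_lit 23) (.e (nat_lit 98356) (nat_lit 26) (.e (nat_lit 426467) (nat_lit 24) (.e (nat_lit 155674) (nat_lit 12) (.e (nat_lit 57479) (nat_lit 28) (.e (nat_lit 564992) (nat_lit 6) .nil)))))) (.g (nat_lit 5) .nil .nil)))) (.nd (nat_lit 6) 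
(.lf (nat_lit 210879) (.g (nat_lit 3406) (.e (nat_lit 81956) (nat_lit 23) (.e (nat_lit 98350) (nat_lit 24) (.e (nat_lit 409649) (nat_lit 18) (.e (nat_lit 303116) (nat_lit 2) (.e (nat_lit 196671) (nat_lit 15) .nil))))) (.g (nat_lit 0) .nil .nil))) 
(.lf (nat_lit 210943) (.g (nat_lit 2105) (.e (nat_lit 81956) (nat_lit 23) (.e (nat_lit 98384) (nat_lit 32) (.e (nat_lit 475214) (nat_lit 42) (.e (nat_lit 720926) (nat_lit 20) .nil)))) .nil)))))))))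

noncomputable def tv2785 : DT := (.nd (nat_lit 0) (.nd (nat_lit 1) (.nd (nat_lit 2) (.nd (nat_lit 3) (.nd (nat_lit 4) (.nd (nat_lit 5) 
(.lf (nat_lit 210944) (.g (nat_lit 3230) (.e (nat_lit 81956) (nat_lit 23) (.e (nat_lit 98384) (nat_lit 32) (.e (nat_lit 475214) (nat_lit 42) (.e (nat_lit 720929) (nat_lit 21) (.e (nat_lit 57623) (nat_lit 128) (.e (nat_lit 7936) (nat_lit 90) .nil)))))) (.g (nat_lit 4) .nil .nil))) 
(.lf (nat_lit 210976) (.g (nat_lit 2434) (.e (nat_lit 81956) (nat_lit 23) (.e (nat_lit 98388) (nat_lit 33) (.e (nat_lit 491566) (nat_lit 12) (.e (nat_lit 385053) (nat_lit 21) .nil)))) .nil))) (.nd (nat_lit 5) 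
(.lf (nat_lit 210960) (.g (nat_lit 1350) (.e (nat_lit 81956) (nat_lit 23) (.e (nat_lit 98388) (nat_lit 33) (.e (nat_lit 491552) (nat_lit 9) (.e (nat_lit 336282) (nat_lit 15) (.e (nat_lit 7936) (nat_lit 202) .nil))))) .nil)) 
(.lf (nat_lit 210992) (.g (nat_lit 3207) (.e (nat_lit 81956) (nat_lit 23) (.e (nat_lit 98389) (nat_lit 33) (.e (nat_lit 491563) (nat_lit 12) (.e (nat_lit 385043) (nat_lit 21) .nil)))) .nil)))) (.nd (nat_lit 4) (.nd (nat_lit 5) 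
(.lf (nat_lit 210952) (.g (nat_lit 653) (.e (nat_lit 81956) (nat_lit 23) (.e (nat_lit 98386) (nat_lit 32) (.e (nat_lit 475205) (nat_lit 40) .nil))) .nil)) 
(.lf (nat_lit 210984) (.g (nat_lit 1861) (.e (nat_lit 81956) (nat_lit 23) (.e (nat_lit 98389) (nat_lit 33) (.e (nat_lit 491560) (nat_lit 10) (.e (nat_lit 344091) (nat_lit 18) (.e (nat_lit 3928) (nat_lit 239) .nil))))) .nil))) (.nd (nat_lit 5) 
(.lf (nat_lit 210968) (.g (nat_lit 1736) (.e (nat_lit 81956) (nat_lit 23) (.e (nat_lit 98388) (nat_lit 33) (.e (nat_lit 491566) (nat_lit 12) (.e (nat_lit 385043) (nat_lit 21) .nil)))) .nil)) 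
(.lf (nat_lit 211000) (.g (nat_lit 3501) (.e (nat_lit 81956) (nat_lit 23) (.e (nat_lit 98389) (nat_lit 33) (.e (nat_lit 491563) (nat_lit 12) (.e (nat_lit 385049) (nat_lit 21) (.e (nat_lit 4214) (nat_lit 251) .nil))))) .nil))))) (.nd (nat_lit 3) (.nd (nat_lit 4) (.nd (nat_lit 5) 
(.lf (nat_lit 210948) (.g (nat_lit 1808) (.e (nat_lit 81956) (nat_lit 23) (.e (nat_lit 98385) (nat_lit 32) (.e (nat_lit 475198) (nat_lit 40) (.e (nat_lit 704590) (nat_lit 3) (.e (nat_lit 163975) (nat_lit 30) .nil))))) .nil)) 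
(.lf (nat_lit 210980) (.g (nat_lit 2594) (.e (nat_lit 81956) (nat_lit 23) (.e (nat_lit 98389) (nat_lit 33) (.e (nat_lit 491544) (nat_lit 7) (.e (nat_lit 319519) (nat_lit 12) (.e (nat_lit 40704) (nat_lit 11) .nil))))) (.g (nat_lit 4) .nil .nil)))) (.nd (nat_lit 5) 
(.lf (nat_lit 210964) (.g (nat_lit 1323) (.e (nat_lit 81956) (nat_lit 23) (.e (nat_lit 98388) (nat_lit 33) (.e (nat_lit 491562) (nat_lit 12) (.e (nat_lit 385047) (nat_lit 21) .nil)))) .nil)) 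
(.lf (nat_lit 210996) (.g (nat_lit 3051) (.e (nat_lit 81956) (nat_lit 23) (.e (nat_lit 98389) (nat_lit 33) (.e (nat_lit 491563) (nat_lit 12) (.e (nat_lit 385046) (nat_lit 21) .nil)))) .nil)))) (.nd (nat_lit 4) (.nd (nat_lit 5) 
(.lf (nat_lit 210956) (.g (nat_lit 1557) (.e (nat_lit 81956) (nat_lit 23) (.e (nat_lit 98387) (nat_lit 33) (.e (nat_lit 491566) (nat_lit 12) (.e (nat_lit 385046) (nat_lit 21) .nil)))) .nil)) 
(.lf (nat_lit 210988) (.g (nat_lit 1606) (.e (nat_lit 81956) (nat_lit 23) (.e (nat_lit 98389) (nat_lit 33) (.e (nat_lit 491562) (nat_lit 12) (.e (nat_lit 385046) (nat_lit 21) .nil)))) .nil))) (.nd (nat_lit 5) 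
(.lf (nat_lit 210972) (.g (nat_lit 2494) (.e (nat_lit 81956) (nat_lit 23) (.e (nat_lit 98388) (nat_lit 33) (.e (nat_lit 491566) (nat_lit 12) (.e (nat_lit 385048) (nat_lit 21) .nil)))) .nil)) 
(.lf (nat_lit 211004) (.g (nat_lit 4054) (.e (nat_lit 81956) (nat_lit 23) (.e (nat_lit 98389) (nat_lit 33) (.e (nat_lit 491563) (nat_lit 12) (.e (nat_lit 385073) (nat_lit 31) (.e (nat_lit 573492) (nat_lit 15) .nil))))) (.g (nat_lit 0) .nil .nil))))))) (.nd (nat_lit 2) (.nd (nat_lit 3) (.nd (nat_lit 4) (.nd (nat_lit 5) 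
(.lf (nat_lit 210946) (.g (nat_lit 1663) (.e (nat_lit 81956) (nat_lit 23) (.e (nat_lit 98384) (nat_lit 32) (.e (nat_lit 475214) (nat_lit 42) (.e (nat_lit 720931) (nat_lit 21) (.e (nat_lit 57623) (nat_lit 128) .nil))))) .nil)) 
(.lf (nat_lit 210978) (.g (nat_lit 3598) (.e (nat_lit 81956) (nat_lit 23) (.e (nat_lit 98388) (nat_lit 33) (.e (nat_lit 491566) (nat_lit 12) (.e (nat_lit 385074) (nat_lit 31) (.e (nat_lit 573492) (nat_lit 15) .nil))))) (.g (nat_lit 0) .nil .nil)))) (.nd (nat_lit 5) 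
(.lf (nat_lit 210962) (.g (nat_lit 3488) (.e (nat_lit 81956) (nat_lit 23) (.e (nat_lit 98388) (nat_lit 33) (.e (nat_lit 491560) (nat_lit 10) (.e (nat_lit 344126) (nat_lit 25) (.e (nat_lit 548891) (nat_lit 11) .nil))))) (.g (nat_lit 0) .nil .nil))) 
(.lf (nat_lit 210994) (.g (nat_lit 2671) (.e (nat_lit 81956) (nat_lit 23) (.e (nat_lit 98389) (nat_lit 33) (.e (nat_lit 491563) (nat_lit 12) (.e (nat_lit 385045) (nat_lit 21) .nil)))) .nil)))) (.nd (nat_lit 4) (.nd (nat_lit 5) 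
(.lf (nat_lit 210954) (.g (nat_lit 2167) (.e (nat_lit 81956) (nat_lit 23) (.e (nat_lit 98387) (nat_lit 33) (.e (nat_lit 491566) (nat_lit 12) (.e (nat_lit 385044) (nat_lit 21) .nil)))) .nil)) 
(.lf (nat_lit 210986) (.g (nat_lit 3266) (.e (nat_lit 81956) (nat_lit 23) (.e (nat_lit 98389) (nat_lit 33) (.e (nat_lit 491560) (nat_lit 10) (.e (nat_lit 344126) (nat_lit 25) (.e (nat_lit 556800) (nat_lit 11) .nil))))) (.g (nat_lit 4) .nil .nil)))) (.nd (nat_lit 5) 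
(.lf (nat_lit 210970) (.g (nat_lit 1517) (.e (nat_lit 81956) (nat_lit 23) (.e (nat_lit 98388) (nat_lit 33) (.e (nat_lit 491566) (nat_lit 12) (.e (nat_lit 385045) (nat_lit 21) .nil)))) .nil)) 
(.lf (nat_lit 211002) (.g (nat_lit 3412) (.e (nat_lit 81956) (nat_lit 23) (.e (nat_lit 98389) (nat_lit 33) (.e (nat_lit 491563) (nat_lit 12) (.e (nat_lit 385051) (nat_lit 21) .nil)))) .nil))))) (.nd (nat_lit 3) (.nd (nat_lit 4) (.nd (nat_lit 5) 
(.lf (nat_lit 210950) (.g (nat_lit 2510) (.e (nat_lit 81956) (nat_lit 23) (.e (nat_lit 98385) (nat_lit 32) (.e (nat_lit 475214) (nat_lit 42) (.e (nat_lit 720920) (nat_lit 20) (.e (nat_lit 1855) (nat_lit 124) (.e (nat_lit 564992) (nat_lit 6) .nil)))))) (.g (nat_lit 5) .nil .nil))) 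
(.lf (nat_lit 210982) (.g (nat_lit 2796) (.e (nat_lit 81956) (nat_lit 23) (.e (nat_lit 98389) (nat_lit 33) (.e (nat_lit 491558) (nat_lit 10) (.e (nat_lit 344126) (nat_lit 25) (.e (nat_lit 556800) (nat_lit 11) .nil))))) (.g (nat_lit 4) .nil .nil)))) (.nd (nat_lit 5) 
(.lf (nat_lit 210966) (.g (nat_lit 3821) (.e (nat_lit 81956) (nat_lit 23) (.e (nat_lit 98388) (nat_lit 33) (.e (nat_lit 491565) (nat_lit 12) (.e (nat_lit 385073) (nat_lit 31) (.e (nat_lit 573492) (nat_lit 15) .nil))))) (.g (nat_lit 0) .nil .nil))) 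
(.lf (nat_lit 210998) (.g (nat_lit 3252) (.e (nat_lit 81956) (nat_lit 23) (.e (nat_lit 98389) (nat_lit 33) (.e (nat_lit 491563) (nat_lit 12) (.e (nat_lit 385048) (nat_lit 21) .nil)))) .nil)))) (.nd (nat_lit 4) (.nd (nat_lit 5) 
(.lf (nat_lit 210958) (.g (nat_lit 2454) (.e (nat_lit 81956) (nat_lit 23) (.e (nat_lit 98387) (nat_lit 33) (.e (nat_lit 491566) (nat_lit 12) (.e (nat_lit 385049) (nat_lit 21) .nil)))) .nil)) 
(.lf (nat_lit 210990) (.g (nat_lit 1596) (.e (nat_lit 81956) (nat_lit 23) (.e (nat_lit 98389) (nat_lit 33) (.e (nat_lit 491562) (nat_lit 12) (.e (nat_lit 385053) (nat_lit 21) .nil)))) .nil))) (.nd (nat_lit 5) 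
(.lf (nat_lit 210974) (.g (nat_lit 2317) (.e (nat_lit 81956) (nat_lit 23) (.e (nat_lit 98388) (nat_lit 33) (.e (nat_lit 491566) (nat_lit 12) (.e (nat_lit 385050) (nat_lit 21) .nil)))) .nil)) 
(.lf (nat_lit 211006) (.g (nat_lit 3311) (.e (nat_lit 81956) (nat_lit 23) (.e (nat_lit 98389) (nat_lit 33) (.e (nat_lit 491565) (nat_lit 12) (.e (nat_lit 385073) (nat_lit 31) (.e (nat_lit 573492) (nat_lit 15) .nil))))) (.g (nat_lit 0) .nil .nil)))))))) (.nd (nat_lit 1) (.nd (nat_lit 2) (.nd (nat_lit 3) (.nd (nat_lit 4) (.nd (nat_lit 5) 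
(.lf (nat_lit 210945) (.g (nat_lit 3223) (.e (nat_lit 81956) (nat_lit 23) (.e (nat_lit 98384) (nat_lit 32) (.e (nat_lit 475214) (nat_lit 42) (.e (nat_lit 720930) (nat_lit 21) (.e (nat_lit 57623) (nat_lit 128) (.e (nat_lit 7936) (nat_lit 90) .nil)))))) (.g (nat_lit 4) .nil .nil))) 
(.lf (nat_lit 210977) (.g (nat_lit 3628) (.e (nat_lit 81956) (nat_lit 23) (.e (nat_lit 98388) (nat_lit 33) (.e (nat_lit 491566) (nat_lit 12) (.e (nat_lit 385073) (nat_lit 31) (.e (nat_lit 573492) (nat_lit 15) .nil))))) (.g (nat_lit 0) .nil .nil)))) (.nd (nat_lit 5) 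
(.lf (nat_lit 210961) (.g (nat_lit 1454) (.e (nat_lit 81956) (nat_lit 23) (.e (nat_lit 98388) (nat_lit 33) (.e (nat_lit 491560) (nat_lit 10) (.e (nat_lit 344089) (nat_lit 18) .nil)))) .nil)) 
(.lf (nat_lit 210993) (.g (nat_lit 3263) (.e (nat_lit 81956) (nat_lit 23) (.e (nat_lit 98389) (nat_lit 33) (.e (nat_lit 491563) (nat_lit 12) (.e (nat_lit 385044) (nat_lit 21) .nil)))) .nil)))) (.nd (nat_lit 4) (.nd (nat_lit 5) 
(.lf (nat_lit 210953) (.g (nat_lit 3642) (.e (nat_lit 81956) (nat_lit 23) (.e (nat_lit 98387) (nat_lit 33) (.e (nat_lit 491565) (nat_lit 12) (.e (nat_lit 385073) (nat_lit 31) (.e (nat_lit 573493) (nat_lit 15) .nil))))) (.g (nat_lit 0) .nil .nil))) 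
(.lf (nat_lit 210985) (.g (nat_lit 3107) (.e (nat_lit 81956) (nat_lit 23) (.e (nat_lit 98389) (nat_lit 33) (.e (nat_lit 491560) (nat_lit 10) (.e (nat_lit 344097) (nat_lit 18) (.e (nat_lit 3946) (nat_lit 239) (.e (nat_lit 7936) (nat_lit 90) .nil)))))) (.g (nat_lit 4) .nil .nil)))) (.nd (nat_lit 5) 
(.lf (nat_lit 210969) (.g (nat_lit 2105) (.e (nat_lit 81956) (nat_lit 23) (.e (nat_lit 98388) (nat_lit 33) (.e (nat_lit 491566) (nat_lit 12) (.e (nat_lit 385044) (nat_lit 21) .nil)))) .nil)) 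
(.lf (nat_lit 211001) (.g (nat_lit 3350) (.e (nat_lit 81956) (nat_lit 23) (.e (nat_lit 98389) (nat_lit 33) (.e (nat_lit 491563) (nat_lit 12) (.e (nat_lit 385050) (nat_lit 21) .nil)))) .nil))))) (.nd (nat_lit 3) (.nd (nat_lit 4) (.nd (nat_lit 5) 
(.lf (nat_lit 210949) (.g (nat_lit 2472) (.e (nat_lit 81956) (nat_lit 23) (.e (nat_lit 98385) (nat_lit 32) (.e (nat_lit 475212) (nat_lit 42) (.e (nat_lit 720920) (nat_lit 20) (.e (nat_lit 1855) (nat_lit 124) (.e (nat_lit 564992) (nat_lit 6) .nil)))))) (.g (nat_lit 5) .nil .nil))) 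
(.lf (nat_lit 210981) (.g (nat_lit 2157) (.e (nat_lit 81956) (nat_lit 23) (.e (nat_lit 98389) (nat_lit 33) (.e (nat_lit 491558) (nat_lit 10) (.e (nat_lit 344125) (nat_lit 25) (.e (nat_lit 548891) (nat_lit 11) .nil))))) (.g (nat_lit 4) .nil .nil)))) (.nd (nat_lit 5) 
(.lf (nat_lit 210965) (.g (nat_lit 2080) (.e (nat_lit 81956) (nat_lit 23) (.e (nat_lit 98388) (nat_lit 33) (.e (nat_lit 491563) (nat_lit 12) (.e (nat_lit 385072) (nat_lit 31) .nil)))) .nil)) 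
(.lf (nat_lit 210997) (.g (nat_lit 3004) (.e (nat_lit 81956) (nat_lit 23) (.e (nat_lit 98389) (nat_lit 33) (.e (nat_lit 491563) (nat_lit 12) (.e (nat_lit 385047) (nat_lit 21) .nil)))) .nil)))) (.nd (nat_lit 4) (.nd (nat_lit 5) 
(.lf (nat_lit 210957) (.g (nat_lit 2454) (.e (nat_lit 81956) (nat_lit 23) (.e (nat_lit 98387) (nat_lit 33) (.e (nat_lit 491566) (nat_lit 12) (.e (nat_lit 385048) (nat_lit 21) .nil)))) .nil)) 
(.lf (nat_lit 210989) (.g (nat_lit 1392) (.e (nat_lit 81956) (nat_lit 23) (.e (nat_lit 98389) (nat_lit 33) (.e (nat_lit 491562) (nat_lit 12) (.e (nat_lit 385047) (nat_lit 21) .nil)))) .nil))) (.nd (nat_lit 5) 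
(.lf (nat_lit 210973) (.g (nat_lit 2350) (.e (nat_lit 81956) (nat_lit 23) (.e (nat_lit 98388) (nat_lit 33) (.e (nat_lit 491566) (nat_lit 12) (.e (nat_lit 385049) (nat_lit 21) .nil)))) .nil)) 
(.lf (nat_lit 211005) (.g (nat_lit 4210) (.e (nat_lit 81956) (nat_lit 23) (.e (nat_lit 98389) (nat_lit 33) (.e (nat_lit 491563) (nat_lit 12) (.e (nat_lit 385074) (nat_lit 31) (.e (nat_lit 573492) (nat_lit 15) .nil))))) (.g (nat_lit 0) .nil .nil))))))) (.nd (nat_lit 2) (.nd (nat_lit 3) (.nd (nat_lit 4) (.nd (nat_lit 5) 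
(.lf (nat_lit 210947) (.g (nat_lit 2060) (.e (nat_lit 81956) (nat_lit 23) (.e (nat_lit 98384) (nat_lit 32) (.e (nat_lit 475214) (nat_lit 42) (.e (nat_lit 720934) (nat_lit 21) .nil)))) .nil)) 
(.lf (nat_lit 210979) (.g (nat_lit 1219) (.e (nat_lit 81956) (nat_lit 23) (.e (nat_lit 98389) (nat_lit 33) (.e (nat_lit 491526) (nat_lit 0) (.e (nat_lit 1908) (nat_lit 129) .nil)))) .nil))) (.nd (nat_lit 5) 
(.lf (nat_lit 210963) (.g (nat_lit 2371) (.e (nat_lit 81956) (nat_lit 23) (.e (nat_lit 98388) (nat_lit 33) (.e (nat_lit 491560) (nat_lit 10) (.e (nat_lit 344126) (nat_lit 25) (.e (nat_lit 556800) (nat_lit 11) .nil))))) (.g (nat_lit 4) .nil .nil))) 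
(.lf (nat_lit 210995) (.g (nat_lit 2856) (.e (nat_lit 81956) (nat_lit 23) (.e (nat_lit 98389) (nat_lit 33) (.e (nat_lit 491563) (nat_lit 12) (.e (nat_lit 385045) (nat_lit 21) (.e (nat_lit 4180) (nat_lit 251) .nil))))) .nil)))) (.nd (nat_lit 4) (.nd (nat_lit 5) 
(.lf (nat_lit 210955) (.g (nat_lit 1480) (.e (nat_lit 81956) (nat_lit 23) (.e (nat_lit 98387) (nat_lit 33) (.e (nat_lit 491566) (nat_lit 12) (.e (nat_lit 385045) (nat_lit 21) .nil)))) .nil)) 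
(.lf (nat_lit 210987) (.g (nat_lit 1596) (.e (nat_lit 81956) (nat_lit 23) (.e (nat_lit 98389) (nat_lit 33) (.e (nat_lit 491562) (nat_lit 12) (.e (nat_lit 385045) (nat_lit 21) .nil)))) .nil))) (.nd (nat_lit 5) 
(.lf (nat_lit 210971) (.g (nat_lit 1623) (.e (nat_lit 81956) (nat_lit 23) (.e (nat_lit 98388) (nat_lit 33) (.e (nat_lit 491566) (nat_lit 12) (.e (nat_lit 385046) (nat_lit 21) .nil)))) .nil)) 
(.lf (nat_lit 211003) (.g (nat_lit 2982) (.e (nat_lit 81956) (nat_lit 23) (.e (nat_lit 98389) (nat_lit 33) (.e (nat_lit 491563) (nat_lit 12) (.e (nat_lit 385053) (nat_lit 21) .nil)))) .nil))))) (.nd (nat_lit 3) (.nd (nat_lit 4) (.nd (nat_lit 5) 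
(.lf (nat_lit 210951) (.g (nat_lit 653) (.e (nat_lit 81956) (nat_lit 23) (.e (nat_lit 98386) (nat_lit 32) (.e (nat_lit 475195) (nat_lit 40) .nil))) .nil)) 
(.lf (nat_lit 210983) (.g (nat_lit 1145) (.e (nat_lit 81956) (nat_lit 23) (.e (nat_lit 98389) (nat_lit 33) (.e (nat_lit 491560) (nat_lit 10) (.e (nat_lit 344087) (nat_lit 18) .nil)))) .nil))) (.nd (nat_lit 5) 
(.lf (nat_lit 210967) (.g (nat_lit 2592) (.e (nat_lit 81956) (nat_lit 23) (.e (nat_lit 98388) (nat_lit 33) (.e (nat_lit 491565) (nat_lit 12) (.e (nat_lit 385074) (nat_lit 31) (.e (nat_lit 573492) (nat_lit 15) .nil))))) (.g (nat_lit 0) .nil .nil))) 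
(.lf (nat_lit 210999) (.g (nat_lit 3282) (.e (nat_lit 81956) (nat_lit 23) (.e (nat_lit 98389) (nat_lit 33) (.e (nat_lit 491563) (nat_lit 12) (.e (nat_lit 385049) (nat_lit 21) .nil)))) .nil)))) (.nd (nat_lit 4) (.nd (nat_lit 5) 
(.lf (nat_lit 210959) (.g (nat_lit 2104) (.e (nat_lit 81956) (nat_lit 23) (.e (nat_lit 98387) (nat_lit 33) (.e (nat_lit 491566) (nat_lit 12) (.e (nat_lit 385075) (nat_lit 32) .nil)))) .nil)) 
(.lf (nat_lit 210991) (.g (nat_lit 4224) (.e (nat_lit 81956) (nat_lit 23) (.e (nat_lit 98389) (nat_lit 33) (.e (nat_lit 491562) (nat_lit 12) (.e (nat_lit 385074) (nat_lit 31) (.e (nat_lit 573492) (nat_lit 15) .nil))))) (.g (nat_lit 0) .nil .nil)))) (.nd (nat_lit 5) 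
(.lf (nat_lit 210975) (.g (nat_lit 1948) (.e (nat_lit 81956) (nat_lit 23) (.e (nat_lit 98388) (nat_lit 33) (.e (nat_lit 491566) (nat_lit 12) (.e (nat_lit 385051) (nat_lit 21) .nil)))) .nil)) 
(.lf (nat_lit 211007) (.g (nat_lit 2989) (.e (nat_lit 81956) (nat_lit 23) (.e (nat_lit 98389) (nat_lit 33) (.e (nat_lit 491565) (nat_lit 12) (.e (nat_lit 385074) (nat_lit 31) (.e (nat_lit 573492) (nat_lit 15) .nil))))) (.g (nat_lit 0) .nil .nil)))))))))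

noncomputable def tv2786 : DT := (.nd (nat_lit 0) (.nd (nat_lit 1) (.nd (nat_lit 2) (.nd (nat_lit 3) (.nd (nat_lit 4) (.nd (nat_lit 5) 
(.lf (nat_lit 211008) (.g (nat_lit 3931) (.e (nat_lit 81956) (nat_lit 23) (.e (nat_lit 98389) (nat_lit 33) (.e (nat_lit 491572) (nat_lit 14) (.e (nat_lit 401425) (nat_lit 2) (.e (nat_lit 196671) (nat_lit 15) .nil))))) (.g (nat_lit 4) .nil .nil))) 
(.lf (nat_lit 211040) (.g (nat_lit 471) (.e (nat_lit 81957) (nat_lit 24) (.e (nat_lit 123182) (nat_lit 264) (.e (nat_lit 1222) (nat_lit 90) .nil))) .nil))) (.nd (nat_lit 5) 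
(.lf (nat_lit 211024) (.g (nat_lit 632) (.e (nat_lit 81957) (nat_lit 24) (.e (nat_lit 123182) (nat_lit 264) (.e (nat_lit 1187) (nat_lit 88) .nil))) .nil)) 
(.lf (nat_lit 211056) (.g (nat_lit 2092) (.e (nat_lit 81957) (nat_lit 24) (.e (nat_lit 123182) (nat_lit 264) (.e (nat_lit 1222) (nat_lit 90) (.e (nat_lit 81957) (nat_lit 24) (.e (nat_lit 123184) (nat_lit 264) (.e (nat_lit 7936) (nat_lit 90) .nil)))))) (.g (nat_lit 4) .nil .nil))))) (.nd (nat_lit 4) (.nd (nat_lit 5) 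
(.lf (nat_lit 211016) (.g (nat_lit 1510) (.e (nat_lit 81957) (nat_lit 24) (.e (nat_lit 130816) (nat_lit 152) (.e (nat_lit 1220) (nat_lit 90) (.e (nat_lit 81950) (nat_lit 21) (.e (nat_lit 57655) (nat_lit 152) (.e (nat_lit 1216) (nat_lit 90) .nil)))))) (.g (nat_lit 4) .nil .nil))) 
(.lf (nat_lit 211048) (.g (nat_lit 1326) (.e (nat_lit 81957) (nat_lit 24) (.e (nat_lit 123182) (nat_lit 264) (.e (nat_lit 1222) (nat_lit 90) (.e (nat_lit 81935) (nat_lit 20) .nil)))) .nil))) (.nd (nat_lit 5) 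
(.lf (nat_lit 211032) (.g (nat_lit 3967) (.e (nat_lit 81957) (nat_lit 24) (.e (nat_lit 123182) (nat_lit 264) (.e (nat_lit 1201) (nat_lit 88) (.e (nat_lit 65610) (nat_lit 10) (.e (nat_lit 344097) (nat_lit 18) (.e (nat_lit 5907) (nat_lit 320) (.e (nat_lit 7936) (nat_lit 90) .nil))))))) (.g (nat_lit 6) .nil .nil))) 
(.lf (nat_lit 211064) (.g (nat_lit 2741) (.e (nat_lit 81957) (nat_lit 24) (.e (nat_lit 123182) (nat_lit 264) (.e (nat_lit 1224) (nat_lit 90) (.e (nat_lit 81947) (nat_lit 20) (.e (nat_lit 2003) (nat_lit 138) (.e (nat_lit 671764) (nat_lit 6) .nil)))))) (.g (nat_lit 4) .nil .nil)))))) (.nd (nat_lit 3) (.nd (nat_lit 4) (.nd (nat_lit 5) 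
(.lf (nat_lit 211012) (.g (nat_lit 641) (.e (nat_lit 89856) (nat_lit 23) (.e (nat_lit 98350) (nat_lit 24) (.e (nat_lit 409647) (nat_lit 18) .nil))) .nil)) 
(.lf (nat_lit 211044) (.g (nat_lit 2385) (.e (nat_lit 81957) (nat_lit 24) (.e (nat_lit 123182) (nat_lit 264) (.e (nat_lit 1222) (nat_lit 90) (.e (nat_lit 81921) (nat_lit 0) (.e (nat_lit 3714) (nat_lit 227) (.e (nat_lit 786176) (nat_lit 6) .nil)))))) (.g (nat_lit 5) .nil .nil)))) (.nd (nat_lit 5) 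
(.lf (nat_lit 211028) (.g (nat_lit 1774) (.e (nat_lit 81957) (nat_lit 24) (.e (nat_lit 123182) (nat_lit 264) (.e (nat_lit 1201) (nat_lit 88) (.e (nat_lit 65599) (nat_lit 9) .nil)))) .nil)) 
(.lf (nat_lit 211060) (.g (nat_lit 4327) (.e (nat_lit 81957) (nat_lit 24) (.e (nat_lit 123182) (nat_lit 264) (.e (nat_lit 1222) (nat_lit 90) (.e (nat_lit 81959) (nat_lit 24) (.e (nat_lit 123182) (nat_lit 264) (.e (nat_lit 1224) (nat_lit 90) .nil)))))) (.g (nat_lit 5) .nil .nil))))) (.nd (nat_lit 4) (.nd (nat_lit 5) 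
(.lf (nat_lit 211020) (.g (nat_lit 1453) (.e (nat_lit 81957) (nat_lit 24) (.e (nat_lit 130816) (nat_lit 255) (.e (nat_lit 229415) (nat_lit 15) (.e (nat_lit 450563) (nat_lit 0) (.e (nat_lit 5117) (nat_lit 292) (.e (nat_lit 1217) (nat_lit 90) .nil)))))) (.g (nat_lit 4) .nil .nil))) 
(.lf (nat_lit 211052) (.g (nat_lit 2772) (.e (nat_lit 81957) (nat_lit 24) (.e (nat_lit 123182) (nat_lit 264) (.e (nat_lit 1222) (nat_lit 90) (.e (nat_lit 81948) (nat_lit 21) (.e (nat_lit 57873) (nat_lit 264) (.e (nat_lit 7936) (nat_lit 90) .nil)))))) (.g (nat_lit 5) .nil .nil)))) (.nd (nat_lit 5) 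
(.lf (nat_lit 211036) (.g (nat_lit 1948) (.e (nat_lit 81957) (nat_lit 24) (.e (nat_lit 123182) (nat_lit 264) (.e (nat_lit 1201) (nat_lit 88) (.e (nat_lit 65619) (nat_lit 10) .nil)))) .nil)) 
(.lf (nat_lit 211068) (.g (nat_lit 4380) (.e (nat_lit 81957) (nat_lit 24) (.e (nat_lit 123182) (nat_lit 264) (.e (nat_lit 1224) (nat_lit 90) (.e (nat_lit 81959) (nat_lit 24) (.e (nat_lit 123182) (nat_lit 264) (.e (nat_lit 1224) (nat_lit 90) .nil)))))) (.g (nat_lit 6) .nil .nil))))))) (.nd (nat_lit 2) (.nd (nat_lit 3) (.nd (nat_lit 4) (.nd (nat_lit 5) 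
(.lf (nat_lit 211010) (.g (nat_lit 1899) (.e (nat_lit 89856) (nat_lit 23) (.e (nat_lit 98350) (nat_lit 24) (.e (nat_lit 409645) (nat_lit 18) (.e (nat_lit 303117) (nat_lit 2) .nil)))) .nil)) 
(.lf (nat_lit 211042) (.g (nat_lit 3111) (.e (nat_lit 81957) (nat_lit 24) (.e (nat_lit 123182) (nat_lit 264) (.e (nat_lit 1222) (nat_lit 90) (.e (nat_lit 81921) (nat_lit 0) (.e (nat_lit 3711) (nat_lit 227) (.e (nat_lit 778325) (nat_lit 6) .nil)))))) (.g (nat_lit 0) .nil .nil)))) (.nd (nat_lit 5) 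
(.lf (nat_lit 211026) (.g (nat_lit 3187) (.e (nat_lit 81957) (nat_lit 24) (.e (nat_lit 123182) (nat_lit 264) (.e (nat_lit 1193) (nat_lit 88) (.e (nat_lit 65623) (nat_lit 12) (.e (nat_lit 385094) (nat_lit 49) (.e (nat_lit 778326) (nat_lit 6) .nil)))))) (.g (nat_lit 0) .nil .nil))) 
(.lf (nat_lit 211058) (.g (nat_lit 1726) (.e (nat_lit 81957) (nat_lit 24) (.e (nat_lit 123182) (nat_lit 264) (.e (nat_lit 1222) (nat_lit 90) (.e (nat_lit 81958) (nat_lit 24) .nil)))) .nil)))) (.nd (nat_lit 4) (.nd (nat_lit 5) 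
(.lf (nat_lit 211018) (.g (nat_lit 2794) (.e (nat_lit 81957) (nat_lit 24) (.e (nat_lit 123160) (nat_lit 254) (.e (nat_lit 163932) (nat_lit 17) (.e (nat_lit 466972) (nat_lit 21) (.e (nat_lit 164305) (nat_lit 226) (.e (nat_lit 7936) (nat_lit 90) .nil)))))) (.g (nat_lit 5) .nil .nil))) 
(.lf (nat_lit 211050) (.g (nat_lit 4339) (.e (nat_lit 81957) (nat_lit 24) (.e (nat_lit 123182) (nat_lit 264) (.e (nat_lit 1222) (nat_lit 90) (.e (nat_lit 81948) (nat_lit 21) (.e (nat_lit 57872) (nat_lit 264) (.e (nat_lit 1221) (nat_lit 90) .nil)))))) (.g (nat_lit 6) .nil .nil)))) (.nd (nat_lit 5) 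
(.lf (nat_lit 211034) (.g (nat_lit 2092) (.e (nat_lit 81957) (nat_lit 24) (.e (nat_lit 123182) (nat_lit 264) (.e (nat_lit 1201) (nat_lit 88) (.e (nat_lit 65617) (nat_lit 10) (.e (nat_lit 344087) (nat_lit 18) .nil))))) .nil)) 
(.lf (nat_lit 211066) (.g (nat_lit 4052) (.e (nat_lit 81957) (nat_lit 24) (.e (nat_lit 123182) (nat_lit 264) (.e (nat_lit 1224) (nat_lit 90) (.e (nat_lit 81957) (nat_lit 24) (.e (nat_lit 123182) (nat_lit 264) (.e (nat_lit 1224) (nat_lit 90) .nil)))))) (.g (nat_lit 5) .nil .nil)))))) (.nd (nat_lit 3) (.nd (nat_lit 4) (.nd (nat_lit 5) 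
(.lf (nat_lit 211014) (.g (nat_lit 588) (.e (nat_lit 89856) (nat_lit 23) (.e (nat_lit 98386) (nat_lit 32) (.e (nat_lit 475207) (nat_lit 41) .nil))) .nil)) 
(.lf (nat_lit 211046) (.g (nat_lit 1734) (.e (nat_lit 81957) (nat_lit 24) (.e (nat_lit 123182) (nat_lit 264) (.e (nat_lit 1222) (nat_lit 90) (.e (nat_lit 81922) (nat_lit 0) .nil)))) .nil))) (.nd (nat_lit 5) 
(.lf (nat_lit 211030) (.g (nat_lit 3811) (.e (nat_lit 81957) (nat_lit 24) (.e (nat_lit 123182) (nat_lit 264) (.e (nat_lit 1201) (nat_lit 88) (.e (nat_lit 65610) (nat_lit 10) (.e (nat_lit 344097) (nat_lit 18) (.e (nat_lit 5906) (nat_lit 320) (.e (nat_lit 7936) (nat_lit 90) .nil))))))) (.g (nat_lit 6) .nil .nil))) 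
(.lf (nat_lit 211062) (.g (nat_lit 490) (.e (nat_lit 81957) (nat_lit 24) (.e (nat_lit 123182) (nat_lit 264) (.e (nat_lit 1224) (nat_lit 90) .nil))) .nil)))) (.nd (nat_lit 4) (.nd (nat_lit 5) 
(.lf (nat_lit 211022) (.g (nat_lit 610) (.e (nat_lit 81957) (nat_lit 24) (.e (nat_lit 123182) (nat_lit 264) (.e (nat_lit 1028) (nat_lit 81) .nil))) .nil)) 
(.lf (nat_lit 211054) (.g (nat_lit 4294) (.e (nat_lit 81957) (nat_lit 24) (.e (nat_lit 123182) (nat_lit 264) (.e (nat_lit 1222) (nat_lit 90) (.e (nat_lit 81957) (nat_lit 24) (.e (nat_lit 123182) (nat_lit 264) (.e (nat_lit 1222) (nat_lit 90) .nil)))))) (.g (nat_lit 0) .nil .nil)))) (.nd (nat_lit 5) 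
(.lf (nat_lit 211038) (.g (nat_lit 4688) (.e (nat_lit 81957) (nat_lit 24) (.e (nat_lit 123182) (nat_lit 264) (.e (nat_lit 1201) (nat_lit 88) (.e (nat_lit 65624) (nat_lit 12) (.e (nat_lit 385093) (nat_lit 49) (.e (nat_lit 778327) (nat_lit 6) .nil)))))) (.g (nat_lit 6) .nil .nil))) 
(.lf (nat_lit 211070) (.g (nat_lit 3745) (.e (nat_lit 81957) (nat_lit 24) (.e (nat_lit 123182) (nat_lit 264) (.e (nat_lit 1224) (nat_lit 90) (.e (nat_lit 81959) (nat_lit 24) (.e (nat_lit 123184) (nat_lit 264) (.e (nat_lit 1224) (nat_lit 90) .nil)))))) (.g (nat_lit 6) .nil .nil)))))))) (.nd (nat_lit 1) (.nd (nat_lit 2) (.nd (nat_lit 3) (.nd (nat_lit 4) (.nd (nat_lit 5) 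
(.lf (nat_lit 211009) (.g (nat_lit 1316) (.e (nat_lit 89856) (nat_lit 23) (.e (nat_lit 98350) (nat_lit 24) (.e (nat_lit 409644) (nat_lit 18) (.e (nat_lit 303117) (nat_lit 2) .nil)))) .nil)) 
(.lf (nat_lit 211041) (.g (nat_lit 1465) (.e (nat_lit 81957) (nat_lit 24) (.e (nat_lit 123182) (nat_lit 264) (.e (nat_lit 1222) (nat_lit 90) (.e (nat_lit 81921) (nat_lit 0) .nil)))) .nil))) (.nd (nat_lit 5) 
(.lf (nat_lit 211025) (.g (nat_lit 2367) (.e (nat_lit 81957) (nat_lit 24) (.e (nat_lit 123182) (nat_lit 264) (.e (nat_lit 1192) (nat_lit 88) (.e (nat_lit 65624) (nat_lit 12) (.e (nat_lit 385092) (nat_lit 49) (.e (nat_lit 778326) (nat_lit 6) .nil)))))) (.g (nat_lit 4) .nil .nil))) 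
(.lf (nat_lit 211057) (.g (nat_lit 2111) (.e (nat_lit 81957) (nat_lit 24) (.e (nat_lit 123182) (nat_lit 264) (.e (nat_lit 1222) (nat_lit 90) (.e (nat_lit 81957) (nat_lit 24) (.e (nat_lit 123185) (nat_lit 264) (.e (nat_lit 7936) (nat_lit 90) .nil)))))) (.g (nat_lit 4) .nil .nil))))) (.nd (nat_lit 4) (.nd (nat_lit 5) 
(.lf (nat_lit 211017) (.g (nat_lit 1411) (.e (nat_lit 81957) (nat_lit 24) (.e (nat_lit 130816) (nat_lit 152) (.e (nat_lit 1220) (nat_lit 90) (.e (nat_lit 81950) (nat_lit 21) (.e (nat_lit 57655) (nat_lit 152) (.e (nat_lit 1217) (nat_lit 90) .nil)))))) (.g (nat_lit 4) .nil .nil))) 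
(.lf (nat_lit 211049) (.g (nat_lit 3215) (.e (nat_lit 81957) (nat_lit 24) (.e (nat_lit 123182) (nat_lit 264) (.e (nat_lit 1222) (nat_lit 90) (.e (nat_lit 81935) (nat_lit 20) (.e (nat_lit 1998) (nat_lit 137) (.e (nat_lit 663569) (nat_lit 6) .nil)))))) (.g (nat_lit 0) .nil .nil)))) (.nd (nat_lit 5) 
(.lf (nat_lit 211033) (.g (nat_lit 1360) (.e (nat_lit 81957) (nat_lit 24) (.e (nat_lit 123182) (nat_lit 264) (.e (nat_lit 1201) (nat_lit 88) (.e (nat_lit 65617) (nat_lit 10) .nil)))) .nil)) 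
(.lf (nat_lit 211065) (.g (nat_lit 3983) (.e (nat_lit 81957) (nat_lit 24) (.e (nat_lit 123182) (nat_lit 264) (.e (nat_lit 1224) (nat_lit 90) (.e (nat_lit 81957) (nat_lit 24) (.e (nat_lit 123182) (nat_lit 264) (.e (nat_lit 1222) (nat_lit 90) .nil)))))) (.g (nat_lit 6) .nil .nil)))))) (.nd (nat_lit 3) (.nd (nat_lit 4) (.nd (nat_lit 5) 
(.lf (nat_lit 211013) (.g (nat_lit 1323) (.e (nat_lit 89856) (nat_lit 23) (.e (nat_lit 98350) (nat_lit 24) (.e (nat_lit 409648) (nat_lit 18) (.e (nat_lit 303117) (nat_lit 2) .nil)))) .nil)) 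
(.lf (nat_lit 211045) (.g (nat_lit 2878) (.e (nat_lit 81957) (nat_lit 24) (.e (nat_lit 123182) (nat_lit 264) (.e (nat_lit 1222) (nat_lit 90) (.e (nat_lit 81921) (nat_lit 0) (.e (nat_lit 3716) (nat_lit 227) (.e (nat_lit 778325) (nat_lit 6) .nil)))))) (.g (nat_lit 0) .nil .nil)))) (.nd (nat_lit 5) 
(.lf (nat_lit 211029) (.g (nat_lit 1982) (.e (nat_lit 81957) (nat_lit 24) (.e (nat_lit 123182) (nat_lit 264) (.e (nat_lit 1201) (nat_lit 88) (.e (nat_lit 65604) (nat_lit 9) .nil)))) .nil)) 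
(.lf (nat_lit 211061) (.g (nat_lit 2903) (.e (nat_lit 81957) (nat_lit 24) (.e (nat_lit 123182) (nat_lit 264) (.e (nat_lit 1222) (nat_lit 90) (.e (nat_lit 81959) (nat_lit 24) (.e (nat_lit 123185) (nat_lit 264) (.e (nat_lit 1222) (nat_lit 90) .nil)))))) (.g (nat_lit 4) .nil .nil))))) (.nd (nat_lit 4) (.nd (nat_lit 5) 
(.lf (nat_lit 211021) (.g (nat_lit 607) (.e (nat_lit 81957) (nat_lit 24) (.e (nat_lit 123182) (nat_lit 264) (.e (nat_lit 982) (nat_lit 81) .nil))) .nil)) 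
(.lf (nat_lit 211053) (.g (nat_lit 1748) (.e (nat_lit 81957) (nat_lit 24) (.e (nat_lit 123182) (nat_lit 264) (.e (nat_lit 1222) (nat_lit 90) (.e (nat_lit 81950) (nat_lit 21) .nil)))) .nil))) (.nd (nat_lit 5) 
(.lf (nat_lit 211037) (.g (nat_lit 4093) (.e (nat_lit 81957) (nat_lit 24) (.e (nat_lit 123182) (nat_lit 264) (.e (nat_lit 1201) (nat_lit 88) (.e (nat_lit 65624) (nat_lit 12) (.e (nat_lit 385092) (nat_lit 49) (.e (nat_lit 778327) (nat_lit 6) .nil)))))) (.g (nat_lit 5) .nil .nil))) 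
(.lf (nat_lit 211069) (.g (nat_lit 3981) (.e (nat_lit 81957) (nat_lit 24) (.e (nat_lit 123182) (nat_lit 264) (.e (nat_lit 1224) (nat_lit 90) (.e (nat_lit 81959) (nat_lit 24) (.e (nat_lit 123184) (nat_lit 264) (.e (nat_lit 1222) (nat_lit 90) .nil)))))) (.g (nat_lit 0) .nil .nil))))))) (.nd (nat_lit 2) (.nd (nat_lit 3) (.nd (nat_lit 4) (.nd (nat_lit 5) 
(.lf (nat_lit 211011) (.g (nat_lit 1738) (.e (nat_lit 89856) (nat_lit 23) (.e (nat_lit 98350) (nat_lit 24) (.e (nat_lit 409646) (nat_lit 18) (.e (nat_lit 303117) (nat_lit 2) .nil)))) .nil)) 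
(.lf (nat_lit 211043) (.g (nat_lit 2496) (.e (nat_lit 81957) (nat_lit 24) (.e (nat_lit 123182) (nat_lit 264) (.e (nat_lit 1222) (nat_lit 90) (.e (nat_lit 81921) (nat_lit 0) (.e (nat_lit 3711) (nat_lit 227) (.e (nat_lit 786176) (nat_lit 6) .nil)))))) (.g (nat_lit 5) .nil .nil)))) (.nd (nat_lit 5) 
(.lf (nat_lit 211027) (.g (nat_lit 564) (.e (nat_lit 81957) (nat_lit 24) (.e (nat_lit 123182) (nat_lit 264) (.e (nat_lit 1201) (nat_lit 88) .nil))) .nil)) 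
(.lf (nat_lit 211059) (.g (nat_lit 1733) (.e (nat_lit 81957) (nat_lit 24) (.e (nat_lit 123182) (nat_lit 264) (.e (nat_lit 1222) (nat_lit 90) (.e (nat_lit 81959) (nat_lit 24) .nil)))) .nil)))) (.nd (nat_lit 4) (.nd (nat_lit 5) 
(.lf (nat_lit 211019) (.g (nat_lit 2502) (.e (nat_lit 81957) (nat_lit 24) (.e (nat_lit 123160) (nat_lit 254) (.e (nat_lit 163932) (nat_lit 17) (.e (nat_lit 466972) (nat_lit 21) (.e (nat_lit 164307) (nat_lit 226) (.e (nat_lit 7936) (nat_lit 90) .nil)))))) (.g (nat_lit 5) .nil .nil))) 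
(.lf (nat_lit 211051) (.g (nat_lit 4126) (.e (nat_lit 81957) (nat_lit 24) (.e (nat_lit 123182) (nat_lit 264) (.e (nat_lit 1222) (nat_lit 90) (.e (nat_lit 81948) (nat_lit 21) (.e (nat_lit 57873) (nat_lit 264) (.e (nat_lit 1221) (nat_lit 90) .nil)))))) (.g (nat_lit 6) .nil .nil)))) (.nd (nat_lit 5) 
(.lf (nat_lit 211035) (.g (nat_lit 2275) (.e (nat_lit 81957) (nat_lit 24) (.e (nat_lit 123182) (nat_lit 264) (.e (nat_lit 1201) (nat_lit 88) (.e (nat_lit 65617) (nat_lit 10) (.e (nat_lit 344097) (nat_lit 18) .nil))))) .nil)) 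
(.lf (nat_lit 211067) (.g (nat_lit 3334) (.e (nat_lit 81957) (nat_lit 24) (.e (nat_lit 123182) (nat_lit 264) (.e (nat_lit 1224) (nat_lit 90) (.e (nat_lit 81957) (nat_lit 24) (.e (nat_lit 123184) (nat_lit 264) (.e (nat_lit 1224) (nat_lit 90) .nil)))))) (.g (nat_lit 5) .nil .nil)))))) (.nd (nat_lit 3) (.nd (nat_lit 4) (.nd (nat_lit 5) 
(.lf (nat_lit 211015) (.g (nat_lit 957) (.e (nat_lit 89856) (nat_lit 23) (.e (nat_lit 98388) (nat_lit 33) (.e (nat_lit 491566) (nat_lit 12) (.e (nat_lit 385073) (nat_lit 31) .nil)))) .nil)) 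
(.lf (nat_lit 211047) (.g (nat_lit 3522) (.e (nat_lit 81957) (nat_lit 24) (.e (nat_lit 123182) (nat_lit 264) (.e (nat_lit 1222) (nat_lit 90) (.e (nat_lit 81924) (nat_lit 0) (.e (nat_lit 3632) (nat_lit 227) (.e (nat_lit 778327) (nat_lit 6) .nil)))))) (.g (nat_lit 0) .nil .nil)))) (.nd (nat_lit 5) 
(.lf (nat_lit 211031) (.g (nat_lit 5627) (.e (nat_lit 81957) (nat_lit 24) (.e (nat_lit 123182) (nat_lit 264) (.e (nat_lit 1201) (nat_lit 88) (.e (nat_lit 65610) (nat_lit 10) (.e (nat_lit 344097) (nat_lit 18) (.e (nat_lit 5907) (nat_lit 320) (.e (nat_lit 1221) (nat_lit 90) .nil))))))) (.g (nat_lit 7) .nil .nil))) 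
(.lf (nat_lit 211063) (.g (nat_lit 1213) (.e (nat_lit 81957) (nat_lit 24) (.e (nat_lit 123182) (nat_lit 264) (.e (nat_lit 1224) (nat_lit 90) (.e (nat_lit 81920) (nat_lit 0) .nil)))) .nil)))) (.nd (nat_lit 4) (.nd (nat_lit 5) 
(.lf (nat_lit 211023) (.g (nat_lit 1419) (.e (nat_lit 81957) (nat_lit 24) (.e (nat_lit 123182) (nat_lit 264) (.e (nat_lit 1028) (nat_lit 81) (.e (nat_lit 1560) (nat_lit 110) (.e (nat_lit 360192) (nat_lit 4) (.e (nat_lit 220928) (nat_lit 6) .nil)))))) (.g (nat_lit 4) .nil .nil))) 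
(.lf (nat_lit 211055) (.g (nat_lit 4096) (.e (nat_lit 81957) (nat_lit 24) (.e (nat_lit 123182) (nat_lit 264) (.e (nat_lit 1222) (nat_lit 90) (.e (nat_lit 81957) (nat_lit 24) (.e (nat_lit 123184) (nat_lit 264) (.e (nat_lit 1222) (nat_lit 90) .nil)))))) (.g (nat_lit 0) .nil .nil)))) (.nd (nat_lit 5) 
(.lf (nat_lit 211039) (.g (nat_lit 632) (.e (nat_lit 81957) (nat_lit 24) (.e (nat_lit 123182) (nat_lit 264) (.e (nat_lit 1218) (nat_lit 90) .nil))) .nil)) 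
(.lf (nat_lit 211071) (.g (nat_lit 1967) (.e (nat_lit 81957) (nat_lit 24) (.e (nat_lit 123182) (nat_lit 264) (.e (nat_lit 1224) (nat_lit 90) (.e (nat_lit 81959) (nat_lit 24) (.e (nat_lit 123184) (nat_lit 264) (.e (nat_lit 7936) (nat_lit 90) .nil)))))) (.g (nat_lit 4) .nil .nil)))))))))

noncomputable def tv2787 : DT := (.nd (nat_lit 0) (.nd (nat_lit 1) (.nd (nat_lit 2) (.nd (nat_lit 3) (.nd (nat_lit 4) (.nd (nat_lit 5) 
(.lf (nat_lit 211072) (.g (nat_lit 2585) (.e (nat_lit 81957) (nat_lit 24) (.e (nat_lit 123183) (nat_lit 264) (.e (nat_lit 1201) (nat_lit 88) (.e (nat_lit 65624) (nat_lit 12) (.e (nat_lit 385092) (nat_lit 49) (.e (nat_lit 778327) (nat_lit 6) .nil)))))) (.g (nat_lit 5) .nil .nil))) 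
(.lf (nat_lit 211104) (.g (nat_lit 1495) (.e (nat_lit 81957) (nat_lit 24) (.e (nat_lit 123184) (nat_lit 264) (.e (nat_lit 1222) (nat_lit 90) (.e (nat_lit 81947) (nat_lit 20) .nil)))) .nil))) (.nd (nat_lit 5) 
(.lf (nat_lit 211088) (.g (nat_lit 2496) (.e (nat_lit 81957) (nat_lit 24) (.e (nat_lit 123184) (nat_lit 264) (.e (nat_lit 1201) (nat_lit 88) (.e (nat_lit 65617) (nat_lit 10) (.e (nat_lit 344169) (nat_lit 40) (.e (nat_lit 671764) (nat_lit 6) .nil)))))) (.g (nat_lit 4) .nil .nil))) 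
(.lf (nat_lit 211120) (.g (nat_lit 2033) (.e (nat_lit 81957) (nat_lit 24) (.e (nat_lit 123184) (nat_lit 264) (.e (nat_lit 1224) (nat_lit 90) (.e (nat_lit 81946) (nat_lit 20) (.e (nat_lit 2003) (nat_lit 138) (.e (nat_lit 671764) (nat_lit 6) .nil)))))) (.g (nat_lit 4) .nil .nil))))) (.nd (nat_lit 4) (.nd (nat_lit 5) 
(.lf (nat_lit 211080) (.g (nat_lit 1313) (.e (nat_lit 81957) (nat_lit 24) (.e (nat_lit 123183) (nat_lit 264) (.e (nat_lit 1222) (nat_lit 90) (.e (nat_lit 81950) (nat_lit 21) .nil)))) .nil)) 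
(.lf (nat_lit 211112) (.g (nat_lit 1800) (.e (nat_lit 81957) (nat_lit 24) (.e (nat_lit 123184) (nat_lit 264) (.e (nat_lit 1222) (nat_lit 90) (.e (nat_lit 81957) (nat_lit 24) (.e (nat_lit 123184) (nat_lit 264) (.e (nat_lit 7936) (nat_lit 90) .nil)))))) (.g (nat_lit 4) .nil .nil)))) (.nd (nat_lit 5) 
(.lf (nat_lit 211096) (.g (nat_lit 2080) (.e (nat_lit 81957) (nat_lit 24) (.e (nat_lit 123184) (nat_lit 264) (.e (nat_lit 1222) (nat_lit 90) (.e (nat_lit 81921) (nat_lit 0) (.e (nat_lit 3714) (nat_lit 227) (.e (nat_lit 786176) (nat_lit 6) .nil)))))) (.g (nat_lit 5) .nil .nil))) 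
(.lf (nat_lit 211128) (.g (nat_lit 2182) (.e (nat_lit 81957) (nat_lit 24) (.e (nat_lit 123184) (nat_lit 264) (.e (nat_lit 1224) (nat_lit 90) (.e (nat_lit 81959) (nat_lit 24) (.e (nat_lit 123185) (nat_lit 264) (.e (nat_lit 1224) (nat_lit 90) .nil)))))) (.g (nat_lit 4) .nil .nil)))))) (.nd (nat_lit 3) (.nd (nat_lit 4) (.nd (nat_lit 5) 
(.lf (nat_lit 211076) (.g (nat_lit 1284) (.e (nat_lit 81957) (nat_lit 24) (.e (nat_lit 123183) (nat_lit 264) (.e (nat_lit 1222) (nat_lit 90) (.e (nat_lit 81933) (nat_lit 20) .nil)))) .nil)) 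
(.lf (nat_lit 211108) (.g (nat_lit 1443) (.e (nat_lit 81957) (nat_lit 24) (.e (nat_lit 123184) (nat_lit 264) (.e (nat_lit 1222) (nat_lit 90) (.e (nat_lit 81950) (nat_lit 21) .nil)))) .nil))) (.nd (nat_lit 5) 
(.lf (nat_lit 211092) (.g (nat_lit 316) (.e (nat_lit 81957) (nat_lit 24) (.e (nat_lit 123184) (nat_lit 264) (.e (nat_lit 1222) (nat_lit 90) .nil))) .nil)) 
(.lf (nat_lit 211124) (.g (nat_lit 2616) (.e (nat_lit 81957) (nat_lit 24) (.e (nat_lit 123184) (nat_lit 264) (.e (nat_lit 1224) (nat_lit 90) (.e (nat_lit 81957) (nat_lit 24) (.e (nat_lit 123184) (nat_lit 264) (.e (nat_lit 1224) (nat_lit 90) .nil)))))) (.g (nat_lit 5) .nil .nil))))) (.nd (nat_lit 4) (.nd (nat_lit 5) 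
(.lf (nat_lit 211084) (.g (nat_lit 1300) (.e (nat_lit 81957) (nat_lit 24) (.e (nat_lit 123183) (nat_lit 264) (.e (nat_lit 1296) (nat_lit 96) (.e (nat_lit 131109) (nat_lit 9) (.e (nat_lit 336332) (nat_lit 19) (.e (nat_lit 220928) (nat_lit 6) .nil)))))) (.g (nat_lit 4) .nil .nil))) 
(.lf (nat_lit 211116) (.g (nat_lit 1442) (.e (nat_lit 81957) (nat_lit 24) (.e (nat_lit 123184) (nat_lit 264) (.e (nat_lit 1222) (nat_lit 90) (.e (nat_lit 81959) (nat_lit 24) .nil)))) .nil))) (.nd (nat_lit 5) 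
(.lf (nat_lit 211100) (.g (nat_lit 1114) (.e (nat_lit 81957) (nat_lit 24) (.e (nat_lit 123184) (nat_lit 264) (.e (nat_lit 1222) (nat_lit 90) (.e (nat_lit 81935) (nat_lit 20) .nil)))) .nil)) 
(.lf (nat_lit 211132) (.g (nat_lit 2020) (.e (nat_lit 81957) (nat_lit 24) (.e (nat_lit 123184) (nat_lit 264) (.e (nat_lit 1296) (nat_lit 96) (.e (nat_lit 131105) (nat_lit 9) (.e (nat_lit 336332) (nat_lit 19) (.e (nat_lit 220928) (nat_lit 6) .nil)))))) (.g (nat_lit 5) .nil .nil))))))) (.nd (nat_lit 2) (.nd (nat_lit 3) (.nd (nat_lit 4) (.nd (nat_lit 5) 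
(.lf (nat_lit 211074) (.g (nat_lit 1630) (.e (nat_lit 81957) (nat_lit 24) (.e (nat_lit 123183) (nat_lit 264) (.e (nat_lit 1222) (nat_lit 90) (.e (nat_lit 81921) (nat_lit 0) (.e (nat_lit 3714) (nat_lit 227) (.e (nat_lit 786176) (nat_lit 6) .nil)))))) (.g (nat_lit 5) .nil .nil))) 
(.lf (nat_lit 211106) (.g (nat_lit 3773) (.e (nat_lit 81957) (nat_lit 24) (.e (nat_lit 123184) (nat_lit 264) (.e (nat_lit 1222) (nat_lit 90) (.e (nat_lit 81948) (nat_lit 21) (.e (nat_lit 57873) (nat_lit 264) (.e (nat_lit 1221) (nat_lit 90) .nil)))))) (.g (nat_lit 6) .nil .nil)))) (.nd (nat_lit 5) 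
(.lf (nat_lit 211090) (.g (nat_lit 2312) (.e (nat_lit 81957) (nat_lit 24) (.e (nat_lit 123184) (nat_lit 264) (.e (nat_lit 1201) (nat_lit 88) (.e (nat_lit 65622) (nat_lit 12) (.e (nat_lit 385094) (nat_lit 49) (.e (nat_lit 778327) (nat_lit 6) .nil)))))) (.g (nat_lit 4) .nil .nil))) 
(.lf (nat_lit 211122) (.g (nat_lit 3673) (.e (nat_lit 81957) (nat_lit 24) (.e (nat_lit 123184) (nat_lit 264) (.e (nat_lit 1224) (nat_lit 90) (.e (nat_lit 81957) (nat_lit 24) (.e (nat_lit 123182) (nat_lit 264) (.e (nat_lit 1222) (nat_lit 90) .nil)))))) (.g (nat_lit 6) .nil .nil))))) (.nd (nat_lit 4) (.nd (nat_lit 5) 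
(.lf (nat_lit 211082) (.g (nat_lit 2592) (.e (nat_lit 81957) (nat_lit 24) (.e (nat_lit 123183) (nat_lit 264) (.e (nat_lit 1222) (nat_lit 90) (.e (nat_lit 81959) (nat_lit 24) (.e (nat_lit 123184) (nat_lit 264) (.e (nat_lit 1222) (nat_lit 90) .nil)))))) (.g (nat_lit 5) .nil .nil))) 
(.lf (nat_lit 211114) (.g (nat_lit 1817) (.e (nat_lit 81957) (nat_lit 24) (.e (nat_lit 123184) (nat_lit 264) (.e (nat_lit 1222) (nat_lit 90) (.e (nat_lit 81957) (nat_lit 24) (.e (nat_lit 123185) (nat_lit 264) (.e (nat_lit 7936) (nat_lit 90) .nil)))))) (.g (nat_lit 4) .nil .nil)))) (.nd (nat_lit 5) 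
(.lf (nat_lit 211098) (.g (nat_lit 1503) (.e (nat_lit 81957) (nat_lit 24) (.e (nat_lit 123184) (nat_lit 264) (.e (nat_lit 1222) (nat_lit 90) (.e (nat_lit 81922) (nat_lit 0) .nil)))) .nil)) 
(.lf (nat_lit 211130) (.g (nat_lit 324) (.e (nat_lit 81957) (nat_lit 24) (.e (nat_lit 123184) (nat_lit 264) (.e (nat_lit 1296) (nat_lit 96) .nil))) .nil))))) (.nd (nat_lit 3) (.nd (nat_lit 4) (.nd (nat_lit 5) 
(.lf (nat_lit 211078) (.g (nat_lit 3329) (.e (nat_lit 81957) (nat_lit 24) (.e (nat_lit 123183) (nat_lit 264) (.e (nat_lit 1222) (nat_lit 90) (.e (nat_lit 81948) (nat_lit 21) (.e (nat_lit 57873) (nat_lit 264) (.e (nat_lit 1221) (nat_lit 90) .nil)))))) (.g (nat_lit 6) .nil .nil))) 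
(.lf (nat_lit 211110) (.g (nat_lit 2091) (.e (nat_lit 81957) (nat_lit 24) (.e (nat_lit 123184) (nat_lit 264) (.e (nat_lit 1222) (nat_lit 90) (.e (nat_lit 81950) (nat_lit 21) (.e (nat_lit 57873) (nat_lit 264) .nil))))) .nil))) (.nd (nat_lit 5) 
(.lf (nat_lit 211094) (.g (nat_lit 2915) (.e (nat_lit 81957) (nat_lit 24) (.e (nat_lit 123184) (nat_lit 264) (.e (nat_lit 1222) (nat_lit 90) (.e (nat_lit 81921) (nat_lit 0) (.e (nat_lit 3711) (nat_lit 227) (.e (nat_lit 778325) (nat_lit 6) .nil)))))) (.g (nat_lit 0) .nil .nil))) 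
(.lf (nat_lit 211126) (.g (nat_lit 3424) (.e (nat_lit 81957) (nat_lit 24) (.e (nat_lit 123184) (nat_lit 264) (.e (nat_lit 1224) (nat_lit 90) (.e (nat_lit 81959) (nat_lit 24) (.e (nat_lit 123184) (nat_lit 264) (.e (nat_lit 1222) (nat_lit 90) .nil)))))) (.g (nat_lit 6) .nil .nil))))) (.nd (nat_lit 4) (.nd (nat_lit 5) 
(.lf (nat_lit 211086) (.g (nat_lit 2939) (.e (nat_lit 81957) (nat_lit 24) (.e (nat_lit 123184) (nat_lit 264) (.e (nat_lit 1201) (nat_lit 88) (.e (nat_lit 65610) (nat_lit 10) (.e (nat_lit 344097) (nat_lit 18) (.e (nat_lit 5906) (nat_lit 320) (.e (nat_lit 7936) (nat_lit 90) .nil))))))) (.g (nat_lit 6) .nil .nil))) 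
(.lf (nat_lit 211118) (.g (nat_lit 549) (.e (nat_lit 81957) (nat_lit 24) (.e (nat_lit 123184) (nat_lit 264) (.e (nat_lit 1223) (nat_lit 90) .nil))) .nil))) (.nd (nat_lit 5) 
(.lf (nat_lit 211102) (.g (nat_lit 1495) (.e (nat_lit 81957) (nat_lit 24) (.e (nat_lit 123184) (nat_lit 264) (.e (nat_lit 1222) (nat_lit 90) (.e (nat_lit 81939) (nat_lit 20) .nil)))) .nil)) 
(.lf (nat_lit 211134) (.g (nat_lit 2711) (.e (nat_lit 81957) (nat_lit 24) (.e (nat_lit 123184) (nat_lit 264) (.e (nat_lit 1296) (nat_lit 96) (.e (nat_lit 131123) (nat_lit 12) (.e (nat_lit 385094) (nat_lit 49) (.e (nat_lit 778326) (nat_lit 6) .nil)))))) (.g (nat_lit 0) .nil .nil)))))))) (.nd (nat_lit 1) (.nd (nat_lit 2) (.nd (nat_lit 3) (.nd (nat_lit 4) (.nd (nat_lit 5) 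
(.lf (nat_lit 211073) (.g (nat_lit 1741) (.e (nat_lit 81957) (nat_lit 24) (.e (nat_lit 123183) (nat_lit 264) (.e (nat_lit 1222) (nat_lit 90) (.e (nat_lit 81921) (nat_lit 0) (.e (nat_lit 3711) (nat_lit 227) (.e (nat_lit 786176) (nat_lit 6) .nil)))))) (.g (nat_lit 5) .nil .nil))) 
(.lf (nat_lit 211105) (.g (nat_lit 4007) (.e (nat_lit 81957) (nat_lit 24) (.e (nat_lit 123184) (nat_lit 264) (.e (nat_lit 1222) (nat_lit 90) (.e (nat_lit 81948) (nat_lit 21) (.e (nat_lit 57872) (nat_lit 264) (.e (nat_lit 1221) (nat_lit 90) .nil)))))) (.g (nat_lit 6) .nil .nil)))) (.nd (nat_lit 5) 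
(.lf (nat_lit 211089) (.g (nat_lit 1698) (.e (nat_lit 81957) (nat_lit 24) (.e (nat_lit 123184) (nat_lit 264) (.e (nat_lit 1201) (nat_lit 88) (.e (nat_lit 65622) (nat_lit 12) (.e (nat_lit 385092) (nat_lit 49) .nil))))) .nil)) 
(.lf (nat_lit 211121) (.g (nat_lit 2241) (.e (nat_lit 81957) (nat_lit 24) (.e (nat_lit 123184) (nat_lit 264) (.e (nat_lit 1224) (nat_lit 90) (.e (nat_lit 81947) (nat_lit 20) (.e (nat_lit 2003) (nat_lit 138) (.e (nat_lit 671764) (nat_lit 6) .nil)))))) (.g (nat_lit 4) .nil .nil))))) (.nd (nat_lit 4) (.nd (nat_lit 5) 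
(.lf (nat_lit 211081) (.g (nat_lit 1374) (.e (nat_lit 81957) (nat_lit 24) (.e (nat_lit 123183) (nat_lit 264) (.e (nat_lit 1222) (nat_lit 90) (.e (nat_lit 81957) (nat_lit 24) (.e (nat_lit 123185) (nat_lit 264) (.e (nat_lit 7936) (nat_lit 90) .nil)))))) (.g (nat_lit 4) .nil .nil))) 
(.lf (nat_lit 211113) (.g (nat_lit 2957) (.e (nat_lit 81957) (nat_lit 24) (.e (nat_lit 123184) (nat_lit 264) (.e (nat_lit 1222) (nat_lit 90) (.e (nat_lit 81957) (nat_lit 24) (.e (nat_lit 123185) (nat_lit 264) (.e (nat_lit 1224) (nat_lit 90) .nil)))))) (.g (nat_lit 0) .nil .nil)))) (.nd (nat_lit 5) 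
(.lf (nat_lit 211097) (.g (nat_lit 2677) (.e (nat_lit 81957) (nat_lit 24) (.e (nat_lit 123184) (nat_lit 264) (.e (nat_lit 1222) (nat_lit 90) (.e (nat_lit 81921) (nat_lit 0) (.e (nat_lit 3716) (nat_lit 227) (.e (nat_lit 778325) (nat_lit 6) .nil)))))) (.g (nat_lit 0) .nil .nil))) 
(.lf (nat_lit 211129) (.g (nat_lit 299) (.e (nat_lit 81957) (nat_lit 24) (.e (nat_lit 123184) (nat_lit 264) (.e (nat_lit 7936) (nat_lit 90) .nil))) .nil))))) (.nd (nat_lit 3) (.nd (nat_lit 4) (.nd (nat_lit 5) 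
(.lf (nat_lit 211077) (.g (nat_lit 3561) (.e (nat_lit 81957) (nat_lit 24) (.e (nat_lit 123183) (nat_lit 264) (.e (nat_lit 1222) (nat_lit 90) (.e (nat_lit 81948) (nat_lit 21) (.e (nat_lit 57872) (nat_lit 264) (.e (nat_lit 1221) (nat_lit 90) .nil)))))) (.g (nat_lit 6) .nil .nil))) 
(.lf (nat_lit 211109) (.g (nat_lit 2554) (.e (nat_lit 81957) (nat_lit 24) (.e (nat_lit 123184) (nat_lit 264) (.e (nat_lit 1222) (nat_lit 90) (.e (nat_lit 81950) (nat_lit 21) (.e (nat_lit 57872) (nat_lit 264) (.e (nat_lit 1219) (nat_lit 90) .nil)))))) (.g (nat_lit 4) .nil .nil)))) (.nd (nat_lit 5) 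
(.lf (nat_lit 211093) (.g (nat_lit 1495) (.e (nat_lit 81957) (nat_lit 24) (.e (nat_lit 123184) (nat_lit 264) (.e (nat_lit 1222) (nat_lit 90) (.e (nat_lit 81920) (nat_lit 0) .nil)))) .nil)) 
(.lf (nat_lit 211125) (.g (nat_lit 3792) (.e (nat_lit 81957) (nat_lit 24) (.e (nat_lit 123184) (nat_lit 264) (.e (nat_lit 1224) (nat_lit 90) (.e (nat_lit 81959) (nat_lit 24) (.e (nat_lit 123182) (nat_lit 264) (.e (nat_lit 1222) (nat_lit 90) .nil)))))) (.g (nat_lit 6) .nil .nil))))) (.nd (nat_lit 4) (.nd (nat_lit 5) 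
(.lf (nat_lit 211085) (.g (nat_lit 533) (.e (nat_lit 81957) (nat_lit 24) (.e (nat_lit 123184) (nat_lit 264) (.e (nat_lit 1193) (nat_lit 88) .nil))) .nil)) 
(.lf (nat_lit 211117) (.g (nat_lit 3105) (.e (nat_lit 81957) (nat_lit 24) (.e (nat_lit 123184) (nat_lit 264) (.e (nat_lit 1222) (nat_lit 90) (.e (nat_lit 81959) (nat_lit 24) (.e (nat_lit 123184) (nat_lit 264) (.e (nat_lit 1222) (nat_lit 90) .nil)))))) (.g (nat_lit 5) .nil .nil)))) (.nd (nat_lit 5) 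
(.lf (nat_lit 211101) (.g (nat_lit 1495) (.e (nat_lit 81957) (nat_lit 24) (.e (nat_lit 123184) (nat_lit 264) (.e (nat_lit 1222) (nat_lit 90) (.e (nat_lit 81938) (nat_lit 20) .nil)))) .nil)) 
(.lf (nat_lit 211133) (.g (nat_lit 2178) (.e (nat_lit 81957) (nat_lit 24) (.e (nat_lit 123184) (nat_lit 264) (.e (nat_lit 1296) (nat_lit 96) (.e (nat_lit 131109) (nat_lit 9) (.e (nat_lit 336332) (nat_lit 19) (.e (nat_lit 220928) (nat_lit 6) .nil)))))) (.g (nat_lit 5) .nil .nil))))))) (.nd (nat_lit 2) (.nd (nat_lit 3) (.nd (nat_lit 4) (.nd (nat_lit 5) 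
(.lf (nat_lit 211075) (.g (nat_lit 1288) (.e (nat_lit 81957) (nat_lit 24) (.e (nat_lit 123183) (nat_lit 264) (.e (nat_lit 1222) (nat_lit 90) (.e (nat_lit 81922) (nat_lit 0) .nil)))) .nil)) 
(.lf (nat_lit 211107) (.g (nat_lit 2523) (.e (nat_lit 81957) (nat_lit 24) (.e (nat_lit 123184) (nat_lit 264) (.e (nat_lit 1222) (nat_lit 90) (.e (nat_lit 81948) (nat_lit 21) (.e (nat_lit 57873) (nat_lit 264) (.e (nat_lit 7936) (nat_lit 90) .nil)))))) (.g (nat_lit 5) .nil .nil)))) (.nd (nat_lit 5) 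
(.lf (nat_lit 211091) (.g (nat_lit 2930) (.e (nat_lit 81957) (nat_lit 24) (.e (nat_lit 123184) (nat_lit 264) (.e (nat_lit 1201) (nat_lit 88) (.e (nat_lit 65624) (nat_lit 12) (.e (nat_lit 385092) (nat_lit 49) (.e (nat_lit 778327) (nat_lit 6) .nil)))))) (.g (nat_lit 5) .nil .nil))) 
(.lf (nat_lit 211123) (.g (nat_lit 3258) (.e (nat_lit 81957) (nat_lit 24) (.e (nat_lit 123184) (nat_lit 264) (.e (nat_lit 1224) (nat_lit 90) (.e (nat_lit 81957) (nat_lit 24) (.e (nat_lit 123184) (nat_lit 264) (.e (nat_lit 1222) (nat_lit 90) .nil)))))) (.g (nat_lit 6) .nil .nil))))) (.nd (nat_lit 4) (.nd (nat_lit 5) 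
(.lf (nat_lit 211083) (.g (nat_lit 282) (.e (nat_lit 81957) (nat_lit 24) (.e (nat_lit 123183) (nat_lit 264) (.e (nat_lit 7936) (nat_lit 90) .nil))) .nil)) 
(.lf (nat_lit 211115) (.g (nat_lit 1495) (.e (nat_lit 81957) (nat_lit 24) (.e (nat_lit 123184) (nat_lit 264) (.e (nat_lit 1222) (nat_lit 90) (.e (nat_lit 81958) (nat_lit 24) .nil)))) .nil))) (.nd (nat_lit 5) 
(.lf (nat_lit 211099) (.g (nat_lit 3218) (.e (nat_lit 81957) (nat_lit 24) (.e (nat_lit 123184) (nat_lit 264) (.e (nat_lit 1222) (nat_lit 90) (.e (nat_lit 81924) (nat_lit 0) (.e (nat_lit 3632) (nat_lit 227) (.e (nat_lit 778327) (nat_lit 6) .nil)))))) (.g (nat_lit 0) .nil .nil))) 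
(.lf (nat_lit 211131) (.g (nat_lit 1049) (.e (nat_lit 81957) (nat_lit 24) (.e (nat_lit 123184) (nat_lit 264) (.e (nat_lit 1296) (nat_lit 96) (.e (nat_lit 131104) (nat_lit 9) .nil)))) .nil))))) (.nd (nat_lit 3) (.nd (nat_lit 4) (.nd (nat_lit 5) 
(.lf (nat_lit 211079) (.g (nat_lit 2146) (.e (nat_lit 81957) (nat_lit 24) (.e (nat_lit 123183) (nat_lit 264) (.e (nat_lit 1222) (nat_lit 90) (.e (nat_lit 81948) (nat_lit 21) (.e (nat_lit 57873) (nat_lit 264) (.e (nat_lit 7936) (nat_lit 90) .nil)))))) (.g (nat_lit 5) .nil .nil))) 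
(.lf (nat_lit 211111) (.g (nat_lit 1110) (.e (nat_lit 81957) (nat_lit 24) (.e (nat_lit 123184) (nat_lit 264) (.e (nat_lit 1222) (nat_lit 90) (.e (nat_lit 81957) (nat_lit 24) .nil)))) .nil))) (.nd (nat_lit 5) 
(.lf (nat_lit 211095) (.g (nat_lit 2195) (.e (nat_lit 81957) (nat_lit 24) (.e (nat_lit 123184) (nat_lit 264) (.e (nat_lit 1222) (nat_lit 90) (.e (nat_lit 81921) (nat_lit 0) (.e (nat_lit 3711) (nat_lit 227) (.e (nat_lit 786176) (nat_lit 6) .nil)))))) (.g (nat_lit 5) .nil .nil))) 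
(.lf (nat_lit 211127) (.g (nat_lit 2780) (.e (nat_lit 81957) (nat_lit 24) (.e (nat_lit 123184) (nat_lit 264) (.e (nat_lit 1224) (nat_lit 90) (.e (nat_lit 81959) (nat_lit 24) (.e (nat_lit 123184) (nat_lit 264) (.e (nat_lit 1224) (nat_lit 90) .nil)))))) (.g (nat_lit 5) .nil .nil))))) (.nd (nat_lit 4) (.nd (nat_lit 5) 
(.lf (nat_lit 211087) (.g (nat_lit 3095) (.e (nat_lit 81957) (nat_lit 24) (.e (nat_lit 123184) (nat_lit 264) (.e (nat_lit 1201) (nat_lit 88) (.e (nat_lit 65610) (nat_lit 10) (.e (nat_lit 344097) (nat_lit 18) (.e (nat_lit 5907) (nat_lit 320) (.e (nat_lit 7936) (nat_lit 90) .nil))))))) (.g (nat_lit 6) .nil .nil))) 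
(.lf (nat_lit 211119) (.g (nat_lit 1014) (.e (nat_lit 81957) (nat_lit 24) (.e (nat_lit 123184) (nat_lit 264) (.e (nat_lit 1224) (nat_lit 90) (.e (nat_lit 81920) (nat_lit 0) .nil)))) .nil))) (.nd (nat_lit 5) 
(.lf (nat_lit 211103) (.g (nat_lit 1495) (.e (nat_lit 81957) (nat_lit 24) (.e (nat_lit 123184) (nat_lit 264) (.e (nat_lit 1222) (nat_lit 90) (.e (nat_lit 81946) (nat_lit 20) .nil)))) .nil)) 
(.lf (nat_lit 211135) (.g (nat_lit 3358) (.e (nat_lit 81957) (nat_lit 24) (.e (nat_lit 123185) (nat_lit 264) (.e (nat_lit 1201) (nat_lit 88) (.e (nat_lit 65610) (nat_lit 10) (.e (nat_lit 344169) (nat_lit 40) (.e (nat_lit 671764) (nat_lit 6) .nil)))))) (.g (nat_lit 0) .nil .nil)))))))))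

noncomputable def tv2788 : DT := (.nd (nat_lit 0) (.nd (nat_lit 1) (.nd (nat_lit 2) (.nd (nat_lit 3) (.nd (nat_lit 4) (.nd (nat_lit 5) 
(.lf (nat_lit 211136) (.g (nat_lit 2840) (.e (nat_lit 81957) (nat_lit 24) (.e (nat_lit 123185) (nat_lit 264) (.e (nat_lit 1201) (nat_lit 88) (.e (nat_lit 65617) (nat_lit 10) (.e (nat_lit 344169) (nat_lit 40) (.e (nat_lit 671764) (nat_lit 6) .nil)))))) (.g (nat_lit 0) .nil .nil))) 
(.lf (nat_lit 211168) (.g (nat_lit 1083) (.e (nat_lit 81957) (nat_lit 24) (.e (nat_lit 123194) (nat_lit 266) (.e (nat_lit 57437) (nat_lit 17) (.e (nat_lit 376859) (nat_lit 21) .nil)))) .nil))) (.nd (nat_lit 5) 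
(.lf (nat_lit 211152) (.g (nat_lit 2253) (.e (nat_lit 81957) (nat_lit 24) (.e (nat_lit 123185) (nat_lit 264) (.e (nat_lit 1224) (nat_lit 90) (.e (nat_lit 81922) (nat_lit 0) (.e (nat_lit 3632) (nat_lit 227) (.e (nat_lit 778326) (nat_lit 6) .nil)))))) (.g (nat_lit 0) .nil .nil))) 
(.lf (nat_lit 211184) (.g (nat_lit 1799) (.e (nat_lit 81957) (nat_lit 24) (.e (nat_lit 123195) (nat_lit 266) (.e (nat_lit 57419) (nat_lit 12) (.e (nat_lit 336194) (nat_lit 12) (.e (nat_lit 385100) (nat_lit 49) (.e (nat_lit 778325) (nat_lit 6) .nil)))))) (.g (nat_lit 4) .nil .nil))))) (.nd (nat_lit 4) (.nd (nat_lit 5) 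
(.lf (nat_lit 211144) (.g (nat_lit 2485) (.e (nat_lit 81957) (nat_lit 24) (.e (nat_lit 123185) (nat_lit 264) (.e (nat_lit 1222) (nat_lit 90) (.e (nat_lit 81924) (nat_lit 0) (.e (nat_lit 3632) (nat_lit 227) (.e (nat_lit 778327) (nat_lit 6) .nil)))))) (.g (nat_lit 0) .nil .nil))) 
(.lf (nat_lit 211176) (.g (nat_lit 1285) (.e (nat_lit 81957) (nat_lit 24) (.e (nat_lit 123195) (nat_lit 266) (.e (nat_lit 57412) (nat_lit 12) (.e (nat_lit 336176) (nat_lit 10) .nil)))) .nil))) (.nd (nat_lit 5) 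
(.lf (nat_lit 211160) (.g (nat_lit 1455) (.e (nat_lit 81957) (nat_lit 24) (.e (nat_lit 123185) (nat_lit 264) (.e (nat_lit 1296) (nat_lit 96) (.e (nat_lit 131105) (nat_lit 9) (.e (nat_lit 336332) (nat_lit 19) (.e (nat_lit 220928) (nat_lit 6) .nil)))))) (.g (nat_lit 5) .nil .nil))) 
(.lf (nat_lit 211192) (.g (nat_lit 354) (.e (nat_lit 81957) (nat_lit 24) (.e (nat_lit 123195) (nat_lit 266) (.e (nat_lit 57424) (nat_lit 14) .nil))) .nil))))) (.nd (nat_lit 3) (.nd (nat_lit 4) (.nd (nat_lit 5) 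
(.lf (nat_lit 211140) (.g (nat_lit 2992) (.e (nat_lit 81957) (nat_lit 24) (.e (nat_lit 123185) (nat_lit 264) (.e (nat_lit 1201) (nat_lit 88) (.e (nat_lit 65624) (nat_lit 12) (.e (nat_lit 385094) (nat_lit 49) (.e (nat_lit 778327) (nat_lit 6) .nil)))))) (.g (nat_lit 0) .nil .nil))) 
(.lf (nat_lit 211172) (.g (nat_lit 1945) (.e (nat_lit 81957) (nat_lit 24) (.e (nat_lit 123195) (nat_lit 266) (.e (nat_lit 57406) (nat_lit 12) (.e (nat_lit 336208) (nat_lit 12) .nil)))) .nil))) (.nd (nat_lit 5) 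
(.lf (nat_lit 211156) (.g (nat_lit 2448) (.e (nat_lit 81957) (nat_lit 24) (.e (nat_lit 123185) (nat_lit 264) (.e (nat_lit 1224) (nat_lit 90) (.e (nat_lit 81957) (nat_lit 24) (.e (nat_lit 123183) (nat_lit 264) (.e (nat_lit 1222) (nat_lit 90) .nil)))))) (.g (nat_lit 0) .nil .nil))) 
(.lf (nat_lit 211188) (.g (nat_lit 1288) (.e (nat_lit 81957) (nat_lit 24) (.e (nat_lit 123195) (nat_lit 266) (.e (nat_lit 57423) (nat_lit 14) (.e (nat_lit 352262) (nat_lit 0) .nil)))) .nil)))) (.nd (nat_lit 4) (.nd (nat_lit 5) 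
(.lf (nat_lit 211148) (.g (nat_lit 3483) (.e (nat_lit 81957) (nat_lit 24) (.e (nat_lit 123185) (nat_lit 264) (.e (nat_lit 1222) (nat_lit 90) (.e (nat_lit 81948) (nat_lit 21) (.e (nat_lit 57872) (nat_lit 264) (.e (nat_lit 1219) (nat_lit 90) .nil)))))) (.g (nat_lit 0) .nil .nil))) 
(.lf (nat_lit 211180) (.g (nat_lit 1646) (.e (nat_lit 81957) (nat_lit 24) (.e (nat_lit 123195) (nat_lit 266) (.e (nat_lit 57418) (nat_lit 12) (.e (nat_lit 336194) (nat_lit 12) (.e (nat_lit 385096) (nat_lit 49) .nil))))) .nil))) (.nd (nat_lit 5) 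
(.lf (nat_lit 211164) (.g (nat_lit 3085) (.e (nat_lit 81957) (nat_lit 24) (.e (nat_lit 123194) (nat_lit 266) (.e (nat_lit 57424) (nat_lit 14) (.e (nat_lit 352318) (nat_lit 24) (.e (nat_lit 123182) (nat_lit 264) (.e (nat_lit 1224) (nat_lit 90) .nil)))))) (.g (nat_lit 5) .nil .nil))) 
(.lf (nat_lit 211196) (.g (nat_lit 4273) (.e (nat_lit 81957) (nat_lit 24) (.e (nat_lit 123195) (nat_lit 266) (.e (nat_lit 57424) (nat_lit 14) (.e (nat_lit 352318) (nat_lit 24) (.e (nat_lit 123184) (nat_lit 264) (.e (nat_lit 1224) (nat_lit 90) .nil)))))) (.g (nat_lit 0) .nil .nil))))))) (.nd (nat_lit 2) (.nd (nat_lit 3) (.nd (nat_lit 4) (.nd (nat_lit 5) 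
(.lf (nat_lit 211138) (.g (nat_lit 2451) (.e (nat_lit 81957) (nat_lit 24) (.e (nat_lit 123185) (nat_lit 264) (.e (nat_lit 1201) (nat_lit 88) (.e (nat_lit 65624) (nat_lit 12) (.e (nat_lit 385092) (nat_lit 49) (.e (nat_lit 778327) (nat_lit 6) .nil)))))) (.g (nat_lit 5) .nil .nil))) 
(.lf (nat_lit 211170) (.g (nat_lit 1806) (.e (nat_lit 81957) (nat_lit 24) (.e (nat_lit 123195) (nat_lit 266) (.e (nat_lit 57406) (nat_lit 12) (.e (nat_lit 336120) (nat_lit 9) .nil)))) .nil))) (.nd (nat_lit 5) 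
(.lf (nat_lit 211154) (.g (nat_lit 2351) (.e (nat_lit 81957) (nat_lit 24) (.e (nat_lit 123185) (nat_lit 264) (.e (nat_lit 1224) (nat_lit 90) (.e (nat_lit 81946) (nat_lit 20) (.e (nat_lit 2005) (nat_lit 138) (.e (nat_lit 671764) (nat_lit 6) .nil)))))) (.g (nat_lit 0) .nil .nil))) 
(.lf (nat_lit 211186) (.g (nat_lit 505) (.e (nat_lit 81957) (nat_lit 24) (.e (nat_lit 123195) (nat_lit 266) (.e (nat_lit 57423) (nat_lit 14) .nil))) .nil)))) (.nd (nat_lit 4) (.nd (nat_lit 5) 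
(.lf (nat_lit 211146) (.g (nat_lit 2504) (.e (nat_lit 81957) (nat_lit 24) (.e (nat_lit 123185) (nat_lit 264) (.e (nat_lit 1222) (nat_lit 90) (.e (nat_lit 81943) (nat_lit 20) (.e (nat_lit 2005) (nat_lit 138) (.e (nat_lit 671764) (nat_lit 6) .nil)))))) (.g (nat_lit 0) .nil .nil))) 
(.lf (nat_lit 211178) (.g (nat_lit 1389) (.e (nat_lit 81957) (nat_lit 24) (.e (nat_lit 123195) (nat_lit 266) (.e (nat_lit 57417) (nat_lit 12) (.e (nat_lit 336118) (nat_lit 9) .nil)))) .nil))) (.nd (nat_lit 5) 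
(.lf (nat_lit 211162) (.g (nat_lit 1645) (.e (nat_lit 81957) (nat_lit 24) (.e (nat_lit 123194) (nat_lit 266) (.e (nat_lit 57411) (nat_lit 12) (.e (nat_lit 336208) (nat_lit 12) (.e (nat_lit 385094) (nat_lit 49) .nil))))) .nil)) 
(.lf (nat_lit 211194) (.g (nat_lit 3896) (.e (nat_lit 81957) (nat_lit 24) (.e (nat_lit 123195) (nat_lit 266) (.e (nat_lit 57424) (nat_lit 14) (.e (nat_lit 352318) (nat_lit 24) (.e (nat_lit 123183) (nat_lit 264) (.e (nat_lit 1222) (nat_lit 90) .nil)))))) (.g (nat_lit 0) .nil .nil)))))) (.nd (nat_lit 3) (.nd (nat_lit 4) (.nd (nat_lit 5) 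
(.lf (nat_lit 211142) (.g (nat_lit 2111) (.e (nat_lit 81957) (nat_lit 24) (.e (nat_lit 123185) (nat_lit 264) (.e (nat_lit 1222) (nat_lit 90) (.e (nat_lit 81924) (nat_lit 0) (.e (nat_lit 3629) (nat_lit 227) (.e (nat_lit 778326) (nat_lit 6) .nil)))))) (.g (nat_lit 0) .nil .nil))) 
(.lf (nat_lit 211174) (.g (nat_lit 2295) (.e (nat_lit 81957) (nat_lit 24) (.e (nat_lit 123195) (nat_lit 266) (.e (nat_lit 57409) (nat_lit 12) (.e (nat_lit 336208) (nat_lit 12) (.e (nat_lit 385094) (nat_lit 49) .nil))))) .nil))) (.nd (nat_lit 5) 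
(.lf (nat_lit 211158) (.g (nat_lit 2819) (.e (nat_lit 81957) (nat_lit 24) (.e (nat_lit 123185) (nat_lit 264) (.e (nat_lit 1224) (nat_lit 90) (.e (nat_lit 81959) (nat_lit 24) (.e (nat_lit 123183) (nat_lit 264) (.e (nat_lit 1222) (nat_lit 90) .nil)))))) (.g (nat_lit 6) .nil .nil))) 
(.lf (nat_lit 211190) (.g (nat_lit 1747) (.e (nat_lit 81957) (nat_lit 24) (.e (nat_lit 123195) (nat_lit 266) (.e (nat_lit 57423) (nat_lit 14) (.e (nat_lit 352309) (nat_lit 21) .nil)))) .nil)))) (.nd (nat_lit 4) (.nd (nat_lit 5) 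
(.lf (nat_lit 211150) (.g (nat_lit 2413) (.e (nat_lit 81957) (nat_lit 24) (.e (nat_lit 123185) (nat_lit 264) (.e (nat_lit 1222) (nat_lit 90) (.e (nat_lit 81959) (nat_lit 24) (.e (nat_lit 123184) (nat_lit 264) (.e (nat_lit 1222) (nat_lit 90) .nil)))))) (.g (nat_lit 5) .nil .nil))) 
(.lf (nat_lit 211182) (.g (nat_lit 2322) (.e (nat_lit 81957) (nat_lit 24) (.e (nat_lit 123195) (nat_lit 266) (.e (nat_lit 57419) (nat_lit 12) (.e (nat_lit 336076) (nat_lit 9) (.e (nat_lit 336332) (nat_lit 19) (.e (nat_lit 220928) (nat_lit 6) .nil)))))) (.g (nat_lit 5) .nil .nil)))) (.nd (nat_lit 5) 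
(.lf (nat_lit 211166) (.g (nat_lit 3531) (.e (nat_lit 81957) (nat_lit 24) (.e (nat_lit 123194) (nat_lit 266) (.e (nat_lit 57424) (nat_lit 14) (.e (nat_lit 352318) (nat_lit 24) (.e (nat_lit 123184) (nat_lit 264) (.e (nat_lit 1222) (nat_lit 90) .nil)))))) (.g (nat_lit 0) .nil .nil))) 
(.lf (nat_lit 211198) (.g (nat_lit 2331) (.e (nat_lit 81957) (nat_lit 24) (.e (nat_lit 123195) (nat_lit 266) (.e (nat_lit 57424) (nat_lit 14) (.e (nat_lit 352318) (nat_lit 24) (.e (nat_lit 123185) (nat_lit 264) (.e (nat_lit 7936) (nat_lit 90) .nil)))))) (.g (nat_lit 4) .nil .nil)))))))) (.nd (nat_lit 1) (.nd (nat_lit 2) (.nd (nat_lit 3) (.nd (nat_lit 4) (.nd (nat_lit 5) 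
(.lf (nat_lit 211137) (.g (nat_lit 2650) (.e (nat_lit 81957) (nat_lit 24) (.e (nat_lit 123185) (nat_lit 264) (.e (nat_lit 1201) (nat_lit 88) (.e (nat_lit 65622) (nat_lit 12) (.e (nat_lit 385093) (nat_lit 49) (.e (nat_lit 778327) (nat_lit 6) .nil)))))) (.g (nat_lit 0) .nil .nil))) 
(.lf (nat_lit 211169) (.g (nat_lit 1103) (.e (nat_lit 81957) (nat_lit 24) (.e (nat_lit 123195) (nat_lit 266) (.e (nat_lit 57404) (nat_lit 12) (.e (nat_lit 336205) (nat_lit 12) .nil)))) .nil))) (.nd (nat_lit 5) 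
(.lf (nat_lit 211153) (.g (nat_lit 2028) (.e (nat_lit 81957) (nat_lit 24) (.e (nat_lit 123185) (nat_lit 264) (.e (nat_lit 1224) (nat_lit 90) (.e (nat_lit 81922) (nat_lit 0) (.e (nat_lit 3632) (nat_lit 227) (.e (nat_lit 778327) (nat_lit 6) .nil)))))) (.g (nat_lit 0) .nil .nil))) 
(.lf (nat_lit 211185) (.g (nat_lit 648) (.e (nat_lit 81957) (nat_lit 24) (.e (nat_lit 123195) (nat_lit 266) (.e (nat_lit 57421) (nat_lit 13) .nil))) .nil)))) (.nd (nat_lit 4) (.nd (nat_lit 5) 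
(.lf (nat_lit 211145) (.g (nat_lit 2508) (.e (nat_lit 81957) (nat_lit 24) (.e (nat_lit 123185) (nat_lit 264) (.e (nat_lit 1222) (nat_lit 90) (.e (nat_lit 81943) (nat_lit 20) (.e (nat_lit 2003) (nat_lit 138) (.e (nat_lit 671764) (nat_lit 6) .nil)))))) (.g (nat_lit 0) .nil .nil))) 
(.lf (nat_lit 211177) (.g (nat_lit 2706) (.e (nat_lit 81957) (nat_lit 24) (.e (nat_lit 123195) (nat_lit 266) (.e (nat_lit 57417) (nat_lit 12) (.e (nat_lit 336116) (nat_lit 9) (.e (nat_lit 336331) (nat_lit 19) (.e (nat_lit 220928) (nat_lit 6) .nil)))))) (.g (nat_lit 5) .nil .nil)))) (.nd (nat_lit 5) 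
(.lf (nat_lit 211161) (.g (nat_lit 1557) (.e (nat_lit 81957) (nat_lit 24) (.e (nat_lit 123185) (nat_lit 264) (.e (nat_lit 1296) (nat_lit 96) (.e (nat_lit 131109) (nat_lit 9) (.e (nat_lit 336332) (nat_lit 19) (.e (nat_lit 220928) (nat_lit 6) .nil)))))) (.g (nat_lit 5) .nil .nil))) 
(.lf (nat_lit 211193) (.g (nat_lit 1847) (.e (nat_lit 81957) (nat_lit 24) (.e (nat_lit 123195) (nat_lit 266) (.e (nat_lit 57424) (nat_lit 14) (.e (nat_lit 352262) (nat_lit 0) (.e (nat_lit 3632) (nat_lit 227) .nil))))) .nil))))) (.nd (nat_lit 3) (.nd (nat_lit 4) (.nd (nat_lit 5) 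
(.lf (nat_lit 211141) (.g (nat_lit 1085) (.e (nat_lit 81957) (nat_lit 24) (.e (nat_lit 123185) (nat_lit 264) (.e (nat_lit 1222) (nat_lit 90) (.e (nat_lit 81922) (nat_lit 0) .nil)))) .nil)) 
(.lf (nat_lit 211173) (.g (nat_lit 551) (.e (nat_lit 81957) (nat_lit 24) (.e (nat_lit 123195) (nat_lit 266) (.e (nat_lit 57408) (nat_lit 12) .nil))) .nil))) (.nd (nat_lit 5) 
(.lf (nat_lit 211157) (.g (nat_lit 3393) (.e (nat_lit 81957) (nat_lit 24) (.e (nat_lit 123185) (nat_lit 264) (.e (nat_lit 1224) (nat_lit 90) (.e (nat_lit 81959) (nat_lit 24) (.e (nat_lit 123182) (nat_lit 264) (.e (nat_lit 1222) (nat_lit 90) .nil)))))) (.g (nat_lit 0) .nil .nil))) 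
(.lf (nat_lit 211189) (.g (nat_lit 2667) (.e (nat_lit 81957) (nat_lit 24) (.e (nat_lit 123195) (nat_lit 266) (.e (nat_lit 57423) (nat_lit 14) (.e (nat_lit 352262) (nat_lit 0) (.e (nat_lit 3632) (nat_lit 227) (.e (nat_lit 778327) (nat_lit 6) .nil)))))) (.g (nat_lit 4) .nil .nil))))) (.nd (nat_lit 4) (.nd (nat_lit 5) 
(.lf (nat_lit 211149) (.g (nat_lit 3209) (.e (nat_lit 81957) (nat_lit 24) (.e (nat_lit 123185) (nat_lit 264) (.e (nat_lit 1222) (nat_lit 90) (.e (nat_lit 81948) (nat_lit 21) (.e (nat_lit 57873) (nat_lit 264) (.e (nat_lit 1219) (nat_lit 90) .nil)))))) (.g (nat_lit 0) .nil .nil))) 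
(.lf (nat_lit 211181) (.g (nat_lit 2004) (.e (nat_lit 81957) (nat_lit 24) (.e (nat_lit 123195) (nat_lit 266) (.e (nat_lit 57419) (nat_lit 12) (.e (nat_lit 336075) (nat_lit 9) (.e (nat_lit 336332) (nat_lit 19) (.e (nat_lit 220928) (nat_lit 6) .nil)))))) (.g (nat_lit 5) .nil .nil)))) (.nd (nat_lit 5) 
(.lf (nat_lit 211165) (.g (nat_lit 3277) (.e (nat_lit 81957) (nat_lit 24) (.e (nat_lit 123194) (nat_lit 266) (.e (nat_lit 57424) (nat_lit 14) (.e (nat_lit 352318) (nat_lit 24) (.e (nat_lit 123183) (nat_lit 264) (.e (nat_lit 1222) (nat_lit 90) .nil)))))) (.g (nat_lit 0) .nil .nil))) 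
(.lf (nat_lit 211197) (.g (nat_lit 2543) (.e (nat_lit 81957) (nat_lit 24) (.e (nat_lit 123195) (nat_lit 266) (.e (nat_lit 57424) (nat_lit 14) (.e (nat_lit 352318) (nat_lit 24) (.e (nat_lit 123184) (nat_lit 264) (.e (nat_lit 7936) (nat_lit 90) .nil)))))) (.g (nat_lit 4) .nil .nil))))))) (.nd (nat_lit 2) (.nd (nat_lit 3) (.nd (nat_lit 4) (.nd (nat_lit 5) 
(.lf (nat_lit 211139) (.g (nat_lit 3156) (.e (nat_lit 81957) (nat_lit 24) (.e (nat_lit 123185) (nat_lit 264) (.e (nat_lit 1201) (nat_lit 88) (.e (nat_lit 65624) (nat_lit 12) (.e (nat_lit 385094) (nat_lit 49) (.e (nat_lit 778326) (nat_lit 6) .nil)))))) (.g (nat_lit 0) .nil .nil))) 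
(.lf (nat_lit 211171) (.g (nat_lit 1946) (.e (nat_lit 81957) (nat_lit 24) (.e (nat_lit 123195) (nat_lit 266) (.e (nat_lit 57406) (nat_lit 12) (.e (nat_lit 336207) (nat_lit 12) .nil)))) .nil))) (.nd (nat_lit 5) 
(.lf (nat_lit 211155) (.g (nat_lit 3391) (.e (nat_lit 81957) (nat_lit 24) (.e (nat_lit 123185) (nat_lit 264) (.e (nat_lit 1224) (nat_lit 90) (.e (nat_lit 81957) (nat_lit 24) (.e (nat_lit 123182) (nat_lit 264) (.e (nat_lit 1222) (nat_lit 90) .nil)))))) (.g (nat_lit 0) .nil .nil))) 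
(.lf (nat_lit 211187) (.g (nat_lit 1479) (.e (nat_lit 81957) (nat_lit 24) (.e (nat_lit 123195) (nat_lit 266) (.e (nat_lit 57423) (nat_lit 14) (.e (nat_lit 352258) (nat_lit 0) .nil)))) .nil)))) (.nd (nat_lit 4) (.nd (nat_lit 5) 
(.lf (nat_lit 211147) (.g (nat_lit 2731) (.e (nat_lit 81957) (nat_lit 24) (.e (nat_lit 123185) (nat_lit 264) (.e (nat_lit 1222) (nat_lit 90) (.e (nat_lit 81948) (nat_lit 21) (.e (nat_lit 57871) (nat_lit 264) (.e (nat_lit 1219) (nat_lit 90) .nil)))))) (.g (nat_lit 0) .nil .nil))) 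
(.lf (nat_lit 211179) (.g (nat_lit 2718) (.e (nat_lit 81957) (nat_lit 24) (.e (nat_lit 123195) (nat_lit 266) (.e (nat_lit 57417) (nat_lit 12) (.e (nat_lit 336118) (nat_lit 9) (.e (nat_lit 336331) (nat_lit 19) (.e (nat_lit 220928) (nat_lit 6) .nil)))))) (.g (nat_lit 5) .nil .nil)))) (.nd (nat_lit 5) 
(.lf (nat_lit 211163) (.g (nat_lit 3717) (.e (nat_lit 81957) (nat_lit 24) (.e (nat_lit 123194) (nat_lit 266) (.e (nat_lit 57424) (nat_lit 14) (.e (nat_lit 352318) (nat_lit 24) (.e (nat_lit 123182) (nat_lit 264) (.e (nat_lit 1222) (nat_lit 90) .nil)))))) (.g (nat_lit 0) .nil .nil))) 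
(.lf (nat_lit 211195) (.g (nat_lit 4336) (.e (nat_lit 81957) (nat_lit 24) (.e (nat_lit 123195) (nat_lit 266) (.e (nat_lit 57424) (nat_lit 14) (.e (nat_lit 352318) (nat_lit 24) (.e (nat_lit 123184) (nat_lit 264) (.e (nat_lit 1222) (nat_lit 90) .nil)))))) (.g (nat_lit 0) .nil .nil)))))) (.nd (nat_lit 3) (.nd (nat_lit 4) (.nd (nat_lit 5) 
(.lf (nat_lit 211143) (.g (nat_lit 2706) (.e (nat_lit 81957) (nat_lit 24) (.e (nat_lit 123185) (nat_lit 264) (.e (nat_lit 1222) (nat_lit 90) (.e (nat_lit 81924) (nat_lit 0) (.e (nat_lit 3632) (nat_lit 227) (.e (nat_lit 778326) (nat_lit 6) .nil)))))) (.g (nat_lit 0) .nil .nil))) 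
(.lf (nat_lit 211175) (.g (nat_lit 1287) (.e (nat_lit 81957) (nat_lit 24) (.e (nat_lit 123195) (nat_lit 266) (.e (nat_lit 57412) (nat_lit 12) (.e (nat_lit 336099) (nat_lit 9) .nil)))) .nil))) (.nd (nat_lit 5) 
(.lf (nat_lit 211159) (.g (nat_lit 3014) (.e (nat_lit 81957) (nat_lit 24) (.e (nat_lit 123185) (nat_lit 264) (.e (nat_lit 1224) (nat_lit 90) (.e (nat_lit 81959) (nat_lit 24) (.e (nat_lit 123184) (nat_lit 264) (.e (nat_lit 1222) (nat_lit 90) .nil)))))) (.g (nat_lit 0) .nil .nil))) 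
(.lf (nat_lit 211191) (.g (nat_lit 2198) (.e (nat_lit 81957) (nat_lit 24) (.e (nat_lit 123195) (nat_lit 266) (.e (nat_lit 57423) (nat_lit 14) (.e (nat_lit 352309) (nat_lit 21) (.e (nat_lit 57872) (nat_lit 264) .nil))))) .nil)))) (.nd (nat_lit 4) (.nd (nat_lit 5) 
(.lf (nat_lit 211151) (.g (nat_lit 2185) (.e (nat_lit 81957) (nat_lit 24) (.e (nat_lit 123185) (nat_lit 264) (.e (nat_lit 1224) (nat_lit 90) (.e (nat_lit 81922) (nat_lit 0) (.e (nat_lit 3631) (nat_lit 227) (.e (nat_lit 778326) (nat_lit 6) .nil)))))) (.g (nat_lit 0) .nil .nil))) 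
(.lf (nat_lit 211183) (.g (nat_lit 2037) (.e (nat_lit 81957) (nat_lit 24) (.e (nat_lit 123195) (nat_lit 266) (.e (nat_lit 57419) (nat_lit 12) (.e (nat_lit 336194) (nat_lit 12) (.e (nat_lit 385096) (nat_lit 49) (.e (nat_lit 786176) (nat_lit 6) .nil)))))) (.g (nat_lit 4) .nil .nil)))) (.nd (nat_lit 5) 
(.lf (nat_lit 211167) (.g (nat_lit 2741) (.e (nat_lit 81957) (nat_lit 24) (.e (nat_lit 123194) (nat_lit 266) (.e (nat_lit 57424) (nat_lit 14) (.e (nat_lit 352318) (nat_lit 24) (.e (nat_lit 123185) (nat_lit 264) (.e (nat_lit 1224) (nat_lit 90) .nil)))))) (.g (nat_lit 4) .nil .nil))) 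
(.lf (nat_lit 211199) (.g (nat_lit 556) (.e (nat_lit 81957) (nat_lit 24) (.e (nat_lit 123195) (nat_lit 266) (.e (nat_lit 57425) (nat_lit 14) .nil))) .nil))))))))

noncomputable def tv2789 : DT := (.nd (nat_lit 0) (.nd (nat_lit 1) (.nd (nat_lit 2) (.nd (nat_lit 3) (.nd (nat_lit 4) (.nd (nat_lit 5) 
(.lf (nat_lit 211200) (.g (nat_lit 2489) (.e (nat_lit 81957) (nat_lit 24) (.e (nat_lit 123195) (nat_lit 266) (.e (nat_lit 57425) (nat_lit 14) (.e (nat_lit 352318) (nat_lit 24) (.e (nat_lit 123184) (nat_lit 264) (.e (nat_lit 1224) (nat_lit 90) .nil)))))) (.g (nat_lit 5) .nil .nil))) 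
(.lf (nat_lit 211232) (.g (nat_lit 1273) (.e (nat_lit 81957) (nat_lit 24) (.e (nat_lit 123195) (nat_lit 266) (.e (nat_lit 57428) (nat_lit 15) (.e (nat_lit 360486) (nat_lit 18) .nil)))) .nil))) (.nd (nat_lit 5) 
(.lf (nat_lit 211216) (.g (nat_lit 2940) (.e (nat_lit 81957) (nat_lit 24) (.e (nat_lit 123195) (nat_lit 266) (.e (nat_lit 57427) (nat_lit 15) (.e (nat_lit 360451) (nat_lit 0) (.e (nat_lit 5896) (nat_lit 320) (.e (nat_lit 7936) (nat_lit 90) .nil)))))) (.g (nat_lit 5) .nil .nil))) 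
(.lf (nat_lit 211248) (.g (nat_lit 2055) (.e (nat_lit 81957) (nat_lit 24) (.e (nat_lit 123197) (nat_lit 266) (.e (nat_lit 57409) (nat_lit 12) (.e (nat_lit 336208) (nat_lit 12) (.e (nat_lit 385094) (nat_lit 49) .nil))))) .nil)))) (.nd (nat_lit 4) (.nd (nat_lit 5) 
(.lf (nat_lit 211208) (.g (nat_lit 2415) (.e (nat_lit 81957) (nat_lit 24) (.e (nat_lit 123195) (nat_lit 266) (.e (nat_lit 57427) (nat_lit 15) (.e (nat_lit 360450) (nat_lit 0) (.e (nat_lit 5882) (nat_lit 320) .nil))))) .nil)) 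
(.lf (nat_lit 211240) (.g (nat_lit 2534) (.e (nat_lit 81957) (nat_lit 24) (.e (nat_lit 123195) (nat_lit 266) (.e (nat_lit 57436) (nat_lit 17) (.e (nat_lit 376859) (nat_lit 21) (.e (nat_lit 57872) (nat_lit 264) (.e (nat_lit 1219) (nat_lit 90) .nil)))))) (.g (nat_lit 4) .nil .nil)))) (.nd (nat_lit 5) 
(.lf (nat_lit 211224) (.g (nat_lit 2326) (.e (nat_lit 81957) (nat_lit 24) (.e (nat_lit 123195) (nat_lit 266) (.e (nat_lit 57427) (nat_lit 15) (.e (nat_lit 360455) (nat_lit 0) .nil)))) .nil)) 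
(.lf (nat_lit 211256) (.g (nat_lit 2302) (.e (nat_lit 81957) (nat_lit 24) (.e (nat_lit 123197) (nat_lit 266) (.e (nat_lit 57423) (nat_lit 14) (.e (nat_lit 352258) (nat_lit 0) (.e (nat_lit 3716) (nat_lit 227) (.e (nat_lit 778325) (nat_lit 6) .nil)))))) (.g (nat_lit 0) .nil .nil)))))) (.nd (nat_lit 3) (.nd (nat_lit 4) (.nd (nat_lit 5) 
(.lf (nat_lit 211204) (.g (nat_lit 1436) (.e (nat_lit 81957) (nat_lit 24) (.e (nat_lit 123195) (nat_lit 266) (.e (nat_lit 57426) (nat_lit 15) (.e (nat_lit 368384) (nat_lit 0) .nil)))) .nil)) 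
(.lf (nat_lit 211236) (.g (nat_lit 1180) (.e (nat_lit 81957) (nat_lit 24) (.e (nat_lit 123195) (nat_lit 266) (.e (nat_lit 57436) (nat_lit 17) (.e (nat_lit 376835) (nat_lit 0) .nil)))) .nil))) (.nd (nat_lit 5) 
(.lf (nat_lit 211220) (.g (nat_lit 2393) (.e (nat_lit 81957) (nat_lit 24) (.e (nat_lit 123195) (nat_lit 266) (.e (nat_lit 57427) (nat_lit 15) (.e (nat_lit 360452) (nat_lit 0) .nil)))) .nil)) 
(.lf (nat_lit 211252) (.g (nat_lit 1889) (.e (nat_lit 81957) (nat_lit 24) (.e (nat_lit 123197) (nat_lit 266) (.e (nat_lit 57419) (nat_lit 12) (.e (nat_lit 336075) (nat_lit 9) (.e (nat_lit 336332) (nat_lit 19) (.e (nat_lit 220928) (nat_lit 6) .nil)))))) (.g (nat_lit 5) .nil .nil))))) (.nd (nat_lit 4) (.nd (nat_lit 5) 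
(.lf (nat_lit 211212) (.g (nat_lit 4188) (.e (nat_lit 81957) (nat_lit 24) (.e (nat_lit 123195) (nat_lit 266) (.e (nat_lit 57427) (nat_lit 15) (.e (nat_lit 360450) (nat_lit 0) (.e (nat_lit 5898) (nat_lit 320) (.e (nat_lit 7936) (nat_lit 90) .nil)))))) (.g (nat_lit 5) .nil .nil))) 
(.lf (nat_lit 211244) (.g (nat_lit 2910) (.e (nat_lit 81957) (nat_lit 24) (.e (nat_lit 123196) (nat_lit 266) (.e (nat_lit 57424) (nat_lit 14) (.e (nat_lit 352318) (nat_lit 24) (.e (nat_lit 123183) (nat_lit 264) (.e (nat_lit 1222) (nat_lit 90) .nil)))))) (.g (nat_lit 0) .nil .nil)))) (.nd (nat_lit 5) 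
(.lf (nat_lit 211228) (.g (nat_lit 2155) (.e (nat_lit 81957) (nat_lit 24) (.e (nat_lit 123195) (nat_lit 266) (.e (nat_lit 57427) (nat_lit 15) (.e (nat_lit 368384) (nat_lit 17) .nil)))) .nil)) 
(.lf (nat_lit 211260) (.g (nat_lit 3409) (.e (nat_lit 81957) (nat_lit 24) (.e (nat_lit 123197) (nat_lit 266) (.e (nat_lit 57424) (nat_lit 14) (.e (nat_lit 352262) (nat_lit 0) (.e (nat_lit 3632) (nat_lit 227) (.e (nat_lit 778326) (nat_lit 6) .nil)))))) (.g (nat_lit 0) .nil .nil))))))) (.nd (nat_lit 2) (.nd (nat_lit 3) (.nd (nat_lit 4) (.nd (nat_lit 5) 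
(.lf (nat_lit 211202) (.g (nat_lit 552) (.e (nat_lit 81957) (nat_lit 24) (.e (nat_lit 123195) (nat_lit 266) (.e (nat_lit 57426) (nat_lit 15) .nil))) .nil)) 
(.lf (nat_lit 211234) (.g (nat_lit 605) (.e (nat_lit 81957) (nat_lit 24) (.e (nat_lit 123195) (nat_lit 266) (.e (nat_lit 57435) (nat_lit 17) .nil))) .nil))) (.nd (nat_lit 5) 
(.lf (nat_lit 211218) (.g (nat_lit 3224) (.e (nat_lit 81957) (nat_lit 24) (.e (nat_lit 123195) (nat_lit 266) (.e (nat_lit 57427) (nat_lit 15) (.e (nat_lit 360451) (nat_lit 0) (.e (nat_lit 5898) (nat_lit 320) (.e (nat_lit 7936) (nat_lit 90) .nil)))))) (.g (nat_lit 5) .nil .nil))) 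
(.lf (nat_lit 211250) (.g (nat_lit 2101) (.e (nat_lit 81957) (nat_lit 24) (.e (nat_lit 123197) (nat_lit 266) (.e (nat_lit 57417) (nat_lit 12) (.e (nat_lit 336118) (nat_lit 9) (.e (nat_lit 336331) (nat_lit 19) (.e (nat_lit 220928) (nat_lit 6) .nil)))))) (.g (nat_lit 5) .nil .nil))))) (.nd (nat_lit 4) (.nd (nat_lit 5) 
(.lf (nat_lit 211210) (.g (nat_lit 2466) (.e (nat_lit 81957) (nat_lit 24) (.e (nat_lit 123195) (nat_lit 266) (.e (nat_lit 57427) (nat_lit 15) (.e (nat_lit 360450) (nat_lit 0) (.e (nat_lit 5896) (nat_lit 320) (.e (nat_lit 7936) (nat_lit 90) .nil)))))) (.g (nat_lit 4) .nil .nil))) 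
(.lf (nat_lit 211242) (.g (nat_lit 671) (.e (nat_lit 81957) (nat_lit 24) (.e (nat_lit 123195) (nat_lit 266) (.e (nat_lit 57438) (nat_lit 17) .nil))) .nil))) (.nd (nat_lit 5) 
(.lf (nat_lit 211226) (.g (nat_lit 2564) (.e (nat_lit 81957) (nat_lit 24) (.e (nat_lit 123195) (nat_lit 266) (.e (nat_lit 57427) (nat_lit 15) (.e (nat_lit 360457) (nat_lit 0) .nil)))) .nil)) 
(.lf (nat_lit 211258) (.g (nat_lit 1912) (.e (nat_lit 81957) (nat_lit 24) (.e (nat_lit 123197) (nat_lit 266) (.e (nat_lit 57423) (nat_lit 14) (.e (nat_lit 352270) (nat_lit 8) (.e (nat_lit 270080) (nat_lit 6) .nil))))) (.g (nat_lit 4) .nil .nil)))))) (.nd (nat_lit 3) (.nd (nat_lit 4) (.nd (nat_lit 5) 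
(.lf (nat_lit 211206) (.g (nat_lit 2226) (.e (nat_lit 81957) (nat_lit 24) (.e (nat_lit 123195) (nat_lit 266) (.e (nat_lit 57427) (nat_lit 15) (.e (nat_lit 360448) (nat_lit 0) .nil)))) .nil)) 
(.lf (nat_lit 211238) (.g (nat_lit 1745) (.e (nat_lit 81957) (nat_lit 24) (.e (nat_lit 123195) (nat_lit 266) (.e (nat_lit 57436) (nat_lit 17) (.e (nat_lit 376855) (nat_lit 20) .nil)))) .nil))) (.nd (nat_lit 5) 
(.lf (nat_lit 211222) (.g (nat_lit 2666) (.e (nat_lit 81957) (nat_lit 24) (.e (nat_lit 123195) (nat_lit 266) (.e (nat_lit 57427) (nat_lit 15) (.e (nat_lit 360453) (nat_lit 0) .nil)))) .nil)) 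
(.lf (nat_lit 211254) (.g (nat_lit 2667) (.e (nat_lit 81957) (nat_lit 24) (.e (nat_lit 123197) (nat_lit 266) (.e (nat_lit 57419) (nat_lit 12) (.e (nat_lit 336194) (nat_lit 12) (.e (nat_lit 385094) (nat_lit 49) (.e (nat_lit 778326) (nat_lit 6) .nil)))))) (.g (nat_lit 0) .nil .nil))))) (.nd (nat_lit 4) (.nd (nat_lit 5) 
(.lf (nat_lit 211214) (.g (nat_lit 2679) (.e (nat_lit 81957) (nat_lit 24) (.e (nat_lit 123195) (nat_lit 266) (.e (nat_lit 57427) (nat_lit 15) (.e (nat_lit 360450) (nat_lit 0) (.e (nat_lit 7936) (nat_lit 320) .nil))))) .nil)) 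
(.lf (nat_lit 211246) (.g (nat_lit 3302) (.e (nat_lit 81957) (nat_lit 24) (.e (nat_lit 123196) (nat_lit 266) (.e (nat_lit 57424) (nat_lit 14) (.e (nat_lit 352318) (nat_lit 24) (.e (nat_lit 123184) (nat_lit 264) (.e (nat_lit 1224) (nat_lit 90) .nil)))))) (.g (nat_lit 6) .nil .nil)))) (.nd (nat_lit 5) 
(.lf (nat_lit 211230) (.g (nat_lit 2821) (.e (nat_lit 81957) (nat_lit 24) (.e (nat_lit 123195) (nat_lit 266) (.e (nat_lit 57427) (nat_lit 15) (.e (nat_lit 360486) (nat_lit 18) (.e (nat_lit 679680) (nat_lit 6) .nil))))) .nil)) 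
(.lf (nat_lit 211262) (.g (nat_lit 1911) (.e (nat_lit 81957) (nat_lit 24) (.e (nat_lit 123197) (nat_lit 266) (.e (nat_lit 57424) (nat_lit 14) (.e (nat_lit 352270) (nat_lit 8) (.e (nat_lit 270080) (nat_lit 6) .nil))))) (.g (nat_lit 4) .nil .nil)))))))) (.nd (nat_lit 1) (.nd (nat_lit 2) (.nd (nat_lit 3) (.nd (nat_lit 4) (.nd (nat_lit 5) 
(.lf (nat_lit 211201) (.g (nat_lit 2226) (.e (nat_lit 81957) (nat_lit 24) (.e (nat_lit 123195) (nat_lit 266) (.e (nat_lit 57425) (nat_lit 14) (.e (nat_lit 352318) (nat_lit 24) (.e (nat_lit 123185) (nat_lit 264) (.e (nat_lit 1222) (nat_lit 90) .nil)))))) (.g (nat_lit 4) .nil .nil))) 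
(.lf (nat_lit 211233) (.g (nat_lit 654) (.e (nat_lit 81957) (nat_lit 24) (.e (nat_lit 123195) (nat_lit 266) (.e (nat_lit 57434) (nat_lit 17) .nil))) .nil))) (.nd (nat_lit 5) 
(.lf (nat_lit 211217) (.g (nat_lit 2080) (.e (nat_lit 81957) (nat_lit 24) (.e (nat_lit 123195) (nat_lit 266) (.e (nat_lit 57427) (nat_lit 15) (.e (nat_lit 360451) (nat_lit 0) (.e (nat_lit 5898) (nat_lit 320) (.e (nat_lit 1218) (nat_lit 90) .nil)))))) (.g (nat_lit 4) .nil .nil))) 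
(.lf (nat_lit 211249) (.g (nat_lit 2106) (.e (nat_lit 81957) (nat_lit 24) (.e (nat_lit 123197) (nat_lit 266) (.e (nat_lit 57417) (nat_lit 12) (.e (nat_lit 336116) (nat_lit 9) (.e (nat_lit 336331) (nat_lit 19) (.e (nat_lit 220928) (nat_lit 6) .nil)))))) (.g (nat_lit 5) .nil .nil))))) (.nd (nat_lit 4) (.nd (nat_lit 5) 
(.lf (nat_lit 211209) (.g (nat_lit 2065) (.e (nat_lit 81957) (nat_lit 24) (.e (nat_lit 123195) (nat_lit 266) (.e (nat_lit 57427) (nat_lit 15) (.e (nat_lit 360450) (nat_lit 0) (.e (nat_lit 5896) (nat_lit 320) (.e (nat_lit 1219) (nat_lit 90) .nil)))))) (.g (nat_lit 4) .nil .nil))) 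
(.lf (nat_lit 211241) (.g (nat_lit 2746) (.e (nat_lit 81957) (nat_lit 24) (.e (nat_lit 123195) (nat_lit 266) (.e (nat_lit 57436) (nat_lit 17) (.e (nat_lit 376860) (nat_lit 21) (.e (nat_lit 57870) (nat_lit 264) .nil))))) .nil))) (.nd (nat_lit 5) 
(.lf (nat_lit 211225) (.g (nat_lit 2230) (.e (nat_lit 81957) (nat_lit 24) (.e (nat_lit 123195) (nat_lit 266) (.e (nat_lit 57427) (nat_lit 15) (.e (nat_lit 360456) (nat_lit 0) .nil)))) .nil)) 
(.lf (nat_lit 211257) (.g (nat_lit 3411) (.e (nat_lit 81957) (nat_lit 24) (.e (nat_lit 123197) (nat_lit 266) (.e (nat_lit 57423) (nat_lit 14) (.e (nat_lit 352262) (nat_lit 0) (.e (nat_lit 3632) (nat_lit 227) (.e (nat_lit 778326) (nat_lit 6) .nil)))))) (.g (nat_lit 0) .nil .nil)))))) (.nd (nat_lit 3) (.nd (nat_lit 4) (.nd (nat_lit 5) 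
(.lf (nat_lit 211205) (.g (nat_lit 418) (.e (nat_lit 81957) (nat_lit 24) (.e (nat_lit 123195) (nat_lit 266) (.e (nat_lit 57427) (nat_lit 15) .nil))) .nil)) 
(.lf (nat_lit 211237) (.g (nat_lit 1653) (.e (nat_lit 81957) (nat_lit 24) (.e (nat_lit 123195) (nat_lit 266) (.e (nat_lit 57436) (nat_lit 17) (.e (nat_lit 384768) (nat_lit 4) .nil)))) .nil))) (.nd (nat_lit 5) 
(.lf (nat_lit 211221) (.g (nat_lit 3023) (.e (nat_lit 81957) (nat_lit 24) (.e (nat_lit 123195) (nat_lit 266) (.e (nat_lit 57427) (nat_lit 15) (.e (nat_lit 360452) (nat_lit 0) (.e (nat_lit 5905) (nat_lit 320) .nil))))) .nil)) 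
(.lf (nat_lit 211253) (.g (nat_lit 2169) (.e (nat_lit 81957) (nat_lit 24) (.e (nat_lit 123197) (nat_lit 266) (.e (nat_lit 57419) (nat_lit 12) (.e (nat_lit 336076) (nat_lit 9) (.e (nat_lit 336332) (nat_lit 19) (.e (nat_lit 220928) (nat_lit 6) .nil)))))) (.g (nat_lit 5) .nil .nil))))) (.nd (nat_lit 4) (.nd (nat_lit 5) 
(.lf (nat_lit 211213) (.g (nat_lit 2415) (.e (nat_lit 81957) (nat_lit 24) (.e (nat_lit 123195) (nat_lit 266) (.e (nat_lit 57427) (nat_lit 15) (.e (nat_lit 360450) (nat_lit 0) (.e (nat_lit 5918) (nat_lit 320) .nil))))) .nil)) 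
(.lf (nat_lit 211245) (.g (nat_lit 3388) (.e (nat_lit 81957) (nat_lit 24) (.e (nat_lit 123196) (nat_lit 266) (.e (nat_lit 57424) (nat_lit 14) (.e (nat_lit 352318) (nat_lit 24) (.e (nat_lit 123184) (nat_lit 264) (.e (nat_lit 1222) (nat_lit 90) .nil)))))) (.g (nat_lit 0) .nil .nil)))) (.nd (nat_lit 5) 
(.lf (nat_lit 211229) (.g (nat_lit 4355) (.e (nat_lit 81957) (nat_lit 24) (.e (nat_lit 123195) (nat_lit 266) (.e (nat_lit 57427) (nat_lit 15) (.e (nat_lit 360486) (nat_lit 18) (.e (nat_lit 671764) (nat_lit 6) .nil))))) (.g (nat_lit 0) .nil .nil))) 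
(.lf (nat_lit 211261) (.g (nat_lit 1842) (.e (nat_lit 81957) (nat_lit 24) (.e (nat_lit 123197) (nat_lit 266) (.e (nat_lit 57424) (nat_lit 14) (.e (nat_lit 352265) (nat_lit 0) .nil)))) .nil)))))) (.nd (nat_lit 2) (.nd (nat_lit 3) (.nd (nat_lit 4) (.nd (nat_lit 5) 
(.lf (nat_lit 211203) (.g (nat_lit 1637) (.e (nat_lit 81957) (nat_lit 24) (.e (nat_lit 123195) (nat_lit 266) (.e (nat_lit 57426) (nat_lit 15) (.e (nat_lit 360455) (nat_lit 0) .nil)))) .nil)) 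
(.lf (nat_lit 211235) (.g (nat_lit 598) (.e (nat_lit 81957) (nat_lit 24) (.e (nat_lit 123195) (nat_lit 266) (.e (nat_lit 57436) (nat_lit 17) .nil))) .nil))) (.nd (nat_lit 5) 
(.lf (nat_lit 211219) (.g (nat_lit 1947) (.e (nat_lit 81957) (nat_lit 24) (.e (nat_lit 123195) (nat_lit 266) (.e (nat_lit 57427) (nat_lit 15) (.e (nat_lit 360451) (nat_lit 0) (.e (nat_lit 7936) (nat_lit 320) .nil))))) .nil)) 
(.lf (nat_lit 211251) (.g (nat_lit 2741) (.e (nat_lit 81957) (nat_lit 24) (.e (nat_lit 123197) (nat_lit 266) (.e (nat_lit 57417) (nat_lit 12) (.e (nat_lit 336206) (nat_lit 12) (.e (nat_lit 385094) (nat_lit 49) (.e (nat_lit 778326) (nat_lit 6) .nil)))))) (.g (nat_lit 0) .nil .nil))))) (.nd (nat_lit 4) (.nd (nat_lit 5) 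
(.lf (nat_lit 211211) (.g (nat_lit 2815) (.e (nat_lit 81957) (nat_lit 24) (.e (nat_lit 123195) (nat_lit 266) (.e (nat_lit 57427) (nat_lit 15) (.e (nat_lit 360450) (nat_lit 0) (.e (nat_lit 5898) (nat_lit 320) (.e (nat_lit 1218) (nat_lit 90) .nil)))))) (.g (nat_lit 4) .nil .nil))) 
(.lf (nat_lit 211243) (.g (nat_lit 3450) (.e (nat_lit 81957) (nat_lit 24) (.e (nat_lit 123196) (nat_lit 266) (.e (nat_lit 57424) (nat_lit 14) (.e (nat_lit 352318) (nat_lit 24) (.e (nat_lit 123182) (nat_lit 264) (.e (nat_lit 1222) (nat_lit 90) .nil)))))) (.g (nat_lit 0) .nil .nil)))) (.nd (nat_lit 5) 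
(.lf (nat_lit 211227) (.g (nat_lit 2155) (.e (nat_lit 81957) (nat_lit 24) (.e (nat_lit 123195) (nat_lit 266) (.e (nat_lit 57427) (nat_lit 15) (.e (nat_lit 368384) (nat_lit 0) .nil)))) .nil)) 
(.lf (nat_lit 211259) (.g (nat_lit 2618) (.e (nat_lit 81957) (nat_lit 24) (.e (nat_lit 123197) (nat_lit 266) (.e (nat_lit 57423) (nat_lit 14) (.e (nat_lit 352318) (nat_lit 24) (.e (nat_lit 123184) (nat_lit 264) (.e (nat_lit 1224) (nat_lit 90) .nil)))))) (.g (nat_lit 4) .nil .nil)))))) (.nd (nat_lit 3) (.nd (nat_lit 4) (.nd (nat_lit 5) 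
(.lf (nat_lit 211207) (.g (nat_lit 2701) (.e (nat_lit 81957) (nat_lit 24) (.e (nat_lit 123195) (nat_lit 266) (.e (nat_lit 57427) (nat_lit 15) (.e (nat_lit 360448) (nat_lit 0) (.e (nat_lit 5907) (nat_lit 320) .nil))))) .nil)) 
(.lf (nat_lit 211239) (.g (nat_lit 1719) (.e (nat_lit 81957) (nat_lit 24) (.e (nat_lit 123195) (nat_lit 266) (.e (nat_lit 57436) (nat_lit 17) (.e (nat_lit 376859) (nat_lit 21) .nil)))) .nil))) (.nd (nat_lit 5) 
(.lf (nat_lit 211223) (.g (nat_lit 2180) (.e (nat_lit 81957) (nat_lit 24) (.e (nat_lit 123195) (nat_lit 266) (.e (nat_lit 57427) (nat_lit 15) (.e (nat_lit 360454) (nat_lit 0) .nil)))) .nil)) 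
(.lf (nat_lit 211255) (.g (nat_lit 2108) (.e (nat_lit 81957) (nat_lit 24) (.e (nat_lit 123197) (nat_lit 266) (.e (nat_lit 57419) (nat_lit 12) (.e (nat_lit 336194) (nat_lit 12) (.e (nat_lit 385096) (nat_lit 49) (.e (nat_lit 786176) (nat_lit 6) .nil)))))) (.g (nat_lit 5) .nil .nil))))) (.nd (nat_lit 4) (.nd (nat_lit 5) 
(.lf (nat_lit 211215) (.g (nat_lit 2079) (.e (nat_lit 81957) (nat_lit 24) (.e (nat_lit 123195) (nat_lit 266) (.e (nat_lit 57427) (nat_lit 15) (.e (nat_lit 360451) (nat_lit 0) (.e (nat_lit 5872) (nat_lit 320) .nil))))) .nil)) 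
(.lf (nat_lit 211247) (.g (nat_lit 2411) (.e (nat_lit 81957) (nat_lit 24) (.e (nat_lit 123196) (nat_lit 266) (.e (nat_lit 57424) (nat_lit 14) (.e (nat_lit 352318) (nat_lit 24) (.e (nat_lit 123185) (nat_lit 264) (.e (nat_lit 1222) (nat_lit 90) .nil)))))) (.g (nat_lit 4) .nil .nil)))) (.nd (nat_lit 5) 
(.lf (nat_lit 211231) (.g (nat_lit 649) (.e (nat_lit 81957) (nat_lit 24) (.e (nat_lit 123195) (nat_lit 266) (.e (nat_lit 57428) (nat_lit 15) .nil))) .nil)) 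
(.lf (nat_lit 211263) (.g (nat_lit 1675) (.e (nat_lit 81957) (nat_lit 24) (.e (nat_lit 123197) (nat_lit 266) (.e (nat_lit 57424) (nat_lit 14) (.e (nat_lit 352285) (nat_lit 20) .nil)))) .nil))))))))

noncomputable def tv2790 : DT := (.nd (nat_lit 0) (.nd (nat_lit 1) (.nd (nat_lit 2) (.nd (nat_lit 3) (.nd (nat_lit 4) (.nd (nat_lit 5) 
(.lf (nat_lit 211264) (.g (nat_lit 1138) (.e (nat_lit 81957) (nat_lit 24) (.e (nat_lit 123197) (nat_lit 266) (.e (nat_lit 57424) (nat_lit 14) (.e (nat_lit 352309) (nat_lit 21) .nil)))) .nil)) 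
(.lf (nat_lit 211296) (.g (nat_lit 2590) (.e (nat_lit 81957) (nat_lit 24) (.e (nat_lit 123198) (nat_lit 266) (.e (nat_lit 57423) (nat_lit 14) (.e (nat_lit 352262) (nat_lit 0) (.e (nat_lit 3632) (nat_lit 227) (.e (nat_lit 778327) (nat_lit 6) .nil)))))) (.g (nat_lit 0) .nil .nil)))) (.nd (nat_lit 5) 
(.lf (nat_lit 211280) (.g (nat_lit 1647) (.e (nat_lit 81957) (nat_lit 24) (.e (nat_lit 123197) (nat_lit 266) (.e (nat_lit 57426) (nat_lit 15) (.e (nat_lit 360455) (nat_lit 0) (.e (nat_lit 5848) (nat_lit 320) (.e (nat_lit 7936) (nat_lit 90) .nil)))))) (.g (nat_lit 5) .nil .nil))) 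
(.lf (nat_lit 211312) (.g (nat_lit 1709) (.e (nat_lit 81957) (nat_lit 24) (.e (nat_lit 123198) (nat_lit 266) (.e (nat_lit 57436) (nat_lit 17) (.e (nat_lit 376859) (nat_lit 21) (.e (nat_lit 57870) (nat_lit 264) (.e (nat_lit 1219) (nat_lit 90) .nil)))))) (.g (nat_lit 4) .nil .nil))))) (.nd (nat_lit 4) (.nd (nat_lit 5) 
(.lf (nat_lit 211272) (.g (nat_lit 1957) (.e (nat_lit 81957) (nat_lit 24) (.e (nat_lit 123197) (nat_lit 266) (.e (nat_lit 57424) (nat_lit 14) (.e (nat_lit 352318) (nat_lit 24) (.e (nat_lit 123184) (nat_lit 264) .nil))))) .nil)) 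
(.lf (nat_lit 211304) (.g (nat_lit 1804) (.e (nat_lit 81957) (nat_lit 24) (.e (nat_lit 123198) (nat_lit 266) (.e (nat_lit 57424) (nat_lit 14) (.e (nat_lit 352309) (nat_lit 21) (.e (nat_lit 57872) (nat_lit 264) .nil))))) .nil))) (.nd (nat_lit 5) 
(.lf (nat_lit 211288) (.g (nat_lit 2948) (.e (nat_lit 81957) (nat_lit 24) (.e (nat_lit 123197) (nat_lit 266) (.e (nat_lit 57436) (nat_lit 17) (.e (nat_lit 376859) (nat_lit 21) (.e (nat_lit 57872) (nat_lit 264) (.e (nat_lit 1219) (nat_lit 90) .nil)))))) (.g (nat_lit 6) .nil .nil))) 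
(.lf (nat_lit 211320) (.g (nat_lit 1883) (.e (nat_lit 81958) (nat_lit 24) (.e (nat_lit 123182) (nat_lit 264) (.e (nat_lit 1201) (nat_lit 88) (.e (nat_lit 65617) (nat_lit 10) .nil)))) .nil))))) (.nd (nat_lit 3) (.nd (nat_lit 4) (.nd (nat_lit 5) 
(.lf (nat_lit 211268) (.g (nat_lit 1189) (.e (nat_lit 81957) (nat_lit 24) (.e (nat_lit 123197) (nat_lit 266) (.e (nat_lit 57424) (nat_lit 14) (.e (nat_lit 352318) (nat_lit 24) .nil)))) .nil)) 
(.lf (nat_lit 211300) (.g (nat_lit 2826) (.e (nat_lit 81957) (nat_lit 24) (.e (nat_lit 123198) (nat_lit 266) (.e (nat_lit 57424) (nat_lit 14) (.e (nat_lit 352262) (nat_lit 0) (.e (nat_lit 3632) (nat_lit 227) (.e (nat_lit 778327) (nat_lit 6) .nil)))))) (.g (nat_lit 0) .nil .nil)))) (.nd (nat_lit 5) 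
(.lf (nat_lit 211284) (.g (nat_lit 1813) (.e (nat_lit 81957) (nat_lit 24) (.e (nat_lit 123197) (nat_lit 266) (.e (nat_lit 57427) (nat_lit 15) (.e (nat_lit 360455) (nat_lit 0) (.e (nat_lit 5848) (nat_lit 320) (.e (nat_lit 7936) (nat_lit 90) .nil)))))) (.g (nat_lit 5) .nil .nil))) 
(.lf (nat_lit 211316) (.g (nat_lit 1586) (.e (nat_lit 81958) (nat_lit 24) (.e (nat_lit 123182) (nat_lit 264) (.e (nat_lit 1193) (nat_lit 88) (.e (nat_lit 65623) (nat_lit 12) (.e (nat_lit 385094) (nat_lit 49) .nil))))) .nil)))) (.nd (nat_lit 4) (.nd (nat_lit 5) 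
(.lf (nat_lit 211276) (.g (nat_lit 2357) (.e (nat_lit 81957) (nat_lit 24) (.e (nat_lit 123197) (nat_lit 266) (.e (nat_lit 57426) (nat_lit 15) (.e (nat_lit 360452) (nat_lit 0) (.e (nat_lit 5906) (nat_lit 320) (.e (nat_lit 1219) (nat_lit 90) .nil)))))) (.g (nat_lit 5) .nil .nil))) 
(.lf (nat_lit 211308) (.g (nat_lit 3499) (.e (nat_lit 81957) (nat_lit 24) (.e (nat_lit 123198) (nat_lit 266) (.e (nat_lit 57424) (nat_lit 14) (.e (nat_lit 352318) (nat_lit 24) (.e (nat_lit 123183) (nat_lit 264) (.e (nat_lit 1222) (nat_lit 90) .nil)))))) (.g (nat_lit 0) .nil .nil)))) (.nd (nat_lit 5) 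
(.lf (nat_lit 211292) (.g (nat_lit 1436) (.e (nat_lit 81957) (nat_lit 24) (.e (nat_lit 123198) (nat_lit 266) (.e (nat_lit 57419) (nat_lit 12) (.e (nat_lit 336075) (nat_lit 9) (.e (nat_lit 336332) (nat_lit 19) (.e (nat_lit 220928) (nat_lit 6) .nil)))))) (.g (nat_lit 5) .nil .nil))) 
(.lf (nat_lit 211324) (.g (nat_lit 1949) (.e (nat_lit 81958) (nat_lit 24) (.e (nat_lit 123182) (nat_lit 264) (.e (nat_lit 1201) (nat_lit 88) (.e (nat_lit 65622) (nat_lit 12) .nil)))) .nil)))))) (.nd (nat_lit 2) (.nd (nat_lit 3) (.nd (nat_lit 4) (.nd (nat_lit 5) 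
(.lf (nat_lit 211266) (.g (nat_lit 1635) (.e (nat_lit 81957) (nat_lit 24) (.e (nat_lit 123197) (nat_lit 266) (.e (nat_lit 57424) (nat_lit 14) (.e (nat_lit 352316) (nat_lit 24) .nil)))) .nil)) 
(.lf (nat_lit 211298) (.g (nat_lit 1923) (.e (nat_lit 81957) (nat_lit 24) (.e (nat_lit 123198) (nat_lit 266) (.e (nat_lit 57423) (nat_lit 14) (.e (nat_lit 352318) (nat_lit 24) (.e (nat_lit 123185) (nat_lit 264) (.e (nat_lit 1224) (nat_lit 90) .nil)))))) (.g (nat_lit 4) .nil .nil)))) (.nd (nat_lit 5) 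
(.lf (nat_lit 211282) (.g (nat_lit 1558) (.e (nat_lit 81957) (nat_lit 24) (.e (nat_lit 123197) (nat_lit 266) (.e (nat_lit 57426) (nat_lit 15) (.e (nat_lit 360486) (nat_lit 18) (.e (nat_lit 679680) (nat_lit 6) .nil))))) (.g (nat_lit 4) .nil .nil))) 
(.lf (nat_lit 211314) (.g (nat_lit 2437) (.e (nat_lit 81957) (nat_lit 24) (.e (nat_lit 123199) (nat_lit 267) (.e (nat_lit 122919) (nat_lit 15) (.e (nat_lit 360486) (nat_lit 18) (.e (nat_lit 671764) (nat_lit 6) .nil))))) (.g (nat_lit 4) .nil .nil))))) (.nd (nat_lit 4) (.nd (nat_lit 5) 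
(.lf (nat_lit 211274) (.g (nat_lit 1878) (.e (nat_lit 81957) (nat_lit 24) (.e (nat_lit 123197) (nat_lit 266) (.e (nat_lit 57425) (nat_lit 14) (.e (nat_lit 352318) (nat_lit 24) (.e (nat_lit 123185) (nat_lit 264) (.e (nat_lit 1222) (nat_lit 90) .nil)))))) (.g (nat_lit 4) .nil .nil))) 
(.lf (nat_lit 211306) (.g (nat_lit 3951) (.e (nat_lit 81957) (nat_lit 24) (.e (nat_lit 123198) (nat_lit 266) (.e (nat_lit 57424) (nat_lit 14) (.e (nat_lit 352318) (nat_lit 24) (.e (nat_lit 123182) (nat_lit 264) (.e (nat_lit 1222) (nat_lit 90) .nil)))))) (.g (nat_lit 0) .nil .nil)))) (.nd (nat_lit 5) 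
(.lf (nat_lit 211290) (.g (nat_lit 1623) (.e (nat_lit 81957) (nat_lit 24) (.e (nat_lit 123198) (nat_lit 266) (.e (nat_lit 57417) (nat_lit 12) (.e (nat_lit 336116) (nat_lit 9) (.e (nat_lit 336331) (nat_lit 19) (.e (nat_lit 220928) (nat_lit 6) .nil)))))) (.g (nat_lit 5) .nil .nil))) 
(.lf (nat_lit 211322) (.g (nat_lit 2578) (.e (nat_lit 81958) (nat_lit 24) (.e (nat_lit 123182) (nat_lit 264) (.e (nat_lit 1201) (nat_lit 88) (.e (nat_lit 65617) (nat_lit 10) (.e (nat_lit 344169) (nat_lit 40) (.e (nat_lit 671764) (nat_lit 6) .nil)))))) (.g (nat_lit 4) .nil .nil)))))) (.nd (nat_lit 3) (.nd (nat_lit 4) (.nd (nat_lit 5) 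
(.lf (nat_lit 211270) (.g (nat_lit 3457) (.e (nat_lit 81957) (nat_lit 24) (.e (nat_lit 123197) (nat_lit 266) (.e (nat_lit 57424) (nat_lit 14) (.e (nat_lit 352318) (nat_lit 24) (.e (nat_lit 123182) (nat_lit 264) (.e (nat_lit 1224) (nat_lit 90) .nil)))))) (.g (nat_lit 5) .nil .nil))) 
(.lf (nat_lit 211302) (.g (nat_lit 1530) (.e (nat_lit 81957) (nat_lit 24) (.e (nat_lit 123198) (nat_lit 266) (.e (nat_lit 57424) (nat_lit 14) (.e (nat_lit 352270) (nat_lit 8) (.e (nat_lit 270080) (nat_lit 6) .nil))))) (.g (nat_lit 4) .nil .nil)))) (.nd (nat_lit 5) 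
(.lf (nat_lit 211286) (.g (nat_lit 1977) (.e (nat_lit 81957) (nat_lit 24) (.e (nat_lit 123197) (nat_lit 266) (.e (nat_lit 57427) (nat_lit 15) (.e (nat_lit 360486) (nat_lit 18) (.e (nat_lit 679680) (nat_lit 6) .nil))))) (.g (nat_lit 4) .nil .nil))) 
(.lf (nat_lit 211318) (.g (nat_lit 2629) (.e (nat_lit 81958) (nat_lit 24) (.e (nat_lit 123182) (nat_lit 264) (.e (nat_lit 1201) (nat_lit 88) (.e (nat_lit 65610) (nat_lit 10) (.e (nat_lit 344097) (nat_lit 18) (.e (nat_lit 5906) (nat_lit 320) (.e (nat_lit 1219) (nat_lit 90) .nil))))))) (.g (nat_lit 4) .nil .nil))))) (.nd (nat_lit 4) (.nd (nat_lit 5) 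
(.lf (nat_lit 211278) (.g (nat_lit 2199) (.e (nat_lit 81957) (nat_lit 24) (.e (nat_lit 123197) (nat_lit 266) (.e (nat_lit 57426) (nat_lit 15) (.e (nat_lit 360452) (nat_lit 0) (.e (nat_lit 5907) (nat_lit 320) (.e (nat_lit 7936) (nat_lit 90) .nil)))))) (.g (nat_lit 5) .nil .nil))) 
(.lf (nat_lit 211310) (.g (nat_lit 2020) (.e (nat_lit 81957) (nat_lit 24) (.e (nat_lit 123198) (nat_lit 266) (.e (nat_lit 57427) (nat_lit 15) (.e (nat_lit 360457) (nat_lit 0) (.e (nat_lit 5818) (nat_lit 320) (.e (nat_lit 1224) (nat_lit 90) .nil)))))) (.g (nat_lit 5) .nil .nil)))) (.nd (nat_lit 5) 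
(.lf (nat_lit 211294) (.g (nat_lit 1419) (.e (nat_lit 81957) (nat_lit 24) (.e (nat_lit 123198) (nat_lit 266) (.e (nat_lit 57419) (nat_lit 12) (.e (nat_lit 336194) (nat_lit 12) (.e (nat_lit 385096) (nat_lit 49) (.e (nat_lit 786176) (nat_lit 6) .nil)))))) (.g (nat_lit 4) .nil .nil))) 
(.lf (nat_lit 211326) (.g (nat_lit 1233) (.e (nat_lit 81958) (nat_lit 24) (.e (nat_lit 123182) (nat_lit 264) (.e (nat_lit 1222) (nat_lit 90) (.e (nat_lit 81924) (nat_lit 0) .nil)))) .nil))))))) (.nd (nat_lit 1) (.nd (nat_lit 2) (.nd (nat_lit 3) (.nd (nat_lit 4) (.nd (nat_lit 5) 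
(.lf (nat_lit 211265) (.g (nat_lit 1926) (.e (nat_lit 81957) (nat_lit 24) (.e (nat_lit 123197) (nat_lit 266) (.e (nat_lit 57424) (nat_lit 14) (.e (nat_lit 352309) (nat_lit 21) (.e (nat_lit 57872) (nat_lit 264) .nil))))) .nil)) 
(.lf (nat_lit 211297) (.g (nat_lit 1253) (.e (nat_lit 81957) (nat_lit 24) (.e (nat_lit 123198) (nat_lit 266) (.e (nat_lit 57423) (nat_lit 14) (.e (nat_lit 352270) (nat_lit 8) (.e (nat_lit 270080) (nat_lit 6) .nil))))) (.g (nat_lit 4) .nil .nil)))) (.nd (nat_lit 5) 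
(.lf (nat_lit 211281) (.g (nat_lit 2365) (.e (nat_lit 81957) (nat_lit 24) (.e (nat_lit 123197) (nat_lit 266) (.e (nat_lit 57426) (nat_lit 15) (.e (nat_lit 360456) (nat_lit 0) (.e (nat_lit 5818) (nat_lit 320) (.e (nat_lit 1224) (nat_lit 90) .nil)))))) (.g (nat_lit 0) .nil .nil))) 
(.lf (nat_lit 211313) (.g (nat_lit 1554) (.e (nat_lit 81957) (nat_lit 24) (.e (nat_lit 123198) (nat_lit 266) (.e (nat_lit 57436) (nat_lit 17) (.e (nat_lit 376860) (nat_lit 21) (.e (nat_lit 65280) (nat_lit 264) .nil))))) .nil)))) (.nd (nat_lit 4) (.nd (nat_lit 5) 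
(.lf (nat_lit 211273) (.g (nat_lit 4207) (.e (nat_lit 81957) (nat_lit 24) (.e (nat_lit 123197) (nat_lit 266) (.e (nat_lit 57424) (nat_lit 14) (.e (nat_lit 352318) (nat_lit 24) (.e (nat_lit 123184) (nat_lit 264) (.e (nat_lit 1222) (nat_lit 90) .nil)))))) (.g (nat_lit 0) .nil .nil))) 
(.lf (nat_lit 211305) (.g (nat_lit 1322) (.e (nat_lit 81957) (nat_lit 24) (.e (nat_lit 123198) (nat_lit 266) (.e (nat_lit 57424) (nat_lit 14) (.e (nat_lit 352317) (nat_lit 24) .nil)))) .nil))) (.nd (nat_lit 5) 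
(.lf (nat_lit 211289) (.g (nat_lit 800) (.e (nat_lit 81957) (nat_lit 24) (.e (nat_lit 123197) (nat_lit 266) (.e (nat_lit 57436) (nat_lit 17) (.e (nat_lit 376870) (nat_lit 24) .nil)))) .nil)) 
(.lf (nat_lit 211321) (.g (nat_lit 2682) (.e (nat_lit 81958) (nat_lit 24) (.e (nat_lit 123182) (nat_lit 264) (.e (nat_lit 1201) (nat_lit 88) (.e (nat_lit 65617) (nat_lit 10) (.e (nat_lit 344168) (nat_lit 40) .nil))))) .nil))))) (.nd (nat_lit 3) (.nd (nat_lit 4) (.nd (nat_lit 5) 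
(.lf (nat_lit 211269) (.g (nat_lit 4274) (.e (nat_lit 81957) (nat_lit 24) (.e (nat_lit 123197) (nat_lit 266) (.e (nat_lit 57424) (nat_lit 14) (.e (nat_lit 352318) (nat_lit 24) (.e (nat_lit 123182) (nat_lit 264) (.e (nat_lit 1222) (nat_lit 90) .nil)))))) (.g (nat_lit 0) .nil .nil))) 
(.lf (nat_lit 211301) (.g (nat_lit 1770) (.e (nat_lit 81957) (nat_lit 24) (.e (nat_lit 123198) (nat_lit 266) (.e (nat_lit 57424) (nat_lit 14) (.e (nat_lit 352265) (nat_lit 0) (.e (nat_lit 3632) (nat_lit 227) .nil))))) .nil))) (.nd (nat_lit 5) 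
(.lf (nat_lit 211285) (.g (nat_lit 2562) (.e (nat_lit 81957) (nat_lit 24) (.e (nat_lit 123197) (nat_lit 266) (.e (nat_lit 57427) (nat_lit 15) (.e (nat_lit 360456) (nat_lit 0) (.e (nat_lit 5818) (nat_lit 320) (.e (nat_lit 1224) (nat_lit 90) .nil)))))) (.g (nat_lit 0) .nil .nil))) 
(.lf (nat_lit 211317) (.g (nat_lit 2591) (.e (nat_lit 81958) (nat_lit 24) (.e (nat_lit 123182) (nat_lit 264) (.e (nat_lit 1201) (nat_lit 88) (.e (nat_lit 65610) (nat_lit 10) (.e (nat_lit 344097) (nat_lit 18) (.e (nat_lit 5905) (nat_lit 320) (.e (nat_lit 1219) (nat_lit 90) .nil))))))) (.g (nat_lit 4) .nil .nil))))) (.nd (nat_lit 4) (.nd (nat_lit 5) 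
(.lf (nat_lit 211277) (.g (nat_lit 3681) (.e (nat_lit 81957) (nat_lit 24) (.e (nat_lit 123197) (nat_lit 266) (.e (nat_lit 57426) (nat_lit 15) (.e (nat_lit 360452) (nat_lit 0) (.e (nat_lit 5907) (nat_lit 320) (.e (nat_lit 1221) (nat_lit 90) .nil)))))) (.g (nat_lit 6) .nil .nil))) 
(.lf (nat_lit 211309) (.g (nat_lit 3951) (.e (nat_lit 81957) (nat_lit 24) (.e (nat_lit 123198) (nat_lit 266) (.e (nat_lit 57424) (nat_lit 14) (.e (nat_lit 352318) (nat_lit 24) (.e (nat_lit 123184) (nat_lit 264) (.e (nat_lit 1222) (nat_lit 90) .nil)))))) (.g (nat_lit 0) .nil .nil)))) (.nd (nat_lit 5) 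
(.lf (nat_lit 211293) (.g (nat_lit 1708) (.e (nat_lit 81957) (nat_lit 24) (.e (nat_lit 123198) (nat_lit 266) (.e (nat_lit 57419) (nat_lit 12) (.e (nat_lit 336076) (nat_lit 9) (.e (nat_lit 336332) (nat_lit 19) (.e (nat_lit 220928) (nat_lit 6) .nil)))))) (.g (nat_lit 5) .nil .nil))) 
(.lf (nat_lit 211325) (.g (nat_lit 2774) (.e (nat_lit 81958) (nat_lit 24) (.e (nat_lit 123182) (nat_lit 264) (.e (nat_lit 1201) (nat_lit 88) (.e (nat_lit 65624) (nat_lit 12) (.e (nat_lit 385092) (nat_lit 49) (.e (nat_lit 778326) (nat_lit 6) .nil)))))) (.g (nat_lit 4) .nil .nil))))))) (.nd (nat_lit 2) (.nd (nat_lit 3) (.nd (nat_lit 4) (.nd (nat_lit 5) 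
(.lf (nat_lit 211267) (.g (nat_lit 2225) (.e (nat_lit 81957) (nat_lit 24) (.e (nat_lit 123197) (nat_lit 266) (.e (nat_lit 57424) (nat_lit 14) (.e (nat_lit 352316) (nat_lit 24) (.e (nat_lit 123185) (nat_lit 264) .nil))))) .nil)) 
(.lf (nat_lit 211299) (.g (nat_lit 3049) (.e (nat_lit 81957) (nat_lit 24) (.e (nat_lit 123198) (nat_lit 266) (.e (nat_lit 57424) (nat_lit 14) (.e (nat_lit 352262) (nat_lit 0) (.e (nat_lit 3632) (nat_lit 227) (.e (nat_lit 778326) (nat_lit 6) .nil)))))) (.g (nat_lit 0) .nil .nil)))) (.nd (nat_lit 5) 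
(.lf (nat_lit 211283) (.g (nat_lit 1696) (.e (nat_lit 81957) (nat_lit 24) (.e (nat_lit 123197) (nat_lit 266) (.e (nat_lit 57427) (nat_lit 15) (.e (nat_lit 360455) (nat_lit 0) (.e (nat_lit 5813) (nat_lit 320) (.e (nat_lit 7936) (nat_lit 90) .nil)))))) (.g (nat_lit 5) .nil .nil))) 
(.lf (nat_lit 211315) (.g (nat_lit 1137) (.e (nat_lit 81958) (nat_lit 24) (.e (nat_lit 123182) (nat_lit 264) (.e (nat_lit 1193) (nat_lit 88) (.e (nat_lit 65622) (nat_lit 12) .nil)))) .nil)))) (.nd (nat_lit 4) (.nd (nat_lit 5) 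
(.lf (nat_lit 211275) (.g (nat_lit 3084) (.e (nat_lit 81957) (nat_lit 24) (.e (nat_lit 123197) (nat_lit 266) (.e (nat_lit 57426) (nat_lit 15) (.e (nat_lit 360452) (nat_lit 0) (.e (nat_lit 5905) (nat_lit 320) (.e (nat_lit 1221) (nat_lit 90) .nil)))))) (.g (nat_lit 6) .nil .nil))) 
(.lf (nat_lit 211307) (.g (nat_lit 3126) (.e (nat_lit 81957) (nat_lit 24) (.e (nat_lit 123198) (nat_lit 266) (.e (nat_lit 57424) (nat_lit 14) (.e (nat_lit 352318) (nat_lit 24) (.e (nat_lit 123182) (nat_lit 264) (.e (nat_lit 1224) (nat_lit 90) .nil)))))) (.g (nat_lit 5) .nil .nil)))) (.nd (nat_lit 5) 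
(.lf (nat_lit 211291) (.g (nat_lit 1596) (.e (nat_lit 81957) (nat_lit 24) (.e (nat_lit 123198) (nat_lit 266) (.e (nat_lit 57417) (nat_lit 12) (.e (nat_lit 336118) (nat_lit 9) (.e (nat_lit 336331) (nat_lit 19) (.e (nat_lit 220928) (nat_lit 6) .nil)))))) (.g (nat_lit 5) .nil .nil))) 
(.lf (nat_lit 211323) (.g (nat_lit 2292) (.e (nat_lit 81958) (nat_lit 24) (.e (nat_lit 123182) (nat_lit 264) (.e (nat_lit 1201) (nat_lit 88) (.e (nat_lit 65619) (nat_lit 10) .nil)))) .nil))))) (.nd (nat_lit 3) (.nd (nat_lit 4) (.nd (nat_lit 5) 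
(.lf (nat_lit 211271) (.g (nat_lit 3767) (.e (nat_lit 81957) (nat_lit 24) (.e (nat_lit 123197) (nat_lit 266) (.e (nat_lit 57424) (nat_lit 14) (.e (nat_lit 352318) (nat_lit 24) (.e (nat_lit 123183) (nat_lit 264) (.e (nat_lit 1222) (nat_lit 90) .nil)))))) (.g (nat_lit 0) .nil .nil))) 
(.lf (nat_lit 211303) (.g (nat_lit 1063) (.e (nat_lit 81957) (nat_lit 24) (.e (nat_lit 123198) (nat_lit 266) (.e (nat_lit 57424) (nat_lit 14) (.e (nat_lit 352309) (nat_lit 21) .nil)))) .nil))) (.nd (nat_lit 5) 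
(.lf (nat_lit 211287) (.g (nat_lit 1676) (.e (nat_lit 81957) (nat_lit 24) (.e (nat_lit 123197) (nat_lit 266) (.e (nat_lit 57435) (nat_lit 17) (.e (nat_lit 376835) (nat_lit 0) (.e (nat_lit 3630) (nat_lit 227) (.e (nat_lit 778326) (nat_lit 6) .nil)))))) (.g (nat_lit 4) .nil .nil))) 
(.lf (nat_lit 211319) (.g (nat_lit 2953) (.e (nat_lit 81958) (nat_lit 24) (.e (nat_lit 123182) (nat_lit 264) (.e (nat_lit 1201) (nat_lit 88) (.e (nat_lit 65610) (nat_lit 10) (.e (nat_lit 344168) (nat_lit 40) .nil))))) .nil)))) (.nd (nat_lit 4) (.nd (nat_lit 5) 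
(.lf (nat_lit 211279) (.g (nat_lit 1583) (.e (nat_lit 81957) (nat_lit 24) (.e (nat_lit 123197) (nat_lit 266) (.e (nat_lit 57426) (nat_lit 15) (.e (nat_lit 360455) (nat_lit 0) (.e (nat_lit 5813) (nat_lit 320) (.e (nat_lit 7936) (nat_lit 90) .nil)))))) (.g (nat_lit 5) .nil .nil))) 
(.lf (nat_lit 211311) (.g (nat_lit 1309) (.e (nat_lit 81957) (nat_lit 24) (.e (nat_lit 123198) (nat_lit 266) (.e (nat_lit 57435) (nat_lit 17) (.e (nat_lit 376835) (nat_lit 0) (.e (nat_lit 3630) (nat_lit 227) (.e (nat_lit 778326) (nat_lit 6) .nil)))))) (.g (nat_lit 4) .nil .nil)))) (.nd (nat_lit 5) 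
(.lf (nat_lit 211295) (.g (nat_lit 2801) (.e (nat_lit 81957) (nat_lit 24) (.e (nat_lit 123198) (nat_lit 266) (.e (nat_lit 57423) (nat_lit 14) (.e (nat_lit 352262) (nat_lit 0) (.e (nat_lit 3632) (nat_lit 227) (.e (nat_lit 778326) (nat_lit 6) .nil)))))) (.g (nat_lit 0) .nil .nil))) 
(.lf (nat_lit 211327) (.g (nat_lit 1619) (.e (nat_lit 81958) (nat_lit 24) (.e (nat_lit 123182) (nat_lit 264) (.e (nat_lit 1222) (nat_lit 90) (.e (nat_lit 81924) (nat_lit 0) (.e (nat_lit 3631) (nat_lit 227) .nil))))) .nil))))))))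

noncomputable def tv2791 : DT := (.nd (nat_lit 0) (.nd (nat_lit 1) (.nd (nat_lit 2) (.nd (nat_lit 3) (.nd (nat_lit 4) (.nd (nat_lit 5) (.nd (nat_lit 6) 
(.lf (nat_lit 211328) (.g (nat_lit 1938) (.e (nat_lit 81958) (nat_lit 24) (.e (nat_lit 123182) (nat_lit 264) (.e (nat_lit 1222) (nat_lit 90) (.e (nat_lit 81924) (nat_lit 0) (.e (nat_lit 3631) (nat_lit 227) (.e (nat_lit 778326) (nat_lit 6) .nil)))))) (.g (nat_lit 4) .nil .nil))) 
(.lf (nat_lit 211392) (.g (nat_lit 2582) (.e (nat_lit 81959) (nat_lit 24) (.e (nat_lit 123160) (nat_lit 254) (.e (nat_lit 163932) (nat_lit 17) (.e (nat_lit 466972) (nat_lit 21) (.e (nat_lit 164305) (nat_lit 226) (.e (nat_lit 7936) (nat_lit 90) .nil)))))) (.g (nat_lit 5) .nil .nil)))) (.nd (nat_lit 6) 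
(.lf (nat_lit 211360) (.g (nat_lit 887) (.e (nat_lit 81958) (nat_lit 24) (.e (nat_lit 123184) (nat_lit 264) (.e (nat_lit 1296) (nat_lit 96) (.e (nat_lit 131121) (nat_lit 12) .nil)))) .nil)) 
(.lf (nat_lit 211424) (.g (nat_lit 2417) (.e (nat_lit 81959) (nat_lit 24) (.e (nat_lit 123182) (nat_lit 264) (.e (nat_lit 1201) (nat_lit 88) (.e (nat_lit 65619) (nat_lit 10) (.e (nat_lit 344097) (nat_lit 18) .nil))))) .nil)))) (.nd (nat_lit 5) (.nd (nat_lit 6) 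
(.lf (nat_lit 211344) (.g (nat_lit 2313) (.e (nat_lit 81958) (nat_lit 24) (.e (nat_lit 123184) (nat_lit 264) (.e (nat_lit 1201) (nat_lit 88) (.e (nat_lit 65624) (nat_lit 12) (.e (nat_lit 385093) (nat_lit 49) (.e (nat_lit 778326) (nat_lit 6) .nil)))))) (.g (nat_lit 5) .nil .nil))) 
(.lf (nat_lit 211408) (.g (nat_lit 2932) (.e (nat_lit 81959) (nat_lit 24) (.e (nat_lit 123182) (nat_lit 264) (.e (nat_lit 1191) (nat_lit 88) (.e (nat_lit 65624) (nat_lit 12) (.e (nat_lit 385092) (nat_lit 49) (.e (nat_lit 778327) (nat_lit 6) .nil)))))) (.g (nat_lit 4) .nil .nil)))) (.nd (nat_lit 6) 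
(.lf (nat_lit 211376) (.g (nat_lit 2215) (.e (nat_lit 81958) (nat_lit 24) (.e (nat_lit 123195) (nat_lit 266) (.e (nat_lit 57427) (nat_lit 15) (.e (nat_lit 360455) (nat_lit 0) .nil)))) .nil)) 
(.lf (nat_lit 211440) (.g (nat_lit 1397) (.e (nat_lit 81959) (nat_lit 24) (.e (nat_lit 123182) (nat_lit 264) (.e (nat_lit 1222) (nat_lit 90) (.e (nat_lit 81935) (nat_lit 20) .nil)))) .nil))))) (.nd (nat_lit 4) (.nd (nat_lit 5) (.nd (nat_lit 6) 
(.lf (nat_lit 211336) (.g (nat_lit 1336) (.e (nat_lit 81958) (nat_lit 24) (.e (nat_lit 123182) (nat_lit 264) (.e (nat_lit 1224) (nat_lit 90) (.e (nat_lit 81946) (nat_lit 20) .nil)))) .nil)) 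
(.lf (nat_lit 211400) (.g (nat_lit 2660) (.e (nat_lit 81959) (nat_lit 24) (.e (nat_lit 123182) (nat_lit 264) (.e (nat_lit 1016) (nat_lit 81) (.e (nat_lit 1569) (nat_lit 110) (.e (nat_lit 360192) (nat_lit 4) (.e (nat_lit 220928) (nat_lit 6) .nil)))))) (.g (nat_lit 4) .nil .nil)))) (.nd (nat_lit 6) 
(.lf (nat_lit 211368) (.g (nat_lit 1609) (.e (nat_lit 81958) (nat_lit 24) (.e (nat_lit 123195) (nat_lit 266) (.e (nat_lit 57412) (nat_lit 12) (.e (nat_lit 336200) (nat_lit 12) (.e (nat_lit 385094) (nat_lit 49) .nil))))) .nil)) 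
(.lf (nat_lit 211432) (.g (nat_lit 2598) (.e (nat_lit 81959) (nat_lit 24) (.e (nat_lit 123182) (nat_lit 264) (.e (nat_lit 1222) (nat_lit 90) (.e (nat_lit 81921) (nat_lit 0) (.e (nat_lit 3711) (nat_lit 227) (.e (nat_lit 786176) (nat_lit 6) .nil)))))) (.g (nat_lit 5) .nil .nil))))) (.nd (nat_lit 5) (.nd (nat_lit 6) 
(.lf (nat_lit 211352) (.g (nat_lit 1610) (.e (nat_lit 81958) (nat_lit 24) (.e (nat_lit 123184) (nat_lit 264) (.e (nat_lit 1222) (nat_lit 90) (.e (nat_lit 81943) (nat_lit 20) (.e (nat_lit 2006) (nat_lit 138) .nil))))) .nil)) 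
(.lf (nat_lit 211416) (.g (nat_lit 1982) (.e (nat_lit 81959) (nat_lit 24) (.e (nat_lit 123182) (nat_lit 264) (.e (nat_lit 1201) (nat_lit 88) (.e (nat_lit 65599) (nat_lit 9) (.e (nat_lit 335907) (nat_lit 0) .nil))))) .nil))) (.nd (nat_lit 6) 
(.lf (nat_lit 211384) (.g (nat_lit 2950) (.e (nat_lit 81959) (nat_lit 24) (.e (nat_lit 123056) (nat_lit 155) (.e (nat_lit 122916) (nat_lit 14) (.e (nat_lit 352309) (nat_lit 21) (.e (nat_lit 57654) (nat_lit 152) (.e (nat_lit 1217) (nat_lit 90) .nil)))))) (.g (nat_lit 4) .nil .nil))) 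
(.lf (nat_lit 211448) (.g (nat_lit 3820) (.e (nat_lit 81959) (nat_lit 24) (.e (nat_lit 123182) (nat_lit 264) (.e (nat_lit 1222) (nat_lit 90) (.e (nat_lit 81957) (nat_lit 24) (.e (nat_lit 123182) (nat_lit 264) (.e (nat_lit 1218) (nat_lit 90) .nil)))))) (.g (nat_lit 5) .nil .nil))))))) (.nd (nat_lit 3) (.nd (nat_lit 4) (.nd (nat_lit 5) (.nd (nat_lit 6) 
(.lf (nat_lit 211332) (.g (nat_lit 530) (.e (nat_lit 81958) (nat_lit 24) (.e (nat_lit 123182) (nat_lit 264) (.e (nat_lit 1224) (nat_lit 90) .nil))) .nil)) 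
(.lf (nat_lit 211396) (.g (nat_lit 426) (.e (nat_lit 81959) (nat_lit 24) (.e (nat_lit 123182) (nat_lit 264) (.e (nat_lit 997) (nat_lit 81) .nil))) .nil))) (.nd (nat_lit 6) 
(.lf (nat_lit 211364) (.g (nat_lit 945) (.e (nat_lit 81958) (nat_lit 24) (.e (nat_lit 123185) (nat_lit 264) (.e (nat_lit 1222) (nat_lit 90) (.e (nat_lit 81924) (nat_lit 0) .nil)))) .nil)) 
(.lf (nat_lit 211428) (.g (nat_lit 485) (.e (nat_lit 81959) (nat_lit 24) (.e (nat_lit 123182) (nat_lit 264) (.e (nat_lit 1218) (nat_lit 90) .nil))) .nil)))) (.nd (nat_lit 5) (.nd (nat_lit 6) 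
(.lf (nat_lit 211348) (.g (nat_lit 1612) (.e (nat_lit 81958) (nat_lit 24) (.e (nat_lit 123184) (nat_lit 264) (.e (nat_lit 1222) (nat_lit 90) (.e (nat_lit 81935) (nat_lit 20) (.e (nat_lit 1996) (nat_lit 137) .nil))))) .nil)) 
(.lf (nat_lit 211412) (.g (nat_lit 3782) (.e (nat_lit 81959) (nat_lit 24) (.e (nat_lit 123182) (nat_lit 264) (.e (nat_lit 1193) (nat_lit 88) (.e (nat_lit 65607) (nat_lit 9) (.e (nat_lit 335995) (nat_lit 1) (.e (nat_lit 57872) (nat_lit 264) (.e (nat_lit 1221) (nat_lit 90) .nil))))))) (.g (nat_lit 7) .nil .nil)))) (.nd (nat_lit 6) 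
(.lf (nat_lit 211380) (.g (nat_lit 1247) (.e (nat_lit 81958) (nat_lit 24) (.e (nat_lit 123197) (nat_lit 266) (.e (nat_lit 57424) (nat_lit 14) (.e (nat_lit 352262) (nat_lit 0) .nil)))) .nil)) 
(.lf (nat_lit 211444) (.g (nat_lit 2584) (.e (nat_lit 81959) (nat_lit 24) (.e (nat_lit 123182) (nat_lit 264) (.e (nat_lit 1222) (nat_lit 90) (.e (nat_lit 81948) (nat_lit 21) (.e (nat_lit 57873) (nat_lit 264) (.e (nat_lit 7936) (nat_lit 90) .nil)))))) (.g (nat_lit 5) .nil .nil)))))) (.nd (nat_lit 4) (.nd (nat_lit 5) (.nd (nat_lit 6) 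
(.lf (nat_lit 211340) (.g (nat_lit 2572) (.e (nat_lit 81958) (nat_lit 24) (.e (nat_lit 123183) (nat_lit 264) (.e (nat_lit 1222) (nat_lit 90) (.e (nat_lit 81948) (nat_lit 21) (.e (nat_lit 57870) (nat_lit 264) (.e (nat_lit 1221) (nat_lit 90) .nil)))))) (.g (nat_lit 6) .nil .nil))) 
(.lf (nat_lit 211404) (.g (nat_lit 636) (.e (nat_lit 81959) (nat_lit 24) (.e (nat_lit 123182) (nat_lit 264) (.e (nat_lit 1183) (nat_lit 87) (.e (nat_lit 65280) (nat_lit 187) .nil)))) .nil))) (.nd (nat_lit 6) 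
(.lf (nat_lit 211372) (.g (nat_lit 2527) (.e (nat_lit 81958) (nat_lit 24) (.e (nat_lit 123195) (nat_lit 266) (.e (nat_lit 57427) (nat_lit 15) (.e (nat_lit 360450) (nat_lit 0) (.e (nat_lit 5896) (nat_lit 320) .nil))))) .nil)) 
(.lf (nat_lit 211436) (.g (nat_lit 1691) (.e (nat_lit 81959) (nat_lit 24) (.e (nat_lit 123182) (nat_lit 264) (.e (nat_lit 1222) (nat_lit 90) (.e (nat_lit 81922) (nat_lit 0) .nil)))) .nil)))) (.nd (nat_lit 5) (.nd (nat_lit 6) 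
(.lf (nat_lit 211356) (.g (nat_lit 1024) (.e (nat_lit 81958) (nat_lit 24) (.e (nat_lit 123184) (nat_lit 264) (.e (nat_lit 1224) (nat_lit 90) (.e (nat_lit 81946) (nat_lit 20) .nil)))) .nil)) 
(.lf (nat_lit 211420) (.g (nat_lit 4191) (.e (nat_lit 81959) (nat_lit 24) (.e (nat_lit 123182) (nat_lit 264) (.e (nat_lit 1201) (nat_lit 88) (.e (nat_lit 65610) (nat_lit 10) (.e (nat_lit 344097) (nat_lit 18) (.e (nat_lit 5906) (nat_lit 320) (.e (nat_lit 7936) (nat_lit 90) .nil))))))) (.g (nat_lit 6) .nil .nil)))) (.nd (nat_lit 6) 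
(.lf (nat_lit 211388) (.g (nat_lit 2838) (.e (nat_lit 81959) (nat_lit 24) (.e (nat_lit 123056) (nat_lit 155) (.e (nat_lit 122919) (nat_lit 15) (.e (nat_lit 360489) (nat_lit 21) (.e (nat_lit 770074) (nat_lit 10) .nil))))) (.g (nat_lit 5) .nil .nil))) 
(.lf (nat_lit 211452) (.g (nat_lit 1750) (.e (nat_lit 81959) (nat_lit 24) (.e (nat_lit 123182) (nat_lit 264) (.e (nat_lit 1222) (nat_lit 90) (.e (nat_lit 81958) (nat_lit 24) .nil)))) .nil))))))) (.nd (nat_lit 2) (.nd (nat_lit 3) (.nd (nat_lit 4) (.nd (nat_lit 5) (.nd (nat_lit 6) 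
(.lf (nat_lit 211330) (.g (nat_lit 1162) (.e (nat_lit 81958) (nat_lit 24) (.e (nat_lit 123182) (nat_lit 264) (.e (nat_lit 1222) (nat_lit 90) (.e (nat_lit 81948) (nat_lit 21) .nil)))) .nil)) 
(.lf (nat_lit 211394) (.g (nat_lit 1407) (.e (nat_lit 81959) (nat_lit 24) (.e (nat_lit 130816) (nat_lit 255) (.e (nat_lit 229415) (nat_lit 15) (.e (nat_lit 450563) (nat_lit 0) (.e (nat_lit 5117) (nat_lit 292) (.e (nat_lit 1217) (nat_lit 90) .nil)))))) (.g (nat_lit 4) .nil .nil)))) (.nd (nat_lit 6) 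
(.lf (nat_lit 211362) (.g (nat_lit 1642) (.e (nat_lit 81958) (nat_lit 24) (.e (nat_lit 123185) (nat_lit 264) (.e (nat_lit 1201) (nat_lit 88) (.e (nat_lit 65624) (nat_lit 12) (.e (nat_lit 385093) (nat_lit 49) .nil))))) .nil)) 
(.lf (nat_lit 211426) (.g (nat_lit 3999) (.e (nat_lit 81959) (nat_lit 24) (.e (nat_lit 123182) (nat_lit 264) (.e (nat_lit 1201) (nat_lit 88) (.e (nat_lit 65624) (nat_lit 12) (.e (nat_lit 385092) (nat_lit 49) (.e (nat_lit 778327) (nat_lit 6) .nil)))))) (.g (nat_lit 5) .nil .nil))))) (.nd (nat_lit 5) (.nd (nat_lit 6) 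
(.lf (nat_lit 211346) (.g (nat_lit 1576) (.e (nat_lit 81958) (nat_lit 24) (.e (nat_lit 123184) (nat_lit 264) (.e (nat_lit 1222) (nat_lit 90) (.e (nat_lit 81924) (nat_lit 0) (.e (nat_lit 3630) (nat_lit 227) .nil))))) .nil)) 
(.lf (nat_lit 211410) (.g (nat_lit 3562) (.e (nat_lit 81959) (nat_lit 24) (.e (nat_lit 123182) (nat_lit 264) (.e (nat_lit 1193) (nat_lit 88) (.e (nat_lit 65598) (nat_lit 9) (.e (nat_lit 335997) (nat_lit 1) (.e (nat_lit 57872) (nat_lit 264) (.e (nat_lit 1221) (nat_lit 90) .nil))))))) (.g (nat_lit 7) .nil .nil)))) (.nd (nat_lit 6) 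
(.lf (nat_lit 211378) (.g (nat_lit 205) (.e (nat_lit 81958) (nat_lit 24) (.e (nat_lit 123197) (nat_lit 266) (.e (nat_lit 57419) (nat_lit 12) .nil))) .nil)) 
(.lf (nat_lit 211442) (.g (nat_lit 3757) (.e (nat_lit 81959) (nat_lit 24) (.e (nat_lit 123182) (nat_lit 264) (.e (nat_lit 1222) (nat_lit 90) (.e (nat_lit 81948) (nat_lit 21) (.e (nat_lit 57872) (nat_lit 264) (.e (nat_lit 1219) (nat_lit 90) .nil)))))) (.g (nat_lit 6) .nil .nil)))))) (.nd (nat_lit 4) (.nd (nat_lit 5) (.nd (nat_lit 6) 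
(.lf (nat_lit 211338) (.g (nat_lit 2053) (.e (nat_lit 81958) (nat_lit 24) (.e (nat_lit 123183) (nat_lit 264) (.e (nat_lit 1201) (nat_lit 88) (.e (nat_lit 65610) (nat_lit 10) (.e (nat_lit 344168) (nat_lit 40) .nil))))) .nil)) 
(.lf (nat_lit 211402) (.g (nat_lit 1974) (.e (nat_lit 81959) (nat_lit 24) (.e (nat_lit 123182) (nat_lit 264) (.e (nat_lit 1028) (nat_lit 81) (.e (nat_lit 1560) (nat_lit 110) (.e (nat_lit 360192) (nat_lit 4) (.e (nat_lit 220928) (nat_lit 6) .nil)))))) (.g (nat_lit 4) .nil .nil)))) (.nd (nat_lit 6) 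
(.lf (nat_lit 211370) (.g (nat_lit 1576) (.e (nat_lit 81958) (nat_lit 24) (.e (nat_lit 123195) (nat_lit 266) (.e (nat_lit 57423) (nat_lit 14) (.e (nat_lit 352270) (nat_lit 8) (.e (nat_lit 270080) (nat_lit 6) .nil))))) (.g (nat_lit 4) .nil .nil))) 
(.lf (nat_lit 211434) (.g (nat_lit 2494) (.e (nat_lit 81959) (nat_lit 24) (.e (nat_lit 123182) (nat_lit 264) (.e (nat_lit 1222) (nat_lit 90) (.e (nat_lit 81921) (nat_lit 0) (.e (nat_lit 3714) (nat_lit 227) (.e (nat_lit 786176) (nat_lit 6) .nil)))))) (.g (nat_lit 5) .nil .nil))))) (.nd (nat_lit 5) (.nd (nat_lit 6) 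
(.lf (nat_lit 211354) (.g (nat_lit 1680) (.e (nat_lit 81958) (nat_lit 24) (.e (nat_lit 123184) (nat_lit 264) (.e (nat_lit 1222) (nat_lit 90) (.e (nat_lit 81948) (nat_lit 21) (.e (nat_lit 57871) (nat_lit 264) .nil))))) .nil)) 
(.lf (nat_lit 211418) (.g (nat_lit 1769) (.e (nat_lit 81959) (nat_lit 24) (.e (nat_lit 123182) (nat_lit 264) (.e (nat_lit 1201) (nat_lit 88) (.e (nat_lit 65604) (nat_lit 9) .nil)))) .nil))) (.nd (nat_lit 6) 
(.lf (nat_lit 211386) (.g (nat_lit 2389) (.e (nat_lit 81959) (nat_lit 24) (.e (nat_lit 123056) (nat_lit 155) (.e (nat_lit 122919) (nat_lit 15) (.e (nat_lit 360451) (nat_lit 0) (.e (nat_lit 7119) (nat_lit 382) (.e (nat_lit 7936) (nat_lit 90) .nil)))))) (.g (nat_lit 4) .nil .nil))) 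
(.lf (nat_lit 211450) (.g (nat_lit 2381) (.e (nat_lit 81959) (nat_lit 24) (.e (nat_lit 123182) (nat_lit 264) (.e (nat_lit 1222) (nat_lit 90) (.e (nat_lit 81957) (nat_lit 24) (.e (nat_lit 123184) (nat_lit 264) (.e (nat_lit 7936) (nat_lit 90) .nil)))))) (.g (nat_lit 4) .nil .nil))))))) (.nd (nat_lit 3) (.nd (nat_lit 4) (.nd (nat_lit 5) (.nd (nat_lit 6) 
(.lf (nat_lit 211334) (.g (nat_lit 1477) (.e (nat_lit 81958) (nat_lit 24) (.e (nat_lit 123182) (nat_lit 264) (.e (nat_lit 1224) (nat_lit 90) (.e (nat_lit 81922) (nat_lit 0) (.e (nat_lit 3632) (nat_lit 227) .nil))))) .nil)) 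
(.lf (nat_lit 211398) (.g (nat_lit 595) (.e (nat_lit 81959) (nat_lit 24) (.e (nat_lit 123182) (nat_lit 264) (.e (nat_lit 998) (nat_lit 81) .nil))) .nil))) (.nd (nat_lit 6) 
(.lf (nat_lit 211366) (.g (nat_lit 1449) (.e (nat_lit 81958) (nat_lit 24) (.e (nat_lit 123185) (nat_lit 264) (.e (nat_lit 1222) (nat_lit 90) (.e (nat_lit 81948) (nat_lit 21) (.e (nat_lit 57873) (nat_lit 264) .nil))))) .nil)) 
(.lf (nat_lit 211430) (.g (nat_lit 427) (.e (nat_lit 81959) (nat_lit 24) (.e (nat_lit 123182) (nat_lit 264) (.e (nat_lit 1222) (nat_lit 90) .nil))) .nil)))) (.nd (nat_lit 5) (.nd (nat_lit 6) 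
(.lf (nat_lit 211350) (.g (nat_lit 1669) (.e (nat_lit 81958) (nat_lit 24) (.e (nat_lit 123184) (nat_lit 264) (.e (nat_lit 1222) (nat_lit 90) (.e (nat_lit 81943) (nat_lit 20) (.e (nat_lit 2004) (nat_lit 138) .nil))))) .nil)) 
(.lf (nat_lit 211414) (.g (nat_lit 1455) (.e (nat_lit 81959) (nat_lit 24) (.e (nat_lit 123182) (nat_lit 264) (.e (nat_lit 1193) (nat_lit 88) (.e (nat_lit 65617) (nat_lit 10) (.e (nat_lit 344087) (nat_lit 18) .nil))))) .nil))) (.nd (nat_lit 6) 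
(.lf (nat_lit 211382) (.g (nat_lit 694) (.e (nat_lit 81958) (nat_lit 24) (.e (nat_lit 123197) (nat_lit 266) (.e (nat_lit 57426) (nat_lit 15) (.e (nat_lit 360452) (nat_lit 0) .nil)))) .nil)) 
(.lf (nat_lit 211446) (.g (nat_lit 1693) (.e (nat_lit 81959) (nat_lit 24) (.e (nat_lit 123182) (nat_lit 264) (.e (nat_lit 1222) (nat_lit 90) (.e (nat_lit 81950) (nat_lit 21) .nil)))) .nil))))) (.nd (nat_lit 4) (.nd (nat_lit 5) (.nd (nat_lit 6) 
(.lf (nat_lit 211342) (.g (nat_lit 2860) (.e (nat_lit 81958) (nat_lit 24) (.e (nat_lit 123183) (nat_lit 264) (.e (nat_lit 1222) (nat_lit 90) (.e (nat_lit 81948) (nat_lit 21) (.e (nat_lit 57873) (nat_lit 264) (.e (nat_lit 1221) (nat_lit 90) .nil)))))) (.g (nat_lit 0) .nil .nil))) 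
(.lf (nat_lit 211406) (.g (nat_lit 3307) (.e (nat_lit 81959) (nat_lit 24) (.e (nat_lit 123182) (nat_lit 264) (.e (nat_lit 1187) (nat_lit 88) (.e (nat_lit 65624) (nat_lit 12) (.e (nat_lit 385094) (nat_lit 49) (.e (nat_lit 778327) (nat_lit 6) .nil)))))) (.g (nat_lit 4) .nil .nil)))) (.nd (nat_lit 6) 
(.lf (nat_lit 211374) (.g (nat_lit 2478) (.e (nat_lit 81958) (nat_lit 24) (.e (nat_lit 123195) (nat_lit 266) (.e (nat_lit 57427) (nat_lit 15) (.e (nat_lit 360451) (nat_lit 0) (.e (nat_lit 5896) (nat_lit 320) (.e (nat_lit 7936) (nat_lit 90) .nil)))))) (.g (nat_lit 4) .nil .nil))) 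
(.lf (nat_lit 211438) (.g (nat_lit 1942) (.e (nat_lit 81959) (nat_lit 24) (.e (nat_lit 123182) (nat_lit 264) (.e (nat_lit 1222) (nat_lit 90) (.e (nat_lit 81922) (nat_lit 0) (.e (nat_lit 3632) (nat_lit 227) .nil))))) .nil)))) (.nd (nat_lit 5) (.nd (nat_lit 6) 
(.lf (nat_lit 211358) (.g (nat_lit 1358) (.e (nat_lit 81958) (nat_lit 24) (.e (nat_lit 123184) (nat_lit 264) (.e (nat_lit 1224) (nat_lit 90) (.e (nat_lit 81947) (nat_lit 20) (.e (nat_lit 2006) (nat_lit 138) .nil))))) .nil)) 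
(.lf (nat_lit 211422) (.g (nat_lit 5248) (.e (nat_lit 81959) (nat_lit 24) (.e (nat_lit 123182) (nat_lit 264) (.e (nat_lit 1201) (nat_lit 88) (.e (nat_lit 65610) (nat_lit 10) (.e (nat_lit 344097) (nat_lit 18) (.e (nat_lit 5907) (nat_lit 320) (.e (nat_lit 1219) (nat_lit 90) .nil))))))) (.g (nat_lit 7) .nil .nil)))) (.nd (nat_lit 6) 
(.lf (nat_lit 211390) (.g (nat_lit 2335) (.e (nat_lit 81959) (nat_lit 24) (.e (nat_lit 123160) (nat_lit 254) (.e (nat_lit 163905) (nat_lit 12) (.e (nat_lit 426320) (nat_lit 12) (.e (nat_lit 475193) (nat_lit 38) (.e (nat_lit 688185) (nat_lit 18) .nil)))))) (.g (nat_lit 4) .nil .nil))) 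
(.lf (nat_lit 211454) (.g (nat_lit 4120) (.e (nat_lit 81959) (nat_lit 24) (.e (nat_lit 123182) (nat_lit 264) (.e (nat_lit 1222) (nat_lit 90) (.e (nat_lit 81959) (nat_lit 24) (.e (nat_lit 123182) (nat_lit 264) (.e (nat_lit 1218) (nat_lit 90) .nil)))))) (.g (nat_lit 5) .nil .nil))))))))) (.nd (nat_lit 1) (.nd (nat_lit 2) (.nd (nat_lit 3) (.nd (nat_lit 4) (.nd (nat_lit 5) (.nd (nat_lit 6) 
(.lf (nat_lit 211329) (.g (nat_lit 1413) (.e (nat_lit 81958) (nat_lit 24) (.e (nat_lit 123182) (nat_lit 264) (.e (nat_lit 1222) (nat_lit 90) (.e (nat_lit 89856) (nat_lit 8) .nil)))) .nil)) 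
(.lf (nat_lit 211393) (.g (nat_lit 2227) (.e (nat_lit 81959) (nat_lit 24) (.e (nat_lit 123160) (nat_lit 254) (.e (nat_lit 163932) (nat_lit 17) (.e (nat_lit 466972) (nat_lit 21) (.e (nat_lit 164307) (nat_lit 226) (.e (nat_lit 7936) (nat_lit 90) .nil)))))) (.g (nat_lit 4) .nil .nil)))) (.nd (nat_lit 6) 
(.lf (nat_lit 211361) (.g (nat_lit 886) (.e (nat_lit 81958) (nat_lit 24) (.e (nat_lit 123185) (nat_lit 264) (.e (nat_lit 1201) (nat_lit 88) (.e (nat_lit 65624) (nat_lit 12) .nil)))) .nil)) 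
(.lf (nat_lit 211425) (.g (nat_lit 3381) (.e (nat_lit 81959) (nat_lit 24) (.e (nat_lit 123182) (nat_lit 264) (.e (nat_lit 1201) (nat_lit 88) (.e (nat_lit 65622) (nat_lit 12) (.e (nat_lit 385092) (nat_lit 49) (.e (nat_lit 778326) (nat_lit 6) .nil)))))) (.g (nat_lit 4) .nil .nil))))) (.nd (nat_lit 5) (.nd (nat_lit 6) 
(.lf (nat_lit 211345) (.g (nat_lit 1581) (.e (nat_lit 81958) (nat_lit 24) (.e (nat_lit 123184) (nat_lit 264) (.e (nat_lit 1222) (nat_lit 90) (.e (nat_lit 81924) (nat_lit 0) (.e (nat_lit 3629) (nat_lit 227) .nil))))) .nil)) 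
(.lf (nat_lit 211409) (.g (nat_lit 380) (.e (nat_lit 81959) (nat_lit 24) (.e (nat_lit 123182) (nat_lit 264) (.e (nat_lit 1193) (nat_lit 88) .nil))) .nil))) (.nd (nat_lit 6) 
(.lf (nat_lit 211377) (.g (nat_lit 2133) (.e (nat_lit 81958) (nat_lit 24) (.e (nat_lit 123195) (nat_lit 266) (.e (nat_lit 57427) (nat_lit 15) (.e (nat_lit 360486) (nat_lit 18) .nil)))) .nil)) 
(.lf (nat_lit 211441) (.g (nat_lit 1750) (.e (nat_lit 81959) (nat_lit 24) (.e (nat_lit 123182) (nat_lit 264) (.e (nat_lit 1222) (nat_lit 90) (.e (nat_lit 81946) (nat_lit 20) .nil)))) .nil))))) (.nd (nat_lit 4) (.nd (nat_lit 5) (.nd (nat_lit 6) 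
(.lf (nat_lit 211337) (.g (nat_lit 1960) (.e (nat_lit 81958) (nat_lit 24) (.e (nat_lit 123183) (nat_lit 264) (.e (nat_lit 1201) (nat_lit 88) (.e (nat_lit 65610) (nat_lit 10) (.e (nat_lit 344097) (nat_lit 18) .nil))))) .nil)) 
(.lf (nat_lit 211401) (.g (nat_lit 429) (.e (nat_lit 81959) (nat_lit 24) (.e (nat_lit 123182) (nat_lit 264) (.e (nat_lit 1028) (nat_lit 81) .nil))) .nil))) (.nd (nat_lit 6) 
(.lf (nat_lit 211369) (.g (nat_lit 548) (.e (nat_lit 81958) (nat_lit 24) (.e (nat_lit 123195) (nat_lit 266) (.e (nat_lit 57419) (nat_lit 12) .nil))) .nil)) 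
(.lf (nat_lit 211433) (.g (nat_lit 2944) (.e (nat_lit 81959) (nat_lit 24) (.e (nat_lit 123182) (nat_lit 264) (.e (nat_lit 1222) (nat_lit 90) (.e (nat_lit 81921) (nat_lit 0) (.e (nat_lit 3714) (nat_lit 227) (.e (nat_lit 778325) (nat_lit 6) .nil)))))) (.g (nat_lit 5) .nil .nil))))) (.nd (nat_lit 5) (.nd (nat_lit 6) 
(.lf (nat_lit 211353) (.g (nat_lit 1680) (.e (nat_lit 81958) (nat_lit 24) (.e (nat_lit 123184) (nat_lit 264) (.e (nat_lit 1222) (nat_lit 90) (.e (nat_lit 81948) (nat_lit 21) (.e (nat_lit 57870) (nat_lit 264) .nil))))) .nil)) 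
(.lf (nat_lit 211417) (.g (nat_lit 1949) (.e (nat_lit 81959) (nat_lit 24) (.e (nat_lit 123182) (nat_lit 264) (.e (nat_lit 1201) (nat_lit 88) (.e (nat_lit 65599) (nat_lit 9) (.e (nat_lit 343808) (nat_lit 19) .nil))))) .nil))) (.nd (nat_lit 6) 
(.lf (nat_lit 211385) (.g (nat_lit 2437) (.e (nat_lit 81959) (nat_lit 24) (.e (nat_lit 123056) (nat_lit 155) (.e (nat_lit 122917) (nat_lit 15) (.e (nat_lit 360489) (nat_lit 21) (.e (nat_lit 770074) (nat_lit 10) .nil))))) (.g (nat_lit 4) .nil .nil))) 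
(.lf (nat_lit 211449) (.g (nat_lit 4333) (.e (nat_lit 81959) (nat_lit 24) (.e (nat_lit 123182) (nat_lit 264) (.e (nat_lit 1222) (nat_lit 90) (.e (nat_lit 81957) (nat_lit 24) (.e (nat_lit 123182) (nat_lit 264) (.e (nat_lit 1224) (nat_lit 90) .nil)))))) (.g (nat_lit 6) .nil .nil))))))) (.nd (nat_lit 3) (.nd (nat_lit 4) (.nd (nat_lit 5) (.nd (nat_lit 6) 
(.lf (nat_lit 211333) (.g (nat_lit 1279) (.e (nat_lit 81958) (nat_lit 24) (.e (nat_lit 123182) (nat_lit 264) (.e (nat_lit 1224) (nat_lit 90) (.e (nat_lit 81922) (nat_lit 0) .nil)))) .nil)) 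
(.lf (nat_lit 211397) (.g (nat_lit 3470) (.e (nat_lit 81959) (nat_lit 24) (.e (nat_lit 123182) (nat_lit 264) (.e (nat_lit 997) (nat_lit 81) (.e (nat_lit 1615) (nat_lit 113) (.e (nat_lit 376859) (nat_lit 21) (.e (nat_lit 57872) (nat_lit 264) (.e (nat_lit 1221) (nat_lit 90) .nil))))))) (.g (nat_lit 7) .nil .nil)))) (.nd (nat_lit 6) 
(.lf (nat_lit 211365) (.g (nat_lit 647) (.e (nat_lit 81958) (nat_lit 24) (.e (nat_lit 123185) (nat_lit 264) (.e (nat_lit 1222) (nat_lit 90) (.e (nat_lit 89856) (nat_lit 8) .nil)))) .nil)) 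
(.lf (nat_lit 211429) (.g (nat_lit 2910) (.e (nat_lit 81959) (nat_lit 24) (.e (nat_lit 123182) (nat_lit 264) (.e (nat_lit 1218) (nat_lit 90) (.e (nat_lit 81959) (nat_lit 24) (.e (nat_lit 123182) (nat_lit 264) (.e (nat_lit 1218) (nat_lit 90) .nil)))))) (.g (nat_lit 4) .nil .nil))))) (.nd (nat_lit 5) (.nd (nat_lit 6) 
(.lf (nat_lit 211349) (.g (nat_lit 1666) (.e (nat_lit 81958) (nat_lit 24) (.e (nat_lit 123184) (nat_lit 264) (.e (nat_lit 1222) (nat_lit 90) (.e (nat_lit 81943) (nat_lit 20) (.e (nat_lit 2003) (nat_lit 138) .nil))))) .nil)) 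
(.lf (nat_lit 211413) (.g (nat_lit 3913) (.e (nat_lit 81959) (nat_lit 24) (.e (nat_lit 123182) (nat_lit 264) (.e (nat_lit 1193) (nat_lit 88) (.e (nat_lit 65608) (nat_lit 9) (.e (nat_lit 335995) (nat_lit 1) (.e (nat_lit 57872) (nat_lit 264) (.e (nat_lit 1221) (nat_lit 90) .nil))))))) (.g (nat_lit 7) .nil .nil)))) (.nd (nat_lit 6) 
(.lf (nat_lit 211381) (.g (nat_lit 1249) (.e (nat_lit 81958) (nat_lit 24) (.e (nat_lit 123197) (nat_lit 266) (.e (nat_lit 57424) (nat_lit 14) (.e (nat_lit 352270) (nat_lit 8) (.e (nat_lit 270080) (nat_lit 6) .nil))))) (.g (nat_lit 4) .nil .nil))) 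
(.lf (nat_lit 211445) (.g (nat_lit 1750) (.e (nat_lit 81959) (nat_lit 24) (.e (nat_lit 123182) (nat_lit 264) (.e (nat_lit 1222) (nat_lit 90) (.e (nat_lit 81949) (nat_lit 21) .nil)))) .nil))))) (.nd (nat_lit 4) (.nd (nat_lit 5) (.nd (nat_lit 6) 
(.lf (nat_lit 211341) (.g (nat_lit 3196) (.e (nat_lit 81958) (nat_lit 24) (.e (nat_lit 123183) (nat_lit 264) (.e (nat_lit 1222) (nat_lit 90) (.e (nat_lit 81948) (nat_lit 21) (.e (nat_lit 57872) (nat_lit 264) (.e (nat_lit 1221) (nat_lit 90) .nil)))))) (.g (nat_lit 0) .nil .nil))) 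
(.lf (nat_lit 211405) (.g (nat_lit 3322) (.e (nat_lit 81959) (nat_lit 24) (.e (nat_lit 123182) (nat_lit 264) (.e (nat_lit 1187) (nat_lit 88) (.e (nat_lit 65624) (nat_lit 12) (.e (nat_lit 385094) (nat_lit 49) (.e (nat_lit 778326) (nat_lit 6) .nil)))))) (.g (nat_lit 4) .nil .nil)))) (.nd (nat_lit 6) 
(.lf (nat_lit 211373) (.g (nat_lit 3991) (.e (nat_lit 81958) (nat_lit 24) (.e (nat_lit 123195) (nat_lit 266) (.e (nat_lit 57427) (nat_lit 15) (.e (nat_lit 360450) (nat_lit 0) (.e (nat_lit 5898) (nat_lit 320) (.e (nat_lit 7936) (nat_lit 90) .nil)))))) (.g (nat_lit 5) .nil .nil))) 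
(.lf (nat_lit 211437) (.g (nat_lit 1944) (.e (nat_lit 81959) (nat_lit 24) (.e (nat_lit 123182) (nat_lit 264) (.e (nat_lit 1222) (nat_lit 90) (.e (nat_lit 81922) (nat_lit 0) (.e (nat_lit 3631) (nat_lit 227) .nil))))) .nil)))) (.nd (nat_lit 5) (.nd (nat_lit 6) 
(.lf (nat_lit 211357) (.g (nat_lit 1499) (.e (nat_lit 81958) (nat_lit 24) (.e (nat_lit 123184) (nat_lit 264) (.e (nat_lit 1224) (nat_lit 90) (.e (nat_lit 81947) (nat_lit 20) (.e (nat_lit 2005) (nat_lit 138) .nil))))) .nil)) 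
(.lf (nat_lit 211421) (.g (nat_lit 3684) (.e (nat_lit 81959) (nat_lit 24) (.e (nat_lit 123182) (nat_lit 264) (.e (nat_lit 1201) (nat_lit 88) (.e (nat_lit 65610) (nat_lit 10) (.e (nat_lit 344097) (nat_lit 18) (.e (nat_lit 5907) (nat_lit 320) (.e (nat_lit 1218) (nat_lit 90) .nil))))))) (.g (nat_lit 5) .nil .nil)))) (.nd (nat_lit 6) 
(.lf (nat_lit 211389) (.g (nat_lit 706) (.e (nat_lit 81959) (nat_lit 24) (.e (nat_lit 123159) (nat_lit 254) (.e (nat_lit 163933) (nat_lit 17) (.e (nat_lit 474880) (nat_lit 0) .nil)))) .nil)) 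
(.lf (nat_lit 211453) (.g (nat_lit 1621) (.e (nat_lit 81959) (nat_lit 24) (.e (nat_lit 123182) (nat_lit 264) (.e (nat_lit 1222) (nat_lit 90) (.e (nat_lit 81959) (nat_lit 24) .nil)))) .nil))))))) (.nd (nat_lit 2) (.nd (nat_lit 3) (.nd (nat_lit 4) (.nd (nat_lit 5) (.nd (nat_lit 6) 
(.lf (nat_lit 211331) (.g (nat_lit 2475) (.e (nat_lit 81958) (nat_lit 24) (.e (nat_lit 123182) (nat_lit 264) (.e (nat_lit 1222) (nat_lit 90) (.e (nat_lit 81948) (nat_lit 21) (.e (nat_lit 57873) (nat_lit 264) (.e (nat_lit 1221) (nat_lit 90) .nil)))))) (.g (nat_lit 5) .nil .nil))) 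
(.lf (nat_lit 211395) (.g (nat_lit 604) (.e (nat_lit 81959) (nat_lit 24) (.e (nat_lit 123182) (nat_lit 264) (.e (nat_lit 983) (nat_lit 81) .nil))) .nil))) (.nd (nat_lit 6) 
(.lf (nat_lit 211363) (.g (nat_lit 1605) (.e (nat_lit 81958) (nat_lit 24) (.e (nat_lit 123185) (nat_lit 264) (.e (nat_lit 1201) (nat_lit 88) (.e (nat_lit 65624) (nat_lit 12) (.e (nat_lit 385094) (nat_lit 49) .nil))))) .nil)) 
(.lf (nat_lit 211427) (.g (nat_lit 792) (.e (nat_lit 81959) (nat_lit 24) (.e (nat_lit 123182) (nat_lit 264) (.e (nat_lit 1212) (nat_lit 89) (.e (nat_lit 73789) (nat_lit 45) .nil)))) .nil)))) (.nd (nat_lit 5) (.nd (nat_lit 6) 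
(.lf (nat_lit 211347) (.g (nat_lit 1553) (.e (nat_lit 81958) (nat_lit 24) (.e (nat_lit 123184) (nat_lit 264) (.e (nat_lit 1222) (nat_lit 90) (.e (nat_lit 81924) (nat_lit 0) (.e (nat_lit 3631) (nat_lit 227) .nil))))) .nil)) 
(.lf (nat_lit 211411) (.g (nat_lit 3201) (.e (nat_lit 81959) (nat_lit 24) (.e (nat_lit 123182) (nat_lit 264) (.e (nat_lit 1193) (nat_lit 88) (.e (nat_lit 65604) (nat_lit 9) (.e (nat_lit 335997) (nat_lit 1) (.e (nat_lit 57872) (nat_lit 264) (.e (nat_lit 1221) (nat_lit 90) .nil))))))) (.g (nat_lit 7) .nil .nil)))) (.nd (nat_lit 6) 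
(.lf (nat_lit 211379) (.g (nat_lit 1347) (.e (nat_lit 81958) (nat_lit 24) (.e (nat_lit 123197) (nat_lit 266) (.e (nat_lit 57423) (nat_lit 14) (.e (nat_lit 352270) (nat_lit 8) (.e (nat_lit 270080) (nat_lit 6) .nil))))) (.g (nat_lit 4) .nil .nil))) 
(.lf (nat_lit 211443) (.g (nat_lit 3843) (.e (nat_lit 81959) (nat_lit 24) (.e (nat_lit 123182) (nat_lit 264) (.e (nat_lit 1222) (nat_lit 90) (.e (nat_lit 81948) (nat_lit 21) (.e (nat_lit 57873) (nat_lit 264) (.e (nat_lit 1219) (nat_lit 90) .nil)))))) (.g (nat_lit 0) .nil .nil)))))) (.nd (nat_lit 4) (.nd (nat_lit 5) (.nd (nat_lit 6) 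
(.lf (nat_lit 211339) (.g (nat_lit 1110) (.e (nat_lit 81958) (nat_lit 24) (.e (nat_lit 123183) (nat_lit 264) (.e (nat_lit 1222) (nat_lit 90) (.e (nat_lit 81924) (nat_lit 0) (.e (nat_lit 3629) (nat_lit 227) .nil))))) .nil)) 
(.lf (nat_lit 211403) (.g (nat_lit 566) (.e (nat_lit 81959) (nat_lit 24) (.e (nat_lit 123182) (nat_lit 264) (.e (nat_lit 1068) (nat_lit 81) .nil))) .nil))) (.nd (nat_lit 6) 
(.lf (nat_lit 211371) (.g (nat_lit 470) (.e (nat_lit 81958) (nat_lit 24) (.e (nat_lit 123195) (nat_lit 266) (.e (nat_lit 57427) (nat_lit 15) .nil))) .nil)) 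
(.lf (nat_lit 211435) (.g (nat_lit 3046) (.e (nat_lit 81959) (nat_lit 24) (.e (nat_lit 123182) (nat_lit 264) (.e (nat_lit 1222) (nat_lit 90) (.e (nat_lit 81921) (nat_lit 0) (.e (nat_lit 3715) (nat_lit 227) (.e (nat_lit 778325) (nat_lit 6) .nil)))))) (.g (nat_lit 5) .nil .nil))))) (.nd (nat_lit 5) (.nd (nat_lit 6) 
(.lf (nat_lit 211355) (.g (nat_lit 925) (.e (nat_lit 81958) (nat_lit 24) (.e (nat_lit 123184) (nat_lit 264) (.e (nat_lit 1224) (nat_lit 90) (.e (nat_lit 81922) (nat_lit 0) .nil)))) .nil)) 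
(.lf (nat_lit 211419) (.g (nat_lit 3362) (.e (nat_lit 81959) (nat_lit 24) (.e (nat_lit 123182) (nat_lit 264) (.e (nat_lit 1201) (nat_lit 88) (.e (nat_lit 65610) (nat_lit 10) (.e (nat_lit 344097) (nat_lit 18) (.e (nat_lit 5905) (nat_lit 320) (.e (nat_lit 1218) (nat_lit 90) .nil))))))) (.g (nat_lit 4) .nil .nil)))) (.nd (nat_lit 6) 
(.lf (nat_lit 211387) (.g (nat_lit 2671) (.e (nat_lit 81959) (nat_lit 24) (.e (nat_lit 123056) (nat_lit 155) (.e (nat_lit 122919) (nat_lit 15) (.e (nat_lit 360451) (nat_lit 0) (.e (nat_lit 7124) (nat_lit 382) (.e (nat_lit 7936) (nat_lit 90) .nil)))))) (.g (nat_lit 5) .nil .nil))) 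
(.lf (nat_lit 211451) (.g (nat_lit 2400) (.e (nat_lit 81959) (nat_lit 24) (.e (nat_lit 123182) (nat_lit 264) (.e (nat_lit 1222) (nat_lit 90) (.e (nat_lit 81957) (nat_lit 24) (.e (nat_lit 123185) (nat_lit 264) (.e (nat_lit 7936) (nat_lit 90) .nil)))))) (.g (nat_lit 4) .nil .nil))))))) (.nd (nat_lit 3) (.nd (nat_lit 4) (.nd (nat_lit 5) (.nd (nat_lit 6) 
(.lf (nat_lit 211335) (.g (nat_lit 1361) (.e (nat_lit 81958) (nat_lit 24) (.e (nat_lit 123182) (nat_lit 264) (.e (nat_lit 1224) (nat_lit 90) (.e (nat_lit 89856) (nat_lit 8) .nil)))) .nil)) 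
(.lf (nat_lit 211399) (.g (nat_lit 512) (.e (nat_lit 81959) (nat_lit 24) (.e (nat_lit 123182) (nat_lit 264) (.e (nat_lit 1016) (nat_lit 81) .nil))) .nil))) (.nd (nat_lit 6) 
(.lf (nat_lit 211367) (.g (nat_lit 574) (.e (nat_lit 81958) (nat_lit 24) (.e (nat_lit 123185) (nat_lit 264) (.e (nat_lit 1224) (nat_lit 90) (.e (nat_lit 89856) (nat_lit 8) .nil)))) .nil)) 
(.lf (nat_lit 211431) (.g (nat_lit 3039) (.e (nat_lit 81959) (nat_lit 24) (.e (nat_lit 123182) (nat_lit 264) (.e (nat_lit 1222) (nat_lit 90) (.e (nat_lit 81921) (nat_lit 0) (.e (nat_lit 3711) (nat_lit 227) (.e (nat_lit 778325) (nat_lit 6) .nil)))))) (.g (nat_lit 5) .nil .nil))))) (.nd (nat_lit 5) (.nd (nat_lit 6) 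
(.lf (nat_lit 211351) (.g (nat_lit 1686) (.e (nat_lit 81958) (nat_lit 24) (.e (nat_lit 123184) (nat_lit 264) (.e (nat_lit 1222) (nat_lit 90) (.e (nat_lit 81943) (nat_lit 20) (.e (nat_lit 2005) (nat_lit 138) .nil))))) .nil)) 
(.lf (nat_lit 211415) (.g (nat_lit 1492) (.e (nat_lit 81959) (nat_lit 24) (.e (nat_lit 123182) (nat_lit 264) (.e (nat_lit 1201) (nat_lit 88) (.e (nat_lit 65599) (nat_lit 9) .nil)))) .nil))) (.nd (nat_lit 6) 
(.lf (nat_lit 211383) (.g (nat_lit 916) (.e (nat_lit 81958) (nat_lit 24) (.e (nat_lit 123198) (nat_lit 266) (.e (nat_lit 57424) (nat_lit 14) (.e (nat_lit 352270) (nat_lit 8) .nil)))) .nil)) 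
(.lf (nat_lit 211447) (.g (nat_lit 3901) (.e (nat_lit 81959) (nat_lit 24) (.e (nat_lit 123182) (nat_lit 264) (.e (nat_lit 1222) (nat_lit 90) (.e (nat_lit 81950) (nat_lit 21) (.e (nat_lit 57872) (nat_lit 264) (.e (nat_lit 1221) (nat_lit 90) .nil)))))) (.g (nat_lit 6) .nil .nil)))))) (.nd (nat_lit 4) (.nd (nat_lit 5) (.nd (nat_lit 6) 
(.lf (nat_lit 211343) (.g (nat_lit 4031) (.e (nat_lit 81958) (nat_lit 24) (.e (nat_lit 123184) (nat_lit 264) (.e (nat_lit 1201) (nat_lit 88) (.e (nat_lit 65610) (nat_lit 10) (.e (nat_lit 344097) (nat_lit 18) (.e (nat_lit 5907) (nat_lit 320) (.e (nat_lit 1221) (nat_lit 90) .nil))))))) (.g (nat_lit 7) .nil .nil))) 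
(.lf (nat_lit 211407) (.g (nat_lit 3210) (.e (nat_lit 81959) (nat_lit 24) (.e (nat_lit 123182) (nat_lit 264) (.e (nat_lit 1191) (nat_lit 88) (.e (nat_lit 65624) (nat_lit 12) (.e (nat_lit 385092) (nat_lit 49) (.e (nat_lit 778326) (nat_lit 6) .nil)))))) (.g (nat_lit 4) .nil .nil)))) (.nd (nat_lit 6) 
(.lf (nat_lit 211375) (.g (nat_lit 3076) (.e (nat_lit 81958) (nat_lit 24) (.e (nat_lit 123195) (nat_lit 266) (.e (nat_lit 57427) (nat_lit 15) (.e (nat_lit 360451) (nat_lit 0) (.e (nat_lit 5898) (nat_lit 320) (.e (nat_lit 7936) (nat_lit 90) .nil)))))) (.g (nat_lit 5) .nil .nil))) 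
(.lf (nat_lit 211439) (.g (nat_lit 3435) (.e (nat_lit 81959) (nat_lit 24) (.e (nat_lit 123182) (nat_lit 264) (.e (nat_lit 1222) (nat_lit 90) (.e (nat_lit 81924) (nat_lit 0) (.e (nat_lit 3632) (nat_lit 227) (.e (nat_lit 778327) (nat_lit 6) .nil)))))) (.g (nat_lit 0) .nil .nil))))) (.nd (nat_lit 5) (.nd (nat_lit 6) 
(.lf (nat_lit 211359) (.g (nat_lit 1026) (.e (nat_lit 81958) (nat_lit 24) (.e (nat_lit 123184) (nat_lit 264) (.e (nat_lit 1296) (nat_lit 96) (.e (nat_lit 131119) (nat_lit 12) .nil)))) .nil)) 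
(.lf (nat_lit 211423) (.g (nat_lit 4386) (.e (nat_lit 81959) (nat_lit 24) (.e (nat_lit 123182) (nat_lit 264) (.e (nat_lit 1201) (nat_lit 88) (.e (nat_lit 65610) (nat_lit 10) (.e (nat_lit 344097) (nat_lit 18) (.e (nat_lit 5907) (nat_lit 320) (.e (nat_lit 7936) (nat_lit 90) .nil))))))) (.g (nat_lit 6) .nil .nil)))) (.nd (nat_lit 6) 
(.lf (nat_lit 211391) (.g (nat_lit 690) (.e (nat_lit 81959) (nat_lit 24) (.e (nat_lit 123160) (nat_lit 254) (.e (nat_lit 163932) (nat_lit 17) (.e (nat_lit 474880) (nat_lit 0) .nil)))) .nil)) 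
(.lf (nat_lit 211455) (.g (nat_lit 4318) (.e (nat_lit 81959) (nat_lit 24) (.e (nat_lit 123182) (nat_lit 264) (.e (nat_lit 1222) (nat_lit 90) (.e (nat_lit 81959) (nat_lit 24) (.e (nat_lit 123182) (nat_lit 264) (.e (nat_lit 1222) (nat_lit 90) .nil)))))) (.g (nat_lit 5) .nil .nil))))))))))

noncomputable def tv2792 : DT := (.nd (nat_lit 0) (.nd (nat_lit 1) (.nd (nat_lit 2) (.nd (nat_lit 3) (.nd (nat_lit 4) (.nd (nat_lit 5) 
(.lf (nat_lit 211456) (.g (nat_lit 3573) (.e (nat_lit 81959) (nat_lit 24) (.e (nat_lit 123182) (nat_lit 264) (.e (nat_lit 1223) (nat_lit 90) (.e (nat_lit 81950) (nat_lit 21) (.e (nat_lit 57872) (nat_lit 264) (.e (nat_lit 1221) (nat_lit 90) .nil)))))) (.g (nat_lit 6) .nil .nil))) 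
(.lf (nat_lit 211488) (.g (nat_lit 924) (.e (nat_lit 81959) (nat_lit 24) (.e (nat_lit 123183) (nat_lit 264) (.e (nat_lit 1222) (nat_lit 90) (.e (nat_lit 81957) (nat_lit 24) .nil)))) .nil))) (.nd (nat_lit 5) 
(.lf (nat_lit 211472) (.g (nat_lit 2078) (.e (nat_lit 81959) (nat_lit 24) (.e (nat_lit 123182) (nat_lit 264) (.e (nat_lit 7936) (nat_lit 90) (.e (nat_lit 81959) (nat_lit 24) (.e (nat_lit 123182) (nat_lit 264) (.e (nat_lit 7936) (nat_lit 90) .nil)))))) (.g (nat_lit 4) .nil .nil))) 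
(.lf (nat_lit 211504) (.g (nat_lit 1981) (.e (nat_lit 81959) (nat_lit 24) (.e (nat_lit 123184) (nat_lit 264) (.e (nat_lit 1222) (nat_lit 90) (.e (nat_lit 81921) (nat_lit 0) (.e (nat_lit 3714) (nat_lit 227) (.e (nat_lit 786176) (nat_lit 6) .nil)))))) (.g (nat_lit 5) .nil .nil))))) (.nd (nat_lit 4) (.nd (nat_lit 5) 
(.lf (nat_lit 211464) (.g (nat_lit 3303) (.e (nat_lit 81959) (nat_lit 24) (.e (nat_lit 123182) (nat_lit 264) (.e (nat_lit 1224) (nat_lit 90) (.e (nat_lit 81957) (nat_lit 24) (.e (nat_lit 123182) (nat_lit 264) (.e (nat_lit 1218) (nat_lit 90) .nil)))))) (.g (nat_lit 5) .nil .nil))) 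
(.lf (nat_lit 211496) (.g (nat_lit 2152) (.e (nat_lit 81959) (nat_lit 24) (.e (nat_lit 123184) (nat_lit 264) (.e (nat_lit 1201) (nat_lit 88) (.e (nat_lit 65622) (nat_lit 12) (.e (nat_lit 385094) (nat_lit 49) (.e (nat_lit 778326) (nat_lit 6) .nil)))))) (.g (nat_lit 4) .nil .nil)))) (.nd (nat_lit 5) 
(.lf (nat_lit 211480) (.g (nat_lit 1933) (.e (nat_lit 81959) (nat_lit 24) (.e (nat_lit 123183) (nat_lit 264) (.e (nat_lit 1222) (nat_lit 90) (.e (nat_lit 81921) (nat_lit 0) (.e (nat_lit 3714) (nat_lit 227) (.e (nat_lit 786176) (nat_lit 6) .nil)))))) (.g (nat_lit 4) .nil .nil))) 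
(.lf (nat_lit 211512) (.g (nat_lit 1548) (.e (nat_lit 81959) (nat_lit 24) (.e (nat_lit 123184) (nat_lit 264) (.e (nat_lit 1222) (nat_lit 90) (.e (nat_lit 81957) (nat_lit 24) (.e (nat_lit 123184) (nat_lit 264) (.e (nat_lit 7936) (nat_lit 90) .nil)))))) (.g (nat_lit 4) .nil .nil)))))) (.nd (nat_lit 3) (.nd (nat_lit 4) (.nd (nat_lit 5) 
(.lf (nat_lit 211460) (.g (nat_lit 1000) (.e (nat_lit 81959) (nat_lit 24) (.e (nat_lit 123182) (nat_lit 264) (.e (nat_lit 1224) (nat_lit 90) (.e (nat_lit 81936) (nat_lit 20) .nil)))) .nil)) 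
(.lf (nat_lit 211492) (.g (nat_lit 2018) (.e (nat_lit 81959) (nat_lit 24) (.e (nat_lit 123184) (nat_lit 264) (.e (nat_lit 1201) (nat_lit 88) (.e (nat_lit 65617) (nat_lit 10) (.e (nat_lit 344168) (nat_lit 40) .nil))))) .nil))) (.nd (nat_lit 5) 
(.lf (nat_lit 211476) (.g (nat_lit 3143) (.e (nat_lit 81959) (nat_lit 24) (.e (nat_lit 123183) (nat_lit 264) (.e (nat_lit 1201) (nat_lit 88) (.e (nat_lit 65624) (nat_lit 12) (.e (nat_lit 385094) (nat_lit 49) (.e (nat_lit 778327) (nat_lit 6) .nil)))))) (.g (nat_lit 5) .nil .nil))) 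
(.lf (nat_lit 211508) (.g (nat_lit 3583) (.e (nat_lit 81959) (nat_lit 24) (.e (nat_lit 123184) (nat_lit 264) (.e (nat_lit 1222) (nat_lit 90) (.e (nat_lit 81948) (nat_lit 21) (.e (nat_lit 57873) (nat_lit 264) (.e (nat_lit 1219) (nat_lit 90) .nil)))))) (.g (nat_lit 0) .nil .nil))))) (.nd (nat_lit 4) (.nd (nat_lit 5) 
(.lf (nat_lit 211468) (.g (nat_lit 4160) (.e (nat_lit 81959) (nat_lit 24) (.e (nat_lit 123182) (nat_lit 264) (.e (nat_lit 1224) (nat_lit 90) (.e (nat_lit 81959) (nat_lit 24) (.e (nat_lit 123184) (nat_lit 264) (.e (nat_lit 1222) (nat_lit 90) .nil)))))) (.g (nat_lit 6) .nil .nil))) 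
(.lf (nat_lit 211500) (.g (nat_lit 1504) (.e (nat_lit 81959) (nat_lit 24) (.e (nat_lit 123184) (nat_lit 264) (.e (nat_lit 1222) (nat_lit 90) (.e (nat_lit 81920) (nat_lit 0) .nil)))) .nil))) (.nd (nat_lit 5) 
(.lf (nat_lit 211484) (.g (nat_lit 3267) (.e (nat_lit 81959) (nat_lit 24) (.e (nat_lit 123183) (nat_lit 264) (.e (nat_lit 1222) (nat_lit 90) (.e (nat_lit 81948) (nat_lit 21) (.e (nat_lit 57872) (nat_lit 264) (.e (nat_lit 1219) (nat_lit 90) .nil)))))) (.g (nat_lit 6) .nil .nil))) 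
(.lf (nat_lit 211516) (.g (nat_lit 1790) (.e (nat_lit 81959) (nat_lit 24) (.e (nat_lit 123184) (nat_lit 264) (.e (nat_lit 1224) (nat_lit 90) (.e (nat_lit 81946) (nat_lit 20) (.e (nat_lit 2003) (nat_lit 138) (.e (nat_lit 671764) (nat_lit 6) .nil)))))) (.g (nat_lit 4) .nil .nil))))))) (.nd (nat_lit 2) (.nd (nat_lit 3) (.nd (nat_lit 4) (.nd (nat_lit 5) 
(.lf (nat_lit 211458) (.g (nat_lit 383) (.e (nat_lit 81959) (nat_lit 24) (.e (nat_lit 123182) (nat_lit 264) (.e (nat_lit 1224) (nat_lit 90) .nil))) .nil)) 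
(.lf (nat_lit 211490) (.g (nat_lit 1256) (.e (nat_lit 81959) (nat_lit 24) (.e (nat_lit 123183) (nat_lit 264) (.e (nat_lit 1222) (nat_lit 90) (.e (nat_lit 81959) (nat_lit 24) .nil)))) .nil))) (.nd (nat_lit 5) 
(.lf (nat_lit 211474) (.g (nat_lit 2343) (.e (nat_lit 81959) (nat_lit 24) (.e (nat_lit 123183) (nat_lit 264) (.e (nat_lit 1201) (nat_lit 88) (.e (nat_lit 65610) (nat_lit 10) (.e (nat_lit 344097) (nat_lit 18) (.e (nat_lit 5907) (nat_lit 320) (.e (nat_lit 7936) (nat_lit 90) .nil))))))) (.g (nat_lit 4) .nil .nil))) 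
(.lf (nat_lit 211506) (.g (nat_lit 1113) (.e (nat_lit 81959) (nat_lit 24) (.e (nat_lit 123184) (nat_lit 264) (.e (nat_lit 1222) (nat_lit 90) (.e (nat_lit 81948) (nat_lit 21) .nil)))) .nil)))) (.nd (nat_lit 4) (.nd (nat_lit 5) 
(.lf (nat_lit 211466) (.g (nat_lit 4776) (.e (nat_lit 81959) (nat_lit 24) (.e (nat_lit 123182) (nat_lit 264) (.e (nat_lit 1224) (nat_lit 90) (.e (nat_lit 81959) (nat_lit 24) (.e (nat_lit 123182) (nat_lit 264) (.e (nat_lit 1224) (nat_lit 90) .nil)))))) (.g (nat_lit 0) .nil .nil))) 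
(.lf (nat_lit 211498) (.g (nat_lit 2850) (.e (nat_lit 81959) (nat_lit 24) (.e (nat_lit 123184) (nat_lit 264) (.e (nat_lit 1201) (nat_lit 88) (.e (nat_lit 65624) (nat_lit 12) (.e (nat_lit 385092) (nat_lit 49) (.e (nat_lit 778327) (nat_lit 6) .nil)))))) (.g (nat_lit 5) .nil .nil)))) (.nd (nat_lit 5) 
(.lf (nat_lit 211482) (.g (nat_lit 2095) (.e (nat_lit 81959) (nat_lit 24) (.e (nat_lit 123183) (nat_lit 264) (.e (nat_lit 1222) (nat_lit 90) (.e (nat_lit 81921) (nat_lit 0) (.e (nat_lit 3716) (nat_lit 227) (.e (nat_lit 778325) (nat_lit 6) .nil)))))) (.g (nat_lit 4) .nil .nil))) 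
(.lf (nat_lit 211514) (.g (nat_lit 299) (.e (nat_lit 81959) (nat_lit 24) (.e (nat_lit 123184) (nat_lit 264) (.e (nat_lit 1224) (nat_lit 90) .nil))) .nil))))) (.nd (nat_lit 3) (.nd (nat_lit 4) (.nd (nat_lit 5) 
(.lf (nat_lit 211462) (.g (nat_lit 3281) (.e (nat_lit 81959) (nat_lit 24) (.e (nat_lit 123182) (nat_lit 264) (.e (nat_lit 1224) (nat_lit 90) (.e (nat_lit 81948) (nat_lit 21) (.e (nat_lit 57872) (nat_lit 264) (.e (nat_lit 1221) (nat_lit 90) .nil)))))) (.g (nat_lit 6) .nil .nil))) 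
(.lf (nat_lit 211494) (.g (nat_lit 1746) (.e (nat_lit 81959) (nat_lit 24) (.e (nat_lit 123184) (nat_lit 264) (.e (nat_lit 1201) (nat_lit 88) (.e (nat_lit 65622) (nat_lit 12) (.e (nat_lit 385092) (nat_lit 49) .nil))))) .nil))) (.nd (nat_lit 5) 
(.lf (nat_lit 211478) (.g (nat_lit 2037) (.e (nat_lit 81959) (nat_lit 24) (.e (nat_lit 123183) (nat_lit 264) (.e (nat_lit 1222) (nat_lit 90) (.e (nat_lit 81921) (nat_lit 0) (.e (nat_lit 3711) (nat_lit 227) (.e (nat_lit 786176) (nat_lit 6) .nil)))))) (.g (nat_lit 4) .nil .nil))) 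
(.lf (nat_lit 211510) (.g (nat_lit 2145) (.e (nat_lit 81959) (nat_lit 24) (.e (nat_lit 123184) (nat_lit 264) (.e (nat_lit 1222) (nat_lit 90) (.e (nat_lit 81950) (nat_lit 21) (.e (nat_lit 57873) (nat_lit 264) .nil))))) .nil)))) (.nd (nat_lit 4) (.nd (nat_lit 5) 
(.lf (nat_lit 211470) (.g (nat_lit 534) (.e (nat_lit 81959) (nat_lit 24) (.e (nat_lit 123182) (nat_lit 264) (.e (nat_lit 7936) (nat_lit 90) .nil))) .nil)) 
(.lf (nat_lit 211502) (.g (nat_lit 2089) (.e (nat_lit 81959) (nat_lit 24) (.e (nat_lit 123184) (nat_lit 264) (.e (nat_lit 1222) (nat_lit 90) (.e (nat_lit 81921) (nat_lit 0) (.e (nat_lit 3711) (nat_lit 227) (.e (nat_lit 786176) (nat_lit 6) .nil)))))) (.g (nat_lit 5) .nil .nil)))) (.nd (nat_lit 5) 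
(.lf (nat_lit 211486) (.g (nat_lit 2191) (.e (nat_lit 81959) (nat_lit 24) (.e (nat_lit 123183) (nat_lit 264) (.e (nat_lit 1222) (nat_lit 90) (.e (nat_lit 81948) (nat_lit 21) (.e (nat_lit 57873) (nat_lit 264) (.e (nat_lit 7936) (nat_lit 90) .nil)))))) (.g (nat_lit 5) .nil .nil))) 
(.lf (nat_lit 211518) (.g (nat_lit 929) (.e (nat_lit 81959) (nat_lit 24) (.e (nat_lit 123184) (nat_lit 264) (.e (nat_lit 1224) (nat_lit 90) (.e (nat_lit 81957) (nat_lit 24) .nil)))) .nil))))))) (.nd (nat_lit 1) (.nd (nat_lit 2) (.nd (nat_lit 3) (.nd (nat_lit 4) (.nd (nat_lit 5) 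
(.lf (nat_lit 211457) (.g (nat_lit 3905) (.e (nat_lit 81959) (nat_lit 24) (.e (nat_lit 123182) (nat_lit 264) (.e (nat_lit 1223) (nat_lit 90) (.e (nat_lit 81959) (nat_lit 24) (.e (nat_lit 123182) (nat_lit 264) (.e (nat_lit 1224) (nat_lit 90) .nil)))))) (.g (nat_lit 5) .nil .nil))) 
(.lf (nat_lit 211489) (.g (nat_lit 3752) (.e (nat_lit 81959) (nat_lit 24) (.e (nat_lit 123183) (nat_lit 264) (.e (nat_lit 1222) (nat_lit 90) (.e (nat_lit 81957) (nat_lit 24) (.e (nat_lit 123182) (nat_lit 264) (.e (nat_lit 1224) (nat_lit 90) .nil)))))) (.g (nat_lit 6) .nil .nil)))) (.nd (nat_lit 5) 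
(.lf (nat_lit 211473) (.g (nat_lit 420) (.e (nat_lit 81959) (nat_lit 24) (.e (nat_lit 123182) (nat_lit 264) (.e (nat_lit 1296) (nat_lit 96) .nil))) .nil)) 
(.lf (nat_lit 211505) (.g (nat_lit 1512) (.e (nat_lit 81959) (nat_lit 24) (.e (nat_lit 123184) (nat_lit 264) (.e (nat_lit 1222) (nat_lit 90) (.e (nat_lit 81922) (nat_lit 0) .nil)))) .nil)))) (.nd (nat_lit 4) (.nd (nat_lit 5) 
(.lf (nat_lit 211465) (.g (nat_lit 3371) (.e (nat_lit 81959) (nat_lit 24) (.e (nat_lit 123182) (nat_lit 264) (.e (nat_lit 1224) (nat_lit 90) (.e (nat_lit 81959) (nat_lit 24) (.e (nat_lit 123182) (nat_lit 264) (.e (nat_lit 1218) (nat_lit 90) .nil)))))) (.g (nat_lit 5) .nil .nil))) 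
(.lf (nat_lit 211497) (.g (nat_lit 2139) (.e (nat_lit 81959) (nat_lit 24) (.e (nat_lit 123184) (nat_lit 264) (.e (nat_lit 1201) (nat_lit 88) (.e (nat_lit 65622) (nat_lit 12) (.e (nat_lit 385094) (nat_lit 49) (.e (nat_lit 778327) (nat_lit 6) .nil)))))) (.g (nat_lit 4) .nil .nil)))) (.nd (nat_lit 5) 
(.lf (nat_lit 211481) (.g (nat_lit 2308) (.e (nat_lit 81959) (nat_lit 24) (.e (nat_lit 123183) (nat_lit 264) (.e (nat_lit 1222) (nat_lit 90) (.e (nat_lit 81921) (nat_lit 0) (.e (nat_lit 3715) (nat_lit 227) (.e (nat_lit 778325) (nat_lit 6) .nil)))))) (.g (nat_lit 5) .nil .nil))) 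
(.lf (nat_lit 211513) (.g (nat_lit 1577) (.e (nat_lit 81959) (nat_lit 24) (.e (nat_lit 123184) (nat_lit 264) (.e (nat_lit 1222) (nat_lit 90) (.e (nat_lit 81957) (nat_lit 24) (.e (nat_lit 123185) (nat_lit 264) .nil))))) .nil))))) (.nd (nat_lit 3) (.nd (nat_lit 4) (.nd (nat_lit 5) 
(.lf (nat_lit 211461) (.g (nat_lit 3502) (.e (nat_lit 81959) (nat_lit 24) (.e (nat_lit 123182) (nat_lit 264) (.e (nat_lit 1224) (nat_lit 90) (.e (nat_lit 81946) (nat_lit 20) (.e (nat_lit 1023) (nat_lit 81) (.e (nat_lit 5906) (nat_lit 320) (.e (nat_lit 1221) (nat_lit 90) .nil))))))) (.g (nat_lit 7) .nil .nil))) 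
(.lf (nat_lit 211493) (.g (nat_lit 2015) (.e (nat_lit 81959) (nat_lit 24) (.e (nat_lit 123184) (nat_lit 264) (.e (nat_lit 1201) (nat_lit 88) (.e (nat_lit 65617) (nat_lit 10) (.e (nat_lit 344169) (nat_lit 40) (.e (nat_lit 671764) (nat_lit 6) .nil)))))) (.g (nat_lit 4) .nil .nil)))) (.nd (nat_lit 5) 
(.lf (nat_lit 211477) (.g (nat_lit 281) (.e (nat_lit 81959) (nat_lit 24) (.e (nat_lit 123183) (nat_lit 264) (.e (nat_lit 1222) (nat_lit 90) .nil))) .nil)) 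
(.lf (nat_lit 211509) (.g (nat_lit 1498) (.e (nat_lit 81959) (nat_lit 24) (.e (nat_lit 123184) (nat_lit 264) (.e (nat_lit 1222) (nat_lit 90) (.e (nat_lit 81950) (nat_lit 21) .nil)))) .nil)))) (.nd (nat_lit 4) (.nd (nat_lit 5) 
(.lf (nat_lit 211469) (.g (nat_lit 2296) (.e (nat_lit 81959) (nat_lit 24) (.e (nat_lit 123182) (nat_lit 264) (.e (nat_lit 1224) (nat_lit 90) (.e (nat_lit 81959) (nat_lit 24) (.e (nat_lit 123184) (nat_lit 264) (.e (nat_lit 7936) (nat_lit 90) .nil)))))) (.g (nat_lit 4) .nil .nil))) 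
(.lf (nat_lit 211501) (.g (nat_lit 2591) (.e (nat_lit 81959) (nat_lit 24) (.e (nat_lit 123184) (nat_lit 264) (.e (nat_lit 1222) (nat_lit 90) (.e (nat_lit 81921) (nat_lit 0) (.e (nat_lit 3711) (nat_lit 227) (.e (nat_lit 778325) (nat_lit 6) .nil)))))) (.g (nat_lit 5) .nil .nil)))) (.nd (nat_lit 5) 
(.lf (nat_lit 211485) (.g (nat_lit 3333) (.e (nat_lit 81959) (nat_lit 24) (.e (nat_lit 123183) (nat_lit 264) (.e (nat_lit 1222) (nat_lit 90) (.e (nat_lit 81948) (nat_lit 21) (.e (nat_lit 57873) (nat_lit 264) (.e (nat_lit 1219) (nat_lit 90) .nil)))))) (.g (nat_lit 0) .nil .nil))) 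
(.lf (nat_lit 211517) (.g (nat_lit 1924) (.e (nat_lit 81959) (nat_lit 24) (.e (nat_lit 123184) (nat_lit 264) (.e (nat_lit 1224) (nat_lit 90) (.e (nat_lit 81947) (nat_lit 20) (.e (nat_lit 2003) (nat_lit 138) (.e (nat_lit 671764) (nat_lit 6) .nil)))))) (.g (nat_lit 4) .nil .nil))))))) (.nd (nat_lit 2) (.nd (nat_lit 3) (.nd (nat_lit 4) (.nd (nat_lit 5) 
(.lf (nat_lit 211459) (.g (nat_lit 992) (.e (nat_lit 81959) (nat_lit 24) (.e (nat_lit 123182) (nat_lit 264) (.e (nat_lit 1224) (nat_lit 90) (.e (nat_lit 81931) (nat_lit 20) .nil)))) .nil)) 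
(.lf (nat_lit 211491) (.g (nat_lit 4246) (.e (nat_lit 81959) (nat_lit 24) (.e (nat_lit 123184) (nat_lit 264) (.e (nat_lit 1201) (nat_lit 88) (.e (nat_lit 65610) (nat_lit 10) (.e (nat_lit 344097) (nat_lit 18) (.e (nat_lit 5907) (nat_lit 320) (.e (nat_lit 1219) (nat_lit 90) .nil))))))) (.g (nat_lit 7) .nil .nil)))) (.nd (nat_lit 5) 
(.lf (nat_lit 211475) (.g (nat_lit 3272) (.e (nat_lit 81959) (nat_lit 24) (.e (nat_lit 123183) (nat_lit 264) (.e (nat_lit 1201) (nat_lit 88) (.e (nat_lit 65624) (nat_lit 12) (.e (nat_lit 385093) (nat_lit 49) (.e (nat_lit 778327) (nat_lit 6) .nil)))))) (.g (nat_lit 5) .nil .nil))) 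
(.lf (nat_lit 211507) (.g (nat_lit 3517) (.e (nat_lit 81959) (nat_lit 24) (.e (nat_lit 123184) (nat_lit 264) (.e (nat_lit 1222) (nat_lit 90) (.e (nat_lit 81948) (nat_lit 21) (.e (nat_lit 57872) (nat_lit 264) (.e (nat_lit 1219) (nat_lit 90) .nil)))))) (.g (nat_lit 6) .nil .nil))))) (.nd (nat_lit 4) (.nd (nat_lit 5) 
(.lf (nat_lit 211467) (.g (nat_lit 3593) (.e (nat_lit 81959) (nat_lit 24) (.e (nat_lit 123182) (nat_lit 264) (.e (nat_lit 1224) (nat_lit 90) (.e (nat_lit 81959) (nat_lit 24) (.e (nat_lit 123182) (nat_lit 264) (.e (nat_lit 7936) (nat_lit 90) .nil)))))) (.g (nat_lit 5) .nil .nil))) 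
(.lf (nat_lit 211499) (.g (nat_lit 301) (.e (nat_lit 81959) (nat_lit 24) (.e (nat_lit 123184) (nat_lit 264) (.e (nat_lit 1222) (nat_lit 90) .nil))) .nil))) (.nd (nat_lit 5) 
(.lf (nat_lit 211483) (.g (nat_lit 1401) (.e (nat_lit 81959) (nat_lit 24) (.e (nat_lit 123183) (nat_lit 264) (.e (nat_lit 1222) (nat_lit 90) (.e (nat_lit 81922) (nat_lit 0) .nil)))) .nil)) 
(.lf (nat_lit 211515) (.g (nat_lit 1077) (.e (nat_lit 81959) (nat_lit 24) (.e (nat_lit 123184) (nat_lit 264) (.e (nat_lit 1224) (nat_lit 90) (.e (nat_lit 81933) (nat_lit 20) .nil)))) .nil))))) (.nd (nat_lit 3) (.nd (nat_lit 4) (.nd (nat_lit 5) 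
(.lf (nat_lit 211463) (.g (nat_lit 2982) (.e (nat_lit 81959) (nat_lit 24) (.e (nat_lit 123182) (nat_lit 264) (.e (nat_lit 1224) (nat_lit 90) (.e (nat_lit 81949) (nat_lit 21) (.e (nat_lit 57872) (nat_lit 264) (.e (nat_lit 1221) (nat_lit 90) .nil)))))) (.g (nat_lit 6) .nil .nil))) 
(.lf (nat_lit 211495) (.g (nat_lit 2321) (.e (nat_lit 81959) (nat_lit 24) (.e (nat_lit 123184) (nat_lit 264) (.e (nat_lit 1201) (nat_lit 88) (.e (nat_lit 65622) (nat_lit 12) (.e (nat_lit 385093) (nat_lit 49) (.e (nat_lit 778326) (nat_lit 6) .nil)))))) (.g (nat_lit 4) .nil .nil)))) (.nd (nat_lit 5) 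
(.lf (nat_lit 211479) (.g (nat_lit 2211) (.e (nat_lit 81959) (nat_lit 24) (.e (nat_lit 123183) (nat_lit 264) (.e (nat_lit 1222) (nat_lit 90) (.e (nat_lit 81921) (nat_lit 0) (.e (nat_lit 3714) (nat_lit 227) (.e (nat_lit 778325) (nat_lit 6) .nil)))))) (.g (nat_lit 4) .nil .nil))) 
(.lf (nat_lit 211511) (.g (nat_lit 1135) (.e (nat_lit 81959) (nat_lit 24) (.e (nat_lit 123184) (nat_lit 264) (.e (nat_lit 1222) (nat_lit 90) (.e (nat_lit 81957) (nat_lit 24) .nil)))) .nil)))) (.nd (nat_lit 4) (.nd (nat_lit 5) 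
(.lf (nat_lit 211471) (.g (nat_lit 3264) (.e (nat_lit 81959) (nat_lit 24) (.e (nat_lit 123182) (nat_lit 264) (.e (nat_lit 7936) (nat_lit 90) (.e (nat_lit 81957) (nat_lit 24) (.e (nat_lit 123182) (nat_lit 264) (.e (nat_lit 1224) (nat_lit 90) .nil)))))) (.g (nat_lit 5) .nil .nil))) 
(.lf (nat_lit 211503) (.g (nat_lit 2492) (.e (nat_lit 81959) (nat_lit 24) (.e (nat_lit 123184) (nat_lit 264) (.e (nat_lit 1222) (nat_lit 90) (.e (nat_lit 81921) (nat_lit 0) (.e (nat_lit 3714) (nat_lit 227) (.e (nat_lit 778325) (nat_lit 6) .nil)))))) (.g (nat_lit 5) .nil .nil)))) (.nd (nat_lit 5) 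
(.lf (nat_lit 211487) (.g (nat_lit 1426) (.e (nat_lit 81959) (nat_lit 24) (.e (nat_lit 123183) (nat_lit 264) (.e (nat_lit 1222) (nat_lit 90) (.e (nat_lit 81950) (nat_lit 21) .nil)))) .nil)) 
(.lf (nat_lit 211519) (.g (nat_lit 1007) (.e (nat_lit 81959) (nat_lit 24) (.e (nat_lit 123184) (nat_lit 264) (.e (nat_lit 1224) (nat_lit 90) (.e (nat_lit 81958) (nat_lit 24) .nil)))) .nil))))))))

noncomputable def tv2793 : DT := (.nd (nat_lit 0) (.nd (nat_lit 1) (.nd (nat_lit 2) (.nd (nat_lit 3) (.nd (nat_lit 4) (.nd (nat_lit 5) 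
(.lf (nat_lit 211520) (.g (nat_lit 3853) (.e (nat_lit 81959) (nat_lit 24) (.e (nat_lit 123184) (nat_lit 264) (.e (nat_lit 1224) (nat_lit 90) (.e (nat_lit 81959) (nat_lit 24) (.e (nat_lit 123182) (nat_lit 264) (.e (nat_lit 1224) (nat_lit 90) .nil)))))) (.g (nat_lit 6) .nil .nil))) 
(.lf (nat_lit 211552) (.g (nat_lit 4346) (.e (nat_lit 81959) (nat_lit 24) (.e (nat_lit 123194) (nat_lit 266) (.e (nat_lit 57424) (nat_lit 14) (.e (nat_lit 352318) (nat_lit 24) (.e (nat_lit 123182) (nat_lit 264) (.e (nat_lit 1224) (nat_lit 90) .nil)))))) (.g (nat_lit 0) .nil .nil)))) (.nd (nat_lit 5) 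
(.lf (nat_lit 211536) (.g (nat_lit 2820) (.e (nat_lit 81959) (nat_lit 24) (.e (nat_lit 123185) (nat_lit 264) (.e (nat_lit 1222) (nat_lit 90) (.e (nat_lit 81948) (nat_lit 21) (.e (nat_lit 57873) (nat_lit 264) (.e (nat_lit 1219) (nat_lit 90) .nil)))))) (.g (nat_lit 6) .nil .nil))) 
(.lf (nat_lit 211568) (.g (nat_lit 2978) (.e (nat_lit 81959) (nat_lit 24) (.e (nat_lit 123195) (nat_lit 266) (.e (nat_lit 57404) (nat_lit 12) (.e (nat_lit 336164) (nat_lit 10) (.e (nat_lit 344097) (nat_lit 18) (.e (nat_lit 5906) (nat_lit 320) (.e (nat_lit 1221) (nat_lit 90) .nil))))))) (.g (nat_lit 5) .nil .nil))))) (.nd (nat_lit 4) (.nd (nat_lit 5) 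
(.lf (nat_lit 211528) (.g (nat_lit 1483) (.e (nat_lit 81959) (nat_lit 24) (.e (nat_lit 123185) (nat_lit 264) (.e (nat_lit 1201) (nat_lit 88) (.e (nat_lit 65622) (nat_lit 12) (.e (nat_lit 385092) (nat_lit 49) (.e (nat_lit 778326) (nat_lit 6) .nil)))))) (.g (nat_lit 4) .nil .nil))) 
(.lf (nat_lit 211560) (.g (nat_lit 739) (.e (nat_lit 81959) (nat_lit 24) (.e (nat_lit 123194) (nat_lit 266) (.e (nat_lit 57428) (nat_lit 15) (.e (nat_lit 368384) (nat_lit 0) .nil)))) .nil))) (.nd (nat_lit 5) 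
(.lf (nat_lit 211544) (.g (nat_lit 2488) (.e (nat_lit 81959) (nat_lit 24) (.e (nat_lit 123194) (nat_lit 266) (.e (nat_lit 57411) (nat_lit 12) (.e (nat_lit 336208) (nat_lit 12) (.e (nat_lit 385094) (nat_lit 49) (.e (nat_lit 778327) (nat_lit 6) .nil)))))) (.g (nat_lit 4) .nil .nil))) 
(.lf (nat_lit 211576) (.g (nat_lit 1811) (.e (nat_lit 81959) (nat_lit 24) (.e (nat_lit 123195) (nat_lit 266) (.e (nat_lit 57406) (nat_lit 12) (.e (nat_lit 336147) (nat_lit 9) .nil)))) .nil))))) (.nd (nat_lit 3) (.nd (nat_lit 4) (.nd (nat_lit 5) 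
(.lf (nat_lit 211524) (.g (nat_lit 1821) (.e (nat_lit 81959) (nat_lit 24) (.e (nat_lit 123184) (nat_lit 264) (.e (nat_lit 1296) (nat_lit 96) (.e (nat_lit 131105) (nat_lit 9) (.e (nat_lit 336332) (nat_lit 19) (.e (nat_lit 220928) (nat_lit 6) .nil)))))) (.g (nat_lit 5) .nil .nil))) 
(.lf (nat_lit 211556) (.g (nat_lit 2410) (.e (nat_lit 81959) (nat_lit 24) (.e (nat_lit 123194) (nat_lit 266) (.e (nat_lit 57424) (nat_lit 14) (.e (nat_lit 352318) (nat_lit 24) (.e (nat_lit 123184) (nat_lit 264) (.e (nat_lit 7936) (nat_lit 90) .nil)))))) (.g (nat_lit 4) .nil .nil)))) (.nd (nat_lit 5) 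
(.lf (nat_lit 211540) (.g (nat_lit 1575) (.e (nat_lit 81959) (nat_lit 24) (.e (nat_lit 123185) (nat_lit 264) (.e (nat_lit 1296) (nat_lit 96) (.e (nat_lit 131109) (nat_lit 9) (.e (nat_lit 336332) (nat_lit 19) (.e (nat_lit 220928) (nat_lit 6) .nil)))))) (.g (nat_lit 5) .nil .nil))) 
(.lf (nat_lit 211572) (.g (nat_lit 3077) (.e (nat_lit 81959) (nat_lit 24) (.e (nat_lit 123195) (nat_lit 266) (.e (nat_lit 57406) (nat_lit 12) (.e (nat_lit 336130) (nat_lit 9) (.e (nat_lit 335995) (nat_lit 1) (.e (nat_lit 57870) (nat_lit 264) (.e (nat_lit 1221) (nat_lit 90) .nil))))))) (.g (nat_lit 5) .nil .nil))))) (.nd (nat_lit 4) (.nd (nat_lit 5) 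
(.lf (nat_lit 211532) (.g (nat_lit 2012) (.e (nat_lit 81959) (nat_lit 24) (.e (nat_lit 123185) (nat_lit 264) (.e (nat_lit 1222) (nat_lit 90) (.e (nat_lit 81921) (nat_lit 0) (.e (nat_lit 3714) (nat_lit 227) (.e (nat_lit 778325) (nat_lit 6) .nil)))))) (.g (nat_lit 5) .nil .nil))) 
(.lf (nat_lit 211564) (.g (nat_lit 3786) (.e (nat_lit 81959) (nat_lit 24) (.e (nat_lit 123194) (nat_lit 266) (.e (nat_lit 57437) (nat_lit 17) (.e (nat_lit 376859) (nat_lit 21) (.e (nat_lit 57872) (nat_lit 264) (.e (nat_lit 1221) (nat_lit 90) .nil)))))) (.g (nat_lit 0) .nil .nil)))) (.nd (nat_lit 5) 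
(.lf (nat_lit 211548) (.g (nat_lit 3801) (.e (nat_lit 81959) (nat_lit 24) (.e (nat_lit 123194) (nat_lit 266) (.e (nat_lit 57424) (nat_lit 14) (.e (nat_lit 352309) (nat_lit 21) (.e (nat_lit 57872) (nat_lit 264) (.e (nat_lit 1221) (nat_lit 90) .nil)))))) (.g (nat_lit 0) .nil .nil))) 
(.lf (nat_lit 211580) (.g (nat_lit 1012) (.e (nat_lit 81959) (nat_lit 24) (.e (nat_lit 123195) (nat_lit 266) (.e (nat_lit 57408) (nat_lit 12) (.e (nat_lit 336120) (nat_lit 9) .nil)))) .nil)))))) (.nd (nat_lit 2) (.nd (nat_lit 3) (.nd (nat_lit 4) (.nd (nat_lit 5) 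
(.lf (nat_lit 211522) (.g (nat_lit 389) (.e (nat_lit 81959) (nat_lit 24) (.e (nat_lit 123184) (nat_lit 264) (.e (nat_lit 7936) (nat_lit 90) .nil))) .nil)) 
(.lf (nat_lit 211554) (.g (nat_lit 3883) (.e (nat_lit 81959) (nat_lit 24) (.e (nat_lit 123194) (nat_lit 266) (.e (nat_lit 57424) (nat_lit 14) (.e (nat_lit 352318) (nat_lit 24) (.e (nat_lit 123184) (nat_lit 264) (.e (nat_lit 1222) (nat_lit 90) .nil)))))) (.g (nat_lit 6) .nil .nil)))) (.nd (nat_lit 5) 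
(.lf (nat_lit 211538) (.g (nat_lit 1604) (.e (nat_lit 81959) (nat_lit 24) (.e (nat_lit 123185) (nat_lit 264) (.e (nat_lit 1224) (nat_lit 90) (.e (nat_lit 81959) (nat_lit 24) (.e (nat_lit 123185) (nat_lit 264) (.e (nat_lit 1224) (nat_lit 90) .nil)))))) (.g (nat_lit 4) .nil .nil))) 
(.lf (nat_lit 211570) (.g (nat_lit 5044) (.e (nat_lit 81959) (nat_lit 24) (.e (nat_lit 123195) (nat_lit 266) (.e (nat_lit 57406) (nat_lit 12) (.e (nat_lit 336129) (nat_lit 9) (.e (nat_lit 335995) (nat_lit 1) (.e (nat_lit 57872) (nat_lit 264) (.e (nat_lit 1221) (nat_lit 90) .nil))))))) (.g (nat_lit 0) .nil .nil))))) (.nd (nat_lit 4) (.nd (nat_lit 5) 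
(.lf (nat_lit 211530) (.g (nat_lit 2108) (.e (nat_lit 81959) (nat_lit 24) (.e (nat_lit 123185) (nat_lit 264) (.e (nat_lit 1222) (nat_lit 90) (.e (nat_lit 81921) (nat_lit 0) (.e (nat_lit 3711) (nat_lit 227) (.e (nat_lit 778325) (nat_lit 6) .nil)))))) (.g (nat_lit 5) .nil .nil))) 
(.lf (nat_lit 211562) (.g (nat_lit 3398) (.e (nat_lit 81959) (nat_lit 24) (.e (nat_lit 123194) (nat_lit 266) (.e (nat_lit 57436) (nat_lit 17) (.e (nat_lit 376859) (nat_lit 21) (.e (nat_lit 57872) (nat_lit 264) (.e (nat_lit 1221) (nat_lit 90) .nil)))))) (.g (nat_lit 0) .nil .nil)))) (.nd (nat_lit 5) 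
(.lf (nat_lit 211546) (.g (nat_lit 3010) (.e (nat_lit 81959) (nat_lit 24) (.e (nat_lit 123194) (nat_lit 266) (.e (nat_lit 57412) (nat_lit 12) (.e (nat_lit 336200) (nat_lit 12) (.e (nat_lit 385094) (nat_lit 49) (.e (nat_lit 778327) (nat_lit 6) .nil)))))) (.g (nat_lit 6) .nil .nil))) 
(.lf (nat_lit 211578) (.g (nat_lit 2522) (.e (nat_lit 81959) (nat_lit 24) (.e (nat_lit 123195) (nat_lit 266) (.e (nat_lit 57406) (nat_lit 12) (.e (nat_lit 336208) (nat_lit 12) (.e (nat_lit 385094) (nat_lit 49) .nil))))) .nil))))) (.nd (nat_lit 3) (.nd (nat_lit 4) (.nd (nat_lit 5) 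
(.lf (nat_lit 211526) (.g (nat_lit 1031) (.e (nat_lit 81959) (nat_lit 24) (.e (nat_lit 123184) (nat_lit 264) (.e (nat_lit 1296) (nat_lit 96) (.e (nat_lit 131123) (nat_lit 12) (.e (nat_lit 385092) (nat_lit 49) .nil))))) .nil)) 
(.lf (nat_lit 211558) (.g (nat_lit 2378) (.e (nat_lit 81959) (nat_lit 24) (.e (nat_lit 123194) (nat_lit 266) (.e (nat_lit 57424) (nat_lit 14) (.e (nat_lit 352318) (nat_lit 24) (.e (nat_lit 123185) (nat_lit 264) (.e (nat_lit 7936) (nat_lit 90) .nil)))))) (.g (nat_lit 4) .nil .nil)))) (.nd (nat_lit 5) 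
(.lf (nat_lit 211542) (.g (nat_lit 2473) (.e (nat_lit 81959) (nat_lit 24) (.e (nat_lit 123194) (nat_lit 266) (.e (nat_lit 57407) (nat_lit 12) (.e (nat_lit 336208) (nat_lit 12) (.e (nat_lit 385094) (nat_lit 49) (.e (nat_lit 778326) (nat_lit 6) .nil)))))) (.g (nat_lit 4) .nil .nil))) 
(.lf (nat_lit 211574) (.g (nat_lit 1813) (.e (nat_lit 81959) (nat_lit 24) (.e (nat_lit 123195) (nat_lit 266) (.e (nat_lit 57406) (nat_lit 12) (.e (nat_lit 336136) (nat_lit 9) .nil)))) .nil)))) (.nd (nat_lit 4) (.nd (nat_lit 5) 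
(.lf (nat_lit 211534) (.g (nat_lit 1059) (.e (nat_lit 81959) (nat_lit 24) (.e (nat_lit 123185) (nat_lit 264) (.e (nat_lit 1222) (nat_lit 90) (.e (nat_lit 81933) (nat_lit 20) .nil)))) .nil)) 
(.lf (nat_lit 211566) (.g (nat_lit 2726) (.e (nat_lit 81959) (nat_lit 24) (.e (nat_lit 123195) (nat_lit 266) (.e (nat_lit 57400) (nat_lit 10) (.e (nat_lit 319490) (nat_lit 0) (.e (nat_lit 5761) (nat_lit 315) (.e (nat_lit 163990) (nat_lit 34) (.e (nat_lit 606228) (nat_lit 6) .nil))))))) (.g (nat_lit 4) .nil .nil)))) (.nd (nat_lit 5) 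
(.lf (nat_lit 211550) (.g (nat_lit 4167) (.e (nat_lit 81959) (nat_lit 24) (.e (nat_lit 123194) (nat_lit 266) (.e (nat_lit 57424) (nat_lit 14) (.e (nat_lit 352318) (nat_lit 24) (.e (nat_lit 123182) (nat_lit 264) (.e (nat_lit 1222) (nat_lit 90) .nil)))))) (.g (nat_lit 6) .nil .nil))) 
(.lf (nat_lit 211582) (.g (nat_lit 458) (.e (nat_lit 81959) (nat_lit 24) (.e (nat_lit 123195) (nat_lit 266) (.e (nat_lit 57412) (nat_lit 12) .nil))) .nil))))))) (.nd (nat_lit 1) (.nd (nat_lit 2) (.nd (nat_lit 3) (.nd (nat_lit 4) (.nd (nat_lit 5) 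
(.lf (nat_lit 211521) (.g (nat_lit 1994) (.e (nat_lit 81959) (nat_lit 24) (.e (nat_lit 123184) (nat_lit 264) (.e (nat_lit 1224) (nat_lit 90) (.e (nat_lit 81959) (nat_lit 24) (.e (nat_lit 123185) (nat_lit 264) (.e (nat_lit 1223) (nat_lit 90) .nil)))))) (.g (nat_lit 4) .nil .nil))) 
(.lf (nat_lit 211553) (.g (nat_lit 3747) (.e (nat_lit 81959) (nat_lit 24) (.e (nat_lit 123194) (nat_lit 266) (.e (nat_lit 57424) (nat_lit 14) (.e (nat_lit 352318) (nat_lit 24) (.e (nat_lit 123183) (nat_lit 264) (.e (nat_lit 1222) (nat_lit 90) .nil)))))) (.g (nat_lit 6) .nil .nil)))) (.nd (nat_lit 5) 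
(.lf (nat_lit 211537) (.g (nat_lit 1009) (.e (nat_lit 81959) (nat_lit 24) (.e (nat_lit 123185) (nat_lit 264) (.e (nat_lit 1222) (nat_lit 90) (.e (nat_lit 81950) (nat_lit 21) .nil)))) .nil)) 
(.lf (nat_lit 211569) (.g (nat_lit 720) (.e (nat_lit 81959) (nat_lit 24) (.e (nat_lit 123195) (nat_lit 266) (.e (nat_lit 57405) (nat_lit 12) .nil))) .nil)))) (.nd (nat_lit 4) (.nd (nat_lit 5) 
(.lf (nat_lit 211529) (.g (nat_lit 2546) (.e (nat_lit 81959) (nat_lit 24) (.e (nat_lit 123185) (nat_lit 264) (.e (nat_lit 1201) (nat_lit 88) (.e (nat_lit 65624) (nat_lit 12) (.e (nat_lit 385092) (nat_lit 49) (.e (nat_lit 778327) (nat_lit 6) .nil)))))) (.g (nat_lit 5) .nil .nil))) 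
(.lf (nat_lit 211561) (.g (nat_lit 1371) (.e (nat_lit 81959) (nat_lit 24) (.e (nat_lit 123194) (nat_lit 266) (.e (nat_lit 57435) (nat_lit 17) (.e (nat_lit 376835) (nat_lit 0) (.e (nat_lit 3632) (nat_lit 227) .nil))))) .nil))) (.nd (nat_lit 5) 
(.lf (nat_lit 211545) (.g (nat_lit 1652) (.e (nat_lit 81959) (nat_lit 24) (.e (nat_lit 123194) (nat_lit 266) (.e (nat_lit 57412) (nat_lit 12) (.e (nat_lit 336193) (nat_lit 12) (.e (nat_lit 385092) (nat_lit 49) .nil))))) .nil)) 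
(.lf (nat_lit 211577) (.g (nat_lit 1811) (.e (nat_lit 81959) (nat_lit 24) (.e (nat_lit 123195) (nat_lit 266) (.e (nat_lit 57406) (nat_lit 12) (.e (nat_lit 336182) (nat_lit 11) .nil)))) .nil))))) (.nd (nat_lit 3) (.nd (nat_lit 4) (.nd (nat_lit 5) 
(.lf (nat_lit 211525) (.g (nat_lit 1984) (.e (nat_lit 81959) (nat_lit 24) (.e (nat_lit 123184) (nat_lit 264) (.e (nat_lit 1296) (nat_lit 96) (.e (nat_lit 131109) (nat_lit 9) (.e (nat_lit 336332) (nat_lit 19) (.e (nat_lit 220928) (nat_lit 6) .nil)))))) (.g (nat_lit 5) .nil .nil))) 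
(.lf (nat_lit 211557) (.g (nat_lit 3199) (.e (nat_lit 81959) (nat_lit 24) (.e (nat_lit 123194) (nat_lit 266) (.e (nat_lit 57424) (nat_lit 14) (.e (nat_lit 352318) (nat_lit 24) (.e (nat_lit 123185) (nat_lit 264) (.e (nat_lit 1222) (nat_lit 90) .nil)))))) (.g (nat_lit 4) .nil .nil)))) (.nd (nat_lit 5) 
(.lf (nat_lit 211541) (.g (nat_lit 2014) (.e (nat_lit 81959) (nat_lit 24) (.e (nat_lit 123194) (nat_lit 266) (.e (nat_lit 57407) (nat_lit 12) (.e (nat_lit 336208) (nat_lit 12) (.e (nat_lit 385093) (nat_lit 49) .nil))))) .nil)) 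
(.lf (nat_lit 211573) (.g (nat_lit 1811) (.e (nat_lit 81959) (nat_lit 24) (.e (nat_lit 123195) (nat_lit 266) (.e (nat_lit 57406) (nat_lit 12) (.e (nat_lit 336132) (nat_lit 9) .nil)))) .nil)))) (.nd (nat_lit 4) (.nd (nat_lit 5) 
(.lf (nat_lit 211533) (.g (nat_lit 1083) (.e (nat_lit 81959) (nat_lit 24) (.e (nat_lit 123185) (nat_lit 264) (.e (nat_lit 1222) (nat_lit 90) (.e (nat_lit 81922) (nat_lit 0) .nil)))) .nil)) 
(.lf (nat_lit 211565) (.g (nat_lit 2658) (.e (nat_lit 81959) (nat_lit 24) (.e (nat_lit 123195) (nat_lit 266) (.e (nat_lit 57400) (nat_lit 10) (.e (nat_lit 319490) (nat_lit 0) (.e (nat_lit 5756) (nat_lit 315) (.e (nat_lit 163990) (nat_lit 34) (.e (nat_lit 606228) (nat_lit 6) .nil))))))) (.g (nat_lit 4) .nil .nil)))) (.nd (nat_lit 5) 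
(.lf (nat_lit 211549) (.g (nat_lit 2562) (.e (nat_lit 81959) (nat_lit 24) (.e (nat_lit 123194) (nat_lit 266) (.e (nat_lit 57424) (nat_lit 14) (.e (nat_lit 352318) (nat_lit 24) (.e (nat_lit 123182) (nat_lit 264) (.e (nat_lit 1218) (nat_lit 90) .nil)))))) (.g (nat_lit 4) .nil .nil))) 
(.lf (nat_lit 211581) (.g (nat_lit 2428) (.e (nat_lit 81959) (nat_lit 24) (.e (nat_lit 123195) (nat_lit 266) (.e (nat_lit 57408) (nat_lit 12) (.e (nat_lit 336142) (nat_lit 9) (.e (nat_lit 335995) (nat_lit 1) (.e (nat_lit 57870) (nat_lit 264) (.e (nat_lit 1221) (nat_lit 90) .nil))))))) (.g (nat_lit 5) .nil .nil))))))) (.nd (nat_lit 2) (.nd (nat_lit 3) (.nd (nat_lit 4) (.nd (nat_lit 5) 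
(.lf (nat_lit 211523) (.g (nat_lit 987) (.e (nat_lit 81959) (nat_lit 24) (.e (nat_lit 123184) (nat_lit 264) (.e (nat_lit 1296) (nat_lit 96) (.e (nat_lit 131104) (nat_lit 9) .nil)))) .nil)) 
(.lf (nat_lit 211555) (.g (nat_lit 4022) (.e (nat_lit 81959) (nat_lit 24) (.e (nat_lit 123194) (nat_lit 266) (.e (nat_lit 57424) (nat_lit 14) (.e (nat_lit 352318) (nat_lit 24) (.e (nat_lit 123184) (nat_lit 264) (.e (nat_lit 1224) (nat_lit 90) .nil)))))) (.g (nat_lit 0) .nil .nil)))) (.nd (nat_lit 5) 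
(.lf (nat_lit 211539) (.g (nat_lit 1472) (.e (nat_lit 81959) (nat_lit 24) (.e (nat_lit 123185) (nat_lit 264) (.e (nat_lit 1296) (nat_lit 96) (.e (nat_lit 131105) (nat_lit 9) (.e (nat_lit 336332) (nat_lit 19) (.e (nat_lit 220928) (nat_lit 6) .nil)))))) (.g (nat_lit 5) .nil .nil))) 
(.lf (nat_lit 211571) (.g (nat_lit 1663) (.e (nat_lit 81959) (nat_lit 24) (.e (nat_lit 123195) (nat_lit 266) (.e (nat_lit 57406) (nat_lit 12) (.e (nat_lit 336130) (nat_lit 9) .nil)))) .nil)))) (.nd (nat_lit 4) (.nd (nat_lit 5) 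
(.lf (nat_lit 211531) (.g (nat_lit 1411) (.e (nat_lit 81959) (nat_lit 24) (.e (nat_lit 123185) (nat_lit 264) (.e (nat_lit 1222) (nat_lit 90) (.e (nat_lit 81921) (nat_lit 0) (.e (nat_lit 3711) (nat_lit 227) (.e (nat_lit 786176) (nat_lit 6) .nil)))))) (.g (nat_lit 4) .nil .nil))) 
(.lf (nat_lit 211563) (.g (nat_lit 2026) (.e (nat_lit 81959) (nat_lit 24) (.e (nat_lit 123194) (nat_lit 266) (.e (nat_lit 57436) (nat_lit 17) (.e (nat_lit 376860) (nat_lit 21) (.e (nat_lit 57870) (nat_lit 264) (.e (nat_lit 1220) (nat_lit 90) .nil)))))) (.g (nat_lit 4) .nil .nil)))) (.nd (nat_lit 5) 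
(.lf (nat_lit 211547) (.g (nat_lit 1892) (.e (nat_lit 81959) (nat_lit 24) (.e (nat_lit 123194) (nat_lit 266) (.e (nat_lit 57424) (nat_lit 14) (.e (nat_lit 352262) (nat_lit 0) (.e (nat_lit 3632) (nat_lit 227) .nil))))) .nil)) 
(.lf (nat_lit 211579) (.g (nat_lit 464) (.e (nat_lit 81959) (nat_lit 24) (.e (nat_lit 123195) (nat_lit 266) (.e (nat_lit 57408) (nat_lit 12) .nil))) .nil))))) (.nd (nat_lit 3) (.nd (nat_lit 4) (.nd (nat_lit 5) 
(.lf (nat_lit 211527) (.g (nat_lit 1222) (.e (nat_lit 81959) (nat_lit 24) (.e (nat_lit 123185) (nat_lit 264) (.e (nat_lit 1201) (nat_lit 88) (.e (nat_lit 65617) (nat_lit 10) (.e (nat_lit 344167) (nat_lit 40) .nil))))) .nil)) 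
(.lf (nat_lit 211559) (.g (nat_lit 188) (.e (nat_lit 81959) (nat_lit 24) (.e (nat_lit 123194) (nat_lit 266) (.e (nat_lit 57427) (nat_lit 15) .nil))) .nil))) (.nd (nat_lit 5) 
(.lf (nat_lit 211543) (.g (nat_lit 2724) (.e (nat_lit 81959) (nat_lit 24) (.e (nat_lit 123194) (nat_lit 266) (.e (nat_lit 57407) (nat_lit 12) (.e (nat_lit 336208) (nat_lit 12) (.e (nat_lit 385094) (nat_lit 49) (.e (nat_lit 778327) (nat_lit 6) .nil)))))) (.g (nat_lit 4) .nil .nil))) 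
(.lf (nat_lit 211575) (.g (nat_lit 3058) (.e (nat_lit 81959) (nat_lit 24) (.e (nat_lit 123195) (nat_lit 266) (.e (nat_lit 57406) (nat_lit 12) (.e (nat_lit 336142) (nat_lit 9) (.e (nat_lit 335995) (nat_lit 1) (.e (nat_lit 57870) (nat_lit 264) (.e (nat_lit 1221) (nat_lit 90) .nil))))))) (.g (nat_lit 5) .nil .nil))))) (.nd (nat_lit 4) (.nd (nat_lit 5) 
(.lf (nat_lit 211535) (.g (nat_lit 2375) (.e (nat_lit 81959) (nat_lit 24) (.e (nat_lit 123185) (nat_lit 264) (.e (nat_lit 1222) (nat_lit 90) (.e (nat_lit 81943) (nat_lit 20) (.e (nat_lit 2003) (nat_lit 138) (.e (nat_lit 671764) (nat_lit 6) .nil)))))) (.g (nat_lit 0) .nil .nil))) 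
(.lf (nat_lit 211567) (.g (nat_lit 3095) (.e (nat_lit 81959) (nat_lit 24) (.e (nat_lit 123195) (nat_lit 266) (.e (nat_lit 57404) (nat_lit 12) (.e (nat_lit 336143) (nat_lit 9) (.e (nat_lit 335995) (nat_lit 1) (.e (nat_lit 57872) (nat_lit 264) (.e (nat_lit 1221) (nat_lit 90) .nil))))))) (.g (nat_lit 5) .nil .nil)))) (.nd (nat_lit 5) 
(.lf (nat_lit 211551) (.g (nat_lit 2351) (.e (nat_lit 81959) (nat_lit 24) (.e (nat_lit 123194) (nat_lit 266) (.e (nat_lit 57424) (nat_lit 14) (.e (nat_lit 352318) (nat_lit 24) (.e (nat_lit 123182) (nat_lit 264) (.e (nat_lit 1223) (nat_lit 90) .nil)))))) (.g (nat_lit 4) .nil .nil))) 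
(.lf (nat_lit 211583) (.g (nat_lit 1223) (.e (nat_lit 81959) (nat_lit 24) (.e (nat_lit 123195) (nat_lit 266) (.e (nat_lit 57412) (nat_lit 12) (.e (nat_lit 336073) (nat_lit 9) .nil)))) .nil))))))))

noncomputable def tv2794 : DT := (.nd (nat_lit 0) (.nd (nat_lit 1) (.nd (nat_lit 2) (.nd (nat_lit 3) (.nd (nat_lit 4) (.nd (nat_lit 5) 
(.lf (nat_lit 211584) (.g (nat_lit 1865) (.e (nat_lit 81959) (nat_lit 24) (.e (nat_lit 123195) (nat_lit 266) (.e (nat_lit 57412) (nat_lit 12) (.e (nat_lit 336099) (nat_lit 9) (.e (nat_lit 335997) (nat_lit 1) .nil))))) .nil)) 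
(.lf (nat_lit 211616) (.g (nat_lit 4602) (.e (nat_lit 81959) (nat_lit 24) (.e (nat_lit 123195) (nat_lit 266) (.e (nat_lit 57424) (nat_lit 14) (.e (nat_lit 352318) (nat_lit 24) (.e (nat_lit 123182) (nat_lit 264) (.e (nat_lit 1224) (nat_lit 90) .nil)))))) (.g (nat_lit 0) .nil .nil)))) (.nd (nat_lit 5) 
(.lf (nat_lit 211600) (.g (nat_lit 2014) (.e (nat_lit 81959) (nat_lit 24) (.e (nat_lit 123195) (nat_lit 266) (.e (nat_lit 57418) (nat_lit 12) (.e (nat_lit 336194) (nat_lit 12) (.e (nat_lit 385096) (nat_lit 49) (.e (nat_lit 786176) (nat_lit 6) .nil)))))) (.g (nat_lit 4) .nil .nil))) 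
(.lf (nat_lit 211632) (.g (nat_lit 2563) (.e (nat_lit 81959) (nat_lit 24) (.e (nat_lit 123195) (nat_lit 266) (.e (nat_lit 57427) (nat_lit 15) (.e (nat_lit 360450) (nat_lit 0) (.e (nat_lit 5882) (nat_lit 320) (.e (nat_lit 1218) (nat_lit 90) .nil)))))) (.g (nat_lit 4) .nil .nil))))) (.nd (nat_lit 4) (.nd (nat_lit 5) 
(.lf (nat_lit 211592) (.g (nat_lit 2487) (.e (nat_lit 81959) (nat_lit 24) (.e (nat_lit 123195) (nat_lit 266) (.e (nat_lit 57412) (nat_lit 12) (.e (nat_lit 336193) (nat_lit 12) (.e (nat_lit 385092) (nat_lit 49) (.e (nat_lit 778327) (nat_lit 6) .nil)))))) (.g (nat_lit 4) .nil .nil))) 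
(.lf (nat_lit 211624) (.g (nat_lit 357) (.e (nat_lit 81959) (nat_lit 24) (.e (nat_lit 123195) (nat_lit 266) (.e (nat_lit 57426) (nat_lit 15) .nil))) .nil))) (.nd (nat_lit 5) 
(.lf (nat_lit 211608) (.g (nat_lit 1210) (.e (nat_lit 81959) (nat_lit 24) (.e (nat_lit 123195) (nat_lit 266) (.e (nat_lit 57423) (nat_lit 14) (.e (nat_lit 352270) (nat_lit 8) (.e (nat_lit 270080) (nat_lit 6) .nil))))) .nil)) 
(.lf (nat_lit 211640) (.g (nat_lit 2336) (.e (nat_lit 81959) (nat_lit 24) (.e (nat_lit 123195) (nat_lit 266) (.e (nat_lit 57427) (nat_lit 15) (.e (nat_lit 360452) (nat_lit 0) (.e (nat_lit 5905) (nat_lit 320) (.e (nat_lit 1220) (nat_lit 90) .nil)))))) (.g (nat_lit 4) .nil .nil)))))) (.nd (nat_lit 3) (.nd (nat_lit 4) (.nd (nat_lit 5) 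
(.lf (nat_lit 211588) (.g (nat_lit 2378) (.e (nat_lit 81959) (nat_lit 24) (.e (nat_lit 123195) (nat_lit 266) (.e (nat_lit 57412) (nat_lit 12) (.e (nat_lit 336173) (nat_lit 10) (.e (nat_lit 344087) (nat_lit 18) .nil))))) .nil)) 
(.lf (nat_lit 211620) (.g (nat_lit 3385) (.e (nat_lit 81959) (nat_lit 24) (.e (nat_lit 123195) (nat_lit 266) (.e (nat_lit 57424) (nat_lit 14) (.e (nat_lit 352318) (nat_lit 24) (.e (nat_lit 123184) (nat_lit 264) (.e (nat_lit 7936) (nat_lit 90) .nil)))))) (.g (nat_lit 5) .nil .nil)))) (.nd (nat_lit 5) 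
(.lf (nat_lit 211604) (.g (nat_lit 2792) (.e (nat_lit 81959) (nat_lit 24) (.e (nat_lit 123195) (nat_lit 266) (.e (nat_lit 57419) (nat_lit 12) (.e (nat_lit 336194) (nat_lit 12) (.e (nat_lit 385094) (nat_lit 49) (.e (nat_lit 778327) (nat_lit 6) .nil)))))) (.g (nat_lit 5) .nil .nil))) 
(.lf (nat_lit 211636) (.g (nat_lit 3210) (.e (nat_lit 81959) (nat_lit 24) (.e (nat_lit 123195) (nat_lit 266) (.e (nat_lit 57427) (nat_lit 15) (.e (nat_lit 360450) (nat_lit 0) (.e (nat_lit 7936) (nat_lit 320) (.e (nat_lit 1224) (nat_lit 90) .nil)))))) (.g (nat_lit 4) .nil .nil))))) (.nd (nat_lit 4) (.nd (nat_lit 5) 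
(.lf (nat_lit 211596) (.g (nat_lit 1108) (.e (nat_lit 81959) (nat_lit 24) (.e (nat_lit 123195) (nat_lit 266) (.e (nat_lit 57414) (nat_lit 12) (.e (nat_lit 336200) (nat_lit 12) .nil)))) .nil)) 
(.lf (nat_lit 211628) (.g (nat_lit 2330) (.e (nat_lit 81959) (nat_lit 24) (.e (nat_lit 123195) (nat_lit 266) (.e (nat_lit 57427) (nat_lit 15) (.e (nat_lit 360448) (nat_lit 0) (.e (nat_lit 5902) (nat_lit 320) .nil))))) .nil))) (.nd (nat_lit 5) 
(.lf (nat_lit 211612) (.g (nat_lit 4139) (.e (nat_lit 81959) (nat_lit 24) (.e (nat_lit 123195) (nat_lit 266) (.e (nat_lit 57424) (nat_lit 14) (.e (nat_lit 352309) (nat_lit 21) (.e (nat_lit 57872) (nat_lit 264) (.e (nat_lit 1221) (nat_lit 90) .nil)))))) (.g (nat_lit 0) .nil .nil))) 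
(.lf (nat_lit 211644) (.g (nat_lit 1985) (.e (nat_lit 81959) (nat_lit 24) (.e (nat_lit 123195) (nat_lit 266) (.e (nat_lit 57427) (nat_lit 15) (.e (nat_lit 360457) (nat_lit 0) .nil)))) .nil)))))) (.nd (nat_lit 2) (.nd (nat_lit 3) (.nd (nat_lit 4) (.nd (nat_lit 5) 
(.lf (nat_lit 211586) (.g (nat_lit 1570) (.e (nat_lit 81959) (nat_lit 24) (.e (nat_lit 123195) (nat_lit 266) (.e (nat_lit 57412) (nat_lit 12) (.e (nat_lit 336127) (nat_lit 9) .nil)))) .nil)) 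
(.lf (nat_lit 211618) (.g (nat_lit 4672) (.e (nat_lit 81959) (nat_lit 24) (.e (nat_lit 123195) (nat_lit 266) (.e (nat_lit 57424) (nat_lit 14) (.e (nat_lit 352318) (nat_lit 24) (.e (nat_lit 123183) (nat_lit 264) (.e (nat_lit 1222) (nat_lit 90) .nil)))))) (.g (nat_lit 0) .nil .nil)))) (.nd (nat_lit 5) 
(.lf (nat_lit 211602) (.g (nat_lit 2148) (.e (nat_lit 81959) (nat_lit 24) (.e (nat_lit 123195) (nat_lit 266) (.e (nat_lit 57419) (nat_lit 12) (.e (nat_lit 336076) (nat_lit 9) (.e (nat_lit 336332) (nat_lit 19) (.e (nat_lit 220928) (nat_lit 6) .nil)))))) (.g (nat_lit 4) .nil .nil))) 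
(.lf (nat_lit 211634) (.g (nat_lit 4545) (.e (nat_lit 81959) (nat_lit 24) (.e (nat_lit 123195) (nat_lit 266) (.e (nat_lit 57427) (nat_lit 15) (.e (nat_lit 360450) (nat_lit 0) (.e (nat_lit 5898) (nat_lit 320) (.e (nat_lit 7936) (nat_lit 90) .nil)))))) (.g (nat_lit 5) .nil .nil))))) (.nd (nat_lit 4) (.nd (nat_lit 5) 
(.lf (nat_lit 211594) (.g (nat_lit 3275) (.e (nat_lit 81959) (nat_lit 24) (.e (nat_lit 123195) (nat_lit 266) (.e (nat_lit 57413) (nat_lit 12) (.e (nat_lit 336178) (nat_lit 10) (.e (nat_lit 344097) (nat_lit 18) (.e (nat_lit 5906) (nat_lit 320) (.e (nat_lit 1221) (nat_lit 90) .nil))))))) (.g (nat_lit 5) .nil .nil))) 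
(.lf (nat_lit 211626) (.g (nat_lit 1446) (.e (nat_lit 81959) (nat_lit 24) (.e (nat_lit 123195) (nat_lit 266) (.e (nat_lit 57426) (nat_lit 15) (.e (nat_lit 360455) (nat_lit 0) .nil)))) .nil))) (.nd (nat_lit 5) 
(.lf (nat_lit 211610) (.g (nat_lit 1728) (.e (nat_lit 81959) (nat_lit 24) (.e (nat_lit 123195) (nat_lit 266) (.e (nat_lit 57423) (nat_lit 14) (.e (nat_lit 352316) (nat_lit 24) .nil)))) .nil)) 
(.lf (nat_lit 211642) (.g (nat_lit 4178) (.e (nat_lit 81959) (nat_lit 24) (.e (nat_lit 123195) (nat_lit 266) (.e (nat_lit 57427) (nat_lit 15) (.e (nat_lit 360454) (nat_lit 0) (.e (nat_lit 5907) (nat_lit 320) (.e (nat_lit 1221) (nat_lit 90) .nil)))))) (.g (nat_lit 0) .nil .nil)))))) (.nd (nat_lit 3) (.nd (nat_lit 4) (.nd (nat_lit 5) 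
(.lf (nat_lit 211590) (.g (nat_lit 1239) (.e (nat_lit 81959) (nat_lit 24) (.e (nat_lit 123195) (nat_lit 266) (.e (nat_lit 57412) (nat_lit 12) (.e (nat_lit 336176) (nat_lit 10) .nil)))) .nil)) 
(.lf (nat_lit 211622) (.g (nat_lit 3588) (.e (nat_lit 81959) (nat_lit 24) (.e (nat_lit 123195) (nat_lit 266) (.e (nat_lit 57425) (nat_lit 14) (.e (nat_lit 352309) (nat_lit 21) (.e (nat_lit 57872) (nat_lit 264) (.e (nat_lit 1221) (nat_lit 90) .nil)))))) (.g (nat_lit 0) .nil .nil)))) (.nd (nat_lit 5) 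
(.lf (nat_lit 211606) (.g (nat_lit 2995) (.e (nat_lit 81959) (nat_lit 24) (.e (nat_lit 123195) (nat_lit 266) (.e (nat_lit 57423) (nat_lit 14) (.e (nat_lit 352262) (nat_lit 0) (.e (nat_lit 3632) (nat_lit 227) (.e (nat_lit 778326) (nat_lit 6) .nil)))))) (.g (nat_lit 5) .nil .nil))) 
(.lf (nat_lit 211638) (.g (nat_lit 3422) (.e (nat_lit 81959) (nat_lit 24) (.e (nat_lit 123195) (nat_lit 266) (.e (nat_lit 57427) (nat_lit 15) (.e (nat_lit 360451) (nat_lit 0) (.e (nat_lit 5896) (nat_lit 320) (.e (nat_lit 7936) (nat_lit 90) .nil)))))) (.g (nat_lit 5) .nil .nil))))) (.nd (nat_lit 4) (.nd (nat_lit 5) 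
(.lf (nat_lit 211598) (.g (nat_lit 2745) (.e (nat_lit 81959) (nat_lit 24) (.e (nat_lit 123195) (nat_lit 266) (.e (nat_lit 57417) (nat_lit 12) (.e (nat_lit 336118) (nat_lit 9) (.e (nat_lit 336331) (nat_lit 19) (.e (nat_lit 220928) (nat_lit 6) .nil)))))) (.g (nat_lit 5) .nil .nil))) 
(.lf (nat_lit 211630) (.g (nat_lit 3352) (.e (nat_lit 81959) (nat_lit 24) (.e (nat_lit 123195) (nat_lit 266) (.e (nat_lit 57427) (nat_lit 15) (.e (nat_lit 360450) (nat_lit 0) (.e (nat_lit 5872) (nat_lit 320) (.e (nat_lit 1218) (nat_lit 90) .nil)))))) (.g (nat_lit 4) .nil .nil)))) (.nd (nat_lit 5) 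
(.lf (nat_lit 211614) (.g (nat_lit 3678) (.e (nat_lit 81959) (nat_lit 24) (.e (nat_lit 123195) (nat_lit 266) (.e (nat_lit 57424) (nat_lit 14) (.e (nat_lit 352318) (nat_lit 24) (.e (nat_lit 123182) (nat_lit 264) (.e (nat_lit 1218) (nat_lit 90) .nil)))))) (.g (nat_lit 5) .nil .nil))) 
(.lf (nat_lit 211646) (.g (nat_lit 2192) (.e (nat_lit 81959) (nat_lit 24) (.e (nat_lit 123195) (nat_lit 266) (.e (nat_lit 57427) (nat_lit 15) (.e (nat_lit 360486) (nat_lit 18) (.e (nat_lit 679680) (nat_lit 6) .nil))))) .nil))))))) (.nd (nat_lit 1) (.nd (nat_lit 2) (.nd (nat_lit 3) (.nd (nat_lit 4) (.nd (nat_lit 5) 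
(.lf (nat_lit 211585) (.g (nat_lit 4412) (.e (nat_lit 81959) (nat_lit 24) (.e (nat_lit 123195) (nat_lit 266) (.e (nat_lit 57412) (nat_lit 12) (.e (nat_lit 336099) (nat_lit 9) (.e (nat_lit 335997) (nat_lit 1) (.e (nat_lit 57872) (nat_lit 264) (.e (nat_lit 1221) (nat_lit 90) .nil))))))) (.g (nat_lit 0) .nil .nil))) 
(.lf (nat_lit 211617) (.g (nat_lit 2564) (.e (nat_lit 81959) (nat_lit 24) (.e (nat_lit 123195) (nat_lit 266) (.e (nat_lit 57424) (nat_lit 14) (.e (nat_lit 352318) (nat_lit 24) (.e (nat_lit 123182) (nat_lit 264) (.e (nat_lit 7936) (nat_lit 90) .nil)))))) (.g (nat_lit 4) .nil .nil)))) (.nd (nat_lit 5) 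
(.lf (nat_lit 211601) (.g (nat_lit 1830) (.e (nat_lit 81959) (nat_lit 24) (.e (nat_lit 123195) (nat_lit 266) (.e (nat_lit 57419) (nat_lit 12) (.e (nat_lit 336075) (nat_lit 9) (.e (nat_lit 336332) (nat_lit 19) (.e (nat_lit 220928) (nat_lit 6) .nil)))))) (.g (nat_lit 4) .nil .nil))) 
(.lf (nat_lit 211633) (.g (nat_lit 2950) (.e (nat_lit 81959) (nat_lit 24) (.e (nat_lit 123195) (nat_lit 266) (.e (nat_lit 57427) (nat_lit 15) (.e (nat_lit 360450) (nat_lit 0) (.e (nat_lit 5896) (nat_lit 320) (.e (nat_lit 7936) (nat_lit 90) .nil)))))) (.g (nat_lit 4) .nil .nil))))) (.nd (nat_lit 4) (.nd (nat_lit 5) 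
(.lf (nat_lit 211593) (.g (nat_lit 2816) (.e (nat_lit 81959) (nat_lit 24) (.e (nat_lit 123195) (nat_lit 266) (.e (nat_lit 57413) (nat_lit 12) (.e (nat_lit 336177) (nat_lit 10) (.e (nat_lit 344097) (nat_lit 18) (.e (nat_lit 5906) (nat_lit 320) (.e (nat_lit 1221) (nat_lit 90) .nil))))))) (.g (nat_lit 5) .nil .nil))) 
(.lf (nat_lit 211625) (.g (nat_lit 2840) (.e (nat_lit 81959) (nat_lit 24) (.e (nat_lit 123195) (nat_lit 266) (.e (nat_lit 57426) (nat_lit 15) (.e (nat_lit 360452) (nat_lit 0) (.e (nat_lit 5907) (nat_lit 320) (.e (nat_lit 1219) (nat_lit 90) .nil)))))) (.g (nat_lit 4) .nil .nil)))) (.nd (nat_lit 5) 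
(.lf (nat_lit 211609) (.g (nat_lit 4451) (.e (nat_lit 81959) (nat_lit 24) (.e (nat_lit 123195) (nat_lit 266) (.e (nat_lit 57423) (nat_lit 14) (.e (nat_lit 352309) (nat_lit 21) (.e (nat_lit 57872) (nat_lit 264) (.e (nat_lit 1221) (nat_lit 90) .nil)))))) (.g (nat_lit 0) .nil .nil))) 
(.lf (nat_lit 211641) (.g (nat_lit 2045) (.e (nat_lit 81959) (nat_lit 24) (.e (nat_lit 123195) (nat_lit 266) (.e (nat_lit 57427) (nat_lit 15) (.e (nat_lit 360453) (nat_lit 0) .nil)))) .nil))))) (.nd (nat_lit 3) (.nd (nat_lit 4) (.nd (nat_lit 5) 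
(.lf (nat_lit 211589) (.g (nat_lit 2378) (.e (nat_lit 81959) (nat_lit 24) (.e (nat_lit 123195) (nat_lit 266) (.e (nat_lit 57412) (nat_lit 12) (.e (nat_lit 336173) (nat_lit 10) (.e (nat_lit 344097) (nat_lit 18) .nil))))) .nil)) 
(.lf (nat_lit 211621) (.g (nat_lit 3173) (.e (nat_lit 81959) (nat_lit 24) (.e (nat_lit 123195) (nat_lit 266) (.e (nat_lit 57424) (nat_lit 14) (.e (nat_lit 352318) (nat_lit 24) (.e (nat_lit 123185) (nat_lit 264) (.e (nat_lit 7936) (nat_lit 90) .nil)))))) (.g (nat_lit 4) .nil .nil)))) (.nd (nat_lit 5) 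
(.lf (nat_lit 211605) (.g (nat_lit 1855) (.e (nat_lit 81959) (nat_lit 24) (.e (nat_lit 123195) (nat_lit 266) (.e (nat_lit 57419) (nat_lit 12) (.e (nat_lit 336194) (nat_lit 12) (.e (nat_lit 385096) (nat_lit 49) (.e (nat_lit 786176) (nat_lit 6) .nil)))))) (.g (nat_lit 4) .nil .nil))) 
(.lf (nat_lit 211637) (.g (nat_lit 2731) (.e (nat_lit 81959) (nat_lit 24) (.e (nat_lit 123195) (nat_lit 266) (.e (nat_lit 57427) (nat_lit 15) (.e (nat_lit 360451) (nat_lit 0) (.e (nat_lit 5896) (nat_lit 320) (.e (nat_lit 1218) (nat_lit 90) .nil)))))) (.g (nat_lit 4) .nil .nil))))) (.nd (nat_lit 4) (.nd (nat_lit 5) 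
(.lf (nat_lit 211597) (.g (nat_lit 2717) (.e (nat_lit 81959) (nat_lit 24) (.e (nat_lit 123195) (nat_lit 266) (.e (nat_lit 57417) (nat_lit 12) (.e (nat_lit 336116) (nat_lit 9) (.e (nat_lit 336331) (nat_lit 19) (.e (nat_lit 220928) (nat_lit 6) .nil)))))) (.g (nat_lit 4) .nil .nil))) 
(.lf (nat_lit 211629) (.g (nat_lit 3135) (.e (nat_lit 81959) (nat_lit 24) (.e (nat_lit 123195) (nat_lit 266) (.e (nat_lit 57427) (nat_lit 15) (.e (nat_lit 360449) (nat_lit 0) .nil)))) .nil))) (.nd (nat_lit 5) 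
(.lf (nat_lit 211613) (.g (nat_lit 1413) (.e (nat_lit 81959) (nat_lit 24) (.e (nat_lit 123195) (nat_lit 266) (.e (nat_lit 57424) (nat_lit 14) (.e (nat_lit 352317) (nat_lit 24) .nil)))) .nil)) 
(.lf (nat_lit 211645) (.g (nat_lit 1041) (.e (nat_lit 81959) (nat_lit 24) (.e (nat_lit 123195) (nat_lit 266) (.e (nat_lit 57427) (nat_lit 15) (.e (nat_lit 368384) (nat_lit 0) .nil)))) .nil)))))) (.nd (nat_lit 2) (.nd (nat_lit 3) (.nd (nat_lit 4) (.nd (nat_lit 5) 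
(.lf (nat_lit 211587) (.g (nat_lit 1594) (.e (nat_lit 81959) (nat_lit 24) (.e (nat_lit 123195) (nat_lit 266) (.e (nat_lit 57412) (nat_lit 12) (.e (nat_lit 336173) (nat_lit 10) .nil)))) .nil)) 
(.lf (nat_lit 211619) (.g (nat_lit 2575) (.e (nat_lit 81959) (nat_lit 24) (.e (nat_lit 123195) (nat_lit 266) (.e (nat_lit 57424) (nat_lit 14) (.e (nat_lit 352318) (nat_lit 24) (.e (nat_lit 123183) (nat_lit 264) (.e (nat_lit 7936) (nat_lit 90) .nil)))))) (.g (nat_lit 4) .nil .nil)))) (.nd (nat_lit 5) 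
(.lf (nat_lit 211603) (.g (nat_lit 3743) (.e (nat_lit 81959) (nat_lit 24) (.e (nat_lit 123195) (nat_lit 266) (.e (nat_lit 57419) (nat_lit 12) (.e (nat_lit 336186) (nat_lit 11) (.e (nat_lit 368662) (nat_lit 18) (.e (nat_lit 5906) (nat_lit 320) (.e (nat_lit 1221) (nat_lit 90) .nil))))))) (.g (nat_lit 0) .nil .nil))) 
(.lf (nat_lit 211635) (.g (nat_lit 2213) (.e (nat_lit 81959) (nat_lit 24) (.e (nat_lit 123195) (nat_lit 266) (.e (nat_lit 57427) (nat_lit 15) (.e (nat_lit 360450) (nat_lit 0) (.e (nat_lit 5918) (nat_lit 320) (.e (nat_lit 7936) (nat_lit 90) .nil)))))) (.g (nat_lit 4) .nil .nil))))) (.nd (nat_lit 4) (.nd (nat_lit 5) 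
(.lf (nat_lit 211595) (.g (nat_lit 1107) (.e (nat_lit 81959) (nat_lit 24) (.e (nat_lit 123195) (nat_lit 266) (.e (nat_lit 57414) (nat_lit 12) (.e (nat_lit 336164) (nat_lit 10) .nil)))) .nil)) 
(.lf (nat_lit 211627) (.g (nat_lit 1572) (.e (nat_lit 81959) (nat_lit 24) (.e (nat_lit 123195) (nat_lit 266) (.e (nat_lit 57427) (nat_lit 15) (.e (nat_lit 360448) (nat_lit 0) .nil)))) .nil))) (.nd (nat_lit 5) 
(.lf (nat_lit 211611) (.g (nat_lit 1907) (.e (nat_lit 81959) (nat_lit 24) (.e (nat_lit 123195) (nat_lit 266) (.e (nat_lit 57424) (nat_lit 14) (.e (nat_lit 352307) (nat_lit 21) (.e (nat_lit 57870) (nat_lit 264) .nil))))) .nil)) 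
(.lf (nat_lit 211643) (.g (nat_lit 1809) (.e (nat_lit 81959) (nat_lit 24) (.e (nat_lit 123195) (nat_lit 266) (.e (nat_lit 57427) (nat_lit 15) (.e (nat_lit 360456) (nat_lit 0) .nil)))) .nil))))) (.nd (nat_lit 3) (.nd (nat_lit 4) (.nd (nat_lit 5) 
(.lf (nat_lit 211591) (.g (nat_lit 1944) (.e (nat_lit 81959) (nat_lit 24) (.e (nat_lit 123195) (nat_lit 266) (.e (nat_lit 57412) (nat_lit 12) (.e (nat_lit 336176) (nat_lit 10) (.e (nat_lit 344087) (nat_lit 18) .nil))))) .nil)) 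
(.lf (nat_lit 211623) (.g (nat_lit 3446) (.e (nat_lit 81959) (nat_lit 24) (.e (nat_lit 123195) (nat_lit 266) (.e (nat_lit 57425) (nat_lit 14) (.e (nat_lit 352318) (nat_lit 24) (.e (nat_lit 123182) (nat_lit 264) (.e (nat_lit 1224) (nat_lit 90) .nil)))))) (.g (nat_lit 5) .nil .nil)))) (.nd (nat_lit 5) 
(.lf (nat_lit 211607) (.g (nat_lit 2773) (.e (nat_lit 81959) (nat_lit 24) (.e (nat_lit 123195) (nat_lit 266) (.e (nat_lit 57423) (nat_lit 14) (.e (nat_lit 352262) (nat_lit 0) (.e (nat_lit 3632) (nat_lit 227) (.e (nat_lit 778327) (nat_lit 6) .nil)))))) (.g (nat_lit 5) .nil .nil))) 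
(.lf (nat_lit 211639) (.g (nat_lit 3579) (.e (nat_lit 81959) (nat_lit 24) (.e (nat_lit 123195) (nat_lit 266) (.e (nat_lit 57427) (nat_lit 15) (.e (nat_lit 360451) (nat_lit 0) (.e (nat_lit 5898) (nat_lit 320) (.e (nat_lit 7936) (nat_lit 90) .nil)))))) (.g (nat_lit 5) .nil .nil))))) (.nd (nat_lit 4) (.nd (nat_lit 5) 
(.lf (nat_lit 211599) (.g (nat_lit 3307) (.e (nat_lit 81959) (nat_lit 24) (.e (nat_lit 123195) (nat_lit 266) (.e (nat_lit 57417) (nat_lit 12) (.e (nat_lit 336206) (nat_lit 12) (.e (nat_lit 385094) (nat_lit 49) (.e (nat_lit 778327) (nat_lit 6) .nil)))))) (.g (nat_lit 6) .nil .nil))) 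
(.lf (nat_lit 211631) (.g (nat_lit 3110) (.e (nat_lit 81959) (nat_lit 24) (.e (nat_lit 123195) (nat_lit 266) (.e (nat_lit 57427) (nat_lit 15) (.e (nat_lit 360450) (nat_lit 0) (.e (nat_lit 5873) (nat_lit 320) (.e (nat_lit 1218) (nat_lit 90) .nil)))))) (.g (nat_lit 4) .nil .nil)))) (.nd (nat_lit 5) 
(.lf (nat_lit 211615) (.g (nat_lit 5078) (.e (nat_lit 81959) (nat_lit 24) (.e (nat_lit 123195) (nat_lit 266) (.e (nat_lit 57424) (nat_lit 14) (.e (nat_lit 352318) (nat_lit 24) (.e (nat_lit 123182) (nat_lit 264) (.e (nat_lit 1222) (nat_lit 90) .nil)))))) (.g (nat_lit 0) .nil .nil))) 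
(.lf (nat_lit 211647) (.g (nat_lit 338) (.e (nat_lit 81959) (nat_lit 24) (.e (nat_lit 123195) (nat_lit 266) (.e (nat_lit 57428) (nat_lit 15) .nil))) .nil))))))))

noncomputable def tv2795 : DT := (.nd (nat_lit 0) (.nd (nat_lit 1) (.nd (nat_lit 2) (.nd (nat_lit 3) (.nd (nat_lit 4) (.nd (nat_lit 5) 
(.lf (nat_lit 211648) (.g (nat_lit 596) (.e (nat_lit 81959) (nat_lit 24) (.e (nat_lit 123195) (nat_lit 266) (.e (nat_lit 57434) (nat_lit 17) .nil))) .nil)) 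
(.lf (nat_lit 211680) (.g (nat_lit 1551) (.e (nat_lit 81959) (nat_lit 24) (.e (nat_lit 123197) (nat_lit 266) (.e (nat_lit 57423) (nat_lit 14) (.e (nat_lit 352270) (nat_lit 8) (.e (nat_lit 270080) (nat_lit 6) .nil))))) (.g (nat_lit 4) .nil .nil)))) (.nd (nat_lit 5) 
(.lf (nat_lit 211664) (.g (nat_lit 1336) (.e (nat_lit 81959) (nat_lit 24) (.e (nat_lit 123196) (nat_lit 266) (.e (nat_lit 57419) (nat_lit 12) (.e (nat_lit 336076) (nat_lit 9) (.e (nat_lit 336332) (nat_lit 19) (.e (nat_lit 220928) (nat_lit 6) .nil)))))) (.g (nat_lit 4) .nil .nil))) 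
(.lf (nat_lit 211696) (.g (nat_lit 3437) (.e (nat_lit 81959) (nat_lit 24) (.e (nat_lit 123197) (nat_lit 266) (.e (nat_lit 57426) (nat_lit 15) (.e (nat_lit 360452) (nat_lit 0) (.e (nat_lit 5907) (nat_lit 320) (.e (nat_lit 1219) (nat_lit 90) .nil)))))) (.g (nat_lit 6) .nil .nil))))) (.nd (nat_lit 4) (.nd (nat_lit 5) 
(.lf (nat_lit 211656) (.g (nat_lit 4456) (.e (nat_lit 81959) (nat_lit 24) (.e (nat_lit 123195) (nat_lit 266) (.e (nat_lit 57436) (nat_lit 17) (.e (nat_lit 376859) (nat_lit 21) (.e (nat_lit 57872) (nat_lit 264) (.e (nat_lit 1221) (nat_lit 90) .nil)))))) (.g (nat_lit 0) .nil .nil))) 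
(.lf (nat_lit 211688) (.g (nat_lit 1097) (.e (nat_lit 81959) (nat_lit 24) (.e (nat_lit 123197) (nat_lit 266) (.e (nat_lit 57424) (nat_lit 14) (.e (nat_lit 352318) (nat_lit 24) .nil)))) .nil))) (.nd (nat_lit 5) 
(.lf (nat_lit 211672) (.g (nat_lit 713) (.e (nat_lit 81959) (nat_lit 24) (.e (nat_lit 123197) (nat_lit 266) (.e (nat_lit 57404) (nat_lit 12) (.e (nat_lit 336200) (nat_lit 12) .nil)))) .nil)) 
(.lf (nat_lit 211704) (.g (nat_lit 1372) (.e (nat_lit 81959) (nat_lit 24) (.e (nat_lit 123197) (nat_lit 266) (.e (nat_lit 57426) (nat_lit 15) (.e (nat_lit 360486) (nat_lit 18) (.e (nat_lit 679680) (nat_lit 6) .nil))))) .nil))))) (.nd (nat_lit 3) (.nd (nat_lit 4) (.nd (nat_lit 5) 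
(.lf (nat_lit 211652) (.g (nat_lit 1554) (.e (nat_lit 81959) (nat_lit 24) (.e (nat_lit 123195) (nat_lit 266) (.e (nat_lit 57436) (nat_lit 17) (.e (nat_lit 376855) (nat_lit 20) .nil)))) .nil)) 
(.lf (nat_lit 211684) (.g (nat_lit 1584) (.e (nat_lit 81959) (nat_lit 24) (.e (nat_lit 123197) (nat_lit 266) (.e (nat_lit 57424) (nat_lit 14) (.e (nat_lit 352270) (nat_lit 8) (.e (nat_lit 270080) (nat_lit 6) .nil))))) (.g (nat_lit 4) .nil .nil)))) (.nd (nat_lit 5) 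
(.lf (nat_lit 211668) (.g (nat_lit 3245) (.e (nat_lit 81959) (nat_lit 24) (.e (nat_lit 123196) (nat_lit 266) (.e (nat_lit 57424) (nat_lit 14) (.e (nat_lit 352318) (nat_lit 24) (.e (nat_lit 123183) (nat_lit 264) (.e (nat_lit 1222) (nat_lit 90) .nil)))))) (.g (nat_lit 6) .nil .nil))) 
(.lf (nat_lit 211700) (.g (nat_lit 2275) (.e (nat_lit 81959) (nat_lit 24) (.e (nat_lit 123197) (nat_lit 266) (.e (nat_lit 57426) (nat_lit 15) (.e (nat_lit 360456) (nat_lit 0) (.e (nat_lit 5818) (nat_lit 320) (.e (nat_lit 1224) (nat_lit 90) .nil)))))) (.g (nat_lit 0) .nil .nil))))) (.nd (nat_lit 4) (.nd (nat_lit 5) 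
(.lf (nat_lit 211660) (.g (nat_lit 1482) (.e (nat_lit 81959) (nat_lit 24) (.e (nat_lit 123195) (nat_lit 266) (.e (nat_lit 57438) (nat_lit 17) (.e (nat_lit 376860) (nat_lit 21) (.e (nat_lit 57870) (nat_lit 264) .nil))))) .nil)) 
(.lf (nat_lit 211692) (.g (nat_lit 3498) (.e (nat_lit 81959) (nat_lit 24) (.e (nat_lit 123197) (nat_lit 266) (.e (nat_lit 57424) (nat_lit 14) (.e (nat_lit 352318) (nat_lit 24) (.e (nat_lit 123184) (nat_lit 264) (.e (nat_lit 1222) (nat_lit 90) .nil)))))) (.g (nat_lit 6) .nil .nil)))) (.nd (nat_lit 5) 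
(.lf (nat_lit 211676) (.g (nat_lit 1579) (.e (nat_lit 81959) (nat_lit 24) (.e (nat_lit 123197) (nat_lit 266) (.e (nat_lit 57419) (nat_lit 12) (.e (nat_lit 336075) (nat_lit 9) (.e (nat_lit 336332) (nat_lit 19) (.e (nat_lit 220928) (nat_lit 6) .nil)))))) (.g (nat_lit 5) .nil .nil))) 
(.lf (nat_lit 211708) (.g (nat_lit 902) (.e (nat_lit 81959) (nat_lit 24) (.e (nat_lit 123197) (nat_lit 266) (.e (nat_lit 57427) (nat_lit 15) (.e (nat_lit 360456) (nat_lit 0) .nil)))) .nil)))))) (.nd (nat_lit 2) (.nd (nat_lit 3) (.nd (nat_lit 4) (.nd (nat_lit 5) 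
(.lf (nat_lit 211650) (.g (nat_lit 2304) (.e (nat_lit 81959) (nat_lit 24) (.e (nat_lit 123195) (nat_lit 266) (.e (nat_lit 57435) (nat_lit 17) (.e (nat_lit 376860) (nat_lit 21) (.e (nat_lit 57870) (nat_lit 264) .nil))))) .nil)) 
(.lf (nat_lit 211682) (.g (nat_lit 1985) (.e (nat_lit 81959) (nat_lit 24) (.e (nat_lit 123197) (nat_lit 266) (.e (nat_lit 57423) (nat_lit 14) (.e (nat_lit 352318) (nat_lit 24) (.e (nat_lit 123185) (nat_lit 264) .nil))))) .nil))) (.nd (nat_lit 5) 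
(.lf (nat_lit 211666) (.g (nat_lit 3750) (.e (nat_lit 81959) (nat_lit 24) (.e (nat_lit 123196) (nat_lit 266) (.e (nat_lit 57424) (nat_lit 14) (.e (nat_lit 352309) (nat_lit 21) (.e (nat_lit 57872) (nat_lit 264) (.e (nat_lit 1221) (nat_lit 90) .nil)))))) (.g (nat_lit 0) .nil .nil))) 
(.lf (nat_lit 211698) (.g (nat_lit 1677) (.e (nat_lit 81959) (nat_lit 24) (.e (nat_lit 123197) (nat_lit 266) (.e (nat_lit 57426) (nat_lit 15) (.e (nat_lit 360455) (nat_lit 0) (.e (nat_lit 5848) (nat_lit 320) (.e (nat_lit 7936) (nat_lit 90) .nil)))))) (.g (nat_lit 5) .nil .nil))))) (.nd (nat_lit 4) (.nd (nat_lit 5) 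
(.lf (nat_lit 211658) (.g (nat_lit 3316) (.e (nat_lit 81959) (nat_lit 24) (.e (nat_lit 123195) (nat_lit 266) (.e (nat_lit 57438) (nat_lit 17) (.e (nat_lit 376857) (nat_lit 21) (.e (nat_lit 57872) (nat_lit 264) (.e (nat_lit 1221) (nat_lit 90) .nil)))))) (.g (nat_lit 0) .nil .nil))) 
(.lf (nat_lit 211690) (.g (nat_lit 3799) (.e (nat_lit 81959) (nat_lit 24) (.e (nat_lit 123197) (nat_lit 266) (.e (nat_lit 57424) (nat_lit 14) (.e (nat_lit 352318) (nat_lit 24) (.e (nat_lit 123182) (nat_lit 264) (.e (nat_lit 1224) (nat_lit 90) .nil)))))) (.g (nat_lit 6) .nil .nil)))) (.nd (nat_lit 5) 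
(.lf (nat_lit 211674) (.g (nat_lit 1791) (.e (nat_lit 81959) (nat_lit 24) (.e (nat_lit 123197) (nat_lit 266) (.e (nat_lit 57417) (nat_lit 12) (.e (nat_lit 336116) (nat_lit 9) (.e (nat_lit 336331) (nat_lit 19) (.e (nat_lit 220928) (nat_lit 6) .nil)))))) (.g (nat_lit 5) .nil .nil))) 
(.lf (nat_lit 211706) (.g (nat_lit 1697) (.e (nat_lit 81959) (nat_lit 24) (.e (nat_lit 123197) (nat_lit 266) (.e (nat_lit 57427) (nat_lit 15) (.e (nat_lit 360455) (nat_lit 0) (.e (nat_lit 5813) (nat_lit 320) (.e (nat_lit 7936) (nat_lit 90) .nil)))))) (.g (nat_lit 4) .nil .nil)))))) (.nd (nat_lit 3) (.nd (nat_lit 4) (.nd (nat_lit 5) 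
(.lf (nat_lit 211654) (.g (nat_lit 1552) (.e (nat_lit 81959) (nat_lit 24) (.e (nat_lit 123195) (nat_lit 266) (.e (nat_lit 57436) (nat_lit 17) (.e (nat_lit 376858) (nat_lit 21) .nil)))) .nil)) 
(.lf (nat_lit 211686) (.g (nat_lit 1589) (.e (nat_lit 81959) (nat_lit 24) (.e (nat_lit 123197) (nat_lit 266) (.e (nat_lit 57424) (nat_lit 14) (.e (nat_lit 352316) (nat_lit 24) .nil)))) .nil))) (.nd (nat_lit 5) 
(.lf (nat_lit 211670) (.g (nat_lit 2623) (.e (nat_lit 81959) (nat_lit 24) (.e (nat_lit 123196) (nat_lit 266) (.e (nat_lit 57424) (nat_lit 14) (.e (nat_lit 352318) (nat_lit 24) (.e (nat_lit 123185) (nat_lit 264) (.e (nat_lit 1222) (nat_lit 90) .nil)))))) (.g (nat_lit 4) .nil .nil))) 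
(.lf (nat_lit 211702) (.g (nat_lit 855) (.e (nat_lit 81959) (nat_lit 24) (.e (nat_lit 123197) (nat_lit 266) (.e (nat_lit 57426) (nat_lit 15) (.e (nat_lit 368384) (nat_lit 0) .nil)))) .nil)))) (.nd (nat_lit 4) (.nd (nat_lit 5) 
(.lf (nat_lit 211662) (.g (nat_lit 1333) (.e (nat_lit 81959) (nat_lit 24) (.e (nat_lit 123196) (nat_lit 266) (.e (nat_lit 57412) (nat_lit 12) (.e (nat_lit 336176) (nat_lit 10) (.e (nat_lit 344169) (nat_lit 40) .nil))))) .nil)) 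
(.lf (nat_lit 211694) (.g (nat_lit 2669) (.e (nat_lit 81959) (nat_lit 24) (.e (nat_lit 123197) (nat_lit 266) (.e (nat_lit 57424) (nat_lit 14) (.e (nat_lit 352318) (nat_lit 24) (.e (nat_lit 123185) (nat_lit 264) (.e (nat_lit 1222) (nat_lit 90) .nil)))))) (.g (nat_lit 4) .nil .nil)))) (.nd (nat_lit 5) 
(.lf (nat_lit 211678) (.g (nat_lit 1782) (.e (nat_lit 81959) (nat_lit 24) (.e (nat_lit 123197) (nat_lit 266) (.e (nat_lit 57419) (nat_lit 12) (.e (nat_lit 336194) (nat_lit 12) (.e (nat_lit 385096) (nat_lit 49) (.e (nat_lit 786176) (nat_lit 6) .nil)))))) (.g (nat_lit 5) .nil .nil))) 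
(.lf (nat_lit 211710) (.g (nat_lit 1572) (.e (nat_lit 81959) (nat_lit 24) (.e (nat_lit 123197) (nat_lit 266) (.e (nat_lit 57427) (nat_lit 15) (.e (nat_lit 360486) (nat_lit 18) (.e (nat_lit 679680) (nat_lit 6) .nil))))) (.g (nat_lit 4) .nil .nil)))))))) (.nd (nat_lit 1) (.nd (nat_lit 2) (.nd (nat_lit 3) (.nd (nat_lit 4) (.nd (nat_lit 5) 
(.lf (nat_lit 211649) (.g (nat_lit 3722) (.e (nat_lit 81959) (nat_lit 24) (.e (nat_lit 123195) (nat_lit 266) (.e (nat_lit 57434) (nat_lit 17) (.e (nat_lit 376859) (nat_lit 21) (.e (nat_lit 57872) (nat_lit 264) (.e (nat_lit 1221) (nat_lit 90) .nil)))))) (.g (nat_lit 0) .nil .nil))) 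
(.lf (nat_lit 211681) (.g (nat_lit 1403) (.e (nat_lit 81959) (nat_lit 24) (.e (nat_lit 123197) (nat_lit 266) (.e (nat_lit 57423) (nat_lit 14) (.e (nat_lit 352318) (nat_lit 24) .nil)))) .nil))) (.nd (nat_lit 5) 
(.lf (nat_lit 211665) (.g (nat_lit 1076) (.e (nat_lit 81959) (nat_lit 24) (.e (nat_lit 123196) (nat_lit 266) (.e (nat_lit 57423) (nat_lit 14) (.e (nat_lit 352318) (nat_lit 24) .nil)))) .nil)) 
(.lf (nat_lit 211697) (.g (nat_lit 1592) (.e (nat_lit 81959) (nat_lit 24) (.e (nat_lit 123197) (nat_lit 266) (.e (nat_lit 57426) (nat_lit 15) (.e (nat_lit 360455) (nat_lit 0) (.e (nat_lit 5813) (nat_lit 320) (.e (nat_lit 7936) (nat_lit 90) .nil)))))) (.g (nat_lit 5) .nil .nil))))) (.nd (nat_lit 4) (.nd (nat_lit 5) 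
(.lf (nat_lit 211657) (.g (nat_lit 2986) (.e (nat_lit 81959) (nat_lit 24) (.e (nat_lit 123195) (nat_lit 266) (.e (nat_lit 57436) (nat_lit 17) (.e (nat_lit 376860) (nat_lit 21) (.e (nat_lit 57870) (nat_lit 264) (.e (nat_lit 1220) (nat_lit 90) .nil)))))) (.g (nat_lit 4) .nil .nil))) 
(.lf (nat_lit 211689) (.g (nat_lit 3661) (.e (nat_lit 81959) (nat_lit 24) (.e (nat_lit 123197) (nat_lit 266) (.e (nat_lit 57424) (nat_lit 14) (.e (nat_lit 352318) (nat_lit 24) (.e (nat_lit 123182) (nat_lit 264) (.e (nat_lit 1222) (nat_lit 90) .nil)))))) (.g (nat_lit 6) .nil .nil)))) (.nd (nat_lit 5) 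
(.lf (nat_lit 211673) (.g (nat_lit 1209) (.e (nat_lit 81959) (nat_lit 24) (.e (nat_lit 123197) (nat_lit 266) (.e (nat_lit 57406) (nat_lit 12) (.e (nat_lit 336120) (nat_lit 9) .nil)))) .nil)) 
(.lf (nat_lit 211705) (.g (nat_lit 1338) (.e (nat_lit 81959) (nat_lit 24) (.e (nat_lit 123197) (nat_lit 266) (.e (nat_lit 57427) (nat_lit 15) (.e (nat_lit 360450) (nat_lit 0) (.e (nat_lit 7936) (nat_lit 320) .nil))))) .nil))))) (.nd (nat_lit 3) (.nd (nat_lit 4) (.nd (nat_lit 5) 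
(.lf (nat_lit 211653) (.g (nat_lit 1555) (.e (nat_lit 81959) (nat_lit 24) (.e (nat_lit 123195) (nat_lit 266) (.e (nat_lit 57436) (nat_lit 17) (.e (nat_lit 376856) (nat_lit 21) .nil)))) .nil)) 
(.lf (nat_lit 211685) (.g (nat_lit 1629) (.e (nat_lit 81959) (nat_lit 24) (.e (nat_lit 123197) (nat_lit 266) (.e (nat_lit 57424) (nat_lit 14) (.e (nat_lit 352285) (nat_lit 20) .nil)))) .nil))) (.nd (nat_lit 5) 
(.lf (nat_lit 211669) (.g (nat_lit 3605) (.e (nat_lit 81959) (nat_lit 24) (.e (nat_lit 123196) (nat_lit 266) (.e (nat_lit 57424) (nat_lit 14) (.e (nat_lit 352318) (nat_lit 24) (.e (nat_lit 123184) (nat_lit 264) (.e (nat_lit 1222) (nat_lit 90) .nil)))))) (.g (nat_lit 6) .nil .nil))) 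
(.lf (nat_lit 211701) (.g (nat_lit 1312) (.e (nat_lit 81959) (nat_lit 24) (.e (nat_lit 123197) (nat_lit 266) (.e (nat_lit 57426) (nat_lit 15) (.e (nat_lit 360457) (nat_lit 0) (.e (nat_lit 5818) (nat_lit 320) .nil))))) .nil)))) (.nd (nat_lit 4) (.nd (nat_lit 5) 
(.lf (nat_lit 211661) (.g (nat_lit 3129) (.e (nat_lit 81959) (nat_lit 24) (.e (nat_lit 123195) (nat_lit 266) (.e (nat_lit 57438) (nat_lit 17) (.e (nat_lit 376860) (nat_lit 21) (.e (nat_lit 57870) (nat_lit 264) (.e (nat_lit 1221) (nat_lit 90) .nil)))))) (.g (nat_lit 6) .nil .nil))) 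
(.lf (nat_lit 211693) (.g (nat_lit 3596) (.e (nat_lit 81959) (nat_lit 24) (.e (nat_lit 123197) (nat_lit 266) (.e (nat_lit 57424) (nat_lit 14) (.e (nat_lit 352318) (nat_lit 24) (.e (nat_lit 123184) (nat_lit 264) (.e (nat_lit 1224) (nat_lit 90) .nil)))))) (.g (nat_lit 6) .nil .nil)))) (.nd (nat_lit 5) 
(.lf (nat_lit 211677) (.g (nat_lit 1857) (.e (nat_lit 81959) (nat_lit 24) (.e (nat_lit 123197) (nat_lit 266) (.e (nat_lit 57419) (nat_lit 12) (.e (nat_lit 336076) (nat_lit 9) (.e (nat_lit 336332) (nat_lit 19) (.e (nat_lit 220928) (nat_lit 6) .nil)))))) (.g (nat_lit 5) .nil .nil))) 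
(.lf (nat_lit 211709) (.g (nat_lit 888) (.e (nat_lit 81959) (nat_lit 24) (.e (nat_lit 123197) (nat_lit 266) (.e (nat_lit 57427) (nat_lit 15) (.e (nat_lit 368384) (nat_lit 17) .nil)))) .nil)))))) (.nd (nat_lit 2) (.nd (nat_lit 3) (.nd (nat_lit 4) (.nd (nat_lit 5) 
(.lf (nat_lit 211651) (.g (nat_lit 1379) (.e (nat_lit 81959) (nat_lit 24) (.e (nat_lit 123195) (nat_lit 266) (.e (nat_lit 57436) (nat_lit 17) (.e (nat_lit 384768) (nat_lit 4) .nil)))) .nil)) 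
(.lf (nat_lit 211683) (.g (nat_lit 1796) (.e (nat_lit 81959) (nat_lit 24) (.e (nat_lit 123197) (nat_lit 266) (.e (nat_lit 57424) (nat_lit 14) (.e (nat_lit 352265) (nat_lit 0) .nil)))) .nil))) (.nd (nat_lit 5) 
(.lf (nat_lit 211667) (.g (nat_lit 3765) (.e (nat_lit 81959) (nat_lit 24) (.e (nat_lit 123196) (nat_lit 266) (.e (nat_lit 57424) (nat_lit 14) (.e (nat_lit 352318) (nat_lit 24) (.e (nat_lit 123182) (nat_lit 264) (.e (nat_lit 1222) (nat_lit 90) .nil)))))) (.g (nat_lit 6) .nil .nil))) 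
(.lf (nat_lit 211699) (.g (nat_lit 762) (.e (nat_lit 81959) (nat_lit 24) (.e (nat_lit 123197) (nat_lit 266) (.e (nat_lit 57426) (nat_lit 15) (.e (nat_lit 360456) (nat_lit 0) .nil)))) .nil)))) (.nd (nat_lit 4) (.nd (nat_lit 5) 
(.lf (nat_lit 211659) (.g (nat_lit 3506) (.e (nat_lit 81959) (nat_lit 24) (.e (nat_lit 123195) (nat_lit 266) (.e (nat_lit 57438) (nat_lit 17) (.e (nat_lit 376859) (nat_lit 21) (.e (nat_lit 57872) (nat_lit 264) (.e (nat_lit 1221) (nat_lit 90) .nil)))))) (.g (nat_lit 0) .nil .nil))) 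
(.lf (nat_lit 211691) (.g (nat_lit 1865) (.e (nat_lit 81959) (nat_lit 24) (.e (nat_lit 123197) (nat_lit 266) (.e (nat_lit 57424) (nat_lit 14) (.e (nat_lit 352318) (nat_lit 24) (.e (nat_lit 123184) (nat_lit 264) .nil))))) .nil))) (.nd (nat_lit 5) 
(.lf (nat_lit 211675) (.g (nat_lit 1787) (.e (nat_lit 81959) (nat_lit 24) (.e (nat_lit 123197) (nat_lit 266) (.e (nat_lit 57417) (nat_lit 12) (.e (nat_lit 336118) (nat_lit 9) (.e (nat_lit 336331) (nat_lit 19) (.e (nat_lit 220928) (nat_lit 6) .nil)))))) (.g (nat_lit 5) .nil .nil))) 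
(.lf (nat_lit 211707) (.g (nat_lit 1835) (.e (nat_lit 81959) (nat_lit 24) (.e (nat_lit 123197) (nat_lit 266) (.e (nat_lit 57427) (nat_lit 15) (.e (nat_lit 360455) (nat_lit 0) (.e (nat_lit 5848) (nat_lit 320) (.e (nat_lit 7936) (nat_lit 90) .nil)))))) (.g (nat_lit 5) .nil .nil)))))) (.nd (nat_lit 3) (.nd (nat_lit 4) (.nd (nat_lit 5) 
(.lf (nat_lit 211655) (.g (nat_lit 2225) (.e (nat_lit 81959) (nat_lit 24) (.e (nat_lit 123195) (nat_lit 266) (.e (nat_lit 57436) (nat_lit 17) (.e (nat_lit 376859) (nat_lit 21) (.e (nat_lit 57870) (nat_lit 264) .nil))))) .nil)) 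
(.lf (nat_lit 211687) (.g (nat_lit 1617) (.e (nat_lit 81959) (nat_lit 24) (.e (nat_lit 123197) (nat_lit 266) (.e (nat_lit 57424) (nat_lit 14) (.e (nat_lit 352317) (nat_lit 24) .nil)))) .nil))) (.nd (nat_lit 5) 
(.lf (nat_lit 211671) (.g (nat_lit 3252) (.e (nat_lit 81959) (nat_lit 24) (.e (nat_lit 123196) (nat_lit 266) (.e (nat_lit 57436) (nat_lit 17) (.e (nat_lit 376859) (nat_lit 21) (.e (nat_lit 57872) (nat_lit 264) (.e (nat_lit 1221) (nat_lit 90) .nil)))))) (.g (nat_lit 0) .nil .nil))) 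
(.lf (nat_lit 211703) (.g (nat_lit 855) (.e (nat_lit 81959) (nat_lit 24) (.e (nat_lit 123197) (nat_lit 266) (.e (nat_lit 57426) (nat_lit 15) (.e (nat_lit 368384) (nat_lit 17) .nil)))) .nil)))) (.nd (nat_lit 4) (.nd (nat_lit 5) 
(.lf (nat_lit 211663) (.g (nat_lit 1057) (.e (nat_lit 81959) (nat_lit 24) (.e (nat_lit 123196) (nat_lit 266) (.e (nat_lit 57419) (nat_lit 12) (.e (nat_lit 336075) (nat_lit 9) (.e (nat_lit 336332) (nat_lit 19) (.e (nat_lit 220928) (nat_lit 6) .nil)))))) (.g (nat_lit 4) .nil .nil))) 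
(.lf (nat_lit 211695) (.g (nat_lit 569) (.e (nat_lit 81959) (nat_lit 24) (.e (nat_lit 123197) (nat_lit 266) (.e (nat_lit 57425) (nat_lit 14) (.e (nat_lit 360192) (nat_lit 4) .nil)))) .nil))) (.nd (nat_lit 5) 
(.lf (nat_lit 211679) (.g (nat_lit 1229) (.e (nat_lit 81959) (nat_lit 24) (.e (nat_lit 123197) (nat_lit 266) (.e (nat_lit 57419) (nat_lit 12) (.e (nat_lit 336194) (nat_lit 12) (.e (nat_lit 385100) (nat_lit 49) .nil))))) .nil)) 
(.lf (nat_lit 211711) (.g (nat_lit 1475) (.e (nat_lit 81959) (nat_lit 24) (.e (nat_lit 123197) (nat_lit 266) (.e (nat_lit 57435) (nat_lit 17) (.e (nat_lit 376835) (nat_lit 0) (.e (nat_lit 3630) (nat_lit 227) (.e (nat_lit 778326) (nat_lit 6) .nil)))))) (.g (nat_lit 4) .nil .nil)))))))))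

noncomputable def tv2796 : DT := (.nd (nat_lit 0) (.nd (nat_lit 1) (.nd (nat_lit 2) (.nd (nat_lit 3) (.nd (nat_lit 4) (.nd (nat_lit 5) 
(.lf (nat_lit 211712) (.g (nat_lit 1626) (.e (nat_lit 81959) (nat_lit 24) (.e (nat_lit 123197) (nat_lit 266) (.e (nat_lit 57435) (nat_lit 17) (.e (nat_lit 376835) (nat_lit 0) (.e (nat_lit 3631) (nat_lit 227) (.e (nat_lit 778326) (nat_lit 6) .nil)))))) (.g (nat_lit 4) .nil .nil))) 
(.lf (nat_lit 211744) (.g (nat_lit 1804) (.e (nat_lit 81959) (nat_lit 24) (.e (nat_lit 123229) (nat_lit 282) (.e (nat_lit 163896) (nat_lit 10) (.e (nat_lit 409648) (nat_lit 18) (.e (nat_lit 303109) (nat_lit 0) .nil))))) .nil))) (.nd (nat_lit 5) 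
(.lf (nat_lit 211728) (.g (nat_lit 2731) (.e (nat_lit 81959) (nat_lit 24) (.e (nat_lit 123198) (nat_lit 266) (.e (nat_lit 57424) (nat_lit 14) (.e (nat_lit 352318) (nat_lit 24) (.e (nat_lit 123185) (nat_lit 264) (.e (nat_lit 1222) (nat_lit 90) .nil)))))) (.g (nat_lit 4) .nil .nil))) 
(.lf (nat_lit 211760) (.g (nat_lit 1833) (.e (nat_lit 81963) (nat_lit 26) (.e (nat_lit 147463) (nat_lit 9) (.e (nat_lit 314) (nat_lit 23) (.e (nat_lit 352307) (nat_lit 21) (.e (nat_lit 57655) (nat_lit 152) (.e (nat_lit 1217) (nat_lit 90) .nil)))))) (.g (nat_lit 4) .nil .nil))))) (.nd (nat_lit 4) (.nd (nat_lit 5) 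
(.lf (nat_lit 211720) (.g (nat_lit 1700) (.e (nat_lit 81959) (nat_lit 24) (.e (nat_lit 123198) (nat_lit 266) (.e (nat_lit 57419) (nat_lit 12) (.e (nat_lit 336076) (nat_lit 9) (.e (nat_lit 336332) (nat_lit 19) (.e (nat_lit 220928) (nat_lit 6) .nil)))))) (.g (nat_lit 5) .nil .nil))) 
(.lf (nat_lit 211752) (.g (nat_lit 894) (.e (nat_lit 81962) (nat_lit 25) (.e (nat_lit 139276) (nat_lit 2) (.e (nat_lit 16436) (nat_lit 9) (.e (nat_lit 425986) (nat_lit 0) .nil)))) .nil))) (.nd (nat_lit 5) 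
(.lf (nat_lit 211736) (.g (nat_lit 1489) (.e (nat_lit 81959) (nat_lit 24) (.e (nat_lit 123198) (nat_lit 266) (.e (nat_lit 57435) (nat_lit 17) (.e (nat_lit 376835) (nat_lit 0) (.e (nat_lit 3631) (nat_lit 227) (.e (nat_lit 778326) (nat_lit 6) .nil)))))) (.g (nat_lit 4) .nil .nil))) 
(.lf (nat_lit 211768) (.g (nat_lit 1493) (.e (nat_lit 81963) (nat_lit 26) (.e (nat_lit 147463) (nat_lit 9) (.e (nat_lit 334) (nat_lit 26) (.e (nat_lit 376860) (nat_lit 21) (.e (nat_lit 57665) (nat_lit 152) (.e (nat_lit 7936) (nat_lit 90) .nil)))))) (.g (nat_lit 4) .nil .nil)))))) (.nd (nat_lit 3) (.nd (nat_lit 4) (.nd (nat_lit 5) 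
(.lf (nat_lit 211716) (.g (nat_lit 1715) (.e (nat_lit 81959) (nat_lit 24) (.e (nat_lit 123197) (nat_lit 266) (.e (nat_lit 57436) (nat_lit 17) (.e (nat_lit 376860) (nat_lit 21) (.e (nat_lit 65280) (nat_lit 264) .nil))))) .nil)) 
(.lf (nat_lit 211748) (.g (nat_lit 5112) (.e (nat_lit 81960) (nat_lit 25) (.e (nat_lit 139271) (nat_lit 0) (.e (nat_lit 1181) (nat_lit 87) (.e (nat_lit 57848) (nat_lit 252) (.e (nat_lit 57368) (nat_lit 1) (.e (nat_lit 57854) (nat_lit 252) (.e (nat_lit 57373) (nat_lit 2) (.e (nat_lit 98048) (nat_lit 6) .nil)))))))) (.g (nat_lit 7) .nil .nil)))) (.nd (nat_lit 5) 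
(.lf (nat_lit 211732) (.g (nat_lit 127) (.e (nat_lit 81959) (nat_lit 24) (.e (nat_lit 123198) (nat_lit 266) (.e (nat_lit 57427) (nat_lit 15) .nil))) .nil)) 
(.lf (nat_lit 211764) (.g (nat_lit 1157) (.e (nat_lit 81963) (nat_lit 26) (.e (nat_lit 147463) (nat_lit 9) (.e (nat_lit 322) (nat_lit 24) (.e (nat_lit 360451) (nat_lit 0) (.e (nat_lit 7132) (nat_lit 382) (.e (nat_lit 7936) (nat_lit 90) .nil)))))) (.g (nat_lit 4) .nil .nil))))) (.nd (nat_lit 4) (.nd (nat_lit 5) 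
(.lf (nat_lit 211724) (.g (nat_lit 1513) (.e (nat_lit 81959) (nat_lit 24) (.e (nat_lit 123198) (nat_lit 266) (.e (nat_lit 57424) (nat_lit 14) (.e (nat_lit 352270) (nat_lit 8) (.e (nat_lit 270080) (nat_lit 6) .nil))))) (.g (nat_lit 4) .nil .nil))) 
(.lf (nat_lit 211756) (.g (nat_lit 1290) (.e (nat_lit 81963) (nat_lit 26) (.e (nat_lit 155392) (nat_lit 0) (.e (nat_lit 1669) (nat_lit 116) (.e (nat_lit 401454) (nat_lit 12) (.e (nat_lit 483072) (nat_lit 22) (.e (nat_lit 500077) (nat_lit 20) .nil)))))) (.g (nat_lit 4) .nil .nil)))) (.nd (nat_lit 5) 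
(.lf (nat_lit 211740) (.g (nat_lit 2838) (.e (nat_lit 81959) (nat_lit 24) (.e (nat_lit 123199) (nat_lit 267) (.e (nat_lit 122919) (nat_lit 15) (.e (nat_lit 360486) (nat_lit 18) (.e (nat_lit 671764) (nat_lit 6) .nil))))) (.g (nat_lit 5) .nil .nil))) 
(.lf (nat_lit 211772) (.g (nat_lit 1513) (.e (nat_lit 81963) (nat_lit 26) (.e (nat_lit 147464) (nat_lit 9) (.e (nat_lit 334) (nat_lit 26) (.e (nat_lit 376860) (nat_lit 21) (.e (nat_lit 57665) (nat_lit 152) (.e (nat_lit 7936) (nat_lit 90) .nil)))))) (.g (nat_lit 5) .nil .nil))))))) (.nd (nat_lit 2) (.nd (nat_lit 3) (.nd (nat_lit 4) (.nd (nat_lit 5) 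
(.lf (nat_lit 211714) (.g (nat_lit 843) (.e (nat_lit 81959) (nat_lit 24) (.e (nat_lit 123197) (nat_lit 266) (.e (nat_lit 57436) (nat_lit 17) (.e (nat_lit 376859) (nat_lit 21) .nil)))) .nil)) 
(.lf (nat_lit 211746) (.g (nat_lit 2487) (.e (nat_lit 81959) (nat_lit 24) (.e (nat_lit 123229) (nat_lit 282) (.e (nat_lit 163896) (nat_lit 10) (.e (nat_lit 409649) (nat_lit 18) (.e (nat_lit 303111) (nat_lit 0) (.e (nat_lit 3349) (nat_lit 206) (.e (nat_lit 606228) (nat_lit 6) .nil))))))) (.g (nat_lit 4) .nil .nil)))) (.nd (nat_lit 5) 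
(.lf (nat_lit 211730) (.g (nat_lit 2476) (.e (nat_lit 81959) (nat_lit 24) (.e (nat_lit 123198) (nat_lit 266) (.e (nat_lit 57426) (nat_lit 15) (.e (nat_lit 360452) (nat_lit 0) (.e (nat_lit 5905) (nat_lit 320) (.e (nat_lit 1219) (nat_lit 90) .nil)))))) (.g (nat_lit 5) .nil .nil))) 
(.lf (nat_lit 211762) (.g (nat_lit 1202) (.e (nat_lit 81963) (nat_lit 26) (.e (nat_lit 147463) (nat_lit 9) (.e (nat_lit 322) (nat_lit 24) (.e (nat_lit 360451) (nat_lit 0) (.e (nat_lit 7119) (nat_lit 382) (.e (nat_lit 7936) (nat_lit 90) .nil)))))) (.g (nat_lit 4) .nil .nil))))) (.nd (nat_lit 4) (.nd (nat_lit 5) 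
(.lf (nat_lit 211722) (.g (nat_lit 1233) (.e (nat_lit 81959) (nat_lit 24) (.e (nat_lit 123198) (nat_lit 266) (.e (nat_lit 57423) (nat_lit 14) (.e (nat_lit 352270) (nat_lit 8) (.e (nat_lit 270080) (nat_lit 6) .nil))))) (.g (nat_lit 4) .nil .nil))) 
(.lf (nat_lit 211754) (.g (nat_lit 1104) (.e (nat_lit 81962) (nat_lit 25) (.e (nat_lit 139276) (nat_lit 2) (.e (nat_lit 16448) (nat_lit 10) (.e (nat_lit 434295) (nat_lit 49) .nil)))) .nil))) (.nd (nat_lit 5) 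
(.lf (nat_lit 211738) (.g (nat_lit 1560) (.e (nat_lit 81959) (nat_lit 24) (.e (nat_lit 123198) (nat_lit 266) (.e (nat_lit 57436) (nat_lit 17) (.e (nat_lit 376860) (nat_lit 21) (.e (nat_lit 65280) (nat_lit 264) .nil))))) .nil)) 
(.lf (nat_lit 211770) (.g (nat_lit 1645) (.e (nat_lit 81963) (nat_lit 26) (.e (nat_lit 147464) (nat_lit 9) (.e (nat_lit 334) (nat_lit 26) (.e (nat_lit 376857) (nat_lit 21) (.e (nat_lit 57665) (nat_lit 152) (.e (nat_lit 7936) (nat_lit 90) .nil)))))) (.g (nat_lit 5) .nil .nil)))))) (.nd (nat_lit 3) (.nd (nat_lit 4) (.nd (nat_lit 5) 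
(.lf (nat_lit 211718) (.g (nat_lit 1578) (.e (nat_lit 81959) (nat_lit 24) (.e (nat_lit 123198) (nat_lit 266) (.e (nat_lit 57417) (nat_lit 12) (.e (nat_lit 336118) (nat_lit 9) (.e (nat_lit 336331) (nat_lit 19) (.e (nat_lit 220928) (nat_lit 6) .nil)))))) (.g (nat_lit 5) .nil .nil))) 
(.lf (nat_lit 211750) (.g (nat_lit 1375) (.e (nat_lit 81960) (nat_lit 25) (.e (nat_lit 139276) (nat_lit 2) (.e (nat_lit 16396) (nat_lit 0) (.e (nat_lit 7095) (nat_lit 380) (.e (nat_lit 164108) (nat_lit 116) (.e (nat_lit 786176) (nat_lit 6) .nil)))))) (.g (nat_lit 5) .nil .nil)))) (.nd (nat_lit 5) 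
(.lf (nat_lit 211734) (.g (nat_lit 1066) (.e (nat_lit 81959) (nat_lit 24) (.e (nat_lit 123198) (nat_lit 266) (.e (nat_lit 57435) (nat_lit 17) (.e (nat_lit 376835) (nat_lit 0) (.e (nat_lit 3630) (nat_lit 227) .nil))))) .nil)) 
(.lf (nat_lit 211766) (.g (nat_lit 1482) (.e (nat_lit 81963) (nat_lit 26) (.e (nat_lit 147463) (nat_lit 9) (.e (nat_lit 334) (nat_lit 26) (.e (nat_lit 376857) (nat_lit 21) (.e (nat_lit 57664) (nat_lit 152) (.e (nat_lit 7936) (nat_lit 90) .nil)))))) (.g (nat_lit 4) .nil .nil))))) (.nd (nat_lit 4) (.nd (nat_lit 5) 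
(.lf (nat_lit 211726) (.g (nat_lit 2286) (.e (nat_lit 81959) (nat_lit 24) (.e (nat_lit 123198) (nat_lit 266) (.e (nat_lit 57424) (nat_lit 14) (.e (nat_lit 352316) (nat_lit 24) (.e (nat_lit 123185) (nat_lit 264) .nil))))) .nil)) 
(.lf (nat_lit 211758) (.g (nat_lit 1832) (.e (nat_lit 81963) (nat_lit 26) (.e (nat_lit 147463) (nat_lit 9) (.e (nat_lit 249) (nat_lit 21) (.e (nat_lit 336186) (nat_lit 11) (.e (nat_lit 368662) (nat_lit 18) (.e (nat_lit 7147) (nat_lit 382) (.e (nat_lit 1216) (nat_lit 90) .nil))))))) (.g (nat_lit 5) .nil .nil)))) (.nd (nat_lit 5) 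
(.lf (nat_lit 211742) (.g (nat_lit 2073) (.e (nat_lit 81959) (nat_lit 24) (.e (nat_lit 123229) (nat_lit 282) (.e (nat_lit 163896) (nat_lit 10) (.e (nat_lit 409648) (nat_lit 18) (.e (nat_lit 303108) (nat_lit 0) (.e (nat_lit 3347) (nat_lit 206) (.e (nat_lit 606228) (nat_lit 6) .nil))))))) (.g (nat_lit 4) .nil .nil))) 
(.lf (nat_lit 211774) (.g (nat_lit 1770) (.e (nat_lit 81963) (nat_lit 26) (.e (nat_lit 147465) (nat_lit 9) (.e (nat_lit 334) (nat_lit 26) (.e (nat_lit 376857) (nat_lit 21) (.e (nat_lit 57664) (nat_lit 152) (.e (nat_lit 7936) (nat_lit 90) .nil)))))) (.g (nat_lit 5) .nil .nil)))))))) (.nd (nat_lit 1) (.nd (nat_lit 2) (.nd (nat_lit 3) (.nd (nat_lit 4) (.nd (nat_lit 5) 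
(.lf (nat_lit 211713) (.g (nat_lit 1511) (.e (nat_lit 81959) (nat_lit 24) (.e (nat_lit 123197) (nat_lit 266) (.e (nat_lit 57436) (nat_lit 17) (.e (nat_lit 376835) (nat_lit 0) (.e (nat_lit 3630) (nat_lit 227) (.e (nat_lit 778326) (nat_lit 6) .nil)))))) (.g (nat_lit 4) .nil .nil))) 
(.lf (nat_lit 211745) (.g (nat_lit 1676) (.e (nat_lit 81959) (nat_lit 24) (.e (nat_lit 123229) (nat_lit 282) (.e (nat_lit 163896) (nat_lit 10) (.e (nat_lit 409649) (nat_lit 18) (.e (nat_lit 303111) (nat_lit 0) .nil))))) .nil))) (.nd (nat_lit 5) 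
(.lf (nat_lit 211729) (.g (nat_lit 2798) (.e (nat_lit 81959) (nat_lit 24) (.e (nat_lit 123198) (nat_lit 266) (.e (nat_lit 57424) (nat_lit 14) (.e (nat_lit 352318) (nat_lit 24) (.e (nat_lit 123185) (nat_lit 264) (.e (nat_lit 1223) (nat_lit 90) .nil)))))) (.g (nat_lit 4) .nil .nil))) 
(.lf (nat_lit 211761) (.g (nat_lit 939) (.e (nat_lit 81963) (nat_lit 26) (.e (nat_lit 147463) (nat_lit 9) (.e (nat_lit 321) (nat_lit 24) (.e (nat_lit 360453) (nat_lit 0) (.e (nat_lit 7147) (nat_lit 382) .nil))))) .nil)))) (.nd (nat_lit 4) (.nd (nat_lit 5) 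
(.lf (nat_lit 211721) (.g (nat_lit 1405) (.e (nat_lit 81959) (nat_lit 24) (.e (nat_lit 123198) (nat_lit 266) (.e (nat_lit 57419) (nat_lit 12) (.e (nat_lit 336194) (nat_lit 12) (.e (nat_lit 385096) (nat_lit 49) (.e (nat_lit 786176) (nat_lit 6) .nil)))))) (.g (nat_lit 4) .nil .nil))) 
(.lf (nat_lit 211753) (.g (nat_lit 1333) (.e (nat_lit 81962) (nat_lit 25) (.e (nat_lit 139276) (nat_lit 2) (.e (nat_lit 16436) (nat_lit 9) (.e (nat_lit 425986) (nat_lit 0) (.e (nat_lit 2420) (nat_lit 157) .nil))))) .nil))) (.nd (nat_lit 5) 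
(.lf (nat_lit 211737) (.g (nat_lit 1974) (.e (nat_lit 81959) (nat_lit 24) (.e (nat_lit 123198) (nat_lit 266) (.e (nat_lit 57436) (nat_lit 17) (.e (nat_lit 376860) (nat_lit 21) (.e (nat_lit 57870) (nat_lit 264) (.e (nat_lit 1219) (nat_lit 90) .nil)))))) (.g (nat_lit 4) .nil .nil))) 
(.lf (nat_lit 211769) (.g (nat_lit 1376) (.e (nat_lit 81963) (nat_lit 26) (.e (nat_lit 147464) (nat_lit 9) (.e (nat_lit 334) (nat_lit 26) (.e (nat_lit 376857) (nat_lit 21) (.e (nat_lit 57664) (nat_lit 152) (.e (nat_lit 7936) (nat_lit 90) .nil)))))) (.g (nat_lit 4) .nil .nil)))))) (.nd (nat_lit 3) (.nd (nat_lit 4) (.nd (nat_lit 5) 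
(.lf (nat_lit 211717) (.g (nat_lit 1606) (.e (nat_lit 81959) (nat_lit 24) (.e (nat_lit 123198) (nat_lit 266) (.e (nat_lit 57417) (nat_lit 12) (.e (nat_lit 336116) (nat_lit 9) (.e (nat_lit 336331) (nat_lit 19) (.e (nat_lit 220928) (nat_lit 6) .nil)))))) (.g (nat_lit 5) .nil .nil))) 
(.lf (nat_lit 211749) (.g (nat_lit 2115) (.e (nat_lit 81960) (nat_lit 25) (.e (nat_lit 139276) (nat_lit 2) (.e (nat_lit 16392) (nat_lit 0) (.e (nat_lit 7107) (nat_lit 380) (.e (nat_lit 164108) (nat_lit 116) (.e (nat_lit 786176) (nat_lit 6) .nil)))))) (.g (nat_lit 5) .nil .nil)))) (.nd (nat_lit 5) 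
(.lf (nat_lit 211733) (.g (nat_lit 1549) (.e (nat_lit 81959) (nat_lit 24) (.e (nat_lit 123198) (nat_lit 266) (.e (nat_lit 57427) (nat_lit 15) (.e (nat_lit 360455) (nat_lit 0) (.e (nat_lit 5848) (nat_lit 320) (.e (nat_lit 7936) (nat_lit 90) .nil)))))) (.g (nat_lit 4) .nil .nil))) 
(.lf (nat_lit 211765) (.g (nat_lit 1210) (.e (nat_lit 81963) (nat_lit 26) (.e (nat_lit 147463) (nat_lit 9) (.e (nat_lit 324) (nat_lit 24) (.e (nat_lit 360452) (nat_lit 0) (.e (nat_lit 7147) (nat_lit 382) .nil))))) .nil)))) (.nd (nat_lit 4) (.nd (nat_lit 5) 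
(.lf (nat_lit 211725) (.g (nat_lit 1697) (.e (nat_lit 81959) (nat_lit 24) (.e (nat_lit 123198) (nat_lit 266) (.e (nat_lit 57424) (nat_lit 14) (.e (nat_lit 352316) (nat_lit 24) .nil)))) .nil)) 
(.lf (nat_lit 211757) (.g (nat_lit 2698) (.e (nat_lit 81963) (nat_lit 26) (.e (nat_lit 147463) (nat_lit 9) (.e (nat_lit 249) (nat_lit 21) (.e (nat_lit 336158) (nat_lit 9) (.e (nat_lit 335988) (nat_lit 1) (.e (nat_lit 57665) (nat_lit 152) (.e (nat_lit 7936) (nat_lit 90) .nil))))))) (.g (nat_lit 6) .nil .nil)))) (.nd (nat_lit 5) 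
(.lf (nat_lit 211741) (.g (nat_lit 1818) (.e (nat_lit 81959) (nat_lit 24) (.e (nat_lit 123228) (nat_lit 282) (.e (nat_lit 163896) (nat_lit 10) (.e (nat_lit 409649) (nat_lit 18) (.e (nat_lit 303111) (nat_lit 0) .nil))))) .nil)) 
(.lf (nat_lit 211773) (.g (nat_lit 1303) (.e (nat_lit 81963) (nat_lit 26) (.e (nat_lit 147465) (nat_lit 9) (.e (nat_lit 334) (nat_lit 26) (.e (nat_lit 376857) (nat_lit 21) (.e (nat_lit 57657) (nat_lit 152) .nil))))) .nil)))))) (.nd (nat_lit 2) (.nd (nat_lit 3) (.nd (nat_lit 4) (.nd (nat_lit 5) 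
(.lf (nat_lit 211715) (.g (nat_lit 2047) (.e (nat_lit 81959) (nat_lit 24) (.e (nat_lit 123197) (nat_lit 266) (.e (nat_lit 57436) (nat_lit 17) (.e (nat_lit 376860) (nat_lit 21) (.e (nat_lit 57870) (nat_lit 264) (.e (nat_lit 1219) (nat_lit 90) .nil)))))) (.g (nat_lit 4) .nil .nil))) 
(.lf (nat_lit 211747) (.g (nat_lit 2015) (.e (nat_lit 81959) (nat_lit 24) (.e (nat_lit 123229) (nat_lit 282) (.e (nat_lit 164084) (nat_lit 73) (.e (nat_lit 335995) (nat_lit 1) (.e (nat_lit 57872) (nat_lit 264) (.e (nat_lit 1170) (nat_lit 87) (.e (nat_lit 57521) (nat_lit 44) (.e (nat_lit 688186) (nat_lit 18) .nil)))))))) (.g (nat_lit 4) .nil .nil)))) (.nd (nat_lit 5) 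
(.lf (nat_lit 211731) (.g (nat_lit 2930) (.e (nat_lit 81959) (nat_lit 24) (.e (nat_lit 123198) (nat_lit 266) (.e (nat_lit 57426) (nat_lit 15) (.e (nat_lit 360452) (nat_lit 0) (.e (nat_lit 5907) (nat_lit 320) (.e (nat_lit 1219) (nat_lit 90) .nil)))))) (.g (nat_lit 6) .nil .nil))) 
(.lf (nat_lit 211763) (.g (nat_lit 2235) (.e (nat_lit 81963) (nat_lit 26) (.e (nat_lit 147463) (nat_lit 9) (.e (nat_lit 322) (nat_lit 24) (.e (nat_lit 360451) (nat_lit 0) (.e (nat_lit 7124) (nat_lit 382) (.e (nat_lit 7936) (nat_lit 90) .nil)))))) (.g (nat_lit 5) .nil .nil))))) (.nd (nat_lit 4) (.nd (nat_lit 5) 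
(.lf (nat_lit 211723) (.g (nat_lit 1709) (.e (nat_lit 81959) (nat_lit 24) (.e (nat_lit 123198) (nat_lit 266) (.e (nat_lit 57424) (nat_lit 14) (.e (nat_lit 352265) (nat_lit 0) .nil)))) .nil)) 
(.lf (nat_lit 211755) (.g (nat_lit 2915) (.e (nat_lit 81962) (nat_lit 25) (.e (nat_lit 139289) (nat_lit 9) (.e (nat_lit 3102) (nat_lit 192) (.e (nat_lit 491560) (nat_lit 10) (.e (nat_lit 344126) (nat_lit 25) (.e (nat_lit 556800) (nat_lit 11) .nil)))))) (.g (nat_lit 5) .nil .nil)))) (.nd (nat_lit 5) 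
(.lf (nat_lit 211739) (.g (nat_lit 3370) (.e (nat_lit 81959) (nat_lit 24) (.e (nat_lit 123199) (nat_lit 267) (.e (nat_lit 122916) (nat_lit 14) (.e (nat_lit 352309) (nat_lit 21) (.e (nat_lit 57872) (nat_lit 264) (.e (nat_lit 1221) (nat_lit 90) .nil)))))) (.g (nat_lit 0) .nil .nil))) 
(.lf (nat_lit 211771) (.g (nat_lit 1199) (.e (nat_lit 81963) (nat_lit 26) (.e (nat_lit 147464) (nat_lit 9) (.e (nat_lit 334) (nat_lit 26) (.e (nat_lit 376860) (nat_lit 21) (.e (nat_lit 57664) (nat_lit 152) (.e (nat_lit 7936) (nat_lit 90) .nil)))))) (.g (nat_lit 4) .nil .nil)))))) (.nd (nat_lit 3) (.nd (nat_lit 4) (.nd (nat_lit 5) 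
(.lf (nat_lit 211719) (.g (nat_lit 1429) (.e (nat_lit 81959) (nat_lit 24) (.e (nat_lit 123198) (nat_lit 266) (.e (nat_lit 57419) (nat_lit 12) (.e (nat_lit 336075) (nat_lit 9) (.e (nat_lit 336332) (nat_lit 19) (.e (nat_lit 220928) (nat_lit 6) .nil)))))) (.g (nat_lit 5) .nil .nil))) 
(.lf (nat_lit 211751) (.g (nat_lit 1582) (.e (nat_lit 81960) (nat_lit 25) (.e (nat_lit 139276) (nat_lit 2) (.e (nat_lit 16473) (nat_lit 14) (.e (nat_lit 491543) (nat_lit 6) (.e (nat_lit 155392) (nat_lit 6) .nil))))) .nil))) (.nd (nat_lit 5) 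
(.lf (nat_lit 211735) (.g (nat_lit 1295) (.e (nat_lit 81959) (nat_lit 24) (.e (nat_lit 123198) (nat_lit 266) (.e (nat_lit 57435) (nat_lit 17) (.e (nat_lit 376835) (nat_lit 0) (.e (nat_lit 3630) (nat_lit 227) (.e (nat_lit 778326) (nat_lit 6) .nil)))))) (.g (nat_lit 4) .nil .nil))) 
(.lf (nat_lit 211767) (.g (nat_lit 1756) (.e (nat_lit 81963) (nat_lit 26) (.e (nat_lit 147463) (nat_lit 9) (.e (nat_lit 334) (nat_lit 26) (.e (nat_lit 376857) (nat_lit 21) (.e (nat_lit 57665) (nat_lit 152) (.e (nat_lit 7936) (nat_lit 90) .nil)))))) (.g (nat_lit 5) .nil .nil))))) (.nd (nat_lit 4) (.nd (nat_lit 5) 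
(.lf (nat_lit 211727) (.g (nat_lit 3488) (.e (nat_lit 81959) (nat_lit 24) (.e (nat_lit 123198) (nat_lit 266) (.e (nat_lit 57424) (nat_lit 14) (.e (nat_lit 352318) (nat_lit 24) (.e (nat_lit 123182) (nat_lit 264) (.e (nat_lit 1224) (nat_lit 90) .nil)))))) (.g (nat_lit 5) .nil .nil))) 
(.lf (nat_lit 211759) (.g (nat_lit 1784) (.e (nat_lit 81963) (nat_lit 26) (.e (nat_lit 147463) (nat_lit 9) (.e (nat_lit 314) (nat_lit 23) (.e (nat_lit 352307) (nat_lit 21) (.e (nat_lit 57655) (nat_lit 152) (.e (nat_lit 1216) (nat_lit 90) .nil)))))) (.g (nat_lit 4) .nil .nil)))) (.nd (nat_lit 5) 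
(.lf (nat_lit 211743) (.g (nat_lit 2466) (.e (nat_lit 81959) (nat_lit 24) (.e (nat_lit 123229) (nat_lit 282) (.e (nat_lit 163896) (nat_lit 10) (.e (nat_lit 409648) (nat_lit 18) (.e (nat_lit 303108) (nat_lit 0) (.e (nat_lit 3348) (nat_lit 206) (.e (nat_lit 606228) (nat_lit 6) .nil))))))) (.g (nat_lit 4) .nil .nil))) 
(.lf (nat_lit 211775) (.g (nat_lit 1990) (.e (nat_lit 81963) (nat_lit 26) (.e (nat_lit 147465) (nat_lit 9) (.e (nat_lit 334) (nat_lit 26) (.e (nat_lit 376857) (nat_lit 21) (.e (nat_lit 57665) (nat_lit 152) (.e (nat_lit 7936) (nat_lit 90) .nil)))))) (.g (nat_lit 5) .nil .nil)))))))))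

noncomputable def tv2797 : DT := (.nd (nat_lit 0) (.nd (nat_lit 1) (.nd (nat_lit 2) (.nd (nat_lit 3) (.nd (nat_lit 4) (.nd (nat_lit 5) 
(.lf (nat_lit 211776) (.g (nat_lit 1527) (.e (nat_lit 81963) (nat_lit 26) (.e (nat_lit 147465) (nat_lit 9) (.e (nat_lit 334) (nat_lit 26) (.e (nat_lit 376860) (nat_lit 21) (.e (nat_lit 57664) (nat_lit 152) (.e (nat_lit 7936) (nat_lit 90) .nil)))))) (.g (nat_lit 4) .nil .nil))) 
(.lf (nat_lit 211808) (.g (nat_lit 1673) (.e (nat_lit 81963) (nat_lit 26) (.e (nat_lit 147467) (nat_lit 9) (.e (nat_lit 324) (nat_lit 24) (.e (nat_lit 360489) (nat_lit 21) (.e (nat_lit 770074) (nat_lit 10) .nil))))) (.g (nat_lit 0) .nil .nil)))) (.nd (nat_lit 5) 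
(.lf (nat_lit 211792) (.g (nat_lit 763) (.e (nat_lit 81963) (nat_lit 26) (.e (nat_lit 147467) (nat_lit 9) (.e (nat_lit 297) (nat_lit 22) (.e (nat_lit 344085) (nat_lit 15) .nil)))) .nil)) 
(.lf (nat_lit 211824) (.g (nat_lit 2400) (.e (nat_lit 81963) (nat_lit 26) (.e (nat_lit 147492) (nat_lit 11) (.e (nat_lit 24638) (nat_lit 9) (.e (nat_lit 335986) (nat_lit 1) (.e (nat_lit 57655) (nat_lit 152) (.e (nat_lit 1217) (nat_lit 90) .nil)))))) (.g (nat_lit 5) .nil .nil))))) (.nd (nat_lit 4) (.nd (nat_lit 5) 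
(.lf (nat_lit 211784) (.g (nat_lit 1839) (.e (nat_lit 81963) (nat_lit 26) (.e (nat_lit 147466) (nat_lit 9) (.e (nat_lit 324) (nat_lit 24) (.e (nat_lit 360449) (nat_lit 0) (.e (nat_lit 7119) (nat_lit 382) (.e (nat_lit 7936) (nat_lit 90) .nil)))))) (.g (nat_lit 5) .nil .nil))) 
(.lf (nat_lit 211816) (.g (nat_lit 643) (.e (nat_lit 81963) (nat_lit 26) (.e (nat_lit 147492) (nat_lit 11) (.e (nat_lit 24580) (nat_lit 0) (.e (nat_lit 6203) (nat_lit 332) .nil)))) .nil))) (.nd (nat_lit 5) 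
(.lf (nat_lit 211800) (.g (nat_lit 1304) (.e (nat_lit 81963) (nat_lit 26) (.e (nat_lit 147467) (nat_lit 9) (.e (nat_lit 321) (nat_lit 24) (.e (nat_lit 360449) (nat_lit 0) (.e (nat_lit 7124) (nat_lit 382) (.e (nat_lit 7936) (nat_lit 90) .nil)))))) (.g (nat_lit 4) .nil .nil))) 
(.lf (nat_lit 211832) (.g (nat_lit 2552) (.e (nat_lit 81963) (nat_lit 26) (.e (nat_lit 147492) (nat_lit 11) (.e (nat_lit 24664) (nat_lit 14) (.e (nat_lit 401414) (nat_lit 0) (.e (nat_lit 3459) (nat_lit 216) (.e (nat_lit 696064) (nat_lit 18) .nil)))))) (.g (nat_lit 5) .nil .nil)))))) (.nd (nat_lit 3) (.nd (nat_lit 4) (.nd (nat_lit 5) 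
(.lf (nat_lit 211780) (.g (nat_lit 1512) (.e (nat_lit 81963) (nat_lit 26) (.e (nat_lit 147466) (nat_lit 9) (.e (nat_lit 321) (nat_lit 24) (.e (nat_lit 360449) (nat_lit 0) (.e (nat_lit 7124) (nat_lit 382) (.e (nat_lit 7936) (nat_lit 90) .nil)))))) (.g (nat_lit 4) .nil .nil))) 
(.lf (nat_lit 211812) (.g (nat_lit 2033) (.e (nat_lit 81963) (nat_lit 26) (.e (nat_lit 147467) (nat_lit 9) (.e (nat_lit 334) (nat_lit 26) (.e (nat_lit 376857) (nat_lit 21) (.e (nat_lit 57665) (nat_lit 152) (.e (nat_lit 7936) (nat_lit 90) .nil)))))) (.g (nat_lit 5) .nil .nil)))) (.nd (nat_lit 5) 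
(.lf (nat_lit 211796) (.g (nat_lit 1434) (.e (nat_lit 81963) (nat_lit 26) (.e (nat_lit 147467) (nat_lit 9) (.e (nat_lit 314) (nat_lit 23) (.e (nat_lit 352303) (nat_lit 20) .nil)))) .nil)) 
(.lf (nat_lit 211828) (.g (nat_lit 846) (.e (nat_lit 81963) (nat_lit 26) (.e (nat_lit 147492) (nat_lit 11) (.e (nat_lit 24646) (nat_lit 11) (.e (nat_lit 368662) (nat_lit 18) (.e (nat_lit 7160) (nat_lit 382) .nil))))) .nil)))) (.nd (nat_lit 4) (.nd (nat_lit 5) 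
(.lf (nat_lit 211788) (.g (nat_lit 2489) (.e (nat_lit 81963) (nat_lit 26) (.e (nat_lit 147466) (nat_lit 9) (.e (nat_lit 324) (nat_lit 24) (.e (nat_lit 360452) (nat_lit 0) (.e (nat_lit 7147) (nat_lit 382) (.e (nat_lit 1216) (nat_lit 90) .nil)))))) (.g (nat_lit 0) .nil .nil))) 
(.lf (nat_lit 211820) (.g (nat_lit 2091) (.e (nat_lit 81963) (nat_lit 26) (.e (nat_lit 147492) (nat_lit 11) (.e (nat_lit 24627) (nat_lit 9) (.e (nat_lit 336000) (nat_lit 1) (.e (nat_lit 57655) (nat_lit 152) (.e (nat_lit 1216) (nat_lit 90) .nil)))))) (.g (nat_lit 6) .nil .nil)))) (.nd (nat_lit 5) 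
(.lf (nat_lit 211804) (.g (nat_lit 2062) (.e (nat_lit 81963) (nat_lit 26) (.e (nat_lit 147467) (nat_lit 9) (.e (nat_lit 324) (nat_lit 24) (.e (nat_lit 360449) (nat_lit 0) (.e (nat_lit 7122) (nat_lit 382) (.e (nat_lit 7936) (nat_lit 90) .nil)))))) (.g (nat_lit 5) .nil .nil))) 
(.lf (nat_lit 211836) (.g (nat_lit 1488) (.e (nat_lit 81963) (nat_lit 26) (.e (nat_lit 147493) (nat_lit 11) (.e (nat_lit 24628) (nat_lit 9) (.e (nat_lit 336000) (nat_lit 1) (.e (nat_lit 57655) (nat_lit 152) (.e (nat_lit 1216) (nat_lit 90) .nil)))))) (.g (nat_lit 4) .nil .nil))))))) (.nd (nat_lit 2) (.nd (nat_lit 3) (.nd (nat_lit 4) (.nd (nat_lit 5) 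
(.lf (nat_lit 211778) (.g (nat_lit 1375) (.e (nat_lit 81963) (nat_lit 26) (.e (nat_lit 147465) (nat_lit 9) (.e (nat_lit 334) (nat_lit 26) (.e (nat_lit 376860) (nat_lit 21) (.e (nat_lit 57671) (nat_lit 152) .nil))))) .nil)) 
(.lf (nat_lit 211810) (.g (nat_lit 1613) (.e (nat_lit 81963) (nat_lit 26) (.e (nat_lit 147467) (nat_lit 9) (.e (nat_lit 334) (nat_lit 26) (.e (nat_lit 376857) (nat_lit 21) (.e (nat_lit 57657) (nat_lit 152) .nil))))) .nil))) (.nd (nat_lit 5) 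
(.lf (nat_lit 211794) (.g (nat_lit 2644) (.e (nat_lit 81963) (nat_lit 26) (.e (nat_lit 147467) (nat_lit 9) (.e (nat_lit 314) (nat_lit 23) (.e (nat_lit 352290) (nat_lit 20) (.e (nat_lit 2281) (nat_lit 150) (.e (nat_lit 770074) (nat_lit 10) .nil)))))) (.g (nat_lit 0) .nil .nil))) 
(.lf (nat_lit 211826) (.g (nat_lit 1815) (.e (nat_lit 81963) (nat_lit 26) (.e (nat_lit 147492) (nat_lit 11) (.e (nat_lit 24638) (nat_lit 9) (.e (nat_lit 335987) (nat_lit 1) (.e (nat_lit 57665) (nat_lit 152) (.e (nat_lit 7936) (nat_lit 90) .nil)))))) (.g (nat_lit 5) .nil .nil))))) (.nd (nat_lit 4) (.nd (nat_lit 5) 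
(.lf (nat_lit 211786) (.g (nat_lit 1854) (.e (nat_lit 81963) (nat_lit 26) (.e (nat_lit 147466) (nat_lit 9) (.e (nat_lit 324) (nat_lit 24) (.e (nat_lit 360449) (nat_lit 0) (.e (nat_lit 7124) (nat_lit 382) (.e (nat_lit 7936) (nat_lit 90) .nil)))))) (.g (nat_lit 5) .nil .nil))) 
(.lf (nat_lit 211818) (.g (nat_lit 1399) (.e (nat_lit 81963) (nat_lit 26) (.e (nat_lit 147492) (nat_lit 11) (.e (nat_lit 24622) (nat_lit 8) (.e (nat_lit 327680) (nat_lit 0) (.e (nat_lit 848) (nat_lit 73) (.e (nat_lit 769792) (nat_lit 10) .nil)))))) (.g (nat_lit 5) .nil .nil)))) (.nd (nat_lit 5) 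
(.lf (nat_lit 211802) (.g (nat_lit 1238) (.e (nat_lit 81963) (nat_lit 26) (.e (nat_lit 147467) (nat_lit 9) (.e (nat_lit 321) (nat_lit 24) (.e (nat_lit 360488) (nat_lit 20) (.e (nat_lit 769792) (nat_lit 10) .nil))))) (.g (nat_lit 4) .nil .nil))) 
(.lf (nat_lit 211834) (.g (nat_lit 2623) (.e (nat_lit 81963) (nat_lit 26) (.e (nat_lit 147492) (nat_lit 11) (.e (nat_lit 24665) (nat_lit 14) (.e (nat_lit 401414) (nat_lit 0) (.e (nat_lit 3459) (nat_lit 216) (.e (nat_lit 688183) (nat_lit 18) .nil)))))) (.g (nat_lit 5) .nil .nil)))))) (.nd (nat_lit 3) (.nd (nat_lit 4) (.nd (nat_lit 5) 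
(.lf (nat_lit 211782) (.g (nat_lit 1987) (.e (nat_lit 81963) (nat_lit 26) (.e (nat_lit 147466) (nat_lit 9) (.e (nat_lit 321) (nat_lit 24) (.e (nat_lit 360453) (nat_lit 0) (.e (nat_lit 7147) (nat_lit 382) (.e (nat_lit 1216) (nat_lit 90) .nil)))))) (.g (nat_lit 0) .nil .nil))) 
(.lf (nat_lit 211814) (.g (nat_lit 1910) (.e (nat_lit 81963) (nat_lit 26) (.e (nat_lit 147467) (nat_lit 9) (.e (nat_lit 334) (nat_lit 26) (.e (nat_lit 376860) (nat_lit 21) (.e (nat_lit 57665) (nat_lit 152) (.e (nat_lit 7936) (nat_lit 90) .nil)))))) (.g (nat_lit 5) .nil .nil)))) (.nd (nat_lit 5) 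
(.lf (nat_lit 211798) (.g (nat_lit 2648) (.e (nat_lit 81963) (nat_lit 26) (.e (nat_lit 147467) (nat_lit 9) (.e (nat_lit 314) (nat_lit 23) (.e (nat_lit 352309) (nat_lit 21) (.e (nat_lit 57654) (nat_lit 152) (.e (nat_lit 1217) (nat_lit 90) .nil)))))) (.g (nat_lit 5) .nil .nil))) 
(.lf (nat_lit 211830) (.g (nat_lit 2467) (.e (nat_lit 81963) (nat_lit 26) (.e (nat_lit 147492) (nat_lit 11) (.e (nat_lit 24662) (nat_lit 14) (.e (nat_lit 401422) (nat_lit 1) (.e (nat_lit 164149) (nat_lit 152) (.e (nat_lit 1217) (nat_lit 90) .nil)))))) (.g (nat_lit 4) .nil .nil))))) (.nd (nat_lit 4) (.nd (nat_lit 5) 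
(.lf (nat_lit 211790) (.g (nat_lit 1371) (.e (nat_lit 81963) (nat_lit 26) (.e (nat_lit 147466) (nat_lit 9) (.e (nat_lit 334) (nat_lit 26) (.e (nat_lit 376857) (nat_lit 21) (.e (nat_lit 57655) (nat_lit 152) .nil))))) .nil)) 
(.lf (nat_lit 211822) (.g (nat_lit 1936) (.e (nat_lit 81963) (nat_lit 26) (.e (nat_lit 147492) (nat_lit 11) (.e (nat_lit 24636) (nat_lit 9) (.e (nat_lit 335998) (nat_lit 1) (.e (nat_lit 57655) (nat_lit 152) (.e (nat_lit 1216) (nat_lit 90) .nil)))))) (.g (nat_lit 5) .nil .nil)))) (.nd (nat_lit 5) 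
(.lf (nat_lit 211806) (.g (nat_lit 2202) (.e (nat_lit 81963) (nat_lit 26) (.e (nat_lit 147467) (nat_lit 9) (.e (nat_lit 324) (nat_lit 24) (.e (nat_lit 360452) (nat_lit 0) (.e (nat_lit 7147) (nat_lit 382) (.e (nat_lit 1216) (nat_lit 90) .nil)))))) (.g (nat_lit 0) .nil .nil))) 
(.lf (nat_lit 211838) (.g (nat_lit 1692) (.e (nat_lit 81963) (nat_lit 26) (.e (nat_lit 147493) (nat_lit 11) (.e (nat_lit 24638) (nat_lit 9) (.e (nat_lit 335987) (nat_lit 1) (.e (nat_lit 57665) (nat_lit 152) (.e (nat_lit 7936) (nat_lit 90) .nil)))))) (.g (nat_lit 5) .nil .nil)))))))) (.nd (nat_lit 1) (.nd (nat_lit 2) (.nd (nat_lit 3) (.nd (nat_lit 4) (.nd (nat_lit 5) 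
(.lf (nat_lit 211777) (.g (nat_lit 1810) (.e (nat_lit 81963) (nat_lit 26) (.e (nat_lit 147465) (nat_lit 9) (.e (nat_lit 334) (nat_lit 26) (.e (nat_lit 376860) (nat_lit 21) (.e (nat_lit 57665) (nat_lit 152) (.e (nat_lit 7936) (nat_lit 90) .nil)))))) (.g (nat_lit 5) .nil .nil))) 
(.lf (nat_lit 211809) (.g (nat_lit 363) (.e (nat_lit 81963) (nat_lit 26) (.e (nat_lit 147467) (nat_lit 9) (.e (nat_lit 328) (nat_lit 25) .nil))) .nil))) (.nd (nat_lit 5) 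
(.lf (nat_lit 211793) (.g (nat_lit 1174) (.e (nat_lit 81963) (nat_lit 26) (.e (nat_lit 147467) (nat_lit 9) (.e (nat_lit 314) (nat_lit 23) (.e (nat_lit 352290) (nat_lit 20) (.e (nat_lit 2264) (nat_lit 149) .nil))))) .nil)) 
(.lf (nat_lit 211825) (.g (nat_lit 1925) (.e (nat_lit 81963) (nat_lit 26) (.e (nat_lit 147492) (nat_lit 11) (.e (nat_lit 24638) (nat_lit 9) (.e (nat_lit 335986) (nat_lit 1) (.e (nat_lit 57665) (nat_lit 152) (.e (nat_lit 7936) (nat_lit 90) .nil)))))) (.g (nat_lit 4) .nil .nil))))) (.nd (nat_lit 4) (.nd (nat_lit 5) 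
(.lf (nat_lit 211785) (.g (nat_lit 2314) (.e (nat_lit 81963) (nat_lit 26) (.e (nat_lit 147466) (nat_lit 9) (.e (nat_lit 324) (nat_lit 24) (.e (nat_lit 360449) (nat_lit 0) (.e (nat_lit 7122) (nat_lit 382) (.e (nat_lit 7936) (nat_lit 90) .nil)))))) (.g (nat_lit 5) .nil .nil))) 
(.lf (nat_lit 211817) (.g (nat_lit 1416) (.e (nat_lit 81963) (nat_lit 26) (.e (nat_lit 147492) (nat_lit 11) (.e (nat_lit 24621) (nat_lit 8) (.e (nat_lit 327682) (nat_lit 0) (.e (nat_lit 848) (nat_lit 73) (.e (nat_lit 769792) (nat_lit 10) .nil)))))) (.g (nat_lit 5) .nil .nil)))) (.nd (nat_lit 5) 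
(.lf (nat_lit 211801) (.g (nat_lit 1767) (.e (nat_lit 81963) (nat_lit 26) (.e (nat_lit 147467) (nat_lit 9) (.e (nat_lit 321) (nat_lit 24) (.e (nat_lit 360453) (nat_lit 0) (.e (nat_lit 7147) (nat_lit 382) (.e (nat_lit 1216) (nat_lit 90) .nil)))))) (.g (nat_lit 0) .nil .nil))) 
(.lf (nat_lit 211833) (.g (nat_lit 2347) (.e (nat_lit 81963) (nat_lit 26) (.e (nat_lit 147492) (nat_lit 11) (.e (nat_lit 24665) (nat_lit 14) (.e (nat_lit 401413) (nat_lit 0) (.e (nat_lit 3459) (nat_lit 216) (.e (nat_lit 696064) (nat_lit 18) .nil)))))) (.g (nat_lit 5) .nil .nil)))))) (.nd (nat_lit 3) (.nd (nat_lit 4) (.nd (nat_lit 5) 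
(.lf (nat_lit 211781) (.g (nat_lit 2783) (.e (nat_lit 81963) (nat_lit 26) (.e (nat_lit 147466) (nat_lit 9) (.e (nat_lit 321) (nat_lit 24) (.e (nat_lit 360449) (nat_lit 0) (.e (nat_lit 7125) (nat_lit 382) (.e (nat_lit 1224) (nat_lit 90) .nil)))))) (.g (nat_lit 0) .nil .nil))) 
(.lf (nat_lit 211813) (.g (nat_lit 1608) (.e (nat_lit 81963) (nat_lit 26) (.e (nat_lit 147467) (nat_lit 9) (.e (nat_lit 334) (nat_lit 26) (.e (nat_lit 376860) (nat_lit 21) (.e (nat_lit 57664) (nat_lit 152) (.e (nat_lit 7936) (nat_lit 90) .nil)))))) (.g (nat_lit 4) .nil .nil)))) (.nd (nat_lit 5) 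
(.lf (nat_lit 211797) (.g (nat_lit 2024) (.e (nat_lit 81963) (nat_lit 26) (.e (nat_lit 147467) (nat_lit 9) (.e (nat_lit 314) (nat_lit 23) (.e (nat_lit 352307) (nat_lit 21) (.e (nat_lit 57654) (nat_lit 152) (.e (nat_lit 1216) (nat_lit 90) .nil)))))) (.g (nat_lit 4) .nil .nil))) 
(.lf (nat_lit 211829) (.g (nat_lit 1191) (.e (nat_lit 81963) (nat_lit 26) (.e (nat_lit 147492) (nat_lit 11) (.e (nat_lit 24646) (nat_lit 11) (.e (nat_lit 368662) (nat_lit 18) (.e (nat_lit 7160) (nat_lit 382) (.e (nat_lit 1215) (nat_lit 90) .nil)))))) (.g (nat_lit 4) .nil .nil))))) (.nd (nat_lit 4) (.nd (nat_lit 5) 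
(.lf (nat_lit 211789) (.g (nat_lit 1388) (.e (nat_lit 81963) (nat_lit 26) (.e (nat_lit 147466) (nat_lit 9) (.e (nat_lit 324) (nat_lit 24) (.e (nat_lit 360488) (nat_lit 20) (.e (nat_lit 769792) (nat_lit 10) .nil))))) (.g (nat_lit 4) .nil .nil))) 
(.lf (nat_lit 211821) (.g (nat_lit 2238) (.e (nat_lit 81963) (nat_lit 26) (.e (nat_lit 147492) (nat_lit 11) (.e (nat_lit 24628) (nat_lit 9) (.e (nat_lit 336000) (nat_lit 1) (.e (nat_lit 57655) (nat_lit 152) (.e (nat_lit 1216) (nat_lit 90) .nil)))))) (.g (nat_lit 6) .nil .nil)))) (.nd (nat_lit 5) 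
(.lf (nat_lit 211805) (.g (nat_lit 1615) (.e (nat_lit 81963) (nat_lit 26) (.e (nat_lit 147467) (nat_lit 9) (.e (nat_lit 324) (nat_lit 24) (.e (nat_lit 360449) (nat_lit 0) (.e (nat_lit 7124) (nat_lit 382) (.e (nat_lit 7936) (nat_lit 90) .nil)))))) (.g (nat_lit 5) .nil .nil))) 
(.lf (nat_lit 211837) (.g (nat_lit 1648) (.e (nat_lit 81963) (nat_lit 26) (.e (nat_lit 147493) (nat_lit 11) (.e (nat_lit 24638) (nat_lit 9) (.e (nat_lit 335986) (nat_lit 1) (.e (nat_lit 57665) (nat_lit 152) (.e (nat_lit 7936) (nat_lit 90) .nil)))))) (.g (nat_lit 4) .nil .nil))))))) (.nd (nat_lit 2) (.nd (nat_lit 3) (.nd (nat_lit 4) (.nd (nat_lit 5) 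
(.lf (nat_lit 211779) (.g (nat_lit 1478) (.e (nat_lit 81963) (nat_lit 26) (.e (nat_lit 147466) (nat_lit 9) (.e (nat_lit 321) (nat_lit 24) (.e (nat_lit 360449) (nat_lit 0) (.e (nat_lit 7119) (nat_lit 382) (.e (nat_lit 7936) (nat_lit 90) .nil)))))) (.g (nat_lit 4) .nil .nil))) 
(.lf (nat_lit 211811) (.g (nat_lit 1768) (.e (nat_lit 81963) (nat_lit 26) (.e (nat_lit 147467) (nat_lit 9) (.e (nat_lit 334) (nat_lit 26) (.e (nat_lit 376857) (nat_lit 21) (.e (nat_lit 57664) (nat_lit 152) (.e (nat_lit 7936) (nat_lit 90) .nil)))))) (.g (nat_lit 4) .nil .nil)))) (.nd (nat_lit 5) 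
(.lf (nat_lit 211795) (.g (nat_lit 1422) (.e (nat_lit 81963) (nat_lit 26) (.e (nat_lit 147467) (nat_lit 9) (.e (nat_lit 314) (nat_lit 23) (.e (nat_lit 352291) (nat_lit 20) .nil)))) .nil)) 
(.lf (nat_lit 211827) (.g (nat_lit 2626) (.e (nat_lit 81963) (nat_lit 26) (.e (nat_lit 147492) (nat_lit 11) (.e (nat_lit 24638) (nat_lit 9) (.e (nat_lit 335988) (nat_lit 1) (.e (nat_lit 57665) (nat_lit 152) (.e (nat_lit 7936) (nat_lit 90) .nil)))))) (.g (nat_lit 5) .nil .nil))))) (.nd (nat_lit 4) (.nd (nat_lit 5) 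
(.lf (nat_lit 211787) (.g (nat_lit 2821) (.e (nat_lit 81963) (nat_lit 26) (.e (nat_lit 147466) (nat_lit 9) (.e (nat_lit 324) (nat_lit 24) (.e (nat_lit 360449) (nat_lit 0) (.e (nat_lit 7125) (nat_lit 382) (.e (nat_lit 1224) (nat_lit 90) .nil)))))) (.g (nat_lit 0) .nil .nil))) 
(.lf (nat_lit 211819) (.g (nat_lit 2110) (.e (nat_lit 81963) (nat_lit 26) (.e (nat_lit 147492) (nat_lit 11) (.e (nat_lit 24627) (nat_lit 9) (.e (nat_lit 335999) (nat_lit 1) (.e (nat_lit 57655) (nat_lit 152) (.e (nat_lit 1216) (nat_lit 90) .nil)))))) (.g (nat_lit 6) .nil .nil)))) (.nd (nat_lit 5) 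
(.lf (nat_lit 211803) (.g (nat_lit 1591) (.e (nat_lit 81963) (nat_lit 26) (.e (nat_lit 147467) (nat_lit 9) (.e (nat_lit 324) (nat_lit 24) (.e (nat_lit 360449) (nat_lit 0) (.e (nat_lit 7119) (nat_lit 382) (.e (nat_lit 7936) (nat_lit 90) .nil)))))) (.g (nat_lit 5) .nil .nil))) 
(.lf (nat_lit 211835) (.g (nat_lit 2803) (.e (nat_lit 81963) (nat_lit 26) (.e (nat_lit 147492) (nat_lit 11) (.e (nat_lit 24665) (nat_lit 14) (.e (nat_lit 401414) (nat_lit 0) (.e (nat_lit 3459) (nat_lit 216) (.e (nat_lit 696064) (nat_lit 18) .nil)))))) (.g (nat_lit 5) .nil .nil)))))) (.nd (nat_lit 3) (.nd (nat_lit 4) (.nd (nat_lit 5) 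
(.lf (nat_lit 211783) (.g (nat_lit 1437) (.e (nat_lit 81963) (nat_lit 26) (.e (nat_lit 147466) (nat_lit 9) (.e (nat_lit 321) (nat_lit 24) (.e (nat_lit 360488) (nat_lit 20) (.e (nat_lit 769792) (nat_lit 10) .nil))))) (.g (nat_lit 4) .nil .nil))) 
(.lf (nat_lit 211815) (.g (nat_lit 1507) (.e (nat_lit 81963) (nat_lit 26) (.e (nat_lit 147467) (nat_lit 9) (.e (nat_lit 334) (nat_lit 26) (.e (nat_lit 376860) (nat_lit 21) (.e (nat_lit 57671) (nat_lit 152) .nil))))) .nil))) (.nd (nat_lit 5) 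
(.lf (nat_lit 211799) (.g (nat_lit 1270) (.e (nat_lit 81963) (nat_lit 26) (.e (nat_lit 147467) (nat_lit 9) (.e (nat_lit 321) (nat_lit 24) (.e (nat_lit 360449) (nat_lit 0) (.e (nat_lit 7119) (nat_lit 382) (.e (nat_lit 7936) (nat_lit 90) .nil)))))) (.g (nat_lit 4) .nil .nil))) 
(.lf (nat_lit 211831) (.g (nat_lit 2369) (.e (nat_lit 81963) (nat_lit 26) (.e (nat_lit 147492) (nat_lit 11) (.e (nat_lit 24664) (nat_lit 14) (.e (nat_lit 401414) (nat_lit 0) (.e (nat_lit 3459) (nat_lit 216) (.e (nat_lit 688183) (nat_lit 18) .nil)))))) (.g (nat_lit 5) .nil .nil))))) (.nd (nat_lit 4) (.nd (nat_lit 5) 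
(.lf (nat_lit 211791) (.g (nat_lit 1438) (.e (nat_lit 81963) (nat_lit 26) (.e (nat_lit 147466) (nat_lit 9) (.e (nat_lit 334) (nat_lit 26) (.e (nat_lit 376859) (nat_lit 21) (.e (nat_lit 57655) (nat_lit 152) .nil))))) .nil)) 
(.lf (nat_lit 211823) (.g (nat_lit 2572) (.e (nat_lit 81963) (nat_lit 26) (.e (nat_lit 147492) (nat_lit 11) (.e (nat_lit 24638) (nat_lit 9) (.e (nat_lit 335986) (nat_lit 1) (.e (nat_lit 57655) (nat_lit 152) (.e (nat_lit 1216) (nat_lit 90) .nil)))))) (.g (nat_lit 6) .nil .nil)))) (.nd (nat_lit 5) 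
(.lf (nat_lit 211807) (.g (nat_lit 1150) (.e (nat_lit 81963) (nat_lit 26) (.e (nat_lit 147467) (nat_lit 9) (.e (nat_lit 324) (nat_lit 24) (.e (nat_lit 360488) (nat_lit 20) (.e (nat_lit 769792) (nat_lit 10) .nil))))) (.g (nat_lit 4) .nil .nil))) 
(.lf (nat_lit 211839) (.g (nat_lit 2594) (.e (nat_lit 81963) (nat_lit 26) (.e (nat_lit 147493) (nat_lit 11) (.e (nat_lit 24638) (nat_lit 9) (.e (nat_lit 335988) (nat_lit 1) (.e (nat_lit 57665) (nat_lit 152) (.e (nat_lit 7936) (nat_lit 90) .nil)))))) (.g (nat_lit 5) .nil .nil)))))))))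

noncomputable def tv2798 : DT := (.nd (nat_lit 0) (.nd (nat_lit 1) (.nd (nat_lit 2) (.nd (nat_lit 3) (.nd (nat_lit 4) (.nd (nat_lit 5) 
(.lf (nat_lit 211840) (.g (nat_lit 3234) (.e (nat_lit 81963) (nat_lit 26) (.e (nat_lit 147493) (nat_lit 11) (.e (nat_lit 24665) (nat_lit 14) (.e (nat_lit 401414) (nat_lit 0) (.e (nat_lit 3459) (nat_lit 216) (.e (nat_lit 696064) (nat_lit 18) .nil)))))) (.g (nat_lit 5) .nil .nil))) 
(.lf (nat_lit 211872) (.g (nat_lit 3027) (.e (nat_lit 81963) (nat_lit 26) (.e (nat_lit 147495) (nat_lit 11) (.e (nat_lit 24638) (nat_lit 9) (.e (nat_lit 335988) (nat_lit 1) (.e (nat_lit 57665) (nat_lit 152) (.e (nat_lit 7936) (nat_lit 90) .nil)))))) (.g (nat_lit 5) .nil .nil)))) (.nd (nat_lit 5) 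
(.lf (nat_lit 211856) (.g (nat_lit 1771) (.e (nat_lit 81963) (nat_lit 26) (.e (nat_lit 147495) (nat_lit 11) (.e (nat_lit 24623) (nat_lit 9) (.e (nat_lit 335903) (nat_lit 0) (.e (nat_lit 2271) (nat_lit 149) .nil))))) .nil)) 
(.lf (nat_lit 211888) (.g (nat_lit 1647) (.e (nat_lit 81963) (nat_lit 26) (.e (nat_lit 147495) (nat_lit 11) (.e (nat_lit 24639) (nat_lit 10) (.e (nat_lit 344096) (nat_lit 18) (.e (nat_lit 7125) (nat_lit 382) (.e (nat_lit 7936) (nat_lit 90) .nil)))))) (.g (nat_lit 4) .nil .nil))))) (.nd (nat_lit 4) (.nd (nat_lit 5) 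
(.lf (nat_lit 211848) (.g (nat_lit 1210) (.e (nat_lit 81963) (nat_lit 26) (.e (nat_lit 147494) (nat_lit 11) (.e (nat_lit 24665) (nat_lit 14) (.e (nat_lit 401421) (nat_lit 1) .nil)))) .nil)) 
(.lf (nat_lit 211880) (.g (nat_lit 1264) (.e (nat_lit 81963) (nat_lit 26) (.e (nat_lit 147495) (nat_lit 11) (.e (nat_lit 24639) (nat_lit 10) (.e (nat_lit 344093) (nat_lit 18) (.e (nat_lit 7168) (nat_lit 382) .nil))))) .nil))) (.nd (nat_lit 5) 
(.lf (nat_lit 211864) (.g (nat_lit 2350) (.e (nat_lit 81963) (nat_lit 26) (.e (nat_lit 147495) (nat_lit 11) (.e (nat_lit 24623) (nat_lit 9) (.e (nat_lit 335997) (nat_lit 1) (.e (nat_lit 57666) (nat_lit 152) (.e (nat_lit 7936) (nat_lit 90) .nil)))))) (.g (nat_lit 4) .nil .nil))) 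
(.lf (nat_lit 211896) (.g (nat_lit 1614) (.e (nat_lit 81963) (nat_lit 26) (.e (nat_lit 147495) (nat_lit 11) (.e (nat_lit 24640) (nat_lit 10) (.e (nat_lit 344087) (nat_lit 18) .nil)))) .nil))))) (.nd (nat_lit 3) (.nd (nat_lit 4) (.nd (nat_lit 5) 
(.lf (nat_lit 211844) (.g (nat_lit 2454) (.e (nat_lit 81963) (nat_lit 26) (.e (nat_lit 147494) (nat_lit 11) (.e (nat_lit 24665) (nat_lit 14) (.e (nat_lit 401413) (nat_lit 0) (.e (nat_lit 3459) (nat_lit 216) (.e (nat_lit 696064) (nat_lit 18) .nil)))))) (.g (nat_lit 5) .nil .nil))) 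
(.lf (nat_lit 211876) (.g (nat_lit 1731) (.e (nat_lit 81963) (nat_lit 26) (.e (nat_lit 147495) (nat_lit 11) (.e (nat_lit 24639) (nat_lit 10) (.e (nat_lit 344090) (nat_lit 18) (.e (nat_lit 7122) (nat_lit 382) (.e (nat_lit 7936) (nat_lit 90) .nil)))))) (.g (nat_lit 4) .nil .nil)))) (.nd (nat_lit 5) 
(.lf (nat_lit 211860) (.g (nat_lit 2684) (.e (nat_lit 81963) (nat_lit 26) (.e (nat_lit 147495) (nat_lit 11) (.e (nat_lit 24623) (nat_lit 9) (.e (nat_lit 335997) (nat_lit 1) (.e (nat_lit 57653) (nat_lit 152) (.e (nat_lit 1217) (nat_lit 90) .nil)))))) (.g (nat_lit 4) .nil .nil))) 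
(.lf (nat_lit 211892) (.g (nat_lit 1115) (.e (nat_lit 81963) (nat_lit 26) (.e (nat_lit 147495) (nat_lit 11) (.e (nat_lit 24639) (nat_lit 10) (.e (nat_lit 344100) (nat_lit 18) .nil)))) .nil)))) (.nd (nat_lit 4) (.nd (nat_lit 5) 
(.lf (nat_lit 211852) (.g (nat_lit 2176) (.e (nat_lit 81963) (nat_lit 26) (.e (nat_lit 147495) (nat_lit 11) (.e (nat_lit 24617) (nat_lit 7) (.e (nat_lit 319504) (nat_lit 10) (.e (nat_lit 7936) (nat_lit 64) .nil))))) .nil)) 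
(.lf (nat_lit 211884) (.g (nat_lit 2046) (.e (nat_lit 81963) (nat_lit 26) (.e (nat_lit 147495) (nat_lit 11) (.e (nat_lit 24639) (nat_lit 10) (.e (nat_lit 344096) (nat_lit 18) (.e (nat_lit 7124) (nat_lit 382) (.e (nat_lit 1222) (nat_lit 90) .nil)))))) (.g (nat_lit 4) .nil .nil)))) (.nd (nat_lit 5) 
(.lf (nat_lit 211868) (.g (nat_lit 1442) (.e (nat_lit 81963) (nat_lit 26) (.e (nat_lit 147495) (nat_lit 11) (.e (nat_lit 24628) (nat_lit 9) (.e (nat_lit 336000) (nat_lit 1) .nil)))) .nil)) 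
(.lf (nat_lit 211900) (.g (nat_lit 2675) (.e (nat_lit 81963) (nat_lit 26) (.e (nat_lit 147495) (nat_lit 11) (.e (nat_lit 24640) (nat_lit 10) (.e (nat_lit 344090) (nat_lit 18) (.e (nat_lit 7119) (nat_lit 382) (.e (nat_lit 7936) (nat_lit 90) .nil)))))) (.g (nat_lit 5) .nil .nil))))))) (.nd (nat_lit 2) (.nd (nat_lit 3) (.nd (nat_lit 4) (.nd (nat_lit 5) 
(.lf (nat_lit 211842) (.g (nat_lit 1876) (.e (nat_lit 81963) (nat_lit 26) (.e (nat_lit 147494) (nat_lit 11) (.e (nat_lit 24638) (nat_lit 9) (.e (nat_lit 335987) (nat_lit 1) (.e (nat_lit 57665) (nat_lit 152) (.e (nat_lit 7936) (nat_lit 90) .nil)))))) (.g (nat_lit 5) .nil .nil))) 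
(.lf (nat_lit 211874) (.g (nat_lit 404) (.e (nat_lit 81963) (nat_lit 26) (.e (nat_lit 147495) (nat_lit 11) (.e (nat_lit 24639) (nat_lit 10) .nil))) .nil))) (.nd (nat_lit 5) 
(.lf (nat_lit 211858) (.g (nat_lit 2152) (.e (nat_lit 81963) (nat_lit 26) (.e (nat_lit 147495) (nat_lit 11) (.e (nat_lit 24623) (nat_lit 9) (.e (nat_lit 335997) (nat_lit 1) (.e (nat_lit 57651) (nat_lit 152) .nil))))) .nil)) 
(.lf (nat_lit 211890) (.g (nat_lit 2584) (.e (nat_lit 81963) (nat_lit 26) (.e (nat_lit 147495) (nat_lit 11) (.e (nat_lit 24639) (nat_lit 10) (.e (nat_lit 344097) (nat_lit 18) (.e (nat_lit 7147) (nat_lit 382) (.e (nat_lit 1216) (nat_lit 90) .nil)))))) (.g (nat_lit 0) .nil .nil))))) (.nd (nat_lit 4) (.nd (nat_lit 5) 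
(.lf (nat_lit 211850) (.g (nat_lit 1556) (.e (nat_lit 81963) (nat_lit 26) (.e (nat_lit 147495) (nat_lit 11) (.e (nat_lit 24584) (nat_lit 0) (.e (nat_lit 6218) (nat_lit 333) (.e (nat_lit 65280) (nat_lit 105) .nil))))) .nil)) 
(.lf (nat_lit 211882) (.g (nat_lit 2212) (.e (nat_lit 81963) (nat_lit 26) (.e (nat_lit 147495) (nat_lit 11) (.e (nat_lit 24639) (nat_lit 10) (.e (nat_lit 344095) (nat_lit 18) (.e (nat_lit 7122) (nat_lit 382) (.e (nat_lit 7936) (nat_lit 90) .nil)))))) (.g (nat_lit 5) .nil .nil)))) (.nd (nat_lit 5) 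
(.lf (nat_lit 211866) (.g (nat_lit 1985) (.e (nat_lit 81963) (nat_lit 26) (.e (nat_lit 147495) (nat_lit 11) (.e (nat_lit 24628) (nat_lit 9) (.e (nat_lit 335878) (nat_lit 0) (.e (nat_lit 2271) (nat_lit 149) (.e (nat_lit 769792) (nat_lit 10) .nil)))))) (.g (nat_lit 4) .nil .nil))) 
(.lf (nat_lit 211898) (.g (nat_lit 2036) (.e (nat_lit 81963) (nat_lit 26) (.e (nat_lit 147495) (nat_lit 11) (.e (nat_lit 24640) (nat_lit 10) (.e (nat_lit 344088) (nat_lit 18) (.e (nat_lit 7119) (nat_lit 382) (.e (nat_lit 7936) (nat_lit 90) .nil)))))) (.g (nat_lit 4) .nil .nil)))))) (.nd (nat_lit 3) (.nd (nat_lit 4) (.nd (nat_lit 5) 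
(.lf (nat_lit 211846) (.g (nat_lit 2870) (.e (nat_lit 81963) (nat_lit 26) (.e (nat_lit 147494) (nat_lit 11) (.e (nat_lit 24665) (nat_lit 14) (.e (nat_lit 401414) (nat_lit 0) (.e (nat_lit 3459) (nat_lit 216) (.e (nat_lit 696064) (nat_lit 18) .nil)))))) (.g (nat_lit 5) .nil .nil))) 
(.lf (nat_lit 211878) (.g (nat_lit 2278) (.e (nat_lit 81963) (nat_lit 26) (.e (nat_lit 147495) (nat_lit 11) (.e (nat_lit 24639) (nat_lit 10) (.e (nat_lit 344090) (nat_lit 18) (.e (nat_lit 7124) (nat_lit 382) (.e (nat_lit 7936) (nat_lit 90) .nil)))))) (.g (nat_lit 5) .nil .nil)))) (.nd (nat_lit 5) 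
(.lf (nat_lit 211862) (.g (nat_lit 2949) (.e (nat_lit 81963) (nat_lit 26) (.e (nat_lit 147495) (nat_lit 11) (.e (nat_lit 24623) (nat_lit 9) (.e (nat_lit 335997) (nat_lit 1) (.e (nat_lit 57660) (nat_lit 152) (.e (nat_lit 7936) (nat_lit 90) .nil)))))) (.g (nat_lit 5) .nil .nil))) 
(.lf (nat_lit 211894) (.g (nat_lit 1107) (.e (nat_lit 81963) (nat_lit 26) (.e (nat_lit 147495) (nat_lit 11) (.e (nat_lit 24639) (nat_lit 10) (.e (nat_lit 344175) (nat_lit 43) .nil)))) .nil)))) (.nd (nat_lit 4) (.nd (nat_lit 5) 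
(.lf (nat_lit 211854) (.g (nat_lit 2194) (.e (nat_lit 81963) (nat_lit 26) (.e (nat_lit 147495) (nat_lit 11) (.e (nat_lit 24617) (nat_lit 7) (.e (nat_lit 319505) (nat_lit 10) (.e (nat_lit 7936) (nat_lit 64) .nil))))) .nil)) 
(.lf (nat_lit 211886) (.g (nat_lit 3532) (.e (nat_lit 81963) (nat_lit 26) (.e (nat_lit 147495) (nat_lit 11) (.e (nat_lit 24639) (nat_lit 10) (.e (nat_lit 344096) (nat_lit 18) (.e (nat_lit 7125) (nat_lit 382) (.e (nat_lit 1222) (nat_lit 90) .nil)))))) (.g (nat_lit 6) .nil .nil)))) (.nd (nat_lit 5) 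
(.lf (nat_lit 211870) (.g (nat_lit 2271) (.e (nat_lit 81963) (nat_lit 26) (.e (nat_lit 147495) (nat_lit 11) (.e (nat_lit 24638) (nat_lit 9) (.e (nat_lit 335986) (nat_lit 1) (.e (nat_lit 57665) (nat_lit 152) (.e (nat_lit 7936) (nat_lit 90) .nil)))))) (.g (nat_lit 4) .nil .nil))) 
(.lf (nat_lit 211902) (.g (nat_lit 2588) (.e (nat_lit 81963) (nat_lit 26) (.e (nat_lit 147495) (nat_lit 11) (.e (nat_lit 24640) (nat_lit 10) (.e (nat_lit 344090) (nat_lit 18) (.e (nat_lit 7124) (nat_lit 382) (.e (nat_lit 7936) (nat_lit 90) .nil)))))) (.g (nat_lit 5) .nil .nil)))))))) (.nd (nat_lit 1) (.nd (nat_lit 2) (.nd (nat_lit 3) (.nd (nat_lit 4) (.nd (nat_lit 5) 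
(.lf (nat_lit 211841) (.g (nat_lit 1995) (.e (nat_lit 81963) (nat_lit 26) (.e (nat_lit 147494) (nat_lit 11) (.e (nat_lit 24638) (nat_lit 9) (.e (nat_lit 335986) (nat_lit 1) (.e (nat_lit 57665) (nat_lit 152) (.e (nat_lit 7936) (nat_lit 90) .nil)))))) (.g (nat_lit 4) .nil .nil))) 
(.lf (nat_lit 211873) (.g (nat_lit 2431) (.e (nat_lit 81963) (nat_lit 26) (.e (nat_lit 147495) (nat_lit 11) (.e (nat_lit 24638) (nat_lit 9) (.e (nat_lit 335996) (nat_lit 1) (.e (nat_lit 57665) (nat_lit 152) (.e (nat_lit 7936) (nat_lit 90) .nil)))))) (.g (nat_lit 4) .nil .nil)))) (.nd (nat_lit 5) 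
(.lf (nat_lit 211857) (.g (nat_lit 2398) (.e (nat_lit 81963) (nat_lit 26) (.e (nat_lit 147495) (nat_lit 11) (.e (nat_lit 24623) (nat_lit 9) (.e (nat_lit 335907) (nat_lit 0) (.e (nat_lit 970) (nat_lit 81) .nil))))) .nil)) 
(.lf (nat_lit 211889) (.g (nat_lit 1815) (.e (nat_lit 81963) (nat_lit 26) (.e (nat_lit 147495) (nat_lit 11) (.e (nat_lit 24639) (nat_lit 10) (.e (nat_lit 344097) (nat_lit 18) (.e (nat_lit 7146) (nat_lit 382) .nil))))) .nil)))) (.nd (nat_lit 4) (.nd (nat_lit 5) 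
(.lf (nat_lit 211849) (.g (nat_lit 1410) (.e (nat_lit 81963) (nat_lit 26) (.e (nat_lit 147494) (nat_lit 11) (.e (nat_lit 24665) (nat_lit 14) (.e (nat_lit 401429) (nat_lit 4) .nil)))) .nil)) 
(.lf (nat_lit 211881) (.g (nat_lit 1889) (.e (nat_lit 81963) (nat_lit 26) (.e (nat_lit 147495) (nat_lit 11) (.e (nat_lit 24639) (nat_lit 10) (.e (nat_lit 344095) (nat_lit 18) (.e (nat_lit 7119) (nat_lit 382) (.e (nat_lit 7936) (nat_lit 90) .nil)))))) (.g (nat_lit 5) .nil .nil)))) (.nd (nat_lit 5) 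
(.lf (nat_lit 211865) (.g (nat_lit 2105) (.e (nat_lit 81963) (nat_lit 26) (.e (nat_lit 147495) (nat_lit 11) (.e (nat_lit 24623) (nat_lit 9) (.e (nat_lit 335997) (nat_lit 1) (.e (nat_lit 65280) (nat_lit 152) .nil))))) .nil)) 
(.lf (nat_lit 211897) (.g (nat_lit 1213) (.e (nat_lit 81963) (nat_lit 26) (.e (nat_lit 147495) (nat_lit 11) (.e (nat_lit 24640) (nat_lit 10) (.e (nat_lit 344088) (nat_lit 18) .nil)))) .nil))))) (.nd (nat_lit 3) (.nd (nat_lit 4) (.nd (nat_lit 5) 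
(.lf (nat_lit 211845) (.g (nat_lit 2845) (.e (nat_lit 81963) (nat_lit 26) (.e (nat_lit 147494) (nat_lit 11) (.e (nat_lit 24665) (nat_lit 14) (.e (nat_lit 401414) (nat_lit 0) (.e (nat_lit 3459) (nat_lit 216) (.e (nat_lit 688183) (nat_lit 18) .nil)))))) (.g (nat_lit 5) .nil .nil))) 
(.lf (nat_lit 211877) (.g (nat_lit 1990) (.e (nat_lit 81963) (nat_lit 26) (.e (nat_lit 147495) (nat_lit 11) (.e (nat_lit 24639) (nat_lit 10) (.e (nat_lit 344090) (nat_lit 18) (.e (nat_lit 7124) (nat_lit 382) (.e (nat_lit 1222) (nat_lit 90) .nil)))))) (.g (nat_lit 4) .nil .nil)))) (.nd (nat_lit 5) 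
(.lf (nat_lit 211861) (.g (nat_lit 3283) (.e (nat_lit 81963) (nat_lit 26) (.e (nat_lit 147495) (nat_lit 11) (.e (nat_lit 24623) (nat_lit 9) (.e (nat_lit 335997) (nat_lit 1) (.e (nat_lit 57655) (nat_lit 152) (.e (nat_lit 1217) (nat_lit 90) .nil)))))) (.g (nat_lit 5) .nil .nil))) 
(.lf (nat_lit 211893) (.g (nat_lit 2106) (.e (nat_lit 81963) (nat_lit 26) (.e (nat_lit 147495) (nat_lit 11) (.e (nat_lit 24639) (nat_lit 10) (.e (nat_lit 344174) (nat_lit 42) (.e (nat_lit 769792) (nat_lit 10) .nil))))) (.g (nat_lit 4) .nil .nil))))) (.nd (nat_lit 4) (.nd (nat_lit 5) 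
(.lf (nat_lit 211853) (.g (nat_lit 3439) (.e (nat_lit 81963) (nat_lit 26) (.e (nat_lit 147495) (nat_lit 11) (.e (nat_lit 24617) (nat_lit 7) (.e (nat_lit 319505) (nat_lit 10) (.e (nat_lit 720) (nat_lit 64) (.e (nat_lit 688184) (nat_lit 18) .nil)))))) (.g (nat_lit 5) .nil .nil))) 
(.lf (nat_lit 211885) (.g (nat_lit 2313) (.e (nat_lit 81963) (nat_lit 26) (.e (nat_lit 147495) (nat_lit 11) (.e (nat_lit 24639) (nat_lit 10) (.e (nat_lit 344096) (nat_lit 18) (.e (nat_lit 7124) (nat_lit 382) (.e (nat_lit 7936) (nat_lit 90) .nil)))))) (.g (nat_lit 5) .nil .nil)))) (.nd (nat_lit 5) 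
(.lf (nat_lit 211869) (.g (nat_lit 1592) (.e (nat_lit 81963) (nat_lit 26) (.e (nat_lit 147495) (nat_lit 11) (.e (nat_lit 24638) (nat_lit 9) (.e (nat_lit 335892) (nat_lit 0) (.e (nat_lit 2271) (nat_lit 149) (.e (nat_lit 769792) (nat_lit 10) .nil)))))) (.g (nat_lit 5) .nil .nil))) 
(.lf (nat_lit 211901) (.g (nat_lit 2144) (.e (nat_lit 81963) (nat_lit 26) (.e (nat_lit 147495) (nat_lit 11) (.e (nat_lit 24640) (nat_lit 10) (.e (nat_lit 344090) (nat_lit 18) (.e (nat_lit 7122) (nat_lit 382) (.e (nat_lit 7936) (nat_lit 90) .nil)))))) (.g (nat_lit 4) .nil .nil))))))) (.nd (nat_lit 2) (.nd (nat_lit 3) (.nd (nat_lit 4) (.nd (nat_lit 5) 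
(.lf (nat_lit 211843) (.g (nat_lit 2675) (.e (nat_lit 81963) (nat_lit 26) (.e (nat_lit 147494) (nat_lit 11) (.e (nat_lit 24638) (nat_lit 9) (.e (nat_lit 335988) (nat_lit 1) (.e (nat_lit 57665) (nat_lit 152) (.e (nat_lit 7936) (nat_lit 90) .nil)))))) (.g (nat_lit 5) .nil .nil))) 
(.lf (nat_lit 211875) (.g (nat_lit 2333) (.e (nat_lit 81963) (nat_lit 26) (.e (nat_lit 147495) (nat_lit 11) (.e (nat_lit 24639) (nat_lit 10) (.e (nat_lit 344090) (nat_lit 18) (.e (nat_lit 7119) (nat_lit 382) (.e (nat_lit 7936) (nat_lit 90) .nil)))))) (.g (nat_lit 5) .nil .nil)))) (.nd (nat_lit 5) 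
(.lf (nat_lit 211859) (.g (nat_lit 2156) (.e (nat_lit 81963) (nat_lit 26) (.e (nat_lit 147495) (nat_lit 11) (.e (nat_lit 24623) (nat_lit 9) (.e (nat_lit 335997) (nat_lit 1) (.e (nat_lit 57653) (nat_lit 152) .nil))))) .nil)) 
(.lf (nat_lit 211891) (.g (nat_lit 2143) (.e (nat_lit 81963) (nat_lit 26) (.e (nat_lit 147495) (nat_lit 11) (.e (nat_lit 24639) (nat_lit 10) (.e (nat_lit 344097) (nat_lit 18) (.e (nat_lit 7160) (nat_lit 382) (.e (nat_lit 1215) (nat_lit 90) .nil)))))) (.g (nat_lit 4) .nil .nil))))) (.nd (nat_lit 4) (.nd (nat_lit 5) 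
(.lf (nat_lit 211851) (.g (nat_lit 2267) (.e (nat_lit 81963) (nat_lit 26) (.e (nat_lit 147495) (nat_lit 11) (.e (nat_lit 24617) (nat_lit 7) (.e (nat_lit 319504) (nat_lit 10) (.e (nat_lit 720) (nat_lit 64) .nil))))) .nil)) 
(.lf (nat_lit 211883) (.g (nat_lit 2092) (.e (nat_lit 81963) (nat_lit 26) (.e (nat_lit 147495) (nat_lit 11) (.e (nat_lit 24639) (nat_lit 10) (.e (nat_lit 344096) (nat_lit 18) (.e (nat_lit 7119) (nat_lit 382) (.e (nat_lit 7936) (nat_lit 90) .nil)))))) (.g (nat_lit 4) .nil .nil)))) (.nd (nat_lit 5) 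
(.lf (nat_lit 211867) (.g (nat_lit 1684) (.e (nat_lit 81963) (nat_lit 26) (.e (nat_lit 147495) (nat_lit 11) (.e (nat_lit 24628) (nat_lit 9) (.e (nat_lit 335999) (nat_lit 1) .nil)))) .nil)) 
(.lf (nat_lit 211899) (.g (nat_lit 1128) (.e (nat_lit 81963) (nat_lit 26) (.e (nat_lit 147495) (nat_lit 11) (.e (nat_lit 24640) (nat_lit 10) (.e (nat_lit 344090) (nat_lit 18) .nil)))) .nil))))) (.nd (nat_lit 3) (.nd (nat_lit 4) (.nd (nat_lit 5) 
(.lf (nat_lit 211847) (.g (nat_lit 1186) (.e (nat_lit 81963) (nat_lit 26) (.e (nat_lit 147494) (nat_lit 11) (.e (nat_lit 24665) (nat_lit 14) (.e (nat_lit 401420) (nat_lit 1) .nil)))) .nil)) 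
(.lf (nat_lit 211879) (.g (nat_lit 3139) (.e (nat_lit 81963) (nat_lit 26) (.e (nat_lit 147495) (nat_lit 11) (.e (nat_lit 24639) (nat_lit 10) (.e (nat_lit 344090) (nat_lit 18) (.e (nat_lit 7125) (nat_lit 382) (.e (nat_lit 1224) (nat_lit 90) .nil)))))) (.g (nat_lit 0) .nil .nil)))) (.nd (nat_lit 5) 
(.lf (nat_lit 211863) (.g (nat_lit 2370) (.e (nat_lit 81963) (nat_lit 26) (.e (nat_lit 147495) (nat_lit 11) (.e (nat_lit 24623) (nat_lit 9) (.e (nat_lit 335997) (nat_lit 1) (.e (nat_lit 57664) (nat_lit 152) (.e (nat_lit 7936) (nat_lit 90) .nil)))))) (.g (nat_lit 4) .nil .nil))) 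
(.lf (nat_lit 211895) (.g (nat_lit 400) (.e (nat_lit 81963) (nat_lit 26) (.e (nat_lit 147495) (nat_lit 11) (.e (nat_lit 24640) (nat_lit 10) .nil))) .nil)))) (.nd (nat_lit 4) (.nd (nat_lit 5) 
(.lf (nat_lit 211855) (.g (nat_lit 475) (.e (nat_lit 81963) (nat_lit 26) (.e (nat_lit 147495) (nat_lit 11) (.e (nat_lit 24622) (nat_lit 8) .nil))) .nil)) 
(.lf (nat_lit 211887) (.g (nat_lit 3353) (.e (nat_lit 81963) (nat_lit 26) (.e (nat_lit 147495) (nat_lit 11) (.e (nat_lit 24639) (nat_lit 10) (.e (nat_lit 344096) (nat_lit 18) (.e (nat_lit 7125) (nat_lit 382) (.e (nat_lit 1224) (nat_lit 90) .nil)))))) (.g (nat_lit 6) .nil .nil)))) (.nd (nat_lit 5) 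
(.lf (nat_lit 211871) (.g (nat_lit 2262) (.e (nat_lit 81963) (nat_lit 26) (.e (nat_lit 147495) (nat_lit 11) (.e (nat_lit 24638) (nat_lit 9) (.e (nat_lit 335987) (nat_lit 1) (.e (nat_lit 57665) (nat_lit 152) (.e (nat_lit 7936) (nat_lit 90) .nil)))))) (.g (nat_lit 5) .nil .nil))) 
(.lf (nat_lit 211903) (.g (nat_lit 3321) (.e (nat_lit 81963) (nat_lit 26) (.e (nat_lit 147495) (nat_lit 11) (.e (nat_lit 24640) (nat_lit 10) (.e (nat_lit 344090) (nat_lit 18) (.e (nat_lit 7125) (nat_lit 382) (.e (nat_lit 1224) (nat_lit 90) .nil)))))) (.g (nat_lit 0) .nil .nil)))))))))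

noncomputable def tv2799 : DT := (.nd (nat_lit 0) (.nd (nat_lit 1) (.nd (nat_lit 2) (.nd (nat_lit 3) (.nd (nat_lit 4) (.nd (nat_lit 5) 
(.lf (nat_lit 211904) (.g (nat_lit 1697) (.e (nat_lit 81963) (nat_lit 26) (.e (nat_lit 147495) (nat_lit 11) (.e (nat_lit 24640) (nat_lit 10) (.e (nat_lit 344090) (nat_lit 18) (.e (nat_lit 7125) (nat_lit 382) (.e (nat_lit 7936) (nat_lit 90) .nil)))))) (.g (nat_lit 4) .nil .nil))) 
(.lf (nat_lit 211936) (.g (nat_lit 2343) (.e (nat_lit 81963) (nat_lit 26) (.e (nat_lit 147495) (nat_lit 11) (.e (nat_lit 24640) (nat_lit 10) (.e (nat_lit 344097) (nat_lit 18) (.e (nat_lit 7160) (nat_lit 382) (.e (nat_lit 7936) (nat_lit 90) .nil)))))) (.g (nat_lit 4) .nil .nil)))) (.nd (nat_lit 5) 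
(.lf (nat_lit 211920) (.g (nat_lit 2164) (.e (nat_lit 81963) (nat_lit 26) (.e (nat_lit 147495) (nat_lit 11) (.e (nat_lit 24640) (nat_lit 10) (.e (nat_lit 344095) (nat_lit 18) (.e (nat_lit 7119) (nat_lit 382) (.e (nat_lit 7936) (nat_lit 90) .nil)))))) (.g (nat_lit 4) .nil .nil))) 
(.lf (nat_lit 211952) (.g (nat_lit 3335) (.e (nat_lit 81963) (nat_lit 26) (.e (nat_lit 147495) (nat_lit 11) (.e (nat_lit 24665) (nat_lit 14) (.e (nat_lit 401414) (nat_lit 0) (.e (nat_lit 3459) (nat_lit 216) (.e (nat_lit 696064) (nat_lit 18) .nil)))))) (.g (nat_lit 5) .nil .nil))))) (.nd (nat_lit 4) (.nd (nat_lit 5) 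
(.lf (nat_lit 211912) (.g (nat_lit 1961) (.e (nat_lit 81963) (nat_lit 26) (.e (nat_lit 147495) (nat_lit 11) (.e (nat_lit 24640) (nat_lit 10) (.e (nat_lit 344091) (nat_lit 18) (.e (nat_lit 7132) (nat_lit 382) .nil))))) .nil)) 
(.lf (nat_lit 211944) (.g (nat_lit 2066) (.e (nat_lit 81963) (nat_lit 26) (.e (nat_lit 147495) (nat_lit 11) (.e (nat_lit 24643) (nat_lit 11) (.e (nat_lit 368662) (nat_lit 18) (.e (nat_lit 7147) (nat_lit 382) (.e (nat_lit 1216) (nat_lit 90) .nil)))))) (.g (nat_lit 6) .nil .nil)))) (.nd (nat_lit 5) 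
(.lf (nat_lit 211928) (.g (nat_lit 2006) (.e (nat_lit 81963) (nat_lit 26) (.e (nat_lit 147495) (nat_lit 11) (.e (nat_lit 24640) (nat_lit 10) (.e (nat_lit 344096) (nat_lit 18) (.e (nat_lit 7125) (nat_lit 382) (.e (nat_lit 7936) (nat_lit 90) .nil)))))) (.g (nat_lit 4) .nil .nil))) 
(.lf (nat_lit 211960) (.g (nat_lit 1798) (.e (nat_lit 81963) (nat_lit 26) (.e (nat_lit 147496) (nat_lit 11) (.e (nat_lit 24584) (nat_lit 0) (.e (nat_lit 6212) (nat_lit 333) (.e (nat_lit 65280) (nat_lit 105) .nil))))) .nil))))) (.nd (nat_lit 3) (.nd (nat_lit 4) (.nd (nat_lit 5) 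
(.lf (nat_lit 211908) (.g (nat_lit 1981) (.e (nat_lit 81963) (nat_lit 26) (.e (nat_lit 147495) (nat_lit 11) (.e (nat_lit 24640) (nat_lit 10) (.e (nat_lit 344091) (nat_lit 18) (.e (nat_lit 7122) (nat_lit 382) .nil))))) .nil)) 
(.lf (nat_lit 211940) (.g (nat_lit 2130) (.e (nat_lit 81963) (nat_lit 26) (.e (nat_lit 147495) (nat_lit 11) (.e (nat_lit 24640) (nat_lit 10) (.e (nat_lit 344174) (nat_lit 42) (.e (nat_lit 769792) (nat_lit 10) .nil))))) (.g (nat_lit 4) .nil .nil)))) (.nd (nat_lit 5) 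
(.lf (nat_lit 211924) (.g (nat_lit 3263) (.e (nat_lit 81963) (nat_lit 26) (.e (nat_lit 147495) (nat_lit 11) (.e (nat_lit 24640) (nat_lit 10) (.e (nat_lit 344096) (nat_lit 18) (.e (nat_lit 7122) (nat_lit 382) (.e (nat_lit 7936) (nat_lit 90) .nil)))))) (.g (nat_lit 5) .nil .nil))) 
(.lf (nat_lit 211956) (.g (nat_lit 1642) (.e (nat_lit 81963) (nat_lit 26) (.e (nat_lit 147495) (nat_lit 11) (.e (nat_lit 24665) (nat_lit 14) (.e (nat_lit 401429) (nat_lit 4) .nil)))) .nil)))) (.nd (nat_lit 4) (.nd (nat_lit 5) 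
(.lf (nat_lit 211916) (.g (nat_lit 2309) (.e (nat_lit 81963) (nat_lit 26) (.e (nat_lit 147495) (nat_lit 11) (.e (nat_lit 24640) (nat_lit 10) (.e (nat_lit 344094) (nat_lit 18) (.e (nat_lit 7119) (nat_lit 382) (.e (nat_lit 7936) (nat_lit 90) .nil)))))) (.g (nat_lit 4) .nil .nil))) 
(.lf (nat_lit 211948) (.g (nat_lit 769) (.e (nat_lit 81963) (nat_lit 26) (.e (nat_lit 147495) (nat_lit 11) (.e (nat_lit 24647) (nat_lit 12) (.e (nat_lit 385047) (nat_lit 21) .nil)))) .nil))) (.nd (nat_lit 5) 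
(.lf (nat_lit 211932) (.g (nat_lit 2185) (.e (nat_lit 81963) (nat_lit 26) (.e (nat_lit 147495) (nat_lit 11) (.e (nat_lit 24640) (nat_lit 10) (.e (nat_lit 344097) (nat_lit 18) (.e (nat_lit 7145) (nat_lit 382) (.e (nat_lit 1217) (nat_lit 90) .nil)))))) (.g (nat_lit 4) .nil .nil))) 
(.lf (nat_lit 211964) (.g (nat_lit 1927) (.e (nat_lit 81963) (nat_lit 26) (.e (nat_lit 147496) (nat_lit 11) (.e (nat_lit 24617) (nat_lit 7) (.e (nat_lit 319490) (nat_lit 0) (.e (nat_lit 59) (nat_lit 0) .nil))))) .nil)))))) (.nd (nat_lit 2) (.nd (nat_lit 3) (.nd (nat_lit 4) (.nd (nat_lit 5) 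
(.lf (nat_lit 211906) (.g (nat_lit 1373) (.e (nat_lit 81963) (nat_lit 26) (.e (nat_lit 147495) (nat_lit 11) (.e (nat_lit 24640) (nat_lit 10) (.e (nat_lit 344091) (nat_lit 18) .nil)))) .nil)) 
(.lf (nat_lit 211938) (.g (nat_lit 1635) (.e (nat_lit 81963) (nat_lit 26) (.e (nat_lit 147495) (nat_lit 11) (.e (nat_lit 24640) (nat_lit 10) (.e (nat_lit 344101) (nat_lit 18) .nil)))) .nil))) (.nd (nat_lit 5) 
(.lf (nat_lit 211922) (.g (nat_lit 2643) (.e (nat_lit 81963) (nat_lit 26) (.e (nat_lit 147495) (nat_lit 11) (.e (nat_lit 24640) (nat_lit 10) (.e (nat_lit 344096) (nat_lit 18) (.e (nat_lit 7119) (nat_lit 382) (.e (nat_lit 7936) (nat_lit 90) .nil)))))) (.g (nat_lit 4) .nil .nil))) 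
(.lf (nat_lit 211954) (.g (nat_lit 1640) (.e (nat_lit 81963) (nat_lit 26) (.e (nat_lit 147495) (nat_lit 11) (.e (nat_lit 24665) (nat_lit 14) (.e (nat_lit 401420) (nat_lit 1) (.e (nat_lit 164156) (nat_lit 152) .nil))))) .nil)))) (.nd (nat_lit 4) (.nd (nat_lit 5) 
(.lf (nat_lit 211914) (.g (nat_lit 2333) (.e (nat_lit 81963) (nat_lit 26) (.e (nat_lit 147495) (nat_lit 11) (.e (nat_lit 24640) (nat_lit 10) (.e (nat_lit 344093) (nat_lit 18) (.e (nat_lit 7168) (nat_lit 382) (.e (nat_lit 7936) (nat_lit 90) .nil)))))) (.g (nat_lit 5) .nil .nil))) 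
(.lf (nat_lit 211946) (.g (nat_lit 1332) (.e (nat_lit 81963) (nat_lit 26) (.e (nat_lit 147495) (nat_lit 11) (.e (nat_lit 24645) (nat_lit 11) (.e (nat_lit 368662) (nat_lit 18) (.e (nat_lit 7147) (nat_lit 382) (.e (nat_lit 1216) (nat_lit 90) .nil)))))) (.g (nat_lit 4) .nil .nil)))) (.nd (nat_lit 5) 
(.lf (nat_lit 211930) (.g (nat_lit 1996) (.e (nat_lit 81963) (nat_lit 26) (.e (nat_lit 147495) (nat_lit 11) (.e (nat_lit 24640) (nat_lit 10) (.e (nat_lit 344097) (nat_lit 18) (.e (nat_lit 7145) (nat_lit 382) .nil))))) .nil)) 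
(.lf (nat_lit 211962) (.g (nat_lit 253) (.e (nat_lit 81963) (nat_lit 26) (.e (nat_lit 147496) (nat_lit 11) (.e (nat_lit 24617) (nat_lit 7) .nil))) .nil))))) (.nd (nat_lit 3) (.nd (nat_lit 4) (.nd (nat_lit 5) 
(.lf (nat_lit 211910) (.g (nat_lit 1899) (.e (nat_lit 81963) (nat_lit 26) (.e (nat_lit 147495) (nat_lit 11) (.e (nat_lit 24640) (nat_lit 10) (.e (nat_lit 344091) (nat_lit 18) (.e (nat_lit 7124) (nat_lit 382) .nil))))) .nil)) 
(.lf (nat_lit 211942) (.g (nat_lit 2488) (.e (nat_lit 81963) (nat_lit 26) (.e (nat_lit 147495) (nat_lit 11) (.e (nat_lit 24640) (nat_lit 10) (.e (nat_lit 344176) (nat_lit 43) (.e (nat_lit 777984) (nat_lit 10) .nil))))) (.g (nat_lit 4) .nil .nil)))) (.nd (nat_lit 5) 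
(.lf (nat_lit 211926) (.g (nat_lit 3864) (.e (nat_lit 81963) (nat_lit 26) (.e (nat_lit 147495) (nat_lit 11) (.e (nat_lit 24640) (nat_lit 10) (.e (nat_lit 344096) (nat_lit 18) (.e (nat_lit 7125) (nat_lit 382) (.e (nat_lit 1222) (nat_lit 90) .nil)))))) (.g (nat_lit 0) .nil .nil))) 
(.lf (nat_lit 211958) (.g (nat_lit 2593) (.e (nat_lit 81963) (nat_lit 26) (.e (nat_lit 147496) (nat_lit 11) (.e (nat_lit 24584) (nat_lit 0) (.e (nat_lit 6113) (nat_lit 332) (.e (nat_lit 2406) (nat_lit 157) (.e (nat_lit 59) (nat_lit 0) (.e (nat_lit 7160) (nat_lit 382) (.e (nat_lit 7936) (nat_lit 90) .nil)))))))) (.g (nat_lit 7) .nil .nil))))) (.nd (nat_lit 4) (.nd (nat_lit 5) 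
(.lf (nat_lit 211918) (.g (nat_lit 1815) (.e (nat_lit 81963) (nat_lit 26) (.e (nat_lit 147495) (nat_lit 11) (.e (nat_lit 24640) (nat_lit 10) (.e (nat_lit 344094) (nat_lit 18) (.e (nat_lit 7124) (nat_lit 382) .nil))))) .nil)) 
(.lf (nat_lit 211950) (.g (nat_lit 3055) (.e (nat_lit 81963) (nat_lit 26) (.e (nat_lit 147495) (nat_lit 11) (.e (nat_lit 24665) (nat_lit 14) (.e (nat_lit 401413) (nat_lit 0) (.e (nat_lit 3459) (nat_lit 216) (.e (nat_lit 696064) (nat_lit 18) .nil)))))) (.g (nat_lit 5) .nil .nil)))) (.nd (nat_lit 5) 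
(.lf (nat_lit 211934) (.g (nat_lit 2989) (.e (nat_lit 81963) (nat_lit 26) (.e (nat_lit 147495) (nat_lit 11) (.e (nat_lit 24640) (nat_lit 10) (.e (nat_lit 344097) (nat_lit 18) (.e (nat_lit 7147) (nat_lit 382) (.e (nat_lit 1216) (nat_lit 90) .nil)))))) (.g (nat_lit 0) .nil .nil))) 
(.lf (nat_lit 211966) (.g (nat_lit 1668) (.e (nat_lit 81963) (nat_lit 26) (.e (nat_lit 147496) (nat_lit 11) (.e (nat_lit 24617) (nat_lit 7) (.e (nat_lit 319490) (nat_lit 0) (.e (nat_lit 7936) (nat_lit 73) (.e (nat_lit 769792) (nat_lit 10) .nil)))))) (.g (nat_lit 4) .nil .nil)))))))) (.nd (nat_lit 1) (.nd (nat_lit 2) (.nd (nat_lit 3) (.nd (nat_lit 4) (.nd (nat_lit 5) 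
(.lf (nat_lit 211905) (.g (nat_lit 1687) (.e (nat_lit 81963) (nat_lit 26) (.e (nat_lit 147495) (nat_lit 11) (.e (nat_lit 24640) (nat_lit 10) (.e (nat_lit 344090) (nat_lit 18) (.e (nat_lit 7132) (nat_lit 382) .nil))))) .nil)) 
(.lf (nat_lit 211937) (.g (nat_lit 2062) (.e (nat_lit 81963) (nat_lit 26) (.e (nat_lit 147495) (nat_lit 11) (.e (nat_lit 24640) (nat_lit 10) (.e (nat_lit 344097) (nat_lit 18) (.e (nat_lit 7194) (nat_lit 382) .nil))))) .nil))) (.nd (nat_lit 5) 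
(.lf (nat_lit 211921) (.g (nat_lit 2485) (.e (nat_lit 81963) (nat_lit 26) (.e (nat_lit 147495) (nat_lit 11) (.e (nat_lit 24640) (nat_lit 10) (.e (nat_lit 344095) (nat_lit 18) (.e (nat_lit 7122) (nat_lit 382) (.e (nat_lit 7936) (nat_lit 90) .nil)))))) (.g (nat_lit 5) .nil .nil))) 
(.lf (nat_lit 211953) (.g (nat_lit 1321) (.e (nat_lit 81963) (nat_lit 26) (.e (nat_lit 147495) (nat_lit 11) (.e (nat_lit 24665) (nat_lit 14) (.e (nat_lit 401420) (nat_lit 1) .nil)))) .nil)))) (.nd (nat_lit 4) (.nd (nat_lit 5) 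
(.lf (nat_lit 211913) (.g (nat_lit 1629) (.e (nat_lit 81963) (nat_lit 26) (.e (nat_lit 147495) (nat_lit 11) (.e (nat_lit 24640) (nat_lit 10) (.e (nat_lit 344093) (nat_lit 18) .nil)))) .nil)) 
(.lf (nat_lit 211945) (.g (nat_lit 2562) (.e (nat_lit 81963) (nat_lit 26) (.e (nat_lit 147495) (nat_lit 11) (.e (nat_lit 24644) (nat_lit 11) (.e (nat_lit 368662) (nat_lit 18) (.e (nat_lit 7147) (nat_lit 382) (.e (nat_lit 1217) (nat_lit 90) .nil)))))) (.g (nat_lit 6) .nil .nil)))) (.nd (nat_lit 5) 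
(.lf (nat_lit 211929) (.g (nat_lit 2137) (.e (nat_lit 81963) (nat_lit 26) (.e (nat_lit 147495) (nat_lit 11) (.e (nat_lit 24640) (nat_lit 10) (.e (nat_lit 344096) (nat_lit 18) (.e (nat_lit 7132) (nat_lit 382) .nil))))) .nil)) 
(.lf (nat_lit 211961) (.g (nat_lit 2659) (.e (nat_lit 81963) (nat_lit 26) (.e (nat_lit 147496) (nat_lit 11) (.e (nat_lit 24584) (nat_lit 0) (.e (nat_lit 6218) (nat_lit 333) (.e (nat_lit 65280) (nat_lit 105) (.e (nat_lit 688184) (nat_lit 18) .nil)))))) (.g (nat_lit 4) .nil .nil)))))) (.nd (nat_lit 3) (.nd (nat_lit 4) (.nd (nat_lit 5) 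
(.lf (nat_lit 211909) (.g (nat_lit 2407) (.e (nat_lit 81963) (nat_lit 26) (.e (nat_lit 147495) (nat_lit 11) (.e (nat_lit 24640) (nat_lit 10) (.e (nat_lit 344091) (nat_lit 18) (.e (nat_lit 7122) (nat_lit 382) (.e (nat_lit 1222) (nat_lit 90) .nil)))))) (.g (nat_lit 4) .nil .nil))) 
(.lf (nat_lit 211941) (.g (nat_lit 3173) (.e (nat_lit 81963) (nat_lit 26) (.e (nat_lit 147495) (nat_lit 11) (.e (nat_lit 24640) (nat_lit 10) (.e (nat_lit 344176) (nat_lit 43) (.e (nat_lit 770074) (nat_lit 10) .nil))))) (.g (nat_lit 5) .nil .nil)))) (.nd (nat_lit 5) 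
(.lf (nat_lit 211925) (.g (nat_lit 2998) (.e (nat_lit 81963) (nat_lit 26) (.e (nat_lit 147495) (nat_lit 11) (.e (nat_lit 24640) (nat_lit 10) (.e (nat_lit 344096) (nat_lit 18) (.e (nat_lit 7124) (nat_lit 382) (.e (nat_lit 7936) (nat_lit 90) .nil)))))) (.g (nat_lit 5) .nil .nil))) 
(.lf (nat_lit 211957) (.g (nat_lit 1078) (.e (nat_lit 81963) (nat_lit 26) (.e (nat_lit 147496) (nat_lit 11) (.e (nat_lit 24584) (nat_lit 0) (.e (nat_lit 6113) (nat_lit 332) .nil)))) .nil)))) (.nd (nat_lit 4) (.nd (nat_lit 5) 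
(.lf (nat_lit 211917) (.g (nat_lit 2209) (.e (nat_lit 81963) (nat_lit 26) (.e (nat_lit 147495) (nat_lit 11) (.e (nat_lit 24640) (nat_lit 10) (.e (nat_lit 344094) (nat_lit 18) (.e (nat_lit 7122) (nat_lit 382) (.e (nat_lit 7936) (nat_lit 90) .nil)))))) (.g (nat_lit 4) .nil .nil))) 
(.lf (nat_lit 211949) (.g (nat_lit 2749) (.e (nat_lit 81963) (nat_lit 26) (.e (nat_lit 147495) (nat_lit 11) (.e (nat_lit 24665) (nat_lit 14) (.e (nat_lit 401413) (nat_lit 0) (.e (nat_lit 3459) (nat_lit 216) (.e (nat_lit 688183) (nat_lit 18) .nil)))))) (.g (nat_lit 5) .nil .nil)))) (.nd (nat_lit 5) 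
(.lf (nat_lit 211933) (.g (nat_lit 2625) (.e (nat_lit 81963) (nat_lit 26) (.e (nat_lit 147495) (nat_lit 11) (.e (nat_lit 24640) (nat_lit 10) (.e (nat_lit 344097) (nat_lit 18) (.e (nat_lit 7146) (nat_lit 382) (.e (nat_lit 7936) (nat_lit 90) .nil)))))) (.g (nat_lit 5) .nil .nil))) 
(.lf (nat_lit 211965) (.g (nat_lit 2495) (.e (nat_lit 81963) (nat_lit 26) (.e (nat_lit 147496) (nat_lit 11) (.e (nat_lit 24617) (nat_lit 7) (.e (nat_lit 319490) (nat_lit 0) (.e (nat_lit 75) (nat_lit 0) (.e (nat_lit 7158) (nat_lit 382) (.e (nat_lit 7936) (nat_lit 90) .nil))))))) (.g (nat_lit 5) .nil .nil))))))) (.nd (nat_lit 2) (.nd (nat_lit 3) (.nd (nat_lit 4) (.nd (nat_lit 5) 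
(.lf (nat_lit 211907) (.g (nat_lit 2212) (.e (nat_lit 81963) (nat_lit 26) (.e (nat_lit 147495) (nat_lit 11) (.e (nat_lit 24640) (nat_lit 10) (.e (nat_lit 344091) (nat_lit 18) (.e (nat_lit 7119) (nat_lit 382) (.e (nat_lit 7936) (nat_lit 90) .nil)))))) (.g (nat_lit 4) .nil .nil))) 
(.lf (nat_lit 211939) (.g (nat_lit 2052) (.e (nat_lit 81963) (nat_lit 26) (.e (nat_lit 147495) (nat_lit 11) (.e (nat_lit 24640) (nat_lit 10) (.e (nat_lit 344173) (nat_lit 42) (.e (nat_lit 769792) (nat_lit 10) .nil))))) (.g (nat_lit 4) .nil .nil)))) (.nd (nat_lit 5) 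
(.lf (nat_lit 211923) (.g (nat_lit 2199) (.e (nat_lit 81963) (nat_lit 26) (.e (nat_lit 147495) (nat_lit 11) (.e (nat_lit 24640) (nat_lit 10) (.e (nat_lit 344096) (nat_lit 18) (.e (nat_lit 7122) (nat_lit 382) (.e (nat_lit 1224) (nat_lit 90) .nil)))))) (.g (nat_lit 4) .nil .nil))) 
(.lf (nat_lit 211955) (.g (nat_lit 1585) (.e (nat_lit 81963) (nat_lit 26) (.e (nat_lit 147495) (nat_lit 11) (.e (nat_lit 24665) (nat_lit 14) (.e (nat_lit 401421) (nat_lit 1) .nil)))) .nil)))) (.nd (nat_lit 4) (.nd (nat_lit 5) 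
(.lf (nat_lit 211915) (.g (nat_lit 1485) (.e (nat_lit 81963) (nat_lit 26) (.e (nat_lit 147495) (nat_lit 11) (.e (nat_lit 24640) (nat_lit 10) (.e (nat_lit 344094) (nat_lit 18) .nil)))) .nil)) 
(.lf (nat_lit 211947) (.g (nat_lit 1606) (.e (nat_lit 81963) (nat_lit 26) (.e (nat_lit 147495) (nat_lit 11) (.e (nat_lit 24645) (nat_lit 11) (.e (nat_lit 368662) (nat_lit 18) (.e (nat_lit 7147) (nat_lit 382) (.e (nat_lit 1217) (nat_lit 90) .nil)))))) (.g (nat_lit 4) .nil .nil)))) (.nd (nat_lit 5) 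
(.lf (nat_lit 211931) (.g (nat_lit 2133) (.e (nat_lit 81963) (nat_lit 26) (.e (nat_lit 147495) (nat_lit 11) (.e (nat_lit 24640) (nat_lit 10) (.e (nat_lit 344097) (nat_lit 18) (.e (nat_lit 7145) (nat_lit 382) (.e (nat_lit 1216) (nat_lit 90) .nil)))))) (.g (nat_lit 4) .nil .nil))) 
(.lf (nat_lit 211963) (.g (nat_lit 2267) (.e (nat_lit 81963) (nat_lit 26) (.e (nat_lit 147496) (nat_lit 11) (.e (nat_lit 24617) (nat_lit 7) (.e (nat_lit 319488) (nat_lit 0) .nil)))) .nil))))) (.nd (nat_lit 3) (.nd (nat_lit 4) (.nd (nat_lit 5) 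
(.lf (nat_lit 211911) (.g (nat_lit 2144) (.e (nat_lit 81963) (nat_lit 26) (.e (nat_lit 147495) (nat_lit 11) (.e (nat_lit 24640) (nat_lit 10) (.e (nat_lit 344091) (nat_lit 18) (.e (nat_lit 7124) (nat_lit 382) (.e (nat_lit 7936) (nat_lit 90) .nil)))))) (.g (nat_lit 4) .nil .nil))) 
(.lf (nat_lit 211943) (.g (nat_lit 452) (.e (nat_lit 81963) (nat_lit 26) (.e (nat_lit 147495) (nat_lit 11) (.e (nat_lit 24641) (nat_lit 10) .nil))) .nil))) (.nd (nat_lit 5) 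
(.lf (nat_lit 211927) (.g (nat_lit 3695) (.e (nat_lit 81963) (nat_lit 26) (.e (nat_lit 147495) (nat_lit 11) (.e (nat_lit 24640) (nat_lit 10) (.e (nat_lit 344096) (nat_lit 18) (.e (nat_lit 7125) (nat_lit 382) (.e (nat_lit 1224) (nat_lit 90) .nil)))))) (.g (nat_lit 6) .nil .nil))) 
(.lf (nat_lit 211959) (.g (nat_lit 2316) (.e (nat_lit 81963) (nat_lit 26) (.e (nat_lit 147496) (nat_lit 11) (.e (nat_lit 24584) (nat_lit 0) (.e (nat_lit 6113) (nat_lit 332) (.e (nat_lit 2507) (nat_lit 157) (.e (nat_lit 59) (nat_lit 0) (.e (nat_lit 7160) (nat_lit 382) (.e (nat_lit 7936) (nat_lit 90) .nil)))))))) (.g (nat_lit 5) .nil .nil))))) (.nd (nat_lit 4) (.nd (nat_lit 5) 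
(.lf (nat_lit 211919) (.g (nat_lit 2111) (.e (nat_lit 81963) (nat_lit 26) (.e (nat_lit 147495) (nat_lit 11) (.e (nat_lit 24640) (nat_lit 10) (.e (nat_lit 344094) (nat_lit 18) (.e (nat_lit 7124) (nat_lit 382) (.e (nat_lit 7936) (nat_lit 90) .nil)))))) (.g (nat_lit 4) .nil .nil))) 
(.lf (nat_lit 211951) (.g (nat_lit 3195) (.e (nat_lit 81963) (nat_lit 26) (.e (nat_lit 147495) (nat_lit 11) (.e (nat_lit 24665) (nat_lit 14) (.e (nat_lit 401414) (nat_lit 0) (.e (nat_lit 3459) (nat_lit 216) (.e (nat_lit 688183) (nat_lit 18) .nil)))))) (.g (nat_lit 5) .nil .nil)))) (.nd (nat_lit 5) 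
(.lf (nat_lit 211935) (.g (nat_lit 2934) (.e (nat_lit 81963) (nat_lit 26) (.e (nat_lit 147495) (nat_lit 11) (.e (nat_lit 24640) (nat_lit 10) (.e (nat_lit 344097) (nat_lit 18) (.e (nat_lit 7160) (nat_lit 382) (.e (nat_lit 1215) (nat_lit 90) .nil)))))) (.g (nat_lit 6) .nil .nil))) 
(.lf (nat_lit 211967) (.g (nat_lit 1503) (.e (nat_lit 81963) (nat_lit 26) (.e (nat_lit 147496) (nat_lit 11) (.e (nat_lit 24617) (nat_lit 7) (.e (nat_lit 319490) (nat_lit 0) (.e (nat_lit 7936) (nat_lit 74) .nil))))) .nil))))))))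

noncomputable def tv2800 : DT := (.nd (nat_lit 0) (.nd (nat_lit 1) (.nd (nat_lit 2) (.nd (nat_lit 3) (.nd (nat_lit 4) (.nd (nat_lit 5) 
(.lf (nat_lit 211968) (.g (nat_lit 1501) (.e (nat_lit 81963) (nat_lit 26) (.e (nat_lit 147496) (nat_lit 11) (.e (nat_lit 24617) (nat_lit 7) (.e (nat_lit 319494) (nat_lit 0) .nil)))) .nil)) 
(.lf (nat_lit 212000) (.g (nat_lit 2235) (.e (nat_lit 81963) (nat_lit 26) (.e (nat_lit 147496) (nat_lit 11) (.e (nat_lit 24639) (nat_lit 10) (.e (nat_lit 344090) (nat_lit 18) (.e (nat_lit 7119) (nat_lit 382) (.e (nat_lit 7936) (nat_lit 90) .nil)))))) (.g (nat_lit 5) .nil .nil)))) (.nd (nat_lit 5) 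
(.lf (nat_lit 211984) (.g (nat_lit 1780) (.e (nat_lit 81963) (nat_lit 26) (.e (nat_lit 147496) (nat_lit 11) (.e (nat_lit 24628) (nat_lit 9) (.e (nat_lit 335878) (nat_lit 0) (.e (nat_lit 2271) (nat_lit 149) (.e (nat_lit 769792) (nat_lit 10) .nil)))))) (.g (nat_lit 4) .nil .nil))) 
(.lf (nat_lit 212016) (.g (nat_lit 2194) (.e (nat_lit 81963) (nat_lit 26) (.e (nat_lit 147496) (nat_lit 11) (.e (nat_lit 24639) (nat_lit 10) (.e (nat_lit 344097) (nat_lit 18) (.e (nat_lit 7160) (nat_lit 382) (.e (nat_lit 1215) (nat_lit 90) .nil)))))) (.g (nat_lit 4) .nil .nil))))) (.nd (nat_lit 4) (.nd (nat_lit 5) 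
(.lf (nat_lit 211976) (.g (nat_lit 1428) (.e (nat_lit 81963) (nat_lit 26) (.e (nat_lit 147496) (nat_lit 11) (.e (nat_lit 24617) (nat_lit 7) (.e (nat_lit 319513) (nat_lit 10) (.e (nat_lit 7936) (nat_lit 64) .nil))))) .nil)) 
(.lf (nat_lit 212008) (.g (nat_lit 2046) (.e (nat_lit 81963) (nat_lit 26) (.e (nat_lit 147496) (nat_lit 11) (.e (nat_lit 24639) (nat_lit 10) (.e (nat_lit 344096) (nat_lit 18) (.e (nat_lit 7119) (nat_lit 382) (.e (nat_lit 7936) (nat_lit 90) .nil)))))) (.g (nat_lit 4) .nil .nil)))) (.nd (nat_lit 5) 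
(.lf (nat_lit 211992) (.g (nat_lit 1686) (.e (nat_lit 81963) (nat_lit 26) (.e (nat_lit 147496) (nat_lit 11) (.e (nat_lit 24638) (nat_lit 9) (.e (nat_lit 335892) (nat_lit 0) (.e (nat_lit 2271) (nat_lit 149) .nil))))) .nil)) 
(.lf (nat_lit 212024) (.g (nat_lit 3307) (.e (nat_lit 81963) (nat_lit 26) (.e (nat_lit 147496) (nat_lit 11) (.e (nat_lit 24640) (nat_lit 10) (.e (nat_lit 344090) (nat_lit 18) (.e (nat_lit 7125) (nat_lit 382) (.e (nat_lit 1224) (nat_lit 90) .nil)))))) (.g (nat_lit 0) .nil .nil)))))) (.nd (nat_lit 3) (.nd (nat_lit 4) (.nd (nat_lit 5) 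
(.lf (nat_lit 211972) (.g (nat_lit 3600) (.e (nat_lit 81963) (nat_lit 26) (.e (nat_lit 147496) (nat_lit 11) (.e (nat_lit 24617) (nat_lit 7) (.e (nat_lit 319504) (nat_lit 10) (.e (nat_lit 720) (nat_lit 64) (.e (nat_lit 688184) (nat_lit 18) .nil)))))) (.g (nat_lit 5) .nil .nil))) 
(.lf (nat_lit 212004) (.g (nat_lit 3051) (.e (nat_lit 81963) (nat_lit 26) (.e (nat_lit 147496) (nat_lit 11) (.e (nat_lit 24639) (nat_lit 10) (.e (nat_lit 344090) (nat_lit 18) (.e (nat_lit 7125) (nat_lit 382) (.e (nat_lit 1224) (nat_lit 90) .nil)))))) (.g (nat_lit 0) .nil .nil)))) (.nd (nat_lit 5) 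
(.lf (nat_lit 211988) (.g (nat_lit 1052) (.e (nat_lit 81963) (nat_lit 26) (.e (nat_lit 147496) (nat_lit 11) (.e (nat_lit 24632) (nat_lit 9) (.e (nat_lit 335997) (nat_lit 1) .nil)))) .nil)) 
(.lf (nat_lit 212020) (.g (nat_lit 1941) (.e (nat_lit 81963) (nat_lit 26) (.e (nat_lit 147496) (nat_lit 11) (.e (nat_lit 24640) (nat_lit 10) (.e (nat_lit 344088) (nat_lit 18) (.e (nat_lit 7119) (nat_lit 382) (.e (nat_lit 7936) (nat_lit 90) .nil)))))) (.g (nat_lit 4) .nil .nil))))) (.nd (nat_lit 4) (.nd (nat_lit 5) 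
(.lf (nat_lit 211980) (.g (nat_lit 2476) (.e (nat_lit 81963) (nat_lit 26) (.e (nat_lit 147496) (nat_lit 11) (.e (nat_lit 24623) (nat_lit 9) (.e (nat_lit 335997) (nat_lit 1) (.e (nat_lit 57655) (nat_lit 152) (.e (nat_lit 1217) (nat_lit 90) .nil)))))) (.g (nat_lit 4) .nil .nil))) 
(.lf (nat_lit 212012) (.g (nat_lit 3315) (.e (nat_lit 81963) (nat_lit 26) (.e (nat_lit 147496) (nat_lit 11) (.e (nat_lit 24639) (nat_lit 10) (.e (nat_lit 344096) (nat_lit 18) (.e (nat_lit 7125) (nat_lit 382) (.e (nat_lit 1224) (nat_lit 90) .nil)))))) (.g (nat_lit 6) .nil .nil)))) (.nd (nat_lit 5) 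
(.lf (nat_lit 211996) (.g (nat_lit 1997) (.e (nat_lit 81963) (nat_lit 26) (.e (nat_lit 147496) (nat_lit 11) (.e (nat_lit 24638) (nat_lit 9) (.e (nat_lit 335988) (nat_lit 1) (.e (nat_lit 57664) (nat_lit 152) .nil))))) .nil)) 
(.lf (nat_lit 212028) (.g (nat_lit 2300) (.e (nat_lit 81963) (nat_lit 26) (.e (nat_lit 147496) (nat_lit 11) (.e (nat_lit 24640) (nat_lit 10) (.e (nat_lit 344091) (nat_lit 18) (.e (nat_lit 7122) (nat_lit 382) (.e (nat_lit 1222) (nat_lit 90) .nil)))))) (.g (nat_lit 4) .nil .nil))))))) (.nd (nat_lit 2) (.nd (nat_lit 3) (.nd (nat_lit 4) (.nd (nat_lit 5) 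
(.lf (nat_lit 211970) (.g (nat_lit 1998) (.e (nat_lit 81963) (nat_lit 26) (.e (nat_lit 147496) (nat_lit 11) (.e (nat_lit 24617) (nat_lit 7) (.e (nat_lit 319502) (nat_lit 10) .nil)))) .nil)) 
(.lf (nat_lit 212002) (.g (nat_lit 1894) (.e (nat_lit 81963) (nat_lit 26) (.e (nat_lit 147496) (nat_lit 11) (.e (nat_lit 24639) (nat_lit 10) (.e (nat_lit 344090) (nat_lit 18) (.e (nat_lit 7124) (nat_lit 382) (.e (nat_lit 1222) (nat_lit 90) .nil)))))) (.g (nat_lit 4) .nil .nil)))) (.nd (nat_lit 5) 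
(.lf (nat_lit 211986) (.g (nat_lit 1205) (.e (nat_lit 81963) (nat_lit 26) (.e (nat_lit 147496) (nat_lit 11) (.e (nat_lit 24631) (nat_lit 9) (.e (nat_lit 335928) (nat_lit 0) .nil)))) .nil)) 
(.lf (nat_lit 212018) (.g (nat_lit 2015) (.e (nat_lit 81963) (nat_lit 26) (.e (nat_lit 147496) (nat_lit 11) (.e (nat_lit 24639) (nat_lit 10) (.e (nat_lit 344174) (nat_lit 42) (.e (nat_lit 769792) (nat_lit 10) .nil))))) (.g (nat_lit 4) .nil .nil))))) (.nd (nat_lit 4) (.nd (nat_lit 5) 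
(.lf (nat_lit 211978) (.g (nat_lit 1082) (.e (nat_lit 81963) (nat_lit 26) (.e (nat_lit 147496) (nat_lit 11) (.e (nat_lit 24623) (nat_lit 9) (.e (nat_lit 335997) (nat_lit 1) .nil)))) .nil)) 
(.lf (nat_lit 212010) (.g (nat_lit 2002) (.e (nat_lit 81963) (nat_lit 26) (.e (nat_lit 147496) (nat_lit 11) (.e (nat_lit 24639) (nat_lit 10) (.e (nat_lit 344096) (nat_lit 18) (.e (nat_lit 7124) (nat_lit 382) (.e (nat_lit 1222) (nat_lit 90) .nil)))))) (.g (nat_lit 4) .nil .nil)))) (.nd (nat_lit 5) 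
(.lf (nat_lit 211994) (.g (nat_lit 2223) (.e (nat_lit 81963) (nat_lit 26) (.e (nat_lit 147496) (nat_lit 11) (.e (nat_lit 24638) (nat_lit 9) (.e (nat_lit 335986) (nat_lit 1) (.e (nat_lit 57665) (nat_lit 152) (.e (nat_lit 7936) (nat_lit 90) .nil)))))) (.g (nat_lit 4) .nil .nil))) 
(.lf (nat_lit 212026) (.g (nat_lit 1588) (.e (nat_lit 81963) (nat_lit 26) (.e (nat_lit 147496) (nat_lit 11) (.e (nat_lit 24640) (nat_lit 10) (.e (nat_lit 344090) (nat_lit 18) (.e (nat_lit 7132) (nat_lit 382) .nil))))) .nil))))) (.nd (nat_lit 3) (.nd (nat_lit 4) (.nd (nat_lit 5) 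
(.lf (nat_lit 211974) (.g (nat_lit 2488) (.e (nat_lit 81963) (nat_lit 26) (.e (nat_lit 147496) (nat_lit 11) (.e (nat_lit 24617) (nat_lit 7) (.e (nat_lit 319505) (nat_lit 10) (.e (nat_lit 720) (nat_lit 64) .nil))))) .nil)) 
(.lf (nat_lit 212006) (.g (nat_lit 1901) (.e (nat_lit 81963) (nat_lit 26) (.e (nat_lit 147496) (nat_lit 11) (.e (nat_lit 24639) (nat_lit 10) (.e (nat_lit 344095) (nat_lit 18) (.e (nat_lit 7119) (nat_lit 382) (.e (nat_lit 7936) (nat_lit 90) .nil)))))) (.g (nat_lit 5) .nil .nil)))) (.nd (nat_lit 5) 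
(.lf (nat_lit 211990) (.g (nat_lit 2175) (.e (nat_lit 81963) (nat_lit 26) (.e (nat_lit 147496) (nat_lit 11) (.e (nat_lit 24637) (nat_lit 9) (.e (nat_lit 335988) (nat_lit 1) (.e (nat_lit 57665) (nat_lit 152) (.e (nat_lit 7936) (nat_lit 90) .nil)))))) (.g (nat_lit 4) .nil .nil))) 
(.lf (nat_lit 212022) (.g (nat_lit 2136) (.e (nat_lit 81963) (nat_lit 26) (.e (nat_lit 147496) (nat_lit 11) (.e (nat_lit 24640) (nat_lit 10) (.e (nat_lit 344090) (nat_lit 18) (.e (nat_lit 7122) (nat_lit 382) (.e (nat_lit 7936) (nat_lit 90) .nil)))))) (.g (nat_lit 4) .nil .nil))))) (.nd (nat_lit 4) (.nd (nat_lit 5) 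
(.lf (nat_lit 211982) (.g (nat_lit 2133) (.e (nat_lit 81963) (nat_lit 26) (.e (nat_lit 147496) (nat_lit 11) (.e (nat_lit 24623) (nat_lit 9) (.e (nat_lit 335997) (nat_lit 1) (.e (nat_lit 57660) (nat_lit 152) (.e (nat_lit 7936) (nat_lit 90) .nil)))))) (.g (nat_lit 4) .nil .nil))) 
(.lf (nat_lit 212014) (.g (nat_lit 1639) (.e (nat_lit 81963) (nat_lit 26) (.e (nat_lit 147496) (nat_lit 11) (.e (nat_lit 24639) (nat_lit 10) (.e (nat_lit 344097) (nat_lit 18) (.e (nat_lit 7146) (nat_lit 382) .nil))))) .nil))) (.nd (nat_lit 5) 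
(.lf (nat_lit 211998) (.g (nat_lit 2401) (.e (nat_lit 81963) (nat_lit 26) (.e (nat_lit 147496) (nat_lit 11) (.e (nat_lit 24638) (nat_lit 9) (.e (nat_lit 335996) (nat_lit 1) (.e (nat_lit 57665) (nat_lit 152) .nil))))) .nil)) 
(.lf (nat_lit 212030) (.g (nat_lit 2086) (.e (nat_lit 81963) (nat_lit 26) (.e (nat_lit 147496) (nat_lit 11) (.e (nat_lit 24640) (nat_lit 10) (.e (nat_lit 344091) (nat_lit 18) (.e (nat_lit 7124) (nat_lit 382) (.e (nat_lit 7936) (nat_lit 90) .nil)))))) (.g (nat_lit 4) .nil .nil)))))))) (.nd (nat_lit 1) (.nd (nat_lit 2) (.nd (nat_lit 3) (.nd (nat_lit 4) (.nd (nat_lit 5) 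
(.lf (nat_lit 211969) (.g (nat_lit 3264) (.e (nat_lit 81963) (nat_lit 26) (.e (nat_lit 147496) (nat_lit 11) (.e (nat_lit 24617) (nat_lit 7) (.e (nat_lit 319500) (nat_lit 10) (.e (nat_lit 720) (nat_lit 64) (.e (nat_lit 688184) (nat_lit 18) .nil)))))) (.g (nat_lit 5) .nil .nil))) 
(.lf (nat_lit 212001) (.g (nat_lit 1633) (.e (nat_lit 81963) (nat_lit 26) (.e (nat_lit 147496) (nat_lit 11) (.e (nat_lit 24639) (nat_lit 10) (.e (nat_lit 344090) (nat_lit 18) (.e (nat_lit 7122) (nat_lit 382) (.e (nat_lit 7936) (nat_lit 90) .nil)))))) (.g (nat_lit 4) .nil .nil)))) (.nd (nat_lit 5) 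
(.lf (nat_lit 211985) (.g (nat_lit 467) (.e (nat_lit 81963) (nat_lit 26) (.e (nat_lit 147496) (nat_lit 11) (.e (nat_lit 24631) (nat_lit 9) .nil))) .nil)) 
(.lf (nat_lit 212017) (.g (nat_lit 929) (.e (nat_lit 81963) (nat_lit 26) (.e (nat_lit 147496) (nat_lit 11) (.e (nat_lit 24639) (nat_lit 10) (.e (nat_lit 344100) (nat_lit 18) .nil)))) .nil)))) (.nd (nat_lit 4) (.nd (nat_lit 5) 
(.lf (nat_lit 211977) (.g (nat_lit 1709) (.e (nat_lit 81963) (nat_lit 26) (.e (nat_lit 147496) (nat_lit 11) (.e (nat_lit 24617) (nat_lit 7) (.e (nat_lit 319516) (nat_lit 11) .nil)))) .nil)) 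
(.lf (nat_lit 212009) (.g (nat_lit 2545) (.e (nat_lit 81963) (nat_lit 26) (.e (nat_lit 147496) (nat_lit 11) (.e (nat_lit 24639) (nat_lit 10) (.e (nat_lit 344096) (nat_lit 18) (.e (nat_lit 7122) (nat_lit 382) (.e (nat_lit 7936) (nat_lit 90) .nil)))))) (.g (nat_lit 5) .nil .nil)))) (.nd (nat_lit 5) 
(.lf (nat_lit 211993) (.g (nat_lit 3014) (.e (nat_lit 81963) (nat_lit 26) (.e (nat_lit 147496) (nat_lit 11) (.e (nat_lit 24638) (nat_lit 9) (.e (nat_lit 335986) (nat_lit 1) (.e (nat_lit 57655) (nat_lit 152) (.e (nat_lit 1216) (nat_lit 90) .nil)))))) (.g (nat_lit 0) .nil .nil))) 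
(.lf (nat_lit 212025) (.g (nat_lit 1680) (.e (nat_lit 81963) (nat_lit 26) (.e (nat_lit 147496) (nat_lit 11) (.e (nat_lit 24640) (nat_lit 10) (.e (nat_lit 344090) (nat_lit 18) (.e (nat_lit 7125) (nat_lit 382) (.e (nat_lit 7936) (nat_lit 90) .nil)))))) (.g (nat_lit 4) .nil .nil)))))) (.nd (nat_lit 3) (.nd (nat_lit 4) (.nd (nat_lit 5) 
(.lf (nat_lit 211973) (.g (nat_lit 1493) (.e (nat_lit 81963) (nat_lit 26) (.e (nat_lit 147496) (nat_lit 11) (.e (nat_lit 24617) (nat_lit 7) (.e (nat_lit 319505) (nat_lit 10) .nil)))) .nil)) 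
(.lf (nat_lit 212005) (.g (nat_lit 1080) (.e (nat_lit 81963) (nat_lit 26) (.e (nat_lit 147496) (nat_lit 11) (.e (nat_lit 24639) (nat_lit 10) (.e (nat_lit 344093) (nat_lit 18) (.e (nat_lit 7168) (nat_lit 382) .nil))))) .nil))) (.nd (nat_lit 5) 
(.lf (nat_lit 211989) (.g (nat_lit 1820) (.e (nat_lit 81963) (nat_lit 26) (.e (nat_lit 147496) (nat_lit 11) (.e (nat_lit 24636) (nat_lit 9) (.e (nat_lit 335998) (nat_lit 1) (.e (nat_lit 57654) (nat_lit 152) (.e (nat_lit 1217) (nat_lit 90) .nil)))))) (.g (nat_lit 4) .nil .nil))) 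
(.lf (nat_lit 212021) (.g (nat_lit 2681) (.e (nat_lit 81963) (nat_lit 26) (.e (nat_lit 147496) (nat_lit 11) (.e (nat_lit 24640) (nat_lit 10) (.e (nat_lit 344090) (nat_lit 18) (.e (nat_lit 7119) (nat_lit 382) (.e (nat_lit 7936) (nat_lit 90) .nil)))))) (.g (nat_lit 5) .nil .nil))))) (.nd (nat_lit 4) (.nd (nat_lit 5) 
(.lf (nat_lit 211981) (.g (nat_lit 2010) (.e (nat_lit 81963) (nat_lit 26) (.e (nat_lit 147496) (nat_lit 11) (.e (nat_lit 24623) (nat_lit 9) (.e (nat_lit 335997) (nat_lit 1) (.e (nat_lit 57660) (nat_lit 152) .nil))))) .nil)) 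
(.lf (nat_lit 212013) (.g (nat_lit 1602) (.e (nat_lit 81963) (nat_lit 26) (.e (nat_lit 147496) (nat_lit 11) (.e (nat_lit 24639) (nat_lit 10) (.e (nat_lit 344096) (nat_lit 18) (.e (nat_lit 7125) (nat_lit 382) (.e (nat_lit 7936) (nat_lit 90) .nil)))))) (.g (nat_lit 4) .nil .nil)))) (.nd (nat_lit 5) 
(.lf (nat_lit 211997) (.g (nat_lit 3041) (.e (nat_lit 81963) (nat_lit 26) (.e (nat_lit 147496) (nat_lit 11) (.e (nat_lit 24638) (nat_lit 9) (.e (nat_lit 335988) (nat_lit 1) (.e (nat_lit 57665) (nat_lit 152) (.e (nat_lit 7936) (nat_lit 90) .nil)))))) (.g (nat_lit 5) .nil .nil))) 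
(.lf (nat_lit 212029) (.g (nat_lit 1826) (.e (nat_lit 81963) (nat_lit 26) (.e (nat_lit 147496) (nat_lit 11) (.e (nat_lit 24640) (nat_lit 10) (.e (nat_lit 344091) (nat_lit 18) (.e (nat_lit 7124) (nat_lit 382) .nil))))) .nil)))))) (.nd (nat_lit 2) (.nd (nat_lit 3) (.nd (nat_lit 4) (.nd (nat_lit 5) 
(.lf (nat_lit 211971) (.g (nat_lit 1457) (.e (nat_lit 81963) (nat_lit 26) (.e (nat_lit 147496) (nat_lit 11) (.e (nat_lit 24617) (nat_lit 7) (.e (nat_lit 319503) (nat_lit 10) (.e (nat_lit 7936) (nat_lit 64) .nil))))) .nil)) 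
(.lf (nat_lit 212003) (.g (nat_lit 2180) (.e (nat_lit 81963) (nat_lit 26) (.e (nat_lit 147496) (nat_lit 11) (.e (nat_lit 24639) (nat_lit 10) (.e (nat_lit 344090) (nat_lit 18) (.e (nat_lit 7124) (nat_lit 382) (.e (nat_lit 7936) (nat_lit 90) .nil)))))) (.g (nat_lit 5) .nil .nil)))) (.nd (nat_lit 5) 
(.lf (nat_lit 211987) (.g (nat_lit 2227) (.e (nat_lit 81963) (nat_lit 26) (.e (nat_lit 147496) (nat_lit 11) (.e (nat_lit 24631) (nat_lit 9) (.e (nat_lit 335985) (nat_lit 1) (.e (nat_lit 57655) (nat_lit 152) (.e (nat_lit 1216) (nat_lit 90) .nil)))))) (.g (nat_lit 4) .nil .nil))) 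
(.lf (nat_lit 212019) (.g (nat_lit 347) (.e (nat_lit 81963) (nat_lit 26) (.e (nat_lit 147496) (nat_lit 11) (.e (nat_lit 24640) (nat_lit 10) .nil))) .nil)))) (.nd (nat_lit 4) (.nd (nat_lit 5) 
(.lf (nat_lit 211979) (.g (nat_lit 2391) (.e (nat_lit 81963) (nat_lit 26) (.e (nat_lit 147496) (nat_lit 11) (.e (nat_lit 24623) (nat_lit 9) (.e (nat_lit 335997) (nat_lit 1) (.e (nat_lit 57655) (nat_lit 152) (.e (nat_lit 1216) (nat_lit 90) .nil)))))) (.g (nat_lit 4) .nil .nil))) 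
(.lf (nat_lit 212011) (.g (nat_lit 2267) (.e (nat_lit 81963) (nat_lit 26) (.e (nat_lit 147496) (nat_lit 11) (.e (nat_lit 24639) (nat_lit 10) (.e (nat_lit 344096) (nat_lit 18) (.e (nat_lit 7124) (nat_lit 382) (.e (nat_lit 7936) (nat_lit 90) .nil)))))) (.g (nat_lit 5) .nil .nil)))) (.nd (nat_lit 5) 
(.lf (nat_lit 211995) (.g (nat_lit 2300) (.e (nat_lit 81963) (nat_lit 26) (.e (nat_lit 147496) (nat_lit 11) (.e (nat_lit 24638) (nat_lit 9) (.e (nat_lit 335987) (nat_lit 1) (.e (nat_lit 57665) (nat_lit 152) (.e (nat_lit 7936) (nat_lit 90) .nil)))))) (.g (nat_lit 5) .nil .nil))) 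
(.lf (nat_lit 212027) (.g (nat_lit 2159) (.e (nat_lit 81963) (nat_lit 26) (.e (nat_lit 147496) (nat_lit 11) (.e (nat_lit 24640) (nat_lit 10) (.e (nat_lit 344091) (nat_lit 18) (.e (nat_lit 7119) (nat_lit 382) (.e (nat_lit 7936) (nat_lit 90) .nil)))))) (.g (nat_lit 4) .nil .nil)))))) (.nd (nat_lit 3) (.nd (nat_lit 4) (.nd (nat_lit 5) 
(.lf (nat_lit 211975) (.g (nat_lit 4550) (.e (nat_lit 81963) (nat_lit 26) (.e (nat_lit 147496) (nat_lit 11) (.e (nat_lit 24617) (nat_lit 7) (.e (nat_lit 319505) (nat_lit 10) (.e (nat_lit 720) (nat_lit 64) (.e (nat_lit 688184) (nat_lit 18) .nil)))))) (.g (nat_lit 0) .nil .nil))) 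
(.lf (nat_lit 212007) (.g (nat_lit 2222) (.e (nat_lit 81963) (nat_lit 26) (.e (nat_lit 147496) (nat_lit 11) (.e (nat_lit 24639) (nat_lit 10) (.e (nat_lit 344095) (nat_lit 18) (.e (nat_lit 7122) (nat_lit 382) (.e (nat_lit 7936) (nat_lit 90) .nil)))))) (.g (nat_lit 5) .nil .nil)))) (.nd (nat_lit 5) 
(.lf (nat_lit 211991) (.g (nat_lit 1174) (.e (nat_lit 81963) (nat_lit 26) (.e (nat_lit 147496) (nat_lit 11) (.e (nat_lit 24638) (nat_lit 9) (.e (nat_lit 335892) (nat_lit 0) .nil)))) .nil)) 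
(.lf (nat_lit 212023) (.g (nat_lit 2594) (.e (nat_lit 81963) (nat_lit 26) (.e (nat_lit 147496) (nat_lit 11) (.e (nat_lit 24640) (nat_lit 10) (.e (nat_lit 344090) (nat_lit 18) (.e (nat_lit 7124) (nat_lit 382) (.e (nat_lit 7936) (nat_lit 90) .nil)))))) (.g (nat_lit 5) .nil .nil))))) (.nd (nat_lit 4) (.nd (nat_lit 5) 
(.lf (nat_lit 211983) (.g (nat_lit 410) (.e (nat_lit 81963) (nat_lit 26) (.e (nat_lit 147496) (nat_lit 11) (.e (nat_lit 24628) (nat_lit 9) .nil))) .nil)) 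
(.lf (nat_lit 212015) (.g (nat_lit 2504) (.e (nat_lit 81963) (nat_lit 26) (.e (nat_lit 147496) (nat_lit 11) (.e (nat_lit 24639) (nat_lit 10) (.e (nat_lit 344097) (nat_lit 18) (.e (nat_lit 7147) (nat_lit 382) (.e (nat_lit 1216) (nat_lit 90) .nil)))))) (.g (nat_lit 0) .nil .nil)))) (.nd (nat_lit 5) 
(.lf (nat_lit 211999) (.g (nat_lit 379) (.e (nat_lit 81963) (nat_lit 26) (.e (nat_lit 147496) (nat_lit 11) (.e (nat_lit 24639) (nat_lit 10) .nil))) .nil)) 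
(.lf (nat_lit 212031) (.g (nat_lit 2324) (.e (nat_lit 81963) (nat_lit 26) (.e (nat_lit 147496) (nat_lit 11) (.e (nat_lit 24640) (nat_lit 10) (.e (nat_lit 344093) (nat_lit 18) (.e (nat_lit 7168) (nat_lit 382) (.e (nat_lit 7936) (nat_lit 90) .nil)))))) (.g (nat_lit 5) .nil .nil)))))))))

noncomputable def tv2801 : DT := (.nd (nat_lit 0) (.nd (nat_lit 1) (.nd (nat_lit 2) (.nd (nat_lit 3) (.nd (nat_lit 4) (.nd (nat_lit 5) 
(.lf (nat_lit 212032) (.g (nat_lit 1429) (.e (nat_lit 81963) (nat_lit 26) (.e (nat_lit 147496) (nat_lit 11) (.e (nat_lit 24640) (nat_lit 10) (.e (nat_lit 344094) (nat_lit 18) .nil)))) .nil)) 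
(.lf (nat_lit 212064) (.g (nat_lit 2055) (.e (nat_lit 81963) (nat_lit 26) (.e (nat_lit 147496) (nat_lit 11) (.e (nat_lit 24641) (nat_lit 10) (.e (nat_lit 344096) (nat_lit 18) (.e (nat_lit 7122) (nat_lit 382) (.e (nat_lit 7936) (nat_lit 90) .nil)))))) (.g (nat_lit 4) .nil .nil)))) (.nd (nat_lit 5) 
(.lf (nat_lit 212048) (.g (nat_lit 2109) (.e (nat_lit 81963) (nat_lit 26) (.e (nat_lit 147496) (nat_lit 11) (.e (nat_lit 24640) (nat_lit 10) (.e (nat_lit 344097) (nat_lit 18) (.e (nat_lit 7145) (nat_lit 382) (.e (nat_lit 1216) (nat_lit 90) .nil)))))) (.g (nat_lit 4) .nil .nil))) 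
(.lf (nat_lit 212080) (.g (nat_lit 877) (.e (nat_lit 81964) (nat_lit 26) (.e (nat_lit 147467) (nat_lit 9) (.e (nat_lit 324) (nat_lit 24) (.e (nat_lit 360488) (nat_lit 20) (.e (nat_lit 769792) (nat_lit 10) .nil))))) (.g (nat_lit 4) .nil .nil))))) (.nd (nat_lit 4) (.nd (nat_lit 5) 
(.lf (nat_lit 212040) (.g (nat_lit 2198) (.e (nat_lit 81963) (nat_lit 26) (.e (nat_lit 147496) (nat_lit 11) (.e (nat_lit 24640) (nat_lit 10) (.e (nat_lit 344096) (nat_lit 18) (.e (nat_lit 7122) (nat_lit 382) (.e (nat_lit 1224) (nat_lit 90) .nil)))))) (.g (nat_lit 4) .nil .nil))) 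
(.lf (nat_lit 212072) (.g (nat_lit 1649) (.e (nat_lit 81963) (nat_lit 26) (.e (nat_lit 147512) (nat_lit 14) (.e (nat_lit 2808) (nat_lit 180) (.e (nat_lit 303127) (nat_lit 9) (.e (nat_lit 426428) (nat_lit 17) (.e (nat_lit 98048) (nat_lit 6) .nil)))))) (.g (nat_lit 4) .nil .nil)))) (.nd (nat_lit 5) 
(.lf (nat_lit 212056) (.g (nat_lit 1539) (.e (nat_lit 81963) (nat_lit 26) (.e (nat_lit 147496) (nat_lit 11) (.e (nat_lit 24640) (nat_lit 10) (.e (nat_lit 344101) (nat_lit 18) .nil)))) .nil)) 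
(.lf (nat_lit 212088) (.g (nat_lit 1654) (.e (nat_lit 81964) (nat_lit 26) (.e (nat_lit 147496) (nat_lit 11) (.e (nat_lit 24640) (nat_lit 10) (.e (nat_lit 344173) (nat_lit 42) .nil)))) .nil))))) (.nd (nat_lit 3) (.nd (nat_lit 4) (.nd (nat_lit 5) 
(.lf (nat_lit 212036) (.g (nat_lit 2122) (.e (nat_lit 81963) (nat_lit 26) (.e (nat_lit 147496) (nat_lit 11) (.e (nat_lit 24640) (nat_lit 10) (.e (nat_lit 344094) (nat_lit 18) (.e (nat_lit 7124) (nat_lit 382) (.e (nat_lit 7936) (nat_lit 90) .nil)))))) (.g (nat_lit 4) .nil .nil))) 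
(.lf (nat_lit 212068) (.g (nat_lit 1245) (.e (nat_lit 81963) (nat_lit 26) (.e (nat_lit 147496) (nat_lit 11) (.e (nat_lit 24643) (nat_lit 11) (.e (nat_lit 368662) (nat_lit 18) (.e (nat_lit 7160) (nat_lit 382) .nil))))) .nil))) (.nd (nat_lit 5) 
(.lf (nat_lit 212052) (.g (nat_lit 2986) (.e (nat_lit 81963) (nat_lit 26) (.e (nat_lit 147496) (nat_lit 11) (.e (nat_lit 24640) (nat_lit 10) (.e (nat_lit 344097) (nat_lit 18) (.e (nat_lit 7160) (nat_lit 382) (.e (nat_lit 1215) (nat_lit 90) .nil)))))) (.g (nat_lit 6) .nil .nil))) 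
(.lf (nat_lit 212084) (.g (nat_lit 1607) (.e (nat_lit 81964) (nat_lit 26) (.e (nat_lit 147495) (nat_lit 11) (.e (nat_lit 24640) (nat_lit 10) (.e (nat_lit 344174) (nat_lit 42) (.e (nat_lit 769792) (nat_lit 10) .nil))))) (.g (nat_lit 4) .nil .nil))))) (.nd (nat_lit 4) (.nd (nat_lit 5) 
(.lf (nat_lit 212044) (.g (nat_lit 3713) (.e (nat_lit 81963) (nat_lit 26) (.e (nat_lit 147496) (nat_lit 11) (.e (nat_lit 24640) (nat_lit 10) (.e (nat_lit 344096) (nat_lit 18) (.e (nat_lit 7125) (nat_lit 382) (.e (nat_lit 1224) (nat_lit 90) .nil)))))) (.g (nat_lit 6) .nil .nil))) 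
(.lf (nat_lit 212076) (.g (nat_lit 1187) (.e (nat_lit 81964) (nat_lit 26) (.e (nat_lit 147466) (nat_lit 9) (.e (nat_lit 321) (nat_lit 24) (.e (nat_lit 360488) (nat_lit 20) (.e (nat_lit 769792) (nat_lit 10) .nil))))) .nil))) (.nd (nat_lit 5) 
(.lf (nat_lit 212060) (.g (nat_lit 2738) (.e (nat_lit 81963) (nat_lit 26) (.e (nat_lit 147496) (nat_lit 11) (.e (nat_lit 24640) (nat_lit 10) (.e (nat_lit 344176) (nat_lit 43) (.e (nat_lit 777984) (nat_lit 10) .nil))))) (.g (nat_lit 4) .nil .nil))) 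
(.lf (nat_lit 212092) (.g (nat_lit 1654) (.e (nat_lit 81965) (nat_lit 26) (.e (nat_lit 155392) (nat_lit 0) (.e (nat_lit 1669) (nat_lit 116) (.e (nat_lit 401454) (nat_lit 12) (.e (nat_lit 483072) (nat_lit 22) (.e (nat_lit 500077) (nat_lit 20) .nil)))))) (.g (nat_lit 4) .nil .nil))))))) (.nd (nat_lit 2) (.nd (nat_lit 3) (.nd (nat_lit 4) (.nd (nat_lit 5) 
(.lf (nat_lit 212034) (.g (nat_lit 2284) (.e (nat_lit 81963) (nat_lit 26) (.e (nat_lit 147496) (nat_lit 11) (.e (nat_lit 24640) (nat_lit 10) (.e (nat_lit 344094) (nat_lit 18) (.e (nat_lit 7122) (nat_lit 382) (.e (nat_lit 7936) (nat_lit 90) .nil)))))) (.g (nat_lit 4) .nil .nil))) 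
(.lf (nat_lit 212066) (.g (nat_lit 1778) (.e (nat_lit 81963) (nat_lit 26) (.e (nat_lit 147496) (nat_lit 11) (.e (nat_lit 24641) (nat_lit 10) (.e (nat_lit 344096) (nat_lit 18) (.e (nat_lit 7124) (nat_lit 382) (.e (nat_lit 7936) (nat_lit 90) .nil)))))) (.g (nat_lit 4) .nil .nil)))) (.nd (nat_lit 5) 
(.lf (nat_lit 212050) (.g (nat_lit 2609) (.e (nat_lit 81963) (nat_lit 26) (.e (nat_lit 147496) (nat_lit 11) (.e (nat_lit 24640) (nat_lit 10) (.e (nat_lit 344097) (nat_lit 18) (.e (nat_lit 7146) (nat_lit 382) (.e (nat_lit 7936) (nat_lit 90) .nil)))))) (.g (nat_lit 5) .nil .nil))) 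
(.lf (nat_lit 212082) (.g (nat_lit 1869) (.e (nat_lit 81964) (nat_lit 26) (.e (nat_lit 147494) (nat_lit 11) (.e (nat_lit 24638) (nat_lit 9) (.e (nat_lit 335988) (nat_lit 1) (.e (nat_lit 57665) (nat_lit 152) .nil))))) .nil)))) (.nd (nat_lit 4) (.nd (nat_lit 5) 
(.lf (nat_lit 212042) (.g (nat_lit 3010) (.e (nat_lit 81963) (nat_lit 26) (.e (nat_lit 147496) (nat_lit 11) (.e (nat_lit 24640) (nat_lit 10) (.e (nat_lit 344096) (nat_lit 18) (.e (nat_lit 7124) (nat_lit 382) (.e (nat_lit 7936) (nat_lit 90) .nil)))))) (.g (nat_lit 5) .nil .nil))) 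
(.lf (nat_lit 212074) (.g (nat_lit 1065) (.e (nat_lit 81964) (nat_lit 26) (.e (nat_lit 147465) (nat_lit 9) (.e (nat_lit 334) (nat_lit 26) (.e (nat_lit 376859) (nat_lit 21) (.e (nat_lit 57655) (nat_lit 152) .nil))))) .nil))) (.nd (nat_lit 5) 
(.lf (nat_lit 212058) (.g (nat_lit 2037) (.e (nat_lit 81963) (nat_lit 26) (.e (nat_lit 147496) (nat_lit 11) (.e (nat_lit 24640) (nat_lit 10) (.e (nat_lit 344173) (nat_lit 42) (.e (nat_lit 769792) (nat_lit 10) .nil))))) (.g (nat_lit 4) .nil .nil))) 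
(.lf (nat_lit 212090) (.g (nat_lit 1738) (.e (nat_lit 81964) (nat_lit 26) (.e (nat_lit 147496) (nat_lit 11) (.e (nat_lit 24641) (nat_lit 10) (.e (nat_lit 344174) (nat_lit 42) (.e (nat_lit 769792) (nat_lit 10) .nil))))) .nil))))) (.nd (nat_lit 3) (.nd (nat_lit 4) (.nd (nat_lit 5) 
(.lf (nat_lit 212038) (.g (nat_lit 2489) (.e (nat_lit 81963) (nat_lit 26) (.e (nat_lit 147496) (nat_lit 11) (.e (nat_lit 24640) (nat_lit 10) (.e (nat_lit 344095) (nat_lit 18) (.e (nat_lit 7122) (nat_lit 382) (.e (nat_lit 7936) (nat_lit 90) .nil)))))) (.g (nat_lit 5) .nil .nil))) 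
(.lf (nat_lit 212070) (.g (nat_lit 553) (.e (nat_lit 81963) (nat_lit 26) (.e (nat_lit 147496) (nat_lit 11) (.e (nat_lit 24661) (nat_lit 14) .nil))) .nil))) (.nd (nat_lit 5) 
(.lf (nat_lit 212054) (.g (nat_lit 1954) (.e (nat_lit 81963) (nat_lit 26) (.e (nat_lit 147496) (nat_lit 11) (.e (nat_lit 24640) (nat_lit 10) (.e (nat_lit 344097) (nat_lit 18) (.e (nat_lit 7194) (nat_lit 382) .nil))))) .nil)) 
(.lf (nat_lit 212086) (.g (nat_lit 1824) (.e (nat_lit 81964) (nat_lit 26) (.e (nat_lit 147496) (nat_lit 11) (.e (nat_lit 24639) (nat_lit 10) (.e (nat_lit 344174) (nat_lit 42) (.e (nat_lit 769792) (nat_lit 10) .nil))))) (.g (nat_lit 4) .nil .nil))))) (.nd (nat_lit 4) (.nd (nat_lit 5) 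
(.lf (nat_lit 212046) (.g (nat_lit 2127) (.e (nat_lit 81963) (nat_lit 26) (.e (nat_lit 147496) (nat_lit 11) (.e (nat_lit 24640) (nat_lit 10) (.e (nat_lit 344096) (nat_lit 18) (.e (nat_lit 7132) (nat_lit 382) .nil))))) .nil)) 
(.lf (nat_lit 212078) (.g (nat_lit 1236) (.e (nat_lit 81964) (nat_lit 26) (.e (nat_lit 147466) (nat_lit 9) (.e (nat_lit 324) (nat_lit 24) (.e (nat_lit 360488) (nat_lit 20) (.e (nat_lit 769792) (nat_lit 10) .nil))))) (.g (nat_lit 4) .nil .nil)))) (.nd (nat_lit 5) 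
(.lf (nat_lit 212062) (.g (nat_lit 1868) (.e (nat_lit 81963) (nat_lit 26) (.e (nat_lit 147496) (nat_lit 11) (.e (nat_lit 24641) (nat_lit 10) (.e (nat_lit 344095) (nat_lit 18) (.e (nat_lit 7122) (nat_lit 382) (.e (nat_lit 7936) (nat_lit 90) .nil)))))) (.g (nat_lit 4) .nil .nil))) 
(.lf (nat_lit 212094) (.g (nat_lit 2678) (.e (nat_lit 81965) (nat_lit 26) (.e (nat_lit 147463) (nat_lit 9) (.e (nat_lit 249) (nat_lit 21) (.e (nat_lit 336158) (nat_lit 9) (.e (nat_lit 335988) (nat_lit 1) (.e (nat_lit 57665) (nat_lit 152) (.e (nat_lit 7936) (nat_lit 90) .nil))))))) (.g (nat_lit 6) .nil .nil)))))))) 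
(.nd (nat_lit 1) (.nd (nat_lit 2) (.nd (nat_lit 3) (.nd (nat_lit 4) (.nd (nat_lit 5) 
(.lf (nat_lit 212033) (.g (nat_lit 2277) (.e (nat_lit 81963) (nat_lit 26) (.e (nat_lit 147496) (nat_lit 11) (.e (nat_lit 24640) (nat_lit 10) (.e (nat_lit 344094) (nat_lit 18) (.e (nat_lit 7119) (nat_lit 382) (.e (nat_lit 7936) (nat_lit 90) .nil)))))) (.g (nat_lit 4) .nil .nil))) 
(.lf (nat_lit 212065) (.g (nat_lit 1544) (.e (nat_lit 81963) (nat_lit 26) (.e (nat_lit 147496) (nat_lit 11) (.e (nat_lit 24641) (nat_lit 10) (.e (nat_lit 344096) (nat_lit 18) (.e (nat_lit 7124) (nat_lit 382) .nil))))) .nil))) (.nd (nat_lit 5) 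
(.lf (nat_lit 212049) (.g (nat_lit 2169) (.e (nat_lit 81963) (nat_lit 26) (.e (nat_lit 147496) (nat_lit 11) (.e (nat_lit 24640) (nat_lit 10) (.e (nat_lit 344097) (nat_lit 18) (.e (nat_lit 7145) (nat_lit 382) (.e (nat_lit 1217) (nat_lit 90) .nil)))))) (.g (nat_lit 4) .nil .nil))) 
(.lf (nat_lit 212081) (.g (nat_lit 1441) (.e (nat_lit 81964) (nat_lit 26) (.e (nat_lit 147494) (nat_lit 11) (.e (nat_lit 24638) (nat_lit 9) (.e (nat_lit 335987) (nat_lit 1) (.e (nat_lit 57665) (nat_lit 152) .nil))))) .nil)))) (.nd (nat_lit 4) (.nd (nat_lit 5) 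
(.lf (nat_lit 212041) (.g (nat_lit 3261) (.e (nat_lit 81963) (nat_lit 26) (.e (nat_lit 147496) (nat_lit 11) (.e (nat_lit 24640) (nat_lit 10) (.e (nat_lit 344096) (nat_lit 18) (.e (nat_lit 7122) (nat_lit 382) (.e (nat_lit 7936) (nat_lit 90) .nil)))))) (.g (nat_lit 5) .nil .nil))) 
(.lf (nat_lit 212073) (.g (nat_lit 1241) (.e (nat_lit 81964) (nat_lit 26) (.e (nat_lit 147465) (nat_lit 9) (.e (nat_lit 334) (nat_lit 26) (.e (nat_lit 376857) (nat_lit 21) (.e (nat_lit 57665) (nat_lit 152) .nil))))) .nil))) (.nd (nat_lit 5) 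
(.lf (nat_lit 212057) (.g (nat_lit 2430) (.e (nat_lit 81963) (nat_lit 26) (.e (nat_lit 147496) (nat_lit 11) (.e (nat_lit 24640) (nat_lit 10) (.e (nat_lit 344101) (nat_lit 18) (.e (nat_lit 7147) (nat_lit 382) (.e (nat_lit 1217) (nat_lit 90) .nil)))))) (.g (nat_lit 5) .nil .nil))) 
(.lf (nat_lit 212089) (.g (nat_lit 2013) (.e (nat_lit 81964) (nat_lit 26) (.e (nat_lit 147496) (nat_lit 11) (.e (nat_lit 24640) (nat_lit 10) (.e (nat_lit 344174) (nat_lit 42) (.e (nat_lit 769792) (nat_lit 10) .nil))))) (.g (nat_lit 4) .nil .nil)))))) (.nd (nat_lit 3) (.nd (nat_lit 4) (.nd (nat_lit 5) 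
(.lf (nat_lit 212037) (.g (nat_lit 2121) (.e (nat_lit 81963) (nat_lit 26) (.e (nat_lit 147496) (nat_lit 11) (.e (nat_lit 24640) (nat_lit 10) (.e (nat_lit 344095) (nat_lit 18) (.e (nat_lit 7119) (nat_lit 382) (.e (nat_lit 7936) (nat_lit 90) .nil)))))) (.g (nat_lit 4) .nil .nil))) 
(.lf (nat_lit 212069) (.g (nat_lit 1692) (.e (nat_lit 81963) (nat_lit 26) (.e (nat_lit 147496) (nat_lit 11) (.e (nat_lit 24645) (nat_lit 11) (.e (nat_lit 368662) (nat_lit 18) (.e (nat_lit 7147) (nat_lit 382) (.e (nat_lit 1216) (nat_lit 90) .nil)))))) (.g (nat_lit 4) .nil .nil)))) (.nd (nat_lit 5) 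
(.lf (nat_lit 212053) (.g (nat_lit 2300) (.e (nat_lit 81963) (nat_lit 26) (.e (nat_lit 147496) (nat_lit 11) (.e (nat_lit 24640) (nat_lit 10) (.e (nat_lit 344097) (nat_lit 18) (.e (nat_lit 7160) (nat_lit 382) (.e (nat_lit 7936) (nat_lit 90) .nil)))))) (.g (nat_lit 4) .nil .nil))) 
(.lf (nat_lit 212085) (.g (nat_lit 490) (.e (nat_lit 81964) (nat_lit 26) (.e (nat_lit 147496) (nat_lit 11) (.e (nat_lit 24617) (nat_lit 7) .nil))) .nil)))) (.nd (nat_lit 4) (.nd (nat_lit 5) 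
(.lf (nat_lit 212045) (.g (nat_lit 2021) (.e (nat_lit 81963) (nat_lit 26) (.e (nat_lit 147496) (nat_lit 11) (.e (nat_lit 24640) (nat_lit 10) (.e (nat_lit 344096) (nat_lit 18) (.e (nat_lit 7125) (nat_lit 382) (.e (nat_lit 7936) (nat_lit 90) .nil)))))) (.g (nat_lit 4) .nil .nil))) 
(.lf (nat_lit 212077) (.g (nat_lit 648) (.e (nat_lit 81964) (nat_lit 26) (.e (nat_lit 147466) (nat_lit 9) (.e (nat_lit 324) (nat_lit 24) .nil))) .nil))) (.nd (nat_lit 5) 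
(.lf (nat_lit 212061) (.g (nat_lit 365) (.e (nat_lit 81963) (nat_lit 26) (.e (nat_lit 147496) (nat_lit 11) (.e (nat_lit 24641) (nat_lit 10) .nil))) .nil)) 
(.lf (nat_lit 212093) (.g (nat_lit 1392) (.e (nat_lit 81965) (nat_lit 26) (.e (nat_lit 155392) (nat_lit 0) (.e (nat_lit 1669) (nat_lit 116) (.e (nat_lit 401454) (nat_lit 12) (.e (nat_lit 483072) (nat_lit 22) (.e (nat_lit 500078) (nat_lit 20) .nil)))))) (.g (nat_lit 4) .nil .nil))))))) (.nd (nat_lit 2) (.nd (nat_lit 3) (.nd (nat_lit 4) (.nd (nat_lit 5) 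
(.lf (nat_lit 212035) (.g (nat_lit 1752) (.e (nat_lit 81963) (nat_lit 26) (.e (nat_lit 147496) (nat_lit 11) (.e (nat_lit 24640) (nat_lit 10) (.e (nat_lit 344094) (nat_lit 18) (.e (nat_lit 7124) (nat_lit 382) .nil))))) .nil)) 
(.lf (nat_lit 212067) (.g (nat_lit 1827) (.e (nat_lit 81963) (nat_lit 26) (.e (nat_lit 147496) (nat_lit 11) (.e (nat_lit 24641) (nat_lit 10) (.e (nat_lit 344174) (nat_lit 42) (.e (nat_lit 769792) (nat_lit 10) .nil))))) (.g (nat_lit 4) .nil .nil)))) (.nd (nat_lit 5) 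
(.lf (nat_lit 212051) (.g (nat_lit 2976) (.e (nat_lit 81963) (nat_lit 26) (.e (nat_lit 147496) (nat_lit 11) (.e (nat_lit 24640) (nat_lit 10) (.e (nat_lit 344097) (nat_lit 18) (.e (nat_lit 7147) (nat_lit 382) (.e (nat_lit 1216) (nat_lit 90) .nil)))))) (.g (nat_lit 0) .nil .nil))) 
(.lf (nat_lit 212083) (.g (nat_lit 1605) (.e (nat_lit 81964) (nat_lit 26) (.e (nat_lit 147495) (nat_lit 11) (.e (nat_lit 24639) (nat_lit 10) (.e (nat_lit 344174) (nat_lit 42) (.e (nat_lit 769792) (nat_lit 10) .nil))))) (.g (nat_lit 4) .nil .nil))))) (.nd (nat_lit 4) (.nd (nat_lit 5) 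
(.lf (nat_lit 212043) (.g (nat_lit 3872) (.e (nat_lit 81963) (nat_lit 26) (.e (nat_lit 147496) (nat_lit 11) (.e (nat_lit 24640) (nat_lit 10) (.e (nat_lit 344096) (nat_lit 18) (.e (nat_lit 7125) (nat_lit 382) (.e (nat_lit 1222) (nat_lit 90) .nil)))))) (.g (nat_lit 6) .nil .nil))) 
(.lf (nat_lit 212075) (.g (nat_lit 1093) (.e (nat_lit 81964) (nat_lit 26) (.e (nat_lit 147465) (nat_lit 9) (.e (nat_lit 334) (nat_lit 26) (.e (nat_lit 376860) (nat_lit 21) (.e (nat_lit 57665) (nat_lit 152) .nil))))) .nil))) (.nd (nat_lit 5) 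
(.lf (nat_lit 212059) (.g (nat_lit 2112) (.e (nat_lit 81963) (nat_lit 26) (.e (nat_lit 147496) (nat_lit 11) (.e (nat_lit 24640) (nat_lit 10) (.e (nat_lit 344174) (nat_lit 42) (.e (nat_lit 769792) (nat_lit 10) .nil))))) (.g (nat_lit 4) .nil .nil))) 
(.lf (nat_lit 212091) (.g (nat_lit 2901) (.e (nat_lit 81965) (nat_lit 26) (.e (nat_lit 155392) (nat_lit 0) (.e (nat_lit 1669) (nat_lit 116) (.e (nat_lit 401454) (nat_lit 12) (.e (nat_lit 475167) (nat_lit 22) (.e (nat_lit 500074) (nat_lit 20) .nil)))))) (.g (nat_lit 4) .nil .nil)))))) (.nd (nat_lit 3) (.nd (nat_lit 4) (.nd (nat_lit 5) 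
(.lf (nat_lit 212039) (.g (nat_lit 2772) (.e (nat_lit 81963) (nat_lit 26) (.e (nat_lit 147496) (nat_lit 11) (.e (nat_lit 24640) (nat_lit 10) (.e (nat_lit 344096) (nat_lit 18) (.e (nat_lit 7119) (nat_lit 382) (.e (nat_lit 7936) (nat_lit 90) .nil)))))) (.g (nat_lit 5) .nil .nil))) 
(.lf (nat_lit 212071) (.g (nat_lit 2264) (.e (nat_lit 81963) (nat_lit 26) (.e (nat_lit 147499) (nat_lit 12) (.e (nat_lit 164020) (nat_lit 45) (.e (nat_lit 696344) (nat_lit 8) (.e (nat_lit 172061) (nat_lit 1) .nil))))) .nil))) (.nd (nat_lit 5) 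
(.lf (nat_lit 212055) (.g (nat_lit 1544) (.e (nat_lit 81963) (nat_lit 26) (.e (nat_lit 147496) (nat_lit 11) (.e (nat_lit 24640) (nat_lit 10) (.e (nat_lit 344099) (nat_lit 18) .nil)))) .nil)) 
(.lf (nat_lit 212087) (.g (nat_lit 1431) (.e (nat_lit 81964) (nat_lit 26) (.e (nat_lit 147496) (nat_lit 11) (.e (nat_lit 24640) (nat_lit 10) (.e (nat_lit 344097) (nat_lit 18) .nil)))) .nil)))) (.nd (nat_lit 4) (.nd (nat_lit 5) 
(.lf (nat_lit 212047) (.g (nat_lit 1888) (.e (nat_lit 81963) (nat_lit 26) (.e (nat_lit 147496) (nat_lit 11) (.e (nat_lit 24640) (nat_lit 10) (.e (nat_lit 344097) (nat_lit 18) (.e (nat_lit 7145) (nat_lit 382) .nil))))) .nil)) 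
(.lf (nat_lit 212079) (.g (nat_lit 942) (.e (nat_lit 81964) (nat_lit 26) (.e (nat_lit 147467) (nat_lit 9) (.e (nat_lit 321) (nat_lit 24) (.e (nat_lit 360488) (nat_lit 20) (.e (nat_lit 769792) (nat_lit 10) .nil))))) (.g (nat_lit 4) .nil .nil)))) (.nd (nat_lit 5) 
(.lf (nat_lit 212063) (.g (nat_lit 1588) (.e (nat_lit 81963) (nat_lit 26) (.e (nat_lit 147496) (nat_lit 11) (.e (nat_lit 24641) (nat_lit 10) (.e (nat_lit 344096) (nat_lit 18) (.e (nat_lit 7119) (nat_lit 382) .nil))))) .nil)) 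
(.lf (nat_lit 212095) (.g (nat_lit 723) (.e (nat_lit 81965) (nat_lit 26) (.e (nat_lit 147463) (nat_lit 9) (.e (nat_lit 249) (nat_lit 21) (.e (nat_lit 336163) (nat_lit 10) (.e (nat_lit 344095) (nat_lit 18) .nil))))) .nil))))))))

noncomputable def tv2802 : DT := (.nd (nat_lit 0) (.nd (nat_lit 1) (.nd (nat_lit 2) (.nd (nat_lit 3) (.nd (nat_lit 4) (.nd (nat_lit 5) 
(.lf (nat_lit 212096) (.g (nat_lit 1746) (.e (nat_lit 81965) (nat_lit 26) (.e (nat_lit 147463) (nat_lit 9) (.e (nat_lit 314) (nat_lit 23) (.e (nat_lit 352309) (nat_lit 21) (.e (nat_lit 65280) (nat_lit 152) .nil))))) .nil)) 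
(.lf (nat_lit 212128) (.g (nat_lit 2655) (.e (nat_lit 81965) (nat_lit 26) (.e (nat_lit 147466) (nat_lit 9) (.e (nat_lit 324) (nat_lit 24) (.e (nat_lit 360449) (nat_lit 0) (.e (nat_lit 7122) (nat_lit 382) (.e (nat_lit 7936) (nat_lit 90) .nil)))))) (.g (nat_lit 5) .nil .nil)))) (.nd (nat_lit 5) 
(.lf (nat_lit 212112) (.g (nat_lit 2249) (.e (nat_lit 81965) (nat_lit 26) (.e (nat_lit 147465) (nat_lit 9) (.e (nat_lit 334) (nat_lit 26) (.e (nat_lit 376857) (nat_lit 21) (.e (nat_lit 57665) (nat_lit 152) (.e (nat_lit 7936) (nat_lit 90) .nil)))))) (.g (nat_lit 5) .nil .nil))) 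
(.lf (nat_lit 212144) (.g (nat_lit 1606) (.e (nat_lit 81965) (nat_lit 26) (.e (nat_lit 147467) (nat_lit 9) (.e (nat_lit 321) (nat_lit 24) (.e (nat_lit 360488) (nat_lit 20) (.e (nat_lit 769792) (nat_lit 10) .nil))))) (.g (nat_lit 4) .nil .nil))))) (.nd (nat_lit 4) (.nd (nat_lit 5) 
(.lf (nat_lit 212104) (.g (nat_lit 1409) (.e (nat_lit 81965) (nat_lit 26) (.e (nat_lit 147464) (nat_lit 9) (.e (nat_lit 334) (nat_lit 26) (.e (nat_lit 376857) (nat_lit 21) (.e (nat_lit 57664) (nat_lit 152) (.e (nat_lit 7936) (nat_lit 90) .nil)))))) (.g (nat_lit 4) .nil .nil))) 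
(.lf (nat_lit 212136) (.g (nat_lit 1563) (.e (nat_lit 81965) (nat_lit 26) (.e (nat_lit 147467) (nat_lit 9) (.e (nat_lit 314) (nat_lit 23) (.e (nat_lit 352303) (nat_lit 20) (.e (nat_lit 2281) (nat_lit 150) .nil))))) .nil))) (.nd (nat_lit 5) 
(.lf (nat_lit 212120) (.g (nat_lit 1855) (.e (nat_lit 81965) (nat_lit 26) (.e (nat_lit 147465) (nat_lit 9) (.e (nat_lit 334) (nat_lit 26) (.e (nat_lit 376860) (nat_lit 21) (.e (nat_lit 57671) (nat_lit 152) (.e (nat_lit 7936) (nat_lit 90) .nil)))))) (.g (nat_lit 4) .nil .nil))) 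
(.lf (nat_lit 212152) (.g (nat_lit 2352) (.e (nat_lit 81965) (nat_lit 26) (.e (nat_lit 147467) (nat_lit 9) (.e (nat_lit 324) (nat_lit 24) (.e (nat_lit 360489) (nat_lit 21) (.e (nat_lit 770074) (nat_lit 10) .nil))))) (.g (nat_lit 0) .nil .nil)))))) (.nd (nat_lit 3) (.nd (nat_lit 4) (.nd (nat_lit 5) 
(.lf (nat_lit 212100) (.g (nat_lit 1559) (.e (nat_lit 81965) (nat_lit 26) (.e (nat_lit 147463) (nat_lit 9) (.e (nat_lit 334) (nat_lit 26) (.e (nat_lit 376857) (nat_lit 21) (.e (nat_lit 57664) (nat_lit 152) (.e (nat_lit 7936) (nat_lit 90) .nil)))))) (.g (nat_lit 4) .nil .nil))) 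
(.lf (nat_lit 212132) (.g (nat_lit 1532) (.e (nat_lit 81965) (nat_lit 26) (.e (nat_lit 147467) (nat_lit 9) (.e (nat_lit 297) (nat_lit 22) (.e (nat_lit 344068) (nat_lit 0) (.e (nat_lit 2445) (nat_lit 157) .nil))))) .nil))) (.nd (nat_lit 5) 
(.lf (nat_lit 212116) (.g (nat_lit 1325) (.e (nat_lit 81965) (nat_lit 26) (.e (nat_lit 147465) (nat_lit 9) (.e (nat_lit 334) (nat_lit 26) (.e (nat_lit 376859) (nat_lit 21) (.e (nat_lit 65280) (nat_lit 152) .nil))))) .nil)) 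
(.lf (nat_lit 212148) (.g (nat_lit 2582) (.e (nat_lit 81965) (nat_lit 26) (.e (nat_lit 147467) (nat_lit 9) (.e (nat_lit 324) (nat_lit 24) (.e (nat_lit 360449) (nat_lit 0) (.e (nat_lit 7122) (nat_lit 382) (.e (nat_lit 7936) (nat_lit 90) .nil)))))) (.g (nat_lit 5) .nil .nil))))) (.nd (nat_lit 4) (.nd (nat_lit 5) 
(.lf (nat_lit 212108) (.g (nat_lit 790) (.e (nat_lit 81965) (nat_lit 26) (.e (nat_lit 147465) (nat_lit 9) (.e (nat_lit 334) (nat_lit 26) (.e (nat_lit 376844) (nat_lit 20) .nil)))) .nil)) 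
(.lf (nat_lit 212140) (.g (nat_lit 1826) (.e (nat_lit 81965) (nat_lit 26) (.e (nat_lit 147467) (nat_lit 9) (.e (nat_lit 314) (nat_lit 23) (.e (nat_lit 352318) (nat_lit 24) (.e (nat_lit 130816) (nat_lit 152) .nil))))) .nil))) (.nd (nat_lit 5) 
(.lf (nat_lit 212124) (.g (nat_lit 1747) (.e (nat_lit 81965) (nat_lit 26) (.e (nat_lit 147466) (nat_lit 9) (.e (nat_lit 321) (nat_lit 24) (.e (nat_lit 360449) (nat_lit 0) (.e (nat_lit 7124) (nat_lit 382) (.e (nat_lit 7936) (nat_lit 90) .nil)))))) (.g (nat_lit 4) .nil .nil))) 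
(.lf (nat_lit 212156) (.g (nat_lit 2077) (.e (nat_lit 81965) (nat_lit 26) (.e (nat_lit 147467) (nat_lit 9) (.e (nat_lit 334) (nat_lit 26) (.e (nat_lit 376857) (nat_lit 21) (.e (nat_lit 57665) (nat_lit 152) (.e (nat_lit 7936) (nat_lit 90) .nil)))))) (.g (nat_lit 5) .nil .nil))))))) (.nd (nat_lit 2) (.nd (nat_lit 3) (.nd (nat_lit 4) (.nd (nat_lit 5) 
(.lf (nat_lit 212098) (.g (nat_lit 2522) (.e (nat_lit 81965) (nat_lit 26) (.e (nat_lit 147463) (nat_lit 9) (.e (nat_lit 322) (nat_lit 24) (.e (nat_lit 360451) (nat_lit 0) (.e (nat_lit 7124) (nat_lit 382) (.e (nat_lit 7936) (nat_lit 90) .nil)))))) (.g (nat_lit 5) .nil .nil))) 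
(.lf (nat_lit 212130) (.g (nat_lit 1604) (.e (nat_lit 81965) (nat_lit 26) (.e (nat_lit 147466) (nat_lit 9) (.e (nat_lit 324) (nat_lit 24) (.e (nat_lit 360488) (nat_lit 20) (.e (nat_lit 769792) (nat_lit 10) .nil))))) (.g (nat_lit 4) .nil .nil)))) (.nd (nat_lit 5) 
(.lf (nat_lit 212114) (.g (nat_lit 1874) (.e (nat_lit 81965) (nat_lit 26) (.e (nat_lit 147465) (nat_lit 9) (.e (nat_lit 334) (nat_lit 26) (.e (nat_lit 376859) (nat_lit 21) (.e (nat_lit 57666) (nat_lit 152) (.e (nat_lit 7936) (nat_lit 90) .nil)))))) (.g (nat_lit 4) .nil .nil))) 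
(.lf (nat_lit 212146) (.g (nat_lit 311) (.e (nat_lit 81965) (nat_lit 26) (.e (nat_lit 147467) (nat_lit 9) (.e (nat_lit 324) (nat_lit 24) .nil))) .nil)))) (.nd (nat_lit 4) (.nd (nat_lit 5) 
(.lf (nat_lit 212106) (.g (nat_lit 1201) (.e (nat_lit 81965) (nat_lit 26) (.e (nat_lit 147464) (nat_lit 9) (.e (nat_lit 334) (nat_lit 26) (.e (nat_lit 376857) (nat_lit 21) (.e (nat_lit 65280) (nat_lit 152) .nil))))) .nil)) 
(.lf (nat_lit 212138) (.g (nat_lit 2155) (.e (nat_lit 81965) (nat_lit 26) (.e (nat_lit 147467) (nat_lit 9) (.e (nat_lit 314) (nat_lit 23) (.e (nat_lit 352309) (nat_lit 21) (.e (nat_lit 57654) (nat_lit 152) (.e (nat_lit 1216) (nat_lit 90) .nil)))))) (.g (nat_lit 4) .nil .nil)))) (.nd (nat_lit 5) 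
(.lf (nat_lit 212122) (.g (nat_lit 410) (.e (nat_lit 81965) (nat_lit 26) (.e (nat_lit 147466) (nat_lit 9) (.e (nat_lit 321) (nat_lit 24) .nil))) .nil)) 
(.lf (nat_lit 212154) (.g (nat_lit 1767) (.e (nat_lit 81965) (nat_lit 26) (.e (nat_lit 147467) (nat_lit 9) (.e (nat_lit 334) (nat_lit 26) (.e (nat_lit 376857) (nat_lit 21) (.e (nat_lit 57663) (nat_lit 152) (.e (nat_lit 7936) (nat_lit 90) .nil)))))) (.g (nat_lit 4) .nil .nil)))))) (.nd (nat_lit 3) (.nd (nat_lit 4) (.nd (nat_lit 5) 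
(.lf (nat_lit 212102) (.g (nat_lit 1577) (.e (nat_lit 81965) (nat_lit 26) (.e (nat_lit 147463) (nat_lit 9) (.e (nat_lit 334) (nat_lit 26) (.e (nat_lit 376857) (nat_lit 21) (.e (nat_lit 65280) (nat_lit 152) (.e (nat_lit 1220) (nat_lit 90) .nil)))))) (.g (nat_lit 4) .nil .nil))) 
(.lf (nat_lit 212134) (.g (nat_lit 916) (.e (nat_lit 81965) (nat_lit 26) (.e (nat_lit 147467) (nat_lit 9) (.e (nat_lit 314) (nat_lit 23) (.e (nat_lit 352290) (nat_lit 20) .nil)))) .nil))) (.nd (nat_lit 5) 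
(.lf (nat_lit 212118) (.g (nat_lit 1953) (.e (nat_lit 81965) (nat_lit 26) (.e (nat_lit 147465) (nat_lit 9) (.e (nat_lit 334) (nat_lit 26) (.e (nat_lit 376860) (nat_lit 21) (.e (nat_lit 57664) (nat_lit 152) (.e (nat_lit 7936) (nat_lit 90) .nil)))))) (.g (nat_lit 4) .nil .nil))) 
(.lf (nat_lit 212150) (.g (nat_lit 1196) (.e (nat_lit 81965) (nat_lit 26) (.e (nat_lit 147467) (nat_lit 9) (.e (nat_lit 324) (nat_lit 24) (.e (nat_lit 360452) (nat_lit 0) (.e (nat_lit 7936) (nat_lit 382) .nil))))) .nil)))) (.nd (nat_lit 4) (.nd (nat_lit 5) 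
(.lf (nat_lit 212110) (.g (nat_lit 1993) (.e (nat_lit 81965) (nat_lit 26) (.e (nat_lit 147465) (nat_lit 9) (.e (nat_lit 334) (nat_lit 26) (.e (nat_lit 376857) (nat_lit 21) (.e (nat_lit 57663) (nat_lit 152) (.e (nat_lit 7936) (nat_lit 90) .nil)))))) (.g (nat_lit 4) .nil .nil))) 
(.lf (nat_lit 212142) (.g (nat_lit 1792) (.e (nat_lit 81965) (nat_lit 26) (.e (nat_lit 147467) (nat_lit 9) (.e (nat_lit 321) (nat_lit 24) (.e (nat_lit 360449) (nat_lit 0) (.e (nat_lit 7119) (nat_lit 382) (.e (nat_lit 7936) (nat_lit 90) .nil)))))) (.g (nat_lit 4) .nil .nil)))) (.nd (nat_lit 5) 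
(.lf (nat_lit 212126) (.g (nat_lit 409) (.e (nat_lit 81965) (nat_lit 26) (.e (nat_lit 147466) (nat_lit 9) (.e (nat_lit 324) (nat_lit 24) .nil))) .nil)) 
(.lf (nat_lit 212158) (.g (nat_lit 1607) (.e (nat_lit 81965) (nat_lit 26) (.e (nat_lit 147467) (nat_lit 9) (.e (nat_lit 334) (nat_lit 26) (.e (nat_lit 376859) (nat_lit 21) (.e (nat_lit 57666) (nat_lit 152) (.e (nat_lit 7936) (nat_lit 90) .nil)))))) (.g (nat_lit 4) .nil .nil)))))))) (.nd (nat_lit 1) (.nd (nat_lit 2) (.nd (nat_lit 3) (.nd (nat_lit 4) (.nd (nat_lit 5) 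
(.lf (nat_lit 212097) (.g (nat_lit 1622) (.e (nat_lit 81965) (nat_lit 26) (.e (nat_lit 147463) (nat_lit 9) (.e (nat_lit 322) (nat_lit 24) (.e (nat_lit 360451) (nat_lit 0) (.e (nat_lit 7119) (nat_lit 382) (.e (nat_lit 7936) (nat_lit 90) .nil)))))) (.g (nat_lit 4) .nil .nil))) 
(.lf (nat_lit 212129) (.g (nat_lit 2082) (.e (nat_lit 81965) (nat_lit 26) (.e (nat_lit 147466) (nat_lit 9) (.e (nat_lit 324) (nat_lit 24) (.e (nat_lit 360449) (nat_lit 0) (.e (nat_lit 7124) (nat_lit 382) (.e (nat_lit 7936) (nat_lit 90) .nil)))))) (.g (nat_lit 5) .nil .nil)))) (.nd (nat_lit 5) 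
(.lf (nat_lit 212113) (.g (nat_lit 1482) (.e (nat_lit 81965) (nat_lit 26) (.e (nat_lit 147465) (nat_lit 9) (.e (nat_lit 334) (nat_lit 26) (.e (nat_lit 376859) (nat_lit 21) (.e (nat_lit 57657) (nat_lit 152) (.e (nat_lit 7936) (nat_lit 90) .nil)))))) (.g (nat_lit 4) .nil .nil))) 
(.lf (nat_lit 212145) (.g (nat_lit 2469) (.e (nat_lit 81965) (nat_lit 26) (.e (nat_lit 147467) (nat_lit 9) (.e (nat_lit 321) (nat_lit 24) (.e (nat_lit 360489) (nat_lit 21) (.e (nat_lit 770074) (nat_lit 10) .nil))))) (.g (nat_lit 0) .nil .nil))))) (.nd (nat_lit 4) (.nd (nat_lit 5) 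
(.lf (nat_lit 212105) (.g (nat_lit 1510) (.e (nat_lit 81965) (nat_lit 26) (.e (nat_lit 147464) (nat_lit 9) (.e (nat_lit 334) (nat_lit 26) (.e (nat_lit 376857) (nat_lit 21) (.e (nat_lit 57665) (nat_lit 152) (.e (nat_lit 7936) (nat_lit 90) .nil)))))) (.g (nat_lit 4) .nil .nil))) 
(.lf (nat_lit 212137) (.g (nat_lit 3241) (.e (nat_lit 81965) (nat_lit 26) (.e (nat_lit 147467) (nat_lit 9) (.e (nat_lit 314) (nat_lit 23) (.e (nat_lit 352307) (nat_lit 21) (.e (nat_lit 57655) (nat_lit 152) (.e (nat_lit 1217) (nat_lit 90) .nil)))))) (.g (nat_lit 0) .nil .nil)))) (.nd (nat_lit 5) 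
(.lf (nat_lit 212121) (.g (nat_lit 1549) (.e (nat_lit 81965) (nat_lit 26) (.e (nat_lit 147466) (nat_lit 9) (.e (nat_lit 232) (nat_lit 21) (.e (nat_lit 336060) (nat_lit 7) (.e (nat_lit 319504) (nat_lit 10) .nil))))) .nil)) 
(.lf (nat_lit 212153) (.g (nat_lit 1515) (.e (nat_lit 81965) (nat_lit 26) (.e (nat_lit 147467) (nat_lit 9) (.e (nat_lit 334) (nat_lit 26) (.e (nat_lit 376857) (nat_lit 21) (.e (nat_lit 57657) (nat_lit 152) (.e (nat_lit 7936) (nat_lit 90) .nil)))))) (.g (nat_lit 4) .nil .nil)))))) (.nd (nat_lit 3) (.nd (nat_lit 4) (.nd (nat_lit 5) 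
(.lf (nat_lit 212101) (.g (nat_lit 1665) (.e (nat_lit 81965) (nat_lit 26) (.e (nat_lit 147463) (nat_lit 9) (.e (nat_lit 334) (nat_lit 26) (.e (nat_lit 376857) (nat_lit 21) (.e (nat_lit 57665) (nat_lit 152) (.e (nat_lit 7936) (nat_lit 90) .nil)))))) (.g (nat_lit 4) .nil .nil))) 
(.lf (nat_lit 212133) (.g (nat_lit 891) (.e (nat_lit 81965) (nat_lit 26) (.e (nat_lit 147467) (nat_lit 9) (.e (nat_lit 297) (nat_lit 22) (.e (nat_lit 344074) (nat_lit 13) .nil)))) .nil))) (.nd (nat_lit 5) 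
(.lf (nat_lit 212117) (.g (nat_lit 1709) (.e (nat_lit 81965) (nat_lit 26) (.e (nat_lit 147465) (nat_lit 9) (.e (nat_lit 334) (nat_lit 26) (.e (nat_lit 376860) (nat_lit 21) (.e (nat_lit 57663) (nat_lit 152) (.e (nat_lit 7936) (nat_lit 90) .nil)))))) (.g (nat_lit 4) .nil .nil))) 
(.lf (nat_lit 212149) (.g (nat_lit 2022) (.e (nat_lit 81965) (nat_lit 26) (.e (nat_lit 147467) (nat_lit 9) (.e (nat_lit 324) (nat_lit 24) (.e (nat_lit 360449) (nat_lit 0) (.e (nat_lit 7124) (nat_lit 382) (.e (nat_lit 7936) (nat_lit 90) .nil)))))) (.g (nat_lit 5) .nil .nil))))) (.nd (nat_lit 4) (.nd (nat_lit 5) 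
(.lf (nat_lit 212109) (.g (nat_lit 1741) (.e (nat_lit 81965) (nat_lit 26) (.e (nat_lit 147465) (nat_lit 9) (.e (nat_lit 334) (nat_lit 26) (.e (nat_lit 376857) (nat_lit 21) (.e (nat_lit 57657) (nat_lit 152) (.e (nat_lit 7936) (nat_lit 90) .nil)))))) (.g (nat_lit 4) .nil .nil))) 
(.lf (nat_lit 212141) (.g (nat_lit 329) (.e (nat_lit 81965) (nat_lit 26) (.e (nat_lit 147467) (nat_lit 9) (.e (nat_lit 321) (nat_lit 24) .nil))) .nil))) (.nd (nat_lit 5) 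
(.lf (nat_lit 212125) (.g (nat_lit 1650) (.e (nat_lit 81965) (nat_lit 26) (.e (nat_lit 147466) (nat_lit 9) (.e (nat_lit 321) (nat_lit 24) (.e (nat_lit 360488) (nat_lit 20) (.e (nat_lit 769792) (nat_lit 10) .nil))))) (.g (nat_lit 4) .nil .nil))) 
(.lf (nat_lit 212157) (.g (nat_lit 1401) (.e (nat_lit 81965) (nat_lit 26) (.e (nat_lit 147467) (nat_lit 9) (.e (nat_lit 334) (nat_lit 26) (.e (nat_lit 376857) (nat_lit 21) (.e (nat_lit 65280) (nat_lit 152) .nil))))) .nil)))))) (.nd (nat_lit 2) (.nd (nat_lit 3) (.nd (nat_lit 4) (.nd (nat_lit 5) 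
(.lf (nat_lit 212099) (.g (nat_lit 1390) (.e (nat_lit 81965) (nat_lit 26) (.e (nat_lit 147463) (nat_lit 9) (.e (nat_lit 322) (nat_lit 24) (.e (nat_lit 360451) (nat_lit 0) (.e (nat_lit 7132) (nat_lit 382) (.e (nat_lit 7936) (nat_lit 90) .nil)))))) (.g (nat_lit 4) .nil .nil))) 
(.lf (nat_lit 212131) (.g (nat_lit 437) (.e (nat_lit 81965) (nat_lit 26) (.e (nat_lit 147466) (nat_lit 9) (.e (nat_lit 328) (nat_lit 25) .nil))) .nil))) (.nd (nat_lit 5) 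
(.lf (nat_lit 212115) (.g (nat_lit 1394) (.e (nat_lit 81965) (nat_lit 26) (.e (nat_lit 147465) (nat_lit 9) (.e (nat_lit 334) (nat_lit 26) (.e (nat_lit 376859) (nat_lit 21) (.e (nat_lit 57671) (nat_lit 152) (.e (nat_lit 7936) (nat_lit 90) .nil)))))) (.g (nat_lit 4) .nil .nil))) 
(.lf (nat_lit 212147) (.g (nat_lit 2131) (.e (nat_lit 81965) (nat_lit 26) (.e (nat_lit 147467) (nat_lit 9) (.e (nat_lit 324) (nat_lit 24) (.e (nat_lit 360449) (nat_lit 0) (.e (nat_lit 7119) (nat_lit 382) (.e (nat_lit 7936) (nat_lit 90) .nil)))))) (.g (nat_lit 5) .nil .nil))))) (.nd (nat_lit 4) (.nd (nat_lit 5) 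
(.lf (nat_lit 212107) (.g (nat_lit 1382) (.e (nat_lit 81965) (nat_lit 26) (.e (nat_lit 147464) (nat_lit 9) (.e (nat_lit 334) (nat_lit 26) (.e (nat_lit 376860) (nat_lit 21) (.e (nat_lit 57665) (nat_lit 152) (.e (nat_lit 7936) (nat_lit 90) .nil)))))) (.g (nat_lit 4) .nil .nil))) 
(.lf (nat_lit 212139) (.g (nat_lit 1862) (.e (nat_lit 81965) (nat_lit 26) (.e (nat_lit 147467) (nat_lit 9) (.e (nat_lit 314) (nat_lit 23) (.e (nat_lit 352316) (nat_lit 24) (.e (nat_lit 130816) (nat_lit 152) .nil))))) .nil))) (.nd (nat_lit 5) 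
(.lf (nat_lit 212123) (.g (nat_lit 1846) (.e (nat_lit 81965) (nat_lit 26) (.e (nat_lit 147466) (nat_lit 9) (.e (nat_lit 321) (nat_lit 24) (.e (nat_lit 360449) (nat_lit 0) (.e (nat_lit 7119) (nat_lit 382) (.e (nat_lit 7936) (nat_lit 90) .nil)))))) (.g (nat_lit 4) .nil .nil))) 
(.lf (nat_lit 212155) (.g (nat_lit 1980) (.e (nat_lit 81965) (nat_lit 26) (.e (nat_lit 147467) (nat_lit 9) (.e (nat_lit 334) (nat_lit 26) (.e (nat_lit 376857) (nat_lit 21) (.e (nat_lit 57664) (nat_lit 152) (.e (nat_lit 7936) (nat_lit 90) .nil)))))) (.g (nat_lit 4) .nil .nil)))))) (.nd (nat_lit 3) (.nd (nat_lit 4) (.nd (nat_lit 5) 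
(.lf (nat_lit 212103) (.g (nat_lit 1382) (.e (nat_lit 81965) (nat_lit 26) (.e (nat_lit 147463) (nat_lit 9) (.e (nat_lit 334) (nat_lit 26) (.e (nat_lit 376860) (nat_lit 21) (.e (nat_lit 57665) (nat_lit 152) (.e (nat_lit 7936) (nat_lit 90) .nil)))))) (.g (nat_lit 4) .nil .nil))) 
(.lf (nat_lit 212135) (.g (nat_lit 955) (.e (nat_lit 81965) (nat_lit 26) (.e (nat_lit 147467) (nat_lit 9) (.e (nat_lit 314) (nat_lit 23) (.e (nat_lit 352297) (nat_lit 20) .nil)))) .nil))) (.nd (nat_lit 5) 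
(.lf (nat_lit 212119) (.g (nat_lit 2068) (.e (nat_lit 81965) (nat_lit 26) (.e (nat_lit 147465) (nat_lit 9) (.e (nat_lit 334) (nat_lit 26) (.e (nat_lit 376860) (nat_lit 21) (.e (nat_lit 57665) (nat_lit 152) (.e (nat_lit 7936) (nat_lit 90) .nil)))))) (.g (nat_lit 5) .nil .nil))) 
(.lf (nat_lit 212151) (.g (nat_lit 1542) (.e (nat_lit 81965) (nat_lit 26) (.e (nat_lit 147467) (nat_lit 9) (.e (nat_lit 324) (nat_lit 24) (.e (nat_lit 360488) (nat_lit 20) (.e (nat_lit 769792) (nat_lit 10) .nil))))) (.g (nat_lit 4) .nil .nil))))) (.nd (nat_lit 4) (.nd (nat_lit 5) 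
(.lf (nat_lit 212111) (.g (nat_lit 2197) (.e (nat_lit 81965) (nat_lit 26) (.e (nat_lit 147465) (nat_lit 9) (.e (nat_lit 334) (nat_lit 26) (.e (nat_lit 376857) (nat_lit 21) (.e (nat_lit 57664) (nat_lit 152) (.e (nat_lit 7936) (nat_lit 90) .nil)))))) (.g (nat_lit 5) .nil .nil))) 
(.lf (nat_lit 212143) (.g (nat_lit 1693) (.e (nat_lit 81965) (nat_lit 26) (.e (nat_lit 147467) (nat_lit 9) (.e (nat_lit 321) (nat_lit 24) (.e (nat_lit 360449) (nat_lit 0) (.e (nat_lit 7124) (nat_lit 382) (.e (nat_lit 7936) (nat_lit 90) .nil)))))) (.g (nat_lit 4) .nil .nil)))) (.nd (nat_lit 5) 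
(.lf (nat_lit 212127) (.g (nat_lit 2200) (.e (nat_lit 81965) (nat_lit 26) (.e (nat_lit 147466) (nat_lit 9) (.e (nat_lit 324) (nat_lit 24) (.e (nat_lit 360449) (nat_lit 0) (.e (nat_lit 7119) (nat_lit 382) (.e (nat_lit 7936) (nat_lit 90) .nil)))))) (.g (nat_lit 5) .nil .nil))) 
(.lf (nat_lit 212159) (.g (nat_lit 1820) (.e (nat_lit 81965) (nat_lit 26) (.e (nat_lit 147467) (nat_lit 9) (.e (nat_lit 334) (nat_lit 26) (.e (nat_lit 376860) (nat_lit 21) (.e (nat_lit 57664) (nat_lit 152) (.e (nat_lit 7936) (nat_lit 90) .nil)))))) (.g (nat_lit 4) .nil .nil)))))))))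

noncomputable def tv2803 : DT := (.nd (nat_lit 0) (.nd (nat_lit 1) (.nd (nat_lit 2) (.nd (nat_lit 3) (.nd (nat_lit 4) (.nd (nat_lit 5) 
(.lf (nat_lit 212160) (.g (nat_lit 1954) (.e (nat_lit 81965) (nat_lit 26) (.e (nat_lit 147467) (nat_lit 9) (.e (nat_lit 334) (nat_lit 26) (.e (nat_lit 376860) (nat_lit 21) (.e (nat_lit 57665) (nat_lit 152) (.e (nat_lit 7936) (nat_lit 90) .nil)))))) (.g (nat_lit 5) .nil .nil))) 
(.lf (nat_lit 212192) (.g (nat_lit 1848) (.e (nat_lit 81965) (nat_lit 26) (.e (nat_lit 147492) (nat_lit 11) (.e (nat_lit 24664) (nat_lit 14) (.e (nat_lit 401414) (nat_lit 0) (.e (nat_lit 7936) (nat_lit 216) (.e (nat_lit 688186) (nat_lit 18) .nil)))))) (.g (nat_lit 4) .nil .nil)))) (.nd (nat_lit 5) 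
(.lf (nat_lit 212176) (.g (nat_lit 861) (.e (nat_lit 81965) (nat_lit 26) (.e (nat_lit 147492) (nat_lit 11) (.e (nat_lit 24627) (nat_lit 9) (.e (nat_lit 336312) (nat_lit 16) .nil)))) .nil)) 
(.lf (nat_lit 212208) (.g (nat_lit 2448) (.e (nat_lit 81965) (nat_lit 26) (.e (nat_lit 147492) (nat_lit 11) (.e (nat_lit 24665) (nat_lit 14) (.e (nat_lit 401420) (nat_lit 1) (.e (nat_lit 164163) (nat_lit 152) (.e (nat_lit 1221) (nat_lit 90) .nil)))))) (.g (nat_lit 0) .nil .nil))))) (.nd (nat_lit 4) (.nd (nat_lit 5) 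
(.lf (nat_lit 212168) (.g (nat_lit 3710) (.e (nat_lit 81965) (nat_lit 26) (.e (nat_lit 147492) (nat_lit 11) (.e (nat_lit 24617) (nat_lit 7) (.e (nat_lit 319505) (nat_lit 10) (.e (nat_lit 720) (nat_lit 64) (.e (nat_lit 688186) (nat_lit 18) .nil)))))) (.g (nat_lit 6) .nil .nil))) 
(.lf (nat_lit 212200) (.g (nat_lit 2419) (.e (nat_lit 81965) (nat_lit 26) (.e (nat_lit 147492) (nat_lit 11) (.e (nat_lit 24665) (nat_lit 14) (.e (nat_lit 401414) (nat_lit 0) (.e (nat_lit 2438) (nat_lit 157) (.e (nat_lit 6301) (nat_lit 337) (.e (nat_lit 1221) (nat_lit 90) .nil))))))) (.g (nat_lit 4) .nil .nil)))) (.nd (nat_lit 5) 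
(.lf (nat_lit 212184) (.g (nat_lit 1724) (.e (nat_lit 81965) (nat_lit 26) (.e (nat_lit 147492) (nat_lit 11) (.e (nat_lit 24640) (nat_lit 10) (.e (nat_lit 344088) (nat_lit 18) (.e (nat_lit 7233) (nat_lit 382) .nil))))) .nil)) 
(.lf (nat_lit 212216) (.g (nat_lit 3453) (.e (nat_lit 81965) (nat_lit 26) (.e (nat_lit 147493) (nat_lit 11) (.e (nat_lit 24665) (nat_lit 14) (.e (nat_lit 401414) (nat_lit 0) (.e (nat_lit 3459) (nat_lit 216) (.e (nat_lit 696064) (nat_lit 18) .nil)))))) (.g (nat_lit 5) .nil .nil)))))) (.nd (nat_lit 3) (.nd (nat_lit 4) (.nd (nat_lit 5) 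
(.lf (nat_lit 212164) (.g (nat_lit 1290) (.e (nat_lit 81965) (nat_lit 26) (.e (nat_lit 147492) (nat_lit 11) (.e (nat_lit 24617) (nat_lit 7) (.e (nat_lit 319502) (nat_lit 10) (.e (nat_lit 7936) (nat_lit 64) .nil))))) .nil)) 
(.lf (nat_lit 212196) (.g (nat_lit 2546) (.e (nat_lit 81965) (nat_lit 26) (.e (nat_lit 147492) (nat_lit 11) (.e (nat_lit 24665) (nat_lit 14) (.e (nat_lit 401413) (nat_lit 0) (.e (nat_lit 3459) (nat_lit 216) (.e (nat_lit 688183) (nat_lit 18) .nil)))))) (.g (nat_lit 5) .nil .nil)))) (.nd (nat_lit 5) 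
(.lf (nat_lit 212180) (.g (nat_lit 2000) (.e (nat_lit 81965) (nat_lit 26) (.e (nat_lit 147492) (nat_lit 11) (.e (nat_lit 24638) (nat_lit 9) (.e (nat_lit 335986) (nat_lit 1) (.e (nat_lit 65280) (nat_lit 152) (.e (nat_lit 1221) (nat_lit 90) .nil)))))) (.g (nat_lit 4) .nil .nil))) 
(.lf (nat_lit 212212) (.g (nat_lit 1743) (.e (nat_lit 81965) (nat_lit 26) (.e (nat_lit 147493) (nat_lit 11) (.e (nat_lit 24638) (nat_lit 9) (.e (nat_lit 335988) (nat_lit 1) (.e (nat_lit 65280) (nat_lit 152) (.e (nat_lit 1220) (nat_lit 90) .nil)))))) (.g (nat_lit 4) .nil .nil))))) (.nd (nat_lit 4) (.nd (nat_lit 5) 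
(.lf (nat_lit 212172) (.g (nat_lit 1394) (.e (nat_lit 81965) (nat_lit 26) (.e (nat_lit 147492) (nat_lit 11) (.e (nat_lit 24621) (nat_lit 8) (.e (nat_lit 327682) (nat_lit 0) (.e (nat_lit 848) (nat_lit 73) (.e (nat_lit 769792) (nat_lit 10) .nil)))))) (.g (nat_lit 5) .nil .nil))) 
(.lf (nat_lit 212204) (.g (nat_lit 3205) (.e (nat_lit 81965) (nat_lit 26) (.e (nat_lit 147492) (nat_lit 11) (.e (nat_lit 24665) (nat_lit 14) (.e (nat_lit 401414) (nat_lit 0) (.e (nat_lit 3459) (nat_lit 216) (.e (nat_lit 688183) (nat_lit 18) .nil)))))) (.g (nat_lit 5) .nil .nil)))) (.nd (nat_lit 5) 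
(.lf (nat_lit 212188) (.g (nat_lit 863) (.e (nat_lit 81965) (nat_lit 26) (.e (nat_lit 147492) (nat_lit 11) (.e (nat_lit 24664) (nat_lit 14) (.e (nat_lit 401411) (nat_lit 0) .nil)))) .nil)) 
(.lf (nat_lit 212220) (.g (nat_lit 1332) (.e (nat_lit 81965) (nat_lit 26) (.e (nat_lit 147494) (nat_lit 11) (.e (nat_lit 24638) (nat_lit 9) (.e (nat_lit 335892) (nat_lit 0) (.e (nat_lit 2275) (nat_lit 150) .nil))))) .nil)))))) (.nd (nat_lit 2) (.nd (nat_lit 3) (.nd (nat_lit 4) (.nd (nat_lit 5) 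
(.lf (nat_lit 212162) (.g (nat_lit 2794) (.e (nat_lit 81965) (nat_lit 26) (.e (nat_lit 147492) (nat_lit 11) (.e (nat_lit 24580) (nat_lit 0) (.e (nat_lit 6084) (nat_lit 332) (.e (nat_lit 999) (nat_lit 81) (.e (nat_lit 720) (nat_lit 64) (.e (nat_lit 688186) (nat_lit 18) .nil))))))) (.g (nat_lit 7) .nil .nil))) 
(.lf (nat_lit 212194) (.g (nat_lit 2942) (.e (nat_lit 81965) (nat_lit 26) (.e (nat_lit 147492) (nat_lit 11) (.e (nat_lit 24664) (nat_lit 14) (.e (nat_lit 401414) (nat_lit 0) (.e (nat_lit 3469) (nat_lit 217) (.e (nat_lit 696363) (nat_lit 18) .nil)))))) (.g (nat_lit 5) .nil .nil)))) (.nd (nat_lit 5) 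
(.lf (nat_lit 212178) (.g (nat_lit 2864) (.e (nat_lit 81965) (nat_lit 26) (.e (nat_lit 147492) (nat_lit 11) (.e (nat_lit 24638) (nat_lit 9) (.e (nat_lit 335986) (nat_lit 1) (.e (nat_lit 57655) (nat_lit 152) (.e (nat_lit 1216) (nat_lit 90) .nil)))))) (.g (nat_lit 6) .nil .nil))) 
(.lf (nat_lit 212210) (.g (nat_lit 1495) (.e (nat_lit 81965) (nat_lit 26) (.e (nat_lit 147493) (nat_lit 11) (.e (nat_lit 24638) (nat_lit 9) (.e (nat_lit 335987) (nat_lit 1) (.e (nat_lit 57665) (nat_lit 152) (.e (nat_lit 7936) (nat_lit 90) .nil)))))) (.g (nat_lit 4) .nil .nil))))) (.nd (nat_lit 4) (.nd (nat_lit 5) 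
(.lf (nat_lit 212170) (.g (nat_lit 2302) (.e (nat_lit 81965) (nat_lit 26) (.e (nat_lit 147492) (nat_lit 11) (.e (nat_lit 24617) (nat_lit 7) (.e (nat_lit 319505) (nat_lit 10) (.e (nat_lit 7936) (nat_lit 64) (.e (nat_lit 688186) (nat_lit 18) .nil)))))) (.g (nat_lit 4) .nil .nil))) 
(.lf (nat_lit 212202) (.g (nat_lit 2226) (.e (nat_lit 81965) (nat_lit 26) (.e (nat_lit 147492) (nat_lit 11) (.e (nat_lit 24665) (nat_lit 14) (.e (nat_lit 401414) (nat_lit 0) (.e (nat_lit 2468) (nat_lit 157) .nil))))) .nil))) (.nd (nat_lit 5) 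
(.lf (nat_lit 212186) (.g (nat_lit 1466) (.e (nat_lit 81965) (nat_lit 26) (.e (nat_lit 147492) (nat_lit 11) (.e (nat_lit 24644) (nat_lit 11) (.e (nat_lit 368662) (nat_lit 18) (.e (nat_lit 7147) (nat_lit 382) (.e (nat_lit 1216) (nat_lit 90) .nil)))))) (.g (nat_lit 4) .nil .nil))) 
(.lf (nat_lit 212218) (.g (nat_lit 887) (.e (nat_lit 81965) (nat_lit 26) (.e (nat_lit 147494) (nat_lit 11) (.e (nat_lit 24638) (nat_lit 9) (.e (nat_lit 335892) (nat_lit 0) .nil)))) .nil))))) (.nd (nat_lit 3) (.nd (nat_lit 4) (.nd (nat_lit 5) 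
(.lf (nat_lit 212166) (.g (nat_lit 2330) (.e (nat_lit 81965) (nat_lit 26) (.e (nat_lit 147492) (nat_lit 11) (.e (nat_lit 24617) (nat_lit 7) (.e (nat_lit 319504) (nat_lit 10) (.e (nat_lit 7936) (nat_lit 64) (.e (nat_lit 688186) (nat_lit 18) .nil)))))) (.g (nat_lit 4) .nil .nil))) 
(.lf (nat_lit 212198) (.g (nat_lit 908) (.e (nat_lit 81965) (nat_lit 26) (.e (nat_lit 147492) (nat_lit 11) (.e (nat_lit 24665) (nat_lit 14) (.e (nat_lit 401414) (nat_lit 0) .nil)))) .nil))) (.nd (nat_lit 5) 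
(.lf (nat_lit 212182) (.g (nat_lit 2337) (.e (nat_lit 81965) (nat_lit 26) (.e (nat_lit 147492) (nat_lit 11) (.e (nat_lit 24638) (nat_lit 9) (.e (nat_lit 335988) (nat_lit 1) (.e (nat_lit 57665) (nat_lit 152) (.e (nat_lit 7936) (nat_lit 90) .nil)))))) (.g (nat_lit 5) .nil .nil))) 
(.lf (nat_lit 212214) (.g (nat_lit 2241) (.e (nat_lit 81965) (nat_lit 26) (.e (nat_lit 147493) (nat_lit 11) (.e (nat_lit 24665) (nat_lit 14) (.e (nat_lit 401413) (nat_lit 0) (.e (nat_lit 3452) (nat_lit 216) .nil))))) .nil)))) (.nd (nat_lit 4) (.nd (nat_lit 5) 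
(.lf (nat_lit 212174) (.g (nat_lit 2337) (.e (nat_lit 81965) (nat_lit 26) (.e (nat_lit 147492) (nat_lit 11) (.e (nat_lit 24627) (nat_lit 9) (.e (nat_lit 335999) (nat_lit 1) (.e (nat_lit 57655) (nat_lit 152) (.e (nat_lit 1216) (nat_lit 90) .nil)))))) (.g (nat_lit 6) .nil .nil))) 
(.lf (nat_lit 212206) (.g (nat_lit 3538) (.e (nat_lit 81965) (nat_lit 26) (.e (nat_lit 147492) (nat_lit 11) (.e (nat_lit 24665) (nat_lit 14) (.e (nat_lit 401414) (nat_lit 0) (.e (nat_lit 3469) (nat_lit 217) (.e (nat_lit 696363) (nat_lit 18) .nil)))))) (.g (nat_lit 5) .nil .nil)))) (.nd (nat_lit 5) 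
(.lf (nat_lit 212190) (.g (nat_lit 2169) (.e (nat_lit 81965) (nat_lit 26) (.e (nat_lit 147492) (nat_lit 11) (.e (nat_lit 24664) (nat_lit 14) (.e (nat_lit 401414) (nat_lit 0) (.e (nat_lit 2458) (nat_lit 157) (.e (nat_lit 6306) (nat_lit 337) (.e (nat_lit 1221) (nat_lit 90) .nil))))))) (.g (nat_lit 4) .nil .nil))) 
(.lf (nat_lit 212222) (.g (nat_lit 1361) (.e (nat_lit 81965) (nat_lit 26) (.e (nat_lit 147494) (nat_lit 11) (.e (nat_lit 24638) (nat_lit 9) (.e (nat_lit 335893) (nat_lit 0) (.e (nat_lit 2284) (nat_lit 150) .nil))))) .nil))))))) (.nd (nat_lit 1) (.nd (nat_lit 2) (.nd (nat_lit 3) (.nd (nat_lit 4) (.nd (nat_lit 5) 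
(.lf (nat_lit 212161) (.g (nat_lit 1717) (.e (nat_lit 81965) (nat_lit 26) (.e (nat_lit 147467) (nat_lit 9) (.e (nat_lit 334) (nat_lit 26) (.e (nat_lit 376860) (nat_lit 21) (.e (nat_lit 57671) (nat_lit 152) (.e (nat_lit 7936) (nat_lit 90) .nil)))))) (.g (nat_lit 4) .nil .nil))) 
(.lf (nat_lit 212193) (.g (nat_lit 2528) (.e (nat_lit 81965) (nat_lit 26) (.e (nat_lit 147492) (nat_lit 11) (.e (nat_lit 24664) (nat_lit 14) (.e (nat_lit 401414) (nat_lit 0) (.e (nat_lit 3468) (nat_lit 217) (.e (nat_lit 696363) (nat_lit 18) .nil)))))) (.g (nat_lit 5) .nil .nil)))) (.nd (nat_lit 5) 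
(.lf (nat_lit 212177) (.g (nat_lit 2517) (.e (nat_lit 81965) (nat_lit 26) (.e (nat_lit 147492) (nat_lit 11) (.e (nat_lit 24628) (nat_lit 9) (.e (nat_lit 336000) (nat_lit 1) (.e (nat_lit 57655) (nat_lit 152) (.e (nat_lit 1216) (nat_lit 90) .nil)))))) (.g (nat_lit 6) .nil .nil))) 
(.lf (nat_lit 212209) (.g (nat_lit 1487) (.e (nat_lit 81965) (nat_lit 26) (.e (nat_lit 147492) (nat_lit 11) (.e (nat_lit 24665) (nat_lit 14) (.e (nat_lit 401463) (nat_lit 15) .nil)))) .nil)))) (.nd (nat_lit 4) (.nd (nat_lit 5) 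
(.lf (nat_lit 212169) (.g (nat_lit 1715) (.e (nat_lit 81965) (nat_lit 26) (.e (nat_lit 147492) (nat_lit 11) (.e (nat_lit 24617) (nat_lit 7) (.e (nat_lit 319505) (nat_lit 10) (.e (nat_lit 7936) (nat_lit 64) .nil))))) .nil)) 
(.lf (nat_lit 212201) (.g (nat_lit 2450) (.e (nat_lit 81965) (nat_lit 26) (.e (nat_lit 147492) (nat_lit 11) (.e (nat_lit 24665) (nat_lit 14) (.e (nat_lit 401414) (nat_lit 0) (.e (nat_lit 2438) (nat_lit 157) (.e (nat_lit 6317) (nat_lit 337) (.e (nat_lit 1221) (nat_lit 90) .nil))))))) (.g (nat_lit 4) .nil .nil)))) (.nd (nat_lit 5) 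
(.lf (nat_lit 212185) (.g (nat_lit 1708) (.e (nat_lit 81965) (nat_lit 26) (.e (nat_lit 147492) (nat_lit 11) (.e (nat_lit 24643) (nat_lit 11) (.e (nat_lit 368662) (nat_lit 18) (.e (nat_lit 7147) (nat_lit 382) (.e (nat_lit 1216) (nat_lit 90) .nil)))))) (.g (nat_lit 5) .nil .nil))) 
(.lf (nat_lit 212217) (.g (nat_lit 1115) (.e (nat_lit 81965) (nat_lit 26) (.e (nat_lit 147494) (nat_lit 11) (.e (nat_lit 24580) (nat_lit 0) (.e (nat_lit 6203) (nat_lit 332) .nil)))) .nil))))) (.nd (nat_lit 3) (.nd (nat_lit 4) (.nd (nat_lit 5) 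
(.lf (nat_lit 212165) (.g (nat_lit 1817) (.e (nat_lit 81965) (nat_lit 26) (.e (nat_lit 147492) (nat_lit 11) (.e (nat_lit 24617) (nat_lit 7) (.e (nat_lit 319504) (nat_lit 10) (.e (nat_lit 7936) (nat_lit 64) .nil))))) .nil)) 
(.lf (nat_lit 212197) (.g (nat_lit 2542) (.e (nat_lit 81965) (nat_lit 26) (.e (nat_lit 147492) (nat_lit 11) (.e (nat_lit 24665) (nat_lit 14) (.e (nat_lit 401413) (nat_lit 0) (.e (nat_lit 3459) (nat_lit 216) (.e (nat_lit 696064) (nat_lit 18) .nil)))))) (.g (nat_lit 5) .nil .nil)))) (.nd (nat_lit 5) 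
(.lf (nat_lit 212181) (.g (nat_lit 1523) (.e (nat_lit 81965) (nat_lit 26) (.e (nat_lit 147492) (nat_lit 11) (.e (nat_lit 24638) (nat_lit 9) (.e (nat_lit 335987) (nat_lit 1) (.e (nat_lit 57665) (nat_lit 152) (.e (nat_lit 7936) (nat_lit 90) .nil)))))) (.g (nat_lit 4) .nil .nil))) 
(.lf (nat_lit 212213) (.g (nat_lit 1374) (.e (nat_lit 81965) (nat_lit 26) (.e (nat_lit 147493) (nat_lit 11) (.e (nat_lit 24665) (nat_lit 14) (.e (nat_lit 401408) (nat_lit 0) .nil)))) .nil)))) (.nd (nat_lit 4) (.nd (nat_lit 5) 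
(.lf (nat_lit 212173) (.g (nat_lit 1820) (.e (nat_lit 81965) (nat_lit 26) (.e (nat_lit 147492) (nat_lit 11) (.e (nat_lit 24623) (nat_lit 9) (.e (nat_lit 335997) (nat_lit 1) (.e (nat_lit 65280) (nat_lit 152) .nil))))) .nil)) 
(.lf (nat_lit 212205) (.g (nat_lit 3048) (.e (nat_lit 81965) (nat_lit 26) (.e (nat_lit 147492) (nat_lit 11) (.e (nat_lit 24665) (nat_lit 14) (.e (nat_lit 401414) (nat_lit 0) (.e (nat_lit 3459) (nat_lit 216) (.e (nat_lit 696064) (nat_lit 18) .nil)))))) (.g (nat_lit 5) .nil .nil)))) (.nd (nat_lit 5) 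
(.lf (nat_lit 212189) (.g (nat_lit 1913) (.e (nat_lit 81965) (nat_lit 26) (.e (nat_lit 147492) (nat_lit 11) (.e (nat_lit 24664) (nat_lit 14) (.e (nat_lit 401414) (nat_lit 0) (.e (nat_lit 2438) (nat_lit 157) .nil))))) .nil)) 
(.lf (nat_lit 212221) (.g (nat_lit 1324) (.e (nat_lit 81965) (nat_lit 26) (.e (nat_lit 147494) (nat_lit 11) (.e (nat_lit 24638) (nat_lit 9) (.e (nat_lit 335892) (nat_lit 0) (.e (nat_lit 2276) (nat_lit 150) .nil))))) .nil)))))) (.nd (nat_lit 2) (.nd (nat_lit 3) (.nd (nat_lit 4) (.nd (nat_lit 5) 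
(.lf (nat_lit 212163) (.g (nat_lit 2654) (.e (nat_lit 81965) (nat_lit 26) (.e (nat_lit 147492) (nat_lit 11) (.e (nat_lit 24580) (nat_lit 0) (.e (nat_lit 6714) (nat_lit 360) (.e (nat_lit 164020) (nat_lit 45) (.e (nat_lit 696363) (nat_lit 18) .nil)))))) (.g (nat_lit 6) .nil .nil))) 
(.lf (nat_lit 212195) (.g (nat_lit 958) (.e (nat_lit 81965) (nat_lit 26) (.e (nat_lit 147492) (nat_lit 11) (.e (nat_lit 24664) (nat_lit 14) (.e (nat_lit 401420) (nat_lit 1) .nil)))) .nil))) (.nd (nat_lit 5) 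
(.lf (nat_lit 212179) (.g (nat_lit 1650) (.e (nat_lit 81965) (nat_lit 26) (.e (nat_lit 147492) (nat_lit 11) (.e (nat_lit 24638) (nat_lit 9) (.e (nat_lit 335986) (nat_lit 1) (.e (nat_lit 57665) (nat_lit 152) .nil))))) .nil)) 
(.lf (nat_lit 212211) (.g (nat_lit 2400) (.e (nat_lit 81965) (nat_lit 26) (.e (nat_lit 147493) (nat_lit 11) (.e (nat_lit 24638) (nat_lit 9) (.e (nat_lit 335988) (nat_lit 1) (.e (nat_lit 57665) (nat_lit 152) (.e (nat_lit 7936) (nat_lit 90) .nil)))))) (.g (nat_lit 5) .nil .nil))))) (.nd (nat_lit 4) (.nd (nat_lit 5) 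
(.lf (nat_lit 212171) (.g (nat_lit 1658) (.e (nat_lit 81965) (nat_lit 26) (.e (nat_lit 147492) (nat_lit 11) (.e (nat_lit 24617) (nat_lit 7) (.e (nat_lit 319516) (nat_lit 11) .nil)))) .nil)) 
(.lf (nat_lit 212203) (.g (nat_lit 2226) (.e (nat_lit 81965) (nat_lit 26) (.e (nat_lit 147492) (nat_lit 11) (.e (nat_lit 24665) (nat_lit 14) (.e (nat_lit 401414) (nat_lit 0) (.e (nat_lit 2477) (nat_lit 157) .nil))))) .nil))) (.nd (nat_lit 5) 
(.lf (nat_lit 212187) (.g (nat_lit 2350) (.e (nat_lit 81965) (nat_lit 26) (.e (nat_lit 147492) (nat_lit 11) (.e (nat_lit 24662) (nat_lit 14) (.e (nat_lit 401422) (nat_lit 1) (.e (nat_lit 164161) (nat_lit 152) (.e (nat_lit 1218) (nat_lit 90) .nil)))))) (.g (nat_lit 4) .nil .nil))) 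
(.lf (nat_lit 212219) (.g (nat_lit 1327) (.e (nat_lit 81965) (nat_lit 26) (.e (nat_lit 147494) (nat_lit 11) (.e (nat_lit 24638) (nat_lit 9) (.e (nat_lit 335892) (nat_lit 0) (.e (nat_lit 996) (nat_lit 81) .nil))))) .nil))))) (.nd (nat_lit 3) (.nd (nat_lit 4) (.nd (nat_lit 5) 
(.lf (nat_lit 212167) (.g (nat_lit 2934) (.e (nat_lit 81965) (nat_lit 26) (.e (nat_lit 147492) (nat_lit 11) (.e (nat_lit 24617) (nat_lit 7) (.e (nat_lit 319505) (nat_lit 10) (.e (nat_lit 720) (nat_lit 64) (.e (nat_lit 688185) (nat_lit 18) .nil)))))) (.g (nat_lit 5) .nil .nil))) 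
(.lf (nat_lit 212199) (.g (nat_lit 2518) (.e (nat_lit 81965) (nat_lit 26) (.e (nat_lit 147492) (nat_lit 11) (.e (nat_lit 24665) (nat_lit 14) (.e (nat_lit 401414) (nat_lit 0) (.e (nat_lit 2438) (nat_lit 157) (.e (nat_lit 6264) (nat_lit 337) (.e (nat_lit 1221) (nat_lit 90) .nil))))))) (.g (nat_lit 4) .nil .nil)))) (.nd (nat_lit 5) 
(.lf (nat_lit 212183) (.g (nat_lit 1076) (.e (nat_lit 81965) (nat_lit 26) (.e (nat_lit 147492) (nat_lit 11) (.e (nat_lit 24640) (nat_lit 10) (.e (nat_lit 344088) (nat_lit 18) .nil)))) .nil)) 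
(.lf (nat_lit 212215) (.g (nat_lit 3704) (.e (nat_lit 81965) (nat_lit 26) (.e (nat_lit 147493) (nat_lit 11) (.e (nat_lit 24665) (nat_lit 14) (.e (nat_lit 401414) (nat_lit 0) (.e (nat_lit 3459) (nat_lit 216) (.e (nat_lit 688183) (nat_lit 18) .nil)))))) (.g (nat_lit 5) .nil .nil))))) (.nd (nat_lit 4) (.nd (nat_lit 5) 
(.lf (nat_lit 212175) (.g (nat_lit 2352) (.e (nat_lit 81965) (nat_lit 26) (.e (nat_lit 147492) (nat_lit 11) (.e (nat_lit 24627) (nat_lit 9) (.e (nat_lit 336000) (nat_lit 1) (.e (nat_lit 57655) (nat_lit 152) (.e (nat_lit 1216) (nat_lit 90) .nil)))))) (.g (nat_lit 6) .nil .nil))) 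
(.lf (nat_lit 212207) (.g (nat_lit 1844) (.e (nat_lit 81965) (nat_lit 26) (.e (nat_lit 147492) (nat_lit 11) (.e (nat_lit 24665) (nat_lit 14) (.e (nat_lit 401415) (nat_lit 0) (.e (nat_lit 3452) (nat_lit 216) .nil))))) .nil))) (.nd (nat_lit 5) 
(.lf (nat_lit 212191) (.g (nat_lit 2765) (.e (nat_lit 81965) (nat_lit 26) (.e (nat_lit 147492) (nat_lit 11) (.e (nat_lit 24664) (nat_lit 14) (.e (nat_lit 401414) (nat_lit 0) (.e (nat_lit 3459) (nat_lit 216) (.e (nat_lit 696064) (nat_lit 18) .nil)))))) (.g (nat_lit 5) .nil .nil))) 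
(.lf (nat_lit 212223) (.g (nat_lit 958) (.e (nat_lit 81965) (nat_lit 26) (.e (nat_lit 147494) (nat_lit 11) (.e (nat_lit 24638) (nat_lit 9) (.e (nat_lit 335896) (nat_lit 0) .nil)))) .nil))))))))

noncomputable def tv2804 : DT := (.nd (nat_lit 0) (.nd (nat_lit 1) (.nd (nat_lit 2) (.nd (nat_lit 3) (.nd (nat_lit 4) (.nd (nat_lit 5) (.nd (nat_lit 6) 
(.lf (nat_lit 212224) (.g (nat_lit 1865) (.e (nat_lit 81965) (nat_lit 26) (.e (nat_lit 147494) (nat_lit 11) (.e (nat_lit 24638) (nat_lit 9) (.e (nat_lit 335986) (nat_lit 1) (.e (nat_lit 57657) (nat_lit 152) (.e (nat_lit 7936) (nat_lit 90) .nil)))))) (.g (nat_lit 4) .nil .nil))) 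
(.lf (nat_lit 212288) (.g (nat_lit 2888) (.e (nat_lit 81965) (nat_lit 26) (.e (nat_lit 147495) (nat_lit 11) (.e (nat_lit 24639) (nat_lit 10) (.e (nat_lit 344096) (nat_lit 18) (.e (nat_lit 7122) (nat_lit 382) (.e (nat_lit 7936) (nat_lit 90) .nil)))))) (.g (nat_lit 5) .nil .nil)))) (.nd (nat_lit 6) 
(.lf (nat_lit 212256) (.g (nat_lit 1770) (.e (nat_lit 81965) (nat_lit 26) (.e (nat_lit 147495) (nat_lit 11) (.e (nat_lit 24623) (nat_lit 9) (.e (nat_lit 335921) (nat_lit 0) (.e (nat_lit 2270) (nat_lit 149) .nil))))) .nil)) 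
(.lf (nat_lit 212320) (.g (nat_lit 2026) (.e (nat_lit 81965) (nat_lit 26) (.e (nat_lit 147495) (nat_lit 11) (.e (nat_lit 24640) (nat_lit 10) (.e (nat_lit 344097) (nat_lit 18) (.e (nat_lit 7144) (nat_lit 382) .nil))))) .nil)))) (.nd (nat_lit 5) (.nd (nat_lit 6) 
(.lf (nat_lit 212240) (.g (nat_lit 3901) (.e (nat_lit 81965) (nat_lit 26) (.e (nat_lit 147494) (nat_lit 11) (.e (nat_lit 24665) (nat_lit 14) (.e (nat_lit 401414) (nat_lit 0) (.e (nat_lit 3469) (nat_lit 217) (.e (nat_lit 696363) (nat_lit 18) .nil)))))) (.g (nat_lit 5) .nil .nil))) 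
(.lf (nat_lit 212304) (.g (nat_lit 2388) (.e (nat_lit 81965) (nat_lit 26) (.e (nat_lit 147495) (nat_lit 11) (.e (nat_lit 24640) (nat_lit 10) (.e (nat_lit 344091) (nat_lit 18) (.e (nat_lit 7119) (nat_lit 382) (.e (nat_lit 7936) (nat_lit 90) .nil)))))) (.g (nat_lit 4) .nil .nil)))) (.nd (nat_lit 6) 
(.lf (nat_lit 212272) (.g (nat_lit 2076) (.e (nat_lit 81965) (nat_lit 26) (.e (nat_lit 147495) (nat_lit 11) (.e (nat_lit 24638) (nat_lit 9) (.e (nat_lit 335986) (nat_lit 1) (.e (nat_lit 57657) (nat_lit 152) .nil))))) .nil)) 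
(.lf (nat_lit 212336) (.g (nat_lit 2470) (.e (nat_lit 81965) (nat_lit 26) (.e (nat_lit 147495) (nat_lit 11) (.e (nat_lit 24665) (nat_lit 14) (.e (nat_lit 401408) (nat_lit 0) (.e (nat_lit 3455) (nat_lit 216) (.e (nat_lit 688185) (nat_lit 18) .nil)))))) (.g (nat_lit 4) .nil .nil)))))) (.nd (nat_lit 4) (.nd (nat_lit 5) (.nd (nat_lit 6) 
(.lf (nat_lit 212232) (.g (nat_lit 315) (.e (nat_lit 81965) (nat_lit 26) (.e (nat_lit 147494) (nat_lit 11) (.e (nat_lit 24665) (nat_lit 14) .nil))) .nil)) 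
(.lf (nat_lit 212296) (.g (nat_lit 2138) (.e (nat_lit 81965) (nat_lit 26) (.e (nat_lit 147495) (nat_lit 11) (.e (nat_lit 24640) (nat_lit 10) (.e (nat_lit 344088) (nat_lit 18) (.e (nat_lit 7119) (nat_lit 382) (.e (nat_lit 7936) (nat_lit 90) .nil)))))) (.g (nat_lit 4) .nil .nil)))) (.nd (nat_lit 6) 
(.lf (nat_lit 212264) (.g (nat_lit 2210) (.e (nat_lit 81965) (nat_lit 26) (.e (nat_lit 147495) (nat_lit 11) (.e (nat_lit 24623) (nat_lit 9) (.e (nat_lit 335997) (nat_lit 1) (.e (nat_lit 57664) (nat_lit 152) .nil))))) .nil)) 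
(.lf (nat_lit 212328) (.g (nat_lit 2360) (.e (nat_lit 81965) (nat_lit 26) (.e (nat_lit 147495) (nat_lit 11) (.e (nat_lit 24640) (nat_lit 10) (.e (nat_lit 344176) (nat_lit 43) (.e (nat_lit 777984) (nat_lit 10) .nil))))) (.g (nat_lit 4) .nil .nil))))) (.nd (nat_lit 5) (.nd (nat_lit 6) 
(.lf (nat_lit 212248) (.g (nat_lit 853) (.e (nat_lit 81965) (nat_lit 26) (.e (nat_lit 147495) (nat_lit 11) (.e (nat_lit 24584) (nat_lit 0) (.e (nat_lit 6218) (nat_lit 333) .nil)))) .nil)) 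
(.lf (nat_lit 212312) (.g (nat_lit 2778) (.e (nat_lit 81965) (nat_lit 26) (.e (nat_lit 147495) (nat_lit 11) (.e (nat_lit 24640) (nat_lit 10) (.e (nat_lit 344095) (nat_lit 18) (.e (nat_lit 7122) (nat_lit 382) (.e (nat_lit 7936) (nat_lit 90) .nil)))))) (.g (nat_lit 5) .nil .nil)))) (.nd (nat_lit 6) 
(.lf (nat_lit 212280) (.g (nat_lit 1972) (.e (nat_lit 81965) (nat_lit 26) (.e (nat_lit 147495) (nat_lit 11) (.e (nat_lit 24639) (nat_lit 10) (.e (nat_lit 344090) (nat_lit 18) (.e (nat_lit 7122) (nat_lit 382) (.e (nat_lit 7936) (nat_lit 90) .nil)))))) (.g (nat_lit 4) .nil .nil))) 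
(.lf (nat_lit 212344) (.g (nat_lit 3458) (.e (nat_lit 81965) (nat_lit 26) (.e (nat_lit 147495) (nat_lit 11) (.e (nat_lit 24665) (nat_lit 14) (.e (nat_lit 401414) (nat_lit 0) (.e (nat_lit 3468) (nat_lit 217) (.e (nat_lit 696363) (nat_lit 18) .nil)))))) (.g (nat_lit 5) .nil .nil))))))) (.nd (nat_lit 3) (.nd (nat_lit 4) (.nd (nat_lit 5) (.nd (nat_lit 6) 
(.lf (nat_lit 212228) (.g (nat_lit 3036) (.e (nat_lit 81965) (nat_lit 26) (.e (nat_lit 147494) (nat_lit 11) (.e (nat_lit 24638) (nat_lit 9) (.e (nat_lit 335988) (nat_lit 1) (.e (nat_lit 57665) (nat_lit 152) (.e (nat_lit 7936) (nat_lit 90) .nil)))))) (.g (nat_lit 5) .nil .nil))) 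
(.lf (nat_lit 212292) (.g (nat_lit 1170) (.e (nat_lit 81965) (nat_lit 26) (.e (nat_lit 147495) (nat_lit 11) (.e (nat_lit 24639) (nat_lit 10) (.e (nat_lit 344100) (nat_lit 18) .nil)))) .nil))) (.nd (nat_lit 6) 
(.lf (nat_lit 212260) (.g (nat_lit 2173) (.e (nat_lit 81965) (nat_lit 26) (.e (nat_lit 147495) (nat_lit 11) (.e (nat_lit 24623) (nat_lit 9) (.e (nat_lit 335997) (nat_lit 1) (.e (nat_lit 57653) (nat_lit 152) .nil))))) .nil)) 
(.lf (nat_lit 212324) (.g (nat_lit 2380) (.e (nat_lit 81965) (nat_lit 26) (.e (nat_lit 147495) (nat_lit 11) (.e (nat_lit 24640) (nat_lit 10) (.e (nat_lit 344097) (nat_lit 18) (.e (nat_lit 7160) (nat_lit 382) (.e (nat_lit 7936) (nat_lit 90) .nil)))))) (.g (nat_lit 4) .nil .nil))))) (.nd (nat_lit 5) (.nd (nat_lit 6) 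
(.lf (nat_lit 212244) (.g (nat_lit 1425) (.e (nat_lit 81965) (nat_lit 26) (.e (nat_lit 147494) (nat_lit 11) (.e (nat_lit 24665) (nat_lit 14) (.e (nat_lit 401421) (nat_lit 1) .nil)))) .nil)) 
(.lf (nat_lit 212308) (.g (nat_lit 2532) (.e (nat_lit 81965) (nat_lit 26) (.e (nat_lit 147495) (nat_lit 11) (.e (nat_lit 24640) (nat_lit 10) (.e (nat_lit 344094) (nat_lit 18) (.e (nat_lit 7119) (nat_lit 382) (.e (nat_lit 7936) (nat_lit 90) .nil)))))) (.g (nat_lit 4) .nil .nil)))) (.nd (nat_lit 6) 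
(.lf (nat_lit 212276) (.g (nat_lit 1945) (.e (nat_lit 81965) (nat_lit 26) (.e (nat_lit 147495) (nat_lit 11) (.e (nat_lit 24638) (nat_lit 9) (.e (nat_lit 335988) (nat_lit 1) (.e (nat_lit 65280) (nat_lit 152) .nil))))) .nil)) 
(.lf (nat_lit 212340) (.g (nat_lit 3098) (.e (nat_lit 81965) (nat_lit 26) (.e (nat_lit 147495) (nat_lit 11) (.e (nat_lit 24665) (nat_lit 14) (.e (nat_lit 401414) (nat_lit 0) (.e (nat_lit 3452) (nat_lit 216) (.e (nat_lit 688185) (nat_lit 18) .nil)))))) (.g (nat_lit 4) .nil .nil)))))) (.nd (nat_lit 4) (.nd (nat_lit 5) (.nd (nat_lit 6) 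
(.lf (nat_lit 212236) (.g (nat_lit 2168) (.e (nat_lit 81965) (nat_lit 26) (.e (nat_lit 147494) (nat_lit 11) (.e (nat_lit 24665) (nat_lit 14) (.e (nat_lit 401414) (nat_lit 0) (.e (nat_lit 2458) (nat_lit 157) .nil))))) .nil)) 
(.lf (nat_lit 212300) (.g (nat_lit 2232) (.e (nat_lit 81965) (nat_lit 26) (.e (nat_lit 147495) (nat_lit 11) (.e (nat_lit 24640) (nat_lit 10) (.e (nat_lit 344090) (nat_lit 18) (.e (nat_lit 7122) (nat_lit 382) (.e (nat_lit 7936) (nat_lit 90) .nil)))))) (.g (nat_lit 4) .nil .nil)))) (.nd (nat_lit 6) 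
(.lf (nat_lit 212268) (.g (nat_lit 1335) (.e (nat_lit 81965) (nat_lit 26) (.e (nat_lit 147495) (nat_lit 11) (.e (nat_lit 24628) (nat_lit 9) (.e (nat_lit 336000) (nat_lit 1) .nil)))) .nil)) 
(.lf (nat_lit 212332) (.g (nat_lit 1303) (.e (nat_lit 81965) (nat_lit 26) (.e (nat_lit 147495) (nat_lit 11) (.e (nat_lit 24651) (nat_lit 12) (.e (nat_lit 385047) (nat_lit 21) .nil)))) .nil)))) (.nd (nat_lit 5) (.nd (nat_lit 6) 
(.lf (nat_lit 212252) (.g (nat_lit 2318) (.e (nat_lit 81965) (nat_lit 26) (.e (nat_lit 147495) (nat_lit 11) (.e (nat_lit 24617) (nat_lit 7) (.e (nat_lit 319504) (nat_lit 10) (.e (nat_lit 7936) (nat_lit 64) (.e (nat_lit 688186) (nat_lit 18) .nil)))))) (.g (nat_lit 4) .nil .nil))) 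
(.lf (nat_lit 212316) (.g (nat_lit 3966) (.e (nat_lit 81965) (nat_lit 26) (.e (nat_lit 147495) (nat_lit 11) (.e (nat_lit 24640) (nat_lit 10) (.e (nat_lit 344096) (nat_lit 18) (.e (nat_lit 7125) (nat_lit 382) (.e (nat_lit 1222) (nat_lit 90) .nil)))))) (.g (nat_lit 6) .nil .nil)))) (.nd (nat_lit 6) 
(.lf (nat_lit 212284) (.g (nat_lit 1162) (.e (nat_lit 81965) (nat_lit 26) (.e (nat_lit 147495) (nat_lit 11) (.e (nat_lit 24639) (nat_lit 10) (.e (nat_lit 344094) (nat_lit 18) .nil)))) .nil)) 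
(.lf (nat_lit 212348) (.g (nat_lit 1325) (.e (nat_lit 81965) (nat_lit 26) (.e (nat_lit 147495) (nat_lit 11) (.e (nat_lit 24665) (nat_lit 14) (.e (nat_lit 401420) (nat_lit 1) .nil)))) .nil))))))) (.nd (nat_lit 2) (.nd (nat_lit 3) (.nd (nat_lit 4) (.nd (nat_lit 5) (.nd (nat_lit 6) 
(.lf (nat_lit 212226) (.g (nat_lit 2237) (.e (nat_lit 81965) (nat_lit 26) (.e (nat_lit 147494) (nat_lit 11) (.e (nat_lit 24638) (nat_lit 9) (.e (nat_lit 335987) (nat_lit 1) (.e (nat_lit 57665) (nat_lit 152) (.e (nat_lit 7936) (nat_lit 90) .nil)))))) (.g (nat_lit 5) .nil .nil))) 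
(.lf (nat_lit 212290) (.g (nat_lit 1874) (.e (nat_lit 81965) (nat_lit 26) (.e (nat_lit 147495) (nat_lit 11) (.e (nat_lit 24639) (nat_lit 10) (.e (nat_lit 344097) (nat_lit 18) (.e (nat_lit 7146) (nat_lit 382) .nil))))) .nil))) (.nd (nat_lit 6) 
(.lf (nat_lit 212258) (.g (nat_lit 2382) (.e (nat_lit 81965) (nat_lit 26) (.e (nat_lit 147495) (nat_lit 11) (.e (nat_lit 24623) (nat_lit 9) (.e (nat_lit 335997) (nat_lit 1) (.e (nat_lit 57651) (nat_lit 152) (.e (nat_lit 1216) (nat_lit 90) .nil)))))) (.g (nat_lit 4) .nil .nil))) 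
(.lf (nat_lit 212322) (.g (nat_lit 2564) (.e (nat_lit 81965) (nat_lit 26) (.e (nat_lit 147495) (nat_lit 11) (.e (nat_lit 24640) (nat_lit 10) (.e (nat_lit 344097) (nat_lit 18) (.e (nat_lit 7146) (nat_lit 382) (.e (nat_lit 7936) (nat_lit 90) .nil)))))) (.g (nat_lit 4) .nil .nil))))) (.nd (nat_lit 5) (.nd (nat_lit 6) 
(.lf (nat_lit 212242) (.g (nat_lit 1736) (.e (nat_lit 81965) (nat_lit 26) (.e (nat_lit 147494) (nat_lit 11) (.e (nat_lit 24665) (nat_lit 14) (.e (nat_lit 401417) (nat_lit 0) .nil)))) .nil)) 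
(.lf (nat_lit 212306) (.g (nat_lit 2057) (.e (nat_lit 81965) (nat_lit 26) (.e (nat_lit 147495) (nat_lit 11) (.e (nat_lit 24640) (nat_lit 10) (.e (nat_lit 344091) (nat_lit 18) (.e (nat_lit 7226) (nat_lit 382) .nil))))) .nil))) (.nd (nat_lit 6) 
(.lf (nat_lit 212274) (.g (nat_lit 2229) (.e (nat_lit 81965) (nat_lit 26) (.e (nat_lit 147495) (nat_lit 11) (.e (nat_lit 24638) (nat_lit 9) (.e (nat_lit 335987) (nat_lit 1) (.e (nat_lit 57665) (nat_lit 152) (.e (nat_lit 7936) (nat_lit 90) .nil)))))) (.g (nat_lit 5) .nil .nil))) 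
(.lf (nat_lit 212338) (.g (nat_lit 2952) (.e (nat_lit 81965) (nat_lit 26) (.e (nat_lit 147495) (nat_lit 11) (.e (nat_lit 24665) (nat_lit 14) (.e (nat_lit 401413) (nat_lit 0) (.e (nat_lit 3459) (nat_lit 216) (.e (nat_lit 688183) (nat_lit 18) .nil)))))) (.g (nat_lit 5) .nil .nil)))))) (.nd (nat_lit 4) (.nd (nat_lit 5) (.nd (nat_lit 6) 
(.lf (nat_lit 212234) (.g (nat_lit 3140) (.e (nat_lit 81965) (nat_lit 26) (.e (nat_lit 147494) (nat_lit 11) (.e (nat_lit 24665) (nat_lit 14) (.e (nat_lit 401413) (nat_lit 0) (.e (nat_lit 3459) (nat_lit 216) (.e (nat_lit 696064) (nat_lit 18) .nil)))))) (.g (nat_lit 5) .nil .nil))) 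
(.lf (nat_lit 212298) (.g (nat_lit 3782) (.e (nat_lit 81965) (nat_lit 26) (.e (nat_lit 147495) (nat_lit 11) (.e (nat_lit 24640) (nat_lit 10) (.e (nat_lit 344088) (nat_lit 18) (.e (nat_lit 7236) (nat_lit 382) (.e (nat_lit 1221) (nat_lit 90) .nil)))))) (.g (nat_lit 0) .nil .nil)))) (.nd (nat_lit 6) 
(.lf (nat_lit 212266) (.g (nat_lit 2269) (.e (nat_lit 81965) (nat_lit 26) (.e (nat_lit 147495) (nat_lit 11) (.e (nat_lit 24628) (nat_lit 9) (.e (nat_lit 335878) (nat_lit 0) (.e (nat_lit 2271) (nat_lit 149) (.e (nat_lit 769792) (nat_lit 10) .nil)))))) (.g (nat_lit 4) .nil .nil))) 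
(.lf (nat_lit 212330) (.g (nat_lit 1387) (.e (nat_lit 81965) (nat_lit 26) (.e (nat_lit 147495) (nat_lit 11) (.e (nat_lit 24645) (nat_lit 11) (.e (nat_lit 368662) (nat_lit 18) (.e (nat_lit 7147) (nat_lit 382) (.e (nat_lit 1216) (nat_lit 90) .nil)))))) (.g (nat_lit 4) .nil .nil))))) (.nd (nat_lit 5) (.nd (nat_lit 6) 
(.lf (nat_lit 212250) (.g (nat_lit 1393) (.e (nat_lit 81965) (nat_lit 26) (.e (nat_lit 147495) (nat_lit 11) (.e (nat_lit 24617) (nat_lit 7) (.e (nat_lit 319502) (nat_lit 10) .nil)))) .nil)) 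
(.lf (nat_lit 212314) (.g (nat_lit 3453) (.e (nat_lit 81965) (nat_lit 26) (.e (nat_lit 147495) (nat_lit 11) (.e (nat_lit 24640) (nat_lit 10) (.e (nat_lit 344096) (nat_lit 18) (.e (nat_lit 7122) (nat_lit 382) (.e (nat_lit 7936) (nat_lit 90) .nil)))))) (.g (nat_lit 5) .nil .nil)))) (.nd (nat_lit 6) 
(.lf (nat_lit 212282) (.g (nat_lit 3272) (.e (nat_lit 81965) (nat_lit 26) (.e (nat_lit 147495) (nat_lit 11) (.e (nat_lit 24639) (nat_lit 10) (.e (nat_lit 344090) (nat_lit 18) (.e (nat_lit 7125) (nat_lit 382) (.e (nat_lit 1223) (nat_lit 90) .nil)))))) (.g (nat_lit 6) .nil .nil))) 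
(.lf (nat_lit 212346) (.g (nat_lit 2253) (.e (nat_lit 81965) (nat_lit 26) (.e (nat_lit 147495) (nat_lit 11) (.e (nat_lit 24665) (nat_lit 14) (.e (nat_lit 401415) (nat_lit 0) (.e (nat_lit 3452) (nat_lit 216) .nil))))) .nil)))))) (.nd (nat_lit 3) (.nd (nat_lit 4) (.nd (nat_lit 5) (.nd (nat_lit 6) 
(.lf (nat_lit 212230) (.g (nat_lit 2382) (.e (nat_lit 81965) (nat_lit 26) (.e (nat_lit 147494) (nat_lit 11) (.e (nat_lit 24638) (nat_lit 9) (.e (nat_lit 335988) (nat_lit 1) (.e (nat_lit 65280) (nat_lit 152) (.e (nat_lit 1220) (nat_lit 90) .nil)))))) (.g (nat_lit 4) .nil .nil))) 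
(.lf (nat_lit 212294) (.g (nat_lit 3689) (.e (nat_lit 81965) (nat_lit 26) (.e (nat_lit 147495) (nat_lit 11) (.e (nat_lit 24639) (nat_lit 10) (.e (nat_lit 344177) (nat_lit 43) (.e (nat_lit 770074) (nat_lit 10) .nil))))) (.g (nat_lit 0) .nil .nil)))) (.nd (nat_lit 6) 
(.lf (nat_lit 212262) (.g (nat_lit 2210) (.e (nat_lit 81965) (nat_lit 26) (.e (nat_lit 147495) (nat_lit 11) (.e (nat_lit 24623) (nat_lit 9) (.e (nat_lit 335997) (nat_lit 1) (.e (nat_lit 57654) (nat_lit 152) .nil))))) .nil)) 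
(.lf (nat_lit 212326) (.g (nat_lit 1681) (.e (nat_lit 81965) (nat_lit 26) (.e (nat_lit 147495) (nat_lit 11) (.e (nat_lit 24640) (nat_lit 10) (.e (nat_lit 344101) (nat_lit 18) .nil)))) .nil)))) (.nd (nat_lit 5) (.nd (nat_lit 6) 
(.lf (nat_lit 212246) (.g (nat_lit 2104) (.e (nat_lit 81965) (nat_lit 26) (.e (nat_lit 147495) (nat_lit 11) (.e (nat_lit 24580) (nat_lit 0) (.e (nat_lit 6712) (nat_lit 360) (.e (nat_lit 164016) (nat_lit 44) .nil))))) .nil)) 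
(.lf (nat_lit 212310) (.g (nat_lit 1937) (.e (nat_lit 81965) (nat_lit 26) (.e (nat_lit 147495) (nat_lit 11) (.e (nat_lit 24640) (nat_lit 10) (.e (nat_lit 344094) (nat_lit 18) (.e (nat_lit 7236) (nat_lit 382) .nil))))) .nil))) (.nd (nat_lit 6) 
(.lf (nat_lit 212278) (.g (nat_lit 422) (.e (nat_lit 81965) (nat_lit 26) (.e (nat_lit 147495) (nat_lit 11) (.e (nat_lit 24639) (nat_lit 10) .nil))) .nil)) 
(.lf (nat_lit 212342) (.g (nat_lit 3501) (.e (nat_lit 81965) (nat_lit 26) (.e (nat_lit 147495) (nat_lit 11) (.e (nat_lit 24665) (nat_lit 14) (.e (nat_lit 401414) (nat_lit 0) (.e (nat_lit 3459) (nat_lit 216) (.e (nat_lit 696064) (nat_lit 18) .nil)))))) (.g (nat_lit 5) .nil .nil)))))) (.nd (nat_lit 4) (.nd (nat_lit 5) (.nd (nat_lit 6) 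
(.lf (nat_lit 212238) (.g (nat_lit 3512) (.e (nat_lit 81965) (nat_lit 26) (.e (nat_lit 147494) (nat_lit 11) (.e (nat_lit 24665) (nat_lit 14) (.e (nat_lit 401414) (nat_lit 0) (.e (nat_lit 3459) (nat_lit 216) (.e (nat_lit 696064) (nat_lit 18) .nil)))))) (.g (nat_lit 5) .nil .nil))) 
(.lf (nat_lit 212302) (.g (nat_lit 4042) (.e (nat_lit 81965) (nat_lit 26) (.e (nat_lit 147495) (nat_lit 11) (.e (nat_lit 24640) (nat_lit 10) (.e (nat_lit 344090) (nat_lit 18) (.e (nat_lit 7236) (nat_lit 382) (.e (nat_lit 1221) (nat_lit 90) .nil)))))) (.g (nat_lit 0) .nil .nil)))) (.nd (nat_lit 6) 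
(.lf (nat_lit 212270) (.g (nat_lit 1880) (.e (nat_lit 81965) (nat_lit 26) (.e (nat_lit 147495) (nat_lit 11) (.e (nat_lit 24638) (nat_lit 9) (.e (nat_lit 335892) (nat_lit 0) (.e (nat_lit 2271) (nat_lit 149) (.e (nat_lit 769792) (nat_lit 10) .nil)))))) (.g (nat_lit 5) .nil .nil))) 
(.lf (nat_lit 212334) (.g (nat_lit 1228) (.e (nat_lit 81965) (nat_lit 26) (.e (nat_lit 147495) (nat_lit 11) (.e (nat_lit 24665) (nat_lit 14) (.e (nat_lit 401408) (nat_lit 0) .nil)))) .nil)))) (.nd (nat_lit 5) (.nd (nat_lit 6) 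
(.lf (nat_lit 212254) (.g (nat_lit 2520) (.e (nat_lit 81965) (nat_lit 26) (.e (nat_lit 147495) (nat_lit 11) (.e (nat_lit 24617) (nat_lit 7) (.e (nat_lit 319505) (nat_lit 10) (.e (nat_lit 7936) (nat_lit 64) (.e (nat_lit 688186) (nat_lit 18) .nil)))))) (.g (nat_lit 4) .nil .nil))) 
(.lf (nat_lit 212318) (.g (nat_lit 2029) (.e (nat_lit 81965) (nat_lit 26) (.e (nat_lit 147495) (nat_lit 11) (.e (nat_lit 24640) (nat_lit 10) (.e (nat_lit 344096) (nat_lit 18) (.e (nat_lit 7125) (nat_lit 382) (.e (nat_lit 7936) (nat_lit 90) .nil)))))) (.g (nat_lit 4) .nil .nil)))) (.nd (nat_lit 6) 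
(.lf (nat_lit 212286) (.g (nat_lit 2581) (.e (nat_lit 81965) (nat_lit 26) (.e (nat_lit 147495) (nat_lit 11) (.e (nat_lit 24639) (nat_lit 10) (.e (nat_lit 344095) (nat_lit 18) (.e (nat_lit 7122) (nat_lit 382) (.e (nat_lit 7936) (nat_lit 90) .nil)))))) (.g (nat_lit 5) .nil .nil))) 
(.lf (nat_lit 212350) (.g (nat_lit 1636) (.e (nat_lit 81965) (nat_lit 26) (.e (nat_lit 147495) (nat_lit 11) (.e (nat_lit 24665) (nat_lit 14) (.e (nat_lit 401429) (nat_lit 4) .nil)))) .nil)))))))) (.nd (nat_lit 1) (.nd (nat_lit 2) (.nd (nat_lit 3) (.nd (nat_lit 4) (.nd (nat_lit 5) (.nd (nat_lit 6) 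
(.lf (nat_lit 212225) (.g (nat_lit 2356) (.e (nat_lit 81965) (nat_lit 26) (.e (nat_lit 147494) (nat_lit 11) (.e (nat_lit 24638) (nat_lit 9) (.e (nat_lit 335986) (nat_lit 1) (.e (nat_lit 57665) (nat_lit 152) (.e (nat_lit 7936) (nat_lit 90) .nil)))))) (.g (nat_lit 4) .nil .nil))) 
(.lf (nat_lit 212289) (.g (nat_lit 2497) (.e (nat_lit 81965) (nat_lit 26) (.e (nat_lit 147495) (nat_lit 11) (.e (nat_lit 24639) (nat_lit 10) (.e (nat_lit 344096) (nat_lit 18) (.e (nat_lit 7124) (nat_lit 382) (.e (nat_lit 7936) (nat_lit 90) .nil)))))) (.g (nat_lit 4) .nil .nil)))) (.nd (nat_lit 6) 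
(.lf (nat_lit 212257) (.g (nat_lit 1370) (.e (nat_lit 81965) (nat_lit 26) (.e (nat_lit 147495) (nat_lit 11) (.e (nat_lit 24623) (nat_lit 9) (.e (nat_lit 335997) (nat_lit 1) .nil)))) .nil)) 
(.lf (nat_lit 212321) (.g (nat_lit 2232) (.e (nat_lit 81965) (nat_lit 26) (.e (nat_lit 147495) (nat_lit 11) (.e (nat_lit 24640) (nat_lit 10) (.e (nat_lit 344097) (nat_lit 18) (.e (nat_lit 7145) (nat_lit 382) (.e (nat_lit 1216) (nat_lit 90) .nil)))))) (.g (nat_lit 4) .nil .nil))))) (.nd (nat_lit 5) (.nd (nat_lit 6) 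
(.lf (nat_lit 212241) (.g (nat_lit 1894) (.e (nat_lit 81965) (nat_lit 26) (.e (nat_lit 147494) (nat_lit 11) (.e (nat_lit 24665) (nat_lit 14) (.e (nat_lit 401415) (nat_lit 0) (.e (nat_lit 3452) (nat_lit 216) .nil))))) .nil)) 
(.lf (nat_lit 212305) (.g (nat_lit 2187) (.e (nat_lit 81965) (nat_lit 26) (.e (nat_lit 147495) (nat_lit 11) (.e (nat_lit 24640) (nat_lit 10) (.e (nat_lit 344091) (nat_lit 18) (.e (nat_lit 7124) (nat_lit 382) (.e (nat_lit 7936) (nat_lit 90) .nil)))))) (.g (nat_lit 4) .nil .nil)))) (.nd (nat_lit 6) 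
(.lf (nat_lit 212273) (.g (nat_lit 2247) (.e (nat_lit 81965) (nat_lit 26) (.e (nat_lit 147495) (nat_lit 11) (.e (nat_lit 24638) (nat_lit 9) (.e (nat_lit 335986) (nat_lit 1) (.e (nat_lit 57665) (nat_lit 152) (.e (nat_lit 7936) (nat_lit 90) .nil)))))) (.g (nat_lit 4) .nil .nil))) 
(.lf (nat_lit 212337) (.g (nat_lit 2671) (.e (nat_lit 81965) (nat_lit 26) (.e (nat_lit 147495) (nat_lit 11) (.e (nat_lit 24665) (nat_lit 14) (.e (nat_lit 401413) (nat_lit 0) (.e (nat_lit 3452) (nat_lit 216) (.e (nat_lit 688185) (nat_lit 18) .nil)))))) (.g (nat_lit 4) .nil .nil)))))) (.nd (nat_lit 4) (.nd (nat_lit 5) (.nd (nat_lit 6) 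
(.lf (nat_lit 212233) (.g (nat_lit 3168) (.e (nat_lit 81965) (nat_lit 26) (.e (nat_lit 147494) (nat_lit 11) (.e (nat_lit 24665) (nat_lit 14) (.e (nat_lit 401413) (nat_lit 0) (.e (nat_lit 3459) (nat_lit 216) (.e (nat_lit 688183) (nat_lit 18) .nil)))))) (.g (nat_lit 5) .nil .nil))) 
(.lf (nat_lit 212297) (.g (nat_lit 2559) (.e (nat_lit 81965) (nat_lit 26) (.e (nat_lit 147495) (nat_lit 11) (.e (nat_lit 24640) (nat_lit 10) (.e (nat_lit 344088) (nat_lit 18) (.e (nat_lit 7219) (nat_lit 382) (.e (nat_lit 1218) (nat_lit 90) .nil)))))) (.g (nat_lit 4) .nil .nil)))) (.nd (nat_lit 6) 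
(.lf (nat_lit 212265) (.g (nat_lit 2324) (.e (nat_lit 81965) (nat_lit 26) (.e (nat_lit 147495) (nat_lit 11) (.e (nat_lit 24623) (nat_lit 9) (.e (nat_lit 335997) (nat_lit 1) (.e (nat_lit 57666) (nat_lit 152) (.e (nat_lit 7936) (nat_lit 90) .nil)))))) (.g (nat_lit 4) .nil .nil))) 
(.lf (nat_lit 212329) (.g (nat_lit 3751) (.e (nat_lit 81965) (nat_lit 26) (.e (nat_lit 147495) (nat_lit 11) (.e (nat_lit 24640) (nat_lit 10) (.e (nat_lit 344177) (nat_lit 43) (.e (nat_lit 770074) (nat_lit 10) .nil))))) (.g (nat_lit 0) .nil .nil))))) (.nd (nat_lit 5) (.nd (nat_lit 6) 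
(.lf (nat_lit 212249) (.g (nat_lit 1638) (.e (nat_lit 81965) (nat_lit 26) (.e (nat_lit 147495) (nat_lit 11) (.e (nat_lit 24617) (nat_lit 7) (.e (nat_lit 319499) (nat_lit 10) .nil)))) .nil)) 
(.lf (nat_lit 212313) (.g (nat_lit 2853) (.e (nat_lit 81965) (nat_lit 26) (.e (nat_lit 147495) (nat_lit 11) (.e (nat_lit 24640) (nat_lit 10) (.e (nat_lit 344096) (nat_lit 18) (.e (nat_lit 7119) (nat_lit 382) (.e (nat_lit 7936) (nat_lit 90) .nil)))))) (.g (nat_lit 4) .nil .nil)))) (.nd (nat_lit 6) 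
(.lf (nat_lit 212281) (.g (nat_lit 2406) (.e (nat_lit 81965) (nat_lit 26) (.e (nat_lit 147495) (nat_lit 11) (.e (nat_lit 24639) (nat_lit 10) (.e (nat_lit 344090) (nat_lit 18) (.e (nat_lit 7124) (nat_lit 382) (.e (nat_lit 7936) (nat_lit 90) .nil)))))) (.g (nat_lit 4) .nil .nil))) 
(.lf (nat_lit 212345) (.g (nat_lit 3695) (.e (nat_lit 81965) (nat_lit 26) (.e (nat_lit 147495) (nat_lit 11) (.e (nat_lit 24665) (nat_lit 14) (.e (nat_lit 401414) (nat_lit 0) (.e (nat_lit 3469) (nat_lit 217) (.e (nat_lit 696363) (nat_lit 18) .nil)))))) (.g (nat_lit 5) .nil .nil))))))) (.nd (nat_lit 3) (.nd (nat_lit 4) (.nd (nat_lit 5) (.nd (nat_lit 6) 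
(.lf (nat_lit 212229) (.g (nat_lit 1852) (.e (nat_lit 81965) (nat_lit 26) (.e (nat_lit 147494) (nat_lit 11) (.e (nat_lit 24638) (nat_lit 9) (.e (nat_lit 335988) (nat_lit 1) (.e (nat_lit 57674) (nat_lit 152) .nil))))) .nil)) 
(.lf (nat_lit 212293) (.g (nat_lit 2258) (.e (nat_lit 81965) (nat_lit 26) (.e (nat_lit 147495) (nat_lit 11) (.e (nat_lit 24639) (nat_lit 10) (.e (nat_lit 344174) (nat_lit 42) (.e (nat_lit 769792) (nat_lit 10) .nil))))) (.g (nat_lit 4) .nil .nil)))) (.nd (nat_lit 6) 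
(.lf (nat_lit 212261) (.g (nat_lit 3068) (.e (nat_lit 81965) (nat_lit 26) (.e (nat_lit 147495) (nat_lit 11) (.e (nat_lit 24623) (nat_lit 9) (.e (nat_lit 335997) (nat_lit 1) (.e (nat_lit 57653) (nat_lit 152) (.e (nat_lit 1217) (nat_lit 90) .nil)))))) (.g (nat_lit 4) .nil .nil))) 
(.lf (nat_lit 212325) (.g (nat_lit 2075) (.e (nat_lit 81965) (nat_lit 26) (.e (nat_lit 147495) (nat_lit 11) (.e (nat_lit 24640) (nat_lit 10) (.e (nat_lit 344097) (nat_lit 18) (.e (nat_lit 7936) (nat_lit 382) .nil))))) .nil)))) (.nd (nat_lit 5) (.nd (nat_lit 6) 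
(.lf (nat_lit 212245) (.g (nat_lit 426) (.e (nat_lit 81965) (nat_lit 26) (.e (nat_lit 147495) (nat_lit 11) (.e (nat_lit 24580) (nat_lit 0) .nil))) .nil)) 
(.lf (nat_lit 212309) (.g (nat_lit 2412) (.e (nat_lit 81965) (nat_lit 26) (.e (nat_lit 147495) (nat_lit 11) (.e (nat_lit 24640) (nat_lit 10) (.e (nat_lit 344094) (nat_lit 18) (.e (nat_lit 7122) (nat_lit 382) (.e (nat_lit 7936) (nat_lit 90) .nil)))))) (.g (nat_lit 4) .nil .nil)))) (.nd (nat_lit 6) 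
(.lf (nat_lit 212277) (.g (nat_lit 2353) (.e (nat_lit 81965) (nat_lit 26) (.e (nat_lit 147495) (nat_lit 11) (.e (nat_lit 24638) (nat_lit 9) (.e (nat_lit 335996) (nat_lit 1) (.e (nat_lit 57665) (nat_lit 152) (.e (nat_lit 7936) (nat_lit 90) .nil)))))) (.g (nat_lit 4) .nil .nil))) 
(.lf (nat_lit 212341) (.g (nat_lit 3416) (.e (nat_lit 81965) (nat_lit 26) (.e (nat_lit 147495) (nat_lit 11) (.e (nat_lit 24665) (nat_lit 14) (.e (nat_lit 401414) (nat_lit 0) (.e (nat_lit 3459) (nat_lit 216) (.e (nat_lit 688183) (nat_lit 18) .nil)))))) (.g (nat_lit 5) .nil .nil)))))) (.nd (nat_lit 4) (.nd (nat_lit 5) (.nd (nat_lit 6) 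
(.lf (nat_lit 212237) (.g (nat_lit 3693) (.e (nat_lit 81965) (nat_lit 26) (.e (nat_lit 147494) (nat_lit 11) (.e (nat_lit 24665) (nat_lit 14) (.e (nat_lit 401414) (nat_lit 0) (.e (nat_lit 3459) (nat_lit 216) (.e (nat_lit 688183) (nat_lit 18) .nil)))))) (.g (nat_lit 5) .nil .nil))) 
(.lf (nat_lit 212301) (.g (nat_lit 2563) (.e (nat_lit 81965) (nat_lit 26) (.e (nat_lit 147495) (nat_lit 11) (.e (nat_lit 24640) (nat_lit 10) (.e (nat_lit 344090) (nat_lit 18) (.e (nat_lit 7124) (nat_lit 382) (.e (nat_lit 7936) (nat_lit 90) .nil)))))) (.g (nat_lit 5) .nil .nil)))) (.nd (nat_lit 6) 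
(.lf (nat_lit 212269) (.g (nat_lit 485) (.e (nat_lit 81965) (nat_lit 26) (.e (nat_lit 147495) (nat_lit 11) (.e (nat_lit 24631) (nat_lit 9) .nil))) .nil)) 
(.lf (nat_lit 212333) (.g (nat_lit 428) (.e (nat_lit 81965) (nat_lit 26) (.e (nat_lit 147495) (nat_lit 11) (.e (nat_lit 24665) (nat_lit 14) .nil))) .nil)))) (.nd (nat_lit 5) (.nd (nat_lit 6) 
(.lf (nat_lit 212253) (.g (nat_lit 2483) (.e (nat_lit 81965) (nat_lit 26) (.e (nat_lit 147495) (nat_lit 11) (.e (nat_lit 24617) (nat_lit 7) (.e (nat_lit 319505) (nat_lit 10) (.e (nat_lit 720) (nat_lit 64) (.e (nat_lit 688185) (nat_lit 18) .nil)))))) (.g (nat_lit 4) .nil .nil))) 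
(.lf (nat_lit 212317) (.g (nat_lit 3864) (.e (nat_lit 81965) (nat_lit 26) (.e (nat_lit 147495) (nat_lit 11) (.e (nat_lit 24640) (nat_lit 10) (.e (nat_lit 344096) (nat_lit 18) (.e (nat_lit 7125) (nat_lit 382) (.e (nat_lit 1223) (nat_lit 90) .nil)))))) (.g (nat_lit 6) .nil .nil)))) (.nd (nat_lit 6) 
(.lf (nat_lit 212285) (.g (nat_lit 2278) (.e (nat_lit 81965) (nat_lit 26) (.e (nat_lit 147495) (nat_lit 11) (.e (nat_lit 24639) (nat_lit 10) (.e (nat_lit 344095) (nat_lit 18) (.e (nat_lit 7119) (nat_lit 382) (.e (nat_lit 7936) (nat_lit 90) .nil)))))) (.g (nat_lit 5) .nil .nil))) 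
(.lf (nat_lit 212349) (.g (nat_lit 1572) (.e (nat_lit 81965) (nat_lit 26) (.e (nat_lit 147495) (nat_lit 11) (.e (nat_lit 24665) (nat_lit 14) (.e (nat_lit 401421) (nat_lit 1) .nil)))) .nil))))))) (.nd (nat_lit 2) (.nd (nat_lit 3) (.nd (nat_lit 4) (.nd (nat_lit 5) (.nd (nat_lit 6) 
(.lf (nat_lit 212227) (.g (nat_lit 1832) (.e (nat_lit 81965) (nat_lit 26) (.e (nat_lit 147494) (nat_lit 11) (.e (nat_lit 24638) (nat_lit 9) (.e (nat_lit 335988) (nat_lit 1) (.e (nat_lit 57664) (nat_lit 152) .nil))))) .nil)) 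
(.lf (nat_lit 212291) (.g (nat_lit 1803) (.e (nat_lit 81965) (nat_lit 26) (.e (nat_lit 147495) (nat_lit 11) (.e (nat_lit 24639) (nat_lit 10) (.e (nat_lit 344097) (nat_lit 18) (.e (nat_lit 7160) (nat_lit 382) .nil))))) .nil))) (.nd (nat_lit 6) 
(.lf (nat_lit 212259) (.g (nat_lit 2210) (.e (nat_lit 81965) (nat_lit 26) (.e (nat_lit 147495) (nat_lit 11) (.e (nat_lit 24623) (nat_lit 9) (.e (nat_lit 335997) (nat_lit 1) (.e (nat_lit 57652) (nat_lit 152) .nil))))) .nil)) 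
(.lf (nat_lit 212323) (.g (nat_lit 2612) (.e (nat_lit 81965) (nat_lit 26) (.e (nat_lit 147495) (nat_lit 11) (.e (nat_lit 24640) (nat_lit 10) (.e (nat_lit 344097) (nat_lit 18) (.e (nat_lit 7160) (nat_lit 382) (.e (nat_lit 1215) (nat_lit 90) .nil)))))) (.g (nat_lit 4) .nil .nil))))) (.nd (nat_lit 5) (.nd (nat_lit 6) 
(.lf (nat_lit 212243) (.g (nat_lit 1670) (.e (nat_lit 81965) (nat_lit 26) (.e (nat_lit 147494) (nat_lit 11) (.e (nat_lit 24665) (nat_lit 14) (.e (nat_lit 401418) (nat_lit 0) .nil)))) .nil)) 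
(.lf (nat_lit 212307) (.g (nat_lit 1655) (.e (nat_lit 81965) (nat_lit 26) (.e (nat_lit 147495) (nat_lit 11) (.e (nat_lit 24640) (nat_lit 10) (.e (nat_lit 344093) (nat_lit 18) .nil)))) .nil))) (.nd (nat_lit 6) 
(.lf (nat_lit 212275) (.g (nat_lit 3020) (.e (nat_lit 81965) (nat_lit 26) (.e (nat_lit 147495) (nat_lit 11) (.e (nat_lit 24638) (nat_lit 9) (.e (nat_lit 335988) (nat_lit 1) (.e (nat_lit 57665) (nat_lit 152) (.e (nat_lit 7936) (nat_lit 90) .nil)))))) (.g (nat_lit 5) .nil .nil))) 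
(.lf (nat_lit 212339) (.g (nat_lit 3190) (.e (nat_lit 81965) (nat_lit 26) (.e (nat_lit 147495) (nat_lit 11) (.e (nat_lit 24665) (nat_lit 14) (.e (nat_lit 401413) (nat_lit 0) (.e (nat_lit 3459) (nat_lit 216) (.e (nat_lit 696064) (nat_lit 18) .nil)))))) (.g (nat_lit 5) .nil .nil)))))) (.nd (nat_lit 4) (.nd (nat_lit 5) (.nd (nat_lit 6) 
(.lf (nat_lit 212235) (.g (nat_lit 1062) (.e (nat_lit 81965) (nat_lit 26) (.e (nat_lit 147494) (nat_lit 11) (.e (nat_lit 24665) (nat_lit 14) (.e (nat_lit 401414) (nat_lit 0) .nil)))) .nil)) 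
(.lf (nat_lit 212299) (.g (nat_lit 2783) (.e (nat_lit 81965) (nat_lit 26) (.e (nat_lit 147495) (nat_lit 11) (.e (nat_lit 24640) (nat_lit 10) (.e (nat_lit 344090) (nat_lit 18) (.e (nat_lit 7119) (nat_lit 382) (.e (nat_lit 7936) (nat_lit 90) .nil)))))) (.g (nat_lit 5) .nil .nil)))) (.nd (nat_lit 6) 
(.lf (nat_lit 212267) (.g (nat_lit 1753) (.e (nat_lit 81965) (nat_lit 26) (.e (nat_lit 147495) (nat_lit 11) (.e (nat_lit 24628) (nat_lit 9) (.e (nat_lit 335999) (nat_lit 1) .nil)))) .nil)) 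
(.lf (nat_lit 212331) (.g (nat_lit 1303) (.e (nat_lit 81965) (nat_lit 26) (.e (nat_lit 147495) (nat_lit 11) (.e (nat_lit 24651) (nat_lit 12) (.e (nat_lit 385045) (nat_lit 21) .nil)))) .nil)))) (.nd (nat_lit 5) (.nd (nat_lit 6) 
(.lf (nat_lit 212251) (.g (nat_lit 1495) (.e (nat_lit 81965) (nat_lit 26) (.e (nat_lit 147495) (nat_lit 11) (.e (nat_lit 24617) (nat_lit 7) (.e (nat_lit 319503) (nat_lit 10) .nil)))) .nil)) 
(.lf (nat_lit 212315) (.g (nat_lit 3075) (.e (nat_lit 81965) (nat_lit 26) (.e (nat_lit 147495) (nat_lit 11) (.e (nat_lit 24640) (nat_lit 10) (.e (nat_lit 344096) (nat_lit 18) (.e (nat_lit 7124) (nat_lit 382) (.e (nat_lit 7936) (nat_lit 90) .nil)))))) (.g (nat_lit 5) .nil .nil)))) (.nd (nat_lit 6) 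
(.lf (nat_lit 212283) (.g (nat_lit 3892) (.e (nat_lit 81965) (nat_lit 26) (.e (nat_lit 147495) (nat_lit 11) (.e (nat_lit 24639) (nat_lit 10) (.e (nat_lit 344090) (nat_lit 18) (.e (nat_lit 7236) (nat_lit 382) (.e (nat_lit 1221) (nat_lit 90) .nil)))))) (.g (nat_lit 0) .nil .nil))) 
(.lf (nat_lit 212347) (.g (nat_lit 3125) (.e (nat_lit 81965) (nat_lit 26) (.e (nat_lit 147495) (nat_lit 11) (.e (nat_lit 24665) (nat_lit 14) (.e (nat_lit 401418) (nat_lit 0) (.e (nat_lit 3452) (nat_lit 216) (.e (nat_lit 688185) (nat_lit 18) .nil)))))) (.g (nat_lit 4) .nil .nil))))))) (.nd (nat_lit 3) (.nd (nat_lit 4) (.nd (nat_lit 5) (.nd (nat_lit 6) 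
(.lf (nat_lit 212231) (.g (nat_lit 947) (.e (nat_lit 81965) (nat_lit 26) (.e (nat_lit 147494) (nat_lit 11) (.e (nat_lit 24644) (nat_lit 11) (.e (nat_lit 368662) (nat_lit 18) .nil)))) .nil)) 
(.lf (nat_lit 212295) (.g (nat_lit 1642) (.e (nat_lit 81965) (nat_lit 26) (.e (nat_lit 147495) (nat_lit 11) (.e (nat_lit 24640) (nat_lit 10) (.e (nat_lit 344087) (nat_lit 18) .nil)))) .nil))) (.nd (nat_lit 6) 
(.lf (nat_lit 212263) (.g (nat_lit 2923) (.e (nat_lit 81965) (nat_lit 26) (.e (nat_lit 147495) (nat_lit 11) (.e (nat_lit 24623) (nat_lit 9) (.e (nat_lit 335997) (nat_lit 1) (.e (nat_lit 57660) (nat_lit 152) (.e (nat_lit 7936) (nat_lit 90) .nil)))))) (.g (nat_lit 5) .nil .nil))) 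
(.lf (nat_lit 212327) (.g (nat_lit 2133) (.e (nat_lit 81965) (nat_lit 26) (.e (nat_lit 147495) (nat_lit 11) (.e (nat_lit 24640) (nat_lit 10) (.e (nat_lit 344174) (nat_lit 42) (.e (nat_lit 769792) (nat_lit 10) .nil))))) (.g (nat_lit 4) .nil .nil))))) (.nd (nat_lit 5) (.nd (nat_lit 6) 
(.lf (nat_lit 212247) (.g (nat_lit 1218) (.e (nat_lit 81965) (nat_lit 26) (.e (nat_lit 147495) (nat_lit 11) (.e (nat_lit 24584) (nat_lit 0) (.e (nat_lit 6113) (nat_lit 332) .nil)))) .nil)) 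
(.lf (nat_lit 212311) (.g (nat_lit 2477) (.e (nat_lit 81965) (nat_lit 26) (.e (nat_lit 147495) (nat_lit 11) (.e (nat_lit 24640) (nat_lit 10) (.e (nat_lit 344095) (nat_lit 18) (.e (nat_lit 7119) (nat_lit 382) (.e (nat_lit 7936) (nat_lit 90) .nil)))))) (.g (nat_lit 4) .nil .nil)))) (.nd (nat_lit 6) 
(.lf (nat_lit 212279) (.g (nat_lit 2594) (.e (nat_lit 81965) (nat_lit 26) (.e (nat_lit 147495) (nat_lit 11) (.e (nat_lit 24639) (nat_lit 10) (.e (nat_lit 344090) (nat_lit 18) (.e (nat_lit 7119) (nat_lit 382) (.e (nat_lit 7936) (nat_lit 90) .nil)))))) (.g (nat_lit 5) .nil .nil))) 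
(.lf (nat_lit 212343) (.g (nat_lit 2289) (.e (nat_lit 81965) (nat_lit 26) (.e (nat_lit 147495) (nat_lit 11) (.e (nat_lit 24665) (nat_lit 14) (.e (nat_lit 401414) (nat_lit 0) (.e (nat_lit 7936) (nat_lit 216) .nil))))) .nil))))) (.nd (nat_lit 4) (.nd (nat_lit 5) (.nd (nat_lit 6) 
(.lf (nat_lit 212239) (.g (nat_lit 2147) (.e (nat_lit 81965) (nat_lit 26) (.e (nat_lit 147494) (nat_lit 11) (.e (nat_lit 24665) (nat_lit 14) (.e (nat_lit 401414) (nat_lit 0) (.e (nat_lit 7936) (nat_lit 216) .nil))))) .nil)) 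
(.lf (nat_lit 212303) (.g (nat_lit 1435) (.e (nat_lit 81965) (nat_lit 26) (.e (nat_lit 147495) (nat_lit 11) (.e (nat_lit 24640) (nat_lit 10) (.e (nat_lit 344091) (nat_lit 18) .nil)))) .nil))) (.nd (nat_lit 6) 
(.lf (nat_lit 212271) (.g (nat_lit 3264) (.e (nat_lit 81965) (nat_lit 26) (.e (nat_lit 147495) (nat_lit 11) (.e (nat_lit 24638) (nat_lit 9) (.e (nat_lit 335986) (nat_lit 1) (.e (nat_lit 57655) (nat_lit 152) (.e (nat_lit 1216) (nat_lit 90) .nil)))))) (.g (nat_lit 0) .nil .nil))) 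
(.lf (nat_lit 212335) (.g (nat_lit 1737) (.e (nat_lit 81965) (nat_lit 26) (.e (nat_lit 147495) (nat_lit 11) (.e (nat_lit 24665) (nat_lit 14) (.e (nat_lit 401408) (nat_lit 0) (.e (nat_lit 3454) (nat_lit 216) .nil))))) .nil)))) (.nd (nat_lit 5) (.nd (nat_lit 6) 
(.lf (nat_lit 212255) (.g (nat_lit 1495) (.e (nat_lit 81965) (nat_lit 26) (.e (nat_lit 147495) (nat_lit 11) (.e (nat_lit 24623) (nat_lit 9) (.e (nat_lit 335903) (nat_lit 0) .nil)))) .nil)) 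
(.lf (nat_lit 212319) (.g (nat_lit 2186) (.e (nat_lit 81965) (nat_lit 26) (.e (nat_lit 147495) (nat_lit 11) (.e (nat_lit 24640) (nat_lit 10) (.e (nat_lit 344096) (nat_lit 18) (.e (nat_lit 7132) (nat_lit 382) .nil))))) .nil))) (.nd (nat_lit 6) 
(.lf (nat_lit 212287) (.g (nat_lit 2409) (.e (nat_lit 81965) (nat_lit 26) (.e (nat_lit 147495) (nat_lit 11) (.e (nat_lit 24639) (nat_lit 10) (.e (nat_lit 344096) (nat_lit 18) (.e (nat_lit 7119) (nat_lit 382) (.e (nat_lit 7936) (nat_lit 90) .nil)))))) (.g (nat_lit 4) .nil .nil))) 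
(.lf (nat_lit 212351) (.g (nat_lit 1499) (.e (nat_lit 81965) (nat_lit 26) (.e (nat_lit 147496) (nat_lit 11) (.e (nat_lit 24584) (nat_lit 0) (.e (nat_lit 970) (nat_lit 81) .nil)))) .nil)))))))))

noncomputable def tv2805 : DT := (.nd (nat_lit 0) (.nd (nat_lit 1) (.nd (nat_lit 2) (.nd (nat_lit 3) (.nd (nat_lit 4) (.nd (nat_lit 5) 
(.lf (nat_lit 212352) (.g (nat_lit 1025) (.e (nat_lit 81965) (nat_lit 26) (.e (nat_lit 147496) (nat_lit 11) (.e (nat_lit 24584) (nat_lit 0) (.e (nat_lit 6097) (nat_lit 332) .nil)))) .nil)) 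
(.lf (nat_lit 212384) (.g (nat_lit 1836) (.e (nat_lit 81965) (nat_lit 26) (.e (nat_lit 147496) (nat_lit 11) (.e (nat_lit 24637) (nat_lit 9) (.e (nat_lit 335988) (nat_lit 1) (.e (nat_lit 57665) (nat_lit 152) (.e (nat_lit 7936) (nat_lit 90) .nil)))))) (.g (nat_lit 4) .nil .nil)))) (.nd (nat_lit 5) 
(.lf (nat_lit 212368) (.g (nat_lit 2858) (.e (nat_lit 81965) (nat_lit 26) (.e (nat_lit 147496) (nat_lit 11) (.e (nat_lit 24617) (nat_lit 7) (.e (nat_lit 319504) (nat_lit 10) (.e (nat_lit 52) (nat_lit 0) (.e (nat_lit 6264) (nat_lit 337) (.e (nat_lit 1221) (nat_lit 90) .nil))))))) (.g (nat_lit 4) .nil .nil))) 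
(.lf (nat_lit 212400) (.g (nat_lit 2337) (.e (nat_lit 81965) (nat_lit 26) (.e (nat_lit 147496) (nat_lit 11) (.e (nat_lit 24639) (nat_lit 10) (.e (nat_lit 344090) (nat_lit 18) (.e (nat_lit 7124) (nat_lit 382) (.e (nat_lit 7936) (nat_lit 90) .nil)))))) (.g (nat_lit 4) .nil .nil))))) (.nd (nat_lit 4) (.nd (nat_lit 5) 
(.lf (nat_lit 212360) (.g (nat_lit 1663) (.e (nat_lit 81965) (nat_lit 26) (.e (nat_lit 147496) (nat_lit 11) (.e (nat_lit 24584) (nat_lit 0) (.e (nat_lit 6212) (nat_lit 333) (.e (nat_lit 65280) (nat_lit 105) .nil))))) .nil)) 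
(.lf (nat_lit 212392) (.g (nat_lit 2196) (.e (nat_lit 81965) (nat_lit 26) (.e (nat_lit 147496) (nat_lit 11) (.e (nat_lit 24638) (nat_lit 9) (.e (nat_lit 335986) (nat_lit 1) (.e (nat_lit 57665) (nat_lit 152) (.e (nat_lit 7936) (nat_lit 90) .nil)))))) (.g (nat_lit 4) .nil .nil)))) (.nd (nat_lit 5) 
(.lf (nat_lit 212376) (.g (nat_lit 3047) (.e (nat_lit 81965) (nat_lit 26) (.e (nat_lit 147496) (nat_lit 11) (.e (nat_lit 24623) (nat_lit 9) (.e (nat_lit 335997) (nat_lit 1) (.e (nat_lit 65280) (nat_lit 152) (.e (nat_lit 1220) (nat_lit 90) .nil)))))) (.g (nat_lit 4) .nil .nil))) 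
(.lf (nat_lit 212408) (.g (nat_lit 1364) (.e (nat_lit 81965) (nat_lit 26) (.e (nat_lit 147496) (nat_lit 11) (.e (nat_lit 24639) (nat_lit 10) (.e (nat_lit 344100) (nat_lit 18) (.e (nat_lit 7147) (nat_lit 382) .nil))))) .nil))))) (.nd (nat_lit 3) (.nd (nat_lit 4) (.nd (nat_lit 5) 
(.lf (nat_lit 212356) (.g (nat_lit 2740) (.e (nat_lit 81965) (nat_lit 26) (.e (nat_lit 147496) (nat_lit 11) (.e (nat_lit 24584) (nat_lit 0) (.e (nat_lit 6113) (nat_lit 332) (.e (nat_lit 2406) (nat_lit 157) (.e (nat_lit 59) (nat_lit 0) (.e (nat_lit 7160) (nat_lit 382) (.e (nat_lit 7936) (nat_lit 90) .nil)))))))) (.g (nat_lit 7) .nil .nil))) 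
(.lf (nat_lit 212388) (.g (nat_lit 1613) (.e (nat_lit 81965) (nat_lit 26) (.e (nat_lit 147496) (nat_lit 11) (.e (nat_lit 24638) (nat_lit 9) (.e (nat_lit 335893) (nat_lit 0) (.e (nat_lit 974) (nat_lit 81) .nil))))) .nil))) (.nd (nat_lit 5) 
(.lf (nat_lit 212372) (.g (nat_lit 1234) (.e (nat_lit 81965) (nat_lit 26) (.e (nat_lit 147496) (nat_lit 11) (.e (nat_lit 24617) (nat_lit 7) (.e (nat_lit 319516) (nat_lit 11) .nil)))) .nil)) 
(.lf (nat_lit 212404) (.g (nat_lit 2920) (.e (nat_lit 81965) (nat_lit 26) (.e (nat_lit 147496) (nat_lit 11) (.e (nat_lit 24639) (nat_lit 10) (.e (nat_lit 344096) (nat_lit 18) (.e (nat_lit 7122) (nat_lit 382) (.e (nat_lit 7936) (nat_lit 90) .nil)))))) (.g (nat_lit 5) .nil .nil))))) (.nd (nat_lit 4) (.nd (nat_lit 5) 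
(.lf (nat_lit 212364) (.g (nat_lit 2972) (.e (nat_lit 81965) (nat_lit 26) (.e (nat_lit 147496) (nat_lit 11) (.e (nat_lit 24617) (nat_lit 7) (.e (nat_lit 319490) (nat_lit 0) (.e (nat_lit 75) (nat_lit 0) (.e (nat_lit 7158) (nat_lit 382) (.e (nat_lit 7936) (nat_lit 90) .nil))))))) (.g (nat_lit 6) .nil .nil))) 
(.lf (nat_lit 212396) (.g (nat_lit 2300) (.e (nat_lit 81965) (nat_lit 26) (.e (nat_lit 147496) (nat_lit 11) (.e (nat_lit 24638) (nat_lit 9) (.e (nat_lit 335996) (nat_lit 1) (.e (nat_lit 57665) (nat_lit 152) .nil))))) .nil))) (.nd (nat_lit 5) 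
(.lf (nat_lit 212380) (.g (nat_lit 1855) (.e (nat_lit 81965) (nat_lit 26) (.e (nat_lit 147496) (nat_lit 11) (.e (nat_lit 24631) (nat_lit 9) (.e (nat_lit 335907) (nat_lit 0) (.e (nat_lit 970) (nat_lit 81) .nil))))) .nil)) 
(.lf (nat_lit 212412) (.g (nat_lit 1750) (.e (nat_lit 81965) (nat_lit 26) (.e (nat_lit 147496) (nat_lit 11) (.e (nat_lit 24640) (nat_lit 10) (.e (nat_lit 344087) (nat_lit 18) .nil)))) .nil)))))) (.nd (nat_lit 2) (.nd (nat_lit 3) (.nd (nat_lit 4) (.nd (nat_lit 5) 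
(.lf (nat_lit 212354) (.g (nat_lit 1373) (.e (nat_lit 81965) (nat_lit 26) (.e (nat_lit 147496) (nat_lit 11) (.e (nat_lit 24584) (nat_lit 0) (.e (nat_lit 6113) (nat_lit 332) (.e (nat_lit 2406) (nat_lit 157) .nil))))) .nil)) 
(.lf (nat_lit 212386) (.g (nat_lit 1540) (.e (nat_lit 81965) (nat_lit 26) (.e (nat_lit 147496) (nat_lit 11) (.e (nat_lit 24638) (nat_lit 9) (.e (nat_lit 335892) (nat_lit 0) (.e (nat_lit 996) (nat_lit 81) .nil))))) .nil))) (.nd (nat_lit 5) 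
(.lf (nat_lit 212370) (.g (nat_lit 2516) (.e (nat_lit 81965) (nat_lit 26) (.e (nat_lit 147496) (nat_lit 11) (.e (nat_lit 24617) (nat_lit 7) (.e (nat_lit 319505) (nat_lit 10) (.e (nat_lit 720) (nat_lit 64) (.e (nat_lit 688184) (nat_lit 18) .nil)))))) (.g (nat_lit 4) .nil .nil))) 
(.lf (nat_lit 212402) (.g (nat_lit 2601) (.e (nat_lit 81965) (nat_lit 26) (.e (nat_lit 147496) (nat_lit 11) (.e (nat_lit 24639) (nat_lit 10) (.e (nat_lit 344095) (nat_lit 18) (.e (nat_lit 7122) (nat_lit 382) (.e (nat_lit 7936) (nat_lit 90) .nil)))))) (.g (nat_lit 5) .nil .nil))))) (.nd (nat_lit 4) (.nd (nat_lit 5) 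
(.lf (nat_lit 212362) (.g (nat_lit 2259) (.e (nat_lit 81965) (nat_lit 26) (.e (nat_lit 147496) (nat_lit 11) (.e (nat_lit 24617) (nat_lit 7) (.e (nat_lit 319488) (nat_lit 0) .nil)))) .nil)) 
(.lf (nat_lit 212394) (.g (nat_lit 1865) (.e (nat_lit 81965) (nat_lit 26) (.e (nat_lit 147496) (nat_lit 11) (.e (nat_lit 24638) (nat_lit 9) (.e (nat_lit 335988) (nat_lit 1) (.e (nat_lit 57664) (nat_lit 152) .nil))))) .nil))) (.nd (nat_lit 5) 
(.lf (nat_lit 212378) (.g (nat_lit 2074) (.e (nat_lit 81965) (nat_lit 26) (.e (nat_lit 147496) (nat_lit 11) (.e (nat_lit 24628) (nat_lit 9) (.e (nat_lit 335878) (nat_lit 0) (.e (nat_lit 2271) (nat_lit 149) (.e (nat_lit 769792) (nat_lit 10) .nil)))))) (.g (nat_lit 5) .nil .nil))) 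
(.lf (nat_lit 212410) (.g (nat_lit 1108) (.e (nat_lit 81965) (nat_lit 26) (.e (nat_lit 147496) (nat_lit 11) (.e (nat_lit 24639) (nat_lit 10) (.e (nat_lit 344176) (nat_lit 43) .nil)))) .nil))))) (.nd (nat_lit 3) (.nd (nat_lit 4) (.nd (nat_lit 5) 
(.lf (nat_lit 212358) (.g (nat_lit 2463) (.e (nat_lit 81965) (nat_lit 26) (.e (nat_lit 147496) (nat_lit 11) (.e (nat_lit 24584) (nat_lit 0) (.e (nat_lit 6113) (nat_lit 332) (.e (nat_lit 2507) (nat_lit 157) (.e (nat_lit 59) (nat_lit 0) (.e (nat_lit 7160) (nat_lit 382) (.e (nat_lit 7936) (nat_lit 90) .nil)))))))) (.g (nat_lit 5) .nil .nil))) 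
(.lf (nat_lit 212390) (.g (nat_lit 3253) (.e (nat_lit 81965) (nat_lit 26) (.e (nat_lit 147496) (nat_lit 11) (.e (nat_lit 24638) (nat_lit 9) (.e (nat_lit 335986) (nat_lit 1) (.e (nat_lit 57655) (nat_lit 152) (.e (nat_lit 1216) (nat_lit 90) .nil)))))) (.g (nat_lit 0) .nil .nil)))) (.nd (nat_lit 5) 
(.lf (nat_lit 212374) (.g (nat_lit 2652) (.e (nat_lit 81965) (nat_lit 26) (.e (nat_lit 147496) (nat_lit 11) (.e (nat_lit 24623) (nat_lit 9) (.e (nat_lit 335997) (nat_lit 1) (.e (nat_lit 57655) (nat_lit 152) (.e (nat_lit 1217) (nat_lit 90) .nil)))))) (.g (nat_lit 4) .nil .nil))) 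
(.lf (nat_lit 212406) (.g (nat_lit 3707) (.e (nat_lit 81965) (nat_lit 26) (.e (nat_lit 147496) (nat_lit 11) (.e (nat_lit 24639) (nat_lit 10) (.e (nat_lit 344096) (nat_lit 18) (.e (nat_lit 7236) (nat_lit 382) (.e (nat_lit 1221) (nat_lit 90) .nil)))))) (.g (nat_lit 6) .nil .nil))))) (.nd (nat_lit 4) (.nd (nat_lit 5) 
(.lf (nat_lit 212366) (.g (nat_lit 2809) (.e (nat_lit 81965) (nat_lit 26) (.e (nat_lit 147496) (nat_lit 11) (.e (nat_lit 24617) (nat_lit 7) (.e (nat_lit 319500) (nat_lit 10) (.e (nat_lit 720) (nat_lit 64) (.e (nat_lit 688185) (nat_lit 18) .nil)))))) (.g (nat_lit 5) .nil .nil))) 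
(.lf (nat_lit 212398) (.g (nat_lit 2525) (.e (nat_lit 81965) (nat_lit 26) (.e (nat_lit 147496) (nat_lit 11) (.e (nat_lit 24639) (nat_lit 10) (.e (nat_lit 344090) (nat_lit 18) (.e (nat_lit 7119) (nat_lit 382) (.e (nat_lit 7936) (nat_lit 90) .nil)))))) (.g (nat_lit 5) .nil .nil)))) (.nd (nat_lit 5) 
(.lf (nat_lit 212382) (.g (nat_lit 1741) (.e (nat_lit 81965) (nat_lit 26) (.e (nat_lit 147496) (nat_lit 11) (.e (nat_lit 24632) (nat_lit 9) (.e (nat_lit 335997) (nat_lit 1) (.e (nat_lit 65280) (nat_lit 152) .nil))))) .nil)) 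
(.lf (nat_lit 212414) (.g (nat_lit 2547) (.e (nat_lit 81965) (nat_lit 26) (.e (nat_lit 147496) (nat_lit 11) (.e (nat_lit 24640) (nat_lit 10) (.e (nat_lit 344088) (nat_lit 18) (.e (nat_lit 7219) (nat_lit 382) (.e (nat_lit 1218) (nat_lit 90) .nil)))))) (.g (nat_lit 4) .nil .nil)))))))) (.nd (nat_lit 1) (.nd (nat_lit 2) (.nd (nat_lit 3) (.nd (nat_lit 4) (.nd (nat_lit 5) 
(.lf (nat_lit 212353) (.g (nat_lit 966) (.e (nat_lit 81965) (nat_lit 26) (.e (nat_lit 147496) (nat_lit 11) (.e (nat_lit 24584) (nat_lit 0) (.e (nat_lit 6113) (nat_lit 332) .nil)))) .nil)) 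
(.lf (nat_lit 212385) (.g (nat_lit 1112) (.e (nat_lit 81965) (nat_lit 26) (.e (nat_lit 147496) (nat_lit 11) (.e (nat_lit 24638) (nat_lit 9) (.e (nat_lit 335892) (nat_lit 0) .nil)))) .nil))) (.nd (nat_lit 5) 
(.lf (nat_lit 212369) (.g (nat_lit 3123) (.e (nat_lit 81965) (nat_lit 26) (.e (nat_lit 147496) (nat_lit 11) (.e (nat_lit 24617) (nat_lit 7) (.e (nat_lit 319504) (nat_lit 10) (.e (nat_lit 720) (nat_lit 64) (.e (nat_lit 688185) (nat_lit 18) .nil)))))) (.g (nat_lit 5) .nil .nil))) 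
(.lf (nat_lit 212401) (.g (nat_lit 2300) (.e (nat_lit 81965) (nat_lit 26) (.e (nat_lit 147496) (nat_lit 11) (.e (nat_lit 24639) (nat_lit 10) (.e (nat_lit 344095) (nat_lit 18) (.e (nat_lit 7119) (nat_lit 382) (.e (nat_lit 7936) (nat_lit 90) .nil)))))) (.g (nat_lit 5) .nil .nil))))) (.nd (nat_lit 4) (.nd (nat_lit 5) 
(.lf (nat_lit 212361) (.g (nat_lit 1484) (.e (nat_lit 81965) (nat_lit 26) (.e (nat_lit 147496) (nat_lit 11) (.e (nat_lit 24584) (nat_lit 0) (.e (nat_lit 6223) (nat_lit 334) .nil)))) .nil)) 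
(.lf (nat_lit 212393) (.g (nat_lit 2272) (.e (nat_lit 81965) (nat_lit 26) (.e (nat_lit 147496) (nat_lit 11) (.e (nat_lit 24638) (nat_lit 9) (.e (nat_lit 335987) (nat_lit 1) (.e (nat_lit 57665) (nat_lit 152) (.e (nat_lit 7936) (nat_lit 90) .nil)))))) (.g (nat_lit 5) .nil .nil)))) (.nd (nat_lit 5) 
(.lf (nat_lit 212377) (.g (nat_lit 1165) (.e (nat_lit 81965) (nat_lit 26) (.e (nat_lit 147496) (nat_lit 11) (.e (nat_lit 24628) (nat_lit 9) (.e (nat_lit 335878) (nat_lit 0) .nil)))) .nil)) 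
(.lf (nat_lit 212409) (.g (nat_lit 2159) (.e (nat_lit 81965) (nat_lit 26) (.e (nat_lit 147496) (nat_lit 11) (.e (nat_lit 24639) (nat_lit 10) (.e (nat_lit 344174) (nat_lit 42) (.e (nat_lit 769792) (nat_lit 10) .nil))))) (.g (nat_lit 4) .nil .nil)))))) (.nd (nat_lit 3) (.nd (nat_lit 4) (.nd (nat_lit 5) 
(.lf (nat_lit 212357) (.g (nat_lit 2453) (.e (nat_lit 81965) (nat_lit 26) (.e (nat_lit 147496) (nat_lit 11) (.e (nat_lit 24584) (nat_lit 0) (.e (nat_lit 6113) (nat_lit 332) (.e (nat_lit 2507) (nat_lit 157) (.e (nat_lit 59) (nat_lit 0) (.e (nat_lit 7160) (nat_lit 382) (.e (nat_lit 1215) (nat_lit 90) .nil)))))))) (.g (nat_lit 4) .nil .nil))) 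
(.lf (nat_lit 212389) (.g (nat_lit 1005) (.e (nat_lit 81965) (nat_lit 26) (.e (nat_lit 147496) (nat_lit 11) (.e (nat_lit 24638) (nat_lit 9) (.e (nat_lit 335897) (nat_lit 0) .nil)))) .nil))) (.nd (nat_lit 5) 
(.lf (nat_lit 212373) (.g (nat_lit 2474) (.e (nat_lit 81965) (nat_lit 26) (.e (nat_lit 147496) (nat_lit 11) (.e (nat_lit 24623) (nat_lit 9) (.e (nat_lit 335997) (nat_lit 1) (.e (nat_lit 57655) (nat_lit 152) (.e (nat_lit 1216) (nat_lit 90) .nil)))))) (.g (nat_lit 4) .nil .nil))) 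
(.lf (nat_lit 212405) (.g (nat_lit 2529) (.e (nat_lit 81965) (nat_lit 26) (.e (nat_lit 147496) (nat_lit 11) (.e (nat_lit 24639) (nat_lit 10) (.e (nat_lit 344096) (nat_lit 18) (.e (nat_lit 7124) (nat_lit 382) (.e (nat_lit 7936) (nat_lit 90) .nil)))))) (.g (nat_lit 5) .nil .nil))))) (.nd (nat_lit 4) (.nd (nat_lit 5) 
(.lf (nat_lit 212365) (.g (nat_lit 2014) (.e (nat_lit 81965) (nat_lit 26) (.e (nat_lit 147496) (nat_lit 11) (.e (nat_lit 24617) (nat_lit 7) (.e (nat_lit 319490) (nat_lit 0) (.e (nat_lit 7936) (nat_lit 73) (.e (nat_lit 769792) (nat_lit 10) .nil)))))) (.g (nat_lit 4) .nil .nil))) 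
(.lf (nat_lit 212397) (.g (nat_lit 435) (.e (nat_lit 81965) (nat_lit 26) (.e (nat_lit 147496) (nat_lit 11) (.e (nat_lit 24639) (nat_lit 10) .nil))) .nil))) (.nd (nat_lit 5) 
(.lf (nat_lit 212381) (.g (nat_lit 1088) (.e (nat_lit 81965) (nat_lit 26) (.e (nat_lit 147496) (nat_lit 11) (.e (nat_lit 24632) (nat_lit 9) (.e (nat_lit 335997) (nat_lit 1) .nil)))) .nil)) 
(.lf (nat_lit 212413) (.g (nat_lit 2240) (.e (nat_lit 81965) (nat_lit 26) (.e (nat_lit 147496) (nat_lit 11) (.e (nat_lit 24640) (nat_lit 10) (.e (nat_lit 344088) (nat_lit 18) (.e (nat_lit 7119) (nat_lit 382) (.e (nat_lit 7936) (nat_lit 90) .nil)))))) (.g (nat_lit 4) .nil .nil))))))) (.nd (nat_lit 2) (.nd (nat_lit 3) (.nd (nat_lit 4) (.nd (nat_lit 5) 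
(.lf (nat_lit 212355) (.g (nat_lit 2730) (.e (nat_lit 81965) (nat_lit 26) (.e (nat_lit 147496) (nat_lit 11) (.e (nat_lit 24584) (nat_lit 0) (.e (nat_lit 6113) (nat_lit 332) (.e (nat_lit 2406) (nat_lit 157) (.e (nat_lit 59) (nat_lit 0) (.e (nat_lit 7160) (nat_lit 382) (.e (nat_lit 1215) (nat_lit 90) .nil)))))))) (.g (nat_lit 5) .nil .nil))) 
(.lf (nat_lit 212387) (.g (nat_lit 1936) (.e (nat_lit 81965) (nat_lit 26) (.e (nat_lit 147496) (nat_lit 11) (.e (nat_lit 24638) (nat_lit 9) (.e (nat_lit 335892) (nat_lit 0) (.e (nat_lit 2271) (nat_lit 149) (.e (nat_lit 769792) (nat_lit 10) .nil)))))) (.g (nat_lit 4) .nil .nil)))) (.nd (nat_lit 5) 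
(.lf (nat_lit 212371) (.g (nat_lit 1565) (.e (nat_lit 81965) (nat_lit 26) (.e (nat_lit 147496) (nat_lit 11) (.e (nat_lit 24617) (nat_lit 7) (.e (nat_lit 319511) (nat_lit 10) (.e (nat_lit 59) (nat_lit 0) .nil))))) .nil)) 
(.lf (nat_lit 212403) (.g (nat_lit 2441) (.e (nat_lit 81965) (nat_lit 26) (.e (nat_lit 147496) (nat_lit 11) (.e (nat_lit 24639) (nat_lit 10) (.e (nat_lit 344096) (nat_lit 18) (.e (nat_lit 7119) (nat_lit 382) (.e (nat_lit 7936) (nat_lit 90) .nil)))))) (.g (nat_lit 4) .nil .nil))))) (.nd (nat_lit 4) (.nd (nat_lit 5) 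
(.lf (nat_lit 212363) (.g (nat_lit 2061) (.e (nat_lit 81965) (nat_lit 26) (.e (nat_lit 147496) (nat_lit 11) (.e (nat_lit 24617) (nat_lit 7) (.e (nat_lit 319490) (nat_lit 0) (.e (nat_lit 59) (nat_lit 0) .nil))))) .nil)) 
(.lf (nat_lit 212395) (.g (nat_lit 3013) (.e (nat_lit 81965) (nat_lit 26) (.e (nat_lit 147496) (nat_lit 11) (.e (nat_lit 24638) (nat_lit 9) (.e (nat_lit 335988) (nat_lit 1) (.e (nat_lit 57665) (nat_lit 152) (.e (nat_lit 7936) (nat_lit 90) .nil)))))) (.g (nat_lit 5) .nil .nil)))) (.nd (nat_lit 5) 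
(.lf (nat_lit 212379) (.g (nat_lit 1779) (.e (nat_lit 81965) (nat_lit 26) (.e (nat_lit 147496) (nat_lit 11) (.e (nat_lit 24628) (nat_lit 9) (.e (nat_lit 335999) (nat_lit 1) .nil)))) .nil)) 
(.lf (nat_lit 212411) (.g (nat_lit 3561) (.e (nat_lit 81965) (nat_lit 26) (.e (nat_lit 147496) (nat_lit 11) (.e (nat_lit 24639) (nat_lit 10) (.e (nat_lit 344177) (nat_lit 43) (.e (nat_lit 770074) (nat_lit 10) .nil))))) (.g (nat_lit 0) .nil .nil)))))) (.nd (nat_lit 3) (.nd (nat_lit 4) (.nd (nat_lit 5) 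
(.lf (nat_lit 212359) (.g (nat_lit 1215) (.e (nat_lit 81965) (nat_lit 26) (.e (nat_lit 147496) (nat_lit 11) (.e (nat_lit 24584) (nat_lit 0) (.e (nat_lit 6210) (nat_lit 333) (.e (nat_lit 65280) (nat_lit 105) .nil))))) .nil)) 
(.lf (nat_lit 212391) (.g (nat_lit 1938) (.e (nat_lit 81965) (nat_lit 26) (.e (nat_lit 147496) (nat_lit 11) (.e (nat_lit 24638) (nat_lit 9) (.e (nat_lit 335986) (nat_lit 1) (.e (nat_lit 57657) (nat_lit 152) .nil))))) .nil))) (.nd (nat_lit 5) 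
(.lf (nat_lit 212375) (.g (nat_lit 2147) (.e (nat_lit 81965) (nat_lit 26) (.e (nat_lit 147496) (nat_lit 11) (.e (nat_lit 24623) (nat_lit 9) (.e (nat_lit 335997) (nat_lit 1) (.e (nat_lit 57660) (nat_lit 152) (.e (nat_lit 7936) (nat_lit 90) .nil)))))) (.g (nat_lit 4) .nil .nil))) 
(.lf (nat_lit 212407) (.g (nat_lit 1766) (.e (nat_lit 81965) (nat_lit 26) (.e (nat_lit 147496) (nat_lit 11) (.e (nat_lit 24639) (nat_lit 10) (.e (nat_lit 344097) (nat_lit 18) (.e (nat_lit 7146) (nat_lit 382) .nil))))) .nil)))) (.nd (nat_lit 4) (.nd (nat_lit 5) 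
(.lf (nat_lit 212367) (.g (nat_lit 2406) (.e (nat_lit 81965) (nat_lit 26) (.e (nat_lit 147496) (nat_lit 11) (.e (nat_lit 24617) (nat_lit 7) (.e (nat_lit 319504) (nat_lit 10) (.e (nat_lit 18) (nat_lit 0) .nil))))) .nil)) 
(.lf (nat_lit 212399) (.g (nat_lit 1903) (.e (nat_lit 81965) (nat_lit 26) (.e (nat_lit 147496) (nat_lit 11) (.e (nat_lit 24639) (nat_lit 10) (.e (nat_lit 344090) (nat_lit 18) (.e (nat_lit 7122) (nat_lit 382) (.e (nat_lit 7936) (nat_lit 90) .nil)))))) (.g (nat_lit 4) .nil .nil)))) (.nd (nat_lit 5) 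
(.lf (nat_lit 212383) (.g (nat_lit 1623) (.e (nat_lit 81965) (nat_lit 26) (.e (nat_lit 147496) (nat_lit 11) (.e (nat_lit 24637) (nat_lit 9) (.e (nat_lit 335986) (nat_lit 1) (.e (nat_lit 57655) (nat_lit 152) .nil))))) .nil)) 
(.lf (nat_lit 212415) (.g (nat_lit 3012) (.e (nat_lit 81965) (nat_lit 26) (.e (nat_lit 147496) (nat_lit 11) (.e (nat_lit 24640) (nat_lit 10) (.e (nat_lit 344090) (nat_lit 18) (.e (nat_lit 7119) (nat_lit 382) (.e (nat_lit 7936) (nat_lit 90) .nil)))))) (.g (nat_lit 5) .nil .nil)))))))))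

noncomputable def tv2806 : DT := (.nd (nat_lit 0) (.nd (nat_lit 1) (.nd (nat_lit 2) (.nd (nat_lit 3) (.nd (nat_lit 4) (.nd (nat_lit 5) 
(.lf (nat_lit 212416) (.g (nat_lit 2447) (.e (nat_lit 81965) (nat_lit 26) (.e (nat_lit 147496) (nat_lit 11) (.e (nat_lit 24640) (nat_lit 10) (.e (nat_lit 344090) (nat_lit 18) (.e (nat_lit 7122) (nat_lit 382) (.e (nat_lit 7936) (nat_lit 90) .nil)))))) (.g (nat_lit 4) .nil .nil))) 
(.lf (nat_lit 212448) (.g (nat_lit 965) (.e (nat_lit 81965) (nat_lit 26) (.e (nat_lit 147496) (nat_lit 11) (.e (nat_lit 24641) (nat_lit 10) (.e (nat_lit 344093) (nat_lit 18) .nil)))) .nil))) (.nd (nat_lit 5) 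
(.lf (nat_lit 212432) (.g (nat_lit 3247) (.e (nat_lit 81965) (nat_lit 26) (.e (nat_lit 147496) (nat_lit 11) (.e (nat_lit 24640) (nat_lit 10) (.e (nat_lit 344096) (nat_lit 18) (.e (nat_lit 7124) (nat_lit 382) (.e (nat_lit 7936) (nat_lit 90) .nil)))))) (.g (nat_lit 5) .nil .nil))) 
(.lf (nat_lit 212464) (.g (nat_lit 2210) (.e (nat_lit 81965) (nat_lit 26) (.e (nat_lit 147499) (nat_lit 12) (.e (nat_lit 164020) (nat_lit 45) (.e (nat_lit 696344) (nat_lit 8) (.e (nat_lit 172061) (nat_lit 1) .nil))))) .nil)))) (.nd (nat_lit 4) (.nd (nat_lit 5) 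
(.lf (nat_lit 212424) (.g (nat_lit 1636) (.e (nat_lit 81965) (nat_lit 26) (.e (nat_lit 147496) (nat_lit 11) (.e (nat_lit 24640) (nat_lit 10) (.e (nat_lit 344094) (nat_lit 18) .nil)))) .nil)) 
(.lf (nat_lit 212456) (.g (nat_lit 1751) (.e (nat_lit 81965) (nat_lit 26) (.e (nat_lit 147496) (nat_lit 11) (.e (nat_lit 24642) (nat_lit 11) (.e (nat_lit 368662) (nat_lit 18) (.e (nat_lit 7147) (nat_lit 382) (.e (nat_lit 1216) (nat_lit 90) .nil)))))) (.g (nat_lit 4) .nil .nil)))) (.nd (nat_lit 5) 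
(.lf (nat_lit 212440) (.g (nat_lit 1750) (.e (nat_lit 81965) (nat_lit 26) (.e (nat_lit 147496) (nat_lit 11) (.e (nat_lit 24640) (nat_lit 10) (.e (nat_lit 344098) (nat_lit 18) .nil)))) .nil)) 
(.lf (nat_lit 212472) (.g (nat_lit 1151) (.e (nat_lit 90112) (nat_lit 0) (.e (nat_lit 1638) (nat_lit 114) (.e (nat_lit 385104) (nat_lit 50) (.e (nat_lit 786488) (nat_lit 34) .nil)))) .nil))))) (.nd (nat_lit 3) (.nd (nat_lit 4) (.nd (nat_lit 5) 
(.lf (nat_lit 212420) (.g (nat_lit 2847) (.e (nat_lit 81965) (nat_lit 26) (.e (nat_lit 147496) (nat_lit 11) (.e (nat_lit 24640) (nat_lit 10) (.e (nat_lit 344091) (nat_lit 18) (.e (nat_lit 7125) (nat_lit 382) (.e (nat_lit 1223) (nat_lit 90) .nil)))))) (.g (nat_lit 4) .nil .nil))) 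
(.lf (nat_lit 212452) (.g (nat_lit 2559) (.e (nat_lit 81965) (nat_lit 26) (.e (nat_lit 147496) (nat_lit 11) (.e (nat_lit 24641) (nat_lit 10) (.e (nat_lit 344096) (nat_lit 18) (.e (nat_lit 7122) (nat_lit 382) (.e (nat_lit 7936) (nat_lit 90) .nil)))))) (.g (nat_lit 5) .nil .nil)))) (.nd (nat_lit 5) 
(.lf (nat_lit 212436) (.g (nat_lit 2376) (.e (nat_lit 81965) (nat_lit 26) (.e (nat_lit 147496) (nat_lit 11) (.e (nat_lit 24640) (nat_lit 10) (.e (nat_lit 344097) (nat_lit 18) (.e (nat_lit 7145) (nat_lit 382) (.e (nat_lit 1216) (nat_lit 90) .nil)))))) (.g (nat_lit 4) .nil .nil))) 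
(.lf (nat_lit 212468) (.g (nat_lit 1047) (.e (nat_lit 81965) (nat_lit 26) (.e (nat_lit 147511) (nat_lit 14) (.e (nat_lit 2797) (nat_lit 180) (.e (nat_lit 303133) (nat_lit 9) .nil)))) .nil)))) (.nd (nat_lit 4) (.nd (nat_lit 5) 
(.lf (nat_lit 212428) (.g (nat_lit 2633) (.e (nat_lit 81965) (nat_lit 26) (.e (nat_lit 147496) (nat_lit 11) (.e (nat_lit 24640) (nat_lit 10) (.e (nat_lit 344095) (nat_lit 18) (.e (nat_lit 7119) (nat_lit 382) (.e (nat_lit 7936) (nat_lit 90) .nil)))))) (.g (nat_lit 5) .nil .nil))) 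
(.lf (nat_lit 212460) (.g (nat_lit 1702) (.e (nat_lit 81965) (nat_lit 26) (.e (nat_lit 147496) (nat_lit 11) (.e (nat_lit 24648) (nat_lit 12) (.e (nat_lit 385047) (nat_lit 21) (.e (nat_lit 4491) (nat_lit 263) .nil))))) .nil))) (.nd (nat_lit 5) 
(.lf (nat_lit 212444) (.g (nat_lit 2836) (.e (nat_lit 81965) (nat_lit 26) (.e (nat_lit 147496) (nat_lit 11) (.e (nat_lit 24640) (nat_lit 10) (.e (nat_lit 344176) (nat_lit 43) (.e (nat_lit 777984) (nat_lit 10) .nil))))) (.g (nat_lit 4) .nil .nil))) 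
(.lf (nat_lit 212476) (.g (nat_lit 900) (.e (nat_lit 90113) (nat_lit 0) (.e (nat_lit 1638) (nat_lit 114) (.e (nat_lit 385102) (nat_lit 50) (.e (nat_lit 786489) (nat_lit 34) .nil)))) .nil)))))) (.nd (nat_lit 2) (.nd (nat_lit 3) (.nd (nat_lit 4) (.nd (nat_lit 5) 
(.lf (nat_lit 212418) (.g (nat_lit 2472) (.e (nat_lit 81965) (nat_lit 26) (.e (nat_lit 147496) (nat_lit 11) (.e (nat_lit 24640) (nat_lit 10) (.e (nat_lit 344091) (nat_lit 18) (.e (nat_lit 7119) (nat_lit 382) (.e (nat_lit 7936) (nat_lit 90) .nil)))))) (.g (nat_lit 4) .nil .nil))) 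
(.lf (nat_lit 212450) (.g (nat_lit 2421) (.e (nat_lit 81965) (nat_lit 26) (.e (nat_lit 147496) (nat_lit 11) (.e (nat_lit 24641) (nat_lit 10) (.e (nat_lit 344095) (nat_lit 18) (.e (nat_lit 7122) (nat_lit 382) (.e (nat_lit 7936) (nat_lit 90) .nil)))))) (.g (nat_lit 5) .nil .nil)))) (.nd (nat_lit 5) 
(.lf (nat_lit 212434) (.g (nat_lit 2209) (.e (nat_lit 81965) (nat_lit 26) (.e (nat_lit 147496) (nat_lit 11) (.e (nat_lit 24640) (nat_lit 10) (.e (nat_lit 344096) (nat_lit 18) (.e (nat_lit 7132) (nat_lit 382) .nil))))) .nil)) 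
(.lf (nat_lit 212466) (.g (nat_lit 2317) (.e (nat_lit 81965) (nat_lit 26) (.e (nat_lit 147499) (nat_lit 12) (.e (nat_lit 164020) (nat_lit 45) (.e (nat_lit 696344) (nat_lit 8) (.e (nat_lit 172070) (nat_lit 4) .nil))))) .nil)))) (.nd (nat_lit 4) (.nd (nat_lit 5) 
(.lf (nat_lit 212426) (.g (nat_lit 2675) (.e (nat_lit 81965) (nat_lit 26) (.e (nat_lit 147496) (nat_lit 11) (.e (nat_lit 24640) (nat_lit 10) (.e (nat_lit 344094) (nat_lit 18) (.e (nat_lit 7122) (nat_lit 382) (.e (nat_lit 7936) (nat_lit 90) .nil)))))) (.g (nat_lit 4) .nil .nil))) 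
(.lf (nat_lit 212458) (.g (nat_lit 1874) (.e (nat_lit 81965) (nat_lit 26) (.e (nat_lit 147496) (nat_lit 11) (.e (nat_lit 24645) (nat_lit 11) (.e (nat_lit 368662) (nat_lit 18) (.e (nat_lit 7147) (nat_lit 382) (.e (nat_lit 1216) (nat_lit 90) .nil)))))) (.g (nat_lit 4) .nil .nil)))) (.nd (nat_lit 5) 
(.lf (nat_lit 212442) (.g (nat_lit 1759) (.e (nat_lit 81965) (nat_lit 26) (.e (nat_lit 147496) (nat_lit 11) (.e (nat_lit 24640) (nat_lit 10) (.e (nat_lit 344101) (nat_lit 18) .nil)))) .nil)) 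
(.lf (nat_lit 212474) (.g (nat_lit 1382) (.e (nat_lit 90112) (nat_lit 0) (.e (nat_lit 1638) (nat_lit 114) (.e (nat_lit 385105) (nat_lit 50) (.e (nat_lit 786488) (nat_lit 34) .nil)))) .nil))))) (.nd (nat_lit 3) (.nd (nat_lit 4) (.nd (nat_lit 5) 
(.lf (nat_lit 212422) (.g (nat_lit 1781) (.e (nat_lit 81965) (nat_lit 26) (.e (nat_lit 147496) (nat_lit 11) (.e (nat_lit 24640) (nat_lit 10) (.e (nat_lit 344093) (nat_lit 18) .nil)))) .nil)) 
(.lf (nat_lit 212454) (.g (nat_lit 3394) (.e (nat_lit 81965) (nat_lit 26) (.e (nat_lit 147496) (nat_lit 11) (.e (nat_lit 24641) (nat_lit 10) (.e (nat_lit 344096) (nat_lit 18) (.e (nat_lit 7236) (nat_lit 382) (.e (nat_lit 1221) (nat_lit 90) .nil)))))) (.g (nat_lit 0) .nil .nil)))) (.nd (nat_lit 5) 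
(.lf (nat_lit 212438) (.g (nat_lit 2558) (.e (nat_lit 81965) (nat_lit 26) (.e (nat_lit 147496) (nat_lit 11) (.e (nat_lit 24640) (nat_lit 10) (.e (nat_lit 344097) (nat_lit 18) (.e (nat_lit 7160) (nat_lit 382) (.e (nat_lit 1215) (nat_lit 90) .nil)))))) (.g (nat_lit 4) .nil .nil))) 
(.lf (nat_lit 212470) (.g (nat_lit 1909) (.e (nat_lit 81965) (nat_lit 26) (.e (nat_lit 147512) (nat_lit 14) (.e (nat_lit 2808) (nat_lit 180) (.e (nat_lit 303127) (nat_lit 9) (.e (nat_lit 426428) (nat_lit 17) (.e (nat_lit 98048) (nat_lit 6) .nil)))))) (.g (nat_lit 4) .nil .nil))))) (.nd (nat_lit 4) (.nd (nat_lit 5) 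
(.lf (nat_lit 212430) (.g (nat_lit 3142) (.e (nat_lit 81965) (nat_lit 26) (.e (nat_lit 147496) (nat_lit 11) (.e (nat_lit 24640) (nat_lit 10) (.e (nat_lit 344096) (nat_lit 18) (.e (nat_lit 7119) (nat_lit 382) (.e (nat_lit 7936) (nat_lit 90) .nil)))))) (.g (nat_lit 5) .nil .nil))) 
(.lf (nat_lit 212462) (.g (nat_lit 2683) (.e (nat_lit 81965) (nat_lit 26) (.e (nat_lit 147496) (nat_lit 11) (.e (nat_lit 24661) (nat_lit 14) (.e (nat_lit 401414) (nat_lit 0) (.e (nat_lit 3459) (nat_lit 216) .nil))))) .nil))) (.nd (nat_lit 5) 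
(.lf (nat_lit 212446) (.g (nat_lit 1956) (.e (nat_lit 81965) (nat_lit 26) (.e (nat_lit 147496) (nat_lit 11) (.e (nat_lit 24641) (nat_lit 10) (.e (nat_lit 344091) (nat_lit 18) (.e (nat_lit 7119) (nat_lit 382) (.e (nat_lit 7936) (nat_lit 90) .nil)))))) (.g (nat_lit 4) .nil .nil))) 
(.lf (nat_lit 212478) (.g (nat_lit 1242) (.e (nat_lit 90113) (nat_lit 0) (.e (nat_lit 1638) (nat_lit 114) (.e (nat_lit 385104) (nat_lit 50) (.e (nat_lit 786488) (nat_lit 34) (.e (nat_lit 401152) (nat_lit 3) .nil))))) .nil))))))) (.nd (nat_lit 1) (.nd (nat_lit 2) (.nd (nat_lit 3) (.nd (nat_lit 4) (.nd (nat_lit 5) 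
(.lf (nat_lit 212417) (.g (nat_lit 2792) (.e (nat_lit 81965) (nat_lit 26) (.e (nat_lit 147496) (nat_lit 11) (.e (nat_lit 24640) (nat_lit 10) (.e (nat_lit 344090) (nat_lit 18) (.e (nat_lit 7124) (nat_lit 382) (.e (nat_lit 7936) (nat_lit 90) .nil)))))) (.g (nat_lit 5) .nil .nil))) 
(.lf (nat_lit 212449) (.g (nat_lit 2120) (.e (nat_lit 81965) (nat_lit 26) (.e (nat_lit 147496) (nat_lit 11) (.e (nat_lit 24641) (nat_lit 10) (.e (nat_lit 344095) (nat_lit 18) (.e (nat_lit 7119) (nat_lit 382) (.e (nat_lit 7936) (nat_lit 90) .nil)))))) (.g (nat_lit 4) .nil .nil)))) (.nd (nat_lit 5) 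
(.lf (nat_lit 212433) (.g (nat_lit 2204) (.e (nat_lit 81965) (nat_lit 26) (.e (nat_lit 147496) (nat_lit 11) (.e (nat_lit 24640) (nat_lit 10) (.e (nat_lit 344096) (nat_lit 18) (.e (nat_lit 7125) (nat_lit 382) (.e (nat_lit 7936) (nat_lit 90) .nil)))))) (.g (nat_lit 4) .nil .nil))) 
(.lf (nat_lit 212465) (.g (nat_lit 2983) (.e (nat_lit 81965) (nat_lit 26) (.e (nat_lit 147499) (nat_lit 12) (.e (nat_lit 164020) (nat_lit 45) (.e (nat_lit 696344) (nat_lit 8) (.e (nat_lit 172061) (nat_lit 1) (.e (nat_lit 164149) (nat_lit 152) (.e (nat_lit 1217) (nat_lit 90) .nil))))))) (.g (nat_lit 4) .nil .nil))))) (.nd (nat_lit 4) (.nd (nat_lit 5) 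
(.lf (nat_lit 212425) (.g (nat_lit 2688) (.e (nat_lit 81965) (nat_lit 26) (.e (nat_lit 147496) (nat_lit 11) (.e (nat_lit 24640) (nat_lit 10) (.e (nat_lit 344094) (nat_lit 18) (.e (nat_lit 7119) (nat_lit 382) (.e (nat_lit 7936) (nat_lit 90) .nil)))))) (.g (nat_lit 4) .nil .nil))) 
(.lf (nat_lit 212457) (.g (nat_lit 2264) (.e (nat_lit 81965) (nat_lit 26) (.e (nat_lit 147496) (nat_lit 11) (.e (nat_lit 24642) (nat_lit 11) (.e (nat_lit 368662) (nat_lit 18) (.e (nat_lit 7147) (nat_lit 382) (.e (nat_lit 1217) (nat_lit 90) .nil)))))) (.g (nat_lit 4) .nil .nil)))) (.nd (nat_lit 5) 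
(.lf (nat_lit 212441) (.g (nat_lit 1762) (.e (nat_lit 81965) (nat_lit 26) (.e (nat_lit 147496) (nat_lit 11) (.e (nat_lit 24640) (nat_lit 10) (.e (nat_lit 344099) (nat_lit 18) .nil)))) .nil)) 
(.lf (nat_lit 212473) (.g (nat_lit 1166) (.e (nat_lit 90112) (nat_lit 0) (.e (nat_lit 1638) (nat_lit 114) (.e (nat_lit 385104) (nat_lit 50) (.e (nat_lit 786489) (nat_lit 34) .nil)))) .nil))))) (.nd (nat_lit 3) (.nd (nat_lit 4) (.nd (nat_lit 5) 
(.lf (nat_lit 212421) (.g (nat_lit 2041) (.e (nat_lit 81965) (nat_lit 26) (.e (nat_lit 147496) (nat_lit 11) (.e (nat_lit 24640) (nat_lit 10) (.e (nat_lit 344091) (nat_lit 18) (.e (nat_lit 7226) (nat_lit 382) .nil))))) .nil)) 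
(.lf (nat_lit 212453) (.g (nat_lit 2169) (.e (nat_lit 81965) (nat_lit 26) (.e (nat_lit 147496) (nat_lit 11) (.e (nat_lit 24641) (nat_lit 10) (.e (nat_lit 344096) (nat_lit 18) (.e (nat_lit 7124) (nat_lit 382) (.e (nat_lit 7936) (nat_lit 90) .nil)))))) (.g (nat_lit 4) .nil .nil)))) (.nd (nat_lit 5) 
(.lf (nat_lit 212437) (.g (nat_lit 2720) (.e (nat_lit 81965) (nat_lit 26) (.e (nat_lit 147496) (nat_lit 11) (.e (nat_lit 24640) (nat_lit 10) (.e (nat_lit 344097) (nat_lit 18) (.e (nat_lit 7146) (nat_lit 382) (.e (nat_lit 7936) (nat_lit 90) .nil)))))) (.g (nat_lit 5) .nil .nil))) 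
(.lf (nat_lit 212469) (.g (nat_lit 804) (.e (nat_lit 81965) (nat_lit 26) (.e (nat_lit 147512) (nat_lit 14) (.e (nat_lit 2807) (nat_lit 180) (.e (nat_lit 303127) (nat_lit 9) .nil)))) .nil)))) (.nd (nat_lit 4) (.nd (nat_lit 5) 
(.lf (nat_lit 212429) (.g (nat_lit 2981) (.e (nat_lit 81965) (nat_lit 26) (.e (nat_lit 147496) (nat_lit 11) (.e (nat_lit 24640) (nat_lit 10) (.e (nat_lit 344095) (nat_lit 18) (.e (nat_lit 7122) (nat_lit 382) (.e (nat_lit 7936) (nat_lit 90) .nil)))))) (.g (nat_lit 5) .nil .nil))) 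
(.lf (nat_lit 212461) (.g (nat_lit 2354) (.e (nat_lit 81965) (nat_lit 26) (.e (nat_lit 147496) (nat_lit 11) (.e (nat_lit 24661) (nat_lit 14) (.e (nat_lit 401412) (nat_lit 0) (.e (nat_lit 3453) (nat_lit 216) .nil))))) .nil))) (.nd (nat_lit 5) 
(.lf (nat_lit 212445) (.g (nat_lit 3718) (.e (nat_lit 81965) (nat_lit 26) (.e (nat_lit 147496) (nat_lit 11) (.e (nat_lit 24640) (nat_lit 10) (.e (nat_lit 344177) (nat_lit 43) (.e (nat_lit 770074) (nat_lit 10) .nil))))) (.g (nat_lit 0) .nil .nil))) 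
(.lf (nat_lit 212477) (.g (nat_lit 579) (.e (nat_lit 90113) (nat_lit 0) (.e (nat_lit 1638) (nat_lit 114) (.e (nat_lit 385103) (nat_lit 50) .nil))) .nil)))))) (.nd (nat_lit 2) (.nd (nat_lit 3) (.nd (nat_lit 4) (.nd (nat_lit 5) 
(.lf (nat_lit 212419) (.g (nat_lit 2266) (.e (nat_lit 81965) (nat_lit 26) (.e (nat_lit 147496) (nat_lit 11) (.e (nat_lit 24640) (nat_lit 10) (.e (nat_lit 344091) (nat_lit 18) (.e (nat_lit 7124) (nat_lit 382) (.e (nat_lit 7936) (nat_lit 90) .nil)))))) (.g (nat_lit 4) .nil .nil))) 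
(.lf (nat_lit 212451) (.g (nat_lit 2078) (.e (nat_lit 81965) (nat_lit 26) (.e (nat_lit 147496) (nat_lit 11) (.e (nat_lit 24641) (nat_lit 10) (.e (nat_lit 344096) (nat_lit 18) (.e (nat_lit 7119) (nat_lit 382) (.e (nat_lit 7936) (nat_lit 90) .nil)))))) (.g (nat_lit 4) .nil .nil)))) (.nd (nat_lit 5) 
(.lf (nat_lit 212435) (.g (nat_lit 4400) (.e (nat_lit 81965) (nat_lit 26) (.e (nat_lit 147496) (nat_lit 11) (.e (nat_lit 24640) (nat_lit 10) (.e (nat_lit 344096) (nat_lit 18) (.e (nat_lit 7236) (nat_lit 382) (.e (nat_lit 1221) (nat_lit 90) .nil)))))) (.g (nat_lit 0) .nil .nil))) 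
(.lf (nat_lit 212467) (.g (nat_lit 3306) (.e (nat_lit 81965) (nat_lit 26) (.e (nat_lit 147503) (nat_lit 12) (.e (nat_lit 164023) (nat_lit 46) (.e (nat_lit 704629) (nat_lit 9) (.e (nat_lit 442) (nat_lit 33) (.e (nat_lit 434285) (nat_lit 42) (.e (nat_lit 688185) (nat_lit 18) .nil))))))) (.g (nat_lit 5) .nil .nil))))) (.nd (nat_lit 4) (.nd (nat_lit 5) 
(.lf (nat_lit 212427) (.g (nat_lit 2400) (.e (nat_lit 81965) (nat_lit 26) (.e (nat_lit 147496) (nat_lit 11) (.e (nat_lit 24640) (nat_lit 10) (.e (nat_lit 344094) (nat_lit 18) (.e (nat_lit 7124) (nat_lit 382) (.e (nat_lit 7936) (nat_lit 90) .nil)))))) (.g (nat_lit 4) .nil .nil))) 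
(.lf (nat_lit 212459) (.g (nat_lit 916) (.e (nat_lit 81965) (nat_lit 26) (.e (nat_lit 147496) (nat_lit 11) (.e (nat_lit 24647) (nat_lit 12) (.e (nat_lit 385045) (nat_lit 21) .nil)))) .nil))) (.nd (nat_lit 5) 
(.lf (nat_lit 212443) (.g (nat_lit 2318) (.e (nat_lit 81965) (nat_lit 26) (.e (nat_lit 147496) (nat_lit 11) (.e (nat_lit 24640) (nat_lit 10) (.e (nat_lit 344174) (nat_lit 42) (.e (nat_lit 769792) (nat_lit 10) .nil))))) (.g (nat_lit 4) .nil .nil))) 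
(.lf (nat_lit 212475) (.g (nat_lit 1390) (.e (nat_lit 90112) (nat_lit 0) (.e (nat_lit 1638) (nat_lit 114) (.e (nat_lit 385105) (nat_lit 50) (.e (nat_lit 786489) (nat_lit 34) .nil)))) .nil))))) (.nd (nat_lit 3) (.nd (nat_lit 4) (.nd (nat_lit 5) 
(.lf (nat_lit 212423) (.g (nat_lit 2678) (.e (nat_lit 81965) (nat_lit 26) (.e (nat_lit 147496) (nat_lit 11) (.e (nat_lit 24640) (nat_lit 10) (.e (nat_lit 344093) (nat_lit 18) (.e (nat_lit 7168) (nat_lit 382) (.e (nat_lit 7936) (nat_lit 90) .nil)))))) (.g (nat_lit 5) .nil .nil))) 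
(.lf (nat_lit 212455) (.g (nat_lit 2202) (.e (nat_lit 81965) (nat_lit 26) (.e (nat_lit 147496) (nat_lit 11) (.e (nat_lit 24641) (nat_lit 10) (.e (nat_lit 344174) (nat_lit 42) (.e (nat_lit 769792) (nat_lit 10) .nil))))) (.g (nat_lit 4) .nil .nil)))) (.nd (nat_lit 5) 
(.lf (nat_lit 212439) (.g (nat_lit 2509) (.e (nat_lit 81965) (nat_lit 26) (.e (nat_lit 147496) (nat_lit 11) (.e (nat_lit 24640) (nat_lit 10) (.e (nat_lit 344097) (nat_lit 18) (.e (nat_lit 7160) (nat_lit 382) (.e (nat_lit 7936) (nat_lit 90) .nil)))))) (.g (nat_lit 4) .nil .nil))) 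
(.lf (nat_lit 212471) (.g (nat_lit 577) (.e (nat_lit 90112) (nat_lit 0) (.e (nat_lit 1638) (nat_lit 114) (.e (nat_lit 385102) (nat_lit 50) .nil))) .nil)))) (.nd (nat_lit 4) (.nd (nat_lit 5) 
(.lf (nat_lit 212431) (.g (nat_lit 3611) (.e (nat_lit 81965) (nat_lit 26) (.e (nat_lit 147496) (nat_lit 11) (.e (nat_lit 24640) (nat_lit 10) (.e (nat_lit 344096) (nat_lit 18) (.e (nat_lit 7122) (nat_lit 382) (.e (nat_lit 7936) (nat_lit 90) .nil)))))) (.g (nat_lit 5) .nil .nil))) 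
(.lf (nat_lit 212463) (.g (nat_lit 2908) (.e (nat_lit 81965) (nat_lit 26) (.e (nat_lit 147496) (nat_lit 11) (.e (nat_lit 24662) (nat_lit 14) (.e (nat_lit 401422) (nat_lit 1) (.e (nat_lit 164149) (nat_lit 152) .nil))))) .nil))) (.nd (nat_lit 5) 
(.lf (nat_lit 212447) (.g (nat_lit 3401) (.e (nat_lit 81965) (nat_lit 26) (.e (nat_lit 147496) (nat_lit 11) (.e (nat_lit 24641) (nat_lit 10) (.e (nat_lit 344091) (nat_lit 18) (.e (nat_lit 7236) (nat_lit 382) (.e (nat_lit 1221) (nat_lit 90) .nil)))))) (.g (nat_lit 0) .nil .nil))) 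
(.lf (nat_lit 212479) (.g (nat_lit 1158) (.e (nat_lit 90113) (nat_lit 0) (.e (nat_lit 1638) (nat_lit 114) (.e (nat_lit 385104) (nat_lit 50) (.e (nat_lit 786489) (nat_lit 34) .nil)))) .nil))))))))

noncomputable def tv2807 : DT := (.nd (nat_lit 0) (.nd (nat_lit 1) (.nd (nat_lit 2) (.nd (nat_lit 3) (.nd (nat_lit 4) (.nd (nat_lit 5) (.nd (nat_lit 6) 
(.lf (nat_lit 212480) (.g (nat_lit 1395) (.e (nat_lit 90113) (nat_lit 0) (.e (nat_lit 1638) (nat_lit 114) (.e (nat_lit 385105) (nat_lit 50) (.e (nat_lit 786456) (nat_lit 18) .nil)))) .nil)) 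
(.lf (nat_lit 212544) (.g (nat_lit 486) (.e (nat_lit 98048) (nat_lit 2) (.e (nat_lit 16425) (nat_lit 7) (.e (nat_lit 417536) (nat_lit 0) .nil))) .nil))) (.nd (nat_lit 6) 
(.lf (nat_lit 212512) (.g (nat_lit 852) (.e (nat_lit 90120) (nat_lit 0) (.e (nat_lit 1638) (nat_lit 114) (.e (nat_lit 385102) (nat_lit 50) (.e (nat_lit 786489) (nat_lit 34) .nil)))) .nil)) 
(.lf (nat_lit 212576) (.g (nat_lit 252) (.e (nat_lit 98048) (nat_lit 2) (.e (nat_lit 16461) (nat_lit 12) (.e (nat_lit 483072) (nat_lit 0) .nil))) .nil)))) (.nd (nat_lit 5) (.nd (nat_lit 6) 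
(.lf (nat_lit 212496) (.g (nat_lit 2030) (.e (nat_lit 90117) (nat_lit 0) (.e (nat_lit 1633) (nat_lit 114) (.e (nat_lit 385106) (nat_lit 50) (.e (nat_lit 786488) (nat_lit 34) .nil)))) .nil)) 
(.lf (nat_lit 212560) (.g (nat_lit 479) (.e (nat_lit 98048) (nat_lit 2) (.e (nat_lit 16435) (nat_lit 9) (.e (nat_lit 426562) (nat_lit 33) .nil))) .nil))) (.nd (nat_lit 6) 
(.lf (nat_lit 212528) (.g (nat_lit 701) (.e (nat_lit 98048) (nat_lit 0) (.e (nat_lit 1284) (nat_lit 94) (.e (nat_lit 114714) (nat_lit 22) (.e (nat_lit 90167) (nat_lit 13) .nil)))) .nil)) 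
(.lf (nat_lit 212592) (.g (nat_lit 1036) (.e (nat_lit 98048) (nat_lit 2) (.e (nat_lit 16466) (nat_lit 13) (.e (nat_lit 483331) (nat_lit 0) (.e (nat_lit 7936) (nat_lit 406) .nil)))) .nil))))) (.nd (nat_lit 4) (.nd (nat_lit 5) (.nd (nat_lit 6) 
(.lf (nat_lit 212488) (.g (nat_lit 1252) (.e (nat_lit 90115) (nat_lit 0) (.e (nat_lit 1638) (nat_lit 114) (.e (nat_lit 385105) (nat_lit 50) (.e (nat_lit 786488) (nat_lit 34) .nil)))) .nil)) 
(.lf (nat_lit 212552) (.g (nat_lit 998) (.e (nat_lit 98048) (nat_lit 2) (.e (nat_lit 16425) (nat_lit 7) (.e (nat_lit 409632) (nat_lit 13) (.e (nat_lit 40965) (nat_lit 0) (.e (nat_lit 1558) (nat_lit 110) .nil))))) .nil))) (.nd (nat_lit 6) 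
(.lf (nat_lit 212520) (.g (nat_lit 1750) (.e (nat_lit 98048) (nat_lit 0) (.e (nat_lit 375) (nat_lit 32) (.e (nat_lit 426173) (nat_lit 7) (.e (nat_lit 409632) (nat_lit 13) .nil)))) .nil)) 
(.lf (nat_lit 212584) (.g (nat_lit 702) (.e (nat_lit 98048) (nat_lit 2) (.e (nat_lit 16465) (nat_lit 13) (.e (nat_lit 491264) (nat_lit 16) (.e (nat_lit 491555) (nat_lit 9) (.e (nat_lit 336010) (nat_lit 2) .nil))))) .nil)))) (.nd (nat_lit 5) (.nd (nat_lit 6) 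
(.lf (nat_lit 212504) (.g (nat_lit 1944) (.e (nat_lit 90118) (nat_lit 0) (.e (nat_lit 1638) (nat_lit 114) (.e (nat_lit 385068) (nat_lit 26) (.e (nat_lit 532544) (nat_lit 10) .nil)))) .nil)) 
(.lf (nat_lit 212568) (.g (nat_lit 453) (.e (nat_lit 98048) (nat_lit 2) (.e (nat_lit 16446) (nat_lit 9) (.e (nat_lit 426009) (nat_lit 0) .nil))) .nil))) (.nd (nat_lit 6) 
(.lf (nat_lit 212536) (.g (nat_lit 1282) (.e (nat_lit 98048) (nat_lit 0) (.e (nat_lit 1641) (nat_lit 114) (.e (nat_lit 385106) (nat_lit 50) (.e (nat_lit 786489) (nat_lit 34) (.e (nat_lit 401152) (nat_lit 3) .nil))))) .nil)) 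
(.lf (nat_lit 212600) (.g (nat_lit 1198) (.e (nat_lit 98048) (nat_lit 2) (.e (nat_lit 16468) (nat_lit 13) (.e (nat_lit 483365) (nat_lit 18) (.e (nat_lit 57678) (nat_lit 153) .nil)))) .nil)))))) (.nd (nat_lit 3) (.nd (nat_lit 4) (.nd (nat_lit 5) (.nd (nat_lit 6) 
(.lf (nat_lit 212484) (.g (nat_lit 2291) (.e (nat_lit 90114) (nat_lit 0) (.e (nat_lit 1638) (nat_lit 114) (.e (nat_lit 385068) (nat_lit 26) (.e (nat_lit 532555) (nat_lit 13) (.e (nat_lit 368676) (nat_lit 21) .nil))))) .nil)) 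
(.lf (nat_lit 212548) (.g (nat_lit 1648) (.e (nat_lit 98048) (nat_lit 2) (.e (nat_lit 16425) (nat_lit 7) (.e (nat_lit 409616) (nat_lit 10) (.e (nat_lit 934) (nat_lit 76) .nil)))) .nil))) (.nd (nat_lit 6) 
(.lf (nat_lit 212516) (.g (nat_lit 1910) (.e (nat_lit 98048) (nat_lit 0) (.e (nat_lit 375) (nat_lit 32) (.e (nat_lit 426173) (nat_lit 7) (.e (nat_lit 409616) (nat_lit 10) (.e (nat_lit 921) (nat_lit 75) .nil))))) .nil)) 
(.lf (nat_lit 212580) (.g (nat_lit 872) (.e (nat_lit 98048) (nat_lit 2) (.e (nat_lit 16463) (nat_lit 13) (.e (nat_lit 483363) (nat_lit 18) .nil))) .nil)))) (.nd (nat_lit 5) (.nd (nat_lit 6) 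
(.lf (nat_lit 212500) (.g (nat_lit 557) (.e (nat_lit 90118) (nat_lit 0) (.e (nat_lit 1638) (nat_lit 114) (.e (nat_lit 385065) (nat_lit 26) .nil))) .nil)) 
(.lf (nat_lit 212564) (.g (nat_lit 1016) (.e (nat_lit 98048) (nat_lit 2) (.e (nat_lit 16436) (nat_lit 9) (.e (nat_lit 426558) (nat_lit 33) (.e (nat_lit 392960) (nat_lit 4) .nil)))) .nil))) (.nd (nat_lit 6) 
(.lf (nat_lit 212532) (.g (nat_lit 576) (.e (nat_lit 98048) (nat_lit 0) (.e (nat_lit 1638) (nat_lit 114) (.e (nat_lit 385103) (nat_lit 50) (.e (nat_lit 786489) (nat_lit 34) .nil)))) .nil)) 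
(.lf (nat_lit 212596) (.g (nat_lit 724) (.e (nat_lit 98048) (nat_lit 2) (.e (nat_lit 16468) (nat_lit 13) (.e (nat_lit 483333) (nat_lit 0) (.e (nat_lit 6988) (nat_lit 377) .nil)))) .nil))))) (.nd (nat_lit 4) (.nd (nat_lit 5) (.nd (nat_lit 6) 
(.lf (nat_lit 212492) (.g (nat_lit 1964) (.e (nat_lit 90117) (nat_lit 0) (.e (nat_lit 1633) (nat_lit 114) (.e (nat_lit 385068) (nat_lit 26) (.e (nat_lit 532544) (nat_lit 10) .nil)))) .nil)) 
(.lf (nat_lit 212556) (.g (nat_lit 1313) (.e (nat_lit 98048) (nat_lit 2) (.e (nat_lit 16433) (nat_lit 9) (.e (nat_lit 426562) (nat_lit 33) (.e (nat_lit 392960) (nat_lit 4) .nil)))) .nil))) (.nd (nat_lit 6) 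
(.lf (nat_lit 212524) (.g (nat_lit 1160) (.e (nat_lit 98048) (nat_lit 0) (.e (nat_lit 479) (nat_lit 37) (.e (nat_lit 466972) (nat_lit 21) (.e (nat_lit 164195) (nat_lit 158) (.e (nat_lit 1199) (nat_lit 88) .nil))))) .nil)) 
(.lf (nat_lit 212588) (.g (nat_lit 1937) (.e (nat_lit 98048) (nat_lit 2) (.e (nat_lit 16465) (nat_lit 13) (.e (nat_lit 483365) (nat_lit 18) (.e (nat_lit 57679) (nat_lit 153) (.e (nat_lit 8303) (nat_lit 58) .nil))))) .nil)))) (.nd (nat_lit 5) (.nd (nat_lit 6) 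
(.lf (nat_lit 212508) (.g (nat_lit 976) (.e (nat_lit 90118) (nat_lit 0) (.e (nat_lit 1638) (nat_lit 114) (.e (nat_lit 385102) (nat_lit 50) (.e (nat_lit 786489) (nat_lit 34) (.e (nat_lit 401152) (nat_lit 3) .nil))))) .nil)) 
(.lf (nat_lit 212572) (.g (nat_lit 1461) (.e (nat_lit 98048) (nat_lit 2) (.e (nat_lit 16446) (nat_lit 9) (.e (nat_lit 426098) (nat_lit 1) (.e (nat_lit 164195) (nat_lit 158) .nil)))) .nil))) (.nd (nat_lit 6) 
(.lf (nat_lit 212540) (.g (nat_lit 1264) (.e (nat_lit 98048) (nat_lit 2) (.e (nat_lit 16392) (nat_lit 0) (.e (nat_lit 6989) (nat_lit 377) (.e (nat_lit 2584) (nat_lit 161) .nil)))) .nil)) 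
(.lf (nat_lit 212604) (.g (nat_lit 490) (.e (nat_lit 98048) (nat_lit 2) (.e (nat_lit 16472) (nat_lit 14) (.e (nat_lit 491584) (nat_lit 28) .nil))) .nil))))))) (.nd (nat_lit 2) (.nd (nat_lit 3) (.nd (nat_lit 4) (.nd (nat_lit 5) (.nd (nat_lit 6) 
(.lf (nat_lit 212482) (.g (nat_lit 1376) (.e (nat_lit 90113) (nat_lit 0) (.e (nat_lit 1638) (nat_lit 114) (.e (nat_lit 385105) (nat_lit 50) (.e (nat_lit 786489) (nat_lit 34) .nil)))) .nil)) 
(.lf (nat_lit 212546) (.g (nat_lit 1192) (.e (nat_lit 98048) (nat_lit 2) (.e (nat_lit 16425) (nat_lit 7) (.e (nat_lit 409612) (nat_lit 10) (.e (nat_lit 932) (nat_lit 76) .nil)))) .nil))) (.nd (nat_lit 6) 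
(.lf (nat_lit 212514) (.g (nat_lit 1794) (.e (nat_lit 98048) (nat_lit 0) (.e (nat_lit 375) (nat_lit 32) (.e (nat_lit 426025) (nat_lit 0) (.e (nat_lit 3277) (nat_lit 200) .nil)))) .nil)) 
(.lf (nat_lit 212578) (.g (nat_lit 678) (.e (nat_lit 98048) (nat_lit 2) (.e (nat_lit 16463) (nat_lit 13) (.e (nat_lit 483331) (nat_lit 0) .nil))) .nil)))) (.nd (nat_lit 5) (.nd (nat_lit 6) 
(.lf (nat_lit 212498) (.g (nat_lit 1916) (.e (nat_lit 90118) (nat_lit 0) (.e (nat_lit 1428) (nat_lit 108) (.e (nat_lit 336325) (nat_lit 18) (.e (nat_lit 204863) (nat_lit 27) (.e (nat_lit 344129) (nat_lit 26) .nil))))) .nil)) 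
(.lf (nat_lit 212562) (.g (nat_lit 1366) (.e (nat_lit 98048) (nat_lit 2) (.e (nat_lit 16435) (nat_lit 9) (.e (nat_lit 426562) (nat_lit 33) (.e (nat_lit 385033) (nat_lit 16) .nil)))) .nil))) (.nd (nat_lit 6) 
(.lf (nat_lit 212530) (.g (nat_lit 1455) (.e (nat_lit 98048) (nat_lit 0) (.e (nat_lit 1619) (nat_lit 113) (.e (nat_lit 376865) (nat_lit 22) (.e (nat_lit 90172) (nat_lit 14) (.e (nat_lit 188160) (nat_lit 0) .nil))))) .nil)) 
(.lf (nat_lit 212594) (.g (nat_lit 335) (.e (nat_lit 98048) (nat_lit 2) (.e (nat_lit 16468) (nat_lit 13) (.e (nat_lit 483333) (nat_lit 0) .nil))) .nil))))) (.nd (nat_lit 4) (.nd (nat_lit 5) (.nd (nat_lit 6) 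
(.lf (nat_lit 212490) (.g (nat_lit 3074) (.e (nat_lit 90117) (nat_lit 0) (.e (nat_lit 1558) (nat_lit 110) (.e (nat_lit 352315) (nat_lit 23) (.e (nat_lit 98366) (nat_lit 27) (.e (nat_lit 434275) (nat_lit 39) (.e (nat_lit 663580) (nat_lit 9) (.e (nat_lit 7936) (nat_lit 2) .nil))))))) (.g (nat_lit 6) .nil .nil))) 
(.lf (nat_lit 212554) (.g (nat_lit 1095) (.e (nat_lit 98048) (nat_lit 2) (.e (nat_lit 16425) (nat_lit 7) (.e (nat_lit 409633) (nat_lit 13) (.e (nat_lit 40965) (nat_lit 0) (.e (nat_lit 1558) (nat_lit 110) .nil))))) .nil))) (.nd (nat_lit 6) 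
(.lf (nat_lit 212522) (.g (nat_lit 1587) (.e (nat_lit 98048) (nat_lit 0) (.e (nat_lit 463) (nat_lit 34) (.e (nat_lit 442419) (nat_lit 21) (.e (nat_lit 164196) (nat_lit 158) (.e (nat_lit 1199) (nat_lit 88) .nil))))) .nil)) 
(.lf (nat_lit 212586) (.g (nat_lit 1572) (.e (nat_lit 98048) (nat_lit 2) (.e (nat_lit 16465) (nat_lit 13) (.e (nat_lit 483365) (nat_lit 18) (.e (nat_lit 57676) (nat_lit 153) .nil)))) .nil)))) (.nd (nat_lit 5) (.nd (nat_lit 6) 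
(.lf (nat_lit 212506) (.g (nat_lit 2290) (.e (nat_lit 90118) (nat_lit 0) (.e (nat_lit 1638) (nat_lit 114) (.e (nat_lit 385068) (nat_lit 26) (.e (nat_lit 532545) (nat_lit 10) (.e (nat_lit 344133) (nat_lit 26) .nil))))) .nil)) 
(.lf (nat_lit 212570) (.g (nat_lit 905) (.e (nat_lit 98048) (nat_lit 2) (.e (nat_lit 16446) (nat_lit 9) (.e (nat_lit 426010) (nat_lit 0) (.e (nat_lit 3570) (nat_lit 222) .nil)))) .nil))) (.nd (nat_lit 6) 
(.lf (nat_lit 212538) (.g (nat_lit 551) (.e (nat_lit 98048) (nat_lit 2) (.e (nat_lit 16388) (nat_lit 0) (.e (nat_lit 7574) (nat_lit 404) .nil))) .nil)) 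
(.lf (nat_lit 212602) (.g (nat_lit 1027) (.e (nat_lit 98048) (nat_lit 2) (.e (nat_lit 16471) (nat_lit 14) (.e (nat_lit 491579) (nat_lit 27) (.e (nat_lit 433920) (nat_lit 27) .nil)))) .nil)))))) (.nd (nat_lit 3) (.nd (nat_lit 4) (.nd (nat_lit 5) (.nd (nat_lit 6) 
(.lf (nat_lit 212486) (.g (nat_lit 930) (.e (nat_lit 90115) (nat_lit 0) (.e (nat_lit 1638) (nat_lit 114) (.e (nat_lit 385102) (nat_lit 50) (.e (nat_lit 786489) (nat_lit 34) (.e (nat_lit 401152) (nat_lit 3) .nil))))) .nil)) 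
(.lf (nat_lit 212550) (.g (nat_lit 1995) (.e (nat_lit 98048) (nat_lit 2) (.e (nat_lit 16425) (nat_lit 7) (.e (nat_lit 409617) (nat_lit 10) (.e (nat_lit 921) (nat_lit 75) .nil)))) .nil))) (.nd (nat_lit 6) 
(.lf (nat_lit 212518) (.g (nat_lit 840) (.e (nat_lit 98048) (nat_lit 0) (.e (nat_lit 375) (nat_lit 32) (.e (nat_lit 426173) (nat_lit 7) (.e (nat_lit 409617) (nat_lit 10) .nil)))) .nil)) 
(.lf (nat_lit 212582) (.g (nat_lit 553) (.e (nat_lit 98048) (nat_lit 2) (.e (nat_lit 16465) (nat_lit 13) (.e (nat_lit 491264) (nat_lit 0) (.e (nat_lit 7601) (nat_lit 409) (.e (nat_lit 131092) (nat_lit 2) .nil))))) .nil)))) (.nd (nat_lit 5) (.nd (nat_lit 6) 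
(.lf (nat_lit 212502) (.g (nat_lit 1190) (.e (nat_lit 90118) (nat_lit 0) (.e (nat_lit 1638) (nat_lit 114) (.e (nat_lit 385066) (nat_lit 26) (.e (nat_lit 532543) (nat_lit 10) .nil)))) .nil)) 
(.lf (nat_lit 212566) (.g (nat_lit 471) (.e (nat_lit 98048) (nat_lit 2) (.e (nat_lit 16438) (nat_lit 9) (.e (nat_lit 426562) (nat_lit 33) .nil))) .nil))) (.nd (nat_lit 6) 
(.lf (nat_lit 212534) (.g (nat_lit 1178) (.e (nat_lit 98048) (nat_lit 0) (.e (nat_lit 1638) (nat_lit 114) (.e (nat_lit 385105) (nat_lit 50) (.e (nat_lit 786488) (nat_lit 34) .nil)))) .nil)) 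
(.lf (nat_lit 212598) (.g (nat_lit 492) (.e (nat_lit 98048) (nat_lit 2) (.e (nat_lit 16468) (nat_lit 13) (.e (nat_lit 483363) (nat_lit 18) .nil))) .nil))))) (.nd (nat_lit 4) (.nd (nat_lit 5) (.nd (nat_lit 6) 
(.lf (nat_lit 212494) (.g (nat_lit 2076) (.e (nat_lit 90117) (nat_lit 0) (.e (nat_lit 1633) (nat_lit 114) (.e (nat_lit 385068) (nat_lit 26) (.e (nat_lit 532553) (nat_lit 13) .nil)))) .nil)) 
(.lf (nat_lit 212558) (.g (nat_lit 608) (.e (nat_lit 98048) (nat_lit 2) (.e (nat_lit 16435) (nat_lit 9) (.e (nat_lit 426509) (nat_lit 27) .nil))) .nil))) (.nd (nat_lit 6) 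
(.lf (nat_lit 212526) (.g (nat_lit 974) (.e (nat_lit 98048) (nat_lit 0) (.e (nat_lit 1277) (nat_lit 94) (.e (nat_lit 114719) (nat_lit 23) (.e (nat_lit 98367) (nat_lit 27) .nil)))) .nil)) 
(.lf (nat_lit 212590) (.g (nat_lit 1539) (.e (nat_lit 98048) (nat_lit 2) (.e (nat_lit 16465) (nat_lit 13) (.e (nat_lit 483365) (nat_lit 18) (.e (nat_lit 57691) (nat_lit 156) .nil)))) .nil)))) (.nd (nat_lit 5) (.nd (nat_lit 6) 
(.lf (nat_lit 212510) (.g (nat_lit 2095) (.e (nat_lit 90120) (nat_lit 0) (.e (nat_lit 1427) (nat_lit 108) (.e (nat_lit 336324) (nat_lit 18) (.e (nat_lit 204873) (nat_lit 30) .nil)))) .nil)) 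
(.lf (nat_lit 212574) (.g (nat_lit 1627) (.e (nat_lit 98048) (nat_lit 2) (.e (nat_lit 16446) (nat_lit 9) (.e (nat_lit 426408) (nat_lit 15) (.e (nat_lit 6672) (nat_lit 357) .nil)))) .nil))) (.nd (nat_lit 6) 
(.lf (nat_lit 212542) (.g (nat_lit 1274) (.e (nat_lit 98048) (nat_lit 2) (.e (nat_lit 16392) (nat_lit 0) (.e (nat_lit 7101) (nat_lit 380) (.e (nat_lit 164108) (nat_lit 116) .nil)))) .nil)) 
(.lf (nat_lit 212606) (.g (nat_lit 1360) (.e (nat_lit 98048) (nat_lit 2) (.e (nat_lit 16473) (nat_lit 14) (.e (nat_lit 491526) (nat_lit 0) (.e (nat_lit 992) (nat_lit 81) .nil)))) .nil)))))))) (.nd (nat_lit 1) (.nd (nat_lit 2) (.nd (nat_lit 3) (.nd (nat_lit 4) (.nd (nat_lit 5) (.nd (nat_lit 6) 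
(.lf (nat_lit 212481) (.g (nat_lit 1369) (.e (nat_lit 90113) (nat_lit 0) (.e (nat_lit 1638) (nat_lit 114) (.e (nat_lit 385105) (nat_lit 50) (.e (nat_lit 786488) (nat_lit 34) .nil)))) .nil)) 
(.lf (nat_lit 212545) (.g (nat_lit 806) (.e (nat_lit 98048) (nat_lit 2) (.e (nat_lit 16425) (nat_lit 7) (.e (nat_lit 409608) (nat_lit 10) (.e (nat_lit 932) (nat_lit 76) .nil)))) .nil))) (.nd (nat_lit 6) 
(.lf (nat_lit 212513) (.g (nat_lit 1213) (.e (nat_lit 90120) (nat_lit 0) (.e (nat_lit 1638) (nat_lit 114) (.e (nat_lit 385104) (nat_lit 50) (.e (nat_lit 786488) (nat_lit 34) (.e (nat_lit 401152) (nat_lit 3) .nil))))) .nil)) 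
(.lf (nat_lit 212577) (.g (nat_lit 872) (.e (nat_lit 98048) (nat_lit 2) (.e (nat_lit 16463) (nat_lit 13) (.e (nat_lit 483330) (nat_lit 0) .nil))) .nil)))) (.nd (nat_lit 5) (.nd (nat_lit 6) 
(.lf (nat_lit 212497) (.g (nat_lit 1859) (.e (nat_lit 90118) (nat_lit 0) (.e (nat_lit 1427) (nat_lit 108) (.e (nat_lit 336325) (nat_lit 18) (.e (nat_lit 204863) (nat_lit 27) (.e (nat_lit 344133) (nat_lit 26) .nil))))) .nil)) 
(.lf (nat_lit 212561) (.g (nat_lit 1277) (.e (nat_lit 98048) (nat_lit 2) (.e (nat_lit 16435) (nat_lit 9) (.e (nat_lit 426562) (nat_lit 33) (.e (nat_lit 392960) (nat_lit 0) .nil)))) .nil))) (.nd (nat_lit 6) 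
(.lf (nat_lit 212529) (.g (nat_lit 1672) (.e (nat_lit 98048) (nat_lit 0) (.e (nat_lit 1615) (nat_lit 113) (.e (nat_lit 376865) (nat_lit 22) (.e (nat_lit 90172) (nat_lit 14) (.e (nat_lit 188160) (nat_lit 0) .nil))))) .nil)) 
(.lf (nat_lit 212593) (.g (nat_lit 698) (.e (nat_lit 98048) (nat_lit 2) (.e (nat_lit 16466) (nat_lit 13) (.e (nat_lit 491264) (nat_lit 7) .nil))) .nil))))) (.nd (nat_lit 4) (.nd (nat_lit 5) (.nd (nat_lit 6) 
(.lf (nat_lit 212489) (.g (nat_lit 1487) (.e (nat_lit 90115) (nat_lit 0) (.e (nat_lit 1638) (nat_lit 114) (.e (nat_lit 385105) (nat_lit 50) (.e (nat_lit 786489) (nat_lit 34) (.e (nat_lit 401152) (nat_lit 3) .nil))))) .nil)) 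
(.lf (nat_lit 212553) (.g (nat_lit 594) (.e (nat_lit 98048) (nat_lit 2) (.e (nat_lit 16425) (nat_lit 7) (.e (nat_lit 409633) (nat_lit 13) .nil))) .nil))) (.nd (nat_lit 6) 
(.lf (nat_lit 212521) (.g (nat_lit 1900) (.e (nat_lit 98048) (nat_lit 0) (.e (nat_lit 461) (nat_lit 34) (.e (nat_lit 442419) (nat_lit 21) (.e (nat_lit 164196) (nat_lit 158) (.e (nat_lit 1220) (nat_lit 90) .nil))))) .nil)) 
(.lf (nat_lit 212585) (.g (nat_lit 760) (.e (nat_lit 98048) (nat_lit 2) (.e (nat_lit 16465) (nat_lit 13) (.e (nat_lit 483365) (nat_lit 18) .nil))) .nil)))) (.nd (nat_lit 5) (.nd (nat_lit 6) 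
(.lf (nat_lit 212505) (.g (nat_lit 1956) (.e (nat_lit 90118) (nat_lit 0) (.e (nat_lit 1638) (nat_lit 114) (.e (nat_lit 385068) (nat_lit 26) (.e (nat_lit 532545) (nat_lit 10) .nil)))) .nil)) 
(.lf (nat_lit 212569) (.g (nat_lit 462) (.e (nat_lit 98048) (nat_lit 2) (.e (nat_lit 16446) (nat_lit 9) (.e (nat_lit 426010) (nat_lit 0) .nil))) .nil))) (.nd (nat_lit 6) 
(.lf (nat_lit 212537) (.g (nat_lit 2593) (.e (nat_lit 98048) (nat_lit 0) (.e (nat_lit 1669) (nat_lit 116) (.e (nat_lit 401454) (nat_lit 12) (.e (nat_lit 475178) (nat_lit 24) .nil)))) .nil)) 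
(.lf (nat_lit 212601) (.g (nat_lit 1849) (.e (nat_lit 98048) (nat_lit 2) (.e (nat_lit 16468) (nat_lit 13) (.e (nat_lit 483365) (nat_lit 18) (.e (nat_lit 57679) (nat_lit 153) (.e (nat_lit 8303) (nat_lit 58) .nil))))) .nil)))))) (.nd (nat_lit 3) (.nd (nat_lit 4) (.nd (nat_lit 5) (.nd (nat_lit 6) 
(.lf (nat_lit 212485) (.g (nat_lit 2649) (.e (nat_lit 90114) (nat_lit 0) (.e (nat_lit 1638) (nat_lit 114) (.e (nat_lit 385105) (nat_lit 50) (.e (nat_lit 786473) (nat_lit 27) (.e (nat_lit 336449) (nat_lit 33) .nil))))) .nil)) 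
(.lf (nat_lit 212549) (.g (nat_lit 1995) (.e (nat_lit 98048) (nat_lit 2) (.e (nat_lit 16425) (nat_lit 7) (.e (nat_lit 409617) (nat_lit 10) (.e (nat_lit 919) (nat_lit 75) .nil)))) .nil))) (.nd (nat_lit 6) 
(.lf (nat_lit 212517) (.g (nat_lit 1840) (.e (nat_lit 98048) (nat_lit 0) (.e (nat_lit 375) (nat_lit 32) (.e (nat_lit 426173) (nat_lit 7) (.e (nat_lit 409616) (nat_lit 10) (.e (nat_lit 934) (nat_lit 76) .nil))))) .nil)) 
(.lf (nat_lit 212581) (.g (nat_lit 537) (.e (nat_lit 98048) (nat_lit 2) (.e (nat_lit 16465) (nat_lit 13) (.e (nat_lit 491264) (nat_lit 0) .nil))) .nil)))) (.nd (nat_lit 5) (.nd (nat_lit 6) 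
(.lf (nat_lit 212501) (.g (nat_lit 1706) (.e (nat_lit 90118) (nat_lit 0) (.e (nat_lit 1638) (nat_lit 114) (.e (nat_lit 385065) (nat_lit 26) (.e (nat_lit 532544) (nat_lit 10) (.e (nat_lit 344133) (nat_lit 26) .nil))))) .nil)) 
(.lf (nat_lit 212565) (.g (nat_lit 1654) (.e (nat_lit 98048) (nat_lit 2) (.e (nat_lit 16438) (nat_lit 9) (.e (nat_lit 426482) (nat_lit 27) (.e (nat_lit 336457) (nat_lit 35) (.e (nat_lit 491546) (nat_lit 9) .nil))))) .nil))) (.nd (nat_lit 6) 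
(.lf (nat_lit 212533) (.g (nat_lit 1053) (.e (nat_lit 98048) (nat_lit 0) (.e (nat_lit 1638) (nat_lit 114) (.e (nat_lit 385104) (nat_lit 50) (.e (nat_lit 786489) (nat_lit 34) (.e (nat_lit 401152) (nat_lit 3) .nil))))) .nil)) 
(.lf (nat_lit 212597) (.g (nat_lit 260) (.e (nat_lit 98048) (nat_lit 2) (.e (nat_lit 16468) (nat_lit 13) (.e (nat_lit 491264) (nat_lit 0) .nil))) .nil))))) (.nd (nat_lit 4) (.nd (nat_lit 5) (.nd (nat_lit 6) 
(.lf (nat_lit 212493) (.g (nat_lit 1840) (.e (nat_lit 90117) (nat_lit 0) (.e (nat_lit 1633) (nat_lit 114) (.e (nat_lit 385068) (nat_lit 26) (.e (nat_lit 532545) (nat_lit 10) .nil)))) .nil)) 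
(.lf (nat_lit 212557) (.g (nat_lit 878) (.e (nat_lit 98048) (nat_lit 2) (.e (nat_lit 16433) (nat_lit 9) (.e (nat_lit 426573) (nat_lit 35) .nil))) .nil))) (.nd (nat_lit 6) 
(.lf (nat_lit 212525) (.g (nat_lit 1178) (.e (nat_lit 98048) (nat_lit 0) (.e (nat_lit 1183) (nat_lit 87) (.e (nat_lit 57681) (nat_lit 155) (.e (nat_lit 122925) (nat_lit 19) (.e (nat_lit 401152) (nat_lit 11) .nil))))) .nil)) 
(.lf (nat_lit 212589) (.g (nat_lit 1501) (.e (nat_lit 98048) (nat_lit 2) (.e (nat_lit 16465) (nat_lit 13) (.e (nat_lit 483365) (nat_lit 18) (.e (nat_lit 57688) (nat_lit 156) .nil)))) .nil)))) (.nd (nat_lit 5) (.nd (nat_lit 6) 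
(.lf (nat_lit 212509) (.g (nat_lit 1075) (.e (nat_lit 90118) (nat_lit 0) (.e (nat_lit 1638) (nat_lit 114) (.e (nat_lit 385104) (nat_lit 50) (.e (nat_lit 786488) (nat_lit 34) .nil)))) .nil)) 
(.lf (nat_lit 212573) (.g (nat_lit 2428) (.e (nat_lit 98048) (nat_lit 2) (.e (nat_lit 16446) (nat_lit 9) (.e (nat_lit 426124) (nat_lit 2) (.e (nat_lit 196668) (nat_lit 14) (.e (nat_lit 73766) (nat_lit 19) .nil))))) .nil))) (.nd (nat_lit 6) 
(.lf (nat_lit 212541) (.g (nat_lit 788) (.e (nat_lit 98048) (nat_lit 2) (.e (nat_lit 16392) (nat_lit 0) (.e (nat_lit 6996) (nat_lit 377) .nil))) .nil)) 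
(.lf (nat_lit 212605) (.g (nat_lit 151) (.e (nat_lit 98048) (nat_lit 2) (.e (nat_lit 16473) (nat_lit 14) (.e (nat_lit 491526) (nat_lit 0) .nil))) .nil))))))) (.nd (nat_lit 2) (.nd (nat_lit 3) (.nd (nat_lit 4) (.nd (nat_lit 5) (.nd (nat_lit 6) 
(.lf (nat_lit 212483) (.g (nat_lit 1945) (.e (nat_lit 90114) (nat_lit 0) (.e (nat_lit 1638) (nat_lit 114) (.e (nat_lit 385068) (nat_lit 26) (.e (nat_lit 532553) (nat_lit 13) .nil)))) .nil)) 
(.lf (nat_lit 212547) (.g (nat_lit 1972) (.e (nat_lit 98048) (nat_lit 2) (.e (nat_lit 16425) (nat_lit 7) (.e (nat_lit 409616) (nat_lit 10) (.e (nat_lit 926) (nat_lit 75) .nil)))) .nil))) (.nd (nat_lit 6) 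
(.lf (nat_lit 212515) (.g (nat_lit 2728) (.e (nat_lit 98048) (nat_lit 0) (.e (nat_lit 375) (nat_lit 32) (.e (nat_lit 426025) (nat_lit 0) (.e (nat_lit 7107) (nat_lit 380) (.e (nat_lit 164108) (nat_lit 116) .nil))))) .nil)) 
(.lf (nat_lit 212579) (.g (nat_lit 1085) (.e (nat_lit 98048) (nat_lit 2) (.e (nat_lit 16463) (nat_lit 13) (.e (nat_lit 491264) (nat_lit 7) (.e (nat_lit 409640) (nat_lit 17) (.e (nat_lit 294927) (nat_lit 2) .nil))))) .nil)))) (.nd (nat_lit 5) (.nd (nat_lit 6) 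
(.lf (nat_lit 212499) (.g (nat_lit 975) (.e (nat_lit 90118) (nat_lit 0) (.e (nat_lit 1428) (nat_lit 108) (.e (nat_lit 336325) (nat_lit 18) (.e (nat_lit 204864) (nat_lit 27) .nil)))) .nil)) 
(.lf (nat_lit 212563) (.g (nat_lit 608) (.e (nat_lit 98048) (nat_lit 2) (.e (nat_lit 16435) (nat_lit 9) (.e (nat_lit 426571) (nat_lit 35) .nil))) .nil))) (.nd (nat_lit 6) 
(.lf (nat_lit 212531) (.g (nat_lit 1419) (.e (nat_lit 98048) (nat_lit 0) (.e (nat_lit 1633) (nat_lit 114) (.e (nat_lit 385106) (nat_lit 50) (.e (nat_lit 786489) (nat_lit 34) .nil)))) .nil)) 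
(.lf (nat_lit 212595) (.g (nat_lit 781) (.e (nat_lit 98048) (nat_lit 2) (.e (nat_lit 16468) (nat_lit 13) (.e (nat_lit 483333) (nat_lit 0) (.e (nat_lit 6977) (nat_lit 377) .nil)))) .nil))))) (.nd (nat_lit 4) (.nd (nat_lit 5) (.nd (nat_lit 6) 
(.lf (nat_lit 212491) (.g (nat_lit 2054) (.e (nat_lit 90117) (nat_lit 0) (.e (nat_lit 1633) (nat_lit 114) (.e (nat_lit 385068) (nat_lit 26) (.e (nat_lit 532543) (nat_lit 10) .nil)))) .nil)) 
(.lf (nat_lit 212555) (.g (nat_lit 827) (.e (nat_lit 98048) (nat_lit 2) (.e (nat_lit 16425) (nat_lit 7) (.e (nat_lit 409634) (nat_lit 13) (.e (nat_lit 48896) (nat_lit 6) .nil)))) .nil))) (.nd (nat_lit 6) 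
(.lf (nat_lit 212523) (.g (nat_lit 1128) (.e (nat_lit 98048) (nat_lit 0) (.e (nat_lit 479) (nat_lit 37) (.e (nat_lit 466969) (nat_lit 21) (.e (nat_lit 164196) (nat_lit 158) .nil)))) .nil)) 
(.lf (nat_lit 212587) (.g (nat_lit 1459) (.e (nat_lit 98048) (nat_lit 2) (.e (nat_lit 16465) (nat_lit 13) (.e (nat_lit 483365) (nat_lit 18) (.e (nat_lit 57678) (nat_lit 153) .nil)))) .nil)))) (.nd (nat_lit 5) (.nd (nat_lit 6) 
(.lf (nat_lit 212507) (.g (nat_lit 2817) (.e (nat_lit 90118) (nat_lit 0) (.e (nat_lit 1638) (nat_lit 114) (.e (nat_lit 385068) (nat_lit 26) (.e (nat_lit 532553) (nat_lit 13) (.e (nat_lit 368676) (nat_lit 21) (.e (nat_lit 516124) (nat_lit 2) (.e (nat_lit 220928) (nat_lit 0) (.e (nat_lit 1239) (nat_lit 91) .nil)))))))) (.g (nat_lit 4) .nil .nil))) 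
(.lf (nat_lit 212571) (.g (nat_lit 1078) (.e (nat_lit 98048) (nat_lit 2) (.e (nat_lit 16446) (nat_lit 9) (.e (nat_lit 426010) (nat_lit 0) (.e (nat_lit 3570) (nat_lit 222) (.e (nat_lit 737300) (nat_lit 7) .nil))))) .nil))) (.nd (nat_lit 6) 
(.lf (nat_lit 212539) (.g (nat_lit 370) (.e (nat_lit 98048) (nat_lit 2) (.e (nat_lit 16388) (nat_lit 0) (.e (nat_lit 7577) (nat_lit 404) .nil))) .nil)) 
(.lf (nat_lit 212603) (.g (nat_lit 491) (.e (nat_lit 98048) (nat_lit 2) (.e (nat_lit 16472) (nat_lit 14) (.e (nat_lit 491580) (nat_lit 27) .nil))) .nil)))))) (.nd (nat_lit 3) (.nd (nat_lit 4) (.nd (nat_lit 5) (.nd (nat_lit 6) 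
(.lf (nat_lit 212487) (.g (nat_lit 1194) (.e (nat_lit 90115) (nat_lit 0) (.e (nat_lit 1638) (nat_lit 114) (.e (nat_lit 385104) (nat_lit 50) (.e (nat_lit 786489) (nat_lit 34) (.e (nat_lit 401152) (nat_lit 3) .nil))))) .nil)) 
(.lf (nat_lit 212551) (.g (nat_lit 1628) (.e (nat_lit 98048) (nat_lit 2) (.e (nat_lit 16425) (nat_lit 7) (.e (nat_lit 409617) (nat_lit 10) (.e (nat_lit 934) (nat_lit 76) .nil)))) .nil))) (.nd (nat_lit 6) 
(.lf (nat_lit 212519) (.g (nat_lit 1540) (.e (nat_lit 98048) (nat_lit 0) (.e (nat_lit 375) (nat_lit 32) (.e (nat_lit 426173) (nat_lit 7) (.e (nat_lit 409617) (nat_lit 10) (.e (nat_lit 921) (nat_lit 75) .nil))))) .nil)) 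
(.lf (nat_lit 212583) (.g (nat_lit 816) (.e (nat_lit 98048) (nat_lit 2) (.e (nat_lit 16465) (nat_lit 13) (.e (nat_lit 491264) (nat_lit 16) (.e (nat_lit 491548) (nat_lit 9) (.e (nat_lit 336016) (nat_lit 2) .nil))))) .nil)))) (.nd (nat_lit 5) (.nd (nat_lit 6) 
(.lf (nat_lit 212503) (.g (nat_lit 1945) (.e (nat_lit 90118) (nat_lit 0) (.e (nat_lit 1638) (nat_lit 114) (.e (nat_lit 385068) (nat_lit 26) (.e (nat_lit 532543) (nat_lit 10) .nil)))) .nil)) 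
(.lf (nat_lit 212567) (.g (nat_lit 1336) (.e (nat_lit 98048) (nat_lit 2) (.e (nat_lit 16438) (nat_lit 9) (.e (nat_lit 426562) (nat_lit 33) (.e (nat_lit 385033) (nat_lit 16) .nil)))) .nil))) (.nd (nat_lit 6) 
(.lf (nat_lit 212535) (.g (nat_lit 1412) (.e (nat_lit 98048) (nat_lit 0) (.e (nat_lit 1638) (nat_lit 114) (.e (nat_lit 385105) (nat_lit 50) (.e (nat_lit 786489) (nat_lit 34) (.e (nat_lit 401152) (nat_lit 3) .nil))))) .nil)) 
(.lf (nat_lit 212599) (.g (nat_lit 462) (.e (nat_lit 98048) (nat_lit 2) (.e (nat_lit 16468) (nat_lit 13) (.e (nat_lit 483365) (nat_lit 18) .nil))) .nil))))) (.nd (nat_lit 4) (.nd (nat_lit 5) (.nd (nat_lit 6) 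
(.lf (nat_lit 212495) (.g (nat_lit 1719) (.e (nat_lit 90117) (nat_lit 0) (.e (nat_lit 1633) (nat_lit 114) (.e (nat_lit 385068) (nat_lit 26) (.e (nat_lit 532555) (nat_lit 13) .nil)))) .nil)) 
(.lf (nat_lit 212559) (.g (nat_lit 608) (.e (nat_lit 98048) (nat_lit 2) (.e (nat_lit 16435) (nat_lit 9) (.e (nat_lit 426560) (nat_lit 33) .nil))) .nil))) (.nd (nat_lit 6) 
(.lf (nat_lit 212527) (.g (nat_lit 1447) (.e (nat_lit 98048) (nat_lit 0) (.e (nat_lit 1280) (nat_lit 94) (.e (nat_lit 114716) (nat_lit 22) (.e (nat_lit 90172) (nat_lit 14) (.e (nat_lit 180241) (nat_lit 4) .nil))))) .nil)) 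
(.lf (nat_lit 212591) (.g (nat_lit 779) (.e (nat_lit 98048) (nat_lit 2) (.e (nat_lit 16466) (nat_lit 13) (.e (nat_lit 483330) (nat_lit 0) .nil))) .nil)))) (.nd (nat_lit 5) (.nd (nat_lit 6) 
(.lf (nat_lit 212511) (.g (nat_lit 1804) (.e (nat_lit 90120) (nat_lit 0) (.e (nat_lit 1638) (nat_lit 114) (.e (nat_lit 385067) (nat_lit 26) (.e (nat_lit 532553) (nat_lit 13) (.e (nat_lit 368676) (nat_lit 21) .nil))))) .nil)) 
(.lf (nat_lit 212575) (.g (nat_lit 484) (.e (nat_lit 98048) (nat_lit 2) (.e (nat_lit 16456) (nat_lit 12) (.e (nat_lit 483072) (nat_lit 0) .nil))) .nil))) (.nd (nat_lit 6) 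
(.lf (nat_lit 212543) (.g (nat_lit 1770) (.e (nat_lit 98048) (nat_lit 2) (.e (nat_lit 16416) (nat_lit 3) (.e (nat_lit 204837) (nat_lit 20) (.e (nat_lit 114726) (nat_lit 27) .nil)))) .nil)) 
(.lf (nat_lit 212607) (.g (nat_lit 1002) (.e (nat_lit 98048) (nat_lit 2) (.e (nat_lit 16473) (nat_lit 14) (.e (nat_lit 491543) (nat_lit 6) .nil))) .nil)))))))))

noncomputable def tv2808 : DT := (.nd (nat_lit 0) (.nd (nat_lit 1) (.nd (nat_lit 2) (.nd (nat_lit 3) (.nd (nat_lit 4) (.nd (nat_lit 5) (.nd (nat_lit 6) 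
(.lf (nat_lit 212608) (.g (nat_lit 1223) (.e (nat_lit 98048) (nat_lit 2) (.e (nat_lit 16473) (nat_lit 14) (.e (nat_lit 491543) (nat_lit 6) (.e (nat_lit 147458) (nat_lit 0) (.e (nat_lit 1555) (nat_lit 110) .nil))))) .nil)) 
(.lf (nat_lit 212672) (.g (nat_lit 1489) (.e (nat_lit 98048) (nat_lit 5) (.e (nat_lit 73746) (nat_lit 3) (.e (nat_lit 516131) (nat_lit 3) (.e (nat_lit 221212) (nat_lit 22) (.e (nat_lit 196626) (nat_lit 9) .nil))))) .nil))) (.nd (nat_lit 6) 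
(.lf (nat_lit 212640) (.g (nat_lit 1224) (.e (nat_lit 98048) (nat_lit 5) (.e (nat_lit 73746) (nat_lit 3) (.e (nat_lit 516129) (nat_lit 3) (.e (nat_lit 221200) (nat_lit 20) .nil)))) .nil)) 
(.lf (nat_lit 212704) (.g (nat_lit 1481) (.e (nat_lit 98048) (nat_lit 5) (.e (nat_lit 73753) (nat_lit 8) (.e (nat_lit 557098) (nat_lit 13) (.e (nat_lit 172064) (nat_lit 2) .nil)))) .nil)))) (.nd (nat_lit 5) (.nd (nat_lit 6) 
(.lf (nat_lit 212624) (.g (nat_lit 815) (.e (nat_lit 98048) (nat_lit 3) (.e (nat_lit 57347) (nat_lit 0) (.e (nat_lit 7265) (nat_lit 384) (.e (nat_lit 57406) (nat_lit 12) .nil)))) .nil)) 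
(.lf (nat_lit 212688) (.g (nat_lit 1542) (.e (nat_lit 98048) (nat_lit 5) (.e (nat_lit 73747) (nat_lit 3) (.e (nat_lit 516195) (nat_lit 26) (.e (nat_lit 336011) (nat_lit 2) (.e (nat_lit 90165) (nat_lit 12) .nil))))) .nil))) (.nd (nat_lit 6) 
(.lf (nat_lit 212656) (.g (nat_lit 2342) (.e (nat_lit 98048) (nat_lit 5) (.e (nat_lit 73746) (nat_lit 3) (.e (nat_lit 516129) (nat_lit 3) (.e (nat_lit 221215) (nat_lit 23) (.e (nat_lit 204819) (nat_lit 17) .nil))))) .nil)) 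
(.lf (nat_lit 212720) (.g (nat_lit 2893) (.e (nat_lit 98048) (nat_lit 5) (.e (nat_lit 73753) (nat_lit 8) (.e (nat_lit 557098) (nat_lit 13) (.e (nat_lit 172067) (nat_lit 3) (.e (nat_lit 204810) (nat_lit 9) .nil))))) .nil))))) (.nd (nat_lit 4) (.nd (nat_lit 5) (.nd (nat_lit 6) 
(.lf (nat_lit 212616) (.g (nat_lit 1305) (.e (nat_lit 98048) (nat_lit 2) (.e (nat_lit 16473) (nat_lit 14) (.e (nat_lit 491583) (nat_lit 27) (.e (nat_lit 433920) (nat_lit 27) .nil)))) .nil)) 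
(.lf (nat_lit 212680) (.g (nat_lit 1755) (.e (nat_lit 98048) (nat_lit 5) (.e (nat_lit 73746) (nat_lit 3) (.e (nat_lit 516131) (nat_lit 3) (.e (nat_lit 221215) (nat_lit 23) (.e (nat_lit 204839) (nat_lit 21) .nil))))) .nil))) (.nd (nat_lit 6) 
(.lf (nat_lit 212648) (.g (nat_lit 1756) (.e (nat_lit 98048) (nat_lit 5) (.e (nat_lit 73746) (nat_lit 3) (.e (nat_lit 516129) (nat_lit 3) (.e (nat_lit 221210) (nat_lit 22) (.e (nat_lit 204544) (nat_lit 4) .nil))))) .nil)) 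
(.lf (nat_lit 212712) (.g (nat_lit 1763) (.e (nat_lit 98048) (nat_lit 5) (.e (nat_lit 73753) (nat_lit 8) (.e (nat_lit 557098) (nat_lit 13) (.e (nat_lit 172065) (nat_lit 3) (.e (nat_lit 204842) (nat_lit 22) .nil))))) .nil)))) (.nd (nat_lit 5) (.nd (nat_lit 6) 
(.lf (nat_lit 212632) (.g (nat_lit 960) (.e (nat_lit 98048) (nat_lit 3) (.e (nat_lit 57569) (nat_lit 53) (.e (nat_lit 761871) (nat_lit 5) (.e (nat_lit 1659) (nat_lit 115) (.e (nat_lit 401152) (nat_lit 11) .nil))))) .nil)) 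
(.lf (nat_lit 212696) (.g (nat_lit 1844) (.e (nat_lit 98048) (nat_lit 5) (.e (nat_lit 73753) (nat_lit 8) (.e (nat_lit 557096) (nat_lit 13) (.e (nat_lit 172067) (nat_lit 3) (.e (nat_lit 212736) (nat_lit 9) .nil))))) .nil))) (.nd (nat_lit 6) 
(.lf (nat_lit 212664) (.g (nat_lit 2036) (.e (nat_lit 98048) (nat_lit 5) (.e (nat_lit 73746) (nat_lit 3) (.e (nat_lit 516131) (nat_lit 3) (.e (nat_lit 221212) (nat_lit 22) (.e (nat_lit 196609) (nat_lit 0) .nil))))) .nil)) 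
(.lf (nat_lit 212728) (.g (nat_lit 1874) (.e (nat_lit 98048) (nat_lit 5) (.e (nat_lit 73753) (nat_lit 8) (.e (nat_lit 557100) (nat_lit 13) (.e (nat_lit 172062) (nat_lit 2) .nil)))) .nil)))))) (.nd (nat_lit 3) (.nd (nat_lit 4) (.nd (nat_lit 5) (.nd (nat_lit 6) 
(.lf (nat_lit 212612) (.g (nat_lit 474) (.e (nat_lit 98048) (nat_lit 2) (.e (nat_lit 16473) (nat_lit 14) (.e (nat_lit 491580) (nat_lit 27) .nil))) .nil)) 
(.lf (nat_lit 212676) (.g (nat_lit 1695) (.e (nat_lit 98048) (nat_lit 5) (.e (nat_lit 73746) (nat_lit 3) (.e (nat_lit 516131) (nat_lit 3) (.e (nat_lit 221212) (nat_lit 22) (.e (nat_lit 196650) (nat_lit 10) .nil))))) .nil))) (.nd (nat_lit 6) 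
(.lf (nat_lit 212644) (.g (nat_lit 1937) (.e (nat_lit 98048) (nat_lit 5) (.e (nat_lit 73746) (nat_lit 3) (.e (nat_lit 516129) (nat_lit 3) (.e (nat_lit 221210) (nat_lit 22) (.e (nat_lit 196613) (nat_lit 0) .nil))))) .nil)) 
(.lf (nat_lit 212708) (.g (nat_lit 1866) (.e (nat_lit 98048) (nat_lit 5) (.e (nat_lit 73753) (nat_lit 8) (.e (nat_lit 557098) (nat_lit 13) (.e (nat_lit 172065) (nat_lit 3) (.e (nat_lit 212736) (nat_lit 9) .nil))))) .nil)))) (.nd (nat_lit 5) (.nd (nat_lit 6) 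
(.lf (nat_lit 212628) (.g (nat_lit 1536) (.e (nat_lit 98048) (nat_lit 3) (.e (nat_lit 57354) (nat_lit 0) (.e (nat_lit 7270) (nat_lit 385) (.e (nat_lit 122924) (nat_lit 19) .nil)))) .nil)) 
(.lf (nat_lit 212692) (.g (nat_lit 464) (.e (nat_lit 98048) (nat_lit 5) (.e (nat_lit 73753) (nat_lit 8) (.e (nat_lit 557089) (nat_lit 12) .nil))) .nil))) (.nd (nat_lit 6) 
(.lf (nat_lit 212660) (.g (nat_lit 1254) (.e (nat_lit 98048) (nat_lit 5) (.e (nat_lit 73746) (nat_lit 3) (.e (nat_lit 516131) (nat_lit 3) (.e (nat_lit 221211) (nat_lit 22) (.e (nat_lit 196617) (nat_lit 9) .nil))))) .nil)) 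
(.lf (nat_lit 212724) (.g (nat_lit 2794) (.e (nat_lit 98048) (nat_lit 5) (.e (nat_lit 73753) (nat_lit 8) (.e (nat_lit 557098) (nat_lit 13) (.e (nat_lit 172067) (nat_lit 3) (.e (nat_lit 204841) (nat_lit 22) .nil))))) .nil))))) (.nd (nat_lit 4) (.nd (nat_lit 5) (.nd (nat_lit 6) 
(.lf (nat_lit 212620) (.g (nat_lit 892) (.e (nat_lit 98048) (nat_lit 2) (.e (nat_lit 16473) (nat_lit 14) (.e (nat_lit 499456) (nat_lit 27) (.e (nat_lit 426542) (nat_lit 29) (.e (nat_lit 352311) (nat_lit 22) .nil))))) .nil)) 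
(.lf (nat_lit 212684) (.g (nat_lit 1072) (.e (nat_lit 98048) (nat_lit 5) (.e (nat_lit 73746) (nat_lit 3) (.e (nat_lit 516195) (nat_lit 26) (.e (nat_lit 336027) (nat_lit 3) .nil)))) .nil))) (.nd (nat_lit 6) 
(.lf (nat_lit 212652) (.g (nat_lit 1934) (.e (nat_lit 98048) (nat_lit 5) (.e (nat_lit 73746) (nat_lit 3) (.e (nat_lit 516129) (nat_lit 3) (.e (nat_lit 221210) (nat_lit 22) (.e (nat_lit 196650) (nat_lit 10) .nil))))) .nil)) 
(.lf (nat_lit 212716) (.g (nat_lit 2003) (.e (nat_lit 98048) (nat_lit 5) (.e (nat_lit 73753) (nat_lit 8) (.e (nat_lit 557098) (nat_lit 13) (.e (nat_lit 172066) (nat_lit 3) (.e (nat_lit 204821) (nat_lit 17) .nil))))) .nil)))) (.nd (nat_lit 5) (.nd (nat_lit 6) 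
(.lf (nat_lit 212636) (.g (nat_lit 917) (.e (nat_lit 98048) (nat_lit 5) (.e (nat_lit 73746) (nat_lit 3) (.e (nat_lit 516124) (nat_lit 2) (.e (nat_lit 213051) (nat_lit 16) (.e (nat_lit 123001) (nat_lit 84) .nil))))) .nil)) 
(.lf (nat_lit 212700) (.g (nat_lit 1387) (.e (nat_lit 98048) (nat_lit 5) (.e (nat_lit 73753) (nat_lit 8) (.e (nat_lit 557098) (nat_lit 13) (.e (nat_lit 172051) (nat_lit 0) .nil)))) .nil))) (.nd (nat_lit 6) 
(.lf (nat_lit 212668) (.g (nat_lit 1559) (.e (nat_lit 98048) (nat_lit 5) (.e (nat_lit 73746) (nat_lit 3) (.e (nat_lit 516131) (nat_lit 3) (.e (nat_lit 221212) (nat_lit 22) (.e (nat_lit 196617) (nat_lit 9) .nil))))) .nil)) 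
(.lf (nat_lit 212732) (.g (nat_lit 1730) (.e (nat_lit 98048) (nat_lit 5) (.e (nat_lit 73753) (nat_lit 8) (.e (nat_lit 557100) (nat_lit 13) (.e (nat_lit 172065) (nat_lit 3) .nil)))) .nil))))))) (.nd (nat_lit 2) (.nd (nat_lit 3) (.nd (nat_lit 4) (.nd (nat_lit 5) (.nd (nat_lit 6) 
(.lf (nat_lit 212610) (.g (nat_lit 1138) (.e (nat_lit 98048) (nat_lit 2) (.e (nat_lit 16473) (nat_lit 14) (.e (nat_lit 491577) (nat_lit 15) .nil))) .nil)) 
(.lf (nat_lit 212674) (.g (nat_lit 2013) (.e (nat_lit 98048) (nat_lit 5) (.e (nat_lit 73746) (nat_lit 3) (.e (nat_lit 516131) (nat_lit 3) (.e (nat_lit 221212) (nat_lit 22) (.e (nat_lit 196648) (nat_lit 10) .nil))))) .nil))) (.nd (nat_lit 6) 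
(.lf (nat_lit 212642) (.g (nat_lit 1923) (.e (nat_lit 98048) (nat_lit 5) (.e (nat_lit 73746) (nat_lit 3) (.e (nat_lit 516129) (nat_lit 3) (.e (nat_lit 221210) (nat_lit 22) (.e (nat_lit 196609) (nat_lit 0) .nil))))) .nil)) 
(.lf (nat_lit 212706) (.g (nat_lit 2524) (.e (nat_lit 98048) (nat_lit 5) (.e (nat_lit 73753) (nat_lit 8) (.e (nat_lit 557098) (nat_lit 13) (.e (nat_lit 172064) (nat_lit 2) (.e (nat_lit 196661) (nat_lit 12) .nil))))) .nil)))) (.nd (nat_lit 5) (.nd (nat_lit 6) 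
(.lf (nat_lit 212626) (.g (nat_lit 2520) (.e (nat_lit 98048) (nat_lit 3) (.e (nat_lit 57347) (nat_lit 0) (.e (nat_lit 7266) (nat_lit 384) (.e (nat_lit 57445) (nat_lit 19) (.e (nat_lit 393229) (nat_lit 9) .nil))))) .nil)) 
(.lf (nat_lit 212690) (.g (nat_lit 2334) (.e (nat_lit 98048) (nat_lit 5) (.e (nat_lit 73747) (nat_lit 3) (.e (nat_lit 516195) (nat_lit 26) (.e (nat_lit 336027) (nat_lit 3) (.e (nat_lit 98346) (nat_lit 22) .nil))))) .nil))) (.nd (nat_lit 6) 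
(.lf (nat_lit 212658) (.g (nat_lit 882) (.e (nat_lit 98048) (nat_lit 5) (.e (nat_lit 73746) (nat_lit 3) (.e (nat_lit 516131) (nat_lit 3) (.e (nat_lit 221211) (nat_lit 22) .nil)))) .nil)) 
(.lf (nat_lit 212722) (.g (nat_lit 2893) (.e (nat_lit 98048) (nat_lit 5) (.e (nat_lit 73753) (nat_lit 8) (.e (nat_lit 557098) (nat_lit 13) (.e (nat_lit 172067) (nat_lit 3) (.e (nat_lit 204819) (nat_lit 17) .nil))))) .nil))))) (.nd (nat_lit 4) (.nd (nat_lit 5) (.nd (nat_lit 6) 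
(.lf (nat_lit 212618) (.g (nat_lit 848) (.e (nat_lit 98048) (nat_lit 2) (.e (nat_lit 16473) (nat_lit 14) (.e (nat_lit 499456) (nat_lit 27) (.e (nat_lit 426540) (nat_lit 29) (.e (nat_lit 352311) (nat_lit 22) .nil))))) .nil)) 
(.lf (nat_lit 212682) (.g (nat_lit 1833) (.e (nat_lit 98048) (nat_lit 5) (.e (nat_lit 73746) (nat_lit 3) (.e (nat_lit 516195) (nat_lit 26) (.e (nat_lit 336011) (nat_lit 2) (.e (nat_lit 90165) (nat_lit 12) .nil))))) .nil))) (.nd (nat_lit 6) 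
(.lf (nat_lit 212650) (.g (nat_lit 1954) (.e (nat_lit 98048) (nat_lit 5) (.e (nat_lit 73746) (nat_lit 3) (.e (nat_lit 516129) (nat_lit 3) (.e (nat_lit 221210) (nat_lit 22) (.e (nat_lit 196648) (nat_lit 10) .nil))))) .nil)) 
(.lf (nat_lit 212714) (.g (nat_lit 1965) (.e (nat_lit 98048) (nat_lit 5) (.e (nat_lit 73753) (nat_lit 8) (.e (nat_lit 557098) (nat_lit 13) (.e (nat_lit 172066) (nat_lit 3) (.e (nat_lit 212736) (nat_lit 9) .nil))))) .nil)))) (.nd (nat_lit 5) (.nd (nat_lit 6) 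
(.lf (nat_lit 212634) (.g (nat_lit 1143) (.e (nat_lit 98048) (nat_lit 4) (.e (nat_lit 65630) (nat_lit 14) (.e (nat_lit 409344) (nat_lit 34) (.e (nat_lit 393273) (nat_lit 23) (.e (nat_lit 426432) (nat_lit 17) .nil))))) .nil)) 
(.lf (nat_lit 212698) (.g (nat_lit 1324) (.e (nat_lit 98048) (nat_lit 5) (.e (nat_lit 73753) (nat_lit 8) (.e (nat_lit 557097) (nat_lit 13) (.e (nat_lit 172067) (nat_lit 3) .nil)))) .nil))) (.nd (nat_lit 6) 
(.lf (nat_lit 212666) (.g (nat_lit 1415) (.e (nat_lit 98048) (nat_lit 5) (.e (nat_lit 73746) (nat_lit 3) (.e (nat_lit 516131) (nat_lit 3) (.e (nat_lit 221212) (nat_lit 22) (.e (nat_lit 204544) (nat_lit 0) .nil))))) .nil)) 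
(.lf (nat_lit 212730) (.g (nat_lit 1369) (.e (nat_lit 98048) (nat_lit 5) (.e (nat_lit 73753) (nat_lit 8) (.e (nat_lit 557100) (nat_lit 13) (.e (nat_lit 172064) (nat_lit 2) .nil)))) .nil)))))) (.nd (nat_lit 3) (.nd (nat_lit 4) (.nd (nat_lit 5) (.nd (nat_lit 6) 
(.lf (nat_lit 212614) (.g (nat_lit 792) (.e (nat_lit 98048) (nat_lit 2) (.e (nat_lit 16473) (nat_lit 14) (.e (nat_lit 491582) (nat_lit 27) .nil))) .nil)) 
(.lf (nat_lit 212678) (.g (nat_lit 962) (.e (nat_lit 98048) (nat_lit 5) (.e (nat_lit 73746) (nat_lit 3) (.e (nat_lit 516131) (nat_lit 3) (.e (nat_lit 221214) (nat_lit 23) .nil)))) .nil))) (.nd (nat_lit 6) 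
(.lf (nat_lit 212646) (.g (nat_lit 1881) (.e (nat_lit 98048) (nat_lit 5) (.e (nat_lit 73746) (nat_lit 3) (.e (nat_lit 516129) (nat_lit 3) (.e (nat_lit 221210) (nat_lit 22) (.e (nat_lit 196615) (nat_lit 0) .nil))))) .nil)) 
(.lf (nat_lit 212710) (.g (nat_lit 1772) (.e (nat_lit 98048) (nat_lit 5) (.e (nat_lit 73753) (nat_lit 8) (.e (nat_lit 557098) (nat_lit 13) (.e (nat_lit 172065) (nat_lit 3) (.e (nat_lit 204819) (nat_lit 17) .nil))))) .nil)))) (.nd (nat_lit 5) (.nd (nat_lit 6) 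
(.lf (nat_lit 212630) (.g (nat_lit 1334) (.e (nat_lit 98048) (nat_lit 3) (.e (nat_lit 57569) (nat_lit 53) (.e (nat_lit 761866) (nat_lit 5) (.e (nat_lit 1250) (nat_lit 92) (.e (nat_lit 98342) (nat_lit 20) .nil))))) .nil)) 
(.lf (nat_lit 212694) (.g (nat_lit 1709) (.e (nat_lit 98048) (nat_lit 5) (.e (nat_lit 73753) (nat_lit 8) (.e (nat_lit 557096) (nat_lit 13) (.e (nat_lit 172064) (nat_lit 2) (.e (nat_lit 196661) (nat_lit 12) .nil))))) .nil))) (.nd (nat_lit 6) 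
(.lf (nat_lit 212662) (.g (nat_lit 991) (.e (nat_lit 98048) (nat_lit 5) (.e (nat_lit 73746) (nat_lit 3) (.e (nat_lit 516131) (nat_lit 3) (.e (nat_lit 221212) (nat_lit 22) .nil)))) .nil)) 
(.lf (nat_lit 212726) (.g (nat_lit 1421) (.e (nat_lit 98048) (nat_lit 5) (.e (nat_lit 73753) (nat_lit 8) (.e (nat_lit 557098) (nat_lit 13) (.e (nat_lit 179968) (nat_lit 18) .nil)))) .nil))))) (.nd (nat_lit 4) (.nd (nat_lit 5) (.nd (nat_lit 6) 
(.lf (nat_lit 212622) (.g (nat_lit 442) (.e (nat_lit 98048) (nat_lit 3) (.e (nat_lit 57347) (nat_lit 0) (.e (nat_lit 7261) (nat_lit 384) .nil))) .nil)) 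
(.lf (nat_lit 212686) (.g (nat_lit 1206) (.e (nat_lit 98048) (nat_lit 5) (.e (nat_lit 73747) (nat_lit 3) (.e (nat_lit 516129) (nat_lit 3) (.e (nat_lit 221210) (nat_lit 22) .nil)))) .nil))) (.nd (nat_lit 6) 
(.lf (nat_lit 212654) (.g (nat_lit 1934) (.e (nat_lit 98048) (nat_lit 5) (.e (nat_lit 73746) (nat_lit 3) (.e (nat_lit 516129) (nat_lit 3) (.e (nat_lit 221210) (nat_lit 22) (.e (nat_lit 196699) (nat_lit 20) .nil))))) .nil)) 
(.lf (nat_lit 212718) (.g (nat_lit 1490) (.e (nat_lit 98048) (nat_lit 5) (.e (nat_lit 73753) (nat_lit 8) (.e (nat_lit 557098) (nat_lit 13) (.e (nat_lit 172067) (nat_lit 3) .nil)))) .nil)))) (.nd (nat_lit 5) (.nd (nat_lit 6) 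
(.lf (nat_lit 212638) (.g (nat_lit 733) (.e (nat_lit 98048) (nat_lit 5) (.e (nat_lit 73746) (nat_lit 3) (.e (nat_lit 516127) (nat_lit 2) (.e (nat_lit 213038) (nat_lit 13) .nil)))) .nil)) 
(.lf (nat_lit 212702) (.g (nat_lit 1375) (.e (nat_lit 98048) (nat_lit 5) (.e (nat_lit 73753) (nat_lit 8) (.e (nat_lit 557098) (nat_lit 13) (.e (nat_lit 172062) (nat_lit 2) (.e (nat_lit 196653) (nat_lit 11) .nil))))) .nil))) (.nd (nat_lit 6) 
(.lf (nat_lit 212670) (.g (nat_lit 1880) (.e (nat_lit 98048) (nat_lit 5) (.e (nat_lit 73746) (nat_lit 3) (.e (nat_lit 516131) (nat_lit 3) (.e (nat_lit 221212) (nat_lit 22) (.e (nat_lit 196622) (nat_lit 9) .nil))))) .nil)) 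
(.lf (nat_lit 212734) (.g (nat_lit 2506) (.e (nat_lit 98048) (nat_lit 5) (.e (nat_lit 73753) (nat_lit 8) (.e (nat_lit 557100) (nat_lit 13) (.e (nat_lit 172065) (nat_lit 3) (.e (nat_lit 204817) (nat_lit 17) .nil))))) .nil)))))))) (.nd (nat_lit 1) (.nd (nat_lit 2) (.nd (nat_lit 3) (.nd (nat_lit 4) (.nd (nat_lit 5) (.nd (nat_lit 6) 
(.lf (nat_lit 212609) (.g (nat_lit 1079) (.e (nat_lit 98048) (nat_lit 2) (.e (nat_lit 16473) (nat_lit 14) (.e (nat_lit 491543) (nat_lit 6) (.e (nat_lit 147459) (nat_lit 0) .nil)))) .nil)) 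
(.lf (nat_lit 212673) (.g (nat_lit 2127) (.e (nat_lit 98048) (nat_lit 5) (.e (nat_lit 73746) (nat_lit 3) (.e (nat_lit 516131) (nat_lit 3) (.e (nat_lit 221212) (nat_lit 22) (.e (nat_lit 196647) (nat_lit 10) .nil))))) .nil))) (.nd (nat_lit 6) 
(.lf (nat_lit 212641) (.g (nat_lit 1018) (.e (nat_lit 98048) (nat_lit 5) (.e (nat_lit 73746) (nat_lit 3) (.e (nat_lit 516129) (nat_lit 3) (.e (nat_lit 221210) (nat_lit 22) .nil)))) .nil)) 
(.lf (nat_lit 212705) (.g (nat_lit 2588) (.e (nat_lit 98048) (nat_lit 5) (.e (nat_lit 73753) (nat_lit 8) (.e (nat_lit 557098) (nat_lit 13) (.e (nat_lit 172064) (nat_lit 2) (.e (nat_lit 196656) (nat_lit 11) .nil))))) .nil)))) (.nd (nat_lit 5) (.nd (nat_lit 6) 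
(.lf (nat_lit 212625) (.g (nat_lit 474) (.e (nat_lit 98048) (nat_lit 3) (.e (nat_lit 57347) (nat_lit 0) (.e (nat_lit 7266) (nat_lit 384) .nil))) .nil)) 
(.lf (nat_lit 212689) (.g (nat_lit 974) (.e (nat_lit 98048) (nat_lit 5) (.e (nat_lit 73747) (nat_lit 3) (.e (nat_lit 516195) (nat_lit 26) (.e (nat_lit 336012) (nat_lit 2) .nil)))) .nil))) (.nd (nat_lit 6) 
(.lf (nat_lit 212657) (.g (nat_lit 2376) (.e (nat_lit 98048) (nat_lit 5) (.e (nat_lit 73746) (nat_lit 3) (.e (nat_lit 516129) (nat_lit 3) (.e (nat_lit 221215) (nat_lit 23) (.e (nat_lit 204839) (nat_lit 21) .nil))))) .nil)) 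
(.lf (nat_lit 212721) (.g (nat_lit 2484) (.e (nat_lit 98048) (nat_lit 5) (.e (nat_lit 73753) (nat_lit 8) (.e (nat_lit 557098) (nat_lit 13) (.e (nat_lit 172067) (nat_lit 3) (.e (nat_lit 212736) (nat_lit 9) .nil))))) .nil))))) (.nd (nat_lit 4) (.nd (nat_lit 5) (.nd (nat_lit 6) 
(.lf (nat_lit 212617) (.g (nat_lit 350) (.e (nat_lit 98048) (nat_lit 2) (.e (nat_lit 16473) (nat_lit 14) (.e (nat_lit 499456) (nat_lit 27) .nil))) .nil)) 
(.lf (nat_lit 212681) (.g (nat_lit 2303) (.e (nat_lit 98048) (nat_lit 5) (.e (nat_lit 73746) (nat_lit 3) (.e (nat_lit 516131) (nat_lit 3) (.e (nat_lit 221215) (nat_lit 23) (.e (nat_lit 204840) (nat_lit 21) .nil))))) .nil))) (.nd (nat_lit 6) 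
(.lf (nat_lit 212649) (.g (nat_lit 1946) (.e (nat_lit 98048) (nat_lit 5) (.e (nat_lit 73746) (nat_lit 3) (.e (nat_lit 516129) (nat_lit 3) (.e (nat_lit 221210) (nat_lit 22) (.e (nat_lit 196626) (nat_lit 9) .nil))))) .nil)) 
(.lf (nat_lit 212713) (.g (nat_lit 1480) (.e (nat_lit 98048) (nat_lit 5) (.e (nat_lit 73753) (nat_lit 8) (.e (nat_lit 557098) (nat_lit 13) (.e (nat_lit 172066) (nat_lit 3) .nil)))) .nil)))) (.nd (nat_lit 5) (.nd (nat_lit 6) 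
(.lf (nat_lit 212633) (.g (nat_lit 2567) (.e (nat_lit 98048) (nat_lit 4) (.e (nat_lit 65630) (nat_lit 14) (.e (nat_lit 401428) (nat_lit 3) (.e (nat_lit 204852) (nat_lit 26) (.e (nat_lit 336310) (nat_lit 16) .nil))))) .nil)) 
(.lf (nat_lit 212697) (.g (nat_lit 2020) (.e (nat_lit 98048) (nat_lit 5) (.e (nat_lit 73753) (nat_lit 8) (.e (nat_lit 557096) (nat_lit 13) (.e (nat_lit 172067) (nat_lit 3) (.e (nat_lit 204821) (nat_lit 17) .nil))))) .nil))) (.nd (nat_lit 6) 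
(.lf (nat_lit 212665) (.g (nat_lit 1555) (.e (nat_lit 98048) (nat_lit 5) (.e (nat_lit 73746) (nat_lit 3) (.e (nat_lit 516131) (nat_lit 3) (.e (nat_lit 221212) (nat_lit 22) (.e (nat_lit 196610) (nat_lit 0) .nil))))) .nil)) 
(.lf (nat_lit 212729) (.g (nat_lit 2289) (.e (nat_lit 98048) (nat_lit 5) (.e (nat_lit 73753) (nat_lit 8) (.e (nat_lit 557100) (nat_lit 13) (.e (nat_lit 172062) (nat_lit 2) (.e (nat_lit 196654) (nat_lit 11) .nil))))) .nil)))))) (.nd (nat_lit 3) (.nd (nat_lit 4) (.nd (nat_lit 5) (.nd (nat_lit 6) 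
(.lf (nat_lit 212613) (.g (nat_lit 696) (.e (nat_lit 98048) (nat_lit 2) (.e (nat_lit 16473) (nat_lit 14) (.e (nat_lit 491581) (nat_lit 27) (.e (nat_lit 426518) (nat_lit 27) .nil)))) .nil)) 
(.lf (nat_lit 212677) (.g (nat_lit 2072) (.e (nat_lit 98048) (nat_lit 5) (.e (nat_lit 73746) (nat_lit 3) (.e (nat_lit 516131) (nat_lit 3) (.e (nat_lit 221212) (nat_lit 22) (.e (nat_lit 196651) (nat_lit 10) .nil))))) .nil))) (.nd (nat_lit 6) 
(.lf (nat_lit 212645) (.g (nat_lit 1931) (.e (nat_lit 98048) (nat_lit 5) (.e (nat_lit 73746) (nat_lit 3) (.e (nat_lit 516129) (nat_lit 3) (.e (nat_lit 221210) (nat_lit 22) (.e (nat_lit 196614) (nat_lit 0) .nil))))) .nil)) 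
(.lf (nat_lit 212709) (.g (nat_lit 1906) (.e (nat_lit 98048) (nat_lit 5) (.e (nat_lit 73753) (nat_lit 8) (.e (nat_lit 557098) (nat_lit 13) (.e (nat_lit 172065) (nat_lit 3) (.e (nat_lit 204817) (nat_lit 17) .nil))))) .nil)))) (.nd (nat_lit 5) (.nd (nat_lit 6) 
(.lf (nat_lit 212629) (.g (nat_lit 1835) (.e (nat_lit 98048) (nat_lit 3) (.e (nat_lit 57354) (nat_lit 0) (.e (nat_lit 7270) (nat_lit 385) (.e (nat_lit 122925) (nat_lit 19) (.e (nat_lit 401152) (nat_lit 11) .nil))))) .nil)) 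
(.lf (nat_lit 212693) (.g (nat_lit 462) (.e (nat_lit 98048) (nat_lit 5) (.e (nat_lit 73753) (nat_lit 8) (.e (nat_lit 557096) (nat_lit 13) .nil))) .nil))) (.nd (nat_lit 6) 
(.lf (nat_lit 212661) (.g (nat_lit 1353) (.e (nat_lit 98048) (nat_lit 5) (.e (nat_lit 73746) (nat_lit 3) (.e (nat_lit 516131) (nat_lit 3) (.e (nat_lit 221211) (nat_lit 22) (.e (nat_lit 196648) (nat_lit 10) .nil))))) .nil)) 
(.lf (nat_lit 212725) (.g (nat_lit 2845) (.e (nat_lit 98048) (nat_lit 5) (.e (nat_lit 73753) (nat_lit 8) (.e (nat_lit 557098) (nat_lit 13) (.e (nat_lit 172067) (nat_lit 3) (.e (nat_lit 204842) (nat_lit 22) .nil))))) .nil))))) (.nd (nat_lit 4) (.nd (nat_lit 5) (.nd (nat_lit 6) 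
(.lf (nat_lit 212621) (.g (nat_lit 1232) (.e (nat_lit 98048) (nat_lit 2) (.e (nat_lit 16473) (nat_lit 14) (.e (nat_lit 499456) (nat_lit 27) (.e (nat_lit 426555) (nat_lit 32) (.e (nat_lit 376861) (nat_lit 22) .nil))))) .nil)) 
(.lf (nat_lit 212685) (.g (nat_lit 2419) (.e (nat_lit 98048) (nat_lit 5) (.e (nat_lit 73746) (nat_lit 3) (.e (nat_lit 516195) (nat_lit 26) (.e (nat_lit 336027) (nat_lit 3) (.e (nat_lit 98345) (nat_lit 22) .nil))))) .nil))) (.nd (nat_lit 6) 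
(.lf (nat_lit 212653) (.g (nat_lit 1934) (.e (nat_lit 98048) (nat_lit 5) (.e (nat_lit 73746) (nat_lit 3) (.e (nat_lit 516129) (nat_lit 3) (.e (nat_lit 221210) (nat_lit 22) (.e (nat_lit 196651) (nat_lit 10) .nil))))) .nil)) 
(.lf (nat_lit 212717) (.g (nat_lit 2001) (.e (nat_lit 98048) (nat_lit 5) (.e (nat_lit 73753) (nat_lit 8) (.e (nat_lit 557098) (nat_lit 13) (.e (nat_lit 172066) (nat_lit 3) (.e (nat_lit 204842) (nat_lit 22) .nil))))) .nil)))) (.nd (nat_lit 5) (.nd (nat_lit 6) 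
(.lf (nat_lit 212637) (.g (nat_lit 417) (.e (nat_lit 98048) (nat_lit 5) (.e (nat_lit 73746) (nat_lit 3) (.e (nat_lit 516126) (nat_lit 2) .nil))) .nil)) 
(.lf (nat_lit 212701) (.g (nat_lit 1153) (.e (nat_lit 98048) (nat_lit 5) (.e (nat_lit 73753) (nat_lit 8) (.e (nat_lit 557098) (nat_lit 13) (.e (nat_lit 172062) (nat_lit 2) .nil)))) .nil))) (.nd (nat_lit 6) 
(.lf (nat_lit 212669) (.g (nat_lit 1877) (.e (nat_lit 98048) (nat_lit 5) (.e (nat_lit 73746) (nat_lit 3) (.e (nat_lit 516131) (nat_lit 3) (.e (nat_lit 221212) (nat_lit 22) (.e (nat_lit 196620) (nat_lit 9) .nil))))) .nil)) 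
(.lf (nat_lit 212733) (.g (nat_lit 2649) (.e (nat_lit 98048) (nat_lit 5) (.e (nat_lit 73753) (nat_lit 8) (.e (nat_lit 557100) (nat_lit 13) (.e (nat_lit 172065) (nat_lit 3) (.e (nat_lit 212736) (nat_lit 9) .nil))))) .nil))))))) (.nd (nat_lit 2) (.nd (nat_lit 3) (.nd (nat_lit 4) (.nd (nat_lit 5) (.nd (nat_lit 6) 
(.lf (nat_lit 212611) (.g (nat_lit 969) (.e (nat_lit 98048) (nat_lit 2) (.e (nat_lit 16473) (nat_lit 14) (.e (nat_lit 491579) (nat_lit 27) (.e (nat_lit 426523) (nat_lit 27) .nil)))) .nil)) 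
(.lf (nat_lit 212675) (.g (nat_lit 2000) (.e (nat_lit 98048) (nat_lit 5) (.e (nat_lit 73746) (nat_lit 3) (.e (nat_lit 516131) (nat_lit 3) (.e (nat_lit 221212) (nat_lit 22) (.e (nat_lit 196649) (nat_lit 10) .nil))))) .nil))) (.nd (nat_lit 6) 
(.lf (nat_lit 212643) (.g (nat_lit 1914) (.e (nat_lit 98048) (nat_lit 5) (.e (nat_lit 73746) (nat_lit 3) (.e (nat_lit 516129) (nat_lit 3) (.e (nat_lit 221210) (nat_lit 22) (.e (nat_lit 196610) (nat_lit 0) .nil))))) .nil)) 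
(.lf (nat_lit 212707) (.g (nat_lit 1074) (.e (nat_lit 98048) (nat_lit 5) (.e (nat_lit 73753) (nat_lit 8) (.e (nat_lit 557098) (nat_lit 13) (.e (nat_lit 172065) (nat_lit 3) .nil)))) .nil)))) (.nd (nat_lit 5) (.nd (nat_lit 6) 
(.lf (nat_lit 212627) (.g (nat_lit 1596) (.e (nat_lit 98048) (nat_lit 3) (.e (nat_lit 57347) (nat_lit 0) (.e (nat_lit 7266) (nat_lit 384) (.e (nat_lit 57446) (nat_lit 19) .nil)))) .nil)) 
(.lf (nat_lit 212691) (.g (nat_lit 894) (.e (nat_lit 98048) (nat_lit 5) (.e (nat_lit 73748) (nat_lit 3) (.e (nat_lit 516129) (nat_lit 3) (.e (nat_lit 221214) (nat_lit 23) .nil)))) .nil))) (.nd (nat_lit 6) 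
(.lf (nat_lit 212659) (.g (nat_lit 1191) (.e (nat_lit 98048) (nat_lit 5) (.e (nat_lit 73746) (nat_lit 3) (.e (nat_lit 516131) (nat_lit 3) (.e (nat_lit 221211) (nat_lit 22) (.e (nat_lit 204544) (nat_lit 4) .nil))))) .nil)) 
(.lf (nat_lit 212723) (.g (nat_lit 2553) (.e (nat_lit 98048) (nat_lit 5) (.e (nat_lit 73753) (nat_lit 8) (.e (nat_lit 557098) (nat_lit 13) (.e (nat_lit 172067) (nat_lit 3) (.e (nat_lit 204821) (nat_lit 17) .nil))))) .nil))))) (.nd (nat_lit 4) (.nd (nat_lit 5) (.nd (nat_lit 6) 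
(.lf (nat_lit 212619) (.g (nat_lit 894) (.e (nat_lit 98048) (nat_lit 2) (.e (nat_lit 16473) (nat_lit 14) (.e (nat_lit 499456) (nat_lit 27) (.e (nat_lit 426542) (nat_lit 29) (.e (nat_lit 352310) (nat_lit 22) .nil))))) .nil)) 
(.lf (nat_lit 212683) (.g (nat_lit 1057) (.e (nat_lit 98048) (nat_lit 5) (.e (nat_lit 73746) (nat_lit 3) (.e (nat_lit 516195) (nat_lit 26) (.e (nat_lit 336012) (nat_lit 2) .nil)))) .nil))) (.nd (nat_lit 6) 
(.lf (nat_lit 212651) (.g (nat_lit 1933) (.e (nat_lit 98048) (nat_lit 5) (.e (nat_lit 73746) (nat_lit 3) (.e (nat_lit 516129) (nat_lit 3) (.e (nat_lit 221210) (nat_lit 22) (.e (nat_lit 196649) (nat_lit 10) .nil))))) .nil)) 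
(.lf (nat_lit 212715) (.g (nat_lit 2004) (.e (nat_lit 98048) (nat_lit 5) (.e (nat_lit 73753) (nat_lit 8) (.e (nat_lit 557098) (nat_lit 13) (.e (nat_lit 172066) (nat_lit 3) (.e (nat_lit 204819) (nat_lit 17) .nil))))) .nil)))) (.nd (nat_lit 5) (.nd (nat_lit 6) 
(.lf (nat_lit 212635) (.g (nat_lit 435) (.e (nat_lit 98048) (nat_lit 5) (.e (nat_lit 73746) (nat_lit 3) (.e (nat_lit 516124) (nat_lit 2) .nil))) .nil)) 
(.lf (nat_lit 212699) (.g (nat_lit 403) (.e (nat_lit 98048) (nat_lit 5) (.e (nat_lit 73753) (nat_lit 8) (.e (nat_lit 557098) (nat_lit 13) .nil))) .nil))) (.nd (nat_lit 6) 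
(.lf (nat_lit 212667) (.g (nat_lit 1415) (.e (nat_lit 98048) (nat_lit 5) (.e (nat_lit 73746) (nat_lit 3) (.e (nat_lit 516131) (nat_lit 3) (.e (nat_lit 221212) (nat_lit 22) (.e (nat_lit 204544) (nat_lit 4) .nil))))) .nil)) 
(.lf (nat_lit 212731) (.g (nat_lit 2078) (.e (nat_lit 98048) (nat_lit 5) (.e (nat_lit 73753) (nat_lit 8) (.e (nat_lit 557100) (nat_lit 13) (.e (nat_lit 172064) (nat_lit 2) (.e (nat_lit 196661) (nat_lit 12) .nil))))) .nil)))))) (.nd (nat_lit 3) (.nd (nat_lit 4) (.nd (nat_lit 5) (.nd (nat_lit 6) 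
(.lf (nat_lit 212615) (.g (nat_lit 1218) (.e (nat_lit 98048) (nat_lit 2) (.e (nat_lit 16473) (nat_lit 14) (.e (nat_lit 491583) (nat_lit 27) .nil))) .nil)) 
(.lf (nat_lit 212679) (.g (nat_lit 1907) (.e (nat_lit 98048) (nat_lit 5) (.e (nat_lit 73746) (nat_lit 3) (.e (nat_lit 516131) (nat_lit 3) (.e (nat_lit 221215) (nat_lit 23) (.e (nat_lit 204819) (nat_lit 17) .nil))))) .nil))) (.nd (nat_lit 6) 
(.lf (nat_lit 212647) (.g (nat_lit 1935) (.e (nat_lit 98048) (nat_lit 5) (.e (nat_lit 73746) (nat_lit 3) (.e (nat_lit 516129) (nat_lit 3) (.e (nat_lit 221210) (nat_lit 22) (.e (nat_lit 196616) (nat_lit 0) .nil))))) .nil)) 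
(.lf (nat_lit 212711) (.g (nat_lit 1929) (.e (nat_lit 98048) (nat_lit 5) (.e (nat_lit 73753) (nat_lit 8) (.e (nat_lit 557098) (nat_lit 13) (.e (nat_lit 172065) (nat_lit 3) (.e (nat_lit 204821) (nat_lit 17) .nil))))) .nil)))) (.nd (nat_lit 5) (.nd (nat_lit 6) 
(.lf (nat_lit 212631) (.g (nat_lit 468) (.e (nat_lit 98048) (nat_lit 3) (.e (nat_lit 57569) (nat_lit 53) (.e (nat_lit 761868) (nat_lit 5) (.e (nat_lit 1649) (nat_lit 115) (.e (nat_lit 401152) (nat_lit 11) .nil))))) .nil)) 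
(.lf (nat_lit 212695) (.g (nat_lit 2236) (.e (nat_lit 98048) (nat_lit 5) (.e (nat_lit 73753) (nat_lit 8) (.e (nat_lit 557096) (nat_lit 13) (.e (nat_lit 172067) (nat_lit 3) (.e (nat_lit 204809) (nat_lit 9) .nil))))) .nil))) (.nd (nat_lit 6) 
(.lf (nat_lit 212663) (.g (nat_lit 2134) (.e (nat_lit 98048) (nat_lit 5) (.e (nat_lit 73746) (nat_lit 3) (.e (nat_lit 516131) (nat_lit 3) (.e (nat_lit 221212) (nat_lit 22) (.e (nat_lit 196608) (nat_lit 0) .nil))))) .nil)) 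
(.lf (nat_lit 212727) (.g (nat_lit 398) (.e (nat_lit 98048) (nat_lit 5) (.e (nat_lit 73753) (nat_lit 8) (.e (nat_lit 557100) (nat_lit 13) .nil))) .nil))))) (.nd (nat_lit 4) (.nd (nat_lit 5) (.nd (nat_lit 6) 
(.lf (nat_lit 212623) (.g (nat_lit 446) (.e (nat_lit 98048) (nat_lit 3) (.e (nat_lit 57347) (nat_lit 0) (.e (nat_lit 7265) (nat_lit 384) .nil))) .nil)) 
(.lf (nat_lit 212687) (.g (nat_lit 1023) (.e (nat_lit 98048) (nat_lit 5) (.e (nat_lit 73747) (nat_lit 3) (.e (nat_lit 516131) (nat_lit 3) (.e (nat_lit 221212) (nat_lit 22) .nil)))) .nil))) (.nd (nat_lit 6) 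
(.lf (nat_lit 212655) (.g (nat_lit 2152) (.e (nat_lit 98048) (nat_lit 5) (.e (nat_lit 73746) (nat_lit 3) (.e (nat_lit 516129) (nat_lit 3) (.e (nat_lit 221214) (nat_lit 23) (.e (nat_lit 204819) (nat_lit 17) .nil))))) .nil)) 
(.lf (nat_lit 212719) (.g (nat_lit 2513) (.e (nat_lit 98048) (nat_lit 5) (.e (nat_lit 73753) (nat_lit 8) (.e (nat_lit 557098) (nat_lit 13) (.e (nat_lit 172067) (nat_lit 3) (.e (nat_lit 204808) (nat_lit 9) .nil))))) .nil)))) (.nd (nat_lit 5) (.nd (nat_lit 6) 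
(.lf (nat_lit 212639) (.g (nat_lit 1182) (.e (nat_lit 98048) (nat_lit 5) (.e (nat_lit 73746) (nat_lit 3) (.e (nat_lit 516129) (nat_lit 3) (.e (nat_lit 221198) (nat_lit 20) .nil)))) .nil)) 
(.lf (nat_lit 212703) (.g (nat_lit 1383) (.e (nat_lit 98048) (nat_lit 5) (.e (nat_lit 73753) (nat_lit 8) (.e (nat_lit 557098) (nat_lit 13) (.e (nat_lit 172063) (nat_lit 2) .nil)))) .nil))) (.nd (nat_lit 6) 
(.lf (nat_lit 212671) (.g (nat_lit 1543) (.e (nat_lit 98048) (nat_lit 5) (.e (nat_lit 73746) (nat_lit 3) (.e (nat_lit 516131) (nat_lit 3) (.e (nat_lit 221212) (nat_lit 22) (.e (nat_lit 196623) (nat_lit 9) .nil))))) .nil)) 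
(.lf (nat_lit 212735) (.g (nat_lit 2718) (.e (nat_lit 98048) (nat_lit 5) (.e (nat_lit 73753) (nat_lit 8) (.e (nat_lit 557100) (nat_lit 13) (.e (nat_lit 172065) (nat_lit 3) (.e (nat_lit 204819) (nat_lit 17) .nil))))) .nil)))))))))

noncomputable def tv2809 : DT := (.nd (nat_lit 0) (.nd (nat_lit 1) (.nd (nat_lit 2) (.nd (nat_lit 3) (.nd (nat_lit 4) (.nd (nat_lit 5) (.nd (nat_lit 6) 
(.lf (nat_lit 212736) (.g (nat_lit 2747) (.e (nat_lit 98048) (nat_lit 5) (.e (nat_lit 73753) (nat_lit 8) (.e (nat_lit 557100) (nat_lit 13) (.e (nat_lit 172065) (nat_lit 3) (.e (nat_lit 204821) (nat_lit 17) .nil))))) .nil)) 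
(.lf (nat_lit 212800) (.g (nat_lit 2881) (.e (nat_lit 98048) (nat_lit 5) (.e (nat_lit 73753) (nat_lit 8) (.e (nat_lit 557105) (nat_lit 14) (.e (nat_lit 180252) (nat_lit 10) (.e (nat_lit 573468) (nat_lit 10) .nil))))) .nil))) (.nd (nat_lit 6) 
(.lf (nat_lit 212768) (.g (nat_lit 2241) (.e (nat_lit 98048) (nat_lit 5) (.e (nat_lit 73753) (nat_lit 8) (.e (nat_lit 557103) (nat_lit 14) (.e (nat_lit 180244) (nat_lit 5) (.e (nat_lit 532519) (nat_lit 5) .nil))))) .nil)) 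
(.lf (nat_lit 212832) (.g (nat_lit 1581) (.e (nat_lit 98048) (nat_lit 5) (.e (nat_lit 73754) (nat_lit 8) (.e (nat_lit 557101) (nat_lit 13) (.e (nat_lit 172066) (nat_lit 3) (.e (nat_lit 212736) (nat_lit 9) .nil))))) .nil)))) (.nd (nat_lit 5) (.nd (nat_lit 6) 
(.lf (nat_lit 212752) (.g (nat_lit 1792) (.e (nat_lit 98048) (nat_lit 5) (.e (nat_lit 73753) (nat_lit 8) (.e (nat_lit 557101) (nat_lit 13) (.e (nat_lit 172066) (nat_lit 3) (.e (nat_lit 204819) (nat_lit 17) .nil))))) .nil)) 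
(.lf (nat_lit 212816) (.g (nat_lit 2900) (.e (nat_lit 98048) (nat_lit 5) (.e (nat_lit 73754) (nat_lit 8) (.e (nat_lit 557100) (nat_lit 13) (.e (nat_lit 172065) (nat_lit 3) (.e (nat_lit 204821) (nat_lit 17) .nil))))) .nil))) (.nd (nat_lit 6) 
(.lf (nat_lit 212784) (.g (nat_lit 2904) (.e (nat_lit 98048) (nat_lit 5) (.e (nat_lit 73753) (nat_lit 8) (.e (nat_lit 557104) (nat_lit 14) (.e (nat_lit 180252) (nat_lit 10) (.e (nat_lit 573474) (nat_lit 12) .nil))))) .nil)) 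
(.lf (nat_lit 212848) (.g (nat_lit 514) (.e (nat_lit 98048) (nat_lit 5) (.e (nat_lit 73754) (nat_lit 8) (.e (nat_lit 557105) (nat_lit 14) .nil))) .nil))))) (.nd (nat_lit 4) (.nd (nat_lit 5) (.nd (nat_lit 6) 
(.lf (nat_lit 212744) (.g (nat_lit 1200) (.e (nat_lit 98048) (nat_lit 5) (.e (nat_lit 73753) (nat_lit 8) (.e (nat_lit 557101) (nat_lit 13) (.e (nat_lit 172064) (nat_lit 2) .nil)))) .nil)) 
(.lf (nat_lit 212808) (.g (nat_lit 2313) (.e (nat_lit 98048) (nat_lit 5) (.e (nat_lit 73754) (nat_lit 8) (.e (nat_lit 557100) (nat_lit 13) (.e (nat_lit 172062) (nat_lit 2) (.e (nat_lit 196653) (nat_lit 11) .nil))))) .nil))) (.nd (nat_lit 6) 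
(.lf (nat_lit 212776) (.g (nat_lit 2290) (.e (nat_lit 98048) (nat_lit 5) (.e (nat_lit 73753) (nat_lit 8) (.e (nat_lit 557103) (nat_lit 14) (.e (nat_lit 180250) (nat_lit 10) (.e (nat_lit 581376) (nat_lit 0) .nil))))) .nil)) 
(.lf (nat_lit 212840) (.g (nat_lit 1818) (.e (nat_lit 98048) (nat_lit 5) (.e (nat_lit 73754) (nat_lit 8) (.e (nat_lit 557103) (nat_lit 14) (.e (nat_lit 180250) (nat_lit 10) (.e (nat_lit 573441) (nat_lit 0) .nil))))) .nil)))) (.nd (nat_lit 5) (.nd (nat_lit 6) 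
(.lf (nat_lit 212760) (.g (nat_lit 1956) (.e (nat_lit 98048) (nat_lit 5) (.e (nat_lit 73753) (nat_lit 8) (.e (nat_lit 557103) (nat_lit 14) (.e (nat_lit 180235) (nat_lit 1) .nil)))) .nil)) 
(.lf (nat_lit 212824) (.g (nat_lit 982) (.e (nat_lit 98048) (nat_lit 5) (.e (nat_lit 73754) (nat_lit 8) (.e (nat_lit 557101) (nat_lit 13) (.e (nat_lit 172062) (nat_lit 2) .nil)))) .nil))) (.nd (nat_lit 6) 
(.lf (nat_lit 212792) (.g (nat_lit 2240) (.e (nat_lit 98048) (nat_lit 5) (.e (nat_lit 73753) (nat_lit 8) (.e (nat_lit 557105) (nat_lit 14) (.e (nat_lit 180251) (nat_lit 10) (.e (nat_lit 581376) (nat_lit 4) .nil))))) .nil)) 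
(.lf (nat_lit 212856) (.g (nat_lit 1297) (.e (nat_lit 98048) (nat_lit 5) (.e (nat_lit 73754) (nat_lit 8) (.e (nat_lit 557105) (nat_lit 14) (.e (nat_lit 180251) (nat_lit 10) .nil)))) .nil)))))) (.nd (nat_lit 3) (.nd (nat_lit 4) (.nd (nat_lit 5) (.nd (nat_lit 6) 
(.lf (nat_lit 212740) (.g (nat_lit 2498) (.e (nat_lit 98048) (nat_lit 5) (.e (nat_lit 73753) (nat_lit 8) (.e (nat_lit 557100) (nat_lit 13) (.e (nat_lit 172067) (nat_lit 3) (.e (nat_lit 204842) (nat_lit 22) .nil))))) .nil)) 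
(.lf (nat_lit 212804) (.g (nat_lit 377) (.e (nat_lit 98048) (nat_lit 5) (.e (nat_lit 73754) (nat_lit 8) (.e (nat_lit 557100) (nat_lit 13) .nil))) .nil))) (.nd (nat_lit 6) 
(.lf (nat_lit 212772) (.g (nat_lit 1442) (.e (nat_lit 98048) (nat_lit 5) (.e (nat_lit 73753) (nat_lit 8) (.e (nat_lit 557103) (nat_lit 14) (.e (nat_lit 180250) (nat_lit 10) .nil)))) .nil)) 
(.lf (nat_lit 212836) (.g (nat_lit 1923) (.e (nat_lit 98048) (nat_lit 5) (.e (nat_lit 73754) (nat_lit 8) (.e (nat_lit 557101) (nat_lit 13) (.e (nat_lit 172067) (nat_lit 3) (.e (nat_lit 212736) (nat_lit 9) .nil))))) .nil)))) (.nd (nat_lit 5) (.nd (nat_lit 6) 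
(.lf (nat_lit 212756) (.g (nat_lit 2031) (.e (nat_lit 98048) (nat_lit 5) (.e (nat_lit 73753) (nat_lit 8) (.e (nat_lit 557101) (nat_lit 13) (.e (nat_lit 172067) (nat_lit 3) (.e (nat_lit 212736) (nat_lit 9) .nil))))) .nil)) 
(.lf (nat_lit 212820) (.g (nat_lit 2706) (.e (nat_lit 98048) (nat_lit 5) (.e (nat_lit 73754) (nat_lit 8) (.e (nat_lit 557100) (nat_lit 13) (.e (nat_lit 172067) (nat_lit 3) (.e (nat_lit 204841) (nat_lit 22) .nil))))) .nil))) (.nd (nat_lit 6) 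
(.lf (nat_lit 212788) (.g (nat_lit 1825) (.e (nat_lit 98048) (nat_lit 5) (.e (nat_lit 73753) (nat_lit 8) (.e (nat_lit 557105) (nat_lit 14) (.e (nat_lit 180237) (nat_lit 1) .nil)))) .nil)) 
(.lf (nat_lit 212852) (.g (nat_lit 2034) (.e (nat_lit 98048) (nat_lit 5) (.e (nat_lit 73754) (nat_lit 8) (.e (nat_lit 557105) (nat_lit 14) (.e (nat_lit 180235) (nat_lit 1) .nil)))) .nil))))) (.nd (nat_lit 4) (.nd (nat_lit 5) (.nd (nat_lit 6) 
(.lf (nat_lit 212748) (.g (nat_lit 2000) (.e (nat_lit 98048) (nat_lit 5) (.e (nat_lit 73753) (nat_lit 8) (.e (nat_lit 557101) (nat_lit 13) (.e (nat_lit 172065) (nat_lit 3) (.e (nat_lit 204821) (nat_lit 17) .nil))))) .nil)) 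
(.lf (nat_lit 212812) (.g (nat_lit 1807) (.e (nat_lit 98048) (nat_lit 5) (.e (nat_lit 73754) (nat_lit 8) (.e (nat_lit 557100) (nat_lit 13) (.e (nat_lit 172065) (nat_lit 3) .nil)))) .nil))) (.nd (nat_lit 6) 
(.lf (nat_lit 212780) (.g (nat_lit 2166) (.e (nat_lit 98048) (nat_lit 5) (.e (nat_lit 73753) (nat_lit 8) (.e (nat_lit 557103) (nat_lit 14) (.e (nat_lit 180250) (nat_lit 10) (.e (nat_lit 573475) (nat_lit 12) .nil))))) .nil)) 
(.lf (nat_lit 212844) (.g (nat_lit 1811) (.e (nat_lit 98048) (nat_lit 5) (.e (nat_lit 73754) (nat_lit 8) (.e (nat_lit 557103) (nat_lit 14) (.e (nat_lit 180250) (nat_lit 10) (.e (nat_lit 573467) (nat_lit 10) .nil))))) .nil)))) (.nd (nat_lit 5) (.nd (nat_lit 6) 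
(.lf (nat_lit 212764) (.g (nat_lit 2973) (.e (nat_lit 98048) (nat_lit 5) (.e (nat_lit 73753) (nat_lit 8) (.e (nat_lit 557103) (nat_lit 14) (.e (nat_lit 180243) (nat_lit 5) (.e (nat_lit 532518) (nat_lit 5) .nil))))) .nil)) 
(.lf (nat_lit 212828) (.g (nat_lit 1680) (.e (nat_lit 98048) (nat_lit 5) (.e (nat_lit 73754) (nat_lit 8) (.e (nat_lit 557101) (nat_lit 13) (.e (nat_lit 172065) (nat_lit 3) (.e (nat_lit 212736) (nat_lit 9) .nil))))) .nil))) (.nd (nat_lit 6) 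
(.lf (nat_lit 212796) (.g (nat_lit 2611) (.e (nat_lit 98048) (nat_lit 5) (.e (nat_lit 73753) (nat_lit 8) (.e (nat_lit 557105) (nat_lit 14) (.e (nat_lit 180252) (nat_lit 10) (.e (nat_lit 573442) (nat_lit 0) .nil))))) .nil)) 
(.lf (nat_lit 212860) (.g (nat_lit 2197) (.e (nat_lit 98048) (nat_lit 5) (.e (nat_lit 73754) (nat_lit 8) (.e (nat_lit 557105) (nat_lit 14) (.e (nat_lit 180251) (nat_lit 10) (.e (nat_lit 581376) (nat_lit 4) .nil))))) .nil))))))) (.nd (nat_lit 2) (.nd (nat_lit 3) (.nd (nat_lit 4) (.nd (nat_lit 5) (.nd (nat_lit 6) 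
(.lf (nat_lit 212738) (.g (nat_lit 2362) (.e (nat_lit 98048) (nat_lit 5) (.e (nat_lit 73753) (nat_lit 8) (.e (nat_lit 557100) (nat_lit 13) (.e (nat_lit 172067) (nat_lit 3) (.e (nat_lit 212736) (nat_lit 9) .nil))))) .nil)) 
(.lf (nat_lit 212802) (.g (nat_lit 2123) (.e (nat_lit 98048) (nat_lit 5) (.e (nat_lit 73753) (nat_lit 8) (.e (nat_lit 557105) (nat_lit 14) (.e (nat_lit 180252) (nat_lit 10) (.e (nat_lit 573503) (nat_lit 18) .nil))))) .nil))) (.nd (nat_lit 6) 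
(.lf (nat_lit 212770) (.g (nat_lit 2312) (.e (nat_lit 98048) (nat_lit 5) (.e (nat_lit 73753) (nat_lit 8) (.e (nat_lit 557103) (nat_lit 14) (.e (nat_lit 180244) (nat_lit 5) (.e (nat_lit 532580) (nat_lit 26) .nil))))) .nil)) 
(.lf (nat_lit 212834) (.g (nat_lit 1607) (.e (nat_lit 98048) (nat_lit 5) (.e (nat_lit 73754) (nat_lit 8) (.e (nat_lit 557101) (nat_lit 13) (.e (nat_lit 172066) (nat_lit 3) (.e (nat_lit 204842) (nat_lit 22) .nil))))) .nil)))) (.nd (nat_lit 5) (.nd (nat_lit 6) 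
(.lf (nat_lit 212754) (.g (nat_lit 1788) (.e (nat_lit 98048) (nat_lit 5) (.e (nat_lit 73753) (nat_lit 8) (.e (nat_lit 557101) (nat_lit 13) (.e (nat_lit 172066) (nat_lit 3) (.e (nat_lit 204842) (nat_lit 22) .nil))))) .nil)) 
(.lf (nat_lit 212818) (.g (nat_lit 2706) (.e (nat_lit 98048) (nat_lit 5) (.e (nat_lit 73754) (nat_lit 8) (.e (nat_lit 557100) (nat_lit 13) (.e (nat_lit 172067) (nat_lit 3) (.e (nat_lit 204810) (nat_lit 9) .nil))))) .nil))) (.nd (nat_lit 6) 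
(.lf (nat_lit 212786) (.g (nat_lit 1347) (.e (nat_lit 98048) (nat_lit 5) (.e (nat_lit 73753) (nat_lit 8) (.e (nat_lit 557105) (nat_lit 14) (.e (nat_lit 180227) (nat_lit 0) .nil)))) .nil)) 
(.lf (nat_lit 212850) (.g (nat_lit 2407) (.e (nat_lit 98048) (nat_lit 5) (.e (nat_lit 73754) (nat_lit 8) (.e (nat_lit 557105) (nat_lit 14) (.e (nat_lit 180227) (nat_lit 0) (.e (nat_lit 4301) (nat_lit 256) .nil))))) .nil))))) (.nd (nat_lit 4) (.nd (nat_lit 5) (.nd (nat_lit 6) 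
(.lf (nat_lit 212746) (.g (nat_lit 1138) (.e (nat_lit 98048) (nat_lit 5) (.e (nat_lit 73753) (nat_lit 8) (.e (nat_lit 557101) (nat_lit 13) (.e (nat_lit 172065) (nat_lit 3) .nil)))) .nil)) 
(.lf (nat_lit 212810) (.g (nat_lit 1376) (.e (nat_lit 98048) (nat_lit 5) (.e (nat_lit 73754) (nat_lit 8) (.e (nat_lit 557100) (nat_lit 13) (.e (nat_lit 172064) (nat_lit 2) .nil)))) .nil))) (.nd (nat_lit 6) 
(.lf (nat_lit 212778) (.g (nat_lit 2408) (.e (nat_lit 98048) (nat_lit 5) (.e (nat_lit 73753) (nat_lit 8) (.e (nat_lit 557103) (nat_lit 14) (.e (nat_lit 180250) (nat_lit 10) (.e (nat_lit 573467) (nat_lit 10) .nil))))) .nil)) 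
(.lf (nat_lit 212842) (.g (nat_lit 1564) (.e (nat_lit 98048) (nat_lit 5) (.e (nat_lit 73754) (nat_lit 8) (.e (nat_lit 557103) (nat_lit 14) (.e (nat_lit 180250) (nat_lit 10) (.e (nat_lit 581376) (nat_lit 0) .nil))))) .nil)))) (.nd (nat_lit 5) (.nd (nat_lit 6) 
(.lf (nat_lit 212762) (.g (nat_lit 2012) (.e (nat_lit 98048) (nat_lit 5) (.e (nat_lit 73753) (nat_lit 8) (.e (nat_lit 557103) (nat_lit 14) (.e (nat_lit 180240) (nat_lit 2) .nil)))) .nil)) 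
(.lf (nat_lit 212826) (.g (nat_lit 1753) (.e (nat_lit 98048) (nat_lit 5) (.e (nat_lit 73754) (nat_lit 8) (.e (nat_lit 557101) (nat_lit 13) (.e (nat_lit 172064) (nat_lit 2) (.e (nat_lit 196661) (nat_lit 12) .nil))))) .nil))) (.nd (nat_lit 6) 
(.lf (nat_lit 212794) (.g (nat_lit 1077) (.e (nat_lit 98048) (nat_lit 5) (.e (nat_lit 73753) (nat_lit 8) (.e (nat_lit 557105) (nat_lit 14) (.e (nat_lit 180252) (nat_lit 10) .nil)))) .nil)) 
(.lf (nat_lit 212858) (.g (nat_lit 2702) (.e (nat_lit 98048) (nat_lit 5) (.e (nat_lit 73754) (nat_lit 8) (.e (nat_lit 557105) (nat_lit 14) (.e (nat_lit 180251) (nat_lit 10) (.e (nat_lit 573447) (nat_lit 0) .nil))))) .nil)))))) (.nd (nat_lit 3) (.nd (nat_lit 4) (.nd (nat_lit 5) (.nd (nat_lit 6) 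
(.lf (nat_lit 212742) (.g (nat_lit 1120) (.e (nat_lit 98048) (nat_lit 5) (.e (nat_lit 73753) (nat_lit 8) (.e (nat_lit 557101) (nat_lit 13) (.e (nat_lit 172051) (nat_lit 0) .nil)))) .nil)) 
(.lf (nat_lit 212806) (.g (nat_lit 1845) (.e (nat_lit 98048) (nat_lit 5) (.e (nat_lit 73754) (nat_lit 8) (.e (nat_lit 557100) (nat_lit 13) (.e (nat_lit 172062) (nat_lit 2) .nil)))) .nil))) (.nd (nat_lit 6) 
(.lf (nat_lit 212774) (.g (nat_lit 2382) (.e (nat_lit 98048) (nat_lit 5) (.e (nat_lit 73753) (nat_lit 8) (.e (nat_lit 557103) (nat_lit 14) (.e (nat_lit 180250) (nat_lit 10) (.e (nat_lit 573443) (nat_lit 0) .nil))))) .nil)) 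
(.lf (nat_lit 212838) (.g (nat_lit 1275) (.e (nat_lit 98048) (nat_lit 5) (.e (nat_lit 73754) (nat_lit 8) (.e (nat_lit 557103) (nat_lit 14) (.e (nat_lit 180243) (nat_lit 5) .nil)))) .nil)))) (.nd (nat_lit 5) (.nd (nat_lit 6) 
(.lf (nat_lit 212758) (.g (nat_lit 2468) (.e (nat_lit 98048) (nat_lit 5) (.e (nat_lit 73753) (nat_lit 8) (.e (nat_lit 557103) (nat_lit 14) (.e (nat_lit 180225) (nat_lit 0) (.e (nat_lit 4301) (nat_lit 256) .nil))))) .nil)) 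
(.lf (nat_lit 212822) (.g (nat_lit 429) (.e (nat_lit 98048) (nat_lit 5) (.e (nat_lit 73754) (nat_lit 8) (.e (nat_lit 557101) (nat_lit 13) .nil))) .nil))) (.nd (nat_lit 6) 
(.lf (nat_lit 212790) (.g (nat_lit 2497) (.e (nat_lit 98048) (nat_lit 5) (.e (nat_lit 73753) (nat_lit 8) (.e (nat_lit 557105) (nat_lit 14) (.e (nat_lit 180251) (nat_lit 10) (.e (nat_lit 573442) (nat_lit 0) .nil))))) .nil)) 
(.lf (nat_lit 212854) (.g (nat_lit 2034) (.e (nat_lit 98048) (nat_lit 5) (.e (nat_lit 73754) (nat_lit 8) (.e (nat_lit 557105) (nat_lit 14) (.e (nat_lit 180240) (nat_lit 2) .nil)))) .nil))))) (.nd (nat_lit 4) (.nd (nat_lit 5) (.nd (nat_lit 6) 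
(.lf (nat_lit 212750) (.g (nat_lit 1789) (.e (nat_lit 98048) (nat_lit 5) (.e (nat_lit 73753) (nat_lit 8) (.e (nat_lit 557101) (nat_lit 13) (.e (nat_lit 172066) (nat_lit 3) (.e (nat_lit 204809) (nat_lit 9) .nil))))) .nil)) 
(.lf (nat_lit 212814) (.g (nat_lit 2752) (.e (nat_lit 98048) (nat_lit 5) (.e (nat_lit 73754) (nat_lit 8) (.e (nat_lit 557100) (nat_lit 13) (.e (nat_lit 172065) (nat_lit 3) (.e (nat_lit 212736) (nat_lit 9) .nil))))) .nil))) (.nd (nat_lit 6) 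
(.lf (nat_lit 212782) (.g (nat_lit 1567) (.e (nat_lit 98048) (nat_lit 5) (.e (nat_lit 73753) (nat_lit 8) (.e (nat_lit 557104) (nat_lit 14) (.e (nat_lit 180236) (nat_lit 1) .nil)))) .nil)) 
(.lf (nat_lit 212846) (.g (nat_lit 1595) (.e (nat_lit 98048) (nat_lit 5) (.e (nat_lit 73754) (nat_lit 8) (.e (nat_lit 557103) (nat_lit 14) (.e (nat_lit 180250) (nat_lit 10) (.e (nat_lit 573477) (nat_lit 12) .nil))))) .nil)))) (.nd (nat_lit 5) (.nd (nat_lit 6) 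
(.lf (nat_lit 212766) (.g (nat_lit 2678) (.e (nat_lit 98048) (nat_lit 5) (.e (nat_lit 73753) (nat_lit 8) (.e (nat_lit 557103) (nat_lit 14) (.e (nat_lit 180243) (nat_lit 5) (.e (nat_lit 540416) (nat_lit 26) .nil))))) .nil)) 
(.lf (nat_lit 212830) (.g (nat_lit 1037) (.e (nat_lit 98048) (nat_lit 5) (.e (nat_lit 73754) (nat_lit 8) (.e (nat_lit 557101) (nat_lit 13) (.e (nat_lit 172066) (nat_lit 3) .nil)))) .nil))) (.nd (nat_lit 6) 
(.lf (nat_lit 212798) (.g (nat_lit 1849) (.e (nat_lit 98048) (nat_lit 5) (.e (nat_lit 73753) (nat_lit 8) (.e (nat_lit 557105) (nat_lit 14) (.e (nat_lit 180252) (nat_lit 10) (.e (nat_lit 581376) (nat_lit 4) .nil))))) .nil)) 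
(.lf (nat_lit 212862) (.g (nat_lit 1919) (.e (nat_lit 98048) (nat_lit 5) (.e (nat_lit 73754) (nat_lit 8) (.e (nat_lit 557105) (nat_lit 14) (.e (nat_lit 180251) (nat_lit 10) (.e (nat_lit 573478) (nat_lit 12) .nil))))) .nil)))))))) (.nd (nat_lit 1) (.nd (nat_lit 2) (.nd (nat_lit 3) (.nd (nat_lit 4) (.nd (nat_lit 5) (.nd (nat_lit 6) 
(.lf (nat_lit 212737) (.g (nat_lit 1447) (.e (nat_lit 98048) (nat_lit 5) (.e (nat_lit 73753) (nat_lit 8) (.e (nat_lit 557100) (nat_lit 13) (.e (nat_lit 172067) (nat_lit 3) .nil)))) .nil)) 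
(.lf (nat_lit 212801) (.g (nat_lit 1949) (.e (nat_lit 98048) (nat_lit 5) (.e (nat_lit 73753) (nat_lit 8) (.e (nat_lit 557105) (nat_lit 14) (.e (nat_lit 180252) (nat_lit 10) (.e (nat_lit 573475) (nat_lit 12) .nil))))) .nil))) (.nd (nat_lit 6) 
(.lf (nat_lit 212769) (.g (nat_lit 2327) (.e (nat_lit 98048) (nat_lit 5) (.e (nat_lit 73753) (nat_lit 8) (.e (nat_lit 557103) (nat_lit 14) (.e (nat_lit 180244) (nat_lit 5) (.e (nat_lit 532578) (nat_lit 26) .nil))))) .nil)) 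
(.lf (nat_lit 212833) (.g (nat_lit 1607) (.e (nat_lit 98048) (nat_lit 5) (.e (nat_lit 73754) (nat_lit 8) (.e (nat_lit 557101) (nat_lit 13) (.e (nat_lit 172066) (nat_lit 3) (.e (nat_lit 204821) (nat_lit 17) .nil))))) .nil)))) (.nd (nat_lit 5) (.nd (nat_lit 6) 
(.lf (nat_lit 212753) (.g (nat_lit 1788) (.e (nat_lit 98048) (nat_lit 5) (.e (nat_lit 73753) (nat_lit 8) (.e (nat_lit 557101) (nat_lit 13) (.e (nat_lit 172066) (nat_lit 3) (.e (nat_lit 204821) (nat_lit 17) .nil))))) .nil)) 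
(.lf (nat_lit 212817) (.g (nat_lit 1564) (.e (nat_lit 98048) (nat_lit 5) (.e (nat_lit 73754) (nat_lit 8) (.e (nat_lit 557100) (nat_lit 13) (.e (nat_lit 172067) (nat_lit 3) .nil)))) .nil))) (.nd (nat_lit 6) 
(.lf (nat_lit 212785) (.g (nat_lit 350) (.e (nat_lit 98048) (nat_lit 5) (.e (nat_lit 73753) (nat_lit 8) (.e (nat_lit 557105) (nat_lit 14) .nil))) .nil)) 
(.lf (nat_lit 212849) (.g (nat_lit 1569) (.e (nat_lit 98048) (nat_lit 5) (.e (nat_lit 73754) (nat_lit 8) (.e (nat_lit 557105) (nat_lit 14) (.e (nat_lit 180227) (nat_lit 0) .nil)))) .nil))))) (.nd (nat_lit 4) (.nd (nat_lit 5) (.nd (nat_lit 6) 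
(.lf (nat_lit 212745) (.g (nat_lit 1887) (.e (nat_lit 98048) (nat_lit 5) (.e (nat_lit 73753) (nat_lit 8) (.e (nat_lit 557101) (nat_lit 13) (.e (nat_lit 172064) (nat_lit 2) (.e (nat_lit 196661) (nat_lit 12) .nil))))) .nil)) 
(.lf (nat_lit 212809) (.g (nat_lit 2341) (.e (nat_lit 98048) (nat_lit 5) (.e (nat_lit 73754) (nat_lit 8) (.e (nat_lit 557100) (nat_lit 13) (.e (nat_lit 172062) (nat_lit 2) (.e (nat_lit 196661) (nat_lit 12) .nil))))) .nil))) (.nd (nat_lit 6) 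
(.lf (nat_lit 212777) (.g (nat_lit 2290) (.e (nat_lit 98048) (nat_lit 5) (.e (nat_lit 73753) (nat_lit 8) (.e (nat_lit 557103) (nat_lit 14) (.e (nat_lit 180250) (nat_lit 10) (.e (nat_lit 581376) (nat_lit 4) .nil))))) .nil)) 
(.lf (nat_lit 212841) (.g (nat_lit 1804) (.e (nat_lit 98048) (nat_lit 5) (.e (nat_lit 73754) (nat_lit 8) (.e (nat_lit 557103) (nat_lit 14) (.e (nat_lit 180250) (nat_lit 10) (.e (nat_lit 573442) (nat_lit 0) .nil))))) .nil)))) (.nd (nat_lit 5) (.nd (nat_lit 6) 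
(.lf (nat_lit 212761) (.g (nat_lit 1712) (.e (nat_lit 98048) (nat_lit 5) (.e (nat_lit 73753) (nat_lit 8) (.e (nat_lit 557103) (nat_lit 14) (.e (nat_lit 180236) (nat_lit 1) .nil)))) .nil)) 
(.lf (nat_lit 212825) (.g (nat_lit 1293) (.e (nat_lit 98048) (nat_lit 5) (.e (nat_lit 73754) (nat_lit 8) (.e (nat_lit 557101) (nat_lit 13) (.e (nat_lit 172062) (nat_lit 2) (.e (nat_lit 196654) (nat_lit 11) .nil))))) .nil))) (.nd (nat_lit 6) 
(.lf (nat_lit 212793) (.g (nat_lit 2194) (.e (nat_lit 98048) (nat_lit 5) (.e (nat_lit 73753) (nat_lit 8) (.e (nat_lit 557105) (nat_lit 14) (.e (nat_lit 180251) (nat_lit 10) (.e (nat_lit 573477) (nat_lit 12) .nil))))) .nil)) 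
(.lf (nat_lit 212857) (.g (nat_lit 2485) (.e (nat_lit 98048) (nat_lit 5) (.e (nat_lit 73754) (nat_lit 8) (.e (nat_lit 557105) (nat_lit 14) (.e (nat_lit 180251) (nat_lit 10) (.e (nat_lit 573443) (nat_lit 0) .nil))))) .nil)))))) (.nd (nat_lit 3) (.nd (nat_lit 4) (.nd (nat_lit 5) (.nd (nat_lit 6) 
(.lf (nat_lit 212741) (.g (nat_lit 472) (.e (nat_lit 98048) (nat_lit 5) (.e (nat_lit 73753) (nat_lit 8) (.e (nat_lit 557101) (nat_lit 13) .nil))) .nil)) 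
(.lf (nat_lit 212805) (.g (nat_lit 1906) (.e (nat_lit 98048) (nat_lit 5) (.e (nat_lit 73754) (nat_lit 8) (.e (nat_lit 557100) (nat_lit 13) (.e (nat_lit 172049) (nat_lit 0) .nil)))) .nil))) (.nd (nat_lit 6) 
(.lf (nat_lit 212773) (.g (nat_lit 2416) (.e (nat_lit 98048) (nat_lit 5) (.e (nat_lit 73753) (nat_lit 8) (.e (nat_lit 557103) (nat_lit 14) (.e (nat_lit 180250) (nat_lit 10) (.e (nat_lit 573441) (nat_lit 0) .nil))))) .nil)) 
(.lf (nat_lit 212837) (.g (nat_lit 438) (.e (nat_lit 98048) (nat_lit 5) (.e (nat_lit 73754) (nat_lit 8) (.e (nat_lit 557103) (nat_lit 14) .nil))) .nil)))) (.nd (nat_lit 5) (.nd (nat_lit 6) 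
(.lf (nat_lit 212757) (.g (nat_lit 508) (.e (nat_lit 98048) (nat_lit 5) (.e (nat_lit 73753) (nat_lit 8) (.e (nat_lit 557103) (nat_lit 14) .nil))) .nil)) 
(.lf (nat_lit 212821) (.g (nat_lit 2514) (.e (nat_lit 98048) (nat_lit 5) (.e (nat_lit 73754) (nat_lit 8) (.e (nat_lit 557100) (nat_lit 13) (.e (nat_lit 172067) (nat_lit 3) (.e (nat_lit 204842) (nat_lit 22) .nil))))) .nil))) (.nd (nat_lit 6) 
(.lf (nat_lit 212789) (.g (nat_lit 1360) (.e (nat_lit 98048) (nat_lit 5) (.e (nat_lit 73753) (nat_lit 8) (.e (nat_lit 557105) (nat_lit 14) (.e (nat_lit 180251) (nat_lit 10) .nil)))) .nil)) 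
(.lf (nat_lit 212853) (.g (nat_lit 1820) (.e (nat_lit 98048) (nat_lit 5) (.e (nat_lit 73754) (nat_lit 8) (.e (nat_lit 557105) (nat_lit 14) (.e (nat_lit 180237) (nat_lit 1) .nil)))) .nil))))) (.nd (nat_lit 4) (.nd (nat_lit 5) (.nd (nat_lit 6) 
(.lf (nat_lit 212749) (.g (nat_lit 1258) (.e (nat_lit 98048) (nat_lit 5) (.e (nat_lit 73753) (nat_lit 8) (.e (nat_lit 557101) (nat_lit 13) (.e (nat_lit 172066) (nat_lit 3) .nil)))) .nil)) 
(.lf (nat_lit 212813) (.g (nat_lit 2723) (.e (nat_lit 98048) (nat_lit 5) (.e (nat_lit 73754) (nat_lit 8) (.e (nat_lit 557100) (nat_lit 13) (.e (nat_lit 172065) (nat_lit 3) (.e (nat_lit 204809) (nat_lit 9) .nil))))) .nil))) (.nd (nat_lit 6) 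
(.lf (nat_lit 212781) (.g (nat_lit 2289) (.e (nat_lit 98048) (nat_lit 5) (.e (nat_lit 73753) (nat_lit 8) (.e (nat_lit 557103) (nat_lit 14) (.e (nat_lit 180250) (nat_lit 10) (.e (nat_lit 573477) (nat_lit 12) .nil))))) .nil)) 
(.lf (nat_lit 212845) (.g (nat_lit 1768) (.e (nat_lit 98048) (nat_lit 5) (.e (nat_lit 73754) (nat_lit 8) (.e (nat_lit 557103) (nat_lit 14) (.e (nat_lit 180250) (nat_lit 10) (.e (nat_lit 573468) (nat_lit 10) .nil))))) .nil)))) (.nd (nat_lit 5) (.nd (nat_lit 6) 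
(.lf (nat_lit 212765) (.g (nat_lit 2921) (.e (nat_lit 98048) (nat_lit 5) (.e (nat_lit 73753) (nat_lit 8) (.e (nat_lit 557103) (nat_lit 14) (.e (nat_lit 180243) (nat_lit 5) (.e (nat_lit 532519) (nat_lit 5) .nil))))) .nil)) 
(.lf (nat_lit 212829) (.g (nat_lit 1904) (.e (nat_lit 98048) (nat_lit 5) (.e (nat_lit 73754) (nat_lit 8) (.e (nat_lit 557101) (nat_lit 13) (.e (nat_lit 172065) (nat_lit 3) (.e (nat_lit 204821) (nat_lit 17) .nil))))) .nil))) (.nd (nat_lit 6) 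
(.lf (nat_lit 212797) (.g (nat_lit 1849) (.e (nat_lit 98048) (nat_lit 5) (.e (nat_lit 73753) (nat_lit 8) (.e (nat_lit 557105) (nat_lit 14) (.e (nat_lit 180252) (nat_lit 10) (.e (nat_lit 581376) (nat_lit 0) .nil))))) .nil)) 
(.lf (nat_lit 212861) (.g (nat_lit 2201) (.e (nat_lit 98048) (nat_lit 5) (.e (nat_lit 73754) (nat_lit 8) (.e (nat_lit 557105) (nat_lit 14) (.e (nat_lit 180251) (nat_lit 10) (.e (nat_lit 573477) (nat_lit 12) .nil))))) .nil))))))) (.nd (nat_lit 2) (.nd (nat_lit 3) (.nd (nat_lit 4) (.nd (nat_lit 5) (.nd (nat_lit 6) 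
(.lf (nat_lit 212739) (.g (nat_lit 2690) (.e (nat_lit 98048) (nat_lit 5) (.e (nat_lit 73753) (nat_lit 8) (.e (nat_lit 557100) (nat_lit 13) (.e (nat_lit 172067) (nat_lit 3) (.e (nat_lit 204841) (nat_lit 22) .nil))))) .nil)) 
(.lf (nat_lit 212803) (.g (nat_lit 493) (.e (nat_lit 98048) (nat_lit 5) (.e (nat_lit 73754) (nat_lit 8) (.e (nat_lit 557095) (nat_lit 13) .nil))) .nil))) (.nd (nat_lit 6) 
(.lf (nat_lit 212771) (.g (nat_lit 2206) (.e (nat_lit 98048) (nat_lit 5) (.e (nat_lit 73753) (nat_lit 8) (.e (nat_lit 557103) (nat_lit 14) (.e (nat_lit 180244) (nat_lit 5) (.e (nat_lit 540416) (nat_lit 26) .nil))))) .nil)) 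
(.lf (nat_lit 212835) (.g (nat_lit 2259) (.e (nat_lit 98048) (nat_lit 5) (.e (nat_lit 73754) (nat_lit 8) (.e (nat_lit 557101) (nat_lit 13) (.e (nat_lit 172067) (nat_lit 3) (.e (nat_lit 204809) (nat_lit 9) .nil))))) .nil)))) (.nd (nat_lit 5) (.nd (nat_lit 6) 
(.lf (nat_lit 212755) (.g (nat_lit 1209) (.e (nat_lit 98048) (nat_lit 5) (.e (nat_lit 73753) (nat_lit 8) (.e (nat_lit 557101) (nat_lit 13) (.e (nat_lit 172067) (nat_lit 3) .nil)))) .nil)) 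
(.lf (nat_lit 212819) (.g (nat_lit 2435) (.e (nat_lit 98048) (nat_lit 5) (.e (nat_lit 73754) (nat_lit 8) (.e (nat_lit 557100) (nat_lit 13) (.e (nat_lit 172067) (nat_lit 3) (.e (nat_lit 212736) (nat_lit 9) .nil))))) .nil))) (.nd (nat_lit 6) 
(.lf (nat_lit 212787) (.g (nat_lit 1901) (.e (nat_lit 98048) (nat_lit 5) (.e (nat_lit 73753) (nat_lit 8) (.e (nat_lit 557105) (nat_lit 14) (.e (nat_lit 180234) (nat_lit 1) .nil)))) .nil)) 
(.lf (nat_lit 212851) (.g (nat_lit 2034) (.e (nat_lit 98048) (nat_lit 5) (.e (nat_lit 73754) (nat_lit 8) (.e (nat_lit 557105) (nat_lit 14) (.e (nat_lit 180234) (nat_lit 1) .nil)))) .nil))))) (.nd (nat_lit 4) (.nd (nat_lit 5) (.nd (nat_lit 6) 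
(.lf (nat_lit 212747) (.g (nat_lit 1775) (.e (nat_lit 98048) (nat_lit 5) (.e (nat_lit 73753) (nat_lit 8) (.e (nat_lit 557101) (nat_lit 13) (.e (nat_lit 172065) (nat_lit 3) (.e (nat_lit 212736) (nat_lit 9) .nil))))) .nil)) 
(.lf (nat_lit 212811) (.g (nat_lit 1985) (.e (nat_lit 98048) (nat_lit 5) (.e (nat_lit 73754) (nat_lit 8) (.e (nat_lit 557100) (nat_lit 13) (.e (nat_lit 172064) (nat_lit 2) (.e (nat_lit 196661) (nat_lit 12) .nil))))) .nil))) (.nd (nat_lit 6) 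
(.lf (nat_lit 212779) (.g (nat_lit 2424) (.e (nat_lit 98048) (nat_lit 5) (.e (nat_lit 73753) (nat_lit 8) (.e (nat_lit 557103) (nat_lit 14) (.e (nat_lit 180250) (nat_lit 10) (.e (nat_lit 573468) (nat_lit 10) .nil))))) .nil)) 
(.lf (nat_lit 212843) (.g (nat_lit 1564) (.e (nat_lit 98048) (nat_lit 5) (.e (nat_lit 73754) (nat_lit 8) (.e (nat_lit 557103) (nat_lit 14) (.e (nat_lit 180250) (nat_lit 10) (.e (nat_lit 581376) (nat_lit 4) .nil))))) .nil)))) (.nd (nat_lit 5) (.nd (nat_lit 6) 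
(.lf (nat_lit 212763) (.g (nat_lit 1613) (.e (nat_lit 98048) (nat_lit 5) (.e (nat_lit 73753) (nat_lit 8) (.e (nat_lit 557103) (nat_lit 14) (.e (nat_lit 180243) (nat_lit 5) .nil)))) .nil)) 
(.lf (nat_lit 212827) (.g (nat_lit 1012) (.e (nat_lit 98048) (nat_lit 5) (.e (nat_lit 73754) (nat_lit 8) (.e (nat_lit 557101) (nat_lit 13) (.e (nat_lit 172065) (nat_lit 3) .nil)))) .nil))) (.nd (nat_lit 6) 
(.lf (nat_lit 212795) (.g (nat_lit 2296) (.e (nat_lit 98048) (nat_lit 5) (.e (nat_lit 73753) (nat_lit 8) (.e (nat_lit 557105) (nat_lit 14) (.e (nat_lit 180252) (nat_lit 10) (.e (nat_lit 573441) (nat_lit 0) .nil))))) .nil)) 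
(.lf (nat_lit 212859) (.g (nat_lit 2197) (.e (nat_lit 98048) (nat_lit 5) (.e (nat_lit 73754) (nat_lit 8) (.e (nat_lit 557105) (nat_lit 14) (.e (nat_lit 180251) (nat_lit 10) (.e (nat_lit 581376) (nat_lit 0) .nil))))) .nil)))))) (.nd (nat_lit 3) (.nd (nat_lit 4) (.nd (nat_lit 5) (.nd (nat_lit 6) 
(.lf (nat_lit 212743) (.g (nat_lit 1139) (.e (nat_lit 98048) (nat_lit 5) (.e (nat_lit 73753) (nat_lit 8) (.e (nat_lit 557101) (nat_lit 13) (.e (nat_lit 172062) (nat_lit 2) .nil)))) .nil)) 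
(.lf (nat_lit 212807) (.g (nat_lit 2319) (.e (nat_lit 98048) (nat_lit 5) (.e (nat_lit 73754) (nat_lit 8) (.e (nat_lit 557100) (nat_lit 13) (.e (nat_lit 172062) (nat_lit 2) (.e (nat_lit 196628) (nat_lit 9) .nil))))) .nil))) (.nd (nat_lit 6) 
(.lf (nat_lit 212775) (.g (nat_lit 2450) (.e (nat_lit 98048) (nat_lit 5) (.e (nat_lit 73753) (nat_lit 8) (.e (nat_lit 557103) (nat_lit 14) (.e (nat_lit 180250) (nat_lit 10) (.e (nat_lit 573447) (nat_lit 0) .nil))))) .nil)) 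
(.lf (nat_lit 212839) (.g (nat_lit 1534) (.e (nat_lit 98048) (nat_lit 5) (.e (nat_lit 73754) (nat_lit 8) (.e (nat_lit 557103) (nat_lit 14) (.e (nat_lit 180244) (nat_lit 5) .nil)))) .nil)))) (.nd (nat_lit 5) (.nd (nat_lit 6) 
(.lf (nat_lit 212759) (.g (nat_lit 1927) (.e (nat_lit 98048) (nat_lit 5) (.e (nat_lit 73753) (nat_lit 8) (.e (nat_lit 557103) (nat_lit 14) (.e (nat_lit 180234) (nat_lit 1) .nil)))) .nil)) 
(.lf (nat_lit 212823) (.g (nat_lit 986) (.e (nat_lit 98048) (nat_lit 5) (.e (nat_lit 73754) (nat_lit 8) (.e (nat_lit 557101) (nat_lit 13) (.e (nat_lit 172051) (nat_lit 0) .nil)))) .nil))) (.nd (nat_lit 6) 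
(.lf (nat_lit 212791) (.g (nat_lit 2240) (.e (nat_lit 98048) (nat_lit 5) (.e (nat_lit 73753) (nat_lit 8) (.e (nat_lit 557105) (nat_lit 14) (.e (nat_lit 180251) (nat_lit 10) (.e (nat_lit 581376) (nat_lit 0) .nil))))) .nil)) 
(.lf (nat_lit 212855) (.g (nat_lit 1637) (.e (nat_lit 98048) (nat_lit 5) (.e (nat_lit 73754) (nat_lit 8) (.e (nat_lit 557105) (nat_lit 14) (.e (nat_lit 180245) (nat_lit 5) .nil)))) .nil))))) (.nd (nat_lit 4) (.nd (nat_lit 5) (.nd (nat_lit 6) 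
(.lf (nat_lit 212751) (.g (nat_lit 1762) (.e (nat_lit 98048) (nat_lit 5) (.e (nat_lit 73753) (nat_lit 8) (.e (nat_lit 557101) (nat_lit 13) (.e (nat_lit 172066) (nat_lit 3) (.e (nat_lit 212736) (nat_lit 9) .nil))))) .nil)) 
(.lf (nat_lit 212815) (.g (nat_lit 2584) (.e (nat_lit 98048) (nat_lit 5) (.e (nat_lit 73754) (nat_lit 8) (.e (nat_lit 557100) (nat_lit 13) (.e (nat_lit 172065) (nat_lit 3) (.e (nat_lit 204817) (nat_lit 17) .nil))))) .nil))) (.nd (nat_lit 6) 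
(.lf (nat_lit 212783) (.g (nat_lit 1809) (.e (nat_lit 98048) (nat_lit 5) (.e (nat_lit 73753) (nat_lit 8) (.e (nat_lit 557104) (nat_lit 14) (.e (nat_lit 180252) (nat_lit 10) .nil)))) .nil)) 
(.lf (nat_lit 212847) (.g (nat_lit 1583) (.e (nat_lit 98048) (nat_lit 5) (.e (nat_lit 73754) (nat_lit 8) (.e (nat_lit 557103) (nat_lit 14) (.e (nat_lit 180250) (nat_lit 10) (.e (nat_lit 573478) (nat_lit 12) .nil))))) .nil)))) (.nd (nat_lit 5) (.nd (nat_lit 6) 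
(.lf (nat_lit 212767) (.g (nat_lit 1371) (.e (nat_lit 98048) (nat_lit 5) (.e (nat_lit 73753) (nat_lit 8) (.e (nat_lit 557103) (nat_lit 14) (.e (nat_lit 180244) (nat_lit 5) .nil)))) .nil)) 
(.lf (nat_lit 212831) (.g (nat_lit 1607) (.e (nat_lit 98048) (nat_lit 5) (.e (nat_lit 73754) (nat_lit 8) (.e (nat_lit 557101) (nat_lit 13) (.e (nat_lit 172066) (nat_lit 3) (.e (nat_lit 204810) (nat_lit 9) .nil))))) .nil))) (.nd (nat_lit 6) 
(.lf (nat_lit 212799) (.g (nat_lit 2865) (.e (nat_lit 98048) (nat_lit 5) (.e (nat_lit 73753) (nat_lit 8) (.e (nat_lit 557105) (nat_lit 14) (.e (nat_lit 180252) (nat_lit 10) (.e (nat_lit 573467) (nat_lit 10) .nil))))) .nil)) 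
(.lf (nat_lit 212863) (.g (nat_lit 1281) (.e (nat_lit 98048) (nat_lit 5) (.e (nat_lit 73754) (nat_lit 8) (.e (nat_lit 557105) (nat_lit 14) (.e (nat_lit 180252) (nat_lit 10) .nil)))) .nil)))))))))

noncomputable def tv2810 : DT := (.nd (nat_lit 0) (.nd (nat_lit 1) (.nd (nat_lit 2) (.nd (nat_lit 3) (.nd (nat_lit 4) (.nd (nat_lit 5) (.nd (nat_lit 6) 
(.lf (nat_lit 212864) (.g (nat_lit 2474) (.e (nat_lit 98048) (nat_lit 5) (.e (nat_lit 73754) (nat_lit 8) (.e (nat_lit 557105) (nat_lit 14) (.e (nat_lit 180252) (nat_lit 10) (.e (nat_lit 573441) (nat_lit 0) .nil))))) .nil)) 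
(.lf (nat_lit 212928) (.g (nat_lit 495) (.e (nat_lit 98048) (nat_lit 5) (.e (nat_lit 73789) (nat_lit 45) (.e (nat_lit 1162) (nat_lit 86) (.e (nat_lit 49157) (nat_lit 0) (.e (nat_lit 2997) (nat_lit 186) .nil))))) .nil))) (.nd (nat_lit 6) 
(.lf (nat_lit 212896) (.g (nat_lit 1466) (.e (nat_lit 98048) (nat_lit 5) (.e (nat_lit 73755) (nat_lit 8) (.e (nat_lit 557098) (nat_lit 13) (.e (nat_lit 179968) (nat_lit 18) .nil)))) .nil)) 
(.lf (nat_lit 212960) (.g (nat_lit 1095) (.e (nat_lit 98048) (nat_lit 6) (.e (nat_lit 81938) (nat_lit 20) (.e (nat_lit 2391) (nat_lit 156) (.e (nat_lit 819223) (nat_lit 8) .nil)))) .nil)))) (.nd (nat_lit 5) (.nd (nat_lit 6) 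
(.lf (nat_lit 212880) (.g (nat_lit 1655) (.e (nat_lit 98048) (nat_lit 5) (.e (nat_lit 73755) (nat_lit 8) (.e (nat_lit 557098) (nat_lit 13) (.e (nat_lit 172062) (nat_lit 2) .nil)))) .nil)) 
(.lf (nat_lit 212944) (.g (nat_lit 578) (.e (nat_lit 98048) (nat_lit 6) (.e (nat_lit 81931) (nat_lit 20) (.e (nat_lit 2384) (nat_lit 155) (.e (nat_lit 811011) (nat_lit 0) (.e (nat_lit 5772) (nat_lit 316) .nil))))) .nil))) (.nd (nat_lit 6) 
(.lf (nat_lit 212912) (.g (nat_lit 1387) (.e (nat_lit 98048) (nat_lit 5) (.e (nat_lit 73755) (nat_lit 8) (.e (nat_lit 557105) (nat_lit 14) (.e (nat_lit 180251) (nat_lit 10) .nil)))) .nil)) 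
(.lf (nat_lit 212976) (.g (nat_lit 401) (.e (nat_lit 98048) (nat_lit 6) (.e (nat_lit 81947) (nat_lit 20) (.e (nat_lit 2390) (nat_lit 156) .nil))) .nil))))) (.nd (nat_lit 4) (.nd (nat_lit 5) (.nd (nat_lit 6) 
(.lf (nat_lit 212872) (.g (nat_lit 1819) (.e (nat_lit 98048) (nat_lit 5) (.e (nat_lit 73754) (nat_lit 8) (.e (nat_lit 557105) (nat_lit 14) (.e (nat_lit 180252) (nat_lit 10) (.e (nat_lit 573475) (nat_lit 12) .nil))))) .nil)) 
(.lf (nat_lit 212936) (.g (nat_lit 365) (.e (nat_lit 98048) (nat_lit 5) (.e (nat_lit 73792) (nat_lit 45) (.e (nat_lit 1163) (nat_lit 86) (.e (nat_lit 49157) (nat_lit 0) (.e (nat_lit 2997) (nat_lit 186) .nil))))) .nil))) (.nd (nat_lit 6) 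
(.lf (nat_lit 212904) (.g (nat_lit 690) (.e (nat_lit 98048) (nat_lit 5) (.e (nat_lit 73755) (nat_lit 8) (.e (nat_lit 557104) (nat_lit 14) .nil))) .nil)) 
(.lf (nat_lit 212968) (.g (nat_lit 642) (.e (nat_lit 98048) (nat_lit 6) (.e (nat_lit 81946) (nat_lit 20) (.e (nat_lit 2390) (nat_lit 156) (.e (nat_lit 819202) (nat_lit 0) .nil)))) .nil)))) (.nd (nat_lit 5) (.nd (nat_lit 6) 
(.lf (nat_lit 212888) (.g (nat_lit 1460) (.e (nat_lit 98048) (nat_lit 5) (.e (nat_lit 73755) (nat_lit 8) (.e (nat_lit 557098) (nat_lit 13) (.e (nat_lit 172067) (nat_lit 3) .nil)))) .nil)) 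
(.lf (nat_lit 212952) (.g (nat_lit 839) (.e (nat_lit 98048) (nat_lit 6) (.e (nat_lit 81938) (nat_lit 20) (.e (nat_lit 2390) (nat_lit 156) (.e (nat_lit 819203) (nat_lit 0) (.e (nat_lit 2988) (nat_lit 186) .nil))))) .nil))) (.nd (nat_lit 6) 
(.lf (nat_lit 212920) (.g (nat_lit 2960) (.e (nat_lit 98048) (nat_lit 5) (.e (nat_lit 73755) (nat_lit 8) (.e (nat_lit 557105) (nat_lit 14) (.e (nat_lit 180252) (nat_lit 10) (.e (nat_lit 573468) (nat_lit 10) .nil))))) .nil)) 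
(.lf (nat_lit 212984) (.g (nat_lit 2017) (.e (nat_lit 98048) (nat_lit 6) (.e (nat_lit 81951) (nat_lit 22) (.e (nat_lit 90170) (nat_lit 13) (.e (nat_lit 172032) (nat_lit 0) .nil)))) .nil)))))) (.nd (nat_lit 3) (.nd (nat_lit 4) (.nd (nat_lit 5) (.nd (nat_lit 6) 
(.lf (nat_lit 212868) (.g (nat_lit 2755) (.e (nat_lit 98048) (nat_lit 5) (.e (nat_lit 73754) (nat_lit 8) (.e (nat_lit 557105) (nat_lit 14) (.e (nat_lit 180252) (nat_lit 10) (.e (nat_lit 573451) (nat_lit 9) .nil))))) .nil)) 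
(.lf (nat_lit 212932) (.g (nat_lit 169) (.e (nat_lit 98048) (nat_lit 5) (.e (nat_lit 73791) (nat_lit 45) (.e (nat_lit 1162) (nat_lit 86) (.e (nat_lit 57088) (nat_lit 6) .nil)))) .nil))) (.nd (nat_lit 6) 
(.lf (nat_lit 212900) (.g (nat_lit 2482) (.e (nat_lit 98048) (nat_lit 5) (.e (nat_lit 73755) (nat_lit 8) (.e (nat_lit 557103) (nat_lit 14) (.e (nat_lit 180250) (nat_lit 10) (.e (nat_lit 573468) (nat_lit 10) .nil))))) .nil)) 
(.lf (nat_lit 212964) (.g (nat_lit 1046) (.e (nat_lit 98048) (nat_lit 6) (.e (nat_lit 81943) (nat_lit 20) (.e (nat_lit 2391) (nat_lit 156) (.e (nat_lit 819203) (nat_lit 0) (.e (nat_lit 2988) (nat_lit 186) .nil))))) .nil)))) (.nd (nat_lit 5) (.nd (nat_lit 6) 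
(.lf (nat_lit 212884) (.g (nat_lit 2422) (.e (nat_lit 98048) (nat_lit 5) (.e (nat_lit 73755) (nat_lit 8) (.e (nat_lit 557098) (nat_lit 13) (.e (nat_lit 172064) (nat_lit 2) (.e (nat_lit 196661) (nat_lit 12) .nil))))) .nil)) 
(.lf (nat_lit 212948) (.g (nat_lit 555) (.e (nat_lit 98048) (nat_lit 6) (.e (nat_lit 81935) (nat_lit 20) (.e (nat_lit 2383) (nat_lit 155) (.e (nat_lit 811010) (nat_lit 0) .nil)))) .nil))) (.nd (nat_lit 6) 
(.lf (nat_lit 212916) (.g (nat_lit 2661) (.e (nat_lit 98048) (nat_lit 5) (.e (nat_lit 73755) (nat_lit 8) (.e (nat_lit 557105) (nat_lit 14) (.e (nat_lit 180252) (nat_lit 10) (.e (nat_lit 573442) (nat_lit 0) .nil))))) .nil)) 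
(.lf (nat_lit 212980) (.g (nat_lit 1104) (.e (nat_lit 98048) (nat_lit 6) (.e (nat_lit 81947) (nat_lit 20) (.e (nat_lit 2391) (nat_lit 156) (.e (nat_lit 819203) (nat_lit 0) (.e (nat_lit 2988) (nat_lit 186) .nil))))) .nil))))) (.nd (nat_lit 4) (.nd (nat_lit 5) (.nd (nat_lit 6) 
(.lf (nat_lit 212876) (.g (nat_lit 1280) (.e (nat_lit 98048) (nat_lit 5) (.e (nat_lit 73755) (nat_lit 8) (.e (nat_lit 557097) (nat_lit 13) (.e (nat_lit 172067) (nat_lit 3) .nil)))) .nil)) 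
(.lf (nat_lit 212940) (.g (nat_lit 322) (.e (nat_lit 98048) (nat_lit 6) (.e (nat_lit 81931) (nat_lit 20) (.e (nat_lit 2383) (nat_lit 155) (.e (nat_lit 811010) (nat_lit 0) .nil)))) .nil))) (.nd (nat_lit 6) 
(.lf (nat_lit 212908) (.g (nat_lit 1576) (.e (nat_lit 98048) (nat_lit 5) (.e (nat_lit 73755) (nat_lit 8) (.e (nat_lit 557104) (nat_lit 14) (.e (nat_lit 180252) (nat_lit 10) .nil)))) .nil)) 
(.lf (nat_lit 212972) (.g (nat_lit 1131) (.e (nat_lit 98048) (nat_lit 6) (.e (nat_lit 81946) (nat_lit 20) (.e (nat_lit 2391) (nat_lit 156) (.e (nat_lit 819203) (nat_lit 0) (.e (nat_lit 2988) (nat_lit 186) .nil))))) .nil)))) (.nd (nat_lit 5) (.nd (nat_lit 6) 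
(.lf (nat_lit 212892) (.g (nat_lit 2551) (.e (nat_lit 98048) (nat_lit 5) (.e (nat_lit 73755) (nat_lit 8) (.e (nat_lit 557098) (nat_lit 13) (.e (nat_lit 172067) (nat_lit 3) (.e (nat_lit 204821) (nat_lit 17) .nil))))) .nil)) 
(.lf (nat_lit 212956) (.g (nat_lit 849) (.e (nat_lit 98048) (nat_lit 6) (.e (nat_lit 81938) (nat_lit 20) (.e (nat_lit 2390) (nat_lit 156) (.e (nat_lit 819221) (nat_lit 6) (.e (nat_lit 196352) (nat_lit 2) .nil))))) .nil))) (.nd (nat_lit 6) 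
(.lf (nat_lit 212924) (.g (nat_lit 253) (.e (nat_lit 98048) (nat_lit 5) (.e (nat_lit 73780) (nat_lit 32) (.e (nat_lit 280) (nat_lit 21) (.e (nat_lit 336429) (nat_lit 29) (.e (nat_lit 450304) (nat_lit 2) .nil))))) .nil)) 
(.lf (nat_lit 212988) (.g (nat_lit 2482) (.e (nat_lit 98048) (nat_lit 6) (.e (nat_lit 81951) (nat_lit 22) (.e (nat_lit 90170) (nat_lit 13) (.e (nat_lit 172041) (nat_lit 0) .nil)))) .nil))))))) (.nd (nat_lit 2) (.nd (nat_lit 3) (.nd (nat_lit 4) (.nd (nat_lit 5) (.nd (nat_lit 6) 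
(.lf (nat_lit 212866) (.g (nat_lit 2918) (.e (nat_lit 98048) (nat_lit 5) (.e (nat_lit 73754) (nat_lit 8) (.e (nat_lit 557105) (nat_lit 14) (.e (nat_lit 180252) (nat_lit 10) (.e (nat_lit 581376) (nat_lit 0) .nil))))) .nil)) 
(.lf (nat_lit 212930) (.g (nat_lit 446) (.e (nat_lit 98048) (nat_lit 5) (.e (nat_lit 73789) (nat_lit 45) (.e (nat_lit 1163) (nat_lit 86) (.e (nat_lit 49157) (nat_lit 0) (.e (nat_lit 2997) (nat_lit 186) .nil))))) .nil))) (.nd (nat_lit 6) 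
(.lf (nat_lit 212898) (.g (nat_lit 1544) (.e (nat_lit 98048) (nat_lit 5) (.e (nat_lit 73755) (nat_lit 8) (.e (nat_lit 557103) (nat_lit 14) (.e (nat_lit 180244) (nat_lit 5) .nil)))) .nil)) 
(.lf (nat_lit 212962) (.g (nat_lit 654) (.e (nat_lit 98048) (nat_lit 6) (.e (nat_lit 81939) (nat_lit 20) (.e (nat_lit 2391) (nat_lit 156) (.e (nat_lit 819221) (nat_lit 6) (.e (nat_lit 196352) (nat_lit 2) .nil))))) .nil)))) (.nd (nat_lit 5) (.nd (nat_lit 6) 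
(.lf (nat_lit 212882) (.g (nat_lit 1495) (.e (nat_lit 98048) (nat_lit 5) (.e (nat_lit 73755) (nat_lit 8) (.e (nat_lit 557098) (nat_lit 13) (.e (nat_lit 172063) (nat_lit 2) .nil)))) .nil)) 
(.lf (nat_lit 212946) (.g (nat_lit 406) (.e (nat_lit 98048) (nat_lit 6) (.e (nat_lit 81931) (nat_lit 20) (.e (nat_lit 2384) (nat_lit 155) (.e (nat_lit 811012) (nat_lit 0) .nil)))) .nil))) (.nd (nat_lit 6) 
(.lf (nat_lit 212914) (.g (nat_lit 1360) (.e (nat_lit 98048) (nat_lit 5) (.e (nat_lit 73755) (nat_lit 8) (.e (nat_lit 557105) (nat_lit 14) (.e (nat_lit 180252) (nat_lit 10) .nil)))) .nil)) 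
(.lf (nat_lit 212978) (.g (nat_lit 793) (.e (nat_lit 98048) (nat_lit 6) (.e (nat_lit 81947) (nat_lit 20) (.e (nat_lit 2390) (nat_lit 156) (.e (nat_lit 819203) (nat_lit 0) (.e (nat_lit 2999) (nat_lit 186) .nil))))) .nil))))) (.nd (nat_lit 4) (.nd (nat_lit 5) (.nd (nat_lit 6) 
(.lf (nat_lit 212874) (.g (nat_lit 664) (.e (nat_lit 98048) (nat_lit 5) (.e (nat_lit 73755) (nat_lit 8) (.e (nat_lit 557097) (nat_lit 13) .nil))) .nil)) 
(.lf (nat_lit 212938) (.g (nat_lit 47) (.e (nat_lit 98048) (nat_lit 5) (.e (nat_lit 73794) (nat_lit 46) (.e (nat_lit 57606) (nat_lit 107) (.e (nat_lit 712448) (nat_lit 6) .nil)))) .nil))) (.nd (nat_lit 6) 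
(.lf (nat_lit 212906) (.g (nat_lit 1869) (.e (nat_lit 98048) (nat_lit 5) (.e (nat_lit 73755) (nat_lit 8) (.e (nat_lit 557104) (nat_lit 14) (.e (nat_lit 180240) (nat_lit 2) .nil)))) .nil)) 
(.lf (nat_lit 212970) (.g (nat_lit 799) (.e (nat_lit 98048) (nat_lit 6) (.e (nat_lit 81946) (nat_lit 20) (.e (nat_lit 2390) (nat_lit 156) (.e (nat_lit 819203) (nat_lit 0) (.e (nat_lit 2999) (nat_lit 186) .nil))))) .nil)))) (.nd (nat_lit 5) (.nd (nat_lit 6) 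
(.lf (nat_lit 212890) (.g (nat_lit 2913) (.e (nat_lit 98048) (nat_lit 5) (.e (nat_lit 73755) (nat_lit 8) (.e (nat_lit 557098) (nat_lit 13) (.e (nat_lit 172067) (nat_lit 3) (.e (nat_lit 204810) (nat_lit 9) .nil))))) .nil)) 
(.lf (nat_lit 212954) (.g (nat_lit 1213) (.e (nat_lit 98048) (nat_lit 6) (.e (nat_lit 81938) (nat_lit 20) (.e (nat_lit 2390) (nat_lit 156) (.e (nat_lit 819204) (nat_lit 0) (.e (nat_lit 2988) (nat_lit 186) .nil))))) .nil))) (.nd (nat_lit 6) 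
(.lf (nat_lit 212922) (.g (nat_lit 2660) (.e (nat_lit 98048) (nat_lit 5) (.e (nat_lit 73755) (nat_lit 8) (.e (nat_lit 557105) (nat_lit 14) (.e (nat_lit 180252) (nat_lit 10) (.e (nat_lit 573503) (nat_lit 18) .nil))))) .nil)) 
(.lf (nat_lit 212986) (.g (nat_lit 2480) (.e (nat_lit 98048) (nat_lit 6) (.e (nat_lit 81951) (nat_lit 22) (.e (nat_lit 90170) (nat_lit 13) (.e (nat_lit 172034) (nat_lit 0) (.e (nat_lit 2415) (nat_lit 157) .nil))))) .nil)))))) (.nd (nat_lit 3) (.nd (nat_lit 4) (.nd (nat_lit 5) (.nd (nat_lit 6) 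
(.lf (nat_lit 212870) (.g (nat_lit 3147) (.e (nat_lit 98048) (nat_lit 5) (.e (nat_lit 73754) (nat_lit 8) (.e (nat_lit 557105) (nat_lit 14) (.e (nat_lit 180252) (nat_lit 10) (.e (nat_lit 573468) (nat_lit 10) .nil))))) .nil)) 
(.lf (nat_lit 212934) (.g (nat_lit 426) (.e (nat_lit 98048) (nat_lit 5) (.e (nat_lit 73792) (nat_lit 45) (.e (nat_lit 1162) (nat_lit 86) (.e (nat_lit 49157) (nat_lit 0) (.e (nat_lit 2997) (nat_lit 186) .nil))))) .nil))) (.nd (nat_lit 6) 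
(.lf (nat_lit 212902) (.g (nat_lit 2332) (.e (nat_lit 98048) (nat_lit 5) (.e (nat_lit 73755) (nat_lit 8) (.e (nat_lit 557103) (nat_lit 14) (.e (nat_lit 180250) (nat_lit 10) (.e (nat_lit 573477) (nat_lit 12) .nil))))) .nil)) 
(.lf (nat_lit 212966) (.g (nat_lit 1006) (.e (nat_lit 98048) (nat_lit 6) (.e (nat_lit 81943) (nat_lit 20) (.e (nat_lit 2391) (nat_lit 156) (.e (nat_lit 819221) (nat_lit 6) (.e (nat_lit 196352) (nat_lit 2) .nil))))) .nil)))) (.nd (nat_lit 5) (.nd (nat_lit 6) 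
(.lf (nat_lit 212886) (.g (nat_lit 1555) (.e (nat_lit 98048) (nat_lit 5) (.e (nat_lit 73755) (nat_lit 8) (.e (nat_lit 557098) (nat_lit 13) (.e (nat_lit 172066) (nat_lit 3) .nil)))) .nil)) 
(.lf (nat_lit 212950) (.g (nat_lit 795) (.e (nat_lit 98048) (nat_lit 6) (.e (nat_lit 81935) (nat_lit 20) (.e (nat_lit 2384) (nat_lit 155) (.e (nat_lit 811011) (nat_lit 0) .nil)))) .nil))) (.nd (nat_lit 6) 
(.lf (nat_lit 212918) (.g (nat_lit 2061) (.e (nat_lit 98048) (nat_lit 5) (.e (nat_lit 73755) (nat_lit 8) (.e (nat_lit 557105) (nat_lit 14) (.e (nat_lit 180252) (nat_lit 10) (.e (nat_lit 581376) (nat_lit 4) .nil))))) .nil)) 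
(.lf (nat_lit 212982) (.g (nat_lit 1058) (.e (nat_lit 98048) (nat_lit 6) (.e (nat_lit 81947) (nat_lit 20) (.e (nat_lit 2391) (nat_lit 156) (.e (nat_lit 819221) (nat_lit 6) (.e (nat_lit 196352) (nat_lit 2) .nil))))) .nil))))) (.nd (nat_lit 4) (.nd (nat_lit 5) (.nd (nat_lit 6) 
(.lf (nat_lit 212878) (.g (nat_lit 1784) (.e (nat_lit 98048) (nat_lit 5) (.e (nat_lit 73755) (nat_lit 8) (.e (nat_lit 557098) (nat_lit 13) (.e (nat_lit 172045) (nat_lit 0) .nil)))) .nil)) 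
(.lf (nat_lit 212942) (.g (nat_lit 199) (.e (nat_lit 98048) (nat_lit 6) (.e (nat_lit 81931) (nat_lit 20) (.e (nat_lit 2384) (nat_lit 155) .nil))) .nil))) (.nd (nat_lit 6) 
(.lf (nat_lit 212910) (.g (nat_lit 425) (.e (nat_lit 98048) (nat_lit 5) (.e (nat_lit 73755) (nat_lit 8) (.e (nat_lit 557105) (nat_lit 14) .nil))) .nil)) 
(.lf (nat_lit 212974) (.g (nat_lit 1086) (.e (nat_lit 98048) (nat_lit 6) (.e (nat_lit 81946) (nat_lit 20) (.e (nat_lit 2391) (nat_lit 156) (.e (nat_lit 819221) (nat_lit 6) (.e (nat_lit 196352) (nat_lit 2) .nil))))) .nil)))) (.nd (nat_lit 5) (.nd (nat_lit 6) 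
(.lf (nat_lit 212894) (.g (nat_lit 2865) (.e (nat_lit 98048) (nat_lit 5) (.e (nat_lit 73755) (nat_lit 8) (.e (nat_lit 557098) (nat_lit 13) (.e (nat_lit 172067) (nat_lit 3) (.e (nat_lit 204842) (nat_lit 22) .nil))))) .nil)) 
(.lf (nat_lit 212958) (.g (nat_lit 1306) (.e (nat_lit 98048) (nat_lit 6) (.e (nat_lit 81938) (nat_lit 20) (.e (nat_lit 2391) (nat_lit 156) (.e (nat_lit 819203) (nat_lit 0) (.e (nat_lit 2999) (nat_lit 186) .nil))))) .nil))) (.nd (nat_lit 6) 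
(.lf (nat_lit 212926) (.g (nat_lit 76) (.e (nat_lit 98048) (nat_lit 5) (.e (nat_lit 73788) (nat_lit 45) (.e (nat_lit 1163) (nat_lit 86) (.e (nat_lit 57088) (nat_lit 6) .nil)))) .nil)) 
(.lf (nat_lit 212990) (.g (nat_lit 2029) (.e (nat_lit 98048) (nat_lit 6) (.e (nat_lit 81951) (nat_lit 22) (.e (nat_lit 90170) (nat_lit 13) (.e (nat_lit 172042) (nat_lit 0) (.e (nat_lit 3388) (nat_lit 210) .nil))))) .nil)))))))) (.nd (nat_lit 1) (.nd (nat_lit 2) (.nd (nat_lit 3) (.nd (nat_lit 4) (.nd (nat_lit 5) (.nd (nat_lit 6) 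
(.lf (nat_lit 212865) (.g (nat_lit 2891) (.e (nat_lit 98048) (nat_lit 5) (.e (nat_lit 73754) (nat_lit 8) (.e (nat_lit 557105) (nat_lit 14) (.e (nat_lit 180252) (nat_lit 10) (.e (nat_lit 573442) (nat_lit 0) .nil))))) .nil)) 
(.lf (nat_lit 212929) (.g (nat_lit 323) (.e (nat_lit 98048) (nat_lit 5) (.e (nat_lit 73789) (nat_lit 45) (.e (nat_lit 1162) (nat_lit 86) (.e (nat_lit 57088) (nat_lit 6) .nil)))) .nil))) (.nd (nat_lit 6) 
(.lf (nat_lit 212897) (.g (nat_lit 471) (.e (nat_lit 98048) (nat_lit 5) (.e (nat_lit 73755) (nat_lit 8) (.e (nat_lit 557103) (nat_lit 14) .nil))) .nil)) 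
(.lf (nat_lit 212961) (.g (nat_lit 341) (.e (nat_lit 98048) (nat_lit 6) (.e (nat_lit 81939) (nat_lit 20) (.e (nat_lit 2390) (nat_lit 156) (.e (nat_lit 819221) (nat_lit 6) (.e (nat_lit 196352) (nat_lit 2) .nil))))) .nil)))) (.nd (nat_lit 5) (.nd (nat_lit 6) 
(.lf (nat_lit 212881) (.g (nat_lit 1810) (.e (nat_lit 98048) (nat_lit 5) (.e (nat_lit 73755) (nat_lit 8) (.e (nat_lit 557098) (nat_lit 13) (.e (nat_lit 172062) (nat_lit 2) (.e (nat_lit 196656) (nat_lit 11) .nil))))) .nil)) 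
(.lf (nat_lit 212945) (.g (nat_lit 591) (.e (nat_lit 98048) (nat_lit 6) (.e (nat_lit 81931) (nat_lit 20) (.e (nat_lit 2384) (nat_lit 155) (.e (nat_lit 811011) (nat_lit 0) (.e (nat_lit 5773) (nat_lit 316) .nil))))) .nil))) (.nd (nat_lit 6) 
(.lf (nat_lit 212913) (.g (nat_lit 2352) (.e (nat_lit 98048) (nat_lit 5) (.e (nat_lit 73755) (nat_lit 8) (.e (nat_lit 557105) (nat_lit 14) (.e (nat_lit 180251) (nat_lit 10) (.e (nat_lit 573477) (nat_lit 12) .nil))))) .nil)) 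
(.lf (nat_lit 212977) (.g (nat_lit 774) (.e (nat_lit 98048) (nat_lit 6) (.e (nat_lit 81947) (nat_lit 20) (.e (nat_lit 2390) (nat_lit 156) (.e (nat_lit 819203) (nat_lit 0) (.e (nat_lit 2988) (nat_lit 186) .nil))))) .nil))))) (.nd (nat_lit 4) (.nd (nat_lit 5) (.nd (nat_lit 6) 
(.lf (nat_lit 212873) (.g (nat_lit 3627) (.e (nat_lit 98048) (nat_lit 5) (.e (nat_lit 73754) (nat_lit 8) (.e (nat_lit 557105) (nat_lit 14) (.e (nat_lit 180252) (nat_lit 10) (.e (nat_lit 573505) (nat_lit 18) .nil))))) .nil)) 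
(.lf (nat_lit 212937) (.g (nat_lit 195) (.e (nat_lit 98048) (nat_lit 5) (.e (nat_lit 73792) (nat_lit 45) (.e (nat_lit 1163) (nat_lit 86) (.e (nat_lit 57088) (nat_lit 6) .nil)))) .nil))) (.nd (nat_lit 6) 
(.lf (nat_lit 212905) (.g (nat_lit 1722) (.e (nat_lit 98048) (nat_lit 5) (.e (nat_lit 73755) (nat_lit 8) (.e (nat_lit 557104) (nat_lit 14) (.e (nat_lit 180236) (nat_lit 1) (.e (nat_lit 500048) (nat_lit 16) .nil))))) .nil)) 
(.lf (nat_lit 212969) (.g (nat_lit 781) (.e (nat_lit 98048) (nat_lit 6) (.e (nat_lit 81946) (nat_lit 20) (.e (nat_lit 2390) (nat_lit 156) (.e (nat_lit 819203) (nat_lit 0) (.e (nat_lit 2988) (nat_lit 186) .nil))))) .nil)))) (.nd (nat_lit 5) (.nd (nat_lit 6) 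
(.lf (nat_lit 212889) (.g (nat_lit 2642) (.e (nat_lit 98048) (nat_lit 5) (.e (nat_lit 73755) (nat_lit 8) (.e (nat_lit 557098) (nat_lit 13) (.e (nat_lit 172067) (nat_lit 3) (.e (nat_lit 204809) (nat_lit 9) .nil))))) .nil)) 
(.lf (nat_lit 212953) (.g (nat_lit 861) (.e (nat_lit 98048) (nat_lit 6) (.e (nat_lit 81938) (nat_lit 20) (.e (nat_lit 2390) (nat_lit 156) (.e (nat_lit 819203) (nat_lit 0) (.e (nat_lit 2999) (nat_lit 186) .nil))))) .nil))) (.nd (nat_lit 6) 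
(.lf (nat_lit 212921) (.g (nat_lit 2066) (.e (nat_lit 98048) (nat_lit 5) (.e (nat_lit 73755) (nat_lit 8) (.e (nat_lit 557105) (nat_lit 14) (.e (nat_lit 180252) (nat_lit 10) (.e (nat_lit 573474) (nat_lit 12) .nil))))) .nil)) 
(.lf (nat_lit 212985) (.g (nat_lit 2413) (.e (nat_lit 98048) (nat_lit 6) (.e (nat_lit 81951) (nat_lit 22) (.e (nat_lit 90170) (nat_lit 13) (.e (nat_lit 172034) (nat_lit 0) .nil)))) .nil)))))) (.nd (nat_lit 3) (.nd (nat_lit 4) (.nd (nat_lit 5) (.nd (nat_lit 6) 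
(.lf (nat_lit 212869) (.g (nat_lit 3169) (.e (nat_lit 98048) (nat_lit 5) (.e (nat_lit 73754) (nat_lit 8) (.e (nat_lit 557105) (nat_lit 14) (.e (nat_lit 180252) (nat_lit 10) (.e (nat_lit 573467) (nat_lit 10) .nil))))) .nil)) 
(.lf (nat_lit 212933) (.g (nat_lit 103) (.e (nat_lit 98048) (nat_lit 5) (.e (nat_lit 73791) (nat_lit 45) (.e (nat_lit 1163) (nat_lit 86) (.e (nat_lit 57088) (nat_lit 6) .nil)))) .nil))) (.nd (nat_lit 6) 
(.lf (nat_lit 212901) (.g (nat_lit 2139) (.e (nat_lit 98048) (nat_lit 5) (.e (nat_lit 73755) (nat_lit 8) (.e (nat_lit 557103) (nat_lit 14) (.e (nat_lit 180250) (nat_lit 10) (.e (nat_lit 573475) (nat_lit 12) .nil))))) .nil)) 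
(.lf (nat_lit 212965) (.g (nat_lit 1060) (.e (nat_lit 98048) (nat_lit 6) (.e (nat_lit 81943) (nat_lit 20) (.e (nat_lit 2391) (nat_lit 156) (.e (nat_lit 819203) (nat_lit 0) (.e (nat_lit 2999) (nat_lit 186) .nil))))) .nil)))) (.nd (nat_lit 5) (.nd (nat_lit 6) 
(.lf (nat_lit 212885) (.g (nat_lit 1633) (.e (nat_lit 98048) (nat_lit 5) (.e (nat_lit 73755) (nat_lit 8) (.e (nat_lit 557098) (nat_lit 13) (.e (nat_lit 172065) (nat_lit 3) .nil)))) .nil)) 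
(.lf (nat_lit 212949) (.g (nat_lit 805) (.e (nat_lit 98048) (nat_lit 6) (.e (nat_lit 81935) (nat_lit 20) (.e (nat_lit 2384) (nat_lit 155) (.e (nat_lit 811009) (nat_lit 0) .nil)))) .nil))) (.nd (nat_lit 6) 
(.lf (nat_lit 212917) (.g (nat_lit 2061) (.e (nat_lit 98048) (nat_lit 5) (.e (nat_lit 73755) (nat_lit 8) (.e (nat_lit 557105) (nat_lit 14) (.e (nat_lit 180252) (nat_lit 10) (.e (nat_lit 581376) (nat_lit 0) .nil))))) .nil)) 
(.lf (nat_lit 212981) (.g (nat_lit 1117) (.e (nat_lit 98048) (nat_lit 6) (.e (nat_lit 81947) (nat_lit 20) (.e (nat_lit 2391) (nat_lit 156) (.e (nat_lit 819203) (nat_lit 0) (.e (nat_lit 2999) (nat_lit 186) .nil))))) .nil))))) (.nd (nat_lit 4) (.nd (nat_lit 5) (.nd (nat_lit 6) 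
(.lf (nat_lit 212877) (.g (nat_lit 2104) (.e (nat_lit 98048) (nat_lit 5) (.e (nat_lit 73755) (nat_lit 8) (.e (nat_lit 557097) (nat_lit 13) (.e (nat_lit 172067) (nat_lit 3) (.e (nat_lit 212736) (nat_lit 9) .nil))))) .nil)) 
(.lf (nat_lit 212941) (.g (nat_lit 370) (.e (nat_lit 98048) (nat_lit 6) (.e (nat_lit 81931) (nat_lit 20) (.e (nat_lit 2383) (nat_lit 155) (.e (nat_lit 811011) (nat_lit 0) .nil)))) .nil))) (.nd (nat_lit 6) 
(.lf (nat_lit 212909) (.g (nat_lit 2983) (.e (nat_lit 98048) (nat_lit 5) (.e (nat_lit 73755) (nat_lit 8) (.e (nat_lit 557104) (nat_lit 14) (.e (nat_lit 180252) (nat_lit 10) (.e (nat_lit 573468) (nat_lit 10) .nil))))) .nil)) 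
(.lf (nat_lit 212973) (.g (nat_lit 1146) (.e (nat_lit 98048) (nat_lit 6) (.e (nat_lit 81946) (nat_lit 20) (.e (nat_lit 2391) (nat_lit 156) (.e (nat_lit 819203) (nat_lit 0) (.e (nat_lit 2999) (nat_lit 186) .nil))))) .nil)))) (.nd (nat_lit 5) (.nd (nat_lit 6) 
(.lf (nat_lit 212893) (.g (nat_lit 2815) (.e (nat_lit 98048) (nat_lit 5) (.e (nat_lit 73755) (nat_lit 8) (.e (nat_lit 557098) (nat_lit 13) (.e (nat_lit 172067) (nat_lit 3) (.e (nat_lit 204841) (nat_lit 22) .nil))))) .nil)) 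
(.lf (nat_lit 212957) (.g (nat_lit 1291) (.e (nat_lit 98048) (nat_lit 6) (.e (nat_lit 81938) (nat_lit 20) (.e (nat_lit 2391) (nat_lit 156) (.e (nat_lit 819203) (nat_lit 0) (.e (nat_lit 2988) (nat_lit 186) .nil))))) .nil))) (.nd (nat_lit 6) 
(.lf (nat_lit 212925) (.g (nat_lit 127) (.e (nat_lit 98048) (nat_lit 5) (.e (nat_lit 73788) (nat_lit 45) (.e (nat_lit 1162) (nat_lit 86) (.e (nat_lit 57088) (nat_lit 6) .nil)))) .nil)) 
(.lf (nat_lit 212989) (.g (nat_lit 1730) (.e (nat_lit 98048) (nat_lit 6) (.e (nat_lit 81951) (nat_lit 22) (.e (nat_lit 90170) (nat_lit 13) (.e (nat_lit 172042) (nat_lit 0) .nil)))) .nil))))))) (.nd (nat_lit 2) (.nd (nat_lit 3) (.nd (nat_lit 4) (.nd (nat_lit 5) (.nd (nat_lit 6) 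
(.lf (nat_lit 212867) (.g (nat_lit 2918) (.e (nat_lit 98048) (nat_lit 5) (.e (nat_lit 73754) (nat_lit 8) (.e (nat_lit 557105) (nat_lit 14) (.e (nat_lit 180252) (nat_lit 10) (.e (nat_lit 581376) (nat_lit 4) .nil))))) .nil)) 
(.lf (nat_lit 212931) (.g (nat_lit 274) (.e (nat_lit 98048) (nat_lit 5) (.e (nat_lit 73789) (nat_lit 45) (.e (nat_lit 1163) (nat_lit 86) (.e (nat_lit 57088) (nat_lit 6) .nil)))) .nil))) (.nd (nat_lit 6) 
(.lf (nat_lit 212899) (.g (nat_lit 1501) (.e (nat_lit 98048) (nat_lit 5) (.e (nat_lit 73755) (nat_lit 8) (.e (nat_lit 557103) (nat_lit 14) (.e (nat_lit 180250) (nat_lit 10) .nil)))) .nil)) 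
(.lf (nat_lit 212963) (.g (nat_lit 487) (.e (nat_lit 98048) (nat_lit 6) (.e (nat_lit 81943) (nat_lit 20) (.e (nat_lit 2390) (nat_lit 156) (.e (nat_lit 819221) (nat_lit 6) (.e (nat_lit 196352) (nat_lit 2) .nil))))) .nil)))) (.nd (nat_lit 5) (.nd (nat_lit 6) 
(.lf (nat_lit 212883) (.g (nat_lit 1429) (.e (nat_lit 98048) (nat_lit 5) (.e (nat_lit 73755) (nat_lit 8) (.e (nat_lit 557098) (nat_lit 13) (.e (nat_lit 172064) (nat_lit 2) .nil)))) .nil)) 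
(.lf (nat_lit 212947) (.g (nat_lit 204) (.e (nat_lit 98048) (nat_lit 6) (.e (nat_lit 81933) (nat_lit 20) (.e (nat_lit 2383) (nat_lit 155) (.e (nat_lit 811010) (nat_lit 0) .nil)))) .nil))) (.nd (nat_lit 6) 
(.lf (nat_lit 212915) (.g (nat_lit 2312) (.e (nat_lit 98048) (nat_lit 5) (.e (nat_lit 73755) (nat_lit 8) (.e (nat_lit 557105) (nat_lit 14) (.e (nat_lit 180252) (nat_lit 10) (.e (nat_lit 573441) (nat_lit 0) .nil))))) .nil)) 
(.lf (nat_lit 212979) (.g (nat_lit 696) (.e (nat_lit 98048) (nat_lit 6) (.e (nat_lit 81947) (nat_lit 20) (.e (nat_lit 2390) (nat_lit 156) (.e (nat_lit 819221) (nat_lit 6) (.e (nat_lit 196352) (nat_lit 2) .nil))))) .nil))))) (.nd (nat_lit 4) (.nd (nat_lit 5) (.nd (nat_lit 6) 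
(.lf (nat_lit 212875) (.g (nat_lit 1510) (.e (nat_lit 98048) (nat_lit 5) (.e (nat_lit 73755) (nat_lit 8) (.e (nat_lit 557097) (nat_lit 13) (.e (nat_lit 172066) (nat_lit 3) .nil)))) .nil)) 
(.lf (nat_lit 212939) (.g (nat_lit 223) (.e (nat_lit 98048) (nat_lit 6) (.e (nat_lit 81931) (nat_lit 20) (.e (nat_lit 2383) (nat_lit 155) .nil))) .nil))) (.nd (nat_lit 6) 
(.lf (nat_lit 212907) (.g (nat_lit 1607) (.e (nat_lit 98048) (nat_lit 5) (.e (nat_lit 73755) (nat_lit 8) (.e (nat_lit 557104) (nat_lit 14) (.e (nat_lit 180244) (nat_lit 5) .nil)))) .nil)) 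
(.lf (nat_lit 212971) (.g (nat_lit 704) (.e (nat_lit 98048) (nat_lit 6) (.e (nat_lit 81946) (nat_lit 20) (.e (nat_lit 2390) (nat_lit 156) (.e (nat_lit 819221) (nat_lit 6) (.e (nat_lit 196352) (nat_lit 2) .nil))))) .nil)))) (.nd (nat_lit 5) (.nd (nat_lit 6) 
(.lf (nat_lit 212891) (.g (nat_lit 2461) (.e (nat_lit 98048) (nat_lit 5) (.e (nat_lit 73755) (nat_lit 8) (.e (nat_lit 557098) (nat_lit 13) (.e (nat_lit 172067) (nat_lit 3) (.e (nat_lit 212736) (nat_lit 9) .nil))))) .nil)) 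
(.lf (nat_lit 212955) (.g (nat_lit 1265) (.e (nat_lit 98048) (nat_lit 6) (.e (nat_lit 81938) (nat_lit 20) (.e (nat_lit 2390) (nat_lit 156) (.e (nat_lit 819204) (nat_lit 0) (.e (nat_lit 2999) (nat_lit 186) .nil))))) .nil))) (.nd (nat_lit 6) 
(.lf (nat_lit 212923) (.g (nat_lit 3367) (.e (nat_lit 98048) (nat_lit 5) (.e (nat_lit 73755) (nat_lit 8) (.e (nat_lit 557105) (nat_lit 14) (.e (nat_lit 180252) (nat_lit 10) (.e (nat_lit 573505) (nat_lit 18) .nil))))) .nil)) 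
(.lf (nat_lit 212987) (.g (nat_lit 2590) (.e (nat_lit 98048) (nat_lit 6) (.e (nat_lit 81951) (nat_lit 22) (.e (nat_lit 90170) (nat_lit 13) (.e (nat_lit 172040) (nat_lit 0) .nil)))) .nil)))))) (.nd (nat_lit 3) (.nd (nat_lit 4) (.nd (nat_lit 5) (.nd (nat_lit 6) 
(.lf (nat_lit 212871) (.g (nat_lit 3269) (.e (nat_lit 98048) (nat_lit 5) (.e (nat_lit 73754) (nat_lit 8) (.e (nat_lit 557105) (nat_lit 14) (.e (nat_lit 180252) (nat_lit 10) (.e (nat_lit 573474) (nat_lit 12) .nil))))) .nil)) 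
(.lf (nat_lit 212935) (.g (nat_lit 253) (.e (nat_lit 98048) (nat_lit 5) (.e (nat_lit 73792) (nat_lit 45) (.e (nat_lit 1162) (nat_lit 86) (.e (nat_lit 57088) (nat_lit 6) .nil)))) .nil))) (.nd (nat_lit 6) 
(.lf (nat_lit 212903) (.g (nat_lit 2272) (.e (nat_lit 98048) (nat_lit 5) (.e (nat_lit 73755) (nat_lit 8) (.e (nat_lit 557103) (nat_lit 14) (.e (nat_lit 180250) (nat_lit 10) (.e (nat_lit 573478) (nat_lit 12) .nil))))) .nil)) 
(.lf (nat_lit 212967) (.g (nat_lit 986) (.e (nat_lit 98048) (nat_lit 6) (.e (nat_lit 81943) (nat_lit 20) (.e (nat_lit 2391) (nat_lit 156) (.e (nat_lit 819223) (nat_lit 8) .nil)))) .nil)))) (.nd (nat_lit 5) (.nd (nat_lit 6) 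
(.lf (nat_lit 212887) (.g (nat_lit 2036) (.e (nat_lit 98048) (nat_lit 5) (.e (nat_lit 73755) (nat_lit 8) (.e (nat_lit 557098) (nat_lit 13) (.e (nat_lit 172066) (nat_lit 3) (.e (nat_lit 204819) (nat_lit 17) .nil))))) .nil)) 
(.lf (nat_lit 212951) (.g (nat_lit 722) (.e (nat_lit 98048) (nat_lit 6) (.e (nat_lit 81938) (nat_lit 20) (.e (nat_lit 2390) (nat_lit 156) (.e (nat_lit 819202) (nat_lit 0) .nil)))) .nil))) (.nd (nat_lit 6) 
(.lf (nat_lit 212919) (.g (nat_lit 2763) (.e (nat_lit 98048) (nat_lit 5) (.e (nat_lit 73755) (nat_lit 8) (.e (nat_lit 557105) (nat_lit 14) (.e (nat_lit 180252) (nat_lit 10) (.e (nat_lit 573467) (nat_lit 10) .nil))))) .nil)) 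
(.lf (nat_lit 212983) (.g (nat_lit 544) (.e (nat_lit 98048) (nat_lit 6) (.e (nat_lit 81951) (nat_lit 22) (.e (nat_lit 90167) (nat_lit 13) .nil))) .nil))))) (.nd (nat_lit 4) (.nd (nat_lit 5) (.nd (nat_lit 6) 
(.lf (nat_lit 212879) (.g (nat_lit 1288) (.e (nat_lit 98048) (nat_lit 5) (.e (nat_lit 73755) (nat_lit 8) (.e (nat_lit 557098) (nat_lit 13) (.e (nat_lit 172051) (nat_lit 0) .nil)))) .nil)) 
(.lf (nat_lit 212943) (.g (nat_lit 571) (.e (nat_lit 98048) (nat_lit 6) (.e (nat_lit 81931) (nat_lit 20) (.e (nat_lit 2384) (nat_lit 155) (.e (nat_lit 811011) (nat_lit 0) (.e (nat_lit 5768) (nat_lit 316) .nil))))) .nil))) (.nd (nat_lit 6) 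
(.lf (nat_lit 212911) (.g (nat_lit 1522) (.e (nat_lit 98048) (nat_lit 5) (.e (nat_lit 73755) (nat_lit 8) (.e (nat_lit 557105) (nat_lit 14) (.e (nat_lit 180227) (nat_lit 0) .nil)))) .nil)) 
(.lf (nat_lit 212975) (.g (nat_lit 1204) (.e (nat_lit 98048) (nat_lit 6) (.e (nat_lit 81946) (nat_lit 20) (.e (nat_lit 2391) (nat_lit 156) (.e (nat_lit 819223) (nat_lit 8) .nil)))) .nil)))) (.nd (nat_lit 5) (.nd (nat_lit 6) 
(.lf (nat_lit 212895) (.g (nat_lit 1376) (.e (nat_lit 98048) (nat_lit 5) (.e (nat_lit 73755) (nat_lit 8) (.e (nat_lit 557098) (nat_lit 13) (.e (nat_lit 172133) (nat_lit 15) .nil)))) .nil)) 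
(.lf (nat_lit 212959) (.g (nat_lit 1236) (.e (nat_lit 98048) (nat_lit 6) (.e (nat_lit 81938) (nat_lit 20) (.e (nat_lit 2391) (nat_lit 156) (.e (nat_lit 819221) (nat_lit 6) (.e (nat_lit 196352) (nat_lit 2) .nil))))) .nil))) (.nd (nat_lit 6) 
(.lf (nat_lit 212927) (.g (nat_lit 287) (.e (nat_lit 98048) (nat_lit 5) (.e (nat_lit 73789) (nat_lit 45) (.e (nat_lit 1161) (nat_lit 86) .nil))) .nil)) 
(.lf (nat_lit 212991) (.g (nat_lit 2041) (.e (nat_lit 98048) (nat_lit 6) (.e (nat_lit 81951) (nat_lit 22) (.e (nat_lit 90170) (nat_lit 13) (.e (nat_lit 172042) (nat_lit 0) (.e (nat_lit 3390) (nat_lit 210) .nil))))) .nil)))))))))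

noncomputable def tv2811 : DT := (.nd (nat_lit 0) (.nd (nat_lit 1) (.nd (nat_lit 2) (.nd (nat_lit 3) (.nd (nat_lit 4) (.nd (nat_lit 5) (.nd (nat_lit 6) 
(.lf (nat_lit 212992) (.g (nat_lit 2592) (.e (nat_lit 98048) (nat_lit 6) (.e (nat_lit 81951) (nat_lit 22) (.e (nat_lit 90170) (nat_lit 13) (.e (nat_lit 172043) (nat_lit 0) .nil)))) .nil)) 
(.lf (nat_lit 213056) (.g (nat_lit 1966) (.e (nat_lit 98048) (nat_lit 6) (.e (nat_lit 81954) (nat_lit 23) (.e (nat_lit 98356) (nat_lit 26) (.e (nat_lit 426452) (nat_lit 21) (.e (nat_lit 123092) (nat_lit 183) .nil))))) .nil))) (.nd (nat_lit 6) 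
(.lf (nat_lit 213024) (.g (nat_lit 1457) (.e (nat_lit 98048) (nat_lit 6) (.e (nat_lit 81953) (nat_lit 22) (.e (nat_lit 90170) (nat_lit 13) (.e (nat_lit 172049) (nat_lit 0) .nil)))) .nil)) 
(.lf (nat_lit 213088) (.g (nat_lit 1903) (.e (nat_lit 98048) (nat_lit 6) (.e (nat_lit 81954) (nat_lit 23) (.e (nat_lit 98377) (nat_lit 30) (.e (nat_lit 458774) (nat_lit 18) (.e (nat_lit 5046) (nat_lit 292) .nil))))) .nil)))) (.nd (nat_lit 5) (.nd (nat_lit 6) 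
(.lf (nat_lit 213008) (.g (nat_lit 1550) (.e (nat_lit 98048) (nat_lit 6) (.e (nat_lit 81951) (nat_lit 22) (.e (nat_lit 90172) (nat_lit 14) (.e (nat_lit 180259) (nat_lit 17) .nil)))) .nil)) 
(.lf (nat_lit 213072) (.g (nat_lit 1819) (.e (nat_lit 98048) (nat_lit 6) (.e (nat_lit 81954) (nat_lit 23) (.e (nat_lit 98367) (nat_lit 27) (.e (nat_lit 434268) (nat_lit 36) .nil)))) .nil))) (.nd (nat_lit 6) 
(.lf (nat_lit 213040) (.g (nat_lit 2179) (.e (nat_lit 98048) (nat_lit 6) (.e (nat_lit 81954) (nat_lit 23) (.e (nat_lit 98356) (nat_lit 26) (.e (nat_lit 426354) (nat_lit 15) (.e (nat_lit 2031) (nat_lit 140) .nil))))) .nil)) 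
(.lf (nat_lit 213104) (.g (nat_lit 357) (.e (nat_lit 98048) (nat_lit 6) (.e (nat_lit 81955) (nat_lit 23) (.e (nat_lit 98368) (nat_lit 27) .nil))) .nil))))) (.nd (nat_lit 4) (.nd (nat_lit 5) (.nd (nat_lit 6) 
(.lf (nat_lit 213000) (.g (nat_lit 1910) (.e (nat_lit 98048) (nat_lit 6) (.e (nat_lit 81951) (nat_lit 22) (.e (nat_lit 90170) (nat_lit 13) (.e (nat_lit 172061) (nat_lit 1) (.e (nat_lit 164319) (nat_lit 228) .nil))))) .nil)) 
(.lf (nat_lit 213064) (.g (nat_lit 354) (.e (nat_lit 98048) (nat_lit 6) (.e (nat_lit 81954) (nat_lit 23) (.e (nat_lit 98366) (nat_lit 27) .nil))) .nil))) (.nd (nat_lit 6) 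
(.lf (nat_lit 213032) (.g (nat_lit 1845) (.e (nat_lit 98048) (nat_lit 6) (.e (nat_lit 81953) (nat_lit 22) (.e (nat_lit 90172) (nat_lit 14) (.e (nat_lit 188160) (nat_lit 0) .nil)))) .nil)) 
(.lf (nat_lit 213096) (.g (nat_lit 1182) (.e (nat_lit 98048) (nat_lit 6) (.e (nat_lit 81954) (nat_lit 23) (.e (nat_lit 98385) (nat_lit 32) (.e (nat_lit 475193) (nat_lit 38) .nil)))) .nil)))) (.nd (nat_lit 5) (.nd (nat_lit 6) 
(.lf (nat_lit 213016) (.g (nat_lit 1122) (.e (nat_lit 98048) (nat_lit 6) (.e (nat_lit 81952) (nat_lit 22) (.e (nat_lit 90172) (nat_lit 14) (.e (nat_lit 188160) (nat_lit 0) .nil)))) .nil)) 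
(.lf (nat_lit 213080) (.g (nat_lit 597) (.e (nat_lit 98048) (nat_lit 6) (.e (nat_lit 81954) (nat_lit 23) (.e (nat_lit 98368) (nat_lit 27) .nil))) .nil))) (.nd (nat_lit 6) 
(.lf (nat_lit 213048) (.g (nat_lit 1807) (.e (nat_lit 98048) (nat_lit 6) (.e (nat_lit 81954) (nat_lit 23) (.e (nat_lit 98356) (nat_lit 26) (.e (nat_lit 426421) (nat_lit 16) .nil)))) .nil)) 
(.lf (nat_lit 213112) (.g (nat_lit 2080) (.e (nat_lit 98048) (nat_lit 6) (.e (nat_lit 81956) (nat_lit 23) (.e (nat_lit 98356) (nat_lit 26) (.e (nat_lit 426354) (nat_lit 15) (.e (nat_lit 2031) (nat_lit 140) .nil))))) .nil)))))) (.nd (nat_lit 3) (.nd (nat_lit 4) (.nd (nat_lit 5) (.nd (nat_lit 6) 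
(.lf (nat_lit 212996) (.g (nat_lit 1528) (.e (nat_lit 98048) (nat_lit 6) (.e (nat_lit 81951) (nat_lit 22) (.e (nat_lit 90170) (nat_lit 13) (.e (nat_lit 172059) (nat_lit 1) .nil)))) .nil)) 
(.lf (nat_lit 213060) (.g (nat_lit 2619) (.e (nat_lit 98048) (nat_lit 6) (.e (nat_lit 81954) (nat_lit 23) (.e (nat_lit 98365) (nat_lit 26) (.e (nat_lit 426098) (nat_lit 1) (.e (nat_lit 164298) (nat_lit 226) .nil))))) .nil))) (.nd (nat_lit 6) 
(.lf (nat_lit 213028) (.g (nat_lit 2218) (.e (nat_lit 98048) (nat_lit 6) (.e (nat_lit 81953) (nat_lit 22) (.e (nat_lit 90170) (nat_lit 13) (.e (nat_lit 172069) (nat_lit 4) .nil)))) .nil)) 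
(.lf (nat_lit 213092) (.g (nat_lit 2095) (.e (nat_lit 98048) (nat_lit 6) (.e (nat_lit 81954) (nat_lit 23) (.e (nat_lit 98384) (nat_lit 32) (.e (nat_lit 475193) (nat_lit 38) (.e (nat_lit 688152) (nat_lit 13) .nil))))) .nil)))) (.nd (nat_lit 5) (.nd (nat_lit 6) 
(.lf (nat_lit 213012) (.g (nat_lit 1456) (.e (nat_lit 98048) (nat_lit 6) (.e (nat_lit 81951) (nat_lit 22) (.e (nat_lit 90174) (nat_lit 14) (.e (nat_lit 180260) (nat_lit 18) .nil)))) .nil)) 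
(.lf (nat_lit 213076) (.g (nat_lit 1743) (.e (nat_lit 98048) (nat_lit 6) (.e (nat_lit 81954) (nat_lit 23) (.e (nat_lit 98367) (nat_lit 27) (.e (nat_lit 434269) (nat_lit 36) .nil)))) .nil))) (.nd (nat_lit 6) 
(.lf (nat_lit 213044) (.g (nat_lit 1943) (.e (nat_lit 98048) (nat_lit 6) (.e (nat_lit 81954) (nat_lit 23) (.e (nat_lit 98356) (nat_lit 26) (.e (nat_lit 426361) (nat_lit 15) (.e (nat_lit 2025) (nat_lit 140) .nil))))) .nil)) 
(.lf (nat_lit 213108) (.g (nat_lit 1164) (.e (nat_lit 98048) (nat_lit 6) (.e (nat_lit 81955) (nat_lit 23) (.e (nat_lit 98386) (nat_lit 32) (.e (nat_lit 483072) (nat_lit 21) .nil)))) .nil))))) (.nd (nat_lit 4) (.nd (nat_lit 5) (.nd (nat_lit 6) 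
(.lf (nat_lit 213004) (.g (nat_lit 1537) (.e (nat_lit 98048) (nat_lit 6) (.e (nat_lit 81951) (nat_lit 22) (.e (nat_lit 90172) (nat_lit 14) (.e (nat_lit 180224) (nat_lit 0) .nil)))) .nil)) 
(.lf (nat_lit 213068) (.g (nat_lit 1721) (.e (nat_lit 98048) (nat_lit 6) (.e (nat_lit 81954) (nat_lit 23) (.e (nat_lit 98367) (nat_lit 27) (.e (nat_lit 434209) (nat_lit 18) .nil)))) .nil))) (.nd (nat_lit 6) 
(.lf (nat_lit 213036) (.g (nat_lit 1952) (.e (nat_lit 98048) (nat_lit 6) (.e (nat_lit 81953) (nat_lit 22) (.e (nat_lit 90174) (nat_lit 14) (.e (nat_lit 180260) (nat_lit 18) .nil)))) .nil)) 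
(.lf (nat_lit 213100) (.g (nat_lit 354) (.e (nat_lit 98048) (nat_lit 6) (.e (nat_lit 81955) (nat_lit 23) (.e (nat_lit 98367) (nat_lit 27) .nil))) .nil)))) (.nd (nat_lit 5) (.nd (nat_lit 6) 
(.lf (nat_lit 213020) (.g (nat_lit 2466) (.e (nat_lit 98048) (nat_lit 6) (.e (nat_lit 81953) (nat_lit 22) (.e (nat_lit 90170) (nat_lit 13) (.e (nat_lit 172034) (nat_lit 0) .nil)))) .nil)) 
(.lf (nat_lit 213084) (.g (nat_lit 1012) (.e (nat_lit 98048) (nat_lit 6) (.e (nat_lit 81954) (nat_lit 23) (.e (nat_lit 98376) (nat_lit 30) (.e (nat_lit 458774) (nat_lit 18) .nil)))) .nil))) (.nd (nat_lit 6) 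
(.lf (nat_lit 213052) (.g (nat_lit 1941) (.e (nat_lit 98048) (nat_lit 6) (.e (nat_lit 81954) (nat_lit 23) (.e (nat_lit 98356) (nat_lit 26) (.e (nat_lit 426422) (nat_lit 16) (.e (nat_lit 57726) (nat_lit 181) .nil))))) .nil)) 
(.lf (nat_lit 213116) (.g (nat_lit 1932) (.e (nat_lit 98048) (nat_lit 6) (.e (nat_lit 81956) (nat_lit 23) (.e (nat_lit 98356) (nat_lit 26) (.e (nat_lit 426361) (nat_lit 15) (.e (nat_lit 987) (nat_lit 81) .nil))))) .nil))))))) (.nd (nat_lit 2) (.nd (nat_lit 3) (.nd (nat_lit 4) (.nd (nat_lit 5) (.nd (nat_lit 6) 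
(.lf (nat_lit 212994) (.g (nat_lit 1511) (.e (nat_lit 98048) (nat_lit 6) (.e (nat_lit 81951) (nat_lit 22) (.e (nat_lit 90170) (nat_lit 13) (.e (nat_lit 172049) (nat_lit 0) .nil)))) .nil)) 
(.lf (nat_lit 213058) (.g (nat_lit 1409) (.e (nat_lit 98048) (nat_lit 6) (.e (nat_lit 81954) (nat_lit 23) (.e (nat_lit 98359) (nat_lit 26) (.e (nat_lit 426043) (nat_lit 0) .nil)))) .nil))) (.nd (nat_lit 6) 
(.lf (nat_lit 213026) (.g (nat_lit 1621) (.e (nat_lit 98048) (nat_lit 6) (.e (nat_lit 81953) (nat_lit 22) (.e (nat_lit 90170) (nat_lit 13) (.e (nat_lit 172061) (nat_lit 1) .nil)))) .nil)) 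
(.lf (nat_lit 213090) (.g (nat_lit 2265) (.e (nat_lit 98048) (nat_lit 6) (.e (nat_lit 81954) (nat_lit 23) (.e (nat_lit 98384) (nat_lit 32) (.e (nat_lit 483072) (nat_lit 21) .nil)))) .nil)))) (.nd (nat_lit 5) (.nd (nat_lit 6) 
(.lf (nat_lit 213010) (.g (nat_lit 1544) (.e (nat_lit 98048) (nat_lit 6) (.e (nat_lit 81951) (nat_lit 22) (.e (nat_lit 90172) (nat_lit 14) (.e (nat_lit 180260) (nat_lit 18) .nil)))) .nil)) 
(.lf (nat_lit 213074) (.g (nat_lit 3017) (.e (nat_lit 98048) (nat_lit 6) (.e (nat_lit 81954) (nat_lit 23) (.e (nat_lit 98367) (nat_lit 27) (.e (nat_lit 434268) (nat_lit 36) (.e (nat_lit 639008) (nat_lit 13) .nil))))) .nil))) (.nd (nat_lit 6) 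
(.lf (nat_lit 213042) (.g (nat_lit 1696) (.e (nat_lit 98048) (nat_lit 6) (.e (nat_lit 81954) (nat_lit 23) (.e (nat_lit 98356) (nat_lit 26) (.e (nat_lit 426361) (nat_lit 15) .nil)))) .nil)) 
(.lf (nat_lit 213106) (.g (nat_lit 814) (.e (nat_lit 98048) (nat_lit 6) (.e (nat_lit 81955) (nat_lit 23) (.e (nat_lit 98368) (nat_lit 27) (.e (nat_lit 434269) (nat_lit 36) .nil)))) .nil))))) (.nd (nat_lit 4) (.nd (nat_lit 5) (.nd (nat_lit 6) 
(.lf (nat_lit 213002) (.g (nat_lit 2146) (.e (nat_lit 98048) (nat_lit 6) (.e (nat_lit 81951) (nat_lit 22) (.e (nat_lit 90170) (nat_lit 13) (.e (nat_lit 172069) (nat_lit 4) .nil)))) .nil)) 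
(.lf (nat_lit 213066) (.g (nat_lit 483) (.e (nat_lit 98048) (nat_lit 6) (.e (nat_lit 81954) (nat_lit 23) (.e (nat_lit 98367) (nat_lit 27) .nil))) .nil))) (.nd (nat_lit 6) 
(.lf (nat_lit 213034) (.g (nat_lit 1944) (.e (nat_lit 98048) (nat_lit 6) (.e (nat_lit 81953) (nat_lit 22) (.e (nat_lit 90174) (nat_lit 14) (.e (nat_lit 180224) (nat_lit 0) .nil)))) .nil)) 
(.lf (nat_lit 213098) (.g (nat_lit 1615) (.e (nat_lit 98048) (nat_lit 6) (.e (nat_lit 81954) (nat_lit 23) (.e (nat_lit 98385) (nat_lit 32) (.e (nat_lit 475193) (nat_lit 38) (.e (nat_lit 696064) (nat_lit 13) .nil))))) .nil)))) (.nd (nat_lit 5) (.nd (nat_lit 6) 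
(.lf (nat_lit 213018) (.g (nat_lit 1611) (.e (nat_lit 98048) (nat_lit 6) (.e (nat_lit 81952) (nat_lit 22) (.e (nat_lit 90185) (nat_lit 17) (.e (nat_lit 237582) (nat_lit 1) .nil)))) .nil)) 
(.lf (nat_lit 213082) (.g (nat_lit 1113) (.e (nat_lit 98048) (nat_lit 6) (.e (nat_lit 81954) (nat_lit 23) (.e (nat_lit 98368) (nat_lit 27) (.e (nat_lit 434266) (nat_lit 35) .nil)))) .nil))) (.nd (nat_lit 6) 
(.lf (nat_lit 213050) (.g (nat_lit 1976) (.e (nat_lit 98048) (nat_lit 6) (.e (nat_lit 81954) (nat_lit 23) (.e (nat_lit 98356) (nat_lit 26) (.e (nat_lit 426422) (nat_lit 16) (.e (nat_lit 57724) (nat_lit 181) .nil))))) .nil)) 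
(.lf (nat_lit 213114) (.g (nat_lit 1719) (.e (nat_lit 98048) (nat_lit 6) (.e (nat_lit 81956) (nat_lit 23) (.e (nat_lit 98356) (nat_lit 26) (.e (nat_lit 426361) (nat_lit 15) .nil)))) .nil)))))) (.nd (nat_lit 3) (.nd (nat_lit 4) (.nd (nat_lit 5) (.nd (nat_lit 6) 
(.lf (nat_lit 212998) (.g (nat_lit 1957) (.e (nat_lit 98048) (nat_lit 6) (.e (nat_lit 81951) (nat_lit 22) (.e (nat_lit 90170) (nat_lit 13) (.e (nat_lit 172061) (nat_lit 1) (.e (nat_lit 164297) (nat_lit 226) .nil))))) .nil)) 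
(.lf (nat_lit 213062) (.g (nat_lit 2815) (.e (nat_lit 98048) (nat_lit 6) (.e (nat_lit 81954) (nat_lit 23) (.e (nat_lit 98365) (nat_lit 26) (.e (nat_lit 426100) (nat_lit 1) (.e (nat_lit 164305) (nat_lit 226) .nil))))) .nil))) (.nd (nat_lit 6) 
(.lf (nat_lit 213030) (.g (nat_lit 1113) (.e (nat_lit 98048) (nat_lit 6) (.e (nat_lit 81953) (nat_lit 22) (.e (nat_lit 90172) (nat_lit 14) .nil))) .nil)) 
(.lf (nat_lit 213094) (.g (nat_lit 2100) (.e (nat_lit 98048) (nat_lit 6) (.e (nat_lit 81954) (nat_lit 23) (.e (nat_lit 98384) (nat_lit 32) (.e (nat_lit 475193) (nat_lit 38) (.e (nat_lit 696064) (nat_lit 13) .nil))))) .nil)))) (.nd (nat_lit 5) (.nd (nat_lit 6) 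
(.lf (nat_lit 213014) (.g (nat_lit 1416) (.e (nat_lit 98048) (nat_lit 6) (.e (nat_lit 81951) (nat_lit 22) (.e (nat_lit 90185) (nat_lit 17) (.e (nat_lit 237585) (nat_lit 1) .nil)))) .nil)) 
(.lf (nat_lit 213078) (.g (nat_lit 2113) (.e (nat_lit 98048) (nat_lit 6) (.e (nat_lit 81954) (nat_lit 23) (.e (nat_lit 98367) (nat_lit 27) (.e (nat_lit 434269) (nat_lit 36) (.e (nat_lit 639011) (nat_lit 13) .nil))))) .nil))) (.nd (nat_lit 6) 
(.lf (nat_lit 213046) (.g (nat_lit 1930) (.e (nat_lit 98048) (nat_lit 6) (.e (nat_lit 81954) (nat_lit 23) (.e (nat_lit 98356) (nat_lit 26) (.e (nat_lit 426361) (nat_lit 15) (.e (nat_lit 2027) (nat_lit 140) .nil))))) .nil)) 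
(.lf (nat_lit 213110) (.g (nat_lit 1712) (.e (nat_lit 98048) (nat_lit 6) (.e (nat_lit 81956) (nat_lit 23) (.e (nat_lit 98353) (nat_lit 25) (.e (nat_lit 417804) (nat_lit 1) .nil)))) .nil))))) (.nd (nat_lit 4) (.nd (nat_lit 5) (.nd (nat_lit 6) 
(.lf (nat_lit 213006) (.g (nat_lit 1307) (.e (nat_lit 98048) (nat_lit 6) (.e (nat_lit 81951) (nat_lit 22) (.e (nat_lit 90172) (nat_lit 14) (.e (nat_lit 180233) (nat_lit 0) .nil)))) .nil)) 
(.lf (nat_lit 213070) (.g (nat_lit 1744) (.e (nat_lit 98048) (nat_lit 6) (.e (nat_lit 81954) (nat_lit 23) (.e (nat_lit 98367) (nat_lit 27) (.e (nat_lit 434266) (nat_lit 35) .nil)))) .nil))) (.nd (nat_lit 6) 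
(.lf (nat_lit 213038) (.g (nat_lit 1941) (.e (nat_lit 98048) (nat_lit 6) (.e (nat_lit 81954) (nat_lit 23) (.e (nat_lit 98356) (nat_lit 26) (.e (nat_lit 426352) (nat_lit 15) .nil)))) .nil)) 
(.lf (nat_lit 213102) (.g (nat_lit 2659) (.e (nat_lit 98048) (nat_lit 6) (.e (nat_lit 81955) (nat_lit 23) (.e (nat_lit 98367) (nat_lit 27) (.e (nat_lit 434268) (nat_lit 36) (.e (nat_lit 639010) (nat_lit 13) .nil))))) .nil)))) (.nd (nat_lit 5) (.nd (nat_lit 6) 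
(.lf (nat_lit 213022) (.g (nat_lit 2367) (.e (nat_lit 98048) (nat_lit 6) (.e (nat_lit 81953) (nat_lit 22) (.e (nat_lit 90170) (nat_lit 13) (.e (nat_lit 172041) (nat_lit 0) .nil)))) .nil)) 
(.lf (nat_lit 213086) (.g (nat_lit 627) (.e (nat_lit 98048) (nat_lit 6) (.e (nat_lit 81954) (nat_lit 23) (.e (nat_lit 98377) (nat_lit 30) .nil))) .nil))) (.nd (nat_lit 6) 
(.lf (nat_lit 213054) (.g (nat_lit 1948) (.e (nat_lit 98048) (nat_lit 6) (.e (nat_lit 81954) (nat_lit 23) (.e (nat_lit 98356) (nat_lit 26) (.e (nat_lit 426422) (nat_lit 16) (.e (nat_lit 57730) (nat_lit 181) .nil))))) .nil)) 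
(.lf (nat_lit 213118) (.g (nat_lit 1956) (.e (nat_lit 98048) (nat_lit 6) (.e (nat_lit 81956) (nat_lit 23) (.e (nat_lit 98356) (nat_lit 26) (.e (nat_lit 426361) (nat_lit 15) (.e (nat_lit 2027) (nat_lit 140) .nil))))) .nil)))))))) (.nd (nat_lit 1) (.nd (nat_lit 2) (.nd (nat_lit 3) (.nd (nat_lit 4) (.nd (nat_lit 5) (.nd (nat_lit 6) 
(.lf (nat_lit 212993) (.g (nat_lit 1748) (.e (nat_lit 98048) (nat_lit 6) (.e (nat_lit 81951) (nat_lit 22) (.e (nat_lit 90170) (nat_lit 13) (.e (nat_lit 172046) (nat_lit 0) .nil)))) .nil)) 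
(.lf (nat_lit 213057) (.g (nat_lit 521) (.e (nat_lit 98048) (nat_lit 6) (.e (nat_lit 81954) (nat_lit 23) (.e (nat_lit 98359) (nat_lit 26) .nil))) .nil))) (.nd (nat_lit 6) 
(.lf (nat_lit 213025) (.g (nat_lit 1526) (.e (nat_lit 98048) (nat_lit 6) (.e (nat_lit 81953) (nat_lit 22) (.e (nat_lit 90170) (nat_lit 13) (.e (nat_lit 172059) (nat_lit 1) .nil)))) .nil)) 
(.lf (nat_lit 213089) (.g (nat_lit 1789) (.e (nat_lit 98048) (nat_lit 6) (.e (nat_lit 81954) (nat_lit 23) (.e (nat_lit 98384) (nat_lit 32) (.e (nat_lit 475161) (nat_lit 21) .nil)))) .nil)))) (.nd (nat_lit 5) (.nd (nat_lit 6) 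
(.lf (nat_lit 213009) (.g (nat_lit 1667) (.e (nat_lit 98048) (nat_lit 6) (.e (nat_lit 81951) (nat_lit 22) (.e (nat_lit 90172) (nat_lit 14) (.e (nat_lit 180259) (nat_lit 17) (.e (nat_lit 630811) (nat_lit 13) .nil))))) .nil)) 
(.lf (nat_lit 213073) (.g (nat_lit 2888) (.e (nat_lit 98048) (nat_lit 6) (.e (nat_lit 81954) (nat_lit 23) (.e (nat_lit 98367) (nat_lit 27) (.e (nat_lit 434268) (nat_lit 36) (.e (nat_lit 639007) (nat_lit 13) .nil))))) .nil))) (.nd (nat_lit 6) 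
(.lf (nat_lit 213041) (.g (nat_lit 1906) (.e (nat_lit 98048) (nat_lit 6) (.e (nat_lit 81954) (nat_lit 23) (.e (nat_lit 98356) (nat_lit 26) (.e (nat_lit 426360) (nat_lit 15) .nil)))) .nil)) 
(.lf (nat_lit 213105) (.g (nat_lit 1020) (.e (nat_lit 98048) (nat_lit 6) (.e (nat_lit 81955) (nat_lit 23) (.e (nat_lit 98368) (nat_lit 27) (.e (nat_lit 434266) (nat_lit 35) (.e (nat_lit 630812) (nat_lit 13) .nil))))) .nil))))) (.nd (nat_lit 4) (.nd (nat_lit 5) (.nd (nat_lit 6) 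
(.lf (nat_lit 213001) (.g (nat_lit 1793) (.e (nat_lit 98048) (nat_lit 6) (.e (nat_lit 81951) (nat_lit 22) (.e (nat_lit 90170) (nat_lit 13) (.e (nat_lit 172068) (nat_lit 4) .nil)))) .nil)) 
(.lf (nat_lit 213065) (.g (nat_lit 1109) (.e (nat_lit 98048) (nat_lit 6) (.e (nat_lit 81954) (nat_lit 23) (.e (nat_lit 98366) (nat_lit 27) (.e (nat_lit 434269) (nat_lit 36) .nil)))) .nil))) (.nd (nat_lit 6) 
(.lf (nat_lit 213033) (.g (nat_lit 838) (.e (nat_lit 98048) (nat_lit 6) (.e (nat_lit 81953) (nat_lit 22) (.e (nat_lit 90174) (nat_lit 14) .nil))) .nil)) 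
(.lf (nat_lit 213097) (.g (nat_lit 1615) (.e (nat_lit 98048) (nat_lit 6) (.e (nat_lit 81954) (nat_lit 23) (.e (nat_lit 98385) (nat_lit 32) (.e (nat_lit 475193) (nat_lit 38) (.e (nat_lit 688157) (nat_lit 13) .nil))))) .nil)))) (.nd (nat_lit 5) (.nd (nat_lit 6) 
(.lf (nat_lit 213017) (.g (nat_lit 1055) (.e (nat_lit 98048) (nat_lit 6) (.e (nat_lit 81952) (nat_lit 22) (.e (nat_lit 90174) (nat_lit 14) (.e (nat_lit 188160) (nat_lit 0) .nil)))) .nil)) 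
(.lf (nat_lit 213081) (.g (nat_lit 1113) (.e (nat_lit 98048) (nat_lit 6) (.e (nat_lit 81954) (nat_lit 23) (.e (nat_lit 98368) (nat_lit 27) (.e (nat_lit 434265) (nat_lit 35) .nil)))) .nil))) (.nd (nat_lit 6) 
(.lf (nat_lit 213049) (.g (nat_lit 1639) (.e (nat_lit 98048) (nat_lit 6) (.e (nat_lit 81954) (nat_lit 23) (.e (nat_lit 98356) (nat_lit 26) (.e (nat_lit 426422) (nat_lit 16) .nil)))) .nil)) 
(.lf (nat_lit 213113) (.g (nat_lit 1803) (.e (nat_lit 98048) (nat_lit 6) (.e (nat_lit 81956) (nat_lit 23) (.e (nat_lit 98356) (nat_lit 26) (.e (nat_lit 426360) (nat_lit 15) .nil)))) .nil)))))) (.nd (nat_lit 3) (.nd (nat_lit 4) (.nd (nat_lit 5) (.nd (nat_lit 6) 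
(.lf (nat_lit 212997) (.g (nat_lit 1555) (.e (nat_lit 98048) (nat_lit 6) (.e (nat_lit 81951) (nat_lit 22) (.e (nat_lit 90170) (nat_lit 13) (.e (nat_lit 172061) (nat_lit 1) .nil)))) .nil)) 
(.lf (nat_lit 213061) (.g (nat_lit 1628) (.e (nat_lit 98048) (nat_lit 6) (.e (nat_lit 81954) (nat_lit 23) (.e (nat_lit 98365) (nat_lit 26) (.e (nat_lit 426099) (nat_lit 1) .nil)))) .nil))) (.nd (nat_lit 6) 
(.lf (nat_lit 213029) (.g (nat_lit 2011) (.e (nat_lit 98048) (nat_lit 6) (.e (nat_lit 81953) (nat_lit 22) (.e (nat_lit 90170) (nat_lit 13) (.e (nat_lit 172070) (nat_lit 4) (.e (nat_lit 229638) (nat_lit 228) .nil))))) .nil)) 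
(.lf (nat_lit 213093) (.g (nat_lit 2095) (.e (nat_lit 98048) (nat_lit 6) (.e (nat_lit 81954) (nat_lit 23) (.e (nat_lit 98384) (nat_lit 32) (.e (nat_lit 475193) (nat_lit 38) (.e (nat_lit 688158) (nat_lit 13) .nil))))) .nil)))) (.nd (nat_lit 5) (.nd (nat_lit 6) 
(.lf (nat_lit 213013) (.g (nat_lit 1528) (.e (nat_lit 98048) (nat_lit 6) (.e (nat_lit 81951) (nat_lit 22) (.e (nat_lit 90185) (nat_lit 17) (.e (nat_lit 237582) (nat_lit 1) .nil)))) .nil)) 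
(.lf (nat_lit 213077) (.g (nat_lit 2117) (.e (nat_lit 98048) (nat_lit 6) (.e (nat_lit 81954) (nat_lit 23) (.e (nat_lit 98367) (nat_lit 27) (.e (nat_lit 434269) (nat_lit 36) (.e (nat_lit 639009) (nat_lit 13) .nil))))) .nil))) (.nd (nat_lit 6) 
(.lf (nat_lit 213045) (.g (nat_lit 1936) (.e (nat_lit 98048) (nat_lit 6) (.e (nat_lit 81954) (nat_lit 23) (.e (nat_lit 98356) (nat_lit 26) (.e (nat_lit 426361) (nat_lit 15) (.e (nat_lit 2026) (nat_lit 140) .nil))))) .nil)) 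
(.lf (nat_lit 213109) (.g (nat_lit 1036) (.e (nat_lit 98048) (nat_lit 6) (.e (nat_lit 81956) (nat_lit 23) (.e (nat_lit 98352) (nat_lit 25) .nil))) .nil))))) (.nd (nat_lit 4) (.nd (nat_lit 5) (.nd (nat_lit 6) 
(.lf (nat_lit 213005) (.g (nat_lit 1948) (.e (nat_lit 98048) (nat_lit 6) (.e (nat_lit 81951) (nat_lit 22) (.e (nat_lit 90172) (nat_lit 14) (.e (nat_lit 180229) (nat_lit 0) (.e (nat_lit 5190) (nat_lit 294) .nil))))) .nil)) 
(.lf (nat_lit 213069) (.g (nat_lit 1888) (.e (nat_lit 98048) (nat_lit 6) (.e (nat_lit 81954) (nat_lit 23) (.e (nat_lit 98367) (nat_lit 27) (.e (nat_lit 434265) (nat_lit 35) .nil)))) .nil))) (.nd (nat_lit 6) 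
(.lf (nat_lit 213037) (.g (nat_lit 1035) (.e (nat_lit 98048) (nat_lit 6) (.e (nat_lit 81953) (nat_lit 22) (.e (nat_lit 90185) (nat_lit 17) .nil))) .nil)) 
(.lf (nat_lit 213101) (.g (nat_lit 2618) (.e (nat_lit 98048) (nat_lit 6) (.e (nat_lit 81955) (nat_lit 23) (.e (nat_lit 98367) (nat_lit 27) (.e (nat_lit 434268) (nat_lit 36) (.e (nat_lit 639009) (nat_lit 13) .nil))))) .nil)))) (.nd (nat_lit 5) (.nd (nat_lit 6) 
(.lf (nat_lit 213021) (.g (nat_lit 2579) (.e (nat_lit 98048) (nat_lit 6) (.e (nat_lit 81953) (nat_lit 22) (.e (nat_lit 90170) (nat_lit 13) (.e (nat_lit 172040) (nat_lit 0) .nil)))) .nil)) 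
(.lf (nat_lit 213085) (.g (nat_lit 1729) (.e (nat_lit 98048) (nat_lit 6) (.e (nat_lit 81954) (nat_lit 23) (.e (nat_lit 98376) (nat_lit 30) (.e (nat_lit 458774) (nat_lit 18) (.e (nat_lit 5046) (nat_lit 292) .nil))))) .nil))) (.nd (nat_lit 6) 
(.lf (nat_lit 213053) (.g (nat_lit 2007) (.e (nat_lit 98048) (nat_lit 6) (.e (nat_lit 81954) (nat_lit 23) (.e (nat_lit 98356) (nat_lit 26) (.e (nat_lit 426422) (nat_lit 16) (.e (nat_lit 57727) (nat_lit 181) .nil))))) .nil)) 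
(.lf (nat_lit 213117) (.g (nat_lit 1966) (.e (nat_lit 98048) (nat_lit 6) (.e (nat_lit 81956) (nat_lit 23) (.e (nat_lit 98356) (nat_lit 26) (.e (nat_lit 426361) (nat_lit 15) (.e (nat_lit 2025) (nat_lit 140) .nil))))) .nil))))))) (.nd (nat_lit 2) (.nd (nat_lit 3) (.nd (nat_lit 4) (.nd (nat_lit 5) (.nd (nat_lit 6) 
(.lf (nat_lit 212995) (.g (nat_lit 1693) (.e (nat_lit 98048) (nat_lit 6) (.e (nat_lit 81951) (nat_lit 22) (.e (nat_lit 90170) (nat_lit 13) (.e (nat_lit 172049) (nat_lit 0) (.e (nat_lit 3389) (nat_lit 210) .nil))))) .nil)) 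
(.lf (nat_lit 213059) (.g (nat_lit 1712) (.e (nat_lit 98048) (nat_lit 6) (.e (nat_lit 81954) (nat_lit 23) (.e (nat_lit 98359) (nat_lit 26) (.e (nat_lit 426367) (nat_lit 15) .nil)))) .nil))) (.nd (nat_lit 6) 
(.lf (nat_lit 213027) (.g (nat_lit 1760) (.e (nat_lit 98048) (nat_lit 6) (.e (nat_lit 81953) (nat_lit 22) (.e (nat_lit 90170) (nat_lit 13) (.e (nat_lit 172068) (nat_lit 4) .nil)))) .nil)) 
(.lf (nat_lit 213091) (.g (nat_lit 1654) (.e (nat_lit 98048) (nat_lit 6) (.e (nat_lit 81954) (nat_lit 23) (.e (nat_lit 98384) (nat_lit 32) (.e (nat_lit 475193) (nat_lit 38) .nil)))) .nil)))) (.nd (nat_lit 5) (.nd (nat_lit 6) 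
(.lf (nat_lit 213011) (.g (nat_lit 462) (.e (nat_lit 98048) (nat_lit 6) (.e (nat_lit 81951) (nat_lit 22) (.e (nat_lit 90174) (nat_lit 14) .nil))) .nil)) 
(.lf (nat_lit 213075) (.g (nat_lit 2985) (.e (nat_lit 98048) (nat_lit 6) (.e (nat_lit 81954) (nat_lit 23) (.e (nat_lit 98367) (nat_lit 27) (.e (nat_lit 434268) (nat_lit 36) (.e (nat_lit 646912) (nat_lit 13) .nil))))) .nil))) (.nd (nat_lit 6) 
(.lf (nat_lit 213043) (.g (nat_lit 1943) (.e (nat_lit 98048) (nat_lit 6) (.e (nat_lit 81954) (nat_lit 23) (.e (nat_lit 98356) (nat_lit 26) (.e (nat_lit 426361) (nat_lit 15) (.e (nat_lit 2024) (nat_lit 140) .nil))))) .nil)) 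
(.lf (nat_lit 213107) (.g (nat_lit 1592) (.e (nat_lit 98048) (nat_lit 6) (.e (nat_lit 81955) (nat_lit 23) (.e (nat_lit 98384) (nat_lit 32) (.e (nat_lit 483072) (nat_lit 21) .nil)))) .nil))))) (.nd (nat_lit 4) (.nd (nat_lit 5) (.nd (nat_lit 6) 
(.lf (nat_lit 213003) (.g (nat_lit 1637) (.e (nat_lit 98048) (nat_lit 6) (.e (nat_lit 81951) (nat_lit 22) (.e (nat_lit 90170) (nat_lit 13) (.e (nat_lit 172070) (nat_lit 4) .nil)))) .nil)) 
(.lf (nat_lit 213067) (.g (nat_lit 1976) (.e (nat_lit 98048) (nat_lit 6) (.e (nat_lit 81954) (nat_lit 23) (.e (nat_lit 98367) (nat_lit 27) (.e (nat_lit 434205) (nat_lit 18) .nil)))) .nil))) (.nd (nat_lit 6) 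
(.lf (nat_lit 213035) (.g (nat_lit 1603) (.e (nat_lit 98048) (nat_lit 6) (.e (nat_lit 81953) (nat_lit 22) (.e (nat_lit 90174) (nat_lit 14) (.e (nat_lit 188160) (nat_lit 0) .nil)))) .nil)) 
(.lf (nat_lit 213099) (.g (nat_lit 1287) (.e (nat_lit 98048) (nat_lit 6) (.e (nat_lit 81955) (nat_lit 23) (.e (nat_lit 98365) (nat_lit 26) (.e (nat_lit 426099) (nat_lit 1) .nil)))) .nil)))) (.nd (nat_lit 5) (.nd (nat_lit 6) 
(.lf (nat_lit 213019) (.g (nat_lit 1553) (.e (nat_lit 98048) (nat_lit 6) (.e (nat_lit 81953) (nat_lit 22) (.e (nat_lit 90134) (nat_lit 9) (.e (nat_lit 2978) (nat_lit 185) .nil)))) .nil)) 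
(.lf (nat_lit 213083) (.g (nat_lit 1113) (.e (nat_lit 98048) (nat_lit 6) (.e (nat_lit 81954) (nat_lit 23) (.e (nat_lit 98368) (nat_lit 27) (.e (nat_lit 434269) (nat_lit 36) .nil)))) .nil))) (.nd (nat_lit 6) 
(.lf (nat_lit 213051) (.g (nat_lit 2026) (.e (nat_lit 98048) (nat_lit 6) (.e (nat_lit 81954) (nat_lit 23) (.e (nat_lit 98356) (nat_lit 26) (.e (nat_lit 426422) (nat_lit 16) (.e (nat_lit 57725) (nat_lit 181) .nil))))) .nil)) 
(.lf (nat_lit 213115) (.g (nat_lit 1933) (.e (nat_lit 98048) (nat_lit 6) (.e (nat_lit 81956) (nat_lit 23) (.e (nat_lit 98356) (nat_lit 26) (.e (nat_lit 426361) (nat_lit 15) (.e (nat_lit 985) (nat_lit 81) .nil))))) .nil)))))) (.nd (nat_lit 3) (.nd (nat_lit 4) (.nd (nat_lit 5) (.nd (nat_lit 6) 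
(.lf (nat_lit 212999) (.g (nat_lit 1959) (.e (nat_lit 98048) (nat_lit 6) (.e (nat_lit 81951) (nat_lit 22) (.e (nat_lit 90170) (nat_lit 13) (.e (nat_lit 172061) (nat_lit 1) (.e (nat_lit 164309) (nat_lit 226) .nil))))) .nil)) 
(.lf (nat_lit 213063) (.g (nat_lit 2645) (.e (nat_lit 98048) (nat_lit 6) (.e (nat_lit 81954) (nat_lit 23) (.e (nat_lit 98365) (nat_lit 26) (.e (nat_lit 426100) (nat_lit 1) (.e (nat_lit 164307) (nat_lit 226) .nil))))) .nil))) (.nd (nat_lit 6) 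
(.lf (nat_lit 213031) (.g (nat_lit 1930) (.e (nat_lit 98048) (nat_lit 6) (.e (nat_lit 81953) (nat_lit 22) (.e (nat_lit 90172) (nat_lit 14) (.e (nat_lit 180229) (nat_lit 0) .nil)))) .nil)) 
(.lf (nat_lit 213095) (.g (nat_lit 1231) (.e (nat_lit 98048) (nat_lit 6) (.e (nat_lit 81954) (nat_lit 23) (.e (nat_lit 98385) (nat_lit 32) (.e (nat_lit 483072) (nat_lit 21) .nil)))) .nil)))) (.nd (nat_lit 5) (.nd (nat_lit 6) 
(.lf (nat_lit 213015) (.g (nat_lit 1888) (.e (nat_lit 98048) (nat_lit 6) (.e (nat_lit 81951) (nat_lit 22) (.e (nat_lit 90185) (nat_lit 17) (.e (nat_lit 237585) (nat_lit 1) (.e (nat_lit 164305) (nat_lit 226) .nil))))) .nil)) 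
(.lf (nat_lit 213079) (.g (nat_lit 2356) (.e (nat_lit 98048) (nat_lit 6) (.e (nat_lit 81954) (nat_lit 23) (.e (nat_lit 98367) (nat_lit 27) (.e (nat_lit 434275) (nat_lit 39) (.e (nat_lit 663574) (nat_lit 9) .nil))))) .nil))) (.nd (nat_lit 6) 
(.lf (nat_lit 213047) (.g (nat_lit 1726) (.e (nat_lit 98048) (nat_lit 6) (.e (nat_lit 81954) (nat_lit 23) (.e (nat_lit 98356) (nat_lit 26) (.e (nat_lit 426363) (nat_lit 15) .nil)))) .nil)) 
(.lf (nat_lit 213111) (.g (nat_lit 559) (.e (nat_lit 98048) (nat_lit 6) (.e (nat_lit 81956) (nat_lit 23) (.e (nat_lit 98356) (nat_lit 26) .nil))) .nil))))) (.nd (nat_lit 4) (.nd (nat_lit 5) (.nd (nat_lit 6) 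
(.lf (nat_lit 213007) (.g (nat_lit 1080) (.e (nat_lit 98048) (nat_lit 6) (.e (nat_lit 81951) (nat_lit 22) (.e (nat_lit 90172) (nat_lit 14) (.e (nat_lit 188160) (nat_lit 0) .nil)))) .nil)) 
(.lf (nat_lit 213071) (.g (nat_lit 2027) (.e (nat_lit 98048) (nat_lit 6) (.e (nat_lit 81954) (nat_lit 23) (.e (nat_lit 98367) (nat_lit 27) (.e (nat_lit 434267) (nat_lit 36) .nil)))) .nil))) (.nd (nat_lit 6) 
(.lf (nat_lit 213039) (.g (nat_lit 1753) (.e (nat_lit 98048) (nat_lit 6) (.e (nat_lit 81954) (nat_lit 23) (.e (nat_lit 98356) (nat_lit 26) (.e (nat_lit 426354) (nat_lit 15) .nil)))) .nil)) 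
(.lf (nat_lit 213103) (.g (nat_lit 2680) (.e (nat_lit 98048) (nat_lit 6) (.e (nat_lit 81955) (nat_lit 23) (.e (nat_lit 98367) (nat_lit 27) (.e (nat_lit 434268) (nat_lit 36) (.e (nat_lit 639011) (nat_lit 13) .nil))))) .nil)))) (.nd (nat_lit 5) (.nd (nat_lit 6) 
(.lf (nat_lit 213023) (.g (nat_lit 1690) (.e (nat_lit 98048) (nat_lit 6) (.e (nat_lit 81953) (nat_lit 22) (.e (nat_lit 90170) (nat_lit 13) (.e (nat_lit 172042) (nat_lit 0) .nil)))) .nil)) 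
(.lf (nat_lit 213087) (.g (nat_lit 1120) (.e (nat_lit 98048) (nat_lit 6) (.e (nat_lit 81954) (nat_lit 23) (.e (nat_lit 98377) (nat_lit 30) (.e (nat_lit 458774) (nat_lit 18) .nil)))) .nil))) (.nd (nat_lit 6) 
(.lf (nat_lit 213055) (.g (nat_lit 1714) (.e (nat_lit 98048) (nat_lit 6) (.e (nat_lit 81954) (nat_lit 23) (.e (nat_lit 98356) (nat_lit 26) (.e (nat_lit 426426) (nat_lit 16) .nil)))) .nil)) 
(.lf (nat_lit 213119) (.g (nat_lit 1686) (.e (nat_lit 98048) (nat_lit 6) (.e (nat_lit 81956) (nat_lit 23) (.e (nat_lit 98356) (nat_lit 26) (.e (nat_lit 426421) (nat_lit 16) .nil)))) .nil)))))))))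

noncomputable def tv2812 : DT := (.nd (nat_lit 0) (.nd (nat_lit 1) (.nd (nat_lit 2) (.nd (nat_lit 3) (.nd (nat_lit 4) (.nd (nat_lit 5) (.nd (nat_lit 6) 
(.lf (nat_lit 213120) (.g (nat_lit 1759) (.e (nat_lit 98048) (nat_lit 6) (.e (nat_lit 81956) (nat_lit 23) (.e (nat_lit 98356) (nat_lit 26) (.e (nat_lit 426422) (nat_lit 16) .nil)))) .nil)) 
(.lf (nat_lit 213184) (.g (nat_lit 125) (.e (nat_lit 98048) (nat_lit 8) (.e (nat_lit 131127) (nat_lit 13) (.e (nat_lit 393221) (nat_lit 0) .nil))) .nil))) (.nd (nat_lit 6) 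
(.lf (nat_lit 213152) (.g (nat_lit 1214) (.e (nat_lit 98048) (nat_lit 6) (.e (nat_lit 81956) (nat_lit 23) (.e (nat_lit 98377) (nat_lit 30) (.e (nat_lit 458774) (nat_lit 18) .nil)))) .nil)) 
(.lf (nat_lit 213216) (.g (nat_lit 2184) (.e (nat_lit 90121) (nat_lit 9) (.e (nat_lit 2828) (nat_lit 182) (.e (nat_lit 409646) (nat_lit 18) (.e (nat_lit 303117) (nat_lit 2) (.e (nat_lit 196630) (nat_lit 9) .nil))))) .nil)))) (.nd (nat_lit 5) (.nd (nat_lit 6) 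
(.lf (nat_lit 213136) (.g (nat_lit 1018) (.e (nat_lit 98048) (nat_lit 6) (.e (nat_lit 81956) (nat_lit 23) (.e (nat_lit 98367) (nat_lit 27) (.e (nat_lit 434208) (nat_lit 18) .nil)))) .nil)) 
(.lf (nat_lit 213200) (.g (nat_lit 1101) (.e (nat_lit 90121) (nat_lit 9) (.e (nat_lit 321) (nat_lit 24) (.e (nat_lit 360467) (nat_lit 3) (.e (nat_lit 516144) (nat_lit 9) (.e (nat_lit 426446) (nat_lit 20) .nil))))) .nil))) (.nd (nat_lit 6) 
(.lf (nat_lit 213168) (.g (nat_lit 1816) (.e (nat_lit 98048) (nat_lit 8) (.e (nat_lit 131107) (nat_lit 9) (.e (nat_lit 336456) (nat_lit 34) (.e (nat_lit 483350) (nat_lit 17) (.e (nat_lit 1994) (nat_lit 137) .nil))))) .nil)) 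
(.lf (nat_lit 213232) (.g (nat_lit 1923) (.e (nat_lit 90123) (nat_lit 9) (.e (nat_lit 232) (nat_lit 21) (.e (nat_lit 336060) (nat_lit 7) (.e (nat_lit 319505) (nat_lit 10) (.e (nat_lit 584) (nat_lit 43) .nil))))) .nil))))) (.nd (nat_lit 4) (.nd (nat_lit 5) (.nd (nat_lit 6) 
(.lf (nat_lit 213128) (.g (nat_lit 1083) (.e (nat_lit 98048) (nat_lit 6) (.e (nat_lit 81956) (nat_lit 23) (.e (nat_lit 98359) (nat_lit 26) (.e (nat_lit 426043) (nat_lit 0) .nil)))) .nil)) 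
(.lf (nat_lit 213192) (.g (nat_lit 2194) (.e (nat_lit 90121) (nat_lit 9) (.e (nat_lit 214) (nat_lit 19) (.e (nat_lit 319505) (nat_lit 10) (.e (nat_lit 584) (nat_lit 43) (.e (nat_lit 516131) (nat_lit 3) .nil))))) .nil))) (.nd (nat_lit 6) 
(.lf (nat_lit 213160) (.g (nat_lit 2315) (.e (nat_lit 98048) (nat_lit 6) (.e (nat_lit 81956) (nat_lit 23) (.e (nat_lit 98384) (nat_lit 32) (.e (nat_lit 475193) (nat_lit 38) (.e (nat_lit 688158) (nat_lit 13) .nil))))) .nil)) 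
(.lf (nat_lit 213224) (.g (nat_lit 1104) (.e (nat_lit 90122) (nat_lit 9) (.e (nat_lit 321) (nat_lit 24) (.e (nat_lit 360467) (nat_lit 3) (.e (nat_lit 516179) (nat_lit 15) (.e (nat_lit 475212) (nat_lit 42) .nil))))) .nil)))) (.nd (nat_lit 5) (.nd (nat_lit 6) 
(.lf (nat_lit 213144) (.g (nat_lit 1491) (.e (nat_lit 98048) (nat_lit 6) (.e (nat_lit 81956) (nat_lit 23) (.e (nat_lit 98367) (nat_lit 27) (.e (nat_lit 434269) (nat_lit 36) .nil)))) .nil)) 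
(.lf (nat_lit 213208) (.g (nat_lit 2191) (.e (nat_lit 90121) (nat_lit 9) (.e (nat_lit 2601) (nat_lit 163) (.e (nat_lit 164403) (nat_lit 256) (.e (nat_lit 57373) (nat_lit 2) (.e (nat_lit 90174) (nat_lit 14) .nil))))) .nil))) (.nd (nat_lit 6) 
(.lf (nat_lit 213176) (.g (nat_lit 1985) (.e (nat_lit 98048) (nat_lit 8) (.e (nat_lit 131116) (nat_lit 9) (.e (nat_lit 336012) (nat_lit 2) (.e (nat_lit 90172) (nat_lit 14) (.e (nat_lit 188160) (nat_lit 0) .nil))))) .nil)) 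
(.lf (nat_lit 213240) (.g (nat_lit 969) (.e (nat_lit 90124) (nat_lit 9) (.e (nat_lit 333) (nat_lit 26) (.e (nat_lit 376865) (nat_lit 22) (.e (nat_lit 90167) (nat_lit 13) (.e (nat_lit 179968) (nat_lit 20) .nil))))) .nil)))))) (.nd (nat_lit 3) (.nd (nat_lit 4) (.nd (nat_lit 5) (.nd (nat_lit 6) 
(.lf (nat_lit 213124) (.g (nat_lit 2226) (.e (nat_lit 98048) (nat_lit 6) (.e (nat_lit 81956) (nat_lit 23) (.e (nat_lit 98356) (nat_lit 26) (.e (nat_lit 426422) (nat_lit 16) (.e (nat_lit 57727) (nat_lit 181) .nil))))) .nil)) 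
(.lf (nat_lit 213188) (.g (nat_lit 151) (.e (nat_lit 98048) (nat_lit 8) (.e (nat_lit 131127) (nat_lit 13) (.e (nat_lit 401152) (nat_lit 15) .nil))) .nil))) (.nd (nat_lit 6) 
(.lf (nat_lit 213156) (.g (nat_lit 1933) (.e (nat_lit 98048) (nat_lit 6) (.e (nat_lit 81956) (nat_lit 23) (.e (nat_lit 98384) (nat_lit 32) (.e (nat_lit 475161) (nat_lit 21) .nil)))) .nil)) 
(.lf (nat_lit 213220) (.g (nat_lit 1027) (.e (nat_lit 90122) (nat_lit 9) (.e (nat_lit 287) (nat_lit 21) (.e (nat_lit 336021) (nat_lit 3) (.e (nat_lit 98317) (nat_lit 9) .nil)))) .nil)))) (.nd (nat_lit 5) (.nd (nat_lit 6) 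
(.lf (nat_lit 213140) (.g (nat_lit 1843) (.e (nat_lit 98048) (nat_lit 6) (.e (nat_lit 81956) (nat_lit 23) (.e (nat_lit 98367) (nat_lit 27) (.e (nat_lit 434267) (nat_lit 36) .nil)))) .nil)) 
(.lf (nat_lit 213204) (.g (nat_lit 358) (.e (nat_lit 90121) (nat_lit 9) (.e (nat_lit 334) (nat_lit 26) (.e (nat_lit 376867) (nat_lit 23) .nil))) .nil))) (.nd (nat_lit 6) 
(.lf (nat_lit 213172) (.g (nat_lit 1736) (.e (nat_lit 98048) (nat_lit 8) (.e (nat_lit 131116) (nat_lit 9) (.e (nat_lit 336004) (nat_lit 2) (.e (nat_lit 90172) (nat_lit 14) (.e (nat_lit 180260) (nat_lit 18) .nil))))) .nil)) 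
(.lf (nat_lit 213236) (.g (nat_lit 1081) (.e (nat_lit 90123) (nat_lit 9) (.e (nat_lit 324) (nat_lit 24) (.e (nat_lit 360466) (nat_lit 3) (.e (nat_lit 516146) (nat_lit 9) (.e (nat_lit 426449) (nat_lit 20) .nil))))) .nil))))) (.nd (nat_lit 4) (.nd (nat_lit 5) (.nd (nat_lit 6) 
(.lf (nat_lit 213132) (.g (nat_lit 1762) (.e (nat_lit 98048) (nat_lit 6) (.e (nat_lit 81956) (nat_lit 23) (.e (nat_lit 98365) (nat_lit 26) (.e (nat_lit 426100) (nat_lit 1) .nil)))) .nil)) 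
(.lf (nat_lit 213196) (.g (nat_lit 2446) (.e (nat_lit 90121) (nat_lit 9) (.e (nat_lit 249) (nat_lit 21) (.e (nat_lit 336215) (nat_lit 13) (.e (nat_lit 393229) (nat_lit 9) (.e (nat_lit 335987) (nat_lit 1) .nil))))) .nil))) (.nd (nat_lit 6) 
(.lf (nat_lit 213164) (.g (nat_lit 1847) (.e (nat_lit 98048) (nat_lit 6) (.e (nat_lit 81956) (nat_lit 23) (.e (nat_lit 98385) (nat_lit 32) (.e (nat_lit 475193) (nat_lit 38) (.e (nat_lit 688145) (nat_lit 13) .nil))))) .nil)) 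
(.lf (nat_lit 213228) (.g (nat_lit 961) (.e (nat_lit 90122) (nat_lit 9) (.e (nat_lit 333) (nat_lit 26) (.e (nat_lit 376869) (nat_lit 23) (.e (nat_lit 98354) (nat_lit 26) (.e (nat_lit 433920) (nat_lit 20) .nil))))) .nil)))) (.nd (nat_lit 5) (.nd (nat_lit 6) 
(.lf (nat_lit 213148) (.g (nat_lit 998) (.e (nat_lit 98048) (nat_lit 6) (.e (nat_lit 81956) (nat_lit 23) (.e (nat_lit 98368) (nat_lit 27) .nil))) .nil)) 
(.lf (nat_lit 213212) (.g (nat_lit 2470) (.e (nat_lit 90121) (nat_lit 9) (.e (nat_lit 2610) (nat_lit 163) (.e (nat_lit 164403) (nat_lit 256) (.e (nat_lit 57378) (nat_lit 3) (.e (nat_lit 98376) (nat_lit 30) .nil))))) .nil))) (.nd (nat_lit 6) 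
(.lf (nat_lit 213180) (.g (nat_lit 2109) (.e (nat_lit 98048) (nat_lit 8) (.e (nat_lit 131116) (nat_lit 9) (.e (nat_lit 336012) (nat_lit 2) (.e (nat_lit 90174) (nat_lit 14) (.e (nat_lit 180225) (nat_lit 0) .nil))))) .nil)) 
(.lf (nat_lit 213244) (.g (nat_lit 452) (.e (nat_lit 90125) (nat_lit 9) (.e (nat_lit 333) (nat_lit 26) (.e (nat_lit 376865) (nat_lit 22) (.e (nat_lit 90168) (nat_lit 13) .nil)))) .nil))))))) (.nd (nat_lit 2) (.nd (nat_lit 3) (.nd (nat_lit 4) (.nd (nat_lit 5) (.nd (nat_lit 6) 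
(.lf (nat_lit 213122) (.g (nat_lit 2225) (.e (nat_lit 98048) (nat_lit 6) (.e (nat_lit 81956) (nat_lit 23) (.e (nat_lit 98356) (nat_lit 26) (.e (nat_lit 426422) (nat_lit 16) (.e (nat_lit 57725) (nat_lit 181) .nil))))) .nil)) 
(.lf (nat_lit 213186) (.g (nat_lit 184) (.e (nat_lit 98048) (nat_lit 8) (.e (nat_lit 131127) (nat_lit 13) (.e (nat_lit 401152) (nat_lit 9) (.e (nat_lit 336353) (nat_lit 24) (.e (nat_lit 270080) (nat_lit 0) .nil))))) .nil))) (.nd (nat_lit 6) 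
(.lf (nat_lit 213154) (.g (nat_lit 2009) (.e (nat_lit 98048) (nat_lit 6) (.e (nat_lit 81956) (nat_lit 23) (.e (nat_lit 98378) (nat_lit 30) (.e (nat_lit 458774) (nat_lit 18) (.e (nat_lit 5046) (nat_lit 292) .nil))))) .nil)) 
(.lf (nat_lit 213218) (.g (nat_lit 3180) (.e (nat_lit 90121) (nat_lit 9) (.e (nat_lit 3098) (nat_lit 192) (.e (nat_lit 491566) (nat_lit 12) (.e (nat_lit 385049) (nat_lit 21) .nil)))) .nil)))) (.nd (nat_lit 5) (.nd (nat_lit 6) 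
(.lf (nat_lit 213138) (.g (nat_lit 1612) (.e (nat_lit 98048) (nat_lit 6) (.e (nat_lit 81956) (nat_lit 23) (.e (nat_lit 98367) (nat_lit 27) (.e (nat_lit 434265) (nat_lit 35) .nil)))) .nil)) 
(.lf (nat_lit 213202) (.g (nat_lit 1502) (.e (nat_lit 90121) (nat_lit 9) (.e (nat_lit 324) (nat_lit 24) (.e (nat_lit 360466) (nat_lit 3) (.e (nat_lit 516150) (nat_lit 9) (.e (nat_lit 426446) (nat_lit 20) .nil))))) .nil))) (.nd (nat_lit 6) 
(.lf (nat_lit 213170) (.g (nat_lit 1706) (.e (nat_lit 98048) (nat_lit 8) (.e (nat_lit 131116) (nat_lit 9) (.e (nat_lit 336004) (nat_lit 2) (.e (nat_lit 90172) (nat_lit 14) (.e (nat_lit 188160) (nat_lit 0) .nil))))) .nil)) 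
(.lf (nat_lit 213234) (.g (nat_lit 2536) (.e (nat_lit 90123) (nat_lit 9) (.e (nat_lit 271) (nat_lit 21) (.e (nat_lit 336021) (nat_lit 3) (.e (nat_lit 98313) (nat_lit 9) (.e (nat_lit 336004) (nat_lit 2) .nil))))) .nil))))) (.nd (nat_lit 4) (.nd (nat_lit 5) (.nd (nat_lit 6) 
(.lf (nat_lit 213130) (.g (nat_lit 1597) (.e (nat_lit 98048) (nat_lit 6) (.e (nat_lit 81956) (nat_lit 23) (.e (nat_lit 98359) (nat_lit 26) (.e (nat_lit 426450) (nat_lit 21) .nil)))) .nil)) 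
(.lf (nat_lit 213194) (.g (nat_lit 1923) (.e (nat_lit 90121) (nat_lit 9) (.e (nat_lit 232) (nat_lit 21) (.e (nat_lit 336060) (nat_lit 7) (.e (nat_lit 319505) (nat_lit 10) (.e (nat_lit 584) (nat_lit 43) .nil))))) .nil))) (.nd (nat_lit 6) 
(.lf (nat_lit 213162) (.g (nat_lit 834) (.e (nat_lit 98048) (nat_lit 6) (.e (nat_lit 81956) (nat_lit 23) (.e (nat_lit 98385) (nat_lit 32) .nil))) .nil)) 
(.lf (nat_lit 213226) (.g (nat_lit 1229) (.e (nat_lit 90122) (nat_lit 9) (.e (nat_lit 324) (nat_lit 24) (.e (nat_lit 360466) (nat_lit 3) (.e (nat_lit 516146) (nat_lit 9) (.e (nat_lit 426448) (nat_lit 20) .nil))))) .nil)))) (.nd (nat_lit 5) (.nd (nat_lit 6) 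
(.lf (nat_lit 213146) (.g (nat_lit 1814) (.e (nat_lit 98048) (nat_lit 6) (.e (nat_lit 81956) (nat_lit 23) (.e (nat_lit 98367) (nat_lit 27) (.e (nat_lit 434269) (nat_lit 36) (.e (nat_lit 639011) (nat_lit 13) .nil))))) .nil)) 
(.lf (nat_lit 213210) (.g (nat_lit 2290) (.e (nat_lit 90121) (nat_lit 9) (.e (nat_lit 2610) (nat_lit 163) (.e (nat_lit 164403) (nat_lit 256) (.e (nat_lit 57371) (nat_lit 2) (.e (nat_lit 90172) (nat_lit 14) .nil))))) .nil))) (.nd (nat_lit 6) 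
(.lf (nat_lit 213178) (.g (nat_lit 2099) (.e (nat_lit 98048) (nat_lit 8) (.e (nat_lit 131116) (nat_lit 9) (.e (nat_lit 336012) (nat_lit 2) (.e (nat_lit 90172) (nat_lit 14) (.e (nat_lit 180260) (nat_lit 18) .nil))))) .nil)) 
(.lf (nat_lit 213242) (.g (nat_lit 1611) (.e (nat_lit 90125) (nat_lit 9) (.e (nat_lit 124) (nat_lit 5) (.e (nat_lit 114714) (nat_lit 22) (.e (nat_lit 90185) (nat_lit 17) (.e (nat_lit 237587) (nat_lit 2) .nil))))) .nil)))))) (.nd (nat_lit 3) (.nd (nat_lit 4) (.nd (nat_lit 5) (.nd (nat_lit 6) 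
(.lf (nat_lit 213126) (.g (nat_lit 1730) (.e (nat_lit 98048) (nat_lit 6) (.e (nat_lit 81956) (nat_lit 23) (.e (nat_lit 98356) (nat_lit 26) (.e (nat_lit 426426) (nat_lit 16) .nil)))) .nil)) 
(.lf (nat_lit 213190) (.g (nat_lit 247) (.e (nat_lit 98048) (nat_lit 8) (.e (nat_lit 131127) (nat_lit 13) (.e (nat_lit 401152) (nat_lit 15) (.e (nat_lit 385100) (nat_lit 49) (.e (nat_lit 786176) (nat_lit 0) .nil))))) .nil))) (.nd (nat_lit 6) 
(.lf (nat_lit 213158) (.g (nat_lit 1886) (.e (nat_lit 98048) (nat_lit 6) (.e (nat_lit 81956) (nat_lit 23) (.e (nat_lit 98384) (nat_lit 32) (.e (nat_lit 475193) (nat_lit 38) .nil)))) .nil)) 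
(.lf (nat_lit 213222) (.g (nat_lit 1258) (.e (nat_lit 90122) (nat_lit 9) (.e (nat_lit 321) (nat_lit 24) (.e (nat_lit 360467) (nat_lit 3) (.e (nat_lit 516146) (nat_lit 9) (.e (nat_lit 426446) (nat_lit 20) .nil))))) .nil)))) (.nd (nat_lit 5) (.nd (nat_lit 6) 
(.lf (nat_lit 213142) (.g (nat_lit 2497) (.e (nat_lit 98048) (nat_lit 6) (.e (nat_lit 81956) (nat_lit 23) (.e (nat_lit 98367) (nat_lit 27) (.e (nat_lit 434268) (nat_lit 36) (.e (nat_lit 639008) (nat_lit 13) .nil))))) .nil)) 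
(.lf (nat_lit 213206) (.g (nat_lit 344) (.e (nat_lit 90121) (nat_lit 9) (.e (nat_lit 334) (nat_lit 26) (.e (nat_lit 376869) (nat_lit 23) .nil))) .nil))) (.nd (nat_lit 6) 
(.lf (nat_lit 213174) (.g (nat_lit 2134) (.e (nat_lit 98048) (nat_lit 8) (.e (nat_lit 131116) (nat_lit 9) (.e (nat_lit 336012) (nat_lit 2) (.e (nat_lit 90172) (nat_lit 14) (.e (nat_lit 180224) (nat_lit 0) .nil))))) .nil)) 
(.lf (nat_lit 213238) (.g (nat_lit 804) (.e (nat_lit 90123) (nat_lit 9) (.e (nat_lit 324) (nat_lit 24) (.e (nat_lit 360466) (nat_lit 3) (.e (nat_lit 516180) (nat_lit 15) .nil)))) .nil))))) (.nd (nat_lit 4) (.nd (nat_lit 5) (.nd (nat_lit 6) 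
(.lf (nat_lit 213134) (.g (nat_lit 245) (.e (nat_lit 98048) (nat_lit 6) (.e (nat_lit 81956) (nat_lit 23) (.e (nat_lit 98367) (nat_lit 27) .nil))) .nil)) 
(.lf (nat_lit 213198) (.g (nat_lit 1395) (.e (nat_lit 90121) (nat_lit 9) (.e (nat_lit 285) (nat_lit 21) (.e (nat_lit 336076) (nat_lit 9) (.e (nat_lit 336454) (nat_lit 34) (.e (nat_lit 483366) (nat_lit 18) .nil))))) .nil))) (.nd (nat_lit 6) 
(.lf (nat_lit 213166) (.g (nat_lit 339) (.e (nat_lit 98048) (nat_lit 6) (.e (nat_lit 81963) (nat_lit 26) (.e (nat_lit 155392) (nat_lit 4) .nil))) .nil)) 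
(.lf (nat_lit 213230) (.g (nat_lit 1464) (.e (nat_lit 90122) (nat_lit 9) (.e (nat_lit 333) (nat_lit 26) (.e (nat_lit 376869) (nat_lit 23) (.e (nat_lit 98385) (nat_lit 32) (.e (nat_lit 475214) (nat_lit 42) (.e (nat_lit 720937) (nat_lit 22) .nil)))))) (.g (nat_lit 6) .nil .nil))))) (.nd (nat_lit 5) (.nd (nat_lit 6) 
(.lf (nat_lit 213150) (.g (nat_lit 1311) (.e (nat_lit 98048) (nat_lit 6) (.e (nat_lit 81956) (nat_lit 23) (.e (nat_lit 98376) (nat_lit 30) (.e (nat_lit 458774) (nat_lit 18) .nil)))) .nil)) 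
(.lf (nat_lit 213214) (.g (nat_lit 1963) (.e (nat_lit 90121) (nat_lit 9) (.e (nat_lit 2611) (nat_lit 163) (.e (nat_lit 164403) (nat_lit 256) (.e (nat_lit 57373) (nat_lit 2) (.e (nat_lit 90170) (nat_lit 13) .nil))))) .nil))) (.nd (nat_lit 6) 
(.lf (nat_lit 213182) (.g (nat_lit 1996) (.e (nat_lit 98048) (nat_lit 8) (.e (nat_lit 131116) (nat_lit 9) (.e (nat_lit 336021) (nat_lit 3) (.e (nat_lit 98365) (nat_lit 26) (.e (nat_lit 426100) (nat_lit 1) .nil))))) .nil)) 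
(.lf (nat_lit 213246) (.g (nat_lit 1390) (.e (nat_lit 90125) (nat_lit 9) (.e (nat_lit 333) (nat_lit 26) (.e (nat_lit 376867) (nat_lit 23) (.e (nat_lit 98363) (nat_lit 26) (.e (nat_lit 426447) (nat_lit 20) (.e (nat_lit 114714) (nat_lit 22) .nil)))))) (.g (nat_lit 0) .nil .nil))))))))) (.nd (nat_lit 1) (.nd (nat_lit 2) (.nd (nat_lit 3) (.nd (nat_lit 4) (.nd (nat_lit 5) (.nd (nat_lit 6) 
(.lf (nat_lit 213121) (.g (nat_lit 2211) (.e (nat_lit 98048) (nat_lit 6) (.e (nat_lit 81956) (nat_lit 23) (.e (nat_lit 98356) (nat_lit 26) (.e (nat_lit 426422) (nat_lit 16) (.e (nat_lit 57724) (nat_lit 181) .nil))))) .nil)) 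
(.lf (nat_lit 213185) (.g (nat_lit 370) (.e (nat_lit 98048) (nat_lit 8) (.e (nat_lit 131127) (nat_lit 13) (.e (nat_lit 393226) (nat_lit 9) (.e (nat_lit 336356) (nat_lit 24) (.e (nat_lit 270080) (nat_lit 0) .nil))))) .nil))) (.nd (nat_lit 6) 
(.lf (nat_lit 213153) (.g (nat_lit 1018) (.e (nat_lit 98048) (nat_lit 6) (.e (nat_lit 81956) (nat_lit 23) (.e (nat_lit 98378) (nat_lit 30) .nil))) .nil)) 
(.lf (nat_lit 213217) (.g (nat_lit 1158) (.e (nat_lit 90121) (nat_lit 9) (.e (nat_lit 3098) (nat_lit 192) (.e (nat_lit 491549) (nat_lit 9) (.e (nat_lit 336306) (nat_lit 15) .nil)))) .nil)))) (.nd (nat_lit 5) (.nd (nat_lit 6) 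
(.lf (nat_lit 213137) (.g (nat_lit 1834) (.e (nat_lit 98048) (nat_lit 6) (.e (nat_lit 81956) (nat_lit 23) (.e (nat_lit 98367) (nat_lit 27) (.e (nat_lit 434208) (nat_lit 18) (.e (nat_lit 5117) (nat_lit 292) .nil))))) .nil)) 
(.lf (nat_lit 213201) (.g (nat_lit 1162) (.e (nat_lit 90121) (nat_lit 9) (.e (nat_lit 324) (nat_lit 24) (.e (nat_lit 360466) (nat_lit 3) (.e (nat_lit 516146) (nat_lit 9) (.e (nat_lit 433920) (nat_lit 20) .nil))))) .nil))) (.nd (nat_lit 6) 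
(.lf (nat_lit 213169) (.g (nat_lit 1613) (.e (nat_lit 98048) (nat_lit 8) (.e (nat_lit 131116) (nat_lit 9) (.e (nat_lit 336004) (nat_lit 2) (.e (nat_lit 90172) (nat_lit 14) (.e (nat_lit 180233) (nat_lit 0) .nil))))) .nil)) 
(.lf (nat_lit 213233) (.g (nat_lit 1673) (.e (nat_lit 90123) (nat_lit 9) (.e (nat_lit 242) (nat_lit 21) (.e (nat_lit 336078) (nat_lit 9) (.e (nat_lit 336454) (nat_lit 34) (.e (nat_lit 483365) (nat_lit 18) .nil))))) .nil))))) (.nd (nat_lit 4) (.nd (nat_lit 5) (.nd (nat_lit 6) 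
(.lf (nat_lit 213129) (.g (nat_lit 1597) (.e (nat_lit 98048) (nat_lit 6) (.e (nat_lit 81956) (nat_lit 23) (.e (nat_lit 98359) (nat_lit 26) (.e (nat_lit 426365) (nat_lit 15) .nil)))) .nil)) 
(.lf (nat_lit 213193) (.g (nat_lit 2989) (.e (nat_lit 90121) (nat_lit 9) (.e (nat_lit 214) (nat_lit 19) (.e (nat_lit 319505) (nat_lit 10) (.e (nat_lit 618) (nat_lit 48) (.e (nat_lit 557105) (nat_lit 14) .nil))))) .nil))) (.nd (nat_lit 6) 
(.lf (nat_lit 213161) (.g (nat_lit 2320) (.e (nat_lit 98048) (nat_lit 6) (.e (nat_lit 81956) (nat_lit 23) (.e (nat_lit 98384) (nat_lit 32) (.e (nat_lit 475193) (nat_lit 38) (.e (nat_lit 696064) (nat_lit 13) .nil))))) .nil)) 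
(.lf (nat_lit 213225) (.g (nat_lit 904) (.e (nat_lit 90122) (nat_lit 9) (.e (nat_lit 321) (nat_lit 24) (.e (nat_lit 360467) (nat_lit 3) (.e (nat_lit 516180) (nat_lit 15) .nil)))) .nil)))) (.nd (nat_lit 5) (.nd (nat_lit 6) 
(.lf (nat_lit 213145) (.g (nat_lit 1817) (.e (nat_lit 98048) (nat_lit 6) (.e (nat_lit 81956) (nat_lit 23) (.e (nat_lit 98367) (nat_lit 27) (.e (nat_lit 434269) (nat_lit 36) (.e (nat_lit 639009) (nat_lit 13) .nil))))) .nil)) 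
(.lf (nat_lit 213209) (.g (nat_lit 2173) (.e (nat_lit 90121) (nat_lit 9) (.e (nat_lit 2610) (nat_lit 163) (.e (nat_lit 164402) (nat_lit 256) (.e (nat_lit 57371) (nat_lit 2) (.e (nat_lit 90174) (nat_lit 14) .nil))))) .nil))) (.nd (nat_lit 6) 
(.lf (nat_lit 213177) (.g (nat_lit 2119) (.e (nat_lit 98048) (nat_lit 8) (.e (nat_lit 131116) (nat_lit 9) (.e (nat_lit 336012) (nat_lit 2) (.e (nat_lit 90172) (nat_lit 14) (.e (nat_lit 180259) (nat_lit 17) .nil))))) .nil)) 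
(.lf (nat_lit 213241) (.g (nat_lit 973) (.e (nat_lit 90124) (nat_lit 9) (.e (nat_lit 333) (nat_lit 26) (.e (nat_lit 376867) (nat_lit 23) (.e (nat_lit 98365) (nat_lit 26) (.e (nat_lit 433920) (nat_lit 20) .nil))))) .nil)))))) (.nd (nat_lit 3) (.nd (nat_lit 4) (.nd (nat_lit 5) (.nd (nat_lit 6) 
(.lf (nat_lit 213125) (.g (nat_lit 2219) (.e (nat_lit 98048) (nat_lit 6) (.e (nat_lit 81956) (nat_lit 23) (.e (nat_lit 98356) (nat_lit 26) (.e (nat_lit 426422) (nat_lit 16) (.e (nat_lit 57730) (nat_lit 181) .nil))))) .nil)) 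
(.lf (nat_lit 213189) (.g (nat_lit 279) (.e (nat_lit 98048) (nat_lit 8) (.e (nat_lit 131127) (nat_lit 13) (.e (nat_lit 401152) (nat_lit 15) (.e (nat_lit 385096) (nat_lit 49) (.e (nat_lit 786176) (nat_lit 0) .nil))))) .nil))) (.nd (nat_lit 6) 
(.lf (nat_lit 213157) (.g (nat_lit 2462) (.e (nat_lit 98048) (nat_lit 6) (.e (nat_lit 81956) (nat_lit 23) (.e (nat_lit 98384) (nat_lit 32) (.e (nat_lit 483072) (nat_lit 21) .nil)))) .nil)) 
(.lf (nat_lit 213221) (.g (nat_lit 356) (.e (nat_lit 90122) (nat_lit 9) (.e (nat_lit 321) (nat_lit 24) (.e (nat_lit 360467) (nat_lit 3) .nil))) .nil)))) (.nd (nat_lit 5) (.nd (nat_lit 6) 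
(.lf (nat_lit 213141) (.g (nat_lit 1461) (.e (nat_lit 98048) (nat_lit 6) (.e (nat_lit 81956) (nat_lit 23) (.e (nat_lit 98367) (nat_lit 27) (.e (nat_lit 434268) (nat_lit 36) .nil)))) .nil)) 
(.lf (nat_lit 213205) (.g (nat_lit 764) (.e (nat_lit 90121) (nat_lit 9) (.e (nat_lit 334) (nat_lit 26) (.e (nat_lit 376867) (nat_lit 23) (.e (nat_lit 98365) (nat_lit 26) .nil)))) .nil))) (.nd (nat_lit 6) 
(.lf (nat_lit 213173) (.g (nat_lit 2084) (.e (nat_lit 98048) (nat_lit 8) (.e (nat_lit 131116) (nat_lit 9) (.e (nat_lit 336004) (nat_lit 2) (.e (nat_lit 90185) (nat_lit 17) (.e (nat_lit 237584) (nat_lit 1) .nil))))) .nil)) 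
(.lf (nat_lit 213237) (.g (nat_lit 1240) (.e (nat_lit 90123) (nat_lit 9) (.e (nat_lit 324) (nat_lit 24) (.e (nat_lit 360466) (nat_lit 3) (.e (nat_lit 516179) (nat_lit 15) (.e (nat_lit 475212) (nat_lit 42) .nil))))) .nil))))) (.nd (nat_lit 4) (.nd (nat_lit 5) (.nd (nat_lit 6) 
(.lf (nat_lit 213133) (.g (nat_lit 1035) (.e (nat_lit 98048) (nat_lit 6) (.e (nat_lit 81956) (nat_lit 23) (.e (nat_lit 98366) (nat_lit 27) (.e (nat_lit 434269) (nat_lit 36) .nil)))) .nil)) 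
(.lf (nat_lit 213197) (.g (nat_lit 1397) (.e (nat_lit 90121) (nat_lit 9) (.e (nat_lit 283) (nat_lit 21) (.e (nat_lit 336076) (nat_lit 9) (.e (nat_lit 336454) (nat_lit 34) (.e (nat_lit 483366) (nat_lit 18) .nil))))) .nil))) (.nd (nat_lit 6) 
(.lf (nat_lit 213165) (.g (nat_lit 1952) (.e (nat_lit 98048) (nat_lit 6) (.e (nat_lit 81956) (nat_lit 23) (.e (nat_lit 98389) (nat_lit 33) (.e (nat_lit 491573) (nat_lit 15) .nil)))) .nil)) 
(.lf (nat_lit 213229) (.g (nat_lit 738) (.e (nat_lit 90122) (nat_lit 9) (.e (nat_lit 333) (nat_lit 26) (.e (nat_lit 376869) (nat_lit 23) (.e (nat_lit 98363) (nat_lit 26) (.e (nat_lit 433920) (nat_lit 20) .nil))))) .nil)))) (.nd (nat_lit 5) (.nd (nat_lit 6) 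
(.lf (nat_lit 213149) (.g (nat_lit 1948) (.e (nat_lit 98048) (nat_lit 6) (.e (nat_lit 81956) (nat_lit 23) (.e (nat_lit 98368) (nat_lit 27) (.e (nat_lit 434266) (nat_lit 35) .nil)))) .nil)) 
(.lf (nat_lit 213213) (.g (nat_lit 2412) (.e (nat_lit 90121) (nat_lit 9) (.e (nat_lit 2610) (nat_lit 163) (.e (nat_lit 164403) (nat_lit 256) (.e (nat_lit 57378) (nat_lit 3) (.e (nat_lit 98377) (nat_lit 30) .nil))))) .nil))) (.nd (nat_lit 6) 
(.lf (nat_lit 213181) (.g (nat_lit 2108) (.e (nat_lit 98048) (nat_lit 8) (.e (nat_lit 131116) (nat_lit 9) (.e (nat_lit 336012) (nat_lit 2) (.e (nat_lit 90174) (nat_lit 14) (.e (nat_lit 180259) (nat_lit 17) .nil))))) .nil)) 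
(.lf (nat_lit 213245) (.g (nat_lit 1139) (.e (nat_lit 90125) (nat_lit 9) (.e (nat_lit 333) (nat_lit 26) (.e (nat_lit 376867) (nat_lit 23) (.e (nat_lit 98363) (nat_lit 26) (.e (nat_lit 426445) (nat_lit 20) (.e (nat_lit 114716) (nat_lit 22) .nil)))))) (.g (nat_lit 0) .nil .nil)))))))) (.nd (nat_lit 2) (.nd (nat_lit 3) (.nd (nat_lit 4) (.nd (nat_lit 5) (.nd (nat_lit 6) 
(.lf (nat_lit 213123) (.g (nat_lit 2216) (.e (nat_lit 98048) (nat_lit 6) (.e (nat_lit 81956) (nat_lit 23) (.e (nat_lit 98356) (nat_lit 26) (.e (nat_lit 426422) (nat_lit 16) (.e (nat_lit 57726) (nat_lit 181) .nil))))) .nil)) 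
(.lf (nat_lit 213187) (.g (nat_lit 200) (.e (nat_lit 98048) (nat_lit 8) (.e (nat_lit 131127) (nat_lit 13) (.e (nat_lit 401152) (nat_lit 9) (.e (nat_lit 336356) (nat_lit 24) (.e (nat_lit 270080) (nat_lit 0) .nil))))) .nil))) (.nd (nat_lit 6) 
(.lf (nat_lit 213155) (.g (nat_lit 2374) (.e (nat_lit 98048) (nat_lit 6) (.e (nat_lit 81956) (nat_lit 23) (.e (nat_lit 98384) (nat_lit 32) (.e (nat_lit 475155) (nat_lit 21) .nil)))) .nil)) 
(.lf (nat_lit 213219) (.g (nat_lit 2672) (.e (nat_lit 90122) (nat_lit 9) (.e (nat_lit 232) (nat_lit 21) (.e (nat_lit 336013) (nat_lit 2) (.e (nat_lit 90134) (nat_lit 9) (.e (nat_lit 290) (nat_lit 21) .nil))))) .nil)))) (.nd (nat_lit 5) (.nd (nat_lit 6) 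
(.lf (nat_lit 213139) (.g (nat_lit 1619) (.e (nat_lit 98048) (nat_lit 6) (.e (nat_lit 81956) (nat_lit 23) (.e (nat_lit 98367) (nat_lit 27) (.e (nat_lit 434266) (nat_lit 35) .nil)))) .nil)) 
(.lf (nat_lit 213203) (.g (nat_lit 951) (.e (nat_lit 90121) (nat_lit 9) (.e (nat_lit 334) (nat_lit 26) (.e (nat_lit 376865) (nat_lit 22) (.e (nat_lit 90167) (nat_lit 13) .nil)))) .nil))) (.nd (nat_lit 6) 
(.lf (nat_lit 213171) (.g (nat_lit 1875) (.e (nat_lit 98048) (nat_lit 8) (.e (nat_lit 131116) (nat_lit 9) (.e (nat_lit 336004) (nat_lit 2) (.e (nat_lit 90172) (nat_lit 14) (.e (nat_lit 180259) (nat_lit 17) .nil))))) .nil)) 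
(.lf (nat_lit 213235) (.g (nat_lit 828) (.e (nat_lit 90123) (nat_lit 9) (.e (nat_lit 321) (nat_lit 24) (.e (nat_lit 360467) (nat_lit 3) (.e (nat_lit 516180) (nat_lit 15) .nil)))) .nil))))) (.nd (nat_lit 4) (.nd (nat_lit 5) (.nd (nat_lit 6) 
(.lf (nat_lit 213131) (.g (nat_lit 1054) (.e (nat_lit 98048) (nat_lit 6) (.e (nat_lit 81956) (nat_lit 23) (.e (nat_lit 98365) (nat_lit 26) .nil))) .nil)) 
(.lf (nat_lit 213195) (.g (nat_lit 1099) (.e (nat_lit 90121) (nat_lit 9) (.e (nat_lit 249) (nat_lit 21) (.e (nat_lit 336215) (nat_lit 13) (.e (nat_lit 393229) (nat_lit 9) .nil)))) .nil))) (.nd (nat_lit 6) 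
(.lf (nat_lit 213163) (.g (nat_lit 1448) (.e (nat_lit 98048) (nat_lit 6) (.e (nat_lit 81956) (nat_lit 23) (.e (nat_lit 98385) (nat_lit 32) (.e (nat_lit 475193) (nat_lit 38) .nil)))) .nil)) 
(.lf (nat_lit 213227) (.g (nat_lit 1461) (.e (nat_lit 90122) (nat_lit 9) (.e (nat_lit 333) (nat_lit 26) (.e (nat_lit 376867) (nat_lit 23) (.e (nat_lit 98385) (nat_lit 32) (.e (nat_lit 475214) (nat_lit 42) (.e (nat_lit 720937) (nat_lit 22) .nil)))))) (.g (nat_lit 6) .nil .nil))))) (.nd (nat_lit 5) (.nd (nat_lit 6) 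
(.lf (nat_lit 213147) (.g (nat_lit 1980) (.e (nat_lit 98048) (nat_lit 6) (.e (nat_lit 81956) (nat_lit 23) (.e (nat_lit 98367) (nat_lit 27) (.e (nat_lit 434275) (nat_lit 39) (.e (nat_lit 663574) (nat_lit 9) .nil))))) .nil)) 
(.lf (nat_lit 213211) (.g (nat_lit 2326) (.e (nat_lit 90121) (nat_lit 9) (.e (nat_lit 2610) (nat_lit 163) (.e (nat_lit 164403) (nat_lit 256) (.e (nat_lit 57371) (nat_lit 2) (.e (nat_lit 90174) (nat_lit 14) .nil))))) .nil))) (.nd (nat_lit 6) 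
(.lf (nat_lit 213179) (.g (nat_lit 2108) (.e (nat_lit 98048) (nat_lit 8) (.e (nat_lit 131116) (nat_lit 9) (.e (nat_lit 336012) (nat_lit 2) (.e (nat_lit 90174) (nat_lit 14) (.e (nat_lit 180224) (nat_lit 0) .nil))))) .nil)) 
(.lf (nat_lit 213243) (.g (nat_lit 1443) (.e (nat_lit 90125) (nat_lit 9) (.e (nat_lit 124) (nat_lit 5) (.e (nat_lit 114714) (nat_lit 22) (.e (nat_lit 90185) (nat_lit 17) (.e (nat_lit 237590) (nat_lit 2) .nil))))) .nil)))))) (.nd (nat_lit 3) (.nd (nat_lit 4) (.nd (nat_lit 5) (.nd (nat_lit 6) 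
(.lf (nat_lit 213127) (.g (nat_lit 971) (.e (nat_lit 98048) (nat_lit 6) (.e (nat_lit 81956) (nat_lit 23) (.e (nat_lit 98357) (nat_lit 26) .nil))) .nil)) 
(.lf (nat_lit 213191) (.g (nat_lit 598) (.e (nat_lit 98048) (nat_lit 8) (.e (nat_lit 131127) (nat_lit 13) (.e (nat_lit 401152) (nat_lit 15) (.e (nat_lit 385105) (nat_lit 50) (.e (nat_lit 786455) (nat_lit 17) .nil))))) .nil))) (.nd (nat_lit 6) 
(.lf (nat_lit 213159) (.g (nat_lit 2315) (.e (nat_lit 98048) (nat_lit 6) (.e (nat_lit 81956) (nat_lit 23) (.e (nat_lit 98384) (nat_lit 32) (.e (nat_lit 475193) (nat_lit 38) (.e (nat_lit 688157) (nat_lit 13) .nil))))) .nil)) 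
(.lf (nat_lit 213223) (.g (nat_lit 902) (.e (nat_lit 90122) (nat_lit 9) (.e (nat_lit 321) (nat_lit 24) (.e (nat_lit 360467) (nat_lit 3) (.e (nat_lit 516147) (nat_lit 9) .nil)))) .nil)))) (.nd (nat_lit 5) (.nd (nat_lit 6) 
(.lf (nat_lit 213143) (.g (nat_lit 2464) (.e (nat_lit 98048) (nat_lit 6) (.e (nat_lit 81956) (nat_lit 23) (.e (nat_lit 98367) (nat_lit 27) (.e (nat_lit 434268) (nat_lit 36) (.e (nat_lit 646912) (nat_lit 13) .nil))))) .nil)) 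
(.lf (nat_lit 213207) (.g (nat_lit 795) (.e (nat_lit 90121) (nat_lit 9) (.e (nat_lit 334) (nat_lit 26) (.e (nat_lit 376869) (nat_lit 23) (.e (nat_lit 98365) (nat_lit 26) .nil)))) .nil))) (.nd (nat_lit 6) 
(.lf (nat_lit 213175) (.g (nat_lit 1920) (.e (nat_lit 98048) (nat_lit 8) (.e (nat_lit 131116) (nat_lit 9) (.e (nat_lit 336012) (nat_lit 2) (.e (nat_lit 90172) (nat_lit 14) (.e (nat_lit 180233) (nat_lit 0) .nil))))) .nil)) 
(.lf (nat_lit 213239) (.g (nat_lit 1067) (.e (nat_lit 90124) (nat_lit 9) (.e (nat_lit 333) (nat_lit 26) (.e (nat_lit 376862) (nat_lit 22) (.e (nat_lit 90167) (nat_lit 13) (.e (nat_lit 179968) (nat_lit 20) .nil))))) .nil))))) (.nd (nat_lit 4) (.nd (nat_lit 5) (.nd (nat_lit 6) 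
(.lf (nat_lit 213135) (.g (nat_lit 1852) (.e (nat_lit 98048) (nat_lit 6) (.e (nat_lit 81956) (nat_lit 23) (.e (nat_lit 98367) (nat_lit 27) (.e (nat_lit 434205) (nat_lit 18) .nil)))) .nil)) 
(.lf (nat_lit 213199) (.g (nat_lit 769) (.e (nat_lit 90121) (nat_lit 9) (.e (nat_lit 315) (nat_lit 23) (.e (nat_lit 352315) (nat_lit 23) (.e (nat_lit 98356) (nat_lit 26) .nil)))) .nil))) (.nd (nat_lit 6) 
(.lf (nat_lit 213167) (.g (nat_lit 508) (.e (nat_lit 98048) (nat_lit 6) (.e (nat_lit 81965) (nat_lit 26) (.e (nat_lit 155392) (nat_lit 4) .nil))) .nil)) 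
(.lf (nat_lit 213231) (.g (nat_lit 2819) (.e (nat_lit 90123) (nat_lit 9) (.e (nat_lit 232) (nat_lit 21) (.e (nat_lit 336013) (nat_lit 2) (.e (nat_lit 90156) (nat_lit 11) .nil)))) .nil)))) (.nd (nat_lit 5) (.nd (nat_lit 6) 
(.lf (nat_lit 213151) (.g (nat_lit 2032) (.e (nat_lit 98048) (nat_lit 6) (.e (nat_lit 81956) (nat_lit 23) (.e (nat_lit 98376) (nat_lit 30) (.e (nat_lit 458774) (nat_lit 18) (.e (nat_lit 5046) (nat_lit 292) .nil))))) .nil)) 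
(.lf (nat_lit 213215) (.g (nat_lit 2012) (.e (nat_lit 90121) (nat_lit 9) (.e (nat_lit 2611) (nat_lit 163) (.e (nat_lit 164403) (nat_lit 256) (.e (nat_lit 57378) (nat_lit 3) (.e (nat_lit 98376) (nat_lit 30) .nil))))) .nil))) (.nd (nat_lit 6) 
(.lf (nat_lit 213183) (.g (nat_lit 1142) (.e (nat_lit 98048) (nat_lit 8) (.e (nat_lit 131116) (nat_lit 9) (.e (nat_lit 336021) (nat_lit 3) (.e (nat_lit 98385) (nat_lit 32) .nil)))) .nil)) 
(.lf (nat_lit 213247) (.g (nat_lit 712) (.e (nat_lit 90125) (nat_lit 9) (.e (nat_lit 333) (nat_lit 26) (.e (nat_lit 376867) (nat_lit 23) (.e (nat_lit 98363) (nat_lit 26) (.e (nat_lit 433920) (nat_lit 20) .nil))))) .nil)))))))))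

noncomputable def tv2813 : DT := (.nd (nat_lit 0) (.nd (nat_lit 1) (.nd (nat_lit 2) (.nd (nat_lit 3) (.nd (nat_lit 4) (.nd (nat_lit 5) (.nd (nat_lit 6) 
(.lf (nat_lit 213248) (.g (nat_lit 1109) (.e (nat_lit 90127) (nat_lit 9) (.e (nat_lit 214) (nat_lit 19) (.e (nat_lit 319505) (nat_lit 10) .nil))) .nil)) 
(.lf (nat_lit 213312) (.g (nat_lit 375) (.e (nat_lit 90128) (nat_lit 9) (.e (nat_lit 307) (nat_lit 22) (.e (nat_lit 344107) (nat_lit 19) .nil))) .nil))) (.nd (nat_lit 6) 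
(.lf (nat_lit 213280) (.g (nat_lit 1680) (.e (nat_lit 90128) (nat_lit 9) (.e (nat_lit 232) (nat_lit 21) (.e (nat_lit 336060) (nat_lit 7) (.e (nat_lit 319505) (nat_lit 10) (.e (nat_lit 584) (nat_lit 43) .nil))))) .nil)) 
(.lf (nat_lit 213344) (.g (nat_lit 842) (.e (nat_lit 90128) (nat_lit 9) (.e (nat_lit 324) (nat_lit 24) (.e (nat_lit 360466) (nat_lit 3) (.e (nat_lit 516145) (nat_lit 9) .nil)))) .nil)))) (.nd (nat_lit 5) (.nd (nat_lit 6) 
(.lf (nat_lit 213264) (.g (nat_lit 927) (.e (nat_lit 90127) (nat_lit 9) (.e (nat_lit 334) (nat_lit 26) (.e (nat_lit 376862) (nat_lit 22) (.e (nat_lit 90170) (nat_lit 13) .nil)))) .nil)) 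
(.lf (nat_lit 213328) (.g (nat_lit 821) (.e (nat_lit 90128) (nat_lit 9) (.e (nat_lit 314) (nat_lit 23) (.e (nat_lit 352313) (nat_lit 23) (.e (nat_lit 98363) (nat_lit 26) .nil)))) .nil))) (.nd (nat_lit 6) 
(.lf (nat_lit 213296) (.g (nat_lit 2163) (.e (nat_lit 90128) (nat_lit 9) (.e (nat_lit 275) (nat_lit 21) (.e (nat_lit 336021) (nat_lit 3) (.e (nat_lit 98313) (nat_lit 9) (.e (nat_lit 336021) (nat_lit 3) .nil))))) .nil)) 
(.lf (nat_lit 213360) (.g (nat_lit 1796) (.e (nat_lit 90128) (nat_lit 9) (.e (nat_lit 2706) (nat_lit 170) (.e (nat_lit 221214) (nat_lit 23) (.e (nat_lit 204863) (nat_lit 27) (.e (nat_lit 344118) (nat_lit 21) .nil))))) .nil))))) (.nd (nat_lit 4) (.nd (nat_lit 5) (.nd (nat_lit 6) 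
(.lf (nat_lit 213256) (.g (nat_lit 2501) (.e (nat_lit 90127) (nat_lit 9) (.e (nat_lit 249) (nat_lit 21) (.e (nat_lit 336213) (nat_lit 13) (.e (nat_lit 393225) (nat_lit 9) (.e (nat_lit 335995) (nat_lit 1) .nil))))) .nil)) 
(.lf (nat_lit 213320) (.g (nat_lit 3230) (.e (nat_lit 90128) (nat_lit 9) (.e (nat_lit 307) (nat_lit 22) (.e (nat_lit 344129) (nat_lit 26) (.e (nat_lit 557067) (nat_lit 9) (.e (nat_lit 2878) (nat_lit 184) .nil))))) .nil))) (.nd (nat_lit 6) 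
(.lf (nat_lit 213288) (.g (nat_lit 1363) (.e (nat_lit 90128) (nat_lit 9) (.e (nat_lit 254) (nat_lit 21) (.e (nat_lit 336021) (nat_lit 3) (.e (nat_lit 98313) (nat_lit 9) .nil)))) .nil)) 
(.lf (nat_lit 213352) (.g (nat_lit 1180) (.e (nat_lit 90128) (nat_lit 9) (.e (nat_lit 334) (nat_lit 26) (.e (nat_lit 376867) (nat_lit 23) (.e (nat_lit 98356) (nat_lit 26) (.e (nat_lit 433920) (nat_lit 20) .nil))))) .nil)))) (.nd (nat_lit 5) (.nd (nat_lit 6) 
(.lf (nat_lit 213272) (.g (nat_lit 517) (.e (nat_lit 90128) (nat_lit 9) (.e (nat_lit 232) (nat_lit 21) (.e (nat_lit 336013) (nat_lit 2) .nil))) .nil)) 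
(.lf (nat_lit 213336) (.g (nat_lit 882) (.e (nat_lit 90128) (nat_lit 9) (.e (nat_lit 321) (nat_lit 24) (.e (nat_lit 360466) (nat_lit 3) (.e (nat_lit 516144) (nat_lit 9) .nil)))) .nil))) (.nd (nat_lit 6) 
(.lf (nat_lit 213304) (.g (nat_lit 2119) (.e (nat_lit 90128) (nat_lit 9) (.e (nat_lit 297) (nat_lit 22) (.e (nat_lit 344133) (nat_lit 26) (.e (nat_lit 557098) (nat_lit 13) (.e (nat_lit 172067) (nat_lit 3) .nil))))) .nil)) 
(.lf (nat_lit 213368) (.g (nat_lit 2194) (.e (nat_lit 90130) (nat_lit 9) (.e (nat_lit 214) (nat_lit 19) (.e (nat_lit 319505) (nat_lit 10) (.e (nat_lit 584) (nat_lit 43) (.e (nat_lit 516131) (nat_lit 3) .nil))))) .nil)))))) (.nd (nat_lit 3) (.nd (nat_lit 4) (.nd (nat_lit 5) (.nd (nat_lit 6) 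
(.lf (nat_lit 213252) (.g (nat_lit 1578) (.e (nat_lit 90127) (nat_lit 9) (.e (nat_lit 247) (nat_lit 21) (.e (nat_lit 336076) (nat_lit 9) (.e (nat_lit 336454) (nat_lit 34) (.e (nat_lit 483365) (nat_lit 18) .nil))))) .nil)) 
(.lf (nat_lit 213316) (.g (nat_lit 2567) (.e (nat_lit 90128) (nat_lit 9) (.e (nat_lit 307) (nat_lit 22) (.e (nat_lit 344117) (nat_lit 21) (.e (nat_lit 516130) (nat_lit 3) (.e (nat_lit 221212) (nat_lit 22) .nil))))) .nil))) (.nd (nat_lit 6) 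
(.lf (nat_lit 213284) (.g (nat_lit 511) (.e (nat_lit 90128) (nat_lit 9) (.e (nat_lit 232) (nat_lit 21) (.e (nat_lit 336224) (nat_lit 13) .nil))) .nil)) 
(.lf (nat_lit 213348) (.g (nat_lit 1975) (.e (nat_lit 90128) (nat_lit 9) (.e (nat_lit 334) (nat_lit 26) (.e (nat_lit 376862) (nat_lit 22) (.e (nat_lit 90185) (nat_lit 17) (.e (nat_lit 237582) (nat_lit 1) (.e (nat_lit 164330) (nat_lit 230) (.e (nat_lit 171776) (nat_lit 63) .nil))))))) (.g (nat_lit 4) .nil .nil))))) (.nd (nat_lit 5) (.nd (nat_lit 6) 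
(.lf (nat_lit 213268) (.g (nat_lit 2940) (.e (nat_lit 90127) (nat_lit 9) (.e (nat_lit 2830) (nat_lit 182) (.e (nat_lit 409648) (nat_lit 18) (.e (nat_lit 303118) (nat_lit 3) (.e (nat_lit 204877) (nat_lit 31) .nil))))) .nil)) 
(.lf (nat_lit 213332) (.g (nat_lit 1576) (.e (nat_lit 90128) (nat_lit 9) (.e (nat_lit 314) (nat_lit 23) (.e (nat_lit 352315) (nat_lit 23) (.e (nat_lit 98356) (nat_lit 26) (.e (nat_lit 426361) (nat_lit 15) .nil))))) .nil))) (.nd (nat_lit 6) 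
(.lf (nat_lit 213300) (.g (nat_lit 2331) (.e (nat_lit 90128) (nat_lit 9) (.e (nat_lit 297) (nat_lit 22) (.e (nat_lit 344133) (nat_lit 26) (.e (nat_lit 557098) (nat_lit 13) (.e (nat_lit 172062) (nat_lit 2) .nil))))) .nil)) 
(.lf (nat_lit 213364) (.g (nat_lit 1872) (.e (nat_lit 90129) (nat_lit 9) (.e (nat_lit 214) (nat_lit 19) (.e (nat_lit 319505) (nat_lit 10) (.e (nat_lit 584) (nat_lit 43) .nil)))) .nil))))) (.nd (nat_lit 4) (.nd (nat_lit 5) (.nd (nat_lit 6) 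
(.lf (nat_lit 213260) (.g (nat_lit 1228) (.e (nat_lit 90127) (nat_lit 9) (.e (nat_lit 312) (nat_lit 23) (.e (nat_lit 352277) (nat_lit 11) (.e (nat_lit 426500) (nat_lit 27) (.e (nat_lit 335996) (nat_lit 1) .nil))))) .nil)) 
(.lf (nat_lit 213324) (.g (nat_lit 2260) (.e (nat_lit 90128) (nat_lit 9) (.e (nat_lit 307) (nat_lit 22) (.e (nat_lit 344160) (nat_lit 37) (.e (nat_lit 647195) (nat_lit 9) (.e (nat_lit 1181) (nat_lit 87) .nil))))) .nil))) (.nd (nat_lit 6) 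
(.lf (nat_lit 213292) (.g (nat_lit 457) (.e (nat_lit 90128) (nat_lit 9) (.e (nat_lit 268) (nat_lit 21) (.e (nat_lit 336102) (nat_lit 9) .nil))) .nil)) 
(.lf (nat_lit 213356) (.g (nat_lit 1249) (.e (nat_lit 90128) (nat_lit 9) (.e (nat_lit 334) (nat_lit 26) (.e (nat_lit 376869) (nat_lit 23) (.e (nat_lit 98356) (nat_lit 26) (.e (nat_lit 426361) (nat_lit 15) .nil))))) .nil)))) (.nd (nat_lit 5) (.nd (nat_lit 6) 
(.lf (nat_lit 213276) (.g (nat_lit 4804) (.e (nat_lit 90128) (nat_lit 9) (.e (nat_lit 232) (nat_lit 21) (.e (nat_lit 336013) (nat_lit 2) (.e (nat_lit 90157) (nat_lit 11) (.e (nat_lit 24607) (nat_lit 3) .nil))))) .nil)) 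
(.lf (nat_lit 213340) (.g (nat_lit 1422) (.e (nat_lit 90128) (nat_lit 9) (.e (nat_lit 321) (nat_lit 24) (.e (nat_lit 360466) (nat_lit 3) (.e (nat_lit 516180) (nat_lit 15) (.e (nat_lit 475212) (nat_lit 42) .nil))))) .nil))) (.nd (nat_lit 6) 
(.lf (nat_lit 213308) (.g (nat_lit 5484) (.e (nat_lit 90128) (nat_lit 9) (.e (nat_lit 297) (nat_lit 22) (.e (nat_lit 344133) (nat_lit 26) (.e (nat_lit 557103) (nat_lit 14) (.e (nat_lit 180250) (nat_lit 10) (.e (nat_lit 573474) (nat_lit 12) (.e (nat_lit 57354) (nat_lit 0) (.e (nat_lit 5194) (nat_lit 294) (.e (nat_lit 57372) (nat_lit 2) .nil))))))))) (.g (nat_lit 7) .nil .nil))) 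
(.lf (nat_lit 213372) (.g (nat_lit 1124) (.e (nat_lit 90130) (nat_lit 9) (.e (nat_lit 247) (nat_lit 21) (.e (nat_lit 336215) (nat_lit 13) (.e (nat_lit 393229) (nat_lit 9) .nil)))) .nil))))))) (.nd (nat_lit 2) (.nd (nat_lit 3) (.nd (nat_lit 4) (.nd (nat_lit 5) (.nd (nat_lit 6) 
(.lf (nat_lit 213250) (.g (nat_lit 1453) (.e (nat_lit 90127) (nat_lit 9) (.e (nat_lit 232) (nat_lit 21) (.e (nat_lit 336060) (nat_lit 7) (.e (nat_lit 319505) (nat_lit 10) .nil)))) .nil)) 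
(.lf (nat_lit 213314) (.g (nat_lit 2631) (.e (nat_lit 90128) (nat_lit 9) (.e (nat_lit 307) (nat_lit 22) (.e (nat_lit 344117) (nat_lit 21) (.e (nat_lit 516129) (nat_lit 3) (.e (nat_lit 221215) (nat_lit 23) .nil))))) .nil))) (.nd (nat_lit 6) 
(.lf (nat_lit 213282) (.g (nat_lit 2121) (.e (nat_lit 90128) (nat_lit 9) (.e (nat_lit 232) (nat_lit 21) (.e (nat_lit 336089) (nat_lit 9) (.e (nat_lit 336456) (nat_lit 34) (.e (nat_lit 483363) (nat_lit 18) .nil))))) .nil)) 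
(.lf (nat_lit 213346) (.g (nat_lit 1444) (.e (nat_lit 90128) (nat_lit 9) (.e (nat_lit 324) (nat_lit 24) (.e (nat_lit 360466) (nat_lit 3) (.e (nat_lit 516150) (nat_lit 9) (.e (nat_lit 426449) (nat_lit 20) .nil))))) .nil)))) (.nd (nat_lit 5) (.nd (nat_lit 6) 
(.lf (nat_lit 213266) (.g (nat_lit 940) (.e (nat_lit 90127) (nat_lit 9) (.e (nat_lit 334) (nat_lit 26) (.e (nat_lit 376867) (nat_lit 23) (.e (nat_lit 98385) (nat_lit 32) (.e (nat_lit 475212) (nat_lit 42) .nil))))) .nil)) 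
(.lf (nat_lit 213330) (.g (nat_lit 313) (.e (nat_lit 90128) (nat_lit 9) (.e (nat_lit 314) (nat_lit 23) (.e (nat_lit 352315) (nat_lit 23) .nil))) .nil))) (.nd (nat_lit 6) 
(.lf (nat_lit 213298) (.g (nat_lit 1389) (.e (nat_lit 90128) (nat_lit 9) (.e (nat_lit 297) (nat_lit 22) (.e (nat_lit 344132) (nat_lit 26) (.e (nat_lit 557105) (nat_lit 14) (.e (nat_lit 180251) (nat_lit 10) .nil))))) .nil)) 
(.lf (nat_lit 213362) (.g (nat_lit 1866) (.e (nat_lit 90128) (nat_lit 9) (.e (nat_lit 2706) (nat_lit 170) (.e (nat_lit 221215) (nat_lit 23) (.e (nat_lit 204863) (nat_lit 27) (.e (nat_lit 344118) (nat_lit 21) .nil))))) .nil))))) (.nd (nat_lit 4) (.nd (nat_lit 5) (.nd (nat_lit 6) 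
(.lf (nat_lit 213258) (.g (nat_lit 1183) (.e (nat_lit 90127) (nat_lit 9) (.e (nat_lit 251) (nat_lit 21) (.e (nat_lit 336076) (nat_lit 9) (.e (nat_lit 336454) (nat_lit 34) .nil)))) .nil)) 
(.lf (nat_lit 213322) (.g (nat_lit 2515) (.e (nat_lit 90128) (nat_lit 9) (.e (nat_lit 307) (nat_lit 22) (.e (nat_lit 344129) (nat_lit 26) (.e (nat_lit 557097) (nat_lit 13) (.e (nat_lit 172064) (nat_lit 2) .nil))))) .nil))) (.nd (nat_lit 6) 
(.lf (nat_lit 213290) (.g (nat_lit 1520) (.e (nat_lit 90128) (nat_lit 9) (.e (nat_lit 268) (nat_lit 21) (.e (nat_lit 336089) (nat_lit 9) (.e (nat_lit 336456) (nat_lit 34) (.e (nat_lit 483365) (nat_lit 18) .nil))))) .nil)) 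
(.lf (nat_lit 213354) (.g (nat_lit 1698) (.e (nat_lit 90128) (nat_lit 9) (.e (nat_lit 334) (nat_lit 26) (.e (nat_lit 376867) (nat_lit 23) (.e (nat_lit 98384) (nat_lit 32) (.e (nat_lit 475214) (nat_lit 42) (.e (nat_lit 728832) (nat_lit 22) .nil)))))) (.g (nat_lit 5) .nil .nil))))) (.nd (nat_lit 5) (.nd (nat_lit 6) 
(.lf (nat_lit 213274) (.g (nat_lit 2843) (.e (nat_lit 90128) (nat_lit 9) (.e (nat_lit 232) (nat_lit 21) (.e (nat_lit 336013) (nat_lit 2) (.e (nat_lit 90156) (nat_lit 11) .nil)))) .nil)) 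
(.lf (nat_lit 213338) (.g (nat_lit 1816) (.e (nat_lit 90128) (nat_lit 9) (.e (nat_lit 321) (nat_lit 24) (.e (nat_lit 360466) (nat_lit 3) (.e (nat_lit 516150) (nat_lit 9) (.e (nat_lit 426448) (nat_lit 20) .nil))))) .nil))) (.nd (nat_lit 6) 
(.lf (nat_lit 213306) (.g (nat_lit 1223) (.e (nat_lit 90128) (nat_lit 9) (.e (nat_lit 297) (nat_lit 22) (.e (nat_lit 344133) (nat_lit 26) (.e (nat_lit 557103) (nat_lit 14) .nil)))) .nil)) 
(.lf (nat_lit 213370) (.g (nat_lit 2989) (.e (nat_lit 90130) (nat_lit 9) (.e (nat_lit 214) (nat_lit 19) (.e (nat_lit 319505) (nat_lit 10) (.e (nat_lit 618) (nat_lit 48) (.e (nat_lit 557105) (nat_lit 14) .nil))))) .nil)))))) (.nd (nat_lit 3) (.nd (nat_lit 4) (.nd (nat_lit 5) (.nd (nat_lit 6) 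
(.lf (nat_lit 213254) (.g (nat_lit 2130) (.e (nat_lit 90127) (nat_lit 9) (.e (nat_lit 248) (nat_lit 21) (.e (nat_lit 336021) (nat_lit 3) (.e (nat_lit 98313) (nat_lit 9) (.e (nat_lit 336027) (nat_lit 3) .nil))))) .nil)) 
(.lf (nat_lit 213318) (.g (nat_lit 2413) (.e (nat_lit 90128) (nat_lit 9) (.e (nat_lit 307) (nat_lit 22) (.e (nat_lit 344117) (nat_lit 21) (.e (nat_lit 516130) (nat_lit 3) (.e (nat_lit 221215) (nat_lit 23) .nil))))) .nil))) (.nd (nat_lit 6) 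
(.lf (nat_lit 213286) (.g (nat_lit 1333) (.e (nat_lit 90128) (nat_lit 9) (.e (nat_lit 234) (nat_lit 21) (.e (nat_lit 336211) (nat_lit 13) (.e (nat_lit 393225) (nat_lit 9) (.e (nat_lit 335988) (nat_lit 1) .nil))))) .nil)) 
(.lf (nat_lit 213350) (.g (nat_lit 2058) (.e (nat_lit 90128) (nat_lit 9) (.e (nat_lit 334) (nat_lit 26) (.e (nat_lit 376865) (nat_lit 22) (.e (nat_lit 90185) (nat_lit 17) (.e (nat_lit 237582) (nat_lit 1) (.e (nat_lit 164330) (nat_lit 230) (.e (nat_lit 171776) (nat_lit 63) .nil))))))) (.g (nat_lit 5) .nil .nil))))) (.nd (nat_lit 5) (.nd (nat_lit 6) 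
(.lf (nat_lit 213270) (.g (nat_lit 2022) (.e (nat_lit 90127) (nat_lit 9) (.e (nat_lit 3098) (nat_lit 192) (.e (nat_lit 491571) (nat_lit 13) (.e (nat_lit 393231) (nat_lit 17) (.e (nat_lit 3555) (nat_lit 220) .nil))))) .nil)) 
(.lf (nat_lit 213334) (.g (nat_lit 1876) (.e (nat_lit 90128) (nat_lit 9) (.e (nat_lit 314) (nat_lit 23) (.e (nat_lit 352315) (nat_lit 23) (.e (nat_lit 98356) (nat_lit 26) (.e (nat_lit 433920) (nat_lit 20) (.e (nat_lit 114716) (nat_lit 22) .nil)))))) (.g (nat_lit 4) .nil .nil)))) (.nd (nat_lit 6) 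
(.lf (nat_lit 213302) (.g (nat_lit 2275) (.e (nat_lit 90128) (nat_lit 9) (.e (nat_lit 297) (nat_lit 22) (.e (nat_lit 344133) (nat_lit 26) (.e (nat_lit 557098) (nat_lit 13) (.e (nat_lit 172065) (nat_lit 3) .nil))))) .nil)) 
(.lf (nat_lit 213366) (.g (nat_lit 1495) (.e (nat_lit 90129) (nat_lit 9) (.e (nat_lit 353) (nat_lit 29) (.e (nat_lit 401434) (nat_lit 9) (.e (nat_lit 426125) (nat_lit 2) (.e (nat_lit 204544) (nat_lit 1) (.e (nat_lit 8361) (nat_lit 89) (.e (nat_lit 720956) (nat_lit 25) (.e (nat_lit 114716) (nat_lit 22) .nil)))))))) (.g (nat_lit 4) .nil .nil)))))) (.nd (nat_lit 4) (.nd (nat_lit 5) (.nd (nat_lit 6) 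
(.lf (nat_lit 213262) (.g (nat_lit 1426) (.e (nat_lit 90127) (nat_lit 9) (.e (nat_lit 321) (nat_lit 24) (.e (nat_lit 360467) (nat_lit 3) (.e (nat_lit 516146) (nat_lit 9) (.e (nat_lit 426449) (nat_lit 20) .nil))))) .nil)) 
(.lf (nat_lit 213326) (.g (nat_lit 383) (.e (nat_lit 90128) (nat_lit 9) (.e (nat_lit 314) (nat_lit 23) (.e (nat_lit 352307) (nat_lit 21) .nil))) .nil))) (.nd (nat_lit 6) 
(.lf (nat_lit 213294) (.g (nat_lit 1670) (.e (nat_lit 90128) (nat_lit 9) (.e (nat_lit 268) (nat_lit 21) (.e (nat_lit 336224) (nat_lit 13) (.e (nat_lit 393225) (nat_lit 9) (.e (nat_lit 335996) (nat_lit 1) .nil))))) .nil)) 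
(.lf (nat_lit 213358) (.g (nat_lit 1738) (.e (nat_lit 90128) (nat_lit 9) (.e (nat_lit 334) (nat_lit 26) (.e (nat_lit 376869) (nat_lit 23) (.e (nat_lit 98384) (nat_lit 32) (.e (nat_lit 475214) (nat_lit 42) (.e (nat_lit 728832) (nat_lit 22) .nil)))))) (.g (nat_lit 5) .nil .nil))))) (.nd (nat_lit 5) (.nd (nat_lit 6) 
(.lf (nat_lit 213278) (.g (nat_lit 2843) (.e (nat_lit 90128) (nat_lit 9) (.e (nat_lit 232) (nat_lit 21) (.e (nat_lit 336013) (nat_lit 2) (.e (nat_lit 90159) (nat_lit 11) .nil)))) .nil)) 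
(.lf (nat_lit 213342) (.g (nat_lit 1639) (.e (nat_lit 90128) (nat_lit 9) (.e (nat_lit 321) (nat_lit 24) (.e (nat_lit 360467) (nat_lit 3) (.e (nat_lit 516146) (nat_lit 9) (.e (nat_lit 433920) (nat_lit 20) (.e (nat_lit 114714) (nat_lit 22) .nil)))))) (.g (nat_lit 4) .nil .nil)))) (.nd (nat_lit 6) 
(.lf (nat_lit 213310) (.g (nat_lit 2244) (.e (nat_lit 90128) (nat_lit 9) (.e (nat_lit 297) (nat_lit 22) (.e (nat_lit 344133) (nat_lit 26) (.e (nat_lit 557105) (nat_lit 14) (.e (nat_lit 180251) (nat_lit 10) .nil))))) .nil)) 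
(.lf (nat_lit 213374) (.g (nat_lit 1073) (.e (nat_lit 90130) (nat_lit 9) (.e (nat_lit 249) (nat_lit 21) (.e (nat_lit 336215) (nat_lit 13) (.e (nat_lit 401152) (nat_lit 9) .nil)))) .nil)))))))) (.nd (nat_lit 1) (.nd (nat_lit 2) (.nd (nat_lit 3) (.nd (nat_lit 4) (.nd (nat_lit 5) (.nd (nat_lit 6) 
(.lf (nat_lit 213249) (.g (nat_lit 2989) (.e (nat_lit 90127) (nat_lit 9) (.e (nat_lit 214) (nat_lit 19) (.e (nat_lit 319505) (nat_lit 10) (.e (nat_lit 618) (nat_lit 48) (.e (nat_lit 557105) (nat_lit 14) .nil))))) .nil)) 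
(.lf (nat_lit 213313) (.g (nat_lit 2547) (.e (nat_lit 90128) (nat_lit 9) (.e (nat_lit 307) (nat_lit 22) (.e (nat_lit 344117) (nat_lit 21) (.e (nat_lit 516129) (nat_lit 3) (.e (nat_lit 221210) (nat_lit 22) .nil))))) .nil))) (.nd (nat_lit 6) 
(.lf (nat_lit 213281) (.g (nat_lit 1170) (.e (nat_lit 90128) (nat_lit 9) (.e (nat_lit 232) (nat_lit 21) (.e (nat_lit 336089) (nat_lit 9) (.e (nat_lit 336454) (nat_lit 34) .nil)))) .nil)) 
(.lf (nat_lit 213345) (.g (nat_lit 980) (.e (nat_lit 90128) (nat_lit 9) (.e (nat_lit 324) (nat_lit 24) (.e (nat_lit 360466) (nat_lit 3) (.e (nat_lit 516146) (nat_lit 9) (.e (nat_lit 426361) (nat_lit 15) .nil))))) .nil)))) (.nd (nat_lit 5) (.nd (nat_lit 6) 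
(.lf (nat_lit 213265) (.g (nat_lit 854) (.e (nat_lit 90127) (nat_lit 9) (.e (nat_lit 334) (nat_lit 26) (.e (nat_lit 376865) (nat_lit 22) (.e (nat_lit 90170) (nat_lit 13) .nil)))) .nil)) 
(.lf (nat_lit 213329) (.g (nat_lit 860) (.e (nat_lit 90128) (nat_lit 9) (.e (nat_lit 314) (nat_lit 23) (.e (nat_lit 352313) (nat_lit 23) (.e (nat_lit 98365) (nat_lit 26) .nil)))) .nil))) (.nd (nat_lit 6) 
(.lf (nat_lit 213297) (.g (nat_lit 1696) (.e (nat_lit 90128) (nat_lit 9) (.e (nat_lit 297) (nat_lit 22) (.e (nat_lit 344131) (nat_lit 26) (.e (nat_lit 557103) (nat_lit 14) (.e (nat_lit 180250) (nat_lit 10) .nil))))) .nil)) 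
(.lf (nat_lit 213361) (.g (nat_lit 1610) (.e (nat_lit 90128) (nat_lit 9) (.e (nat_lit 2706) (nat_lit 170) (.e (nat_lit 221215) (nat_lit 23) (.e (nat_lit 204862) (nat_lit 27) (.e (nat_lit 344118) (nat_lit 21) .nil))))) .nil))))) (.nd (nat_lit 4) (.nd (nat_lit 5) (.nd (nat_lit 6) 
(.lf (nat_lit 213257) (.g (nat_lit 1307) (.e (nat_lit 90127) (nat_lit 9) (.e (nat_lit 249) (nat_lit 21) (.e (nat_lit 336215) (nat_lit 13) (.e (nat_lit 393227) (nat_lit 9) .nil)))) .nil)) 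
(.lf (nat_lit 213321) (.g (nat_lit 2496) (.e (nat_lit 90128) (nat_lit 9) (.e (nat_lit 307) (nat_lit 22) (.e (nat_lit 344129) (nat_lit 26) (.e (nat_lit 557096) (nat_lit 13) (.e (nat_lit 172064) (nat_lit 2) .nil))))) .nil))) (.nd (nat_lit 6) 
(.lf (nat_lit 213289) (.g (nat_lit 1650) (.e (nat_lit 90128) (nat_lit 9) (.e (nat_lit 268) (nat_lit 21) (.e (nat_lit 336083) (nat_lit 9) (.e (nat_lit 336456) (nat_lit 34) (.e (nat_lit 483365) (nat_lit 18) .nil))))) .nil)) 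
(.lf (nat_lit 213353) (.g (nat_lit 1408) (.e (nat_lit 90128) (nat_lit 9) (.e (nat_lit 334) (nat_lit 26) (.e (nat_lit 376867) (nat_lit 23) (.e (nat_lit 98365) (nat_lit 26) (.e (nat_lit 426010) (nat_lit 0) .nil))))) .nil)))) (.nd (nat_lit 5) (.nd (nat_lit 6) 
(.lf (nat_lit 213273) (.g (nat_lit 3080) (.e (nat_lit 90128) (nat_lit 9) (.e (nat_lit 232) (nat_lit 21) (.e (nat_lit 336013) (nat_lit 2) (.e (nat_lit 90134) (nat_lit 9) (.e (nat_lit 290) (nat_lit 21) (.e (nat_lit 336021) (nat_lit 3) (.e (nat_lit 98317) (nat_lit 9) (.e (nat_lit 336004) (nat_lit 2) .nil)))))))) (.g (nat_lit 4) .nil .nil))) 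
(.lf (nat_lit 213337) (.g (nat_lit 828) (.e (nat_lit 90128) (nat_lit 9) (.e (nat_lit 321) (nat_lit 24) (.e (nat_lit 360466) (nat_lit 3) (.e (nat_lit 516150) (nat_lit 9) .nil)))) .nil))) (.nd (nat_lit 6) 
(.lf (nat_lit 213305) (.g (nat_lit 3815) (.e (nat_lit 90128) (nat_lit 9) (.e (nat_lit 297) (nat_lit 22) (.e (nat_lit 344133) (nat_lit 26) (.e (nat_lit 557098) (nat_lit 13) (.e (nat_lit 172067) (nat_lit 3) (.e (nat_lit 204815) (nat_lit 17) (.e (nat_lit 974) (nat_lit 81) (.e (nat_lit 7261) (nat_lit 384) (.e (nat_lit 57371) (nat_lit 2) .nil))))))))) (.g (nat_lit 5) .nil .nil))) 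
(.lf (nat_lit 213369) (.g (nat_lit 1835) (.e (nat_lit 90130) (nat_lit 9) (.e (nat_lit 214) (nat_lit 19) (.e (nat_lit 319505) (nat_lit 10) (.e (nat_lit 618) (nat_lit 48) .nil)))) .nil)))))) (.nd (nat_lit 3) (.nd (nat_lit 4) (.nd (nat_lit 5) (.nd (nat_lit 6) 
(.lf (nat_lit 213253) (.g (nat_lit 1615) (.e (nat_lit 90127) (nat_lit 9) (.e (nat_lit 247) (nat_lit 21) (.e (nat_lit 336076) (nat_lit 9) (.e (nat_lit 336454) (nat_lit 34) (.e (nat_lit 483366) (nat_lit 18) .nil))))) .nil)) 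
(.lf (nat_lit 213317) (.g (nat_lit 2649) (.e (nat_lit 90128) (nat_lit 9) (.e (nat_lit 307) (nat_lit 22) (.e (nat_lit 344117) (nat_lit 21) (.e (nat_lit 516130) (nat_lit 3) (.e (nat_lit 221214) (nat_lit 23) .nil))))) .nil))) (.nd (nat_lit 6) 
(.lf (nat_lit 213285) (.g (nat_lit 1895) (.e (nat_lit 90128) (nat_lit 9) (.e (nat_lit 232) (nat_lit 21) (.e (nat_lit 336224) (nat_lit 13) (.e (nat_lit 393225) (nat_lit 9) (.e (nat_lit 335995) (nat_lit 1) .nil))))) .nil)) 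
(.lf (nat_lit 213349) (.g (nat_lit 851) (.e (nat_lit 90128) (nat_lit 9) (.e (nat_lit 334) (nat_lit 26) (.e (nat_lit 376864) (nat_lit 22) (.e (nat_lit 90169) (nat_lit 13) (.e (nat_lit 179968) (nat_lit 20) .nil))))) .nil)))) (.nd (nat_lit 5) (.nd (nat_lit 6) 
(.lf (nat_lit 213269) (.g (nat_lit 2763) (.e (nat_lit 90127) (nat_lit 9) (.e (nat_lit 2830) (nat_lit 182) (.e (nat_lit 409649) (nat_lit 18) (.e (nat_lit 303118) (nat_lit 3) (.e (nat_lit 204877) (nat_lit 31) .nil))))) .nil)) 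
(.lf (nat_lit 213333) (.g (nat_lit 1891) (.e (nat_lit 90128) (nat_lit 9) (.e (nat_lit 314) (nat_lit 23) (.e (nat_lit 352315) (nat_lit 23) (.e (nat_lit 98356) (nat_lit 26) (.e (nat_lit 426361) (nat_lit 15) (.e (nat_lit 2206) (nat_lit 144) (.e (nat_lit 720937) (nat_lit 22) .nil))))))) (.g (nat_lit 4) .nil .nil)))) (.nd (nat_lit 6) 
(.lf (nat_lit 213301) (.g (nat_lit 3690) (.e (nat_lit 90128) (nat_lit 9) (.e (nat_lit 297) (nat_lit 22) (.e (nat_lit 344133) (nat_lit 26) (.e (nat_lit 557098) (nat_lit 13) (.e (nat_lit 172064) (nat_lit 2) (.e (nat_lit 196661) (nat_lit 12) (.e (nat_lit 57351) (nat_lit 0) (.e (nat_lit 7261) (nat_lit 384) (.e (nat_lit 57371) (nat_lit 2) .nil))))))))) (.g (nat_lit 5) .nil .nil))) 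
(.lf (nat_lit 213365) (.g (nat_lit 1451) (.e (nat_lit 90129) (nat_lit 9) (.e (nat_lit 249) (nat_lit 21) (.e (nat_lit 336215) (nat_lit 13) (.e (nat_lit 393227) (nat_lit 9) (.e (nat_lit 343808) (nat_lit 1) .nil))))) .nil))))) (.nd (nat_lit 4) (.nd (nat_lit 5) (.nd (nat_lit 6) 
(.lf (nat_lit 213261) (.g (nat_lit 331) (.e (nat_lit 90127) (nat_lit 9) (.e (nat_lit 321) (nat_lit 24) (.e (nat_lit 360466) (nat_lit 3) .nil))) .nil)) 
(.lf (nat_lit 213325) (.g (nat_lit 945) (.e (nat_lit 90128) (nat_lit 9) (.e (nat_lit 314) (nat_lit 23) (.e (nat_lit 352275) (nat_lit 11) (.e (nat_lit 426521) (nat_lit 27) .nil)))) .nil))) (.nd (nat_lit 6) 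
(.lf (nat_lit 213293) (.g (nat_lit 1557) (.e (nat_lit 90128) (nat_lit 9) (.e (nat_lit 268) (nat_lit 21) (.e (nat_lit 336177) (nat_lit 10) (.e (nat_lit 344117) (nat_lit 21) (.e (nat_lit 516147) (nat_lit 9) .nil))))) .nil)) 
(.lf (nat_lit 213357) (.g (nat_lit 1231) (.e (nat_lit 90128) (nat_lit 9) (.e (nat_lit 334) (nat_lit 26) (.e (nat_lit 376869) (nat_lit 23) (.e (nat_lit 98356) (nat_lit 26) (.e (nat_lit 433920) (nat_lit 20) .nil))))) .nil)))) (.nd (nat_lit 5) (.nd (nat_lit 6) 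
(.lf (nat_lit 213277) (.g (nat_lit 2843) (.e (nat_lit 90128) (nat_lit 9) (.e (nat_lit 232) (nat_lit 21) (.e (nat_lit 336013) (nat_lit 2) (.e (nat_lit 90158) (nat_lit 11) .nil)))) .nil)) 
(.lf (nat_lit 213341) (.g (nat_lit 895) (.e (nat_lit 90128) (nat_lit 9) (.e (nat_lit 321) (nat_lit 24) (.e (nat_lit 360467) (nat_lit 3) (.e (nat_lit 516145) (nat_lit 9) .nil)))) .nil))) (.nd (nat_lit 6) 
(.lf (nat_lit 213309) (.g (nat_lit 5356) (.e (nat_lit 90128) (nat_lit 9) (.e (nat_lit 297) (nat_lit 22) (.e (nat_lit 344133) (nat_lit 26) (.e (nat_lit 557103) (nat_lit 14) (.e (nat_lit 180250) (nat_lit 10) (.e (nat_lit 573474) (nat_lit 12) (.e (nat_lit 57354) (nat_lit 0) (.e (nat_lit 5194) (nat_lit 294) (.e (nat_lit 57375) (nat_lit 2) .nil))))))))) (.g (nat_lit 7) .nil .nil))) 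
(.lf (nat_lit 213373) (.g (nat_lit 1298) (.e (nat_lit 90130) (nat_lit 9) (.e (nat_lit 249) (nat_lit 21) (.e (nat_lit 336215) (nat_lit 13) (.e (nat_lit 393227) (nat_lit 9) .nil)))) .nil))))))) (.nd (nat_lit 2) (.nd (nat_lit 3) (.nd (nat_lit 4) (.nd (nat_lit 5) (.nd (nat_lit 6) 
(.lf (nat_lit 213251) (.g (nat_lit 1926) (.e (nat_lit 90127) (nat_lit 9) (.e (nat_lit 232) (nat_lit 21) (.e (nat_lit 336224) (nat_lit 13) (.e (nat_lit 393225) (nat_lit 9) (.e (nat_lit 335995) (nat_lit 1) .nil))))) .nil)) 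
(.lf (nat_lit 213315) (.g (nat_lit 1593) (.e (nat_lit 90128) (nat_lit 9) (.e (nat_lit 307) (nat_lit 22) (.e (nat_lit 344117) (nat_lit 21) (.e (nat_lit 516130) (nat_lit 3) .nil)))) .nil))) (.nd (nat_lit 6) 
(.lf (nat_lit 213283) (.g (nat_lit 1986) (.e (nat_lit 90128) (nat_lit 9) (.e (nat_lit 232) (nat_lit 21) (.e (nat_lit 336089) (nat_lit 9) (.e (nat_lit 336456) (nat_lit 34) (.e (nat_lit 483365) (nat_lit 18) .nil))))) .nil)) 
(.lf (nat_lit 213347) (.g (nat_lit 1479) (.e (nat_lit 90128) (nat_lit 9) (.e (nat_lit 7936) (nat_lit 24) (.e (nat_lit 360466) (nat_lit 3) (.e (nat_lit 516146) (nat_lit 9) (.e (nat_lit 426361) (nat_lit 15) (.e (nat_lit 2206) (nat_lit 144) (.e (nat_lit 720937) (nat_lit 22) .nil))))))) (.g (nat_lit 4) .nil .nil))))) (.nd (nat_lit 5) (.nd (nat_lit 6) 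
(.lf (nat_lit 213267) (.g (nat_lit 991) (.e (nat_lit 90127) (nat_lit 9) (.e (nat_lit 334) (nat_lit 26) (.e (nat_lit 376869) (nat_lit 23) (.e (nat_lit 98385) (nat_lit 32) (.e (nat_lit 475212) (nat_lit 42) .nil))))) .nil)) 
(.lf (nat_lit 213331) (.g (nat_lit 1109) (.e (nat_lit 90128) (nat_lit 9) (.e (nat_lit 314) (nat_lit 23) (.e (nat_lit 352315) (nat_lit 23) (.e (nat_lit 98354) (nat_lit 26) .nil)))) .nil))) (.nd (nat_lit 6) 
(.lf (nat_lit 213299) (.g (nat_lit 3951) (.e (nat_lit 90128) (nat_lit 9) (.e (nat_lit 297) (nat_lit 22) (.e (nat_lit 344132) (nat_lit 26) (.e (nat_lit 557105) (nat_lit 14) (.e (nat_lit 180252) (nat_lit 10) (.e (nat_lit 573453) (nat_lit 9) (.e (nat_lit 1183) (nat_lit 87) (.e (nat_lit 57848) (nat_lit 252) (.e (nat_lit 57375) (nat_lit 2) .nil))))))))) (.g (nat_lit 5) .nil .nil))) 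
(.lf (nat_lit 213363) (.g (nat_lit 1894) (.e (nat_lit 90128) (nat_lit 9) (.e (nat_lit 2706) (nat_lit 170) (.e (nat_lit 221215) (nat_lit 23) (.e (nat_lit 204863) (nat_lit 27) (.e (nat_lit 344120) (nat_lit 21) .nil))))) .nil))))) (.nd (nat_lit 4) (.nd (nat_lit 5) (.nd (nat_lit 6) 
(.lf (nat_lit 213259) (.g (nat_lit 1670) (.e (nat_lit 90127) (nat_lit 9) (.e (nat_lit 251) (nat_lit 21) (.e (nat_lit 336076) (nat_lit 9) (.e (nat_lit 336454) (nat_lit 34) (.e (nat_lit 483365) (nat_lit 18) .nil))))) .nil)) 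
(.lf (nat_lit 213323) (.g (nat_lit 2971) (.e (nat_lit 90128) (nat_lit 9) (.e (nat_lit 307) (nat_lit 22) (.e (nat_lit 344129) (nat_lit 26) (.e (nat_lit 557097) (nat_lit 13) (.e (nat_lit 172066) (nat_lit 3) (.e (nat_lit 204824) (nat_lit 17) (.e (nat_lit 1014) (nat_lit 81) (.e (nat_lit 7261) (nat_lit 384) (.e (nat_lit 57371) (nat_lit 2) .nil))))))))) (.g (nat_lit 4) .nil .nil)))) (.nd (nat_lit 6) 
(.lf (nat_lit 213291) (.g (nat_lit 5380) (.e (nat_lit 90128) (nat_lit 9) (.e (nat_lit 268) (nat_lit 21) (.e (nat_lit 336099) (nat_lit 9) (.e (nat_lit 336013) (nat_lit 2) (.e (nat_lit 90170) (nat_lit 13) (.e (nat_lit 179968) (nat_lit 20) (.e (nat_lit 114714) (nat_lit 22) .nil))))))) (.g (nat_lit 5) .nil .nil))) 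
(.lf (nat_lit 213355) (.g (nat_lit 2061) (.e (nat_lit 90128) (nat_lit 9) (.e (nat_lit 334) (nat_lit 26) (.e (nat_lit 376867) (nat_lit 23) (.e (nat_lit 98385) (nat_lit 32) (.e (nat_lit 475212) (nat_lit 42) (.e (nat_lit 720938) (nat_lit 22) .nil)))))) (.g (nat_lit 0) .nil .nil))))) (.nd (nat_lit 5) (.nd (nat_lit 6) 
(.lf (nat_lit 213275) (.g (nat_lit 4764) (.e (nat_lit 90128) (nat_lit 9) (.e (nat_lit 232) (nat_lit 21) (.e (nat_lit 336013) (nat_lit 2) (.e (nat_lit 90157) (nat_lit 11) (.e (nat_lit 24602) (nat_lit 2) .nil))))) .nil)) 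
(.lf (nat_lit 213339) (.g (nat_lit 1480) (.e (nat_lit 90128) (nat_lit 9) (.e (nat_lit 321) (nat_lit 24) (.e (nat_lit 360466) (nat_lit 3) (.e (nat_lit 516179) (nat_lit 15) (.e (nat_lit 475212) (nat_lit 42) .nil))))) .nil))) (.nd (nat_lit 6) 
(.lf (nat_lit 213307) (.g (nat_lit 2155) (.e (nat_lit 90128) (nat_lit 9) (.e (nat_lit 297) (nat_lit 22) (.e (nat_lit 344133) (nat_lit 26) (.e (nat_lit 557103) (nat_lit 14) (.e (nat_lit 180250) (nat_lit 10) .nil))))) .nil)) 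
(.lf (nat_lit 213371) (.g (nat_lit 2102) (.e (nat_lit 90130) (nat_lit 9) (.e (nat_lit 247) (nat_lit 21) (.e (nat_lit 336004) (nat_lit 2) (.e (nat_lit 90158) (nat_lit 11) (.e (nat_lit 24603) (nat_lit 2) .nil))))) .nil)))))) (.nd (nat_lit 3) (.nd (nat_lit 4) (.nd (nat_lit 5) (.nd (nat_lit 6) 
(.lf (nat_lit 213255) (.g (nat_lit 1443) (.e (nat_lit 90127) (nat_lit 9) (.e (nat_lit 248) (nat_lit 21) (.e (nat_lit 336076) (nat_lit 9) (.e (nat_lit 336454) (nat_lit 34) (.e (nat_lit 483365) (nat_lit 18) .nil))))) .nil)) 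
(.lf (nat_lit 213319) (.g (nat_lit 2132) (.e (nat_lit 90128) (nat_lit 9) (.e (nat_lit 307) (nat_lit 22) (.e (nat_lit 344117) (nat_lit 21) (.e (nat_lit 516195) (nat_lit 26) (.e (nat_lit 336012) (nat_lit 2) (.e (nat_lit 90158) (nat_lit 11) (.e (nat_lit 24603) (nat_lit 2) .nil))))))) (.g (nat_lit 4) .nil .nil)))) (.nd (nat_lit 6) 
(.lf (nat_lit 213287) (.g (nat_lit 2130) (.e (nat_lit 90128) (nat_lit 9) (.e (nat_lit 245) (nat_lit 21) (.e (nat_lit 336213) (nat_lit 13) (.e (nat_lit 393225) (nat_lit 9) (.e (nat_lit 335996) (nat_lit 1) .nil))))) .nil)) 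
(.lf (nat_lit 213351) (.g (nat_lit 1395) (.e (nat_lit 90128) (nat_lit 9) (.e (nat_lit 334) (nat_lit 26) (.e (nat_lit 376867) (nat_lit 23) (.e (nat_lit 98354) (nat_lit 26) (.e (nat_lit 433920) (nat_lit 20) (.e (nat_lit 114716) (nat_lit 22) .nil)))))) (.g (nat_lit 4) .nil .nil))))) (.nd (nat_lit 5) (.nd (nat_lit 6) 
(.lf (nat_lit 213271) (.g (nat_lit 2588) (.e (nat_lit 90127) (nat_lit 9) (.e (nat_lit 3098) (nat_lit 192) (.e (nat_lit 491571) (nat_lit 13) (.e (nat_lit 393232) (nat_lit 17) (.e (nat_lit 3555) (nat_lit 220) .nil))))) .nil)) 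
(.lf (nat_lit 213335) (.g (nat_lit 1093) (.e (nat_lit 90128) (nat_lit 9) (.e (nat_lit 314) (nat_lit 23) (.e (nat_lit 352315) (nat_lit 23) (.e (nat_lit 98360) (nat_lit 26) .nil)))) .nil))) (.nd (nat_lit 6) 
(.lf (nat_lit 213303) (.g (nat_lit 2375) (.e (nat_lit 90128) (nat_lit 9) (.e (nat_lit 297) (nat_lit 22) (.e (nat_lit 344133) (nat_lit 26) (.e (nat_lit 557098) (nat_lit 13) (.e (nat_lit 172066) (nat_lit 3) .nil))))) .nil)) 
(.lf (nat_lit 213367) (.g (nat_lit 1198) (.e (nat_lit 90129) (nat_lit 9) (.e (nat_lit 2827) (nat_lit 182) (.e (nat_lit 409645) (nat_lit 18) (.e (nat_lit 303117) (nat_lit 2) .nil)))) .nil))))) (.nd (nat_lit 4) (.nd (nat_lit 5) (.nd (nat_lit 6) 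
(.lf (nat_lit 213263) (.g (nat_lit 1484) (.e (nat_lit 90127) (nat_lit 9) (.e (nat_lit 324) (nat_lit 24) (.e (nat_lit 360466) (nat_lit 3) (.e (nat_lit 516150) (nat_lit 9) (.e (nat_lit 426446) (nat_lit 20) .nil))))) .nil)) 
(.lf (nat_lit 213327) (.g (nat_lit 1077) (.e (nat_lit 90128) (nat_lit 9) (.e (nat_lit 314) (nat_lit 23) (.e (nat_lit 352313) (nat_lit 23) (.e (nat_lit 98356) (nat_lit 26) (.e (nat_lit 426361) (nat_lit 15) .nil))))) .nil))) (.nd (nat_lit 6) 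
(.lf (nat_lit 213295) (.g (nat_lit 1583) (.e (nat_lit 90128) (nat_lit 9) (.e (nat_lit 271) (nat_lit 21) (.e (nat_lit 336213) (nat_lit 13) (.e (nat_lit 393225) (nat_lit 9) .nil)))) .nil)) 
(.lf (nat_lit 213359) (.g (nat_lit 1712) (.e (nat_lit 90128) (nat_lit 9) (.e (nat_lit 2615) (nat_lit 163) (.e (nat_lit 164398) (nat_lit 256) (.e (nat_lit 57378) (nat_lit 3) (.e (nat_lit 98376) (nat_lit 30) .nil))))) .nil)))) (.nd (nat_lit 5) (.nd (nat_lit 6) 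
(.lf (nat_lit 213279) (.g (nat_lit 2546) (.e (nat_lit 90128) (nat_lit 9) (.e (nat_lit 232) (nat_lit 21) (.e (nat_lit 336013) (nat_lit 2) (.e (nat_lit 90160) (nat_lit 11) .nil)))) .nil)) 
(.lf (nat_lit 213343) (.g (nat_lit 1586) (.e (nat_lit 90128) (nat_lit 9) (.e (nat_lit 321) (nat_lit 24) (.e (nat_lit 360467) (nat_lit 3) (.e (nat_lit 516146) (nat_lit 9) (.e (nat_lit 433920) (nat_lit 20) (.e (nat_lit 114716) (nat_lit 22) .nil)))))) (.g (nat_lit 4) .nil .nil)))) (.nd (nat_lit 6) 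
(.lf (nat_lit 213311) (.g (nat_lit 2012) (.e (nat_lit 90128) (nat_lit 9) (.e (nat_lit 297) (nat_lit 22) (.e (nat_lit 344133) (nat_lit 26) (.e (nat_lit 557105) (nat_lit 14) (.e (nat_lit 180252) (nat_lit 10) .nil))))) .nil)) 
(.lf (nat_lit 213375) (.g (nat_lit 1566) (.e (nat_lit 90130) (nat_lit 9) (.e (nat_lit 251) (nat_lit 21) (.e (nat_lit 336076) (nat_lit 9) (.e (nat_lit 336454) (nat_lit 34) (.e (nat_lit 483366) (nat_lit 18) .nil))))) .nil)))))))))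

noncomputable def tv2814 : DT := (.nd (nat_lit 0) (.nd (nat_lit 1) (.nd (nat_lit 2) (.nd (nat_lit 3) (.nd (nat_lit 4) (.nd (nat_lit 5) (.nd (nat_lit 6) 
(.lf (nat_lit 213376) (.g (nat_lit 2202) (.e (nat_lit 90130) (nat_lit 9) (.e (nat_lit 272) (nat_lit 21) (.e (nat_lit 336021) (nat_lit 3) (.e (nat_lit 98313) (nat_lit 9) (.e (nat_lit 336012) (nat_lit 2) .nil))))) .nil)) 
(.lf (nat_lit 213440) (.g (nat_lit 1008) (.e (nat_lit 90133) (nat_lit 9) (.e (nat_lit 253) (nat_lit 21) (.e (nat_lit 336021) (nat_lit 3) (.e (nat_lit 98317) (nat_lit 9) .nil)))) .nil))) (.nd (nat_lit 6) 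
(.lf (nat_lit 213408) (.g (nat_lit 2743) (.e (nat_lit 90130) (nat_lit 9) (.e (nat_lit 2830) (nat_lit 182) (.e (nat_lit 409648) (nat_lit 18) (.e (nat_lit 303117) (nat_lit 2) (.e (nat_lit 196628) (nat_lit 9) .nil))))) .nil)) 
(.lf (nat_lit 213472) (.g (nat_lit 1304) (.e (nat_lit 90133) (nat_lit 9) (.e (nat_lit 2400) (nat_lit 157) (.e (nat_lit 7590) (nat_lit 407) (.e (nat_lit 73754) (nat_lit 8) (.e (nat_lit 557073) (nat_lit 9) (.e (nat_lit 7936) (nat_lit 26) (.e (nat_lit 376864) (nat_lit 22) .nil))))))) (.g (nat_lit 5) .nil .nil))))) (.nd (nat_lit 5) (.nd (nat_lit 6) 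
(.lf (nat_lit 213392) (.g (nat_lit 1891) (.e (nat_lit 90130) (nat_lit 9) (.e (nat_lit 2830) (nat_lit 182) (.e (nat_lit 409644) (nat_lit 18) (.e (nat_lit 303112) (nat_lit 0) (.e (nat_lit 3252) (nat_lit 197) .nil))))) .nil)) 
(.lf (nat_lit 213456) (.g (nat_lit 1200) (.e (nat_lit 90133) (nat_lit 9) (.e (nat_lit 333) (nat_lit 26) (.e (nat_lit 376869) (nat_lit 23) (.e (nat_lit 98365) (nat_lit 26) (.e (nat_lit 433920) (nat_lit 20) (.e (nat_lit 114715) (nat_lit 22) .nil)))))) (.g (nat_lit 4) .nil .nil)))) (.nd (nat_lit 6) 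
(.lf (nat_lit 213424) (.g (nat_lit 2434) (.e (nat_lit 90130) (nat_lit 9) (.e (nat_lit 2830) (nat_lit 182) (.e (nat_lit 409649) (nat_lit 18) (.e (nat_lit 303117) (nat_lit 2) (.e (nat_lit 196624) (nat_lit 9) .nil))))) .nil)) 
(.lf (nat_lit 213488) (.g (nat_lit 2989) (.e (nat_lit 90134) (nat_lit 9) (.e (nat_lit 214) (nat_lit 19) (.e (nat_lit 319505) (nat_lit 10) (.e (nat_lit 618) (nat_lit 48) (.e (nat_lit 557105) (nat_lit 14) .nil))))) .nil))))) (.nd (nat_lit 4) (.nd (nat_lit 5) (.nd (nat_lit 6) 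
(.lf (nat_lit 213384) (.g (nat_lit 2223) (.e (nat_lit 90130) (nat_lit 9) (.e (nat_lit 2830) (nat_lit 182) (.e (nat_lit 409617) (nat_lit 10) (.e (nat_lit 5355) (nat_lit 298) (.e (nat_lit 1235) (nat_lit 91) (.e (nat_lit 90165) (nat_lit 12) (.e (nat_lit 171776) (nat_lit 194) (.e (nat_lit 131092) (nat_lit 2) .nil)))))))) (.g (nat_lit 5) .nil .nil))) 
(.lf (nat_lit 213448) (.g (nat_lit 1064) (.e (nat_lit 90133) (nat_lit 9) (.e (nat_lit 313) (nat_lit 23) (.e (nat_lit 352313) (nat_lit 23) (.e (nat_lit 98359) (nat_lit 26) (.e (nat_lit 433920) (nat_lit 20) (.e (nat_lit 114715) (nat_lit 22) .nil)))))) (.g (nat_lit 4) .nil .nil)))) (.nd (nat_lit 6) 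
(.lf (nat_lit 213416) (.g (nat_lit 2907) (.e (nat_lit 90130) (nat_lit 9) (.e (nat_lit 2830) (nat_lit 182) (.e (nat_lit 409648) (nat_lit 18) (.e (nat_lit 303119) (nat_lit 3) (.e (nat_lit 212736) (nat_lit 31) .nil))))) .nil)) 
(.lf (nat_lit 213480) (.g (nat_lit 1980) (.e (nat_lit 90133) (nat_lit 9) (.e (nat_lit 2400) (nat_lit 157) (.e (nat_lit 7592) (nat_lit 407) (.e (nat_lit 73753) (nat_lit 8) (.e (nat_lit 557070) (nat_lit 9) (.e (nat_lit 333) (nat_lit 26) (.e (nat_lit 376864) (nat_lit 22) .nil))))))) (.g (nat_lit 5) .nil .nil))))) (.nd (nat_lit 5) (.nd (nat_lit 6) 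
(.lf (nat_lit 213400) (.g (nat_lit 2337) (.e (nat_lit 90130) (nat_lit 9) (.e (nat_lit 2830) (nat_lit 182) (.e (nat_lit 409647) (nat_lit 18) (.e (nat_lit 303117) (nat_lit 2) (.e (nat_lit 196630) (nat_lit 9) .nil))))) .nil)) 
(.lf (nat_lit 213464) (.g (nat_lit 2385) (.e (nat_lit 90133) (nat_lit 9) (.e (nat_lit 2397) (nat_lit 157) (.e (nat_lit 7592) (nat_lit 407) (.e (nat_lit 73753) (nat_lit 8) (.e (nat_lit 557066) (nat_lit 9) (.e (nat_lit 334) (nat_lit 26) (.e (nat_lit 376864) (nat_lit 22) .nil))))))) (.g (nat_lit 0) .nil .nil)))) (.nd (nat_lit 6) 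
(.lf (nat_lit 213432) (.g (nat_lit 3180) (.e (nat_lit 90130) (nat_lit 9) (.e (nat_lit 3098) (nat_lit 192) (.e (nat_lit 491566) (nat_lit 12) (.e (nat_lit 385049) (nat_lit 21) .nil)))) .nil)) 
(.lf (nat_lit 213496) (.g (nat_lit 2500) (.e (nat_lit 90134) (nat_lit 9) (.e (nat_lit 290) (nat_lit 21) (.e (nat_lit 336021) (nat_lit 3) (.e (nat_lit 98317) (nat_lit 9) (.e (nat_lit 335917) (nat_lit 0) (.e (nat_lit 1799) (nat_lit 119) (.e (nat_lit 516195) (nat_lit 26) (.e (nat_lit 336011) (nat_lit 2) .nil)))))))) (.g (nat_lit 4) .nil .nil))))))) 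
(.nd (nat_lit 3) (.nd (nat_lit 4) (.nd (nat_lit 5) (.nd (nat_lit 6) 
(.lf (nat_lit 213380) (.g (nat_lit 2627) (.e (nat_lit 90130) (nat_lit 9) (.e (nat_lit 2612) (nat_lit 163) (.e (nat_lit 164403) (nat_lit 256) (.e (nat_lit 57378) (nat_lit 3) (.e (nat_lit 98366) (nat_lit 27) .nil))))) .nil)) 
(.lf (nat_lit 213444) (.g (nat_lit 2188) (.e (nat_lit 90133) (nat_lit 9) (.e (nat_lit 253) (nat_lit 21) (.e (nat_lit 336213) (nat_lit 13) (.e (nat_lit 393225) (nat_lit 9) (.e (nat_lit 335996) (nat_lit 1) .nil))))) .nil))) (.nd (nat_lit 6) 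
(.lf (nat_lit 213412) (.g (nat_lit 2638) (.e (nat_lit 90130) (nat_lit 9) (.e (nat_lit 2830) (nat_lit 182) (.e (nat_lit 409648) (nat_lit 18) (.e (nat_lit 303118) (nat_lit 3) (.e (nat_lit 204878) (nat_lit 31) .nil))))) .nil)) 
(.lf (nat_lit 213476) (.g (nat_lit 192) (.e (nat_lit 90133) (nat_lit 9) (.e (nat_lit 2400) (nat_lit 157) (.e (nat_lit 7592) (nat_lit 407) .nil))) .nil)))) (.nd (nat_lit 5) (.nd (nat_lit 6) 
(.lf (nat_lit 213396) (.g (nat_lit 2765) (.e (nat_lit 90130) (nat_lit 9) (.e (nat_lit 2830) (nat_lit 182) (.e (nat_lit 409646) (nat_lit 18) (.e (nat_lit 303117) (nat_lit 2) (.e (nat_lit 196624) (nat_lit 9) .nil))))) .nil)) 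
(.lf (nat_lit 213460) (.g (nat_lit 2201) (.e (nat_lit 90133) (nat_lit 9) (.e (nat_lit 2397) (nat_lit 157) (.e (nat_lit 7590) (nat_lit 407) (.e (nat_lit 73755) (nat_lit 8) (.e (nat_lit 557066) (nat_lit 9) (.e (nat_lit 334) (nat_lit 26) (.e (nat_lit 376864) (nat_lit 22) .nil))))))) (.g (nat_lit 6) .nil .nil)))) (.nd (nat_lit 6) 
(.lf (nat_lit 213428) (.g (nat_lit 1783) (.e (nat_lit 90130) (nat_lit 9) (.e (nat_lit 2830) (nat_lit 182) (.e (nat_lit 409649) (nat_lit 18) (.e (nat_lit 303119) (nat_lit 3) (.e (nat_lit 204875) (nat_lit 31) .nil))))) .nil)) 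
(.lf (nat_lit 213492) (.g (nat_lit 1876) (.e (nat_lit 90134) (nat_lit 9) (.e (nat_lit 290) (nat_lit 21) (.e (nat_lit 336021) (nat_lit 3) (.e (nat_lit 98313) (nat_lit 9) (.e (nat_lit 336002) (nat_lit 2) .nil))))) .nil))))) (.nd (nat_lit 4) (.nd (nat_lit 5) (.nd (nat_lit 6) 
(.lf (nat_lit 213388) (.g (nat_lit 1065) (.e (nat_lit 90130) (nat_lit 9) (.e (nat_lit 2830) (nat_lit 182) (.e (nat_lit 409640) (nat_lit 17) (.e (nat_lit 294931) (nat_lit 3) .nil)))) .nil)) 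
(.lf (nat_lit 213452) (.g (nat_lit 865) (.e (nat_lit 90133) (nat_lit 9) (.e (nat_lit 333) (nat_lit 26) (.e (nat_lit 376862) (nat_lit 22) (.e (nat_lit 90169) (nat_lit 13) (.e (nat_lit 179968) (nat_lit 20) .nil))))) .nil))) (.nd (nat_lit 6) 
(.lf (nat_lit 213420) (.g (nat_lit 1712) (.e (nat_lit 90130) (nat_lit 9) (.e (nat_lit 2830) (nat_lit 182) (.e (nat_lit 409649) (nat_lit 18) (.e (nat_lit 303111) (nat_lit 0) (.e (nat_lit 3255) (nat_lit 197) .nil))))) .nil)) 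
(.lf (nat_lit 213484) (.g (nat_lit 1849) (.e (nat_lit 90133) (nat_lit 9) (.e (nat_lit 3105) (nat_lit 192) (.e (nat_lit 491566) (nat_lit 12) (.e (nat_lit 385053) (nat_lit 21) .nil)))) .nil)))) (.nd (nat_lit 5) (.nd (nat_lit 6) 
(.lf (nat_lit 213404) (.g (nat_lit 3237) (.e (nat_lit 90130) (nat_lit 9) (.e (nat_lit 2830) (nat_lit 182) (.e (nat_lit 409648) (nat_lit 18) (.e (nat_lit 303116) (nat_lit 2) (.e (nat_lit 196630) (nat_lit 9) .nil))))) .nil)) 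
(.lf (nat_lit 213468) (.g (nat_lit 1844) (.e (nat_lit 90133) (nat_lit 9) (.e (nat_lit 2397) (nat_lit 157) (.e (nat_lit 7592) (nat_lit 407) (.e (nat_lit 73754) (nat_lit 8) (.e (nat_lit 557070) (nat_lit 9) (.e (nat_lit 333) (nat_lit 26) (.e (nat_lit 376864) (nat_lit 22) .nil))))))) (.g (nat_lit 5) .nil .nil)))) (.nd (nat_lit 6) 
(.lf (nat_lit 213436) (.g (nat_lit 1800) (.e (nat_lit 90131) (nat_lit 9) (.e (nat_lit 2830) (nat_lit 182) (.e (nat_lit 409649) (nat_lit 18) (.e (nat_lit 303118) (nat_lit 3) .nil)))) .nil)) 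
(.lf (nat_lit 213500) (.g (nat_lit 2293) (.e (nat_lit 90134) (nat_lit 9) (.e (nat_lit 290) (nat_lit 21) (.e (nat_lit 336021) (nat_lit 3) (.e (nat_lit 98317) (nat_lit 9) (.e (nat_lit 336026) (nat_lit 3) (.e (nat_lit 98317) (nat_lit 9) (.e (nat_lit 336012) (nat_lit 2) .nil))))))) (.g (nat_lit 4) .nil .nil)))))))) (.nd (nat_lit 2) (.nd (nat_lit 3) (.nd (nat_lit 4) (.nd (nat_lit 5) (.nd (nat_lit 6) 
(.lf (nat_lit 213378) (.g (nat_lit 1175) (.e (nat_lit 90130) (nat_lit 9) (.e (nat_lit 2612) (nat_lit 163) (.e (nat_lit 164403) (nat_lit 256) (.e (nat_lit 57371) (nat_lit 2) .nil)))) .nil)) 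
(.lf (nat_lit 213442) (.g (nat_lit 1589) (.e (nat_lit 90133) (nat_lit 9) (.e (nat_lit 253) (nat_lit 21) (.e (nat_lit 336076) (nat_lit 9) (.e (nat_lit 336454) (nat_lit 34) (.e (nat_lit 483365) (nat_lit 18) .nil))))) .nil))) (.nd (nat_lit 6) 
(.lf (nat_lit 213410) (.g (nat_lit 2781) (.e (nat_lit 90130) (nat_lit 9) (.e (nat_lit 2830) (nat_lit 182) (.e (nat_lit 409648) (nat_lit 18) (.e (nat_lit 303117) (nat_lit 2) (.e (nat_lit 196682) (nat_lit 17) .nil))))) .nil)) 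
(.lf (nat_lit 213474) (.g (nat_lit 1336) (.e (nat_lit 90133) (nat_lit 9) (.e (nat_lit 2400) (nat_lit 157) (.e (nat_lit 7590) (nat_lit 407) (.e (nat_lit 73755) (nat_lit 8) (.e (nat_lit 557068) (nat_lit 9) (.e (nat_lit 7936) (nat_lit 26) (.e (nat_lit 376864) (nat_lit 22) .nil))))))) (.g (nat_lit 5) .nil .nil))))) (.nd (nat_lit 5) (.nd (nat_lit 6) 
(.lf (nat_lit 213394) (.g (nat_lit 2591) (.e (nat_lit 90130) (nat_lit 9) (.e (nat_lit 2830) (nat_lit 182) (.e (nat_lit 409645) (nat_lit 18) (.e (nat_lit 303117) (nat_lit 2) (.e (nat_lit 196630) (nat_lit 9) .nil))))) .nil)) 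
(.lf (nat_lit 213458) (.g (nat_lit 113) (.e (nat_lit 90133) (nat_lit 9) (.e (nat_lit 2397) (nat_lit 157) (.e (nat_lit 7590) (nat_lit 407) .nil))) .nil))) (.nd (nat_lit 6) 
(.lf (nat_lit 213426) (.g (nat_lit 3861) (.e (nat_lit 90130) (nat_lit 9) (.e (nat_lit 2830) (nat_lit 182) (.e (nat_lit 409649) (nat_lit 18) (.e (nat_lit 303117) (nat_lit 2) (.e (nat_lit 196630) (nat_lit 9) (.e (nat_lit 1573) (nat_lit 110) (.e (nat_lit 352311) (nat_lit 22) .nil))))))) (.g (nat_lit 6) .nil .nil))) 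
(.lf (nat_lit 213490) (.g (nat_lit 1544) (.e (nat_lit 90134) (nat_lit 9) (.e (nat_lit 290) (nat_lit 21) (.e (nat_lit 335986) (nat_lit 1) (.e (nat_lit 57927) (nat_lit 282) (.e (nat_lit 163905) (nat_lit 12) .nil))))) .nil))))) (.nd (nat_lit 4) (.nd (nat_lit 5) (.nd (nat_lit 6) 
(.lf (nat_lit 213386) (.g (nat_lit 1643) (.e (nat_lit 90130) (nat_lit 9) (.e (nat_lit 2830) (nat_lit 182) (.e (nat_lit 409623) (nat_lit 10) (.e (nat_lit 5664) (nat_lit 312) (.e (nat_lit 2661) (nat_lit 167) (.e (nat_lit 196624) (nat_lit 9) (.e (nat_lit 1615) (nat_lit 113) (.e (nat_lit 376863) (nat_lit 22) .nil)))))))) (.g (nat_lit 4) .nil .nil))) 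
(.lf (nat_lit 213450) (.g (nat_lit 1465) (.e (nat_lit 90133) (nat_lit 9) (.e (nat_lit 313) (nat_lit 23) (.e (nat_lit 352315) (nat_lit 23) (.e (nat_lit 98359) (nat_lit 26) (.e (nat_lit 433920) (nat_lit 20) (.e (nat_lit 114715) (nat_lit 22) .nil)))))) (.g (nat_lit 4) .nil .nil)))) (.nd (nat_lit 6) 
(.lf (nat_lit 213418) (.g (nat_lit 2669) (.e (nat_lit 90130) (nat_lit 9) (.e (nat_lit 2830) (nat_lit 182) (.e (nat_lit 409649) (nat_lit 18) (.e (nat_lit 303106) (nat_lit 0) (.e (nat_lit 3111) (nat_lit 193) .nil))))) .nil)) 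
(.lf (nat_lit 213482) (.g (nat_lit 1731) (.e (nat_lit 90133) (nat_lit 9) (.e (nat_lit 2744) (nat_lit 174) (.e (nat_lit 253962) (nat_lit 9) (.e (nat_lit 1277) (nat_lit 94) (.e (nat_lit 114711) (nat_lit 21) .nil))))) .nil)))) (.nd (nat_lit 5) (.nd (nat_lit 6) 
(.lf (nat_lit 213402) (.g (nat_lit 1919) (.e (nat_lit 90130) (nat_lit 9) (.e (nat_lit 2830) (nat_lit 182) (.e (nat_lit 409647) (nat_lit 18) (.e (nat_lit 303119) (nat_lit 3) (.e (nat_lit 204877) (nat_lit 31) .nil))))) .nil)) 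
(.lf (nat_lit 213466) (.g (nat_lit 2088) (.e (nat_lit 90133) (nat_lit 9) (.e (nat_lit 2397) (nat_lit 157) (.e (nat_lit 7592) (nat_lit 407) (.e (nat_lit 73753) (nat_lit 8) (.e (nat_lit 557070) (nat_lit 9) (.e (nat_lit 333) (nat_lit 26) (.e (nat_lit 376864) (nat_lit 22) .nil))))))) (.g (nat_lit 5) .nil .nil)))) (.nd (nat_lit 6) 
(.lf (nat_lit 213434) (.g (nat_lit 2549) (.e (nat_lit 90130) (nat_lit 9) (.e (nat_lit 3098) (nat_lit 192) (.e (nat_lit 491571) (nat_lit 13) (.e (nat_lit 393232) (nat_lit 17) (.e (nat_lit 3555) (nat_lit 220) .nil))))) .nil)) 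
(.lf (nat_lit 213498) (.g (nat_lit 2170) (.e (nat_lit 90134) (nat_lit 9) (.e (nat_lit 290) (nat_lit 21) (.e (nat_lit 336021) (nat_lit 3) (.e (nat_lit 98317) (nat_lit 9) (.e (nat_lit 336009) (nat_lit 2) .nil))))) .nil)))))) (.nd (nat_lit 3) (.nd (nat_lit 4) (.nd (nat_lit 5) (.nd (nat_lit 6) 
(.lf (nat_lit 213382) (.g (nat_lit 1724) (.e (nat_lit 90130) (nat_lit 9) (.e (nat_lit 2830) (nat_lit 182) (.e (nat_lit 409602) (nat_lit 0) (.e (nat_lit 5270) (nat_lit 298) .nil)))) .nil)) 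
(.lf (nat_lit 213446) (.g (nat_lit 1897) (.e (nat_lit 90133) (nat_lit 9) (.e (nat_lit 283) (nat_lit 21) (.e (nat_lit 336021) (nat_lit 3) (.e (nat_lit 98313) (nat_lit 9) (.e (nat_lit 336012) (nat_lit 2) .nil))))) .nil))) (.nd (nat_lit 6) 
(.lf (nat_lit 213414) (.g (nat_lit 2699) (.e (nat_lit 90130) (nat_lit 9) (.e (nat_lit 2830) (nat_lit 182) (.e (nat_lit 409648) (nat_lit 18) (.e (nat_lit 303119) (nat_lit 3) (.e (nat_lit 204875) (nat_lit 31) .nil))))) .nil)) 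
(.lf (nat_lit 213478) (.g (nat_lit 2293) (.e (nat_lit 90133) (nat_lit 9) (.e (nat_lit 2400) (nat_lit 157) (.e (nat_lit 7592) (nat_lit 407) (.e (nat_lit 73753) (nat_lit 8) (.e (nat_lit 557066) (nat_lit 9) (.e (nat_lit 334) (nat_lit 26) (.e (nat_lit 376864) (nat_lit 22) .nil))))))) (.g (nat_lit 7) .nil .nil))))) (.nd (nat_lit 5) (.nd (nat_lit 6) 
(.lf (nat_lit 213398) (.g (nat_lit 1891) (.e (nat_lit 90130) (nat_lit 9) (.e (nat_lit 2830) (nat_lit 182) (.e (nat_lit 409647) (nat_lit 18) (.e (nat_lit 303112) (nat_lit 0) (.e (nat_lit 3252) (nat_lit 197) .nil))))) .nil)) 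
(.lf (nat_lit 213462) (.g (nat_lit 116) (.e (nat_lit 90133) (nat_lit 9) (.e (nat_lit 2397) (nat_lit 157) (.e (nat_lit 7592) (nat_lit 407) .nil))) .nil))) (.nd (nat_lit 6) 
(.lf (nat_lit 213430) (.g (nat_lit 2309) (.e (nat_lit 90130) (nat_lit 9) (.e (nat_lit 3016) (nat_lit 187) (.e (nat_lit 450580) (nat_lit 5) (.e (nat_lit 532522) (nat_lit 7) (.e (nat_lit 319531) (nat_lit 16) .nil))))) .nil)) 
(.lf (nat_lit 213494) (.g (nat_lit 4090) (.e (nat_lit 90134) (nat_lit 9) (.e (nat_lit 290) (nat_lit 21) (.e (nat_lit 336021) (nat_lit 3) (.e (nat_lit 98313) (nat_lit 9) (.e (nat_lit 336012) (nat_lit 2) (.e (nat_lit 90158) (nat_lit 11) (.e (nat_lit 24604) (nat_lit 2) .nil))))))) (.g (nat_lit 7) .nil .nil)))))) (.nd (nat_lit 4) (.nd (nat_lit 5) (.nd (nat_lit 6) 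
(.lf (nat_lit 213390) (.g (nat_lit 1551) (.e (nat_lit 90130) (nat_lit 9) (.e (nat_lit 2830) (nat_lit 182) (.e (nat_lit 409643) (nat_lit 18) (.e (nat_lit 303118) (nat_lit 3) (.e (nat_lit 204877) (nat_lit 31) .nil))))) .nil)) 
(.lf (nat_lit 213454) (.g (nat_lit 1001) (.e (nat_lit 90133) (nat_lit 9) (.e (nat_lit 333) (nat_lit 26) (.e (nat_lit 376865) (nat_lit 22) (.e (nat_lit 90167) (nat_lit 13) (.e (nat_lit 179968) (nat_lit 20) .nil))))) .nil))) (.nd (nat_lit 6) 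
(.lf (nat_lit 213422) (.g (nat_lit 2593) (.e (nat_lit 90130) (nat_lit 9) (.e (nat_lit 2830) (nat_lit 182) (.e (nat_lit 409649) (nat_lit 18) (.e (nat_lit 303116) (nat_lit 2) (.e (nat_lit 196630) (nat_lit 9) .nil))))) .nil)) 
(.lf (nat_lit 213486) (.g (nat_lit 1872) (.e (nat_lit 90134) (nat_lit 9) (.e (nat_lit 214) (nat_lit 19) (.e (nat_lit 319505) (nat_lit 10) (.e (nat_lit 584) (nat_lit 43) .nil)))) .nil)))) (.nd (nat_lit 5) (.nd (nat_lit 6) 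
(.lf (nat_lit 213406) (.g (nat_lit 2776) (.e (nat_lit 90130) (nat_lit 9) (.e (nat_lit 2830) (nat_lit 182) (.e (nat_lit 409648) (nat_lit 18) (.e (nat_lit 303117) (nat_lit 2) (.e (nat_lit 196622) (nat_lit 9) .nil))))) .nil)) 
(.lf (nat_lit 213470) (.g (nat_lit 1861) (.e (nat_lit 90133) (nat_lit 9) (.e (nat_lit 2397) (nat_lit 157) (.e (nat_lit 7592) (nat_lit 407) (.e (nat_lit 73755) (nat_lit 8) (.e (nat_lit 557066) (nat_lit 9) (.e (nat_lit 334) (nat_lit 26) (.e (nat_lit 376864) (nat_lit 22) .nil))))))) (.g (nat_lit 5) .nil .nil)))) (.nd (nat_lit 6) 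
(.lf (nat_lit 213438) (.g (nat_lit 1672) (.e (nat_lit 90133) (nat_lit 9) (.e (nat_lit 253) (nat_lit 21) (.e (nat_lit 336004) (nat_lit 2) (.e (nat_lit 90158) (nat_lit 11) (.e (nat_lit 24604) (nat_lit 2) .nil))))) .nil)) 
(.lf (nat_lit 213502) (.g (nat_lit 1765) (.e (nat_lit 90134) (nat_lit 9) (.e (nat_lit 290) (nat_lit 21) (.e (nat_lit 336021) (nat_lit 3) (.e (nat_lit 98342) (nat_lit 20) .nil)))) .nil)))))))) (.nd (nat_lit 1) (.nd (nat_lit 2) (.nd (nat_lit 3) (.nd (nat_lit 4) (.nd (nat_lit 5) (.nd (nat_lit 6) 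
(.lf (nat_lit 213377) (.g (nat_lit 1475) (.e (nat_lit 90130) (nat_lit 9) (.e (nat_lit 272) (nat_lit 21) (.e (nat_lit 336076) (nat_lit 9) (.e (nat_lit 336454) (nat_lit 34) (.e (nat_lit 483366) (nat_lit 18) .nil))))) .nil)) 
(.lf (nat_lit 213441) (.g (nat_lit 2015) (.e (nat_lit 90133) (nat_lit 9) (.e (nat_lit 253) (nat_lit 21) (.e (nat_lit 336021) (nat_lit 3) (.e (nat_lit 98317) (nat_lit 9) (.e (nat_lit 336027) (nat_lit 3) .nil))))) .nil))) (.nd (nat_lit 6) 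
(.lf (nat_lit 213409) (.g (nat_lit 2912) (.e (nat_lit 90130) (nat_lit 9) (.e (nat_lit 2830) (nat_lit 182) (.e (nat_lit 409648) (nat_lit 18) (.e (nat_lit 303117) (nat_lit 2) (.e (nat_lit 196630) (nat_lit 9) .nil))))) .nil)) 
(.lf (nat_lit 213473) (.g (nat_lit 2238) (.e (nat_lit 90133) (nat_lit 9) (.e (nat_lit 2400) (nat_lit 157) (.e (nat_lit 7590) (nat_lit 407) (.e (nat_lit 73755) (nat_lit 8) (.e (nat_lit 557066) (nat_lit 9) (.e (nat_lit 334) (nat_lit 26) (.e (nat_lit 376864) (nat_lit 22) .nil))))))) (.g (nat_lit 7) .nil .nil))))) (.nd (nat_lit 5) (.nd (nat_lit 6) 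
(.lf (nat_lit 213393) (.g (nat_lit 2820) (.e (nat_lit 90130) (nat_lit 9) (.e (nat_lit 2830) (nat_lit 182) (.e (nat_lit 409645) (nat_lit 18) (.e (nat_lit 303117) (nat_lit 2) (.e (nat_lit 196624) (nat_lit 9) .nil))))) .nil)) 
(.lf (nat_lit 213457) (.g (nat_lit 906) (.e (nat_lit 90133) (nat_lit 9) (.e (nat_lit 343) (nat_lit 27) (.e (nat_lit 385107) (nat_lit 51) (.e (nat_lit 794658) (nat_lit 21) .nil)))) .nil))) (.nd (nat_lit 6) 
(.lf (nat_lit 213425) (.g (nat_lit 2557) (.e (nat_lit 90130) (nat_lit 9) (.e (nat_lit 2830) (nat_lit 182) (.e (nat_lit 409649) (nat_lit 18) (.e (nat_lit 303117) (nat_lit 2) (.e (nat_lit 196630) (nat_lit 9) .nil))))) .nil)) 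
(.lf (nat_lit 213489) (.g (nat_lit 1843) (.e (nat_lit 90134) (nat_lit 9) (.e (nat_lit 249) (nat_lit 21) (.e (nat_lit 336215) (nat_lit 13) (.e (nat_lit 393229) (nat_lit 9) (.e (nat_lit 335995) (nat_lit 1) .nil))))) .nil))))) (.nd (nat_lit 4) (.nd (nat_lit 5) (.nd (nat_lit 6) 
(.lf (nat_lit 213385) (.g (nat_lit 1634) (.e (nat_lit 90130) (nat_lit 9) (.e (nat_lit 2830) (nat_lit 182) (.e (nat_lit 409623) (nat_lit 10) (.e (nat_lit 5664) (nat_lit 312) (.e (nat_lit 2661) (nat_lit 167) .nil))))) .nil)) 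
(.lf (nat_lit 213449) (.g (nat_lit 1214) (.e (nat_lit 90133) (nat_lit 9) (.e (nat_lit 313) (nat_lit 23) (.e (nat_lit 352315) (nat_lit 23) (.e (nat_lit 98356) (nat_lit 26) (.e (nat_lit 426449) (nat_lit 20) .nil))))) .nil))) (.nd (nat_lit 6) 
(.lf (nat_lit 213417) (.g (nat_lit 2301) (.e (nat_lit 90130) (nat_lit 9) (.e (nat_lit 2830) (nat_lit 182) (.e (nat_lit 409648) (nat_lit 18) (.e (nat_lit 303121) (nat_lit 5) (.e (nat_lit 253696) (nat_lit 15) .nil))))) .nil)) 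
(.lf (nat_lit 213481) (.g (nat_lit 2022) (.e (nat_lit 90133) (nat_lit 9) (.e (nat_lit 2400) (nat_lit 157) (.e (nat_lit 7592) (nat_lit 407) (.e (nat_lit 73754) (nat_lit 8) (.e (nat_lit 557070) (nat_lit 9) (.e (nat_lit 7936) (nat_lit 23) (.e (nat_lit 352312) (nat_lit 22) .nil))))))) (.g (nat_lit 5) .nil .nil))))) (.nd (nat_lit 5) (.nd (nat_lit 6) 
(.lf (nat_lit 213401) (.g (nat_lit 1680) (.e (nat_lit 90130) (nat_lit 9) (.e (nat_lit 2830) (nat_lit 182) (.e (nat_lit 409647) (nat_lit 18) (.e (nat_lit 303118) (nat_lit 3) (.e (nat_lit 204878) (nat_lit 31) .nil))))) .nil)) 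
(.lf (nat_lit 213465) (.g (nat_lit 2465) (.e (nat_lit 90133) (nat_lit 9) (.e (nat_lit 2397) (nat_lit 157) (.e (nat_lit 7592) (nat_lit 407) (.e (nat_lit 73753) (nat_lit 8) (.e (nat_lit 557067) (nat_lit 9) (.e (nat_lit 7936) (nat_lit 26) (.e (nat_lit 376864) (nat_lit 22) .nil))))))) (.g (nat_lit 5) .nil .nil)))) (.nd (nat_lit 6) 
(.lf (nat_lit 213433) (.g (nat_lit 1983) (.e (nat_lit 90130) (nat_lit 9) (.e (nat_lit 3098) (nat_lit 192) (.e (nat_lit 491571) (nat_lit 13) (.e (nat_lit 393231) (nat_lit 17) (.e (nat_lit 3555) (nat_lit 220) .nil))))) .nil)) 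
(.lf (nat_lit 213497) (.g (nat_lit 2174) (.e (nat_lit 90134) (nat_lit 9) (.e (nat_lit 290) (nat_lit 21) (.e (nat_lit 336021) (nat_lit 3) (.e (nat_lit 98317) (nat_lit 9) (.e (nat_lit 335926) (nat_lit 0) .nil))))) .nil)))))) (.nd (nat_lit 3) (.nd (nat_lit 4) (.nd (nat_lit 5) (.nd (nat_lit 6) 
(.lf (nat_lit 213381) (.g (nat_lit 2526) (.e (nat_lit 90130) (nat_lit 9) (.e (nat_lit 2828) (nat_lit 182) (.e (nat_lit 409646) (nat_lit 18) (.e (nat_lit 303117) (nat_lit 2) (.e (nat_lit 196624) (nat_lit 9) .nil))))) .nil)) 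
(.lf (nat_lit 213445) (.g (nat_lit 1923) (.e (nat_lit 90133) (nat_lit 9) (.e (nat_lit 283) (nat_lit 21) (.e (nat_lit 336021) (nat_lit 3) (.e (nat_lit 98313) (nat_lit 9) (.e (nat_lit 336004) (nat_lit 2) .nil))))) .nil))) (.nd (nat_lit 6) 
(.lf (nat_lit 213413) (.g (nat_lit 2907) (.e (nat_lit 90130) (nat_lit 9) (.e (nat_lit 2830) (nat_lit 182) (.e (nat_lit 409648) (nat_lit 18) (.e (nat_lit 303119) (nat_lit 3) (.e (nat_lit 212736) (nat_lit 26) .nil))))) .nil)) 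
(.lf (nat_lit 213477) (.g (nat_lit 2932) (.e (nat_lit 90133) (nat_lit 9) (.e (nat_lit 2400) (nat_lit 157) (.e (nat_lit 7592) (nat_lit 407) (.e (nat_lit 73753) (nat_lit 8) (.e (nat_lit 557065) (nat_lit 9) (.e (nat_lit 334) (nat_lit 26) (.e (nat_lit 376864) (nat_lit 22) .nil))))))) (.g (nat_lit 6) .nil .nil))))) (.nd (nat_lit 5) (.nd (nat_lit 6) 
(.lf (nat_lit 213397) (.g (nat_lit 2657) (.e (nat_lit 90130) (nat_lit 9) (.e (nat_lit 2830) (nat_lit 182) (.e (nat_lit 409646) (nat_lit 18) (.e (nat_lit 303117) (nat_lit 2) (.e (nat_lit 196630) (nat_lit 9) .nil))))) .nil)) 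
(.lf (nat_lit 213461) (.g (nat_lit 1680) (.e (nat_lit 90133) (nat_lit 9) (.e (nat_lit 2397) (nat_lit 157) (.e (nat_lit 7590) (nat_lit 407) (.e (nat_lit 73755) (nat_lit 8) (.e (nat_lit 557074) (nat_lit 9) (.e (nat_lit 7936) (nat_lit 26) (.e (nat_lit 376864) (nat_lit 22) .nil))))))) (.g (nat_lit 5) .nil .nil)))) (.nd (nat_lit 6) 
(.lf (nat_lit 213429) (.g (nat_lit 1783) (.e (nat_lit 90130) (nat_lit 9) (.e (nat_lit 2830) (nat_lit 182) (.e (nat_lit 409649) (nat_lit 18) (.e (nat_lit 303121) (nat_lit 5) .nil)))) .nil)) 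
(.lf (nat_lit 213493) (.g (nat_lit 2440) (.e (nat_lit 90134) (nat_lit 9) (.e (nat_lit 290) (nat_lit 21) (.e (nat_lit 336021) (nat_lit 3) (.e (nat_lit 98313) (nat_lit 9) (.e (nat_lit 336002) (nat_lit 2) (.e (nat_lit 90158) (nat_lit 11) (.e (nat_lit 24604) (nat_lit 2) .nil))))))) (.g (nat_lit 4) .nil .nil)))))) (.nd (nat_lit 4) (.nd (nat_lit 5) (.nd (nat_lit 6) 
(.lf (nat_lit 213389) (.g (nat_lit 1711) (.e (nat_lit 90130) (nat_lit 9) (.e (nat_lit 2830) (nat_lit 182) (.e (nat_lit 409643) (nat_lit 18) (.e (nat_lit 303117) (nat_lit 2) (.e (nat_lit 196630) (nat_lit 9) .nil))))) .nil)) 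
(.lf (nat_lit 213453) (.g (nat_lit 1203) (.e (nat_lit 90133) (nat_lit 9) (.e (nat_lit 333) (nat_lit 26) (.e (nat_lit 376864) (nat_lit 22) (.e (nat_lit 90170) (nat_lit 13) (.e (nat_lit 179968) (nat_lit 20) .nil))))) .nil))) (.nd (nat_lit 6) 
(.lf (nat_lit 213421) (.g (nat_lit 2504) (.e (nat_lit 90130) (nat_lit 9) (.e (nat_lit 2830) (nat_lit 182) (.e (nat_lit 409649) (nat_lit 18) (.e (nat_lit 303116) (nat_lit 2) (.e (nat_lit 196624) (nat_lit 9) .nil))))) .nil)) 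
(.lf (nat_lit 213485) (.g (nat_lit 1831) (.e (nat_lit 90134) (nat_lit 9) (.e (nat_lit 140) (nat_lit 8) (.e (nat_lit 147496) (nat_lit 11) (.e (nat_lit 24604) (nat_lit 2) (.e (nat_lit 90172) (nat_lit 14) .nil))))) .nil)))) (.nd (nat_lit 5) (.nd (nat_lit 6) 
(.lf (nat_lit 213405) (.g (nat_lit 3464) (.e (nat_lit 90130) (nat_lit 9) (.e (nat_lit 2830) (nat_lit 182) (.e (nat_lit 409648) (nat_lit 18) (.e (nat_lit 303116) (nat_lit 2) (.e (nat_lit 196662) (nat_lit 13) .nil))))) .nil)) 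
(.lf (nat_lit 213469) (.g (nat_lit 1828) (.e (nat_lit 90133) (nat_lit 9) (.e (nat_lit 2397) (nat_lit 157) (.e (nat_lit 7592) (nat_lit 407) (.e (nat_lit 73754) (nat_lit 8) (.e (nat_lit 557070) (nat_lit 9) (.e (nat_lit 7936) (nat_lit 26) (.e (nat_lit 376864) (nat_lit 22) .nil))))))) (.g (nat_lit 5) .nil .nil)))) (.nd (nat_lit 6) 
(.lf (nat_lit 213437) (.g (nat_lit 1697) (.e (nat_lit 90133) (nat_lit 9) (.e (nat_lit 124) (nat_lit 5) (.e (nat_lit 114718) (nat_lit 23) (.e (nat_lit 98365) (nat_lit 26) (.e (nat_lit 426115) (nat_lit 2) .nil))))) .nil)) 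
(.lf (nat_lit 213501) (.g (nat_lit 3125) (.e (nat_lit 90134) (nat_lit 9) (.e (nat_lit 290) (nat_lit 21) (.e (nat_lit 336021) (nat_lit 3) (.e (nat_lit 98317) (nat_lit 9) (.e (nat_lit 336027) (nat_lit 3) (.e (nat_lit 98317) (nat_lit 9) (.e (nat_lit 336010) (nat_lit 2) .nil))))))) (.g (nat_lit 6) .nil .nil)))))))) (.nd (nat_lit 2) (.nd (nat_lit 3) (.nd (nat_lit 4) (.nd (nat_lit 5) (.nd (nat_lit 6) 
(.lf (nat_lit 213379) (.g (nat_lit 5003) (.e (nat_lit 90130) (nat_lit 9) (.e (nat_lit 2612) (nat_lit 163) (.e (nat_lit 164403) (nat_lit 256) (.e (nat_lit 57373) (nat_lit 2) (.e (nat_lit 90172) (nat_lit 14) (.e (nat_lit 180244) (nat_lit 5) (.e (nat_lit 532515) (nat_lit 3) (.e (nat_lit 114716) (nat_lit 22) .nil)))))))) (.g (nat_lit 8) .nil .nil))) 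
(.lf (nat_lit 213443) (.g (nat_lit 1519) (.e (nat_lit 90133) (nat_lit 9) (.e (nat_lit 253) (nat_lit 21) (.e (nat_lit 336076) (nat_lit 9) (.e (nat_lit 336454) (nat_lit 34) (.e (nat_lit 483366) (nat_lit 18) .nil))))) .nil))) (.nd (nat_lit 6) 
(.lf (nat_lit 213411) (.g (nat_lit 2771) (.e (nat_lit 90130) (nat_lit 9) (.e (nat_lit 2830) (nat_lit 182) (.e (nat_lit 409648) (nat_lit 18) (.e (nat_lit 303118) (nat_lit 3) (.e (nat_lit 212736) (nat_lit 26) .nil))))) .nil)) 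
(.lf (nat_lit 213475) (.g (nat_lit 1698) (.e (nat_lit 90133) (nat_lit 9) (.e (nat_lit 2400) (nat_lit 157) (.e (nat_lit 7590) (nat_lit 407) (.e (nat_lit 73755) (nat_lit 8) (.e (nat_lit 557074) (nat_lit 9) (.e (nat_lit 7936) (nat_lit 26) (.e (nat_lit 376864) (nat_lit 22) .nil))))))) (.g (nat_lit 5) .nil .nil))))) (.nd (nat_lit 5) (.nd (nat_lit 6) 
(.lf (nat_lit 213395) (.g (nat_lit 2817) (.e (nat_lit 90130) (nat_lit 9) (.e (nat_lit 2830) (nat_lit 182) (.e (nat_lit 409645) (nat_lit 18) (.e (nat_lit 303117) (nat_lit 2) (.e (nat_lit 196671) (nat_lit 15) .nil))))) .nil)) 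
(.lf (nat_lit 213459) (.g (nat_lit 1747) (.e (nat_lit 90133) (nat_lit 9) (.e (nat_lit 2397) (nat_lit 157) (.e (nat_lit 7590) (nat_lit 407) (.e (nat_lit 73754) (nat_lit 8) (.e (nat_lit 557072) (nat_lit 9) (.e (nat_lit 7936) (nat_lit 23) (.e (nat_lit 352312) (nat_lit 22) .nil))))))) (.g (nat_lit 5) .nil .nil)))) (.nd (nat_lit 6) 
(.lf (nat_lit 213427) (.g (nat_lit 2393) (.e (nat_lit 90130) (nat_lit 9) (.e (nat_lit 2830) (nat_lit 182) (.e (nat_lit 409649) (nat_lit 18) (.e (nat_lit 303118) (nat_lit 3) (.e (nat_lit 204878) (nat_lit 31) .nil))))) .nil)) 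
(.lf (nat_lit 213491) (.g (nat_lit 2812) (.e (nat_lit 90134) (nat_lit 9) (.e (nat_lit 290) (nat_lit 21) (.e (nat_lit 336002) (nat_lit 2) (.e (nat_lit 90158) (nat_lit 11) (.e (nat_lit 24607) (nat_lit 3) (.e (nat_lit 98317) (nat_lit 9) (.e (nat_lit 336010) (nat_lit 2) .nil))))))) (.g (nat_lit 6) .nil .nil)))))) (.nd (nat_lit 4) (.nd (nat_lit 5) (.nd (nat_lit 6) 
(.lf (nat_lit 213387) (.g (nat_lit 1723) (.e (nat_lit 90130) (nat_lit 9) (.e (nat_lit 2830) (nat_lit 182) (.e (nat_lit 409640) (nat_lit 17) (.e (nat_lit 294928) (nat_lit 2) (.e (nat_lit 90165) (nat_lit 12) .nil))))) .nil)) 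
(.lf (nat_lit 213451) (.g (nat_lit 615) (.e (nat_lit 90133) (nat_lit 9) (.e (nat_lit 331) (nat_lit 26) (.e (nat_lit 376862) (nat_lit 22) (.e (nat_lit 90174) (nat_lit 14) .nil)))) .nil))) (.nd (nat_lit 6) 
(.lf (nat_lit 213419) (.g (nat_lit 1840) (.e (nat_lit 90130) (nat_lit 9) (.e (nat_lit 2830) (nat_lit 182) (.e (nat_lit 409649) (nat_lit 18) (.e (nat_lit 303111) (nat_lit 0) (.e (nat_lit 3252) (nat_lit 197) .nil))))) .nil)) 
(.lf (nat_lit 213483) (.g (nat_lit 3618) (.e (nat_lit 90133) (nat_lit 9) (.e (nat_lit 3105) (nat_lit 192) (.e (nat_lit 491563) (nat_lit 12) (.e (nat_lit 385074) (nat_lit 31) (.e (nat_lit 573493) (nat_lit 15) .nil))))) .nil)))) (.nd (nat_lit 5) (.nd (nat_lit 6) 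
(.lf (nat_lit 213403) (.g (nat_lit 3121) (.e (nat_lit 90130) (nat_lit 9) (.e (nat_lit 2830) (nat_lit 182) (.e (nat_lit 409648) (nat_lit 18) (.e (nat_lit 303116) (nat_lit 2) (.e (nat_lit 196624) (nat_lit 9) .nil))))) .nil)) 
(.lf (nat_lit 213467) (.g (nat_lit 2188) (.e (nat_lit 90133) (nat_lit 9) (.e (nat_lit 2397) (nat_lit 157) (.e (nat_lit 7592) (nat_lit 407) (.e (nat_lit 73754) (nat_lit 8) (.e (nat_lit 557070) (nat_lit 9) (.e (nat_lit 7936) (nat_lit 23) (.e (nat_lit 352312) (nat_lit 22) .nil))))))) (.g (nat_lit 5) .nil .nil)))) (.nd (nat_lit 6) 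
(.lf (nat_lit 213435) (.g (nat_lit 1313) (.e (nat_lit 90131) (nat_lit 9) (.e (nat_lit 249) (nat_lit 21) (.e (nat_lit 336215) (nat_lit 13) (.e (nat_lit 393227) (nat_lit 9) .nil)))) .nil)) 
(.lf (nat_lit 213499) (.g (nat_lit 3661) (.e (nat_lit 90134) (nat_lit 9) (.e (nat_lit 290) (nat_lit 21) (.e (nat_lit 336021) (nat_lit 3) (.e (nat_lit 98317) (nat_lit 9) (.e (nat_lit 336021) (nat_lit 3) (.e (nat_lit 98317) (nat_lit 9) (.e (nat_lit 336010) (nat_lit 2) .nil))))))) (.g (nat_lit 6) .nil .nil))))))) (.nd (nat_lit 3) (.nd (nat_lit 4) (.nd (nat_lit 5) (.nd (nat_lit 6) 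
(.lf (nat_lit 213383) (.g (nat_lit 1604) (.e (nat_lit 90130) (nat_lit 9) (.e (nat_lit 2830) (nat_lit 182) (.e (nat_lit 409602) (nat_lit 0) (.e (nat_lit 5394) (nat_lit 301) .nil)))) .nil)) 
(.lf (nat_lit 213447) (.g (nat_lit 1032) (.e (nat_lit 90133) (nat_lit 9) (.e (nat_lit 296) (nat_lit 22) (.e (nat_lit 344119) (nat_lit 21) (.e (nat_lit 516195) (nat_lit 26) (.e (nat_lit 336027) (nat_lit 3) .nil))))) .nil))) (.nd (nat_lit 6) 
(.lf (nat_lit 213415) (.g (nat_lit 2307) (.e (nat_lit 90130) (nat_lit 9) (.e (nat_lit 2830) (nat_lit 182) (.e (nat_lit 409648) (nat_lit 18) (.e (nat_lit 303119) (nat_lit 3) (.e (nat_lit 204877) (nat_lit 31) .nil))))) .nil)) 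
(.lf (nat_lit 213479) (.g (nat_lit 2360) (.e (nat_lit 90133) (nat_lit 9) (.e (nat_lit 2400) (nat_lit 157) (.e (nat_lit 7592) (nat_lit 407) (.e (nat_lit 73753) (nat_lit 8) (.e (nat_lit 557067) (nat_lit 9) (.e (nat_lit 7936) (nat_lit 26) (.e (nat_lit 376864) (nat_lit 22) .nil))))))) (.g (nat_lit 5) .nil .nil))))) (.nd (nat_lit 5) (.nd (nat_lit 6) 
(.lf (nat_lit 213399) (.g (nat_lit 2020) (.e (nat_lit 90130) (nat_lit 9) (.e (nat_lit 2830) (nat_lit 182) (.e (nat_lit 409647) (nat_lit 18) (.e (nat_lit 303117) (nat_lit 2) (.e (nat_lit 196624) (nat_lit 9) .nil))))) .nil)) 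
(.lf (nat_lit 213463) (.g (nat_lit 3023) (.e (nat_lit 90133) (nat_lit 9) (.e (nat_lit 2397) (nat_lit 157) (.e (nat_lit 7592) (nat_lit 407) (.e (nat_lit 73753) (nat_lit 8) (.e (nat_lit 557065) (nat_lit 9) (.e (nat_lit 334) (nat_lit 26) (.e (nat_lit 376864) (nat_lit 22) .nil))))))) (.g (nat_lit 6) .nil .nil)))) (.nd (nat_lit 6) 
(.lf (nat_lit 213431) (.g (nat_lit 941) (.e (nat_lit 90130) (nat_lit 9) (.e (nat_lit 3071) (nat_lit 190) (.e (nat_lit 475177) (nat_lit 24) (.e (nat_lit 516146) (nat_lit 9) .nil)))) .nil)) 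
(.lf (nat_lit 213495) (.g (nat_lit 1965) (.e (nat_lit 90134) (nat_lit 9) (.e (nat_lit 290) (nat_lit 21) (.e (nat_lit 336021) (nat_lit 3) (.e (nat_lit 98313) (nat_lit 9) (.e (nat_lit 336025) (nat_lit 3) .nil))))) .nil))))) (.nd (nat_lit 4) (.nd (nat_lit 5) (.nd (nat_lit 6) 
(.lf (nat_lit 213391) (.g (nat_lit 1735) (.e (nat_lit 90130) (nat_lit 9) (.e (nat_lit 2830) (nat_lit 182) (.e (nat_lit 409643) (nat_lit 18) (.e (nat_lit 303119) (nat_lit 3) (.e (nat_lit 204877) (nat_lit 31) .nil))))) .nil)) 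
(.lf (nat_lit 213455) (.g (nat_lit 1240) (.e (nat_lit 90133) (nat_lit 9) (.e (nat_lit 333) (nat_lit 26) (.e (nat_lit 376865) (nat_lit 22) (.e (nat_lit 90185) (nat_lit 17) (.e (nat_lit 245504) (nat_lit 20) .nil))))) .nil))) (.nd (nat_lit 6) 
(.lf (nat_lit 213423) (.g (nat_lit 2864) (.e (nat_lit 90130) (nat_lit 9) (.e (nat_lit 2830) (nat_lit 182) (.e (nat_lit 409649) (nat_lit 18) (.e (nat_lit 303116) (nat_lit 2) (.e (nat_lit 196662) (nat_lit 13) .nil))))) .nil)) 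
(.lf (nat_lit 213487) (.g (nat_lit 2724) (.e (nat_lit 90134) (nat_lit 9) (.e (nat_lit 214) (nat_lit 19) (.e (nat_lit 319505) (nat_lit 10) (.e (nat_lit 618) (nat_lit 48) (.e (nat_lit 557103) (nat_lit 14) .nil))))) .nil)))) (.nd (nat_lit 5) (.nd (nat_lit 6) 
(.lf (nat_lit 213407) (.g (nat_lit 2439) (.e (nat_lit 90130) (nat_lit 9) (.e (nat_lit 2830) (nat_lit 182) (.e (nat_lit 409648) (nat_lit 18) (.e (nat_lit 303117) (nat_lit 2) (.e (nat_lit 196624) (nat_lit 9) .nil))))) .nil)) 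
(.lf (nat_lit 213471) (.g (nat_lit 1346) (.e (nat_lit 90133) (nat_lit 9) (.e (nat_lit 2400) (nat_lit 157) (.e (nat_lit 7590) (nat_lit 407) (.e (nat_lit 73754) (nat_lit 8) (.e (nat_lit 557072) (nat_lit 9) (.e (nat_lit 7936) (nat_lit 26) (.e (nat_lit 376864) (nat_lit 22) .nil))))))) (.g (nat_lit 5) .nil .nil)))) (.nd (nat_lit 6) 
(.lf (nat_lit 213439) (.g (nat_lit 1683) (.e (nat_lit 90133) (nat_lit 9) (.e (nat_lit 253) (nat_lit 21) (.e (nat_lit 336004) (nat_lit 2) (.e (nat_lit 90158) (nat_lit 11) (.e (nat_lit 24608) (nat_lit 3) .nil))))) .nil)) 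
(.lf (nat_lit 213503) (.g (nat_lit 657) (.e (nat_lit 90134) (nat_lit 9) (.e (nat_lit 290) (nat_lit 21) (.e (nat_lit 336078) (nat_lit 9) (.e (nat_lit 336454) (nat_lit 34) .nil)))) .nil)))))))))

noncomputable def tv2815 : DT := (.nd (nat_lit 0) (.nd (nat_lit 1) (.nd (nat_lit 2) (.nd (nat_lit 3) (.nd (nat_lit 4) (.nd (nat_lit 5) (.nd (nat_lit 6) 
(.lf (nat_lit 213504) (.g (nat_lit 903) (.e (nat_lit 90134) (nat_lit 9) (.e (nat_lit 290) (nat_lit 21) (.e (nat_lit 336215) (nat_lit 13) (.e (nat_lit 393229) (nat_lit 9) .nil)))) .nil)) 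
(.lf (nat_lit 213568) (.g (nat_lit 2560) (.e (nat_lit 90141) (nat_lit 9) (.e (nat_lit 3102) (nat_lit 192) (.e (nat_lit 491560) (nat_lit 10) (.e (nat_lit 344129) (nat_lit 26) (.e (nat_lit 557087) (nat_lit 11) .nil))))) .nil))) (.nd (nat_lit 6) 
(.lf (nat_lit 213536) (.g (nat_lit 2976) (.e (nat_lit 90134) (nat_lit 9) (.e (nat_lit 3098) (nat_lit 192) (.e (nat_lit 491566) (nat_lit 12) (.e (nat_lit 385052) (nat_lit 21) .nil)))) .nil)) 
(.lf (nat_lit 213600) (.g (nat_lit 1742) (.e (nat_lit 90156) (nat_lit 11) (.e (nat_lit 24628) (nat_lit 9) (.e (nat_lit 336019) (nat_lit 3) (.e (nat_lit 98384) (nat_lit 32) (.e (nat_lit 475214) (nat_lit 42) .nil))))) .nil)))) (.nd (nat_lit 5) (.nd (nat_lit 6) 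
(.lf (nat_lit 213520) (.g (nat_lit 1491) (.e (nat_lit 90134) (nat_lit 9) (.e (nat_lit 3097) (nat_lit 192) (.e (nat_lit 491566) (nat_lit 12) (.e (nat_lit 385072) (nat_lit 31) .nil)))) .nil)) 
(.lf (nat_lit 213584) (.g (nat_lit 1825) (.e (nat_lit 90156) (nat_lit 11) (.e (nat_lit 24626) (nat_lit 9) (.e (nat_lit 336454) (nat_lit 34) (.e (nat_lit 483366) (nat_lit 18) .nil)))) .nil))) (.nd (nat_lit 6) 
(.lf (nat_lit 213552) (.g (nat_lit 2417) (.e (nat_lit 90140) (nat_lit 9) (.e (nat_lit 250) (nat_lit 21) (.e (nat_lit 336213) (nat_lit 13) (.e (nat_lit 393225) (nat_lit 9) (.e (nat_lit 335996) (nat_lit 1) .nil))))) .nil)) 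
(.lf (nat_lit 213616) (.g (nat_lit 1404) (.e (nat_lit 90156) (nat_lit 11) (.e (nat_lit 24640) (nat_lit 10) (.e (nat_lit 344117) (nat_lit 21) (.e (nat_lit 516145) (nat_lit 9) .nil)))) .nil))))) (.nd (nat_lit 4) (.nd (nat_lit 5) (.nd (nat_lit 6) 
(.lf (nat_lit 213512) (.g (nat_lit 3435) (.e (nat_lit 90134) (nat_lit 9) (.e (nat_lit 2886) (nat_lit 184) (.e (nat_lit 426211) (nat_lit 9) (.e (nat_lit 426125) (nat_lit 2) (.e (nat_lit 196625) (nat_lit 9) (.e (nat_lit 1401) (nat_lit 106) (.e (nat_lit 319531) (nat_lit 16) (.e (nat_lit 286733) (nat_lit 2) .nil)))))))) (.g (nat_lit 4) .nil .nil))) 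
(.lf (nat_lit 213576) (.g (nat_lit 670) (.e (nat_lit 90156) (nat_lit 11) (.e (nat_lit 24608) (nat_lit 3) (.e (nat_lit 98317) (nat_lit 9) .nil))) .nil))) (.nd (nat_lit 6) 
(.lf (nat_lit 213544) (.g (nat_lit 1828) (.e (nat_lit 90134) (nat_lit 9) (.e (nat_lit 3098) (nat_lit 192) (.e (nat_lit 491571) (nat_lit 13) (.e (nat_lit 393257) (nat_lit 20) .nil)))) .nil)) 
(.lf (nat_lit 213608) (.g (nat_lit 2000) (.e (nat_lit 90156) (nat_lit 11) (.e (nat_lit 24628) (nat_lit 9) (.e (nat_lit 336456) (nat_lit 34) (.e (nat_lit 483365) (nat_lit 18) (.e (nat_lit 57851) (nat_lit 252) .nil))))) .nil)))) (.nd (nat_lit 5) (.nd (nat_lit 6) 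
(.lf (nat_lit 213528) (.g (nat_lit 2058) (.e (nat_lit 90134) (nat_lit 9) (.e (nat_lit 3098) (nat_lit 192) (.e (nat_lit 491566) (nat_lit 12) (.e (nat_lit 385045) (nat_lit 21) .nil)))) .nil)) 
(.lf (nat_lit 213592) (.g (nat_lit 1788) (.e (nat_lit 90156) (nat_lit 11) (.e (nat_lit 24628) (nat_lit 9) (.e (nat_lit 336019) (nat_lit 3) (.e (nat_lit 98356) (nat_lit 26) (.e (nat_lit 426446) (nat_lit 20) .nil))))) .nil))) (.nd (nat_lit 6) 
(.lf (nat_lit 213560) (.g (nat_lit 2057) (.e (nat_lit 90140) (nat_lit 9) (.e (nat_lit 2611) (nat_lit 163) (.e (nat_lit 164403) (nat_lit 256) (.e (nat_lit 57371) (nat_lit 2) (.e (nat_lit 90171) (nat_lit 14) .nil))))) .nil)) 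
(.lf (nat_lit 213624) (.g (nat_lit 1709) (.e (nat_lit 90156) (nat_lit 11) (.e (nat_lit 24655) (nat_lit 13) (.e (nat_lit 393229) (nat_lit 9) (.e (nat_lit 335994) (nat_lit 1) (.e (nat_lit 57851) (nat_lit 252) .nil))))) .nil)))))) (.nd (nat_lit 3) (.nd (nat_lit 4) (.nd (nat_lit 5) (.nd (nat_lit 6) 
(.lf (nat_lit 213508) (.g (nat_lit 1280) (.e (nat_lit 90134) (nat_lit 9) (.e (nat_lit 7936) (nat_lit 24) (.e (nat_lit 360466) (nat_lit 3) (.e (nat_lit 516146) (nat_lit 9) (.e (nat_lit 433920) (nat_lit 20) (.e (nat_lit 114715) (nat_lit 22) .nil)))))) (.g (nat_lit 4) .nil .nil))) 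
(.lf (nat_lit 213572) (.g (nat_lit 1979) (.e (nat_lit 90155) (nat_lit 10) (.e (nat_lit 8567) (nat_lit 250) (.e (nat_lit 1661) (nat_lit 115) (.e (nat_lit 393225) (nat_lit 9) (.e (nat_lit 335988) (nat_lit 1) .nil))))) .nil))) (.nd (nat_lit 6) 
(.lf (nat_lit 213540) (.g (nat_lit 2625) (.e (nat_lit 90134) (nat_lit 9) (.e (nat_lit 3098) (nat_lit 192) (.e (nat_lit 491566) (nat_lit 12) (.e (nat_lit 385075) (nat_lit 32) .nil)))) .nil)) 
(.lf (nat_lit 213604) (.g (nat_lit 1241) (.e (nat_lit 90156) (nat_lit 11) (.e (nat_lit 24628) (nat_lit 9) (.e (nat_lit 336019) (nat_lit 3) (.e (nat_lit 98386) (nat_lit 32) .nil)))) .nil)))) (.nd (nat_lit 5) (.nd (nat_lit 6) 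
(.lf (nat_lit 213524) (.g (nat_lit 2217) (.e (nat_lit 90134) (nat_lit 9) (.e (nat_lit 3098) (nat_lit 192) (.e (nat_lit 491566) (nat_lit 12) (.e (nat_lit 385043) (nat_lit 21) .nil)))) .nil)) 
(.lf (nat_lit 213588) (.g (nat_lit 418) (.e (nat_lit 90156) (nat_lit 11) (.e (nat_lit 24628) (nat_lit 9) (.e (nat_lit 336019) (nat_lit 3) .nil))) .nil))) (.nd (nat_lit 6) 
(.lf (nat_lit 213556) (.g (nat_lit 2107) (.e (nat_lit 90140) (nat_lit 9) (.e (nat_lit 2610) (nat_lit 163) (.e (nat_lit 164402) (nat_lit 256) (.e (nat_lit 57371) (nat_lit 2) (.e (nat_lit 90172) (nat_lit 14) .nil))))) .nil)) 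
(.lf (nat_lit 213620) (.g (nat_lit 2317) (.e (nat_lit 90156) (nat_lit 11) (.e (nat_lit 24640) (nat_lit 10) (.e (nat_lit 344117) (nat_lit 21) (.e (nat_lit 516151) (nat_lit 9) (.e (nat_lit 433920) (nat_lit 20) (.e (nat_lit 114715) (nat_lit 22) .nil)))))) (.g (nat_lit 4) .nil .nil)))))) (.nd (nat_lit 4) (.nd (nat_lit 5) (.nd (nat_lit 6) 
(.lf (nat_lit 213516) (.g (nat_lit 1397) (.e (nat_lit 90134) (nat_lit 9) (.e (nat_lit 3022) (nat_lit 187) (.e (nat_lit 450580) (nat_lit 5) (.e (nat_lit 532522) (nat_lit 7) .nil)))) .nil)) 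
(.lf (nat_lit 213580) (.g (nat_lit 2108) (.e (nat_lit 90156) (nat_lit 11) (.e (nat_lit 24625) (nat_lit 9) (.e (nat_lit 336367) (nat_lit 27) (.e (nat_lit 426482) (nat_lit 27) (.e (nat_lit 335997) (nat_lit 1) .nil))))) .nil))) (.nd (nat_lit 6) 
(.lf (nat_lit 213548) (.g (nat_lit 1680) (.e (nat_lit 90137) (nat_lit 9) (.e (nat_lit 2599) (nat_lit 163) (.e (nat_lit 164399) (nat_lit 256) (.e (nat_lit 57378) (nat_lit 3) (.e (nat_lit 98376) (nat_lit 30) .nil))))) .nil)) 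
(.lf (nat_lit 213612) (.g (nat_lit 2709) (.e (nat_lit 90156) (nat_lit 11) (.e (nat_lit 24630) (nat_lit 9) (.e (nat_lit 336369) (nat_lit 27) (.e (nat_lit 426499) (nat_lit 27) (.e (nat_lit 335986) (nat_lit 1) .nil))))) .nil)))) (.nd (nat_lit 5) (.nd (nat_lit 6) 
(.lf (nat_lit 213532) (.g (nat_lit 3207) (.e (nat_lit 90134) (nat_lit 9) (.e (nat_lit 3098) (nat_lit 192) (.e (nat_lit 491566) (nat_lit 12) (.e (nat_lit 385049) (nat_lit 21) (.e (nat_lit 4194) (nat_lit 251) .nil))))) .nil)) 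
(.lf (nat_lit 213596) (.g (nat_lit 1895) (.e (nat_lit 90156) (nat_lit 11) (.e (nat_lit 24628) (nat_lit 9) (.e (nat_lit 336019) (nat_lit 3) (.e (nat_lit 98358) (nat_lit 26) (.e (nat_lit 426446) (nat_lit 20) .nil))))) .nil))) (.nd (nat_lit 6) 
(.lf (nat_lit 213564) (.g (nat_lit 1144) (.e (nat_lit 90141) (nat_lit 9) (.e (nat_lit 250) (nat_lit 21) (.e (nat_lit 336213) (nat_lit 13) (.e (nat_lit 393229) (nat_lit 9) .nil)))) .nil)) 
(.lf (nat_lit 213628) (.g (nat_lit 1265) (.e (nat_lit 90156) (nat_lit 11) (.e (nat_lit 24657) (nat_lit 13) (.e (nat_lit 393229) (nat_lit 9) (.e (nat_lit 335986) (nat_lit 1) .nil)))) .nil))))))) (.nd (nat_lit 2) (.nd (nat_lit 3) (.nd (nat_lit 4) (.nd (nat_lit 5) (.nd (nat_lit 6) 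
(.lf (nat_lit 213506) (.g (nat_lit 1514) (.e (nat_lit 90134) (nat_lit 9) (.e (nat_lit 290) (nat_lit 21) (.e (nat_lit 336215) (nat_lit 13) (.e (nat_lit 393229) (nat_lit 9) (.e (nat_lit 335996) (nat_lit 1) .nil))))) .nil)) 
(.lf (nat_lit 213570) (.g (nat_lit 2282) (.e (nat_lit 98048) (nat_lit 9) (.e (nat_lit 2828) (nat_lit 182) (.e (nat_lit 409646) (nat_lit 18) (.e (nat_lit 303117) (nat_lit 2) (.e (nat_lit 196630) (nat_lit 9) .nil))))) .nil))) (.nd (nat_lit 6) 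
(.lf (nat_lit 213538) (.g (nat_lit 2727) (.e (nat_lit 90134) (nat_lit 9) (.e (nat_lit 3098) (nat_lit 192) (.e (nat_lit 491566) (nat_lit 12) (.e (nat_lit 385054) (nat_lit 21) .nil)))) .nil)) 
(.lf (nat_lit 213602) (.g (nat_lit 1258) (.e (nat_lit 90156) (nat_lit 11) (.e (nat_lit 24628) (nat_lit 9) (.e (nat_lit 336019) (nat_lit 3) (.e (nat_lit 98385) (nat_lit 32) .nil)))) .nil)))) (.nd (nat_lit 5) (.nd (nat_lit 6) 
(.lf (nat_lit 213522) (.g (nat_lit 2272) (.e (nat_lit 90134) (nat_lit 9) (.e (nat_lit 3098) (nat_lit 192) (.e (nat_lit 491563) (nat_lit 12) (.e (nat_lit 385073) (nat_lit 31) (.e (nat_lit 573493) (nat_lit 15) .nil))))) .nil)) 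
(.lf (nat_lit 213586) (.g (nat_lit 1360) (.e (nat_lit 90156) (nat_lit 11) (.e (nat_lit 24627) (nat_lit 9) (.e (nat_lit 336454) (nat_lit 34) (.e (nat_lit 483365) (nat_lit 18) .nil)))) .nil))) (.nd (nat_lit 6) 
(.lf (nat_lit 213554) (.g (nat_lit 2013) (.e (nat_lit 90140) (nat_lit 9) (.e (nat_lit 284) (nat_lit 21) (.e (nat_lit 336078) (nat_lit 9) (.e (nat_lit 336454) (nat_lit 34) (.e (nat_lit 483365) (nat_lit 18) .nil))))) .nil)) 
(.lf (nat_lit 213618) (.g (nat_lit 2384) (.e (nat_lit 90156) (nat_lit 11) (.e (nat_lit 24640) (nat_lit 10) (.e (nat_lit 344117) (nat_lit 21) (.e (nat_lit 516145) (nat_lit 9) (.e (nat_lit 426449) (nat_lit 20) .nil))))) .nil))))) (.nd (nat_lit 4) (.nd (nat_lit 5) (.nd (nat_lit 6) 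
(.lf (nat_lit 213514) (.g (nat_lit 1745) (.e (nat_lit 90134) (nat_lit 9) (.e (nat_lit 2928) (nat_lit 184) (.e (nat_lit 426316) (nat_lit 12) (.e (nat_lit 475185) (nat_lit 29) (.e (nat_lit 557103) (nat_lit 14) .nil))))) .nil)) 
(.lf (nat_lit 213578) (.g (nat_lit 1465) (.e (nat_lit 90156) (nat_lit 11) (.e (nat_lit 24623) (nat_lit 9) (.e (nat_lit 336028) (nat_lit 3) (.e (nat_lit 98359) (nat_lit 26) .nil)))) .nil))) (.nd (nat_lit 6) 
(.lf (nat_lit 213546) (.g (nat_lit 2614) (.e (nat_lit 90136) (nat_lit 9) (.e (nat_lit 3102) (nat_lit 192) (.e (nat_lit 491560) (nat_lit 10) (.e (nat_lit 344126) (nat_lit 25) (.e (nat_lit 548893) (nat_lit 13) .nil))))) .nil)) 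
(.lf (nat_lit 213610) (.g (nat_lit 2345) (.e (nat_lit 90156) (nat_lit 11) (.e (nat_lit 24630) (nat_lit 9) (.e (nat_lit 336369) (nat_lit 27) (.e (nat_lit 426497) (nat_lit 27) (.e (nat_lit 335995) (nat_lit 1) .nil))))) .nil)))) (.nd (nat_lit 5) (.nd (nat_lit 6) 
(.lf (nat_lit 213530) (.g (nat_lit 2973) (.e (nat_lit 90134) (nat_lit 9) (.e (nat_lit 3098) (nat_lit 192) (.e (nat_lit 491566) (nat_lit 12) (.e (nat_lit 385048) (nat_lit 21) .nil)))) .nil)) 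
(.lf (nat_lit 213594) (.g (nat_lit 1265) (.e (nat_lit 90156) (nat_lit 11) (.e (nat_lit 24628) (nat_lit 9) (.e (nat_lit 336019) (nat_lit 3) (.e (nat_lit 98357) (nat_lit 26) .nil)))) .nil))) (.nd (nat_lit 6) 
(.lf (nat_lit 213562) (.g (nat_lit 2364) (.e (nat_lit 90140) (nat_lit 9) (.e (nat_lit 2611) (nat_lit 163) (.e (nat_lit 164403) (nat_lit 256) (.e (nat_lit 57377) (nat_lit 3) (.e (nat_lit 98377) (nat_lit 30) .nil))))) .nil)) 
(.lf (nat_lit 213626) (.g (nat_lit 1998) (.e (nat_lit 90156) (nat_lit 11) (.e (nat_lit 24657) (nat_lit 13) (.e (nat_lit 393225) (nat_lit 9) (.e (nat_lit 335996) (nat_lit 1) .nil)))) .nil)))))) (.nd (nat_lit 3) (.nd (nat_lit 4) (.nd (nat_lit 5) (.nd (nat_lit 6) 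
(.lf (nat_lit 213510) (.g (nat_lit 1701) (.e (nat_lit 90134) (nat_lit 9) (.e (nat_lit 2822) (nat_lit 182) (.e (nat_lit 409646) (nat_lit 18) (.e (nat_lit 303117) (nat_lit 2) (.e (nat_lit 196630) (nat_lit 9) .nil))))) .nil)) 
(.lf (nat_lit 213574) (.g (nat_lit 2115) (.e (nat_lit 90156) (nat_lit 11) (.e (nat_lit 24607) (nat_lit 3) (.e (nat_lit 98317) (nat_lit 9) (.e (nat_lit 336021) (nat_lit 3) (.e (nat_lit 98313) (nat_lit 9) .nil))))) .nil))) (.nd (nat_lit 6) 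
(.lf (nat_lit 213542) (.g (nat_lit 2290) (.e (nat_lit 90134) (nat_lit 9) (.e (nat_lit 3098) (nat_lit 192) (.e (nat_lit 491571) (nat_lit 13) (.e (nat_lit 393232) (nat_lit 17) (.e (nat_lit 3555) (nat_lit 220) .nil))))) .nil)) 
(.lf (nat_lit 213606) (.g (nat_lit 1834) (.e (nat_lit 90156) (nat_lit 11) (.e (nat_lit 24628) (nat_lit 9) (.e (nat_lit 336019) (nat_lit 3) (.e (nat_lit 98386) (nat_lit 32) (.e (nat_lit 475213) (nat_lit 42) .nil))))) .nil)))) (.nd (nat_lit 5) (.nd (nat_lit 6) 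
(.lf (nat_lit 213526) (.g (nat_lit 2498) (.e (nat_lit 90134) (nat_lit 9) (.e (nat_lit 3098) (nat_lit 192) (.e (nat_lit 491566) (nat_lit 12) (.e (nat_lit 385043) (nat_lit 21) (.e (nat_lit 4288) (nat_lit 254) .nil))))) .nil)) 
(.lf (nat_lit 213590) (.g (nat_lit 1627) (.e (nat_lit 90156) (nat_lit 11) (.e (nat_lit 24628) (nat_lit 9) (.e (nat_lit 336019) (nat_lit 3) (.e (nat_lit 98355) (nat_lit 26) (.e (nat_lit 426448) (nat_lit 20) .nil))))) .nil))) (.nd (nat_lit 6) 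
(.lf (nat_lit 213558) (.g (nat_lit 2209) (.e (nat_lit 90140) (nat_lit 9) (.e (nat_lit 2610) (nat_lit 163) (.e (nat_lit 164403) (nat_lit 256) (.e (nat_lit 57371) (nat_lit 2) (.e (nat_lit 90172) (nat_lit 14) .nil))))) .nil)) 
(.lf (nat_lit 213622) (.g (nat_lit 1647) (.e (nat_lit 90156) (nat_lit 11) (.e (nat_lit 24640) (nat_lit 10) (.e (nat_lit 344117) (nat_lit 21) (.e (nat_lit 516180) (nat_lit 15) .nil)))) .nil))))) (.nd (nat_lit 4) (.nd (nat_lit 5) (.nd (nat_lit 6) 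
(.lf (nat_lit 213518) (.g (nat_lit 3886) (.e (nat_lit 90134) (nat_lit 9) (.e (nat_lit 3096) (nat_lit 192) (.e (nat_lit 491563) (nat_lit 12) (.e (nat_lit 385074) (nat_lit 31) (.e (nat_lit 573485) (nat_lit 13) .nil))))) .nil)) 
(.lf (nat_lit 213582) (.g (nat_lit 1954) (.e (nat_lit 90156) (nat_lit 11) (.e (nat_lit 24625) (nat_lit 9) (.e (nat_lit 336456) (nat_lit 34) (.e (nat_lit 483365) (nat_lit 18) (.e (nat_lit 57844) (nat_lit 252) .nil))))) .nil))) (.nd (nat_lit 6) 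
(.lf (nat_lit 213550) (.g (nat_lit 1564) (.e (nat_lit 90137) (nat_lit 9) (.e (nat_lit 2609) (nat_lit 163) (.e (nat_lit 164403) (nat_lit 256) (.e (nat_lit 57373) (nat_lit 2) (.e (nat_lit 90170) (nat_lit 13) .nil))))) .nil)) 
(.lf (nat_lit 213614) (.g (nat_lit 2230) (.e (nat_lit 90156) (nat_lit 11) (.e (nat_lit 24630) (nat_lit 9) (.e (nat_lit 336369) (nat_lit 27) (.e (nat_lit 426501) (nat_lit 27) (.e (nat_lit 335995) (nat_lit 1) .nil))))) .nil)))) (.nd (nat_lit 5) (.nd (nat_lit 6) 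
(.lf (nat_lit 213534) (.g (nat_lit 2485) (.e (nat_lit 90134) (nat_lit 9) (.e (nat_lit 3098) (nat_lit 192) (.e (nat_lit 491566) (nat_lit 12) (.e (nat_lit 385051) (nat_lit 21) .nil)))) .nil)) 
(.lf (nat_lit 213598) (.g (nat_lit 1613) (.e (nat_lit 90156) (nat_lit 11) (.e (nat_lit 24628) (nat_lit 9) (.e (nat_lit 336019) (nat_lit 3) (.e (nat_lit 98384) (nat_lit 32) (.e (nat_lit 475212) (nat_lit 42) .nil))))) .nil))) (.nd (nat_lit 6) 
(.lf (nat_lit 213566) (.g (nat_lit 1922) (.e (nat_lit 90141) (nat_lit 9) (.e (nat_lit 250) (nat_lit 21) (.e (nat_lit 336215) (nat_lit 13) (.e (nat_lit 393229) (nat_lit 9) (.e (nat_lit 335995) (nat_lit 1) .nil))))) .nil)) 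
(.lf (nat_lit 213630) (.g (nat_lit 2995) (.e (nat_lit 90156) (nat_lit 11) (.e (nat_lit 24657) (nat_lit 13) (.e (nat_lit 393229) (nat_lit 9) (.e (nat_lit 335986) (nat_lit 1) (.e (nat_lit 57853) (nat_lit 252) .nil))))) .nil)))))))) (.nd (nat_lit 1) (.nd (nat_lit 2) (.nd (nat_lit 3) (.nd (nat_lit 4) (.nd (nat_lit 5) (.nd (nat_lit 6) 
(.lf (nat_lit 213505) (.g (nat_lit 1652) (.e (nat_lit 90134) (nat_lit 9) (.e (nat_lit 290) (nat_lit 21) (.e (nat_lit 336215) (nat_lit 13) (.e (nat_lit 393229) (nat_lit 9) (.e (nat_lit 335995) (nat_lit 1) .nil))))) .nil)) 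
(.lf (nat_lit 213569) (.g (nat_lit 989) (.e (nat_lit 90146) (nat_lit 9) (.e (nat_lit 284) (nat_lit 21) (.e (nat_lit 336213) (nat_lit 13) (.e (nat_lit 393229) (nat_lit 9) .nil)))) .nil))) (.nd (nat_lit 6) 
(.lf (nat_lit 213537) (.g (nat_lit 2943) (.e (nat_lit 90134) (nat_lit 9) (.e (nat_lit 3098) (nat_lit 192) (.e (nat_lit 491566) (nat_lit 12) (.e (nat_lit 385053) (nat_lit 21) .nil)))) .nil)) 
(.lf (nat_lit 213601) (.g (nat_lit 2104) (.e (nat_lit 90156) (nat_lit 11) (.e (nat_lit 24628) (nat_lit 9) (.e (nat_lit 336019) (nat_lit 3) (.e (nat_lit 98384) (nat_lit 32) (.e (nat_lit 483072) (nat_lit 42) .nil))))) .nil)))) (.nd (nat_lit 5) (.nd (nat_lit 6) 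
(.lf (nat_lit 213521) (.g (nat_lit 2389) (.e (nat_lit 90134) (nat_lit 9) (.e (nat_lit 3098) (nat_lit 192) (.e (nat_lit 491549) (nat_lit 9) (.e (nat_lit 336260) (nat_lit 15) (.e (nat_lit 3308) (nat_lit 202) .nil))))) .nil)) 
(.lf (nat_lit 213585) (.g (nat_lit 1998) (.e (nat_lit 90156) (nat_lit 11) (.e (nat_lit 24627) (nat_lit 9) (.e (nat_lit 336454) (nat_lit 34) (.e (nat_lit 483363) (nat_lit 18) (.e (nat_lit 57847) (nat_lit 252) .nil))))) .nil))) (.nd (nat_lit 6) 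
(.lf (nat_lit 213553) (.g (nat_lit 1909) (.e (nat_lit 90140) (nat_lit 9) (.e (nat_lit 250) (nat_lit 21) (.e (nat_lit 336223) (nat_lit 13) (.e (nat_lit 393229) (nat_lit 9) (.e (nat_lit 335995) (nat_lit 1) .nil))))) .nil)) 
(.lf (nat_lit 213617) (.g (nat_lit 2242) (.e (nat_lit 90156) (nat_lit 11) (.e (nat_lit 24640) (nat_lit 10) (.e (nat_lit 344117) (nat_lit 21) (.e (nat_lit 516145) (nat_lit 9) (.e (nat_lit 426446) (nat_lit 20) .nil))))) .nil))))) (.nd (nat_lit 4) (.nd (nat_lit 5) (.nd (nat_lit 6) 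
(.lf (nat_lit 213513) (.g (nat_lit 1771) (.e (nat_lit 90134) (nat_lit 9) (.e (nat_lit 2914) (nat_lit 184) (.e (nat_lit 426316) (nat_lit 12) (.e (nat_lit 475185) (nat_lit 29) (.e (nat_lit 557105) (nat_lit 14) .nil))))) .nil)) 
(.lf (nat_lit 213577) (.g (nat_lit 2622) (.e (nat_lit 90156) (nat_lit 11) (.e (nat_lit 24623) (nat_lit 9) (.e (nat_lit 336013) (nat_lit 2) (.e (nat_lit 90170) (nat_lit 13) (.e (nat_lit 179968) (nat_lit 20) .nil))))) .nil))) (.nd (nat_lit 6) 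
(.lf (nat_lit 213545) (.g (nat_lit 2142) (.e (nat_lit 90134) (nat_lit 9) (.e (nat_lit 3098) (nat_lit 192) (.e (nat_lit 491571) (nat_lit 13) (.e (nat_lit 393258) (nat_lit 20) (.e (nat_lit 253960) (nat_lit 9) .nil))))) .nil)) 
(.lf (nat_lit 213609) (.g (nat_lit 1742) (.e (nat_lit 90156) (nat_lit 11) (.e (nat_lit 24630) (nat_lit 9) (.e (nat_lit 336369) (nat_lit 27) (.e (nat_lit 426497) (nat_lit 27) .nil)))) .nil)))) (.nd (nat_lit 5) (.nd (nat_lit 6) 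
(.lf (nat_lit 213529) (.g (nat_lit 2360) (.e (nat_lit 90134) (nat_lit 9) (.e (nat_lit 3098) (nat_lit 192) (.e (nat_lit 491566) (nat_lit 12) (.e (nat_lit 385046) (nat_lit 21) .nil)))) .nil)) 
(.lf (nat_lit 213593) (.g (nat_lit 1934) (.e (nat_lit 90156) (nat_lit 11) (.e (nat_lit 24628) (nat_lit 9) (.e (nat_lit 336019) (nat_lit 3) (.e (nat_lit 98356) (nat_lit 26) (.e (nat_lit 426449) (nat_lit 20) .nil))))) .nil))) (.nd (nat_lit 6) 
(.lf (nat_lit 213561) (.g (nat_lit 2313) (.e (nat_lit 90140) (nat_lit 9) (.e (nat_lit 2611) (nat_lit 163) (.e (nat_lit 164403) (nat_lit 256) (.e (nat_lit 57377) (nat_lit 3) (.e (nat_lit 98376) (nat_lit 30) .nil))))) .nil)) 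
(.lf (nat_lit 213625) (.g (nat_lit 1669) (.e (nat_lit 90156) (nat_lit 11) (.e (nat_lit 24655) (nat_lit 13) (.e (nat_lit 393229) (nat_lit 9) (.e (nat_lit 335995) (nat_lit 1) .nil)))) .nil)))))) (.nd (nat_lit 3) (.nd (nat_lit 4) (.nd (nat_lit 5) (.nd (nat_lit 6) 
(.lf (nat_lit 213509) (.g (nat_lit 1259) (.e (nat_lit 90134) (nat_lit 9) (.e (nat_lit 2822) (nat_lit 182) (.e (nat_lit 409645) (nat_lit 18) (.e (nat_lit 303106) (nat_lit 0) (.e (nat_lit 3114) (nat_lit 193) .nil))))) .nil)) 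
(.lf (nat_lit 213573) (.g (nat_lit 1529) (.e (nat_lit 90156) (nat_lit 11) (.e (nat_lit 24607) (nat_lit 3) (.e (nat_lit 98317) (nat_lit 9) (.e (nat_lit 336021) (nat_lit 3) .nil)))) .nil))) (.nd (nat_lit 6) 
(.lf (nat_lit 213541) (.g (nat_lit 2558) (.e (nat_lit 90134) (nat_lit 9) (.e (nat_lit 3098) (nat_lit 192) (.e (nat_lit 491569) (nat_lit 13) (.e (nat_lit 393234) (nat_lit 17) (.e (nat_lit 3555) (nat_lit 220) .nil))))) .nil)) 
(.lf (nat_lit 213605) (.g (nat_lit 1765) (.e (nat_lit 90156) (nat_lit 11) (.e (nat_lit 24628) (nat_lit 9) (.e (nat_lit 336019) (nat_lit 3) (.e (nat_lit 98386) (nat_lit 32) (.e (nat_lit 475212) (nat_lit 42) .nil))))) .nil)))) (.nd (nat_lit 5) (.nd (nat_lit 6) 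
(.lf (nat_lit 213525) (.g (nat_lit 2498) (.e (nat_lit 90134) (nat_lit 9) (.e (nat_lit 3098) (nat_lit 192) (.e (nat_lit 491566) (nat_lit 12) (.e (nat_lit 385043) (nat_lit 21) (.e (nat_lit 4168) (nat_lit 251) .nil))))) .nil)) 
(.lf (nat_lit 213589) (.g (nat_lit 1572) (.e (nat_lit 90156) (nat_lit 11) (.e (nat_lit 24628) (nat_lit 9) (.e (nat_lit 336019) (nat_lit 3) (.e (nat_lit 98355) (nat_lit 26) (.e (nat_lit 426446) (nat_lit 20) .nil))))) .nil))) (.nd (nat_lit 6) 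
(.lf (nat_lit 213557) (.g (nat_lit 1411) (.e (nat_lit 90140) (nat_lit 9) (.e (nat_lit 2610) (nat_lit 163) (.e (nat_lit 164403) (nat_lit 256) (.e (nat_lit 57371) (nat_lit 2) .nil)))) .nil)) 
(.lf (nat_lit 213621) (.g (nat_lit 1603) (.e (nat_lit 90156) (nat_lit 11) (.e (nat_lit 24640) (nat_lit 10) (.e (nat_lit 344117) (nat_lit 21) (.e (nat_lit 516179) (nat_lit 15) .nil)))) .nil))))) (.nd (nat_lit 4) (.nd (nat_lit 5) (.nd (nat_lit 6) 
(.lf (nat_lit 213517) (.g (nat_lit 4331) (.e (nat_lit 90134) (nat_lit 9) (.e (nat_lit 3028) (nat_lit 187) (.e (nat_lit 450588) (nat_lit 10) (.e (nat_lit 573474) (nat_lit 12) (.e (nat_lit 57572) (nat_lit 54) .nil))))) .nil)) 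
(.lf (nat_lit 213581) (.g (nat_lit 1128) (.e (nat_lit 90156) (nat_lit 11) (.e (nat_lit 24625) (nat_lit 9) (.e (nat_lit 336456) (nat_lit 34) (.e (nat_lit 483365) (nat_lit 18) .nil)))) .nil))) (.nd (nat_lit 6) 
(.lf (nat_lit 213549) (.g (nat_lit 1579) (.e (nat_lit 90137) (nat_lit 9) (.e (nat_lit 2600) (nat_lit 163) (.e (nat_lit 164399) (nat_lit 256) (.e (nat_lit 57379) (nat_lit 3) (.e (nat_lit 98377) (nat_lit 30) .nil))))) .nil)) 
(.lf (nat_lit 213613) (.g (nat_lit 3029) (.e (nat_lit 90156) (nat_lit 11) (.e (nat_lit 24630) (nat_lit 9) (.e (nat_lit 336369) (nat_lit 27) (.e (nat_lit 426499) (nat_lit 27) (.e (nat_lit 335996) (nat_lit 1) .nil))))) .nil)))) (.nd (nat_lit 5) (.nd (nat_lit 6) 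
(.lf (nat_lit 213533) (.g (nat_lit 2819) (.e (nat_lit 90134) (nat_lit 9) (.e (nat_lit 3098) (nat_lit 192) (.e (nat_lit 491566) (nat_lit 12) (.e (nat_lit 385050) (nat_lit 21) .nil)))) .nil)) 
(.lf (nat_lit 213597) (.g (nat_lit 1995) (.e (nat_lit 90156) (nat_lit 11) (.e (nat_lit 24628) (nat_lit 9) (.e (nat_lit 336019) (nat_lit 3) (.e (nat_lit 98384) (nat_lit 32) (.e (nat_lit 475201) (nat_lit 40) .nil))))) .nil))) (.nd (nat_lit 6) 
(.lf (nat_lit 213565) (.g (nat_lit 1071) (.e (nat_lit 90141) (nat_lit 9) (.e (nat_lit 250) (nat_lit 21) (.e (nat_lit 336215) (nat_lit 13) (.e (nat_lit 393229) (nat_lit 9) .nil)))) .nil)) 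
(.lf (nat_lit 213629) (.g (nat_lit 1800) (.e (nat_lit 90156) (nat_lit 11) (.e (nat_lit 24657) (nat_lit 13) (.e (nat_lit 393229) (nat_lit 9) (.e (nat_lit 335986) (nat_lit 1) (.e (nat_lit 57849) (nat_lit 252) .nil))))) .nil))))))) (.nd (nat_lit 2) (.nd (nat_lit 3) (.nd (nat_lit 4) (.nd (nat_lit 5) (.nd (nat_lit 6) 
(.lf (nat_lit 213507) (.g (nat_lit 4753) (.e (nat_lit 90134) (nat_lit 9) (.e (nat_lit 290) (nat_lit 21) (.e (nat_lit 336215) (nat_lit 13) (.e (nat_lit 393229) (nat_lit 9) (.e (nat_lit 335996) (nat_lit 1) (.e (nat_lit 57851) (nat_lit 252) (.e (nat_lit 57371) (nat_lit 2) .nil))))))) (.g (nat_lit 7) .nil .nil))) 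
(.lf (nat_lit 213571) (.g (nat_lit 1782) (.e (nat_lit 90153) (nat_lit 10) (.e (nat_lit 8568) (nat_lit 250) (.e (nat_lit 1661) (nat_lit 115) (.e (nat_lit 393225) (nat_lit 9) (.e (nat_lit 335995) (nat_lit 1) .nil))))) .nil))) (.nd (nat_lit 6) 
(.lf (nat_lit 213539) (.g (nat_lit 2185) (.e (nat_lit 90134) (nat_lit 9) (.e (nat_lit 3098) (nat_lit 192) (.e (nat_lit 491566) (nat_lit 12) (.e (nat_lit 385072) (nat_lit 31) (.e (nat_lit 573479) (nat_lit 13) .nil))))) .nil)) 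
(.lf (nat_lit 213603) (.g (nat_lit 1516) (.e (nat_lit 90156) (nat_lit 11) (.e (nat_lit 24628) (nat_lit 9) (.e (nat_lit 336019) (nat_lit 3) (.e (nat_lit 98385) (nat_lit 32) (.e (nat_lit 475214) (nat_lit 42) .nil))))) .nil)))) (.nd (nat_lit 5) (.nd (nat_lit 6) 
(.lf (nat_lit 213523) (.g (nat_lit 306) (.e (nat_lit 90134) (nat_lit 9) (.e (nat_lit 3098) (nat_lit 192) (.e (nat_lit 491566) (nat_lit 12) .nil))) .nil)) 
(.lf (nat_lit 213587) (.g (nat_lit 2248) (.e (nat_lit 90156) (nat_lit 11) (.e (nat_lit 24627) (nat_lit 9) (.e (nat_lit 336454) (nat_lit 34) (.e (nat_lit 483365) (nat_lit 18) (.e (nat_lit 57846) (nat_lit 252) .nil))))) .nil))) (.nd (nat_lit 6) 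
(.lf (nat_lit 213555) (.g (nat_lit 1355) (.e (nat_lit 90140) (nat_lit 9) (.e (nat_lit 284) (nat_lit 21) (.e (nat_lit 336215) (nat_lit 13) (.e (nat_lit 393229) (nat_lit 9) .nil)))) .nil)) 
(.lf (nat_lit 213619) (.g (nat_lit 2270) (.e (nat_lit 90156) (nat_lit 11) (.e (nat_lit 24640) (nat_lit 10) (.e (nat_lit 344117) (nat_lit 21) (.e (nat_lit 516151) (nat_lit 9) (.e (nat_lit 433920) (nat_lit 20) .nil))))) .nil))))) (.nd (nat_lit 4) (.nd (nat_lit 5) (.nd (nat_lit 6) 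
(.lf (nat_lit 213515) (.g (nat_lit 832) (.e (nat_lit 90134) (nat_lit 9) (.e (nat_lit 2992) (nat_lit 186) (.e (nat_lit 442433) (nat_lit 25) (.e (nat_lit 245781) (nat_lit 9) .nil)))) .nil)) 
(.lf (nat_lit 213579) (.g (nat_lit 846) (.e (nat_lit 90156) (nat_lit 11) (.e (nat_lit 24625) (nat_lit 9) (.e (nat_lit 336367) (nat_lit 27) .nil))) .nil))) (.nd (nat_lit 6) 
(.lf (nat_lit 213547) (.g (nat_lit 2560) (.e (nat_lit 90136) (nat_lit 9) (.e (nat_lit 3102) (nat_lit 192) (.e (nat_lit 491560) (nat_lit 10) (.e (nat_lit 344129) (nat_lit 26) (.e (nat_lit 557087) (nat_lit 11) .nil))))) .nil)) 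
(.lf (nat_lit 213611) (.g (nat_lit 1742) (.e (nat_lit 90156) (nat_lit 11) (.e (nat_lit 24630) (nat_lit 9) (.e (nat_lit 336369) (nat_lit 27) (.e (nat_lit 426498) (nat_lit 27) .nil)))) .nil)))) (.nd (nat_lit 5) (.nd (nat_lit 6) 
(.lf (nat_lit 213531) (.g (nat_lit 2993) (.e (nat_lit 90134) (nat_lit 9) (.e (nat_lit 3098) (nat_lit 192) (.e (nat_lit 491566) (nat_lit 12) (.e (nat_lit 385049) (nat_lit 21) .nil)))) .nil)) 
(.lf (nat_lit 213595) (.g (nat_lit 1192) (.e (nat_lit 90156) (nat_lit 11) (.e (nat_lit 24628) (nat_lit 9) (.e (nat_lit 336019) (nat_lit 3) (.e (nat_lit 98358) (nat_lit 26) .nil)))) .nil))) (.nd (nat_lit 6) 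
(.lf (nat_lit 213563) (.g (nat_lit 1773) (.e (nat_lit 90141) (nat_lit 9) (.e (nat_lit 250) (nat_lit 21) (.e (nat_lit 336078) (nat_lit 9) (.e (nat_lit 336454) (nat_lit 34) (.e (nat_lit 483365) (nat_lit 18) .nil))))) .nil)) 
(.lf (nat_lit 213627) (.g (nat_lit 568) (.e (nat_lit 90156) (nat_lit 11) (.e (nat_lit 24657) (nat_lit 13) (.e (nat_lit 393229) (nat_lit 9) .nil))) .nil)))))) (.nd (nat_lit 3) (.nd (nat_lit 4) (.nd (nat_lit 5) (.nd (nat_lit 6) 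
(.lf (nat_lit 213511) (.g (nat_lit 3288) (.e (nat_lit 90134) (nat_lit 9) (.e (nat_lit 2872) (nat_lit 184) (.e (nat_lit 426211) (nat_lit 9) (.e (nat_lit 426125) (nat_lit 2) (.e (nat_lit 196617) (nat_lit 9) .nil))))) .nil)) 
(.lf (nat_lit 213575) (.g (nat_lit 1955) (.e (nat_lit 90156) (nat_lit 11) (.e (nat_lit 24608) (nat_lit 3) (.e (nat_lit 98313) (nat_lit 9) (.e (nat_lit 336027) (nat_lit 3) (.e (nat_lit 98313) (nat_lit 9) .nil))))) .nil))) (.nd (nat_lit 6) 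
(.lf (nat_lit 213543) (.g (nat_lit 1395) (.e (nat_lit 90134) (nat_lit 9) (.e (nat_lit 3098) (nat_lit 192) (.e (nat_lit 491571) (nat_lit 13) (.e (nat_lit 393252) (nat_lit 18) .nil)))) .nil)) 
(.lf (nat_lit 213607) (.g (nat_lit 1647) (.e (nat_lit 90156) (nat_lit 11) (.e (nat_lit 24628) (nat_lit 9) (.e (nat_lit 336019) (nat_lit 3) (.e (nat_lit 98386) (nat_lit 32) (.e (nat_lit 475214) (nat_lit 42) .nil))))) .nil)))) (.nd (nat_lit 5) (.nd (nat_lit 6) 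
(.lf (nat_lit 213527) (.g (nat_lit 2688) (.e (nat_lit 90134) (nat_lit 9) (.e (nat_lit 3098) (nat_lit 192) (.e (nat_lit 491566) (nat_lit 12) (.e (nat_lit 385044) (nat_lit 21) .nil)))) .nil)) 
(.lf (nat_lit 213591) (.g (nat_lit 1110) (.e (nat_lit 90156) (nat_lit 11) (.e (nat_lit 24628) (nat_lit 9) (.e (nat_lit 336019) (nat_lit 3) (.e (nat_lit 98356) (nat_lit 26) .nil)))) .nil))) (.nd (nat_lit 6) 
(.lf (nat_lit 213559) (.g (nat_lit 2709) (.e (nat_lit 90140) (nat_lit 9) (.e (nat_lit 2610) (nat_lit 163) (.e (nat_lit 164403) (nat_lit 256) (.e (nat_lit 57377) (nat_lit 3) (.e (nat_lit 98376) (nat_lit 30) .nil))))) .nil)) 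
(.lf (nat_lit 213623) (.g (nat_lit 1399) (.e (nat_lit 90156) (nat_lit 11) (.e (nat_lit 24655) (nat_lit 13) (.e (nat_lit 393229) (nat_lit 9) (.e (nat_lit 335994) (nat_lit 1) .nil)))) .nil))))) (.nd (nat_lit 4) (.nd (nat_lit 5) (.nd (nat_lit 6) 
(.lf (nat_lit 213519) (.g (nat_lit 4726) (.e (nat_lit 90134) (nat_lit 9) (.e (nat_lit 3096) (nat_lit 192) (.e (nat_lit 491563) (nat_lit 12) (.e (nat_lit 385074) (nat_lit 31) (.e (nat_lit 573493) (nat_lit 15) .nil))))) .nil)) 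
(.lf (nat_lit 213583) (.g (nat_lit 2244) (.e (nat_lit 90156) (nat_lit 11) (.e (nat_lit 24626) (nat_lit 9) (.e (nat_lit 336454) (nat_lit 34) (.e (nat_lit 483363) (nat_lit 18) (.e (nat_lit 57854) (nat_lit 252) .nil))))) .nil))) (.nd (nat_lit 6) 
(.lf (nat_lit 213551) (.g (nat_lit 1692) (.e (nat_lit 90140) (nat_lit 9) (.e (nat_lit 250) (nat_lit 21) (.e (nat_lit 336076) (nat_lit 9) (.e (nat_lit 336454) (nat_lit 34) (.e (nat_lit 483365) (nat_lit 18) .nil))))) .nil)) 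
(.lf (nat_lit 213615) (.g (nat_lit 1804) (.e (nat_lit 90156) (nat_lit 11) (.e (nat_lit 24640) (nat_lit 10) (.e (nat_lit 344117) (nat_lit 21) (.e (nat_lit 516144) (nat_lit 9) .nil)))) .nil)))) (.nd (nat_lit 5) (.nd (nat_lit 6) 
(.lf (nat_lit 213535) (.g (nat_lit 2556) (.e (nat_lit 90134) (nat_lit 9) (.e (nat_lit 3098) (nat_lit 192) (.e (nat_lit 491566) (nat_lit 12) (.e (nat_lit 385051) (nat_lit 21) (.e (nat_lit 4239) (nat_lit 251) .nil))))) .nil)) 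
(.lf (nat_lit 213599) (.g (nat_lit 2200) (.e (nat_lit 90156) (nat_lit 11) (.e (nat_lit 24628) (nat_lit 9) (.e (nat_lit 336019) (nat_lit 3) (.e (nat_lit 98384) (nat_lit 32) (.e (nat_lit 475213) (nat_lit 42) .nil))))) .nil))) (.nd (nat_lit 6) 
(.lf (nat_lit 213567) (.g (nat_lit 3690) (.e (nat_lit 90141) (nat_lit 9) (.e (nat_lit 3096) (nat_lit 192) (.e (nat_lit 491560) (nat_lit 10) (.e (nat_lit 344126) (nat_lit 25) (.e (nat_lit 548889) (nat_lit 9) .nil))))) .nil)) 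
(.lf (nat_lit 213631) (.g (nat_lit 3673) (.e (nat_lit 90156) (nat_lit 11) (.e (nat_lit 24657) (nat_lit 13) (.e (nat_lit 393229) (nat_lit 9) (.e (nat_lit 335996) (nat_lit 1) (.e (nat_lit 57851) (nat_lit 252) (.e (nat_lit 57371) (nat_lit 2) .nil)))))) (.g (nat_lit 6) .nil .nil))))))))))

noncomputable def tv2816 : DT := (.nd (nat_lit 0) (.nd (nat_lit 1) (.nd (nat_lit 2) (.nd (nat_lit 3) (.nd (nat_lit 4) (.nd (nat_lit 5) (.nd (nat_lit 6) 
(.lf (nat_lit 213632) (.g (nat_lit 1828) (.e (nat_lit 90156) (nat_lit 11) (.e (nat_lit 24658) (nat_lit 13) (.e (nat_lit 393225) (nat_lit 9) (.e (nat_lit 335995) (nat_lit 1) (.e (nat_lit 57848) (nat_lit 252) .nil))))) .nil)) 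
(.lf (nat_lit 213696) (.g (nat_lit 1295) (.e (nat_lit 90157) (nat_lit 11) (.e (nat_lit 24636) (nat_lit 9) (.e (nat_lit 336017) (nat_lit 3) (.e (nat_lit 98356) (nat_lit 26) (.e (nat_lit 433920) (nat_lit 20) .nil))))) .nil))) (.nd (nat_lit 6) 
(.lf (nat_lit 213664) (.g (nat_lit 1844) (.e (nat_lit 90157) (nat_lit 11) (.e (nat_lit 24608) (nat_lit 3) (.e (nat_lit 98313) (nat_lit 9) (.e (nat_lit 336004) (nat_lit 2) (.e (nat_lit 90158) (nat_lit 11) .nil))))) .nil)) 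
(.lf (nat_lit 213728) (.g (nat_lit 1768) (.e (nat_lit 90157) (nat_lit 11) (.e (nat_lit 24655) (nat_lit 13) (.e (nat_lit 393225) (nat_lit 9) (.e (nat_lit 335986) (nat_lit 1) (.e (nat_lit 57849) (nat_lit 252) .nil))))) .nil)))) (.nd (nat_lit 5) (.nd (nat_lit 6) 
(.lf (nat_lit 213648) (.g (nat_lit 3509) (.e (nat_lit 90157) (nat_lit 11) (.e (nat_lit 24607) (nat_lit 3) (.e (nat_lit 98313) (nat_lit 9) (.e (nat_lit 336004) (nat_lit 2) (.e (nat_lit 90158) (nat_lit 11) (.e (nat_lit 24604) (nat_lit 2) .nil)))))) (.g (nat_lit 0) .nil .nil))) 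
(.lf (nat_lit 213712) (.g (nat_lit 506) (.e (nat_lit 90157) (nat_lit 11) (.e (nat_lit 24640) (nat_lit 10) (.e (nat_lit 344117) (nat_lit 21) .nil))) .nil))) (.nd (nat_lit 6) 
(.lf (nat_lit 213680) (.g (nat_lit 736) (.e (nat_lit 90157) (nat_lit 11) (.e (nat_lit 24627) (nat_lit 9) (.e (nat_lit 336019) (nat_lit 3) .nil))) .nil)) 
(.lf (nat_lit 213744) (.g (nat_lit 1124) (.e (nat_lit 90157) (nat_lit 11) (.e (nat_lit 24656) (nat_lit 13) (.e (nat_lit 393229) (nat_lit 9) (.e (nat_lit 335993) (nat_lit 1) .nil)))) .nil))))) (.nd (nat_lit 4) (.nd (nat_lit 5) (.nd (nat_lit 6) 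
(.lf (nat_lit 213640) (.g (nat_lit 549) (.e (nat_lit 90157) (nat_lit 11) (.e (nat_lit 24580) (nat_lit 0) (.e (nat_lit 1106) (nat_lit 81) .nil))) .nil)) 
(.lf (nat_lit 213704) (.g (nat_lit 2174) (.e (nat_lit 90157) (nat_lit 11) (.e (nat_lit 24638) (nat_lit 9) (.e (nat_lit 336012) (nat_lit 2) (.e (nat_lit 90169) (nat_lit 13) (.e (nat_lit 179968) (nat_lit 20) .nil))))) .nil))) (.nd (nat_lit 6) 
(.lf (nat_lit 213672) (.g (nat_lit 760) (.e (nat_lit 90157) (nat_lit 11) (.e (nat_lit 24625) (nat_lit 9) (.e (nat_lit 336454) (nat_lit 34) .nil))) .nil)) 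
(.lf (nat_lit 213736) (.g (nat_lit 2710) (.e (nat_lit 90157) (nat_lit 11) (.e (nat_lit 24655) (nat_lit 13) (.e (nat_lit 393229) (nat_lit 9) (.e (nat_lit 335988) (nat_lit 1) (.e (nat_lit 57854) (nat_lit 252) .nil))))) .nil)))) (.nd (nat_lit 5) (.nd (nat_lit 6) 
(.lf (nat_lit 213656) (.g (nat_lit 2338) (.e (nat_lit 90157) (nat_lit 11) (.e (nat_lit 24607) (nat_lit 3) (.e (nat_lit 98317) (nat_lit 9) (.e (nat_lit 336004) (nat_lit 2) (.e (nat_lit 90160) (nat_lit 11) (.e (nat_lit 24603) (nat_lit 2) .nil)))))) (.g (nat_lit 5) .nil .nil))) 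
(.lf (nat_lit 213720) (.g (nat_lit 856) (.e (nat_lit 90157) (nat_lit 11) (.e (nat_lit 24641) (nat_lit 10) (.e (nat_lit 344105) (nat_lit 19) (.e (nat_lit 499919) (nat_lit 9) .nil)))) .nil))) (.nd (nat_lit 6) 
(.lf (nat_lit 213688) (.g (nat_lit 2047) (.e (nat_lit 90157) (nat_lit 11) (.e (nat_lit 24628) (nat_lit 9) (.e (nat_lit 336019) (nat_lit 3) (.e (nat_lit 98356) (nat_lit 26) (.e (nat_lit 433920) (nat_lit 20) .nil))))) .nil)) 
(.lf (nat_lit 213752) (.g (nat_lit 1390) (.e (nat_lit 90157) (nat_lit 11) (.e (nat_lit 24658) (nat_lit 13) (.e (nat_lit 393229) (nat_lit 9) (.e (nat_lit 335995) (nat_lit 1) .nil)))) .nil)))))) (.nd (nat_lit 3) (.nd (nat_lit 4) (.nd (nat_lit 5) (.nd (nat_lit 6) 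
(.lf (nat_lit 213636) (.g (nat_lit 1221) (.e (nat_lit 90156) (nat_lit 11) (.e (nat_lit 24665) (nat_lit 14) (.e (nat_lit 401414) (nat_lit 0) .nil))) .nil)) 
(.lf (nat_lit 213700) (.g (nat_lit 1450) (.e (nat_lit 90157) (nat_lit 11) (.e (nat_lit 24638) (nat_lit 9) (.e (nat_lit 336004) (nat_lit 2) (.e (nat_lit 90169) (nat_lit 13) .nil)))) .nil))) (.nd (nat_lit 6) 
(.lf (nat_lit 213668) (.g (nat_lit 670) (.e (nat_lit 90157) (nat_lit 11) (.e (nat_lit 24608) (nat_lit 3) (.e (nat_lit 98317) (nat_lit 9) .nil))) .nil)) 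
(.lf (nat_lit 213732) (.g (nat_lit 1595) (.e (nat_lit 90157) (nat_lit 11) (.e (nat_lit 24655) (nat_lit 13) (.e (nat_lit 393225) (nat_lit 9) (.e (nat_lit 335996) (nat_lit 1) (.e (nat_lit 57853) (nat_lit 252) .nil))))) .nil)))) (.nd (nat_lit 5) (.nd (nat_lit 6) 
(.lf (nat_lit 213652) (.g (nat_lit 319) (.e (nat_lit 90157) (nat_lit 11) (.e (nat_lit 24607) (nat_lit 3) (.e (nat_lit 98317) (nat_lit 9) .nil))) .nil)) 
(.lf (nat_lit 213716) (.g (nat_lit 3022) (.e (nat_lit 90157) (nat_lit 11) (.e (nat_lit 24640) (nat_lit 10) (.e (nat_lit 344117) (nat_lit 21) (.e (nat_lit 516145) (nat_lit 9) (.e (nat_lit 426449) (nat_lit 20) (.e (nat_lit 114716) (nat_lit 22) .nil)))))) (.g (nat_lit 4) .nil .nil)))) (.nd (nat_lit 6) 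
(.lf (nat_lit 213684) (.g (nat_lit 2501) (.e (nat_lit 90157) (nat_lit 11) (.e (nat_lit 24627) (nat_lit 9) (.e (nat_lit 336454) (nat_lit 34) (.e (nat_lit 483365) (nat_lit 18) (.e (nat_lit 57830) (nat_lit 250) .nil))))) .nil)) 
(.lf (nat_lit 213748) (.g (nat_lit 662) (.e (nat_lit 90157) (nat_lit 11) (.e (nat_lit 24658) (nat_lit 13) (.e (nat_lit 393225) (nat_lit 9) .nil))) .nil))))) (.nd (nat_lit 4) (.nd (nat_lit 5) (.nd (nat_lit 6) 
(.lf (nat_lit 213644) (.g (nat_lit 2169) (.e (nat_lit 90157) (nat_lit 11) (.e (nat_lit 24602) (nat_lit 2) (.e (nat_lit 90158) (nat_lit 11) (.e (nat_lit 24604) (nat_lit 2) (.e (nat_lit 90160) (nat_lit 11) (.e (nat_lit 24603) (nat_lit 2) .nil)))))) (.g (nat_lit 5) .nil .nil))) 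
(.lf (nat_lit 213708) (.g (nat_lit 1348) (.e (nat_lit 90157) (nat_lit 11) (.e (nat_lit 24638) (nat_lit 9) (.e (nat_lit 336027) (nat_lit 3) (.e (nat_lit 98363) (nat_lit 26) .nil)))) .nil))) (.nd (nat_lit 6) 
(.lf (nat_lit 213676) (.g (nat_lit 861) (.e (nat_lit 90157) (nat_lit 11) (.e (nat_lit 24626) (nat_lit 9) (.e (nat_lit 336454) (nat_lit 34) (.e (nat_lit 483363) (nat_lit 18) .nil)))) .nil)) 
(.lf (nat_lit 213740) (.g (nat_lit 3484) (.e (nat_lit 90157) (nat_lit 11) (.e (nat_lit 24655) (nat_lit 13) (.e (nat_lit 393229) (nat_lit 9) (.e (nat_lit 335995) (nat_lit 1) (.e (nat_lit 57854) (nat_lit 252) .nil))))) .nil)))) (.nd (nat_lit 5) (.nd (nat_lit 6) 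
(.lf (nat_lit 213660) (.g (nat_lit 3567) (.e (nat_lit 90157) (nat_lit 11) (.e (nat_lit 24607) (nat_lit 3) (.e (nat_lit 98317) (nat_lit 9) (.e (nat_lit 336021) (nat_lit 3) (.e (nat_lit 98317) (nat_lit 9) (.e (nat_lit 336011) (nat_lit 2) .nil)))))) (.g (nat_lit 6) .nil .nil))) 
(.lf (nat_lit 213724) (.g (nat_lit 918) (.e (nat_lit 90157) (nat_lit 11) (.e (nat_lit 24643) (nat_lit 11) (.e (nat_lit 368676) (nat_lit 21) (.e (nat_lit 516145) (nat_lit 9) .nil)))) .nil))) (.nd (nat_lit 6) 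
(.lf (nat_lit 213692) (.g (nat_lit 1266) (.e (nat_lit 90157) (nat_lit 11) (.e (nat_lit 24628) (nat_lit 9) (.e (nat_lit 336019) (nat_lit 3) (.e (nat_lit 98385) (nat_lit 32) .nil)))) .nil)) 
(.lf (nat_lit 213756) (.g (nat_lit 451) (.e (nat_lit 90157) (nat_lit 11) (.e (nat_lit 24660) (nat_lit 13) (.e (nat_lit 401152) (nat_lit 15) .nil))) .nil))))))) (.nd (nat_lit 2) (.nd (nat_lit 3) (.nd (nat_lit 4) (.nd (nat_lit 5) (.nd (nat_lit 6) 
(.lf (nat_lit 213634) (.g (nat_lit 1713) (.e (nat_lit 90156) (nat_lit 11) (.e (nat_lit 24660) (nat_lit 13) (.e (nat_lit 393224) (nat_lit 9) (.e (nat_lit 335988) (nat_lit 1) (.e (nat_lit 57854) (nat_lit 252) .nil))))) .nil)) 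
(.lf (nat_lit 213698) (.g (nat_lit 1448) (.e (nat_lit 90157) (nat_lit 11) (.e (nat_lit 24638) (nat_lit 9) (.e (nat_lit 336003) (nat_lit 2) (.e (nat_lit 90185) (nat_lit 17) (.e (nat_lit 245504) (nat_lit 20) .nil))))) .nil))) (.nd (nat_lit 6) 
(.lf (nat_lit 213666) (.g (nat_lit 1257) (.e (nat_lit 90157) (nat_lit 11) (.e (nat_lit 24608) (nat_lit 3) (.e (nat_lit 98313) (nat_lit 9) (.e (nat_lit 336027) (nat_lit 3) .nil)))) .nil)) 
(.lf (nat_lit 213730) (.g (nat_lit 1279) (.e (nat_lit 90157) (nat_lit 11) (.e (nat_lit 24655) (nat_lit 13) (.e (nat_lit 393225) (nat_lit 9) (.e (nat_lit 335995) (nat_lit 1) (.e (nat_lit 57848) (nat_lit 252) .nil))))) .nil)))) (.nd (nat_lit 5) (.nd (nat_lit 6) 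
(.lf (nat_lit 213650) (.g (nat_lit 2538) (.e (nat_lit 90157) (nat_lit 11) (.e (nat_lit 24607) (nat_lit 3) (.e (nat_lit 98313) (nat_lit 9) (.e (nat_lit 336012) (nat_lit 2) (.e (nat_lit 90158) (nat_lit 11) (.e (nat_lit 24603) (nat_lit 2) .nil)))))) (.g (nat_lit 5) .nil .nil))) 
(.lf (nat_lit 213714) (.g (nat_lit 1888) (.e (nat_lit 90157) (nat_lit 11) (.e (nat_lit 24640) (nat_lit 10) (.e (nat_lit 344117) (nat_lit 21) (.e (nat_lit 516144) (nat_lit 9) .nil)))) .nil))) (.nd (nat_lit 6) 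
(.lf (nat_lit 213682) (.g (nat_lit 1638) (.e (nat_lit 90157) (nat_lit 11) (.e (nat_lit 24627) (nat_lit 9) (.e (nat_lit 336454) (nat_lit 34) (.e (nat_lit 483364) (nat_lit 18) (.e (nat_lit 57854) (nat_lit 252) .nil))))) .nil)) 
(.lf (nat_lit 213746) (.g (nat_lit 1616) (.e (nat_lit 90157) (nat_lit 11) (.e (nat_lit 24657) (nat_lit 13) (.e (nat_lit 393229) (nat_lit 9) (.e (nat_lit 335988) (nat_lit 1) (.e (nat_lit 57854) (nat_lit 252) .nil))))) .nil))))) (.nd (nat_lit 4) (.nd (nat_lit 5) (.nd (nat_lit 6) 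
(.lf (nat_lit 213642) (.g (nat_lit 1915) (.e (nat_lit 90157) (nat_lit 11) (.e (nat_lit 24597) (nat_lit 1) (.e (nat_lit 57926) (nat_lit 282) (.e (nat_lit 163902) (nat_lit 12) (.e (nat_lit 426555) (nat_lit 32) .nil))))) .nil)) 
(.lf (nat_lit 213706) (.g (nat_lit 1298) (.e (nat_lit 90157) (nat_lit 11) (.e (nat_lit 24638) (nat_lit 9) (.e (nat_lit 336021) (nat_lit 3) (.e (nat_lit 98385) (nat_lit 32) .nil)))) .nil))) (.nd (nat_lit 6) 
(.lf (nat_lit 213674) (.g (nat_lit 609) (.e (nat_lit 90157) (nat_lit 11) (.e (nat_lit 24625) (nat_lit 9) (.e (nat_lit 336456) (nat_lit 34) .nil))) .nil)) 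
(.lf (nat_lit 213738) (.g (nat_lit 1748) (.e (nat_lit 90157) (nat_lit 11) (.e (nat_lit 24655) (nat_lit 13) (.e (nat_lit 393229) (nat_lit 9) (.e (nat_lit 335995) (nat_lit 1) .nil)))) .nil)))) (.nd (nat_lit 5) (.nd (nat_lit 6) 
(.lf (nat_lit 213658) (.g (nat_lit 2067) (.e (nat_lit 90157) (nat_lit 11) (.e (nat_lit 24607) (nat_lit 3) (.e (nat_lit 98317) (nat_lit 9) (.e (nat_lit 336010) (nat_lit 2) (.e (nat_lit 90158) (nat_lit 11) (.e (nat_lit 24603) (nat_lit 2) .nil)))))) (.g (nat_lit 5) .nil .nil))) 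
(.lf (nat_lit 213722) (.g (nat_lit 610) (.e (nat_lit 90157) (nat_lit 11) (.e (nat_lit 24641) (nat_lit 10) (.e (nat_lit 344110) (nat_lit 19) .nil))) .nil))) (.nd (nat_lit 6) 
(.lf (nat_lit 213690) (.g (nat_lit 1591) (.e (nat_lit 90157) (nat_lit 11) (.e (nat_lit 24628) (nat_lit 9) (.e (nat_lit 336019) (nat_lit 3) (.e (nat_lit 98363) (nat_lit 26) .nil)))) .nil)) 
(.lf (nat_lit 213754) (.g (nat_lit 1657) (.e (nat_lit 90157) (nat_lit 11) (.e (nat_lit 24660) (nat_lit 13) (.e (nat_lit 393229) (nat_lit 9) (.e (nat_lit 335988) (nat_lit 1) (.e (nat_lit 57852) (nat_lit 252) .nil))))) .nil)))))) (.nd (nat_lit 3) (.nd (nat_lit 4) (.nd (nat_lit 5) (.nd (nat_lit 6) 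
(.lf (nat_lit 213638) (.g (nat_lit 1317) (.e (nat_lit 90156) (nat_lit 11) (.e (nat_lit 24665) (nat_lit 14) (.e (nat_lit 401426) (nat_lit 3) .nil))) .nil)) 
(.lf (nat_lit 213702) (.g (nat_lit 1609) (.e (nat_lit 90157) (nat_lit 11) (.e (nat_lit 24638) (nat_lit 9) (.e (nat_lit 336012) (nat_lit 2) (.e (nat_lit 90167) (nat_lit 13) .nil)))) .nil))) (.nd (nat_lit 6) 
(.lf (nat_lit 213670) (.g (nat_lit 1414) (.e (nat_lit 90157) (nat_lit 11) (.e (nat_lit 24608) (nat_lit 3) (.e (nat_lit 98317) (nat_lit 9) (.e (nat_lit 336027) (nat_lit 3) .nil)))) .nil)) 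
(.lf (nat_lit 213734) (.g (nat_lit 2483) (.e (nat_lit 90157) (nat_lit 11) (.e (nat_lit 24655) (nat_lit 13) (.e (nat_lit 393229) (nat_lit 9) (.e (nat_lit 335933) (nat_lit 0) .nil)))) .nil)))) (.nd (nat_lit 5) (.nd (nat_lit 6) 
(.lf (nat_lit 213654) (.g (nat_lit 1372) (.e (nat_lit 90157) (nat_lit 11) (.e (nat_lit 24607) (nat_lit 3) (.e (nat_lit 98317) (nat_lit 9) (.e (nat_lit 336003) (nat_lit 2) .nil)))) .nil)) 
(.lf (nat_lit 213718) (.g (nat_lit 2946) (.e (nat_lit 90157) (nat_lit 11) (.e (nat_lit 24640) (nat_lit 10) (.e (nat_lit 344117) (nat_lit 21) (.e (nat_lit 516151) (nat_lit 9) (.e (nat_lit 433920) (nat_lit 20) (.e (nat_lit 114716) (nat_lit 22) .nil)))))) (.g (nat_lit 4) .nil .nil)))) (.nd (nat_lit 6) 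
(.lf (nat_lit 213686) (.g (nat_lit 2478) (.e (nat_lit 90157) (nat_lit 11) (.e (nat_lit 24627) (nat_lit 9) (.e (nat_lit 336454) (nat_lit 34) (.e (nat_lit 483365) (nat_lit 18) (.e (nat_lit 57851) (nat_lit 252) (.e (nat_lit 57371) (nat_lit 2) .nil)))))) (.g (nat_lit 4) .nil .nil))) 
(.lf (nat_lit 213750) (.g (nat_lit 689) (.e (nat_lit 90157) (nat_lit 11) (.e (nat_lit 24658) (nat_lit 13) (.e (nat_lit 393229) (nat_lit 9) .nil))) .nil))))) (.nd (nat_lit 4) (.nd (nat_lit 5) (.nd (nat_lit 6) 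
(.lf (nat_lit 213646) (.g (nat_lit 691) (.e (nat_lit 90157) (nat_lit 11) (.e (nat_lit 24603) (nat_lit 2) (.e (nat_lit 90160) (nat_lit 11) (.e (nat_lit 24607) (nat_lit 3) .nil)))) .nil)) 
(.lf (nat_lit 213710) (.g (nat_lit 2996) (.e (nat_lit 90157) (nat_lit 11) (.e (nat_lit 24639) (nat_lit 10) (.e (nat_lit 344117) (nat_lit 21) (.e (nat_lit 516145) (nat_lit 9) (.e (nat_lit 426446) (nat_lit 20) .nil))))) .nil))) (.nd (nat_lit 6) 
(.lf (nat_lit 213678) (.g (nat_lit 2011) (.e (nat_lit 90157) (nat_lit 11) (.e (nat_lit 24626) (nat_lit 9) (.e (nat_lit 336454) (nat_lit 34) (.e (nat_lit 483365) (nat_lit 18) (.e (nat_lit 57849) (nat_lit 252) .nil))))) .nil)) 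
(.lf (nat_lit 213742) (.g (nat_lit 2827) (.e (nat_lit 90157) (nat_lit 11) (.e (nat_lit 24655) (nat_lit 13) (.e (nat_lit 393229) (nat_lit 9) (.e (nat_lit 335996) (nat_lit 1) (.e (nat_lit 57852) (nat_lit 252) .nil))))) .nil)))) (.nd (nat_lit 5) (.nd (nat_lit 6) 
(.lf (nat_lit 213662) (.g (nat_lit 1372) (.e (nat_lit 90157) (nat_lit 11) (.e (nat_lit 24607) (nat_lit 3) (.e (nat_lit 98317) (nat_lit 9) (.e (nat_lit 343808) (nat_lit 3) .nil)))) .nil)) 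
(.lf (nat_lit 213726) (.g (nat_lit 911) (.e (nat_lit 90157) (nat_lit 11) (.e (nat_lit 24655) (nat_lit 13) (.e (nat_lit 393224) (nat_lit 9) .nil))) .nil))) (.nd (nat_lit 6) 
(.lf (nat_lit 213694) (.g (nat_lit 1219) (.e (nat_lit 90157) (nat_lit 11) (.e (nat_lit 24629) (nat_lit 9) (.e (nat_lit 336019) (nat_lit 3) (.e (nat_lit 98357) (nat_lit 26) (.e (nat_lit 426448) (nat_lit 20) .nil))))) .nil)) 
(.lf (nat_lit 213758) (.g (nat_lit 4035) (.e (nat_lit 90157) (nat_lit 11) (.e (nat_lit 24662) (nat_lit 14) (.e (nat_lit 401428) (nat_lit 3) (.e (nat_lit 204882) (nat_lit 32) .nil)))) .nil)))))))) (.nd (nat_lit 1) (.nd (nat_lit 2) (.nd (nat_lit 3) (.nd (nat_lit 4) (.nd (nat_lit 5) (.nd (nat_lit 6) 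
(.lf (nat_lit 213633) (.g (nat_lit 1215) (.e (nat_lit 90156) (nat_lit 11) (.e (nat_lit 24658) (nat_lit 13) (.e (nat_lit 393229) (nat_lit 9) (.e (nat_lit 335995) (nat_lit 1) .nil)))) .nil)) 
(.lf (nat_lit 213697) (.g (nat_lit 495) (.e (nat_lit 90157) (nat_lit 11) (.e (nat_lit 24638) (nat_lit 9) (.e (nat_lit 336002) (nat_lit 2) .nil))) .nil))) (.nd (nat_lit 6) 
(.lf (nat_lit 213665) (.g (nat_lit 1891) (.e (nat_lit 90157) (nat_lit 11) (.e (nat_lit 24608) (nat_lit 3) (.e (nat_lit 98313) (nat_lit 9) (.e (nat_lit 336012) (nat_lit 2) (.e (nat_lit 90158) (nat_lit 11) .nil))))) .nil)) 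
(.lf (nat_lit 213729) (.g (nat_lit 1813) (.e (nat_lit 90157) (nat_lit 11) (.e (nat_lit 24655) (nat_lit 13) (.e (nat_lit 393225) (nat_lit 9) (.e (nat_lit 335995) (nat_lit 1) (.e (nat_lit 57847) (nat_lit 252) .nil))))) .nil)))) (.nd (nat_lit 5) (.nd (nat_lit 6) 
(.lf (nat_lit 213649) (.g (nat_lit 829) (.e (nat_lit 90157) (nat_lit 11) (.e (nat_lit 24607) (nat_lit 3) (.e (nat_lit 98313) (nat_lit 9) (.e (nat_lit 336012) (nat_lit 2) .nil)))) .nil)) 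
(.lf (nat_lit 213713) (.g (nat_lit 1943) (.e (nat_lit 90157) (nat_lit 11) (.e (nat_lit 24640) (nat_lit 10) (.e (nat_lit 344117) (nat_lit 21) (.e (nat_lit 516143) (nat_lit 9) .nil)))) .nil))) (.nd (nat_lit 6) 
(.lf (nat_lit 213681) (.g (nat_lit 1194) (.e (nat_lit 90157) (nat_lit 11) (.e (nat_lit 24627) (nat_lit 9) (.e (nat_lit 336454) (nat_lit 34) (.e (nat_lit 483363) (nat_lit 18) .nil)))) .nil)) 
(.lf (nat_lit 213745) (.g (nat_lit 1803) (.e (nat_lit 90157) (nat_lit 11) (.e (nat_lit 24656) (nat_lit 13) (.e (nat_lit 393229) (nat_lit 9) (.e (nat_lit 335996) (nat_lit 1) (.e (nat_lit 57851) (nat_lit 252) .nil))))) .nil))))) (.nd (nat_lit 4) (.nd (nat_lit 5) (.nd (nat_lit 6) 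
(.lf (nat_lit 213641) (.g (nat_lit 549) (.e (nat_lit 90157) (nat_lit 11) (.e (nat_lit 24580) (nat_lit 0) (.e (nat_lit 6513) (nat_lit 346) .nil))) .nil)) 
(.lf (nat_lit 213705) (.g (nat_lit 2452) (.e (nat_lit 90157) (nat_lit 11) (.e (nat_lit 24638) (nat_lit 9) (.e (nat_lit 336012) (nat_lit 2) (.e (nat_lit 90185) (nat_lit 17) (.e (nat_lit 245504) (nat_lit 20) .nil))))) .nil))) (.nd (nat_lit 6) 
(.lf (nat_lit 213673) (.g (nat_lit 1420) (.e (nat_lit 90157) (nat_lit 11) (.e (nat_lit 24625) (nat_lit 9) (.e (nat_lit 336454) (nat_lit 34) (.e (nat_lit 483365) (nat_lit 18) .nil)))) .nil)) 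
(.lf (nat_lit 213737) (.g (nat_lit 1333) (.e (nat_lit 90157) (nat_lit 11) (.e (nat_lit 24655) (nat_lit 13) (.e (nat_lit 393229) (nat_lit 9) (.e (nat_lit 335994) (nat_lit 1) .nil)))) .nil)))) (.nd (nat_lit 5) (.nd (nat_lit 6) 
(.lf (nat_lit 213657) (.g (nat_lit 1372) (.e (nat_lit 90157) (nat_lit 11) (.e (nat_lit 24607) (nat_lit 3) (.e (nat_lit 98317) (nat_lit 9) (.e (nat_lit 336009) (nat_lit 2) .nil)))) .nil)) 
(.lf (nat_lit 213721) (.g (nat_lit 610) (.e (nat_lit 90157) (nat_lit 11) (.e (nat_lit 24641) (nat_lit 10) (.e (nat_lit 344108) (nat_lit 19) .nil))) .nil))) (.nd (nat_lit 6) 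
(.lf (nat_lit 213689) (.g (nat_lit 2240) (.e (nat_lit 90157) (nat_lit 11) (.e (nat_lit 24628) (nat_lit 9) (.e (nat_lit 336019) (nat_lit 3) (.e (nat_lit 98358) (nat_lit 26) (.e (nat_lit 433920) (nat_lit 20) .nil))))) .nil)) 
(.lf (nat_lit 213753) (.g (nat_lit 1957) (.e (nat_lit 90157) (nat_lit 11) (.e (nat_lit 24660) (nat_lit 13) (.e (nat_lit 393225) (nat_lit 9) (.e (nat_lit 335995) (nat_lit 1) (.e (nat_lit 57848) (nat_lit 252) .nil))))) .nil)))))) (.nd (nat_lit 3) (.nd (nat_lit 4) (.nd (nat_lit 5) (.nd (nat_lit 6) 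
(.lf (nat_lit 213637) (.g (nat_lit 2901) (.e (nat_lit 90156) (nat_lit 11) (.e (nat_lit 24665) (nat_lit 14) (.e (nat_lit 401414) (nat_lit 0) (.e (nat_lit 3272) (nat_lit 199) .nil)))) .nil)) 
(.lf (nat_lit 213701) (.g (nat_lit 1848) (.e (nat_lit 90157) (nat_lit 11) (.e (nat_lit 24638) (nat_lit 9) (.e (nat_lit 336004) (nat_lit 2) (.e (nat_lit 90185) (nat_lit 17) (.e (nat_lit 245504) (nat_lit 20) .nil))))) .nil))) (.nd (nat_lit 6) 
(.lf (nat_lit 213669) (.g (nat_lit 1440) (.e (nat_lit 90157) (nat_lit 11) (.e (nat_lit 24608) (nat_lit 3) (.e (nat_lit 98317) (nat_lit 9) (.e (nat_lit 336021) (nat_lit 3) .nil)))) .nil)) 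
(.lf (nat_lit 213733) (.g (nat_lit 592) (.e (nat_lit 90157) (nat_lit 11) (.e (nat_lit 24655) (nat_lit 13) (.e (nat_lit 393229) (nat_lit 9) .nil))) .nil)))) (.nd (nat_lit 5) (.nd (nat_lit 6) 
(.lf (nat_lit 213653) (.g (nat_lit 2257) (.e (nat_lit 90157) (nat_lit 11) (.e (nat_lit 24607) (nat_lit 3) (.e (nat_lit 98317) (nat_lit 9) (.e (nat_lit 336002) (nat_lit 2) (.e (nat_lit 90158) (nat_lit 11) (.e (nat_lit 24603) (nat_lit 2) .nil)))))) (.g (nat_lit 5) .nil .nil))) 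
(.lf (nat_lit 213717) (.g (nat_lit 2484) (.e (nat_lit 90157) (nat_lit 11) (.e (nat_lit 24640) (nat_lit 10) (.e (nat_lit 344117) (nat_lit 21) (.e (nat_lit 516145) (nat_lit 9) (.e (nat_lit 433920) (nat_lit 20) .nil))))) .nil))) (.nd (nat_lit 6) 
(.lf (nat_lit 213685) (.g (nat_lit 2097) (.e (nat_lit 90157) (nat_lit 11) (.e (nat_lit 24627) (nat_lit 9) (.e (nat_lit 336454) (nat_lit 34) (.e (nat_lit 483365) (nat_lit 18) (.e (nat_lit 57846) (nat_lit 252) .nil))))) .nil)) 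
(.lf (nat_lit 213749) (.g (nat_lit 1989) (.e (nat_lit 90157) (nat_lit 11) (.e (nat_lit 24658) (nat_lit 13) (.e (nat_lit 393225) (nat_lit 9) (.e (nat_lit 335995) (nat_lit 1) (.e (nat_lit 57848) (nat_lit 252) .nil))))) .nil))))) (.nd (nat_lit 4) (.nd (nat_lit 5) (.nd (nat_lit 6) 
(.lf (nat_lit 213645) (.g (nat_lit 1620) (.e (nat_lit 90157) (nat_lit 11) (.e (nat_lit 24603) (nat_lit 2) (.e (nat_lit 90158) (nat_lit 11) (.e (nat_lit 24607) (nat_lit 3) (.e (nat_lit 98317) (nat_lit 9) .nil))))) .nil)) 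
(.lf (nat_lit 213709) (.g (nat_lit 2031) (.e (nat_lit 90157) (nat_lit 11) (.e (nat_lit 24638) (nat_lit 9) (.e (nat_lit 336027) (nat_lit 3) (.e (nat_lit 98363) (nat_lit 26) (.e (nat_lit 426447) (nat_lit 20) .nil))))) .nil))) (.nd (nat_lit 6) 
(.lf (nat_lit 213677) (.g (nat_lit 892) (.e (nat_lit 90157) (nat_lit 11) (.e (nat_lit 24626) (nat_lit 9) (.e (nat_lit 336454) (nat_lit 34) (.e (nat_lit 483365) (nat_lit 18) .nil)))) .nil)) 
(.lf (nat_lit 213741) (.g (nat_lit 2029) (.e (nat_lit 90157) (nat_lit 11) (.e (nat_lit 24655) (nat_lit 13) (.e (nat_lit 393229) (nat_lit 9) (.e (nat_lit 335996) (nat_lit 1) .nil)))) .nil)))) (.nd (nat_lit 5) (.nd (nat_lit 6) 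
(.lf (nat_lit 213661) (.g (nat_lit 1526) (.e (nat_lit 90157) (nat_lit 11) (.e (nat_lit 24607) (nat_lit 3) (.e (nat_lit 98317) (nat_lit 9) (.e (nat_lit 336027) (nat_lit 3) (.e (nat_lit 98312) (nat_lit 9) .nil))))) .nil)) 
(.lf (nat_lit 213725) (.g (nat_lit 1333) (.e (nat_lit 90157) (nat_lit 11) (.e (nat_lit 24650) (nat_lit 12) (.e (nat_lit 385068) (nat_lit 26) (.e (nat_lit 532503) (nat_lit 1) .nil)))) .nil))) (.nd (nat_lit 6) 
(.lf (nat_lit 213693) (.g (nat_lit 1246) (.e (nat_lit 90157) (nat_lit 11) (.e (nat_lit 24628) (nat_lit 9) (.e (nat_lit 336019) (nat_lit 3) (.e (nat_lit 98386) (nat_lit 32) .nil)))) .nil)) 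
(.lf (nat_lit 213757) (.g (nat_lit 2175) (.e (nat_lit 90157) (nat_lit 11) (.e (nat_lit 24662) (nat_lit 14) (.e (nat_lit 401428) (nat_lit 3) .nil))) .nil))))))) (.nd (nat_lit 2) (.nd (nat_lit 3) (.nd (nat_lit 4) (.nd (nat_lit 5) (.nd (nat_lit 6) 
(.lf (nat_lit 213635) (.g (nat_lit 599) (.e (nat_lit 90156) (nat_lit 11) (.e (nat_lit 24660) (nat_lit 13) (.e (nat_lit 393228) (nat_lit 9) .nil))) .nil)) 
(.lf (nat_lit 213699) (.g (nat_lit 1799) (.e (nat_lit 90157) (nat_lit 11) (.e (nat_lit 24638) (nat_lit 9) (.e (nat_lit 336004) (nat_lit 2) (.e (nat_lit 90167) (nat_lit 13) (.e (nat_lit 179968) (nat_lit 20) .nil))))) .nil))) (.nd (nat_lit 6) 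
(.lf (nat_lit 213667) (.g (nat_lit 1955) (.e (nat_lit 90157) (nat_lit 11) (.e (nat_lit 24608) (nat_lit 3) (.e (nat_lit 98313) (nat_lit 9) (.e (nat_lit 336027) (nat_lit 3) (.e (nat_lit 98313) (nat_lit 9) .nil))))) .nil)) 
(.lf (nat_lit 213731) (.g (nat_lit 1651) (.e (nat_lit 90157) (nat_lit 11) (.e (nat_lit 24655) (nat_lit 13) (.e (nat_lit 393225) (nat_lit 9) (.e (nat_lit 335996) (nat_lit 1) (.e (nat_lit 57852) (nat_lit 252) .nil))))) .nil)))) (.nd (nat_lit 5) (.nd (nat_lit 6) 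
(.lf (nat_lit 213651) (.g (nat_lit 3619) (.e (nat_lit 90157) (nat_lit 11) (.e (nat_lit 24607) (nat_lit 3) (.e (nat_lit 98313) (nat_lit 9) (.e (nat_lit 336012) (nat_lit 2) (.e (nat_lit 90158) (nat_lit 11) (.e (nat_lit 24604) (nat_lit 2) .nil)))))) (.g (nat_lit 0) .nil .nil))) 
(.lf (nat_lit 213715) (.g (nat_lit 2298) (.e (nat_lit 90157) (nat_lit 11) (.e (nat_lit 24640) (nat_lit 10) (.e (nat_lit 344117) (nat_lit 21) (.e (nat_lit 516144) (nat_lit 9) (.e (nat_lit 426448) (nat_lit 20) .nil))))) .nil))) (.nd (nat_lit 6) 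
(.lf (nat_lit 213683) (.g (nat_lit 1207) (.e (nat_lit 90157) (nat_lit 11) (.e (nat_lit 24627) (nat_lit 9) (.e (nat_lit 336454) (nat_lit 34) (.e (nat_lit 483365) (nat_lit 18) .nil)))) .nil)) 
(.lf (nat_lit 213747) (.g (nat_lit 1290) (.e (nat_lit 90157) (nat_lit 11) (.e (nat_lit 24657) (nat_lit 13) (.e (nat_lit 393229) (nat_lit 9) (.e (nat_lit 343808) (nat_lit 20) .nil)))) .nil))))) (.nd (nat_lit 4) (.nd (nat_lit 5) (.nd (nat_lit 6) 
(.lf (nat_lit 213643) (.g (nat_lit 759) (.e (nat_lit 90157) (nat_lit 11) (.e (nat_lit 24598) (nat_lit 1) (.e (nat_lit 57926) (nat_lit 282) (.e (nat_lit 163903) (nat_lit 12) .nil)))) .nil)) 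
(.lf (nat_lit 213707) (.g (nat_lit 525) (.e (nat_lit 90157) (nat_lit 11) (.e (nat_lit 24638) (nat_lit 9) (.e (nat_lit 336027) (nat_lit 3) .nil))) .nil))) (.nd (nat_lit 6) 
(.lf (nat_lit 213675) (.g (nat_lit 944) (.e (nat_lit 90157) (nat_lit 11) (.e (nat_lit 24626) (nat_lit 9) (.e (nat_lit 336454) (nat_lit 34) (.e (nat_lit 491264) (nat_lit 3) .nil)))) .nil)) 
(.lf (nat_lit 213739) (.g (nat_lit 2826) (.e (nat_lit 90157) (nat_lit 11) (.e (nat_lit 24655) (nat_lit 13) (.e (nat_lit 393229) (nat_lit 9) (.e (nat_lit 335995) (nat_lit 1) (.e (nat_lit 57844) (nat_lit 252) .nil))))) .nil)))) (.nd (nat_lit 5) (.nd (nat_lit 6) 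
(.lf (nat_lit 213659) (.g (nat_lit 2530) (.e (nat_lit 90157) (nat_lit 11) (.e (nat_lit 24607) (nat_lit 3) (.e (nat_lit 98317) (nat_lit 9) (.e (nat_lit 336012) (nat_lit 2) (.e (nat_lit 90160) (nat_lit 11) (.e (nat_lit 24603) (nat_lit 2) .nil)))))) (.g (nat_lit 5) .nil .nil))) 
(.lf (nat_lit 213723) (.g (nat_lit 499) (.e (nat_lit 90157) (nat_lit 11) (.e (nat_lit 24641) (nat_lit 10) (.e (nat_lit 344119) (nat_lit 21) .nil))) .nil))) (.nd (nat_lit 6) 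
(.lf (nat_lit 213691) (.g (nat_lit 1166) (.e (nat_lit 90157) (nat_lit 11) (.e (nat_lit 24628) (nat_lit 9) (.e (nat_lit 336019) (nat_lit 3) (.e (nat_lit 98384) (nat_lit 32) .nil)))) .nil)) 
(.lf (nat_lit 213755) (.g (nat_lit 1809) (.e (nat_lit 90157) (nat_lit 11) (.e (nat_lit 24660) (nat_lit 13) (.e (nat_lit 393229) (nat_lit 9) (.e (nat_lit 335995) (nat_lit 1) (.e (nat_lit 57848) (nat_lit 252) .nil))))) .nil)))))) (.nd (nat_lit 3) (.nd (nat_lit 4) (.nd (nat_lit 5) (.nd (nat_lit 6) 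
(.lf (nat_lit 213639) (.g (nat_lit 1830) (.e (nat_lit 90156) (nat_lit 11) (.e (nat_lit 24665) (nat_lit 14) (.e (nat_lit 401463) (nat_lit 15) (.e (nat_lit 1859) (nat_lit 124) .nil)))) .nil)) 
(.lf (nat_lit 213703) (.g (nat_lit 1566) (.e (nat_lit 90157) (nat_lit 11) (.e (nat_lit 24638) (nat_lit 9) (.e (nat_lit 336012) (nat_lit 2) (.e (nat_lit 90168) (nat_lit 13) .nil)))) .nil))) (.nd (nat_lit 6) 
(.lf (nat_lit 213671) (.g (nat_lit 463) (.e (nat_lit 90157) (nat_lit 11) (.e (nat_lit 24623) (nat_lit 9) (.e (nat_lit 336028) (nat_lit 3) .nil))) .nil)) 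
(.lf (nat_lit 213735) (.g (nat_lit 2005) (.e (nat_lit 90157) (nat_lit 11) (.e (nat_lit 24655) (nat_lit 13) (.e (nat_lit 393229) (nat_lit 9) (.e (nat_lit 335986) (nat_lit 1) .nil)))) .nil)))) (.nd (nat_lit 5) (.nd (nat_lit 6) 
(.lf (nat_lit 213655) (.g (nat_lit 2443) (.e (nat_lit 90157) (nat_lit 11) (.e (nat_lit 24607) (nat_lit 3) (.e (nat_lit 98317) (nat_lit 9) (.e (nat_lit 336004) (nat_lit 2) (.e (nat_lit 90158) (nat_lit 11) (.e (nat_lit 24603) (nat_lit 2) .nil)))))) (.g (nat_lit 5) .nil .nil))) 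
(.lf (nat_lit 213719) (.g (nat_lit 846) (.e (nat_lit 90157) (nat_lit 11) (.e (nat_lit 24640) (nat_lit 10) (.e (nat_lit 344118) (nat_lit 21) .nil))) .nil))) (.nd (nat_lit 6) 
(.lf (nat_lit 213687) (.g (nat_lit 1671) (.e (nat_lit 90157) (nat_lit 11) (.e (nat_lit 24628) (nat_lit 9) (.e (nat_lit 336019) (nat_lit 3) (.e (nat_lit 98354) (nat_lit 26) .nil)))) .nil)) 
(.lf (nat_lit 213751) (.g (nat_lit 1223) (.e (nat_lit 90157) (nat_lit 11) (.e (nat_lit 24658) (nat_lit 13) (.e (nat_lit 393229) (nat_lit 9) (.e (nat_lit 335994) (nat_lit 1) .nil)))) .nil))))) (.nd (nat_lit 4) (.nd (nat_lit 5) (.nd (nat_lit 6) 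
(.lf (nat_lit 213647) (.g (nat_lit 2268) (.e (nat_lit 90157) (nat_lit 11) (.e (nat_lit 24607) (nat_lit 3) (.e (nat_lit 98313) (nat_lit 9) (.e (nat_lit 336004) (nat_lit 2) (.e (nat_lit 90158) (nat_lit 11) (.e (nat_lit 24603) (nat_lit 2) .nil)))))) (.g (nat_lit 5) .nil .nil))) 
(.lf (nat_lit 213711) (.g (nat_lit 2078) (.e (nat_lit 90157) (nat_lit 11) (.e (nat_lit 24639) (nat_lit 10) (.e (nat_lit 344117) (nat_lit 21) (.e (nat_lit 516151) (nat_lit 9) (.e (nat_lit 433920) (nat_lit 20) .nil))))) .nil))) (.nd (nat_lit 6) 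
(.lf (nat_lit 213679) (.g (nat_lit 2321) (.e (nat_lit 90157) (nat_lit 11) (.e (nat_lit 24626) (nat_lit 9) (.e (nat_lit 336454) (nat_lit 34) (.e (nat_lit 483365) (nat_lit 18) (.e (nat_lit 57851) (nat_lit 252) .nil))))) .nil)) 
(.lf (nat_lit 213743) (.g (nat_lit 1954) (.e (nat_lit 90157) (nat_lit 11) (.e (nat_lit 24655) (nat_lit 13) (.e (nat_lit 393229) (nat_lit 9) (.e (nat_lit 343808) (nat_lit 20) .nil)))) .nil)))) (.nd (nat_lit 5) (.nd (nat_lit 6) 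
(.lf (nat_lit 213663) (.g (nat_lit 641) (.e (nat_lit 90157) (nat_lit 11) (.e (nat_lit 24608) (nat_lit 3) (.e (nat_lit 98313) (nat_lit 9) .nil))) .nil)) 
(.lf (nat_lit 213727) (.g (nat_lit 1443) (.e (nat_lit 90157) (nat_lit 11) (.e (nat_lit 24655) (nat_lit 13) (.e (nat_lit 393225) (nat_lit 9) (.e (nat_lit 335986) (nat_lit 1) (.e (nat_lit 57847) (nat_lit 252) .nil))))) .nil))) (.nd (nat_lit 6) 
(.lf (nat_lit 213695) (.g (nat_lit 621) (.e (nat_lit 90157) (nat_lit 11) (.e (nat_lit 24630) (nat_lit 9) (.e (nat_lit 336019) (nat_lit 3) .nil))) .nil)) 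
(.lf (nat_lit 213759) (.g (nat_lit 2039) (.e (nat_lit 90157) (nat_lit 11) (.e (nat_lit 24662) (nat_lit 14) (.e (nat_lit 401463) (nat_lit 15) (.e (nat_lit 1859) (nat_lit 124) .nil)))) .nil)))))))))


end

end Pool.Agent.Lib.MP_5854e1_co.Cz
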