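import Pool.Agent.Lib.MP_5854e1_co.DtD

/-!
# Windows and cells of the rings
-/

set_option autoImplicit false
set_option maxRecDepth 100000
set_option deprecated.oldSectionVars true

namespace Pool.Agent.Lib.MP_5854e1_co.Cz

open Pool.Agent.Lib.MP_5854e1_co

noncomputable section

noncomputable def tv2817 : DT := (.nd (nat_lit 0) (.nd (nat_lit 1) (.nd (nat_lit 2) (.nd (nat_lit 3) (.nd (nat_lit 4) (.nd (nat_lit 5) (.nd (nat_lit 6) 
(.lf (nat_lit 213760) (.g (nat_lit 3665) (.e (nat_lit 90157) (nat_lit 11) (.e (nat_lit 24664) (nat_lit 14) (.e (nat_lit 401463) (nat_lit 15) (.e (nat_lit 1858) (nat_lit 124) (.e (nat_lit 557100) (nat_lit 13) (.e (nat_lit 179968) (nat_lit 20) (.e (nat_lit 114714) (nat_lit 22) .nil))))))) (.g (nat_lit 5) .nil .nil))) 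
(.lf (nat_lit 213824) (.g (nat_lit 2088) (.e (nat_lit 90158) (nat_lit 11) (.e (nat_lit 24604) (nat_lit 2) (.e (nat_lit 90158) (nat_lit 11) (.e (nat_lit 24603) (nat_lit 2) (.e (nat_lit 90157) (nat_lit 11) (.e (nat_lit 24602) (nat_lit 2) .nil)))))) (.g (nat_lit 5) .nil .nil)))) (.nd (nat_lit 6) 
(.lf (nat_lit 213792) (.g (nat_lit 2102) (.e (nat_lit 90158) (nat_lit 11) (.e (nat_lit 24603) (nat_lit 2) (.e (nat_lit 90160) (nat_lit 11) (.e (nat_lit 24602) (nat_lit 2) (.e (nat_lit 90158) (nat_lit 11) (.e (nat_lit 24603) (nat_lit 2) .nil)))))) (.g (nat_lit 6) .nil .nil))) 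
(.lf (nat_lit 213856) (.g (nat_lit 2398) (.e (nat_lit 90158) (nat_lit 11) (.e (nat_lit 24605) (nat_lit 2) (.e (nat_lit 90158) (nat_lit 11) (.e (nat_lit 24609) (nat_lit 3) (.e (nat_lit 98317) (nat_lit 9) (.e (nat_lit 336002) (nat_lit 2) .nil)))))) (.g (nat_lit 5) .nil .nil))))) (.nd (nat_lit 5) (.nd (nat_lit 6) 
(.lf (nat_lit 213776) (.g (nat_lit 247) (.e (nat_lit 90158) (nat_lit 11) (.e (nat_lit 24599) (nat_lit 1) (.e (nat_lit 57854) (nat_lit 252) .nil))) .nil)) 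
(.lf (nat_lit 213840) (.g (nat_lit 970) (.e (nat_lit 90158) (nat_lit 11) (.e (nat_lit 24604) (nat_lit 2) (.e (nat_lit 90158) (nat_lit 11) (.e (nat_lit 24609) (nat_lit 3) .nil)))) .nil))) (.nd (nat_lit 6) 
(.lf (nat_lit 213808) (.g (nat_lit 791) (.e (nat_lit 90158) (nat_lit 11) (.e (nat_lit 24604) (nat_lit 2) (.e (nat_lit 90130) (nat_lit 9) .nil))) .nil)) 
(.lf (nat_lit 213872) (.g (nat_lit 3000) (.e (nat_lit 90158) (nat_lit 11) (.e (nat_lit 24607) (nat_lit 3) (.e (nat_lit 106240) (nat_lit 9) (.e (nat_lit 336013) (nat_lit 2) (.e (nat_lit 90134) (nat_lit 9) (.e (nat_lit 290) (nat_lit 21) (.e (nat_lit 336002) (nat_lit 2) .nil))))))) (.g (nat_lit 5) .nil .nil)))))) (.nd (nat_lit 4) (.nd (nat_lit 5) (.nd (nat_lit 6) 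
(.lf (nat_lit 213768) (.g (nat_lit 1469) (.e (nat_lit 90157) (nat_lit 11) (.e (nat_lit 24665) (nat_lit 14) (.e (nat_lit 401426) (nat_lit 3) .nil))) .nil)) 
(.lf (nat_lit 213832) (.g (nat_lit 3146) (.e (nat_lit 90158) (nat_lit 11) (.e (nat_lit 24604) (nat_lit 2) (.e (nat_lit 90158) (nat_lit 11) (.e (nat_lit 24604) (nat_lit 2) (.e (nat_lit 90157) (nat_lit 11) (.e (nat_lit 24602) (nat_lit 2) .nil)))))) (.g (nat_lit 0) .nil .nil)))) (.nd (nat_lit 6) 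
(.lf (nat_lit 213800) (.g (nat_lit 707) (.e (nat_lit 90158) (nat_lit 11) (.e (nat_lit 24604) (nat_lit 2) (.e (nat_lit 90123) (nat_lit 9) .nil))) .nil)) 
(.lf (nat_lit 213864) (.g (nat_lit 2228) (.e (nat_lit 90158) (nat_lit 11) (.e (nat_lit 24607) (nat_lit 3) (.e (nat_lit 98317) (nat_lit 9) (.e (nat_lit 336004) (nat_lit 2) (.e (nat_lit 90157) (nat_lit 11) (.e (nat_lit 24602) (nat_lit 2) .nil)))))) (.g (nat_lit 4) .nil .nil))))) (.nd (nat_lit 5) (.nd (nat_lit 6) 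
(.lf (nat_lit 213784) (.g (nat_lit 1870) (.e (nat_lit 90158) (nat_lit 11) (.e (nat_lit 24602) (nat_lit 2) (.e (nat_lit 90158) (nat_lit 11) (.e (nat_lit 24608) (nat_lit 3) (.e (nat_lit 98316) (nat_lit 9) (.e (nat_lit 336002) (nat_lit 2) .nil)))))) (.g (nat_lit 4) .nil .nil))) 
(.lf (nat_lit 213848) (.g (nat_lit 1809) (.e (nat_lit 90158) (nat_lit 11) (.e (nat_lit 24604) (nat_lit 2) (.e (nat_lit 90160) (nat_lit 11) (.e (nat_lit 24609) (nat_lit 3) .nil)))) .nil))) (.nd (nat_lit 6) 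
(.lf (nat_lit 213816) (.g (nat_lit 1042) (.e (nat_lit 90158) (nat_lit 11) (.e (nat_lit 24604) (nat_lit 2) (.e (nat_lit 90157) (nat_lit 11) (.e (nat_lit 24603) (nat_lit 2) .nil)))) .nil)) 
(.lf (nat_lit 213880) (.g (nat_lit 2725) (.e (nat_lit 90158) (nat_lit 11) (.e (nat_lit 24608) (nat_lit 3) (.e (nat_lit 98312) (nat_lit 9) (.e (nat_lit 336012) (nat_lit 2) (.e (nat_lit 90158) (nat_lit 11) (.e (nat_lit 24603) (nat_lit 2) .nil)))))) (.g (nat_lit 5) .nil .nil))))))) (.nd (nat_lit 3) (.nd (nat_lit 4) (.nd (nat_lit 5) (.nd (nat_lit 6) 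
(.lf (nat_lit 213764) (.g (nat_lit 2855) (.e (nat_lit 90157) (nat_lit 11) (.e (nat_lit 24665) (nat_lit 14) (.e (nat_lit 401414) (nat_lit 0) (.e (nat_lit 3238) (nat_lit 197) .nil)))) .nil)) 
(.lf (nat_lit 213828) (.g (nat_lit 2453) (.e (nat_lit 90158) (nat_lit 11) (.e (nat_lit 24604) (nat_lit 2) (.e (nat_lit 90158) (nat_lit 11) (.e (nat_lit 24604) (nat_lit 2) (.e (nat_lit 90135) (nat_lit 9) .nil))))) .nil))) (.nd (nat_lit 6) 
(.lf (nat_lit 213796) (.g (nat_lit 2322) (.e (nat_lit 90158) (nat_lit 11) (.e (nat_lit 24603) (nat_lit 2) (.e (nat_lit 90160) (nat_lit 11) (.e (nat_lit 24604) (nat_lit 2) (.e (nat_lit 90160) (nat_lit 11) (.e (nat_lit 24603) (nat_lit 2) .nil)))))) (.g (nat_lit 5) .nil .nil))) 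
(.lf (nat_lit 213860) (.g (nat_lit 1365) (.e (nat_lit 90158) (nat_lit 11) (.e (nat_lit 24607) (nat_lit 3) (.e (nat_lit 98316) (nat_lit 9) (.e (nat_lit 336021) (nat_lit 3) (.e (nat_lit 98317) (nat_lit 9) .nil))))) .nil)))) (.nd (nat_lit 5) (.nd (nat_lit 6) 
(.lf (nat_lit 213780) (.g (nat_lit 2269) (.e (nat_lit 90158) (nat_lit 11) (.e (nat_lit 24602) (nat_lit 2) (.e (nat_lit 90158) (nat_lit 11) (.e (nat_lit 24605) (nat_lit 2) (.e (nat_lit 90158) (nat_lit 11) (.e (nat_lit 24602) (nat_lit 2) .nil)))))) (.g (nat_lit 5) .nil .nil))) 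
(.lf (nat_lit 213844) (.g (nat_lit 2556) (.e (nat_lit 90158) (nat_lit 11) (.e (nat_lit 24604) (nat_lit 2) (.e (nat_lit 90160) (nat_lit 11) (.e (nat_lit 24604) (nat_lit 2) (.e (nat_lit 90134) (nat_lit 9) (.e (nat_lit 290) (nat_lit 21) (.e (nat_lit 336002) (nat_lit 2) .nil))))))) (.g (nat_lit 4) .nil .nil)))) (.nd (nat_lit 6) 
(.lf (nat_lit 213812) (.g (nat_lit 1489) (.e (nat_lit 90158) (nat_lit 11) (.e (nat_lit 24604) (nat_lit 2) (.e (nat_lit 90153) (nat_lit 10) (.e (nat_lit 16128) (nat_lit 253) .nil)))) .nil)) 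
(.lf (nat_lit 213876) (.g (nat_lit 2079) (.e (nat_lit 90158) (nat_lit 11) (.e (nat_lit 24608) (nat_lit 3) (.e (nat_lit 98312) (nat_lit 9) (.e (nat_lit 336002) (nat_lit 2) (.e (nat_lit 90158) (nat_lit 11) (.e (nat_lit 24605) (nat_lit 2) .nil)))))) (.g (nat_lit 5) .nil .nil)))))) (.nd (nat_lit 4) (.nd (nat_lit 5) (.nd (nat_lit 6) 
(.lf (nat_lit 213772) (.g (nat_lit 1271) (.e (nat_lit 90157) (nat_lit 11) (.e (nat_lit 24665) (nat_lit 14) (.e (nat_lit 401463) (nat_lit 15) .nil))) .nil)) 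
(.lf (nat_lit 213836) (.g (nat_lit 1832) (.e (nat_lit 90158) (nat_lit 11) (.e (nat_lit 24604) (nat_lit 2) (.e (nat_lit 90158) (nat_lit 11) (.e (nat_lit 24607) (nat_lit 3) (.e (nat_lit 98313) (nat_lit 9) .nil))))) .nil))) (.nd (nat_lit 6) 
(.lf (nat_lit 213804) (.g (nat_lit 4000) (.e (nat_lit 90158) (nat_lit 11) (.e (nat_lit 24604) (nat_lit 2) (.e (nat_lit 90128) (nat_lit 9) (.e (nat_lit 232) (nat_lit 21) (.e (nat_lit 336013) (nat_lit 2) (.e (nat_lit 90134) (nat_lit 9) (.e (nat_lit 290) (nat_lit 21) (.e (nat_lit 336002) (nat_lit 2) .nil)))))))) (.g (nat_lit 5) .nil .nil))) 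
(.lf (nat_lit 213868) (.g (nat_lit 2209) (.e (nat_lit 90158) (nat_lit 11) (.e (nat_lit 24607) (nat_lit 3) (.e (nat_lit 98317) (nat_lit 9) (.e (nat_lit 336011) (nat_lit 2) (.e (nat_lit 90160) (nat_lit 11) (.e (nat_lit 24602) (nat_lit 2) .nil)))))) (.g (nat_lit 4) .nil .nil))))) (.nd (nat_lit 5) (.nd (nat_lit 6) 
(.lf (nat_lit 213788) (.g (nat_lit 2112) (.e (nat_lit 90158) (nat_lit 11) (.e (nat_lit 24603) (nat_lit 2) (.e (nat_lit 90158) (nat_lit 11) (.e (nat_lit 24602) (nat_lit 2) (.e (nat_lit 90158) (nat_lit 11) (.e (nat_lit 24602) (nat_lit 2) .nil)))))) (.g (nat_lit 6) .nil .nil))) 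
(.lf (nat_lit 213852) (.g (nat_lit 3479) (.e (nat_lit 90158) (nat_lit 11) (.e (nat_lit 24605) (nat_lit 2) (.e (nat_lit 90158) (nat_lit 11) (.e (nat_lit 24607) (nat_lit 3) (.e (nat_lit 98313) (nat_lit 9) (.e (nat_lit 336012) (nat_lit 2) .nil)))))) (.g (nat_lit 0) .nil .nil)))) (.nd (nat_lit 6) 
(.lf (nat_lit 213820) (.g (nat_lit 397) (.e (nat_lit 90158) (nat_lit 11) (.e (nat_lit 24604) (nat_lit 2) (.e (nat_lit 90158) (nat_lit 11) .nil))) .nil)) 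
(.lf (nat_lit 213884) (.g (nat_lit 386) (.e (nat_lit 90158) (nat_lit 11) (.e (nat_lit 24608) (nat_lit 3) (.e (nat_lit 98313) (nat_lit 9) .nil))) .nil))))))) (.nd (nat_lit 2) (.nd (nat_lit 3) (.nd (nat_lit 4) (.nd (nat_lit 5) (.nd (nat_lit 6) 
(.lf (nat_lit 213762) (.g (nat_lit 1252) (.e (nat_lit 90157) (nat_lit 11) (.e (nat_lit 24665) (nat_lit 14) (.e (nat_lit 401414) (nat_lit 0) .nil))) .nil)) 
(.lf (nat_lit 213826) (.g (nat_lit 2438) (.e (nat_lit 90158) (nat_lit 11) (.e (nat_lit 24604) (nat_lit 2) (.e (nat_lit 90158) (nat_lit 11) (.e (nat_lit 24604) (nat_lit 2) (.e (nat_lit 90131) (nat_lit 9) .nil))))) .nil))) (.nd (nat_lit 6) 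
(.lf (nat_lit 213794) (.g (nat_lit 2695) (.e (nat_lit 90158) (nat_lit 11) (.e (nat_lit 24603) (nat_lit 2) (.e (nat_lit 90160) (nat_lit 11) (.e (nat_lit 24604) (nat_lit 2) (.e (nat_lit 90157) (nat_lit 11) (.e (nat_lit 24602) (nat_lit 2) .nil)))))) (.g (nat_lit 0) .nil .nil))) 
(.lf (nat_lit 213858) (.g (nat_lit 2444) (.e (nat_lit 90158) (nat_lit 11) (.e (nat_lit 24607) (nat_lit 3) (.e (nat_lit 98313) (nat_lit 9) (.e (nat_lit 336012) (nat_lit 2) (.e (nat_lit 90134) (nat_lit 9) (.e (nat_lit 290) (nat_lit 21) (.e (nat_lit 336002) (nat_lit 2) .nil))))))) (.g (nat_lit 4) .nil .nil))))) (.nd (nat_lit 5) (.nd (nat_lit 6) 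
(.lf (nat_lit 213778) (.g (nat_lit 2840) (.e (nat_lit 90158) (nat_lit 11) (.e (nat_lit 24602) (nat_lit 2) (.e (nat_lit 90158) (nat_lit 11) (.e (nat_lit 24604) (nat_lit 2) (.e (nat_lit 90134) (nat_lit 9) (.e (nat_lit 290) (nat_lit 21) (.e (nat_lit 336002) (nat_lit 2) .nil))))))) (.g (nat_lit 5) .nil .nil))) 
(.lf (nat_lit 213842) (.g (nat_lit 2302) (.e (nat_lit 90158) (nat_lit 11) (.e (nat_lit 24604) (nat_lit 2) (.e (nat_lit 90160) (nat_lit 11) (.e (nat_lit 24588) (nat_lit 0) (.e (nat_lit 1799) (nat_lit 119) .nil))))) .nil))) (.nd (nat_lit 6) 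
(.lf (nat_lit 213810) (.g (nat_lit 2788) (.e (nat_lit 90158) (nat_lit 11) (.e (nat_lit 24604) (nat_lit 2) (.e (nat_lit 90134) (nat_lit 9) (.e (nat_lit 290) (nat_lit 21) (.e (nat_lit 336002) (nat_lit 2) (.e (nat_lit 90158) (nat_lit 11) (.e (nat_lit 24603) (nat_lit 2) .nil))))))) (.g (nat_lit 6) .nil .nil))) 
(.lf (nat_lit 213874) (.g (nat_lit 675) (.e (nat_lit 90158) (nat_lit 11) (.e (nat_lit 24608) (nat_lit 3) (.e (nat_lit 98309) (nat_lit 0) .nil))) .nil))))) (.nd (nat_lit 4) (.nd (nat_lit 5) (.nd (nat_lit 6) 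
(.lf (nat_lit 213770) (.g (nat_lit 2682) (.e (nat_lit 90157) (nat_lit 11) (.e (nat_lit 24665) (nat_lit 14) (.e (nat_lit 401427) (nat_lit 3) (.e (nat_lit 204880) (nat_lit 32) .nil)))) .nil)) 
(.lf (nat_lit 213834) (.g (nat_lit 2916) (.e (nat_lit 90158) (nat_lit 11) (.e (nat_lit 24604) (nat_lit 2) (.e (nat_lit 90158) (nat_lit 11) (.e (nat_lit 24604) (nat_lit 2) (.e (nat_lit 90159) (nat_lit 11) (.e (nat_lit 24602) (nat_lit 2) .nil)))))) (.g (nat_lit 0) .nil .nil)))) (.nd (nat_lit 6) 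
(.lf (nat_lit 213802) (.g (nat_lit 877) (.e (nat_lit 90158) (nat_lit 11) (.e (nat_lit 24604) (nat_lit 2) (.e (nat_lit 90125) (nat_lit 9) .nil))) .nil)) 
(.lf (nat_lit 213866) (.g (nat_lit 2885) (.e (nat_lit 90158) (nat_lit 11) (.e (nat_lit 24607) (nat_lit 3) (.e (nat_lit 98317) (nat_lit 9) (.e (nat_lit 336009) (nat_lit 2) (.e (nat_lit 90160) (nat_lit 11) (.e (nat_lit 24602) (nat_lit 2) .nil)))))) (.g (nat_lit 5) .nil .nil))))) (.nd (nat_lit 5) (.nd (nat_lit 6) 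
(.lf (nat_lit 213786) (.g (nat_lit 1526) (.e (nat_lit 90158) (nat_lit 11) (.e (nat_lit 24603) (nat_lit 2) (.e (nat_lit 90128) (nat_lit 9) (.e (nat_lit 297) (nat_lit 22) (.e (nat_lit 344119) (nat_lit 21) (.e (nat_lit 516195) (nat_lit 26) (.e (nat_lit 336012) (nat_lit 2) .nil))))))) (.g (nat_lit 4) .nil .nil))) 
(.lf (nat_lit 213850) (.g (nat_lit 1872) (.e (nat_lit 90158) (nat_lit 11) (.e (nat_lit 24605) (nat_lit 2) (.e (nat_lit 90158) (nat_lit 11) (.e (nat_lit 24605) (nat_lit 2) (.e (nat_lit 90134) (nat_lit 9) (.e (nat_lit 290) (nat_lit 21) (.e (nat_lit 336002) (nat_lit 2) .nil))))))) (.g (nat_lit 4) .nil .nil)))) (.nd (nat_lit 6) 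
(.lf (nat_lit 213818) (.g (nat_lit 3217) (.e (nat_lit 90158) (nat_lit 11) (.e (nat_lit 24604) (nat_lit 2) (.e (nat_lit 90157) (nat_lit 11) (.e (nat_lit 24607) (nat_lit 3) (.e (nat_lit 98317) (nat_lit 9) (.e (nat_lit 336002) (nat_lit 2) .nil)))))) (.g (nat_lit 6) .nil .nil))) 
(.lf (nat_lit 213882) (.g (nat_lit 2649) (.e (nat_lit 90158) (nat_lit 11) (.e (nat_lit 24608) (nat_lit 3) (.e (nat_lit 98312) (nat_lit 9) (.e (nat_lit 336012) (nat_lit 2) (.e (nat_lit 90160) (nat_lit 11) (.e (nat_lit 24603) (nat_lit 2) .nil)))))) (.g (nat_lit 5) .nil .nil))))))) (.nd (nat_lit 3) (.nd (nat_lit 4) (.nd (nat_lit 5) (.nd (nat_lit 6) 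
(.lf (nat_lit 213766) (.g (nat_lit 3073) (.e (nat_lit 90157) (nat_lit 11) (.e (nat_lit 24665) (nat_lit 14) (.e (nat_lit 401414) (nat_lit 0) (.e (nat_lit 3272) (nat_lit 199) .nil)))) .nil)) 
(.lf (nat_lit 213830) (.g (nat_lit 2447) (.e (nat_lit 90158) (nat_lit 11) (.e (nat_lit 24604) (nat_lit 2) (.e (nat_lit 90158) (nat_lit 11) (.e (nat_lit 24604) (nat_lit 2) (.e (nat_lit 90145) (nat_lit 9) .nil))))) .nil))) (.nd (nat_lit 6) 
(.lf (nat_lit 213798) (.g (nat_lit 989) (.e (nat_lit 90158) (nat_lit 11) (.e (nat_lit 24604) (nat_lit 2) (.e (nat_lit 90121) (nat_lit 9) .nil))) .nil)) 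
(.lf (nat_lit 213862) (.g (nat_lit 1489) (.e (nat_lit 90158) (nat_lit 11) (.e (nat_lit 24607) (nat_lit 3) (.e (nat_lit 98317) (nat_lit 9) (.e (nat_lit 336002) (nat_lit 2) (.e (nat_lit 90157) (nat_lit 11) .nil))))) .nil)))) (.nd (nat_lit 5) (.nd (nat_lit 6) 
(.lf (nat_lit 213782) (.g (nat_lit 803) (.e (nat_lit 90158) (nat_lit 11) (.e (nat_lit 24602) (nat_lit 2) (.e (nat_lit 90158) (nat_lit 11) (.e (nat_lit 24606) (nat_lit 3) .nil)))) .nil)) 
(.lf (nat_lit 213846) (.g (nat_lit 2803) (.e (nat_lit 90158) (nat_lit 11) (.e (nat_lit 24604) (nat_lit 2) (.e (nat_lit 90160) (nat_lit 11) (.e (nat_lit 24604) (nat_lit 2) (.e (nat_lit 90160) (nat_lit 11) (.e (nat_lit 24603) (nat_lit 2) .nil)))))) (.g (nat_lit 5) .nil .nil)))) (.nd (nat_lit 6) 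
(.lf (nat_lit 213814) (.g (nat_lit 1919) (.e (nat_lit 90158) (nat_lit 11) (.e (nat_lit 24604) (nat_lit 2) (.e (nat_lit 90156) (nat_lit 11) (.e (nat_lit 24607) (nat_lit 3) (.e (nat_lit 98317) (nat_lit 9) .nil))))) .nil)) 
(.lf (nat_lit 213878) (.g (nat_lit 2208) (.e (nat_lit 90158) (nat_lit 11) (.e (nat_lit 24608) (nat_lit 3) (.e (nat_lit 98312) (nat_lit 9) (.e (nat_lit 336011) (nat_lit 2) (.e (nat_lit 90134) (nat_lit 9) (.e (nat_lit 290) (nat_lit 21) (.e (nat_lit 336002) (nat_lit 2) .nil))))))) (.g (nat_lit 5) .nil .nil)))))) (.nd (nat_lit 4) (.nd (nat_lit 5) (.nd (nat_lit 6) 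
(.lf (nat_lit 213774) (.g (nat_lit 657) (.e (nat_lit 90158) (nat_lit 11) (.e (nat_lit 24580) (nat_lit 0) (.e (nat_lit 1982) (nat_lit 135) (.e (nat_lit 647183) (nat_lit 4) .nil)))) .nil)) 
(.lf (nat_lit 213838) (.g (nat_lit 2465) (.e (nat_lit 90158) (nat_lit 11) (.e (nat_lit 24604) (nat_lit 2) (.e (nat_lit 90158) (nat_lit 11) (.e (nat_lit 24608) (nat_lit 3) (.e (nat_lit 98313) (nat_lit 9) (.e (nat_lit 336002) (nat_lit 2) .nil)))))) (.g (nat_lit 5) .nil .nil)))) (.nd (nat_lit 6) 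
(.lf (nat_lit 213806) (.g (nat_lit 1689) (.e (nat_lit 90158) (nat_lit 11) (.e (nat_lit 24604) (nat_lit 2) (.e (nat_lit 90128) (nat_lit 9) (.e (nat_lit 297) (nat_lit 22) (.e (nat_lit 344119) (nat_lit 21) .nil))))) .nil)) 
(.lf (nat_lit 213870) (.g (nat_lit 2931) (.e (nat_lit 90158) (nat_lit 11) (.e (nat_lit 24607) (nat_lit 3) (.e (nat_lit 98317) (nat_lit 9) (.e (nat_lit 336012) (nat_lit 2) (.e (nat_lit 90160) (nat_lit 11) (.e (nat_lit 24601) (nat_lit 2) .nil)))))) (.g (nat_lit 5) .nil .nil))))) (.nd (nat_lit 5) (.nd (nat_lit 6) 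
(.lf (nat_lit 213790) (.g (nat_lit 1764) (.e (nat_lit 90158) (nat_lit 11) (.e (nat_lit 24603) (nat_lit 2) (.e (nat_lit 90160) (nat_lit 11) (.e (nat_lit 24588) (nat_lit 0) (.e (nat_lit 1799) (nat_lit 119) (.e (nat_lit 516195) (nat_lit 26) (.e (nat_lit 336012) (nat_lit 2) .nil))))))) (.g (nat_lit 4) .nil .nil))) 
(.lf (nat_lit 213854) (.g (nat_lit 1692) (.e (nat_lit 90158) (nat_lit 11) (.e (nat_lit 24605) (nat_lit 2) (.e (nat_lit 90158) (nat_lit 11) (.e (nat_lit 24608) (nat_lit 3) (.e (nat_lit 98316) (nat_lit 9) .nil))))) .nil))) (.nd (nat_lit 6) 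
(.lf (nat_lit 213822) (.g (nat_lit 1293) (.e (nat_lit 90158) (nat_lit 11) (.e (nat_lit 24604) (nat_lit 2) (.e (nat_lit 90158) (nat_lit 11) (.e (nat_lit 24601) (nat_lit 2) .nil)))) .nil)) 
(.lf (nat_lit 213886) (.g (nat_lit 2103) (.e (nat_lit 90158) (nat_lit 11) (.e (nat_lit 24608) (nat_lit 3) (.e (nat_lit 98313) (nat_lit 9) (.e (nat_lit 336011) (nat_lit 2) (.e (nat_lit 90133) (nat_lit 9) (.e (nat_lit 253) (nat_lit 21) (.e (nat_lit 336002) (nat_lit 2) .nil))))))) (.g (nat_lit 4) .nil .nil))))))))) 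
(.nd (nat_lit 1) (.nd (nat_lit 2) (.nd (nat_lit 3) (.nd (nat_lit 4) (.nd (nat_lit 5) 
(.nd (nat_lit 6) 
(.lf (nat_lit 213761) (.g (nat_lit 1186) (.e (nat_lit 90157) (nat_lit 11) (.e (nat_lit 24665) (nat_lit 14) (.e (nat_lit 401413) (nat_lit 0) .nil))) .nil)) 
(.lf (nat_lit 213825) (.g (nat_lit 2758) (.e (nat_lit 90158) (nat_lit 11) (.e (nat_lit 24604) (nat_lit 2) (.e (nat_lit 90158) (nat_lit 11) (.e (nat_lit 24603) (nat_lit 2) (.e (nat_lit 90160) (nat_lit 11) (.e (nat_lit 24602) (nat_lit 2) .nil)))))) (.g (nat_lit 0) .nil .nil)))) (.nd (nat_lit 6) 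
(.lf (nat_lit 213793) (.g (nat_lit 1569) (.e (nat_lit 90158) (nat_lit 11) (.e (nat_lit 24603) (nat_lit 2) (.e (nat_lit 90160) (nat_lit 11) (.e (nat_lit 24603) (nat_lit 2) (.e (nat_lit 90157) (nat_lit 11) (.e (nat_lit 24602) (nat_lit 2) .nil)))))) (.g (nat_lit 5) .nil .nil))) 
(.lf (nat_lit 213857) (.g (nat_lit 1302) (.e (nat_lit 90158) (nat_lit 11) (.e (nat_lit 24607) (nat_lit 3) (.e (nat_lit 98313) (nat_lit 9) (.e (nat_lit 336002) (nat_lit 2) (.e (nat_lit 90158) (nat_lit 11) .nil))))) .nil)))) (.nd (nat_lit 5) (.nd (nat_lit 6) 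
(.lf (nat_lit 213777) (.g (nat_lit 2307) (.e (nat_lit 90158) (nat_lit 11) (.e (nat_lit 24602) (nat_lit 2) (.e (nat_lit 90158) (nat_lit 11) (.e (nat_lit 24602) (nat_lit 2) (.e (nat_lit 90158) (nat_lit 11) (.e (nat_lit 24602) (nat_lit 2) .nil)))))) (.g (nat_lit 5) .nil .nil))) 
(.lf (nat_lit 213841) (.g (nat_lit 395) (.e (nat_lit 90158) (nat_lit 11) (.e (nat_lit 24604) (nat_lit 2) (.e (nat_lit 90160) (nat_lit 11) .nil))) .nil))) (.nd (nat_lit 6) 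
(.lf (nat_lit 213809) (.g (nat_lit 1075) (.e (nat_lit 90158) (nat_lit 11) (.e (nat_lit 24604) (nat_lit 2) (.e (nat_lit 90134) (nat_lit 9) (.e (nat_lit 290) (nat_lit 21) .nil)))) .nil)) 
(.lf (nat_lit 213873) (.g (nat_lit 1058) (.e (nat_lit 90158) (nat_lit 11) (.e (nat_lit 24608) (nat_lit 3) (.e (nat_lit 98307) (nat_lit 0) .nil))) .nil))))) (.nd (nat_lit 4) (.nd (nat_lit 5) (.nd (nat_lit 6) 
(.lf (nat_lit 213769) (.g (nat_lit 3792) (.e (nat_lit 90157) (nat_lit 11) (.e (nat_lit 24665) (nat_lit 14) (.e (nat_lit 401426) (nat_lit 3) (.e (nat_lit 204880) (nat_lit 32) (.e (nat_lit 392960) (nat_lit 42) .nil))))) .nil)) 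
(.lf (nat_lit 213833) (.g (nat_lit 3225) (.e (nat_lit 90158) (nat_lit 11) (.e (nat_lit 24604) (nat_lit 2) (.e (nat_lit 90158) (nat_lit 11) (.e (nat_lit 24604) (nat_lit 2) (.e (nat_lit 90158) (nat_lit 11) (.e (nat_lit 24602) (nat_lit 2) .nil)))))) (.g (nat_lit 0) .nil .nil)))) (.nd (nat_lit 6) 
(.lf (nat_lit 213801) (.g (nat_lit 1032) (.e (nat_lit 90158) (nat_lit 11) (.e (nat_lit 24604) (nat_lit 2) (.e (nat_lit 90123) (nat_lit 9) (.e (nat_lit 7936) (nat_lit 22) .nil)))) .nil)) 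
(.lf (nat_lit 213865) (.g (nat_lit 2369) (.e (nat_lit 90158) (nat_lit 11) (.e (nat_lit 24607) (nat_lit 3) (.e (nat_lit 98317) (nat_lit 9) (.e (nat_lit 336004) (nat_lit 2) (.e (nat_lit 90160) (nat_lit 11) (.e (nat_lit 24601) (nat_lit 2) .nil)))))) (.g (nat_lit 4) .nil .nil))))) (.nd (nat_lit 5) (.nd (nat_lit 6) 
(.lf (nat_lit 213785) (.g (nat_lit 2204) (.e (nat_lit 90158) (nat_lit 11) (.e (nat_lit 24602) (nat_lit 2) (.e (nat_lit 90158) (nat_lit 11) (.e (nat_lit 24609) (nat_lit 3) (.e (nat_lit 98317) (nat_lit 9) (.e (nat_lit 336010) (nat_lit 2) .nil)))))) (.g (nat_lit 5) .nil .nil))) 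
(.lf (nat_lit 213849) (.g (nat_lit 2798) (.e (nat_lit 90158) (nat_lit 11) (.e (nat_lit 24605) (nat_lit 2) (.e (nat_lit 90158) (nat_lit 11) (.e (nat_lit 24604) (nat_lit 2) (.e (nat_lit 90134) (nat_lit 9) (.e (nat_lit 290) (nat_lit 21) (.e (nat_lit 336002) (nat_lit 2) .nil))))))) (.g (nat_lit 5) .nil .nil)))) (.nd (nat_lit 6) 
(.lf (nat_lit 213817) (.g (nat_lit 1530) (.e (nat_lit 90158) (nat_lit 11) (.e (nat_lit 24604) (nat_lit 2) (.e (nat_lit 90157) (nat_lit 11) (.e (nat_lit 24607) (nat_lit 3) (.e (nat_lit 98313) (nat_lit 9) .nil))))) .nil)) 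
(.lf (nat_lit 213881) (.g (nat_lit 1966) (.e (nat_lit 90158) (nat_lit 11) (.e (nat_lit 24608) (nat_lit 3) (.e (nat_lit 98312) (nat_lit 9) (.e (nat_lit 336012) (nat_lit 2) (.e (nat_lit 90159) (nat_lit 11) (.e (nat_lit 24602) (nat_lit 2) .nil)))))) (.g (nat_lit 4) .nil .nil))))))) (.nd (nat_lit 3) (.nd (nat_lit 4) (.nd (nat_lit 5) (.nd (nat_lit 6) 
(.lf (nat_lit 213765) (.g (nat_lit 3037) (.e (nat_lit 90157) (nat_lit 11) (.e (nat_lit 24665) (nat_lit 14) (.e (nat_lit 401414) (nat_lit 0) (.e (nat_lit 3270) (nat_lit 199) .nil)))) .nil)) 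
(.lf (nat_lit 213829) (.g (nat_lit 2453) (.e (nat_lit 90158) (nat_lit 11) (.e (nat_lit 24604) (nat_lit 2) (.e (nat_lit 90158) (nat_lit 11) (.e (nat_lit 24604) (nat_lit 2) (.e (nat_lit 90143) (nat_lit 9) .nil))))) .nil))) (.nd (nat_lit 6) 
(.lf (nat_lit 213797) (.g (nat_lit 1351) (.e (nat_lit 90158) (nat_lit 11) (.e (nat_lit 24603) (nat_lit 2) (.e (nat_lit 90160) (nat_lit 11) (.e (nat_lit 24609) (nat_lit 3) .nil)))) .nil)) 
(.lf (nat_lit 213861) (.g (nat_lit 295) (.e (nat_lit 90158) (nat_lit 11) (.e (nat_lit 24607) (nat_lit 3) (.e (nat_lit 98317) (nat_lit 9) .nil))) .nil)))) (.nd (nat_lit 5) (.nd (nat_lit 6) 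
(.lf (nat_lit 213781) (.g (nat_lit 2051) (.e (nat_lit 90158) (nat_lit 11) (.e (nat_lit 24602) (nat_lit 2) (.e (nat_lit 90158) (nat_lit 11) (.e (nat_lit 24605) (nat_lit 2) (.e (nat_lit 90158) (nat_lit 11) (.e (nat_lit 24603) (nat_lit 2) .nil)))))) (.g (nat_lit 5) .nil .nil))) 
(.lf (nat_lit 213845) (.g (nat_lit 3202) (.e (nat_lit 90158) (nat_lit 11) (.e (nat_lit 24604) (nat_lit 2) (.e (nat_lit 90160) (nat_lit 11) (.e (nat_lit 24604) (nat_lit 2) (.e (nat_lit 90157) (nat_lit 11) (.e (nat_lit 24602) (nat_lit 2) .nil)))))) (.g (nat_lit 6) .nil .nil)))) (.nd (nat_lit 6) 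
(.lf (nat_lit 213813) (.g (nat_lit 983) (.e (nat_lit 90158) (nat_lit 11) (.e (nat_lit 24604) (nat_lit 2) (.e (nat_lit 90156) (nat_lit 11) .nil))) .nil)) 
(.lf (nat_lit 213877) (.g (nat_lit 3064) (.e (nat_lit 90158) (nat_lit 11) (.e (nat_lit 24608) (nat_lit 3) (.e (nat_lit 98312) (nat_lit 9) (.e (nat_lit 336004) (nat_lit 2) (.e (nat_lit 90158) (nat_lit 11) (.e (nat_lit 24602) (nat_lit 2) .nil)))))) (.g (nat_lit 5) .nil .nil)))))) (.nd (nat_lit 4) (.nd (nat_lit 5) (.nd (nat_lit 6) 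
(.lf (nat_lit 213773) (.g (nat_lit 2440) (.e (nat_lit 90157) (nat_lit 11) (.e (nat_lit 24665) (nat_lit 14) (.e (nat_lit 401463) (nat_lit 15) (.e (nat_lit 1855) (nat_lit 124) (.e (nat_lit 557100) (nat_lit 13) .nil))))) .nil)) 
(.lf (nat_lit 213837) (.g (nat_lit 921) (.e (nat_lit 90158) (nat_lit 11) (.e (nat_lit 24604) (nat_lit 2) (.e (nat_lit 90158) (nat_lit 11) (.e (nat_lit 24608) (nat_lit 3) .nil)))) .nil))) (.nd (nat_lit 6) 
(.lf (nat_lit 213805) (.g (nat_lit 1480) (.e (nat_lit 90158) (nat_lit 11) (.e (nat_lit 24604) (nat_lit 2) (.e (nat_lit 90128) (nat_lit 9) (.e (nat_lit 293) (nat_lit 21) .nil)))) .nil)) 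
(.lf (nat_lit 213869) (.g (nat_lit 2129) (.e (nat_lit 90158) (nat_lit 11) (.e (nat_lit 24607) (nat_lit 3) (.e (nat_lit 98317) (nat_lit 9) (.e (nat_lit 336012) (nat_lit 2) (.e (nat_lit 90134) (nat_lit 9) (.e (nat_lit 290) (nat_lit 21) (.e (nat_lit 336002) (nat_lit 2) .nil))))))) (.g (nat_lit 4) .nil .nil))))) (.nd (nat_lit 5) (.nd (nat_lit 6) 
(.lf (nat_lit 213789) (.g (nat_lit 1487) (.e (nat_lit 90158) (nat_lit 11) (.e (nat_lit 24603) (nat_lit 2) (.e (nat_lit 90158) (nat_lit 11) (.e (nat_lit 24603) (nat_lit 2) (.e (nat_lit 90157) (nat_lit 11) (.e (nat_lit 24602) (nat_lit 2) .nil)))))) (.g (nat_lit 5) .nil .nil))) 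
(.lf (nat_lit 213853) (.g (nat_lit 3358) (.e (nat_lit 90158) (nat_lit 11) (.e (nat_lit 24605) (nat_lit 2) (.e (nat_lit 90158) (nat_lit 11) (.e (nat_lit 24608) (nat_lit 3) (.e (nat_lit 98313) (nat_lit 9) (.e (nat_lit 336012) (nat_lit 2) .nil)))))) (.g (nat_lit 0) .nil .nil)))) (.nd (nat_lit 6) 
(.lf (nat_lit 213821) (.g (nat_lit 1293) (.e (nat_lit 90158) (nat_lit 11) (.e (nat_lit 24604) (nat_lit 2) (.e (nat_lit 90158) (nat_lit 11) (.e (nat_lit 24588) (nat_lit 0) .nil)))) .nil)) 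
(.lf (nat_lit 213885) (.g (nat_lit 1875) (.e (nat_lit 90158) (nat_lit 11) (.e (nat_lit 24608) (nat_lit 3) (.e (nat_lit 98313) (nat_lit 9) (.e (nat_lit 336002) (nat_lit 2) (.e (nat_lit 90158) (nat_lit 11) (.e (nat_lit 24603) (nat_lit 2) .nil)))))) (.g (nat_lit 5) .nil .nil)))))))) (.nd (nat_lit 2) (.nd (nat_lit 3) (.nd (nat_lit 4) (.nd (nat_lit 5) (.nd (nat_lit 6) 
(.lf (nat_lit 213763) (.g (nat_lit 2775) (.e (nat_lit 90157) (nat_lit 11) (.e (nat_lit 24665) (nat_lit 14) (.e (nat_lit 401414) (nat_lit 0) (.e (nat_lit 3205) (nat_lit 194) .nil)))) .nil)) 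
(.lf (nat_lit 213827) (.g (nat_lit 2187) (.e (nat_lit 90158) (nat_lit 11) (.e (nat_lit 24604) (nat_lit 2) (.e (nat_lit 90158) (nat_lit 11) (.e (nat_lit 24604) (nat_lit 2) (.e (nat_lit 90133) (nat_lit 9) (.e (nat_lit 253) (nat_lit 21) (.e (nat_lit 336002) (nat_lit 2) .nil))))))) (.g (nat_lit 4) .nil .nil)))) (.nd (nat_lit 6) 
(.lf (nat_lit 213795) (.g (nat_lit 2682) (.e (nat_lit 90158) (nat_lit 11) (.e (nat_lit 24603) (nat_lit 2) (.e (nat_lit 90160) (nat_lit 11) (.e (nat_lit 24604) (nat_lit 2) (.e (nat_lit 90160) (nat_lit 11) (.e (nat_lit 24602) (nat_lit 2) .nil)))))) (.g (nat_lit 6) .nil .nil))) 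
(.lf (nat_lit 213859) (.g (nat_lit 3042) (.e (nat_lit 90158) (nat_lit 11) (.e (nat_lit 24607) (nat_lit 3) (.e (nat_lit 98313) (nat_lit 9) (.e (nat_lit 336012) (nat_lit 2) (.e (nat_lit 90160) (nat_lit 11) (.e (nat_lit 24603) (nat_lit 2) .nil)))))) (.g (nat_lit 5) .nil .nil))))) (.nd (nat_lit 5) (.nd (nat_lit 6) 
(.lf (nat_lit 213779) (.g (nat_lit 1791) (.e (nat_lit 90158) (nat_lit 11) (.e (nat_lit 24602) (nat_lit 2) (.e (nat_lit 90158) (nat_lit 11) (.e (nat_lit 24605) (nat_lit 2) (.e (nat_lit 90134) (nat_lit 9) (.e (nat_lit 290) (nat_lit 21) (.e (nat_lit 336002) (nat_lit 2) .nil))))))) (.g (nat_lit 4) .nil .nil))) 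
(.lf (nat_lit 213843) (.g (nat_lit 1610) (.e (nat_lit 90158) (nat_lit 11) (.e (nat_lit 24604) (nat_lit 2) (.e (nat_lit 90160) (nat_lit 11) (.e (nat_lit 24601) (nat_lit 2) .nil)))) .nil))) (.nd (nat_lit 6) 
(.lf (nat_lit 213811) (.g (nat_lit 1104) (.e (nat_lit 90158) (nat_lit 11) (.e (nat_lit 24604) (nat_lit 2) (.e (nat_lit 90141) (nat_lit 9) (.e (nat_lit 250) (nat_lit 21) .nil)))) .nil)) 
(.lf (nat_lit 213875) (.g (nat_lit 2041) (.e (nat_lit 90158) (nat_lit 11) (.e (nat_lit 24608) (nat_lit 3) (.e (nat_lit 98312) (nat_lit 9) (.e (nat_lit 336002) (nat_lit 2) (.e (nat_lit 90158) (nat_lit 11) (.e (nat_lit 24602) (nat_lit 2) .nil)))))) (.g (nat_lit 5) .nil .nil)))))) (.nd (nat_lit 4) (.nd (nat_lit 5) (.nd (nat_lit 6) 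
(.lf (nat_lit 213771) (.g (nat_lit 1406) (.e (nat_lit 90157) (nat_lit 11) (.e (nat_lit 24665) (nat_lit 14) (.e (nat_lit 409344) (nat_lit 3) .nil))) .nil)) 
(.lf (nat_lit 213835) (.g (nat_lit 741) (.e (nat_lit 90158) (nat_lit 11) (.e (nat_lit 24604) (nat_lit 2) (.e (nat_lit 90158) (nat_lit 11) (.e (nat_lit 24607) (nat_lit 3) .nil)))) .nil))) (.nd (nat_lit 6) 
(.lf (nat_lit 213803) (.g (nat_lit 998) (.e (nat_lit 90158) (nat_lit 11) (.e (nat_lit 24604) (nat_lit 2) (.e (nat_lit 90127) (nat_lit 9) .nil))) .nil)) 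
(.lf (nat_lit 213867) (.g (nat_lit 1528) (.e (nat_lit 90158) (nat_lit 11) (.e (nat_lit 24607) (nat_lit 3) (.e (nat_lit 98317) (nat_lit 9) (.e (nat_lit 336011) (nat_lit 2) (.e (nat_lit 90158) (nat_lit 11) .nil))))) .nil)))) (.nd (nat_lit 5) (.nd (nat_lit 6) 
(.lf (nat_lit 213787) (.g (nat_lit 545) (.e (nat_lit 90158) (nat_lit 11) (.e (nat_lit 24603) (nat_lit 2) (.e (nat_lit 90133) (nat_lit 9) (.e (nat_lit 296) (nat_lit 22) .nil)))) .nil)) 
(.lf (nat_lit 213851) (.g (nat_lit 2339) (.e (nat_lit 90158) (nat_lit 11) (.e (nat_lit 24605) (nat_lit 2) (.e (nat_lit 90158) (nat_lit 11) (.e (nat_lit 24605) (nat_lit 2) (.e (nat_lit 90158) (nat_lit 11) (.e (nat_lit 24602) (nat_lit 2) .nil)))))) (.g (nat_lit 5) .nil .nil)))) (.nd (nat_lit 6) 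
(.lf (nat_lit 213819) (.g (nat_lit 1851) (.e (nat_lit 90158) (nat_lit 11) (.e (nat_lit 24604) (nat_lit 2) (.e (nat_lit 90157) (nat_lit 11) (.e (nat_lit 24608) (nat_lit 3) (.e (nat_lit 98317) (nat_lit 9) .nil))))) .nil)) 
(.lf (nat_lit 213883) (.g (nat_lit 1422) (.e (nat_lit 90158) (nat_lit 11) (.e (nat_lit 24608) (nat_lit 3) (.e (nat_lit 98312) (nat_lit 9) (.e (nat_lit 336027) (nat_lit 3) (.e (nat_lit 98316) (nat_lit 9) .nil))))) .nil)))))) (.nd (nat_lit 3) (.nd (nat_lit 4) (.nd (nat_lit 5) (.nd (nat_lit 6) 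
(.lf (nat_lit 213767) (.g (nat_lit 3170) (.e (nat_lit 90157) (nat_lit 11) (.e (nat_lit 24665) (nat_lit 14) (.e (nat_lit 401414) (nat_lit 0) (.e (nat_lit 3297) (nat_lit 202) (.e (nat_lit 573471) (nat_lit 11) .nil))))) .nil)) 
(.lf (nat_lit 213831) (.g (nat_lit 2448) (.e (nat_lit 90158) (nat_lit 11) (.e (nat_lit 24604) (nat_lit 2) (.e (nat_lit 90158) (nat_lit 11) (.e (nat_lit 24604) (nat_lit 2) (.e (nat_lit 90147) (nat_lit 9) .nil))))) .nil))) (.nd (nat_lit 6) 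
(.lf (nat_lit 213799) (.g (nat_lit 914) (.e (nat_lit 90158) (nat_lit 11) (.e (nat_lit 24604) (nat_lit 2) (.e (nat_lit 90122) (nat_lit 9) .nil))) .nil)) 
(.lf (nat_lit 213863) (.g (nat_lit 3013) (.e (nat_lit 90158) (nat_lit 11) (.e (nat_lit 24607) (nat_lit 3) (.e (nat_lit 98317) (nat_lit 9) (.e (nat_lit 336002) (nat_lit 2) (.e (nat_lit 90158) (nat_lit 11) (.e (nat_lit 24602) (nat_lit 2) .nil)))))) (.g (nat_lit 6) .nil .nil))))) (.nd (nat_lit 5) (.nd (nat_lit 6) 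
(.lf (nat_lit 213783) (.g (nat_lit 1292) (.e (nat_lit 90158) (nat_lit 11) (.e (nat_lit 24602) (nat_lit 2) (.e (nat_lit 90158) (nat_lit 11) (.e (nat_lit 24607) (nat_lit 3) (.e (nat_lit 106240) (nat_lit 9) .nil))))) .nil)) 
(.lf (nat_lit 213847) (.g (nat_lit 1780) (.e (nat_lit 90158) (nat_lit 11) (.e (nat_lit 24604) (nat_lit 2) (.e (nat_lit 90160) (nat_lit 11) (.e (nat_lit 24605) (nat_lit 2) .nil)))) .nil))) (.nd (nat_lit 6) 
(.lf (nat_lit 213815) (.g (nat_lit 2177) (.e (nat_lit 90158) (nat_lit 11) (.e (nat_lit 24604) (nat_lit 2) (.e (nat_lit 90156) (nat_lit 11) (.e (nat_lit 24608) (nat_lit 3) (.e (nat_lit 98317) (nat_lit 9) .nil))))) .nil)) 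
(.lf (nat_lit 213879) (.g (nat_lit 2742) (.e (nat_lit 90158) (nat_lit 11) (.e (nat_lit 24608) (nat_lit 3) (.e (nat_lit 98312) (nat_lit 9) (.e (nat_lit 336012) (nat_lit 2) (.e (nat_lit 90158) (nat_lit 11) (.e (nat_lit 24602) (nat_lit 2) .nil)))))) (.g (nat_lit 5) .nil .nil)))))) (.nd (nat_lit 4) (.nd (nat_lit 5) (.nd (nat_lit 6) 
(.lf (nat_lit 213775) (.g (nat_lit 1427) (.e (nat_lit 90158) (nat_lit 11) (.e (nat_lit 24599) (nat_lit 1) (.e (nat_lit 57847) (nat_lit 252) (.e (nat_lit 57365) (nat_lit 1) (.e (nat_lit 65280) (nat_lit 209) .nil))))) .nil)) 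
(.lf (nat_lit 213839) (.g (nat_lit 1782) (.e (nat_lit 90158) (nat_lit 11) (.e (nat_lit 24604) (nat_lit 2) (.e (nat_lit 90158) (nat_lit 11) (.e (nat_lit 24608) (nat_lit 3) (.e (nat_lit 98316) (nat_lit 9) .nil))))) .nil))) (.nd (nat_lit 6) 
(.lf (nat_lit 213807) (.g (nat_lit 1765) (.e (nat_lit 90158) (nat_lit 11) (.e (nat_lit 24604) (nat_lit 2) (.e (nat_lit 90128) (nat_lit 9) (.e (nat_lit 328) (nat_lit 25) (.e (nat_lit 368670) (nat_lit 19) .nil))))) .nil)) 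
(.lf (nat_lit 213871) (.g (nat_lit 1314) (.e (nat_lit 90158) (nat_lit 11) (.e (nat_lit 24607) (nat_lit 3) (.e (nat_lit 98317) (nat_lit 9) (.e (nat_lit 343808) (nat_lit 3) .nil)))) .nil)))) (.nd (nat_lit 5) (.nd (nat_lit 6) 
(.lf (nat_lit 213791) (.g (nat_lit 1054) (.e (nat_lit 90158) (nat_lit 11) (.e (nat_lit 24603) (nat_lit 2) (.e (nat_lit 90160) (nat_lit 11) (.e (nat_lit 24601) (nat_lit 2) .nil)))) .nil)) 
(.lf (nat_lit 213855) (.g (nat_lit 2079) (.e (nat_lit 90158) (nat_lit 11) (.e (nat_lit 24605) (nat_lit 2) (.e (nat_lit 90158) (nat_lit 11) (.e (nat_lit 24608) (nat_lit 3) (.e (nat_lit 98316) (nat_lit 9) (.e (nat_lit 336002) (nat_lit 2) .nil)))))) (.g (nat_lit 4) .nil .nil)))) (.nd (nat_lit 6) 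
(.lf (nat_lit 213823) (.g (nat_lit 2756) (.e (nat_lit 90158) (nat_lit 11) (.e (nat_lit 24604) (nat_lit 2) (.e (nat_lit 90158) (nat_lit 11) (.e (nat_lit 24602) (nat_lit 2) (.e (nat_lit 90158) (nat_lit 11) (.e (nat_lit 24602) (nat_lit 2) .nil)))))) (.g (nat_lit 6) .nil .nil))) 
(.lf (nat_lit 213887) (.g (nat_lit 1816) (.e (nat_lit 90158) (nat_lit 11) (.e (nat_lit 24608) (nat_lit 3) (.e (nat_lit 98313) (nat_lit 9) (.e (nat_lit 336011) (nat_lit 2) (.e (nat_lit 90158) (nat_lit 11) .nil))))) .nil)))))))))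

noncomputable def tv2818 : DT := (.nd (nat_lit 0) (.nd (nat_lit 1) (.nd (nat_lit 2) (.nd (nat_lit 3) (.nd (nat_lit 4) (.nd (nat_lit 5) (.nd (nat_lit 6) 
(.lf (nat_lit 213888) (.g (nat_lit 1858) (.e (nat_lit 90158) (nat_lit 11) (.e (nat_lit 24608) (nat_lit 3) (.e (nat_lit 98313) (nat_lit 9) (.e (nat_lit 336011) (nat_lit 2) (.e (nat_lit 90158) (nat_lit 11) (.e (nat_lit 24603) (nat_lit 2) .nil)))))) (.g (nat_lit 4) .nil .nil))) 
(.lf (nat_lit 213952) (.g (nat_lit 1739) (.e (nat_lit 90158) (nat_lit 11) (.e (nat_lit 24609) (nat_lit 3) (.e (nat_lit 98313) (nat_lit 9) (.e (nat_lit 336012) (nat_lit 2) (.e (nat_lit 90157) (nat_lit 11) (.e (nat_lit 24602) (nat_lit 2) .nil)))))) (.g (nat_lit 4) .nil .nil)))) (.nd (nat_lit 6) 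
(.lf (nat_lit 213920) (.g (nat_lit 1516) (.e (nat_lit 90158) (nat_lit 11) (.e (nat_lit 24608) (nat_lit 3) (.e (nat_lit 98339) (nat_lit 19) (.e (nat_lit 213035) (nat_lit 12) .nil)))) .nil)) 
(.lf (nat_lit 213984) (.g (nat_lit 1983) (.e (nat_lit 90158) (nat_lit 11) (.e (nat_lit 24625) (nat_lit 9) (.e (nat_lit 336456) (nat_lit 34) (.e (nat_lit 483365) (nat_lit 18) (.e (nat_lit 57848) (nat_lit 252) .nil))))) .nil)))) (.nd (nat_lit 5) (.nd (nat_lit 6) 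
(.lf (nat_lit 213904) (.g (nat_lit 2093) (.e (nat_lit 90158) (nat_lit 11) (.e (nat_lit 24608) (nat_lit 3) (.e (nat_lit 98317) (nat_lit 9) (.e (nat_lit 336004) (nat_lit 2) (.e (nat_lit 90157) (nat_lit 11) (.e (nat_lit 24602) (nat_lit 2) .nil)))))) (.g (nat_lit 4) .nil .nil))) 
(.lf (nat_lit 213968) (.g (nat_lit 2025) (.e (nat_lit 90158) (nat_lit 11) (.e (nat_lit 24625) (nat_lit 9) (.e (nat_lit 336368) (nat_lit 27) (.e (nat_lit 426499) (nat_lit 27) (.e (nat_lit 335986) (nat_lit 1) .nil))))) .nil))) (.nd (nat_lit 6) 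
(.lf (nat_lit 213936) (.g (nat_lit 2714) (.e (nat_lit 90158) (nat_lit 11) (.e (nat_lit 24608) (nat_lit 3) (.e (nat_lit 98341) (nat_lit 20) (.e (nat_lit 221215) (nat_lit 23) (.e (nat_lit 204821) (nat_lit 17) (.e (nat_lit 1040) (nat_lit 81) (.e (nat_lit 5195) (nat_lit 294) (.e (nat_lit 57372) (nat_lit 2) .nil)))))))) (.g (nat_lit 4) .nil .nil))) 
(.lf (nat_lit 214000) (.g (nat_lit 1847) (.e (nat_lit 90158) (nat_lit 11) (.e (nat_lit 24628) (nat_lit 9) (.e (nat_lit 336018) (nat_lit 3) (.e (nat_lit 98384) (nat_lit 32) (.e (nat_lit 475214) (nat_lit 42) .nil))))) .nil))))) (.nd (nat_lit 4) (.nd (nat_lit 5) (.nd (nat_lit 6) 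
(.lf (nat_lit 213896) (.g (nat_lit 457) (.e (nat_lit 90158) (nat_lit 11) (.e (nat_lit 24608) (nat_lit 3) (.e (nat_lit 98316) (nat_lit 9) .nil))) .nil)) 
(.lf (nat_lit 213960) (.g (nat_lit 1735) (.e (nat_lit 90158) (nat_lit 11) (.e (nat_lit 24609) (nat_lit 3) (.e (nat_lit 98317) (nat_lit 9) (.e (nat_lit 336027) (nat_lit 3) (.e (nat_lit 98316) (nat_lit 9) (.e (nat_lit 336002) (nat_lit 2) .nil)))))) (.g (nat_lit 4) .nil .nil)))) (.nd (nat_lit 6) 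
(.lf (nat_lit 213928) (.g (nat_lit 2732) (.e (nat_lit 90158) (nat_lit 11) (.e (nat_lit 24608) (nat_lit 3) (.e (nat_lit 98341) (nat_lit 20) (.e (nat_lit 221212) (nat_lit 22) (.e (nat_lit 196660) (nat_lit 12) (.e (nat_lit 57354) (nat_lit 0) (.e (nat_lit 5195) (nat_lit 294) (.e (nat_lit 57375) (nat_lit 2) .nil)))))))) (.g (nat_lit 4) .nil .nil))) 
(.lf (nat_lit 213992) (.g (nat_lit 3318) (.e (nat_lit 90158) (nat_lit 11) (.e (nat_lit 24626) (nat_lit 9) (.e (nat_lit 336454) (nat_lit 34) (.e (nat_lit 483365) (nat_lit 18) (.e (nat_lit 57854) (nat_lit 252) (.e (nat_lit 57370) (nat_lit 2) .nil)))))) (.g (nat_lit 5) .nil .nil))))) (.nd (nat_lit 5) (.nd (nat_lit 6) 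
(.lf (nat_lit 213912) (.g (nat_lit 3344) (.e (nat_lit 90158) (nat_lit 11) (.e (nat_lit 24608) (nat_lit 3) (.e (nat_lit 98317) (nat_lit 9) (.e (nat_lit 336012) (nat_lit 2) (.e (nat_lit 90158) (nat_lit 11) (.e (nat_lit 24602) (nat_lit 2) .nil)))))) (.g (nat_lit 0) .nil .nil))) 
(.lf (nat_lit 213976) (.g (nat_lit 436) (.e (nat_lit 90158) (nat_lit 11) (.e (nat_lit 24625) (nat_lit 9) (.e (nat_lit 336456) (nat_lit 34) .nil))) .nil))) (.nd (nat_lit 6) 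
(.lf (nat_lit 213944) (.g (nat_lit 3786) (.e (nat_lit 90158) (nat_lit 11) (.e (nat_lit 24608) (nat_lit 3) (.e (nat_lit 98342) (nat_lit 20) (.e (nat_lit 221212) (nat_lit 22) (.e (nat_lit 196660) (nat_lit 12) (.e (nat_lit 57354) (nat_lit 0) (.e (nat_lit 5195) (nat_lit 294) (.e (nat_lit 57372) (nat_lit 2) .nil)))))))) (.g (nat_lit 7) .nil .nil))) 
(.lf (nat_lit 214008) (.g (nat_lit 2418) (.e (nat_lit 90158) (nat_lit 11) (.e (nat_lit 24628) (nat_lit 9) (.e (nat_lit 336019) (nat_lit 3) (.e (nat_lit 98356) (nat_lit 26) (.e (nat_lit 426361) (nat_lit 15) (.e (nat_lit 2206) (nat_lit 144) (.e (nat_lit 720937) (nat_lit 22) .nil))))))) (.g (nat_lit 4) .nil .nil))))))) (.nd (nat_lit 3) (.nd (nat_lit 4) (.nd (nat_lit 5) (.nd (nat_lit 6) 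
(.lf (nat_lit 213892) (.g (nat_lit 2216) (.e (nat_lit 90158) (nat_lit 11) (.e (nat_lit 24608) (nat_lit 3) (.e (nat_lit 98313) (nat_lit 9) (.e (nat_lit 336012) (nat_lit 2) (.e (nat_lit 90145) (nat_lit 9) .nil))))) .nil)) 
(.lf (nat_lit 213956) (.g (nat_lit 1002) (.e (nat_lit 90158) (nat_lit 11) (.e (nat_lit 24609) (nat_lit 3) (.e (nat_lit 98317) (nat_lit 9) (.e (nat_lit 336009) (nat_lit 2) .nil)))) .nil))) (.nd (nat_lit 6) 
(.lf (nat_lit 213924) (.g (nat_lit 1520) (.e (nat_lit 90158) (nat_lit 11) (.e (nat_lit 24608) (nat_lit 3) (.e (nat_lit 98341) (nat_lit 20) (.e (nat_lit 221204) (nat_lit 20) (.e (nat_lit 3253) (nat_lit 197) .nil))))) .nil)) 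
(.lf (nat_lit 213988) (.g (nat_lit 2610) (.e (nat_lit 90158) (nat_lit 11) (.e (nat_lit 24626) (nat_lit 9) (.e (nat_lit 336454) (nat_lit 34) (.e (nat_lit 483364) (nat_lit 18) (.e (nat_lit 57852) (nat_lit 252) (.e (nat_lit 57370) (nat_lit 2) .nil)))))) (.g (nat_lit 5) .nil .nil))))) (.nd (nat_lit 5) (.nd (nat_lit 6) 
(.lf (nat_lit 213908) (.g (nat_lit 2805) (.e (nat_lit 90158) (nat_lit 11) (.e (nat_lit 24608) (nat_lit 3) (.e (nat_lit 98317) (nat_lit 9) (.e (nat_lit 336010) (nat_lit 2) (.e (nat_lit 90158) (nat_lit 11) (.e (nat_lit 24602) (nat_lit 2) .nil)))))) (.g (nat_lit 0) .nil .nil))) 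
(.lf (nat_lit 213972) (.g (nat_lit 3363) (.e (nat_lit 90158) (nat_lit 11) (.e (nat_lit 24625) (nat_lit 9) (.e (nat_lit 336454) (nat_lit 34) (.e (nat_lit 483363) (nat_lit 18) (.e (nat_lit 57853) (nat_lit 252) (.e (nat_lit 57370) (nat_lit 2) .nil)))))) (.g (nat_lit 5) .nil .nil)))) (.nd (nat_lit 6) 
(.lf (nat_lit 213940) (.g (nat_lit 1932) (.e (nat_lit 90158) (nat_lit 11) (.e (nat_lit 24608) (nat_lit 3) (.e (nat_lit 98342) (nat_lit 20) (.e (nat_lit 221211) (nat_lit 22) (.e (nat_lit 196657) (nat_lit 12) .nil))))) .nil)) 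
(.lf (nat_lit 214004) (.g (nat_lit 1004) (.e (nat_lit 90158) (nat_lit 11) (.e (nat_lit 24628) (nat_lit 9) (.e (nat_lit 336019) (nat_lit 3) (.e (nat_lit 98356) (nat_lit 26) .nil)))) .nil))))) (.nd (nat_lit 4) (.nd (nat_lit 5) (.nd (nat_lit 6) 
(.lf (nat_lit 213900) (.g (nat_lit 2048) (.e (nat_lit 90158) (nat_lit 11) (.e (nat_lit 24608) (nat_lit 3) (.e (nat_lit 98316) (nat_lit 9) (.e (nat_lit 336011) (nat_lit 2) (.e (nat_lit 90134) (nat_lit 9) (.e (nat_lit 290) (nat_lit 21) (.e (nat_lit 336002) (nat_lit 2) .nil))))))) (.g (nat_lit 4) .nil .nil))) 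
(.lf (nat_lit 213964) (.g (nat_lit 1827) (.e (nat_lit 90158) (nat_lit 11) (.e (nat_lit 24617) (nat_lit 7) (.e (nat_lit 319505) (nat_lit 10) (.e (nat_lit 584) (nat_lit 43) .nil)))) .nil))) (.nd (nat_lit 6) 
(.lf (nat_lit 213932) (.g (nat_lit 4027) (.e (nat_lit 90158) (nat_lit 11) (.e (nat_lit 24608) (nat_lit 3) (.e (nat_lit 98341) (nat_lit 20) (.e (nat_lit 221214) (nat_lit 23) (.e (nat_lit 204829) (nat_lit 18) (.e (nat_lit 57849) (nat_lit 252) (.e (nat_lit 57375) (nat_lit 2) .nil))))))) (.g (nat_lit 6) .nil .nil))) 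
(.lf (nat_lit 213996) (.g (nat_lit 963) (.e (nat_lit 90158) (nat_lit 11) (.e (nat_lit 24628) (nat_lit 9) (.e (nat_lit 335878) (nat_lit 0) (.e (nat_lit 1793) (nat_lit 119) .nil)))) .nil)))) (.nd (nat_lit 5) (.nd (nat_lit 6) 
(.lf (nat_lit 213916) (.g (nat_lit 1707) (.e (nat_lit 90158) (nat_lit 11) (.e (nat_lit 24608) (nat_lit 3) (.e (nat_lit 98317) (nat_lit 9) (.e (nat_lit 336027) (nat_lit 3) (.e (nat_lit 98316) (nat_lit 9) .nil))))) .nil)) 
(.lf (nat_lit 213980) (.g (nat_lit 1693) (.e (nat_lit 90158) (nat_lit 11) (.e (nat_lit 24625) (nat_lit 9) (.e (nat_lit 336456) (nat_lit 34) (.e (nat_lit 483359) (nat_lit 17) .nil)))) .nil))) (.nd (nat_lit 6) 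
(.lf (nat_lit 213948) (.g (nat_lit 2305) (.e (nat_lit 90158) (nat_lit 11) (.e (nat_lit 24608) (nat_lit 3) (.e (nat_lit 98342) (nat_lit 20) (.e (nat_lit 221215) (nat_lit 23) (.e (nat_lit 204821) (nat_lit 17) .nil))))) .nil)) 
(.lf (nat_lit 214012) (.g (nat_lit 2365) (.e (nat_lit 90158) (nat_lit 11) (.e (nat_lit 24628) (nat_lit 9) (.e (nat_lit 336019) (nat_lit 3) (.e (nat_lit 98356) (nat_lit 26) (.e (nat_lit 433920) (nat_lit 20) (.e (nat_lit 114716) (nat_lit 22) .nil)))))) (.g (nat_lit 4) .nil .nil)))))))) (.nd (nat_lit 2) (.nd (nat_lit 3) (.nd (nat_lit 4) (.nd (nat_lit 5) (.nd (nat_lit 6) 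
(.lf (nat_lit 213890) (.g (nat_lit 2264) (.e (nat_lit 90158) (nat_lit 11) (.e (nat_lit 24608) (nat_lit 3) (.e (nat_lit 98313) (nat_lit 9) (.e (nat_lit 336012) (nat_lit 2) (.e (nat_lit 90134) (nat_lit 9) (.e (nat_lit 290) (nat_lit 21) (.e (nat_lit 336002) (nat_lit 2) .nil))))))) (.g (nat_lit 4) .nil .nil))) 
(.lf (nat_lit 213954) (.g (nat_lit 1021) (.e (nat_lit 90158) (nat_lit 11) (.e (nat_lit 24609) (nat_lit 3) (.e (nat_lit 98317) (nat_lit 9) (.e (nat_lit 336003) (nat_lit 2) .nil)))) .nil))) (.nd (nat_lit 6) 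
(.lf (nat_lit 213922) (.g (nat_lit 1916) (.e (nat_lit 90158) (nat_lit 11) (.e (nat_lit 24608) (nat_lit 3) (.e (nat_lit 98340) (nat_lit 20) (.e (nat_lit 221214) (nat_lit 23) (.e (nat_lit 204829) (nat_lit 18) .nil))))) .nil)) 
(.lf (nat_lit 213986) (.g (nat_lit 2935) (.e (nat_lit 90158) (nat_lit 11) (.e (nat_lit 24625) (nat_lit 9) (.e (nat_lit 336456) (nat_lit 34) (.e (nat_lit 483365) (nat_lit 18) (.e (nat_lit 57852) (nat_lit 252) (.e (nat_lit 57370) (nat_lit 2) .nil)))))) (.g (nat_lit 5) .nil .nil))))) (.nd (nat_lit 5) (.nd (nat_lit 6) 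
(.lf (nat_lit 213906) (.g (nat_lit 2592) (.e (nat_lit 90158) (nat_lit 11) (.e (nat_lit 24608) (nat_lit 3) (.e (nat_lit 98317) (nat_lit 9) (.e (nat_lit 336009) (nat_lit 2) (.e (nat_lit 90160) (nat_lit 11) (.e (nat_lit 24602) (nat_lit 2) .nil)))))) (.g (nat_lit 5) .nil .nil))) 
(.lf (nat_lit 213970) (.g (nat_lit 1044) (.e (nat_lit 90158) (nat_lit 11) (.e (nat_lit 24625) (nat_lit 9) (.e (nat_lit 336452) (nat_lit 34) (.e (nat_lit 491264) (nat_lit 3) .nil)))) .nil))) (.nd (nat_lit 6) 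
(.lf (nat_lit 213938) (.g (nat_lit 2156) (.e (nat_lit 90158) (nat_lit 11) (.e (nat_lit 24608) (nat_lit 3) (.e (nat_lit 98341) (nat_lit 20) (.e (nat_lit 221215) (nat_lit 23) (.e (nat_lit 204831) (nat_lit 18) .nil))))) .nil)) 
(.lf (nat_lit 214002) (.g (nat_lit 1478) (.e (nat_lit 90158) (nat_lit 11) (.e (nat_lit 24628) (nat_lit 9) (.e (nat_lit 336019) (nat_lit 3) (.e (nat_lit 98333) (nat_lit 18) .nil)))) .nil))))) (.nd (nat_lit 4) (.nd (nat_lit 5) (.nd (nat_lit 6) 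
(.lf (nat_lit 213898) (.g (nat_lit 2424) (.e (nat_lit 90158) (nat_lit 11) (.e (nat_lit 24608) (nat_lit 3) (.e (nat_lit 98316) (nat_lit 9) (.e (nat_lit 336004) (nat_lit 2) (.e (nat_lit 90158) (nat_lit 11) (.e (nat_lit 24603) (nat_lit 2) .nil)))))) (.g (nat_lit 5) .nil .nil))) 
(.lf (nat_lit 213962) (.g (nat_lit 1098) (.e (nat_lit 90158) (nat_lit 11) (.e (nat_lit 24609) (nat_lit 3) (.e (nat_lit 98341) (nat_lit 20) (.e (nat_lit 221214) (nat_lit 23) .nil)))) .nil))) (.nd (nat_lit 6) 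
(.lf (nat_lit 213930) (.g (nat_lit 2044) (.e (nat_lit 90158) (nat_lit 11) (.e (nat_lit 24608) (nat_lit 3) (.e (nat_lit 98341) (nat_lit 20) (.e (nat_lit 221214) (nat_lit 23) (.e (nat_lit 204821) (nat_lit 17) .nil))))) .nil)) 
(.lf (nat_lit 213994) (.g (nat_lit 1242) (.e (nat_lit 90158) (nat_lit 11) (.e (nat_lit 24627) (nat_lit 9) (.e (nat_lit 336454) (nat_lit 34) (.e (nat_lit 483365) (nat_lit 18) .nil)))) .nil)))) (.nd (nat_lit 5) (.nd (nat_lit 6) 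
(.lf (nat_lit 213914) (.g (nat_lit 2953) (.e (nat_lit 90158) (nat_lit 11) (.e (nat_lit 24608) (nat_lit 3) (.e (nat_lit 98317) (nat_lit 9) (.e (nat_lit 336012) (nat_lit 2) (.e (nat_lit 90160) (nat_lit 11) (.e (nat_lit 24603) (nat_lit 2) .nil)))))) (.g (nat_lit 0) .nil .nil))) 
(.lf (nat_lit 213978) (.g (nat_lit 1966) (.e (nat_lit 90158) (nat_lit 11) (.e (nat_lit 24625) (nat_lit 9) (.e (nat_lit 336456) (nat_lit 34) (.e (nat_lit 483354) (nat_lit 17) (.e (nat_lit 1040) (nat_lit 81) .nil))))) .nil))) (.nd (nat_lit 6) 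
(.lf (nat_lit 213946) (.g (nat_lit 2432) (.e (nat_lit 90158) (nat_lit 11) (.e (nat_lit 24608) (nat_lit 3) (.e (nat_lit 98342) (nat_lit 20) (.e (nat_lit 221214) (nat_lit 23) (.e (nat_lit 204821) (nat_lit 17) (.e (nat_lit 1040) (nat_lit 81) (.e (nat_lit 5195) (nat_lit 294) (.e (nat_lit 57375) (nat_lit 2) .nil)))))))) (.g (nat_lit 4) .nil .nil))) 
(.lf (nat_lit 214010) (.g (nat_lit 3077) (.e (nat_lit 90158) (nat_lit 11) (.e (nat_lit 24628) (nat_lit 9) (.e (nat_lit 336019) (nat_lit 3) (.e (nat_lit 98356) (nat_lit 26) (.e (nat_lit 426446) (nat_lit 20) (.e (nat_lit 114716) (nat_lit 22) .nil)))))) (.g (nat_lit 0) .nil .nil))))))) (.nd (nat_lit 3) (.nd (nat_lit 4) (.nd (nat_lit 5) (.nd (nat_lit 6) 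
(.lf (nat_lit 213894) (.g (nat_lit 1736) (.e (nat_lit 90158) (nat_lit 11) (.e (nat_lit 24608) (nat_lit 3) (.e (nat_lit 98313) (nat_lit 9) (.e (nat_lit 336027) (nat_lit 3) (.e (nat_lit 98316) (nat_lit 9) .nil))))) .nil)) 
(.lf (nat_lit 213958) (.g (nat_lit 2353) (.e (nat_lit 90158) (nat_lit 11) (.e (nat_lit 24609) (nat_lit 3) (.e (nat_lit 98317) (nat_lit 9) (.e (nat_lit 336012) (nat_lit 2) (.e (nat_lit 90157) (nat_lit 11) (.e (nat_lit 24602) (nat_lit 2) .nil)))))) (.g (nat_lit 5) .nil .nil)))) (.nd (nat_lit 6) 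
(.lf (nat_lit 213926) (.g (nat_lit 2339) (.e (nat_lit 90158) (nat_lit 11) (.e (nat_lit 24608) (nat_lit 3) (.e (nat_lit 98341) (nat_lit 20) (.e (nat_lit 221210) (nat_lit 22) (.e (nat_lit 196658) (nat_lit 12) (.e (nat_lit 57354) (nat_lit 0) (.e (nat_lit 5195) (nat_lit 294) (.e (nat_lit 57372) (nat_lit 2) .nil)))))))) (.g (nat_lit 4) .nil .nil))) 
(.lf (nat_lit 213990) (.g (nat_lit 3176) (.e (nat_lit 90158) (nat_lit 11) (.e (nat_lit 24626) (nat_lit 9) (.e (nat_lit 336454) (nat_lit 34) (.e (nat_lit 483365) (nat_lit 18) (.e (nat_lit 57852) (nat_lit 252) (.e (nat_lit 57370) (nat_lit 2) .nil)))))) (.g (nat_lit 5) .nil .nil))))) (.nd (nat_lit 5) (.nd (nat_lit 6) 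
(.lf (nat_lit 213910) (.g (nat_lit 3255) (.e (nat_lit 90158) (nat_lit 11) (.e (nat_lit 24608) (nat_lit 3) (.e (nat_lit 98317) (nat_lit 9) (.e (nat_lit 336011) (nat_lit 2) (.e (nat_lit 90134) (nat_lit 9) (.e (nat_lit 290) (nat_lit 21) (.e (nat_lit 336002) (nat_lit 2) .nil))))))) (.g (nat_lit 6) .nil .nil))) 
(.lf (nat_lit 213974) (.g (nat_lit 3055) (.e (nat_lit 90158) (nat_lit 11) (.e (nat_lit 24625) (nat_lit 9) (.e (nat_lit 336454) (nat_lit 34) (.e (nat_lit 483366) (nat_lit 18) (.e (nat_lit 57853) (nat_lit 252) (.e (nat_lit 57370) (nat_lit 2) .nil)))))) (.g (nat_lit 6) .nil .nil)))) (.nd (nat_lit 6) 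
(.lf (nat_lit 213942) (.g (nat_lit 2707) (.e (nat_lit 90158) (nat_lit 11) (.e (nat_lit 24608) (nat_lit 3) (.e (nat_lit 98342) (nat_lit 20) (.e (nat_lit 221212) (nat_lit 22) (.e (nat_lit 196659) (nat_lit 12) (.e (nat_lit 57354) (nat_lit 0) (.e (nat_lit 5195) (nat_lit 294) (.e (nat_lit 57372) (nat_lit 2) .nil)))))))) (.g (nat_lit 4) .nil .nil))) 
(.lf (nat_lit 214006) (.g (nat_lit 2491) (.e (nat_lit 90158) (nat_lit 11) (.e (nat_lit 24628) (nat_lit 9) (.e (nat_lit 336019) (nat_lit 3) (.e (nat_lit 98356) (nat_lit 26) (.e (nat_lit 426361) (nat_lit 15) (.e (nat_lit 2195) (nat_lit 144) (.e (nat_lit 720941) (nat_lit 22) .nil))))))) (.g (nat_lit 4) .nil .nil)))))) (.nd (nat_lit 4) (.nd (nat_lit 5) (.nd (nat_lit 6) 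
(.lf (nat_lit 213902) (.g (nat_lit 387) (.e (nat_lit 90158) (nat_lit 11) (.e (nat_lit 24608) (nat_lit 3) (.e (nat_lit 98317) (nat_lit 9) .nil))) .nil)) 
(.lf (nat_lit 213966) (.g (nat_lit 1157) (.e (nat_lit 90158) (nat_lit 11) (.e (nat_lit 24625) (nat_lit 9) (.e (nat_lit 336366) (nat_lit 27) (.e (nat_lit 426497) (nat_lit 27) .nil)))) .nil))) (.nd (nat_lit 6) 
(.lf (nat_lit 213934) (.g (nat_lit 2008) (.e (nat_lit 90158) (nat_lit 11) (.e (nat_lit 24608) (nat_lit 3) (.e (nat_lit 98341) (nat_lit 20) (.e (nat_lit 221214) (nat_lit 23) (.e (nat_lit 204831) (nat_lit 18) .nil))))) .nil)) 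
(.lf (nat_lit 213998) (.g (nat_lit 864) (.e (nat_lit 90158) (nat_lit 11) (.e (nat_lit 24628) (nat_lit 9) (.e (nat_lit 336015) (nat_lit 2) (.e (nat_lit 90169) (nat_lit 13) .nil)))) .nil)))) (.nd (nat_lit 5) (.nd (nat_lit 6) 
(.lf (nat_lit 213918) (.g (nat_lit 1215) (.e (nat_lit 90158) (nat_lit 11) (.e (nat_lit 24608) (nat_lit 3) (.e (nat_lit 98321) (nat_lit 17) .nil))) .nil)) 
(.lf (nat_lit 213982) (.g (nat_lit 3140) (.e (nat_lit 90158) (nat_lit 11) (.e (nat_lit 24625) (nat_lit 9) (.e (nat_lit 336456) (nat_lit 34) (.e (nat_lit 483363) (nat_lit 18) (.e (nat_lit 57854) (nat_lit 252) (.e (nat_lit 57370) (nat_lit 2) .nil)))))) (.g (nat_lit 5) .nil .nil)))) (.nd (nat_lit 6) 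
(.lf (nat_lit 213950) (.g (nat_lit 2314) (.e (nat_lit 90158) (nat_lit 11) (.e (nat_lit 24608) (nat_lit 3) (.e (nat_lit 98342) (nat_lit 20) (.e (nat_lit 221215) (nat_lit 23) (.e (nat_lit 204831) (nat_lit 18) .nil))))) .nil)) 
(.lf (nat_lit 214014) (.g (nat_lit 2477) (.e (nat_lit 90158) (nat_lit 11) (.e (nat_lit 24628) (nat_lit 9) (.e (nat_lit 336019) (nat_lit 3) (.e (nat_lit 98358) (nat_lit 26) (.e (nat_lit 426448) (nat_lit 20) (.e (nat_lit 114715) (nat_lit 22) .nil)))))) (.g (nat_lit 4) .nil .nil))))))))) (.nd (nat_lit 1) (.nd (nat_lit 2) (.nd (nat_lit 3) (.nd (nat_lit 4) (.nd (nat_lit 5) (.nd (nat_lit 6) 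
(.lf (nat_lit 213889) (.g (nat_lit 2210) (.e (nat_lit 90158) (nat_lit 11) (.e (nat_lit 24608) (nat_lit 3) (.e (nat_lit 98313) (nat_lit 9) (.e (nat_lit 336012) (nat_lit 2) (.e (nat_lit 90127) (nat_lit 9) .nil))))) .nil)) 
(.lf (nat_lit 213953) (.g (nat_lit 2308) (.e (nat_lit 90158) (nat_lit 11) (.e (nat_lit 24609) (nat_lit 3) (.e (nat_lit 98317) (nat_lit 9) (.e (nat_lit 336002) (nat_lit 2) (.e (nat_lit 90158) (nat_lit 11) (.e (nat_lit 24602) (nat_lit 2) .nil)))))) (.g (nat_lit 5) .nil .nil)))) (.nd (nat_lit 6) 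
(.lf (nat_lit 213921) (.g (nat_lit 1215) (.e (nat_lit 90158) (nat_lit 11) (.e (nat_lit 24608) (nat_lit 3) (.e (nat_lit 98340) (nat_lit 20) .nil))) .nil)) 
(.lf (nat_lit 213985) (.g (nat_lit 3195) (.e (nat_lit 90158) (nat_lit 11) (.e (nat_lit 24625) (nat_lit 9) (.e (nat_lit 336456) (nat_lit 34) (.e (nat_lit 483365) (nat_lit 18) (.e (nat_lit 57849) (nat_lit 252) (.e (nat_lit 57370) (nat_lit 2) .nil)))))) (.g (nat_lit 5) .nil .nil))))) (.nd (nat_lit 5) (.nd (nat_lit 6) 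
(.lf (nat_lit 213905) (.g (nat_lit 1254) (.e (nat_lit 90158) (nat_lit 11) (.e (nat_lit 24608) (nat_lit 3) (.e (nat_lit 98317) (nat_lit 9) (.e (nat_lit 336009) (nat_lit 2) .nil)))) .nil)) 
(.lf (nat_lit 213969) (.g (nat_lit 750) (.e (nat_lit 90158) (nat_lit 11) (.e (nat_lit 24625) (nat_lit 9) (.e (nat_lit 336452) (nat_lit 34) .nil))) .nil))) (.nd (nat_lit 6) 
(.lf (nat_lit 213937) (.g (nat_lit 2637) (.e (nat_lit 90158) (nat_lit 11) (.e (nat_lit 24608) (nat_lit 3) (.e (nat_lit 98341) (nat_lit 20) (.e (nat_lit 221215) (nat_lit 23) (.e (nat_lit 204821) (nat_lit 17) (.e (nat_lit 1040) (nat_lit 81) (.e (nat_lit 5195) (nat_lit 294) (.e (nat_lit 57375) (nat_lit 2) .nil)))))))) (.g (nat_lit 4) .nil .nil))) 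
(.lf (nat_lit 214001) (.g (nat_lit 382) (.e (nat_lit 90158) (nat_lit 11) (.e (nat_lit 24628) (nat_lit 9) (.e (nat_lit 336019) (nat_lit 3) .nil))) .nil))))) (.nd (nat_lit 4) (.nd (nat_lit 5) (.nd (nat_lit 6) 
(.lf (nat_lit 213897) (.g (nat_lit 1822) (.e (nat_lit 90158) (nat_lit 11) (.e (nat_lit 24608) (nat_lit 3) (.e (nat_lit 98316) (nat_lit 9) (.e (nat_lit 336002) (nat_lit 2) (.e (nat_lit 90158) (nat_lit 11) (.e (nat_lit 24603) (nat_lit 2) .nil)))))) (.g (nat_lit 5) .nil .nil))) 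
(.lf (nat_lit 213961) (.g (nat_lit 289) (.e (nat_lit 90158) (nat_lit 11) (.e (nat_lit 24609) (nat_lit 3) (.e (nat_lit 98339) (nat_lit 19) .nil))) .nil))) (.nd (nat_lit 6) 
(.lf (nat_lit 213929) (.g (nat_lit 1273) (.e (nat_lit 90158) (nat_lit 11) (.e (nat_lit 24608) (nat_lit 3) (.e (nat_lit 98341) (nat_lit 20) (.e (nat_lit 221214) (nat_lit 23) .nil)))) .nil)) 
(.lf (nat_lit 213993) (.g (nat_lit 2640) (.e (nat_lit 90158) (nat_lit 11) (.e (nat_lit 24627) (nat_lit 9) (.e (nat_lit 336454) (nat_lit 34) (.e (nat_lit 483363) (nat_lit 18) (.e (nat_lit 57854) (nat_lit 252) .nil))))) .nil)))) (.nd (nat_lit 5) (.nd (nat_lit 6) 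
(.lf (nat_lit 213913) (.g (nat_lit 3196) (.e (nat_lit 90158) (nat_lit 11) (.e (nat_lit 24608) (nat_lit 3) (.e (nat_lit 98317) (nat_lit 9) (.e (nat_lit 336012) (nat_lit 2) (.e (nat_lit 90160) (nat_lit 11) (.e (nat_lit 24602) (nat_lit 2) .nil)))))) (.g (nat_lit 0) .nil .nil))) 
(.lf (nat_lit 213977) (.g (nat_lit 2400) (.e (nat_lit 90158) (nat_lit 11) (.e (nat_lit 24625) (nat_lit 9) (.e (nat_lit 336456) (nat_lit 34) (.e (nat_lit 483346) (nat_lit 17) (.e (nat_lit 1095) (nat_lit 81) .nil))))) .nil))) (.nd (nat_lit 6) 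
(.lf (nat_lit 213945) (.g (nat_lit 2509) (.e (nat_lit 90158) (nat_lit 11) (.e (nat_lit 24608) (nat_lit 3) (.e (nat_lit 98342) (nat_lit 20) (.e (nat_lit 221214) (nat_lit 23) (.e (nat_lit 204821) (nat_lit 17) (.e (nat_lit 1040) (nat_lit 81) (.e (nat_lit 5195) (nat_lit 294) (.e (nat_lit 57372) (nat_lit 2) .nil)))))))) (.g (nat_lit 4) .nil .nil))) 
(.lf (nat_lit 214009) (.g (nat_lit 1764) (.e (nat_lit 90158) (nat_lit 11) (.e (nat_lit 24628) (nat_lit 9) (.e (nat_lit 336019) (nat_lit 3) (.e (nat_lit 98356) (nat_lit 26) (.e (nat_lit 426440) (nat_lit 19) .nil))))) .nil)))))) (.nd (nat_lit 3) (.nd (nat_lit 4) (.nd (nat_lit 5) (.nd (nat_lit 6) 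
(.lf (nat_lit 213893) (.g (nat_lit 2889) (.e (nat_lit 90158) (nat_lit 11) (.e (nat_lit 24608) (nat_lit 3) (.e (nat_lit 98313) (nat_lit 9) (.e (nat_lit 336012) (nat_lit 2) (.e (nat_lit 90160) (nat_lit 11) (.e (nat_lit 24603) (nat_lit 2) .nil)))))) (.g (nat_lit 5) .nil .nil))) 
(.lf (nat_lit 213957) (.g (nat_lit 786) (.e (nat_lit 90158) (nat_lit 11) (.e (nat_lit 24609) (nat_lit 3) (.e (nat_lit 98317) (nat_lit 9) (.e (nat_lit 336011) (nat_lit 2) .nil)))) .nil))) (.nd (nat_lit 6) 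
(.lf (nat_lit 213925) (.g (nat_lit 2230) (.e (nat_lit 90158) (nat_lit 11) (.e (nat_lit 24608) (nat_lit 3) (.e (nat_lit 98341) (nat_lit 20) (.e (nat_lit 221210) (nat_lit 22) (.e (nat_lit 196658) (nat_lit 12) .nil))))) .nil)) 
(.lf (nat_lit 213989) (.g (nat_lit 2230) (.e (nat_lit 90158) (nat_lit 11) (.e (nat_lit 24626) (nat_lit 9) (.e (nat_lit 336454) (nat_lit 34) (.e (nat_lit 483365) (nat_lit 18) (.e (nat_lit 57851) (nat_lit 252) .nil))))) .nil)))) (.nd (nat_lit 5) (.nd (nat_lit 6) 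
(.lf (nat_lit 213909) (.g (nat_lit 1527) (.e (nat_lit 90158) (nat_lit 11) (.e (nat_lit 24608) (nat_lit 3) (.e (nat_lit 98317) (nat_lit 9) (.e (nat_lit 336011) (nat_lit 2) (.e (nat_lit 90133) (nat_lit 9) .nil))))) .nil)) 
(.lf (nat_lit 213973) (.g (nat_lit 2264) (.e (nat_lit 90158) (nat_lit 11) (.e (nat_lit 24625) (nat_lit 9) (.e (nat_lit 336454) (nat_lit 34) (.e (nat_lit 483365) (nat_lit 18) (.e (nat_lit 57844) (nat_lit 252) .nil))))) .nil))) (.nd (nat_lit 6) 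
(.lf (nat_lit 213941) (.g (nat_lit 2120) (.e (nat_lit 90158) (nat_lit 11) (.e (nat_lit 24608) (nat_lit 3) (.e (nat_lit 98342) (nat_lit 20) (.e (nat_lit 221212) (nat_lit 22) (.e (nat_lit 196626) (nat_lit 9) .nil))))) .nil)) 
(.lf (nat_lit 214005) (.g (nat_lit 1838) (.e (nat_lit 90158) (nat_lit 11) (.e (nat_lit 24628) (nat_lit 9) (.e (nat_lit 336019) (nat_lit 3) (.e (nat_lit 98356) (nat_lit 26) (.e (nat_lit 426361) (nat_lit 15) .nil))))) .nil))))) (.nd (nat_lit 4) (.nd (nat_lit 5) (.nd (nat_lit 6) 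
(.lf (nat_lit 213901) (.g (nat_lit 1866) (.e (nat_lit 90158) (nat_lit 11) (.e (nat_lit 24608) (nat_lit 3) (.e (nat_lit 98316) (nat_lit 9) (.e (nat_lit 336011) (nat_lit 2) (.e (nat_lit 90157) (nat_lit 11) (.e (nat_lit 24602) (nat_lit 2) .nil)))))) (.g (nat_lit 4) .nil .nil))) 
(.lf (nat_lit 213965) (.g (nat_lit 1803) (.e (nat_lit 90158) (nat_lit 11) (.e (nat_lit 24623) (nat_lit 9) (.e (nat_lit 336028) (nat_lit 3) (.e (nat_lit 98357) (nat_lit 26) .nil)))) .nil))) (.nd (nat_lit 6) 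
(.lf (nat_lit 213933) (.g (nat_lit 4259) (.e (nat_lit 90158) (nat_lit 11) (.e (nat_lit 24608) (nat_lit 3) (.e (nat_lit 98341) (nat_lit 20) (.e (nat_lit 221214) (nat_lit 23) (.e (nat_lit 204830) (nat_lit 18) (.e (nat_lit 57852) (nat_lit 252) (.e (nat_lit 57371) (nat_lit 2) .nil))))))) (.g (nat_lit 6) .nil .nil))) 
(.lf (nat_lit 213997) (.g (nat_lit 587) (.e (nat_lit 90158) (nat_lit 11) (.e (nat_lit 24628) (nat_lit 9) (.e (nat_lit 336015) (nat_lit 2) .nil))) .nil)))) (.nd (nat_lit 5) (.nd (nat_lit 6) 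
(.lf (nat_lit 213917) (.g (nat_lit 2289) (.e (nat_lit 90158) (nat_lit 11) (.e (nat_lit 24608) (nat_lit 3) (.e (nat_lit 98317) (nat_lit 9) (.e (nat_lit 336027) (nat_lit 3) (.e (nat_lit 98316) (nat_lit 9) (.e (nat_lit 336002) (nat_lit 2) .nil)))))) (.g (nat_lit 4) .nil .nil))) 
(.lf (nat_lit 213981) (.g (nat_lit 3169) (.e (nat_lit 90158) (nat_lit 11) (.e (nat_lit 24625) (nat_lit 9) (.e (nat_lit 336456) (nat_lit 34) (.e (nat_lit 483363) (nat_lit 18) (.e (nat_lit 57853) (nat_lit 252) (.e (nat_lit 57370) (nat_lit 2) .nil)))))) (.g (nat_lit 5) .nil .nil)))) (.nd (nat_lit 6) 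
(.lf (nat_lit 213949) (.g (nat_lit 2007) (.e (nat_lit 90158) (nat_lit 11) (.e (nat_lit 24608) (nat_lit 3) (.e (nat_lit 98342) (nat_lit 20) (.e (nat_lit 221215) (nat_lit 23) (.e (nat_lit 204830) (nat_lit 18) .nil))))) .nil)) 
(.lf (nat_lit 214013) (.g (nat_lit 2330) (.e (nat_lit 90158) (nat_lit 11) (.e (nat_lit 24628) (nat_lit 9) (.e (nat_lit 336019) (nat_lit 3) (.e (nat_lit 98358) (nat_lit 26) (.e (nat_lit 426354) (nat_lit 15) (.e (nat_lit 2203) (nat_lit 144) (.e (nat_lit 720941) (nat_lit 22) .nil))))))) (.g (nat_lit 4) .nil .nil)))))))) 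
(.nd (nat_lit 2) (.nd (nat_lit 3) (.nd (nat_lit 4) (.nd (nat_lit 5) (.nd (nat_lit 6) 
(.lf (nat_lit 213891) (.g (nat_lit 2211) (.e (nat_lit 90158) (nat_lit 11) (.e (nat_lit 24608) (nat_lit 3) (.e (nat_lit 98313) (nat_lit 9) (.e (nat_lit 336012) (nat_lit 2) (.e (nat_lit 90140) (nat_lit 9) .nil))))) .nil)) 
(.lf (nat_lit 213955) (.g (nat_lit 2516) (.e (nat_lit 90158) (nat_lit 11) (.e (nat_lit 24609) (nat_lit 3) (.e (nat_lit 98317) (nat_lit 9) (.e (nat_lit 336004) (nat_lit 2) (.e (nat_lit 90158) (nat_lit 11) (.e (nat_lit 24602) (nat_lit 2) .nil)))))) (.g (nat_lit 5) .nil .nil)))) (.nd (nat_lit 6) 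
(.lf (nat_lit 213923) (.g (nat_lit 535) (.e (nat_lit 90158) (nat_lit 11) (.e (nat_lit 24608) (nat_lit 3) (.e (nat_lit 98341) (nat_lit 20) .nil))) .nil)) 
(.lf (nat_lit 213987) (.g (nat_lit 3270) (.e (nat_lit 90158) (nat_lit 11) (.e (nat_lit 24625) (nat_lit 9) (.e (nat_lit 336456) (nat_lit 34) (.e (nat_lit 483365) (nat_lit 18) (.e (nat_lit 57853) (nat_lit 252) (.e (nat_lit 57370) (nat_lit 2) .nil)))))) (.g (nat_lit 6) .nil .nil))))) (.nd (nat_lit 5) (.nd (nat_lit 6) 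
(.lf (nat_lit 213907) (.g (nat_lit 2557) (.e (nat_lit 90158) (nat_lit 11) (.e (nat_lit 24608) (nat_lit 3) (.e (nat_lit 98317) (nat_lit 9) (.e (nat_lit 336010) (nat_lit 2) (.e (nat_lit 90134) (nat_lit 9) (.e (nat_lit 290) (nat_lit 21) (.e (nat_lit 336002) (nat_lit 2) .nil))))))) (.g (nat_lit 6) .nil .nil))) 
(.lf (nat_lit 213971) (.g (nat_lit 462) (.e (nat_lit 90158) (nat_lit 11) (.e (nat_lit 24625) (nat_lit 9) (.e (nat_lit 336454) (nat_lit 34) .nil))) .nil))) (.nd (nat_lit 6) 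
(.lf (nat_lit 213939) (.g (nat_lit 599) (.e (nat_lit 90158) (nat_lit 11) (.e (nat_lit 24608) (nat_lit 3) (.e (nat_lit 98342) (nat_lit 20) .nil))) .nil)) 
(.lf (nat_lit 214003) (.g (nat_lit 1401) (.e (nat_lit 90158) (nat_lit 11) (.e (nat_lit 24628) (nat_lit 9) (.e (nat_lit 336019) (nat_lit 3) (.e (nat_lit 98334) (nat_lit 18) .nil)))) .nil))))) (.nd (nat_lit 4) (.nd (nat_lit 5) (.nd (nat_lit 6) 
(.lf (nat_lit 213899) (.g (nat_lit 2915) (.e (nat_lit 90158) (nat_lit 11) (.e (nat_lit 24608) (nat_lit 3) (.e (nat_lit 98316) (nat_lit 9) (.e (nat_lit 336004) (nat_lit 2) (.e (nat_lit 90158) (nat_lit 11) (.e (nat_lit 24605) (nat_lit 2) .nil)))))) (.g (nat_lit 5) .nil .nil))) 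
(.lf (nat_lit 213963) (.g (nat_lit 2252) (.e (nat_lit 90158) (nat_lit 11) (.e (nat_lit 24609) (nat_lit 3) (.e (nat_lit 98342) (nat_lit 20) (.e (nat_lit 221212) (nat_lit 22) (.e (nat_lit 196660) (nat_lit 12) .nil))))) .nil))) (.nd (nat_lit 6) 
(.lf (nat_lit 213931) (.g (nat_lit 2791) (.e (nat_lit 90158) (nat_lit 11) (.e (nat_lit 24608) (nat_lit 3) (.e (nat_lit 98341) (nat_lit 20) (.e (nat_lit 221214) (nat_lit 23) (.e (nat_lit 204821) (nat_lit 17) (.e (nat_lit 1040) (nat_lit 81) (.e (nat_lit 5195) (nat_lit 294) (.e (nat_lit 57375) (nat_lit 2) .nil)))))))) (.g (nat_lit 4) .nil .nil))) 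
(.lf (nat_lit 213995) (.g (nat_lit 754) (.e (nat_lit 90158) (nat_lit 11) (.e (nat_lit 24628) (nat_lit 9) (.e (nat_lit 335873) (nat_lit 0) .nil))) .nil)))) (.nd (nat_lit 5) (.nd (nat_lit 6) 
(.lf (nat_lit 213915) (.g (nat_lit 3407) (.e (nat_lit 90158) (nat_lit 11) (.e (nat_lit 24608) (nat_lit 3) (.e (nat_lit 98317) (nat_lit 9) (.e (nat_lit 336021) (nat_lit 3) (.e (nat_lit 98317) (nat_lit 9) (.e (nat_lit 336002) (nat_lit 2) .nil)))))) (.g (nat_lit 0) .nil .nil))) 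
(.lf (nat_lit 213979) (.g (nat_lit 1760) (.e (nat_lit 90158) (nat_lit 11) (.e (nat_lit 24625) (nat_lit 9) (.e (nat_lit 336456) (nat_lit 34) (.e (nat_lit 483357) (nat_lit 17) .nil)))) .nil))) (.nd (nat_lit 6) 
(.lf (nat_lit 213947) (.g (nat_lit 1989) (.e (nat_lit 90158) (nat_lit 11) (.e (nat_lit 24608) (nat_lit 3) (.e (nat_lit 98342) (nat_lit 20) (.e (nat_lit 221214) (nat_lit 23) (.e (nat_lit 204831) (nat_lit 18) .nil))))) .nil)) 
(.lf (nat_lit 214011) (.g (nat_lit 2420) (.e (nat_lit 90158) (nat_lit 11) (.e (nat_lit 24628) (nat_lit 9) (.e (nat_lit 336019) (nat_lit 3) (.e (nat_lit 98356) (nat_lit 26) (.e (nat_lit 433920) (nat_lit 20) (.e (nat_lit 114714) (nat_lit 22) .nil)))))) (.g (nat_lit 4) .nil .nil))))))) (.nd (nat_lit 3) (.nd (nat_lit 4) (.nd (nat_lit 5) (.nd (nat_lit 6) 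
(.lf (nat_lit 213895) (.g (nat_lit 2284) (.e (nat_lit 90158) (nat_lit 11) (.e (nat_lit 24608) (nat_lit 3) (.e (nat_lit 98313) (nat_lit 9) (.e (nat_lit 336027) (nat_lit 3) (.e (nat_lit 98316) (nat_lit 9) (.e (nat_lit 336002) (nat_lit 2) .nil)))))) (.g (nat_lit 4) .nil .nil))) 
(.lf (nat_lit 213959) (.g (nat_lit 2736) (.e (nat_lit 90158) (nat_lit 11) (.e (nat_lit 24609) (nat_lit 3) (.e (nat_lit 98317) (nat_lit 9) (.e (nat_lit 336012) (nat_lit 2) (.e (nat_lit 90158) (nat_lit 11) (.e (nat_lit 24602) (nat_lit 2) .nil)))))) (.g (nat_lit 6) .nil .nil)))) (.nd (nat_lit 6) 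
(.lf (nat_lit 213927) (.g (nat_lit 1436) (.e (nat_lit 90158) (nat_lit 11) (.e (nat_lit 24608) (nat_lit 3) (.e (nat_lit 98341) (nat_lit 20) (.e (nat_lit 221211) (nat_lit 22) .nil)))) .nil)) 
(.lf (nat_lit 213991) (.g (nat_lit 3244) (.e (nat_lit 90158) (nat_lit 11) (.e (nat_lit 24626) (nat_lit 9) (.e (nat_lit 336454) (nat_lit 34) (.e (nat_lit 483365) (nat_lit 18) (.e (nat_lit 57853) (nat_lit 252) (.e (nat_lit 57370) (nat_lit 2) .nil)))))) (.g (nat_lit 5) .nil .nil))))) (.nd (nat_lit 5) (.nd (nat_lit 6) 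
(.lf (nat_lit 213911) (.g (nat_lit 1909) (.e (nat_lit 90158) (nat_lit 11) (.e (nat_lit 24608) (nat_lit 3) (.e (nat_lit 98317) (nat_lit 9) (.e (nat_lit 336012) (nat_lit 2) (.e (nat_lit 90134) (nat_lit 9) (.e (nat_lit 290) (nat_lit 21) (.e (nat_lit 336002) (nat_lit 2) .nil))))))) (.g (nat_lit 4) .nil .nil))) 
(.lf (nat_lit 213975) (.g (nat_lit 732) (.e (nat_lit 90158) (nat_lit 11) (.e (nat_lit 24625) (nat_lit 9) (.e (nat_lit 336455) (nat_lit 34) .nil))) .nil))) (.nd (nat_lit 6) 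
(.lf (nat_lit 213943) (.g (nat_lit 2595) (.e (nat_lit 90158) (nat_lit 11) (.e (nat_lit 24608) (nat_lit 3) (.e (nat_lit 98342) (nat_lit 20) (.e (nat_lit 221212) (nat_lit 22) (.e (nat_lit 196659) (nat_lit 12) (.e (nat_lit 57354) (nat_lit 0) (.e (nat_lit 5195) (nat_lit 294) (.e (nat_lit 57375) (nat_lit 2) .nil)))))))) (.g (nat_lit 4) .nil .nil))) 
(.lf (nat_lit 214007) (.g (nat_lit 3637) (.e (nat_lit 90158) (nat_lit 11) (.e (nat_lit 24628) (nat_lit 9) (.e (nat_lit 336019) (nat_lit 3) (.e (nat_lit 98356) (nat_lit 26) (.e (nat_lit 426361) (nat_lit 15) (.e (nat_lit 2203) (nat_lit 144) (.e (nat_lit 720941) (nat_lit 22) .nil))))))) (.g (nat_lit 7) .nil .nil)))))) (.nd (nat_lit 4) (.nd (nat_lit 5) (.nd (nat_lit 6) 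
(.lf (nat_lit 213903) (.g (nat_lit 2922) (.e (nat_lit 90158) (nat_lit 11) (.e (nat_lit 24608) (nat_lit 3) (.e (nat_lit 98317) (nat_lit 9) (.e (nat_lit 336002) (nat_lit 2) (.e (nat_lit 90158) (nat_lit 11) (.e (nat_lit 24602) (nat_lit 2) .nil)))))) (.g (nat_lit 6) .nil .nil))) 
(.lf (nat_lit 213967) (.g (nat_lit 534) (.e (nat_lit 90158) (nat_lit 11) (.e (nat_lit 24625) (nat_lit 9) (.e (nat_lit 336367) (nat_lit 27) .nil))) .nil))) (.nd (nat_lit 6) 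
(.lf (nat_lit 213935) (.g (nat_lit 2168) (.e (nat_lit 90158) (nat_lit 11) (.e (nat_lit 24608) (nat_lit 3) (.e (nat_lit 98341) (nat_lit 20) (.e (nat_lit 221215) (nat_lit 23) (.e (nat_lit 204821) (nat_lit 17) .nil))))) .nil)) 
(.lf (nat_lit 213999) (.g (nat_lit 466) (.e (nat_lit 90158) (nat_lit 11) (.e (nat_lit 24628) (nat_lit 9) (.e (nat_lit 336018) (nat_lit 3) .nil))) .nil)))) (.nd (nat_lit 5) (.nd (nat_lit 6) 
(.lf (nat_lit 213919) (.g (nat_lit 1001) (.e (nat_lit 90158) (nat_lit 11) (.e (nat_lit 24608) (nat_lit 3) (.e (nat_lit 98337) (nat_lit 19) .nil))) .nil)) 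
(.lf (nat_lit 213983) (.g (nat_lit 1107) (.e (nat_lit 90158) (nat_lit 11) (.e (nat_lit 24625) (nat_lit 9) (.e (nat_lit 336456) (nat_lit 34) (.e (nat_lit 483365) (nat_lit 18) .nil)))) .nil))) (.nd (nat_lit 6) 
(.lf (nat_lit 213951) (.g (nat_lit 1782) (.e (nat_lit 90158) (nat_lit 11) (.e (nat_lit 24609) (nat_lit 3) (.e (nat_lit 98313) (nat_lit 9) (.e (nat_lit 336004) (nat_lit 2) (.e (nat_lit 90158) (nat_lit 11) (.e (nat_lit 24602) (nat_lit 2) .nil)))))) (.g (nat_lit 4) .nil .nil))) 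
(.lf (nat_lit 214015) (.g (nat_lit 2056) (.e (nat_lit 90158) (nat_lit 11) (.e (nat_lit 24628) (nat_lit 9) (.e (nat_lit 336019) (nat_lit 3) (.e (nat_lit 98358) (nat_lit 26) (.e (nat_lit 433920) (nat_lit 20) .nil))))) .nil)))))))))

noncomputable def tv2819 : DT := (.nd (nat_lit 0) (.nd (nat_lit 1) (.nd (nat_lit 2) (.nd (nat_lit 3) (.nd (nat_lit 4) (.nd (nat_lit 5) (.nd (nat_lit 6) 
(.lf (nat_lit 214016) (.g (nat_lit 1834) (.e (nat_lit 90158) (nat_lit 11) (.e (nat_lit 24628) (nat_lit 9) (.e (nat_lit 336019) (nat_lit 3) (.e (nat_lit 98363) (nat_lit 26) .nil)))) .nil)) 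
(.lf (nat_lit 214080) (.g (nat_lit 2926) (.e (nat_lit 90158) (nat_lit 11) (.e (nat_lit 24630) (nat_lit 9) (.e (nat_lit 336369) (nat_lit 27) (.e (nat_lit 426499) (nat_lit 27) (.e (nat_lit 335995) (nat_lit 1) .nil))))) .nil))) (.nd (nat_lit 6) 
(.lf (nat_lit 214048) (.g (nat_lit 381) (.e (nat_lit 90158) (nat_lit 11) (.e (nat_lit 24628) (nat_lit 9) (.e (nat_lit 336454) (nat_lit 34) .nil))) .nil)) 
(.lf (nat_lit 214112) (.g (nat_lit 2694) (.e (nat_lit 90158) (nat_lit 11) (.e (nat_lit 24640) (nat_lit 10) (.e (nat_lit 344117) (nat_lit 21) (.e (nat_lit 516145) (nat_lit 9) (.e (nat_lit 426361) (nat_lit 15) .nil))))) .nil)))) (.nd (nat_lit 5) (.nd (nat_lit 6) 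
(.lf (nat_lit 214032) (.g (nat_lit 2630) (.e (nat_lit 90158) (nat_lit 11) (.e (nat_lit 24628) (nat_lit 9) (.e (nat_lit 336324) (nat_lit 18) (.e (nat_lit 204838) (nat_lit 20) (.e (nat_lit 114711) (nat_lit 21) .nil))))) .nil)) 
(.lf (nat_lit 214096) (.g (nat_lit 1639) (.e (nat_lit 90158) (nat_lit 11) (.e (nat_lit 24631) (nat_lit 9) (.e (nat_lit 336001) (nat_lit 2) (.e (nat_lit 90170) (nat_lit 13) (.e (nat_lit 179968) (nat_lit 20) .nil))))) .nil))) (.nd (nat_lit 6) 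
(.lf (nat_lit 214064) (.g (nat_lit 1868) (.e (nat_lit 90158) (nat_lit 11) (.e (nat_lit 24630) (nat_lit 9) (.e (nat_lit 336019) (nat_lit 3) (.e (nat_lit 98386) (nat_lit 32) (.e (nat_lit 475214) (nat_lit 42) .nil))))) .nil)) 
(.lf (nat_lit 214128) (.g (nat_lit 1699) (.e (nat_lit 90158) (nat_lit 11) (.e (nat_lit 24643) (nat_lit 11) (.e (nat_lit 368676) (nat_lit 21) (.e (nat_lit 516146) (nat_lit 9) (.e (nat_lit 433920) (nat_lit 20) (.e (nat_lit 114716) (nat_lit 22) .nil)))))) (.g (nat_lit 4) .nil .nil)))))) (.nd (nat_lit 4) (.nd (nat_lit 5) (.nd (nat_lit 6) 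
(.lf (nat_lit 214024) (.g (nat_lit 2754) (.e (nat_lit 90158) (nat_lit 11) (.e (nat_lit 24628) (nat_lit 9) (.e (nat_lit 336019) (nat_lit 3) (.e (nat_lit 98386) (nat_lit 32) (.e (nat_lit 475212) (nat_lit 42) (.e (nat_lit 720937) (nat_lit 22) .nil)))))) (.g (nat_lit 5) .nil .nil))) 
(.lf (nat_lit 214088) (.g (nat_lit 1435) (.e (nat_lit 90158) (nat_lit 11) (.e (nat_lit 24630) (nat_lit 9) (.e (nat_lit 336374) (nat_lit 27) (.e (nat_lit 426482) (nat_lit 27) (.e (nat_lit 335997) (nat_lit 1) .nil))))) .nil))) (.nd (nat_lit 6) 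
(.lf (nat_lit 214056) (.g (nat_lit 1229) (.e (nat_lit 90158) (nat_lit 11) (.e (nat_lit 24630) (nat_lit 9) (.e (nat_lit 336019) (nat_lit 3) (.e (nat_lit 98356) (nat_lit 26) .nil)))) .nil)) 
(.lf (nat_lit 214120) (.g (nat_lit 813) (.e (nat_lit 90158) (nat_lit 11) (.e (nat_lit 24641) (nat_lit 10) (.e (nat_lit 344119) (nat_lit 21) (.e (nat_lit 516180) (nat_lit 15) .nil)))) .nil)))) (.nd (nat_lit 5) (.nd (nat_lit 6) 
(.lf (nat_lit 214040) (.g (nat_lit 678) (.e (nat_lit 90158) (nat_lit 11) (.e (nat_lit 24628) (nat_lit 9) (.e (nat_lit 336368) (nat_lit 27) .nil))) .nil)) 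
(.lf (nat_lit 214104) (.g (nat_lit 2260) (.e (nat_lit 90158) (nat_lit 11) (.e (nat_lit 24639) (nat_lit 10) (.e (nat_lit 344117) (nat_lit 21) (.e (nat_lit 516144) (nat_lit 9) (.e (nat_lit 426446) (nat_lit 20) .nil))))) .nil))) (.nd (nat_lit 6) 
(.lf (nat_lit 214072) (.g (nat_lit 1592) (.e (nat_lit 90158) (nat_lit 11) (.e (nat_lit 24630) (nat_lit 9) (.e (nat_lit 336369) (nat_lit 27) (.e (nat_lit 426498) (nat_lit 27) .nil)))) .nil)) 
(.lf (nat_lit 214136) (.g (nat_lit 1835) (.e (nat_lit 90158) (nat_lit 11) (.e (nat_lit 24643) (nat_lit 11) (.e (nat_lit 368676) (nat_lit 21) (.e (nat_lit 516179) (nat_lit 15) (.e (nat_lit 475201) (nat_lit 40) (.e (nat_lit 704620) (nat_lit 9) (.e (nat_lit 1238) (nat_lit 91) .nil))))))) (.g (nat_lit 4) .nil .nil))))))) (.nd (nat_lit 3) (.nd (nat_lit 4) (.nd (nat_lit 5) (.nd (nat_lit 6) 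
(.lf (nat_lit 214020) (.g (nat_lit 3410) (.e (nat_lit 90158) (nat_lit 11) (.e (nat_lit 24628) (nat_lit 9) (.e (nat_lit 336019) (nat_lit 3) (.e (nat_lit 98384) (nat_lit 32) (.e (nat_lit 475199) (nat_lit 40) (.e (nat_lit 704703) (nat_lit 9) (.e (nat_lit 1234) (nat_lit 91) .nil))))))) (.g (nat_lit 5) .nil .nil))) 
(.lf (nat_lit 214084) (.g (nat_lit 2145) (.e (nat_lit 90158) (nat_lit 11) (.e (nat_lit 24630) (nat_lit 9) (.e (nat_lit 336369) (nat_lit 27) (.e (nat_lit 426501) (nat_lit 27) (.e (nat_lit 335993) (nat_lit 1) .nil))))) .nil))) (.nd (nat_lit 6) 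
(.lf (nat_lit 214052) (.g (nat_lit 1575) (.e (nat_lit 90158) (nat_lit 11) (.e (nat_lit 24628) (nat_lit 9) (.e (nat_lit 336456) (nat_lit 34) (.e (nat_lit 483359) (nat_lit 17) .nil)))) .nil)) 
(.lf (nat_lit 214116) (.g (nat_lit 2622) (.e (nat_lit 90158) (nat_lit 11) (.e (nat_lit 24640) (nat_lit 10) (.e (nat_lit 344117) (nat_lit 21) (.e (nat_lit 516179) (nat_lit 15) (.e (nat_lit 475212) (nat_lit 42) .nil))))) .nil)))) (.nd (nat_lit 5) (.nd (nat_lit 6) 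
(.lf (nat_lit 214036) (.g (nat_lit 1538) (.e (nat_lit 90158) (nat_lit 11) (.e (nat_lit 24628) (nat_lit 9) (.e (nat_lit 336326) (nat_lit 18) (.e (nat_lit 212736) (nat_lit 1) .nil)))) .nil)) 
(.lf (nat_lit 214100) (.g (nat_lit 1312) (.e (nat_lit 90158) (nat_lit 11) (.e (nat_lit 24631) (nat_lit 9) (.e (nat_lit 336020) (nat_lit 3) (.e (nat_lit 98384) (nat_lit 32) (.e (nat_lit 475214) (nat_lit 42) .nil))))) .nil))) (.nd (nat_lit 6) 
(.lf (nat_lit 214068) (.g (nat_lit 2261) (.e (nat_lit 90158) (nat_lit 11) (.e (nat_lit 24630) (nat_lit 9) (.e (nat_lit 336369) (nat_lit 27) (.e (nat_lit 426497) (nat_lit 27) (.e (nat_lit 335985) (nat_lit 1) .nil))))) .nil)) 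
(.lf (nat_lit 214132) (.g (nat_lit 1154) (.e (nat_lit 90158) (nat_lit 11) (.e (nat_lit 24643) (nat_lit 11) (.e (nat_lit 368676) (nat_lit 21) (.e (nat_lit 516150) (nat_lit 9) (.e (nat_lit 433920) (nat_lit 20) .nil))))) .nil))))) (.nd (nat_lit 4) (.nd (nat_lit 5) (.nd (nat_lit 6) 
(.lf (nat_lit 214028) (.g (nat_lit 3070) (.e (nat_lit 90158) (nat_lit 11) (.e (nat_lit 24628) (nat_lit 9) (.e (nat_lit 336019) (nat_lit 3) (.e (nat_lit 98386) (nat_lit 32) (.e (nat_lit 475214) (nat_lit 42) (.e (nat_lit 720936) (nat_lit 22) .nil)))))) (.g (nat_lit 5) .nil .nil))) 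
(.lf (nat_lit 214092) (.g (nat_lit 542) (.e (nat_lit 90158) (nat_lit 11) (.e (nat_lit 24630) (nat_lit 9) (.e (nat_lit 336452) (nat_lit 34) .nil))) .nil))) (.nd (nat_lit 6) 
(.lf (nat_lit 214060) (.g (nat_lit 1210) (.e (nat_lit 90158) (nat_lit 11) (.e (nat_lit 24630) (nat_lit 9) (.e (nat_lit 336019) (nat_lit 3) (.e (nat_lit 98384) (nat_lit 32) .nil)))) .nil)) 
(.lf (nat_lit 214124) (.g (nat_lit 1860) (.e (nat_lit 90158) (nat_lit 11) (.e (nat_lit 24643) (nat_lit 11) (.e (nat_lit 368676) (nat_lit 21) (.e (nat_lit 516146) (nat_lit 9) (.e (nat_lit 426361) (nat_lit 15) (.e (nat_lit 2195) (nat_lit 144) (.e (nat_lit 720941) (nat_lit 22) .nil))))))) (.g (nat_lit 4) .nil .nil))))) (.nd (nat_lit 5) (.nd (nat_lit 6) 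
(.lf (nat_lit 214044) (.g (nat_lit 2983) (.e (nat_lit 90158) (nat_lit 11) (.e (nat_lit 24628) (nat_lit 9) (.e (nat_lit 336369) (nat_lit 27) (.e (nat_lit 426499) (nat_lit 27) (.e (nat_lit 335986) (nat_lit 1) .nil))))) .nil)) 
(.lf (nat_lit 214108) (.g (nat_lit 2535) (.e (nat_lit 90158) (nat_lit 11) (.e (nat_lit 24639) (nat_lit 10) (.e (nat_lit 344117) (nat_lit 21) (.e (nat_lit 516151) (nat_lit 9) (.e (nat_lit 433920) (nat_lit 20) (.e (nat_lit 114716) (nat_lit 22) .nil)))))) (.g (nat_lit 4) .nil .nil)))) (.nd (nat_lit 6) 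
(.lf (nat_lit 214076) (.g (nat_lit 2926) (.e (nat_lit 90158) (nat_lit 11) (.e (nat_lit 24630) (nat_lit 9) (.e (nat_lit 336369) (nat_lit 27) (.e (nat_lit 426499) (nat_lit 27) (.e (nat_lit 335985) (nat_lit 1) .nil))))) .nil)) 
(.lf (nat_lit 214140) (.g (nat_lit 1328) (.e (nat_lit 90158) (nat_lit 11) (.e (nat_lit 24644) (nat_lit 11) (.e (nat_lit 368670) (nat_lit 19) (.e (nat_lit 499919) (nat_lit 9) (.e (nat_lit 179968) (nat_lit 20) (.e (nat_lit 114716) (nat_lit 22) .nil)))))) (.g (nat_lit 4) .nil .nil)))))))) (.nd (nat_lit 2) (.nd (nat_lit 3) (.nd (nat_lit 4) (.nd (nat_lit 5) (.nd (nat_lit 6) 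
(.lf (nat_lit 214018) (.g (nat_lit 2285) (.e (nat_lit 90158) (nat_lit 11) (.e (nat_lit 24628) (nat_lit 9) (.e (nat_lit 336019) (nat_lit 3) (.e (nat_lit 98363) (nat_lit 26) (.e (nat_lit 426447) (nat_lit 20) .nil))))) .nil)) 
(.lf (nat_lit 214082) (.g (nat_lit 1593) (.e (nat_lit 90158) (nat_lit 11) (.e (nat_lit 24630) (nat_lit 9) (.e (nat_lit 336369) (nat_lit 27) (.e (nat_lit 426501) (nat_lit 27) .nil)))) .nil))) (.nd (nat_lit 6) 
(.lf (nat_lit 214050) (.g (nat_lit 389) (.e (nat_lit 90158) (nat_lit 11) (.e (nat_lit 24628) (nat_lit 9) (.e (nat_lit 336456) (nat_lit 34) .nil))) .nil)) 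
(.lf (nat_lit 214114) (.g (nat_lit 1558) (.e (nat_lit 90158) (nat_lit 11) (.e (nat_lit 24640) (nat_lit 10) (.e (nat_lit 344117) (nat_lit 21) (.e (nat_lit 516151) (nat_lit 9) .nil)))) .nil)))) (.nd (nat_lit 5) (.nd (nat_lit 6) 
(.lf (nat_lit 214034) (.g (nat_lit 2596) (.e (nat_lit 90158) (nat_lit 11) (.e (nat_lit 24628) (nat_lit 9) (.e (nat_lit 336324) (nat_lit 18) (.e (nat_lit 204838) (nat_lit 20) (.e (nat_lit 114712) (nat_lit 21) .nil))))) .nil)) 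
(.lf (nat_lit 214098) (.g (nat_lit 1377) (.e (nat_lit 90158) (nat_lit 11) (.e (nat_lit 24631) (nat_lit 9) (.e (nat_lit 336020) (nat_lit 3) (.e (nat_lit 98356) (nat_lit 26) (.e (nat_lit 426446) (nat_lit 20) .nil))))) .nil))) (.nd (nat_lit 6) 
(.lf (nat_lit 214066) (.g (nat_lit 1300) (.e (nat_lit 90158) (nat_lit 11) (.e (nat_lit 24630) (nat_lit 9) (.e (nat_lit 336324) (nat_lit 18) (.e (nat_lit 204838) (nat_lit 20) .nil)))) .nil)) 
(.lf (nat_lit 214130) (.g (nat_lit 2056) (.e (nat_lit 90158) (nat_lit 11) (.e (nat_lit 24643) (nat_lit 11) (.e (nat_lit 368676) (nat_lit 21) (.e (nat_lit 516150) (nat_lit 9) (.e (nat_lit 426360) (nat_lit 15) (.e (nat_lit 2203) (nat_lit 144) (.e (nat_lit 720941) (nat_lit 22) .nil))))))) (.g (nat_lit 4) .nil .nil)))))) (.nd (nat_lit 4) (.nd (nat_lit 5) (.nd (nat_lit 6) 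
(.lf (nat_lit 214026) (.g (nat_lit 2875) (.e (nat_lit 90158) (nat_lit 11) (.e (nat_lit 24628) (nat_lit 9) (.e (nat_lit 336019) (nat_lit 3) (.e (nat_lit 98386) (nat_lit 32) (.e (nat_lit 475212) (nat_lit 42) (.e (nat_lit 720941) (nat_lit 22) .nil)))))) (.g (nat_lit 5) .nil .nil))) 
(.lf (nat_lit 214090) (.g (nat_lit 568) (.e (nat_lit 90158) (nat_lit 11) (.e (nat_lit 24630) (nat_lit 9) (.e (nat_lit 336414) (nat_lit 27) .nil))) .nil))) (.nd (nat_lit 6) 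
(.lf (nat_lit 214058) (.g (nat_lit 1565) (.e (nat_lit 90158) (nat_lit 11) (.e (nat_lit 24630) (nat_lit 9) (.e (nat_lit 336019) (nat_lit 3) (.e (nat_lit 98357) (nat_lit 26) .nil)))) .nil)) 
(.lf (nat_lit 214122) (.g (nat_lit 1359) (.e (nat_lit 90158) (nat_lit 11) (.e (nat_lit 24643) (nat_lit 11) (.e (nat_lit 368670) (nat_lit 19) (.e (nat_lit 499919) (nat_lit 9) (.e (nat_lit 179968) (nat_lit 20) (.e (nat_lit 114716) (nat_lit 22) .nil)))))) (.g (nat_lit 4) .nil .nil))))) (.nd (nat_lit 5) (.nd (nat_lit 6) 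
(.lf (nat_lit 214042) (.g (nat_lit 2458) (.e (nat_lit 90158) (nat_lit 11) (.e (nat_lit 24628) (nat_lit 9) (.e (nat_lit 336369) (nat_lit 27) (.e (nat_lit 426497) (nat_lit 27) (.e (nat_lit 335986) (nat_lit 1) .nil))))) .nil)) 
(.lf (nat_lit 214106) (.g (nat_lit 2991) (.e (nat_lit 90158) (nat_lit 11) (.e (nat_lit 24639) (nat_lit 10) (.e (nat_lit 344117) (nat_lit 21) (.e (nat_lit 516145) (nat_lit 9) (.e (nat_lit 426449) (nat_lit 20) .nil))))) .nil))) (.nd (nat_lit 6) 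
(.lf (nat_lit 214074) (.g (nat_lit 2231) (.e (nat_lit 90158) (nat_lit 11) (.e (nat_lit 24630) (nat_lit 9) (.e (nat_lit 336369) (nat_lit 27) (.e (nat_lit 426498) (nat_lit 27) (.e (nat_lit 335995) (nat_lit 1) .nil))))) .nil)) 
(.lf (nat_lit 214138) (.g (nat_lit 1948) (.e (nat_lit 90158) (nat_lit 11) (.e (nat_lit 24643) (nat_lit 11) (.e (nat_lit 368676) (nat_lit 21) (.e (nat_lit 516179) (nat_lit 15) (.e (nat_lit 483072) (nat_lit 42) (.e (nat_lit 720941) (nat_lit 22) .nil)))))) (.g (nat_lit 4) .nil .nil))))))) (.nd (nat_lit 3) (.nd (nat_lit 4) (.nd (nat_lit 5) (.nd (nat_lit 6) 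
(.lf (nat_lit 214022) (.g (nat_lit 2044) (.e (nat_lit 90158) (nat_lit 11) (.e (nat_lit 24628) (nat_lit 9) (.e (nat_lit 336019) (nat_lit 3) (.e (nat_lit 98384) (nat_lit 32) (.e (nat_lit 475213) (nat_lit 42) .nil))))) .nil)) 
(.lf (nat_lit 214086) (.g (nat_lit 2094) (.e (nat_lit 90158) (nat_lit 11) (.e (nat_lit 24630) (nat_lit 9) (.e (nat_lit 336369) (nat_lit 27) (.e (nat_lit 426526) (nat_lit 27) (.e (nat_lit 335998) (nat_lit 1) .nil))))) .nil))) (.nd (nat_lit 6) 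
(.lf (nat_lit 214054) (.g (nat_lit 1654) (.e (nat_lit 90158) (nat_lit 11) (.e (nat_lit 24629) (nat_lit 9) (.e (nat_lit 336456) (nat_lit 34) (.e (nat_lit 483365) (nat_lit 18) (.e (nat_lit 57847) (nat_lit 252) .nil))))) .nil)) 
(.lf (nat_lit 214118) (.g (nat_lit 830) (.e (nat_lit 90158) (nat_lit 11) (.e (nat_lit 24640) (nat_lit 10) (.e (nat_lit 344118) (nat_lit 21) .nil))) .nil)))) (.nd (nat_lit 5) (.nd (nat_lit 6) 
(.lf (nat_lit 214038) (.g (nat_lit 514) (.e (nat_lit 90158) (nat_lit 11) (.e (nat_lit 24628) (nat_lit 9) (.e (nat_lit 336367) (nat_lit 27) .nil))) .nil)) 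
(.lf (nat_lit 214102) (.g (nat_lit 1288) (.e (nat_lit 90158) (nat_lit 11) (.e (nat_lit 24636) (nat_lit 9) (.e (nat_lit 336017) (nat_lit 3) (.e (nat_lit 98384) (nat_lit 32) (.e (nat_lit 475201) (nat_lit 40) .nil))))) .nil))) (.nd (nat_lit 6) 
(.lf (nat_lit 214070) (.g (nat_lit 2261) (.e (nat_lit 90158) (nat_lit 11) (.e (nat_lit 24630) (nat_lit 9) (.e (nat_lit 336369) (nat_lit 27) (.e (nat_lit 426497) (nat_lit 27) (.e (nat_lit 335995) (nat_lit 1) .nil))))) .nil)) 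
(.lf (nat_lit 214134) (.g (nat_lit 1428) (.e (nat_lit 90158) (nat_lit 11) (.e (nat_lit 24643) (nat_lit 11) (.e (nat_lit 368676) (nat_lit 21) (.e (nat_lit 516179) (nat_lit 15) (.e (nat_lit 475195) (nat_lit 40) .nil))))) .nil))))) (.nd (nat_lit 4) (.nd (nat_lit 5) (.nd (nat_lit 6) 
(.lf (nat_lit 214030) (.g (nat_lit 2720) (.e (nat_lit 90158) (nat_lit 11) (.e (nat_lit 24628) (nat_lit 9) (.e (nat_lit 336324) (nat_lit 18) (.e (nat_lit 204838) (nat_lit 20) (.e (nat_lit 114710) (nat_lit 21) .nil))))) .nil)) 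
(.lf (nat_lit 214094) (.g (nat_lit 2822) (.e (nat_lit 90158) (nat_lit 11) (.e (nat_lit 24630) (nat_lit 9) (.e (nat_lit 336454) (nat_lit 34) (.e (nat_lit 483366) (nat_lit 18) (.e (nat_lit 57849) (nat_lit 252) .nil))))) .nil))) (.nd (nat_lit 6) 
(.lf (nat_lit 214062) (.g (nat_lit 1862) (.e (nat_lit 90158) (nat_lit 11) (.e (nat_lit 24630) (nat_lit 9) (.e (nat_lit 336019) (nat_lit 3) (.e (nat_lit 98385) (nat_lit 32) (.e (nat_lit 475214) (nat_lit 42) .nil))))) .nil)) 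
(.lf (nat_lit 214126) (.g (nat_lit 1853) (.e (nat_lit 90158) (nat_lit 11) (.e (nat_lit 24643) (nat_lit 11) (.e (nat_lit 368676) (nat_lit 21) (.e (nat_lit 516146) (nat_lit 9) (.e (nat_lit 426361) (nat_lit 15) (.e (nat_lit 2206) (nat_lit 144) (.e (nat_lit 720937) (nat_lit 22) .nil))))))) (.g (nat_lit 4) .nil .nil))))) (.nd (nat_lit 5) (.nd (nat_lit 6) 
(.lf (nat_lit 214046) (.g (nat_lit 2340) (.e (nat_lit 90158) (nat_lit 11) (.e (nat_lit 24628) (nat_lit 9) (.e (nat_lit 336369) (nat_lit 27) (.e (nat_lit 426501) (nat_lit 27) (.e (nat_lit 335996) (nat_lit 1) .nil))))) .nil)) 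
(.lf (nat_lit 214110) (.g (nat_lit 1809) (.e (nat_lit 90158) (nat_lit 11) (.e (nat_lit 24640) (nat_lit 10) (.e (nat_lit 344117) (nat_lit 21) (.e (nat_lit 516144) (nat_lit 9) .nil)))) .nil))) (.nd (nat_lit 6) 
(.lf (nat_lit 214078) (.g (nat_lit 2926) (.e (nat_lit 90158) (nat_lit 11) (.e (nat_lit 24630) (nat_lit 9) (.e (nat_lit 336369) (nat_lit 27) (.e (nat_lit 426499) (nat_lit 27) (.e (nat_lit 335987) (nat_lit 1) .nil))))) .nil)) 
(.lf (nat_lit 214142) (.g (nat_lit 1318) (.e (nat_lit 90158) (nat_lit 11) (.e (nat_lit 24644) (nat_lit 11) (.e (nat_lit 368676) (nat_lit 21) (.e (nat_lit 516143) (nat_lit 9) .nil)))) .nil)))))))) (.nd (nat_lit 1) (.nd (nat_lit 2) (.nd (nat_lit 3) (.nd (nat_lit 4) (.nd (nat_lit 5) (.nd (nat_lit 6) 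
(.lf (nat_lit 214017) (.g (nat_lit 2284) (.e (nat_lit 90158) (nat_lit 11) (.e (nat_lit 24628) (nat_lit 9) (.e (nat_lit 336019) (nat_lit 3) (.e (nat_lit 98363) (nat_lit 26) (.e (nat_lit 426445) (nat_lit 20) .nil))))) .nil)) 
(.lf (nat_lit 214081) (.g (nat_lit 2926) (.e (nat_lit 90158) (nat_lit 11) (.e (nat_lit 24630) (nat_lit 9) (.e (nat_lit 336369) (nat_lit 27) (.e (nat_lit 426499) (nat_lit 27) (.e (nat_lit 335996) (nat_lit 1) .nil))))) .nil))) (.nd (nat_lit 6) 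
(.lf (nat_lit 214049) (.g (nat_lit 2065) (.e (nat_lit 90158) (nat_lit 11) (.e (nat_lit 24628) (nat_lit 9) (.e (nat_lit 336454) (nat_lit 34) (.e (nat_lit 483364) (nat_lit 18) (.e (nat_lit 57853) (nat_lit 252) .nil))))) .nil)) 
(.lf (nat_lit 214113) (.g (nat_lit 2315) (.e (nat_lit 90158) (nat_lit 11) (.e (nat_lit 24640) (nat_lit 10) (.e (nat_lit 344117) (nat_lit 21) (.e (nat_lit 516145) (nat_lit 9) (.e (nat_lit 433920) (nat_lit 20) .nil))))) .nil)))) (.nd (nat_lit 5) (.nd (nat_lit 6) 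
(.lf (nat_lit 214033) (.g (nat_lit 4277) (.e (nat_lit 90158) (nat_lit 11) (.e (nat_lit 24628) (nat_lit 9) (.e (nat_lit 336324) (nat_lit 18) (.e (nat_lit 204838) (nat_lit 20) (.e (nat_lit 114711) (nat_lit 21) (.e (nat_lit 57688) (nat_lit 156) (.e (nat_lit 171776) (nat_lit 63) .nil))))))) (.g (nat_lit 6) .nil .nil))) 
(.lf (nat_lit 214097) (.g (nat_lit 326) (.e (nat_lit 90158) (nat_lit 11) (.e (nat_lit 24631) (nat_lit 9) (.e (nat_lit 336020) (nat_lit 3) .nil))) .nil))) (.nd (nat_lit 6) 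
(.lf (nat_lit 214065) (.g (nat_lit 542) (.e (nat_lit 90158) (nat_lit 11) (.e (nat_lit 24630) (nat_lit 9) (.e (nat_lit 343808) (nat_lit 3) .nil))) .nil)) 
(.lf (nat_lit 214129) (.g (nat_lit 943) (.e (nat_lit 90158) (nat_lit 11) (.e (nat_lit 24643) (nat_lit 11) (.e (nat_lit 368676) (nat_lit 21) (.e (nat_lit 516149) (nat_lit 9) (.e (nat_lit 433920) (nat_lit 20) .nil))))) .nil))))) (.nd (nat_lit 4) (.nd (nat_lit 5) (.nd (nat_lit 6) 
(.lf (nat_lit 214025) (.g (nat_lit 2782) (.e (nat_lit 90158) (nat_lit 11) (.e (nat_lit 24628) (nat_lit 9) (.e (nat_lit 336019) (nat_lit 3) (.e (nat_lit 98386) (nat_lit 32) (.e (nat_lit 475212) (nat_lit 42) (.e (nat_lit 720938) (nat_lit 22) .nil)))))) (.g (nat_lit 5) .nil .nil))) 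
(.lf (nat_lit 214089) (.g (nat_lit 1798) (.e (nat_lit 90158) (nat_lit 11) (.e (nat_lit 24630) (nat_lit 9) (.e (nat_lit 336395) (nat_lit 27) (.e (nat_lit 426499) (nat_lit 27) (.e (nat_lit 335986) (nat_lit 1) .nil))))) .nil))) (.nd (nat_lit 6) 
(.lf (nat_lit 214057) (.g (nat_lit 2046) (.e (nat_lit 90158) (nat_lit 11) (.e (nat_lit 24630) (nat_lit 9) (.e (nat_lit 336019) (nat_lit 3) (.e (nat_lit 98356) (nat_lit 26) (.e (nat_lit 426448) (nat_lit 20) .nil))))) .nil)) 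
(.lf (nat_lit 214121) (.g (nat_lit 1271) (.e (nat_lit 90158) (nat_lit 11) (.e (nat_lit 24641) (nat_lit 10) (.e (nat_lit 344119) (nat_lit 21) (.e (nat_lit 516180) (nat_lit 15) (.e (nat_lit 475214) (nat_lit 42) .nil))))) .nil)))) (.nd (nat_lit 5) (.nd (nat_lit 6) 
(.lf (nat_lit 214041) (.g (nat_lit 1781) (.e (nat_lit 90158) (nat_lit 11) (.e (nat_lit 24628) (nat_lit 9) (.e (nat_lit 336369) (nat_lit 27) (.e (nat_lit 426497) (nat_lit 27) .nil)))) .nil)) 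
(.lf (nat_lit 214105) (.g (nat_lit 3485) (.e (nat_lit 90158) (nat_lit 11) (.e (nat_lit 24639) (nat_lit 10) (.e (nat_lit 344117) (nat_lit 21) (.e (nat_lit 516145) (nat_lit 9) (.e (nat_lit 426446) (nat_lit 20) (.e (nat_lit 114714) (nat_lit 22) .nil)))))) (.g (nat_lit 4) .nil .nil)))) (.nd (nat_lit 6) 
(.lf (nat_lit 214073) (.g (nat_lit 2231) (.e (nat_lit 90158) (nat_lit 11) (.e (nat_lit 24630) (nat_lit 9) (.e (nat_lit 336369) (nat_lit 27) (.e (nat_lit 426498) (nat_lit 27) (.e (nat_lit 335985) (nat_lit 1) .nil))))) .nil)) 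
(.lf (nat_lit 214137) (.g (nat_lit 2486) (.e (nat_lit 90158) (nat_lit 11) (.e (nat_lit 24643) (nat_lit 11) (.e (nat_lit 368676) (nat_lit 21) (.e (nat_lit 516179) (nat_lit 15) (.e (nat_lit 475212) (nat_lit 42) (.e (nat_lit 720936) (nat_lit 22) .nil)))))) (.g (nat_lit 5) .nil .nil))))))) (.nd (nat_lit 3) (.nd (nat_lit 4) (.nd (nat_lit 5) (.nd (nat_lit 6) 
(.lf (nat_lit 214021) (.g (nat_lit 3024) (.e (nat_lit 90158) (nat_lit 11) (.e (nat_lit 24628) (nat_lit 9) (.e (nat_lit 336019) (nat_lit 3) (.e (nat_lit 98384) (nat_lit 32) (.e (nat_lit 475212) (nat_lit 42) (.e (nat_lit 720936) (nat_lit 22) .nil)))))) (.g (nat_lit 5) .nil .nil))) 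
(.lf (nat_lit 214085) (.g (nat_lit 1592) (.e (nat_lit 90158) (nat_lit 11) (.e (nat_lit 24630) (nat_lit 9) (.e (nat_lit 336369) (nat_lit 27) (.e (nat_lit 426513) (nat_lit 27) .nil)))) .nil))) (.nd (nat_lit 6) 
(.lf (nat_lit 214053) (.g (nat_lit 1926) (.e (nat_lit 90158) (nat_lit 11) (.e (nat_lit 24629) (nat_lit 9) (.e (nat_lit 336019) (nat_lit 3) (.e (nat_lit 98386) (nat_lit 32) (.e (nat_lit 475213) (nat_lit 42) (.e (nat_lit 720938) (nat_lit 22) .nil)))))) (.g (nat_lit 4) .nil .nil))) 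
(.lf (nat_lit 214117) (.g (nat_lit 1624) (.e (nat_lit 90158) (nat_lit 11) (.e (nat_lit 24640) (nat_lit 10) (.e (nat_lit 344117) (nat_lit 21) (.e (nat_lit 516180) (nat_lit 15) .nil)))) .nil)))) (.nd (nat_lit 5) (.nd (nat_lit 6) 
(.lf (nat_lit 214037) (.g (nat_lit 665) (.e (nat_lit 90158) (nat_lit 11) (.e (nat_lit 24628) (nat_lit 9) (.e (nat_lit 336366) (nat_lit 27) .nil))) .nil)) 
(.lf (nat_lit 214101) (.g (nat_lit 1375) (.e (nat_lit 90158) (nat_lit 11) (.e (nat_lit 24632) (nat_lit 9) (.e (nat_lit 336028) (nat_lit 3) (.e (nat_lit 98357) (nat_lit 26) .nil)))) .nil))) (.nd (nat_lit 6) 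
(.lf (nat_lit 214069) (.g (nat_lit 2261) (.e (nat_lit 90158) (nat_lit 11) (.e (nat_lit 24630) (nat_lit 9) (.e (nat_lit 336369) (nat_lit 27) (.e (nat_lit 426497) (nat_lit 27) (.e (nat_lit 335993) (nat_lit 1) .nil))))) .nil)) 
(.lf (nat_lit 214133) (.g (nat_lit 1108) (.e (nat_lit 90158) (nat_lit 11) (.e (nat_lit 24643) (nat_lit 11) (.e (nat_lit 368676) (nat_lit 21) (.e (nat_lit 516156) (nat_lit 9) .nil)))) .nil))))) (.nd (nat_lit 4) (.nd (nat_lit 5) (.nd (nat_lit 6) 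
(.lf (nat_lit 214029) (.g (nat_lit 3088) (.e (nat_lit 90158) (nat_lit 11) (.e (nat_lit 24628) (nat_lit 9) (.e (nat_lit 336019) (nat_lit 3) (.e (nat_lit 98386) (nat_lit 32) (.e (nat_lit 475214) (nat_lit 42) (.e (nat_lit 720941) (nat_lit 22) .nil)))))) (.g (nat_lit 5) .nil .nil))) 
(.lf (nat_lit 214093) (.g (nat_lit 1337) (.e (nat_lit 90158) (nat_lit 11) (.e (nat_lit 24630) (nat_lit 9) (.e (nat_lit 336452) (nat_lit 34) (.e (nat_lit 483363) (nat_lit 18) (.e (nat_lit 57849) (nat_lit 252) .nil))))) .nil))) (.nd (nat_lit 6) 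
(.lf (nat_lit 214061) (.g (nat_lit 1747) (.e (nat_lit 90158) (nat_lit 11) (.e (nat_lit 24630) (nat_lit 9) (.e (nat_lit 336019) (nat_lit 3) (.e (nat_lit 98385) (nat_lit 32) (.e (nat_lit 475212) (nat_lit 42) .nil))))) .nil)) 
(.lf (nat_lit 214125) (.g (nat_lit 3030) (.e (nat_lit 90158) (nat_lit 11) (.e (nat_lit 24643) (nat_lit 11) (.e (nat_lit 368676) (nat_lit 21) (.e (nat_lit 516146) (nat_lit 9) (.e (nat_lit 426361) (nat_lit 15) (.e (nat_lit 2203) (nat_lit 144) (.e (nat_lit 720941) (nat_lit 22) .nil))))))) (.g (nat_lit 7) .nil .nil))))) (.nd (nat_lit 5) (.nd (nat_lit 6) 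
(.lf (nat_lit 214045) (.g (nat_lit 1781) (.e (nat_lit 90158) (nat_lit 11) (.e (nat_lit 24628) (nat_lit 9) (.e (nat_lit 336369) (nat_lit 27) (.e (nat_lit 426501) (nat_lit 27) .nil)))) .nil)) 
(.lf (nat_lit 214109) (.g (nat_lit 1864) (.e (nat_lit 90158) (nat_lit 11) (.e (nat_lit 24640) (nat_lit 10) (.e (nat_lit 344117) (nat_lit 21) (.e (nat_lit 516143) (nat_lit 9) .nil)))) .nil))) (.nd (nat_lit 6) 
(.lf (nat_lit 214077) (.g (nat_lit 2607) (.e (nat_lit 90158) (nat_lit 11) (.e (nat_lit 24630) (nat_lit 9) (.e (nat_lit 336369) (nat_lit 27) (.e (nat_lit 426499) (nat_lit 27) (.e (nat_lit 335986) (nat_lit 1) .nil))))) .nil)) 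
(.lf (nat_lit 214141) (.g (nat_lit 155) (.e (nat_lit 90158) (nat_lit 11) (.e (nat_lit 24644) (nat_lit 11) (.e (nat_lit 368676) (nat_lit 21) .nil))) .nil))))))) (.nd (nat_lit 2) (.nd (nat_lit 3) (.nd (nat_lit 4) (.nd (nat_lit 5) (.nd (nat_lit 6) 
(.lf (nat_lit 214019) (.g (nat_lit 1898) (.e (nat_lit 90158) (nat_lit 11) (.e (nat_lit 24628) (nat_lit 9) (.e (nat_lit 336019) (nat_lit 3) (.e (nat_lit 98383) (nat_lit 32) .nil)))) .nil)) 
(.lf (nat_lit 214083) (.g (nat_lit 2668) (.e (nat_lit 90158) (nat_lit 11) (.e (nat_lit 24630) (nat_lit 9) (.e (nat_lit 336369) (nat_lit 27) (.e (nat_lit 426501) (nat_lit 27) (.e (nat_lit 335985) (nat_lit 1) (.e (nat_lit 57849) (nat_lit 252) (.e (nat_lit 57375) (nat_lit 2) .nil))))))) (.g (nat_lit 4) .nil .nil)))) (.nd (nat_lit 6) 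
(.lf (nat_lit 214051) (.g (nat_lit 1516) (.e (nat_lit 90158) (nat_lit 11) (.e (nat_lit 24628) (nat_lit 9) (.e (nat_lit 336456) (nat_lit 34) (.e (nat_lit 483357) (nat_lit 17) .nil)))) .nil)) 
(.lf (nat_lit 214115) (.g (nat_lit 3040) (.e (nat_lit 90158) (nat_lit 11) (.e (nat_lit 24640) (nat_lit 10) (.e (nat_lit 344117) (nat_lit 21) (.e (nat_lit 516151) (nat_lit 9) (.e (nat_lit 433920) (nat_lit 20) (.e (nat_lit 114716) (nat_lit 22) .nil)))))) (.g (nat_lit 4) .nil .nil))))) (.nd (nat_lit 5) (.nd (nat_lit 6) 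
(.lf (nat_lit 214035) (.g (nat_lit 4582) (.e (nat_lit 90158) (nat_lit 11) (.e (nat_lit 24628) (nat_lit 9) (.e (nat_lit 336324) (nat_lit 18) (.e (nat_lit 204838) (nat_lit 20) (.e (nat_lit 114712) (nat_lit 21) (.e (nat_lit 57692) (nat_lit 156) (.e (nat_lit 171776) (nat_lit 63) .nil))))))) (.g (nat_lit 6) .nil .nil))) 
(.lf (nat_lit 214099) (.g (nat_lit 1374) (.e (nat_lit 90158) (nat_lit 11) (.e (nat_lit 24631) (nat_lit 9) (.e (nat_lit 336020) (nat_lit 3) (.e (nat_lit 98359) (nat_lit 26) (.e (nat_lit 433920) (nat_lit 20) .nil))))) .nil))) (.nd (nat_lit 6) 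
(.lf (nat_lit 214067) (.g (nat_lit 1592) (.e (nat_lit 90158) (nat_lit 11) (.e (nat_lit 24630) (nat_lit 9) (.e (nat_lit 336369) (nat_lit 27) (.e (nat_lit 426497) (nat_lit 27) .nil)))) .nil)) 
(.lf (nat_lit 214131) (.g (nat_lit 1780) (.e (nat_lit 90158) (nat_lit 11) (.e (nat_lit 24643) (nat_lit 11) (.e (nat_lit 368676) (nat_lit 21) (.e (nat_lit 516150) (nat_lit 9) (.e (nat_lit 426360) (nat_lit 15) (.e (nat_lit 2210) (nat_lit 145) (.e (nat_lit 729112) (nat_lit 22) .nil))))))) (.g (nat_lit 4) .nil .nil)))))) (.nd (nat_lit 4) (.nd (nat_lit 5) (.nd (nat_lit 6) 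
(.lf (nat_lit 214027) (.g (nat_lit 1600) (.e (nat_lit 90158) (nat_lit 11) (.e (nat_lit 24628) (nat_lit 9) (.e (nat_lit 336019) (nat_lit 3) (.e (nat_lit 98386) (nat_lit 32) (.e (nat_lit 475213) (nat_lit 42) .nil))))) .nil)) 
(.lf (nat_lit 214091) (.g (nat_lit 1219) (.e (nat_lit 90158) (nat_lit 11) (.e (nat_lit 24630) (nat_lit 9) (.e (nat_lit 336414) (nat_lit 27) (.e (nat_lit 426503) (nat_lit 27) .nil)))) .nil))) (.nd (nat_lit 6) 
(.lf (nat_lit 214059) (.g (nat_lit 1789) (.e (nat_lit 90158) (nat_lit 11) (.e (nat_lit 24630) (nat_lit 9) (.e (nat_lit 336019) (nat_lit 3) (.e (nat_lit 98357) (nat_lit 26) (.e (nat_lit 426448) (nat_lit 20) .nil))))) .nil)) 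
(.lf (nat_lit 214123) (.g (nat_lit 1700) (.e (nat_lit 90158) (nat_lit 11) (.e (nat_lit 24643) (nat_lit 11) (.e (nat_lit 368676) (nat_lit 21) (.e (nat_lit 516146) (nat_lit 9) (.e (nat_lit 426360) (nat_lit 15) (.e (nat_lit 2210) (nat_lit 145) (.e (nat_lit 729112) (nat_lit 22) .nil))))))) (.g (nat_lit 4) .nil .nil))))) (.nd (nat_lit 5) (.nd (nat_lit 6) 
(.lf (nat_lit 214043) (.g (nat_lit 1792) (.e (nat_lit 90158) (nat_lit 11) (.e (nat_lit 24628) (nat_lit 9) (.e (nat_lit 336369) (nat_lit 27) (.e (nat_lit 426499) (nat_lit 27) .nil)))) .nil)) 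
(.lf (nat_lit 214107) (.g (nat_lit 2656) (.e (nat_lit 90158) (nat_lit 11) (.e (nat_lit 24639) (nat_lit 10) (.e (nat_lit 344117) (nat_lit 21) (.e (nat_lit 516145) (nat_lit 9) (.e (nat_lit 433920) (nat_lit 20) .nil))))) .nil))) (.nd (nat_lit 6) 
(.lf (nat_lit 214075) (.g (nat_lit 2231) (.e (nat_lit 90158) (nat_lit 11) (.e (nat_lit 24630) (nat_lit 9) (.e (nat_lit 336369) (nat_lit 27) (.e (nat_lit 426498) (nat_lit 27) (.e (nat_lit 335996) (nat_lit 1) .nil))))) .nil)) 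
(.lf (nat_lit 214139) (.g (nat_lit 1920) (.e (nat_lit 90158) (nat_lit 11) (.e (nat_lit 24643) (nat_lit 11) (.e (nat_lit 368676) (nat_lit 21) (.e (nat_lit 516182) (nat_lit 15) (.e (nat_lit 475214) (nat_lit 42) (.e (nat_lit 720936) (nat_lit 22) .nil)))))) (.g (nat_lit 5) .nil .nil))))))) (.nd (nat_lit 3) (.nd (nat_lit 4) (.nd (nat_lit 5) (.nd (nat_lit 6) 
(.lf (nat_lit 214023) (.g (nat_lit 2719) (.e (nat_lit 90158) (nat_lit 11) (.e (nat_lit 24628) (nat_lit 9) (.e (nat_lit 336019) (nat_lit 3) (.e (nat_lit 98384) (nat_lit 32) (.e (nat_lit 483072) (nat_lit 42) (.e (nat_lit 720941) (nat_lit 22) .nil)))))) (.g (nat_lit 4) .nil .nil))) 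
(.lf (nat_lit 214087) (.g (nat_lit 542) (.e (nat_lit 90158) (nat_lit 11) (.e (nat_lit 24630) (nat_lit 9) (.e (nat_lit 336374) (nat_lit 27) .nil))) .nil))) (.nd (nat_lit 6) 
(.lf (nat_lit 214055) (.g (nat_lit 1521) (.e (nat_lit 90158) (nat_lit 11) (.e (nat_lit 24630) (nat_lit 9) (.e (nat_lit 336019) (nat_lit 3) (.e (nat_lit 98355) (nat_lit 26) .nil)))) .nil)) 
(.lf (nat_lit 214119) (.g (nat_lit 825) (.e (nat_lit 90158) (nat_lit 11) (.e (nat_lit 24641) (nat_lit 10) (.e (nat_lit 344119) (nat_lit 21) (.e (nat_lit 516147) (nat_lit 9) .nil)))) .nil)))) (.nd (nat_lit 5) (.nd (nat_lit 6) 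
(.lf (nat_lit 214039) (.g (nat_lit 3354) (.e (nat_lit 90158) (nat_lit 11) (.e (nat_lit 24628) (nat_lit 9) (.e (nat_lit 336367) (nat_lit 27) (.e (nat_lit 426482) (nat_lit 27) (.e (nat_lit 335997) (nat_lit 1) (.e (nat_lit 57849) (nat_lit 252) (.e (nat_lit 57372) (nat_lit 2) .nil))))))) (.g (nat_lit 5) .nil .nil))) 
(.lf (nat_lit 214103) (.g (nat_lit 1256) (.e (nat_lit 90158) (nat_lit 11) (.e (nat_lit 24637) (nat_lit 9) (.e (nat_lit 336021) (nat_lit 3) (.e (nat_lit 98385) (nat_lit 32) .nil)))) .nil))) (.nd (nat_lit 6) 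
(.lf (nat_lit 214071) (.g (nat_lit 2261) (.e (nat_lit 90158) (nat_lit 11) (.e (nat_lit 24630) (nat_lit 9) (.e (nat_lit 336369) (nat_lit 27) (.e (nat_lit 426497) (nat_lit 27) (.e (nat_lit 335996) (nat_lit 1) .nil))))) .nil)) 
(.lf (nat_lit 214135) (.g (nat_lit 2553) (.e (nat_lit 90158) (nat_lit 11) (.e (nat_lit 24643) (nat_lit 11) (.e (nat_lit 368676) (nat_lit 21) (.e (nat_lit 516179) (nat_lit 15) (.e (nat_lit 475199) (nat_lit 40) (.e (nat_lit 704707) (nat_lit 9) (.e (nat_lit 1234) (nat_lit 91) .nil))))))) (.g (nat_lit 5) .nil .nil)))))) (.nd (nat_lit 4) (.nd (nat_lit 5) (.nd (nat_lit 6) 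
(.lf (nat_lit 214031) (.g (nat_lit 4845) (.e (nat_lit 90158) (nat_lit 11) (.e (nat_lit 24628) (nat_lit 9) (.e (nat_lit 336324) (nat_lit 18) (.e (nat_lit 204838) (nat_lit 20) (.e (nat_lit 114710) (nat_lit 21) (.e (nat_lit 57692) (nat_lit 156) (.e (nat_lit 171776) (nat_lit 63) .nil))))))) (.g (nat_lit 6) .nil .nil))) 
(.lf (nat_lit 214095) (.g (nat_lit 1371) (.e (nat_lit 90158) (nat_lit 11) (.e (nat_lit 24630) (nat_lit 9) (.e (nat_lit 336456) (nat_lit 34) (.e (nat_lit 483354) (nat_lit 17) .nil)))) .nil))) (.nd (nat_lit 6) 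
(.lf (nat_lit 214063) (.g (nat_lit 1406) (.e (nat_lit 90158) (nat_lit 11) (.e (nat_lit 24630) (nat_lit 9) (.e (nat_lit 336019) (nat_lit 3) (.e (nat_lit 98386) (nat_lit 32) .nil)))) .nil)) 
(.lf (nat_lit 214127) (.g (nat_lit 1379) (.e (nat_lit 90158) (nat_lit 11) (.e (nat_lit 24643) (nat_lit 11) (.e (nat_lit 368676) (nat_lit 21) (.e (nat_lit 516146) (nat_lit 9) (.e (nat_lit 426440) (nat_lit 19) .nil))))) .nil)))) (.nd (nat_lit 5) (.nd (nat_lit 6) 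
(.lf (nat_lit 214047) (.g (nat_lit 1567) (.e (nat_lit 90158) (nat_lit 11) (.e (nat_lit 24628) (nat_lit 9) (.e (nat_lit 336452) (nat_lit 34) (.e (nat_lit 483363) (nat_lit 18) (.e (nat_lit 57847) (nat_lit 252) .nil))))) .nil)) 
(.lf (nat_lit 214111) (.g (nat_lit 1521) (.e (nat_lit 90158) (nat_lit 11) (.e (nat_lit 24640) (nat_lit 10) (.e (nat_lit 344117) (nat_lit 21) (.e (nat_lit 516145) (nat_lit 9) .nil)))) .nil))) (.nd (nat_lit 6) 
(.lf (nat_lit 214079) (.g (nat_lit 2926) (.e (nat_lit 90158) (nat_lit 11) (.e (nat_lit 24630) (nat_lit 9) (.e (nat_lit 336369) (nat_lit 27) (.e (nat_lit 426499) (nat_lit 27) (.e (nat_lit 335993) (nat_lit 1) .nil))))) .nil)) 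
(.lf (nat_lit 214143) (.g (nat_lit 641) (.e (nat_lit 90158) (nat_lit 11) (.e (nat_lit 24644) (nat_lit 11) (.e (nat_lit 368676) (nat_lit 21) (.e (nat_lit 516146) (nat_lit 9) .nil)))) .nil)))))))))

noncomputable def tv2820 : DT := (.nd (nat_lit 0) (.nd (nat_lit 1) (.nd (nat_lit 2) (.nd (nat_lit 3) (.nd (nat_lit 4) (.nd (nat_lit 5) (.nd (nat_lit 6) 
(.lf (nat_lit 214144) (.g (nat_lit 1870) (.e (nat_lit 90158) (nat_lit 11) (.e (nat_lit 24644) (nat_lit 11) (.e (nat_lit 368676) (nat_lit 21) (.e (nat_lit 516146) (nat_lit 9) (.e (nat_lit 426360) (nat_lit 15) (.e (nat_lit 2210) (nat_lit 145) (.e (nat_lit 729112) (nat_lit 22) .nil))))))) (.g (nat_lit 4) .nil .nil))) 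
(.lf (nat_lit 214208) (.g (nat_lit 1863) (.e (nat_lit 90158) (nat_lit 11) (.e (nat_lit 24655) (nat_lit 13) (.e (nat_lit 393229) (nat_lit 9) (.e (nat_lit 335911) (nat_lit 0) .nil)))) .nil))) (.nd (nat_lit 6) 
(.lf (nat_lit 214176) (.g (nat_lit 2867) (.e (nat_lit 90158) (nat_lit 11) (.e (nat_lit 24651) (nat_lit 12) (.e (nat_lit 385068) (nat_lit 26) (.e (nat_lit 532503) (nat_lit 1) (.e (nat_lit 65280) (nat_lit 211) (.e (nat_lit 57389) (nat_lit 5) (.e (nat_lit 114716) (nat_lit 22) .nil))))))) (.g (nat_lit 4) .nil .nil))) 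
(.lf (nat_lit 214240) (.g (nat_lit 2356) (.e (nat_lit 90158) (nat_lit 11) (.e (nat_lit 24658) (nat_lit 13) (.e (nat_lit 393225) (nat_lit 9) (.e (nat_lit 335995) (nat_lit 1) (.e (nat_lit 57846) (nat_lit 252) .nil))))) .nil)))) (.nd (nat_lit 5) (.nd (nat_lit 6) 
(.lf (nat_lit 214160) (.g (nat_lit 1160) (.e (nat_lit 90158) (nat_lit 11) (.e (nat_lit 24644) (nat_lit 11) (.e (nat_lit 368676) (nat_lit 21) (.e (nat_lit 516181) (nat_lit 15) (.e (nat_lit 475213) (nat_lit 42) .nil))))) .nil)) 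
(.lf (nat_lit 214224) (.g (nat_lit 2835) (.e (nat_lit 90158) (nat_lit 11) (.e (nat_lit 24655) (nat_lit 13) (.e (nat_lit 393251) (nat_lit 18) (.e (nat_lit 164183) (nat_lit 154) (.e (nat_lit 65280) (nat_lit 62) .nil))))) .nil))) (.nd (nat_lit 6) 
(.lf (nat_lit 214192) (.g (nat_lit 2189) (.e (nat_lit 90158) (nat_lit 11) (.e (nat_lit 24654) (nat_lit 13) (.e (nat_lit 393229) (nat_lit 9) (.e (nat_lit 335996) (nat_lit 1) (.e (nat_lit 57852) (nat_lit 252) .nil))))) .nil)) 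
(.lf (nat_lit 214256) (.g (nat_lit 1034) (.e (nat_lit 90158) (nat_lit 11) (.e (nat_lit 24658) (nat_lit 13) (.e (nat_lit 393258) (nat_lit 20) .nil))) .nil))))) (.nd (nat_lit 4) (.nd (nat_lit 5) (.nd (nat_lit 6) 
(.lf (nat_lit 214152) (.g (nat_lit 2193) (.e (nat_lit 90158) (nat_lit 11) (.e (nat_lit 24644) (nat_lit 11) (.e (nat_lit 368676) (nat_lit 21) (.e (nat_lit 516150) (nat_lit 9) (.e (nat_lit 426360) (nat_lit 15) (.e (nat_lit 2203) (nat_lit 144) (.e (nat_lit 720941) (nat_lit 22) .nil))))))) (.g (nat_lit 4) .nil .nil))) 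
(.lf (nat_lit 214216) (.g (nat_lit 3452) (.e (nat_lit 90158) (nat_lit 11) (.e (nat_lit 24655) (nat_lit 13) (.e (nat_lit 393229) (nat_lit 9) (.e (nat_lit 335988) (nat_lit 1) (.e (nat_lit 57852) (nat_lit 252) (.e (nat_lit 57370) (nat_lit 2) .nil)))))) (.g (nat_lit 6) .nil .nil)))) (.nd (nat_lit 6) 
(.lf (nat_lit 214184) (.g (nat_lit 1378) (.e (nat_lit 90158) (nat_lit 11) (.e (nat_lit 24653) (nat_lit 12) (.e (nat_lit 385065) (nat_lit 26) (.e (nat_lit 532515) (nat_lit 3) (.e (nat_lit 114710) (nat_lit 21) .nil))))) .nil)) 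
(.lf (nat_lit 214248) (.g (nat_lit 3161) (.e (nat_lit 90158) (nat_lit 11) (.e (nat_lit 24658) (nat_lit 13) (.e (nat_lit 393229) (nat_lit 9) (.e (nat_lit 335988) (nat_lit 1) (.e (nat_lit 57852) (nat_lit 252) (.e (nat_lit 57370) (nat_lit 2) .nil)))))) (.g (nat_lit 6) .nil .nil))))) (.nd (nat_lit 5) (.nd (nat_lit 6) 
(.lf (nat_lit 214168) (.g (nat_lit 639) (.e (nat_lit 90158) (nat_lit 11) (.e (nat_lit 24648) (nat_lit 12) (.e (nat_lit 385068) (nat_lit 26) .nil))) .nil)) 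
(.lf (nat_lit 214232) (.g (nat_lit 2631) (.e (nat_lit 90158) (nat_lit 11) (.e (nat_lit 24657) (nat_lit 13) (.e (nat_lit 393229) (nat_lit 9) (.e (nat_lit 335993) (nat_lit 1) (.e (nat_lit 57849) (nat_lit 252) .nil))))) .nil))) (.nd (nat_lit 6) 
(.lf (nat_lit 214200) (.g (nat_lit 1017) (.e (nat_lit 90158) (nat_lit 11) (.e (nat_lit 24655) (nat_lit 13) (.e (nat_lit 393226) (nat_lit 9) (.e (nat_lit 343808) (nat_lit 1) .nil)))) .nil)) 
(.lf (nat_lit 214264) (.g (nat_lit 1148) (.e (nat_lit 90158) (nat_lit 11) (.e (nat_lit 24660) (nat_lit 13) (.e (nat_lit 393229) (nat_lit 9) (.e (nat_lit 335933) (nat_lit 0) (.e (nat_lit 1040) (nat_lit 81) .nil))))) .nil)))))) (.nd (nat_lit 3) (.nd (nat_lit 4) (.nd (nat_lit 5) (.nd (nat_lit 6) 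
(.lf (nat_lit 214148) (.g (nat_lit 1960) (.e (nat_lit 90158) (nat_lit 11) (.e (nat_lit 24644) (nat_lit 11) (.e (nat_lit 368676) (nat_lit 21) (.e (nat_lit 516146) (nat_lit 9) (.e (nat_lit 426361) (nat_lit 15) (.e (nat_lit 2206) (nat_lit 144) (.e (nat_lit 720937) (nat_lit 22) .nil))))))) (.g (nat_lit 4) .nil .nil))) 
(.lf (nat_lit 214212) (.g (nat_lit 2148) (.e (nat_lit 90158) (nat_lit 11) (.e (nat_lit 24655) (nat_lit 13) (.e (nat_lit 393229) (nat_lit 9) (.e (nat_lit 335933) (nat_lit 0) .nil)))) .nil))) (.nd (nat_lit 6) 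
(.lf (nat_lit 214180) (.g (nat_lit 3772) (.e (nat_lit 90158) (nat_lit 11) (.e (nat_lit 24651) (nat_lit 12) (.e (nat_lit 385074) (nat_lit 31) (.e (nat_lit 573482) (nat_lit 13) (.e (nat_lit 65645) (nat_lit 23) .nil))))) .nil)) 
(.lf (nat_lit 214244) (.g (nat_lit 684) (.e (nat_lit 90158) (nat_lit 11) (.e (nat_lit 24658) (nat_lit 13) (.e (nat_lit 393228) (nat_lit 9) .nil))) .nil)))) (.nd (nat_lit 5) (.nd (nat_lit 6) 
(.lf (nat_lit 214164) (.g (nat_lit 3845) (.e (nat_lit 90158) (nat_lit 11) (.e (nat_lit 24648) (nat_lit 12) (.e (nat_lit 385066) (nat_lit 26) (.e (nat_lit 532513) (nat_lit 3) (.e (nat_lit 114710) (nat_lit 21) (.e (nat_lit 57692) (nat_lit 156) (.e (nat_lit 171776) (nat_lit 63) .nil))))))) (.g (nat_lit 6) .nil .nil))) 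
(.lf (nat_lit 214228) (.g (nat_lit 432) (.e (nat_lit 90158) (nat_lit 11) (.e (nat_lit 24657) (nat_lit 13) (.e (nat_lit 393229) (nat_lit 9) .nil))) .nil))) (.nd (nat_lit 6) 
(.lf (nat_lit 214196) (.g (nat_lit 4645) (.e (nat_lit 90158) (nat_lit 11) (.e (nat_lit 24655) (nat_lit 13) (.e (nat_lit 393225) (nat_lit 9) (.e (nat_lit 335995) (nat_lit 1) (.e (nat_lit 57849) (nat_lit 252) (.e (nat_lit 57375) (nat_lit 2) .nil)))))) (.g (nat_lit 6) .nil .nil))) 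
(.lf (nat_lit 214260) (.g (nat_lit 1915) (.e (nat_lit 90158) (nat_lit 11) (.e (nat_lit 24659) (nat_lit 13) (.e (nat_lit 393229) (nat_lit 9) (.e (nat_lit 335988) (nat_lit 1) (.e (nat_lit 57854) (nat_lit 252) .nil))))) .nil))))) (.nd (nat_lit 4) (.nd (nat_lit 5) (.nd (nat_lit 6) 
(.lf (nat_lit 214156) (.g (nat_lit 1553) (.e (nat_lit 90158) (nat_lit 11) (.e (nat_lit 24644) (nat_lit 11) (.e (nat_lit 368676) (nat_lit 21) (.e (nat_lit 516179) (nat_lit 15) (.e (nat_lit 475195) (nat_lit 40) .nil))))) .nil)) 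
(.lf (nat_lit 214220) (.g (nat_lit 2241) (.e (nat_lit 90158) (nat_lit 11) (.e (nat_lit 24655) (nat_lit 13) (.e (nat_lit 393229) (nat_lit 9) (.e (nat_lit 335995) (nat_lit 1) (.e (nat_lit 57844) (nat_lit 252) .nil))))) .nil))) (.nd (nat_lit 6) 
(.lf (nat_lit 214188) (.g (nat_lit 1426) (.e (nat_lit 90158) (nat_lit 11) (.e (nat_lit 24654) (nat_lit 13) (.e (nat_lit 393225) (nat_lit 9) (.e (nat_lit 335995) (nat_lit 1) (.e (nat_lit 57848) (nat_lit 252) .nil))))) .nil)) 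
(.lf (nat_lit 214252) (.g (nat_lit 2188) (.e (nat_lit 90158) (nat_lit 11) (.e (nat_lit 24658) (nat_lit 13) (.e (nat_lit 393229) (nat_lit 9) (.e (nat_lit 335995) (nat_lit 1) (.e (nat_lit 57844) (nat_lit 252) .nil))))) .nil)))) (.nd (nat_lit 5) (.nd (nat_lit 6) 
(.lf (nat_lit 214172) (.g (nat_lit 3920) (.e (nat_lit 90158) (nat_lit 11) (.e (nat_lit 24651) (nat_lit 12) (.e (nat_lit 385066) (nat_lit 26) (.e (nat_lit 532513) (nat_lit 3) (.e (nat_lit 114710) (nat_lit 21) (.e (nat_lit 57692) (nat_lit 156) (.e (nat_lit 171776) (nat_lit 63) .nil))))))) (.g (nat_lit 6) .nil .nil))) 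
(.lf (nat_lit 214236) (.g (nat_lit 1034) (.e (nat_lit 90158) (nat_lit 11) (.e (nat_lit 24658) (nat_lit 13) (.e (nat_lit 393219) (nat_lit 0) .nil))) .nil))) (.nd (nat_lit 6) 
(.lf (nat_lit 214204) (.g (nat_lit 1998) (.e (nat_lit 90158) (nat_lit 11) (.e (nat_lit 24655) (nat_lit 13) (.e (nat_lit 393229) (nat_lit 9) (.e (nat_lit 335892) (nat_lit 0) .nil)))) .nil)) 
(.lf (nat_lit 214268) (.g (nat_lit 2211) (.e (nat_lit 90158) (nat_lit 11) (.e (nat_lit 24662) (nat_lit 14) (.e (nat_lit 401425) (nat_lit 2) .nil))) .nil))))))) (.nd (nat_lit 2) (.nd (nat_lit 3) (.nd (nat_lit 4) (.nd (nat_lit 5) (.nd (nat_lit 6) 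
(.lf (nat_lit 214146) (.g (nat_lit 1964) (.e (nat_lit 90158) (nat_lit 11) (.e (nat_lit 24644) (nat_lit 11) (.e (nat_lit 368676) (nat_lit 21) (.e (nat_lit 516146) (nat_lit 9) (.e (nat_lit 426361) (nat_lit 15) (.e (nat_lit 2195) (nat_lit 144) (.e (nat_lit 720941) (nat_lit 22) .nil))))))) (.g (nat_lit 4) .nil .nil))) 
(.lf (nat_lit 214210) (.g (nat_lit 2282) (.e (nat_lit 90158) (nat_lit 11) (.e (nat_lit 24655) (nat_lit 13) (.e (nat_lit 393229) (nat_lit 9) (.e (nat_lit 335926) (nat_lit 0) (.e (nat_lit 1023) (nat_lit 81) .nil))))) .nil))) (.nd (nat_lit 6) 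
(.lf (nat_lit 214178) (.g (nat_lit 383) (.e (nat_lit 90158) (nat_lit 11) (.e (nat_lit 24651) (nat_lit 12) (.e (nat_lit 385074) (nat_lit 31) .nil))) .nil)) 
(.lf (nat_lit 214242) (.g (nat_lit 2702) (.e (nat_lit 90158) (nat_lit 11) (.e (nat_lit 24658) (nat_lit 13) (.e (nat_lit 393225) (nat_lit 9) (.e (nat_lit 335995) (nat_lit 1) (.e (nat_lit 57848) (nat_lit 252) (.e (nat_lit 57369) (nat_lit 2) .nil)))))) (.g (nat_lit 5) .nil .nil))))) (.nd (nat_lit 5) (.nd (nat_lit 6) 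
(.lf (nat_lit 214162) (.g (nat_lit 2042) (.e (nat_lit 90158) (nat_lit 11) (.e (nat_lit 24644) (nat_lit 11) (.e (nat_lit 368676) (nat_lit 21) (.e (nat_lit 516182) (nat_lit 15) (.e (nat_lit 475214) (nat_lit 42) (.e (nat_lit 720936) (nat_lit 22) .nil)))))) (.g (nat_lit 5) .nil .nil))) 
(.lf (nat_lit 214226) (.g (nat_lit 1122) (.e (nat_lit 90158) (nat_lit 11) (.e (nat_lit 24656) (nat_lit 13) (.e (nat_lit 393229) (nat_lit 9) (.e (nat_lit 335993) (nat_lit 1) .nil)))) .nil))) (.nd (nat_lit 6) 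
(.lf (nat_lit 214194) (.g (nat_lit 2972) (.e (nat_lit 90158) (nat_lit 11) (.e (nat_lit 24655) (nat_lit 13) (.e (nat_lit 393224) (nat_lit 9) (.e (nat_lit 335996) (nat_lit 1) (.e (nat_lit 57852) (nat_lit 252) (.e (nat_lit 57370) (nat_lit 2) .nil)))))) (.g (nat_lit 4) .nil .nil))) 
(.lf (nat_lit 214258) (.g (nat_lit 1898) (.e (nat_lit 90158) (nat_lit 11) (.e (nat_lit 24659) (nat_lit 13) (.e (nat_lit 393229) (nat_lit 9) (.e (nat_lit 335986) (nat_lit 1) (.e (nat_lit 57847) (nat_lit 252) .nil))))) .nil))))) (.nd (nat_lit 4) (.nd (nat_lit 5) (.nd (nat_lit 6) 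
(.lf (nat_lit 214154) (.g (nat_lit 1324) (.e (nat_lit 90158) (nat_lit 11) (.e (nat_lit 24644) (nat_lit 11) (.e (nat_lit 368676) (nat_lit 21) (.e (nat_lit 516150) (nat_lit 9) (.e (nat_lit 433920) (nat_lit 20) .nil))))) .nil)) 
(.lf (nat_lit 214218) (.g (nat_lit 1173) (.e (nat_lit 90158) (nat_lit 11) (.e (nat_lit 24655) (nat_lit 13) (.e (nat_lit 393229) (nat_lit 9) (.e (nat_lit 335994) (nat_lit 1) .nil)))) .nil))) (.nd (nat_lit 6) 
(.lf (nat_lit 214186) (.g (nat_lit 1187) (.e (nat_lit 90158) (nat_lit 11) (.e (nat_lit 24653) (nat_lit 12) (.e (nat_lit 385067) (nat_lit 26) (.e (nat_lit 532515) (nat_lit 3) (.e (nat_lit 114712) (nat_lit 21) .nil))))) .nil)) 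
(.lf (nat_lit 214250) (.g (nat_lit 3333) (.e (nat_lit 90158) (nat_lit 11) (.e (nat_lit 24658) (nat_lit 13) (.e (nat_lit 393229) (nat_lit 9) (.e (nat_lit 335994) (nat_lit 1) (.e (nat_lit 57849) (nat_lit 252) (.e (nat_lit 57375) (nat_lit 2) .nil)))))) (.g (nat_lit 0) .nil .nil))))) (.nd (nat_lit 5) (.nd (nat_lit 6) 
(.lf (nat_lit 214170) (.g (nat_lit 2444) (.e (nat_lit 90158) (nat_lit 11) (.e (nat_lit 24648) (nat_lit 12) (.e (nat_lit 385068) (nat_lit 26) (.e (nat_lit 532515) (nat_lit 3) (.e (nat_lit 114712) (nat_lit 21) .nil))))) .nil)) 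
(.lf (nat_lit 214234) (.g (nat_lit 2058) (.e (nat_lit 90158) (nat_lit 11) (.e (nat_lit 24657) (nat_lit 13) (.e (nat_lit 393229) (nat_lit 9) (.e (nat_lit 335996) (nat_lit 1) (.e (nat_lit 57851) (nat_lit 252) .nil))))) .nil))) (.nd (nat_lit 6) 
(.lf (nat_lit 214202) (.g (nat_lit 522) (.e (nat_lit 90158) (nat_lit 11) (.e (nat_lit 24655) (nat_lit 13) (.e (nat_lit 393229) (nat_lit 9) .nil))) .nil)) 
(.lf (nat_lit 214266) (.g (nat_lit 907) (.e (nat_lit 90158) (nat_lit 11) (.e (nat_lit 24660) (nat_lit 13) (.e (nat_lit 393229) (nat_lit 9) (.e (nat_lit 335993) (nat_lit 1) .nil)))) .nil)))))) (.nd (nat_lit 3) (.nd (nat_lit 4) (.nd (nat_lit 5) (.nd (nat_lit 6) 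
(.lf (nat_lit 214150) (.g (nat_lit 2210) (.e (nat_lit 90158) (nat_lit 11) (.e (nat_lit 24644) (nat_lit 11) (.e (nat_lit 368676) (nat_lit 21) (.e (nat_lit 516148) (nat_lit 9) (.e (nat_lit 426446) (nat_lit 20) (.e (nat_lit 114716) (nat_lit 22) .nil)))))) (.g (nat_lit 5) .nil .nil))) 
(.lf (nat_lit 214214) (.g (nat_lit 2203) (.e (nat_lit 90158) (nat_lit 11) (.e (nat_lit 24655) (nat_lit 13) (.e (nat_lit 393229) (nat_lit 9) (.e (nat_lit 335956) (nat_lit 0) .nil)))) .nil))) (.nd (nat_lit 6) 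
(.lf (nat_lit 214182) (.g (nat_lit 2569) (.e (nat_lit 90158) (nat_lit 11) (.e (nat_lit 24651) (nat_lit 12) (.e (nat_lit 385074) (nat_lit 31) (.e (nat_lit 573489) (nat_lit 14) (.e (nat_lit 73761) (nat_lit 15) .nil))))) .nil)) 
(.lf (nat_lit 214246) (.g (nat_lit 1250) (.e (nat_lit 90158) (nat_lit 11) (.e (nat_lit 24658) (nat_lit 13) (.e (nat_lit 393229) (nat_lit 9) (.e (nat_lit 335892) (nat_lit 0) .nil)))) .nil)))) (.nd (nat_lit 5) (.nd (nat_lit 6) 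
(.lf (nat_lit 214166) (.g (nat_lit 3720) (.e (nat_lit 90158) (nat_lit 11) (.e (nat_lit 24648) (nat_lit 12) (.e (nat_lit 385066) (nat_lit 26) (.e (nat_lit 532515) (nat_lit 3) (.e (nat_lit 114712) (nat_lit 21) (.e (nat_lit 57692) (nat_lit 156) (.e (nat_lit 171776) (nat_lit 63) .nil))))))) (.g (nat_lit 6) .nil .nil))) 
(.lf (nat_lit 214230) (.g (nat_lit 2105) (.e (nat_lit 90158) (nat_lit 11) (.e (nat_lit 24657) (nat_lit 13) (.e (nat_lit 393229) (nat_lit 9) (.e (nat_lit 335986) (nat_lit 1) (.e (nat_lit 57854) (nat_lit 252) .nil))))) .nil))) (.nd (nat_lit 6) 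
(.lf (nat_lit 214198) (.g (nat_lit 945) (.e (nat_lit 90158) (nat_lit 11) (.e (nat_lit 24655) (nat_lit 13) (.e (nat_lit 393225) (nat_lit 9) (.e (nat_lit 335996) (nat_lit 1) .nil)))) .nil)) 
(.lf (nat_lit 214262) (.g (nat_lit 2411) (.e (nat_lit 90158) (nat_lit 11) (.e (nat_lit 24659) (nat_lit 13) (.e (nat_lit 393229) (nat_lit 9) (.e (nat_lit 335996) (nat_lit 1) (.e (nat_lit 57852) (nat_lit 252) .nil))))) .nil))))) (.nd (nat_lit 4) (.nd (nat_lit 5) (.nd (nat_lit 6) 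
(.lf (nat_lit 214158) (.g (nat_lit 2578) (.e (nat_lit 90158) (nat_lit 11) (.e (nat_lit 24644) (nat_lit 11) (.e (nat_lit 368676) (nat_lit 21) (.e (nat_lit 516179) (nat_lit 15) (.e (nat_lit 475212) (nat_lit 42) (.e (nat_lit 720936) (nat_lit 22) .nil)))))) (.g (nat_lit 5) .nil .nil))) 
(.lf (nat_lit 214222) (.g (nat_lit 2316) (.e (nat_lit 90158) (nat_lit 11) (.e (nat_lit 24655) (nat_lit 13) (.e (nat_lit 393229) (nat_lit 9) (.e (nat_lit 335996) (nat_lit 1) (.e (nat_lit 57830) (nat_lit 250) .nil))))) .nil))) (.nd (nat_lit 6) 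
(.lf (nat_lit 214190) (.g (nat_lit 1926) (.e (nat_lit 90158) (nat_lit 11) (.e (nat_lit 24654) (nat_lit 13) (.e (nat_lit 393229) (nat_lit 9) (.e (nat_lit 335986) (nat_lit 1) (.e (nat_lit 57849) (nat_lit 252) .nil))))) .nil)) 
(.lf (nat_lit 214254) (.g (nat_lit 3527) (.e (nat_lit 90158) (nat_lit 11) (.e (nat_lit 24658) (nat_lit 13) (.e (nat_lit 393229) (nat_lit 9) (.e (nat_lit 335995) (nat_lit 1) (.e (nat_lit 57853) (nat_lit 252) (.e (nat_lit 57371) (nat_lit 2) .nil)))))) (.g (nat_lit 5) .nil .nil))))) (.nd (nat_lit 5) (.nd (nat_lit 6) 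
(.lf (nat_lit 214174) (.g (nat_lit 3743) (.e (nat_lit 90158) (nat_lit 11) (.e (nat_lit 24651) (nat_lit 12) (.e (nat_lit 385066) (nat_lit 26) (.e (nat_lit 532515) (nat_lit 3) (.e (nat_lit 114712) (nat_lit 21) (.e (nat_lit 57692) (nat_lit 156) (.e (nat_lit 171776) (nat_lit 63) .nil))))))) (.g (nat_lit 6) .nil .nil))) 
(.lf (nat_lit 214238) (.g (nat_lit 1891) (.e (nat_lit 90158) (nat_lit 11) (.e (nat_lit 24658) (nat_lit 13) (.e (nat_lit 393225) (nat_lit 9) (.e (nat_lit 335985) (nat_lit 1) (.e (nat_lit 57849) (nat_lit 252) .nil))))) .nil))) (.nd (nat_lit 6) 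
(.lf (nat_lit 214206) (.g (nat_lit 2343) (.e (nat_lit 90158) (nat_lit 11) (.e (nat_lit 24655) (nat_lit 13) (.e (nat_lit 393229) (nat_lit 9) (.e (nat_lit 335892) (nat_lit 0) (.e (nat_lit 1095) (nat_lit 81) .nil))))) .nil)) 
(.lf (nat_lit 214270) (.g (nat_lit 2155) (.e (nat_lit 90158) (nat_lit 11) (.e (nat_lit 24662) (nat_lit 14) (.e (nat_lit 401428) (nat_lit 3) .nil))) .nil)))))))) (.nd (nat_lit 1) (.nd (nat_lit 2) (.nd (nat_lit 3) (.nd (nat_lit 4) (.nd (nat_lit 5) (.nd (nat_lit 6) 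
(.lf (nat_lit 214145) (.g (nat_lit 1451) (.e (nat_lit 90158) (nat_lit 11) (.e (nat_lit 24644) (nat_lit 11) (.e (nat_lit 368676) (nat_lit 21) (.e (nat_lit 516146) (nat_lit 9) (.e (nat_lit 426361) (nat_lit 15) .nil))))) .nil)) 
(.lf (nat_lit 214209) (.g (nat_lit 1981) (.e (nat_lit 90158) (nat_lit 11) (.e (nat_lit 24655) (nat_lit 13) (.e (nat_lit 393229) (nat_lit 9) (.e (nat_lit 335914) (nat_lit 0) .nil)))) .nil))) (.nd (nat_lit 6) 
(.lf (nat_lit 214177) (.g (nat_lit 3298) (.e (nat_lit 90158) (nat_lit 11) (.e (nat_lit 24651) (nat_lit 12) (.e (nat_lit 385068) (nat_lit 26) (.e (nat_lit 532515) (nat_lit 3) (.e (nat_lit 114712) (nat_lit 21) (.e (nat_lit 57692) (nat_lit 156) (.e (nat_lit 171776) (nat_lit 63) .nil))))))) (.g (nat_lit 5) .nil .nil))) 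
(.lf (nat_lit 214241) (.g (nat_lit 3711) (.e (nat_lit 90158) (nat_lit 11) (.e (nat_lit 24658) (nat_lit 13) (.e (nat_lit 393225) (nat_lit 9) (.e (nat_lit 335995) (nat_lit 1) (.e (nat_lit 57847) (nat_lit 252) (.e (nat_lit 57370) (nat_lit 2) .nil)))))) (.g (nat_lit 0) .nil .nil))))) (.nd (nat_lit 5) (.nd (nat_lit 6) 
(.lf (nat_lit 214161) (.g (nat_lit 2173) (.e (nat_lit 90158) (nat_lit 11) (.e (nat_lit 24644) (nat_lit 11) (.e (nat_lit 368676) (nat_lit 21) (.e (nat_lit 516181) (nat_lit 15) (.e (nat_lit 475214) (nat_lit 42) (.e (nat_lit 720936) (nat_lit 22) .nil)))))) (.g (nat_lit 5) .nil .nil))) 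
(.lf (nat_lit 214225) (.g (nat_lit 1471) (.e (nat_lit 90158) (nat_lit 11) (.e (nat_lit 24656) (nat_lit 13) (.e (nat_lit 393229) (nat_lit 9) (.e (nat_lit 335987) (nat_lit 1) (.e (nat_lit 57854) (nat_lit 252) .nil))))) .nil))) (.nd (nat_lit 6) 
(.lf (nat_lit 214193) (.g (nat_lit 861) (.e (nat_lit 90158) (nat_lit 11) (.e (nat_lit 24655) (nat_lit 13) (.e (nat_lit 393224) (nat_lit 9) .nil))) .nil)) 
(.lf (nat_lit 214257) (.g (nat_lit 1952) (.e (nat_lit 90158) (nat_lit 11) (.e (nat_lit 24659) (nat_lit 13) (.e (nat_lit 393225) (nat_lit 9) (.e (nat_lit 335986) (nat_lit 1) (.e (nat_lit 57849) (nat_lit 252) .nil))))) .nil))))) (.nd (nat_lit 4) (.nd (nat_lit 5) (.nd (nat_lit 6) 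
(.lf (nat_lit 214153) (.g (nat_lit 1951) (.e (nat_lit 90158) (nat_lit 11) (.e (nat_lit 24644) (nat_lit 11) (.e (nat_lit 368676) (nat_lit 21) (.e (nat_lit 516150) (nat_lit 9) (.e (nat_lit 426360) (nat_lit 15) (.e (nat_lit 2210) (nat_lit 145) (.e (nat_lit 729112) (nat_lit 22) .nil))))))) (.g (nat_lit 4) .nil .nil))) 
(.lf (nat_lit 214217) (.g (nat_lit 1566) (.e (nat_lit 90158) (nat_lit 11) (.e (nat_lit 24655) (nat_lit 13) (.e (nat_lit 393229) (nat_lit 9) (.e (nat_lit 335993) (nat_lit 1) (.e (nat_lit 57853) (nat_lit 252) .nil))))) .nil))) (.nd (nat_lit 6) 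
(.lf (nat_lit 214185) (.g (nat_lit 3000) (.e (nat_lit 90158) (nat_lit 11) (.e (nat_lit 24653) (nat_lit 12) (.e (nat_lit 385065) (nat_lit 26) (.e (nat_lit 532515) (nat_lit 3) (.e (nat_lit 114712) (nat_lit 21) (.e (nat_lit 57692) (nat_lit 156) (.e (nat_lit 171776) (nat_lit 63) .nil))))))) (.g (nat_lit 6) .nil .nil))) 
(.lf (nat_lit 214249) (.g (nat_lit 1793) (.e (nat_lit 90158) (nat_lit 11) (.e (nat_lit 24658) (nat_lit 13) (.e (nat_lit 393229) (nat_lit 9) (.e (nat_lit 335994) (nat_lit 1) (.e (nat_lit 57848) (nat_lit 252) (.e (nat_lit 57369) (nat_lit 2) .nil)))))) (.g (nat_lit 4) .nil .nil))))) (.nd (nat_lit 5) (.nd (nat_lit 6) 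
(.lf (nat_lit 214169) (.g (nat_lit 2604) (.e (nat_lit 90158) (nat_lit 11) (.e (nat_lit 24648) (nat_lit 12) (.e (nat_lit 385068) (nat_lit 26) (.e (nat_lit 532513) (nat_lit 3) (.e (nat_lit 114710) (nat_lit 21) .nil))))) .nil)) 
(.lf (nat_lit 214233) (.g (nat_lit 2614) (.e (nat_lit 90158) (nat_lit 11) (.e (nat_lit 24657) (nat_lit 13) (.e (nat_lit 393229) (nat_lit 9) (.e (nat_lit 335995) (nat_lit 1) (.e (nat_lit 57846) (nat_lit 252) .nil))))) .nil))) (.nd (nat_lit 6) 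
(.lf (nat_lit 214201) (.g (nat_lit 861) (.e (nat_lit 90158) (nat_lit 11) (.e (nat_lit 24655) (nat_lit 13) (.e (nat_lit 393228) (nat_lit 9) .nil))) .nil)) 
(.lf (nat_lit 214265) (.g (nat_lit 1003) (.e (nat_lit 90158) (nat_lit 11) (.e (nat_lit 24660) (nat_lit 13) (.e (nat_lit 393229) (nat_lit 9) (.e (nat_lit 335987) (nat_lit 1) .nil)))) .nil)))))) (.nd (nat_lit 3) (.nd (nat_lit 4) (.nd (nat_lit 5) (.nd (nat_lit 6) 
(.lf (nat_lit 214149) (.g (nat_lit 1745) (.e (nat_lit 90158) (nat_lit 11) (.e (nat_lit 24644) (nat_lit 11) (.e (nat_lit 368676) (nat_lit 21) (.e (nat_lit 516146) (nat_lit 9) (.e (nat_lit 433920) (nat_lit 20) (.e (nat_lit 114716) (nat_lit 22) .nil)))))) (.g (nat_lit 4) .nil .nil))) 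
(.lf (nat_lit 214213) (.g (nat_lit 2316) (.e (nat_lit 90158) (nat_lit 11) (.e (nat_lit 24655) (nat_lit 13) (.e (nat_lit 393229) (nat_lit 9) (.e (nat_lit 335934) (nat_lit 0) (.e (nat_lit 1040) (nat_lit 81) .nil))))) .nil))) (.nd (nat_lit 6) 
(.lf (nat_lit 214181) (.g (nat_lit 1629) (.e (nat_lit 90158) (nat_lit 11) (.e (nat_lit 24651) (nat_lit 12) (.e (nat_lit 385074) (nat_lit 31) (.e (nat_lit 573484) (nat_lit 13) .nil)))) .nil)) 
(.lf (nat_lit 214245) (.g (nat_lit 337) (.e (nat_lit 90158) (nat_lit 11) (.e (nat_lit 24658) (nat_lit 13) (.e (nat_lit 393229) (nat_lit 9) .nil))) .nil)))) (.nd (nat_lit 5) (.nd (nat_lit 6) 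
(.lf (nat_lit 214165) (.g (nat_lit 1352) (.e (nat_lit 90158) (nat_lit 11) (.e (nat_lit 24648) (nat_lit 12) (.e (nat_lit 385066) (nat_lit 26) (.e (nat_lit 532515) (nat_lit 3) .nil)))) .nil)) 
(.lf (nat_lit 214229) (.g (nat_lit 2842) (.e (nat_lit 90158) (nat_lit 11) (.e (nat_lit 24657) (nat_lit 13) (.e (nat_lit 393229) (nat_lit 9) (.e (nat_lit 335986) (nat_lit 1) (.e (nat_lit 57853) (nat_lit 252) .nil))))) .nil))) (.nd (nat_lit 6) 
(.lf (nat_lit 214197) (.g (nat_lit 3235) (.e (nat_lit 90158) (nat_lit 11) (.e (nat_lit 24655) (nat_lit 13) (.e (nat_lit 393225) (nat_lit 9) (.e (nat_lit 335995) (nat_lit 1) (.e (nat_lit 57853) (nat_lit 252) (.e (nat_lit 57370) (nat_lit 2) .nil)))))) (.g (nat_lit 4) .nil .nil))) 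
(.lf (nat_lit 214261) (.g (nat_lit 3265) (.e (nat_lit 90158) (nat_lit 11) (.e (nat_lit 24659) (nat_lit 13) (.e (nat_lit 393229) (nat_lit 9) (.e (nat_lit 335995) (nat_lit 1) (.e (nat_lit 57847) (nat_lit 252) .nil))))) .nil))))) (.nd (nat_lit 4) (.nd (nat_lit 5) (.nd (nat_lit 6) 
(.lf (nat_lit 214157) (.g (nat_lit 2710) (.e (nat_lit 90158) (nat_lit 11) (.e (nat_lit 24644) (nat_lit 11) (.e (nat_lit 368676) (nat_lit 21) (.e (nat_lit 516179) (nat_lit 15) (.e (nat_lit 475199) (nat_lit 40) (.e (nat_lit 704707) (nat_lit 9) (.e (nat_lit 1234) (nat_lit 91) .nil))))))) (.g (nat_lit 5) .nil .nil))) 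
(.lf (nat_lit 214221) (.g (nat_lit 2899) (.e (nat_lit 90158) (nat_lit 11) (.e (nat_lit 24655) (nat_lit 13) (.e (nat_lit 393229) (nat_lit 9) (.e (nat_lit 335995) (nat_lit 1) (.e (nat_lit 57854) (nat_lit 252) .nil))))) .nil))) (.nd (nat_lit 6) 
(.lf (nat_lit 214189) (.g (nat_lit 2149) (.e (nat_lit 90158) (nat_lit 11) (.e (nat_lit 24654) (nat_lit 13) (.e (nat_lit 393225) (nat_lit 9) (.e (nat_lit 335995) (nat_lit 1) (.e (nat_lit 57849) (nat_lit 252) .nil))))) .nil)) 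
(.lf (nat_lit 214253) (.g (nat_lit 3357) (.e (nat_lit 90158) (nat_lit 11) (.e (nat_lit 24658) (nat_lit 13) (.e (nat_lit 393229) (nat_lit 9) (.e (nat_lit 335995) (nat_lit 1) (.e (nat_lit 57853) (nat_lit 252) (.e (nat_lit 57370) (nat_lit 2) .nil)))))) (.g (nat_lit 5) .nil .nil))))) (.nd (nat_lit 5) (.nd (nat_lit 6) 
(.lf (nat_lit 214173) (.g (nat_lit 1143) (.e (nat_lit 90158) (nat_lit 11) (.e (nat_lit 24651) (nat_lit 12) (.e (nat_lit 385066) (nat_lit 26) (.e (nat_lit 532515) (nat_lit 3) .nil)))) .nil)) 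
(.lf (nat_lit 214237) (.g (nat_lit 2409) (.e (nat_lit 90158) (nat_lit 11) (.e (nat_lit 24658) (nat_lit 13) (.e (nat_lit 393224) (nat_lit 9) (.e (nat_lit 335988) (nat_lit 1) (.e (nat_lit 57854) (nat_lit 252) (.e (nat_lit 57371) (nat_lit 2) .nil)))))) (.g (nat_lit 4) .nil .nil)))) (.nd (nat_lit 6) 
(.lf (nat_lit 214205) (.g (nat_lit 2342) (.e (nat_lit 90158) (nat_lit 11) (.e (nat_lit 24655) (nat_lit 13) (.e (nat_lit 393229) (nat_lit 9) (.e (nat_lit 335892) (nat_lit 0) (.e (nat_lit 1024) (nat_lit 81) .nil))))) .nil)) 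
(.lf (nat_lit 214269) (.g (nat_lit 3694) (.e (nat_lit 90158) (nat_lit 11) (.e (nat_lit 24662) (nat_lit 14) (.e (nat_lit 401425) (nat_lit 2) (.e (nat_lit 196666) (nat_lit 13) .nil)))) .nil))))))) (.nd (nat_lit 2) (.nd (nat_lit 3) (.nd (nat_lit 4) (.nd (nat_lit 5) (.nd (nat_lit 6) 
(.lf (nat_lit 214147) (.g (nat_lit 3134) (.e (nat_lit 90158) (nat_lit 11) (.e (nat_lit 24644) (nat_lit 11) (.e (nat_lit 368676) (nat_lit 21) (.e (nat_lit 516146) (nat_lit 9) (.e (nat_lit 426361) (nat_lit 15) (.e (nat_lit 2203) (nat_lit 144) (.e (nat_lit 720941) (nat_lit 22) .nil))))))) (.g (nat_lit 7) .nil .nil))) 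
(.lf (nat_lit 214211) (.g (nat_lit 2211) (.e (nat_lit 90158) (nat_lit 11) (.e (nat_lit 24655) (nat_lit 13) (.e (nat_lit 393229) (nat_lit 9) (.e (nat_lit 335931) (nat_lit 0) .nil)))) .nil))) (.nd (nat_lit 6) 
(.lf (nat_lit 214179) (.g (nat_lit 2186) (.e (nat_lit 90158) (nat_lit 11) (.e (nat_lit 24651) (nat_lit 12) (.e (nat_lit 385074) (nat_lit 31) (.e (nat_lit 573482) (nat_lit 13) .nil)))) .nil)) 
(.lf (nat_lit 214243) (.g (nat_lit 760) (.e (nat_lit 90158) (nat_lit 11) (.e (nat_lit 24658) (nat_lit 13) (.e (nat_lit 393226) (nat_lit 9) .nil))) .nil)))) (.nd (nat_lit 5) (.nd (nat_lit 6) 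
(.lf (nat_lit 214163) (.g (nat_lit 1468) (.e (nat_lit 90158) (nat_lit 11) (.e (nat_lit 24646) (nat_lit 11) (.e (nat_lit 368676) (nat_lit 21) (.e (nat_lit 516180) (nat_lit 15) (.e (nat_lit 475212) (nat_lit 42) .nil))))) .nil)) 
(.lf (nat_lit 214227) (.g (nat_lit 1381) (.e (nat_lit 90158) (nat_lit 11) (.e (nat_lit 24656) (nat_lit 13) (.e (nat_lit 393229) (nat_lit 9) (.e (nat_lit 335993) (nat_lit 1) (.e (nat_lit 57847) (nat_lit 252) .nil))))) .nil))) (.nd (nat_lit 6) 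
(.lf (nat_lit 214195) (.g (nat_lit 1543) (.e (nat_lit 90158) (nat_lit 11) (.e (nat_lit 24655) (nat_lit 13) (.e (nat_lit 393225) (nat_lit 9) (.e (nat_lit 335993) (nat_lit 1) .nil)))) .nil)) 
(.lf (nat_lit 214259) (.g (nat_lit 1692) (.e (nat_lit 90158) (nat_lit 11) (.e (nat_lit 24659) (nat_lit 13) (.e (nat_lit 393229) (nat_lit 9) (.e (nat_lit 335988) (nat_lit 1) (.e (nat_lit 57852) (nat_lit 252) .nil))))) .nil))))) (.nd (nat_lit 4) (.nd (nat_lit 5) (.nd (nat_lit 6) 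
(.lf (nat_lit 214155) (.g (nat_lit 1287) (.e (nat_lit 90158) (nat_lit 11) (.e (nat_lit 24644) (nat_lit 11) (.e (nat_lit 368676) (nat_lit 21) (.e (nat_lit 516156) (nat_lit 9) .nil)))) .nil)) 
(.lf (nat_lit 214219) (.g (nat_lit 1578) (.e (nat_lit 90158) (nat_lit 11) (.e (nat_lit 24655) (nat_lit 13) (.e (nat_lit 393229) (nat_lit 9) (.e (nat_lit 335994) (nat_lit 1) (.e (nat_lit 57845) (nat_lit 252) .nil))))) .nil))) (.nd (nat_lit 6) 
(.lf (nat_lit 214187) (.g (nat_lit 2789) (.e (nat_lit 90158) (nat_lit 11) (.e (nat_lit 24653) (nat_lit 12) (.e (nat_lit 385067) (nat_lit 26) (.e (nat_lit 532515) (nat_lit 3) (.e (nat_lit 114712) (nat_lit 21) (.e (nat_lit 57692) (nat_lit 156) (.e (nat_lit 171776) (nat_lit 63) .nil))))))) (.g (nat_lit 6) .nil .nil))) 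
(.lf (nat_lit 214251) (.g (nat_lit 827) (.e (nat_lit 90158) (nat_lit 11) (.e (nat_lit 24658) (nat_lit 13) (.e (nat_lit 393229) (nat_lit 9) (.e (nat_lit 335995) (nat_lit 1) .nil)))) .nil)))) (.nd (nat_lit 5) (.nd (nat_lit 6) 
(.lf (nat_lit 214171) (.g (nat_lit 2843) (.e (nat_lit 90158) (nat_lit 11) (.e (nat_lit 24651) (nat_lit 12) (.e (nat_lit 385065) (nat_lit 26) (.e (nat_lit 532515) (nat_lit 3) (.e (nat_lit 114712) (nat_lit 21) (.e (nat_lit 57692) (nat_lit 156) (.e (nat_lit 171776) (nat_lit 63) .nil))))))) (.g (nat_lit 5) .nil .nil))) 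
(.lf (nat_lit 214235) (.g (nat_lit 1360) (.e (nat_lit 90158) (nat_lit 11) (.e (nat_lit 24657) (nat_lit 13) (.e (nat_lit 393229) (nat_lit 9) (.e (nat_lit 343808) (nat_lit 20) .nil)))) .nil))) (.nd (nat_lit 6) 
(.lf (nat_lit 214203) (.g (nat_lit 2198) (.e (nat_lit 90158) (nat_lit 11) (.e (nat_lit 24655) (nat_lit 13) (.e (nat_lit 393229) (nat_lit 9) (.e (nat_lit 335886) (nat_lit 0) .nil)))) .nil)) 
(.lf (nat_lit 214267) (.g (nat_lit 971) (.e (nat_lit 90158) (nat_lit 11) (.e (nat_lit 24660) (nat_lit 13) (.e (nat_lit 393229) (nat_lit 9) (.e (nat_lit 335994) (nat_lit 1) .nil)))) .nil)))))) (.nd (nat_lit 3) (.nd (nat_lit 4) (.nd (nat_lit 5) (.nd (nat_lit 6) 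
(.lf (nat_lit 214151) (.g (nat_lit 1107) (.e (nat_lit 90158) (nat_lit 11) (.e (nat_lit 24644) (nat_lit 11) (.e (nat_lit 368676) (nat_lit 21) (.e (nat_lit 516149) (nat_lit 9) (.e (nat_lit 433920) (nat_lit 20) .nil))))) .nil)) 
(.lf (nat_lit 214215) (.g (nat_lit 3134) (.e (nat_lit 90158) (nat_lit 11) (.e (nat_lit 24655) (nat_lit 13) (.e (nat_lit 393229) (nat_lit 9) (.e (nat_lit 335986) (nat_lit 1) (.e (nat_lit 57853) (nat_lit 252) (.e (nat_lit 57370) (nat_lit 2) .nil)))))) (.g (nat_lit 5) .nil .nil)))) (.nd (nat_lit 6) 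
(.lf (nat_lit 214183) (.g (nat_lit 1188) (.e (nat_lit 90158) (nat_lit 11) (.e (nat_lit 24652) (nat_lit 12) (.e (nat_lit 385068) (nat_lit 26) (.e (nat_lit 532503) (nat_lit 1) .nil)))) .nil)) 
(.lf (nat_lit 214247) (.g (nat_lit 2857) (.e (nat_lit 90158) (nat_lit 11) (.e (nat_lit 24658) (nat_lit 13) (.e (nat_lit 393229) (nat_lit 9) (.e (nat_lit 335986) (nat_lit 1) (.e (nat_lit 57853) (nat_lit 252) (.e (nat_lit 57370) (nat_lit 2) .nil)))))) (.g (nat_lit 5) .nil .nil))))) (.nd (nat_lit 5) (.nd (nat_lit 6) 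
(.lf (nat_lit 214167) (.g (nat_lit 1379) (.e (nat_lit 90158) (nat_lit 11) (.e (nat_lit 24648) (nat_lit 12) (.e (nat_lit 385066) (nat_lit 26) (.e (nat_lit 540416) (nat_lit 18) .nil)))) .nil)) 
(.lf (nat_lit 214231) (.g (nat_lit 1555) (.e (nat_lit 90158) (nat_lit 11) (.e (nat_lit 24657) (nat_lit 13) (.e (nat_lit 393229) (nat_lit 9) (.e (nat_lit 335987) (nat_lit 1) .nil)))) .nil))) (.nd (nat_lit 6) 
(.lf (nat_lit 214199) (.g (nat_lit 1637) (.e (nat_lit 90158) (nat_lit 11) (.e (nat_lit 24655) (nat_lit 13) (.e (nat_lit 393225) (nat_lit 9) (.e (nat_lit 343808) (nat_lit 20) .nil)))) .nil)) 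
(.lf (nat_lit 214263) (.g (nat_lit 434) (.e (nat_lit 90158) (nat_lit 11) (.e (nat_lit 24660) (nat_lit 13) (.e (nat_lit 393228) (nat_lit 9) .nil))) .nil))))) (.nd (nat_lit 4) (.nd (nat_lit 5) (.nd (nat_lit 6) 
(.lf (nat_lit 214159) (.g (nat_lit 2071) (.e (nat_lit 90158) (nat_lit 11) (.e (nat_lit 24644) (nat_lit 11) (.e (nat_lit 368676) (nat_lit 21) (.e (nat_lit 516179) (nat_lit 15) (.e (nat_lit 483072) (nat_lit 42) (.e (nat_lit 720941) (nat_lit 22) .nil)))))) (.g (nat_lit 4) .nil .nil))) 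
(.lf (nat_lit 214223) (.g (nat_lit 424) (.e (nat_lit 90158) (nat_lit 11) (.e (nat_lit 24655) (nat_lit 13) (.e (nat_lit 401152) (nat_lit 15) .nil))) .nil))) (.nd (nat_lit 6) 
(.lf (nat_lit 214191) (.g (nat_lit 1950) (.e (nat_lit 90158) (nat_lit 11) (.e (nat_lit 24654) (nat_lit 13) (.e (nat_lit 393229) (nat_lit 9) (.e (nat_lit 335995) (nat_lit 1) (.e (nat_lit 57849) (nat_lit 252) .nil))))) .nil)) 
(.lf (nat_lit 214255) (.g (nat_lit 2626) (.e (nat_lit 90158) (nat_lit 11) (.e (nat_lit 24658) (nat_lit 13) (.e (nat_lit 393229) (nat_lit 9) (.e (nat_lit 335995) (nat_lit 1) (.e (nat_lit 57854) (nat_lit 252) .nil))))) .nil)))) (.nd (nat_lit 5) (.nd (nat_lit 6) 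
(.lf (nat_lit 214175) (.g (nat_lit 2861) (.e (nat_lit 90158) (nat_lit 11) (.e (nat_lit 24651) (nat_lit 12) (.e (nat_lit 385068) (nat_lit 26) (.e (nat_lit 532503) (nat_lit 1) (.e (nat_lit 65280) (nat_lit 211) .nil))))) .nil)) 
(.lf (nat_lit 214239) (.g (nat_lit 1634) (.e (nat_lit 90158) (nat_lit 11) (.e (nat_lit 24658) (nat_lit 13) (.e (nat_lit 393225) (nat_lit 9) (.e (nat_lit 335993) (nat_lit 1) .nil)))) .nil))) (.nd (nat_lit 6) 
(.lf (nat_lit 214207) (.g (nat_lit 2028) (.e (nat_lit 90158) (nat_lit 11) (.e (nat_lit 24655) (nat_lit 13) (.e (nat_lit 393229) (nat_lit 9) (.e (nat_lit 335894) (nat_lit 0) .nil)))) .nil)) 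
(.lf (nat_lit 214271) (.g (nat_lit 1331) (.e (nat_lit 90158) (nat_lit 11) (.e (nat_lit 24662) (nat_lit 14) (.e (nat_lit 401463) (nat_lit 15) .nil))) .nil)))))))))

noncomputable def tv2821 : DT := (.nd (nat_lit 0) (.nd (nat_lit 1) (.nd (nat_lit 2) (.nd (nat_lit 3) (.nd (nat_lit 4) (.nd (nat_lit 5) (.nd (nat_lit 6) 
(.lf (nat_lit 214272) (.g (nat_lit 2520) (.e (nat_lit 90158) (nat_lit 11) (.e (nat_lit 24662) (nat_lit 14) (.e (nat_lit 401463) (nat_lit 15) (.e (nat_lit 1858) (nat_lit 124) (.e (nat_lit 557100) (nat_lit 13) .nil))))) .nil)) 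
(.lf (nat_lit 214336) (.g (nat_lit 2447) (.e (nat_lit 90159) (nat_lit 11) (.e (nat_lit 24628) (nat_lit 9) (.e (nat_lit 336019) (nat_lit 3) (.e (nat_lit 98384) (nat_lit 32) (.e (nat_lit 475213) (nat_lit 42) (.e (nat_lit 720938) (nat_lit 22) .nil)))))) (.g (nat_lit 4) .nil .nil)))) (.nd (nat_lit 6) 
(.lf (nat_lit 214304) (.g (nat_lit 3104) (.e (nat_lit 90159) (nat_lit 11) (.e (nat_lit 24607) (nat_lit 3) (.e (nat_lit 98317) (nat_lit 9) (.e (nat_lit 336025) (nat_lit 3) (.e (nat_lit 98313) (nat_lit 9) (.e (nat_lit 336012) (nat_lit 2) .nil)))))) (.g (nat_lit 6) .nil .nil))) 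
(.lf (nat_lit 214368) (.g (nat_lit 2752) (.e (nat_lit 90159) (nat_lit 11) (.e (nat_lit 24640) (nat_lit 10) (.e (nat_lit 344117) (nat_lit 21) (.e (nat_lit 516151) (nat_lit 9) (.e (nat_lit 433920) (nat_lit 20) (.e (nat_lit 114716) (nat_lit 22) .nil)))))) (.g (nat_lit 4) .nil .nil))))) (.nd (nat_lit 5) (.nd (nat_lit 6) 
(.lf (nat_lit 214288) (.g (nat_lit 1406) (.e (nat_lit 90158) (nat_lit 11) (.e (nat_lit 24665) (nat_lit 14) (.e (nat_lit 409344) (nat_lit 34) .nil))) .nil)) 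
(.lf (nat_lit 214352) (.g (nat_lit 2442) (.e (nat_lit 90159) (nat_lit 11) (.e (nat_lit 24638) (nat_lit 9) (.e (nat_lit 336012) (nat_lit 2) (.e (nat_lit 90185) (nat_lit 17) (.e (nat_lit 245504) (nat_lit 20) .nil))))) .nil))) (.nd (nat_lit 6) 
(.lf (nat_lit 214320) (.g (nat_lit 1267) (.e (nat_lit 90159) (nat_lit 11) (.e (nat_lit 24627) (nat_lit 9) (.e (nat_lit 336019) (nat_lit 3) (.e (nat_lit 98358) (nat_lit 26) .nil)))) .nil)) 
(.lf (nat_lit 214384) (.g (nat_lit 1283) (.e (nat_lit 90159) (nat_lit 11) (.e (nat_lit 24657) (nat_lit 13) (.e (nat_lit 393229) (nat_lit 9) (.e (nat_lit 335993) (nat_lit 1) .nil)))) .nil))))) (.nd (nat_lit 4) (.nd (nat_lit 5) (.nd (nat_lit 6) 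
(.lf (nat_lit 214280) (.g (nat_lit 2527) (.e (nat_lit 90158) (nat_lit 11) (.e (nat_lit 24665) (nat_lit 14) (.e (nat_lit 401426) (nat_lit 3) (.e (nat_lit 204863) (nat_lit 27) .nil)))) .nil)) 
(.lf (nat_lit 214344) (.g (nat_lit 768) (.e (nat_lit 90159) (nat_lit 11) (.e (nat_lit 24636) (nat_lit 9) (.e (nat_lit 336017) (nat_lit 3) (.e (nat_lit 98385) (nat_lit 32) (.e (nat_lit 475214) (nat_lit 42) .nil))))) .nil))) (.nd (nat_lit 6) 
(.lf (nat_lit 214312) (.g (nat_lit 2505) (.e (nat_lit 90159) (nat_lit 11) (.e (nat_lit 24608) (nat_lit 3) (.e (nat_lit 98342) (nat_lit 20) (.e (nat_lit 221212) (nat_lit 22) (.e (nat_lit 196626) (nat_lit 9) .nil))))) .nil)) 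
(.lf (nat_lit 214376) (.g (nat_lit 1697) (.e (nat_lit 90159) (nat_lit 11) (.e (nat_lit 24646) (nat_lit 11) (.e (nat_lit 368676) (nat_lit 21) (.e (nat_lit 516181) (nat_lit 15) (.e (nat_lit 475212) (nat_lit 42) .nil))))) .nil)))) (.nd (nat_lit 5) (.nd (nat_lit 6) 
(.lf (nat_lit 214296) (.g (nat_lit 3207) (.e (nat_lit 90159) (nat_lit 11) (.e (nat_lit 24607) (nat_lit 3) (.e (nat_lit 98313) (nat_lit 9) (.e (nat_lit 336004) (nat_lit 2) (.e (nat_lit 90158) (nat_lit 11) (.e (nat_lit 24604) (nat_lit 2) .nil)))))) (.g (nat_lit 0) .nil .nil))) 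
(.lf (nat_lit 214360) (.g (nat_lit 1414) (.e (nat_lit 90159) (nat_lit 11) (.e (nat_lit 24639) (nat_lit 10) (.e (nat_lit 344117) (nat_lit 21) (.e (nat_lit 516180) (nat_lit 15) (.e (nat_lit 475212) (nat_lit 42) .nil))))) .nil))) (.nd (nat_lit 6) 
(.lf (nat_lit 214328) (.g (nat_lit 1657) (.e (nat_lit 90159) (nat_lit 11) (.e (nat_lit 24627) (nat_lit 9) (.e (nat_lit 336454) (nat_lit 34) (.e (nat_lit 483364) (nat_lit 18) (.e (nat_lit 57853) (nat_lit 252) .nil))))) .nil)) 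
(.lf (nat_lit 214392) (.g (nat_lit 2109) (.e (nat_lit 90159) (nat_lit 11) (.e (nat_lit 24660) (nat_lit 13) (.e (nat_lit 393229) (nat_lit 9) (.e (nat_lit 335994) (nat_lit 1) (.e (nat_lit 57848) (nat_lit 252) (.e (nat_lit 57372) (nat_lit 2) .nil)))))) (.g (nat_lit 4) .nil .nil))))))) (.nd (nat_lit 3) (.nd (nat_lit 4) (.nd (nat_lit 5) (.nd (nat_lit 6) 
(.lf (nat_lit 214276) (.g (nat_lit 3208) (.e (nat_lit 90158) (nat_lit 11) (.e (nat_lit 24665) (nat_lit 14) (.e (nat_lit 401414) (nat_lit 0) (.e (nat_lit 3272) (nat_lit 199) .nil)))) .nil)) 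
(.lf (nat_lit 214340) (.g (nat_lit 1810) (.e (nat_lit 90159) (nat_lit 11) (.e (nat_lit 24628) (nat_lit 9) (.e (nat_lit 336019) (nat_lit 3) (.e (nat_lit 98386) (nat_lit 32) (.e (nat_lit 483072) (nat_lit 42) .nil))))) .nil))) (.nd (nat_lit 6) 
(.lf (nat_lit 214308) (.g (nat_lit 3030) (.e (nat_lit 90159) (nat_lit 11) (.e (nat_lit 24607) (nat_lit 3) (.e (nat_lit 98342) (nat_lit 20) (.e (nat_lit 221212) (nat_lit 22) (.e (nat_lit 196626) (nat_lit 9) (.e (nat_lit 1183) (nat_lit 87) (.e (nat_lit 57848) (nat_lit 252) (.e (nat_lit 57372) (nat_lit 2) .nil)))))))) (.g (nat_lit 4) .nil .nil))) 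
(.lf (nat_lit 214372) (.g (nat_lit 842) (.e (nat_lit 90159) (nat_lit 11) (.e (nat_lit 24640) (nat_lit 10) (.e (nat_lit 344118) (nat_lit 21) .nil))) .nil)))) (.nd (nat_lit 5) (.nd (nat_lit 6) 
(.lf (nat_lit 214292) (.g (nat_lit 536) (.e (nat_lit 90159) (nat_lit 11) (.e (nat_lit 24580) (nat_lit 0) (.e (nat_lit 6514) (nat_lit 346) .nil))) .nil)) 
(.lf (nat_lit 214356) (.g (nat_lit 2951) (.e (nat_lit 90159) (nat_lit 11) (.e (nat_lit 24639) (nat_lit 10) (.e (nat_lit 344117) (nat_lit 21) (.e (nat_lit 516145) (nat_lit 9) (.e (nat_lit 426449) (nat_lit 20) .nil))))) .nil))) (.nd (nat_lit 6) 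
(.lf (nat_lit 214324) (.g (nat_lit 2635) (.e (nat_lit 90159) (nat_lit 11) (.e (nat_lit 24627) (nat_lit 9) (.e (nat_lit 336400) (nat_lit 27) (.e (nat_lit 426500) (nat_lit 27) (.e (nat_lit 335995) (nat_lit 1) (.e (nat_lit 57848) (nat_lit 252) (.e (nat_lit 57372) (nat_lit 2) .nil))))))) (.g (nat_lit 7) .nil .nil))) 
(.lf (nat_lit 214388) (.g (nat_lit 1213) (.e (nat_lit 90159) (nat_lit 11) (.e (nat_lit 24657) (nat_lit 13) (.e (nat_lit 393229) (nat_lit 9) (.e (nat_lit 343808) (nat_lit 1) .nil)))) .nil))))) (.nd (nat_lit 4) (.nd (nat_lit 5) (.nd (nat_lit 6) 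
(.lf (nat_lit 214284) (.g (nat_lit 1449) (.e (nat_lit 90158) (nat_lit 11) (.e (nat_lit 24665) (nat_lit 14) (.e (nat_lit 401463) (nat_lit 15) .nil))) .nil)) 
(.lf (nat_lit 214348) (.g (nat_lit 1825) (.e (nat_lit 90159) (nat_lit 11) (.e (nat_lit 24638) (nat_lit 9) (.e (nat_lit 336004) (nat_lit 2) (.e (nat_lit 90185) (nat_lit 17) (.e (nat_lit 245504) (nat_lit 20) .nil))))) .nil))) (.nd (nat_lit 6) 
(.lf (nat_lit 214316) (.g (nat_lit 2432) (.e (nat_lit 90159) (nat_lit 11) (.e (nat_lit 24624) (nat_lit 9) (.e (nat_lit 336454) (nat_lit 34) (.e (nat_lit 483366) (nat_lit 18) (.e (nat_lit 57854) (nat_lit 252) .nil))))) .nil)) 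
(.lf (nat_lit 214380) (.g (nat_lit 1332) (.e (nat_lit 90159) (nat_lit 11) (.e (nat_lit 24657) (nat_lit 13) (.e (nat_lit 393229) (nat_lit 9) (.e (nat_lit 335985) (nat_lit 1) .nil)))) .nil)))) (.nd (nat_lit 5) (.nd (nat_lit 6) 
(.lf (nat_lit 214300) (.g (nat_lit 2833) (.e (nat_lit 90159) (nat_lit 11) (.e (nat_lit 24607) (nat_lit 3) (.e (nat_lit 98317) (nat_lit 9) (.e (nat_lit 336002) (nat_lit 2) (.e (nat_lit 90158) (nat_lit 11) (.e (nat_lit 24604) (nat_lit 2) .nil)))))) (.g (nat_lit 6) .nil .nil))) 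
(.lf (nat_lit 214364) (.g (nat_lit 1574) (.e (nat_lit 90159) (nat_lit 11) (.e (nat_lit 24640) (nat_lit 10) (.e (nat_lit 344117) (nat_lit 21) (.e (nat_lit 516145) (nat_lit 9) .nil)))) .nil))) (.nd (nat_lit 6) 
(.lf (nat_lit 214332) (.g (nat_lit 1138) (.e (nat_lit 90159) (nat_lit 11) (.e (nat_lit 24628) (nat_lit 9) (.e (nat_lit 336019) (nat_lit 3) (.e (nat_lit 98356) (nat_lit 26) .nil)))) .nil)) 
(.lf (nat_lit 214396) (.g (nat_lit 1331) (.e (nat_lit 90159) (nat_lit 11) (.e (nat_lit 24662) (nat_lit 14) (.e (nat_lit 401463) (nat_lit 15) .nil))) .nil))))))) (.nd (nat_lit 2) (.nd (nat_lit 3) (.nd (nat_lit 4) (.nd (nat_lit 5) (.nd (nat_lit 6) 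
(.lf (nat_lit 214274) (.g (nat_lit 2990) (.e (nat_lit 90158) (nat_lit 11) (.e (nat_lit 24665) (nat_lit 14) (.e (nat_lit 401414) (nat_lit 0) (.e (nat_lit 3238) (nat_lit 197) .nil)))) .nil)) 
(.lf (nat_lit 214338) (.g (nat_lit 2110) (.e (nat_lit 90159) (nat_lit 11) (.e (nat_lit 24628) (nat_lit 9) (.e (nat_lit 336019) (nat_lit 3) (.e (nat_lit 98384) (nat_lit 32) (.e (nat_lit 483072) (nat_lit 42) .nil))))) .nil))) (.nd (nat_lit 6) 
(.lf (nat_lit 214306) (.g (nat_lit 1441) (.e (nat_lit 90159) (nat_lit 11) (.e (nat_lit 24607) (nat_lit 3) (.e (nat_lit 98317) (nat_lit 9) (.e (nat_lit 343808) (nat_lit 3) .nil)))) .nil)) 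
(.lf (nat_lit 214370) (.g (nat_lit 2263) (.e (nat_lit 90159) (nat_lit 11) (.e (nat_lit 24640) (nat_lit 10) (.e (nat_lit 344117) (nat_lit 21) (.e (nat_lit 516179) (nat_lit 15) (.e (nat_lit 475214) (nat_lit 42) .nil))))) .nil)))) (.nd (nat_lit 5) (.nd (nat_lit 6) 
(.lf (nat_lit 214290) (.g (nat_lit 1164) (.e (nat_lit 90159) (nat_lit 11) (.e (nat_lit 24580) (nat_lit 0) (.e (nat_lit 6436) (nat_lit 343) (.e (nat_lit 1256) (nat_lit 92) (.e (nat_lit 98385) (nat_lit 32) .nil))))) .nil)) 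
(.lf (nat_lit 214354) (.g (nat_lit 2002) (.e (nat_lit 90159) (nat_lit 11) (.e (nat_lit 24638) (nat_lit 9) (.e (nat_lit 336027) (nat_lit 3) (.e (nat_lit 98363) (nat_lit 26) (.e (nat_lit 426447) (nat_lit 20) .nil))))) .nil))) (.nd (nat_lit 6) 
(.lf (nat_lit 214322) (.g (nat_lit 1393) (.e (nat_lit 90159) (nat_lit 11) (.e (nat_lit 24627) (nat_lit 9) (.e (nat_lit 336019) (nat_lit 3) (.e (nat_lit 98386) (nat_lit 32) .nil)))) .nil)) 
(.lf (nat_lit 214386) (.g (nat_lit 3746) (.e (nat_lit 90159) (nat_lit 11) (.e (nat_lit 24657) (nat_lit 13) (.e (nat_lit 393229) (nat_lit 9) (.e (nat_lit 335995) (nat_lit 1) (.e (nat_lit 57848) (nat_lit 252) (.e (nat_lit 57372) (nat_lit 2) .nil)))))) (.g (nat_lit 0) .nil .nil)))))) (.nd (nat_lit 4) (.nd (nat_lit 5) (.nd (nat_lit 6) 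
(.lf (nat_lit 214282) (.g (nat_lit 2681) (.e (nat_lit 90158) (nat_lit 11) (.e (nat_lit 24665) (nat_lit 14) (.e (nat_lit 401427) (nat_lit 3) (.e (nat_lit 204880) (nat_lit 32) .nil)))) .nil)) 
(.lf (nat_lit 214346) (.g (nat_lit 1799) (.e (nat_lit 90159) (nat_lit 11) (.e (nat_lit 24638) (nat_lit 9) (.e (nat_lit 336004) (nat_lit 2) (.e (nat_lit 90167) (nat_lit 13) (.e (nat_lit 179968) (nat_lit 20) .nil))))) .nil))) (.nd (nat_lit 6) 
(.lf (nat_lit 214314) (.g (nat_lit 2919) (.e (nat_lit 90159) (nat_lit 11) (.e (nat_lit 24623) (nat_lit 9) (.e (nat_lit 336013) (nat_lit 2) (.e (nat_lit 90170) (nat_lit 13) (.e (nat_lit 179968) (nat_lit 20) (.e (nat_lit 114714) (nat_lit 22) .nil)))))) (.g (nat_lit 4) .nil .nil))) 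
(.lf (nat_lit 214378) (.g (nat_lit 891) (.e (nat_lit 90159) (nat_lit 11) (.e (nat_lit 24655) (nat_lit 13) (.e (nat_lit 393228) (nat_lit 9) .nil))) .nil)))) (.nd (nat_lit 5) (.nd (nat_lit 6) 
(.lf (nat_lit 214298) (.g (nat_lit 2436) (.e (nat_lit 90159) (nat_lit 11) (.e (nat_lit 24607) (nat_lit 3) (.e (nat_lit 98315) (nat_lit 9) (.e (nat_lit 336017) (nat_lit 3) (.e (nat_lit 98313) (nat_lit 9) (.e (nat_lit 336012) (nat_lit 2) .nil)))))) (.g (nat_lit 0) .nil .nil))) 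
(.lf (nat_lit 214362) (.g (nat_lit 1832) (.e (nat_lit 90159) (nat_lit 11) (.e (nat_lit 24640) (nat_lit 10) (.e (nat_lit 344117) (nat_lit 21) (.e (nat_lit 516144) (nat_lit 9) .nil)))) .nil))) (.nd (nat_lit 6) 
(.lf (nat_lit 214330) (.g (nat_lit 1370) (.e (nat_lit 90159) (nat_lit 11) (.e (nat_lit 24627) (nat_lit 9) (.e (nat_lit 336455) (nat_lit 34) (.e (nat_lit 483366) (nat_lit 18) (.e (nat_lit 57854) (nat_lit 252) .nil))))) .nil)) 
(.lf (nat_lit 214394) (.g (nat_lit 1972) (.e (nat_lit 90159) (nat_lit 11) (.e (nat_lit 24662) (nat_lit 14) (.e (nat_lit 401428) (nat_lit 3) .nil))) .nil)))))) (.nd (nat_lit 3) (.nd (nat_lit 4) (.nd (nat_lit 5) (.nd (nat_lit 6) 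
(.lf (nat_lit 214278) (.g (nat_lit 3090) (.e (nat_lit 90158) (nat_lit 11) (.e (nat_lit 24665) (nat_lit 14) (.e (nat_lit 401414) (nat_lit 0) (.e (nat_lit 3579) (nat_lit 223) .nil)))) .nil)) 
(.lf (nat_lit 214342) (.g (nat_lit 1743) (.e (nat_lit 90159) (nat_lit 11) (.e (nat_lit 24630) (nat_lit 9) (.e (nat_lit 336369) (nat_lit 27) (.e (nat_lit 426498) (nat_lit 27) .nil)))) .nil))) (.nd (nat_lit 6) 
(.lf (nat_lit 214310) (.g (nat_lit 641) (.e (nat_lit 90159) (nat_lit 11) (.e (nat_lit 24608) (nat_lit 3) (.e (nat_lit 98313) (nat_lit 9) .nil))) .nil)) 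
(.lf (nat_lit 214374) (.g (nat_lit 813) (.e (nat_lit 90159) (nat_lit 11) (.e (nat_lit 24641) (nat_lit 10) (.e (nat_lit 344119) (nat_lit 21) (.e (nat_lit 516180) (nat_lit 15) .nil)))) .nil)))) (.nd (nat_lit 5) (.nd (nat_lit 6) 
(.lf (nat_lit 214294) (.g (nat_lit 2704) (.e (nat_lit 90159) (nat_lit 11) (.e (nat_lit 24602) (nat_lit 2) (.e (nat_lit 90158) (nat_lit 11) (.e (nat_lit 24608) (nat_lit 3) (.e (nat_lit 98313) (nat_lit 9) (.e (nat_lit 336012) (nat_lit 2) .nil)))))) (.g (nat_lit 0) .nil .nil))) 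
(.lf (nat_lit 214358) (.g (nat_lit 2078) (.e (nat_lit 90159) (nat_lit 11) (.e (nat_lit 24639) (nat_lit 10) (.e (nat_lit 344117) (nat_lit 21) (.e (nat_lit 516151) (nat_lit 9) (.e (nat_lit 433920) (nat_lit 20) .nil))))) .nil))) (.nd (nat_lit 6) 
(.lf (nat_lit 214326) (.g (nat_lit 1204) (.e (nat_lit 90159) (nat_lit 11) (.e (nat_lit 24627) (nat_lit 9) (.e (nat_lit 336418) (nat_lit 27) (.e (nat_lit 426500) (nat_lit 27) .nil)))) .nil)) 
(.lf (nat_lit 214390) (.g (nat_lit 258) (.e (nat_lit 90159) (nat_lit 11) (.e (nat_lit 24657) (nat_lit 13) (.e (nat_lit 401152) (nat_lit 10) .nil))) .nil))))) (.nd (nat_lit 4) (.nd (nat_lit 5) (.nd (nat_lit 6) 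
(.lf (nat_lit 214286) (.g (nat_lit 2081) (.e (nat_lit 90158) (nat_lit 11) (.e (nat_lit 24665) (nat_lit 14) (.e (nat_lit 401463) (nat_lit 15) (.e (nat_lit 1859) (nat_lit 124) .nil)))) .nil)) 
(.lf (nat_lit 214350) (.g (nat_lit 1557) (.e (nat_lit 90159) (nat_lit 11) (.e (nat_lit 24638) (nat_lit 9) (.e (nat_lit 336012) (nat_lit 2) (.e (nat_lit 90168) (nat_lit 13) .nil)))) .nil))) (.nd (nat_lit 6) 
(.lf (nat_lit 214318) (.g (nat_lit 589) (.e (nat_lit 90159) (nat_lit 11) (.e (nat_lit 24627) (nat_lit 9) (.e (nat_lit 336019) (nat_lit 3) .nil))) .nil)) 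
(.lf (nat_lit 214382) (.g (nat_lit 1391) (.e (nat_lit 90159) (nat_lit 11) (.e (nat_lit 24657) (nat_lit 13) (.e (nat_lit 393229) (nat_lit 9) (.e (nat_lit 335987) (nat_lit 1) .nil)))) .nil)))) (.nd (nat_lit 5) (.nd (nat_lit 6) 
(.lf (nat_lit 214302) (.g (nat_lit 2669) (.e (nat_lit 90159) (nat_lit 11) (.e (nat_lit 24607) (nat_lit 3) (.e (nat_lit 98317) (nat_lit 9) (.e (nat_lit 336010) (nat_lit 2) (.e (nat_lit 90158) (nat_lit 11) (.e (nat_lit 24604) (nat_lit 2) .nil)))))) (.g (nat_lit 6) .nil .nil))) 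
(.lf (nat_lit 214366) (.g (nat_lit 2368) (.e (nat_lit 90159) (nat_lit 11) (.e (nat_lit 24640) (nat_lit 10) (.e (nat_lit 344117) (nat_lit 21) (.e (nat_lit 516145) (nat_lit 9) (.e (nat_lit 433920) (nat_lit 20) .nil))))) .nil))) (.nd (nat_lit 6) 
(.lf (nat_lit 214334) (.g (nat_lit 2170) (.e (nat_lit 90159) (nat_lit 11) (.e (nat_lit 24628) (nat_lit 9) (.e (nat_lit 336019) (nat_lit 3) (.e (nat_lit 98356) (nat_lit 26) (.e (nat_lit 426361) (nat_lit 15) (.e (nat_lit 2203) (nat_lit 144) (.e (nat_lit 720938) (nat_lit 22) .nil))))))) (.g (nat_lit 4) .nil .nil))) 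
(.lf (nat_lit 214398) (.g (nat_lit 3708) (.e (nat_lit 90159) (nat_lit 11) (.e (nat_lit 24664) (nat_lit 14) (.e (nat_lit 401463) (nat_lit 15) (.e (nat_lit 1858) (nat_lit 124) (.e (nat_lit 557100) (nat_lit 13) (.e (nat_lit 179968) (nat_lit 20) (.e (nat_lit 114716) (nat_lit 22) .nil))))))) (.g (nat_lit 5) .nil .nil))))))))) 
(.nd (nat_lit 1) (.nd (nat_lit 2) (.nd (nat_lit 3) (.nd (nat_lit 4) (.nd (nat_lit 5) 
(.nd (nat_lit 6) 
(.lf (nat_lit 214273) (.g (nat_lit 1374) (.e (nat_lit 90158) (nat_lit 11) (.e (nat_lit 24665) (nat_lit 14) (.e (nat_lit 401414) (nat_lit 0) .nil))) .nil)) 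
(.lf (nat_lit 214337) (.g (nat_lit 1748) (.e (nat_lit 90159) (nat_lit 11) (.e (nat_lit 24628) (nat_lit 9) (.e (nat_lit 336019) (nat_lit 3) (.e (nat_lit 98384) (nat_lit 32) (.e (nat_lit 475214) (nat_lit 42) .nil))))) .nil))) (.nd (nat_lit 6) 
(.lf (nat_lit 214305) (.g (nat_lit 2918) (.e (nat_lit 90159) (nat_lit 11) (.e (nat_lit 24607) (nat_lit 3) (.e (nat_lit 98317) (nat_lit 9) (.e (nat_lit 336027) (nat_lit 3) (.e (nat_lit 98313) (nat_lit 9) (.e (nat_lit 336012) (nat_lit 2) .nil)))))) (.g (nat_lit 0) .nil .nil))) 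
(.lf (nat_lit 214369) (.g (nat_lit 2645) (.e (nat_lit 90159) (nat_lit 11) (.e (nat_lit 24640) (nat_lit 10) (.e (nat_lit 344117) (nat_lit 21) (.e (nat_lit 516179) (nat_lit 15) (.e (nat_lit 475212) (nat_lit 42) .nil))))) .nil)))) (.nd (nat_lit 5) (.nd (nat_lit 6) 
(.lf (nat_lit 214289) (.g (nat_lit 1207) (.e (nat_lit 90159) (nat_lit 11) (.e (nat_lit 24580) (nat_lit 0) (.e (nat_lit 6203) (nat_lit 332) (.e (nat_lit 2569) (nat_lit 160) .nil)))) .nil)) 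
(.lf (nat_lit 214353) (.g (nat_lit 519) (.e (nat_lit 90159) (nat_lit 11) (.e (nat_lit 24638) (nat_lit 9) (.e (nat_lit 336027) (nat_lit 3) .nil))) .nil))) (.nd (nat_lit 6) 
(.lf (nat_lit 214321) (.g (nat_lit 1417) (.e (nat_lit 90159) (nat_lit 11) (.e (nat_lit 24627) (nat_lit 9) (.e (nat_lit 336019) (nat_lit 3) (.e (nat_lit 98385) (nat_lit 32) .nil)))) .nil)) 
(.lf (nat_lit 214385) (.g (nat_lit 4182) (.e (nat_lit 90159) (nat_lit 11) (.e (nat_lit 24657) (nat_lit 13) (.e (nat_lit 393229) (nat_lit 9) (.e (nat_lit 335994) (nat_lit 1) (.e (nat_lit 57844) (nat_lit 252) .nil))))) .nil))))) (.nd (nat_lit 4) (.nd (nat_lit 5) (.nd (nat_lit 6) 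
(.lf (nat_lit 214281) (.g (nat_lit 4205) (.e (nat_lit 90158) (nat_lit 11) (.e (nat_lit 24665) (nat_lit 14) (.e (nat_lit 401426) (nat_lit 3) (.e (nat_lit 204880) (nat_lit 32) (.e (nat_lit 392960) (nat_lit 42) (.e (nat_lit 720941) (nat_lit 22) .nil)))))) (.g (nat_lit 4) .nil .nil))) 
(.lf (nat_lit 214345) (.g (nat_lit 491) (.e (nat_lit 90159) (nat_lit 11) (.e (nat_lit 24638) (nat_lit 9) (.e (nat_lit 336002) (nat_lit 2) .nil))) .nil))) (.nd (nat_lit 6) 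
(.lf (nat_lit 214313) (.g (nat_lit 2622) (.e (nat_lit 90159) (nat_lit 11) (.e (nat_lit 24623) (nat_lit 9) (.e (nat_lit 336013) (nat_lit 2) (.e (nat_lit 90170) (nat_lit 13) (.e (nat_lit 179968) (nat_lit 20) .nil))))) .nil)) 
(.lf (nat_lit 214377) (.g (nat_lit 1328) (.e (nat_lit 90159) (nat_lit 11) (.e (nat_lit 24646) (nat_lit 11) (.e (nat_lit 368676) (nat_lit 21) (.e (nat_lit 516182) (nat_lit 15) .nil)))) .nil)))) (.nd (nat_lit 5) (.nd (nat_lit 6) 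
(.lf (nat_lit 214297) (.g (nat_lit 3316) (.e (nat_lit 90159) (nat_lit 11) (.e (nat_lit 24607) (nat_lit 3) (.e (nat_lit 98313) (nat_lit 9) (.e (nat_lit 336012) (nat_lit 2) (.e (nat_lit 90158) (nat_lit 11) (.e (nat_lit 24604) (nat_lit 2) .nil)))))) (.g (nat_lit 0) .nil .nil))) 
(.lf (nat_lit 214361) (.g (nat_lit 1887) (.e (nat_lit 90159) (nat_lit 11) (.e (nat_lit 24640) (nat_lit 10) (.e (nat_lit 344117) (nat_lit 21) (.e (nat_lit 516143) (nat_lit 9) .nil)))) .nil))) (.nd (nat_lit 6) 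
(.lf (nat_lit 214329) (.g (nat_lit 2592) (.e (nat_lit 90159) (nat_lit 11) (.e (nat_lit 24627) (nat_lit 9) (.e (nat_lit 336454) (nat_lit 34) (.e (nat_lit 483365) (nat_lit 18) (.e (nat_lit 57830) (nat_lit 250) (.e (nat_lit 999) (nat_lit 81) (.e (nat_lit 1239) (nat_lit 91) .nil))))))) (.g (nat_lit 4) .nil .nil))) 
(.lf (nat_lit 214393) (.g (nat_lit 2211) (.e (nat_lit 90159) (nat_lit 11) (.e (nat_lit 24662) (nat_lit 14) (.e (nat_lit 401425) (nat_lit 2) .nil))) .nil)))))) (.nd (nat_lit 3) (.nd (nat_lit 4) (.nd (nat_lit 5) (.nd (nat_lit 6) 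
(.lf (nat_lit 214277) (.g (nat_lit 2993) (.e (nat_lit 90158) (nat_lit 11) (.e (nat_lit 24665) (nat_lit 14) (.e (nat_lit 401414) (nat_lit 0) (.e (nat_lit 3297) (nat_lit 202) .nil)))) .nil)) 
(.lf (nat_lit 214341) (.g (nat_lit 2403) (.e (nat_lit 90159) (nat_lit 11) (.e (nat_lit 24629) (nat_lit 9) (.e (nat_lit 336454) (nat_lit 34) (.e (nat_lit 483366) (nat_lit 18) (.e (nat_lit 57848) (nat_lit 252) .nil))))) .nil))) (.nd (nat_lit 6) 
(.lf (nat_lit 214309) (.g (nat_lit 3029) (.e (nat_lit 90159) (nat_lit 11) (.e (nat_lit 24607) (nat_lit 3) (.e (nat_lit 98342) (nat_lit 20) (.e (nat_lit 221212) (nat_lit 22) (.e (nat_lit 196626) (nat_lit 9) (.e (nat_lit 1183) (nat_lit 87) (.e (nat_lit 57848) (nat_lit 252) (.e (nat_lit 57375) (nat_lit 2) .nil)))))))) (.g (nat_lit 4) .nil .nil))) 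
(.lf (nat_lit 214373) (.g (nat_lit 499) (.e (nat_lit 90159) (nat_lit 11) (.e (nat_lit 24641) (nat_lit 10) (.e (nat_lit 344119) (nat_lit 21) .nil))) .nil)))) (.nd (nat_lit 5) (.nd (nat_lit 6) 
(.lf (nat_lit 214293) (.g (nat_lit 2835) (.e (nat_lit 90159) (nat_lit 11) (.e (nat_lit 24602) (nat_lit 2) (.e (nat_lit 90158) (nat_lit 11) (.e (nat_lit 24607) (nat_lit 3) (.e (nat_lit 98313) (nat_lit 9) (.e (nat_lit 336012) (nat_lit 2) .nil)))))) (.g (nat_lit 0) .nil .nil))) 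
(.lf (nat_lit 214357) (.g (nat_lit 1162) (.e (nat_lit 90159) (nat_lit 11) (.e (nat_lit 24639) (nat_lit 10) (.e (nat_lit 344117) (nat_lit 21) (.e (nat_lit 516147) (nat_lit 9) .nil)))) .nil))) (.nd (nat_lit 6) 
(.lf (nat_lit 214325) (.g (nat_lit 2519) (.e (nat_lit 90159) (nat_lit 11) (.e (nat_lit 24627) (nat_lit 9) (.e (nat_lit 336400) (nat_lit 27) (.e (nat_lit 426500) (nat_lit 27) (.e (nat_lit 335995) (nat_lit 1) (.e (nat_lit 57848) (nat_lit 252) (.e (nat_lit 57375) (nat_lit 2) .nil))))))) (.g (nat_lit 7) .nil .nil))) 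
(.lf (nat_lit 214389) (.g (nat_lit 1213) (.e (nat_lit 90159) (nat_lit 11) (.e (nat_lit 24657) (nat_lit 13) (.e (nat_lit 393229) (nat_lit 9) (.e (nat_lit 343808) (nat_lit 20) .nil)))) .nil))))) (.nd (nat_lit 4) (.nd (nat_lit 5) (.nd (nat_lit 6) 
(.lf (nat_lit 214285) (.g (nat_lit 2089) (.e (nat_lit 90158) (nat_lit 11) (.e (nat_lit 24665) (nat_lit 14) (.e (nat_lit 401463) (nat_lit 15) (.e (nat_lit 1855) (nat_lit 124) .nil)))) .nil)) 
(.lf (nat_lit 214349) (.g (nat_lit 1600) (.e (nat_lit 90159) (nat_lit 11) (.e (nat_lit 24638) (nat_lit 9) (.e (nat_lit 336012) (nat_lit 2) (.e (nat_lit 90167) (nat_lit 13) .nil)))) .nil))) (.nd (nat_lit 6) 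
(.lf (nat_lit 214317) (.g (nat_lit 1823) (.e (nat_lit 90159) (nat_lit 11) (.e (nat_lit 24625) (nat_lit 9) (.e (nat_lit 336456) (nat_lit 34) (.e (nat_lit 483366) (nat_lit 18) .nil)))) .nil)) 
(.lf (nat_lit 214381) (.g (nat_lit 3597) (.e (nat_lit 90159) (nat_lit 11) (.e (nat_lit 24657) (nat_lit 13) (.e (nat_lit 393229) (nat_lit 9) (.e (nat_lit 335986) (nat_lit 1) (.e (nat_lit 57844) (nat_lit 252) (.e (nat_lit 57371) (nat_lit 2) .nil)))))) (.g (nat_lit 5) .nil .nil))))) (.nd (nat_lit 5) (.nd (nat_lit 6) 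
(.lf (nat_lit 214301) (.g (nat_lit 908) (.e (nat_lit 90159) (nat_lit 11) (.e (nat_lit 24607) (nat_lit 3) (.e (nat_lit 98317) (nat_lit 9) (.e (nat_lit 336004) (nat_lit 2) .nil)))) .nil)) 
(.lf (nat_lit 214365) (.g (nat_lit 2747) (.e (nat_lit 90159) (nat_lit 11) (.e (nat_lit 24640) (nat_lit 10) (.e (nat_lit 344117) (nat_lit 21) (.e (nat_lit 516145) (nat_lit 9) (.e (nat_lit 426361) (nat_lit 15) .nil))))) .nil))) (.nd (nat_lit 6) 
(.lf (nat_lit 214333) (.g (nat_lit 1976) (.e (nat_lit 90159) (nat_lit 11) (.e (nat_lit 24628) (nat_lit 9) (.e (nat_lit 336019) (nat_lit 3) (.e (nat_lit 98356) (nat_lit 26) (.e (nat_lit 426361) (nat_lit 15) .nil))))) .nil)) 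
(.lf (nat_lit 214397) (.g (nat_lit 2046) (.e (nat_lit 90159) (nat_lit 11) (.e (nat_lit 24662) (nat_lit 14) (.e (nat_lit 401463) (nat_lit 15) (.e (nat_lit 1858) (nat_lit 124) .nil)))) .nil))))))) (.nd (nat_lit 2) (.nd (nat_lit 3) (.nd (nat_lit 4) (.nd (nat_lit 5) (.nd (nat_lit 6) 
(.lf (nat_lit 214275) (.g (nat_lit 3172) (.e (nat_lit 90158) (nat_lit 11) (.e (nat_lit 24665) (nat_lit 14) (.e (nat_lit 401414) (nat_lit 0) (.e (nat_lit 3270) (nat_lit 199) .nil)))) .nil)) 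
(.lf (nat_lit 214339) (.g (nat_lit 1247) (.e (nat_lit 90159) (nat_lit 11) (.e (nat_lit 24628) (nat_lit 9) (.e (nat_lit 336019) (nat_lit 3) (.e (nat_lit 98386) (nat_lit 32) .nil)))) .nil))) (.nd (nat_lit 6) 
(.lf (nat_lit 214307) (.g (nat_lit 665) (.e (nat_lit 90159) (nat_lit 11) (.e (nat_lit 24607) (nat_lit 3) (.e (nat_lit 98342) (nat_lit 20) .nil))) .nil)) 
(.lf (nat_lit 214371) (.g (nat_lit 1675) (.e (nat_lit 90159) (nat_lit 11) (.e (nat_lit 24640) (nat_lit 10) (.e (nat_lit 344117) (nat_lit 21) (.e (nat_lit 516180) (nat_lit 15) .nil)))) .nil)))) (.nd (nat_lit 5) (.nd (nat_lit 6) 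
(.lf (nat_lit 214291) (.g (nat_lit 1240) (.e (nat_lit 90159) (nat_lit 11) (.e (nat_lit 24580) (nat_lit 0) (.e (nat_lit 6513) (nat_lit 346) (.e (nat_lit 57464) (nat_lit 23) (.e (nat_lit 516147) (nat_lit 9) .nil))))) .nil)) 
(.lf (nat_lit 214355) (.g (nat_lit 2996) (.e (nat_lit 90159) (nat_lit 11) (.e (nat_lit 24639) (nat_lit 10) (.e (nat_lit 344117) (nat_lit 21) (.e (nat_lit 516145) (nat_lit 9) (.e (nat_lit 426446) (nat_lit 20) .nil))))) .nil))) (.nd (nat_lit 6) 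
(.lf (nat_lit 214323) (.g (nat_lit 1615) (.e (nat_lit 90159) (nat_lit 11) (.e (nat_lit 24627) (nat_lit 9) (.e (nat_lit 336372) (nat_lit 27) (.e (nat_lit 426482) (nat_lit 27) (.e (nat_lit 335997) (nat_lit 1) .nil))))) .nil)) 
(.lf (nat_lit 214387) (.g (nat_lit 3655) (.e (nat_lit 90159) (nat_lit 11) (.e (nat_lit 24657) (nat_lit 13) (.e (nat_lit 393229) (nat_lit 9) (.e (nat_lit 335995) (nat_lit 1) (.e (nat_lit 57848) (nat_lit 252) (.e (nat_lit 57375) (nat_lit 2) .nil)))))) (.g (nat_lit 0) .nil .nil)))))) (.nd (nat_lit 4) (.nd (nat_lit 5) (.nd (nat_lit 6) 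
(.lf (nat_lit 214283) (.g (nat_lit 1406) (.e (nat_lit 90158) (nat_lit 11) (.e (nat_lit 24665) (nat_lit 14) (.e (nat_lit 409344) (nat_lit 3) .nil))) .nil)) 
(.lf (nat_lit 214347) (.g (nat_lit 1451) (.e (nat_lit 90159) (nat_lit 11) (.e (nat_lit 24638) (nat_lit 9) (.e (nat_lit 336004) (nat_lit 2) (.e (nat_lit 90169) (nat_lit 13) .nil)))) .nil))) (.nd (nat_lit 6) 
(.lf (nat_lit 214315) (.g (nat_lit 1974) (.e (nat_lit 90159) (nat_lit 11) (.e (nat_lit 24623) (nat_lit 9) (.e (nat_lit 336028) (nat_lit 3) (.e (nat_lit 98359) (nat_lit 26) (.e (nat_lit 433920) (nat_lit 20) .nil))))) .nil)) 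
(.lf (nat_lit 214379) (.g (nat_lit 1102) (.e (nat_lit 90159) (nat_lit 11) (.e (nat_lit 24657) (nat_lit 13) (.e (nat_lit 393228) (nat_lit 9) (.e (nat_lit 335994) (nat_lit 1) (.e (nat_lit 57848) (nat_lit 252) .nil))))) .nil)))) (.nd (nat_lit 5) (.nd (nat_lit 6) 
(.lf (nat_lit 214299) (.g (nat_lit 1441) (.e (nat_lit 90159) (nat_lit 11) (.e (nat_lit 24607) (nat_lit 3) (.e (nat_lit 98317) (nat_lit 9) (.e (nat_lit 335917) (nat_lit 0) .nil)))) .nil)) 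
(.lf (nat_lit 214363) (.g (nat_lit 2243) (.e (nat_lit 90159) (nat_lit 11) (.e (nat_lit 24640) (nat_lit 10) (.e (nat_lit 344117) (nat_lit 21) (.e (nat_lit 516144) (nat_lit 9) (.e (nat_lit 426448) (nat_lit 20) .nil))))) .nil))) (.nd (nat_lit 6) 
(.lf (nat_lit 214331) (.g (nat_lit 1681) (.e (nat_lit 90159) (nat_lit 11) (.e (nat_lit 24628) (nat_lit 9) (.e (nat_lit 336019) (nat_lit 3) (.e (nat_lit 98354) (nat_lit 26) .nil)))) .nil)) 
(.lf (nat_lit 214395) (.g (nat_lit 3836) (.e (nat_lit 90159) (nat_lit 11) (.e (nat_lit 24662) (nat_lit 14) (.e (nat_lit 401428) (nat_lit 3) (.e (nat_lit 204880) (nat_lit 32) .nil)))) .nil)))))) (.nd (nat_lit 3) (.nd (nat_lit 4) (.nd (nat_lit 5) (.nd (nat_lit 6) 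
(.lf (nat_lit 214279) (.g (nat_lit 1469) (.e (nat_lit 90158) (nat_lit 11) (.e (nat_lit 24665) (nat_lit 14) (.e (nat_lit 401426) (nat_lit 3) .nil))) .nil)) 
(.lf (nat_lit 214343) (.g (nat_lit 1428) (.e (nat_lit 90159) (nat_lit 11) (.e (nat_lit 24632) (nat_lit 9) (.e (nat_lit 336028) (nat_lit 3) (.e (nat_lit 98359) (nat_lit 26) (.e (nat_lit 433920) (nat_lit 20) .nil))))) .nil))) (.nd (nat_lit 6) 
(.lf (nat_lit 214311) (.g (nat_lit 670) (.e (nat_lit 90159) (nat_lit 11) (.e (nat_lit 24608) (nat_lit 3) (.e (nat_lit 98317) (nat_lit 9) .nil))) .nil)) 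
(.lf (nat_lit 214375) (.g (nat_lit 1271) (.e (nat_lit 90159) (nat_lit 11) (.e (nat_lit 24641) (nat_lit 10) (.e (nat_lit 344119) (nat_lit 21) (.e (nat_lit 516180) (nat_lit 15) (.e (nat_lit 475214) (nat_lit 42) .nil))))) .nil)))) (.nd (nat_lit 5) (.nd (nat_lit 6) 
(.lf (nat_lit 214295) (.g (nat_lit 633) (.e (nat_lit 90159) (nat_lit 11) (.e (nat_lit 24604) (nat_lit 2) (.e (nat_lit 90158) (nat_lit 11) .nil))) .nil)) 
(.lf (nat_lit 214359) (.g (nat_lit 1185) (.e (nat_lit 90159) (nat_lit 11) (.e (nat_lit 24639) (nat_lit 10) (.e (nat_lit 344117) (nat_lit 21) (.e (nat_lit 516180) (nat_lit 15) .nil)))) .nil))) (.nd (nat_lit 6) 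
(.lf (nat_lit 214327) (.g (nat_lit 1243) (.e (nat_lit 90159) (nat_lit 11) (.e (nat_lit 24627) (nat_lit 9) (.e (nat_lit 336419) (nat_lit 27) (.e (nat_lit 426500) (nat_lit 27) (.e (nat_lit 335995) (nat_lit 1) .nil))))) .nil)) 
(.lf (nat_lit 214391) (.g (nat_lit 2130) (.e (nat_lit 90159) (nat_lit 11) (.e (nat_lit 24659) (nat_lit 13) (.e (nat_lit 393229) (nat_lit 9) (.e (nat_lit 335994) (nat_lit 1) (.e (nat_lit 57854) (nat_lit 252) .nil))))) .nil))))) (.nd (nat_lit 4) (.nd (nat_lit 5) (.nd (nat_lit 6) 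
(.lf (nat_lit 214287) (.g (nat_lit 1406) (.e (nat_lit 90158) (nat_lit 11) (.e (nat_lit 24665) (nat_lit 14) (.e (nat_lit 409344) (nat_lit 27) .nil))) .nil)) 
(.lf (nat_lit 214351) (.g (nat_lit 2165) (.e (nat_lit 90159) (nat_lit 11) (.e (nat_lit 24638) (nat_lit 9) (.e (nat_lit 336012) (nat_lit 2) (.e (nat_lit 90169) (nat_lit 13) (.e (nat_lit 179968) (nat_lit 20) .nil))))) .nil))) (.nd (nat_lit 6) 
(.lf (nat_lit 214319) (.g (nat_lit 1304) (.e (nat_lit 90159) (nat_lit 11) (.e (nat_lit 24627) (nat_lit 9) (.e (nat_lit 336019) (nat_lit 3) (.e (nat_lit 98356) (nat_lit 26) .nil)))) .nil)) 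
(.lf (nat_lit 214383) (.g (nat_lit 3574) (.e (nat_lit 90159) (nat_lit 11) (.e (nat_lit 24657) (nat_lit 13) (.e (nat_lit 393229) (nat_lit 9) (.e (nat_lit 335988) (nat_lit 1) (.e (nat_lit 57844) (nat_lit 252) (.e (nat_lit 57371) (nat_lit 2) .nil)))))) (.g (nat_lit 6) .nil .nil))))) (.nd (nat_lit 5) (.nd (nat_lit 6) 
(.lf (nat_lit 214303) (.g (nat_lit 3198) (.e (nat_lit 90159) (nat_lit 11) (.e (nat_lit 24607) (nat_lit 3) (.e (nat_lit 98317) (nat_lit 9) (.e (nat_lit 336021) (nat_lit 3) (.e (nat_lit 98313) (nat_lit 9) (.e (nat_lit 336012) (nat_lit 2) .nil)))))) (.g (nat_lit 0) .nil .nil))) 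
(.lf (nat_lit 214367) (.g (nat_lit 1687) (.e (nat_lit 90159) (nat_lit 11) (.e (nat_lit 24640) (nat_lit 10) (.e (nat_lit 344117) (nat_lit 21) (.e (nat_lit 516151) (nat_lit 9) .nil)))) .nil))) (.nd (nat_lit 6) 
(.lf (nat_lit 214335) (.g (nat_lit 2078) (.e (nat_lit 90159) (nat_lit 11) (.e (nat_lit 24628) (nat_lit 9) (.e (nat_lit 336019) (nat_lit 3) (.e (nat_lit 98356) (nat_lit 26) (.e (nat_lit 433920) (nat_lit 20) .nil))))) .nil)) 
(.lf (nat_lit 214399) (.g (nat_lit 2501) (.e (nat_lit 90159) (nat_lit 11) (.e (nat_lit 24664) (nat_lit 14) (.e (nat_lit 401463) (nat_lit 15) (.e (nat_lit 1859) (nat_lit 124) (.e (nat_lit 557098) (nat_lit 13) (.e (nat_lit 179968) (nat_lit 20) (.e (nat_lit 114716) (nat_lit 22) .nil))))))) (.g (nat_lit 5) .nil .nil))))))))))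

noncomputable def tv2822 : DT := (.nd (nat_lit 0) (.nd (nat_lit 1) (.nd (nat_lit 2) (.nd (nat_lit 3) (.nd (nat_lit 4) (.nd (nat_lit 5) (.nd (nat_lit 6) 
(.lf (nat_lit 214400) (.g (nat_lit 1028) (.e (nat_lit 90159) (nat_lit 11) (.e (nat_lit 24665) (nat_lit 14) (.e (nat_lit 401414) (nat_lit 0) .nil))) .nil)) 
(.lf (nat_lit 214464) (.g (nat_lit 2042) (.e (nat_lit 90160) (nat_lit 11) (.e (nat_lit 24608) (nat_lit 3) (.e (nat_lit 98316) (nat_lit 9) (.e (nat_lit 336004) (nat_lit 2) (.e (nat_lit 90158) (nat_lit 11) (.e (nat_lit 24603) (nat_lit 2) .nil)))))) (.g (nat_lit 4) .nil .nil)))) (.nd (nat_lit 6) 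
(.lf (nat_lit 214432) (.g (nat_lit 3246) (.e (nat_lit 90160) (nat_lit 11) (.e (nat_lit 24602) (nat_lit 2) (.e (nat_lit 90158) (nat_lit 11) (.e (nat_lit 24607) (nat_lit 3) (.e (nat_lit 98313) (nat_lit 9) (.e (nat_lit 336012) (nat_lit 2) .nil)))))) (.g (nat_lit 0) .nil .nil))) 
(.lf (nat_lit 214496) (.g (nat_lit 922) (.e (nat_lit 90160) (nat_lit 11) (.e (nat_lit 24628) (nat_lit 9) (.e (nat_lit 336019) (nat_lit 3) (.e (nat_lit 98356) (nat_lit 26) .nil)))) .nil)))) (.nd (nat_lit 5) (.nd (nat_lit 6) 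
(.lf (nat_lit 214416) (.g (nat_lit 2121) (.e (nat_lit 90160) (nat_lit 11) (.e (nat_lit 24576) (nat_lit 0) (.e (nat_lit 1858) (nat_lit 124) (.e (nat_lit 557105) (nat_lit 14) (.e (nat_lit 180252) (nat_lit 10) .nil))))) .nil)) 
(.lf (nat_lit 214480) (.g (nat_lit 538) (.e (nat_lit 90160) (nat_lit 11) (.e (nat_lit 24617) (nat_lit 7) (.e (nat_lit 319511) (nat_lit 10) .nil))) .nil))) (.nd (nat_lit 6) 
(.lf (nat_lit 214448) (.g (nat_lit 1473) (.e (nat_lit 90160) (nat_lit 11) (.e (nat_lit 24607) (nat_lit 3) (.e (nat_lit 98313) (nat_lit 9) (.e (nat_lit 336002) (nat_lit 2) (.e (nat_lit 90158) (nat_lit 11) .nil))))) .nil)) 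
(.lf (nat_lit 214512) (.g (nat_lit 2373) (.e (nat_lit 90160) (nat_lit 11) (.e (nat_lit 24628) (nat_lit 9) (.e (nat_lit 336019) (nat_lit 3) (.e (nat_lit 98384) (nat_lit 32) (.e (nat_lit 475205) (nat_lit 40) (.e (nat_lit 704613) (nat_lit 9) (.e (nat_lit 1232) (nat_lit 91) .nil))))))) (.g (nat_lit 4) .nil .nil)))))) (.nd (nat_lit 4) (.nd (nat_lit 5) (.nd (nat_lit 6) 
(.lf (nat_lit 214408) (.g (nat_lit 2887) (.e (nat_lit 90159) (nat_lit 11) (.e (nat_lit 24665) (nat_lit 14) (.e (nat_lit 401414) (nat_lit 0) (.e (nat_lit 3297) (nat_lit 202) (.e (nat_lit 573471) (nat_lit 11) .nil))))) .nil)) 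
(.lf (nat_lit 214472) (.g (nat_lit 817) (.e (nat_lit 90160) (nat_lit 11) (.e (nat_lit 24608) (nat_lit 3) (.e (nat_lit 98342) (nat_lit 20) .nil))) .nil))) (.nd (nat_lit 6) 
(.lf (nat_lit 214440) (.g (nat_lit 1232) (.e (nat_lit 90160) (nat_lit 11) (.e (nat_lit 24604) (nat_lit 2) (.e (nat_lit 90157) (nat_lit 11) (.e (nat_lit 24603) (nat_lit 2) .nil)))) .nil)) 
(.lf (nat_lit 214504) (.g (nat_lit 2448) (.e (nat_lit 90160) (nat_lit 11) (.e (nat_lit 24628) (nat_lit 9) (.e (nat_lit 336019) (nat_lit 3) (.e (nat_lit 98358) (nat_lit 26) (.e (nat_lit 433920) (nat_lit 20) (.e (nat_lit 114716) (nat_lit 22) .nil)))))) (.g (nat_lit 4) .nil .nil))))) (.nd (nat_lit 5) (.nd (nat_lit 6) 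
(.lf (nat_lit 214424) (.g (nat_lit 1005) (.e (nat_lit 90160) (nat_lit 11) (.e (nat_lit 24584) (nat_lit 0) (.e (nat_lit 6490) (nat_lit 343) (.e (nat_lit 1253) (nat_lit 92) (.e (nat_lit 98386) (nat_lit 32) .nil))))) .nil)) 
(.lf (nat_lit 214488) (.g (nat_lit 2382) (.e (nat_lit 90160) (nat_lit 11) (.e (nat_lit 24624) (nat_lit 9) (.e (nat_lit 336454) (nat_lit 34) (.e (nat_lit 483366) (nat_lit 18) (.e (nat_lit 57851) (nat_lit 252) .nil))))) .nil))) (.nd (nat_lit 6) 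
(.lf (nat_lit 214456) (.g (nat_lit 1446) (.e (nat_lit 90160) (nat_lit 11) (.e (nat_lit 24607) (nat_lit 3) (.e (nat_lit 106240) (nat_lit 9) (.e (nat_lit 336003) (nat_lit 2) (.e (nat_lit 90158) (nat_lit 11) (.e (nat_lit 24603) (nat_lit 2) .nil)))))) (.g (nat_lit 5) .nil .nil))) 
(.lf (nat_lit 214520) (.g (nat_lit 1522) (.e (nat_lit 90160) (nat_lit 11) (.e (nat_lit 24628) (nat_lit 9) (.e (nat_lit 336324) (nat_lit 18) (.e (nat_lit 204838) (nat_lit 20) .nil)))) .nil)))))) (.nd (nat_lit 3) (.nd (nat_lit 4) (.nd (nat_lit 5) (.nd (nat_lit 6) 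
(.lf (nat_lit 214404) (.g (nat_lit 2565) (.e (nat_lit 90159) (nat_lit 11) (.e (nat_lit 24665) (nat_lit 14) (.e (nat_lit 401414) (nat_lit 0) (.e (nat_lit 3238) (nat_lit 197) .nil)))) .nil)) 
(.lf (nat_lit 214468) (.g (nat_lit 503) (.e (nat_lit 90160) (nat_lit 11) (.e (nat_lit 24608) (nat_lit 3) (.e (nat_lit 106240) (nat_lit 9) .nil))) .nil))) (.nd (nat_lit 6) 
(.lf (nat_lit 214436) (.g (nat_lit 2510) (.e (nat_lit 90160) (nat_lit 11) (.e (nat_lit 24603) (nat_lit 2) (.e (nat_lit 90160) (nat_lit 11) (.e (nat_lit 24604) (nat_lit 2) (.e (nat_lit 90160) (nat_lit 11) (.e (nat_lit 24603) (nat_lit 2) .nil)))))) (.g (nat_lit 5) .nil .nil))) 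
(.lf (nat_lit 214500) (.g (nat_lit 2459) (.e (nat_lit 90160) (nat_lit 11) (.e (nat_lit 24628) (nat_lit 9) (.e (nat_lit 336019) (nat_lit 3) (.e (nat_lit 98356) (nat_lit 26) (.e (nat_lit 426444) (nat_lit 19) (.e (nat_lit 106504) (nat_lit 9) (.e (nat_lit 1238) (nat_lit 91) .nil))))))) (.g (nat_lit 5) .nil .nil))))) (.nd (nat_lit 5) (.nd (nat_lit 6) 
(.lf (nat_lit 214420) (.g (nat_lit 415) (.e (nat_lit 90160) (nat_lit 11) (.e (nat_lit 24584) (nat_lit 0) (.e (nat_lit 1996) (nat_lit 137) .nil))) .nil)) 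
(.lf (nat_lit 214484) (.g (nat_lit 2496) (.e (nat_lit 90160) (nat_lit 11) (.e (nat_lit 24623) (nat_lit 9) (.e (nat_lit 336454) (nat_lit 34) (.e (nat_lit 483366) (nat_lit 18) .nil)))) .nil))) (.nd (nat_lit 6) 
(.lf (nat_lit 214452) (.g (nat_lit 2905) (.e (nat_lit 90160) (nat_lit 11) (.e (nat_lit 24607) (nat_lit 3) (.e (nat_lit 98317) (nat_lit 9) (.e (nat_lit 336004) (nat_lit 2) (.e (nat_lit 90160) (nat_lit 11) (.e (nat_lit 24603) (nat_lit 2) .nil)))))) (.g (nat_lit 0) .nil .nil))) 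
(.lf (nat_lit 214516) (.g (nat_lit 2842) (.e (nat_lit 90160) (nat_lit 11) (.e (nat_lit 24628) (nat_lit 9) (.e (nat_lit 336019) (nat_lit 3) (.e (nat_lit 98386) (nat_lit 32) (.e (nat_lit 475212) (nat_lit 42) (.e (nat_lit 720941) (nat_lit 22) .nil)))))) (.g (nat_lit 5) .nil .nil)))))) (.nd (nat_lit 4) (.nd (nat_lit 5) (.nd (nat_lit 6) 
(.lf (nat_lit 214412) (.g (nat_lit 2100) (.e (nat_lit 90159) (nat_lit 11) (.e (nat_lit 24665) (nat_lit 14) (.e (nat_lit 401463) (nat_lit 15) (.e (nat_lit 1855) (nat_lit 124) (.e (nat_lit 557100) (nat_lit 13) .nil))))) .nil)) 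
(.lf (nat_lit 214476) (.g (nat_lit 397) (.e (nat_lit 90160) (nat_lit 11) (.e (nat_lit 24617) (nat_lit 7) (.e (nat_lit 319504) (nat_lit 10) .nil))) .nil))) (.nd (nat_lit 6) 
(.lf (nat_lit 214444) (.g (nat_lit 1425) (.e (nat_lit 90160) (nat_lit 11) (.e (nat_lit 24604) (nat_lit 2) (.e (nat_lit 90159) (nat_lit 11) (.e (nat_lit 24602) (nat_lit 2) .nil)))) .nil)) 
(.lf (nat_lit 214508) (.g (nat_lit 2459) (.e (nat_lit 90160) (nat_lit 11) (.e (nat_lit 24628) (nat_lit 9) (.e (nat_lit 336019) (nat_lit 3) (.e (nat_lit 98384) (nat_lit 32) (.e (nat_lit 475201) (nat_lit 40) (.e (nat_lit 704620) (nat_lit 9) (.e (nat_lit 1228) (nat_lit 91) .nil))))))) (.g (nat_lit 4) .nil .nil))))) (.nd (nat_lit 5) (.nd (nat_lit 6) 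
(.lf (nat_lit 214428) (.g (nat_lit 1281) (.e (nat_lit 90160) (nat_lit 11) (.e (nat_lit 24599) (nat_lit 1) (.e (nat_lit 57852) (nat_lit 252) (.e (nat_lit 65280) (nat_lit 62) .nil)))) .nil)) 
(.lf (nat_lit 214492) (.g (nat_lit 3826) (.e (nat_lit 90160) (nat_lit 11) (.e (nat_lit 24627) (nat_lit 9) (.e (nat_lit 336454) (nat_lit 34) (.e (nat_lit 483365) (nat_lit 18) (.e (nat_lit 57830) (nat_lit 250) (.e (nat_lit 999) (nat_lit 81) (.e (nat_lit 1239) (nat_lit 91) .nil))))))) (.g (nat_lit 4) .nil .nil)))) (.nd (nat_lit 6) 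
(.lf (nat_lit 214460) (.g (nat_lit 2809) (.e (nat_lit 90160) (nat_lit 11) (.e (nat_lit 24608) (nat_lit 3) (.e (nat_lit 98313) (nat_lit 9) (.e (nat_lit 336004) (nat_lit 2) (.e (nat_lit 90158) (nat_lit 11) (.e (nat_lit 24603) (nat_lit 2) .nil)))))) (.g (nat_lit 5) .nil .nil))) 
(.lf (nat_lit 214524) (.g (nat_lit 1627) (.e (nat_lit 90160) (nat_lit 11) (.e (nat_lit 24630) (nat_lit 9) (.e (nat_lit 336369) (nat_lit 27) (.e (nat_lit 426497) (nat_lit 27) .nil)))) .nil))))))) (.nd (nat_lit 2) (.nd (nat_lit 3) (.nd (nat_lit 4) (.nd (nat_lit 5) (.nd (nat_lit 6) 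
(.lf (nat_lit 214402) (.g (nat_lit 2593) (.e (nat_lit 90159) (nat_lit 11) (.e (nat_lit 24665) (nat_lit 14) (.e (nat_lit 401414) (nat_lit 0) (.e (nat_lit 7936) (nat_lit 195) .nil)))) .nil)) 
(.lf (nat_lit 214466) (.g (nat_lit 431) (.e (nat_lit 90160) (nat_lit 11) (.e (nat_lit 24608) (nat_lit 3) (.e (nat_lit 98317) (nat_lit 9) .nil))) .nil))) (.nd (nat_lit 6) 
(.lf (nat_lit 214434) (.g (nat_lit 1451) (.e (nat_lit 90160) (nat_lit 11) (.e (nat_lit 24603) (nat_lit 2) (.e (nat_lit 90160) (nat_lit 11) (.e (nat_lit 24601) (nat_lit 2) (.e (nat_lit 90158) (nat_lit 11) .nil))))) .nil)) 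
(.lf (nat_lit 214498) (.g (nat_lit 1918) (.e (nat_lit 90160) (nat_lit 11) (.e (nat_lit 24628) (nat_lit 9) (.e (nat_lit 336019) (nat_lit 3) (.e (nat_lit 98356) (nat_lit 26) (.e (nat_lit 426361) (nat_lit 15) (.e (nat_lit 2190) (nat_lit 144) (.e (nat_lit 720937) (nat_lit 22) .nil))))))) (.g (nat_lit 4) .nil .nil))))) (.nd (nat_lit 5) (.nd (nat_lit 6) 
(.lf (nat_lit 214418) (.g (nat_lit 698) (.e (nat_lit 90160) (nat_lit 11) (.e (nat_lit 24584) (nat_lit 0) (.e (nat_lit 1105) (nat_lit 81) .nil))) .nil)) 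
(.lf (nat_lit 214482) (.g (nat_lit 1663) (.e (nat_lit 90160) (nat_lit 11) (.e (nat_lit 24623) (nat_lit 9) (.e (nat_lit 336028) (nat_lit 3) (.e (nat_lit 98385) (nat_lit 32) .nil)))) .nil))) (.nd (nat_lit 6) 
(.lf (nat_lit 214450) (.g (nat_lit 2841) (.e (nat_lit 90160) (nat_lit 11) (.e (nat_lit 24607) (nat_lit 3) (.e (nat_lit 98315) (nat_lit 9) (.e (nat_lit 336017) (nat_lit 3) (.e (nat_lit 98313) (nat_lit 9) (.e (nat_lit 336012) (nat_lit 2) .nil)))))) (.g (nat_lit 0) .nil .nil))) 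
(.lf (nat_lit 214514) (.g (nat_lit 2689) (.e (nat_lit 90160) (nat_lit 11) (.e (nat_lit 24628) (nat_lit 9) (.e (nat_lit 336019) (nat_lit 3) (.e (nat_lit 98386) (nat_lit 32) (.e (nat_lit 475212) (nat_lit 42) (.e (nat_lit 720937) (nat_lit 22) .nil)))))) (.g (nat_lit 5) .nil .nil)))))) (.nd (nat_lit 4) (.nd (nat_lit 5) (.nd (nat_lit 6) 
(.lf (nat_lit 214410) (.g (nat_lit 3661) (.e (nat_lit 90159) (nat_lit 11) (.e (nat_lit 24665) (nat_lit 14) (.e (nat_lit 401427) (nat_lit 3) (.e (nat_lit 204880) (nat_lit 32) (.e (nat_lit 392960) (nat_lit 42) .nil))))) .nil)) 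
(.lf (nat_lit 214474) (.g (nat_lit 2058) (.e (nat_lit 90160) (nat_lit 11) (.e (nat_lit 24609) (nat_lit 3) (.e (nat_lit 98342) (nat_lit 20) (.e (nat_lit 221215) (nat_lit 23) (.e (nat_lit 204828) (nat_lit 18) .nil))))) .nil))) (.nd (nat_lit 6) 
(.lf (nat_lit 214442) (.g (nat_lit 2308) (.e (nat_lit 90160) (nat_lit 11) (.e (nat_lit 24604) (nat_lit 2) (.e (nat_lit 90158) (nat_lit 11) (.e (nat_lit 24608) (nat_lit 3) (.e (nat_lit 98309) (nat_lit 0) .nil))))) .nil)) 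
(.lf (nat_lit 214506) (.g (nat_lit 2957) (.e (nat_lit 90160) (nat_lit 11) (.e (nat_lit 24628) (nat_lit 9) (.e (nat_lit 336019) (nat_lit 3) (.e (nat_lit 98384) (nat_lit 32) (.e (nat_lit 475199) (nat_lit 40) (.e (nat_lit 704707) (nat_lit 9) (.e (nat_lit 1228) (nat_lit 91) .nil))))))) (.g (nat_lit 5) .nil .nil))))) (.nd (nat_lit 5) (.nd (nat_lit 6) 
(.lf (nat_lit 214426) (.g (nat_lit 2169) (.e (nat_lit 90160) (nat_lit 11) (.e (nat_lit 24597) (nat_lit 1) (.e (nat_lit 57926) (nat_lit 282) (.e (nat_lit 163902) (nat_lit 12) (.e (nat_lit 426556) (nat_lit 32) .nil))))) .nil)) 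
(.lf (nat_lit 214490) (.g (nat_lit 663) (.e (nat_lit 90160) (nat_lit 11) (.e (nat_lit 24627) (nat_lit 9) (.e (nat_lit 336019) (nat_lit 3) .nil))) .nil))) (.nd (nat_lit 6) 
(.lf (nat_lit 214458) (.g (nat_lit 1217) (.e (nat_lit 90160) (nat_lit 11) (.e (nat_lit 24608) (nat_lit 3) (.e (nat_lit 98312) (nat_lit 9) .nil))) .nil)) 
(.lf (nat_lit 214522) (.g (nat_lit 2253) (.e (nat_lit 90160) (nat_lit 11) (.e (nat_lit 24628) (nat_lit 9) (.e (nat_lit 336369) (nat_lit 27) (.e (nat_lit 426501) (nat_lit 27) (.e (nat_lit 335988) (nat_lit 1) .nil))))) .nil)))))) (.nd (nat_lit 3) (.nd (nat_lit 4) (.nd (nat_lit 5) (.nd (nat_lit 6) 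
(.lf (nat_lit 214406) (.g (nat_lit 2770) (.e (nat_lit 90159) (nat_lit 11) (.e (nat_lit 24665) (nat_lit 14) (.e (nat_lit 401414) (nat_lit 0) (.e (nat_lit 3271) (nat_lit 199) .nil)))) .nil)) 
(.lf (nat_lit 214470) (.g (nat_lit 1199) (.e (nat_lit 90160) (nat_lit 11) (.e (nat_lit 24608) (nat_lit 3) (.e (nat_lit 98325) (nat_lit 17) .nil))) .nil))) (.nd (nat_lit 6) 
(.lf (nat_lit 214438) (.g (nat_lit 1771) (.e (nat_lit 90160) (nat_lit 11) (.e (nat_lit 24604) (nat_lit 2) (.e (nat_lit 90128) (nat_lit 9) (.e (nat_lit 307) (nat_lit 22) .nil)))) .nil)) 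
(.lf (nat_lit 214502) (.g (nat_lit 3109) (.e (nat_lit 90160) (nat_lit 11) (.e (nat_lit 24628) (nat_lit 9) (.e (nat_lit 336019) (nat_lit 3) (.e (nat_lit 98358) (nat_lit 26) (.e (nat_lit 426448) (nat_lit 20) (.e (nat_lit 114716) (nat_lit 22) .nil)))))) (.g (nat_lit 0) .nil .nil))))) (.nd (nat_lit 5) (.nd (nat_lit 6) 
(.lf (nat_lit 214422) (.g (nat_lit 564) (.e (nat_lit 90160) (nat_lit 11) (.e (nat_lit 24584) (nat_lit 0) (.e (nat_lit 1998) (nat_lit 137) .nil))) .nil)) 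
(.lf (nat_lit 214486) (.g (nat_lit 2287) (.e (nat_lit 90160) (nat_lit 11) (.e (nat_lit 24623) (nat_lit 9) (.e (nat_lit 336456) (nat_lit 34) (.e (nat_lit 483364) (nat_lit 18) (.e (nat_lit 57852) (nat_lit 252) .nil))))) .nil))) (.nd (nat_lit 6) 
(.lf (nat_lit 214454) (.g (nat_lit 3087) (.e (nat_lit 90160) (nat_lit 11) (.e (nat_lit 24607) (nat_lit 3) (.e (nat_lit 98317) (nat_lit 9) (.e (nat_lit 336012) (nat_lit 2) (.e (nat_lit 90160) (nat_lit 11) (.e (nat_lit 24603) (nat_lit 2) .nil)))))) (.g (nat_lit 0) .nil .nil))) 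
(.lf (nat_lit 214518) (.g (nat_lit 3190) (.e (nat_lit 90160) (nat_lit 11) (.e (nat_lit 24628) (nat_lit 9) (.e (nat_lit 336019) (nat_lit 3) (.e (nat_lit 98386) (nat_lit 32) (.e (nat_lit 475214) (nat_lit 42) (.e (nat_lit 720941) (nat_lit 22) .nil)))))) (.g (nat_lit 5) .nil .nil)))))) (.nd (nat_lit 4) (.nd (nat_lit 5) (.nd (nat_lit 6) 
(.lf (nat_lit 214414) (.g (nat_lit 1256) (.e (nat_lit 90159) (nat_lit 11) (.e (nat_lit 24665) (nat_lit 14) (.e (nat_lit 401468) (nat_lit 27) .nil))) .nil)) 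
(.lf (nat_lit 214478) (.g (nat_lit 1429) (.e (nat_lit 90160) (nat_lit 11) (.e (nat_lit 24617) (nat_lit 7) (.e (nat_lit 319505) (nat_lit 10) (.e (nat_lit 584) (nat_lit 43) .nil)))) .nil))) (.nd (nat_lit 6) 
(.lf (nat_lit 214446) (.g (nat_lit 1583) (.e (nat_lit 90160) (nat_lit 11) (.e (nat_lit 24604) (nat_lit 2) (.e (nat_lit 90160) (nat_lit 11) (.e (nat_lit 24606) (nat_lit 3) .nil)))) .nil)) 
(.lf (nat_lit 214510) (.g (nat_lit 2473) (.e (nat_lit 90160) (nat_lit 11) (.e (nat_lit 24628) (nat_lit 9) (.e (nat_lit 336019) (nat_lit 3) (.e (nat_lit 98384) (nat_lit 32) (.e (nat_lit 475201) (nat_lit 40) (.e (nat_lit 704656) (nat_lit 9) (.e (nat_lit 1238) (nat_lit 91) .nil))))))) (.g (nat_lit 4) .nil .nil))))) (.nd (nat_lit 5) (.nd (nat_lit 6) 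
(.lf (nat_lit 214430) (.g (nat_lit 1585) (.e (nat_lit 90160) (nat_lit 11) (.e (nat_lit 24599) (nat_lit 1) (.e (nat_lit 57931) (nat_lit 282) (.e (nat_lit 163902) (nat_lit 12) (.e (nat_lit 426556) (nat_lit 32) .nil))))) .nil)) 
(.lf (nat_lit 214494) (.g (nat_lit 783) (.e (nat_lit 90160) (nat_lit 11) (.e (nat_lit 24628) (nat_lit 9) (.e (nat_lit 336016) (nat_lit 2) (.e (nat_lit 90133) (nat_lit 9) .nil)))) .nil))) (.nd (nat_lit 6) 
(.lf (nat_lit 214462) (.g (nat_lit 2928) (.e (nat_lit 90160) (nat_lit 11) (.e (nat_lit 24608) (nat_lit 3) (.e (nat_lit 98313) (nat_lit 9) (.e (nat_lit 336012) (nat_lit 2) (.e (nat_lit 90158) (nat_lit 11) (.e (nat_lit 24603) (nat_lit 2) .nil)))))) (.g (nat_lit 5) .nil .nil))) 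
(.lf (nat_lit 214526) (.g (nat_lit 1627) (.e (nat_lit 90160) (nat_lit 11) (.e (nat_lit 24630) (nat_lit 9) (.e (nat_lit 336369) (nat_lit 27) (.e (nat_lit 426498) (nat_lit 27) .nil)))) .nil)))))))) (.nd (nat_lit 1) (.nd (nat_lit 2) (.nd (nat_lit 3) (.nd (nat_lit 4) (.nd (nat_lit 5) (.nd (nat_lit 6) 
(.lf (nat_lit 214401) (.g (nat_lit 2542) (.e (nat_lit 90159) (nat_lit 11) (.e (nat_lit 24665) (nat_lit 14) (.e (nat_lit 401414) (nat_lit 0) (.e (nat_lit 3205) (nat_lit 194) .nil)))) .nil)) 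
(.lf (nat_lit 214465) (.g (nat_lit 1583) (.e (nat_lit 90160) (nat_lit 11) (.e (nat_lit 24608) (nat_lit 3) (.e (nat_lit 98316) (nat_lit 9) (.e (nat_lit 336027) (nat_lit 3) (.e (nat_lit 98317) (nat_lit 9) .nil))))) .nil))) (.nd (nat_lit 6) 
(.lf (nat_lit 214433) (.g (nat_lit 3114) (.e (nat_lit 90160) (nat_lit 11) (.e (nat_lit 24602) (nat_lit 2) (.e (nat_lit 90158) (nat_lit 11) (.e (nat_lit 24608) (nat_lit 3) (.e (nat_lit 98313) (nat_lit 9) (.e (nat_lit 336012) (nat_lit 2) .nil)))))) (.g (nat_lit 0) .nil .nil))) 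
(.lf (nat_lit 214497) (.g (nat_lit 1763) (.e (nat_lit 90160) (nat_lit 11) (.e (nat_lit 24628) (nat_lit 9) (.e (nat_lit 336019) (nat_lit 3) (.e (nat_lit 98356) (nat_lit 26) (.e (nat_lit 426361) (nat_lit 15) .nil))))) .nil)))) (.nd (nat_lit 5) (.nd (nat_lit 6) 
(.lf (nat_lit 214417) (.g (nat_lit 1205) (.e (nat_lit 90160) (nat_lit 11) (.e (nat_lit 24580) (nat_lit 0) (.e (nat_lit 6203) (nat_lit 332) (.e (nat_lit 2569) (nat_lit 160) .nil)))) .nil)) 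
(.lf (nat_lit 214481) (.g (nat_lit 435) (.e (nat_lit 90160) (nat_lit 11) (.e (nat_lit 24623) (nat_lit 9) (.e (nat_lit 336028) (nat_lit 3) .nil))) .nil))) (.nd (nat_lit 6) 
(.lf (nat_lit 214449) (.g (nat_lit 2936) (.e (nat_lit 90160) (nat_lit 11) (.e (nat_lit 24607) (nat_lit 3) (.e (nat_lit 98313) (nat_lit 9) (.e (nat_lit 336012) (nat_lit 2) (.e (nat_lit 90160) (nat_lit 11) (.e (nat_lit 24603) (nat_lit 2) .nil)))))) (.g (nat_lit 5) .nil .nil))) 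
(.lf (nat_lit 214513) (.g (nat_lit 3133) (.e (nat_lit 90160) (nat_lit 11) (.e (nat_lit 24628) (nat_lit 9) (.e (nat_lit 336019) (nat_lit 3) (.e (nat_lit 98384) (nat_lit 32) (.e (nat_lit 475214) (nat_lit 42) (.e (nat_lit 720938) (nat_lit 22) .nil)))))) (.g (nat_lit 0) .nil .nil)))))) (.nd (nat_lit 4) (.nd (nat_lit 5) (.nd (nat_lit 6) 
(.lf (nat_lit 214409) (.g (nat_lit 1169) (.e (nat_lit 90159) (nat_lit 11) (.e (nat_lit 24665) (nat_lit 14) (.e (nat_lit 401426) (nat_lit 3) .nil))) .nil)) 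
(.lf (nat_lit 214473) (.g (nat_lit 2498) (.e (nat_lit 90160) (nat_lit 11) (.e (nat_lit 24608) (nat_lit 3) (.e (nat_lit 98342) (nat_lit 20) (.e (nat_lit 221212) (nat_lit 22) (.e (nat_lit 196635) (nat_lit 9) .nil))))) .nil))) (.nd (nat_lit 6) 
(.lf (nat_lit 214441) (.g (nat_lit 1398) (.e (nat_lit 90160) (nat_lit 11) (.e (nat_lit 24604) (nat_lit 2) (.e (nat_lit 90158) (nat_lit 11) (.e (nat_lit 24601) (nat_lit 2) .nil)))) .nil)) 
(.lf (nat_lit 214505) (.g (nat_lit 926) (.e (nat_lit 90160) (nat_lit 11) (.e (nat_lit 24628) (nat_lit 9) (.e (nat_lit 336019) (nat_lit 3) (.e (nat_lit 98384) (nat_lit 32) .nil)))) .nil)))) (.nd (nat_lit 5) (.nd (nat_lit 6) 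
(.lf (nat_lit 214425) (.g (nat_lit 2863) (.e (nat_lit 90160) (nat_lit 11) (.e (nat_lit 24597) (nat_lit 1) (.e (nat_lit 57847) (nat_lit 252) (.e (nat_lit 57365) (nat_lit 1) (.e (nat_lit 65280) (nat_lit 209) (.e (nat_lit 1217) (nat_lit 90) (.e (nat_lit 81952) (nat_lit 22) .nil))))))) (.g (nat_lit 4) .nil .nil))) 
(.lf (nat_lit 214489) (.g (nat_lit 2259) (.e (nat_lit 90160) (nat_lit 11) (.e (nat_lit 24625) (nat_lit 9) (.e (nat_lit 336455) (nat_lit 34) (.e (nat_lit 483363) (nat_lit 18) (.e (nat_lit 57854) (nat_lit 252) .nil))))) .nil))) (.nd (nat_lit 6) 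
(.lf (nat_lit 214457) (.g (nat_lit 2229) (.e (nat_lit 90160) (nat_lit 11) (.e (nat_lit 24607) (nat_lit 3) (.e (nat_lit 98341) (nat_lit 20) (.e (nat_lit 221214) (nat_lit 23) (.e (nat_lit 204828) (nat_lit 18) .nil))))) .nil)) 
(.lf (nat_lit 214521) (.g (nat_lit 1695) (.e (nat_lit 90160) (nat_lit 11) (.e (nat_lit 24628) (nat_lit 9) (.e (nat_lit 336369) (nat_lit 27) (.e (nat_lit 426501) (nat_lit 27) .nil)))) .nil)))))) (.nd (nat_lit 3) (.nd (nat_lit 4) (.nd (nat_lit 5) (.nd (nat_lit 6) 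
(.lf (nat_lit 214405) (.g (nat_lit 2754) (.e (nat_lit 90159) (nat_lit 11) (.e (nat_lit 24665) (nat_lit 14) (.e (nat_lit 401414) (nat_lit 0) (.e (nat_lit 3270) (nat_lit 199) .nil)))) .nil)) 
(.lf (nat_lit 214469) (.g (nat_lit 503) (.e (nat_lit 90160) (nat_lit 11) (.e (nat_lit 24608) (nat_lit 3) (.e (nat_lit 106240) (nat_lit 15) .nil))) .nil))) (.nd (nat_lit 6) 
(.lf (nat_lit 214437) (.g (nat_lit 1705) (.e (nat_lit 90160) (nat_lit 11) (.e (nat_lit 24604) (nat_lit 2) (.e (nat_lit 90128) (nat_lit 9) (.e (nat_lit 297) (nat_lit 22) .nil)))) .nil)) 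
(.lf (nat_lit 214501) (.g (nat_lit 2350) (.e (nat_lit 90160) (nat_lit 11) (.e (nat_lit 24628) (nat_lit 9) (.e (nat_lit 336019) (nat_lit 3) (.e (nat_lit 98358) (nat_lit 26) (.e (nat_lit 426354) (nat_lit 15) (.e (nat_lit 2203) (nat_lit 144) (.e (nat_lit 720941) (nat_lit 22) .nil))))))) (.g (nat_lit 4) .nil .nil))))) (.nd (nat_lit 5) (.nd (nat_lit 6) 
(.lf (nat_lit 214421) (.g (nat_lit 2995) (.e (nat_lit 90160) (nat_lit 11) (.e (nat_lit 24584) (nat_lit 0) (.e (nat_lit 1996) (nat_lit 137) (.e (nat_lit 663554) (nat_lit 0) (.e (nat_lit 1669) (nat_lit 116) (.e (nat_lit 401472) (nat_lit 28) (.e (nat_lit 352000) (nat_lit 8) (.e (nat_lit 1232) (nat_lit 91) .nil)))))))) (.g (nat_lit 5) .nil .nil))) 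
(.lf (nat_lit 214485) (.g (nat_lit 2389) (.e (nat_lit 90160) (nat_lit 11) (.e (nat_lit 24623) (nat_lit 9) (.e (nat_lit 336456) (nat_lit 34) (.e (nat_lit 483364) (nat_lit 18) (.e (nat_lit 57851) (nat_lit 252) .nil))))) .nil))) (.nd (nat_lit 6) 
(.lf (nat_lit 214453) (.g (nat_lit 1685) (.e (nat_lit 90160) (nat_lit 11) (.e (nat_lit 24607) (nat_lit 3) (.e (nat_lit 98317) (nat_lit 9) (.e (nat_lit 336011) (nat_lit 2) (.e (nat_lit 90158) (nat_lit 11) .nil))))) .nil)) 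
(.lf (nat_lit 214517) (.g (nat_lit 1967) (.e (nat_lit 90160) (nat_lit 11) (.e (nat_lit 24628) (nat_lit 9) (.e (nat_lit 336019) (nat_lit 3) (.e (nat_lit 98386) (nat_lit 32) (.e (nat_lit 475213) (nat_lit 42) (.e (nat_lit 720937) (nat_lit 22) .nil)))))) (.g (nat_lit 4) .nil .nil)))))) (.nd (nat_lit 4) (.nd (nat_lit 5) (.nd (nat_lit 6) 
(.lf (nat_lit 214413) (.g (nat_lit 2066) (.e (nat_lit 90159) (nat_lit 11) (.e (nat_lit 24665) (nat_lit 14) (.e (nat_lit 401463) (nat_lit 15) (.e (nat_lit 1858) (nat_lit 124) (.e (nat_lit 557101) (nat_lit 13) .nil))))) .nil)) 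
(.lf (nat_lit 214477) (.g (nat_lit 1392) (.e (nat_lit 90160) (nat_lit 11) (.e (nat_lit 24617) (nat_lit 7) (.e (nat_lit 319504) (nat_lit 10) (.e (nat_lit 730) (nat_lit 66) .nil)))) .nil))) (.nd (nat_lit 6) 
(.lf (nat_lit 214445) (.g (nat_lit 1897) (.e (nat_lit 90160) (nat_lit 11) (.e (nat_lit 24604) (nat_lit 2) (.e (nat_lit 90160) (nat_lit 11) (.e (nat_lit 24605) (nat_lit 2) .nil)))) .nil)) 
(.lf (nat_lit 214509) (.g (nat_lit 2923) (.e (nat_lit 90160) (nat_lit 11) (.e (nat_lit 24628) (nat_lit 9) (.e (nat_lit 336019) (nat_lit 3) (.e (nat_lit 98384) (nat_lit 32) (.e (nat_lit 475201) (nat_lit 40) (.e (nat_lit 704655) (nat_lit 9) (.e (nat_lit 1237) (nat_lit 91) .nil))))))) (.g (nat_lit 4) .nil .nil))))) (.nd (nat_lit 5) (.nd (nat_lit 6) 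
(.lf (nat_lit 214429) (.g (nat_lit 3140) (.e (nat_lit 90160) (nat_lit 11) (.e (nat_lit 24599) (nat_lit 1) (.e (nat_lit 57854) (nat_lit 252) (.e (nat_lit 57373) (nat_lit 2) (.e (nat_lit 90155) (nat_lit 10) .nil))))) .nil)) 
(.lf (nat_lit 214493) (.g (nat_lit 4261) (.e (nat_lit 90160) (nat_lit 11) (.e (nat_lit 24627) (nat_lit 9) (.e (nat_lit 336454) (nat_lit 34) (.e (nat_lit 483365) (nat_lit 18) (.e (nat_lit 57849) (nat_lit 252) (.e (nat_lit 57375) (nat_lit 2) .nil)))))) (.g (nat_lit 0) .nil .nil)))) (.nd (nat_lit 6) 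
(.lf (nat_lit 214461) (.g (nat_lit 2143) (.e (nat_lit 90160) (nat_lit 11) (.e (nat_lit 24608) (nat_lit 3) (.e (nat_lit 98313) (nat_lit 9) (.e (nat_lit 336011) (nat_lit 2) (.e (nat_lit 90158) (nat_lit 11) .nil))))) .nil)) 
(.lf (nat_lit 214525) (.g (nat_lit 2230) (.e (nat_lit 90160) (nat_lit 11) (.e (nat_lit 24630) (nat_lit 9) (.e (nat_lit 336369) (nat_lit 27) (.e (nat_lit 426497) (nat_lit 27) (.e (nat_lit 335995) (nat_lit 1) .nil))))) .nil))))))) (.nd (nat_lit 2) (.nd (nat_lit 3) (.nd (nat_lit 4) (.nd (nat_lit 5) (.nd (nat_lit 6) 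
(.lf (nat_lit 214403) (.g (nat_lit 2770) (.e (nat_lit 90159) (nat_lit 11) (.e (nat_lit 24665) (nat_lit 14) (.e (nat_lit 401414) (nat_lit 0) (.e (nat_lit 3224) (nat_lit 196) .nil)))) .nil)) 
(.lf (nat_lit 214467) (.g (nat_lit 1412) (.e (nat_lit 90160) (nat_lit 11) (.e (nat_lit 24608) (nat_lit 3) (.e (nat_lit 98317) (nat_lit 9) (.e (nat_lit 336003) (nat_lit 2) (.e (nat_lit 90158) (nat_lit 11) .nil))))) .nil))) (.nd (nat_lit 6) 
(.lf (nat_lit 214435) (.g (nat_lit 2615) (.e (nat_lit 90160) (nat_lit 11) (.e (nat_lit 24603) (nat_lit 2) (.e (nat_lit 90160) (nat_lit 11) (.e (nat_lit 24604) (nat_lit 2) (.e (nat_lit 90158) (nat_lit 11) (.e (nat_lit 24603) (nat_lit 2) .nil)))))) (.g (nat_lit 0) .nil .nil))) 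
(.lf (nat_lit 214499) (.g (nat_lit 2410) (.e (nat_lit 90160) (nat_lit 11) (.e (nat_lit 24628) (nat_lit 9) (.e (nat_lit 336019) (nat_lit 3) (.e (nat_lit 98356) (nat_lit 26) (.e (nat_lit 426440) (nat_lit 19) (.e (nat_lit 106517) (nat_lit 9) (.e (nat_lit 1238) (nat_lit 91) .nil))))))) (.g (nat_lit 4) .nil .nil))))) (.nd (nat_lit 5) (.nd (nat_lit 6) 
(.lf (nat_lit 214419) (.g (nat_lit 452) (.e (nat_lit 90160) (nat_lit 11) (.e (nat_lit 24584) (nat_lit 0) (.e (nat_lit 1994) (nat_lit 137) .nil))) .nil)) 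
(.lf (nat_lit 214483) (.g (nat_lit 3386) (.e (nat_lit 90160) (nat_lit 11) (.e (nat_lit 24623) (nat_lit 9) (.e (nat_lit 336454) (nat_lit 34) (.e (nat_lit 483365) (nat_lit 18) (.e (nat_lit 57848) (nat_lit 252) .nil))))) .nil))) (.nd (nat_lit 6) 
(.lf (nat_lit 214451) (.g (nat_lit 430) (.e (nat_lit 90160) (nat_lit 11) (.e (nat_lit 24607) (nat_lit 3) (.e (nat_lit 98317) (nat_lit 9) .nil))) .nil)) 
(.lf (nat_lit 214515) (.g (nat_lit 2637) (.e (nat_lit 90160) (nat_lit 11) (.e (nat_lit 24628) (nat_lit 9) (.e (nat_lit 336019) (nat_lit 3) (.e (nat_lit 98386) (nat_lit 32) (.e (nat_lit 475212) (nat_lit 42) (.e (nat_lit 720938) (nat_lit 22) .nil)))))) (.g (nat_lit 5) .nil .nil)))))) (.nd (nat_lit 4) (.nd (nat_lit 5) (.nd (nat_lit 6) 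
(.lf (nat_lit 214411) (.g (nat_lit 1773) (.e (nat_lit 90159) (nat_lit 11) (.e (nat_lit 24665) (nat_lit 14) (.e (nat_lit 409344) (nat_lit 3) (.e (nat_lit 204882) (nat_lit 32) (.e (nat_lit 392960) (nat_lit 42) .nil))))) .nil)) 
(.lf (nat_lit 214475) (.g (nat_lit 1732) (.e (nat_lit 90160) (nat_lit 11) (.e (nat_lit 24617) (nat_lit 7) (.e (nat_lit 319490) (nat_lit 0) (.e (nat_lit 577) (nat_lit 43) .nil)))) .nil))) (.nd (nat_lit 6) 
(.lf (nat_lit 214443) (.g (nat_lit 1152) (.e (nat_lit 90160) (nat_lit 11) (.e (nat_lit 24604) (nat_lit 2) (.e (nat_lit 90158) (nat_lit 11) (.e (nat_lit 24609) (nat_lit 3) .nil)))) .nil)) 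
(.lf (nat_lit 214507) (.g (nat_lit 1778) (.e (nat_lit 90160) (nat_lit 11) (.e (nat_lit 24628) (nat_lit 9) (.e (nat_lit 336019) (nat_lit 3) (.e (nat_lit 98384) (nat_lit 32) (.e (nat_lit 475201) (nat_lit 40) .nil))))) .nil)))) (.nd (nat_lit 5) (.nd (nat_lit 6) 
(.lf (nat_lit 214427) (.g (nat_lit 2464) (.e (nat_lit 90160) (nat_lit 11) (.e (nat_lit 24599) (nat_lit 1) (.e (nat_lit 57849) (nat_lit 252) (.e (nat_lit 57372) (nat_lit 2) (.e (nat_lit 90155) (nat_lit 10) .nil))))) .nil)) 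
(.lf (nat_lit 214491) (.g (nat_lit 2574) (.e (nat_lit 90160) (nat_lit 11) (.e (nat_lit 24627) (nat_lit 9) (.e (nat_lit 336454) (nat_lit 34) (.e (nat_lit 483365) (nat_lit 18) (.e (nat_lit 57830) (nat_lit 250) .nil))))) .nil))) (.nd (nat_lit 6) 
(.lf (nat_lit 214459) (.g (nat_lit 1726) (.e (nat_lit 90160) (nat_lit 11) (.e (nat_lit 24608) (nat_lit 3) (.e (nat_lit 98312) (nat_lit 9) (.e (nat_lit 336021) (nat_lit 3) .nil)))) .nil)) 
(.lf (nat_lit 214523) (.g (nat_lit 640) (.e (nat_lit 90160) (nat_lit 11) (.e (nat_lit 24628) (nat_lit 9) (.e (nat_lit 336455) (nat_lit 34) .nil))) .nil)))))) (.nd (nat_lit 3) (.nd (nat_lit 4) (.nd (nat_lit 5) (.nd (nat_lit 6) 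
(.lf (nat_lit 214407) (.g (nat_lit 2790) (.e (nat_lit 90159) (nat_lit 11) (.e (nat_lit 24665) (nat_lit 14) (.e (nat_lit 401414) (nat_lit 0) (.e (nat_lit 3272) (nat_lit 199) .nil)))) .nil)) 
(.lf (nat_lit 214471) (.g (nat_lit 1457) (.e (nat_lit 90160) (nat_lit 11) (.e (nat_lit 24608) (nat_lit 3) (.e (nat_lit 98340) (nat_lit 20) (.e (nat_lit 221214) (nat_lit 23) .nil)))) .nil))) (.nd (nat_lit 6) 
(.lf (nat_lit 214439) (.g (nat_lit 804) (.e (nat_lit 90160) (nat_lit 11) (.e (nat_lit 24604) (nat_lit 2) (.e (nat_lit 90133) (nat_lit 9) .nil))) .nil)) 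
(.lf (nat_lit 214503) (.g (nat_lit 2481) (.e (nat_lit 90160) (nat_lit 11) (.e (nat_lit 24628) (nat_lit 9) (.e (nat_lit 336019) (nat_lit 3) (.e (nat_lit 98358) (nat_lit 26) (.e (nat_lit 433920) (nat_lit 20) (.e (nat_lit 114714) (nat_lit 22) .nil)))))) (.g (nat_lit 4) .nil .nil))))) (.nd (nat_lit 5) (.nd (nat_lit 6) 
(.lf (nat_lit 214423) (.g (nat_lit 962) (.e (nat_lit 90160) (nat_lit 11) (.e (nat_lit 24584) (nat_lit 0) (.e (nat_lit 1998) (nat_lit 137) (.e (nat_lit 663565) (nat_lit 3) (.e (nat_lit 65280) (nat_lit 203) .nil))))) .nil)) 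
(.lf (nat_lit 214487) (.g (nat_lit 1656) (.e (nat_lit 90160) (nat_lit 11) (.e (nat_lit 24624) (nat_lit 9) (.e (nat_lit 336454) (nat_lit 34) (.e (nat_lit 483366) (nat_lit 18) .nil)))) .nil))) (.nd (nat_lit 6) 
(.lf (nat_lit 214455) (.g (nat_lit 3266) (.e (nat_lit 90160) (nat_lit 11) (.e (nat_lit 24607) (nat_lit 3) (.e (nat_lit 98317) (nat_lit 9) (.e (nat_lit 336027) (nat_lit 3) (.e (nat_lit 98313) (nat_lit 9) (.e (nat_lit 336012) (nat_lit 2) .nil)))))) (.g (nat_lit 0) .nil .nil))) 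
(.lf (nat_lit 214519) (.g (nat_lit 2035) (.e (nat_lit 90160) (nat_lit 11) (.e (nat_lit 24628) (nat_lit 9) (.e (nat_lit 336019) (nat_lit 3) (.e (nat_lit 98386) (nat_lit 32) (.e (nat_lit 483072) (nat_lit 42) (.e (nat_lit 720941) (nat_lit 22) .nil)))))) (.g (nat_lit 4) .nil .nil)))))) (.nd (nat_lit 4) (.nd (nat_lit 5) (.nd (nat_lit 6) 
(.lf (nat_lit 214415) (.g (nat_lit 1191) (.e (nat_lit 90159) (nat_lit 11) (.e (nat_lit 24665) (nat_lit 14) (.e (nat_lit 409344) (nat_lit 27) .nil))) .nil)) 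
(.lf (nat_lit 214479) (.g (nat_lit 2301) (.e (nat_lit 90160) (nat_lit 11) (.e (nat_lit 24617) (nat_lit 7) (.e (nat_lit 319505) (nat_lit 10) (.e (nat_lit 806) (nat_lit 67) (.e (nat_lit 712749) (nat_lit 28) .nil))))) .nil))) (.nd (nat_lit 6) 
(.lf (nat_lit 214447) (.g (nat_lit 1094) (.e (nat_lit 90160) (nat_lit 11) (.e (nat_lit 24604) (nat_lit 2) (.e (nat_lit 90160) (nat_lit 11) (.e (nat_lit 24607) (nat_lit 3) .nil)))) .nil)) 
(.lf (nat_lit 214511) (.g (nat_lit 2086) (.e (nat_lit 90160) (nat_lit 11) (.e (nat_lit 24628) (nat_lit 9) (.e (nat_lit 336019) (nat_lit 3) (.e (nat_lit 98384) (nat_lit 32) (.e (nat_lit 475205) (nat_lit 40) .nil))))) .nil)))) (.nd (nat_lit 5) (.nd (nat_lit 6) 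
(.lf (nat_lit 214431) (.g (nat_lit 2232) (.e (nat_lit 90160) (nat_lit 11) (.e (nat_lit 24602) (nat_lit 2) (.e (nat_lit 90158) (nat_lit 11) (.e (nat_lit 24605) (nat_lit 2) (.e (nat_lit 90158) (nat_lit 11) (.e (nat_lit 24603) (nat_lit 2) .nil)))))) (.g (nat_lit 5) .nil .nil))) 
(.lf (nat_lit 214495) (.g (nat_lit 321) (.e (nat_lit 90160) (nat_lit 11) (.e (nat_lit 24628) (nat_lit 9) (.e (nat_lit 336019) (nat_lit 3) .nil))) .nil))) (.nd (nat_lit 6) 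
(.lf (nat_lit 214463) (.g (nat_lit 3274) (.e (nat_lit 90160) (nat_lit 11) (.e (nat_lit 24608) (nat_lit 3) (.e (nat_lit 98313) (nat_lit 9) (.e (nat_lit 336012) (nat_lit 2) (.e (nat_lit 90160) (nat_lit 11) (.e (nat_lit 24604) (nat_lit 2) .nil)))))) (.g (nat_lit 5) .nil .nil))) 
(.lf (nat_lit 214527) (.g (nat_lit 2200) (.e (nat_lit 90160) (nat_lit 11) (.e (nat_lit 24630) (nat_lit 9) (.e (nat_lit 336369) (nat_lit 27) (.e (nat_lit 426498) (nat_lit 27) (.e (nat_lit 335996) (nat_lit 1) .nil))))) .nil)))))))))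

noncomputable def tv2823 : DT := (.nd (nat_lit 0) (.nd (nat_lit 1) (.nd (nat_lit 2) (.nd (nat_lit 3) (.nd (nat_lit 4) (.nd (nat_lit 5) (.nd (nat_lit 6) 
(.lf (nat_lit 214528) (.g (nat_lit 2594) (.e (nat_lit 90160) (nat_lit 11) (.e (nat_lit 24630) (nat_lit 9) (.e (nat_lit 336369) (nat_lit 27) (.e (nat_lit 426499) (nat_lit 27) (.e (nat_lit 335986) (nat_lit 1) .nil))))) .nil)) 
(.lf (nat_lit 214592) (.g (nat_lit 2528) (.e (nat_lit 90160) (nat_lit 11) (.e (nat_lit 24640) (nat_lit 10) (.e (nat_lit 344117) (nat_lit 21) (.e (nat_lit 516143) (nat_lit 9) (.e (nat_lit 426448) (nat_lit 20) .nil))))) .nil))) (.nd (nat_lit 6) 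
(.lf (nat_lit 214560) (.g (nat_lit 1268) (.e (nat_lit 90160) (nat_lit 11) (.e (nat_lit 24638) (nat_lit 9) (.e (nat_lit 336012) (nat_lit 2) (.e (nat_lit 90172) (nat_lit 14) .nil)))) .nil)) 
(.lf (nat_lit 214624) (.g (nat_lit 1999) (.e (nat_lit 90160) (nat_lit 11) (.e (nat_lit 24643) (nat_lit 11) (.e (nat_lit 368676) (nat_lit 21) (.e (nat_lit 516146) (nat_lit 9) (.e (nat_lit 426440) (nat_lit 19) (.e (nat_lit 106520) (nat_lit 9) (.e (nat_lit 1228) (nat_lit 91) .nil))))))) (.g (nat_lit 4) .nil .nil))))) (.nd (nat_lit 5) (.nd (nat_lit 6) 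
(.lf (nat_lit 214544) (.g (nat_lit 2291) (.e (nat_lit 90160) (nat_lit 11) (.e (nat_lit 24636) (nat_lit 9) (.e (nat_lit 336017) (nat_lit 3) (.e (nat_lit 98357) (nat_lit 26) (.e (nat_lit 426446) (nat_lit 20) (.e (nat_lit 114714) (nat_lit 22) .nil)))))) (.g (nat_lit 0) .nil .nil))) 
(.lf (nat_lit 214608) (.g (nat_lit 1051) (.e (nat_lit 90160) (nat_lit 11) (.e (nat_lit 24640) (nat_lit 10) (.e (nat_lit 344120) (nat_lit 21) (.e (nat_lit 516147) (nat_lit 9) .nil)))) .nil))) (.nd (nat_lit 6) 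
(.lf (nat_lit 214576) (.g (nat_lit 1661) (.e (nat_lit 90160) (nat_lit 11) (.e (nat_lit 24638) (nat_lit 9) (.e (nat_lit 336027) (nat_lit 3) (.e (nat_lit 98357) (nat_lit 26) .nil)))) .nil)) 
(.lf (nat_lit 214640) (.g (nat_lit 2303) (.e (nat_lit 90160) (nat_lit 11) (.e (nat_lit 24644) (nat_lit 11) (.e (nat_lit 368676) (nat_lit 21) (.e (nat_lit 516146) (nat_lit 9) (.e (nat_lit 426440) (nat_lit 19) (.e (nat_lit 106517) (nat_lit 9) (.e (nat_lit 1238) (nat_lit 91) .nil))))))) (.g (nat_lit 4) .nil .nil)))))) (.nd (nat_lit 4) (.nd (nat_lit 5) (.nd (nat_lit 6) 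
(.lf (nat_lit 214536) (.g (nat_lit 2162) (.e (nat_lit 90160) (nat_lit 11) (.e (nat_lit 24630) (nat_lit 9) (.e (nat_lit 336369) (nat_lit 27) (.e (nat_lit 426528) (nat_lit 27) (.e (nat_lit 335986) (nat_lit 1) .nil))))) .nil)) 
(.lf (nat_lit 214600) (.g (nat_lit 1364) (.e (nat_lit 90160) (nat_lit 11) (.e (nat_lit 24640) (nat_lit 10) (.e (nat_lit 344117) (nat_lit 21) (.e (nat_lit 516151) (nat_lit 9) .nil)))) .nil))) (.nd (nat_lit 6) 
(.lf (nat_lit 214568) (.g (nat_lit 1914) (.e (nat_lit 90160) (nat_lit 11) (.e (nat_lit 24638) (nat_lit 9) (.e (nat_lit 336021) (nat_lit 3) (.e (nat_lit 98363) (nat_lit 26) (.e (nat_lit 426447) (nat_lit 20) .nil))))) .nil)) 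
(.lf (nat_lit 214632) (.g (nat_lit 2438) (.e (nat_lit 90160) (nat_lit 11) (.e (nat_lit 24643) (nat_lit 11) (.e (nat_lit 368676) (nat_lit 21) (.e (nat_lit 516179) (nat_lit 15) (.e (nat_lit 475199) (nat_lit 40) (.e (nat_lit 704707) (nat_lit 9) (.e (nat_lit 1228) (nat_lit 91) .nil))))))) (.g (nat_lit 5) .nil .nil))))) (.nd (nat_lit 5) (.nd (nat_lit 6) 
(.lf (nat_lit 214552) (.g (nat_lit 957) (.e (nat_lit 90160) (nat_lit 11) (.e (nat_lit 24638) (nat_lit 9) (.e (nat_lit 336003) (nat_lit 2) (.e (nat_lit 90184) (nat_lit 17) (.e (nat_lit 245504) (nat_lit 20) .nil))))) .nil)) 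
(.lf (nat_lit 214616) (.g (nat_lit 1385) (.e (nat_lit 90160) (nat_lit 11) (.e (nat_lit 24641) (nat_lit 10) (.e (nat_lit 344117) (nat_lit 21) (.e (nat_lit 516180) (nat_lit 15) .nil)))) .nil))) (.nd (nat_lit 6) 
(.lf (nat_lit 214584) (.g (nat_lit 3208) (.e (nat_lit 90160) (nat_lit 11) (.e (nat_lit 24639) (nat_lit 10) (.e (nat_lit 344117) (nat_lit 21) (.e (nat_lit 516179) (nat_lit 15) (.e (nat_lit 475214) (nat_lit 42) .nil))))) .nil)) 
(.lf (nat_lit 214648) (.g (nat_lit 2133) (.e (nat_lit 90160) (nat_lit 11) (.e (nat_lit 24644) (nat_lit 11) (.e (nat_lit 368676) (nat_lit 21) (.e (nat_lit 516179) (nat_lit 15) (.e (nat_lit 475198) (nat_lit 40) (.e (nat_lit 704700) (nat_lit 9) (.e (nat_lit 1232) (nat_lit 91) .nil))))))) (.g (nat_lit 4) .nil .nil))))))) (.nd (nat_lit 3) (.nd (nat_lit 4) (.nd (nat_lit 5) (.nd (nat_lit 6) 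
(.lf (nat_lit 214532) (.g (nat_lit 2913) (.e (nat_lit 90160) (nat_lit 11) (.e (nat_lit 24630) (nat_lit 9) (.e (nat_lit 336369) (nat_lit 27) (.e (nat_lit 426499) (nat_lit 27) (.e (nat_lit 335996) (nat_lit 1) .nil))))) .nil)) 
(.lf (nat_lit 214596) (.g (nat_lit 2703) (.e (nat_lit 90160) (nat_lit 11) (.e (nat_lit 24640) (nat_lit 10) (.e (nat_lit 344117) (nat_lit 21) (.e (nat_lit 516145) (nat_lit 9) (.e (nat_lit 426361) (nat_lit 15) (.e (nat_lit 2203) (nat_lit 144) (.e (nat_lit 720938) (nat_lit 22) .nil))))))) (.g (nat_lit 4) .nil .nil)))) (.nd (nat_lit 6) 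
(.lf (nat_lit 214564) (.g (nat_lit 3101) (.e (nat_lit 90160) (nat_lit 11) (.e (nat_lit 24638) (nat_lit 9) (.e (nat_lit 336012) (nat_lit 2) (.e (nat_lit 90174) (nat_lit 14) (.e (nat_lit 180225) (nat_lit 0) (.e (nat_lit 5537) (nat_lit 306) (.e (nat_lit 1074) (nat_lit 81) (.e (nat_lit 1232) (nat_lit 91) .nil)))))))) (.g (nat_lit 4) .nil .nil))) 
(.lf (nat_lit 214628) (.g (nat_lit 2543) (.e (nat_lit 90160) (nat_lit 11) (.e (nat_lit 24643) (nat_lit 11) (.e (nat_lit 368676) (nat_lit 21) (.e (nat_lit 516151) (nat_lit 9) (.e (nat_lit 433920) (nat_lit 20) .nil))))) .nil)))) (.nd (nat_lit 5) (.nd (nat_lit 6) 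
(.lf (nat_lit 214548) (.g (nat_lit 2241) (.e (nat_lit 90160) (nat_lit 11) (.e (nat_lit 24636) (nat_lit 9) (.e (nat_lit 336017) (nat_lit 3) (.e (nat_lit 98384) (nat_lit 32) (.e (nat_lit 475205) (nat_lit 40) (.e (nat_lit 704606) (nat_lit 9) (.e (nat_lit 1232) (nat_lit 91) .nil))))))) (.g (nat_lit 4) .nil .nil))) 
(.lf (nat_lit 214612) (.g (nat_lit 1627) (.e (nat_lit 90160) (nat_lit 11) (.e (nat_lit 24641) (nat_lit 10) (.e (nat_lit 344117) (nat_lit 21) (.e (nat_lit 516145) (nat_lit 9) .nil)))) .nil))) (.nd (nat_lit 6) 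
(.lf (nat_lit 214580) (.g (nat_lit 1991) (.e (nat_lit 90160) (nat_lit 11) (.e (nat_lit 32512) (nat_lit 9) (.e (nat_lit 336011) (nat_lit 2) (.e (nat_lit 90170) (nat_lit 13) (.e (nat_lit 179968) (nat_lit 20) (.e (nat_lit 114716) (nat_lit 22) .nil)))))) (.g (nat_lit 4) .nil .nil))) 
(.lf (nat_lit 214644) (.g (nat_lit 2180) (.e (nat_lit 90160) (nat_lit 11) (.e (nat_lit 24644) (nat_lit 11) (.e (nat_lit 368676) (nat_lit 21) (.e (nat_lit 516147) (nat_lit 9) (.e (nat_lit 426446) (nat_lit 20) (.e (nat_lit 114716) (nat_lit 22) .nil)))))) (.g (nat_lit 0) .nil .nil)))))) (.nd (nat_lit 4) (.nd (nat_lit 5) (.nd (nat_lit 6) 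
(.lf (nat_lit 214540) (.g (nat_lit 1619) (.e (nat_lit 90160) (nat_lit 11) (.e (nat_lit 24632) (nat_lit 9) (.e (nat_lit 336013) (nat_lit 2) (.e (nat_lit 90166) (nat_lit 13) .nil)))) .nil)) 
(.lf (nat_lit 214604) (.g (nat_lit 2147) (.e (nat_lit 90160) (nat_lit 11) (.e (nat_lit 24640) (nat_lit 10) (.e (nat_lit 344117) (nat_lit 21) (.e (nat_lit 516160) (nat_lit 10) .nil)))) .nil))) (.nd (nat_lit 6) 
(.lf (nat_lit 214572) (.g (nat_lit 1653) (.e (nat_lit 90160) (nat_lit 11) (.e (nat_lit 24638) (nat_lit 9) (.e (nat_lit 336027) (nat_lit 3) (.e (nat_lit 98355) (nat_lit 26) .nil)))) .nil)) 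
(.lf (nat_lit 214636) (.g (nat_lit 1428) (.e (nat_lit 90160) (nat_lit 11) (.e (nat_lit 24644) (nat_lit 11) (.e (nat_lit 368676) (nat_lit 21) (.e (nat_lit 516146) (nat_lit 9) (.e (nat_lit 426361) (nat_lit 15) .nil))))) .nil)))) (.nd (nat_lit 5) (.nd (nat_lit 6) 
(.lf (nat_lit 214556) (.g (nat_lit 2155) (.e (nat_lit 90160) (nat_lit 11) (.e (nat_lit 24638) (nat_lit 9) (.e (nat_lit 336004) (nat_lit 2) (.e (nat_lit 90169) (nat_lit 13) (.e (nat_lit 179968) (nat_lit 20) (.e (nat_lit 114716) (nat_lit 22) .nil)))))) (.g (nat_lit 4) .nil .nil))) 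
(.lf (nat_lit 214620) (.g (nat_lit 2924) (.e (nat_lit 90160) (nat_lit 11) (.e (nat_lit 24641) (nat_lit 10) (.e (nat_lit 344119) (nat_lit 21) (.e (nat_lit 516180) (nat_lit 15) (.e (nat_lit 475214) (nat_lit 42) (.e (nat_lit 720937) (nat_lit 22) .nil)))))) (.g (nat_lit 6) .nil .nil)))) (.nd (nat_lit 6) 
(.lf (nat_lit 214588) (.g (nat_lit 757) (.e (nat_lit 90160) (nat_lit 11) (.e (nat_lit 24640) (nat_lit 10) (.e (nat_lit 344109) (nat_lit 19) .nil))) .nil)) 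
(.lf (nat_lit 214652) (.g (nat_lit 2943) (.e (nat_lit 90160) (nat_lit 11) (.e (nat_lit 24644) (nat_lit 11) (.e (nat_lit 368676) (nat_lit 21) (.e (nat_lit 516179) (nat_lit 15) (.e (nat_lit 475199) (nat_lit 40) (.e (nat_lit 704688) (nat_lit 9) (.e (nat_lit 1232) (nat_lit 91) .nil))))))) (.g (nat_lit 5) .nil .nil)))))))) 
(.nd (nat_lit 2) (.nd (nat_lit 3) (.nd (nat_lit 4) (.nd (nat_lit 5) (.nd (nat_lit 6) 
(.lf (nat_lit 214530) (.g (nat_lit 2913) (.e (nat_lit 90160) (nat_lit 11) (.e (nat_lit 24630) (nat_lit 9) (.e (nat_lit 336369) (nat_lit 27) (.e (nat_lit 426499) (nat_lit 27) (.e (nat_lit 335993) (nat_lit 1) .nil))))) .nil)) 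
(.lf (nat_lit 214594) (.g (nat_lit 1369) (.e (nat_lit 90160) (nat_lit 11) (.e (nat_lit 24640) (nat_lit 10) (.e (nat_lit 344117) (nat_lit 21) (.e (nat_lit 516145) (nat_lit 9) .nil)))) .nil))) (.nd (nat_lit 6) 
(.lf (nat_lit 214562) (.g (nat_lit 3004) (.e (nat_lit 90160) (nat_lit 11) (.e (nat_lit 24638) (nat_lit 9) (.e (nat_lit 336012) (nat_lit 2) (.e (nat_lit 90172) (nat_lit 14) (.e (nat_lit 180225) (nat_lit 0) (.e (nat_lit 5537) (nat_lit 306) (.e (nat_lit 1074) (nat_lit 81) (.e (nat_lit 1232) (nat_lit 91) .nil)))))))) (.g (nat_lit 4) .nil .nil))) 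
(.lf (nat_lit 214626) (.g (nat_lit 1869) (.e (nat_lit 90160) (nat_lit 11) (.e (nat_lit 24643) (nat_lit 11) (.e (nat_lit 368676) (nat_lit 21) (.e (nat_lit 516146) (nat_lit 9) (.e (nat_lit 426444) (nat_lit 19) (.e (nat_lit 106517) (nat_lit 9) (.e (nat_lit 1238) (nat_lit 91) .nil))))))) (.g (nat_lit 4) .nil .nil))))) (.nd (nat_lit 5) (.nd (nat_lit 6) 
(.lf (nat_lit 214546) (.g (nat_lit 1884) (.e (nat_lit 90160) (nat_lit 11) (.e (nat_lit 24636) (nat_lit 9) (.e (nat_lit 336017) (nat_lit 3) (.e (nat_lit 98384) (nat_lit 32) (.e (nat_lit 475201) (nat_lit 40) (.e (nat_lit 704620) (nat_lit 9) (.e (nat_lit 1228) (nat_lit 91) .nil))))))) (.g (nat_lit 4) .nil .nil))) 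
(.lf (nat_lit 214610) (.g (nat_lit 1051) (.e (nat_lit 90160) (nat_lit 11) (.e (nat_lit 24640) (nat_lit 10) (.e (nat_lit 344120) (nat_lit 21) (.e (nat_lit 516180) (nat_lit 15) .nil)))) .nil))) (.nd (nat_lit 6) 
(.lf (nat_lit 214578) (.g (nat_lit 2442) (.e (nat_lit 90160) (nat_lit 11) (.e (nat_lit 24638) (nat_lit 9) (.e (nat_lit 336027) (nat_lit 3) (.e (nat_lit 98384) (nat_lit 32) (.e (nat_lit 475212) (nat_lit 42) .nil))))) .nil)) 
(.lf (nat_lit 214642) (.g (nat_lit 2554) (.e (nat_lit 90160) (nat_lit 11) (.e (nat_lit 24644) (nat_lit 11) (.e (nat_lit 368676) (nat_lit 21) (.e (nat_lit 516146) (nat_lit 9) (.e (nat_lit 426444) (nat_lit 19) (.e (nat_lit 106504) (nat_lit 9) (.e (nat_lit 1238) (nat_lit 91) .nil))))))) (.g (nat_lit 5) .nil .nil)))))) (.nd (nat_lit 4) (.nd (nat_lit 5) (.nd (nat_lit 6) 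
(.lf (nat_lit 214538) (.g (nat_lit 2620) (.e (nat_lit 90160) (nat_lit 11) (.e (nat_lit 24631) (nat_lit 9) (.e (nat_lit 336001) (nat_lit 2) (.e (nat_lit 90170) (nat_lit 13) (.e (nat_lit 179968) (nat_lit 20) (.e (nat_lit 114716) (nat_lit 22) .nil)))))) (.g (nat_lit 4) .nil .nil))) 
(.lf (nat_lit 214602) (.g (nat_lit 3296) (.e (nat_lit 90160) (nat_lit 11) (.e (nat_lit 24640) (nat_lit 10) (.e (nat_lit 344117) (nat_lit 21) (.e (nat_lit 516151) (nat_lit 9) (.e (nat_lit 426407) (nat_lit 15) (.e (nat_lit 2146) (nat_lit 142) (.e (nat_lit 704606) (nat_lit 9) (.e (nat_lit 1232) (nat_lit 91) .nil)))))))) (.g (nat_lit 4) .nil .nil)))) (.nd (nat_lit 6) 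
(.lf (nat_lit 214570) (.g (nat_lit 2618) (.e (nat_lit 90160) (nat_lit 11) (.e (nat_lit 24638) (nat_lit 9) (.e (nat_lit 336021) (nat_lit 3) (.e (nat_lit 98365) (nat_lit 26) (.e (nat_lit 426009) (nat_lit 0) .nil))))) .nil)) 
(.lf (nat_lit 214634) (.g (nat_lit 1527) (.e (nat_lit 90160) (nat_lit 11) (.e (nat_lit 24643) (nat_lit 11) (.e (nat_lit 368676) (nat_lit 21) (.e (nat_lit 516179) (nat_lit 15) (.e (nat_lit 475214) (nat_lit 42) (.e (nat_lit 728832) (nat_lit 22) .nil)))))) (.g (nat_lit 4) .nil .nil))))) (.nd (nat_lit 5) (.nd (nat_lit 6) 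
(.lf (nat_lit 214554) (.g (nat_lit 1212) (.e (nat_lit 90160) (nat_lit 11) (.e (nat_lit 24638) (nat_lit 9) (.e (nat_lit 336004) (nat_lit 2) (.e (nat_lit 90166) (nat_lit 13) .nil)))) .nil)) 
(.lf (nat_lit 214618) (.g (nat_lit 1531) (.e (nat_lit 90160) (nat_lit 11) (.e (nat_lit 24641) (nat_lit 10) (.e (nat_lit 344119) (nat_lit 21) (.e (nat_lit 516179) (nat_lit 15) (.e (nat_lit 475214) (nat_lit 42) .nil))))) .nil))) (.nd (nat_lit 6) 
(.lf (nat_lit 214586) (.g (nat_lit 1573) (.e (nat_lit 90160) (nat_lit 11) (.e (nat_lit 24640) (nat_lit 10) (.e (nat_lit 344107) (nat_lit 19) (.e (nat_lit 499825) (nat_lit 5) .nil)))) .nil)) 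
(.lf (nat_lit 214650) (.g (nat_lit 2514) (.e (nat_lit 90160) (nat_lit 11) (.e (nat_lit 24644) (nat_lit 11) (.e (nat_lit 368676) (nat_lit 21) (.e (nat_lit 516179) (nat_lit 15) (.e (nat_lit 475199) (nat_lit 40) (.e (nat_lit 704607) (nat_lit 9) (.e (nat_lit 1232) (nat_lit 91) .nil))))))) (.g (nat_lit 5) .nil .nil))))))) (.nd (nat_lit 3) (.nd (nat_lit 4) (.nd (nat_lit 5) (.nd (nat_lit 6) 
(.lf (nat_lit 214534) (.g (nat_lit 2114) (.e (nat_lit 90160) (nat_lit 11) (.e (nat_lit 24630) (nat_lit 9) (.e (nat_lit 336369) (nat_lit 27) (.e (nat_lit 426501) (nat_lit 27) (.e (nat_lit 335993) (nat_lit 1) .nil))))) .nil)) 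
(.lf (nat_lit 214598) (.g (nat_lit 3606) (.e (nat_lit 90160) (nat_lit 11) (.e (nat_lit 24640) (nat_lit 10) (.e (nat_lit 344117) (nat_lit 21) (.e (nat_lit 516145) (nat_lit 9) (.e (nat_lit 426440) (nat_lit 19) (.e (nat_lit 106504) (nat_lit 9) (.e (nat_lit 1238) (nat_lit 91) .nil))))))) (.g (nat_lit 4) .nil .nil)))) (.nd (nat_lit 6) 
(.lf (nat_lit 214566) (.g (nat_lit 1926) (.e (nat_lit 90160) (nat_lit 11) (.e (nat_lit 24638) (nat_lit 9) (.e (nat_lit 336021) (nat_lit 3) (.e (nat_lit 98358) (nat_lit 26) .nil)))) .nil)) 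
(.lf (nat_lit 214630) (.g (nat_lit 2440) (.e (nat_lit 90160) (nat_lit 11) (.e (nat_lit 24643) (nat_lit 11) (.e (nat_lit 368676) (nat_lit 21) (.e (nat_lit 516179) (nat_lit 15) (.e (nat_lit 475199) (nat_lit 40) (.e (nat_lit 704614) (nat_lit 9) (.e (nat_lit 1232) (nat_lit 91) .nil))))))) (.g (nat_lit 5) .nil .nil))))) (.nd (nat_lit 5) (.nd (nat_lit 6) 
(.lf (nat_lit 214550) (.g (nat_lit 2476) (.e (nat_lit 90160) (nat_lit 11) (.e (nat_lit 24637) (nat_lit 9) (.e (nat_lit 336011) (nat_lit 2) (.e (nat_lit 90170) (nat_lit 13) (.e (nat_lit 179968) (nat_lit 20) .nil))))) .nil)) 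
(.lf (nat_lit 214614) (.g (nat_lit 4054) (.e (nat_lit 90160) (nat_lit 11) (.e (nat_lit 24641) (nat_lit 10) (.e (nat_lit 344117) (nat_lit 21) (.e (nat_lit 516151) (nat_lit 9) (.e (nat_lit 433920) (nat_lit 20) .nil))))) .nil))) (.nd (nat_lit 6) 
(.lf (nat_lit 214582) (.g (nat_lit 3272) (.e (nat_lit 90160) (nat_lit 11) (.e (nat_lit 24639) (nat_lit 10) (.e (nat_lit 344117) (nat_lit 21) (.e (nat_lit 516145) (nat_lit 9) (.e (nat_lit 426449) (nat_lit 20) (.e (nat_lit 114714) (nat_lit 22) .nil)))))) (.g (nat_lit 4) .nil .nil))) 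
(.lf (nat_lit 214646) (.g (nat_lit 2737) (.e (nat_lit 90160) (nat_lit 11) (.e (nat_lit 24644) (nat_lit 11) (.e (nat_lit 368676) (nat_lit 21) (.e (nat_lit 516151) (nat_lit 9) (.e (nat_lit 433920) (nat_lit 20) .nil))))) .nil))))) (.nd (nat_lit 4) (.nd (nat_lit 5) (.nd (nat_lit 6) 
(.lf (nat_lit 214542) (.g (nat_lit 1739) (.e (nat_lit 90160) (nat_lit 11) (.e (nat_lit 24636) (nat_lit 9) (.e (nat_lit 336017) (nat_lit 3) (.e (nat_lit 98356) (nat_lit 26) (.e (nat_lit 426361) (nat_lit 15) (.e (nat_lit 2195) (nat_lit 144) (.e (nat_lit 720941) (nat_lit 22) .nil))))))) (.g (nat_lit 4) .nil .nil))) 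
(.lf (nat_lit 214606) (.g (nat_lit 693) (.e (nat_lit 90160) (nat_lit 11) (.e (nat_lit 24640) (nat_lit 10) (.e (nat_lit 344118) (nat_lit 21) .nil))) .nil))) (.nd (nat_lit 6) 
(.lf (nat_lit 214574) (.g (nat_lit 1425) (.e (nat_lit 90160) (nat_lit 11) (.e (nat_lit 24638) (nat_lit 9) (.e (nat_lit 336027) (nat_lit 3) (.e (nat_lit 98356) (nat_lit 26) .nil)))) .nil)) 
(.lf (nat_lit 214638) (.g (nat_lit 2113) (.e (nat_lit 90160) (nat_lit 11) (.e (nat_lit 24644) (nat_lit 11) (.e (nat_lit 368676) (nat_lit 21) (.e (nat_lit 516146) (nat_lit 9) (.e (nat_lit 426439) (nat_lit 19) (.e (nat_lit 106517) (nat_lit 9) (.e (nat_lit 1238) (nat_lit 91) .nil))))))) (.g (nat_lit 4) .nil .nil))))) (.nd (nat_lit 5) (.nd (nat_lit 6) 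
(.lf (nat_lit 214558) (.g (nat_lit 1267) (.e (nat_lit 90160) (nat_lit 11) (.e (nat_lit 24638) (nat_lit 9) (.e (nat_lit 336004) (nat_lit 2) (.e (nat_lit 90186) (nat_lit 17) .nil)))) .nil)) 
(.lf (nat_lit 214622) (.g (nat_lit 1950) (.e (nat_lit 90160) (nat_lit 11) (.e (nat_lit 24643) (nat_lit 11) (.e (nat_lit 368676) (nat_lit 21) (.e (nat_lit 516146) (nat_lit 9) (.e (nat_lit 426439) (nat_lit 19) (.e (nat_lit 106517) (nat_lit 9) (.e (nat_lit 1238) (nat_lit 91) .nil))))))) (.g (nat_lit 4) .nil .nil)))) (.nd (nat_lit 6) 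
(.lf (nat_lit 214590) (.g (nat_lit 516) (.e (nat_lit 90160) (nat_lit 11) (.e (nat_lit 24640) (nat_lit 10) (.e (nat_lit 344117) (nat_lit 21) .nil))) .nil)) 
(.lf (nat_lit 214654) (.g (nat_lit 2177) (.e (nat_lit 90160) (nat_lit 11) (.e (nat_lit 24644) (nat_lit 11) (.e (nat_lit 368676) (nat_lit 21) (.e (nat_lit 516179) (nat_lit 15) (.e (nat_lit 475201) (nat_lit 40) (.e (nat_lit 704620) (nat_lit 9) (.e (nat_lit 1237) (nat_lit 91) .nil))))))) (.g (nat_lit 4) .nil .nil))))))))) 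
(.nd (nat_lit 1) (.nd (nat_lit 2) (.nd (nat_lit 3) (.nd (nat_lit 4) (.nd (nat_lit 5) 
(.nd (nat_lit 6) 
(.lf (nat_lit 214529) (.g (nat_lit 2913) (.e (nat_lit 90160) (nat_lit 11) (.e (nat_lit 24630) (nat_lit 9) (.e (nat_lit 336369) (nat_lit 27) (.e (nat_lit 426499) (nat_lit 27) (.e (nat_lit 335987) (nat_lit 1) .nil))))) .nil)) 
(.lf (nat_lit 214593) (.g (nat_lit 2178) (.e (nat_lit 90160) (nat_lit 11) (.e (nat_lit 24640) (nat_lit 10) (.e (nat_lit 344117) (nat_lit 21) (.e (nat_lit 516144) (nat_lit 9) (.e (nat_lit 426448) (nat_lit 20) .nil))))) .nil))) (.nd (nat_lit 6) 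
(.lf (nat_lit 214561) (.g (nat_lit 2864) (.e (nat_lit 90160) (nat_lit 11) (.e (nat_lit 24638) (nat_lit 9) (.e (nat_lit 336012) (nat_lit 2) (.e (nat_lit 90172) (nat_lit 14) (.e (nat_lit 180224) (nat_lit 0) (.e (nat_lit 5537) (nat_lit 306) (.e (nat_lit 1077) (nat_lit 81) (.e (nat_lit 1232) (nat_lit 91) .nil)))))))) (.g (nat_lit 4) .nil .nil))) 
(.lf (nat_lit 214625) (.g (nat_lit 2421) (.e (nat_lit 90160) (nat_lit 11) (.e (nat_lit 24643) (nat_lit 11) (.e (nat_lit 368676) (nat_lit 21) (.e (nat_lit 516146) (nat_lit 9) (.e (nat_lit 426444) (nat_lit 19) (.e (nat_lit 106504) (nat_lit 9) (.e (nat_lit 1238) (nat_lit 91) .nil))))))) (.g (nat_lit 5) .nil .nil))))) (.nd (nat_lit 5) (.nd (nat_lit 6) 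
(.lf (nat_lit 214545) (.g (nat_lit 2089) (.e (nat_lit 90160) (nat_lit 11) (.e (nat_lit 24636) (nat_lit 9) (.e (nat_lit 336017) (nat_lit 3) (.e (nat_lit 98357) (nat_lit 26) (.e (nat_lit 426446) (nat_lit 20) (.e (nat_lit 114716) (nat_lit 22) .nil)))))) (.g (nat_lit 0) .nil .nil))) 
(.lf (nat_lit 214609) (.g (nat_lit 1687) (.e (nat_lit 90160) (nat_lit 11) (.e (nat_lit 24640) (nat_lit 10) (.e (nat_lit 344120) (nat_lit 21) (.e (nat_lit 516179) (nat_lit 15) (.e (nat_lit 475214) (nat_lit 42) .nil))))) .nil))) (.nd (nat_lit 6) 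
(.lf (nat_lit 214577) (.g (nat_lit 2174) (.e (nat_lit 90160) (nat_lit 11) (.e (nat_lit 24638) (nat_lit 9) (.e (nat_lit 336027) (nat_lit 3) (.e (nat_lit 98363) (nat_lit 26) (.e (nat_lit 433920) (nat_lit 20) (.e (nat_lit 114716) (nat_lit 22) .nil)))))) (.g (nat_lit 4) .nil .nil))) 
(.lf (nat_lit 214641) (.g (nat_lit 2101) (.e (nat_lit 90160) (nat_lit 11) (.e (nat_lit 24644) (nat_lit 11) (.e (nat_lit 368676) (nat_lit 21) (.e (nat_lit 516146) (nat_lit 9) (.e (nat_lit 426440) (nat_lit 19) (.e (nat_lit 106520) (nat_lit 9) (.e (nat_lit 1228) (nat_lit 91) .nil))))))) (.g (nat_lit 4) .nil .nil)))))) (.nd (nat_lit 4) (.nd (nat_lit 5) (.nd (nat_lit 6) 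
(.lf (nat_lit 214537) (.g (nat_lit 1167) (.e (nat_lit 90160) (nat_lit 11) (.e (nat_lit 24630) (nat_lit 9) (.e (nat_lit 336414) (nat_lit 27) (.e (nat_lit 426503) (nat_lit 27) .nil)))) .nil)) 
(.lf (nat_lit 214601) (.g (nat_lit 3165) (.e (nat_lit 90160) (nat_lit 11) (.e (nat_lit 24640) (nat_lit 10) (.e (nat_lit 344117) (nat_lit 21) (.e (nat_lit 516151) (nat_lit 9) (.e (nat_lit 426407) (nat_lit 15) .nil))))) .nil))) (.nd (nat_lit 6) 
(.lf (nat_lit 214569) (.g (nat_lit 1794) (.e (nat_lit 90160) (nat_lit 11) (.e (nat_lit 24638) (nat_lit 9) (.e (nat_lit 336021) (nat_lit 3) (.e (nat_lit 98365) (nat_lit 26) .nil)))) .nil)) 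
(.lf (nat_lit 214633) (.g (nat_lit 2046) (.e (nat_lit 90160) (nat_lit 11) (.e (nat_lit 24643) (nat_lit 11) (.e (nat_lit 368676) (nat_lit 21) (.e (nat_lit 516179) (nat_lit 15) (.e (nat_lit 475201) (nat_lit 40) (.e (nat_lit 704620) (nat_lit 9) (.e (nat_lit 1237) (nat_lit 91) .nil))))))) (.g (nat_lit 4) .nil .nil))))) (.nd (nat_lit 5) (.nd (nat_lit 6) 
(.lf (nat_lit 214553) (.g (nat_lit 389) (.e (nat_lit 90160) (nat_lit 11) (.e (nat_lit 24638) (nat_lit 9) (.e (nat_lit 336004) (nat_lit 2) .nil))) .nil)) 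
(.lf (nat_lit 214617) (.g (nat_lit 500) (.e (nat_lit 90160) (nat_lit 11) (.e (nat_lit 24641) (nat_lit 10) (.e (nat_lit 344119) (nat_lit 21) .nil))) .nil))) (.nd (nat_lit 6) 
(.lf (nat_lit 214585) (.g (nat_lit 1790) (.e (nat_lit 90160) (nat_lit 11) (.e (nat_lit 24640) (nat_lit 10) (.e (nat_lit 344105) (nat_lit 19) (.e (nat_lit 499919) (nat_lit 9) (.e (nat_lit 179968) (nat_lit 20) .nil))))) .nil)) 
(.lf (nat_lit 214649) (.g (nat_lit 2114) (.e (nat_lit 90160) (nat_lit 11) (.e (nat_lit 24644) (nat_lit 11) (.e (nat_lit 368676) (nat_lit 21) (.e (nat_lit 516179) (nat_lit 15) (.e (nat_lit 475198) (nat_lit 40) (.e (nat_lit 704707) (nat_lit 9) (.e (nat_lit 1228) (nat_lit 91) .nil))))))) (.g (nat_lit 4) .nil .nil))))))) (.nd (nat_lit 3) (.nd (nat_lit 4) (.nd (nat_lit 5) (.nd (nat_lit 6) 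
(.lf (nat_lit 214533) (.g (nat_lit 1627) (.e (nat_lit 90160) (nat_lit 11) (.e (nat_lit 24630) (nat_lit 9) (.e (nat_lit 336369) (nat_lit 27) (.e (nat_lit 426501) (nat_lit 27) .nil)))) .nil)) 
(.lf (nat_lit 214597) (.g (nat_lit 2958) (.e (nat_lit 90160) (nat_lit 11) (.e (nat_lit 24640) (nat_lit 10) (.e (nat_lit 344117) (nat_lit 21) (.e (nat_lit 516145) (nat_lit 9) (.e (nat_lit 426361) (nat_lit 15) (.e (nat_lit 2203) (nat_lit 144) (.e (nat_lit 720941) (nat_lit 22) .nil))))))) (.g (nat_lit 4) .nil .nil)))) (.nd (nat_lit 6) 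
(.lf (nat_lit 214565) (.g (nat_lit 2797) (.e (nat_lit 90160) (nat_lit 11) (.e (nat_lit 24638) (nat_lit 9) (.e (nat_lit 336021) (nat_lit 3) (.e (nat_lit 98356) (nat_lit 26) (.e (nat_lit 426448) (nat_lit 20) .nil))))) .nil)) 
(.lf (nat_lit 214629) (.g (nat_lit 2380) (.e (nat_lit 90160) (nat_lit 11) (.e (nat_lit 24643) (nat_lit 11) (.e (nat_lit 368676) (nat_lit 21) (.e (nat_lit 516179) (nat_lit 15) (.e (nat_lit 475199) (nat_lit 40) (.e (nat_lit 704607) (nat_lit 9) (.e (nat_lit 1232) (nat_lit 91) .nil))))))) (.g (nat_lit 5) .nil .nil))))) (.nd (nat_lit 5) (.nd (nat_lit 6) 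
(.lf (nat_lit 214549) (.g (nat_lit 1173) (.e (nat_lit 90160) (nat_lit 11) (.e (nat_lit 24636) (nat_lit 9) (.e (nat_lit 336017) (nat_lit 3) (.e (nat_lit 98384) (nat_lit 32) (.e (nat_lit 483072) (nat_lit 42) .nil))))) .nil)) 
(.lf (nat_lit 214613) (.g (nat_lit 3281) (.e (nat_lit 90160) (nat_lit 11) (.e (nat_lit 24641) (nat_lit 10) (.e (nat_lit 344117) (nat_lit 21) (.e (nat_lit 516145) (nat_lit 9) (.e (nat_lit 426448) (nat_lit 20) .nil))))) .nil))) (.nd (nat_lit 6) 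
(.lf (nat_lit 214581) (.g (nat_lit 322) (.e (nat_lit 90160) (nat_lit 11) (.e (nat_lit 24639) (nat_lit 10) (.e (nat_lit 344117) (nat_lit 21) .nil))) .nil)) 
(.lf (nat_lit 214645) (.g (nat_lit 1750) (.e (nat_lit 90160) (nat_lit 11) (.e (nat_lit 24644) (nat_lit 11) (.e (nat_lit 368676) (nat_lit 21) (.e (nat_lit 516150) (nat_lit 9) (.e (nat_lit 433920) (nat_lit 20) (.e (nat_lit 114716) (nat_lit 22) .nil)))))) (.g (nat_lit 4) .nil .nil)))))) (.nd (nat_lit 4) (.nd (nat_lit 5) (.nd (nat_lit 6) 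
(.lf (nat_lit 214541) (.g (nat_lit 1375) (.e (nat_lit 90160) (nat_lit 11) (.e (nat_lit 24632) (nat_lit 9) (.e (nat_lit 336028) (nat_lit 3) (.e (nat_lit 98385) (nat_lit 32) .nil)))) .nil)) 
(.lf (nat_lit 214605) (.g (nat_lit 1203) (.e (nat_lit 90160) (nat_lit 11) (.e (nat_lit 24640) (nat_lit 10) (.e (nat_lit 344117) (nat_lit 21) (.e (nat_lit 516179) (nat_lit 15) .nil)))) .nil))) (.nd (nat_lit 6) 
(.lf (nat_lit 214573) (.g (nat_lit 2027) (.e (nat_lit 90160) (nat_lit 11) (.e (nat_lit 24638) (nat_lit 9) (.e (nat_lit 336027) (nat_lit 3) (.e (nat_lit 98355) (nat_lit 26) (.e (nat_lit 426446) (nat_lit 20) .nil))))) .nil)) 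
(.lf (nat_lit 214637) (.g (nat_lit 1555) (.e (nat_lit 90160) (nat_lit 11) (.e (nat_lit 24644) (nat_lit 11) (.e (nat_lit 368676) (nat_lit 21) (.e (nat_lit 516146) (nat_lit 9) (.e (nat_lit 426361) (nat_lit 15) (.e (nat_lit 2190) (nat_lit 144) (.e (nat_lit 720937) (nat_lit 22) .nil))))))) (.g (nat_lit 4) .nil .nil))))) (.nd (nat_lit 5) (.nd (nat_lit 6) 
(.lf (nat_lit 214557) (.g (nat_lit 2262) (.e (nat_lit 90160) (nat_lit 11) (.e (nat_lit 24638) (nat_lit 9) (.e (nat_lit 336004) (nat_lit 2) (.e (nat_lit 90172) (nat_lit 14) (.e (nat_lit 180224) (nat_lit 0) .nil))))) .nil)) 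
(.lf (nat_lit 214621) (.g (nat_lit 1102) (.e (nat_lit 90160) (nat_lit 11) (.e (nat_lit 24643) (nat_lit 11) (.e (nat_lit 368676) (nat_lit 21) (.e (nat_lit 516143) (nat_lit 9) .nil)))) .nil))) (.nd (nat_lit 6) 
(.lf (nat_lit 214589) (.g (nat_lit 1536) (.e (nat_lit 90160) (nat_lit 11) (.e (nat_lit 24640) (nat_lit 10) (.e (nat_lit 344111) (nat_lit 19) (.e (nat_lit 499919) (nat_lit 9) (.e (nat_lit 179968) (nat_lit 20) .nil))))) .nil)) 
(.lf (nat_lit 214653) (.g (nat_lit 2553) (.e (nat_lit 90160) (nat_lit 11) (.e (nat_lit 24644) (nat_lit 11) (.e (nat_lit 368676) (nat_lit 21) (.e (nat_lit 516179) (nat_lit 15) (.e (nat_lit 475199) (nat_lit 40) (.e (nat_lit 704707) (nat_lit 9) (.e (nat_lit 1228) (nat_lit 91) .nil))))))) (.g (nat_lit 5) .nil .nil)))))))) 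
(.nd (nat_lit 2) (.nd (nat_lit 3) (.nd (nat_lit 4) (.nd (nat_lit 5) (.nd (nat_lit 6) 
(.lf (nat_lit 214531) (.g (nat_lit 2913) (.e (nat_lit 90160) (nat_lit 11) (.e (nat_lit 24630) (nat_lit 9) (.e (nat_lit 336369) (nat_lit 27) (.e (nat_lit 426499) (nat_lit 27) (.e (nat_lit 335995) (nat_lit 1) .nil))))) .nil)) 
(.lf (nat_lit 214595) (.g (nat_lit 2541) (.e (nat_lit 90160) (nat_lit 11) (.e (nat_lit 24640) (nat_lit 10) (.e (nat_lit 344117) (nat_lit 21) (.e (nat_lit 516145) (nat_lit 9) (.e (nat_lit 426361) (nat_lit 15) .nil))))) .nil))) (.nd (nat_lit 6) 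
(.lf (nat_lit 214563) (.g (nat_lit 2024) (.e (nat_lit 90160) (nat_lit 11) (.e (nat_lit 24638) (nat_lit 9) (.e (nat_lit 336012) (nat_lit 2) (.e (nat_lit 90172) (nat_lit 14) (.e (nat_lit 188160) (nat_lit 0) .nil))))) .nil)) 
(.lf (nat_lit 214627) (.g (nat_lit 1593) (.e (nat_lit 90160) (nat_lit 11) (.e (nat_lit 24643) (nat_lit 11) (.e (nat_lit 368676) (nat_lit 21) (.e (nat_lit 516150) (nat_lit 9) (.e (nat_lit 433920) (nat_lit 20) (.e (nat_lit 114716) (nat_lit 22) .nil)))))) (.g (nat_lit 4) .nil .nil))))) (.nd (nat_lit 5) (.nd (nat_lit 6) 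
(.lf (nat_lit 214547) (.g (nat_lit 2127) (.e (nat_lit 90160) (nat_lit 11) (.e (nat_lit 24636) (nat_lit 9) (.e (nat_lit 336017) (nat_lit 3) (.e (nat_lit 98384) (nat_lit 32) (.e (nat_lit 475201) (nat_lit 40) (.e (nat_lit 704620) (nat_lit 9) (.e (nat_lit 1237) (nat_lit 91) .nil))))))) (.g (nat_lit 4) .nil .nil))) 
(.lf (nat_lit 214611) (.g (nat_lit 1067) (.e (nat_lit 90160) (nat_lit 11) (.e (nat_lit 24641) (nat_lit 10) (.e (nat_lit 344107) (nat_lit 19) (.e (nat_lit 499825) (nat_lit 5) .nil)))) .nil))) (.nd (nat_lit 6) 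
(.lf (nat_lit 214579) (.g (nat_lit 2064) (.e (nat_lit 90160) (nat_lit 11) (.e (nat_lit 32512) (nat_lit 9) (.e (nat_lit 336011) (nat_lit 2) (.e (nat_lit 90170) (nat_lit 13) (.e (nat_lit 179968) (nat_lit 20) (.e (nat_lit 114714) (nat_lit 22) .nil)))))) (.g (nat_lit 4) .nil .nil))) 
(.lf (nat_lit 214643) (.g (nat_lit 2002) (.e (nat_lit 90160) (nat_lit 11) (.e (nat_lit 24644) (nat_lit 11) (.e (nat_lit 368676) (nat_lit 21) (.e (nat_lit 516146) (nat_lit 9) (.e (nat_lit 426444) (nat_lit 19) (.e (nat_lit 106517) (nat_lit 9) (.e (nat_lit 1238) (nat_lit 91) .nil))))))) (.g (nat_lit 4) .nil .nil)))))) (.nd (nat_lit 4) (.nd (nat_lit 5) (.nd (nat_lit 6) 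
(.lf (nat_lit 214539) (.g (nat_lit 1368) (.e (nat_lit 90160) (nat_lit 11) (.e (nat_lit 24631) (nat_lit 9) (.e (nat_lit 336001) (nat_lit 2) (.e (nat_lit 90185) (nat_lit 17) (.e (nat_lit 245504) (nat_lit 20) .nil))))) .nil)) 
(.lf (nat_lit 214603) (.g (nat_lit 2588) (.e (nat_lit 90160) (nat_lit 11) (.e (nat_lit 24640) (nat_lit 10) (.e (nat_lit 344117) (nat_lit 21) (.e (nat_lit 516159) (nat_lit 10) (.e (nat_lit 434202) (nat_lit 18) .nil))))) .nil))) (.nd (nat_lit 6) 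
(.lf (nat_lit 214571) (.g (nat_lit 2731) (.e (nat_lit 90160) (nat_lit 11) (.e (nat_lit 24638) (nat_lit 9) (.e (nat_lit 336021) (nat_lit 3) (.e (nat_lit 98385) (nat_lit 32) (.e (nat_lit 475212) (nat_lit 42) (.e (nat_lit 720938) (nat_lit 22) .nil)))))) (.g (nat_lit 0) .nil .nil))) 
(.lf (nat_lit 214635) (.g (nat_lit 618) (.e (nat_lit 90160) (nat_lit 11) (.e (nat_lit 24644) (nat_lit 11) (.e (nat_lit 368676) (nat_lit 21) (.e (nat_lit 516146) (nat_lit 9) .nil)))) .nil)))) (.nd (nat_lit 5) (.nd (nat_lit 6) 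
(.lf (nat_lit 214555) (.g (nat_lit 1284) (.e (nat_lit 90160) (nat_lit 11) (.e (nat_lit 24638) (nat_lit 9) (.e (nat_lit 336004) (nat_lit 2) (.e (nat_lit 90168) (nat_lit 13) .nil)))) .nil)) 
(.lf (nat_lit 214619) (.g (nat_lit 2535) (.e (nat_lit 90160) (nat_lit 11) (.e (nat_lit 24641) (nat_lit 10) (.e (nat_lit 344119) (nat_lit 21) (.e (nat_lit 516180) (nat_lit 15) (.e (nat_lit 475212) (nat_lit 42) (.e (nat_lit 720938) (nat_lit 22) .nil)))))) (.g (nat_lit 5) .nil .nil)))) (.nd (nat_lit 6) 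
(.lf (nat_lit 214587) (.g (nat_lit 1047) (.e (nat_lit 90160) (nat_lit 11) (.e (nat_lit 24640) (nat_lit 10) (.e (nat_lit 344108) (nat_lit 19) (.e (nat_lit 499919) (nat_lit 9) .nil)))) .nil)) 
(.lf (nat_lit 214651) (.g (nat_lit 2574) (.e (nat_lit 90160) (nat_lit 11) (.e (nat_lit 24644) (nat_lit 11) (.e (nat_lit 368676) (nat_lit 21) (.e (nat_lit 516179) (nat_lit 15) (.e (nat_lit 475199) (nat_lit 40) (.e (nat_lit 704614) (nat_lit 9) (.e (nat_lit 1232) (nat_lit 91) .nil))))))) (.g (nat_lit 5) .nil .nil))))))) (.nd (nat_lit 3) (.nd (nat_lit 4) (.nd (nat_lit 5) (.nd (nat_lit 6) 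
(.lf (nat_lit 214535) (.g (nat_lit 1627) (.e (nat_lit 90160) (nat_lit 11) (.e (nat_lit 24630) (nat_lit 9) (.e (nat_lit 336369) (nat_lit 27) (.e (nat_lit 426513) (nat_lit 27) .nil)))) .nil)) 
(.lf (nat_lit 214599) (.g (nat_lit 3934) (.e (nat_lit 90160) (nat_lit 11) (.e (nat_lit 24640) (nat_lit 10) (.e (nat_lit 344117) (nat_lit 21) (.e (nat_lit 516145) (nat_lit 9) (.e (nat_lit 426440) (nat_lit 19) (.e (nat_lit 106517) (nat_lit 9) (.e (nat_lit 1238) (nat_lit 91) .nil))))))) (.g (nat_lit 4) .nil .nil)))) (.nd (nat_lit 6) 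
(.lf (nat_lit 214567) (.g (nat_lit 1909) (.e (nat_lit 90160) (nat_lit 11) (.e (nat_lit 24638) (nat_lit 9) (.e (nat_lit 336021) (nat_lit 3) (.e (nat_lit 98363) (nat_lit 26) (.e (nat_lit 426445) (nat_lit 20) .nil))))) .nil)) 
(.lf (nat_lit 214631) (.g (nat_lit 2809) (.e (nat_lit 90160) (nat_lit 11) (.e (nat_lit 24643) (nat_lit 11) (.e (nat_lit 368676) (nat_lit 21) (.e (nat_lit 516179) (nat_lit 15) (.e (nat_lit 475199) (nat_lit 40) (.e (nat_lit 704688) (nat_lit 9) (.e (nat_lit 1232) (nat_lit 91) .nil))))))) (.g (nat_lit 5) .nil .nil))))) (.nd (nat_lit 5) (.nd (nat_lit 6) 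
(.lf (nat_lit 214551) (.g (nat_lit 1502) (.e (nat_lit 90160) (nat_lit 11) (.e (nat_lit 24637) (nat_lit 9) (.e (nat_lit 336021) (nat_lit 3) (.e (nat_lit 98357) (nat_lit 26) (.e (nat_lit 426446) (nat_lit 20) .nil))))) .nil)) 
(.lf (nat_lit 214615) (.g (nat_lit 4152) (.e (nat_lit 90160) (nat_lit 11) (.e (nat_lit 24641) (nat_lit 10) (.e (nat_lit 344117) (nat_lit 21) (.e (nat_lit 516151) (nat_lit 9) (.e (nat_lit 433920) (nat_lit 20) (.e (nat_lit 114714) (nat_lit 22) .nil)))))) (.g (nat_lit 4) .nil .nil)))) (.nd (nat_lit 6) 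
(.lf (nat_lit 214583) (.g (nat_lit 2882) (.e (nat_lit 90160) (nat_lit 11) (.e (nat_lit 24639) (nat_lit 10) (.e (nat_lit 344117) (nat_lit 21) (.e (nat_lit 516145) (nat_lit 9) (.e (nat_lit 433920) (nat_lit 20) (.e (nat_lit 114716) (nat_lit 22) .nil)))))) (.g (nat_lit 4) .nil .nil))) 
(.lf (nat_lit 214647) (.g (nat_lit 2752) (.e (nat_lit 90160) (nat_lit 11) (.e (nat_lit 24644) (nat_lit 11) (.e (nat_lit 368676) (nat_lit 21) (.e (nat_lit 516151) (nat_lit 9) (.e (nat_lit 433920) (nat_lit 20) (.e (nat_lit 114714) (nat_lit 22) .nil)))))) (.g (nat_lit 4) .nil .nil)))))) (.nd (nat_lit 4) (.nd (nat_lit 5) (.nd (nat_lit 6) 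
(.lf (nat_lit 214543) (.g (nat_lit 1530) (.e (nat_lit 90160) (nat_lit 11) (.e (nat_lit 24636) (nat_lit 9) (.e (nat_lit 336017) (nat_lit 3) (.e (nat_lit 98356) (nat_lit 26) (.e (nat_lit 426361) (nat_lit 15) (.e (nat_lit 2206) (nat_lit 144) (.e (nat_lit 720937) (nat_lit 22) .nil))))))) (.g (nat_lit 4) .nil .nil))) 
(.lf (nat_lit 214607) (.g (nat_lit 749) (.e (nat_lit 90160) (nat_lit 11) (.e (nat_lit 24640) (nat_lit 10) (.e (nat_lit 344120) (nat_lit 21) .nil))) .nil))) (.nd (nat_lit 6) 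
(.lf (nat_lit 214575) (.g (nat_lit 2182) (.e (nat_lit 90160) (nat_lit 11) (.e (nat_lit 24638) (nat_lit 9) (.e (nat_lit 336027) (nat_lit 3) (.e (nat_lit 98356) (nat_lit 26) (.e (nat_lit 426446) (nat_lit 20) .nil))))) .nil)) 
(.lf (nat_lit 214639) (.g (nat_lit 1994) (.e (nat_lit 90160) (nat_lit 11) (.e (nat_lit 24644) (nat_lit 11) (.e (nat_lit 368676) (nat_lit 21) (.e (nat_lit 516146) (nat_lit 9) (.e (nat_lit 426440) (nat_lit 19) (.e (nat_lit 106504) (nat_lit 9) (.e (nat_lit 1238) (nat_lit 91) .nil))))))) (.g (nat_lit 4) .nil .nil))))) (.nd (nat_lit 5) (.nd (nat_lit 6) 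
(.lf (nat_lit 214559) (.g (nat_lit 3090) (.e (nat_lit 90160) (nat_lit 11) (.e (nat_lit 24638) (nat_lit 9) (.e (nat_lit 336011) (nat_lit 2) (.e (nat_lit 90170) (nat_lit 13) (.e (nat_lit 179968) (nat_lit 20) .nil))))) .nil)) 
(.lf (nat_lit 214623) (.g (nat_lit 2169) (.e (nat_lit 90160) (nat_lit 11) (.e (nat_lit 24643) (nat_lit 11) (.e (nat_lit 368676) (nat_lit 21) (.e (nat_lit 516146) (nat_lit 9) (.e (nat_lit 426440) (nat_lit 19) (.e (nat_lit 106517) (nat_lit 9) (.e (nat_lit 1238) (nat_lit 91) .nil))))))) (.g (nat_lit 4) .nil .nil)))) (.nd (nat_lit 6) 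
(.lf (nat_lit 214591) (.g (nat_lit 1823) (.e (nat_lit 90160) (nat_lit 11) (.e (nat_lit 24640) (nat_lit 10) (.e (nat_lit 344117) (nat_lit 21) (.e (nat_lit 516143) (nat_lit 9) .nil)))) .nil)) 
(.lf (nat_lit 214655) (.g (nat_lit 1644) (.e (nat_lit 90160) (nat_lit 11) (.e (nat_lit 24644) (nat_lit 11) (.e (nat_lit 368676) (nat_lit 21) (.e (nat_lit 516179) (nat_lit 15) (.e (nat_lit 475214) (nat_lit 42) (.e (nat_lit 728832) (nat_lit 22) .nil)))))) (.g (nat_lit 4) .nil .nil))))))))))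

noncomputable def tv2824 : DT := (.nd (nat_lit 0) (.nd (nat_lit 1) (.nd (nat_lit 2) (.nd (nat_lit 3) (.nd (nat_lit 4) (.nd (nat_lit 5) (.nd (nat_lit 6) 
(.lf (nat_lit 214656) (.g (nat_lit 1139) (.e (nat_lit 90160) (nat_lit 11) (.e (nat_lit 24644) (nat_lit 11) (.e (nat_lit 368676) (nat_lit 21) (.e (nat_lit 516181) (nat_lit 15) (.e (nat_lit 475213) (nat_lit 42) .nil))))) .nil)) 
(.lf (nat_lit 214720) (.g (nat_lit 409) (.e (nat_lit 90164) (nat_lit 12) (.e (nat_lit 164031) (nat_lit 53) (.e (nat_lit 769792) (nat_lit 9) .nil))) .nil))) (.nd (nat_lit 6) 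
(.lf (nat_lit 214688) (.g (nat_lit 1306) (.e (nat_lit 90160) (nat_lit 11) (.e (nat_lit 24662) (nat_lit 14) (.e (nat_lit 401468) (nat_lit 27) .nil))) .nil)) 
(.lf (nat_lit 214752) (.g (nat_lit 1251) (.e (nat_lit 90165) (nat_lit 12) (.e (nat_lit 171776) (nat_lit 192) (.e (nat_lit 73755) (nat_lit 8) (.e (nat_lit 557067) (nat_lit 9) (.e (nat_lit 7936) (nat_lit 26) (.e (nat_lit 376864) (nat_lit 22) .nil)))))) (.g (nat_lit 4) .nil .nil))))) (.nd (nat_lit 5) (.nd (nat_lit 6) 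
(.lf (nat_lit 214672) (.g (nat_lit 1568) (.e (nat_lit 90160) (nat_lit 11) (.e (nat_lit 24657) (nat_lit 13) (.e (nat_lit 393225) (nat_lit 9) (.e (nat_lit 335988) (nat_lit 1) (.e (nat_lit 57854) (nat_lit 252) .nil))))) .nil)) 
(.lf (nat_lit 214736) (.g (nat_lit 1351) (.e (nat_lit 90165) (nat_lit 12) (.e (nat_lit 164238) (nat_lit 187) (.e (nat_lit 1638) (nat_lit 114) (.e (nat_lit 385045) (nat_lit 21) .nil)))) .nil))) (.nd (nat_lit 6) 
(.lf (nat_lit 214704) (.g (nat_lit 798) (.e (nat_lit 90160) (nat_lit 11) (.e (nat_lit 24665) (nat_lit 14) (.e (nat_lit 409344) (nat_lit 27) .nil))) .nil)) 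
(.lf (nat_lit 214768) (.g (nat_lit 1901) (.e (nat_lit 90166) (nat_lit 13) (.e (nat_lit 172126) (nat_lit 14) (.e (nat_lit 491540) (nat_lit 3) (.e (nat_lit 98350) (nat_lit 24) .nil)))) .nil))))) (.nd (nat_lit 4) (.nd (nat_lit 5) (.nd (nat_lit 6) 
(.lf (nat_lit 214664) (.g (nat_lit 1106) (.e (nat_lit 90160) (nat_lit 11) (.e (nat_lit 24655) (nat_lit 13) (.e (nat_lit 393228) (nat_lit 9) (.e (nat_lit 335995) (nat_lit 1) .nil)))) .nil)) 
(.lf (nat_lit 214728) (.g (nat_lit 1472) (.e (nat_lit 90165) (nat_lit 12) (.e (nat_lit 164207) (nat_lit 176) (.e (nat_lit 2819) (nat_lit 181) (.e (nat_lit 311315) (nat_lit 3) (.e (nat_lit 204877) (nat_lit 31) .nil))))) .nil))) (.nd (nat_lit 6) 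
(.lf (nat_lit 214696) (.g (nat_lit 3084) (.e (nat_lit 90160) (nat_lit 11) (.e (nat_lit 24665) (nat_lit 14) (.e (nat_lit 401414) (nat_lit 0) (.e (nat_lit 3272) (nat_lit 199) (.e (nat_lit 548911) (nat_lit 18) .nil))))) .nil)) 
(.lf (nat_lit 214760) (.g (nat_lit 3992) (.e (nat_lit 90166) (nat_lit 13) (.e (nat_lit 172094) (nat_lit 9) (.e (nat_lit 426125) (nat_lit 2) (.e (nat_lit 196630) (nat_lit 9) (.e (nat_lit 1395) (nat_lit 106) .nil))))) .nil)))) (.nd (nat_lit 5) (.nd (nat_lit 6) 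
(.lf (nat_lit 214680) (.g (nat_lit 1498) (.e (nat_lit 90160) (nat_lit 11) (.e (nat_lit 24660) (nat_lit 13) (.e (nat_lit 393228) (nat_lit 9) (.e (nat_lit 335995) (nat_lit 1) (.e (nat_lit 57847) (nat_lit 252) .nil))))) .nil)) 
(.lf (nat_lit 214744) (.g (nat_lit 1016) (.e (nat_lit 90165) (nat_lit 12) (.e (nat_lit 171776) (nat_lit 192) (.e (nat_lit 73753) (nat_lit 8) (.e (nat_lit 557068) (nat_lit 9) (.e (nat_lit 7936) (nat_lit 26) (.e (nat_lit 376863) (nat_lit 22) .nil)))))) (.g (nat_lit 4) .nil .nil)))) (.nd (nat_lit 6) 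
(.lf (nat_lit 214712) (.g (nat_lit 3742) (.e (nat_lit 90163) (nat_lit 12) (.e (nat_lit 163850) (nat_lit 0) (.e (nat_lit 5939) (nat_lit 322) (.e (nat_lit 57375) (nat_lit 2) (.e (nat_lit 90172) (nat_lit 14) (.e (nat_lit 180244) (nat_lit 5) (.e (nat_lit 532515) (nat_lit 3) (.e (nat_lit 114716) (nat_lit 22) .nil)))))))) (.g (nat_lit 8) .nil .nil))) 
(.lf (nat_lit 214776) (.g (nat_lit 2785) (.e (nat_lit 90167) (nat_lit 13) (.e (nat_lit 172065) (nat_lit 3) (.e (nat_lit 204838) (nat_lit 20) (.e (nat_lit 114717) (nat_lit 23) (.e (nat_lit 98334) (nat_lit 18) (.e (nat_lit 164399) (nat_lit 256) (.e (nat_lit 57372) (nat_lit 2) .nil))))))) (.g (nat_lit 5) .nil .nil))))))) (.nd (nat_lit 3) (.nd (nat_lit 4) (.nd (nat_lit 5) (.nd (nat_lit 6) 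
(.lf (nat_lit 214660) (.g (nat_lit 2320) (.e (nat_lit 90160) (nat_lit 11) (.e (nat_lit 24654) (nat_lit 13) (.e (nat_lit 393229) (nat_lit 9) (.e (nat_lit 335995) (nat_lit 1) (.e (nat_lit 57848) (nat_lit 252) .nil))))) .nil)) 
(.lf (nat_lit 214724) (.g (nat_lit 458) (.e (nat_lit 90165) (nat_lit 12) (.e (nat_lit 164030) (nat_lit 53) (.e (nat_lit 769792) (nat_lit 9) .nil))) .nil))) (.nd (nat_lit 6) 
(.lf (nat_lit 214692) (.g (nat_lit 2262) (.e (nat_lit 90160) (nat_lit 11) (.e (nat_lit 24665) (nat_lit 14) (.e (nat_lit 401414) (nat_lit 0) (.e (nat_lit 3205) (nat_lit 194) .nil)))) .nil)) 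
(.lf (nat_lit 214756) (.g (nat_lit 1057) (.e (nat_lit 90166) (nat_lit 13) (.e (nat_lit 172065) (nat_lit 3) (.e (nat_lit 204838) (nat_lit 20) (.e (nat_lit 114719) (nat_lit 23) .nil)))) .nil)))) (.nd (nat_lit 5) (.nd (nat_lit 6) 
(.lf (nat_lit 214676) (.g (nat_lit 3344) (.e (nat_lit 90160) (nat_lit 11) (.e (nat_lit 24657) (nat_lit 13) (.e (nat_lit 393229) (nat_lit 9) (.e (nat_lit 335995) (nat_lit 1) (.e (nat_lit 57846) (nat_lit 252) (.e (nat_lit 57372) (nat_lit 2) .nil)))))) (.g (nat_lit 4) .nil .nil))) 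
(.lf (nat_lit 214740) (.g (nat_lit 723) (.e (nat_lit 90165) (nat_lit 12) (.e (nat_lit 164238) (nat_lit 187) (.e (nat_lit 1661) (nat_lit 115) (.e (nat_lit 393238) (nat_lit 17) .nil)))) .nil))) (.nd (nat_lit 6) 
(.lf (nat_lit 214708) (.g (nat_lit 465) (.e (nat_lit 90162) (nat_lit 12) (.e (nat_lit 164017) (nat_lit 44) (.e (nat_lit 688156) (nat_lit 13) .nil))) .nil)) 
(.lf (nat_lit 214772) (.g (nat_lit 470) (.e (nat_lit 90167) (nat_lit 13) (.e (nat_lit 172064) (nat_lit 2) (.e (nat_lit 204544) (nat_lit 2) .nil))) .nil))))) (.nd (nat_lit 4) (.nd (nat_lit 5) (.nd (nat_lit 6) 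
(.lf (nat_lit 214668) (.g (nat_lit 1708) (.e (nat_lit 90160) (nat_lit 11) (.e (nat_lit 24655) (nat_lit 13) (.e (nat_lit 393229) (nat_lit 9) (.e (nat_lit 335987) (nat_lit 1) .nil)))) .nil)) 
(.lf (nat_lit 214732) (.g (nat_lit 824) (.e (nat_lit 90165) (nat_lit 12) (.e (nat_lit 164208) (nat_lit 176) (.e (nat_lit 2819) (nat_lit 181) (.e (nat_lit 311315) (nat_lit 3) .nil)))) .nil))) (.nd (nat_lit 6) 
(.lf (nat_lit 214700) (.g (nat_lit 3398) (.e (nat_lit 90160) (nat_lit 11) (.e (nat_lit 24665) (nat_lit 14) (.e (nat_lit 401426) (nat_lit 3) (.e (nat_lit 204863) (nat_lit 27) (.e (nat_lit 344149) (nat_lit 33) (.e (nat_lit 614432) (nat_lit 9) (.e (nat_lit 1232) (nat_lit 91) .nil))))))) (.g (nat_lit 4) .nil .nil))) 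
(.lf (nat_lit 214764) (.g (nat_lit 1460) (.e (nat_lit 90166) (nat_lit 13) (.e (nat_lit 172115) (nat_lit 10) (.e (nat_lit 434244) (nat_lit 28) (.e (nat_lit 573449) (nat_lit 9) .nil)))) .nil)))) (.nd (nat_lit 5) (.nd (nat_lit 6) 
(.lf (nat_lit 214684) (.g (nat_lit 1944) (.e (nat_lit 90160) (nat_lit 11) (.e (nat_lit 24662) (nat_lit 14) (.e (nat_lit 401428) (nat_lit 3) .nil))) .nil)) 
(.lf (nat_lit 214748) (.g (nat_lit 1679) (.e (nat_lit 90165) (nat_lit 12) (.e (nat_lit 171776) (nat_lit 192) (.e (nat_lit 73753) (nat_lit 8) (.e (nat_lit 557087) (nat_lit 11) (.e (nat_lit 24625) (nat_lit 9) (.e (nat_lit 343808) (nat_lit 2) .nil)))))) (.g (nat_lit 5) .nil .nil)))) (.nd (nat_lit 6) 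
(.lf (nat_lit 214716) (.g (nat_lit 465) (.e (nat_lit 90164) (nat_lit 12) (.e (nat_lit 164017) (nat_lit 44) (.e (nat_lit 688157) (nat_lit 13) .nil))) .nil)) 
(.lf (nat_lit 214780) (.g (nat_lit 3207) (.e (nat_lit 90167) (nat_lit 13) (.e (nat_lit 172065) (nat_lit 3) (.e (nat_lit 204838) (nat_lit 20) (.e (nat_lit 114719) (nat_lit 23) (.e (nat_lit 98333) (nat_lit 18) (.e (nat_lit 164399) (nat_lit 256) (.e (nat_lit 57372) (nat_lit 2) .nil))))))) (.g (nat_lit 6) .nil .nil)))))))) 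
(.nd (nat_lit 2) (.nd (nat_lit 3) (.nd (nat_lit 4) (.nd (nat_lit 5) (.nd (nat_lit 6) 
(.lf (nat_lit 214658) (.g (nat_lit 1304) (.e (nat_lit 90160) (nat_lit 11) (.e (nat_lit 24648) (nat_lit 12) (.e (nat_lit 385066) (nat_lit 26) (.e (nat_lit 540416) (nat_lit 18) .nil)))) .nil)) 
(.lf (nat_lit 214722) (.g (nat_lit 1257) (.e (nat_lit 90165) (nat_lit 12) (.e (nat_lit 163853) (nat_lit 0) (.e (nat_lit 6401) (nat_lit 339) (.e (nat_lit 57447) (nat_lit 19) (.e (nat_lit 401152) (nat_lit 11) .nil))))) .nil))) (.nd (nat_lit 6) 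
(.lf (nat_lit 214690) (.g (nat_lit 795) (.e (nat_lit 90160) (nat_lit 11) (.e (nat_lit 24665) (nat_lit 14) (.e (nat_lit 401413) (nat_lit 0) .nil))) .nil)) 
(.lf (nat_lit 214754) (.g (nat_lit 556) (.e (nat_lit 90166) (nat_lit 13) (.e (nat_lit 172064) (nat_lit 2) (.e (nat_lit 204544) (nat_lit 2) .nil))) .nil)))) (.nd (nat_lit 5) (.nd (nat_lit 6) 
(.lf (nat_lit 214674) (.g (nat_lit 1553) (.e (nat_lit 90160) (nat_lit 11) (.e (nat_lit 24657) (nat_lit 13) (.e (nat_lit 393229) (nat_lit 9) (.e (nat_lit 335987) (nat_lit 1) .nil)))) .nil)) 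
(.lf (nat_lit 214738) (.g (nat_lit 2793) (.e (nat_lit 90165) (nat_lit 12) (.e (nat_lit 164238) (nat_lit 187) (.e (nat_lit 1638) (nat_lit 114) (.e (nat_lit 385074) (nat_lit 31) (.e (nat_lit 573479) (nat_lit 13) (.e (nat_lit 65604) (nat_lit 9) (.e (nat_lit 336013) (nat_lit 2) .nil))))))) (.g (nat_lit 4) .nil .nil)))) (.nd (nat_lit 6) 
(.lf (nat_lit 214706) (.g (nat_lit 798) (.e (nat_lit 90160) (nat_lit 11) (.e (nat_lit 24665) (nat_lit 14) (.e (nat_lit 409344) (nat_lit 34) .nil))) .nil)) 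
(.lf (nat_lit 214770) (.g (nat_lit 2607) (.e (nat_lit 90166) (nat_lit 13) (.e (nat_lit 172126) (nat_lit 14) (.e (nat_lit 491540) (nat_lit 3) (.e (nat_lit 98367) (nat_lit 27) (.e (nat_lit 442112) (nat_lit 0) (.e (nat_lit 1239) (nat_lit 91) .nil)))))) (.g (nat_lit 4) .nil .nil)))))) (.nd (nat_lit 4) (.nd (nat_lit 5) (.nd (nat_lit 6) 
(.lf (nat_lit 214666) (.g (nat_lit 2178) (.e (nat_lit 90160) (nat_lit 11) (.e (nat_lit 24655) (nat_lit 13) (.e (nat_lit 393229) (nat_lit 9) (.e (nat_lit 335886) (nat_lit 0) .nil)))) .nil)) 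
(.lf (nat_lit 214730) (.g (nat_lit 1989) (.e (nat_lit 90165) (nat_lit 12) (.e (nat_lit 164208) (nat_lit 176) (.e (nat_lit 2819) (nat_lit 181) (.e (nat_lit 311298) (nat_lit 0) .nil)))) .nil))) (.nd (nat_lit 6) 
(.lf (nat_lit 214698) (.g (nat_lit 869) (.e (nat_lit 90160) (nat_lit 11) (.e (nat_lit 24665) (nat_lit 14) (.e (nat_lit 401426) (nat_lit 3) .nil))) .nil)) 
(.lf (nat_lit 214762) (.g (nat_lit 1894) (.e (nat_lit 90166) (nat_lit 13) (.e (nat_lit 172106) (nat_lit 10) (.e (nat_lit 434244) (nat_lit 28) (.e (nat_lit 573474) (nat_lit 12) .nil)))) .nil)))) (.nd (nat_lit 5) (.nd (nat_lit 6) 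
(.lf (nat_lit 214682) (.g (nat_lit 2107) (.e (nat_lit 90160) (nat_lit 11) (.e (nat_lit 24662) (nat_lit 14) (.e (nat_lit 401425) (nat_lit 2) .nil))) .nil)) 
(.lf (nat_lit 214746) (.g (nat_lit 1284) (.e (nat_lit 90165) (nat_lit 12) (.e (nat_lit 171776) (nat_lit 192) (.e (nat_lit 73753) (nat_lit 8) (.e (nat_lit 557072) (nat_lit 9) (.e (nat_lit 7936) (nat_lit 26) (.e (nat_lit 376864) (nat_lit 22) .nil)))))) (.g (nat_lit 4) .nil .nil)))) (.nd (nat_lit 6) 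
(.lf (nat_lit 214714) (.g (nat_lit 1742) (.e (nat_lit 90164) (nat_lit 12) (.e (nat_lit 163850) (nat_lit 0) (.e (nat_lit 5939) (nat_lit 322) (.e (nat_lit 57379) (nat_lit 3) (.e (nat_lit 98377) (nat_lit 30) .nil))))) .nil)) 
(.lf (nat_lit 214778) (.g (nat_lit 1057) (.e (nat_lit 90167) (nat_lit 13) (.e (nat_lit 172065) (nat_lit 3) (.e (nat_lit 204838) (nat_lit 20) (.e (nat_lit 114719) (nat_lit 23) .nil)))) .nil)))))) (.nd (nat_lit 3) (.nd (nat_lit 4) (.nd (nat_lit 5) (.nd (nat_lit 6) 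
(.lf (nat_lit 214662) (.g (nat_lit 828) (.e (nat_lit 90160) (nat_lit 11) (.e (nat_lit 24655) (nat_lit 13) (.e (nat_lit 393228) (nat_lit 9) .nil))) .nil)) 
(.lf (nat_lit 214726) (.g (nat_lit 1955) (.e (nat_lit 90165) (nat_lit 12) (.e (nat_lit 164207) (nat_lit 176) (.e (nat_lit 2797) (nat_lit 180) (.e (nat_lit 303119) (nat_lit 3) (.e (nat_lit 204877) (nat_lit 31) .nil))))) .nil))) (.nd (nat_lit 6) 
(.lf (nat_lit 214694) (.g (nat_lit 2441) (.e (nat_lit 90160) (nat_lit 11) (.e (nat_lit 24665) (nat_lit 14) (.e (nat_lit 401414) (nat_lit 0) (.e (nat_lit 3270) (nat_lit 199) .nil)))) .nil)) 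
(.lf (nat_lit 214758) (.g (nat_lit 2579) (.e (nat_lit 90166) (nat_lit 13) (.e (nat_lit 172094) (nat_lit 9) (.e (nat_lit 426125) (nat_lit 2) (.e (nat_lit 196626) (nat_lit 9) .nil)))) .nil)))) (.nd (nat_lit 5) (.nd (nat_lit 6) 
(.lf (nat_lit 214678) (.g (nat_lit 316) (.e (nat_lit 90160) (nat_lit 11) (.e (nat_lit 24657) (nat_lit 13) (.e (nat_lit 401152) (nat_lit 10) .nil))) .nil)) 
(.lf (nat_lit 214742) (.g (nat_lit 2005) (.e (nat_lit 90165) (nat_lit 12) (.e (nat_lit 164239) (nat_lit 187) (.e (nat_lit 1661) (nat_lit 115) (.e (nat_lit 393238) (nat_lit 17) (.e (nat_lit 7936) (nat_lit 220) (.e (nat_lit 720954) (nat_lit 25) (.e (nat_lit 114714) (nat_lit 22) .nil))))))) (.g (nat_lit 4) .nil .nil)))) (.nd (nat_lit 6) 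
(.lf (nat_lit 214710) (.g (nat_lit 2359) (.e (nat_lit 90162) (nat_lit 12) (.e (nat_lit 164208) (nat_lit 176) (.e (nat_lit 2819) (nat_lit 181) (.e (nat_lit 311315) (nat_lit 3) .nil)))) .nil)) 
(.lf (nat_lit 214774) (.g (nat_lit 468) (.e (nat_lit 90167) (nat_lit 13) (.e (nat_lit 172065) (nat_lit 3) (.e (nat_lit 204834) (nat_lit 19) .nil))) .nil))))) (.nd (nat_lit 4) (.nd (nat_lit 5) (.nd (nat_lit 6) 
(.lf (nat_lit 214670) (.g (nat_lit 2619) (.e (nat_lit 90160) (nat_lit 11) (.e (nat_lit 24656) (nat_lit 13) (.e (nat_lit 393229) (nat_lit 9) (.e (nat_lit 335995) (nat_lit 1) (.e (nat_lit 57846) (nat_lit 252) .nil))))) .nil)) 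
(.lf (nat_lit 214734) (.g (nat_lit 2053) (.e (nat_lit 90165) (nat_lit 12) (.e (nat_lit 164238) (nat_lit 187) (.e (nat_lit 1427) (nat_lit 108) (.e (nat_lit 336260) (nat_lit 15) .nil)))) .nil))) (.nd (nat_lit 6) 
(.lf (nat_lit 214702) (.g (nat_lit 1095) (.e (nat_lit 90160) (nat_lit 11) (.e (nat_lit 24665) (nat_lit 14) (.e (nat_lit 401465) (nat_lit 15) .nil))) .nil)) 
(.lf (nat_lit 214766) (.g (nat_lit 2076) (.e (nat_lit 90166) (nat_lit 13) (.e (nat_lit 172126) (nat_lit 14) (.e (nat_lit 491537) (nat_lit 2) (.e (nat_lit 90172) (nat_lit 14) .nil)))) .nil)))) (.nd (nat_lit 5) (.nd (nat_lit 6) 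
(.lf (nat_lit 214686) (.g (nat_lit 1306) (.e (nat_lit 90160) (nat_lit 11) (.e (nat_lit 24662) (nat_lit 14) (.e (nat_lit 401463) (nat_lit 15) .nil))) .nil)) 
(.lf (nat_lit 214750) (.g (nat_lit 838) (.e (nat_lit 90165) (nat_lit 12) (.e (nat_lit 171776) (nat_lit 192) (.e (nat_lit 73754) (nat_lit 8) (.e (nat_lit 557073) (nat_lit 9) (.e (nat_lit 7936) (nat_lit 26) (.e (nat_lit 376863) (nat_lit 22) .nil)))))) (.g (nat_lit 4) .nil .nil)))) (.nd (nat_lit 6) 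
(.lf (nat_lit 214718) (.g (nat_lit 467) (.e (nat_lit 90164) (nat_lit 12) (.e (nat_lit 164017) (nat_lit 44) (.e (nat_lit 688161) (nat_lit 13) .nil))) .nil)) 
(.lf (nat_lit 214782) (.g (nat_lit 1262) (.e (nat_lit 90167) (nat_lit 13) (.e (nat_lit 172067) (nat_lit 3) (.e (nat_lit 204805) (nat_lit 0) (.e (nat_lit 7098) (nat_lit 380) .nil)))) .nil)))))))) (.nd (nat_lit 1) (.nd (nat_lit 2) (.nd (nat_lit 3) (.nd (nat_lit 4) (.nd (nat_lit 5) (.nd (nat_lit 6) 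
(.lf (nat_lit 214657) (.g (nat_lit 1290) (.e (nat_lit 90160) (nat_lit 11) (.e (nat_lit 24648) (nat_lit 12) (.e (nat_lit 385066) (nat_lit 26) (.e (nat_lit 532515) (nat_lit 3) .nil)))) .nil)) 
(.lf (nat_lit 214721) (.g (nat_lit 1189) (.e (nat_lit 90165) (nat_lit 12) (.e (nat_lit 163849) (nat_lit 0) (.e (nat_lit 6403) (nat_lit 339) (.e (nat_lit 57445) (nat_lit 19) (.e (nat_lit 393229) (nat_lit 9) .nil))))) .nil))) (.nd (nat_lit 6) 
(.lf (nat_lit 214689) (.g (nat_lit 1306) (.e (nat_lit 90160) (nat_lit 11) (.e (nat_lit 24662) (nat_lit 14) (.e (nat_lit 401472) (nat_lit 28) .nil))) .nil)) 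
(.lf (nat_lit 214753) (.g (nat_lit 1631) (.e (nat_lit 90165) (nat_lit 12) (.e (nat_lit 171776) (nat_lit 192) (.e (nat_lit 73755) (nat_lit 8) (.e (nat_lit 557087) (nat_lit 11) (.e (nat_lit 24625) (nat_lit 9) (.e (nat_lit 343808) (nat_lit 2) .nil)))))) (.g (nat_lit 5) .nil .nil))))) (.nd (nat_lit 5) (.nd (nat_lit 6) 
(.lf (nat_lit 214673) (.g (nat_lit 3572) (.e (nat_lit 90160) (nat_lit 11) (.e (nat_lit 24657) (nat_lit 13) (.e (nat_lit 393227) (nat_lit 9) (.e (nat_lit 335998) (nat_lit 1) (.e (nat_lit 57849) (nat_lit 252) (.e (nat_lit 57375) (nat_lit 2) .nil)))))) (.g (nat_lit 0) .nil .nil))) 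
(.lf (nat_lit 214737) (.g (nat_lit 1169) (.e (nat_lit 90165) (nat_lit 12) (.e (nat_lit 164238) (nat_lit 187) (.e (nat_lit 1638) (nat_lit 114) (.e (nat_lit 385073) (nat_lit 31) .nil)))) .nil))) (.nd (nat_lit 6) 
(.lf (nat_lit 214705) (.g (nat_lit 1101) (.e (nat_lit 90160) (nat_lit 11) (.e (nat_lit 24665) (nat_lit 14) (.e (nat_lit 401472) (nat_lit 28) .nil))) .nil)) 
(.lf (nat_lit 214769) (.g (nat_lit 1678) (.e (nat_lit 90166) (nat_lit 13) (.e (nat_lit 172126) (nat_lit 14) (.e (nat_lit 491540) (nat_lit 3) (.e (nat_lit 98367) (nat_lit 27) .nil)))) .nil))))) (.nd (nat_lit 4) (.nd (nat_lit 5) (.nd (nat_lit 6) 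
(.lf (nat_lit 214665) (.g (nat_lit 1890) (.e (nat_lit 90160) (nat_lit 11) (.e (nat_lit 24655) (nat_lit 13) (.e (nat_lit 393228) (nat_lit 9) (.e (nat_lit 335995) (nat_lit 1) (.e (nat_lit 57847) (nat_lit 252) .nil))))) .nil)) 
(.lf (nat_lit 214729) (.g (nat_lit 1983) (.e (nat_lit 90165) (nat_lit 12) (.e (nat_lit 164208) (nat_lit 176) (.e (nat_lit 2777) (nat_lit 178) (.e (nat_lit 286733) (nat_lit 2) (.e (nat_lit 90165) (nat_lit 12) .nil))))) .nil))) (.nd (nat_lit 6) 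
(.lf (nat_lit 214697) (.g (nat_lit 2358) (.e (nat_lit 90160) (nat_lit 11) (.e (nat_lit 24665) (nat_lit 14) (.e (nat_lit 401414) (nat_lit 0) (.e (nat_lit 3579) (nat_lit 223) .nil)))) .nil)) 
(.lf (nat_lit 214761) (.g (nat_lit 1839) (.e (nat_lit 90166) (nat_lit 13) (.e (nat_lit 172106) (nat_lit 10) (.e (nat_lit 434244) (nat_lit 28) (.e (nat_lit 573454) (nat_lit 9) .nil)))) .nil)))) (.nd (nat_lit 5) (.nd (nat_lit 6) 
(.lf (nat_lit 214681) (.g (nat_lit 778) (.e (nat_lit 90160) (nat_lit 11) (.e (nat_lit 24661) (nat_lit 14) (.e (nat_lit 401428) (nat_lit 3) .nil))) .nil)) 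
(.lf (nat_lit 214745) (.g (nat_lit 1454) (.e (nat_lit 90165) (nat_lit 12) (.e (nat_lit 171776) (nat_lit 192) (.e (nat_lit 73753) (nat_lit 8) (.e (nat_lit 557070) (nat_lit 9) (.e (nat_lit 7936) (nat_lit 23) (.e (nat_lit 352311) (nat_lit 22) .nil)))))) (.g (nat_lit 4) .nil .nil)))) (.nd (nat_lit 6) 
(.lf (nat_lit 214713) (.g (nat_lit 1749) (.e (nat_lit 90164) (nat_lit 12) (.e (nat_lit 163850) (nat_lit 0) (.e (nat_lit 5939) (nat_lit 322) (.e (nat_lit 57379) (nat_lit 3) (.e (nat_lit 98376) (nat_lit 30) .nil))))) .nil)) 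
(.lf (nat_lit 214777) (.g (nat_lit 1465) (.e (nat_lit 90167) (nat_lit 13) (.e (nat_lit 172065) (nat_lit 3) (.e (nat_lit 204838) (nat_lit 20) (.e (nat_lit 114718) (nat_lit 23) .nil)))) .nil)))))) (.nd (nat_lit 3) (.nd (nat_lit 4) (.nd (nat_lit 5) (.nd (nat_lit 6) 
(.lf (nat_lit 214661) (.g (nat_lit 2323) (.e (nat_lit 90160) (nat_lit 11) (.e (nat_lit 24655) (nat_lit 13) (.e (nat_lit 393225) (nat_lit 9) (.e (nat_lit 335995) (nat_lit 1) (.e (nat_lit 57847) (nat_lit 252) .nil))))) .nil)) 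
(.lf (nat_lit 214725) (.g (nat_lit 2014) (.e (nat_lit 90165) (nat_lit 12) (.e (nat_lit 164050) (nat_lit 55) (.e (nat_lit 778465) (nat_lit 11) (.e (nat_lit 24607) (nat_lit 3) (.e (nat_lit 98365) (nat_lit 26) .nil))))) .nil))) (.nd (nat_lit 6) 
(.lf (nat_lit 214693) (.g (nat_lit 2258) (.e (nat_lit 90160) (nat_lit 11) (.e (nat_lit 24665) (nat_lit 14) (.e (nat_lit 401414) (nat_lit 0) (.e (nat_lit 3238) (nat_lit 197) .nil)))) .nil)) 
(.lf (nat_lit 214757) (.g (nat_lit 732) (.e (nat_lit 90166) (nat_lit 13) (.e (nat_lit 172067) (nat_lit 3) (.e (nat_lit 204838) (nat_lit 20) .nil))) .nil)))) (.nd (nat_lit 5) (.nd (nat_lit 6) 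
(.lf (nat_lit 214677) (.g (nat_lit 1317) (.e (nat_lit 90160) (nat_lit 11) (.e (nat_lit 24657) (nat_lit 13) (.e (nat_lit 393229) (nat_lit 9) (.e (nat_lit 343808) (nat_lit 20) .nil)))) .nil)) 
(.lf (nat_lit 214741) (.g (nat_lit 1654) (.e (nat_lit 90165) (nat_lit 12) (.e (nat_lit 164238) (nat_lit 187) (.e (nat_lit 1661) (nat_lit 115) (.e (nat_lit 393238) (nat_lit 17) (.e (nat_lit 7936) (nat_lit 220) .nil))))) .nil))) (.nd (nat_lit 6) 
(.lf (nat_lit 214709) (.g (nat_lit 2522) (.e (nat_lit 90162) (nat_lit 12) (.e (nat_lit 164031) (nat_lit 53) (.e (nat_lit 761902) (nat_lit 16) (.e (nat_lit 172149) (nat_lit 27) (.e (nat_lit 336051) (nat_lit 6) (.e (nat_lit 147496) (nat_lit 11) (.e (nat_lit 24603) (nat_lit 2) .nil))))))) (.g (nat_lit 7) .nil .nil))) 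
(.lf (nat_lit 214773) (.g (nat_lit 2061) (.e (nat_lit 90167) (nat_lit 13) (.e (nat_lit 172065) (nat_lit 3) (.e (nat_lit 204830) (nat_lit 18) (.e (nat_lit 57691) (nat_lit 156) (.e (nat_lit 163875) (nat_lit 3) .nil))))) .nil))))) (.nd (nat_lit 4) (.nd (nat_lit 5) (.nd (nat_lit 6) 
(.lf (nat_lit 214669) (.g (nat_lit 2831) (.e (nat_lit 90160) (nat_lit 11) (.e (nat_lit 24655) (nat_lit 13) (.e (nat_lit 393229) (nat_lit 9) (.e (nat_lit 335995) (nat_lit 1) (.e (nat_lit 57854) (nat_lit 252) .nil))))) .nil)) 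
(.lf (nat_lit 214733) (.g (nat_lit 1419) (.e (nat_lit 90165) (nat_lit 12) (.e (nat_lit 164208) (nat_lit 176) (.e (nat_lit 2819) (nat_lit 181) (.e (nat_lit 311315) (nat_lit 3) (.e (nat_lit 204858) (nat_lit 26) .nil))))) .nil))) (.nd (nat_lit 6) 
(.lf (nat_lit 214701) (.g (nat_lit 1628) (.e (nat_lit 90160) (nat_lit 11) (.e (nat_lit 24665) (nat_lit 14) (.e (nat_lit 401426) (nat_lit 3) (.e (nat_lit 204881) (nat_lit 32) .nil)))) .nil)) 
(.lf (nat_lit 214765) (.g (nat_lit 1204) (.e (nat_lit 90166) (nat_lit 13) (.e (nat_lit 172119) (nat_lit 12) (.e (nat_lit 475179) (nat_lit 24) (.e (nat_lit 516131) (nat_lit 3) .nil)))) .nil)))) (.nd (nat_lit 5) (.nd (nat_lit 6) 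
(.lf (nat_lit 214685) (.g (nat_lit 3651) (.e (nat_lit 90160) (nat_lit 11) (.e (nat_lit 24662) (nat_lit 14) (.e (nat_lit 401428) (nat_lit 3) (.e (nat_lit 204880) (nat_lit 32) .nil)))) .nil)) 
(.lf (nat_lit 214749) (.g (nat_lit 994) (.e (nat_lit 90165) (nat_lit 12) (.e (nat_lit 171776) (nat_lit 192) (.e (nat_lit 73754) (nat_lit 8) (.e (nat_lit 557072) (nat_lit 9) (.e (nat_lit 7936) (nat_lit 26) (.e (nat_lit 376864) (nat_lit 22) .nil)))))) (.g (nat_lit 4) .nil .nil)))) (.nd (nat_lit 6) 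
(.lf (nat_lit 214717) (.g (nat_lit 442) (.e (nat_lit 90164) (nat_lit 12) (.e (nat_lit 164017) (nat_lit 44) (.e (nat_lit 688160) (nat_lit 13) .nil))) .nil)) 
(.lf (nat_lit 214781) (.g (nat_lit 970) (.e (nat_lit 90167) (nat_lit 13) (.e (nat_lit 172067) (nat_lit 3) (.e (nat_lit 204805) (nat_lit 0) .nil))) .nil))))))) (.nd (nat_lit 2) (.nd (nat_lit 3) (.nd (nat_lit 4) (.nd (nat_lit 5) (.nd (nat_lit 6) 
(.lf (nat_lit 214659) (.g (nat_lit 3039) (.e (nat_lit 90160) (nat_lit 11) (.e (nat_lit 24654) (nat_lit 13) (.e (nat_lit 393229) (nat_lit 9) (.e (nat_lit 335995) (nat_lit 1) (.e (nat_lit 57846) (nat_lit 252) .nil))))) .nil)) 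
(.lf (nat_lit 214723) (.g (nat_lit 4955) (.e (nat_lit 90165) (nat_lit 12) (.e (nat_lit 164022) (nat_lit 46) (.e (nat_lit 704738) (nat_lit 11) (.e (nat_lit 16416) (nat_lit 3) (.e (nat_lit 204880) (nat_lit 32) .nil))))) .nil))) (.nd (nat_lit 6) 
(.lf (nat_lit 214691) (.g (nat_lit 955) (.e (nat_lit 90160) (nat_lit 11) (.e (nat_lit 24665) (nat_lit 14) (.e (nat_lit 401414) (nat_lit 0) .nil))) .nil)) 
(.lf (nat_lit 214755) (.g (nat_lit 1221) (.e (nat_lit 90166) (nat_lit 13) (.e (nat_lit 172065) (nat_lit 3) (.e (nat_lit 204830) (nat_lit 18) (.e (nat_lit 57691) (nat_lit 156) .nil)))) .nil)))) (.nd (nat_lit 5) (.nd (nat_lit 6) 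
(.lf (nat_lit 214675) (.g (nat_lit 2629) (.e (nat_lit 90160) (nat_lit 11) (.e (nat_lit 24657) (nat_lit 13) (.e (nat_lit 393229) (nat_lit 9) (.e (nat_lit 335993) (nat_lit 1) (.e (nat_lit 57849) (nat_lit 252) .nil))))) .nil)) 
(.lf (nat_lit 214739) (.g (nat_lit 2055) (.e (nat_lit 90165) (nat_lit 12) (.e (nat_lit 164238) (nat_lit 187) (.e (nat_lit 1659) (nat_lit 115) (.e (nat_lit 393234) (nat_lit 17) (.e (nat_lit 3555) (nat_lit 220) .nil))))) .nil))) (.nd (nat_lit 6) 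
(.lf (nat_lit 214707) (.g (nat_lit 570) (.e (nat_lit 98048) (nat_lit 11) (.e (nat_lit 24607) (nat_lit 3) (.e (nat_lit 98317) (nat_lit 9) .nil))) .nil)) 
(.lf (nat_lit 214771) (.g (nat_lit 1928) (.e (nat_lit 90166) (nat_lit 13) (.e (nat_lit 172126) (nat_lit 14) (.e (nat_lit 491540) (nat_lit 3) (.e (nat_lit 98368) (nat_lit 27) .nil)))) .nil))))) (.nd (nat_lit 4) (.nd (nat_lit 5) (.nd (nat_lit 6) 
(.lf (nat_lit 214667) (.g (nat_lit 1978) (.e (nat_lit 90160) (nat_lit 11) (.e (nat_lit 24655) (nat_lit 13) (.e (nat_lit 393229) (nat_lit 9) (.e (nat_lit 335892) (nat_lit 0) .nil)))) .nil)) 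
(.lf (nat_lit 214731) (.g (nat_lit 2154) (.e (nat_lit 90165) (nat_lit 12) (.e (nat_lit 164208) (nat_lit 176) (.e (nat_lit 2819) (nat_lit 181) (.e (nat_lit 319232) (nat_lit 2) .nil)))) .nil))) (.nd (nat_lit 6) 
(.lf (nat_lit 214699) (.g (nat_lit 2707) (.e (nat_lit 90160) (nat_lit 11) (.e (nat_lit 24665) (nat_lit 14) (.e (nat_lit 401426) (nat_lit 3) (.e (nat_lit 204852) (nat_lit 26) (.e (nat_lit 336350) (nat_lit 23) .nil))))) .nil)) 
(.lf (nat_lit 214763) (.g (nat_lit 2593) (.e (nat_lit 90166) (nat_lit 13) (.e (nat_lit 172106) (nat_lit 10) (.e (nat_lit 434244) (nat_lit 28) (.e (nat_lit 573474) (nat_lit 12) (.e (nat_lit 65280) (nat_lit 57) .nil))))) .nil)))) (.nd (nat_lit 5) (.nd (nat_lit 6) 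
(.lf (nat_lit 214683) (.g (nat_lit 4261) (.e (nat_lit 90160) (nat_lit 11) (.e (nat_lit 24662) (nat_lit 14) (.e (nat_lit 401425) (nat_lit 2) (.e (nat_lit 196661) (nat_lit 12) .nil)))) .nil)) 
(.lf (nat_lit 214747) (.g (nat_lit 978) (.e (nat_lit 90165) (nat_lit 12) (.e (nat_lit 171776) (nat_lit 192) (.e (nat_lit 73753) (nat_lit 8) (.e (nat_lit 557073) (nat_lit 9) (.e (nat_lit 7936) (nat_lit 26) (.e (nat_lit 376863) (nat_lit 22) .nil)))))) (.g (nat_lit 4) .nil .nil)))) (.nd (nat_lit 6) 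
(.lf (nat_lit 214715) (.g (nat_lit 442) (.e (nat_lit 90164) (nat_lit 12) (.e (nat_lit 164017) (nat_lit 44) (.e (nat_lit 688156) (nat_lit 13) .nil))) .nil)) 
(.lf (nat_lit 214779) (.g (nat_lit 1889) (.e (nat_lit 90167) (nat_lit 13) (.e (nat_lit 172065) (nat_lit 3) (.e (nat_lit 204838) (nat_lit 20) (.e (nat_lit 114719) (nat_lit 23) (.e (nat_lit 98325) (nat_lit 17) .nil))))) .nil)))))) (.nd (nat_lit 3) (.nd (nat_lit 4) (.nd (nat_lit 5) (.nd (nat_lit 6) 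
(.lf (nat_lit 214663) (.g (nat_lit 2128) (.e (nat_lit 90160) (nat_lit 11) (.e (nat_lit 24655) (nat_lit 13) (.e (nat_lit 393228) (nat_lit 9) (.e (nat_lit 335986) (nat_lit 1) (.e (nat_lit 57847) (nat_lit 252) .nil))))) .nil)) 
(.lf (nat_lit 214727) (.g (nat_lit 1514) (.e (nat_lit 90165) (nat_lit 12) (.e (nat_lit 164207) (nat_lit 176) (.e (nat_lit 2819) (nat_lit 181) (.e (nat_lit 311315) (nat_lit 3) (.e (nat_lit 204865) (nat_lit 28) .nil))))) .nil))) (.nd (nat_lit 6) 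
(.lf (nat_lit 214695) (.g (nat_lit 2482) (.e (nat_lit 90160) (nat_lit 11) (.e (nat_lit 24665) (nat_lit 14) (.e (nat_lit 401414) (nat_lit 0) (.e (nat_lit 3272) (nat_lit 199) .nil)))) .nil)) 
(.lf (nat_lit 214759) (.g (nat_lit 4083) (.e (nat_lit 90166) (nat_lit 13) (.e (nat_lit 172094) (nat_lit 9) (.e (nat_lit 426125) (nat_lit 2) (.e (nat_lit 196630) (nat_lit 9) (.e (nat_lit 1393) (nat_lit 106) .nil))))) .nil)))) (.nd (nat_lit 5) (.nd (nat_lit 6) 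
(.lf (nat_lit 214679) (.g (nat_lit 2316) (.e (nat_lit 90160) (nat_lit 11) (.e (nat_lit 24658) (nat_lit 13) (.e (nat_lit 393229) (nat_lit 9) (.e (nat_lit 335995) (nat_lit 1) (.e (nat_lit 57844) (nat_lit 252) .nil))))) .nil)) 
(.lf (nat_lit 214743) (.g (nat_lit 2000) (.e (nat_lit 90165) (nat_lit 12) (.e (nat_lit 164239) (nat_lit 187) (.e (nat_lit 1661) (nat_lit 115) (.e (nat_lit 393238) (nat_lit 17) (.e (nat_lit 7936) (nat_lit 220) (.e (nat_lit 720956) (nat_lit 25) (.e (nat_lit 114715) (nat_lit 22) .nil))))))) (.g (nat_lit 4) .nil .nil)))) (.nd (nat_lit 6) 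
(.lf (nat_lit 214711) (.g (nat_lit 2192) (.e (nat_lit 90163) (nat_lit 12) (.e (nat_lit 163843) (nat_lit 0) (.e (nat_lit 6830) (nat_lit 367) (.e (nat_lit 57371) (nat_lit 2) (.e (nat_lit 90174) (nat_lit 14) .nil))))) .nil)) 
(.lf (nat_lit 214775) (.g (nat_lit 466) (.e (nat_lit 90167) (nat_lit 13) (.e (nat_lit 172065) (nat_lit 3) (.e (nat_lit 204838) (nat_lit 20) .nil))) .nil))))) (.nd (nat_lit 4) (.nd (nat_lit 5) (.nd (nat_lit 6) 
(.lf (nat_lit 214671) (.g (nat_lit 1403) (.e (nat_lit 90160) (nat_lit 11) (.e (nat_lit 24657) (nat_lit 13) (.e (nat_lit 393225) (nat_lit 9) (.e (nat_lit 335986) (nat_lit 1) (.e (nat_lit 57847) (nat_lit 252) .nil))))) .nil)) 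
(.lf (nat_lit 214735) (.g (nat_lit 1412) (.e (nat_lit 90165) (nat_lit 12) (.e (nat_lit 164238) (nat_lit 187) (.e (nat_lit 1427) (nat_lit 108) (.e (nat_lit 336306) (nat_lit 15) .nil)))) .nil))) (.nd (nat_lit 6) 
(.lf (nat_lit 214703) (.g (nat_lit 1210) (.e (nat_lit 90160) (nat_lit 11) (.e (nat_lit 24665) (nat_lit 14) (.e (nat_lit 401466) (nat_lit 15) .nil))) .nil)) 
(.lf (nat_lit 214767) (.g (nat_lit 2062) (.e (nat_lit 90166) (nat_lit 13) (.e (nat_lit 172126) (nat_lit 14) (.e (nat_lit 491537) (nat_lit 2) (.e (nat_lit 90174) (nat_lit 14) .nil)))) .nil)))) (.nd (nat_lit 5) (.nd (nat_lit 6) 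
(.lf (nat_lit 214687) (.g (nat_lit 2046) (.e (nat_lit 90160) (nat_lit 11) (.e (nat_lit 24662) (nat_lit 14) (.e (nat_lit 401463) (nat_lit 15) (.e (nat_lit 1858) (nat_lit 124) .nil)))) .nil)) 
(.lf (nat_lit 214751) (.g (nat_lit 1241) (.e (nat_lit 90165) (nat_lit 12) (.e (nat_lit 171776) (nat_lit 192) (.e (nat_lit 73755) (nat_lit 8) (.e (nat_lit 557067) (nat_lit 9) (.e (nat_lit 7936) (nat_lit 23) (.e (nat_lit 352310) (nat_lit 22) .nil)))))) (.g (nat_lit 4) .nil .nil)))) (.nd (nat_lit 6) 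
(.lf (nat_lit 214719) (.g (nat_lit 4963) (.e (nat_lit 90164) (nat_lit 12) (.e (nat_lit 164017) (nat_lit 44) (.e (nat_lit 688170) (nat_lit 15) (.e (nat_lit 57479) (nat_lit 28) (.e (nat_lit 557105) (nat_lit 14) (.e (nat_lit 180252) (nat_lit 10) (.e (nat_lit 573482) (nat_lit 13) (.e (nat_lit 65567) (nat_lit 2) .nil)))))))) (.g (nat_lit 7) .nil .nil))) 
(.lf (nat_lit 214783) (.g (nat_lit 1009) (.e (nat_lit 90167) (nat_lit 13) (.e (nat_lit 172067) (nat_lit 3) (.e (nat_lit 204809) (nat_lit 9) .nil))) .nil)))))))))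

noncomputable def tv2825 : DT := (.nd (nat_lit 0) (.nd (nat_lit 1) (.nd (nat_lit 2) (.nd (nat_lit 3) (.nd (nat_lit 4) (.nd (nat_lit 5) (.nd (nat_lit 6) 
(.lf (nat_lit 214784) (.g (nat_lit 2766) (.e (nat_lit 90167) (nat_lit 13) (.e (nat_lit 172067) (nat_lit 3) (.e (nat_lit 204809) (nat_lit 9) (.e (nat_lit 426139) (nat_lit 3) (.e (nat_lit 204815) (nat_lit 17) .nil))))) .nil)) 
(.lf (nat_lit 214848) (.g (nat_lit 2461) (.e (nat_lit 90167) (nat_lit 13) (.e (nat_lit 172126) (nat_lit 14) (.e (nat_lit 491537) (nat_lit 2) (.e (nat_lit 90171) (nat_lit 14) (.e (nat_lit 188160) (nat_lit 32) .nil))))) .nil))) (.nd (nat_lit 6) 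
(.lf (nat_lit 214816) (.g (nat_lit 4606) (.e (nat_lit 90167) (nat_lit 13) (.e (nat_lit 172067) (nat_lit 3) (.e (nat_lit 204838) (nat_lit 20) (.e (nat_lit 114718) (nat_lit 23) (.e (nat_lit 98333) (nat_lit 18) (.e (nat_lit 164399) (nat_lit 256) (.e (nat_lit 57372) (nat_lit 2) .nil))))))) (.g (nat_lit 7) .nil .nil))) 
(.lf (nat_lit 214880) (.g (nat_lit 1760) (.e (nat_lit 90167) (nat_lit 13) (.e (nat_lit 172133) (nat_lit 15) (.e (nat_lit 2059) (nat_lit 142) (.e (nat_lit 704595) (nat_lit 5) .nil)))) .nil)))) (.nd (nat_lit 5) (.nd (nat_lit 6) 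
(.lf (nat_lit 214800) (.g (nat_lit 2467) (.e (nat_lit 90167) (nat_lit 13) (.e (nat_lit 172067) (nat_lit 3) (.e (nat_lit 204830) (nat_lit 18) (.e (nat_lit 57691) (nat_lit 156) (.e (nat_lit 163875) (nat_lit 3) .nil))))) .nil)) 
(.lf (nat_lit 214864) (.g (nat_lit 1480) (.e (nat_lit 90167) (nat_lit 13) (.e (nat_lit 172126) (nat_lit 14) (.e (nat_lit 491539) (nat_lit 3) (.e (nat_lit 98367) (nat_lit 27) .nil)))) .nil))) (.nd (nat_lit 6) 
(.lf (nat_lit 214832) (.g (nat_lit 846) (.e (nat_lit 90167) (nat_lit 13) (.e (nat_lit 172120) (nat_lit 12) (.e (nat_lit 475176) (nat_lit 24) .nil))) .nil)) 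
(.lf (nat_lit 214896) (.g (nat_lit 2589) (.e (nat_lit 90168) (nat_lit 13) (.e (nat_lit 172067) (nat_lit 3) (.e (nat_lit 204829) (nat_lit 18) (.e (nat_lit 57692) (nat_lit 156) (.e (nat_lit 163874) (nat_lit 3) (.e (nat_lit 204838) (nat_lit 20) (.e (nat_lit 114716) (nat_lit 22) .nil))))))) (.g (nat_lit 4) .nil .nil)))))) (.nd (nat_lit 4) (.nd (nat_lit 5) (.nd (nat_lit 6) 
(.lf (nat_lit 214792) (.g (nat_lit 2981) (.e (nat_lit 90167) (nat_lit 13) (.e (nat_lit 172067) (nat_lit 3) (.e (nat_lit 204829) (nat_lit 18) (.e (nat_lit 57688) (nat_lit 156) (.e (nat_lit 163875) (nat_lit 3) .nil))))) .nil)) 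
(.lf (nat_lit 214856) (.g (nat_lit 3779) (.e (nat_lit 90167) (nat_lit 13) (.e (nat_lit 172126) (nat_lit 14) (.e (nat_lit 491537) (nat_lit 2) (.e (nat_lit 90185) (nat_lit 17) (.e (nat_lit 237568) (nat_lit 0) (.e (nat_lit 7545) (nat_lit 402) (.e (nat_lit 1238) (nat_lit 91) .nil))))))) (.g (nat_lit 4) .nil .nil)))) (.nd (nat_lit 6) 
(.lf (nat_lit 214824) (.g (nat_lit 3127) (.e (nat_lit 90167) (nat_lit 13) (.e (nat_lit 172067) (nat_lit 3) (.e (nat_lit 204838) (nat_lit 20) (.e (nat_lit 114719) (nat_lit 23) (.e (nat_lit 98334) (nat_lit 18) (.e (nat_lit 164399) (nat_lit 256) (.e (nat_lit 57373) (nat_lit 2) .nil))))))) (.g (nat_lit 5) .nil .nil))) 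
(.lf (nat_lit 214888) (.g (nat_lit 762) (.e (nat_lit 90168) (nat_lit 13) (.e (nat_lit 172067) (nat_lit 3) (.e (nat_lit 212736) (nat_lit 15) .nil))) .nil)))) (.nd (nat_lit 5) (.nd (nat_lit 6) 
(.lf (nat_lit 214808) (.g (nat_lit 682) (.e (nat_lit 90167) (nat_lit 13) (.e (nat_lit 172067) (nat_lit 3) (.e (nat_lit 204838) (nat_lit 20) .nil))) .nil)) 
(.lf (nat_lit 214872) (.g (nat_lit 2212) (.e (nat_lit 90167) (nat_lit 13) (.e (nat_lit 172126) (nat_lit 14) (.e (nat_lit 491540) (nat_lit 3) (.e (nat_lit 98359) (nat_lit 26) (.e (nat_lit 426346) (nat_lit 14) .nil))))) .nil))) (.nd (nat_lit 6) 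
(.lf (nat_lit 214840) (.g (nat_lit 2353) (.e (nat_lit 90167) (nat_lit 13) (.e (nat_lit 172126) (nat_lit 14) (.e (nat_lit 491537) (nat_lit 2) (.e (nat_lit 98048) (nat_lit 1) .nil)))) .nil)) 
(.lf (nat_lit 214904) (.g (nat_lit 1018) (.e (nat_lit 90168) (nat_lit 13) (.e (nat_lit 172067) (nat_lit 3) (.e (nat_lit 204831) (nat_lit 18) .nil))) .nil)))))) (.nd (nat_lit 3) (.nd (nat_lit 4) (.nd (nat_lit 5) (.nd (nat_lit 6) 
(.lf (nat_lit 214788) (.g (nat_lit 2404) (.e (nat_lit 90167) (nat_lit 13) (.e (nat_lit 172067) (nat_lit 3) (.e (nat_lit 204829) (nat_lit 18) (.e (nat_lit 57686) (nat_lit 156) (.e (nat_lit 163875) (nat_lit 3) .nil))))) .nil)) 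
(.lf (nat_lit 214852) (.g (nat_lit 2828) (.e (nat_lit 90167) (nat_lit 13) (.e (nat_lit 172126) (nat_lit 14) (.e (nat_lit 491537) (nat_lit 2) (.e (nat_lit 90173) (nat_lit 14) (.e (nat_lit 180277) (nat_lit 32) .nil))))) .nil))) (.nd (nat_lit 6) 
(.lf (nat_lit 214820) (.g (nat_lit 2243) (.e (nat_lit 90167) (nat_lit 13) (.e (nat_lit 172067) (nat_lit 3) (.e (nat_lit 204838) (nat_lit 20) (.e (nat_lit 114719) (nat_lit 23) (.e (nat_lit 98325) (nat_lit 17) .nil))))) .nil)) 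
(.lf (nat_lit 214884) (.g (nat_lit 476) (.e (nat_lit 90168) (nat_lit 13) (.e (nat_lit 172064) (nat_lit 2) (.e (nat_lit 204544) (nat_lit 2) .nil))) .nil)))) (.nd (nat_lit 5) (.nd (nat_lit 6) 
(.lf (nat_lit 214804) (.g (nat_lit 1697) (.e (nat_lit 90167) (nat_lit 13) (.e (nat_lit 172067) (nat_lit 3) (.e (nat_lit 204837) (nat_lit 20) (.e (nat_lit 114718) (nat_lit 23) .nil)))) .nil)) 
(.lf (nat_lit 214868) (.g (nat_lit 1475) (.e (nat_lit 90167) (nat_lit 13) (.e (nat_lit 172126) (nat_lit 14) (.e (nat_lit 491540) (nat_lit 3) (.e (nat_lit 106240) (nat_lit 0) .nil)))) .nil))) (.nd (nat_lit 6) 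
(.lf (nat_lit 214836) (.g (nat_lit 2408) (.e (nat_lit 90167) (nat_lit 13) (.e (nat_lit 172120) (nat_lit 12) (.e (nat_lit 475179) (nat_lit 24) (.e (nat_lit 516129) (nat_lit 3) (.e (nat_lit 221194) (nat_lit 11) .nil))))) .nil)) 
(.lf (nat_lit 214900) (.g (nat_lit 2545) (.e (nat_lit 90168) (nat_lit 13) (.e (nat_lit 172067) (nat_lit 3) (.e (nat_lit 204830) (nat_lit 18) (.e (nat_lit 57691) (nat_lit 156) (.e (nat_lit 163874) (nat_lit 3) .nil))))) .nil))))) (.nd (nat_lit 4) (.nd (nat_lit 5) (.nd (nat_lit 6) 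
(.lf (nat_lit 214796) (.g (nat_lit 2653) (.e (nat_lit 90167) (nat_lit 13) (.e (nat_lit 172067) (nat_lit 3) (.e (nat_lit 204829) (nat_lit 18) (.e (nat_lit 57692) (nat_lit 156) (.e (nat_lit 163875) (nat_lit 3) .nil))))) .nil)) 
(.lf (nat_lit 214860) (.g (nat_lit 2764) (.e (nat_lit 90167) (nat_lit 13) (.e (nat_lit 172126) (nat_lit 14) (.e (nat_lit 491537) (nat_lit 2) (.e (nat_lit 90185) (nat_lit 17) (.e (nat_lit 237625) (nat_lit 14) .nil))))) .nil))) (.nd (nat_lit 6) 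
(.lf (nat_lit 214828) (.g (nat_lit 2958) (.e (nat_lit 90167) (nat_lit 13) (.e (nat_lit 172106) (nat_lit 10) (.e (nat_lit 434231) (nat_lit 23) (.e (nat_lit 532490) (nat_lit 0) (.e (nat_lit 7936) (nat_lit 332) .nil))))) .nil)) 
(.lf (nat_lit 214892) (.g (nat_lit 1764) (.e (nat_lit 90168) (nat_lit 13) (.e (nat_lit 172067) (nat_lit 3) (.e (nat_lit 204829) (nat_lit 18) (.e (nat_lit 57688) (nat_lit 156) .nil)))) .nil)))) (.nd (nat_lit 5) (.nd (nat_lit 6) 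
(.lf (nat_lit 214812) (.g (nat_lit 2084) (.e (nat_lit 90167) (nat_lit 13) (.e (nat_lit 172067) (nat_lit 3) (.e (nat_lit 204838) (nat_lit 20) (.e (nat_lit 114716) (nat_lit 22) (.e (nat_lit 90130) (nat_lit 9) .nil))))) .nil)) 
(.lf (nat_lit 214876) (.g (nat_lit 1341) (.e (nat_lit 90167) (nat_lit 13) (.e (nat_lit 172126) (nat_lit 14) (.e (nat_lit 491540) (nat_lit 3) (.e (nat_lit 98386) (nat_lit 32) .nil)))) .nil))) (.nd (nat_lit 6) 
(.lf (nat_lit 214844) (.g (nat_lit 3026) (.e (nat_lit 90167) (nat_lit 13) (.e (nat_lit 172126) (nat_lit 14) (.e (nat_lit 491537) (nat_lit 2) (.e (nat_lit 90134) (nat_lit 9) (.e (nat_lit 140) (nat_lit 8) .nil))))) .nil)) 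
(.lf (nat_lit 214908) (.g (nat_lit 1777) (.e (nat_lit 90168) (nat_lit 13) (.e (nat_lit 172067) (nat_lit 3) (.e (nat_lit 204837) (nat_lit 20) (.e (nat_lit 114718) (nat_lit 23) .nil)))) .nil))))))) (.nd (nat_lit 2) (.nd (nat_lit 3) (.nd (nat_lit 4) (.nd (nat_lit 5) (.nd (nat_lit 6) 
(.lf (nat_lit 214786) (.g (nat_lit 1035) (.e (nat_lit 90167) (nat_lit 13) (.e (nat_lit 172067) (nat_lit 3) (.e (nat_lit 204819) (nat_lit 17) .nil))) .nil)) 
(.lf (nat_lit 214850) (.g (nat_lit 3931) (.e (nat_lit 90167) (nat_lit 13) (.e (nat_lit 172126) (nat_lit 14) (.e (nat_lit 491537) (nat_lit 2) (.e (nat_lit 90172) (nat_lit 14) (.e (nat_lit 180278) (nat_lit 32) (.e (nat_lit 1234) (nat_lit 91) .nil)))))) (.g (nat_lit 6) .nil .nil)))) (.nd (nat_lit 6) 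
(.lf (nat_lit 214818) (.g (nat_lit 4570) (.e (nat_lit 90167) (nat_lit 13) (.e (nat_lit 172067) (nat_lit 3) (.e (nat_lit 204838) (nat_lit 20) (.e (nat_lit 114718) (nat_lit 23) (.e (nat_lit 98334) (nat_lit 18) (.e (nat_lit 164399) (nat_lit 256) (.e (nat_lit 57372) (nat_lit 2) .nil))))))) (.g (nat_lit 7) .nil .nil))) 
(.lf (nat_lit 214882) (.g (nat_lit 1044) (.e (nat_lit 90167) (nat_lit 13) (.e (nat_lit 172133) (nat_lit 15) (.e (nat_lit 2175) (nat_lit 143) (.e (nat_lit 712745) (nat_lit 27) .nil)))) .nil)))) (.nd (nat_lit 5) (.nd (nat_lit 6) 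
(.lf (nat_lit 214802) (.g (nat_lit 1023) (.e (nat_lit 90167) (nat_lit 13) (.e (nat_lit 172067) (nat_lit 3) (.e (nat_lit 204834) (nat_lit 19) .nil))) .nil)) 
(.lf (nat_lit 214866) (.g (nat_lit 1531) (.e (nat_lit 90167) (nat_lit 13) (.e (nat_lit 172126) (nat_lit 14) (.e (nat_lit 491539) (nat_lit 3) (.e (nat_lit 98368) (nat_lit 27) .nil)))) .nil))) (.nd (nat_lit 6) 
(.lf (nat_lit 214834) (.g (nat_lit 830) (.e (nat_lit 90167) (nat_lit 13) (.e (nat_lit 172120) (nat_lit 12) (.e (nat_lit 475177) (nat_lit 24) .nil))) .nil)) 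
(.lf (nat_lit 214898) (.g (nat_lit 1875) (.e (nat_lit 90168) (nat_lit 13) (.e (nat_lit 172067) (nat_lit 3) (.e (nat_lit 204830) (nat_lit 18) (.e (nat_lit 57689) (nat_lit 156) .nil)))) .nil))))) (.nd (nat_lit 4) (.nd (nat_lit 5) (.nd (nat_lit 6) 
(.lf (nat_lit 214794) (.g (nat_lit 1792) (.e (nat_lit 90167) (nat_lit 13) (.e (nat_lit 172067) (nat_lit 3) (.e (nat_lit 204829) (nat_lit 18) (.e (nat_lit 57692) (nat_lit 156) .nil)))) .nil)) 
(.lf (nat_lit 214858) (.g (nat_lit 3720) (.e (nat_lit 90167) (nat_lit 13) (.e (nat_lit 172126) (nat_lit 14) (.e (nat_lit 491537) (nat_lit 2) (.e (nat_lit 90185) (nat_lit 17) (.e (nat_lit 237572) (nat_lit 0) (.e (nat_lit 7540) (nat_lit 402) (.e (nat_lit 1238) (nat_lit 91) .nil))))))) (.g (nat_lit 4) .nil .nil)))) (.nd (nat_lit 6) 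
(.lf (nat_lit 214826) (.g (nat_lit 4012) (.e (nat_lit 90167) (nat_lit 13) (.e (nat_lit 172094) (nat_lit 9) (.e (nat_lit 426125) (nat_lit 2) (.e (nat_lit 196630) (nat_lit 9) (.e (nat_lit 1401) (nat_lit 106) .nil))))) .nil)) 
(.lf (nat_lit 214890) (.g (nat_lit 895) (.e (nat_lit 90168) (nat_lit 13) (.e (nat_lit 172067) (nat_lit 3) (.e (nat_lit 204829) (nat_lit 18) .nil))) .nil)))) (.nd (nat_lit 5) (.nd (nat_lit 6) 
(.lf (nat_lit 214810) (.g (nat_lit 1893) (.e (nat_lit 90167) (nat_lit 13) (.e (nat_lit 172067) (nat_lit 3) (.e (nat_lit 204838) (nat_lit 20) (.e (nat_lit 114715) (nat_lit 22) (.e (nat_lit 90165) (nat_lit 12) .nil))))) .nil)) 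
(.lf (nat_lit 214874) (.g (nat_lit 2239) (.e (nat_lit 90167) (nat_lit 13) (.e (nat_lit 172126) (nat_lit 14) (.e (nat_lit 491540) (nat_lit 3) (.e (nat_lit 98367) (nat_lit 27) (.e (nat_lit 434177) (nat_lit 0) .nil))))) .nil))) (.nd (nat_lit 6) 
(.lf (nat_lit 214842) (.g (nat_lit 2331) (.e (nat_lit 90167) (nat_lit 13) (.e (nat_lit 172126) (nat_lit 14) (.e (nat_lit 491537) (nat_lit 2) (.e (nat_lit 90133) (nat_lit 9) (.e (nat_lit 2936) (nat_lit 184) (.e (nat_lit 425984) (nat_lit 0) (.e (nat_lit 7545) (nat_lit 402) (.e (nat_lit 1227) (nat_lit 91) .nil)))))))) (.g (nat_lit 4) .nil .nil))) 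
(.lf (nat_lit 214906) (.g (nat_lit 1023) (.e (nat_lit 90168) (nat_lit 13) (.e (nat_lit 172067) (nat_lit 3) (.e (nat_lit 204834) (nat_lit 19) .nil))) .nil)))))) (.nd (nat_lit 3) (.nd (nat_lit 4) (.nd (nat_lit 5) (.nd (nat_lit 6) 
(.lf (nat_lit 214790) (.g (nat_lit 2816) (.e (nat_lit 90167) (nat_lit 13) (.e (nat_lit 172067) (nat_lit 3) (.e (nat_lit 204829) (nat_lit 18) (.e (nat_lit 57688) (nat_lit 156) (.e (nat_lit 163873) (nat_lit 3) .nil))))) .nil)) 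
(.lf (nat_lit 214854) (.g (nat_lit 2329) (.e (nat_lit 90167) (nat_lit 13) (.e (nat_lit 172126) (nat_lit 14) (.e (nat_lit 491537) (nat_lit 2) (.e (nat_lit 90181) (nat_lit 16) .nil)))) .nil))) (.nd (nat_lit 6) 
(.lf (nat_lit 214822) (.g (nat_lit 4271) (.e (nat_lit 90167) (nat_lit 13) (.e (nat_lit 172067) (nat_lit 3) (.e (nat_lit 204838) (nat_lit 20) (.e (nat_lit 114719) (nat_lit 23) (.e (nat_lit 98333) (nat_lit 18) (.e (nat_lit 164399) (nat_lit 256) (.e (nat_lit 57372) (nat_lit 2) .nil))))))) (.g (nat_lit 7) .nil .nil))) 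
(.lf (nat_lit 214886) (.g (nat_lit 762) (.e (nat_lit 90168) (nat_lit 13) (.e (nat_lit 172067) (nat_lit 3) (.e (nat_lit 212736) (nat_lit 9) .nil))) .nil)))) (.nd (nat_lit 5) (.nd (nat_lit 6) 
(.lf (nat_lit 214806) (.g (nat_lit 3339) (.e (nat_lit 90167) (nat_lit 13) (.e (nat_lit 172067) (nat_lit 3) (.e (nat_lit 204837) (nat_lit 20) (.e (nat_lit 114718) (nat_lit 23) (.e (nat_lit 98333) (nat_lit 18) (.e (nat_lit 164398) (nat_lit 256) (.e (nat_lit 57372) (nat_lit 2) .nil))))))) (.g (nat_lit 5) .nil .nil))) 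
(.lf (nat_lit 214870) (.g (nat_lit 3732) (.e (nat_lit 90167) (nat_lit 13) (.e (nat_lit 172126) (nat_lit 14) (.e (nat_lit 491540) (nat_lit 3) (.e (nat_lit 98350) (nat_lit 24) (.e (nat_lit 409602) (nat_lit 0) (.e (nat_lit 5293) (nat_lit 298) (.e (nat_lit 1232) (nat_lit 91) .nil))))))) (.g (nat_lit 6) .nil .nil)))) (.nd (nat_lit 6) 
(.lf (nat_lit 214838) (.g (nat_lit 1671) (.e (nat_lit 90167) (nat_lit 13) (.e (nat_lit 172121) (nat_lit 13) (.e (nat_lit 483341) (nat_lit 9) (.e (nat_lit 426107) (nat_lit 1) (.e (nat_lit 164403) (nat_lit 256) .nil))))) .nil)) 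
(.lf (nat_lit 214902) (.g (nat_lit 2589) (.e (nat_lit 90168) (nat_lit 13) (.e (nat_lit 172067) (nat_lit 3) (.e (nat_lit 204830) (nat_lit 18) (.e (nat_lit 57691) (nat_lit 156) (.e (nat_lit 163875) (nat_lit 3) (.e (nat_lit 204838) (nat_lit 20) (.e (nat_lit 114716) (nat_lit 22) .nil))))))) (.g (nat_lit 4) .nil .nil)))))) (.nd (nat_lit 4) (.nd (nat_lit 5) (.nd (nat_lit 6) 
(.lf (nat_lit 214798) (.g (nat_lit 1920) (.e (nat_lit 90167) (nat_lit 13) (.e (nat_lit 172067) (nat_lit 3) (.e (nat_lit 204830) (nat_lit 18) (.e (nat_lit 57689) (nat_lit 156) .nil)))) .nil)) 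
(.lf (nat_lit 214862) (.g (nat_lit 1564) (.e (nat_lit 90167) (nat_lit 13) (.e (nat_lit 172126) (nat_lit 14) (.e (nat_lit 491539) (nat_lit 3) (.e (nat_lit 106240) (nat_lit 5) .nil)))) .nil))) (.nd (nat_lit 6) 
(.lf (nat_lit 214830) (.g (nat_lit 1955) (.e (nat_lit 90167) (nat_lit 13) (.e (nat_lit 172106) (nat_lit 10) (.e (nat_lit 434244) (nat_lit 28) (.e (nat_lit 573474) (nat_lit 12) .nil)))) .nil)) 
(.lf (nat_lit 214894) (.g (nat_lit 2274) (.e (nat_lit 90168) (nat_lit 13) (.e (nat_lit 172067) (nat_lit 3) (.e (nat_lit 204829) (nat_lit 18) (.e (nat_lit 57691) (nat_lit 156) (.e (nat_lit 163875) (nat_lit 3) .nil))))) .nil)))) (.nd (nat_lit 5) (.nd (nat_lit 6) 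
(.lf (nat_lit 214814) (.g (nat_lit 2047) (.e (nat_lit 90167) (nat_lit 13) (.e (nat_lit 172067) (nat_lit 3) (.e (nat_lit 204838) (nat_lit 20) (.e (nat_lit 114716) (nat_lit 22) (.e (nat_lit 90181) (nat_lit 16) .nil))))) .nil)) 
(.lf (nat_lit 214878) (.g (nat_lit 3606) (.e (nat_lit 90167) (nat_lit 13) (.e (nat_lit 172133) (nat_lit 15) (.e (nat_lit 2059) (nat_lit 142) (.e (nat_lit 704589) (nat_lit 3) (.e (nat_lit 163975) (nat_lit 30) .nil))))) .nil))) (.nd (nat_lit 6) 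
(.lf (nat_lit 214846) (.g (nat_lit 2256) (.e (nat_lit 90167) (nat_lit 13) (.e (nat_lit 172126) (nat_lit 14) (.e (nat_lit 491537) (nat_lit 2) (.e (nat_lit 90169) (nat_lit 13) .nil)))) .nil)) 
(.lf (nat_lit 214910) (.g (nat_lit 1666) (.e (nat_lit 90168) (nat_lit 13) (.e (nat_lit 172067) (nat_lit 3) (.e (nat_lit 204837) (nat_lit 20) (.e (nat_lit 114719) (nat_lit 23) .nil)))) .nil)))))))) (.nd (nat_lit 1) (.nd (nat_lit 2) (.nd (nat_lit 3) (.nd (nat_lit 4) (.nd (nat_lit 5) (.nd (nat_lit 6) 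
(.lf (nat_lit 214785) (.g (nat_lit 762) (.e (nat_lit 90167) (nat_lit 13) (.e (nat_lit 172067) (nat_lit 3) (.e (nat_lit 212736) (nat_lit 10) .nil))) .nil)) 
(.lf (nat_lit 214849) (.g (nat_lit 2780) (.e (nat_lit 90167) (nat_lit 13) (.e (nat_lit 172126) (nat_lit 14) (.e (nat_lit 491537) (nat_lit 2) (.e (nat_lit 90172) (nat_lit 14) (.e (nat_lit 180277) (nat_lit 32) .nil))))) .nil))) (.nd (nat_lit 6) 
(.lf (nat_lit 214817) (.g (nat_lit 2365) (.e (nat_lit 90167) (nat_lit 13) (.e (nat_lit 172067) (nat_lit 3) (.e (nat_lit 204838) (nat_lit 20) (.e (nat_lit 114718) (nat_lit 23) (.e (nat_lit 98334) (nat_lit 18) (.e (nat_lit 164399) (nat_lit 256) (.e (nat_lit 57370) (nat_lit 2) .nil))))))) (.g (nat_lit 4) .nil .nil))) 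
(.lf (nat_lit 214881) (.g (nat_lit 1545) (.e (nat_lit 90167) (nat_lit 13) (.e (nat_lit 172133) (nat_lit 15) (.e (nat_lit 2059) (nat_lit 142) (.e (nat_lit 704596) (nat_lit 5) .nil)))) .nil)))) (.nd (nat_lit 5) (.nd (nat_lit 6) 
(.lf (nat_lit 214801) (.g (nat_lit 1795) (.e (nat_lit 90167) (nat_lit 13) (.e (nat_lit 172067) (nat_lit 3) (.e (nat_lit 204830) (nat_lit 18) (.e (nat_lit 57692) (nat_lit 156) .nil)))) .nil)) 
(.lf (nat_lit 214865) (.g (nat_lit 2812) (.e (nat_lit 90167) (nat_lit 13) (.e (nat_lit 172126) (nat_lit 14) (.e (nat_lit 491539) (nat_lit 3) (.e (nat_lit 98367) (nat_lit 27) (.e (nat_lit 434180) (nat_lit 0) (.e (nat_lit 1234) (nat_lit 91) .nil)))))) (.g (nat_lit 4) .nil .nil)))) (.nd (nat_lit 6) 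
(.lf (nat_lit 214833) (.g (nat_lit 1475) (.e (nat_lit 90167) (nat_lit 13) (.e (nat_lit 172120) (nat_lit 12) (.e (nat_lit 475176) (nat_lit 24) (.e (nat_lit 516129) (nat_lit 3) .nil)))) .nil)) 
(.lf (nat_lit 214897) (.g (nat_lit 2576) (.e (nat_lit 90168) (nat_lit 13) (.e (nat_lit 172067) (nat_lit 3) (.e (nat_lit 204829) (nat_lit 18) (.e (nat_lit 57692) (nat_lit 156) (.e (nat_lit 163875) (nat_lit 3) .nil))))) .nil))))) (.nd (nat_lit 4) (.nd (nat_lit 5) (.nd (nat_lit 6) 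
(.lf (nat_lit 214793) (.g (nat_lit 2351) (.e (nat_lit 90167) (nat_lit 13) (.e (nat_lit 172067) (nat_lit 3) (.e (nat_lit 204829) (nat_lit 18) (.e (nat_lit 57691) (nat_lit 156) (.e (nat_lit 163875) (nat_lit 3) .nil))))) .nil)) 
(.lf (nat_lit 214857) (.g (nat_lit 3667) (.e (nat_lit 90167) (nat_lit 13) (.e (nat_lit 172126) (nat_lit 14) (.e (nat_lit 491537) (nat_lit 2) (.e (nat_lit 90185) (nat_lit 17) (.e (nat_lit 237569) (nat_lit 0) (.e (nat_lit 7540) (nat_lit 402) (.e (nat_lit 1227) (nat_lit 91) .nil))))))) (.g (nat_lit 4) .nil .nil)))) (.nd (nat_lit 6) 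
(.lf (nat_lit 214825) (.g (nat_lit 2385) (.e (nat_lit 90167) (nat_lit 13) (.e (nat_lit 172067) (nat_lit 3) (.e (nat_lit 204838) (nat_lit 20) (.e (nat_lit 114719) (nat_lit 23) (.e (nat_lit 98343) (nat_lit 21) .nil))))) .nil)) 
(.lf (nat_lit 214889) (.g (nat_lit 1018) (.e (nat_lit 90168) (nat_lit 13) (.e (nat_lit 172067) (nat_lit 3) (.e (nat_lit 204819) (nat_lit 17) .nil))) .nil)))) (.nd (nat_lit 5) (.nd (nat_lit 6) 
(.lf (nat_lit 214809) (.g (nat_lit 1760) (.e (nat_lit 90167) (nat_lit 13) (.e (nat_lit 172067) (nat_lit 3) (.e (nat_lit 204838) (nat_lit 20) (.e (nat_lit 114702) (nat_lit 20) (.e (nat_lit 1792) (nat_lit 119) .nil))))) .nil)) 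
(.lf (nat_lit 214873) (.g (nat_lit 2197) (.e (nat_lit 90167) (nat_lit 13) (.e (nat_lit 172126) (nat_lit 14) (.e (nat_lit 491540) (nat_lit 3) (.e (nat_lit 98365) (nat_lit 26) (.e (nat_lit 426009) (nat_lit 0) .nil))))) .nil))) (.nd (nat_lit 6) 
(.lf (nat_lit 214841) (.g (nat_lit 2445) (.e (nat_lit 90167) (nat_lit 13) (.e (nat_lit 172126) (nat_lit 14) (.e (nat_lit 491537) (nat_lit 2) (.e (nat_lit 90130) (nat_lit 9) .nil)))) .nil)) 
(.lf (nat_lit 214905) (.g (nat_lit 2001) (.e (nat_lit 90168) (nat_lit 13) (.e (nat_lit 172067) (nat_lit 3) (.e (nat_lit 204831) (nat_lit 18) (.e (nat_lit 57692) (nat_lit 156) .nil)))) .nil)))))) (.nd (nat_lit 3) (.nd (nat_lit 4) (.nd (nat_lit 5) (.nd (nat_lit 6) 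
(.lf (nat_lit 214789) (.g (nat_lit 1883) (.e (nat_lit 90167) (nat_lit 13) (.e (nat_lit 172067) (nat_lit 3) (.e (nat_lit 204829) (nat_lit 18) (.e (nat_lit 57688) (nat_lit 156) .nil)))) .nil)) 
(.lf (nat_lit 214853) (.g (nat_lit 2353) (.e (nat_lit 90167) (nat_lit 13) (.e (nat_lit 172126) (nat_lit 14) (.e (nat_lit 491537) (nat_lit 2) (.e (nat_lit 98048) (nat_lit 14) .nil)))) .nil))) (.nd (nat_lit 6) 
(.lf (nat_lit 214821) (.g (nat_lit 2251) (.e (nat_lit 90167) (nat_lit 13) (.e (nat_lit 172067) (nat_lit 3) (.e (nat_lit 204838) (nat_lit 20) (.e (nat_lit 114719) (nat_lit 23) (.e (nat_lit 98333) (nat_lit 18) (.e (nat_lit 164399) (nat_lit 256) (.e (nat_lit 57370) (nat_lit 2) .nil))))))) (.g (nat_lit 4) .nil .nil))) 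
(.lf (nat_lit 214885) (.g (nat_lit 970) (.e (nat_lit 90168) (nat_lit 13) (.e (nat_lit 172067) (nat_lit 3) (.e (nat_lit 204805) (nat_lit 0) .nil))) .nil)))) (.nd (nat_lit 5) (.nd (nat_lit 6) 
(.lf (nat_lit 214805) (.g (nat_lit 2544) (.e (nat_lit 90167) (nat_lit 13) (.e (nat_lit 172067) (nat_lit 3) (.e (nat_lit 204837) (nat_lit 20) (.e (nat_lit 114718) (nat_lit 23) (.e (nat_lit 98325) (nat_lit 17) .nil))))) .nil)) 
(.lf (nat_lit 214869) (.g (nat_lit 1475) (.e (nat_lit 90167) (nat_lit 13) (.e (nat_lit 172126) (nat_lit 14) (.e (nat_lit 491540) (nat_lit 3) (.e (nat_lit 106240) (nat_lit 5) .nil)))) .nil))) (.nd (nat_lit 6) 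
(.lf (nat_lit 214837) (.g (nat_lit 1846) (.e (nat_lit 90167) (nat_lit 13) (.e (nat_lit 172120) (nat_lit 12) (.e (nat_lit 475179) (nat_lit 24) (.e (nat_lit 516131) (nat_lit 3) .nil)))) .nil)) 
(.lf (nat_lit 214901) (.g (nat_lit 2422) (.e (nat_lit 90168) (nat_lit 13) (.e (nat_lit 172067) (nat_lit 3) (.e (nat_lit 204830) (nat_lit 18) (.e (nat_lit 57691) (nat_lit 156) (.e (nat_lit 163875) (nat_lit 3) .nil))))) .nil))))) (.nd (nat_lit 4) (.nd (nat_lit 5) (.nd (nat_lit 6) 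
(.lf (nat_lit 214797) (.g (nat_lit 932) (.e (nat_lit 90167) (nat_lit 13) (.e (nat_lit 172067) (nat_lit 3) (.e (nat_lit 204830) (nat_lit 18) .nil))) .nil)) 
(.lf (nat_lit 214861) (.g (nat_lit 770) (.e (nat_lit 90167) (nat_lit 13) (.e (nat_lit 172126) (nat_lit 14) (.e (nat_lit 491538) (nat_lit 3) .nil))) .nil))) (.nd (nat_lit 6) 
(.lf (nat_lit 214829) (.g (nat_lit 2290) (.e (nat_lit 90167) (nat_lit 13) (.e (nat_lit 172106) (nat_lit 10) (.e (nat_lit 434244) (nat_lit 28) (.e (nat_lit 573473) (nat_lit 12) .nil)))) .nil)) 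
(.lf (nat_lit 214893) (.g (nat_lit 2847) (.e (nat_lit 90168) (nat_lit 13) (.e (nat_lit 172067) (nat_lit 3) (.e (nat_lit 204829) (nat_lit 18) (.e (nat_lit 57688) (nat_lit 156) (.e (nat_lit 163874) (nat_lit 3) .nil))))) .nil)))) (.nd (nat_lit 5) (.nd (nat_lit 6) 
(.lf (nat_lit 214813) (.g (nat_lit 2295) (.e (nat_lit 90167) (nat_lit 13) (.e (nat_lit 172067) (nat_lit 3) (.e (nat_lit 204838) (nat_lit 20) (.e (nat_lit 114716) (nat_lit 22) (.e (nat_lit 90140) (nat_lit 9) .nil))))) .nil)) 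
(.lf (nat_lit 214877) (.g (nat_lit 732) (.e (nat_lit 90167) (nat_lit 13) (.e (nat_lit 172126) (nat_lit 14) (.e (nat_lit 491580) (nat_lit 27) .nil))) .nil))) (.nd (nat_lit 6) 
(.lf (nat_lit 214845) (.g (nat_lit 2216) (.e (nat_lit 90167) (nat_lit 13) (.e (nat_lit 172126) (nat_lit 14) (.e (nat_lit 491537) (nat_lit 2) (.e (nat_lit 90165) (nat_lit 12) .nil)))) .nil)) 
(.lf (nat_lit 214909) (.g (nat_lit 2343) (.e (nat_lit 90168) (nat_lit 13) (.e (nat_lit 172067) (nat_lit 3) (.e (nat_lit 204837) (nat_lit 20) (.e (nat_lit 114718) (nat_lit 23) (.e (nat_lit 98333) (nat_lit 18) (.e (nat_lit 164399) (nat_lit 256) (.e (nat_lit 57370) (nat_lit 2) .nil))))))) (.g (nat_lit 4) .nil .nil)))))))) 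
(.nd (nat_lit 2) (.nd (nat_lit 3) (.nd (nat_lit 4) (.nd (nat_lit 5) (.nd (nat_lit 6) 
(.lf (nat_lit 214787) (.g (nat_lit 972) (.e (nat_lit 90167) (nat_lit 13) (.e (nat_lit 172067) (nat_lit 3) (.e (nat_lit 204829) (nat_lit 18) .nil))) .nil)) 
(.lf (nat_lit 214851) (.g (nat_lit 3699) (.e (nat_lit 90167) (nat_lit 13) (.e (nat_lit 172126) (nat_lit 14) (.e (nat_lit 491537) (nat_lit 2) (.e (nat_lit 90172) (nat_lit 14) (.e (nat_lit 180278) (nat_lit 32) (.e (nat_lit 1235) (nat_lit 91) .nil)))))) (.g (nat_lit 6) .nil .nil)))) (.nd (nat_lit 6) 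
(.lf (nat_lit 214819) (.g (nat_lit 1382) (.e (nat_lit 90167) (nat_lit 13) (.e (nat_lit 172067) (nat_lit 3) (.e (nat_lit 204838) (nat_lit 20) (.e (nat_lit 114719) (nat_lit 23) .nil)))) .nil)) 
(.lf (nat_lit 214883) (.g (nat_lit 2009) (.e (nat_lit 90167) (nat_lit 13) (.e (nat_lit 172138) (nat_lit 15) (.e (nat_lit 2174) (nat_lit 143) (.e (nat_lit 712745) (nat_lit 27) (.e (nat_lit 425984) (nat_lit 0) (.e (nat_lit 3555) (nat_lit 220) (.e (nat_lit 720956) (nat_lit 25) (.e (nat_lit 114716) (nat_lit 22) .nil)))))))) (.g (nat_lit 4) .nil .nil))))) (.nd (nat_lit 5) (.nd (nat_lit 6) 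
(.lf (nat_lit 214803) (.g (nat_lit 910) (.e (nat_lit 90167) (nat_lit 13) (.e (nat_lit 172067) (nat_lit 3) (.e (nat_lit 204837) (nat_lit 20) .nil))) .nil)) 
(.lf (nat_lit 214867) (.g (nat_lit 498) (.e (nat_lit 90167) (nat_lit 13) (.e (nat_lit 172126) (nat_lit 14) (.e (nat_lit 491540) (nat_lit 3) .nil))) .nil))) (.nd (nat_lit 6) 
(.lf (nat_lit 214835) (.g (nat_lit 842) (.e (nat_lit 90167) (nat_lit 13) (.e (nat_lit 172120) (nat_lit 12) (.e (nat_lit 475178) (nat_lit 24) .nil))) .nil)) 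
(.lf (nat_lit 214899) (.g (nat_lit 1647) (.e (nat_lit 90168) (nat_lit 13) (.e (nat_lit 172067) (nat_lit 3) (.e (nat_lit 204830) (nat_lit 18) (.e (nat_lit 57691) (nat_lit 156) .nil)))) .nil))))) (.nd (nat_lit 4) (.nd (nat_lit 5) (.nd (nat_lit 6) 
(.lf (nat_lit 214795) (.g (nat_lit 2574) (.e (nat_lit 90167) (nat_lit 13) (.e (nat_lit 172067) (nat_lit 3) (.e (nat_lit 204829) (nat_lit 18) (.e (nat_lit 57692) (nat_lit 156) (.e (nat_lit 163874) (nat_lit 3) .nil))))) .nil)) 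
(.lf (nat_lit 214859) (.g (nat_lit 3107) (.e (nat_lit 90167) (nat_lit 13) (.e (nat_lit 172126) (nat_lit 14) (.e (nat_lit 491537) (nat_lit 2) (.e (nat_lit 90185) (nat_lit 17) (.e (nat_lit 237573) (nat_lit 0) .nil))))) .nil))) (.nd (nat_lit 6) 
(.lf (nat_lit 214827) (.g (nat_lit 1915) (.e (nat_lit 90167) (nat_lit 13) (.e (nat_lit 172106) (nat_lit 10) (.e (nat_lit 434231) (nat_lit 23) (.e (nat_lit 532486) (nat_lit 0) .nil)))) .nil)) 
(.lf (nat_lit 214891) (.g (nat_lit 2327) (.e (nat_lit 90168) (nat_lit 13) (.e (nat_lit 172067) (nat_lit 3) (.e (nat_lit 204829) (nat_lit 18) (.e (nat_lit 57686) (nat_lit 156) (.e (nat_lit 163875) (nat_lit 3) .nil))))) .nil)))) (.nd (nat_lit 5) (.nd (nat_lit 6) 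
(.lf (nat_lit 214811) (.g (nat_lit 1249) (.e (nat_lit 90167) (nat_lit 13) (.e (nat_lit 172067) (nat_lit 3) (.e (nat_lit 204838) (nat_lit 20) (.e (nat_lit 114716) (nat_lit 22) .nil)))) .nil)) 
(.lf (nat_lit 214875) (.g (nat_lit 1733) (.e (nat_lit 90167) (nat_lit 13) (.e (nat_lit 172126) (nat_lit 14) (.e (nat_lit 491540) (nat_lit 3) (.e (nat_lit 98368) (nat_lit 27) (.e (nat_lit 442112) (nat_lit 0) .nil))))) .nil))) (.nd (nat_lit 6) 
(.lf (nat_lit 214843) (.g (nat_lit 1986) (.e (nat_lit 90167) (nat_lit 13) (.e (nat_lit 172126) (nat_lit 14) (.e (nat_lit 491537) (nat_lit 2) (.e (nat_lit 90133) (nat_lit 9) (.e (nat_lit 3029) (nat_lit 188) .nil))))) .nil)) 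
(.lf (nat_lit 214907) (.g (nat_lit 958) (.e (nat_lit 90168) (nat_lit 13) (.e (nat_lit 172067) (nat_lit 3) (.e (nat_lit 204837) (nat_lit 20) .nil))) .nil)))))) (.nd (nat_lit 3) (.nd (nat_lit 4) (.nd (nat_lit 5) (.nd (nat_lit 6) 
(.lf (nat_lit 214791) (.g (nat_lit 2966) (.e (nat_lit 90167) (nat_lit 13) (.e (nat_lit 172067) (nat_lit 3) (.e (nat_lit 204829) (nat_lit 18) (.e (nat_lit 57688) (nat_lit 156) (.e (nat_lit 163874) (nat_lit 3) .nil))))) .nil)) 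
(.lf (nat_lit 214855) (.g (nat_lit 3605) (.e (nat_lit 90167) (nat_lit 13) (.e (nat_lit 172126) (nat_lit 14) (.e (nat_lit 491537) (nat_lit 2) (.e (nat_lit 90185) (nat_lit 17) (.e (nat_lit 237568) (nat_lit 0) .nil))))) .nil))) (.nd (nat_lit 6) 
(.lf (nat_lit 214823) (.g (nat_lit 4267) (.e (nat_lit 90167) (nat_lit 13) (.e (nat_lit 172067) (nat_lit 3) (.e (nat_lit 204838) (nat_lit 20) (.e (nat_lit 114719) (nat_lit 23) (.e (nat_lit 98334) (nat_lit 18) (.e (nat_lit 164399) (nat_lit 256) (.e (nat_lit 57372) (nat_lit 2) .nil))))))) (.g (nat_lit 7) .nil .nil))) 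
(.lf (nat_lit 214887) (.g (nat_lit 1262) (.e (nat_lit 90168) (nat_lit 13) (.e (nat_lit 172067) (nat_lit 3) (.e (nat_lit 212736) (nat_lit 9) (.e (nat_lit 426438) (nat_lit 18) (.e (nat_lit 106240) (nat_lit 3) .nil))))) .nil)))) (.nd (nat_lit 5) (.nd (nat_lit 6) 
(.lf (nat_lit 214807) (.g (nat_lit 1618) (.e (nat_lit 90167) (nat_lit 13) (.e (nat_lit 172067) (nat_lit 3) (.e (nat_lit 204837) (nat_lit 20) (.e (nat_lit 114719) (nat_lit 23) .nil)))) .nil)) 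
(.lf (nat_lit 214871) (.g (nat_lit 2397) (.e (nat_lit 90167) (nat_lit 13) (.e (nat_lit 172126) (nat_lit 14) (.e (nat_lit 491540) (nat_lit 3) (.e (nat_lit 98350) (nat_lit 24) (.e (nat_lit 409603) (nat_lit 0) .nil))))) .nil))) (.nd (nat_lit 6) 
(.lf (nat_lit 214839) (.g (nat_lit 428) (.e (nat_lit 90167) (nat_lit 13) (.e (nat_lit 172123) (nat_lit 13) (.e (nat_lit 491264) (nat_lit 10) .nil))) .nil)) 
(.lf (nat_lit 214903) (.g (nat_lit 1750) (.e (nat_lit 90168) (nat_lit 13) (.e (nat_lit 172067) (nat_lit 3) (.e (nat_lit 204830) (nat_lit 18) (.e (nat_lit 57692) (nat_lit 156) .nil)))) .nil))))) (.nd (nat_lit 4) (.nd (nat_lit 5) (.nd (nat_lit 6) 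
(.lf (nat_lit 214799) (.g (nat_lit 2590) (.e (nat_lit 90167) (nat_lit 13) (.e (nat_lit 172067) (nat_lit 3) (.e (nat_lit 204830) (nat_lit 18) (.e (nat_lit 57691) (nat_lit 156) (.e (nat_lit 163874) (nat_lit 3) .nil))))) .nil)) 
(.lf (nat_lit 214863) (.g (nat_lit 1499) (.e (nat_lit 90167) (nat_lit 13) (.e (nat_lit 172126) (nat_lit 14) (.e (nat_lit 491539) (nat_lit 3) (.e (nat_lit 98362) (nat_lit 26) .nil)))) .nil))) (.nd (nat_lit 6) 
(.lf (nat_lit 214831) (.g (nat_lit 1787) (.e (nat_lit 90167) (nat_lit 13) (.e (nat_lit 172115) (nat_lit 10) (.e (nat_lit 434231) (nat_lit 23) (.e (nat_lit 532522) (nat_lit 7) .nil)))) .nil)) 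
(.lf (nat_lit 214895) (.g (nat_lit 2497) (.e (nat_lit 90168) (nat_lit 13) (.e (nat_lit 172067) (nat_lit 3) (.e (nat_lit 204829) (nat_lit 18) (.e (nat_lit 57692) (nat_lit 156) (.e (nat_lit 163874) (nat_lit 3) .nil))))) .nil)))) (.nd (nat_lit 5) (.nd (nat_lit 6) 
(.lf (nat_lit 214815) (.g (nat_lit 1617) (.e (nat_lit 90167) (nat_lit 13) (.e (nat_lit 172067) (nat_lit 3) (.e (nat_lit 204838) (nat_lit 20) (.e (nat_lit 114718) (nat_lit 23) .nil)))) .nil)) 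
(.lf (nat_lit 214879) (.g (nat_lit 2409) (.e (nat_lit 90167) (nat_lit 13) (.e (nat_lit 172133) (nat_lit 15) (.e (nat_lit 2059) (nat_lit 142) (.e (nat_lit 704590) (nat_lit 3) (.e (nat_lit 163975) (nat_lit 30) .nil))))) .nil))) (.nd (nat_lit 6) 
(.lf (nat_lit 214847) (.g (nat_lit 3040) (.e (nat_lit 90167) (nat_lit 13) (.e (nat_lit 172126) (nat_lit 14) (.e (nat_lit 491537) (nat_lit 2) (.e (nat_lit 90170) (nat_lit 13) (.e (nat_lit 172124) (nat_lit 14) (.e (nat_lit 491536) (nat_lit 2) .nil)))))) (.g (nat_lit 6) .nil .nil))) 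
(.lf (nat_lit 214911) (.g (nat_lit 2833) (.e (nat_lit 90168) (nat_lit 13) (.e (nat_lit 172067) (nat_lit 3) (.e (nat_lit 204837) (nat_lit 20) (.e (nat_lit 114719) (nat_lit 23) (.e (nat_lit 98335) (nat_lit 18) (.e (nat_lit 164403) (nat_lit 256) (.e (nat_lit 57373) (nat_lit 2) .nil))))))) (.g (nat_lit 4) .nil .nil))))))))))

noncomputable def tv2826 : DT := (.nd (nat_lit 0) (.nd (nat_lit 1) (.nd (nat_lit 2) (.nd (nat_lit 3) (.nd (nat_lit 4) (.nd (nat_lit 5) (.nd (nat_lit 6) 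
(.lf (nat_lit 214912) (.g (nat_lit 710) (.e (nat_lit 90168) (nat_lit 13) (.e (nat_lit 172067) (nat_lit 3) (.e (nat_lit 204838) (nat_lit 20) .nil))) .nil)) 
(.lf (nat_lit 214976) (.g (nat_lit 2420) (.e (nat_lit 90169) (nat_lit 13) (.e (nat_lit 172094) (nat_lit 9) (.e (nat_lit 426125) (nat_lit 2) (.e (nat_lit 196661) (nat_lit 12) (.e (nat_lit 57712) (nat_lit 176) .nil))))) .nil))) (.nd (nat_lit 6) 
(.lf (nat_lit 214944) (.g (nat_lit 468) (.e (nat_lit 90169) (nat_lit 13) (.e (nat_lit 172065) (nat_lit 3) (.e (nat_lit 204834) (nat_lit 19) .nil))) .nil)) 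
(.lf (nat_lit 215008) (.g (nat_lit 1275) (.e (nat_lit 90169) (nat_lit 13) (.e (nat_lit 172119) (nat_lit 12) (.e (nat_lit 475178) (nat_lit 24) (.e (nat_lit 516127) (nat_lit 2) (.e (nat_lit 213030) (nat_lit 11) .nil))))) .nil)))) (.nd (nat_lit 5) (.nd (nat_lit 6) 
(.lf (nat_lit 214928) (.g (nat_lit 2617) (.e (nat_lit 90168) (nat_lit 13) (.e (nat_lit 172115) (nat_lit 10) (.e (nat_lit 434231) (nat_lit 23) (.e (nat_lit 532490) (nat_lit 0) (.e (nat_lit 6147) (nat_lit 332) .nil))))) .nil)) 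
(.lf (nat_lit 214992) (.g (nat_lit 2853) (.e (nat_lit 90169) (nat_lit 13) (.e (nat_lit 172112) (nat_lit 10) (.e (nat_lit 434231) (nat_lit 23) (.e (nat_lit 532523) (nat_lit 7) (.e (nat_lit 319531) (nat_lit 16) .nil))))) .nil))) (.nd (nat_lit 6) 
(.lf (nat_lit 214960) (.g (nat_lit 2871) (.e (nat_lit 90169) (nat_lit 13) (.e (nat_lit 172085) (nat_lit 9) (.e (nat_lit 426125) (nat_lit 2) (.e (nat_lit 196661) (nat_lit 12) (.e (nat_lit 65280) (nat_lit 176) (.e (nat_lit 1349) (nat_lit 102) (.e (nat_lit 286733) (nat_lit 2) .nil))))))) (.g (nat_lit 4) .nil .nil))) 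
(.lf (nat_lit 215024) (.g (nat_lit 393) (.e (nat_lit 90169) (nat_lit 13) (.e (nat_lit 172122) (nat_lit 13) (.e (nat_lit 483337) (nat_lit 9) .nil))) .nil))))) (.nd (nat_lit 4) (.nd (nat_lit 5) (.nd (nat_lit 6) 
(.lf (nat_lit 214920) (.g (nat_lit 4012) (.e (nat_lit 90168) (nat_lit 13) (.e (nat_lit 172094) (nat_lit 9) (.e (nat_lit 426125) (nat_lit 2) (.e (nat_lit 196630) (nat_lit 9) (.e (nat_lit 1401) (nat_lit 106) .nil))))) .nil)) 
(.lf (nat_lit 214984) (.g (nat_lit 1474) (.e (nat_lit 90169) (nat_lit 13) (.e (nat_lit 172097) (nat_lit 9) (.e (nat_lit 426125) (nat_lit 2) (.e (nat_lit 196630) (nat_lit 9) .nil)))) .nil))) (.nd (nat_lit 6) 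
(.lf (nat_lit 214952) (.g (nat_lit 811) (.e (nat_lit 90169) (nat_lit 13) (.e (nat_lit 172082) (nat_lit 7) (.e (nat_lit 409631) (nat_lit 12) (.e (nat_lit 32805) (nat_lit 17) .nil)))) .nil)) 
(.lf (nat_lit 215016) (.g (nat_lit 2690) (.e (nat_lit 90169) (nat_lit 13) (.e (nat_lit 172119) (nat_lit 12) (.e (nat_lit 475185) (nat_lit 29) (.e (nat_lit 557103) (nat_lit 14) (.e (nat_lit 180278) (nat_lit 32) .nil))))) .nil)))) (.nd (nat_lit 5) (.nd (nat_lit 6) 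
(.lf (nat_lit 214936) (.g (nat_lit 2687) (.e (nat_lit 90168) (nat_lit 13) (.e (nat_lit 172126) (nat_lit 14) (.e (nat_lit 491537) (nat_lit 2) (.e (nat_lit 90165) (nat_lit 12) .nil)))) .nil)) 
(.lf (nat_lit 215000) (.g (nat_lit 2582) (.e (nat_lit 90169) (nat_lit 13) (.e (nat_lit 172115) (nat_lit 10) (.e (nat_lit 434244) (nat_lit 28) (.e (nat_lit 573468) (nat_lit 10) (.e (nat_lit 16128) (nat_lit 180) .nil))))) .nil))) (.nd (nat_lit 6) 
(.lf (nat_lit 214968) (.g (nat_lit 3879) (.e (nat_lit 90169) (nat_lit 13) (.e (nat_lit 172094) (nat_lit 9) (.e (nat_lit 426125) (nat_lit 2) (.e (nat_lit 196630) (nat_lit 9) (.e (nat_lit 1393) (nat_lit 106) .nil))))) .nil)) 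
(.lf (nat_lit 215032) (.g (nat_lit 1447) (.e (nat_lit 90169) (nat_lit 13) (.e (nat_lit 172122) (nat_lit 13) (.e (nat_lit 483337) (nat_lit 9) (.e (nat_lit 426142) (nat_lit 4) .nil)))) .nil)))))) (.nd (nat_lit 3) (.nd (nat_lit 4) (.nd (nat_lit 5) (.nd (nat_lit 6) 
(.lf (nat_lit 214916) (.g (nat_lit 3207) (.e (nat_lit 90168) (nat_lit 13) (.e (nat_lit 172067) (nat_lit 3) (.e (nat_lit 204838) (nat_lit 20) (.e (nat_lit 114718) (nat_lit 23) (.e (nat_lit 98334) (nat_lit 18) (.e (nat_lit 164399) (nat_lit 256) (.e (nat_lit 57373) (nat_lit 2) .nil))))))) (.g (nat_lit 5) .nil .nil))) 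
(.lf (nat_lit 214980) (.g (nat_lit 2082) (.e (nat_lit 90169) (nat_lit 13) (.e (nat_lit 172094) (nat_lit 9) (.e (nat_lit 426140) (nat_lit 3) (.e (nat_lit 204845) (nat_lit 24) (.e (nat_lit 327424) (nat_lit 16) .nil))))) .nil))) (.nd (nat_lit 6) 
(.lf (nat_lit 214948) (.g (nat_lit 1465) (.e (nat_lit 90169) (nat_lit 13) (.e (nat_lit 172065) (nat_lit 3) (.e (nat_lit 204838) (nat_lit 20) (.e (nat_lit 114718) (nat_lit 23) .nil)))) .nil)) 
(.lf (nat_lit 215012) (.g (nat_lit 2489) (.e (nat_lit 90169) (nat_lit 13) (.e (nat_lit 172119) (nat_lit 12) (.e (nat_lit 475179) (nat_lit 24) (.e (nat_lit 516131) (nat_lit 3) (.e (nat_lit 221193) (nat_lit 11) (.e (nat_lit 336010) (nat_lit 2) .nil)))))) (.g (nat_lit 5) .nil .nil))))) (.nd (nat_lit 5) (.nd (nat_lit 6) 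
(.lf (nat_lit 214932) (.g (nat_lit 439) (.e (nat_lit 90168) (nat_lit 13) (.e (nat_lit 172123) (nat_lit 13) (.e (nat_lit 483333) (nat_lit 0) .nil))) .nil)) 
(.lf (nat_lit 214996) (.g (nat_lit 3521) (.e (nat_lit 90169) (nat_lit 13) (.e (nat_lit 172113) (nat_lit 10) (.e (nat_lit 434248) (nat_lit 28) (.e (nat_lit 573468) (nat_lit 10) (.e (nat_lit 16128) (nat_lit 180) (.e (nat_lit 1348) (nat_lit 102) (.e (nat_lit 286733) (nat_lit 2) .nil))))))) (.g (nat_lit 4) .nil .nil)))) (.nd (nat_lit 6) 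
(.lf (nat_lit 214964) (.g (nat_lit 2474) (.e (nat_lit 90169) (nat_lit 13) (.e (nat_lit 172093) (nat_lit 9) (.e (nat_lit 426125) (nat_lit 2) (.e (nat_lit 196661) (nat_lit 12) (.e (nat_lit 57714) (nat_lit 176) .nil))))) .nil)) 
(.lf (nat_lit 215028) (.g (nat_lit 1876) (.e (nat_lit 90169) (nat_lit 13) (.e (nat_lit 172122) (nat_lit 13) (.e (nat_lit 483337) (nat_lit 9) (.e (nat_lit 426100) (nat_lit 1) (.e (nat_lit 164399) (nat_lit 256) .nil))))) .nil))))) (.nd (nat_lit 4) (.nd (nat_lit 5) (.nd (nat_lit 6) 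
(.lf (nat_lit 214924) (.g (nat_lit 3168) (.e (nat_lit 90168) (nat_lit 13) (.e (nat_lit 172106) (nat_lit 10) (.e (nat_lit 434231) (nat_lit 23) (.e (nat_lit 532483) (nat_lit 0) .nil)))) .nil)) 
(.lf (nat_lit 214988) (.g (nat_lit 625) (.e (nat_lit 90169) (nat_lit 13) (.e (nat_lit 172103) (nat_lit 9) (.e (nat_lit 426124) (nat_lit 2) (.e (nat_lit 196677) (nat_lit 16) .nil)))) .nil))) (.nd (nat_lit 6) 
(.lf (nat_lit 214956) (.g (nat_lit 2899) (.e (nat_lit 90169) (nat_lit 13) (.e (nat_lit 172085) (nat_lit 9) (.e (nat_lit 426125) (nat_lit 2) (.e (nat_lit 196661) (nat_lit 12) (.e (nat_lit 57712) (nat_lit 176) .nil))))) .nil)) 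
(.lf (nat_lit 215020) (.g (nat_lit 2361) (.e (nat_lit 90169) (nat_lit 13) (.e (nat_lit 172119) (nat_lit 12) (.e (nat_lit 475185) (nat_lit 29) (.e (nat_lit 557105) (nat_lit 14) (.e (nat_lit 188160) (nat_lit 32) .nil))))) .nil)))) (.nd (nat_lit 5) (.nd (nat_lit 6) 
(.lf (nat_lit 214940) (.g (nat_lit 2556) (.e (nat_lit 90168) (nat_lit 13) (.e (nat_lit 172133) (nat_lit 15) (.e (nat_lit 2059) (nat_lit 142) (.e (nat_lit 704595) (nat_lit 5) (.e (nat_lit 188160) (nat_lit 28) .nil))))) .nil)) 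
(.lf (nat_lit 215004) (.g (nat_lit 1636) (.e (nat_lit 90169) (nat_lit 13) (.e (nat_lit 172119) (nat_lit 12) (.e (nat_lit 475177) (nat_lit 24) (.e (nat_lit 516129) (nat_lit 3) (.e (nat_lit 221194) (nat_lit 11) .nil))))) .nil))) (.nd (nat_lit 6) 
(.lf (nat_lit 214972) (.g (nat_lit 3876) (.e (nat_lit 90169) (nat_lit 13) (.e (nat_lit 172094) (nat_lit 9) (.e (nat_lit 426125) (nat_lit 2) (.e (nat_lit 196630) (nat_lit 9) (.e (nat_lit 1401) (nat_lit 106) (.e (nat_lit 319530) (nat_lit 16) (.e (nat_lit 286733) (nat_lit 2) .nil))))))) (.g (nat_lit 4) .nil .nil))) 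
(.lf (nat_lit 215036) (.g (nat_lit 1795) (.e (nat_lit 90169) (nat_lit 13) (.e (nat_lit 172124) (nat_lit 14) (.e (nat_lit 491537) (nat_lit 2) (.e (nat_lit 90133) (nat_lit 9) .nil)))) .nil))))))) (.nd (nat_lit 2) (.nd (nat_lit 3) (.nd (nat_lit 4) (.nd (nat_lit 5) (.nd (nat_lit 6) 
(.lf (nat_lit 214914) (.g (nat_lit 1644) (.e (nat_lit 90168) (nat_lit 13) (.e (nat_lit 172067) (nat_lit 3) (.e (nat_lit 204838) (nat_lit 20) (.e (nat_lit 114718) (nat_lit 23) .nil)))) .nil)) 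
(.lf (nat_lit 214978) (.g (nat_lit 2632) (.e (nat_lit 90169) (nat_lit 13) (.e (nat_lit 172094) (nat_lit 9) (.e (nat_lit 426125) (nat_lit 2) (.e (nat_lit 196661) (nat_lit 12) (.e (nat_lit 57714) (nat_lit 176) .nil))))) .nil))) (.nd (nat_lit 6) 
(.lf (nat_lit 214946) (.g (nat_lit 466) (.e (nat_lit 90169) (nat_lit 13) (.e (nat_lit 172065) (nat_lit 3) (.e (nat_lit 204838) (nat_lit 20) .nil))) .nil)) 
(.lf (nat_lit 215010) (.g (nat_lit 500) (.e (nat_lit 90169) (nat_lit 13) (.e (nat_lit 172119) (nat_lit 12) (.e (nat_lit 475179) (nat_lit 24) .nil))) .nil)))) (.nd (nat_lit 5) (.nd (nat_lit 6) 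
(.lf (nat_lit 214930) (.g (nat_lit 2667) (.e (nat_lit 90168) (nat_lit 13) (.e (nat_lit 172120) (nat_lit 12) (.e (nat_lit 475185) (nat_lit 29) (.e (nat_lit 557103) (nat_lit 14) (.e (nat_lit 188160) (nat_lit 32) .nil))))) .nil)) 
(.lf (nat_lit 214994) (.g (nat_lit 3330) (.e (nat_lit 90169) (nat_lit 13) (.e (nat_lit 172113) (nat_lit 10) (.e (nat_lit 434231) (nat_lit 23) (.e (nat_lit 532523) (nat_lit 7) (.e (nat_lit 319530) (nat_lit 16) .nil))))) .nil))) (.nd (nat_lit 6) 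
(.lf (nat_lit 214962) (.g (nat_lit 1902) (.e (nat_lit 90169) (nat_lit 13) (.e (nat_lit 172090) (nat_lit 9) (.e (nat_lit 426140) (nat_lit 3) (.e (nat_lit 204845) (nat_lit 24) (.e (nat_lit 319531) (nat_lit 16) .nil))))) .nil)) 
(.lf (nat_lit 215026) (.g (nat_lit 1834) (.e (nat_lit 90169) (nat_lit 13) (.e (nat_lit 172122) (nat_lit 13) (.e (nat_lit 483337) (nat_lit 9) (.e (nat_lit 426098) (nat_lit 1) (.e (nat_lit 164398) (nat_lit 256) .nil))))) .nil))))) (.nd (nat_lit 4) (.nd (nat_lit 5) (.nd (nat_lit 6) 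
(.lf (nat_lit 214922) (.g (nat_lit 2534) (.e (nat_lit 90168) (nat_lit 13) (.e (nat_lit 172097) (nat_lit 9) (.e (nat_lit 426125) (nat_lit 2) (.e (nat_lit 196661) (nat_lit 12) (.e (nat_lit 57713) (nat_lit 176) (.e (nat_lit 1348) (nat_lit 102) (.e (nat_lit 286733) (nat_lit 2) .nil))))))) (.g (nat_lit 4) .nil .nil))) 
(.lf (nat_lit 214986) (.g (nat_lit 2067) (.e (nat_lit 90169) (nat_lit 13) (.e (nat_lit 172097) (nat_lit 9) (.e (nat_lit 426125) (nat_lit 2) (.e (nat_lit 196661) (nat_lit 12) (.e (nat_lit 57714) (nat_lit 176) .nil))))) .nil))) (.nd (nat_lit 6) 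
(.lf (nat_lit 214954) (.g (nat_lit 3348) (.e (nat_lit 90169) (nat_lit 13) (.e (nat_lit 172085) (nat_lit 9) (.e (nat_lit 426125) (nat_lit 2) (.e (nat_lit 196630) (nat_lit 9) (.e (nat_lit 1395) (nat_lit 106) (.e (nat_lit 319530) (nat_lit 16) (.e (nat_lit 286733) (nat_lit 2) .nil))))))) (.g (nat_lit 4) .nil .nil))) 
(.lf (nat_lit 215018) (.g (nat_lit 2403) (.e (nat_lit 90169) (nat_lit 13) (.e (nat_lit 172119) (nat_lit 12) (.e (nat_lit 475185) (nat_lit 29) (.e (nat_lit 557105) (nat_lit 14) (.e (nat_lit 180277) (nat_lit 32) .nil))))) .nil)))) (.nd (nat_lit 5) (.nd (nat_lit 6) 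
(.lf (nat_lit 214938) (.g (nat_lit 1719) (.e (nat_lit 90168) (nat_lit 13) (.e (nat_lit 172126) (nat_lit 14) (.e (nat_lit 491540) (nat_lit 3) (.e (nat_lit 98352) (nat_lit 25) .nil)))) .nil)) 
(.lf (nat_lit 215002) (.g (nat_lit 1611) (.e (nat_lit 90169) (nat_lit 13) (.e (nat_lit 172119) (nat_lit 12) (.e (nat_lit 475176) (nat_lit 24) (.e (nat_lit 516129) (nat_lit 3) (.e (nat_lit 221193) (nat_lit 11) .nil))))) .nil))) (.nd (nat_lit 6) 
(.lf (nat_lit 214970) (.g (nat_lit 3961) (.e (nat_lit 90169) (nat_lit 13) (.e (nat_lit 172094) (nat_lit 9) (.e (nat_lit 426125) (nat_lit 2) (.e (nat_lit 196630) (nat_lit 9) (.e (nat_lit 1398) (nat_lit 106) .nil))))) .nil)) 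
(.lf (nat_lit 215034) (.g (nat_lit 384) (.e (nat_lit 90169) (nat_lit 13) (.e (nat_lit 172122) (nat_lit 13) (.e (nat_lit 491264) (nat_lit 10) .nil))) .nil)))))) (.nd (nat_lit 3) (.nd (nat_lit 4) (.nd (nat_lit 5) (.nd (nat_lit 6) 
(.lf (nat_lit 214918) (.g (nat_lit 2890) (.e (nat_lit 90168) (nat_lit 13) (.e (nat_lit 172067) (nat_lit 3) (.e (nat_lit 204838) (nat_lit 20) (.e (nat_lit 114719) (nat_lit 23) (.e (nat_lit 98334) (nat_lit 18) (.e (nat_lit 164399) (nat_lit 256) (.e (nat_lit 57373) (nat_lit 2) .nil))))))) (.g (nat_lit 5) .nil .nil))) 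
(.lf (nat_lit 214982) (.g (nat_lit 1241) (.e (nat_lit 90169) (nat_lit 13) (.e (nat_lit 172094) (nat_lit 9) (.e (nat_lit 426140) (nat_lit 3) (.e (nat_lit 212736) (nat_lit 24) .nil)))) .nil))) (.nd (nat_lit 6) 
(.lf (nat_lit 214950) (.g (nat_lit 1057) (.e (nat_lit 90169) (nat_lit 13) (.e (nat_lit 172065) (nat_lit 3) (.e (nat_lit 204838) (nat_lit 20) (.e (nat_lit 114719) (nat_lit 23) .nil)))) .nil)) 
(.lf (nat_lit 215014) (.g (nat_lit 1821) (.e (nat_lit 90169) (nat_lit 13) (.e (nat_lit 172119) (nat_lit 12) (.e (nat_lit 475185) (nat_lit 29) (.e (nat_lit 557099) (nat_lit 13) .nil)))) .nil)))) (.nd (nat_lit 5) (.nd (nat_lit 6) 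
(.lf (nat_lit 214934) (.g (nat_lit 438) (.e (nat_lit 90168) (nat_lit 13) (.e (nat_lit 172123) (nat_lit 13) (.e (nat_lit 491264) (nat_lit 10) .nil))) .nil)) 
(.lf (nat_lit 214998) (.g (nat_lit 1399) (.e (nat_lit 90169) (nat_lit 13) (.e (nat_lit 172115) (nat_lit 10) (.e (nat_lit 434231) (nat_lit 23) (.e (nat_lit 532490) (nat_lit 0) .nil)))) .nil))) (.nd (nat_lit 6) 
(.lf (nat_lit 214966) (.g (nat_lit 2341) (.e (nat_lit 90169) (nat_lit 13) (.e (nat_lit 172094) (nat_lit 9) (.e (nat_lit 426125) (nat_lit 2) (.e (nat_lit 196626) (nat_lit 9) .nil)))) .nil)) 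
(.lf (nat_lit 215030) (.g (nat_lit 4073) (.e (nat_lit 90169) (nat_lit 13) (.e (nat_lit 172122) (nat_lit 13) (.e (nat_lit 483337) (nat_lit 9) (.e (nat_lit 426107) (nat_lit 1) (.e (nat_lit 164403) (nat_lit 256) (.e (nat_lit 57371) (nat_lit 2) .nil)))))) (.g (nat_lit 0) .nil .nil)))))) (.nd (nat_lit 4) (.nd (nat_lit 5) (.nd (nat_lit 6) 
(.lf (nat_lit 214926) (.g (nat_lit 2508) (.e (nat_lit 90168) (nat_lit 13) (.e (nat_lit 172106) (nat_lit 10) (.e (nat_lit 434231) (nat_lit 23) (.e (nat_lit 532523) (nat_lit 7) .nil)))) .nil)) 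
(.lf (nat_lit 214990) (.g (nat_lit 2245) (.e (nat_lit 90169) (nat_lit 13) (.e (nat_lit 172103) (nat_lit 9) (.e (nat_lit 426133) (nat_lit 3) (.e (nat_lit 204846) (nat_lit 24) (.e (nat_lit 319532) (nat_lit 16) .nil))))) .nil))) (.nd (nat_lit 6) 
(.lf (nat_lit 214958) (.g (nat_lit 2973) (.e (nat_lit 90169) (nat_lit 13) (.e (nat_lit 172085) (nat_lit 9) (.e (nat_lit 426125) (nat_lit 2) (.e (nat_lit 196661) (nat_lit 12) (.e (nat_lit 57715) (nat_lit 176) .nil))))) .nil)) 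
(.lf (nat_lit 215022) (.g (nat_lit 1786) (.e (nat_lit 90169) (nat_lit 13) (.e (nat_lit 172121) (nat_lit 13) (.e (nat_lit 483337) (nat_lit 9) (.e (nat_lit 426107) (nat_lit 1) (.e (nat_lit 164403) (nat_lit 256) .nil))))) .nil)))) (.nd (nat_lit 5) (.nd (nat_lit 6) 
(.lf (nat_lit 214942) (.g (nat_lit 1595) (.e (nat_lit 90168) (nat_lit 13) (.e (nat_lit 172133) (nat_lit 15) (.e (nat_lit 2175) (nat_lit 143) (.e (nat_lit 712745) (nat_lit 27) (.e (nat_lit 425984) (nat_lit 0) .nil))))) .nil)) 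
(.lf (nat_lit 215006) (.g (nat_lit 1213) (.e (nat_lit 90169) (nat_lit 13) (.e (nat_lit 172119) (nat_lit 12) (.e (nat_lit 475178) (nat_lit 24) (.e (nat_lit 516124) (nat_lit 2) (.e (nat_lit 213030) (nat_lit 11) .nil))))) .nil))) (.nd (nat_lit 6) 
(.lf (nat_lit 214974) (.g (nat_lit 1141) (.e (nat_lit 90169) (nat_lit 13) (.e (nat_lit 172094) (nat_lit 9) (.e (nat_lit 426125) (nat_lit 2) (.e (nat_lit 196661) (nat_lit 12) .nil)))) .nil)) 
(.lf (nat_lit 215038) (.g (nat_lit 2433) (.e (nat_lit 90169) (nat_lit 13) (.e (nat_lit 172124) (nat_lit 14) (.e (nat_lit 491537) (nat_lit 2) (.e (nat_lit 90166) (nat_lit 13) .nil)))) .nil)))))))) (.nd (nat_lit 1) (.nd (nat_lit 2) (.nd (nat_lit 3) (.nd (nat_lit 4) (.nd (nat_lit 5) (.nd (nat_lit 6) 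
(.lf (nat_lit 214913) (.g (nat_lit 2322) (.e (nat_lit 90168) (nat_lit 13) (.e (nat_lit 172067) (nat_lit 3) (.e (nat_lit 204838) (nat_lit 20) (.e (nat_lit 114716) (nat_lit 22) (.e (nat_lit 90140) (nat_lit 9) .nil))))) .nil)) 
(.lf (nat_lit 214977) (.g (nat_lit 3417) (.e (nat_lit 90169) (nat_lit 13) (.e (nat_lit 172094) (nat_lit 9) (.e (nat_lit 426125) (nat_lit 2) (.e (nat_lit 196661) (nat_lit 12) (.e (nat_lit 57713) (nat_lit 176) (.e (nat_lit 1348) (nat_lit 102) (.e (nat_lit 286733) (nat_lit 2) .nil))))))) (.g (nat_lit 4) .nil .nil)))) (.nd (nat_lit 6) 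
(.lf (nat_lit 214945) (.g (nat_lit 474) (.e (nat_lit 90169) (nat_lit 13) (.e (nat_lit 172065) (nat_lit 3) (.e (nat_lit 204837) (nat_lit 20) .nil))) .nil)) 
(.lf (nat_lit 215009) (.g (nat_lit 1519) (.e (nat_lit 90169) (nat_lit 13) (.e (nat_lit 172119) (nat_lit 12) (.e (nat_lit 475178) (nat_lit 24) (.e (nat_lit 516129) (nat_lit 3) (.e (nat_lit 221194) (nat_lit 11) .nil))))) .nil)))) (.nd (nat_lit 5) (.nd (nat_lit 6) 
(.lf (nat_lit 214929) (.g (nat_lit 2426) (.e (nat_lit 90168) (nat_lit 13) (.e (nat_lit 172115) (nat_lit 10) (.e (nat_lit 434244) (nat_lit 28) (.e (nat_lit 573468) (nat_lit 10) (.e (nat_lit 16128) (nat_lit 180) .nil))))) .nil)) 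
(.lf (nat_lit 214993) (.g (nat_lit 1534) (.e (nat_lit 90169) (nat_lit 13) (.e (nat_lit 172113) (nat_lit 10) (.e (nat_lit 434231) (nat_lit 23) (.e (nat_lit 532522) (nat_lit 7) .nil)))) .nil))) (.nd (nat_lit 6) 
(.lf (nat_lit 214961) (.g (nat_lit 885) (.e (nat_lit 90169) (nat_lit 13) (.e (nat_lit 172086) (nat_lit 9) (.e (nat_lit 426568) (nat_lit 34) (.e (nat_lit 393252) (nat_lit 18) .nil)))) .nil)) 
(.lf (nat_lit 215025) (.g (nat_lit 2004) (.e (nat_lit 90169) (nat_lit 13) (.e (nat_lit 172122) (nat_lit 13) (.e (nat_lit 483337) (nat_lit 9) (.e (nat_lit 426098) (nat_lit 1) (.e (nat_lit 164396) (nat_lit 256) .nil))))) .nil))))) (.nd (nat_lit 4) (.nd (nat_lit 5) (.nd (nat_lit 6) 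
(.lf (nat_lit 214921) (.g (nat_lit 1479) (.e (nat_lit 90168) (nat_lit 13) (.e (nat_lit 172097) (nat_lit 9) (.e (nat_lit 426125) (nat_lit 2) (.e (nat_lit 196630) (nat_lit 9) .nil)))) .nil)) 
(.lf (nat_lit 214985) (.g (nat_lit 2303) (.e (nat_lit 90169) (nat_lit 13) (.e (nat_lit 172097) (nat_lit 9) (.e (nat_lit 426125) (nat_lit 2) (.e (nat_lit 196630) (nat_lit 9) (.e (nat_lit 1395) (nat_lit 106) .nil))))) .nil))) (.nd (nat_lit 6) 
(.lf (nat_lit 214953) (.g (nat_lit 3329) (.e (nat_lit 90169) (nat_lit 13) (.e (nat_lit 172085) (nat_lit 9) (.e (nat_lit 426125) (nat_lit 2) (.e (nat_lit 196630) (nat_lit 9) (.e (nat_lit 1393) (nat_lit 106) .nil))))) .nil)) 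
(.lf (nat_lit 215017) (.g (nat_lit 2475) (.e (nat_lit 90169) (nat_lit 13) (.e (nat_lit 172119) (nat_lit 12) (.e (nat_lit 475185) (nat_lit 29) (.e (nat_lit 557103) (nat_lit 14) (.e (nat_lit 188160) (nat_lit 32) .nil))))) .nil)))) (.nd (nat_lit 5) (.nd (nat_lit 6) 
(.lf (nat_lit 214937) (.g (nat_lit 1663) (.e (nat_lit 90168) (nat_lit 13) (.e (nat_lit 172126) (nat_lit 14) (.e (nat_lit 491540) (nat_lit 3) (.e (nat_lit 98350) (nat_lit 24) .nil)))) .nil)) 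
(.lf (nat_lit 215001) (.g (nat_lit 906) (.e (nat_lit 90169) (nat_lit 13) (.e (nat_lit 172118) (nat_lit 12) (.e (nat_lit 475185) (nat_lit 29) (.e (nat_lit 557100) (nat_lit 13) .nil)))) .nil))) (.nd (nat_lit 6) 
(.lf (nat_lit 214969) (.g (nat_lit 4191) (.e (nat_lit 90169) (nat_lit 13) (.e (nat_lit 172094) (nat_lit 9) (.e (nat_lit 426125) (nat_lit 2) (.e (nat_lit 196630) (nat_lit 9) (.e (nat_lit 1394) (nat_lit 106) (.e (nat_lit 319531) (nat_lit 16) (.e (nat_lit 286733) (nat_lit 2) .nil))))))) (.g (nat_lit 4) .nil .nil))) 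
(.lf (nat_lit 215033) (.g (nat_lit 2653) (.e (nat_lit 90169) (nat_lit 13) (.e (nat_lit 172122) (nat_lit 13) (.e (nat_lit 483341) (nat_lit 9) (.e (nat_lit 426108) (nat_lit 1) (.e (nat_lit 164403) (nat_lit 256) (.e (nat_lit 57371) (nat_lit 2) .nil)))))) (.g (nat_lit 4) .nil .nil))))))) (.nd (nat_lit 3) (.nd (nat_lit 4) (.nd (nat_lit 5) (.nd (nat_lit 6) 
(.lf (nat_lit 214917) (.g (nat_lit 2271) (.e (nat_lit 90168) (nat_lit 13) (.e (nat_lit 172067) (nat_lit 3) (.e (nat_lit 204838) (nat_lit 20) (.e (nat_lit 114719) (nat_lit 23) (.e (nat_lit 98325) (nat_lit 17) .nil))))) .nil)) 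
(.lf (nat_lit 214981) (.g (nat_lit 2647) (.e (nat_lit 90169) (nat_lit 13) (.e (nat_lit 172094) (nat_lit 9) (.e (nat_lit 426140) (nat_lit 3) (.e (nat_lit 204846) (nat_lit 24) (.e (nat_lit 319528) (nat_lit 16) .nil))))) .nil))) (.nd (nat_lit 6) 
(.lf (nat_lit 214949) (.g (nat_lit 1971) (.e (nat_lit 90169) (nat_lit 13) (.e (nat_lit 172065) (nat_lit 3) (.e (nat_lit 204838) (nat_lit 20) (.e (nat_lit 114718) (nat_lit 23) (.e (nat_lit 98334) (nat_lit 18) .nil))))) .nil)) 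
(.lf (nat_lit 215013) (.g (nat_lit 2997) (.e (nat_lit 90169) (nat_lit 13) (.e (nat_lit 172119) (nat_lit 12) (.e (nat_lit 475185) (nat_lit 29) (.e (nat_lit 557098) (nat_lit 13) (.e (nat_lit 172124) (nat_lit 14) .nil))))) .nil)))) (.nd (nat_lit 5) (.nd (nat_lit 6) 
(.lf (nat_lit 214933) (.g (nat_lit 328) (.e (nat_lit 90168) (nat_lit 13) (.e (nat_lit 172123) (nat_lit 13) (.e (nat_lit 483337) (nat_lit 9) .nil))) .nil)) 
(.lf (nat_lit 214997) (.g (nat_lit 2221) (.e (nat_lit 90169) (nat_lit 13) (.e (nat_lit 172113) (nat_lit 10) (.e (nat_lit 434248) (nat_lit 28) (.e (nat_lit 573475) (nat_lit 12) (.e (nat_lit 65280) (nat_lit 57) .nil))))) .nil))) (.nd (nat_lit 6) 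
(.lf (nat_lit 214965) (.g (nat_lit 2575) (.e (nat_lit 90169) (nat_lit 13) (.e (nat_lit 172094) (nat_lit 9) (.e (nat_lit 426125) (nat_lit 2) (.e (nat_lit 196617) (nat_lit 9) (.e (nat_lit 1394) (nat_lit 106) .nil))))) .nil)) 
(.lf (nat_lit 215029) (.g (nat_lit 2302) (.e (nat_lit 90169) (nat_lit 13) (.e (nat_lit 172122) (nat_lit 13) (.e (nat_lit 483337) (nat_lit 9) (.e (nat_lit 426107) (nat_lit 1) (.e (nat_lit 164401) (nat_lit 256) (.e (nat_lit 57370) (nat_lit 2) .nil)))))) (.g (nat_lit 4) .nil .nil)))))) (.nd (nat_lit 4) (.nd (nat_lit 5) (.nd (nat_lit 6) 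
(.lf (nat_lit 214925) (.g (nat_lit 2012) (.e (nat_lit 90168) (nat_lit 13) (.e (nat_lit 172106) (nat_lit 10) (.e (nat_lit 434231) (nat_lit 23) (.e (nat_lit 532490) (nat_lit 0) .nil)))) .nil)) 
(.lf (nat_lit 214989) (.g (nat_lit 2816) (.e (nat_lit 90169) (nat_lit 13) (.e (nat_lit 172103) (nat_lit 9) (.e (nat_lit 426133) (nat_lit 3) (.e (nat_lit 204846) (nat_lit 24) (.e (nat_lit 319530) (nat_lit 16) .nil))))) .nil))) (.nd (nat_lit 6) 
(.lf (nat_lit 214957) (.g (nat_lit 3128) (.e (nat_lit 90169) (nat_lit 13) (.e (nat_lit 172085) (nat_lit 9) (.e (nat_lit 426125) (nat_lit 2) (.e (nat_lit 196661) (nat_lit 12) (.e (nat_lit 57714) (nat_lit 176) (.e (nat_lit 1349) (nat_lit 102) (.e (nat_lit 286733) (nat_lit 2) .nil))))))) (.g (nat_lit 4) .nil .nil))) 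
(.lf (nat_lit 215021) (.g (nat_lit 2227) (.e (nat_lit 90169) (nat_lit 13) (.e (nat_lit 172121) (nat_lit 13) (.e (nat_lit 483337) (nat_lit 9) (.e (nat_lit 426107) (nat_lit 1) (.e (nat_lit 164396) (nat_lit 256) (.e (nat_lit 57371) (nat_lit 2) .nil)))))) (.g (nat_lit 4) .nil .nil))))) (.nd (nat_lit 5) (.nd (nat_lit 6) 
(.lf (nat_lit 214941) (.g (nat_lit 1508) (.e (nat_lit 90168) (nat_lit 13) (.e (nat_lit 172133) (nat_lit 15) (.e (nat_lit 2059) (nat_lit 142) (.e (nat_lit 704596) (nat_lit 5) .nil)))) .nil)) 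
(.lf (nat_lit 215005) (.g (nat_lit 499) (.e (nat_lit 90169) (nat_lit 13) (.e (nat_lit 172119) (nat_lit 12) (.e (nat_lit 475178) (nat_lit 24) .nil))) .nil))) (.nd (nat_lit 6) 
(.lf (nat_lit 214973) (.g (nat_lit 2546) (.e (nat_lit 90169) (nat_lit 13) (.e (nat_lit 172094) (nat_lit 9) (.e (nat_lit 426125) (nat_lit 2) (.e (nat_lit 196657) (nat_lit 12) (.e (nat_lit 57716) (nat_lit 176) .nil))))) .nil)) 
(.lf (nat_lit 215037) (.g (nat_lit 2568) (.e (nat_lit 90169) (nat_lit 13) (.e (nat_lit 172124) (nat_lit 14) (.e (nat_lit 491537) (nat_lit 2) (.e (nat_lit 90133) (nat_lit 9) (.e (nat_lit 2400) (nat_lit 157) .nil))))) .nil))))))) (.nd (nat_lit 2) (.nd (nat_lit 3) (.nd (nat_lit 4) (.nd (nat_lit 5) (.nd (nat_lit 6) 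
(.lf (nat_lit 214915) (.g (nat_lit 3171) (.e (nat_lit 90168) (nat_lit 13) (.e (nat_lit 172067) (nat_lit 3) (.e (nat_lit 204838) (nat_lit 20) (.e (nat_lit 114718) (nat_lit 23) (.e (nat_lit 98333) (nat_lit 18) (.e (nat_lit 164399) (nat_lit 256) (.e (nat_lit 57373) (nat_lit 2) .nil))))))) (.g (nat_lit 5) .nil .nil))) 
(.lf (nat_lit 214979) (.g (nat_lit 3197) (.e (nat_lit 90169) (nat_lit 13) (.e (nat_lit 172094) (nat_lit 9) (.e (nat_lit 426125) (nat_lit 2) (.e (nat_lit 196661) (nat_lit 12) (.e (nat_lit 57715) (nat_lit 176) .nil))))) .nil))) (.nd (nat_lit 6) 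
(.lf (nat_lit 214947) (.g (nat_lit 1496) (.e (nat_lit 90169) (nat_lit 13) (.e (nat_lit 172065) (nat_lit 3) (.e (nat_lit 204838) (nat_lit 20) (.e (nat_lit 114717) (nat_lit 23) .nil)))) .nil)) 
(.lf (nat_lit 215011) (.g (nat_lit 1161) (.e (nat_lit 90169) (nat_lit 13) (.e (nat_lit 172119) (nat_lit 12) (.e (nat_lit 475179) (nat_lit 24) (.e (nat_lit 516129) (nat_lit 3) .nil)))) .nil)))) (.nd (nat_lit 5) (.nd (nat_lit 6) 
(.lf (nat_lit 214931) (.g (nat_lit 2595) (.e (nat_lit 90168) (nat_lit 13) (.e (nat_lit 172120) (nat_lit 12) (.e (nat_lit 475185) (nat_lit 29) (.e (nat_lit 557105) (nat_lit 14) (.e (nat_lit 188160) (nat_lit 32) .nil))))) .nil)) 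
(.lf (nat_lit 214995) (.g (nat_lit 1544) (.e (nat_lit 90169) (nat_lit 13) (.e (nat_lit 172113) (nat_lit 10) (.e (nat_lit 434247) (nat_lit 28) (.e (nat_lit 573478) (nat_lit 12) (.e (nat_lit 57574) (nat_lit 55) .nil))))) .nil))) (.nd (nat_lit 6) 
(.lf (nat_lit 214963) (.g (nat_lit 2497) (.e (nat_lit 90169) (nat_lit 13) (.e (nat_lit 172093) (nat_lit 9) (.e (nat_lit 426125) (nat_lit 2) (.e (nat_lit 196661) (nat_lit 12) (.e (nat_lit 57711) (nat_lit 176) (.e (nat_lit 1348) (nat_lit 102) (.e (nat_lit 286733) (nat_lit 2) .nil))))))) (.g (nat_lit 4) .nil .nil))) 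
(.lf (nat_lit 215027) (.g (nat_lit 1899) (.e (nat_lit 90169) (nat_lit 13) (.e (nat_lit 172122) (nat_lit 13) (.e (nat_lit 483337) (nat_lit 9) (.e (nat_lit 426098) (nat_lit 1) (.e (nat_lit 164399) (nat_lit 256) .nil))))) .nil))))) (.nd (nat_lit 4) (.nd (nat_lit 5) (.nd (nat_lit 6) 
(.lf (nat_lit 214923) (.g (nat_lit 1969) (.e (nat_lit 90168) (nat_lit 13) (.e (nat_lit 172097) (nat_lit 9) (.e (nat_lit 426125) (nat_lit 2) (.e (nat_lit 196661) (nat_lit 12) (.e (nat_lit 65280) (nat_lit 176) .nil))))) .nil)) 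
(.lf (nat_lit 214987) (.g (nat_lit 2007) (.e (nat_lit 90169) (nat_lit 13) (.e (nat_lit 172102) (nat_lit 9) (.e (nat_lit 426139) (nat_lit 3) (.e (nat_lit 204846) (nat_lit 24) (.e (nat_lit 319533) (nat_lit 16) .nil))))) .nil))) (.nd (nat_lit 6) 
(.lf (nat_lit 214955) (.g (nat_lit 2734) (.e (nat_lit 90169) (nat_lit 13) (.e (nat_lit 172085) (nat_lit 9) (.e (nat_lit 426125) (nat_lit 2) (.e (nat_lit 196661) (nat_lit 12) (.e (nat_lit 57711) (nat_lit 176) .nil))))) .nil)) 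
(.lf (nat_lit 215019) (.g (nat_lit 2451) (.e (nat_lit 90169) (nat_lit 13) (.e (nat_lit 172119) (nat_lit 12) (.e (nat_lit 475185) (nat_lit 29) (.e (nat_lit 557105) (nat_lit 14) (.e (nat_lit 180278) (nat_lit 32) .nil))))) .nil)))) (.nd (nat_lit 5) (.nd (nat_lit 6) 
(.lf (nat_lit 214939) (.g (nat_lit 1818) (.e (nat_lit 90168) (nat_lit 13) (.e (nat_lit 172133) (nat_lit 15) (.e (nat_lit 1800) (nat_lit 119) (.e (nat_lit 516117) (nat_lit 1) (.e (nat_lit 164330) (nat_lit 230) .nil))))) .nil)) 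
(.lf (nat_lit 215003) (.g (nat_lit 1490) (.e (nat_lit 90169) (nat_lit 13) (.e (nat_lit 172119) (nat_lit 12) (.e (nat_lit 475176) (nat_lit 24) (.e (nat_lit 516131) (nat_lit 3) (.e (nat_lit 221194) (nat_lit 11) .nil))))) .nil))) (.nd (nat_lit 6) 
(.lf (nat_lit 214971) (.g (nat_lit 3708) (.e (nat_lit 90169) (nat_lit 13) (.e (nat_lit 172094) (nat_lit 9) (.e (nat_lit 426125) (nat_lit 2) (.e (nat_lit 196630) (nat_lit 9) (.e (nat_lit 1401) (nat_lit 106) .nil))))) .nil)) 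
(.lf (nat_lit 215035) (.g (nat_lit 1261) (.e (nat_lit 90169) (nat_lit 13) (.e (nat_lit 172122) (nat_lit 13) (.e (nat_lit 483363) (nat_lit 18) (.e (nat_lit 57692) (nat_lit 156) .nil)))) .nil)))))) (.nd (nat_lit 3) (.nd (nat_lit 4) (.nd (nat_lit 5) (.nd (nat_lit 6) 
(.lf (nat_lit 214919) (.g (nat_lit 2296) (.e (nat_lit 90168) (nat_lit 13) (.e (nat_lit 172067) (nat_lit 3) (.e (nat_lit 204838) (nat_lit 20) (.e (nat_lit 114719) (nat_lit 23) (.e (nat_lit 98335) (nat_lit 18) (.e (nat_lit 164403) (nat_lit 256) (.e (nat_lit 57370) (nat_lit 2) .nil))))))) (.g (nat_lit 4) .nil .nil))) 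
(.lf (nat_lit 214983) (.g (nat_lit 2013) (.e (nat_lit 90169) (nat_lit 13) (.e (nat_lit 172095) (nat_lit 9) (.e (nat_lit 426140) (nat_lit 3) (.e (nat_lit 204845) (nat_lit 24) (.e (nat_lit 319529) (nat_lit 16) .nil))))) .nil))) (.nd (nat_lit 6) 
(.lf (nat_lit 214951) (.g (nat_lit 1579) (.e (nat_lit 90169) (nat_lit 13) (.e (nat_lit 172065) (nat_lit 3) (.e (nat_lit 204838) (nat_lit 20) (.e (nat_lit 114719) (nat_lit 23) (.e (nat_lit 98334) (nat_lit 18) .nil))))) .nil)) 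
(.lf (nat_lit 215015) (.g (nat_lit 2587) (.e (nat_lit 90169) (nat_lit 13) (.e (nat_lit 172119) (nat_lit 12) (.e (nat_lit 475185) (nat_lit 29) (.e (nat_lit 557103) (nat_lit 14) (.e (nat_lit 180277) (nat_lit 32) .nil))))) .nil)))) (.nd (nat_lit 5) (.nd (nat_lit 6) 
(.lf (nat_lit 214935) (.g (nat_lit 652) (.e (nat_lit 90168) (nat_lit 13) (.e (nat_lit 172126) (nat_lit 14) (.e (nat_lit 491537) (nat_lit 2) .nil))) .nil)) 
(.lf (nat_lit 214999) (.g (nat_lit 2511) (.e (nat_lit 90169) (nat_lit 13) (.e (nat_lit 172115) (nat_lit 10) (.e (nat_lit 434231) (nat_lit 23) (.e (nat_lit 532490) (nat_lit 0) (.e (nat_lit 6126) (nat_lit 332) .nil))))) .nil))) (.nd (nat_lit 6) 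
(.lf (nat_lit 214967) (.g (nat_lit 1727) (.e (nat_lit 90169) (nat_lit 13) (.e (nat_lit 172094) (nat_lit 9) (.e (nat_lit 426125) (nat_lit 2) (.e (nat_lit 196630) (nat_lit 9) .nil)))) .nil)) 
(.lf (nat_lit 215031) (.g (nat_lit 1234) (.e (nat_lit 90169) (nat_lit 13) (.e (nat_lit 172122) (nat_lit 13) (.e (nat_lit 483337) (nat_lit 9) (.e (nat_lit 433920) (nat_lit 1) .nil)))) .nil))))) (.nd (nat_lit 4) (.nd (nat_lit 5) (.nd (nat_lit 6) 
(.lf (nat_lit 214927) (.g (nat_lit 1954) (.e (nat_lit 90168) (nat_lit 13) (.e (nat_lit 172115) (nat_lit 10) (.e (nat_lit 434231) (nat_lit 23) (.e (nat_lit 532481) (nat_lit 0) (.e (nat_lit 6192) (nat_lit 332) .nil))))) .nil)) 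
(.lf (nat_lit 214991) (.g (nat_lit 1602) (.e (nat_lit 90169) (nat_lit 13) (.e (nat_lit 172103) (nat_lit 9) (.e (nat_lit 426133) (nat_lit 3) (.e (nat_lit 204848) (nat_lit 25) .nil)))) .nil))) (.nd (nat_lit 6) 
(.lf (nat_lit 214959) (.g (nat_lit 2813) (.e (nat_lit 90169) (nat_lit 13) (.e (nat_lit 172085) (nat_lit 9) (.e (nat_lit 426125) (nat_lit 2) (.e (nat_lit 196661) (nat_lit 12) (.e (nat_lit 65280) (nat_lit 176) .nil))))) .nil)) 
(.lf (nat_lit 215023) (.g (nat_lit 390) (.e (nat_lit 90169) (nat_lit 13) (.e (nat_lit 172121) (nat_lit 13) (.e (nat_lit 483370) (nat_lit 20) .nil))) .nil)))) (.nd (nat_lit 5) (.nd (nat_lit 6) 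
(.lf (nat_lit 214943) (.g (nat_lit 1224) (.e (nat_lit 90168) (nat_lit 13) (.e (nat_lit 179968) (nat_lit 20) (.e (nat_lit 114710) (nat_lit 21) (.e (nat_lit 57847) (nat_lit 252) (.e (nat_lit 57349) (nat_lit 0) (.e (nat_lit 2202) (nat_lit 144) (.e (nat_lit 720956) (nat_lit 25) (.e (nat_lit 114716) (nat_lit 22) .nil)))))))) (.g (nat_lit 4) .nil .nil))) 
(.lf (nat_lit 215007) (.g (nat_lit 752) (.e (nat_lit 90169) (nat_lit 13) (.e (nat_lit 172119) (nat_lit 12) (.e (nat_lit 475178) (nat_lit 24) (.e (nat_lit 516126) (nat_lit 2) .nil)))) .nil))) (.nd (nat_lit 6) 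
(.lf (nat_lit 214975) (.g (nat_lit 2958) (.e (nat_lit 90169) (nat_lit 13) (.e (nat_lit 172094) (nat_lit 9) (.e (nat_lit 426125) (nat_lit 2) (.e (nat_lit 196661) (nat_lit 12) (.e (nat_lit 57711) (nat_lit 176) .nil))))) .nil)) 
(.lf (nat_lit 215039) (.g (nat_lit 2416) (.e (nat_lit 90169) (nat_lit 13) (.e (nat_lit 172124) (nat_lit 14) (.e (nat_lit 491537) (nat_lit 2) (.e (nat_lit 90168) (nat_lit 13) .nil)))) .nil)))))))))

noncomputable def tv2827 : DT := (.nd (nat_lit 0) (.nd (nat_lit 1) (.nd (nat_lit 2) (.nd (nat_lit 3) (.nd (nat_lit 4) (.nd (nat_lit 5) (.nd (nat_lit 6) 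
(.lf (nat_lit 215040) (.g (nat_lit 1963) (.e (nat_lit 90169) (nat_lit 13) (.e (nat_lit 172124) (nat_lit 14) (.e (nat_lit 491537) (nat_lit 2) (.e (nat_lit 90172) (nat_lit 14) .nil)))) .nil)) 
(.lf (nat_lit 215104) (.g (nat_lit 3572) (.e (nat_lit 90170) (nat_lit 13) (.e (nat_lit 172065) (nat_lit 3) (.e (nat_lit 204829) (nat_lit 18) (.e (nat_lit 57692) (nat_lit 156) (.e (nat_lit 163875) (nat_lit 3) (.e (nat_lit 204817) (nat_lit 17) (.e (nat_lit 2198) (nat_lit 144) (.e (nat_lit 720940) (nat_lit 22) .nil)))))))) (.g (nat_lit 5) .nil .nil)))) (.nd (nat_lit 6) 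
(.lf (nat_lit 215072) (.g (nat_lit 2898) (.e (nat_lit 90170) (nat_lit 13) (.e (nat_lit 172064) (nat_lit 2) (.e (nat_lit 196661) (nat_lit 12) (.e (nat_lit 57575) (nat_lit 55) (.e (nat_lit 778482) (nat_lit 12) (.e (nat_lit 163978) (nat_lit 30) (.e (nat_lit 573477) (nat_lit 12) (.e (nat_lit 57549) (nat_lit 48) (.e (nat_lit 720940) (nat_lit 22) .nil))))))))) (.g (nat_lit 4) .nil .nil))) 
(.lf (nat_lit 215136) (.g (nat_lit 3240) (.e (nat_lit 90170) (nat_lit 13) (.e (nat_lit 172065) (nat_lit 3) (.e (nat_lit 204834) (nat_lit 19) (.e (nat_lit 106537) (nat_lit 12) (.e (nat_lit 57479) (nat_lit 28) (.e (nat_lit 557094) (nat_lit 12) (.e (nat_lit 164056) (nat_lit 56) (.e (nat_lit 786455) (nat_lit 17) .nil)))))))) (.g (nat_lit 6) .nil .nil))))) (.nd (nat_lit 5) (.nd (nat_lit 6) 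
(.lf (nat_lit 215056) (.g (nat_lit 2603) (.e (nat_lit 90169) (nat_lit 13) (.e (nat_lit 172133) (nat_lit 15) (.e (nat_lit 2059) (nat_lit 142) (.e (nat_lit 704595) (nat_lit 5) (.e (nat_lit 180271) (nat_lit 26) .nil))))) .nil)) 
(.lf (nat_lit 215120) (.g (nat_lit 1943) (.e (nat_lit 90170) (nat_lit 13) (.e (nat_lit 172065) (nat_lit 3) (.e (nat_lit 204830) (nat_lit 18) (.e (nat_lit 57692) (nat_lit 156) (.e (nat_lit 163869) (nat_lit 2) .nil))))) .nil))) (.nd (nat_lit 6) 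
(.lf (nat_lit 215088) (.g (nat_lit 5108) (.e (nat_lit 90170) (nat_lit 13) (.e (nat_lit 172065) (nat_lit 3) (.e (nat_lit 204829) (nat_lit 18) (.e (nat_lit 57691) (nat_lit 156) (.e (nat_lit 163875) (nat_lit 3) (.e (nat_lit 204834) (nat_lit 19) (.e (nat_lit 106517) (nat_lit 9) (.e (nat_lit 1237) (nat_lit 91) .nil)))))))) (.g (nat_lit 5) .nil .nil))) 
(.lf (nat_lit 215152) (.g (nat_lit 3653) (.e (nat_lit 90170) (nat_lit 13) (.e (nat_lit 172066) (nat_lit 3) (.e (nat_lit 204829) (nat_lit 18) (.e (nat_lit 57688) (nat_lit 156) (.e (nat_lit 163867) (nat_lit 2) (.e (nat_lit 196624) (nat_lit 9) (.e (nat_lit 1277) (nat_lit 94) (.e (nat_lit 114715) (nat_lit 22) .nil)))))))) (.g (nat_lit 4) .nil .nil)))))) 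
(.nd (nat_lit 4) (.nd (nat_lit 5) (.nd (nat_lit 6) 
(.lf (nat_lit 215048) (.g (nat_lit 1958) (.e (nat_lit 90169) (nat_lit 13) (.e (nat_lit 172124) (nat_lit 14) (.e (nat_lit 491540) (nat_lit 3) (.e (nat_lit 98367) (nat_lit 27) (.e (nat_lit 434180) (nat_lit 0) .nil))))) .nil)) 
(.lf (nat_lit 215112) (.g (nat_lit 2593) (.e (nat_lit 90170) (nat_lit 13) (.e (nat_lit 172065) (nat_lit 3) (.e (nat_lit 204830) (nat_lit 18) (.e (nat_lit 57691) (nat_lit 156) (.e (nat_lit 163871) (nat_lit 2) (.e (nat_lit 196660) (nat_lit 12) (.e (nat_lit 57549) (nat_lit 48) (.e (nat_lit 720940) (nat_lit 22) .nil)))))))) (.g (nat_lit 4) .nil .nil)))) (.nd (nat_lit 6) 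
(.lf (nat_lit 215080) (.g (nat_lit 2443) (.e (nat_lit 90170) (nat_lit 13) (.e (nat_lit 172065) (nat_lit 3) (.e (nat_lit 204829) (nat_lit 18) (.e (nat_lit 57688) (nat_lit 156) (.e (nat_lit 163873) (nat_lit 3) .nil))))) .nil)) 
(.lf (nat_lit 215144) (.g (nat_lit 1297) (.e (nat_lit 90170) (nat_lit 13) (.e (nat_lit 172065) (nat_lit 3) (.e (nat_lit 204838) (nat_lit 20) (.e (nat_lit 114702) (nat_lit 20) .nil)))) .nil)))) (.nd (nat_lit 5) (.nd (nat_lit 6) 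
(.lf (nat_lit 215064) (.g (nat_lit 2230) (.e (nat_lit 90170) (nat_lit 13) (.e (nat_lit 172059) (nat_lit 1) (.e (nat_lit 164327) (nat_lit 230) (.e (nat_lit 163868) (nat_lit 2) (.e (nat_lit 196691) (nat_lit 18) .nil))))) .nil)) 
(.lf (nat_lit 215128) (.g (nat_lit 2906) (.e (nat_lit 90170) (nat_lit 13) (.e (nat_lit 172065) (nat_lit 3) (.e (nat_lit 204831) (nat_lit 18) (.e (nat_lit 57688) (nat_lit 156) (.e (nat_lit 163873) (nat_lit 3) (.e (nat_lit 204817) (nat_lit 17) (.e (nat_lit 2198) (nat_lit 144) (.e (nat_lit 720940) (nat_lit 22) .nil)))))))) (.g (nat_lit 4) .nil .nil)))) (.nd (nat_lit 6) 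
(.lf (nat_lit 215096) (.g (nat_lit 2246) (.e (nat_lit 90170) (nat_lit 13) (.e (nat_lit 172065) (nat_lit 3) (.e (nat_lit 204829) (nat_lit 18) (.e (nat_lit 57692) (nat_lit 156) (.e (nat_lit 163871) (nat_lit 2) .nil))))) .nil)) 
(.lf (nat_lit 215160) (.g (nat_lit 2843) (.e (nat_lit 90170) (nat_lit 13) (.e (nat_lit 172067) (nat_lit 3) (.e (nat_lit 204829) (nat_lit 18) (.e (nat_lit 57688) (nat_lit 156) (.e (nat_lit 163867) (nat_lit 2) (.e (nat_lit 196628) (nat_lit 9) (.e (nat_lit 1275) (nat_lit 94) (.e (nat_lit 114715) (nat_lit 22) .nil)))))))) (.g (nat_lit 4) .nil .nil))))))) 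
(.nd (nat_lit 3) (.nd (nat_lit 4) (.nd (nat_lit 5) (.nd (nat_lit 6) 
(.lf (nat_lit 215044) (.g (nat_lit 3785) (.e (nat_lit 90169) (nat_lit 13) (.e (nat_lit 172124) (nat_lit 14) (.e (nat_lit 491540) (nat_lit 3) (.e (nat_lit 98350) (nat_lit 24) (.e (nat_lit 409602) (nat_lit 0) (.e (nat_lit 5293) (nat_lit 298) (.e (nat_lit 1232) (nat_lit 91) .nil))))))) (.g (nat_lit 6) .nil .nil))) 
(.lf (nat_lit 215108) (.g (nat_lit 2754) (.e (nat_lit 90170) (nat_lit 13) (.e (nat_lit 172065) (nat_lit 3) (.e (nat_lit 204830) (nat_lit 18) (.e (nat_lit 57690) (nat_lit 156) (.e (nat_lit 163871) (nat_lit 2) (.e (nat_lit 196677) (nat_lit 16) (.e (nat_lit 130816) (nat_lit 48) (.e (nat_lit 720940) (nat_lit 22) .nil)))))))) (.g (nat_lit 5) .nil .nil)))) (.nd (nat_lit 6) 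
(.lf (nat_lit 215076) (.g (nat_lit 2447) (.e (nat_lit 90170) (nat_lit 13) (.e (nat_lit 172065) (nat_lit 3) (.e (nat_lit 204829) (nat_lit 18) (.e (nat_lit 57688) (nat_lit 156) (.e (nat_lit 163867) (nat_lit 2) .nil))))) .nil)) 
(.lf (nat_lit 215140) (.g (nat_lit 998) (.e (nat_lit 90170) (nat_lit 13) (.e (nat_lit 172065) (nat_lit 3) (.e (nat_lit 204837) (nat_lit 20) (.e (nat_lit 122624) (nat_lit 2) .nil)))) .nil)))) (.nd (nat_lit 5) (.nd (nat_lit 6) 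
(.lf (nat_lit 215060) (.g (nat_lit 940) (.e (nat_lit 90169) (nat_lit 13) (.e (nat_lit 172140) (nat_lit 22) (.e (nat_lit 139280) (nat_lit 4) (.e (nat_lit 65568) (nat_lit 2) (.e (nat_lit 98048) (nat_lit 0) .nil))))) .nil)) 
(.lf (nat_lit 215124) (.g (nat_lit 4943) (.e (nat_lit 90170) (nat_lit 13) (.e (nat_lit 172065) (nat_lit 3) (.e (nat_lit 204830) (nat_lit 18) (.e (nat_lit 57692) (nat_lit 156) (.e (nat_lit 163874) (nat_lit 3) (.e (nat_lit 204834) (nat_lit 19) (.e (nat_lit 106517) (nat_lit 9) (.e (nat_lit 1237) (nat_lit 91) .nil)))))))) (.g (nat_lit 5) .nil .nil)))) (.nd (nat_lit 6) 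
(.lf (nat_lit 215092) (.g (nat_lit 2790) (.e (nat_lit 90170) (nat_lit 13) (.e (nat_lit 172065) (nat_lit 3) (.e (nat_lit 204829) (nat_lit 18) (.e (nat_lit 57692) (nat_lit 156) (.e (nat_lit 163869) (nat_lit 2) (.e (nat_lit 196660) (nat_lit 12) (.e (nat_lit 57549) (nat_lit 48) (.e (nat_lit 720940) (nat_lit 22) .nil)))))))) (.g (nat_lit 4) .nil .nil))) 
(.lf (nat_lit 215156) (.g (nat_lit 1178) (.e (nat_lit 90170) (nat_lit 13) (.e (nat_lit 172067) (nat_lit 3) (.e (nat_lit 204821) (nat_lit 17) (.e (nat_lit 2248) (nat_lit 147) .nil)))) .nil))))) (.nd (nat_lit 4) (.nd (nat_lit 5) (.nd (nat_lit 6) 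
(.lf (nat_lit 215052) (.g (nat_lit 1689) (.e (nat_lit 90169) (nat_lit 13) (.e (nat_lit 172133) (nat_lit 15) (.e (nat_lit 1800) (nat_lit 119) (.e (nat_lit 516179) (nat_lit 15) (.e (nat_lit 475177) (nat_lit 24) .nil))))) .nil)) 
(.lf (nat_lit 215116) (.g (nat_lit 3393) (.e (nat_lit 90170) (nat_lit 13) (.e (nat_lit 172065) (nat_lit 3) (.e (nat_lit 204830) (nat_lit 18) (.e (nat_lit 57691) (nat_lit 156) (.e (nat_lit 163874) (nat_lit 3) (.e (nat_lit 204817) (nat_lit 17) (.e (nat_lit 2198) (nat_lit 144) (.e (nat_lit 720940) (nat_lit 22) .nil)))))))) (.g (nat_lit 5) .nil .nil)))) (.nd (nat_lit 6) 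
(.lf (nat_lit 215084) (.g (nat_lit 2132) (.e (nat_lit 90170) (nat_lit 13) (.e (nat_lit 172065) (nat_lit 3) (.e (nat_lit 204829) (nat_lit 18) (.e (nat_lit 57691) (nat_lit 156) (.e (nat_lit 163869) (nat_lit 2) .nil))))) .nil)) 
(.lf (nat_lit 215148) (.g (nat_lit 1542) (.e (nat_lit 90170) (nat_lit 13) (.e (nat_lit 172065) (nat_lit 3) (.e (nat_lit 204838) (nat_lit 20) (.e (nat_lit 114716) (nat_lit 22) (.e (nat_lit 98048) (nat_lit 21) .nil))))) .nil)))) (.nd (nat_lit 5) (.nd (nat_lit 6) 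
(.lf (nat_lit 215068) (.g (nat_lit 4273) (.e (nat_lit 90170) (nat_lit 13) (.e (nat_lit 172062) (nat_lit 2) (.e (nat_lit 196661) (nat_lit 12) (.e (nat_lit 57575) (nat_lit 55) (.e (nat_lit 778482) (nat_lit 12) (.e (nat_lit 163978) (nat_lit 30) (.e (nat_lit 573478) (nat_lit 12) (.e (nat_lit 57549) (nat_lit 48) (.e (nat_lit 720940) (nat_lit 22) .nil))))))))) (.g (nat_lit 6) .nil .nil))) 
(.lf (nat_lit 215132) (.g (nat_lit 2922) (.e (nat_lit 90170) (nat_lit 13) (.e (nat_lit 172065) (nat_lit 3) (.e (nat_lit 204831) (nat_lit 18) (.e (nat_lit 57692) (nat_lit 156) (.e (nat_lit 163869) (nat_lit 2) (.e (nat_lit 196661) (nat_lit 12) (.e (nat_lit 57549) (nat_lit 48) (.e (nat_lit 720940) (nat_lit 22) .nil)))))))) (.g (nat_lit 4) .nil .nil)))) (.nd (nat_lit 6) 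
(.lf (nat_lit 215100) (.g (nat_lit 2025) (.e (nat_lit 90170) (nat_lit 13) (.e (nat_lit 172065) (nat_lit 3) (.e (nat_lit 204829) (nat_lit 18) (.e (nat_lit 57692) (nat_lit 156) (.e (nat_lit 163874) (nat_lit 3) .nil))))) .nil)) 
(.lf (nat_lit 215164) (.g (nat_lit 3305) (.e (nat_lit 90170) (nat_lit 13) (.e (nat_lit 172067) (nat_lit 3) (.e (nat_lit 204829) (nat_lit 18) (.e (nat_lit 57688) (nat_lit 156) (.e (nat_lit 163874) (nat_lit 3) (.e (nat_lit 204817) (nat_lit 17) (.e (nat_lit 2198) (nat_lit 144) (.e (nat_lit 720940) (nat_lit 22) .nil)))))))) (.g (nat_lit 4) .nil .nil)))))))) 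
(.nd (nat_lit 2) (.nd (nat_lit 3) (.nd (nat_lit 4) (.nd (nat_lit 5) (.nd (nat_lit 6) 
(.lf (nat_lit 215042) (.g (nat_lit 1790) (.e (nat_lit 90169) (nat_lit 13) (.e (nat_lit 172124) (nat_lit 14) (.e (nat_lit 491537) (nat_lit 2) (.e (nat_lit 90185) (nat_lit 17) .nil)))) .nil)) 
(.lf (nat_lit 215106) (.g (nat_lit 1551) (.e (nat_lit 90170) (nat_lit 13) (.e (nat_lit 172065) (nat_lit 3) (.e (nat_lit 204830) (nat_lit 18) (.e (nat_lit 57685) (nat_lit 156) .nil)))) .nil))) (.nd (nat_lit 6) 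
(.lf (nat_lit 215074) (.g (nat_lit 1467) (.e (nat_lit 90170) (nat_lit 13) (.e (nat_lit 172065) (nat_lit 3) (.e (nat_lit 204829) (nat_lit 18) (.e (nat_lit 57686) (nat_lit 156) .nil)))) .nil)) 
(.lf (nat_lit 215138) (.g (nat_lit 3825) (.e (nat_lit 90170) (nat_lit 13) (.e (nat_lit 172065) (nat_lit 3) (.e (nat_lit 204834) (nat_lit 19) (.e (nat_lit 106539) (nat_lit 12) (.e (nat_lit 57479) (nat_lit 28) (.e (nat_lit 557093) (nat_lit 12) (.e (nat_lit 164058) (nat_lit 56) (.e (nat_lit 786455) (nat_lit 17) .nil)))))))) (.g (nat_lit 6) .nil .nil))))) (.nd (nat_lit 5) (.nd (nat_lit 6) 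
(.lf (nat_lit 215058) (.g (nat_lit 1140) (.e (nat_lit 90169) (nat_lit 13) (.e (nat_lit 172133) (nat_lit 15) (.e (nat_lit 2059) (nat_lit 142) (.e (nat_lit 704596) (nat_lit 5) .nil)))) .nil)) 
(.lf (nat_lit 215122) (.g (nat_lit 3129) (.e (nat_lit 90170) (nat_lit 13) (.e (nat_lit 172065) (nat_lit 3) (.e (nat_lit 204830) (nat_lit 18) (.e (nat_lit 57692) (nat_lit 156) (.e (nat_lit 163874) (nat_lit 3) (.e (nat_lit 204815) (nat_lit 17) (.e (nat_lit 2198) (nat_lit 144) (.e (nat_lit 720940) (nat_lit 22) .nil)))))))) (.g (nat_lit 5) .nil .nil)))) (.nd (nat_lit 6) 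
(.lf (nat_lit 215090) (.g (nat_lit 2115) (.e (nat_lit 90170) (nat_lit 13) (.e (nat_lit 172065) (nat_lit 3) (.e (nat_lit 204829) (nat_lit 18) (.e (nat_lit 57692) (nat_lit 156) (.e (nat_lit 163869) (nat_lit 2) .nil))))) .nil)) 
(.lf (nat_lit 215154) (.g (nat_lit 2172) (.e (nat_lit 90170) (nat_lit 13) (.e (nat_lit 172067) (nat_lit 3) (.e (nat_lit 204809) (nat_lit 9) (.e (nat_lit 426139) (nat_lit 3) (.e (nat_lit 204830) (nat_lit 18) .nil))))) .nil))))) (.nd (nat_lit 4) (.nd (nat_lit 5) (.nd (nat_lit 6) 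
(.lf (nat_lit 215050) (.g (nat_lit 1441) (.e (nat_lit 90169) (nat_lit 13) (.e (nat_lit 172133) (nat_lit 15) (.e (nat_lit 1800) (nat_lit 119) (.e (nat_lit 516119) (nat_lit 1) (.e (nat_lit 164326) (nat_lit 230) .nil))))) .nil)) 
(.lf (nat_lit 215114) (.g (nat_lit 2451) (.e (nat_lit 90170) (nat_lit 13) (.e (nat_lit 172065) (nat_lit 3) (.e (nat_lit 204830) (nat_lit 18) (.e (nat_lit 57691) (nat_lit 156) (.e (nat_lit 163871) (nat_lit 2) (.e (nat_lit 196677) (nat_lit 16) (.e (nat_lit 122970) (nat_lit 48) (.e (nat_lit 720940) (nat_lit 22) .nil)))))))) (.g (nat_lit 4) .nil .nil)))) (.nd (nat_lit 6) 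
(.lf (nat_lit 215082) (.g (nat_lit 2607) (.e (nat_lit 90170) (nat_lit 13) (.e (nat_lit 172065) (nat_lit 3) (.e (nat_lit 204829) (nat_lit 18) (.e (nat_lit 57688) (nat_lit 156) (.e (nat_lit 163875) (nat_lit 3) .nil))))) .nil)) 
(.lf (nat_lit 215146) (.g (nat_lit 1576) (.e (nat_lit 90170) (nat_lit 13) (.e (nat_lit 172065) (nat_lit 3) (.e (nat_lit 204838) (nat_lit 20) (.e (nat_lit 114716) (nat_lit 22) (.e (nat_lit 90181) (nat_lit 16) .nil))))) .nil)))) (.nd (nat_lit 5) (.nd (nat_lit 6) 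
(.lf (nat_lit 215066) (.g (nat_lit 2550) (.e (nat_lit 90170) (nat_lit 13) (.e (nat_lit 172062) (nat_lit 2) (.e (nat_lit 196661) (nat_lit 12) (.e (nat_lit 57574) (nat_lit 55) (.e (nat_lit 778472) (nat_lit 12) (.e (nat_lit 163979) (nat_lit 30) (.e (nat_lit 573475) (nat_lit 12) (.e (nat_lit 57549) (nat_lit 48) (.e (nat_lit 720940) (nat_lit 22) .nil))))))))) (.g (nat_lit 4) .nil .nil))) 
(.lf (nat_lit 215130) (.g (nat_lit 2365) (.e (nat_lit 90170) (nat_lit 13) (.e (nat_lit 172065) (nat_lit 3) (.e (nat_lit 204831) (nat_lit 18) (.e (nat_lit 57691) (nat_lit 156) (.e (nat_lit 163875) (nat_lit 3) .nil))))) .nil))) (.nd (nat_lit 6) 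
(.lf (nat_lit 215098) (.g (nat_lit 3179) (.e (nat_lit 90170) (nat_lit 13) (.e (nat_lit 172065) (nat_lit 3) (.e (nat_lit 204829) (nat_lit 18) (.e (nat_lit 57692) (nat_lit 156) (.e (nat_lit 163871) (nat_lit 2) (.e (nat_lit 196677) (nat_lit 16) (.e (nat_lit 122969) (nat_lit 48) (.e (nat_lit 720939) (nat_lit 22) .nil)))))))) (.g (nat_lit 4) .nil .nil))) 
(.lf (nat_lit 215162) (.g (nat_lit 4052) (.e (nat_lit 90170) (nat_lit 13) (.e (nat_lit 172067) (nat_lit 3) (.e (nat_lit 204829) (nat_lit 18) (.e (nat_lit 57688) (nat_lit 156) (.e (nat_lit 163873) (nat_lit 3) (.e (nat_lit 204834) (nat_lit 19) (.e (nat_lit 106517) (nat_lit 9) (.e (nat_lit 1237) (nat_lit 91) .nil)))))))) (.g (nat_lit 4) .nil .nil))))))) 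
(.nd (nat_lit 3) (.nd (nat_lit 4) (.nd (nat_lit 5) (.nd (nat_lit 6) 
(.lf (nat_lit 215046) (.g (nat_lit 1231) (.e (nat_lit 90169) (nat_lit 13) (.e (nat_lit 172124) (nat_lit 14) (.e (nat_lit 491540) (nat_lit 3) (.e (nat_lit 98363) (nat_lit 26) .nil)))) .nil)) 
(.lf (nat_lit 215110) (.g (nat_lit 1960) (.e (nat_lit 90170) (nat_lit 13) (.e (nat_lit 172065) (nat_lit 3) (.e (nat_lit 204830) (nat_lit 18) (.e (nat_lit 57691) (nat_lit 156) (.e (nat_lit 163869) (nat_lit 2) .nil))))) .nil))) (.nd (nat_lit 6) 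
(.lf (nat_lit 215078) (.g (nat_lit 2611) (.e (nat_lit 90170) (nat_lit 13) (.e (nat_lit 172065) (nat_lit 3) (.e (nat_lit 204829) (nat_lit 18) (.e (nat_lit 57688) (nat_lit 156) (.e (nat_lit 163869) (nat_lit 2) .nil))))) .nil)) 
(.lf (nat_lit 215142) (.g (nat_lit 3103) (.e (nat_lit 90170) (nat_lit 13) (.e (nat_lit 172065) (nat_lit 3) (.e (nat_lit 204837) (nat_lit 20) (.e (nat_lit 114719) (nat_lit 23) (.e (nat_lit 98334) (nat_lit 18) (.e (nat_lit 164401) (nat_lit 256) (.e (nat_lit 57373) (nat_lit 2) .nil))))))) (.g (nat_lit 5) .nil .nil))))) (.nd (nat_lit 5) (.nd (nat_lit 6) 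
(.lf (nat_lit 215062) (.g (nat_lit 3180) (.e (nat_lit 90170) (nat_lit 13) (.e (nat_lit 172059) (nat_lit 1) (.e (nat_lit 164326) (nat_lit 230) (.e (nat_lit 163868) (nat_lit 2) (.e (nat_lit 196695) (nat_lit 18) (.e (nat_lit 7936) (nat_lit 102) (.e (nat_lit 286749) (nat_lit 9) (.e (nat_lit 336013) (nat_lit 2) .nil)))))))) (.g (nat_lit 4) .nil .nil))) 
(.lf (nat_lit 215126) (.g (nat_lit 1537) (.e (nat_lit 90170) (nat_lit 13) (.e (nat_lit 172065) (nat_lit 3) (.e (nat_lit 204831) (nat_lit 18) (.e (nat_lit 57688) (nat_lit 156) .nil)))) .nil))) (.nd (nat_lit 6) 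
(.lf (nat_lit 215094) (.g (nat_lit 3027) (.e (nat_lit 90170) (nat_lit 13) (.e (nat_lit 172065) (nat_lit 3) (.e (nat_lit 204829) (nat_lit 18) (.e (nat_lit 57692) (nat_lit 156) (.e (nat_lit 163869) (nat_lit 2) (.e (nat_lit 196677) (nat_lit 16) (.e (nat_lit 122969) (nat_lit 48) (.e (nat_lit 720939) (nat_lit 22) .nil)))))))) (.g (nat_lit 4) .nil .nil))) 
(.lf (nat_lit 215158) (.g (nat_lit 4173) (.e (nat_lit 90170) (nat_lit 13) (.e (nat_lit 172067) (nat_lit 3) (.e (nat_lit 204829) (nat_lit 18) (.e (nat_lit 57686) (nat_lit 156) (.e (nat_lit 163867) (nat_lit 2) (.e (nat_lit 196624) (nat_lit 9) (.e (nat_lit 1277) (nat_lit 94) (.e (nat_lit 114715) (nat_lit 22) .nil)))))))) (.g (nat_lit 6) .nil .nil)))))) 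
(.nd (nat_lit 4) (.nd (nat_lit 5) (.nd (nat_lit 6) 
(.lf (nat_lit 215054) (.g (nat_lit 2054) (.e (nat_lit 90169) (nat_lit 13) (.e (nat_lit 172133) (nat_lit 15) (.e (nat_lit 2059) (nat_lit 142) (.e (nat_lit 704590) (nat_lit 3) (.e (nat_lit 163975) (nat_lit 30) .nil))))) .nil)) 
(.lf (nat_lit 215118) (.g (nat_lit 3718) (.e (nat_lit 90170) (nat_lit 13) (.e (nat_lit 172065) (nat_lit 3) (.e (nat_lit 204830) (nat_lit 18) (.e (nat_lit 57691) (nat_lit 156) (.e (nat_lit 163875) (nat_lit 3) (.e (nat_lit 204815) (nat_lit 17) (.e (nat_lit 2198) (nat_lit 144) (.e (nat_lit 720940) (nat_lit 22) .nil)))))))) (.g (nat_lit 5) .nil .nil)))) (.nd (nat_lit 6) 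
(.lf (nat_lit 215086) (.g (nat_lit 2175) (.e (nat_lit 90170) (nat_lit 13) (.e (nat_lit 172065) (nat_lit 3) (.e (nat_lit 204829) (nat_lit 18) (.e (nat_lit 57691) (nat_lit 156) (.e (nat_lit 163871) (nat_lit 2) .nil))))) .nil)) 
(.lf (nat_lit 215150) (.g (nat_lit 2116) (.e (nat_lit 90170) (nat_lit 13) (.e (nat_lit 172065) (nat_lit 3) (.e (nat_lit 204838) (nat_lit 20) (.e (nat_lit 114718) (nat_lit 23) (.e (nat_lit 98325) (nat_lit 17) .nil))))) .nil)))) (.nd (nat_lit 5) (.nd (nat_lit 6) 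
(.lf (nat_lit 215070) (.g (nat_lit 499) (.e (nat_lit 90170) (nat_lit 13) (.e (nat_lit 172064) (nat_lit 2) (.e (nat_lit 196661) (nat_lit 12) .nil))) .nil)) 
(.lf (nat_lit 215134) (.g (nat_lit 2983) (.e (nat_lit 90170) (nat_lit 13) (.e (nat_lit 172065) (nat_lit 3) (.e (nat_lit 204831) (nat_lit 18) (.e (nat_lit 57692) (nat_lit 156) (.e (nat_lit 163875) (nat_lit 3) (.e (nat_lit 204817) (nat_lit 17) (.e (nat_lit 2198) (nat_lit 144) (.e (nat_lit 720940) (nat_lit 22) .nil)))))))) (.g (nat_lit 4) .nil .nil)))) (.nd (nat_lit 6) 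
(.lf (nat_lit 215102) (.g (nat_lit 3536) (.e (nat_lit 90170) (nat_lit 13) (.e (nat_lit 172065) (nat_lit 3) (.e (nat_lit 204829) (nat_lit 18) (.e (nat_lit 57692) (nat_lit 156) (.e (nat_lit 163874) (nat_lit 3) (.e (nat_lit 204822) (nat_lit 17) (.e (nat_lit 2184) (nat_lit 144) (.e (nat_lit 720940) (nat_lit 22) .nil)))))))) (.g (nat_lit 5) .nil .nil))) 
(.lf (nat_lit 215166) (.g (nat_lit 2747) (.e (nat_lit 90170) (nat_lit 13) (.e (nat_lit 172067) (nat_lit 3) (.e (nat_lit 204829) (nat_lit 18) (.e (nat_lit 57691) (nat_lit 156) (.e (nat_lit 163875) (nat_lit 3) (.e (nat_lit 204815) (nat_lit 17) (.e (nat_lit 2198) (nat_lit 144) (.e (nat_lit 720940) (nat_lit 22) .nil)))))))) (.g (nat_lit 4) .nil .nil))))))))) 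
(.nd (nat_lit 1) (.nd (nat_lit 2) (.nd (nat_lit 3) (.nd (nat_lit 4) (.nd (nat_lit 5) 
(.nd (nat_lit 6) 
(.lf (nat_lit 215041) (.g (nat_lit 2800) (.e (nat_lit 90169) (nat_lit 13) (.e (nat_lit 172124) (nat_lit 14) (.e (nat_lit 491537) (nat_lit 2) (.e (nat_lit 90172) (nat_lit 14) (.e (nat_lit 180278) (nat_lit 32) .nil))))) .nil)) 
(.lf (nat_lit 215105) (.g (nat_lit 1970) (.e (nat_lit 90170) (nat_lit 13) (.e (nat_lit 172065) (nat_lit 3) (.e (nat_lit 204830) (nat_lit 18) (.e (nat_lit 57680) (nat_lit 155) (.e (nat_lit 122893) (nat_lit 3) .nil))))) .nil))) (.nd (nat_lit 6) 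
(.lf (nat_lit 215073) (.g (nat_lit 505) (.e (nat_lit 90170) (nat_lit 13) (.e (nat_lit 172065) (nat_lit 3) (.e (nat_lit 204821) (nat_lit 17) .nil))) .nil)) 
(.lf (nat_lit 215137) (.g (nat_lit 4369) (.e (nat_lit 90170) (nat_lit 13) (.e (nat_lit 172065) (nat_lit 3) (.e (nat_lit 204834) (nat_lit 19) (.e (nat_lit 106537) (nat_lit 12) (.e (nat_lit 57480) (nat_lit 28) (.e (nat_lit 557090) (nat_lit 12) (.e (nat_lit 164038) (nat_lit 55) (.e (nat_lit 778246) (nat_lit 0) (.e (nat_lit 1239) (nat_lit 91) .nil))))))))) (.g (nat_lit 6) .nil .nil))))) 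
(.nd (nat_lit 5) (.nd (nat_lit 6) 
(.lf (nat_lit 215057) (.g (nat_lit 2153) (.e (nat_lit 90169) (nat_lit 13) (.e (nat_lit 172133) (nat_lit 15) (.e (nat_lit 2059) (nat_lit 142) (.e (nat_lit 704595) (nat_lit 5) (.e (nat_lit 188160) (nat_lit 28) .nil))))) .nil)) 
(.lf (nat_lit 215121) (.g (nat_lit 3448) (.e (nat_lit 90170) (nat_lit 13) (.e (nat_lit 172065) (nat_lit 3) (.e (nat_lit 204830) (nat_lit 18) (.e (nat_lit 57692) (nat_lit 156) (.e (nat_lit 163871) (nat_lit 2) (.e (nat_lit 196677) (nat_lit 16) (.e (nat_lit 122969) (nat_lit 48) (.e (nat_lit 720940) (nat_lit 22) .nil)))))))) (.g (nat_lit 5) .nil .nil)))) (.nd (nat_lit 6) 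
(.lf (nat_lit 215089) (.g (nat_lit 1203) (.e (nat_lit 90170) (nat_lit 13) (.e (nat_lit 172065) (nat_lit 3) (.e (nat_lit 204829) (nat_lit 18) (.e (nat_lit 57692) (nat_lit 156) .nil)))) .nil)) 
(.lf (nat_lit 215153) (.g (nat_lit 765) (.e (nat_lit 90170) (nat_lit 13) (.e (nat_lit 172067) (nat_lit 3) (.e (nat_lit 204807) (nat_lit 0) .nil))) .nil))))) (.nd (nat_lit 4) (.nd (nat_lit 5) (.nd (nat_lit 6) 
(.lf (nat_lit 215049) (.g (nat_lit 1601) (.e (nat_lit 90169) (nat_lit 13) (.e (nat_lit 172133) (nat_lit 15) (.e (nat_lit 1800) (nat_lit 119) (.e (nat_lit 516117) (nat_lit 1) (.e (nat_lit 164330) (nat_lit 230) .nil))))) .nil)) 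
(.lf (nat_lit 215113) (.g (nat_lit 3582) (.e (nat_lit 90170) (nat_lit 13) (.e (nat_lit 172065) (nat_lit 3) (.e (nat_lit 204830) (nat_lit 18) (.e (nat_lit 57691) (nat_lit 156) (.e (nat_lit 163871) (nat_lit 2) (.e (nat_lit 196677) (nat_lit 16) (.e (nat_lit 122969) (nat_lit 48) (.e (nat_lit 720940) (nat_lit 22) .nil)))))))) (.g (nat_lit 5) .nil .nil)))) (.nd (nat_lit 6) 
(.lf (nat_lit 215081) (.g (nat_lit 4048) (.e (nat_lit 90170) (nat_lit 13) (.e (nat_lit 172065) (nat_lit 3) (.e (nat_lit 204829) (nat_lit 18) (.e (nat_lit 57688) (nat_lit 156) (.e (nat_lit 163873) (nat_lit 3) (.e (nat_lit 204817) (nat_lit 17) (.e (nat_lit 2198) (nat_lit 144) (.e (nat_lit 720940) (nat_lit 22) .nil)))))))) (.g (nat_lit 5) .nil .nil))) 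
(.lf (nat_lit 215145) (.g (nat_lit 1571) (.e (nat_lit 90170) (nat_lit 13) (.e (nat_lit 172065) (nat_lit 3) (.e (nat_lit 204838) (nat_lit 20) (.e (nat_lit 114715) (nat_lit 22) (.e (nat_lit 98048) (nat_lit 21) .nil))))) .nil)))) (.nd (nat_lit 5) (.nd (nat_lit 6) 
(.lf (nat_lit 215065) (.g (nat_lit 857) (.e (nat_lit 90170) (nat_lit 13) (.e (nat_lit 172061) (nat_lit 1) (.e (nat_lit 164327) (nat_lit 230) (.e (nat_lit 163884) (nat_lit 5) .nil)))) .nil)) 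
(.lf (nat_lit 215129) (.g (nat_lit 2551) (.e (nat_lit 90170) (nat_lit 13) (.e (nat_lit 172065) (nat_lit 3) (.e (nat_lit 204831) (nat_lit 18) (.e (nat_lit 57688) (nat_lit 156) (.e (nat_lit 163874) (nat_lit 3) .nil))))) .nil))) (.nd (nat_lit 6) 
(.lf (nat_lit 215097) (.g (nat_lit 2996) (.e (nat_lit 90170) (nat_lit 13) (.e (nat_lit 172065) (nat_lit 3) (.e (nat_lit 204829) (nat_lit 18) (.e (nat_lit 57692) (nat_lit 156) (.e (nat_lit 163871) (nat_lit 2) (.e (nat_lit 196660) (nat_lit 12) (.e (nat_lit 57550) (nat_lit 48) (.e (nat_lit 720939) (nat_lit 22) .nil)))))))) (.g (nat_lit 4) .nil .nil))) 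
(.lf (nat_lit 215161) (.g (nat_lit 2994) (.e (nat_lit 90170) (nat_lit 13) (.e (nat_lit 172067) (nat_lit 3) (.e (nat_lit 204829) (nat_lit 18) (.e (nat_lit 57688) (nat_lit 156) (.e (nat_lit 163873) (nat_lit 3) (.e (nat_lit 204815) (nat_lit 17) (.e (nat_lit 2198) (nat_lit 144) (.e (nat_lit 720940) (nat_lit 22) .nil)))))))) (.g (nat_lit 4) .nil .nil))))))) 
(.nd (nat_lit 3) (.nd (nat_lit 4) (.nd (nat_lit 5) (.nd (nat_lit 6) 
(.lf (nat_lit 215045) (.g (nat_lit 2474) (.e (nat_lit 90169) (nat_lit 13) (.e (nat_lit 172124) (nat_lit 14) (.e (nat_lit 491540) (nat_lit 3) (.e (nat_lit 98350) (nat_lit 24) (.e (nat_lit 409603) (nat_lit 0) .nil))))) .nil)) 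
(.lf (nat_lit 215109) (.g (nat_lit 2844) (.e (nat_lit 90170) (nat_lit 13) (.e (nat_lit 172065) (nat_lit 3) (.e (nat_lit 204830) (nat_lit 18) (.e (nat_lit 57690) (nat_lit 156) (.e (nat_lit 163875) (nat_lit 3) (.e (nat_lit 204817) (nat_lit 17) (.e (nat_lit 2198) (nat_lit 144) (.e (nat_lit 720940) (nat_lit 22) .nil)))))))) (.g (nat_lit 5) .nil .nil)))) (.nd (nat_lit 6) 
(.lf (nat_lit 215077) (.g (nat_lit 2603) (.e (nat_lit 90170) (nat_lit 13) (.e (nat_lit 172065) (nat_lit 3) (.e (nat_lit 204829) (nat_lit 18) (.e (nat_lit 57688) (nat_lit 156) (.e (nat_lit 163868) (nat_lit 2) .nil))))) .nil)) 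
(.lf (nat_lit 215141) (.g (nat_lit 2845) (.e (nat_lit 90170) (nat_lit 13) (.e (nat_lit 172065) (nat_lit 3) (.e (nat_lit 204837) (nat_lit 20) (.e (nat_lit 114717) (nat_lit 23) (.e (nat_lit 98334) (nat_lit 18) (.e (nat_lit 164399) (nat_lit 256) (.e (nat_lit 57373) (nat_lit 2) .nil))))))) (.g (nat_lit 5) .nil .nil))))) (.nd (nat_lit 5) (.nd (nat_lit 6) 
(.lf (nat_lit 215061) (.g (nat_lit 1717) (.e (nat_lit 90170) (nat_lit 13) (.e (nat_lit 172059) (nat_lit 1) (.e (nat_lit 164325) (nat_lit 230) (.e (nat_lit 163861) (nat_lit 1) (.e (nat_lit 164132) (nat_lit 134) .nil))))) .nil)) 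
(.lf (nat_lit 215125) (.g (nat_lit 1311) (.e (nat_lit 90170) (nat_lit 13) (.e (nat_lit 172065) (nat_lit 3) (.e (nat_lit 204831) (nat_lit 18) (.e (nat_lit 57681) (nat_lit 155) .nil)))) .nil))) (.nd (nat_lit 6) 
(.lf (nat_lit 215093) (.g (nat_lit 3708) (.e (nat_lit 90170) (nat_lit 13) (.e (nat_lit 172065) (nat_lit 3) (.e (nat_lit 204829) (nat_lit 18) (.e (nat_lit 57692) (nat_lit 156) (.e (nat_lit 163869) (nat_lit 2) (.e (nat_lit 196661) (nat_lit 12) (.e (nat_lit 57549) (nat_lit 48) (.e (nat_lit 720940) (nat_lit 22) .nil)))))))) (.g (nat_lit 5) .nil .nil))) 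
(.lf (nat_lit 215157) (.g (nat_lit 3627) (.e (nat_lit 90170) (nat_lit 13) (.e (nat_lit 172067) (nat_lit 3) (.e (nat_lit 204828) (nat_lit 18) (.e (nat_lit 57691) (nat_lit 156) (.e (nat_lit 163875) (nat_lit 3) (.e (nat_lit 204834) (nat_lit 19) (.e (nat_lit 106517) (nat_lit 9) (.e (nat_lit 1237) (nat_lit 91) .nil)))))))) (.g (nat_lit 4) .nil .nil)))))) 
(.nd (nat_lit 4) (.nd (nat_lit 5) (.nd (nat_lit 6) 
(.lf (nat_lit 215053) (.g (nat_lit 3086) (.e (nat_lit 90169) (nat_lit 13) (.e (nat_lit 172133) (nat_lit 15) (.e (nat_lit 2059) (nat_lit 142) (.e (nat_lit 704589) (nat_lit 3) (.e (nat_lit 163975) (nat_lit 30) .nil))))) .nil)) 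
(.lf (nat_lit 215117) (.g (nat_lit 1831) (.e (nat_lit 90170) (nat_lit 13) (.e (nat_lit 172065) (nat_lit 3) (.e (nat_lit 204830) (nat_lit 18) (.e (nat_lit 57691) (nat_lit 156) (.e (nat_lit 163875) (nat_lit 3) .nil))))) .nil))) (.nd (nat_lit 6) 
(.lf (nat_lit 215085) (.g (nat_lit 2778) (.e (nat_lit 90170) (nat_lit 13) (.e (nat_lit 172065) (nat_lit 3) (.e (nat_lit 204829) (nat_lit 18) (.e (nat_lit 57691) (nat_lit 156) (.e (nat_lit 163870) (nat_lit 2) (.e (nat_lit 196661) (nat_lit 12) (.e (nat_lit 57549) (nat_lit 48) (.e (nat_lit 720940) (nat_lit 22) .nil)))))))) (.g (nat_lit 4) .nil .nil))) 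
(.lf (nat_lit 215149) (.g (nat_lit 1328) (.e (nat_lit 90170) (nat_lit 13) (.e (nat_lit 172065) (nat_lit 3) (.e (nat_lit 204838) (nat_lit 20) (.e (nat_lit 114718) (nat_lit 23) .nil)))) .nil)))) (.nd (nat_lit 5) (.nd (nat_lit 6) 
(.lf (nat_lit 215069) (.g (nat_lit 461) (.e (nat_lit 90170) (nat_lit 13) (.e (nat_lit 172064) (nat_lit 2) (.e (nat_lit 204544) (nat_lit 2) .nil))) .nil)) 
(.lf (nat_lit 215133) (.g (nat_lit 2807) (.e (nat_lit 90170) (nat_lit 13) (.e (nat_lit 172065) (nat_lit 3) (.e (nat_lit 204831) (nat_lit 18) (.e (nat_lit 57692) (nat_lit 156) (.e (nat_lit 163874) (nat_lit 3) (.e (nat_lit 204817) (nat_lit 17) (.e (nat_lit 2198) (nat_lit 144) (.e (nat_lit 720940) (nat_lit 22) .nil)))))))) (.g (nat_lit 4) .nil .nil)))) (.nd (nat_lit 6) 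
(.lf (nat_lit 215101) (.g (nat_lit 3429) (.e (nat_lit 90170) (nat_lit 13) (.e (nat_lit 172065) (nat_lit 3) (.e (nat_lit 204829) (nat_lit 18) (.e (nat_lit 57692) (nat_lit 156) (.e (nat_lit 163874) (nat_lit 3) (.e (nat_lit 204817) (nat_lit 17) (.e (nat_lit 2198) (nat_lit 144) (.e (nat_lit 720940) (nat_lit 22) .nil)))))))) (.g (nat_lit 5) .nil .nil))) 
(.lf (nat_lit 215165) (.g (nat_lit 2736) (.e (nat_lit 90170) (nat_lit 13) (.e (nat_lit 172067) (nat_lit 3) (.e (nat_lit 204829) (nat_lit 18) (.e (nat_lit 57691) (nat_lit 156) (.e (nat_lit 163871) (nat_lit 2) (.e (nat_lit 196677) (nat_lit 16) (.e (nat_lit 122969) (nat_lit 48) (.e (nat_lit 720940) (nat_lit 22) .nil)))))))) (.g (nat_lit 4) .nil .nil)))))))) 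
(.nd (nat_lit 2) (.nd (nat_lit 3) (.nd (nat_lit 4) (.nd (nat_lit 5) (.nd (nat_lit 6) 
(.lf (nat_lit 215043) (.g (nat_lit 467) (.e (nat_lit 90169) (nat_lit 13) (.e (nat_lit 172124) (nat_lit 14) (.e (nat_lit 491540) (nat_lit 3) .nil))) .nil)) 
(.lf (nat_lit 215107) (.g (nat_lit 3116) (.e (nat_lit 90170) (nat_lit 13) (.e (nat_lit 172065) (nat_lit 3) (.e (nat_lit 204830) (nat_lit 18) (.e (nat_lit 57690) (nat_lit 156) (.e (nat_lit 163871) (nat_lit 2) (.e (nat_lit 196677) (nat_lit 16) (.e (nat_lit 122969) (nat_lit 48) (.e (nat_lit 720939) (nat_lit 22) .nil)))))))) (.g (nat_lit 5) .nil .nil)))) (.nd (nat_lit 6) 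
(.lf (nat_lit 215075) (.g (nat_lit 2140) (.e (nat_lit 90170) (nat_lit 13) (.e (nat_lit 172065) (nat_lit 3) (.e (nat_lit 204829) (nat_lit 18) (.e (nat_lit 57686) (nat_lit 156) (.e (nat_lit 163871) (nat_lit 2) .nil))))) .nil)) 
(.lf (nat_lit 215139) (.g (nat_lit 443) (.e (nat_lit 90170) (nat_lit 13) (.e (nat_lit 172065) (nat_lit 3) (.e (nat_lit 204837) (nat_lit 20) .nil))) .nil)))) (.nd (nat_lit 5) (.nd (nat_lit 6) 
(.lf (nat_lit 215059) (.g (nat_lit 1262) (.e (nat_lit 90169) (nat_lit 13) (.e (nat_lit 179968) (nat_lit 20) (.e (nat_lit 114710) (nat_lit 21) (.e (nat_lit 57847) (nat_lit 252) (.e (nat_lit 57349) (nat_lit 0) (.e (nat_lit 2202) (nat_lit 144) (.e (nat_lit 720956) (nat_lit 25) (.e (nat_lit 114716) (nat_lit 22) .nil)))))))) (.g (nat_lit 4) .nil .nil))) 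
(.lf (nat_lit 215123) (.g (nat_lit 3439) (.e (nat_lit 90170) (nat_lit 13) (.e (nat_lit 172065) (nat_lit 3) (.e (nat_lit 204830) (nat_lit 18) (.e (nat_lit 57692) (nat_lit 156) (.e (nat_lit 163874) (nat_lit 3) (.e (nat_lit 204822) (nat_lit 17) (.e (nat_lit 2184) (nat_lit 144) (.e (nat_lit 720940) (nat_lit 22) .nil)))))))) (.g (nat_lit 5) .nil .nil)))) (.nd (nat_lit 6) 
(.lf (nat_lit 215091) (.g (nat_lit 2833) (.e (nat_lit 90170) (nat_lit 13) (.e (nat_lit 172065) (nat_lit 3) (.e (nat_lit 204829) (nat_lit 18) (.e (nat_lit 57692) (nat_lit 156) (.e (nat_lit 163869) (nat_lit 2) (.e (nat_lit 196658) (nat_lit 12) (.e (nat_lit 57549) (nat_lit 48) (.e (nat_lit 720940) (nat_lit 22) .nil)))))))) (.g (nat_lit 4) .nil .nil))) 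
(.lf (nat_lit 215155) (.g (nat_lit 735) (.e (nat_lit 90170) (nat_lit 13) (.e (nat_lit 172067) (nat_lit 3) (.e (nat_lit 204821) (nat_lit 17) .nil))) .nil))))) (.nd (nat_lit 4) (.nd (nat_lit 5) (.nd (nat_lit 6) 
(.lf (nat_lit 215051) (.g (nat_lit 1923) (.e (nat_lit 90169) (nat_lit 13) (.e (nat_lit 172133) (nat_lit 15) (.e (nat_lit 1800) (nat_lit 119) (.e (nat_lit 516119) (nat_lit 1) (.e (nat_lit 164328) (nat_lit 230) .nil))))) .nil)) 
(.lf (nat_lit 215115) (.g (nat_lit 1928) (.e (nat_lit 90170) (nat_lit 13) (.e (nat_lit 172065) (nat_lit 3) (.e (nat_lit 204830) (nat_lit 18) (.e (nat_lit 57691) (nat_lit 156) (.e (nat_lit 163874) (nat_lit 3) .nil))))) .nil))) (.nd (nat_lit 6) 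
(.lf (nat_lit 215083) (.g (nat_lit 1266) (.e (nat_lit 90170) (nat_lit 13) (.e (nat_lit 172065) (nat_lit 3) (.e (nat_lit 204829) (nat_lit 18) (.e (nat_lit 57691) (nat_lit 156) .nil)))) .nil)) 
(.lf (nat_lit 215147) (.g (nat_lit 2231) (.e (nat_lit 90170) (nat_lit 13) (.e (nat_lit 172065) (nat_lit 3) (.e (nat_lit 204838) (nat_lit 20) (.e (nat_lit 114716) (nat_lit 22) (.e (nat_lit 90196) (nat_lit 18) (.e (nat_lit 2798) (nat_lit 180) (.e (nat_lit 311040) (nat_lit 17) .nil))))))) (.g (nat_lit 4) .nil .nil))))) (.nd (nat_lit 5) (.nd (nat_lit 6) 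
(.lf (nat_lit 215067) (.g (nat_lit 2665) (.e (nat_lit 90170) (nat_lit 13) (.e (nat_lit 172062) (nat_lit 2) (.e (nat_lit 196661) (nat_lit 12) (.e (nat_lit 57575) (nat_lit 55) (.e (nat_lit 778472) (nat_lit 12) (.e (nat_lit 163979) (nat_lit 30) (.e (nat_lit 573475) (nat_lit 12) (.e (nat_lit 57549) (nat_lit 48) (.e (nat_lit 720940) (nat_lit 22) .nil))))))))) (.g (nat_lit 4) .nil .nil))) 
(.lf (nat_lit 215131) (.g (nat_lit 2405) (.e (nat_lit 90170) (nat_lit 13) (.e (nat_lit 172065) (nat_lit 3) (.e (nat_lit 204831) (nat_lit 18) (.e (nat_lit 57692) (nat_lit 156) (.e (nat_lit 163869) (nat_lit 2) .nil))))) .nil))) (.nd (nat_lit 6) 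
(.lf (nat_lit 215099) (.g (nat_lit 2807) (.e (nat_lit 90170) (nat_lit 13) (.e (nat_lit 172065) (nat_lit 3) (.e (nat_lit 204829) (nat_lit 18) (.e (nat_lit 57692) (nat_lit 156) (.e (nat_lit 163871) (nat_lit 2) (.e (nat_lit 196677) (nat_lit 16) (.e (nat_lit 130816) (nat_lit 48) (.e (nat_lit 720940) (nat_lit 22) .nil)))))))) (.g (nat_lit 4) .nil .nil))) 
(.lf (nat_lit 215163) (.g (nat_lit 4123) (.e (nat_lit 90170) (nat_lit 13) (.e (nat_lit 172067) (nat_lit 3) (.e (nat_lit 204829) (nat_lit 18) (.e (nat_lit 57688) (nat_lit 156) (.e (nat_lit 163873) (nat_lit 3) (.e (nat_lit 204837) (nat_lit 20) (.e (nat_lit 114714) (nat_lit 22) .nil))))))) (.g (nat_lit 5) .nil .nil))))))) (.nd (nat_lit 3) (.nd (nat_lit 4) (.nd (nat_lit 5) (.nd (nat_lit 6) 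
(.lf (nat_lit 215047) (.g (nat_lit 1224) (.e (nat_lit 90169) (nat_lit 13) (.e (nat_lit 172124) (nat_lit 14) (.e (nat_lit 491540) (nat_lit 3) (.e (nat_lit 98367) (nat_lit 27) .nil)))) .nil)) 
(.lf (nat_lit 215111) (.g (nat_lit 3379) (.e (nat_lit 90170) (nat_lit 13) (.e (nat_lit 172065) (nat_lit 3) (.e (nat_lit 204830) (nat_lit 18) (.e (nat_lit 57691) (nat_lit 156) (.e (nat_lit 163870) (nat_lit 2) (.e (nat_lit 196661) (nat_lit 12) (.e (nat_lit 57549) (nat_lit 48) (.e (nat_lit 720940) (nat_lit 22) .nil)))))))) (.g (nat_lit 5) .nil .nil)))) (.nd (nat_lit 6) 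
(.lf (nat_lit 215079) (.g (nat_lit 2957) (.e (nat_lit 90170) (nat_lit 13) (.e (nat_lit 172065) (nat_lit 3) (.e (nat_lit 204829) (nat_lit 18) (.e (nat_lit 57688) (nat_lit 156) (.e (nat_lit 163871) (nat_lit 2) (.e (nat_lit 196677) (nat_lit 16) (.e (nat_lit 122969) (nat_lit 48) (.e (nat_lit 720940) (nat_lit 22) .nil)))))))) (.g (nat_lit 4) .nil .nil))) 
(.lf (nat_lit 215143) (.g (nat_lit 417) (.e (nat_lit 90170) (nat_lit 13) (.e (nat_lit 172065) (nat_lit 3) (.e (nat_lit 204838) (nat_lit 20) .nil))) .nil)))) (.nd (nat_lit 5) (.nd (nat_lit 6) 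
(.lf (nat_lit 215063) (.g (nat_lit 3187) (.e (nat_lit 90170) (nat_lit 13) (.e (nat_lit 172059) (nat_lit 1) (.e (nat_lit 164326) (nat_lit 230) (.e (nat_lit 163868) (nat_lit 2) (.e (nat_lit 196696) (nat_lit 18) (.e (nat_lit 7936) (nat_lit 102) (.e (nat_lit 286749) (nat_lit 9) (.e (nat_lit 336013) (nat_lit 2) .nil)))))))) (.g (nat_lit 4) .nil .nil))) 
(.lf (nat_lit 215127) (.g (nat_lit 2561) (.e (nat_lit 90170) (nat_lit 13) (.e (nat_lit 172065) (nat_lit 3) (.e (nat_lit 204831) (nat_lit 18) (.e (nat_lit 57688) (nat_lit 156) (.e (nat_lit 163872) (nat_lit 3) .nil))))) .nil))) (.nd (nat_lit 6) 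
(.lf (nat_lit 215095) (.g (nat_lit 2823) (.e (nat_lit 90170) (nat_lit 13) (.e (nat_lit 172065) (nat_lit 3) (.e (nat_lit 204829) (nat_lit 18) (.e (nat_lit 57692) (nat_lit 156) (.e (nat_lit 163869) (nat_lit 2) (.e (nat_lit 196677) (nat_lit 16) (.e (nat_lit 130816) (nat_lit 48) (.e (nat_lit 720940) (nat_lit 22) .nil)))))))) (.g (nat_lit 4) .nil .nil))) 
(.lf (nat_lit 215159) (.g (nat_lit 2066) (.e (nat_lit 90170) (nat_lit 13) (.e (nat_lit 172067) (nat_lit 3) (.e (nat_lit 204829) (nat_lit 18) (.e (nat_lit 57688) (nat_lit 156) (.e (nat_lit 163867) (nat_lit 2) .nil))))) .nil))))) (.nd (nat_lit 4) (.nd (nat_lit 5) (.nd (nat_lit 6) 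
(.lf (nat_lit 215055) (.g (nat_lit 1282) (.e (nat_lit 90169) (nat_lit 13) (.e (nat_lit 172133) (nat_lit 15) (.e (nat_lit 2059) (nat_lit 142) (.e (nat_lit 704595) (nat_lit 5) .nil)))) .nil)) 
(.lf (nat_lit 215119) (.g (nat_lit 3693) (.e (nat_lit 90170) (nat_lit 13) (.e (nat_lit 172065) (nat_lit 3) (.e (nat_lit 204830) (nat_lit 18) (.e (nat_lit 57691) (nat_lit 156) (.e (nat_lit 163875) (nat_lit 3) (.e (nat_lit 204822) (nat_lit 17) (.e (nat_lit 2184) (nat_lit 144) (.e (nat_lit 720940) (nat_lit 22) .nil)))))))) (.g (nat_lit 5) .nil .nil)))) (.nd (nat_lit 6) 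
(.lf (nat_lit 215087) (.g (nat_lit 2742) (.e (nat_lit 90170) (nat_lit 13) (.e (nat_lit 172065) (nat_lit 3) (.e (nat_lit 204829) (nat_lit 18) (.e (nat_lit 57691) (nat_lit 156) (.e (nat_lit 163874) (nat_lit 3) (.e (nat_lit 204817) (nat_lit 17) (.e (nat_lit 2198) (nat_lit 144) (.e (nat_lit 720940) (nat_lit 22) .nil)))))))) (.g (nat_lit 4) .nil .nil))) 
(.lf (nat_lit 215151) (.g (nat_lit 4743) (.e (nat_lit 90170) (nat_lit 13) (.e (nat_lit 172065) (nat_lit 3) (.e (nat_lit 204838) (nat_lit 20) (.e (nat_lit 114718) (nat_lit 23) (.e (nat_lit 98335) (nat_lit 18) (.e (nat_lit 164403) (nat_lit 256) (.e (nat_lit 57373) (nat_lit 2) .nil))))))) (.g (nat_lit 7) .nil .nil))))) (.nd (nat_lit 5) (.nd (nat_lit 6) 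
(.lf (nat_lit 215071) (.g (nat_lit 2707) (.e (nat_lit 90170) (nat_lit 13) (.e (nat_lit 172064) (nat_lit 2) (.e (nat_lit 196661) (nat_lit 12) (.e (nat_lit 57574) (nat_lit 55) (.e (nat_lit 778482) (nat_lit 12) (.e (nat_lit 163978) (nat_lit 30) (.e (nat_lit 573478) (nat_lit 12) (.e (nat_lit 57549) (nat_lit 48) (.e (nat_lit 720940) (nat_lit 22) .nil))))))))) (.g (nat_lit 4) .nil .nil))) 
(.lf (nat_lit 215135) (.g (nat_lit 447) (.e (nat_lit 90170) (nat_lit 13) (.e (nat_lit 172065) (nat_lit 3) (.e (nat_lit 204834) (nat_lit 19) .nil))) .nil))) (.nd (nat_lit 6) 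
(.lf (nat_lit 215103) (.g (nat_lit 5040) (.e (nat_lit 90170) (nat_lit 13) (.e (nat_lit 172065) (nat_lit 3) (.e (nat_lit 204829) (nat_lit 18) (.e (nat_lit 57692) (nat_lit 156) (.e (nat_lit 163874) (nat_lit 3) (.e (nat_lit 204834) (nat_lit 19) (.e (nat_lit 106517) (nat_lit 9) (.e (nat_lit 1237) (nat_lit 91) .nil)))))))) (.g (nat_lit 5) .nil .nil))) 
(.lf (nat_lit 215167) (.g (nat_lit 5234) (.e (nat_lit 90170) (nat_lit 13) (.e (nat_lit 172067) (nat_lit 3) (.e (nat_lit 204829) (nat_lit 18) (.e (nat_lit 57691) (nat_lit 156) (.e (nat_lit 163875) (nat_lit 3) (.e (nat_lit 204834) (nat_lit 19) (.e (nat_lit 106517) (nat_lit 9) (.e (nat_lit 1237) (nat_lit 91) .nil)))))))) (.g (nat_lit 5) .nil .nil))))))))))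

noncomputable def tv2828 : DT := (.nd (nat_lit 0) (.nd (nat_lit 1) (.nd (nat_lit 2) (.nd (nat_lit 3) (.nd (nat_lit 4) (.nd (nat_lit 5) (.nd (nat_lit 6) 
(.lf (nat_lit 215168) (.g (nat_lit 2794) (.e (nat_lit 90170) (nat_lit 13) (.e (nat_lit 172067) (nat_lit 3) (.e (nat_lit 204829) (nat_lit 18) (.e (nat_lit 57692) (nat_lit 156) (.e (nat_lit 163869) (nat_lit 2) (.e (nat_lit 196628) (nat_lit 9) (.e (nat_lit 1275) (nat_lit 94) (.e (nat_lit 114715) (nat_lit 22) .nil)))))))) (.g (nat_lit 4) .nil .nil))) 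
(.lf (nat_lit 215232) (.g (nat_lit 4135) (.e (nat_lit 90170) (nat_lit 13) (.e (nat_lit 172094) (nat_lit 9) (.e (nat_lit 426125) (nat_lit 2) (.e (nat_lit 196630) (nat_lit 9) (.e (nat_lit 1393) (nat_lit 106) (.e (nat_lit 319534) (nat_lit 16) (.e (nat_lit 286732) (nat_lit 2) .nil))))))) (.g (nat_lit 4) .nil .nil)))) (.nd (nat_lit 6) 
(.lf (nat_lit 215200) (.g (nat_lit 2673) (.e (nat_lit 90170) (nat_lit 13) (.e (nat_lit 172067) (nat_lit 3) (.e (nat_lit 204837) (nat_lit 20) (.e (nat_lit 114719) (nat_lit 23) (.e (nat_lit 98332) (nat_lit 18) (.e (nat_lit 164403) (nat_lit 256) (.e (nat_lit 57373) (nat_lit 2) .nil))))))) (.g (nat_lit 4) .nil .nil))) 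
(.lf (nat_lit 215264) (.g (nat_lit 1046) (.e (nat_lit 90170) (nat_lit 13) (.e (nat_lit 172095) (nat_lit 9) (.e (nat_lit 426380) (nat_lit 15) (.e (nat_lit 1855) (nat_lit 124) (.e (nat_lit 557105) (nat_lit 14) .nil))))) .nil)))) (.nd (nat_lit 5) (.nd (nat_lit 6) 
(.lf (nat_lit 215184) (.g (nat_lit 3425) (.e (nat_lit 90170) (nat_lit 13) (.e (nat_lit 172067) (nat_lit 3) (.e (nat_lit 204830) (nat_lit 18) (.e (nat_lit 57691) (nat_lit 156) (.e (nat_lit 163875) (nat_lit 3) (.e (nat_lit 204817) (nat_lit 17) (.e (nat_lit 2198) (nat_lit 144) (.e (nat_lit 720940) (nat_lit 22) .nil)))))))) (.g (nat_lit 5) .nil .nil))) 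
(.lf (nat_lit 215248) (.g (nat_lit 3346) (.e (nat_lit 90170) (nat_lit 13) (.e (nat_lit 172095) (nat_lit 9) (.e (nat_lit 426125) (nat_lit 2) (.e (nat_lit 196630) (nat_lit 9) (.e (nat_lit 1401) (nat_lit 106) .nil))))) .nil))) (.nd (nat_lit 6) 
(.lf (nat_lit 215216) (.g (nat_lit 2916) (.e (nat_lit 90170) (nat_lit 13) (.e (nat_lit 172085) (nat_lit 9) (.e (nat_lit 426125) (nat_lit 2) (.e (nat_lit 196661) (nat_lit 12) (.e (nat_lit 57721) (nat_lit 177) .nil))))) .nil)) 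
(.lf (nat_lit 215280) (.g (nat_lit 2855) (.e (nat_lit 90170) (nat_lit 13) (.e (nat_lit 172097) (nat_lit 9) (.e (nat_lit 426140) (nat_lit 3) (.e (nat_lit 204846) (nat_lit 24) (.e (nat_lit 319528) (nat_lit 16) .nil))))) .nil))))) (.nd (nat_lit 4) (.nd (nat_lit 5) (.nd (nat_lit 6) 
(.lf (nat_lit 215176) (.g (nat_lit 2842) (.e (nat_lit 90170) (nat_lit 13) (.e (nat_lit 172067) (nat_lit 3) (.e (nat_lit 204829) (nat_lit 18) (.e (nat_lit 57692) (nat_lit 156) (.e (nat_lit 163871) (nat_lit 2) (.e (nat_lit 196677) (nat_lit 16) (.e (nat_lit 122969) (nat_lit 48) (.e (nat_lit 720939) (nat_lit 22) .nil)))))))) (.g (nat_lit 4) .nil .nil))) 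
(.lf (nat_lit 215240) (.g (nat_lit 1178) (.e (nat_lit 90170) (nat_lit 13) (.e (nat_lit 172094) (nat_lit 9) (.e (nat_lit 426140) (nat_lit 3) (.e (nat_lit 204821) (nat_lit 17) .nil)))) .nil))) (.nd (nat_lit 6) 
(.lf (nat_lit 215208) (.g (nat_lit 258) (.e (nat_lit 90170) (nat_lit 13) (.e (nat_lit 172079) (nat_lit 7) (.e (nat_lit 409631) (nat_lit 12) .nil))) .nil)) 
(.lf (nat_lit 215272) (.g (nat_lit 1057) (.e (nat_lit 90170) (nat_lit 13) (.e (nat_lit 172097) (nat_lit 9) (.e (nat_lit 426140) (nat_lit 3) (.e (nat_lit 212736) (nat_lit 17) .nil)))) .nil)))) (.nd (nat_lit 5) (.nd (nat_lit 6) 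
(.lf (nat_lit 215192) (.g (nat_lit 3618) (.e (nat_lit 90170) (nat_lit 13) (.e (nat_lit 172067) (nat_lit 3) (.e (nat_lit 204831) (nat_lit 18) (.e (nat_lit 57692) (nat_lit 156) (.e (nat_lit 163871) (nat_lit 2) (.e (nat_lit 196624) (nat_lit 9) (.e (nat_lit 1277) (nat_lit 94) (.e (nat_lit 114715) (nat_lit 22) .nil)))))))) (.g (nat_lit 4) .nil .nil))) 
(.lf (nat_lit 215256) (.g (nat_lit 786) (.e (nat_lit 90170) (nat_lit 13) (.e (nat_lit 172095) (nat_lit 9) (.e (nat_lit 426140) (nat_lit 3) (.e (nat_lit 204821) (nat_lit 17) .nil)))) .nil))) (.nd (nat_lit 6) 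
(.lf (nat_lit 215224) (.g (nat_lit 363) (.e (nat_lit 90170) (nat_lit 13) (.e (nat_lit 172094) (nat_lit 9) (.e (nat_lit 426125) (nat_lit 2) .nil))) .nil)) 
(.lf (nat_lit 215288) (.g (nat_lit 2959) (.e (nat_lit 90170) (nat_lit 13) (.e (nat_lit 172106) (nat_lit 10) (.e (nat_lit 434202) (nat_lit 18) (.e (nat_lit 6420) (nat_lit 341) (.e (nat_lit 163885) (nat_lit 5) (.e (nat_lit 221198) (nat_lit 20) (.e (nat_lit 3744) (nat_lit 228) (.e (nat_lit 786455) (nat_lit 17) .nil)))))))) (.g (nat_lit 5) .nil .nil))))))) 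
(.nd (nat_lit 3) (.nd (nat_lit 4) (.nd (nat_lit 5) (.nd (nat_lit 6) 
(.lf (nat_lit 215172) (.g (nat_lit 3518) (.e (nat_lit 90170) (nat_lit 13) (.e (nat_lit 172067) (nat_lit 3) (.e (nat_lit 204829) (nat_lit 18) (.e (nat_lit 57692) (nat_lit 156) (.e (nat_lit 163869) (nat_lit 2) (.e (nat_lit 196661) (nat_lit 12) (.e (nat_lit 57549) (nat_lit 48) (.e (nat_lit 720940) (nat_lit 22) .nil)))))))) (.g (nat_lit 5) .nil .nil))) 
(.lf (nat_lit 215236) (.g (nat_lit 1403) (.e (nat_lit 90170) (nat_lit 13) (.e (nat_lit 172094) (nat_lit 9) (.e (nat_lit 426125) (nat_lit 2) (.e (nat_lit 196661) (nat_lit 12) .nil)))) .nil))) (.nd (nat_lit 6) 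
(.lf (nat_lit 215204) (.g (nat_lit 5280) (.e (nat_lit 90170) (nat_lit 13) (.e (nat_lit 172067) (nat_lit 3) (.e (nat_lit 204838) (nat_lit 20) (.e (nat_lit 114718) (nat_lit 23) (.e (nat_lit 98334) (nat_lit 18) (.e (nat_lit 164403) (nat_lit 256) (.e (nat_lit 57373) (nat_lit 2) .nil))))))) (.g (nat_lit 7) .nil .nil))) 
(.lf (nat_lit 215268) (.g (nat_lit 3290) (.e (nat_lit 90170) (nat_lit 13) (.e (nat_lit 172097) (nat_lit 9) (.e (nat_lit 426125) (nat_lit 2) (.e (nat_lit 196626) (nat_lit 9) .nil)))) .nil)))) (.nd (nat_lit 5) (.nd (nat_lit 6) 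
(.lf (nat_lit 215188) (.g (nat_lit 2717) (.e (nat_lit 90170) (nat_lit 13) (.e (nat_lit 172067) (nat_lit 3) (.e (nat_lit 204830) (nat_lit 18) (.e (nat_lit 57692) (nat_lit 156) (.e (nat_lit 163874) (nat_lit 3) (.e (nat_lit 204817) (nat_lit 17) (.e (nat_lit 2198) (nat_lit 144) (.e (nat_lit 720940) (nat_lit 22) .nil)))))))) (.g (nat_lit 4) .nil .nil))) 
(.lf (nat_lit 215252) (.g (nat_lit 2581) (.e (nat_lit 90170) (nat_lit 13) (.e (nat_lit 172095) (nat_lit 9) (.e (nat_lit 426125) (nat_lit 2) (.e (nat_lit 196661) (nat_lit 12) (.e (nat_lit 57712) (nat_lit 176) (.e (nat_lit 1370) (nat_lit 103) (.e (nat_lit 294927) (nat_lit 2) .nil))))))) (.g (nat_lit 4) .nil .nil)))) (.nd (nat_lit 6) 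
(.lf (nat_lit 215220) (.g (nat_lit 3189) (.e (nat_lit 90170) (nat_lit 13) (.e (nat_lit 172085) (nat_lit 9) (.e (nat_lit 426566) (nat_lit 34) (.e (nat_lit 393253) (nat_lit 18) (.e (nat_lit 164401) (nat_lit 256) .nil))))) .nil)) 
(.lf (nat_lit 215284) (.g (nat_lit 220) (.e (nat_lit 90170) (nat_lit 13) (.e (nat_lit 172106) (nat_lit 10) (.e (nat_lit 434202) (nat_lit 18) .nil))) .nil))))) (.nd (nat_lit 4) (.nd (nat_lit 5) (.nd (nat_lit 6) 
(.lf (nat_lit 215180) (.g (nat_lit 3243) (.e (nat_lit 90170) (nat_lit 13) (.e (nat_lit 172067) (nat_lit 3) (.e (nat_lit 204830) (nat_lit 18) (.e (nat_lit 57685) (nat_lit 156) (.e (nat_lit 163868) (nat_lit 2) (.e (nat_lit 196624) (nat_lit 9) (.e (nat_lit 1277) (nat_lit 94) (.e (nat_lit 114715) (nat_lit 22) .nil)))))))) (.g (nat_lit 5) .nil .nil))) 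
(.lf (nat_lit 215244) (.g (nat_lit 2680) (.e (nat_lit 90170) (nat_lit 13) (.e (nat_lit 172094) (nat_lit 9) (.e (nat_lit 426140) (nat_lit 3) (.e (nat_lit 204846) (nat_lit 24) (.e (nat_lit 319511) (nat_lit 10) .nil))))) .nil))) (.nd (nat_lit 6) 
(.lf (nat_lit 215212) (.g (nat_lit 3295) (.e (nat_lit 90170) (nat_lit 13) (.e (nat_lit 172082) (nat_lit 7) (.e (nat_lit 409617) (nat_lit 10) (.e (nat_lit 632) (nat_lit 50) (.e (nat_lit 573473) (nat_lit 12) (.e (nat_lit 57521) (nat_lit 44) (.e (nat_lit 688177) (nat_lit 16) (.e (nat_lit 65566) (nat_lit 2) .nil)))))))) (.g (nat_lit 4) .nil .nil))) 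
(.lf (nat_lit 215276) (.g (nat_lit 1270) (.e (nat_lit 90170) (nat_lit 13) (.e (nat_lit 172097) (nat_lit 9) (.e (nat_lit 426140) (nat_lit 3) (.e (nat_lit 204846) (nat_lit 24) .nil)))) .nil)))) (.nd (nat_lit 5) (.nd (nat_lit 6) 
(.lf (nat_lit 215196) (.g (nat_lit 2296) (.e (nat_lit 90170) (nat_lit 13) (.e (nat_lit 172067) (nat_lit 3) (.e (nat_lit 204834) (nat_lit 19) (.e (nat_lit 106538) (nat_lit 12) (.e (nat_lit 57478) (nat_lit 28) (.e (nat_lit 557093) (nat_lit 12) (.e (nat_lit 164058) (nat_lit 56) (.e (nat_lit 786455) (nat_lit 17) .nil)))))))) (.g (nat_lit 4) .nil .nil))) 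
(.lf (nat_lit 215260) (.g (nat_lit 2137) (.e (nat_lit 90170) (nat_lit 13) (.e (nat_lit 172095) (nat_lit 9) (.e (nat_lit 426140) (nat_lit 3) (.e (nat_lit 204846) (nat_lit 24) (.e (nat_lit 319505) (nat_lit 10) .nil))))) .nil))) (.nd (nat_lit 6) 
(.lf (nat_lit 215228) (.g (nat_lit 2862) (.e (nat_lit 90170) (nat_lit 13) (.e (nat_lit 172094) (nat_lit 9) (.e (nat_lit 426125) (nat_lit 2) (.e (nat_lit 196627) (nat_lit 9) .nil)))) .nil)) 
(.lf (nat_lit 215292) (.g (nat_lit 1613) (.e (nat_lit 90170) (nat_lit 13) (.e (nat_lit 172106) (nat_lit 10) (.e (nat_lit 434209) (nat_lit 18) (.e (nat_lit 4273) (nat_lit 252) .nil)))) .nil))))))) (.nd (nat_lit 2) (.nd (nat_lit 3) (.nd (nat_lit 4) (.nd (nat_lit 5) (.nd (nat_lit 6) 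
(.lf (nat_lit 215170) (.g (nat_lit 2914) (.e (nat_lit 90170) (nat_lit 13) (.e (nat_lit 172067) (nat_lit 3) (.e (nat_lit 204829) (nat_lit 18) (.e (nat_lit 57692) (nat_lit 156) (.e (nat_lit 163869) (nat_lit 2) (.e (nat_lit 196659) (nat_lit 12) (.e (nat_lit 57550) (nat_lit 48) (.e (nat_lit 720939) (nat_lit 22) .nil)))))))) (.g (nat_lit 4) .nil .nil))) 
(.lf (nat_lit 215234) (.g (nat_lit 4189) (.e (nat_lit 90170) (nat_lit 13) (.e (nat_lit 172094) (nat_lit 9) (.e (nat_lit 426125) (nat_lit 2) (.e (nat_lit 196630) (nat_lit 9) (.e (nat_lit 1396) (nat_lit 106) .nil))))) .nil))) (.nd (nat_lit 6) 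
(.lf (nat_lit 215202) (.g (nat_lit 3763) (.e (nat_lit 90170) (nat_lit 13) (.e (nat_lit 172067) (nat_lit 3) (.e (nat_lit 204838) (nat_lit 20) (.e (nat_lit 114714) (nat_lit 22) (.e (nat_lit 90162) (nat_lit 12) (.e (nat_lit 164007) (nat_lit 41) (.e (nat_lit 671488) (nat_lit 0) (.e (nat_lit 1237) (nat_lit 91) .nil)))))))) (.g (nat_lit 4) .nil .nil))) 
(.lf (nat_lit 215266) (.g (nat_lit 1641) (.e (nat_lit 90170) (nat_lit 13) (.e (nat_lit 172095) (nat_lit 9) (.e (nat_lit 426513) (nat_lit 27) (.e (nat_lit 335988) (nat_lit 1) (.e (nat_lit 57691) (nat_lit 156) .nil))))) .nil)))) (.nd (nat_lit 5) (.nd (nat_lit 6) 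
(.lf (nat_lit 215186) (.g (nat_lit 2879) (.e (nat_lit 90170) (nat_lit 13) (.e (nat_lit 172067) (nat_lit 3) (.e (nat_lit 204830) (nat_lit 18) (.e (nat_lit 57692) (nat_lit 156) (.e (nat_lit 163869) (nat_lit 2) (.e (nat_lit 196661) (nat_lit 12) (.e (nat_lit 57549) (nat_lit 48) (.e (nat_lit 720940) (nat_lit 22) .nil)))))))) (.g (nat_lit 4) .nil .nil))) 
(.lf (nat_lit 215250) (.g (nat_lit 2431) (.e (nat_lit 90170) (nat_lit 13) (.e (nat_lit 172095) (nat_lit 9) (.e (nat_lit 426125) (nat_lit 2) (.e (nat_lit 196661) (nat_lit 12) (.e (nat_lit 57711) (nat_lit 176) .nil))))) .nil))) (.nd (nat_lit 6) 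
(.lf (nat_lit 215218) (.g (nat_lit 2373) (.e (nat_lit 90170) (nat_lit 13) (.e (nat_lit 172085) (nat_lit 9) (.e (nat_lit 426140) (nat_lit 3) (.e (nat_lit 204846) (nat_lit 24) (.e (nat_lit 319504) (nat_lit 10) .nil))))) .nil)) 
(.lf (nat_lit 215282) (.g (nat_lit 431) (.e (nat_lit 90170) (nat_lit 13) (.e (nat_lit 172106) (nat_lit 10) (.e (nat_lit 434200) (nat_lit 18) .nil))) .nil))))) (.nd (nat_lit 4) (.nd (nat_lit 5) (.nd (nat_lit 6) 
(.lf (nat_lit 215178) (.g (nat_lit 5366) (.e (nat_lit 90170) (nat_lit 13) (.e (nat_lit 172067) (nat_lit 3) (.e (nat_lit 204829) (nat_lit 18) (.e (nat_lit 57692) (nat_lit 156) (.e (nat_lit 163874) (nat_lit 3) (.e (nat_lit 204834) (nat_lit 19) (.e (nat_lit 106517) (nat_lit 9) (.e (nat_lit 1237) (nat_lit 91) .nil)))))))) (.g (nat_lit 5) .nil .nil))) 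
(.lf (nat_lit 215242) (.g (nat_lit 3059) (.e (nat_lit 90170) (nat_lit 13) (.e (nat_lit 172094) (nat_lit 9) (.e (nat_lit 426140) (nat_lit 3) (.e (nat_lit 204846) (nat_lit 24) (.e (nat_lit 319504) (nat_lit 10) .nil))))) .nil))) (.nd (nat_lit 6) 
(.lf (nat_lit 215210) (.g (nat_lit 338) (.e (nat_lit 90170) (nat_lit 13) (.e (nat_lit 172082) (nat_lit 7) (.e (nat_lit 409612) (nat_lit 10) .nil))) .nil)) 
(.lf (nat_lit 215274) (.g (nat_lit 2355) (.e (nat_lit 90170) (nat_lit 13) (.e (nat_lit 172097) (nat_lit 9) (.e (nat_lit 426140) (nat_lit 3) (.e (nat_lit 204845) (nat_lit 24) (.e (nat_lit 319505) (nat_lit 10) .nil))))) .nil)))) (.nd (nat_lit 5) (.nd (nat_lit 6) 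
(.lf (nat_lit 215194) (.g (nat_lit 533) (.e (nat_lit 90170) (nat_lit 13) (.e (nat_lit 172067) (nat_lit 3) (.e (nat_lit 204834) (nat_lit 19) .nil))) .nil)) 
(.lf (nat_lit 215258) (.g (nat_lit 2157) (.e (nat_lit 90170) (nat_lit 13) (.e (nat_lit 172095) (nat_lit 9) (.e (nat_lit 426140) (nat_lit 3) (.e (nat_lit 204845) (nat_lit 24) (.e (nat_lit 319535) (nat_lit 17) .nil))))) .nil))) (.nd (nat_lit 6) 
(.lf (nat_lit 215226) (.g (nat_lit 3212) (.e (nat_lit 90170) (nat_lit 13) (.e (nat_lit 172094) (nat_lit 9) (.e (nat_lit 426125) (nat_lit 2) (.e (nat_lit 196625) (nat_lit 9) (.e (nat_lit 1401) (nat_lit 106) .nil))))) .nil)) 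
(.lf (nat_lit 215290) (.g (nat_lit 3724) (.e (nat_lit 90170) (nat_lit 13) (.e (nat_lit 172106) (nat_lit 10) (.e (nat_lit 434202) (nat_lit 18) (.e (nat_lit 6828) (nat_lit 367) (.e (nat_lit 57400) (nat_lit 10) (.e (nat_lit 319490) (nat_lit 0) (.e (nat_lit 5629) (nat_lit 312) (.e (nat_lit 100) (nat_lit 2) .nil)))))))) (.g (nat_lit 6) .nil .nil))))))) 
(.nd (nat_lit 3) (.nd (nat_lit 4) (.nd (nat_lit 5) (.nd (nat_lit 6) 
(.lf (nat_lit 215174) (.g (nat_lit 2753) (.e (nat_lit 90170) (nat_lit 13) (.e (nat_lit 172067) (nat_lit 3) (.e (nat_lit 204829) (nat_lit 18) (.e (nat_lit 57692) (nat_lit 156) (.e (nat_lit 163870) (nat_lit 2) (.e (nat_lit 196661) (nat_lit 12) (.e (nat_lit 57549) (nat_lit 48) (.e (nat_lit 720940) (nat_lit 22) .nil)))))))) (.g (nat_lit 4) .nil .nil))) 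
(.lf (nat_lit 215238) (.g (nat_lit 3384) (.e (nat_lit 90170) (nat_lit 13) (.e (nat_lit 172094) (nat_lit 9) (.e (nat_lit 426125) (nat_lit 2) (.e (nat_lit 196661) (nat_lit 12) (.e (nat_lit 57721) (nat_lit 177) .nil))))) .nil))) (.nd (nat_lit 6) 
(.lf (nat_lit 215206) (.g (nat_lit 4799) (.e (nat_lit 90170) (nat_lit 13) (.e (nat_lit 172067) (nat_lit 3) (.e (nat_lit 204838) (nat_lit 20) (.e (nat_lit 114719) (nat_lit 23) (.e (nat_lit 98335) (nat_lit 18) (.e (nat_lit 164403) (nat_lit 256) (.e (nat_lit 57373) (nat_lit 2) .nil))))))) (.g (nat_lit 7) .nil .nil))) 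
(.lf (nat_lit 215270) (.g (nat_lit 1561) (.e (nat_lit 90170) (nat_lit 13) (.e (nat_lit 172097) (nat_lit 9) (.e (nat_lit 426125) (nat_lit 2) (.e (nat_lit 196661) (nat_lit 12) (.e (nat_lit 57722) (nat_lit 178) .nil))))) .nil)))) (.nd (nat_lit 5) (.nd (nat_lit 6) 
(.lf (nat_lit 215190) (.g (nat_lit 2970) (.e (nat_lit 90170) (nat_lit 13) (.e (nat_lit 172067) (nat_lit 3) (.e (nat_lit 204830) (nat_lit 18) (.e (nat_lit 57692) (nat_lit 156) (.e (nat_lit 163875) (nat_lit 3) (.e (nat_lit 204817) (nat_lit 17) (.e (nat_lit 2198) (nat_lit 144) (.e (nat_lit 720940) (nat_lit 22) .nil)))))))) (.g (nat_lit 4) .nil .nil))) 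
(.lf (nat_lit 215254) (.g (nat_lit 2576) (.e (nat_lit 90170) (nat_lit 13) (.e (nat_lit 172095) (nat_lit 9) (.e (nat_lit 426125) (nat_lit 2) (.e (nat_lit 196661) (nat_lit 12) (.e (nat_lit 57721) (nat_lit 177) .nil))))) .nil))) (.nd (nat_lit 6) 
(.lf (nat_lit 215222) (.g (nat_lit 1997) (.e (nat_lit 90170) (nat_lit 13) (.e (nat_lit 172087) (nat_lit 9) (.e (nat_lit 426436) (nat_lit 18) (.e (nat_lit 98341) (nat_lit 20) (.e (nat_lit 221193) (nat_lit 11) (.e (nat_lit 336010) (nat_lit 2) .nil)))))) (.g (nat_lit 4) .nil .nil))) 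
(.lf (nat_lit 215286) (.g (nat_lit 3178) (.e (nat_lit 90170) (nat_lit 13) (.e (nat_lit 172106) (nat_lit 10) (.e (nat_lit 434202) (nat_lit 18) (.e (nat_lit 6420) (nat_lit 341) (.e (nat_lit 163843) (nat_lit 0) (.e (nat_lit 3774) (nat_lit 229) (.e (nat_lit 794680) (nat_lit 24) (.e (nat_lit 220928) (nat_lit 0) (.e (nat_lit 1237) (nat_lit 91) .nil))))))))) (.g (nat_lit 5) .nil .nil)))))) 
(.nd (nat_lit 4) (.nd (nat_lit 5) (.nd (nat_lit 6) 
(.lf (nat_lit 215182) (.g (nat_lit 2992) (.e (nat_lit 90170) (nat_lit 13) (.e (nat_lit 172067) (nat_lit 3) (.e (nat_lit 204830) (nat_lit 18) (.e (nat_lit 57691) (nat_lit 156) (.e (nat_lit 163871) (nat_lit 2) (.e (nat_lit 196677) (nat_lit 16) (.e (nat_lit 122969) (nat_lit 48) (.e (nat_lit 720940) (nat_lit 22) .nil)))))))) (.g (nat_lit 4) .nil .nil))) 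
(.lf (nat_lit 215246) (.g (nat_lit 3517) (.e (nat_lit 90170) (nat_lit 13) (.e (nat_lit 172095) (nat_lit 9) (.e (nat_lit 426125) (nat_lit 2) (.e (nat_lit 196630) (nat_lit 9) (.e (nat_lit 1393) (nat_lit 106) .nil))))) .nil))) (.nd (nat_lit 6) 
(.lf (nat_lit 215214) (.g (nat_lit 1125) (.e (nat_lit 90170) (nat_lit 13) (.e (nat_lit 172085) (nat_lit 9) (.e (nat_lit 426125) (nat_lit 2) (.e (nat_lit 196661) (nat_lit 12) .nil)))) .nil)) 
(.lf (nat_lit 215278) (.g (nat_lit 2414) (.e (nat_lit 90170) (nat_lit 13) (.e (nat_lit 172097) (nat_lit 9) (.e (nat_lit 426140) (nat_lit 3) (.e (nat_lit 204846) (nat_lit 24) (.e (nat_lit 319505) (nat_lit 10) .nil))))) .nil)))) (.nd (nat_lit 5) (.nd (nat_lit 6) 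
(.lf (nat_lit 215198) (.g (nat_lit 3373) (.e (nat_lit 90170) (nat_lit 13) (.e (nat_lit 172067) (nat_lit 3) (.e (nat_lit 204837) (nat_lit 20) (.e (nat_lit 114714) (nat_lit 22) (.e (nat_lit 90162) (nat_lit 12) (.e (nat_lit 164007) (nat_lit 41) (.e (nat_lit 671488) (nat_lit 0) (.e (nat_lit 1237) (nat_lit 91) .nil)))))))) (.g (nat_lit 4) .nil .nil))) 
(.lf (nat_lit 215262) (.g (nat_lit 2335) (.e (nat_lit 90170) (nat_lit 13) (.e (nat_lit 172095) (nat_lit 9) (.e (nat_lit 426140) (nat_lit 3) (.e (nat_lit 204846) (nat_lit 24) (.e (nat_lit 327424) (nat_lit 16) .nil))))) .nil))) (.nd (nat_lit 6) 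
(.lf (nat_lit 215230) (.g (nat_lit 4107) (.e (nat_lit 90170) (nat_lit 13) (.e (nat_lit 172094) (nat_lit 9) (.e (nat_lit 426125) (nat_lit 2) (.e (nat_lit 196630) (nat_lit 9) (.e (nat_lit 1393) (nat_lit 106) .nil))))) .nil)) 
(.lf (nat_lit 215294) (.g (nat_lit 325) (.e (nat_lit 90170) (nat_lit 13) (.e (nat_lit 172106) (nat_lit 10) (.e (nat_lit 434219) (nat_lit 19) .nil))) .nil)))))))) (.nd (nat_lit 1) (.nd (nat_lit 2) (.nd (nat_lit 3) (.nd (nat_lit 4) (.nd (nat_lit 5) (.nd (nat_lit 6) 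
(.lf (nat_lit 215169) (.g (nat_lit 2804) (.e (nat_lit 90170) (nat_lit 13) (.e (nat_lit 172067) (nat_lit 3) (.e (nat_lit 204829) (nat_lit 18) (.e (nat_lit 57692) (nat_lit 156) (.e (nat_lit 163869) (nat_lit 2) (.e (nat_lit 196658) (nat_lit 12) (.e (nat_lit 57550) (nat_lit 48) (.e (nat_lit 720939) (nat_lit 22) .nil)))))))) (.g (nat_lit 4) .nil .nil))) 
(.lf (nat_lit 215233) (.g (nat_lit 4204) (.e (nat_lit 90170) (nat_lit 13) (.e (nat_lit 172094) (nat_lit 9) (.e (nat_lit 426125) (nat_lit 2) (.e (nat_lit 196630) (nat_lit 9) (.e (nat_lit 1394) (nat_lit 106) .nil))))) .nil))) (.nd (nat_lit 6) 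
(.lf (nat_lit 215201) (.g (nat_lit 452) (.e (nat_lit 90170) (nat_lit 13) (.e (nat_lit 172067) (nat_lit 3) (.e (nat_lit 204838) (nat_lit 20) .nil))) .nil)) 
(.lf (nat_lit 215265) (.g (nat_lit 253) (.e (nat_lit 90170) (nat_lit 13) (.e (nat_lit 172095) (nat_lit 9) (.e (nat_lit 433920) (nat_lit 18) .nil))) .nil)))) (.nd (nat_lit 5) (.nd (nat_lit 6) 
(.lf (nat_lit 215185) (.g (nat_lit 2968) (.e (nat_lit 90170) (nat_lit 13) (.e (nat_lit 172067) (nat_lit 3) (.e (nat_lit 204830) (nat_lit 18) (.e (nat_lit 57691) (nat_lit 156) (.e (nat_lit 163875) (nat_lit 3) (.e (nat_lit 204822) (nat_lit 17) (.e (nat_lit 2184) (nat_lit 144) (.e (nat_lit 720940) (nat_lit 22) .nil)))))))) (.g (nat_lit 4) .nil .nil))) 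
(.lf (nat_lit 215249) (.g (nat_lit 1117) (.e (nat_lit 90170) (nat_lit 13) (.e (nat_lit 172095) (nat_lit 9) (.e (nat_lit 426125) (nat_lit 2) (.e (nat_lit 196661) (nat_lit 12) .nil)))) .nil))) (.nd (nat_lit 6) 
(.lf (nat_lit 215217) (.g (nat_lit 933) (.e (nat_lit 90170) (nat_lit 13) (.e (nat_lit 172085) (nat_lit 9) (.e (nat_lit 426140) (nat_lit 3) (.e (nat_lit 204821) (nat_lit 17) .nil)))) .nil)) 
(.lf (nat_lit 215281) (.g (nat_lit 1700) (.e (nat_lit 90170) (nat_lit 13) (.e (nat_lit 172105) (nat_lit 10) (.e (nat_lit 434231) (nat_lit 23) (.e (nat_lit 532523) (nat_lit 7) (.e (nat_lit 319533) (nat_lit 16) .nil))))) .nil))))) (.nd (nat_lit 4) (.nd (nat_lit 5) (.nd (nat_lit 6) 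
(.lf (nat_lit 215177) (.g (nat_lit 2818) (.e (nat_lit 90170) (nat_lit 13) (.e (nat_lit 172067) (nat_lit 3) (.e (nat_lit 204829) (nat_lit 18) (.e (nat_lit 57692) (nat_lit 156) (.e (nat_lit 163871) (nat_lit 2) (.e (nat_lit 196677) (nat_lit 16) (.e (nat_lit 130816) (nat_lit 48) (.e (nat_lit 720940) (nat_lit 22) .nil)))))))) (.g (nat_lit 4) .nil .nil))) 
(.lf (nat_lit 215241) (.g (nat_lit 1159) (.e (nat_lit 90170) (nat_lit 13) (.e (nat_lit 172094) (nat_lit 9) (.e (nat_lit 426140) (nat_lit 3) (.e (nat_lit 204846) (nat_lit 24) .nil)))) .nil))) (.nd (nat_lit 6) 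
(.lf (nat_lit 215209) (.g (nat_lit 465) (.e (nat_lit 90170) (nat_lit 13) (.e (nat_lit 172082) (nat_lit 7) (.e (nat_lit 409610) (nat_lit 10) .nil))) .nil)) 
(.lf (nat_lit 215273) (.g (nat_lit 1384) (.e (nat_lit 90170) (nat_lit 13) (.e (nat_lit 172097) (nat_lit 9) (.e (nat_lit 426140) (nat_lit 3) (.e (nat_lit 204845) (nat_lit 24) .nil)))) .nil)))) (.nd (nat_lit 5) (.nd (nat_lit 6) 
(.lf (nat_lit 215193) (.g (nat_lit 765) (.e (nat_lit 90170) (nat_lit 13) (.e (nat_lit 172067) (nat_lit 3) (.e (nat_lit 204833) (nat_lit 19) .nil))) .nil)) 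
(.lf (nat_lit 215257) (.g (nat_lit 1056) (.e (nat_lit 90170) (nat_lit 13) (.e (nat_lit 172095) (nat_lit 9) (.e (nat_lit 426140) (nat_lit 3) (.e (nat_lit 204845) (nat_lit 24) .nil)))) .nil))) (.nd (nat_lit 6) 
(.lf (nat_lit 215225) (.g (nat_lit 2336) (.e (nat_lit 90170) (nat_lit 13) (.e (nat_lit 172094) (nat_lit 9) (.e (nat_lit 426125) (nat_lit 2) (.e (nat_lit 196615) (nat_lit 0) .nil)))) .nil)) 
(.lf (nat_lit 215289) (.g (nat_lit 2628) (.e (nat_lit 90170) (nat_lit 13) (.e (nat_lit 172106) (nat_lit 10) (.e (nat_lit 434202) (nat_lit 18) (.e (nat_lit 6420) (nat_lit 341) (.e (nat_lit 163885) (nat_lit 5) (.e (nat_lit 221218) (nat_lit 24) (.e (nat_lit 220928) (nat_lit 0) (.e (nat_lit 1237) (nat_lit 91) .nil)))))))) (.g (nat_lit 5) .nil .nil))))))) 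
(.nd (nat_lit 3) (.nd (nat_lit 4) (.nd (nat_lit 5) (.nd (nat_lit 6) 
(.lf (nat_lit 215173) (.g (nat_lit 2747) (.e (nat_lit 90170) (nat_lit 13) (.e (nat_lit 172067) (nat_lit 3) (.e (nat_lit 204829) (nat_lit 18) (.e (nat_lit 57692) (nat_lit 156) (.e (nat_lit 163869) (nat_lit 2) (.e (nat_lit 196677) (nat_lit 16) (.e (nat_lit 130816) (nat_lit 48) (.e (nat_lit 720940) (nat_lit 22) .nil)))))))) (.g (nat_lit 4) .nil .nil))) 
(.lf (nat_lit 215237) (.g (nat_lit 3220) (.e (nat_lit 90170) (nat_lit 13) (.e (nat_lit 172094) (nat_lit 9) (.e (nat_lit 426125) (nat_lit 2) (.e (nat_lit 196661) (nat_lit 12) (.e (nat_lit 57711) (nat_lit 176) .nil))))) .nil))) (.nd (nat_lit 6) 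
(.lf (nat_lit 215205) (.g (nat_lit 4972) (.e (nat_lit 90170) (nat_lit 13) (.e (nat_lit 172067) (nat_lit 3) (.e (nat_lit 204838) (nat_lit 20) (.e (nat_lit 114719) (nat_lit 23) (.e (nat_lit 98334) (nat_lit 18) (.e (nat_lit 164403) (nat_lit 256) (.e (nat_lit 57373) (nat_lit 2) .nil))))))) (.g (nat_lit 7) .nil .nil))) 
(.lf (nat_lit 215269) (.g (nat_lit 1005) (.e (nat_lit 90170) (nat_lit 13) (.e (nat_lit 172097) (nat_lit 9) (.e (nat_lit 426125) (nat_lit 2) (.e (nat_lit 196661) (nat_lit 12) .nil)))) .nil)))) (.nd (nat_lit 5) (.nd (nat_lit 6) 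
(.lf (nat_lit 215189) (.g (nat_lit 4699) (.e (nat_lit 90170) (nat_lit 13) (.e (nat_lit 172067) (nat_lit 3) (.e (nat_lit 204830) (nat_lit 18) (.e (nat_lit 57692) (nat_lit 156) (.e (nat_lit 163874) (nat_lit 3) (.e (nat_lit 204834) (nat_lit 19) (.e (nat_lit 106517) (nat_lit 9) (.e (nat_lit 1237) (nat_lit 91) .nil)))))))) (.g (nat_lit 5) .nil .nil))) 
(.lf (nat_lit 215253) (.g (nat_lit 2566) (.e (nat_lit 90170) (nat_lit 13) (.e (nat_lit 172095) (nat_lit 9) (.e (nat_lit 426125) (nat_lit 2) (.e (nat_lit 196661) (nat_lit 12) (.e (nat_lit 57714) (nat_lit 176) .nil))))) .nil))) (.nd (nat_lit 6) 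
(.lf (nat_lit 215221) (.g (nat_lit 4293) (.e (nat_lit 90170) (nat_lit 13) (.e (nat_lit 172085) (nat_lit 9) (.e (nat_lit 426566) (nat_lit 34) (.e (nat_lit 393253) (nat_lit 18) (.e (nat_lit 164403) (nat_lit 256) (.e (nat_lit 57373) (nat_lit 2) .nil)))))) (.g (nat_lit 4) .nil .nil))) 
(.lf (nat_lit 215285) (.g (nat_lit 2391) (.e (nat_lit 90170) (nat_lit 13) (.e (nat_lit 172106) (nat_lit 10) (.e (nat_lit 434202) (nat_lit 18) (.e (nat_lit 6416) (nat_lit 341) (.e (nat_lit 163884) (nat_lit 5) (.e (nat_lit 221217) (nat_lit 24) (.e (nat_lit 220928) (nat_lit 0) (.e (nat_lit 1237) (nat_lit 91) .nil)))))))) (.g (nat_lit 4) .nil .nil)))))) 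
(.nd (nat_lit 4) (.nd (nat_lit 5) (.nd (nat_lit 6) 
(.lf (nat_lit 215181) (.g (nat_lit 2665) (.e (nat_lit 90170) (nat_lit 13) (.e (nat_lit 172067) (nat_lit 3) (.e (nat_lit 204830) (nat_lit 18) (.e (nat_lit 57691) (nat_lit 156) (.e (nat_lit 163870) (nat_lit 2) (.e (nat_lit 196661) (nat_lit 12) (.e (nat_lit 57549) (nat_lit 48) (.e (nat_lit 720940) (nat_lit 22) .nil)))))))) (.g (nat_lit 4) .nil .nil))) 
(.lf (nat_lit 215245) (.g (nat_lit 3225) (.e (nat_lit 90170) (nat_lit 13) (.e (nat_lit 172094) (nat_lit 9) (.e (nat_lit 426140) (nat_lit 3) (.e (nat_lit 204846) (nat_lit 24) (.e (nat_lit 319530) (nat_lit 16) .nil))))) .nil))) (.nd (nat_lit 6) 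
(.lf (nat_lit 215213) (.g (nat_lit 3167) (.e (nat_lit 90170) (nat_lit 13) (.e (nat_lit 172082) (nat_lit 7) (.e (nat_lit 409617) (nat_lit 10) (.e (nat_lit 632) (nat_lit 50) (.e (nat_lit 573478) (nat_lit 12) (.e (nat_lit 57520) (nat_lit 44) (.e (nat_lit 688177) (nat_lit 16) (.e (nat_lit 65566) (nat_lit 2) .nil)))))))) (.g (nat_lit 4) .nil .nil))) 
(.lf (nat_lit 215277) (.g (nat_lit 2636) (.e (nat_lit 90170) (nat_lit 13) (.e (nat_lit 172097) (nat_lit 9) (.e (nat_lit 426140) (nat_lit 3) (.e (nat_lit 204846) (nat_lit 24) (.e (nat_lit 319504) (nat_lit 10) .nil))))) .nil)))) (.nd (nat_lit 5) (.nd (nat_lit 6) 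
(.lf (nat_lit 215197) (.g (nat_lit 446) (.e (nat_lit 90170) (nat_lit 13) (.e (nat_lit 172067) (nat_lit 3) (.e (nat_lit 204837) (nat_lit 20) .nil))) .nil)) 
(.lf (nat_lit 215261) (.g (nat_lit 2266) (.e (nat_lit 90170) (nat_lit 13) (.e (nat_lit 172095) (nat_lit 9) (.e (nat_lit 426140) (nat_lit 3) (.e (nat_lit 204846) (nat_lit 24) (.e (nat_lit 319511) (nat_lit 10) .nil))))) .nil))) (.nd (nat_lit 6) 
(.lf (nat_lit 215229) (.g (nat_lit 1989) (.e (nat_lit 90170) (nat_lit 13) (.e (nat_lit 172094) (nat_lit 9) (.e (nat_lit 426125) (nat_lit 2) (.e (nat_lit 196630) (nat_lit 9) .nil)))) .nil)) 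
(.lf (nat_lit 215293) (.g (nat_lit 3729) (.e (nat_lit 90170) (nat_lit 13) (.e (nat_lit 172106) (nat_lit 10) (.e (nat_lit 434209) (nat_lit 18) (.e (nat_lit 6391) (nat_lit 339) (.e (nat_lit 57389) (nat_lit 5) (.e (nat_lit 122624) (nat_lit 11) (.e (nat_lit 426427) (nat_lit 17) .nil))))))) (.g (nat_lit 4) .nil .nil)))))))) 
(.nd (nat_lit 2) (.nd (nat_lit 3) (.nd (nat_lit 4) (.nd (nat_lit 5) (.nd (nat_lit 6) 
(.lf (nat_lit 215171) (.g (nat_lit 2872) (.e (nat_lit 90170) (nat_lit 13) (.e (nat_lit 172067) (nat_lit 3) (.e (nat_lit 204829) (nat_lit 18) (.e (nat_lit 57692) (nat_lit 156) (.e (nat_lit 163869) (nat_lit 2) (.e (nat_lit 196660) (nat_lit 12) (.e (nat_lit 57550) (nat_lit 48) (.e (nat_lit 720939) (nat_lit 22) .nil)))))))) (.g (nat_lit 4) .nil .nil))) 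
(.lf (nat_lit 215235) (.g (nat_lit 3936) (.e (nat_lit 90170) (nat_lit 13) (.e (nat_lit 172094) (nat_lit 9) (.e (nat_lit 426125) (nat_lit 2) (.e (nat_lit 196630) (nat_lit 9) (.e (nat_lit 1401) (nat_lit 106) .nil))))) .nil))) (.nd (nat_lit 6) 
(.lf (nat_lit 215203) (.g (nat_lit 4328) (.e (nat_lit 90170) (nat_lit 13) (.e (nat_lit 172067) (nat_lit 3) (.e (nat_lit 204838) (nat_lit 20) (.e (nat_lit 114718) (nat_lit 23) (.e (nat_lit 98334) (nat_lit 18) (.e (nat_lit 164380) (nat_lit 254) (.e (nat_lit 1028) (nat_lit 81) (.e (nat_lit 1237) (nat_lit 91) .nil)))))))) (.g (nat_lit 5) .nil .nil))) 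
(.lf (nat_lit 215267) (.g (nat_lit 3186) (.e (nat_lit 90170) (nat_lit 13) (.e (nat_lit 172095) (nat_lit 9) (.e (nat_lit 426513) (nat_lit 27) (.e (nat_lit 335996) (nat_lit 1) (.e (nat_lit 57692) (nat_lit 156) (.e (nat_lit 163906) (nat_lit 12) (.e (nat_lit 426428) (nat_lit 17) .nil))))))) (.g (nat_lit 5) .nil .nil))))) (.nd (nat_lit 5) (.nd (nat_lit 6) 
(.lf (nat_lit 215187) (.g (nat_lit 2804) (.e (nat_lit 90170) (nat_lit 13) (.e (nat_lit 172067) (nat_lit 3) (.e (nat_lit 204830) (nat_lit 18) (.e (nat_lit 57692) (nat_lit 156) (.e (nat_lit 163871) (nat_lit 2) (.e (nat_lit 196677) (nat_lit 16) (.e (nat_lit 122969) (nat_lit 48) (.e (nat_lit 720940) (nat_lit 22) .nil)))))))) (.g (nat_lit 4) .nil .nil))) 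
(.lf (nat_lit 215251) (.g (nat_lit 2751) (.e (nat_lit 90170) (nat_lit 13) (.e (nat_lit 172095) (nat_lit 9) (.e (nat_lit 426125) (nat_lit 2) (.e (nat_lit 196661) (nat_lit 12) (.e (nat_lit 57711) (nat_lit 176) (.e (nat_lit 1367) (nat_lit 103) (.e (nat_lit 294927) (nat_lit 2) .nil))))))) (.g (nat_lit 4) .nil .nil)))) (.nd (nat_lit 6) 
(.lf (nat_lit 215219) (.g (nat_lit 1727) (.e (nat_lit 90170) (nat_lit 13) (.e (nat_lit 172085) (nat_lit 9) (.e (nat_lit 426537) (nat_lit 28) (.e (nat_lit 344174) (nat_lit 42) (.e (nat_lit 761906) (nat_lit 16) (.e (nat_lit 179968) (nat_lit 17) .nil)))))) (.g (nat_lit 4) .nil .nil))) 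
(.lf (nat_lit 215283) (.g (nat_lit 989) (.e (nat_lit 90170) (nat_lit 13) (.e (nat_lit 172106) (nat_lit 10) (.e (nat_lit 434200) (nat_lit 18) (.e (nat_lit 6595) (nat_lit 351) .nil)))) .nil))))) (.nd (nat_lit 4) (.nd (nat_lit 5) (.nd (nat_lit 6) 
(.lf (nat_lit 215179) (.g (nat_lit 3590) (.e (nat_lit 90170) (nat_lit 13) (.e (nat_lit 172067) (nat_lit 3) (.e (nat_lit 204829) (nat_lit 18) (.e (nat_lit 57692) (nat_lit 156) (.e (nat_lit 163875) (nat_lit 3) (.e (nat_lit 204834) (nat_lit 19) (.e (nat_lit 106517) (nat_lit 9) (.e (nat_lit 1237) (nat_lit 91) .nil)))))))) (.g (nat_lit 4) .nil .nil))) 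
(.lf (nat_lit 215243) (.g (nat_lit 2552) (.e (nat_lit 90170) (nat_lit 13) (.e (nat_lit 172094) (nat_lit 9) (.e (nat_lit 426140) (nat_lit 3) (.e (nat_lit 204846) (nat_lit 24) (.e (nat_lit 319505) (nat_lit 10) .nil))))) .nil))) (.nd (nat_lit 6) 
(.lf (nat_lit 215211) (.g (nat_lit 937) (.e (nat_lit 90170) (nat_lit 13) (.e (nat_lit 172082) (nat_lit 7) (.e (nat_lit 409612) (nat_lit 10) (.e (nat_lit 547) (nat_lit 41) .nil)))) .nil)) 
(.lf (nat_lit 215275) (.g (nat_lit 2248) (.e (nat_lit 90170) (nat_lit 13) (.e (nat_lit 172097) (nat_lit 9) (.e (nat_lit 426140) (nat_lit 3) (.e (nat_lit 204845) (nat_lit 24) (.e (nat_lit 319536) (nat_lit 17) .nil))))) .nil)))) (.nd (nat_lit 5) (.nd (nat_lit 6) 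
(.lf (nat_lit 215195) (.g (nat_lit 3032) (.e (nat_lit 90170) (nat_lit 13) (.e (nat_lit 172067) (nat_lit 3) (.e (nat_lit 204834) (nat_lit 19) (.e (nat_lit 106537) (nat_lit 12) (.e (nat_lit 57479) (nat_lit 28) (.e (nat_lit 557094) (nat_lit 12) (.e (nat_lit 164056) (nat_lit 56) (.e (nat_lit 786455) (nat_lit 17) .nil)))))))) (.g (nat_lit 5) .nil .nil))) 
(.lf (nat_lit 215259) (.g (nat_lit 2395) (.e (nat_lit 90170) (nat_lit 13) (.e (nat_lit 172095) (nat_lit 9) (.e (nat_lit 426140) (nat_lit 3) (.e (nat_lit 204846) (nat_lit 24) (.e (nat_lit 319504) (nat_lit 10) .nil))))) .nil))) (.nd (nat_lit 6) 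
(.lf (nat_lit 215227) (.g (nat_lit 2603) (.e (nat_lit 90170) (nat_lit 13) (.e (nat_lit 172094) (nat_lit 9) (.e (nat_lit 426125) (nat_lit 2) (.e (nat_lit 196626) (nat_lit 9) .nil)))) .nil)) 
(.lf (nat_lit 215291) (.g (nat_lit 2789) (.e (nat_lit 90170) (nat_lit 13) (.e (nat_lit 172106) (nat_lit 10) (.e (nat_lit 434202) (nat_lit 18) (.e (nat_lit 6830) (nat_lit 367) (.e (nat_lit 57354) (nat_lit 0) (.e (nat_lit 7936) (nat_lit 335) (.e (nat_lit 164358) (nat_lit 246) (.e (nat_lit 100) (nat_lit 2) .nil)))))))) (.g (nat_lit 4) .nil .nil))))))) 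
(.nd (nat_lit 3) (.nd (nat_lit 4) (.nd (nat_lit 5) (.nd (nat_lit 6) 
(.lf (nat_lit 215175) (.g (nat_lit 2659) (.e (nat_lit 90170) (nat_lit 13) (.e (nat_lit 172067) (nat_lit 3) (.e (nat_lit 204829) (nat_lit 18) (.e (nat_lit 57692) (nat_lit 156) (.e (nat_lit 163871) (nat_lit 2) (.e (nat_lit 196660) (nat_lit 12) (.e (nat_lit 57550) (nat_lit 48) (.e (nat_lit 720939) (nat_lit 22) .nil)))))))) (.g (nat_lit 4) .nil .nil))) 
(.lf (nat_lit 215239) (.g (nat_lit 2273) (.e (nat_lit 90170) (nat_lit 13) (.e (nat_lit 172094) (nat_lit 9) (.e (nat_lit 426125) (nat_lit 2) (.e (nat_lit 196700) (nat_lit 22) .nil)))) .nil))) (.nd (nat_lit 6) 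
(.lf (nat_lit 215207) (.g (nat_lit 764) (.e (nat_lit 90170) (nat_lit 13) (.e (nat_lit 172067) (nat_lit 3) (.e (nat_lit 204841) (nat_lit 22) .nil))) .nil)) 
(.lf (nat_lit 215271) (.g (nat_lit 1115) (.e (nat_lit 90170) (nat_lit 13) (.e (nat_lit 172097) (nat_lit 9) (.e (nat_lit 426140) (nat_lit 3) (.e (nat_lit 204821) (nat_lit 17) .nil)))) .nil)))) (.nd (nat_lit 5) (.nd (nat_lit 6) 
(.lf (nat_lit 215191) (.g (nat_lit 3614) (.e (nat_lit 90170) (nat_lit 13) (.e (nat_lit 172067) (nat_lit 3) (.e (nat_lit 204831) (nat_lit 18) (.e (nat_lit 57688) (nat_lit 156) (.e (nat_lit 163867) (nat_lit 2) (.e (nat_lit 196624) (nat_lit 9) (.e (nat_lit 1277) (nat_lit 94) (.e (nat_lit 114715) (nat_lit 22) .nil)))))))) (.g (nat_lit 4) .nil .nil))) 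
(.lf (nat_lit 215255) (.g (nat_lit 2858) (.e (nat_lit 90170) (nat_lit 13) (.e (nat_lit 172095) (nat_lit 9) (.e (nat_lit 426125) (nat_lit 2) (.e (nat_lit 196661) (nat_lit 12) (.e (nat_lit 57721) (nat_lit 177) (.e (nat_lit 57887) (nat_lit 270) (.e (nat_lit 1232) (nat_lit 91) .nil))))))) (.g (nat_lit 4) .nil .nil)))) (.nd (nat_lit 6) 
(.lf (nat_lit 215223) (.g (nat_lit 2013) (.e (nat_lit 90170) (nat_lit 13) (.e (nat_lit 172087) (nat_lit 9) (.e (nat_lit 426436) (nat_lit 18) (.e (nat_lit 98342) (nat_lit 20) (.e (nat_lit 221193) (nat_lit 11) (.e (nat_lit 336010) (nat_lit 2) .nil)))))) (.g (nat_lit 4) .nil .nil))) 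
(.lf (nat_lit 215287) (.g (nat_lit 3371) (.e (nat_lit 90170) (nat_lit 13) (.e (nat_lit 172106) (nat_lit 10) (.e (nat_lit 434202) (nat_lit 18) (.e (nat_lit 6420) (nat_lit 341) (.e (nat_lit 163885) (nat_lit 5) (.e (nat_lit 221198) (nat_lit 20) (.e (nat_lit 3744) (nat_lit 228) (.e (nat_lit 786454) (nat_lit 17) .nil)))))))) (.g (nat_lit 5) .nil .nil)))))) 
(.nd (nat_lit 4) (.nd (nat_lit 5) (.nd (nat_lit 6) 
(.lf (nat_lit 215183) (.g (nat_lit 2686) (.e (nat_lit 90170) (nat_lit 13) (.e (nat_lit 172067) (nat_lit 3) (.e (nat_lit 204830) (nat_lit 18) (.e (nat_lit 57691) (nat_lit 156) (.e (nat_lit 163874) (nat_lit 3) (.e (nat_lit 204817) (nat_lit 17) (.e (nat_lit 2198) (nat_lit 144) (.e (nat_lit 720940) (nat_lit 22) .nil)))))))) (.g (nat_lit 4) .nil .nil))) 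
(.lf (nat_lit 215247) (.g (nat_lit 3415) (.e (nat_lit 90170) (nat_lit 13) (.e (nat_lit 172095) (nat_lit 9) (.e (nat_lit 426125) (nat_lit 2) (.e (nat_lit 196630) (nat_lit 9) (.e (nat_lit 1395) (nat_lit 106) .nil))))) .nil))) (.nd (nat_lit 6) 
(.lf (nat_lit 215215) (.g (nat_lit 2720) (.e (nat_lit 90170) (nat_lit 13) (.e (nat_lit 172085) (nat_lit 9) (.e (nat_lit 426125) (nat_lit 2) (.e (nat_lit 196661) (nat_lit 12) (.e (nat_lit 57711) (nat_lit 176) .nil))))) .nil)) 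
(.lf (nat_lit 215279) (.g (nat_lit 2906) (.e (nat_lit 90170) (nat_lit 13) (.e (nat_lit 172097) (nat_lit 9) (.e (nat_lit 426140) (nat_lit 3) (.e (nat_lit 204846) (nat_lit 24) (.e (nat_lit 319511) (nat_lit 10) .nil))))) .nil)))) (.nd (nat_lit 5) (.nd (nat_lit 6) 
(.lf (nat_lit 215199) (.g (nat_lit 5149) (.e (nat_lit 90170) (nat_lit 13) (.e (nat_lit 172067) (nat_lit 3) (.e (nat_lit 204837) (nat_lit 20) (.e (nat_lit 114718) (nat_lit 23) (.e (nat_lit 98333) (nat_lit 18) (.e (nat_lit 164403) (nat_lit 256) (.e (nat_lit 57373) (nat_lit 2) .nil))))))) (.g (nat_lit 7) .nil .nil))) 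
(.lf (nat_lit 215263) (.g (nat_lit 314) (.e (nat_lit 90170) (nat_lit 13) (.e (nat_lit 172095) (nat_lit 9) (.e (nat_lit 426380) (nat_lit 15) .nil))) .nil))) (.nd (nat_lit 6) 
(.lf (nat_lit 215231) (.g (nat_lit 4282) (.e (nat_lit 90170) (nat_lit 13) (.e (nat_lit 172094) (nat_lit 9) (.e (nat_lit 426125) (nat_lit 2) (.e (nat_lit 196630) (nat_lit 9) (.e (nat_lit 1393) (nat_lit 106) (.e (nat_lit 319531) (nat_lit 16) (.e (nat_lit 286733) (nat_lit 2) .nil))))))) (.g (nat_lit 4) .nil .nil))) 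
(.lf (nat_lit 215295) (.g (nat_lit 1091) (.e (nat_lit 90170) (nat_lit 13) (.e (nat_lit 172106) (nat_lit 10) (.e (nat_lit 434219) (nat_lit 19) (.e (nat_lit 499965) (nat_lit 14) .nil)))) .nil)))))))))

noncomputable def tv2829 : DT := (.nd (nat_lit 0) (.nd (nat_lit 1) (.nd (nat_lit 2) (.nd (nat_lit 3) (.nd (nat_lit 4) (.nd (nat_lit 5) (.nd (nat_lit 6) 
(.lf (nat_lit 215296) (.g (nat_lit 448) (.e (nat_lit 90170) (nat_lit 13) (.e (nat_lit 172106) (nat_lit 10) (.e (nat_lit 434220) (nat_lit 19) .nil))) .nil)) 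
(.lf (nat_lit 215360) (.g (nat_lit 3260) (.e (nat_lit 90170) (nat_lit 13) (.e (nat_lit 172106) (nat_lit 10) (.e (nat_lit 434231) (nat_lit 23) (.e (nat_lit 532481) (nat_lit 0) (.e (nat_lit 1917) (nat_lit 130) .nil))))) .nil))) (.nd (nat_lit 6) 
(.lf (nat_lit 215328) (.g (nat_lit 3372) (.e (nat_lit 90170) (nat_lit 13) (.e (nat_lit 172106) (nat_lit 10) (.e (nat_lit 434231) (nat_lit 23) (.e (nat_lit 532481) (nat_lit 0) (.e (nat_lit 997) (nat_lit 81) .nil))))) .nil)) 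
(.lf (nat_lit 215392) (.g (nat_lit 3234) (.e (nat_lit 90170) (nat_lit 13) (.e (nat_lit 172106) (nat_lit 10) (.e (nat_lit 434231) (nat_lit 23) (.e (nat_lit 532482) (nat_lit 0) (.e (nat_lit 6229) (nat_lit 334) (.e (nat_lit 123205) (nat_lit 270) (.e (nat_lit 1232) (nat_lit 91) .nil))))))) (.g (nat_lit 6) .nil .nil))))) (.nd (nat_lit 5) (.nd (nat_lit 6) 
(.lf (nat_lit 215312) (.g (nat_lit 3371) (.e (nat_lit 90170) (nat_lit 13) (.e (nat_lit 172106) (nat_lit 10) (.e (nat_lit 434231) (nat_lit 23) (.e (nat_lit 532481) (nat_lit 0) (.e (nat_lit 984) (nat_lit 81) .nil))))) .nil)) 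
(.lf (nat_lit 215376) (.g (nat_lit 2374) (.e (nat_lit 90170) (nat_lit 13) (.e (nat_lit 172106) (nat_lit 10) (.e (nat_lit 434231) (nat_lit 23) (.e (nat_lit 532482) (nat_lit 0) (.e (nat_lit 971) (nat_lit 81) .nil))))) .nil))) (.nd (nat_lit 6) 
(.lf (nat_lit 215344) (.g (nat_lit 3682) (.e (nat_lit 90170) (nat_lit 13) (.e (nat_lit 172106) (nat_lit 10) (.e (nat_lit 434231) (nat_lit 23) (.e (nat_lit 532481) (nat_lit 0) (.e (nat_lit 1905) (nat_lit 129) (.e (nat_lit 605952) (nat_lit 5) (.e (nat_lit 1464) (nat_lit 108) (.e (nat_lit 336013) (nat_lit 2) .nil)))))))) (.g (nat_lit 5) .nil .nil))) 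
(.lf (nat_lit 215408) (.g (nat_lit 3489) (.e (nat_lit 90170) (nat_lit 13) (.e (nat_lit 172106) (nat_lit 10) (.e (nat_lit 434231) (nat_lit 23) (.e (nat_lit 532486) (nat_lit 0) (.e (nat_lit 6113) (nat_lit 332) (.e (nat_lit 7936) (nat_lit 103) (.e (nat_lit 294927) (nat_lit 2) .nil))))))) (.g (nat_lit 5) .nil .nil)))))) (.nd (nat_lit 4) (.nd (nat_lit 5) (.nd (nat_lit 6) 
(.lf (nat_lit 215304) (.g (nat_lit 3371) (.e (nat_lit 90170) (nat_lit 13) (.e (nat_lit 172106) (nat_lit 10) (.e (nat_lit 434231) (nat_lit 23) (.e (nat_lit 532481) (nat_lit 0) (.e (nat_lit 969) (nat_lit 81) .nil))))) .nil)) 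
(.lf (nat_lit 215368) (.g (nat_lit 3769) (.e (nat_lit 90170) (nat_lit 13) (.e (nat_lit 172106) (nat_lit 10) (.e (nat_lit 434231) (nat_lit 23) (.e (nat_lit 532481) (nat_lit 0) (.e (nat_lit 6192) (nat_lit 332) (.e (nat_lit 1348) (nat_lit 102) (.e (nat_lit 286732) (nat_lit 2) .nil))))))) (.g (nat_lit 4) .nil .nil)))) (.nd (nat_lit 6) 
(.lf (nat_lit 215336) (.g (nat_lit 3371) (.e (nat_lit 90170) (nat_lit 13) (.e (nat_lit 172106) (nat_lit 10) (.e (nat_lit 434231) (nat_lit 23) (.e (nat_lit 532481) (nat_lit 0) (.e (nat_lit 1007) (nat_lit 81) .nil))))) .nil)) 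
(.lf (nat_lit 215400) (.g (nat_lit 2434) (.e (nat_lit 90170) (nat_lit 13) (.e (nat_lit 172106) (nat_lit 10) (.e (nat_lit 434231) (nat_lit 23) (.e (nat_lit 532483) (nat_lit 0) (.e (nat_lit 1911) (nat_lit 129) (.e (nat_lit 598023) (nat_lit 5) (.e (nat_lit 1464) (nat_lit 108) (.e (nat_lit 336013) (nat_lit 2) .nil)))))))) (.g (nat_lit 4) .nil .nil))))) (.nd (nat_lit 5) (.nd (nat_lit 6) 
(.lf (nat_lit 215320) (.g (nat_lit 3332) (.e (nat_lit 90170) (nat_lit 13) (.e (nat_lit 172106) (nat_lit 10) (.e (nat_lit 434231) (nat_lit 23) (.e (nat_lit 532481) (nat_lit 0) (.e (nat_lit 996) (nat_lit 81) .nil))))) .nil)) 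
(.lf (nat_lit 215384) (.g (nat_lit 2261) (.e (nat_lit 90170) (nat_lit 13) (.e (nat_lit 172106) (nat_lit 10) (.e (nat_lit 434231) (nat_lit 23) (.e (nat_lit 532482) (nat_lit 0) (.e (nat_lit 1050) (nat_lit 81) .nil))))) .nil))) (.nd (nat_lit 6) 
(.lf (nat_lit 215352) (.g (nat_lit 3236) (.e (nat_lit 90170) (nat_lit 13) (.e (nat_lit 172106) (nat_lit 10) (.e (nat_lit 434231) (nat_lit 23) (.e (nat_lit 532481) (nat_lit 0) (.e (nat_lit 1912) (nat_lit 129) .nil))))) .nil)) 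
(.lf (nat_lit 215416) (.g (nat_lit 2584) (.e (nat_lit 90170) (nat_lit 13) (.e (nat_lit 172106) (nat_lit 10) (.e (nat_lit 434231) (nat_lit 23) (.e (nat_lit 532490) (nat_lit 0) (.e (nat_lit 982) (nat_lit 81) (.e (nat_lit 4460) (nat_lit 263) (.e (nat_lit 1079) (nat_lit 81) (.e (nat_lit 1448) (nat_lit 108) (.e (nat_lit 336013) (nat_lit 2) .nil))))))))) (.g (nat_lit 4) .nil .nil))))))) 
(.nd (nat_lit 3) (.nd (nat_lit 4) (.nd (nat_lit 5) (.nd (nat_lit 6) 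
(.lf (nat_lit 215300) (.g (nat_lit 4177) (.e (nat_lit 90170) (nat_lit 13) (.e (nat_lit 172106) (nat_lit 10) (.e (nat_lit 434230) (nat_lit 23) (.e (nat_lit 532523) (nat_lit 7) (.e (nat_lit 319504) (nat_lit 10) (.e (nat_lit 7936) (nat_lit 298) (.e (nat_lit 1237) (nat_lit 91) .nil))))))) (.g (nat_lit 5) .nil .nil))) 
(.lf (nat_lit 215364) (.g (nat_lit 4437) (.e (nat_lit 90170) (nat_lit 13) (.e (nat_lit 172106) (nat_lit 10) (.e (nat_lit 434231) (nat_lit 23) (.e (nat_lit 532481) (nat_lit 0) (.e (nat_lit 6084) (nat_lit 332) (.e (nat_lit 1367) (nat_lit 103) (.e (nat_lit 294927) (nat_lit 2) .nil))))))) (.g (nat_lit 4) .nil .nil)))) (.nd (nat_lit 6) 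
(.lf (nat_lit 215332) (.g (nat_lit 3580) (.e (nat_lit 90170) (nat_lit 13) (.e (nat_lit 172106) (nat_lit 10) (.e (nat_lit 434231) (nat_lit 23) (.e (nat_lit 532481) (nat_lit 0) (.e (nat_lit 997) (nat_lit 81) (.e (nat_lit 4528) (nat_lit 265) (.e (nat_lit 57404) (nat_lit 12) (.e (nat_lit 336013) (nat_lit 2) .nil)))))))) (.g (nat_lit 4) .nil .nil))) 
(.lf (nat_lit 215396) (.g (nat_lit 2355) (.e (nat_lit 90170) (nat_lit 13) (.e (nat_lit 172106) (nat_lit 10) (.e (nat_lit 434231) (nat_lit 23) (.e (nat_lit 532483) (nat_lit 0) (.e (nat_lit 1063) (nat_lit 81) .nil))))) .nil)))) (.nd (nat_lit 5) (.nd (nat_lit 6) 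
(.lf (nat_lit 215316) (.g (nat_lit 3734) (.e (nat_lit 90170) (nat_lit 13) (.e (nat_lit 172106) (nat_lit 10) (.e (nat_lit 434231) (nat_lit 23) (.e (nat_lit 532481) (nat_lit 0) (.e (nat_lit 984) (nat_lit 81) (.e (nat_lit 4440) (nat_lit 263) (.e (nat_lit 1296) (nat_lit 96) (.e (nat_lit 131093) (nat_lit 2) .nil)))))))) (.g (nat_lit 4) .nil .nil))) 
(.lf (nat_lit 215380) (.g (nat_lit 2252) (.e (nat_lit 90170) (nat_lit 13) (.e (nat_lit 172106) (nat_lit 10) (.e (nat_lit 434231) (nat_lit 23) (.e (nat_lit 532482) (nat_lit 0) (.e (nat_lit 976) (nat_lit 81) .nil))))) .nil))) (.nd (nat_lit 6) 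
(.lf (nat_lit 215348) (.g (nat_lit 3748) (.e (nat_lit 90170) (nat_lit 13) (.e (nat_lit 172106) (nat_lit 10) (.e (nat_lit 434231) (nat_lit 23) (.e (nat_lit 532481) (nat_lit 0) (.e (nat_lit 1906) (nat_lit 129) (.e (nat_lit 598043) (nat_lit 12) (.e (nat_lit 131093) (nat_lit 2) .nil))))))) (.g (nat_lit 4) .nil .nil))) 
(.lf (nat_lit 215412) (.g (nat_lit 4117) (.e (nat_lit 90170) (nat_lit 13) (.e (nat_lit 172106) (nat_lit 10) (.e (nat_lit 434231) (nat_lit 23) (.e (nat_lit 532486) (nat_lit 0) (.e (nat_lit 6218) (nat_lit 333) (.e (nat_lit 57883) (nat_lit 270) (.e (nat_lit 7936) (nat_lit 91) .nil))))))) (.g (nat_lit 6) .nil .nil)))))) (.nd (nat_lit 4) (.nd (nat_lit 5) (.nd (nat_lit 6) 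
(.lf (nat_lit 215308) (.g (nat_lit 3716) (.e (nat_lit 90170) (nat_lit 13) (.e (nat_lit 172106) (nat_lit 10) (.e (nat_lit 434231) (nat_lit 23) (.e (nat_lit 532481) (nat_lit 0) (.e (nat_lit 979) (nat_lit 81) (.e (nat_lit 4490) (nat_lit 263) (.e (nat_lit 1015) (nat_lit 81) (.e (nat_lit 1449) (nat_lit 108) (.e (nat_lit 336013) (nat_lit 2) .nil))))))))) (.g (nat_lit 4) .nil .nil))) 
(.lf (nat_lit 215372) (.g (nat_lit 3477) (.e (nat_lit 90170) (nat_lit 13) (.e (nat_lit 172106) (nat_lit 10) (.e (nat_lit 434231) (nat_lit 23) (.e (nat_lit 532481) (nat_lit 0) (.e (nat_lit 6229) (nat_lit 334) (.e (nat_lit 123205) (nat_lit 270) (.e (nat_lit 1232) (nat_lit 91) .nil))))))) (.g (nat_lit 4) .nil .nil)))) (.nd (nat_lit 6) 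
(.lf (nat_lit 215340) (.g (nat_lit 3371) (.e (nat_lit 90170) (nat_lit 13) (.e (nat_lit 172106) (nat_lit 10) (.e (nat_lit 434231) (nat_lit 23) (.e (nat_lit 532481) (nat_lit 0) (.e (nat_lit 1052) (nat_lit 81) .nil))))) .nil)) 
(.lf (nat_lit 215404) (.g (nat_lit 1936) (.e (nat_lit 90170) (nat_lit 13) (.e (nat_lit 172106) (nat_lit 10) (.e (nat_lit 434231) (nat_lit 23) (.e (nat_lit 532485) (nat_lit 0) .nil)))) .nil)))) (.nd (nat_lit 5) (.nd (nat_lit 6) 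
(.lf (nat_lit 215324) (.g (nat_lit 3385) (.e (nat_lit 90170) (nat_lit 13) (.e (nat_lit 172106) (nat_lit 10) (.e (nat_lit 434231) (nat_lit 23) (.e (nat_lit 532481) (nat_lit 0) (.e (nat_lit 996) (nat_lit 81) (.e (nat_lit 4464) (nat_lit 263) (.e (nat_lit 1077) (nat_lit 81) (.e (nat_lit 1463) (nat_lit 108) (.e (nat_lit 336013) (nat_lit 2) .nil))))))))) (.g (nat_lit 4) .nil .nil))) 
(.lf (nat_lit 215388) (.g (nat_lit 2252) (.e (nat_lit 90170) (nat_lit 13) (.e (nat_lit 172106) (nat_lit 10) (.e (nat_lit 434231) (nat_lit 23) (.e (nat_lit 532482) (nat_lit 0) (.e (nat_lit 1914) (nat_lit 130) .nil))))) .nil))) (.nd (nat_lit 6) 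
(.lf (nat_lit 215356) (.g (nat_lit 3371) (.e (nat_lit 90170) (nat_lit 13) (.e (nat_lit 172106) (nat_lit 10) (.e (nat_lit 434231) (nat_lit 23) (.e (nat_lit 532481) (nat_lit 0) (.e (nat_lit 1916) (nat_lit 130) .nil))))) .nil)) 
(.lf (nat_lit 215420) (.g (nat_lit 3502) (.e (nat_lit 90170) (nat_lit 13) (.e (nat_lit 172106) (nat_lit 10) (.e (nat_lit 434231) (nat_lit 23) (.e (nat_lit 532490) (nat_lit 0) (.e (nat_lit 989) (nat_lit 81) (.e (nat_lit 4435) (nat_lit 263) (.e (nat_lit 1296) (nat_lit 96) (.e (nat_lit 131091) (nat_lit 2) .nil)))))))) (.g (nat_lit 4) .nil .nil)))))))) 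
(.nd (nat_lit 2) (.nd (nat_lit 3) (.nd (nat_lit 4) (.nd (nat_lit 5) (.nd (nat_lit 6) 
(.lf (nat_lit 215298) (.g (nat_lit 361) (.e (nat_lit 90170) (nat_lit 13) (.e (nat_lit 172106) (nat_lit 10) (.e (nat_lit 434229) (nat_lit 22) .nil))) .nil)) 
(.lf (nat_lit 215362) (.g (nat_lit 3371) (.e (nat_lit 90170) (nat_lit 13) (.e (nat_lit 172106) (nat_lit 10) (.e (nat_lit 434231) (nat_lit 23) (.e (nat_lit 532481) (nat_lit 0) (.e (nat_lit 1919) (nat_lit 130) .nil))))) .nil))) (.nd (nat_lit 6) 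
(.lf (nat_lit 215330) (.g (nat_lit 3650) (.e (nat_lit 90170) (nat_lit 13) (.e (nat_lit 172106) (nat_lit 10) (.e (nat_lit 434231) (nat_lit 23) (.e (nat_lit 532481) (nat_lit 0) (.e (nat_lit 997) (nat_lit 81) (.e (nat_lit 4440) (nat_lit 263) (.e (nat_lit 1296) (nat_lit 96) (.e (nat_lit 131093) (nat_lit 2) .nil)))))))) (.g (nat_lit 4) .nil .nil))) 
(.lf (nat_lit 215394) (.g (nat_lit 2379) (.e (nat_lit 90170) (nat_lit 13) (.e (nat_lit 172106) (nat_lit 10) (.e (nat_lit 434231) (nat_lit 23) (.e (nat_lit 532483) (nat_lit 0) (.e (nat_lit 982) (nat_lit 81) .nil))))) .nil)))) (.nd (nat_lit 5) (.nd (nat_lit 6) 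
(.lf (nat_lit 215314) (.g (nat_lit 4134) (.e (nat_lit 90170) (nat_lit 13) (.e (nat_lit 172106) (nat_lit 10) (.e (nat_lit 434231) (nat_lit 23) (.e (nat_lit 532481) (nat_lit 0) (.e (nat_lit 984) (nat_lit 81) (.e (nat_lit 4435) (nat_lit 263) (.e (nat_lit 1296) (nat_lit 96) (.e (nat_lit 131091) (nat_lit 2) .nil)))))))) (.g (nat_lit 4) .nil .nil))) 
(.lf (nat_lit 215378) (.g (nat_lit 2417) (.e (nat_lit 90170) (nat_lit 13) (.e (nat_lit 172106) (nat_lit 10) (.e (nat_lit 434231) (nat_lit 23) (.e (nat_lit 532482) (nat_lit 0) (.e (nat_lit 971) (nat_lit 81) (.e (nat_lit 4490) (nat_lit 263) (.e (nat_lit 1199) (nat_lit 88) (.e (nat_lit 65566) (nat_lit 2) .nil)))))))) (.g (nat_lit 4) .nil .nil)))) (.nd (nat_lit 6) 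
(.lf (nat_lit 215346) (.g (nat_lit 3352) (.e (nat_lit 90170) (nat_lit 13) (.e (nat_lit 172106) (nat_lit 10) (.e (nat_lit 434231) (nat_lit 23) (.e (nat_lit 532481) (nat_lit 0) (.e (nat_lit 1906) (nat_lit 129) .nil))))) .nil)) 
(.lf (nat_lit 215410) (.g (nat_lit 3060) (.e (nat_lit 90170) (nat_lit 13) (.e (nat_lit 172106) (nat_lit 10) (.e (nat_lit 434231) (nat_lit 23) (.e (nat_lit 532486) (nat_lit 0) (.e (nat_lit 6212) (nat_lit 333) (.e (nat_lit 57878) (nat_lit 270) (.e (nat_lit 7936) (nat_lit 91) .nil))))))) (.g (nat_lit 6) .nil .nil)))))) (.nd (nat_lit 4) (.nd (nat_lit 5) (.nd (nat_lit 6) 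
(.lf (nat_lit 215306) (.g (nat_lit 3371) (.e (nat_lit 90170) (nat_lit 13) (.e (nat_lit 172106) (nat_lit 10) (.e (nat_lit 434231) (nat_lit 23) (.e (nat_lit 532481) (nat_lit 0) (.e (nat_lit 974) (nat_lit 81) .nil))))) .nil)) 
(.lf (nat_lit 215370) (.g (nat_lit 3805) (.e (nat_lit 90170) (nat_lit 13) (.e (nat_lit 172106) (nat_lit 10) (.e (nat_lit 434231) (nat_lit 23) (.e (nat_lit 532481) (nat_lit 0) (.e (nat_lit 6221) (nat_lit 333) (.e (nat_lit 57884) (nat_lit 270) (.e (nat_lit 1232) (nat_lit 91) .nil))))))) (.g (nat_lit 4) .nil .nil)))) (.nd (nat_lit 6) 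
(.lf (nat_lit 215338) (.g (nat_lit 3371) (.e (nat_lit 90170) (nat_lit 13) (.e (nat_lit 172106) (nat_lit 10) (.e (nat_lit 434231) (nat_lit 23) (.e (nat_lit 532481) (nat_lit 0) (.e (nat_lit 1049) (nat_lit 81) .nil))))) .nil)) 
(.lf (nat_lit 215402) (.g (nat_lit 2995) (.e (nat_lit 90170) (nat_lit 13) (.e (nat_lit 172106) (nat_lit 10) (.e (nat_lit 434231) (nat_lit 23) (.e (nat_lit 532483) (nat_lit 0) (.e (nat_lit 7936) (nat_lit 333) (.e (nat_lit 57884) (nat_lit 270) (.e (nat_lit 1232) (nat_lit 91) .nil))))))) (.g (nat_lit 4) .nil .nil))))) (.nd (nat_lit 5) (.nd (nat_lit 6) 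
(.lf (nat_lit 215322) (.g (nat_lit 4451) (.e (nat_lit 90170) (nat_lit 13) (.e (nat_lit 172106) (nat_lit 10) (.e (nat_lit 434231) (nat_lit 23) (.e (nat_lit 532481) (nat_lit 0) (.e (nat_lit 996) (nat_lit 81) (.e (nat_lit 4435) (nat_lit 263) (.e (nat_lit 1296) (nat_lit 96) (.e (nat_lit 131091) (nat_lit 2) .nil)))))))) (.g (nat_lit 4) .nil .nil))) 
(.lf (nat_lit 215386) (.g (nat_lit 2252) (.e (nat_lit 90170) (nat_lit 13) (.e (nat_lit 172106) (nat_lit 10) (.e (nat_lit 434231) (nat_lit 23) (.e (nat_lit 532482) (nat_lit 0) (.e (nat_lit 1904) (nat_lit 129) .nil))))) .nil))) (.nd (nat_lit 6) 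
(.lf (nat_lit 215354) (.g (nat_lit 3662) (.e (nat_lit 90170) (nat_lit 13) (.e (nat_lit 172106) (nat_lit 10) (.e (nat_lit 434231) (nat_lit 23) (.e (nat_lit 532481) (nat_lit 0) (.e (nat_lit 1912) (nat_lit 129) (.e (nat_lit 605952) (nat_lit 5) (.e (nat_lit 1464) (nat_lit 108) (.e (nat_lit 336013) (nat_lit 2) .nil)))))))) (.g (nat_lit 5) .nil .nil))) 
(.lf (nat_lit 215418) (.g (nat_lit 2757) (.e (nat_lit 90170) (nat_lit 13) (.e (nat_lit 172106) (nat_lit 10) (.e (nat_lit 434231) (nat_lit 23) (.e (nat_lit 532490) (nat_lit 0) (.e (nat_lit 988) (nat_lit 81) (.e (nat_lit 4460) (nat_lit 263) (.e (nat_lit 1079) (nat_lit 81) (.e (nat_lit 1448) (nat_lit 108) (.e (nat_lit 336013) (nat_lit 2) .nil))))))))) (.g (nat_lit 4) .nil .nil))))))) 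
(.nd (nat_lit 3) (.nd (nat_lit 4) (.nd (nat_lit 5) (.nd (nat_lit 6) 
(.lf (nat_lit 215302) (.g (nat_lit 2920) (.e (nat_lit 90170) (nat_lit 13) (.e (nat_lit 172106) (nat_lit 10) (.e (nat_lit 434231) (nat_lit 23) (.e (nat_lit 532480) (nat_lit 0) (.e (nat_lit 6224) (nat_lit 334) (.e (nat_lit 123205) (nat_lit 270) (.e (nat_lit 1232) (nat_lit 91) .nil))))))) (.g (nat_lit 7) .nil .nil))) 
(.lf (nat_lit 215366) (.g (nat_lit 3498) (.e (nat_lit 90170) (nat_lit 13) (.e (nat_lit 172106) (nat_lit 10) (.e (nat_lit 434231) (nat_lit 23) (.e (nat_lit 532481) (nat_lit 0) (.e (nat_lit 6157) (nat_lit 332) (.e (nat_lit 1074) (nat_lit 81) (.e (nat_lit 5293) (nat_lit 298) (.e (nat_lit 1232) (nat_lit 91) .nil)))))))) (.g (nat_lit 4) .nil .nil)))) (.nd (nat_lit 6) 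
(.lf (nat_lit 215334) (.g (nat_lit 3372) (.e (nat_lit 90170) (nat_lit 13) (.e (nat_lit 172106) (nat_lit 10) (.e (nat_lit 434231) (nat_lit 23) (.e (nat_lit 532481) (nat_lit 0) (.e (nat_lit 999) (nat_lit 81) .nil))))) .nil)) 
(.lf (nat_lit 215398) (.g (nat_lit 2355) (.e (nat_lit 90170) (nat_lit 13) (.e (nat_lit 172106) (nat_lit 10) (.e (nat_lit 434231) (nat_lit 23) (.e (nat_lit 532483) (nat_lit 0) (.e (nat_lit 1097) (nat_lit 81) .nil))))) .nil)))) (.nd (nat_lit 5) (.nd (nat_lit 6) 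
(.lf (nat_lit 215318) (.g (nat_lit 3543) (.e (nat_lit 90170) (nat_lit 13) (.e (nat_lit 172106) (nat_lit 10) (.e (nat_lit 434231) (nat_lit 23) (.e (nat_lit 532481) (nat_lit 0) (.e (nat_lit 984) (nat_lit 81) (.e (nat_lit 4526) (nat_lit 265) (.e (nat_lit 57404) (nat_lit 12) (.e (nat_lit 336013) (nat_lit 2) .nil)))))))) (.g (nat_lit 4) .nil .nil))) 
(.lf (nat_lit 215382) (.g (nat_lit 2252) (.e (nat_lit 90170) (nat_lit 13) (.e (nat_lit 172106) (nat_lit 10) (.e (nat_lit 434231) (nat_lit 23) (.e (nat_lit 532482) (nat_lit 0) (.e (nat_lit 981) (nat_lit 81) .nil))))) .nil))) (.nd (nat_lit 6) 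
(.lf (nat_lit 215350) (.g (nat_lit 4529) (.e (nat_lit 90170) (nat_lit 13) (.e (nat_lit 172106) (nat_lit 10) (.e (nat_lit 434231) (nat_lit 23) (.e (nat_lit 532481) (nat_lit 0) (.e (nat_lit 1911) (nat_lit 129) (.e (nat_lit 598023) (nat_lit 5) (.e (nat_lit 1464) (nat_lit 108) (.e (nat_lit 336013) (nat_lit 2) .nil)))))))) (.g (nat_lit 8) .nil .nil))) 
(.lf (nat_lit 215414) (.g (nat_lit 2735) (.e (nat_lit 90170) (nat_lit 13) (.e (nat_lit 172106) (nat_lit 10) (.e (nat_lit 434231) (nat_lit 23) (.e (nat_lit 532487) (nat_lit 0) .nil)))) .nil))))) (.nd (nat_lit 4) (.nd (nat_lit 5) (.nd (nat_lit 6) 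
(.lf (nat_lit 215310) (.g (nat_lit 3371) (.e (nat_lit 90170) (nat_lit 13) (.e (nat_lit 172106) (nat_lit 10) (.e (nat_lit 434231) (nat_lit 23) (.e (nat_lit 532481) (nat_lit 0) (.e (nat_lit 983) (nat_lit 81) .nil))))) .nil)) 
(.lf (nat_lit 215374) (.g (nat_lit 1619) (.e (nat_lit 90170) (nat_lit 13) (.e (nat_lit 172106) (nat_lit 10) (.e (nat_lit 434231) (nat_lit 23) (.e (nat_lit 532482) (nat_lit 0) .nil)))) .nil))) (.nd (nat_lit 6) 
(.lf (nat_lit 215342) (.g (nat_lit 3215) (.e (nat_lit 90170) (nat_lit 13) (.e (nat_lit 172106) (nat_lit 10) (.e (nat_lit 434231) (nat_lit 23) (.e (nat_lit 532481) (nat_lit 0) (.e (nat_lit 1905) (nat_lit 129) .nil))))) .nil)) 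
(.lf (nat_lit 215406) (.g (nat_lit 1497) (.e (nat_lit 90170) (nat_lit 13) (.e (nat_lit 172106) (nat_lit 10) (.e (nat_lit 434231) (nat_lit 23) (.e (nat_lit 532486) (nat_lit 0) (.e (nat_lit 1903) (nat_lit 129) .nil))))) .nil)))) (.nd (nat_lit 5) (.nd (nat_lit 6) 
(.lf (nat_lit 215326) (.g (nat_lit 3445) (.e (nat_lit 90170) (nat_lit 13) (.e (nat_lit 172106) (nat_lit 10) (.e (nat_lit 434231) (nat_lit 23) (.e (nat_lit 532481) (nat_lit 0) (.e (nat_lit 996) (nat_lit 81) (.e (nat_lit 4500) (nat_lit 263) (.e (nat_lit 1008) (nat_lit 81) (.e (nat_lit 1464) (nat_lit 108) (.e (nat_lit 336013) (nat_lit 2) .nil))))))))) (.g (nat_lit 4) .nil .nil))) 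
(.lf (nat_lit 215390) (.g (nat_lit 3302) (.e (nat_lit 90170) (nat_lit 13) (.e (nat_lit 172106) (nat_lit 10) (.e (nat_lit 434231) (nat_lit 23) (.e (nat_lit 532482) (nat_lit 0) (.e (nat_lit 6185) (nat_lit 332) (.e (nat_lit 1365) (nat_lit 103) (.e (nat_lit 294928) (nat_lit 2) .nil))))))) (.g (nat_lit 4) .nil .nil)))) (.nd (nat_lit 6) 
(.lf (nat_lit 215358) (.g (nat_lit 4157) (.e (nat_lit 90170) (nat_lit 13) (.e (nat_lit 172106) (nat_lit 10) (.e (nat_lit 434231) (nat_lit 23) (.e (nat_lit 532481) (nat_lit 0) (.e (nat_lit 1916) (nat_lit 130) (.e (nat_lit 606236) (nat_lit 9) (.e (nat_lit 284) (nat_lit 21) (.e (nat_lit 336011) (nat_lit 2) .nil)))))))) (.g (nat_lit 4) .nil .nil))) 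
(.lf (nat_lit 215422) (.g (nat_lit 2923) (.e (nat_lit 90170) (nat_lit 13) (.e (nat_lit 172106) (nat_lit 10) (.e (nat_lit 434231) (nat_lit 23) (.e (nat_lit 532490) (nat_lit 0) (.e (nat_lit 989) (nat_lit 81) (.e (nat_lit 4621) (nat_lit 269) (.e (nat_lit 2423) (nat_lit 157) (.e (nat_lit 232) (nat_lit 21) (.e (nat_lit 336013) (nat_lit 2) .nil))))))))) (.g (nat_lit 4) .nil .nil))))))))) 
(.nd (nat_lit 1) (.nd (nat_lit 2) (.nd (nat_lit 3) (.nd (nat_lit 4) (.nd (nat_lit 5) 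
(.nd (nat_lit 6) 
(.lf (nat_lit 215297) (.g (nat_lit 430) (.e (nat_lit 90170) (nat_lit 13) (.e (nat_lit 172106) (nat_lit 10) (.e (nat_lit 434223) (nat_lit 19) .nil))) .nil)) 
(.lf (nat_lit 215361) (.g (nat_lit 4197) (.e (nat_lit 90170) (nat_lit 13) (.e (nat_lit 172106) (nat_lit 10) (.e (nat_lit 434231) (nat_lit 23) (.e (nat_lit 532481) (nat_lit 0) (.e (nat_lit 1917) (nat_lit 130) (.e (nat_lit 606231) (nat_lit 9) (.e (nat_lit 249) (nat_lit 21) (.e (nat_lit 336009) (nat_lit 2) .nil)))))))) (.g (nat_lit 4) .nil .nil)))) (.nd (nat_lit 6) 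
(.lf (nat_lit 215329) (.g (nat_lit 3704) (.e (nat_lit 90170) (nat_lit 13) (.e (nat_lit 172106) (nat_lit 10) (.e (nat_lit 434231) (nat_lit 23) (.e (nat_lit 532481) (nat_lit 0) (.e (nat_lit 997) (nat_lit 81) (.e (nat_lit 4433) (nat_lit 263) (.e (nat_lit 1296) (nat_lit 96) (.e (nat_lit 131093) (nat_lit 2) .nil)))))))) (.g (nat_lit 4) .nil .nil))) 
(.lf (nat_lit 215393) (.g (nat_lit 2020) (.e (nat_lit 90170) (nat_lit 13) (.e (nat_lit 172106) (nat_lit 10) (.e (nat_lit 434231) (nat_lit 23) (.e (nat_lit 532483) (nat_lit 0) .nil)))) .nil)))) (.nd (nat_lit 5) (.nd (nat_lit 6) 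
(.lf (nat_lit 215313) (.g (nat_lit 3808) (.e (nat_lit 90170) (nat_lit 13) (.e (nat_lit 172106) (nat_lit 10) (.e (nat_lit 434231) (nat_lit 23) (.e (nat_lit 532481) (nat_lit 0) (.e (nat_lit 984) (nat_lit 81) (.e (nat_lit 4433) (nat_lit 263) (.e (nat_lit 1296) (nat_lit 96) (.e (nat_lit 131093) (nat_lit 2) .nil)))))))) (.g (nat_lit 4) .nil .nil))) 
(.lf (nat_lit 215377) (.g (nat_lit 2487) (.e (nat_lit 90170) (nat_lit 13) (.e (nat_lit 172106) (nat_lit 10) (.e (nat_lit 434231) (nat_lit 23) (.e (nat_lit 532482) (nat_lit 0) (.e (nat_lit 971) (nat_lit 81) (.e (nat_lit 4439) (nat_lit 263) (.e (nat_lit 1296) (nat_lit 96) (.e (nat_lit 131093) (nat_lit 2) .nil)))))))) (.g (nat_lit 4) .nil .nil)))) (.nd (nat_lit 6) 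
(.lf (nat_lit 215345) (.g (nat_lit 3286) (.e (nat_lit 90170) (nat_lit 13) (.e (nat_lit 172106) (nat_lit 10) (.e (nat_lit 434231) (nat_lit 23) (.e (nat_lit 532481) (nat_lit 0) (.e (nat_lit 1905) (nat_lit 129) (.e (nat_lit 598037) (nat_lit 8) (.e (nat_lit 65568) (nat_lit 2) .nil))))))) (.g (nat_lit 4) .nil .nil))) 
(.lf (nat_lit 215409) (.g (nat_lit 2216) (.e (nat_lit 90170) (nat_lit 13) (.e (nat_lit 172106) (nat_lit 10) (.e (nat_lit 434231) (nat_lit 23) (.e (nat_lit 532486) (nat_lit 0) (.e (nat_lit 6211) (nat_lit 333) (.e (nat_lit 57884) (nat_lit 270) (.e (nat_lit 1232) (nat_lit 91) .nil))))))) (.g (nat_lit 4) .nil .nil)))))) (.nd (nat_lit 4) (.nd (nat_lit 5) (.nd (nat_lit 6) 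
(.lf (nat_lit 215305) (.g (nat_lit 3371) (.e (nat_lit 90170) (nat_lit 13) (.e (nat_lit 172106) (nat_lit 10) (.e (nat_lit 434231) (nat_lit 23) (.e (nat_lit 532481) (nat_lit 0) (.e (nat_lit 971) (nat_lit 81) .nil))))) .nil)) 
(.lf (nat_lit 215369) (.g (nat_lit 3920) (.e (nat_lit 90170) (nat_lit 13) (.e (nat_lit 172106) (nat_lit 10) (.e (nat_lit 434231) (nat_lit 23) (.e (nat_lit 532481) (nat_lit 0) (.e (nat_lit 6221) (nat_lit 333) (.e (nat_lit 57876) (nat_lit 270) (.e (nat_lit 1239) (nat_lit 91) .nil))))))) (.g (nat_lit 4) .nil .nil)))) (.nd (nat_lit 6) 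
(.lf (nat_lit 215337) (.g (nat_lit 3371) (.e (nat_lit 90170) (nat_lit 13) (.e (nat_lit 172106) (nat_lit 10) (.e (nat_lit 434231) (nat_lit 23) (.e (nat_lit 532481) (nat_lit 0) (.e (nat_lit 1016) (nat_lit 81) .nil))))) .nil)) 
(.lf (nat_lit 215401) (.g (nat_lit 2233) (.e (nat_lit 90170) (nat_lit 13) (.e (nat_lit 172106) (nat_lit 10) (.e (nat_lit 434231) (nat_lit 23) (.e (nat_lit 532483) (nat_lit 0) (.e (nat_lit 1912) (nat_lit 129) .nil))))) .nil)))) (.nd (nat_lit 5) (.nd (nat_lit 6) 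
(.lf (nat_lit 215321) (.g (nat_lit 3638) (.e (nat_lit 90170) (nat_lit 13) (.e (nat_lit 172106) (nat_lit 10) (.e (nat_lit 434231) (nat_lit 23) (.e (nat_lit 532481) (nat_lit 0) (.e (nat_lit 996) (nat_lit 81) (.e (nat_lit 4433) (nat_lit 263) (.e (nat_lit 1296) (nat_lit 96) (.e (nat_lit 131093) (nat_lit 2) .nil)))))))) (.g (nat_lit 4) .nil .nil))) 
(.lf (nat_lit 215385) (.g (nat_lit 2252) (.e (nat_lit 90170) (nat_lit 13) (.e (nat_lit 172106) (nat_lit 10) (.e (nat_lit 434231) (nat_lit 23) (.e (nat_lit 532482) (nat_lit 0) (.e (nat_lit 1051) (nat_lit 81) .nil))))) .nil))) (.nd (nat_lit 6) 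
(.lf (nat_lit 215353) (.g (nat_lit 3887) (.e (nat_lit 90170) (nat_lit 13) (.e (nat_lit 172106) (nat_lit 10) (.e (nat_lit 434231) (nat_lit 23) (.e (nat_lit 532481) (nat_lit 0) (.e (nat_lit 1912) (nat_lit 129) (.e (nat_lit 598022) (nat_lit 5) (.e (nat_lit 1464) (nat_lit 108) (.e (nat_lit 336013) (nat_lit 2) .nil)))))))) (.g (nat_lit 6) .nil .nil))) 
(.lf (nat_lit 215417) (.g (nat_lit 2584) (.e (nat_lit 90170) (nat_lit 13) (.e (nat_lit 172106) (nat_lit 10) (.e (nat_lit 434231) (nat_lit 23) (.e (nat_lit 532490) (nat_lit 0) (.e (nat_lit 988) (nat_lit 81) .nil))))) .nil)))))) (.nd (nat_lit 3) (.nd (nat_lit 4) (.nd (nat_lit 5) (.nd (nat_lit 6) 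
(.lf (nat_lit 215301) (.g (nat_lit 1520) (.e (nat_lit 90170) (nat_lit 13) (.e (nat_lit 172106) (nat_lit 10) (.e (nat_lit 434231) (nat_lit 23) (.e (nat_lit 532480) (nat_lit 0) .nil)))) .nil)) 
(.lf (nat_lit 215365) (.g (nat_lit 3953) (.e (nat_lit 90170) (nat_lit 13) (.e (nat_lit 172106) (nat_lit 10) (.e (nat_lit 434231) (nat_lit 23) (.e (nat_lit 532481) (nat_lit 0) (.e (nat_lit 6157) (nat_lit 332) (.e (nat_lit 1008) (nat_lit 81) (.e (nat_lit 5271) (nat_lit 298) (.e (nat_lit 1239) (nat_lit 91) .nil)))))))) (.g (nat_lit 4) .nil .nil)))) (.nd (nat_lit 6) 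
(.lf (nat_lit 215333) (.g (nat_lit 3579) (.e (nat_lit 90170) (nat_lit 13) (.e (nat_lit 172106) (nat_lit 10) (.e (nat_lit 434231) (nat_lit 23) (.e (nat_lit 532481) (nat_lit 0) (.e (nat_lit 997) (nat_lit 81) (.e (nat_lit 4529) (nat_lit 265) (.e (nat_lit 57413) (nat_lit 12) (.e (nat_lit 336013) (nat_lit 2) .nil)))))))) (.g (nat_lit 4) .nil .nil))) 
(.lf (nat_lit 215397) (.g (nat_lit 2355) (.e (nat_lit 90170) (nat_lit 13) (.e (nat_lit 172106) (nat_lit 10) (.e (nat_lit 434231) (nat_lit 23) (.e (nat_lit 532483) (nat_lit 0) (.e (nat_lit 1068) (nat_lit 81) .nil))))) .nil)))) (.nd (nat_lit 5) (.nd (nat_lit 6) 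
(.lf (nat_lit 215317) (.g (nat_lit 3538) (.e (nat_lit 90170) (nat_lit 13) (.e (nat_lit 172106) (nat_lit 10) (.e (nat_lit 434231) (nat_lit 23) (.e (nat_lit 532481) (nat_lit 0) (.e (nat_lit 984) (nat_lit 81) (.e (nat_lit 4442) (nat_lit 263) (.e (nat_lit 1296) (nat_lit 96) (.e (nat_lit 131093) (nat_lit 2) .nil)))))))) (.g (nat_lit 4) .nil .nil))) 
(.lf (nat_lit 215381) (.g (nat_lit 2253) (.e (nat_lit 90170) (nat_lit 13) (.e (nat_lit 172106) (nat_lit 10) (.e (nat_lit 434231) (nat_lit 23) (.e (nat_lit 532482) (nat_lit 0) (.e (nat_lit 979) (nat_lit 81) .nil))))) .nil))) (.nd (nat_lit 6) 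
(.lf (nat_lit 215349) (.g (nat_lit 3274) (.e (nat_lit 90170) (nat_lit 13) (.e (nat_lit 172106) (nat_lit 10) (.e (nat_lit 434231) (nat_lit 23) (.e (nat_lit 532481) (nat_lit 0) (.e (nat_lit 1911) (nat_lit 129) .nil))))) .nil)) 
(.lf (nat_lit 215413) (.g (nat_lit 2749) (.e (nat_lit 90170) (nat_lit 13) (.e (nat_lit 172106) (nat_lit 10) (.e (nat_lit 434231) (nat_lit 23) (.e (nat_lit 532486) (nat_lit 0) (.e (nat_lit 6218) (nat_lit 333) (.e (nat_lit 57889) (nat_lit 270) (.e (nat_lit 7936) (nat_lit 91) .nil))))))) (.g (nat_lit 4) .nil .nil)))))) (.nd (nat_lit 4) (.nd (nat_lit 5) (.nd (nat_lit 6) 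
(.lf (nat_lit 215309) (.g (nat_lit 3371) (.e (nat_lit 90170) (nat_lit 13) (.e (nat_lit 172106) (nat_lit 10) (.e (nat_lit 434231) (nat_lit 23) (.e (nat_lit 532481) (nat_lit 0) (.e (nat_lit 981) (nat_lit 81) .nil))))) .nil)) 
(.lf (nat_lit 215373) (.g (nat_lit 4612) (.e (nat_lit 90170) (nat_lit 13) (.e (nat_lit 172106) (nat_lit 10) (.e (nat_lit 434231) (nat_lit 23) (.e (nat_lit 532481) (nat_lit 0) (.e (nat_lit 6714) (nat_lit 360) (.e (nat_lit 164238) (nat_lit 187) (.e (nat_lit 1235) (nat_lit 91) .nil))))))) (.g (nat_lit 4) .nil .nil)))) (.nd (nat_lit 6) 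
(.lf (nat_lit 215341) (.g (nat_lit 3371) (.e (nat_lit 90170) (nat_lit 13) (.e (nat_lit 172106) (nat_lit 10) (.e (nat_lit 434231) (nat_lit 23) (.e (nat_lit 532481) (nat_lit 0) (.e (nat_lit 1904) (nat_lit 129) .nil))))) .nil)) 
(.lf (nat_lit 215405) (.g (nat_lit 1078) (.e (nat_lit 90170) (nat_lit 13) (.e (nat_lit 172106) (nat_lit 10) (.e (nat_lit 434231) (nat_lit 23) (.e (nat_lit 532486) (nat_lit 0) .nil)))) .nil)))) (.nd (nat_lit 5) (.nd (nat_lit 6) 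
(.lf (nat_lit 215325) (.g (nat_lit 3718) (.e (nat_lit 90170) (nat_lit 13) (.e (nat_lit 172106) (nat_lit 10) (.e (nat_lit 434231) (nat_lit 23) (.e (nat_lit 532481) (nat_lit 0) (.e (nat_lit 996) (nat_lit 81) (.e (nat_lit 4484) (nat_lit 263) (.e (nat_lit 1011) (nat_lit 81) (.e (nat_lit 1464) (nat_lit 108) (.e (nat_lit 336013) (nat_lit 2) .nil))))))))) (.g (nat_lit 5) .nil .nil))) 
(.lf (nat_lit 215389) (.g (nat_lit 2252) (.e (nat_lit 90170) (nat_lit 13) (.e (nat_lit 172106) (nat_lit 10) (.e (nat_lit 434231) (nat_lit 23) (.e (nat_lit 532482) (nat_lit 0) (.e (nat_lit 1921) (nat_lit 130) .nil))))) .nil))) (.nd (nat_lit 6) 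
(.lf (nat_lit 215357) (.g (nat_lit 3955) (.e (nat_lit 90170) (nat_lit 13) (.e (nat_lit 172106) (nat_lit 10) (.e (nat_lit 434231) (nat_lit 23) (.e (nat_lit 532481) (nat_lit 0) (.e (nat_lit 1916) (nat_lit 130) (.e (nat_lit 606236) (nat_lit 9) (.e (nat_lit 247) (nat_lit 21) (.e (nat_lit 336011) (nat_lit 2) .nil)))))))) (.g (nat_lit 4) .nil .nil))) 
(.lf (nat_lit 215421) (.g (nat_lit 2779) (.e (nat_lit 90170) (nat_lit 13) (.e (nat_lit 172106) (nat_lit 10) (.e (nat_lit 434231) (nat_lit 23) (.e (nat_lit 532490) (nat_lit 0) (.e (nat_lit 989) (nat_lit 81) (.e (nat_lit 4569) (nat_lit 269) (.e (nat_lit 2424) (nat_lit 157) (.e (nat_lit 232) (nat_lit 21) (.e (nat_lit 336013) (nat_lit 2) .nil))))))))) (.g (nat_lit 4) .nil .nil)))))))) 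
(.nd (nat_lit 2) (.nd (nat_lit 3) (.nd (nat_lit 4) (.nd (nat_lit 5) (.nd (nat_lit 6) 
(.lf (nat_lit 215299) (.g (nat_lit 350) (.e (nat_lit 90170) (nat_lit 13) (.e (nat_lit 172106) (nat_lit 10) (.e (nat_lit 434230) (nat_lit 23) .nil))) .nil)) 
(.lf (nat_lit 215363) (.g (nat_lit 3741) (.e (nat_lit 90170) (nat_lit 13) (.e (nat_lit 172106) (nat_lit 10) (.e (nat_lit 434231) (nat_lit 23) (.e (nat_lit 532481) (nat_lit 0) (.e (nat_lit 6079) (nat_lit 332) (.e (nat_lit 1367) (nat_lit 103) (.e (nat_lit 294928) (nat_lit 2) .nil))))))) (.g (nat_lit 4) .nil .nil)))) (.nd (nat_lit 6) 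
(.lf (nat_lit 215331) (.g (nat_lit 3495) (.e (nat_lit 90170) (nat_lit 13) (.e (nat_lit 172106) (nat_lit 10) (.e (nat_lit 434231) (nat_lit 23) (.e (nat_lit 532481) (nat_lit 0) (.e (nat_lit 997) (nat_lit 81) (.e (nat_lit 4442) (nat_lit 263) (.e (nat_lit 1296) (nat_lit 96) (.e (nat_lit 131093) (nat_lit 2) .nil)))))))) (.g (nat_lit 4) .nil .nil))) 
(.lf (nat_lit 215395) (.g (nat_lit 2355) (.e (nat_lit 90170) (nat_lit 13) (.e (nat_lit 172106) (nat_lit 10) (.e (nat_lit 434231) (nat_lit 23) (.e (nat_lit 532483) (nat_lit 0) (.e (nat_lit 1004) (nat_lit 81) .nil))))) .nil)))) (.nd (nat_lit 5) (.nd (nat_lit 6) 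
(.lf (nat_lit 215315) (.g (nat_lit 4148) (.e (nat_lit 90170) (nat_lit 13) (.e (nat_lit 172106) (nat_lit 10) (.e (nat_lit 434231) (nat_lit 23) (.e (nat_lit 532481) (nat_lit 0) (.e (nat_lit 984) (nat_lit 81) (.e (nat_lit 4435) (nat_lit 263) (.e (nat_lit 1296) (nat_lit 96) (.e (nat_lit 131093) (nat_lit 2) .nil)))))))) (.g (nat_lit 4) .nil .nil))) 
(.lf (nat_lit 215379) (.g (nat_lit 2491) (.e (nat_lit 90170) (nat_lit 13) (.e (nat_lit 172106) (nat_lit 10) (.e (nat_lit 434231) (nat_lit 23) (.e (nat_lit 532482) (nat_lit 0) (.e (nat_lit 971) (nat_lit 81) (.e (nat_lit 4493) (nat_lit 263) (.e (nat_lit 1008) (nat_lit 81) (.e (nat_lit 1464) (nat_lit 108) (.e (nat_lit 336013) (nat_lit 2) .nil))))))))) (.g (nat_lit 4) .nil .nil)))) (.nd (nat_lit 6) 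
(.lf (nat_lit 215347) (.g (nat_lit 4408) (.e (nat_lit 90170) (nat_lit 13) (.e (nat_lit 172106) (nat_lit 10) (.e (nat_lit 434231) (nat_lit 23) (.e (nat_lit 532481) (nat_lit 0) (.e (nat_lit 1906) (nat_lit 129) (.e (nat_lit 598023) (nat_lit 5) (.e (nat_lit 1464) (nat_lit 108) (.e (nat_lit 336013) (nat_lit 2) .nil)))))))) (.g (nat_lit 8) .nil .nil))) 
(.lf (nat_lit 215411) (.g (nat_lit 3504) (.e (nat_lit 90170) (nat_lit 13) (.e (nat_lit 172106) (nat_lit 10) (.e (nat_lit 434231) (nat_lit 23) (.e (nat_lit 532486) (nat_lit 0) (.e (nat_lit 6218) (nat_lit 333) (.e (nat_lit 57881) (nat_lit 270) (.e (nat_lit 7936) (nat_lit 91) .nil))))))) (.g (nat_lit 5) .nil .nil)))))) (.nd (nat_lit 4) (.nd (nat_lit 5) (.nd (nat_lit 6) 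
(.lf (nat_lit 215307) (.g (nat_lit 3372) (.e (nat_lit 90170) (nat_lit 13) (.e (nat_lit 172106) (nat_lit 10) (.e (nat_lit 434231) (nat_lit 23) (.e (nat_lit 532481) (nat_lit 0) (.e (nat_lit 979) (nat_lit 81) .nil))))) .nil)) 
(.lf (nat_lit 215371) (.g (nat_lit 3526) (.e (nat_lit 90170) (nat_lit 13) (.e (nat_lit 172106) (nat_lit 10) (.e (nat_lit 434231) (nat_lit 23) (.e (nat_lit 532481) (nat_lit 0) (.e (nat_lit 6222) (nat_lit 334) (.e (nat_lit 123205) (nat_lit 270) (.e (nat_lit 1232) (nat_lit 91) .nil))))))) (.g (nat_lit 4) .nil .nil)))) (.nd (nat_lit 6) 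
(.lf (nat_lit 215339) (.g (nat_lit 3371) (.e (nat_lit 90170) (nat_lit 13) (.e (nat_lit 172106) (nat_lit 10) (.e (nat_lit 434231) (nat_lit 23) (.e (nat_lit 532481) (nat_lit 0) (.e (nat_lit 1050) (nat_lit 81) .nil))))) .nil)) 
(.lf (nat_lit 215403) (.g (nat_lit 2524) (.e (nat_lit 90170) (nat_lit 13) (.e (nat_lit 172106) (nat_lit 10) (.e (nat_lit 434231) (nat_lit 23) (.e (nat_lit 532484) (nat_lit 0) .nil)))) .nil)))) (.nd (nat_lit 5) (.nd (nat_lit 6) 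
(.lf (nat_lit 215323) (.g (nat_lit 3629) (.e (nat_lit 90170) (nat_lit 13) (.e (nat_lit 172106) (nat_lit 10) (.e (nat_lit 434231) (nat_lit 23) (.e (nat_lit 532481) (nat_lit 0) (.e (nat_lit 996) (nat_lit 81) (.e (nat_lit 4442) (nat_lit 263) (.e (nat_lit 1296) (nat_lit 96) (.e (nat_lit 131093) (nat_lit 2) .nil)))))))) (.g (nat_lit 4) .nil .nil))) 
(.lf (nat_lit 215387) (.g (nat_lit 2252) (.e (nat_lit 90170) (nat_lit 13) (.e (nat_lit 172106) (nat_lit 10) (.e (nat_lit 434231) (nat_lit 23) (.e (nat_lit 532482) (nat_lit 0) (.e (nat_lit 1913) (nat_lit 129) .nil))))) .nil))) (.nd (nat_lit 6) 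
(.lf (nat_lit 215355) (.g (nat_lit 3371) (.e (nat_lit 90170) (nat_lit 13) (.e (nat_lit 172106) (nat_lit 10) (.e (nat_lit 434231) (nat_lit 23) (.e (nat_lit 532481) (nat_lit 0) (.e (nat_lit 1915) (nat_lit 130) .nil))))) .nil)) 
(.lf (nat_lit 215419) (.g (nat_lit 2584) (.e (nat_lit 90170) (nat_lit 13) (.e (nat_lit 172106) (nat_lit 10) (.e (nat_lit 434231) (nat_lit 23) (.e (nat_lit 532490) (nat_lit 0) (.e (nat_lit 989) (nat_lit 81) .nil))))) .nil)))))) (.nd (nat_lit 3) (.nd (nat_lit 4) (.nd (nat_lit 5) (.nd (nat_lit 6) 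
(.lf (nat_lit 215303) (.g (nat_lit 2225) (.e (nat_lit 90170) (nat_lit 13) (.e (nat_lit 172106) (nat_lit 10) (.e (nat_lit 434231) (nat_lit 23) (.e (nat_lit 532481) (nat_lit 0) .nil)))) .nil)) 
(.lf (nat_lit 215367) (.g (nat_lit 4147) (.e (nat_lit 90170) (nat_lit 13) (.e (nat_lit 172106) (nat_lit 10) (.e (nat_lit 434231) (nat_lit 23) (.e (nat_lit 532481) (nat_lit 0) (.e (nat_lit 6157) (nat_lit 332) (.e (nat_lit 1355) (nat_lit 102) (.e (nat_lit 286733) (nat_lit 2) .nil))))))) (.g (nat_lit 4) .nil .nil)))) (.nd (nat_lit 6) 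
(.lf (nat_lit 215335) (.g (nat_lit 3371) (.e (nat_lit 90170) (nat_lit 13) (.e (nat_lit 172106) (nat_lit 10) (.e (nat_lit 434231) (nat_lit 23) (.e (nat_lit 532481) (nat_lit 0) (.e (nat_lit 1004) (nat_lit 81) .nil))))) .nil)) 
(.lf (nat_lit 215399) (.g (nat_lit 2411) (.e (nat_lit 90170) (nat_lit 13) (.e (nat_lit 172106) (nat_lit 10) (.e (nat_lit 434231) (nat_lit 23) (.e (nat_lit 532483) (nat_lit 0) (.e (nat_lit 1905) (nat_lit 129) (.e (nat_lit 598025) (nat_lit 5) (.e (nat_lit 1464) (nat_lit 108) (.e (nat_lit 336013) (nat_lit 2) .nil)))))))) (.g (nat_lit 4) .nil .nil))))) (.nd (nat_lit 5) (.nd (nat_lit 6) 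
(.lf (nat_lit 215319) (.g (nat_lit 3605) (.e (nat_lit 90170) (nat_lit 13) (.e (nat_lit 172106) (nat_lit 10) (.e (nat_lit 434231) (nat_lit 23) (.e (nat_lit 532481) (nat_lit 0) (.e (nat_lit 984) (nat_lit 81) (.e (nat_lit 4528) (nat_lit 265) (.e (nat_lit 57413) (nat_lit 12) (.e (nat_lit 336013) (nat_lit 2) .nil)))))))) (.g (nat_lit 4) .nil .nil))) 
(.lf (nat_lit 215383) (.g (nat_lit 2252) (.e (nat_lit 90170) (nat_lit 13) (.e (nat_lit 172106) (nat_lit 10) (.e (nat_lit 434231) (nat_lit 23) (.e (nat_lit 532482) (nat_lit 0) (.e (nat_lit 1049) (nat_lit 81) .nil))))) .nil))) (.nd (nat_lit 6) 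
(.lf (nat_lit 215351) (.g (nat_lit 3401) (.e (nat_lit 90170) (nat_lit 13) (.e (nat_lit 172106) (nat_lit 10) (.e (nat_lit 434231) (nat_lit 23) (.e (nat_lit 532481) (nat_lit 0) (.e (nat_lit 1911) (nat_lit 129) (.e (nat_lit 598024) (nat_lit 5) (.e (nat_lit 1464) (nat_lit 108) (.e (nat_lit 336013) (nat_lit 2) .nil)))))))) (.g (nat_lit 4) .nil .nil))) 
(.lf (nat_lit 215415) (.g (nat_lit 928) (.e (nat_lit 90170) (nat_lit 13) (.e (nat_lit 172106) (nat_lit 10) (.e (nat_lit 434231) (nat_lit 23) (.e (nat_lit 532490) (nat_lit 0) .nil)))) .nil))))) (.nd (nat_lit 4) (.nd (nat_lit 5) (.nd (nat_lit 6) 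
(.lf (nat_lit 215311) (.g (nat_lit 3591) (.e (nat_lit 90170) (nat_lit 13) (.e (nat_lit 172106) (nat_lit 10) (.e (nat_lit 434231) (nat_lit 23) (.e (nat_lit 532481) (nat_lit 0) (.e (nat_lit 983) (nat_lit 81) (.e (nat_lit 4435) (nat_lit 263) (.e (nat_lit 1296) (nat_lit 96) (.e (nat_lit 131093) (nat_lit 2) .nil)))))))) (.g (nat_lit 4) .nil .nil))) 
(.lf (nat_lit 215375) (.g (nat_lit 2254) (.e (nat_lit 90170) (nat_lit 13) (.e (nat_lit 172106) (nat_lit 10) (.e (nat_lit 434231) (nat_lit 23) (.e (nat_lit 532482) (nat_lit 0) (.e (nat_lit 969) (nat_lit 81) .nil))))) .nil))) (.nd (nat_lit 6) 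
(.lf (nat_lit 215343) (.g (nat_lit 3461) (.e (nat_lit 90170) (nat_lit 13) (.e (nat_lit 172106) (nat_lit 10) (.e (nat_lit 434231) (nat_lit 23) (.e (nat_lit 532481) (nat_lit 0) (.e (nat_lit 1905) (nat_lit 129) (.e (nat_lit 598028) (nat_lit 5) (.e (nat_lit 1413) (nat_lit 108) (.e (nat_lit 336013) (nat_lit 2) .nil)))))))) (.g (nat_lit 4) .nil .nil))) 
(.lf (nat_lit 215407) (.g (nat_lit 3631) (.e (nat_lit 90170) (nat_lit 13) (.e (nat_lit 172106) (nat_lit 10) (.e (nat_lit 434231) (nat_lit 23) (.e (nat_lit 532486) (nat_lit 0) (.e (nat_lit 6113) (nat_lit 332) (.e (nat_lit 968) (nat_lit 81) (.e (nat_lit 5345) (nat_lit 298) (.e (nat_lit 1237) (nat_lit 91) .nil)))))))) (.g (nat_lit 5) .nil .nil))))) (.nd (nat_lit 5) (.nd (nat_lit 6) 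
(.lf (nat_lit 215327) (.g (nat_lit 3641) (.e (nat_lit 90170) (nat_lit 13) (.e (nat_lit 172106) (nat_lit 10) (.e (nat_lit 434231) (nat_lit 23) (.e (nat_lit 532481) (nat_lit 0) (.e (nat_lit 996) (nat_lit 81) (.e (nat_lit 4530) (nat_lit 266) (.e (nat_lit 130816) (nat_lit 12) (.e (nat_lit 336011) (nat_lit 2) .nil)))))))) (.g (nat_lit 4) .nil .nil))) 
(.lf (nat_lit 215391) (.g (nat_lit 2694) (.e (nat_lit 90170) (nat_lit 13) (.e (nat_lit 172106) (nat_lit 10) (.e (nat_lit 434231) (nat_lit 23) (.e (nat_lit 532482) (nat_lit 0) (.e (nat_lit 6221) (nat_lit 333) (.e (nat_lit 57887) (nat_lit 270) (.e (nat_lit 1232) (nat_lit 91) .nil))))))) (.g (nat_lit 4) .nil .nil)))) (.nd (nat_lit 6) 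
(.lf (nat_lit 215359) (.g (nat_lit 4019) (.e (nat_lit 90170) (nat_lit 13) (.e (nat_lit 172106) (nat_lit 10) (.e (nat_lit 434231) (nat_lit 23) (.e (nat_lit 532481) (nat_lit 0) (.e (nat_lit 1916) (nat_lit 130) (.e (nat_lit 606240) (nat_lit 9) (.e (nat_lit 247) (nat_lit 21) (.e (nat_lit 336011) (nat_lit 2) .nil)))))))) (.g (nat_lit 4) .nil .nil))) 
(.lf (nat_lit 215423) (.g (nat_lit 2584) (.e (nat_lit 90170) (nat_lit 13) (.e (nat_lit 172106) (nat_lit 10) (.e (nat_lit 434231) (nat_lit 23) (.e (nat_lit 532490) (nat_lit 0) (.e (nat_lit 990) (nat_lit 81) .nil))))) .nil)))))))))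

noncomputable def tv2830 : DT := (.nd (nat_lit 0) (.nd (nat_lit 1) (.nd (nat_lit 2) (.nd (nat_lit 3) (.nd (nat_lit 4) (.nd (nat_lit 5) 
(.lf (nat_lit 215424) (.g (nat_lit 2745) (.e (nat_lit 90170) (nat_lit 13) (.e (nat_lit 172106) (nat_lit 10) (.e (nat_lit 434231) (nat_lit 23) (.e (nat_lit 532490) (nat_lit 0) (.e (nat_lit 990) (nat_lit 81) (.e (nat_lit 4435) (nat_lit 263) (.e (nat_lit 1296) (nat_lit 96) (.e (nat_lit 131093) (nat_lit 2) .nil)))))))) (.g (nat_lit 4) .nil .nil))) 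
(.lf (nat_lit 215456) (.g (nat_lit 2085) (.e (nat_lit 90170) (nat_lit 13) (.e (nat_lit 172106) (nat_lit 10) (.e (nat_lit 434231) (nat_lit 23) (.e (nat_lit 532490) (nat_lit 0) (.e (nat_lit 1908) (nat_lit 129) .nil))))) .nil))) (.nd (nat_lit 5) 
(.lf (nat_lit 215440) (.g (nat_lit 2147) (.e (nat_lit 90170) (nat_lit 13) (.e (nat_lit 172106) (nat_lit 10) (.e (nat_lit 434231) (nat_lit 23) (.e (nat_lit 532490) (nat_lit 0) (.e (nat_lit 1040) (nat_lit 81) (.e (nat_lit 4506) (nat_lit 263) (.e (nat_lit 1079) (nat_lit 81) (.e (nat_lit 1463) (nat_lit 108) (.e (nat_lit 336013) (nat_lit 2) .nil))))))))) (.g (nat_lit 4) .nil .nil))) 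
(.lf (nat_lit 215472) (.g (nat_lit 2999) (.e (nat_lit 90170) (nat_lit 13) (.e (nat_lit 172106) (nat_lit 10) (.e (nat_lit 434231) (nat_lit 23) (.e (nat_lit 532490) (nat_lit 0) (.e (nat_lit 1915) (nat_lit 130) (.e (nat_lit 606232) (nat_lit 9) (.e (nat_lit 247) (nat_lit 21) (.e (nat_lit 336011) (nat_lit 2) .nil)))))))) (.g (nat_lit 4) .nil .nil))))) (.nd (nat_lit 4) (.nd (nat_lit 5) 
(.lf (nat_lit 215432) (.g (nat_lit 2668) (.e (nat_lit 90170) (nat_lit 13) (.e (nat_lit 172106) (nat_lit 10) (.e (nat_lit 434231) (nat_lit 23) (.e (nat_lit 532490) (nat_lit 0) (.e (nat_lit 991) (nat_lit 81) (.e (nat_lit 4500) (nat_lit 263) (.e (nat_lit 982) (nat_lit 81) (.e (nat_lit 1449) (nat_lit 108) (.e (nat_lit 336013) (nat_lit 2) .nil))))))))) (.g (nat_lit 4) .nil .nil))) 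
(.lf (nat_lit 215464) (.g (nat_lit 3237) (.e (nat_lit 90170) (nat_lit 13) (.e (nat_lit 172106) (nat_lit 10) (.e (nat_lit 434231) (nat_lit 23) (.e (nat_lit 532490) (nat_lit 0) (.e (nat_lit 1910) (nat_lit 129) (.e (nat_lit 598025) (nat_lit 5) (.e (nat_lit 1464) (nat_lit 108) (.e (nat_lit 336013) (nat_lit 2) .nil)))))))) (.g (nat_lit 8) .nil .nil)))) (.nd (nat_lit 5) 
(.lf (nat_lit 215448) (.g (nat_lit 2235) (.e (nat_lit 90170) (nat_lit 13) (.e (nat_lit 172106) (nat_lit 10) (.e (nat_lit 434231) (nat_lit 23) (.e (nat_lit 532490) (nat_lit 0) (.e (nat_lit 7936) (nat_lit 81) (.e (nat_lit 4528) (nat_lit 265) (.e (nat_lit 57404) (nat_lit 12) (.e (nat_lit 336013) (nat_lit 2) .nil)))))))) (.g (nat_lit 4) .nil .nil))) 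
(.lf (nat_lit 215480) (.g (nat_lit 2584) (.e (nat_lit 90170) (nat_lit 13) (.e (nat_lit 172106) (nat_lit 10) (.e (nat_lit 434231) (nat_lit 23) (.e (nat_lit 532490) (nat_lit 0) (.e (nat_lit 1918) (nat_lit 130) .nil))))) .nil))))) (.nd (nat_lit 3) (.nd (nat_lit 4) (.nd (nat_lit 5) 
(.lf (nat_lit 215428) (.g (nat_lit 2867) (.e (nat_lit 90170) (nat_lit 13) (.e (nat_lit 172106) (nat_lit 10) (.e (nat_lit 434231) (nat_lit 23) (.e (nat_lit 532490) (nat_lit 0) (.e (nat_lit 990) (nat_lit 81) (.e (nat_lit 4500) (nat_lit 263) (.e (nat_lit 1297) (nat_lit 96) (.e (nat_lit 131093) (nat_lit 2) .nil)))))))) (.g (nat_lit 4) .nil .nil))) 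
(.lf (nat_lit 215460) (.g (nat_lit 3196) (.e (nat_lit 90170) (nat_lit 13) (.e (nat_lit 172106) (nat_lit 10) (.e (nat_lit 434231) (nat_lit 23) (.e (nat_lit 532490) (nat_lit 0) (.e (nat_lit 1909) (nat_lit 129) (.e (nat_lit 598023) (nat_lit 5) (.e (nat_lit 1464) (nat_lit 108) (.e (nat_lit 336013) (nat_lit 2) .nil)))))))) (.g (nat_lit 8) .nil .nil)))) (.nd (nat_lit 5) 
(.lf (nat_lit 215444) (.g (nat_lit 2188) (.e (nat_lit 90170) (nat_lit 13) (.e (nat_lit 172106) (nat_lit 10) (.e (nat_lit 434231) (nat_lit 23) (.e (nat_lit 532490) (nat_lit 0) (.e (nat_lit 1086) (nat_lit 81) .nil))))) .nil)) 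
(.lf (nat_lit 215476) (.g (nat_lit 3006) (.e (nat_lit 90170) (nat_lit 13) (.e (nat_lit 172106) (nat_lit 10) (.e (nat_lit 434231) (nat_lit 23) (.e (nat_lit 532490) (nat_lit 0) (.e (nat_lit 1915) (nat_lit 130) (.e (nat_lit 606237) (nat_lit 9) (.e (nat_lit 247) (nat_lit 21) (.e (nat_lit 336011) (nat_lit 2) .nil)))))))) (.g (nat_lit 4) .nil .nil))))) (.nd (nat_lit 4) (.nd (nat_lit 5) 
(.lf (nat_lit 215436) (.g (nat_lit 2557) (.e (nat_lit 90170) (nat_lit 13) (.e (nat_lit 172106) (nat_lit 10) (.e (nat_lit 434231) (nat_lit 23) (.e (nat_lit 532490) (nat_lit 0) (.e (nat_lit 1008) (nat_lit 81) .nil))))) .nil)) 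
(.lf (nat_lit 215468) (.g (nat_lit 3019) (.e (nat_lit 90170) (nat_lit 13) (.e (nat_lit 172106) (nat_lit 10) (.e (nat_lit 434231) (nat_lit 23) (.e (nat_lit 532490) (nat_lit 0) (.e (nat_lit 1915) (nat_lit 130) (.e (nat_lit 606231) (nat_lit 9) (.e (nat_lit 250) (nat_lit 21) (.e (nat_lit 336011) (nat_lit 2) .nil)))))))) (.g (nat_lit 4) .nil .nil)))) (.nd (nat_lit 5) 
(.lf (nat_lit 215452) (.g (nat_lit 3265) (.e (nat_lit 90170) (nat_lit 13) (.e (nat_lit 172106) (nat_lit 10) (.e (nat_lit 434231) (nat_lit 23) (.e (nat_lit 532490) (nat_lit 0) (.e (nat_lit 1905) (nat_lit 129) (.e (nat_lit 598043) (nat_lit 12) (.e (nat_lit 131093) (nat_lit 2) .nil))))))) (.g (nat_lit 4) .nil .nil))) 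
(.lf (nat_lit 215484) (.g (nat_lit 3124) (.e (nat_lit 90170) (nat_lit 13) (.e (nat_lit 172106) (nat_lit 10) (.e (nat_lit 434231) (nat_lit 23) (.e (nat_lit 532490) (nat_lit 0) (.e (nat_lit 1918) (nat_lit 130) (.e (nat_lit 606232) (nat_lit 9) (.e (nat_lit 247) (nat_lit 21) (.e (nat_lit 336011) (nat_lit 2) .nil)))))))) (.g (nat_lit 4) .nil .nil))))))) 
(.nd (nat_lit 2) (.nd (nat_lit 3) (.nd (nat_lit 4) (.nd (nat_lit 5) 
(.lf (nat_lit 215426) (.g (nat_lit 2786) (.e (nat_lit 90170) (nat_lit 13) (.e (nat_lit 172106) (nat_lit 10) (.e (nat_lit 434231) (nat_lit 23) (.e (nat_lit 532490) (nat_lit 0) (.e (nat_lit 990) (nat_lit 81) (.e (nat_lit 4500) (nat_lit 263) (.e (nat_lit 1014) (nat_lit 81) (.e (nat_lit 1449) (nat_lit 108) (.e (nat_lit 336013) (nat_lit 2) .nil))))))))) (.g (nat_lit 4) .nil .nil))) 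
(.lf (nat_lit 215458) (.g (nat_lit 2334) (.e (nat_lit 90170) (nat_lit 13) (.e (nat_lit 172106) (nat_lit 10) (.e (nat_lit 434231) (nat_lit 23) (.e (nat_lit 532490) (nat_lit 0) (.e (nat_lit 1908) (nat_lit 129) (.e (nat_lit 605952) (nat_lit 5) (.e (nat_lit 1464) (nat_lit 108) (.e (nat_lit 336013) (nat_lit 2) .nil)))))))) (.g (nat_lit 4) .nil .nil)))) (.nd (nat_lit 5) 
(.lf (nat_lit 215442) (.g (nat_lit 1873) (.e (nat_lit 90170) (nat_lit 13) (.e (nat_lit 172106) (nat_lit 10) (.e (nat_lit 434231) (nat_lit 23) (.e (nat_lit 532490) (nat_lit 0) (.e (nat_lit 1040) (nat_lit 81) (.e (nat_lit 4511) (nat_lit 263) (.e (nat_lit 1196) (nat_lit 88) (.e (nat_lit 65566) (nat_lit 2) .nil)))))))) (.g (nat_lit 4) .nil .nil))) 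
(.lf (nat_lit 215474) (.g (nat_lit 2805) (.e (nat_lit 90170) (nat_lit 13) (.e (nat_lit 172106) (nat_lit 10) (.e (nat_lit 434231) (nat_lit 23) (.e (nat_lit 532490) (nat_lit 0) (.e (nat_lit 1915) (nat_lit 130) (.e (nat_lit 606234) (nat_lit 9) (.e (nat_lit 247) (nat_lit 21) (.e (nat_lit 336011) (nat_lit 2) .nil)))))))) (.g (nat_lit 4) .nil .nil))))) (.nd (nat_lit 4) (.nd (nat_lit 5) 
(.lf (nat_lit 215434) (.g (nat_lit 3466) (.e (nat_lit 90170) (nat_lit 13) (.e (nat_lit 172106) (nat_lit 10) (.e (nat_lit 434231) (nat_lit 23) (.e (nat_lit 532490) (nat_lit 0) (.e (nat_lit 991) (nat_lit 81) (.e (nat_lit 4500) (nat_lit 263) (.e (nat_lit 1297) (nat_lit 96) (.e (nat_lit 131093) (nat_lit 2) .nil)))))))) (.g (nat_lit 4) .nil .nil))) 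
(.lf (nat_lit 215466) (.g (nat_lit 2776) (.e (nat_lit 90170) (nat_lit 13) (.e (nat_lit 172106) (nat_lit 10) (.e (nat_lit 434231) (nat_lit 23) (.e (nat_lit 532490) (nat_lit 0) (.e (nat_lit 1915) (nat_lit 130) (.e (nat_lit 606231) (nat_lit 9) (.e (nat_lit 232) (nat_lit 21) (.e (nat_lit 336013) (nat_lit 2) .nil)))))))) (.g (nat_lit 4) .nil .nil)))) (.nd (nat_lit 5) 
(.lf (nat_lit 215450) (.g (nat_lit 2510) (.e (nat_lit 90170) (nat_lit 13) (.e (nat_lit 172106) (nat_lit 10) (.e (nat_lit 434231) (nat_lit 23) (.e (nat_lit 532490) (nat_lit 0) (.e (nat_lit 1905) (nat_lit 129) (.e (nat_lit 598028) (nat_lit 5) (.e (nat_lit 1413) (nat_lit 108) (.e (nat_lit 336013) (nat_lit 2) .nil)))))))) (.g (nat_lit 4) .nil .nil))) 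
(.lf (nat_lit 215482) (.g (nat_lit 3163) (.e (nat_lit 90170) (nat_lit 13) (.e (nat_lit 172106) (nat_lit 10) (.e (nat_lit 434231) (nat_lit 23) (.e (nat_lit 532490) (nat_lit 0) (.e (nat_lit 1918) (nat_lit 130) (.e (nat_lit 606231) (nat_lit 9) (.e (nat_lit 251) (nat_lit 21) (.e (nat_lit 336011) (nat_lit 2) .nil)))))))) (.g (nat_lit 4) .nil .nil)))))) 
(.nd (nat_lit 3) (.nd (nat_lit 4) (.nd (nat_lit 5) 
(.lf (nat_lit 215430) (.g (nat_lit 2831) (.e (nat_lit 90170) (nat_lit 13) (.e (nat_lit 172106) (nat_lit 10) (.e (nat_lit 434231) (nat_lit 23) (.e (nat_lit 532490) (nat_lit 0) (.e (nat_lit 991) (nat_lit 81) (.e (nat_lit 4435) (nat_lit 263) (.e (nat_lit 1296) (nat_lit 96) (.e (nat_lit 131091) (nat_lit 2) .nil)))))))) (.g (nat_lit 4) .nil .nil))) 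
(.lf (nat_lit 215462) (.g (nat_lit 2246) (.e (nat_lit 90170) (nat_lit 13) (.e (nat_lit 172106) (nat_lit 10) (.e (nat_lit 434231) (nat_lit 23) (.e (nat_lit 532490) (nat_lit 0) (.e (nat_lit 1910) (nat_lit 129) (.e (nat_lit 598022) (nat_lit 5) (.e (nat_lit 1413) (nat_lit 108) (.e (nat_lit 336013) (nat_lit 2) .nil)))))))) (.g (nat_lit 4) .nil .nil)))) (.nd (nat_lit 5) 
(.lf (nat_lit 215446) (.g (nat_lit 2174) (.e (nat_lit 90170) (nat_lit 13) (.e (nat_lit 172106) (nat_lit 10) (.e (nat_lit 434231) (nat_lit 23) (.e (nat_lit 532490) (nat_lit 0) (.e (nat_lit 7936) (nat_lit 81) (.e (nat_lit 4441) (nat_lit 263) (.e (nat_lit 1296) (nat_lit 96) (.e (nat_lit 131093) (nat_lit 2) .nil)))))))) (.g (nat_lit 4) .nil .nil))) 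
(.lf (nat_lit 215478) (.g (nat_lit 3313) (.e (nat_lit 90170) (nat_lit 13) (.e (nat_lit 172106) (nat_lit 10) (.e (nat_lit 434231) (nat_lit 23) (.e (nat_lit 532490) (nat_lit 0) (.e (nat_lit 1915) (nat_lit 130) (.e (nat_lit 606240) (nat_lit 9) (.e (nat_lit 247) (nat_lit 21) (.e (nat_lit 336011) (nat_lit 2) .nil)))))))) (.g (nat_lit 4) .nil .nil))))) (.nd (nat_lit 4) (.nd (nat_lit 5) 
(.lf (nat_lit 215438) (.g (nat_lit 2584) (.e (nat_lit 90170) (nat_lit 13) (.e (nat_lit 172106) (nat_lit 10) (.e (nat_lit 434231) (nat_lit 23) (.e (nat_lit 532490) (nat_lit 0) (.e (nat_lit 1012) (nat_lit 81) .nil))))) .nil)) 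
(.lf (nat_lit 215470) (.g (nat_lit 2942) (.e (nat_lit 90170) (nat_lit 13) (.e (nat_lit 172106) (nat_lit 10) (.e (nat_lit 434231) (nat_lit 23) (.e (nat_lit 532490) (nat_lit 0) (.e (nat_lit 1915) (nat_lit 130) (.e (nat_lit 606231) (nat_lit 9) (.e (nat_lit 275) (nat_lit 21) (.e (nat_lit 336011) (nat_lit 2) .nil)))))))) (.g (nat_lit 4) .nil .nil)))) (.nd (nat_lit 5) 
(.lf (nat_lit 215454) (.g (nat_lit 2689) (.e (nat_lit 90170) (nat_lit 13) (.e (nat_lit 172106) (nat_lit 10) (.e (nat_lit 434231) (nat_lit 23) (.e (nat_lit 532490) (nat_lit 0) (.e (nat_lit 1907) (nat_lit 129) (.e (nat_lit 598031) (nat_lit 5) (.e (nat_lit 1448) (nat_lit 108) (.e (nat_lit 336013) (nat_lit 2) .nil)))))))) (.g (nat_lit 4) .nil .nil))) 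
(.lf (nat_lit 215486) (.g (nat_lit 2734) (.e (nat_lit 90170) (nat_lit 13) (.e (nat_lit 172106) (nat_lit 10) (.e (nat_lit 434231) (nat_lit 23) (.e (nat_lit 532490) (nat_lit 0) (.e (nat_lit 1918) (nat_lit 130) (.e (nat_lit 606234) (nat_lit 9) (.e (nat_lit 247) (nat_lit 21) (.e (nat_lit 336011) (nat_lit 2) .nil)))))))) (.g (nat_lit 4) .nil .nil)))))))) 
(.nd (nat_lit 1) (.nd (nat_lit 2) (.nd (nat_lit 3) (.nd (nat_lit 4) (.nd (nat_lit 5) 
(.lf (nat_lit 215425) (.g (nat_lit 2827) (.e (nat_lit 90170) (nat_lit 13) (.e (nat_lit 172106) (nat_lit 10) (.e (nat_lit 434231) (nat_lit 23) (.e (nat_lit 532490) (nat_lit 0) (.e (nat_lit 990) (nat_lit 81) (.e (nat_lit 4500) (nat_lit 263) (.e (nat_lit 993) (nat_lit 81) (.e (nat_lit 1449) (nat_lit 108) (.e (nat_lit 336013) (nat_lit 2) .nil))))))))) (.g (nat_lit 4) .nil .nil))) 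
(.lf (nat_lit 215457) (.g (nat_lit 2935) (.e (nat_lit 90170) (nat_lit 13) (.e (nat_lit 172106) (nat_lit 10) (.e (nat_lit 434231) (nat_lit 23) (.e (nat_lit 532490) (nat_lit 0) (.e (nat_lit 1908) (nat_lit 129) (.e (nat_lit 598023) (nat_lit 5) (.e (nat_lit 1464) (nat_lit 108) (.e (nat_lit 336013) (nat_lit 2) .nil)))))))) (.g (nat_lit 8) .nil .nil)))) (.nd (nat_lit 5) 
(.lf (nat_lit 215441) (.g (nat_lit 1889) (.e (nat_lit 90170) (nat_lit 13) (.e (nat_lit 172106) (nat_lit 10) (.e (nat_lit 434231) (nat_lit 23) (.e (nat_lit 532490) (nat_lit 0) (.e (nat_lit 1040) (nat_lit 81) (.e (nat_lit 4511) (nat_lit 263) (.e (nat_lit 1187) (nat_lit 88) (.e (nat_lit 65568) (nat_lit 2) .nil)))))))) (.g (nat_lit 4) .nil .nil))) 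
(.lf (nat_lit 215473) (.g (nat_lit 3300) (.e (nat_lit 90170) (nat_lit 13) (.e (nat_lit 172106) (nat_lit 10) (.e (nat_lit 434231) (nat_lit 23) (.e (nat_lit 532490) (nat_lit 0) (.e (nat_lit 1915) (nat_lit 130) (.e (nat_lit 606233) (nat_lit 9) (.e (nat_lit 247) (nat_lit 21) (.e (nat_lit 336011) (nat_lit 2) .nil)))))))) (.g (nat_lit 4) .nil .nil))))) (.nd (nat_lit 4) (.nd (nat_lit 5) 
(.lf (nat_lit 215433) (.g (nat_lit 3862) (.e (nat_lit 90170) (nat_lit 13) (.e (nat_lit 172106) (nat_lit 10) (.e (nat_lit 434231) (nat_lit 23) (.e (nat_lit 532490) (nat_lit 0) (.e (nat_lit 991) (nat_lit 81) (.e (nat_lit 4500) (nat_lit 263) (.e (nat_lit 1008) (nat_lit 81) (.e (nat_lit 1464) (nat_lit 108) (.e (nat_lit 336013) (nat_lit 2) .nil))))))))) (.g (nat_lit 9) .nil .nil))) 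
(.lf (nat_lit 215465) (.g (nat_lit 2584) (.e (nat_lit 90170) (nat_lit 13) (.e (nat_lit 172106) (nat_lit 10) (.e (nat_lit 434231) (nat_lit 23) (.e (nat_lit 532490) (nat_lit 0) (.e (nat_lit 1915) (nat_lit 130) .nil))))) .nil))) (.nd (nat_lit 5) 
(.lf (nat_lit 215449) (.g (nat_lit 2450) (.e (nat_lit 90170) (nat_lit 13) (.e (nat_lit 172106) (nat_lit 10) (.e (nat_lit 434231) (nat_lit 23) (.e (nat_lit 532490) (nat_lit 0) (.e (nat_lit 1905) (nat_lit 129) .nil))))) .nil)) 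
(.lf (nat_lit 215481) (.g (nat_lit 2764) (.e (nat_lit 90170) (nat_lit 13) (.e (nat_lit 172106) (nat_lit 10) (.e (nat_lit 434231) (nat_lit 23) (.e (nat_lit 532490) (nat_lit 0) (.e (nat_lit 1918) (nat_lit 130) (.e (nat_lit 606231) (nat_lit 9) (.e (nat_lit 247) (nat_lit 21) (.e (nat_lit 336011) (nat_lit 2) .nil)))))))) (.g (nat_lit 4) .nil .nil)))))) 
(.nd (nat_lit 3) (.nd (nat_lit 4) (.nd (nat_lit 5) 
(.lf (nat_lit 215429) (.g (nat_lit 2576) (.e (nat_lit 90170) (nat_lit 13) (.e (nat_lit 172106) (nat_lit 10) (.e (nat_lit 434231) (nat_lit 23) (.e (nat_lit 532490) (nat_lit 0) (.e (nat_lit 991) (nat_lit 81) .nil))))) .nil)) 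
(.lf (nat_lit 215461) (.g (nat_lit 2207) (.e (nat_lit 90170) (nat_lit 13) (.e (nat_lit 172106) (nat_lit 10) (.e (nat_lit 434231) (nat_lit 23) (.e (nat_lit 532490) (nat_lit 0) (.e (nat_lit 1910) (nat_lit 129) .nil))))) .nil))) (.nd (nat_lit 5) 
(.lf (nat_lit 215445) (.g (nat_lit 2038) (.e (nat_lit 90170) (nat_lit 13) (.e (nat_lit 172106) (nat_lit 10) (.e (nat_lit 434231) (nat_lit 23) (.e (nat_lit 532490) (nat_lit 0) (.e (nat_lit 7936) (nat_lit 81) .nil))))) .nil)) 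
(.lf (nat_lit 215477) (.g (nat_lit 2852) (.e (nat_lit 90170) (nat_lit 13) (.e (nat_lit 172106) (nat_lit 10) (.e (nat_lit 434231) (nat_lit 23) (.e (nat_lit 532490) (nat_lit 0) (.e (nat_lit 1915) (nat_lit 130) (.e (nat_lit 606238) (nat_lit 9) (.e (nat_lit 247) (nat_lit 21) (.e (nat_lit 336011) (nat_lit 2) .nil)))))))) (.g (nat_lit 4) .nil .nil))))) (.nd (nat_lit 4) (.nd (nat_lit 5) 
(.lf (nat_lit 215437) (.g (nat_lit 2880) (.e (nat_lit 90170) (nat_lit 13) (.e (nat_lit 172106) (nat_lit 10) (.e (nat_lit 434231) (nat_lit 23) (.e (nat_lit 532490) (nat_lit 0) (.e (nat_lit 1008) (nat_lit 81) (.e (nat_lit 4530) (nat_lit 266) (.e (nat_lit 122903) (nat_lit 12) (.e (nat_lit 336013) (nat_lit 2) .nil)))))))) (.g (nat_lit 4) .nil .nil))) 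
(.lf (nat_lit 215469) (.g (nat_lit 3505) (.e (nat_lit 90170) (nat_lit 13) (.e (nat_lit 172106) (nat_lit 10) (.e (nat_lit 434231) (nat_lit 23) (.e (nat_lit 532490) (nat_lit 0) (.e (nat_lit 1915) (nat_lit 130) (.e (nat_lit 606231) (nat_lit 9) (.e (nat_lit 251) (nat_lit 21) (.e (nat_lit 336011) (nat_lit 2) .nil)))))))) (.g (nat_lit 4) .nil .nil)))) (.nd (nat_lit 5) 
(.lf (nat_lit 215453) (.g (nat_lit 2358) (.e (nat_lit 90170) (nat_lit 13) (.e (nat_lit 172106) (nat_lit 10) (.e (nat_lit 434231) (nat_lit 23) (.e (nat_lit 532490) (nat_lit 0) (.e (nat_lit 1907) (nat_lit 129) .nil))))) .nil)) 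
(.lf (nat_lit 215485) (.g (nat_lit 3347) (.e (nat_lit 90170) (nat_lit 13) (.e (nat_lit 172106) (nat_lit 10) (.e (nat_lit 434231) (nat_lit 23) (.e (nat_lit 532490) (nat_lit 0) (.e (nat_lit 1918) (nat_lit 130) (.e (nat_lit 606233) (nat_lit 9) (.e (nat_lit 247) (nat_lit 21) (.e (nat_lit 336011) (nat_lit 2) .nil)))))))) (.g (nat_lit 4) .nil .nil))))))) 
(.nd (nat_lit 2) (.nd (nat_lit 3) (.nd (nat_lit 4) (.nd (nat_lit 5) 
(.lf (nat_lit 215427) (.g (nat_lit 2636) (.e (nat_lit 90170) (nat_lit 13) (.e (nat_lit 172106) (nat_lit 10) (.e (nat_lit 434231) (nat_lit 23) (.e (nat_lit 532490) (nat_lit 0) (.e (nat_lit 990) (nat_lit 81) (.e (nat_lit 4500) (nat_lit 263) (.e (nat_lit 1189) (nat_lit 88) (.e (nat_lit 65568) (nat_lit 2) .nil)))))))) (.g (nat_lit 4) .nil .nil))) 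
(.lf (nat_lit 215459) (.g (nat_lit 2176) (.e (nat_lit 90170) (nat_lit 13) (.e (nat_lit 172106) (nat_lit 10) (.e (nat_lit 434231) (nat_lit 23) (.e (nat_lit 532490) (nat_lit 0) (.e (nat_lit 1909) (nat_lit 129) .nil))))) .nil))) (.nd (nat_lit 5) 
(.lf (nat_lit 215443) (.g (nat_lit 2584) (.e (nat_lit 90170) (nat_lit 13) (.e (nat_lit 172106) (nat_lit 10) (.e (nat_lit 434231) (nat_lit 23) (.e (nat_lit 532490) (nat_lit 0) (.e (nat_lit 1074) (nat_lit 81) .nil))))) .nil)) 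
(.lf (nat_lit 215475) (.g (nat_lit 2698) (.e (nat_lit 90170) (nat_lit 13) (.e (nat_lit 172106) (nat_lit 10) (.e (nat_lit 434231) (nat_lit 23) (.e (nat_lit 532490) (nat_lit 0) (.e (nat_lit 1915) (nat_lit 130) (.e (nat_lit 606236) (nat_lit 9) (.e (nat_lit 247) (nat_lit 21) (.e (nat_lit 336011) (nat_lit 2) .nil)))))))) (.g (nat_lit 4) .nil .nil))))) (.nd (nat_lit 4) (.nd (nat_lit 5) 
(.lf (nat_lit 215435) (.g (nat_lit 2728) (.e (nat_lit 90170) (nat_lit 13) (.e (nat_lit 172106) (nat_lit 10) (.e (nat_lit 434231) (nat_lit 23) (.e (nat_lit 532490) (nat_lit 0) (.e (nat_lit 991) (nat_lit 81) (.e (nat_lit 4624) (nat_lit 269) (.e (nat_lit 2423) (nat_lit 157) (.e (nat_lit 232) (nat_lit 21) (.e (nat_lit 336013) (nat_lit 2) .nil))))))))) (.g (nat_lit 4) .nil .nil))) 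
(.lf (nat_lit 215467) (.g (nat_lit 3113) (.e (nat_lit 90170) (nat_lit 13) (.e (nat_lit 172106) (nat_lit 10) (.e (nat_lit 434231) (nat_lit 23) (.e (nat_lit 532490) (nat_lit 0) (.e (nat_lit 1915) (nat_lit 130) (.e (nat_lit 606231) (nat_lit 9) (.e (nat_lit 247) (nat_lit 21) (.e (nat_lit 336011) (nat_lit 2) .nil)))))))) (.g (nat_lit 4) .nil .nil)))) (.nd (nat_lit 5) 
(.lf (nat_lit 215451) (.g (nat_lit 2741) (.e (nat_lit 90170) (nat_lit 13) (.e (nat_lit 172106) (nat_lit 10) (.e (nat_lit 434231) (nat_lit 23) (.e (nat_lit 532490) (nat_lit 0) (.e (nat_lit 1905) (nat_lit 129) (.e (nat_lit 605952) (nat_lit 5) (.e (nat_lit 1464) (nat_lit 108) (.e (nat_lit 336013) (nat_lit 2) .nil)))))))) (.g (nat_lit 4) .nil .nil))) 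
(.lf (nat_lit 215483) (.g (nat_lit 3044) (.e (nat_lit 90170) (nat_lit 13) (.e (nat_lit 172106) (nat_lit 10) (.e (nat_lit 434231) (nat_lit 23) (.e (nat_lit 532490) (nat_lit 0) (.e (nat_lit 1918) (nat_lit 130) (.e (nat_lit 606231) (nat_lit 9) (.e (nat_lit 287) (nat_lit 21) (.e (nat_lit 336011) (nat_lit 2) .nil)))))))) (.g (nat_lit 4) .nil .nil)))))) 
(.nd (nat_lit 3) (.nd (nat_lit 4) (.nd (nat_lit 5) 
(.lf (nat_lit 215431) (.g (nat_lit 2845) (.e (nat_lit 90170) (nat_lit 13) (.e (nat_lit 172106) (nat_lit 10) (.e (nat_lit 434231) (nat_lit 23) (.e (nat_lit 532490) (nat_lit 0) (.e (nat_lit 991) (nat_lit 81) (.e (nat_lit 4435) (nat_lit 263) (.e (nat_lit 1296) (nat_lit 96) (.e (nat_lit 131093) (nat_lit 2) .nil)))))))) (.g (nat_lit 4) .nil .nil))) 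
(.lf (nat_lit 215463) (.g (nat_lit 3168) (.e (nat_lit 90170) (nat_lit 13) (.e (nat_lit 172106) (nat_lit 10) (.e (nat_lit 434231) (nat_lit 23) (.e (nat_lit 532490) (nat_lit 0) (.e (nat_lit 1910) (nat_lit 129) (.e (nat_lit 598023) (nat_lit 5) (.e (nat_lit 1464) (nat_lit 108) (.e (nat_lit 336013) (nat_lit 2) .nil)))))))) (.g (nat_lit 8) .nil .nil)))) (.nd (nat_lit 5) 
(.lf (nat_lit 215447) (.g (nat_lit 2621) (.e (nat_lit 90170) (nat_lit 13) (.e (nat_lit 172106) (nat_lit 10) (.e (nat_lit 434231) (nat_lit 23) (.e (nat_lit 532490) (nat_lit 0) (.e (nat_lit 7936) (nat_lit 81) (.e (nat_lit 4443) (nat_lit 263) (.e (nat_lit 1296) (nat_lit 96) (.e (nat_lit 131093) (nat_lit 2) .nil)))))))) (.g (nat_lit 4) .nil .nil))) 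
(.lf (nat_lit 215479) (.g (nat_lit 2880) (.e (nat_lit 90170) (nat_lit 13) (.e (nat_lit 172106) (nat_lit 10) (.e (nat_lit 434231) (nat_lit 23) (.e (nat_lit 532490) (nat_lit 0) (.e (nat_lit 1915) (nat_lit 130) (.e (nat_lit 614144) (nat_lit 9) (.e (nat_lit 232) (nat_lit 21) (.e (nat_lit 336013) (nat_lit 2) .nil)))))))) (.g (nat_lit 4) .nil .nil))))) (.nd (nat_lit 4) (.nd (nat_lit 5) 
(.lf (nat_lit 215439) (.g (nat_lit 1849) (.e (nat_lit 90170) (nat_lit 13) (.e (nat_lit 172106) (nat_lit 10) (.e (nat_lit 434231) (nat_lit 23) (.e (nat_lit 532490) (nat_lit 0) (.e (nat_lit 1040) (nat_lit 81) .nil))))) .nil)) 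
(.lf (nat_lit 215471) (.g (nat_lit 3393) (.e (nat_lit 90170) (nat_lit 13) (.e (nat_lit 172106) (nat_lit 10) (.e (nat_lit 434231) (nat_lit 23) (.e (nat_lit 532490) (nat_lit 0) (.e (nat_lit 1915) (nat_lit 130) (.e (nat_lit 606231) (nat_lit 9) (.e (nat_lit 287) (nat_lit 21) (.e (nat_lit 336011) (nat_lit 2) .nil)))))))) (.g (nat_lit 4) .nil .nil)))) (.nd (nat_lit 5) 
(.lf (nat_lit 215455) (.g (nat_lit 2694) (.e (nat_lit 90170) (nat_lit 13) (.e (nat_lit 172106) (nat_lit 10) (.e (nat_lit 434231) (nat_lit 23) (.e (nat_lit 532490) (nat_lit 0) (.e (nat_lit 1907) (nat_lit 129) (.e (nat_lit 598043) (nat_lit 12) (.e (nat_lit 131093) (nat_lit 2) .nil))))))) (.g (nat_lit 4) .nil .nil))) 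
(.lf (nat_lit 215487) (.g (nat_lit 2742) (.e (nat_lit 90170) (nat_lit 13) (.e (nat_lit 172106) (nat_lit 10) (.e (nat_lit 434231) (nat_lit 23) (.e (nat_lit 532490) (nat_lit 0) (.e (nat_lit 1918) (nat_lit 130) (.e (nat_lit 606235) (nat_lit 9) (.e (nat_lit 247) (nat_lit 21) (.e (nat_lit 336011) (nat_lit 2) .nil)))))))) (.g (nat_lit 4) .nil .nil)))))))))

noncomputable def tv2831 : DT := (.nd (nat_lit 0) (.nd (nat_lit 1) (.nd (nat_lit 2) (.nd (nat_lit 3) (.nd (nat_lit 4) (.nd (nat_lit 5) 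
(.lf (nat_lit 215488) (.g (nat_lit 3316) (.e (nat_lit 90170) (nat_lit 13) (.e (nat_lit 172106) (nat_lit 10) (.e (nat_lit 434231) (nat_lit 23) (.e (nat_lit 532490) (nat_lit 0) (.e (nat_lit 1918) (nat_lit 130) (.e (nat_lit 606235) (nat_lit 9) (.e (nat_lit 250) (nat_lit 21) (.e (nat_lit 336011) (nat_lit 2) .nil)))))))) (.g (nat_lit 4) .nil .nil))) 
(.lf (nat_lit 215520) (.g (nat_lit 3297) (.e (nat_lit 90170) (nat_lit 13) (.e (nat_lit 172106) (nat_lit 10) (.e (nat_lit 434231) (nat_lit 23) (.e (nat_lit 532490) (nat_lit 0) (.e (nat_lit 6147) (nat_lit 332) (.e (nat_lit 1368) (nat_lit 103) (.e (nat_lit 294928) (nat_lit 2) .nil))))))) (.g (nat_lit 4) .nil .nil)))) (.nd (nat_lit 5) 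
(.lf (nat_lit 215504) (.g (nat_lit 3050) (.e (nat_lit 90170) (nat_lit 13) (.e (nat_lit 172106) (nat_lit 10) (.e (nat_lit 434231) (nat_lit 23) (.e (nat_lit 532490) (nat_lit 0) (.e (nat_lit 6114) (nat_lit 332) (.e (nat_lit 973) (nat_lit 81) (.e (nat_lit 5355) (nat_lit 298) (.e (nat_lit 1235) (nat_lit 91) .nil)))))))) (.g (nat_lit 4) .nil .nil))) 
(.lf (nat_lit 215536) (.g (nat_lit 2203) (.e (nat_lit 90170) (nat_lit 13) (.e (nat_lit 172106) (nat_lit 10) (.e (nat_lit 434231) (nat_lit 23) (.e (nat_lit 532490) (nat_lit 0) (.e (nat_lit 6223) (nat_lit 334) (.e (nat_lit 123204) (nat_lit 270) (.e (nat_lit 1232) (nat_lit 91) .nil))))))) (.g (nat_lit 4) .nil .nil))))) (.nd (nat_lit 4) (.nd (nat_lit 5) 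
(.lf (nat_lit 215496) (.g (nat_lit 2965) (.e (nat_lit 90170) (nat_lit 13) (.e (nat_lit 172106) (nat_lit 10) (.e (nat_lit 434231) (nat_lit 23) (.e (nat_lit 532490) (nat_lit 0) (.e (nat_lit 6092) (nat_lit 332) (.e (nat_lit 1075) (nat_lit 81) (.e (nat_lit 5293) (nat_lit 298) (.e (nat_lit 1232) (nat_lit 91) .nil)))))))) (.g (nat_lit 5) .nil .nil))) 
(.lf (nat_lit 215528) (.g (nat_lit 2708) (.e (nat_lit 90170) (nat_lit 13) (.e (nat_lit 172106) (nat_lit 10) (.e (nat_lit 434231) (nat_lit 23) (.e (nat_lit 532490) (nat_lit 0) (.e (nat_lit 7936) (nat_lit 332) (.e (nat_lit 1006) (nat_lit 81) (.e (nat_lit 5271) (nat_lit 298) (.e (nat_lit 1239) (nat_lit 91) .nil)))))))) (.g (nat_lit 4) .nil .nil)))) (.nd (nat_lit 5) 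
(.lf (nat_lit 215512) (.g (nat_lit 3646) (.e (nat_lit 90170) (nat_lit 13) (.e (nat_lit 172106) (nat_lit 10) (.e (nat_lit 434231) (nat_lit 23) (.e (nat_lit 532490) (nat_lit 0) (.e (nat_lit 6136) (nat_lit 332) (.e (nat_lit 990) (nat_lit 81) (.e (nat_lit 5346) (nat_lit 298) (.e (nat_lit 1237) (nat_lit 91) .nil)))))))) (.g (nat_lit 4) .nil .nil))) 
(.lf (nat_lit 215544) (.g (nat_lit 2730) (.e (nat_lit 90170) (nat_lit 13) (.e (nat_lit 172106) (nat_lit 10) (.e (nat_lit 434231) (nat_lit 23) (.e (nat_lit 532494) (nat_lit 0) .nil)))) .nil))))) (.nd (nat_lit 3) (.nd (nat_lit 4) (.nd (nat_lit 5) 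
(.lf (nat_lit 215492) (.g (nat_lit 2686) (.e (nat_lit 90170) (nat_lit 13) (.e (nat_lit 172106) (nat_lit 10) (.e (nat_lit 434231) (nat_lit 23) (.e (nat_lit 532490) (nat_lit 0) (.e (nat_lit 1918) (nat_lit 130) (.e (nat_lit 606236) (nat_lit 9) (.e (nat_lit 284) (nat_lit 21) (.e (nat_lit 336010) (nat_lit 2) .nil)))))))) (.g (nat_lit 4) .nil .nil))) 
(.lf (nat_lit 215524) (.g (nat_lit 2102) (.e (nat_lit 90170) (nat_lit 13) (.e (nat_lit 172106) (nat_lit 10) (.e (nat_lit 434231) (nat_lit 23) (.e (nat_lit 532490) (nat_lit 0) (.e (nat_lit 6149) (nat_lit 332) (.e (nat_lit 1074) (nat_lit 81) (.e (nat_lit 5293) (nat_lit 298) (.e (nat_lit 1232) (nat_lit 91) .nil)))))))) (.g (nat_lit 4) .nil .nil)))) (.nd (nat_lit 5) 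
(.lf (nat_lit 215508) (.g (nat_lit 3017) (.e (nat_lit 90170) (nat_lit 13) (.e (nat_lit 172106) (nat_lit 10) (.e (nat_lit 434231) (nat_lit 23) (.e (nat_lit 532490) (nat_lit 0) (.e (nat_lit 6114) (nat_lit 332) (.e (nat_lit 1080) (nat_lit 81) (.e (nat_lit 5293) (nat_lit 298) (.e (nat_lit 1232) (nat_lit 91) .nil)))))))) (.g (nat_lit 5) .nil .nil))) 
(.lf (nat_lit 215540) (.g (nat_lit 3718) (.e (nat_lit 90170) (nat_lit 13) (.e (nat_lit 172106) (nat_lit 10) (.e (nat_lit 434231) (nat_lit 23) (.e (nat_lit 532490) (nat_lit 0) (.e (nat_lit 6223) (nat_lit 334) (.e (nat_lit 130816) (nat_lit 270) (.e (nat_lit 1237) (nat_lit 91) .nil))))))) (.g (nat_lit 4) .nil .nil))))) (.nd (nat_lit 4) (.nd (nat_lit 5) 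
(.lf (nat_lit 215500) (.g (nat_lit 3149) (.e (nat_lit 90170) (nat_lit 13) (.e (nat_lit 172106) (nat_lit 10) (.e (nat_lit 434231) (nat_lit 23) (.e (nat_lit 532490) (nat_lit 0) (.e (nat_lit 6114) (nat_lit 332) (.e (nat_lit 970) (nat_lit 81) (.e (nat_lit 5345) (nat_lit 298) (.e (nat_lit 1237) (nat_lit 91) .nil)))))))) (.g (nat_lit 4) .nil .nil))) 
(.lf (nat_lit 215532) (.g (nat_lit 2552) (.e (nat_lit 90170) (nat_lit 13) (.e (nat_lit 172106) (nat_lit 10) (.e (nat_lit 434231) (nat_lit 23) (.e (nat_lit 532490) (nat_lit 0) (.e (nat_lit 6206) (nat_lit 333) (.e (nat_lit 57888) (nat_lit 270) (.e (nat_lit 1225) (nat_lit 91) .nil))))))) (.g (nat_lit 4) .nil .nil)))) (.nd (nat_lit 5) 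
(.lf (nat_lit 215516) (.g (nat_lit 2241) (.e (nat_lit 90170) (nat_lit 13) (.e (nat_lit 172106) (nat_lit 10) (.e (nat_lit 434231) (nat_lit 23) (.e (nat_lit 532490) (nat_lit 0) (.e (nat_lit 6136) (nat_lit 332) (.e (nat_lit 1023) (nat_lit 81) (.e (nat_lit 5296) (nat_lit 298) (.e (nat_lit 1232) (nat_lit 91) .nil)))))))) (.g (nat_lit 4) .nil .nil))) 
(.lf (nat_lit 215548) (.g (nat_lit 3225) (.e (nat_lit 90170) (nat_lit 13) (.e (nat_lit 172106) (nat_lit 10) (.e (nat_lit 434231) (nat_lit 23) (.e (nat_lit 532499) (nat_lit 1) (.e (nat_lit 57765) (nat_lit 221) (.e (nat_lit 1074) (nat_lit 81) (.e (nat_lit 1413) (nat_lit 108) (.e (nat_lit 336013) (nat_lit 2) .nil)))))))) (.g (nat_lit 4) .nil .nil))))))) 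
(.nd (nat_lit 2) (.nd (nat_lit 3) (.nd (nat_lit 4) (.nd (nat_lit 5) 
(.lf (nat_lit 215490) (.g (nat_lit 3389) (.e (nat_lit 90170) (nat_lit 13) (.e (nat_lit 172106) (nat_lit 10) (.e (nat_lit 434231) (nat_lit 23) (.e (nat_lit 532490) (nat_lit 0) (.e (nat_lit 1918) (nat_lit 130) (.e (nat_lit 606236) (nat_lit 9) (.e (nat_lit 250) (nat_lit 21) (.e (nat_lit 336011) (nat_lit 2) .nil)))))))) (.g (nat_lit 4) .nil .nil))) 
(.lf (nat_lit 215522) (.g (nat_lit 3128) (.e (nat_lit 90170) (nat_lit 13) (.e (nat_lit 172106) (nat_lit 10) (.e (nat_lit 434231) (nat_lit 23) (.e (nat_lit 532490) (nat_lit 0) (.e (nat_lit 6148) (nat_lit 332) (.e (nat_lit 1348) (nat_lit 102) (.e (nat_lit 286732) (nat_lit 2) .nil))))))) (.g (nat_lit 4) .nil .nil)))) (.nd (nat_lit 5) 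
(.lf (nat_lit 215506) (.g (nat_lit 2841) (.e (nat_lit 90170) (nat_lit 13) (.e (nat_lit 172106) (nat_lit 10) (.e (nat_lit 434231) (nat_lit 23) (.e (nat_lit 532490) (nat_lit 0) (.e (nat_lit 6114) (nat_lit 332) (.e (nat_lit 980) (nat_lit 81) (.e (nat_lit 5293) (nat_lit 298) (.e (nat_lit 1232) (nat_lit 91) .nil)))))))) (.g (nat_lit 5) .nil .nil))) 
(.lf (nat_lit 215538) (.g (nat_lit 3173) (.e (nat_lit 90170) (nat_lit 13) (.e (nat_lit 172106) (nat_lit 10) (.e (nat_lit 434231) (nat_lit 23) (.e (nat_lit 532490) (nat_lit 0) (.e (nat_lit 6223) (nat_lit 334) (.e (nat_lit 123206) (nat_lit 270) (.e (nat_lit 1225) (nat_lit 91) .nil))))))) (.g (nat_lit 4) .nil .nil))))) (.nd (nat_lit 4) (.nd (nat_lit 5) 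
(.lf (nat_lit 215498) (.g (nat_lit 3064) (.e (nat_lit 90170) (nat_lit 13) (.e (nat_lit 172106) (nat_lit 10) (.e (nat_lit 434231) (nat_lit 23) (.e (nat_lit 532490) (nat_lit 0) (.e (nat_lit 6114) (nat_lit 332) (.e (nat_lit 968) (nat_lit 81) (.e (nat_lit 5293) (nat_lit 298) (.e (nat_lit 1232) (nat_lit 91) .nil)))))))) (.g (nat_lit 5) .nil .nil))) 
(.lf (nat_lit 215530) (.g (nat_lit 3589) (.e (nat_lit 90170) (nat_lit 13) (.e (nat_lit 172106) (nat_lit 10) (.e (nat_lit 434231) (nat_lit 23) (.e (nat_lit 532490) (nat_lit 0) (.e (nat_lit 6206) (nat_lit 333) (.e (nat_lit 57883) (nat_lit 270) (.e (nat_lit 7936) (nat_lit 91) .nil))))))) (.g (nat_lit 6) .nil .nil)))) (.nd (nat_lit 5) 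
(.lf (nat_lit 215514) (.g (nat_lit 2945) (.e (nat_lit 90170) (nat_lit 13) (.e (nat_lit 172106) (nat_lit 10) (.e (nat_lit 434231) (nat_lit 23) (.e (nat_lit 532490) (nat_lit 0) (.e (nat_lit 6136) (nat_lit 332) (.e (nat_lit 992) (nat_lit 81) (.e (nat_lit 5351) (nat_lit 298) (.e (nat_lit 1235) (nat_lit 91) .nil)))))))) (.g (nat_lit 4) .nil .nil))) 
(.lf (nat_lit 215546) (.g (nat_lit 2110) (.e (nat_lit 90170) (nat_lit 13) (.e (nat_lit 172106) (nat_lit 10) (.e (nat_lit 434231) (nat_lit 23) (.e (nat_lit 532498) (nat_lit 1) .nil)))) .nil))))) (.nd (nat_lit 3) (.nd (nat_lit 4) (.nd (nat_lit 5) 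
(.lf (nat_lit 215494) (.g (nat_lit 2956) (.e (nat_lit 90170) (nat_lit 13) (.e (nat_lit 172106) (nat_lit 10) (.e (nat_lit 434231) (nat_lit 23) (.e (nat_lit 532490) (nat_lit 0) (.e (nat_lit 1918) (nat_lit 130) (.e (nat_lit 606238) (nat_lit 9) (.e (nat_lit 247) (nat_lit 21) (.e (nat_lit 336011) (nat_lit 2) .nil)))))))) (.g (nat_lit 4) .nil .nil))) 
(.lf (nat_lit 215526) (.g (nat_lit 3149) (.e (nat_lit 90170) (nat_lit 13) (.e (nat_lit 172106) (nat_lit 10) (.e (nat_lit 434231) (nat_lit 23) (.e (nat_lit 532490) (nat_lit 0) (.e (nat_lit 6167) (nat_lit 332) (.e (nat_lit 1074) (nat_lit 81) (.e (nat_lit 5270) (nat_lit 298) (.e (nat_lit 1239) (nat_lit 91) .nil)))))))) (.g (nat_lit 4) .nil .nil)))) (.nd (nat_lit 5) 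
(.lf (nat_lit 215510) (.g (nat_lit 3337) (.e (nat_lit 90170) (nat_lit 13) (.e (nat_lit 172106) (nat_lit 10) (.e (nat_lit 434231) (nat_lit 23) (.e (nat_lit 532490) (nat_lit 0) (.e (nat_lit 6114) (nat_lit 332) (.e (nat_lit 1361) (nat_lit 102) (.e (nat_lit 286732) (nat_lit 2) .nil))))))) (.g (nat_lit 5) .nil .nil))) 
(.lf (nat_lit 215542) (.g (nat_lit 2578) (.e (nat_lit 90170) (nat_lit 13) (.e (nat_lit 172106) (nat_lit 10) (.e (nat_lit 434231) (nat_lit 23) (.e (nat_lit 532491) (nat_lit 0) .nil)))) .nil)))) (.nd (nat_lit 4) (.nd (nat_lit 5) 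
(.lf (nat_lit 215502) (.g (nat_lit 2916) (.e (nat_lit 90170) (nat_lit 13) (.e (nat_lit 172106) (nat_lit 10) (.e (nat_lit 434231) (nat_lit 23) (.e (nat_lit 532490) (nat_lit 0) (.e (nat_lit 6114) (nat_lit 332) (.e (nat_lit 972) (nat_lit 81) (.e (nat_lit 5355) (nat_lit 298) (.e (nat_lit 1235) (nat_lit 91) .nil)))))))) (.g (nat_lit 4) .nil .nil))) 
(.lf (nat_lit 215534) (.g (nat_lit 3157) (.e (nat_lit 90170) (nat_lit 13) (.e (nat_lit 172106) (nat_lit 10) (.e (nat_lit 434231) (nat_lit 23) (.e (nat_lit 532490) (nat_lit 0) (.e (nat_lit 6206) (nat_lit 333) (.e (nat_lit 65280) (nat_lit 270) (.e (nat_lit 1237) (nat_lit 91) .nil))))))) (.g (nat_lit 4) .nil .nil)))) (.nd (nat_lit 5) 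
(.lf (nat_lit 215518) (.g (nat_lit 2751) (.e (nat_lit 90170) (nat_lit 13) (.e (nat_lit 172106) (nat_lit 10) (.e (nat_lit 434231) (nat_lit 23) (.e (nat_lit 532490) (nat_lit 0) (.e (nat_lit 6147) (nat_lit 332) (.e (nat_lit 1074) (nat_lit 81) (.e (nat_lit 5270) (nat_lit 298) (.e (nat_lit 1239) (nat_lit 91) .nil)))))))) (.g (nat_lit 4) .nil .nil))) 
(.lf (nat_lit 215550) (.g (nat_lit 2351) (.e (nat_lit 90170) (nat_lit 13) (.e (nat_lit 172106) (nat_lit 10) (.e (nat_lit 434231) (nat_lit 23) (.e (nat_lit 532499) (nat_lit 1) (.e (nat_lit 57766) (nat_lit 221) .nil))))) .nil))))))) (.nd (nat_lit 1) (.nd (nat_lit 2) (.nd (nat_lit 3) (.nd (nat_lit 4) (.nd (nat_lit 5) 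
(.lf (nat_lit 215489) (.g (nat_lit 3426) (.e (nat_lit 90170) (nat_lit 13) (.e (nat_lit 172106) (nat_lit 10) (.e (nat_lit 434231) (nat_lit 23) (.e (nat_lit 532490) (nat_lit 0) (.e (nat_lit 1918) (nat_lit 130) (.e (nat_lit 606236) (nat_lit 9) (.e (nat_lit 247) (nat_lit 21) (.e (nat_lit 336011) (nat_lit 2) .nil)))))))) (.g (nat_lit 4) .nil .nil))) 
(.lf (nat_lit 215521) (.g (nat_lit 2584) (.e (nat_lit 90170) (nat_lit 13) (.e (nat_lit 172106) (nat_lit 10) (.e (nat_lit 434231) (nat_lit 23) (.e (nat_lit 532490) (nat_lit 0) (.e (nat_lit 6148) (nat_lit 332) .nil))))) .nil))) (.nd (nat_lit 5) 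
(.lf (nat_lit 215505) (.g (nat_lit 3973) (.e (nat_lit 90170) (nat_lit 13) (.e (nat_lit 172106) (nat_lit 10) (.e (nat_lit 434231) (nat_lit 23) (.e (nat_lit 532490) (nat_lit 0) (.e (nat_lit 6114) (nat_lit 332) (.e (nat_lit 973) (nat_lit 81) (.e (nat_lit 7936) (nat_lit 298) (.e (nat_lit 1237) (nat_lit 91) .nil)))))))) (.g (nat_lit 5) .nil .nil))) 
(.lf (nat_lit 215537) (.g (nat_lit 2466) (.e (nat_lit 90170) (nat_lit 13) (.e (nat_lit 172106) (nat_lit 10) (.e (nat_lit 434231) (nat_lit 23) (.e (nat_lit 532490) (nat_lit 0) (.e (nat_lit 6223) (nat_lit 334) (.e (nat_lit 123205) (nat_lit 270) (.e (nat_lit 1225) (nat_lit 91) .nil))))))) (.g (nat_lit 4) .nil .nil))))) (.nd (nat_lit 4) (.nd (nat_lit 5) 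
(.lf (nat_lit 215497) (.g (nat_lit 2621) (.e (nat_lit 90170) (nat_lit 13) (.e (nat_lit 172106) (nat_lit 10) (.e (nat_lit 434231) (nat_lit 23) (.e (nat_lit 532490) (nat_lit 0) (.e (nat_lit 6092) (nat_lit 332) (.e (nat_lit 1358) (nat_lit 102) (.e (nat_lit 286732) (nat_lit 2) .nil))))))) (.g (nat_lit 4) .nil .nil))) 
(.lf (nat_lit 215529) (.g (nat_lit 2843) (.e (nat_lit 90170) (nat_lit 13) (.e (nat_lit 172106) (nat_lit 10) (.e (nat_lit 434231) (nat_lit 23) (.e (nat_lit 532490) (nat_lit 0) (.e (nat_lit 6206) (nat_lit 333) (.e (nat_lit 57881) (nat_lit 270) (.e (nat_lit 7936) (nat_lit 91) .nil))))))) (.g (nat_lit 4) .nil .nil)))) (.nd (nat_lit 5) 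
(.lf (nat_lit 215513) (.g (nat_lit 3248) (.e (nat_lit 90170) (nat_lit 13) (.e (nat_lit 172106) (nat_lit 10) (.e (nat_lit 434231) (nat_lit 23) (.e (nat_lit 532490) (nat_lit 0) (.e (nat_lit 6136) (nat_lit 332) (.e (nat_lit 991) (nat_lit 81) (.e (nat_lit 5346) (nat_lit 298) (.e (nat_lit 1237) (nat_lit 91) .nil)))))))) (.g (nat_lit 4) .nil .nil))) 
(.lf (nat_lit 215545) (.g (nat_lit 2679) (.e (nat_lit 90170) (nat_lit 13) (.e (nat_lit 172106) (nat_lit 10) (.e (nat_lit 434231) (nat_lit 23) (.e (nat_lit 532496) (nat_lit 0) .nil)))) .nil))))) (.nd (nat_lit 3) (.nd (nat_lit 4) (.nd (nat_lit 5) 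
(.lf (nat_lit 215493) (.g (nat_lit 2801) (.e (nat_lit 90170) (nat_lit 13) (.e (nat_lit 172106) (nat_lit 10) (.e (nat_lit 434231) (nat_lit 23) (.e (nat_lit 532490) (nat_lit 0) (.e (nat_lit 1918) (nat_lit 130) (.e (nat_lit 606237) (nat_lit 9) (.e (nat_lit 247) (nat_lit 21) (.e (nat_lit 336011) (nat_lit 2) .nil)))))))) (.g (nat_lit 4) .nil .nil))) 
(.lf (nat_lit 215525) (.g (nat_lit 2544) (.e (nat_lit 90170) (nat_lit 13) (.e (nat_lit 172106) (nat_lit 10) (.e (nat_lit 434231) (nat_lit 23) (.e (nat_lit 532490) (nat_lit 0) (.e (nat_lit 6167) (nat_lit 332) .nil))))) .nil))) (.nd (nat_lit 5) 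
(.lf (nat_lit 215509) (.g (nat_lit 3299) (.e (nat_lit 90170) (nat_lit 13) (.e (nat_lit 172106) (nat_lit 10) (.e (nat_lit 434231) (nat_lit 23) (.e (nat_lit 532490) (nat_lit 0) (.e (nat_lit 6114) (nat_lit 332) (.e (nat_lit 1083) (nat_lit 81) (.e (nat_lit 5245) (nat_lit 298) (.e (nat_lit 1239) (nat_lit 91) .nil)))))))) (.g (nat_lit 5) .nil .nil))) 
(.lf (nat_lit 215541) (.g (nat_lit 2748) (.e (nat_lit 90170) (nat_lit 13) (.e (nat_lit 172106) (nat_lit 10) (.e (nat_lit 434231) (nat_lit 23) (.e (nat_lit 532490) (nat_lit 0) (.e (nat_lit 7936) (nat_lit 334) (.e (nat_lit 123205) (nat_lit 270) (.e (nat_lit 1232) (nat_lit 91) .nil))))))) (.g (nat_lit 4) .nil .nil))))) (.nd (nat_lit 4) (.nd (nat_lit 5) 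
(.lf (nat_lit 215501) (.g (nat_lit 4018) (.e (nat_lit 90170) (nat_lit 13) (.e (nat_lit 172106) (nat_lit 10) (.e (nat_lit 434231) (nat_lit 23) (.e (nat_lit 532490) (nat_lit 0) (.e (nat_lit 6114) (nat_lit 332) (.e (nat_lit 970) (nat_lit 81) (.e (nat_lit 7936) (nat_lit 298) (.e (nat_lit 1237) (nat_lit 91) .nil)))))))) (.g (nat_lit 5) .nil .nil))) 
(.lf (nat_lit 215533) (.g (nat_lit 2383) (.e (nat_lit 90170) (nat_lit 13) (.e (nat_lit 172106) (nat_lit 10) (.e (nat_lit 434231) (nat_lit 23) (.e (nat_lit 532490) (nat_lit 0) (.e (nat_lit 6206) (nat_lit 333) (.e (nat_lit 57888) (nat_lit 270) (.e (nat_lit 1232) (nat_lit 91) .nil))))))) (.g (nat_lit 4) .nil .nil)))) (.nd (nat_lit 5) 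
(.lf (nat_lit 215517) (.g (nat_lit 2144) (.e (nat_lit 90170) (nat_lit 13) (.e (nat_lit 172106) (nat_lit 10) (.e (nat_lit 434231) (nat_lit 23) (.e (nat_lit 532490) (nat_lit 0) (.e (nat_lit 6136) (nat_lit 332) (.e (nat_lit 1074) (nat_lit 81) (.e (nat_lit 5293) (nat_lit 298) (.e (nat_lit 1232) (nat_lit 91) .nil)))))))) (.g (nat_lit 4) .nil .nil))) 
(.lf (nat_lit 215549) (.g (nat_lit 3413) (.e (nat_lit 90170) (nat_lit 13) (.e (nat_lit 172106) (nat_lit 10) (.e (nat_lit 434231) (nat_lit 23) (.e (nat_lit 532499) (nat_lit 1) (.e (nat_lit 57765) (nat_lit 221) (.e (nat_lit 1082) (nat_lit 81) (.e (nat_lit 1458) (nat_lit 108) (.e (nat_lit 336013) (nat_lit 2) .nil)))))))) (.g (nat_lit 4) .nil .nil))))))) 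
(.nd (nat_lit 2) (.nd (nat_lit 3) (.nd (nat_lit 4) (.nd (nat_lit 5) 
(.lf (nat_lit 215491) (.g (nat_lit 2895) (.e (nat_lit 90170) (nat_lit 13) (.e (nat_lit 172106) (nat_lit 10) (.e (nat_lit 434231) (nat_lit 23) (.e (nat_lit 532490) (nat_lit 0) (.e (nat_lit 1918) (nat_lit 130) (.e (nat_lit 606236) (nat_lit 9) (.e (nat_lit 284) (nat_lit 21) (.e (nat_lit 336009) (nat_lit 2) .nil)))))))) (.g (nat_lit 4) .nil .nil))) 
(.lf (nat_lit 215523) (.g (nat_lit 3388) (.e (nat_lit 90170) (nat_lit 13) (.e (nat_lit 172106) (nat_lit 10) (.e (nat_lit 434231) (nat_lit 23) (.e (nat_lit 532490) (nat_lit 0) (.e (nat_lit 6148) (nat_lit 332) (.e (nat_lit 1368) (nat_lit 103) (.e (nat_lit 294928) (nat_lit 2) .nil))))))) (.g (nat_lit 4) .nil .nil)))) (.nd (nat_lit 5) 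
(.lf (nat_lit 215507) (.g (nat_lit 3260) (.e (nat_lit 90170) (nat_lit 13) (.e (nat_lit 172106) (nat_lit 10) (.e (nat_lit 434231) (nat_lit 23) (.e (nat_lit 532490) (nat_lit 0) (.e (nat_lit 6114) (nat_lit 332) (.e (nat_lit 1076) (nat_lit 81) (.e (nat_lit 5293) (nat_lit 298) (.e (nat_lit 1232) (nat_lit 91) .nil)))))))) (.g (nat_lit 5) .nil .nil))) 
(.lf (nat_lit 215539) (.g (nat_lit 3154) (.e (nat_lit 90170) (nat_lit 13) (.e (nat_lit 172106) (nat_lit 10) (.e (nat_lit 434231) (nat_lit 23) (.e (nat_lit 532490) (nat_lit 0) (.e (nat_lit 6223) (nat_lit 334) (.e (nat_lit 123209) (nat_lit 270) (.e (nat_lit 1235) (nat_lit 91) .nil))))))) (.g (nat_lit 4) .nil .nil))))) (.nd (nat_lit 4) (.nd (nat_lit 5) 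
(.lf (nat_lit 215499) (.g (nat_lit 4116) (.e (nat_lit 90170) (nat_lit 13) (.e (nat_lit 172106) (nat_lit 10) (.e (nat_lit 434231) (nat_lit 23) (.e (nat_lit 532490) (nat_lit 0) (.e (nat_lit 6114) (nat_lit 332) (.e (nat_lit 968) (nat_lit 81) (.e (nat_lit 5346) (nat_lit 298) (.e (nat_lit 1237) (nat_lit 91) .nil)))))))) (.g (nat_lit 5) .nil .nil))) 
(.lf (nat_lit 215531) (.g (nat_lit 2356) (.e (nat_lit 90170) (nat_lit 13) (.e (nat_lit 172106) (nat_lit 10) (.e (nat_lit 434231) (nat_lit 23) (.e (nat_lit 532490) (nat_lit 0) (.e (nat_lit 6206) (nat_lit 333) (.e (nat_lit 57885) (nat_lit 270) (.e (nat_lit 1225) (nat_lit 91) .nil))))))) (.g (nat_lit 4) .nil .nil)))) (.nd (nat_lit 5) 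
(.lf (nat_lit 215515) (.g (nat_lit 2813) (.e (nat_lit 90170) (nat_lit 13) (.e (nat_lit 172106) (nat_lit 10) (.e (nat_lit 434231) (nat_lit 23) (.e (nat_lit 532490) (nat_lit 0) (.e (nat_lit 6136) (nat_lit 332) (.e (nat_lit 993) (nat_lit 81) (.e (nat_lit 5351) (nat_lit 298) (.e (nat_lit 1235) (nat_lit 91) .nil)))))))) (.g (nat_lit 4) .nil .nil))) 
(.lf (nat_lit 215547) (.g (nat_lit 1202) (.e (nat_lit 90170) (nat_lit 13) (.e (nat_lit 172106) (nat_lit 10) (.e (nat_lit 434231) (nat_lit 23) (.e (nat_lit 532499) (nat_lit 1) .nil)))) .nil))))) (.nd (nat_lit 3) (.nd (nat_lit 4) (.nd (nat_lit 5) 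
(.lf (nat_lit 215495) (.g (nat_lit 3512) (.e (nat_lit 90170) (nat_lit 13) (.e (nat_lit 172106) (nat_lit 10) (.e (nat_lit 434231) (nat_lit 23) (.e (nat_lit 532490) (nat_lit 0) (.e (nat_lit 1918) (nat_lit 130) (.e (nat_lit 606240) (nat_lit 9) (.e (nat_lit 247) (nat_lit 21) (.e (nat_lit 336011) (nat_lit 2) .nil)))))))) (.g (nat_lit 4) .nil .nil))) 
(.lf (nat_lit 215527) (.g (nat_lit 2669) (.e (nat_lit 90170) (nat_lit 13) (.e (nat_lit 172106) (nat_lit 10) (.e (nat_lit 434231) (nat_lit 23) (.e (nat_lit 532490) (nat_lit 0) (.e (nat_lit 6167) (nat_lit 332) (.e (nat_lit 1365) (nat_lit 103) (.e (nat_lit 294928) (nat_lit 2) .nil))))))) (.g (nat_lit 4) .nil .nil)))) (.nd (nat_lit 5) 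
(.lf (nat_lit 215511) (.g (nat_lit 3147) (.e (nat_lit 90170) (nat_lit 13) (.e (nat_lit 172106) (nat_lit 10) (.e (nat_lit 434231) (nat_lit 23) (.e (nat_lit 532490) (nat_lit 0) (.e (nat_lit 6114) (nat_lit 332) (.e (nat_lit 7936) (nat_lit 103) (.e (nat_lit 294927) (nat_lit 2) .nil))))))) (.g (nat_lit 4) .nil .nil))) 
(.lf (nat_lit 215543) (.g (nat_lit 2698) (.e (nat_lit 90170) (nat_lit 13) (.e (nat_lit 172106) (nat_lit 10) (.e (nat_lit 434231) (nat_lit 23) (.e (nat_lit 532492) (nat_lit 0) .nil)))) .nil)))) (.nd (nat_lit 4) (.nd (nat_lit 5) 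
(.lf (nat_lit 215503) (.g (nat_lit 3333) (.e (nat_lit 90170) (nat_lit 13) (.e (nat_lit 172106) (nat_lit 10) (.e (nat_lit 434231) (nat_lit 23) (.e (nat_lit 532490) (nat_lit 0) (.e (nat_lit 6114) (nat_lit 332) (.e (nat_lit 972) (nat_lit 81) (.e (nat_lit 7936) (nat_lit 298) (.e (nat_lit 1237) (nat_lit 91) .nil)))))))) (.g (nat_lit 4) .nil .nil))) 
(.lf (nat_lit 215535) (.g (nat_lit 2382) (.e (nat_lit 90170) (nat_lit 13) (.e (nat_lit 172106) (nat_lit 10) (.e (nat_lit 434231) (nat_lit 23) (.e (nat_lit 532490) (nat_lit 0) (.e (nat_lit 6223) (nat_lit 334) (.e (nat_lit 123204) (nat_lit 270) (.e (nat_lit 1225) (nat_lit 91) .nil))))))) (.g (nat_lit 4) .nil .nil)))) (.nd (nat_lit 5) 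
(.lf (nat_lit 215519) (.g (nat_lit 2886) (.e (nat_lit 90170) (nat_lit 13) (.e (nat_lit 172106) (nat_lit 10) (.e (nat_lit 434231) (nat_lit 23) (.e (nat_lit 532490) (nat_lit 0) (.e (nat_lit 6147) (nat_lit 332) (.e (nat_lit 1358) (nat_lit 102) (.e (nat_lit 286732) (nat_lit 2) .nil))))))) (.g (nat_lit 4) .nil .nil))) 
(.lf (nat_lit 215551) (.g (nat_lit 3406) (.e (nat_lit 90170) (nat_lit 13) (.e (nat_lit 172106) (nat_lit 10) (.e (nat_lit 434231) (nat_lit 23) (.e (nat_lit 532499) (nat_lit 1) (.e (nat_lit 57766) (nat_lit 221) (.e (nat_lit 1074) (nat_lit 81) (.e (nat_lit 1463) (nat_lit 108) (.e (nat_lit 336013) (nat_lit 2) .nil)))))))) (.g (nat_lit 4) .nil .nil)))))))))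

noncomputable def tv2832 : DT := (.nd (nat_lit 0) (.nd (nat_lit 1) (.nd (nat_lit 2) (.nd (nat_lit 3) (.nd (nat_lit 4) (.nd (nat_lit 5) 
(.lf (nat_lit 215552) (.g (nat_lit 3182) (.e (nat_lit 90170) (nat_lit 13) (.e (nat_lit 172106) (nat_lit 10) (.e (nat_lit 434231) (nat_lit 23) (.e (nat_lit 532499) (nat_lit 1) (.e (nat_lit 57766) (nat_lit 221) (.e (nat_lit 1187) (nat_lit 88) (.e (nat_lit 65568) (nat_lit 2) .nil))))))) (.g (nat_lit 4) .nil .nil))) 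
(.lf (nat_lit 215584) (.g (nat_lit 3242) (.e (nat_lit 90170) (nat_lit 13) (.e (nat_lit 172106) (nat_lit 10) (.e (nat_lit 434231) (nat_lit 23) (.e (nat_lit 532499) (nat_lit 1) (.e (nat_lit 65280) (nat_lit 233) (.e (nat_lit 2401) (nat_lit 157) (.e (nat_lit 274) (nat_lit 21) (.e (nat_lit 336011) (nat_lit 2) .nil)))))))) (.g (nat_lit 4) .nil .nil)))) (.nd (nat_lit 5) 
(.lf (nat_lit 215568) (.g (nat_lit 2859) (.e (nat_lit 90170) (nat_lit 13) (.e (nat_lit 172106) (nat_lit 10) (.e (nat_lit 434231) (nat_lit 23) (.e (nat_lit 532499) (nat_lit 1) (.e (nat_lit 65280) (nat_lit 221) (.e (nat_lit 1195) (nat_lit 88) (.e (nat_lit 65566) (nat_lit 2) .nil))))))) (.g (nat_lit 4) .nil .nil))) 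
(.lf (nat_lit 215600) (.g (nat_lit 3383) (.e (nat_lit 90170) (nat_lit 13) (.e (nat_lit 172106) (nat_lit 10) (.e (nat_lit 434231) (nat_lit 23) (.e (nat_lit 532500) (nat_lit 1) (.e (nat_lit 65280) (nat_lit 221) (.e (nat_lit 1009) (nat_lit 81) (.e (nat_lit 1464) (nat_lit 108) (.e (nat_lit 336013) (nat_lit 2) .nil)))))))) (.g (nat_lit 4) .nil .nil))))) (.nd (nat_lit 4) (.nd (nat_lit 5) 
(.lf (nat_lit 215560) (.g (nat_lit 2979) (.e (nat_lit 90170) (nat_lit 13) (.e (nat_lit 172106) (nat_lit 10) (.e (nat_lit 434231) (nat_lit 23) (.e (nat_lit 532499) (nat_lit 1) (.e (nat_lit 57767) (nat_lit 221) (.e (nat_lit 1187) (nat_lit 88) (.e (nat_lit 65566) (nat_lit 2) .nil))))))) (.g (nat_lit 4) .nil .nil))) 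
(.lf (nat_lit 215592) (.g (nat_lit 3141) (.e (nat_lit 90170) (nat_lit 13) (.e (nat_lit 172106) (nat_lit 10) (.e (nat_lit 434231) (nat_lit 23) (.e (nat_lit 532499) (nat_lit 1) (.e (nat_lit 65280) (nat_lit 233) (.e (nat_lit 2450) (nat_lit 157) (.e (nat_lit 247) (nat_lit 21) (.e (nat_lit 336011) (nat_lit 2) .nil)))))))) (.g (nat_lit 4) .nil .nil)))) (.nd (nat_lit 5) 
(.lf (nat_lit 215576) (.g (nat_lit 3450) (.e (nat_lit 90170) (nat_lit 13) (.e (nat_lit 172106) (nat_lit 10) (.e (nat_lit 434231) (nat_lit 23) (.e (nat_lit 532499) (nat_lit 1) (.e (nat_lit 57778) (nat_lit 233) (.e (nat_lit 2416) (nat_lit 157) (.e (nat_lit 232) (nat_lit 21) (.e (nat_lit 336013) (nat_lit 2) .nil)))))))) (.g (nat_lit 4) .nil .nil))) 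
(.lf (nat_lit 215608) (.g (nat_lit 3719) (.e (nat_lit 90170) (nat_lit 13) (.e (nat_lit 172106) (nat_lit 10) (.e (nat_lit 434231) (nat_lit 23) (.e (nat_lit 532500) (nat_lit 1) (.e (nat_lit 57777) (nat_lit 233) (.e (nat_lit 2479) (nat_lit 157) (.e (nat_lit 247) (nat_lit 21) (.e (nat_lit 336011) (nat_lit 2) .nil)))))))) (.g (nat_lit 4) .nil .nil)))))) 
(.nd (nat_lit 3) (.nd (nat_lit 4) (.nd (nat_lit 5) 
(.lf (nat_lit 215556) (.g (nat_lit 4121) (.e (nat_lit 90170) (nat_lit 13) (.e (nat_lit 172106) (nat_lit 10) (.e (nat_lit 434231) (nat_lit 23) (.e (nat_lit 532499) (nat_lit 1) (.e (nat_lit 57767) (nat_lit 221) (.e (nat_lit 1008) (nat_lit 81) (.e (nat_lit 1464) (nat_lit 108) (.e (nat_lit 336013) (nat_lit 2) .nil)))))))) (.g (nat_lit 7) .nil .nil))) 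
(.lf (nat_lit 215588) (.g (nat_lit 3584) (.e (nat_lit 90170) (nat_lit 13) (.e (nat_lit 172106) (nat_lit 10) (.e (nat_lit 434231) (nat_lit 23) (.e (nat_lit 532499) (nat_lit 1) (.e (nat_lit 65280) (nat_lit 233) (.e (nat_lit 2424) (nat_lit 157) (.e (nat_lit 232) (nat_lit 21) (.e (nat_lit 336013) (nat_lit 2) .nil)))))))) (.g (nat_lit 4) .nil .nil)))) (.nd (nat_lit 5) 
(.lf (nat_lit 215572) (.g (nat_lit 3300) (.e (nat_lit 90170) (nat_lit 13) (.e (nat_lit 172106) (nat_lit 10) (.e (nat_lit 434231) (nat_lit 23) (.e (nat_lit 532499) (nat_lit 1) (.e (nat_lit 65280) (nat_lit 221) (.e (nat_lit 1204) (nat_lit 88) (.e (nat_lit 65566) (nat_lit 2) .nil))))))) (.g (nat_lit 4) .nil .nil))) 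
(.lf (nat_lit 215604) (.g (nat_lit 3722) (.e (nat_lit 90170) (nat_lit 13) (.e (nat_lit 172106) (nat_lit 10) (.e (nat_lit 434231) (nat_lit 23) (.e (nat_lit 532500) (nat_lit 1) (.e (nat_lit 57776) (nat_lit 233) (.e (nat_lit 2509) (nat_lit 157) (.e (nat_lit 247) (nat_lit 21) (.e (nat_lit 336011) (nat_lit 2) .nil)))))))) (.g (nat_lit 4) .nil .nil))))) (.nd (nat_lit 4) (.nd (nat_lit 5) 
(.lf (nat_lit 215564) (.g (nat_lit 3527) (.e (nat_lit 90170) (nat_lit 13) (.e (nat_lit 172106) (nat_lit 10) (.e (nat_lit 434231) (nat_lit 23) (.e (nat_lit 532499) (nat_lit 1) (.e (nat_lit 65280) (nat_lit 221) (.e (nat_lit 1010) (nat_lit 81) (.e (nat_lit 1449) (nat_lit 108) (.e (nat_lit 336013) (nat_lit 2) .nil)))))))) (.g (nat_lit 4) .nil .nil))) 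
(.lf (nat_lit 215596) (.g (nat_lit 3045) (.e (nat_lit 90170) (nat_lit 13) (.e (nat_lit 172106) (nat_lit 10) (.e (nat_lit 434231) (nat_lit 23) (.e (nat_lit 532500) (nat_lit 1) (.e (nat_lit 57766) (nat_lit 221) (.e (nat_lit 1197) (nat_lit 88) (.e (nat_lit 65566) (nat_lit 2) .nil))))))) (.g (nat_lit 4) .nil .nil)))) (.nd (nat_lit 5) 
(.lf (nat_lit 215580) (.g (nat_lit 3144) (.e (nat_lit 90170) (nat_lit 13) (.e (nat_lit 172106) (nat_lit 10) (.e (nat_lit 434231) (nat_lit 23) (.e (nat_lit 532499) (nat_lit 1) (.e (nat_lit 57778) (nat_lit 233) (.e (nat_lit 2454) (nat_lit 157) (.e (nat_lit 247) (nat_lit 21) (.e (nat_lit 336011) (nat_lit 2) .nil)))))))) (.g (nat_lit 4) .nil .nil))) 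
(.lf (nat_lit 215612) (.g (nat_lit 3883) (.e (nat_lit 90170) (nat_lit 13) (.e (nat_lit 172106) (nat_lit 10) (.e (nat_lit 434231) (nat_lit 23) (.e (nat_lit 532500) (nat_lit 1) (.e (nat_lit 65280) (nat_lit 233) (.e (nat_lit 2475) (nat_lit 157) (.e (nat_lit 247) (nat_lit 21) (.e (nat_lit 336011) (nat_lit 2) .nil)))))))) (.g (nat_lit 4) .nil .nil))))))) 
(.nd (nat_lit 2) (.nd (nat_lit 3) (.nd (nat_lit 4) (.nd (nat_lit 5) 
(.lf (nat_lit 215554) (.g (nat_lit 2639) (.e (nat_lit 90170) (nat_lit 13) (.e (nat_lit 172106) (nat_lit 10) (.e (nat_lit 434231) (nat_lit 23) (.e (nat_lit 532499) (nat_lit 1) (.e (nat_lit 57766) (nat_lit 221) (.e (nat_lit 1197) (nat_lit 88) (.e (nat_lit 65566) (nat_lit 2) .nil))))))) (.g (nat_lit 4) .nil .nil))) 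
(.lf (nat_lit 215586) (.g (nat_lit 3213) (.e (nat_lit 90170) (nat_lit 13) (.e (nat_lit 172106) (nat_lit 10) (.e (nat_lit 434231) (nat_lit 23) (.e (nat_lit 532499) (nat_lit 1) (.e (nat_lit 65280) (nat_lit 233) (.e (nat_lit 2412) (nat_lit 157) (.e (nat_lit 274) (nat_lit 21) (.e (nat_lit 336011) (nat_lit 2) .nil)))))))) (.g (nat_lit 4) .nil .nil)))) (.nd (nat_lit 5) 
(.lf (nat_lit 215570) (.g (nat_lit 3126) (.e (nat_lit 90170) (nat_lit 13) (.e (nat_lit 172106) (nat_lit 10) (.e (nat_lit 434231) (nat_lit 23) (.e (nat_lit 532499) (nat_lit 1) (.e (nat_lit 65280) (nat_lit 221) (.e (nat_lit 1198) (nat_lit 88) (.e (nat_lit 65568) (nat_lit 2) .nil))))))) (.g (nat_lit 4) .nil .nil))) 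
(.lf (nat_lit 215602) (.g (nat_lit 3190) (.e (nat_lit 90170) (nat_lit 13) (.e (nat_lit 172106) (nat_lit 10) (.e (nat_lit 434231) (nat_lit 23) (.e (nat_lit 532500) (nat_lit 1) (.e (nat_lit 65280) (nat_lit 221) (.e (nat_lit 1195) (nat_lit 88) (.e (nat_lit 65566) (nat_lit 2) .nil))))))) (.g (nat_lit 4) .nil .nil))))) (.nd (nat_lit 4) (.nd (nat_lit 5) 
(.lf (nat_lit 215562) (.g (nat_lit 2894) (.e (nat_lit 90170) (nat_lit 13) (.e (nat_lit 172106) (nat_lit 10) (.e (nat_lit 434231) (nat_lit 23) (.e (nat_lit 532499) (nat_lit 1) (.e (nat_lit 65280) (nat_lit 221) (.e (nat_lit 1008) (nat_lit 81) (.e (nat_lit 1464) (nat_lit 108) (.e (nat_lit 336013) (nat_lit 2) .nil)))))))) (.g (nat_lit 4) .nil .nil))) 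
(.lf (nat_lit 215594) (.g (nat_lit 3715) (.e (nat_lit 90170) (nat_lit 13) (.e (nat_lit 172106) (nat_lit 10) (.e (nat_lit 434231) (nat_lit 23) (.e (nat_lit 532499) (nat_lit 1) (.e (nat_lit 65280) (nat_lit 237) (.e (nat_lit 164087) (nat_lit 73) (.e (nat_lit 336011) (nat_lit 2) .nil))))))) (.g (nat_lit 4) .nil .nil)))) (.nd (nat_lit 5) 
(.lf (nat_lit 215578) (.g (nat_lit 3626) (.e (nat_lit 90170) (nat_lit 13) (.e (nat_lit 172106) (nat_lit 10) (.e (nat_lit 434231) (nat_lit 23) (.e (nat_lit 532499) (nat_lit 1) (.e (nat_lit 57778) (nat_lit 233) (.e (nat_lit 2443) (nat_lit 157) (.e (nat_lit 247) (nat_lit 21) (.e (nat_lit 336011) (nat_lit 2) .nil)))))))) (.g (nat_lit 4) .nil .nil))) 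
(.lf (nat_lit 215610) (.g (nat_lit 3645) (.e (nat_lit 90170) (nat_lit 13) (.e (nat_lit 172106) (nat_lit 10) (.e (nat_lit 434231) (nat_lit 23) (.e (nat_lit 532500) (nat_lit 1) (.e (nat_lit 65280) (nat_lit 233) (.e (nat_lit 2427) (nat_lit 157) (.e (nat_lit 247) (nat_lit 21) (.e (nat_lit 336011) (nat_lit 2) .nil)))))))) (.g (nat_lit 4) .nil .nil)))))) 
(.nd (nat_lit 3) (.nd (nat_lit 4) (.nd (nat_lit 5) 
(.lf (nat_lit 215558) (.g (nat_lit 4307) (.e (nat_lit 90170) (nat_lit 13) (.e (nat_lit 172106) (nat_lit 10) (.e (nat_lit 434231) (nat_lit 23) (.e (nat_lit 532499) (nat_lit 1) (.e (nat_lit 57767) (nat_lit 221) (.e (nat_lit 1010) (nat_lit 81) (.e (nat_lit 1464) (nat_lit 108) (.e (nat_lit 336013) (nat_lit 2) .nil)))))))) (.g (nat_lit 8) .nil .nil))) 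
(.lf (nat_lit 215590) (.g (nat_lit 3314) (.e (nat_lit 90170) (nat_lit 13) (.e (nat_lit 172106) (nat_lit 10) (.e (nat_lit 434231) (nat_lit 23) (.e (nat_lit 532499) (nat_lit 1) (.e (nat_lit 65280) (nat_lit 233) (.e (nat_lit 2427) (nat_lit 157) (.e (nat_lit 247) (nat_lit 21) (.e (nat_lit 336011) (nat_lit 2) .nil)))))))) (.g (nat_lit 4) .nil .nil)))) (.nd (nat_lit 5) 
(.lf (nat_lit 215574) (.g (nat_lit 2597) (.e (nat_lit 90170) (nat_lit 13) (.e (nat_lit 172106) (nat_lit 10) (.e (nat_lit 434231) (nat_lit 23) (.e (nat_lit 532499) (nat_lit 1) (.e (nat_lit 65280) (nat_lit 222) .nil))))) .nil)) 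
(.lf (nat_lit 215606) (.g (nat_lit 3420) (.e (nat_lit 90170) (nat_lit 13) (.e (nat_lit 172106) (nat_lit 10) (.e (nat_lit 434231) (nat_lit 23) (.e (nat_lit 532500) (nat_lit 1) (.e (nat_lit 57776) (nat_lit 233) (.e (nat_lit 2513) (nat_lit 157) (.e (nat_lit 7936) (nat_lit 21) (.e (nat_lit 336011) (nat_lit 2) .nil)))))))) (.g (nat_lit 4) .nil .nil))))) (.nd (nat_lit 4) (.nd (nat_lit 5) 
(.lf (nat_lit 215566) (.g (nat_lit 2925) (.e (nat_lit 90170) (nat_lit 13) (.e (nat_lit 172106) (nat_lit 10) (.e (nat_lit 434231) (nat_lit 23) (.e (nat_lit 532499) (nat_lit 1) (.e (nat_lit 65280) (nat_lit 221) (.e (nat_lit 1187) (nat_lit 88) (.e (nat_lit 65568) (nat_lit 2) .nil))))))) (.g (nat_lit 4) .nil .nil))) 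
(.lf (nat_lit 215598) (.g (nat_lit 3200) (.e (nat_lit 90170) (nat_lit 13) (.e (nat_lit 172106) (nat_lit 10) (.e (nat_lit 434231) (nat_lit 23) (.e (nat_lit 532500) (nat_lit 1) (.e (nat_lit 57767) (nat_lit 221) (.e (nat_lit 1187) (nat_lit 88) (.e (nat_lit 65566) (nat_lit 2) .nil))))))) (.g (nat_lit 4) .nil .nil)))) (.nd (nat_lit 5) 
(.lf (nat_lit 215582) (.g (nat_lit 2597) (.e (nat_lit 90170) (nat_lit 13) (.e (nat_lit 172106) (nat_lit 10) (.e (nat_lit 434231) (nat_lit 23) (.e (nat_lit 532499) (nat_lit 1) (.e (nat_lit 65280) (nat_lit 233) .nil))))) .nil)) 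
(.lf (nat_lit 215614) (.g (nat_lit 2651) (.e (nat_lit 90170) (nat_lit 13) (.e (nat_lit 172106) (nat_lit 10) (.e (nat_lit 434231) (nat_lit 23) (.e (nat_lit 532501) (nat_lit 1) .nil)))) .nil))))))) (.nd (nat_lit 1) (.nd (nat_lit 2) (.nd (nat_lit 3) (.nd (nat_lit 4) (.nd (nat_lit 5) 
(.lf (nat_lit 215553) (.g (nat_lit 3069) (.e (nat_lit 90170) (nat_lit 13) (.e (nat_lit 172106) (nat_lit 10) (.e (nat_lit 434231) (nat_lit 23) (.e (nat_lit 532499) (nat_lit 1) (.e (nat_lit 57766) (nat_lit 221) (.e (nat_lit 1196) (nat_lit 88) (.e (nat_lit 65566) (nat_lit 2) .nil))))))) (.g (nat_lit 4) .nil .nil))) 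
(.lf (nat_lit 215585) (.g (nat_lit 3338) (.e (nat_lit 90170) (nat_lit 13) (.e (nat_lit 172106) (nat_lit 10) (.e (nat_lit 434231) (nat_lit 23) (.e (nat_lit 532499) (nat_lit 1) (.e (nat_lit 65280) (nat_lit 233) (.e (nat_lit 2406) (nat_lit 157) (.e (nat_lit 247) (nat_lit 21) (.e (nat_lit 336011) (nat_lit 2) .nil)))))))) (.g (nat_lit 4) .nil .nil)))) (.nd (nat_lit 5) 
(.lf (nat_lit 215569) (.g (nat_lit 3252) (.e (nat_lit 90170) (nat_lit 13) (.e (nat_lit 172106) (nat_lit 10) (.e (nat_lit 434231) (nat_lit 23) (.e (nat_lit 532499) (nat_lit 1) (.e (nat_lit 65280) (nat_lit 221) (.e (nat_lit 1196) (nat_lit 88) (.e (nat_lit 65566) (nat_lit 2) .nil))))))) (.g (nat_lit 4) .nil .nil))) 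
(.lf (nat_lit 215601) (.g (nat_lit 3413) (.e (nat_lit 90170) (nat_lit 13) (.e (nat_lit 172106) (nat_lit 10) (.e (nat_lit 434231) (nat_lit 23) (.e (nat_lit 532500) (nat_lit 1) (.e (nat_lit 65280) (nat_lit 221) (.e (nat_lit 1187) (nat_lit 88) (.e (nat_lit 65566) (nat_lit 2) .nil))))))) (.g (nat_lit 4) .nil .nil))))) (.nd (nat_lit 4) (.nd (nat_lit 5) 
(.lf (nat_lit 215561) (.g (nat_lit 2597) (.e (nat_lit 90170) (nat_lit 13) (.e (nat_lit 172106) (nat_lit 10) (.e (nat_lit 434231) (nat_lit 23) (.e (nat_lit 532499) (nat_lit 1) (.e (nat_lit 65280) (nat_lit 221) .nil))))) .nil)) 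
(.lf (nat_lit 215593) (.g (nat_lit 3552) (.e (nat_lit 90170) (nat_lit 13) (.e (nat_lit 172106) (nat_lit 10) (.e (nat_lit 434231) (nat_lit 23) (.e (nat_lit 532499) (nat_lit 1) (.e (nat_lit 65280) (nat_lit 233) (.e (nat_lit 2475) (nat_lit 157) (.e (nat_lit 247) (nat_lit 21) (.e (nat_lit 336011) (nat_lit 2) .nil)))))))) (.g (nat_lit 4) .nil .nil)))) (.nd (nat_lit 5) 
(.lf (nat_lit 215577) (.g (nat_lit 3340) (.e (nat_lit 90170) (nat_lit 13) (.e (nat_lit 172106) (nat_lit 10) (.e (nat_lit 434231) (nat_lit 23) (.e (nat_lit 532499) (nat_lit 1) (.e (nat_lit 57778) (nat_lit 233) (.e (nat_lit 2442) (nat_lit 157) (.e (nat_lit 247) (nat_lit 21) (.e (nat_lit 336011) (nat_lit 2) .nil)))))))) (.g (nat_lit 4) .nil .nil))) 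
(.lf (nat_lit 215609) (.g (nat_lit 3669) (.e (nat_lit 90170) (nat_lit 13) (.e (nat_lit 172106) (nat_lit 10) (.e (nat_lit 434231) (nat_lit 23) (.e (nat_lit 532500) (nat_lit 1) (.e (nat_lit 65280) (nat_lit 233) (.e (nat_lit 2406) (nat_lit 157) (.e (nat_lit 247) (nat_lit 21) (.e (nat_lit 336011) (nat_lit 2) .nil)))))))) (.g (nat_lit 4) .nil .nil)))))) 
(.nd (nat_lit 3) (.nd (nat_lit 4) (.nd (nat_lit 5) 
(.lf (nat_lit 215557) (.g (nat_lit 4053) (.e (nat_lit 90170) (nat_lit 13) (.e (nat_lit 172106) (nat_lit 10) (.e (nat_lit 434231) (nat_lit 23) (.e (nat_lit 532499) (nat_lit 1) (.e (nat_lit 57767) (nat_lit 221) (.e (nat_lit 1009) (nat_lit 81) (.e (nat_lit 1464) (nat_lit 108) (.e (nat_lit 336013) (nat_lit 2) .nil)))))))) (.g (nat_lit 7) .nil .nil))) 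
(.lf (nat_lit 215589) (.g (nat_lit 3523) (.e (nat_lit 90170) (nat_lit 13) (.e (nat_lit 172106) (nat_lit 10) (.e (nat_lit 434231) (nat_lit 23) (.e (nat_lit 532499) (nat_lit 1) (.e (nat_lit 65280) (nat_lit 233) (.e (nat_lit 2425) (nat_lit 157) (.e (nat_lit 232) (nat_lit 21) (.e (nat_lit 336013) (nat_lit 2) .nil)))))))) (.g (nat_lit 4) .nil .nil)))) (.nd (nat_lit 5) 
(.lf (nat_lit 215573) (.g (nat_lit 3588) (.e (nat_lit 90170) (nat_lit 13) (.e (nat_lit 172106) (nat_lit 10) (.e (nat_lit 434231) (nat_lit 23) (.e (nat_lit 532499) (nat_lit 1) (.e (nat_lit 65280) (nat_lit 221) (.e (nat_lit 1296) (nat_lit 96) (.e (nat_lit 131093) (nat_lit 2) .nil))))))) (.g (nat_lit 4) .nil .nil))) 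
(.lf (nat_lit 215605) (.g (nat_lit 3729) (.e (nat_lit 90170) (nat_lit 13) (.e (nat_lit 172106) (nat_lit 10) (.e (nat_lit 434231) (nat_lit 23) (.e (nat_lit 532500) (nat_lit 1) (.e (nat_lit 57776) (nat_lit 233) (.e (nat_lit 2510) (nat_lit 157) (.e (nat_lit 247) (nat_lit 21) (.e (nat_lit 336011) (nat_lit 2) .nil)))))))) (.g (nat_lit 4) .nil .nil))))) (.nd (nat_lit 4) (.nd (nat_lit 5) 
(.lf (nat_lit 215565) (.g (nat_lit 3082) (.e (nat_lit 90170) (nat_lit 13) (.e (nat_lit 172106) (nat_lit 10) (.e (nat_lit 434231) (nat_lit 23) (.e (nat_lit 532499) (nat_lit 1) (.e (nat_lit 65280) (nat_lit 221) (.e (nat_lit 1187) (nat_lit 88) (.e (nat_lit 65566) (nat_lit 2) .nil))))))) (.g (nat_lit 4) .nil .nil))) 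
(.lf (nat_lit 215597) (.g (nat_lit 3494) (.e (nat_lit 90170) (nat_lit 13) (.e (nat_lit 172106) (nat_lit 10) (.e (nat_lit 434231) (nat_lit 23) (.e (nat_lit 532500) (nat_lit 1) (.e (nat_lit 57767) (nat_lit 221) (.e (nat_lit 982) (nat_lit 81) (.e (nat_lit 1464) (nat_lit 108) (.e (nat_lit 336013) (nat_lit 2) .nil)))))))) (.g (nat_lit 4) .nil .nil)))) (.nd (nat_lit 5) 
(.lf (nat_lit 215581) (.g (nat_lit 3518) (.e (nat_lit 90170) (nat_lit 13) (.e (nat_lit 172106) (nat_lit 10) (.e (nat_lit 434231) (nat_lit 23) (.e (nat_lit 532499) (nat_lit 1) (.e (nat_lit 57778) (nat_lit 233) (.e (nat_lit 2479) (nat_lit 157) (.e (nat_lit 247) (nat_lit 21) (.e (nat_lit 336011) (nat_lit 2) .nil)))))))) (.g (nat_lit 4) .nil .nil))) 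
(.lf (nat_lit 215613) (.g (nat_lit 3541) (.e (nat_lit 90170) (nat_lit 13) (.e (nat_lit 172106) (nat_lit 10) (.e (nat_lit 434231) (nat_lit 23) (.e (nat_lit 532500) (nat_lit 1) (.e (nat_lit 65280) (nat_lit 238) (.e (nat_lit 229489) (nat_lit 73) (.e (nat_lit 336009) (nat_lit 2) .nil))))))) (.g (nat_lit 4) .nil .nil))))))) (.nd (nat_lit 2) (.nd (nat_lit 3) (.nd (nat_lit 4) (.nd (nat_lit 5) 
(.lf (nat_lit 215555) (.g (nat_lit 3300) (.e (nat_lit 90170) (nat_lit 13) (.e (nat_lit 172106) (nat_lit 10) (.e (nat_lit 434231) (nat_lit 23) (.e (nat_lit 532499) (nat_lit 1) (.e (nat_lit 57767) (nat_lit 221) (.e (nat_lit 982) (nat_lit 81) (.e (nat_lit 1464) (nat_lit 108) (.e (nat_lit 336013) (nat_lit 2) .nil)))))))) (.g (nat_lit 4) .nil .nil))) 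
(.lf (nat_lit 215587) (.g (nat_lit 3638) (.e (nat_lit 90170) (nat_lit 13) (.e (nat_lit 172106) (nat_lit 10) (.e (nat_lit 434231) (nat_lit 23) (.e (nat_lit 532499) (nat_lit 1) (.e (nat_lit 65280) (nat_lit 233) (.e (nat_lit 2422) (nat_lit 157) (.e (nat_lit 232) (nat_lit 21) (.e (nat_lit 336013) (nat_lit 2) .nil)))))))) (.g (nat_lit 4) .nil .nil)))) (.nd (nat_lit 5) 
(.lf (nat_lit 215571) (.g (nat_lit 3314) (.e (nat_lit 90170) (nat_lit 13) (.e (nat_lit 172106) (nat_lit 10) (.e (nat_lit 434231) (nat_lit 23) (.e (nat_lit 532499) (nat_lit 1) (.e (nat_lit 65280) (nat_lit 221) (.e (nat_lit 1200) (nat_lit 88) (.e (nat_lit 65566) (nat_lit 2) .nil))))))) (.g (nat_lit 4) .nil .nil))) 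
(.lf (nat_lit 215603) (.g (nat_lit 3659) (.e (nat_lit 90170) (nat_lit 13) (.e (nat_lit 172106) (nat_lit 10) (.e (nat_lit 434231) (nat_lit 23) (.e (nat_lit 532500) (nat_lit 1) (.e (nat_lit 57776) (nat_lit 233) (.e (nat_lit 2505) (nat_lit 157) (.e (nat_lit 247) (nat_lit 21) (.e (nat_lit 336011) (nat_lit 2) .nil)))))))) (.g (nat_lit 4) .nil .nil))))) (.nd (nat_lit 4) (.nd (nat_lit 5) 
(.lf (nat_lit 215563) (.g (nat_lit 3052) (.e (nat_lit 90170) (nat_lit 13) (.e (nat_lit 172106) (nat_lit 10) (.e (nat_lit 434231) (nat_lit 23) (.e (nat_lit 532499) (nat_lit 1) (.e (nat_lit 65280) (nat_lit 221) (.e (nat_lit 1009) (nat_lit 81) (.e (nat_lit 1464) (nat_lit 108) (.e (nat_lit 336013) (nat_lit 2) .nil)))))))) (.g (nat_lit 4) .nil .nil))) 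
(.lf (nat_lit 215595) (.g (nat_lit 1181) (.e (nat_lit 90170) (nat_lit 13) (.e (nat_lit 172106) (nat_lit 10) (.e (nat_lit 434231) (nat_lit 23) (.e (nat_lit 532500) (nat_lit 1) .nil)))) .nil))) (.nd (nat_lit 5) 
(.lf (nat_lit 215579) (.g (nat_lit 3450) (.e (nat_lit 90170) (nat_lit 13) (.e (nat_lit 172106) (nat_lit 10) (.e (nat_lit 434231) (nat_lit 23) (.e (nat_lit 532499) (nat_lit 1) (.e (nat_lit 57778) (nat_lit 233) (.e (nat_lit 2444) (nat_lit 157) (.e (nat_lit 247) (nat_lit 21) (.e (nat_lit 336011) (nat_lit 2) .nil)))))))) (.g (nat_lit 4) .nil .nil))) 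
(.lf (nat_lit 215611) (.g (nat_lit 3736) (.e (nat_lit 90170) (nat_lit 13) (.e (nat_lit 172106) (nat_lit 10) (.e (nat_lit 434231) (nat_lit 23) (.e (nat_lit 532500) (nat_lit 1) (.e (nat_lit 65280) (nat_lit 233) (.e (nat_lit 2440) (nat_lit 157) (.e (nat_lit 247) (nat_lit 21) (.e (nat_lit 336011) (nat_lit 2) .nil)))))))) (.g (nat_lit 4) .nil .nil)))))) 
(.nd (nat_lit 3) (.nd (nat_lit 4) (.nd (nat_lit 5) 
(.lf (nat_lit 215559) (.g (nat_lit 4231) (.e (nat_lit 90170) (nat_lit 13) (.e (nat_lit 172106) (nat_lit 10) (.e (nat_lit 434231) (nat_lit 23) (.e (nat_lit 532499) (nat_lit 1) (.e (nat_lit 57767) (nat_lit 221) (.e (nat_lit 1011) (nat_lit 81) (.e (nat_lit 1464) (nat_lit 108) (.e (nat_lit 336013) (nat_lit 2) .nil)))))))) (.g (nat_lit 8) .nil .nil))) 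
(.lf (nat_lit 215591) (.g (nat_lit 3405) (.e (nat_lit 90170) (nat_lit 13) (.e (nat_lit 172106) (nat_lit 10) (.e (nat_lit 434231) (nat_lit 23) (.e (nat_lit 532499) (nat_lit 1) (.e (nat_lit 65280) (nat_lit 233) (.e (nat_lit 2440) (nat_lit 157) (.e (nat_lit 247) (nat_lit 21) (.e (nat_lit 336011) (nat_lit 2) .nil)))))))) (.g (nat_lit 4) .nil .nil)))) (.nd (nat_lit 5) 
(.lf (nat_lit 215575) (.g (nat_lit 2412) (.e (nat_lit 90170) (nat_lit 13) (.e (nat_lit 172106) (nat_lit 10) (.e (nat_lit 434231) (nat_lit 23) (.e (nat_lit 532499) (nat_lit 1) (.e (nat_lit 57777) (nat_lit 233) .nil))))) .nil)) 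
(.lf (nat_lit 215607) (.g (nat_lit 3635) (.e (nat_lit 90170) (nat_lit 13) (.e (nat_lit 172106) (nat_lit 10) (.e (nat_lit 434231) (nat_lit 23) (.e (nat_lit 532500) (nat_lit 1) (.e (nat_lit 57777) (nat_lit 233) (.e (nat_lit 2451) (nat_lit 157) (.e (nat_lit 247) (nat_lit 21) (.e (nat_lit 336011) (nat_lit 2) .nil)))))))) (.g (nat_lit 4) .nil .nil))))) (.nd (nat_lit 4) (.nd (nat_lit 5) 
(.lf (nat_lit 215567) (.g (nat_lit 3346) (.e (nat_lit 90170) (nat_lit 13) (.e (nat_lit 172106) (nat_lit 10) (.e (nat_lit 434231) (nat_lit 23) (.e (nat_lit 532499) (nat_lit 1) (.e (nat_lit 65280) (nat_lit 221) (.e (nat_lit 1194) (nat_lit 88) (.e (nat_lit 65566) (nat_lit 2) .nil))))))) (.g (nat_lit 4) .nil .nil))) 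
(.lf (nat_lit 215599) (.g (nat_lit 3225) (.e (nat_lit 90170) (nat_lit 13) (.e (nat_lit 172106) (nat_lit 10) (.e (nat_lit 434231) (nat_lit 23) (.e (nat_lit 532500) (nat_lit 1) (.e (nat_lit 65280) (nat_lit 221) (.e (nat_lit 1008) (nat_lit 81) (.e (nat_lit 1464) (nat_lit 108) (.e (nat_lit 336013) (nat_lit 2) .nil)))))))) (.g (nat_lit 4) .nil .nil)))) (.nd (nat_lit 5) 
(.lf (nat_lit 215583) (.g (nat_lit 3515) (.e (nat_lit 90170) (nat_lit 13) (.e (nat_lit 172106) (nat_lit 10) (.e (nat_lit 434231) (nat_lit 23) (.e (nat_lit 532499) (nat_lit 1) (.e (nat_lit 65280) (nat_lit 233) (.e (nat_lit 2399) (nat_lit 157) (.e (nat_lit 251) (nat_lit 21) (.e (nat_lit 336011) (nat_lit 2) .nil)))))))) (.g (nat_lit 4) .nil .nil))) 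
(.lf (nat_lit 215615) (.g (nat_lit 3697) (.e (nat_lit 90170) (nat_lit 13) (.e (nat_lit 172106) (nat_lit 10) (.e (nat_lit 434231) (nat_lit 23) (.e (nat_lit 532501) (nat_lit 1) (.e (nat_lit 57767) (nat_lit 221) .nil))))) .nil))))))))

noncomputable def tv2833 : DT := (.nd (nat_lit 0) (.nd (nat_lit 1) (.nd (nat_lit 2) (.nd (nat_lit 3) (.nd (nat_lit 4) (.nd (nat_lit 5) 
(.lf (nat_lit 215616) (.g (nat_lit 3657) (.e (nat_lit 90170) (nat_lit 13) (.e (nat_lit 172106) (nat_lit 10) (.e (nat_lit 434231) (nat_lit 23) (.e (nat_lit 532501) (nat_lit 1) (.e (nat_lit 57776) (nat_lit 233) .nil))))) .nil)) 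
(.lf (nat_lit 215648) (.g (nat_lit 2930) (.e (nat_lit 90170) (nat_lit 13) (.e (nat_lit 172106) (nat_lit 10) (.e (nat_lit 434231) (nat_lit 23) (.e (nat_lit 532523) (nat_lit 7) (.e (nat_lit 319506) (nat_lit 10) (.e (nat_lit 5296) (nat_lit 298) (.e (nat_lit 1225) (nat_lit 91) .nil))))))) (.g (nat_lit 4) .nil .nil)))) (.nd (nat_lit 5) 
(.lf (nat_lit 215632) (.g (nat_lit 3674) (.e (nat_lit 90170) (nat_lit 13) (.e (nat_lit 172106) (nat_lit 10) (.e (nat_lit 434231) (nat_lit 23) (.e (nat_lit 532523) (nat_lit 7) (.e (nat_lit 319500) (nat_lit 10) (.e (nat_lit 5258) (nat_lit 298) (.e (nat_lit 1239) (nat_lit 91) .nil))))))) (.g (nat_lit 4) .nil .nil))) 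
(.lf (nat_lit 215664) (.g (nat_lit 1952) (.e (nat_lit 90170) (nat_lit 13) (.e (nat_lit 172106) (nat_lit 10) (.e (nat_lit 434231) (nat_lit 23) (.e (nat_lit 532526) (nat_lit 8) (.e (nat_lit 335616) (nat_lit 16) .nil))))) .nil)))) (.nd (nat_lit 4) (.nd (nat_lit 5) 
(.lf (nat_lit 215624) (.g (nat_lit 1908) (.e (nat_lit 90170) (nat_lit 13) (.e (nat_lit 172106) (nat_lit 10) (.e (nat_lit 434231) (nat_lit 23) (.e (nat_lit 540416) (nat_lit 4) .nil)))) .nil)) 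
(.lf (nat_lit 215656) (.g (nat_lit 3601) (.e (nat_lit 90170) (nat_lit 13) (.e (nat_lit 172106) (nat_lit 10) (.e (nat_lit 434231) (nat_lit 23) (.e (nat_lit 532525) (nat_lit 8) (.e (nat_lit 327702) (nat_lit 10) (.e (nat_lit 5351) (nat_lit 298) (.e (nat_lit 1235) (nat_lit 91) .nil))))))) (.g (nat_lit 4) .nil .nil)))) (.nd (nat_lit 5) 
(.lf (nat_lit 215640) (.g (nat_lit 3645) (.e (nat_lit 90170) (nat_lit 13) (.e (nat_lit 172106) (nat_lit 10) (.e (nat_lit 434231) (nat_lit 23) (.e (nat_lit 532523) (nat_lit 7) (.e (nat_lit 319502) (nat_lit 10) (.e (nat_lit 7936) (nat_lit 298) (.e (nat_lit 1237) (nat_lit 91) .nil))))))) (.g (nat_lit 4) .nil .nil))) 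
(.lf (nat_lit 215672) (.g (nat_lit 3390) (.e (nat_lit 90170) (nat_lit 13) (.e (nat_lit 172106) (nat_lit 10) (.e (nat_lit 434231) (nat_lit 23) (.e (nat_lit 532535) (nat_lit 9) (.e (nat_lit 335900) (nat_lit 0) (.e (nat_lit 969) (nat_lit 81) (.e (nat_lit 4751) (nat_lit 281) (.e (nat_lit 999) (nat_lit 81) (.e (nat_lit 1239) (nat_lit 91) .nil))))))))) (.g (nat_lit 4) .nil .nil)))))) 
(.nd (nat_lit 3) (.nd (nat_lit 4) (.nd (nat_lit 5) 
(.lf (nat_lit 215620) (.g (nat_lit 2740) (.e (nat_lit 90170) (nat_lit 13) (.e (nat_lit 172106) (nat_lit 10) (.e (nat_lit 434231) (nat_lit 23) (.e (nat_lit 532504) (nat_lit 1) .nil)))) .nil)) 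
(.lf (nat_lit 215652) (.g (nat_lit 3853) (.e (nat_lit 90170) (nat_lit 13) (.e (nat_lit 172106) (nat_lit 10) (.e (nat_lit 434231) (nat_lit 23) (.e (nat_lit 532523) (nat_lit 7) (.e (nat_lit 319507) (nat_lit 10) (.e (nat_lit 5245) (nat_lit 298) (.e (nat_lit 1239) (nat_lit 91) .nil))))))) (.g (nat_lit 4) .nil .nil)))) (.nd (nat_lit 5) 
(.lf (nat_lit 215636) (.g (nat_lit 3873) (.e (nat_lit 90170) (nat_lit 13) (.e (nat_lit 172106) (nat_lit 10) (.e (nat_lit 434231) (nat_lit 23) (.e (nat_lit 532523) (nat_lit 7) (.e (nat_lit 319500) (nat_lit 10) (.e (nat_lit 7936) (nat_lit 298) (.e (nat_lit 1239) (nat_lit 91) .nil))))))) (.g (nat_lit 4) .nil .nil))) 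
(.lf (nat_lit 215668) (.g (nat_lit 2404) (.e (nat_lit 90170) (nat_lit 13) (.e (nat_lit 172106) (nat_lit 10) (.e (nat_lit 434231) (nat_lit 23) (.e (nat_lit 532535) (nat_lit 9) (.e (nat_lit 335886) (nat_lit 0) (.e (nat_lit 1936) (nat_lit 132) (.e (nat_lit 622605) (nat_lit 5) (.e (nat_lit 1236) (nat_lit 91) .nil)))))))) (.g (nat_lit 4) .nil .nil))))) (.nd (nat_lit 4) (.nd (nat_lit 5) 
(.lf (nat_lit 215628) (.g (nat_lit 3292) (.e (nat_lit 90170) (nat_lit 13) (.e (nat_lit 172106) (nat_lit 10) (.e (nat_lit 434231) (nat_lit 23) (.e (nat_lit 532522) (nat_lit 7) (.e (nat_lit 319506) (nat_lit 10) (.e (nat_lit 5296) (nat_lit 298) (.e (nat_lit 1232) (nat_lit 91) .nil))))))) (.g (nat_lit 5) .nil .nil))) 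
(.lf (nat_lit 215660) (.g (nat_lit 3377) (.e (nat_lit 90170) (nat_lit 13) (.e (nat_lit 172106) (nat_lit 10) (.e (nat_lit 434231) (nat_lit 23) (.e (nat_lit 532526) (nat_lit 8) (.e (nat_lit 327705) (nat_lit 10) (.e (nat_lit 5289) (nat_lit 298) (.e (nat_lit 1225) (nat_lit 91) .nil))))))) (.g (nat_lit 5) .nil .nil)))) (.nd (nat_lit 5) 
(.lf (nat_lit 215644) (.g (nat_lit 4877) (.e (nat_lit 90170) (nat_lit 13) (.e (nat_lit 172106) (nat_lit 10) (.e (nat_lit 434231) (nat_lit 23) (.e (nat_lit 532523) (nat_lit 7) (.e (nat_lit 319505) (nat_lit 10) (.e (nat_lit 7936) (nat_lit 298) (.e (nat_lit 1237) (nat_lit 91) .nil))))))) (.g (nat_lit 5) .nil .nil))) 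
(.lf (nat_lit 215676) (.g (nat_lit 4024) (.e (nat_lit 90170) (nat_lit 13) (.e (nat_lit 172106) (nat_lit 10) (.e (nat_lit 434231) (nat_lit 23) (.e (nat_lit 532535) (nat_lit 9) (.e (nat_lit 335900) (nat_lit 0) (.e (nat_lit 969) (nat_lit 81) (.e (nat_lit 4804) (nat_lit 281) (.e (nat_lit 1039) (nat_lit 81) (.e (nat_lit 1234) (nat_lit 91) .nil))))))))) (.g (nat_lit 4) .nil .nil))))))) 
(.nd (nat_lit 2) (.nd (nat_lit 3) (.nd (nat_lit 4) (.nd (nat_lit 5) 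
(.lf (nat_lit 215618) (.g (nat_lit 2740) (.e (nat_lit 90170) (nat_lit 13) (.e (nat_lit 172106) (nat_lit 10) (.e (nat_lit 434231) (nat_lit 23) (.e (nat_lit 532503) (nat_lit 1) .nil)))) .nil)) 
(.lf (nat_lit 215650) (.g (nat_lit 2756) (.e (nat_lit 90170) (nat_lit 13) (.e (nat_lit 172106) (nat_lit 10) (.e (nat_lit 434231) (nat_lit 23) (.e (nat_lit 532523) (nat_lit 7) (.e (nat_lit 319506) (nat_lit 10) (.e (nat_lit 5298) (nat_lit 298) (.e (nat_lit 1232) (nat_lit 91) .nil))))))) (.g (nat_lit 4) .nil .nil)))) (.nd (nat_lit 5) 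
(.lf (nat_lit 215634) (.g (nat_lit 3848) (.e (nat_lit 90170) (nat_lit 13) (.e (nat_lit 172106) (nat_lit 10) (.e (nat_lit 434231) (nat_lit 23) (.e (nat_lit 532523) (nat_lit 7) (.e (nat_lit 319500) (nat_lit 10) (.e (nat_lit 5351) (nat_lit 298) (.e (nat_lit 1235) (nat_lit 91) .nil))))))) (.g (nat_lit 4) .nil .nil))) 
(.lf (nat_lit 215666) (.g (nat_lit 3482) (.e (nat_lit 90170) (nat_lit 13) (.e (nat_lit 172106) (nat_lit 10) (.e (nat_lit 434231) (nat_lit 23) (.e (nat_lit 532529) (nat_lit 9) (.e (nat_lit 336257) (nat_lit 15) (.e (nat_lit 2400) (nat_lit 157) (.e (nat_lit 6848) (nat_lit 371) (.e (nat_lit 1027) (nat_lit 81) (.e (nat_lit 1237) (nat_lit 91) .nil))))))))) (.g (nat_lit 4) .nil .nil))))) 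
(.nd (nat_lit 4) (.nd (nat_lit 5) 
(.lf (nat_lit 215626) (.g (nat_lit 2019) (.e (nat_lit 90170) (nat_lit 13) (.e (nat_lit 172106) (nat_lit 10) (.e (nat_lit 434231) (nat_lit 23) (.e (nat_lit 532522) (nat_lit 7) (.e (nat_lit 319501) (nat_lit 10) .nil))))) .nil)) 
(.lf (nat_lit 215658) (.g (nat_lit 3723) (.e (nat_lit 90170) (nat_lit 13) (.e (nat_lit 172106) (nat_lit 10) (.e (nat_lit 434231) (nat_lit 23) (.e (nat_lit 532526) (nat_lit 8) (.e (nat_lit 327703) (nat_lit 10) (.e (nat_lit 7936) (nat_lit 298) (.e (nat_lit 1237) (nat_lit 91) .nil))))))) (.g (nat_lit 4) .nil .nil)))) (.nd (nat_lit 5) 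
(.lf (nat_lit 215642) (.g (nat_lit 3072) (.e (nat_lit 90170) (nat_lit 13) (.e (nat_lit 172106) (nat_lit 10) (.e (nat_lit 434231) (nat_lit 23) (.e (nat_lit 532523) (nat_lit 7) (.e (nat_lit 319504) (nat_lit 10) (.e (nat_lit 5245) (nat_lit 298) (.e (nat_lit 1239) (nat_lit 91) .nil))))))) (.g (nat_lit 4) .nil .nil))) 
(.lf (nat_lit 215674) (.g (nat_lit 4027) (.e (nat_lit 90170) (nat_lit 13) (.e (nat_lit 172106) (nat_lit 10) (.e (nat_lit 434231) (nat_lit 23) (.e (nat_lit 532535) (nat_lit 9) (.e (nat_lit 335900) (nat_lit 0) (.e (nat_lit 969) (nat_lit 81) (.e (nat_lit 4751) (nat_lit 281) (.e (nat_lit 1028) (nat_lit 81) (.e (nat_lit 1237) (nat_lit 91) .nil))))))))) (.g (nat_lit 4) .nil .nil)))))) 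
(.nd (nat_lit 3) (.nd (nat_lit 4) (.nd (nat_lit 5) 
(.lf (nat_lit 215622) (.g (nat_lit 1973) (.e (nat_lit 90170) (nat_lit 13) (.e (nat_lit 172106) (nat_lit 10) (.e (nat_lit 434231) (nat_lit 23) (.e (nat_lit 532517) (nat_lit 4) .nil)))) .nil)) 
(.lf (nat_lit 215654) (.g (nat_lit 3515) (.e (nat_lit 90170) (nat_lit 13) (.e (nat_lit 172106) (nat_lit 10) (.e (nat_lit 434231) (nat_lit 23) (.e (nat_lit 532523) (nat_lit 7) (.e (nat_lit 319513) (nat_lit 10) (.e (nat_lit 5245) (nat_lit 298) (.e (nat_lit 1239) (nat_lit 91) .nil))))))) (.g (nat_lit 4) .nil .nil)))) (.nd (nat_lit 5) 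
(.lf (nat_lit 215638) (.g (nat_lit 3507) (.e (nat_lit 90170) (nat_lit 13) (.e (nat_lit 172106) (nat_lit 10) (.e (nat_lit 434231) (nat_lit 23) (.e (nat_lit 532523) (nat_lit 7) (.e (nat_lit 319501) (nat_lit 10) (.e (nat_lit 5255) (nat_lit 298) (.e (nat_lit 1239) (nat_lit 91) .nil))))))) (.g (nat_lit 4) .nil .nil))) 
(.lf (nat_lit 215670) (.g (nat_lit 2991) (.e (nat_lit 90170) (nat_lit 13) (.e (nat_lit 172106) (nat_lit 10) (.e (nat_lit 434231) (nat_lit 23) (.e (nat_lit 532535) (nat_lit 9) (.e (nat_lit 335886) (nat_lit 0) (.e (nat_lit 1938) (nat_lit 132) (.e (nat_lit 630528) (nat_lit 5) (.e (nat_lit 1237) (nat_lit 91) .nil)))))))) (.g (nat_lit 4) .nil .nil))))) (.nd (nat_lit 4) (.nd (nat_lit 5) 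
(.lf (nat_lit 215630) (.g (nat_lit 3556) (.e (nat_lit 90170) (nat_lit 13) (.e (nat_lit 172106) (nat_lit 10) (.e (nat_lit 434231) (nat_lit 23) (.e (nat_lit 532523) (nat_lit 7) (.e (nat_lit 319497) (nat_lit 10) (.e (nat_lit 5346) (nat_lit 298) (.e (nat_lit 1237) (nat_lit 91) .nil))))))) (.g (nat_lit 4) .nil .nil))) 
(.lf (nat_lit 215662) (.g (nat_lit 3250) (.e (nat_lit 90170) (nat_lit 13) (.e (nat_lit 172106) (nat_lit 10) (.e (nat_lit 434231) (nat_lit 23) (.e (nat_lit 532526) (nat_lit 8) (.e (nat_lit 327705) (nat_lit 10) (.e (nat_lit 5296) (nat_lit 298) (.e (nat_lit 1232) (nat_lit 91) .nil))))))) (.g (nat_lit 5) .nil .nil)))) (.nd (nat_lit 5) 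
(.lf (nat_lit 215646) (.g (nat_lit 3199) (.e (nat_lit 90170) (nat_lit 13) (.e (nat_lit 172106) (nat_lit 10) (.e (nat_lit 434231) (nat_lit 23) (.e (nat_lit 532523) (nat_lit 7) (.e (nat_lit 319506) (nat_lit 10) (.e (nat_lit 5295) (nat_lit 298) (.e (nat_lit 1225) (nat_lit 91) .nil))))))) (.g (nat_lit 4) .nil .nil))) 
(.lf (nat_lit 215678) (.g (nat_lit 4044) (.e (nat_lit 90170) (nat_lit 13) (.e (nat_lit 172106) (nat_lit 10) (.e (nat_lit 434231) (nat_lit 23) (.e (nat_lit 532535) (nat_lit 9) (.e (nat_lit 335900) (nat_lit 0) (.e (nat_lit 969) (nat_lit 81) (.e (nat_lit 4809) (nat_lit 281) (.e (nat_lit 1039) (nat_lit 81) (.e (nat_lit 1234) (nat_lit 91) .nil))))))))) (.g (nat_lit 4) .nil .nil)))))))) 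
(.nd (nat_lit 1) (.nd (nat_lit 2) (.nd (nat_lit 3) (.nd (nat_lit 4) (.nd (nat_lit 5) 
(.lf (nat_lit 215617) (.g (nat_lit 2236) (.e (nat_lit 90170) (nat_lit 13) (.e (nat_lit 172106) (nat_lit 10) (.e (nat_lit 434231) (nat_lit 23) (.e (nat_lit 532502) (nat_lit 1) .nil)))) .nil)) 
(.lf (nat_lit 215649) (.g (nat_lit 2808) (.e (nat_lit 90170) (nat_lit 13) (.e (nat_lit 172106) (nat_lit 10) (.e (nat_lit 434231) (nat_lit 23) (.e (nat_lit 532523) (nat_lit 7) (.e (nat_lit 319506) (nat_lit 10) (.e (nat_lit 5298) (nat_lit 298) (.e (nat_lit 1225) (nat_lit 91) .nil))))))) (.g (nat_lit 4) .nil .nil)))) (.nd (nat_lit 5) 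
(.lf (nat_lit 215633) (.g (nat_lit 4257) (.e (nat_lit 90170) (nat_lit 13) (.e (nat_lit 172106) (nat_lit 10) (.e (nat_lit 434231) (nat_lit 23) (.e (nat_lit 532523) (nat_lit 7) (.e (nat_lit 319500) (nat_lit 10) (.e (nat_lit 5351) (nat_lit 298) (.e (nat_lit 1234) (nat_lit 91) .nil))))))) (.g (nat_lit 4) .nil .nil))) 
(.lf (nat_lit 215665) (.g (nat_lit 3499) (.e (nat_lit 90170) (nat_lit 13) (.e (nat_lit 172106) (nat_lit 10) (.e (nat_lit 434231) (nat_lit 23) (.e (nat_lit 532529) (nat_lit 9) (.e (nat_lit 335980) (nat_lit 0) (.e (nat_lit 1936) (nat_lit 132) (.e (nat_lit 622605) (nat_lit 5) (.e (nat_lit 1237) (nat_lit 91) .nil)))))))) (.g (nat_lit 4) .nil .nil))))) (.nd (nat_lit 4) (.nd (nat_lit 5) 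
(.lf (nat_lit 215625) (.g (nat_lit 3009) (.e (nat_lit 90170) (nat_lit 13) (.e (nat_lit 172106) (nat_lit 10) (.e (nat_lit 434231) (nat_lit 23) (.e (nat_lit 532522) (nat_lit 7) (.e (nat_lit 319500) (nat_lit 10) (.e (nat_lit 5291) (nat_lit 298) (.e (nat_lit 1225) (nat_lit 91) .nil))))))) (.g (nat_lit 5) .nil .nil))) 
(.lf (nat_lit 215657) (.g (nat_lit 4131) (.e (nat_lit 90170) (nat_lit 13) (.e (nat_lit 172106) (nat_lit 10) (.e (nat_lit 434231) (nat_lit 23) (.e (nat_lit 532526) (nat_lit 8) (.e (nat_lit 327703) (nat_lit 10) (.e (nat_lit 5351) (nat_lit 298) (.e (nat_lit 1235) (nat_lit 91) .nil))))))) (.g (nat_lit 5) .nil .nil)))) (.nd (nat_lit 5) 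
(.lf (nat_lit 215641) (.g (nat_lit 2600) (.e (nat_lit 90170) (nat_lit 13) (.e (nat_lit 172106) (nat_lit 10) (.e (nat_lit 434231) (nat_lit 23) (.e (nat_lit 532523) (nat_lit 7) (.e (nat_lit 319503) (nat_lit 10) .nil))))) .nil)) 
(.lf (nat_lit 215673) (.g (nat_lit 4727) (.e (nat_lit 90170) (nat_lit 13) (.e (nat_lit 172106) (nat_lit 10) (.e (nat_lit 434231) (nat_lit 23) (.e (nat_lit 532535) (nat_lit 9) (.e (nat_lit 335900) (nat_lit 0) (.e (nat_lit 969) (nat_lit 81) (.e (nat_lit 4751) (nat_lit 281) (.e (nat_lit 1027) (nat_lit 81) (.e (nat_lit 1237) (nat_lit 91) .nil))))))))) (.g (nat_lit 4) .nil .nil)))))) 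
(.nd (nat_lit 3) (.nd (nat_lit 4) (.nd (nat_lit 5) 
(.lf (nat_lit 215621) (.g (nat_lit 1947) (.e (nat_lit 90170) (nat_lit 13) (.e (nat_lit 172106) (nat_lit 10) (.e (nat_lit 434231) (nat_lit 23) (.e (nat_lit 532516) (nat_lit 4) .nil)))) .nil)) 
(.lf (nat_lit 215653) (.g (nat_lit 2290) (.e (nat_lit 90170) (nat_lit 13) (.e (nat_lit 172106) (nat_lit 10) (.e (nat_lit 434231) (nat_lit 23) (.e (nat_lit 532523) (nat_lit 7) (.e (nat_lit 319511) (nat_lit 10) .nil))))) .nil))) (.nd (nat_lit 5) 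
(.lf (nat_lit 215637) (.g (nat_lit 3146) (.e (nat_lit 90170) (nat_lit 13) (.e (nat_lit 172106) (nat_lit 10) (.e (nat_lit 434231) (nat_lit 23) (.e (nat_lit 532523) (nat_lit 7) (.e (nat_lit 319501) (nat_lit 10) (.e (nat_lit 5245) (nat_lit 298) (.e (nat_lit 1239) (nat_lit 91) .nil))))))) (.g (nat_lit 4) .nil .nil))) 
(.lf (nat_lit 215669) (.g (nat_lit 2835) (.e (nat_lit 90170) (nat_lit 13) (.e (nat_lit 172106) (nat_lit 10) (.e (nat_lit 434231) (nat_lit 23) (.e (nat_lit 532535) (nat_lit 9) (.e (nat_lit 335886) (nat_lit 0) (.e (nat_lit 1937) (nat_lit 132) (.e (nat_lit 630528) (nat_lit 5) (.e (nat_lit 1237) (nat_lit 91) .nil)))))))) (.g (nat_lit 4) .nil .nil))))) (.nd (nat_lit 4) (.nd (nat_lit 5) 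
(.lf (nat_lit 215629) (.g (nat_lit 3761) (.e (nat_lit 90170) (nat_lit 13) (.e (nat_lit 172106) (nat_lit 10) (.e (nat_lit 434231) (nat_lit 23) (.e (nat_lit 532522) (nat_lit 7) (.e (nat_lit 319511) (nat_lit 10) (.e (nat_lit 5293) (nat_lit 298) (.e (nat_lit 1232) (nat_lit 91) .nil))))))) (.g (nat_lit 7) .nil .nil))) 
(.lf (nat_lit 215661) (.g (nat_lit 3305) (.e (nat_lit 90170) (nat_lit 13) (.e (nat_lit 172106) (nat_lit 10) (.e (nat_lit 434231) (nat_lit 23) (.e (nat_lit 532526) (nat_lit 8) (.e (nat_lit 327705) (nat_lit 10) (.e (nat_lit 5295) (nat_lit 298) (.e (nat_lit 1225) (nat_lit 91) .nil))))))) (.g (nat_lit 5) .nil .nil)))) (.nd (nat_lit 5) 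
(.lf (nat_lit 215645) (.g (nat_lit 3306) (.e (nat_lit 90170) (nat_lit 13) (.e (nat_lit 172106) (nat_lit 10) (.e (nat_lit 434231) (nat_lit 23) (.e (nat_lit 532523) (nat_lit 7) (.e (nat_lit 319506) (nat_lit 10) (.e (nat_lit 5279) (nat_lit 298) (.e (nat_lit 1232) (nat_lit 91) .nil))))))) (.g (nat_lit 5) .nil .nil))) 
(.lf (nat_lit 215677) (.g (nat_lit 3834) (.e (nat_lit 90170) (nat_lit 13) (.e (nat_lit 172106) (nat_lit 10) (.e (nat_lit 434231) (nat_lit 23) (.e (nat_lit 532535) (nat_lit 9) (.e (nat_lit 335900) (nat_lit 0) (.e (nat_lit 969) (nat_lit 81) (.e (nat_lit 4809) (nat_lit 281) (.e (nat_lit 982) (nat_lit 81) (.e (nat_lit 1237) (nat_lit 91) .nil))))))))) (.g (nat_lit 4) .nil .nil))))))) 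
(.nd (nat_lit 2) (.nd (nat_lit 3) (.nd (nat_lit 4) (.nd (nat_lit 5) 
(.lf (nat_lit 215619) (.g (nat_lit 3693) (.e (nat_lit 90170) (nat_lit 13) (.e (nat_lit 172106) (nat_lit 10) (.e (nat_lit 434231) (nat_lit 23) (.e (nat_lit 532503) (nat_lit 1) (.e (nat_lit 57776) (nat_lit 233) .nil))))) .nil)) 
(.lf (nat_lit 215651) (.g (nat_lit 3591) (.e (nat_lit 90170) (nat_lit 13) (.e (nat_lit 172106) (nat_lit 10) (.e (nat_lit 434231) (nat_lit 23) (.e (nat_lit 532523) (nat_lit 7) (.e (nat_lit 319506) (nat_lit 10) (.e (nat_lit 7936) (nat_lit 298) (.e (nat_lit 1237) (nat_lit 91) .nil))))))) (.g (nat_lit 4) .nil .nil)))) (.nd (nat_lit 5) 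
(.lf (nat_lit 215635) (.g (nat_lit 3501) (.e (nat_lit 90170) (nat_lit 13) (.e (nat_lit 172106) (nat_lit 10) (.e (nat_lit 434231) (nat_lit 23) (.e (nat_lit 532523) (nat_lit 7) (.e (nat_lit 319500) (nat_lit 10) (.e (nat_lit 7936) (nat_lit 298) (.e (nat_lit 1237) (nat_lit 91) .nil))))))) (.g (nat_lit 4) .nil .nil))) 
(.lf (nat_lit 215667) (.g (nat_lit 3686) (.e (nat_lit 90170) (nat_lit 13) (.e (nat_lit 172106) (nat_lit 10) (.e (nat_lit 434231) (nat_lit 23) (.e (nat_lit 532529) (nat_lit 9) (.e (nat_lit 336257) (nat_lit 15) (.e (nat_lit 2402) (nat_lit 157) (.e (nat_lit 6848) (nat_lit 371) (.e (nat_lit 1028) (nat_lit 81) (.e (nat_lit 1237) (nat_lit 91) .nil))))))))) (.g (nat_lit 4) .nil .nil))))) 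
(.nd (nat_lit 4) (.nd (nat_lit 5) 
(.lf (nat_lit 215627) (.g (nat_lit 3561) (.e (nat_lit 90170) (nat_lit 13) (.e (nat_lit 172106) (nat_lit 10) (.e (nat_lit 434231) (nat_lit 23) (.e (nat_lit 532522) (nat_lit 7) (.e (nat_lit 319504) (nat_lit 10) (.e (nat_lit 5271) (nat_lit 298) (.e (nat_lit 1239) (nat_lit 91) .nil))))))) (.g (nat_lit 5) .nil .nil))) 
(.lf (nat_lit 215659) (.g (nat_lit 3397) (.e (nat_lit 90170) (nat_lit 13) (.e (nat_lit 172106) (nat_lit 10) (.e (nat_lit 434231) (nat_lit 23) (.e (nat_lit 532526) (nat_lit 8) (.e (nat_lit 327705) (nat_lit 10) (.e (nat_lit 5279) (nat_lit 298) (.e (nat_lit 1225) (nat_lit 91) .nil))))))) (.g (nat_lit 5) .nil .nil)))) (.nd (nat_lit 5) 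
(.lf (nat_lit 215643) (.g (nat_lit 3164) (.e (nat_lit 90170) (nat_lit 13) (.e (nat_lit 172106) (nat_lit 10) (.e (nat_lit 434231) (nat_lit 23) (.e (nat_lit 532523) (nat_lit 7) (.e (nat_lit 319505) (nat_lit 10) (.e (nat_lit 5294) (nat_lit 298) (.e (nat_lit 1232) (nat_lit 91) .nil))))))) (.g (nat_lit 4) .nil .nil))) 
(.lf (nat_lit 215675) (.g (nat_lit 3727) (.e (nat_lit 90170) (nat_lit 13) (.e (nat_lit 172106) (nat_lit 10) (.e (nat_lit 434231) (nat_lit 23) (.e (nat_lit 532535) (nat_lit 9) (.e (nat_lit 335900) (nat_lit 0) (.e (nat_lit 969) (nat_lit 81) (.e (nat_lit 4804) (nat_lit 281) (.e (nat_lit 982) (nat_lit 81) (.e (nat_lit 1237) (nat_lit 91) .nil))))))))) (.g (nat_lit 4) .nil .nil)))))) 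
(.nd (nat_lit 3) (.nd (nat_lit 4) (.nd (nat_lit 5) 
(.lf (nat_lit 215623) (.g (nat_lit 3256) (.e (nat_lit 90170) (nat_lit 13) (.e (nat_lit 172106) (nat_lit 10) (.e (nat_lit 434231) (nat_lit 23) (.e (nat_lit 532517) (nat_lit 4) (.e (nat_lit 123116) (nat_lit 221) (.e (nat_lit 1008) (nat_lit 81) (.e (nat_lit 1464) (nat_lit 108) (.e (nat_lit 336013) (nat_lit 2) .nil)))))))) (.g (nat_lit 8) .nil .nil))) 
(.lf (nat_lit 215655) (.g (nat_lit 1660) (.e (nat_lit 90170) (nat_lit 13) (.e (nat_lit 172106) (nat_lit 10) (.e (nat_lit 434231) (nat_lit 23) (.e (nat_lit 532525) (nat_lit 8) .nil)))) .nil))) (.nd (nat_lit 5) 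
(.lf (nat_lit 215639) (.g (nat_lit 3399) (.e (nat_lit 90170) (nat_lit 13) (.e (nat_lit 172106) (nat_lit 10) (.e (nat_lit 434231) (nat_lit 23) (.e (nat_lit 532523) (nat_lit 7) (.e (nat_lit 319501) (nat_lit 10) (.e (nat_lit 5271) (nat_lit 298) (.e (nat_lit 1239) (nat_lit 91) .nil))))))) (.g (nat_lit 4) .nil .nil))) 
(.lf (nat_lit 215671) (.g (nat_lit 3017) (.e (nat_lit 90170) (nat_lit 13) (.e (nat_lit 172106) (nat_lit 10) (.e (nat_lit 434231) (nat_lit 23) (.e (nat_lit 532535) (nat_lit 9) (.e (nat_lit 335886) (nat_lit 0) (.e (nat_lit 1942) (nat_lit 132) (.e (nat_lit 630528) (nat_lit 5) (.e (nat_lit 1237) (nat_lit 91) .nil)))))))) (.g (nat_lit 4) .nil .nil))))) (.nd (nat_lit 4) (.nd (nat_lit 5) 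
(.lf (nat_lit 215631) (.g (nat_lit 3773) (.e (nat_lit 90170) (nat_lit 13) (.e (nat_lit 172106) (nat_lit 10) (.e (nat_lit 434231) (nat_lit 23) (.e (nat_lit 532523) (nat_lit 7) (.e (nat_lit 319500) (nat_lit 10) (.e (nat_lit 5245) (nat_lit 298) (.e (nat_lit 1239) (nat_lit 91) .nil))))))) (.g (nat_lit 4) .nil .nil))) 
(.lf (nat_lit 215663) (.g (nat_lit 2587) (.e (nat_lit 90170) (nat_lit 13) (.e (nat_lit 172106) (nat_lit 10) (.e (nat_lit 434231) (nat_lit 23) (.e (nat_lit 532526) (nat_lit 8) (.e (nat_lit 327707) (nat_lit 10) (.e (nat_lit 5275) (nat_lit 298) (.e (nat_lit 1232) (nat_lit 91) .nil))))))) (.g (nat_lit 4) .nil .nil)))) (.nd (nat_lit 5) 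
(.lf (nat_lit 215647) (.g (nat_lit 3358) (.e (nat_lit 90170) (nat_lit 13) (.e (nat_lit 172106) (nat_lit 10) (.e (nat_lit 434231) (nat_lit 23) (.e (nat_lit 532523) (nat_lit 7) (.e (nat_lit 319506) (nat_lit 10) (.e (nat_lit 5295) (nat_lit 298) (.e (nat_lit 1232) (nat_lit 91) .nil))))))) (.g (nat_lit 5) .nil .nil))) 
(.lf (nat_lit 215679) (.g (nat_lit 4598) (.e (nat_lit 90170) (nat_lit 13) (.e (nat_lit 172106) (nat_lit 10) (.e (nat_lit 434231) (nat_lit 23) (.e (nat_lit 532535) (nat_lit 9) (.e (nat_lit 335900) (nat_lit 0) (.e (nat_lit 969) (nat_lit 81) (.e (nat_lit 4840) (nat_lit 283) (.e (nat_lit 57373) (nat_lit 2) .nil)))))))) (.g (nat_lit 4) .nil .nil)))))))))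

noncomputable def tv2834 : DT := (.nd (nat_lit 0) (.nd (nat_lit 1) (.nd (nat_lit 2) (.nd (nat_lit 3) (.nd (nat_lit 4) (.nd (nat_lit 5) 
(.lf (nat_lit 215680) (.g (nat_lit 5144) (.e (nat_lit 90170) (nat_lit 13) (.e (nat_lit 172106) (nat_lit 10) (.e (nat_lit 434231) (nat_lit 23) (.e (nat_lit 532535) (nat_lit 9) (.e (nat_lit 335900) (nat_lit 0) (.e (nat_lit 969) (nat_lit 81) (.e (nat_lit 4840) (nat_lit 283) (.e (nat_lit 57374) (nat_lit 2) .nil)))))))) (.g (nat_lit 4) .nil .nil))) 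
(.lf (nat_lit 215712) (.g (nat_lit 3347) (.e (nat_lit 90170) (nat_lit 13) (.e (nat_lit 172106) (nat_lit 10) (.e (nat_lit 434231) (nat_lit 23) (.e (nat_lit 532535) (nat_lit 9) (.e (nat_lit 335900) (nat_lit 0) (.e (nat_lit 998) (nat_lit 81) (.e (nat_lit 4843) (nat_lit 284) (.e (nat_lit 122891) (nat_lit 2) .nil)))))))) (.g (nat_lit 4) .nil .nil)))) (.nd (nat_lit 5) 
(.lf (nat_lit 215696) (.g (nat_lit 4473) (.e (nat_lit 90170) (nat_lit 13) (.e (nat_lit 172106) (nat_lit 10) (.e (nat_lit 434231) (nat_lit 23) (.e (nat_lit 532535) (nat_lit 9) (.e (nat_lit 335900) (nat_lit 0) (.e (nat_lit 982) (nat_lit 81) (.e (nat_lit 4842) (nat_lit 283) (.e (nat_lit 57374) (nat_lit 2) .nil)))))))) (.g (nat_lit 4) .nil .nil))) 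
(.lf (nat_lit 215728) (.g (nat_lit 5157) (.e (nat_lit 90170) (nat_lit 13) (.e (nat_lit 172106) (nat_lit 10) (.e (nat_lit 434231) (nat_lit 23) (.e (nat_lit 532535) (nat_lit 9) (.e (nat_lit 335900) (nat_lit 0) (.e (nat_lit 1050) (nat_lit 81) (.e (nat_lit 4840) (nat_lit 283) (.e (nat_lit 57374) (nat_lit 2) .nil)))))))) (.g (nat_lit 4) .nil .nil))))) (.nd (nat_lit 4) (.nd (nat_lit 5) 
(.lf (nat_lit 215688) (.g (nat_lit 4338) (.e (nat_lit 90170) (nat_lit 13) (.e (nat_lit 172106) (nat_lit 10) (.e (nat_lit 434231) (nat_lit 23) (.e (nat_lit 532535) (nat_lit 9) (.e (nat_lit 335900) (nat_lit 0) (.e (nat_lit 971) (nat_lit 81) (.e (nat_lit 4809) (nat_lit 281) (.e (nat_lit 1039) (nat_lit 81) (.e (nat_lit 1234) (nat_lit 91) .nil))))))))) (.g (nat_lit 4) .nil .nil))) 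
(.lf (nat_lit 215720) (.g (nat_lit 5095) (.e (nat_lit 90170) (nat_lit 13) (.e (nat_lit 172106) (nat_lit 10) (.e (nat_lit 434231) (nat_lit 23) (.e (nat_lit 532535) (nat_lit 9) (.e (nat_lit 335900) (nat_lit 0) (.e (nat_lit 1049) (nat_lit 81) (.e (nat_lit 4840) (nat_lit 283) (.e (nat_lit 57374) (nat_lit 2) .nil)))))))) (.g (nat_lit 4) .nil .nil)))) (.nd (nat_lit 5) 
(.lf (nat_lit 215704) (.g (nat_lit 3798) (.e (nat_lit 90170) (nat_lit 13) (.e (nat_lit 172106) (nat_lit 10) (.e (nat_lit 434231) (nat_lit 23) (.e (nat_lit 532535) (nat_lit 9) (.e (nat_lit 335900) (nat_lit 0) (.e (nat_lit 985) (nat_lit 81) (.e (nat_lit 4797) (nat_lit 281) (.e (nat_lit 1039) (nat_lit 81) (.e (nat_lit 1234) (nat_lit 91) .nil))))))))) (.g (nat_lit 4) .nil .nil))) 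
(.lf (nat_lit 215736) (.g (nat_lit 4116) (.e (nat_lit 90170) (nat_lit 13) (.e (nat_lit 172106) (nat_lit 10) (.e (nat_lit 434231) (nat_lit 23) (.e (nat_lit 532535) (nat_lit 9) (.e (nat_lit 335900) (nat_lit 0) (.e (nat_lit 1052) (nat_lit 81) (.e (nat_lit 4808) (nat_lit 281) (.e (nat_lit 1039) (nat_lit 81) (.e (nat_lit 1234) (nat_lit 91) .nil))))))))) (.g (nat_lit 4) .nil .nil)))))) 
(.nd (nat_lit 3) (.nd (nat_lit 4) (.nd (nat_lit 5) 
(.lf (nat_lit 215684) (.g (nat_lit 4310) (.e (nat_lit 90170) (nat_lit 13) (.e (nat_lit 172106) (nat_lit 10) (.e (nat_lit 434231) (nat_lit 23) (.e (nat_lit 532535) (nat_lit 9) (.e (nat_lit 335900) (nat_lit 0) (.e (nat_lit 971) (nat_lit 81) (.e (nat_lit 4804) (nat_lit 281) (.e (nat_lit 1039) (nat_lit 81) (.e (nat_lit 1234) (nat_lit 91) .nil))))))))) (.g (nat_lit 4) .nil .nil))) 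
(.lf (nat_lit 215716) (.g (nat_lit 4553) (.e (nat_lit 90170) (nat_lit 13) (.e (nat_lit 172106) (nat_lit 10) (.e (nat_lit 434231) (nat_lit 23) (.e (nat_lit 532535) (nat_lit 9) (.e (nat_lit 335900) (nat_lit 0) (.e (nat_lit 1049) (nat_lit 81) (.e (nat_lit 4751) (nat_lit 281) (.e (nat_lit 1027) (nat_lit 81) (.e (nat_lit 1237) (nat_lit 91) .nil))))))))) (.g (nat_lit 4) .nil .nil)))) (.nd (nat_lit 5) 
(.lf (nat_lit 215700) (.g (nat_lit 3856) (.e (nat_lit 90170) (nat_lit 13) (.e (nat_lit 172106) (nat_lit 10) (.e (nat_lit 434231) (nat_lit 23) (.e (nat_lit 532535) (nat_lit 9) (.e (nat_lit 335900) (nat_lit 0) (.e (nat_lit 984) (nat_lit 81) (.e (nat_lit 4841) (nat_lit 283) (.e (nat_lit 57373) (nat_lit 2) .nil)))))))) (.g (nat_lit 4) .nil .nil))) 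
(.lf (nat_lit 215732) (.g (nat_lit 4290) (.e (nat_lit 90170) (nat_lit 13) (.e (nat_lit 172106) (nat_lit 10) (.e (nat_lit 434231) (nat_lit 23) (.e (nat_lit 532535) (nat_lit 9) (.e (nat_lit 335900) (nat_lit 0) (.e (nat_lit 1051) (nat_lit 81) (.e (nat_lit 4808) (nat_lit 281) (.e (nat_lit 1039) (nat_lit 81) (.e (nat_lit 1234) (nat_lit 91) .nil))))))))) (.g (nat_lit 4) .nil .nil))))) 
(.nd (nat_lit 4) (.nd (nat_lit 5) 
(.lf (nat_lit 215692) (.g (nat_lit 5189) (.e (nat_lit 90170) (nat_lit 13) (.e (nat_lit 172106) (nat_lit 10) (.e (nat_lit 434231) (nat_lit 23) (.e (nat_lit 532535) (nat_lit 9) (.e (nat_lit 335900) (nat_lit 0) (.e (nat_lit 971) (nat_lit 81) (.e (nat_lit 4840) (nat_lit 283) (.e (nat_lit 57374) (nat_lit 2) .nil)))))))) (.g (nat_lit 4) .nil .nil))) 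
(.lf (nat_lit 215724) (.g (nat_lit 4475) (.e (nat_lit 90170) (nat_lit 13) (.e (nat_lit 172106) (nat_lit 10) (.e (nat_lit 434231) (nat_lit 23) (.e (nat_lit 532535) (nat_lit 9) (.e (nat_lit 335900) (nat_lit 0) (.e (nat_lit 1050) (nat_lit 81) (.e (nat_lit 4804) (nat_lit 281) (.e (nat_lit 1039) (nat_lit 81) (.e (nat_lit 1234) (nat_lit 91) .nil))))))))) (.g (nat_lit 4) .nil .nil)))) (.nd (nat_lit 5) 
(.lf (nat_lit 215708) (.g (nat_lit 3356) (.e (nat_lit 90170) (nat_lit 13) (.e (nat_lit 172106) (nat_lit 10) (.e (nat_lit 434231) (nat_lit 23) (.e (nat_lit 532535) (nat_lit 9) (.e (nat_lit 335900) (nat_lit 0) (.e (nat_lit 996) (nat_lit 81) (.e (nat_lit 4843) (nat_lit 284) (.e (nat_lit 122891) (nat_lit 2) .nil)))))))) (.g (nat_lit 4) .nil .nil))) 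
(.lf (nat_lit 215740) (.g (nat_lit 3263) (.e (nat_lit 90170) (nat_lit 13) (.e (nat_lit 172106) (nat_lit 10) (.e (nat_lit 434231) (nat_lit 23) (.e (nat_lit 532535) (nat_lit 9) (.e (nat_lit 335900) (nat_lit 0) (.e (nat_lit 1936) (nat_lit 132) (.e (nat_lit 622600) (nat_lit 5) (.e (nat_lit 1233) (nat_lit 91) .nil)))))))) (.g (nat_lit 4) .nil .nil))))))) 
(.nd (nat_lit 2) (.nd (nat_lit 3) (.nd (nat_lit 4) (.nd (nat_lit 5) 
(.lf (nat_lit 215682) (.g (nat_lit 3843) (.e (nat_lit 90170) (nat_lit 13) (.e (nat_lit 172106) (nat_lit 10) (.e (nat_lit 434231) (nat_lit 23) (.e (nat_lit 532535) (nat_lit 9) (.e (nat_lit 335900) (nat_lit 0) (.e (nat_lit 971) (nat_lit 81) (.e (nat_lit 4751) (nat_lit 281) (.e (nat_lit 1028) (nat_lit 81) (.e (nat_lit 1237) (nat_lit 91) .nil))))))))) (.g (nat_lit 4) .nil .nil))) 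
(.lf (nat_lit 215714) (.g (nat_lit 3819) (.e (nat_lit 90170) (nat_lit 13) (.e (nat_lit 172106) (nat_lit 10) (.e (nat_lit 434231) (nat_lit 23) (.e (nat_lit 532535) (nat_lit 9) (.e (nat_lit 335900) (nat_lit 0) (.e (nat_lit 1016) (nat_lit 81) (.e (nat_lit 4766) (nat_lit 281) (.e (nat_lit 1084) (nat_lit 81) (.e (nat_lit 1235) (nat_lit 91) .nil))))))))) (.g (nat_lit 4) .nil .nil)))) (.nd (nat_lit 5) 
(.lf (nat_lit 215698) (.g (nat_lit 4587) (.e (nat_lit 90170) (nat_lit 13) (.e (nat_lit 172106) (nat_lit 10) (.e (nat_lit 434231) (nat_lit 23) (.e (nat_lit 532535) (nat_lit 9) (.e (nat_lit 335900) (nat_lit 0) (.e (nat_lit 983) (nat_lit 81) (.e (nat_lit 4842) (nat_lit 283) (.e (nat_lit 57373) (nat_lit 2) .nil)))))))) (.g (nat_lit 4) .nil .nil))) 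
(.lf (nat_lit 215730) (.g (nat_lit 4258) (.e (nat_lit 90170) (nat_lit 13) (.e (nat_lit 172106) (nat_lit 10) (.e (nat_lit 434231) (nat_lit 23) (.e (nat_lit 532535) (nat_lit 9) (.e (nat_lit 335900) (nat_lit 0) (.e (nat_lit 1051) (nat_lit 81) (.e (nat_lit 4806) (nat_lit 281) (.e (nat_lit 1039) (nat_lit 81) (.e (nat_lit 1234) (nat_lit 91) .nil))))))))) (.g (nat_lit 4) .nil .nil))))) 
(.nd (nat_lit 4) (.nd (nat_lit 5) 
(.lf (nat_lit 215690) (.g (nat_lit 4258) (.e (nat_lit 90170) (nat_lit 13) (.e (nat_lit 172106) (nat_lit 10) (.e (nat_lit 434231) (nat_lit 23) (.e (nat_lit 532535) (nat_lit 9) (.e (nat_lit 335900) (nat_lit 0) (.e (nat_lit 971) (nat_lit 81) (.e (nat_lit 4810) (nat_lit 281) (.e (nat_lit 1039) (nat_lit 81) (.e (nat_lit 1234) (nat_lit 91) .nil))))))))) (.g (nat_lit 4) .nil .nil))) 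
(.lf (nat_lit 215722) (.g (nat_lit 3657) (.e (nat_lit 90170) (nat_lit 13) (.e (nat_lit 172106) (nat_lit 10) (.e (nat_lit 434231) (nat_lit 23) (.e (nat_lit 532535) (nat_lit 9) (.e (nat_lit 335900) (nat_lit 0) (.e (nat_lit 1050) (nat_lit 81) (.e (nat_lit 4751) (nat_lit 281) (.e (nat_lit 1028) (nat_lit 81) (.e (nat_lit 1237) (nat_lit 91) .nil))))))))) (.g (nat_lit 4) .nil .nil)))) (.nd (nat_lit 5) 
(.lf (nat_lit 215706) (.g (nat_lit 4330) (.e (nat_lit 90170) (nat_lit 13) (.e (nat_lit 172106) (nat_lit 10) (.e (nat_lit 434231) (nat_lit 23) (.e (nat_lit 532535) (nat_lit 9) (.e (nat_lit 335900) (nat_lit 0) (.e (nat_lit 996) (nat_lit 81) (.e (nat_lit 4842) (nat_lit 283) (.e (nat_lit 57373) (nat_lit 2) .nil)))))))) (.g (nat_lit 4) .nil .nil))) 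
(.lf (nat_lit 215738) (.g (nat_lit 5040) (.e (nat_lit 90170) (nat_lit 13) (.e (nat_lit 172106) (nat_lit 10) (.e (nat_lit 434231) (nat_lit 23) (.e (nat_lit 532535) (nat_lit 9) (.e (nat_lit 335900) (nat_lit 0) (.e (nat_lit 1936) (nat_lit 132) (.e (nat_lit 622598) (nat_lit 5) (.e (nat_lit 1234) (nat_lit 91) .nil)))))))) (.g (nat_lit 4) .nil .nil)))))) 
(.nd (nat_lit 3) (.nd (nat_lit 4) (.nd (nat_lit 5) 
(.lf (nat_lit 215686) (.g (nat_lit 4326) (.e (nat_lit 90170) (nat_lit 13) (.e (nat_lit 172106) (nat_lit 10) (.e (nat_lit 434231) (nat_lit 23) (.e (nat_lit 532535) (nat_lit 9) (.e (nat_lit 335900) (nat_lit 0) (.e (nat_lit 971) (nat_lit 81) (.e (nat_lit 4805) (nat_lit 281) (.e (nat_lit 1039) (nat_lit 81) (.e (nat_lit 1234) (nat_lit 91) .nil))))))))) (.g (nat_lit 4) .nil .nil))) 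
(.lf (nat_lit 215718) (.g (nat_lit 3261) (.e (nat_lit 90170) (nat_lit 13) (.e (nat_lit 172106) (nat_lit 10) (.e (nat_lit 434231) (nat_lit 23) (.e (nat_lit 532535) (nat_lit 9) (.e (nat_lit 335900) (nat_lit 0) (.e (nat_lit 1049) (nat_lit 81) (.e (nat_lit 4809) (nat_lit 281) (.e (nat_lit 982) (nat_lit 81) (.e (nat_lit 1237) (nat_lit 91) .nil))))))))) (.g (nat_lit 4) .nil .nil)))) (.nd (nat_lit 5) 
(.lf (nat_lit 215702) (.g (nat_lit 4559) (.e (nat_lit 90170) (nat_lit 13) (.e (nat_lit 172106) (nat_lit 10) (.e (nat_lit 434231) (nat_lit 23) (.e (nat_lit 532535) (nat_lit 9) (.e (nat_lit 335900) (nat_lit 0) (.e (nat_lit 984) (nat_lit 81) (.e (nat_lit 4842) (nat_lit 283) (.e (nat_lit 57373) (nat_lit 2) .nil)))))))) (.g (nat_lit 4) .nil .nil))) 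
(.lf (nat_lit 215734) (.g (nat_lit 4442) (.e (nat_lit 90170) (nat_lit 13) (.e (nat_lit 172106) (nat_lit 10) (.e (nat_lit 434231) (nat_lit 23) (.e (nat_lit 532535) (nat_lit 9) (.e (nat_lit 335900) (nat_lit 0) (.e (nat_lit 1052) (nat_lit 81) (.e (nat_lit 4806) (nat_lit 281) (.e (nat_lit 1039) (nat_lit 81) (.e (nat_lit 1234) (nat_lit 91) .nil))))))))) (.g (nat_lit 4) .nil .nil))))) 
(.nd (nat_lit 4) (.nd (nat_lit 5) 
(.lf (nat_lit 215694) (.g (nat_lit 3938) (.e (nat_lit 90170) (nat_lit 13) (.e (nat_lit 172106) (nat_lit 10) (.e (nat_lit 434231) (nat_lit 23) (.e (nat_lit 532535) (nat_lit 9) (.e (nat_lit 335900) (nat_lit 0) (.e (nat_lit 981) (nat_lit 81) (.e (nat_lit 4803) (nat_lit 281) (.e (nat_lit 1039) (nat_lit 81) (.e (nat_lit 1234) (nat_lit 91) .nil))))))))) (.g (nat_lit 4) .nil .nil))) 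
(.lf (nat_lit 215726) (.g (nat_lit 4372) (.e (nat_lit 90170) (nat_lit 13) (.e (nat_lit 172106) (nat_lit 10) (.e (nat_lit 434231) (nat_lit 23) (.e (nat_lit 532535) (nat_lit 9) (.e (nat_lit 335900) (nat_lit 0) (.e (nat_lit 1050) (nat_lit 81) (.e (nat_lit 4805) (nat_lit 281) (.e (nat_lit 1039) (nat_lit 81) (.e (nat_lit 1234) (nat_lit 91) .nil))))))))) (.g (nat_lit 4) .nil .nil)))) (.nd (nat_lit 5) 
(.lf (nat_lit 215710) (.g (nat_lit 3854) (.e (nat_lit 90170) (nat_lit 13) (.e (nat_lit 172106) (nat_lit 10) (.e (nat_lit 434231) (nat_lit 23) (.e (nat_lit 532535) (nat_lit 9) (.e (nat_lit 335900) (nat_lit 0) (.e (nat_lit 997) (nat_lit 81) (.e (nat_lit 4842) (nat_lit 283) (.e (nat_lit 57374) (nat_lit 2) .nil)))))))) (.g (nat_lit 4) .nil .nil))) 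
(.lf (nat_lit 215742) (.g (nat_lit 3704) (.e (nat_lit 90170) (nat_lit 13) (.e (nat_lit 172106) (nat_lit 10) (.e (nat_lit 434231) (nat_lit 23) (.e (nat_lit 532535) (nat_lit 9) (.e (nat_lit 335900) (nat_lit 0) (.e (nat_lit 1936) (nat_lit 132) (.e (nat_lit 622601) (nat_lit 5) (.e (nat_lit 1239) (nat_lit 91) .nil)))))))) (.g (nat_lit 4) .nil .nil)))))))) 
(.nd (nat_lit 1) (.nd (nat_lit 2) (.nd (nat_lit 3) (.nd (nat_lit 4) (.nd (nat_lit 5) 
(.lf (nat_lit 215681) (.g (nat_lit 4543) (.e (nat_lit 90170) (nat_lit 13) (.e (nat_lit 172106) (nat_lit 10) (.e (nat_lit 434231) (nat_lit 23) (.e (nat_lit 532535) (nat_lit 9) (.e (nat_lit 335900) (nat_lit 0) (.e (nat_lit 971) (nat_lit 81) (.e (nat_lit 4751) (nat_lit 281) (.e (nat_lit 1027) (nat_lit 81) (.e (nat_lit 1237) (nat_lit 91) .nil))))))))) (.g (nat_lit 4) .nil .nil))) 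
(.lf (nat_lit 215713) (.g (nat_lit 3784) (.e (nat_lit 90170) (nat_lit 13) (.e (nat_lit 172106) (nat_lit 10) (.e (nat_lit 434231) (nat_lit 23) (.e (nat_lit 532535) (nat_lit 9) (.e (nat_lit 335900) (nat_lit 0) (.e (nat_lit 1016) (nat_lit 81) (.e (nat_lit 4766) (nat_lit 281) (.e (nat_lit 1084) (nat_lit 81) (.e (nat_lit 1234) (nat_lit 91) .nil))))))))) (.g (nat_lit 4) .nil .nil)))) (.nd (nat_lit 5) 
(.lf (nat_lit 215697) (.g (nat_lit 3629) (.e (nat_lit 90170) (nat_lit 13) (.e (nat_lit 172106) (nat_lit 10) (.e (nat_lit 434231) (nat_lit 23) (.e (nat_lit 532535) (nat_lit 9) (.e (nat_lit 335900) (nat_lit 0) (.e (nat_lit 983) (nat_lit 81) (.e (nat_lit 4841) (nat_lit 283) (.e (nat_lit 57374) (nat_lit 2) .nil)))))))) (.g (nat_lit 4) .nil .nil))) 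
(.lf (nat_lit 215729) (.g (nat_lit 3807) (.e (nat_lit 90170) (nat_lit 13) (.e (nat_lit 172106) (nat_lit 10) (.e (nat_lit 434231) (nat_lit 23) (.e (nat_lit 532535) (nat_lit 9) (.e (nat_lit 335900) (nat_lit 0) (.e (nat_lit 1051) (nat_lit 81) (.e (nat_lit 4803) (nat_lit 281) (.e (nat_lit 1039) (nat_lit 81) (.e (nat_lit 1234) (nat_lit 91) .nil))))))))) (.g (nat_lit 4) .nil .nil))))) 
(.nd (nat_lit 4) (.nd (nat_lit 5) 
(.lf (nat_lit 215689) (.g (nat_lit 3284) (.e (nat_lit 90170) (nat_lit 13) (.e (nat_lit 172106) (nat_lit 10) (.e (nat_lit 434231) (nat_lit 23) (.e (nat_lit 532535) (nat_lit 9) (.e (nat_lit 335900) (nat_lit 0) (.e (nat_lit 971) (nat_lit 81) (.e (nat_lit 4810) (nat_lit 281) (.e (nat_lit 982) (nat_lit 81) (.e (nat_lit 1237) (nat_lit 91) .nil))))))))) (.g (nat_lit 4) .nil .nil))) 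
(.lf (nat_lit 215721) (.g (nat_lit 4357) (.e (nat_lit 90170) (nat_lit 13) (.e (nat_lit 172106) (nat_lit 10) (.e (nat_lit 434231) (nat_lit 23) (.e (nat_lit 532535) (nat_lit 9) (.e (nat_lit 335900) (nat_lit 0) (.e (nat_lit 1050) (nat_lit 81) (.e (nat_lit 4751) (nat_lit 281) (.e (nat_lit 1027) (nat_lit 81) (.e (nat_lit 1237) (nat_lit 91) .nil))))))))) (.g (nat_lit 4) .nil .nil)))) (.nd (nat_lit 5) 
(.lf (nat_lit 215705) (.g (nat_lit 3686) (.e (nat_lit 90170) (nat_lit 13) (.e (nat_lit 172106) (nat_lit 10) (.e (nat_lit 434231) (nat_lit 23) (.e (nat_lit 532535) (nat_lit 9) (.e (nat_lit 335900) (nat_lit 0) (.e (nat_lit 996) (nat_lit 81) (.e (nat_lit 4841) (nat_lit 283) (.e (nat_lit 57374) (nat_lit 2) .nil)))))))) (.g (nat_lit 4) .nil .nil))) 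
(.lf (nat_lit 215737) (.g (nat_lit 3993) (.e (nat_lit 90170) (nat_lit 13) (.e (nat_lit 172106) (nat_lit 10) (.e (nat_lit 434231) (nat_lit 23) (.e (nat_lit 532535) (nat_lit 9) (.e (nat_lit 335900) (nat_lit 0) (.e (nat_lit 1053) (nat_lit 81) (.e (nat_lit 4803) (nat_lit 281) (.e (nat_lit 1039) (nat_lit 81) (.e (nat_lit 1234) (nat_lit 91) .nil))))))))) (.g (nat_lit 4) .nil .nil)))))) 
(.nd (nat_lit 3) (.nd (nat_lit 4) (.nd (nat_lit 5) 
(.lf (nat_lit 215685) (.g (nat_lit 3489) (.e (nat_lit 90170) (nat_lit 13) (.e (nat_lit 172106) (nat_lit 10) (.e (nat_lit 434231) (nat_lit 23) (.e (nat_lit 532535) (nat_lit 9) (.e (nat_lit 335900) (nat_lit 0) (.e (nat_lit 971) (nat_lit 81) (.e (nat_lit 4805) (nat_lit 281) (.e (nat_lit 982) (nat_lit 81) (.e (nat_lit 1237) (nat_lit 91) .nil))))))))) (.g (nat_lit 4) .nil .nil))) 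
(.lf (nat_lit 215717) (.g (nat_lit 3853) (.e (nat_lit 90170) (nat_lit 13) (.e (nat_lit 172106) (nat_lit 10) (.e (nat_lit 434231) (nat_lit 23) (.e (nat_lit 532535) (nat_lit 9) (.e (nat_lit 335900) (nat_lit 0) (.e (nat_lit 1049) (nat_lit 81) (.e (nat_lit 4751) (nat_lit 281) (.e (nat_lit 1028) (nat_lit 81) (.e (nat_lit 1237) (nat_lit 91) .nil))))))))) (.g (nat_lit 4) .nil .nil)))) (.nd (nat_lit 5) 
(.lf (nat_lit 215701) (.g (nat_lit 4250) (.e (nat_lit 90170) (nat_lit 13) (.e (nat_lit 172106) (nat_lit 10) (.e (nat_lit 434231) (nat_lit 23) (.e (nat_lit 532535) (nat_lit 9) (.e (nat_lit 335900) (nat_lit 0) (.e (nat_lit 984) (nat_lit 81) (.e (nat_lit 4841) (nat_lit 283) (.e (nat_lit 57374) (nat_lit 2) .nil)))))))) (.g (nat_lit 4) .nil .nil))) 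
(.lf (nat_lit 215733) (.g (nat_lit 3887) (.e (nat_lit 90170) (nat_lit 13) (.e (nat_lit 172106) (nat_lit 10) (.e (nat_lit 434231) (nat_lit 23) (.e (nat_lit 532535) (nat_lit 9) (.e (nat_lit 335900) (nat_lit 0) (.e (nat_lit 1052) (nat_lit 81) (.e (nat_lit 4803) (nat_lit 281) (.e (nat_lit 1039) (nat_lit 81) (.e (nat_lit 1234) (nat_lit 91) .nil))))))))) (.g (nat_lit 4) .nil .nil))))) 
(.nd (nat_lit 4) (.nd (nat_lit 5) 
(.lf (nat_lit 215693) (.g (nat_lit 3910) (.e (nat_lit 90170) (nat_lit 13) (.e (nat_lit 172106) (nat_lit 10) (.e (nat_lit 434231) (nat_lit 23) (.e (nat_lit 532535) (nat_lit 9) (.e (nat_lit 335900) (nat_lit 0) (.e (nat_lit 979) (nat_lit 81) (.e (nat_lit 4803) (nat_lit 281) (.e (nat_lit 1039) (nat_lit 81) (.e (nat_lit 1234) (nat_lit 91) .nil))))))))) (.g (nat_lit 4) .nil .nil))) 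
(.lf (nat_lit 215725) (.g (nat_lit 3535) (.e (nat_lit 90170) (nat_lit 13) (.e (nat_lit 172106) (nat_lit 10) (.e (nat_lit 434231) (nat_lit 23) (.e (nat_lit 532535) (nat_lit 9) (.e (nat_lit 335900) (nat_lit 0) (.e (nat_lit 1050) (nat_lit 81) (.e (nat_lit 4805) (nat_lit 281) (.e (nat_lit 982) (nat_lit 81) (.e (nat_lit 1237) (nat_lit 91) .nil))))))))) (.g (nat_lit 4) .nil .nil)))) (.nd (nat_lit 5) 
(.lf (nat_lit 215709) (.g (nat_lit 3633) (.e (nat_lit 90170) (nat_lit 13) (.e (nat_lit 172106) (nat_lit 10) (.e (nat_lit 434231) (nat_lit 23) (.e (nat_lit 532535) (nat_lit 9) (.e (nat_lit 335900) (nat_lit 0) (.e (nat_lit 997) (nat_lit 81) (.e (nat_lit 4842) (nat_lit 283) (.e (nat_lit 57373) (nat_lit 2) .nil)))))))) (.g (nat_lit 4) .nil .nil))) 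
(.lf (nat_lit 215741) (.g (nat_lit 3639) (.e (nat_lit 90170) (nat_lit 13) (.e (nat_lit 172106) (nat_lit 10) (.e (nat_lit 434231) (nat_lit 23) (.e (nat_lit 532535) (nat_lit 9) (.e (nat_lit 335900) (nat_lit 0) (.e (nat_lit 1936) (nat_lit 132) (.e (nat_lit 622600) (nat_lit 5) (.e (nat_lit 1239) (nat_lit 91) .nil)))))))) (.g (nat_lit 4) .nil .nil))))))) 
(.nd (nat_lit 2) (.nd (nat_lit 3) (.nd (nat_lit 4) (.nd (nat_lit 5) 
(.lf (nat_lit 215683) (.g (nat_lit 4013) (.e (nat_lit 90170) (nat_lit 13) (.e (nat_lit 172106) (nat_lit 10) (.e (nat_lit 434231) (nat_lit 23) (.e (nat_lit 532535) (nat_lit 9) (.e (nat_lit 335900) (nat_lit 0) (.e (nat_lit 971) (nat_lit 81) (.e (nat_lit 4804) (nat_lit 281) (.e (nat_lit 982) (nat_lit 81) (.e (nat_lit 1237) (nat_lit 91) .nil))))))))) (.g (nat_lit 4) .nil .nil))) 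
(.lf (nat_lit 215715) (.g (nat_lit 3216) (.e (nat_lit 90170) (nat_lit 13) (.e (nat_lit 172106) (nat_lit 10) (.e (nat_lit 434231) (nat_lit 23) (.e (nat_lit 532535) (nat_lit 9) (.e (nat_lit 335900) (nat_lit 0) (.e (nat_lit 1049) (nat_lit 81) (.e (nat_lit 4751) (nat_lit 281) (.e (nat_lit 999) (nat_lit 81) (.e (nat_lit 1239) (nat_lit 91) .nil))))))))) (.g (nat_lit 4) .nil .nil)))) (.nd (nat_lit 5) 
(.lf (nat_lit 215699) (.g (nat_lit 4796) (.e (nat_lit 90170) (nat_lit 13) (.e (nat_lit 172106) (nat_lit 10) (.e (nat_lit 434231) (nat_lit 23) (.e (nat_lit 532535) (nat_lit 9) (.e (nat_lit 335900) (nat_lit 0) (.e (nat_lit 983) (nat_lit 81) (.e (nat_lit 4842) (nat_lit 283) (.e (nat_lit 57374) (nat_lit 2) .nil)))))))) (.g (nat_lit 4) .nil .nil))) 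
(.lf (nat_lit 215731) (.g (nat_lit 3937) (.e (nat_lit 90170) (nat_lit 13) (.e (nat_lit 172106) (nat_lit 10) (.e (nat_lit 434231) (nat_lit 23) (.e (nat_lit 532535) (nat_lit 9) (.e (nat_lit 335900) (nat_lit 0) (.e (nat_lit 1051) (nat_lit 81) (.e (nat_lit 4807) (nat_lit 281) (.e (nat_lit 1039) (nat_lit 81) (.e (nat_lit 1234) (nat_lit 91) .nil))))))))) (.g (nat_lit 4) .nil .nil))))) 
(.nd (nat_lit 4) (.nd (nat_lit 5) 
(.lf (nat_lit 215691) (.g (nat_lit 4626) (.e (nat_lit 90170) (nat_lit 13) (.e (nat_lit 172106) (nat_lit 10) (.e (nat_lit 434231) (nat_lit 23) (.e (nat_lit 532535) (nat_lit 9) (.e (nat_lit 335900) (nat_lit 0) (.e (nat_lit 971) (nat_lit 81) (.e (nat_lit 4840) (nat_lit 283) (.e (nat_lit 57373) (nat_lit 2) .nil)))))))) (.g (nat_lit 4) .nil .nil))) 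
(.lf (nat_lit 215723) (.g (nat_lit 4178) (.e (nat_lit 90170) (nat_lit 13) (.e (nat_lit 172106) (nat_lit 10) (.e (nat_lit 434231) (nat_lit 23) (.e (nat_lit 532535) (nat_lit 9) (.e (nat_lit 335900) (nat_lit 0) (.e (nat_lit 1050) (nat_lit 81) (.e (nat_lit 4804) (nat_lit 281) (.e (nat_lit 982) (nat_lit 81) (.e (nat_lit 1237) (nat_lit 91) .nil))))))))) (.g (nat_lit 4) .nil .nil)))) (.nd (nat_lit 5) 
(.lf (nat_lit 215707) (.g (nat_lit 4551) (.e (nat_lit 90170) (nat_lit 13) (.e (nat_lit 172106) (nat_lit 10) (.e (nat_lit 434231) (nat_lit 23) (.e (nat_lit 532535) (nat_lit 9) (.e (nat_lit 335900) (nat_lit 0) (.e (nat_lit 996) (nat_lit 81) (.e (nat_lit 4842) (nat_lit 283) (.e (nat_lit 57374) (nat_lit 2) .nil)))))))) (.g (nat_lit 4) .nil .nil))) 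
(.lf (nat_lit 215739) (.g (nat_lit 3249) (.e (nat_lit 90170) (nat_lit 13) (.e (nat_lit 172106) (nat_lit 10) (.e (nat_lit 434231) (nat_lit 23) (.e (nat_lit 532535) (nat_lit 9) (.e (nat_lit 335900) (nat_lit 0) (.e (nat_lit 1936) (nat_lit 132) (.e (nat_lit 622598) (nat_lit 5) (.e (nat_lit 1237) (nat_lit 91) .nil)))))))) (.g (nat_lit 4) .nil .nil)))))) 
(.nd (nat_lit 3) (.nd (nat_lit 4) (.nd (nat_lit 5) 
(.lf (nat_lit 215687) (.g (nat_lit 4128) (.e (nat_lit 90170) (nat_lit 13) (.e (nat_lit 172106) (nat_lit 10) (.e (nat_lit 434231) (nat_lit 23) (.e (nat_lit 532535) (nat_lit 9) (.e (nat_lit 335900) (nat_lit 0) (.e (nat_lit 971) (nat_lit 81) (.e (nat_lit 4809) (nat_lit 281) (.e (nat_lit 982) (nat_lit 81) (.e (nat_lit 1237) (nat_lit 91) .nil))))))))) (.g (nat_lit 4) .nil .nil))) 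
(.lf (nat_lit 215719) (.g (nat_lit 4580) (.e (nat_lit 90170) (nat_lit 13) (.e (nat_lit 172106) (nat_lit 10) (.e (nat_lit 434231) (nat_lit 23) (.e (nat_lit 532535) (nat_lit 9) (.e (nat_lit 335900) (nat_lit 0) (.e (nat_lit 1049) (nat_lit 81) (.e (nat_lit 4840) (nat_lit 283) (.e (nat_lit 57373) (nat_lit 2) .nil)))))))) (.g (nat_lit 4) .nil .nil)))) (.nd (nat_lit 5) 
(.lf (nat_lit 215703) (.g (nat_lit 4780) (.e (nat_lit 90170) (nat_lit 13) (.e (nat_lit 172106) (nat_lit 10) (.e (nat_lit 434231) (nat_lit 23) (.e (nat_lit 532535) (nat_lit 9) (.e (nat_lit 335900) (nat_lit 0) (.e (nat_lit 984) (nat_lit 81) (.e (nat_lit 4842) (nat_lit 283) (.e (nat_lit 57374) (nat_lit 2) .nil)))))))) (.g (nat_lit 4) .nil .nil))) 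
(.lf (nat_lit 215735) (.g (nat_lit 4375) (.e (nat_lit 90170) (nat_lit 13) (.e (nat_lit 172106) (nat_lit 10) (.e (nat_lit 434231) (nat_lit 23) (.e (nat_lit 532535) (nat_lit 9) (.e (nat_lit 335900) (nat_lit 0) (.e (nat_lit 1052) (nat_lit 81) (.e (nat_lit 4807) (nat_lit 281) (.e (nat_lit 1039) (nat_lit 81) (.e (nat_lit 1234) (nat_lit 91) .nil))))))))) (.g (nat_lit 4) .nil .nil))))) 
(.nd (nat_lit 4) (.nd (nat_lit 5) 
(.lf (nat_lit 215695) (.g (nat_lit 4279) (.e (nat_lit 90170) (nat_lit 13) (.e (nat_lit 172106) (nat_lit 10) (.e (nat_lit 434231) (nat_lit 23) (.e (nat_lit 532535) (nat_lit 9) (.e (nat_lit 335900) (nat_lit 0) (.e (nat_lit 982) (nat_lit 81) (.e (nat_lit 4842) (nat_lit 283) (.e (nat_lit 57373) (nat_lit 2) .nil)))))))) (.g (nat_lit 4) .nil .nil))) 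
(.lf (nat_lit 215727) (.g (nat_lit 4694) (.e (nat_lit 90170) (nat_lit 13) (.e (nat_lit 172106) (nat_lit 10) (.e (nat_lit 434231) (nat_lit 23) (.e (nat_lit 532535) (nat_lit 9) (.e (nat_lit 335900) (nat_lit 0) (.e (nat_lit 1050) (nat_lit 81) (.e (nat_lit 4840) (nat_lit 283) (.e (nat_lit 57373) (nat_lit 2) .nil)))))))) (.g (nat_lit 4) .nil .nil)))) (.nd (nat_lit 5) 
(.lf (nat_lit 215711) (.g (nat_lit 3488) (.e (nat_lit 90170) (nat_lit 13) (.e (nat_lit 172106) (nat_lit 10) (.e (nat_lit 434231) (nat_lit 23) (.e (nat_lit 532535) (nat_lit 9) (.e (nat_lit 335900) (nat_lit 0) (.e (nat_lit 998) (nat_lit 81) (.e (nat_lit 4780) (nat_lit 281) (.e (nat_lit 1011) (nat_lit 81) (.e (nat_lit 1239) (nat_lit 91) .nil))))))))) (.g (nat_lit 4) .nil .nil))) 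
(.lf (nat_lit 215743) (.g (nat_lit 3998) (.e (nat_lit 90170) (nat_lit 13) (.e (nat_lit 172106) (nat_lit 10) (.e (nat_lit 434231) (nat_lit 23) (.e (nat_lit 532535) (nat_lit 9) (.e (nat_lit 335900) (nat_lit 0) (.e (nat_lit 1936) (nat_lit 132) (.e (nat_lit 622603) (nat_lit 5) (.e (nat_lit 1234) (nat_lit 91) .nil)))))))) (.g (nat_lit 4) .nil .nil)))))))))

noncomputable def tv2835 : DT := (.nd (nat_lit 0) (.nd (nat_lit 1) (.nd (nat_lit 2) (.nd (nat_lit 3) (.nd (nat_lit 4) (.nd (nat_lit 5) 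
(.lf (nat_lit 215744) (.g (nat_lit 4770) (.e (nat_lit 90170) (nat_lit 13) (.e (nat_lit 172106) (nat_lit 10) (.e (nat_lit 434231) (nat_lit 23) (.e (nat_lit 532535) (nat_lit 9) (.e (nat_lit 335900) (nat_lit 0) (.e (nat_lit 1936) (nat_lit 132) (.e (nat_lit 622604) (nat_lit 5) (.e (nat_lit 1234) (nat_lit 91) .nil)))))))) (.g (nat_lit 4) .nil .nil))) 
(.lf (nat_lit 215776) (.g (nat_lit 3437) (.e (nat_lit 90170) (nat_lit 13) (.e (nat_lit 172106) (nat_lit 10) (.e (nat_lit 434231) (nat_lit 23) (.e (nat_lit 532535) (nat_lit 9) (.e (nat_lit 335900) (nat_lit 0) (.e (nat_lit 7936) (nat_lit 132) (.e (nat_lit 622600) (nat_lit 5) (.e (nat_lit 1225) (nat_lit 91) .nil)))))))) (.g (nat_lit 4) .nil .nil)))) (.nd (nat_lit 5) 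
(.lf (nat_lit 215760) (.g (nat_lit 3938) (.e (nat_lit 90170) (nat_lit 13) (.e (nat_lit 172106) (nat_lit 10) (.e (nat_lit 434231) (nat_lit 23) (.e (nat_lit 532535) (nat_lit 9) (.e (nat_lit 335900) (nat_lit 0) (.e (nat_lit 1942) (nat_lit 132) (.e (nat_lit 622598) (nat_lit 5) (.e (nat_lit 1237) (nat_lit 91) .nil)))))))) (.g (nat_lit 4) .nil .nil))) 
(.lf (nat_lit 215792) (.g (nat_lit 3351) (.e (nat_lit 90170) (nat_lit 13) (.e (nat_lit 172106) (nat_lit 10) (.e (nat_lit 434231) (nat_lit 23) (.e (nat_lit 532535) (nat_lit 9) (.e (nat_lit 335902) (nat_lit 0) (.e (nat_lit 1936) (nat_lit 132) (.e (nat_lit 622602) (nat_lit 5) (.e (nat_lit 1239) (nat_lit 91) .nil)))))))) (.g (nat_lit 4) .nil .nil))))) (.nd (nat_lit 4) (.nd (nat_lit 5) 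
(.lf (nat_lit 215752) (.g (nat_lit 4525) (.e (nat_lit 90170) (nat_lit 13) (.e (nat_lit 172106) (nat_lit 10) (.e (nat_lit 434231) (nat_lit 23) (.e (nat_lit 532535) (nat_lit 9) (.e (nat_lit 335900) (nat_lit 0) (.e (nat_lit 1937) (nat_lit 132) (.e (nat_lit 622605) (nat_lit 5) (.e (nat_lit 1234) (nat_lit 91) .nil)))))))) (.g (nat_lit 4) .nil .nil))) 
(.lf (nat_lit 215784) (.g (nat_lit 2742) (.e (nat_lit 90170) (nat_lit 13) (.e (nat_lit 172106) (nat_lit 10) (.e (nat_lit 434231) (nat_lit 23) (.e (nat_lit 532535) (nat_lit 9) (.e (nat_lit 335901) (nat_lit 0) (.e (nat_lit 971) (nat_lit 81) (.e (nat_lit 4809) (nat_lit 281) (.e (nat_lit 982) (nat_lit 81) (.e (nat_lit 1237) (nat_lit 91) .nil))))))))) (.g (nat_lit 4) .nil .nil)))) (.nd (nat_lit 5) 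
(.lf (nat_lit 215768) (.g (nat_lit 3751) (.e (nat_lit 90170) (nat_lit 13) (.e (nat_lit 172106) (nat_lit 10) (.e (nat_lit 434231) (nat_lit 23) (.e (nat_lit 532535) (nat_lit 9) (.e (nat_lit 335900) (nat_lit 0) (.e (nat_lit 1943) (nat_lit 132) (.e (nat_lit 622599) (nat_lit 5) (.e (nat_lit 1239) (nat_lit 91) .nil)))))))) (.g (nat_lit 4) .nil .nil))) 
(.lf (nat_lit 215800) (.g (nat_lit 4864) (.e (nat_lit 90170) (nat_lit 13) (.e (nat_lit 172106) (nat_lit 10) (.e (nat_lit 434231) (nat_lit 23) (.e (nat_lit 532535) (nat_lit 9) (.e (nat_lit 335902) (nat_lit 0) (.e (nat_lit 1942) (nat_lit 132) (.e (nat_lit 622604) (nat_lit 5) (.e (nat_lit 1234) (nat_lit 91) .nil)))))))) (.g (nat_lit 4) .nil .nil)))))) 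
(.nd (nat_lit 3) (.nd (nat_lit 4) (.nd (nat_lit 5) 
(.lf (nat_lit 215748) (.g (nat_lit 3392) (.e (nat_lit 90170) (nat_lit 13) (.e (nat_lit 172106) (nat_lit 10) (.e (nat_lit 434231) (nat_lit 23) (.e (nat_lit 532535) (nat_lit 9) (.e (nat_lit 335900) (nat_lit 0) (.e (nat_lit 1937) (nat_lit 132) (.e (nat_lit 622598) (nat_lit 5) (.e (nat_lit 1237) (nat_lit 91) .nil)))))))) (.g (nat_lit 4) .nil .nil))) 
(.lf (nat_lit 215780) (.g (nat_lit 4286) (.e (nat_lit 90170) (nat_lit 13) (.e (nat_lit 172106) (nat_lit 10) (.e (nat_lit 434231) (nat_lit 23) (.e (nat_lit 532535) (nat_lit 9) (.e (nat_lit 335900) (nat_lit 0) (.e (nat_lit 7936) (nat_lit 132) (.e (nat_lit 630528) (nat_lit 5) (.e (nat_lit 1237) (nat_lit 91) .nil)))))))) (.g (nat_lit 4) .nil .nil)))) (.nd (nat_lit 5) 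
(.lf (nat_lit 215764) (.g (nat_lit 4463) (.e (nat_lit 90170) (nat_lit 13) (.e (nat_lit 172106) (nat_lit 10) (.e (nat_lit 434231) (nat_lit 23) (.e (nat_lit 532535) (nat_lit 9) (.e (nat_lit 335900) (nat_lit 0) (.e (nat_lit 1942) (nat_lit 132) (.e (nat_lit 622605) (nat_lit 5) (.e (nat_lit 1234) (nat_lit 91) .nil)))))))) (.g (nat_lit 4) .nil .nil))) 
(.lf (nat_lit 215796) (.g (nat_lit 4966) (.e (nat_lit 90170) (nat_lit 13) (.e (nat_lit 172106) (nat_lit 10) (.e (nat_lit 434231) (nat_lit 23) (.e (nat_lit 532535) (nat_lit 9) (.e (nat_lit 335902) (nat_lit 0) (.e (nat_lit 1942) (nat_lit 132) (.e (nat_lit 622598) (nat_lit 5) (.e (nat_lit 1234) (nat_lit 91) .nil)))))))) (.g (nat_lit 4) .nil .nil))))) (.nd (nat_lit 4) (.nd (nat_lit 5) 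
(.lf (nat_lit 215756) (.g (nat_lit 3587) (.e (nat_lit 90170) (nat_lit 13) (.e (nat_lit 172106) (nat_lit 10) (.e (nat_lit 434231) (nat_lit 23) (.e (nat_lit 532535) (nat_lit 9) (.e (nat_lit 335900) (nat_lit 0) (.e (nat_lit 1938) (nat_lit 132) (.e (nat_lit 622599) (nat_lit 5) (.e (nat_lit 1239) (nat_lit 91) .nil)))))))) (.g (nat_lit 4) .nil .nil))) 
(.lf (nat_lit 215788) (.g (nat_lit 2800) (.e (nat_lit 90170) (nat_lit 13) (.e (nat_lit 172106) (nat_lit 10) (.e (nat_lit 434231) (nat_lit 23) (.e (nat_lit 532535) (nat_lit 9) (.e (nat_lit 335901) (nat_lit 0) (.e (nat_lit 1050) (nat_lit 81) (.e (nat_lit 4751) (nat_lit 281) (.e (nat_lit 1027) (nat_lit 81) (.e (nat_lit 1237) (nat_lit 91) .nil))))))))) (.g (nat_lit 4) .nil .nil)))) (.nd (nat_lit 5) 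
(.lf (nat_lit 215772) (.g (nat_lit 3666) (.e (nat_lit 90170) (nat_lit 13) (.e (nat_lit 172106) (nat_lit 10) (.e (nat_lit 434231) (nat_lit 23) (.e (nat_lit 532535) (nat_lit 9) (.e (nat_lit 335900) (nat_lit 0) (.e (nat_lit 1943) (nat_lit 132) (.e (nat_lit 622605) (nat_lit 5) (.e (nat_lit 1234) (nat_lit 91) .nil)))))))) (.g (nat_lit 4) .nil .nil))) 
(.lf (nat_lit 215804) (.g (nat_lit 4234) (.e (nat_lit 90170) (nat_lit 13) (.e (nat_lit 172106) (nat_lit 10) (.e (nat_lit 434231) (nat_lit 23) (.e (nat_lit 532535) (nat_lit 9) (.e (nat_lit 335902) (nat_lit 0) (.e (nat_lit 1943) (nat_lit 132) (.e (nat_lit 622603) (nat_lit 5) (.e (nat_lit 1234) (nat_lit 91) .nil)))))))) (.g (nat_lit 4) .nil .nil))))))) 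
(.nd (nat_lit 2) (.nd (nat_lit 3) (.nd (nat_lit 4) (.nd (nat_lit 5) 
(.lf (nat_lit 215746) (.g (nat_lit 4941) (.e (nat_lit 90170) (nat_lit 13) (.e (nat_lit 172106) (nat_lit 10) (.e (nat_lit 434231) (nat_lit 23) (.e (nat_lit 532535) (nat_lit 9) (.e (nat_lit 335900) (nat_lit 0) (.e (nat_lit 1936) (nat_lit 132) (.e (nat_lit 622605) (nat_lit 5) (.e (nat_lit 1237) (nat_lit 91) .nil)))))))) (.g (nat_lit 4) .nil .nil))) 
(.lf (nat_lit 215778) (.g (nat_lit 3555) (.e (nat_lit 90170) (nat_lit 13) (.e (nat_lit 172106) (nat_lit 10) (.e (nat_lit 434231) (nat_lit 23) (.e (nat_lit 532535) (nat_lit 9) (.e (nat_lit 335900) (nat_lit 0) (.e (nat_lit 7936) (nat_lit 132) (.e (nat_lit 622602) (nat_lit 5) (.e (nat_lit 1239) (nat_lit 91) .nil)))))))) (.g (nat_lit 4) .nil .nil)))) (.nd (nat_lit 5) 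
(.lf (nat_lit 215762) (.g (nat_lit 5015) (.e (nat_lit 90170) (nat_lit 13) (.e (nat_lit 172106) (nat_lit 10) (.e (nat_lit 434231) (nat_lit 23) (.e (nat_lit 532535) (nat_lit 9) (.e (nat_lit 335900) (nat_lit 0) (.e (nat_lit 1942) (nat_lit 132) (.e (nat_lit 622603) (nat_lit 5) (.e (nat_lit 1234) (nat_lit 91) .nil)))))))) (.g (nat_lit 4) .nil .nil))) 
(.lf (nat_lit 215794) (.g (nat_lit 3508) (.e (nat_lit 90170) (nat_lit 13) (.e (nat_lit 172106) (nat_lit 10) (.e (nat_lit 434231) (nat_lit 23) (.e (nat_lit 532535) (nat_lit 9) (.e (nat_lit 335902) (nat_lit 0) (.e (nat_lit 1936) (nat_lit 132) (.e (nat_lit 622605) (nat_lit 5) (.e (nat_lit 1236) (nat_lit 91) .nil)))))))) (.g (nat_lit 4) .nil .nil))))) (.nd (nat_lit 4) (.nd (nat_lit 5) 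
(.lf (nat_lit 215754) (.g (nat_lit 4849) (.e (nat_lit 90170) (nat_lit 13) (.e (nat_lit 172106) (nat_lit 10) (.e (nat_lit 434231) (nat_lit 23) (.e (nat_lit 532535) (nat_lit 9) (.e (nat_lit 335900) (nat_lit 0) (.e (nat_lit 1938) (nat_lit 132) (.e (nat_lit 622598) (nat_lit 5) (.e (nat_lit 1234) (nat_lit 91) .nil)))))))) (.g (nat_lit 4) .nil .nil))) 
(.lf (nat_lit 215786) (.g (nat_lit 3258) (.e (nat_lit 90170) (nat_lit 13) (.e (nat_lit 172106) (nat_lit 10) (.e (nat_lit 434231) (nat_lit 23) (.e (nat_lit 532535) (nat_lit 9) (.e (nat_lit 335901) (nat_lit 0) (.e (nat_lit 1049) (nat_lit 81) (.e (nat_lit 4751) (nat_lit 281) (.e (nat_lit 1027) (nat_lit 81) (.e (nat_lit 1237) (nat_lit 91) .nil))))))))) (.g (nat_lit 4) .nil .nil)))) (.nd (nat_lit 5) 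
(.lf (nat_lit 215770) (.g (nat_lit 4921) (.e (nat_lit 90170) (nat_lit 13) (.e (nat_lit 172106) (nat_lit 10) (.e (nat_lit 434231) (nat_lit 23) (.e (nat_lit 532535) (nat_lit 9) (.e (nat_lit 335900) (nat_lit 0) (.e (nat_lit 1943) (nat_lit 132) (.e (nat_lit 622603) (nat_lit 5) (.e (nat_lit 1234) (nat_lit 91) .nil)))))))) (.g (nat_lit 4) .nil .nil))) 
(.lf (nat_lit 215802) (.g (nat_lit 4522) (.e (nat_lit 90170) (nat_lit 13) (.e (nat_lit 172106) (nat_lit 10) (.e (nat_lit 434231) (nat_lit 23) (.e (nat_lit 532535) (nat_lit 9) (.e (nat_lit 335902) (nat_lit 0) (.e (nat_lit 1942) (nat_lit 132) (.e (nat_lit 630528) (nat_lit 5) (.e (nat_lit 1237) (nat_lit 91) .nil)))))))) (.g (nat_lit 4) .nil .nil)))))) 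
(.nd (nat_lit 3) (.nd (nat_lit 4) (.nd (nat_lit 5) 
(.lf (nat_lit 215750) (.g (nat_lit 5111) (.e (nat_lit 90170) (nat_lit 13) (.e (nat_lit 172106) (nat_lit 10) (.e (nat_lit 434231) (nat_lit 23) (.e (nat_lit 532535) (nat_lit 9) (.e (nat_lit 335900) (nat_lit 0) (.e (nat_lit 1937) (nat_lit 132) (.e (nat_lit 622603) (nat_lit 5) (.e (nat_lit 1234) (nat_lit 91) .nil)))))))) (.g (nat_lit 4) .nil .nil))) 
(.lf (nat_lit 215782) (.g (nat_lit 2840) (.e (nat_lit 90170) (nat_lit 13) (.e (nat_lit 172106) (nat_lit 10) (.e (nat_lit 434231) (nat_lit 23) (.e (nat_lit 532535) (nat_lit 9) (.e (nat_lit 335901) (nat_lit 0) (.e (nat_lit 969) (nat_lit 81) (.e (nat_lit 4751) (nat_lit 281) (.e (nat_lit 1028) (nat_lit 81) (.e (nat_lit 1237) (nat_lit 91) .nil))))))))) (.g (nat_lit 4) .nil .nil)))) (.nd (nat_lit 5) 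
(.lf (nat_lit 215766) (.g (nat_lit 4788) (.e (nat_lit 90170) (nat_lit 13) (.e (nat_lit 172106) (nat_lit 10) (.e (nat_lit 434231) (nat_lit 23) (.e (nat_lit 532535) (nat_lit 9) (.e (nat_lit 335900) (nat_lit 0) (.e (nat_lit 1943) (nat_lit 132) (.e (nat_lit 622598) (nat_lit 5) (.e (nat_lit 1234) (nat_lit 91) .nil)))))))) (.g (nat_lit 4) .nil .nil))) 
(.lf (nat_lit 215798) (.g (nat_lit 3673) (.e (nat_lit 90170) (nat_lit 13) (.e (nat_lit 172106) (nat_lit 10) (.e (nat_lit 434231) (nat_lit 23) (.e (nat_lit 532535) (nat_lit 9) (.e (nat_lit 335902) (nat_lit 0) (.e (nat_lit 1942) (nat_lit 132) (.e (nat_lit 622602) (nat_lit 5) (.e (nat_lit 1239) (nat_lit 91) .nil)))))))) (.g (nat_lit 4) .nil .nil))))) (.nd (nat_lit 4) (.nd (nat_lit 5) 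
(.lf (nat_lit 215758) (.g (nat_lit 4952) (.e (nat_lit 90170) (nat_lit 13) (.e (nat_lit 172106) (nat_lit 10) (.e (nat_lit 434231) (nat_lit 23) (.e (nat_lit 532535) (nat_lit 9) (.e (nat_lit 335900) (nat_lit 0) (.e (nat_lit 1938) (nat_lit 132) (.e (nat_lit 622604) (nat_lit 5) (.e (nat_lit 1234) (nat_lit 91) .nil)))))))) (.g (nat_lit 4) .nil .nil))) 
(.lf (nat_lit 215790) (.g (nat_lit 4431) (.e (nat_lit 90170) (nat_lit 13) (.e (nat_lit 172106) (nat_lit 10) (.e (nat_lit 434231) (nat_lit 23) (.e (nat_lit 532535) (nat_lit 9) (.e (nat_lit 335902) (nat_lit 0) (.e (nat_lit 1936) (nat_lit 132) (.e (nat_lit 622598) (nat_lit 5) (.e (nat_lit 1234) (nat_lit 91) .nil)))))))) (.g (nat_lit 4) .nil .nil)))) (.nd (nat_lit 5) 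
(.lf (nat_lit 215774) (.g (nat_lit 3536) (.e (nat_lit 90170) (nat_lit 13) (.e (nat_lit 172106) (nat_lit 10) (.e (nat_lit 434231) (nat_lit 23) (.e (nat_lit 532535) (nat_lit 9) (.e (nat_lit 335900) (nat_lit 0) (.e (nat_lit 7936) (nat_lit 132) (.e (nat_lit 622598) (nat_lit 5) (.e (nat_lit 1236) (nat_lit 91) .nil)))))))) (.g (nat_lit 4) .nil .nil))) 
(.lf (nat_lit 215806) (.g (nat_lit 3923) (.e (nat_lit 90170) (nat_lit 13) (.e (nat_lit 172106) (nat_lit 10) (.e (nat_lit 434231) (nat_lit 23) (.e (nat_lit 532535) (nat_lit 9) (.e (nat_lit 335902) (nat_lit 0) (.e (nat_lit 1943) (nat_lit 132) (.e (nat_lit 630528) (nat_lit 5) (.e (nat_lit 1237) (nat_lit 91) .nil)))))))) (.g (nat_lit 4) .nil .nil)))))))) 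
(.nd (nat_lit 1) (.nd (nat_lit 2) (.nd (nat_lit 3) (.nd (nat_lit 4) (.nd (nat_lit 5) 
(.lf (nat_lit 215745) (.g (nat_lit 4114) (.e (nat_lit 90170) (nat_lit 13) (.e (nat_lit 172106) (nat_lit 10) (.e (nat_lit 434231) (nat_lit 23) (.e (nat_lit 532535) (nat_lit 9) (.e (nat_lit 335900) (nat_lit 0) (.e (nat_lit 1936) (nat_lit 132) (.e (nat_lit 622605) (nat_lit 5) (.e (nat_lit 1236) (nat_lit 91) .nil)))))))) (.g (nat_lit 4) .nil .nil))) 
(.lf (nat_lit 215777) (.g (nat_lit 4561) (.e (nat_lit 90170) (nat_lit 13) (.e (nat_lit 172106) (nat_lit 10) (.e (nat_lit 434231) (nat_lit 23) (.e (nat_lit 532535) (nat_lit 9) (.e (nat_lit 335900) (nat_lit 0) (.e (nat_lit 7936) (nat_lit 132) (.e (nat_lit 622600) (nat_lit 5) (.e (nat_lit 1233) (nat_lit 91) .nil)))))))) (.g (nat_lit 4) .nil .nil)))) (.nd (nat_lit 5) 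
(.lf (nat_lit 215761) (.g (nat_lit 3520) (.e (nat_lit 90170) (nat_lit 13) (.e (nat_lit 172106) (nat_lit 10) (.e (nat_lit 434231) (nat_lit 23) (.e (nat_lit 532535) (nat_lit 9) (.e (nat_lit 335900) (nat_lit 0) (.e (nat_lit 1942) (nat_lit 132) (.e (nat_lit 622601) (nat_lit 5) (.e (nat_lit 1233) (nat_lit 91) .nil)))))))) (.g (nat_lit 4) .nil .nil))) 
(.lf (nat_lit 215793) (.g (nat_lit 4164) (.e (nat_lit 90170) (nat_lit 13) (.e (nat_lit 172106) (nat_lit 10) (.e (nat_lit 434231) (nat_lit 23) (.e (nat_lit 532535) (nat_lit 9) (.e (nat_lit 335902) (nat_lit 0) (.e (nat_lit 1936) (nat_lit 132) (.e (nat_lit 622604) (nat_lit 5) (.e (nat_lit 1234) (nat_lit 91) .nil)))))))) (.g (nat_lit 4) .nil .nil))))) (.nd (nat_lit 4) (.nd (nat_lit 5) 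
(.lf (nat_lit 215753) (.g (nat_lit 3573) (.e (nat_lit 90170) (nat_lit 13) (.e (nat_lit 172106) (nat_lit 10) (.e (nat_lit 434231) (nat_lit 23) (.e (nat_lit 532535) (nat_lit 9) (.e (nat_lit 335900) (nat_lit 0) (.e (nat_lit 1937) (nat_lit 132) (.e (nat_lit 622605) (nat_lit 5) (.e (nat_lit 1237) (nat_lit 91) .nil)))))))) (.g (nat_lit 4) .nil .nil))) 
(.lf (nat_lit 215785) (.g (nat_lit 3803) (.e (nat_lit 90170) (nat_lit 13) (.e (nat_lit 172106) (nat_lit 10) (.e (nat_lit 434231) (nat_lit 23) (.e (nat_lit 532535) (nat_lit 9) (.e (nat_lit 335901) (nat_lit 0) (.e (nat_lit 971) (nat_lit 81) (.e (nat_lit 4840) (nat_lit 283) (.e (nat_lit 57374) (nat_lit 2) .nil)))))))) (.g (nat_lit 4) .nil .nil)))) (.nd (nat_lit 5) 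
(.lf (nat_lit 215769) (.g (nat_lit 3517) (.e (nat_lit 90170) (nat_lit 13) (.e (nat_lit 172106) (nat_lit 10) (.e (nat_lit 434231) (nat_lit 23) (.e (nat_lit 532535) (nat_lit 9) (.e (nat_lit 335900) (nat_lit 0) (.e (nat_lit 1943) (nat_lit 132) (.e (nat_lit 622602) (nat_lit 5) (.e (nat_lit 1239) (nat_lit 91) .nil)))))))) (.g (nat_lit 4) .nil .nil))) 
(.lf (nat_lit 215801) (.g (nat_lit 3699) (.e (nat_lit 90170) (nat_lit 13) (.e (nat_lit 172106) (nat_lit 10) (.e (nat_lit 434231) (nat_lit 23) (.e (nat_lit 532535) (nat_lit 9) (.e (nat_lit 335902) (nat_lit 0) (.e (nat_lit 1942) (nat_lit 132) (.e (nat_lit 622605) (nat_lit 5) (.e (nat_lit 1234) (nat_lit 91) .nil)))))))) (.g (nat_lit 4) .nil .nil)))))) 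
(.nd (nat_lit 3) (.nd (nat_lit 4) (.nd (nat_lit 5) 
(.lf (nat_lit 215749) (.g (nat_lit 3759) (.e (nat_lit 90170) (nat_lit 13) (.e (nat_lit 172106) (nat_lit 10) (.e (nat_lit 434231) (nat_lit 23) (.e (nat_lit 532535) (nat_lit 9) (.e (nat_lit 335900) (nat_lit 0) (.e (nat_lit 1937) (nat_lit 132) (.e (nat_lit 622602) (nat_lit 5) (.e (nat_lit 1233) (nat_lit 91) .nil)))))))) (.g (nat_lit 4) .nil .nil))) 
(.lf (nat_lit 215781) (.g (nat_lit 2203) (.e (nat_lit 90170) (nat_lit 13) (.e (nat_lit 172106) (nat_lit 10) (.e (nat_lit 434231) (nat_lit 23) (.e (nat_lit 532535) (nat_lit 9) (.e (nat_lit 335901) (nat_lit 0) (.e (nat_lit 969) (nat_lit 81) (.e (nat_lit 4751) (nat_lit 281) (.e (nat_lit 999) (nat_lit 81) (.e (nat_lit 1239) (nat_lit 91) .nil))))))))) (.g (nat_lit 4) .nil .nil)))) (.nd (nat_lit 5) 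
(.lf (nat_lit 215765) (.g (nat_lit 3511) (.e (nat_lit 90170) (nat_lit 13) (.e (nat_lit 172106) (nat_lit 10) (.e (nat_lit 434231) (nat_lit 23) (.e (nat_lit 532535) (nat_lit 9) (.e (nat_lit 335900) (nat_lit 0) (.e (nat_lit 1942) (nat_lit 132) (.e (nat_lit 622605) (nat_lit 5) (.e (nat_lit 1237) (nat_lit 91) .nil)))))))) (.g (nat_lit 4) .nil .nil))) 
(.lf (nat_lit 215797) (.g (nat_lit 3354) (.e (nat_lit 90170) (nat_lit 13) (.e (nat_lit 172106) (nat_lit 10) (.e (nat_lit 434231) (nat_lit 23) (.e (nat_lit 532535) (nat_lit 9) (.e (nat_lit 335902) (nat_lit 0) (.e (nat_lit 1942) (nat_lit 132) (.e (nat_lit 622599) (nat_lit 5) (.e (nat_lit 1239) (nat_lit 91) .nil)))))))) (.g (nat_lit 4) .nil .nil))))) (.nd (nat_lit 4) (.nd (nat_lit 5) 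
(.lf (nat_lit 215757) (.g (nat_lit 4907) (.e (nat_lit 90170) (nat_lit 13) (.e (nat_lit 172106) (nat_lit 10) (.e (nat_lit 434231) (nat_lit 23) (.e (nat_lit 532535) (nat_lit 9) (.e (nat_lit 335900) (nat_lit 0) (.e (nat_lit 1938) (nat_lit 132) (.e (nat_lit 622603) (nat_lit 5) (.e (nat_lit 1234) (nat_lit 91) .nil)))))))) (.g (nat_lit 4) .nil .nil))) 
(.lf (nat_lit 215789) (.g (nat_lit 3604) (.e (nat_lit 90170) (nat_lit 13) (.e (nat_lit 172106) (nat_lit 10) (.e (nat_lit 434231) (nat_lit 23) (.e (nat_lit 532535) (nat_lit 9) (.e (nat_lit 335901) (nat_lit 0) (.e (nat_lit 1050) (nat_lit 81) (.e (nat_lit 4840) (nat_lit 283) (.e (nat_lit 57374) (nat_lit 2) .nil)))))))) (.g (nat_lit 4) .nil .nil)))) (.nd (nat_lit 5) 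
(.lf (nat_lit 215773) (.g (nat_lit 4610) (.e (nat_lit 90170) (nat_lit 13) (.e (nat_lit 172106) (nat_lit 10) (.e (nat_lit 434231) (nat_lit 23) (.e (nat_lit 532535) (nat_lit 9) (.e (nat_lit 335900) (nat_lit 0) (.e (nat_lit 1943) (nat_lit 132) (.e (nat_lit 630528) (nat_lit 5) (.e (nat_lit 1237) (nat_lit 91) .nil)))))))) (.g (nat_lit 4) .nil .nil))) 
(.lf (nat_lit 215805) (.g (nat_lit 4449) (.e (nat_lit 90170) (nat_lit 13) (.e (nat_lit 172106) (nat_lit 10) (.e (nat_lit 434231) (nat_lit 23) (.e (nat_lit 532535) (nat_lit 9) (.e (nat_lit 335902) (nat_lit 0) (.e (nat_lit 1943) (nat_lit 132) (.e (nat_lit 622604) (nat_lit 5) (.e (nat_lit 1234) (nat_lit 91) .nil)))))))) (.g (nat_lit 4) .nil .nil))))))) 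
(.nd (nat_lit 2) (.nd (nat_lit 3) (.nd (nat_lit 4) (.nd (nat_lit 5) 
(.lf (nat_lit 215747) (.g (nat_lit 5180) (.e (nat_lit 90170) (nat_lit 13) (.e (nat_lit 172106) (nat_lit 10) (.e (nat_lit 434231) (nat_lit 23) (.e (nat_lit 532535) (nat_lit 9) (.e (nat_lit 335900) (nat_lit 0) (.e (nat_lit 1937) (nat_lit 132) (.e (nat_lit 622598) (nat_lit 5) (.e (nat_lit 1234) (nat_lit 91) .nil)))))))) (.g (nat_lit 4) .nil .nil))) 
(.lf (nat_lit 215779) (.g (nat_lit 4386) (.e (nat_lit 90170) (nat_lit 13) (.e (nat_lit 172106) (nat_lit 10) (.e (nat_lit 434231) (nat_lit 23) (.e (nat_lit 532535) (nat_lit 9) (.e (nat_lit 335900) (nat_lit 0) (.e (nat_lit 7936) (nat_lit 132) (.e (nat_lit 622605) (nat_lit 5) (.e (nat_lit 1236) (nat_lit 91) .nil)))))))) (.g (nat_lit 4) .nil .nil)))) (.nd (nat_lit 5) 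
(.lf (nat_lit 215763) (.g (nat_lit 3518) (.e (nat_lit 90170) (nat_lit 13) (.e (nat_lit 172106) (nat_lit 10) (.e (nat_lit 434231) (nat_lit 23) (.e (nat_lit 532535) (nat_lit 9) (.e (nat_lit 335900) (nat_lit 0) (.e (nat_lit 1942) (nat_lit 132) (.e (nat_lit 622604) (nat_lit 5) (.e (nat_lit 1237) (nat_lit 91) .nil)))))))) (.g (nat_lit 4) .nil .nil))) 
(.lf (nat_lit 215795) (.g (nat_lit 4338) (.e (nat_lit 90170) (nat_lit 13) (.e (nat_lit 172106) (nat_lit 10) (.e (nat_lit 434231) (nat_lit 23) (.e (nat_lit 532535) (nat_lit 9) (.e (nat_lit 335902) (nat_lit 0) (.e (nat_lit 1936) (nat_lit 132) (.e (nat_lit 622605) (nat_lit 5) (.e (nat_lit 1237) (nat_lit 91) .nil)))))))) (.g (nat_lit 4) .nil .nil))))) (.nd (nat_lit 4) (.nd (nat_lit 5) 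
(.lf (nat_lit 215755) (.g (nat_lit 3896) (.e (nat_lit 90170) (nat_lit 13) (.e (nat_lit 172106) (nat_lit 10) (.e (nat_lit 434231) (nat_lit 23) (.e (nat_lit 532535) (nat_lit 9) (.e (nat_lit 335900) (nat_lit 0) (.e (nat_lit 1938) (nat_lit 132) (.e (nat_lit 622598) (nat_lit 5) (.e (nat_lit 1239) (nat_lit 91) .nil)))))))) (.g (nat_lit 4) .nil .nil))) 
(.lf (nat_lit 215787) (.g (nat_lit 3800) (.e (nat_lit 90170) (nat_lit 13) (.e (nat_lit 172106) (nat_lit 10) (.e (nat_lit 434231) (nat_lit 23) (.e (nat_lit 532535) (nat_lit 9) (.e (nat_lit 335901) (nat_lit 0) (.e (nat_lit 1049) (nat_lit 81) (.e (nat_lit 4840) (nat_lit 283) (.e (nat_lit 57374) (nat_lit 2) .nil)))))))) (.g (nat_lit 4) .nil .nil)))) (.nd (nat_lit 5) 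
(.lf (nat_lit 215771) (.g (nat_lit 5136) (.e (nat_lit 90170) (nat_lit 13) (.e (nat_lit 172106) (nat_lit 10) (.e (nat_lit 434231) (nat_lit 23) (.e (nat_lit 532535) (nat_lit 9) (.e (nat_lit 335900) (nat_lit 0) (.e (nat_lit 1943) (nat_lit 132) (.e (nat_lit 622604) (nat_lit 5) (.e (nat_lit 1234) (nat_lit 91) .nil)))))))) (.g (nat_lit 4) .nil .nil))) 
(.lf (nat_lit 215803) (.g (nat_lit 4101) (.e (nat_lit 90170) (nat_lit 13) (.e (nat_lit 172106) (nat_lit 10) (.e (nat_lit 434231) (nat_lit 23) (.e (nat_lit 532535) (nat_lit 9) (.e (nat_lit 335902) (nat_lit 0) (.e (nat_lit 1943) (nat_lit 132) (.e (nat_lit 622598) (nat_lit 5) (.e (nat_lit 1234) (nat_lit 91) .nil)))))))) (.g (nat_lit 4) .nil .nil)))))) 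
(.nd (nat_lit 3) (.nd (nat_lit 4) (.nd (nat_lit 5) 
(.lf (nat_lit 215751) (.g (nat_lit 3613) (.e (nat_lit 90170) (nat_lit 13) (.e (nat_lit 172106) (nat_lit 10) (.e (nat_lit 434231) (nat_lit 23) (.e (nat_lit 532535) (nat_lit 9) (.e (nat_lit 335900) (nat_lit 0) (.e (nat_lit 1937) (nat_lit 132) (.e (nat_lit 622604) (nat_lit 5) (.e (nat_lit 1237) (nat_lit 91) .nil)))))))) (.g (nat_lit 4) .nil .nil))) 
(.lf (nat_lit 215783) (.g (nat_lit 3157) (.e (nat_lit 90170) (nat_lit 13) (.e (nat_lit 172106) (nat_lit 10) (.e (nat_lit 434231) (nat_lit 23) (.e (nat_lit 532535) (nat_lit 9) (.e (nat_lit 335901) (nat_lit 0) (.e (nat_lit 971) (nat_lit 81) (.e (nat_lit 4751) (nat_lit 281) (.e (nat_lit 1027) (nat_lit 81) (.e (nat_lit 1237) (nat_lit 91) .nil))))))))) (.g (nat_lit 4) .nil .nil)))) (.nd (nat_lit 5) 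
(.lf (nat_lit 215767) (.g (nat_lit 3835) (.e (nat_lit 90170) (nat_lit 13) (.e (nat_lit 172106) (nat_lit 10) (.e (nat_lit 434231) (nat_lit 23) (.e (nat_lit 532535) (nat_lit 9) (.e (nat_lit 335900) (nat_lit 0) (.e (nat_lit 1943) (nat_lit 132) (.e (nat_lit 622598) (nat_lit 5) (.e (nat_lit 1239) (nat_lit 91) .nil)))))))) (.g (nat_lit 4) .nil .nil))) 
(.lf (nat_lit 215799) (.g (nat_lit 4251) (.e (nat_lit 90170) (nat_lit 13) (.e (nat_lit 172106) (nat_lit 10) (.e (nat_lit 434231) (nat_lit 23) (.e (nat_lit 532535) (nat_lit 9) (.e (nat_lit 335902) (nat_lit 0) (.e (nat_lit 1942) (nat_lit 132) (.e (nat_lit 622603) (nat_lit 5) (.e (nat_lit 1234) (nat_lit 91) .nil)))))))) (.g (nat_lit 4) .nil .nil))))) (.nd (nat_lit 4) (.nd (nat_lit 5) 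
(.lf (nat_lit 215759) (.g (nat_lit 3954) (.e (nat_lit 90170) (nat_lit 13) (.e (nat_lit 172106) (nat_lit 10) (.e (nat_lit 434231) (nat_lit 23) (.e (nat_lit 532535) (nat_lit 9) (.e (nat_lit 335900) (nat_lit 0) (.e (nat_lit 1938) (nat_lit 132) (.e (nat_lit 622605) (nat_lit 5) (.e (nat_lit 1234) (nat_lit 91) .nil)))))))) (.g (nat_lit 4) .nil .nil))) 
(.lf (nat_lit 215791) (.g (nat_lit 3478) (.e (nat_lit 90170) (nat_lit 13) (.e (nat_lit 172106) (nat_lit 10) (.e (nat_lit 434231) (nat_lit 23) (.e (nat_lit 532535) (nat_lit 9) (.e (nat_lit 335902) (nat_lit 0) (.e (nat_lit 1936) (nat_lit 132) (.e (nat_lit 622598) (nat_lit 5) (.e (nat_lit 1239) (nat_lit 91) .nil)))))))) (.g (nat_lit 4) .nil .nil)))) (.nd (nat_lit 5) 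
(.lf (nat_lit 215775) (.g (nat_lit 4477) (.e (nat_lit 90170) (nat_lit 13) (.e (nat_lit 172106) (nat_lit 10) (.e (nat_lit 434231) (nat_lit 23) (.e (nat_lit 532535) (nat_lit 9) (.e (nat_lit 335900) (nat_lit 0) (.e (nat_lit 7936) (nat_lit 132) (.e (nat_lit 622598) (nat_lit 5) (.e (nat_lit 1237) (nat_lit 91) .nil)))))))) (.g (nat_lit 4) .nil .nil))) 
(.lf (nat_lit 215807) (.g (nat_lit 5067) (.e (nat_lit 90170) (nat_lit 13) (.e (nat_lit 172106) (nat_lit 10) (.e (nat_lit 434231) (nat_lit 23) (.e (nat_lit 532535) (nat_lit 9) (.e (nat_lit 335902) (nat_lit 0) (.e (nat_lit 7936) (nat_lit 132) (.e (nat_lit 622598) (nat_lit 5) (.e (nat_lit 1234) (nat_lit 91) .nil)))))))) (.g (nat_lit 4) .nil .nil)))))))))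

noncomputable def tv2836 : DT := (.nd (nat_lit 0) (.nd (nat_lit 1) (.nd (nat_lit 2) (.nd (nat_lit 3) (.nd (nat_lit 4) (.nd (nat_lit 5) 
(.lf (nat_lit 215808) (.g (nat_lit 3288) (.e (nat_lit 90170) (nat_lit 13) (.e (nat_lit 172106) (nat_lit 10) (.e (nat_lit 434231) (nat_lit 23) (.e (nat_lit 532535) (nat_lit 9) (.e (nat_lit 335902) (nat_lit 0) (.e (nat_lit 7936) (nat_lit 132) (.e (nat_lit 622598) (nat_lit 5) (.e (nat_lit 1237) (nat_lit 91) .nil)))))))) (.g (nat_lit 4) .nil .nil))) 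
(.lf (nat_lit 215840) (.g (nat_lit 3509) (.e (nat_lit 90170) (nat_lit 13) (.e (nat_lit 172106) (nat_lit 10) (.e (nat_lit 434231) (nat_lit 23) (.e (nat_lit 532535) (nat_lit 9) (.e (nat_lit 335903) (nat_lit 0) (.e (nat_lit 1942) (nat_lit 132) (.e (nat_lit 622599) (nat_lit 5) (.e (nat_lit 1239) (nat_lit 91) .nil)))))))) (.g (nat_lit 4) .nil .nil)))) (.nd (nat_lit 5) 
(.lf (nat_lit 215824) (.g (nat_lit 3825) (.e (nat_lit 90170) (nat_lit 13) (.e (nat_lit 172106) (nat_lit 10) (.e (nat_lit 434231) (nat_lit 23) (.e (nat_lit 532535) (nat_lit 9) (.e (nat_lit 335903) (nat_lit 0) (.e (nat_lit 1936) (nat_lit 132) (.e (nat_lit 622605) (nat_lit 5) (.e (nat_lit 1236) (nat_lit 91) .nil)))))))) (.g (nat_lit 4) .nil .nil))) 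
(.lf (nat_lit 215856) (.g (nat_lit 3341) (.e (nat_lit 90170) (nat_lit 13) (.e (nat_lit 172106) (nat_lit 10) (.e (nat_lit 434231) (nat_lit 23) (.e (nat_lit 532535) (nat_lit 9) (.e (nat_lit 335903) (nat_lit 0) (.e (nat_lit 7936) (nat_lit 132) (.e (nat_lit 630528) (nat_lit 5) (.e (nat_lit 1237) (nat_lit 91) .nil)))))))) (.g (nat_lit 4) .nil .nil))))) (.nd (nat_lit 4) (.nd (nat_lit 5) 
(.lf (nat_lit 215816) (.g (nat_lit 3944) (.e (nat_lit 90170) (nat_lit 13) (.e (nat_lit 172106) (nat_lit 10) (.e (nat_lit 434231) (nat_lit 23) (.e (nat_lit 532535) (nat_lit 9) (.e (nat_lit 335903) (nat_lit 0) (.e (nat_lit 1004) (nat_lit 81) (.e (nat_lit 7936) (nat_lit 283) (.e (nat_lit 57374) (nat_lit 2) .nil)))))))) (.g (nat_lit 4) .nil .nil))) 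
(.lf (nat_lit 215848) (.g (nat_lit 3260) (.e (nat_lit 90170) (nat_lit 13) (.e (nat_lit 172106) (nat_lit 10) (.e (nat_lit 434231) (nat_lit 23) (.e (nat_lit 532535) (nat_lit 9) (.e (nat_lit 335903) (nat_lit 0) (.e (nat_lit 1943) (nat_lit 132) (.e (nat_lit 622599) (nat_lit 5) (.e (nat_lit 1239) (nat_lit 91) .nil)))))))) (.g (nat_lit 4) .nil .nil)))) (.nd (nat_lit 5) 
(.lf (nat_lit 215832) (.g (nat_lit 3254) (.e (nat_lit 90170) (nat_lit 13) (.e (nat_lit 172106) (nat_lit 10) (.e (nat_lit 434231) (nat_lit 23) (.e (nat_lit 532535) (nat_lit 9) (.e (nat_lit 335903) (nat_lit 0) (.e (nat_lit 1937) (nat_lit 132) (.e (nat_lit 622605) (nat_lit 5) (.e (nat_lit 1237) (nat_lit 91) .nil)))))))) (.g (nat_lit 4) .nil .nil))) 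
(.lf (nat_lit 215864) (.g (nat_lit 3702) (.e (nat_lit 90170) (nat_lit 13) (.e (nat_lit 172106) (nat_lit 10) (.e (nat_lit 434231) (nat_lit 23) (.e (nat_lit 532535) (nat_lit 9) (.e (nat_lit 335904) (nat_lit 0) (.e (nat_lit 1936) (nat_lit 132) (.e (nat_lit 622603) (nat_lit 5) (.e (nat_lit 1234) (nat_lit 91) .nil)))))))) (.g (nat_lit 4) .nil .nil)))))) 
(.nd (nat_lit 3) (.nd (nat_lit 4) (.nd (nat_lit 5) 
(.lf (nat_lit 215812) (.g (nat_lit 4040) (.e (nat_lit 90170) (nat_lit 13) (.e (nat_lit 172106) (nat_lit 10) (.e (nat_lit 434231) (nat_lit 23) (.e (nat_lit 532535) (nat_lit 9) (.e (nat_lit 335902) (nat_lit 0) (.e (nat_lit 7936) (nat_lit 132) (.e (nat_lit 622605) (nat_lit 5) (.e (nat_lit 1237) (nat_lit 91) .nil)))))))) (.g (nat_lit 4) .nil .nil))) 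
(.lf (nat_lit 215844) (.g (nat_lit 3854) (.e (nat_lit 90170) (nat_lit 13) (.e (nat_lit 172106) (nat_lit 10) (.e (nat_lit 434231) (nat_lit 23) (.e (nat_lit 532535) (nat_lit 9) (.e (nat_lit 335903) (nat_lit 0) (.e (nat_lit 1942) (nat_lit 132) (.e (nat_lit 622605) (nat_lit 5) (.e (nat_lit 1234) (nat_lit 91) .nil)))))))) (.g (nat_lit 4) .nil .nil)))) (.nd (nat_lit 5) 
(.lf (nat_lit 215828) (.g (nat_lit 3458) (.e (nat_lit 90170) (nat_lit 13) (.e (nat_lit 172106) (nat_lit 10) (.e (nat_lit 434231) (nat_lit 23) (.e (nat_lit 532535) (nat_lit 9) (.e (nat_lit 335903) (nat_lit 0) (.e (nat_lit 1937) (nat_lit 132) (.e (nat_lit 622602) (nat_lit 5) (.e (nat_lit 1233) (nat_lit 91) .nil)))))))) (.g (nat_lit 4) .nil .nil))) 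
(.lf (nat_lit 215860) (.g (nat_lit 3791) (.e (nat_lit 90170) (nat_lit 13) (.e (nat_lit 172106) (nat_lit 10) (.e (nat_lit 434231) (nat_lit 23) (.e (nat_lit 532535) (nat_lit 9) (.e (nat_lit 335904) (nat_lit 0) (.e (nat_lit 1936) (nat_lit 132) (.e (nat_lit 622598) (nat_lit 5) (.e (nat_lit 1239) (nat_lit 91) .nil)))))))) (.g (nat_lit 4) .nil .nil))))) (.nd (nat_lit 4) (.nd (nat_lit 5) 
(.lf (nat_lit 215820) (.g (nat_lit 3415) (.e (nat_lit 90170) (nat_lit 13) (.e (nat_lit 172106) (nat_lit 10) (.e (nat_lit 434231) (nat_lit 23) (.e (nat_lit 532535) (nat_lit 9) (.e (nat_lit 335903) (nat_lit 0) (.e (nat_lit 1936) (nat_lit 132) (.e (nat_lit 622601) (nat_lit 5) (.e (nat_lit 1239) (nat_lit 91) .nil)))))))) (.g (nat_lit 4) .nil .nil))) 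
(.lf (nat_lit 215852) (.g (nat_lit 3605) (.e (nat_lit 90170) (nat_lit 13) (.e (nat_lit 172106) (nat_lit 10) (.e (nat_lit 434231) (nat_lit 23) (.e (nat_lit 532535) (nat_lit 9) (.e (nat_lit 335903) (nat_lit 0) (.e (nat_lit 7936) (nat_lit 132) (.e (nat_lit 622598) (nat_lit 5) (.e (nat_lit 1237) (nat_lit 91) .nil)))))))) (.g (nat_lit 4) .nil .nil)))) (.nd (nat_lit 5) 
(.lf (nat_lit 215836) (.g (nat_lit 5040) (.e (nat_lit 90170) (nat_lit 13) (.e (nat_lit 172106) (nat_lit 10) (.e (nat_lit 434231) (nat_lit 23) (.e (nat_lit 532535) (nat_lit 9) (.e (nat_lit 335903) (nat_lit 0) (.e (nat_lit 1938) (nat_lit 132) (.e (nat_lit 622604) (nat_lit 5) (.e (nat_lit 1234) (nat_lit 91) .nil)))))))) (.g (nat_lit 4) .nil .nil))) 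
(.lf (nat_lit 215868) (.g (nat_lit 4904) (.e (nat_lit 90170) (nat_lit 13) (.e (nat_lit 172106) (nat_lit 10) (.e (nat_lit 434231) (nat_lit 23) (.e (nat_lit 532535) (nat_lit 9) (.e (nat_lit 335904) (nat_lit 0) (.e (nat_lit 1937) (nat_lit 132) (.e (nat_lit 622598) (nat_lit 5) (.e (nat_lit 1234) (nat_lit 91) .nil)))))))) (.g (nat_lit 4) .nil .nil))))))) 
(.nd (nat_lit 2) (.nd (nat_lit 3) (.nd (nat_lit 4) (.nd (nat_lit 5) 
(.lf (nat_lit 215810) (.g (nat_lit 3719) (.e (nat_lit 90170) (nat_lit 13) (.e (nat_lit 172106) (nat_lit 10) (.e (nat_lit 434231) (nat_lit 23) (.e (nat_lit 532535) (nat_lit 9) (.e (nat_lit 335902) (nat_lit 0) (.e (nat_lit 7936) (nat_lit 132) (.e (nat_lit 622600) (nat_lit 5) (.e (nat_lit 1239) (nat_lit 91) .nil)))))))) (.g (nat_lit 4) .nil .nil))) 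
(.lf (nat_lit 215842) (.g (nat_lit 4406) (.e (nat_lit 90170) (nat_lit 13) (.e (nat_lit 172106) (nat_lit 10) (.e (nat_lit 434231) (nat_lit 23) (.e (nat_lit 532535) (nat_lit 9) (.e (nat_lit 335903) (nat_lit 0) (.e (nat_lit 1942) (nat_lit 132) (.e (nat_lit 622603) (nat_lit 5) (.e (nat_lit 1234) (nat_lit 91) .nil)))))))) (.g (nat_lit 4) .nil .nil)))) (.nd (nat_lit 5) 
(.lf (nat_lit 215826) (.g (nat_lit 4862) (.e (nat_lit 90170) (nat_lit 13) (.e (nat_lit 172106) (nat_lit 10) (.e (nat_lit 434231) (nat_lit 23) (.e (nat_lit 532535) (nat_lit 9) (.e (nat_lit 335903) (nat_lit 0) (.e (nat_lit 1937) (nat_lit 132) (.e (nat_lit 622598) (nat_lit 5) (.e (nat_lit 1234) (nat_lit 91) .nil)))))))) (.g (nat_lit 4) .nil .nil))) 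
(.lf (nat_lit 215858) (.g (nat_lit 3731) (.e (nat_lit 90170) (nat_lit 13) (.e (nat_lit 172106) (nat_lit 10) (.e (nat_lit 434231) (nat_lit 23) (.e (nat_lit 532535) (nat_lit 9) (.e (nat_lit 335904) (nat_lit 0) (.e (nat_lit 984) (nat_lit 81) (.e (nat_lit 4842) (nat_lit 283) (.e (nat_lit 57374) (nat_lit 2) .nil)))))))) (.g (nat_lit 4) .nil .nil))))) (.nd (nat_lit 4) (.nd (nat_lit 5) 
(.lf (nat_lit 215818) (.g (nat_lit 3798) (.e (nat_lit 90170) (nat_lit 13) (.e (nat_lit 172106) (nat_lit 10) (.e (nat_lit 434231) (nat_lit 23) (.e (nat_lit 532535) (nat_lit 9) (.e (nat_lit 335903) (nat_lit 0) (.e (nat_lit 1936) (nat_lit 132) (.e (nat_lit 622598) (nat_lit 5) (.e (nat_lit 1239) (nat_lit 91) .nil)))))))) (.g (nat_lit 4) .nil .nil))) 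
(.lf (nat_lit 215850) (.g (nat_lit 4645) (.e (nat_lit 90170) (nat_lit 13) (.e (nat_lit 172106) (nat_lit 10) (.e (nat_lit 434231) (nat_lit 23) (.e (nat_lit 532535) (nat_lit 9) (.e (nat_lit 335903) (nat_lit 0) (.e (nat_lit 1943) (nat_lit 132) (.e (nat_lit 622604) (nat_lit 5) (.e (nat_lit 1234) (nat_lit 91) .nil)))))))) (.g (nat_lit 4) .nil .nil)))) (.nd (nat_lit 5) 
(.lf (nat_lit 215834) (.g (nat_lit 3674) (.e (nat_lit 90170) (nat_lit 13) (.e (nat_lit 172106) (nat_lit 10) (.e (nat_lit 434231) (nat_lit 23) (.e (nat_lit 532535) (nat_lit 9) (.e (nat_lit 335903) (nat_lit 0) (.e (nat_lit 1938) (nat_lit 132) (.e (nat_lit 622599) (nat_lit 5) (.e (nat_lit 1239) (nat_lit 91) .nil)))))))) (.g (nat_lit 4) .nil .nil))) 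
(.lf (nat_lit 215866) (.g (nat_lit 3818) (.e (nat_lit 90170) (nat_lit 13) (.e (nat_lit 172106) (nat_lit 10) (.e (nat_lit 434231) (nat_lit 23) (.e (nat_lit 532535) (nat_lit 9) (.e (nat_lit 335904) (nat_lit 0) (.e (nat_lit 1936) (nat_lit 132) (.e (nat_lit 622605) (nat_lit 5) (.e (nat_lit 1236) (nat_lit 91) .nil)))))))) (.g (nat_lit 4) .nil .nil)))))) 
(.nd (nat_lit 3) (.nd (nat_lit 4) (.nd (nat_lit 5) 
(.lf (nat_lit 215814) (.g (nat_lit 3700) (.e (nat_lit 90170) (nat_lit 13) (.e (nat_lit 172106) (nat_lit 10) (.e (nat_lit 434231) (nat_lit 23) (.e (nat_lit 532535) (nat_lit 9) (.e (nat_lit 335903) (nat_lit 0) (.e (nat_lit 984) (nat_lit 81) (.e (nat_lit 4842) (nat_lit 283) (.e (nat_lit 57374) (nat_lit 2) .nil)))))))) (.g (nat_lit 4) .nil .nil))) 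
(.lf (nat_lit 215846) (.g (nat_lit 4297) (.e (nat_lit 90170) (nat_lit 13) (.e (nat_lit 172106) (nat_lit 10) (.e (nat_lit 434231) (nat_lit 23) (.e (nat_lit 532535) (nat_lit 9) (.e (nat_lit 335903) (nat_lit 0) (.e (nat_lit 1943) (nat_lit 132) (.e (nat_lit 622598) (nat_lit 5) (.e (nat_lit 1234) (nat_lit 91) .nil)))))))) (.g (nat_lit 4) .nil .nil)))) (.nd (nat_lit 5) 
(.lf (nat_lit 215830) (.g (nat_lit 3299) (.e (nat_lit 90170) (nat_lit 13) (.e (nat_lit 172106) (nat_lit 10) (.e (nat_lit 434231) (nat_lit 23) (.e (nat_lit 532535) (nat_lit 9) (.e (nat_lit 335903) (nat_lit 0) (.e (nat_lit 1937) (nat_lit 132) (.e (nat_lit 622604) (nat_lit 5) (.e (nat_lit 1237) (nat_lit 91) .nil)))))))) (.g (nat_lit 4) .nil .nil))) 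
(.lf (nat_lit 215862) (.g (nat_lit 3408) (.e (nat_lit 90170) (nat_lit 13) (.e (nat_lit 172106) (nat_lit 10) (.e (nat_lit 434231) (nat_lit 23) (.e (nat_lit 532535) (nat_lit 9) (.e (nat_lit 335904) (nat_lit 0) (.e (nat_lit 1936) (nat_lit 132) (.e (nat_lit 622601) (nat_lit 5) (.e (nat_lit 1239) (nat_lit 91) .nil)))))))) (.g (nat_lit 4) .nil .nil))))) (.nd (nat_lit 4) (.nd (nat_lit 5) 
(.lf (nat_lit 215822) (.g (nat_lit 3709) (.e (nat_lit 90170) (nat_lit 13) (.e (nat_lit 172106) (nat_lit 10) (.e (nat_lit 434231) (nat_lit 23) (.e (nat_lit 532535) (nat_lit 9) (.e (nat_lit 335903) (nat_lit 0) (.e (nat_lit 1936) (nat_lit 132) (.e (nat_lit 622603) (nat_lit 5) (.e (nat_lit 1234) (nat_lit 91) .nil)))))))) (.g (nat_lit 4) .nil .nil))) 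
(.lf (nat_lit 215854) (.g (nat_lit 3481) (.e (nat_lit 90170) (nat_lit 13) (.e (nat_lit 172106) (nat_lit 10) (.e (nat_lit 434231) (nat_lit 23) (.e (nat_lit 532535) (nat_lit 9) (.e (nat_lit 335903) (nat_lit 0) (.e (nat_lit 7936) (nat_lit 132) (.e (nat_lit 622605) (nat_lit 5) (.e (nat_lit 1236) (nat_lit 91) .nil)))))))) (.g (nat_lit 4) .nil .nil)))) (.nd (nat_lit 5) 
(.lf (nat_lit 215838) (.g (nat_lit 5121) (.e (nat_lit 90170) (nat_lit 13) (.e (nat_lit 172106) (nat_lit 10) (.e (nat_lit 434231) (nat_lit 23) (.e (nat_lit 532535) (nat_lit 9) (.e (nat_lit 335903) (nat_lit 0) (.e (nat_lit 1942) (nat_lit 132) (.e (nat_lit 622598) (nat_lit 5) (.e (nat_lit 1234) (nat_lit 91) .nil)))))))) (.g (nat_lit 4) .nil .nil))) 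
(.lf (nat_lit 215870) (.g (nat_lit 3500) (.e (nat_lit 90170) (nat_lit 13) (.e (nat_lit 172106) (nat_lit 10) (.e (nat_lit 434231) (nat_lit 23) (.e (nat_lit 532535) (nat_lit 9) (.e (nat_lit 335904) (nat_lit 0) (.e (nat_lit 1937) (nat_lit 132) (.e (nat_lit 622602) (nat_lit 5) (.e (nat_lit 1233) (nat_lit 91) .nil)))))))) (.g (nat_lit 4) .nil .nil)))))))) 
(.nd (nat_lit 1) (.nd (nat_lit 2) (.nd (nat_lit 3) (.nd (nat_lit 4) (.nd (nat_lit 5) 
(.lf (nat_lit 215809) (.g (nat_lit 3370) (.e (nat_lit 90170) (nat_lit 13) (.e (nat_lit 172106) (nat_lit 10) (.e (nat_lit 434231) (nat_lit 23) (.e (nat_lit 532535) (nat_lit 9) (.e (nat_lit 335902) (nat_lit 0) (.e (nat_lit 7936) (nat_lit 132) (.e (nat_lit 622600) (nat_lit 5) (.e (nat_lit 1233) (nat_lit 91) .nil)))))))) (.g (nat_lit 4) .nil .nil))) 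
(.lf (nat_lit 215841) (.g (nat_lit 3828) (.e (nat_lit 90170) (nat_lit 13) (.e (nat_lit 172106) (nat_lit 10) (.e (nat_lit 434231) (nat_lit 23) (.e (nat_lit 532535) (nat_lit 9) (.e (nat_lit 335903) (nat_lit 0) (.e (nat_lit 1942) (nat_lit 132) (.e (nat_lit 622602) (nat_lit 5) (.e (nat_lit 1239) (nat_lit 91) .nil)))))))) (.g (nat_lit 4) .nil .nil)))) (.nd (nat_lit 5) 
(.lf (nat_lit 215825) (.g (nat_lit 4654) (.e (nat_lit 90170) (nat_lit 13) (.e (nat_lit 172106) (nat_lit 10) (.e (nat_lit 434231) (nat_lit 23) (.e (nat_lit 532535) (nat_lit 9) (.e (nat_lit 335903) (nat_lit 0) (.e (nat_lit 1936) (nat_lit 132) (.e (nat_lit 622605) (nat_lit 5) (.e (nat_lit 1237) (nat_lit 91) .nil)))))))) (.g (nat_lit 4) .nil .nil))) 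
(.lf (nat_lit 215857) (.g (nat_lit 3510) (.e (nat_lit 90170) (nat_lit 13) (.e (nat_lit 172106) (nat_lit 10) (.e (nat_lit 434231) (nat_lit 23) (.e (nat_lit 532535) (nat_lit 9) (.e (nat_lit 335904) (nat_lit 0) (.e (nat_lit 984) (nat_lit 81) (.e (nat_lit 4842) (nat_lit 283) (.e (nat_lit 57373) (nat_lit 2) .nil)))))))) (.g (nat_lit 4) .nil .nil))))) (.nd (nat_lit 4) (.nd (nat_lit 5) 
(.lf (nat_lit 215817) (.g (nat_lit 4751) (.e (nat_lit 90170) (nat_lit 13) (.e (nat_lit 172106) (nat_lit 10) (.e (nat_lit 434231) (nat_lit 23) (.e (nat_lit 532535) (nat_lit 9) (.e (nat_lit 335903) (nat_lit 0) (.e (nat_lit 1936) (nat_lit 132) (.e (nat_lit 622598) (nat_lit 5) (.e (nat_lit 1234) (nat_lit 91) .nil)))))))) (.g (nat_lit 4) .nil .nil))) 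
(.lf (nat_lit 215849) (.g (nat_lit 4430) (.e (nat_lit 90170) (nat_lit 13) (.e (nat_lit 172106) (nat_lit 10) (.e (nat_lit 434231) (nat_lit 23) (.e (nat_lit 532535) (nat_lit 9) (.e (nat_lit 335903) (nat_lit 0) (.e (nat_lit 1943) (nat_lit 132) (.e (nat_lit 622603) (nat_lit 5) (.e (nat_lit 1234) (nat_lit 91) .nil)))))))) (.g (nat_lit 4) .nil .nil)))) (.nd (nat_lit 5) 
(.lf (nat_lit 215833) (.g (nat_lit 4936) (.e (nat_lit 90170) (nat_lit 13) (.e (nat_lit 172106) (nat_lit 10) (.e (nat_lit 434231) (nat_lit 23) (.e (nat_lit 532535) (nat_lit 9) (.e (nat_lit 335903) (nat_lit 0) (.e (nat_lit 1938) (nat_lit 132) (.e (nat_lit 622598) (nat_lit 5) (.e (nat_lit 1234) (nat_lit 91) .nil)))))))) (.g (nat_lit 4) .nil .nil))) 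
(.lf (nat_lit 215865) (.g (nat_lit 4477) (.e (nat_lit 90170) (nat_lit 13) (.e (nat_lit 172106) (nat_lit 10) (.e (nat_lit 434231) (nat_lit 23) (.e (nat_lit 532535) (nat_lit 9) (.e (nat_lit 335904) (nat_lit 0) (.e (nat_lit 1936) (nat_lit 132) (.e (nat_lit 622604) (nat_lit 5) (.e (nat_lit 1234) (nat_lit 91) .nil)))))))) (.g (nat_lit 4) .nil .nil)))))) 
(.nd (nat_lit 3) (.nd (nat_lit 4) (.nd (nat_lit 5) 
(.lf (nat_lit 215813) (.g (nat_lit 3479) (.e (nat_lit 90170) (nat_lit 13) (.e (nat_lit 172106) (nat_lit 10) (.e (nat_lit 434231) (nat_lit 23) (.e (nat_lit 532535) (nat_lit 9) (.e (nat_lit 335903) (nat_lit 0) (.e (nat_lit 984) (nat_lit 81) (.e (nat_lit 4842) (nat_lit 283) (.e (nat_lit 57373) (nat_lit 2) .nil)))))))) (.g (nat_lit 4) .nil .nil))) 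
(.lf (nat_lit 215845) (.g (nat_lit 4677) (.e (nat_lit 90170) (nat_lit 13) (.e (nat_lit 172106) (nat_lit 10) (.e (nat_lit 434231) (nat_lit 23) (.e (nat_lit 532535) (nat_lit 9) (.e (nat_lit 335903) (nat_lit 0) (.e (nat_lit 1942) (nat_lit 132) (.e (nat_lit 630528) (nat_lit 5) (.e (nat_lit 1237) (nat_lit 91) .nil)))))))) (.g (nat_lit 4) .nil .nil)))) (.nd (nat_lit 5) 
(.lf (nat_lit 215829) (.g (nat_lit 4792) (.e (nat_lit 90170) (nat_lit 13) (.e (nat_lit 172106) (nat_lit 10) (.e (nat_lit 434231) (nat_lit 23) (.e (nat_lit 532535) (nat_lit 9) (.e (nat_lit 335903) (nat_lit 0) (.e (nat_lit 1937) (nat_lit 132) (.e (nat_lit 622603) (nat_lit 5) (.e (nat_lit 1234) (nat_lit 91) .nil)))))))) (.g (nat_lit 4) .nil .nil))) 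
(.lf (nat_lit 215861) (.g (nat_lit 3343) (.e (nat_lit 90170) (nat_lit 13) (.e (nat_lit 172106) (nat_lit 10) (.e (nat_lit 434231) (nat_lit 23) (.e (nat_lit 532535) (nat_lit 9) (.e (nat_lit 335904) (nat_lit 0) (.e (nat_lit 1936) (nat_lit 132) (.e (nat_lit 622600) (nat_lit 5) (.e (nat_lit 1239) (nat_lit 91) .nil)))))))) (.g (nat_lit 4) .nil .nil))))) (.nd (nat_lit 4) (.nd (nat_lit 5) 
(.lf (nat_lit 215821) (.g (nat_lit 3671) (.e (nat_lit 90170) (nat_lit 13) (.e (nat_lit 172106) (nat_lit 10) (.e (nat_lit 434231) (nat_lit 23) (.e (nat_lit 532535) (nat_lit 9) (.e (nat_lit 335903) (nat_lit 0) (.e (nat_lit 1936) (nat_lit 132) (.e (nat_lit 622602) (nat_lit 5) (.e (nat_lit 1239) (nat_lit 91) .nil)))))))) (.g (nat_lit 4) .nil .nil))) 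
(.lf (nat_lit 215853) (.g (nat_lit 3687) (.e (nat_lit 90170) (nat_lit 13) (.e (nat_lit 172106) (nat_lit 10) (.e (nat_lit 434231) (nat_lit 23) (.e (nat_lit 532535) (nat_lit 9) (.e (nat_lit 335903) (nat_lit 0) (.e (nat_lit 7936) (nat_lit 132) (.e (nat_lit 622600) (nat_lit 5) (.e (nat_lit 1233) (nat_lit 91) .nil)))))))) (.g (nat_lit 4) .nil .nil)))) (.nd (nat_lit 5) 
(.lf (nat_lit 215837) (.g (nat_lit 4041) (.e (nat_lit 90170) (nat_lit 13) (.e (nat_lit 172106) (nat_lit 10) (.e (nat_lit 434231) (nat_lit 23) (.e (nat_lit 532535) (nat_lit 9) (.e (nat_lit 335903) (nat_lit 0) (.e (nat_lit 1938) (nat_lit 132) (.e (nat_lit 622605) (nat_lit 5) (.e (nat_lit 1234) (nat_lit 91) .nil)))))))) (.g (nat_lit 4) .nil .nil))) 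
(.lf (nat_lit 215869) (.g (nat_lit 3864) (.e (nat_lit 90170) (nat_lit 13) (.e (nat_lit 172106) (nat_lit 10) (.e (nat_lit 434231) (nat_lit 23) (.e (nat_lit 532535) (nat_lit 9) (.e (nat_lit 335904) (nat_lit 0) (.e (nat_lit 1937) (nat_lit 132) (.e (nat_lit 622599) (nat_lit 5) (.e (nat_lit 1239) (nat_lit 91) .nil)))))))) (.g (nat_lit 4) .nil .nil))))))) 
(.nd (nat_lit 2) (.nd (nat_lit 3) (.nd (nat_lit 4) (.nd (nat_lit 5) 
(.lf (nat_lit 215811) (.g (nat_lit 5005) (.e (nat_lit 90170) (nat_lit 13) (.e (nat_lit 172106) (nat_lit 10) (.e (nat_lit 434231) (nat_lit 23) (.e (nat_lit 532535) (nat_lit 9) (.e (nat_lit 335902) (nat_lit 0) (.e (nat_lit 7936) (nat_lit 132) (.e (nat_lit 622605) (nat_lit 5) (.e (nat_lit 1234) (nat_lit 91) .nil)))))))) (.g (nat_lit 4) .nil .nil))) 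
(.lf (nat_lit 215843) (.g (nat_lit 5019) (.e (nat_lit 90170) (nat_lit 13) (.e (nat_lit 172106) (nat_lit 10) (.e (nat_lit 434231) (nat_lit 23) (.e (nat_lit 532535) (nat_lit 9) (.e (nat_lit 335903) (nat_lit 0) (.e (nat_lit 1942) (nat_lit 132) (.e (nat_lit 622604) (nat_lit 5) (.e (nat_lit 1234) (nat_lit 91) .nil)))))))) (.g (nat_lit 4) .nil .nil)))) (.nd (nat_lit 5) 
(.lf (nat_lit 215827) (.g (nat_lit 3822) (.e (nat_lit 90170) (nat_lit 13) (.e (nat_lit 172106) (nat_lit 10) (.e (nat_lit 434231) (nat_lit 23) (.e (nat_lit 532535) (nat_lit 9) (.e (nat_lit 335903) (nat_lit 0) (.e (nat_lit 1937) (nat_lit 132) (.e (nat_lit 622599) (nat_lit 5) (.e (nat_lit 1239) (nat_lit 91) .nil)))))))) (.g (nat_lit 4) .nil .nil))) 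
(.lf (nat_lit 215859) (.g (nat_lit 4744) (.e (nat_lit 90170) (nat_lit 13) (.e (nat_lit 172106) (nat_lit 10) (.e (nat_lit 434231) (nat_lit 23) (.e (nat_lit 532535) (nat_lit 9) (.e (nat_lit 335904) (nat_lit 0) (.e (nat_lit 1936) (nat_lit 132) (.e (nat_lit 622598) (nat_lit 5) (.e (nat_lit 1234) (nat_lit 91) .nil)))))))) (.g (nat_lit 4) .nil .nil))))) (.nd (nat_lit 4) (.nd (nat_lit 5) 
(.lf (nat_lit 215819) (.g (nat_lit 3350) (.e (nat_lit 90170) (nat_lit 13) (.e (nat_lit 172106) (nat_lit 10) (.e (nat_lit 434231) (nat_lit 23) (.e (nat_lit 532535) (nat_lit 9) (.e (nat_lit 335903) (nat_lit 0) (.e (nat_lit 1936) (nat_lit 132) (.e (nat_lit 622600) (nat_lit 5) (.e (nat_lit 1239) (nat_lit 91) .nil)))))))) (.g (nat_lit 4) .nil .nil))) 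
(.lf (nat_lit 215851) (.g (nat_lit 4119) (.e (nat_lit 90170) (nat_lit 13) (.e (nat_lit 172106) (nat_lit 10) (.e (nat_lit 434231) (nat_lit 23) (.e (nat_lit 532535) (nat_lit 9) (.e (nat_lit 335903) (nat_lit 0) (.e (nat_lit 1943) (nat_lit 132) (.e (nat_lit 630528) (nat_lit 5) (.e (nat_lit 1237) (nat_lit 91) .nil)))))))) (.g (nat_lit 4) .nil .nil)))) (.nd (nat_lit 5) 
(.lf (nat_lit 215835) (.g (nat_lit 4995) (.e (nat_lit 90170) (nat_lit 13) (.e (nat_lit 172106) (nat_lit 10) (.e (nat_lit 434231) (nat_lit 23) (.e (nat_lit 532535) (nat_lit 9) (.e (nat_lit 335903) (nat_lit 0) (.e (nat_lit 1938) (nat_lit 132) (.e (nat_lit 622603) (nat_lit 5) (.e (nat_lit 1234) (nat_lit 91) .nil)))))))) (.g (nat_lit 4) .nil .nil))) 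
(.lf (nat_lit 215867) (.g (nat_lit 4648) (.e (nat_lit 90170) (nat_lit 13) (.e (nat_lit 172106) (nat_lit 10) (.e (nat_lit 434231) (nat_lit 23) (.e (nat_lit 532535) (nat_lit 9) (.e (nat_lit 335904) (nat_lit 0) (.e (nat_lit 1936) (nat_lit 132) (.e (nat_lit 622605) (nat_lit 5) (.e (nat_lit 1237) (nat_lit 91) .nil)))))))) (.g (nat_lit 4) .nil .nil)))))) 
(.nd (nat_lit 3) (.nd (nat_lit 4) (.nd (nat_lit 5) 
(.lf (nat_lit 215815) (.g (nat_lit 3863) (.e (nat_lit 90170) (nat_lit 13) (.e (nat_lit 172106) (nat_lit 10) (.e (nat_lit 434231) (nat_lit 23) (.e (nat_lit 532535) (nat_lit 9) (.e (nat_lit 335903) (nat_lit 0) (.e (nat_lit 1004) (nat_lit 81) (.e (nat_lit 4797) (nat_lit 281) (.e (nat_lit 1039) (nat_lit 81) (.e (nat_lit 1234) (nat_lit 91) .nil))))))))) (.g (nat_lit 4) .nil .nil))) 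
(.lf (nat_lit 215847) (.g (nat_lit 3344) (.e (nat_lit 90170) (nat_lit 13) (.e (nat_lit 172106) (nat_lit 10) (.e (nat_lit 434231) (nat_lit 23) (.e (nat_lit 532535) (nat_lit 9) (.e (nat_lit 335903) (nat_lit 0) (.e (nat_lit 1943) (nat_lit 132) (.e (nat_lit 622598) (nat_lit 5) (.e (nat_lit 1239) (nat_lit 91) .nil)))))))) (.g (nat_lit 4) .nil .nil)))) (.nd (nat_lit 5) 
(.lf (nat_lit 215831) (.g (nat_lit 4206) (.e (nat_lit 90170) (nat_lit 13) (.e (nat_lit 172106) (nat_lit 10) (.e (nat_lit 434231) (nat_lit 23) (.e (nat_lit 532535) (nat_lit 9) (.e (nat_lit 335903) (nat_lit 0) (.e (nat_lit 1937) (nat_lit 132) (.e (nat_lit 622605) (nat_lit 5) (.e (nat_lit 1234) (nat_lit 91) .nil)))))))) (.g (nat_lit 4) .nil .nil))) 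
(.lf (nat_lit 215863) (.g (nat_lit 3664) (.e (nat_lit 90170) (nat_lit 13) (.e (nat_lit 172106) (nat_lit 10) (.e (nat_lit 434231) (nat_lit 23) (.e (nat_lit 532535) (nat_lit 9) (.e (nat_lit 335904) (nat_lit 0) (.e (nat_lit 1936) (nat_lit 132) (.e (nat_lit 622602) (nat_lit 5) (.e (nat_lit 1239) (nat_lit 91) .nil)))))))) (.g (nat_lit 4) .nil .nil))))) (.nd (nat_lit 4) (.nd (nat_lit 5) 
(.lf (nat_lit 215823) (.g (nat_lit 4484) (.e (nat_lit 90170) (nat_lit 13) (.e (nat_lit 172106) (nat_lit 10) (.e (nat_lit 434231) (nat_lit 23) (.e (nat_lit 532535) (nat_lit 9) (.e (nat_lit 335903) (nat_lit 0) (.e (nat_lit 1936) (nat_lit 132) (.e (nat_lit 622604) (nat_lit 5) (.e (nat_lit 1234) (nat_lit 91) .nil)))))))) (.g (nat_lit 4) .nil .nil))) 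
(.lf (nat_lit 215855) (.g (nat_lit 4365) (.e (nat_lit 90170) (nat_lit 13) (.e (nat_lit 172106) (nat_lit 10) (.e (nat_lit 434231) (nat_lit 23) (.e (nat_lit 532535) (nat_lit 9) (.e (nat_lit 335903) (nat_lit 0) (.e (nat_lit 7936) (nat_lit 132) (.e (nat_lit 622605) (nat_lit 5) (.e (nat_lit 1237) (nat_lit 91) .nil)))))))) (.g (nat_lit 4) .nil .nil)))) (.nd (nat_lit 5) 
(.lf (nat_lit 215839) (.g (nat_lit 3332) (.e (nat_lit 90170) (nat_lit 13) (.e (nat_lit 172106) (nat_lit 10) (.e (nat_lit 434231) (nat_lit 23) (.e (nat_lit 532535) (nat_lit 9) (.e (nat_lit 335903) (nat_lit 0) (.e (nat_lit 1942) (nat_lit 132) (.e (nat_lit 622598) (nat_lit 5) (.e (nat_lit 1237) (nat_lit 91) .nil)))))))) (.g (nat_lit 4) .nil .nil))) 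
(.lf (nat_lit 215871) (.g (nat_lit 4834) (.e (nat_lit 90170) (nat_lit 13) (.e (nat_lit 172106) (nat_lit 10) (.e (nat_lit 434231) (nat_lit 23) (.e (nat_lit 532535) (nat_lit 9) (.e (nat_lit 335904) (nat_lit 0) (.e (nat_lit 1937) (nat_lit 132) (.e (nat_lit 622603) (nat_lit 5) (.e (nat_lit 1234) (nat_lit 91) .nil)))))))) (.g (nat_lit 4) .nil .nil)))))))))

noncomputable def tv2837 : DT := (.nd (nat_lit 0) (.nd (nat_lit 1) (.nd (nat_lit 2) (.nd (nat_lit 3) (.nd (nat_lit 4) (.nd (nat_lit 5) 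
(.lf (nat_lit 215872) (.g (nat_lit 3341) (.e (nat_lit 90170) (nat_lit 13) (.e (nat_lit 172106) (nat_lit 10) (.e (nat_lit 434231) (nat_lit 23) (.e (nat_lit 532535) (nat_lit 9) (.e (nat_lit 335904) (nat_lit 0) (.e (nat_lit 1937) (nat_lit 132) (.e (nat_lit 622604) (nat_lit 5) (.e (nat_lit 1237) (nat_lit 91) .nil)))))))) (.g (nat_lit 4) .nil .nil))) 
(.lf (nat_lit 215904) (.g (nat_lit 3308) (.e (nat_lit 90170) (nat_lit 13) (.e (nat_lit 172106) (nat_lit 10) (.e (nat_lit 434231) (nat_lit 23) (.e (nat_lit 532535) (nat_lit 9) (.e (nat_lit 335905) (nat_lit 0) (.e (nat_lit 973) (nat_lit 81) (.e (nat_lit 4805) (nat_lit 281) (.e (nat_lit 1040) (nat_lit 81) (.e (nat_lit 1237) (nat_lit 91) .nil))))))))) (.g (nat_lit 4) .nil .nil)))) (.nd (nat_lit 5) 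
(.lf (nat_lit 215888) (.g (nat_lit 4335) (.e (nat_lit 90170) (nat_lit 13) (.e (nat_lit 172106) (nat_lit 10) (.e (nat_lit 434231) (nat_lit 23) (.e (nat_lit 532535) (nat_lit 9) (.e (nat_lit 335904) (nat_lit 0) (.e (nat_lit 1943) (nat_lit 132) (.e (nat_lit 622598) (nat_lit 5) (.e (nat_lit 1234) (nat_lit 91) .nil)))))))) (.g (nat_lit 4) .nil .nil))) 
(.lf (nat_lit 215920) (.g (nat_lit 3650) (.e (nat_lit 90170) (nat_lit 13) (.e (nat_lit 172106) (nat_lit 10) (.e (nat_lit 434231) (nat_lit 23) (.e (nat_lit 532535) (nat_lit 9) (.e (nat_lit 335909) (nat_lit 0) (.e (nat_lit 7936) (nat_lit 132) (.e (nat_lit 622598) (nat_lit 5) (.e (nat_lit 1234) (nat_lit 91) .nil)))))))) (.g (nat_lit 4) .nil .nil))))) (.nd (nat_lit 4) (.nd (nat_lit 5) 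
(.lf (nat_lit 215880) (.g (nat_lit 5162) (.e (nat_lit 90170) (nat_lit 13) (.e (nat_lit 172106) (nat_lit 10) (.e (nat_lit 434231) (nat_lit 23) (.e (nat_lit 532535) (nat_lit 9) (.e (nat_lit 335904) (nat_lit 0) (.e (nat_lit 1942) (nat_lit 132) (.e (nat_lit 622598) (nat_lit 5) (.e (nat_lit 1234) (nat_lit 91) .nil)))))))) (.g (nat_lit 4) .nil .nil))) 
(.lf (nat_lit 215912) (.g (nat_lit 3329) (.e (nat_lit 90170) (nat_lit 13) (.e (nat_lit 172106) (nat_lit 10) (.e (nat_lit 434231) (nat_lit 23) (.e (nat_lit 532535) (nat_lit 9) (.e (nat_lit 335905) (nat_lit 0) (.e (nat_lit 7936) (nat_lit 132) (.e (nat_lit 630528) (nat_lit 5) (.e (nat_lit 1237) (nat_lit 91) .nil)))))))) (.g (nat_lit 4) .nil .nil)))) (.nd (nat_lit 5) 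
(.lf (nat_lit 215896) (.g (nat_lit 2680) (.e (nat_lit 90170) (nat_lit 13) (.e (nat_lit 172106) (nat_lit 10) (.e (nat_lit 434231) (nat_lit 23) (.e (nat_lit 532535) (nat_lit 9) (.e (nat_lit 335905) (nat_lit 0) (.e (nat_lit 968) (nat_lit 81) (.e (nat_lit 4752) (nat_lit 281) (.e (nat_lit 1028) (nat_lit 81) (.e (nat_lit 1237) (nat_lit 91) .nil))))))))) (.g (nat_lit 4) .nil .nil))) 
(.lf (nat_lit 215928) (.g (nat_lit 3669) (.e (nat_lit 90170) (nat_lit 13) (.e (nat_lit 172106) (nat_lit 10) (.e (nat_lit 434231) (nat_lit 23) (.e (nat_lit 532535) (nat_lit 9) (.e (nat_lit 335919) (nat_lit 0) (.e (nat_lit 988) (nat_lit 81) (.e (nat_lit 4842) (nat_lit 283) (.e (nat_lit 57374) (nat_lit 2) .nil)))))))) (.g (nat_lit 4) .nil .nil)))))) (.nd (nat_lit 3) (.nd (nat_lit 4) (.nd (nat_lit 5) 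
(.lf (nat_lit 215876) (.g (nat_lit 3699) (.e (nat_lit 90170) (nat_lit 13) (.e (nat_lit 172106) (nat_lit 10) (.e (nat_lit 434231) (nat_lit 23) (.e (nat_lit 532535) (nat_lit 9) (.e (nat_lit 335904) (nat_lit 0) (.e (nat_lit 1938) (nat_lit 132) (.e (nat_lit 622599) (nat_lit 5) (.e (nat_lit 1239) (nat_lit 91) .nil)))))))) (.g (nat_lit 4) .nil .nil))) 
(.lf (nat_lit 215908) (.g (nat_lit 3120) (.e (nat_lit 90170) (nat_lit 13) (.e (nat_lit 172106) (nat_lit 10) (.e (nat_lit 434231) (nat_lit 23) (.e (nat_lit 532535) (nat_lit 9) (.e (nat_lit 335905) (nat_lit 0) (.e (nat_lit 1934) (nat_lit 132) (.e (nat_lit 622605) (nat_lit 5) (.e (nat_lit 1237) (nat_lit 91) .nil)))))))) (.g (nat_lit 4) .nil .nil)))) (.nd (nat_lit 5) 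
(.lf (nat_lit 215892) (.g (nat_lit 4683) (.e (nat_lit 90170) (nat_lit 13) (.e (nat_lit 172106) (nat_lit 10) (.e (nat_lit 434231) (nat_lit 23) (.e (nat_lit 532535) (nat_lit 9) (.e (nat_lit 335904) (nat_lit 0) (.e (nat_lit 1943) (nat_lit 132) (.e (nat_lit 622604) (nat_lit 5) (.e (nat_lit 1234) (nat_lit 91) .nil)))))))) (.g (nat_lit 4) .nil .nil))) 
(.lf (nat_lit 215924) (.g (nat_lit 2632) (.e (nat_lit 90170) (nat_lit 13) (.e (nat_lit 172106) (nat_lit 10) (.e (nat_lit 434231) (nat_lit 23) (.e (nat_lit 532535) (nat_lit 9) (.e (nat_lit 335918) (nat_lit 0) (.e (nat_lit 1936) (nat_lit 132) (.e (nat_lit 622605) (nat_lit 5) (.e (nat_lit 1237) (nat_lit 91) .nil)))))))) (.g (nat_lit 4) .nil .nil))))) (.nd (nat_lit 4) (.nd (nat_lit 5) 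
(.lf (nat_lit 215884) (.g (nat_lit 4447) (.e (nat_lit 90170) (nat_lit 13) (.e (nat_lit 172106) (nat_lit 10) (.e (nat_lit 434231) (nat_lit 23) (.e (nat_lit 532535) (nat_lit 9) (.e (nat_lit 335904) (nat_lit 0) (.e (nat_lit 1942) (nat_lit 132) (.e (nat_lit 622603) (nat_lit 5) (.e (nat_lit 1234) (nat_lit 91) .nil)))))))) (.g (nat_lit 4) .nil .nil))) 
(.lf (nat_lit 215916) (.g (nat_lit 2784) (.e (nat_lit 90170) (nat_lit 13) (.e (nat_lit 172106) (nat_lit 10) (.e (nat_lit 434231) (nat_lit 23) (.e (nat_lit 532535) (nat_lit 9) (.e (nat_lit 335908) (nat_lit 0) (.e (nat_lit 973) (nat_lit 81) (.e (nat_lit 4751) (nat_lit 281) (.e (nat_lit 1028) (nat_lit 81) (.e (nat_lit 1237) (nat_lit 91) .nil))))))))) (.g (nat_lit 4) .nil .nil)))) (.nd (nat_lit 5) 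
(.lf (nat_lit 215900) (.g (nat_lit 3088) (.e (nat_lit 90170) (nat_lit 13) (.e (nat_lit 172106) (nat_lit 10) (.e (nat_lit 434231) (nat_lit 23) (.e (nat_lit 532535) (nat_lit 9) (.e (nat_lit 335905) (nat_lit 0) (.e (nat_lit 972) (nat_lit 81) (.e (nat_lit 4751) (nat_lit 281) (.e (nat_lit 1028) (nat_lit 81) (.e (nat_lit 1237) (nat_lit 91) .nil))))))))) (.g (nat_lit 4) .nil .nil))) 
(.lf (nat_lit 215932) (.g (nat_lit 4123) (.e (nat_lit 90170) (nat_lit 13) (.e (nat_lit 172106) (nat_lit 10) (.e (nat_lit 434231) (nat_lit 23) (.e (nat_lit 532535) (nat_lit 9) (.e (nat_lit 335919) (nat_lit 0) (.e (nat_lit 989) (nat_lit 81) (.e (nat_lit 4842) (nat_lit 283) (.e (nat_lit 57373) (nat_lit 2) .nil)))))))) (.g (nat_lit 4) .nil .nil))))))) 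
(.nd (nat_lit 2) (.nd (nat_lit 3) (.nd (nat_lit 4) (.nd (nat_lit 5) 
(.lf (nat_lit 215874) (.g (nat_lit 3296) (.e (nat_lit 90170) (nat_lit 13) (.e (nat_lit 172106) (nat_lit 10) (.e (nat_lit 434231) (nat_lit 23) (.e (nat_lit 532535) (nat_lit 9) (.e (nat_lit 335904) (nat_lit 0) (.e (nat_lit 1937) (nat_lit 132) (.e (nat_lit 622605) (nat_lit 5) (.e (nat_lit 1237) (nat_lit 91) .nil)))))))) (.g (nat_lit 4) .nil .nil))) 
(.lf (nat_lit 215906) (.g (nat_lit 2974) (.e (nat_lit 90170) (nat_lit 13) (.e (nat_lit 172106) (nat_lit 10) (.e (nat_lit 434231) (nat_lit 23) (.e (nat_lit 532535) (nat_lit 9) (.e (nat_lit 335905) (nat_lit 0) (.e (nat_lit 973) (nat_lit 81) (.e (nat_lit 4810) (nat_lit 281) (.e (nat_lit 982) (nat_lit 81) (.e (nat_lit 1237) (nat_lit 91) .nil))))))))) (.g (nat_lit 4) .nil .nil)))) (.nd (nat_lit 5) 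
(.lf (nat_lit 215890) (.g (nat_lit 3298) (.e (nat_lit 90170) (nat_lit 13) (.e (nat_lit 172106) (nat_lit 10) (.e (nat_lit 434231) (nat_lit 23) (.e (nat_lit 532535) (nat_lit 9) (.e (nat_lit 335904) (nat_lit 0) (.e (nat_lit 1943) (nat_lit 132) (.e (nat_lit 622599) (nat_lit 5) (.e (nat_lit 1239) (nat_lit 91) .nil)))))))) (.g (nat_lit 4) .nil .nil))) 
(.lf (nat_lit 215922) (.g (nat_lit 2665) (.e (nat_lit 90170) (nat_lit 13) (.e (nat_lit 172106) (nat_lit 10) (.e (nat_lit 434231) (nat_lit 23) (.e (nat_lit 532535) (nat_lit 9) (.e (nat_lit 335909) (nat_lit 0) (.e (nat_lit 7936) (nat_lit 132) (.e (nat_lit 622605) (nat_lit 5) (.e (nat_lit 1237) (nat_lit 91) .nil)))))))) (.g (nat_lit 4) .nil .nil))))) (.nd (nat_lit 4) (.nd (nat_lit 5) 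
(.lf (nat_lit 215882) (.g (nat_lit 3550) (.e (nat_lit 90170) (nat_lit 13) (.e (nat_lit 172106) (nat_lit 10) (.e (nat_lit 434231) (nat_lit 23) (.e (nat_lit 532535) (nat_lit 9) (.e (nat_lit 335904) (nat_lit 0) (.e (nat_lit 1942) (nat_lit 132) (.e (nat_lit 622599) (nat_lit 5) (.e (nat_lit 1239) (nat_lit 91) .nil)))))))) (.g (nat_lit 4) .nil .nil))) 
(.lf (nat_lit 215914) (.g (nat_lit 2995) (.e (nat_lit 90170) (nat_lit 13) (.e (nat_lit 172106) (nat_lit 10) (.e (nat_lit 434231) (nat_lit 23) (.e (nat_lit 532535) (nat_lit 9) (.e (nat_lit 335908) (nat_lit 0) (.e (nat_lit 972) (nat_lit 81) (.e (nat_lit 4751) (nat_lit 281) (.e (nat_lit 1028) (nat_lit 81) (.e (nat_lit 1237) (nat_lit 91) .nil))))))))) (.g (nat_lit 4) .nil .nil)))) (.nd (nat_lit 5) 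
(.lf (nat_lit 215898) (.g (nat_lit 2813) (.e (nat_lit 90170) (nat_lit 13) (.e (nat_lit 172106) (nat_lit 10) (.e (nat_lit 434231) (nat_lit 23) (.e (nat_lit 532535) (nat_lit 9) (.e (nat_lit 335905) (nat_lit 0) (.e (nat_lit 968) (nat_lit 81) (.e (nat_lit 4841) (nat_lit 283) (.e (nat_lit 57369) (nat_lit 2) .nil)))))))) (.g (nat_lit 4) .nil .nil))) 
(.lf (nat_lit 215930) (.g (nat_lit 3882) (.e (nat_lit 90170) (nat_lit 13) (.e (nat_lit 172106) (nat_lit 10) (.e (nat_lit 434231) (nat_lit 23) (.e (nat_lit 532535) (nat_lit 9) (.e (nat_lit 335919) (nat_lit 0) (.e (nat_lit 989) (nat_lit 81) (.e (nat_lit 4841) (nat_lit 283) (.e (nat_lit 57373) (nat_lit 2) .nil)))))))) (.g (nat_lit 4) .nil .nil)))))) (.nd (nat_lit 3) (.nd (nat_lit 4) (.nd (nat_lit 5) 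
(.lf (nat_lit 215878) (.g (nat_lit 5065) (.e (nat_lit 90170) (nat_lit 13) (.e (nat_lit 172106) (nat_lit 10) (.e (nat_lit 434231) (nat_lit 23) (.e (nat_lit 532535) (nat_lit 9) (.e (nat_lit 335904) (nat_lit 0) (.e (nat_lit 1938) (nat_lit 132) (.e (nat_lit 622604) (nat_lit 5) (.e (nat_lit 1234) (nat_lit 91) .nil)))))))) (.g (nat_lit 4) .nil .nil))) 
(.lf (nat_lit 215910) (.g (nat_lit 2551) (.e (nat_lit 90170) (nat_lit 13) (.e (nat_lit 172106) (nat_lit 10) (.e (nat_lit 434231) (nat_lit 23) (.e (nat_lit 532535) (nat_lit 9) (.e (nat_lit 335905) (nat_lit 0) (.e (nat_lit 7936) (nat_lit 132) (.e (nat_lit 622600) (nat_lit 5) (.e (nat_lit 1225) (nat_lit 91) .nil)))))))) (.g (nat_lit 4) .nil .nil)))) (.nd (nat_lit 5) 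
(.lf (nat_lit 215894) (.g (nat_lit 3916) (.e (nat_lit 90170) (nat_lit 13) (.e (nat_lit 172106) (nat_lit 10) (.e (nat_lit 434231) (nat_lit 23) (.e (nat_lit 532535) (nat_lit 9) (.e (nat_lit 335905) (nat_lit 0) (.e (nat_lit 968) (nat_lit 81) (.e (nat_lit 4751) (nat_lit 281) (.e (nat_lit 1027) (nat_lit 81) (.e (nat_lit 1237) (nat_lit 91) .nil))))))))) (.g (nat_lit 5) .nil .nil))) 
(.lf (nat_lit 215926) (.g (nat_lit 3947) (.e (nat_lit 90170) (nat_lit 13) (.e (nat_lit 172106) (nat_lit 10) (.e (nat_lit 434231) (nat_lit 23) (.e (nat_lit 532535) (nat_lit 9) (.e (nat_lit 335919) (nat_lit 0) (.e (nat_lit 982) (nat_lit 81) (.e (nat_lit 4842) (nat_lit 283) (.e (nat_lit 57374) (nat_lit 2) .nil)))))))) (.g (nat_lit 4) .nil .nil))))) (.nd (nat_lit 4) (.nd (nat_lit 5) 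
(.lf (nat_lit 215886) (.g (nat_lit 3895) (.e (nat_lit 90170) (nat_lit 13) (.e (nat_lit 172106) (nat_lit 10) (.e (nat_lit 434231) (nat_lit 23) (.e (nat_lit 532535) (nat_lit 9) (.e (nat_lit 335904) (nat_lit 0) (.e (nat_lit 1942) (nat_lit 132) (.e (nat_lit 622605) (nat_lit 5) (.e (nat_lit 1234) (nat_lit 91) .nil)))))))) (.g (nat_lit 4) .nil .nil))) 
(.lf (nat_lit 215918) (.g (nat_lit 3001) (.e (nat_lit 90170) (nat_lit 13) (.e (nat_lit 172106) (nat_lit 10) (.e (nat_lit 434231) (nat_lit 23) (.e (nat_lit 532535) (nat_lit 9) (.e (nat_lit 335909) (nat_lit 0) (.e (nat_lit 1937) (nat_lit 132) (.e (nat_lit 630528) (nat_lit 5) (.e (nat_lit 1237) (nat_lit 91) .nil)))))))) (.g (nat_lit 4) .nil .nil)))) (.nd (nat_lit 5) 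
(.lf (nat_lit 215902) (.g (nat_lit 2858) (.e (nat_lit 90170) (nat_lit 13) (.e (nat_lit 172106) (nat_lit 10) (.e (nat_lit 434231) (nat_lit 23) (.e (nat_lit 532535) (nat_lit 9) (.e (nat_lit 335905) (nat_lit 0) (.e (nat_lit 972) (nat_lit 81) (.e (nat_lit 4810) (nat_lit 281) (.e (nat_lit 1039) (nat_lit 81) (.e (nat_lit 1237) (nat_lit 91) .nil))))))))) (.g (nat_lit 4) .nil .nil))) 
(.lf (nat_lit 215934) (.g (nat_lit 3616) (.e (nat_lit 90170) (nat_lit 13) (.e (nat_lit 172106) (nat_lit 10) (.e (nat_lit 434231) (nat_lit 23) (.e (nat_lit 532535) (nat_lit 9) (.e (nat_lit 335919) (nat_lit 0) (.e (nat_lit 990) (nat_lit 81) (.e (nat_lit 4841) (nat_lit 283) (.e (nat_lit 57374) (nat_lit 2) .nil)))))))) (.g (nat_lit 4) .nil .nil)))))))) 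
(.nd (nat_lit 1) (.nd (nat_lit 2) (.nd (nat_lit 3) (.nd (nat_lit 4) (.nd (nat_lit 5) 
(.lf (nat_lit 215873) (.g (nat_lit 4248) (.e (nat_lit 90170) (nat_lit 13) (.e (nat_lit 172106) (nat_lit 10) (.e (nat_lit 434231) (nat_lit 23) (.e (nat_lit 532535) (nat_lit 9) (.e (nat_lit 335904) (nat_lit 0) (.e (nat_lit 1937) (nat_lit 132) (.e (nat_lit 622605) (nat_lit 5) (.e (nat_lit 1234) (nat_lit 91) .nil)))))))) (.g (nat_lit 4) .nil .nil))) 
(.lf (nat_lit 215905) (.g (nat_lit 3293) (.e (nat_lit 90170) (nat_lit 13) (.e (nat_lit 172106) (nat_lit 10) (.e (nat_lit 434231) (nat_lit 23) (.e (nat_lit 532535) (nat_lit 9) (.e (nat_lit 335905) (nat_lit 0) (.e (nat_lit 973) (nat_lit 81) (.e (nat_lit 4809) (nat_lit 281) (.e (nat_lit 982) (nat_lit 81) (.e (nat_lit 1237) (nat_lit 91) .nil))))))))) (.g (nat_lit 4) .nil .nil)))) (.nd (nat_lit 5) 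
(.lf (nat_lit 215889) (.g (nat_lit 3382) (.e (nat_lit 90170) (nat_lit 13) (.e (nat_lit 172106) (nat_lit 10) (.e (nat_lit 434231) (nat_lit 23) (.e (nat_lit 532535) (nat_lit 9) (.e (nat_lit 335904) (nat_lit 0) (.e (nat_lit 1943) (nat_lit 132) (.e (nat_lit 622598) (nat_lit 5) (.e (nat_lit 1239) (nat_lit 91) .nil)))))))) (.g (nat_lit 4) .nil .nil))) 
(.lf (nat_lit 215921) (.g (nat_lit 3630) (.e (nat_lit 90170) (nat_lit 13) (.e (nat_lit 172106) (nat_lit 10) (.e (nat_lit 434231) (nat_lit 23) (.e (nat_lit 532535) (nat_lit 9) (.e (nat_lit 335909) (nat_lit 0) (.e (nat_lit 7936) (nat_lit 132) (.e (nat_lit 622605) (nat_lit 5) (.e (nat_lit 1234) (nat_lit 91) .nil)))))))) (.g (nat_lit 4) .nil .nil))))) (.nd (nat_lit 4) (.nd (nat_lit 5) 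
(.lf (nat_lit 215881) (.g (nat_lit 3373) (.e (nat_lit 90170) (nat_lit 13) (.e (nat_lit 172106) (nat_lit 10) (.e (nat_lit 434231) (nat_lit 23) (.e (nat_lit 532535) (nat_lit 9) (.e (nat_lit 335904) (nat_lit 0) (.e (nat_lit 1942) (nat_lit 132) (.e (nat_lit 622598) (nat_lit 5) (.e (nat_lit 1237) (nat_lit 91) .nil)))))))) (.g (nat_lit 4) .nil .nil))) 
(.lf (nat_lit 215913) (.g (nat_lit 2967) (.e (nat_lit 90170) (nat_lit 13) (.e (nat_lit 172106) (nat_lit 10) (.e (nat_lit 434231) (nat_lit 23) (.e (nat_lit 532535) (nat_lit 9) (.e (nat_lit 335908) (nat_lit 0) (.e (nat_lit 970) (nat_lit 81) (.e (nat_lit 4751) (nat_lit 281) (.e (nat_lit 1027) (nat_lit 81) (.e (nat_lit 1237) (nat_lit 91) .nil))))))))) (.g (nat_lit 4) .nil .nil)))) (.nd (nat_lit 5) 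
(.lf (nat_lit 215897) (.g (nat_lit 2664) (.e (nat_lit 90170) (nat_lit 13) (.e (nat_lit 172106) (nat_lit 10) (.e (nat_lit 434231) (nat_lit 23) (.e (nat_lit 532535) (nat_lit 9) (.e (nat_lit 335905) (nat_lit 0) (.e (nat_lit 968) (nat_lit 81) (.e (nat_lit 4840) (nat_lit 283) (.e (nat_lit 57369) (nat_lit 2) .nil)))))))) (.g (nat_lit 4) .nil .nil))) 
(.lf (nat_lit 215929) (.g (nat_lit 4202) (.e (nat_lit 90170) (nat_lit 13) (.e (nat_lit 172106) (nat_lit 10) (.e (nat_lit 434231) (nat_lit 23) (.e (nat_lit 532535) (nat_lit 9) (.e (nat_lit 335919) (nat_lit 0) (.e (nat_lit 989) (nat_lit 81) (.e (nat_lit 4801) (nat_lit 281) (.e (nat_lit 1039) (nat_lit 81) (.e (nat_lit 1234) (nat_lit 91) .nil))))))))) (.g (nat_lit 4) .nil .nil)))))) 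
(.nd (nat_lit 3) (.nd (nat_lit 4) (.nd (nat_lit 5) 
(.lf (nat_lit 215877) (.g (nat_lit 5020) (.e (nat_lit 90170) (nat_lit 13) (.e (nat_lit 172106) (nat_lit 10) (.e (nat_lit 434231) (nat_lit 23) (.e (nat_lit 532535) (nat_lit 9) (.e (nat_lit 335904) (nat_lit 0) (.e (nat_lit 1938) (nat_lit 132) (.e (nat_lit 622603) (nat_lit 5) (.e (nat_lit 1234) (nat_lit 91) .nil)))))))) (.g (nat_lit 4) .nil .nil))) 
(.lf (nat_lit 215909) (.g (nat_lit 2643) (.e (nat_lit 90170) (nat_lit 13) (.e (nat_lit 172106) (nat_lit 10) (.e (nat_lit 434231) (nat_lit 23) (.e (nat_lit 532535) (nat_lit 9) (.e (nat_lit 335905) (nat_lit 0) (.e (nat_lit 7936) (nat_lit 132) (.e (nat_lit 622598) (nat_lit 5) (.e (nat_lit 1236) (nat_lit 91) .nil)))))))) (.g (nat_lit 4) .nil .nil)))) (.nd (nat_lit 5) 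
(.lf (nat_lit 215893) (.g (nat_lit 4157) (.e (nat_lit 90170) (nat_lit 13) (.e (nat_lit 172106) (nat_lit 10) (.e (nat_lit 434231) (nat_lit 23) (.e (nat_lit 532535) (nat_lit 9) (.e (nat_lit 335904) (nat_lit 0) (.e (nat_lit 1943) (nat_lit 132) (.e (nat_lit 630528) (nat_lit 5) (.e (nat_lit 1237) (nat_lit 91) .nil)))))))) (.g (nat_lit 4) .nil .nil))) 
(.lf (nat_lit 215925) (.g (nat_lit 3753) (.e (nat_lit 90170) (nat_lit 13) (.e (nat_lit 172106) (nat_lit 10) (.e (nat_lit 434231) (nat_lit 23) (.e (nat_lit 532535) (nat_lit 9) (.e (nat_lit 335919) (nat_lit 0) (.e (nat_lit 982) (nat_lit 81) (.e (nat_lit 4842) (nat_lit 283) (.e (nat_lit 57373) (nat_lit 2) .nil)))))))) (.g (nat_lit 4) .nil .nil))))) (.nd (nat_lit 4) (.nd (nat_lit 5) 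
(.lf (nat_lit 215885) (.g (nat_lit 5060) (.e (nat_lit 90170) (nat_lit 13) (.e (nat_lit 172106) (nat_lit 10) (.e (nat_lit 434231) (nat_lit 23) (.e (nat_lit 532535) (nat_lit 9) (.e (nat_lit 335904) (nat_lit 0) (.e (nat_lit 1942) (nat_lit 132) (.e (nat_lit 622604) (nat_lit 5) (.e (nat_lit 1234) (nat_lit 91) .nil)))))))) (.g (nat_lit 4) .nil .nil))) 
(.lf (nat_lit 215917) (.g (nat_lit 2495) (.e (nat_lit 90170) (nat_lit 13) (.e (nat_lit 172106) (nat_lit 10) (.e (nat_lit 434231) (nat_lit 23) (.e (nat_lit 532535) (nat_lit 9) (.e (nat_lit 335908) (nat_lit 0) (.e (nat_lit 7936) (nat_lit 132) (.e (nat_lit 622605) (nat_lit 5) (.e (nat_lit 1236) (nat_lit 91) .nil)))))))) (.g (nat_lit 4) .nil .nil)))) (.nd (nat_lit 5) 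
(.lf (nat_lit 215901) (.g (nat_lit 3895) (.e (nat_lit 90170) (nat_lit 13) (.e (nat_lit 172106) (nat_lit 10) (.e (nat_lit 434231) (nat_lit 23) (.e (nat_lit 532535) (nat_lit 9) (.e (nat_lit 335905) (nat_lit 0) (.e (nat_lit 972) (nat_lit 81) (.e (nat_lit 4810) (nat_lit 281) (.e (nat_lit 982) (nat_lit 81) (.e (nat_lit 1237) (nat_lit 91) .nil))))))))) (.g (nat_lit 5) .nil .nil))) 
(.lf (nat_lit 215933) (.g (nat_lit 4316) (.e (nat_lit 90170) (nat_lit 13) (.e (nat_lit 172106) (nat_lit 10) (.e (nat_lit 434231) (nat_lit 23) (.e (nat_lit 532535) (nat_lit 9) (.e (nat_lit 335919) (nat_lit 0) (.e (nat_lit 989) (nat_lit 81) (.e (nat_lit 4842) (nat_lit 283) (.e (nat_lit 57374) (nat_lit 2) .nil)))))))) (.g (nat_lit 4) .nil .nil))))))) 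
(.nd (nat_lit 2) (.nd (nat_lit 3) (.nd (nat_lit 4) (.nd (nat_lit 5) 
(.lf (nat_lit 215875) (.g (nat_lit 4961) (.e (nat_lit 90170) (nat_lit 13) (.e (nat_lit 172106) (nat_lit 10) (.e (nat_lit 434231) (nat_lit 23) (.e (nat_lit 532535) (nat_lit 9) (.e (nat_lit 335904) (nat_lit 0) (.e (nat_lit 1938) (nat_lit 132) (.e (nat_lit 622598) (nat_lit 5) (.e (nat_lit 1234) (nat_lit 91) .nil)))))))) (.g (nat_lit 4) .nil .nil))) 
(.lf (nat_lit 215907) (.g (nat_lit 2918) (.e (nat_lit 90170) (nat_lit 13) (.e (nat_lit 172106) (nat_lit 10) (.e (nat_lit 434231) (nat_lit 23) (.e (nat_lit 532535) (nat_lit 9) (.e (nat_lit 335905) (nat_lit 0) (.e (nat_lit 1934) (nat_lit 132) (.e (nat_lit 622604) (nat_lit 5) (.e (nat_lit 1237) (nat_lit 91) .nil)))))))) (.g (nat_lit 4) .nil .nil)))) (.nd (nat_lit 5) 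
(.lf (nat_lit 215891) (.g (nat_lit 4468) (.e (nat_lit 90170) (nat_lit 13) (.e (nat_lit 172106) (nat_lit 10) (.e (nat_lit 434231) (nat_lit 23) (.e (nat_lit 532535) (nat_lit 9) (.e (nat_lit 335904) (nat_lit 0) (.e (nat_lit 1943) (nat_lit 132) (.e (nat_lit 622603) (nat_lit 5) (.e (nat_lit 1234) (nat_lit 91) .nil)))))))) (.g (nat_lit 4) .nil .nil))) 
(.lf (nat_lit 215923) (.g (nat_lit 3641) (.e (nat_lit 90170) (nat_lit 13) (.e (nat_lit 172106) (nat_lit 10) (.e (nat_lit 434231) (nat_lit 23) (.e (nat_lit 532535) (nat_lit 9) (.e (nat_lit 335918) (nat_lit 0) (.e (nat_lit 1936) (nat_lit 132) (.e (nat_lit 622605) (nat_lit 5) (.e (nat_lit 1234) (nat_lit 91) .nil)))))))) (.g (nat_lit 4) .nil .nil))))) (.nd (nat_lit 4) (.nd (nat_lit 5) 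
(.lf (nat_lit 215883) (.g (nat_lit 3869) (.e (nat_lit 90170) (nat_lit 13) (.e (nat_lit 172106) (nat_lit 10) (.e (nat_lit 434231) (nat_lit 23) (.e (nat_lit 532535) (nat_lit 9) (.e (nat_lit 335904) (nat_lit 0) (.e (nat_lit 1942) (nat_lit 132) (.e (nat_lit 622602) (nat_lit 5) (.e (nat_lit 1239) (nat_lit 91) .nil)))))))) (.g (nat_lit 4) .nil .nil))) 
(.lf (nat_lit 215915) (.g (nat_lit 2727) (.e (nat_lit 90170) (nat_lit 13) (.e (nat_lit 172106) (nat_lit 10) (.e (nat_lit 434231) (nat_lit 23) (.e (nat_lit 532535) (nat_lit 9) (.e (nat_lit 335908) (nat_lit 0) (.e (nat_lit 972) (nat_lit 81) (.e (nat_lit 4810) (nat_lit 281) (.e (nat_lit 1039) (nat_lit 81) (.e (nat_lit 1237) (nat_lit 91) .nil))))))))) (.g (nat_lit 4) .nil .nil)))) (.nd (nat_lit 5) 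
(.lf (nat_lit 215899) (.g (nat_lit 3257) (.e (nat_lit 90170) (nat_lit 13) (.e (nat_lit 172106) (nat_lit 10) (.e (nat_lit 434231) (nat_lit 23) (.e (nat_lit 532535) (nat_lit 9) (.e (nat_lit 335905) (nat_lit 0) (.e (nat_lit 970) (nat_lit 81) (.e (nat_lit 4751) (nat_lit 281) (.e (nat_lit 1027) (nat_lit 81) (.e (nat_lit 1237) (nat_lit 91) .nil))))))))) (.g (nat_lit 4) .nil .nil))) 
(.lf (nat_lit 215931) (.g (nat_lit 4246) (.e (nat_lit 90170) (nat_lit 13) (.e (nat_lit 172106) (nat_lit 10) (.e (nat_lit 434231) (nat_lit 23) (.e (nat_lit 532535) (nat_lit 9) (.e (nat_lit 335919) (nat_lit 0) (.e (nat_lit 989) (nat_lit 81) (.e (nat_lit 4841) (nat_lit 283) (.e (nat_lit 57374) (nat_lit 2) .nil)))))))) (.g (nat_lit 4) .nil .nil)))))) (.nd (nat_lit 3) (.nd (nat_lit 4) (.nd (nat_lit 5) 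
(.lf (nat_lit 215879) (.g (nat_lit 4066) (.e (nat_lit 90170) (nat_lit 13) (.e (nat_lit 172106) (nat_lit 10) (.e (nat_lit 434231) (nat_lit 23) (.e (nat_lit 532535) (nat_lit 9) (.e (nat_lit 335904) (nat_lit 0) (.e (nat_lit 1938) (nat_lit 132) (.e (nat_lit 622605) (nat_lit 5) (.e (nat_lit 1234) (nat_lit 91) .nil)))))))) (.g (nat_lit 4) .nil .nil))) 
(.lf (nat_lit 215911) (.g (nat_lit 3675) (.e (nat_lit 90170) (nat_lit 13) (.e (nat_lit 172106) (nat_lit 10) (.e (nat_lit 434231) (nat_lit 23) (.e (nat_lit 532535) (nat_lit 9) (.e (nat_lit 335905) (nat_lit 0) (.e (nat_lit 7936) (nat_lit 132) (.e (nat_lit 622600) (nat_lit 5) (.e (nat_lit 1233) (nat_lit 91) .nil)))))))) (.g (nat_lit 4) .nil .nil)))) (.nd (nat_lit 5) 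
(.lf (nat_lit 215895) (.g (nat_lit 3216) (.e (nat_lit 90170) (nat_lit 13) (.e (nat_lit 172106) (nat_lit 10) (.e (nat_lit 434231) (nat_lit 23) (.e (nat_lit 532535) (nat_lit 9) (.e (nat_lit 335905) (nat_lit 0) (.e (nat_lit 968) (nat_lit 81) (.e (nat_lit 4751) (nat_lit 281) (.e (nat_lit 1028) (nat_lit 81) (.e (nat_lit 1237) (nat_lit 91) .nil))))))))) (.g (nat_lit 4) .nil .nil))) 
(.lf (nat_lit 215927) (.g (nat_lit 3215) (.e (nat_lit 90170) (nat_lit 13) (.e (nat_lit 172106) (nat_lit 10) (.e (nat_lit 434231) (nat_lit 23) (.e (nat_lit 532535) (nat_lit 9) (.e (nat_lit 335919) (nat_lit 0) (.e (nat_lit 988) (nat_lit 81) (.e (nat_lit 4780) (nat_lit 281) (.e (nat_lit 1011) (nat_lit 81) (.e (nat_lit 1239) (nat_lit 91) .nil))))))))) (.g (nat_lit 4) .nil .nil))))) 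
(.nd (nat_lit 4) (.nd (nat_lit 5) 
(.lf (nat_lit 215887) (.g (nat_lit 4718) (.e (nat_lit 90170) (nat_lit 13) (.e (nat_lit 172106) (nat_lit 10) (.e (nat_lit 434231) (nat_lit 23) (.e (nat_lit 532535) (nat_lit 9) (.e (nat_lit 335904) (nat_lit 0) (.e (nat_lit 1942) (nat_lit 132) (.e (nat_lit 630528) (nat_lit 5) (.e (nat_lit 1237) (nat_lit 91) .nil)))))))) (.g (nat_lit 4) .nil .nil))) 
(.lf (nat_lit 215919) (.g (nat_lit 3291) (.e (nat_lit 90170) (nat_lit 13) (.e (nat_lit 172106) (nat_lit 10) (.e (nat_lit 434231) (nat_lit 23) (.e (nat_lit 532535) (nat_lit 9) (.e (nat_lit 335909) (nat_lit 0) (.e (nat_lit 1938) (nat_lit 132) (.e (nat_lit 630528) (nat_lit 5) (.e (nat_lit 1237) (nat_lit 91) .nil)))))))) (.g (nat_lit 4) .nil .nil)))) (.nd (nat_lit 5) 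
(.lf (nat_lit 215903) (.g (nat_lit 3187) (.e (nat_lit 90170) (nat_lit 13) (.e (nat_lit 172106) (nat_lit 10) (.e (nat_lit 434231) (nat_lit 23) (.e (nat_lit 532535) (nat_lit 9) (.e (nat_lit 335905) (nat_lit 0) (.e (nat_lit 973) (nat_lit 81) (.e (nat_lit 4804) (nat_lit 281) (.e (nat_lit 982) (nat_lit 81) (.e (nat_lit 1237) (nat_lit 91) .nil))))))))) (.g (nat_lit 4) .nil .nil))) 
(.lf (nat_lit 215935) (.g (nat_lit 3521) (.e (nat_lit 90170) (nat_lit 13) (.e (nat_lit 172106) (nat_lit 10) (.e (nat_lit 434231) (nat_lit 23) (.e (nat_lit 532535) (nat_lit 9) (.e (nat_lit 335919) (nat_lit 0) (.e (nat_lit 990) (nat_lit 81) (.e (nat_lit 4842) (nat_lit 283) (.e (nat_lit 57373) (nat_lit 2) .nil)))))))) (.g (nat_lit 4) .nil .nil)))))))))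

noncomputable def tv2838 : DT := (.nd (nat_lit 0) (.nd (nat_lit 1) (.nd (nat_lit 2) (.nd (nat_lit 3) (.nd (nat_lit 4) (.nd (nat_lit 5) 
(.lf (nat_lit 215936) (.g (nat_lit 3742) (.e (nat_lit 90170) (nat_lit 13) (.e (nat_lit 172106) (nat_lit 10) (.e (nat_lit 434231) (nat_lit 23) (.e (nat_lit 532535) (nat_lit 9) (.e (nat_lit 335919) (nat_lit 0) (.e (nat_lit 990) (nat_lit 81) (.e (nat_lit 4842) (nat_lit 283) (.e (nat_lit 57374) (nat_lit 2) .nil)))))))) (.g (nat_lit 4) .nil .nil))) 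
(.lf (nat_lit 215968) (.g (nat_lit 3499) (.e (nat_lit 90170) (nat_lit 13) (.e (nat_lit 172106) (nat_lit 10) (.e (nat_lit 434231) (nat_lit 23) (.e (nat_lit 532535) (nat_lit 9) (.e (nat_lit 335919) (nat_lit 0) (.e (nat_lit 1940) (nat_lit 132) (.e (nat_lit 622605) (nat_lit 5) (.e (nat_lit 1237) (nat_lit 91) .nil)))))))) (.g (nat_lit 4) .nil .nil)))) (.nd (nat_lit 5) 
(.lf (nat_lit 215952) (.g (nat_lit 4305) (.e (nat_lit 90170) (nat_lit 13) (.e (nat_lit 172106) (nat_lit 10) (.e (nat_lit 434231) (nat_lit 23) (.e (nat_lit 532535) (nat_lit 9) (.e (nat_lit 335919) (nat_lit 0) (.e (nat_lit 1936) (nat_lit 132) (.e (nat_lit 622605) (nat_lit 5) (.e (nat_lit 1236) (nat_lit 91) .nil)))))))) (.g (nat_lit 4) .nil .nil))) 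
(.lf (nat_lit 215984) (.g (nat_lit 4888) (.e (nat_lit 90170) (nat_lit 13) (.e (nat_lit 172106) (nat_lit 10) (.e (nat_lit 434231) (nat_lit 23) (.e (nat_lit 532535) (nat_lit 9) (.e (nat_lit 335920) (nat_lit 0) (.e (nat_lit 989) (nat_lit 81) (.e (nat_lit 4841) (nat_lit 283) (.e (nat_lit 57374) (nat_lit 2) .nil)))))))) (.g (nat_lit 4) .nil .nil))))) (.nd (nat_lit 4) (.nd (nat_lit 5) 
(.lf (nat_lit 215944) (.g (nat_lit 3334) (.e (nat_lit 90170) (nat_lit 13) (.e (nat_lit 172106) (nat_lit 10) (.e (nat_lit 434231) (nat_lit 23) (.e (nat_lit 532535) (nat_lit 9) (.e (nat_lit 335919) (nat_lit 0) (.e (nat_lit 1086) (nat_lit 81) (.e (nat_lit 5598) (nat_lit 310) (.e (nat_lit 171776) (nat_lit 63) .nil)))))))) (.g (nat_lit 4) .nil .nil))) 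
(.lf (nat_lit 215976) (.g (nat_lit 3888) (.e (nat_lit 90170) (nat_lit 13) (.e (nat_lit 172106) (nat_lit 10) (.e (nat_lit 434231) (nat_lit 23) (.e (nat_lit 532535) (nat_lit 9) (.e (nat_lit 335920) (nat_lit 0) (.e (nat_lit 988) (nat_lit 81) (.e (nat_lit 4841) (nat_lit 283) (.e (nat_lit 57373) (nat_lit 2) .nil)))))))) (.g (nat_lit 4) .nil .nil)))) (.nd (nat_lit 5) 
(.lf (nat_lit 215960) (.g (nat_lit 5007) (.e (nat_lit 90170) (nat_lit 13) (.e (nat_lit 172106) (nat_lit 10) (.e (nat_lit 434231) (nat_lit 23) (.e (nat_lit 532535) (nat_lit 9) (.e (nat_lit 335919) (nat_lit 0) (.e (nat_lit 1940) (nat_lit 132) (.e (nat_lit 622598) (nat_lit 5) (.e (nat_lit 1234) (nat_lit 91) .nil)))))))) (.g (nat_lit 4) .nil .nil))) 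
(.lf (nat_lit 215992) (.g (nat_lit 3693) (.e (nat_lit 90170) (nat_lit 13) (.e (nat_lit 172106) (nat_lit 10) (.e (nat_lit 434231) (nat_lit 23) (.e (nat_lit 532535) (nat_lit 9) (.e (nat_lit 335920) (nat_lit 0) (.e (nat_lit 992) (nat_lit 81) (.e (nat_lit 4843) (nat_lit 284) (.e (nat_lit 122891) (nat_lit 2) .nil)))))))) (.g (nat_lit 4) .nil .nil)))))) 
(.nd (nat_lit 3) (.nd (nat_lit 4) (.nd (nat_lit 5) 
(.lf (nat_lit 215940) (.g (nat_lit 4280) (.e (nat_lit 90170) (nat_lit 13) (.e (nat_lit 172106) (nat_lit 10) (.e (nat_lit 434231) (nat_lit 23) (.e (nat_lit 532535) (nat_lit 9) (.e (nat_lit 335919) (nat_lit 0) (.e (nat_lit 991) (nat_lit 81) (.e (nat_lit 4842) (nat_lit 283) (.e (nat_lit 57374) (nat_lit 2) .nil)))))))) (.g (nat_lit 4) .nil .nil))) 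
(.lf (nat_lit 215972) (.g (nat_lit 3658) (.e (nat_lit 90170) (nat_lit 13) (.e (nat_lit 172106) (nat_lit 10) (.e (nat_lit 434231) (nat_lit 23) (.e (nat_lit 532535) (nat_lit 9) (.e (nat_lit 335920) (nat_lit 0) (.e (nat_lit 982) (nat_lit 81) (.e (nat_lit 4841) (nat_lit 283) (.e (nat_lit 57374) (nat_lit 2) .nil)))))))) (.g (nat_lit 4) .nil .nil)))) (.nd (nat_lit 5) 
(.lf (nat_lit 215956) (.g (nat_lit 3289) (.e (nat_lit 90170) (nat_lit 13) (.e (nat_lit 172106) (nat_lit 10) (.e (nat_lit 434231) (nat_lit 23) (.e (nat_lit 532535) (nat_lit 9) (.e (nat_lit 335919) (nat_lit 0) (.e (nat_lit 1939) (nat_lit 132) (.e (nat_lit 622602) (nat_lit 5) (.e (nat_lit 1239) (nat_lit 91) .nil)))))))) (.g (nat_lit 4) .nil .nil))) 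
(.lf (nat_lit 215988) (.g (nat_lit 3380) (.e (nat_lit 90170) (nat_lit 13) (.e (nat_lit 172106) (nat_lit 10) (.e (nat_lit 434231) (nat_lit 23) (.e (nat_lit 532535) (nat_lit 9) (.e (nat_lit 335920) (nat_lit 0) (.e (nat_lit 992) (nat_lit 81) (.e (nat_lit 4767) (nat_lit 281) (.e (nat_lit 1084) (nat_lit 81) (.e (nat_lit 1235) (nat_lit 91) .nil))))))))) (.g (nat_lit 4) .nil .nil))))) 
(.nd (nat_lit 4) (.nd (nat_lit 5) 
(.lf (nat_lit 215948) (.g (nat_lit 3455) (.e (nat_lit 90170) (nat_lit 13) (.e (nat_lit 172106) (nat_lit 10) (.e (nat_lit 434231) (nat_lit 23) (.e (nat_lit 532535) (nat_lit 9) (.e (nat_lit 335919) (nat_lit 0) (.e (nat_lit 1936) (nat_lit 132) (.e (nat_lit 622600) (nat_lit 5) (.e (nat_lit 1233) (nat_lit 91) .nil)))))))) (.g (nat_lit 4) .nil .nil))) 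
(.lf (nat_lit 215980) (.g (nat_lit 3194) (.e (nat_lit 90170) (nat_lit 13) (.e (nat_lit 172106) (nat_lit 10) (.e (nat_lit 434231) (nat_lit 23) (.e (nat_lit 532535) (nat_lit 9) (.e (nat_lit 335920) (nat_lit 0) (.e (nat_lit 988) (nat_lit 81) (.e (nat_lit 4843) (nat_lit 284) (.e (nat_lit 122890) (nat_lit 2) .nil)))))))) (.g (nat_lit 4) .nil .nil)))) (.nd (nat_lit 5) 
(.lf (nat_lit 215964) (.g (nat_lit 3516) (.e (nat_lit 90170) (nat_lit 13) (.e (nat_lit 172106) (nat_lit 10) (.e (nat_lit 434231) (nat_lit 23) (.e (nat_lit 532535) (nat_lit 9) (.e (nat_lit 335919) (nat_lit 0) (.e (nat_lit 1940) (nat_lit 132) (.e (nat_lit 622602) (nat_lit 5) (.e (nat_lit 1239) (nat_lit 91) .nil)))))))) (.g (nat_lit 4) .nil .nil))) 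
(.lf (nat_lit 215996) (.g (nat_lit 5237) (.e (nat_lit 90170) (nat_lit 13) (.e (nat_lit 172106) (nat_lit 10) (.e (nat_lit 434231) (nat_lit 23) (.e (nat_lit 532535) (nat_lit 9) (.e (nat_lit 335920) (nat_lit 0) (.e (nat_lit 1936) (nat_lit 132) (.e (nat_lit 622598) (nat_lit 5) (.e (nat_lit 1234) (nat_lit 91) .nil)))))))) (.g (nat_lit 4) .nil .nil))))))) 
(.nd (nat_lit 2) (.nd (nat_lit 3) (.nd (nat_lit 4) (.nd (nat_lit 5) 
(.lf (nat_lit 215938) (.g (nat_lit 3831) (.e (nat_lit 90170) (nat_lit 13) (.e (nat_lit 172106) (nat_lit 10) (.e (nat_lit 434231) (nat_lit 23) (.e (nat_lit 532535) (nat_lit 9) (.e (nat_lit 335919) (nat_lit 0) (.e (nat_lit 991) (nat_lit 81) (.e (nat_lit 4841) (nat_lit 283) (.e (nat_lit 57374) (nat_lit 2) .nil)))))))) (.g (nat_lit 4) .nil .nil))) 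
(.lf (nat_lit 215970) (.g (nat_lit 4067) (.e (nat_lit 90170) (nat_lit 13) (.e (nat_lit 172106) (nat_lit 10) (.e (nat_lit 434231) (nat_lit 23) (.e (nat_lit 532535) (nat_lit 9) (.e (nat_lit 335919) (nat_lit 0) (.e (nat_lit 1941) (nat_lit 132) (.e (nat_lit 622603) (nat_lit 5) (.e (nat_lit 1234) (nat_lit 91) .nil)))))))) (.g (nat_lit 4) .nil .nil)))) (.nd (nat_lit 5) 
(.lf (nat_lit 215954) (.g (nat_lit 3226) (.e (nat_lit 90170) (nat_lit 13) (.e (nat_lit 172106) (nat_lit 10) (.e (nat_lit 434231) (nat_lit 23) (.e (nat_lit 532535) (nat_lit 9) (.e (nat_lit 335919) (nat_lit 0) (.e (nat_lit 1939) (nat_lit 132) (.e (nat_lit 622599) (nat_lit 5) (.e (nat_lit 1239) (nat_lit 91) .nil)))))))) (.g (nat_lit 4) .nil .nil))) 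
(.lf (nat_lit 215986) (.g (nat_lit 4958) (.e (nat_lit 90170) (nat_lit 13) (.e (nat_lit 172106) (nat_lit 10) (.e (nat_lit 434231) (nat_lit 23) (.e (nat_lit 532535) (nat_lit 9) (.e (nat_lit 335920) (nat_lit 0) (.e (nat_lit 989) (nat_lit 81) (.e (nat_lit 4842) (nat_lit 283) (.e (nat_lit 57374) (nat_lit 2) .nil)))))))) (.g (nat_lit 4) .nil .nil))))) (.nd (nat_lit 4) (.nd (nat_lit 5) 
(.lf (nat_lit 215946) (.g (nat_lit 3441) (.e (nat_lit 90170) (nat_lit 13) (.e (nat_lit 172106) (nat_lit 10) (.e (nat_lit 434231) (nat_lit 23) (.e (nat_lit 532535) (nat_lit 9) (.e (nat_lit 335919) (nat_lit 0) (.e (nat_lit 1936) (nat_lit 132) (.e (nat_lit 622598) (nat_lit 5) (.e (nat_lit 1237) (nat_lit 91) .nil)))))))) (.g (nat_lit 4) .nil .nil))) 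
(.lf (nat_lit 215978) (.g (nat_lit 4207) (.e (nat_lit 90170) (nat_lit 13) (.e (nat_lit 172106) (nat_lit 10) (.e (nat_lit 434231) (nat_lit 23) (.e (nat_lit 532535) (nat_lit 9) (.e (nat_lit 335920) (nat_lit 0) (.e (nat_lit 988) (nat_lit 81) (.e (nat_lit 4842) (nat_lit 283) (.e (nat_lit 57373) (nat_lit 2) .nil)))))))) (.g (nat_lit 4) .nil .nil)))) (.nd (nat_lit 5) 
(.lf (nat_lit 215962) (.g (nat_lit 3455) (.e (nat_lit 90170) (nat_lit 13) (.e (nat_lit 172106) (nat_lit 10) (.e (nat_lit 434231) (nat_lit 23) (.e (nat_lit 532535) (nat_lit 9) (.e (nat_lit 335919) (nat_lit 0) (.e (nat_lit 1940) (nat_lit 132) (.e (nat_lit 622600) (nat_lit 5) (.e (nat_lit 1239) (nat_lit 91) .nil)))))))) (.g (nat_lit 4) .nil .nil))) 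
(.lf (nat_lit 215994) (.g (nat_lit 4159) (.e (nat_lit 90170) (nat_lit 13) (.e (nat_lit 172106) (nat_lit 10) (.e (nat_lit 434231) (nat_lit 23) (.e (nat_lit 532535) (nat_lit 9) (.e (nat_lit 335920) (nat_lit 0) (.e (nat_lit 1003) (nat_lit 81) (.e (nat_lit 4797) (nat_lit 281) (.e (nat_lit 1039) (nat_lit 81) (.e (nat_lit 1234) (nat_lit 91) .nil))))))))) (.g (nat_lit 4) .nil .nil)))))) 
(.nd (nat_lit 3) (.nd (nat_lit 4) (.nd (nat_lit 5) 
(.lf (nat_lit 215942) (.g (nat_lit 4253) (.e (nat_lit 90170) (nat_lit 13) (.e (nat_lit 172106) (nat_lit 10) (.e (nat_lit 434231) (nat_lit 23) (.e (nat_lit 532535) (nat_lit 9) (.e (nat_lit 335919) (nat_lit 0) (.e (nat_lit 991) (nat_lit 81) (.e (nat_lit 7936) (nat_lit 283) (.e (nat_lit 57374) (nat_lit 2) .nil)))))))) (.g (nat_lit 4) .nil .nil))) 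
(.lf (nat_lit 215974) (.g (nat_lit 4699) (.e (nat_lit 90170) (nat_lit 13) (.e (nat_lit 172106) (nat_lit 10) (.e (nat_lit 434231) (nat_lit 23) (.e (nat_lit 532535) (nat_lit 9) (.e (nat_lit 335920) (nat_lit 0) (.e (nat_lit 982) (nat_lit 81) (.e (nat_lit 4842) (nat_lit 283) (.e (nat_lit 57374) (nat_lit 2) .nil)))))))) (.g (nat_lit 4) .nil .nil)))) (.nd (nat_lit 5) 
(.lf (nat_lit 215958) (.g (nat_lit 4654) (.e (nat_lit 90170) (nat_lit 13) (.e (nat_lit 172106) (nat_lit 10) (.e (nat_lit 434231) (nat_lit 23) (.e (nat_lit 532535) (nat_lit 9) (.e (nat_lit 335919) (nat_lit 0) (.e (nat_lit 1939) (nat_lit 132) (.e (nat_lit 622604) (nat_lit 5) (.e (nat_lit 1234) (nat_lit 91) .nil)))))))) (.g (nat_lit 4) .nil .nil))) 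
(.lf (nat_lit 215990) (.g (nat_lit 3851) (.e (nat_lit 90170) (nat_lit 13) (.e (nat_lit 172106) (nat_lit 10) (.e (nat_lit 434231) (nat_lit 23) (.e (nat_lit 532535) (nat_lit 9) (.e (nat_lit 335920) (nat_lit 0) (.e (nat_lit 992) (nat_lit 81) (.e (nat_lit 4780) (nat_lit 281) (.e (nat_lit 1039) (nat_lit 81) (.e (nat_lit 1234) (nat_lit 91) .nil))))))))) (.g (nat_lit 4) .nil .nil))))) 
(.nd (nat_lit 4) (.nd (nat_lit 5) 
(.lf (nat_lit 215950) (.g (nat_lit 4190) (.e (nat_lit 90170) (nat_lit 13) (.e (nat_lit 172106) (nat_lit 10) (.e (nat_lit 434231) (nat_lit 23) (.e (nat_lit 532535) (nat_lit 9) (.e (nat_lit 335919) (nat_lit 0) (.e (nat_lit 1936) (nat_lit 132) (.e (nat_lit 622603) (nat_lit 5) (.e (nat_lit 1234) (nat_lit 91) .nil)))))))) (.g (nat_lit 4) .nil .nil))) 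
(.lf (nat_lit 215982) (.g (nat_lit 4844) (.e (nat_lit 90170) (nat_lit 13) (.e (nat_lit 172106) (nat_lit 10) (.e (nat_lit 434231) (nat_lit 23) (.e (nat_lit 532535) (nat_lit 9) (.e (nat_lit 335920) (nat_lit 0) (.e (nat_lit 989) (nat_lit 81) (.e (nat_lit 4801) (nat_lit 281) (.e (nat_lit 1039) (nat_lit 81) (.e (nat_lit 1234) (nat_lit 91) .nil))))))))) (.g (nat_lit 4) .nil .nil)))) (.nd (nat_lit 5) 
(.lf (nat_lit 215966) (.g (nat_lit 3190) (.e (nat_lit 90170) (nat_lit 13) (.e (nat_lit 172106) (nat_lit 10) (.e (nat_lit 434231) (nat_lit 23) (.e (nat_lit 532535) (nat_lit 9) (.e (nat_lit 335919) (nat_lit 0) (.e (nat_lit 1940) (nat_lit 132) (.e (nat_lit 622604) (nat_lit 5) (.e (nat_lit 1237) (nat_lit 91) .nil)))))))) (.g (nat_lit 4) .nil .nil))) 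
(.lf (nat_lit 215998) (.g (nat_lit 3240) (.e (nat_lit 90170) (nat_lit 13) (.e (nat_lit 172106) (nat_lit 10) (.e (nat_lit 434231) (nat_lit 23) (.e (nat_lit 532535) (nat_lit 9) (.e (nat_lit 335920) (nat_lit 0) (.e (nat_lit 1936) (nat_lit 132) (.e (nat_lit 622599) (nat_lit 5) (.e (nat_lit 1239) (nat_lit 91) .nil)))))))) (.g (nat_lit 4) .nil .nil)))))))) 
(.nd (nat_lit 1) (.nd (nat_lit 2) (.nd (nat_lit 3) (.nd (nat_lit 4) (.nd (nat_lit 5) 
(.lf (nat_lit 215937) (.g (nat_lit 4053) (.e (nat_lit 90170) (nat_lit 13) (.e (nat_lit 172106) (nat_lit 10) (.e (nat_lit 434231) (nat_lit 23) (.e (nat_lit 532535) (nat_lit 9) (.e (nat_lit 335919) (nat_lit 0) (.e (nat_lit 991) (nat_lit 81) (.e (nat_lit 4801) (nat_lit 281) (.e (nat_lit 1039) (nat_lit 81) (.e (nat_lit 1234) (nat_lit 91) .nil))))))))) (.g (nat_lit 4) .nil .nil))) 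
(.lf (nat_lit 215969) (.g (nat_lit 3885) (.e (nat_lit 90170) (nat_lit 13) (.e (nat_lit 172106) (nat_lit 10) (.e (nat_lit 434231) (nat_lit 23) (.e (nat_lit 532535) (nat_lit 9) (.e (nat_lit 335919) (nat_lit 0) (.e (nat_lit 1941) (nat_lit 132) (.e (nat_lit 622598) (nat_lit 5) (.e (nat_lit 1234) (nat_lit 91) .nil)))))))) (.g (nat_lit 4) .nil .nil)))) (.nd (nat_lit 5) 
(.lf (nat_lit 215953) (.g (nat_lit 3957) (.e (nat_lit 90170) (nat_lit 13) (.e (nat_lit 172106) (nat_lit 10) (.e (nat_lit 434231) (nat_lit 23) (.e (nat_lit 532535) (nat_lit 9) (.e (nat_lit 335919) (nat_lit 0) (.e (nat_lit 1939) (nat_lit 132) (.e (nat_lit 622598) (nat_lit 5) (.e (nat_lit 1234) (nat_lit 91) .nil)))))))) (.g (nat_lit 4) .nil .nil))) 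
(.lf (nat_lit 215985) (.g (nat_lit 4765) (.e (nat_lit 90170) (nat_lit 13) (.e (nat_lit 172106) (nat_lit 10) (.e (nat_lit 434231) (nat_lit 23) (.e (nat_lit 532535) (nat_lit 9) (.e (nat_lit 335920) (nat_lit 0) (.e (nat_lit 989) (nat_lit 81) (.e (nat_lit 4842) (nat_lit 283) (.e (nat_lit 57373) (nat_lit 2) .nil)))))))) (.g (nat_lit 4) .nil .nil))))) (.nd (nat_lit 4) (.nd (nat_lit 5) 
(.lf (nat_lit 215945) (.g (nat_lit 5232) (.e (nat_lit 90170) (nat_lit 13) (.e (nat_lit 172106) (nat_lit 10) (.e (nat_lit 434231) (nat_lit 23) (.e (nat_lit 532535) (nat_lit 9) (.e (nat_lit 335919) (nat_lit 0) (.e (nat_lit 1936) (nat_lit 132) (.e (nat_lit 622598) (nat_lit 5) (.e (nat_lit 1234) (nat_lit 91) .nil)))))))) (.g (nat_lit 4) .nil .nil))) 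
(.lf (nat_lit 215977) (.g (nat_lit 4282) (.e (nat_lit 90170) (nat_lit 13) (.e (nat_lit 172106) (nat_lit 10) (.e (nat_lit 434231) (nat_lit 23) (.e (nat_lit 532535) (nat_lit 9) (.e (nat_lit 335920) (nat_lit 0) (.e (nat_lit 988) (nat_lit 81) (.e (nat_lit 4841) (nat_lit 283) (.e (nat_lit 57374) (nat_lit 2) .nil)))))))) (.g (nat_lit 4) .nil .nil)))) (.nd (nat_lit 5) 
(.lf (nat_lit 215961) (.g (nat_lit 3218) (.e (nat_lit 90170) (nat_lit 13) (.e (nat_lit 172106) (nat_lit 10) (.e (nat_lit 434231) (nat_lit 23) (.e (nat_lit 532535) (nat_lit 9) (.e (nat_lit 335919) (nat_lit 0) (.e (nat_lit 1940) (nat_lit 132) (.e (nat_lit 622598) (nat_lit 5) (.e (nat_lit 1237) (nat_lit 91) .nil)))))))) (.g (nat_lit 4) .nil .nil))) 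
(.lf (nat_lit 215993) (.g (nat_lit 3736) (.e (nat_lit 90170) (nat_lit 13) (.e (nat_lit 172106) (nat_lit 10) (.e (nat_lit 434231) (nat_lit 23) (.e (nat_lit 532535) (nat_lit 9) (.e (nat_lit 335920) (nat_lit 0) (.e (nat_lit 993) (nat_lit 81) (.e (nat_lit 4780) (nat_lit 281) (.e (nat_lit 1011) (nat_lit 81) (.e (nat_lit 1239) (nat_lit 91) .nil))))))))) (.g (nat_lit 4) .nil .nil)))))) 
(.nd (nat_lit 3) (.nd (nat_lit 4) (.nd (nat_lit 5) 
(.lf (nat_lit 215941) (.g (nat_lit 3922) (.e (nat_lit 90170) (nat_lit 13) (.e (nat_lit 172106) (nat_lit 10) (.e (nat_lit 434231) (nat_lit 23) (.e (nat_lit 532535) (nat_lit 9) (.e (nat_lit 335919) (nat_lit 0) (.e (nat_lit 991) (nat_lit 81) (.e (nat_lit 7936) (nat_lit 283) (.e (nat_lit 57373) (nat_lit 2) .nil)))))))) (.g (nat_lit 4) .nil .nil))) 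
(.lf (nat_lit 215973) (.g (nat_lit 4505) (.e (nat_lit 90170) (nat_lit 13) (.e (nat_lit 172106) (nat_lit 10) (.e (nat_lit 434231) (nat_lit 23) (.e (nat_lit 532535) (nat_lit 9) (.e (nat_lit 335920) (nat_lit 0) (.e (nat_lit 982) (nat_lit 81) (.e (nat_lit 4842) (nat_lit 283) (.e (nat_lit 57373) (nat_lit 2) .nil)))))))) (.g (nat_lit 4) .nil .nil)))) (.nd (nat_lit 5) 
(.lf (nat_lit 215957) (.g (nat_lit 4523) (.e (nat_lit 90170) (nat_lit 13) (.e (nat_lit 172106) (nat_lit 10) (.e (nat_lit 434231) (nat_lit 23) (.e (nat_lit 532535) (nat_lit 9) (.e (nat_lit 335919) (nat_lit 0) (.e (nat_lit 1939) (nat_lit 132) (.e (nat_lit 622603) (nat_lit 5) (.e (nat_lit 1234) (nat_lit 91) .nil)))))))) (.g (nat_lit 4) .nil .nil))) 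
(.lf (nat_lit 215989) (.g (nat_lit 3688) (.e (nat_lit 90170) (nat_lit 13) (.e (nat_lit 172106) (nat_lit 10) (.e (nat_lit 434231) (nat_lit 23) (.e (nat_lit 532535) (nat_lit 9) (.e (nat_lit 335920) (nat_lit 0) (.e (nat_lit 992) (nat_lit 81) (.e (nat_lit 4780) (nat_lit 281) (.e (nat_lit 1010) (nat_lit 81) (.e (nat_lit 1239) (nat_lit 91) .nil))))))))) (.g (nat_lit 4) .nil .nil))))) 
(.nd (nat_lit 4) (.nd (nat_lit 5) 
(.lf (nat_lit 215949) (.g (nat_lit 3831) (.e (nat_lit 90170) (nat_lit 13) (.e (nat_lit 172106) (nat_lit 10) (.e (nat_lit 434231) (nat_lit 23) (.e (nat_lit 532535) (nat_lit 9) (.e (nat_lit 335919) (nat_lit 0) (.e (nat_lit 1936) (nat_lit 132) (.e (nat_lit 622600) (nat_lit 5) (.e (nat_lit 1239) (nat_lit 91) .nil)))))))) (.g (nat_lit 4) .nil .nil))) 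
(.lf (nat_lit 215981) (.g (nat_lit 3362) (.e (nat_lit 90170) (nat_lit 13) (.e (nat_lit 172106) (nat_lit 10) (.e (nat_lit 434231) (nat_lit 23) (.e (nat_lit 532535) (nat_lit 9) (.e (nat_lit 335920) (nat_lit 0) (.e (nat_lit 988) (nat_lit 81) (.e (nat_lit 4843) (nat_lit 284) (.e (nat_lit 122891) (nat_lit 2) .nil)))))))) (.g (nat_lit 4) .nil .nil)))) (.nd (nat_lit 5) 
(.lf (nat_lit 215965) (.g (nat_lit 5212) (.e (nat_lit 90170) (nat_lit 13) (.e (nat_lit 172106) (nat_lit 10) (.e (nat_lit 434231) (nat_lit 23) (.e (nat_lit 532535) (nat_lit 9) (.e (nat_lit 335919) (nat_lit 0) (.e (nat_lit 1940) (nat_lit 132) (.e (nat_lit 622603) (nat_lit 5) (.e (nat_lit 1234) (nat_lit 91) .nil)))))))) (.g (nat_lit 4) .nil .nil))) 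
(.lf (nat_lit 215997) (.g (nat_lit 3446) (.e (nat_lit 90170) (nat_lit 13) (.e (nat_lit 172106) (nat_lit 10) (.e (nat_lit 434231) (nat_lit 23) (.e (nat_lit 532535) (nat_lit 9) (.e (nat_lit 335920) (nat_lit 0) (.e (nat_lit 1936) (nat_lit 132) (.e (nat_lit 622598) (nat_lit 5) (.e (nat_lit 1237) (nat_lit 91) .nil)))))))) (.g (nat_lit 4) .nil .nil))))))) 
(.nd (nat_lit 2) (.nd (nat_lit 3) (.nd (nat_lit 4) (.nd (nat_lit 5) 
(.lf (nat_lit 215939) (.g (nat_lit 4059) (.e (nat_lit 90170) (nat_lit 13) (.e (nat_lit 172106) (nat_lit 10) (.e (nat_lit 434231) (nat_lit 23) (.e (nat_lit 532535) (nat_lit 9) (.e (nat_lit 335919) (nat_lit 0) (.e (nat_lit 991) (nat_lit 81) (.e (nat_lit 4842) (nat_lit 283) (.e (nat_lit 57373) (nat_lit 2) .nil)))))))) (.g (nat_lit 4) .nil .nil))) 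
(.lf (nat_lit 215971) (.g (nat_lit 3987) (.e (nat_lit 90170) (nat_lit 13) (.e (nat_lit 172106) (nat_lit 10) (.e (nat_lit 434231) (nat_lit 23) (.e (nat_lit 532535) (nat_lit 9) (.e (nat_lit 335919) (nat_lit 0) (.e (nat_lit 1941) (nat_lit 132) (.e (nat_lit 622604) (nat_lit 5) (.e (nat_lit 1234) (nat_lit 91) .nil)))))))) (.g (nat_lit 4) .nil .nil)))) (.nd (nat_lit 5) 
(.lf (nat_lit 215955) (.g (nat_lit 3368) (.e (nat_lit 90170) (nat_lit 13) (.e (nat_lit 172106) (nat_lit 10) (.e (nat_lit 434231) (nat_lit 23) (.e (nat_lit 532535) (nat_lit 9) (.e (nat_lit 335919) (nat_lit 0) (.e (nat_lit 1939) (nat_lit 132) (.e (nat_lit 622601) (nat_lit 5) (.e (nat_lit 1239) (nat_lit 91) .nil)))))))) (.g (nat_lit 4) .nil .nil))) 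
(.lf (nat_lit 215987) (.g (nat_lit 4095) (.e (nat_lit 90170) (nat_lit 13) (.e (nat_lit 172106) (nat_lit 10) (.e (nat_lit 434231) (nat_lit 23) (.e (nat_lit 532535) (nat_lit 9) (.e (nat_lit 335920) (nat_lit 0) (.e (nat_lit 989) (nat_lit 81) (.e (nat_lit 7936) (nat_lit 283) (.e (nat_lit 57374) (nat_lit 2) .nil)))))))) (.g (nat_lit 4) .nil .nil))))) (.nd (nat_lit 4) (.nd (nat_lit 5) 
(.lf (nat_lit 215947) (.g (nat_lit 3235) (.e (nat_lit 90170) (nat_lit 13) (.e (nat_lit 172106) (nat_lit 10) (.e (nat_lit 434231) (nat_lit 23) (.e (nat_lit 532535) (nat_lit 9) (.e (nat_lit 335919) (nat_lit 0) (.e (nat_lit 1936) (nat_lit 132) (.e (nat_lit 622599) (nat_lit 5) (.e (nat_lit 1239) (nat_lit 91) .nil)))))))) (.g (nat_lit 4) .nil .nil))) 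
(.lf (nat_lit 215979) (.g (nat_lit 4422) (.e (nat_lit 90170) (nat_lit 13) (.e (nat_lit 172106) (nat_lit 10) (.e (nat_lit 434231) (nat_lit 23) (.e (nat_lit 532535) (nat_lit 9) (.e (nat_lit 335920) (nat_lit 0) (.e (nat_lit 988) (nat_lit 81) (.e (nat_lit 4842) (nat_lit 283) (.e (nat_lit 57374) (nat_lit 2) .nil)))))))) (.g (nat_lit 4) .nil .nil)))) (.nd (nat_lit 5) 
(.lf (nat_lit 215963) (.g (nat_lit 3802) (.e (nat_lit 90170) (nat_lit 13) (.e (nat_lit 172106) (nat_lit 10) (.e (nat_lit 434231) (nat_lit 23) (.e (nat_lit 532535) (nat_lit 9) (.e (nat_lit 335919) (nat_lit 0) (.e (nat_lit 1940) (nat_lit 132) (.e (nat_lit 622601) (nat_lit 5) (.e (nat_lit 1239) (nat_lit 91) .nil)))))))) (.g (nat_lit 4) .nil .nil))) 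
(.lf (nat_lit 215995) (.g (nat_lit 3904) (.e (nat_lit 90170) (nat_lit 13) (.e (nat_lit 172106) (nat_lit 10) (.e (nat_lit 434231) (nat_lit 23) (.e (nat_lit 532535) (nat_lit 9) (.e (nat_lit 335920) (nat_lit 0) (.e (nat_lit 1086) (nat_lit 81) (.e (nat_lit 5598) (nat_lit 310) (.e (nat_lit 171776) (nat_lit 63) .nil)))))))) (.g (nat_lit 4) .nil .nil)))))) 
(.nd (nat_lit 3) (.nd (nat_lit 4) (.nd (nat_lit 5) 
(.lf (nat_lit 215943) (.g (nat_lit 3522) (.e (nat_lit 90170) (nat_lit 13) (.e (nat_lit 172106) (nat_lit 10) (.e (nat_lit 434231) (nat_lit 23) (.e (nat_lit 532535) (nat_lit 9) (.e (nat_lit 335919) (nat_lit 0) (.e (nat_lit 992) (nat_lit 81) (.e (nat_lit 4780) (nat_lit 281) (.e (nat_lit 1011) (nat_lit 81) (.e (nat_lit 1239) (nat_lit 91) .nil))))))))) (.g (nat_lit 4) .nil .nil))) 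
(.lf (nat_lit 215975) (.g (nat_lit 3385) (.e (nat_lit 90170) (nat_lit 13) (.e (nat_lit 172106) (nat_lit 10) (.e (nat_lit 434231) (nat_lit 23) (.e (nat_lit 532535) (nat_lit 9) (.e (nat_lit 335920) (nat_lit 0) (.e (nat_lit 988) (nat_lit 81) (.e (nat_lit 4780) (nat_lit 281) (.e (nat_lit 1010) (nat_lit 81) (.e (nat_lit 1239) (nat_lit 91) .nil))))))))) (.g (nat_lit 4) .nil .nil)))) (.nd (nat_lit 5) 
(.lf (nat_lit 215959) (.g (nat_lit 3977) (.e (nat_lit 90170) (nat_lit 13) (.e (nat_lit 172106) (nat_lit 10) (.e (nat_lit 434231) (nat_lit 23) (.e (nat_lit 532535) (nat_lit 9) (.e (nat_lit 335919) (nat_lit 0) (.e (nat_lit 1939) (nat_lit 132) (.e (nat_lit 622605) (nat_lit 5) (.e (nat_lit 1234) (nat_lit 91) .nil)))))))) (.g (nat_lit 4) .nil .nil))) 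
(.lf (nat_lit 215991) (.g (nat_lit 3525) (.e (nat_lit 90170) (nat_lit 13) (.e (nat_lit 172106) (nat_lit 10) (.e (nat_lit 434231) (nat_lit 23) (.e (nat_lit 532535) (nat_lit 9) (.e (nat_lit 335920) (nat_lit 0) (.e (nat_lit 992) (nat_lit 81) (.e (nat_lit 4843) (nat_lit 284) (.e (nat_lit 122890) (nat_lit 2) .nil)))))))) (.g (nat_lit 4) .nil .nil))))) (.nd (nat_lit 4) (.nd (nat_lit 5) 
(.lf (nat_lit 215951) (.g (nat_lit 4965) (.e (nat_lit 90170) (nat_lit 13) (.e (nat_lit 172106) (nat_lit 10) (.e (nat_lit 434231) (nat_lit 23) (.e (nat_lit 532535) (nat_lit 9) (.e (nat_lit 335919) (nat_lit 0) (.e (nat_lit 1936) (nat_lit 132) (.e (nat_lit 622604) (nat_lit 5) (.e (nat_lit 1234) (nat_lit 91) .nil)))))))) (.g (nat_lit 4) .nil .nil))) 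
(.lf (nat_lit 215983) (.g (nat_lit 4524) (.e (nat_lit 90170) (nat_lit 13) (.e (nat_lit 172106) (nat_lit 10) (.e (nat_lit 434231) (nat_lit 23) (.e (nat_lit 532535) (nat_lit 9) (.e (nat_lit 335920) (nat_lit 0) (.e (nat_lit 989) (nat_lit 81) (.e (nat_lit 4841) (nat_lit 283) (.e (nat_lit 57373) (nat_lit 2) .nil)))))))) (.g (nat_lit 4) .nil .nil)))) (.nd (nat_lit 5) 
(.lf (nat_lit 215967) (.g (nat_lit 4451) (.e (nat_lit 90170) (nat_lit 13) (.e (nat_lit 172106) (nat_lit 10) (.e (nat_lit 434231) (nat_lit 23) (.e (nat_lit 532535) (nat_lit 9) (.e (nat_lit 335919) (nat_lit 0) (.e (nat_lit 1940) (nat_lit 132) (.e (nat_lit 622605) (nat_lit 5) (.e (nat_lit 1234) (nat_lit 91) .nil)))))))) (.g (nat_lit 4) .nil .nil))) 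
(.lf (nat_lit 215999) (.g (nat_lit 3460) (.e (nat_lit 90170) (nat_lit 13) (.e (nat_lit 172106) (nat_lit 10) (.e (nat_lit 434231) (nat_lit 23) (.e (nat_lit 532535) (nat_lit 9) (.e (nat_lit 335920) (nat_lit 0) (.e (nat_lit 1936) (nat_lit 132) (.e (nat_lit 622600) (nat_lit 5) (.e (nat_lit 1233) (nat_lit 91) .nil)))))))) (.g (nat_lit 4) .nil .nil)))))))))

noncomputable def tv2839 : DT := (.nd (nat_lit 0) (.nd (nat_lit 1) (.nd (nat_lit 2) (.nd (nat_lit 3) (.nd (nat_lit 4) (.nd (nat_lit 5) 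
(.lf (nat_lit 216000) (.g (nat_lit 3836) (.e (nat_lit 90170) (nat_lit 13) (.e (nat_lit 172106) (nat_lit 10) (.e (nat_lit 434231) (nat_lit 23) (.e (nat_lit 532535) (nat_lit 9) (.e (nat_lit 335920) (nat_lit 0) (.e (nat_lit 1936) (nat_lit 132) (.e (nat_lit 622600) (nat_lit 5) (.e (nat_lit 1239) (nat_lit 91) .nil)))))))) (.g (nat_lit 4) .nil .nil))) 
(.lf (nat_lit 216032) (.g (nat_lit 4772) (.e (nat_lit 90170) (nat_lit 13) (.e (nat_lit 172106) (nat_lit 10) (.e (nat_lit 434231) (nat_lit 23) (.e (nat_lit 532535) (nat_lit 9) (.e (nat_lit 335921) (nat_lit 0) (.e (nat_lit 988) (nat_lit 81) (.e (nat_lit 4841) (nat_lit 283) (.e (nat_lit 57374) (nat_lit 2) .nil)))))))) (.g (nat_lit 4) .nil .nil)))) (.nd (nat_lit 5) 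
(.lf (nat_lit 216016) (.g (nat_lit 3613) (.e (nat_lit 90170) (nat_lit 13) (.e (nat_lit 172106) (nat_lit 10) (.e (nat_lit 434231) (nat_lit 23) (.e (nat_lit 532535) (nat_lit 9) (.e (nat_lit 335920) (nat_lit 0) (.e (nat_lit 1940) (nat_lit 132) (.e (nat_lit 622600) (nat_lit 5) (.e (nat_lit 1239) (nat_lit 91) .nil)))))))) (.g (nat_lit 4) .nil .nil))) 
(.lf (nat_lit 216048) (.g (nat_lit 3890) (.e (nat_lit 90170) (nat_lit 13) (.e (nat_lit 172106) (nat_lit 10) (.e (nat_lit 434231) (nat_lit 23) (.e (nat_lit 532535) (nat_lit 9) (.e (nat_lit 335921) (nat_lit 0) (.e (nat_lit 992) (nat_lit 81) (.e (nat_lit 4767) (nat_lit 281) (.e (nat_lit 1084) (nat_lit 81) (.e (nat_lit 1235) (nat_lit 91) .nil))))))))) (.g (nat_lit 4) .nil .nil))))) 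
(.nd (nat_lit 4) (.nd (nat_lit 5) 
(.lf (nat_lit 216008) (.g (nat_lit 3495) (.e (nat_lit 90170) (nat_lit 13) (.e (nat_lit 172106) (nat_lit 10) (.e (nat_lit 434231) (nat_lit 23) (.e (nat_lit 532535) (nat_lit 9) (.e (nat_lit 335920) (nat_lit 0) (.e (nat_lit 1939) (nat_lit 132) (.e (nat_lit 622601) (nat_lit 5) (.e (nat_lit 1239) (nat_lit 91) .nil)))))))) (.g (nat_lit 4) .nil .nil))) 
(.lf (nat_lit 216040) (.g (nat_lit 3277) (.e (nat_lit 90170) (nat_lit 13) (.e (nat_lit 172106) (nat_lit 10) (.e (nat_lit 434231) (nat_lit 23) (.e (nat_lit 532535) (nat_lit 9) (.e (nat_lit 335921) (nat_lit 0) (.e (nat_lit 989) (nat_lit 81) (.e (nat_lit 4801) (nat_lit 281) (.e (nat_lit 1039) (nat_lit 81) (.e (nat_lit 1237) (nat_lit 91) .nil))))))))) (.g (nat_lit 4) .nil .nil)))) (.nd (nat_lit 5) 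
(.lf (nat_lit 216024) (.g (nat_lit 3743) (.e (nat_lit 90170) (nat_lit 13) (.e (nat_lit 172106) (nat_lit 10) (.e (nat_lit 434231) (nat_lit 23) (.e (nat_lit 532535) (nat_lit 9) (.e (nat_lit 335921) (nat_lit 0) (.e (nat_lit 982) (nat_lit 81) (.e (nat_lit 4797) (nat_lit 281) (.e (nat_lit 1039) (nat_lit 81) (.e (nat_lit 1234) (nat_lit 91) .nil))))))))) (.g (nat_lit 4) .nil .nil))) 
(.lf (nat_lit 216056) (.g (nat_lit 3407) (.e (nat_lit 90170) (nat_lit 13) (.e (nat_lit 172106) (nat_lit 10) (.e (nat_lit 434231) (nat_lit 23) (.e (nat_lit 532535) (nat_lit 9) (.e (nat_lit 335921) (nat_lit 0) (.e (nat_lit 993) (nat_lit 81) (.e (nat_lit 4843) (nat_lit 284) (.e (nat_lit 122890) (nat_lit 2) .nil)))))))) (.g (nat_lit 4) .nil .nil)))))) 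
(.nd (nat_lit 3) (.nd (nat_lit 4) (.nd (nat_lit 5) 
(.lf (nat_lit 216004) (.g (nat_lit 3177) (.e (nat_lit 90170) (nat_lit 13) (.e (nat_lit 172106) (nat_lit 10) (.e (nat_lit 434231) (nat_lit 23) (.e (nat_lit 532535) (nat_lit 9) (.e (nat_lit 335920) (nat_lit 0) (.e (nat_lit 1936) (nat_lit 132) (.e (nat_lit 630528) (nat_lit 5) (.e (nat_lit 1237) (nat_lit 91) .nil)))))))) (.g (nat_lit 4) .nil .nil))) 
(.lf (nat_lit 216036) (.g (nat_lit 3684) (.e (nat_lit 90170) (nat_lit 13) (.e (nat_lit 172106) (nat_lit 10) (.e (nat_lit 434231) (nat_lit 23) (.e (nat_lit 532535) (nat_lit 9) (.e (nat_lit 335921) (nat_lit 0) (.e (nat_lit 988) (nat_lit 81) (.e (nat_lit 4843) (nat_lit 284) (.e (nat_lit 122890) (nat_lit 2) .nil)))))))) (.g (nat_lit 4) .nil .nil)))) (.nd (nat_lit 5) 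
(.lf (nat_lit 216020) (.g (nat_lit 3657) (.e (nat_lit 90170) (nat_lit 13) (.e (nat_lit 172106) (nat_lit 10) (.e (nat_lit 434231) (nat_lit 23) (.e (nat_lit 532535) (nat_lit 9) (.e (nat_lit 335920) (nat_lit 0) (.e (nat_lit 1940) (nat_lit 132) (.e (nat_lit 622605) (nat_lit 5) (.e (nat_lit 1237) (nat_lit 91) .nil)))))))) (.g (nat_lit 4) .nil .nil))) 
(.lf (nat_lit 216052) (.g (nat_lit 4035) (.e (nat_lit 90170) (nat_lit 13) (.e (nat_lit 172106) (nat_lit 10) (.e (nat_lit 434231) (nat_lit 23) (.e (nat_lit 532535) (nat_lit 9) (.e (nat_lit 335921) (nat_lit 0) (.e (nat_lit 992) (nat_lit 81) (.e (nat_lit 4843) (nat_lit 284) (.e (nat_lit 122890) (nat_lit 2) .nil)))))))) (.g (nat_lit 4) .nil .nil))))) (.nd (nat_lit 4) (.nd (nat_lit 5) 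
(.lf (nat_lit 216012) (.g (nat_lit 4104) (.e (nat_lit 90170) (nat_lit 13) (.e (nat_lit 172106) (nat_lit 10) (.e (nat_lit 434231) (nat_lit 23) (.e (nat_lit 532535) (nat_lit 9) (.e (nat_lit 335920) (nat_lit 0) (.e (nat_lit 1939) (nat_lit 132) (.e (nat_lit 622605) (nat_lit 5) (.e (nat_lit 1234) (nat_lit 91) .nil)))))))) (.g (nat_lit 4) .nil .nil))) 
(.lf (nat_lit 216044) (.g (nat_lit 4208) (.e (nat_lit 90170) (nat_lit 13) (.e (nat_lit 172106) (nat_lit 10) (.e (nat_lit 434231) (nat_lit 23) (.e (nat_lit 532535) (nat_lit 9) (.e (nat_lit 335921) (nat_lit 0) (.e (nat_lit 989) (nat_lit 81) (.e (nat_lit 7936) (nat_lit 283) (.e (nat_lit 57373) (nat_lit 2) .nil)))))))) (.g (nat_lit 4) .nil .nil)))) (.nd (nat_lit 5) 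
(.lf (nat_lit 216028) (.g (nat_lit 3911) (.e (nat_lit 90170) (nat_lit 13) (.e (nat_lit 172106) (nat_lit 10) (.e (nat_lit 434231) (nat_lit 23) (.e (nat_lit 532535) (nat_lit 9) (.e (nat_lit 335921) (nat_lit 0) (.e (nat_lit 988) (nat_lit 81) (.e (nat_lit 4780) (nat_lit 281) (.e (nat_lit 1019) (nat_lit 81) (.e (nat_lit 1234) (nat_lit 91) .nil))))))))) (.g (nat_lit 4) .nil .nil))) 
(.lf (nat_lit 216060) (.g (nat_lit 3590) (.e (nat_lit 90170) (nat_lit 13) (.e (nat_lit 172106) (nat_lit 10) (.e (nat_lit 434231) (nat_lit 23) (.e (nat_lit 532535) (nat_lit 9) (.e (nat_lit 335921) (nat_lit 0) (.e (nat_lit 1015) (nat_lit 81) (.e (nat_lit 4780) (nat_lit 281) (.e (nat_lit 1011) (nat_lit 81) (.e (nat_lit 1239) (nat_lit 91) .nil))))))))) (.g (nat_lit 4) .nil .nil))))))) 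
(.nd (nat_lit 2) (.nd (nat_lit 3) (.nd (nat_lit 4) (.nd (nat_lit 5) 
(.lf (nat_lit 216002) (.g (nat_lit 4970) (.e (nat_lit 90170) (nat_lit 13) (.e (nat_lit 172106) (nat_lit 10) (.e (nat_lit 434231) (nat_lit 23) (.e (nat_lit 532535) (nat_lit 9) (.e (nat_lit 335920) (nat_lit 0) (.e (nat_lit 1936) (nat_lit 132) (.e (nat_lit 622604) (nat_lit 5) (.e (nat_lit 1234) (nat_lit 91) .nil)))))))) (.g (nat_lit 4) .nil .nil))) 
(.lf (nat_lit 216034) (.g (nat_lit 4912) (.e (nat_lit 90170) (nat_lit 13) (.e (nat_lit 172106) (nat_lit 10) (.e (nat_lit 434231) (nat_lit 23) (.e (nat_lit 532535) (nat_lit 9) (.e (nat_lit 335921) (nat_lit 0) (.e (nat_lit 988) (nat_lit 81) (.e (nat_lit 4842) (nat_lit 283) (.e (nat_lit 57374) (nat_lit 2) .nil)))))))) (.g (nat_lit 4) .nil .nil)))) (.nd (nat_lit 5) 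
(.lf (nat_lit 216018) (.g (nat_lit 3348) (.e (nat_lit 90170) (nat_lit 13) (.e (nat_lit 172106) (nat_lit 10) (.e (nat_lit 434231) (nat_lit 23) (.e (nat_lit 532535) (nat_lit 9) (.e (nat_lit 335920) (nat_lit 0) (.e (nat_lit 1940) (nat_lit 132) (.e (nat_lit 622604) (nat_lit 5) (.e (nat_lit 1237) (nat_lit 91) .nil)))))))) (.g (nat_lit 4) .nil .nil))) 
(.lf (nat_lit 216050) (.g (nat_lit 4361) (.e (nat_lit 90170) (nat_lit 13) (.e (nat_lit 172106) (nat_lit 10) (.e (nat_lit 434231) (nat_lit 23) (.e (nat_lit 532535) (nat_lit 9) (.e (nat_lit 335921) (nat_lit 0) (.e (nat_lit 992) (nat_lit 81) (.e (nat_lit 4780) (nat_lit 281) (.e (nat_lit 1039) (nat_lit 81) (.e (nat_lit 1234) (nat_lit 91) .nil))))))))) (.g (nat_lit 4) .nil .nil))))) 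
(.nd (nat_lit 4) (.nd (nat_lit 5) 
(.lf (nat_lit 216010) (.g (nat_lit 4650) (.e (nat_lit 90170) (nat_lit 13) (.e (nat_lit 172106) (nat_lit 10) (.e (nat_lit 434231) (nat_lit 23) (.e (nat_lit 532535) (nat_lit 9) (.e (nat_lit 335920) (nat_lit 0) (.e (nat_lit 1939) (nat_lit 132) (.e (nat_lit 622603) (nat_lit 5) (.e (nat_lit 1234) (nat_lit 91) .nil)))))))) (.g (nat_lit 4) .nil .nil))) 
(.lf (nat_lit 216042) (.g (nat_lit 3281) (.e (nat_lit 90170) (nat_lit 13) (.e (nat_lit 172106) (nat_lit 10) (.e (nat_lit 434231) (nat_lit 23) (.e (nat_lit 532535) (nat_lit 9) (.e (nat_lit 335921) (nat_lit 0) (.e (nat_lit 989) (nat_lit 81) (.e (nat_lit 4841) (nat_lit 283) (.e (nat_lit 57370) (nat_lit 2) .nil)))))))) (.g (nat_lit 4) .nil .nil)))) (.nd (nat_lit 5) 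
(.lf (nat_lit 216026) (.g (nat_lit 4099) (.e (nat_lit 90170) (nat_lit 13) (.e (nat_lit 172106) (nat_lit 10) (.e (nat_lit 434231) (nat_lit 23) (.e (nat_lit 532535) (nat_lit 9) (.e (nat_lit 335921) (nat_lit 0) (.e (nat_lit 982) (nat_lit 81) (.e (nat_lit 4841) (nat_lit 283) (.e (nat_lit 57374) (nat_lit 2) .nil)))))))) (.g (nat_lit 4) .nil .nil))) 
(.lf (nat_lit 216058) (.g (nat_lit 4674) (.e (nat_lit 90170) (nat_lit 13) (.e (nat_lit 172106) (nat_lit 10) (.e (nat_lit 434231) (nat_lit 23) (.e (nat_lit 532535) (nat_lit 9) (.e (nat_lit 335921) (nat_lit 0) (.e (nat_lit 1003) (nat_lit 81) (.e (nat_lit 4797) (nat_lit 281) (.e (nat_lit 1039) (nat_lit 81) (.e (nat_lit 1234) (nat_lit 91) .nil))))))))) (.g (nat_lit 4) .nil .nil)))))) 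
(.nd (nat_lit 3) (.nd (nat_lit 4) (.nd (nat_lit 5) 
(.lf (nat_lit 216006) (.g (nat_lit 3353) (.e (nat_lit 90170) (nat_lit 13) (.e (nat_lit 172106) (nat_lit 10) (.e (nat_lit 434231) (nat_lit 23) (.e (nat_lit 532535) (nat_lit 9) (.e (nat_lit 335920) (nat_lit 0) (.e (nat_lit 1939) (nat_lit 132) (.e (nat_lit 622599) (nat_lit 5) (.e (nat_lit 1239) (nat_lit 91) .nil)))))))) (.g (nat_lit 4) .nil .nil))) 
(.lf (nat_lit 216038) (.g (nat_lit 3450) (.e (nat_lit 90170) (nat_lit 13) (.e (nat_lit 172106) (nat_lit 10) (.e (nat_lit 434231) (nat_lit 23) (.e (nat_lit 532535) (nat_lit 9) (.e (nat_lit 335921) (nat_lit 0) (.e (nat_lit 989) (nat_lit 81) (.e (nat_lit 4752) (nat_lit 281) (.e (nat_lit 1028) (nat_lit 81) (.e (nat_lit 1237) (nat_lit 91) .nil))))))))) (.g (nat_lit 4) .nil .nil)))) (.nd (nat_lit 5) 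
(.lf (nat_lit 216022) (.g (nat_lit 3130) (.e (nat_lit 90170) (nat_lit 13) (.e (nat_lit 172106) (nat_lit 10) (.e (nat_lit 434231) (nat_lit 23) (.e (nat_lit 532535) (nat_lit 9) (.e (nat_lit 335921) (nat_lit 0) .nil))))) .nil)) 
(.lf (nat_lit 216054) (.g (nat_lit 3647) (.e (nat_lit 90170) (nat_lit 13) (.e (nat_lit 172106) (nat_lit 10) (.e (nat_lit 434231) (nat_lit 23) (.e (nat_lit 532535) (nat_lit 9) (.e (nat_lit 335921) (nat_lit 0) (.e (nat_lit 993) (nat_lit 81) (.e (nat_lit 4780) (nat_lit 281) (.e (nat_lit 1010) (nat_lit 81) (.e (nat_lit 1239) (nat_lit 91) .nil))))))))) (.g (nat_lit 4) .nil .nil))))) 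
(.nd (nat_lit 4) (.nd (nat_lit 5) 
(.lf (nat_lit 216014) (.g (nat_lit 3376) (.e (nat_lit 90170) (nat_lit 13) (.e (nat_lit 172106) (nat_lit 10) (.e (nat_lit 434231) (nat_lit 23) (.e (nat_lit 532535) (nat_lit 9) (.e (nat_lit 335920) (nat_lit 0) (.e (nat_lit 1940) (nat_lit 132) (.e (nat_lit 622598) (nat_lit 5) (.e (nat_lit 1237) (nat_lit 91) .nil)))))))) (.g (nat_lit 4) .nil .nil))) 
(.lf (nat_lit 216046) (.g (nat_lit 3838) (.e (nat_lit 90170) (nat_lit 13) (.e (nat_lit 172106) (nat_lit 10) (.e (nat_lit 434231) (nat_lit 23) (.e (nat_lit 532535) (nat_lit 9) (.e (nat_lit 335921) (nat_lit 0) (.e (nat_lit 992) (nat_lit 81) (.e (nat_lit 4761) (nat_lit 281) (.e (nat_lit 1085) (nat_lit 81) (.e (nat_lit 1234) (nat_lit 91) .nil))))))))) (.g (nat_lit 4) .nil .nil)))) (.nd (nat_lit 5) 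
(.lf (nat_lit 216030) (.g (nat_lit 3724) (.e (nat_lit 90170) (nat_lit 13) (.e (nat_lit 172106) (nat_lit 10) (.e (nat_lit 434231) (nat_lit 23) (.e (nat_lit 532535) (nat_lit 9) (.e (nat_lit 335921) (nat_lit 0) (.e (nat_lit 988) (nat_lit 81) (.e (nat_lit 4780) (nat_lit 281) (.e (nat_lit 1041) (nat_lit 81) (.e (nat_lit 1234) (nat_lit 91) .nil))))))))) (.g (nat_lit 4) .nil .nil))) 
(.lf (nat_lit 216062) (.g (nat_lit 4132) (.e (nat_lit 90170) (nat_lit 13) (.e (nat_lit 172106) (nat_lit 10) (.e (nat_lit 434231) (nat_lit 23) (.e (nat_lit 532535) (nat_lit 9) (.e (nat_lit 335921) (nat_lit 0) (.e (nat_lit 1086) (nat_lit 81) (.e (nat_lit 4803) (nat_lit 281) (.e (nat_lit 1039) (nat_lit 81) (.e (nat_lit 1234) (nat_lit 91) .nil))))))))) (.g (nat_lit 4) .nil .nil)))))))) 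
(.nd (nat_lit 1) (.nd (nat_lit 2) (.nd (nat_lit 3) (.nd (nat_lit 4) (.nd (nat_lit 5) 
(.lf (nat_lit 216001) (.g (nat_lit 4195) (.e (nat_lit 90170) (nat_lit 13) (.e (nat_lit 172106) (nat_lit 10) (.e (nat_lit 434231) (nat_lit 23) (.e (nat_lit 532535) (nat_lit 9) (.e (nat_lit 335920) (nat_lit 0) (.e (nat_lit 1936) (nat_lit 132) (.e (nat_lit 622603) (nat_lit 5) (.e (nat_lit 1234) (nat_lit 91) .nil)))))))) (.g (nat_lit 4) .nil .nil))) 
(.lf (nat_lit 216033) (.g (nat_lit 4697) (.e (nat_lit 90170) (nat_lit 13) (.e (nat_lit 172106) (nat_lit 10) (.e (nat_lit 434231) (nat_lit 23) (.e (nat_lit 532535) (nat_lit 9) (.e (nat_lit 335921) (nat_lit 0) (.e (nat_lit 988) (nat_lit 81) (.e (nat_lit 4842) (nat_lit 283) (.e (nat_lit 57373) (nat_lit 2) .nil)))))))) (.g (nat_lit 4) .nil .nil)))) (.nd (nat_lit 5) 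
(.lf (nat_lit 216017) (.g (nat_lit 3674) (.e (nat_lit 90170) (nat_lit 13) (.e (nat_lit 172106) (nat_lit 10) (.e (nat_lit 434231) (nat_lit 23) (.e (nat_lit 532535) (nat_lit 9) (.e (nat_lit 335920) (nat_lit 0) (.e (nat_lit 1940) (nat_lit 132) (.e (nat_lit 622602) (nat_lit 5) (.e (nat_lit 1239) (nat_lit 91) .nil)))))))) (.g (nat_lit 4) .nil .nil))) 
(.lf (nat_lit 216049) (.g (nat_lit 4220) (.e (nat_lit 90170) (nat_lit 13) (.e (nat_lit 172106) (nat_lit 10) (.e (nat_lit 434231) (nat_lit 23) (.e (nat_lit 532535) (nat_lit 9) (.e (nat_lit 335921) (nat_lit 0) (.e (nat_lit 992) (nat_lit 81) (.e (nat_lit 4780) (nat_lit 281) (.e (nat_lit 1019) (nat_lit 81) (.e (nat_lit 1234) (nat_lit 91) .nil))))))))) (.g (nat_lit 4) .nil .nil))))) 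
(.nd (nat_lit 4) (.nd (nat_lit 5) 
(.lf (nat_lit 216009) (.g (nat_lit 3416) (.e (nat_lit 90170) (nat_lit 13) (.e (nat_lit 172106) (nat_lit 10) (.e (nat_lit 434231) (nat_lit 23) (.e (nat_lit 532535) (nat_lit 9) (.e (nat_lit 335920) (nat_lit 0) (.e (nat_lit 1939) (nat_lit 132) (.e (nat_lit 622602) (nat_lit 5) (.e (nat_lit 1239) (nat_lit 91) .nil)))))))) (.g (nat_lit 4) .nil .nil))) 
(.lf (nat_lit 216041) (.g (nat_lit 3574) (.e (nat_lit 90170) (nat_lit 13) (.e (nat_lit 172106) (nat_lit 10) (.e (nat_lit 434231) (nat_lit 23) (.e (nat_lit 532535) (nat_lit 9) (.e (nat_lit 335921) (nat_lit 0) (.e (nat_lit 989) (nat_lit 81) (.e (nat_lit 4841) (nat_lit 283) (.e (nat_lit 57369) (nat_lit 2) .nil)))))))) (.g (nat_lit 4) .nil .nil)))) (.nd (nat_lit 5) 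
(.lf (nat_lit 216025) (.g (nat_lit 3705) (.e (nat_lit 90170) (nat_lit 13) (.e (nat_lit 172106) (nat_lit 10) (.e (nat_lit 434231) (nat_lit 23) (.e (nat_lit 532535) (nat_lit 9) (.e (nat_lit 335921) (nat_lit 0) (.e (nat_lit 982) (nat_lit 81) (.e (nat_lit 4841) (nat_lit 283) (.e (nat_lit 57373) (nat_lit 2) .nil)))))))) (.g (nat_lit 4) .nil .nil))) 
(.lf (nat_lit 216057) (.g (nat_lit 3575) (.e (nat_lit 90170) (nat_lit 13) (.e (nat_lit 172106) (nat_lit 10) (.e (nat_lit 434231) (nat_lit 23) (.e (nat_lit 532535) (nat_lit 9) (.e (nat_lit 335921) (nat_lit 0) (.e (nat_lit 993) (nat_lit 81) (.e (nat_lit 4843) (nat_lit 284) (.e (nat_lit 122891) (nat_lit 2) .nil)))))))) (.g (nat_lit 4) .nil .nil)))))) 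
(.nd (nat_lit 3) (.nd (nat_lit 4) (.nd (nat_lit 5) 
(.lf (nat_lit 216005) (.g (nat_lit 4084) (.e (nat_lit 90170) (nat_lit 13) (.e (nat_lit 172106) (nat_lit 10) (.e (nat_lit 434231) (nat_lit 23) (.e (nat_lit 532535) (nat_lit 9) (.e (nat_lit 335920) (nat_lit 0) (.e (nat_lit 1939) (nat_lit 132) (.e (nat_lit 622598) (nat_lit 5) (.e (nat_lit 1234) (nat_lit 91) .nil)))))))) (.g (nat_lit 4) .nil .nil))) 
(.lf (nat_lit 216037) (.g (nat_lit 3849) (.e (nat_lit 90170) (nat_lit 13) (.e (nat_lit 172106) (nat_lit 10) (.e (nat_lit 434231) (nat_lit 23) (.e (nat_lit 532535) (nat_lit 9) (.e (nat_lit 335921) (nat_lit 0) (.e (nat_lit 988) (nat_lit 81) (.e (nat_lit 4843) (nat_lit 284) (.e (nat_lit 122891) (nat_lit 2) .nil)))))))) (.g (nat_lit 4) .nil .nil)))) (.nd (nat_lit 5) 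
(.lf (nat_lit 216021) (.g (nat_lit 3177) (.e (nat_lit 90170) (nat_lit 13) (.e (nat_lit 172106) (nat_lit 10) (.e (nat_lit 434231) (nat_lit 23) (.e (nat_lit 532535) (nat_lit 9) (.e (nat_lit 335920) (nat_lit 0) (.e (nat_lit 1940) (nat_lit 132) (.e (nat_lit 630528) (nat_lit 5) (.e (nat_lit 1237) (nat_lit 91) .nil)))))))) (.g (nat_lit 4) .nil .nil))) 
(.lf (nat_lit 216053) (.g (nat_lit 4203) (.e (nat_lit 90170) (nat_lit 13) (.e (nat_lit 172106) (nat_lit 10) (.e (nat_lit 434231) (nat_lit 23) (.e (nat_lit 532535) (nat_lit 9) (.e (nat_lit 335921) (nat_lit 0) (.e (nat_lit 992) (nat_lit 81) (.e (nat_lit 4843) (nat_lit 284) (.e (nat_lit 122891) (nat_lit 2) .nil)))))))) (.g (nat_lit 4) .nil .nil))))) (.nd (nat_lit 4) (.nd (nat_lit 5) 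
(.lf (nat_lit 216013) (.g (nat_lit 5165) (.e (nat_lit 90170) (nat_lit 13) (.e (nat_lit 172106) (nat_lit 10) (.e (nat_lit 434231) (nat_lit 23) (.e (nat_lit 532535) (nat_lit 9) (.e (nat_lit 335920) (nat_lit 0) (.e (nat_lit 1940) (nat_lit 132) (.e (nat_lit 622598) (nat_lit 5) (.e (nat_lit 1234) (nat_lit 91) .nil)))))))) (.g (nat_lit 4) .nil .nil))) 
(.lf (nat_lit 216045) (.g (nat_lit 4539) (.e (nat_lit 90170) (nat_lit 13) (.e (nat_lit 172106) (nat_lit 10) (.e (nat_lit 434231) (nat_lit 23) (.e (nat_lit 532535) (nat_lit 9) (.e (nat_lit 335921) (nat_lit 0) (.e (nat_lit 989) (nat_lit 81) (.e (nat_lit 7936) (nat_lit 283) (.e (nat_lit 57374) (nat_lit 2) .nil)))))))) (.g (nat_lit 4) .nil .nil)))) (.nd (nat_lit 5) 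
(.lf (nat_lit 216029) (.g (nat_lit 4052) (.e (nat_lit 90170) (nat_lit 13) (.e (nat_lit 172106) (nat_lit 10) (.e (nat_lit 434231) (nat_lit 23) (.e (nat_lit 532535) (nat_lit 9) (.e (nat_lit 335921) (nat_lit 0) (.e (nat_lit 988) (nat_lit 81) (.e (nat_lit 4780) (nat_lit 281) (.e (nat_lit 1039) (nat_lit 81) (.e (nat_lit 1234) (nat_lit 91) .nil))))))))) (.g (nat_lit 4) .nil .nil))) 
(.lf (nat_lit 216061) (.g (nat_lit 3947) (.e (nat_lit 90170) (nat_lit 13) (.e (nat_lit 172106) (nat_lit 10) (.e (nat_lit 434231) (nat_lit 23) (.e (nat_lit 532535) (nat_lit 9) (.e (nat_lit 335921) (nat_lit 0) (.e (nat_lit 1023) (nat_lit 81) (.e (nat_lit 7936) (nat_lit 283) (.e (nat_lit 57374) (nat_lit 2) .nil)))))))) (.g (nat_lit 4) .nil .nil))))))) 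
(.nd (nat_lit 2) (.nd (nat_lit 3) (.nd (nat_lit 4) (.nd (nat_lit 5) 
(.lf (nat_lit 216003) (.g (nat_lit 4306) (.e (nat_lit 90170) (nat_lit 13) (.e (nat_lit 172106) (nat_lit 10) (.e (nat_lit 434231) (nat_lit 23) (.e (nat_lit 532535) (nat_lit 9) (.e (nat_lit 335920) (nat_lit 0) (.e (nat_lit 1936) (nat_lit 132) (.e (nat_lit 622605) (nat_lit 5) (.e (nat_lit 1236) (nat_lit 91) .nil)))))))) (.g (nat_lit 4) .nil .nil))) 
(.lf (nat_lit 216035) (.g (nat_lit 3815) (.e (nat_lit 90170) (nat_lit 13) (.e (nat_lit 172106) (nat_lit 10) (.e (nat_lit 434231) (nat_lit 23) (.e (nat_lit 532535) (nat_lit 9) (.e (nat_lit 335921) (nat_lit 0) (.e (nat_lit 988) (nat_lit 81) (.e (nat_lit 7936) (nat_lit 283) (.e (nat_lit 57374) (nat_lit 2) .nil)))))))) (.g (nat_lit 4) .nil .nil)))) (.nd (nat_lit 5) 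
(.lf (nat_lit 216019) (.g (nat_lit 4609) (.e (nat_lit 90170) (nat_lit 13) (.e (nat_lit 172106) (nat_lit 10) (.e (nat_lit 434231) (nat_lit 23) (.e (nat_lit 532535) (nat_lit 9) (.e (nat_lit 335920) (nat_lit 0) (.e (nat_lit 1940) (nat_lit 132) (.e (nat_lit 622605) (nat_lit 5) (.e (nat_lit 1234) (nat_lit 91) .nil)))))))) (.g (nat_lit 4) .nil .nil))) 
(.lf (nat_lit 216051) (.g (nat_lit 4033) (.e (nat_lit 90170) (nat_lit 13) (.e (nat_lit 172106) (nat_lit 10) (.e (nat_lit 434231) (nat_lit 23) (.e (nat_lit 532535) (nat_lit 9) (.e (nat_lit 335921) (nat_lit 0) (.e (nat_lit 992) (nat_lit 81) (.e (nat_lit 4780) (nat_lit 281) (.e (nat_lit 1041) (nat_lit 81) (.e (nat_lit 1234) (nat_lit 91) .nil))))))))) (.g (nat_lit 4) .nil .nil))))) 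
(.nd (nat_lit 4) (.nd (nat_lit 5) 
(.lf (nat_lit 216011) (.g (nat_lit 4781) (.e (nat_lit 90170) (nat_lit 13) (.e (nat_lit 172106) (nat_lit 10) (.e (nat_lit 434231) (nat_lit 23) (.e (nat_lit 532535) (nat_lit 9) (.e (nat_lit 335920) (nat_lit 0) (.e (nat_lit 1939) (nat_lit 132) (.e (nat_lit 622604) (nat_lit 5) (.e (nat_lit 1234) (nat_lit 91) .nil)))))))) (.g (nat_lit 4) .nil .nil))) 
(.lf (nat_lit 216043) (.g (nat_lit 5332) (.e (nat_lit 90170) (nat_lit 13) (.e (nat_lit 172106) (nat_lit 10) (.e (nat_lit 434231) (nat_lit 23) (.e (nat_lit 532535) (nat_lit 9) (.e (nat_lit 335921) (nat_lit 0) (.e (nat_lit 989) (nat_lit 81) (.e (nat_lit 4841) (nat_lit 283) (.e (nat_lit 57374) (nat_lit 2) .nil)))))))) (.g (nat_lit 4) .nil .nil)))) (.nd (nat_lit 5) 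
(.lf (nat_lit 216027) (.g (nat_lit 5140) (.e (nat_lit 90170) (nat_lit 13) (.e (nat_lit 172106) (nat_lit 10) (.e (nat_lit 434231) (nat_lit 23) (.e (nat_lit 532535) (nat_lit 9) (.e (nat_lit 335921) (nat_lit 0) (.e (nat_lit 982) (nat_lit 81) (.e (nat_lit 4842) (nat_lit 283) (.e (nat_lit 57374) (nat_lit 2) .nil)))))))) (.g (nat_lit 4) .nil .nil))) 
(.lf (nat_lit 216059) (.g (nat_lit 3825) (.e (nat_lit 90170) (nat_lit 13) (.e (nat_lit 172106) (nat_lit 10) (.e (nat_lit 434231) (nat_lit 23) (.e (nat_lit 532535) (nat_lit 9) (.e (nat_lit 335921) (nat_lit 0) (.e (nat_lit 1003) (nat_lit 81) (.e (nat_lit 7936) (nat_lit 283) (.e (nat_lit 57374) (nat_lit 2) .nil)))))))) (.g (nat_lit 4) .nil .nil)))))) 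
(.nd (nat_lit 3) (.nd (nat_lit 4) (.nd (nat_lit 5) 
(.lf (nat_lit 216007) (.g (nat_lit 3177) (.e (nat_lit 90170) (nat_lit 13) (.e (nat_lit 172106) (nat_lit 10) (.e (nat_lit 434231) (nat_lit 23) (.e (nat_lit 532535) (nat_lit 9) (.e (nat_lit 335920) (nat_lit 0) (.e (nat_lit 1939) (nat_lit 132) (.e (nat_lit 622600) (nat_lit 5) (.e (nat_lit 1239) (nat_lit 91) .nil)))))))) (.g (nat_lit 4) .nil .nil))) 
(.lf (nat_lit 216039) (.g (nat_lit 3897) (.e (nat_lit 90170) (nat_lit 13) (.e (nat_lit 172106) (nat_lit 10) (.e (nat_lit 434231) (nat_lit 23) (.e (nat_lit 532535) (nat_lit 9) (.e (nat_lit 335921) (nat_lit 0) (.e (nat_lit 989) (nat_lit 81) (.e (nat_lit 4798) (nat_lit 281) (.e (nat_lit 1039) (nat_lit 81) (.e (nat_lit 1234) (nat_lit 91) .nil))))))))) (.g (nat_lit 4) .nil .nil)))) (.nd (nat_lit 5) 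
(.lf (nat_lit 216023) (.g (nat_lit 3229) (.e (nat_lit 90170) (nat_lit 13) (.e (nat_lit 172106) (nat_lit 10) (.e (nat_lit 434231) (nat_lit 23) (.e (nat_lit 532535) (nat_lit 9) (.e (nat_lit 335921) (nat_lit 0) (.e (nat_lit 982) (nat_lit 81) (.e (nat_lit 4780) (nat_lit 281) (.e (nat_lit 1011) (nat_lit 81) (.e (nat_lit 1239) (nat_lit 91) .nil))))))))) (.g (nat_lit 4) .nil .nil))) 
(.lf (nat_lit 216055) (.g (nat_lit 3810) (.e (nat_lit 90170) (nat_lit 13) (.e (nat_lit 172106) (nat_lit 10) (.e (nat_lit 434231) (nat_lit 23) (.e (nat_lit 532535) (nat_lit 9) (.e (nat_lit 335921) (nat_lit 0) (.e (nat_lit 993) (nat_lit 81) (.e (nat_lit 4780) (nat_lit 281) (.e (nat_lit 1039) (nat_lit 81) (.e (nat_lit 1234) (nat_lit 91) .nil))))))))) (.g (nat_lit 4) .nil .nil))))) 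
(.nd (nat_lit 4) (.nd (nat_lit 5) 
(.lf (nat_lit 216015) (.g (nat_lit 3237) (.e (nat_lit 90170) (nat_lit 13) (.e (nat_lit 172106) (nat_lit 10) (.e (nat_lit 434231) (nat_lit 23) (.e (nat_lit 532535) (nat_lit 9) (.e (nat_lit 335920) (nat_lit 0) (.e (nat_lit 1940) (nat_lit 132) (.e (nat_lit 622600) (nat_lit 5) (.e (nat_lit 1233) (nat_lit 91) .nil)))))))) (.g (nat_lit 4) .nil .nil))) 
(.lf (nat_lit 216047) (.g (nat_lit 3855) (.e (nat_lit 90170) (nat_lit 13) (.e (nat_lit 172106) (nat_lit 10) (.e (nat_lit 434231) (nat_lit 23) (.e (nat_lit 532535) (nat_lit 9) (.e (nat_lit 335921) (nat_lit 0) (.e (nat_lit 992) (nat_lit 81) (.e (nat_lit 4767) (nat_lit 281) (.e (nat_lit 1084) (nat_lit 81) (.e (nat_lit 1234) (nat_lit 91) .nil))))))))) (.g (nat_lit 4) .nil .nil)))) (.nd (nat_lit 5) 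
(.lf (nat_lit 216031) (.g (nat_lit 4378) (.e (nat_lit 90170) (nat_lit 13) (.e (nat_lit 172106) (nat_lit 10) (.e (nat_lit 434231) (nat_lit 23) (.e (nat_lit 532535) (nat_lit 9) (.e (nat_lit 335921) (nat_lit 0) (.e (nat_lit 988) (nat_lit 81) (.e (nat_lit 4841) (nat_lit 283) (.e (nat_lit 57373) (nat_lit 2) .nil)))))))) (.g (nat_lit 4) .nil .nil))) 
(.lf (nat_lit 216063) (.g (nat_lit 4494) (.e (nat_lit 90170) (nat_lit 13) (.e (nat_lit 172106) (nat_lit 10) (.e (nat_lit 434231) (nat_lit 23) (.e (nat_lit 532535) (nat_lit 9) (.e (nat_lit 335921) (nat_lit 0) (.e (nat_lit 1086) (nat_lit 81) (.e (nat_lit 5598) (nat_lit 310) (.e (nat_lit 171776) (nat_lit 63) .nil)))))))) (.g (nat_lit 4) .nil .nil)))))))))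

noncomputable def tv2840 : DT := (.nd (nat_lit 0) (.nd (nat_lit 1) (.nd (nat_lit 2) (.nd (nat_lit 3) (.nd (nat_lit 4) (.nd (nat_lit 5) 
(.lf (nat_lit 216064) (.g (nat_lit 3649) (.e (nat_lit 90170) (nat_lit 13) (.e (nat_lit 172106) (nat_lit 10) (.e (nat_lit 434231) (nat_lit 23) (.e (nat_lit 532535) (nat_lit 9) (.e (nat_lit 335921) (nat_lit 0) (.e (nat_lit 1936) (nat_lit 132) (.e (nat_lit 622598) (nat_lit 5) (.e (nat_lit 1237) (nat_lit 91) .nil)))))))) (.g (nat_lit 4) .nil .nil))) 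
(.lf (nat_lit 216096) (.g (nat_lit 4123) (.e (nat_lit 90170) (nat_lit 13) (.e (nat_lit 172106) (nat_lit 10) (.e (nat_lit 434231) (nat_lit 23) (.e (nat_lit 532535) (nat_lit 9) (.e (nat_lit 335922) (nat_lit 0) (.e (nat_lit 988) (nat_lit 81) (.e (nat_lit 4842) (nat_lit 283) (.e (nat_lit 57373) (nat_lit 2) .nil)))))))) (.g (nat_lit 4) .nil .nil)))) (.nd (nat_lit 5) 
(.lf (nat_lit 216080) (.g (nat_lit 3486) (.e (nat_lit 90170) (nat_lit 13) (.e (nat_lit 172106) (nat_lit 10) (.e (nat_lit 434231) (nat_lit 23) (.e (nat_lit 532535) (nat_lit 9) (.e (nat_lit 335921) (nat_lit 0) (.e (nat_lit 1939) (nat_lit 132) (.e (nat_lit 622605) (nat_lit 5) (.e (nat_lit 1237) (nat_lit 91) .nil)))))))) (.g (nat_lit 4) .nil .nil))) 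
(.lf (nat_lit 216112) (.g (nat_lit 3884) (.e (nat_lit 90170) (nat_lit 13) (.e (nat_lit 172106) (nat_lit 10) (.e (nat_lit 434231) (nat_lit 23) (.e (nat_lit 532535) (nat_lit 9) (.e (nat_lit 335922) (nat_lit 0) (.e (nat_lit 1086) (nat_lit 81) (.e (nat_lit 5598) (nat_lit 310) (.e (nat_lit 171776) (nat_lit 63) .nil)))))))) (.g (nat_lit 4) .nil .nil))))) (.nd (nat_lit 4) (.nd (nat_lit 5) 
(.lf (nat_lit 216072) (.g (nat_lit 3465) (.e (nat_lit 90170) (nat_lit 13) (.e (nat_lit 172106) (nat_lit 10) (.e (nat_lit 434231) (nat_lit 23) (.e (nat_lit 532535) (nat_lit 9) (.e (nat_lit 335921) (nat_lit 0) (.e (nat_lit 1939) (nat_lit 132) (.e (nat_lit 622598) (nat_lit 5) (.e (nat_lit 1239) (nat_lit 91) .nil)))))))) (.g (nat_lit 4) .nil .nil))) 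
(.lf (nat_lit 216104) (.g (nat_lit 4059) (.e (nat_lit 90170) (nat_lit 13) (.e (nat_lit 172106) (nat_lit 10) (.e (nat_lit 434231) (nat_lit 23) (.e (nat_lit 532535) (nat_lit 9) (.e (nat_lit 335922) (nat_lit 0) (.e (nat_lit 989) (nat_lit 81) (.e (nat_lit 7936) (nat_lit 283) (.e (nat_lit 57374) (nat_lit 2) .nil)))))))) (.g (nat_lit 4) .nil .nil)))) (.nd (nat_lit 5) 
(.lf (nat_lit 216088) (.g (nat_lit 3456) (.e (nat_lit 90170) (nat_lit 13) (.e (nat_lit 172106) (nat_lit 10) (.e (nat_lit 434231) (nat_lit 23) (.e (nat_lit 532535) (nat_lit 9) (.e (nat_lit 335921) (nat_lit 0) (.e (nat_lit 1940) (nat_lit 132) (.e (nat_lit 622605) (nat_lit 5) (.e (nat_lit 1236) (nat_lit 91) .nil)))))))) (.g (nat_lit 4) .nil .nil))) 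
(.lf (nat_lit 216120) (.g (nat_lit 3934) (.e (nat_lit 90170) (nat_lit 13) (.e (nat_lit 172106) (nat_lit 10) (.e (nat_lit 434231) (nat_lit 23) (.e (nat_lit 532535) (nat_lit 9) (.e (nat_lit 335922) (nat_lit 0) (.e (nat_lit 1939) (nat_lit 132) (.e (nat_lit 622598) (nat_lit 5) (.e (nat_lit 1234) (nat_lit 91) .nil)))))))) (.g (nat_lit 4) .nil .nil)))))) 
(.nd (nat_lit 3) (.nd (nat_lit 4) (.nd (nat_lit 5) 
(.lf (nat_lit 216068) (.g (nat_lit 5173) (.e (nat_lit 90170) (nat_lit 13) (.e (nat_lit 172106) (nat_lit 10) (.e (nat_lit 434231) (nat_lit 23) (.e (nat_lit 532535) (nat_lit 9) (.e (nat_lit 335921) (nat_lit 0) (.e (nat_lit 1936) (nat_lit 132) (.e (nat_lit 622604) (nat_lit 5) (.e (nat_lit 1234) (nat_lit 91) .nil)))))))) (.g (nat_lit 4) .nil .nil))) 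
(.lf (nat_lit 216100) (.g (nat_lit 4488) (.e (nat_lit 90170) (nat_lit 13) (.e (nat_lit 172106) (nat_lit 10) (.e (nat_lit 434231) (nat_lit 23) (.e (nat_lit 532535) (nat_lit 9) (.e (nat_lit 335922) (nat_lit 0) (.e (nat_lit 989) (nat_lit 81) (.e (nat_lit 4841) (nat_lit 283) (.e (nat_lit 57373) (nat_lit 2) .nil)))))))) (.g (nat_lit 4) .nil .nil)))) (.nd (nat_lit 5) 
(.lf (nat_lit 216084) (.g (nat_lit 3926) (.e (nat_lit 90170) (nat_lit 13) (.e (nat_lit 172106) (nat_lit 10) (.e (nat_lit 434231) (nat_lit 23) (.e (nat_lit 532535) (nat_lit 9) (.e (nat_lit 335921) (nat_lit 0) (.e (nat_lit 1940) (nat_lit 132) (.e (nat_lit 622600) (nat_lit 5) (.e (nat_lit 1233) (nat_lit 91) .nil)))))))) (.g (nat_lit 4) .nil .nil))) 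
(.lf (nat_lit 216116) (.g (nat_lit 4272) (.e (nat_lit 90170) (nat_lit 13) (.e (nat_lit 172106) (nat_lit 10) (.e (nat_lit 434231) (nat_lit 23) (.e (nat_lit 532535) (nat_lit 9) (.e (nat_lit 335922) (nat_lit 0) (.e (nat_lit 1936) (nat_lit 132) (.e (nat_lit 622603) (nat_lit 5) (.e (nat_lit 1234) (nat_lit 91) .nil)))))))) (.g (nat_lit 4) .nil .nil))))) (.nd (nat_lit 4) (.nd (nat_lit 5) 
(.lf (nat_lit 216076) (.g (nat_lit 3750) (.e (nat_lit 90170) (nat_lit 13) (.e (nat_lit 172106) (nat_lit 10) (.e (nat_lit 434231) (nat_lit 23) (.e (nat_lit 532535) (nat_lit 9) (.e (nat_lit 335921) (nat_lit 0) (.e (nat_lit 1939) (nat_lit 132) (.e (nat_lit 622602) (nat_lit 5) (.e (nat_lit 1239) (nat_lit 91) .nil)))))))) (.g (nat_lit 4) .nil .nil))) 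
(.lf (nat_lit 216108) (.g (nat_lit 3444) (.e (nat_lit 90170) (nat_lit 13) (.e (nat_lit 172106) (nat_lit 10) (.e (nat_lit 434231) (nat_lit 23) (.e (nat_lit 532535) (nat_lit 9) (.e (nat_lit 335922) (nat_lit 0) (.e (nat_lit 992) (nat_lit 81) (.e (nat_lit 4843) (nat_lit 284) (.e (nat_lit 122890) (nat_lit 2) .nil)))))))) (.g (nat_lit 4) .nil .nil)))) (.nd (nat_lit 5) 
(.lf (nat_lit 216092) (.g (nat_lit 4616) (.e (nat_lit 90170) (nat_lit 13) (.e (nat_lit 172106) (nat_lit 10) (.e (nat_lit 434231) (nat_lit 23) (.e (nat_lit 532535) (nat_lit 9) (.e (nat_lit 335922) (nat_lit 0) (.e (nat_lit 982) (nat_lit 81) (.e (nat_lit 4842) (nat_lit 283) (.e (nat_lit 57374) (nat_lit 2) .nil)))))))) (.g (nat_lit 4) .nil .nil))) 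
(.lf (nat_lit 216124) (.g (nat_lit 4500) (.e (nat_lit 90170) (nat_lit 13) (.e (nat_lit 172106) (nat_lit 10) (.e (nat_lit 434231) (nat_lit 23) (.e (nat_lit 532535) (nat_lit 9) (.e (nat_lit 335922) (nat_lit 0) (.e (nat_lit 1939) (nat_lit 132) (.e (nat_lit 622603) (nat_lit 5) (.e (nat_lit 1234) (nat_lit 91) .nil)))))))) (.g (nat_lit 4) .nil .nil))))))) 
(.nd (nat_lit 2) (.nd (nat_lit 3) (.nd (nat_lit 4) (.nd (nat_lit 5) 
(.lf (nat_lit 216066) (.g (nat_lit 3663) (.e (nat_lit 90170) (nat_lit 13) (.e (nat_lit 172106) (nat_lit 10) (.e (nat_lit 434231) (nat_lit 23) (.e (nat_lit 532535) (nat_lit 9) (.e (nat_lit 335921) (nat_lit 0) (.e (nat_lit 1936) (nat_lit 132) (.e (nat_lit 622600) (nat_lit 5) (.e (nat_lit 1233) (nat_lit 91) .nil)))))))) (.g (nat_lit 4) .nil .nil))) 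
(.lf (nat_lit 216098) (.g (nat_lit 3278) (.e (nat_lit 90170) (nat_lit 13) (.e (nat_lit 172106) (nat_lit 10) (.e (nat_lit 434231) (nat_lit 23) (.e (nat_lit 532535) (nat_lit 9) (.e (nat_lit 335922) (nat_lit 0) (.e (nat_lit 988) (nat_lit 81) (.e (nat_lit 4843) (nat_lit 284) (.e (nat_lit 122891) (nat_lit 2) .nil)))))))) (.g (nat_lit 4) .nil .nil)))) (.nd (nat_lit 5) 
(.lf (nat_lit 216082) (.g (nat_lit 4065) (.e (nat_lit 90170) (nat_lit 13) (.e (nat_lit 172106) (nat_lit 10) (.e (nat_lit 434231) (nat_lit 23) (.e (nat_lit 532535) (nat_lit 9) (.e (nat_lit 335921) (nat_lit 0) (.e (nat_lit 1940) (nat_lit 132) (.e (nat_lit 622598) (nat_lit 5) (.e (nat_lit 1237) (nat_lit 91) .nil)))))))) (.g (nat_lit 4) .nil .nil))) 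
(.lf (nat_lit 216114) (.g (nat_lit 3317) (.e (nat_lit 90170) (nat_lit 13) (.e (nat_lit 172106) (nat_lit 10) (.e (nat_lit 434231) (nat_lit 23) (.e (nat_lit 532535) (nat_lit 9) (.e (nat_lit 335922) (nat_lit 0) (.e (nat_lit 1936) (nat_lit 132) (.e (nat_lit 622599) (nat_lit 5) (.e (nat_lit 1239) (nat_lit 91) .nil)))))))) (.g (nat_lit 4) .nil .nil))))) (.nd (nat_lit 4) (.nd (nat_lit 5) 
(.lf (nat_lit 216074) (.g (nat_lit 3135) (.e (nat_lit 90170) (nat_lit 13) (.e (nat_lit 172106) (nat_lit 10) (.e (nat_lit 434231) (nat_lit 23) (.e (nat_lit 532535) (nat_lit 9) (.e (nat_lit 335921) (nat_lit 0) (.e (nat_lit 1939) (nat_lit 132) (.e (nat_lit 622600) (nat_lit 5) (.e (nat_lit 1233) (nat_lit 91) .nil)))))))) (.g (nat_lit 4) .nil .nil))) 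
(.lf (nat_lit 216106) (.g (nat_lit 3607) (.e (nat_lit 90170) (nat_lit 13) (.e (nat_lit 172106) (nat_lit 10) (.e (nat_lit 434231) (nat_lit 23) (.e (nat_lit 532535) (nat_lit 9) (.e (nat_lit 335922) (nat_lit 0) (.e (nat_lit 992) (nat_lit 81) (.e (nat_lit 4780) (nat_lit 281) (.e (nat_lit 1010) (nat_lit 81) (.e (nat_lit 1239) (nat_lit 91) .nil))))))))) (.g (nat_lit 4) .nil .nil)))) (.nd (nat_lit 5) 
(.lf (nat_lit 216090) (.g (nat_lit 3866) (.e (nat_lit 90170) (nat_lit 13) (.e (nat_lit 172106) (nat_lit 10) (.e (nat_lit 434231) (nat_lit 23) (.e (nat_lit 532535) (nat_lit 9) (.e (nat_lit 335921) (nat_lit 0) (.e (nat_lit 1940) (nat_lit 132) (.e (nat_lit 630528) (nat_lit 5) (.e (nat_lit 1237) (nat_lit 91) .nil)))))))) (.g (nat_lit 4) .nil .nil))) 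
(.lf (nat_lit 216122) (.g (nat_lit 3345) (.e (nat_lit 90170) (nat_lit 13) (.e (nat_lit 172106) (nat_lit 10) (.e (nat_lit 434231) (nat_lit 23) (.e (nat_lit 532535) (nat_lit 9) (.e (nat_lit 335922) (nat_lit 0) (.e (nat_lit 1939) (nat_lit 132) (.e (nat_lit 622601) (nat_lit 5) (.e (nat_lit 1239) (nat_lit 91) .nil)))))))) (.g (nat_lit 4) .nil .nil)))))) 
(.nd (nat_lit 3) (.nd (nat_lit 4) (.nd (nat_lit 5) 
(.lf (nat_lit 216070) (.g (nat_lit 3380) (.e (nat_lit 90170) (nat_lit 13) (.e (nat_lit 172106) (nat_lit 10) (.e (nat_lit 434231) (nat_lit 23) (.e (nat_lit 532535) (nat_lit 9) (.e (nat_lit 335921) (nat_lit 0) (.e (nat_lit 1936) (nat_lit 132) (.e (nat_lit 630528) (nat_lit 5) (.e (nat_lit 1237) (nat_lit 91) .nil)))))))) (.g (nat_lit 4) .nil .nil))) 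
(.lf (nat_lit 216102) (.g (nat_lit 4729) (.e (nat_lit 90170) (nat_lit 13) (.e (nat_lit 172106) (nat_lit 10) (.e (nat_lit 434231) (nat_lit 23) (.e (nat_lit 532535) (nat_lit 9) (.e (nat_lit 335922) (nat_lit 0) (.e (nat_lit 989) (nat_lit 81) (.e (nat_lit 4842) (nat_lit 283) (.e (nat_lit 57373) (nat_lit 2) .nil)))))))) (.g (nat_lit 4) .nil .nil)))) (.nd (nat_lit 5) 
(.lf (nat_lit 216086) (.g (nat_lit 3719) (.e (nat_lit 90170) (nat_lit 13) (.e (nat_lit 172106) (nat_lit 10) (.e (nat_lit 434231) (nat_lit 23) (.e (nat_lit 532535) (nat_lit 9) (.e (nat_lit 335921) (nat_lit 0) (.e (nat_lit 1940) (nat_lit 132) (.e (nat_lit 622603) (nat_lit 5) (.e (nat_lit 1236) (nat_lit 91) .nil)))))))) (.g (nat_lit 4) .nil .nil))) 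
(.lf (nat_lit 216118) (.g (nat_lit 4384) (.e (nat_lit 90170) (nat_lit 13) (.e (nat_lit 172106) (nat_lit 10) (.e (nat_lit 434231) (nat_lit 23) (.e (nat_lit 532535) (nat_lit 9) (.e (nat_lit 335922) (nat_lit 0) (.e (nat_lit 1936) (nat_lit 132) (.e (nat_lit 622605) (nat_lit 5) (.e (nat_lit 1236) (nat_lit 91) .nil)))))))) (.g (nat_lit 4) .nil .nil))))) (.nd (nat_lit 4) (.nd (nat_lit 5) 
(.lf (nat_lit 216078) (.g (nat_lit 5115) (.e (nat_lit 90170) (nat_lit 13) (.e (nat_lit 172106) (nat_lit 10) (.e (nat_lit 434231) (nat_lit 23) (.e (nat_lit 532535) (nat_lit 9) (.e (nat_lit 335921) (nat_lit 0) (.e (nat_lit 1939) (nat_lit 132) (.e (nat_lit 622604) (nat_lit 5) (.e (nat_lit 1234) (nat_lit 91) .nil)))))))) (.g (nat_lit 4) .nil .nil))) 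
(.lf (nat_lit 216110) (.g (nat_lit 3638) (.e (nat_lit 90170) (nat_lit 13) (.e (nat_lit 172106) (nat_lit 10) (.e (nat_lit 434231) (nat_lit 23) (.e (nat_lit 532535) (nat_lit 9) (.e (nat_lit 335922) (nat_lit 0) (.e (nat_lit 993) (nat_lit 81) (.e (nat_lit 4780) (nat_lit 281) (.e (nat_lit 1011) (nat_lit 81) (.e (nat_lit 1239) (nat_lit 91) .nil))))))))) (.g (nat_lit 4) .nil .nil)))) (.nd (nat_lit 5) 
(.lf (nat_lit 216094) (.g (nat_lit 3804) (.e (nat_lit 90170) (nat_lit 13) (.e (nat_lit 172106) (nat_lit 10) (.e (nat_lit 434231) (nat_lit 23) (.e (nat_lit 532535) (nat_lit 9) (.e (nat_lit 335922) (nat_lit 0) (.e (nat_lit 988) (nat_lit 81) (.e (nat_lit 4841) (nat_lit 283) (.e (nat_lit 57373) (nat_lit 2) .nil)))))))) (.g (nat_lit 4) .nil .nil))) 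
(.lf (nat_lit 216126) (.g (nat_lit 3954) (.e (nat_lit 90170) (nat_lit 13) (.e (nat_lit 172106) (nat_lit 10) (.e (nat_lit 434231) (nat_lit 23) (.e (nat_lit 532535) (nat_lit 9) (.e (nat_lit 335922) (nat_lit 0) (.e (nat_lit 1939) (nat_lit 132) (.e (nat_lit 622605) (nat_lit 5) (.e (nat_lit 1234) (nat_lit 91) .nil)))))))) (.g (nat_lit 4) .nil .nil)))))))) 
(.nd (nat_lit 1) (.nd (nat_lit 2) (.nd (nat_lit 3) (.nd (nat_lit 4) (.nd (nat_lit 5) 
(.lf (nat_lit 216065) (.g (nat_lit 3443) (.e (nat_lit 90170) (nat_lit 13) (.e (nat_lit 172106) (nat_lit 10) (.e (nat_lit 434231) (nat_lit 23) (.e (nat_lit 532535) (nat_lit 9) (.e (nat_lit 335921) (nat_lit 0) (.e (nat_lit 1936) (nat_lit 132) (.e (nat_lit 622599) (nat_lit 5) (.e (nat_lit 1239) (nat_lit 91) .nil)))))))) (.g (nat_lit 4) .nil .nil))) 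
(.lf (nat_lit 216097) (.g (nat_lit 4338) (.e (nat_lit 90170) (nat_lit 13) (.e (nat_lit 172106) (nat_lit 10) (.e (nat_lit 434231) (nat_lit 23) (.e (nat_lit 532535) (nat_lit 9) (.e (nat_lit 335922) (nat_lit 0) (.e (nat_lit 988) (nat_lit 81) (.e (nat_lit 4842) (nat_lit 283) (.e (nat_lit 57374) (nat_lit 2) .nil)))))))) (.g (nat_lit 4) .nil .nil)))) (.nd (nat_lit 5) 
(.lf (nat_lit 216081) (.g (nat_lit 3337) (.e (nat_lit 90170) (nat_lit 13) (.e (nat_lit 172106) (nat_lit 10) (.e (nat_lit 434231) (nat_lit 23) (.e (nat_lit 532535) (nat_lit 9) (.e (nat_lit 335921) (nat_lit 0) (.e (nat_lit 1939) (nat_lit 132) (.e (nat_lit 630528) (nat_lit 5) (.e (nat_lit 1237) (nat_lit 91) .nil)))))))) (.g (nat_lit 4) .nil .nil))) 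
(.lf (nat_lit 216113) (.g (nat_lit 3523) (.e (nat_lit 90170) (nat_lit 13) (.e (nat_lit 172106) (nat_lit 10) (.e (nat_lit 434231) (nat_lit 23) (.e (nat_lit 532535) (nat_lit 9) (.e (nat_lit 335922) (nat_lit 0) (.e (nat_lit 1936) (nat_lit 132) (.e (nat_lit 622598) (nat_lit 5) (.e (nat_lit 1237) (nat_lit 91) .nil)))))))) (.g (nat_lit 4) .nil .nil))))) (.nd (nat_lit 4) (.nd (nat_lit 5) 
(.lf (nat_lit 216073) (.g (nat_lit 3687) (.e (nat_lit 90170) (nat_lit 13) (.e (nat_lit 172106) (nat_lit 10) (.e (nat_lit 434231) (nat_lit 23) (.e (nat_lit 532535) (nat_lit 9) (.e (nat_lit 335921) (nat_lit 0) (.e (nat_lit 1939) (nat_lit 132) (.e (nat_lit 622599) (nat_lit 5) (.e (nat_lit 1239) (nat_lit 91) .nil)))))))) (.g (nat_lit 4) .nil .nil))) 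
(.lf (nat_lit 216105) (.g (nat_lit 3299) (.e (nat_lit 90170) (nat_lit 13) (.e (nat_lit 172106) (nat_lit 10) (.e (nat_lit 434231) (nat_lit 23) (.e (nat_lit 532535) (nat_lit 9) (.e (nat_lit 335922) (nat_lit 0) (.e (nat_lit 992) (nat_lit 81) (.e (nat_lit 4767) (nat_lit 281) (.e (nat_lit 1084) (nat_lit 81) (.e (nat_lit 1235) (nat_lit 91) .nil))))))))) (.g (nat_lit 4) .nil .nil)))) (.nd (nat_lit 5) 
(.lf (nat_lit 216089) (.g (nat_lit 4346) (.e (nat_lit 90170) (nat_lit 13) (.e (nat_lit 172106) (nat_lit 10) (.e (nat_lit 434231) (nat_lit 23) (.e (nat_lit 532535) (nat_lit 9) (.e (nat_lit 335921) (nat_lit 0) (.e (nat_lit 1940) (nat_lit 132) (.e (nat_lit 622605) (nat_lit 5) (.e (nat_lit 1237) (nat_lit 91) .nil)))))))) (.g (nat_lit 4) .nil .nil))) 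
(.lf (nat_lit 216121) (.g (nat_lit 3203) (.e (nat_lit 90170) (nat_lit 13) (.e (nat_lit 172106) (nat_lit 10) (.e (nat_lit 434231) (nat_lit 23) (.e (nat_lit 532535) (nat_lit 9) (.e (nat_lit 335922) (nat_lit 0) (.e (nat_lit 1939) (nat_lit 132) (.e (nat_lit 622599) (nat_lit 5) (.e (nat_lit 1239) (nat_lit 91) .nil)))))))) (.g (nat_lit 4) .nil .nil)))))) 
(.nd (nat_lit 3) (.nd (nat_lit 4) (.nd (nat_lit 5) 
(.lf (nat_lit 216069) (.g (nat_lit 4516) (.e (nat_lit 90170) (nat_lit 13) (.e (nat_lit 172106) (nat_lit 10) (.e (nat_lit 434231) (nat_lit 23) (.e (nat_lit 532535) (nat_lit 9) (.e (nat_lit 335921) (nat_lit 0) (.e (nat_lit 1936) (nat_lit 132) (.e (nat_lit 622605) (nat_lit 5) (.e (nat_lit 1236) (nat_lit 91) .nil)))))))) (.g (nat_lit 4) .nil .nil))) 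
(.lf (nat_lit 216101) (.g (nat_lit 4852) (.e (nat_lit 90170) (nat_lit 13) (.e (nat_lit 172106) (nat_lit 10) (.e (nat_lit 434231) (nat_lit 23) (.e (nat_lit 532535) (nat_lit 9) (.e (nat_lit 335922) (nat_lit 0) (.e (nat_lit 989) (nat_lit 81) (.e (nat_lit 4841) (nat_lit 283) (.e (nat_lit 57374) (nat_lit 2) .nil)))))))) (.g (nat_lit 4) .nil .nil)))) (.nd (nat_lit 5) 
(.lf (nat_lit 216085) (.g (nat_lit 3372) (.e (nat_lit 90170) (nat_lit 13) (.e (nat_lit 172106) (nat_lit 10) (.e (nat_lit 434231) (nat_lit 23) (.e (nat_lit 532535) (nat_lit 9) (.e (nat_lit 335921) (nat_lit 0) (.e (nat_lit 1940) (nat_lit 132) (.e (nat_lit 622601) (nat_lit 5) (.e (nat_lit 1233) (nat_lit 91) .nil)))))))) (.g (nat_lit 4) .nil .nil))) 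
(.lf (nat_lit 216117) (.g (nat_lit 5047) (.e (nat_lit 90170) (nat_lit 13) (.e (nat_lit 172106) (nat_lit 10) (.e (nat_lit 434231) (nat_lit 23) (.e (nat_lit 532535) (nat_lit 9) (.e (nat_lit 335922) (nat_lit 0) (.e (nat_lit 1936) (nat_lit 132) (.e (nat_lit 622604) (nat_lit 5) (.e (nat_lit 1234) (nat_lit 91) .nil)))))))) (.g (nat_lit 4) .nil .nil))))) (.nd (nat_lit 4) (.nd (nat_lit 5) 
(.lf (nat_lit 216077) (.g (nat_lit 4984) (.e (nat_lit 90170) (nat_lit 13) (.e (nat_lit 172106) (nat_lit 10) (.e (nat_lit 434231) (nat_lit 23) (.e (nat_lit 532535) (nat_lit 9) (.e (nat_lit 335921) (nat_lit 0) (.e (nat_lit 1939) (nat_lit 132) (.e (nat_lit 622603) (nat_lit 5) (.e (nat_lit 1234) (nat_lit 91) .nil)))))))) (.g (nat_lit 4) .nil .nil))) 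
(.lf (nat_lit 216109) (.g (nat_lit 3612) (.e (nat_lit 90170) (nat_lit 13) (.e (nat_lit 172106) (nat_lit 10) (.e (nat_lit 434231) (nat_lit 23) (.e (nat_lit 532535) (nat_lit 9) (.e (nat_lit 335922) (nat_lit 0) (.e (nat_lit 992) (nat_lit 81) (.e (nat_lit 4843) (nat_lit 284) (.e (nat_lit 122891) (nat_lit 2) .nil)))))))) (.g (nat_lit 4) .nil .nil)))) (.nd (nat_lit 5) 
(.lf (nat_lit 216093) (.g (nat_lit 3301) (.e (nat_lit 90170) (nat_lit 13) (.e (nat_lit 172106) (nat_lit 10) (.e (nat_lit 434231) (nat_lit 23) (.e (nat_lit 532535) (nat_lit 9) (.e (nat_lit 335922) (nat_lit 0) (.e (nat_lit 988) (nat_lit 81) (.e (nat_lit 4780) (nat_lit 281) (.e (nat_lit 1010) (nat_lit 81) (.e (nat_lit 1239) (nat_lit 91) .nil))))))))) (.g (nat_lit 4) .nil .nil))) 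
(.lf (nat_lit 216125) (.g (nat_lit 4631) (.e (nat_lit 90170) (nat_lit 13) (.e (nat_lit 172106) (nat_lit 10) (.e (nat_lit 434231) (nat_lit 23) (.e (nat_lit 532535) (nat_lit 9) (.e (nat_lit 335922) (nat_lit 0) (.e (nat_lit 1939) (nat_lit 132) (.e (nat_lit 622604) (nat_lit 5) (.e (nat_lit 1234) (nat_lit 91) .nil)))))))) (.g (nat_lit 4) .nil .nil))))))) 
(.nd (nat_lit 2) (.nd (nat_lit 3) (.nd (nat_lit 4) (.nd (nat_lit 5) 
(.lf (nat_lit 216067) (.g (nat_lit 4398) (.e (nat_lit 90170) (nat_lit 13) (.e (nat_lit 172106) (nat_lit 10) (.e (nat_lit 434231) (nat_lit 23) (.e (nat_lit 532535) (nat_lit 9) (.e (nat_lit 335921) (nat_lit 0) (.e (nat_lit 1936) (nat_lit 132) (.e (nat_lit 622603) (nat_lit 5) (.e (nat_lit 1234) (nat_lit 91) .nil)))))))) (.g (nat_lit 4) .nil .nil))) 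
(.lf (nat_lit 216099) (.g (nat_lit 4808) (.e (nat_lit 90170) (nat_lit 13) (.e (nat_lit 172106) (nat_lit 10) (.e (nat_lit 434231) (nat_lit 23) (.e (nat_lit 532535) (nat_lit 9) (.e (nat_lit 335922) (nat_lit 0) (.e (nat_lit 989) (nat_lit 81) (.e (nat_lit 4801) (nat_lit 281) (.e (nat_lit 1039) (nat_lit 81) (.e (nat_lit 1234) (nat_lit 91) .nil))))))))) (.g (nat_lit 4) .nil .nil)))) (.nd (nat_lit 5) 
(.lf (nat_lit 216083) (.g (nat_lit 3143) (.e (nat_lit 90170) (nat_lit 13) (.e (nat_lit 172106) (nat_lit 10) (.e (nat_lit 434231) (nat_lit 23) (.e (nat_lit 532535) (nat_lit 9) (.e (nat_lit 335921) (nat_lit 0) (.e (nat_lit 1940) (nat_lit 132) (.e (nat_lit 622599) (nat_lit 5) (.e (nat_lit 1233) (nat_lit 91) .nil)))))))) (.g (nat_lit 4) .nil .nil))) 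
(.lf (nat_lit 216115) (.g (nat_lit 3537) (.e (nat_lit 90170) (nat_lit 13) (.e (nat_lit 172106) (nat_lit 10) (.e (nat_lit 434231) (nat_lit 23) (.e (nat_lit 532535) (nat_lit 9) (.e (nat_lit 335922) (nat_lit 0) (.e (nat_lit 1936) (nat_lit 132) (.e (nat_lit 622600) (nat_lit 5) (.e (nat_lit 1233) (nat_lit 91) .nil)))))))) (.g (nat_lit 4) .nil .nil))))) (.nd (nat_lit 4) (.nd (nat_lit 5) 
(.lf (nat_lit 216075) (.g (nat_lit 3511) (.e (nat_lit 90170) (nat_lit 13) (.e (nat_lit 172106) (nat_lit 10) (.e (nat_lit 434231) (nat_lit 23) (.e (nat_lit 532535) (nat_lit 9) (.e (nat_lit 335921) (nat_lit 0) (.e (nat_lit 1939) (nat_lit 132) (.e (nat_lit 622600) (nat_lit 5) (.e (nat_lit 1239) (nat_lit 91) .nil)))))))) (.g (nat_lit 4) .nil .nil))) 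
(.lf (nat_lit 216107) (.g (nat_lit 3770) (.e (nat_lit 90170) (nat_lit 13) (.e (nat_lit 172106) (nat_lit 10) (.e (nat_lit 434231) (nat_lit 23) (.e (nat_lit 532535) (nat_lit 9) (.e (nat_lit 335922) (nat_lit 0) (.e (nat_lit 992) (nat_lit 81) (.e (nat_lit 4780) (nat_lit 281) (.e (nat_lit 1039) (nat_lit 81) (.e (nat_lit 1234) (nat_lit 91) .nil))))))))) (.g (nat_lit 4) .nil .nil)))) (.nd (nat_lit 5) 
(.lf (nat_lit 216091) (.g (nat_lit 4422) (.e (nat_lit 90170) (nat_lit 13) (.e (nat_lit 172106) (nat_lit 10) (.e (nat_lit 434231) (nat_lit 23) (.e (nat_lit 532535) (nat_lit 9) (.e (nat_lit 335922) (nat_lit 0) (.e (nat_lit 982) (nat_lit 81) (.e (nat_lit 4842) (nat_lit 283) (.e (nat_lit 57373) (nat_lit 2) .nil)))))))) (.g (nat_lit 4) .nil .nil))) 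
(.lf (nat_lit 216123) (.g (nat_lit 3266) (.e (nat_lit 90170) (nat_lit 13) (.e (nat_lit 172106) (nat_lit 10) (.e (nat_lit 434231) (nat_lit 23) (.e (nat_lit 532535) (nat_lit 9) (.e (nat_lit 335922) (nat_lit 0) (.e (nat_lit 1939) (nat_lit 132) (.e (nat_lit 622602) (nat_lit 5) (.e (nat_lit 1239) (nat_lit 91) .nil)))))))) (.g (nat_lit 4) .nil .nil)))))) 
(.nd (nat_lit 3) (.nd (nat_lit 4) (.nd (nat_lit 5) 
(.lf (nat_lit 216071) (.g (nat_lit 4418) (.e (nat_lit 90170) (nat_lit 13) (.e (nat_lit 172106) (nat_lit 10) (.e (nat_lit 434231) (nat_lit 23) (.e (nat_lit 532535) (nat_lit 9) (.e (nat_lit 335921) (nat_lit 0) (.e (nat_lit 1939) (nat_lit 132) (.e (nat_lit 622598) (nat_lit 5) (.e (nat_lit 1234) (nat_lit 91) .nil)))))))) (.g (nat_lit 4) .nil .nil))) 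
(.lf (nat_lit 216103) (.g (nat_lit 4922) (.e (nat_lit 90170) (nat_lit 13) (.e (nat_lit 172106) (nat_lit 10) (.e (nat_lit 434231) (nat_lit 23) (.e (nat_lit 532535) (nat_lit 9) (.e (nat_lit 335922) (nat_lit 0) (.e (nat_lit 989) (nat_lit 81) (.e (nat_lit 4842) (nat_lit 283) (.e (nat_lit 57374) (nat_lit 2) .nil)))))))) (.g (nat_lit 4) .nil .nil)))) (.nd (nat_lit 5) 
(.lf (nat_lit 216087) (.g (nat_lit 4033) (.e (nat_lit 90170) (nat_lit 13) (.e (nat_lit 172106) (nat_lit 10) (.e (nat_lit 434231) (nat_lit 23) (.e (nat_lit 532535) (nat_lit 9) (.e (nat_lit 335921) (nat_lit 0) (.e (nat_lit 1940) (nat_lit 132) (.e (nat_lit 622604) (nat_lit 5) (.e (nat_lit 1237) (nat_lit 91) .nil)))))))) (.g (nat_lit 4) .nil .nil))) 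
(.lf (nat_lit 216119) (.g (nat_lit 3254) (.e (nat_lit 90170) (nat_lit 13) (.e (nat_lit 172106) (nat_lit 10) (.e (nat_lit 434231) (nat_lit 23) (.e (nat_lit 532535) (nat_lit 9) (.e (nat_lit 335922) (nat_lit 0) (.e (nat_lit 1936) (nat_lit 132) (.e (nat_lit 630528) (nat_lit 5) (.e (nat_lit 1237) (nat_lit 91) .nil)))))))) (.g (nat_lit 4) .nil .nil))))) (.nd (nat_lit 4) (.nd (nat_lit 5) 
(.lf (nat_lit 216079) (.g (nat_lit 4438) (.e (nat_lit 90170) (nat_lit 13) (.e (nat_lit 172106) (nat_lit 10) (.e (nat_lit 434231) (nat_lit 23) (.e (nat_lit 532535) (nat_lit 9) (.e (nat_lit 335921) (nat_lit 0) (.e (nat_lit 1939) (nat_lit 132) (.e (nat_lit 622605) (nat_lit 5) (.e (nat_lit 1234) (nat_lit 91) .nil)))))))) (.g (nat_lit 4) .nil .nil))) 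
(.lf (nat_lit 216111) (.g (nat_lit 4092) (.e (nat_lit 90170) (nat_lit 13) (.e (nat_lit 172106) (nat_lit 10) (.e (nat_lit 434231) (nat_lit 23) (.e (nat_lit 532535) (nat_lit 9) (.e (nat_lit 335922) (nat_lit 0) (.e (nat_lit 1003) (nat_lit 81) (.e (nat_lit 4797) (nat_lit 281) (.e (nat_lit 1039) (nat_lit 81) (.e (nat_lit 1234) (nat_lit 91) .nil))))))))) (.g (nat_lit 4) .nil .nil)))) (.nd (nat_lit 5) 
(.lf (nat_lit 216095) (.g (nat_lit 4198) (.e (nat_lit 90170) (nat_lit 13) (.e (nat_lit 172106) (nat_lit 10) (.e (nat_lit 434231) (nat_lit 23) (.e (nat_lit 532535) (nat_lit 9) (.e (nat_lit 335922) (nat_lit 0) (.e (nat_lit 988) (nat_lit 81) (.e (nat_lit 4841) (nat_lit 283) (.e (nat_lit 57374) (nat_lit 2) .nil)))))))) (.g (nat_lit 4) .nil .nil))) 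
(.lf (nat_lit 216127) (.g (nat_lit 5225) (.e (nat_lit 90170) (nat_lit 13) (.e (nat_lit 172106) (nat_lit 10) (.e (nat_lit 434231) (nat_lit 23) (.e (nat_lit 532535) (nat_lit 9) (.e (nat_lit 335922) (nat_lit 0) (.e (nat_lit 1940) (nat_lit 132) (.e (nat_lit 622598) (nat_lit 5) (.e (nat_lit 1234) (nat_lit 91) .nil)))))))) (.g (nat_lit 4) .nil .nil)))))))))

noncomputable def tv2841 : DT := (.nd (nat_lit 0) (.nd (nat_lit 1) (.nd (nat_lit 2) (.nd (nat_lit 3) (.nd (nat_lit 4) (.nd (nat_lit 5) 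
(.lf (nat_lit 216128) (.g (nat_lit 3436) (.e (nat_lit 90170) (nat_lit 13) (.e (nat_lit 172106) (nat_lit 10) (.e (nat_lit 434231) (nat_lit 23) (.e (nat_lit 532535) (nat_lit 9) (.e (nat_lit 335922) (nat_lit 0) (.e (nat_lit 1940) (nat_lit 132) (.e (nat_lit 622598) (nat_lit 5) (.e (nat_lit 1237) (nat_lit 91) .nil)))))))) (.g (nat_lit 4) .nil .nil))) 
(.lf (nat_lit 216160) (.g (nat_lit 2440) (.e (nat_lit 90170) (nat_lit 13) (.e (nat_lit 172106) (nat_lit 10) (.e (nat_lit 434231) (nat_lit 23) (.e (nat_lit 532535) (nat_lit 9) (.e (nat_lit 335925) (nat_lit 0) (.e (nat_lit 993) (nat_lit 81) (.e (nat_lit 5592) (nat_lit 310) (.e (nat_lit 171776) (nat_lit 63) .nil)))))))) (.g (nat_lit 4) .nil .nil)))) (.nd (nat_lit 5) 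
(.lf (nat_lit 216144) (.g (nat_lit 3556) (.e (nat_lit 90170) (nat_lit 13) (.e (nat_lit 172106) (nat_lit 10) (.e (nat_lit 434231) (nat_lit 23) (.e (nat_lit 532535) (nat_lit 9) (.e (nat_lit 335925) (nat_lit 0) (.e (nat_lit 988) (nat_lit 81) (.e (nat_lit 4842) (nat_lit 283) (.e (nat_lit 57374) (nat_lit 2) .nil)))))))) (.g (nat_lit 4) .nil .nil))) 
(.lf (nat_lit 216176) (.g (nat_lit 3931) (.e (nat_lit 90170) (nat_lit 13) (.e (nat_lit 172106) (nat_lit 10) (.e (nat_lit 434231) (nat_lit 23) (.e (nat_lit 532535) (nat_lit 9) (.e (nat_lit 335927) (nat_lit 0) (.e (nat_lit 982) (nat_lit 81) (.e (nat_lit 4842) (nat_lit 283) (.e (nat_lit 57374) (nat_lit 2) .nil)))))))) (.g (nat_lit 4) .nil .nil))))) (.nd (nat_lit 4) (.nd (nat_lit 5) 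
(.lf (nat_lit 216136) (.g (nat_lit 3712) (.e (nat_lit 90170) (nat_lit 13) (.e (nat_lit 172106) (nat_lit 10) (.e (nat_lit 434231) (nat_lit 23) (.e (nat_lit 532535) (nat_lit 9) (.e (nat_lit 335923) (nat_lit 0) (.e (nat_lit 1936) (nat_lit 132) (.e (nat_lit 622605) (nat_lit 5) (.e (nat_lit 1234) (nat_lit 91) .nil)))))))) (.g (nat_lit 4) .nil .nil))) 
(.lf (nat_lit 216168) (.g (nat_lit 2470) (.e (nat_lit 90170) (nat_lit 13) (.e (nat_lit 172106) (nat_lit 10) (.e (nat_lit 434231) (nat_lit 23) (.e (nat_lit 532535) (nat_lit 9) (.e (nat_lit 335925) (nat_lit 0) (.e (nat_lit 1941) (nat_lit 132) (.e (nat_lit 622598) (nat_lit 5) (.e (nat_lit 1236) (nat_lit 91) .nil)))))))) (.g (nat_lit 4) .nil .nil)))) (.nd (nat_lit 5) 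
(.lf (nat_lit 216152) (.g (nat_lit 2925) (.e (nat_lit 90170) (nat_lit 13) (.e (nat_lit 172106) (nat_lit 10) (.e (nat_lit 434231) (nat_lit 23) (.e (nat_lit 532535) (nat_lit 9) (.e (nat_lit 335925) (nat_lit 0) (.e (nat_lit 990) (nat_lit 81) (.e (nat_lit 4752) (nat_lit 281) (.e (nat_lit 1028) (nat_lit 81) (.e (nat_lit 1237) (nat_lit 91) .nil))))))))) (.g (nat_lit 4) .nil .nil))) 
(.lf (nat_lit 216184) (.g (nat_lit 3485) (.e (nat_lit 90170) (nat_lit 13) (.e (nat_lit 172106) (nat_lit 10) (.e (nat_lit 434231) (nat_lit 23) (.e (nat_lit 532535) (nat_lit 9) (.e (nat_lit 335927) (nat_lit 0) (.e (nat_lit 992) (nat_lit 81) (.e (nat_lit 4780) (nat_lit 281) (.e (nat_lit 1011) (nat_lit 81) (.e (nat_lit 1239) (nat_lit 91) .nil))))))))) (.g (nat_lit 4) .nil .nil)))))) 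
(.nd (nat_lit 3) (.nd (nat_lit 4) (.nd (nat_lit 5) 
(.lf (nat_lit 216132) (.g (nat_lit 3408) (.e (nat_lit 90170) (nat_lit 13) (.e (nat_lit 172106) (nat_lit 10) (.e (nat_lit 434231) (nat_lit 23) (.e (nat_lit 532535) (nat_lit 9) (.e (nat_lit 335922) (nat_lit 0) (.e (nat_lit 1940) (nat_lit 132) (.e (nat_lit 622604) (nat_lit 5) (.e (nat_lit 1237) (nat_lit 91) .nil)))))))) (.g (nat_lit 4) .nil .nil))) 
(.lf (nat_lit 216164) (.g (nat_lit 2846) (.e (nat_lit 90170) (nat_lit 13) (.e (nat_lit 172106) (nat_lit 10) (.e (nat_lit 434231) (nat_lit 23) (.e (nat_lit 532535) (nat_lit 9) (.e (nat_lit 335925) (nat_lit 0) (.e (nat_lit 1940) (nat_lit 132) (.e (nat_lit 622603) (nat_lit 5) (.e (nat_lit 1236) (nat_lit 91) .nil)))))))) (.g (nat_lit 4) .nil .nil)))) (.nd (nat_lit 5) 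
(.lf (nat_lit 216148) (.g (nat_lit 3061) (.e (nat_lit 90170) (nat_lit 13) (.e (nat_lit 172106) (nat_lit 10) (.e (nat_lit 434231) (nat_lit 23) (.e (nat_lit 532535) (nat_lit 9) (.e (nat_lit 335925) (nat_lit 0) (.e (nat_lit 989) (nat_lit 81) (.e (nat_lit 4801) (nat_lit 281) (.e (nat_lit 1039) (nat_lit 81) (.e (nat_lit 1237) (nat_lit 91) .nil))))))))) (.g (nat_lit 4) .nil .nil))) 
(.lf (nat_lit 216180) (.g (nat_lit 3762) (.e (nat_lit 90170) (nat_lit 13) (.e (nat_lit 172106) (nat_lit 10) (.e (nat_lit 434231) (nat_lit 23) (.e (nat_lit 532535) (nat_lit 9) (.e (nat_lit 335927) (nat_lit 0) (.e (nat_lit 989) (nat_lit 81) (.e (nat_lit 4841) (nat_lit 283) (.e (nat_lit 57373) (nat_lit 2) .nil)))))))) (.g (nat_lit 4) .nil .nil))))) (.nd (nat_lit 4) (.nd (nat_lit 5) 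
(.lf (nat_lit 216140) (.g (nat_lit 3748) (.e (nat_lit 90170) (nat_lit 13) (.e (nat_lit 172106) (nat_lit 10) (.e (nat_lit 434231) (nat_lit 23) (.e (nat_lit 532535) (nat_lit 9) (.e (nat_lit 335924) (nat_lit 0) (.e (nat_lit 1939) (nat_lit 132) (.e (nat_lit 622604) (nat_lit 5) (.e (nat_lit 1234) (nat_lit 91) .nil)))))))) (.g (nat_lit 4) .nil .nil))) 
(.lf (nat_lit 216172) (.g (nat_lit 3181) (.e (nat_lit 90170) (nat_lit 13) (.e (nat_lit 172106) (nat_lit 10) (.e (nat_lit 434231) (nat_lit 23) (.e (nat_lit 532535) (nat_lit 9) (.e (nat_lit 335925) (nat_lit 0) (.e (nat_lit 1941) (nat_lit 132) (.e (nat_lit 622604) (nat_lit 5) (.e (nat_lit 1237) (nat_lit 91) .nil)))))))) (.g (nat_lit 4) .nil .nil)))) (.nd (nat_lit 5) 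
(.lf (nat_lit 216156) (.g (nat_lit 2791) (.e (nat_lit 90170) (nat_lit 13) (.e (nat_lit 172106) (nat_lit 10) (.e (nat_lit 434231) (nat_lit 23) (.e (nat_lit 532535) (nat_lit 9) (.e (nat_lit 335925) (nat_lit 0) (.e (nat_lit 992) (nat_lit 81) (.e (nat_lit 4843) (nat_lit 284) (.e (nat_lit 122891) (nat_lit 2) .nil)))))))) (.g (nat_lit 4) .nil .nil))) 
(.lf (nat_lit 216188) (.g (nat_lit 3640) (.e (nat_lit 90170) (nat_lit 13) (.e (nat_lit 172106) (nat_lit 10) (.e (nat_lit 434231) (nat_lit 23) (.e (nat_lit 532535) (nat_lit 9) (.e (nat_lit 335927) (nat_lit 0) (.e (nat_lit 1936) (nat_lit 132) (.e (nat_lit 622600) (nat_lit 5) (.e (nat_lit 1239) (nat_lit 91) .nil)))))))) (.g (nat_lit 4) .nil .nil))))))) 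
(.nd (nat_lit 2) (.nd (nat_lit 3) (.nd (nat_lit 4) (.nd (nat_lit 5) 
(.lf (nat_lit 216130) (.g (nat_lit 3673) (.e (nat_lit 90170) (nat_lit 13) (.e (nat_lit 172106) (nat_lit 10) (.e (nat_lit 434231) (nat_lit 23) (.e (nat_lit 532535) (nat_lit 9) (.e (nat_lit 335922) (nat_lit 0) (.e (nat_lit 1940) (nat_lit 132) (.e (nat_lit 622600) (nat_lit 5) (.e (nat_lit 1239) (nat_lit 91) .nil)))))))) (.g (nat_lit 4) .nil .nil))) 
(.lf (nat_lit 216162) (.g (nat_lit 3192) (.e (nat_lit 90170) (nat_lit 13) (.e (nat_lit 172106) (nat_lit 10) (.e (nat_lit 434231) (nat_lit 23) (.e (nat_lit 532535) (nat_lit 9) (.e (nat_lit 335925) (nat_lit 0) (.e (nat_lit 1940) (nat_lit 132) (.e (nat_lit 622598) (nat_lit 5) (.e (nat_lit 1237) (nat_lit 91) .nil)))))))) (.g (nat_lit 4) .nil .nil)))) (.nd (nat_lit 5) 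
(.lf (nat_lit 216146) (.g (nat_lit 2496) (.e (nat_lit 90170) (nat_lit 13) (.e (nat_lit 172106) (nat_lit 10) (.e (nat_lit 434231) (nat_lit 23) (.e (nat_lit 532535) (nat_lit 9) (.e (nat_lit 335925) (nat_lit 0) (.e (nat_lit 988) (nat_lit 81) (.e (nat_lit 4843) (nat_lit 284) (.e (nat_lit 122891) (nat_lit 2) .nil)))))))) (.g (nat_lit 4) .nil .nil))) 
(.lf (nat_lit 216178) (.g (nat_lit 3659) (.e (nat_lit 90170) (nat_lit 13) (.e (nat_lit 172106) (nat_lit 10) (.e (nat_lit 434231) (nat_lit 23) (.e (nat_lit 532535) (nat_lit 9) (.e (nat_lit 335927) (nat_lit 0) (.e (nat_lit 988) (nat_lit 81) (.e (nat_lit 4842) (nat_lit 283) (.e (nat_lit 57374) (nat_lit 2) .nil)))))))) (.g (nat_lit 4) .nil .nil))))) (.nd (nat_lit 4) (.nd (nat_lit 5) 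
(.lf (nat_lit 216138) (.g (nat_lit 4449) (.e (nat_lit 90170) (nat_lit 13) (.e (nat_lit 172106) (nat_lit 10) (.e (nat_lit 434231) (nat_lit 23) (.e (nat_lit 532535) (nat_lit 9) (.e (nat_lit 335924) (nat_lit 0) (.e (nat_lit 1936) (nat_lit 132) (.e (nat_lit 622605) (nat_lit 5) (.e (nat_lit 1234) (nat_lit 91) .nil)))))))) (.g (nat_lit 4) .nil .nil))) 
(.lf (nat_lit 216170) (.g (nat_lit 3232) (.e (nat_lit 90170) (nat_lit 13) (.e (nat_lit 172106) (nat_lit 10) (.e (nat_lit 434231) (nat_lit 23) (.e (nat_lit 532535) (nat_lit 9) (.e (nat_lit 335925) (nat_lit 0) (.e (nat_lit 1941) (nat_lit 132) (.e (nat_lit 622600) (nat_lit 5) (.e (nat_lit 1233) (nat_lit 91) .nil)))))))) (.g (nat_lit 4) .nil .nil)))) (.nd (nat_lit 5) 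
(.lf (nat_lit 216154) (.g (nat_lit 2955) (.e (nat_lit 90170) (nat_lit 13) (.e (nat_lit 172106) (nat_lit 10) (.e (nat_lit 434231) (nat_lit 23) (.e (nat_lit 532535) (nat_lit 9) (.e (nat_lit 335925) (nat_lit 0) (.e (nat_lit 991) (nat_lit 81) (.e (nat_lit 4841) (nat_lit 283) (.e (nat_lit 57369) (nat_lit 2) .nil)))))))) (.g (nat_lit 4) .nil .nil))) 
(.lf (nat_lit 216186) (.g (nat_lit 3250) (.e (nat_lit 90170) (nat_lit 13) (.e (nat_lit 172106) (nat_lit 10) (.e (nat_lit 434231) (nat_lit 23) (.e (nat_lit 532535) (nat_lit 9) (.e (nat_lit 335927) (nat_lit 0) (.e (nat_lit 1936) (nat_lit 132) (.e (nat_lit 622598) (nat_lit 5) (.e (nat_lit 1237) (nat_lit 91) .nil)))))))) (.g (nat_lit 4) .nil .nil)))))) 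
(.nd (nat_lit 3) (.nd (nat_lit 4) (.nd (nat_lit 5) 
(.lf (nat_lit 216134) (.g (nat_lit 3717) (.e (nat_lit 90170) (nat_lit 13) (.e (nat_lit 172106) (nat_lit 10) (.e (nat_lit 434231) (nat_lit 23) (.e (nat_lit 532535) (nat_lit 9) (.e (nat_lit 335922) (nat_lit 0) (.e (nat_lit 1940) (nat_lit 132) (.e (nat_lit 622605) (nat_lit 5) (.e (nat_lit 1237) (nat_lit 91) .nil)))))))) (.g (nat_lit 4) .nil .nil))) 
(.lf (nat_lit 216166) (.g (nat_lit 2583) (.e (nat_lit 90170) (nat_lit 13) (.e (nat_lit 172106) (nat_lit 10) (.e (nat_lit 434231) (nat_lit 23) (.e (nat_lit 532535) (nat_lit 9) (.e (nat_lit 335925) (nat_lit 0) (.e (nat_lit 1940) (nat_lit 132) (.e (nat_lit 622605) (nat_lit 5) (.e (nat_lit 1236) (nat_lit 91) .nil)))))))) (.g (nat_lit 4) .nil .nil)))) (.nd (nat_lit 5) 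
(.lf (nat_lit 216150) (.g (nat_lit 3348) (.e (nat_lit 90170) (nat_lit 13) (.e (nat_lit 172106) (nat_lit 10) (.e (nat_lit 434231) (nat_lit 23) (.e (nat_lit 532535) (nat_lit 9) (.e (nat_lit 335925) (nat_lit 0) (.e (nat_lit 989) (nat_lit 81) (.e (nat_lit 4841) (nat_lit 283) (.e (nat_lit 57369) (nat_lit 2) .nil)))))))) (.g (nat_lit 4) .nil .nil))) 
(.lf (nat_lit 216182) (.g (nat_lit 4003) (.e (nat_lit 90170) (nat_lit 13) (.e (nat_lit 172106) (nat_lit 10) (.e (nat_lit 434231) (nat_lit 23) (.e (nat_lit 532535) (nat_lit 9) (.e (nat_lit 335927) (nat_lit 0) (.e (nat_lit 989) (nat_lit 81) (.e (nat_lit 4842) (nat_lit 283) (.e (nat_lit 57373) (nat_lit 2) .nil)))))))) (.g (nat_lit 4) .nil .nil))))) (.nd (nat_lit 4) (.nd (nat_lit 5) 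
(.lf (nat_lit 216142) (.g (nat_lit 2357) (.e (nat_lit 90170) (nat_lit 13) (.e (nat_lit 172106) (nat_lit 10) (.e (nat_lit 434231) (nat_lit 23) (.e (nat_lit 532535) (nat_lit 9) (.e (nat_lit 335925) (nat_lit 0) (.e (nat_lit 982) (nat_lit 81) (.e (nat_lit 4843) (nat_lit 284) (.e (nat_lit 122890) (nat_lit 2) .nil)))))))) (.g (nat_lit 4) .nil .nil))) 
(.lf (nat_lit 216174) (.g (nat_lit 3223) (.e (nat_lit 90170) (nat_lit 13) (.e (nat_lit 172106) (nat_lit 10) (.e (nat_lit 434231) (nat_lit 23) (.e (nat_lit 532535) (nat_lit 9) (.e (nat_lit 335925) (nat_lit 0) (.e (nat_lit 1941) (nat_lit 132) (.e (nat_lit 630528) (nat_lit 5) (.e (nat_lit 1237) (nat_lit 91) .nil)))))))) (.g (nat_lit 4) .nil .nil)))) (.nd (nat_lit 5) 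
(.lf (nat_lit 216158) (.g (nat_lit 2847) (.e (nat_lit 90170) (nat_lit 13) (.e (nat_lit 172106) (nat_lit 10) (.e (nat_lit 434231) (nat_lit 23) (.e (nat_lit 532535) (nat_lit 9) (.e (nat_lit 335925) (nat_lit 0) (.e (nat_lit 993) (nat_lit 81) (.e (nat_lit 4787) (nat_lit 281) (.e (nat_lit 982) (nat_lit 81) (.e (nat_lit 1237) (nat_lit 91) .nil))))))))) (.g (nat_lit 4) .nil .nil))) 
(.lf (nat_lit 216190) (.g (nat_lit 3999) (.e (nat_lit 90170) (nat_lit 13) (.e (nat_lit 172106) (nat_lit 10) (.e (nat_lit 434231) (nat_lit 23) (.e (nat_lit 532535) (nat_lit 9) (.e (nat_lit 335927) (nat_lit 0) (.e (nat_lit 1936) (nat_lit 132) (.e (nat_lit 622603) (nat_lit 5) (.e (nat_lit 1234) (nat_lit 91) .nil)))))))) (.g (nat_lit 4) .nil .nil)))))))) 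
(.nd (nat_lit 1) (.nd (nat_lit 2) (.nd (nat_lit 3) (.nd (nat_lit 4) (.nd (nat_lit 5) 
(.lf (nat_lit 216129) (.g (nat_lit 3297) (.e (nat_lit 90170) (nat_lit 13) (.e (nat_lit 172106) (nat_lit 10) (.e (nat_lit 434231) (nat_lit 23) (.e (nat_lit 532535) (nat_lit 9) (.e (nat_lit 335922) (nat_lit 0) (.e (nat_lit 1940) (nat_lit 132) (.e (nat_lit 622600) (nat_lit 5) (.e (nat_lit 1233) (nat_lit 91) .nil)))))))) (.g (nat_lit 4) .nil .nil))) 
(.lf (nat_lit 216161) (.g (nat_lit 3273) (.e (nat_lit 90170) (nat_lit 13) (.e (nat_lit 172106) (nat_lit 10) (.e (nat_lit 434231) (nat_lit 23) (.e (nat_lit 532535) (nat_lit 9) (.e (nat_lit 335925) (nat_lit 0) (.e (nat_lit 1936) (nat_lit 132) (.e (nat_lit 622605) (nat_lit 5) (.e (nat_lit 1236) (nat_lit 91) .nil)))))))) (.g (nat_lit 4) .nil .nil)))) (.nd (nat_lit 5) 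
(.lf (nat_lit 216145) (.g (nat_lit 2328) (.e (nat_lit 90170) (nat_lit 13) (.e (nat_lit 172106) (nat_lit 10) (.e (nat_lit 434231) (nat_lit 23) (.e (nat_lit 532535) (nat_lit 9) (.e (nat_lit 335925) (nat_lit 0) (.e (nat_lit 988) (nat_lit 81) (.e (nat_lit 4843) (nat_lit 284) (.e (nat_lit 122890) (nat_lit 2) .nil)))))))) (.g (nat_lit 4) .nil .nil))) 
(.lf (nat_lit 216177) (.g (nat_lit 3205) (.e (nat_lit 90170) (nat_lit 13) (.e (nat_lit 172106) (nat_lit 10) (.e (nat_lit 434231) (nat_lit 23) (.e (nat_lit 532535) (nat_lit 9) (.e (nat_lit 335927) (nat_lit 0) (.e (nat_lit 988) (nat_lit 81) (.e (nat_lit 4780) (nat_lit 281) (.e (nat_lit 1011) (nat_lit 81) (.e (nat_lit 1239) (nat_lit 91) .nil))))))))) (.g (nat_lit 4) .nil .nil))))) 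
(.nd (nat_lit 4) (.nd (nat_lit 5) 
(.lf (nat_lit 216137) (.g (nat_lit 2703) (.e (nat_lit 90170) (nat_lit 13) (.e (nat_lit 172106) (nat_lit 10) (.e (nat_lit 434231) (nat_lit 23) (.e (nat_lit 532535) (nat_lit 9) (.e (nat_lit 335923) (nat_lit 0) (.e (nat_lit 1936) (nat_lit 132) (.e (nat_lit 622605) (nat_lit 5) (.e (nat_lit 1237) (nat_lit 91) .nil)))))))) (.g (nat_lit 4) .nil .nil))) 
(.lf (nat_lit 216169) (.g (nat_lit 2109) (.e (nat_lit 90170) (nat_lit 13) (.e (nat_lit 172106) (nat_lit 10) (.e (nat_lit 434231) (nat_lit 23) (.e (nat_lit 532535) (nat_lit 9) (.e (nat_lit 335925) (nat_lit 0) (.e (nat_lit 1941) (nat_lit 132) (.e (nat_lit 622600) (nat_lit 5) (.e (nat_lit 1225) (nat_lit 91) .nil)))))))) (.g (nat_lit 4) .nil .nil)))) (.nd (nat_lit 5) 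
(.lf (nat_lit 216153) (.g (nat_lit 2965) (.e (nat_lit 90170) (nat_lit 13) (.e (nat_lit 172106) (nat_lit 10) (.e (nat_lit 434231) (nat_lit 23) (.e (nat_lit 532535) (nat_lit 9) (.e (nat_lit 335925) (nat_lit 0) (.e (nat_lit 991) (nat_lit 81) (.e (nat_lit 4801) (nat_lit 281) (.e (nat_lit 1039) (nat_lit 81) (.e (nat_lit 1237) (nat_lit 91) .nil))))))))) (.g (nat_lit 4) .nil .nil))) 
(.lf (nat_lit 216185) (.g (nat_lit 5041) (.e (nat_lit 90170) (nat_lit 13) (.e (nat_lit 172106) (nat_lit 10) (.e (nat_lit 434231) (nat_lit 23) (.e (nat_lit 532535) (nat_lit 9) (.e (nat_lit 335927) (nat_lit 0) (.e (nat_lit 1936) (nat_lit 132) (.e (nat_lit 622598) (nat_lit 5) (.e (nat_lit 1234) (nat_lit 91) .nil)))))))) (.g (nat_lit 4) .nil .nil)))))) 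
(.nd (nat_lit 3) (.nd (nat_lit 4) (.nd (nat_lit 5) 
(.lf (nat_lit 216133) (.g (nat_lit 4669) (.e (nat_lit 90170) (nat_lit 13) (.e (nat_lit 172106) (nat_lit 10) (.e (nat_lit 434231) (nat_lit 23) (.e (nat_lit 532535) (nat_lit 9) (.e (nat_lit 335922) (nat_lit 0) (.e (nat_lit 1940) (nat_lit 132) (.e (nat_lit 622605) (nat_lit 5) (.e (nat_lit 1234) (nat_lit 91) .nil)))))))) (.g (nat_lit 4) .nil .nil))) 
(.lf (nat_lit 216165) (.g (nat_lit 3164) (.e (nat_lit 90170) (nat_lit 13) (.e (nat_lit 172106) (nat_lit 10) (.e (nat_lit 434231) (nat_lit 23) (.e (nat_lit 532535) (nat_lit 9) (.e (nat_lit 335925) (nat_lit 0) (.e (nat_lit 1940) (nat_lit 132) (.e (nat_lit 622604) (nat_lit 5) (.e (nat_lit 1237) (nat_lit 91) .nil)))))))) (.g (nat_lit 4) .nil .nil)))) (.nd (nat_lit 5) 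
(.lf (nat_lit 216149) (.g (nat_lit 2792) (.e (nat_lit 90170) (nat_lit 13) (.e (nat_lit 172106) (nat_lit 10) (.e (nat_lit 434231) (nat_lit 23) (.e (nat_lit 532535) (nat_lit 9) (.e (nat_lit 335925) (nat_lit 0) (.e (nat_lit 989) (nat_lit 81) (.e (nat_lit 4801) (nat_lit 281) (.e (nat_lit 1040) (nat_lit 81) (.e (nat_lit 1237) (nat_lit 91) .nil))))))))) (.g (nat_lit 4) .nil .nil))) 
(.lf (nat_lit 216181) (.g (nat_lit 4126) (.e (nat_lit 90170) (nat_lit 13) (.e (nat_lit 172106) (nat_lit 10) (.e (nat_lit 434231) (nat_lit 23) (.e (nat_lit 532535) (nat_lit 9) (.e (nat_lit 335927) (nat_lit 0) (.e (nat_lit 989) (nat_lit 81) (.e (nat_lit 4841) (nat_lit 283) (.e (nat_lit 57374) (nat_lit 2) .nil)))))))) (.g (nat_lit 4) .nil .nil))))) (.nd (nat_lit 4) (.nd (nat_lit 5) 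
(.lf (nat_lit 216141) (.g (nat_lit 3687) (.e (nat_lit 90170) (nat_lit 13) (.e (nat_lit 172106) (nat_lit 10) (.e (nat_lit 434231) (nat_lit 23) (.e (nat_lit 532535) (nat_lit 9) (.e (nat_lit 335924) (nat_lit 0) (.e (nat_lit 1940) (nat_lit 132) (.e (nat_lit 622604) (nat_lit 5) (.e (nat_lit 1234) (nat_lit 91) .nil)))))))) (.g (nat_lit 4) .nil .nil))) 
(.lf (nat_lit 216173) (.g (nat_lit 2792) (.e (nat_lit 90170) (nat_lit 13) (.e (nat_lit 172106) (nat_lit 10) (.e (nat_lit 434231) (nat_lit 23) (.e (nat_lit 532535) (nat_lit 9) (.e (nat_lit 335925) (nat_lit 0) (.e (nat_lit 1941) (nat_lit 132) (.e (nat_lit 622605) (nat_lit 5) (.e (nat_lit 1237) (nat_lit 91) .nil)))))))) (.g (nat_lit 4) .nil .nil)))) (.nd (nat_lit 5) 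
(.lf (nat_lit 216157) (.g (nat_lit 2658) (.e (nat_lit 90170) (nat_lit 13) (.e (nat_lit 172106) (nat_lit 10) (.e (nat_lit 434231) (nat_lit 23) (.e (nat_lit 532535) (nat_lit 9) (.e (nat_lit 335925) (nat_lit 0) (.e (nat_lit 993) (nat_lit 81) (.e (nat_lit 4761) (nat_lit 281) (.e (nat_lit 1085) (nat_lit 81) (.e (nat_lit 1235) (nat_lit 91) .nil))))))))) (.g (nat_lit 4) .nil .nil))) 
(.lf (nat_lit 216189) (.g (nat_lit 3705) (.e (nat_lit 90170) (nat_lit 13) (.e (nat_lit 172106) (nat_lit 10) (.e (nat_lit 434231) (nat_lit 23) (.e (nat_lit 532535) (nat_lit 9) (.e (nat_lit 335927) (nat_lit 0) (.e (nat_lit 1936) (nat_lit 132) (.e (nat_lit 622601) (nat_lit 5) (.e (nat_lit 1239) (nat_lit 91) .nil)))))))) (.g (nat_lit 4) .nil .nil))))))) 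
(.nd (nat_lit 2) (.nd (nat_lit 3) (.nd (nat_lit 4) (.nd (nat_lit 5) 
(.lf (nat_lit 216131) (.g (nat_lit 3734) (.e (nat_lit 90170) (nat_lit 13) (.e (nat_lit 172106) (nat_lit 10) (.e (nat_lit 434231) (nat_lit 23) (.e (nat_lit 532535) (nat_lit 9) (.e (nat_lit 335922) (nat_lit 0) (.e (nat_lit 1940) (nat_lit 132) (.e (nat_lit 622602) (nat_lit 5) (.e (nat_lit 1239) (nat_lit 91) .nil)))))))) (.g (nat_lit 4) .nil .nil))) 
(.lf (nat_lit 216163) (.g (nat_lit 3053) (.e (nat_lit 90170) (nat_lit 13) (.e (nat_lit 172106) (nat_lit 10) (.e (nat_lit 434231) (nat_lit 23) (.e (nat_lit 532535) (nat_lit 9) (.e (nat_lit 335925) (nat_lit 0) (.e (nat_lit 1940) (nat_lit 132) (.e (nat_lit 622600) (nat_lit 5) (.e (nat_lit 1233) (nat_lit 91) .nil)))))))) (.g (nat_lit 4) .nil .nil)))) (.nd (nat_lit 5) 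
(.lf (nat_lit 216147) (.g (nat_lit 3234) (.e (nat_lit 90170) (nat_lit 13) (.e (nat_lit 172106) (nat_lit 10) (.e (nat_lit 434231) (nat_lit 23) (.e (nat_lit 532535) (nat_lit 9) (.e (nat_lit 335925) (nat_lit 0) (.e (nat_lit 989) (nat_lit 81) (.e (nat_lit 4752) (nat_lit 281) (.e (nat_lit 1028) (nat_lit 81) (.e (nat_lit 1237) (nat_lit 91) .nil))))))))) (.g (nat_lit 4) .nil .nil))) 
(.lf (nat_lit 216179) (.g (nat_lit 4082) (.e (nat_lit 90170) (nat_lit 13) (.e (nat_lit 172106) (nat_lit 10) (.e (nat_lit 434231) (nat_lit 23) (.e (nat_lit 532535) (nat_lit 9) (.e (nat_lit 335927) (nat_lit 0) (.e (nat_lit 989) (nat_lit 81) (.e (nat_lit 4801) (nat_lit 281) (.e (nat_lit 1039) (nat_lit 81) (.e (nat_lit 1234) (nat_lit 91) .nil))))))))) (.g (nat_lit 4) .nil .nil))))) 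
(.nd (nat_lit 4) (.nd (nat_lit 5) 
(.lf (nat_lit 216139) (.g (nat_lit 3440) (.e (nat_lit 90170) (nat_lit 13) (.e (nat_lit 172106) (nat_lit 10) (.e (nat_lit 434231) (nat_lit 23) (.e (nat_lit 532535) (nat_lit 9) (.e (nat_lit 335924) (nat_lit 0) (.e (nat_lit 1936) (nat_lit 132) (.e (nat_lit 622605) (nat_lit 5) (.e (nat_lit 1237) (nat_lit 91) .nil)))))))) (.g (nat_lit 4) .nil .nil))) 
(.lf (nat_lit 216171) (.g (nat_lit 3024) (.e (nat_lit 90170) (nat_lit 13) (.e (nat_lit 172106) (nat_lit 10) (.e (nat_lit 434231) (nat_lit 23) (.e (nat_lit 532535) (nat_lit 9) (.e (nat_lit 335925) (nat_lit 0) (.e (nat_lit 1941) (nat_lit 132) (.e (nat_lit 622603) (nat_lit 5) (.e (nat_lit 1236) (nat_lit 91) .nil)))))))) (.g (nat_lit 4) .nil .nil)))) (.nd (nat_lit 5) 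
(.lf (nat_lit 216155) (.g (nat_lit 2623) (.e (nat_lit 90170) (nat_lit 13) (.e (nat_lit 172106) (nat_lit 10) (.e (nat_lit 434231) (nat_lit 23) (.e (nat_lit 532535) (nat_lit 9) (.e (nat_lit 335925) (nat_lit 0) (.e (nat_lit 992) (nat_lit 81) (.e (nat_lit 4843) (nat_lit 284) (.e (nat_lit 122890) (nat_lit 2) .nil)))))))) (.g (nat_lit 4) .nil .nil))) 
(.lf (nat_lit 216187) (.g (nat_lit 3264) (.e (nat_lit 90170) (nat_lit 13) (.e (nat_lit 172106) (nat_lit 10) (.e (nat_lit 434231) (nat_lit 23) (.e (nat_lit 532535) (nat_lit 9) (.e (nat_lit 335927) (nat_lit 0) (.e (nat_lit 1936) (nat_lit 132) (.e (nat_lit 622600) (nat_lit 5) (.e (nat_lit 1233) (nat_lit 91) .nil)))))))) (.g (nat_lit 4) .nil .nil)))))) 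
(.nd (nat_lit 3) (.nd (nat_lit 4) (.nd (nat_lit 5) 
(.lf (nat_lit 216135) (.g (nat_lit 3237) (.e (nat_lit 90170) (nat_lit 13) (.e (nat_lit 172106) (nat_lit 10) (.e (nat_lit 434231) (nat_lit 23) (.e (nat_lit 532535) (nat_lit 9) (.e (nat_lit 335922) (nat_lit 0) (.e (nat_lit 1940) (nat_lit 132) (.e (nat_lit 630528) (nat_lit 5) (.e (nat_lit 1237) (nat_lit 91) .nil)))))))) (.g (nat_lit 4) .nil .nil))) 
(.lf (nat_lit 216167) (.g (nat_lit 2993) (.e (nat_lit 90170) (nat_lit 13) (.e (nat_lit 172106) (nat_lit 10) (.e (nat_lit 434231) (nat_lit 23) (.e (nat_lit 532535) (nat_lit 9) (.e (nat_lit 335925) (nat_lit 0) (.e (nat_lit 1940) (nat_lit 132) (.e (nat_lit 630528) (nat_lit 5) (.e (nat_lit 1237) (nat_lit 91) .nil)))))))) (.g (nat_lit 4) .nil .nil)))) (.nd (nat_lit 5) 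
(.lf (nat_lit 216151) (.g (nat_lit 3055) (.e (nat_lit 90170) (nat_lit 13) (.e (nat_lit 172106) (nat_lit 10) (.e (nat_lit 434231) (nat_lit 23) (.e (nat_lit 532535) (nat_lit 9) (.e (nat_lit 335925) (nat_lit 0) (.e (nat_lit 989) (nat_lit 81) (.e (nat_lit 4841) (nat_lit 283) (.e (nat_lit 57370) (nat_lit 2) .nil)))))))) (.g (nat_lit 4) .nil .nil))) 
(.lf (nat_lit 216183) (.g (nat_lit 4196) (.e (nat_lit 90170) (nat_lit 13) (.e (nat_lit 172106) (nat_lit 10) (.e (nat_lit 434231) (nat_lit 23) (.e (nat_lit 532535) (nat_lit 9) (.e (nat_lit 335927) (nat_lit 0) (.e (nat_lit 989) (nat_lit 81) (.e (nat_lit 4842) (nat_lit 283) (.e (nat_lit 57374) (nat_lit 2) .nil)))))))) (.g (nat_lit 4) .nil .nil))))) (.nd (nat_lit 4) (.nd (nat_lit 5) 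
(.lf (nat_lit 216143) (.g (nat_lit 2525) (.e (nat_lit 90170) (nat_lit 13) (.e (nat_lit 172106) (nat_lit 10) (.e (nat_lit 434231) (nat_lit 23) (.e (nat_lit 532535) (nat_lit 9) (.e (nat_lit 335925) (nat_lit 0) (.e (nat_lit 982) (nat_lit 81) (.e (nat_lit 4843) (nat_lit 284) (.e (nat_lit 122891) (nat_lit 2) .nil)))))))) (.g (nat_lit 4) .nil .nil))) 
(.lf (nat_lit 216175) (.g (nat_lit 3737) (.e (nat_lit 90170) (nat_lit 13) (.e (nat_lit 172106) (nat_lit 10) (.e (nat_lit 434231) (nat_lit 23) (.e (nat_lit 532535) (nat_lit 9) (.e (nat_lit 335927) (nat_lit 0) (.e (nat_lit 982) (nat_lit 81) (.e (nat_lit 4842) (nat_lit 283) (.e (nat_lit 57373) (nat_lit 2) .nil)))))))) (.g (nat_lit 4) .nil .nil)))) (.nd (nat_lit 5) 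
(.lf (nat_lit 216159) (.g (nat_lit 3968) (.e (nat_lit 90170) (nat_lit 13) (.e (nat_lit 172106) (nat_lit 10) (.e (nat_lit 434231) (nat_lit 23) (.e (nat_lit 532535) (nat_lit 9) (.e (nat_lit 335925) (nat_lit 0) (.e (nat_lit 993) (nat_lit 81) (.e (nat_lit 4843) (nat_lit 284) (.e (nat_lit 122890) (nat_lit 2) .nil)))))))) (.g (nat_lit 7) .nil .nil))) 
(.lf (nat_lit 216191) (.g (nat_lit 4774) (.e (nat_lit 90170) (nat_lit 13) (.e (nat_lit 172106) (nat_lit 10) (.e (nat_lit 434231) (nat_lit 23) (.e (nat_lit 532535) (nat_lit 9) (.e (nat_lit 335927) (nat_lit 0) (.e (nat_lit 1936) (nat_lit 132) (.e (nat_lit 622604) (nat_lit 5) (.e (nat_lit 1234) (nat_lit 91) .nil)))))))) (.g (nat_lit 4) .nil .nil)))))))))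

noncomputable def tv2842 : DT := (.nd (nat_lit 0) (.nd (nat_lit 1) (.nd (nat_lit 2) (.nd (nat_lit 3) (.nd (nat_lit 4) (.nd (nat_lit 5) 
(.lf (nat_lit 216192) (.g (nat_lit 4109) (.e (nat_lit 90170) (nat_lit 13) (.e (nat_lit 172106) (nat_lit 10) (.e (nat_lit 434231) (nat_lit 23) (.e (nat_lit 532535) (nat_lit 9) (.e (nat_lit 335927) (nat_lit 0) (.e (nat_lit 1936) (nat_lit 132) (.e (nat_lit 622605) (nat_lit 5) (.e (nat_lit 1236) (nat_lit 91) .nil)))))))) (.g (nat_lit 4) .nil .nil))) 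
(.lf (nat_lit 216224) (.g (nat_lit 3766) (.e (nat_lit 90170) (nat_lit 13) (.e (nat_lit 172106) (nat_lit 10) (.e (nat_lit 434231) (nat_lit 23) (.e (nat_lit 532535) (nat_lit 9) (.e (nat_lit 335929) (nat_lit 0) (.e (nat_lit 1936) (nat_lit 132) (.e (nat_lit 622601) (nat_lit 5) (.e (nat_lit 1239) (nat_lit 91) .nil)))))))) (.g (nat_lit 4) .nil .nil)))) (.nd (nat_lit 5) 
(.lf (nat_lit 216208) (.g (nat_lit 4914) (.e (nat_lit 90170) (nat_lit 13) (.e (nat_lit 172106) (nat_lit 10) (.e (nat_lit 434231) (nat_lit 23) (.e (nat_lit 532535) (nat_lit 9) (.e (nat_lit 335927) (nat_lit 0) (.e (nat_lit 1940) (nat_lit 132) (.e (nat_lit 622604) (nat_lit 5) (.e (nat_lit 1234) (nat_lit 91) .nil)))))))) (.g (nat_lit 4) .nil .nil))) 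
(.lf (nat_lit 216240) (.g (nat_lit 4075) (.e (nat_lit 90170) (nat_lit 13) (.e (nat_lit 172106) (nat_lit 10) (.e (nat_lit 434231) (nat_lit 23) (.e (nat_lit 532535) (nat_lit 9) (.e (nat_lit 335930) (nat_lit 0) (.e (nat_lit 1936) (nat_lit 132) (.e (nat_lit 622605) (nat_lit 5) (.e (nat_lit 1236) (nat_lit 91) .nil)))))))) (.g (nat_lit 4) .nil .nil))))) (.nd (nat_lit 4) (.nd (nat_lit 5) 
(.lf (nat_lit 216200) (.g (nat_lit 4823) (.e (nat_lit 90170) (nat_lit 13) (.e (nat_lit 172106) (nat_lit 10) (.e (nat_lit 434231) (nat_lit 23) (.e (nat_lit 532535) (nat_lit 9) (.e (nat_lit 335927) (nat_lit 0) (.e (nat_lit 1939) (nat_lit 132) (.e (nat_lit 622604) (nat_lit 5) (.e (nat_lit 1234) (nat_lit 91) .nil)))))))) (.g (nat_lit 4) .nil .nil))) 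
(.lf (nat_lit 216232) (.g (nat_lit 3922) (.e (nat_lit 90170) (nat_lit 13) (.e (nat_lit 172106) (nat_lit 10) (.e (nat_lit 434231) (nat_lit 23) (.e (nat_lit 532535) (nat_lit 9) (.e (nat_lit 335930) (nat_lit 0) (.e (nat_lit 1086) (nat_lit 81) (.e (nat_lit 5598) (nat_lit 310) (.e (nat_lit 171776) (nat_lit 63) .nil)))))))) (.g (nat_lit 4) .nil .nil)))) (.nd (nat_lit 5) 
(.lf (nat_lit 216216) (.g (nat_lit 4445) (.e (nat_lit 90170) (nat_lit 13) (.e (nat_lit 172106) (nat_lit 10) (.e (nat_lit 434231) (nat_lit 23) (.e (nat_lit 532535) (nat_lit 9) (.e (nat_lit 335929) (nat_lit 0) (.e (nat_lit 982) (nat_lit 81) (.e (nat_lit 4842) (nat_lit 283) (.e (nat_lit 57373) (nat_lit 2) .nil)))))))) (.g (nat_lit 4) .nil .nil))) 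
(.lf (nat_lit 216248) (.g (nat_lit 3774) (.e (nat_lit 90170) (nat_lit 13) (.e (nat_lit 172106) (nat_lit 10) (.e (nat_lit 434231) (nat_lit 23) (.e (nat_lit 532535) (nat_lit 9) (.e (nat_lit 335937) (nat_lit 0) (.e (nat_lit 988) (nat_lit 81) (.e (nat_lit 4780) (nat_lit 281) (.e (nat_lit 1011) (nat_lit 81) (.e (nat_lit 1239) (nat_lit 91) .nil))))))))) (.g (nat_lit 4) .nil .nil)))))) 
(.nd (nat_lit 3) (.nd (nat_lit 4) (.nd (nat_lit 5) 
(.lf (nat_lit 216196) (.g (nat_lit 3219) (.e (nat_lit 90170) (nat_lit 13) (.e (nat_lit 172106) (nat_lit 10) (.e (nat_lit 434231) (nat_lit 23) (.e (nat_lit 532535) (nat_lit 9) (.e (nat_lit 335927) (nat_lit 0) (.e (nat_lit 1939) (nat_lit 132) (.e (nat_lit 622600) (nat_lit 5) (.e (nat_lit 1239) (nat_lit 91) .nil)))))))) (.g (nat_lit 4) .nil .nil))) 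
(.lf (nat_lit 216228) (.g (nat_lit 4395) (.e (nat_lit 90170) (nat_lit 13) (.e (nat_lit 172106) (nat_lit 10) (.e (nat_lit 434231) (nat_lit 23) (.e (nat_lit 532535) (nat_lit 9) (.e (nat_lit 335930) (nat_lit 0) (.e (nat_lit 982) (nat_lit 81) (.e (nat_lit 4842) (nat_lit 283) (.e (nat_lit 57373) (nat_lit 2) .nil)))))))) (.g (nat_lit 4) .nil .nil)))) (.nd (nat_lit 5) 
(.lf (nat_lit 216212) (.g (nat_lit 4090) (.e (nat_lit 90170) (nat_lit 13) (.e (nat_lit 172106) (nat_lit 10) (.e (nat_lit 434231) (nat_lit 23) (.e (nat_lit 532535) (nat_lit 9) (.e (nat_lit 335927) (nat_lit 0) (.e (nat_lit 1941) (nat_lit 132) (.e (nat_lit 622604) (nat_lit 5) (.e (nat_lit 1234) (nat_lit 91) .nil)))))))) (.g (nat_lit 4) .nil .nil))) 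
(.lf (nat_lit 216244) (.g (nat_lit 3641) (.e (nat_lit 90170) (nat_lit 13) (.e (nat_lit 172106) (nat_lit 10) (.e (nat_lit 434231) (nat_lit 23) (.e (nat_lit 532535) (nat_lit 9) (.e (nat_lit 335937) (nat_lit 0) (.e (nat_lit 982) (nat_lit 81) (.e (nat_lit 4841) (nat_lit 283) (.e (nat_lit 57374) (nat_lit 2) .nil)))))))) (.g (nat_lit 4) .nil .nil))))) (.nd (nat_lit 4) (.nd (nat_lit 5) 
(.lf (nat_lit 216204) (.g (nat_lit 3694) (.e (nat_lit 90170) (nat_lit 13) (.e (nat_lit 172106) (nat_lit 10) (.e (nat_lit 434231) (nat_lit 23) (.e (nat_lit 532535) (nat_lit 9) (.e (nat_lit 335927) (nat_lit 0) (.e (nat_lit 1940) (nat_lit 132) (.e (nat_lit 622598) (nat_lit 5) (.e (nat_lit 1239) (nat_lit 91) .nil)))))))) (.g (nat_lit 4) .nil .nil))) 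
(.lf (nat_lit 216236) (.g (nat_lit 3597) (.e (nat_lit 90170) (nat_lit 13) (.e (nat_lit 172106) (nat_lit 10) (.e (nat_lit 434231) (nat_lit 23) (.e (nat_lit 532535) (nat_lit 9) (.e (nat_lit 335930) (nat_lit 0) (.e (nat_lit 1936) (nat_lit 132) (.e (nat_lit 622600) (nat_lit 5) (.e (nat_lit 1239) (nat_lit 91) .nil)))))))) (.g (nat_lit 4) .nil .nil)))) (.nd (nat_lit 5) 
(.lf (nat_lit 216220) (.g (nat_lit 5102) (.e (nat_lit 90170) (nat_lit 13) (.e (nat_lit 172106) (nat_lit 10) (.e (nat_lit 434231) (nat_lit 23) (.e (nat_lit 532535) (nat_lit 9) (.e (nat_lit 335929) (nat_lit 0) (.e (nat_lit 1936) (nat_lit 132) (.e (nat_lit 622598) (nat_lit 5) (.e (nat_lit 1234) (nat_lit 91) .nil)))))))) (.g (nat_lit 4) .nil .nil))) 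
(.lf (nat_lit 216252) (.g (nat_lit 4228) (.e (nat_lit 90170) (nat_lit 13) (.e (nat_lit 172106) (nat_lit 10) (.e (nat_lit 434231) (nat_lit 23) (.e (nat_lit 532535) (nat_lit 9) (.e (nat_lit 335937) (nat_lit 0) (.e (nat_lit 988) (nat_lit 81) (.e (nat_lit 4842) (nat_lit 283) (.e (nat_lit 57374) (nat_lit 2) .nil)))))))) (.g (nat_lit 4) .nil .nil))))))) 
(.nd (nat_lit 2) (.nd (nat_lit 3) (.nd (nat_lit 4) (.nd (nat_lit 5) 
(.lf (nat_lit 216194) (.g (nat_lit 3173) (.e (nat_lit 90170) (nat_lit 13) (.e (nat_lit 172106) (nat_lit 10) (.e (nat_lit 434231) (nat_lit 23) (.e (nat_lit 532535) (nat_lit 9) (.e (nat_lit 335927) (nat_lit 0) (.e (nat_lit 1939) (nat_lit 132) (.e (nat_lit 622598) (nat_lit 5) (.e (nat_lit 1239) (nat_lit 91) .nil)))))))) (.g (nat_lit 4) .nil .nil))) 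
(.lf (nat_lit 216226) (.g (nat_lit 4835) (.e (nat_lit 90170) (nat_lit 13) (.e (nat_lit 172106) (nat_lit 10) (.e (nat_lit 434231) (nat_lit 23) (.e (nat_lit 532535) (nat_lit 9) (.e (nat_lit 335929) (nat_lit 0) (.e (nat_lit 1936) (nat_lit 132) (.e (nat_lit 622604) (nat_lit 5) (.e (nat_lit 1234) (nat_lit 91) .nil)))))))) (.g (nat_lit 4) .nil .nil)))) (.nd (nat_lit 5) 
(.lf (nat_lit 216210) (.g (nat_lit 3988) (.e (nat_lit 90170) (nat_lit 13) (.e (nat_lit 172106) (nat_lit 10) (.e (nat_lit 434231) (nat_lit 23) (.e (nat_lit 532535) (nat_lit 9) (.e (nat_lit 335927) (nat_lit 0) (.e (nat_lit 1941) (nat_lit 132) (.e (nat_lit 622598) (nat_lit 5) (.e (nat_lit 1234) (nat_lit 91) .nil)))))))) (.g (nat_lit 4) .nil .nil))) 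
(.lf (nat_lit 216242) (.g (nat_lit 3873) (.e (nat_lit 90170) (nat_lit 13) (.e (nat_lit 172106) (nat_lit 10) (.e (nat_lit 434231) (nat_lit 23) (.e (nat_lit 532535) (nat_lit 9) (.e (nat_lit 335936) (nat_lit 0) (.e (nat_lit 1936) (nat_lit 132) (.e (nat_lit 622605) (nat_lit 5) (.e (nat_lit 1234) (nat_lit 91) .nil)))))))) (.g (nat_lit 4) .nil .nil))))) (.nd (nat_lit 4) (.nd (nat_lit 5) 
(.lf (nat_lit 216202) (.g (nat_lit 3194) (.e (nat_lit 90170) (nat_lit 13) (.e (nat_lit 172106) (nat_lit 10) (.e (nat_lit 434231) (nat_lit 23) (.e (nat_lit 532535) (nat_lit 9) (.e (nat_lit 335927) (nat_lit 0) (.e (nat_lit 1939) (nat_lit 132) (.e (nat_lit 622605) (nat_lit 5) (.e (nat_lit 1237) (nat_lit 91) .nil)))))))) (.g (nat_lit 4) .nil .nil))) 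
(.lf (nat_lit 216234) (.g (nat_lit 3207) (.e (nat_lit 90170) (nat_lit 13) (.e (nat_lit 172106) (nat_lit 10) (.e (nat_lit 434231) (nat_lit 23) (.e (nat_lit 532535) (nat_lit 9) (.e (nat_lit 335930) (nat_lit 0) (.e (nat_lit 1936) (nat_lit 132) (.e (nat_lit 622598) (nat_lit 5) (.e (nat_lit 1237) (nat_lit 91) .nil)))))))) (.g (nat_lit 4) .nil .nil)))) (.nd (nat_lit 5) 
(.lf (nat_lit 216218) (.g (nat_lit 3852) (.e (nat_lit 90170) (nat_lit 13) (.e (nat_lit 172106) (nat_lit 10) (.e (nat_lit 434231) (nat_lit 23) (.e (nat_lit 532535) (nat_lit 9) (.e (nat_lit 335929) (nat_lit 0) (.e (nat_lit 1086) (nat_lit 81) (.e (nat_lit 4803) (nat_lit 281) (.e (nat_lit 1039) (nat_lit 81) (.e (nat_lit 1234) (nat_lit 91) .nil))))))))) (.g (nat_lit 4) .nil .nil))) 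
(.lf (nat_lit 216250) (.g (nat_lit 4088) (.e (nat_lit 90170) (nat_lit 13) (.e (nat_lit 172106) (nat_lit 10) (.e (nat_lit 434231) (nat_lit 23) (.e (nat_lit 532535) (nat_lit 9) (.e (nat_lit 335937) (nat_lit 0) (.e (nat_lit 988) (nat_lit 81) (.e (nat_lit 4841) (nat_lit 283) (.e (nat_lit 57374) (nat_lit 2) .nil)))))))) (.g (nat_lit 4) .nil .nil)))))) (.nd (nat_lit 3) (.nd (nat_lit 4) (.nd (nat_lit 5) 
(.lf (nat_lit 216198) (.g (nat_lit 3458) (.e (nat_lit 90170) (nat_lit 13) (.e (nat_lit 172106) (nat_lit 10) (.e (nat_lit 434231) (nat_lit 23) (.e (nat_lit 532535) (nat_lit 9) (.e (nat_lit 335927) (nat_lit 0) (.e (nat_lit 1939) (nat_lit 132) (.e (nat_lit 622602) (nat_lit 5) (.e (nat_lit 1239) (nat_lit 91) .nil)))))))) (.g (nat_lit 4) .nil .nil))) 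
(.lf (nat_lit 216230) (.g (nat_lit 3444) (.e (nat_lit 90170) (nat_lit 13) (.e (nat_lit 172106) (nat_lit 10) (.e (nat_lit 434231) (nat_lit 23) (.e (nat_lit 532535) (nat_lit 9) (.e (nat_lit 335930) (nat_lit 0) (.e (nat_lit 1015) (nat_lit 81) (.e (nat_lit 4780) (nat_lit 281) (.e (nat_lit 1010) (nat_lit 81) (.e (nat_lit 1239) (nat_lit 91) .nil))))))))) (.g (nat_lit 4) .nil .nil)))) (.nd (nat_lit 5) 
(.lf (nat_lit 216214) (.g (nat_lit 2603) (.e (nat_lit 90170) (nat_lit 13) (.e (nat_lit 172106) (nat_lit 10) (.e (nat_lit 434231) (nat_lit 23) (.e (nat_lit 532535) (nat_lit 9) (.e (nat_lit 335928) (nat_lit 0) (.e (nat_lit 990) (nat_lit 81) (.e (nat_lit 4841) (nat_lit 283) (.e (nat_lit 57369) (nat_lit 2) .nil)))))))) (.g (nat_lit 5) .nil .nil))) 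
(.lf (nat_lit 216246) (.g (nat_lit 4682) (.e (nat_lit 90170) (nat_lit 13) (.e (nat_lit 172106) (nat_lit 10) (.e (nat_lit 434231) (nat_lit 23) (.e (nat_lit 532535) (nat_lit 9) (.e (nat_lit 335937) (nat_lit 0) (.e (nat_lit 982) (nat_lit 81) (.e (nat_lit 4842) (nat_lit 283) (.e (nat_lit 57374) (nat_lit 2) .nil)))))))) (.g (nat_lit 4) .nil .nil))))) (.nd (nat_lit 4) (.nd (nat_lit 5) 
(.lf (nat_lit 216206) (.g (nat_lit 3154) (.e (nat_lit 90170) (nat_lit 13) (.e (nat_lit 172106) (nat_lit 10) (.e (nat_lit 434231) (nat_lit 23) (.e (nat_lit 532535) (nat_lit 9) (.e (nat_lit 335927) (nat_lit 0) (.e (nat_lit 1940) (nat_lit 132) (.e (nat_lit 622602) (nat_lit 5) (.e (nat_lit 1239) (nat_lit 91) .nil)))))))) (.g (nat_lit 4) .nil .nil))) 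
(.lf (nat_lit 216238) (.g (nat_lit 3956) (.e (nat_lit 90170) (nat_lit 13) (.e (nat_lit 172106) (nat_lit 10) (.e (nat_lit 434231) (nat_lit 23) (.e (nat_lit 532535) (nat_lit 9) (.e (nat_lit 335930) (nat_lit 0) (.e (nat_lit 1936) (nat_lit 132) (.e (nat_lit 622603) (nat_lit 5) (.e (nat_lit 1234) (nat_lit 91) .nil)))))))) (.g (nat_lit 4) .nil .nil)))) (.nd (nat_lit 5) 
(.lf (nat_lit 216222) (.g (nat_lit 3325) (.e (nat_lit 90170) (nat_lit 13) (.e (nat_lit 172106) (nat_lit 10) (.e (nat_lit 434231) (nat_lit 23) (.e (nat_lit 532535) (nat_lit 9) (.e (nat_lit 335929) (nat_lit 0) (.e (nat_lit 1936) (nat_lit 132) (.e (nat_lit 622600) (nat_lit 5) (.e (nat_lit 1233) (nat_lit 91) .nil)))))))) (.g (nat_lit 4) .nil .nil))) 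
(.lf (nat_lit 216254) (.g (nat_lit 4641) (.e (nat_lit 90170) (nat_lit 13) (.e (nat_lit 172106) (nat_lit 10) (.e (nat_lit 434231) (nat_lit 23) (.e (nat_lit 532535) (nat_lit 9) (.e (nat_lit 335937) (nat_lit 0) (.e (nat_lit 989) (nat_lit 81) (.e (nat_lit 4801) (nat_lit 281) (.e (nat_lit 1039) (nat_lit 81) (.e (nat_lit 1234) (nat_lit 91) .nil))))))))) (.g (nat_lit 4) .nil .nil)))))))) 
(.nd (nat_lit 1) (.nd (nat_lit 2) (.nd (nat_lit 3) (.nd (nat_lit 4) (.nd (nat_lit 5) 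
(.lf (nat_lit 216193) (.g (nat_lit 4126) (.e (nat_lit 90170) (nat_lit 13) (.e (nat_lit 172106) (nat_lit 10) (.e (nat_lit 434231) (nat_lit 23) (.e (nat_lit 532535) (nat_lit 9) (.e (nat_lit 335927) (nat_lit 0) (.e (nat_lit 1939) (nat_lit 132) (.e (nat_lit 622598) (nat_lit 5) (.e (nat_lit 1234) (nat_lit 91) .nil)))))))) (.g (nat_lit 4) .nil .nil))) 
(.lf (nat_lit 216225) (.g (nat_lit 4060) (.e (nat_lit 90170) (nat_lit 13) (.e (nat_lit 172106) (nat_lit 10) (.e (nat_lit 434231) (nat_lit 23) (.e (nat_lit 532535) (nat_lit 9) (.e (nat_lit 335929) (nat_lit 0) (.e (nat_lit 1936) (nat_lit 132) (.e (nat_lit 622603) (nat_lit 5) (.e (nat_lit 1234) (nat_lit 91) .nil)))))))) (.g (nat_lit 4) .nil .nil)))) (.nd (nat_lit 5) 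
(.lf (nat_lit 216209) (.g (nat_lit 4089) (.e (nat_lit 90170) (nat_lit 13) (.e (nat_lit 172106) (nat_lit 10) (.e (nat_lit 434231) (nat_lit 23) (.e (nat_lit 532535) (nat_lit 9) (.e (nat_lit 335927) (nat_lit 0) (.e (nat_lit 1940) (nat_lit 132) (.e (nat_lit 622605) (nat_lit 5) (.e (nat_lit 1234) (nat_lit 91) .nil)))))))) (.g (nat_lit 4) .nil .nil))) 
(.lf (nat_lit 216241) (.g (nat_lit 4903) (.e (nat_lit 90170) (nat_lit 13) (.e (nat_lit 172106) (nat_lit 10) (.e (nat_lit 434231) (nat_lit 23) (.e (nat_lit 532535) (nat_lit 9) (.e (nat_lit 335930) (nat_lit 0) (.e (nat_lit 1936) (nat_lit 132) (.e (nat_lit 622605) (nat_lit 5) (.e (nat_lit 1237) (nat_lit 91) .nil)))))))) (.g (nat_lit 4) .nil .nil))))) (.nd (nat_lit 4) (.nd (nat_lit 5) 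
(.lf (nat_lit 216201) (.g (nat_lit 4146) (.e (nat_lit 90170) (nat_lit 13) (.e (nat_lit 172106) (nat_lit 10) (.e (nat_lit 434231) (nat_lit 23) (.e (nat_lit 532535) (nat_lit 9) (.e (nat_lit 335927) (nat_lit 0) (.e (nat_lit 1939) (nat_lit 132) (.e (nat_lit 622605) (nat_lit 5) (.e (nat_lit 1234) (nat_lit 91) .nil)))))))) (.g (nat_lit 4) .nil .nil))) 
(.lf (nat_lit 216233) (.g (nat_lit 4998) (.e (nat_lit 90170) (nat_lit 13) (.e (nat_lit 172106) (nat_lit 10) (.e (nat_lit 434231) (nat_lit 23) (.e (nat_lit 532535) (nat_lit 9) (.e (nat_lit 335930) (nat_lit 0) (.e (nat_lit 1936) (nat_lit 132) (.e (nat_lit 622598) (nat_lit 5) (.e (nat_lit 1234) (nat_lit 91) .nil)))))))) (.g (nat_lit 4) .nil .nil)))) (.nd (nat_lit 5) 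
(.lf (nat_lit 216217) (.g (nat_lit 4639) (.e (nat_lit 90170) (nat_lit 13) (.e (nat_lit 172106) (nat_lit 10) (.e (nat_lit 434231) (nat_lit 23) (.e (nat_lit 532535) (nat_lit 9) (.e (nat_lit 335929) (nat_lit 0) (.e (nat_lit 982) (nat_lit 81) (.e (nat_lit 4842) (nat_lit 283) (.e (nat_lit 57374) (nat_lit 2) .nil)))))))) (.g (nat_lit 4) .nil .nil))) 
(.lf (nat_lit 216249) (.g (nat_lit 3694) (.e (nat_lit 90170) (nat_lit 13) (.e (nat_lit 172106) (nat_lit 10) (.e (nat_lit 434231) (nat_lit 23) (.e (nat_lit 532535) (nat_lit 9) (.e (nat_lit 335937) (nat_lit 0) (.e (nat_lit 988) (nat_lit 81) (.e (nat_lit 4841) (nat_lit 283) (.e (nat_lit 57373) (nat_lit 2) .nil)))))))) (.g (nat_lit 4) .nil .nil)))))) (.nd (nat_lit 3) (.nd (nat_lit 4) (.nd (nat_lit 5) 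
(.lf (nat_lit 216197) (.g (nat_lit 3537) (.e (nat_lit 90170) (nat_lit 13) (.e (nat_lit 172106) (nat_lit 10) (.e (nat_lit 434231) (nat_lit 23) (.e (nat_lit 532535) (nat_lit 9) (.e (nat_lit 335927) (nat_lit 0) (.e (nat_lit 1939) (nat_lit 132) (.e (nat_lit 622601) (nat_lit 5) (.e (nat_lit 1239) (nat_lit 91) .nil)))))))) (.g (nat_lit 4) .nil .nil))) 
(.lf (nat_lit 216229) (.g (nat_lit 4589) (.e (nat_lit 90170) (nat_lit 13) (.e (nat_lit 172106) (nat_lit 10) (.e (nat_lit 434231) (nat_lit 23) (.e (nat_lit 532535) (nat_lit 9) (.e (nat_lit 335930) (nat_lit 0) (.e (nat_lit 982) (nat_lit 81) (.e (nat_lit 4842) (nat_lit 283) (.e (nat_lit 57374) (nat_lit 2) .nil)))))))) (.g (nat_lit 4) .nil .nil)))) (.nd (nat_lit 5) 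
(.lf (nat_lit 216213) (.g (nat_lit 3088) (.e (nat_lit 90170) (nat_lit 13) (.e (nat_lit 172106) (nat_lit 10) (.e (nat_lit 434231) (nat_lit 23) (.e (nat_lit 532535) (nat_lit 9) (.e (nat_lit 335928) (nat_lit 0) (.e (nat_lit 988) (nat_lit 81) (.e (nat_lit 4843) (nat_lit 284) (.e (nat_lit 122890) (nat_lit 2) .nil)))))))) (.g (nat_lit 7) .nil .nil))) 
(.lf (nat_lit 216245) (.g (nat_lit 4488) (.e (nat_lit 90170) (nat_lit 13) (.e (nat_lit 172106) (nat_lit 10) (.e (nat_lit 434231) (nat_lit 23) (.e (nat_lit 532535) (nat_lit 9) (.e (nat_lit 335937) (nat_lit 0) (.e (nat_lit 982) (nat_lit 81) (.e (nat_lit 4842) (nat_lit 283) (.e (nat_lit 57373) (nat_lit 2) .nil)))))))) (.g (nat_lit 4) .nil .nil))))) (.nd (nat_lit 4) (.nd (nat_lit 5) 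
(.lf (nat_lit 216205) (.g (nat_lit 3440) (.e (nat_lit 90170) (nat_lit 13) (.e (nat_lit 172106) (nat_lit 10) (.e (nat_lit 434231) (nat_lit 23) (.e (nat_lit 532535) (nat_lit 9) (.e (nat_lit 335927) (nat_lit 0) (.e (nat_lit 1940) (nat_lit 132) (.e (nat_lit 622601) (nat_lit 5) (.e (nat_lit 1239) (nat_lit 91) .nil)))))))) (.g (nat_lit 4) .nil .nil))) 
(.lf (nat_lit 216237) (.g (nat_lit 3662) (.e (nat_lit 90170) (nat_lit 13) (.e (nat_lit 172106) (nat_lit 10) (.e (nat_lit 434231) (nat_lit 23) (.e (nat_lit 532535) (nat_lit 9) (.e (nat_lit 335930) (nat_lit 0) (.e (nat_lit 1936) (nat_lit 132) (.e (nat_lit 622601) (nat_lit 5) (.e (nat_lit 1239) (nat_lit 91) .nil)))))))) (.g (nat_lit 4) .nil .nil)))) (.nd (nat_lit 5) 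
(.lf (nat_lit 216221) (.g (nat_lit 3311) (.e (nat_lit 90170) (nat_lit 13) (.e (nat_lit 172106) (nat_lit 10) (.e (nat_lit 434231) (nat_lit 23) (.e (nat_lit 532535) (nat_lit 9) (.e (nat_lit 335929) (nat_lit 0) (.e (nat_lit 1936) (nat_lit 132) (.e (nat_lit 622598) (nat_lit 5) (.e (nat_lit 1237) (nat_lit 91) .nil)))))))) (.g (nat_lit 4) .nil .nil))) 
(.lf (nat_lit 216253) (.g (nat_lit 3168) (.e (nat_lit 90170) (nat_lit 13) (.e (nat_lit 172106) (nat_lit 10) (.e (nat_lit 434231) (nat_lit 23) (.e (nat_lit 532535) (nat_lit 9) (.e (nat_lit 335937) (nat_lit 0) (.e (nat_lit 988) (nat_lit 81) (.e (nat_lit 4843) (nat_lit 284) (.e (nat_lit 122891) (nat_lit 2) .nil)))))))) (.g (nat_lit 4) .nil .nil))))))) 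
(.nd (nat_lit 2) (.nd (nat_lit 3) (.nd (nat_lit 4) (.nd (nat_lit 5) 
(.lf (nat_lit 216195) (.g (nat_lit 3395) (.e (nat_lit 90170) (nat_lit 13) (.e (nat_lit 172106) (nat_lit 10) (.e (nat_lit 434231) (nat_lit 23) (.e (nat_lit 532535) (nat_lit 9) (.e (nat_lit 335927) (nat_lit 0) (.e (nat_lit 1939) (nat_lit 132) (.e (nat_lit 622599) (nat_lit 5) (.e (nat_lit 1239) (nat_lit 91) .nil)))))))) (.g (nat_lit 4) .nil .nil))) 
(.lf (nat_lit 216227) (.g (nat_lit 4173) (.e (nat_lit 90170) (nat_lit 13) (.e (nat_lit 172106) (nat_lit 10) (.e (nat_lit 434231) (nat_lit 23) (.e (nat_lit 532535) (nat_lit 9) (.e (nat_lit 335929) (nat_lit 0) (.e (nat_lit 1936) (nat_lit 132) (.e (nat_lit 622605) (nat_lit 5) (.e (nat_lit 1236) (nat_lit 91) .nil)))))))) (.g (nat_lit 4) .nil .nil)))) (.nd (nat_lit 5) 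
(.lf (nat_lit 216211) (.g (nat_lit 4170) (.e (nat_lit 90170) (nat_lit 13) (.e (nat_lit 172106) (nat_lit 10) (.e (nat_lit 434231) (nat_lit 23) (.e (nat_lit 532535) (nat_lit 9) (.e (nat_lit 335927) (nat_lit 0) (.e (nat_lit 1941) (nat_lit 132) (.e (nat_lit 622603) (nat_lit 5) (.e (nat_lit 1234) (nat_lit 91) .nil)))))))) (.g (nat_lit 4) .nil .nil))) 
(.lf (nat_lit 216243) (.g (nat_lit 2864) (.e (nat_lit 90170) (nat_lit 13) (.e (nat_lit 172106) (nat_lit 10) (.e (nat_lit 434231) (nat_lit 23) (.e (nat_lit 532535) (nat_lit 9) (.e (nat_lit 335936) (nat_lit 0) (.e (nat_lit 1936) (nat_lit 132) (.e (nat_lit 622605) (nat_lit 5) (.e (nat_lit 1237) (nat_lit 91) .nil)))))))) (.g (nat_lit 4) .nil .nil))))) (.nd (nat_lit 4) (.nd (nat_lit 5) 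
(.lf (nat_lit 216203) (.g (nat_lit 4645) (.e (nat_lit 90170) (nat_lit 13) (.e (nat_lit 172106) (nat_lit 10) (.e (nat_lit 434231) (nat_lit 23) (.e (nat_lit 532535) (nat_lit 9) (.e (nat_lit 335927) (nat_lit 0) (.e (nat_lit 1940) (nat_lit 132) (.e (nat_lit 622598) (nat_lit 5) (.e (nat_lit 1234) (nat_lit 91) .nil)))))))) (.g (nat_lit 4) .nil .nil))) 
(.lf (nat_lit 216235) (.g (nat_lit 3221) (.e (nat_lit 90170) (nat_lit 13) (.e (nat_lit 172106) (nat_lit 10) (.e (nat_lit 434231) (nat_lit 23) (.e (nat_lit 532535) (nat_lit 9) (.e (nat_lit 335930) (nat_lit 0) (.e (nat_lit 1936) (nat_lit 132) (.e (nat_lit 622600) (nat_lit 5) (.e (nat_lit 1233) (nat_lit 91) .nil)))))))) (.g (nat_lit 4) .nil .nil)))) (.nd (nat_lit 5) 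
(.lf (nat_lit 216219) (.g (nat_lit 4214) (.e (nat_lit 90170) (nat_lit 13) (.e (nat_lit 172106) (nat_lit 10) (.e (nat_lit 434231) (nat_lit 23) (.e (nat_lit 532535) (nat_lit 9) (.e (nat_lit 335929) (nat_lit 0) (.e (nat_lit 1086) (nat_lit 81) (.e (nat_lit 5598) (nat_lit 310) (.e (nat_lit 171776) (nat_lit 63) .nil)))))))) (.g (nat_lit 4) .nil .nil))) 
(.lf (nat_lit 216251) (.g (nat_lit 4013) (.e (nat_lit 90170) (nat_lit 13) (.e (nat_lit 172106) (nat_lit 10) (.e (nat_lit 434231) (nat_lit 23) (.e (nat_lit 532535) (nat_lit 9) (.e (nat_lit 335937) (nat_lit 0) (.e (nat_lit 988) (nat_lit 81) (.e (nat_lit 4842) (nat_lit 283) (.e (nat_lit 57373) (nat_lit 2) .nil)))))))) (.g (nat_lit 4) .nil .nil)))))) (.nd (nat_lit 3) (.nd (nat_lit 4) (.nd (nat_lit 5) 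
(.lf (nat_lit 216199) (.g (nat_lit 4692) (.e (nat_lit 90170) (nat_lit 13) (.e (nat_lit 172106) (nat_lit 10) (.e (nat_lit 434231) (nat_lit 23) (.e (nat_lit 532535) (nat_lit 9) (.e (nat_lit 335927) (nat_lit 0) (.e (nat_lit 1939) (nat_lit 132) (.e (nat_lit 622603) (nat_lit 5) (.e (nat_lit 1234) (nat_lit 91) .nil)))))))) (.g (nat_lit 4) .nil .nil))) 
(.lf (nat_lit 216231) (.g (nat_lit 3986) (.e (nat_lit 90170) (nat_lit 13) (.e (nat_lit 172106) (nat_lit 10) (.e (nat_lit 434231) (nat_lit 23) (.e (nat_lit 532535) (nat_lit 9) (.e (nat_lit 335930) (nat_lit 0) (.e (nat_lit 1015) (nat_lit 81) (.e (nat_lit 7936) (nat_lit 283) (.e (nat_lit 57374) (nat_lit 2) .nil)))))))) (.g (nat_lit 4) .nil .nil)))) (.nd (nat_lit 5) 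
(.lf (nat_lit 216215) (.g (nat_lit 3598) (.e (nat_lit 90170) (nat_lit 13) (.e (nat_lit 172106) (nat_lit 10) (.e (nat_lit 434231) (nat_lit 23) (.e (nat_lit 532535) (nat_lit 9) (.e (nat_lit 335929) (nat_lit 0) (.e (nat_lit 982) (nat_lit 81) (.e (nat_lit 4841) (nat_lit 283) (.e (nat_lit 57374) (nat_lit 2) .nil)))))))) (.g (nat_lit 4) .nil .nil))) 
(.lf (nat_lit 216247) (.g (nat_lit 3191) (.e (nat_lit 90170) (nat_lit 13) (.e (nat_lit 172106) (nat_lit 10) (.e (nat_lit 434231) (nat_lit 23) (.e (nat_lit 532535) (nat_lit 9) (.e (nat_lit 335937) (nat_lit 0) (.e (nat_lit 988) (nat_lit 81) (.e (nat_lit 4780) (nat_lit 281) (.e (nat_lit 1010) (nat_lit 81) (.e (nat_lit 1239) (nat_lit 91) .nil))))))))) (.g (nat_lit 4) .nil .nil))))) 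
(.nd (nat_lit 4) (.nd (nat_lit 5) 
(.lf (nat_lit 216207) (.g (nat_lit 4850) (.e (nat_lit 90170) (nat_lit 13) (.e (nat_lit 172106) (nat_lit 10) (.e (nat_lit 434231) (nat_lit 23) (.e (nat_lit 532535) (nat_lit 9) (.e (nat_lit 335927) (nat_lit 0) (.e (nat_lit 1940) (nat_lit 132) (.e (nat_lit 622603) (nat_lit 5) (.e (nat_lit 1234) (nat_lit 91) .nil)))))))) (.g (nat_lit 4) .nil .nil))) 
(.lf (nat_lit 216239) (.g (nat_lit 4731) (.e (nat_lit 90170) (nat_lit 13) (.e (nat_lit 172106) (nat_lit 10) (.e (nat_lit 434231) (nat_lit 23) (.e (nat_lit 532535) (nat_lit 9) (.e (nat_lit 335930) (nat_lit 0) (.e (nat_lit 1936) (nat_lit 132) (.e (nat_lit 622604) (nat_lit 5) (.e (nat_lit 1234) (nat_lit 91) .nil)))))))) (.g (nat_lit 4) .nil .nil)))) (.nd (nat_lit 5) 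
(.lf (nat_lit 216223) (.g (nat_lit 3701) (.e (nat_lit 90170) (nat_lit 13) (.e (nat_lit 172106) (nat_lit 10) (.e (nat_lit 434231) (nat_lit 23) (.e (nat_lit 532535) (nat_lit 9) (.e (nat_lit 335929) (nat_lit 0) (.e (nat_lit 1936) (nat_lit 132) (.e (nat_lit 622600) (nat_lit 5) (.e (nat_lit 1239) (nat_lit 91) .nil)))))))) (.g (nat_lit 4) .nil .nil))) 
(.lf (nat_lit 216255) (.g (nat_lit 4321) (.e (nat_lit 90170) (nat_lit 13) (.e (nat_lit 172106) (nat_lit 10) (.e (nat_lit 434231) (nat_lit 23) (.e (nat_lit 532535) (nat_lit 9) (.e (nat_lit 335937) (nat_lit 0) (.e (nat_lit 989) (nat_lit 81) (.e (nat_lit 4841) (nat_lit 283) (.e (nat_lit 57373) (nat_lit 2) .nil)))))))) (.g (nat_lit 4) .nil .nil)))))))))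

noncomputable def tv2843 : DT := (.nd (nat_lit 0) (.nd (nat_lit 1) (.nd (nat_lit 2) (.nd (nat_lit 3) (.nd (nat_lit 4) (.nd (nat_lit 5) 
(.lf (nat_lit 216256) (.g (nat_lit 4685) (.e (nat_lit 90170) (nat_lit 13) (.e (nat_lit 172106) (nat_lit 10) (.e (nat_lit 434231) (nat_lit 23) (.e (nat_lit 532535) (nat_lit 9) (.e (nat_lit 335937) (nat_lit 0) (.e (nat_lit 989) (nat_lit 81) (.e (nat_lit 4841) (nat_lit 283) (.e (nat_lit 57374) (nat_lit 2) .nil)))))))) (.g (nat_lit 4) .nil .nil))) 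
(.lf (nat_lit 216288) (.g (nat_lit 3301) (.e (nat_lit 90170) (nat_lit 13) (.e (nat_lit 172106) (nat_lit 10) (.e (nat_lit 434231) (nat_lit 23) (.e (nat_lit 532535) (nat_lit 9) (.e (nat_lit 335937) (nat_lit 0) (.e (nat_lit 1939) (nat_lit 132) (.e (nat_lit 622604) (nat_lit 5) (.e (nat_lit 1237) (nat_lit 91) .nil)))))))) (.g (nat_lit 4) .nil .nil)))) (.nd (nat_lit 5) 
(.lf (nat_lit 216272) (.g (nat_lit 3318) (.e (nat_lit 90170) (nat_lit 13) (.e (nat_lit 172106) (nat_lit 10) (.e (nat_lit 434231) (nat_lit 23) (.e (nat_lit 532535) (nat_lit 9) (.e (nat_lit 335937) (nat_lit 0) (.e (nat_lit 992) (nat_lit 81) (.e (nat_lit 4843) (nat_lit 284) (.e (nat_lit 122890) (nat_lit 2) .nil)))))))) (.g (nat_lit 4) .nil .nil))) 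
(.lf (nat_lit 216304) (.g (nat_lit 4639) (.e (nat_lit 90170) (nat_lit 13) (.e (nat_lit 172106) (nat_lit 10) (.e (nat_lit 434231) (nat_lit 23) (.e (nat_lit 532535) (nat_lit 9) (.e (nat_lit 335937) (nat_lit 0) (.e (nat_lit 1941) (nat_lit 132) (.e (nat_lit 622603) (nat_lit 5) (.e (nat_lit 1234) (nat_lit 91) .nil)))))))) (.g (nat_lit 4) .nil .nil))))) (.nd (nat_lit 4) (.nd (nat_lit 5) 
(.lf (nat_lit 216264) (.g (nat_lit 4006) (.e (nat_lit 90170) (nat_lit 13) (.e (nat_lit 172106) (nat_lit 10) (.e (nat_lit 434231) (nat_lit 23) (.e (nat_lit 532535) (nat_lit 9) (.e (nat_lit 335937) (nat_lit 0) (.e (nat_lit 991) (nat_lit 81) (.e (nat_lit 4801) (nat_lit 281) (.e (nat_lit 1039) (nat_lit 81) (.e (nat_lit 1234) (nat_lit 91) .nil))))))))) (.g (nat_lit 4) .nil .nil))) 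
(.lf (nat_lit 216296) (.g (nat_lit 3602) (.e (nat_lit 90170) (nat_lit 13) (.e (nat_lit 172106) (nat_lit 10) (.e (nat_lit 434231) (nat_lit 23) (.e (nat_lit 532535) (nat_lit 9) (.e (nat_lit 335937) (nat_lit 0) (.e (nat_lit 1940) (nat_lit 132) (.e (nat_lit 622602) (nat_lit 5) (.e (nat_lit 1239) (nat_lit 91) .nil)))))))) (.g (nat_lit 4) .nil .nil)))) (.nd (nat_lit 5) 
(.lf (nat_lit 216280) (.g (nat_lit 4499) (.e (nat_lit 90170) (nat_lit 13) (.e (nat_lit 172106) (nat_lit 10) (.e (nat_lit 434231) (nat_lit 23) (.e (nat_lit 532535) (nat_lit 9) (.e (nat_lit 335937) (nat_lit 0) (.e (nat_lit 1936) (nat_lit 132) (.e (nat_lit 622603) (nat_lit 5) (.e (nat_lit 1234) (nat_lit 91) .nil)))))))) (.g (nat_lit 4) .nil .nil))) 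
(.lf (nat_lit 216312) (.g (nat_lit 2797) (.e (nat_lit 90170) (nat_lit 13) (.e (nat_lit 172106) (nat_lit 10) (.e (nat_lit 434231) (nat_lit 23) (.e (nat_lit 532535) (nat_lit 9) (.e (nat_lit 336030) (nat_lit 4) (.e (nat_lit 123127) (nat_lit 239) (.e (nat_lit 1040) (nat_lit 81) (.e (nat_lit 1237) (nat_lit 91) .nil)))))))) (.g (nat_lit 4) .nil .nil)))))) 
(.nd (nat_lit 3) (.nd (nat_lit 4) (.nd (nat_lit 5) 
(.lf (nat_lit 216260) (.g (nat_lit 3561) (.e (nat_lit 90170) (nat_lit 13) (.e (nat_lit 172106) (nat_lit 10) (.e (nat_lit 434231) (nat_lit 23) (.e (nat_lit 532535) (nat_lit 9) (.e (nat_lit 335937) (nat_lit 0) (.e (nat_lit 990) (nat_lit 81) (.e (nat_lit 4841) (nat_lit 283) (.e (nat_lit 57373) (nat_lit 2) .nil)))))))) (.g (nat_lit 4) .nil .nil))) 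
(.lf (nat_lit 216292) (.g (nat_lit 5093) (.e (nat_lit 90170) (nat_lit 13) (.e (nat_lit 172106) (nat_lit 10) (.e (nat_lit 434231) (nat_lit 23) (.e (nat_lit 532535) (nat_lit 9) (.e (nat_lit 335937) (nat_lit 0) (.e (nat_lit 1940) (nat_lit 132) (.e (nat_lit 622598) (nat_lit 5) (.e (nat_lit 1234) (nat_lit 91) .nil)))))))) (.g (nat_lit 4) .nil .nil)))) (.nd (nat_lit 5) 
(.lf (nat_lit 216276) (.g (nat_lit 3879) (.e (nat_lit 90170) (nat_lit 13) (.e (nat_lit 172106) (nat_lit 10) (.e (nat_lit 434231) (nat_lit 23) (.e (nat_lit 532535) (nat_lit 9) (.e (nat_lit 335937) (nat_lit 0) (.e (nat_lit 1086) (nat_lit 81) (.e (nat_lit 5598) (nat_lit 310) (.e (nat_lit 171776) (nat_lit 63) .nil)))))))) (.g (nat_lit 4) .nil .nil))) 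
(.lf (nat_lit 216308) (.g (nat_lit 3153) (.e (nat_lit 90170) (nat_lit 13) (.e (nat_lit 172106) (nat_lit 10) (.e (nat_lit 434231) (nat_lit 23) (.e (nat_lit 532535) (nat_lit 9) (.e (nat_lit 335989) (nat_lit 1) (.e (nat_lit 57783) (nat_lit 239) (.e (nat_lit 7936) (nat_lit 81) (.e (nat_lit 1237) (nat_lit 91) .nil)))))))) (.g (nat_lit 4) .nil .nil))))) (.nd (nat_lit 4) (.nd (nat_lit 5) 
(.lf (nat_lit 216268) (.g (nat_lit 3875) (.e (nat_lit 90170) (nat_lit 13) (.e (nat_lit 172106) (nat_lit 10) (.e (nat_lit 434231) (nat_lit 23) (.e (nat_lit 532535) (nat_lit 9) (.e (nat_lit 335937) (nat_lit 0) (.e (nat_lit 991) (nat_lit 81) (.e (nat_lit 7936) (nat_lit 283) (.e (nat_lit 57373) (nat_lit 2) .nil)))))))) (.g (nat_lit 4) .nil .nil))) 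
(.lf (nat_lit 216300) (.g (nat_lit 4457) (.e (nat_lit 90170) (nat_lit 13) (.e (nat_lit 172106) (nat_lit 10) (.e (nat_lit 434231) (nat_lit 23) (.e (nat_lit 532535) (nat_lit 9) (.e (nat_lit 335937) (nat_lit 0) (.e (nat_lit 1941) (nat_lit 132) (.e (nat_lit 622598) (nat_lit 5) (.e (nat_lit 1234) (nat_lit 91) .nil)))))))) (.g (nat_lit 4) .nil .nil)))) (.nd (nat_lit 5) 
(.lf (nat_lit 216284) (.g (nat_lit 4699) (.e (nat_lit 90170) (nat_lit 13) (.e (nat_lit 172106) (nat_lit 10) (.e (nat_lit 434231) (nat_lit 23) (.e (nat_lit 532535) (nat_lit 9) (.e (nat_lit 335937) (nat_lit 0) (.e (nat_lit 1939) (nat_lit 132) (.e (nat_lit 622598) (nat_lit 5) (.e (nat_lit 1234) (nat_lit 91) .nil)))))))) (.g (nat_lit 4) .nil .nil))) 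
(.lf (nat_lit 216316) (.g (nat_lit 4082) (.e (nat_lit 90170) (nat_lit 13) (.e (nat_lit 172106) (nat_lit 10) (.e (nat_lit 434231) (nat_lit 23) (.e (nat_lit 532535) (nat_lit 9) (.e (nat_lit 336248) (nat_lit 15) (.e (nat_lit 2398) (nat_lit 157) (.e (nat_lit 6930) (nat_lit 373) (.e (nat_lit 57373) (nat_lit 2) .nil)))))))) (.g (nat_lit 4) .nil .nil))))))) 
(.nd (nat_lit 2) (.nd (nat_lit 3) (.nd (nat_lit 4) (.nd (nat_lit 5) 
(.lf (nat_lit 216258) (.g (nat_lit 4755) (.e (nat_lit 90170) (nat_lit 13) (.e (nat_lit 172106) (nat_lit 10) (.e (nat_lit 434231) (nat_lit 23) (.e (nat_lit 532535) (nat_lit 9) (.e (nat_lit 335937) (nat_lit 0) (.e (nat_lit 989) (nat_lit 81) (.e (nat_lit 4842) (nat_lit 283) (.e (nat_lit 57374) (nat_lit 2) .nil)))))))) (.g (nat_lit 4) .nil .nil))) 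
(.lf (nat_lit 216290) (.g (nat_lit 3767) (.e (nat_lit 90170) (nat_lit 13) (.e (nat_lit 172106) (nat_lit 10) (.e (nat_lit 434231) (nat_lit 23) (.e (nat_lit 532535) (nat_lit 9) (.e (nat_lit 335937) (nat_lit 0) (.e (nat_lit 1939) (nat_lit 132) (.e (nat_lit 622605) (nat_lit 5) (.e (nat_lit 1237) (nat_lit 91) .nil)))))))) (.g (nat_lit 4) .nil .nil)))) (.nd (nat_lit 5) 
(.lf (nat_lit 216274) (.g (nat_lit 3542) (.e (nat_lit 90170) (nat_lit 13) (.e (nat_lit 172106) (nat_lit 10) (.e (nat_lit 434231) (nat_lit 23) (.e (nat_lit 532535) (nat_lit 9) (.e (nat_lit 335937) (nat_lit 0) (.e (nat_lit 993) (nat_lit 81) (.e (nat_lit 4780) (nat_lit 281) (.e (nat_lit 1011) (nat_lit 81) (.e (nat_lit 1239) (nat_lit 91) .nil))))))))) (.g (nat_lit 4) .nil .nil))) 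
(.lf (nat_lit 216306) (.g (nat_lit 2767) (.e (nat_lit 90170) (nat_lit 13) (.e (nat_lit 172106) (nat_lit 10) (.e (nat_lit 434231) (nat_lit 23) (.e (nat_lit 532535) (nat_lit 9) (.e (nat_lit 335985) (nat_lit 1) (.e (nat_lit 57932) (nat_lit 283) (.e (nat_lit 237312) (nat_lit 63) .nil))))))) (.g (nat_lit 6) .nil .nil))))) (.nd (nat_lit 4) (.nd (nat_lit 5) 
(.lf (nat_lit 216266) (.g (nat_lit 4012) (.e (nat_lit 90170) (nat_lit 13) (.e (nat_lit 172106) (nat_lit 10) (.e (nat_lit 434231) (nat_lit 23) (.e (nat_lit 532535) (nat_lit 9) (.e (nat_lit 335937) (nat_lit 0) (.e (nat_lit 991) (nat_lit 81) (.e (nat_lit 4842) (nat_lit 283) (.e (nat_lit 57373) (nat_lit 2) .nil)))))))) (.g (nat_lit 4) .nil .nil))) 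
(.lf (nat_lit 216298) (.g (nat_lit 4537) (.e (nat_lit 90170) (nat_lit 13) (.e (nat_lit 172106) (nat_lit 10) (.e (nat_lit 434231) (nat_lit 23) (.e (nat_lit 532535) (nat_lit 9) (.e (nat_lit 335937) (nat_lit 0) (.e (nat_lit 1940) (nat_lit 132) (.e (nat_lit 622605) (nat_lit 5) (.e (nat_lit 1234) (nat_lit 91) .nil)))))))) (.g (nat_lit 4) .nil .nil)))) (.nd (nat_lit 5) 
(.lf (nat_lit 216282) (.g (nat_lit 4611) (.e (nat_lit 90170) (nat_lit 13) (.e (nat_lit 172106) (nat_lit 10) (.e (nat_lit 434231) (nat_lit 23) (.e (nat_lit 532535) (nat_lit 9) (.e (nat_lit 335937) (nat_lit 0) (.e (nat_lit 1936) (nat_lit 132) (.e (nat_lit 622605) (nat_lit 5) (.e (nat_lit 1236) (nat_lit 91) .nil)))))))) (.g (nat_lit 4) .nil .nil))) 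
(.lf (nat_lit 216314) (.g (nat_lit 4086) (.e (nat_lit 90170) (nat_lit 13) (.e (nat_lit 172106) (nat_lit 10) (.e (nat_lit 434231) (nat_lit 23) (.e (nat_lit 532535) (nat_lit 9) (.e (nat_lit 336248) (nat_lit 15) (.e (nat_lit 2398) (nat_lit 157) (.e (nat_lit 6848) (nat_lit 371) (.e (nat_lit 1027) (nat_lit 81) (.e (nat_lit 1237) (nat_lit 91) .nil))))))))) (.g (nat_lit 4) .nil .nil)))))) 
(.nd (nat_lit 3) (.nd (nat_lit 4) (.nd (nat_lit 5) 
(.lf (nat_lit 216262) (.g (nat_lit 3860) (.e (nat_lit 90170) (nat_lit 13) (.e (nat_lit 172106) (nat_lit 10) (.e (nat_lit 434231) (nat_lit 23) (.e (nat_lit 532535) (nat_lit 9) (.e (nat_lit 335937) (nat_lit 0) (.e (nat_lit 990) (nat_lit 81) (.e (nat_lit 4842) (nat_lit 283) (.e (nat_lit 57373) (nat_lit 2) .nil)))))))) (.g (nat_lit 4) .nil .nil))) 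
(.lf (nat_lit 216294) (.g (nat_lit 3165) (.e (nat_lit 90170) (nat_lit 13) (.e (nat_lit 172106) (nat_lit 10) (.e (nat_lit 434231) (nat_lit 23) (.e (nat_lit 532535) (nat_lit 9) (.e (nat_lit 335937) (nat_lit 0) (.e (nat_lit 1940) (nat_lit 132) (.e (nat_lit 622600) (nat_lit 5) (.e (nat_lit 1233) (nat_lit 91) .nil)))))))) (.g (nat_lit 4) .nil .nil)))) (.nd (nat_lit 5) 
(.lf (nat_lit 216278) (.g (nat_lit 3544) (.e (nat_lit 90170) (nat_lit 13) (.e (nat_lit 172106) (nat_lit 10) (.e (nat_lit 434231) (nat_lit 23) (.e (nat_lit 532535) (nat_lit 9) (.e (nat_lit 335937) (nat_lit 0) (.e (nat_lit 1936) (nat_lit 132) (.e (nat_lit 622599) (nat_lit 5) (.e (nat_lit 1239) (nat_lit 91) .nil)))))))) (.g (nat_lit 4) .nil .nil))) 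
(.lf (nat_lit 216310) (.g (nat_lit 3890) (.e (nat_lit 90170) (nat_lit 13) (.e (nat_lit 172106) (nat_lit 10) (.e (nat_lit 434231) (nat_lit 23) (.e (nat_lit 532535) (nat_lit 9) (.e (nat_lit 335990) (nat_lit 1) (.e (nat_lit 65280) (nat_lit 241) (.e (nat_lit 57374) (nat_lit 2) .nil))))))) (.g (nat_lit 4) .nil .nil))))) (.nd (nat_lit 4) (.nd (nat_lit 5) 
(.lf (nat_lit 216270) (.g (nat_lit 3173) (.e (nat_lit 90170) (nat_lit 13) (.e (nat_lit 172106) (nat_lit 10) (.e (nat_lit 434231) (nat_lit 23) (.e (nat_lit 532535) (nat_lit 9) (.e (nat_lit 335937) (nat_lit 0) (.e (nat_lit 992) (nat_lit 81) (.e (nat_lit 4767) (nat_lit 281) (.e (nat_lit 1084) (nat_lit 81) (.e (nat_lit 1235) (nat_lit 91) .nil))))))))) (.g (nat_lit 4) .nil .nil))) 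
(.lf (nat_lit 216302) (.g (nat_lit 3215) (.e (nat_lit 90170) (nat_lit 13) (.e (nat_lit 172106) (nat_lit 10) (.e (nat_lit 434231) (nat_lit 23) (.e (nat_lit 532535) (nat_lit 9) (.e (nat_lit 335937) (nat_lit 0) (.e (nat_lit 1941) (nat_lit 132) (.e (nat_lit 622599) (nat_lit 5) (.e (nat_lit 1239) (nat_lit 91) .nil)))))))) (.g (nat_lit 4) .nil .nil)))) (.nd (nat_lit 5) 
(.lf (nat_lit 216286) (.g (nat_lit 3416) (.e (nat_lit 90170) (nat_lit 13) (.e (nat_lit 172106) (nat_lit 10) (.e (nat_lit 434231) (nat_lit 23) (.e (nat_lit 532535) (nat_lit 9) (.e (nat_lit 335937) (nat_lit 0) (.e (nat_lit 1939) (nat_lit 132) (.e (nat_lit 622600) (nat_lit 5) (.e (nat_lit 1233) (nat_lit 91) .nil)))))))) (.g (nat_lit 4) .nil .nil))) 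
(.lf (nat_lit 216318) (.g (nat_lit 2640) (.e (nat_lit 90170) (nat_lit 13) (.e (nat_lit 172106) (nat_lit 10) (.e (nat_lit 434231) (nat_lit 23) (.e (nat_lit 532535) (nat_lit 9) (.e (nat_lit 336248) (nat_lit 15) (.e (nat_lit 2401) (nat_lit 157) (.e (nat_lit 6930) (nat_lit 373) (.e (nat_lit 57369) (nat_lit 2) .nil)))))))) (.g (nat_lit 4) .nil .nil)))))))) 
(.nd (nat_lit 1) (.nd (nat_lit 2) (.nd (nat_lit 3) (.nd (nat_lit 4) (.nd (nat_lit 5) 
(.lf (nat_lit 216257) (.g (nat_lit 4562) (.e (nat_lit 90170) (nat_lit 13) (.e (nat_lit 172106) (nat_lit 10) (.e (nat_lit 434231) (nat_lit 23) (.e (nat_lit 532535) (nat_lit 9) (.e (nat_lit 335937) (nat_lit 0) (.e (nat_lit 989) (nat_lit 81) (.e (nat_lit 4842) (nat_lit 283) (.e (nat_lit 57373) (nat_lit 2) .nil)))))))) (.g (nat_lit 4) .nil .nil))) 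
(.lf (nat_lit 216289) (.g (nat_lit 4719) (.e (nat_lit 90170) (nat_lit 13) (.e (nat_lit 172106) (nat_lit 10) (.e (nat_lit 434231) (nat_lit 23) (.e (nat_lit 532535) (nat_lit 9) (.e (nat_lit 335937) (nat_lit 0) (.e (nat_lit 1939) (nat_lit 132) (.e (nat_lit 622605) (nat_lit 5) (.e (nat_lit 1234) (nat_lit 91) .nil)))))))) (.g (nat_lit 4) .nil .nil)))) (.nd (nat_lit 5) 
(.lf (nat_lit 216273) (.g (nat_lit 3486) (.e (nat_lit 90170) (nat_lit 13) (.e (nat_lit 172106) (nat_lit 10) (.e (nat_lit 434231) (nat_lit 23) (.e (nat_lit 532535) (nat_lit 9) (.e (nat_lit 335937) (nat_lit 0) (.e (nat_lit 992) (nat_lit 81) (.e (nat_lit 4843) (nat_lit 284) (.e (nat_lit 122891) (nat_lit 2) .nil)))))))) (.g (nat_lit 4) .nil .nil))) 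
(.lf (nat_lit 216305) (.g (nat_lit 4559) (.e (nat_lit 90170) (nat_lit 13) (.e (nat_lit 172106) (nat_lit 10) (.e (nat_lit 434231) (nat_lit 23) (.e (nat_lit 532535) (nat_lit 9) (.e (nat_lit 335937) (nat_lit 0) (.e (nat_lit 1941) (nat_lit 132) (.e (nat_lit 622604) (nat_lit 5) (.e (nat_lit 1234) (nat_lit 91) .nil)))))))) (.g (nat_lit 4) .nil .nil))))) (.nd (nat_lit 4) (.nd (nat_lit 5) 
(.lf (nat_lit 216265) (.g (nat_lit 3784) (.e (nat_lit 90170) (nat_lit 13) (.e (nat_lit 172106) (nat_lit 10) (.e (nat_lit 434231) (nat_lit 23) (.e (nat_lit 532535) (nat_lit 9) (.e (nat_lit 335937) (nat_lit 0) (.e (nat_lit 991) (nat_lit 81) (.e (nat_lit 4841) (nat_lit 283) (.e (nat_lit 57374) (nat_lit 2) .nil)))))))) (.g (nat_lit 4) .nil .nil))) 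
(.lf (nat_lit 216297) (.g (nat_lit 3276) (.e (nat_lit 90170) (nat_lit 13) (.e (nat_lit 172106) (nat_lit 10) (.e (nat_lit 434231) (nat_lit 23) (.e (nat_lit 532535) (nat_lit 9) (.e (nat_lit 335937) (nat_lit 0) (.e (nat_lit 1940) (nat_lit 132) (.e (nat_lit 622604) (nat_lit 5) (.e (nat_lit 1237) (nat_lit 91) .nil)))))))) (.g (nat_lit 4) .nil .nil)))) (.nd (nat_lit 5) 
(.lf (nat_lit 216281) (.g (nat_lit 3164) (.e (nat_lit 90170) (nat_lit 13) (.e (nat_lit 172106) (nat_lit 10) (.e (nat_lit 434231) (nat_lit 23) (.e (nat_lit 532535) (nat_lit 9) (.e (nat_lit 335937) (nat_lit 0) (.e (nat_lit 1936) (nat_lit 132) (.e (nat_lit 622604) (nat_lit 5) (.e (nat_lit 1237) (nat_lit 91) .nil)))))))) (.g (nat_lit 4) .nil .nil))) 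
(.lf (nat_lit 216313) (.g (nat_lit 2626) (.e (nat_lit 90170) (nat_lit 13) (.e (nat_lit 172106) (nat_lit 10) (.e (nat_lit 434231) (nat_lit 23) (.e (nat_lit 532535) (nat_lit 9) (.e (nat_lit 336248) (nat_lit 15) .nil))))) .nil))))) (.nd (nat_lit 3) (.nd (nat_lit 4) (.nd (nat_lit 5) 
(.lf (nat_lit 216261) (.g (nat_lit 3955) (.e (nat_lit 90170) (nat_lit 13) (.e (nat_lit 172106) (nat_lit 10) (.e (nat_lit 434231) (nat_lit 23) (.e (nat_lit 532535) (nat_lit 9) (.e (nat_lit 335937) (nat_lit 0) (.e (nat_lit 990) (nat_lit 81) (.e (nat_lit 4841) (nat_lit 283) (.e (nat_lit 57374) (nat_lit 2) .nil)))))))) (.g (nat_lit 4) .nil .nil))) 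
(.lf (nat_lit 216293) (.g (nat_lit 3304) (.e (nat_lit 90170) (nat_lit 13) (.e (nat_lit 172106) (nat_lit 10) (.e (nat_lit 434231) (nat_lit 23) (.e (nat_lit 532535) (nat_lit 9) (.e (nat_lit 335937) (nat_lit 0) (.e (nat_lit 1940) (nat_lit 132) (.e (nat_lit 622598) (nat_lit 5) (.e (nat_lit 1237) (nat_lit 91) .nil)))))))) (.g (nat_lit 4) .nil .nil)))) (.nd (nat_lit 5) 
(.lf (nat_lit 216277) (.g (nat_lit 3750) (.e (nat_lit 90170) (nat_lit 13) (.e (nat_lit 172106) (nat_lit 10) (.e (nat_lit 434231) (nat_lit 23) (.e (nat_lit 532535) (nat_lit 9) (.e (nat_lit 335937) (nat_lit 0) (.e (nat_lit 1936) (nat_lit 132) (.e (nat_lit 622598) (nat_lit 5) (.e (nat_lit 1237) (nat_lit 91) .nil)))))))) (.g (nat_lit 4) .nil .nil))) 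
(.lf (nat_lit 216309) (.g (nat_lit 3189) (.e (nat_lit 90170) (nat_lit 13) (.e (nat_lit 172106) (nat_lit 10) (.e (nat_lit 434231) (nat_lit 23) (.e (nat_lit 532535) (nat_lit 9) (.e (nat_lit 335990) (nat_lit 1) .nil))))) .nil)))) (.nd (nat_lit 4) (.nd (nat_lit 5) 
(.lf (nat_lit 216269) (.g (nat_lit 4206) (.e (nat_lit 90170) (nat_lit 13) (.e (nat_lit 172106) (nat_lit 10) (.e (nat_lit 434231) (nat_lit 23) (.e (nat_lit 532535) (nat_lit 9) (.e (nat_lit 335937) (nat_lit 0) (.e (nat_lit 991) (nat_lit 81) (.e (nat_lit 7936) (nat_lit 283) (.e (nat_lit 57374) (nat_lit 2) .nil)))))))) (.g (nat_lit 4) .nil .nil))) 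
(.lf (nat_lit 216301) (.g (nat_lit 3516) (.e (nat_lit 90170) (nat_lit 13) (.e (nat_lit 172106) (nat_lit 10) (.e (nat_lit 434231) (nat_lit 23) (.e (nat_lit 532535) (nat_lit 9) (.e (nat_lit 335937) (nat_lit 0) (.e (nat_lit 1941) (nat_lit 132) (.e (nat_lit 622598) (nat_lit 5) (.e (nat_lit 1239) (nat_lit 91) .nil)))))))) (.g (nat_lit 4) .nil .nil)))) (.nd (nat_lit 5) 
(.lf (nat_lit 216285) (.g (nat_lit 3746) (.e (nat_lit 90170) (nat_lit 13) (.e (nat_lit 172106) (nat_lit 10) (.e (nat_lit 434231) (nat_lit 23) (.e (nat_lit 532535) (nat_lit 9) (.e (nat_lit 335937) (nat_lit 0) (.e (nat_lit 1939) (nat_lit 132) (.e (nat_lit 622598) (nat_lit 5) (.e (nat_lit 1239) (nat_lit 91) .nil)))))))) (.g (nat_lit 4) .nil .nil))) 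
(.lf (nat_lit 216317) (.g (nat_lit 4856) (.e (nat_lit 90170) (nat_lit 13) (.e (nat_lit 172106) (nat_lit 10) (.e (nat_lit 434231) (nat_lit 23) (.e (nat_lit 532535) (nat_lit 9) (.e (nat_lit 336248) (nat_lit 15) (.e (nat_lit 2398) (nat_lit 157) (.e (nat_lit 6930) (nat_lit 373) (.e (nat_lit 57374) (nat_lit 2) .nil)))))))) (.g (nat_lit 4) .nil .nil))))))) 
(.nd (nat_lit 2) (.nd (nat_lit 3) (.nd (nat_lit 4) (.nd (nat_lit 5) 
(.lf (nat_lit 216259) (.g (nat_lit 3892) (.e (nat_lit 90170) (nat_lit 13) (.e (nat_lit 172106) (nat_lit 10) (.e (nat_lit 434231) (nat_lit 23) (.e (nat_lit 532535) (nat_lit 9) (.e (nat_lit 335937) (nat_lit 0) (.e (nat_lit 989) (nat_lit 81) (.e (nat_lit 7936) (nat_lit 283) (.e (nat_lit 57374) (nat_lit 2) .nil)))))))) (.g (nat_lit 4) .nil .nil))) 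
(.lf (nat_lit 216291) (.g (nat_lit 3618) (.e (nat_lit 90170) (nat_lit 13) (.e (nat_lit 172106) (nat_lit 10) (.e (nat_lit 434231) (nat_lit 23) (.e (nat_lit 532535) (nat_lit 9) (.e (nat_lit 335937) (nat_lit 0) (.e (nat_lit 1939) (nat_lit 132) (.e (nat_lit 630528) (nat_lit 5) (.e (nat_lit 1237) (nat_lit 91) .nil)))))))) (.g (nat_lit 4) .nil .nil)))) (.nd (nat_lit 5) 
(.lf (nat_lit 216275) (.g (nat_lit 4009) (.e (nat_lit 90170) (nat_lit 13) (.e (nat_lit 172106) (nat_lit 10) (.e (nat_lit 434231) (nat_lit 23) (.e (nat_lit 532535) (nat_lit 9) (.e (nat_lit 335937) (nat_lit 0) (.e (nat_lit 1003) (nat_lit 81) (.e (nat_lit 4797) (nat_lit 281) (.e (nat_lit 1039) (nat_lit 81) (.e (nat_lit 1234) (nat_lit 91) .nil))))))))) (.g (nat_lit 4) .nil .nil))) 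
(.lf (nat_lit 216307) (.g (nat_lit 2714) (.e (nat_lit 90170) (nat_lit 13) (.e (nat_lit 172106) (nat_lit 10) (.e (nat_lit 434231) (nat_lit 23) (.e (nat_lit 532535) (nat_lit 9) (.e (nat_lit 335985) (nat_lit 1) (.e (nat_lit 57933) (nat_lit 283) (.e (nat_lit 237312) (nat_lit 63) .nil))))))) (.g (nat_lit 5) .nil .nil))))) (.nd (nat_lit 4) (.nd (nat_lit 5) 
(.lf (nat_lit 216267) (.g (nat_lit 4233) (.e (nat_lit 90170) (nat_lit 13) (.e (nat_lit 172106) (nat_lit 10) (.e (nat_lit 434231) (nat_lit 23) (.e (nat_lit 532535) (nat_lit 9) (.e (nat_lit 335937) (nat_lit 0) (.e (nat_lit 991) (nat_lit 81) (.e (nat_lit 4842) (nat_lit 283) (.e (nat_lit 57374) (nat_lit 2) .nil)))))))) (.g (nat_lit 4) .nil .nil))) 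
(.lf (nat_lit 216299) (.g (nat_lit 3585) (.e (nat_lit 90170) (nat_lit 13) (.e (nat_lit 172106) (nat_lit 10) (.e (nat_lit 434231) (nat_lit 23) (.e (nat_lit 532535) (nat_lit 9) (.e (nat_lit 335937) (nat_lit 0) (.e (nat_lit 1940) (nat_lit 132) (.e (nat_lit 622605) (nat_lit 5) (.e (nat_lit 1237) (nat_lit 91) .nil)))))))) (.g (nat_lit 4) .nil .nil)))) (.nd (nat_lit 5) 
(.lf (nat_lit 216283) (.g (nat_lit 3481) (.e (nat_lit 90170) (nat_lit 13) (.e (nat_lit 172106) (nat_lit 10) (.e (nat_lit 434231) (nat_lit 23) (.e (nat_lit 532535) (nat_lit 9) (.e (nat_lit 335937) (nat_lit 0) (.e (nat_lit 1936) (nat_lit 132) (.e (nat_lit 630528) (nat_lit 5) (.e (nat_lit 1237) (nat_lit 91) .nil)))))))) (.g (nat_lit 4) .nil .nil))) 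
(.lf (nat_lit 216315) (.g (nat_lit 3427) (.e (nat_lit 90170) (nat_lit 13) (.e (nat_lit 172106) (nat_lit 10) (.e (nat_lit 434231) (nat_lit 23) (.e (nat_lit 532535) (nat_lit 9) (.e (nat_lit 336248) (nat_lit 15) (.e (nat_lit 2398) (nat_lit 157) (.e (nat_lit 6848) (nat_lit 371) (.e (nat_lit 1028) (nat_lit 81) (.e (nat_lit 1237) (nat_lit 91) .nil))))))))) (.g (nat_lit 4) .nil .nil)))))) 
(.nd (nat_lit 3) (.nd (nat_lit 4) (.nd (nat_lit 5) 
(.lf (nat_lit 216263) (.g (nat_lit 4081) (.e (nat_lit 90170) (nat_lit 13) (.e (nat_lit 172106) (nat_lit 10) (.e (nat_lit 434231) (nat_lit 23) (.e (nat_lit 532535) (nat_lit 9) (.e (nat_lit 335937) (nat_lit 0) (.e (nat_lit 990) (nat_lit 81) (.e (nat_lit 4842) (nat_lit 283) (.e (nat_lit 57374) (nat_lit 2) .nil)))))))) (.g (nat_lit 4) .nil .nil))) 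
(.lf (nat_lit 216295) (.g (nat_lit 3541) (.e (nat_lit 90170) (nat_lit 13) (.e (nat_lit 172106) (nat_lit 10) (.e (nat_lit 434231) (nat_lit 23) (.e (nat_lit 532535) (nat_lit 9) (.e (nat_lit 335937) (nat_lit 0) (.e (nat_lit 1940) (nat_lit 132) (.e (nat_lit 622600) (nat_lit 5) (.e (nat_lit 1239) (nat_lit 91) .nil)))))))) (.g (nat_lit 4) .nil .nil)))) (.nd (nat_lit 5) 
(.lf (nat_lit 216279) (.g (nat_lit 3764) (.e (nat_lit 90170) (nat_lit 13) (.e (nat_lit 172106) (nat_lit 10) (.e (nat_lit 434231) (nat_lit 23) (.e (nat_lit 532535) (nat_lit 9) (.e (nat_lit 335937) (nat_lit 0) (.e (nat_lit 1936) (nat_lit 132) (.e (nat_lit 622600) (nat_lit 5) (.e (nat_lit 1233) (nat_lit 91) .nil)))))))) (.g (nat_lit 4) .nil .nil))) 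
(.lf (nat_lit 216311) (.g (nat_lit 2968) (.e (nat_lit 90170) (nat_lit 13) (.e (nat_lit 172106) (nat_lit 10) (.e (nat_lit 434231) (nat_lit 23) (.e (nat_lit 532535) (nat_lit 9) (.e (nat_lit 336030) (nat_lit 4) (.e (nat_lit 123127) (nat_lit 239) (.e (nat_lit 1039) (nat_lit 81) (.e (nat_lit 1237) (nat_lit 91) .nil)))))))) (.g (nat_lit 4) .nil .nil))))) (.nd (nat_lit 4) (.nd (nat_lit 5) 
(.lf (nat_lit 216271) (.g (nat_lit 3481) (.e (nat_lit 90170) (nat_lit 13) (.e (nat_lit 172106) (nat_lit 10) (.e (nat_lit 434231) (nat_lit 23) (.e (nat_lit 532535) (nat_lit 9) (.e (nat_lit 335937) (nat_lit 0) (.e (nat_lit 992) (nat_lit 81) (.e (nat_lit 4780) (nat_lit 281) (.e (nat_lit 1010) (nat_lit 81) (.e (nat_lit 1239) (nat_lit 91) .nil))))))))) (.g (nat_lit 4) .nil .nil))) 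
(.lf (nat_lit 216303) (.g (nat_lit 3506) (.e (nat_lit 90170) (nat_lit 13) (.e (nat_lit 172106) (nat_lit 10) (.e (nat_lit 434231) (nat_lit 23) (.e (nat_lit 532535) (nat_lit 9) (.e (nat_lit 335937) (nat_lit 0) (.e (nat_lit 1941) (nat_lit 132) (.e (nat_lit 622602) (nat_lit 5) (.e (nat_lit 1239) (nat_lit 91) .nil)))))))) (.g (nat_lit 4) .nil .nil)))) (.nd (nat_lit 5) 
(.lf (nat_lit 216287) (.g (nat_lit 3792) (.e (nat_lit 90170) (nat_lit 13) (.e (nat_lit 172106) (nat_lit 10) (.e (nat_lit 434231) (nat_lit 23) (.e (nat_lit 532535) (nat_lit 9) (.e (nat_lit 335937) (nat_lit 0) (.e (nat_lit 1939) (nat_lit 132) (.e (nat_lit 622600) (nat_lit 5) (.e (nat_lit 1239) (nat_lit 91) .nil)))))))) (.g (nat_lit 4) .nil .nil))) 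
(.lf (nat_lit 216319) (.g (nat_lit 2964) (.e (nat_lit 90170) (nat_lit 13) (.e (nat_lit 172106) (nat_lit 10) (.e (nat_lit 434231) (nat_lit 23) (.e (nat_lit 532535) (nat_lit 9) (.e (nat_lit 336248) (nat_lit 15) (.e (nat_lit 2411) (nat_lit 157) (.e (nat_lit 6848) (nat_lit 371) (.e (nat_lit 999) (nat_lit 81) (.e (nat_lit 1239) (nat_lit 91) .nil))))))))) (.g (nat_lit 4) .nil .nil)))))))))

noncomputable def tv2844 : DT := (.nd (nat_lit 0) (.nd (nat_lit 1) (.nd (nat_lit 2) (.nd (nat_lit 3) (.nd (nat_lit 4) (.nd (nat_lit 5) 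
(.lf (nat_lit 216320) (.g (nat_lit 4228) (.e (nat_lit 90170) (nat_lit 13) (.e (nat_lit 172106) (nat_lit 10) (.e (nat_lit 434231) (nat_lit 23) (.e (nat_lit 532535) (nat_lit 9) (.e (nat_lit 336248) (nat_lit 15) (.e (nat_lit 2411) (nat_lit 157) (.e (nat_lit 6848) (nat_lit 371) (.e (nat_lit 1027) (nat_lit 81) (.e (nat_lit 1237) (nat_lit 91) .nil))))))))) (.g (nat_lit 4) .nil .nil))) 
(.lf (nat_lit 216352) (.g (nat_lit 3289) (.e (nat_lit 90170) (nat_lit 13) (.e (nat_lit 172106) (nat_lit 10) (.e (nat_lit 434231) (nat_lit 23) (.e (nat_lit 532543) (nat_lit 10) (.e (nat_lit 344096) (nat_lit 18) (.e (nat_lit 4764) (nat_lit 281) (.e (nat_lit 7936) (nat_lit 81) (.e (nat_lit 1237) (nat_lit 91) .nil)))))))) (.g (nat_lit 5) .nil .nil)))) (.nd (nat_lit 5) 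
(.lf (nat_lit 216336) (.g (nat_lit 3699) (.e (nat_lit 90170) (nat_lit 13) (.e (nat_lit 172106) (nat_lit 10) (.e (nat_lit 434231) (nat_lit 23) (.e (nat_lit 532535) (nat_lit 9) (.e (nat_lit 336338) (nat_lit 21) (.e (nat_lit 229566) (nat_lit 170) (.e (nat_lit 1037) (nat_lit 81) (.e (nat_lit 1237) (nat_lit 91) .nil)))))))) (.g (nat_lit 4) .nil .nil))) 
(.lf (nat_lit 216368) (.g (nat_lit 3341) (.e (nat_lit 90170) (nat_lit 13) (.e (nat_lit 172106) (nat_lit 10) (.e (nat_lit 434231) (nat_lit 23) (.e (nat_lit 532543) (nat_lit 10) (.e (nat_lit 344160) (nat_lit 37) (.e (nat_lit 647176) (nat_lit 0) (.e (nat_lit 7936) (nat_lit 2) .nil))))))) (.g (nat_lit 6) .nil .nil))))) (.nd (nat_lit 4) (.nd (nat_lit 5) 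
(.lf (nat_lit 216328) (.g (nat_lit 3969) (.e (nat_lit 90170) (nat_lit 13) (.e (nat_lit 172106) (nat_lit 10) (.e (nat_lit 434231) (nat_lit 23) (.e (nat_lit 532535) (nat_lit 9) (.e (nat_lit 336295) (nat_lit 15) (.e (nat_lit 2442) (nat_lit 157) (.e (nat_lit 7936) (nat_lit 373) (.e (nat_lit 57374) (nat_lit 2) .nil)))))))) (.g (nat_lit 4) .nil .nil))) 
(.lf (nat_lit 216360) (.g (nat_lit 2075) (.e (nat_lit 90170) (nat_lit 13) (.e (nat_lit 172106) (nat_lit 10) (.e (nat_lit 434231) (nat_lit 23) (.e (nat_lit 532543) (nat_lit 10) (.e (nat_lit 344159) (nat_lit 37) (.e (nat_lit 647175) (nat_lit 0) (.e (nat_lit 7936) (nat_lit 2) .nil))))))) (.g (nat_lit 4) .nil .nil)))) (.nd (nat_lit 5) 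
(.lf (nat_lit 216344) (.g (nat_lit 2244) (.e (nat_lit 90170) (nat_lit 13) (.e (nat_lit 172106) (nat_lit 10) (.e (nat_lit 434231) (nat_lit 23) (.e (nat_lit 532543) (nat_lit 10) (.e (nat_lit 344090) (nat_lit 18) (.e (nat_lit 5591) (nat_lit 310) (.e (nat_lit 171776) (nat_lit 63) .nil))))))) (.g (nat_lit 4) .nil .nil))) 
(.lf (nat_lit 216376) (.g (nat_lit 3364) (.e (nat_lit 90170) (nat_lit 13) (.e (nat_lit 172106) (nat_lit 10) (.e (nat_lit 434231) (nat_lit 23) (.e (nat_lit 532543) (nat_lit 10) (.e (nat_lit 344164) (nat_lit 37) (.e (nat_lit 647171) (nat_lit 0) (.e (nat_lit 7936) (nat_lit 2) .nil))))))) (.g (nat_lit 6) .nil .nil)))))) (.nd (nat_lit 3) (.nd (nat_lit 4) (.nd (nat_lit 5) 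
(.lf (nat_lit 216324) (.g (nat_lit 3926) (.e (nat_lit 90170) (nat_lit 13) (.e (nat_lit 172106) (nat_lit 10) (.e (nat_lit 434231) (nat_lit 23) (.e (nat_lit 532535) (nat_lit 9) (.e (nat_lit 336250) (nat_lit 15) (.e (nat_lit 7936) (nat_lit 224) (.e (nat_lit 753696) (nat_lit 13) (.e (nat_lit 1234) (nat_lit 91) .nil)))))))) (.g (nat_lit 4) .nil .nil))) 
(.lf (nat_lit 216356) (.g (nat_lit 2406) (.e (nat_lit 90170) (nat_lit 13) (.e (nat_lit 172106) (nat_lit 10) (.e (nat_lit 434231) (nat_lit 23) (.e (nat_lit 532543) (nat_lit 10) (.e (nat_lit 344098) (nat_lit 18) (.e (nat_lit 5602) (nat_lit 310) (.e (nat_lit 171776) (nat_lit 63) .nil))))))) (.g (nat_lit 4) .nil .nil)))) (.nd (nat_lit 5) 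
(.lf (nat_lit 216340) (.g (nat_lit 3118) (.e (nat_lit 90170) (nat_lit 13) (.e (nat_lit 172106) (nat_lit 10) (.e (nat_lit 434231) (nat_lit 23) (.e (nat_lit 532543) (nat_lit 10) (.e (nat_lit 344090) (nat_lit 18) (.e (nat_lit 4843) (nat_lit 284) (.e (nat_lit 122890) (nat_lit 2) .nil))))))) (.g (nat_lit 6) .nil .nil))) 
(.lf (nat_lit 216372) (.g (nat_lit 3403) (.e (nat_lit 90170) (nat_lit 13) (.e (nat_lit 172106) (nat_lit 10) (.e (nat_lit 434231) (nat_lit 23) (.e (nat_lit 532543) (nat_lit 10) (.e (nat_lit 344161) (nat_lit 37) (.e (nat_lit 647168) (nat_lit 0) (.e (nat_lit 102) (nat_lit 2) .nil))))))) (.g (nat_lit 5) .nil .nil))))) (.nd (nat_lit 4) (.nd (nat_lit 5) 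
(.lf (nat_lit 216332) (.g (nat_lit 2748) (.e (nat_lit 90170) (nat_lit 13) (.e (nat_lit 172106) (nat_lit 10) (.e (nat_lit 434231) (nat_lit 23) (.e (nat_lit 532535) (nat_lit 9) (.e (nat_lit 336295) (nat_lit 15) (.e (nat_lit 2444) (nat_lit 157) (.e (nat_lit 6882) (nat_lit 371) (.e (nat_lit 982) (nat_lit 81) (.e (nat_lit 1237) (nat_lit 91) .nil))))))))) (.g (nat_lit 4) .nil .nil))) 
(.lf (nat_lit 216364) (.g (nat_lit 3395) (.e (nat_lit 90170) (nat_lit 13) (.e (nat_lit 172106) (nat_lit 10) (.e (nat_lit 434231) (nat_lit 23) (.e (nat_lit 532543) (nat_lit 10) (.e (nat_lit 344160) (nat_lit 37) (.e (nat_lit 647169) (nat_lit 0) (.e (nat_lit 102) (nat_lit 2) .nil))))))) (.g (nat_lit 5) .nil .nil)))) (.nd (nat_lit 5) 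
(.lf (nat_lit 216348) (.g (nat_lit 2092) (.e (nat_lit 90170) (nat_lit 13) (.e (nat_lit 172106) (nat_lit 10) (.e (nat_lit 434231) (nat_lit 23) (.e (nat_lit 532543) (nat_lit 10) (.e (nat_lit 344091) (nat_lit 18) (.e (nat_lit 5591) (nat_lit 310) (.e (nat_lit 171776) (nat_lit 63) .nil))))))) (.g (nat_lit 4) .nil .nil))) 
(.lf (nat_lit 216380) (.g (nat_lit 2528) (.e (nat_lit 90170) (nat_lit 13) (.e (nat_lit 172106) (nat_lit 10) (.e (nat_lit 434231) (nat_lit 23) (.e (nat_lit 532544) (nat_lit 10) (.e (nat_lit 344088) (nat_lit 18) (.e (nat_lit 5591) (nat_lit 310) (.e (nat_lit 171776) (nat_lit 63) .nil))))))) (.g (nat_lit 4) .nil .nil))))))) (.nd (nat_lit 2) (.nd (nat_lit 3) (.nd (nat_lit 4) (.nd (nat_lit 5) 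
(.lf (nat_lit 216322) (.g (nat_lit 2984) (.e (nat_lit 90170) (nat_lit 13) (.e (nat_lit 172106) (nat_lit 10) (.e (nat_lit 434231) (nat_lit 23) (.e (nat_lit 532535) (nat_lit 9) (.e (nat_lit 336250) (nat_lit 15) .nil))))) .nil)) 
(.lf (nat_lit 216354) (.g (nat_lit 3185) (.e (nat_lit 90170) (nat_lit 13) (.e (nat_lit 172106) (nat_lit 10) (.e (nat_lit 434231) (nat_lit 23) (.e (nat_lit 532543) (nat_lit 10) (.e (nat_lit 344097) (nat_lit 18) (.e (nat_lit 5596) (nat_lit 310) (.e (nat_lit 171776) (nat_lit 63) .nil))))))) (.g (nat_lit 6) .nil .nil)))) (.nd (nat_lit 5) 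
(.lf (nat_lit 216338) (.g (nat_lit 2470) (.e (nat_lit 90170) (nat_lit 13) (.e (nat_lit 172106) (nat_lit 10) (.e (nat_lit 434231) (nat_lit 23) (.e (nat_lit 532543) (nat_lit 10) (.e (nat_lit 344088) (nat_lit 18) (.e (nat_lit 4752) (nat_lit 281) (.e (nat_lit 1028) (nat_lit 81) (.e (nat_lit 1237) (nat_lit 91) .nil)))))))) (.g (nat_lit 4) .nil .nil))) 
(.lf (nat_lit 216370) (.g (nat_lit 3076) (.e (nat_lit 90170) (nat_lit 13) (.e (nat_lit 172106) (nat_lit 10) (.e (nat_lit 434231) (nat_lit 23) (.e (nat_lit 532543) (nat_lit 10) (.e (nat_lit 344161) (nat_lit 37) (.e (nat_lit 647168) (nat_lit 0) (.e (nat_lit 99) (nat_lit 2) .nil))))))) (.g (nat_lit 4) .nil .nil))))) (.nd (nat_lit 4) (.nd (nat_lit 5) 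
(.lf (nat_lit 216330) (.g (nat_lit 2831) (.e (nat_lit 90170) (nat_lit 13) (.e (nat_lit 172106) (nat_lit 10) (.e (nat_lit 434231) (nat_lit 23) (.e (nat_lit 532535) (nat_lit 9) (.e (nat_lit 336295) (nat_lit 15) (.e (nat_lit 2443) (nat_lit 157) (.e (nat_lit 6867) (nat_lit 371) (.e (nat_lit 1041) (nat_lit 81) (.e (nat_lit 1237) (nat_lit 91) .nil))))))))) (.g (nat_lit 4) .nil .nil))) 
(.lf (nat_lit 216362) (.g (nat_lit 3262) (.e (nat_lit 90170) (nat_lit 13) (.e (nat_lit 172106) (nat_lit 10) (.e (nat_lit 434231) (nat_lit 23) (.e (nat_lit 532543) (nat_lit 10) (.e (nat_lit 344160) (nat_lit 37) (.e (nat_lit 647168) (nat_lit 0) (.e (nat_lit 99) (nat_lit 2) .nil))))))) (.g (nat_lit 5) .nil .nil)))) (.nd (nat_lit 5) 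
(.lf (nat_lit 216346) (.g (nat_lit 2195) (.e (nat_lit 90170) (nat_lit 13) (.e (nat_lit 172106) (nat_lit 10) (.e (nat_lit 434231) (nat_lit 23) (.e (nat_lit 532543) (nat_lit 10) (.e (nat_lit 344091) (nat_lit 18) (.e (nat_lit 4843) (nat_lit 284) (.e (nat_lit 122891) (nat_lit 2) .nil))))))) (.g (nat_lit 4) .nil .nil))) 
(.lf (nat_lit 216378) (.g (nat_lit 2477) (.e (nat_lit 90170) (nat_lit 13) (.e (nat_lit 172106) (nat_lit 10) (.e (nat_lit 434231) (nat_lit 23) (.e (nat_lit 532544) (nat_lit 10) (.e (nat_lit 344088) (nat_lit 18) (.e (nat_lit 4841) (nat_lit 283) (.e (nat_lit 57369) (nat_lit 2) .nil))))))) (.g (nat_lit 4) .nil .nil)))))) (.nd (nat_lit 3) (.nd (nat_lit 4) (.nd (nat_lit 5) 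
(.lf (nat_lit 216326) (.g (nat_lit 4494) (.e (nat_lit 90170) (nat_lit 13) (.e (nat_lit 172106) (nat_lit 10) (.e (nat_lit 434231) (nat_lit 23) (.e (nat_lit 532535) (nat_lit 9) (.e (nat_lit 336291) (nat_lit 15) (.e (nat_lit 3588) (nat_lit 224) (.e (nat_lit 753696) (nat_lit 13) (.e (nat_lit 1234) (nat_lit 91) .nil)))))))) (.g (nat_lit 4) .nil .nil))) 
(.lf (nat_lit 216358) (.g (nat_lit 2193) (.e (nat_lit 90170) (nat_lit 13) (.e (nat_lit 172106) (nat_lit 10) (.e (nat_lit 434231) (nat_lit 23) (.e (nat_lit 532543) (nat_lit 10) (.e (nat_lit 344159) (nat_lit 37) (.e (nat_lit 647170) (nat_lit 0) (.e (nat_lit 7936) (nat_lit 2) .nil))))))) (.g (nat_lit 4) .nil .nil)))) (.nd (nat_lit 5) 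
(.lf (nat_lit 216342) (.g (nat_lit 2199) (.e (nat_lit 90170) (nat_lit 13) (.e (nat_lit 172106) (nat_lit 10) (.e (nat_lit 434231) (nat_lit 23) (.e (nat_lit 532543) (nat_lit 10) (.e (nat_lit 344090) (nat_lit 18) (.e (nat_lit 7936) (nat_lit 284) (.e (nat_lit 122891) (nat_lit 2) .nil))))))) (.g (nat_lit 4) .nil .nil))) 
(.lf (nat_lit 216374) (.g (nat_lit 2602) (.e (nat_lit 90170) (nat_lit 13) (.e (nat_lit 172106) (nat_lit 10) (.e (nat_lit 434231) (nat_lit 23) (.e (nat_lit 532543) (nat_lit 10) (.e (nat_lit 344161) (nat_lit 37) (.e (nat_lit 647175) (nat_lit 0) (.e (nat_lit 7936) (nat_lit 2) .nil))))))) (.g (nat_lit 4) .nil .nil))))) (.nd (nat_lit 4) (.nd (nat_lit 5) 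
(.lf (nat_lit 216334) (.g (nat_lit 3854) (.e (nat_lit 90170) (nat_lit 13) (.e (nat_lit 172106) (nat_lit 10) (.e (nat_lit 434231) (nat_lit 23) (.e (nat_lit 532535) (nat_lit 9) (.e (nat_lit 336295) (nat_lit 15) (.e (nat_lit 2445) (nat_lit 157) (.e (nat_lit 7936) (nat_lit 373) (.e (nat_lit 57374) (nat_lit 2) .nil)))))))) (.g (nat_lit 4) .nil .nil))) 
(.lf (nat_lit 216366) (.g (nat_lit 3408) (.e (nat_lit 90170) (nat_lit 13) (.e (nat_lit 172106) (nat_lit 10) (.e (nat_lit 434231) (nat_lit 23) (.e (nat_lit 532543) (nat_lit 10) (.e (nat_lit 344160) (nat_lit 37) (.e (nat_lit 647171) (nat_lit 0) (.e (nat_lit 7936) (nat_lit 2) .nil))))))) (.g (nat_lit 6) .nil .nil)))) (.nd (nat_lit 5) 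
(.lf (nat_lit 216350) (.g (nat_lit 2722) (.e (nat_lit 90170) (nat_lit 13) (.e (nat_lit 172106) (nat_lit 10) (.e (nat_lit 434231) (nat_lit 23) (.e (nat_lit 532543) (nat_lit 10) (.e (nat_lit 344092) (nat_lit 18) (.e (nat_lit 5604) (nat_lit 310) (.e (nat_lit 171776) (nat_lit 63) .nil))))))) (.g (nat_lit 5) .nil .nil))) 
(.lf (nat_lit 216382) (.g (nat_lit 2465) (.e (nat_lit 90170) (nat_lit 13) (.e (nat_lit 172106) (nat_lit 10) (.e (nat_lit 434231) (nat_lit 23) (.e (nat_lit 532544) (nat_lit 10) (.e (nat_lit 344089) (nat_lit 18) (.e (nat_lit 4752) (nat_lit 281) (.e (nat_lit 1028) (nat_lit 81) (.e (nat_lit 1237) (nat_lit 91) .nil)))))))) (.g (nat_lit 4) .nil .nil)))))))) 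
(.nd (nat_lit 1) (.nd (nat_lit 2) (.nd (nat_lit 3) (.nd (nat_lit 4) (.nd (nat_lit 5) 
(.lf (nat_lit 216321) (.g (nat_lit 3569) (.e (nat_lit 90170) (nat_lit 13) (.e (nat_lit 172106) (nat_lit 10) (.e (nat_lit 434231) (nat_lit 23) (.e (nat_lit 532535) (nat_lit 9) (.e (nat_lit 336248) (nat_lit 15) (.e (nat_lit 2411) (nat_lit 157) (.e (nat_lit 6848) (nat_lit 371) (.e (nat_lit 1028) (nat_lit 81) (.e (nat_lit 1237) (nat_lit 91) .nil))))))))) (.g (nat_lit 4) .nil .nil))) 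
(.lf (nat_lit 216353) (.g (nat_lit 2214) (.e (nat_lit 90170) (nat_lit 13) (.e (nat_lit 172106) (nat_lit 10) (.e (nat_lit 434231) (nat_lit 23) (.e (nat_lit 532543) (nat_lit 10) (.e (nat_lit 344096) (nat_lit 18) (.e (nat_lit 5595) (nat_lit 310) (.e (nat_lit 171776) (nat_lit 63) .nil))))))) (.g (nat_lit 4) .nil .nil)))) (.nd (nat_lit 5) 
(.lf (nat_lit 216337) (.g (nat_lit 2643) (.e (nat_lit 90170) (nat_lit 13) (.e (nat_lit 172106) (nat_lit 10) (.e (nat_lit 434231) (nat_lit 23) (.e (nat_lit 532543) (nat_lit 10) (.e (nat_lit 344087) (nat_lit 18) (.e (nat_lit 4752) (nat_lit 281) (.e (nat_lit 1028) (nat_lit 81) (.e (nat_lit 1237) (nat_lit 91) .nil)))))))) (.g (nat_lit 4) .nil .nil))) 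
(.lf (nat_lit 216369) (.g (nat_lit 3326) (.e (nat_lit 90170) (nat_lit 13) (.e (nat_lit 172106) (nat_lit 10) (.e (nat_lit 434231) (nat_lit 23) (.e (nat_lit 532543) (nat_lit 10) (.e (nat_lit 344160) (nat_lit 37) (.e (nat_lit 647177) (nat_lit 0) (.e (nat_lit 7936) (nat_lit 2) .nil))))))) (.g (nat_lit 6) .nil .nil))))) (.nd (nat_lit 4) (.nd (nat_lit 5) 
(.lf (nat_lit 216329) (.g (nat_lit 3388) (.e (nat_lit 90170) (nat_lit 13) (.e (nat_lit 172106) (nat_lit 10) (.e (nat_lit 434231) (nat_lit 23) (.e (nat_lit 532535) (nat_lit 9) (.e (nat_lit 336295) (nat_lit 15) (.e (nat_lit 2443) (nat_lit 157) (.e (nat_lit 6867) (nat_lit 371) (.e (nat_lit 982) (nat_lit 81) (.e (nat_lit 1237) (nat_lit 91) .nil))))))))) (.g (nat_lit 4) .nil .nil))) 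
(.lf (nat_lit 216361) (.g (nat_lit 2548) (.e (nat_lit 90170) (nat_lit 13) (.e (nat_lit 172106) (nat_lit 10) (.e (nat_lit 434231) (nat_lit 23) (.e (nat_lit 532543) (nat_lit 10) (.e (nat_lit 344159) (nat_lit 37) (.e (nat_lit 647176) (nat_lit 0) (.e (nat_lit 7936) (nat_lit 2) .nil))))))) (.g (nat_lit 4) .nil .nil)))) (.nd (nat_lit 5) 
(.lf (nat_lit 216345) (.g (nat_lit 2230) (.e (nat_lit 90170) (nat_lit 13) (.e (nat_lit 172106) (nat_lit 10) (.e (nat_lit 434231) (nat_lit 23) (.e (nat_lit 532543) (nat_lit 10) (.e (nat_lit 344090) (nat_lit 18) (.e (nat_lit 5592) (nat_lit 310) (.e (nat_lit 171776) (nat_lit 63) .nil))))))) (.g (nat_lit 4) .nil .nil))) 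
(.lf (nat_lit 216377) (.g (nat_lit 2486) (.e (nat_lit 90170) (nat_lit 13) (.e (nat_lit 172106) (nat_lit 10) (.e (nat_lit 434231) (nat_lit 23) (.e (nat_lit 532544) (nat_lit 10) (.e (nat_lit 344087) (nat_lit 18) (.e (nat_lit 4752) (nat_lit 281) (.e (nat_lit 1028) (nat_lit 81) (.e (nat_lit 1237) (nat_lit 91) .nil)))))))) (.g (nat_lit 4) .nil .nil)))))) 
(.nd (nat_lit 3) (.nd (nat_lit 4) (.nd (nat_lit 5) 
(.lf (nat_lit 216325) (.g (nat_lit 3618) (.e (nat_lit 90170) (nat_lit 13) (.e (nat_lit 172106) (nat_lit 10) (.e (nat_lit 434231) (nat_lit 23) (.e (nat_lit 532535) (nat_lit 9) (.e (nat_lit 336280) (nat_lit 15) (.e (nat_lit 3588) (nat_lit 224) (.e (nat_lit 753696) (nat_lit 13) (.e (nat_lit 1234) (nat_lit 91) .nil)))))))) (.g (nat_lit 4) .nil .nil))) 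
(.lf (nat_lit 216357) (.g (nat_lit 2941) (.e (nat_lit 90170) (nat_lit 13) (.e (nat_lit 172106) (nat_lit 10) (.e (nat_lit 434231) (nat_lit 23) (.e (nat_lit 532543) (nat_lit 10) (.e (nat_lit 344104) (nat_lit 18) (.e (nat_lit 5598) (nat_lit 310) (.e (nat_lit 171776) (nat_lit 63) .nil))))))) (.g (nat_lit 6) .nil .nil)))) (.nd (nat_lit 5) 
(.lf (nat_lit 216341) (.g (nat_lit 3286) (.e (nat_lit 90170) (nat_lit 13) (.e (nat_lit 172106) (nat_lit 10) (.e (nat_lit 434231) (nat_lit 23) (.e (nat_lit 532543) (nat_lit 10) (.e (nat_lit 344090) (nat_lit 18) (.e (nat_lit 4843) (nat_lit 284) (.e (nat_lit 122891) (nat_lit 2) .nil))))))) (.g (nat_lit 6) .nil .nil))) 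
(.lf (nat_lit 216373) (.g (nat_lit 3238) (.e (nat_lit 90170) (nat_lit 13) (.e (nat_lit 172106) (nat_lit 10) (.e (nat_lit 434231) (nat_lit 23) (.e (nat_lit 532543) (nat_lit 10) (.e (nat_lit 344161) (nat_lit 37) (.e (nat_lit 647171) (nat_lit 0) (.e (nat_lit 7936) (nat_lit 2) .nil))))))) (.g (nat_lit 6) .nil .nil))))) (.nd (nat_lit 4) (.nd (nat_lit 5) 
(.lf (nat_lit 216333) (.g (nat_lit 3915) (.e (nat_lit 90170) (nat_lit 13) (.e (nat_lit 172106) (nat_lit 10) (.e (nat_lit 434231) (nat_lit 23) (.e (nat_lit 532535) (nat_lit 9) (.e (nat_lit 336295) (nat_lit 15) (.e (nat_lit 2444) (nat_lit 157) (.e (nat_lit 7936) (nat_lit 373) (.e (nat_lit 57374) (nat_lit 2) .nil)))))))) (.g (nat_lit 4) .nil .nil))) 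
(.lf (nat_lit 216365) (.g (nat_lit 3816) (.e (nat_lit 90170) (nat_lit 13) (.e (nat_lit 172106) (nat_lit 10) (.e (nat_lit 434231) (nat_lit 23) (.e (nat_lit 532543) (nat_lit 10) (.e (nat_lit 344160) (nat_lit 37) (.e (nat_lit 647170) (nat_lit 0) (.e (nat_lit 7936) (nat_lit 2) .nil))))))) (.g (nat_lit 6) .nil .nil)))) (.nd (nat_lit 5) 
(.lf (nat_lit 216349) (.g (nat_lit 2198) (.e (nat_lit 90170) (nat_lit 13) (.e (nat_lit 172106) (nat_lit 10) (.e (nat_lit 434231) (nat_lit 23) (.e (nat_lit 532543) (nat_lit 10) (.e (nat_lit 344091) (nat_lit 18) (.e (nat_lit 5593) (nat_lit 310) (.e (nat_lit 171776) (nat_lit 63) .nil))))))) (.g (nat_lit 4) .nil .nil))) 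
(.lf (nat_lit 216381) (.g (nat_lit 2446) (.e (nat_lit 90170) (nat_lit 13) (.e (nat_lit 172106) (nat_lit 10) (.e (nat_lit 434231) (nat_lit 23) (.e (nat_lit 532544) (nat_lit 10) (.e (nat_lit 344088) (nat_lit 18) (.e (nat_lit 5604) (nat_lit 310) (.e (nat_lit 171776) (nat_lit 63) .nil))))))) (.g (nat_lit 4) .nil .nil))))))) (.nd (nat_lit 2) (.nd (nat_lit 3) (.nd (nat_lit 4) (.nd (nat_lit 5) 
(.lf (nat_lit 216323) (.g (nat_lit 3114) (.e (nat_lit 90170) (nat_lit 13) (.e (nat_lit 172106) (nat_lit 10) (.e (nat_lit 434231) (nat_lit 23) (.e (nat_lit 532535) (nat_lit 9) (.e (nat_lit 336250) (nat_lit 15) (.e (nat_lit 2521) (nat_lit 157) (.e (nat_lit 6892) (nat_lit 371) (.e (nat_lit 1037) (nat_lit 81) (.e (nat_lit 1237) (nat_lit 91) .nil))))))))) (.g (nat_lit 4) .nil .nil))) 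
(.lf (nat_lit 216355) (.g (nat_lit 2996) (.e (nat_lit 90170) (nat_lit 13) (.e (nat_lit 172106) (nat_lit 10) (.e (nat_lit 434231) (nat_lit 23) (.e (nat_lit 532543) (nat_lit 10) (.e (nat_lit 344097) (nat_lit 18) (.e (nat_lit 5601) (nat_lit 310) (.e (nat_lit 171776) (nat_lit 63) .nil))))))) (.g (nat_lit 6) .nil .nil)))) (.nd (nat_lit 5) 
(.lf (nat_lit 216339) (.g (nat_lit 2454) (.e (nat_lit 90170) (nat_lit 13) (.e (nat_lit 172106) (nat_lit 10) (.e (nat_lit 434231) (nat_lit 23) (.e (nat_lit 532543) (nat_lit 10) (.e (nat_lit 344090) (nat_lit 18) (.e (nat_lit 4761) (nat_lit 281) (.e (nat_lit 1095) (nat_lit 81) (.e (nat_lit 1237) (nat_lit 91) .nil)))))))) (.g (nat_lit 4) .nil .nil))) 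
(.lf (nat_lit 216371) (.g (nat_lit 3332) (.e (nat_lit 90170) (nat_lit 13) (.e (nat_lit 172106) (nat_lit 10) (.e (nat_lit 434231) (nat_lit 23) (.e (nat_lit 532543) (nat_lit 10) (.e (nat_lit 344161) (nat_lit 37) (.e (nat_lit 647168) (nat_lit 0) (.e (nat_lit 101) (nat_lit 2) .nil))))))) (.g (nat_lit 5) .nil .nil))))) (.nd (nat_lit 4) (.nd (nat_lit 5) 
(.lf (nat_lit 216331) (.g (nat_lit 4011) (.e (nat_lit 90170) (nat_lit 13) (.e (nat_lit 172106) (nat_lit 10) (.e (nat_lit 434231) (nat_lit 23) (.e (nat_lit 532535) (nat_lit 9) (.e (nat_lit 336295) (nat_lit 15) (.e (nat_lit 2443) (nat_lit 157) (.e (nat_lit 6921) (nat_lit 371) (.e (nat_lit 982) (nat_lit 81) (.e (nat_lit 1237) (nat_lit 91) .nil))))))))) (.g (nat_lit 5) .nil .nil))) 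
(.lf (nat_lit 216363) (.g (nat_lit 3589) (.e (nat_lit 90170) (nat_lit 13) (.e (nat_lit 172106) (nat_lit 10) (.e (nat_lit 434231) (nat_lit 23) (.e (nat_lit 532543) (nat_lit 10) (.e (nat_lit 344160) (nat_lit 37) (.e (nat_lit 647168) (nat_lit 0) (.e (nat_lit 102) (nat_lit 2) .nil))))))) (.g (nat_lit 5) .nil .nil)))) (.nd (nat_lit 5) 
(.lf (nat_lit 216347) (.g (nat_lit 2109) (.e (nat_lit 90170) (nat_lit 13) (.e (nat_lit 172106) (nat_lit 10) (.e (nat_lit 434231) (nat_lit 23) (.e (nat_lit 532543) (nat_lit 10) (.e (nat_lit 344091) (nat_lit 18) (.e (nat_lit 5590) (nat_lit 310) (.e (nat_lit 171776) (nat_lit 63) .nil))))))) (.g (nat_lit 4) .nil .nil))) 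
(.lf (nat_lit 216379) (.g (nat_lit 2481) (.e (nat_lit 90170) (nat_lit 13) (.e (nat_lit 172106) (nat_lit 10) (.e (nat_lit 434231) (nat_lit 23) (.e (nat_lit 532544) (nat_lit 10) (.e (nat_lit 344088) (nat_lit 18) (.e (nat_lit 5583) (nat_lit 310) (.e (nat_lit 171776) (nat_lit 63) .nil))))))) (.g (nat_lit 4) .nil .nil)))))) (.nd (nat_lit 3) (.nd (nat_lit 4) (.nd (nat_lit 5) 
(.lf (nat_lit 216327) (.g (nat_lit 4015) (.e (nat_lit 90170) (nat_lit 13) (.e (nat_lit 172106) (nat_lit 10) (.e (nat_lit 434231) (nat_lit 23) (.e (nat_lit 532535) (nat_lit 9) (.e (nat_lit 336294) (nat_lit 15) (.e (nat_lit 3588) (nat_lit 224) (.e (nat_lit 753696) (nat_lit 13) (.e (nat_lit 1234) (nat_lit 91) .nil)))))))) (.g (nat_lit 4) .nil .nil))) 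
(.lf (nat_lit 216359) (.g (nat_lit 2491) (.e (nat_lit 90170) (nat_lit 13) (.e (nat_lit 172106) (nat_lit 10) (.e (nat_lit 434231) (nat_lit 23) (.e (nat_lit 532543) (nat_lit 10) (.e (nat_lit 344159) (nat_lit 37) (.e (nat_lit 647173) (nat_lit 0) (.e (nat_lit 7936) (nat_lit 2) .nil))))))) (.g (nat_lit 4) .nil .nil)))) (.nd (nat_lit 5) 
(.lf (nat_lit 216343) (.g (nat_lit 2149) (.e (nat_lit 90170) (nat_lit 13) (.e (nat_lit 172106) (nat_lit 10) (.e (nat_lit 434231) (nat_lit 23) (.e (nat_lit 532543) (nat_lit 10) (.e (nat_lit 344090) (nat_lit 18) (.e (nat_lit 5590) (nat_lit 310) (.e (nat_lit 171776) (nat_lit 63) .nil))))))) (.g (nat_lit 4) .nil .nil))) 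
(.lf (nat_lit 216375) (.g (nat_lit 2777) (.e (nat_lit 90170) (nat_lit 13) (.e (nat_lit 172106) (nat_lit 10) (.e (nat_lit 434231) (nat_lit 23) (.e (nat_lit 532543) (nat_lit 10) (.e (nat_lit 344161) (nat_lit 37) (.e (nat_lit 647176) (nat_lit 0) (.e (nat_lit 7936) (nat_lit 2) .nil))))))) (.g (nat_lit 5) .nil .nil))))) (.nd (nat_lit 4) (.nd (nat_lit 5) 
(.lf (nat_lit 216335) (.g (nat_lit 2498) (.e (nat_lit 90170) (nat_lit 13) (.e (nat_lit 172106) (nat_lit 10) (.e (nat_lit 434231) (nat_lit 23) (.e (nat_lit 532535) (nat_lit 9) (.e (nat_lit 336295) (nat_lit 15) (.e (nat_lit 7936) (nat_lit 224) (.e (nat_lit 753696) (nat_lit 13) (.e (nat_lit 1236) (nat_lit 91) .nil)))))))) (.g (nat_lit 4) .nil .nil))) 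
(.lf (nat_lit 216367) (.g (nat_lit 2877) (.e (nat_lit 90170) (nat_lit 13) (.e (nat_lit 172106) (nat_lit 10) (.e (nat_lit 434231) (nat_lit 23) (.e (nat_lit 532543) (nat_lit 10) (.e (nat_lit 344160) (nat_lit 37) (.e (nat_lit 647175) (nat_lit 0) (.e (nat_lit 7936) (nat_lit 2) .nil))))))) (.g (nat_lit 5) .nil .nil)))) (.nd (nat_lit 5) 
(.lf (nat_lit 216351) (.g (nat_lit 2615) (.e (nat_lit 90170) (nat_lit 13) (.e (nat_lit 172106) (nat_lit 10) (.e (nat_lit 434231) (nat_lit 23) (.e (nat_lit 532543) (nat_lit 10) (.e (nat_lit 344096) (nat_lit 18) (.e (nat_lit 4761) (nat_lit 281) (.e (nat_lit 1095) (nat_lit 81) (.e (nat_lit 1237) (nat_lit 91) .nil)))))))) (.g (nat_lit 4) .nil .nil))) 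
(.lf (nat_lit 216383) (.g (nat_lit 2635) (.e (nat_lit 90170) (nat_lit 13) (.e (nat_lit 172106) (nat_lit 10) (.e (nat_lit 434231) (nat_lit 23) (.e (nat_lit 532544) (nat_lit 10) (.e (nat_lit 344090) (nat_lit 18) (.e (nat_lit 4843) (nat_lit 284) (.e (nat_lit 122890) (nat_lit 2) .nil))))))) (.g (nat_lit 4) .nil .nil)))))))))

noncomputable def tv2845 : DT := (.nd (nat_lit 0) (.nd (nat_lit 1) (.nd (nat_lit 2) (.nd (nat_lit 3) (.nd (nat_lit 4) (.nd (nat_lit 5) 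
(.lf (nat_lit 216384) (.g (nat_lit 2803) (.e (nat_lit 90170) (nat_lit 13) (.e (nat_lit 172106) (nat_lit 10) (.e (nat_lit 434231) (nat_lit 23) (.e (nat_lit 532544) (nat_lit 10) (.e (nat_lit 344090) (nat_lit 18) (.e (nat_lit 4843) (nat_lit 284) (.e (nat_lit 122891) (nat_lit 2) .nil))))))) (.g (nat_lit 4) .nil .nil))) 
(.lf (nat_lit 216416) (.g (nat_lit 2707) (.e (nat_lit 90170) (nat_lit 13) (.e (nat_lit 172106) (nat_lit 10) (.e (nat_lit 434231) (nat_lit 23) (.e (nat_lit 532544) (nat_lit 10) (.e (nat_lit 344159) (nat_lit 37) (.e (nat_lit 647168) (nat_lit 0) (.e (nat_lit 101) (nat_lit 2) .nil))))))) (.g (nat_lit 4) .nil .nil)))) (.nd (nat_lit 5) 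
(.lf (nat_lit 216400) (.g (nat_lit 2776) (.e (nat_lit 90170) (nat_lit 13) (.e (nat_lit 172106) (nat_lit 10) (.e (nat_lit 434231) (nat_lit 23) (.e (nat_lit 532544) (nat_lit 10) (.e (nat_lit 344096) (nat_lit 18) (.e (nat_lit 7936) (nat_lit 284) (.e (nat_lit 122891) (nat_lit 2) .nil))))))) (.g (nat_lit 4) .nil .nil))) 
(.lf (nat_lit 216432) (.g (nat_lit 3542) (.e (nat_lit 90170) (nat_lit 13) (.e (nat_lit 172106) (nat_lit 10) (.e (nat_lit 434231) (nat_lit 23) (.e (nat_lit 532544) (nat_lit 10) (.e (nat_lit 344161) (nat_lit 37) (.e (nat_lit 647171) (nat_lit 0) (.e (nat_lit 7936) (nat_lit 2) .nil))))))) (.g (nat_lit 6) .nil .nil))))) (.nd (nat_lit 4) (.nd (nat_lit 5) 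
(.lf (nat_lit 216392) (.g (nat_lit 2479) (.e (nat_lit 90170) (nat_lit 13) (.e (nat_lit 172106) (nat_lit 10) (.e (nat_lit 434231) (nat_lit 23) (.e (nat_lit 532544) (nat_lit 10) (.e (nat_lit 344094) (nat_lit 18) (.e (nat_lit 4843) (nat_lit 284) (.e (nat_lit 122891) (nat_lit 2) .nil))))))) (.g (nat_lit 4) .nil .nil))) 
(.lf (nat_lit 216424) (.g (nat_lit 3291) (.e (nat_lit 90170) (nat_lit 13) (.e (nat_lit 172106) (nat_lit 10) (.e (nat_lit 434231) (nat_lit 23) (.e (nat_lit 532544) (nat_lit 10) (.e (nat_lit 344160) (nat_lit 37) (.e (nat_lit 647176) (nat_lit 0) (.e (nat_lit 7936) (nat_lit 2) .nil))))))) (.g (nat_lit 5) .nil .nil)))) (.nd (nat_lit 5) 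
(.lf (nat_lit 216408) (.g (nat_lit 2657) (.e (nat_lit 90170) (nat_lit 13) (.e (nat_lit 172106) (nat_lit 10) (.e (nat_lit 434231) (nat_lit 23) (.e (nat_lit 532544) (nat_lit 10) (.e (nat_lit 352000) (nat_lit 18) (.e (nat_lit 4751) (nat_lit 281) (.e (nat_lit 1028) (nat_lit 81) (.e (nat_lit 1237) (nat_lit 91) .nil)))))))) (.g (nat_lit 4) .nil .nil))) 
(.lf (nat_lit 216440) (.g (nat_lit 3071) (.e (nat_lit 90170) (nat_lit 13) (.e (nat_lit 172106) (nat_lit 10) (.e (nat_lit 434231) (nat_lit 23) (.e (nat_lit 532544) (nat_lit 10) (.e (nat_lit 344163) (nat_lit 37) (.e (nat_lit 647173) (nat_lit 0) (.e (nat_lit 7936) (nat_lit 2) .nil))))))) (.g (nat_lit 6) .nil .nil)))))) (.nd (nat_lit 3) (.nd (nat_lit 4) (.nd (nat_lit 5) 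
(.lf (nat_lit 216388) (.g (nat_lit 2862) (.e (nat_lit 90170) (nat_lit 13) (.e (nat_lit 172106) (nat_lit 10) (.e (nat_lit 434231) (nat_lit 23) (.e (nat_lit 532544) (nat_lit 10) (.e (nat_lit 344091) (nat_lit 18) (.e (nat_lit 5591) (nat_lit 310) (.e (nat_lit 171776) (nat_lit 63) .nil))))))) (.g (nat_lit 5) .nil .nil))) 
(.lf (nat_lit 216420) (.g (nat_lit 3023) (.e (nat_lit 90170) (nat_lit 13) (.e (nat_lit 172106) (nat_lit 10) (.e (nat_lit 434231) (nat_lit 23) (.e (nat_lit 532544) (nat_lit 10) (.e (nat_lit 344159) (nat_lit 37) (.e (nat_lit 647176) (nat_lit 0) (.e (nat_lit 7936) (nat_lit 2) .nil))))))) (.g (nat_lit 6) .nil .nil)))) (.nd (nat_lit 5) 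
(.lf (nat_lit 216404) (.g (nat_lit 2176) (.e (nat_lit 90170) (nat_lit 13) (.e (nat_lit 172106) (nat_lit 10) (.e (nat_lit 434231) (nat_lit 23) (.e (nat_lit 532544) (nat_lit 10) (.e (nat_lit 344098) (nat_lit 18) (.e (nat_lit 5596) (nat_lit 310) (.e (nat_lit 171776) (nat_lit 63) .nil))))))) (.g (nat_lit 4) .nil .nil))) 
(.lf (nat_lit 216436) (.g (nat_lit 2897) (.e (nat_lit 90170) (nat_lit 13) (.e (nat_lit 172106) (nat_lit 10) (.e (nat_lit 434231) (nat_lit 23) (.e (nat_lit 532544) (nat_lit 10) (.e (nat_lit 344163) (nat_lit 37) (.e (nat_lit 647168) (nat_lit 0) (.e (nat_lit 99) (nat_lit 2) .nil))))))) (.g (nat_lit 4) .nil .nil))))) (.nd (nat_lit 4) (.nd (nat_lit 5) 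
(.lf (nat_lit 216396) (.g (nat_lit 3568) (.e (nat_lit 90170) (nat_lit 13) (.e (nat_lit 172106) (nat_lit 10) (.e (nat_lit 434231) (nat_lit 23) (.e (nat_lit 532544) (nat_lit 10) (.e (nat_lit 344096) (nat_lit 18) (.e (nat_lit 4761) (nat_lit 281) (.e (nat_lit 1091) (nat_lit 81) (.e (nat_lit 1237) (nat_lit 91) .nil)))))))) (.g (nat_lit 5) .nil .nil))) 
(.lf (nat_lit 216428) (.g (nat_lit 2665) (.e (nat_lit 90170) (nat_lit 13) (.e (nat_lit 172106) (nat_lit 10) (.e (nat_lit 434231) (nat_lit 23) (.e (nat_lit 532544) (nat_lit 10) (.e (nat_lit 344160) (nat_lit 37) (.e (nat_lit 655104) (nat_lit 0) (.e (nat_lit 101) (nat_lit 2) .nil))))))) (.g (nat_lit 4) .nil .nil)))) (.nd (nat_lit 5) 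
(.lf (nat_lit 216412) (.g (nat_lit 2389) (.e (nat_lit 90170) (nat_lit 13) (.e (nat_lit 172106) (nat_lit 10) (.e (nat_lit 434231) (nat_lit 23) (.e (nat_lit 532544) (nat_lit 10) (.e (nat_lit 344152) (nat_lit 34) (.e (nat_lit 622603) (nat_lit 5) (.e (nat_lit 1236) (nat_lit 91) .nil))))))) (.g (nat_lit 4) .nil .nil))) 
(.lf (nat_lit 216444) (.g (nat_lit 3397) (.e (nat_lit 90170) (nat_lit 13) (.e (nat_lit 172106) (nat_lit 10) (.e (nat_lit 434231) (nat_lit 23) (.e (nat_lit 532554) (nat_lit 13) (.e (nat_lit 368662) (nat_lit 18) (.e (nat_lit 5589) (nat_lit 310) (.e (nat_lit 171776) (nat_lit 63) .nil))))))) (.g (nat_lit 6) .nil .nil))))))) (.nd (nat_lit 2) (.nd (nat_lit 3) (.nd (nat_lit 4) (.nd (nat_lit 5) 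
(.lf (nat_lit 216386) (.g (nat_lit 2965) (.e (nat_lit 90170) (nat_lit 13) (.e (nat_lit 172106) (nat_lit 10) (.e (nat_lit 434231) (nat_lit 23) (.e (nat_lit 532544) (nat_lit 10) (.e (nat_lit 344091) (nat_lit 18) (.e (nat_lit 4843) (nat_lit 284) (.e (nat_lit 122891) (nat_lit 2) .nil))))))) (.g (nat_lit 5) .nil .nil))) 
(.lf (nat_lit 216418) (.g (nat_lit 2966) (.e (nat_lit 90170) (nat_lit 13) (.e (nat_lit 172106) (nat_lit 10) (.e (nat_lit 434231) (nat_lit 23) (.e (nat_lit 532544) (nat_lit 10) (.e (nat_lit 344159) (nat_lit 37) (.e (nat_lit 647173) (nat_lit 0) (.e (nat_lit 7936) (nat_lit 2) .nil))))))) (.g (nat_lit 6) .nil .nil)))) (.nd (nat_lit 5) 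
(.lf (nat_lit 216402) (.g (nat_lit 3048) (.e (nat_lit 90170) (nat_lit 13) (.e (nat_lit 172106) (nat_lit 10) (.e (nat_lit 434231) (nat_lit 23) (.e (nat_lit 532544) (nat_lit 10) (.e (nat_lit 344097) (nat_lit 18) (.e (nat_lit 5596) (nat_lit 310) (.e (nat_lit 171776) (nat_lit 63) .nil))))))) (.g (nat_lit 5) .nil .nil))) 
(.lf (nat_lit 216434) (.g (nat_lit 3081) (.e (nat_lit 90170) (nat_lit 13) (.e (nat_lit 172106) (nat_lit 10) (.e (nat_lit 434231) (nat_lit 23) (.e (nat_lit 532544) (nat_lit 10) (.e (nat_lit 344161) (nat_lit 37) (.e (nat_lit 647176) (nat_lit 0) (.e (nat_lit 7936) (nat_lit 2) .nil))))))) (.g (nat_lit 5) .nil .nil))))) (.nd (nat_lit 4) (.nd (nat_lit 5) 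
(.lf (nat_lit 216394) (.g (nat_lit 2579) (.e (nat_lit 90170) (nat_lit 13) (.e (nat_lit 172106) (nat_lit 10) (.e (nat_lit 434231) (nat_lit 23) (.e (nat_lit 532544) (nat_lit 10) (.e (nat_lit 344096) (nat_lit 18) (.e (nat_lit 4761) (nat_lit 281) (.e (nat_lit 1061) (nat_lit 81) (.e (nat_lit 1235) (nat_lit 91) .nil)))))))) (.g (nat_lit 4) .nil .nil))) 
(.lf (nat_lit 216426) (.g (nat_lit 2832) (.e (nat_lit 90170) (nat_lit 13) (.e (nat_lit 172106) (nat_lit 10) (.e (nat_lit 434231) (nat_lit 23) (.e (nat_lit 532544) (nat_lit 10) (.e (nat_lit 344160) (nat_lit 37) (.e (nat_lit 655104) (nat_lit 0) (.e (nat_lit 98) (nat_lit 2) .nil))))))) (.g (nat_lit 4) .nil .nil)))) (.nd (nat_lit 5) 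
(.lf (nat_lit 216410) (.g (nat_lit 2986) (.e (nat_lit 90170) (nat_lit 13) (.e (nat_lit 172106) (nat_lit 10) (.e (nat_lit 434231) (nat_lit 23) (.e (nat_lit 532544) (nat_lit 10) (.e (nat_lit 344151) (nat_lit 34) (.e (nat_lit 630528) (nat_lit 5) (.e (nat_lit 1237) (nat_lit 91) .nil))))))) (.g (nat_lit 4) .nil .nil))) 
(.lf (nat_lit 216442) (.g (nat_lit 3660) (.e (nat_lit 90170) (nat_lit 13) (.e (nat_lit 172106) (nat_lit 10) (.e (nat_lit 434231) (nat_lit 23) (.e (nat_lit 532544) (nat_lit 10) (.e (nat_lit 344164) (nat_lit 37) (.e (nat_lit 647171) (nat_lit 0) (.e (nat_lit 7936) (nat_lit 2) .nil))))))) (.g (nat_lit 6) .nil .nil)))))) (.nd (nat_lit 3) (.nd (nat_lit 4) (.nd (nat_lit 5) 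
(.lf (nat_lit 216390) (.g (nat_lit 3763) (.e (nat_lit 90170) (nat_lit 13) (.e (nat_lit 172106) (nat_lit 10) (.e (nat_lit 434231) (nat_lit 23) (.e (nat_lit 532544) (nat_lit 10) (.e (nat_lit 344092) (nat_lit 18) (.e (nat_lit 5604) (nat_lit 310) (.e (nat_lit 171776) (nat_lit 63) .nil))))))) (.g (nat_lit 6) .nil .nil))) 
(.lf (nat_lit 216422) (.g (nat_lit 3761) (.e (nat_lit 90170) (nat_lit 13) (.e (nat_lit 172106) (nat_lit 10) (.e (nat_lit 434231) (nat_lit 23) (.e (nat_lit 532544) (nat_lit 10) (.e (nat_lit 344160) (nat_lit 37) (.e (nat_lit 647170) (nat_lit 0) (.e (nat_lit 7936) (nat_lit 2) .nil))))))) (.g (nat_lit 6) .nil .nil)))) (.nd (nat_lit 5) 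
(.lf (nat_lit 216406) (.g (nat_lit 2821) (.e (nat_lit 90170) (nat_lit 13) (.e (nat_lit 172106) (nat_lit 10) (.e (nat_lit 434231) (nat_lit 23) (.e (nat_lit 532544) (nat_lit 10) (.e (nat_lit 344102) (nat_lit 18) (.e (nat_lit 4803) (nat_lit 281) (.e (nat_lit 982) (nat_lit 81) (.e (nat_lit 1237) (nat_lit 91) .nil)))))))) (.g (nat_lit 4) .nil .nil))) 
(.lf (nat_lit 216438) (.g (nat_lit 2874) (.e (nat_lit 90170) (nat_lit 13) (.e (nat_lit 172106) (nat_lit 10) (.e (nat_lit 434231) (nat_lit 23) (.e (nat_lit 532544) (nat_lit 10) (.e (nat_lit 344163) (nat_lit 37) (.e (nat_lit 647171) (nat_lit 0) (.e (nat_lit 7936) (nat_lit 2) .nil))))))) (.g (nat_lit 5) .nil .nil))))) (.nd (nat_lit 4) (.nd (nat_lit 5) 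
(.lf (nat_lit 216398) (.g (nat_lit 3000) (.e (nat_lit 90170) (nat_lit 13) (.e (nat_lit 172106) (nat_lit 10) (.e (nat_lit 434231) (nat_lit 23) (.e (nat_lit 532544) (nat_lit 10) (.e (nat_lit 344096) (nat_lit 18) (.e (nat_lit 4843) (nat_lit 284) (.e (nat_lit 122891) (nat_lit 2) .nil))))))) (.g (nat_lit 4) .nil .nil))) 
(.lf (nat_lit 216430) (.g (nat_lit 3569) (.e (nat_lit 90170) (nat_lit 13) (.e (nat_lit 172106) (nat_lit 10) (.e (nat_lit 434231) (nat_lit 23) (.e (nat_lit 532544) (nat_lit 10) (.e (nat_lit 344161) (nat_lit 37) (.e (nat_lit 647168) (nat_lit 0) (.e (nat_lit 101) (nat_lit 2) .nil))))))) (.g (nat_lit 5) .nil .nil)))) (.nd (nat_lit 5) 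
(.lf (nat_lit 216414) (.g (nat_lit 2453) (.e (nat_lit 90170) (nat_lit 13) (.e (nat_lit 172106) (nat_lit 10) (.e (nat_lit 434231) (nat_lit 23) (.e (nat_lit 532544) (nat_lit 10) (.e (nat_lit 344152) (nat_lit 34) (.e (nat_lit 622606) (nat_lit 5) (.e (nat_lit 1235) (nat_lit 91) .nil))))))) (.g (nat_lit 4) .nil .nil))) 
(.lf (nat_lit 216446) (.g (nat_lit 3119) (.e (nat_lit 90170) (nat_lit 13) (.e (nat_lit 172106) (nat_lit 10) (.e (nat_lit 434231) (nat_lit 23) (.e (nat_lit 532554) (nat_lit 13) (.e (nat_lit 368663) (nat_lit 18) (.e (nat_lit 5596) (nat_lit 310) (.e (nat_lit 171776) (nat_lit 63) .nil))))))) (.g (nat_lit 5) .nil .nil)))))))) 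
(.nd (nat_lit 1) (.nd (nat_lit 2) (.nd (nat_lit 3) (.nd (nat_lit 4) (.nd (nat_lit 5) 
(.lf (nat_lit 216385) (.g (nat_lit 2448) (.e (nat_lit 90170) (nat_lit 13) (.e (nat_lit 172106) (nat_lit 10) (.e (nat_lit 434231) (nat_lit 23) (.e (nat_lit 532544) (nat_lit 10) (.e (nat_lit 344091) (nat_lit 18) (.e (nat_lit 4761) (nat_lit 281) (.e (nat_lit 1085) (nat_lit 81) (.e (nat_lit 1235) (nat_lit 91) .nil)))))))) (.g (nat_lit 4) .nil .nil))) 
(.lf (nat_lit 216417) (.g (nat_lit 2668) (.e (nat_lit 90170) (nat_lit 13) (.e (nat_lit 172106) (nat_lit 10) (.e (nat_lit 434231) (nat_lit 23) (.e (nat_lit 532544) (nat_lit 10) (.e (nat_lit 344159) (nat_lit 37) (.e (nat_lit 647170) (nat_lit 0) (.e (nat_lit 7936) (nat_lit 2) .nil))))))) (.g (nat_lit 4) .nil .nil)))) (.nd (nat_lit 5) 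
(.lf (nat_lit 216401) (.g (nat_lit 3538) (.e (nat_lit 90170) (nat_lit 13) (.e (nat_lit 172106) (nat_lit 10) (.e (nat_lit 434231) (nat_lit 23) (.e (nat_lit 532544) (nat_lit 10) (.e (nat_lit 344096) (nat_lit 18) (.e (nat_lit 5595) (nat_lit 310) (.e (nat_lit 171776) (nat_lit 63) .nil))))))) (.g (nat_lit 5) .nil .nil))) 
(.lf (nat_lit 216433) (.g (nat_lit 2906) (.e (nat_lit 90170) (nat_lit 13) (.e (nat_lit 172106) (nat_lit 10) (.e (nat_lit 434231) (nat_lit 23) (.e (nat_lit 532544) (nat_lit 10) (.e (nat_lit 344161) (nat_lit 37) (.e (nat_lit 647175) (nat_lit 0) (.e (nat_lit 7936) (nat_lit 2) .nil))))))) (.g (nat_lit 4) .nil .nil))))) (.nd (nat_lit 4) (.nd (nat_lit 5) 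
(.lf (nat_lit 216393) (.g (nat_lit 2218) (.e (nat_lit 90170) (nat_lit 13) (.e (nat_lit 172106) (nat_lit 10) (.e (nat_lit 434231) (nat_lit 23) (.e (nat_lit 532544) (nat_lit 10) (.e (nat_lit 344094) (nat_lit 18) (.e (nat_lit 7936) (nat_lit 284) (.e (nat_lit 122891) (nat_lit 2) .nil))))))) (.g (nat_lit 4) .nil .nil))) 
(.lf (nat_lit 216425) (.g (nat_lit 2681) (.e (nat_lit 90170) (nat_lit 13) (.e (nat_lit 172106) (nat_lit 10) (.e (nat_lit 434231) (nat_lit 23) (.e (nat_lit 532544) (nat_lit 10) (.e (nat_lit 344160) (nat_lit 37) (.e (nat_lit 647177) (nat_lit 0) (.e (nat_lit 7936) (nat_lit 2) .nil))))))) (.g (nat_lit 4) .nil .nil)))) (.nd (nat_lit 5) 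
(.lf (nat_lit 216409) (.g (nat_lit 2481) (.e (nat_lit 90170) (nat_lit 13) (.e (nat_lit 172106) (nat_lit 10) (.e (nat_lit 434231) (nat_lit 23) (.e (nat_lit 532544) (nat_lit 10) (.e (nat_lit 344150) (nat_lit 34) (.e (nat_lit 622605) (nat_lit 5) (.e (nat_lit 1237) (nat_lit 91) .nil))))))) (.g (nat_lit 4) .nil .nil))) 
(.lf (nat_lit 216441) (.g (nat_lit 2557) (.e (nat_lit 90170) (nat_lit 13) (.e (nat_lit 172106) (nat_lit 10) (.e (nat_lit 434231) (nat_lit 23) (.e (nat_lit 532544) (nat_lit 10) (.e (nat_lit 344164) (nat_lit 37) (.e (nat_lit 647168) (nat_lit 0) (.e (nat_lit 101) (nat_lit 2) .nil))))))) (.g (nat_lit 4) .nil .nil)))))) (.nd (nat_lit 3) (.nd (nat_lit 4) (.nd (nat_lit 5) 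
(.lf (nat_lit 216389) (.g (nat_lit 2968) (.e (nat_lit 90170) (nat_lit 13) (.e (nat_lit 172106) (nat_lit 10) (.e (nat_lit 434231) (nat_lit 23) (.e (nat_lit 532544) (nat_lit 10) (.e (nat_lit 344091) (nat_lit 18) (.e (nat_lit 5593) (nat_lit 310) (.e (nat_lit 171776) (nat_lit 63) .nil))))))) (.g (nat_lit 5) .nil .nil))) 
(.lf (nat_lit 216421) (.g (nat_lit 2764) (.e (nat_lit 90170) (nat_lit 13) (.e (nat_lit 172106) (nat_lit 10) (.e (nat_lit 434231) (nat_lit 23) (.e (nat_lit 532544) (nat_lit 10) (.e (nat_lit 344160) (nat_lit 37) (.e (nat_lit 647168) (nat_lit 0) (.e (nat_lit 101) (nat_lit 2) .nil))))))) (.g (nat_lit 4) .nil .nil)))) (.nd (nat_lit 5) 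
(.lf (nat_lit 216405) (.g (nat_lit 2541) (.e (nat_lit 90170) (nat_lit 13) (.e (nat_lit 172106) (nat_lit 10) (.e (nat_lit 434231) (nat_lit 23) (.e (nat_lit 532544) (nat_lit 10) (.e (nat_lit 344098) (nat_lit 18) (.e (nat_lit 5602) (nat_lit 310) (.e (nat_lit 171776) (nat_lit 63) .nil))))))) (.g (nat_lit 4) .nil .nil))) 
(.lf (nat_lit 216437) (.g (nat_lit 3224) (.e (nat_lit 90170) (nat_lit 13) (.e (nat_lit 172106) (nat_lit 10) (.e (nat_lit 434231) (nat_lit 23) (.e (nat_lit 532544) (nat_lit 10) (.e (nat_lit 344163) (nat_lit 37) (.e (nat_lit 647168) (nat_lit 0) (.e (nat_lit 102) (nat_lit 2) .nil))))))) (.g (nat_lit 4) .nil .nil))))) (.nd (nat_lit 4) (.nd (nat_lit 5) 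
(.lf (nat_lit 216397) (.g (nat_lit 2832) (.e (nat_lit 90170) (nat_lit 13) (.e (nat_lit 172106) (nat_lit 10) (.e (nat_lit 434231) (nat_lit 23) (.e (nat_lit 532544) (nat_lit 10) (.e (nat_lit 344096) (nat_lit 18) (.e (nat_lit 4843) (nat_lit 284) (.e (nat_lit 122890) (nat_lit 2) .nil))))))) (.g (nat_lit 4) .nil .nil))) 
(.lf (nat_lit 216429) (.g (nat_lit 3313) (.e (nat_lit 90170) (nat_lit 13) (.e (nat_lit 172106) (nat_lit 10) (.e (nat_lit 434231) (nat_lit 23) (.e (nat_lit 532544) (nat_lit 10) (.e (nat_lit 344161) (nat_lit 37) (.e (nat_lit 647168) (nat_lit 0) (.e (nat_lit 99) (nat_lit 2) .nil))))))) (.g (nat_lit 4) .nil .nil)))) (.nd (nat_lit 5) 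
(.lf (nat_lit 216413) (.g (nat_lit 2574) (.e (nat_lit 90170) (nat_lit 13) (.e (nat_lit 172106) (nat_lit 10) (.e (nat_lit 434231) (nat_lit 23) (.e (nat_lit 532544) (nat_lit 10) (.e (nat_lit 344152) (nat_lit 34) (.e (nat_lit 622604) (nat_lit 5) (.e (nat_lit 1237) (nat_lit 91) .nil))))))) (.g (nat_lit 4) .nil .nil))) 
(.lf (nat_lit 216445) (.g (nat_lit 3061) (.e (nat_lit 90170) (nat_lit 13) (.e (nat_lit 172106) (nat_lit 10) (.e (nat_lit 434231) (nat_lit 23) (.e (nat_lit 532554) (nat_lit 13) (.e (nat_lit 368662) (nat_lit 18) (.e (nat_lit 5601) (nat_lit 310) (.e (nat_lit 171776) (nat_lit 63) .nil))))))) (.g (nat_lit 5) .nil .nil))))))) (.nd (nat_lit 2) (.nd (nat_lit 3) (.nd (nat_lit 4) (.nd (nat_lit 5) 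
(.lf (nat_lit 216387) (.g (nat_lit 2879) (.e (nat_lit 90170) (nat_lit 13) (.e (nat_lit 172106) (nat_lit 10) (.e (nat_lit 434231) (nat_lit 23) (.e (nat_lit 532544) (nat_lit 10) (.e (nat_lit 344091) (nat_lit 18) (.e (nat_lit 5590) (nat_lit 310) (.e (nat_lit 171776) (nat_lit 63) .nil))))))) (.g (nat_lit 5) .nil .nil))) 
(.lf (nat_lit 216419) (.g (nat_lit 2550) (.e (nat_lit 90170) (nat_lit 13) (.e (nat_lit 172106) (nat_lit 10) (.e (nat_lit 434231) (nat_lit 23) (.e (nat_lit 532544) (nat_lit 10) (.e (nat_lit 344159) (nat_lit 37) (.e (nat_lit 647175) (nat_lit 0) (.e (nat_lit 7936) (nat_lit 2) .nil))))))) (.g (nat_lit 4) .nil .nil)))) (.nd (nat_lit 5) 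
(.lf (nat_lit 216403) (.g (nat_lit 2893) (.e (nat_lit 90170) (nat_lit 13) (.e (nat_lit 172106) (nat_lit 10) (.e (nat_lit 434231) (nat_lit 23) (.e (nat_lit 532544) (nat_lit 10) (.e (nat_lit 344097) (nat_lit 18) (.e (nat_lit 5601) (nat_lit 310) (.e (nat_lit 171776) (nat_lit 63) .nil))))))) (.g (nat_lit 5) .nil .nil))) 
(.lf (nat_lit 216435) (.g (nat_lit 3119) (.e (nat_lit 90170) (nat_lit 13) (.e (nat_lit 172106) (nat_lit 10) (.e (nat_lit 434231) (nat_lit 23) (.e (nat_lit 532544) (nat_lit 10) (.e (nat_lit 344162) (nat_lit 37) (.e (nat_lit 647171) (nat_lit 0) (.e (nat_lit 7936) (nat_lit 2) .nil))))))) (.g (nat_lit 6) .nil .nil))))) (.nd (nat_lit 4) (.nd (nat_lit 5) 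
(.lf (nat_lit 216395) (.g (nat_lit 2595) (.e (nat_lit 90170) (nat_lit 13) (.e (nat_lit 172106) (nat_lit 10) (.e (nat_lit 434231) (nat_lit 23) (.e (nat_lit 532544) (nat_lit 10) (.e (nat_lit 344096) (nat_lit 18) (.e (nat_lit 4761) (nat_lit 281) (.e (nat_lit 1082) (nat_lit 81) (.e (nat_lit 1235) (nat_lit 91) .nil)))))))) (.g (nat_lit 4) .nil .nil))) 
(.lf (nat_lit 216427) (.g (nat_lit 3056) (.e (nat_lit 90170) (nat_lit 13) (.e (nat_lit 172106) (nat_lit 10) (.e (nat_lit 434231) (nat_lit 23) (.e (nat_lit 532544) (nat_lit 10) (.e (nat_lit 344160) (nat_lit 37) (.e (nat_lit 655104) (nat_lit 0) (.e (nat_lit 99) (nat_lit 2) .nil))))))) (.g (nat_lit 4) .nil .nil)))) (.nd (nat_lit 5) 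
(.lf (nat_lit 216411) (.g (nat_lit 2836) (.e (nat_lit 90170) (nat_lit 13) (.e (nat_lit 172106) (nat_lit 10) (.e (nat_lit 434231) (nat_lit 23) (.e (nat_lit 532544) (nat_lit 10) (.e (nat_lit 344152) (nat_lit 34) (.e (nat_lit 622600) (nat_lit 5) (.e (nat_lit 1233) (nat_lit 91) .nil))))))) (.g (nat_lit 4) .nil .nil))) 
(.lf (nat_lit 216443) (.g (nat_lit 2240) (.e (nat_lit 90170) (nat_lit 13) (.e (nat_lit 172106) (nat_lit 10) (.e (nat_lit 434231) (nat_lit 23) (.e (nat_lit 532545) (nat_lit 10) .nil)))) .nil))))) (.nd (nat_lit 3) (.nd (nat_lit 4) (.nd (nat_lit 5) 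
(.lf (nat_lit 216391) (.g (nat_lit 2311) (.e (nat_lit 90170) (nat_lit 13) (.e (nat_lit 172106) (nat_lit 10) (.e (nat_lit 434231) (nat_lit 23) (.e (nat_lit 532544) (nat_lit 10) (.e (nat_lit 344094) (nat_lit 18) (.e (nat_lit 4843) (nat_lit 284) (.e (nat_lit 122890) (nat_lit 2) .nil))))))) (.g (nat_lit 4) .nil .nil))) 
(.lf (nat_lit 216423) (.g (nat_lit 2586) (.e (nat_lit 90170) (nat_lit 13) (.e (nat_lit 172106) (nat_lit 10) (.e (nat_lit 434231) (nat_lit 23) (.e (nat_lit 532544) (nat_lit 10) (.e (nat_lit 344160) (nat_lit 37) (.e (nat_lit 647171) (nat_lit 0) (.e (nat_lit 7936) (nat_lit 2) .nil))))))) (.g (nat_lit 4) .nil .nil)))) (.nd (nat_lit 5) 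
(.lf (nat_lit 216407) (.g (nat_lit 3284) (.e (nat_lit 90170) (nat_lit 13) (.e (nat_lit 172106) (nat_lit 10) (.e (nat_lit 434231) (nat_lit 23) (.e (nat_lit 532544) (nat_lit 10) (.e (nat_lit 344102) (nat_lit 18) (.e (nat_lit 5594) (nat_lit 310) (.e (nat_lit 171776) (nat_lit 63) .nil))))))) (.g (nat_lit 6) .nil .nil))) 
(.lf (nat_lit 216439) (.g (nat_lit 2401) (.e (nat_lit 90170) (nat_lit 13) (.e (nat_lit 172106) (nat_lit 10) (.e (nat_lit 434231) (nat_lit 23) (.e (nat_lit 532544) (nat_lit 10) (.e (nat_lit 344163) (nat_lit 37) (.e (nat_lit 647172) (nat_lit 0) (.e (nat_lit 7936) (nat_lit 2) .nil))))))) (.g (nat_lit 4) .nil .nil))))) (.nd (nat_lit 4) (.nd (nat_lit 5) 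
(.lf (nat_lit 216399) (.g (nat_lit 2200) (.e (nat_lit 90170) (nat_lit 13) (.e (nat_lit 172106) (nat_lit 10) (.e (nat_lit 434231) (nat_lit 23) (.e (nat_lit 532544) (nat_lit 10) (.e (nat_lit 344096) (nat_lit 18) (.e (nat_lit 7936) (nat_lit 284) (.e (nat_lit 122890) (nat_lit 2) .nil))))))) (.g (nat_lit 4) .nil .nil))) 
(.lf (nat_lit 216431) (.g (nat_lit 3640) (.e (nat_lit 90170) (nat_lit 13) (.e (nat_lit 172106) (nat_lit 10) (.e (nat_lit 434231) (nat_lit 23) (.e (nat_lit 532544) (nat_lit 10) (.e (nat_lit 344161) (nat_lit 37) (.e (nat_lit 647168) (nat_lit 0) (.e (nat_lit 102) (nat_lit 2) .nil))))))) (.g (nat_lit 4) .nil .nil)))) (.nd (nat_lit 5) 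
(.lf (nat_lit 216415) (.g (nat_lit 2500) (.e (nat_lit 90170) (nat_lit 13) (.e (nat_lit 172106) (nat_lit 10) (.e (nat_lit 434231) (nat_lit 23) (.e (nat_lit 532544) (nat_lit 10) (.e (nat_lit 344158) (nat_lit 37) (.e (nat_lit 647168) (nat_lit 0) (.e (nat_lit 101) (nat_lit 2) .nil))))))) (.g (nat_lit 4) .nil .nil))) 
(.lf (nat_lit 216447) (.g (nat_lit 2359) (.e (nat_lit 90170) (nat_lit 13) (.e (nat_lit 172106) (nat_lit 10) (.e (nat_lit 434231) (nat_lit 23) (.e (nat_lit 532555) (nat_lit 13) .nil)))) .nil))))))))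

noncomputable def tv2846 : DT := (.nd (nat_lit 0) (.nd (nat_lit 1) (.nd (nat_lit 2) (.nd (nat_lit 3) (.nd (nat_lit 4) (.nd (nat_lit 5) (.nd (nat_lit 6) 
(.lf (nat_lit 216448) (.g (nat_lit 2519) (.e (nat_lit 90170) (nat_lit 13) (.e (nat_lit 172106) (nat_lit 10) (.e (nat_lit 434231) (nat_lit 23) (.e (nat_lit 532556) (nat_lit 13) .nil)))) .nil)) 
(.lf (nat_lit 216512) (.g (nat_lit 318) (.e (nat_lit 90170) (nat_lit 13) (.e (nat_lit 172106) (nat_lit 10) (.e (nat_lit 434244) (nat_lit 28) .nil))) .nil))) (.nd (nat_lit 6) 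
(.lf (nat_lit 216480) (.g (nat_lit 413) (.e (nat_lit 90170) (nat_lit 13) (.e (nat_lit 172106) (nat_lit 10) (.e (nat_lit 434235) (nat_lit 24) .nil))) .nil)) 
(.lf (nat_lit 216544) (.g (nat_lit 1996) (.e (nat_lit 90170) (nat_lit 13) (.e (nat_lit 172106) (nat_lit 10) (.e (nat_lit 434244) (nat_lit 28) (.e (nat_lit 573451) (nat_lit 9) (.e (nat_lit 1025) (nat_lit 81) .nil))))) .nil)))) (.nd (nat_lit 5) (.nd (nat_lit 6) 
(.lf (nat_lit 216464) (.g (nat_lit 3655) (.e (nat_lit 90170) (nat_lit 13) (.e (nat_lit 172106) (nat_lit 10) (.e (nat_lit 434231) (nat_lit 23) (.e (nat_lit 532569) (nat_lit 16) (.e (nat_lit 401418) (nat_lit 0) (.e (nat_lit 7936) (nat_lit 402) (.e (nat_lit 1237) (nat_lit 91) .nil))))))) (.g (nat_lit 4) .nil .nil))) 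
(.lf (nat_lit 216528) (.g (nat_lit 2039) (.e (nat_lit 90170) (nat_lit 13) (.e (nat_lit 172106) (nat_lit 10) (.e (nat_lit 434244) (nat_lit 28) (.e (nat_lit 573451) (nat_lit 9) (.e (nat_lit 982) (nat_lit 81) .nil))))) .nil))) (.nd (nat_lit 6) 
(.lf (nat_lit 216496) (.g (nat_lit 3865) (.e (nat_lit 90170) (nat_lit 13) (.e (nat_lit 172106) (nat_lit 10) (.e (nat_lit 434238) (nat_lit 25) (.e (nat_lit 548913) (nat_lit 18) (.e (nat_lit 172035) (nat_lit 0) (.e (nat_lit 7936) (nat_lit 402) (.e (nat_lit 1237) (nat_lit 91) .nil))))))) (.g (nat_lit 4) .nil .nil))) 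
(.lf (nat_lit 216560) (.g (nat_lit 2391) (.e (nat_lit 90170) (nat_lit 13) (.e (nat_lit 172106) (nat_lit 10) (.e (nat_lit 434244) (nat_lit 28) (.e (nat_lit 573451) (nat_lit 9) (.e (nat_lit 1177) (nat_lit 87) (.e (nat_lit 57655) (nat_lit 152) (.e (nat_lit 1203) (nat_lit 88) (.e (nat_lit 65568) (nat_lit 2) .nil)))))))) (.g (nat_lit 4) .nil .nil)))))) 
(.nd (nat_lit 4) (.nd (nat_lit 5) (.nd (nat_lit 6) 
(.lf (nat_lit 216456) (.g (nat_lit 4208) (.e (nat_lit 90170) (nat_lit 13) (.e (nat_lit 172106) (nat_lit 10) (.e (nat_lit 434231) (nat_lit 23) (.e (nat_lit 532569) (nat_lit 16) (.e (nat_lit 401408) (nat_lit 0) (.e (nat_lit 7557) (nat_lit 402) (.e (nat_lit 1235) (nat_lit 91) .nil))))))) (.g (nat_lit 4) .nil .nil))) 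
(.lf (nat_lit 216520) (.g (nat_lit 1876) (.e (nat_lit 90170) (nat_lit 13) (.e (nat_lit 172106) (nat_lit 10) (.e (nat_lit 434244) (nat_lit 28) (.e (nat_lit 573449) (nat_lit 9) (.e (nat_lit 1183) (nat_lit 87) .nil))))) .nil))) (.nd (nat_lit 6) 
(.lf (nat_lit 216488) (.g (nat_lit 2709) (.e (nat_lit 90170) (nat_lit 13) (.e (nat_lit 172106) (nat_lit 10) (.e (nat_lit 434238) (nat_lit 25) (.e (nat_lit 548898) (nat_lit 14) (.e (nat_lit 2980) (nat_lit 185) (.e (nat_lit 434180) (nat_lit 0) (.e (nat_lit 1235) (nat_lit 91) .nil))))))) (.g (nat_lit 4) .nil .nil))) 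
(.lf (nat_lit 216552) (.g (nat_lit 2792) (.e (nat_lit 90170) (nat_lit 13) (.e (nat_lit 172106) (nat_lit 10) (.e (nat_lit 434244) (nat_lit 28) (.e (nat_lit 573451) (nat_lit 9) (.e (nat_lit 1035) (nat_lit 81) .nil))))) .nil)))) (.nd (nat_lit 5) (.nd (nat_lit 6) 
(.lf (nat_lit 216472) (.g (nat_lit 2447) (.e (nat_lit 90170) (nat_lit 13) (.e (nat_lit 172106) (nat_lit 10) (.e (nat_lit 434231) (nat_lit 23) (.e (nat_lit 532575) (nat_lit 17) (.e (nat_lit 7936) (nat_lit 216) .nil))))) .nil)) 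
(.lf (nat_lit 216536) (.g (nat_lit 2548) (.e (nat_lit 90170) (nat_lit 13) (.e (nat_lit 172106) (nat_lit 10) (.e (nat_lit 434244) (nat_lit 28) (.e (nat_lit 573451) (nat_lit 9) (.e (nat_lit 1002) (nat_lit 81) (.e (nat_lit 2362) (nat_lit 153) (.e (nat_lit 794632) (nat_lit 11) (.e (nat_lit 336011) (nat_lit 2) .nil)))))))) (.g (nat_lit 4) .nil .nil)))) (.nd (nat_lit 6) 
(.lf (nat_lit 216504) (.g (nat_lit 440) (.e (nat_lit 90170) (nat_lit 13) (.e (nat_lit 172106) (nat_lit 10) (.e (nat_lit 434243) (nat_lit 28) .nil))) .nil)) 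
(.lf (nat_lit 216568) (.g (nat_lit 2668) (.e (nat_lit 90170) (nat_lit 13) (.e (nat_lit 172106) (nat_lit 10) (.e (nat_lit 434244) (nat_lit 28) (.e (nat_lit 573451) (nat_lit 9) (.e (nat_lit 1314) (nat_lit 98) (.e (nat_lit 147463) (nat_lit 9) (.e (nat_lit 249) (nat_lit 21) (.e (nat_lit 336009) (nat_lit 2) .nil)))))))) (.g (nat_lit 4) .nil .nil))))))) 
(.nd (nat_lit 3) (.nd (nat_lit 4) (.nd (nat_lit 5) (.nd (nat_lit 6) 
(.lf (nat_lit 216452) (.g (nat_lit 2713) (.e (nat_lit 90170) (nat_lit 13) (.e (nat_lit 172106) (nat_lit 10) (.e (nat_lit 434231) (nat_lit 23) (.e (nat_lit 532568) (nat_lit 16) (.e (nat_lit 401412) (nat_lit 0) .nil))))) .nil)) 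
(.lf (nat_lit 216516) (.g (nat_lit 2439) (.e (nat_lit 90170) (nat_lit 13) (.e (nat_lit 172106) (nat_lit 10) (.e (nat_lit 434244) (nat_lit 28) (.e (nat_lit 573448) (nat_lit 9) (.e (nat_lit 473) (nat_lit 36) .nil))))) .nil))) (.nd (nat_lit 6) 
(.lf (nat_lit 216484) (.g (nat_lit 3166) (.e (nat_lit 90170) (nat_lit 13) (.e (nat_lit 172106) (nat_lit 10) (.e (nat_lit 434238) (nat_lit 25) (.e (nat_lit 548898) (nat_lit 14) (.e (nat_lit 2824) (nat_lit 182) (.e (nat_lit 409602) (nat_lit 0) (.e (nat_lit 5293) (nat_lit 298) (.e (nat_lit 1232) (nat_lit 91) .nil)))))))) (.g (nat_lit 4) .nil .nil))) 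
(.lf (nat_lit 216548) (.g (nat_lit 2055) (.e (nat_lit 90170) (nat_lit 13) (.e (nat_lit 172106) (nat_lit 10) (.e (nat_lit 434244) (nat_lit 28) (.e (nat_lit 573451) (nat_lit 9) (.e (nat_lit 1030) (nat_lit 81) (.e (nat_lit 2280) (nat_lit 150) (.e (nat_lit 770071) (nat_lit 8) (.e (nat_lit 65568) (nat_lit 2) .nil)))))))) (.g (nat_lit 4) .nil .nil))))) (.nd (nat_lit 5) (.nd (nat_lit 6) 
(.lf (nat_lit 216468) (.g (nat_lit 3263) (.e (nat_lit 90170) (nat_lit 13) (.e (nat_lit 172106) (nat_lit 10) (.e (nat_lit 434231) (nat_lit 23) (.e (nat_lit 532569) (nat_lit 16) (.e (nat_lit 401463) (nat_lit 15) .nil))))) .nil)) 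
(.lf (nat_lit 216532) (.g (nat_lit 3736) (.e (nat_lit 90170) (nat_lit 13) (.e (nat_lit 172106) (nat_lit 10) (.e (nat_lit 434244) (nat_lit 28) (.e (nat_lit 573451) (nat_lit 9) (.e (nat_lit 998) (nat_lit 81) (.e (nat_lit 2283) (nat_lit 150) (.e (nat_lit 770071) (nat_lit 8) (.e (nat_lit 65566) (nat_lit 2) .nil)))))))) (.g (nat_lit 8) .nil .nil)))) (.nd (nat_lit 6) 
(.lf (nat_lit 216500) (.g (nat_lit 3260) (.e (nat_lit 90170) (nat_lit 13) (.e (nat_lit 172106) (nat_lit 10) (.e (nat_lit 434238) (nat_lit 25) (.e (nat_lit 548913) (nat_lit 18) (.e (nat_lit 172039) (nat_lit 0) (.e (nat_lit 7936) (nat_lit 402) (.e (nat_lit 1237) (nat_lit 91) .nil))))))) (.g (nat_lit 4) .nil .nil))) 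
(.lf (nat_lit 216564) (.g (nat_lit 3059) (.e (nat_lit 90170) (nat_lit 13) (.e (nat_lit 172106) (nat_lit 10) (.e (nat_lit 434244) (nat_lit 28) (.e (nat_lit 573451) (nat_lit 9) (.e (nat_lit 1310) (nat_lit 98) (.e (nat_lit 147492) (nat_lit 11) (.e (nat_lit 24605) (nat_lit 2) .nil))))))) (.g (nat_lit 4) .nil .nil)))))) (.nd (nat_lit 4) (.nd (nat_lit 5) (.nd (nat_lit 6) 
(.lf (nat_lit 216460) (.g (nat_lit 3515) (.e (nat_lit 90170) (nat_lit 13) (.e (nat_lit 172106) (nat_lit 10) (.e (nat_lit 434231) (nat_lit 23) (.e (nat_lit 532569) (nat_lit 16) (.e (nat_lit 401414) (nat_lit 0) (.e (nat_lit 7518) (nat_lit 402) (.e (nat_lit 1235) (nat_lit 91) .nil))))))) (.g (nat_lit 4) .nil .nil))) 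
(.lf (nat_lit 216524) (.g (nat_lit 1854) (.e (nat_lit 90170) (nat_lit 13) (.e (nat_lit 172106) (nat_lit 10) (.e (nat_lit 434244) (nat_lit 28) (.e (nat_lit 573449) (nat_lit 9) (.e (nat_lit 1314) (nat_lit 98) .nil))))) .nil))) (.nd (nat_lit 6) 
(.lf (nat_lit 216492) (.g (nat_lit 2933) (.e (nat_lit 90170) (nat_lit 13) (.e (nat_lit 172106) (nat_lit 10) (.e (nat_lit 434238) (nat_lit 25) (.e (nat_lit 548913) (nat_lit 18) (.e (nat_lit 172033) (nat_lit 0) (.e (nat_lit 7554) (nat_lit 402) (.e (nat_lit 1235) (nat_lit 91) .nil))))))) (.g (nat_lit 4) .nil .nil))) 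
(.lf (nat_lit 216556) (.g (nat_lit 2232) (.e (nat_lit 90170) (nat_lit 13) (.e (nat_lit 172106) (nat_lit 10) (.e (nat_lit 434244) (nat_lit 28) (.e (nat_lit 573451) (nat_lit 9) (.e (nat_lit 1047) (nat_lit 81) (.e (nat_lit 2279) (nat_lit 150) (.e (nat_lit 770072) (nat_lit 8) (.e (nat_lit 65568) (nat_lit 2) .nil)))))))) (.g (nat_lit 4) .nil .nil))))) (.nd (nat_lit 5) (.nd (nat_lit 6) 
(.lf (nat_lit 216476) (.g (nat_lit 1908) (.e (nat_lit 90170) (nat_lit 13) (.e (nat_lit 172106) (nat_lit 10) (.e (nat_lit 434231) (nat_lit 23) (.e (nat_lit 540416) (nat_lit 18) .nil)))) .nil)) 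
(.lf (nat_lit 216540) (.g (nat_lit 2293) (.e (nat_lit 90170) (nat_lit 13) (.e (nat_lit 172106) (nat_lit 10) (.e (nat_lit 434244) (nat_lit 28) (.e (nat_lit 573451) (nat_lit 9) (.e (nat_lit 1004) (nat_lit 81) (.e (nat_lit 2370) (nat_lit 154) (.e (nat_lit 802826) (nat_lit 11) (.e (nat_lit 336011) (nat_lit 2) .nil)))))))) (.g (nat_lit 4) .nil .nil)))) (.nd (nat_lit 6) 
(.lf (nat_lit 216508) (.g (nat_lit 3420) (.e (nat_lit 90170) (nat_lit 13) (.e (nat_lit 172106) (nat_lit 10) (.e (nat_lit 434243) (nat_lit 28) (.e (nat_lit 573474) (nat_lit 12) (.e (nat_lit 57572) (nat_lit 54) (.e (nat_lit 770058) (nat_lit 5) (.e (nat_lit 1464) (nat_lit 108) (.e (nat_lit 336013) (nat_lit 2) .nil)))))))) (.g (nat_lit 5) .nil .nil))) 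
(.lf (nat_lit 216572) (.g (nat_lit 1739) (.e (nat_lit 90170) (nat_lit 13) (.e (nat_lit 172106) (nat_lit 10) (.e (nat_lit 434244) (nat_lit 28) (.e (nat_lit 573453) (nat_lit 9) (.e (nat_lit 1183) (nat_lit 87) .nil))))) .nil))))))) (.nd (nat_lit 2) (.nd (nat_lit 3) (.nd (nat_lit 4) (.nd (nat_lit 5) (.nd (nat_lit 6) 
(.lf (nat_lit 216450) (.g (nat_lit 2262) (.e (nat_lit 90170) (nat_lit 13) (.e (nat_lit 172106) (nat_lit 10) (.e (nat_lit 434231) (nat_lit 23) (.e (nat_lit 532563) (nat_lit 15) (.e (nat_lit 385087) (nat_lit 46) .nil))))) .nil)) 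
(.lf (nat_lit 216514) (.g (nat_lit 1070) (.e (nat_lit 90170) (nat_lit 13) (.e (nat_lit 172106) (nat_lit 10) (.e (nat_lit 434244) (nat_lit 28) (.e (nat_lit 581376) (nat_lit 3) .nil)))) .nil))) (.nd (nat_lit 6) 
(.lf (nat_lit 216482) (.g (nat_lit 1209) (.e (nat_lit 90170) (nat_lit 13) (.e (nat_lit 172106) (nat_lit 10) (.e (nat_lit 434238) (nat_lit 25) (.e (nat_lit 556800) (nat_lit 6) .nil)))) .nil)) 
(.lf (nat_lit 216546) (.g (nat_lit 1996) (.e (nat_lit 90170) (nat_lit 13) (.e (nat_lit 172106) (nat_lit 10) (.e (nat_lit 434244) (nat_lit 28) (.e (nat_lit 573451) (nat_lit 9) (.e (nat_lit 1028) (nat_lit 81) .nil))))) .nil)))) (.nd (nat_lit 5) (.nd (nat_lit 6) 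
(.lf (nat_lit 216466) (.g (nat_lit 3263) (.e (nat_lit 90170) (nat_lit 13) (.e (nat_lit 172106) (nat_lit 10) (.e (nat_lit 434231) (nat_lit 23) (.e (nat_lit 532569) (nat_lit 16) (.e (nat_lit 401429) (nat_lit 4) .nil))))) .nil)) 
(.lf (nat_lit 216530) (.g (nat_lit 2066) (.e (nat_lit 90170) (nat_lit 13) (.e (nat_lit 172106) (nat_lit 10) (.e (nat_lit 434244) (nat_lit 28) (.e (nat_lit 573451) (nat_lit 9) (.e (nat_lit 982) (nat_lit 81) (.e (nat_lit 2283) (nat_lit 150) (.e (nat_lit 770071) (nat_lit 8) (.e (nat_lit 65566) (nat_lit 2) .nil)))))))) (.g (nat_lit 4) .nil .nil)))) (.nd (nat_lit 6) 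
(.lf (nat_lit 216498) (.g (nat_lit 2951) (.e (nat_lit 90170) (nat_lit 13) (.e (nat_lit 172106) (nat_lit 10) (.e (nat_lit 434238) (nat_lit 25) (.e (nat_lit 548913) (nat_lit 18) (.e (nat_lit 172036) (nat_lit 0) (.e (nat_lit 7554) (nat_lit 402) (.e (nat_lit 1235) (nat_lit 91) .nil))))))) (.g (nat_lit 4) .nil .nil))) 
(.lf (nat_lit 216562) (.g (nat_lit 2400) (.e (nat_lit 90170) (nat_lit 13) (.e (nat_lit 172106) (nat_lit 10) (.e (nat_lit 434244) (nat_lit 28) (.e (nat_lit 573451) (nat_lit 9) (.e (nat_lit 1310) (nat_lit 98) (.e (nat_lit 147465) (nat_lit 9) (.e (nat_lit 275) (nat_lit 21) (.e (nat_lit 336011) (nat_lit 2) .nil)))))))) (.g (nat_lit 4) .nil .nil)))))) (.nd (nat_lit 4) (.nd (nat_lit 5) (.nd (nat_lit 6) 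
(.lf (nat_lit 216458) (.g (nat_lit 3596) (.e (nat_lit 90170) (nat_lit 13) (.e (nat_lit 172106) (nat_lit 10) (.e (nat_lit 434231) (nat_lit 23) (.e (nat_lit 532569) (nat_lit 16) (.e (nat_lit 401408) (nat_lit 0) (.e (nat_lit 7936) (nat_lit 402) (.e (nat_lit 1239) (nat_lit 91) .nil))))))) (.g (nat_lit 4) .nil .nil))) 
(.lf (nat_lit 216522) (.g (nat_lit 1854) (.e (nat_lit 90170) (nat_lit 13) (.e (nat_lit 172106) (nat_lit 10) (.e (nat_lit 434244) (nat_lit 28) (.e (nat_lit 573449) (nat_lit 9) (.e (nat_lit 1311) (nat_lit 98) .nil))))) .nil))) (.nd (nat_lit 6) 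
(.lf (nat_lit 216490) (.g (nat_lit 2769) (.e (nat_lit 90170) (nat_lit 13) (.e (nat_lit 172106) (nat_lit 10) (.e (nat_lit 434238) (nat_lit 25) (.e (nat_lit 548898) (nat_lit 14) (.e (nat_lit 2981) (nat_lit 185) (.e (nat_lit 434180) (nat_lit 0) (.e (nat_lit 1235) (nat_lit 91) .nil))))))) (.g (nat_lit 4) .nil .nil))) 
(.lf (nat_lit 216554) (.g (nat_lit 1996) (.e (nat_lit 90170) (nat_lit 13) (.e (nat_lit 172106) (nat_lit 10) (.e (nat_lit 434244) (nat_lit 28) (.e (nat_lit 573451) (nat_lit 9) (.e (nat_lit 1045) (nat_lit 81) .nil))))) .nil)))) (.nd (nat_lit 5) (.nd (nat_lit 6) 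
(.lf (nat_lit 216474) (.g (nat_lit 2187) (.e (nat_lit 90170) (nat_lit 13) (.e (nat_lit 172106) (nat_lit 10) (.e (nat_lit 434231) (nat_lit 23) (.e (nat_lit 532577) (nat_lit 17) .nil)))) .nil)) 
(.lf (nat_lit 216538) (.g (nat_lit 2037) (.e (nat_lit 90170) (nat_lit 13) (.e (nat_lit 172106) (nat_lit 10) (.e (nat_lit 434244) (nat_lit 28) (.e (nat_lit 573451) (nat_lit 9) (.e (nat_lit 1004) (nat_lit 81) .nil))))) .nil))) (.nd (nat_lit 6) 
(.lf (nat_lit 216506) (.g (nat_lit 3779) (.e (nat_lit 90170) (nat_lit 13) (.e (nat_lit 172106) (nat_lit 10) (.e (nat_lit 434243) (nat_lit 28) (.e (nat_lit 573474) (nat_lit 12) (.e (nat_lit 57572) (nat_lit 54) (.e (nat_lit 770056) (nat_lit 5) (.e (nat_lit 1464) (nat_lit 108) (.e (nat_lit 336013) (nat_lit 2) .nil)))))))) (.g (nat_lit 5) .nil .nil))) 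
(.lf (nat_lit 216570) (.g (nat_lit 2398) (.e (nat_lit 90170) (nat_lit 13) (.e (nat_lit 172106) (nat_lit 10) (.e (nat_lit 434244) (nat_lit 28) (.e (nat_lit 573452) (nat_lit 9) .nil)))) .nil)))))) (.nd (nat_lit 3) (.nd (nat_lit 4) (.nd (nat_lit 5) (.nd (nat_lit 6) 
(.lf (nat_lit 216454) (.g (nat_lit 4079) (.e (nat_lit 90170) (nat_lit 13) (.e (nat_lit 172106) (nat_lit 10) (.e (nat_lit 434231) (nat_lit 23) (.e (nat_lit 532569) (nat_lit 16) (.e (nat_lit 401408) (nat_lit 0) (.e (nat_lit 7500) (nat_lit 402) (.e (nat_lit 1237) (nat_lit 91) .nil))))))) (.g (nat_lit 4) .nil .nil))) 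
(.lf (nat_lit 216518) (.g (nat_lit 1864) (.e (nat_lit 90170) (nat_lit 13) (.e (nat_lit 172106) (nat_lit 10) (.e (nat_lit 434244) (nat_lit 28) (.e (nat_lit 573449) (nat_lit 9) (.e (nat_lit 396) (nat_lit 32) .nil))))) .nil))) (.nd (nat_lit 6) 
(.lf (nat_lit 216486) (.g (nat_lit 3177) (.e (nat_lit 90170) (nat_lit 13) (.e (nat_lit 172106) (nat_lit 10) (.e (nat_lit 434238) (nat_lit 25) (.e (nat_lit 548898) (nat_lit 14) (.e (nat_lit 2965) (nat_lit 185) (.e (nat_lit 442112) (nat_lit 0) (.e (nat_lit 1237) (nat_lit 91) .nil))))))) (.g (nat_lit 4) .nil .nil))) 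
(.lf (nat_lit 216550) (.g (nat_lit 2015) (.e (nat_lit 90170) (nat_lit 13) (.e (nat_lit 172106) (nat_lit 10) (.e (nat_lit 434244) (nat_lit 28) (.e (nat_lit 573451) (nat_lit 9) (.e (nat_lit 1032) (nat_lit 81) .nil))))) .nil)))) (.nd (nat_lit 5) (.nd (nat_lit 6) 
(.lf (nat_lit 216470) (.g (nat_lit 2734) (.e (nat_lit 90170) (nat_lit 13) (.e (nat_lit 172106) (nat_lit 10) (.e (nat_lit 434231) (nat_lit 23) (.e (nat_lit 532572) (nat_lit 17) .nil)))) .nil)) 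
(.lf (nat_lit 216534) (.g (nat_lit 3940) (.e (nat_lit 90170) (nat_lit 13) (.e (nat_lit 172106) (nat_lit 10) (.e (nat_lit 434244) (nat_lit 28) (.e (nat_lit 573451) (nat_lit 9) (.e (nat_lit 999) (nat_lit 81) (.e (nat_lit 2283) (nat_lit 150) (.e (nat_lit 770071) (nat_lit 8) (.e (nat_lit 65566) (nat_lit 2) .nil)))))))) (.g (nat_lit 8) .nil .nil)))) (.nd (nat_lit 6) 
(.lf (nat_lit 216502) (.g (nat_lit 436) (.e (nat_lit 90170) (nat_lit 13) (.e (nat_lit 172106) (nat_lit 10) (.e (nat_lit 434242) (nat_lit 28) .nil))) .nil)) 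
(.lf (nat_lit 216566) (.g (nat_lit 2292) (.e (nat_lit 90170) (nat_lit 13) (.e (nat_lit 172106) (nat_lit 10) (.e (nat_lit 434244) (nat_lit 28) (.e (nat_lit 573451) (nat_lit 9) (.e (nat_lit 1310) (nat_lit 98) (.e (nat_lit 147494) (nat_lit 11) (.e (nat_lit 24601) (nat_lit 2) .nil))))))) (.g (nat_lit 4) .nil .nil)))))) (.nd (nat_lit 4) (.nd (nat_lit 5) (.nd (nat_lit 6) 
(.lf (nat_lit 216462) (.g (nat_lit 3467) (.e (nat_lit 90170) (nat_lit 13) (.e (nat_lit 172106) (nat_lit 10) (.e (nat_lit 434231) (nat_lit 23) (.e (nat_lit 532569) (nat_lit 16) (.e (nat_lit 401416) (nat_lit 0) (.e (nat_lit 7936) (nat_lit 402) (.e (nat_lit 1239) (nat_lit 91) .nil))))))) (.g (nat_lit 4) .nil .nil))) 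
(.lf (nat_lit 216526) (.g (nat_lit 1793) (.e (nat_lit 90170) (nat_lit 13) (.e (nat_lit 172106) (nat_lit 10) (.e (nat_lit 434244) (nat_lit 28) (.e (nat_lit 573450) (nat_lit 9) (.e (nat_lit 1186) (nat_lit 87) .nil))))) .nil))) (.nd (nat_lit 6) 
(.lf (nat_lit 216494) (.g (nat_lit 4061) (.e (nat_lit 90170) (nat_lit 13) (.e (nat_lit 172106) (nat_lit 10) (.e (nat_lit 434238) (nat_lit 25) (.e (nat_lit 548913) (nat_lit 18) (.e (nat_lit 172034) (nat_lit 0) (.e (nat_lit 7541) (nat_lit 402) (.e (nat_lit 1234) (nat_lit 91) .nil))))))) (.g (nat_lit 4) .nil .nil))) 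
(.lf (nat_lit 216558) (.g (nat_lit 2289) (.e (nat_lit 90170) (nat_lit 13) (.e (nat_lit 172106) (nat_lit 10) (.e (nat_lit 434244) (nat_lit 28) (.e (nat_lit 573451) (nat_lit 9) (.e (nat_lit 1175) (nat_lit 87) (.e (nat_lit 57655) (nat_lit 152) (.e (nat_lit 1203) (nat_lit 88) (.e (nat_lit 65568) (nat_lit 2) .nil)))))))) (.g (nat_lit 4) .nil .nil))))) (.nd (nat_lit 5) (.nd (nat_lit 6) 
(.lf (nat_lit 216478) (.g (nat_lit 1908) (.e (nat_lit 90170) (nat_lit 13) (.e (nat_lit 172106) (nat_lit 10) (.e (nat_lit 434231) (nat_lit 23) (.e (nat_lit 540416) (nat_lit 21) .nil)))) .nil)) 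
(.lf (nat_lit 216542) (.g (nat_lit 2406) (.e (nat_lit 90170) (nat_lit 13) (.e (nat_lit 172106) (nat_lit 10) (.e (nat_lit 434244) (nat_lit 28) (.e (nat_lit 573451) (nat_lit 9) (.e (nat_lit 1005) (nat_lit 81) (.e (nat_lit 2375) (nat_lit 154) (.e (nat_lit 802824) (nat_lit 11) (.e (nat_lit 336009) (nat_lit 2) .nil)))))))) (.g (nat_lit 4) .nil .nil)))) (.nd (nat_lit 6) 
(.lf (nat_lit 216510) (.g (nat_lit 4236) (.e (nat_lit 90170) (nat_lit 13) (.e (nat_lit 172106) (nat_lit 10) (.e (nat_lit 434243) (nat_lit 28) (.e (nat_lit 573474) (nat_lit 12) (.e (nat_lit 57572) (nat_lit 54) (.e (nat_lit 770071) (nat_lit 8) (.e (nat_lit 65568) (nat_lit 2) .nil))))))) (.g (nat_lit 5) .nil .nil))) 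
(.lf (nat_lit 216574) (.g (nat_lit 5058) (.e (nat_lit 90170) (nat_lit 13) (.e (nat_lit 172106) (nat_lit 10) (.e (nat_lit 434244) (nat_lit 28) (.e (nat_lit 573454) (nat_lit 9) (.e (nat_lit 1315) (nat_lit 98) (.e (nat_lit 147495) (nat_lit 11) (.e (nat_lit 24601) (nat_lit 2) .nil))))))) (.g (nat_lit 6) .nil .nil))))))))) 
(.nd (nat_lit 1) (.nd (nat_lit 2) (.nd (nat_lit 3) (.nd (nat_lit 4) (.nd (nat_lit 5) 
(.nd (nat_lit 6) 
(.lf (nat_lit 216449) (.g (nat_lit 3792) (.e (nat_lit 90170) (nat_lit 13) (.e (nat_lit 172106) (nat_lit 10) (.e (nat_lit 434231) (nat_lit 23) (.e (nat_lit 532563) (nat_lit 15) (.e (nat_lit 385043) (nat_lit 21) (.e (nat_lit 6931) (nat_lit 373) (.e (nat_lit 57374) (nat_lit 2) .nil))))))) (.g (nat_lit 4) .nil .nil))) 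
(.lf (nat_lit 216513) (.g (nat_lit 2369) (.e (nat_lit 90170) (nat_lit 13) (.e (nat_lit 172106) (nat_lit 10) (.e (nat_lit 434244) (nat_lit 28) (.e (nat_lit 573441) (nat_lit 0) .nil)))) .nil))) (.nd (nat_lit 6) 
(.lf (nat_lit 216481) (.g (nat_lit 303) (.e (nat_lit 90170) (nat_lit 13) (.e (nat_lit 172106) (nat_lit 10) (.e (nat_lit 434238) (nat_lit 25) .nil))) .nil)) 
(.lf (nat_lit 216545) (.g (nat_lit 1996) (.e (nat_lit 90170) (nat_lit 13) (.e (nat_lit 172106) (nat_lit 10) (.e (nat_lit 434244) (nat_lit 28) (.e (nat_lit 573451) (nat_lit 9) (.e (nat_lit 1027) (nat_lit 81) .nil))))) .nil)))) (.nd (nat_lit 5) (.nd (nat_lit 6) 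
(.lf (nat_lit 216465) (.g (nat_lit 3377) (.e (nat_lit 90170) (nat_lit 13) (.e (nat_lit 172106) (nat_lit 10) (.e (nat_lit 434231) (nat_lit 23) (.e (nat_lit 532569) (nat_lit 16) (.e (nat_lit 401418) (nat_lit 0) (.e (nat_lit 7936) (nat_lit 402) (.e (nat_lit 1239) (nat_lit 91) .nil))))))) (.g (nat_lit 4) .nil .nil))) 
(.lf (nat_lit 216529) (.g (nat_lit 2060) (.e (nat_lit 90170) (nat_lit 13) (.e (nat_lit 172106) (nat_lit 10) (.e (nat_lit 434244) (nat_lit 28) (.e (nat_lit 573451) (nat_lit 9) (.e (nat_lit 982) (nat_lit 81) (.e (nat_lit 2281) (nat_lit 150) (.e (nat_lit 770058) (nat_lit 5) (.e (nat_lit 1464) (nat_lit 108) (.e (nat_lit 336013) (nat_lit 2) .nil))))))))) (.g (nat_lit 4) .nil .nil)))) (.nd (nat_lit 6) 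
(.lf (nat_lit 216497) (.g (nat_lit 2574) (.e (nat_lit 90170) (nat_lit 13) (.e (nat_lit 172106) (nat_lit 10) (.e (nat_lit 434238) (nat_lit 25) (.e (nat_lit 548913) (nat_lit 18) (.e (nat_lit 172036) (nat_lit 0) .nil))))) .nil)) 
(.lf (nat_lit 216561) (.g (nat_lit 2055) (.e (nat_lit 90170) (nat_lit 13) (.e (nat_lit 172106) (nat_lit 10) (.e (nat_lit 434244) (nat_lit 28) (.e (nat_lit 573451) (nat_lit 9) (.e (nat_lit 1310) (nat_lit 98) .nil))))) .nil))))) (.nd (nat_lit 4) (.nd (nat_lit 5) (.nd (nat_lit 6) 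
(.lf (nat_lit 216457) (.g (nat_lit 4046) (.e (nat_lit 90170) (nat_lit 13) (.e (nat_lit 172106) (nat_lit 10) (.e (nat_lit 434231) (nat_lit 23) (.e (nat_lit 532569) (nat_lit 16) (.e (nat_lit 401408) (nat_lit 0) (.e (nat_lit 7936) (nat_lit 402) (.e (nat_lit 1237) (nat_lit 91) .nil))))))) (.g (nat_lit 4) .nil .nil))) 
(.lf (nat_lit 216521) (.g (nat_lit 1854) (.e (nat_lit 90170) (nat_lit 13) (.e (nat_lit 172106) (nat_lit 10) (.e (nat_lit 434244) (nat_lit 28) (.e (nat_lit 573449) (nat_lit 9) (.e (nat_lit 1310) (nat_lit 98) .nil))))) .nil))) (.nd (nat_lit 6) 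
(.lf (nat_lit 216489) (.g (nat_lit 3869) (.e (nat_lit 90170) (nat_lit 13) (.e (nat_lit 172106) (nat_lit 10) (.e (nat_lit 434238) (nat_lit 25) (.e (nat_lit 548898) (nat_lit 14) (.e (nat_lit 2980) (nat_lit 185) (.e (nat_lit 442112) (nat_lit 0) (.e (nat_lit 1237) (nat_lit 91) .nil))))))) (.g (nat_lit 4) .nil .nil))) 
(.lf (nat_lit 216553) (.g (nat_lit 3010) (.e (nat_lit 90170) (nat_lit 13) (.e (nat_lit 172106) (nat_lit 10) (.e (nat_lit 434244) (nat_lit 28) (.e (nat_lit 573451) (nat_lit 9) (.e (nat_lit 1035) (nat_lit 81) (.e (nat_lit 2281) (nat_lit 150) (.e (nat_lit 770070) (nat_lit 8) (.e (nat_lit 65568) (nat_lit 2) .nil)))))))) (.g (nat_lit 4) .nil .nil))))) (.nd (nat_lit 5) (.nd (nat_lit 6) 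
(.lf (nat_lit 216473) (.g (nat_lit 2478) (.e (nat_lit 90170) (nat_lit 13) (.e (nat_lit 172106) (nat_lit 10) (.e (nat_lit 434231) (nat_lit 23) (.e (nat_lit 532576) (nat_lit 17) .nil)))) .nil)) 
(.lf (nat_lit 216537) (.g (nat_lit 2393) (.e (nat_lit 90170) (nat_lit 13) (.e (nat_lit 172106) (nat_lit 10) (.e (nat_lit 434244) (nat_lit 28) (.e (nat_lit 573451) (nat_lit 9) (.e (nat_lit 1002) (nat_lit 81) (.e (nat_lit 2375) (nat_lit 154) (.e (nat_lit 802824) (nat_lit 11) (.e (nat_lit 336009) (nat_lit 2) .nil)))))))) (.g (nat_lit 4) .nil .nil)))) (.nd (nat_lit 6) 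
(.lf (nat_lit 216505) (.g (nat_lit 3327) (.e (nat_lit 90170) (nat_lit 13) (.e (nat_lit 172106) (nat_lit 10) (.e (nat_lit 434243) (nat_lit 28) (.e (nat_lit 573474) (nat_lit 12) (.e (nat_lit 57572) (nat_lit 54) (.e (nat_lit 770055) (nat_lit 5) (.e (nat_lit 1464) (nat_lit 108) (.e (nat_lit 336013) (nat_lit 2) .nil)))))))) (.g (nat_lit 5) .nil .nil))) 
(.lf (nat_lit 216569) (.g (nat_lit 2165) (.e (nat_lit 90170) (nat_lit 13) (.e (nat_lit 172106) (nat_lit 10) (.e (nat_lit 434244) (nat_lit 28) (.e (nat_lit 573451) (nat_lit 9) (.e (nat_lit 1314) (nat_lit 98) (.e (nat_lit 147476) (nat_lit 9) (.e (nat_lit 290) (nat_lit 21) (.e (nat_lit 336009) (nat_lit 2) .nil)))))))) (.g (nat_lit 4) .nil .nil))))))) 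
(.nd (nat_lit 3) (.nd (nat_lit 4) (.nd (nat_lit 5) (.nd (nat_lit 6) 
(.lf (nat_lit 216453) (.g (nat_lit 1473) (.e (nat_lit 90170) (nat_lit 13) (.e (nat_lit 172106) (nat_lit 10) (.e (nat_lit 434231) (nat_lit 23) (.e (nat_lit 532569) (nat_lit 16) .nil)))) .nil)) 
(.lf (nat_lit 216517) (.g (nat_lit 1122) (.e (nat_lit 90170) (nat_lit 13) (.e (nat_lit 172106) (nat_lit 10) (.e (nat_lit 434244) (nat_lit 28) (.e (nat_lit 573449) (nat_lit 9) .nil)))) .nil))) (.nd (nat_lit 6) 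
(.lf (nat_lit 216485) (.g (nat_lit 3647) (.e (nat_lit 90170) (nat_lit 13) (.e (nat_lit 172106) (nat_lit 10) (.e (nat_lit 434238) (nat_lit 25) (.e (nat_lit 548898) (nat_lit 14) (.e (nat_lit 2828) (nat_lit 182) (.e (nat_lit 409603) (nat_lit 0) (.e (nat_lit 5293) (nat_lit 298) (.e (nat_lit 1232) (nat_lit 91) .nil)))))))) (.g (nat_lit 4) .nil .nil))) 
(.lf (nat_lit 216549) (.g (nat_lit 1933) (.e (nat_lit 90170) (nat_lit 13) (.e (nat_lit 172106) (nat_lit 10) (.e (nat_lit 434244) (nat_lit 28) (.e (nat_lit 573451) (nat_lit 9) (.e (nat_lit 1030) (nat_lit 81) (.e (nat_lit 2281) (nat_lit 150) (.e (nat_lit 770057) (nat_lit 5) (.e (nat_lit 1464) (nat_lit 108) (.e (nat_lit 336013) (nat_lit 2) .nil))))))))) (.g (nat_lit 4) .nil .nil))))) 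
(.nd (nat_lit 5) (.nd (nat_lit 6) 
(.lf (nat_lit 216469) (.g (nat_lit 2713) (.e (nat_lit 90170) (nat_lit 13) (.e (nat_lit 172106) (nat_lit 10) (.e (nat_lit 434231) (nat_lit 23) (.e (nat_lit 532570) (nat_lit 17) .nil)))) .nil)) 
(.lf (nat_lit 216533) (.g (nat_lit 2357) (.e (nat_lit 90170) (nat_lit 13) (.e (nat_lit 172106) (nat_lit 10) (.e (nat_lit 434244) (nat_lit 28) (.e (nat_lit 573451) (nat_lit 9) (.e (nat_lit 999) (nat_lit 81) (.e (nat_lit 2271) (nat_lit 149) (.e (nat_lit 769792) (nat_lit 8) (.e (nat_lit 65568) (nat_lit 2) .nil)))))))) (.g (nat_lit 4) .nil .nil)))) (.nd (nat_lit 6) 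
(.lf (nat_lit 216501) (.g (nat_lit 327) (.e (nat_lit 90170) (nat_lit 13) (.e (nat_lit 172106) (nat_lit 10) (.e (nat_lit 434241) (nat_lit 27) .nil))) .nil)) 
(.lf (nat_lit 216565) (.g (nat_lit 2791) (.e (nat_lit 90170) (nat_lit 13) (.e (nat_lit 172106) (nat_lit 10) (.e (nat_lit 434244) (nat_lit 28) (.e (nat_lit 573451) (nat_lit 9) (.e (nat_lit 1310) (nat_lit 98) (.e (nat_lit 147493) (nat_lit 11) (.e (nat_lit 24605) (nat_lit 2) .nil))))))) (.g (nat_lit 4) .nil .nil)))))) (.nd (nat_lit 4) (.nd (nat_lit 5) (.nd (nat_lit 6) 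
(.lf (nat_lit 216461) (.g (nat_lit 3745) (.e (nat_lit 90170) (nat_lit 13) (.e (nat_lit 172106) (nat_lit 10) (.e (nat_lit 434231) (nat_lit 23) (.e (nat_lit 532569) (nat_lit 16) (.e (nat_lit 401416) (nat_lit 0) (.e (nat_lit 7936) (nat_lit 402) (.e (nat_lit 1237) (nat_lit 91) .nil))))))) (.g (nat_lit 4) .nil .nil))) 
(.lf (nat_lit 216525) (.g (nat_lit 2767) (.e (nat_lit 90170) (nat_lit 13) (.e (nat_lit 172106) (nat_lit 10) (.e (nat_lit 434244) (nat_lit 28) (.e (nat_lit 573450) (nat_lit 9) (.e (nat_lit 473) (nat_lit 36) (.e (nat_lit 466688) (nat_lit 0) (.e (nat_lit 1237) (nat_lit 91) .nil))))))) (.g (nat_lit 4) .nil .nil)))) (.nd (nat_lit 6) 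
(.lf (nat_lit 216493) (.g (nat_lit 2369) (.e (nat_lit 90170) (nat_lit 13) (.e (nat_lit 172106) (nat_lit 10) (.e (nat_lit 434238) (nat_lit 25) (.e (nat_lit 548913) (nat_lit 18) (.e (nat_lit 172034) (nat_lit 0) .nil))))) .nil)) 
(.lf (nat_lit 216557) (.g (nat_lit 1996) (.e (nat_lit 90170) (nat_lit 13) (.e (nat_lit 172106) (nat_lit 10) (.e (nat_lit 434244) (nat_lit 28) (.e (nat_lit 573451) (nat_lit 9) (.e (nat_lit 1175) (nat_lit 87) .nil))))) .nil)))) (.nd (nat_lit 5) (.nd (nat_lit 6) 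
(.lf (nat_lit 216477) (.g (nat_lit 3397) (.e (nat_lit 90170) (nat_lit 13) (.e (nat_lit 172106) (nat_lit 10) (.e (nat_lit 434231) (nat_lit 23) (.e (nat_lit 540416) (nat_lit 18) (.e (nat_lit 164159) (nat_lit 152) (.e (nat_lit 1296) (nat_lit 96) (.e (nat_lit 131093) (nat_lit 2) .nil))))))) (.g (nat_lit 6) .nil .nil))) 
(.lf (nat_lit 216541) (.g (nat_lit 1967) (.e (nat_lit 90170) (nat_lit 13) (.e (nat_lit 172106) (nat_lit 10) (.e (nat_lit 434244) (nat_lit 28) (.e (nat_lit 573451) (nat_lit 9) (.e (nat_lit 1005) (nat_lit 81) .nil))))) .nil))) (.nd (nat_lit 6) 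
(.lf (nat_lit 216509) (.g (nat_lit 3391) (.e (nat_lit 90170) (nat_lit 13) (.e (nat_lit 172106) (nat_lit 10) (.e (nat_lit 434243) (nat_lit 28) (.e (nat_lit 573474) (nat_lit 12) (.e (nat_lit 57572) (nat_lit 54) (.e (nat_lit 770071) (nat_lit 8) (.e (nat_lit 65566) (nat_lit 2) .nil))))))) (.g (nat_lit 5) .nil .nil))) 
(.lf (nat_lit 216573) (.g (nat_lit 2732) (.e (nat_lit 90170) (nat_lit 13) (.e (nat_lit 172106) (nat_lit 10) (.e (nat_lit 434244) (nat_lit 28) (.e (nat_lit 573454) (nat_lit 9) (.e (nat_lit 1315) (nat_lit 98) (.e (nat_lit 147466) (nat_lit 9) (.e (nat_lit 275) (nat_lit 21) (.e (nat_lit 336011) (nat_lit 2) .nil)))))))) (.g (nat_lit 4) .nil .nil)))))))) 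
(.nd (nat_lit 2) (.nd (nat_lit 3) (.nd (nat_lit 4) (.nd (nat_lit 5) (.nd (nat_lit 6) 
(.lf (nat_lit 216451) (.g (nat_lit 1672) (.e (nat_lit 90170) (nat_lit 13) (.e (nat_lit 172106) (nat_lit 10) (.e (nat_lit 434231) (nat_lit 23) (.e (nat_lit 532568) (nat_lit 16) .nil)))) .nil)) 
(.lf (nat_lit 216515) (.g (nat_lit 2028) (.e (nat_lit 90170) (nat_lit 13) (.e (nat_lit 172106) (nat_lit 10) (.e (nat_lit 434244) (nat_lit 28) (.e (nat_lit 573448) (nat_lit 9) .nil)))) .nil))) (.nd (nat_lit 6) 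
(.lf (nat_lit 216483) (.g (nat_lit 3357) (.e (nat_lit 90170) (nat_lit 13) (.e (nat_lit 172106) (nat_lit 10) (.e (nat_lit 434238) (nat_lit 25) (.e (nat_lit 548897) (nat_lit 14) (.e (nat_lit 2828) (nat_lit 182) (.e (nat_lit 409602) (nat_lit 0) (.e (nat_lit 5293) (nat_lit 298) (.e (nat_lit 1232) (nat_lit 91) .nil)))))))) (.g (nat_lit 5) .nil .nil))) 
(.lf (nat_lit 216547) (.g (nat_lit 1924) (.e (nat_lit 90170) (nat_lit 13) (.e (nat_lit 172106) (nat_lit 10) (.e (nat_lit 434244) (nat_lit 28) (.e (nat_lit 573451) (nat_lit 9) (.e (nat_lit 1030) (nat_lit 81) .nil))))) .nil)))) (.nd (nat_lit 5) (.nd (nat_lit 6) 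
(.lf (nat_lit 216467) (.g (nat_lit 2485) (.e (nat_lit 90170) (nat_lit 13) (.e (nat_lit 172106) (nat_lit 10) (.e (nat_lit 434231) (nat_lit 23) (.e (nat_lit 532569) (nat_lit 16) (.e (nat_lit 401460) (nat_lit 14) .nil))))) .nil)) 
(.lf (nat_lit 216531) (.g (nat_lit 2641) (.e (nat_lit 90170) (nat_lit 13) (.e (nat_lit 172106) (nat_lit 10) (.e (nat_lit 434244) (nat_lit 28) (.e (nat_lit 573451) (nat_lit 9) (.e (nat_lit 982) (nat_lit 81) (.e (nat_lit 2375) (nat_lit 154) (.e (nat_lit 802822) (nat_lit 11) (.e (nat_lit 336011) (nat_lit 2) .nil)))))))) (.g (nat_lit 4) .nil .nil)))) (.nd (nat_lit 6) 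
(.lf (nat_lit 216499) (.g (nat_lit 3135) (.e (nat_lit 90170) (nat_lit 13) (.e (nat_lit 172106) (nat_lit 10) (.e (nat_lit 434238) (nat_lit 25) (.e (nat_lit 548913) (nat_lit 18) (.e (nat_lit 172036) (nat_lit 0) (.e (nat_lit 7936) (nat_lit 402) (.e (nat_lit 1237) (nat_lit 91) .nil))))))) (.g (nat_lit 4) .nil .nil))) 
(.lf (nat_lit 216563) (.g (nat_lit 2298) (.e (nat_lit 90170) (nat_lit 13) (.e (nat_lit 172106) (nat_lit 10) (.e (nat_lit 434244) (nat_lit 28) (.e (nat_lit 573451) (nat_lit 9) (.e (nat_lit 1310) (nat_lit 98) (.e (nat_lit 147476) (nat_lit 9) (.e (nat_lit 290) (nat_lit 21) (.e (nat_lit 336009) (nat_lit 2) .nil)))))))) (.g (nat_lit 4) .nil .nil)))))) (.nd (nat_lit 4) (.nd (nat_lit 5) (.nd (nat_lit 6) 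
(.lf (nat_lit 216459) (.g (nat_lit 2504) (.e (nat_lit 90170) (nat_lit 13) (.e (nat_lit 172106) (nat_lit 10) (.e (nat_lit 434231) (nat_lit 23) (.e (nat_lit 532569) (nat_lit 16) (.e (nat_lit 401414) (nat_lit 0) .nil))))) .nil)) 
(.lf (nat_lit 216523) (.g (nat_lit 1757) (.e (nat_lit 90170) (nat_lit 13) (.e (nat_lit 172106) (nat_lit 10) (.e (nat_lit 434244) (nat_lit 28) (.e (nat_lit 573449) (nat_lit 9) (.e (nat_lit 1312) (nat_lit 98) .nil))))) .nil))) (.nd (nat_lit 6) 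
(.lf (nat_lit 216491) (.g (nat_lit 3530) (.e (nat_lit 90170) (nat_lit 13) (.e (nat_lit 172106) (nat_lit 10) (.e (nat_lit 434238) (nat_lit 25) (.e (nat_lit 548913) (nat_lit 18) (.e (nat_lit 172033) (nat_lit 0) (.e (nat_lit 7490) (nat_lit 402) (.e (nat_lit 1239) (nat_lit 91) .nil))))))) (.g (nat_lit 6) .nil .nil))) 
(.lf (nat_lit 216555) (.g (nat_lit 1996) (.e (nat_lit 90170) (nat_lit 13) (.e (nat_lit 172106) (nat_lit 10) (.e (nat_lit 434244) (nat_lit 28) (.e (nat_lit 573451) (nat_lit 9) (.e (nat_lit 1047) (nat_lit 81) .nil))))) .nil)))) (.nd (nat_lit 5) (.nd (nat_lit 6) 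
(.lf (nat_lit 216475) (.g (nat_lit 1908) (.e (nat_lit 90170) (nat_lit 13) (.e (nat_lit 172106) (nat_lit 10) (.e (nat_lit 434231) (nat_lit 23) (.e (nat_lit 540416) (nat_lit 17) .nil)))) .nil)) 
(.lf (nat_lit 216539) (.g (nat_lit 2656) (.e (nat_lit 90170) (nat_lit 13) (.e (nat_lit 172106) (nat_lit 10) (.e (nat_lit 434244) (nat_lit 28) (.e (nat_lit 573451) (nat_lit 9) (.e (nat_lit 1004) (nat_lit 81) (.e (nat_lit 2370) (nat_lit 154) (.e (nat_lit 802824) (nat_lit 11) (.e (nat_lit 336011) (nat_lit 2) .nil)))))))) (.g (nat_lit 4) .nil .nil)))) (.nd (nat_lit 6) 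
(.lf (nat_lit 216507) (.g (nat_lit 4013) (.e (nat_lit 90170) (nat_lit 13) (.e (nat_lit 172106) (nat_lit 10) (.e (nat_lit 434243) (nat_lit 28) (.e (nat_lit 573474) (nat_lit 12) (.e (nat_lit 57572) (nat_lit 54) (.e (nat_lit 770057) (nat_lit 5) (.e (nat_lit 1464) (nat_lit 108) (.e (nat_lit 336013) (nat_lit 2) .nil)))))))) (.g (nat_lit 6) .nil .nil))) 
(.lf (nat_lit 216571) (.g (nat_lit 1491) (.e (nat_lit 90170) (nat_lit 13) (.e (nat_lit 172106) (nat_lit 10) (.e (nat_lit 434244) (nat_lit 28) (.e (nat_lit 573453) (nat_lit 9) .nil)))) .nil)))))) (.nd (nat_lit 3) (.nd (nat_lit 4) (.nd (nat_lit 5) (.nd (nat_lit 6) 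
(.lf (nat_lit 216455) (.g (nat_lit 4219) (.e (nat_lit 90170) (nat_lit 13) (.e (nat_lit 172106) (nat_lit 10) (.e (nat_lit 434231) (nat_lit 23) (.e (nat_lit 532569) (nat_lit 16) (.e (nat_lit 401408) (nat_lit 0) (.e (nat_lit 7523) (nat_lit 402) (.e (nat_lit 1235) (nat_lit 91) .nil))))))) (.g (nat_lit 4) .nil .nil))) 
(.lf (nat_lit 216519) (.g (nat_lit 1886) (.e (nat_lit 90170) (nat_lit 13) (.e (nat_lit 172106) (nat_lit 10) (.e (nat_lit 434244) (nat_lit 28) (.e (nat_lit 573449) (nat_lit 9) (.e (nat_lit 449) (nat_lit 33) .nil))))) .nil))) (.nd (nat_lit 6) 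
(.lf (nat_lit 216487) (.g (nat_lit 3137) (.e (nat_lit 90170) (nat_lit 13) (.e (nat_lit 172106) (nat_lit 10) (.e (nat_lit 434238) (nat_lit 25) (.e (nat_lit 548898) (nat_lit 14) (.e (nat_lit 2975) (nat_lit 185) (.e (nat_lit 442112) (nat_lit 0) (.e (nat_lit 1237) (nat_lit 91) .nil))))))) (.g (nat_lit 4) .nil .nil))) 
(.lf (nat_lit 216551) (.g (nat_lit 2093) (.e (nat_lit 90170) (nat_lit 13) (.e (nat_lit 172106) (nat_lit 10) (.e (nat_lit 434244) (nat_lit 28) (.e (nat_lit 573451) (nat_lit 9) (.e (nat_lit 1032) (nat_lit 81) (.e (nat_lit 2280) (nat_lit 150) (.e (nat_lit 770071) (nat_lit 8) (.e (nat_lit 65568) (nat_lit 2) .nil)))))))) (.g (nat_lit 4) .nil .nil))))) (.nd (nat_lit 5) (.nd (nat_lit 6) 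
(.lf (nat_lit 216471) (.g (nat_lit 2420) (.e (nat_lit 90170) (nat_lit 13) (.e (nat_lit 172106) (nat_lit 10) (.e (nat_lit 434231) (nat_lit 23) (.e (nat_lit 532574) (nat_lit 17) .nil)))) .nil)) 
(.lf (nat_lit 216535) (.g (nat_lit 1990) (.e (nat_lit 90170) (nat_lit 13) (.e (nat_lit 172106) (nat_lit 10) (.e (nat_lit 434244) (nat_lit 28) (.e (nat_lit 573451) (nat_lit 9) (.e (nat_lit 1002) (nat_lit 81) .nil))))) .nil))) (.nd (nat_lit 6) 
(.lf (nat_lit 216503) (.g (nat_lit 3734) (.e (nat_lit 90170) (nat_lit 13) (.e (nat_lit 172106) (nat_lit 10) (.e (nat_lit 434242) (nat_lit 28) (.e (nat_lit 573474) (nat_lit 12) (.e (nat_lit 57572) (nat_lit 54) (.e (nat_lit 770072) (nat_lit 8) (.e (nat_lit 65566) (nat_lit 2) .nil))))))) (.g (nat_lit 4) .nil .nil))) 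
(.lf (nat_lit 216567) (.g (nat_lit 1956) (.e (nat_lit 90170) (nat_lit 13) (.e (nat_lit 172106) (nat_lit 10) (.e (nat_lit 434244) (nat_lit 28) (.e (nat_lit 573451) (nat_lit 9) (.e (nat_lit 1314) (nat_lit 98) .nil))))) .nil))))) (.nd (nat_lit 4) (.nd (nat_lit 5) (.nd (nat_lit 6) 
(.lf (nat_lit 216463) (.g (nat_lit 3501) (.e (nat_lit 90170) (nat_lit 13) (.e (nat_lit 172106) (nat_lit 10) (.e (nat_lit 434231) (nat_lit 23) (.e (nat_lit 532569) (nat_lit 16) (.e (nat_lit 401418) (nat_lit 0) (.e (nat_lit 7528) (nat_lit 402) (.e (nat_lit 1235) (nat_lit 91) .nil))))))) (.g (nat_lit 4) .nil .nil))) 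
(.lf (nat_lit 216527) (.g (nat_lit 2785) (.e (nat_lit 90170) (nat_lit 13) (.e (nat_lit 172106) (nat_lit 10) (.e (nat_lit 434244) (nat_lit 28) (.e (nat_lit 573451) (nat_lit 9) (.e (nat_lit 11) (nat_lit 0) (.e (nat_lit 7078) (nat_lit 378) (.e (nat_lit 57884) (nat_lit 270) (.e (nat_lit 1232) (nat_lit 91) .nil)))))))) (.g (nat_lit 4) .nil .nil)))) (.nd (nat_lit 6) 
(.lf (nat_lit 216495) (.g (nat_lit 2544) (.e (nat_lit 90170) (nat_lit 13) (.e (nat_lit 172106) (nat_lit 10) (.e (nat_lit 434238) (nat_lit 25) (.e (nat_lit 548913) (nat_lit 18) (.e (nat_lit 172035) (nat_lit 0) .nil))))) .nil)) 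
(.lf (nat_lit 216559) (.g (nat_lit 2001) (.e (nat_lit 90170) (nat_lit 13) (.e (nat_lit 172106) (nat_lit 10) (.e (nat_lit 434244) (nat_lit 28) (.e (nat_lit 573451) (nat_lit 9) (.e (nat_lit 1175) (nat_lit 87) (.e (nat_lit 57666) (nat_lit 152) (.e (nat_lit 1077) (nat_lit 81) (.e (nat_lit 1413) (nat_lit 108) (.e (nat_lit 336013) (nat_lit 2) .nil))))))))) (.g (nat_lit 4) .nil .nil))))) 
(.nd (nat_lit 5) (.nd (nat_lit 6) 
(.lf (nat_lit 216479) (.g (nat_lit 4197) (.e (nat_lit 90170) (nat_lit 13) (.e (nat_lit 172106) (nat_lit 10) (.e (nat_lit 434232) (nat_lit 23) (.e (nat_lit 532523) (nat_lit 7) (.e (nat_lit 319504) (nat_lit 10) (.e (nat_lit 7936) (nat_lit 298) (.e (nat_lit 1237) (nat_lit 91) .nil))))))) (.g (nat_lit 5) .nil .nil))) 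
(.lf (nat_lit 216543) (.g (nat_lit 1996) (.e (nat_lit 90170) (nat_lit 13) (.e (nat_lit 172106) (nat_lit 10) (.e (nat_lit 434244) (nat_lit 28) (.e (nat_lit 573451) (nat_lit 9) (.e (nat_lit 1024) (nat_lit 81) .nil))))) .nil))) (.nd (nat_lit 6) 
(.lf (nat_lit 216511) (.g (nat_lit 5328) (.e (nat_lit 90170) (nat_lit 13) (.e (nat_lit 172106) (nat_lit 10) (.e (nat_lit 434243) (nat_lit 28) (.e (nat_lit 573474) (nat_lit 12) (.e (nat_lit 57572) (nat_lit 54) (.e (nat_lit 770072) (nat_lit 8) (.e (nat_lit 65568) (nat_lit 2) .nil))))))) (.g (nat_lit 7) .nil .nil))) 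
(.lf (nat_lit 216575) (.g (nat_lit 4798) (.e (nat_lit 90170) (nat_lit 13) (.e (nat_lit 172106) (nat_lit 10) (.e (nat_lit 434244) (nat_lit 28) (.e (nat_lit 573454) (nat_lit 9) (.e (nat_lit 1315) (nat_lit 98) (.e (nat_lit 147495) (nat_lit 11) (.e (nat_lit 24605) (nat_lit 2) .nil))))))) (.g (nat_lit 6) .nil .nil))))))))))

noncomputable def tv2847 : DT := (.nd (nat_lit 0) (.nd (nat_lit 1) (.nd (nat_lit 2) (.nd (nat_lit 3) (.nd (nat_lit 4) (.nd (nat_lit 5) 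
(.lf (nat_lit 216576) (.g (nat_lit 2398) (.e (nat_lit 90170) (nat_lit 13) (.e (nat_lit 172106) (nat_lit 10) (.e (nat_lit 434244) (nat_lit 28) (.e (nat_lit 573456) (nat_lit 9) .nil)))) .nil)) 
(.lf (nat_lit 216608) (.g (nat_lit 2116) (.e (nat_lit 90170) (nat_lit 13) (.e (nat_lit 172106) (nat_lit 10) (.e (nat_lit 434244) (nat_lit 28) (.e (nat_lit 573468) (nat_lit 10) (.e (nat_lit 8194) (nat_lit 0) (.e (nat_lit 4448) (nat_lit 263) (.e (nat_lit 1199) (nat_lit 88) (.e (nat_lit 65568) (nat_lit 2) .nil)))))))) (.g (nat_lit 4) .nil .nil)))) (.nd (nat_lit 5) 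
(.lf (nat_lit 216592) (.g (nat_lit 2209) (.e (nat_lit 90170) (nat_lit 13) (.e (nat_lit 172106) (nat_lit 10) (.e (nat_lit 434244) (nat_lit 28) (.e (nat_lit 573468) (nat_lit 10) (.e (nat_lit 8192) (nat_lit 0) (.e (nat_lit 4443) (nat_lit 263) (.e (nat_lit 1296) (nat_lit 96) (.e (nat_lit 131091) (nat_lit 2) .nil)))))))) (.g (nat_lit 4) .nil .nil))) 
(.lf (nat_lit 216624) (.g (nat_lit 3010) (.e (nat_lit 90170) (nat_lit 13) (.e (nat_lit 172106) (nat_lit 10) (.e (nat_lit 434244) (nat_lit 28) (.e (nat_lit 573471) (nat_lit 11) (.e (nat_lit 16384) (nat_lit 0) (.e (nat_lit 7545) (nat_lit 402) (.e (nat_lit 1237) (nat_lit 91) .nil))))))) (.g (nat_lit 7) .nil .nil))))) (.nd (nat_lit 4) (.nd (nat_lit 5) 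
(.lf (nat_lit 216584) (.g (nat_lit 2210) (.e (nat_lit 90170) (nat_lit 13) (.e (nat_lit 172106) (nat_lit 10) (.e (nat_lit 434244) (nat_lit 28) (.e (nat_lit 573467) (nat_lit 10) .nil)))) .nil)) 
(.lf (nat_lit 216616) (.g (nat_lit 1528) (.e (nat_lit 90170) (nat_lit 13) (.e (nat_lit 172106) (nat_lit 10) (.e (nat_lit 434244) (nat_lit 28) (.e (nat_lit 573469) (nat_lit 11) (.e (nat_lit 16385) (nat_lit 0) .nil))))) .nil))) (.nd (nat_lit 5) 
(.lf (nat_lit 216600) (.g (nat_lit 2140) (.e (nat_lit 90170) (nat_lit 13) (.e (nat_lit 172106) (nat_lit 10) (.e (nat_lit 434244) (nat_lit 28) (.e (nat_lit 573468) (nat_lit 10) (.e (nat_lit 8193) (nat_lit 0) (.e (nat_lit 4444) (nat_lit 263) (.e (nat_lit 1296) (nat_lit 96) (.e (nat_lit 131093) (nat_lit 2) .nil)))))))) (.g (nat_lit 4) .nil .nil))) 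
(.lf (nat_lit 216632) (.g (nat_lit 3423) (.e (nat_lit 90170) (nat_lit 13) (.e (nat_lit 172106) (nat_lit 10) (.e (nat_lit 434244) (nat_lit 28) (.e (nat_lit 573471) (nat_lit 11) (.e (nat_lit 16399) (nat_lit 0) (.e (nat_lit 7936) (nat_lit 402) (.e (nat_lit 1239) (nat_lit 91) .nil))))))) (.g (nat_lit 4) .nil .nil)))))) (.nd (nat_lit 3) (.nd (nat_lit 4) (.nd (nat_lit 5) 
(.lf (nat_lit 216580) (.g (nat_lit 1563) (.e (nat_lit 90170) (nat_lit 13) (.e (nat_lit 172106) (nat_lit 10) (.e (nat_lit 434244) (nat_lit 28) (.e (nat_lit 573458) (nat_lit 9) (.e (nat_lit 1313) (nat_lit 98) .nil))))) .nil)) 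
(.lf (nat_lit 216612) (.g (nat_lit 1737) (.e (nat_lit 90170) (nat_lit 13) (.e (nat_lit 172106) (nat_lit 10) (.e (nat_lit 434244) (nat_lit 28) (.e (nat_lit 573468) (nat_lit 10) (.e (nat_lit 8202) (nat_lit 0) .nil))))) .nil))) (.nd (nat_lit 5) 
(.lf (nat_lit 216596) (.g (nat_lit 1773) (.e (nat_lit 90170) (nat_lit 13) (.e (nat_lit 172106) (nat_lit 10) (.e (nat_lit 434244) (nat_lit 28) (.e (nat_lit 573468) (nat_lit 10) (.e (nat_lit 8193) (nat_lit 0) .nil))))) .nil)) 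
(.lf (nat_lit 216628) (.g (nat_lit 2954) (.e (nat_lit 90170) (nat_lit 13) (.e (nat_lit 172106) (nat_lit 10) (.e (nat_lit 434244) (nat_lit 28) (.e (nat_lit 573471) (nat_lit 11) (.e (nat_lit 16389) (nat_lit 0) (.e (nat_lit 7562) (nat_lit 402) (.e (nat_lit 1235) (nat_lit 91) .nil))))))) (.g (nat_lit 4) .nil .nil))))) (.nd (nat_lit 4) (.nd (nat_lit 5) 
(.lf (nat_lit 216588) (.g (nat_lit 2497) (.e (nat_lit 90170) (nat_lit 13) (.e (nat_lit 172106) (nat_lit 10) (.e (nat_lit 434244) (nat_lit 28) (.e (nat_lit 573468) (nat_lit 10) (.e (nat_lit 8192) (nat_lit 0) (.e (nat_lit 4439) (nat_lit 263) (.e (nat_lit 1296) (nat_lit 96) (.e (nat_lit 131093) (nat_lit 2) .nil)))))))) (.g (nat_lit 4) .nil .nil))) 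
(.lf (nat_lit 216620) (.g (nat_lit 4732) (.e (nat_lit 90170) (nat_lit 13) (.e (nat_lit 172106) (nat_lit 10) (.e (nat_lit 434244) (nat_lit 28) (.e (nat_lit 573469) (nat_lit 11) (.e (nat_lit 16470) (nat_lit 14) (.e (nat_lit 491537) (nat_lit 2) .nil)))))) (.g (nat_lit 6) .nil .nil)))) (.nd (nat_lit 5) 
(.lf (nat_lit 216604) (.g (nat_lit 2234) (.e (nat_lit 90170) (nat_lit 13) (.e (nat_lit 172106) (nat_lit 10) (.e (nat_lit 434244) (nat_lit 28) (.e (nat_lit 573468) (nat_lit 10) (.e (nat_lit 8194) (nat_lit 0) (.e (nat_lit 4439) (nat_lit 263) (.e (nat_lit 1296) (nat_lit 96) (.e (nat_lit 131093) (nat_lit 2) .nil)))))))) (.g (nat_lit 4) .nil .nil))) 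
(.lf (nat_lit 216636) (.g (nat_lit 3199) (.e (nat_lit 90170) (nat_lit 13) (.e (nat_lit 172106) (nat_lit 10) (.e (nat_lit 434244) (nat_lit 28) (.e (nat_lit 573471) (nat_lit 11) (.e (nat_lit 16402) (nat_lit 0) (.e (nat_lit 7936) (nat_lit 402) (.e (nat_lit 1239) (nat_lit 91) .nil))))))) (.g (nat_lit 4) .nil .nil))))))) (.nd (nat_lit 2) (.nd (nat_lit 3) (.nd (nat_lit 4) (.nd (nat_lit 5) 
(.lf (nat_lit 216578) (.g (nat_lit 1569) (.e (nat_lit 90170) (nat_lit 13) (.e (nat_lit 172106) (nat_lit 10) (.e (nat_lit 434244) (nat_lit 28) (.e (nat_lit 573458) (nat_lit 9) (.e (nat_lit 1180) (nat_lit 87) .nil))))) .nil)) 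
(.lf (nat_lit 216610) (.g (nat_lit 1945) (.e (nat_lit 90170) (nat_lit 13) (.e (nat_lit 172106) (nat_lit 10) (.e (nat_lit 434244) (nat_lit 28) (.e (nat_lit 573468) (nat_lit 10) (.e (nat_lit 8195) (nat_lit 0) (.e (nat_lit 4493) (nat_lit 263) (.e (nat_lit 1015) (nat_lit 81) (.e (nat_lit 1449) (nat_lit 108) (.e (nat_lit 336013) (nat_lit 2) .nil))))))))) (.g (nat_lit 4) .nil .nil)))) (.nd (nat_lit 5) 
(.lf (nat_lit 216594) (.g (nat_lit 2016) (.e (nat_lit 90170) (nat_lit 13) (.e (nat_lit 172106) (nat_lit 10) (.e (nat_lit 434244) (nat_lit 28) (.e (nat_lit 573468) (nat_lit 10) (.e (nat_lit 8192) (nat_lit 0) (.e (nat_lit 4445) (nat_lit 263) (.e (nat_lit 1013) (nat_lit 81) (.e (nat_lit 1464) (nat_lit 108) (.e (nat_lit 336013) (nat_lit 2) .nil))))))))) (.g (nat_lit 4) .nil .nil))) 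
(.lf (nat_lit 216626) (.g (nat_lit 2994) (.e (nat_lit 90170) (nat_lit 13) (.e (nat_lit 172106) (nat_lit 10) (.e (nat_lit 434244) (nat_lit 28) (.e (nat_lit 573471) (nat_lit 11) (.e (nat_lit 16386) (nat_lit 0) (.e (nat_lit 7545) (nat_lit 402) (.e (nat_lit 1237) (nat_lit 91) .nil))))))) (.g (nat_lit 4) .nil .nil))))) (.nd (nat_lit 4) (.nd (nat_lit 5) 
(.lf (nat_lit 216586) (.g (nat_lit 814) (.e (nat_lit 90170) (nat_lit 13) (.e (nat_lit 172106) (nat_lit 10) (.e (nat_lit 434244) (nat_lit 28) (.e (nat_lit 573468) (nat_lit 10) .nil)))) .nil)) 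
(.lf (nat_lit 216618) (.g (nat_lit 4020) (.e (nat_lit 90170) (nat_lit 13) (.e (nat_lit 172106) (nat_lit 10) (.e (nat_lit 434244) (nat_lit 28) (.e (nat_lit 573469) (nat_lit 11) (.e (nat_lit 16388) (nat_lit 0) (.e (nat_lit 7490) (nat_lit 402) (.e (nat_lit 1239) (nat_lit 91) .nil))))))) (.g (nat_lit 6) .nil .nil)))) (.nd (nat_lit 5) 
(.lf (nat_lit 216602) (.g (nat_lit 2047) (.e (nat_lit 90170) (nat_lit 13) (.e (nat_lit 172106) (nat_lit 10) (.e (nat_lit 434244) (nat_lit 28) (.e (nat_lit 573468) (nat_lit 10) (.e (nat_lit 8193) (nat_lit 0) (.e (nat_lit 4450) (nat_lit 263) (.e (nat_lit 1196) (nat_lit 88) (.e (nat_lit 65568) (nat_lit 2) .nil)))))))) (.g (nat_lit 4) .nil .nil))) 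
(.lf (nat_lit 216634) (.g (nat_lit 3342) (.e (nat_lit 90170) (nat_lit 13) (.e (nat_lit 172106) (nat_lit 10) (.e (nat_lit 434244) (nat_lit 28) (.e (nat_lit 573471) (nat_lit 11) (.e (nat_lit 16401) (nat_lit 0) (.e (nat_lit 7936) (nat_lit 402) (.e (nat_lit 1239) (nat_lit 91) .nil))))))) (.g (nat_lit 4) .nil .nil)))))) (.nd (nat_lit 3) (.nd (nat_lit 4) (.nd (nat_lit 5) 
(.lf (nat_lit 216582) (.g (nat_lit 2110) (.e (nat_lit 90170) (nat_lit 13) (.e (nat_lit 172106) (nat_lit 10) (.e (nat_lit 434244) (nat_lit 28) (.e (nat_lit 573458) (nat_lit 9) (.e (nat_lit 1313) (nat_lit 98) (.e (nat_lit 147481) (nat_lit 9) (.e (nat_lit 247) (nat_lit 21) (.e (nat_lit 336011) (nat_lit 2) .nil)))))))) (.g (nat_lit 4) .nil .nil))) 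
(.lf (nat_lit 216614) (.g (nat_lit 2947) (.e (nat_lit 90170) (nat_lit 13) (.e (nat_lit 172106) (nat_lit 10) (.e (nat_lit 434244) (nat_lit 28) (.e (nat_lit 573468) (nat_lit 10) (.e (nat_lit 8490) (nat_lit 180) (.e (nat_lit 977) (nat_lit 81) (.e (nat_lit 5270) (nat_lit 298) (.e (nat_lit 1239) (nat_lit 91) .nil)))))))) (.g (nat_lit 4) .nil .nil)))) (.nd (nat_lit 5) 
(.lf (nat_lit 216598) (.g (nat_lit 2093) (.e (nat_lit 90170) (nat_lit 13) (.e (nat_lit 172106) (nat_lit 10) (.e (nat_lit 434244) (nat_lit 28) (.e (nat_lit 573468) (nat_lit 10) (.e (nat_lit 8193) (nat_lit 0) (.e (nat_lit 4443) (nat_lit 263) (.e (nat_lit 1201) (nat_lit 88) (.e (nat_lit 65568) (nat_lit 2) .nil)))))))) (.g (nat_lit 4) .nil .nil))) 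
(.lf (nat_lit 216630) (.g (nat_lit 2349) (.e (nat_lit 90170) (nat_lit 13) (.e (nat_lit 172106) (nat_lit 10) (.e (nat_lit 434244) (nat_lit 28) (.e (nat_lit 573471) (nat_lit 11) (.e (nat_lit 16397) (nat_lit 0) (.e (nat_lit 7936) (nat_lit 402) (.e (nat_lit 1237) (nat_lit 91) .nil))))))) (.g (nat_lit 4) .nil .nil))))) (.nd (nat_lit 4) (.nd (nat_lit 5) 
(.lf (nat_lit 216590) (.g (nat_lit 2090) (.e (nat_lit 90170) (nat_lit 13) (.e (nat_lit 172106) (nat_lit 10) (.e (nat_lit 434244) (nat_lit 28) (.e (nat_lit 573468) (nat_lit 10) (.e (nat_lit 8192) (nat_lit 0) (.e (nat_lit 4443) (nat_lit 263) (.e (nat_lit 1195) (nat_lit 88) (.e (nat_lit 65566) (nat_lit 2) .nil)))))))) (.g (nat_lit 4) .nil .nil))) 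
(.lf (nat_lit 216622) (.g (nat_lit 1377) (.e (nat_lit 90170) (nat_lit 13) (.e (nat_lit 172106) (nat_lit 10) (.e (nat_lit 434244) (nat_lit 28) (.e (nat_lit 573470) (nat_lit 11) (.e (nat_lit 16471) (nat_lit 14) .nil))))) .nil))) (.nd (nat_lit 5) 
(.lf (nat_lit 216606) (.g (nat_lit 2579) (.e (nat_lit 90170) (nat_lit 13) (.e (nat_lit 172106) (nat_lit 10) (.e (nat_lit 434244) (nat_lit 28) (.e (nat_lit 573468) (nat_lit 10) (.e (nat_lit 8194) (nat_lit 0) (.e (nat_lit 4444) (nat_lit 263) (.e (nat_lit 1296) (nat_lit 96) (.e (nat_lit 131093) (nat_lit 2) .nil)))))))) (.g (nat_lit 5) .nil .nil))) 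
(.lf (nat_lit 216638) (.g (nat_lit 2551) (.e (nat_lit 90170) (nat_lit 13) (.e (nat_lit 172106) (nat_lit 10) (.e (nat_lit 434244) (nat_lit 28) (.e (nat_lit 573471) (nat_lit 11) (.e (nat_lit 16405) (nat_lit 1) (.e (nat_lit 171776) (nat_lit 262) (.e (nat_lit 57374) (nat_lit 2) .nil))))))) (.g (nat_lit 4) .nil .nil)))))))) 
(.nd (nat_lit 1) (.nd (nat_lit 2) (.nd (nat_lit 3) (.nd (nat_lit 4) (.nd (nat_lit 5) 
(.lf (nat_lit 216577) (.g (nat_lit 635) (.e (nat_lit 90170) (nat_lit 13) (.e (nat_lit 172106) (nat_lit 10) (.e (nat_lit 434244) (nat_lit 28) (.e (nat_lit 573458) (nat_lit 9) .nil)))) .nil)) 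
(.lf (nat_lit 216609) (.g (nat_lit 1930) (.e (nat_lit 90170) (nat_lit 13) (.e (nat_lit 172106) (nat_lit 10) (.e (nat_lit 434244) (nat_lit 28) (.e (nat_lit 573468) (nat_lit 10) (.e (nat_lit 8195) (nat_lit 0) .nil))))) .nil))) (.nd (nat_lit 5) 
(.lf (nat_lit 216593) (.g (nat_lit 2730) (.e (nat_lit 90170) (nat_lit 13) (.e (nat_lit 172106) (nat_lit 10) (.e (nat_lit 434244) (nat_lit 28) (.e (nat_lit 573468) (nat_lit 10) (.e (nat_lit 8192) (nat_lit 0) (.e (nat_lit 4444) (nat_lit 263) (.e (nat_lit 1296) (nat_lit 96) (.e (nat_lit 131093) (nat_lit 2) .nil)))))))) (.g (nat_lit 5) .nil .nil))) 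
(.lf (nat_lit 216625) (.g (nat_lit 2715) (.e (nat_lit 90170) (nat_lit 13) (.e (nat_lit 172106) (nat_lit 10) (.e (nat_lit 434244) (nat_lit 28) (.e (nat_lit 573471) (nat_lit 11) (.e (nat_lit 16385) (nat_lit 0) (.e (nat_lit 7545) (nat_lit 402) (.e (nat_lit 1237) (nat_lit 91) .nil))))))) (.g (nat_lit 4) .nil .nil))))) (.nd (nat_lit 4) (.nd (nat_lit 5) 
(.lf (nat_lit 216585) (.g (nat_lit 2804) (.e (nat_lit 90170) (nat_lit 13) (.e (nat_lit 172106) (nat_lit 10) (.e (nat_lit 434244) (nat_lit 28) (.e (nat_lit 573467) (nat_lit 10) (.e (nat_lit 8196) (nat_lit 0) .nil))))) .nil)) 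
(.lf (nat_lit 216617) (.g (nat_lit 2645) (.e (nat_lit 90170) (nat_lit 13) (.e (nat_lit 172106) (nat_lit 10) (.e (nat_lit 434244) (nat_lit 28) (.e (nat_lit 573469) (nat_lit 11) (.e (nat_lit 16387) (nat_lit 0) (.e (nat_lit 7490) (nat_lit 402) (.e (nat_lit 1239) (nat_lit 91) .nil))))))) (.g (nat_lit 5) .nil .nil)))) (.nd (nat_lit 5) 
(.lf (nat_lit 216601) (.g (nat_lit 2167) (.e (nat_lit 90170) (nat_lit 13) (.e (nat_lit 172106) (nat_lit 10) (.e (nat_lit 434244) (nat_lit 28) (.e (nat_lit 573468) (nat_lit 10) (.e (nat_lit 8193) (nat_lit 0) (.e (nat_lit 4448) (nat_lit 263) (.e (nat_lit 1198) (nat_lit 88) (.e (nat_lit 65568) (nat_lit 2) .nil)))))))) (.g (nat_lit 4) .nil .nil))) 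
(.lf (nat_lit 216633) (.g (nat_lit 2499) (.e (nat_lit 90170) (nat_lit 13) (.e (nat_lit 172106) (nat_lit 10) (.e (nat_lit 434244) (nat_lit 28) (.e (nat_lit 573471) (nat_lit 11) (.e (nat_lit 16401) (nat_lit 0) (.e (nat_lit 7936) (nat_lit 402) (.e (nat_lit 1237) (nat_lit 91) .nil))))))) (.g (nat_lit 4) .nil .nil)))))) (.nd (nat_lit 3) (.nd (nat_lit 4) (.nd (nat_lit 5) 
(.lf (nat_lit 216581) (.g (nat_lit 2192) (.e (nat_lit 90170) (nat_lit 13) (.e (nat_lit 172106) (nat_lit 10) (.e (nat_lit 434244) (nat_lit 28) (.e (nat_lit 573458) (nat_lit 9) (.e (nat_lit 1313) (nat_lit 98) (.e (nat_lit 147477) (nat_lit 9) (.e (nat_lit 247) (nat_lit 21) (.e (nat_lit 336011) (nat_lit 2) .nil)))))))) (.g (nat_lit 4) .nil .nil))) 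
(.lf (nat_lit 216613) (.g (nat_lit 1737) (.e (nat_lit 90170) (nat_lit 13) (.e (nat_lit 172106) (nat_lit 10) (.e (nat_lit 434244) (nat_lit 28) (.e (nat_lit 573468) (nat_lit 10) (.e (nat_lit 8238) (nat_lit 24) .nil))))) .nil))) (.nd (nat_lit 5) 
(.lf (nat_lit 216597) (.g (nat_lit 2265) (.e (nat_lit 90170) (nat_lit 13) (.e (nat_lit 172106) (nat_lit 10) (.e (nat_lit 434244) (nat_lit 28) (.e (nat_lit 573468) (nat_lit 10) (.e (nat_lit 8193) (nat_lit 0) (.e (nat_lit 4439) (nat_lit 263) (.e (nat_lit 1296) (nat_lit 96) (.e (nat_lit 131093) (nat_lit 2) .nil)))))))) (.g (nat_lit 4) .nil .nil))) 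
(.lf (nat_lit 216629) (.g (nat_lit 2692) (.e (nat_lit 90170) (nat_lit 13) (.e (nat_lit 172106) (nat_lit 10) (.e (nat_lit 434244) (nat_lit 28) (.e (nat_lit 573471) (nat_lit 11) (.e (nat_lit 16392) (nat_lit 0) (.e (nat_lit 7535) (nat_lit 402) (.e (nat_lit 1225) (nat_lit 91) .nil))))))) (.g (nat_lit 5) .nil .nil))))) (.nd (nat_lit 4) (.nd (nat_lit 5) 
(.lf (nat_lit 216589) (.g (nat_lit 2403) (.e (nat_lit 90170) (nat_lit 13) (.e (nat_lit 172106) (nat_lit 10) (.e (nat_lit 434244) (nat_lit 28) (.e (nat_lit 573468) (nat_lit 10) (.e (nat_lit 8192) (nat_lit 0) (.e (nat_lit 4441) (nat_lit 263) (.e (nat_lit 1296) (nat_lit 96) (.e (nat_lit 131091) (nat_lit 2) .nil)))))))) (.g (nat_lit 4) .nil .nil))) 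
(.lf (nat_lit 216621) (.g (nat_lit 4022) (.e (nat_lit 90170) (nat_lit 13) (.e (nat_lit 172106) (nat_lit 10) (.e (nat_lit 434244) (nat_lit 28) (.e (nat_lit 573469) (nat_lit 11) (.e (nat_lit 16472) (nat_lit 14) (.e (nat_lit 491535) (nat_lit 2) .nil)))))) (.g (nat_lit 6) .nil .nil)))) (.nd (nat_lit 5) 
(.lf (nat_lit 216605) (.g (nat_lit 2115) (.e (nat_lit 90170) (nat_lit 13) (.e (nat_lit 172106) (nat_lit 10) (.e (nat_lit 434244) (nat_lit 28) (.e (nat_lit 573468) (nat_lit 10) (.e (nat_lit 8194) (nat_lit 0) (.e (nat_lit 4441) (nat_lit 263) (.e (nat_lit 1296) (nat_lit 96) (.e (nat_lit 131091) (nat_lit 2) .nil)))))))) (.g (nat_lit 4) .nil .nil))) 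
(.lf (nat_lit 216637) (.g (nat_lit 2982) (.e (nat_lit 90170) (nat_lit 13) (.e (nat_lit 172106) (nat_lit 10) (.e (nat_lit 434244) (nat_lit 28) (.e (nat_lit 573471) (nat_lit 11) (.e (nat_lit 16403) (nat_lit 0) (.e (nat_lit 7936) (nat_lit 402) (.e (nat_lit 1239) (nat_lit 91) .nil))))))) (.g (nat_lit 4) .nil .nil))))))) (.nd (nat_lit 2) (.nd (nat_lit 3) (.nd (nat_lit 4) (.nd (nat_lit 5) 
(.lf (nat_lit 216579) (.g (nat_lit 2371) (.e (nat_lit 90170) (nat_lit 13) (.e (nat_lit 172106) (nat_lit 10) (.e (nat_lit 434244) (nat_lit 28) (.e (nat_lit 573458) (nat_lit 9) (.e (nat_lit 1310) (nat_lit 98) (.e (nat_lit 147492) (nat_lit 11) (.e (nat_lit 24605) (nat_lit 2) .nil))))))) (.g (nat_lit 4) .nil .nil))) 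
(.lf (nat_lit 216611) (.g (nat_lit 1836) (.e (nat_lit 90170) (nat_lit 13) (.e (nat_lit 172106) (nat_lit 10) (.e (nat_lit 434244) (nat_lit 28) (.e (nat_lit 573468) (nat_lit 10) (.e (nat_lit 8196) (nat_lit 0) .nil))))) .nil))) (.nd (nat_lit 5) 
(.lf (nat_lit 216595) (.g (nat_lit 2282) (.e (nat_lit 90170) (nat_lit 13) (.e (nat_lit 172106) (nat_lit 10) (.e (nat_lit 434244) (nat_lit 28) (.e (nat_lit 573468) (nat_lit 10) (.e (nat_lit 8192) (nat_lit 0) (.e (nat_lit 4448) (nat_lit 263) (.e (nat_lit 1196) (nat_lit 88) (.e (nat_lit 65568) (nat_lit 2) .nil)))))))) (.g (nat_lit 4) .nil .nil))) 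
(.lf (nat_lit 216627) (.g (nat_lit 2341) (.e (nat_lit 90170) (nat_lit 13) (.e (nat_lit 172106) (nat_lit 10) (.e (nat_lit 434244) (nat_lit 28) (.e (nat_lit 573471) (nat_lit 11) (.e (nat_lit 16386) (nat_lit 0) (.e (nat_lit 7936) (nat_lit 402) (.e (nat_lit 1237) (nat_lit 91) .nil))))))) (.g (nat_lit 4) .nil .nil))))) (.nd (nat_lit 4) (.nd (nat_lit 5) 
(.lf (nat_lit 216587) (.g (nat_lit 2008) (.e (nat_lit 90170) (nat_lit 13) (.e (nat_lit 172106) (nat_lit 10) (.e (nat_lit 434244) (nat_lit 28) (.e (nat_lit 573468) (nat_lit 10) (.e (nat_lit 8192) (nat_lit 0) .nil))))) .nil)) 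
(.lf (nat_lit 216619) (.g (nat_lit 3268) (.e (nat_lit 90170) (nat_lit 13) (.e (nat_lit 172106) (nat_lit 10) (.e (nat_lit 434244) (nat_lit 28) (.e (nat_lit 573469) (nat_lit 11) (.e (nat_lit 16388) (nat_lit 0) (.e (nat_lit 7545) (nat_lit 402) (.e (nat_lit 1237) (nat_lit 91) .nil))))))) (.g (nat_lit 5) .nil .nil)))) (.nd (nat_lit 5) 
(.lf (nat_lit 216603) (.g (nat_lit 1774) (.e (nat_lit 90170) (nat_lit 13) (.e (nat_lit 172106) (nat_lit 10) (.e (nat_lit 434244) (nat_lit 28) (.e (nat_lit 573468) (nat_lit 10) (.e (nat_lit 8194) (nat_lit 0) .nil))))) .nil)) 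
(.lf (nat_lit 216635) (.g (nat_lit 2392) (.e (nat_lit 90170) (nat_lit 13) (.e (nat_lit 172106) (nat_lit 10) (.e (nat_lit 434244) (nat_lit 28) (.e (nat_lit 573471) (nat_lit 11) (.e (nat_lit 16402) (nat_lit 0) (.e (nat_lit 7936) (nat_lit 402) (.e (nat_lit 1237) (nat_lit 91) .nil))))))) (.g (nat_lit 4) .nil .nil)))))) (.nd (nat_lit 3) (.nd (nat_lit 4) (.nd (nat_lit 5) 
(.lf (nat_lit 216583) (.g (nat_lit 2398) (.e (nat_lit 90170) (nat_lit 13) (.e (nat_lit 172106) (nat_lit 10) (.e (nat_lit 434244) (nat_lit 28) (.e (nat_lit 573459) (nat_lit 9) .nil)))) .nil)) 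
(.lf (nat_lit 216615) (.g (nat_lit 2599) (.e (nat_lit 90170) (nat_lit 13) (.e (nat_lit 172106) (nat_lit 10) (.e (nat_lit 434244) (nat_lit 28) (.e (nat_lit 573468) (nat_lit 10) (.e (nat_lit 8490) (nat_lit 180) (.e (nat_lit 1075) (nat_lit 81) (.e (nat_lit 5293) (nat_lit 298) (.e (nat_lit 1232) (nat_lit 91) .nil)))))))) (.g (nat_lit 4) .nil .nil)))) (.nd (nat_lit 5) 
(.lf (nat_lit 216599) (.g (nat_lit 2016) (.e (nat_lit 90170) (nat_lit 13) (.e (nat_lit 172106) (nat_lit 10) (.e (nat_lit 434244) (nat_lit 28) (.e (nat_lit 573468) (nat_lit 10) (.e (nat_lit 8193) (nat_lit 0) (.e (nat_lit 4443) (nat_lit 263) (.e (nat_lit 1296) (nat_lit 96) (.e (nat_lit 131091) (nat_lit 2) .nil)))))))) (.g (nat_lit 4) .nil .nil))) 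
(.lf (nat_lit 216631) (.g (nat_lit 2574) (.e (nat_lit 90170) (nat_lit 13) (.e (nat_lit 172106) (nat_lit 10) (.e (nat_lit 434244) (nat_lit 28) (.e (nat_lit 573471) (nat_lit 11) (.e (nat_lit 16399) (nat_lit 0) (.e (nat_lit 7936) (nat_lit 402) (.e (nat_lit 1237) (nat_lit 91) .nil))))))) (.g (nat_lit 4) .nil .nil))))) (.nd (nat_lit 4) (.nd (nat_lit 5) 
(.lf (nat_lit 216591) (.g (nat_lit 2286) (.e (nat_lit 90170) (nat_lit 13) (.e (nat_lit 172106) (nat_lit 10) (.e (nat_lit 434244) (nat_lit 28) (.e (nat_lit 573468) (nat_lit 10) (.e (nat_lit 8192) (nat_lit 0) (.e (nat_lit 4443) (nat_lit 263) (.e (nat_lit 1201) (nat_lit 88) (.e (nat_lit 65568) (nat_lit 2) .nil)))))))) (.g (nat_lit 4) .nil .nil))) 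
(.lf (nat_lit 216623) (.g (nat_lit 2915) (.e (nat_lit 90170) (nat_lit 13) (.e (nat_lit 172106) (nat_lit 10) (.e (nat_lit 434244) (nat_lit 28) (.e (nat_lit 573471) (nat_lit 11) (.e (nat_lit 16384) (nat_lit 0) (.e (nat_lit 7490) (nat_lit 402) (.e (nat_lit 1239) (nat_lit 91) .nil))))))) (.g (nat_lit 6) .nil .nil)))) (.nd (nat_lit 5) 
(.lf (nat_lit 216607) (.g (nat_lit 2015) (.e (nat_lit 90170) (nat_lit 13) (.e (nat_lit 172106) (nat_lit 10) (.e (nat_lit 434244) (nat_lit 28) (.e (nat_lit 573468) (nat_lit 10) (.e (nat_lit 8194) (nat_lit 0) (.e (nat_lit 4447) (nat_lit 263) (.e (nat_lit 1196) (nat_lit 88) (.e (nat_lit 65568) (nat_lit 2) .nil)))))))) (.g (nat_lit 4) .nil .nil))) 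
(.lf (nat_lit 216639) (.g (nat_lit 2577) (.e (nat_lit 90170) (nat_lit 13) (.e (nat_lit 172106) (nat_lit 10) (.e (nat_lit 434244) (nat_lit 28) (.e (nat_lit 573471) (nat_lit 11) (.e (nat_lit 16406) (nat_lit 1) (.e (nat_lit 171776) (nat_lit 262) (.e (nat_lit 57374) (nat_lit 2) .nil))))))) (.g (nat_lit 4) .nil .nil)))))))))

noncomputable def tv2848 : DT := (.nd (nat_lit 0) (.nd (nat_lit 1) (.nd (nat_lit 2) (.nd (nat_lit 3) (.nd (nat_lit 4) (.nd (nat_lit 5) 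
(.lf (nat_lit 216640) (.g (nat_lit 4121) (.e (nat_lit 90170) (nat_lit 13) (.e (nat_lit 172106) (nat_lit 10) (.e (nat_lit 434244) (nat_lit 28) (.e (nat_lit 573471) (nat_lit 11) (.e (nat_lit 16470) (nat_lit 14) (.e (nat_lit 491535) (nat_lit 2) .nil)))))) (.g (nat_lit 5) .nil .nil))) 
(.lf (nat_lit 216672) (.g (nat_lit 2585) (.e (nat_lit 90170) (nat_lit 13) (.e (nat_lit 172106) (nat_lit 10) (.e (nat_lit 434244) (nat_lit 28) (.e (nat_lit 573474) (nat_lit 12) (.e (nat_lit 57344) (nat_lit 0) (.e (nat_lit 7261) (nat_lit 384) (.e (nat_lit 57404) (nat_lit 12) (.e (nat_lit 336013) (nat_lit 2) .nil)))))))) (.g (nat_lit 4) .nil .nil)))) (.nd (nat_lit 5) 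
(.lf (nat_lit 216656) (.g (nat_lit 2380) (.e (nat_lit 90170) (nat_lit 13) (.e (nat_lit 172106) (nat_lit 10) (.e (nat_lit 434244) (nat_lit 28) (.e (nat_lit 573473) (nat_lit 12) (.e (nat_lit 57352) (nat_lit 0) (.e (nat_lit 7124) (nat_lit 382) (.e (nat_lit 1201) (nat_lit 88) (.e (nat_lit 65566) (nat_lit 2) .nil)))))))) (.g (nat_lit 4) .nil .nil))) 
(.lf (nat_lit 216688) (.g (nat_lit 3293) (.e (nat_lit 90170) (nat_lit 13) (.e (nat_lit 172106) (nat_lit 10) (.e (nat_lit 434244) (nat_lit 28) (.e (nat_lit 573474) (nat_lit 12) (.e (nat_lit 57346) (nat_lit 0) (.e (nat_lit 7233) (nat_lit 382) (.e (nat_lit 1015) (nat_lit 81) (.e (nat_lit 1449) (nat_lit 108) (.e (nat_lit 336013) (nat_lit 2) .nil))))))))) (.g (nat_lit 4) .nil .nil))))) 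
(.nd (nat_lit 4) (.nd (nat_lit 5) 
(.lf (nat_lit 216648) (.g (nat_lit 2751) (.e (nat_lit 90170) (nat_lit 13) (.e (nat_lit 172106) (nat_lit 10) (.e (nat_lit 434244) (nat_lit 28) (.e (nat_lit 573473) (nat_lit 12) (.e (nat_lit 57347) (nat_lit 0) (.e (nat_lit 7122) (nat_lit 382) (.e (nat_lit 1201) (nat_lit 88) (.e (nat_lit 65566) (nat_lit 2) .nil)))))))) (.g (nat_lit 4) .nil .nil))) 
(.lf (nat_lit 216680) (.g (nat_lit 2983) (.e (nat_lit 90170) (nat_lit 13) (.e (nat_lit 172106) (nat_lit 10) (.e (nat_lit 434244) (nat_lit 28) (.e (nat_lit 573474) (nat_lit 12) (.e (nat_lit 57345) (nat_lit 0) (.e (nat_lit 7125) (nat_lit 382) (.e (nat_lit 1201) (nat_lit 88) (.e (nat_lit 65568) (nat_lit 2) .nil)))))))) (.g (nat_lit 4) .nil .nil)))) (.nd (nat_lit 5) 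
(.lf (nat_lit 216664) (.g (nat_lit 3020) (.e (nat_lit 90170) (nat_lit 13) (.e (nat_lit 172106) (nat_lit 10) (.e (nat_lit 434244) (nat_lit 28) (.e (nat_lit 573473) (nat_lit 12) (.e (nat_lit 57354) (nat_lit 0) (.e (nat_lit 7270) (nat_lit 385) (.e (nat_lit 130816) (nat_lit 12) (.e (nat_lit 336011) (nat_lit 2) .nil)))))))) (.g (nat_lit 4) .nil .nil))) 
(.lf (nat_lit 216696) (.g (nat_lit 2284) (.e (nat_lit 90170) (nat_lit 13) (.e (nat_lit 172106) (nat_lit 10) (.e (nat_lit 434244) (nat_lit 28) (.e (nat_lit 573474) (nat_lit 12) (.e (nat_lit 57347) (nat_lit 0) (.e (nat_lit 7119) (nat_lit 382) (.e (nat_lit 1201) (nat_lit 88) (.e (nat_lit 65566) (nat_lit 2) .nil)))))))) (.g (nat_lit 4) .nil .nil)))))) 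
(.nd (nat_lit 3) (.nd (nat_lit 4) (.nd (nat_lit 5) 
(.lf (nat_lit 216644) (.g (nat_lit 2270) (.e (nat_lit 90170) (nat_lit 13) (.e (nat_lit 172106) (nat_lit 10) (.e (nat_lit 434244) (nat_lit 28) (.e (nat_lit 573472) (nat_lit 12) (.e (nat_lit 57572) (nat_lit 54) .nil))))) .nil)) 
(.lf (nat_lit 216676) (.g (nat_lit 2858) (.e (nat_lit 90170) (nat_lit 13) (.e (nat_lit 172106) (nat_lit 10) (.e (nat_lit 434244) (nat_lit 28) (.e (nat_lit 573474) (nat_lit 12) (.e (nat_lit 57345) (nat_lit 0) (.e (nat_lit 7122) (nat_lit 382) (.e (nat_lit 1201) (nat_lit 88) (.e (nat_lit 65566) (nat_lit 2) .nil)))))))) (.g (nat_lit 4) .nil .nil)))) (.nd (nat_lit 5) 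
(.lf (nat_lit 216660) (.g (nat_lit 2579) (.e (nat_lit 90170) (nat_lit 13) (.e (nat_lit 172106) (nat_lit 10) (.e (nat_lit 434244) (nat_lit 28) (.e (nat_lit 573473) (nat_lit 12) (.e (nat_lit 57353) (nat_lit 0) (.e (nat_lit 7122) (nat_lit 382) (.e (nat_lit 1296) (nat_lit 96) (.e (nat_lit 131093) (nat_lit 2) .nil)))))))) (.g (nat_lit 4) .nil .nil))) 
(.lf (nat_lit 216692) (.g (nat_lit 3048) (.e (nat_lit 90170) (nat_lit 13) (.e (nat_lit 172106) (nat_lit 10) (.e (nat_lit 434244) (nat_lit 28) (.e (nat_lit 573474) (nat_lit 12) (.e (nat_lit 57346) (nat_lit 0) (.e (nat_lit 7411) (nat_lit 396) (.e (nat_lit 2424) (nat_lit 157) (.e (nat_lit 232) (nat_lit 21) (.e (nat_lit 336013) (nat_lit 2) .nil))))))))) (.g (nat_lit 4) .nil .nil))))) 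
(.nd (nat_lit 4) (.nd (nat_lit 5) 
(.lf (nat_lit 216652) (.g (nat_lit 2735) (.e (nat_lit 90170) (nat_lit 13) (.e (nat_lit 172106) (nat_lit 10) (.e (nat_lit 434244) (nat_lit 28) (.e (nat_lit 573473) (nat_lit 12) (.e (nat_lit 57348) (nat_lit 0) (.e (nat_lit 7122) (nat_lit 382) (.e (nat_lit 1296) (nat_lit 96) (.e (nat_lit 131093) (nat_lit 2) .nil)))))))) (.g (nat_lit 4) .nil .nil))) 
(.lf (nat_lit 216684) (.g (nat_lit 2333) (.e (nat_lit 90170) (nat_lit 13) (.e (nat_lit 172106) (nat_lit 10) (.e (nat_lit 434244) (nat_lit 28) (.e (nat_lit 573474) (nat_lit 12) (.e (nat_lit 57346) (nat_lit 0) (.e (nat_lit 7134) (nat_lit 382) (.e (nat_lit 1201) (nat_lit 88) (.e (nat_lit 65566) (nat_lit 2) .nil)))))))) (.g (nat_lit 4) .nil .nil)))) (.nd (nat_lit 5) 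
(.lf (nat_lit 216668) (.g (nat_lit 2229) (.e (nat_lit 90170) (nat_lit 13) (.e (nat_lit 172106) (nat_lit 10) (.e (nat_lit 434244) (nat_lit 28) (.e (nat_lit 573474) (nat_lit 12) (.e (nat_lit 57344) (nat_lit 0) (.e (nat_lit 7122) (nat_lit 382) (.e (nat_lit 1296) (nat_lit 96) (.e (nat_lit 131093) (nat_lit 2) .nil)))))))) (.g (nat_lit 4) .nil .nil))) 
(.lf (nat_lit 216700) (.g (nat_lit 3009) (.e (nat_lit 90170) (nat_lit 13) (.e (nat_lit 172106) (nat_lit 10) (.e (nat_lit 434244) (nat_lit 28) (.e (nat_lit 573474) (nat_lit 12) (.e (nat_lit 57347) (nat_lit 0) (.e (nat_lit 7124) (nat_lit 382) (.e (nat_lit 1016) (nat_lit 81) (.e (nat_lit 1464) (nat_lit 108) (.e (nat_lit 336013) (nat_lit 2) .nil))))))))) (.g (nat_lit 4) .nil .nil))))))) 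
(.nd (nat_lit 2) (.nd (nat_lit 3) (.nd (nat_lit 4) (.nd (nat_lit 5) 
(.lf (nat_lit 216642) (.g (nat_lit 4140) (.e (nat_lit 90170) (nat_lit 13) (.e (nat_lit 172106) (nat_lit 10) (.e (nat_lit 434244) (nat_lit 28) (.e (nat_lit 573471) (nat_lit 11) (.e (nat_lit 16473) (nat_lit 14) (.e (nat_lit 499456) (nat_lit 2) .nil)))))) (.g (nat_lit 5) .nil .nil))) 
(.lf (nat_lit 216674) (.g (nat_lit 2684) (.e (nat_lit 90170) (nat_lit 13) (.e (nat_lit 172106) (nat_lit 10) (.e (nat_lit 434244) (nat_lit 28) (.e (nat_lit 573474) (nat_lit 12) (.e (nat_lit 57344) (nat_lit 0) (.e (nat_lit 7266) (nat_lit 384) (.e (nat_lit 65280) (nat_lit 12) (.e (nat_lit 336011) (nat_lit 2) .nil)))))))) (.g (nat_lit 4) .nil .nil)))) (.nd (nat_lit 5) 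
(.lf (nat_lit 216658) (.g (nat_lit 2410) (.e (nat_lit 90170) (nat_lit 13) (.e (nat_lit 172106) (nat_lit 10) (.e (nat_lit 434244) (nat_lit 28) (.e (nat_lit 573473) (nat_lit 12) (.e (nat_lit 57352) (nat_lit 0) (.e (nat_lit 7265) (nat_lit 384) (.e (nat_lit 57404) (nat_lit 12) (.e (nat_lit 336013) (nat_lit 2) .nil)))))))) (.g (nat_lit 4) .nil .nil))) 
(.lf (nat_lit 216690) (.g (nat_lit 2854) (.e (nat_lit 90170) (nat_lit 13) (.e (nat_lit 172106) (nat_lit 10) (.e (nat_lit 434244) (nat_lit 28) (.e (nat_lit 573474) (nat_lit 12) (.e (nat_lit 57346) (nat_lit 0) (.e (nat_lit 7408) (nat_lit 396) (.e (nat_lit 2424) (nat_lit 157) (.e (nat_lit 232) (nat_lit 21) (.e (nat_lit 336013) (nat_lit 2) .nil))))))))) (.g (nat_lit 4) .nil .nil))))) 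
(.nd (nat_lit 4) (.nd (nat_lit 5) 
(.lf (nat_lit 216650) (.g (nat_lit 3199) (.e (nat_lit 90170) (nat_lit 13) (.e (nat_lit 172106) (nat_lit 10) (.e (nat_lit 434244) (nat_lit 28) (.e (nat_lit 573473) (nat_lit 12) (.e (nat_lit 57347) (nat_lit 0) (.e (nat_lit 7124) (nat_lit 382) (.e (nat_lit 1296) (nat_lit 96) (.e (nat_lit 131093) (nat_lit 2) .nil)))))))) (.g (nat_lit 5) .nil .nil))) 
(.lf (nat_lit 216682) (.g (nat_lit 2075) (.e (nat_lit 90170) (nat_lit 13) (.e (nat_lit 172106) (nat_lit 10) (.e (nat_lit 434244) (nat_lit 28) (.e (nat_lit 573474) (nat_lit 12) (.e (nat_lit 57345) (nat_lit 0) (.e (nat_lit 7266) (nat_lit 384) (.e (nat_lit 57404) (nat_lit 12) (.e (nat_lit 336013) (nat_lit 2) .nil)))))))) (.g (nat_lit 4) .nil .nil)))) (.nd (nat_lit 5) 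
(.lf (nat_lit 216666) (.g (nat_lit 2865) (.e (nat_lit 90170) (nat_lit 13) (.e (nat_lit 172106) (nat_lit 10) (.e (nat_lit 434244) (nat_lit 28) (.e (nat_lit 573473) (nat_lit 12) (.e (nat_lit 57571) (nat_lit 54) (.e (nat_lit 770071) (nat_lit 8) (.e (nat_lit 65566) (nat_lit 2) .nil))))))) (.g (nat_lit 4) .nil .nil))) 
(.lf (nat_lit 216698) (.g (nat_lit 2620) (.e (nat_lit 90170) (nat_lit 13) (.e (nat_lit 172106) (nat_lit 10) (.e (nat_lit 434244) (nat_lit 28) (.e (nat_lit 573474) (nat_lit 12) (.e (nat_lit 57347) (nat_lit 0) (.e (nat_lit 7119) (nat_lit 382) (.e (nat_lit 1296) (nat_lit 96) (.e (nat_lit 131093) (nat_lit 2) .nil)))))))) (.g (nat_lit 4) .nil .nil)))))) 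
(.nd (nat_lit 3) (.nd (nat_lit 4) (.nd (nat_lit 5) 
(.lf (nat_lit 216646) (.g (nat_lit 3125) (.e (nat_lit 90170) (nat_lit 13) (.e (nat_lit 172106) (nat_lit 10) (.e (nat_lit 434244) (nat_lit 28) (.e (nat_lit 573472) (nat_lit 12) (.e (nat_lit 57572) (nat_lit 54) (.e (nat_lit 770072) (nat_lit 8) (.e (nat_lit 65566) (nat_lit 2) .nil))))))) (.g (nat_lit 5) .nil .nil))) 
(.lf (nat_lit 216678) (.g (nat_lit 2402) (.e (nat_lit 90170) (nat_lit 13) (.e (nat_lit 172106) (nat_lit 10) (.e (nat_lit 434244) (nat_lit 28) (.e (nat_lit 573474) (nat_lit 12) (.e (nat_lit 57345) (nat_lit 0) (.e (nat_lit 7124) (nat_lit 382) (.e (nat_lit 1201) (nat_lit 88) (.e (nat_lit 65568) (nat_lit 2) .nil)))))))) (.g (nat_lit 4) .nil .nil)))) (.nd (nat_lit 5) 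
(.lf (nat_lit 216662) (.g (nat_lit 3193) (.e (nat_lit 90170) (nat_lit 13) (.e (nat_lit 172106) (nat_lit 10) (.e (nat_lit 434244) (nat_lit 28) (.e (nat_lit 573473) (nat_lit 12) (.e (nat_lit 57353) (nat_lit 0) (.e (nat_lit 7263) (nat_lit 384) (.e (nat_lit 57404) (nat_lit 12) (.e (nat_lit 336013) (nat_lit 2) .nil)))))))) (.g (nat_lit 4) .nil .nil))) 
(.lf (nat_lit 216694) (.g (nat_lit 2852) (.e (nat_lit 90170) (nat_lit 13) (.e (nat_lit 172106) (nat_lit 10) (.e (nat_lit 434244) (nat_lit 28) (.e (nat_lit 573474) (nat_lit 12) (.e (nat_lit 57346) (nat_lit 0) (.e (nat_lit 7461) (nat_lit 396) (.e (nat_lit 2423) (nat_lit 157) (.e (nat_lit 232) (nat_lit 21) (.e (nat_lit 336013) (nat_lit 2) .nil))))))))) (.g (nat_lit 4) .nil .nil))))) 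
(.nd (nat_lit 4) (.nd (nat_lit 5) 
(.lf (nat_lit 216654) (.g (nat_lit 3141) (.e (nat_lit 90170) (nat_lit 13) (.e (nat_lit 172106) (nat_lit 10) (.e (nat_lit 434244) (nat_lit 28) (.e (nat_lit 573473) (nat_lit 12) (.e (nat_lit 57348) (nat_lit 0) (.e (nat_lit 7265) (nat_lit 384) (.e (nat_lit 65280) (nat_lit 12) (.e (nat_lit 336011) (nat_lit 2) .nil)))))))) (.g (nat_lit 4) .nil .nil))) 
(.lf (nat_lit 216686) (.g (nat_lit 2348) (.e (nat_lit 90170) (nat_lit 13) (.e (nat_lit 172106) (nat_lit 10) (.e (nat_lit 434244) (nat_lit 28) (.e (nat_lit 573474) (nat_lit 12) (.e (nat_lit 57346) (nat_lit 0) (.e (nat_lit 7136) (nat_lit 382) (.e (nat_lit 1200) (nat_lit 88) (.e (nat_lit 65566) (nat_lit 2) .nil)))))))) (.g (nat_lit 4) .nil .nil)))) (.nd (nat_lit 5) 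
(.lf (nat_lit 216670) (.g (nat_lit 2583) (.e (nat_lit 90170) (nat_lit 13) (.e (nat_lit 172106) (nat_lit 10) (.e (nat_lit 434244) (nat_lit 28) (.e (nat_lit 573474) (nat_lit 12) (.e (nat_lit 57344) (nat_lit 0) (.e (nat_lit 7125) (nat_lit 382) (.e (nat_lit 1296) (nat_lit 96) (.e (nat_lit 131093) (nat_lit 2) .nil)))))))) (.g (nat_lit 4) .nil .nil))) 
(.lf (nat_lit 216702) (.g (nat_lit 2999) (.e (nat_lit 90170) (nat_lit 13) (.e (nat_lit 172106) (nat_lit 10) (.e (nat_lit 434244) (nat_lit 28) (.e (nat_lit 573474) (nat_lit 12) (.e (nat_lit 57347) (nat_lit 0) (.e (nat_lit 7124) (nat_lit 382) (.e (nat_lit 1296) (nat_lit 96) (.e (nat_lit 131094) (nat_lit 2) .nil)))))))) (.g (nat_lit 4) .nil .nil)))))))) 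
(.nd (nat_lit 1) (.nd (nat_lit 2) (.nd (nat_lit 3) (.nd (nat_lit 4) (.nd (nat_lit 5) 
(.lf (nat_lit 216641) (.g (nat_lit 4465) (.e (nat_lit 90170) (nat_lit 13) (.e (nat_lit 172106) (nat_lit 10) (.e (nat_lit 434244) (nat_lit 28) (.e (nat_lit 573471) (nat_lit 11) (.e (nat_lit 16470) (nat_lit 14) (.e (nat_lit 491536) (nat_lit 2) .nil)))))) (.g (nat_lit 5) .nil .nil))) 
(.lf (nat_lit 216673) (.g (nat_lit 2721) (.e (nat_lit 90170) (nat_lit 13) (.e (nat_lit 172106) (nat_lit 10) (.e (nat_lit 434244) (nat_lit 28) (.e (nat_lit 573474) (nat_lit 12) (.e (nat_lit 57344) (nat_lit 0) (.e (nat_lit 7265) (nat_lit 384) (.e (nat_lit 57404) (nat_lit 12) (.e (nat_lit 336013) (nat_lit 2) .nil)))))))) (.g (nat_lit 4) .nil .nil)))) (.nd (nat_lit 5) 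
(.lf (nat_lit 216657) (.g (nat_lit 2589) (.e (nat_lit 90170) (nat_lit 13) (.e (nat_lit 172106) (nat_lit 10) (.e (nat_lit 434244) (nat_lit 28) (.e (nat_lit 573473) (nat_lit 12) (.e (nat_lit 57352) (nat_lit 0) (.e (nat_lit 7125) (nat_lit 382) (.e (nat_lit 1296) (nat_lit 96) (.e (nat_lit 131093) (nat_lit 2) .nil)))))))) (.g (nat_lit 4) .nil .nil))) 
(.lf (nat_lit 216689) (.g (nat_lit 2316) (.e (nat_lit 90170) (nat_lit 13) (.e (nat_lit 172106) (nat_lit 10) (.e (nat_lit 434244) (nat_lit 28) (.e (nat_lit 573474) (nat_lit 12) (.e (nat_lit 57346) (nat_lit 0) (.e (nat_lit 7233) (nat_lit 382) (.e (nat_lit 1199) (nat_lit 88) (.e (nat_lit 65566) (nat_lit 2) .nil)))))))) (.g (nat_lit 4) .nil .nil))))) (.nd (nat_lit 4) (.nd (nat_lit 5) 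
(.lf (nat_lit 216649) (.g (nat_lit 3113) (.e (nat_lit 90170) (nat_lit 13) (.e (nat_lit 172106) (nat_lit 10) (.e (nat_lit 434244) (nat_lit 28) (.e (nat_lit 573473) (nat_lit 12) (.e (nat_lit 57347) (nat_lit 0) (.e (nat_lit 7122) (nat_lit 382) (.e (nat_lit 1201) (nat_lit 88) (.e (nat_lit 65568) (nat_lit 2) .nil)))))))) (.g (nat_lit 4) .nil .nil))) 
(.lf (nat_lit 216681) (.g (nat_lit 2760) (.e (nat_lit 90170) (nat_lit 13) (.e (nat_lit 172106) (nat_lit 10) (.e (nat_lit 434244) (nat_lit 28) (.e (nat_lit 573474) (nat_lit 12) (.e (nat_lit 57345) (nat_lit 0) (.e (nat_lit 7236) (nat_lit 382) (.e (nat_lit 1199) (nat_lit 88) (.e (nat_lit 65566) (nat_lit 2) .nil)))))))) (.g (nat_lit 4) .nil .nil)))) (.nd (nat_lit 5) 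
(.lf (nat_lit 216665) (.g (nat_lit 2825) (.e (nat_lit 90170) (nat_lit 13) (.e (nat_lit 172106) (nat_lit 10) (.e (nat_lit 434244) (nat_lit 28) (.e (nat_lit 573473) (nat_lit 12) (.e (nat_lit 57570) (nat_lit 54) (.e (nat_lit 770072) (nat_lit 8) (.e (nat_lit 65568) (nat_lit 2) .nil))))))) (.g (nat_lit 4) .nil .nil))) 
(.lf (nat_lit 216697) (.g (nat_lit 2347) (.e (nat_lit 90170) (nat_lit 13) (.e (nat_lit 172106) (nat_lit 10) (.e (nat_lit 434244) (nat_lit 28) (.e (nat_lit 573474) (nat_lit 12) (.e (nat_lit 57347) (nat_lit 0) (.e (nat_lit 7119) (nat_lit 382) (.e (nat_lit 1201) (nat_lit 88) (.e (nat_lit 65568) (nat_lit 2) .nil)))))))) (.g (nat_lit 4) .nil .nil)))))) 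
(.nd (nat_lit 3) (.nd (nat_lit 4) (.nd (nat_lit 5) 
(.lf (nat_lit 216645) (.g (nat_lit 2554) (.e (nat_lit 90170) (nat_lit 13) (.e (nat_lit 172106) (nat_lit 10) (.e (nat_lit 434244) (nat_lit 28) (.e (nat_lit 573472) (nat_lit 12) (.e (nat_lit 57572) (nat_lit 54) (.e (nat_lit 770071) (nat_lit 8) (.e (nat_lit 65568) (nat_lit 2) .nil))))))) (.g (nat_lit 4) .nil .nil))) 
(.lf (nat_lit 216677) (.g (nat_lit 1942) (.e (nat_lit 90170) (nat_lit 13) (.e (nat_lit 172106) (nat_lit 10) (.e (nat_lit 434244) (nat_lit 28) (.e (nat_lit 573474) (nat_lit 12) (.e (nat_lit 57345) (nat_lit 0) (.e (nat_lit 7124) (nat_lit 382) (.e (nat_lit 1201) (nat_lit 88) (.e (nat_lit 65566) (nat_lit 2) .nil)))))))) (.g (nat_lit 4) .nil .nil)))) (.nd (nat_lit 5) 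
(.lf (nat_lit 216661) (.g (nat_lit 2334) (.e (nat_lit 90170) (nat_lit 13) (.e (nat_lit 172106) (nat_lit 10) (.e (nat_lit 434244) (nat_lit 28) (.e (nat_lit 573473) (nat_lit 12) (.e (nat_lit 57353) (nat_lit 0) (.e (nat_lit 7124) (nat_lit 382) (.e (nat_lit 1016) (nat_lit 81) (.e (nat_lit 1464) (nat_lit 108) (.e (nat_lit 336013) (nat_lit 2) .nil))))))))) (.g (nat_lit 4) .nil .nil))) 
(.lf (nat_lit 216693) (.g (nat_lit 3213) (.e (nat_lit 90170) (nat_lit 13) (.e (nat_lit 172106) (nat_lit 10) (.e (nat_lit 434244) (nat_lit 28) (.e (nat_lit 573474) (nat_lit 12) (.e (nat_lit 57346) (nat_lit 0) (.e (nat_lit 7458) (nat_lit 396) (.e (nat_lit 2423) (nat_lit 157) (.e (nat_lit 232) (nat_lit 21) (.e (nat_lit 336013) (nat_lit 2) .nil))))))))) (.g (nat_lit 4) .nil .nil))))) 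
(.nd (nat_lit 4) (.nd (nat_lit 5) 
(.lf (nat_lit 216653) (.g (nat_lit 2445) (.e (nat_lit 90170) (nat_lit 13) (.e (nat_lit 172106) (nat_lit 10) (.e (nat_lit 434244) (nat_lit 28) (.e (nat_lit 573473) (nat_lit 12) (.e (nat_lit 57348) (nat_lit 0) (.e (nat_lit 7124) (nat_lit 382) (.e (nat_lit 1016) (nat_lit 81) (.e (nat_lit 1464) (nat_lit 108) (.e (nat_lit 336013) (nat_lit 2) .nil))))))))) (.g (nat_lit 4) .nil .nil))) 
(.lf (nat_lit 216685) (.g (nat_lit 2396) (.e (nat_lit 90170) (nat_lit 13) (.e (nat_lit 172106) (nat_lit 10) (.e (nat_lit 434244) (nat_lit 28) (.e (nat_lit 573474) (nat_lit 12) (.e (nat_lit 57346) (nat_lit 0) (.e (nat_lit 7134) (nat_lit 382) (.e (nat_lit 1201) (nat_lit 88) (.e (nat_lit 65568) (nat_lit 2) .nil)))))))) (.g (nat_lit 4) .nil .nil)))) (.nd (nat_lit 5) 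
(.lf (nat_lit 216669) (.g (nat_lit 2169) (.e (nat_lit 90170) (nat_lit 13) (.e (nat_lit 172106) (nat_lit 10) (.e (nat_lit 434244) (nat_lit 28) (.e (nat_lit 573474) (nat_lit 12) (.e (nat_lit 57344) (nat_lit 0) (.e (nat_lit 7124) (nat_lit 382) (.e (nat_lit 1296) (nat_lit 96) (.e (nat_lit 131093) (nat_lit 2) .nil)))))))) (.g (nat_lit 4) .nil .nil))) 
(.lf (nat_lit 216701) (.g (nat_lit 4743) (.e (nat_lit 90170) (nat_lit 13) (.e (nat_lit 172106) (nat_lit 10) (.e (nat_lit 434244) (nat_lit 28) (.e (nat_lit 573474) (nat_lit 12) (.e (nat_lit 57347) (nat_lit 0) (.e (nat_lit 7124) (nat_lit 382) (.e (nat_lit 1296) (nat_lit 96) (.e (nat_lit 131093) (nat_lit 2) .nil)))))))) (.g (nat_lit 7) .nil .nil))))))) 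
(.nd (nat_lit 2) (.nd (nat_lit 3) (.nd (nat_lit 4) (.nd (nat_lit 5) 
(.lf (nat_lit 216643) (.g (nat_lit 2488) (.e (nat_lit 90170) (nat_lit 13) (.e (nat_lit 172106) (nat_lit 10) (.e (nat_lit 434244) (nat_lit 28) (.e (nat_lit 573472) (nat_lit 12) (.e (nat_lit 57570) (nat_lit 54) (.e (nat_lit 770071) (nat_lit 8) (.e (nat_lit 65566) (nat_lit 2) .nil))))))) (.g (nat_lit 5) .nil .nil))) 
(.lf (nat_lit 216675) (.g (nat_lit 2808) (.e (nat_lit 90170) (nat_lit 13) (.e (nat_lit 172106) (nat_lit 10) (.e (nat_lit 434244) (nat_lit 28) (.e (nat_lit 573474) (nat_lit 12) (.e (nat_lit 57344) (nat_lit 0) (.e (nat_lit 7271) (nat_lit 385) (.e (nat_lit 122903) (nat_lit 12) (.e (nat_lit 336013) (nat_lit 2) .nil)))))))) (.g (nat_lit 4) .nil .nil)))) (.nd (nat_lit 5) 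
(.lf (nat_lit 216659) (.g (nat_lit 3228) (.e (nat_lit 90170) (nat_lit 13) (.e (nat_lit 172106) (nat_lit 10) (.e (nat_lit 434244) (nat_lit 28) (.e (nat_lit 573473) (nat_lit 12) (.e (nat_lit 57352) (nat_lit 0) (.e (nat_lit 7266) (nat_lit 384) (.e (nat_lit 57404) (nat_lit 12) (.e (nat_lit 336013) (nat_lit 2) .nil)))))))) (.g (nat_lit 4) .nil .nil))) 
(.lf (nat_lit 216691) (.g (nat_lit 3035) (.e (nat_lit 90170) (nat_lit 13) (.e (nat_lit 172106) (nat_lit 10) (.e (nat_lit 434244) (nat_lit 28) (.e (nat_lit 573474) (nat_lit 12) (.e (nat_lit 57346) (nat_lit 0) (.e (nat_lit 7410) (nat_lit 396) (.e (nat_lit 2424) (nat_lit 157) (.e (nat_lit 232) (nat_lit 21) (.e (nat_lit 336013) (nat_lit 2) .nil))))))))) (.g (nat_lit 4) .nil .nil))))) 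
(.nd (nat_lit 4) (.nd (nat_lit 5) 
(.lf (nat_lit 216651) (.g (nat_lit 2594) (.e (nat_lit 90170) (nat_lit 13) (.e (nat_lit 172106) (nat_lit 10) (.e (nat_lit 434244) (nat_lit 28) (.e (nat_lit 573473) (nat_lit 12) (.e (nat_lit 57347) (nat_lit 0) (.e (nat_lit 7263) (nat_lit 384) (.e (nat_lit 57404) (nat_lit 12) (.e (nat_lit 336013) (nat_lit 2) .nil)))))))) (.g (nat_lit 4) .nil .nil))) 
(.lf (nat_lit 216683) (.g (nat_lit 2277) (.e (nat_lit 90170) (nat_lit 13) (.e (nat_lit 172106) (nat_lit 10) (.e (nat_lit 434244) (nat_lit 28) (.e (nat_lit 573474) (nat_lit 12) (.e (nat_lit 57346) (nat_lit 0) .nil))))) .nil))) (.nd (nat_lit 5) 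
(.lf (nat_lit 216667) (.g (nat_lit 666) (.e (nat_lit 90170) (nat_lit 13) (.e (nat_lit 172106) (nat_lit 10) (.e (nat_lit 434244) (nat_lit 28) (.e (nat_lit 573474) (nat_lit 12) .nil)))) .nil)) 
(.lf (nat_lit 216699) (.g (nat_lit 2337) (.e (nat_lit 90170) (nat_lit 13) (.e (nat_lit 172106) (nat_lit 10) (.e (nat_lit 434244) (nat_lit 28) (.e (nat_lit 573474) (nat_lit 12) (.e (nat_lit 57347) (nat_lit 0) (.e (nat_lit 7122) (nat_lit 382) (.e (nat_lit 1016) (nat_lit 81) (.e (nat_lit 1464) (nat_lit 108) (.e (nat_lit 336013) (nat_lit 2) .nil))))))))) (.g (nat_lit 4) .nil .nil)))))) 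
(.nd (nat_lit 3) (.nd (nat_lit 4) (.nd (nat_lit 5) 
(.lf (nat_lit 216647) (.g (nat_lit 1077) (.e (nat_lit 90170) (nat_lit 13) (.e (nat_lit 172106) (nat_lit 10) (.e (nat_lit 434244) (nat_lit 28) (.e (nat_lit 573473) (nat_lit 12) .nil)))) .nil)) 
(.lf (nat_lit 216679) (.g (nat_lit 2521) (.e (nat_lit 90170) (nat_lit 13) (.e (nat_lit 172106) (nat_lit 10) (.e (nat_lit 434244) (nat_lit 28) (.e (nat_lit 573474) (nat_lit 12) (.e (nat_lit 57345) (nat_lit 0) (.e (nat_lit 7125) (nat_lit 382) (.e (nat_lit 1201) (nat_lit 88) (.e (nat_lit 65566) (nat_lit 2) .nil)))))))) (.g (nat_lit 4) .nil .nil)))) (.nd (nat_lit 5) 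
(.lf (nat_lit 216663) (.g (nat_lit 3052) (.e (nat_lit 90170) (nat_lit 13) (.e (nat_lit 172106) (nat_lit 10) (.e (nat_lit 434244) (nat_lit 28) (.e (nat_lit 573473) (nat_lit 12) (.e (nat_lit 57353) (nat_lit 0) (.e (nat_lit 7265) (nat_lit 384) (.e (nat_lit 65280) (nat_lit 12) (.e (nat_lit 336011) (nat_lit 2) .nil)))))))) (.g (nat_lit 4) .nil .nil))) 
(.lf (nat_lit 216695) (.g (nat_lit 1767) (.e (nat_lit 90170) (nat_lit 13) (.e (nat_lit 172106) (nat_lit 10) (.e (nat_lit 434244) (nat_lit 28) (.e (nat_lit 573474) (nat_lit 12) (.e (nat_lit 57347) (nat_lit 0) .nil))))) .nil)))) (.nd (nat_lit 4) (.nd (nat_lit 5) 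
(.lf (nat_lit 216655) (.g (nat_lit 2488) (.e (nat_lit 90170) (nat_lit 13) (.e (nat_lit 172106) (nat_lit 10) (.e (nat_lit 434244) (nat_lit 28) (.e (nat_lit 573473) (nat_lit 12) (.e (nat_lit 57352) (nat_lit 0) (.e (nat_lit 7122) (nat_lit 382) (.e (nat_lit 1016) (nat_lit 81) (.e (nat_lit 1464) (nat_lit 108) (.e (nat_lit 336013) (nat_lit 2) .nil))))))))) (.g (nat_lit 4) .nil .nil))) 
(.lf (nat_lit 216687) (.g (nat_lit 3382) (.e (nat_lit 90170) (nat_lit 13) (.e (nat_lit 172106) (nat_lit 10) (.e (nat_lit 434244) (nat_lit 28) (.e (nat_lit 573474) (nat_lit 12) (.e (nat_lit 57346) (nat_lit 0) (.e (nat_lit 7136) (nat_lit 382) (.e (nat_lit 1200) (nat_lit 88) (.e (nat_lit 65568) (nat_lit 2) .nil)))))))) (.g (nat_lit 4) .nil .nil)))) (.nd (nat_lit 5) 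
(.lf (nat_lit 216671) (.g (nat_lit 2892) (.e (nat_lit 90170) (nat_lit 13) (.e (nat_lit 172106) (nat_lit 10) (.e (nat_lit 434244) (nat_lit 28) (.e (nat_lit 573474) (nat_lit 12) (.e (nat_lit 57344) (nat_lit 0) (.e (nat_lit 7236) (nat_lit 382) (.e (nat_lit 1199) (nat_lit 88) (.e (nat_lit 65568) (nat_lit 2) .nil)))))))) (.g (nat_lit 4) .nil .nil))) 
(.lf (nat_lit 216703) (.g (nat_lit 2697) (.e (nat_lit 90170) (nat_lit 13) (.e (nat_lit 172106) (nat_lit 10) (.e (nat_lit 434244) (nat_lit 28) (.e (nat_lit 573474) (nat_lit 12) (.e (nat_lit 57347) (nat_lit 0) (.e (nat_lit 7125) (nat_lit 382) (.e (nat_lit 1016) (nat_lit 81) (.e (nat_lit 1464) (nat_lit 108) (.e (nat_lit 336013) (nat_lit 2) .nil))))))))) (.g (nat_lit 4) .nil .nil)))))))))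

noncomputable def tv2849 : DT := (.nd (nat_lit 0) (.nd (nat_lit 1) (.nd (nat_lit 2) (.nd (nat_lit 3) (.nd (nat_lit 4) (.nd (nat_lit 5) (.nd (nat_lit 6) 
(.lf (nat_lit 216704) (.g (nat_lit 2506) (.e (nat_lit 90170) (nat_lit 13) (.e (nat_lit 172106) (nat_lit 10) (.e (nat_lit 434244) (nat_lit 28) (.e (nat_lit 573474) (nat_lit 12) (.e (nat_lit 57347) (nat_lit 0) (.e (nat_lit 7125) (nat_lit 382) (.e (nat_lit 1191) (nat_lit 88) (.e (nat_lit 65566) (nat_lit 2) .nil)))))))) (.g (nat_lit 4) .nil .nil))) 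
(.lf (nat_lit 216768) (.g (nat_lit 2370) (.e (nat_lit 90170) (nat_lit 13) (.e (nat_lit 172106) (nat_lit 10) (.e (nat_lit 434244) (nat_lit 28) (.e (nat_lit 573504) (nat_lit 18) .nil)))) .nil))) (.nd (nat_lit 6) 
(.lf (nat_lit 216736) (.g (nat_lit 2294) (.e (nat_lit 90170) (nat_lit 13) (.e (nat_lit 172106) (nat_lit 10) (.e (nat_lit 434244) (nat_lit 28) (.e (nat_lit 573474) (nat_lit 12) (.e (nat_lit 57353) (nat_lit 0) (.e (nat_lit 7263) (nat_lit 384) (.e (nat_lit 57404) (nat_lit 12) (.e (nat_lit 336013) (nat_lit 2) .nil)))))))) (.g (nat_lit 4) .nil .nil))) 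
(.lf (nat_lit 216800) (.g (nat_lit 3080) (.e (nat_lit 90170) (nat_lit 13) (.e (nat_lit 172113) (nat_lit 10) (.e (nat_lit 434231) (nat_lit 23) (.e (nat_lit 532490) (nat_lit 0) (.e (nat_lit 6092) (nat_lit 332) (.e (nat_lit 1366) (nat_lit 103) (.e (nat_lit 294927) (nat_lit 2) .nil))))))) (.g (nat_lit 4) .nil .nil))))) (.nd (nat_lit 5) (.nd (nat_lit 6) 
(.lf (nat_lit 216720) (.g (nat_lit 2301) (.e (nat_lit 90170) (nat_lit 13) (.e (nat_lit 172106) (nat_lit 10) (.e (nat_lit 434244) (nat_lit 28) (.e (nat_lit 573474) (nat_lit 12) (.e (nat_lit 57351) (nat_lit 0) (.e (nat_lit 7124) (nat_lit 382) (.e (nat_lit 1016) (nat_lit 81) (.e (nat_lit 1464) (nat_lit 108) (.e (nat_lit 336013) (nat_lit 2) .nil))))))))) (.g (nat_lit 4) .nil .nil))) 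
(.lf (nat_lit 216784) (.g (nat_lit 3444) (.e (nat_lit 90170) (nat_lit 13) (.e (nat_lit 172113) (nat_lit 10) (.e (nat_lit 434203) (nat_lit 18) (.e (nat_lit 6828) (nat_lit 367) (.e (nat_lit 57400) (nat_lit 10) (.e (nat_lit 319490) (nat_lit 0) (.e (nat_lit 5629) (nat_lit 312) (.e (nat_lit 100) (nat_lit 2) .nil)))))))) (.g (nat_lit 6) .nil .nil)))) (.nd (nat_lit 6) 
(.lf (nat_lit 216752) (.g (nat_lit 2334) (.e (nat_lit 90170) (nat_lit 13) (.e (nat_lit 172106) (nat_lit 10) (.e (nat_lit 434244) (nat_lit 28) (.e (nat_lit 573474) (nat_lit 12) (.e (nat_lit 57571) (nat_lit 54) (.e (nat_lit 770058) (nat_lit 5) (.e (nat_lit 1464) (nat_lit 108) (.e (nat_lit 336013) (nat_lit 2) .nil)))))))) (.g (nat_lit 4) .nil .nil))) 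
(.lf (nat_lit 216816) (.g (nat_lit 3978) (.e (nat_lit 90170) (nat_lit 13) (.e (nat_lit 172113) (nat_lit 10) (.e (nat_lit 434231) (nat_lit 23) (.e (nat_lit 532523) (nat_lit 7) (.e (nat_lit 319511) (nat_lit 10) (.e (nat_lit 5293) (nat_lit 298) (.e (nat_lit 1232) (nat_lit 91) .nil))))))) (.g (nat_lit 4) .nil .nil)))))) (.nd (nat_lit 4) (.nd (nat_lit 5) (.nd (nat_lit 6) 
(.lf (nat_lit 216712) (.g (nat_lit 2145) (.e (nat_lit 90170) (nat_lit 13) (.e (nat_lit 172106) (nat_lit 10) (.e (nat_lit 434244) (nat_lit 28) (.e (nat_lit 573474) (nat_lit 12) (.e (nat_lit 57348) (nat_lit 0) (.e (nat_lit 7124) (nat_lit 382) (.e (nat_lit 1016) (nat_lit 81) (.e (nat_lit 1464) (nat_lit 108) (.e (nat_lit 336013) (nat_lit 2) .nil))))))))) (.g (nat_lit 4) .nil .nil))) 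
(.lf (nat_lit 216776) (.g (nat_lit 1083) (.e (nat_lit 90170) (nat_lit 13) (.e (nat_lit 172107) (nat_lit 10) (.e (nat_lit 434231) (nat_lit 23) (.e (nat_lit 532523) (nat_lit 7) .nil)))) .nil))) (.nd (nat_lit 6) 
(.lf (nat_lit 216744) (.g (nat_lit 2781) (.e (nat_lit 90170) (nat_lit 13) (.e (nat_lit 172106) (nat_lit 10) (.e (nat_lit 434244) (nat_lit 28) (.e (nat_lit 573474) (nat_lit 12) (.e (nat_lit 57569) (nat_lit 53) (.e (nat_lit 761868) (nat_lit 5) (.e (nat_lit 1413) (nat_lit 108) (.e (nat_lit 336013) (nat_lit 2) .nil)))))))) (.g (nat_lit 4) .nil .nil))) 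
(.lf (nat_lit 216808) (.g (nat_lit 3876) (.e (nat_lit 90170) (nat_lit 13) (.e (nat_lit 172113) (nat_lit 10) (.e (nat_lit 434231) (nat_lit 23) (.e (nat_lit 532523) (nat_lit 7) (.e (nat_lit 319496) (nat_lit 10) (.e (nat_lit 5258) (nat_lit 298) (.e (nat_lit 1239) (nat_lit 91) .nil))))))) (.g (nat_lit 4) .nil .nil))))) (.nd (nat_lit 5) (.nd (nat_lit 6) 
(.lf (nat_lit 216728) (.g (nat_lit 3545) (.e (nat_lit 90170) (nat_lit 13) (.e (nat_lit 172106) (nat_lit 10) (.e (nat_lit 434244) (nat_lit 28) (.e (nat_lit 573474) (nat_lit 12) (.e (nat_lit 57352) (nat_lit 0) (.e (nat_lit 7261) (nat_lit 384) (.e (nat_lit 57404) (nat_lit 12) (.e (nat_lit 336013) (nat_lit 2) .nil)))))))) (.g (nat_lit 4) .nil .nil))) 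
(.lf (nat_lit 216792) (.g (nat_lit 385) (.e (nat_lit 90170) (nat_lit 13) (.e (nat_lit 172113) (nat_lit 10) (.e (nat_lit 434227) (nat_lit 20) .nil))) .nil))) (.nd (nat_lit 6) 
(.lf (nat_lit 216760) (.g (nat_lit 4033) (.e (nat_lit 90170) (nat_lit 13) (.e (nat_lit 172106) (nat_lit 10) (.e (nat_lit 434244) (nat_lit 28) (.e (nat_lit 573475) (nat_lit 12) (.e (nat_lit 57572) (nat_lit 54) (.e (nat_lit 770072) (nat_lit 8) (.e (nat_lit 65568) (nat_lit 2) .nil))))))) (.g (nat_lit 4) .nil .nil))) 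
(.lf (nat_lit 216824) (.g (nat_lit 2585) (.e (nat_lit 90170) (nat_lit 13) (.e (nat_lit 172113) (nat_lit 10) (.e (nat_lit 434236) (nat_lit 25) (.e (nat_lit 548914) (nat_lit 19) (.e (nat_lit 180278) (nat_lit 32) (.e (nat_lit 1234) (nat_lit 91) .nil)))))) (.g (nat_lit 6) .nil .nil))))))) (.nd (nat_lit 3) (.nd (nat_lit 4) (.nd (nat_lit 5) (.nd (nat_lit 6) 
(.lf (nat_lit 216708) (.g (nat_lit 3042) (.e (nat_lit 90170) (nat_lit 13) (.e (nat_lit 172106) (nat_lit 10) (.e (nat_lit 434244) (nat_lit 28) (.e (nat_lit 573474) (nat_lit 12) (.e (nat_lit 57347) (nat_lit 0) (.e (nat_lit 7263) (nat_lit 384) (.e (nat_lit 65280) (nat_lit 12) (.e (nat_lit 336011) (nat_lit 2) .nil)))))))) (.g (nat_lit 4) .nil .nil))) 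
(.lf (nat_lit 216772) (.g (nat_lit 2862) (.e (nat_lit 90170) (nat_lit 13) (.e (nat_lit 172106) (nat_lit 10) (.e (nat_lit 434246) (nat_lit 28) (.e (nat_lit 573474) (nat_lit 12) (.e (nat_lit 57572) (nat_lit 54) (.e (nat_lit 770071) (nat_lit 8) (.e (nat_lit 65568) (nat_lit 2) .nil))))))) (.g (nat_lit 4) .nil .nil)))) (.nd (nat_lit 6) 
(.lf (nat_lit 216740) (.g (nat_lit 2337) (.e (nat_lit 90170) (nat_lit 13) (.e (nat_lit 172106) (nat_lit 10) (.e (nat_lit 434244) (nat_lit 28) (.e (nat_lit 573474) (nat_lit 12) (.e (nat_lit 57358) (nat_lit 0) .nil))))) .nil)) 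
(.lf (nat_lit 216804) (.g (nat_lit 3544) (.e (nat_lit 90170) (nat_lit 13) (.e (nat_lit 172113) (nat_lit 10) (.e (nat_lit 434231) (nat_lit 23) (.e (nat_lit 532490) (nat_lit 0) (.e (nat_lit 6114) (nat_lit 332) (.e (nat_lit 1370) (nat_lit 103) (.e (nat_lit 294928) (nat_lit 2) .nil))))))) (.g (nat_lit 4) .nil .nil))))) (.nd (nat_lit 5) (.nd (nat_lit 6) 
(.lf (nat_lit 216724) (.g (nat_lit 2705) (.e (nat_lit 90170) (nat_lit 13) (.e (nat_lit 172106) (nat_lit 10) (.e (nat_lit 434244) (nat_lit 28) (.e (nat_lit 573474) (nat_lit 12) (.e (nat_lit 57352) (nat_lit 0) (.e (nat_lit 7122) (nat_lit 382) (.e (nat_lit 1016) (nat_lit 81) (.e (nat_lit 1449) (nat_lit 108) (.e (nat_lit 336013) (nat_lit 2) .nil))))))))) (.g (nat_lit 4) .nil .nil))) 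
(.lf (nat_lit 216788) (.g (nat_lit 393) (.e (nat_lit 90170) (nat_lit 13) (.e (nat_lit 172113) (nat_lit 10) (.e (nat_lit 434208) (nat_lit 18) .nil))) .nil))) (.nd (nat_lit 6) 
(.lf (nat_lit 216756) (.g (nat_lit 2950) (.e (nat_lit 90170) (nat_lit 13) (.e (nat_lit 172106) (nat_lit 10) (.e (nat_lit 434244) (nat_lit 28) (.e (nat_lit 573474) (nat_lit 12) (.e (nat_lit 57572) (nat_lit 54) (.e (nat_lit 770055) (nat_lit 5) (.e (nat_lit 1449) (nat_lit 108) (.e (nat_lit 336013) (nat_lit 2) .nil)))))))) (.g (nat_lit 4) .nil .nil))) 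
(.lf (nat_lit 216820) (.g (nat_lit 1464) (.e (nat_lit 90170) (nat_lit 13) (.e (nat_lit 172113) (nat_lit 10) (.e (nat_lit 434233) (nat_lit 23) (.e (nat_lit 532523) (nat_lit 7) (.e (nat_lit 319535) (nat_lit 17) .nil))))) .nil))))) (.nd (nat_lit 4) (.nd (nat_lit 5) (.nd (nat_lit 6) 
(.lf (nat_lit 216716) (.g (nat_lit 2886) (.e (nat_lit 90170) (nat_lit 13) (.e (nat_lit 172106) (nat_lit 10) (.e (nat_lit 434244) (nat_lit 28) (.e (nat_lit 573474) (nat_lit 12) (.e (nat_lit 57348) (nat_lit 0) (.e (nat_lit 7265) (nat_lit 384) (.e (nat_lit 65280) (nat_lit 12) (.e (nat_lit 336011) (nat_lit 2) .nil)))))))) (.g (nat_lit 4) .nil .nil))) 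
(.lf (nat_lit 216780) (.g (nat_lit 679) (.e (nat_lit 90170) (nat_lit 13) (.e (nat_lit 172113) (nat_lit 10) (.e (nat_lit 434200) (nat_lit 18) .nil))) .nil))) (.nd (nat_lit 6) 
(.lf (nat_lit 216748) (.g (nat_lit 2928) (.e (nat_lit 90170) (nat_lit 13) (.e (nat_lit 172106) (nat_lit 10) (.e (nat_lit 434244) (nat_lit 28) (.e (nat_lit 573474) (nat_lit 12) (.e (nat_lit 57571) (nat_lit 54) (.e (nat_lit 770054) (nat_lit 5) (.e (nat_lit 1449) (nat_lit 108) (.e (nat_lit 336013) (nat_lit 2) .nil)))))))) (.g (nat_lit 4) .nil .nil))) 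
(.lf (nat_lit 216812) (.g (nat_lit 4399) (.e (nat_lit 90170) (nat_lit 13) (.e (nat_lit 172113) (nat_lit 10) (.e (nat_lit 434231) (nat_lit 23) (.e (nat_lit 532523) (nat_lit 7) (.e (nat_lit 319505) (nat_lit 10) (.e (nat_lit 5245) (nat_lit 298) (.e (nat_lit 1239) (nat_lit 91) .nil))))))) (.g (nat_lit 5) .nil .nil))))) (.nd (nat_lit 5) (.nd (nat_lit 6) 
(.lf (nat_lit 216732) (.g (nat_lit 1920) (.e (nat_lit 90170) (nat_lit 13) (.e (nat_lit 172106) (nat_lit 10) (.e (nat_lit 434244) (nat_lit 28) (.e (nat_lit 573474) (nat_lit 12) (.e (nat_lit 57353) (nat_lit 0) .nil))))) .nil)) 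
(.lf (nat_lit 216796) (.g (nat_lit 3002) (.e (nat_lit 90170) (nat_lit 13) (.e (nat_lit 172113) (nat_lit 10) (.e (nat_lit 434231) (nat_lit 23) (.e (nat_lit 532481) (nat_lit 0) (.e (nat_lit 6712) (nat_lit 360) (.e (nat_lit 164238) (nat_lit 187) (.e (nat_lit 1234) (nat_lit 91) .nil))))))) (.g (nat_lit 4) .nil .nil)))) (.nd (nat_lit 6) 
(.lf (nat_lit 216764) (.g (nat_lit 2734) (.e (nat_lit 90170) (nat_lit 13) (.e (nat_lit 172106) (nat_lit 10) (.e (nat_lit 434244) (nat_lit 28) (.e (nat_lit 573476) (nat_lit 12) (.e (nat_lit 65280) (nat_lit 57) .nil))))) .nil)) 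
(.lf (nat_lit 216828) (.g (nat_lit 2043) (.e (nat_lit 90170) (nat_lit 13) (.e (nat_lit 172113) (nat_lit 10) (.e (nat_lit 434238) (nat_lit 25) (.e (nat_lit 548898) (nat_lit 14) (.e (nat_lit 2964) (nat_lit 185) .nil))))) .nil))))))) (.nd (nat_lit 2) (.nd (nat_lit 3) (.nd (nat_lit 4) (.nd (nat_lit 5) (.nd (nat_lit 6) 
(.lf (nat_lit 216706) (.g (nat_lit 3106) (.e (nat_lit 90170) (nat_lit 13) (.e (nat_lit 172106) (nat_lit 10) (.e (nat_lit 434244) (nat_lit 28) (.e (nat_lit 573474) (nat_lit 12) (.e (nat_lit 57347) (nat_lit 0) (.e (nat_lit 7125) (nat_lit 382) (.e (nat_lit 1296) (nat_lit 96) (.e (nat_lit 131092) (nat_lit 2) .nil)))))))) (.g (nat_lit 4) .nil .nil))) 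
(.lf (nat_lit 216770) (.g (nat_lit 2399) (.e (nat_lit 90170) (nat_lit 13) (.e (nat_lit 172106) (nat_lit 10) (.e (nat_lit 434246) (nat_lit 28) (.e (nat_lit 573474) (nat_lit 12) (.e (nat_lit 57572) (nat_lit 54) (.e (nat_lit 770056) (nat_lit 5) (.e (nat_lit 1464) (nat_lit 108) (.e (nat_lit 336013) (nat_lit 2) .nil)))))))) (.g (nat_lit 4) .nil .nil)))) (.nd (nat_lit 6) 
(.lf (nat_lit 216738) (.g (nat_lit 2692) (.e (nat_lit 90170) (nat_lit 13) (.e (nat_lit 172106) (nat_lit 10) (.e (nat_lit 434244) (nat_lit 28) (.e (nat_lit 573474) (nat_lit 12) (.e (nat_lit 57354) (nat_lit 0) (.e (nat_lit 7272) (nat_lit 385) (.e (nat_lit 130816) (nat_lit 12) (.e (nat_lit 336011) (nat_lit 2) .nil)))))))) (.g (nat_lit 4) .nil .nil))) 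
(.lf (nat_lit 216802) (.g (nat_lit 3294) (.e (nat_lit 90170) (nat_lit 13) (.e (nat_lit 172113) (nat_lit 10) (.e (nat_lit 434231) (nat_lit 23) (.e (nat_lit 532490) (nat_lit 0) (.e (nat_lit 6114) (nat_lit 332) (.e (nat_lit 980) (nat_lit 81) (.e (nat_lit 5270) (nat_lit 298) (.e (nat_lit 1239) (nat_lit 91) .nil)))))))) (.g (nat_lit 4) .nil .nil))))) (.nd (nat_lit 5) (.nd (nat_lit 6) 
(.lf (nat_lit 216722) (.g (nat_lit 2851) (.e (nat_lit 90170) (nat_lit 13) (.e (nat_lit 172106) (nat_lit 10) (.e (nat_lit 434244) (nat_lit 28) (.e (nat_lit 573474) (nat_lit 12) (.e (nat_lit 57351) (nat_lit 0) (.e (nat_lit 7263) (nat_lit 384) (.e (nat_lit 65280) (nat_lit 12) (.e (nat_lit 336011) (nat_lit 2) .nil)))))))) (.g (nat_lit 4) .nil .nil))) 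
(.lf (nat_lit 216786) (.g (nat_lit 677) (.e (nat_lit 90170) (nat_lit 13) (.e (nat_lit 172113) (nat_lit 10) (.e (nat_lit 434205) (nat_lit 18) .nil))) .nil))) (.nd (nat_lit 6) 
(.lf (nat_lit 216754) (.g (nat_lit 3044) (.e (nat_lit 90170) (nat_lit 13) (.e (nat_lit 172106) (nat_lit 10) (.e (nat_lit 434244) (nat_lit 28) (.e (nat_lit 573474) (nat_lit 12) (.e (nat_lit 57571) (nat_lit 54) (.e (nat_lit 770070) (nat_lit 8) (.e (nat_lit 65568) (nat_lit 2) .nil))))))) (.g (nat_lit 4) .nil .nil))) 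
(.lf (nat_lit 216818) (.g (nat_lit 1184) (.e (nat_lit 90170) (nat_lit 13) (.e (nat_lit 172113) (nat_lit 10) (.e (nat_lit 434231) (nat_lit 23) (.e (nat_lit 532569) (nat_lit 16) .nil)))) .nil))))) (.nd (nat_lit 4) (.nd (nat_lit 5) (.nd (nat_lit 6) 
(.lf (nat_lit 216714) (.g (nat_lit 3334) (.e (nat_lit 90170) (nat_lit 13) (.e (nat_lit 172106) (nat_lit 10) (.e (nat_lit 434244) (nat_lit 28) (.e (nat_lit 573474) (nat_lit 12) (.e (nat_lit 57348) (nat_lit 0) (.e (nat_lit 7125) (nat_lit 382) (.e (nat_lit 1296) (nat_lit 96) (.e (nat_lit 131091) (nat_lit 2) .nil)))))))) (.g (nat_lit 5) .nil .nil))) 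
(.lf (nat_lit 216778) (.g (nat_lit 235) (.e (nat_lit 90170) (nat_lit 13) (.e (nat_lit 172112) (nat_lit 10) (.e (nat_lit 434238) (nat_lit 25) .nil))) .nil))) (.nd (nat_lit 6) 
(.lf (nat_lit 216746) (.g (nat_lit 2709) (.e (nat_lit 90170) (nat_lit 13) (.e (nat_lit 172106) (nat_lit 10) (.e (nat_lit 434244) (nat_lit 28) (.e (nat_lit 573474) (nat_lit 12) (.e (nat_lit 57570) (nat_lit 54) (.e (nat_lit 770055) (nat_lit 5) (.e (nat_lit 1449) (nat_lit 108) (.e (nat_lit 336013) (nat_lit 2) .nil)))))))) (.g (nat_lit 4) .nil .nil))) 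
(.lf (nat_lit 216810) (.g (nat_lit 3679) (.e (nat_lit 90170) (nat_lit 13) (.e (nat_lit 172113) (nat_lit 10) (.e (nat_lit 434231) (nat_lit 23) (.e (nat_lit 532523) (nat_lit 7) (.e (nat_lit 319504) (nat_lit 10) (.e (nat_lit 5271) (nat_lit 298) (.e (nat_lit 1239) (nat_lit 91) .nil))))))) (.g (nat_lit 5) .nil .nil))))) (.nd (nat_lit 5) (.nd (nat_lit 6) 
(.lf (nat_lit 216730) (.g (nat_lit 3384) (.e (nat_lit 90170) (nat_lit 13) (.e (nat_lit 172106) (nat_lit 10) (.e (nat_lit 434244) (nat_lit 28) (.e (nat_lit 573474) (nat_lit 12) (.e (nat_lit 57352) (nat_lit 0) (.e (nat_lit 7263) (nat_lit 384) (.e (nat_lit 57404) (nat_lit 12) (.e (nat_lit 336013) (nat_lit 2) .nil)))))))) (.g (nat_lit 4) .nil .nil))) 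
(.lf (nat_lit 216794) (.g (nat_lit 2464) (.e (nat_lit 90170) (nat_lit 13) (.e (nat_lit 172113) (nat_lit 10) (.e (nat_lit 434231) (nat_lit 23) (.e (nat_lit 532481) (nat_lit 0) (.e (nat_lit 6084) (nat_lit 332) .nil))))) .nil))) (.nd (nat_lit 6) 
(.lf (nat_lit 216762) (.g (nat_lit 2299) (.e (nat_lit 90170) (nat_lit 13) (.e (nat_lit 172106) (nat_lit 10) (.e (nat_lit 434244) (nat_lit 28) (.e (nat_lit 573476) (nat_lit 12) .nil)))) .nil)) 
(.lf (nat_lit 216826) (.g (nat_lit 409) (.e (nat_lit 90170) (nat_lit 13) (.e (nat_lit 172113) (nat_lit 10) (.e (nat_lit 434238) (nat_lit 25) .nil))) .nil)))))) (.nd (nat_lit 3) (.nd (nat_lit 4) (.nd (nat_lit 5) (.nd (nat_lit 6) 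
(.lf (nat_lit 216710) (.g (nat_lit 2710) (.e (nat_lit 90170) (nat_lit 13) (.e (nat_lit 172106) (nat_lit 10) (.e (nat_lit 434244) (nat_lit 28) (.e (nat_lit 573474) (nat_lit 12) (.e (nat_lit 57348) (nat_lit 0) (.e (nat_lit 7122) (nat_lit 382) (.e (nat_lit 1016) (nat_lit 81) (.e (nat_lit 1449) (nat_lit 108) (.e (nat_lit 336013) (nat_lit 2) .nil))))))))) (.g (nat_lit 4) .nil .nil))) 
(.lf (nat_lit 216774) (.g (nat_lit 3979) (.e (nat_lit 90170) (nat_lit 13) (.e (nat_lit 172106) (nat_lit 10) (.e (nat_lit 434246) (nat_lit 28) (.e (nat_lit 573474) (nat_lit 12) (.e (nat_lit 57572) (nat_lit 54) (.e (nat_lit 770072) (nat_lit 8) (.e (nat_lit 65568) (nat_lit 2) .nil))))))) (.g (nat_lit 5) .nil .nil)))) (.nd (nat_lit 6) 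
(.lf (nat_lit 216742) (.g (nat_lit 2527) (.e (nat_lit 90170) (nat_lit 13) (.e (nat_lit 172106) (nat_lit 10) (.e (nat_lit 434244) (nat_lit 28) (.e (nat_lit 573474) (nat_lit 12) (.e (nat_lit 57568) (nat_lit 53) (.e (nat_lit 769792) (nat_lit 5) (.e (nat_lit 1464) (nat_lit 108) (.e (nat_lit 336013) (nat_lit 2) .nil)))))))) (.g (nat_lit 4) .nil .nil))) 
(.lf (nat_lit 216806) (.g (nat_lit 2816) (.e (nat_lit 90170) (nat_lit 13) (.e (nat_lit 172113) (nat_lit 10) (.e (nat_lit 434231) (nat_lit 23) (.e (nat_lit 532490) (nat_lit 0) (.e (nat_lit 6149) (nat_lit 332) .nil))))) .nil)))) (.nd (nat_lit 5) (.nd (nat_lit 6) 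
(.lf (nat_lit 216726) (.g (nat_lit 2724) (.e (nat_lit 90170) (nat_lit 13) (.e (nat_lit 172106) (nat_lit 10) (.e (nat_lit 434244) (nat_lit 28) (.e (nat_lit 573474) (nat_lit 12) (.e (nat_lit 57352) (nat_lit 0) (.e (nat_lit 7125) (nat_lit 382) (.e (nat_lit 1201) (nat_lit 88) (.e (nat_lit 65566) (nat_lit 2) .nil)))))))) (.g (nat_lit 4) .nil .nil))) 
(.lf (nat_lit 216790) (.g (nat_lit 3184) (.e (nat_lit 90170) (nat_lit 13) (.e (nat_lit 172113) (nat_lit 10) (.e (nat_lit 434208) (nat_lit 18) (.e (nat_lit 6420) (nat_lit 341) (.e (nat_lit 163843) (nat_lit 0) (.e (nat_lit 3605) (nat_lit 225) (.e (nat_lit 761905) (nat_lit 16) (.e (nat_lit 179968) (nat_lit 17) .nil)))))))) (.g (nat_lit 5) .nil .nil)))) (.nd (nat_lit 6) 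
(.lf (nat_lit 216758) (.g (nat_lit 2781) (.e (nat_lit 90170) (nat_lit 13) (.e (nat_lit 172106) (nat_lit 10) (.e (nat_lit 434244) (nat_lit 28) (.e (nat_lit 573474) (nat_lit 12) (.e (nat_lit 57572) (nat_lit 54) (.e (nat_lit 770057) (nat_lit 5) (.e (nat_lit 1449) (nat_lit 108) (.e (nat_lit 336013) (nat_lit 2) .nil)))))))) (.g (nat_lit 4) .nil .nil))) 
(.lf (nat_lit 216822) (.g (nat_lit 1327) (.e (nat_lit 90170) (nat_lit 13) (.e (nat_lit 172113) (nat_lit 10) (.e (nat_lit 434234) (nat_lit 23) (.e (nat_lit 532523) (nat_lit 7) (.e (nat_lit 319536) (nat_lit 17) .nil))))) .nil))))) (.nd (nat_lit 4) (.nd (nat_lit 5) (.nd (nat_lit 6) 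
(.lf (nat_lit 216718) (.g (nat_lit 2620) (.e (nat_lit 90170) (nat_lit 13) (.e (nat_lit 172106) (nat_lit 10) (.e (nat_lit 434244) (nat_lit 28) (.e (nat_lit 573474) (nat_lit 12) (.e (nat_lit 57351) (nat_lit 0) (.e (nat_lit 7122) (nat_lit 382) (.e (nat_lit 1016) (nat_lit 81) (.e (nat_lit 1464) (nat_lit 108) (.e (nat_lit 336013) (nat_lit 2) .nil))))))))) (.g (nat_lit 4) .nil .nil))) 
(.lf (nat_lit 216782) (.g (nat_lit 1147) (.e (nat_lit 90170) (nat_lit 13) (.e (nat_lit 172113) (nat_lit 10) (.e (nat_lit 434203) (nat_lit 18) (.e (nat_lit 3919) (nat_lit 239) .nil)))) .nil))) (.nd (nat_lit 6) 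
(.lf (nat_lit 216750) (.g (nat_lit 2447) (.e (nat_lit 90170) (nat_lit 13) (.e (nat_lit 172106) (nat_lit 10) (.e (nat_lit 434244) (nat_lit 28) (.e (nat_lit 573474) (nat_lit 12) (.e (nat_lit 57571) (nat_lit 54) (.e (nat_lit 770056) (nat_lit 5) (.e (nat_lit 1464) (nat_lit 108) (.e (nat_lit 336013) (nat_lit 2) .nil)))))))) (.g (nat_lit 4) .nil .nil))) 
(.lf (nat_lit 216814) (.g (nat_lit 4240) (.e (nat_lit 90170) (nat_lit 13) (.e (nat_lit 172113) (nat_lit 10) (.e (nat_lit 434231) (nat_lit 23) (.e (nat_lit 532523) (nat_lit 7) (.e (nat_lit 319505) (nat_lit 10) (.e (nat_lit 5351) (nat_lit 298) (.e (nat_lit 1235) (nat_lit 91) .nil))))))) (.g (nat_lit 5) .nil .nil))))) (.nd (nat_lit 5) (.nd (nat_lit 6) 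
(.lf (nat_lit 216734) (.g (nat_lit 4419) (.e (nat_lit 90170) (nat_lit 13) (.e (nat_lit 172106) (nat_lit 10) (.e (nat_lit 434244) (nat_lit 28) (.e (nat_lit 573474) (nat_lit 12) (.e (nat_lit 57353) (nat_lit 0) (.e (nat_lit 7125) (nat_lit 382) (.e (nat_lit 1201) (nat_lit 88) (.e (nat_lit 65566) (nat_lit 2) .nil)))))))) (.g (nat_lit 7) .nil .nil))) 
(.lf (nat_lit 216798) (.g (nat_lit 1205) (.e (nat_lit 90170) (nat_lit 13) (.e (nat_lit 172113) (nat_lit 10) (.e (nat_lit 434231) (nat_lit 23) (.e (nat_lit 532490) (nat_lit 0) .nil)))) .nil))) (.nd (nat_lit 6) 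
(.lf (nat_lit 216766) (.g (nat_lit 2398) (.e (nat_lit 90170) (nat_lit 13) (.e (nat_lit 172106) (nat_lit 10) (.e (nat_lit 434244) (nat_lit 28) (.e (nat_lit 573494) (nat_lit 16) .nil)))) .nil)) 
(.lf (nat_lit 216830) (.g (nat_lit 2036) (.e (nat_lit 90170) (nat_lit 13) (.e (nat_lit 172113) (nat_lit 10) (.e (nat_lit 434238) (nat_lit 25) (.e (nat_lit 548898) (nat_lit 14) (.e (nat_lit 2981) (nat_lit 185) .nil))))) .nil)))))))) (.nd (nat_lit 1) (.nd (nat_lit 2) (.nd (nat_lit 3) (.nd (nat_lit 4) (.nd (nat_lit 5) (.nd (nat_lit 6) 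
(.lf (nat_lit 216705) (.g (nat_lit 4257) (.e (nat_lit 90170) (nat_lit 13) (.e (nat_lit 172106) (nat_lit 10) (.e (nat_lit 434244) (nat_lit 28) (.e (nat_lit 573474) (nat_lit 12) (.e (nat_lit 57347) (nat_lit 0) (.e (nat_lit 7125) (nat_lit 382) (.e (nat_lit 1296) (nat_lit 96) (.e (nat_lit 131091) (nat_lit 2) .nil)))))))) (.g (nat_lit 6) .nil .nil))) 
(.lf (nat_lit 216769) (.g (nat_lit 3898) (.e (nat_lit 90170) (nat_lit 13) (.e (nat_lit 172106) (nat_lit 10) (.e (nat_lit 434246) (nat_lit 28) (.e (nat_lit 573471) (nat_lit 11) (.e (nat_lit 16470) (nat_lit 14) (.e (nat_lit 491537) (nat_lit 2) .nil)))))) (.g (nat_lit 5) .nil .nil)))) (.nd (nat_lit 6) 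
(.lf (nat_lit 216737) (.g (nat_lit 3063) (.e (nat_lit 90170) (nat_lit 13) (.e (nat_lit 172106) (nat_lit 10) (.e (nat_lit 434244) (nat_lit 28) (.e (nat_lit 573474) (nat_lit 12) (.e (nat_lit 57353) (nat_lit 0) (.e (nat_lit 7266) (nat_lit 384) (.e (nat_lit 65280) (nat_lit 12) (.e (nat_lit 336011) (nat_lit 2) .nil)))))))) (.g (nat_lit 4) .nil .nil))) 
(.lf (nat_lit 216801) (.g (nat_lit 2841) (.e (nat_lit 90170) (nat_lit 13) (.e (nat_lit 172113) (nat_lit 10) (.e (nat_lit 434231) (nat_lit 23) (.e (nat_lit 532490) (nat_lit 0) (.e (nat_lit 6092) (nat_lit 332) (.e (nat_lit 1367) (nat_lit 103) (.e (nat_lit 294927) (nat_lit 2) .nil))))))) (.g (nat_lit 4) .nil .nil))))) (.nd (nat_lit 5) (.nd (nat_lit 6) 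
(.lf (nat_lit 216721) (.g (nat_lit 4099) (.e (nat_lit 90170) (nat_lit 13) (.e (nat_lit 172106) (nat_lit 10) (.e (nat_lit 434244) (nat_lit 28) (.e (nat_lit 573474) (nat_lit 12) (.e (nat_lit 57351) (nat_lit 0) (.e (nat_lit 7124) (nat_lit 382) (.e (nat_lit 1296) (nat_lit 96) (.e (nat_lit 131093) (nat_lit 2) .nil)))))))) (.g (nat_lit 7) .nil .nil))) 
(.lf (nat_lit 216785) (.g (nat_lit 3640) (.e (nat_lit 90170) (nat_lit 13) (.e (nat_lit 172113) (nat_lit 10) (.e (nat_lit 434203) (nat_lit 18) (.e (nat_lit 6830) (nat_lit 367) (.e (nat_lit 57400) (nat_lit 10) (.e (nat_lit 319490) (nat_lit 0) (.e (nat_lit 5629) (nat_lit 312) (.e (nat_lit 100) (nat_lit 2) .nil)))))))) (.g (nat_lit 6) .nil .nil)))) (.nd (nat_lit 6) 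
(.lf (nat_lit 216753) (.g (nat_lit 2543) (.e (nat_lit 90170) (nat_lit 13) (.e (nat_lit 172106) (nat_lit 10) (.e (nat_lit 434244) (nat_lit 28) (.e (nat_lit 573474) (nat_lit 12) (.e (nat_lit 57571) (nat_lit 54) (.e (nat_lit 770070) (nat_lit 8) (.e (nat_lit 65566) (nat_lit 2) .nil))))))) (.g (nat_lit 4) .nil .nil))) 
(.lf (nat_lit 216817) (.g (nat_lit 3774) (.e (nat_lit 90170) (nat_lit 13) (.e (nat_lit 172113) (nat_lit 10) (.e (nat_lit 434231) (nat_lit 23) (.e (nat_lit 532523) (nat_lit 7) (.e (nat_lit 327424) (nat_lit 10) (.e (nat_lit 5270) (nat_lit 298) (.e (nat_lit 1239) (nat_lit 91) .nil))))))) (.g (nat_lit 4) .nil .nil)))))) (.nd (nat_lit 4) (.nd (nat_lit 5) (.nd (nat_lit 6) 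
(.lf (nat_lit 216713) (.g (nat_lit 3910) (.e (nat_lit 90170) (nat_lit 13) (.e (nat_lit 172106) (nat_lit 10) (.e (nat_lit 434244) (nat_lit 28) (.e (nat_lit 573474) (nat_lit 12) (.e (nat_lit 57348) (nat_lit 0) (.e (nat_lit 7124) (nat_lit 382) (.e (nat_lit 1296) (nat_lit 96) (.e (nat_lit 131093) (nat_lit 2) .nil)))))))) (.g (nat_lit 6) .nil .nil))) 
(.lf (nat_lit 216777) (.g (nat_lit 961) (.e (nat_lit 90170) (nat_lit 13) (.e (nat_lit 172107) (nat_lit 10) (.e (nat_lit 434238) (nat_lit 25) (.e (nat_lit 548914) (nat_lit 19) .nil)))) .nil))) (.nd (nat_lit 6) 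
(.lf (nat_lit 216745) (.g (nat_lit 2664) (.e (nat_lit 90170) (nat_lit 13) (.e (nat_lit 172106) (nat_lit 10) (.e (nat_lit 434244) (nat_lit 28) (.e (nat_lit 573474) (nat_lit 12) (.e (nat_lit 57570) (nat_lit 54) (.e (nat_lit 770054) (nat_lit 5) (.e (nat_lit 1449) (nat_lit 108) (.e (nat_lit 336013) (nat_lit 2) .nil)))))))) (.g (nat_lit 4) .nil .nil))) 
(.lf (nat_lit 216809) (.g (nat_lit 3818) (.e (nat_lit 90170) (nat_lit 13) (.e (nat_lit 172113) (nat_lit 10) (.e (nat_lit 434231) (nat_lit 23) (.e (nat_lit 532523) (nat_lit 7) (.e (nat_lit 319503) (nat_lit 10) (.e (nat_lit 5271) (nat_lit 298) (.e (nat_lit 1239) (nat_lit 91) .nil))))))) (.g (nat_lit 4) .nil .nil))))) (.nd (nat_lit 5) (.nd (nat_lit 6) 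
(.lf (nat_lit 216729) (.g (nat_lit 3585) (.e (nat_lit 90170) (nat_lit 13) (.e (nat_lit 172106) (nat_lit 10) (.e (nat_lit 434244) (nat_lit 28) (.e (nat_lit 573474) (nat_lit 12) (.e (nat_lit 57352) (nat_lit 0) (.e (nat_lit 7261) (nat_lit 384) (.e (nat_lit 57413) (nat_lit 12) (.e (nat_lit 336013) (nat_lit 2) .nil)))))))) (.g (nat_lit 4) .nil .nil))) 
(.lf (nat_lit 216793) (.g (nat_lit 524) (.e (nat_lit 90170) (nat_lit 13) (.e (nat_lit 172113) (nat_lit 10) (.e (nat_lit 434230) (nat_lit 23) .nil))) .nil))) (.nd (nat_lit 6) 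
(.lf (nat_lit 216761) (.g (nat_lit 4284) (.e (nat_lit 90170) (nat_lit 13) (.e (nat_lit 172106) (nat_lit 10) (.e (nat_lit 434244) (nat_lit 28) (.e (nat_lit 573475) (nat_lit 12) (.e (nat_lit 57574) (nat_lit 55) .nil))))) .nil)) 
(.lf (nat_lit 216825) (.g (nat_lit 1641) (.e (nat_lit 90170) (nat_lit 13) (.e (nat_lit 172113) (nat_lit 10) (.e (nat_lit 434237) (nat_lit 25) (.e (nat_lit 548914) (nat_lit 19) (.e (nat_lit 180278) (nat_lit 32) (.e (nat_lit 1234) (nat_lit 91) .nil)))))) (.g (nat_lit 4) .nil .nil))))))) (.nd (nat_lit 3) (.nd (nat_lit 4) (.nd (nat_lit 5) (.nd (nat_lit 6) 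
(.lf (nat_lit 216709) (.g (nat_lit 3681) (.e (nat_lit 90170) (nat_lit 13) (.e (nat_lit 172106) (nat_lit 10) (.e (nat_lit 434244) (nat_lit 28) (.e (nat_lit 573474) (nat_lit 12) (.e (nat_lit 57347) (nat_lit 0) (.e (nat_lit 7265) (nat_lit 384) (.e (nat_lit 65280) (nat_lit 12) (.e (nat_lit 336011) (nat_lit 2) .nil)))))))) (.g (nat_lit 5) .nil .nil))) 
(.lf (nat_lit 216773) (.g (nat_lit 3066) (.e (nat_lit 90170) (nat_lit 13) (.e (nat_lit 172106) (nat_lit 10) (.e (nat_lit 434246) (nat_lit 28) (.e (nat_lit 573474) (nat_lit 12) (.e (nat_lit 57572) (nat_lit 54) (.e (nat_lit 770072) (nat_lit 8) (.e (nat_lit 65566) (nat_lit 2) .nil))))))) (.g (nat_lit 4) .nil .nil)))) (.nd (nat_lit 6) 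
(.lf (nat_lit 216741) (.g (nat_lit 2729) (.e (nat_lit 90170) (nat_lit 13) (.e (nat_lit 172106) (nat_lit 10) (.e (nat_lit 434244) (nat_lit 28) (.e (nat_lit 573474) (nat_lit 12) (.e (nat_lit 57358) (nat_lit 0) (.e (nat_lit 7270) (nat_lit 385) (.e (nat_lit 122903) (nat_lit 12) (.e (nat_lit 336013) (nat_lit 2) .nil)))))))) (.g (nat_lit 4) .nil .nil))) 
(.lf (nat_lit 216805) (.g (nat_lit 2478) (.e (nat_lit 90170) (nat_lit 13) (.e (nat_lit 172113) (nat_lit 10) (.e (nat_lit 434231) (nat_lit 23) (.e (nat_lit 532490) (nat_lit 0) (.e (nat_lit 6136) (nat_lit 332) .nil))))) .nil)))) (.nd (nat_lit 5) (.nd (nat_lit 6) 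
(.lf (nat_lit 216725) (.g (nat_lit 2370) (.e (nat_lit 90170) (nat_lit 13) (.e (nat_lit 172106) (nat_lit 10) (.e (nat_lit 434244) (nat_lit 28) (.e (nat_lit 573474) (nat_lit 12) (.e (nat_lit 57352) (nat_lit 0) (.e (nat_lit 7122) (nat_lit 382) (.e (nat_lit 1296) (nat_lit 96) (.e (nat_lit 131093) (nat_lit 2) .nil)))))))) (.g (nat_lit 4) .nil .nil))) 
(.lf (nat_lit 216789) (.g (nat_lit 1071) (.e (nat_lit 90170) (nat_lit 13) (.e (nat_lit 172113) (nat_lit 10) (.e (nat_lit 434208) (nat_lit 18) (.e (nat_lit 6420) (nat_lit 341) .nil)))) .nil))) (.nd (nat_lit 6) 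
(.lf (nat_lit 216757) (.g (nat_lit 2815) (.e (nat_lit 90170) (nat_lit 13) (.e (nat_lit 172106) (nat_lit 10) (.e (nat_lit 434244) (nat_lit 28) (.e (nat_lit 573474) (nat_lit 12) (.e (nat_lit 57572) (nat_lit 54) (.e (nat_lit 770056) (nat_lit 5) (.e (nat_lit 1449) (nat_lit 108) (.e (nat_lit 336013) (nat_lit 2) .nil)))))))) (.g (nat_lit 4) .nil .nil))) 
(.lf (nat_lit 216821) (.g (nat_lit 3969) (.e (nat_lit 90170) (nat_lit 13) (.e (nat_lit 172113) (nat_lit 10) (.e (nat_lit 434234) (nat_lit 23) (.e (nat_lit 532523) (nat_lit 7) (.e (nat_lit 319533) (nat_lit 16) (.e (nat_lit 286732) (nat_lit 2) .nil)))))) (.g (nat_lit 0) .nil .nil)))))) (.nd (nat_lit 4) (.nd (nat_lit 5) (.nd (nat_lit 6) 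
(.lf (nat_lit 216717) (.g (nat_lit 3621) (.e (nat_lit 90170) (nat_lit 13) (.e (nat_lit 172106) (nat_lit 10) (.e (nat_lit 434244) (nat_lit 28) (.e (nat_lit 573474) (nat_lit 12) (.e (nat_lit 57348) (nat_lit 0) (.e (nat_lit 7266) (nat_lit 384) (.e (nat_lit 65280) (nat_lit 12) (.e (nat_lit 336011) (nat_lit 2) .nil)))))))) (.g (nat_lit 5) .nil .nil))) 
(.lf (nat_lit 216781) (.g (nat_lit 407) (.e (nat_lit 90170) (nat_lit 13) (.e (nat_lit 172113) (nat_lit 10) (.e (nat_lit 434203) (nat_lit 18) .nil))) .nil))) (.nd (nat_lit 6) 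
(.lf (nat_lit 216749) (.g (nat_lit 2744) (.e (nat_lit 90170) (nat_lit 13) (.e (nat_lit 172106) (nat_lit 10) (.e (nat_lit 434244) (nat_lit 28) (.e (nat_lit 573474) (nat_lit 12) (.e (nat_lit 57571) (nat_lit 54) (.e (nat_lit 770055) (nat_lit 5) (.e (nat_lit 1464) (nat_lit 108) (.e (nat_lit 336013) (nat_lit 2) .nil)))))))) (.g (nat_lit 4) .nil .nil))) 
(.lf (nat_lit 216813) (.g (nat_lit 4491) (.e (nat_lit 90170) (nat_lit 13) (.e (nat_lit 172113) (nat_lit 10) (.e (nat_lit 434231) (nat_lit 23) (.e (nat_lit 532523) (nat_lit 7) (.e (nat_lit 319505) (nat_lit 10) (.e (nat_lit 5351) (nat_lit 298) (.e (nat_lit 1234) (nat_lit 91) .nil))))))) (.g (nat_lit 5) .nil .nil))))) (.nd (nat_lit 5) (.nd (nat_lit 6) 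
(.lf (nat_lit 216733) (.g (nat_lit 2412) (.e (nat_lit 90170) (nat_lit 13) (.e (nat_lit 172106) (nat_lit 10) (.e (nat_lit 434244) (nat_lit 28) (.e (nat_lit 573474) (nat_lit 12) (.e (nat_lit 57353) (nat_lit 0) (.e (nat_lit 7124) (nat_lit 382) (.e (nat_lit 1296) (nat_lit 96) (.e (nat_lit 131091) (nat_lit 2) .nil)))))))) (.g (nat_lit 4) .nil .nil))) 
(.lf (nat_lit 216797) (.g (nat_lit 1148) (.e (nat_lit 90170) (nat_lit 13) (.e (nat_lit 172113) (nat_lit 10) (.e (nat_lit 434231) (nat_lit 23) (.e (nat_lit 532486) (nat_lit 0) .nil)))) .nil))) (.nd (nat_lit 6) 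
(.lf (nat_lit 216765) (.g (nat_lit 3555) (.e (nat_lit 90170) (nat_lit 13) (.e (nat_lit 172106) (nat_lit 10) (.e (nat_lit 434244) (nat_lit 28) (.e (nat_lit 573478) (nat_lit 12) (.e (nat_lit 57574) (nat_lit 55) .nil))))) .nil)) 
(.lf (nat_lit 216829) (.g (nat_lit 2033) (.e (nat_lit 90170) (nat_lit 13) (.e (nat_lit 172113) (nat_lit 10) (.e (nat_lit 434238) (nat_lit 25) (.e (nat_lit 548898) (nat_lit 14) (.e (nat_lit 2980) (nat_lit 185) .nil))))) .nil))))))) (.nd (nat_lit 2) (.nd (nat_lit 3) (.nd (nat_lit 4) (.nd (nat_lit 5) (.nd (nat_lit 6) 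
(.lf (nat_lit 216707) (.g (nat_lit 2965) (.e (nat_lit 90170) (nat_lit 13) (.e (nat_lit 172106) (nat_lit 10) (.e (nat_lit 434244) (nat_lit 28) (.e (nat_lit 573474) (nat_lit 12) (.e (nat_lit 57347) (nat_lit 0) (.e (nat_lit 7261) (nat_lit 384) (.e (nat_lit 65280) (nat_lit 12) (.e (nat_lit 336011) (nat_lit 2) .nil)))))))) (.g (nat_lit 4) .nil .nil))) 
(.lf (nat_lit 216771) (.g (nat_lit 2607) (.e (nat_lit 90170) (nat_lit 13) (.e (nat_lit 172106) (nat_lit 10) (.e (nat_lit 434246) (nat_lit 28) (.e (nat_lit 573474) (nat_lit 12) (.e (nat_lit 57572) (nat_lit 54) (.e (nat_lit 770057) (nat_lit 5) (.e (nat_lit 1464) (nat_lit 108) (.e (nat_lit 336013) (nat_lit 2) .nil)))))))) (.g (nat_lit 4) .nil .nil)))) (.nd (nat_lit 6) 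
(.lf (nat_lit 216739) (.g (nat_lit 2740) (.e (nat_lit 90170) (nat_lit 13) (.e (nat_lit 172106) (nat_lit 10) (.e (nat_lit 434244) (nat_lit 28) (.e (nat_lit 573474) (nat_lit 12) (.e (nat_lit 57354) (nat_lit 0) (.e (nat_lit 7273) (nat_lit 385) (.e (nat_lit 130816) (nat_lit 12) (.e (nat_lit 336011) (nat_lit 2) .nil)))))))) (.g (nat_lit 4) .nil .nil))) 
(.lf (nat_lit 216803) (.g (nat_lit 3294) (.e (nat_lit 90170) (nat_lit 13) (.e (nat_lit 172113) (nat_lit 10) (.e (nat_lit 434231) (nat_lit 23) (.e (nat_lit 532490) (nat_lit 0) (.e (nat_lit 6114) (nat_lit 332) (.e (nat_lit 1081) (nat_lit 81) (.e (nat_lit 5270) (nat_lit 298) (.e (nat_lit 1239) (nat_lit 91) .nil)))))))) (.g (nat_lit 4) .nil .nil))))) (.nd (nat_lit 5) (.nd (nat_lit 6) 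
(.lf (nat_lit 216723) (.g (nat_lit 3001) (.e (nat_lit 90170) (nat_lit 13) (.e (nat_lit 172106) (nat_lit 10) (.e (nat_lit 434244) (nat_lit 28) (.e (nat_lit 573474) (nat_lit 12) (.e (nat_lit 57351) (nat_lit 0) (.e (nat_lit 7265) (nat_lit 384) (.e (nat_lit 65280) (nat_lit 12) (.e (nat_lit 336011) (nat_lit 2) .nil)))))))) (.g (nat_lit 4) .nil .nil))) 
(.lf (nat_lit 216787) (.g (nat_lit 431) (.e (nat_lit 90170) (nat_lit 13) (.e (nat_lit 172113) (nat_lit 10) (.e (nat_lit 434207) (nat_lit 18) .nil))) .nil))) (.nd (nat_lit 6) 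
(.lf (nat_lit 216755) (.g (nat_lit 2252) (.e (nat_lit 90170) (nat_lit 13) (.e (nat_lit 172106) (nat_lit 10) (.e (nat_lit 434244) (nat_lit 28) (.e (nat_lit 573474) (nat_lit 12) (.e (nat_lit 57571) (nat_lit 54) (.e (nat_lit 770076) (nat_lit 12) (.e (nat_lit 131093) (nat_lit 2) .nil))))))) (.g (nat_lit 4) .nil .nil))) 
(.lf (nat_lit 216819) (.g (nat_lit 2544) (.e (nat_lit 90170) (nat_lit 13) (.e (nat_lit 172113) (nat_lit 10) (.e (nat_lit 434231) (nat_lit 23) (.e (nat_lit 532569) (nat_lit 16) (.e (nat_lit 401460) (nat_lit 14) .nil))))) .nil))))) (.nd (nat_lit 4) (.nd (nat_lit 5) (.nd (nat_lit 6) 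
(.lf (nat_lit 216715) (.g (nat_lit 3042) (.e (nat_lit 90170) (nat_lit 13) (.e (nat_lit 172106) (nat_lit 10) (.e (nat_lit 434244) (nat_lit 28) (.e (nat_lit 573474) (nat_lit 12) (.e (nat_lit 57348) (nat_lit 0) (.e (nat_lit 7236) (nat_lit 382) (.e (nat_lit 1199) (nat_lit 88) (.e (nat_lit 65568) (nat_lit 2) .nil)))))))) (.g (nat_lit 4) .nil .nil))) 
(.lf (nat_lit 216779) (.g (nat_lit 441) (.e (nat_lit 90170) (nat_lit 13) (.e (nat_lit 172113) (nat_lit 10) (.e (nat_lit 434199) (nat_lit 18) .nil))) .nil))) (.nd (nat_lit 6) 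
(.lf (nat_lit 216747) (.g (nat_lit 2702) (.e (nat_lit 90170) (nat_lit 13) (.e (nat_lit 172106) (nat_lit 10) (.e (nat_lit 434244) (nat_lit 28) (.e (nat_lit 573474) (nat_lit 12) (.e (nat_lit 57570) (nat_lit 54) (.e (nat_lit 770076) (nat_lit 12) (.e (nat_lit 131093) (nat_lit 2) .nil))))))) (.g (nat_lit 4) .nil .nil))) 
(.lf (nat_lit 216811) (.g (nat_lit 3438) (.e (nat_lit 90170) (nat_lit 13) (.e (nat_lit 172113) (nat_lit 10) (.e (nat_lit 434231) (nat_lit 23) (.e (nat_lit 532523) (nat_lit 7) (.e (nat_lit 319504) (nat_lit 10) (.e (nat_lit 5351) (nat_lit 298) (.e (nat_lit 1235) (nat_lit 91) .nil))))))) (.g (nat_lit 5) .nil .nil))))) (.nd (nat_lit 5) (.nd (nat_lit 6) 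
(.lf (nat_lit 216731) (.g (nat_lit 2365) (.e (nat_lit 90170) (nat_lit 13) (.e (nat_lit 172106) (nat_lit 10) (.e (nat_lit 434244) (nat_lit 28) (.e (nat_lit 573474) (nat_lit 12) (.e (nat_lit 57352) (nat_lit 0) (.e (nat_lit 7266) (nat_lit 384) (.e (nat_lit 57404) (nat_lit 12) (.e (nat_lit 336013) (nat_lit 2) .nil)))))))) (.g (nat_lit 4) .nil .nil))) 
(.lf (nat_lit 216795) (.g (nat_lit 2465) (.e (nat_lit 90170) (nat_lit 13) (.e (nat_lit 172113) (nat_lit 10) (.e (nat_lit 434231) (nat_lit 23) (.e (nat_lit 532481) (nat_lit 0) (.e (nat_lit 6712) (nat_lit 360) .nil))))) .nil))) (.nd (nat_lit 6) 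
(.lf (nat_lit 216763) (.g (nat_lit 2748) (.e (nat_lit 90170) (nat_lit 13) (.e (nat_lit 172106) (nat_lit 10) (.e (nat_lit 434244) (nat_lit 28) (.e (nat_lit 573476) (nat_lit 12) (.e (nat_lit 57353) (nat_lit 0) .nil))))) .nil)) 
(.lf (nat_lit 216827) (.g (nat_lit 1948) (.e (nat_lit 90170) (nat_lit 13) (.e (nat_lit 172113) (nat_lit 10) (.e (nat_lit 434238) (nat_lit 25) (.e (nat_lit 548898) (nat_lit 14) (.e (nat_lit 2888) (nat_lit 184) .nil))))) .nil)))))) (.nd (nat_lit 3) (.nd (nat_lit 4) (.nd (nat_lit 5) (.nd (nat_lit 6) 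
(.lf (nat_lit 216711) (.g (nat_lit 2375) (.e (nat_lit 90170) (nat_lit 13) (.e (nat_lit 172106) (nat_lit 10) (.e (nat_lit 434244) (nat_lit 28) (.e (nat_lit 573474) (nat_lit 12) (.e (nat_lit 57348) (nat_lit 0) (.e (nat_lit 7122) (nat_lit 382) (.e (nat_lit 1296) (nat_lit 96) (.e (nat_lit 131093) (nat_lit 2) .nil)))))))) (.g (nat_lit 4) .nil .nil))) 
(.lf (nat_lit 216775) (.g (nat_lit 4982) (.e (nat_lit 90170) (nat_lit 13) (.e (nat_lit 172106) (nat_lit 10) (.e (nat_lit 434248) (nat_lit 28) (.e (nat_lit 573471) (nat_lit 11) (.e (nat_lit 16470) (nat_lit 14) (.e (nat_lit 491537) (nat_lit 2) .nil)))))) (.g (nat_lit 5) .nil .nil)))) (.nd (nat_lit 6) 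
(.lf (nat_lit 216743) (.g (nat_lit 3127) (.e (nat_lit 90170) (nat_lit 13) (.e (nat_lit 172106) (nat_lit 10) (.e (nat_lit 434244) (nat_lit 28) (.e (nat_lit 573474) (nat_lit 12) (.e (nat_lit 57569) (nat_lit 53) (.e (nat_lit 761867) (nat_lit 5) (.e (nat_lit 1413) (nat_lit 108) (.e (nat_lit 336013) (nat_lit 2) .nil)))))))) (.g (nat_lit 4) .nil .nil))) 
(.lf (nat_lit 216807) (.g (nat_lit 2539) (.e (nat_lit 90170) (nat_lit 13) (.e (nat_lit 172113) (nat_lit 10) (.e (nat_lit 434231) (nat_lit 23) (.e (nat_lit 532490) (nat_lit 0) (.e (nat_lit 6206) (nat_lit 333) .nil))))) .nil)))) (.nd (nat_lit 5) (.nd (nat_lit 6) 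
(.lf (nat_lit 216727) (.g (nat_lit 3173) (.e (nat_lit 90170) (nat_lit 13) (.e (nat_lit 172106) (nat_lit 10) (.e (nat_lit 434244) (nat_lit 28) (.e (nat_lit 573474) (nat_lit 12) (.e (nat_lit 57352) (nat_lit 0) (.e (nat_lit 7125) (nat_lit 382) (.e (nat_lit 1201) (nat_lit 88) (.e (nat_lit 65568) (nat_lit 2) .nil)))))))) (.g (nat_lit 4) .nil .nil))) 
(.lf (nat_lit 216791) (.g (nat_lit 1096) (.e (nat_lit 90170) (nat_lit 13) (.e (nat_lit 172113) (nat_lit 10) (.e (nat_lit 434208) (nat_lit 18) (.e (nat_lit 6595) (nat_lit 351) .nil)))) .nil))) (.nd (nat_lit 6) 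
(.lf (nat_lit 216759) (.g (nat_lit 3997) (.e (nat_lit 90170) (nat_lit 13) (.e (nat_lit 172106) (nat_lit 10) (.e (nat_lit 434244) (nat_lit 28) (.e (nat_lit 573475) (nat_lit 12) (.e (nat_lit 57572) (nat_lit 54) .nil))))) .nil)) 
(.lf (nat_lit 216823) (.g (nat_lit 677) (.e (nat_lit 90170) (nat_lit 13) (.e (nat_lit 172113) (nat_lit 10) (.e (nat_lit 434235) (nat_lit 24) .nil))) .nil))))) (.nd (nat_lit 4) (.nd (nat_lit 5) (.nd (nat_lit 6) 
(.lf (nat_lit 216719) (.g (nat_lit 2431) (.e (nat_lit 90170) (nat_lit 13) (.e (nat_lit 172106) (nat_lit 10) (.e (nat_lit 434244) (nat_lit 28) (.e (nat_lit 573474) (nat_lit 12) (.e (nat_lit 57351) (nat_lit 0) (.e (nat_lit 7122) (nat_lit 382) (.e (nat_lit 1296) (nat_lit 96) (.e (nat_lit 131091) (nat_lit 2) .nil)))))))) (.g (nat_lit 4) .nil .nil))) 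
(.lf (nat_lit 216783) (.g (nat_lit 2948) (.e (nat_lit 90170) (nat_lit 13) (.e (nat_lit 172113) (nat_lit 10) (.e (nat_lit 434203) (nat_lit 18) (.e (nat_lit 6420) (nat_lit 341) (.e (nat_lit 163843) (nat_lit 0) (.e (nat_lit 3605) (nat_lit 225) (.e (nat_lit 761905) (nat_lit 16) (.e (nat_lit 179968) (nat_lit 17) .nil)))))))) (.g (nat_lit 5) .nil .nil)))) (.nd (nat_lit 6) 
(.lf (nat_lit 216751) (.g (nat_lit 2235) (.e (nat_lit 90170) (nat_lit 13) (.e (nat_lit 172106) (nat_lit 10) (.e (nat_lit 434244) (nat_lit 28) (.e (nat_lit 573474) (nat_lit 12) (.e (nat_lit 57571) (nat_lit 54) (.e (nat_lit 770057) (nat_lit 5) (.e (nat_lit 1464) (nat_lit 108) (.e (nat_lit 336013) (nat_lit 2) .nil)))))))) (.g (nat_lit 4) .nil .nil))) 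
(.lf (nat_lit 216815) (.g (nat_lit 3008) (.e (nat_lit 90170) (nat_lit 13) (.e (nat_lit 172113) (nat_lit 10) (.e (nat_lit 434231) (nat_lit 23) (.e (nat_lit 532523) (nat_lit 7) (.e (nat_lit 319511) (nat_lit 10) .nil))))) .nil)))) (.nd (nat_lit 5) (.nd (nat_lit 6) 
(.lf (nat_lit 216735) (.g (nat_lit 2665) (.e (nat_lit 90170) (nat_lit 13) (.e (nat_lit 172106) (nat_lit 10) (.e (nat_lit 434244) (nat_lit 28) (.e (nat_lit 573474) (nat_lit 12) (.e (nat_lit 57353) (nat_lit 0) (.e (nat_lit 7125) (nat_lit 382) (.e (nat_lit 1296) (nat_lit 96) (.e (nat_lit 131091) (nat_lit 2) .nil)))))))) (.g (nat_lit 4) .nil .nil))) 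
(.lf (nat_lit 216799) (.g (nat_lit 2411) (.e (nat_lit 90170) (nat_lit 13) (.e (nat_lit 172113) (nat_lit 10) (.e (nat_lit 434231) (nat_lit 23) (.e (nat_lit 532490) (nat_lit 0) (.e (nat_lit 6092) (nat_lit 332) .nil))))) .nil))) (.nd (nat_lit 6) 
(.lf (nat_lit 216767) (.g (nat_lit 2163) (.e (nat_lit 90170) (nat_lit 13) (.e (nat_lit 172106) (nat_lit 10) (.e (nat_lit 434244) (nat_lit 28) (.e (nat_lit 573495) (nat_lit 16) .nil)))) .nil)) 
(.lf (nat_lit 216831) (.g (nat_lit 2081) (.e (nat_lit 90170) (nat_lit 13) (.e (nat_lit 172113) (nat_lit 10) (.e (nat_lit 434238) (nat_lit 25) (.e (nat_lit 548913) (nat_lit 18) (.e (nat_lit 172033) (nat_lit 0) (.e (nat_lit 7554) (nat_lit 402) (.e (nat_lit 1235) (nat_lit 91) .nil))))))) (.g (nat_lit 4) .nil .nil))))))))))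

noncomputable def tv2850 : DT := (.nd (nat_lit 0) (.nd (nat_lit 1) (.nd (nat_lit 2) (.nd (nat_lit 3) (.nd (nat_lit 4) (.nd (nat_lit 5) (.nd (nat_lit 6) 
(.lf (nat_lit 216832) (.g (nat_lit 3111) (.e (nat_lit 90170) (nat_lit 13) (.e (nat_lit 172113) (nat_lit 10) (.e (nat_lit 434238) (nat_lit 25) (.e (nat_lit 548913) (nat_lit 18) (.e (nat_lit 172034) (nat_lit 0) (.e (nat_lit 7541) (nat_lit 402) (.e (nat_lit 1234) (nat_lit 91) .nil))))))) (.g (nat_lit 4) .nil .nil))) 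
(.lf (nat_lit 216896) (.g (nat_lit 3189) (.e (nat_lit 90170) (nat_lit 13) (.e (nat_lit 172113) (nat_lit 10) (.e (nat_lit 434242) (nat_lit 28) (.e (nat_lit 573474) (nat_lit 12) (.e (nat_lit 57572) (nat_lit 54) (.e (nat_lit 770072) (nat_lit 8) (.e (nat_lit 65567) (nat_lit 2) .nil))))))) (.g (nat_lit 4) .nil .nil)))) (.nd (nat_lit 6) 
(.lf (nat_lit 216864) (.g (nat_lit 2567) (.e (nat_lit 90170) (nat_lit 13) (.e (nat_lit 172113) (nat_lit 10) (.e (nat_lit 434242) (nat_lit 28) (.e (nat_lit 573474) (nat_lit 12) (.e (nat_lit 57351) (nat_lit 0) (.e (nat_lit 7261) (nat_lit 384) (.e (nat_lit 57404) (nat_lit 12) (.e (nat_lit 336013) (nat_lit 2) .nil)))))))) (.g (nat_lit 4) .nil .nil))) 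
(.lf (nat_lit 216928) (.g (nat_lit 2033) (.e (nat_lit 90170) (nat_lit 13) (.e (nat_lit 172113) (nat_lit 10) (.e (nat_lit 434245) (nat_lit 28) (.e (nat_lit 573451) (nat_lit 9) (.e (nat_lit 1035) (nat_lit 81) .nil))))) .nil)))) (.nd (nat_lit 5) (.nd (nat_lit 6) 
(.lf (nat_lit 216848) (.g (nat_lit 2934) (.e (nat_lit 90170) (nat_lit 13) (.e (nat_lit 172113) (nat_lit 10) (.e (nat_lit 434242) (nat_lit 28) (.e (nat_lit 573474) (nat_lit 12) (.e (nat_lit 57347) (nat_lit 0) (.e (nat_lit 7119) (nat_lit 382) (.e (nat_lit 1296) (nat_lit 96) (.e (nat_lit 131093) (nat_lit 2) .nil)))))))) (.g (nat_lit 4) .nil .nil))) 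
(.lf (nat_lit 216912) (.g (nat_lit 1981) (.e (nat_lit 90170) (nat_lit 13) (.e (nat_lit 172113) (nat_lit 10) (.e (nat_lit 434245) (nat_lit 28) (.e (nat_lit 573451) (nat_lit 9) (.e (nat_lit 11) (nat_lit 0) .nil))))) .nil))) (.nd (nat_lit 6) 
(.lf (nat_lit 216880) (.g (nat_lit 2832) (.e (nat_lit 90170) (nat_lit 13) (.e (nat_lit 172113) (nat_lit 10) (.e (nat_lit 434242) (nat_lit 28) (.e (nat_lit 573474) (nat_lit 12) (.e (nat_lit 57568) (nat_lit 53) (.e (nat_lit 761866) (nat_lit 5) (.e (nat_lit 1454) (nat_lit 108) (.e (nat_lit 336013) (nat_lit 2) .nil)))))))) (.g (nat_lit 4) .nil .nil))) 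
(.lf (nat_lit 216944) (.g (nat_lit 2463) (.e (nat_lit 90170) (nat_lit 13) (.e (nat_lit 172113) (nat_lit 10) (.e (nat_lit 434245) (nat_lit 28) (.e (nat_lit 573471) (nat_lit 11) (.e (nat_lit 16389) (nat_lit 0) (.e (nat_lit 7936) (nat_lit 402) (.e (nat_lit 1239) (nat_lit 91) .nil))))))) (.g (nat_lit 4) .nil .nil)))))) (.nd (nat_lit 4) (.nd (nat_lit 5) (.nd (nat_lit 6) 
(.lf (nat_lit 216840) (.g (nat_lit 1933) (.e (nat_lit 90170) (nat_lit 13) (.e (nat_lit 172113) (nat_lit 10) (.e (nat_lit 434242) (nat_lit 28) (.e (nat_lit 573451) (nat_lit 9) (.e (nat_lit 16) (nat_lit 0) (.e (nat_lit 7088) (nat_lit 379) (.e (nat_lit 123202) (nat_lit 270) (.e (nat_lit 1239) (nat_lit 91) .nil)))))))) (.g (nat_lit 4) .nil .nil))) 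
(.lf (nat_lit 216904) (.g (nat_lit 372) (.e (nat_lit 90170) (nat_lit 13) (.e (nat_lit 172113) (nat_lit 10) (.e (nat_lit 434245) (nat_lit 28) .nil))) .nil))) (.nd (nat_lit 6) 
(.lf (nat_lit 216872) (.g (nat_lit 2546) (.e (nat_lit 90170) (nat_lit 13) (.e (nat_lit 172113) (nat_lit 10) (.e (nat_lit 434242) (nat_lit 28) (.e (nat_lit 573474) (nat_lit 12) (.e (nat_lit 57353) (nat_lit 0) (.e (nat_lit 7125) (nat_lit 382) (.e (nat_lit 1201) (nat_lit 88) (.e (nat_lit 65566) (nat_lit 2) .nil)))))))) (.g (nat_lit 4) .nil .nil))) 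
(.lf (nat_lit 216936) (.g (nat_lit 2575) (.e (nat_lit 90170) (nat_lit 13) (.e (nat_lit 172113) (nat_lit 10) (.e (nat_lit 434245) (nat_lit 28) (.e (nat_lit 573471) (nat_lit 11) (.e (nat_lit 16384) (nat_lit 0) (.e (nat_lit 7490) (nat_lit 402) (.e (nat_lit 1239) (nat_lit 91) .nil))))))) (.g (nat_lit 4) .nil .nil))))) (.nd (nat_lit 5) (.nd (nat_lit 6) 
(.lf (nat_lit 216856) (.g (nat_lit 2779) (.e (nat_lit 90170) (nat_lit 13) (.e (nat_lit 172113) (nat_lit 10) (.e (nat_lit 434242) (nat_lit 28) (.e (nat_lit 573474) (nat_lit 12) (.e (nat_lit 57348) (nat_lit 0) (.e (nat_lit 7125) (nat_lit 382) (.e (nat_lit 1193) (nat_lit 88) (.e (nat_lit 65566) (nat_lit 2) .nil)))))))) (.g (nat_lit 4) .nil .nil))) 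
(.lf (nat_lit 216920) (.g (nat_lit 2704) (.e (nat_lit 90170) (nat_lit 13) (.e (nat_lit 172113) (nat_lit 10) (.e (nat_lit 434245) (nat_lit 28) (.e (nat_lit 573451) (nat_lit 9) (.e (nat_lit 34) (nat_lit 0) (.e (nat_lit 7083) (nat_lit 379) (.e (nat_lit 123202) (nat_lit 270) (.e (nat_lit 1239) (nat_lit 91) .nil)))))))) (.g (nat_lit 4) .nil .nil)))) (.nd (nat_lit 6) 
(.lf (nat_lit 216888) (.g (nat_lit 3330) (.e (nat_lit 90170) (nat_lit 13) (.e (nat_lit 172113) (nat_lit 10) (.e (nat_lit 434242) (nat_lit 28) (.e (nat_lit 573474) (nat_lit 12) (.e (nat_lit 57569) (nat_lit 53) (.e (nat_lit 761866) (nat_lit 5) (.e (nat_lit 1454) (nat_lit 108) (.e (nat_lit 336008) (nat_lit 2) .nil)))))))) (.g (nat_lit 4) .nil .nil))) 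
(.lf (nat_lit 216952) (.g (nat_lit 2251) (.e (nat_lit 90170) (nat_lit 13) (.e (nat_lit 172113) (nat_lit 10) (.e (nat_lit 434245) (nat_lit 28) (.e (nat_lit 573471) (nat_lit 11) (.e (nat_lit 16397) (nat_lit 0) (.e (nat_lit 7554) (nat_lit 402) (.e (nat_lit 1235) (nat_lit 91) .nil))))))) (.g (nat_lit 4) .nil .nil))))))) (.nd (nat_lit 3) (.nd (nat_lit 4) (.nd (nat_lit 5) (.nd (nat_lit 6) 
(.lf (nat_lit 216836) (.g (nat_lit 2449) (.e (nat_lit 90170) (nat_lit 13) (.e (nat_lit 172113) (nat_lit 10) (.e (nat_lit 434238) (nat_lit 25) (.e (nat_lit 548913) (nat_lit 18) (.e (nat_lit 172041) (nat_lit 0) .nil))))) .nil)) 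
(.lf (nat_lit 216900) (.g (nat_lit 3424) (.e (nat_lit 90170) (nat_lit 13) (.e (nat_lit 172113) (nat_lit 10) (.e (nat_lit 434243) (nat_lit 28) (.e (nat_lit 573474) (nat_lit 12) (.e (nat_lit 57572) (nat_lit 54) (.e (nat_lit 770072) (nat_lit 8) (.e (nat_lit 65566) (nat_lit 2) .nil))))))) (.g (nat_lit 5) .nil .nil)))) (.nd (nat_lit 6) 
(.lf (nat_lit 216868) (.g (nat_lit 2824) (.e (nat_lit 90170) (nat_lit 13) (.e (nat_lit 172113) (nat_lit 10) (.e (nat_lit 434242) (nat_lit 28) (.e (nat_lit 573474) (nat_lit 12) (.e (nat_lit 57351) (nat_lit 0) (.e (nat_lit 7266) (nat_lit 384) (.e (nat_lit 57404) (nat_lit 12) (.e (nat_lit 336013) (nat_lit 2) .nil)))))))) (.g (nat_lit 4) .nil .nil))) 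
(.lf (nat_lit 216932) (.g (nat_lit 1992) (.e (nat_lit 90170) (nat_lit 13) (.e (nat_lit 172113) (nat_lit 10) (.e (nat_lit 434245) (nat_lit 28) (.e (nat_lit 573454) (nat_lit 9) (.e (nat_lit 410) (nat_lit 32) .nil))))) .nil)))) (.nd (nat_lit 5) (.nd (nat_lit 6) 
(.lf (nat_lit 216852) (.g (nat_lit 2729) (.e (nat_lit 90170) (nat_lit 13) (.e (nat_lit 172113) (nat_lit 10) (.e (nat_lit 434242) (nat_lit 28) (.e (nat_lit 573474) (nat_lit 12) (.e (nat_lit 57347) (nat_lit 0) (.e (nat_lit 7125) (nat_lit 382) (.e (nat_lit 1191) (nat_lit 88) (.e (nat_lit 65568) (nat_lit 2) .nil)))))))) (.g (nat_lit 4) .nil .nil))) 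
(.lf (nat_lit 216916) (.g (nat_lit 2795) (.e (nat_lit 90170) (nat_lit 13) (.e (nat_lit 172113) (nat_lit 10) (.e (nat_lit 434245) (nat_lit 28) (.e (nat_lit 573451) (nat_lit 9) (.e (nat_lit 13) (nat_lit 0) (.e (nat_lit 7079) (nat_lit 378) (.e (nat_lit 57884) (nat_lit 270) (.e (nat_lit 1232) (nat_lit 91) .nil)))))))) (.g (nat_lit 4) .nil .nil)))) (.nd (nat_lit 6) 
(.lf (nat_lit 216884) (.g (nat_lit 2397) (.e (nat_lit 90170) (nat_lit 13) (.e (nat_lit 172113) (nat_lit 10) (.e (nat_lit 434242) (nat_lit 28) (.e (nat_lit 573474) (nat_lit 12) (.e (nat_lit 57568) (nat_lit 53) (.e (nat_lit 761867) (nat_lit 5) (.e (nat_lit 1463) (nat_lit 108) (.e (nat_lit 336013) (nat_lit 2) .nil)))))))) (.g (nat_lit 4) .nil .nil))) 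
(.lf (nat_lit 216948) (.g (nat_lit 3245) (.e (nat_lit 90170) (nat_lit 13) (.e (nat_lit 172113) (nat_lit 10) (.e (nat_lit 434245) (nat_lit 28) (.e (nat_lit 573471) (nat_lit 11) (.e (nat_lit 16393) (nat_lit 0) (.e (nat_lit 7540) (nat_lit 402) (.e (nat_lit 1234) (nat_lit 91) .nil))))))) (.g (nat_lit 4) .nil .nil)))))) (.nd (nat_lit 4) (.nd (nat_lit 5) (.nd (nat_lit 6) 
(.lf (nat_lit 216844) (.g (nat_lit 2220) (.e (nat_lit 90170) (nat_lit 13) (.e (nat_lit 172113) (nat_lit 10) (.e (nat_lit 434242) (nat_lit 28) (.e (nat_lit 573473) (nat_lit 12) (.e (nat_lit 57569) (nat_lit 53) (.e (nat_lit 761866) (nat_lit 5) (.e (nat_lit 1463) (nat_lit 108) (.e (nat_lit 336013) (nat_lit 2) .nil)))))))) (.g (nat_lit 4) .nil .nil))) 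
(.lf (nat_lit 216908) (.g (nat_lit 1831) (.e (nat_lit 90170) (nat_lit 13) (.e (nat_lit 172113) (nat_lit 10) (.e (nat_lit 434245) (nat_lit 28) (.e (nat_lit 573449) (nat_lit 9) (.e (nat_lit 471) (nat_lit 36) .nil))))) .nil))) (.nd (nat_lit 6) 
(.lf (nat_lit 216876) (.g (nat_lit 2813) (.e (nat_lit 90170) (nat_lit 13) (.e (nat_lit 172113) (nat_lit 10) (.e (nat_lit 434242) (nat_lit 28) (.e (nat_lit 573474) (nat_lit 12) (.e (nat_lit 57356) (nat_lit 0) (.e (nat_lit 7270) (nat_lit 385) (.e (nat_lit 122903) (nat_lit 12) (.e (nat_lit 336013) (nat_lit 2) .nil)))))))) (.g (nat_lit 4) .nil .nil))) 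
(.lf (nat_lit 216940) (.g (nat_lit 2006) (.e (nat_lit 90170) (nat_lit 13) (.e (nat_lit 172113) (nat_lit 10) (.e (nat_lit 434245) (nat_lit 28) (.e (nat_lit 573471) (nat_lit 11) (.e (nat_lit 16385) (nat_lit 0) (.e (nat_lit 7562) (nat_lit 402) (.e (nat_lit 1235) (nat_lit 91) .nil))))))) (.g (nat_lit 4) .nil .nil))))) (.nd (nat_lit 5) (.nd (nat_lit 6) 
(.lf (nat_lit 216860) (.g (nat_lit 2955) (.e (nat_lit 90170) (nat_lit 13) (.e (nat_lit 172113) (nat_lit 10) (.e (nat_lit 434242) (nat_lit 28) (.e (nat_lit 573474) (nat_lit 12) (.e (nat_lit 57351) (nat_lit 0) (.e (nat_lit 7122) (nat_lit 382) (.e (nat_lit 1201) (nat_lit 88) (.e (nat_lit 65566) (nat_lit 2) .nil)))))))) (.g (nat_lit 4) .nil .nil))) 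
(.lf (nat_lit 216924) (.g (nat_lit 2213) (.e (nat_lit 90170) (nat_lit 13) (.e (nat_lit 172113) (nat_lit 10) (.e (nat_lit 434245) (nat_lit 28) (.e (nat_lit 573451) (nat_lit 9) (.e (nat_lit 63) (nat_lit 0) .nil))))) .nil))) (.nd (nat_lit 6) 
(.lf (nat_lit 216892) (.g (nat_lit 3249) (.e (nat_lit 90170) (nat_lit 13) (.e (nat_lit 172113) (nat_lit 10) (.e (nat_lit 434242) (nat_lit 28) (.e (nat_lit 573474) (nat_lit 12) (.e (nat_lit 57570) (nat_lit 54) (.e (nat_lit 770072) (nat_lit 8) (.e (nat_lit 65566) (nat_lit 2) .nil))))))) (.g (nat_lit 4) .nil .nil))) 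
(.lf (nat_lit 216956) (.g (nat_lit 1058) (.e (nat_lit 90170) (nat_lit 13) (.e (nat_lit 172113) (nat_lit 10) (.e (nat_lit 434245) (nat_lit 28) (.e (nat_lit 573473) (nat_lit 12) .nil)))) .nil))))))) (.nd (nat_lit 2) (.nd (nat_lit 3) (.nd (nat_lit 4) (.nd (nat_lit 5) (.nd (nat_lit 6) 
(.lf (nat_lit 216834) (.g (nat_lit 2409) (.e (nat_lit 90170) (nat_lit 13) (.e (nat_lit 172113) (nat_lit 10) (.e (nat_lit 434238) (nat_lit 25) (.e (nat_lit 548913) (nat_lit 18) (.e (nat_lit 172036) (nat_lit 0) .nil))))) .nil)) 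
(.lf (nat_lit 216898) (.g (nat_lit 1855) (.e (nat_lit 90170) (nat_lit 13) (.e (nat_lit 172113) (nat_lit 10) (.e (nat_lit 434242) (nat_lit 28) (.e (nat_lit 573475) (nat_lit 12) (.e (nat_lit 57572) (nat_lit 54) .nil))))) .nil))) (.nd (nat_lit 6) 
(.lf (nat_lit 216866) (.g (nat_lit 2584) (.e (nat_lit 90170) (nat_lit 13) (.e (nat_lit 172113) (nat_lit 10) (.e (nat_lit 434242) (nat_lit 28) (.e (nat_lit 573474) (nat_lit 12) (.e (nat_lit 57351) (nat_lit 0) (.e (nat_lit 7265) (nat_lit 384) (.e (nat_lit 57347) (nat_lit 0) (.e (nat_lit 6481) (nat_lit 343) (.e (nat_lit 1234) (nat_lit 91) .nil))))))))) (.g (nat_lit 4) .nil .nil))) 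
(.lf (nat_lit 216930) (.g (nat_lit 2165) (.e (nat_lit 90170) (nat_lit 13) (.e (nat_lit 172113) (nat_lit 10) (.e (nat_lit 434245) (nat_lit 28) (.e (nat_lit 573451) (nat_lit 9) (.e (nat_lit 1310) (nat_lit 98) .nil))))) .nil)))) (.nd (nat_lit 5) (.nd (nat_lit 6) 
(.lf (nat_lit 216850) (.g (nat_lit 2645) (.e (nat_lit 90170) (nat_lit 13) (.e (nat_lit 172113) (nat_lit 10) (.e (nat_lit 434242) (nat_lit 28) (.e (nat_lit 573474) (nat_lit 12) (.e (nat_lit 57347) (nat_lit 0) (.e (nat_lit 7124) (nat_lit 382) (.e (nat_lit 1016) (nat_lit 81) (.e (nat_lit 1464) (nat_lit 108) (.e (nat_lit 336013) (nat_lit 2) .nil))))))))) (.g (nat_lit 4) .nil .nil))) 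
(.lf (nat_lit 216914) (.g (nat_lit 2938) (.e (nat_lit 90170) (nat_lit 13) (.e (nat_lit 172113) (nat_lit 10) (.e (nat_lit 434245) (nat_lit 28) (.e (nat_lit 573451) (nat_lit 9) (.e (nat_lit 11) (nat_lit 0) (.e (nat_lit 7081) (nat_lit 378) (.e (nat_lit 57884) (nat_lit 270) (.e (nat_lit 1232) (nat_lit 91) .nil)))))))) (.g (nat_lit 4) .nil .nil)))) (.nd (nat_lit 6) 
(.lf (nat_lit 216882) (.g (nat_lit 2566) (.e (nat_lit 90170) (nat_lit 13) (.e (nat_lit 172113) (nat_lit 10) (.e (nat_lit 434242) (nat_lit 28) (.e (nat_lit 573474) (nat_lit 12) (.e (nat_lit 57568) (nat_lit 53) (.e (nat_lit 761867) (nat_lit 5) (.e (nat_lit 1413) (nat_lit 108) (.e (nat_lit 336013) (nat_lit 2) .nil)))))))) (.g (nat_lit 4) .nil .nil))) 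
(.lf (nat_lit 216946) (.g (nat_lit 3486) (.e (nat_lit 90170) (nat_lit 13) (.e (nat_lit 172113) (nat_lit 10) (.e (nat_lit 434245) (nat_lit 28) (.e (nat_lit 573471) (nat_lit 11) (.e (nat_lit 16392) (nat_lit 0) (.e (nat_lit 7535) (nat_lit 402) (.e (nat_lit 1232) (nat_lit 91) .nil))))))) (.g (nat_lit 5) .nil .nil)))))) (.nd (nat_lit 4) (.nd (nat_lit 5) (.nd (nat_lit 6) 
(.lf (nat_lit 216842) (.g (nat_lit 2002) (.e (nat_lit 90170) (nat_lit 13) (.e (nat_lit 172113) (nat_lit 10) (.e (nat_lit 434242) (nat_lit 28) (.e (nat_lit 573471) (nat_lit 11) (.e (nat_lit 16392) (nat_lit 0) .nil))))) .nil)) 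
(.lf (nat_lit 216906) (.g (nat_lit 1739) (.e (nat_lit 90170) (nat_lit 13) (.e (nat_lit 172113) (nat_lit 10) (.e (nat_lit 434245) (nat_lit 28) (.e (nat_lit 573449) (nat_lit 9) (.e (nat_lit 377) (nat_lit 32) .nil))))) .nil))) (.nd (nat_lit 6) 
(.lf (nat_lit 216874) (.g (nat_lit 2658) (.e (nat_lit 90170) (nat_lit 13) (.e (nat_lit 172113) (nat_lit 10) (.e (nat_lit 434242) (nat_lit 28) (.e (nat_lit 573474) (nat_lit 12) (.e (nat_lit 57353) (nat_lit 0) (.e (nat_lit 7125) (nat_lit 382) (.e (nat_lit 1296) (nat_lit 96) (.e (nat_lit 131093) (nat_lit 2) .nil)))))))) (.g (nat_lit 4) .nil .nil))) 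
(.lf (nat_lit 216938) (.g (nat_lit 2414) (.e (nat_lit 90170) (nat_lit 13) (.e (nat_lit 172113) (nat_lit 10) (.e (nat_lit 434245) (nat_lit 28) (.e (nat_lit 573471) (nat_lit 11) (.e (nat_lit 16384) (nat_lit 0) (.e (nat_lit 7548) (nat_lit 402) (.e (nat_lit 1235) (nat_lit 91) .nil))))))) (.g (nat_lit 4) .nil .nil))))) (.nd (nat_lit 5) (.nd (nat_lit 6) 
(.lf (nat_lit 216858) (.g (nat_lit 2817) (.e (nat_lit 90170) (nat_lit 13) (.e (nat_lit 172113) (nat_lit 10) (.e (nat_lit 434242) (nat_lit 28) (.e (nat_lit 573474) (nat_lit 12) (.e (nat_lit 57348) (nat_lit 0) (.e (nat_lit 7125) (nat_lit 382) (.e (nat_lit 1296) (nat_lit 96) (.e (nat_lit 131090) (nat_lit 2) .nil)))))))) (.g (nat_lit 4) .nil .nil))) 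
(.lf (nat_lit 216922) (.g (nat_lit 2473) (.e (nat_lit 90170) (nat_lit 13) (.e (nat_lit 172113) (nat_lit 10) (.e (nat_lit 434245) (nat_lit 28) (.e (nat_lit 573451) (nat_lit 9) (.e (nat_lit 61) (nat_lit 0) (.e (nat_lit 7087) (nat_lit 379) (.e (nat_lit 123202) (nat_lit 270) (.e (nat_lit 1239) (nat_lit 91) .nil)))))))) (.g (nat_lit 4) .nil .nil)))) (.nd (nat_lit 6) 
(.lf (nat_lit 216890) (.g (nat_lit 2946) (.e (nat_lit 90170) (nat_lit 13) (.e (nat_lit 172113) (nat_lit 10) (.e (nat_lit 434242) (nat_lit 28) (.e (nat_lit 573474) (nat_lit 12) (.e (nat_lit 57569) (nat_lit 53) (.e (nat_lit 761869) (nat_lit 5) (.e (nat_lit 1413) (nat_lit 108) (.e (nat_lit 336013) (nat_lit 2) .nil)))))))) (.g (nat_lit 4) .nil .nil))) 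
(.lf (nat_lit 216954) (.g (nat_lit 2860) (.e (nat_lit 90170) (nat_lit 13) (.e (nat_lit 172113) (nat_lit 10) (.e (nat_lit 434245) (nat_lit 28) (.e (nat_lit 573471) (nat_lit 11) (.e (nat_lit 16406) (nat_lit 1) .nil))))) .nil)))))) (.nd (nat_lit 3) (.nd (nat_lit 4) (.nd (nat_lit 5) (.nd (nat_lit 6) 
(.lf (nat_lit 216838) (.g (nat_lit 1865) (.e (nat_lit 90170) (nat_lit 13) (.e (nat_lit 172113) (nat_lit 10) (.e (nat_lit 434242) (nat_lit 28) (.e (nat_lit 573451) (nat_lit 9) (.e (nat_lit 16) (nat_lit 0) (.e (nat_lit 7086) (nat_lit 379) (.e (nat_lit 123202) (nat_lit 270) (.e (nat_lit 1239) (nat_lit 91) .nil)))))))) (.g (nat_lit 4) .nil .nil))) 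
(.lf (nat_lit 216902) (.g (nat_lit 1352) (.e (nat_lit 90170) (nat_lit 13) (.e (nat_lit 172113) (nat_lit 10) (.e (nat_lit 434244) (nat_lit 28) (.e (nat_lit 573450) (nat_lit 9) .nil)))) .nil))) (.nd (nat_lit 6) 
(.lf (nat_lit 216870) (.g (nat_lit 2461) (.e (nat_lit 90170) (nat_lit 13) (.e (nat_lit 172113) (nat_lit 10) (.e (nat_lit 434242) (nat_lit 28) (.e (nat_lit 573474) (nat_lit 12) (.e (nat_lit 57353) (nat_lit 0) (.e (nat_lit 7124) (nat_lit 382) (.e (nat_lit 1201) (nat_lit 88) (.e (nat_lit 65568) (nat_lit 2) .nil)))))))) (.g (nat_lit 4) .nil .nil))) 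
(.lf (nat_lit 216934) (.g (nat_lit 974) (.e (nat_lit 90170) (nat_lit 13) (.e (nat_lit 172113) (nat_lit 10) (.e (nat_lit 434245) (nat_lit 28) (.e (nat_lit 573468) (nat_lit 10) .nil)))) .nil)))) (.nd (nat_lit 5) (.nd (nat_lit 6) 
(.lf (nat_lit 216854) (.g (nat_lit 2271) (.e (nat_lit 90170) (nat_lit 13) (.e (nat_lit 172113) (nat_lit 10) (.e (nat_lit 434242) (nat_lit 28) (.e (nat_lit 573474) (nat_lit 12) (.e (nat_lit 57348) (nat_lit 0) .nil))))) .nil)) 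
(.lf (nat_lit 216918) (.g (nat_lit 2761) (.e (nat_lit 90170) (nat_lit 13) (.e (nat_lit 172113) (nat_lit 10) (.e (nat_lit 434245) (nat_lit 28) (.e (nat_lit 573451) (nat_lit 9) (.e (nat_lit 18) (nat_lit 0) (.e (nat_lit 7086) (nat_lit 379) (.e (nat_lit 123202) (nat_lit 270) (.e (nat_lit 1239) (nat_lit 91) .nil)))))))) (.g (nat_lit 4) .nil .nil)))) (.nd (nat_lit 6) 
(.lf (nat_lit 216886) (.g (nat_lit 2576) (.e (nat_lit 90170) (nat_lit 13) (.e (nat_lit 172113) (nat_lit 10) (.e (nat_lit 434242) (nat_lit 28) (.e (nat_lit 573474) (nat_lit 12) (.e (nat_lit 57568) (nat_lit 53) (.e (nat_lit 761869) (nat_lit 5) (.e (nat_lit 1463) (nat_lit 108) (.e (nat_lit 336013) (nat_lit 2) .nil)))))))) (.g (nat_lit 4) .nil .nil))) 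
(.lf (nat_lit 216950) (.g (nat_lit 1841) (.e (nat_lit 90170) (nat_lit 13) (.e (nat_lit 172113) (nat_lit 10) (.e (nat_lit 434245) (nat_lit 28) (.e (nat_lit 573471) (nat_lit 11) (.e (nat_lit 16396) (nat_lit 0) .nil))))) .nil))))) (.nd (nat_lit 4) (.nd (nat_lit 5) (.nd (nat_lit 6) 
(.lf (nat_lit 216846) (.g (nat_lit 2985) (.e (nat_lit 90170) (nat_lit 13) (.e (nat_lit 172113) (nat_lit 10) (.e (nat_lit 434242) (nat_lit 28) (.e (nat_lit 573473) (nat_lit 12) (.e (nat_lit 57572) (nat_lit 54) (.e (nat_lit 770072) (nat_lit 8) (.e (nat_lit 65566) (nat_lit 2) .nil))))))) (.g (nat_lit 5) .nil .nil))) 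
(.lf (nat_lit 216910) (.g (nat_lit 3161) (.e (nat_lit 90170) (nat_lit 13) (.e (nat_lit 172113) (nat_lit 10) (.e (nat_lit 434245) (nat_lit 28) (.e (nat_lit 573450) (nat_lit 9) (.e (nat_lit 375) (nat_lit 32) (.e (nat_lit 426005) (nat_lit 0) (.e (nat_lit 7541) (nat_lit 402) (.e (nat_lit 1234) (nat_lit 91) .nil)))))))) (.g (nat_lit 5) .nil .nil)))) (.nd (nat_lit 6) 
(.lf (nat_lit 216878) (.g (nat_lit 2663) (.e (nat_lit 90170) (nat_lit 13) (.e (nat_lit 172113) (nat_lit 10) (.e (nat_lit 434242) (nat_lit 28) (.e (nat_lit 573474) (nat_lit 12) (.e (nat_lit 57356) (nat_lit 0) (.e (nat_lit 7272) (nat_lit 385) (.e (nat_lit 122903) (nat_lit 12) (.e (nat_lit 336013) (nat_lit 2) .nil)))))))) (.g (nat_lit 4) .nil .nil))) 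
(.lf (nat_lit 216942) (.g (nat_lit 2161) (.e (nat_lit 90170) (nat_lit 13) (.e (nat_lit 172113) (nat_lit 10) (.e (nat_lit 434245) (nat_lit 28) (.e (nat_lit 573471) (nat_lit 11) (.e (nat_lit 16388) (nat_lit 0) (.e (nat_lit 7936) (nat_lit 402) (.e (nat_lit 1239) (nat_lit 91) .nil))))))) (.g (nat_lit 4) .nil .nil))))) (.nd (nat_lit 5) (.nd (nat_lit 6) 
(.lf (nat_lit 216862) (.g (nat_lit 3000) (.e (nat_lit 90170) (nat_lit 13) (.e (nat_lit 172113) (nat_lit 10) (.e (nat_lit 434242) (nat_lit 28) (.e (nat_lit 573474) (nat_lit 12) (.e (nat_lit 57351) (nat_lit 0) (.e (nat_lit 7125) (nat_lit 382) (.e (nat_lit 1201) (nat_lit 88) (.e (nat_lit 65566) (nat_lit 2) .nil)))))))) (.g (nat_lit 4) .nil .nil))) 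
(.lf (nat_lit 216926) (.g (nat_lit 2125) (.e (nat_lit 90170) (nat_lit 13) (.e (nat_lit 172113) (nat_lit 10) (.e (nat_lit 434245) (nat_lit 28) (.e (nat_lit 573451) (nat_lit 9) (.e (nat_lit 396) (nat_lit 32) .nil))))) .nil))) (.nd (nat_lit 6) 
(.lf (nat_lit 216894) (.g (nat_lit 2795) (.e (nat_lit 90170) (nat_lit 13) (.e (nat_lit 172113) (nat_lit 10) (.e (nat_lit 434242) (nat_lit 28) (.e (nat_lit 573474) (nat_lit 12) (.e (nat_lit 57571) (nat_lit 54) (.e (nat_lit 770071) (nat_lit 8) (.e (nat_lit 65568) (nat_lit 2) .nil))))))) (.g (nat_lit 4) .nil .nil))) 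
(.lf (nat_lit 216958) (.g (nat_lit 3669) (.e (nat_lit 90170) (nat_lit 13) (.e (nat_lit 172113) (nat_lit 10) (.e (nat_lit 434245) (nat_lit 28) (.e (nat_lit 573473) (nat_lit 12) (.e (nat_lit 57347) (nat_lit 0) (.e (nat_lit 7124) (nat_lit 382) (.e (nat_lit 1201) (nat_lit 88) (.e (nat_lit 65566) (nat_lit 2) .nil)))))))) (.g (nat_lit 5) .nil .nil))))))))) 
(.nd (nat_lit 1) (.nd (nat_lit 2) (.nd (nat_lit 3) (.nd (nat_lit 4) (.nd (nat_lit 5) 
(.nd (nat_lit 6) 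
(.lf (nat_lit 216833) (.g (nat_lit 2333) (.e (nat_lit 90170) (nat_lit 13) (.e (nat_lit 172113) (nat_lit 10) (.e (nat_lit 434238) (nat_lit 25) (.e (nat_lit 548913) (nat_lit 18) (.e (nat_lit 172035) (nat_lit 0) .nil))))) .nil)) 
(.lf (nat_lit 216897) (.g (nat_lit 3010) (.e (nat_lit 90170) (nat_lit 13) (.e (nat_lit 172113) (nat_lit 10) (.e (nat_lit 434242) (nat_lit 28) (.e (nat_lit 573474) (nat_lit 12) (.e (nat_lit 57574) (nat_lit 55) (.e (nat_lit 778361) (nat_lit 9) (.e (nat_lit 225) (nat_lit 21) (.e (nat_lit 336013) (nat_lit 2) .nil)))))))) (.g (nat_lit 4) .nil .nil)))) (.nd (nat_lit 6) 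
(.lf (nat_lit 216865) (.g (nat_lit 2538) (.e (nat_lit 90170) (nat_lit 13) (.e (nat_lit 172113) (nat_lit 10) (.e (nat_lit 434242) (nat_lit 28) (.e (nat_lit 573474) (nat_lit 12) (.e (nat_lit 57351) (nat_lit 0) (.e (nat_lit 7263) (nat_lit 384) (.e (nat_lit 57404) (nat_lit 12) (.e (nat_lit 336013) (nat_lit 2) .nil)))))))) (.g (nat_lit 4) .nil .nil))) 
(.lf (nat_lit 216929) (.g (nat_lit 2226) (.e (nat_lit 90170) (nat_lit 13) (.e (nat_lit 172113) (nat_lit 10) (.e (nat_lit 434245) (nat_lit 28) (.e (nat_lit 573451) (nat_lit 9) (.e (nat_lit 1177) (nat_lit 87) .nil))))) .nil)))) (.nd (nat_lit 5) (.nd (nat_lit 6) 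
(.lf (nat_lit 216849) (.g (nat_lit 3793) (.e (nat_lit 90170) (nat_lit 13) (.e (nat_lit 172113) (nat_lit 10) (.e (nat_lit 434242) (nat_lit 28) (.e (nat_lit 573474) (nat_lit 12) (.e (nat_lit 57347) (nat_lit 0) (.e (nat_lit 7122) (nat_lit 382) (.e (nat_lit 1201) (nat_lit 88) (.e (nat_lit 65566) (nat_lit 2) .nil)))))))) (.g (nat_lit 5) .nil .nil))) 
(.lf (nat_lit 216913) (.g (nat_lit 2773) (.e (nat_lit 90170) (nat_lit 13) (.e (nat_lit 172113) (nat_lit 10) (.e (nat_lit 434245) (nat_lit 28) (.e (nat_lit 573451) (nat_lit 9) (.e (nat_lit 11) (nat_lit 0) (.e (nat_lit 7077) (nat_lit 378) (.e (nat_lit 57884) (nat_lit 270) (.e (nat_lit 1232) (nat_lit 91) .nil)))))))) (.g (nat_lit 4) .nil .nil)))) (.nd (nat_lit 6) 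
(.lf (nat_lit 216881) (.g (nat_lit 2530) (.e (nat_lit 90170) (nat_lit 13) (.e (nat_lit 172113) (nat_lit 10) (.e (nat_lit 434242) (nat_lit 28) (.e (nat_lit 573474) (nat_lit 12) (.e (nat_lit 57568) (nat_lit 53) (.e (nat_lit 761866) (nat_lit 5) (.e (nat_lit 1463) (nat_lit 108) (.e (nat_lit 336013) (nat_lit 2) .nil)))))))) (.g (nat_lit 4) .nil .nil))) 
(.lf (nat_lit 216945) (.g (nat_lit 1820) (.e (nat_lit 90170) (nat_lit 13) (.e (nat_lit 172113) (nat_lit 10) (.e (nat_lit 434245) (nat_lit 28) (.e (nat_lit 573471) (nat_lit 11) (.e (nat_lit 16392) (nat_lit 0) .nil))))) .nil))))) (.nd (nat_lit 4) (.nd (nat_lit 5) (.nd (nat_lit 6) 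
(.lf (nat_lit 216841) (.g (nat_lit 1931) (.e (nat_lit 90170) (nat_lit 13) (.e (nat_lit 172113) (nat_lit 10) (.e (nat_lit 434242) (nat_lit 28) (.e (nat_lit 573451) (nat_lit 9) (.e (nat_lit 16) (nat_lit 0) (.e (nat_lit 7089) (nat_lit 379) (.e (nat_lit 123202) (nat_lit 270) (.e (nat_lit 1239) (nat_lit 91) .nil)))))))) (.g (nat_lit 4) .nil .nil))) 
(.lf (nat_lit 216905) (.g (nat_lit 953) (.e (nat_lit 90170) (nat_lit 13) (.e (nat_lit 172113) (nat_lit 10) (.e (nat_lit 434245) (nat_lit 28) (.e (nat_lit 573449) (nat_lit 9) .nil)))) .nil))) (.nd (nat_lit 6) 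
(.lf (nat_lit 216873) (.g (nat_lit 2845) (.e (nat_lit 90170) (nat_lit 13) (.e (nat_lit 172113) (nat_lit 10) (.e (nat_lit 434242) (nat_lit 28) (.e (nat_lit 573474) (nat_lit 12) (.e (nat_lit 57353) (nat_lit 0) (.e (nat_lit 7125) (nat_lit 382) (.e (nat_lit 1201) (nat_lit 88) (.e (nat_lit 65568) (nat_lit 2) .nil)))))))) (.g (nat_lit 4) .nil .nil))) 
(.lf (nat_lit 216937) (.g (nat_lit 2153) (.e (nat_lit 90170) (nat_lit 13) (.e (nat_lit 172113) (nat_lit 10) (.e (nat_lit 434245) (nat_lit 28) (.e (nat_lit 573471) (nat_lit 11) (.e (nat_lit 16384) (nat_lit 0) (.e (nat_lit 7523) (nat_lit 402) (.e (nat_lit 1235) (nat_lit 91) .nil))))))) (.g (nat_lit 4) .nil .nil))))) (.nd (nat_lit 5) (.nd (nat_lit 6) 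
(.lf (nat_lit 216857) (.g (nat_lit 3229) (.e (nat_lit 90170) (nat_lit 13) (.e (nat_lit 172113) (nat_lit 10) (.e (nat_lit 434242) (nat_lit 28) (.e (nat_lit 573474) (nat_lit 12) (.e (nat_lit 57348) (nat_lit 0) (.e (nat_lit 7125) (nat_lit 382) (.e (nat_lit 1201) (nat_lit 88) (.e (nat_lit 65567) (nat_lit 2) .nil)))))))) (.g (nat_lit 4) .nil .nil))) 
(.lf (nat_lit 216921) (.g (nat_lit 2213) (.e (nat_lit 90170) (nat_lit 13) (.e (nat_lit 172113) (nat_lit 10) (.e (nat_lit 434245) (nat_lit 28) (.e (nat_lit 573451) (nat_lit 9) (.e (nat_lit 59) (nat_lit 0) .nil))))) .nil))) (.nd (nat_lit 6) 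
(.lf (nat_lit 216889) (.g (nat_lit 2922) (.e (nat_lit 90170) (nat_lit 13) (.e (nat_lit 172113) (nat_lit 10) (.e (nat_lit 434242) (nat_lit 28) (.e (nat_lit 573474) (nat_lit 12) (.e (nat_lit 57569) (nat_lit 53) (.e (nat_lit 761867) (nat_lit 5) (.e (nat_lit 1454) (nat_lit 108) (.e (nat_lit 336008) (nat_lit 2) .nil)))))))) (.g (nat_lit 4) .nil .nil))) 
(.lf (nat_lit 216953) (.g (nat_lit 2764) (.e (nat_lit 90170) (nat_lit 13) (.e (nat_lit 172113) (nat_lit 10) (.e (nat_lit 434245) (nat_lit 28) (.e (nat_lit 573471) (nat_lit 11) (.e (nat_lit 16401) (nat_lit 0) (.e (nat_lit 7528) (nat_lit 402) (.e (nat_lit 1234) (nat_lit 91) .nil))))))) (.g (nat_lit 4) .nil .nil))))))) (.nd (nat_lit 3) (.nd (nat_lit 4) (.nd (nat_lit 5) (.nd (nat_lit 6) 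
(.lf (nat_lit 216837) (.g (nat_lit 198) (.e (nat_lit 90170) (nat_lit 13) (.e (nat_lit 172113) (nat_lit 10) (.e (nat_lit 434242) (nat_lit 28) .nil))) .nil)) 
(.lf (nat_lit 216901) (.g (nat_lit 677) (.e (nat_lit 90170) (nat_lit 13) (.e (nat_lit 172113) (nat_lit 10) (.e (nat_lit 434244) (nat_lit 28) .nil))) .nil))) (.nd (nat_lit 6) 
(.lf (nat_lit 216869) (.g (nat_lit 2257) (.e (nat_lit 90170) (nat_lit 13) (.e (nat_lit 172113) (nat_lit 10) (.e (nat_lit 434242) (nat_lit 28) (.e (nat_lit 573474) (nat_lit 12) (.e (nat_lit 57353) (nat_lit 0) .nil))))) .nil)) 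
(.lf (nat_lit 216933) (.g (nat_lit 1823) (.e (nat_lit 90170) (nat_lit 13) (.e (nat_lit 172113) (nat_lit 10) (.e (nat_lit 434245) (nat_lit 28) (.e (nat_lit 573467) (nat_lit 10) (.e (nat_lit 8497) (nat_lit 182) .nil))))) .nil)))) (.nd (nat_lit 5) (.nd (nat_lit 6) 
(.lf (nat_lit 216853) (.g (nat_lit 3034) (.e (nat_lit 90170) (nat_lit 13) (.e (nat_lit 172113) (nat_lit 10) (.e (nat_lit 434242) (nat_lit 28) (.e (nat_lit 573474) (nat_lit 12) (.e (nat_lit 57347) (nat_lit 0) (.e (nat_lit 7125) (nat_lit 382) (.e (nat_lit 1296) (nat_lit 96) (.e (nat_lit 131090) (nat_lit 2) .nil)))))))) (.g (nat_lit 4) .nil .nil))) 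
(.lf (nat_lit 216917) (.g (nat_lit 2520) (.e (nat_lit 90170) (nat_lit 13) (.e (nat_lit 172113) (nat_lit 10) (.e (nat_lit 434245) (nat_lit 28) (.e (nat_lit 573451) (nat_lit 9) (.e (nat_lit 18) (nat_lit 0) (.e (nat_lit 7083) (nat_lit 379) (.e (nat_lit 123202) (nat_lit 270) (.e (nat_lit 1239) (nat_lit 91) .nil)))))))) (.g (nat_lit 4) .nil .nil)))) (.nd (nat_lit 6) 
(.lf (nat_lit 216885) (.g (nat_lit 2440) (.e (nat_lit 90170) (nat_lit 13) (.e (nat_lit 172113) (nat_lit 10) (.e (nat_lit 434242) (nat_lit 28) (.e (nat_lit 573474) (nat_lit 12) (.e (nat_lit 57568) (nat_lit 53) (.e (nat_lit 761868) (nat_lit 5) (.e (nat_lit 1463) (nat_lit 108) (.e (nat_lit 336013) (nat_lit 2) .nil)))))))) (.g (nat_lit 4) .nil .nil))) 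
(.lf (nat_lit 216949) (.g (nat_lit 3231) (.e (nat_lit 90170) (nat_lit 13) (.e (nat_lit 172113) (nat_lit 10) (.e (nat_lit 434245) (nat_lit 28) (.e (nat_lit 573471) (nat_lit 11) (.e (nat_lit 16395) (nat_lit 0) (.e (nat_lit 7936) (nat_lit 402) (.e (nat_lit 1239) (nat_lit 91) .nil))))))) (.g (nat_lit 4) .nil .nil)))))) (.nd (nat_lit 4) (.nd (nat_lit 5) (.nd (nat_lit 6) 
(.lf (nat_lit 216845) (.g (nat_lit 2041) (.e (nat_lit 90170) (nat_lit 13) (.e (nat_lit 172113) (nat_lit 10) (.e (nat_lit 434242) (nat_lit 28) (.e (nat_lit 573473) (nat_lit 12) (.e (nat_lit 57572) (nat_lit 54) (.e (nat_lit 770071) (nat_lit 8) (.e (nat_lit 65566) (nat_lit 2) .nil))))))) (.g (nat_lit 4) .nil .nil))) 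
(.lf (nat_lit 216909) (.g (nat_lit 1720) (.e (nat_lit 90170) (nat_lit 13) (.e (nat_lit 172113) (nat_lit 10) (.e (nat_lit 434245) (nat_lit 28) (.e (nat_lit 573449) (nat_lit 9) (.e (nat_lit 1312) (nat_lit 98) .nil))))) .nil))) (.nd (nat_lit 6) 
(.lf (nat_lit 216877) (.g (nat_lit 2573) (.e (nat_lit 90170) (nat_lit 13) (.e (nat_lit 172113) (nat_lit 10) (.e (nat_lit 434242) (nat_lit 28) (.e (nat_lit 573474) (nat_lit 12) (.e (nat_lit 57356) (nat_lit 0) (.e (nat_lit 7271) (nat_lit 385) (.e (nat_lit 122903) (nat_lit 12) (.e (nat_lit 336013) (nat_lit 2) .nil)))))))) (.g (nat_lit 4) .nil .nil))) 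
(.lf (nat_lit 216941) (.g (nat_lit 2429) (.e (nat_lit 90170) (nat_lit 13) (.e (nat_lit 172113) (nat_lit 10) (.e (nat_lit 434245) (nat_lit 28) (.e (nat_lit 573471) (nat_lit 11) (.e (nat_lit 16385) (nat_lit 0) (.e (nat_lit 7936) (nat_lit 402) (.e (nat_lit 1239) (nat_lit 91) .nil))))))) (.g (nat_lit 4) .nil .nil))))) (.nd (nat_lit 5) (.nd (nat_lit 6) 
(.lf (nat_lit 216861) (.g (nat_lit 2718) (.e (nat_lit 90170) (nat_lit 13) (.e (nat_lit 172113) (nat_lit 10) (.e (nat_lit 434242) (nat_lit 28) (.e (nat_lit 573474) (nat_lit 12) (.e (nat_lit 57351) (nat_lit 0) (.e (nat_lit 7124) (nat_lit 382) (.e (nat_lit 1201) (nat_lit 88) (.e (nat_lit 65566) (nat_lit 2) .nil)))))))) (.g (nat_lit 4) .nil .nil))) 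
(.lf (nat_lit 216925) (.g (nat_lit 2959) (.e (nat_lit 90170) (nat_lit 13) (.e (nat_lit 172113) (nat_lit 10) (.e (nat_lit 434245) (nat_lit 28) (.e (nat_lit 573451) (nat_lit 9) (.e (nat_lit 67) (nat_lit 0) (.e (nat_lit 7083) (nat_lit 379) (.e (nat_lit 123202) (nat_lit 270) (.e (nat_lit 1239) (nat_lit 91) .nil)))))))) (.g (nat_lit 4) .nil .nil)))) (.nd (nat_lit 6) 
(.lf (nat_lit 216893) (.g (nat_lit 2284) (.e (nat_lit 90170) (nat_lit 13) (.e (nat_lit 172113) (nat_lit 10) (.e (nat_lit 434242) (nat_lit 28) (.e (nat_lit 573474) (nat_lit 12) (.e (nat_lit 57571) (nat_lit 54) (.e (nat_lit 770071) (nat_lit 8) (.e (nat_lit 65566) (nat_lit 2) .nil))))))) (.g (nat_lit 4) .nil .nil))) 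
(.lf (nat_lit 216957) (.g (nat_lit 2528) (.e (nat_lit 90170) (nat_lit 13) (.e (nat_lit 172113) (nat_lit 10) (.e (nat_lit 434245) (nat_lit 28) (.e (nat_lit 573473) (nat_lit 12) (.e (nat_lit 57347) (nat_lit 0) (.e (nat_lit 7122) (nat_lit 382) (.e (nat_lit 1201) (nat_lit 88) (.e (nat_lit 65566) (nat_lit 2) .nil)))))))) (.g (nat_lit 4) .nil .nil)))))))) 
(.nd (nat_lit 2) (.nd (nat_lit 3) (.nd (nat_lit 4) (.nd (nat_lit 5) (.nd (nat_lit 6) 
(.lf (nat_lit 216835) (.g (nat_lit 2831) (.e (nat_lit 90170) (nat_lit 13) (.e (nat_lit 172113) (nat_lit 10) (.e (nat_lit 434238) (nat_lit 25) (.e (nat_lit 548913) (nat_lit 18) (.e (nat_lit 172037) (nat_lit 0) (.e (nat_lit 7557) (nat_lit 402) (.e (nat_lit 1234) (nat_lit 91) .nil))))))) (.g (nat_lit 4) .nil .nil))) 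
(.lf (nat_lit 216899) (.g (nat_lit 3320) (.e (nat_lit 90170) (nat_lit 13) (.e (nat_lit 172113) (nat_lit 10) (.e (nat_lit 434243) (nat_lit 28) (.e (nat_lit 573474) (nat_lit 12) (.e (nat_lit 57572) (nat_lit 54) (.e (nat_lit 770057) (nat_lit 5) (.e (nat_lit 1464) (nat_lit 108) (.e (nat_lit 336013) (nat_lit 2) .nil)))))))) (.g (nat_lit 5) .nil .nil)))) (.nd (nat_lit 6) 
(.lf (nat_lit 216867) (.g (nat_lit 2638) (.e (nat_lit 90170) (nat_lit 13) (.e (nat_lit 172113) (nat_lit 10) (.e (nat_lit 434242) (nat_lit 28) (.e (nat_lit 573474) (nat_lit 12) (.e (nat_lit 57351) (nat_lit 0) (.e (nat_lit 7265) (nat_lit 384) (.e (nat_lit 57404) (nat_lit 12) (.e (nat_lit 336013) (nat_lit 2) .nil)))))))) (.g (nat_lit 4) .nil .nil))) 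
(.lf (nat_lit 216931) (.g (nat_lit 1135) (.e (nat_lit 90170) (nat_lit 13) (.e (nat_lit 172113) (nat_lit 10) (.e (nat_lit 434245) (nat_lit 28) (.e (nat_lit 573454) (nat_lit 9) .nil)))) .nil)))) (.nd (nat_lit 5) (.nd (nat_lit 6) 
(.lf (nat_lit 216851) (.g (nat_lit 3637) (.e (nat_lit 90170) (nat_lit 13) (.e (nat_lit 172113) (nat_lit 10) (.e (nat_lit 434242) (nat_lit 28) (.e (nat_lit 573474) (nat_lit 12) (.e (nat_lit 57347) (nat_lit 0) (.e (nat_lit 7124) (nat_lit 382) (.e (nat_lit 1296) (nat_lit 96) (.e (nat_lit 131094) (nat_lit 2) .nil)))))))) (.g (nat_lit 5) .nil .nil))) 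
(.lf (nat_lit 216915) (.g (nat_lit 2785) (.e (nat_lit 90170) (nat_lit 13) (.e (nat_lit 172113) (nat_lit 10) (.e (nat_lit 434245) (nat_lit 28) (.e (nat_lit 573451) (nat_lit 9) (.e (nat_lit 13) (nat_lit 0) (.e (nat_lit 7077) (nat_lit 378) (.e (nat_lit 57884) (nat_lit 270) (.e (nat_lit 1232) (nat_lit 91) .nil)))))))) (.g (nat_lit 4) .nil .nil)))) (.nd (nat_lit 6) 
(.lf (nat_lit 216883) (.g (nat_lit 2672) (.e (nat_lit 90170) (nat_lit 13) (.e (nat_lit 172113) (nat_lit 10) (.e (nat_lit 434242) (nat_lit 28) (.e (nat_lit 573474) (nat_lit 12) (.e (nat_lit 57568) (nat_lit 53) (.e (nat_lit 761867) (nat_lit 5) (.e (nat_lit 1454) (nat_lit 108) (.e (nat_lit 336013) (nat_lit 2) .nil)))))))) (.g (nat_lit 4) .nil .nil))) 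
(.lf (nat_lit 216947) (.g (nat_lit 2842) (.e (nat_lit 90170) (nat_lit 13) (.e (nat_lit 172113) (nat_lit 10) (.e (nat_lit 434245) (nat_lit 28) (.e (nat_lit 573471) (nat_lit 11) (.e (nat_lit 16392) (nat_lit 0) (.e (nat_lit 7936) (nat_lit 402) (.e (nat_lit 1232) (nat_lit 91) .nil))))))) (.g (nat_lit 4) .nil .nil)))))) (.nd (nat_lit 4) (.nd (nat_lit 5) (.nd (nat_lit 6) 
(.lf (nat_lit 216843) (.g (nat_lit 3234) (.e (nat_lit 90170) (nat_lit 13) (.e (nat_lit 172113) (nat_lit 10) (.e (nat_lit 434242) (nat_lit 28) (.e (nat_lit 573472) (nat_lit 12) (.e (nat_lit 57572) (nat_lit 54) (.e (nat_lit 770072) (nat_lit 8) (.e (nat_lit 65566) (nat_lit 2) .nil))))))) (.g (nat_lit 6) .nil .nil))) 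
(.lf (nat_lit 216907) (.g (nat_lit 1823) (.e (nat_lit 90170) (nat_lit 13) (.e (nat_lit 172113) (nat_lit 10) (.e (nat_lit 434245) (nat_lit 28) (.e (nat_lit 573449) (nat_lit 9) (.e (nat_lit 450) (nat_lit 33) .nil))))) .nil))) (.nd (nat_lit 6) 
(.lf (nat_lit 216875) (.g (nat_lit 2474) (.e (nat_lit 90170) (nat_lit 13) (.e (nat_lit 172113) (nat_lit 10) (.e (nat_lit 434242) (nat_lit 28) (.e (nat_lit 573474) (nat_lit 12) (.e (nat_lit 57353) (nat_lit 0) (.e (nat_lit 7266) (nat_lit 384) (.e (nat_lit 57404) (nat_lit 12) (.e (nat_lit 336013) (nat_lit 2) .nil)))))))) (.g (nat_lit 4) .nil .nil))) 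
(.lf (nat_lit 216939) (.g (nat_lit 2403) (.e (nat_lit 90170) (nat_lit 13) (.e (nat_lit 172113) (nat_lit 10) (.e (nat_lit 434245) (nat_lit 28) (.e (nat_lit 573471) (nat_lit 11) (.e (nat_lit 16384) (nat_lit 0) (.e (nat_lit 7936) (nat_lit 402) (.e (nat_lit 1239) (nat_lit 91) .nil))))))) (.g (nat_lit 4) .nil .nil))))) (.nd (nat_lit 5) (.nd (nat_lit 6) 
(.lf (nat_lit 216859) (.g (nat_lit 3019) (.e (nat_lit 90170) (nat_lit 13) (.e (nat_lit 172113) (nat_lit 10) (.e (nat_lit 434242) (nat_lit 28) (.e (nat_lit 573474) (nat_lit 12) (.e (nat_lit 57348) (nat_lit 0) (.e (nat_lit 7265) (nat_lit 384) (.e (nat_lit 65280) (nat_lit 12) (.e (nat_lit 336011) (nat_lit 2) .nil)))))))) (.g (nat_lit 4) .nil .nil))) 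
(.lf (nat_lit 216923) (.g (nat_lit 2580) (.e (nat_lit 90170) (nat_lit 13) (.e (nat_lit 172113) (nat_lit 10) (.e (nat_lit 434245) (nat_lit 28) (.e (nat_lit 573451) (nat_lit 9) (.e (nat_lit 61) (nat_lit 0) (.e (nat_lit 7089) (nat_lit 379) (.e (nat_lit 123202) (nat_lit 270) (.e (nat_lit 1239) (nat_lit 91) .nil)))))))) (.g (nat_lit 4) .nil .nil)))) (.nd (nat_lit 6) 
(.lf (nat_lit 216891) (.g (nat_lit 3079) (.e (nat_lit 90170) (nat_lit 13) (.e (nat_lit 172113) (nat_lit 10) (.e (nat_lit 434242) (nat_lit 28) (.e (nat_lit 573474) (nat_lit 12) (.e (nat_lit 57570) (nat_lit 54) (.e (nat_lit 770071) (nat_lit 8) (.e (nat_lit 65566) (nat_lit 2) .nil))))))) (.g (nat_lit 4) .nil .nil))) 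
(.lf (nat_lit 216955) (.g (nat_lit 1353) (.e (nat_lit 90170) (nat_lit 13) (.e (nat_lit 172113) (nat_lit 10) (.e (nat_lit 434245) (nat_lit 28) (.e (nat_lit 573472) (nat_lit 12) .nil)))) .nil)))))) (.nd (nat_lit 3) (.nd (nat_lit 4) (.nd (nat_lit 5) (.nd (nat_lit 6) 
(.lf (nat_lit 216839) (.g (nat_lit 1890) (.e (nat_lit 90170) (nat_lit 13) (.e (nat_lit 172113) (nat_lit 10) (.e (nat_lit 434242) (nat_lit 28) (.e (nat_lit 573451) (nat_lit 9) (.e (nat_lit 16) (nat_lit 0) (.e (nat_lit 7087) (nat_lit 379) (.e (nat_lit 123202) (nat_lit 270) (.e (nat_lit 1239) (nat_lit 91) .nil)))))))) (.g (nat_lit 4) .nil .nil))) 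
(.lf (nat_lit 216903) (.g (nat_lit 3202) (.e (nat_lit 90170) (nat_lit 13) (.e (nat_lit 172113) (nat_lit 10) (.e (nat_lit 434244) (nat_lit 28) (.e (nat_lit 573471) (nat_lit 11) (.e (nat_lit 16392) (nat_lit 0) .nil))))) .nil))) (.nd (nat_lit 6) 
(.lf (nat_lit 216871) (.g (nat_lit 2565) (.e (nat_lit 90170) (nat_lit 13) (.e (nat_lit 172113) (nat_lit 10) (.e (nat_lit 434242) (nat_lit 28) (.e (nat_lit 573474) (nat_lit 12) (.e (nat_lit 57353) (nat_lit 0) (.e (nat_lit 7124) (nat_lit 382) (.e (nat_lit 1296) (nat_lit 96) (.e (nat_lit 131093) (nat_lit 2) .nil)))))))) (.g (nat_lit 4) .nil .nil))) 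
(.lf (nat_lit 216935) (.g (nat_lit 1820) (.e (nat_lit 90170) (nat_lit 13) (.e (nat_lit 172113) (nat_lit 10) (.e (nat_lit 434245) (nat_lit 28) (.e (nat_lit 573468) (nat_lit 10) (.e (nat_lit 8496) (nat_lit 180) .nil))))) .nil)))) (.nd (nat_lit 5) (.nd (nat_lit 6) 
(.lf (nat_lit 216855) (.g (nat_lit 3212) (.e (nat_lit 90170) (nat_lit 13) (.e (nat_lit 172113) (nat_lit 10) (.e (nat_lit 434242) (nat_lit 28) (.e (nat_lit 573474) (nat_lit 12) (.e (nat_lit 57348) (nat_lit 0) (.e (nat_lit 7119) (nat_lit 382) (.e (nat_lit 1296) (nat_lit 96) (.e (nat_lit 131093) (nat_lit 2) .nil)))))))) (.g (nat_lit 4) .nil .nil))) 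
(.lf (nat_lit 216919) (.g (nat_lit 2733) (.e (nat_lit 90170) (nat_lit 13) (.e (nat_lit 172113) (nat_lit 10) (.e (nat_lit 434245) (nat_lit 28) (.e (nat_lit 573451) (nat_lit 9) (.e (nat_lit 18) (nat_lit 0) (.e (nat_lit 7087) (nat_lit 379) (.e (nat_lit 123202) (nat_lit 270) (.e (nat_lit 1239) (nat_lit 91) .nil)))))))) (.g (nat_lit 4) .nil .nil)))) (.nd (nat_lit 6) 
(.lf (nat_lit 216887) (.g (nat_lit 2859) (.e (nat_lit 90170) (nat_lit 13) (.e (nat_lit 172113) (nat_lit 10) (.e (nat_lit 434242) (nat_lit 28) (.e (nat_lit 573474) (nat_lit 12) (.e (nat_lit 57569) (nat_lit 53) (.e (nat_lit 761866) (nat_lit 5) (.e (nat_lit 1454) (nat_lit 108) (.e (nat_lit 336005) (nat_lit 2) .nil)))))))) (.g (nat_lit 4) .nil .nil))) 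
(.lf (nat_lit 216951) (.g (nat_lit 2021) (.e (nat_lit 90170) (nat_lit 13) (.e (nat_lit 172113) (nat_lit 10) (.e (nat_lit 434245) (nat_lit 28) (.e (nat_lit 573471) (nat_lit 11) (.e (nat_lit 16397) (nat_lit 0) .nil))))) .nil))))) (.nd (nat_lit 4) (.nd (nat_lit 5) (.nd (nat_lit 6) 
(.lf (nat_lit 216847) (.g (nat_lit 1865) (.e (nat_lit 90170) (nat_lit 13) (.e (nat_lit 172113) (nat_lit 10) (.e (nat_lit 434242) (nat_lit 28) (.e (nat_lit 573474) (nat_lit 12) (.e (nat_lit 57347) (nat_lit 0) .nil))))) .nil)) 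
(.lf (nat_lit 216911) (.g (nat_lit 1149) (.e (nat_lit 90170) (nat_lit 13) (.e (nat_lit 172113) (nat_lit 10) (.e (nat_lit 434245) (nat_lit 28) (.e (nat_lit 573451) (nat_lit 9) .nil)))) .nil))) (.nd (nat_lit 6) 
(.lf (nat_lit 216879) (.g (nat_lit 2535) (.e (nat_lit 90170) (nat_lit 13) (.e (nat_lit 172113) (nat_lit 10) (.e (nat_lit 434242) (nat_lit 28) (.e (nat_lit 573474) (nat_lit 12) (.e (nat_lit 57568) (nat_lit 53) (.e (nat_lit 761866) (nat_lit 5) (.e (nat_lit 1413) (nat_lit 108) (.e (nat_lit 336013) (nat_lit 2) .nil)))))))) (.g (nat_lit 4) .nil .nil))) 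
(.lf (nat_lit 216943) (.g (nat_lit 2583) (.e (nat_lit 90170) (nat_lit 13) (.e (nat_lit 172113) (nat_lit 10) (.e (nat_lit 434245) (nat_lit 28) (.e (nat_lit 573471) (nat_lit 11) (.e (nat_lit 16389) (nat_lit 0) (.e (nat_lit 7540) (nat_lit 402) (.e (nat_lit 1234) (nat_lit 91) .nil))))))) (.g (nat_lit 4) .nil .nil))))) (.nd (nat_lit 5) (.nd (nat_lit 6) 
(.lf (nat_lit 216863) (.g (nat_lit 3117) (.e (nat_lit 90170) (nat_lit 13) (.e (nat_lit 172113) (nat_lit 10) (.e (nat_lit 434242) (nat_lit 28) (.e (nat_lit 573474) (nat_lit 12) (.e (nat_lit 57351) (nat_lit 0) (.e (nat_lit 7125) (nat_lit 382) (.e (nat_lit 1296) (nat_lit 96) (.e (nat_lit 131093) (nat_lit 2) .nil)))))))) (.g (nat_lit 4) .nil .nil))) 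
(.lf (nat_lit 216927) (.g (nat_lit 1797) (.e (nat_lit 90170) (nat_lit 13) (.e (nat_lit 172113) (nat_lit 10) (.e (nat_lit 434245) (nat_lit 28) (.e (nat_lit 573451) (nat_lit 9) (.e (nat_lit 430) (nat_lit 32) .nil))))) .nil))) (.nd (nat_lit 6) 
(.lf (nat_lit 216895) (.g (nat_lit 3004) (.e (nat_lit 90170) (nat_lit 13) (.e (nat_lit 172113) (nat_lit 10) (.e (nat_lit 434242) (nat_lit 28) (.e (nat_lit 573474) (nat_lit 12) (.e (nat_lit 57571) (nat_lit 54) (.e (nat_lit 770072) (nat_lit 8) (.e (nat_lit 65566) (nat_lit 2) .nil))))))) (.g (nat_lit 4) .nil .nil))) 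
(.lf (nat_lit 216959) (.g (nat_lit 3292) (.e (nat_lit 90170) (nat_lit 13) (.e (nat_lit 172113) (nat_lit 10) (.e (nat_lit 434245) (nat_lit 28) (.e (nat_lit 573473) (nat_lit 12) (.e (nat_lit 57569) (nat_lit 53) (.e (nat_lit 761867) (nat_lit 5) (.e (nat_lit 1454) (nat_lit 108) (.e (nat_lit 336008) (nat_lit 2) .nil)))))))) (.g (nat_lit 5) .nil .nil))))))))))

noncomputable def tv2851 : DT := (.nd (nat_lit 0) (.nd (nat_lit 1) (.nd (nat_lit 2) (.nd (nat_lit 3) (.nd (nat_lit 4) (.nd (nat_lit 5) 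
(.lf (nat_lit 216960) (.g (nat_lit 4272) (.e (nat_lit 90170) (nat_lit 13) (.e (nat_lit 172113) (nat_lit 10) (.e (nat_lit 434245) (nat_lit 28) (.e (nat_lit 573473) (nat_lit 12) (.e (nat_lit 57572) (nat_lit 54) (.e (nat_lit 770055) (nat_lit 5) (.e (nat_lit 1464) (nat_lit 108) (.e (nat_lit 336013) (nat_lit 2) .nil)))))))) (.g (nat_lit 0) .nil .nil))) 
(.lf (nat_lit 216992) (.g (nat_lit 3248) (.e (nat_lit 90170) (nat_lit 13) (.e (nat_lit 172113) (nat_lit 10) (.e (nat_lit 434245) (nat_lit 28) (.e (nat_lit 573474) (nat_lit 12) (.e (nat_lit 57358) (nat_lit 0) (.e (nat_lit 7271) (nat_lit 385) (.e (nat_lit 122903) (nat_lit 12) (.e (nat_lit 336013) (nat_lit 2) .nil)))))))) (.g (nat_lit 4) .nil .nil)))) (.nd (nat_lit 5) 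
(.lf (nat_lit 216976) (.g (nat_lit 2538) (.e (nat_lit 90170) (nat_lit 13) (.e (nat_lit 172113) (nat_lit 10) (.e (nat_lit 434245) (nat_lit 28) (.e (nat_lit 573474) (nat_lit 12) (.e (nat_lit 57348) (nat_lit 0) (.e (nat_lit 7124) (nat_lit 382) (.e (nat_lit 1296) (nat_lit 96) (.e (nat_lit 131092) (nat_lit 2) .nil)))))))) (.g (nat_lit 4) .nil .nil))) 
(.lf (nat_lit 217008) (.g (nat_lit 2539) (.e (nat_lit 90170) (nat_lit 13) (.e (nat_lit 172113) (nat_lit 10) (.e (nat_lit 434245) (nat_lit 28) (.e (nat_lit 573474) (nat_lit 12) (.e (nat_lit 57574) (nat_lit 55) (.e (nat_lit 778380) (nat_lit 9) (.e (nat_lit 290) (nat_lit 21) (.e (nat_lit 336010) (nat_lit 2) .nil)))))))) (.g (nat_lit 4) .nil .nil))))) (.nd (nat_lit 4) (.nd (nat_lit 5) 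
(.lf (nat_lit 216968) (.g (nat_lit 2332) (.e (nat_lit 90170) (nat_lit 13) (.e (nat_lit 172113) (nat_lit 10) (.e (nat_lit 434245) (nat_lit 28) (.e (nat_lit 573474) (nat_lit 12) (.e (nat_lit 57346) (nat_lit 0) .nil))))) .nil)) 
(.lf (nat_lit 217000) (.g (nat_lit 4933) (.e (nat_lit 90170) (nat_lit 13) (.e (nat_lit 172113) (nat_lit 10) (.e (nat_lit 434245) (nat_lit 28) (.e (nat_lit 573474) (nat_lit 12) (.e (nat_lit 57572) (nat_lit 54) (.e (nat_lit 770055) (nat_lit 5) (.e (nat_lit 1464) (nat_lit 108) (.e (nat_lit 336013) (nat_lit 2) .nil)))))))) (.g (nat_lit 0) .nil .nil)))) (.nd (nat_lit 5) 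
(.lf (nat_lit 216984) (.g (nat_lit 3307) (.e (nat_lit 90170) (nat_lit 13) (.e (nat_lit 172113) (nat_lit 10) (.e (nat_lit 434245) (nat_lit 28) (.e (nat_lit 573474) (nat_lit 12) (.e (nat_lit 57352) (nat_lit 0) (.e (nat_lit 7263) (nat_lit 384) (.e (nat_lit 57404) (nat_lit 12) (.e (nat_lit 336013) (nat_lit 2) .nil)))))))) (.g (nat_lit 4) .nil .nil))) 
(.lf (nat_lit 217016) (.g (nat_lit 2703) (.e (nat_lit 90170) (nat_lit 13) (.e (nat_lit 172113) (nat_lit 10) (.e (nat_lit 434245) (nat_lit 28) (.e (nat_lit 573475) (nat_lit 12) (.e (nat_lit 57574) (nat_lit 55) .nil))))) .nil))))) (.nd (nat_lit 3) (.nd (nat_lit 4) (.nd (nat_lit 5) 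
(.lf (nat_lit 216964) (.g (nat_lit 2705) (.e (nat_lit 90170) (nat_lit 13) (.e (nat_lit 172113) (nat_lit 10) (.e (nat_lit 434245) (nat_lit 28) (.e (nat_lit 573473) (nat_lit 12) (.e (nat_lit 65280) (nat_lit 57) (.e (nat_lit 794637) (nat_lit 11) (.e (nat_lit 336012) (nat_lit 2) .nil))))))) (.g (nat_lit 4) .nil .nil))) 
(.lf (nat_lit 216996) (.g (nat_lit 3129) (.e (nat_lit 90170) (nat_lit 13) (.e (nat_lit 172113) (nat_lit 10) (.e (nat_lit 434245) (nat_lit 28) (.e (nat_lit 573474) (nat_lit 12) (.e (nat_lit 57569) (nat_lit 53) (.e (nat_lit 761866) (nat_lit 5) (.e (nat_lit 1454) (nat_lit 108) (.e (nat_lit 336005) (nat_lit 2) .nil)))))))) (.g (nat_lit 4) .nil .nil)))) (.nd (nat_lit 5) 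
(.lf (nat_lit 216980) (.g (nat_lit 1926) (.e (nat_lit 90170) (nat_lit 13) (.e (nat_lit 172113) (nat_lit 10) (.e (nat_lit 434245) (nat_lit 28) (.e (nat_lit 573474) (nat_lit 12) (.e (nat_lit 57351) (nat_lit 0) .nil))))) .nil)) 
(.lf (nat_lit 217012) (.g (nat_lit 3009) (.e (nat_lit 90170) (nat_lit 13) (.e (nat_lit 172113) (nat_lit 10) (.e (nat_lit 434245) (nat_lit 28) (.e (nat_lit 573474) (nat_lit 12) (.e (nat_lit 65280) (nat_lit 58) (.e (nat_lit 802826) (nat_lit 11) (.e (nat_lit 336009) (nat_lit 2) .nil))))))) (.g (nat_lit 4) .nil .nil))))) (.nd (nat_lit 4) (.nd (nat_lit 5) 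
(.lf (nat_lit 216972) (.g (nat_lit 3127) (.e (nat_lit 90170) (nat_lit 13) (.e (nat_lit 172113) (nat_lit 10) (.e (nat_lit 434245) (nat_lit 28) (.e (nat_lit 573474) (nat_lit 12) (.e (nat_lit 57347) (nat_lit 0) (.e (nat_lit 7265) (nat_lit 384) (.e (nat_lit 57347) (nat_lit 0) (.e (nat_lit 7936) (nat_lit 343) (.e (nat_lit 1239) (nat_lit 91) .nil))))))))) (.g (nat_lit 5) .nil .nil))) 
(.lf (nat_lit 217004) (.g (nat_lit 4346) (.e (nat_lit 90170) (nat_lit 13) (.e (nat_lit 172113) (nat_lit 10) (.e (nat_lit 434245) (nat_lit 28) (.e (nat_lit 573474) (nat_lit 12) (.e (nat_lit 57574) (nat_lit 55) (.e (nat_lit 778361) (nat_lit 9) (.e (nat_lit 246) (nat_lit 21) (.e (nat_lit 336009) (nat_lit 2) .nil)))))))) (.g (nat_lit 6) .nil .nil)))) (.nd (nat_lit 5) 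
(.lf (nat_lit 216988) (.g (nat_lit 2998) (.e (nat_lit 90170) (nat_lit 13) (.e (nat_lit 172113) (nat_lit 10) (.e (nat_lit 434245) (nat_lit 28) (.e (nat_lit 573474) (nat_lit 12) (.e (nat_lit 57353) (nat_lit 0) (.e (nat_lit 7125) (nat_lit 382) (.e (nat_lit 1296) (nat_lit 96) (.e (nat_lit 131091) (nat_lit 2) .nil)))))))) (.g (nat_lit 4) .nil .nil))) 
(.lf (nat_lit 217020) (.g (nat_lit 1837) (.e (nat_lit 90170) (nat_lit 13) (.e (nat_lit 172113) (nat_lit 10) (.e (nat_lit 434247) (nat_lit 28) (.e (nat_lit 573456) (nat_lit 9) (.e (nat_lit 430) (nat_lit 32) .nil))))) .nil)))))) (.nd (nat_lit 2) (.nd (nat_lit 3) (.nd (nat_lit 4) (.nd (nat_lit 5) 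
(.lf (nat_lit 216962) (.g (nat_lit 2319) (.e (nat_lit 90170) (nat_lit 13) (.e (nat_lit 172113) (nat_lit 10) (.e (nat_lit 434245) (nat_lit 28) (.e (nat_lit 573473) (nat_lit 12) (.e (nat_lit 65280) (nat_lit 57) (.e (nat_lit 794637) (nat_lit 11) (.e (nat_lit 336002) (nat_lit 2) .nil))))))) (.g (nat_lit 4) .nil .nil))) 
(.lf (nat_lit 216994) (.g (nat_lit 3000) (.e (nat_lit 90170) (nat_lit 13) (.e (nat_lit 172113) (nat_lit 10) (.e (nat_lit 434245) (nat_lit 28) (.e (nat_lit 573474) (nat_lit 12) (.e (nat_lit 57568) (nat_lit 53) (.e (nat_lit 761866) (nat_lit 5) (.e (nat_lit 1454) (nat_lit 108) (.e (nat_lit 336008) (nat_lit 2) .nil)))))))) (.g (nat_lit 4) .nil .nil)))) (.nd (nat_lit 5) 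
(.lf (nat_lit 216978) (.g (nat_lit 2902) (.e (nat_lit 90170) (nat_lit 13) (.e (nat_lit 172113) (nat_lit 10) (.e (nat_lit 434245) (nat_lit 28) (.e (nat_lit 573474) (nat_lit 12) (.e (nat_lit 57348) (nat_lit 0) (.e (nat_lit 7265) (nat_lit 384) (.e (nat_lit 57347) (nat_lit 0) (.e (nat_lit 7936) (nat_lit 343) (.e (nat_lit 1239) (nat_lit 91) .nil))))))))) (.g (nat_lit 4) .nil .nil))) 
(.lf (nat_lit 217010) (.g (nat_lit 2005) (.e (nat_lit 90170) (nat_lit 13) (.e (nat_lit 172113) (nat_lit 10) (.e (nat_lit 434245) (nat_lit 28) (.e (nat_lit 573474) (nat_lit 12) (.e (nat_lit 65280) (nat_lit 57) .nil))))) .nil)))) (.nd (nat_lit 4) (.nd (nat_lit 5) 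
(.lf (nat_lit 216970) (.g (nat_lit 2813) (.e (nat_lit 90170) (nat_lit 13) (.e (nat_lit 172113) (nat_lit 10) (.e (nat_lit 434245) (nat_lit 28) (.e (nat_lit 573474) (nat_lit 12) (.e (nat_lit 57347) (nat_lit 0) (.e (nat_lit 7124) (nat_lit 382) (.e (nat_lit 1296) (nat_lit 96) (.e (nat_lit 131092) (nat_lit 2) .nil)))))))) (.g (nat_lit 4) .nil .nil))) 
(.lf (nat_lit 217002) (.g (nat_lit 1870) (.e (nat_lit 90170) (nat_lit 13) (.e (nat_lit 172113) (nat_lit 10) (.e (nat_lit 434245) (nat_lit 28) (.e (nat_lit 573474) (nat_lit 12) (.e (nat_lit 57574) (nat_lit 55) .nil))))) .nil))) (.nd (nat_lit 5) 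
(.lf (nat_lit 216986) (.g (nat_lit 2864) (.e (nat_lit 90170) (nat_lit 13) (.e (nat_lit 172113) (nat_lit 10) (.e (nat_lit 434245) (nat_lit 28) (.e (nat_lit 573474) (nat_lit 12) (.e (nat_lit 57353) (nat_lit 0) (.e (nat_lit 7122) (nat_lit 382) (.e (nat_lit 1201) (nat_lit 88) (.e (nat_lit 65566) (nat_lit 2) .nil)))))))) (.g (nat_lit 4) .nil .nil))) 
(.lf (nat_lit 217018) (.g (nat_lit 1770) (.e (nat_lit 90170) (nat_lit 13) (.e (nat_lit 172113) (nat_lit 10) (.e (nat_lit 434247) (nat_lit 28) (.e (nat_lit 573454) (nat_lit 9) (.e (nat_lit 441) (nat_lit 33) .nil))))) .nil))))) (.nd (nat_lit 3) (.nd (nat_lit 4) (.nd (nat_lit 5) 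
(.lf (nat_lit 216966) (.g (nat_lit 1061) (.e (nat_lit 90170) (nat_lit 13) (.e (nat_lit 172113) (nat_lit 10) (.e (nat_lit 434245) (nat_lit 28) (.e (nat_lit 573474) (nat_lit 12) .nil)))) .nil)) 
(.lf (nat_lit 216998) (.g (nat_lit 2243) (.e (nat_lit 90170) (nat_lit 13) (.e (nat_lit 172113) (nat_lit 10) (.e (nat_lit 434245) (nat_lit 28) (.e (nat_lit 573474) (nat_lit 12) (.e (nat_lit 57571) (nat_lit 54) .nil))))) .nil))) (.nd (nat_lit 5) 
(.lf (nat_lit 216982) (.g (nat_lit 2653) (.e (nat_lit 90170) (nat_lit 13) (.e (nat_lit 172113) (nat_lit 10) (.e (nat_lit 434245) (nat_lit 28) (.e (nat_lit 573474) (nat_lit 12) (.e (nat_lit 57352) (nat_lit 0) .nil))))) .nil)) 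
(.lf (nat_lit 217014) (.g (nat_lit 3115) (.e (nat_lit 90170) (nat_lit 13) (.e (nat_lit 172113) (nat_lit 10) (.e (nat_lit 434245) (nat_lit 28) (.e (nat_lit 573475) (nat_lit 12) (.e (nat_lit 57572) (nat_lit 54) (.e (nat_lit 770071) (nat_lit 8) (.e (nat_lit 65566) (nat_lit 2) .nil))))))) (.g (nat_lit 4) .nil .nil))))) (.nd (nat_lit 4) (.nd (nat_lit 5) 
(.lf (nat_lit 216974) (.g (nat_lit 2147) (.e (nat_lit 90170) (nat_lit 13) (.e (nat_lit 172113) (nat_lit 10) (.e (nat_lit 434245) (nat_lit 28) (.e (nat_lit 573474) (nat_lit 12) (.e (nat_lit 57348) (nat_lit 0) .nil))))) .nil)) 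
(.lf (nat_lit 217006) (.g (nat_lit 3467) (.e (nat_lit 90170) (nat_lit 13) (.e (nat_lit 172113) (nat_lit 10) (.e (nat_lit 434245) (nat_lit 28) (.e (nat_lit 573474) (nat_lit 12) (.e (nat_lit 57574) (nat_lit 55) (.e (nat_lit 778362) (nat_lit 9) (.e (nat_lit 228) (nat_lit 21) (.e (nat_lit 336008) (nat_lit 2) .nil)))))))) (.g (nat_lit 5) .nil .nil)))) (.nd (nat_lit 5) 
(.lf (nat_lit 216990) (.g (nat_lit 3634) (.e (nat_lit 90170) (nat_lit 13) (.e (nat_lit 172113) (nat_lit 10) (.e (nat_lit 434245) (nat_lit 28) (.e (nat_lit 573474) (nat_lit 12) (.e (nat_lit 57354) (nat_lit 0) (.e (nat_lit 7147) (nat_lit 382) (.e (nat_lit 1204) (nat_lit 88) (.e (nat_lit 65566) (nat_lit 2) .nil)))))))) (.g (nat_lit 5) .nil .nil))) 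
(.lf (nat_lit 217022) (.g (nat_lit 2966) (.e (nat_lit 90170) (nat_lit 13) (.e (nat_lit 172113) (nat_lit 10) (.e (nat_lit 434247) (nat_lit 28) (.e (nat_lit 573456) (nat_lit 9) (.e (nat_lit 1312) (nat_lit 98) (.e (nat_lit 147492) (nat_lit 11) (.e (nat_lit 24605) (nat_lit 2) .nil))))))) (.g (nat_lit 4) .nil .nil)))))))) 
(.nd (nat_lit 1) (.nd (nat_lit 2) (.nd (nat_lit 3) (.nd (nat_lit 4) (.nd (nat_lit 5) 
(.lf (nat_lit 216961) (.g (nat_lit 4244) (.e (nat_lit 90170) (nat_lit 13) (.e (nat_lit 172113) (nat_lit 10) (.e (nat_lit 434245) (nat_lit 28) (.e (nat_lit 573473) (nat_lit 12) (.e (nat_lit 57572) (nat_lit 54) (.e (nat_lit 770072) (nat_lit 8) (.e (nat_lit 65566) (nat_lit 2) .nil))))))) (.g (nat_lit 0) .nil .nil))) 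
(.lf (nat_lit 216993) (.g (nat_lit 3219) (.e (nat_lit 90170) (nat_lit 13) (.e (nat_lit 172113) (nat_lit 10) (.e (nat_lit 434245) (nat_lit 28) (.e (nat_lit 573474) (nat_lit 12) (.e (nat_lit 57358) (nat_lit 0) (.e (nat_lit 7272) (nat_lit 385) (.e (nat_lit 122903) (nat_lit 12) (.e (nat_lit 336013) (nat_lit 2) .nil)))))))) (.g (nat_lit 4) .nil .nil)))) (.nd (nat_lit 5) 
(.lf (nat_lit 216977) (.g (nat_lit 2985) (.e (nat_lit 90170) (nat_lit 13) (.e (nat_lit 172113) (nat_lit 10) (.e (nat_lit 434245) (nat_lit 28) (.e (nat_lit 573474) (nat_lit 12) (.e (nat_lit 57348) (nat_lit 0) (.e (nat_lit 7125) (nat_lit 382) (.e (nat_lit 1193) (nat_lit 88) (.e (nat_lit 65566) (nat_lit 2) .nil)))))))) (.g (nat_lit 4) .nil .nil))) 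
(.lf (nat_lit 217009) (.g (nat_lit 2005) (.e (nat_lit 90170) (nat_lit 13) (.e (nat_lit 172113) (nat_lit 10) (.e (nat_lit 434245) (nat_lit 28) (.e (nat_lit 573474) (nat_lit 12) (.e (nat_lit 65280) (nat_lit 55) .nil))))) .nil)))) (.nd (nat_lit 4) (.nd (nat_lit 5) 
(.lf (nat_lit 216969) (.g (nat_lit 1842) (.e (nat_lit 90170) (nat_lit 13) (.e (nat_lit 172113) (nat_lit 10) (.e (nat_lit 434245) (nat_lit 28) (.e (nat_lit 573474) (nat_lit 12) (.e (nat_lit 57347) (nat_lit 0) .nil))))) .nil)) 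
(.lf (nat_lit 217001) (.g (nat_lit 4995) (.e (nat_lit 90170) (nat_lit 13) (.e (nat_lit 172113) (nat_lit 10) (.e (nat_lit 434245) (nat_lit 28) (.e (nat_lit 573474) (nat_lit 12) (.e (nat_lit 57572) (nat_lit 54) (.e (nat_lit 770072) (nat_lit 8) (.e (nat_lit 65566) (nat_lit 2) .nil))))))) (.g (nat_lit 0) .nil .nil)))) (.nd (nat_lit 5) 
(.lf (nat_lit 216985) (.g (nat_lit 2398) (.e (nat_lit 90170) (nat_lit 13) (.e (nat_lit 172113) (nat_lit 10) (.e (nat_lit 434245) (nat_lit 28) (.e (nat_lit 573474) (nat_lit 12) (.e (nat_lit 57353) (nat_lit 0) .nil))))) .nil)) 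
(.lf (nat_lit 217017) (.g (nat_lit 422) (.e (nat_lit 90170) (nat_lit 13) (.e (nat_lit 172113) (nat_lit 10) (.e (nat_lit 434247) (nat_lit 28) .nil))) .nil))))) (.nd (nat_lit 3) (.nd (nat_lit 4) (.nd (nat_lit 5) 
(.lf (nat_lit 216965) (.g (nat_lit 1753) (.e (nat_lit 90170) (nat_lit 13) (.e (nat_lit 172113) (nat_lit 10) (.e (nat_lit 434245) (nat_lit 28) (.e (nat_lit 573473) (nat_lit 12) (.e (nat_lit 65280) (nat_lit 58) .nil))))) .nil)) 
(.lf (nat_lit 216997) (.g (nat_lit 3185) (.e (nat_lit 90170) (nat_lit 13) (.e (nat_lit 172113) (nat_lit 10) (.e (nat_lit 434245) (nat_lit 28) (.e (nat_lit 573474) (nat_lit 12) (.e (nat_lit 57569) (nat_lit 53) (.e (nat_lit 761867) (nat_lit 5) (.e (nat_lit 1454) (nat_lit 108) (.e (nat_lit 336008) (nat_lit 2) .nil)))))))) (.g (nat_lit 4) .nil .nil)))) (.nd (nat_lit 5) 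
(.lf (nat_lit 216981) (.g (nat_lit 2501) (.e (nat_lit 90170) (nat_lit 13) (.e (nat_lit 172113) (nat_lit 10) (.e (nat_lit 434245) (nat_lit 28) (.e (nat_lit 573474) (nat_lit 12) (.e (nat_lit 57351) (nat_lit 0) (.e (nat_lit 7265) (nat_lit 384) (.e (nat_lit 57347) (nat_lit 0) (.e (nat_lit 7936) (nat_lit 343) (.e (nat_lit 1239) (nat_lit 91) .nil))))))))) (.g (nat_lit 4) .nil .nil))) 
(.lf (nat_lit 217013) (.g (nat_lit 1348) (.e (nat_lit 90170) (nat_lit 13) (.e (nat_lit 172113) (nat_lit 10) (.e (nat_lit 434245) (nat_lit 28) (.e (nat_lit 573475) (nat_lit 12) .nil)))) .nil)))) (.nd (nat_lit 4) (.nd (nat_lit 5) 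
(.lf (nat_lit 216973) (.g (nat_lit 2379) (.e (nat_lit 90170) (nat_lit 13) (.e (nat_lit 172113) (nat_lit 10) (.e (nat_lit 434245) (nat_lit 28) (.e (nat_lit 573474) (nat_lit 12) (.e (nat_lit 57347) (nat_lit 0) (.e (nat_lit 7266) (nat_lit 384) (.e (nat_lit 65280) (nat_lit 12) (.e (nat_lit 336013) (nat_lit 2) .nil)))))))) (.g (nat_lit 4) .nil .nil))) 
(.lf (nat_lit 217005) (.g (nat_lit 2540) (.e (nat_lit 90170) (nat_lit 13) (.e (nat_lit 172113) (nat_lit 10) (.e (nat_lit 434245) (nat_lit 28) (.e (nat_lit 573474) (nat_lit 12) (.e (nat_lit 57574) (nat_lit 55) (.e (nat_lit 778361) (nat_lit 9) (.e (nat_lit 295) (nat_lit 21) (.e (nat_lit 336010) (nat_lit 2) .nil)))))))) (.g (nat_lit 4) .nil .nil)))) (.nd (nat_lit 5) 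
(.lf (nat_lit 216989) (.g (nat_lit 3478) (.e (nat_lit 90170) (nat_lit 13) (.e (nat_lit 172113) (nat_lit 10) (.e (nat_lit 434245) (nat_lit 28) (.e (nat_lit 573474) (nat_lit 12) (.e (nat_lit 57354) (nat_lit 0) (.e (nat_lit 7147) (nat_lit 382) (.e (nat_lit 1203) (nat_lit 88) (.e (nat_lit 65566) (nat_lit 2) .nil)))))))) (.g (nat_lit 5) .nil .nil))) 
(.lf (nat_lit 217021) (.g (nat_lit 2119) (.e (nat_lit 90170) (nat_lit 13) (.e (nat_lit 172113) (nat_lit 10) (.e (nat_lit 434247) (nat_lit 28) (.e (nat_lit 573456) (nat_lit 9) (.e (nat_lit 1312) (nat_lit 98) .nil))))) .nil)))))) (.nd (nat_lit 2) (.nd (nat_lit 3) (.nd (nat_lit 4) (.nd (nat_lit 5) 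
(.lf (nat_lit 216963) (.g (nat_lit 2420) (.e (nat_lit 90170) (nat_lit 13) (.e (nat_lit 172113) (nat_lit 10) (.e (nat_lit 434245) (nat_lit 28) (.e (nat_lit 573473) (nat_lit 12) (.e (nat_lit 65280) (nat_lit 57) (.e (nat_lit 794637) (nat_lit 11) (.e (nat_lit 336010) (nat_lit 2) .nil))))))) (.g (nat_lit 4) .nil .nil))) 
(.lf (nat_lit 216995) (.g (nat_lit 2984) (.e (nat_lit 90170) (nat_lit 13) (.e (nat_lit 172113) (nat_lit 10) (.e (nat_lit 434245) (nat_lit 28) (.e (nat_lit 573474) (nat_lit 12) (.e (nat_lit 57568) (nat_lit 53) (.e (nat_lit 761867) (nat_lit 5) (.e (nat_lit 1454) (nat_lit 108) (.e (nat_lit 336008) (nat_lit 2) .nil)))))))) (.g (nat_lit 4) .nil .nil)))) (.nd (nat_lit 5) 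
(.lf (nat_lit 216979) (.g (nat_lit 2616) (.e (nat_lit 90170) (nat_lit 13) (.e (nat_lit 172113) (nat_lit 10) (.e (nat_lit 434245) (nat_lit 28) (.e (nat_lit 573474) (nat_lit 12) (.e (nat_lit 57350) (nat_lit 0) .nil))))) .nil)) 
(.lf (nat_lit 217011) (.g (nat_lit 2665) (.e (nat_lit 90170) (nat_lit 13) (.e (nat_lit 172113) (nat_lit 10) (.e (nat_lit 434245) (nat_lit 28) (.e (nat_lit 573474) (nat_lit 12) (.e (nat_lit 65280) (nat_lit 57) (.e (nat_lit 794637) (nat_lit 11) (.e (nat_lit 336001) (nat_lit 2) .nil))))))) (.g (nat_lit 4) .nil .nil))))) (.nd (nat_lit 4) (.nd (nat_lit 5) 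
(.lf (nat_lit 216971) (.g (nat_lit 2808) (.e (nat_lit 90170) (nat_lit 13) (.e (nat_lit 172113) (nat_lit 10) (.e (nat_lit 434245) (nat_lit 28) (.e (nat_lit 573474) (nat_lit 12) (.e (nat_lit 57347) (nat_lit 0) (.e (nat_lit 7125) (nat_lit 382) (.e (nat_lit 1296) (nat_lit 96) (.e (nat_lit 131092) (nat_lit 2) .nil)))))))) (.g (nat_lit 4) .nil .nil))) 
(.lf (nat_lit 217003) (.g (nat_lit 3538) (.e (nat_lit 90170) (nat_lit 13) (.e (nat_lit 172113) (nat_lit 10) (.e (nat_lit 434245) (nat_lit 28) (.e (nat_lit 573474) (nat_lit 12) (.e (nat_lit 57574) (nat_lit 55) (.e (nat_lit 778361) (nat_lit 9) (.e (nat_lit 228) (nat_lit 21) (.e (nat_lit 336008) (nat_lit 2) .nil)))))))) (.g (nat_lit 5) .nil .nil)))) (.nd (nat_lit 5) 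
(.lf (nat_lit 216987) (.g (nat_lit 3099) (.e (nat_lit 90170) (nat_lit 13) (.e (nat_lit 172113) (nat_lit 10) (.e (nat_lit 434245) (nat_lit 28) (.e (nat_lit 573474) (nat_lit 12) (.e (nat_lit 57353) (nat_lit 0) (.e (nat_lit 7122) (nat_lit 382) (.e (nat_lit 1201) (nat_lit 88) (.e (nat_lit 65568) (nat_lit 2) .nil)))))))) (.g (nat_lit 4) .nil .nil))) 
(.lf (nat_lit 217019) (.g (nat_lit 1399) (.e (nat_lit 90170) (nat_lit 13) (.e (nat_lit 172113) (nat_lit 10) (.e (nat_lit 434247) (nat_lit 28) (.e (nat_lit 573456) (nat_lit 9) .nil)))) .nil))))) (.nd (nat_lit 3) (.nd (nat_lit 4) (.nd (nat_lit 5) 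
(.lf (nat_lit 216967) (.g (nat_lit 2007) (.e (nat_lit 90170) (nat_lit 13) (.e (nat_lit 172113) (nat_lit 10) (.e (nat_lit 434245) (nat_lit 28) (.e (nat_lit 573474) (nat_lit 12) (.e (nat_lit 57344) (nat_lit 0) .nil))))) .nil)) 
(.lf (nat_lit 216999) (.g (nat_lit 2701) (.e (nat_lit 90170) (nat_lit 13) (.e (nat_lit 172113) (nat_lit 10) (.e (nat_lit 434245) (nat_lit 28) (.e (nat_lit 573474) (nat_lit 12) (.e (nat_lit 57571) (nat_lit 54) (.e (nat_lit 770055) (nat_lit 5) (.e (nat_lit 1464) (nat_lit 108) (.e (nat_lit 336013) (nat_lit 2) .nil)))))))) (.g (nat_lit 4) .nil .nil)))) (.nd (nat_lit 5) 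
(.lf (nat_lit 216983) (.g (nat_lit 2949) (.e (nat_lit 90170) (nat_lit 13) (.e (nat_lit 172113) (nat_lit 10) (.e (nat_lit 434245) (nat_lit 28) (.e (nat_lit 573474) (nat_lit 12) (.e (nat_lit 57352) (nat_lit 0) (.e (nat_lit 7122) (nat_lit 382) (.e (nat_lit 1296) (nat_lit 96) (.e (nat_lit 131093) (nat_lit 2) .nil)))))))) (.g (nat_lit 4) .nil .nil))) 
(.lf (nat_lit 217015) (.g (nat_lit 4099) (.e (nat_lit 90170) (nat_lit 13) (.e (nat_lit 172113) (nat_lit 10) (.e (nat_lit 434245) (nat_lit 28) (.e (nat_lit 573475) (nat_lit 12) (.e (nat_lit 57572) (nat_lit 54) (.e (nat_lit 770072) (nat_lit 8) (.e (nat_lit 65566) (nat_lit 2) .nil))))))) (.g (nat_lit 5) .nil .nil))))) (.nd (nat_lit 4) (.nd (nat_lit 5) 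
(.lf (nat_lit 216975) (.g (nat_lit 2687) (.e (nat_lit 90170) (nat_lit 13) (.e (nat_lit 172113) (nat_lit 10) (.e (nat_lit 434245) (nat_lit 28) (.e (nat_lit 573474) (nat_lit 12) (.e (nat_lit 57348) (nat_lit 0) (.e (nat_lit 7124) (nat_lit 382) (.e (nat_lit 1016) (nat_lit 81) (.e (nat_lit 1464) (nat_lit 108) (.e (nat_lit 336013) (nat_lit 2) .nil))))))))) (.g (nat_lit 4) .nil .nil))) 
(.lf (nat_lit 217007) (.g (nat_lit 2670) (.e (nat_lit 90170) (nat_lit 13) (.e (nat_lit 172113) (nat_lit 10) (.e (nat_lit 434245) (nat_lit 28) (.e (nat_lit 573474) (nat_lit 12) (.e (nat_lit 57574) (nat_lit 55) (.e (nat_lit 778362) (nat_lit 9) (.e (nat_lit 254) (nat_lit 21) (.e (nat_lit 336010) (nat_lit 2) .nil)))))))) (.g (nat_lit 4) .nil .nil)))) (.nd (nat_lit 5) 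
(.lf (nat_lit 216991) (.g (nat_lit 3412) (.e (nat_lit 90170) (nat_lit 13) (.e (nat_lit 172113) (nat_lit 10) (.e (nat_lit 434245) (nat_lit 28) (.e (nat_lit 573474) (nat_lit 12) (.e (nat_lit 57354) (nat_lit 0) (.e (nat_lit 7271) (nat_lit 385) (.e (nat_lit 122903) (nat_lit 12) (.e (nat_lit 336013) (nat_lit 2) .nil)))))))) (.g (nat_lit 5) .nil .nil))) 
(.lf (nat_lit 217023) (.g (nat_lit 1279) (.e (nat_lit 90170) (nat_lit 13) (.e (nat_lit 172113) (nat_lit 10) (.e (nat_lit 434247) (nat_lit 28) (.e (nat_lit 573457) (nat_lit 9) .nil)))) .nil))))))))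

noncomputable def tv2852 : DT := (.nd (nat_lit 0) (.nd (nat_lit 1) (.nd (nat_lit 2) (.nd (nat_lit 3) (.nd (nat_lit 4) (.nd (nat_lit 5) 
(.lf (nat_lit 217024) (.g (nat_lit 3570) (.e (nat_lit 90170) (nat_lit 13) (.e (nat_lit 172113) (nat_lit 10) (.e (nat_lit 434247) (nat_lit 28) (.e (nat_lit 573457) (nat_lit 9) (.e (nat_lit 13) (nat_lit 0) (.e (nat_lit 7077) (nat_lit 378) (.e (nat_lit 57876) (nat_lit 270) (.e (nat_lit 1239) (nat_lit 91) .nil)))))))) (.g (nat_lit 0) .nil .nil))) 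
(.lf (nat_lit 217056) (.g (nat_lit 1442) (.e (nat_lit 90170) (nat_lit 13) (.e (nat_lit 172113) (nat_lit 10) (.e (nat_lit 434248) (nat_lit 28) (.e (nat_lit 573457) (nat_lit 9) .nil)))) .nil))) (.nd (nat_lit 5) 
(.lf (nat_lit 217040) (.g (nat_lit 1182) (.e (nat_lit 90170) (nat_lit 13) (.e (nat_lit 172113) (nat_lit 10) (.e (nat_lit 434247) (nat_lit 28) (.e (nat_lit 573478) (nat_lit 12) .nil)))) .nil)) 
(.lf (nat_lit 217072) (.g (nat_lit 3405) (.e (nat_lit 90170) (nat_lit 13) (.e (nat_lit 172113) (nat_lit 10) (.e (nat_lit 434248) (nat_lit 28) (.e (nat_lit 573473) (nat_lit 12) (.e (nat_lit 57569) (nat_lit 53) (.e (nat_lit 761867) (nat_lit 5) (.e (nat_lit 1454) (nat_lit 108) (.e (nat_lit 336008) (nat_lit 2) .nil)))))))) (.g (nat_lit 5) .nil .nil))))) (.nd (nat_lit 4) (.nd (nat_lit 5) 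
(.lf (nat_lit 217032) (.g (nat_lit 3896) (.e (nat_lit 90170) (nat_lit 13) (.e (nat_lit 172113) (nat_lit 10) (.e (nat_lit 434247) (nat_lit 28) (.e (nat_lit 573475) (nat_lit 12) (.e (nat_lit 57572) (nat_lit 54) (.e (nat_lit 770071) (nat_lit 8) (.e (nat_lit 65566) (nat_lit 2) .nil))))))) (.g (nat_lit 5) .nil .nil))) 
(.lf (nat_lit 217064) (.g (nat_lit 1957) (.e (nat_lit 90170) (nat_lit 13) (.e (nat_lit 172113) (nat_lit 10) (.e (nat_lit 434248) (nat_lit 28) (.e (nat_lit 573472) (nat_lit 12) .nil)))) .nil))) (.nd (nat_lit 5) 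
(.lf (nat_lit 217048) (.g (nat_lit 1281) (.e (nat_lit 90170) (nat_lit 13) (.e (nat_lit 172113) (nat_lit 10) (.e (nat_lit 434248) (nat_lit 28) (.e (nat_lit 573452) (nat_lit 9) .nil)))) .nil)) 
(.lf (nat_lit 217080) (.g (nat_lit 1217) (.e (nat_lit 90170) (nat_lit 13) (.e (nat_lit 172113) (nat_lit 10) (.e (nat_lit 434248) (nat_lit 28) (.e (nat_lit 573475) (nat_lit 12) .nil)))) .nil))))) (.nd (nat_lit 3) (.nd (nat_lit 4) (.nd (nat_lit 5) 
(.lf (nat_lit 217028) (.g (nat_lit 3797) (.e (nat_lit 90170) (nat_lit 13) (.e (nat_lit 172113) (nat_lit 10) (.e (nat_lit 434247) (nat_lit 28) (.e (nat_lit 573474) (nat_lit 12) (.e (nat_lit 57572) (nat_lit 54) (.e (nat_lit 770058) (nat_lit 5) (.e (nat_lit 1464) (nat_lit 108) (.e (nat_lit 336013) (nat_lit 2) .nil)))))))) (.g (nat_lit 5) .nil .nil))) 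
(.lf (nat_lit 217060) (.g (nat_lit 2712) (.e (nat_lit 90170) (nat_lit 13) (.e (nat_lit 172113) (nat_lit 10) (.e (nat_lit 434248) (nat_lit 28) (.e (nat_lit 573468) (nat_lit 10) (.e (nat_lit 16128) (nat_lit 181) .nil))))) .nil))) (.nd (nat_lit 5) 
(.lf (nat_lit 217044) (.g (nat_lit 1439) (.e (nat_lit 90170) (nat_lit 13) (.e (nat_lit 172113) (nat_lit 10) (.e (nat_lit 434248) (nat_lit 28) (.e (nat_lit 581376) (nat_lit 3) .nil)))) .nil)) 
(.lf (nat_lit 217076) (.g (nat_lit 2501) (.e (nat_lit 90170) (nat_lit 13) (.e (nat_lit 172113) (nat_lit 10) (.e (nat_lit 434248) (nat_lit 28) (.e (nat_lit 573473) (nat_lit 12) (.e (nat_lit 65280) (nat_lit 57) (.e (nat_lit 794637) (nat_lit 11) (.e (nat_lit 336010) (nat_lit 2) .nil))))))) (.g (nat_lit 4) .nil .nil))))) (.nd (nat_lit 4) (.nd (nat_lit 5) 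
(.lf (nat_lit 217036) (.g (nat_lit 3321) (.e (nat_lit 90170) (nat_lit 13) (.e (nat_lit 172113) (nat_lit 10) (.e (nat_lit 434247) (nat_lit 28) (.e (nat_lit 573477) (nat_lit 12) (.e (nat_lit 57574) (nat_lit 55) (.e (nat_lit 778362) (nat_lit 9) (.e (nat_lit 228) (nat_lit 21) (.e (nat_lit 336008) (nat_lit 2) .nil)))))))) (.g (nat_lit 5) .nil .nil))) 
(.lf (nat_lit 217068) (.g (nat_lit 3546) (.e (nat_lit 90170) (nat_lit 13) (.e (nat_lit 172113) (nat_lit 10) (.e (nat_lit 434248) (nat_lit 28) (.e (nat_lit 573473) (nat_lit 12) (.e (nat_lit 57347) (nat_lit 0) (.e (nat_lit 7265) (nat_lit 384) (.e (nat_lit 57404) (nat_lit 12) (.e (nat_lit 336013) (nat_lit 2) .nil)))))))) (.g (nat_lit 5) .nil .nil)))) (.nd (nat_lit 5) 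
(.lf (nat_lit 217052) (.g (nat_lit 1830) (.e (nat_lit 90170) (nat_lit 13) (.e (nat_lit 172113) (nat_lit 10) (.e (nat_lit 434248) (nat_lit 28) (.e (nat_lit 573452) (nat_lit 9) (.e (nat_lit 430) (nat_lit 32) .nil))))) .nil)) 
(.lf (nat_lit 217084) (.g (nat_lit 2991) (.e (nat_lit 90170) (nat_lit 13) (.e (nat_lit 172113) (nat_lit 10) (.e (nat_lit 434248) (nat_lit 28) (.e (nat_lit 573475) (nat_lit 12) (.e (nat_lit 57345) (nat_lit 0) (.e (nat_lit 7122) (nat_lit 382) (.e (nat_lit 1201) (nat_lit 88) (.e (nat_lit 65566) (nat_lit 2) .nil)))))))) (.g (nat_lit 4) .nil .nil))))))) 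
(.nd (nat_lit 2) (.nd (nat_lit 3) (.nd (nat_lit 4) (.nd (nat_lit 5) 
(.lf (nat_lit 217026) (.g (nat_lit 2407) (.e (nat_lit 90170) (nat_lit 13) (.e (nat_lit 172113) (nat_lit 10) (.e (nat_lit 434247) (nat_lit 28) (.e (nat_lit 573469) (nat_lit 11) (.e (nat_lit 16385) (nat_lit 0) .nil))))) .nil)) 
(.lf (nat_lit 217058) (.g (nat_lit 2955) (.e (nat_lit 90170) (nat_lit 13) (.e (nat_lit 172113) (nat_lit 10) (.e (nat_lit 434248) (nat_lit 28) (.e (nat_lit 573468) (nat_lit 10) (.e (nat_lit 8490) (nat_lit 180) .nil))))) .nil))) (.nd (nat_lit 5) 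
(.lf (nat_lit 217042) (.g (nat_lit 3839) (.e (nat_lit 90170) (nat_lit 13) (.e (nat_lit 172113) (nat_lit 10) (.e (nat_lit 434247) (nat_lit 28) (.e (nat_lit 573478) (nat_lit 12) (.e (nat_lit 57574) (nat_lit 55) (.e (nat_lit 778361) (nat_lit 9) (.e (nat_lit 246) (nat_lit 21) (.e (nat_lit 336009) (nat_lit 2) .nil)))))))) (.g (nat_lit 6) .nil .nil))) 
(.lf (nat_lit 217074) (.g (nat_lit 4372) (.e (nat_lit 90170) (nat_lit 13) (.e (nat_lit 172113) (nat_lit 10) (.e (nat_lit 434248) (nat_lit 28) (.e (nat_lit 573473) (nat_lit 12) (.e (nat_lit 57572) (nat_lit 54) (.e (nat_lit 770072) (nat_lit 8) (.e (nat_lit 65566) (nat_lit 2) .nil))))))) (.g (nat_lit 0) .nil .nil))))) (.nd (nat_lit 4) (.nd (nat_lit 5) 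
(.lf (nat_lit 217034) (.g (nat_lit 1354) (.e (nat_lit 90170) (nat_lit 13) (.e (nat_lit 172113) (nat_lit 10) (.e (nat_lit 434247) (nat_lit 28) (.e (nat_lit 573477) (nat_lit 12) .nil)))) .nil)) 
(.lf (nat_lit 217066) (.g (nat_lit 2594) (.e (nat_lit 90170) (nat_lit 13) (.e (nat_lit 172113) (nat_lit 10) (.e (nat_lit 434248) (nat_lit 28) (.e (nat_lit 573473) (nat_lit 12) (.e (nat_lit 57347) (nat_lit 0) (.e (nat_lit 7122) (nat_lit 382) (.e (nat_lit 1201) (nat_lit 88) (.e (nat_lit 65566) (nat_lit 2) .nil)))))))) (.g (nat_lit 4) .nil .nil)))) (.nd (nat_lit 5) 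
(.lf (nat_lit 217050) (.g (nat_lit 3937) (.e (nat_lit 90170) (nat_lit 13) (.e (nat_lit 172113) (nat_lit 10) (.e (nat_lit 434248) (nat_lit 28) (.e (nat_lit 573452) (nat_lit 9) (.e (nat_lit 13) (nat_lit 0) (.e (nat_lit 7081) (nat_lit 378) (.e (nat_lit 57876) (nat_lit 270) (.e (nat_lit 1239) (nat_lit 91) .nil)))))))) (.g (nat_lit 0) .nil .nil))) 
(.lf (nat_lit 217082) (.g (nat_lit 3054) (.e (nat_lit 90170) (nat_lit 13) (.e (nat_lit 172113) (nat_lit 10) (.e (nat_lit 434248) (nat_lit 28) (.e (nat_lit 573475) (nat_lit 12) (.e (nat_lit 57344) (nat_lit 0) (.e (nat_lit 7125) (nat_lit 382) (.e (nat_lit 1201) (nat_lit 88) (.e (nat_lit 65566) (nat_lit 2) .nil)))))))) (.g (nat_lit 4) .nil .nil)))))) 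
(.nd (nat_lit 3) (.nd (nat_lit 4) (.nd (nat_lit 5) 
(.lf (nat_lit 217030) (.g (nat_lit 2650) (.e (nat_lit 90170) (nat_lit 13) (.e (nat_lit 172113) (nat_lit 10) (.e (nat_lit 434247) (nat_lit 28) (.e (nat_lit 573475) (nat_lit 12) (.e (nat_lit 57347) (nat_lit 0) .nil))))) .nil)) 
(.lf (nat_lit 217062) (.g (nat_lit 2936) (.e (nat_lit 90170) (nat_lit 13) (.e (nat_lit 172113) (nat_lit 10) (.e (nat_lit 434248) (nat_lit 28) (.e (nat_lit 573471) (nat_lit 11) (.e (nat_lit 16388) (nat_lit 0) (.e (nat_lit 7545) (nat_lit 402) (.e (nat_lit 1234) (nat_lit 91) .nil))))))) (.g (nat_lit 5) .nil .nil)))) (.nd (nat_lit 5) 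
(.lf (nat_lit 217046) (.g (nat_lit 2028) (.e (nat_lit 90170) (nat_lit 13) (.e (nat_lit 172113) (nat_lit 10) (.e (nat_lit 434248) (nat_lit 28) (.e (nat_lit 573449) (nat_lit 9) (.e (nat_lit 377) (nat_lit 32) .nil))))) .nil)) 
(.lf (nat_lit 217078) (.g (nat_lit 4349) (.e (nat_lit 90170) (nat_lit 13) (.e (nat_lit 172113) (nat_lit 10) (.e (nat_lit 434248) (nat_lit 28) (.e (nat_lit 573474) (nat_lit 12) (.e (nat_lit 57572) (nat_lit 54) (.e (nat_lit 770055) (nat_lit 5) (.e (nat_lit 1464) (nat_lit 108) (.e (nat_lit 336013) (nat_lit 2) .nil)))))))) (.g (nat_lit 5) .nil .nil))))) (.nd (nat_lit 4) (.nd (nat_lit 5) 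
(.lf (nat_lit 217038) (.g (nat_lit 2019) (.e (nat_lit 90170) (nat_lit 13) (.e (nat_lit 172113) (nat_lit 10) (.e (nat_lit 434247) (nat_lit 28) (.e (nat_lit 573477) (nat_lit 12) (.e (nat_lit 57575) (nat_lit 55) .nil))))) .nil)) 
(.lf (nat_lit 217070) (.g (nat_lit 4044) (.e (nat_lit 90170) (nat_lit 13) (.e (nat_lit 172113) (nat_lit 10) (.e (nat_lit 434248) (nat_lit 28) (.e (nat_lit 573473) (nat_lit 12) (.e (nat_lit 57353) (nat_lit 0) (.e (nat_lit 7261) (nat_lit 384) (.e (nat_lit 57404) (nat_lit 12) (.e (nat_lit 336013) (nat_lit 2) .nil)))))))) (.g (nat_lit 0) .nil .nil)))) (.nd (nat_lit 5) 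
(.lf (nat_lit 217054) (.g (nat_lit 875) (.e (nat_lit 90170) (nat_lit 13) (.e (nat_lit 172113) (nat_lit 10) (.e (nat_lit 434248) (nat_lit 28) (.e (nat_lit 573455) (nat_lit 9) .nil)))) .nil)) 
(.lf (nat_lit 217086) (.g (nat_lit 3754) (.e (nat_lit 90170) (nat_lit 13) (.e (nat_lit 172113) (nat_lit 10) (.e (nat_lit 434248) (nat_lit 28) (.e (nat_lit 573475) (nat_lit 12) (.e (nat_lit 57347) (nat_lit 0) (.e (nat_lit 7122) (nat_lit 382) (.e (nat_lit 1296) (nat_lit 96) (.e (nat_lit 131093) (nat_lit 2) .nil)))))))) (.g (nat_lit 5) .nil .nil)))))))) 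
(.nd (nat_lit 1) (.nd (nat_lit 2) (.nd (nat_lit 3) (.nd (nat_lit 4) (.nd (nat_lit 5) 
(.lf (nat_lit 217025) (.g (nat_lit 3573) (.e (nat_lit 90170) (nat_lit 13) (.e (nat_lit 172113) (nat_lit 10) (.e (nat_lit 434247) (nat_lit 28) (.e (nat_lit 573457) (nat_lit 9) (.e (nat_lit 13) (nat_lit 0) (.e (nat_lit 7081) (nat_lit 378) (.e (nat_lit 57876) (nat_lit 270) (.e (nat_lit 1239) (nat_lit 91) .nil)))))))) (.g (nat_lit 0) .nil .nil))) 
(.lf (nat_lit 217057) (.g (nat_lit 1974) (.e (nat_lit 90170) (nat_lit 13) (.e (nat_lit 172113) (nat_lit 10) (.e (nat_lit 434248) (nat_lit 28) (.e (nat_lit 573468) (nat_lit 10) .nil)))) .nil))) (.nd (nat_lit 5) 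
(.lf (nat_lit 217041) (.g (nat_lit 2977) (.e (nat_lit 90170) (nat_lit 13) (.e (nat_lit 172113) (nat_lit 10) (.e (nat_lit 434247) (nat_lit 28) (.e (nat_lit 573478) (nat_lit 12) (.e (nat_lit 57574) (nat_lit 55) (.e (nat_lit 778361) (nat_lit 9) (.e (nat_lit 228) (nat_lit 21) (.e (nat_lit 336008) (nat_lit 2) .nil)))))))) (.g (nat_lit 5) .nil .nil))) 
(.lf (nat_lit 217073) (.g (nat_lit 4417) (.e (nat_lit 90170) (nat_lit 13) (.e (nat_lit 172113) (nat_lit 10) (.e (nat_lit 434248) (nat_lit 28) (.e (nat_lit 573473) (nat_lit 12) (.e (nat_lit 57572) (nat_lit 54) (.e (nat_lit 770055) (nat_lit 5) (.e (nat_lit 1464) (nat_lit 108) (.e (nat_lit 336013) (nat_lit 2) .nil)))))))) (.g (nat_lit 0) .nil .nil))))) (.nd (nat_lit 4) (.nd (nat_lit 5) 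
(.lf (nat_lit 217033) (.g (nat_lit 2777) (.e (nat_lit 90170) (nat_lit 13) (.e (nat_lit 172113) (nat_lit 10) (.e (nat_lit 434247) (nat_lit 28) (.e (nat_lit 573475) (nat_lit 12) (.e (nat_lit 57574) (nat_lit 55) .nil))))) .nil)) 
(.lf (nat_lit 217065) (.g (nat_lit 1188) (.e (nat_lit 90170) (nat_lit 13) (.e (nat_lit 172113) (nat_lit 10) (.e (nat_lit 434248) (nat_lit 28) (.e (nat_lit 573473) (nat_lit 12) .nil)))) .nil))) (.nd (nat_lit 5) 
(.lf (nat_lit 217049) (.g (nat_lit 3945) (.e (nat_lit 90170) (nat_lit 13) (.e (nat_lit 172113) (nat_lit 10) (.e (nat_lit 434248) (nat_lit 28) (.e (nat_lit 573452) (nat_lit 9) (.e (nat_lit 13) (nat_lit 0) (.e (nat_lit 7077) (nat_lit 378) (.e (nat_lit 57876) (nat_lit 270) (.e (nat_lit 1239) (nat_lit 91) .nil)))))))) (.g (nat_lit 0) .nil .nil))) 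
(.lf (nat_lit 217081) (.g (nat_lit 2136) (.e (nat_lit 90170) (nat_lit 13) (.e (nat_lit 172113) (nat_lit 10) (.e (nat_lit 434248) (nat_lit 28) (.e (nat_lit 573475) (nat_lit 12) (.e (nat_lit 57344) (nat_lit 0) .nil))))) .nil))))) (.nd (nat_lit 3) (.nd (nat_lit 4) (.nd (nat_lit 5) 
(.lf (nat_lit 217029) (.g (nat_lit 1405) (.e (nat_lit 90170) (nat_lit 13) (.e (nat_lit 172113) (nat_lit 10) (.e (nat_lit 434247) (nat_lit 28) (.e (nat_lit 573475) (nat_lit 12) .nil)))) .nil)) 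
(.lf (nat_lit 217061) (.g (nat_lit 3380) (.e (nat_lit 90170) (nat_lit 13) (.e (nat_lit 172113) (nat_lit 10) (.e (nat_lit 434248) (nat_lit 28) (.e (nat_lit 573468) (nat_lit 10) (.e (nat_lit 8497) (nat_lit 182) (.e (nat_lit 123202) (nat_lit 270) (.e (nat_lit 1239) (nat_lit 91) .nil))))))) (.g (nat_lit 4) .nil .nil)))) (.nd (nat_lit 5) 
(.lf (nat_lit 217045) (.g (nat_lit 1243) (.e (nat_lit 90170) (nat_lit 13) (.e (nat_lit 172113) (nat_lit 10) (.e (nat_lit 434248) (nat_lit 28) (.e (nat_lit 573449) (nat_lit 9) .nil)))) .nil)) 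
(.lf (nat_lit 217077) (.g (nat_lit 1809) (.e (nat_lit 90170) (nat_lit 13) (.e (nat_lit 172113) (nat_lit 10) (.e (nat_lit 434248) (nat_lit 28) (.e (nat_lit 573473) (nat_lit 12) (.e (nat_lit 65280) (nat_lit 58) .nil))))) .nil)))) (.nd (nat_lit 4) (.nd (nat_lit 5) 
(.lf (nat_lit 217037) (.g (nat_lit 3606) (.e (nat_lit 90170) (nat_lit 13) (.e (nat_lit 172113) (nat_lit 10) (.e (nat_lit 434247) (nat_lit 28) (.e (nat_lit 573477) (nat_lit 12) (.e (nat_lit 57574) (nat_lit 55) (.e (nat_lit 778362) (nat_lit 9) (.e (nat_lit 246) (nat_lit 21) (.e (nat_lit 336009) (nat_lit 2) .nil)))))))) (.g (nat_lit 5) .nil .nil))) 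
(.lf (nat_lit 217069) (.g (nat_lit 4603) (.e (nat_lit 90170) (nat_lit 13) (.e (nat_lit 172113) (nat_lit 10) (.e (nat_lit 434248) (nat_lit 28) (.e (nat_lit 573473) (nat_lit 12) (.e (nat_lit 57348) (nat_lit 0) (.e (nat_lit 7125) (nat_lit 382) (.e (nat_lit 1201) (nat_lit 88) (.e (nat_lit 65566) (nat_lit 2) .nil)))))))) (.g (nat_lit 0) .nil .nil)))) (.nd (nat_lit 5) 
(.lf (nat_lit 217053) (.g (nat_lit 1957) (.e (nat_lit 90170) (nat_lit 13) (.e (nat_lit 172113) (nat_lit 10) (.e (nat_lit 434248) (nat_lit 28) (.e (nat_lit 573453) (nat_lit 9) .nil)))) .nil)) 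
(.lf (nat_lit 217085) (.g (nat_lit 1903) (.e (nat_lit 90170) (nat_lit 13) (.e (nat_lit 172113) (nat_lit 10) (.e (nat_lit 434248) (nat_lit 28) (.e (nat_lit 573475) (nat_lit 12) (.e (nat_lit 57347) (nat_lit 0) .nil))))) .nil)))))) (.nd (nat_lit 2) (.nd (nat_lit 3) (.nd (nat_lit 4) (.nd (nat_lit 5) 
(.lf (nat_lit 217027) (.g (nat_lit 1628) (.e (nat_lit 90170) (nat_lit 13) (.e (nat_lit 172113) (nat_lit 10) (.e (nat_lit 434247) (nat_lit 28) (.e (nat_lit 573473) (nat_lit 12) .nil)))) .nil)) 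
(.lf (nat_lit 217059) (.g (nat_lit 2712) (.e (nat_lit 90170) (nat_lit 13) (.e (nat_lit 172113) (nat_lit 10) (.e (nat_lit 434248) (nat_lit 28) (.e (nat_lit 573468) (nat_lit 10) (.e (nat_lit 16128) (nat_lit 180) .nil))))) .nil))) (.nd (nat_lit 5) 
(.lf (nat_lit 217043) (.g (nat_lit 359) (.e (nat_lit 90170) (nat_lit 13) (.e (nat_lit 172113) (nat_lit 10) (.e (nat_lit 434248) (nat_lit 28) .nil))) .nil)) 
(.lf (nat_lit 217075) (.g (nat_lit 2454) (.e (nat_lit 90170) (nat_lit 13) (.e (nat_lit 172113) (nat_lit 10) (.e (nat_lit 434248) (nat_lit 28) (.e (nat_lit 573473) (nat_lit 12) (.e (nat_lit 65280) (nat_lit 57) (.e (nat_lit 794637) (nat_lit 11) (.e (nat_lit 336002) (nat_lit 2) .nil))))))) (.g (nat_lit 4) .nil .nil))))) (.nd (nat_lit 4) (.nd (nat_lit 5) 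
(.lf (nat_lit 217035) (.g (nat_lit 1756) (.e (nat_lit 90170) (nat_lit 13) (.e (nat_lit 172113) (nat_lit 10) (.e (nat_lit 434247) (nat_lit 28) (.e (nat_lit 573477) (nat_lit 12) (.e (nat_lit 57353) (nat_lit 0) .nil))))) .nil)) 
(.lf (nat_lit 217067) (.g (nat_lit 3735) (.e (nat_lit 90170) (nat_lit 13) (.e (nat_lit 172113) (nat_lit 10) (.e (nat_lit 434248) (nat_lit 28) (.e (nat_lit 573473) (nat_lit 12) (.e (nat_lit 57347) (nat_lit 0) (.e (nat_lit 7124) (nat_lit 382) (.e (nat_lit 1201) (nat_lit 88) (.e (nat_lit 65566) (nat_lit 2) .nil)))))))) (.g (nat_lit 5) .nil .nil)))) (.nd (nat_lit 5) 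
(.lf (nat_lit 217051) (.g (nat_lit 2837) (.e (nat_lit 90170) (nat_lit 13) (.e (nat_lit 172113) (nat_lit 10) (.e (nat_lit 434248) (nat_lit 28) (.e (nat_lit 573452) (nat_lit 9) (.e (nat_lit 13) (nat_lit 0) (.e (nat_lit 7081) (nat_lit 378) (.e (nat_lit 57884) (nat_lit 270) (.e (nat_lit 1232) (nat_lit 91) .nil)))))))) (.g (nat_lit 4) .nil .nil))) 
(.lf (nat_lit 217083) (.g (nat_lit 2808) (.e (nat_lit 90170) (nat_lit 13) (.e (nat_lit 172113) (nat_lit 10) (.e (nat_lit 434248) (nat_lit 28) (.e (nat_lit 573475) (nat_lit 12) (.e (nat_lit 57344) (nat_lit 0) (.e (nat_lit 7272) (nat_lit 385) (.e (nat_lit 122903) (nat_lit 12) (.e (nat_lit 336013) (nat_lit 2) .nil)))))))) (.g (nat_lit 4) .nil .nil)))))) 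
(.nd (nat_lit 3) (.nd (nat_lit 4) (.nd (nat_lit 5) 
(.lf (nat_lit 217031) (.g (nat_lit 2843) (.e (nat_lit 90170) (nat_lit 13) (.e (nat_lit 172113) (nat_lit 10) (.e (nat_lit 434247) (nat_lit 28) (.e (nat_lit 573475) (nat_lit 12) (.e (nat_lit 57570) (nat_lit 54) .nil))))) .nil)) 
(.lf (nat_lit 217063) (.g (nat_lit 2003) (.e (nat_lit 90170) (nat_lit 13) (.e (nat_lit 172113) (nat_lit 10) (.e (nat_lit 434248) (nat_lit 28) (.e (nat_lit 573471) (nat_lit 11) (.e (nat_lit 16396) (nat_lit 0) .nil))))) .nil))) (.nd (nat_lit 5) 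
(.lf (nat_lit 217047) (.g (nat_lit 2020) (.e (nat_lit 90170) (nat_lit 13) (.e (nat_lit 172113) (nat_lit 10) (.e (nat_lit 434248) (nat_lit 28) (.e (nat_lit 573449) (nat_lit 9) (.e (nat_lit 974) (nat_lit 81) .nil))))) .nil)) 
(.lf (nat_lit 217079) (.g (nat_lit 4032) (.e (nat_lit 90170) (nat_lit 13) (.e (nat_lit 172113) (nat_lit 10) (.e (nat_lit 434248) (nat_lit 28) (.e (nat_lit 573474) (nat_lit 12) (.e (nat_lit 57572) (nat_lit 54) (.e (nat_lit 770071) (nat_lit 8) (.e (nat_lit 65566) (nat_lit 2) .nil))))))) (.g (nat_lit 5) .nil .nil))))) (.nd (nat_lit 4) (.nd (nat_lit 5) 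
(.lf (nat_lit 217039) (.g (nat_lit 1940) (.e (nat_lit 90170) (nat_lit 13) (.e (nat_lit 172113) (nat_lit 10) (.e (nat_lit 434247) (nat_lit 28) (.e (nat_lit 573477) (nat_lit 12) (.e (nat_lit 65280) (nat_lit 57) .nil))))) .nil)) 
(.lf (nat_lit 217071) (.g (nat_lit 4125) (.e (nat_lit 90170) (nat_lit 13) (.e (nat_lit 172113) (nat_lit 10) (.e (nat_lit 434248) (nat_lit 28) (.e (nat_lit 573473) (nat_lit 12) (.e (nat_lit 57353) (nat_lit 0) (.e (nat_lit 7265) (nat_lit 384) (.e (nat_lit 57404) (nat_lit 12) (.e (nat_lit 336013) (nat_lit 2) .nil)))))))) (.g (nat_lit 0) .nil .nil)))) (.nd (nat_lit 5) 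
(.lf (nat_lit 217055) (.g (nat_lit 1957) (.e (nat_lit 90170) (nat_lit 13) (.e (nat_lit 172113) (nat_lit 10) (.e (nat_lit 434248) (nat_lit 28) (.e (nat_lit 573456) (nat_lit 9) .nil)))) .nil)) 
(.lf (nat_lit 217087) (.g (nat_lit 2857) (.e (nat_lit 90170) (nat_lit 13) (.e (nat_lit 172113) (nat_lit 10) (.e (nat_lit 434248) (nat_lit 28) (.e (nat_lit 573475) (nat_lit 12) (.e (nat_lit 57347) (nat_lit 0) (.e (nat_lit 7124) (nat_lit 382) (.e (nat_lit 1296) (nat_lit 96) (.e (nat_lit 131092) (nat_lit 2) .nil)))))))) (.g (nat_lit 4) .nil .nil)))))))))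

noncomputable def tv2853 : DT := (.nd (nat_lit 0) (.nd (nat_lit 1) (.nd (nat_lit 2) (.nd (nat_lit 3) (.nd (nat_lit 4) (.nd (nat_lit 5) 
(.lf (nat_lit 217088) (.g (nat_lit 3877) (.e (nat_lit 90170) (nat_lit 13) (.e (nat_lit 172113) (nat_lit 10) (.e (nat_lit 434248) (nat_lit 28) (.e (nat_lit 573475) (nat_lit 12) (.e (nat_lit 57347) (nat_lit 0) (.e (nat_lit 7125) (nat_lit 382) (.e (nat_lit 1201) (nat_lit 88) (.e (nat_lit 65567) (nat_lit 2) .nil)))))))) (.g (nat_lit 5) .nil .nil))) 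
(.lf (nat_lit 217120) (.g (nat_lit 520) (.e (nat_lit 90170) (nat_lit 13) (.e (nat_lit 172113) (nat_lit 10) (.e (nat_lit 442112) (nat_lit 45) .nil))) .nil))) (.nd (nat_lit 5) 
(.lf (nat_lit 217104) (.g (nat_lit 2707) (.e (nat_lit 90170) (nat_lit 13) (.e (nat_lit 172113) (nat_lit 10) (.e (nat_lit 434248) (nat_lit 28) (.e (nat_lit 573475) (nat_lit 12) (.e (nat_lit 57574) (nat_lit 55) (.e (nat_lit 778360) (nat_lit 9) (.e (nat_lit 246) (nat_lit 21) (.e (nat_lit 336010) (nat_lit 2) .nil)))))))) (.g (nat_lit 4) .nil .nil))) 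
(.lf (nat_lit 217136) (.g (nat_lit 3412) (.e (nat_lit 90170) (nat_lit 13) (.e (nat_lit 172115) (nat_lit 10) (.e (nat_lit 434231) (nat_lit 23) (.e (nat_lit 532523) (nat_lit 7) (.e (nat_lit 319511) (nat_lit 10) (.e (nat_lit 5293) (nat_lit 298) (.e (nat_lit 1232) (nat_lit 91) .nil))))))) (.g (nat_lit 4) .nil .nil))))) (.nd (nat_lit 4) (.nd (nat_lit 5) 
(.lf (nat_lit 217096) (.g (nat_lit 3244) (.e (nat_lit 90170) (nat_lit 13) (.e (nat_lit 172113) (nat_lit 10) (.e (nat_lit 434248) (nat_lit 28) (.e (nat_lit 573475) (nat_lit 12) (.e (nat_lit 57569) (nat_lit 53) (.e (nat_lit 761867) (nat_lit 5) (.e (nat_lit 1454) (nat_lit 108) (.e (nat_lit 336008) (nat_lit 2) .nil)))))))) (.g (nat_lit 4) .nil .nil))) 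
(.lf (nat_lit 217128) (.g (nat_lit 1348) (.e (nat_lit 90170) (nat_lit 13) (.e (nat_lit 172115) (nat_lit 10) (.e (nat_lit 434231) (nat_lit 23) (.e (nat_lit 532522) (nat_lit 7) .nil)))) .nil))) (.nd (nat_lit 5) 
(.lf (nat_lit 217112) (.g (nat_lit 2619) (.e (nat_lit 90170) (nat_lit 13) (.e (nat_lit 172113) (nat_lit 10) (.e (nat_lit 434248) (nat_lit 28) (.e (nat_lit 573477) (nat_lit 12) (.e (nat_lit 57353) (nat_lit 0) .nil))))) .nil)) 
(.lf (nat_lit 217144) (.g (nat_lit 2710) (.e (nat_lit 90170) (nat_lit 13) (.e (nat_lit 172115) (nat_lit 10) (.e (nat_lit 434244) (nat_lit 28) (.e (nat_lit 573471) (nat_lit 11) (.e (nat_lit 16392) (nat_lit 0) .nil))))) .nil))))) (.nd (nat_lit 3) (.nd (nat_lit 4) (.nd (nat_lit 5) 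
(.lf (nat_lit 217092) (.g (nat_lit 3080) (.e (nat_lit 90170) (nat_lit 13) (.e (nat_lit 172113) (nat_lit 10) (.e (nat_lit 434248) (nat_lit 28) (.e (nat_lit 573475) (nat_lit 12) (.e (nat_lit 57568) (nat_lit 53) (.e (nat_lit 761866) (nat_lit 5) (.e (nat_lit 1454) (nat_lit 108) (.e (nat_lit 336008) (nat_lit 2) .nil)))))))) (.g (nat_lit 4) .nil .nil))) 
(.lf (nat_lit 217124) (.g (nat_lit 957) (.e (nat_lit 90170) (nat_lit 13) (.e (nat_lit 172115) (nat_lit 10) (.e (nat_lit 434231) (nat_lit 23) (.e (nat_lit 532482) (nat_lit 0) .nil)))) .nil))) (.nd (nat_lit 5) 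
(.lf (nat_lit 217108) (.g (nat_lit 3294) (.e (nat_lit 90170) (nat_lit 13) (.e (nat_lit 172113) (nat_lit 10) (.e (nat_lit 434248) (nat_lit 28) (.e (nat_lit 573475) (nat_lit 12) (.e (nat_lit 57574) (nat_lit 55) (.e (nat_lit 778362) (nat_lit 9) (.e (nat_lit 232) (nat_lit 21) (.e (nat_lit 336005) (nat_lit 2) .nil)))))))) (.g (nat_lit 4) .nil .nil))) 
(.lf (nat_lit 217140) (.g (nat_lit 1148) (.e (nat_lit 90170) (nat_lit 13) (.e (nat_lit 172115) (nat_lit 10) (.e (nat_lit 434238) (nat_lit 25) (.e (nat_lit 548913) (nat_lit 18) .nil)))) .nil)))) (.nd (nat_lit 4) (.nd (nat_lit 5) 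
(.lf (nat_lit 217100) (.g (nat_lit 4978) (.e (nat_lit 90170) (nat_lit 13) (.e (nat_lit 172113) (nat_lit 10) (.e (nat_lit 434248) (nat_lit 28) (.e (nat_lit 573475) (nat_lit 12) (.e (nat_lit 57572) (nat_lit 54) (.e (nat_lit 770055) (nat_lit 5) (.e (nat_lit 1464) (nat_lit 108) (.e (nat_lit 336013) (nat_lit 2) .nil)))))))) (.g (nat_lit 0) .nil .nil))) 
(.lf (nat_lit 217132) (.g (nat_lit 4227) (.e (nat_lit 90170) (nat_lit 13) (.e (nat_lit 172115) (nat_lit 10) (.e (nat_lit 434231) (nat_lit 23) (.e (nat_lit 532523) (nat_lit 7) (.e (nat_lit 319505) (nat_lit 10) (.e (nat_lit 5258) (nat_lit 298) (.e (nat_lit 1239) (nat_lit 91) .nil))))))) (.g (nat_lit 4) .nil .nil)))) (.nd (nat_lit 5) 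
(.lf (nat_lit 217116) (.g (nat_lit 1957) (.e (nat_lit 90170) (nat_lit 13) (.e (nat_lit 172113) (nat_lit 10) (.e (nat_lit 434248) (nat_lit 28) (.e (nat_lit 573495) (nat_lit 16) .nil)))) .nil)) 
(.lf (nat_lit 217148) (.g (nat_lit 2659) (.e (nat_lit 90170) (nat_lit 13) (.e (nat_lit 172118) (nat_lit 12) (.e (nat_lit 475177) (nat_lit 24) (.e (nat_lit 516129) (nat_lit 3) (.e (nat_lit 221193) (nat_lit 11) (.e (nat_lit 336010) (nat_lit 2) .nil)))))) (.g (nat_lit 5) .nil .nil))))))) (.nd (nat_lit 2) (.nd (nat_lit 3) (.nd (nat_lit 4) (.nd (nat_lit 5) 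
(.lf (nat_lit 217090) (.g (nat_lit 3249) (.e (nat_lit 90170) (nat_lit 13) (.e (nat_lit 172113) (nat_lit 10) (.e (nat_lit 434248) (nat_lit 28) (.e (nat_lit 573475) (nat_lit 12) (.e (nat_lit 57347) (nat_lit 0) (.e (nat_lit 7265) (nat_lit 384) (.e (nat_lit 57347) (nat_lit 0) (.e (nat_lit 7936) (nat_lit 343) (.e (nat_lit 1239) (nat_lit 91) .nil))))))))) (.g (nat_lit 5) .nil .nil))) 
(.lf (nat_lit 217122) (.g (nat_lit 968) (.e (nat_lit 90170) (nat_lit 13) (.e (nat_lit 172115) (nat_lit 10) (.e (nat_lit 434231) (nat_lit 23) (.e (nat_lit 532481) (nat_lit 0) .nil)))) .nil))) (.nd (nat_lit 5) 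
(.lf (nat_lit 217106) (.g (nat_lit 4472) (.e (nat_lit 90170) (nat_lit 13) (.e (nat_lit 172113) (nat_lit 10) (.e (nat_lit 434248) (nat_lit 28) (.e (nat_lit 573475) (nat_lit 12) (.e (nat_lit 57574) (nat_lit 55) (.e (nat_lit 778361) (nat_lit 9) (.e (nat_lit 246) (nat_lit 21) (.e (nat_lit 336009) (nat_lit 2) .nil)))))))) (.g (nat_lit 6) .nil .nil))) 
(.lf (nat_lit 217138) (.g (nat_lit 3395) (.e (nat_lit 90170) (nat_lit 13) (.e (nat_lit 172115) (nat_lit 10) (.e (nat_lit 434231) (nat_lit 23) (.e (nat_lit 532523) (nat_lit 7) (.e (nat_lit 319532) (nat_lit 16) .nil))))) .nil)))) (.nd (nat_lit 4) (.nd (nat_lit 5) 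
(.lf (nat_lit 217098) (.g (nat_lit 4497) (.e (nat_lit 90170) (nat_lit 13) (.e (nat_lit 172113) (nat_lit 10) (.e (nat_lit 434248) (nat_lit 28) (.e (nat_lit 573475) (nat_lit 12) (.e (nat_lit 57570) (nat_lit 54) (.e (nat_lit 770058) (nat_lit 5) (.e (nat_lit 1464) (nat_lit 108) (.e (nat_lit 336013) (nat_lit 2) .nil)))))))) (.g (nat_lit 0) .nil .nil))) 
(.lf (nat_lit 217130) (.g (nat_lit 4292) (.e (nat_lit 90170) (nat_lit 13) (.e (nat_lit 172115) (nat_lit 10) (.e (nat_lit 434231) (nat_lit 23) (.e (nat_lit 532523) (nat_lit 7) (.e (nat_lit 319503) (nat_lit 10) .nil))))) .nil))) (.nd (nat_lit 5) 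
(.lf (nat_lit 217114) (.g (nat_lit 2429) (.e (nat_lit 90170) (nat_lit 13) (.e (nat_lit 172113) (nat_lit 10) (.e (nat_lit 434248) (nat_lit 28) (.e (nat_lit 573477) (nat_lit 12) (.e (nat_lit 57575) (nat_lit 55) .nil))))) .nil)) 
(.lf (nat_lit 217146) (.g (nat_lit 4127) (.e (nat_lit 90170) (nat_lit 13) (.e (nat_lit 172115) (nat_lit 10) (.e (nat_lit 434244) (nat_lit 28) (.e (nat_lit 573474) (nat_lit 12) (.e (nat_lit 57572) (nat_lit 54) .nil))))) .nil))))) (.nd (nat_lit 3) (.nd (nat_lit 4) (.nd (nat_lit 5) 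
(.lf (nat_lit 217094) (.g (nat_lit 4088) (.e (nat_lit 90170) (nat_lit 13) (.e (nat_lit 172113) (nat_lit 10) (.e (nat_lit 434248) (nat_lit 28) (.e (nat_lit 573475) (nat_lit 12) (.e (nat_lit 57568) (nat_lit 53) (.e (nat_lit 761869) (nat_lit 5) (.e (nat_lit 1463) (nat_lit 108) (.e (nat_lit 336013) (nat_lit 2) .nil)))))))) (.g (nat_lit 0) .nil .nil))) 
(.lf (nat_lit 217126) (.g (nat_lit 1184) (.e (nat_lit 90170) (nat_lit 13) (.e (nat_lit 172115) (nat_lit 10) (.e (nat_lit 434231) (nat_lit 23) (.e (nat_lit 532490) (nat_lit 0) .nil)))) .nil))) (.nd (nat_lit 5) 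
(.lf (nat_lit 217110) (.g (nat_lit 1344) (.e (nat_lit 90170) (nat_lit 13) (.e (nat_lit 172113) (nat_lit 10) (.e (nat_lit 434248) (nat_lit 28) (.e (nat_lit 573476) (nat_lit 12) .nil)))) .nil)) 
(.lf (nat_lit 217142) (.g (nat_lit 1950) (.e (nat_lit 90170) (nat_lit 13) (.e (nat_lit 172115) (nat_lit 10) (.e (nat_lit 434244) (nat_lit 28) (.e (nat_lit 573450) (nat_lit 9) (.e (nat_lit 442) (nat_lit 33) .nil))))) .nil)))) (.nd (nat_lit 4) (.nd (nat_lit 5) 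
(.lf (nat_lit 217102) (.g (nat_lit 2055) (.e (nat_lit 90170) (nat_lit 13) (.e (nat_lit 172113) (nat_lit 10) (.e (nat_lit 434248) (nat_lit 28) (.e (nat_lit 573475) (nat_lit 12) (.e (nat_lit 57574) (nat_lit 55) .nil))))) .nil)) 
(.lf (nat_lit 217134) (.g (nat_lit 4055) (.e (nat_lit 90170) (nat_lit 13) (.e (nat_lit 172115) (nat_lit 10) (.e (nat_lit 434231) (nat_lit 23) (.e (nat_lit 532523) (nat_lit 7) (.e (nat_lit 319505) (nat_lit 10) (.e (nat_lit 7936) (nat_lit 298) (.e (nat_lit 1239) (nat_lit 91) .nil))))))) (.g (nat_lit 4) .nil .nil)))) (.nd (nat_lit 5) 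
(.lf (nat_lit 217118) (.g (nat_lit 2620) (.e (nat_lit 90170) (nat_lit 13) (.e (nat_lit 172113) (nat_lit 10) (.e (nat_lit 434284) (nat_lit 41) (.e (nat_lit 679974) (nat_lit 15) (.e (nat_lit 24665) (nat_lit 14) (.e (nat_lit 409344) (nat_lit 17) .nil)))))) (.g (nat_lit 5) .nil .nil))) 
(.lf (nat_lit 217150) (.g (nat_lit 1798) (.e (nat_lit 90170) (nat_lit 13) (.e (nat_lit 172118) (nat_lit 12) (.e (nat_lit 475178) (nat_lit 24) (.e (nat_lit 516124) (nat_lit 2) (.e (nat_lit 213030) (nat_lit 11) (.e (nat_lit 24605) (nat_lit 2) .nil)))))) (.g (nat_lit 4) .nil .nil)))))))) (.nd (nat_lit 1) (.nd (nat_lit 2) (.nd (nat_lit 3) (.nd (nat_lit 4) (.nd (nat_lit 5) 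
(.lf (nat_lit 217089) (.g (nat_lit 2813) (.e (nat_lit 90170) (nat_lit 13) (.e (nat_lit 172113) (nat_lit 10) (.e (nat_lit 434248) (nat_lit 28) (.e (nat_lit 573475) (nat_lit 12) (.e (nat_lit 57347) (nat_lit 0) (.e (nat_lit 7125) (nat_lit 382) (.e (nat_lit 1296) (nat_lit 96) (.e (nat_lit 131092) (nat_lit 2) .nil)))))))) (.g (nat_lit 4) .nil .nil))) 
(.lf (nat_lit 217121) (.g (nat_lit 413) (.e (nat_lit 90170) (nat_lit 13) (.e (nat_lit 172113) (nat_lit 10) (.e (nat_lit 434295) (nat_lit 49) .nil))) .nil))) (.nd (nat_lit 5) 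
(.lf (nat_lit 217105) (.g (nat_lit 3606) (.e (nat_lit 90170) (nat_lit 13) (.e (nat_lit 172113) (nat_lit 10) (.e (nat_lit 434248) (nat_lit 28) (.e (nat_lit 573475) (nat_lit 12) (.e (nat_lit 57574) (nat_lit 55) (.e (nat_lit 778361) (nat_lit 9) (.e (nat_lit 228) (nat_lit 21) (.e (nat_lit 336008) (nat_lit 2) .nil)))))))) (.g (nat_lit 5) .nil .nil))) 
(.lf (nat_lit 217137) (.g (nat_lit 3438) (.e (nat_lit 90170) (nat_lit 13) (.e (nat_lit 172115) (nat_lit 10) (.e (nat_lit 434231) (nat_lit 23) (.e (nat_lit 532523) (nat_lit 7) (.e (nat_lit 327424) (nat_lit 10) .nil))))) .nil)))) (.nd (nat_lit 4) (.nd (nat_lit 5) 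
(.lf (nat_lit 217097) (.g (nat_lit 4534) (.e (nat_lit 90170) (nat_lit 13) (.e (nat_lit 172113) (nat_lit 10) (.e (nat_lit 434248) (nat_lit 28) (.e (nat_lit 573475) (nat_lit 12) (.e (nat_lit 57570) (nat_lit 54) (.e (nat_lit 770055) (nat_lit 5) (.e (nat_lit 1464) (nat_lit 108) (.e (nat_lit 336013) (nat_lit 2) .nil)))))))) (.g (nat_lit 0) .nil .nil))) 
(.lf (nat_lit 217129) (.g (nat_lit 4380) (.e (nat_lit 90170) (nat_lit 13) (.e (nat_lit 172115) (nat_lit 10) (.e (nat_lit 434231) (nat_lit 23) (.e (nat_lit 532523) (nat_lit 7) (.e (nat_lit 319496) (nat_lit 10) .nil))))) .nil))) (.nd (nat_lit 5) 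
(.lf (nat_lit 217113) (.g (nat_lit 2665) (.e (nat_lit 90170) (nat_lit 13) (.e (nat_lit 172113) (nat_lit 10) (.e (nat_lit 434248) (nat_lit 28) (.e (nat_lit 573477) (nat_lit 12) (.e (nat_lit 57574) (nat_lit 55) .nil))))) .nil)) 
(.lf (nat_lit 217145) (.g (nat_lit 1591) (.e (nat_lit 90170) (nat_lit 13) (.e (nat_lit 172115) (nat_lit 10) (.e (nat_lit 434244) (nat_lit 28) (.e (nat_lit 573474) (nat_lit 12) .nil)))) .nil))))) (.nd (nat_lit 3) (.nd (nat_lit 4) (.nd (nat_lit 5) 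
(.lf (nat_lit 217093) (.g (nat_lit 3060) (.e (nat_lit 90170) (nat_lit 13) (.e (nat_lit 172113) (nat_lit 10) (.e (nat_lit 434248) (nat_lit 28) (.e (nat_lit 573475) (nat_lit 12) (.e (nat_lit 57568) (nat_lit 53) (.e (nat_lit 761867) (nat_lit 5) (.e (nat_lit 1454) (nat_lit 108) (.e (nat_lit 336008) (nat_lit 2) .nil)))))))) (.g (nat_lit 4) .nil .nil))) 
(.lf (nat_lit 217125) (.g (nat_lit 1454) (.e (nat_lit 90170) (nat_lit 13) (.e (nat_lit 172115) (nat_lit 10) (.e (nat_lit 434231) (nat_lit 23) (.e (nat_lit 532486) (nat_lit 0) .nil)))) .nil))) (.nd (nat_lit 5) 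
(.lf (nat_lit 217109) (.g (nat_lit 2066) (.e (nat_lit 90170) (nat_lit 13) (.e (nat_lit 172113) (nat_lit 10) (.e (nat_lit 434248) (nat_lit 28) (.e (nat_lit 573475) (nat_lit 12) (.e (nat_lit 65280) (nat_lit 57) .nil))))) .nil)) 
(.lf (nat_lit 217141) (.g (nat_lit 1269) (.e (nat_lit 90170) (nat_lit 13) (.e (nat_lit 172115) (nat_lit 10) (.e (nat_lit 434238) (nat_lit 25) (.e (nat_lit 548914) (nat_lit 19) .nil)))) .nil)))) (.nd (nat_lit 4) (.nd (nat_lit 5) 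
(.lf (nat_lit 217101) (.g (nat_lit 2939) (.e (nat_lit 90170) (nat_lit 13) (.e (nat_lit 172113) (nat_lit 10) (.e (nat_lit 434248) (nat_lit 28) (.e (nat_lit 573475) (nat_lit 12) (.e (nat_lit 57572) (nat_lit 54) (.e (nat_lit 770072) (nat_lit 8) (.e (nat_lit 65567) (nat_lit 2) .nil))))))) (.g (nat_lit 4) .nil .nil))) 
(.lf (nat_lit 217133) (.g (nat_lit 3854) (.e (nat_lit 90170) (nat_lit 13) (.e (nat_lit 172115) (nat_lit 10) (.e (nat_lit 434231) (nat_lit 23) (.e (nat_lit 532523) (nat_lit 7) (.e (nat_lit 319505) (nat_lit 10) (.e (nat_lit 5351) (nat_lit 298) (.e (nat_lit 1234) (nat_lit 91) .nil))))))) (.g (nat_lit 4) .nil .nil)))) (.nd (nat_lit 5) 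
(.lf (nat_lit 217117) (.g (nat_lit 677) (.e (nat_lit 90170) (nat_lit 13) (.e (nat_lit 172113) (nat_lit 10) (.e (nat_lit 434283) (nat_lit 41) .nil))) .nil)) 
(.lf (nat_lit 217149) (.g (nat_lit 2377) (.e (nat_lit 90170) (nat_lit 13) (.e (nat_lit 172118) (nat_lit 12) (.e (nat_lit 475177) (nat_lit 24) (.e (nat_lit 516131) (nat_lit 3) (.e (nat_lit 221193) (nat_lit 11) (.e (nat_lit 336010) (nat_lit 2) .nil)))))) (.g (nat_lit 5) .nil .nil))))))) (.nd (nat_lit 2) (.nd (nat_lit 3) (.nd (nat_lit 4) (.nd (nat_lit 5) 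
(.lf (nat_lit 217091) (.g (nat_lit 2567) (.e (nat_lit 90170) (nat_lit 13) (.e (nat_lit 172113) (nat_lit 10) (.e (nat_lit 434248) (nat_lit 28) (.e (nat_lit 573475) (nat_lit 12) (.e (nat_lit 57351) (nat_lit 0) (.e (nat_lit 7265) (nat_lit 384) (.e (nat_lit 57347) (nat_lit 0) (.e (nat_lit 7936) (nat_lit 343) (.e (nat_lit 1239) (nat_lit 91) .nil))))))))) (.g (nat_lit 4) .nil .nil))) 
(.lf (nat_lit 217123) (.g (nat_lit 2082) (.e (nat_lit 90170) (nat_lit 13) (.e (nat_lit 172115) (nat_lit 10) (.e (nat_lit 434231) (nat_lit 23) (.e (nat_lit 532481) (nat_lit 0) (.e (nat_lit 6712) (nat_lit 360) .nil))))) .nil))) (.nd (nat_lit 5) 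
(.lf (nat_lit 217107) (.g (nat_lit 3596) (.e (nat_lit 90170) (nat_lit 13) (.e (nat_lit 172113) (nat_lit 10) (.e (nat_lit 434248) (nat_lit 28) (.e (nat_lit 573475) (nat_lit 12) (.e (nat_lit 57574) (nat_lit 55) (.e (nat_lit 778362) (nat_lit 9) (.e (nat_lit 228) (nat_lit 21) (.e (nat_lit 336008) (nat_lit 2) .nil)))))))) (.g (nat_lit 5) .nil .nil))) 
(.lf (nat_lit 217139) (.g (nat_lit 1289) (.e (nat_lit 90170) (nat_lit 13) (.e (nat_lit 172115) (nat_lit 10) (.e (nat_lit 434231) (nat_lit 23) (.e (nat_lit 532526) (nat_lit 8) .nil)))) .nil)))) (.nd (nat_lit 4) (.nd (nat_lit 5) 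
(.lf (nat_lit 217099) (.g (nat_lit 2144) (.e (nat_lit 90170) (nat_lit 13) (.e (nat_lit 172113) (nat_lit 10) (.e (nat_lit 434248) (nat_lit 28) (.e (nat_lit 573475) (nat_lit 12) (.e (nat_lit 57571) (nat_lit 54) .nil))))) .nil)) 
(.lf (nat_lit 217131) (.g (nat_lit 3049) (.e (nat_lit 90170) (nat_lit 13) (.e (nat_lit 172115) (nat_lit 10) (.e (nat_lit 434231) (nat_lit 23) (.e (nat_lit 532523) (nat_lit 7) (.e (nat_lit 319504) (nat_lit 10) .nil))))) .nil))) (.nd (nat_lit 5) 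
(.lf (nat_lit 217115) (.g (nat_lit 1957) (.e (nat_lit 90170) (nat_lit 13) (.e (nat_lit 172113) (nat_lit 10) (.e (nat_lit 434248) (nat_lit 28) (.e (nat_lit 573478) (nat_lit 12) .nil)))) .nil)) 
(.lf (nat_lit 217147) (.g (nat_lit 1818) (.e (nat_lit 90170) (nat_lit 13) (.e (nat_lit 172118) (nat_lit 12) (.e (nat_lit 475176) (nat_lit 24) (.e (nat_lit 516131) (nat_lit 3) (.e (nat_lit 221193) (nat_lit 11) (.e (nat_lit 336010) (nat_lit 2) .nil)))))) (.g (nat_lit 4) .nil .nil)))))) (.nd (nat_lit 3) (.nd (nat_lit 4) (.nd (nat_lit 5) 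
(.lf (nat_lit 217095) (.g (nat_lit 3150) (.e (nat_lit 90170) (nat_lit 13) (.e (nat_lit 172113) (nat_lit 10) (.e (nat_lit 434248) (nat_lit 28) (.e (nat_lit 573475) (nat_lit 12) (.e (nat_lit 57569) (nat_lit 53) (.e (nat_lit 761866) (nat_lit 5) (.e (nat_lit 1454) (nat_lit 108) (.e (nat_lit 336005) (nat_lit 2) .nil)))))))) (.g (nat_lit 4) .nil .nil))) 
(.lf (nat_lit 217127) (.g (nat_lit 1967) (.e (nat_lit 90170) (nat_lit 13) (.e (nat_lit 172115) (nat_lit 10) (.e (nat_lit 434231) (nat_lit 23) (.e (nat_lit 532490) (nat_lit 0) (.e (nat_lit 6092) (nat_lit 332) .nil))))) .nil))) (.nd (nat_lit 5) 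
(.lf (nat_lit 217111) (.g (nat_lit 2022) (.e (nat_lit 90170) (nat_lit 13) (.e (nat_lit 172113) (nat_lit 10) (.e (nat_lit 434248) (nat_lit 28) (.e (nat_lit 573477) (nat_lit 12) .nil)))) .nil)) 
(.lf (nat_lit 217143) (.g (nat_lit 3186) (.e (nat_lit 90170) (nat_lit 13) (.e (nat_lit 172115) (nat_lit 10) (.e (nat_lit 434244) (nat_lit 28) (.e (nat_lit 573471) (nat_lit 11) (.e (nat_lit 16388) (nat_lit 0) .nil))))) .nil)))) (.nd (nat_lit 4) (.nd (nat_lit 5) 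
(.lf (nat_lit 217103) (.g (nat_lit 2773) (.e (nat_lit 90170) (nat_lit 13) (.e (nat_lit 172113) (nat_lit 10) (.e (nat_lit 434248) (nat_lit 28) (.e (nat_lit 573475) (nat_lit 12) (.e (nat_lit 57574) (nat_lit 55) (.e (nat_lit 778359) (nat_lit 9) (.e (nat_lit 276) (nat_lit 21) (.e (nat_lit 336010) (nat_lit 2) .nil)))))))) (.g (nat_lit 4) .nil .nil))) 
(.lf (nat_lit 217135) (.g (nat_lit 3769) (.e (nat_lit 90170) (nat_lit 13) (.e (nat_lit 172115) (nat_lit 10) (.e (nat_lit 434231) (nat_lit 23) (.e (nat_lit 532523) (nat_lit 7) (.e (nat_lit 319511) (nat_lit 10) (.e (nat_lit 5270) (nat_lit 298) (.e (nat_lit 1239) (nat_lit 91) .nil))))))) (.g (nat_lit 4) .nil .nil)))) (.nd (nat_lit 5) 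
(.lf (nat_lit 217119) (.g (nat_lit 520) (.e (nat_lit 90170) (nat_lit 13) (.e (nat_lit 172113) (nat_lit 10) (.e (nat_lit 442112) (nat_lit 44) .nil))) .nil)) 
(.lf (nat_lit 217151) (.g (nat_lit 1790) (.e (nat_lit 90170) (nat_lit 13) (.e (nat_lit 172118) (nat_lit 12) (.e (nat_lit 475178) (nat_lit 24) (.e (nat_lit 516127) (nat_lit 2) (.e (nat_lit 213030) (nat_lit 11) (.e (nat_lit 24605) (nat_lit 2) .nil)))))) (.g (nat_lit 4) .nil .nil)))))))))

noncomputable def tv2854 : DT := (.nd (nat_lit 0) (.nd (nat_lit 1) (.nd (nat_lit 2) (.nd (nat_lit 3) (.nd (nat_lit 4) (.nd (nat_lit 5) 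
(.lf (nat_lit 217152) (.g (nat_lit 2183) (.e (nat_lit 90170) (nat_lit 13) (.e (nat_lit 172118) (nat_lit 12) (.e (nat_lit 475178) (nat_lit 24) (.e (nat_lit 516129) (nat_lit 3) (.e (nat_lit 221194) (nat_lit 11) (.e (nat_lit 336010) (nat_lit 2) .nil)))))) (.g (nat_lit 4) .nil .nil))) 
(.lf (nat_lit 217184) (.g (nat_lit 1841) (.e (nat_lit 90170) (nat_lit 13) (.e (nat_lit 172120) (nat_lit 12) (.e (nat_lit 475179) (nat_lit 24) (.e (nat_lit 516130) (nat_lit 3) (.e (nat_lit 229120) (nat_lit 11) .nil))))) .nil))) (.nd (nat_lit 5) 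
(.lf (nat_lit 217168) (.g (nat_lit 3041) (.e (nat_lit 90170) (nat_lit 13) (.e (nat_lit 172119) (nat_lit 12) (.e (nat_lit 475185) (nat_lit 29) (.e (nat_lit 557103) (nat_lit 14) (.e (nat_lit 180278) (nat_lit 32) .nil))))) .nil)) 
(.lf (nat_lit 217200) (.g (nat_lit 824) (.e (nat_lit 90170) (nat_lit 13) (.e (nat_lit 172121) (nat_lit 13) (.e (nat_lit 483333) (nat_lit 0) (.e (nat_lit 6972) (nat_lit 377) .nil)))) .nil)))) (.nd (nat_lit 4) (.nd (nat_lit 5) 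
(.lf (nat_lit 217160) (.g (nat_lit 2650) (.e (nat_lit 90170) (nat_lit 13) (.e (nat_lit 172118) (nat_lit 12) (.e (nat_lit 475185) (nat_lit 29) (.e (nat_lit 557100) (nat_lit 13) (.e (nat_lit 172037) (nat_lit 0) (.e (nat_lit 7557) (nat_lit 402) (.e (nat_lit 1235) (nat_lit 91) .nil))))))) (.g (nat_lit 4) .nil .nil))) 
(.lf (nat_lit 217192) (.g (nat_lit 3431) (.e (nat_lit 90170) (nat_lit 13) (.e (nat_lit 172120) (nat_lit 12) (.e (nat_lit 475185) (nat_lit 29) (.e (nat_lit 557098) (nat_lit 13) (.e (nat_lit 172037) (nat_lit 0) .nil))))) .nil))) (.nd (nat_lit 5) 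
(.lf (nat_lit 217176) (.g (nat_lit 1547) (.e (nat_lit 90170) (nat_lit 13) (.e (nat_lit 172120) (nat_lit 12) (.e (nat_lit 475177) (nat_lit 24) (.e (nat_lit 516130) (nat_lit 3) .nil)))) .nil)) 
(.lf (nat_lit 217208) (.g (nat_lit 3113) (.e (nat_lit 90170) (nat_lit 13) (.e (nat_lit 172123) (nat_lit 13) (.e (nat_lit 483337) (nat_lit 9) (.e (nat_lit 426100) (nat_lit 1) (.e (nat_lit 164381) (nat_lit 254) (.e (nat_lit 1028) (nat_lit 81) (.e (nat_lit 1237) (nat_lit 91) .nil))))))) (.g (nat_lit 4) .nil .nil)))))) (.nd (nat_lit 3) (.nd (nat_lit 4) (.nd (nat_lit 5) 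
(.lf (nat_lit 217156) (.g (nat_lit 1739) (.e (nat_lit 90170) (nat_lit 13) (.e (nat_lit 172118) (nat_lit 12) (.e (nat_lit 475184) (nat_lit 29) (.e (nat_lit 557103) (nat_lit 14) (.e (nat_lit 180278) (nat_lit 32) .nil))))) .nil)) 
(.lf (nat_lit 217188) (.g (nat_lit 2061) (.e (nat_lit 90170) (nat_lit 13) (.e (nat_lit 172120) (nat_lit 12) (.e (nat_lit 475185) (nat_lit 29) (.e (nat_lit 557070) (nat_lit 9) .nil)))) .nil))) (.nd (nat_lit 5) 
(.lf (nat_lit 217172) (.g (nat_lit 506) (.e (nat_lit 90170) (nat_lit 13) (.e (nat_lit 172120) (nat_lit 12) (.e (nat_lit 475176) (nat_lit 24) .nil))) .nil)) 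
(.lf (nat_lit 217204) (.g (nat_lit 2947) (.e (nat_lit 90170) (nat_lit 13) (.e (nat_lit 172123) (nat_lit 13) (.e (nat_lit 483337) (nat_lit 9) (.e (nat_lit 426098) (nat_lit 1) (.e (nat_lit 164381) (nat_lit 254) (.e (nat_lit 1027) (nat_lit 81) (.e (nat_lit 1237) (nat_lit 91) .nil))))))) (.g (nat_lit 4) .nil .nil))))) (.nd (nat_lit 4) (.nd (nat_lit 5) 
(.lf (nat_lit 217164) (.g (nat_lit 2546) (.e (nat_lit 90170) (nat_lit 13) (.e (nat_lit 172118) (nat_lit 12) (.e (nat_lit 475185) (nat_lit 29) (.e (nat_lit 557104) (nat_lit 14) (.e (nat_lit 180277) (nat_lit 32) .nil))))) .nil)) 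
(.lf (nat_lit 217196) (.g (nat_lit 2573) (.e (nat_lit 90170) (nat_lit 13) (.e (nat_lit 172120) (nat_lit 12) (.e (nat_lit 475185) (nat_lit 29) (.e (nat_lit 557104) (nat_lit 14) (.e (nat_lit 188160) (nat_lit 32) .nil))))) .nil))) (.nd (nat_lit 5) 
(.lf (nat_lit 217180) (.g (nat_lit 516) (.e (nat_lit 90170) (nat_lit 13) (.e (nat_lit 172120) (nat_lit 12) (.e (nat_lit 475179) (nat_lit 24) .nil))) .nil)) 
(.lf (nat_lit 217212) (.g (nat_lit 2181) (.e (nat_lit 90170) (nat_lit 13) (.e (nat_lit 172123) (nat_lit 13) (.e (nat_lit 483363) (nat_lit 18) (.e (nat_lit 57692) (nat_lit 156) (.e (nat_lit 163905) (nat_lit 12) (.e (nat_lit 426427) (nat_lit 17) .nil)))))) (.g (nat_lit 4) .nil .nil))))))) (.nd (nat_lit 2) (.nd (nat_lit 3) (.nd (nat_lit 4) (.nd (nat_lit 5) 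
(.lf (nat_lit 217154) (.g (nat_lit 2628) (.e (nat_lit 90170) (nat_lit 13) (.e (nat_lit 172118) (nat_lit 12) (.e (nat_lit 475179) (nat_lit 24) (.e (nat_lit 516131) (nat_lit 3) (.e (nat_lit 221193) (nat_lit 11) (.e (nat_lit 336010) (nat_lit 2) .nil)))))) (.g (nat_lit 0) .nil .nil))) 
(.lf (nat_lit 217186) (.g (nat_lit 3491) (.e (nat_lit 90170) (nat_lit 13) (.e (nat_lit 172120) (nat_lit 12) (.e (nat_lit 475183) (nat_lit 29) (.e (nat_lit 557103) (nat_lit 14) (.e (nat_lit 180278) (nat_lit 32) (.e (nat_lit 1235) (nat_lit 91) .nil)))))) (.g (nat_lit 4) .nil .nil)))) (.nd (nat_lit 5) 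
(.lf (nat_lit 217170) (.g (nat_lit 985) (.e (nat_lit 90170) (nat_lit 13) (.e (nat_lit 172120) (nat_lit 12) (.e (nat_lit 475144) (nat_lit 16) (.e (nat_lit 1167) (nat_lit 86) .nil)))) .nil)) 
(.lf (nat_lit 217202) (.g (nat_lit 271) (.e (nat_lit 90170) (nat_lit 13) (.e (nat_lit 172121) (nat_lit 13) (.e (nat_lit 483370) (nat_lit 20) .nil))) .nil)))) (.nd (nat_lit 4) (.nd (nat_lit 5) 
(.lf (nat_lit 217162) (.g (nat_lit 1917) (.e (nat_lit 90170) (nat_lit 13) (.e (nat_lit 172118) (nat_lit 12) (.e (nat_lit 475185) (nat_lit 29) (.e (nat_lit 557102) (nat_lit 14) .nil)))) .nil)) 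
(.lf (nat_lit 217194) (.g (nat_lit 3367) (.e (nat_lit 90170) (nat_lit 13) (.e (nat_lit 172120) (nat_lit 12) (.e (nat_lit 475185) (nat_lit 29) (.e (nat_lit 557100) (nat_lit 13) (.e (nat_lit 172037) (nat_lit 0) (.e (nat_lit 7557) (nat_lit 402) (.e (nat_lit 1235) (nat_lit 91) .nil))))))) (.g (nat_lit 4) .nil .nil)))) (.nd (nat_lit 5) 
(.lf (nat_lit 217178) (.g (nat_lit 2125) (.e (nat_lit 90170) (nat_lit 13) (.e (nat_lit 172120) (nat_lit 12) (.e (nat_lit 475178) (nat_lit 24) (.e (nat_lit 516131) (nat_lit 3) (.e (nat_lit 221193) (nat_lit 11) (.e (nat_lit 336010) (nat_lit 2) .nil)))))) (.g (nat_lit 4) .nil .nil))) 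
(.lf (nat_lit 217210) (.g (nat_lit 2811) (.e (nat_lit 90170) (nat_lit 13) (.e (nat_lit 172123) (nat_lit 13) (.e (nat_lit 483337) (nat_lit 9) (.e (nat_lit 426107) (nat_lit 1) (.e (nat_lit 164384) (nat_lit 254) (.e (nat_lit 1028) (nat_lit 81) (.e (nat_lit 1237) (nat_lit 91) .nil))))))) (.g (nat_lit 4) .nil .nil)))))) (.nd (nat_lit 3) (.nd (nat_lit 4) (.nd (nat_lit 5) 
(.lf (nat_lit 217158) (.g (nat_lit 268) (.e (nat_lit 90170) (nat_lit 13) (.e (nat_lit 172118) (nat_lit 12) (.e (nat_lit 475185) (nat_lit 29) .nil))) .nil)) 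
(.lf (nat_lit 217190) (.g (nat_lit 2077) (.e (nat_lit 90170) (nat_lit 13) (.e (nat_lit 172120) (nat_lit 12) (.e (nat_lit 475185) (nat_lit 29) (.e (nat_lit 557072) (nat_lit 9) (.e (nat_lit 2873) (nat_lit 184) .nil))))) .nil))) (.nd (nat_lit 5) 
(.lf (nat_lit 217174) (.g (nat_lit 2156) (.e (nat_lit 90170) (nat_lit 13) (.e (nat_lit 172120) (nat_lit 12) (.e (nat_lit 475176) (nat_lit 24) (.e (nat_lit 516131) (nat_lit 3) (.e (nat_lit 221194) (nat_lit 11) (.e (nat_lit 336010) (nat_lit 2) .nil)))))) (.g (nat_lit 4) .nil .nil))) 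
(.lf (nat_lit 217206) (.g (nat_lit 3160) (.e (nat_lit 90170) (nat_lit 13) (.e (nat_lit 172123) (nat_lit 13) (.e (nat_lit 483337) (nat_lit 9) (.e (nat_lit 426100) (nat_lit 1) (.e (nat_lit 164380) (nat_lit 254) (.e (nat_lit 1027) (nat_lit 81) (.e (nat_lit 1237) (nat_lit 91) .nil))))))) (.g (nat_lit 4) .nil .nil))))) (.nd (nat_lit 4) (.nd (nat_lit 5) 
(.lf (nat_lit 217166) (.g (nat_lit 2653) (.e (nat_lit 90170) (nat_lit 13) (.e (nat_lit 172119) (nat_lit 12) (.e (nat_lit 475185) (nat_lit 29) (.e (nat_lit 557096) (nat_lit 13) (.e (nat_lit 172126) (nat_lit 14) .nil))))) .nil)) 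
(.lf (nat_lit 217198) (.g (nat_lit 1770) (.e (nat_lit 90170) (nat_lit 13) (.e (nat_lit 172120) (nat_lit 12) (.e (nat_lit 475185) (nat_lit 29) (.e (nat_lit 564992) (nat_lit 19) .nil)))) .nil))) (.nd (nat_lit 5) 
(.lf (nat_lit 217182) (.g (nat_lit 2172) (.e (nat_lit 90170) (nat_lit 13) (.e (nat_lit 172120) (nat_lit 12) (.e (nat_lit 475179) (nat_lit 24) (.e (nat_lit 516121) (nat_lit 2) .nil)))) .nil)) 
(.lf (nat_lit 217214) (.g (nat_lit 588) (.e (nat_lit 90170) (nat_lit 13) (.e (nat_lit 172124) (nat_lit 14) (.e (nat_lit 491524) (nat_lit 0) .nil))) .nil))))))) (.nd (nat_lit 1) (.nd (nat_lit 2) (.nd (nat_lit 3) (.nd (nat_lit 4) (.nd (nat_lit 5) 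
(.lf (nat_lit 217153) (.g (nat_lit 322) (.e (nat_lit 90170) (nat_lit 13) (.e (nat_lit 172118) (nat_lit 12) (.e (nat_lit 475179) (nat_lit 24) .nil))) .nil)) 
(.lf (nat_lit 217185) (.g (nat_lit 2997) (.e (nat_lit 90170) (nat_lit 13) (.e (nat_lit 172120) (nat_lit 12) (.e (nat_lit 475183) (nat_lit 29) (.e (nat_lit 557103) (nat_lit 14) (.e (nat_lit 180277) (nat_lit 32) .nil))))) .nil))) (.nd (nat_lit 5) 
(.lf (nat_lit 217169) (.g (nat_lit 2328) (.e (nat_lit 90170) (nat_lit 13) (.e (nat_lit 172119) (nat_lit 12) (.e (nat_lit 475185) (nat_lit 29) (.e (nat_lit 557104) (nat_lit 14) .nil)))) .nil)) 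
(.lf (nat_lit 217201) (.g (nat_lit 257) (.e (nat_lit 90170) (nat_lit 13) (.e (nat_lit 172121) (nat_lit 13) (.e (nat_lit 483337) (nat_lit 9) .nil))) .nil)))) (.nd (nat_lit 4) (.nd (nat_lit 5) 
(.lf (nat_lit 217161) (.g (nat_lit 4210) (.e (nat_lit 90170) (nat_lit 13) (.e (nat_lit 172118) (nat_lit 12) (.e (nat_lit 475185) (nat_lit 29) (.e (nat_lit 557100) (nat_lit 13) (.e (nat_lit 172126) (nat_lit 14) (.e (nat_lit 491537) (nat_lit 2) .nil)))))) (.g (nat_lit 0) .nil .nil))) 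
(.lf (nat_lit 217193) (.g (nat_lit 2083) (.e (nat_lit 90170) (nat_lit 13) (.e (nat_lit 172120) (nat_lit 12) (.e (nat_lit 475185) (nat_lit 29) (.e (nat_lit 557099) (nat_lit 13) .nil)))) .nil))) (.nd (nat_lit 5) 
(.lf (nat_lit 217177) (.g (nat_lit 2587) (.e (nat_lit 90170) (nat_lit 13) (.e (nat_lit 172120) (nat_lit 12) (.e (nat_lit 475178) (nat_lit 24) (.e (nat_lit 516129) (nat_lit 3) (.e (nat_lit 221193) (nat_lit 11) (.e (nat_lit 336010) (nat_lit 2) .nil)))))) (.g (nat_lit 4) .nil .nil))) 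
(.lf (nat_lit 217209) (.g (nat_lit 3208) (.e (nat_lit 90170) (nat_lit 13) (.e (nat_lit 172123) (nat_lit 13) (.e (nat_lit 483337) (nat_lit 9) (.e (nat_lit 426107) (nat_lit 1) (.e (nat_lit 164383) (nat_lit 254) (.e (nat_lit 1028) (nat_lit 81) (.e (nat_lit 1237) (nat_lit 91) .nil))))))) (.g (nat_lit 4) .nil .nil)))))) (.nd (nat_lit 3) (.nd (nat_lit 4) (.nd (nat_lit 5) 
(.lf (nat_lit 217157) (.g (nat_lit 1547) (.e (nat_lit 90170) (nat_lit 13) (.e (nat_lit 172118) (nat_lit 12) (.e (nat_lit 475184) (nat_lit 29) (.e (nat_lit 557105) (nat_lit 14) (.e (nat_lit 180278) (nat_lit 32) .nil))))) .nil)) 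
(.lf (nat_lit 217189) (.g (nat_lit 3253) (.e (nat_lit 90170) (nat_lit 13) (.e (nat_lit 172120) (nat_lit 12) (.e (nat_lit 475185) (nat_lit 29) (.e (nat_lit 557070) (nat_lit 9) (.e (nat_lit 2936) (nat_lit 184) .nil))))) .nil))) (.nd (nat_lit 5) 
(.lf (nat_lit 217173) (.g (nat_lit 2393) (.e (nat_lit 90170) (nat_lit 13) (.e (nat_lit 172120) (nat_lit 12) (.e (nat_lit 475176) (nat_lit 24) (.e (nat_lit 516129) (nat_lit 3) (.e (nat_lit 221193) (nat_lit 11) (.e (nat_lit 336010) (nat_lit 2) .nil)))))) (.g (nat_lit 4) .nil .nil))) 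
(.lf (nat_lit 217205) (.g (nat_lit 3209) (.e (nat_lit 90170) (nat_lit 13) (.e (nat_lit 172123) (nat_lit 13) (.e (nat_lit 483337) (nat_lit 9) (.e (nat_lit 426098) (nat_lit 1) (.e (nat_lit 164381) (nat_lit 254) (.e (nat_lit 1028) (nat_lit 81) (.e (nat_lit 1237) (nat_lit 91) .nil))))))) (.g (nat_lit 4) .nil .nil))))) (.nd (nat_lit 4) (.nd (nat_lit 5) 
(.lf (nat_lit 217165) (.g (nat_lit 2482) (.e (nat_lit 90170) (nat_lit 13) (.e (nat_lit 172118) (nat_lit 12) (.e (nat_lit 475185) (nat_lit 29) (.e (nat_lit 557104) (nat_lit 14) (.e (nat_lit 188160) (nat_lit 32) .nil))))) .nil)) 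
(.lf (nat_lit 217197) (.g (nat_lit 2673) (.e (nat_lit 90170) (nat_lit 13) (.e (nat_lit 172120) (nat_lit 12) (.e (nat_lit 475185) (nat_lit 29) (.e (nat_lit 557105) (nat_lit 14) (.e (nat_lit 188160) (nat_lit 32) (.e (nat_lit 1232) (nat_lit 91) .nil)))))) (.g (nat_lit 4) .nil .nil)))) (.nd (nat_lit 5) 
(.lf (nat_lit 217181) (.g (nat_lit 2175) (.e (nat_lit 90170) (nat_lit 13) (.e (nat_lit 172120) (nat_lit 12) (.e (nat_lit 475179) (nat_lit 24) (.e (nat_lit 516100) (nat_lit 0) .nil)))) .nil)) 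
(.lf (nat_lit 217213) (.g (nat_lit 2258) (.e (nat_lit 90170) (nat_lit 13) (.e (nat_lit 172123) (nat_lit 13) (.e (nat_lit 483363) (nat_lit 18) (.e (nat_lit 57692) (nat_lit 156) (.e (nat_lit 163906) (nat_lit 12) (.e (nat_lit 426427) (nat_lit 17) .nil)))))) (.g (nat_lit 4) .nil .nil))))))) (.nd (nat_lit 2) (.nd (nat_lit 3) (.nd (nat_lit 4) (.nd (nat_lit 5) 
(.lf (nat_lit 217155) (.g (nat_lit 2185) (.e (nat_lit 90170) (nat_lit 13) (.e (nat_lit 172118) (nat_lit 12) (.e (nat_lit 475183) (nat_lit 29) (.e (nat_lit 557103) (nat_lit 14) (.e (nat_lit 180278) (nat_lit 32) .nil))))) .nil)) 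
(.lf (nat_lit 217187) (.g (nat_lit 239) (.e (nat_lit 90170) (nat_lit 13) (.e (nat_lit 172120) (nat_lit 12) (.e (nat_lit 475185) (nat_lit 29) .nil))) .nil))) (.nd (nat_lit 5) 
(.lf (nat_lit 217171) (.g (nat_lit 628) (.e (nat_lit 90170) (nat_lit 13) (.e (nat_lit 172120) (nat_lit 12) (.e (nat_lit 475171) (nat_lit 22) .nil))) .nil)) 
(.lf (nat_lit 217203) (.g (nat_lit 1977) (.e (nat_lit 90170) (nat_lit 13) (.e (nat_lit 172123) (nat_lit 13) (.e (nat_lit 483333) (nat_lit 0) (.e (nat_lit 7096) (nat_lit 380) (.e (nat_lit 164356) (nat_lit 246) (.e (nat_lit 100) (nat_lit 2) .nil)))))) (.g (nat_lit 4) .nil .nil))))) (.nd (nat_lit 4) (.nd (nat_lit 5) 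
(.lf (nat_lit 217163) (.g (nat_lit 3309) (.e (nat_lit 90170) (nat_lit 13) (.e (nat_lit 172118) (nat_lit 12) (.e (nat_lit 475185) (nat_lit 29) (.e (nat_lit 557103) (nat_lit 14) (.e (nat_lit 180278) (nat_lit 32) (.e (nat_lit 1235) (nat_lit 91) .nil)))))) (.g (nat_lit 0) .nil .nil))) 
(.lf (nat_lit 217195) (.g (nat_lit 2159) (.e (nat_lit 90170) (nat_lit 13) (.e (nat_lit 172120) (nat_lit 12) (.e (nat_lit 475185) (nat_lit 29) (.e (nat_lit 557102) (nat_lit 14) .nil)))) .nil))) (.nd (nat_lit 5) 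
(.lf (nat_lit 217179) (.g (nat_lit 1980) (.e (nat_lit 90170) (nat_lit 13) (.e (nat_lit 172120) (nat_lit 12) (.e (nat_lit 475178) (nat_lit 24) (.e (nat_lit 516131) (nat_lit 3) (.e (nat_lit 221194) (nat_lit 11) (.e (nat_lit 336010) (nat_lit 2) .nil)))))) (.g (nat_lit 4) .nil .nil))) 
(.lf (nat_lit 217211) (.g (nat_lit 3284) (.e (nat_lit 90170) (nat_lit 13) (.e (nat_lit 172123) (nat_lit 13) (.e (nat_lit 483337) (nat_lit 9) (.e (nat_lit 426107) (nat_lit 1) (.e (nat_lit 164385) (nat_lit 254) (.e (nat_lit 1028) (nat_lit 81) (.e (nat_lit 1237) (nat_lit 91) .nil))))))) (.g (nat_lit 4) .nil .nil)))))) (.nd (nat_lit 3) (.nd (nat_lit 4) (.nd (nat_lit 5) 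
(.lf (nat_lit 217159) (.g (nat_lit 2779) (.e (nat_lit 90170) (nat_lit 13) (.e (nat_lit 172118) (nat_lit 12) (.e (nat_lit 475185) (nat_lit 29) (.e (nat_lit 557097) (nat_lit 13) (.e (nat_lit 172126) (nat_lit 14) .nil))))) .nil)) 
(.lf (nat_lit 217191) (.g (nat_lit 1656) (.e (nat_lit 90170) (nat_lit 13) (.e (nat_lit 172120) (nat_lit 12) (.e (nat_lit 475185) (nat_lit 29) (.e (nat_lit 557093) (nat_lit 12) .nil)))) .nil))) (.nd (nat_lit 5) 
(.lf (nat_lit 217175) (.g (nat_lit 3094) (.e (nat_lit 90170) (nat_lit 13) (.e (nat_lit 172120) (nat_lit 12) (.e (nat_lit 475177) (nat_lit 24) (.e (nat_lit 516129) (nat_lit 3) (.e (nat_lit 221193) (nat_lit 11) (.e (nat_lit 336010) (nat_lit 2) .nil)))))) (.g (nat_lit 5) .nil .nil))) 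
(.lf (nat_lit 217207) (.g (nat_lit 3482) (.e (nat_lit 90170) (nat_lit 13) (.e (nat_lit 172123) (nat_lit 13) (.e (nat_lit 483337) (nat_lit 9) (.e (nat_lit 426100) (nat_lit 1) (.e (nat_lit 164380) (nat_lit 254) (.e (nat_lit 1028) (nat_lit 81) (.e (nat_lit 1237) (nat_lit 91) .nil))))))) (.g (nat_lit 4) .nil .nil))))) (.nd (nat_lit 4) (.nd (nat_lit 5) 
(.lf (nat_lit 217167) (.g (nat_lit 2938) (.e (nat_lit 90170) (nat_lit 13) (.e (nat_lit 172119) (nat_lit 12) (.e (nat_lit 475185) (nat_lit 29) (.e (nat_lit 557103) (nat_lit 14) (.e (nat_lit 180277) (nat_lit 32) .nil))))) .nil)) 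
(.lf (nat_lit 217199) (.g (nat_lit 256) (.e (nat_lit 90170) (nat_lit 13) (.e (nat_lit 172121) (nat_lit 13) (.e (nat_lit 483333) (nat_lit 0) .nil))) .nil))) (.nd (nat_lit 5) 
(.lf (nat_lit 217183) (.g (nat_lit 2172) (.e (nat_lit 90170) (nat_lit 13) (.e (nat_lit 172120) (nat_lit 12) (.e (nat_lit 475179) (nat_lit 24) (.e (nat_lit 516125) (nat_lit 2) .nil)))) .nil)) 
(.lf (nat_lit 217215) (.g (nat_lit 1287) (.e (nat_lit 90170) (nat_lit 13) (.e (nat_lit 172124) (nat_lit 14) (.e (nat_lit 491535) (nat_lit 2) (.e (nat_lit 90167) (nat_lit 13) .nil)))) .nil))))))))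

noncomputable def tv2855 : DT := (.nd (nat_lit 0) (.nd (nat_lit 1) (.nd (nat_lit 2) (.nd (nat_lit 3) (.nd (nat_lit 4) (.nd (nat_lit 5) (.nd (nat_lit 6) 
(.lf (nat_lit 217216) (.g (nat_lit 2105) (.e (nat_lit 90170) (nat_lit 13) (.e (nat_lit 172124) (nat_lit 14) (.e (nat_lit 491535) (nat_lit 2) (.e (nat_lit 90172) (nat_lit 14) (.e (nat_lit 180278) (nat_lit 32) .nil))))) .nil)) 
(.lf (nat_lit 217280) (.g (nat_lit 3308) (.e (nat_lit 90171) (nat_lit 14) (.e (nat_lit 180250) (nat_lit 10) (.e (nat_lit 573489) (nat_lit 14) (.e (nat_lit 73755) (nat_lit 8) (.e (nat_lit 557090) (nat_lit 12) .nil))))) .nil))) (.nd (nat_lit 6) 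
(.lf (nat_lit 217248) (.g (nat_lit 2947) (.e (nat_lit 90170) (nat_lit 13) (.e (nat_lit 172126) (nat_lit 14) (.e (nat_lit 491537) (nat_lit 2) (.e (nat_lit 90170) (nat_lit 13) (.e (nat_lit 172037) (nat_lit 0) (.e (nat_lit 7557) (nat_lit 402) (.e (nat_lit 1235) (nat_lit 91) .nil))))))) (.g (nat_lit 4) .nil .nil))) 
(.lf (nat_lit 217312) (.g (nat_lit 1681) (.e (nat_lit 90172) (nat_lit 14) (.e (nat_lit 188160) (nat_lit 0) (.e (nat_lit 5194) (nat_lit 294) (.e (nat_lit 57372) (nat_lit 2) (.e (nat_lit 98048) (nat_lit 0) (.e (nat_lit 1619) (nat_lit 113) (.e (nat_lit 376865) (nat_lit 22) .nil))))))) (.g (nat_lit 4) .nil .nil))))) (.nd (nat_lit 5) (.nd (nat_lit 6) 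
(.lf (nat_lit 217232) (.g (nat_lit 3111) (.e (nat_lit 90170) (nat_lit 13) (.e (nat_lit 172125) (nat_lit 14) (.e (nat_lit 491537) (nat_lit 2) (.e (nat_lit 90172) (nat_lit 14) (.e (nat_lit 180278) (nat_lit 32) .nil))))) .nil)) 
(.lf (nat_lit 217296) (.g (nat_lit 1895) (.e (nat_lit 90172) (nat_lit 14) (.e (nat_lit 180229) (nat_lit 0) (.e (nat_lit 5224) (nat_lit 296) (.e (nat_lit 163884) (nat_lit 5) (.e (nat_lit 221185) (nat_lit 0) (.e (nat_lit 2189) (nat_lit 144) (.e (nat_lit 720956) (nat_lit 25) (.e (nat_lit 114716) (nat_lit 22) .nil)))))))) (.g (nat_lit 4) .nil .nil)))) (.nd (nat_lit 6) 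
(.lf (nat_lit 217264) (.g (nat_lit 877) (.e (nat_lit 90170) (nat_lit 13) (.e (nat_lit 172126) (nat_lit 14) (.e (nat_lit 491580) (nat_lit 27) .nil))) .nil)) 
(.lf (nat_lit 217328) (.g (nat_lit 3429) (.e (nat_lit 90172) (nat_lit 14) (.e (nat_lit 180243) (nat_lit 5) (.e (nat_lit 532499) (nat_lit 1) (.e (nat_lit 57688) (nat_lit 156) (.e (nat_lit 163868) (nat_lit 2) (.e (nat_lit 196624) (nat_lit 9) (.e (nat_lit 1276) (nat_lit 94) (.e (nat_lit 114714) (nat_lit 22) .nil)))))))) (.g (nat_lit 4) .nil .nil)))))) 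
(.nd (nat_lit 4) (.nd (nat_lit 5) (.nd (nat_lit 6) 
(.lf (nat_lit 217224) (.g (nat_lit 2919) (.e (nat_lit 90170) (nat_lit 13) (.e (nat_lit 172124) (nat_lit 14) (.e (nat_lit 491537) (nat_lit 2) (.e (nat_lit 90185) (nat_lit 17) (.e (nat_lit 237569) (nat_lit 0) .nil))))) .nil)) 
(.lf (nat_lit 217288) (.g (nat_lit 2553) (.e (nat_lit 90171) (nat_lit 14) (.e (nat_lit 180252) (nat_lit 10) (.e (nat_lit 573489) (nat_lit 14) (.e (nat_lit 73755) (nat_lit 8) (.e (nat_lit 557067) (nat_lit 9) .nil))))) .nil))) (.nd (nat_lit 6) 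
(.lf (nat_lit 217256) (.g (nat_lit 2014) (.e (nat_lit 90170) (nat_lit 13) (.e (nat_lit 172126) (nat_lit 14) (.e (nat_lit 491538) (nat_lit 3) (.e (nat_lit 98367) (nat_lit 27) (.e (nat_lit 434180) (nat_lit 0) .nil))))) .nil)) 
(.lf (nat_lit 217320) (.g (nat_lit 2221) (.e (nat_lit 90172) (nat_lit 14) (.e (nat_lit 180243) (nat_lit 5) (.e (nat_lit 532499) (nat_lit 1) (.e (nat_lit 57686) (nat_lit 156) (.e (nat_lit 163843) (nat_lit 0) .nil))))) .nil)))) (.nd (nat_lit 5) (.nd (nat_lit 6) 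
(.lf (nat_lit 217240) (.g (nat_lit 3589) (.e (nat_lit 90170) (nat_lit 13) (.e (nat_lit 172126) (nat_lit 14) (.e (nat_lit 491536) (nat_lit 2) (.e (nat_lit 90172) (nat_lit 14) (.e (nat_lit 180278) (nat_lit 32) (.e (nat_lit 1234) (nat_lit 91) .nil)))))) (.g (nat_lit 4) .nil .nil))) 
(.lf (nat_lit 217304) (.g (nat_lit 1015) (.e (nat_lit 90172) (nat_lit 14) (.e (nat_lit 180229) (nat_lit 0) (.e (nat_lit 5548) (nat_lit 306) (.e (nat_lit 2628) (nat_lit 164) .nil)))) .nil))) (.nd (nat_lit 6) 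
(.lf (nat_lit 217272) (.g (nat_lit 641) (.e (nat_lit 90171) (nat_lit 14) (.e (nat_lit 180243) (nat_lit 5) (.e (nat_lit 532499) (nat_lit 1) .nil))) .nil)) 
(.lf (nat_lit 217336) (.g (nat_lit 3213) (.e (nat_lit 90172) (nat_lit 14) (.e (nat_lit 180243) (nat_lit 5) (.e (nat_lit 532499) (nat_lit 1) (.e (nat_lit 57688) (nat_lit 156) (.e (nat_lit 163872) (nat_lit 3) .nil))))) .nil)))))) (.nd (nat_lit 3) (.nd (nat_lit 4) (.nd (nat_lit 5) (.nd (nat_lit 6) 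
(.lf (nat_lit 217220) (.g (nat_lit 2792) (.e (nat_lit 90170) (nat_lit 13) (.e (nat_lit 172124) (nat_lit 14) (.e (nat_lit 491537) (nat_lit 2) (.e (nat_lit 90170) (nat_lit 13) (.e (nat_lit 172037) (nat_lit 0) .nil))))) .nil)) 
(.lf (nat_lit 217284) (.g (nat_lit 2923) (.e (nat_lit 90171) (nat_lit 14) (.e (nat_lit 180251) (nat_lit 10) (.e (nat_lit 573489) (nat_lit 14) (.e (nat_lit 73755) (nat_lit 8) (.e (nat_lit 557067) (nat_lit 9) .nil))))) .nil))) (.nd (nat_lit 6) 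
(.lf (nat_lit 217252) (.g (nat_lit 3704) (.e (nat_lit 90170) (nat_lit 13) (.e (nat_lit 172126) (nat_lit 14) (.e (nat_lit 491537) (nat_lit 2) (.e (nat_lit 90185) (nat_lit 17) (.e (nat_lit 237569) (nat_lit 0) (.e (nat_lit 7540) (nat_lit 402) (.e (nat_lit 1237) (nat_lit 91) .nil))))))) (.g (nat_lit 4) .nil .nil))) 
(.lf (nat_lit 217316) (.g (nat_lit 2765) (.e (nat_lit 90172) (nat_lit 14) (.e (nat_lit 180243) (nat_lit 5) (.e (nat_lit 532499) (nat_lit 1) (.e (nat_lit 57655) (nat_lit 152) (.e (nat_lit 2714) (nat_lit 171) .nil))))) .nil)))) (.nd (nat_lit 5) (.nd (nat_lit 6) 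
(.lf (nat_lit 217236) (.g (nat_lit 898) (.e (nat_lit 90170) (nat_lit 13) (.e (nat_lit 172126) (nat_lit 14) (.e (nat_lit 491535) (nat_lit 2) .nil))) .nil)) 
(.lf (nat_lit 217300) (.g (nat_lit 1860) (.e (nat_lit 90172) (nat_lit 14) (.e (nat_lit 180229) (nat_lit 0) (.e (nat_lit 5224) (nat_lit 296) (.e (nat_lit 163886) (nat_lit 5) (.e (nat_lit 221184) (nat_lit 0) (.e (nat_lit 2185) (nat_lit 144) (.e (nat_lit 720956) (nat_lit 25) (.e (nat_lit 114716) (nat_lit 22) .nil)))))))) (.g (nat_lit 4) .nil .nil)))) (.nd (nat_lit 6) 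
(.lf (nat_lit 217268) (.g (nat_lit 232) (.e (nat_lit 90170) (nat_lit 13) (.e (nat_lit 172138) (nat_lit 15) (.e (nat_lit 2184) (nat_lit 144) .nil))) .nil)) 
(.lf (nat_lit 217332) (.g (nat_lit 3402) (.e (nat_lit 90172) (nat_lit 14) (.e (nat_lit 180243) (nat_lit 5) (.e (nat_lit 532499) (nat_lit 1) (.e (nat_lit 57688) (nat_lit 156) (.e (nat_lit 163871) (nat_lit 2) (.e (nat_lit 196677) (nat_lit 16) (.e (nat_lit 122969) (nat_lit 48) (.e (nat_lit 720937) (nat_lit 22) .nil)))))))) (.g (nat_lit 4) .nil .nil)))))) 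
(.nd (nat_lit 4) (.nd (nat_lit 5) (.nd (nat_lit 6) 
(.lf (nat_lit 217228) (.g (nat_lit 322) (.e (nat_lit 90170) (nat_lit 13) (.e (nat_lit 172124) (nat_lit 14) (.e (nat_lit 491540) (nat_lit 3) .nil))) .nil)) 
(.lf (nat_lit 217292) (.g (nat_lit 642) (.e (nat_lit 90172) (nat_lit 14) (.e (nat_lit 180225) (nat_lit 0) (.e (nat_lit 5968) (nat_lit 324) .nil))) .nil))) (.nd (nat_lit 6) 
(.lf (nat_lit 217260) (.g (nat_lit 328) (.e (nat_lit 90170) (nat_lit 13) (.e (nat_lit 172126) (nat_lit 14) (.e (nat_lit 491540) (nat_lit 3) .nil))) .nil)) 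
(.lf (nat_lit 217324) (.g (nat_lit 3175) (.e (nat_lit 90172) (nat_lit 14) (.e (nat_lit 180243) (nat_lit 5) (.e (nat_lit 532499) (nat_lit 1) (.e (nat_lit 57688) (nat_lit 156) (.e (nat_lit 163867) (nat_lit 2) (.e (nat_lit 196617) (nat_lit 9) (.e (nat_lit 1280) (nat_lit 94) (.e (nat_lit 114716) (nat_lit 22) .nil)))))))) (.g (nat_lit 4) .nil .nil))))) (.nd (nat_lit 5) (.nd (nat_lit 6) 
(.lf (nat_lit 217244) (.g (nat_lit 1417) (.e (nat_lit 90170) (nat_lit 13) (.e (nat_lit 172126) (nat_lit 14) (.e (nat_lit 491537) (nat_lit 2) (.e (nat_lit 90133) (nat_lit 9) .nil)))) .nil)) 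
(.lf (nat_lit 217308) (.g (nat_lit 2311) (.e (nat_lit 90172) (nat_lit 14) (.e (nat_lit 180229) (nat_lit 0) (.e (nat_lit 5548) (nat_lit 306) (.e (nat_lit 2640) (nat_lit 165) (.e (nat_lit 180271) (nat_lit 26) (.e (nat_lit 704763) (nat_lit 13) (.e (nat_lit 122971) (nat_lit 48) (.e (nat_lit 720937) (nat_lit 22) .nil)))))))) (.g (nat_lit 4) .nil .nil)))) (.nd (nat_lit 6) 
(.lf (nat_lit 217276) (.g (nat_lit 1637) (.e (nat_lit 90171) (nat_lit 14) (.e (nat_lit 180250) (nat_lit 10) (.e (nat_lit 573482) (nat_lit 13) (.e (nat_lit 73472) (nat_lit 18) .nil)))) .nil)) 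
(.lf (nat_lit 217340) (.g (nat_lit 3615) (.e (nat_lit 90172) (nat_lit 14) (.e (nat_lit 180243) (nat_lit 5) (.e (nat_lit 532499) (nat_lit 1) (.e (nat_lit 57688) (nat_lit 156) (.e (nat_lit 163874) (nat_lit 3) (.e (nat_lit 204815) (nat_lit 17) (.e (nat_lit 2203) (nat_lit 144) (.e (nat_lit 720941) (nat_lit 22) .nil)))))))) (.g (nat_lit 4) .nil .nil)))))))) 
(.nd (nat_lit 2) (.nd (nat_lit 3) (.nd (nat_lit 4) (.nd (nat_lit 5) (.nd (nat_lit 6) 
(.lf (nat_lit 217218) (.g (nat_lit 1461) (.e (nat_lit 90170) (nat_lit 13) (.e (nat_lit 172124) (nat_lit 14) (.e (nat_lit 491537) (nat_lit 2) (.e (nat_lit 90133) (nat_lit 9) .nil)))) .nil)) 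
(.lf (nat_lit 217282) (.g (nat_lit 2342) (.e (nat_lit 90171) (nat_lit 14) (.e (nat_lit 180251) (nat_lit 10) (.e (nat_lit 573489) (nat_lit 14) (.e (nat_lit 73754) (nat_lit 8) (.e (nat_lit 557093) (nat_lit 12) .nil))))) .nil))) (.nd (nat_lit 6) 
(.lf (nat_lit 217250) (.g (nat_lit 2383) (.e (nat_lit 90170) (nat_lit 13) (.e (nat_lit 172126) (nat_lit 14) (.e (nat_lit 491537) (nat_lit 2) (.e (nat_lit 90171) (nat_lit 14) (.e (nat_lit 180277) (nat_lit 32) .nil))))) .nil)) 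
(.lf (nat_lit 217314) (.g (nat_lit 642) (.e (nat_lit 90172) (nat_lit 14) (.e (nat_lit 180243) (nat_lit 5) (.e (nat_lit 532499) (nat_lit 1) .nil))) .nil)))) (.nd (nat_lit 5) (.nd (nat_lit 6) 
(.lf (nat_lit 217234) (.g (nat_lit 802) (.e (nat_lit 90170) (nat_lit 13) (.e (nat_lit 172126) (nat_lit 14) (.e (nat_lit 491522) (nat_lit 0) .nil))) .nil)) 
(.lf (nat_lit 217298) (.g (nat_lit 1637) (.e (nat_lit 90172) (nat_lit 14) (.e (nat_lit 180229) (nat_lit 0) (.e (nat_lit 5224) (nat_lit 296) (.e (nat_lit 163884) (nat_lit 5) (.e (nat_lit 221187) (nat_lit 0) .nil))))) .nil))) (.nd (nat_lit 6) 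
(.lf (nat_lit 217266) (.g (nat_lit 3724) (.e (nat_lit 90170) (nat_lit 13) (.e (nat_lit 172138) (nat_lit 15) (.e (nat_lit 1800) (nat_lit 119) (.e (nat_lit 516120) (nat_lit 1) (.e (nat_lit 164330) (nat_lit 230) (.e (nat_lit 163874) (nat_lit 3) (.e (nat_lit 204838) (nat_lit 20) (.e (nat_lit 114715) (nat_lit 22) .nil)))))))) (.g (nat_lit 5) .nil .nil))) 
(.lf (nat_lit 217330) (.g (nat_lit 3313) (.e (nat_lit 90172) (nat_lit 14) (.e (nat_lit 180243) (nat_lit 5) (.e (nat_lit 532499) (nat_lit 1) (.e (nat_lit 57688) (nat_lit 156) (.e (nat_lit 163871) (nat_lit 2) .nil))))) .nil))))) (.nd (nat_lit 4) (.nd (nat_lit 5) (.nd (nat_lit 6) 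
(.lf (nat_lit 217226) (.g (nat_lit 3121) (.e (nat_lit 90170) (nat_lit 13) (.e (nat_lit 172124) (nat_lit 14) (.e (nat_lit 491537) (nat_lit 2) (.e (nat_lit 90185) (nat_lit 17) (.e (nat_lit 237572) (nat_lit 0) (.e (nat_lit 7562) (nat_lit 402) (.e (nat_lit 1235) (nat_lit 91) .nil))))))) (.g (nat_lit 4) .nil .nil))) 
(.lf (nat_lit 217290) (.g (nat_lit 946) (.e (nat_lit 90172) (nat_lit 14) (.e (nat_lit 180225) (nat_lit 0) (.e (nat_lit 4778) (nat_lit 281) (.e (nat_lit 2445) (nat_lit 157) .nil)))) .nil))) (.nd (nat_lit 6) 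
(.lf (nat_lit 217258) (.g (nat_lit 1291) (.e (nat_lit 90170) (nat_lit 13) (.e (nat_lit 172126) (nat_lit 14) (.e (nat_lit 491539) (nat_lit 3) (.e (nat_lit 98353) (nat_lit 25) .nil)))) .nil)) 
(.lf (nat_lit 217322) (.g (nat_lit 1792) (.e (nat_lit 90172) (nat_lit 14) (.e (nat_lit 180243) (nat_lit 5) (.e (nat_lit 532499) (nat_lit 1) (.e (nat_lit 57688) (nat_lit 156) .nil)))) .nil)))) (.nd (nat_lit 5) (.nd (nat_lit 6) 
(.lf (nat_lit 217242) (.g (nat_lit 308) (.e (nat_lit 90170) (nat_lit 13) (.e (nat_lit 172126) (nat_lit 14) (.e (nat_lit 491537) (nat_lit 2) .nil))) .nil)) 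
(.lf (nat_lit 217306) (.g (nat_lit 1945) (.e (nat_lit 90172) (nat_lit 14) (.e (nat_lit 180229) (nat_lit 0) (.e (nat_lit 5548) (nat_lit 306) (.e (nat_lit 2638) (nat_lit 165) (.e (nat_lit 188160) (nat_lit 28) (.e (nat_lit 720956) (nat_lit 25) (.e (nat_lit 114716) (nat_lit 22) .nil))))))) (.g (nat_lit 4) .nil .nil)))) (.nd (nat_lit 6) 
(.lf (nat_lit 217274) (.g (nat_lit 431) (.e (nat_lit 90171) (nat_lit 14) (.e (nat_lit 180243) (nat_lit 5) (.e (nat_lit 532501) (nat_lit 1) .nil))) .nil)) 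
(.lf (nat_lit 217338) (.g (nat_lit 3149) (.e (nat_lit 90172) (nat_lit 14) (.e (nat_lit 180243) (nat_lit 5) (.e (nat_lit 532499) (nat_lit 1) (.e (nat_lit 57688) (nat_lit 156) (.e (nat_lit 163873) (nat_lit 3) (.e (nat_lit 204815) (nat_lit 17) (.e (nat_lit 2198) (nat_lit 144) (.e (nat_lit 720941) (nat_lit 22) .nil)))))))) (.g (nat_lit 4) .nil .nil))))))) 
(.nd (nat_lit 3) (.nd (nat_lit 4) (.nd (nat_lit 5) (.nd (nat_lit 6) 
(.lf (nat_lit 217222) (.g (nat_lit 4003) (.e (nat_lit 90170) (nat_lit 13) (.e (nat_lit 172124) (nat_lit 14) (.e (nat_lit 491537) (nat_lit 2) (.e (nat_lit 90172) (nat_lit 14) (.e (nat_lit 180278) (nat_lit 32) (.e (nat_lit 1234) (nat_lit 91) .nil)))))) (.g (nat_lit 0) .nil .nil))) 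
(.lf (nat_lit 217286) (.g (nat_lit 1988) (.e (nat_lit 90171) (nat_lit 14) (.e (nat_lit 180251) (nat_lit 10) (.e (nat_lit 573489) (nat_lit 14) (.e (nat_lit 73755) (nat_lit 8) (.e (nat_lit 557091) (nat_lit 12) .nil))))) .nil))) (.nd (nat_lit 6) 
(.lf (nat_lit 217254) (.g (nat_lit 3127) (.e (nat_lit 90170) (nat_lit 13) (.e (nat_lit 172126) (nat_lit 14) (.e (nat_lit 491537) (nat_lit 2) (.e (nat_lit 90185) (nat_lit 17) (.e (nat_lit 237572) (nat_lit 0) (.e (nat_lit 7540) (nat_lit 402) (.e (nat_lit 1237) (nat_lit 91) .nil))))))) (.g (nat_lit 4) .nil .nil))) 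
(.lf (nat_lit 217318) (.g (nat_lit 2122) (.e (nat_lit 90172) (nat_lit 14) (.e (nat_lit 180243) (nat_lit 5) (.e (nat_lit 532499) (nat_lit 1) (.e (nat_lit 57684) (nat_lit 155) .nil)))) .nil)))) (.nd (nat_lit 5) (.nd (nat_lit 6) 
(.lf (nat_lit 217238) (.g (nat_lit 2959) (.e (nat_lit 90170) (nat_lit 13) (.e (nat_lit 172126) (nat_lit 14) (.e (nat_lit 491536) (nat_lit 2) (.e (nat_lit 90170) (nat_lit 13) (.e (nat_lit 172126) (nat_lit 14) .nil))))) .nil)) 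
(.lf (nat_lit 217302) (.g (nat_lit 973) (.e (nat_lit 90172) (nat_lit 14) (.e (nat_lit 180229) (nat_lit 0) (.e (nat_lit 5546) (nat_lit 306) (.e (nat_lit 2640) (nat_lit 165) .nil)))) .nil))) (.nd (nat_lit 6) 
(.lf (nat_lit 217270) (.g (nat_lit 1988) (.e (nat_lit 90170) (nat_lit 13) (.e (nat_lit 179968) (nat_lit 20) (.e (nat_lit 114710) (nat_lit 21) (.e (nat_lit 57851) (nat_lit 252) (.e (nat_lit 57389) (nat_lit 5) (.e (nat_lit 114702) (nat_lit 20) (.e (nat_lit 2200) (nat_lit 144) (.e (nat_lit 720940) (nat_lit 22) .nil)))))))) (.g (nat_lit 5) .nil .nil))) 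
(.lf (nat_lit 217334) (.g (nat_lit 3471) (.e (nat_lit 90172) (nat_lit 14) (.e (nat_lit 180243) (nat_lit 5) (.e (nat_lit 532499) (nat_lit 1) (.e (nat_lit 57688) (nat_lit 156) (.e (nat_lit 163871) (nat_lit 2) (.e (nat_lit 196677) (nat_lit 16) (.e (nat_lit 122969) (nat_lit 48) (.e (nat_lit 720941) (nat_lit 22) .nil)))))))) (.g (nat_lit 4) .nil .nil)))))) 
(.nd (nat_lit 4) (.nd (nat_lit 5) (.nd (nat_lit 6) 
(.lf (nat_lit 217230) (.g (nat_lit 2224) (.e (nat_lit 90170) (nat_lit 13) (.e (nat_lit 172125) (nat_lit 14) (.e (nat_lit 491536) (nat_lit 2) (.e (nat_lit 90172) (nat_lit 14) (.e (nat_lit 180278) (nat_lit 32) .nil))))) .nil)) 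
(.lf (nat_lit 217294) (.g (nat_lit 2147) (.e (nat_lit 90172) (nat_lit 14) (.e (nat_lit 180229) (nat_lit 0) (.e (nat_lit 5224) (nat_lit 296) (.e (nat_lit 163871) (nat_lit 2) (.e (nat_lit 196691) (nat_lit 18) (.e (nat_lit 1349) (nat_lit 102) (.e (nat_lit 286748) (nat_lit 9) (.e (nat_lit 336008) (nat_lit 2) .nil)))))))) (.g (nat_lit 4) .nil .nil)))) (.nd (nat_lit 6) 
(.lf (nat_lit 217262) (.g (nat_lit 4626) (.e (nat_lit 90170) (nat_lit 13) (.e (nat_lit 172126) (nat_lit 14) (.e (nat_lit 491540) (nat_lit 3) (.e (nat_lit 98350) (nat_lit 24) (.e (nat_lit 409602) (nat_lit 0) (.e (nat_lit 5293) (nat_lit 298) (.e (nat_lit 1232) (nat_lit 91) .nil))))))) (.g (nat_lit 7) .nil .nil))) 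
(.lf (nat_lit 217326) (.g (nat_lit 3319) (.e (nat_lit 90172) (nat_lit 14) (.e (nat_lit 180243) (nat_lit 5) (.e (nat_lit 532499) (nat_lit 1) (.e (nat_lit 57688) (nat_lit 156) (.e (nat_lit 163867) (nat_lit 2) (.e (nat_lit 196629) (nat_lit 9) (.e (nat_lit 1275) (nat_lit 94) (.e (nat_lit 114714) (nat_lit 22) .nil)))))))) (.g (nat_lit 4) .nil .nil))))) (.nd (nat_lit 5) (.nd (nat_lit 6) 
(.lf (nat_lit 217246) (.g (nat_lit 2062) (.e (nat_lit 90170) (nat_lit 13) (.e (nat_lit 172126) (nat_lit 14) (.e (nat_lit 491537) (nat_lit 2) (.e (nat_lit 90165) (nat_lit 12) .nil)))) .nil)) 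
(.lf (nat_lit 217310) (.g (nat_lit 1426) (.e (nat_lit 90172) (nat_lit 14) (.e (nat_lit 180229) (nat_lit 0) (.e (nat_lit 5548) (nat_lit 306) (.e (nat_lit 2640) (nat_lit 165) (.e (nat_lit 188160) (nat_lit 28) .nil))))) .nil))) (.nd (nat_lit 6) 
(.lf (nat_lit 217278) (.g (nat_lit 1769) (.e (nat_lit 90171) (nat_lit 14) (.e (nat_lit 180250) (nat_lit 10) (.e (nat_lit 573487) (nat_lit 14) (.e (nat_lit 73747) (nat_lit 3) .nil)))) .nil)) 
(.lf (nat_lit 217342) (.g (nat_lit 3453) (.e (nat_lit 90172) (nat_lit 14) (.e (nat_lit 180243) (nat_lit 5) (.e (nat_lit 532499) (nat_lit 1) (.e (nat_lit 57688) (nat_lit 156) (.e (nat_lit 163874) (nat_lit 3) (.e (nat_lit 204836) (nat_lit 20) (.e (nat_lit 114716) (nat_lit 22) .nil))))))) (.g (nat_lit 4) .nil .nil))))))))) 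
(.nd (nat_lit 1) (.nd (nat_lit 2) (.nd (nat_lit 3) (.nd (nat_lit 4) (.nd (nat_lit 5) 
(.nd (nat_lit 6) 
(.lf (nat_lit 217217) (.g (nat_lit 2012) (.e (nat_lit 90170) (nat_lit 13) (.e (nat_lit 172124) (nat_lit 14) (.e (nat_lit 491536) (nat_lit 2) (.e (nat_lit 90172) (nat_lit 14) (.e (nat_lit 180278) (nat_lit 32) .nil))))) .nil)) 
(.lf (nat_lit 217281) (.g (nat_lit 1438) (.e (nat_lit 90171) (nat_lit 14) (.e (nat_lit 180251) (nat_lit 10) (.e (nat_lit 573489) (nat_lit 14) (.e (nat_lit 73754) (nat_lit 8) .nil)))) .nil))) (.nd (nat_lit 6) 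
(.lf (nat_lit 217249) (.g (nat_lit 2065) (.e (nat_lit 90170) (nat_lit 13) (.e (nat_lit 172126) (nat_lit 14) (.e (nat_lit 491537) (nat_lit 2) (.e (nat_lit 98048) (nat_lit 13) .nil)))) .nil)) 
(.lf (nat_lit 217313) (.g (nat_lit 1456) (.e (nat_lit 90172) (nat_lit 14) (.e (nat_lit 180241) (nat_lit 4) (.e (nat_lit 532224) (nat_lit 26) (.e (nat_lit 336013) (nat_lit 2) (.e (nat_lit 98048) (nat_lit 0) (.e (nat_lit 1280) (nat_lit 94) (.e (nat_lit 114714) (nat_lit 22) .nil))))))) (.g (nat_lit 4) .nil .nil))))) (.nd (nat_lit 5) (.nd (nat_lit 6) 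
(.lf (nat_lit 217233) (.g (nat_lit 2851) (.e (nat_lit 90170) (nat_lit 13) (.e (nat_lit 172125) (nat_lit 14) (.e (nat_lit 491537) (nat_lit 2) (.e (nat_lit 90174) (nat_lit 14) (.e (nat_lit 180277) (nat_lit 32) .nil))))) .nil)) 
(.lf (nat_lit 217297) (.g (nat_lit 1796) (.e (nat_lit 90172) (nat_lit 14) (.e (nat_lit 180229) (nat_lit 0) (.e (nat_lit 5224) (nat_lit 296) (.e (nat_lit 163884) (nat_lit 5) (.e (nat_lit 221185) (nat_lit 0) (.e (nat_lit 2199) (nat_lit 144) (.e (nat_lit 720956) (nat_lit 25) (.e (nat_lit 114716) (nat_lit 22) .nil)))))))) (.g (nat_lit 4) .nil .nil)))) (.nd (nat_lit 6) 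
(.lf (nat_lit 217265) (.g (nat_lit 823) (.e (nat_lit 90170) (nat_lit 13) (.e (nat_lit 172126) (nat_lit 14) (.e (nat_lit 491584) (nat_lit 28) .nil))) .nil)) 
(.lf (nat_lit 217329) (.g (nat_lit 3259) (.e (nat_lit 90172) (nat_lit 14) (.e (nat_lit 180243) (nat_lit 5) (.e (nat_lit 532499) (nat_lit 1) (.e (nat_lit 57688) (nat_lit 156) (.e (nat_lit 163869) (nat_lit 2) .nil))))) .nil))))) (.nd (nat_lit 4) (.nd (nat_lit 5) (.nd (nat_lit 6) 
(.lf (nat_lit 217225) (.g (nat_lit 3636) (.e (nat_lit 90170) (nat_lit 13) (.e (nat_lit 172124) (nat_lit 14) (.e (nat_lit 491537) (nat_lit 2) (.e (nat_lit 90185) (nat_lit 17) (.e (nat_lit 237569) (nat_lit 0) (.e (nat_lit 7562) (nat_lit 402) (.e (nat_lit 1235) (nat_lit 91) .nil))))))) (.g (nat_lit 4) .nil .nil))) 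
(.lf (nat_lit 217289) (.g (nat_lit 3172) (.e (nat_lit 90171) (nat_lit 14) (.e (nat_lit 180252) (nat_lit 10) (.e (nat_lit 573489) (nat_lit 14) (.e (nat_lit 73755) (nat_lit 8) (.e (nat_lit 557090) (nat_lit 12) (.e (nat_lit 164006) (nat_lit 41) (.e (nat_lit 663559) (nat_lit 0) (.e (nat_lit 1234) (nat_lit 91) .nil)))))))) (.g (nat_lit 5) .nil .nil)))) (.nd (nat_lit 6) 
(.lf (nat_lit 217257) (.g (nat_lit 636) (.e (nat_lit 90170) (nat_lit 13) (.e (nat_lit 172126) (nat_lit 14) (.e (nat_lit 491539) (nat_lit 3) .nil))) .nil)) 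
(.lf (nat_lit 217321) (.g (nat_lit 2233) (.e (nat_lit 90172) (nat_lit 14) (.e (nat_lit 180243) (nat_lit 5) (.e (nat_lit 532499) (nat_lit 1) (.e (nat_lit 57686) (nat_lit 156) (.e (nat_lit 163871) (nat_lit 2) .nil))))) .nil)))) (.nd (nat_lit 5) (.nd (nat_lit 6) 
(.lf (nat_lit 217241) (.g (nat_lit 3431) (.e (nat_lit 90170) (nat_lit 13) (.e (nat_lit 172126) (nat_lit 14) (.e (nat_lit 491536) (nat_lit 2) (.e (nat_lit 90172) (nat_lit 14) (.e (nat_lit 180278) (nat_lit 32) (.e (nat_lit 1235) (nat_lit 91) .nil)))))) (.g (nat_lit 4) .nil .nil))) 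
(.lf (nat_lit 217305) (.g (nat_lit 2330) (.e (nat_lit 90172) (nat_lit 14) (.e (nat_lit 180229) (nat_lit 0) (.e (nat_lit 5548) (nat_lit 306) (.e (nat_lit 2638) (nat_lit 165) (.e (nat_lit 180271) (nat_lit 26) .nil))))) .nil))) (.nd (nat_lit 6) 
(.lf (nat_lit 217273) (.g (nat_lit 1790) (.e (nat_lit 90171) (nat_lit 14) (.e (nat_lit 180243) (nat_lit 5) (.e (nat_lit 532499) (nat_lit 1) (.e (nat_lit 57688) (nat_lit 156) .nil)))) .nil)) 
(.lf (nat_lit 217337) (.g (nat_lit 2903) (.e (nat_lit 90172) (nat_lit 14) (.e (nat_lit 180243) (nat_lit 5) (.e (nat_lit 532499) (nat_lit 1) (.e (nat_lit 57688) (nat_lit 156) (.e (nat_lit 163873) (nat_lit 3) .nil))))) .nil)))))) (.nd (nat_lit 3) (.nd (nat_lit 4) (.nd (nat_lit 5) (.nd (nat_lit 6) 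
(.lf (nat_lit 217221) (.g (nat_lit 2238) (.e (nat_lit 90170) (nat_lit 13) (.e (nat_lit 172124) (nat_lit 14) (.e (nat_lit 491537) (nat_lit 2) (.e (nat_lit 90172) (nat_lit 14) (.e (nat_lit 180277) (nat_lit 32) .nil))))) .nil)) 
(.lf (nat_lit 217285) (.g (nat_lit 3437) (.e (nat_lit 90171) (nat_lit 14) (.e (nat_lit 180251) (nat_lit 10) (.e (nat_lit 573489) (nat_lit 14) (.e (nat_lit 73755) (nat_lit 8) (.e (nat_lit 557090) (nat_lit 12) .nil))))) .nil))) (.nd (nat_lit 6) 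
(.lf (nat_lit 217253) (.g (nat_lit 3119) (.e (nat_lit 90170) (nat_lit 13) (.e (nat_lit 172126) (nat_lit 14) (.e (nat_lit 491537) (nat_lit 2) (.e (nat_lit 90185) (nat_lit 17) (.e (nat_lit 237572) (nat_lit 0) (.e (nat_lit 7540) (nat_lit 402) (.e (nat_lit 1234) (nat_lit 91) .nil))))))) (.g (nat_lit 4) .nil .nil))) 
(.lf (nat_lit 217317) (.g (nat_lit 2075) (.e (nat_lit 90172) (nat_lit 14) (.e (nat_lit 180243) (nat_lit 5) (.e (nat_lit 532499) (nat_lit 1) (.e (nat_lit 57657) (nat_lit 152) (.e (nat_lit 2461) (nat_lit 157) .nil))))) .nil)))) (.nd (nat_lit 5) (.nd (nat_lit 6) 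
(.lf (nat_lit 217237) (.g (nat_lit 906) (.e (nat_lit 90170) (nat_lit 13) (.e (nat_lit 172126) (nat_lit 14) (.e (nat_lit 491536) (nat_lit 2) .nil))) .nil)) 
(.lf (nat_lit 217301) (.g (nat_lit 1021) (.e (nat_lit 90172) (nat_lit 14) (.e (nat_lit 180229) (nat_lit 0) (.e (nat_lit 5546) (nat_lit 306) (.e (nat_lit 2638) (nat_lit 165) .nil)))) .nil))) (.nd (nat_lit 6) 
(.lf (nat_lit 217269) (.g (nat_lit 2409) (.e (nat_lit 90170) (nat_lit 13) (.e (nat_lit 179968) (nat_lit 20) (.e (nat_lit 114710) (nat_lit 21) (.e (nat_lit 57851) (nat_lit 252) (.e (nat_lit 57389) (nat_lit 5) (.e (nat_lit 114702) (nat_lit 20) (.e (nat_lit 2200) (nat_lit 144) (.e (nat_lit 720939) (nat_lit 22) .nil)))))))) (.g (nat_lit 5) .nil .nil))) 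
(.lf (nat_lit 217333) (.g (nat_lit 3431) (.e (nat_lit 90172) (nat_lit 14) (.e (nat_lit 180243) (nat_lit 5) (.e (nat_lit 532499) (nat_lit 1) (.e (nat_lit 57688) (nat_lit 156) (.e (nat_lit 163871) (nat_lit 2) (.e (nat_lit 196677) (nat_lit 16) (.e (nat_lit 122969) (nat_lit 48) (.e (nat_lit 720938) (nat_lit 22) .nil)))))))) (.g (nat_lit 4) .nil .nil)))))) 
(.nd (nat_lit 4) (.nd (nat_lit 5) (.nd (nat_lit 6) 
(.lf (nat_lit 217229) (.g (nat_lit 4717) (.e (nat_lit 90170) (nat_lit 13) (.e (nat_lit 172124) (nat_lit 14) (.e (nat_lit 491540) (nat_lit 3) (.e (nat_lit 98359) (nat_lit 26) (.e (nat_lit 426338) (nat_lit 14) (.e (nat_lit 491537) (nat_lit 2) .nil)))))) (.g (nat_lit 0) .nil .nil))) 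
(.lf (nat_lit 217293) (.g (nat_lit 1512) (.e (nat_lit 90172) (nat_lit 14) (.e (nat_lit 180229) (nat_lit 0) (.e (nat_lit 5224) (nat_lit 296) (.e (nat_lit 163871) (nat_lit 2) (.e (nat_lit 196691) (nat_lit 18) .nil))))) .nil))) (.nd (nat_lit 6) 
(.lf (nat_lit 217261) (.g (nat_lit 1958) (.e (nat_lit 90170) (nat_lit 13) (.e (nat_lit 172126) (nat_lit 14) (.e (nat_lit 491540) (nat_lit 3) (.e (nat_lit 98349) (nat_lit 24) (.e (nat_lit 409603) (nat_lit 0) .nil))))) .nil)) 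
(.lf (nat_lit 217325) (.g (nat_lit 3245) (.e (nat_lit 90172) (nat_lit 14) (.e (nat_lit 180243) (nat_lit 5) (.e (nat_lit 532499) (nat_lit 1) (.e (nat_lit 57688) (nat_lit 156) (.e (nat_lit 163867) (nat_lit 2) (.e (nat_lit 196628) (nat_lit 9) (.e (nat_lit 968) (nat_lit 81) (.e (nat_lit 2203) (nat_lit 144) (.e (nat_lit 720941) (nat_lit 22) .nil))))))))) (.g (nat_lit 4) .nil .nil))))) 
(.nd (nat_lit 5) (.nd (nat_lit 6) 
(.lf (nat_lit 217245) (.g (nat_lit 1513) (.e (nat_lit 90170) (nat_lit 13) (.e (nat_lit 172126) (nat_lit 14) (.e (nat_lit 491537) (nat_lit 2) (.e (nat_lit 90134) (nat_lit 9) .nil)))) .nil)) 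
(.lf (nat_lit 217309) (.g (nat_lit 1743) (.e (nat_lit 90172) (nat_lit 14) (.e (nat_lit 180229) (nat_lit 0) (.e (nat_lit 5548) (nat_lit 306) (.e (nat_lit 2640) (nat_lit 165) (.e (nat_lit 180272) (nat_lit 26) .nil))))) .nil))) (.nd (nat_lit 6) 
(.lf (nat_lit 217277) (.g (nat_lit 1953) (.e (nat_lit 90171) (nat_lit 14) (.e (nat_lit 180250) (nat_lit 10) (.e (nat_lit 573487) (nat_lit 14) (.e (nat_lit 73746) (nat_lit 3) .nil)))) .nil)) 
(.lf (nat_lit 217341) (.g (nat_lit 3364) (.e (nat_lit 90172) (nat_lit 14) (.e (nat_lit 180243) (nat_lit 5) (.e (nat_lit 532499) (nat_lit 1) (.e (nat_lit 57688) (nat_lit 156) (.e (nat_lit 163874) (nat_lit 3) (.e (nat_lit 204818) (nat_lit 17) (.e (nat_lit 2203) (nat_lit 144) (.e (nat_lit 720941) (nat_lit 22) .nil)))))))) (.g (nat_lit 4) .nil .nil)))))))) 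
(.nd (nat_lit 2) (.nd (nat_lit 3) (.nd (nat_lit 4) (.nd (nat_lit 5) (.nd (nat_lit 6) 
(.lf (nat_lit 217219) (.g (nat_lit 2153) (.e (nat_lit 90170) (nat_lit 13) (.e (nat_lit 172124) (nat_lit 14) (.e (nat_lit 491537) (nat_lit 2) (.e (nat_lit 90165) (nat_lit 12) .nil)))) .nil)) 
(.lf (nat_lit 217283) (.g (nat_lit 1449) (.e (nat_lit 90171) (nat_lit 14) (.e (nat_lit 180251) (nat_lit 10) (.e (nat_lit 573489) (nat_lit 14) (.e (nat_lit 73755) (nat_lit 8) .nil)))) .nil))) (.nd (nat_lit 6) 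
(.lf (nat_lit 217251) (.g (nat_lit 2471) (.e (nat_lit 90170) (nat_lit 13) (.e (nat_lit 172126) (nat_lit 14) (.e (nat_lit 491537) (nat_lit 2) (.e (nat_lit 90173) (nat_lit 14) (.e (nat_lit 180278) (nat_lit 32) .nil))))) .nil)) 
(.lf (nat_lit 217315) (.g (nat_lit 2765) (.e (nat_lit 90172) (nat_lit 14) (.e (nat_lit 180243) (nat_lit 5) (.e (nat_lit 532499) (nat_lit 1) (.e (nat_lit 57655) (nat_lit 152) (.e (nat_lit 2399) (nat_lit 157) .nil))))) .nil)))) (.nd (nat_lit 5) (.nd (nat_lit 6) 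
(.lf (nat_lit 217235) (.g (nat_lit 621) (.e (nat_lit 90170) (nat_lit 13) (.e (nat_lit 172126) (nat_lit 14) (.e (nat_lit 491524) (nat_lit 0) .nil))) .nil)) 
(.lf (nat_lit 217299) (.g (nat_lit 1403) (.e (nat_lit 90172) (nat_lit 14) (.e (nat_lit 180229) (nat_lit 0) (.e (nat_lit 5224) (nat_lit 296) (.e (nat_lit 163886) (nat_lit 5) (.e (nat_lit 221184) (nat_lit 0) .nil))))) .nil))) (.nd (nat_lit 6) 
(.lf (nat_lit 217267) (.g (nat_lit 1832) (.e (nat_lit 90170) (nat_lit 13) (.e (nat_lit 172138) (nat_lit 15) (.e (nat_lit 2174) (nat_lit 143) (.e (nat_lit 712722) (nat_lit 15) (.e (nat_lit 3302) (nat_lit 202) .nil))))) .nil)) 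
(.lf (nat_lit 217331) (.g (nat_lit 3343) (.e (nat_lit 90172) (nat_lit 14) (.e (nat_lit 180243) (nat_lit 5) (.e (nat_lit 532499) (nat_lit 1) (.e (nat_lit 57688) (nat_lit 156) (.e (nat_lit 163871) (nat_lit 2) (.e (nat_lit 196624) (nat_lit 9) (.e (nat_lit 1276) (nat_lit 94) (.e (nat_lit 114714) (nat_lit 22) .nil)))))))) (.g (nat_lit 4) .nil .nil)))))) 
(.nd (nat_lit 4) (.nd (nat_lit 5) (.nd (nat_lit 6) 
(.lf (nat_lit 217227) (.g (nat_lit 583) (.e (nat_lit 90170) (nat_lit 13) (.e (nat_lit 172124) (nat_lit 14) (.e (nat_lit 491539) (nat_lit 3) .nil))) .nil)) 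
(.lf (nat_lit 217291) (.g (nat_lit 1214) (.e (nat_lit 90172) (nat_lit 14) (.e (nat_lit 180225) (nat_lit 0) (.e (nat_lit 5537) (nat_lit 306) (.e (nat_lit 1077) (nat_lit 81) .nil)))) .nil))) (.nd (nat_lit 6) 
(.lf (nat_lit 217259) (.g (nat_lit 4111) (.e (nat_lit 90170) (nat_lit 13) (.e (nat_lit 172126) (nat_lit 14) (.e (nat_lit 491539) (nat_lit 3) (.e (nat_lit 98367) (nat_lit 27) (.e (nat_lit 442112) (nat_lit 0) (.e (nat_lit 1237) (nat_lit 91) .nil)))))) (.g (nat_lit 4) .nil .nil))) 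
(.lf (nat_lit 217323) (.g (nat_lit 2905) (.e (nat_lit 90172) (nat_lit 14) (.e (nat_lit 180243) (nat_lit 5) (.e (nat_lit 532499) (nat_lit 1) (.e (nat_lit 57688) (nat_lit 156) (.e (nat_lit 163867) (nat_lit 2) .nil))))) .nil)))) (.nd (nat_lit 5) (.nd (nat_lit 6) 
(.lf (nat_lit 217243) (.g (nat_lit 2084) (.e (nat_lit 90170) (nat_lit 13) (.e (nat_lit 172126) (nat_lit 14) (.e (nat_lit 491537) (nat_lit 2) (.e (nat_lit 90128) (nat_lit 9) .nil)))) .nil)) 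
(.lf (nat_lit 217307) (.g (nat_lit 1742) (.e (nat_lit 90172) (nat_lit 14) (.e (nat_lit 180229) (nat_lit 0) (.e (nat_lit 5548) (nat_lit 306) (.e (nat_lit 2640) (nat_lit 165) (.e (nat_lit 180271) (nat_lit 26) .nil))))) .nil))) (.nd (nat_lit 6) 
(.lf (nat_lit 217275) (.g (nat_lit 2487) (.e (nat_lit 90171) (nat_lit 14) (.e (nat_lit 180243) (nat_lit 5) (.e (nat_lit 532504) (nat_lit 1) (.e (nat_lit 57692) (nat_lit 156) (.e (nat_lit 163871) (nat_lit 2) .nil))))) .nil)) 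
(.lf (nat_lit 217339) (.g (nat_lit 3172) (.e (nat_lit 90172) (nat_lit 14) (.e (nat_lit 180243) (nat_lit 5) (.e (nat_lit 532499) (nat_lit 1) (.e (nat_lit 57688) (nat_lit 156) (.e (nat_lit 163874) (nat_lit 3) .nil))))) .nil)))))) (.nd (nat_lit 3) (.nd (nat_lit 4) (.nd (nat_lit 5) (.nd (nat_lit 6) 
(.lf (nat_lit 217223) (.g (nat_lit 2073) (.e (nat_lit 90170) (nat_lit 13) (.e (nat_lit 172124) (nat_lit 14) (.e (nat_lit 491537) (nat_lit 2) (.e (nat_lit 90173) (nat_lit 14) .nil)))) .nil)) 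
(.lf (nat_lit 217287) (.g (nat_lit 1600) (.e (nat_lit 90171) (nat_lit 14) (.e (nat_lit 180252) (nat_lit 10) (.e (nat_lit 573489) (nat_lit 14) (.e (nat_lit 73755) (nat_lit 8) .nil)))) .nil))) (.nd (nat_lit 6) 
(.lf (nat_lit 217255) (.g (nat_lit 3064) (.e (nat_lit 90170) (nat_lit 13) (.e (nat_lit 172126) (nat_lit 14) (.e (nat_lit 491537) (nat_lit 2) (.e (nat_lit 90185) (nat_lit 17) (.e (nat_lit 237573) (nat_lit 0) (.e (nat_lit 7936) (nat_lit 402) (.e (nat_lit 1237) (nat_lit 91) .nil))))))) (.g (nat_lit 4) .nil .nil))) 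
(.lf (nat_lit 217319) (.g (nat_lit 1663) (.e (nat_lit 90172) (nat_lit 14) (.e (nat_lit 180243) (nat_lit 5) (.e (nat_lit 532499) (nat_lit 1) (.e (nat_lit 57686) (nat_lit 156) .nil)))) .nil)))) (.nd (nat_lit 5) (.nd (nat_lit 6) 
(.lf (nat_lit 217239) (.g (nat_lit 1613) (.e (nat_lit 90170) (nat_lit 13) (.e (nat_lit 172126) (nat_lit 14) (.e (nat_lit 491536) (nat_lit 2) (.e (nat_lit 90172) (nat_lit 14) .nil)))) .nil)) 
(.lf (nat_lit 217303) (.g (nat_lit 1757) (.e (nat_lit 90172) (nat_lit 14) (.e (nat_lit 180229) (nat_lit 0) (.e (nat_lit 5546) (nat_lit 306) (.e (nat_lit 2640) (nat_lit 165) (.e (nat_lit 180271) (nat_lit 26) .nil))))) .nil))) (.nd (nat_lit 6) 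
(.lf (nat_lit 217271) (.g (nat_lit 1868) (.e (nat_lit 90170) (nat_lit 13) (.e (nat_lit 179968) (nat_lit 20) (.e (nat_lit 114712) (nat_lit 21) (.e (nat_lit 57851) (nat_lit 252) (.e (nat_lit 57389) (nat_lit 5) (.e (nat_lit 114702) (nat_lit 20) (.e (nat_lit 2198) (nat_lit 144) (.e (nat_lit 720940) (nat_lit 22) .nil)))))))) (.g (nat_lit 5) .nil .nil))) 
(.lf (nat_lit 217335) (.g (nat_lit 3478) (.e (nat_lit 90172) (nat_lit 14) (.e (nat_lit 180243) (nat_lit 5) (.e (nat_lit 532499) (nat_lit 1) (.e (nat_lit 57688) (nat_lit 156) (.e (nat_lit 163871) (nat_lit 2) (.e (nat_lit 196677) (nat_lit 16) (.e (nat_lit 130816) (nat_lit 48) (.e (nat_lit 720941) (nat_lit 22) .nil)))))))) (.g (nat_lit 4) .nil .nil)))))) 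
(.nd (nat_lit 4) (.nd (nat_lit 5) (.nd (nat_lit 6) 
(.lf (nat_lit 217231) (.g (nat_lit 2773) (.e (nat_lit 90170) (nat_lit 13) (.e (nat_lit 172125) (nat_lit 14) (.e (nat_lit 491537) (nat_lit 2) (.e (nat_lit 90170) (nat_lit 13) (.e (nat_lit 172126) (nat_lit 14) .nil))))) .nil)) 
(.lf (nat_lit 217295) (.g (nat_lit 1637) (.e (nat_lit 90172) (nat_lit 14) (.e (nat_lit 180229) (nat_lit 0) (.e (nat_lit 5224) (nat_lit 296) (.e (nat_lit 163884) (nat_lit 5) (.e (nat_lit 221184) (nat_lit 0) .nil))))) .nil))) (.nd (nat_lit 6) 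
(.lf (nat_lit 217263) (.g (nat_lit 2818) (.e (nat_lit 90170) (nat_lit 13) (.e (nat_lit 172126) (nat_lit 14) (.e (nat_lit 491540) (nat_lit 3) (.e (nat_lit 98367) (nat_lit 27) (.e (nat_lit 434177) (nat_lit 0) (.e (nat_lit 1235) (nat_lit 91) .nil)))))) (.g (nat_lit 4) .nil .nil))) 
(.lf (nat_lit 217327) (.g (nat_lit 3202) (.e (nat_lit 90172) (nat_lit 14) (.e (nat_lit 180243) (nat_lit 5) (.e (nat_lit 532499) (nat_lit 1) (.e (nat_lit 57688) (nat_lit 156) (.e (nat_lit 163868) (nat_lit 2) .nil))))) .nil)))) (.nd (nat_lit 5) (.nd (nat_lit 6) 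
(.lf (nat_lit 217247) (.g (nat_lit 2772) (.e (nat_lit 90170) (nat_lit 13) (.e (nat_lit 172126) (nat_lit 14) (.e (nat_lit 491537) (nat_lit 2) (.e (nat_lit 90165) (nat_lit 12) (.e (nat_lit 164217) (nat_lit 178) .nil))))) .nil)) 
(.lf (nat_lit 217311) (.g (nat_lit 194) (.e (nat_lit 90172) (nat_lit 14) (.e (nat_lit 180233) (nat_lit 0) (.e (nat_lit 5599) (nat_lit 310) .nil))) .nil))) (.nd (nat_lit 6) 
(.lf (nat_lit 217279) (.g (nat_lit 1710) (.e (nat_lit 90171) (nat_lit 14) (.e (nat_lit 180250) (nat_lit 10) (.e (nat_lit 573489) (nat_lit 14) (.e (nat_lit 73755) (nat_lit 8) .nil)))) .nil)) 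
(.lf (nat_lit 217343) (.g (nat_lit 3215) (.e (nat_lit 90172) (nat_lit 14) (.e (nat_lit 180243) (nat_lit 5) (.e (nat_lit 532499) (nat_lit 1) (.e (nat_lit 57688) (nat_lit 156) (.e (nat_lit 163875) (nat_lit 3) .nil))))) .nil)))))))))

noncomputable def tv2856 : DT := (.nd (nat_lit 0) (.nd (nat_lit 1) (.nd (nat_lit 2) (.nd (nat_lit 3) (.nd (nat_lit 4) (.nd (nat_lit 5) (.nd (nat_lit 6) 
(.lf (nat_lit 217344) (.g (nat_lit 1679) (.e (nat_lit 90172) (nat_lit 14) (.e (nat_lit 180243) (nat_lit 5) (.e (nat_lit 532499) (nat_lit 1) (.e (nat_lit 57691) (nat_lit 156) .nil)))) .nil)) 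
(.lf (nat_lit 217408) (.g (nat_lit 2749) (.e (nat_lit 90172) (nat_lit 14) (.e (nat_lit 180243) (nat_lit 5) (.e (nat_lit 532501) (nat_lit 1) (.e (nat_lit 57692) (nat_lit 156) (.e (nat_lit 163869) (nat_lit 2) (.e (nat_lit 196677) (nat_lit 16) (.e (nat_lit 122969) (nat_lit 48) (.e (nat_lit 720937) (nat_lit 22) .nil)))))))) (.g (nat_lit 4) .nil .nil)))) (.nd (nat_lit 6) 
(.lf (nat_lit 217376) (.g (nat_lit 1521) (.e (nat_lit 90172) (nat_lit 14) (.e (nat_lit 180243) (nat_lit 5) (.e (nat_lit 532501) (nat_lit 1) (.e (nat_lit 57685) (nat_lit 156) .nil)))) .nil)) 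
(.lf (nat_lit 217440) (.g (nat_lit 2566) (.e (nat_lit 90172) (nat_lit 14) (.e (nat_lit 180243) (nat_lit 5) (.e (nat_lit 532503) (nat_lit 1) (.e (nat_lit 57688) (nat_lit 156) (.e (nat_lit 163872) (nat_lit 3) .nil))))) .nil)))) (.nd (nat_lit 5) (.nd (nat_lit 6) 
(.lf (nat_lit 217360) (.g (nat_lit 2992) (.e (nat_lit 90172) (nat_lit 14) (.e (nat_lit 180243) (nat_lit 5) (.e (nat_lit 532499) (nat_lit 1) (.e (nat_lit 57692) (nat_lit 156) (.e (nat_lit 163869) (nat_lit 2) (.e (nat_lit 196677) (nat_lit 16) (.e (nat_lit 122969) (nat_lit 48) (.e (nat_lit 720941) (nat_lit 22) .nil)))))))) (.g (nat_lit 4) .nil .nil))) 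
(.lf (nat_lit 217424) (.g (nat_lit 1481) (.e (nat_lit 90172) (nat_lit 14) (.e (nat_lit 180243) (nat_lit 5) (.e (nat_lit 532503) (nat_lit 1) (.e (nat_lit 57680) (nat_lit 155) .nil)))) .nil))) (.nd (nat_lit 6) 
(.lf (nat_lit 217392) (.g (nat_lit 3453) (.e (nat_lit 90172) (nat_lit 14) (.e (nat_lit 180243) (nat_lit 5) (.e (nat_lit 532501) (nat_lit 1) (.e (nat_lit 57691) (nat_lit 156) (.e (nat_lit 163875) (nat_lit 3) (.e (nat_lit 204838) (nat_lit 20) (.e (nat_lit 114716) (nat_lit 22) .nil))))))) (.g (nat_lit 5) .nil .nil))) 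
(.lf (nat_lit 217456) (.g (nat_lit 2281) (.e (nat_lit 90172) (nat_lit 14) (.e (nat_lit 180243) (nat_lit 5) (.e (nat_lit 532504) (nat_lit 1) (.e (nat_lit 57665) (nat_lit 152) (.e (nat_lit 2466) (nat_lit 157) .nil))))) .nil))))) (.nd (nat_lit 4) (.nd (nat_lit 5) (.nd (nat_lit 6) 
(.lf (nat_lit 217352) (.g (nat_lit 2819) (.e (nat_lit 90172) (nat_lit 14) (.e (nat_lit 180243) (nat_lit 5) (.e (nat_lit 532499) (nat_lit 1) (.e (nat_lit 57692) (nat_lit 156) (.e (nat_lit 163869) (nat_lit 2) (.e (nat_lit 196628) (nat_lit 9) (.e (nat_lit 968) (nat_lit 81) (.e (nat_lit 2203) (nat_lit 144) (.e (nat_lit 720941) (nat_lit 22) .nil))))))))) (.g (nat_lit 4) .nil .nil))) 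
(.lf (nat_lit 217416) (.g (nat_lit 1327) (.e (nat_lit 90172) (nat_lit 14) (.e (nat_lit 180243) (nat_lit 5) (.e (nat_lit 532501) (nat_lit 1) (.e (nat_lit 57693) (nat_lit 157) .nil)))) .nil))) (.nd (nat_lit 6) 
(.lf (nat_lit 217384) (.g (nat_lit 2182) (.e (nat_lit 90172) (nat_lit 14) (.e (nat_lit 180243) (nat_lit 5) (.e (nat_lit 532501) (nat_lit 1) (.e (nat_lit 57691) (nat_lit 156) (.e (nat_lit 163869) (nat_lit 2) .nil))))) .nil)) 
(.lf (nat_lit 217448) (.g (nat_lit 2400) (.e (nat_lit 90172) (nat_lit 14) (.e (nat_lit 180243) (nat_lit 5) (.e (nat_lit 532503) (nat_lit 1) (.e (nat_lit 57691) (nat_lit 156) (.e (nat_lit 163875) (nat_lit 3) .nil))))) .nil)))) (.nd (nat_lit 5) (.nd (nat_lit 6) 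
(.lf (nat_lit 217368) (.g (nat_lit 2953) (.e (nat_lit 90172) (nat_lit 14) (.e (nat_lit 180243) (nat_lit 5) (.e (nat_lit 532499) (nat_lit 1) (.e (nat_lit 57692) (nat_lit 156) (.e (nat_lit 163871) (nat_lit 2) (.e (nat_lit 196677) (nat_lit 16) (.e (nat_lit 130816) (nat_lit 48) (.e (nat_lit 720938) (nat_lit 22) .nil)))))))) (.g (nat_lit 4) .nil .nil))) 
(.lf (nat_lit 217432) (.g (nat_lit 1650) (.e (nat_lit 90172) (nat_lit 14) (.e (nat_lit 180243) (nat_lit 5) (.e (nat_lit 532503) (nat_lit 1) (.e (nat_lit 57688) (nat_lit 156) .nil)))) .nil))) (.nd (nat_lit 6) 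
(.lf (nat_lit 217400) (.g (nat_lit 2522) (.e (nat_lit 90172) (nat_lit 14) (.e (nat_lit 180243) (nat_lit 5) (.e (nat_lit 532501) (nat_lit 1) (.e (nat_lit 57692) (nat_lit 156) (.e (nat_lit 163869) (nat_lit 2) (.e (nat_lit 196659) (nat_lit 12) (.e (nat_lit 57550) (nat_lit 48) (.e (nat_lit 720937) (nat_lit 22) .nil)))))))) (.g (nat_lit 4) .nil .nil))) 
(.lf (nat_lit 217464) (.g (nat_lit 2509) (.e (nat_lit 90172) (nat_lit 14) (.e (nat_lit 180243) (nat_lit 5) (.e (nat_lit 532504) (nat_lit 1) (.e (nat_lit 57691) (nat_lit 156) (.e (nat_lit 163869) (nat_lit 2) .nil))))) .nil)))))) (.nd (nat_lit 3) (.nd (nat_lit 4) (.nd (nat_lit 5) (.nd (nat_lit 6) 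
(.lf (nat_lit 217348) (.g (nat_lit 2833) (.e (nat_lit 90172) (nat_lit 14) (.e (nat_lit 180243) (nat_lit 5) (.e (nat_lit 532499) (nat_lit 1) (.e (nat_lit 57691) (nat_lit 156) (.e (nat_lit 163875) (nat_lit 3) (.e (nat_lit 204814) (nat_lit 17) (.e (nat_lit 2203) (nat_lit 144) (.e (nat_lit 720941) (nat_lit 22) .nil)))))))) (.g (nat_lit 4) .nil .nil))) 
(.lf (nat_lit 217412) (.g (nat_lit 2341) (.e (nat_lit 90172) (nat_lit 14) (.e (nat_lit 180243) (nat_lit 5) (.e (nat_lit 532501) (nat_lit 1) (.e (nat_lit 57692) (nat_lit 156) (.e (nat_lit 163870) (nat_lit 2) .nil))))) .nil))) (.nd (nat_lit 6) 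
(.lf (nat_lit 217380) (.g (nat_lit 2897) (.e (nat_lit 90172) (nat_lit 14) (.e (nat_lit 180243) (nat_lit 5) (.e (nat_lit 532501) (nat_lit 1) (.e (nat_lit 57690) (nat_lit 156) (.e (nat_lit 163871) (nat_lit 2) (.e (nat_lit 196677) (nat_lit 16) (.e (nat_lit 122969) (nat_lit 48) (.e (nat_lit 720937) (nat_lit 22) .nil)))))))) (.g (nat_lit 5) .nil .nil))) 
(.lf (nat_lit 217444) (.g (nat_lit 2997) (.e (nat_lit 90172) (nat_lit 14) (.e (nat_lit 180243) (nat_lit 5) (.e (nat_lit 532503) (nat_lit 1) (.e (nat_lit 57688) (nat_lit 156) (.e (nat_lit 163874) (nat_lit 3) (.e (nat_lit 204818) (nat_lit 17) (.e (nat_lit 2203) (nat_lit 144) (.e (nat_lit 720941) (nat_lit 22) .nil)))))))) (.g (nat_lit 4) .nil .nil))))) (.nd (nat_lit 5) (.nd (nat_lit 6) 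
(.lf (nat_lit 217364) (.g (nat_lit 2712) (.e (nat_lit 90172) (nat_lit 14) (.e (nat_lit 180243) (nat_lit 5) (.e (nat_lit 532499) (nat_lit 1) (.e (nat_lit 57692) (nat_lit 156) (.e (nat_lit 163871) (nat_lit 2) .nil))))) .nil)) 
(.lf (nat_lit 217428) (.g (nat_lit 1725) (.e (nat_lit 90172) (nat_lit 14) (.e (nat_lit 180243) (nat_lit 5) (.e (nat_lit 532503) (nat_lit 1) (.e (nat_lit 57682) (nat_lit 155) .nil)))) .nil))) (.nd (nat_lit 6) 
(.lf (nat_lit 217396) (.g (nat_lit 2430) (.e (nat_lit 90172) (nat_lit 14) (.e (nat_lit 180243) (nat_lit 5) (.e (nat_lit 532501) (nat_lit 1) (.e (nat_lit 57692) (nat_lit 156) (.e (nat_lit 163869) (nat_lit 2) (.e (nat_lit 196658) (nat_lit 12) (.e (nat_lit 57550) (nat_lit 48) (.e (nat_lit 720937) (nat_lit 22) .nil)))))))) (.g (nat_lit 4) .nil .nil))) 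
(.lf (nat_lit 217460) (.g (nat_lit 3098) (.e (nat_lit 90172) (nat_lit 14) (.e (nat_lit 180243) (nat_lit 5) (.e (nat_lit 532504) (nat_lit 1) (.e (nat_lit 57690) (nat_lit 156) (.e (nat_lit 163871) (nat_lit 2) (.e (nat_lit 196677) (nat_lit 16) (.e (nat_lit 122969) (nat_lit 48) (.e (nat_lit 720937) (nat_lit 22) .nil)))))))) (.g (nat_lit 5) .nil .nil)))))) 
(.nd (nat_lit 4) (.nd (nat_lit 5) (.nd (nat_lit 6) 
(.lf (nat_lit 217356) (.g (nat_lit 2903) (.e (nat_lit 90172) (nat_lit 14) (.e (nat_lit 180243) (nat_lit 5) (.e (nat_lit 532499) (nat_lit 1) (.e (nat_lit 57692) (nat_lit 156) (.e (nat_lit 163869) (nat_lit 2) (.e (nat_lit 196661) (nat_lit 12) (.e (nat_lit 57549) (nat_lit 48) (.e (nat_lit 720937) (nat_lit 22) .nil)))))))) (.g (nat_lit 4) .nil .nil))) 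
(.lf (nat_lit 217420) (.g (nat_lit 1289) (.e (nat_lit 90172) (nat_lit 14) (.e (nat_lit 180243) (nat_lit 5) (.e (nat_lit 532502) (nat_lit 1) (.e (nat_lit 57692) (nat_lit 156) .nil)))) .nil))) (.nd (nat_lit 6) 
(.lf (nat_lit 217388) (.g (nat_lit 2389) (.e (nat_lit 90172) (nat_lit 14) (.e (nat_lit 180243) (nat_lit 5) (.e (nat_lit 532501) (nat_lit 1) (.e (nat_lit 57691) (nat_lit 156) (.e (nat_lit 163871) (nat_lit 2) (.e (nat_lit 196677) (nat_lit 16) (.e (nat_lit 130816) (nat_lit 48) (.e (nat_lit 720941) (nat_lit 22) .nil)))))))) (.g (nat_lit 4) .nil .nil))) 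
(.lf (nat_lit 217452) (.g (nat_lit 2445) (.e (nat_lit 90172) (nat_lit 14) (.e (nat_lit 180243) (nat_lit 5) (.e (nat_lit 532503) (nat_lit 1) (.e (nat_lit 57692) (nat_lit 156) (.e (nat_lit 163875) (nat_lit 3) .nil))))) .nil)))) (.nd (nat_lit 5) (.nd (nat_lit 6) 
(.lf (nat_lit 217372) (.g (nat_lit 773) (.e (nat_lit 90172) (nat_lit 14) (.e (nat_lit 180243) (nat_lit 5) (.e (nat_lit 532500) (nat_lit 1) .nil))) .nil)) 
(.lf (nat_lit 217436) (.g (nat_lit 2848) (.e (nat_lit 90172) (nat_lit 14) (.e (nat_lit 180243) (nat_lit 5) (.e (nat_lit 532503) (nat_lit 1) (.e (nat_lit 57688) (nat_lit 156) (.e (nat_lit 163867) (nat_lit 2) (.e (nat_lit 196678) (nat_lit 16) (.e (nat_lit 122971) (nat_lit 48) (.e (nat_lit 720937) (nat_lit 22) .nil)))))))) (.g (nat_lit 4) .nil .nil)))) (.nd (nat_lit 6) 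
(.lf (nat_lit 217404) (.g (nat_lit 2527) (.e (nat_lit 90172) (nat_lit 14) (.e (nat_lit 180243) (nat_lit 5) (.e (nat_lit 532501) (nat_lit 1) (.e (nat_lit 57692) (nat_lit 156) (.e (nat_lit 163869) (nat_lit 2) (.e (nat_lit 196660) (nat_lit 12) (.e (nat_lit 57550) (nat_lit 48) (.e (nat_lit 720938) (nat_lit 22) .nil)))))))) (.g (nat_lit 4) .nil .nil))) 
(.lf (nat_lit 217468) (.g (nat_lit 2788) (.e (nat_lit 90172) (nat_lit 14) (.e (nat_lit 180243) (nat_lit 5) (.e (nat_lit 532504) (nat_lit 1) (.e (nat_lit 57691) (nat_lit 156) (.e (nat_lit 163871) (nat_lit 2) (.e (nat_lit 196660) (nat_lit 12) (.e (nat_lit 57550) (nat_lit 48) (.e (nat_lit 720941) (nat_lit 22) .nil)))))))) (.g (nat_lit 4) .nil .nil)))))))) 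
(.nd (nat_lit 2) (.nd (nat_lit 3) (.nd (nat_lit 4) (.nd (nat_lit 5) (.nd (nat_lit 6) 
(.lf (nat_lit 217346) (.g (nat_lit 2388) (.e (nat_lit 90172) (nat_lit 14) (.e (nat_lit 180243) (nat_lit 5) (.e (nat_lit 532499) (nat_lit 1) (.e (nat_lit 57691) (nat_lit 156) (.e (nat_lit 163872) (nat_lit 3) .nil))))) .nil)) 
(.lf (nat_lit 217410) (.g (nat_lit 2743) (.e (nat_lit 90172) (nat_lit 14) (.e (nat_lit 180243) (nat_lit 5) (.e (nat_lit 532501) (nat_lit 1) (.e (nat_lit 57692) (nat_lit 156) (.e (nat_lit 163869) (nat_lit 2) (.e (nat_lit 196677) (nat_lit 16) (.e (nat_lit 122970) (nat_lit 48) (.e (nat_lit 720941) (nat_lit 22) .nil)))))))) (.g (nat_lit 4) .nil .nil)))) (.nd (nat_lit 6) 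
(.lf (nat_lit 217378) (.g (nat_lit 2787) (.e (nat_lit 90172) (nat_lit 14) (.e (nat_lit 180243) (nat_lit 5) (.e (nat_lit 532501) (nat_lit 1) (.e (nat_lit 57689) (nat_lit 156) (.e (nat_lit 163875) (nat_lit 3) (.e (nat_lit 204817) (nat_lit 17) (.e (nat_lit 2198) (nat_lit 144) (.e (nat_lit 720941) (nat_lit 22) .nil)))))))) (.g (nat_lit 5) .nil .nil))) 
(.lf (nat_lit 217442) (.g (nat_lit 2690) (.e (nat_lit 90172) (nat_lit 14) (.e (nat_lit 180243) (nat_lit 5) (.e (nat_lit 532503) (nat_lit 1) (.e (nat_lit 57688) (nat_lit 156) (.e (nat_lit 163873) (nat_lit 3) (.e (nat_lit 204817) (nat_lit 17) (.e (nat_lit 2203) (nat_lit 144) (.e (nat_lit 720941) (nat_lit 22) .nil)))))))) (.g (nat_lit 4) .nil .nil))))) (.nd (nat_lit 5) (.nd (nat_lit 6) 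
(.lf (nat_lit 217362) (.g (nat_lit 2884) (.e (nat_lit 90172) (nat_lit 14) (.e (nat_lit 180243) (nat_lit 5) (.e (nat_lit 532499) (nat_lit 1) (.e (nat_lit 57692) (nat_lit 156) (.e (nat_lit 163869) (nat_lit 2) (.e (nat_lit 196677) (nat_lit 16) (.e (nat_lit 130816) (nat_lit 48) (.e (nat_lit 720938) (nat_lit 22) .nil)))))))) (.g (nat_lit 4) .nil .nil))) 
(.lf (nat_lit 217426) (.g (nat_lit 2589) (.e (nat_lit 90172) (nat_lit 14) (.e (nat_lit 180243) (nat_lit 5) (.e (nat_lit 532503) (nat_lit 1) (.e (nat_lit 57681) (nat_lit 155) (.e (nat_lit 122891) (nat_lit 2) .nil))))) .nil))) (.nd (nat_lit 6) 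
(.lf (nat_lit 217394) (.g (nat_lit 2288) (.e (nat_lit 90172) (nat_lit 14) (.e (nat_lit 180243) (nat_lit 5) (.e (nat_lit 532501) (nat_lit 1) (.e (nat_lit 57692) (nat_lit 156) (.e (nat_lit 163869) (nat_lit 2) .nil))))) .nil)) 
(.lf (nat_lit 217458) (.g (nat_lit 1721) (.e (nat_lit 90172) (nat_lit 14) (.e (nat_lit 180243) (nat_lit 5) (.e (nat_lit 532504) (nat_lit 1) (.e (nat_lit 57689) (nat_lit 156) .nil)))) .nil))))) (.nd (nat_lit 4) (.nd (nat_lit 5) (.nd (nat_lit 6) 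
(.lf (nat_lit 217354) (.g (nat_lit 2858) (.e (nat_lit 90172) (nat_lit 14) (.e (nat_lit 180243) (nat_lit 5) (.e (nat_lit 532499) (nat_lit 1) (.e (nat_lit 57692) (nat_lit 156) (.e (nat_lit 163869) (nat_lit 2) (.e (nat_lit 196659) (nat_lit 12) (.e (nat_lit 57550) (nat_lit 48) (.e (nat_lit 720941) (nat_lit 22) .nil)))))))) (.g (nat_lit 4) .nil .nil))) 
(.lf (nat_lit 217418) (.g (nat_lit 1318) (.e (nat_lit 90172) (nat_lit 14) (.e (nat_lit 180243) (nat_lit 5) (.e (nat_lit 532502) (nat_lit 1) (.e (nat_lit 57688) (nat_lit 156) .nil)))) .nil))) (.nd (nat_lit 6) 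
(.lf (nat_lit 217386) (.g (nat_lit 2351) (.e (nat_lit 90172) (nat_lit 14) (.e (nat_lit 180243) (nat_lit 5) (.e (nat_lit 532501) (nat_lit 1) (.e (nat_lit 57691) (nat_lit 156) (.e (nat_lit 163871) (nat_lit 2) (.e (nat_lit 196677) (nat_lit 16) (.e (nat_lit 122969) (nat_lit 48) (.e (nat_lit 720938) (nat_lit 22) .nil)))))))) (.g (nat_lit 4) .nil .nil))) 
(.lf (nat_lit 217450) (.g (nat_lit 1641) (.e (nat_lit 90172) (nat_lit 14) (.e (nat_lit 180243) (nat_lit 5) (.e (nat_lit 532503) (nat_lit 1) (.e (nat_lit 57692) (nat_lit 156) .nil)))) .nil)))) (.nd (nat_lit 5) (.nd (nat_lit 6) 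
(.lf (nat_lit 217370) (.g (nat_lit 2846) (.e (nat_lit 90172) (nat_lit 14) (.e (nat_lit 180243) (nat_lit 5) (.e (nat_lit 532499) (nat_lit 1) (.e (nat_lit 57692) (nat_lit 156) (.e (nat_lit 163874) (nat_lit 3) (.e (nat_lit 204815) (nat_lit 17) (.e (nat_lit 2198) (nat_lit 144) (.e (nat_lit 720941) (nat_lit 22) .nil)))))))) (.g (nat_lit 4) .nil .nil))) 
(.lf (nat_lit 217434) (.g (nat_lit 3960) (.e (nat_lit 90172) (nat_lit 14) (.e (nat_lit 180243) (nat_lit 5) (.e (nat_lit 532503) (nat_lit 1) (.e (nat_lit 57688) (nat_lit 156) (.e (nat_lit 163867) (nat_lit 2) (.e (nat_lit 196628) (nat_lit 9) (.e (nat_lit 1275) (nat_lit 94) (.e (nat_lit 114714) (nat_lit 22) .nil)))))))) (.g (nat_lit 5) .nil .nil)))) (.nd (nat_lit 6) 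
(.lf (nat_lit 217402) (.g (nat_lit 2672) (.e (nat_lit 90172) (nat_lit 14) (.e (nat_lit 180243) (nat_lit 5) (.e (nat_lit 532501) (nat_lit 1) (.e (nat_lit 57692) (nat_lit 156) (.e (nat_lit 163869) (nat_lit 2) (.e (nat_lit 196659) (nat_lit 12) (.e (nat_lit 57550) (nat_lit 48) (.e (nat_lit 720941) (nat_lit 22) .nil)))))))) (.g (nat_lit 4) .nil .nil))) 
(.lf (nat_lit 217466) (.g (nat_lit 2637) (.e (nat_lit 90172) (nat_lit 14) (.e (nat_lit 180243) (nat_lit 5) (.e (nat_lit 532504) (nat_lit 1) (.e (nat_lit 57691) (nat_lit 156) (.e (nat_lit 163870) (nat_lit 2) (.e (nat_lit 196661) (nat_lit 12) (.e (nat_lit 57549) (nat_lit 48) (.e (nat_lit 720941) (nat_lit 22) .nil)))))))) (.g (nat_lit 4) .nil .nil))))))) 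
(.nd (nat_lit 3) (.nd (nat_lit 4) (.nd (nat_lit 5) (.nd (nat_lit 6) 
(.lf (nat_lit 217350) (.g (nat_lit 1752) (.e (nat_lit 90172) (nat_lit 14) (.e (nat_lit 180243) (nat_lit 5) (.e (nat_lit 532499) (nat_lit 1) (.e (nat_lit 57692) (nat_lit 156) .nil)))) .nil)) 
(.lf (nat_lit 217414) (.g (nat_lit 2791) (.e (nat_lit 90172) (nat_lit 14) (.e (nat_lit 180243) (nat_lit 5) (.e (nat_lit 532501) (nat_lit 1) (.e (nat_lit 57692) (nat_lit 156) (.e (nat_lit 163871) (nat_lit 2) (.e (nat_lit 196677) (nat_lit 16) (.e (nat_lit 122970) (nat_lit 48) (.e (nat_lit 720941) (nat_lit 22) .nil)))))))) (.g (nat_lit 4) .nil .nil)))) (.nd (nat_lit 6) 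
(.lf (nat_lit 217382) (.g (nat_lit 2733) (.e (nat_lit 90172) (nat_lit 14) (.e (nat_lit 180243) (nat_lit 5) (.e (nat_lit 532501) (nat_lit 1) (.e (nat_lit 57690) (nat_lit 156) (.e (nat_lit 163871) (nat_lit 2) (.e (nat_lit 196677) (nat_lit 16) (.e (nat_lit 122970) (nat_lit 48) (.e (nat_lit 720941) (nat_lit 22) .nil)))))))) (.g (nat_lit 5) .nil .nil))) 
(.lf (nat_lit 217446) (.g (nat_lit 1522) (.e (nat_lit 90172) (nat_lit 14) (.e (nat_lit 180243) (nat_lit 5) (.e (nat_lit 532503) (nat_lit 1) (.e (nat_lit 57689) (nat_lit 156) .nil)))) .nil)))) (.nd (nat_lit 5) (.nd (nat_lit 6) 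
(.lf (nat_lit 217366) (.g (nat_lit 3192) (.e (nat_lit 90172) (nat_lit 14) (.e (nat_lit 180243) (nat_lit 5) (.e (nat_lit 532499) (nat_lit 1) (.e (nat_lit 57692) (nat_lit 156) (.e (nat_lit 163871) (nat_lit 2) (.e (nat_lit 196677) (nat_lit 16) (.e (nat_lit 122969) (nat_lit 48) (.e (nat_lit 720938) (nat_lit 22) .nil)))))))) (.g (nat_lit 4) .nil .nil))) 
(.lf (nat_lit 217430) (.g (nat_lit 1514) (.e (nat_lit 90172) (nat_lit 14) (.e (nat_lit 180243) (nat_lit 5) (.e (nat_lit 532503) (nat_lit 1) (.e (nat_lit 57686) (nat_lit 156) .nil)))) .nil))) (.nd (nat_lit 6) 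
(.lf (nat_lit 217398) (.g (nat_lit 2577) (.e (nat_lit 90172) (nat_lit 14) (.e (nat_lit 180243) (nat_lit 5) (.e (nat_lit 532501) (nat_lit 1) (.e (nat_lit 57692) (nat_lit 156) (.e (nat_lit 163869) (nat_lit 2) (.e (nat_lit 196658) (nat_lit 12) (.e (nat_lit 57550) (nat_lit 48) (.e (nat_lit 720941) (nat_lit 22) .nil)))))))) (.g (nat_lit 4) .nil .nil))) 
(.lf (nat_lit 217462) (.g (nat_lit 2934) (.e (nat_lit 90172) (nat_lit 14) (.e (nat_lit 180243) (nat_lit 5) (.e (nat_lit 532504) (nat_lit 1) (.e (nat_lit 57690) (nat_lit 156) (.e (nat_lit 163871) (nat_lit 2) (.e (nat_lit 196677) (nat_lit 16) (.e (nat_lit 122970) (nat_lit 48) (.e (nat_lit 720941) (nat_lit 22) .nil)))))))) (.g (nat_lit 5) .nil .nil)))))) 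
(.nd (nat_lit 4) (.nd (nat_lit 5) (.nd (nat_lit 6) 
(.lf (nat_lit 217358) (.g (nat_lit 2925) (.e (nat_lit 90172) (nat_lit 14) (.e (nat_lit 180243) (nat_lit 5) (.e (nat_lit 532499) (nat_lit 1) (.e (nat_lit 57692) (nat_lit 156) (.e (nat_lit 163869) (nat_lit 2) (.e (nat_lit 196677) (nat_lit 16) (.e (nat_lit 122969) (nat_lit 48) (.e (nat_lit 720937) (nat_lit 22) .nil)))))))) (.g (nat_lit 4) .nil .nil))) 
(.lf (nat_lit 217422) (.g (nat_lit 1957) (.e (nat_lit 90172) (nat_lit 14) (.e (nat_lit 180243) (nat_lit 5) (.e (nat_lit 532502) (nat_lit 1) (.e (nat_lit 57692) (nat_lit 156) (.e (nat_lit 163875) (nat_lit 3) .nil))))) .nil))) (.nd (nat_lit 6) 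
(.lf (nat_lit 217390) (.g (nat_lit 2020) (.e (nat_lit 90172) (nat_lit 14) (.e (nat_lit 180243) (nat_lit 5) (.e (nat_lit 532501) (nat_lit 1) (.e (nat_lit 57691) (nat_lit 156) (.e (nat_lit 163875) (nat_lit 3) .nil))))) .nil)) 
(.lf (nat_lit 217454) (.g (nat_lit 475) (.e (nat_lit 90172) (nat_lit 14) (.e (nat_lit 180243) (nat_lit 5) (.e (nat_lit 532504) (nat_lit 1) .nil))) .nil)))) (.nd (nat_lit 5) (.nd (nat_lit 6) 
(.lf (nat_lit 217374) (.g (nat_lit 1450) (.e (nat_lit 90172) (nat_lit 14) (.e (nat_lit 180243) (nat_lit 5) (.e (nat_lit 532501) (nat_lit 1) (.e (nat_lit 57662) (nat_lit 152) (.e (nat_lit 2717) (nat_lit 171) .nil))))) .nil)) 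
(.lf (nat_lit 217438) (.g (nat_lit 2595) (.e (nat_lit 90172) (nat_lit 14) (.e (nat_lit 180243) (nat_lit 5) (.e (nat_lit 532503) (nat_lit 1) (.e (nat_lit 57688) (nat_lit 156) (.e (nat_lit 163869) (nat_lit 2) .nil))))) .nil))) (.nd (nat_lit 6) 
(.lf (nat_lit 217406) (.g (nat_lit 2700) (.e (nat_lit 90172) (nat_lit 14) (.e (nat_lit 180243) (nat_lit 5) (.e (nat_lit 532501) (nat_lit 1) (.e (nat_lit 57692) (nat_lit 156) (.e (nat_lit 163869) (nat_lit 2) (.e (nat_lit 196661) (nat_lit 12) (.e (nat_lit 57549) (nat_lit 48) (.e (nat_lit 720937) (nat_lit 22) .nil)))))))) (.g (nat_lit 4) .nil .nil))) 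
(.lf (nat_lit 217470) (.g (nat_lit 3082) (.e (nat_lit 90172) (nat_lit 14) (.e (nat_lit 180243) (nat_lit 5) (.e (nat_lit 532504) (nat_lit 1) (.e (nat_lit 57691) (nat_lit 156) (.e (nat_lit 163871) (nat_lit 2) (.e (nat_lit 196677) (nat_lit 16) (.e (nat_lit 130816) (nat_lit 48) (.e (nat_lit 720938) (nat_lit 22) .nil)))))))) (.g (nat_lit 4) .nil .nil))))))))) 
(.nd (nat_lit 1) (.nd (nat_lit 2) (.nd (nat_lit 3) (.nd (nat_lit 4) (.nd (nat_lit 5) 
(.nd (nat_lit 6) 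
(.lf (nat_lit 217345) (.g (nat_lit 2493) (.e (nat_lit 90172) (nat_lit 14) (.e (nat_lit 180243) (nat_lit 5) (.e (nat_lit 532499) (nat_lit 1) (.e (nat_lit 57691) (nat_lit 156) (.e (nat_lit 163871) (nat_lit 2) .nil))))) .nil)) 
(.lf (nat_lit 217409) (.g (nat_lit 2778) (.e (nat_lit 90172) (nat_lit 14) (.e (nat_lit 180243) (nat_lit 5) (.e (nat_lit 532501) (nat_lit 1) (.e (nat_lit 57692) (nat_lit 156) (.e (nat_lit 163869) (nat_lit 2) (.e (nat_lit 196677) (nat_lit 16) (.e (nat_lit 122969) (nat_lit 48) (.e (nat_lit 720938) (nat_lit 22) .nil)))))))) (.g (nat_lit 4) .nil .nil)))) (.nd (nat_lit 6) 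
(.lf (nat_lit 217377) (.g (nat_lit 1450) (.e (nat_lit 90172) (nat_lit 14) (.e (nat_lit 180243) (nat_lit 5) (.e (nat_lit 532501) (nat_lit 1) (.e (nat_lit 57689) (nat_lit 156) .nil)))) .nil)) 
(.lf (nat_lit 217441) (.g (nat_lit 2382) (.e (nat_lit 90172) (nat_lit 14) (.e (nat_lit 180243) (nat_lit 5) (.e (nat_lit 532503) (nat_lit 1) (.e (nat_lit 57688) (nat_lit 156) (.e (nat_lit 163873) (nat_lit 3) .nil))))) .nil)))) (.nd (nat_lit 5) (.nd (nat_lit 6) 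
(.lf (nat_lit 217361) (.g (nat_lit 2919) (.e (nat_lit 90172) (nat_lit 14) (.e (nat_lit 180243) (nat_lit 5) (.e (nat_lit 532499) (nat_lit 1) (.e (nat_lit 57692) (nat_lit 156) (.e (nat_lit 163869) (nat_lit 2) (.e (nat_lit 196677) (nat_lit 16) (.e (nat_lit 122970) (nat_lit 48) (.e (nat_lit 720941) (nat_lit 22) .nil)))))))) (.g (nat_lit 4) .nil .nil))) 
(.lf (nat_lit 217425) (.g (nat_lit 1919) (.e (nat_lit 90172) (nat_lit 14) (.e (nat_lit 180243) (nat_lit 5) (.e (nat_lit 532503) (nat_lit 1) (.e (nat_lit 57680) (nat_lit 155) (.e (nat_lit 122893) (nat_lit 3) .nil))))) .nil))) (.nd (nat_lit 6) 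
(.lf (nat_lit 217393) (.g (nat_lit 1401) (.e (nat_lit 90172) (nat_lit 14) (.e (nat_lit 180243) (nat_lit 5) (.e (nat_lit 532501) (nat_lit 1) (.e (nat_lit 57692) (nat_lit 156) .nil)))) .nil)) 
(.lf (nat_lit 217457) (.g (nat_lit 1668) (.e (nat_lit 90172) (nat_lit 14) (.e (nat_lit 180243) (nat_lit 5) (.e (nat_lit 532504) (nat_lit 1) (.e (nat_lit 57685) (nat_lit 156) .nil)))) .nil))))) (.nd (nat_lit 4) (.nd (nat_lit 5) (.nd (nat_lit 6) 
(.lf (nat_lit 217353) (.g (nat_lit 2765) (.e (nat_lit 90172) (nat_lit 14) (.e (nat_lit 180243) (nat_lit 5) (.e (nat_lit 532499) (nat_lit 1) (.e (nat_lit 57692) (nat_lit 156) (.e (nat_lit 163869) (nat_lit 2) (.e (nat_lit 196658) (nat_lit 12) (.e (nat_lit 57550) (nat_lit 48) (.e (nat_lit 720941) (nat_lit 22) .nil)))))))) (.g (nat_lit 4) .nil .nil))) 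
(.lf (nat_lit 217417) (.g (nat_lit 781) (.e (nat_lit 90172) (nat_lit 14) (.e (nat_lit 180243) (nat_lit 5) (.e (nat_lit 532502) (nat_lit 1) .nil))) .nil))) (.nd (nat_lit 6) 
(.lf (nat_lit 217385) (.g (nat_lit 2322) (.e (nat_lit 90172) (nat_lit 14) (.e (nat_lit 180243) (nat_lit 5) (.e (nat_lit 532501) (nat_lit 1) (.e (nat_lit 57691) (nat_lit 156) (.e (nat_lit 163871) (nat_lit 2) (.e (nat_lit 196677) (nat_lit 16) (.e (nat_lit 122969) (nat_lit 48) (.e (nat_lit 720937) (nat_lit 22) .nil)))))))) (.g (nat_lit 4) .nil .nil))) 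
(.lf (nat_lit 217449) (.g (nat_lit 2803) (.e (nat_lit 90172) (nat_lit 14) (.e (nat_lit 180243) (nat_lit 5) (.e (nat_lit 532503) (nat_lit 1) (.e (nat_lit 57691) (nat_lit 156) (.e (nat_lit 163875) (nat_lit 3) (.e (nat_lit 204838) (nat_lit 20) (.e (nat_lit 114716) (nat_lit 22) .nil))))))) (.g (nat_lit 4) .nil .nil))))) (.nd (nat_lit 5) (.nd (nat_lit 6) 
(.lf (nat_lit 217369) (.g (nat_lit 2384) (.e (nat_lit 90172) (nat_lit 14) (.e (nat_lit 180243) (nat_lit 5) (.e (nat_lit 532499) (nat_lit 1) (.e (nat_lit 57692) (nat_lit 156) (.e (nat_lit 163874) (nat_lit 3) .nil))))) .nil)) 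
(.lf (nat_lit 217433) (.g (nat_lit 2512) (.e (nat_lit 90172) (nat_lit 14) (.e (nat_lit 180243) (nat_lit 5) (.e (nat_lit 532503) (nat_lit 1) (.e (nat_lit 57688) (nat_lit 156) (.e (nat_lit 163867) (nat_lit 2) .nil))))) .nil))) (.nd (nat_lit 6) 
(.lf (nat_lit 217401) (.g (nat_lit 2596) (.e (nat_lit 90172) (nat_lit 14) (.e (nat_lit 180243) (nat_lit 5) (.e (nat_lit 532501) (nat_lit 1) (.e (nat_lit 57692) (nat_lit 156) (.e (nat_lit 163869) (nat_lit 2) (.e (nat_lit 196659) (nat_lit 12) (.e (nat_lit 57550) (nat_lit 48) (.e (nat_lit 720938) (nat_lit 22) .nil)))))))) (.g (nat_lit 4) .nil .nil))) 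
(.lf (nat_lit 217465) (.g (nat_lit 2508) (.e (nat_lit 90172) (nat_lit 14) (.e (nat_lit 180243) (nat_lit 5) (.e (nat_lit 532504) (nat_lit 1) (.e (nat_lit 57691) (nat_lit 156) (.e (nat_lit 163870) (nat_lit 2) .nil))))) .nil)))))) (.nd (nat_lit 3) (.nd (nat_lit 4) (.nd (nat_lit 5) (.nd (nat_lit 6) 
(.lf (nat_lit 217349) (.g (nat_lit 2686) (.e (nat_lit 90172) (nat_lit 14) (.e (nat_lit 180243) (nat_lit 5) (.e (nat_lit 532499) (nat_lit 1) (.e (nat_lit 57691) (nat_lit 156) (.e (nat_lit 163875) (nat_lit 3) (.e (nat_lit 204817) (nat_lit 17) (.e (nat_lit 2198) (nat_lit 144) (.e (nat_lit 720941) (nat_lit 22) .nil)))))))) (.g (nat_lit 4) .nil .nil))) 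
(.lf (nat_lit 217413) (.g (nat_lit 2334) (.e (nat_lit 90172) (nat_lit 14) (.e (nat_lit 180243) (nat_lit 5) (.e (nat_lit 532501) (nat_lit 1) (.e (nat_lit 57692) (nat_lit 156) (.e (nat_lit 163871) (nat_lit 2) .nil))))) .nil))) (.nd (nat_lit 6) 
(.lf (nat_lit 217381) (.g (nat_lit 2926) (.e (nat_lit 90172) (nat_lit 14) (.e (nat_lit 180243) (nat_lit 5) (.e (nat_lit 532501) (nat_lit 1) (.e (nat_lit 57690) (nat_lit 156) (.e (nat_lit 163871) (nat_lit 2) (.e (nat_lit 196677) (nat_lit 16) (.e (nat_lit 122969) (nat_lit 48) (.e (nat_lit 720938) (nat_lit 22) .nil)))))))) (.g (nat_lit 5) .nil .nil))) 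
(.lf (nat_lit 217445) (.g (nat_lit 3086) (.e (nat_lit 90172) (nat_lit 14) (.e (nat_lit 180243) (nat_lit 5) (.e (nat_lit 532503) (nat_lit 1) (.e (nat_lit 57688) (nat_lit 156) (.e (nat_lit 163874) (nat_lit 3) (.e (nat_lit 204836) (nat_lit 20) (.e (nat_lit 114716) (nat_lit 22) .nil))))))) (.g (nat_lit 4) .nil .nil))))) (.nd (nat_lit 5) (.nd (nat_lit 6) 
(.lf (nat_lit 217365) (.g (nat_lit 3163) (.e (nat_lit 90172) (nat_lit 14) (.e (nat_lit 180243) (nat_lit 5) (.e (nat_lit 532499) (nat_lit 1) (.e (nat_lit 57692) (nat_lit 156) (.e (nat_lit 163871) (nat_lit 2) (.e (nat_lit 196677) (nat_lit 16) (.e (nat_lit 122969) (nat_lit 48) (.e (nat_lit 720937) (nat_lit 22) .nil)))))))) (.g (nat_lit 4) .nil .nil))) 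
(.lf (nat_lit 217429) (.g (nat_lit 1384) (.e (nat_lit 90172) (nat_lit 14) (.e (nat_lit 180243) (nat_lit 5) (.e (nat_lit 532503) (nat_lit 1) (.e (nat_lit 57685) (nat_lit 156) .nil)))) .nil))) (.nd (nat_lit 6) 
(.lf (nat_lit 217397) (.g (nat_lit 2503) (.e (nat_lit 90172) (nat_lit 14) (.e (nat_lit 180243) (nat_lit 5) (.e (nat_lit 532501) (nat_lit 1) (.e (nat_lit 57692) (nat_lit 156) (.e (nat_lit 163869) (nat_lit 2) (.e (nat_lit 196658) (nat_lit 12) (.e (nat_lit 57550) (nat_lit 48) (.e (nat_lit 720938) (nat_lit 22) .nil)))))))) (.g (nat_lit 4) .nil .nil))) 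
(.lf (nat_lit 217461) (.g (nat_lit 3127) (.e (nat_lit 90172) (nat_lit 14) (.e (nat_lit 180243) (nat_lit 5) (.e (nat_lit 532504) (nat_lit 1) (.e (nat_lit 57690) (nat_lit 156) (.e (nat_lit 163871) (nat_lit 2) (.e (nat_lit 196677) (nat_lit 16) (.e (nat_lit 122969) (nat_lit 48) (.e (nat_lit 720938) (nat_lit 22) .nil)))))))) (.g (nat_lit 5) .nil .nil)))))) 
(.nd (nat_lit 4) (.nd (nat_lit 5) (.nd (nat_lit 6) 
(.lf (nat_lit 217357) (.g (nat_lit 2957) (.e (nat_lit 90172) (nat_lit 14) (.e (nat_lit 180243) (nat_lit 5) (.e (nat_lit 532499) (nat_lit 1) (.e (nat_lit 57692) (nat_lit 156) (.e (nat_lit 163869) (nat_lit 2) (.e (nat_lit 196661) (nat_lit 12) (.e (nat_lit 57549) (nat_lit 48) (.e (nat_lit 720941) (nat_lit 22) .nil)))))))) (.g (nat_lit 4) .nil .nil))) 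
(.lf (nat_lit 217421) (.g (nat_lit 2041) (.e (nat_lit 90172) (nat_lit 14) (.e (nat_lit 180243) (nat_lit 5) (.e (nat_lit 532502) (nat_lit 1) (.e (nat_lit 57692) (nat_lit 156) (.e (nat_lit 163869) (nat_lit 2) .nil))))) .nil))) (.nd (nat_lit 6) 
(.lf (nat_lit 217389) (.g (nat_lit 2159) (.e (nat_lit 90172) (nat_lit 14) (.e (nat_lit 180243) (nat_lit 5) (.e (nat_lit 532501) (nat_lit 1) (.e (nat_lit 57691) (nat_lit 156) (.e (nat_lit 163874) (nat_lit 3) .nil))))) .nil)) 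
(.lf (nat_lit 217453) (.g (nat_lit 1996) (.e (nat_lit 90172) (nat_lit 14) (.e (nat_lit 180243) (nat_lit 5) (.e (nat_lit 532503) (nat_lit 1) (.e (nat_lit 57693) (nat_lit 157) (.e (nat_lit 229389) (nat_lit 3) .nil))))) .nil)))) (.nd (nat_lit 5) (.nd (nat_lit 6) 
(.lf (nat_lit 217373) (.g (nat_lit 429) (.e (nat_lit 90172) (nat_lit 14) (.e (nat_lit 180243) (nat_lit 5) (.e (nat_lit 532501) (nat_lit 1) .nil))) .nil)) 
(.lf (nat_lit 217437) (.g (nat_lit 2585) (.e (nat_lit 90172) (nat_lit 14) (.e (nat_lit 180243) (nat_lit 5) (.e (nat_lit 532503) (nat_lit 1) (.e (nat_lit 57688) (nat_lit 156) (.e (nat_lit 163868) (nat_lit 2) .nil))))) .nil))) (.nd (nat_lit 6) 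
(.lf (nat_lit 217405) (.g (nat_lit 2611) (.e (nat_lit 90172) (nat_lit 14) (.e (nat_lit 180243) (nat_lit 5) (.e (nat_lit 532501) (nat_lit 1) (.e (nat_lit 57692) (nat_lit 156) (.e (nat_lit 163869) (nat_lit 2) (.e (nat_lit 196660) (nat_lit 12) (.e (nat_lit 57550) (nat_lit 48) (.e (nat_lit 720941) (nat_lit 22) .nil)))))))) (.g (nat_lit 4) .nil .nil))) 
(.lf (nat_lit 217469) (.g (nat_lit 2674) (.e (nat_lit 90172) (nat_lit 14) (.e (nat_lit 180243) (nat_lit 5) (.e (nat_lit 532504) (nat_lit 1) (.e (nat_lit 57691) (nat_lit 156) (.e (nat_lit 163871) (nat_lit 2) (.e (nat_lit 196677) (nat_lit 16) (.e (nat_lit 122970) (nat_lit 48) (.e (nat_lit 720937) (nat_lit 22) .nil)))))))) (.g (nat_lit 4) .nil .nil)))))))) 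
(.nd (nat_lit 2) (.nd (nat_lit 3) (.nd (nat_lit 4) (.nd (nat_lit 5) (.nd (nat_lit 6) 
(.lf (nat_lit 217347) (.g (nat_lit 2395) (.e (nat_lit 90172) (nat_lit 14) (.e (nat_lit 180243) (nat_lit 5) (.e (nat_lit 532499) (nat_lit 1) (.e (nat_lit 57691) (nat_lit 156) (.e (nat_lit 163874) (nat_lit 3) .nil))))) .nil)) 
(.lf (nat_lit 217411) (.g (nat_lit 2708) (.e (nat_lit 90172) (nat_lit 14) (.e (nat_lit 180243) (nat_lit 5) (.e (nat_lit 532501) (nat_lit 1) (.e (nat_lit 57692) (nat_lit 156) (.e (nat_lit 163869) (nat_lit 2) (.e (nat_lit 196677) (nat_lit 16) (.e (nat_lit 130816) (nat_lit 48) (.e (nat_lit 720938) (nat_lit 22) .nil)))))))) (.g (nat_lit 4) .nil .nil)))) (.nd (nat_lit 6) 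
(.lf (nat_lit 217379) (.g (nat_lit 1430) (.e (nat_lit 90172) (nat_lit 14) (.e (nat_lit 180243) (nat_lit 5) (.e (nat_lit 532501) (nat_lit 1) (.e (nat_lit 57690) (nat_lit 156) .nil)))) .nil)) 
(.lf (nat_lit 217443) (.g (nat_lit 2595) (.e (nat_lit 90172) (nat_lit 14) (.e (nat_lit 180243) (nat_lit 5) (.e (nat_lit 532503) (nat_lit 1) (.e (nat_lit 57688) (nat_lit 156) (.e (nat_lit 163874) (nat_lit 3) .nil))))) .nil)))) (.nd (nat_lit 5) (.nd (nat_lit 6) 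
(.lf (nat_lit 217363) (.g (nat_lit 2664) (.e (nat_lit 90172) (nat_lit 14) (.e (nat_lit 180243) (nat_lit 5) (.e (nat_lit 532499) (nat_lit 1) (.e (nat_lit 57692) (nat_lit 156) (.e (nat_lit 163870) (nat_lit 2) .nil))))) .nil)) 
(.lf (nat_lit 217427) (.g (nat_lit 2589) (.e (nat_lit 90172) (nat_lit 14) (.e (nat_lit 180243) (nat_lit 5) (.e (nat_lit 532503) (nat_lit 1) (.e (nat_lit 57681) (nat_lit 155) (.e (nat_lit 122893) (nat_lit 3) .nil))))) .nil))) (.nd (nat_lit 6) 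
(.lf (nat_lit 217395) (.g (nat_lit 2612) (.e (nat_lit 90172) (nat_lit 14) (.e (nat_lit 180243) (nat_lit 5) (.e (nat_lit 532501) (nat_lit 1) (.e (nat_lit 57692) (nat_lit 156) (.e (nat_lit 163869) (nat_lit 2) (.e (nat_lit 196628) (nat_lit 9) (.e (nat_lit 968) (nat_lit 81) (.e (nat_lit 2203) (nat_lit 144) (.e (nat_lit 720941) (nat_lit 22) .nil))))))))) (.g (nat_lit 4) .nil .nil))) 
(.lf (nat_lit 217459) (.g (nat_lit 1505) (.e (nat_lit 90172) (nat_lit 14) (.e (nat_lit 180243) (nat_lit 5) (.e (nat_lit 532504) (nat_lit 1) (.e (nat_lit 57690) (nat_lit 156) .nil)))) .nil))))) (.nd (nat_lit 4) (.nd (nat_lit 5) (.nd (nat_lit 6) 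
(.lf (nat_lit 217355) (.g (nat_lit 2788) (.e (nat_lit 90172) (nat_lit 14) (.e (nat_lit 180243) (nat_lit 5) (.e (nat_lit 532499) (nat_lit 1) (.e (nat_lit 57692) (nat_lit 156) (.e (nat_lit 163869) (nat_lit 2) (.e (nat_lit 196660) (nat_lit 12) (.e (nat_lit 57550) (nat_lit 48) (.e (nat_lit 720941) (nat_lit 22) .nil)))))))) (.g (nat_lit 4) .nil .nil))) 
(.lf (nat_lit 217419) (.g (nat_lit 2018) (.e (nat_lit 90172) (nat_lit 14) (.e (nat_lit 180243) (nat_lit 5) (.e (nat_lit 532502) (nat_lit 1) (.e (nat_lit 57688) (nat_lit 156) (.e (nat_lit 163873) (nat_lit 3) .nil))))) .nil))) (.nd (nat_lit 6) 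
(.lf (nat_lit 217387) (.g (nat_lit 2391) (.e (nat_lit 90172) (nat_lit 14) (.e (nat_lit 180243) (nat_lit 5) (.e (nat_lit 532501) (nat_lit 1) (.e (nat_lit 57691) (nat_lit 156) (.e (nat_lit 163871) (nat_lit 2) (.e (nat_lit 196677) (nat_lit 16) (.e (nat_lit 122969) (nat_lit 48) (.e (nat_lit 720941) (nat_lit 22) .nil)))))))) (.g (nat_lit 4) .nil .nil))) 
(.lf (nat_lit 217451) (.g (nat_lit 2395) (.e (nat_lit 90172) (nat_lit 14) (.e (nat_lit 180243) (nat_lit 5) (.e (nat_lit 532503) (nat_lit 1) (.e (nat_lit 57692) (nat_lit 156) (.e (nat_lit 163874) (nat_lit 3) .nil))))) .nil)))) (.nd (nat_lit 5) (.nd (nat_lit 6) 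
(.lf (nat_lit 217371) (.g (nat_lit 2643) (.e (nat_lit 90172) (nat_lit 14) (.e (nat_lit 180243) (nat_lit 5) (.e (nat_lit 532499) (nat_lit 1) (.e (nat_lit 57692) (nat_lit 156) (.e (nat_lit 163874) (nat_lit 3) (.e (nat_lit 204820) (nat_lit 17) (.e (nat_lit 2203) (nat_lit 144) (.e (nat_lit 720941) (nat_lit 22) .nil)))))))) (.g (nat_lit 4) .nil .nil))) 
(.lf (nat_lit 217435) (.g (nat_lit 2689) (.e (nat_lit 90172) (nat_lit 14) (.e (nat_lit 180243) (nat_lit 5) (.e (nat_lit 532503) (nat_lit 1) (.e (nat_lit 57688) (nat_lit 156) (.e (nat_lit 163867) (nat_lit 2) (.e (nat_lit 196660) (nat_lit 12) (.e (nat_lit 57550) (nat_lit 48) (.e (nat_lit 720941) (nat_lit 22) .nil)))))))) (.g (nat_lit 4) .nil .nil)))) (.nd (nat_lit 6) 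
(.lf (nat_lit 217403) (.g (nat_lit 2498) (.e (nat_lit 90172) (nat_lit 14) (.e (nat_lit 180243) (nat_lit 5) (.e (nat_lit 532501) (nat_lit 1) (.e (nat_lit 57692) (nat_lit 156) (.e (nat_lit 163869) (nat_lit 2) (.e (nat_lit 196660) (nat_lit 12) (.e (nat_lit 57550) (nat_lit 48) (.e (nat_lit 720937) (nat_lit 22) .nil)))))))) (.g (nat_lit 4) .nil .nil))) 
(.lf (nat_lit 217467) (.g (nat_lit 2551) (.e (nat_lit 90172) (nat_lit 14) (.e (nat_lit 180243) (nat_lit 5) (.e (nat_lit 532504) (nat_lit 1) (.e (nat_lit 57691) (nat_lit 156) (.e (nat_lit 163871) (nat_lit 2) .nil))))) .nil)))))) (.nd (nat_lit 3) (.nd (nat_lit 4) (.nd (nat_lit 5) (.nd (nat_lit 6) 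
(.lf (nat_lit 217351) (.g (nat_lit 2534) (.e (nat_lit 90172) (nat_lit 14) (.e (nat_lit 180243) (nat_lit 5) (.e (nat_lit 532499) (nat_lit 1) (.e (nat_lit 57692) (nat_lit 156) (.e (nat_lit 163869) (nat_lit 2) .nil))))) .nil)) 
(.lf (nat_lit 217415) (.g (nat_lit 2745) (.e (nat_lit 90172) (nat_lit 14) (.e (nat_lit 180243) (nat_lit 5) (.e (nat_lit 532501) (nat_lit 1) (.e (nat_lit 57692) (nat_lit 156) (.e (nat_lit 163871) (nat_lit 2) (.e (nat_lit 196677) (nat_lit 16) (.e (nat_lit 130816) (nat_lit 48) (.e (nat_lit 720938) (nat_lit 22) .nil)))))))) (.g (nat_lit 4) .nil .nil)))) (.nd (nat_lit 6) 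
(.lf (nat_lit 217383) (.g (nat_lit 1275) (.e (nat_lit 90172) (nat_lit 14) (.e (nat_lit 180243) (nat_lit 5) (.e (nat_lit 532501) (nat_lit 1) (.e (nat_lit 57691) (nat_lit 156) .nil)))) .nil)) 
(.lf (nat_lit 217447) (.g (nat_lit 1637) (.e (nat_lit 90172) (nat_lit 14) (.e (nat_lit 180243) (nat_lit 5) (.e (nat_lit 532503) (nat_lit 1) (.e (nat_lit 57691) (nat_lit 156) .nil)))) .nil)))) (.nd (nat_lit 5) (.nd (nat_lit 6) 
(.lf (nat_lit 217367) (.g (nat_lit 2999) (.e (nat_lit 90172) (nat_lit 14) (.e (nat_lit 180243) (nat_lit 5) (.e (nat_lit 532499) (nat_lit 1) (.e (nat_lit 57692) (nat_lit 156) (.e (nat_lit 163871) (nat_lit 2) (.e (nat_lit 196677) (nat_lit 16) (.e (nat_lit 122970) (nat_lit 48) (.e (nat_lit 720941) (nat_lit 22) .nil)))))))) (.g (nat_lit 4) .nil .nil))) 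
(.lf (nat_lit 217431) (.g (nat_lit 1391) (.e (nat_lit 90172) (nat_lit 14) (.e (nat_lit 180243) (nat_lit 5) (.e (nat_lit 532503) (nat_lit 1) (.e (nat_lit 57687) (nat_lit 156) .nil)))) .nil))) (.nd (nat_lit 6) 
(.lf (nat_lit 217399) (.g (nat_lit 2484) (.e (nat_lit 90172) (nat_lit 14) (.e (nat_lit 180243) (nat_lit 5) (.e (nat_lit 532501) (nat_lit 1) (.e (nat_lit 57692) (nat_lit 156) (.e (nat_lit 163869) (nat_lit 2) (.e (nat_lit 196658) (nat_lit 12) (.e (nat_lit 57551) (nat_lit 48) (.e (nat_lit 720938) (nat_lit 22) .nil)))))))) (.g (nat_lit 4) .nil .nil))) 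
(.lf (nat_lit 217463) (.g (nat_lit 1609) (.e (nat_lit 90172) (nat_lit 14) (.e (nat_lit 180243) (nat_lit 5) (.e (nat_lit 532504) (nat_lit 1) (.e (nat_lit 57691) (nat_lit 156) .nil)))) .nil))))) (.nd (nat_lit 4) (.nd (nat_lit 5) (.nd (nat_lit 6) 
(.lf (nat_lit 217359) (.g (nat_lit 2954) (.e (nat_lit 90172) (nat_lit 14) (.e (nat_lit 180243) (nat_lit 5) (.e (nat_lit 532499) (nat_lit 1) (.e (nat_lit 57692) (nat_lit 156) (.e (nat_lit 163869) (nat_lit 2) (.e (nat_lit 196677) (nat_lit 16) (.e (nat_lit 122969) (nat_lit 48) (.e (nat_lit 720938) (nat_lit 22) .nil)))))))) (.g (nat_lit 4) .nil .nil))) 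
(.lf (nat_lit 217423) (.g (nat_lit 518) (.e (nat_lit 90172) (nat_lit 14) (.e (nat_lit 180243) (nat_lit 5) (.e (nat_lit 532503) (nat_lit 1) .nil))) .nil))) (.nd (nat_lit 6) 
(.lf (nat_lit 217391) (.g (nat_lit 3223) (.e (nat_lit 90172) (nat_lit 14) (.e (nat_lit 180243) (nat_lit 5) (.e (nat_lit 532501) (nat_lit 1) (.e (nat_lit 57691) (nat_lit 156) (.e (nat_lit 163875) (nat_lit 3) (.e (nat_lit 204837) (nat_lit 20) (.e (nat_lit 114716) (nat_lit 22) .nil))))))) (.g (nat_lit 5) .nil .nil))) 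
(.lf (nat_lit 217455) (.g (nat_lit 2032) (.e (nat_lit 90172) (nat_lit 14) (.e (nat_lit 180243) (nat_lit 5) (.e (nat_lit 532504) (nat_lit 1) (.e (nat_lit 57665) (nat_lit 152) .nil)))) .nil)))) (.nd (nat_lit 5) (.nd (nat_lit 6) 
(.lf (nat_lit 217375) (.g (nat_lit 1738) (.e (nat_lit 90172) (nat_lit 14) (.e (nat_lit 180243) (nat_lit 5) (.e (nat_lit 532501) (nat_lit 1) (.e (nat_lit 57664) (nat_lit 152) .nil)))) .nil)) 
(.lf (nat_lit 217439) (.g (nat_lit 2596) (.e (nat_lit 90172) (nat_lit 14) (.e (nat_lit 180243) (nat_lit 5) (.e (nat_lit 532503) (nat_lit 1) (.e (nat_lit 57688) (nat_lit 156) (.e (nat_lit 163871) (nat_lit 2) .nil))))) .nil))) (.nd (nat_lit 6) 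
(.lf (nat_lit 217407) (.g (nat_lit 2754) (.e (nat_lit 90172) (nat_lit 14) (.e (nat_lit 180243) (nat_lit 5) (.e (nat_lit 532501) (nat_lit 1) (.e (nat_lit 57692) (nat_lit 156) (.e (nat_lit 163869) (nat_lit 2) (.e (nat_lit 196661) (nat_lit 12) (.e (nat_lit 57549) (nat_lit 48) (.e (nat_lit 720941) (nat_lit 22) .nil)))))))) (.g (nat_lit 4) .nil .nil))) 
(.lf (nat_lit 217471) (.g (nat_lit 2475) (.e (nat_lit 90172) (nat_lit 14) (.e (nat_lit 180243) (nat_lit 5) (.e (nat_lit 532504) (nat_lit 1) (.e (nat_lit 57691) (nat_lit 156) (.e (nat_lit 163874) (nat_lit 3) .nil))))) .nil)))))))))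

noncomputable def tv2857 : DT := (.nd (nat_lit 0) (.nd (nat_lit 1) (.nd (nat_lit 2) (.nd (nat_lit 3) (.nd (nat_lit 4) (.nd (nat_lit 5) 
(.lf (nat_lit 217472) (.g (nat_lit 2783) (.e (nat_lit 90172) (nat_lit 14) (.e (nat_lit 180243) (nat_lit 5) (.e (nat_lit 532504) (nat_lit 1) (.e (nat_lit 57691) (nat_lit 156) (.e (nat_lit 163874) (nat_lit 3) (.e (nat_lit 204815) (nat_lit 17) (.e (nat_lit 2203) (nat_lit 144) (.e (nat_lit 720941) (nat_lit 22) .nil)))))))) (.g (nat_lit 4) .nil .nil))) 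
(.lf (nat_lit 217504) (.g (nat_lit 3603) (.e (nat_lit 90172) (nat_lit 14) (.e (nat_lit 180243) (nat_lit 5) (.e (nat_lit 532504) (nat_lit 1) (.e (nat_lit 57692) (nat_lit 156) (.e (nat_lit 163871) (nat_lit 2) (.e (nat_lit 196677) (nat_lit 16) (.e (nat_lit 122970) (nat_lit 48) (.e (nat_lit 720941) (nat_lit 22) .nil)))))))) (.g (nat_lit 5) .nil .nil)))) (.nd (nat_lit 5) 
(.lf (nat_lit 217488) (.g (nat_lit 3373) (.e (nat_lit 90172) (nat_lit 14) (.e (nat_lit 180243) (nat_lit 5) (.e (nat_lit 532504) (nat_lit 1) (.e (nat_lit 57692) (nat_lit 156) (.e (nat_lit 163869) (nat_lit 2) (.e (nat_lit 196660) (nat_lit 12) (.e (nat_lit 57550) (nat_lit 48) (.e (nat_lit 720941) (nat_lit 22) .nil)))))))) (.g (nat_lit 5) .nil .nil))) 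
(.lf (nat_lit 217520) (.g (nat_lit 2551) (.e (nat_lit 90172) (nat_lit 14) (.e (nat_lit 180243) (nat_lit 5) (.e (nat_lit 532513) (nat_lit 3) (.e (nat_lit 114714) (nat_lit 22) (.e (nat_lit 90162) (nat_lit 12) (.e (nat_lit 164007) (nat_lit 41) (.e (nat_lit 663559) (nat_lit 0) (.e (nat_lit 1238) (nat_lit 91) .nil)))))))) (.g (nat_lit 4) .nil .nil))))) (.nd (nat_lit 4) (.nd (nat_lit 5) 
(.lf (nat_lit 217480) (.g (nat_lit 2669) (.e (nat_lit 90172) (nat_lit 14) (.e (nat_lit 180243) (nat_lit 5) (.e (nat_lit 532504) (nat_lit 1) (.e (nat_lit 57692) (nat_lit 156) (.e (nat_lit 163869) (nat_lit 2) (.e (nat_lit 196658) (nat_lit 12) (.e (nat_lit 57549) (nat_lit 48) (.e (nat_lit 720941) (nat_lit 22) .nil)))))))) (.g (nat_lit 4) .nil .nil))) 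
(.lf (nat_lit 217512) (.g (nat_lit 2185) (.e (nat_lit 90172) (nat_lit 14) (.e (nat_lit 180243) (nat_lit 5) (.e (nat_lit 532504) (nat_lit 1) (.e (nat_lit 57692) (nat_lit 156) (.e (nat_lit 163875) (nat_lit 3) .nil))))) .nil))) (.nd (nat_lit 5) 
(.lf (nat_lit 217496) (.g (nat_lit 3468) (.e (nat_lit 90172) (nat_lit 14) (.e (nat_lit 180243) (nat_lit 5) (.e (nat_lit 532504) (nat_lit 1) (.e (nat_lit 57692) (nat_lit 156) (.e (nat_lit 163869) (nat_lit 2) (.e (nat_lit 196677) (nat_lit 16) (.e (nat_lit 130816) (nat_lit 48) (.e (nat_lit 720938) (nat_lit 22) .nil)))))))) (.g (nat_lit 5) .nil .nil))) 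
(.lf (nat_lit 217528) (.g (nat_lit 2376) (.e (nat_lit 90172) (nat_lit 14) (.e (nat_lit 180243) (nat_lit 5) (.e (nat_lit 532513) (nat_lit 3) (.e (nat_lit 114718) (nat_lit 23) (.e (nat_lit 98325) (nat_lit 17) .nil))))) .nil))))) (.nd (nat_lit 3) (.nd (nat_lit 4) (.nd (nat_lit 5) 
(.lf (nat_lit 217476) (.g (nat_lit 1482) (.e (nat_lit 90172) (nat_lit 14) (.e (nat_lit 180243) (nat_lit 5) (.e (nat_lit 532504) (nat_lit 1) (.e (nat_lit 57692) (nat_lit 156) .nil)))) .nil)) 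
(.lf (nat_lit 217508) (.g (nat_lit 3145) (.e (nat_lit 90172) (nat_lit 14) (.e (nat_lit 180243) (nat_lit 5) (.e (nat_lit 532504) (nat_lit 1) (.e (nat_lit 57692) (nat_lit 156) (.e (nat_lit 163874) (nat_lit 3) (.e (nat_lit 204815) (nat_lit 17) (.e (nat_lit 2198) (nat_lit 144) (.e (nat_lit 720941) (nat_lit 22) .nil)))))))) (.g (nat_lit 5) .nil .nil)))) (.nd (nat_lit 5) 
(.lf (nat_lit 217492) (.g (nat_lit 3538) (.e (nat_lit 90172) (nat_lit 14) (.e (nat_lit 180243) (nat_lit 5) (.e (nat_lit 532504) (nat_lit 1) (.e (nat_lit 57692) (nat_lit 156) (.e (nat_lit 163869) (nat_lit 2) (.e (nat_lit 196677) (nat_lit 16) (.e (nat_lit 122969) (nat_lit 48) (.e (nat_lit 720938) (nat_lit 22) .nil)))))))) (.g (nat_lit 5) .nil .nil))) 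
(.lf (nat_lit 217524) (.g (nat_lit 2084) (.e (nat_lit 90172) (nat_lit 14) (.e (nat_lit 180243) (nat_lit 5) (.e (nat_lit 532513) (nat_lit 3) (.e (nat_lit 114714) (nat_lit 22) (.e (nat_lit 90181) (nat_lit 16) .nil))))) .nil)))) (.nd (nat_lit 4) (.nd (nat_lit 5) 
(.lf (nat_lit 217484) (.g (nat_lit 3434) (.e (nat_lit 90172) (nat_lit 14) (.e (nat_lit 180243) (nat_lit 5) (.e (nat_lit 532504) (nat_lit 1) (.e (nat_lit 57692) (nat_lit 156) (.e (nat_lit 163869) (nat_lit 2) (.e (nat_lit 196659) (nat_lit 12) (.e (nat_lit 57550) (nat_lit 48) (.e (nat_lit 720941) (nat_lit 22) .nil)))))))) (.g (nat_lit 5) .nil .nil))) 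
(.lf (nat_lit 217516) (.g (nat_lit 875) (.e (nat_lit 90172) (nat_lit 14) (.e (nat_lit 180243) (nat_lit 5) (.e (nat_lit 532508) (nat_lit 2) (.e (nat_lit 106517) (nat_lit 9) .nil)))) .nil))) (.nd (nat_lit 5) 
(.lf (nat_lit 217500) (.g (nat_lit 2548) (.e (nat_lit 90172) (nat_lit 14) (.e (nat_lit 180243) (nat_lit 5) (.e (nat_lit 532504) (nat_lit 1) (.e (nat_lit 57692) (nat_lit 156) (.e (nat_lit 163871) (nat_lit 2) (.e (nat_lit 196658) (nat_lit 12) (.e (nat_lit 57551) (nat_lit 48) (.e (nat_lit 720941) (nat_lit 22) .nil)))))))) (.g (nat_lit 4) .nil .nil))) 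
(.lf (nat_lit 217532) (.g (nat_lit 3836) (.e (nat_lit 90172) (nat_lit 14) (.e (nat_lit 180243) (nat_lit 5) (.e (nat_lit 532513) (nat_lit 3) (.e (nat_lit 114718) (nat_lit 23) (.e (nat_lit 98334) (nat_lit 18) (.e (nat_lit 164397) (nat_lit 256) (.e (nat_lit 57375) (nat_lit 2) .nil))))))) (.g (nat_lit 5) .nil .nil))))))) (.nd (nat_lit 2) (.nd (nat_lit 3) (.nd (nat_lit 4) (.nd (nat_lit 5) 
(.lf (nat_lit 217474) (.g (nat_lit 2484) (.e (nat_lit 90172) (nat_lit 14) (.e (nat_lit 180243) (nat_lit 5) (.e (nat_lit 532504) (nat_lit 1) (.e (nat_lit 57691) (nat_lit 156) (.e (nat_lit 163875) (nat_lit 3) .nil))))) .nil)) 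
(.lf (nat_lit 217506) (.g (nat_lit 3557) (.e (nat_lit 90172) (nat_lit 14) (.e (nat_lit 180243) (nat_lit 5) (.e (nat_lit 532504) (nat_lit 1) (.e (nat_lit 57692) (nat_lit 156) (.e (nat_lit 163871) (nat_lit 2) (.e (nat_lit 196677) (nat_lit 16) (.e (nat_lit 130816) (nat_lit 48) (.e (nat_lit 720938) (nat_lit 22) .nil)))))))) (.g (nat_lit 5) .nil .nil)))) (.nd (nat_lit 5) 
(.lf (nat_lit 217490) (.g (nat_lit 3516) (.e (nat_lit 90172) (nat_lit 14) (.e (nat_lit 180243) (nat_lit 5) (.e (nat_lit 532504) (nat_lit 1) (.e (nat_lit 57692) (nat_lit 156) (.e (nat_lit 163869) (nat_lit 2) (.e (nat_lit 196661) (nat_lit 12) (.e (nat_lit 57549) (nat_lit 48) (.e (nat_lit 720941) (nat_lit 22) .nil)))))))) (.g (nat_lit 5) .nil .nil))) 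
(.lf (nat_lit 217522) (.g (nat_lit 2138) (.e (nat_lit 90172) (nat_lit 14) (.e (nat_lit 180243) (nat_lit 5) (.e (nat_lit 532513) (nat_lit 3) (.e (nat_lit 114714) (nat_lit 22) (.e (nat_lit 90164) (nat_lit 12) .nil))))) .nil)))) (.nd (nat_lit 4) (.nd (nat_lit 5) 
(.lf (nat_lit 217482) (.g (nat_lit 3339) (.e (nat_lit 90172) (nat_lit 14) (.e (nat_lit 180243) (nat_lit 5) (.e (nat_lit 532504) (nat_lit 1) (.e (nat_lit 57692) (nat_lit 156) (.e (nat_lit 163869) (nat_lit 2) (.e (nat_lit 196658) (nat_lit 12) (.e (nat_lit 57550) (nat_lit 48) (.e (nat_lit 720941) (nat_lit 22) .nil)))))))) (.g (nat_lit 5) .nil .nil))) 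
(.lf (nat_lit 217514) (.g (nat_lit 3829) (.e (nat_lit 90172) (nat_lit 14) (.e (nat_lit 180243) (nat_lit 5) (.e (nat_lit 532504) (nat_lit 1) (.e (nat_lit 57692) (nat_lit 156) (.e (nat_lit 163875) (nat_lit 3) (.e (nat_lit 204817) (nat_lit 17) (.e (nat_lit 2198) (nat_lit 144) (.e (nat_lit 720941) (nat_lit 22) .nil)))))))) (.g (nat_lit 5) .nil .nil)))) (.nd (nat_lit 5) 
(.lf (nat_lit 217498) (.g (nat_lit 2762) (.e (nat_lit 90172) (nat_lit 14) (.e (nat_lit 180243) (nat_lit 5) (.e (nat_lit 532504) (nat_lit 1) (.e (nat_lit 57692) (nat_lit 156) (.e (nat_lit 163870) (nat_lit 2) (.e (nat_lit 196661) (nat_lit 12) (.e (nat_lit 57549) (nat_lit 48) (.e (nat_lit 720938) (nat_lit 22) .nil)))))))) (.g (nat_lit 4) .nil .nil))) 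
(.lf (nat_lit 217530) (.g (nat_lit 3154) (.e (nat_lit 90172) (nat_lit 14) (.e (nat_lit 180243) (nat_lit 5) (.e (nat_lit 532513) (nat_lit 3) (.e (nat_lit 114718) (nat_lit 23) (.e (nat_lit 98333) (nat_lit 18) (.e (nat_lit 164399) (nat_lit 256) (.e (nat_lit 57370) (nat_lit 2) .nil))))))) (.g (nat_lit 4) .nil .nil)))))) (.nd (nat_lit 3) (.nd (nat_lit 4) (.nd (nat_lit 5) 
(.lf (nat_lit 217478) (.g (nat_lit 3374) (.e (nat_lit 90172) (nat_lit 14) (.e (nat_lit 180243) (nat_lit 5) (.e (nat_lit 532504) (nat_lit 1) (.e (nat_lit 57692) (nat_lit 156) (.e (nat_lit 163869) (nat_lit 2) (.e (nat_lit 196628) (nat_lit 9) (.e (nat_lit 968) (nat_lit 81) (.e (nat_lit 2203) (nat_lit 144) (.e (nat_lit 720941) (nat_lit 22) .nil))))))))) (.g (nat_lit 5) .nil .nil))) 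
(.lf (nat_lit 217510) (.g (nat_lit 3533) (.e (nat_lit 90172) (nat_lit 14) (.e (nat_lit 180243) (nat_lit 5) (.e (nat_lit 532504) (nat_lit 1) (.e (nat_lit 57692) (nat_lit 156) (.e (nat_lit 163874) (nat_lit 3) (.e (nat_lit 204818) (nat_lit 17) (.e (nat_lit 2203) (nat_lit 144) (.e (nat_lit 720941) (nat_lit 22) .nil)))))))) (.g (nat_lit 5) .nil .nil)))) (.nd (nat_lit 5) 
(.lf (nat_lit 217494) (.g (nat_lit 3503) (.e (nat_lit 90172) (nat_lit 14) (.e (nat_lit 180243) (nat_lit 5) (.e (nat_lit 532504) (nat_lit 1) (.e (nat_lit 57692) (nat_lit 156) (.e (nat_lit 163869) (nat_lit 2) (.e (nat_lit 196677) (nat_lit 16) (.e (nat_lit 122970) (nat_lit 48) (.e (nat_lit 720941) (nat_lit 22) .nil)))))))) (.g (nat_lit 5) .nil .nil))) 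
(.lf (nat_lit 217526) (.g (nat_lit 1473) (.e (nat_lit 90172) (nat_lit 14) (.e (nat_lit 180243) (nat_lit 5) (.e (nat_lit 532513) (nat_lit 3) (.e (nat_lit 114715) (nat_lit 22) .nil)))) .nil)))) (.nd (nat_lit 4) (.nd (nat_lit 5) 
(.lf (nat_lit 217486) (.g (nat_lit 2626) (.e (nat_lit 90172) (nat_lit 14) (.e (nat_lit 180243) (nat_lit 5) (.e (nat_lit 532504) (nat_lit 1) (.e (nat_lit 57692) (nat_lit 156) (.e (nat_lit 163869) (nat_lit 2) (.e (nat_lit 196660) (nat_lit 12) (.e (nat_lit 57549) (nat_lit 48) (.e (nat_lit 720941) (nat_lit 22) .nil)))))))) (.g (nat_lit 4) .nil .nil))) 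
(.lf (nat_lit 217518) (.g (nat_lit 2237) (.e (nat_lit 90172) (nat_lit 14) (.e (nat_lit 180243) (nat_lit 5) (.e (nat_lit 532513) (nat_lit 3) (.e (nat_lit 114714) (nat_lit 22) (.e (nat_lit 90130) (nat_lit 9) .nil))))) .nil))) (.nd (nat_lit 5) 
(.lf (nat_lit 217502) (.g (nat_lit 3796) (.e (nat_lit 90172) (nat_lit 14) (.e (nat_lit 180243) (nat_lit 5) (.e (nat_lit 532504) (nat_lit 1) (.e (nat_lit 57692) (nat_lit 156) (.e (nat_lit 163871) (nat_lit 2) (.e (nat_lit 196677) (nat_lit 16) (.e (nat_lit 122969) (nat_lit 48) (.e (nat_lit 720938) (nat_lit 22) .nil)))))))) (.g (nat_lit 5) .nil .nil))) 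
(.lf (nat_lit 217534) (.g (nat_lit 2869) (.e (nat_lit 90172) (nat_lit 14) (.e (nat_lit 180243) (nat_lit 5) (.e (nat_lit 532513) (nat_lit 3) (.e (nat_lit 114718) (nat_lit 23) (.e (nat_lit 98335) (nat_lit 18) (.e (nat_lit 164403) (nat_lit 256) (.e (nat_lit 57370) (nat_lit 2) .nil))))))) (.g (nat_lit 4) .nil .nil)))))))) 
(.nd (nat_lit 1) (.nd (nat_lit 2) (.nd (nat_lit 3) (.nd (nat_lit 4) (.nd (nat_lit 5) 
(.lf (nat_lit 217473) (.g (nat_lit 3789) (.e (nat_lit 90172) (nat_lit 14) (.e (nat_lit 180243) (nat_lit 5) (.e (nat_lit 532504) (nat_lit 1) (.e (nat_lit 57691) (nat_lit 156) (.e (nat_lit 163874) (nat_lit 3) (.e (nat_lit 204838) (nat_lit 20) (.e (nat_lit 114716) (nat_lit 22) .nil))))))) (.g (nat_lit 5) .nil .nil))) 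
(.lf (nat_lit 217505) (.g (nat_lit 2579) (.e (nat_lit 90172) (nat_lit 14) (.e (nat_lit 180243) (nat_lit 5) (.e (nat_lit 532504) (nat_lit 1) (.e (nat_lit 57692) (nat_lit 156) (.e (nat_lit 163871) (nat_lit 2) (.e (nat_lit 196677) (nat_lit 16) (.e (nat_lit 130816) (nat_lit 48) (.e (nat_lit 720937) (nat_lit 22) .nil)))))))) (.g (nat_lit 4) .nil .nil)))) (.nd (nat_lit 5) 
(.lf (nat_lit 217489) (.g (nat_lit 3462) (.e (nat_lit 90172) (nat_lit 14) (.e (nat_lit 180243) (nat_lit 5) (.e (nat_lit 532504) (nat_lit 1) (.e (nat_lit 57692) (nat_lit 156) (.e (nat_lit 163869) (nat_lit 2) (.e (nat_lit 196661) (nat_lit 12) (.e (nat_lit 57549) (nat_lit 48) (.e (nat_lit 720937) (nat_lit 22) .nil)))))))) (.g (nat_lit 5) .nil .nil))) 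
(.lf (nat_lit 217521) (.g (nat_lit 2225) (.e (nat_lit 90172) (nat_lit 14) (.e (nat_lit 180243) (nat_lit 5) (.e (nat_lit 532513) (nat_lit 3) (.e (nat_lit 114714) (nat_lit 22) (.e (nat_lit 90163) (nat_lit 12) .nil))))) .nil)))) (.nd (nat_lit 4) (.nd (nat_lit 5) 
(.lf (nat_lit 217481) (.g (nat_lit 2410) (.e (nat_lit 90172) (nat_lit 14) (.e (nat_lit 180243) (nat_lit 5) (.e (nat_lit 532504) (nat_lit 1) (.e (nat_lit 57692) (nat_lit 156) (.e (nat_lit 163869) (nat_lit 2) (.e (nat_lit 196658) (nat_lit 12) (.e (nat_lit 57550) (nat_lit 48) (.e (nat_lit 720939) (nat_lit 22) .nil)))))))) (.g (nat_lit 4) .nil .nil))) 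
(.lf (nat_lit 217513) (.g (nat_lit 2343) (.e (nat_lit 90172) (nat_lit 14) (.e (nat_lit 180243) (nat_lit 5) (.e (nat_lit 532504) (nat_lit 1) (.e (nat_lit 57692) (nat_lit 156) (.e (nat_lit 163875) (nat_lit 3) (.e (nat_lit 204815) (nat_lit 17) (.e (nat_lit 2203) (nat_lit 144) (.e (nat_lit 720941) (nat_lit 22) .nil)))))))) (.g (nat_lit 4) .nil .nil)))) (.nd (nat_lit 5) 
(.lf (nat_lit 217497) (.g (nat_lit 2560) (.e (nat_lit 90172) (nat_lit 14) (.e (nat_lit 180243) (nat_lit 5) (.e (nat_lit 532504) (nat_lit 1) (.e (nat_lit 57692) (nat_lit 156) (.e (nat_lit 163869) (nat_lit 2) (.e (nat_lit 196678) (nat_lit 16) (.e (nat_lit 122971) (nat_lit 48) (.e (nat_lit 720937) (nat_lit 22) .nil)))))))) (.g (nat_lit 4) .nil .nil))) 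
(.lf (nat_lit 217529) (.g (nat_lit 2795) (.e (nat_lit 90172) (nat_lit 14) (.e (nat_lit 180243) (nat_lit 5) (.e (nat_lit 532513) (nat_lit 3) (.e (nat_lit 114718) (nat_lit 23) (.e (nat_lit 98325) (nat_lit 17) (.e (nat_lit 2515) (nat_lit 157) (.e (nat_lit 5934) (nat_lit 322) (.e (nat_lit 57372) (nat_lit 2) .nil)))))))) (.g (nat_lit 4) .nil .nil)))))) 
(.nd (nat_lit 3) (.nd (nat_lit 4) (.nd (nat_lit 5) 
(.lf (nat_lit 217477) (.g (nat_lit 2304) (.e (nat_lit 90172) (nat_lit 14) (.e (nat_lit 180243) (nat_lit 5) (.e (nat_lit 532504) (nat_lit 1) (.e (nat_lit 57692) (nat_lit 156) (.e (nat_lit 163869) (nat_lit 2) .nil))))) .nil)) 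
(.lf (nat_lit 217509) (.g (nat_lit 2541) (.e (nat_lit 90172) (nat_lit 14) (.e (nat_lit 180243) (nat_lit 5) (.e (nat_lit 532504) (nat_lit 1) (.e (nat_lit 57692) (nat_lit 156) (.e (nat_lit 163874) (nat_lit 3) (.e (nat_lit 204818) (nat_lit 17) (.e (nat_lit 2203) (nat_lit 144) (.e (nat_lit 720938) (nat_lit 22) .nil)))))))) (.g (nat_lit 4) .nil .nil)))) (.nd (nat_lit 5) 
(.lf (nat_lit 217493) (.g (nat_lit 3576) (.e (nat_lit 90172) (nat_lit 14) (.e (nat_lit 180243) (nat_lit 5) (.e (nat_lit 532504) (nat_lit 1) (.e (nat_lit 57692) (nat_lit 156) (.e (nat_lit 163869) (nat_lit 2) (.e (nat_lit 196677) (nat_lit 16) (.e (nat_lit 122969) (nat_lit 48) (.e (nat_lit 720941) (nat_lit 22) .nil)))))))) (.g (nat_lit 5) .nil .nil))) 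
(.lf (nat_lit 217525) (.g (nat_lit 2098) (.e (nat_lit 90172) (nat_lit 14) (.e (nat_lit 180243) (nat_lit 5) (.e (nat_lit 532513) (nat_lit 3) (.e (nat_lit 114714) (nat_lit 22) (.e (nat_lit 90196) (nat_lit 18) .nil))))) .nil)))) (.nd (nat_lit 4) (.nd (nat_lit 5) 
(.lf (nat_lit 217485) (.g (nat_lit 2561) (.e (nat_lit 90172) (nat_lit 14) (.e (nat_lit 180243) (nat_lit 5) (.e (nat_lit 532504) (nat_lit 1) (.e (nat_lit 57692) (nat_lit 156) (.e (nat_lit 163869) (nat_lit 2) (.e (nat_lit 196660) (nat_lit 12) (.e (nat_lit 57549) (nat_lit 48) (.e (nat_lit 720937) (nat_lit 22) .nil)))))))) (.g (nat_lit 4) .nil .nil))) 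
(.lf (nat_lit 217517) (.g (nat_lit 1311) (.e (nat_lit 90172) (nat_lit 14) (.e (nat_lit 180243) (nat_lit 5) (.e (nat_lit 532513) (nat_lit 3) (.e (nat_lit 114714) (nat_lit 22) .nil)))) .nil))) (.nd (nat_lit 5) 
(.lf (nat_lit 217501) (.g (nat_lit 3767) (.e (nat_lit 90172) (nat_lit 14) (.e (nat_lit 180243) (nat_lit 5) (.e (nat_lit 532504) (nat_lit 1) (.e (nat_lit 57692) (nat_lit 156) (.e (nat_lit 163871) (nat_lit 2) (.e (nat_lit 196677) (nat_lit 16) (.e (nat_lit 122969) (nat_lit 48) (.e (nat_lit 720937) (nat_lit 22) .nil)))))))) (.g (nat_lit 5) .nil .nil))) 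
(.lf (nat_lit 217533) (.g (nat_lit 2925) (.e (nat_lit 90172) (nat_lit 14) (.e (nat_lit 180243) (nat_lit 5) (.e (nat_lit 532513) (nat_lit 3) (.e (nat_lit 114718) (nat_lit 23) (.e (nat_lit 98334) (nat_lit 18) (.e (nat_lit 164399) (nat_lit 256) (.e (nat_lit 57370) (nat_lit 2) .nil))))))) (.g (nat_lit 4) .nil .nil))))))) (.nd (nat_lit 2) (.nd (nat_lit 3) (.nd (nat_lit 4) (.nd (nat_lit 5) 
(.lf (nat_lit 217475) (.g (nat_lit 4137) (.e (nat_lit 90172) (nat_lit 14) (.e (nat_lit 180243) (nat_lit 5) (.e (nat_lit 532504) (nat_lit 1) (.e (nat_lit 57691) (nat_lit 156) (.e (nat_lit 163875) (nat_lit 3) (.e (nat_lit 204815) (nat_lit 17) (.e (nat_lit 2203) (nat_lit 144) (.e (nat_lit 720941) (nat_lit 22) .nil)))))))) (.g (nat_lit 5) .nil .nil))) 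
(.lf (nat_lit 217507) (.g (nat_lit 2038) (.e (nat_lit 90172) (nat_lit 14) (.e (nat_lit 180243) (nat_lit 5) (.e (nat_lit 532504) (nat_lit 1) (.e (nat_lit 57692) (nat_lit 156) (.e (nat_lit 163874) (nat_lit 3) .nil))))) .nil))) (.nd (nat_lit 5) 
(.lf (nat_lit 217491) (.g (nat_lit 3509) (.e (nat_lit 90172) (nat_lit 14) (.e (nat_lit 180243) (nat_lit 5) (.e (nat_lit 532504) (nat_lit 1) (.e (nat_lit 57692) (nat_lit 156) (.e (nat_lit 163869) (nat_lit 2) (.e (nat_lit 196677) (nat_lit 16) (.e (nat_lit 122969) (nat_lit 48) (.e (nat_lit 720937) (nat_lit 22) .nil)))))))) (.g (nat_lit 5) .nil .nil))) 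
(.lf (nat_lit 217523) (.g (nat_lit 2074) (.e (nat_lit 90172) (nat_lit 14) (.e (nat_lit 180243) (nat_lit 5) (.e (nat_lit 532513) (nat_lit 3) (.e (nat_lit 114714) (nat_lit 22) (.e (nat_lit 90165) (nat_lit 12) .nil))))) .nil)))) (.nd (nat_lit 4) (.nd (nat_lit 5) 
(.lf (nat_lit 217483) (.g (nat_lit 2520) (.e (nat_lit 90172) (nat_lit 14) (.e (nat_lit 180243) (nat_lit 5) (.e (nat_lit 532504) (nat_lit 1) (.e (nat_lit 57692) (nat_lit 156) (.e (nat_lit 163869) (nat_lit 2) (.e (nat_lit 196659) (nat_lit 12) (.e (nat_lit 57550) (nat_lit 48) (.e (nat_lit 720939) (nat_lit 22) .nil)))))))) (.g (nat_lit 4) .nil .nil))) 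
(.lf (nat_lit 217515) (.g (nat_lit 2511) (.e (nat_lit 90172) (nat_lit 14) (.e (nat_lit 180243) (nat_lit 5) (.e (nat_lit 532504) (nat_lit 1) (.e (nat_lit 57692) (nat_lit 156) (.e (nat_lit 163875) (nat_lit 3) (.e (nat_lit 204817) (nat_lit 17) (.e (nat_lit 2203) (nat_lit 144) (.e (nat_lit 720941) (nat_lit 22) .nil)))))))) (.g (nat_lit 4) .nil .nil)))) (.nd (nat_lit 5) 
(.lf (nat_lit 217499) (.g (nat_lit 2386) (.e (nat_lit 90172) (nat_lit 14) (.e (nat_lit 180243) (nat_lit 5) (.e (nat_lit 532504) (nat_lit 1) (.e (nat_lit 57692) (nat_lit 156) (.e (nat_lit 163871) (nat_lit 2) .nil))))) .nil)) 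
(.lf (nat_lit 217531) (.g (nat_lit 3823) (.e (nat_lit 90172) (nat_lit 14) (.e (nat_lit 180243) (nat_lit 5) (.e (nat_lit 532513) (nat_lit 3) (.e (nat_lit 114718) (nat_lit 23) (.e (nat_lit 98334) (nat_lit 18) (.e (nat_lit 164396) (nat_lit 256) (.e (nat_lit 57371) (nat_lit 2) .nil))))))) (.g (nat_lit 5) .nil .nil)))))) (.nd (nat_lit 3) (.nd (nat_lit 4) (.nd (nat_lit 5) 
(.lf (nat_lit 217479) (.g (nat_lit 2604) (.e (nat_lit 90172) (nat_lit 14) (.e (nat_lit 180243) (nat_lit 5) (.e (nat_lit 532504) (nat_lit 1) (.e (nat_lit 57692) (nat_lit 156) (.e (nat_lit 163869) (nat_lit 2) (.e (nat_lit 196658) (nat_lit 12) (.e (nat_lit 57549) (nat_lit 48) (.e (nat_lit 720937) (nat_lit 22) .nil)))))))) (.g (nat_lit 4) .nil .nil))) 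
(.lf (nat_lit 217511) (.g (nat_lit 2511) (.e (nat_lit 90172) (nat_lit 14) (.e (nat_lit 180243) (nat_lit 5) (.e (nat_lit 532504) (nat_lit 1) (.e (nat_lit 57692) (nat_lit 156) (.e (nat_lit 163874) (nat_lit 3) (.e (nat_lit 204834) (nat_lit 19) (.e (nat_lit 106517) (nat_lit 9) (.e (nat_lit 1238) (nat_lit 91) .nil)))))))) (.g (nat_lit 4) .nil .nil)))) (.nd (nat_lit 5) 
(.lf (nat_lit 217495) (.g (nat_lit 2490) (.e (nat_lit 90172) (nat_lit 14) (.e (nat_lit 180243) (nat_lit 5) (.e (nat_lit 532504) (nat_lit 1) (.e (nat_lit 57692) (nat_lit 156) (.e (nat_lit 163869) (nat_lit 2) (.e (nat_lit 196677) (nat_lit 16) (.e (nat_lit 130816) (nat_lit 48) (.e (nat_lit 720937) (nat_lit 22) .nil)))))))) (.g (nat_lit 4) .nil .nil))) 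
(.lf (nat_lit 217527) (.g (nat_lit 1411) (.e (nat_lit 90172) (nat_lit 14) (.e (nat_lit 180243) (nat_lit 5) (.e (nat_lit 532513) (nat_lit 3) (.e (nat_lit 114718) (nat_lit 23) .nil)))) .nil)))) (.nd (nat_lit 4) (.nd (nat_lit 5) 
(.lf (nat_lit 217487) (.g (nat_lit 2478) (.e (nat_lit 90172) (nat_lit 14) (.e (nat_lit 180243) (nat_lit 5) (.e (nat_lit 532504) (nat_lit 1) (.e (nat_lit 57692) (nat_lit 156) (.e (nat_lit 163869) (nat_lit 2) (.e (nat_lit 196660) (nat_lit 12) (.e (nat_lit 57550) (nat_lit 48) (.e (nat_lit 720939) (nat_lit 22) .nil)))))))) (.g (nat_lit 4) .nil .nil))) 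
(.lf (nat_lit 217519) (.g (nat_lit 2136) (.e (nat_lit 90172) (nat_lit 14) (.e (nat_lit 180243) (nat_lit 5) (.e (nat_lit 532513) (nat_lit 3) (.e (nat_lit 114714) (nat_lit 22) (.e (nat_lit 90162) (nat_lit 12) .nil))))) .nil))) (.nd (nat_lit 5) 
(.lf (nat_lit 217503) (.g (nat_lit 2464) (.e (nat_lit 90172) (nat_lit 14) (.e (nat_lit 180243) (nat_lit 5) (.e (nat_lit 532504) (nat_lit 1) (.e (nat_lit 57692) (nat_lit 156) (.e (nat_lit 163871) (nat_lit 2) (.e (nat_lit 196677) (nat_lit 16) (.e (nat_lit 122969) (nat_lit 48) (.e (nat_lit 720939) (nat_lit 22) .nil)))))))) (.g (nat_lit 4) .nil .nil))) 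
(.lf (nat_lit 217535) (.g (nat_lit 2466) (.e (nat_lit 90172) (nat_lit 14) (.e (nat_lit 180243) (nat_lit 5) (.e (nat_lit 532513) (nat_lit 3) (.e (nat_lit 114718) (nat_lit 23) (.e (nat_lit 98343) (nat_lit 21) .nil))))) .nil))))))))

noncomputable def tv2858 : DT := (.nd (nat_lit 0) (.nd (nat_lit 1) (.nd (nat_lit 2) (.nd (nat_lit 3) (.nd (nat_lit 4) (.nd (nat_lit 5) 
(.lf (nat_lit 217536) (.g (nat_lit 1426) (.e (nat_lit 90172) (nat_lit 14) (.e (nat_lit 180243) (nat_lit 5) (.e (nat_lit 532513) (nat_lit 3) (.e (nat_lit 114719) (nat_lit 23) .nil)))) .nil)) 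
(.lf (nat_lit 217568) (.g (nat_lit 1832) (.e (nat_lit 90172) (nat_lit 14) (.e (nat_lit 180244) (nat_lit 5) (.e (nat_lit 532499) (nat_lit 1) (.e (nat_lit 57682) (nat_lit 155) .nil)))) .nil))) (.nd (nat_lit 5) 
(.lf (nat_lit 217552) (.g (nat_lit 2646) (.e (nat_lit 90172) (nat_lit 14) (.e (nat_lit 180243) (nat_lit 5) (.e (nat_lit 532515) (nat_lit 3) (.e (nat_lit 114716) (nat_lit 22) (.e (nat_lit 90180) (nat_lit 16) (.e (nat_lit 229379) (nat_lit 0) (.e (nat_lit 5939) (nat_lit 322) (.e (nat_lit 57375) (nat_lit 2) .nil)))))))) (.g (nat_lit 4) .nil .nil))) 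
(.lf (nat_lit 217584) (.g (nat_lit 2704) (.e (nat_lit 90172) (nat_lit 14) (.e (nat_lit 180244) (nat_lit 5) (.e (nat_lit 532499) (nat_lit 1) (.e (nat_lit 57688) (nat_lit 156) (.e (nat_lit 163847) (nat_lit 0) .nil))))) .nil)))) (.nd (nat_lit 4) (.nd (nat_lit 5) 
(.lf (nat_lit 217544) (.g (nat_lit 1074) (.e (nat_lit 90172) (nat_lit 14) (.e (nat_lit 180243) (nat_lit 5) (.e (nat_lit 532515) (nat_lit 3) (.e (nat_lit 114715) (nat_lit 22) .nil)))) .nil)) 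
(.lf (nat_lit 217576) (.g (nat_lit 3080) (.e (nat_lit 90172) (nat_lit 14) (.e (nat_lit 180244) (nat_lit 5) (.e (nat_lit 532499) (nat_lit 1) (.e (nat_lit 57686) (nat_lit 156) (.e (nat_lit 163871) (nat_lit 2) (.e (nat_lit 196660) (nat_lit 12) (.e (nat_lit 57550) (nat_lit 48) (.e (nat_lit 720941) (nat_lit 22) .nil)))))))) (.g (nat_lit 5) .nil .nil)))) (.nd (nat_lit 5) 
(.lf (nat_lit 217560) (.g (nat_lit 773) (.e (nat_lit 90172) (nat_lit 14) (.e (nat_lit 180243) (nat_lit 5) (.e (nat_lit 532519) (nat_lit 5) .nil))) .nil)) 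
(.lf (nat_lit 217592) (.g (nat_lit 2410) (.e (nat_lit 90172) (nat_lit 14) (.e (nat_lit 180244) (nat_lit 5) (.e (nat_lit 532499) (nat_lit 1) (.e (nat_lit 57688) (nat_lit 156) (.e (nat_lit 163867) (nat_lit 2) (.e (nat_lit 196624) (nat_lit 9) (.e (nat_lit 1277) (nat_lit 94) (.e (nat_lit 114715) (nat_lit 22) .nil)))))))) (.g (nat_lit 4) .nil .nil)))))) 
(.nd (nat_lit 3) (.nd (nat_lit 4) (.nd (nat_lit 5) 
(.lf (nat_lit 217540) (.g (nat_lit 3341) (.e (nat_lit 90172) (nat_lit 14) (.e (nat_lit 180243) (nat_lit 5) (.e (nat_lit 532513) (nat_lit 3) (.e (nat_lit 114719) (nat_lit 23) (.e (nat_lit 98332) (nat_lit 18) (.e (nat_lit 164403) (nat_lit 256) (.e (nat_lit 57373) (nat_lit 2) .nil))))))) (.g (nat_lit 4) .nil .nil))) 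
(.lf (nat_lit 217572) (.g (nat_lit 3356) (.e (nat_lit 90172) (nat_lit 14) (.e (nat_lit 180244) (nat_lit 5) (.e (nat_lit 532499) (nat_lit 1) (.e (nat_lit 57686) (nat_lit 156) (.e (nat_lit 163867) (nat_lit 2) (.e (nat_lit 196635) (nat_lit 9) (.e (nat_lit 1279) (nat_lit 94) (.e (nat_lit 114714) (nat_lit 22) .nil)))))))) (.g (nat_lit 5) .nil .nil)))) (.nd (nat_lit 5) 
(.lf (nat_lit 217556) (.g (nat_lit 1110) (.e (nat_lit 90172) (nat_lit 14) (.e (nat_lit 180243) (nat_lit 5) (.e (nat_lit 532515) (nat_lit 3) (.e (nat_lit 114719) (nat_lit 23) .nil)))) .nil)) 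
(.lf (nat_lit 217588) (.g (nat_lit 2241) (.e (nat_lit 90172) (nat_lit 14) (.e (nat_lit 180244) (nat_lit 5) (.e (nat_lit 532499) (nat_lit 1) (.e (nat_lit 57688) (nat_lit 156) (.e (nat_lit 163867) (nat_lit 2) .nil))))) .nil)))) (.nd (nat_lit 4) (.nd (nat_lit 5) 
(.lf (nat_lit 217548) (.g (nat_lit 2112) (.e (nat_lit 90172) (nat_lit 14) (.e (nat_lit 180243) (nat_lit 5) (.e (nat_lit 532515) (nat_lit 3) (.e (nat_lit 114716) (nat_lit 22) (.e (nat_lit 90140) (nat_lit 9) .nil))))) .nil)) 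
(.lf (nat_lit 217580) (.g (nat_lit 2926) (.e (nat_lit 90172) (nat_lit 14) (.e (nat_lit 180244) (nat_lit 5) (.e (nat_lit 532499) (nat_lit 1) (.e (nat_lit 57686) (nat_lit 156) (.e (nat_lit 163873) (nat_lit 3) (.e (nat_lit 204817) (nat_lit 17) (.e (nat_lit 2198) (nat_lit 144) (.e (nat_lit 720941) (nat_lit 22) .nil)))))))) (.g (nat_lit 5) .nil .nil)))) (.nd (nat_lit 5) 
(.lf (nat_lit 217564) (.g (nat_lit 1903) (.e (nat_lit 90172) (nat_lit 14) (.e (nat_lit 180244) (nat_lit 5) (.e (nat_lit 532499) (nat_lit 1) (.e (nat_lit 57661) (nat_lit 152) (.e (nat_lit 2461) (nat_lit 157) .nil))))) .nil)) 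
(.lf (nat_lit 217596) (.g (nat_lit 2587) (.e (nat_lit 90172) (nat_lit 14) (.e (nat_lit 180244) (nat_lit 5) (.e (nat_lit 532499) (nat_lit 1) (.e (nat_lit 57688) (nat_lit 156) (.e (nat_lit 163867) (nat_lit 2) (.e (nat_lit 196631) (nat_lit 9) (.e (nat_lit 1279) (nat_lit 94) (.e (nat_lit 114716) (nat_lit 22) .nil)))))))) (.g (nat_lit 4) .nil .nil))))))) 
(.nd (nat_lit 2) (.nd (nat_lit 3) (.nd (nat_lit 4) (.nd (nat_lit 5) 
(.lf (nat_lit 217538) (.g (nat_lit 2919) (.e (nat_lit 90172) (nat_lit 14) (.e (nat_lit 180243) (nat_lit 5) (.e (nat_lit 532513) (nat_lit 3) (.e (nat_lit 114719) (nat_lit 23) (.e (nat_lit 98325) (nat_lit 17) (.e (nat_lit 2515) (nat_lit 157) (.e (nat_lit 5934) (nat_lit 322) (.e (nat_lit 57375) (nat_lit 2) .nil)))))))) (.g (nat_lit 4) .nil .nil))) 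
(.lf (nat_lit 217570) (.g (nat_lit 1832) (.e (nat_lit 90172) (nat_lit 14) (.e (nat_lit 180244) (nat_lit 5) (.e (nat_lit 532499) (nat_lit 1) (.e (nat_lit 57685) (nat_lit 156) .nil)))) .nil))) (.nd (nat_lit 5) 
(.lf (nat_lit 217554) (.g (nat_lit 1710) (.e (nat_lit 90172) (nat_lit 14) (.e (nat_lit 180243) (nat_lit 5) (.e (nat_lit 532515) (nat_lit 3) (.e (nat_lit 114716) (nat_lit 22) (.e (nat_lit 90196) (nat_lit 18) .nil))))) .nil)) 
(.lf (nat_lit 217586) (.g (nat_lit 3239) (.e (nat_lit 90172) (nat_lit 14) (.e (nat_lit 180244) (nat_lit 5) (.e (nat_lit 532499) (nat_lit 1) (.e (nat_lit 57688) (nat_lit 156) (.e (nat_lit 163866) (nat_lit 2) (.e (nat_lit 196629) (nat_lit 9) (.e (nat_lit 1275) (nat_lit 94) (.e (nat_lit 114714) (nat_lit 22) .nil)))))))) (.g (nat_lit 4) .nil .nil))))) (.nd (nat_lit 4) (.nd (nat_lit 5) 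
(.lf (nat_lit 217546) (.g (nat_lit 1921) (.e (nat_lit 90172) (nat_lit 14) (.e (nat_lit 180243) (nat_lit 5) (.e (nat_lit 532515) (nat_lit 3) (.e (nat_lit 114716) (nat_lit 22) (.e (nat_lit 90128) (nat_lit 9) .nil))))) .nil)) 
(.lf (nat_lit 217578) (.g (nat_lit 3204) (.e (nat_lit 90172) (nat_lit 14) (.e (nat_lit 180244) (nat_lit 5) (.e (nat_lit 532499) (nat_lit 1) (.e (nat_lit 57686) (nat_lit 156) (.e (nat_lit 163871) (nat_lit 2) (.e (nat_lit 196677) (nat_lit 16) (.e (nat_lit 122970) (nat_lit 48) (.e (nat_lit 720938) (nat_lit 22) .nil)))))))) (.g (nat_lit 5) .nil .nil)))) (.nd (nat_lit 5) 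
(.lf (nat_lit 217562) (.g (nat_lit 2561) (.e (nat_lit 90172) (nat_lit 14) (.e (nat_lit 180244) (nat_lit 5) (.e (nat_lit 532499) (nat_lit 1) (.e (nat_lit 57655) (nat_lit 152) (.e (nat_lit 2399) (nat_lit 157) (.e (nat_lit 2685) (nat_lit 168) (.e (nat_lit 204817) (nat_lit 17) (.e (nat_lit 2198) (nat_lit 144) (.e (nat_lit 720941) (nat_lit 22) .nil))))))))) (.g (nat_lit 4) .nil .nil))) 
(.lf (nat_lit 217594) (.g (nat_lit 3725) (.e (nat_lit 90172) (nat_lit 14) (.e (nat_lit 180244) (nat_lit 5) (.e (nat_lit 532499) (nat_lit 1) (.e (nat_lit 57688) (nat_lit 156) (.e (nat_lit 163867) (nat_lit 2) (.e (nat_lit 196628) (nat_lit 9) (.e (nat_lit 968) (nat_lit 81) (.e (nat_lit 2203) (nat_lit 144) (.e (nat_lit 720938) (nat_lit 22) .nil))))))))) (.g (nat_lit 5) .nil .nil)))))) 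
(.nd (nat_lit 3) (.nd (nat_lit 4) (.nd (nat_lit 5) 
(.lf (nat_lit 217542) (.g (nat_lit 2792) (.e (nat_lit 90172) (nat_lit 14) (.e (nat_lit 180243) (nat_lit 5) (.e (nat_lit 532513) (nat_lit 3) (.e (nat_lit 114719) (nat_lit 23) (.e (nat_lit 98334) (nat_lit 18) (.e (nat_lit 164399) (nat_lit 256) (.e (nat_lit 57370) (nat_lit 2) .nil))))))) (.g (nat_lit 4) .nil .nil))) 
(.lf (nat_lit 217574) (.g (nat_lit 3072) (.e (nat_lit 90172) (nat_lit 14) (.e (nat_lit 180244) (nat_lit 5) (.e (nat_lit 532499) (nat_lit 1) (.e (nat_lit 57686) (nat_lit 156) (.e (nat_lit 163871) (nat_lit 2) (.e (nat_lit 196660) (nat_lit 12) (.e (nat_lit 57550) (nat_lit 48) (.e (nat_lit 720937) (nat_lit 22) .nil)))))))) (.g (nat_lit 5) .nil .nil)))) (.nd (nat_lit 5) 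
(.lf (nat_lit 217558) (.g (nat_lit 2476) (.e (nat_lit 90172) (nat_lit 14) (.e (nat_lit 180243) (nat_lit 5) (.e (nat_lit 532515) (nat_lit 3) (.e (nat_lit 114719) (nat_lit 23) (.e (nat_lit 98331) (nat_lit 17) .nil))))) .nil)) 
(.lf (nat_lit 217590) (.g (nat_lit 2895) (.e (nat_lit 90172) (nat_lit 14) (.e (nat_lit 180244) (nat_lit 5) (.e (nat_lit 532499) (nat_lit 1) (.e (nat_lit 57688) (nat_lit 156) (.e (nat_lit 163867) (nat_lit 2) (.e (nat_lit 196617) (nat_lit 9) (.e (nat_lit 1282) (nat_lit 94) (.e (nat_lit 114714) (nat_lit 22) .nil)))))))) (.g (nat_lit 4) .nil .nil))))) (.nd (nat_lit 4) (.nd (nat_lit 5) 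
(.lf (nat_lit 217550) (.g (nat_lit 1728) (.e (nat_lit 90172) (nat_lit 14) (.e (nat_lit 180243) (nat_lit 5) (.e (nat_lit 532515) (nat_lit 3) (.e (nat_lit 114716) (nat_lit 22) (.e (nat_lit 90163) (nat_lit 12) .nil))))) .nil)) 
(.lf (nat_lit 217582) (.g (nat_lit 2743) (.e (nat_lit 90172) (nat_lit 14) (.e (nat_lit 180244) (nat_lit 5) (.e (nat_lit 532499) (nat_lit 1) (.e (nat_lit 57686) (nat_lit 156) (.e (nat_lit 163875) (nat_lit 3) (.e (nat_lit 204817) (nat_lit 17) (.e (nat_lit 2203) (nat_lit 144) (.e (nat_lit 720941) (nat_lit 22) .nil)))))))) (.g (nat_lit 5) .nil .nil)))) (.nd (nat_lit 5) 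
(.lf (nat_lit 217566) (.g (nat_lit 2211) (.e (nat_lit 90172) (nat_lit 14) (.e (nat_lit 180244) (nat_lit 5) (.e (nat_lit 532499) (nat_lit 1) (.e (nat_lit 57666) (nat_lit 152) (.e (nat_lit 2715) (nat_lit 171) .nil))))) .nil)) 
(.lf (nat_lit 217598) (.g (nat_lit 3612) (.e (nat_lit 90172) (nat_lit 14) (.e (nat_lit 180244) (nat_lit 5) (.e (nat_lit 532499) (nat_lit 1) (.e (nat_lit 57688) (nat_lit 156) (.e (nat_lit 163867) (nat_lit 2) (.e (nat_lit 196635) (nat_lit 9) (.e (nat_lit 1279) (nat_lit 94) (.e (nat_lit 114716) (nat_lit 22) .nil)))))))) (.g (nat_lit 5) .nil .nil)))))))) 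
(.nd (nat_lit 1) (.nd (nat_lit 2) (.nd (nat_lit 3) (.nd (nat_lit 4) (.nd (nat_lit 5) 
(.lf (nat_lit 217537) (.g (nat_lit 2679) (.e (nat_lit 90172) (nat_lit 14) (.e (nat_lit 180243) (nat_lit 5) (.e (nat_lit 532513) (nat_lit 3) (.e (nat_lit 114719) (nat_lit 23) (.e (nat_lit 98325) (nat_lit 17) .nil))))) .nil)) 
(.lf (nat_lit 217569) (.g (nat_lit 1627) (.e (nat_lit 90172) (nat_lit 14) (.e (nat_lit 180244) (nat_lit 5) (.e (nat_lit 532499) (nat_lit 1) (.e (nat_lit 57684) (nat_lit 155) .nil)))) .nil))) (.nd (nat_lit 5) 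
(.lf (nat_lit 217553) (.g (nat_lit 2307) (.e (nat_lit 90172) (nat_lit 14) (.e (nat_lit 180243) (nat_lit 5) (.e (nat_lit 532515) (nat_lit 3) (.e (nat_lit 114716) (nat_lit 22) (.e (nat_lit 90182) (nat_lit 16) .nil))))) .nil)) 
(.lf (nat_lit 217585) (.g (nat_lit 2749) (.e (nat_lit 90172) (nat_lit 14) (.e (nat_lit 180244) (nat_lit 5) (.e (nat_lit 532499) (nat_lit 1) (.e (nat_lit 57688) (nat_lit 156) (.e (nat_lit 163866) (nat_lit 2) .nil))))) .nil)))) (.nd (nat_lit 4) (.nd (nat_lit 5) 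
(.lf (nat_lit 217545) (.g (nat_lit 1172) (.e (nat_lit 90172) (nat_lit 14) (.e (nat_lit 180243) (nat_lit 5) (.e (nat_lit 532515) (nat_lit 3) (.e (nat_lit 114716) (nat_lit 22) .nil)))) .nil)) 
(.lf (nat_lit 217577) (.g (nat_lit 2978) (.e (nat_lit 90172) (nat_lit 14) (.e (nat_lit 180244) (nat_lit 5) (.e (nat_lit 532499) (nat_lit 1) (.e (nat_lit 57686) (nat_lit 156) (.e (nat_lit 163871) (nat_lit 2) (.e (nat_lit 196677) (nat_lit 16) (.e (nat_lit 122969) (nat_lit 48) (.e (nat_lit 720939) (nat_lit 22) .nil)))))))) (.g (nat_lit 5) .nil .nil)))) (.nd (nat_lit 5) 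
(.lf (nat_lit 217561) (.g (nat_lit 1408) (.e (nat_lit 90172) (nat_lit 14) (.e (nat_lit 180244) (nat_lit 5) (.e (nat_lit 532490) (nat_lit 0) (.e (nat_lit 7936) (nat_lit 152) .nil)))) .nil)) 
(.lf (nat_lit 217593) (.g (nat_lit 3479) (.e (nat_lit 90172) (nat_lit 14) (.e (nat_lit 180244) (nat_lit 5) (.e (nat_lit 532499) (nat_lit 1) (.e (nat_lit 57688) (nat_lit 156) (.e (nat_lit 163867) (nat_lit 2) (.e (nat_lit 196628) (nat_lit 9) (.e (nat_lit 968) (nat_lit 81) (.e (nat_lit 2198) (nat_lit 144) (.e (nat_lit 720941) (nat_lit 22) .nil))))))))) (.g (nat_lit 5) .nil .nil)))))) 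
(.nd (nat_lit 3) (.nd (nat_lit 4) (.nd (nat_lit 5) 
(.lf (nat_lit 217541) (.g (nat_lit 2923) (.e (nat_lit 90172) (nat_lit 14) (.e (nat_lit 180243) (nat_lit 5) (.e (nat_lit 532513) (nat_lit 3) (.e (nat_lit 114719) (nat_lit 23) (.e (nat_lit 98333) (nat_lit 18) (.e (nat_lit 164399) (nat_lit 256) (.e (nat_lit 57370) (nat_lit 2) .nil))))))) (.g (nat_lit 4) .nil .nil))) 
(.lf (nat_lit 217573) (.g (nat_lit 3612) (.e (nat_lit 90172) (nat_lit 14) (.e (nat_lit 180244) (nat_lit 5) (.e (nat_lit 532499) (nat_lit 1) (.e (nat_lit 57686) (nat_lit 156) (.e (nat_lit 163868) (nat_lit 2) (.e (nat_lit 196624) (nat_lit 9) (.e (nat_lit 1277) (nat_lit 94) (.e (nat_lit 114716) (nat_lit 22) .nil)))))))) (.g (nat_lit 6) .nil .nil)))) (.nd (nat_lit 5) 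
(.lf (nat_lit 217557) (.g (nat_lit 1969) (.e (nat_lit 90172) (nat_lit 14) (.e (nat_lit 180243) (nat_lit 5) (.e (nat_lit 532515) (nat_lit 3) (.e (nat_lit 114719) (nat_lit 23) (.e (nat_lit 98325) (nat_lit 17) .nil))))) .nil)) 
(.lf (nat_lit 217589) (.g (nat_lit 3601) (.e (nat_lit 90172) (nat_lit 14) (.e (nat_lit 180244) (nat_lit 5) (.e (nat_lit 532499) (nat_lit 1) (.e (nat_lit 57688) (nat_lit 156) (.e (nat_lit 163867) (nat_lit 2) (.e (nat_lit 196617) (nat_lit 9) (.e (nat_lit 1279) (nat_lit 94) (.e (nat_lit 114716) (nat_lit 22) .nil)))))))) (.g (nat_lit 5) .nil .nil))))) (.nd (nat_lit 4) (.nd (nat_lit 5) 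
(.lf (nat_lit 217549) (.g (nat_lit 1754) (.e (nat_lit 90172) (nat_lit 14) (.e (nat_lit 180243) (nat_lit 5) (.e (nat_lit 532515) (nat_lit 3) (.e (nat_lit 114716) (nat_lit 22) (.e (nat_lit 90162) (nat_lit 12) .nil))))) .nil)) 
(.lf (nat_lit 217581) (.g (nat_lit 3076) (.e (nat_lit 90172) (nat_lit 14) (.e (nat_lit 180244) (nat_lit 5) (.e (nat_lit 532499) (nat_lit 1) (.e (nat_lit 57686) (nat_lit 156) (.e (nat_lit 163875) (nat_lit 3) (.e (nat_lit 204815) (nat_lit 17) (.e (nat_lit 2203) (nat_lit 144) (.e (nat_lit 720941) (nat_lit 22) .nil)))))))) (.g (nat_lit 5) .nil .nil)))) (.nd (nat_lit 5) 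
(.lf (nat_lit 217565) (.g (nat_lit 2186) (.e (nat_lit 90172) (nat_lit 14) (.e (nat_lit 180244) (nat_lit 5) (.e (nat_lit 532499) (nat_lit 1) (.e (nat_lit 57663) (nat_lit 152) (.e (nat_lit 2612) (nat_lit 163) .nil))))) .nil)) 
(.lf (nat_lit 217597) (.g (nat_lit 3569) (.e (nat_lit 90172) (nat_lit 14) (.e (nat_lit 180244) (nat_lit 5) (.e (nat_lit 532499) (nat_lit 1) (.e (nat_lit 57688) (nat_lit 156) (.e (nat_lit 163867) (nat_lit 2) (.e (nat_lit 196632) (nat_lit 9) (.e (nat_lit 1280) (nat_lit 94) (.e (nat_lit 114716) (nat_lit 22) .nil)))))))) (.g (nat_lit 5) .nil .nil))))))) 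
(.nd (nat_lit 2) (.nd (nat_lit 3) (.nd (nat_lit 4) (.nd (nat_lit 5) 
(.lf (nat_lit 217539) (.g (nat_lit 3160) (.e (nat_lit 90172) (nat_lit 14) (.e (nat_lit 180243) (nat_lit 5) (.e (nat_lit 532513) (nat_lit 3) (.e (nat_lit 114719) (nat_lit 23) (.e (nat_lit 98332) (nat_lit 18) (.e (nat_lit 164403) (nat_lit 256) (.e (nat_lit 57371) (nat_lit 2) .nil))))))) (.g (nat_lit 4) .nil .nil))) 
(.lf (nat_lit 217571) (.g (nat_lit 1205) (.e (nat_lit 90172) (nat_lit 14) (.e (nat_lit 180244) (nat_lit 5) (.e (nat_lit 532499) (nat_lit 1) (.e (nat_lit 57686) (nat_lit 156) .nil)))) .nil))) (.nd (nat_lit 5) 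
(.lf (nat_lit 217555) (.g (nat_lit 2048) (.e (nat_lit 90172) (nat_lit 14) (.e (nat_lit 180243) (nat_lit 5) (.e (nat_lit 532515) (nat_lit 3) (.e (nat_lit 114718) (nat_lit 23) (.e (nat_lit 98325) (nat_lit 17) .nil))))) .nil)) 
(.lf (nat_lit 217587) (.g (nat_lit 2911) (.e (nat_lit 90172) (nat_lit 14) (.e (nat_lit 180244) (nat_lit 5) (.e (nat_lit 532499) (nat_lit 1) (.e (nat_lit 57688) (nat_lit 156) (.e (nat_lit 163866) (nat_lit 2) (.e (nat_lit 196678) (nat_lit 16) (.e (nat_lit 122971) (nat_lit 48) (.e (nat_lit 720938) (nat_lit 22) .nil)))))))) (.g (nat_lit 4) .nil .nil))))) (.nd (nat_lit 4) (.nd (nat_lit 5) 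
(.lf (nat_lit 217547) (.g (nat_lit 1668) (.e (nat_lit 90172) (nat_lit 14) (.e (nat_lit 180243) (nat_lit 5) (.e (nat_lit 532515) (nat_lit 3) (.e (nat_lit 114716) (nat_lit 22) (.e (nat_lit 90130) (nat_lit 9) .nil))))) .nil)) 
(.lf (nat_lit 217579) (.g (nat_lit 2393) (.e (nat_lit 90172) (nat_lit 14) (.e (nat_lit 180244) (nat_lit 5) (.e (nat_lit 532499) (nat_lit 1) (.e (nat_lit 57686) (nat_lit 156) (.e (nat_lit 163873) (nat_lit 3) (.e (nat_lit 204815) (nat_lit 17) (.e (nat_lit 2203) (nat_lit 144) (.e (nat_lit 720941) (nat_lit 22) .nil)))))))) (.g (nat_lit 4) .nil .nil)))) (.nd (nat_lit 5) 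
(.lf (nat_lit 217563) (.g (nat_lit 1293) (.e (nat_lit 90172) (nat_lit 14) (.e (nat_lit 180244) (nat_lit 5) (.e (nat_lit 532499) (nat_lit 1) (.e (nat_lit 57657) (nat_lit 152) (.e (nat_lit 2461) (nat_lit 157) .nil))))) .nil)) 
(.lf (nat_lit 217595) (.g (nat_lit 4041) (.e (nat_lit 90172) (nat_lit 14) (.e (nat_lit 180244) (nat_lit 5) (.e (nat_lit 532499) (nat_lit 1) (.e (nat_lit 57688) (nat_lit 156) (.e (nat_lit 163867) (nat_lit 2) (.e (nat_lit 196631) (nat_lit 9) (.e (nat_lit 1279) (nat_lit 94) (.e (nat_lit 114714) (nat_lit 22) .nil)))))))) (.g (nat_lit 5) .nil .nil)))))) 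
(.nd (nat_lit 3) (.nd (nat_lit 4) (.nd (nat_lit 5) 
(.lf (nat_lit 217543) (.g (nat_lit 2667) (.e (nat_lit 90172) (nat_lit 14) (.e (nat_lit 180243) (nat_lit 5) (.e (nat_lit 532513) (nat_lit 3) (.e (nat_lit 114719) (nat_lit 23) (.e (nat_lit 98343) (nat_lit 21) .nil))))) .nil)) 
(.lf (nat_lit 217575) (.g (nat_lit 3114) (.e (nat_lit 90172) (nat_lit 14) (.e (nat_lit 180244) (nat_lit 5) (.e (nat_lit 532499) (nat_lit 1) (.e (nat_lit 57686) (nat_lit 156) (.e (nat_lit 163871) (nat_lit 2) (.e (nat_lit 196660) (nat_lit 12) (.e (nat_lit 57550) (nat_lit 48) (.e (nat_lit 720938) (nat_lit 22) .nil)))))))) (.g (nat_lit 5) .nil .nil)))) (.nd (nat_lit 5) 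
(.lf (nat_lit 217559) (.g (nat_lit 1960) (.e (nat_lit 90172) (nat_lit 14) (.e (nat_lit 180243) (nat_lit 5) (.e (nat_lit 532515) (nat_lit 3) (.e (nat_lit 114719) (nat_lit 23) (.e (nat_lit 98343) (nat_lit 21) .nil))))) .nil)) 
(.lf (nat_lit 217591) (.g (nat_lit 2892) (.e (nat_lit 90172) (nat_lit 14) (.e (nat_lit 180244) (nat_lit 5) (.e (nat_lit 532499) (nat_lit 1) (.e (nat_lit 57688) (nat_lit 156) (.e (nat_lit 163867) (nat_lit 2) (.e (nat_lit 196620) (nat_lit 9) (.e (nat_lit 1275) (nat_lit 94) (.e (nat_lit 114714) (nat_lit 22) .nil)))))))) (.g (nat_lit 4) .nil .nil))))) (.nd (nat_lit 4) (.nd (nat_lit 5) 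
(.lf (nat_lit 217551) (.g (nat_lit 2625) (.e (nat_lit 90172) (nat_lit 14) (.e (nat_lit 180243) (nat_lit 5) (.e (nat_lit 532515) (nat_lit 3) (.e (nat_lit 114716) (nat_lit 22) (.e (nat_lit 90179) (nat_lit 16) (.e (nat_lit 229379) (nat_lit 0) (.e (nat_lit 5939) (nat_lit 322) (.e (nat_lit 57375) (nat_lit 2) .nil)))))))) (.g (nat_lit 4) .nil .nil))) 
(.lf (nat_lit 217583) (.g (nat_lit 2844) (.e (nat_lit 90172) (nat_lit 14) (.e (nat_lit 180244) (nat_lit 5) (.e (nat_lit 532499) (nat_lit 1) (.e (nat_lit 57686) (nat_lit 156) (.e (nat_lit 163875) (nat_lit 3) (.e (nat_lit 204818) (nat_lit 17) (.e (nat_lit 2203) (nat_lit 144) (.e (nat_lit 720941) (nat_lit 22) .nil)))))))) (.g (nat_lit 5) .nil .nil)))) (.nd (nat_lit 5) 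
(.lf (nat_lit 217567) (.g (nat_lit 1832) (.e (nat_lit 90172) (nat_lit 14) (.e (nat_lit 180244) (nat_lit 5) (.e (nat_lit 532499) (nat_lit 1) (.e (nat_lit 57681) (nat_lit 155) .nil)))) .nil)) 
(.lf (nat_lit 217599) (.g (nat_lit 3532) (.e (nat_lit 90172) (nat_lit 14) (.e (nat_lit 180244) (nat_lit 5) (.e (nat_lit 532499) (nat_lit 1) (.e (nat_lit 57688) (nat_lit 156) (.e (nat_lit 163867) (nat_lit 2) (.e (nat_lit 196636) (nat_lit 9) (.e (nat_lit 1281) (nat_lit 94) (.e (nat_lit 114716) (nat_lit 22) .nil)))))))) (.g (nat_lit 5) .nil .nil)))))))))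

noncomputable def tv2859 : DT := (.nd (nat_lit 0) (.nd (nat_lit 1) (.nd (nat_lit 2) (.nd (nat_lit 3) (.nd (nat_lit 4) (.nd (nat_lit 5) 
(.lf (nat_lit 217600) (.g (nat_lit 2583) (.e (nat_lit 90172) (nat_lit 14) (.e (nat_lit 180244) (nat_lit 5) (.e (nat_lit 532499) (nat_lit 1) (.e (nat_lit 57688) (nat_lit 156) (.e (nat_lit 163867) (nat_lit 2) (.e (nat_lit 196639) (nat_lit 9) (.e (nat_lit 1281) (nat_lit 94) (.e (nat_lit 114716) (nat_lit 22) .nil)))))))) (.g (nat_lit 4) .nil .nil))) 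
(.lf (nat_lit 217632) (.g (nat_lit 3833) (.e (nat_lit 90172) (nat_lit 14) (.e (nat_lit 180244) (nat_lit 5) (.e (nat_lit 532499) (nat_lit 1) (.e (nat_lit 57688) (nat_lit 156) (.e (nat_lit 163869) (nat_lit 2) (.e (nat_lit 196661) (nat_lit 12) (.e (nat_lit 57549) (nat_lit 48) (.e (nat_lit 720937) (nat_lit 22) .nil)))))))) (.g (nat_lit 5) .nil .nil)))) (.nd (nat_lit 5) 
(.lf (nat_lit 217616) (.g (nat_lit 2956) (.e (nat_lit 90172) (nat_lit 14) (.e (nat_lit 180244) (nat_lit 5) (.e (nat_lit 532499) (nat_lit 1) (.e (nat_lit 57688) (nat_lit 156) (.e (nat_lit 163867) (nat_lit 2) (.e (nat_lit 196677) (nat_lit 16) (.e (nat_lit 130816) (nat_lit 48) (.e (nat_lit 720938) (nat_lit 22) .nil)))))))) (.g (nat_lit 4) .nil .nil))) 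
(.lf (nat_lit 217648) (.g (nat_lit 3086) (.e (nat_lit 90172) (nat_lit 14) (.e (nat_lit 180244) (nat_lit 5) (.e (nat_lit 532499) (nat_lit 1) (.e (nat_lit 57688) (nat_lit 156) (.e (nat_lit 163871) (nat_lit 2) (.e (nat_lit 196660) (nat_lit 12) (.e (nat_lit 57549) (nat_lit 48) (.e (nat_lit 720937) (nat_lit 22) .nil)))))))) (.g (nat_lit 4) .nil .nil))))) (.nd (nat_lit 4) (.nd (nat_lit 5) 
(.lf (nat_lit 217608) (.g (nat_lit 2761) (.e (nat_lit 90172) (nat_lit 14) (.e (nat_lit 180244) (nat_lit 5) (.e (nat_lit 532499) (nat_lit 1) (.e (nat_lit 57688) (nat_lit 156) (.e (nat_lit 163867) (nat_lit 2) (.e (nat_lit 196659) (nat_lit 12) (.e (nat_lit 57550) (nat_lit 48) (.e (nat_lit 720941) (nat_lit 22) .nil)))))))) (.g (nat_lit 4) .nil .nil))) 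
(.lf (nat_lit 217640) (.g (nat_lit 2934) (.e (nat_lit 90172) (nat_lit 14) (.e (nat_lit 180244) (nat_lit 5) (.e (nat_lit 532499) (nat_lit 1) (.e (nat_lit 57688) (nat_lit 156) (.e (nat_lit 163869) (nat_lit 2) (.e (nat_lit 196678) (nat_lit 16) (.e (nat_lit 122971) (nat_lit 48) (.e (nat_lit 720938) (nat_lit 22) .nil)))))))) (.g (nat_lit 4) .nil .nil)))) (.nd (nat_lit 5) 
(.lf (nat_lit 217624) (.g (nat_lit 3304) (.e (nat_lit 90172) (nat_lit 14) (.e (nat_lit 180244) (nat_lit 5) (.e (nat_lit 532499) (nat_lit 1) (.e (nat_lit 57688) (nat_lit 156) (.e (nat_lit 163869) (nat_lit 2) (.e (nat_lit 196658) (nat_lit 12) (.e (nat_lit 57550) (nat_lit 48) (.e (nat_lit 720937) (nat_lit 22) .nil)))))))) (.g (nat_lit 4) .nil .nil))) 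
(.lf (nat_lit 217656) (.g (nat_lit 2545) (.e (nat_lit 90172) (nat_lit 14) (.e (nat_lit 180244) (nat_lit 5) (.e (nat_lit 532499) (nat_lit 1) (.e (nat_lit 57688) (nat_lit 156) (.e (nat_lit 163872) (nat_lit 3) .nil))))) .nil))))) (.nd (nat_lit 3) (.nd (nat_lit 4) (.nd (nat_lit 5) 
(.lf (nat_lit 217604) (.g (nat_lit 2898) (.e (nat_lit 90172) (nat_lit 14) (.e (nat_lit 180244) (nat_lit 5) (.e (nat_lit 532499) (nat_lit 1) (.e (nat_lit 57688) (nat_lit 156) (.e (nat_lit 163867) (nat_lit 2) (.e (nat_lit 196658) (nat_lit 12) (.e (nat_lit 57550) (nat_lit 48) (.e (nat_lit 720939) (nat_lit 22) .nil)))))))) (.g (nat_lit 4) .nil .nil))) 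
(.lf (nat_lit 217636) (.g (nat_lit 3917) (.e (nat_lit 90172) (nat_lit 14) (.e (nat_lit 180244) (nat_lit 5) (.e (nat_lit 532499) (nat_lit 1) (.e (nat_lit 57688) (nat_lit 156) (.e (nat_lit 163869) (nat_lit 2) (.e (nat_lit 196677) (nat_lit 16) (.e (nat_lit 122969) (nat_lit 48) (.e (nat_lit 720941) (nat_lit 22) .nil)))))))) (.g (nat_lit 5) .nil .nil)))) (.nd (nat_lit 5) 
(.lf (nat_lit 217620) (.g (nat_lit 2624) (.e (nat_lit 90172) (nat_lit 14) (.e (nat_lit 180244) (nat_lit 5) (.e (nat_lit 532499) (nat_lit 1) (.e (nat_lit 57688) (nat_lit 156) (.e (nat_lit 163869) (nat_lit 2) .nil))))) .nil)) 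
(.lf (nat_lit 217652) (.g (nat_lit 3868) (.e (nat_lit 90172) (nat_lit 14) (.e (nat_lit 180244) (nat_lit 5) (.e (nat_lit 532499) (nat_lit 1) (.e (nat_lit 57688) (nat_lit 156) (.e (nat_lit 163871) (nat_lit 2) (.e (nat_lit 196677) (nat_lit 16) (.e (nat_lit 122969) (nat_lit 48) (.e (nat_lit 720939) (nat_lit 22) .nil)))))))) (.g (nat_lit 5) .nil .nil))))) (.nd (nat_lit 4) (.nd (nat_lit 5) 
(.lf (nat_lit 217612) (.g (nat_lit 3893) (.e (nat_lit 90172) (nat_lit 14) (.e (nat_lit 180244) (nat_lit 5) (.e (nat_lit 532499) (nat_lit 1) (.e (nat_lit 57688) (nat_lit 156) (.e (nat_lit 163867) (nat_lit 2) (.e (nat_lit 196660) (nat_lit 12) (.e (nat_lit 57550) (nat_lit 48) (.e (nat_lit 720941) (nat_lit 22) .nil)))))))) (.g (nat_lit 5) .nil .nil))) 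
(.lf (nat_lit 217644) (.g (nat_lit 3035) (.e (nat_lit 90172) (nat_lit 14) (.e (nat_lit 180244) (nat_lit 5) (.e (nat_lit 532499) (nat_lit 1) (.e (nat_lit 57688) (nat_lit 156) (.e (nat_lit 163870) (nat_lit 2) (.e (nat_lit 196661) (nat_lit 12) (.e (nat_lit 57549) (nat_lit 48) (.e (nat_lit 720941) (nat_lit 22) .nil)))))))) (.g (nat_lit 4) .nil .nil)))) (.nd (nat_lit 5) 
(.lf (nat_lit 217628) (.g (nat_lit 3374) (.e (nat_lit 90172) (nat_lit 14) (.e (nat_lit 180244) (nat_lit 5) (.e (nat_lit 532499) (nat_lit 1) (.e (nat_lit 57688) (nat_lit 156) (.e (nat_lit 163869) (nat_lit 2) (.e (nat_lit 196658) (nat_lit 12) (.e (nat_lit 57551) (nat_lit 48) (.e (nat_lit 720938) (nat_lit 22) .nil)))))))) (.g (nat_lit 4) .nil .nil))) 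
(.lf (nat_lit 217660) (.g (nat_lit 3625) (.e (nat_lit 90172) (nat_lit 14) (.e (nat_lit 180244) (nat_lit 5) (.e (nat_lit 532499) (nat_lit 1) (.e (nat_lit 57688) (nat_lit 156) (.e (nat_lit 163873) (nat_lit 3) (.e (nat_lit 204815) (nat_lit 17) (.e (nat_lit 2193) (nat_lit 144) (.e (nat_lit 720941) (nat_lit 22) .nil)))))))) (.g (nat_lit 5) .nil .nil))))))) 
(.nd (nat_lit 2) (.nd (nat_lit 3) (.nd (nat_lit 4) (.nd (nat_lit 5) 
(.lf (nat_lit 217602) (.g (nat_lit 2542) (.e (nat_lit 90172) (nat_lit 14) (.e (nat_lit 180244) (nat_lit 5) (.e (nat_lit 532499) (nat_lit 1) (.e (nat_lit 57688) (nat_lit 156) (.e (nat_lit 163867) (nat_lit 2) (.e (nat_lit 196658) (nat_lit 12) (.e (nat_lit 57549) (nat_lit 48) (.e (nat_lit 720938) (nat_lit 22) .nil)))))))) (.g (nat_lit 4) .nil .nil))) 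
(.lf (nat_lit 217634) (.g (nat_lit 3990) (.e (nat_lit 90172) (nat_lit 14) (.e (nat_lit 180244) (nat_lit 5) (.e (nat_lit 532499) (nat_lit 1) (.e (nat_lit 57688) (nat_lit 156) (.e (nat_lit 163869) (nat_lit 2) (.e (nat_lit 196677) (nat_lit 16) (.e (nat_lit 122969) (nat_lit 48) (.e (nat_lit 720938) (nat_lit 22) .nil)))))))) (.g (nat_lit 5) .nil .nil)))) (.nd (nat_lit 5) 
(.lf (nat_lit 217618) (.g (nat_lit 2945) (.e (nat_lit 90172) (nat_lit 14) (.e (nat_lit 180244) (nat_lit 5) (.e (nat_lit 532499) (nat_lit 1) (.e (nat_lit 57688) (nat_lit 156) (.e (nat_lit 163867) (nat_lit 2) (.e (nat_lit 196678) (nat_lit 16) (.e (nat_lit 122971) (nat_lit 48) (.e (nat_lit 720941) (nat_lit 22) .nil)))))))) (.g (nat_lit 4) .nil .nil))) 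
(.lf (nat_lit 217650) (.g (nat_lit 3936) (.e (nat_lit 90172) (nat_lit 14) (.e (nat_lit 180244) (nat_lit 5) (.e (nat_lit 532499) (nat_lit 1) (.e (nat_lit 57688) (nat_lit 156) (.e (nat_lit 163871) (nat_lit 2) (.e (nat_lit 196660) (nat_lit 12) (.e (nat_lit 57550) (nat_lit 48) (.e (nat_lit 720937) (nat_lit 22) .nil)))))))) (.g (nat_lit 5) .nil .nil))))) (.nd (nat_lit 4) (.nd (nat_lit 5) 
(.lf (nat_lit 217610) (.g (nat_lit 3041) (.e (nat_lit 90172) (nat_lit 14) (.e (nat_lit 180244) (nat_lit 5) (.e (nat_lit 532499) (nat_lit 1) (.e (nat_lit 57688) (nat_lit 156) (.e (nat_lit 163867) (nat_lit 2) (.e (nat_lit 196660) (nat_lit 12) (.e (nat_lit 57549) (nat_lit 48) (.e (nat_lit 720941) (nat_lit 22) .nil)))))))) (.g (nat_lit 4) .nil .nil))) 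
(.lf (nat_lit 217642) (.g (nat_lit 3038) (.e (nat_lit 90172) (nat_lit 14) (.e (nat_lit 180244) (nat_lit 5) (.e (nat_lit 532499) (nat_lit 1) (.e (nat_lit 57688) (nat_lit 156) (.e (nat_lit 163870) (nat_lit 2) (.e (nat_lit 196661) (nat_lit 12) (.e (nat_lit 57549) (nat_lit 48) (.e (nat_lit 720937) (nat_lit 22) .nil)))))))) (.g (nat_lit 4) .nil .nil)))) (.nd (nat_lit 5) 
(.lf (nat_lit 217626) (.g (nat_lit 3341) (.e (nat_lit 90172) (nat_lit 14) (.e (nat_lit 180244) (nat_lit 5) (.e (nat_lit 532499) (nat_lit 1) (.e (nat_lit 57688) (nat_lit 156) (.e (nat_lit 163869) (nat_lit 2) (.e (nat_lit 196658) (nat_lit 12) (.e (nat_lit 57550) (nat_lit 48) (.e (nat_lit 720941) (nat_lit 22) .nil)))))))) (.g (nat_lit 4) .nil .nil))) 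
(.lf (nat_lit 217658) (.g (nat_lit 2709) (.e (nat_lit 90172) (nat_lit 14) (.e (nat_lit 180244) (nat_lit 5) (.e (nat_lit 532499) (nat_lit 1) (.e (nat_lit 57688) (nat_lit 156) (.e (nat_lit 163873) (nat_lit 3) (.e (nat_lit 204815) (nat_lit 17) (.e (nat_lit 2190) (nat_lit 144) (.e (nat_lit 720937) (nat_lit 22) .nil)))))))) (.g (nat_lit 4) .nil .nil)))))) 
(.nd (nat_lit 3) (.nd (nat_lit 4) (.nd (nat_lit 5) 
(.lf (nat_lit 217606) (.g (nat_lit 2722) (.e (nat_lit 90172) (nat_lit 14) (.e (nat_lit 180244) (nat_lit 5) (.e (nat_lit 532499) (nat_lit 1) (.e (nat_lit 57688) (nat_lit 156) (.e (nat_lit 163867) (nat_lit 2) (.e (nat_lit 196659) (nat_lit 12) (.e (nat_lit 57550) (nat_lit 48) (.e (nat_lit 720937) (nat_lit 22) .nil)))))))) (.g (nat_lit 4) .nil .nil))) 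
(.lf (nat_lit 217638) (.g (nat_lit 2880) (.e (nat_lit 90172) (nat_lit 14) (.e (nat_lit 180244) (nat_lit 5) (.e (nat_lit 532499) (nat_lit 1) (.e (nat_lit 57688) (nat_lit 156) (.e (nat_lit 163869) (nat_lit 2) (.e (nat_lit 196677) (nat_lit 16) (.e (nat_lit 130816) (nat_lit 48) (.e (nat_lit 720937) (nat_lit 22) .nil)))))))) (.g (nat_lit 4) .nil .nil)))) (.nd (nat_lit 5) 
(.lf (nat_lit 217622) (.g (nat_lit 2962) (.e (nat_lit 90172) (nat_lit 14) (.e (nat_lit 180244) (nat_lit 5) (.e (nat_lit 532499) (nat_lit 1) (.e (nat_lit 57688) (nat_lit 156) (.e (nat_lit 163869) (nat_lit 2) (.e (nat_lit 196626) (nat_lit 9) (.e (nat_lit 1282) (nat_lit 94) (.e (nat_lit 114714) (nat_lit 22) .nil)))))))) (.g (nat_lit 4) .nil .nil))) 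
(.lf (nat_lit 217654) (.g (nat_lit 4094) (.e (nat_lit 90172) (nat_lit 14) (.e (nat_lit 180244) (nat_lit 5) (.e (nat_lit 532499) (nat_lit 1) (.e (nat_lit 57688) (nat_lit 156) (.e (nat_lit 163871) (nat_lit 2) (.e (nat_lit 196677) (nat_lit 16) (.e (nat_lit 122970) (nat_lit 48) (.e (nat_lit 720938) (nat_lit 22) .nil)))))))) (.g (nat_lit 5) .nil .nil))))) (.nd (nat_lit 4) (.nd (nat_lit 5) 
(.lf (nat_lit 217614) (.g (nat_lit 2535) (.e (nat_lit 90172) (nat_lit 14) (.e (nat_lit 180244) (nat_lit 5) (.e (nat_lit 532499) (nat_lit 1) (.e (nat_lit 57688) (nat_lit 156) (.e (nat_lit 163867) (nat_lit 2) (.e (nat_lit 196677) (nat_lit 16) (.e (nat_lit 122970) (nat_lit 48) (.e (nat_lit 720937) (nat_lit 22) .nil)))))))) (.g (nat_lit 4) .nil .nil))) 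
(.lf (nat_lit 217646) (.g (nat_lit 3171) (.e (nat_lit 90172) (nat_lit 14) (.e (nat_lit 180244) (nat_lit 5) (.e (nat_lit 532499) (nat_lit 1) (.e (nat_lit 57688) (nat_lit 156) (.e (nat_lit 163871) (nat_lit 2) (.e (nat_lit 196624) (nat_lit 9) (.e (nat_lit 1276) (nat_lit 94) (.e (nat_lit 114716) (nat_lit 22) .nil)))))))) (.g (nat_lit 4) .nil .nil)))) (.nd (nat_lit 5) 
(.lf (nat_lit 217630) (.g (nat_lit 2873) (.e (nat_lit 90172) (nat_lit 14) (.e (nat_lit 180244) (nat_lit 5) (.e (nat_lit 532499) (nat_lit 1) (.e (nat_lit 57688) (nat_lit 156) (.e (nat_lit 163869) (nat_lit 2) (.e (nat_lit 196660) (nat_lit 12) (.e (nat_lit 57549) (nat_lit 48) (.e (nat_lit 720941) (nat_lit 22) .nil)))))))) (.g (nat_lit 4) .nil .nil))) 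
(.lf (nat_lit 217662) (.g (nat_lit 2956) (.e (nat_lit 90172) (nat_lit 14) (.e (nat_lit 180244) (nat_lit 5) (.e (nat_lit 532499) (nat_lit 1) (.e (nat_lit 57688) (nat_lit 156) (.e (nat_lit 163873) (nat_lit 3) (.e (nat_lit 204815) (nat_lit 17) (.e (nat_lit 2202) (nat_lit 144) (.e (nat_lit 720937) (nat_lit 22) .nil)))))))) (.g (nat_lit 4) .nil .nil)))))))) 
(.nd (nat_lit 1) (.nd (nat_lit 2) (.nd (nat_lit 3) (.nd (nat_lit 4) (.nd (nat_lit 5) 
(.lf (nat_lit 217601) (.g (nat_lit 2794) (.e (nat_lit 90172) (nat_lit 14) (.e (nat_lit 180244) (nat_lit 5) (.e (nat_lit 532499) (nat_lit 1) (.e (nat_lit 57688) (nat_lit 156) (.e (nat_lit 163867) (nat_lit 2) (.e (nat_lit 196658) (nat_lit 12) (.e (nat_lit 57549) (nat_lit 48) (.e (nat_lit 720937) (nat_lit 22) .nil)))))))) (.g (nat_lit 4) .nil .nil))) 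
(.lf (nat_lit 217633) (.g (nat_lit 3949) (.e (nat_lit 90172) (nat_lit 14) (.e (nat_lit 180244) (nat_lit 5) (.e (nat_lit 532499) (nat_lit 1) (.e (nat_lit 57688) (nat_lit 156) (.e (nat_lit 163869) (nat_lit 2) (.e (nat_lit 196677) (nat_lit 16) (.e (nat_lit 122969) (nat_lit 48) (.e (nat_lit 720937) (nat_lit 22) .nil)))))))) (.g (nat_lit 5) .nil .nil)))) (.nd (nat_lit 5) 
(.lf (nat_lit 217617) (.g (nat_lit 2340) (.e (nat_lit 90172) (nat_lit 14) (.e (nat_lit 180244) (nat_lit 5) (.e (nat_lit 532499) (nat_lit 1) (.e (nat_lit 57688) (nat_lit 156) (.e (nat_lit 163867) (nat_lit 2) (.e (nat_lit 196678) (nat_lit 16) (.e (nat_lit 122971) (nat_lit 48) (.e (nat_lit 720939) (nat_lit 22) .nil)))))))) (.g (nat_lit 4) .nil .nil))) 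
(.lf (nat_lit 217649) (.g (nat_lit 3092) (.e (nat_lit 90172) (nat_lit 14) (.e (nat_lit 180244) (nat_lit 5) (.e (nat_lit 532499) (nat_lit 1) (.e (nat_lit 57688) (nat_lit 156) (.e (nat_lit 163871) (nat_lit 2) (.e (nat_lit 196660) (nat_lit 12) (.e (nat_lit 57549) (nat_lit 48) (.e (nat_lit 720941) (nat_lit 22) .nil)))))))) (.g (nat_lit 4) .nil .nil))))) (.nd (nat_lit 4) (.nd (nat_lit 5) 
(.lf (nat_lit 217609) (.g (nat_lit 2783) (.e (nat_lit 90172) (nat_lit 14) (.e (nat_lit 180244) (nat_lit 5) (.e (nat_lit 532499) (nat_lit 1) (.e (nat_lit 57688) (nat_lit 156) (.e (nat_lit 163867) (nat_lit 2) (.e (nat_lit 196660) (nat_lit 12) (.e (nat_lit 57549) (nat_lit 48) (.e (nat_lit 720938) (nat_lit 22) .nil)))))))) (.g (nat_lit 4) .nil .nil))) 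
(.lf (nat_lit 217641) (.g (nat_lit 2674) (.e (nat_lit 90172) (nat_lit 14) (.e (nat_lit 180244) (nat_lit 5) (.e (nat_lit 532499) (nat_lit 1) (.e (nat_lit 57688) (nat_lit 156) (.e (nat_lit 163870) (nat_lit 2) .nil))))) .nil))) (.nd (nat_lit 5) 
(.lf (nat_lit 217625) (.g (nat_lit 3387) (.e (nat_lit 90172) (nat_lit 14) (.e (nat_lit 180244) (nat_lit 5) (.e (nat_lit 532499) (nat_lit 1) (.e (nat_lit 57688) (nat_lit 156) (.e (nat_lit 163869) (nat_lit 2) (.e (nat_lit 196658) (nat_lit 12) (.e (nat_lit 57550) (nat_lit 48) (.e (nat_lit 720938) (nat_lit 22) .nil)))))))) (.g (nat_lit 4) .nil .nil))) 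
(.lf (nat_lit 217657) (.g (nat_lit 2288) (.e (nat_lit 90172) (nat_lit 14) (.e (nat_lit 180244) (nat_lit 5) (.e (nat_lit 532499) (nat_lit 1) (.e (nat_lit 57688) (nat_lit 156) (.e (nat_lit 163873) (nat_lit 3) .nil))))) .nil))))) (.nd (nat_lit 3) (.nd (nat_lit 4) (.nd (nat_lit 5) 
(.lf (nat_lit 217605) (.g (nat_lit 3861) (.e (nat_lit 90172) (nat_lit 14) (.e (nat_lit 180244) (nat_lit 5) (.e (nat_lit 532499) (nat_lit 1) (.e (nat_lit 57688) (nat_lit 156) (.e (nat_lit 163867) (nat_lit 2) (.e (nat_lit 196658) (nat_lit 12) (.e (nat_lit 57551) (nat_lit 48) (.e (nat_lit 720941) (nat_lit 22) .nil)))))))) (.g (nat_lit 5) .nil .nil))) 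
(.lf (nat_lit 217637) (.g (nat_lit 3267) (.e (nat_lit 90172) (nat_lit 14) (.e (nat_lit 180244) (nat_lit 5) (.e (nat_lit 532499) (nat_lit 1) (.e (nat_lit 57688) (nat_lit 156) (.e (nat_lit 163869) (nat_lit 2) (.e (nat_lit 196677) (nat_lit 16) (.e (nat_lit 122970) (nat_lit 48) (.e (nat_lit 720938) (nat_lit 22) .nil)))))))) (.g (nat_lit 4) .nil .nil)))) (.nd (nat_lit 5) 
(.lf (nat_lit 217621) (.g (nat_lit 2857) (.e (nat_lit 90172) (nat_lit 14) (.e (nat_lit 180244) (nat_lit 5) (.e (nat_lit 532499) (nat_lit 1) (.e (nat_lit 57688) (nat_lit 156) (.e (nat_lit 163869) (nat_lit 2) (.e (nat_lit 196624) (nat_lit 9) (.e (nat_lit 1276) (nat_lit 94) (.e (nat_lit 114716) (nat_lit 22) .nil)))))))) (.g (nat_lit 4) .nil .nil))) 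
(.lf (nat_lit 217653) (.g (nat_lit 4267) (.e (nat_lit 90172) (nat_lit 14) (.e (nat_lit 180244) (nat_lit 5) (.e (nat_lit 532499) (nat_lit 1) (.e (nat_lit 57688) (nat_lit 156) (.e (nat_lit 163871) (nat_lit 2) (.e (nat_lit 196677) (nat_lit 16) (.e (nat_lit 122970) (nat_lit 48) (.e (nat_lit 720937) (nat_lit 22) .nil)))))))) (.g (nat_lit 5) .nil .nil))))) (.nd (nat_lit 4) (.nd (nat_lit 5) 
(.lf (nat_lit 217613) (.g (nat_lit 3606) (.e (nat_lit 90172) (nat_lit 14) (.e (nat_lit 180244) (nat_lit 5) (.e (nat_lit 532499) (nat_lit 1) (.e (nat_lit 57688) (nat_lit 156) (.e (nat_lit 163867) (nat_lit 2) (.e (nat_lit 196676) (nat_lit 16) (.e (nat_lit 122971) (nat_lit 48) (.e (nat_lit 720938) (nat_lit 22) .nil)))))))) (.g (nat_lit 5) .nil .nil))) 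
(.lf (nat_lit 217645) (.g (nat_lit 2680) (.e (nat_lit 90172) (nat_lit 14) (.e (nat_lit 180244) (nat_lit 5) (.e (nat_lit 532499) (nat_lit 1) (.e (nat_lit 57688) (nat_lit 156) (.e (nat_lit 163871) (nat_lit 2) .nil))))) .nil))) (.nd (nat_lit 5) 
(.lf (nat_lit 217629) (.g (nat_lit 3103) (.e (nat_lit 90172) (nat_lit 14) (.e (nat_lit 180244) (nat_lit 5) (.e (nat_lit 532499) (nat_lit 1) (.e (nat_lit 57688) (nat_lit 156) (.e (nat_lit 163869) (nat_lit 2) (.e (nat_lit 196659) (nat_lit 12) (.e (nat_lit 57550) (nat_lit 48) (.e (nat_lit 720939) (nat_lit 22) .nil)))))))) (.g (nat_lit 4) .nil .nil))) 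
(.lf (nat_lit 217661) (.g (nat_lit 2973) (.e (nat_lit 90172) (nat_lit 14) (.e (nat_lit 180244) (nat_lit 5) (.e (nat_lit 532499) (nat_lit 1) (.e (nat_lit 57688) (nat_lit 156) (.e (nat_lit 163873) (nat_lit 3) (.e (nat_lit 204815) (nat_lit 17) (.e (nat_lit 2196) (nat_lit 144) (.e (nat_lit 720941) (nat_lit 22) .nil)))))))) (.g (nat_lit 4) .nil .nil))))))) 
(.nd (nat_lit 2) (.nd (nat_lit 3) (.nd (nat_lit 4) (.nd (nat_lit 5) 
(.lf (nat_lit 217603) (.g (nat_lit 2800) (.e (nat_lit 90172) (nat_lit 14) (.e (nat_lit 180244) (nat_lit 5) (.e (nat_lit 532499) (nat_lit 1) (.e (nat_lit 57688) (nat_lit 156) (.e (nat_lit 163867) (nat_lit 2) (.e (nat_lit 196658) (nat_lit 12) (.e (nat_lit 57549) (nat_lit 48) (.e (nat_lit 720941) (nat_lit 22) .nil)))))))) (.g (nat_lit 4) .nil .nil))) 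
(.lf (nat_lit 217635) (.g (nat_lit 2942) (.e (nat_lit 90172) (nat_lit 14) (.e (nat_lit 180244) (nat_lit 5) (.e (nat_lit 532499) (nat_lit 1) (.e (nat_lit 57688) (nat_lit 156) (.e (nat_lit 163869) (nat_lit 2) (.e (nat_lit 196677) (nat_lit 16) (.e (nat_lit 122969) (nat_lit 48) (.e (nat_lit 720939) (nat_lit 22) .nil)))))))) (.g (nat_lit 4) .nil .nil)))) (.nd (nat_lit 5) 
(.lf (nat_lit 217619) (.g (nat_lit 2521) (.e (nat_lit 90172) (nat_lit 14) (.e (nat_lit 180244) (nat_lit 5) (.e (nat_lit 532499) (nat_lit 1) (.e (nat_lit 57688) (nat_lit 156) (.e (nat_lit 163868) (nat_lit 2) .nil))))) .nil)) 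
(.lf (nat_lit 217651) (.g (nat_lit 3978) (.e (nat_lit 90172) (nat_lit 14) (.e (nat_lit 180244) (nat_lit 5) (.e (nat_lit 532499) (nat_lit 1) (.e (nat_lit 57688) (nat_lit 156) (.e (nat_lit 163871) (nat_lit 2) (.e (nat_lit 196660) (nat_lit 12) (.e (nat_lit 57550) (nat_lit 48) (.e (nat_lit 720938) (nat_lit 22) .nil)))))))) (.g (nat_lit 5) .nil .nil))))) (.nd (nat_lit 4) (.nd (nat_lit 5) 
(.lf (nat_lit 217611) (.g (nat_lit 3401) (.e (nat_lit 90172) (nat_lit 14) (.e (nat_lit 180244) (nat_lit 5) (.e (nat_lit 532499) (nat_lit 1) (.e (nat_lit 57688) (nat_lit 156) (.e (nat_lit 163867) (nat_lit 2) (.e (nat_lit 196660) (nat_lit 12) (.e (nat_lit 57550) (nat_lit 48) (.e (nat_lit 720939) (nat_lit 22) .nil)))))))) (.g (nat_lit 5) .nil .nil))) 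
(.lf (nat_lit 217643) (.g (nat_lit 2809) (.e (nat_lit 90172) (nat_lit 14) (.e (nat_lit 180244) (nat_lit 5) (.e (nat_lit 532499) (nat_lit 1) (.e (nat_lit 57688) (nat_lit 156) (.e (nat_lit 163870) (nat_lit 2) (.e (nat_lit 196661) (nat_lit 12) (.e (nat_lit 57549) (nat_lit 48) (.e (nat_lit 720938) (nat_lit 22) .nil)))))))) (.g (nat_lit 4) .nil .nil)))) (.nd (nat_lit 5) 
(.lf (nat_lit 217627) (.g (nat_lit 3037) (.e (nat_lit 90172) (nat_lit 14) (.e (nat_lit 180244) (nat_lit 5) (.e (nat_lit 532499) (nat_lit 1) (.e (nat_lit 57688) (nat_lit 156) (.e (nat_lit 163869) (nat_lit 2) (.e (nat_lit 196658) (nat_lit 12) (.e (nat_lit 57551) (nat_lit 48) (.e (nat_lit 720937) (nat_lit 22) .nil)))))))) (.g (nat_lit 4) .nil .nil))) 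
(.lf (nat_lit 217659) (.g (nat_lit 2560) (.e (nat_lit 90172) (nat_lit 14) (.e (nat_lit 180244) (nat_lit 5) (.e (nat_lit 532499) (nat_lit 1) (.e (nat_lit 57688) (nat_lit 156) (.e (nat_lit 163873) (nat_lit 3) (.e (nat_lit 204815) (nat_lit 17) (.e (nat_lit 2192) (nat_lit 144) (.e (nat_lit 720941) (nat_lit 22) .nil)))))))) (.g (nat_lit 4) .nil .nil)))))) 
(.nd (nat_lit 3) (.nd (nat_lit 4) (.nd (nat_lit 5) 
(.lf (nat_lit 217607) (.g (nat_lit 2806) (.e (nat_lit 90172) (nat_lit 14) (.e (nat_lit 180244) (nat_lit 5) (.e (nat_lit 532499) (nat_lit 1) (.e (nat_lit 57688) (nat_lit 156) (.e (nat_lit 163867) (nat_lit 2) (.e (nat_lit 196659) (nat_lit 12) (.e (nat_lit 57550) (nat_lit 48) (.e (nat_lit 720938) (nat_lit 22) .nil)))))))) (.g (nat_lit 4) .nil .nil))) 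
(.lf (nat_lit 217639) (.g (nat_lit 4032) (.e (nat_lit 90172) (nat_lit 14) (.e (nat_lit 180244) (nat_lit 5) (.e (nat_lit 532499) (nat_lit 1) (.e (nat_lit 57688) (nat_lit 156) (.e (nat_lit 163869) (nat_lit 2) (.e (nat_lit 196677) (nat_lit 16) (.e (nat_lit 130816) (nat_lit 48) (.e (nat_lit 720941) (nat_lit 22) .nil)))))))) (.g (nat_lit 5) .nil .nil)))) (.nd (nat_lit 5) 
(.lf (nat_lit 217623) (.g (nat_lit 3132) (.e (nat_lit 90172) (nat_lit 14) (.e (nat_lit 180244) (nat_lit 5) (.e (nat_lit 532499) (nat_lit 1) (.e (nat_lit 57688) (nat_lit 156) (.e (nat_lit 163869) (nat_lit 2) (.e (nat_lit 196630) (nat_lit 9) (.e (nat_lit 1278) (nat_lit 94) (.e (nat_lit 114714) (nat_lit 22) .nil)))))))) (.g (nat_lit 4) .nil .nil))) 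
(.lf (nat_lit 217655) (.g (nat_lit 2899) (.e (nat_lit 90172) (nat_lit 14) (.e (nat_lit 180244) (nat_lit 5) (.e (nat_lit 532499) (nat_lit 1) (.e (nat_lit 57688) (nat_lit 156) (.e (nat_lit 163871) (nat_lit 2) (.e (nat_lit 196677) (nat_lit 16) (.e (nat_lit 122970) (nat_lit 48) (.e (nat_lit 720939) (nat_lit 22) .nil)))))))) (.g (nat_lit 4) .nil .nil))))) (.nd (nat_lit 4) (.nd (nat_lit 5) 
(.lf (nat_lit 217615) (.g (nat_lit 2931) (.e (nat_lit 90172) (nat_lit 14) (.e (nat_lit 180244) (nat_lit 5) (.e (nat_lit 532499) (nat_lit 1) (.e (nat_lit 57688) (nat_lit 156) (.e (nat_lit 163867) (nat_lit 2) (.e (nat_lit 196677) (nat_lit 16) (.e (nat_lit 122970) (nat_lit 48) (.e (nat_lit 720941) (nat_lit 22) .nil)))))))) (.g (nat_lit 4) .nil .nil))) 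
(.lf (nat_lit 217647) (.g (nat_lit 3267) (.e (nat_lit 90172) (nat_lit 14) (.e (nat_lit 180244) (nat_lit 5) (.e (nat_lit 532499) (nat_lit 1) (.e (nat_lit 57688) (nat_lit 156) (.e (nat_lit 163871) (nat_lit 2) (.e (nat_lit 196658) (nat_lit 12) (.e (nat_lit 57551) (nat_lit 48) (.e (nat_lit 720941) (nat_lit 22) .nil)))))))) (.g (nat_lit 4) .nil .nil)))) (.nd (nat_lit 5) 
(.lf (nat_lit 217631) (.g (nat_lit 3094) (.e (nat_lit 90172) (nat_lit 14) (.e (nat_lit 180244) (nat_lit 5) (.e (nat_lit 532499) (nat_lit 1) (.e (nat_lit 57688) (nat_lit 156) (.e (nat_lit 163869) (nat_lit 2) (.e (nat_lit 196660) (nat_lit 12) (.e (nat_lit 57550) (nat_lit 48) (.e (nat_lit 720939) (nat_lit 22) .nil)))))))) (.g (nat_lit 4) .nil .nil))) 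
(.lf (nat_lit 217663) (.g (nat_lit 3608) (.e (nat_lit 90172) (nat_lit 14) (.e (nat_lit 180244) (nat_lit 5) (.e (nat_lit 532499) (nat_lit 1) (.e (nat_lit 57688) (nat_lit 156) (.e (nat_lit 163873) (nat_lit 3) (.e (nat_lit 204815) (nat_lit 17) (.e (nat_lit 2202) (nat_lit 144) (.e (nat_lit 720941) (nat_lit 22) .nil)))))))) (.g (nat_lit 5) .nil .nil)))))))))

noncomputable def tv2860 : DT := (.nd (nat_lit 0) (.nd (nat_lit 1) (.nd (nat_lit 2) (.nd (nat_lit 3) (.nd (nat_lit 4) (.nd (nat_lit 5) 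
(.lf (nat_lit 217664) (.g (nat_lit 2892) (.e (nat_lit 90172) (nat_lit 14) (.e (nat_lit 180244) (nat_lit 5) (.e (nat_lit 532499) (nat_lit 1) (.e (nat_lit 57688) (nat_lit 156) (.e (nat_lit 163873) (nat_lit 3) (.e (nat_lit 204816) (nat_lit 17) (.e (nat_lit 2181) (nat_lit 144) (.e (nat_lit 720941) (nat_lit 22) .nil)))))))) (.g (nat_lit 4) .nil .nil))) 
(.lf (nat_lit 217696) (.g (nat_lit 3184) (.e (nat_lit 90172) (nat_lit 14) (.e (nat_lit 180244) (nat_lit 5) (.e (nat_lit 532499) (nat_lit 1) (.e (nat_lit 57691) (nat_lit 156) (.e (nat_lit 163869) (nat_lit 2) (.e (nat_lit 196658) (nat_lit 12) (.e (nat_lit 57550) (nat_lit 48) (.e (nat_lit 720938) (nat_lit 22) .nil)))))))) (.g (nat_lit 5) .nil .nil)))) (.nd (nat_lit 5) 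
(.lf (nat_lit 217680) (.g (nat_lit 4044) (.e (nat_lit 90172) (nat_lit 14) (.e (nat_lit 180244) (nat_lit 5) (.e (nat_lit 532499) (nat_lit 1) (.e (nat_lit 57688) (nat_lit 156) (.e (nat_lit 163874) (nat_lit 3) (.e (nat_lit 204817) (nat_lit 17) (.e (nat_lit 2203) (nat_lit 144) (.e (nat_lit 720941) (nat_lit 22) .nil)))))))) (.g (nat_lit 5) .nil .nil))) 
(.lf (nat_lit 217712) (.g (nat_lit 3064) (.e (nat_lit 90172) (nat_lit 14) (.e (nat_lit 180244) (nat_lit 5) (.e (nat_lit 532499) (nat_lit 1) (.e (nat_lit 57691) (nat_lit 156) (.e (nat_lit 163869) (nat_lit 2) (.e (nat_lit 196677) (nat_lit 16) (.e (nat_lit 122970) (nat_lit 48) (.e (nat_lit 720938) (nat_lit 22) .nil)))))))) (.g (nat_lit 5) .nil .nil))))) (.nd (nat_lit 4) (.nd (nat_lit 5) 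
(.lf (nat_lit 217672) (.g (nat_lit 3478) (.e (nat_lit 90172) (nat_lit 14) (.e (nat_lit 180244) (nat_lit 5) (.e (nat_lit 532499) (nat_lit 1) (.e (nat_lit 57688) (nat_lit 156) (.e (nat_lit 163873) (nat_lit 3) (.e (nat_lit 204836) (nat_lit 20) (.e (nat_lit 114716) (nat_lit 22) .nil))))))) (.g (nat_lit 5) .nil .nil))) 
(.lf (nat_lit 217704) (.g (nat_lit 2412) (.e (nat_lit 90172) (nat_lit 14) (.e (nat_lit 180244) (nat_lit 5) (.e (nat_lit 532499) (nat_lit 1) (.e (nat_lit 57691) (nat_lit 156) (.e (nat_lit 163869) (nat_lit 2) (.e (nat_lit 196660) (nat_lit 12) (.e (nat_lit 57549) (nat_lit 48) (.e (nat_lit 720938) (nat_lit 22) .nil)))))))) (.g (nat_lit 4) .nil .nil)))) (.nd (nat_lit 5) 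
(.lf (nat_lit 217688) (.g (nat_lit 1832) (.e (nat_lit 90172) (nat_lit 14) (.e (nat_lit 180244) (nat_lit 5) (.e (nat_lit 532499) (nat_lit 1) (.e (nat_lit 57689) (nat_lit 156) .nil)))) .nil)) 
(.lf (nat_lit 217720) (.g (nat_lit 3390) (.e (nat_lit 90172) (nat_lit 14) (.e (nat_lit 180244) (nat_lit 5) (.e (nat_lit 532499) (nat_lit 1) (.e (nat_lit 57691) (nat_lit 156) (.e (nat_lit 163871) (nat_lit 2) (.e (nat_lit 196658) (nat_lit 12) (.e (nat_lit 57551) (nat_lit 48) (.e (nat_lit 720941) (nat_lit 22) .nil)))))))) (.g (nat_lit 5) .nil .nil)))))) 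
(.nd (nat_lit 3) (.nd (nat_lit 4) (.nd (nat_lit 5) 
(.lf (nat_lit 217668) (.g (nat_lit 2567) (.e (nat_lit 90172) (nat_lit 14) (.e (nat_lit 180244) (nat_lit 5) (.e (nat_lit 532499) (nat_lit 1) (.e (nat_lit 57688) (nat_lit 156) (.e (nat_lit 163873) (nat_lit 3) (.e (nat_lit 204818) (nat_lit 17) (.e (nat_lit 2193) (nat_lit 144) (.e (nat_lit 720941) (nat_lit 22) .nil)))))))) (.g (nat_lit 4) .nil .nil))) 
(.lf (nat_lit 217700) (.g (nat_lit 2252) (.e (nat_lit 90172) (nat_lit 14) (.e (nat_lit 180244) (nat_lit 5) (.e (nat_lit 532499) (nat_lit 1) (.e (nat_lit 57691) (nat_lit 156) (.e (nat_lit 163869) (nat_lit 2) (.e (nat_lit 196659) (nat_lit 12) (.e (nat_lit 57549) (nat_lit 48) (.e (nat_lit 720937) (nat_lit 22) .nil)))))))) (.g (nat_lit 4) .nil .nil)))) (.nd (nat_lit 5) 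
(.lf (nat_lit 217684) (.g (nat_lit 2483) (.e (nat_lit 90172) (nat_lit 14) (.e (nat_lit 180244) (nat_lit 5) (.e (nat_lit 532499) (nat_lit 1) (.e (nat_lit 57688) (nat_lit 156) (.e (nat_lit 163875) (nat_lit 3) .nil))))) .nil)) 
(.lf (nat_lit 217716) (.g (nat_lit 4002) (.e (nat_lit 90172) (nat_lit 14) (.e (nat_lit 180244) (nat_lit 5) (.e (nat_lit 532499) (nat_lit 1) (.e (nat_lit 57691) (nat_lit 156) (.e (nat_lit 163870) (nat_lit 2) (.e (nat_lit 196661) (nat_lit 12) (.e (nat_lit 57549) (nat_lit 48) (.e (nat_lit 720941) (nat_lit 22) .nil)))))))) (.g (nat_lit 6) .nil .nil))))) (.nd (nat_lit 4) (.nd (nat_lit 5) 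
(.lf (nat_lit 217676) (.g (nat_lit 4103) (.e (nat_lit 90172) (nat_lit 14) (.e (nat_lit 180244) (nat_lit 5) (.e (nat_lit 532499) (nat_lit 1) (.e (nat_lit 57688) (nat_lit 156) (.e (nat_lit 163874) (nat_lit 3) (.e (nat_lit 204815) (nat_lit 17) (.e (nat_lit 2203) (nat_lit 144) (.e (nat_lit 720938) (nat_lit 22) .nil)))))))) (.g (nat_lit 5) .nil .nil))) 
(.lf (nat_lit 217708) (.g (nat_lit 3630) (.e (nat_lit 90172) (nat_lit 14) (.e (nat_lit 180244) (nat_lit 5) (.e (nat_lit 532499) (nat_lit 1) (.e (nat_lit 57691) (nat_lit 156) (.e (nat_lit 163869) (nat_lit 2) (.e (nat_lit 196661) (nat_lit 12) (.e (nat_lit 57549) (nat_lit 48) (.e (nat_lit 720937) (nat_lit 22) .nil)))))))) (.g (nat_lit 5) .nil .nil)))) (.nd (nat_lit 5) 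
(.lf (nat_lit 217692) (.g (nat_lit 2456) (.e (nat_lit 90172) (nat_lit 14) (.e (nat_lit 180244) (nat_lit 5) (.e (nat_lit 532499) (nat_lit 1) (.e (nat_lit 57691) (nat_lit 156) (.e (nat_lit 163869) (nat_lit 2) (.e (nat_lit 196628) (nat_lit 9) (.e (nat_lit 968) (nat_lit 81) (.e (nat_lit 2203) (nat_lit 144) (.e (nat_lit 720938) (nat_lit 22) .nil))))))))) (.g (nat_lit 4) .nil .nil))) 
(.lf (nat_lit 217724) (.g (nat_lit 3557) (.e (nat_lit 90172) (nat_lit 14) (.e (nat_lit 180244) (nat_lit 5) (.e (nat_lit 532499) (nat_lit 1) (.e (nat_lit 57691) (nat_lit 156) (.e (nat_lit 163871) (nat_lit 2) (.e (nat_lit 196677) (nat_lit 16) (.e (nat_lit 122969) (nat_lit 48) (.e (nat_lit 720939) (nat_lit 22) .nil)))))))) (.g (nat_lit 5) .nil .nil))))))) 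
(.nd (nat_lit 2) (.nd (nat_lit 3) (.nd (nat_lit 4) (.nd (nat_lit 5) 
(.lf (nat_lit 217666) (.g (nat_lit 2786) (.e (nat_lit 90172) (nat_lit 14) (.e (nat_lit 180244) (nat_lit 5) (.e (nat_lit 532499) (nat_lit 1) (.e (nat_lit 57688) (nat_lit 156) (.e (nat_lit 163873) (nat_lit 3) (.e (nat_lit 204817) (nat_lit 17) (.e (nat_lit 2203) (nat_lit 144) (.e (nat_lit 720938) (nat_lit 22) .nil)))))))) (.g (nat_lit 4) .nil .nil))) 
(.lf (nat_lit 217698) (.g (nat_lit 3171) (.e (nat_lit 90172) (nat_lit 14) (.e (nat_lit 180244) (nat_lit 5) (.e (nat_lit 532499) (nat_lit 1) (.e (nat_lit 57691) (nat_lit 156) (.e (nat_lit 163869) (nat_lit 2) (.e (nat_lit 196658) (nat_lit 12) (.e (nat_lit 57551) (nat_lit 48) (.e (nat_lit 720938) (nat_lit 22) .nil)))))))) (.g (nat_lit 5) .nil .nil)))) (.nd (nat_lit 5) 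
(.lf (nat_lit 217682) (.g (nat_lit 3120) (.e (nat_lit 90172) (nat_lit 14) (.e (nat_lit 180244) (nat_lit 5) (.e (nat_lit 532499) (nat_lit 1) (.e (nat_lit 57688) (nat_lit 156) (.e (nat_lit 163874) (nat_lit 3) (.e (nat_lit 204818) (nat_lit 17) (.e (nat_lit 2202) (nat_lit 144) (.e (nat_lit 720937) (nat_lit 22) .nil)))))))) (.g (nat_lit 4) .nil .nil))) 
(.lf (nat_lit 217714) (.g (nat_lit 1754) (.e (nat_lit 90172) (nat_lit 14) (.e (nat_lit 180244) (nat_lit 5) (.e (nat_lit 532499) (nat_lit 1) (.e (nat_lit 57691) (nat_lit 156) (.e (nat_lit 163870) (nat_lit 2) .nil))))) .nil)))) (.nd (nat_lit 4) (.nd (nat_lit 5) 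
(.lf (nat_lit 217674) (.g (nat_lit 4240) (.e (nat_lit 90172) (nat_lit 14) (.e (nat_lit 180244) (nat_lit 5) (.e (nat_lit 532499) (nat_lit 1) (.e (nat_lit 57688) (nat_lit 156) (.e (nat_lit 163874) (nat_lit 3) (.e (nat_lit 204815) (nat_lit 17) (.e (nat_lit 2198) (nat_lit 144) (.e (nat_lit 720941) (nat_lit 22) .nil)))))))) (.g (nat_lit 5) .nil .nil))) 
(.lf (nat_lit 217706) (.g (nat_lit 3414) (.e (nat_lit 90172) (nat_lit 14) (.e (nat_lit 180244) (nat_lit 5) (.e (nat_lit 532499) (nat_lit 1) (.e (nat_lit 57691) (nat_lit 156) (.e (nat_lit 163869) (nat_lit 2) (.e (nat_lit 196660) (nat_lit 12) (.e (nat_lit 57550) (nat_lit 48) (.e (nat_lit 720938) (nat_lit 22) .nil)))))))) (.g (nat_lit 5) .nil .nil)))) (.nd (nat_lit 5) 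
(.lf (nat_lit 217690) (.g (nat_lit 1139) (.e (nat_lit 90172) (nat_lit 14) (.e (nat_lit 180244) (nat_lit 5) (.e (nat_lit 532499) (nat_lit 1) (.e (nat_lit 57691) (nat_lit 156) .nil)))) .nil)) 
(.lf (nat_lit 217722) (.g (nat_lit 3101) (.e (nat_lit 90172) (nat_lit 14) (.e (nat_lit 180244) (nat_lit 5) (.e (nat_lit 532499) (nat_lit 1) (.e (nat_lit 57691) (nat_lit 156) (.e (nat_lit 163871) (nat_lit 2) (.e (nat_lit 196660) (nat_lit 12) (.e (nat_lit 57549) (nat_lit 48) (.e (nat_lit 720937) (nat_lit 22) .nil)))))))) (.g (nat_lit 5) .nil .nil)))))) 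
(.nd (nat_lit 3) (.nd (nat_lit 4) (.nd (nat_lit 5) 
(.lf (nat_lit 217670) (.g (nat_lit 2604) (.e (nat_lit 90172) (nat_lit 14) (.e (nat_lit 180244) (nat_lit 5) (.e (nat_lit 532499) (nat_lit 1) (.e (nat_lit 57688) (nat_lit 156) (.e (nat_lit 163873) (nat_lit 3) (.e (nat_lit 204818) (nat_lit 17) (.e (nat_lit 2202) (nat_lit 144) (.e (nat_lit 720937) (nat_lit 22) .nil)))))))) (.g (nat_lit 4) .nil .nil))) 
(.lf (nat_lit 217702) (.g (nat_lit 3450) (.e (nat_lit 90172) (nat_lit 14) (.e (nat_lit 180244) (nat_lit 5) (.e (nat_lit 532499) (nat_lit 1) (.e (nat_lit 57691) (nat_lit 156) (.e (nat_lit 163869) (nat_lit 2) (.e (nat_lit 196659) (nat_lit 12) (.e (nat_lit 57550) (nat_lit 48) (.e (nat_lit 720938) (nat_lit 22) .nil)))))))) (.g (nat_lit 5) .nil .nil)))) (.nd (nat_lit 5) 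
(.lf (nat_lit 217686) (.g (nat_lit 4116) (.e (nat_lit 90172) (nat_lit 14) (.e (nat_lit 180244) (nat_lit 5) (.e (nat_lit 532499) (nat_lit 1) (.e (nat_lit 57688) (nat_lit 156) (.e (nat_lit 163875) (nat_lit 3) (.e (nat_lit 204817) (nat_lit 17) (.e (nat_lit 2198) (nat_lit 144) (.e (nat_lit 720941) (nat_lit 22) .nil)))))))) (.g (nat_lit 5) .nil .nil))) 
(.lf (nat_lit 217718) (.g (nat_lit 2323) (.e (nat_lit 90172) (nat_lit 14) (.e (nat_lit 180244) (nat_lit 5) (.e (nat_lit 532499) (nat_lit 1) (.e (nat_lit 57691) (nat_lit 156) (.e (nat_lit 163871) (nat_lit 2) (.e (nat_lit 196658) (nat_lit 12) (.e (nat_lit 57549) (nat_lit 48) (.e (nat_lit 720937) (nat_lit 22) .nil)))))))) (.g (nat_lit 4) .nil .nil))))) (.nd (nat_lit 4) (.nd (nat_lit 5) 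
(.lf (nat_lit 217678) (.g (nat_lit 3007) (.e (nat_lit 90172) (nat_lit 14) (.e (nat_lit 180244) (nat_lit 5) (.e (nat_lit 532499) (nat_lit 1) (.e (nat_lit 57688) (nat_lit 156) (.e (nat_lit 163874) (nat_lit 3) (.e (nat_lit 204817) (nat_lit 17) (.e (nat_lit 2198) (nat_lit 144) (.e (nat_lit 720938) (nat_lit 22) .nil)))))))) (.g (nat_lit 4) .nil .nil))) 
(.lf (nat_lit 217710) (.g (nat_lit 3625) (.e (nat_lit 90172) (nat_lit 14) (.e (nat_lit 180244) (nat_lit 5) (.e (nat_lit 532499) (nat_lit 1) (.e (nat_lit 57691) (nat_lit 156) (.e (nat_lit 163869) (nat_lit 2) (.e (nat_lit 196661) (nat_lit 12) (.e (nat_lit 57549) (nat_lit 48) (.e (nat_lit 720941) (nat_lit 22) .nil)))))))) (.g (nat_lit 5) .nil .nil)))) (.nd (nat_lit 5) 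
(.lf (nat_lit 217694) (.g (nat_lit 2519) (.e (nat_lit 90172) (nat_lit 14) (.e (nat_lit 180244) (nat_lit 5) (.e (nat_lit 532499) (nat_lit 1) (.e (nat_lit 57691) (nat_lit 156) (.e (nat_lit 163869) (nat_lit 2) (.e (nat_lit 196658) (nat_lit 12) (.e (nat_lit 57549) (nat_lit 48) (.e (nat_lit 720941) (nat_lit 22) .nil)))))))) (.g (nat_lit 4) .nil .nil))) 
(.lf (nat_lit 217726) (.g (nat_lit 3386) (.e (nat_lit 90172) (nat_lit 14) (.e (nat_lit 180244) (nat_lit 5) (.e (nat_lit 532499) (nat_lit 1) (.e (nat_lit 57691) (nat_lit 156) (.e (nat_lit 163871) (nat_lit 2) (.e (nat_lit 196677) (nat_lit 16) (.e (nat_lit 130816) (nat_lit 48) (.e (nat_lit 720937) (nat_lit 22) .nil)))))))) (.g (nat_lit 5) .nil .nil)))))))) 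
(.nd (nat_lit 1) (.nd (nat_lit 2) (.nd (nat_lit 3) (.nd (nat_lit 4) (.nd (nat_lit 5) 
(.lf (nat_lit 217665) (.g (nat_lit 2734) (.e (nat_lit 90172) (nat_lit 14) (.e (nat_lit 180244) (nat_lit 5) (.e (nat_lit 532499) (nat_lit 1) (.e (nat_lit 57688) (nat_lit 156) (.e (nat_lit 163873) (nat_lit 3) (.e (nat_lit 204817) (nat_lit 17) (.e (nat_lit 2198) (nat_lit 144) (.e (nat_lit 720938) (nat_lit 22) .nil)))))))) (.g (nat_lit 4) .nil .nil))) 
(.lf (nat_lit 217697) (.g (nat_lit 3138) (.e (nat_lit 90172) (nat_lit 14) (.e (nat_lit 180244) (nat_lit 5) (.e (nat_lit 532499) (nat_lit 1) (.e (nat_lit 57691) (nat_lit 156) (.e (nat_lit 163869) (nat_lit 2) (.e (nat_lit 196658) (nat_lit 12) (.e (nat_lit 57550) (nat_lit 48) (.e (nat_lit 720941) (nat_lit 22) .nil)))))))) (.g (nat_lit 5) .nil .nil)))) (.nd (nat_lit 5) 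
(.lf (nat_lit 217681) (.g (nat_lit 3083) (.e (nat_lit 90172) (nat_lit 14) (.e (nat_lit 180244) (nat_lit 5) (.e (nat_lit 532499) (nat_lit 1) (.e (nat_lit 57688) (nat_lit 156) (.e (nat_lit 163874) (nat_lit 3) (.e (nat_lit 204818) (nat_lit 17) (.e (nat_lit 2193) (nat_lit 144) (.e (nat_lit 720941) (nat_lit 22) .nil)))))))) (.g (nat_lit 4) .nil .nil))) 
(.lf (nat_lit 217713) (.g (nat_lit 2338) (.e (nat_lit 90172) (nat_lit 14) (.e (nat_lit 180244) (nat_lit 5) (.e (nat_lit 532499) (nat_lit 1) (.e (nat_lit 57691) (nat_lit 156) (.e (nat_lit 163869) (nat_lit 2) (.e (nat_lit 196678) (nat_lit 16) (.e (nat_lit 122971) (nat_lit 48) (.e (nat_lit 720937) (nat_lit 22) .nil)))))))) (.g (nat_lit 4) .nil .nil))))) (.nd (nat_lit 4) (.nd (nat_lit 5) 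
(.lf (nat_lit 217673) (.g (nat_lit 2525) (.e (nat_lit 90172) (nat_lit 14) (.e (nat_lit 180244) (nat_lit 5) (.e (nat_lit 532499) (nat_lit 1) (.e (nat_lit 57688) (nat_lit 156) (.e (nat_lit 163874) (nat_lit 3) .nil))))) .nil)) 
(.lf (nat_lit 217705) (.g (nat_lit 3375) (.e (nat_lit 90172) (nat_lit 14) (.e (nat_lit 180244) (nat_lit 5) (.e (nat_lit 532499) (nat_lit 1) (.e (nat_lit 57691) (nat_lit 156) (.e (nat_lit 163869) (nat_lit 2) (.e (nat_lit 196660) (nat_lit 12) (.e (nat_lit 57550) (nat_lit 48) (.e (nat_lit 720937) (nat_lit 22) .nil)))))))) (.g (nat_lit 5) .nil .nil)))) (.nd (nat_lit 5) 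
(.lf (nat_lit 217689) (.g (nat_lit 1832) (.e (nat_lit 90172) (nat_lit 14) (.e (nat_lit 180244) (nat_lit 5) (.e (nat_lit 532499) (nat_lit 1) (.e (nat_lit 57690) (nat_lit 156) .nil)))) .nil)) 
(.lf (nat_lit 217721) (.g (nat_lit 2291) (.e (nat_lit 90172) (nat_lit 14) (.e (nat_lit 180244) (nat_lit 5) (.e (nat_lit 532499) (nat_lit 1) (.e (nat_lit 57691) (nat_lit 156) (.e (nat_lit 163871) (nat_lit 2) (.e (nat_lit 196659) (nat_lit 12) (.e (nat_lit 57550) (nat_lit 48) (.e (nat_lit 720939) (nat_lit 22) .nil)))))))) (.g (nat_lit 4) .nil .nil)))))) 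
(.nd (nat_lit 3) (.nd (nat_lit 4) (.nd (nat_lit 5) 
(.lf (nat_lit 217669) (.g (nat_lit 2860) (.e (nat_lit 90172) (nat_lit 14) (.e (nat_lit 180244) (nat_lit 5) (.e (nat_lit 532499) (nat_lit 1) (.e (nat_lit 57688) (nat_lit 156) (.e (nat_lit 163873) (nat_lit 3) (.e (nat_lit 204818) (nat_lit 17) (.e (nat_lit 2200) (nat_lit 144) (.e (nat_lit 720941) (nat_lit 22) .nil)))))))) (.g (nat_lit 4) .nil .nil))) 
(.lf (nat_lit 217701) (.g (nat_lit 3366) (.e (nat_lit 90172) (nat_lit 14) (.e (nat_lit 180244) (nat_lit 5) (.e (nat_lit 532499) (nat_lit 1) (.e (nat_lit 57691) (nat_lit 156) (.e (nat_lit 163869) (nat_lit 2) (.e (nat_lit 196659) (nat_lit 12) (.e (nat_lit 57550) (nat_lit 48) (.e (nat_lit 720937) (nat_lit 22) .nil)))))))) (.g (nat_lit 5) .nil .nil)))) (.nd (nat_lit 5) 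
(.lf (nat_lit 217685) (.g (nat_lit 2669) (.e (nat_lit 90172) (nat_lit 14) (.e (nat_lit 180244) (nat_lit 5) (.e (nat_lit 532499) (nat_lit 1) (.e (nat_lit 57688) (nat_lit 156) (.e (nat_lit 163875) (nat_lit 3) (.e (nat_lit 204815) (nat_lit 17) (.e (nat_lit 2203) (nat_lit 144) (.e (nat_lit 720941) (nat_lit 22) .nil)))))))) (.g (nat_lit 4) .nil .nil))) 
(.lf (nat_lit 217717) (.g (nat_lit 1877) (.e (nat_lit 90172) (nat_lit 14) (.e (nat_lit 180244) (nat_lit 5) (.e (nat_lit 532499) (nat_lit 1) (.e (nat_lit 57691) (nat_lit 156) (.e (nat_lit 163871) (nat_lit 2) .nil))))) .nil)))) (.nd (nat_lit 4) (.nd (nat_lit 5) 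
(.lf (nat_lit 217677) (.g (nat_lit 5004) (.e (nat_lit 90172) (nat_lit 14) (.e (nat_lit 180244) (nat_lit 5) (.e (nat_lit 532499) (nat_lit 1) (.e (nat_lit 57688) (nat_lit 156) (.e (nat_lit 163874) (nat_lit 3) (.e (nat_lit 204815) (nat_lit 17) (.e (nat_lit 2203) (nat_lit 144) (.e (nat_lit 720941) (nat_lit 22) .nil)))))))) (.g (nat_lit 6) .nil .nil))) 
(.lf (nat_lit 217709) (.g (nat_lit 3399) (.e (nat_lit 90172) (nat_lit 14) (.e (nat_lit 180244) (nat_lit 5) (.e (nat_lit 532499) (nat_lit 1) (.e (nat_lit 57691) (nat_lit 156) (.e (nat_lit 163869) (nat_lit 2) (.e (nat_lit 196661) (nat_lit 12) (.e (nat_lit 57549) (nat_lit 48) (.e (nat_lit 720938) (nat_lit 22) .nil)))))))) (.g (nat_lit 5) .nil .nil)))) (.nd (nat_lit 5) 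
(.lf (nat_lit 217693) (.g (nat_lit 3357) (.e (nat_lit 90172) (nat_lit 14) (.e (nat_lit 180244) (nat_lit 5) (.e (nat_lit 532499) (nat_lit 1) (.e (nat_lit 57691) (nat_lit 156) (.e (nat_lit 163869) (nat_lit 2) (.e (nat_lit 196628) (nat_lit 9) (.e (nat_lit 968) (nat_lit 81) (.e (nat_lit 2203) (nat_lit 144) (.e (nat_lit 720941) (nat_lit 22) .nil))))))))) (.g (nat_lit 5) .nil .nil))) 
(.lf (nat_lit 217725) (.g (nat_lit 2588) (.e (nat_lit 90172) (nat_lit 14) (.e (nat_lit 180244) (nat_lit 5) (.e (nat_lit 532499) (nat_lit 1) (.e (nat_lit 57691) (nat_lit 156) (.e (nat_lit 163871) (nat_lit 2) (.e (nat_lit 196677) (nat_lit 16) (.e (nat_lit 122970) (nat_lit 48) (.e (nat_lit 720939) (nat_lit 22) .nil)))))))) (.g (nat_lit 4) .nil .nil))))))) 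
(.nd (nat_lit 2) (.nd (nat_lit 3) (.nd (nat_lit 4) (.nd (nat_lit 5) 
(.lf (nat_lit 217667) (.g (nat_lit 3687) (.e (nat_lit 90172) (nat_lit 14) (.e (nat_lit 180244) (nat_lit 5) (.e (nat_lit 532499) (nat_lit 1) (.e (nat_lit 57688) (nat_lit 156) (.e (nat_lit 163873) (nat_lit 3) (.e (nat_lit 204817) (nat_lit 17) (.e (nat_lit 2203) (nat_lit 144) (.e (nat_lit 720941) (nat_lit 22) .nil)))))))) (.g (nat_lit 5) .nil .nil))) 
(.lf (nat_lit 217699) (.g (nat_lit 3580) (.e (nat_lit 90172) (nat_lit 14) (.e (nat_lit 180244) (nat_lit 5) (.e (nat_lit 532499) (nat_lit 1) (.e (nat_lit 57691) (nat_lit 156) (.e (nat_lit 163869) (nat_lit 2) (.e (nat_lit 196658) (nat_lit 12) (.e (nat_lit 57551) (nat_lit 48) (.e (nat_lit 720941) (nat_lit 22) .nil)))))))) (.g (nat_lit 5) .nil .nil)))) (.nd (nat_lit 5) 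
(.lf (nat_lit 217683) (.g (nat_lit 3136) (.e (nat_lit 90172) (nat_lit 14) (.e (nat_lit 180244) (nat_lit 5) (.e (nat_lit 532499) (nat_lit 1) (.e (nat_lit 57688) (nat_lit 156) (.e (nat_lit 163874) (nat_lit 3) (.e (nat_lit 204822) (nat_lit 17) (.e (nat_lit 2201) (nat_lit 144) (.e (nat_lit 720941) (nat_lit 22) .nil)))))))) (.g (nat_lit 4) .nil .nil))) 
(.lf (nat_lit 217715) (.g (nat_lit 2409) (.e (nat_lit 90172) (nat_lit 14) (.e (nat_lit 180244) (nat_lit 5) (.e (nat_lit 532499) (nat_lit 1) (.e (nat_lit 57691) (nat_lit 156) (.e (nat_lit 163870) (nat_lit 2) (.e (nat_lit 196661) (nat_lit 12) (.e (nat_lit 57549) (nat_lit 48) (.e (nat_lit 720939) (nat_lit 22) .nil)))))))) (.g (nat_lit 4) .nil .nil))))) (.nd (nat_lit 4) (.nd (nat_lit 5) 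
(.lf (nat_lit 217675) (.g (nat_lit 3122) (.e (nat_lit 90172) (nat_lit 14) (.e (nat_lit 180244) (nat_lit 5) (.e (nat_lit 532499) (nat_lit 1) (.e (nat_lit 57688) (nat_lit 156) (.e (nat_lit 163874) (nat_lit 3) (.e (nat_lit 204815) (nat_lit 17) (.e (nat_lit 2202) (nat_lit 144) (.e (nat_lit 720938) (nat_lit 22) .nil)))))))) (.g (nat_lit 4) .nil .nil))) 
(.lf (nat_lit 217707) (.g (nat_lit 3378) (.e (nat_lit 90172) (nat_lit 14) (.e (nat_lit 180244) (nat_lit 5) (.e (nat_lit 532499) (nat_lit 1) (.e (nat_lit 57691) (nat_lit 156) (.e (nat_lit 163869) (nat_lit 2) (.e (nat_lit 196660) (nat_lit 12) (.e (nat_lit 57550) (nat_lit 48) (.e (nat_lit 720941) (nat_lit 22) .nil)))))))) (.g (nat_lit 5) .nil .nil)))) (.nd (nat_lit 5) 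
(.lf (nat_lit 217691) (.g (nat_lit 1754) (.e (nat_lit 90172) (nat_lit 14) (.e (nat_lit 180244) (nat_lit 5) (.e (nat_lit 532499) (nat_lit 1) (.e (nat_lit 57691) (nat_lit 156) (.e (nat_lit 163869) (nat_lit 2) .nil))))) .nil)) 
(.lf (nat_lit 217723) (.g (nat_lit 3467) (.e (nat_lit 90172) (nat_lit 14) (.e (nat_lit 180244) (nat_lit 5) (.e (nat_lit 532499) (nat_lit 1) (.e (nat_lit 57691) (nat_lit 156) (.e (nat_lit 163871) (nat_lit 2) (.e (nat_lit 196660) (nat_lit 12) (.e (nat_lit 57550) (nat_lit 48) (.e (nat_lit 720939) (nat_lit 22) .nil)))))))) (.g (nat_lit 5) .nil .nil)))))) 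
(.nd (nat_lit 3) (.nd (nat_lit 4) (.nd (nat_lit 5) 
(.lf (nat_lit 217671) (.g (nat_lit 3037) (.e (nat_lit 90172) (nat_lit 14) (.e (nat_lit 180244) (nat_lit 5) (.e (nat_lit 532499) (nat_lit 1) (.e (nat_lit 57688) (nat_lit 156) (.e (nat_lit 163873) (nat_lit 3) (.e (nat_lit 204818) (nat_lit 17) (.e (nat_lit 2202) (nat_lit 144) (.e (nat_lit 720938) (nat_lit 22) .nil)))))))) (.g (nat_lit 4) .nil .nil))) 
(.lf (nat_lit 217703) (.g (nat_lit 3406) (.e (nat_lit 90172) (nat_lit 14) (.e (nat_lit 180244) (nat_lit 5) (.e (nat_lit 532499) (nat_lit 1) (.e (nat_lit 57691) (nat_lit 156) (.e (nat_lit 163869) (nat_lit 2) (.e (nat_lit 196659) (nat_lit 12) (.e (nat_lit 57550) (nat_lit 48) (.e (nat_lit 720941) (nat_lit 22) .nil)))))))) (.g (nat_lit 5) .nil .nil)))) (.nd (nat_lit 5) 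
(.lf (nat_lit 217687) (.g (nat_lit 2837) (.e (nat_lit 90172) (nat_lit 14) (.e (nat_lit 180244) (nat_lit 5) (.e (nat_lit 532499) (nat_lit 1) (.e (nat_lit 57688) (nat_lit 156) (.e (nat_lit 163875) (nat_lit 3) (.e (nat_lit 204817) (nat_lit 17) (.e (nat_lit 2203) (nat_lit 144) (.e (nat_lit 720941) (nat_lit 22) .nil)))))))) (.g (nat_lit 4) .nil .nil))) 
(.lf (nat_lit 217719) (.g (nat_lit 2427) (.e (nat_lit 90172) (nat_lit 14) (.e (nat_lit 180244) (nat_lit 5) (.e (nat_lit 532499) (nat_lit 1) (.e (nat_lit 57691) (nat_lit 156) (.e (nat_lit 163871) (nat_lit 2) (.e (nat_lit 196658) (nat_lit 12) (.e (nat_lit 57550) (nat_lit 48) (.e (nat_lit 720939) (nat_lit 22) .nil)))))))) (.g (nat_lit 4) .nil .nil))))) (.nd (nat_lit 4) (.nd (nat_lit 5) 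
(.lf (nat_lit 217679) (.g (nat_lit 3143) (.e (nat_lit 90172) (nat_lit 14) (.e (nat_lit 180244) (nat_lit 5) (.e (nat_lit 532499) (nat_lit 1) (.e (nat_lit 57688) (nat_lit 156) (.e (nat_lit 163874) (nat_lit 3) (.e (nat_lit 204817) (nat_lit 17) (.e (nat_lit 2203) (nat_lit 144) (.e (nat_lit 720938) (nat_lit 22) .nil)))))))) (.g (nat_lit 4) .nil .nil))) 
(.lf (nat_lit 217711) (.g (nat_lit 3237) (.e (nat_lit 90172) (nat_lit 14) (.e (nat_lit 180244) (nat_lit 5) (.e (nat_lit 532499) (nat_lit 1) (.e (nat_lit 57691) (nat_lit 156) (.e (nat_lit 163869) (nat_lit 2) (.e (nat_lit 196677) (nat_lit 16) (.e (nat_lit 122970) (nat_lit 48) (.e (nat_lit 720937) (nat_lit 22) .nil)))))))) (.g (nat_lit 5) .nil .nil)))) (.nd (nat_lit 5) 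
(.lf (nat_lit 217695) (.g (nat_lit 3101) (.e (nat_lit 90172) (nat_lit 14) (.e (nat_lit 180244) (nat_lit 5) (.e (nat_lit 532499) (nat_lit 1) (.e (nat_lit 57691) (nat_lit 156) (.e (nat_lit 163869) (nat_lit 2) (.e (nat_lit 196658) (nat_lit 12) (.e (nat_lit 57550) (nat_lit 48) (.e (nat_lit 720937) (nat_lit 22) .nil)))))))) (.g (nat_lit 5) .nil .nil))) 
(.lf (nat_lit 217727) (.g (nat_lit 3165) (.e (nat_lit 90172) (nat_lit 14) (.e (nat_lit 180244) (nat_lit 5) (.e (nat_lit 532499) (nat_lit 1) (.e (nat_lit 57691) (nat_lit 156) (.e (nat_lit 163874) (nat_lit 3) (.e (nat_lit 204815) (nat_lit 17) (.e (nat_lit 2198) (nat_lit 144) (.e (nat_lit 720941) (nat_lit 22) .nil)))))))) (.g (nat_lit 5) .nil .nil)))))))))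

noncomputable def tv2861 : DT := (.nd (nat_lit 0) (.nd (nat_lit 1) (.nd (nat_lit 2) (.nd (nat_lit 3) (.nd (nat_lit 4) (.nd (nat_lit 5) 
(.lf (nat_lit 217728) (.g (nat_lit 3028) (.e (nat_lit 90172) (nat_lit 14) (.e (nat_lit 180244) (nat_lit 5) (.e (nat_lit 532499) (nat_lit 1) (.e (nat_lit 57691) (nat_lit 156) (.e (nat_lit 163874) (nat_lit 3) (.e (nat_lit 204815) (nat_lit 17) (.e (nat_lit 2203) (nat_lit 144) (.e (nat_lit 720938) (nat_lit 22) .nil)))))))) (.g (nat_lit 5) .nil .nil))) 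
(.lf (nat_lit 217760) (.g (nat_lit 3311) (.e (nat_lit 90172) (nat_lit 14) (.e (nat_lit 180244) (nat_lit 5) (.e (nat_lit 532499) (nat_lit 1) (.e (nat_lit 57692) (nat_lit 156) (.e (nat_lit 163869) (nat_lit 2) (.e (nat_lit 196658) (nat_lit 12) (.e (nat_lit 57549) (nat_lit 48) (.e (nat_lit 720938) (nat_lit 22) .nil)))))))) (.g (nat_lit 5) .nil .nil)))) (.nd (nat_lit 5) 
(.lf (nat_lit 217744) (.g (nat_lit 3343) (.e (nat_lit 90172) (nat_lit 14) (.e (nat_lit 180244) (nat_lit 5) (.e (nat_lit 532499) (nat_lit 1) (.e (nat_lit 57691) (nat_lit 156) (.e (nat_lit 163875) (nat_lit 3) (.e (nat_lit 204818) (nat_lit 17) (.e (nat_lit 2202) (nat_lit 144) (.e (nat_lit 720937) (nat_lit 22) .nil)))))))) (.g (nat_lit 5) .nil .nil))) 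
(.lf (nat_lit 217776) (.g (nat_lit 2142) (.e (nat_lit 90172) (nat_lit 14) (.e (nat_lit 180244) (nat_lit 5) (.e (nat_lit 532499) (nat_lit 1) (.e (nat_lit 57692) (nat_lit 156) (.e (nat_lit 163871) (nat_lit 2) .nil))))) .nil)))) (.nd (nat_lit 4) (.nd (nat_lit 5) 
(.lf (nat_lit 217736) (.g (nat_lit 3562) (.e (nat_lit 90172) (nat_lit 14) (.e (nat_lit 180244) (nat_lit 5) (.e (nat_lit 532499) (nat_lit 1) (.e (nat_lit 57691) (nat_lit 156) (.e (nat_lit 163875) (nat_lit 3) (.e (nat_lit 204815) (nat_lit 17) (.e (nat_lit 2193) (nat_lit 144) (.e (nat_lit 720941) (nat_lit 22) .nil)))))))) (.g (nat_lit 5) .nil .nil))) 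
(.lf (nat_lit 217768) (.g (nat_lit 2732) (.e (nat_lit 90172) (nat_lit 14) (.e (nat_lit 180244) (nat_lit 5) (.e (nat_lit 532499) (nat_lit 1) (.e (nat_lit 57692) (nat_lit 156) (.e (nat_lit 163869) (nat_lit 2) (.e (nat_lit 196676) (nat_lit 16) (.e (nat_lit 122971) (nat_lit 48) (.e (nat_lit 720937) (nat_lit 22) .nil)))))))) (.g (nat_lit 4) .nil .nil)))) (.nd (nat_lit 5) 
(.lf (nat_lit 217752) (.g (nat_lit 2417) (.e (nat_lit 90172) (nat_lit 14) (.e (nat_lit 180244) (nat_lit 5) (.e (nat_lit 532499) (nat_lit 1) (.e (nat_lit 57691) (nat_lit 156) (.e (nat_lit 163875) (nat_lit 3) (.e (nat_lit 204825) (nat_lit 17) (.e (nat_lit 2205) (nat_lit 144) (.e (nat_lit 720937) (nat_lit 22) .nil)))))))) (.g (nat_lit 4) .nil .nil))) 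
(.lf (nat_lit 217784) (.g (nat_lit 4022) (.e (nat_lit 90172) (nat_lit 14) (.e (nat_lit 180244) (nat_lit 5) (.e (nat_lit 532499) (nat_lit 1) (.e (nat_lit 57692) (nat_lit 156) (.e (nat_lit 163871) (nat_lit 2) (.e (nat_lit 196660) (nat_lit 12) (.e (nat_lit 57550) (nat_lit 48) (.e (nat_lit 720941) (nat_lit 22) .nil)))))))) (.g (nat_lit 5) .nil .nil)))))) 
(.nd (nat_lit 3) (.nd (nat_lit 4) (.nd (nat_lit 5) 
(.lf (nat_lit 217732) (.g (nat_lit 1673) (.e (nat_lit 90172) (nat_lit 14) (.e (nat_lit 180244) (nat_lit 5) (.e (nat_lit 532499) (nat_lit 1) (.e (nat_lit 57691) (nat_lit 156) (.e (nat_lit 163875) (nat_lit 3) .nil))))) .nil)) 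
(.lf (nat_lit 217764) (.g (nat_lit 3509) (.e (nat_lit 90172) (nat_lit 14) (.e (nat_lit 180244) (nat_lit 5) (.e (nat_lit 532499) (nat_lit 1) (.e (nat_lit 57692) (nat_lit 156) (.e (nat_lit 163869) (nat_lit 2) (.e (nat_lit 196660) (nat_lit 12) (.e (nat_lit 57549) (nat_lit 48) (.e (nat_lit 720937) (nat_lit 22) .nil)))))))) (.g (nat_lit 5) .nil .nil)))) (.nd (nat_lit 5) 
(.lf (nat_lit 217748) (.g (nat_lit 3564) (.e (nat_lit 90172) (nat_lit 14) (.e (nat_lit 180244) (nat_lit 5) (.e (nat_lit 532499) (nat_lit 1) (.e (nat_lit 57691) (nat_lit 156) (.e (nat_lit 163875) (nat_lit 3) (.e (nat_lit 204821) (nat_lit 17) (.e (nat_lit 7936) (nat_lit 144) (.e (nat_lit 720941) (nat_lit 22) .nil)))))))) (.g (nat_lit 5) .nil .nil))) 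
(.lf (nat_lit 217780) (.g (nat_lit 2905) (.e (nat_lit 90172) (nat_lit 14) (.e (nat_lit 180244) (nat_lit 5) (.e (nat_lit 532499) (nat_lit 1) (.e (nat_lit 57692) (nat_lit 156) (.e (nat_lit 163871) (nat_lit 2) (.e (nat_lit 196659) (nat_lit 12) (.e (nat_lit 57550) (nat_lit 48) (.e (nat_lit 720938) (nat_lit 22) .nil)))))))) (.g (nat_lit 4) .nil .nil))))) (.nd (nat_lit 4) (.nd (nat_lit 5) 
(.lf (nat_lit 217740) (.g (nat_lit 2409) (.e (nat_lit 90172) (nat_lit 14) (.e (nat_lit 180244) (nat_lit 5) (.e (nat_lit 532499) (nat_lit 1) (.e (nat_lit 57691) (nat_lit 156) (.e (nat_lit 163875) (nat_lit 3) (.e (nat_lit 204817) (nat_lit 17) (.e (nat_lit 2198) (nat_lit 144) (.e (nat_lit 720938) (nat_lit 22) .nil)))))))) (.g (nat_lit 4) .nil .nil))) 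
(.lf (nat_lit 217772) (.g (nat_lit 3450) (.e (nat_lit 90172) (nat_lit 14) (.e (nat_lit 180244) (nat_lit 5) (.e (nat_lit 532499) (nat_lit 1) (.e (nat_lit 57692) (nat_lit 156) (.e (nat_lit 163869) (nat_lit 2) (.e (nat_lit 196677) (nat_lit 16) (.e (nat_lit 130816) (nat_lit 48) (.e (nat_lit 720937) (nat_lit 22) .nil)))))))) (.g (nat_lit 5) .nil .nil)))) (.nd (nat_lit 5) 
(.lf (nat_lit 217756) (.g (nat_lit 1988) (.e (nat_lit 90172) (nat_lit 14) (.e (nat_lit 180244) (nat_lit 5) (.e (nat_lit 532499) (nat_lit 1) (.e (nat_lit 57692) (nat_lit 156) (.e (nat_lit 163869) (nat_lit 2) .nil))))) .nil)) 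
(.lf (nat_lit 217788) (.g (nat_lit 2770) (.e (nat_lit 90172) (nat_lit 14) (.e (nat_lit 180244) (nat_lit 5) (.e (nat_lit 532499) (nat_lit 1) (.e (nat_lit 57692) (nat_lit 156) (.e (nat_lit 163871) (nat_lit 2) (.e (nat_lit 196678) (nat_lit 16) (.e (nat_lit 122971) (nat_lit 48) (.e (nat_lit 720937) (nat_lit 22) .nil)))))))) (.g (nat_lit 4) .nil .nil))))))) 
(.nd (nat_lit 2) (.nd (nat_lit 3) (.nd (nat_lit 4) (.nd (nat_lit 5) 
(.lf (nat_lit 217730) (.g (nat_lit 2478) (.e (nat_lit 90172) (nat_lit 14) (.e (nat_lit 180244) (nat_lit 5) (.e (nat_lit 532499) (nat_lit 1) (.e (nat_lit 57691) (nat_lit 156) (.e (nat_lit 163874) (nat_lit 3) (.e (nat_lit 204818) (nat_lit 17) (.e (nat_lit 2202) (nat_lit 144) (.e (nat_lit 720938) (nat_lit 22) .nil)))))))) (.g (nat_lit 4) .nil .nil))) 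
(.lf (nat_lit 217762) (.g (nat_lit 3128) (.e (nat_lit 90172) (nat_lit 14) (.e (nat_lit 180244) (nat_lit 5) (.e (nat_lit 532499) (nat_lit 1) (.e (nat_lit 57692) (nat_lit 156) (.e (nat_lit 163869) (nat_lit 2) (.e (nat_lit 196659) (nat_lit 12) (.e (nat_lit 57549) (nat_lit 48) (.e (nat_lit 720937) (nat_lit 22) .nil)))))))) (.g (nat_lit 5) .nil .nil)))) (.nd (nat_lit 5) 
(.lf (nat_lit 217746) (.g (nat_lit 3995) (.e (nat_lit 90172) (nat_lit 14) (.e (nat_lit 180244) (nat_lit 5) (.e (nat_lit 532499) (nat_lit 1) (.e (nat_lit 57691) (nat_lit 156) (.e (nat_lit 163875) (nat_lit 3) (.e (nat_lit 204818) (nat_lit 17) (.e (nat_lit 2202) (nat_lit 144) (.e (nat_lit 720941) (nat_lit 22) .nil)))))))) (.g (nat_lit 5) .nil .nil))) 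
(.lf (nat_lit 217778) (.g (nat_lit 2707) (.e (nat_lit 90172) (nat_lit 14) (.e (nat_lit 180244) (nat_lit 5) (.e (nat_lit 532499) (nat_lit 1) (.e (nat_lit 57692) (nat_lit 156) (.e (nat_lit 163871) (nat_lit 2) (.e (nat_lit 196658) (nat_lit 12) (.e (nat_lit 57551) (nat_lit 48) (.e (nat_lit 720937) (nat_lit 22) .nil)))))))) (.g (nat_lit 4) .nil .nil))))) (.nd (nat_lit 4) (.nd (nat_lit 5) 
(.lf (nat_lit 217738) (.g (nat_lit 3326) (.e (nat_lit 90172) (nat_lit 14) (.e (nat_lit 180244) (nat_lit 5) (.e (nat_lit 532499) (nat_lit 1) (.e (nat_lit 57691) (nat_lit 156) (.e (nat_lit 163875) (nat_lit 3) (.e (nat_lit 204815) (nat_lit 17) (.e (nat_lit 2202) (nat_lit 144) (.e (nat_lit 720938) (nat_lit 22) .nil)))))))) (.g (nat_lit 5) .nil .nil))) 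
(.lf (nat_lit 217770) (.g (nat_lit 4010) (.e (nat_lit 90172) (nat_lit 14) (.e (nat_lit 180244) (nat_lit 5) (.e (nat_lit 532499) (nat_lit 1) (.e (nat_lit 57692) (nat_lit 156) (.e (nat_lit 163869) (nat_lit 2) (.e (nat_lit 196677) (nat_lit 16) (.e (nat_lit 122970) (nat_lit 48) (.e (nat_lit 720937) (nat_lit 22) .nil)))))))) (.g (nat_lit 6) .nil .nil)))) (.nd (nat_lit 5) 
(.lf (nat_lit 217754) (.g (nat_lit 5362) (.e (nat_lit 90172) (nat_lit 14) (.e (nat_lit 180244) (nat_lit 5) (.e (nat_lit 532499) (nat_lit 1) (.e (nat_lit 57691) (nat_lit 156) (.e (nat_lit 163875) (nat_lit 3) (.e (nat_lit 204837) (nat_lit 20) (.e (nat_lit 114714) (nat_lit 22) .nil))))))) (.g (nat_lit 0) .nil .nil))) 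
(.lf (nat_lit 217786) (.g (nat_lit 2743) (.e (nat_lit 90172) (nat_lit 14) (.e (nat_lit 180244) (nat_lit 5) (.e (nat_lit 532499) (nat_lit 1) (.e (nat_lit 57692) (nat_lit 156) (.e (nat_lit 163871) (nat_lit 2) (.e (nat_lit 196677) (nat_lit 16) (.e (nat_lit 122970) (nat_lit 48) (.e (nat_lit 720939) (nat_lit 22) .nil)))))))) (.g (nat_lit 4) .nil .nil)))))) 
(.nd (nat_lit 3) (.nd (nat_lit 4) (.nd (nat_lit 5) 
(.lf (nat_lit 217734) (.g (nat_lit 3780) (.e (nat_lit 90172) (nat_lit 14) (.e (nat_lit 180244) (nat_lit 5) (.e (nat_lit 532499) (nat_lit 1) (.e (nat_lit 57691) (nat_lit 156) (.e (nat_lit 163875) (nat_lit 3) (.e (nat_lit 204814) (nat_lit 17) (.e (nat_lit 2203) (nat_lit 144) (.e (nat_lit 720938) (nat_lit 22) .nil)))))))) (.g (nat_lit 5) .nil .nil))) 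
(.lf (nat_lit 217766) (.g (nat_lit 3515) (.e (nat_lit 90172) (nat_lit 14) (.e (nat_lit 180244) (nat_lit 5) (.e (nat_lit 532499) (nat_lit 1) (.e (nat_lit 57692) (nat_lit 156) (.e (nat_lit 163869) (nat_lit 2) (.e (nat_lit 196660) (nat_lit 12) (.e (nat_lit 57549) (nat_lit 48) (.e (nat_lit 720941) (nat_lit 22) .nil)))))))) (.g (nat_lit 5) .nil .nil)))) (.nd (nat_lit 5) 
(.lf (nat_lit 217750) (.g (nat_lit 2455) (.e (nat_lit 90172) (nat_lit 14) (.e (nat_lit 180244) (nat_lit 5) (.e (nat_lit 532499) (nat_lit 1) (.e (nat_lit 57691) (nat_lit 156) (.e (nat_lit 163875) (nat_lit 3) (.e (nat_lit 204822) (nat_lit 17) (.e (nat_lit 2191) (nat_lit 144) (.e (nat_lit 720941) (nat_lit 22) .nil)))))))) (.g (nat_lit 4) .nil .nil))) 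
(.lf (nat_lit 217782) (.g (nat_lit 2912) (.e (nat_lit 90172) (nat_lit 14) (.e (nat_lit 180244) (nat_lit 5) (.e (nat_lit 532499) (nat_lit 1) (.e (nat_lit 57692) (nat_lit 156) (.e (nat_lit 163871) (nat_lit 2) (.e (nat_lit 196660) (nat_lit 12) (.e (nat_lit 57549) (nat_lit 48) (.e (nat_lit 720938) (nat_lit 22) .nil)))))))) (.g (nat_lit 4) .nil .nil))))) (.nd (nat_lit 4) (.nd (nat_lit 5) 
(.lf (nat_lit 217742) (.g (nat_lit 3306) (.e (nat_lit 90172) (nat_lit 14) (.e (nat_lit 180244) (nat_lit 5) (.e (nat_lit 532499) (nat_lit 1) (.e (nat_lit 57691) (nat_lit 156) (.e (nat_lit 163875) (nat_lit 3) (.e (nat_lit 204818) (nat_lit 17) (.e (nat_lit 2193) (nat_lit 144) (.e (nat_lit 720941) (nat_lit 22) .nil)))))))) (.g (nat_lit 5) .nil .nil))) 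
(.lf (nat_lit 217774) (.g (nat_lit 2046) (.e (nat_lit 90172) (nat_lit 14) (.e (nat_lit 180244) (nat_lit 5) (.e (nat_lit 532499) (nat_lit 1) (.e (nat_lit 57692) (nat_lit 156) (.e (nat_lit 163870) (nat_lit 2) .nil))))) .nil))) (.nd (nat_lit 5) 
(.lf (nat_lit 217758) (.g (nat_lit 3376) (.e (nat_lit 90172) (nat_lit 14) (.e (nat_lit 180244) (nat_lit 5) (.e (nat_lit 532499) (nat_lit 1) (.e (nat_lit 57692) (nat_lit 156) (.e (nat_lit 163869) (nat_lit 2) (.e (nat_lit 196628) (nat_lit 9) (.e (nat_lit 968) (nat_lit 81) (.e (nat_lit 2203) (nat_lit 144) (.e (nat_lit 720938) (nat_lit 22) .nil))))))))) (.g (nat_lit 5) .nil .nil))) 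
(.lf (nat_lit 217790) (.g (nat_lit 4106) (.e (nat_lit 90172) (nat_lit 14) (.e (nat_lit 180244) (nat_lit 5) (.e (nat_lit 532499) (nat_lit 1) (.e (nat_lit 57692) (nat_lit 156) (.e (nat_lit 163874) (nat_lit 3) (.e (nat_lit 204814) (nat_lit 17) (.e (nat_lit 2203) (nat_lit 144) (.e (nat_lit 720941) (nat_lit 22) .nil)))))))) (.g (nat_lit 5) .nil .nil)))))))) 
(.nd (nat_lit 1) (.nd (nat_lit 2) (.nd (nat_lit 3) (.nd (nat_lit 4) (.nd (nat_lit 5) 
(.lf (nat_lit 217729) (.g (nat_lit 3111) (.e (nat_lit 90172) (nat_lit 14) (.e (nat_lit 180244) (nat_lit 5) (.e (nat_lit 532499) (nat_lit 1) (.e (nat_lit 57691) (nat_lit 156) (.e (nat_lit 163874) (nat_lit 3) (.e (nat_lit 204817) (nat_lit 17) (.e (nat_lit 2203) (nat_lit 144) (.e (nat_lit 720941) (nat_lit 22) .nil)))))))) (.g (nat_lit 5) .nil .nil))) 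
(.lf (nat_lit 217761) (.g (nat_lit 3569) (.e (nat_lit 90172) (nat_lit 14) (.e (nat_lit 180244) (nat_lit 5) (.e (nat_lit 532499) (nat_lit 1) (.e (nat_lit 57692) (nat_lit 156) (.e (nat_lit 163869) (nat_lit 2) (.e (nat_lit 196658) (nat_lit 12) (.e (nat_lit 57549) (nat_lit 48) (.e (nat_lit 720941) (nat_lit 22) .nil)))))))) (.g (nat_lit 5) .nil .nil)))) (.nd (nat_lit 5) 
(.lf (nat_lit 217745) (.g (nat_lit 3776) (.e (nat_lit 90172) (nat_lit 14) (.e (nat_lit 180244) (nat_lit 5) (.e (nat_lit 532499) (nat_lit 1) (.e (nat_lit 57691) (nat_lit 156) (.e (nat_lit 163875) (nat_lit 3) (.e (nat_lit 204818) (nat_lit 17) (.e (nat_lit 2202) (nat_lit 144) (.e (nat_lit 720938) (nat_lit 22) .nil)))))))) (.g (nat_lit 5) .nil .nil))) 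
(.lf (nat_lit 217777) (.g (nat_lit 2490) (.e (nat_lit 90172) (nat_lit 14) (.e (nat_lit 180244) (nat_lit 5) (.e (nat_lit 532499) (nat_lit 1) (.e (nat_lit 57692) (nat_lit 156) (.e (nat_lit 163871) (nat_lit 2) (.e (nat_lit 196658) (nat_lit 12) (.e (nat_lit 57550) (nat_lit 48) (.e (nat_lit 720939) (nat_lit 22) .nil)))))))) (.g (nat_lit 4) .nil .nil))))) (.nd (nat_lit 4) (.nd (nat_lit 5) 
(.lf (nat_lit 217737) (.g (nat_lit 2452) (.e (nat_lit 90172) (nat_lit 14) (.e (nat_lit 180244) (nat_lit 5) (.e (nat_lit 532499) (nat_lit 1) (.e (nat_lit 57691) (nat_lit 156) (.e (nat_lit 163875) (nat_lit 3) (.e (nat_lit 204815) (nat_lit 17) (.e (nat_lit 2194) (nat_lit 144) (.e (nat_lit 720941) (nat_lit 22) .nil)))))))) (.g (nat_lit 4) .nil .nil))) 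
(.lf (nat_lit 217769) (.g (nat_lit 3454) (.e (nat_lit 90172) (nat_lit 14) (.e (nat_lit 180244) (nat_lit 5) (.e (nat_lit 532499) (nat_lit 1) (.e (nat_lit 57692) (nat_lit 156) (.e (nat_lit 163869) (nat_lit 2) (.e (nat_lit 196677) (nat_lit 16) (.e (nat_lit 122969) (nat_lit 48) (.e (nat_lit 720939) (nat_lit 22) .nil)))))))) (.g (nat_lit 5) .nil .nil)))) (.nd (nat_lit 5) 
(.lf (nat_lit 217753) (.g (nat_lit 3672) (.e (nat_lit 90172) (nat_lit 14) (.e (nat_lit 180244) (nat_lit 5) (.e (nat_lit 532499) (nat_lit 1) (.e (nat_lit 57691) (nat_lit 156) (.e (nat_lit 163875) (nat_lit 3) (.e (nat_lit 204834) (nat_lit 19) (.e (nat_lit 106517) (nat_lit 9) (.e (nat_lit 1238) (nat_lit 91) .nil)))))))) (.g (nat_lit 5) .nil .nil))) 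
(.lf (nat_lit 217785) (.g (nat_lit 3712) (.e (nat_lit 90172) (nat_lit 14) (.e (nat_lit 180244) (nat_lit 5) (.e (nat_lit 532499) (nat_lit 1) (.e (nat_lit 57692) (nat_lit 156) (.e (nat_lit 163871) (nat_lit 2) (.e (nat_lit 196677) (nat_lit 16) (.e (nat_lit 122969) (nat_lit 48) (.e (nat_lit 720939) (nat_lit 22) .nil)))))))) (.g (nat_lit 5) .nil .nil)))))) 
(.nd (nat_lit 3) (.nd (nat_lit 4) (.nd (nat_lit 5) 
(.lf (nat_lit 217733) (.g (nat_lit 3265) (.e (nat_lit 90172) (nat_lit 14) (.e (nat_lit 180244) (nat_lit 5) (.e (nat_lit 532499) (nat_lit 1) (.e (nat_lit 57691) (nat_lit 156) (.e (nat_lit 163875) (nat_lit 3) (.e (nat_lit 204814) (nat_lit 17) (.e (nat_lit 2198) (nat_lit 144) (.e (nat_lit 720941) (nat_lit 22) .nil)))))))) (.g (nat_lit 5) .nil .nil))) 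
(.lf (nat_lit 217765) (.g (nat_lit 3257) (.e (nat_lit 90172) (nat_lit 14) (.e (nat_lit 180244) (nat_lit 5) (.e (nat_lit 532499) (nat_lit 1) (.e (nat_lit 57692) (nat_lit 156) (.e (nat_lit 163869) (nat_lit 2) (.e (nat_lit 196660) (nat_lit 12) (.e (nat_lit 57549) (nat_lit 48) (.e (nat_lit 720938) (nat_lit 22) .nil)))))))) (.g (nat_lit 5) .nil .nil)))) (.nd (nat_lit 5) 
(.lf (nat_lit 217749) (.g (nat_lit 3700) (.e (nat_lit 90172) (nat_lit 14) (.e (nat_lit 180244) (nat_lit 5) (.e (nat_lit 532499) (nat_lit 1) (.e (nat_lit 57691) (nat_lit 156) (.e (nat_lit 163875) (nat_lit 3) (.e (nat_lit 204822) (nat_lit 17) (.e (nat_lit 2184) (nat_lit 144) (.e (nat_lit 720941) (nat_lit 22) .nil)))))))) (.g (nat_lit 5) .nil .nil))) 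
(.lf (nat_lit 217781) (.g (nat_lit 2860) (.e (nat_lit 90172) (nat_lit 14) (.e (nat_lit 180244) (nat_lit 5) (.e (nat_lit 532499) (nat_lit 1) (.e (nat_lit 57692) (nat_lit 156) (.e (nat_lit 163871) (nat_lit 2) (.e (nat_lit 196659) (nat_lit 12) (.e (nat_lit 57550) (nat_lit 48) (.e (nat_lit 720941) (nat_lit 22) .nil)))))))) (.g (nat_lit 4) .nil .nil))))) (.nd (nat_lit 4) (.nd (nat_lit 5) 
(.lf (nat_lit 217741) (.g (nat_lit 3481) (.e (nat_lit 90172) (nat_lit 14) (.e (nat_lit 180244) (nat_lit 5) (.e (nat_lit 532499) (nat_lit 1) (.e (nat_lit 57691) (nat_lit 156) (.e (nat_lit 163875) (nat_lit 3) (.e (nat_lit 204817) (nat_lit 17) (.e (nat_lit 2203) (nat_lit 144) (.e (nat_lit 720941) (nat_lit 22) .nil)))))))) (.g (nat_lit 5) .nil .nil))) 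
(.lf (nat_lit 217773) (.g (nat_lit 3549) (.e (nat_lit 90172) (nat_lit 14) (.e (nat_lit 180244) (nat_lit 5) (.e (nat_lit 532499) (nat_lit 1) (.e (nat_lit 57692) (nat_lit 156) (.e (nat_lit 163869) (nat_lit 2) (.e (nat_lit 196678) (nat_lit 16) (.e (nat_lit 122971) (nat_lit 48) (.e (nat_lit 720937) (nat_lit 22) .nil)))))))) (.g (nat_lit 5) .nil .nil)))) (.nd (nat_lit 5) 
(.lf (nat_lit 217757) (.g (nat_lit 3116) (.e (nat_lit 90172) (nat_lit 14) (.e (nat_lit 180244) (nat_lit 5) (.e (nat_lit 532499) (nat_lit 1) (.e (nat_lit 57692) (nat_lit 156) (.e (nat_lit 163869) (nat_lit 2) (.e (nat_lit 196626) (nat_lit 9) (.e (nat_lit 1016) (nat_lit 81) (.e (nat_lit 2203) (nat_lit 144) (.e (nat_lit 720941) (nat_lit 22) .nil))))))))) (.g (nat_lit 5) .nil .nil))) 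
(.lf (nat_lit 217789) (.g (nat_lit 1847) (.e (nat_lit 90172) (nat_lit 14) (.e (nat_lit 180244) (nat_lit 5) (.e (nat_lit 532499) (nat_lit 1) (.e (nat_lit 57692) (nat_lit 156) (.e (nat_lit 163874) (nat_lit 3) .nil))))) .nil)))))) (.nd (nat_lit 2) (.nd (nat_lit 3) (.nd (nat_lit 4) (.nd (nat_lit 5) 
(.lf (nat_lit 217731) (.g (nat_lit 3678) (.e (nat_lit 90172) (nat_lit 14) (.e (nat_lit 180244) (nat_lit 5) (.e (nat_lit 532499) (nat_lit 1) (.e (nat_lit 57691) (nat_lit 156) (.e (nat_lit 163874) (nat_lit 3) (.e (nat_lit 204818) (nat_lit 17) (.e (nat_lit 2203) (nat_lit 144) (.e (nat_lit 720941) (nat_lit 22) .nil)))))))) (.g (nat_lit 5) .nil .nil))) 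
(.lf (nat_lit 217763) (.g (nat_lit 2770) (.e (nat_lit 90172) (nat_lit 14) (.e (nat_lit 180244) (nat_lit 5) (.e (nat_lit 532499) (nat_lit 1) (.e (nat_lit 57692) (nat_lit 156) (.e (nat_lit 163869) (nat_lit 2) (.e (nat_lit 196659) (nat_lit 12) (.e (nat_lit 57551) (nat_lit 48) (.e (nat_lit 720941) (nat_lit 22) .nil)))))))) (.g (nat_lit 4) .nil .nil)))) (.nd (nat_lit 5) 
(.lf (nat_lit 217747) (.g (nat_lit 2462) (.e (nat_lit 90172) (nat_lit 14) (.e (nat_lit 180244) (nat_lit 5) (.e (nat_lit 532499) (nat_lit 1) (.e (nat_lit 57691) (nat_lit 156) (.e (nat_lit 163875) (nat_lit 3) (.e (nat_lit 204821) (nat_lit 17) (.e (nat_lit 2201) (nat_lit 144) (.e (nat_lit 720941) (nat_lit 22) .nil)))))))) (.g (nat_lit 4) .nil .nil))) 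
(.lf (nat_lit 217779) (.g (nat_lit 2821) (.e (nat_lit 90172) (nat_lit 14) (.e (nat_lit 180244) (nat_lit 5) (.e (nat_lit 532499) (nat_lit 1) (.e (nat_lit 57692) (nat_lit 156) (.e (nat_lit 163871) (nat_lit 2) (.e (nat_lit 196659) (nat_lit 12) (.e (nat_lit 57550) (nat_lit 48) (.e (nat_lit 720937) (nat_lit 22) .nil)))))))) (.g (nat_lit 4) .nil .nil))))) (.nd (nat_lit 4) (.nd (nat_lit 5) 
(.lf (nat_lit 217739) (.g (nat_lit 3545) (.e (nat_lit 90172) (nat_lit 14) (.e (nat_lit 180244) (nat_lit 5) (.e (nat_lit 532499) (nat_lit 1) (.e (nat_lit 57691) (nat_lit 156) (.e (nat_lit 163875) (nat_lit 3) (.e (nat_lit 204815) (nat_lit 17) (.e (nat_lit 2202) (nat_lit 144) (.e (nat_lit 720941) (nat_lit 22) .nil)))))))) (.g (nat_lit 5) .nil .nil))) 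
(.lf (nat_lit 217771) (.g (nat_lit 2642) (.e (nat_lit 90172) (nat_lit 14) (.e (nat_lit 180244) (nat_lit 5) (.e (nat_lit 532499) (nat_lit 1) (.e (nat_lit 57692) (nat_lit 156) (.e (nat_lit 163869) (nat_lit 2) (.e (nat_lit 196677) (nat_lit 16) (.e (nat_lit 122970) (nat_lit 48) (.e (nat_lit 720939) (nat_lit 22) .nil)))))))) (.g (nat_lit 4) .nil .nil)))) (.nd (nat_lit 5) 
(.lf (nat_lit 217755) (.g (nat_lit 1321) (.e (nat_lit 90172) (nat_lit 14) (.e (nat_lit 180244) (nat_lit 5) (.e (nat_lit 532499) (nat_lit 1) (.e (nat_lit 57692) (nat_lit 156) .nil)))) .nil)) 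
(.lf (nat_lit 217787) (.g (nat_lit 3540) (.e (nat_lit 90172) (nat_lit 14) (.e (nat_lit 180244) (nat_lit 5) (.e (nat_lit 532499) (nat_lit 1) (.e (nat_lit 57692) (nat_lit 156) (.e (nat_lit 163871) (nat_lit 2) (.e (nat_lit 196677) (nat_lit 16) (.e (nat_lit 130816) (nat_lit 48) (.e (nat_lit 720937) (nat_lit 22) .nil)))))))) (.g (nat_lit 5) .nil .nil)))))) 
(.nd (nat_lit 3) (.nd (nat_lit 4) (.nd (nat_lit 5) 
(.lf (nat_lit 217735) (.g (nat_lit 2403) (.e (nat_lit 90172) (nat_lit 14) (.e (nat_lit 180244) (nat_lit 5) (.e (nat_lit 532499) (nat_lit 1) (.e (nat_lit 57691) (nat_lit 156) (.e (nat_lit 163875) (nat_lit 3) (.e (nat_lit 204815) (nat_lit 17) (.e (nat_lit 2193) (nat_lit 144) (.e (nat_lit 720937) (nat_lit 22) .nil)))))))) (.g (nat_lit 4) .nil .nil))) 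
(.lf (nat_lit 217767) (.g (nat_lit 2664) (.e (nat_lit 90172) (nat_lit 14) (.e (nat_lit 180244) (nat_lit 5) (.e (nat_lit 532499) (nat_lit 1) (.e (nat_lit 57692) (nat_lit 156) (.e (nat_lit 163869) (nat_lit 2) (.e (nat_lit 196661) (nat_lit 12) (.e (nat_lit 65280) (nat_lit 48) (.e (nat_lit 720941) (nat_lit 22) .nil)))))))) (.g (nat_lit 4) .nil .nil)))) (.nd (nat_lit 5) 
(.lf (nat_lit 217751) (.g (nat_lit 3241) (.e (nat_lit 90172) (nat_lit 14) (.e (nat_lit 180244) (nat_lit 5) (.e (nat_lit 532499) (nat_lit 1) (.e (nat_lit 57691) (nat_lit 156) (.e (nat_lit 163875) (nat_lit 3) (.e (nat_lit 204822) (nat_lit 17) (.e (nat_lit 2201) (nat_lit 144) (.e (nat_lit 720941) (nat_lit 22) .nil)))))))) (.g (nat_lit 5) .nil .nil))) 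
(.lf (nat_lit 217783) (.g (nat_lit 3530) (.e (nat_lit 90172) (nat_lit 14) (.e (nat_lit 180244) (nat_lit 5) (.e (nat_lit 532499) (nat_lit 1) (.e (nat_lit 57692) (nat_lit 156) (.e (nat_lit 163871) (nat_lit 2) (.e (nat_lit 196660) (nat_lit 12) (.e (nat_lit 57550) (nat_lit 48) (.e (nat_lit 720939) (nat_lit 22) .nil)))))))) (.g (nat_lit 5) .nil .nil))))) (.nd (nat_lit 4) (.nd (nat_lit 5) 
(.lf (nat_lit 217743) (.g (nat_lit 3599) (.e (nat_lit 90172) (nat_lit 14) (.e (nat_lit 180244) (nat_lit 5) (.e (nat_lit 532499) (nat_lit 1) (.e (nat_lit 57691) (nat_lit 156) (.e (nat_lit 163875) (nat_lit 3) (.e (nat_lit 204818) (nat_lit 17) (.e (nat_lit 2200) (nat_lit 144) (.e (nat_lit 720941) (nat_lit 22) .nil)))))))) (.g (nat_lit 5) .nil .nil))) 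
(.lf (nat_lit 217775) (.g (nat_lit 2522) (.e (nat_lit 90172) (nat_lit 14) (.e (nat_lit 180244) (nat_lit 5) (.e (nat_lit 532499) (nat_lit 1) (.e (nat_lit 57692) (nat_lit 156) (.e (nat_lit 163870) (nat_lit 2) (.e (nat_lit 196637) (nat_lit 9) (.e (nat_lit 1281) (nat_lit 94) (.e (nat_lit 114716) (nat_lit 22) .nil)))))))) (.g (nat_lit 4) .nil .nil)))) (.nd (nat_lit 5) 
(.lf (nat_lit 217759) (.g (nat_lit 3563) (.e (nat_lit 90172) (nat_lit 14) (.e (nat_lit 180244) (nat_lit 5) (.e (nat_lit 532499) (nat_lit 1) (.e (nat_lit 57692) (nat_lit 156) (.e (nat_lit 163869) (nat_lit 2) (.e (nat_lit 196658) (nat_lit 12) (.e (nat_lit 57549) (nat_lit 48) (.e (nat_lit 720937) (nat_lit 22) .nil)))))))) (.g (nat_lit 5) .nil .nil))) 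
(.lf (nat_lit 217791) (.g (nat_lit 2498) (.e (nat_lit 90172) (nat_lit 14) (.e (nat_lit 180244) (nat_lit 5) (.e (nat_lit 532499) (nat_lit 1) (.e (nat_lit 57692) (nat_lit 156) (.e (nat_lit 163874) (nat_lit 3) (.e (nat_lit 204815) (nat_lit 17) (.e (nat_lit 2190) (nat_lit 144) (.e (nat_lit 720937) (nat_lit 22) .nil)))))))) (.g (nat_lit 4) .nil .nil)))))))))

noncomputable def tv2862 : DT := (.nd (nat_lit 0) (.nd (nat_lit 1) (.nd (nat_lit 2) (.nd (nat_lit 3) (.nd (nat_lit 4) (.nd (nat_lit 5) 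
(.lf (nat_lit 217792) (.g (nat_lit 3414) (.e (nat_lit 90172) (nat_lit 14) (.e (nat_lit 180244) (nat_lit 5) (.e (nat_lit 532499) (nat_lit 1) (.e (nat_lit 57692) (nat_lit 156) (.e (nat_lit 163874) (nat_lit 3) (.e (nat_lit 204815) (nat_lit 17) (.e (nat_lit 2193) (nat_lit 144) (.e (nat_lit 720941) (nat_lit 22) .nil)))))))) (.g (nat_lit 5) .nil .nil))) 
(.lf (nat_lit 217824) (.g (nat_lit 2191) (.e (nat_lit 90172) (nat_lit 14) (.e (nat_lit 180244) (nat_lit 5) (.e (nat_lit 532500) (nat_lit 1) (.e (nat_lit 57692) (nat_lit 156) (.e (nat_lit 163871) (nat_lit 2) .nil))))) .nil))) (.nd (nat_lit 5) 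
(.lf (nat_lit 217808) (.g (nat_lit 3587) (.e (nat_lit 90172) (nat_lit 14) (.e (nat_lit 180244) (nat_lit 5) (.e (nat_lit 532499) (nat_lit 1) (.e (nat_lit 57692) (nat_lit 156) (.e (nat_lit 163874) (nat_lit 3) (.e (nat_lit 204822) (nat_lit 17) (.e (nat_lit 2201) (nat_lit 144) (.e (nat_lit 720941) (nat_lit 22) .nil)))))))) (.g (nat_lit 5) .nil .nil))) 
(.lf (nat_lit 217840) (.g (nat_lit 2114) (.e (nat_lit 90172) (nat_lit 14) (.e (nat_lit 180244) (nat_lit 5) (.e (nat_lit 532501) (nat_lit 1) (.e (nat_lit 57691) (nat_lit 156) (.e (nat_lit 163869) (nat_lit 2) (.e (nat_lit 196677) (nat_lit 16) (.e (nat_lit 130816) (nat_lit 48) (.e (nat_lit 720938) (nat_lit 22) .nil)))))))) (.g (nat_lit 4) .nil .nil))))) (.nd (nat_lit 4) (.nd (nat_lit 5) 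
(.lf (nat_lit 217800) (.g (nat_lit 3243) (.e (nat_lit 90172) (nat_lit 14) (.e (nat_lit 180244) (nat_lit 5) (.e (nat_lit 532499) (nat_lit 1) (.e (nat_lit 57692) (nat_lit 156) (.e (nat_lit 163874) (nat_lit 3) (.e (nat_lit 204818) (nat_lit 17) (.e (nat_lit 2202) (nat_lit 144) (.e (nat_lit 720937) (nat_lit 22) .nil)))))))) (.g (nat_lit 5) .nil .nil))) 
(.lf (nat_lit 217832) (.g (nat_lit 1357) (.e (nat_lit 90172) (nat_lit 14) (.e (nat_lit 180244) (nat_lit 5) (.e (nat_lit 532501) (nat_lit 1) (.e (nat_lit 57690) (nat_lit 156) .nil)))) .nil))) (.nd (nat_lit 5) 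
(.lf (nat_lit 217816) (.g (nat_lit 2633) (.e (nat_lit 90172) (nat_lit 14) (.e (nat_lit 180244) (nat_lit 5) (.e (nat_lit 532499) (nat_lit 1) (.e (nat_lit 57692) (nat_lit 156) (.e (nat_lit 163875) (nat_lit 3) (.e (nat_lit 204817) (nat_lit 17) (.e (nat_lit 2198) (nat_lit 144) (.e (nat_lit 720938) (nat_lit 22) .nil)))))))) (.g (nat_lit 4) .nil .nil))) 
(.lf (nat_lit 217848) (.g (nat_lit 2799) (.e (nat_lit 90172) (nat_lit 14) (.e (nat_lit 180244) (nat_lit 5) (.e (nat_lit 532501) (nat_lit 1) (.e (nat_lit 57691) (nat_lit 156) (.e (nat_lit 163874) (nat_lit 3) (.e (nat_lit 204817) (nat_lit 17) (.e (nat_lit 2198) (nat_lit 144) (.e (nat_lit 720941) (nat_lit 22) .nil)))))))) (.g (nat_lit 5) .nil .nil)))))) 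
(.nd (nat_lit 3) (.nd (nat_lit 4) (.nd (nat_lit 5) 
(.lf (nat_lit 217796) (.g (nat_lit 3457) (.e (nat_lit 90172) (nat_lit 14) (.e (nat_lit 180244) (nat_lit 5) (.e (nat_lit 532499) (nat_lit 1) (.e (nat_lit 57692) (nat_lit 156) (.e (nat_lit 163874) (nat_lit 3) (.e (nat_lit 204817) (nat_lit 17) (.e (nat_lit 2203) (nat_lit 144) (.e (nat_lit 720941) (nat_lit 22) .nil)))))))) (.g (nat_lit 5) .nil .nil))) 
(.lf (nat_lit 217828) (.g (nat_lit 1360) (.e (nat_lit 90172) (nat_lit 14) (.e (nat_lit 180244) (nat_lit 5) (.e (nat_lit 532501) (nat_lit 1) (.e (nat_lit 57685) (nat_lit 156) .nil)))) .nil))) (.nd (nat_lit 5) 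
(.lf (nat_lit 217812) (.g (nat_lit 1948) (.e (nat_lit 90172) (nat_lit 14) (.e (nat_lit 180244) (nat_lit 5) (.e (nat_lit 532499) (nat_lit 1) (.e (nat_lit 57692) (nat_lit 156) (.e (nat_lit 163875) (nat_lit 3) .nil))))) .nil)) 
(.lf (nat_lit 217844) (.g (nat_lit 3151) (.e (nat_lit 90172) (nat_lit 14) (.e (nat_lit 180244) (nat_lit 5) (.e (nat_lit 532501) (nat_lit 1) (.e (nat_lit 57691) (nat_lit 156) (.e (nat_lit 163871) (nat_lit 2) (.e (nat_lit 196677) (nat_lit 16) (.e (nat_lit 122969) (nat_lit 48) (.e (nat_lit 720941) (nat_lit 22) .nil)))))))) (.g (nat_lit 5) .nil .nil))))) (.nd (nat_lit 4) (.nd (nat_lit 5) 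
(.lf (nat_lit 217804) (.g (nat_lit 3835) (.e (nat_lit 90172) (nat_lit 14) (.e (nat_lit 180244) (nat_lit 5) (.e (nat_lit 532499) (nat_lit 1) (.e (nat_lit 57692) (nat_lit 156) (.e (nat_lit 163874) (nat_lit 3) (.e (nat_lit 204821) (nat_lit 17) (.e (nat_lit 7936) (nat_lit 144) (.e (nat_lit 720941) (nat_lit 22) .nil)))))))) (.g (nat_lit 5) .nil .nil))) 
(.lf (nat_lit 217836) (.g (nat_lit 3064) (.e (nat_lit 90172) (nat_lit 14) (.e (nat_lit 180244) (nat_lit 5) (.e (nat_lit 532501) (nat_lit 1) (.e (nat_lit 57690) (nat_lit 156) (.e (nat_lit 163875) (nat_lit 3) (.e (nat_lit 204817) (nat_lit 17) (.e (nat_lit 2198) (nat_lit 144) (.e (nat_lit 720941) (nat_lit 22) .nil)))))))) (.g (nat_lit 5) .nil .nil)))) (.nd (nat_lit 5) 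
(.lf (nat_lit 217820) (.g (nat_lit 2114) (.e (nat_lit 90172) (nat_lit 14) (.e (nat_lit 180244) (nat_lit 5) (.e (nat_lit 532500) (nat_lit 1) (.e (nat_lit 57691) (nat_lit 156) (.e (nat_lit 163871) (nat_lit 2) .nil))))) .nil)) 
(.lf (nat_lit 217852) (.g (nat_lit 3117) (.e (nat_lit 90172) (nat_lit 14) (.e (nat_lit 180244) (nat_lit 5) (.e (nat_lit 532501) (nat_lit 1) (.e (nat_lit 57691) (nat_lit 156) (.e (nat_lit 163875) (nat_lit 3) (.e (nat_lit 204815) (nat_lit 17) (.e (nat_lit 2203) (nat_lit 144) (.e (nat_lit 720938) (nat_lit 22) .nil)))))))) (.g (nat_lit 5) .nil .nil))))))) 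
(.nd (nat_lit 2) (.nd (nat_lit 3) (.nd (nat_lit 4) (.nd (nat_lit 5) 
(.lf (nat_lit 217794) (.g (nat_lit 3397) (.e (nat_lit 90172) (nat_lit 14) (.e (nat_lit 180244) (nat_lit 5) (.e (nat_lit 532499) (nat_lit 1) (.e (nat_lit 57692) (nat_lit 156) (.e (nat_lit 163874) (nat_lit 3) (.e (nat_lit 204815) (nat_lit 17) (.e (nat_lit 2202) (nat_lit 144) (.e (nat_lit 720941) (nat_lit 22) .nil)))))))) (.g (nat_lit 5) .nil .nil))) 
(.lf (nat_lit 217826) (.g (nat_lit 2506) (.e (nat_lit 90172) (nat_lit 14) (.e (nat_lit 180244) (nat_lit 5) (.e (nat_lit 532500) (nat_lit 1) (.e (nat_lit 57692) (nat_lit 156) (.e (nat_lit 163874) (nat_lit 3) (.e (nat_lit 204815) (nat_lit 17) (.e (nat_lit 2203) (nat_lit 144) (.e (nat_lit 720941) (nat_lit 22) .nil)))))))) (.g (nat_lit 4) .nil .nil)))) (.nd (nat_lit 5) 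
(.lf (nat_lit 217810) (.g (nat_lit 3333) (.e (nat_lit 90172) (nat_lit 14) (.e (nat_lit 180244) (nat_lit 5) (.e (nat_lit 532499) (nat_lit 1) (.e (nat_lit 57692) (nat_lit 156) (.e (nat_lit 163874) (nat_lit 3) (.e (nat_lit 204834) (nat_lit 19) (.e (nat_lit 106517) (nat_lit 9) (.e (nat_lit 1238) (nat_lit 91) .nil)))))))) (.g (nat_lit 5) .nil .nil))) 
(.lf (nat_lit 217842) (.g (nat_lit 3216) (.e (nat_lit 90172) (nat_lit 14) (.e (nat_lit 180244) (nat_lit 5) (.e (nat_lit 532501) (nat_lit 1) (.e (nat_lit 57691) (nat_lit 156) (.e (nat_lit 163871) (nat_lit 2) (.e (nat_lit 196677) (nat_lit 16) (.e (nat_lit 122969) (nat_lit 48) (.e (nat_lit 720938) (nat_lit 22) .nil)))))))) (.g (nat_lit 5) .nil .nil))))) (.nd (nat_lit 4) (.nd (nat_lit 5) 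
(.lf (nat_lit 217802) (.g (nat_lit 3895) (.e (nat_lit 90172) (nat_lit 14) (.e (nat_lit 180244) (nat_lit 5) (.e (nat_lit 532499) (nat_lit 1) (.e (nat_lit 57692) (nat_lit 156) (.e (nat_lit 163874) (nat_lit 3) (.e (nat_lit 204818) (nat_lit 17) (.e (nat_lit 2202) (nat_lit 144) (.e (nat_lit 720941) (nat_lit 22) .nil)))))))) (.g (nat_lit 5) .nil .nil))) 
(.lf (nat_lit 217834) (.g (nat_lit 2719) (.e (nat_lit 90172) (nat_lit 14) (.e (nat_lit 180244) (nat_lit 5) (.e (nat_lit 532501) (nat_lit 1) (.e (nat_lit 57690) (nat_lit 156) (.e (nat_lit 163871) (nat_lit 2) (.e (nat_lit 196677) (nat_lit 16) (.e (nat_lit 122969) (nat_lit 48) (.e (nat_lit 720939) (nat_lit 22) .nil)))))))) (.g (nat_lit 5) .nil .nil)))) (.nd (nat_lit 5) 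
(.lf (nat_lit 217818) (.g (nat_lit 3440) (.e (nat_lit 90172) (nat_lit 14) (.e (nat_lit 180244) (nat_lit 5) (.e (nat_lit 532499) (nat_lit 1) (.e (nat_lit 57692) (nat_lit 156) (.e (nat_lit 163875) (nat_lit 3) (.e (nat_lit 204817) (nat_lit 17) (.e (nat_lit 2203) (nat_lit 144) (.e (nat_lit 720941) (nat_lit 22) .nil)))))))) (.g (nat_lit 5) .nil .nil))) 
(.lf (nat_lit 217850) (.g (nat_lit 3497) (.e (nat_lit 90172) (nat_lit 14) (.e (nat_lit 180244) (nat_lit 5) (.e (nat_lit 532501) (nat_lit 1) (.e (nat_lit 57691) (nat_lit 156) (.e (nat_lit 163875) (nat_lit 3) (.e (nat_lit 204814) (nat_lit 17) (.e (nat_lit 2203) (nat_lit 144) (.e (nat_lit 720941) (nat_lit 22) .nil)))))))) (.g (nat_lit 5) .nil .nil)))))) 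
(.nd (nat_lit 3) (.nd (nat_lit 4) (.nd (nat_lit 5) 
(.lf (nat_lit 217798) (.g (nat_lit 2420) (.e (nat_lit 90172) (nat_lit 14) (.e (nat_lit 180244) (nat_lit 5) (.e (nat_lit 532499) (nat_lit 1) (.e (nat_lit 57692) (nat_lit 156) (.e (nat_lit 163874) (nat_lit 3) (.e (nat_lit 204818) (nat_lit 17) (.e (nat_lit 2200) (nat_lit 144) (.e (nat_lit 720939) (nat_lit 22) .nil)))))))) (.g (nat_lit 4) .nil .nil))) 
(.lf (nat_lit 217830) (.g (nat_lit 1706) (.e (nat_lit 90172) (nat_lit 14) (.e (nat_lit 180244) (nat_lit 5) (.e (nat_lit 532501) (nat_lit 1) (.e (nat_lit 57689) (nat_lit 156) (.e (nat_lit 163871) (nat_lit 2) .nil))))) .nil))) (.nd (nat_lit 5) 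
(.lf (nat_lit 217814) (.g (nat_lit 2508) (.e (nat_lit 90172) (nat_lit 14) (.e (nat_lit 180244) (nat_lit 5) (.e (nat_lit 532499) (nat_lit 1) (.e (nat_lit 57692) (nat_lit 156) (.e (nat_lit 163875) (nat_lit 3) (.e (nat_lit 204815) (nat_lit 17) (.e (nat_lit 2198) (nat_lit 144) (.e (nat_lit 720941) (nat_lit 22) .nil)))))))) (.g (nat_lit 4) .nil .nil))) 
(.lf (nat_lit 217846) (.g (nat_lit 2977) (.e (nat_lit 90172) (nat_lit 14) (.e (nat_lit 180244) (nat_lit 5) (.e (nat_lit 532501) (nat_lit 1) (.e (nat_lit 57691) (nat_lit 156) (.e (nat_lit 163871) (nat_lit 2) (.e (nat_lit 196677) (nat_lit 16) (.e (nat_lit 130816) (nat_lit 48) (.e (nat_lit 720938) (nat_lit 22) .nil)))))))) (.g (nat_lit 5) .nil .nil))))) (.nd (nat_lit 4) (.nd (nat_lit 5) 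
(.lf (nat_lit 217806) (.g (nat_lit 2512) (.e (nat_lit 90172) (nat_lit 14) (.e (nat_lit 180244) (nat_lit 5) (.e (nat_lit 532499) (nat_lit 1) (.e (nat_lit 57692) (nat_lit 156) (.e (nat_lit 163874) (nat_lit 3) (.e (nat_lit 204822) (nat_lit 17) (.e (nat_lit 2201) (nat_lit 144) (.e (nat_lit 720937) (nat_lit 22) .nil)))))))) (.g (nat_lit 4) .nil .nil))) 
(.lf (nat_lit 217838) (.g (nat_lit 2176) (.e (nat_lit 90172) (nat_lit 14) (.e (nat_lit 180244) (nat_lit 5) (.e (nat_lit 532501) (nat_lit 1) (.e (nat_lit 57691) (nat_lit 156) (.e (nat_lit 163869) (nat_lit 2) (.e (nat_lit 196677) (nat_lit 16) (.e (nat_lit 122969) (nat_lit 48) (.e (nat_lit 720941) (nat_lit 22) .nil)))))))) (.g (nat_lit 4) .nil .nil)))) (.nd (nat_lit 5) 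
(.lf (nat_lit 217822) (.g (nat_lit 2084) (.e (nat_lit 90172) (nat_lit 14) (.e (nat_lit 180244) (nat_lit 5) (.e (nat_lit 532500) (nat_lit 1) (.e (nat_lit 57692) (nat_lit 156) (.e (nat_lit 163869) (nat_lit 2) .nil))))) .nil)) 
(.lf (nat_lit 217854) (.g (nat_lit 867) (.e (nat_lit 90172) (nat_lit 14) (.e (nat_lit 180244) (nat_lit 5) (.e (nat_lit 532501) (nat_lit 1) (.e (nat_lit 57692) (nat_lit 156) .nil)))) .nil))))))) (.nd (nat_lit 1) (.nd (nat_lit 2) (.nd (nat_lit 3) (.nd (nat_lit 4) (.nd (nat_lit 5) 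
(.lf (nat_lit 217793) (.g (nat_lit 3178) (.e (nat_lit 90172) (nat_lit 14) (.e (nat_lit 180244) (nat_lit 5) (.e (nat_lit 532499) (nat_lit 1) (.e (nat_lit 57692) (nat_lit 156) (.e (nat_lit 163874) (nat_lit 3) (.e (nat_lit 204815) (nat_lit 17) (.e (nat_lit 2202) (nat_lit 144) (.e (nat_lit 720938) (nat_lit 22) .nil)))))))) (.g (nat_lit 5) .nil .nil))) 
(.lf (nat_lit 217825) (.g (nat_lit 1961) (.e (nat_lit 90172) (nat_lit 14) (.e (nat_lit 180244) (nat_lit 5) (.e (nat_lit 532500) (nat_lit 1) (.e (nat_lit 57692) (nat_lit 156) (.e (nat_lit 163874) (nat_lit 3) .nil))))) .nil))) (.nd (nat_lit 5) 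
(.lf (nat_lit 217809) (.g (nat_lit 2480) (.e (nat_lit 90172) (nat_lit 14) (.e (nat_lit 180244) (nat_lit 5) (.e (nat_lit 532499) (nat_lit 1) (.e (nat_lit 57692) (nat_lit 156) (.e (nat_lit 163874) (nat_lit 3) (.e (nat_lit 204825) (nat_lit 17) (.e (nat_lit 2205) (nat_lit 144) (.e (nat_lit 720937) (nat_lit 22) .nil)))))))) (.g (nat_lit 4) .nil .nil))) 
(.lf (nat_lit 217841) (.g (nat_lit 3184) (.e (nat_lit 90172) (nat_lit 14) (.e (nat_lit 180244) (nat_lit 5) (.e (nat_lit 532501) (nat_lit 1) (.e (nat_lit 57691) (nat_lit 156) (.e (nat_lit 163871) (nat_lit 2) (.e (nat_lit 196677) (nat_lit 16) (.e (nat_lit 122969) (nat_lit 48) (.e (nat_lit 720937) (nat_lit 22) .nil)))))))) (.g (nat_lit 5) .nil .nil))))) (.nd (nat_lit 4) (.nd (nat_lit 5) 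
(.lf (nat_lit 217801) (.g (nat_lit 3676) (.e (nat_lit 90172) (nat_lit 14) (.e (nat_lit 180244) (nat_lit 5) (.e (nat_lit 532499) (nat_lit 1) (.e (nat_lit 57692) (nat_lit 156) (.e (nat_lit 163874) (nat_lit 3) (.e (nat_lit 204818) (nat_lit 17) (.e (nat_lit 2202) (nat_lit 144) (.e (nat_lit 720938) (nat_lit 22) .nil)))))))) (.g (nat_lit 5) .nil .nil))) 
(.lf (nat_lit 217833) (.g (nat_lit 2801) (.e (nat_lit 90172) (nat_lit 14) (.e (nat_lit 180244) (nat_lit 5) (.e (nat_lit 532501) (nat_lit 1) (.e (nat_lit 57690) (nat_lit 156) (.e (nat_lit 163871) (nat_lit 2) (.e (nat_lit 196660) (nat_lit 12) (.e (nat_lit 57550) (nat_lit 48) (.e (nat_lit 720937) (nat_lit 22) .nil)))))))) (.g (nat_lit 5) .nil .nil)))) (.nd (nat_lit 5) 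
(.lf (nat_lit 217817) (.g (nat_lit 2539) (.e (nat_lit 90172) (nat_lit 14) (.e (nat_lit 180244) (nat_lit 5) (.e (nat_lit 532499) (nat_lit 1) (.e (nat_lit 57692) (nat_lit 156) (.e (nat_lit 163875) (nat_lit 3) (.e (nat_lit 204817) (nat_lit 17) (.e (nat_lit 2203) (nat_lit 144) (.e (nat_lit 720938) (nat_lit 22) .nil)))))))) (.g (nat_lit 4) .nil .nil))) 
(.lf (nat_lit 217849) (.g (nat_lit 1274) (.e (nat_lit 90172) (nat_lit 14) (.e (nat_lit 180244) (nat_lit 5) (.e (nat_lit 532501) (nat_lit 1) (.e (nat_lit 57691) (nat_lit 156) (.e (nat_lit 163875) (nat_lit 3) .nil))))) .nil))))) (.nd (nat_lit 3) (.nd (nat_lit 4) (.nd (nat_lit 5) 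
(.lf (nat_lit 217797) (.g (nat_lit 3206) (.e (nat_lit 90172) (nat_lit 14) (.e (nat_lit 180244) (nat_lit 5) (.e (nat_lit 532499) (nat_lit 1) (.e (nat_lit 57692) (nat_lit 156) (.e (nat_lit 163874) (nat_lit 3) (.e (nat_lit 204818) (nat_lit 17) (.e (nat_lit 2193) (nat_lit 144) (.e (nat_lit 720941) (nat_lit 22) .nil)))))))) (.g (nat_lit 5) .nil .nil))) 
(.lf (nat_lit 217829) (.g (nat_lit 1353) (.e (nat_lit 90172) (nat_lit 14) (.e (nat_lit 180244) (nat_lit 5) (.e (nat_lit 532501) (nat_lit 1) (.e (nat_lit 57689) (nat_lit 156) .nil)))) .nil))) (.nd (nat_lit 5) 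
(.lf (nat_lit 217813) (.g (nat_lit 2745) (.e (nat_lit 90172) (nat_lit 14) (.e (nat_lit 180244) (nat_lit 5) (.e (nat_lit 532499) (nat_lit 1) (.e (nat_lit 57692) (nat_lit 156) (.e (nat_lit 163875) (nat_lit 3) (.e (nat_lit 204814) (nat_lit 17) (.e (nat_lit 2203) (nat_lit 144) (.e (nat_lit 720941) (nat_lit 22) .nil)))))))) (.g (nat_lit 4) .nil .nil))) 
(.lf (nat_lit 217845) (.g (nat_lit 2968) (.e (nat_lit 90172) (nat_lit 14) (.e (nat_lit 180244) (nat_lit 5) (.e (nat_lit 532501) (nat_lit 1) (.e (nat_lit 57691) (nat_lit 156) (.e (nat_lit 163871) (nat_lit 2) (.e (nat_lit 196677) (nat_lit 16) (.e (nat_lit 122970) (nat_lit 48) (.e (nat_lit 720941) (nat_lit 22) .nil)))))))) (.g (nat_lit 5) .nil .nil))))) (.nd (nat_lit 4) (.nd (nat_lit 5) 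
(.lf (nat_lit 217805) (.g (nat_lit 3887) (.e (nat_lit 90172) (nat_lit 14) (.e (nat_lit 180244) (nat_lit 5) (.e (nat_lit 532499) (nat_lit 1) (.e (nat_lit 57692) (nat_lit 156) (.e (nat_lit 163874) (nat_lit 3) (.e (nat_lit 204822) (nat_lit 17) (.e (nat_lit 2184) (nat_lit 144) (.e (nat_lit 720941) (nat_lit 22) .nil)))))))) (.g (nat_lit 5) .nil .nil))) 
(.lf (nat_lit 217837) (.g (nat_lit 1442) (.e (nat_lit 90172) (nat_lit 14) (.e (nat_lit 180244) (nat_lit 5) (.e (nat_lit 532501) (nat_lit 1) (.e (nat_lit 57691) (nat_lit 156) (.e (nat_lit 163869) (nat_lit 2) .nil))))) .nil))) (.nd (nat_lit 5) 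
(.lf (nat_lit 217821) (.g (nat_lit 2087) (.e (nat_lit 90172) (nat_lit 14) (.e (nat_lit 180244) (nat_lit 5) (.e (nat_lit 532500) (nat_lit 1) (.e (nat_lit 57691) (nat_lit 156) (.e (nat_lit 163874) (nat_lit 3) .nil))))) .nil)) 
(.lf (nat_lit 217853) (.g (nat_lit 2885) (.e (nat_lit 90172) (nat_lit 14) (.e (nat_lit 180244) (nat_lit 5) (.e (nat_lit 532501) (nat_lit 1) (.e (nat_lit 57691) (nat_lit 156) (.e (nat_lit 163875) (nat_lit 3) (.e (nat_lit 204818) (nat_lit 17) (.e (nat_lit 2203) (nat_lit 144) (.e (nat_lit 720938) (nat_lit 22) .nil)))))))) (.g (nat_lit 5) .nil .nil))))))) 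
(.nd (nat_lit 2) (.nd (nat_lit 3) (.nd (nat_lit 4) (.nd (nat_lit 5) 
(.lf (nat_lit 217795) (.g (nat_lit 2556) (.e (nat_lit 90172) (nat_lit 14) (.e (nat_lit 180244) (nat_lit 5) (.e (nat_lit 532499) (nat_lit 1) (.e (nat_lit 57692) (nat_lit 156) (.e (nat_lit 163874) (nat_lit 3) (.e (nat_lit 204817) (nat_lit 17) (.e (nat_lit 2203) (nat_lit 144) (.e (nat_lit 720938) (nat_lit 22) .nil)))))))) (.g (nat_lit 4) .nil .nil))) 
(.lf (nat_lit 217827) (.g (nat_lit 2552) (.e (nat_lit 90172) (nat_lit 14) (.e (nat_lit 180244) (nat_lit 5) (.e (nat_lit 532500) (nat_lit 1) (.e (nat_lit 57692) (nat_lit 156) (.e (nat_lit 163874) (nat_lit 3) (.e (nat_lit 204838) (nat_lit 20) (.e (nat_lit 114716) (nat_lit 22) .nil))))))) (.g (nat_lit 4) .nil .nil)))) (.nd (nat_lit 5) 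
(.lf (nat_lit 217811) (.g (nat_lit 5253) (.e (nat_lit 90172) (nat_lit 14) (.e (nat_lit 180244) (nat_lit 5) (.e (nat_lit 532499) (nat_lit 1) (.e (nat_lit 57692) (nat_lit 156) (.e (nat_lit 163874) (nat_lit 3) (.e (nat_lit 204837) (nat_lit 20) (.e (nat_lit 114714) (nat_lit 22) .nil))))))) (.g (nat_lit 0) .nil .nil))) 
(.lf (nat_lit 217843) (.g (nat_lit 2162) (.e (nat_lit 90172) (nat_lit 14) (.e (nat_lit 180244) (nat_lit 5) (.e (nat_lit 532501) (nat_lit 1) (.e (nat_lit 57691) (nat_lit 156) (.e (nat_lit 163871) (nat_lit 2) (.e (nat_lit 196677) (nat_lit 16) (.e (nat_lit 122969) (nat_lit 48) (.e (nat_lit 720939) (nat_lit 22) .nil)))))))) (.g (nat_lit 4) .nil .nil))))) (.nd (nat_lit 4) (.nd (nat_lit 5) 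
(.lf (nat_lit 217803) (.g (nat_lit 3803) (.e (nat_lit 90172) (nat_lit 14) (.e (nat_lit 180244) (nat_lit 5) (.e (nat_lit 532499) (nat_lit 1) (.e (nat_lit 57692) (nat_lit 156) (.e (nat_lit 163874) (nat_lit 3) (.e (nat_lit 204818) (nat_lit 17) (.e (nat_lit 2203) (nat_lit 144) (.e (nat_lit 720938) (nat_lit 22) .nil)))))))) (.g (nat_lit 5) .nil .nil))) 
(.lf (nat_lit 217835) (.g (nat_lit 2950) (.e (nat_lit 90172) (nat_lit 14) (.e (nat_lit 180244) (nat_lit 5) (.e (nat_lit 532501) (nat_lit 1) (.e (nat_lit 57690) (nat_lit 156) (.e (nat_lit 163871) (nat_lit 2) (.e (nat_lit 196677) (nat_lit 16) (.e (nat_lit 122970) (nat_lit 48) (.e (nat_lit 720938) (nat_lit 22) .nil)))))))) (.g (nat_lit 5) .nil .nil)))) (.nd (nat_lit 5) 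
(.lf (nat_lit 217819) (.g (nat_lit 933) (.e (nat_lit 90172) (nat_lit 14) (.e (nat_lit 180244) (nat_lit 5) (.e (nat_lit 532500) (nat_lit 1) (.e (nat_lit 57691) (nat_lit 156) .nil)))) .nil)) 
(.lf (nat_lit 217851) (.g (nat_lit 3260) (.e (nat_lit 90172) (nat_lit 14) (.e (nat_lit 180244) (nat_lit 5) (.e (nat_lit 532501) (nat_lit 1) (.e (nat_lit 57691) (nat_lit 156) (.e (nat_lit 163875) (nat_lit 3) (.e (nat_lit 204815) (nat_lit 17) (.e (nat_lit 2198) (nat_lit 144) (.e (nat_lit 720941) (nat_lit 22) .nil)))))))) (.g (nat_lit 5) .nil .nil)))))) 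
(.nd (nat_lit 3) (.nd (nat_lit 4) (.nd (nat_lit 5) 
(.lf (nat_lit 217799) (.g (nat_lit 3499) (.e (nat_lit 90172) (nat_lit 14) (.e (nat_lit 180244) (nat_lit 5) (.e (nat_lit 532499) (nat_lit 1) (.e (nat_lit 57692) (nat_lit 156) (.e (nat_lit 163874) (nat_lit 3) (.e (nat_lit 204818) (nat_lit 17) (.e (nat_lit 2200) (nat_lit 144) (.e (nat_lit 720941) (nat_lit 22) .nil)))))))) (.g (nat_lit 5) .nil .nil))) 
(.lf (nat_lit 217831) (.g (nat_lit 3229) (.e (nat_lit 90172) (nat_lit 14) (.e (nat_lit 180244) (nat_lit 5) (.e (nat_lit 532501) (nat_lit 1) (.e (nat_lit 57689) (nat_lit 156) (.e (nat_lit 163875) (nat_lit 3) (.e (nat_lit 204817) (nat_lit 17) (.e (nat_lit 2198) (nat_lit 144) (.e (nat_lit 720941) (nat_lit 22) .nil)))))))) (.g (nat_lit 5) .nil .nil)))) (.nd (nat_lit 5) 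
(.lf (nat_lit 217815) (.g (nat_lit 3272) (.e (nat_lit 90172) (nat_lit 14) (.e (nat_lit 180244) (nat_lit 5) (.e (nat_lit 532499) (nat_lit 1) (.e (nat_lit 57692) (nat_lit 156) (.e (nat_lit 163875) (nat_lit 3) (.e (nat_lit 204815) (nat_lit 17) (.e (nat_lit 2203) (nat_lit 144) (.e (nat_lit 720941) (nat_lit 22) .nil)))))))) (.g (nat_lit 5) .nil .nil))) 
(.lf (nat_lit 217847) (.g (nat_lit 3154) (.e (nat_lit 90172) (nat_lit 14) (.e (nat_lit 180244) (nat_lit 5) (.e (nat_lit 532501) (nat_lit 1) (.e (nat_lit 57691) (nat_lit 156) (.e (nat_lit 163871) (nat_lit 2) (.e (nat_lit 196677) (nat_lit 16) (.e (nat_lit 130816) (nat_lit 48) (.e (nat_lit 720941) (nat_lit 22) .nil)))))))) (.g (nat_lit 5) .nil .nil))))) (.nd (nat_lit 4) (.nd (nat_lit 5) 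
(.lf (nat_lit 217807) (.g (nat_lit 3400) (.e (nat_lit 90172) (nat_lit 14) (.e (nat_lit 180244) (nat_lit 5) (.e (nat_lit 532499) (nat_lit 1) (.e (nat_lit 57692) (nat_lit 156) (.e (nat_lit 163874) (nat_lit 3) (.e (nat_lit 204822) (nat_lit 17) (.e (nat_lit 2201) (nat_lit 144) (.e (nat_lit 720938) (nat_lit 22) .nil)))))))) (.g (nat_lit 5) .nil .nil))) 
(.lf (nat_lit 217839) (.g (nat_lit 2095) (.e (nat_lit 90172) (nat_lit 14) (.e (nat_lit 180244) (nat_lit 5) (.e (nat_lit 532501) (nat_lit 1) (.e (nat_lit 57691) (nat_lit 156) (.e (nat_lit 163869) (nat_lit 2) (.e (nat_lit 196677) (nat_lit 16) (.e (nat_lit 122970) (nat_lit 48) (.e (nat_lit 720941) (nat_lit 22) .nil)))))))) (.g (nat_lit 4) .nil .nil)))) (.nd (nat_lit 5) 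
(.lf (nat_lit 217823) (.g (nat_lit 2723) (.e (nat_lit 90172) (nat_lit 14) (.e (nat_lit 180244) (nat_lit 5) (.e (nat_lit 532500) (nat_lit 1) (.e (nat_lit 57692) (nat_lit 156) (.e (nat_lit 163869) (nat_lit 2) (.e (nat_lit 196624) (nat_lit 9) (.e (nat_lit 1277) (nat_lit 94) (.e (nat_lit 114714) (nat_lit 22) .nil)))))))) (.g (nat_lit 4) .nil .nil))) 
(.lf (nat_lit 217855) (.g (nat_lit 1664) (.e (nat_lit 90172) (nat_lit 14) (.e (nat_lit 180244) (nat_lit 5) (.e (nat_lit 532501) (nat_lit 1) (.e (nat_lit 57692) (nat_lit 156) (.e (nat_lit 163869) (nat_lit 2) .nil))))) .nil))))))))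

noncomputable def tv2863 : DT := (.nd (nat_lit 0) (.nd (nat_lit 1) (.nd (nat_lit 2) (.nd (nat_lit 3) (.nd (nat_lit 4) (.nd (nat_lit 5) 
(.lf (nat_lit 217856) (.g (nat_lit 2893) (.e (nat_lit 90172) (nat_lit 14) (.e (nat_lit 180244) (nat_lit 5) (.e (nat_lit 532501) (nat_lit 1) (.e (nat_lit 57692) (nat_lit 156) (.e (nat_lit 163869) (nat_lit 2) (.e (nat_lit 196624) (nat_lit 9) (.e (nat_lit 1277) (nat_lit 94) (.e (nat_lit 114716) (nat_lit 22) .nil)))))))) (.g (nat_lit 5) .nil .nil))) 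
(.lf (nat_lit 217888) (.g (nat_lit 2349) (.e (nat_lit 90172) (nat_lit 14) (.e (nat_lit 180244) (nat_lit 5) (.e (nat_lit 532501) (nat_lit 1) (.e (nat_lit 57692) (nat_lit 156) (.e (nat_lit 163871) (nat_lit 2) (.e (nat_lit 196677) (nat_lit 16) (.e (nat_lit 130816) (nat_lit 48) (.e (nat_lit 720937) (nat_lit 22) .nil)))))))) (.g (nat_lit 4) .nil .nil)))) (.nd (nat_lit 5) 
(.lf (nat_lit 217872) (.g (nat_lit 3070) (.e (nat_lit 90172) (nat_lit 14) (.e (nat_lit 180244) (nat_lit 5) (.e (nat_lit 532501) (nat_lit 1) (.e (nat_lit 57692) (nat_lit 156) (.e (nat_lit 163869) (nat_lit 2) (.e (nat_lit 196660) (nat_lit 12) (.e (nat_lit 57550) (nat_lit 48) (.e (nat_lit 720937) (nat_lit 22) .nil)))))))) (.g (nat_lit 5) .nil .nil))) 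
(.lf (nat_lit 217904) (.g (nat_lit 3009) (.e (nat_lit 90172) (nat_lit 14) (.e (nat_lit 180244) (nat_lit 5) (.e (nat_lit 532502) (nat_lit 1) (.e (nat_lit 57688) (nat_lit 156) (.e (nat_lit 163873) (nat_lit 3) (.e (nat_lit 204815) (nat_lit 17) (.e (nat_lit 2203) (nat_lit 144) (.e (nat_lit 720941) (nat_lit 22) .nil)))))))) (.g (nat_lit 5) .nil .nil))))) (.nd (nat_lit 4) (.nd (nat_lit 5) 
(.lf (nat_lit 217864) (.g (nat_lit 3063) (.e (nat_lit 90172) (nat_lit 14) (.e (nat_lit 180244) (nat_lit 5) (.e (nat_lit 532501) (nat_lit 1) (.e (nat_lit 57692) (nat_lit 156) (.e (nat_lit 163869) (nat_lit 2) (.e (nat_lit 196658) (nat_lit 12) (.e (nat_lit 57551) (nat_lit 48) (.e (nat_lit 720938) (nat_lit 22) .nil)))))))) (.g (nat_lit 5) .nil .nil))) 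
(.lf (nat_lit 217896) (.g (nat_lit 1359) (.e (nat_lit 90172) (nat_lit 14) (.e (nat_lit 180244) (nat_lit 5) (.e (nat_lit 532501) (nat_lit 1) (.e (nat_lit 57754) (nat_lit 209) .nil)))) .nil))) (.nd (nat_lit 5) 
(.lf (nat_lit 217880) (.g (nat_lit 2313) (.e (nat_lit 90172) (nat_lit 14) (.e (nat_lit 180244) (nat_lit 5) (.e (nat_lit 532501) (nat_lit 1) (.e (nat_lit 57692) (nat_lit 156) (.e (nat_lit 163869) (nat_lit 2) (.e (nat_lit 196677) (nat_lit 16) (.e (nat_lit 130816) (nat_lit 48) (.e (nat_lit 720937) (nat_lit 22) .nil)))))))) (.g (nat_lit 4) .nil .nil))) 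
(.lf (nat_lit 217912) (.g (nat_lit 2358) (.e (nat_lit 90172) (nat_lit 14) (.e (nat_lit 180244) (nat_lit 5) (.e (nat_lit 532502) (nat_lit 1) (.e (nat_lit 57692) (nat_lit 156) (.e (nat_lit 163869) (nat_lit 2) (.e (nat_lit 196659) (nat_lit 12) (.e (nat_lit 57550) (nat_lit 48) (.e (nat_lit 720937) (nat_lit 22) .nil)))))))) (.g (nat_lit 4) .nil .nil)))))) 
(.nd (nat_lit 3) (.nd (nat_lit 4) (.nd (nat_lit 5) 
(.lf (nat_lit 217860) (.g (nat_lit 2153) (.e (nat_lit 90172) (nat_lit 14) (.e (nat_lit 180244) (nat_lit 5) (.e (nat_lit 532501) (nat_lit 1) (.e (nat_lit 57692) (nat_lit 156) (.e (nat_lit 163869) (nat_lit 2) (.e (nat_lit 196658) (nat_lit 12) (.e (nat_lit 57549) (nat_lit 48) (.e (nat_lit 720938) (nat_lit 22) .nil)))))))) (.g (nat_lit 4) .nil .nil))) 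
(.lf (nat_lit 217892) (.g (nat_lit 2628) (.e (nat_lit 90172) (nat_lit 14) (.e (nat_lit 180244) (nat_lit 5) (.e (nat_lit 532501) (nat_lit 1) (.e (nat_lit 57692) (nat_lit 156) (.e (nat_lit 163874) (nat_lit 3) (.e (nat_lit 204815) (nat_lit 17) (.e (nat_lit 2203) (nat_lit 144) (.e (nat_lit 720938) (nat_lit 22) .nil)))))))) (.g (nat_lit 5) .nil .nil)))) (.nd (nat_lit 5) 
(.lf (nat_lit 217876) (.g (nat_lit 3032) (.e (nat_lit 90172) (nat_lit 14) (.e (nat_lit 180244) (nat_lit 5) (.e (nat_lit 532501) (nat_lit 1) (.e (nat_lit 57692) (nat_lit 156) (.e (nat_lit 163869) (nat_lit 2) (.e (nat_lit 196661) (nat_lit 12) (.e (nat_lit 57549) (nat_lit 48) (.e (nat_lit 720938) (nat_lit 22) .nil)))))))) (.g (nat_lit 5) .nil .nil))) 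
(.lf (nat_lit 217908) (.g (nat_lit 2266) (.e (nat_lit 90172) (nat_lit 14) (.e (nat_lit 180244) (nat_lit 5) (.e (nat_lit 532502) (nat_lit 1) (.e (nat_lit 57692) (nat_lit 156) (.e (nat_lit 163869) (nat_lit 2) (.e (nat_lit 196658) (nat_lit 12) (.e (nat_lit 57550) (nat_lit 48) (.e (nat_lit 720937) (nat_lit 22) .nil)))))))) (.g (nat_lit 4) .nil .nil))))) (.nd (nat_lit 4) (.nd (nat_lit 5) 
(.lf (nat_lit 217868) (.g (nat_lit 3131) (.e (nat_lit 90172) (nat_lit 14) (.e (nat_lit 180244) (nat_lit 5) (.e (nat_lit 532501) (nat_lit 1) (.e (nat_lit 57692) (nat_lit 156) (.e (nat_lit 163869) (nat_lit 2) (.e (nat_lit 196659) (nat_lit 12) (.e (nat_lit 57550) (nat_lit 48) (.e (nat_lit 720941) (nat_lit 22) .nil)))))))) (.g (nat_lit 5) .nil .nil))) 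
(.lf (nat_lit 217900) (.g (nat_lit 2287) (.e (nat_lit 90172) (nat_lit 14) (.e (nat_lit 180244) (nat_lit 5) (.e (nat_lit 532502) (nat_lit 1) (.e (nat_lit 57688) (nat_lit 156) (.e (nat_lit 163867) (nat_lit 2) (.e (nat_lit 196624) (nat_lit 9) (.e (nat_lit 1277) (nat_lit 94) (.e (nat_lit 114716) (nat_lit 22) .nil)))))))) (.g (nat_lit 4) .nil .nil)))) (.nd (nat_lit 5) 
(.lf (nat_lit 217884) (.g (nat_lit 1709) (.e (nat_lit 90172) (nat_lit 14) (.e (nat_lit 180244) (nat_lit 5) (.e (nat_lit 532501) (nat_lit 1) (.e (nat_lit 57692) (nat_lit 156) (.e (nat_lit 163871) (nat_lit 2) .nil))))) .nil)) 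
(.lf (nat_lit 217916) (.g (nat_lit 2364) (.e (nat_lit 90172) (nat_lit 14) (.e (nat_lit 180244) (nat_lit 5) (.e (nat_lit 532502) (nat_lit 1) (.e (nat_lit 57692) (nat_lit 156) (.e (nat_lit 163869) (nat_lit 2) (.e (nat_lit 196660) (nat_lit 12) (.e (nat_lit 57550) (nat_lit 48) (.e (nat_lit 720938) (nat_lit 22) .nil)))))))) (.g (nat_lit 4) .nil .nil))))))) 
(.nd (nat_lit 2) (.nd (nat_lit 3) (.nd (nat_lit 4) (.nd (nat_lit 5) 
(.lf (nat_lit 217858) (.g (nat_lit 3106) (.e (nat_lit 90172) (nat_lit 14) (.e (nat_lit 180244) (nat_lit 5) (.e (nat_lit 532501) (nat_lit 1) (.e (nat_lit 57692) (nat_lit 156) (.e (nat_lit 163869) (nat_lit 2) (.e (nat_lit 196628) (nat_lit 9) (.e (nat_lit 968) (nat_lit 81) (.e (nat_lit 2203) (nat_lit 144) (.e (nat_lit 720941) (nat_lit 22) .nil))))))))) (.g (nat_lit 5) .nil .nil))) 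
(.lf (nat_lit 217890) (.g (nat_lit 1352) (.e (nat_lit 90172) (nat_lit 14) (.e (nat_lit 180244) (nat_lit 5) (.e (nat_lit 532501) (nat_lit 1) (.e (nat_lit 57692) (nat_lit 156) (.e (nat_lit 163874) (nat_lit 3) .nil))))) .nil))) (.nd (nat_lit 5) 
(.lf (nat_lit 217874) (.g (nat_lit 3070) (.e (nat_lit 90172) (nat_lit 14) (.e (nat_lit 180244) (nat_lit 5) (.e (nat_lit 532501) (nat_lit 1) (.e (nat_lit 57692) (nat_lit 156) (.e (nat_lit 163869) (nat_lit 2) (.e (nat_lit 196660) (nat_lit 12) (.e (nat_lit 57550) (nat_lit 48) (.e (nat_lit 720941) (nat_lit 22) .nil)))))))) (.g (nat_lit 5) .nil .nil))) 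
(.lf (nat_lit 217906) (.g (nat_lit 1576) (.e (nat_lit 90172) (nat_lit 14) (.e (nat_lit 180244) (nat_lit 5) (.e (nat_lit 532502) (nat_lit 1) (.e (nat_lit 57692) (nat_lit 156) (.e (nat_lit 163869) (nat_lit 2) .nil))))) .nil)))) (.nd (nat_lit 4) (.nd (nat_lit 5) 
(.lf (nat_lit 217866) (.g (nat_lit 3094) (.e (nat_lit 90172) (nat_lit 14) (.e (nat_lit 180244) (nat_lit 5) (.e (nat_lit 532501) (nat_lit 1) (.e (nat_lit 57692) (nat_lit 156) (.e (nat_lit 163869) (nat_lit 2) (.e (nat_lit 196659) (nat_lit 12) (.e (nat_lit 57550) (nat_lit 48) (.e (nat_lit 720937) (nat_lit 22) .nil)))))))) (.g (nat_lit 5) .nil .nil))) 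
(.lf (nat_lit 217898) (.g (nat_lit 2402) (.e (nat_lit 90172) (nat_lit 14) (.e (nat_lit 180244) (nat_lit 5) (.e (nat_lit 532502) (nat_lit 1) (.e (nat_lit 57688) (nat_lit 156) (.e (nat_lit 163867) (nat_lit 2) (.e (nat_lit 196617) (nat_lit 9) (.e (nat_lit 1275) (nat_lit 94) (.e (nat_lit 114714) (nat_lit 22) .nil)))))))) (.g (nat_lit 4) .nil .nil)))) (.nd (nat_lit 5) 
(.lf (nat_lit 217882) (.g (nat_lit 1716) (.e (nat_lit 90172) (nat_lit 14) (.e (nat_lit 180244) (nat_lit 5) (.e (nat_lit 532501) (nat_lit 1) (.e (nat_lit 57692) (nat_lit 156) (.e (nat_lit 163870) (nat_lit 2) .nil))))) .nil)) 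
(.lf (nat_lit 217914) (.g (nat_lit 2395) (.e (nat_lit 90172) (nat_lit 14) (.e (nat_lit 180244) (nat_lit 5) (.e (nat_lit 532502) (nat_lit 1) (.e (nat_lit 57692) (nat_lit 156) (.e (nat_lit 163869) (nat_lit 2) (.e (nat_lit 196659) (nat_lit 12) (.e (nat_lit 57550) (nat_lit 48) (.e (nat_lit 720941) (nat_lit 22) .nil)))))))) (.g (nat_lit 4) .nil .nil)))))) 
(.nd (nat_lit 3) (.nd (nat_lit 4) (.nd (nat_lit 5) 
(.lf (nat_lit 217862) (.g (nat_lit 3076) (.e (nat_lit 90172) (nat_lit 14) (.e (nat_lit 180244) (nat_lit 5) (.e (nat_lit 532501) (nat_lit 1) (.e (nat_lit 57692) (nat_lit 156) (.e (nat_lit 163869) (nat_lit 2) (.e (nat_lit 196658) (nat_lit 12) (.e (nat_lit 57550) (nat_lit 48) (.e (nat_lit 720938) (nat_lit 22) .nil)))))))) (.g (nat_lit 5) .nil .nil))) 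
(.lf (nat_lit 217894) (.g (nat_lit 3360) (.e (nat_lit 90172) (nat_lit 14) (.e (nat_lit 180244) (nat_lit 5) (.e (nat_lit 532501) (nat_lit 1) (.e (nat_lit 57692) (nat_lit 156) (.e (nat_lit 163874) (nat_lit 3) (.e (nat_lit 204837) (nat_lit 20) (.e (nat_lit 114716) (nat_lit 22) .nil))))))) (.g (nat_lit 6) .nil .nil)))) (.nd (nat_lit 5) 
(.lf (nat_lit 217878) (.g (nat_lit 2303) (.e (nat_lit 90172) (nat_lit 14) (.e (nat_lit 180244) (nat_lit 5) (.e (nat_lit 532501) (nat_lit 1) (.e (nat_lit 57692) (nat_lit 156) (.e (nat_lit 163869) (nat_lit 2) (.e (nat_lit 196677) (nat_lit 16) (.e (nat_lit 122969) (nat_lit 48) (.e (nat_lit 720939) (nat_lit 22) .nil)))))))) (.g (nat_lit 4) .nil .nil))) 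
(.lf (nat_lit 217910) (.g (nat_lit 2300) (.e (nat_lit 90172) (nat_lit 14) (.e (nat_lit 180244) (nat_lit 5) (.e (nat_lit 532502) (nat_lit 1) (.e (nat_lit 57692) (nat_lit 156) (.e (nat_lit 163869) (nat_lit 2) (.e (nat_lit 196658) (nat_lit 12) (.e (nat_lit 57550) (nat_lit 48) (.e (nat_lit 720941) (nat_lit 22) .nil)))))))) (.g (nat_lit 4) .nil .nil))))) (.nd (nat_lit 4) (.nd (nat_lit 5) 
(.lf (nat_lit 217870) (.g (nat_lit 2110) (.e (nat_lit 90172) (nat_lit 14) (.e (nat_lit 180244) (nat_lit 5) (.e (nat_lit 532501) (nat_lit 1) (.e (nat_lit 57692) (nat_lit 156) (.e (nat_lit 163869) (nat_lit 2) (.e (nat_lit 196660) (nat_lit 12) (.e (nat_lit 57549) (nat_lit 48) (.e (nat_lit 720938) (nat_lit 22) .nil)))))))) (.g (nat_lit 4) .nil .nil))) 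
(.lf (nat_lit 217902) (.g (nat_lit 2393) (.e (nat_lit 90172) (nat_lit 14) (.e (nat_lit 180244) (nat_lit 5) (.e (nat_lit 532502) (nat_lit 1) (.e (nat_lit 57688) (nat_lit 156) (.e (nat_lit 163867) (nat_lit 2) (.e (nat_lit 196678) (nat_lit 16) (.e (nat_lit 122971) (nat_lit 48) (.e (nat_lit 720938) (nat_lit 22) .nil)))))))) (.g (nat_lit 4) .nil .nil)))) (.nd (nat_lit 5) 
(.lf (nat_lit 217886) (.g (nat_lit 2920) (.e (nat_lit 90172) (nat_lit 14) (.e (nat_lit 180244) (nat_lit 5) (.e (nat_lit 532501) (nat_lit 1) (.e (nat_lit 57692) (nat_lit 156) (.e (nat_lit 163871) (nat_lit 2) (.e (nat_lit 196677) (nat_lit 16) (.e (nat_lit 122970) (nat_lit 48) (.e (nat_lit 720937) (nat_lit 22) .nil)))))))) (.g (nat_lit 5) .nil .nil))) 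
(.lf (nat_lit 217918) (.g (nat_lit 2272) (.e (nat_lit 90172) (nat_lit 14) (.e (nat_lit 180244) (nat_lit 5) (.e (nat_lit 532502) (nat_lit 1) (.e (nat_lit 57692) (nat_lit 156) (.e (nat_lit 163869) (nat_lit 2) (.e (nat_lit 196661) (nat_lit 12) (.e (nat_lit 57549) (nat_lit 48) (.e (nat_lit 720938) (nat_lit 22) .nil)))))))) (.g (nat_lit 4) .nil .nil)))))))) 
(.nd (nat_lit 1) (.nd (nat_lit 2) (.nd (nat_lit 3) (.nd (nat_lit 4) (.nd (nat_lit 5) 
(.lf (nat_lit 217857) (.g (nat_lit 2199) (.e (nat_lit 90172) (nat_lit 14) (.e (nat_lit 180244) (nat_lit 5) (.e (nat_lit 532501) (nat_lit 1) (.e (nat_lit 57692) (nat_lit 156) (.e (nat_lit 163869) (nat_lit 2) (.e (nat_lit 196628) (nat_lit 9) (.e (nat_lit 968) (nat_lit 81) (.e (nat_lit 2203) (nat_lit 144) (.e (nat_lit 720938) (nat_lit 22) .nil))))))))) (.g (nat_lit 4) .nil .nil))) 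
(.lf (nat_lit 217889) (.g (nat_lit 3321) (.e (nat_lit 90172) (nat_lit 14) (.e (nat_lit 180244) (nat_lit 5) (.e (nat_lit 532501) (nat_lit 1) (.e (nat_lit 57692) (nat_lit 156) (.e (nat_lit 163871) (nat_lit 2) (.e (nat_lit 196677) (nat_lit 16) (.e (nat_lit 130816) (nat_lit 48) (.e (nat_lit 720938) (nat_lit 22) .nil)))))))) (.g (nat_lit 5) .nil .nil)))) (.nd (nat_lit 5) 
(.lf (nat_lit 217873) (.g (nat_lit 3100) (.e (nat_lit 90172) (nat_lit 14) (.e (nat_lit 180244) (nat_lit 5) (.e (nat_lit 532501) (nat_lit 1) (.e (nat_lit 57692) (nat_lit 156) (.e (nat_lit 163869) (nat_lit 2) (.e (nat_lit 196660) (nat_lit 12) (.e (nat_lit 57550) (nat_lit 48) (.e (nat_lit 720938) (nat_lit 22) .nil)))))))) (.g (nat_lit 5) .nil .nil))) 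
(.lf (nat_lit 217905) (.g (nat_lit 2898) (.e (nat_lit 90172) (nat_lit 14) (.e (nat_lit 180244) (nat_lit 5) (.e (nat_lit 532502) (nat_lit 1) (.e (nat_lit 57688) (nat_lit 156) (.e (nat_lit 163873) (nat_lit 3) (.e (nat_lit 204817) (nat_lit 17) (.e (nat_lit 2198) (nat_lit 144) (.e (nat_lit 720941) (nat_lit 22) .nil)))))))) (.g (nat_lit 5) .nil .nil))))) (.nd (nat_lit 4) (.nd (nat_lit 5) 
(.lf (nat_lit 217865) (.g (nat_lit 1981) (.e (nat_lit 90172) (nat_lit 14) (.e (nat_lit 180244) (nat_lit 5) (.e (nat_lit 532501) (nat_lit 1) (.e (nat_lit 57692) (nat_lit 156) (.e (nat_lit 163869) (nat_lit 2) (.e (nat_lit 196659) (nat_lit 12) (.e (nat_lit 57549) (nat_lit 48) (.e (nat_lit 720937) (nat_lit 22) .nil)))))))) (.g (nat_lit 4) .nil .nil))) 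
(.lf (nat_lit 217897) (.g (nat_lit 1737) (.e (nat_lit 90172) (nat_lit 14) (.e (nat_lit 180244) (nat_lit 5) (.e (nat_lit 532502) (nat_lit 1) (.e (nat_lit 57688) (nat_lit 156) (.e (nat_lit 163867) (nat_lit 2) .nil))))) .nil))) (.nd (nat_lit 5) 
(.lf (nat_lit 217881) (.g (nat_lit 2381) (.e (nat_lit 90172) (nat_lit 14) (.e (nat_lit 180244) (nat_lit 5) (.e (nat_lit 532501) (nat_lit 1) (.e (nat_lit 57692) (nat_lit 156) (.e (nat_lit 163869) (nat_lit 2) (.e (nat_lit 196678) (nat_lit 16) (.e (nat_lit 122971) (nat_lit 48) (.e (nat_lit 720937) (nat_lit 22) .nil)))))))) (.g (nat_lit 4) .nil .nil))) 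
(.lf (nat_lit 217913) (.g (nat_lit 2433) (.e (nat_lit 90172) (nat_lit 14) (.e (nat_lit 180244) (nat_lit 5) (.e (nat_lit 532502) (nat_lit 1) (.e (nat_lit 57692) (nat_lit 156) (.e (nat_lit 163869) (nat_lit 2) (.e (nat_lit 196659) (nat_lit 12) (.e (nat_lit 57550) (nat_lit 48) (.e (nat_lit 720938) (nat_lit 22) .nil)))))))) (.g (nat_lit 4) .nil .nil)))))) 
(.nd (nat_lit 3) (.nd (nat_lit 4) (.nd (nat_lit 5) 
(.lf (nat_lit 217861) (.g (nat_lit 3002) (.e (nat_lit 90172) (nat_lit 14) (.e (nat_lit 180244) (nat_lit 5) (.e (nat_lit 532501) (nat_lit 1) (.e (nat_lit 57692) (nat_lit 156) (.e (nat_lit 163869) (nat_lit 2) (.e (nat_lit 196658) (nat_lit 12) (.e (nat_lit 57550) (nat_lit 48) (.e (nat_lit 720937) (nat_lit 22) .nil)))))))) (.g (nat_lit 5) .nil .nil))) 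
(.lf (nat_lit 217893) (.g (nat_lit 2849) (.e (nat_lit 90172) (nat_lit 14) (.e (nat_lit 180244) (nat_lit 5) (.e (nat_lit 532501) (nat_lit 1) (.e (nat_lit 57692) (nat_lit 156) (.e (nat_lit 163874) (nat_lit 3) (.e (nat_lit 204836) (nat_lit 20) (.e (nat_lit 114716) (nat_lit 22) .nil))))))) (.g (nat_lit 5) .nil .nil)))) (.nd (nat_lit 5) 
(.lf (nat_lit 217877) (.g (nat_lit 3264) (.e (nat_lit 90172) (nat_lit 14) (.e (nat_lit 180244) (nat_lit 5) (.e (nat_lit 532501) (nat_lit 1) (.e (nat_lit 57692) (nat_lit 156) (.e (nat_lit 163869) (nat_lit 2) (.e (nat_lit 196661) (nat_lit 12) (.e (nat_lit 57549) (nat_lit 48) (.e (nat_lit 720941) (nat_lit 22) .nil)))))))) (.g (nat_lit 5) .nil .nil))) 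
(.lf (nat_lit 217909) (.g (nat_lit 2340) (.e (nat_lit 90172) (nat_lit 14) (.e (nat_lit 180244) (nat_lit 5) (.e (nat_lit 532502) (nat_lit 1) (.e (nat_lit 57692) (nat_lit 156) (.e (nat_lit 163869) (nat_lit 2) (.e (nat_lit 196658) (nat_lit 12) (.e (nat_lit 57550) (nat_lit 48) (.e (nat_lit 720938) (nat_lit 22) .nil)))))))) (.g (nat_lit 4) .nil .nil))))) (.nd (nat_lit 4) (.nd (nat_lit 5) 
(.lf (nat_lit 217869) (.g (nat_lit 2371) (.e (nat_lit 90172) (nat_lit 14) (.e (nat_lit 180244) (nat_lit 5) (.e (nat_lit 532501) (nat_lit 1) (.e (nat_lit 57692) (nat_lit 156) (.e (nat_lit 163869) (nat_lit 2) (.e (nat_lit 196660) (nat_lit 12) (.e (nat_lit 57549) (nat_lit 48) (.e (nat_lit 720937) (nat_lit 22) .nil)))))))) (.g (nat_lit 4) .nil .nil))) 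
(.lf (nat_lit 217901) (.g (nat_lit 2369) (.e (nat_lit 90172) (nat_lit 14) (.e (nat_lit 180244) (nat_lit 5) (.e (nat_lit 532502) (nat_lit 1) (.e (nat_lit 57688) (nat_lit 156) (.e (nat_lit 163867) (nat_lit 2) (.e (nat_lit 196628) (nat_lit 9) (.e (nat_lit 968) (nat_lit 81) (.e (nat_lit 2203) (nat_lit 144) (.e (nat_lit 720941) (nat_lit 22) .nil))))))))) (.g (nat_lit 4) .nil .nil)))) (.nd (nat_lit 5) 
(.lf (nat_lit 217885) (.g (nat_lit 2324) (.e (nat_lit 90172) (nat_lit 14) (.e (nat_lit 180244) (nat_lit 5) (.e (nat_lit 532501) (nat_lit 1) (.e (nat_lit 57692) (nat_lit 156) (.e (nat_lit 163871) (nat_lit 2) (.e (nat_lit 196660) (nat_lit 12) (.e (nat_lit 57550) (nat_lit 48) (.e (nat_lit 720939) (nat_lit 22) .nil)))))))) (.g (nat_lit 4) .nil .nil))) 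
(.lf (nat_lit 217917) (.g (nat_lit 2334) (.e (nat_lit 90172) (nat_lit 14) (.e (nat_lit 180244) (nat_lit 5) (.e (nat_lit 532502) (nat_lit 1) (.e (nat_lit 57692) (nat_lit 156) (.e (nat_lit 163869) (nat_lit 2) (.e (nat_lit 196660) (nat_lit 12) (.e (nat_lit 57550) (nat_lit 48) (.e (nat_lit 720941) (nat_lit 22) .nil)))))))) (.g (nat_lit 4) .nil .nil))))))) 
(.nd (nat_lit 2) (.nd (nat_lit 3) (.nd (nat_lit 4) (.nd (nat_lit 5) 
(.lf (nat_lit 217859) (.g (nat_lit 2056) (.e (nat_lit 90172) (nat_lit 14) (.e (nat_lit 180244) (nat_lit 5) (.e (nat_lit 532501) (nat_lit 1) (.e (nat_lit 57692) (nat_lit 156) (.e (nat_lit 163869) (nat_lit 2) (.e (nat_lit 196638) (nat_lit 9) (.e (nat_lit 1281) (nat_lit 94) (.e (nat_lit 114716) (nat_lit 22) .nil)))))))) (.g (nat_lit 4) .nil .nil))) 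
(.lf (nat_lit 217891) (.g (nat_lit 2932) (.e (nat_lit 90172) (nat_lit 14) (.e (nat_lit 180244) (nat_lit 5) (.e (nat_lit 532501) (nat_lit 1) (.e (nat_lit 57692) (nat_lit 156) (.e (nat_lit 163874) (nat_lit 3) (.e (nat_lit 204815) (nat_lit 17) (.e (nat_lit 2198) (nat_lit 144) (.e (nat_lit 720941) (nat_lit 22) .nil)))))))) (.g (nat_lit 5) .nil .nil)))) (.nd (nat_lit 5) 
(.lf (nat_lit 217875) (.g (nat_lit 3272) (.e (nat_lit 90172) (nat_lit 14) (.e (nat_lit 180244) (nat_lit 5) (.e (nat_lit 532501) (nat_lit 1) (.e (nat_lit 57692) (nat_lit 156) (.e (nat_lit 163869) (nat_lit 2) (.e (nat_lit 196661) (nat_lit 12) (.e (nat_lit 57549) (nat_lit 48) (.e (nat_lit 720937) (nat_lit 22) .nil)))))))) (.g (nat_lit 5) .nil .nil))) 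
(.lf (nat_lit 217907) (.g (nat_lit 2370) (.e (nat_lit 90172) (nat_lit 14) (.e (nat_lit 180244) (nat_lit 5) (.e (nat_lit 532502) (nat_lit 1) (.e (nat_lit 57692) (nat_lit 156) (.e (nat_lit 163869) (nat_lit 2) (.e (nat_lit 196628) (nat_lit 9) (.e (nat_lit 968) (nat_lit 81) (.e (nat_lit 2203) (nat_lit 144) (.e (nat_lit 720941) (nat_lit 22) .nil))))))))) (.g (nat_lit 4) .nil .nil))))) 
(.nd (nat_lit 4) (.nd (nat_lit 5) 
(.lf (nat_lit 217867) (.g (nat_lit 3169) (.e (nat_lit 90172) (nat_lit 14) (.e (nat_lit 180244) (nat_lit 5) (.e (nat_lit 532501) (nat_lit 1) (.e (nat_lit 57692) (nat_lit 156) (.e (nat_lit 163869) (nat_lit 2) (.e (nat_lit 196659) (nat_lit 12) (.e (nat_lit 57550) (nat_lit 48) (.e (nat_lit 720938) (nat_lit 22) .nil)))))))) (.g (nat_lit 5) .nil .nil))) 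
(.lf (nat_lit 217899) (.g (nat_lit 2371) (.e (nat_lit 90172) (nat_lit 14) (.e (nat_lit 180244) (nat_lit 5) (.e (nat_lit 532502) (nat_lit 1) (.e (nat_lit 57688) (nat_lit 156) (.e (nat_lit 163867) (nat_lit 2) (.e (nat_lit 196617) (nat_lit 9) (.e (nat_lit 1280) (nat_lit 94) (.e (nat_lit 114716) (nat_lit 22) .nil)))))))) (.g (nat_lit 4) .nil .nil)))) (.nd (nat_lit 5) 
(.lf (nat_lit 217883) (.g (nat_lit 2830) (.e (nat_lit 90172) (nat_lit 14) (.e (nat_lit 180244) (nat_lit 5) (.e (nat_lit 532501) (nat_lit 1) (.e (nat_lit 57692) (nat_lit 156) (.e (nat_lit 163870) (nat_lit 2) (.e (nat_lit 196661) (nat_lit 12) (.e (nat_lit 57549) (nat_lit 48) (.e (nat_lit 720937) (nat_lit 22) .nil)))))))) (.g (nat_lit 5) .nil .nil))) 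
(.lf (nat_lit 217915) (.g (nat_lit 2334) (.e (nat_lit 90172) (nat_lit 14) (.e (nat_lit 180244) (nat_lit 5) (.e (nat_lit 532502) (nat_lit 1) (.e (nat_lit 57692) (nat_lit 156) (.e (nat_lit 163869) (nat_lit 2) (.e (nat_lit 196660) (nat_lit 12) (.e (nat_lit 57550) (nat_lit 48) (.e (nat_lit 720937) (nat_lit 22) .nil)))))))) (.g (nat_lit 4) .nil .nil)))))) 
(.nd (nat_lit 3) (.nd (nat_lit 4) (.nd (nat_lit 5) 
(.lf (nat_lit 217863) (.g (nat_lit 3036) (.e (nat_lit 90172) (nat_lit 14) (.e (nat_lit 180244) (nat_lit 5) (.e (nat_lit 532501) (nat_lit 1) (.e (nat_lit 57692) (nat_lit 156) (.e (nat_lit 163869) (nat_lit 2) (.e (nat_lit 196658) (nat_lit 12) (.e (nat_lit 57550) (nat_lit 48) (.e (nat_lit 720941) (nat_lit 22) .nil)))))))) (.g (nat_lit 5) .nil .nil))) 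
(.lf (nat_lit 217895) (.g (nat_lit 3302) (.e (nat_lit 90172) (nat_lit 14) (.e (nat_lit 180244) (nat_lit 5) (.e (nat_lit 532501) (nat_lit 1) (.e (nat_lit 57692) (nat_lit 156) (.e (nat_lit 163875) (nat_lit 3) (.e (nat_lit 204817) (nat_lit 17) (.e (nat_lit 2198) (nat_lit 144) (.e (nat_lit 720941) (nat_lit 22) .nil)))))))) (.g (nat_lit 5) .nil .nil)))) (.nd (nat_lit 5) 
(.lf (nat_lit 217879) (.g (nat_lit 2873) (.e (nat_lit 90172) (nat_lit 14) (.e (nat_lit 180244) (nat_lit 5) (.e (nat_lit 532501) (nat_lit 1) (.e (nat_lit 57692) (nat_lit 156) (.e (nat_lit 163869) (nat_lit 2) (.e (nat_lit 196677) (nat_lit 16) (.e (nat_lit 122970) (nat_lit 48) (.e (nat_lit 720937) (nat_lit 22) .nil)))))))) (.g (nat_lit 5) .nil .nil))) 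
(.lf (nat_lit 217911) (.g (nat_lit 2327) (.e (nat_lit 90172) (nat_lit 14) (.e (nat_lit 180244) (nat_lit 5) (.e (nat_lit 532502) (nat_lit 1) (.e (nat_lit 57692) (nat_lit 156) (.e (nat_lit 163869) (nat_lit 2) (.e (nat_lit 196658) (nat_lit 12) (.e (nat_lit 57551) (nat_lit 48) (.e (nat_lit 720938) (nat_lit 22) .nil)))))))) (.g (nat_lit 4) .nil .nil))))) (.nd (nat_lit 4) (.nd (nat_lit 5) 
(.lf (nat_lit 217871) (.g (nat_lit 2374) (.e (nat_lit 90172) (nat_lit 14) (.e (nat_lit 180244) (nat_lit 5) (.e (nat_lit 532501) (nat_lit 1) (.e (nat_lit 57692) (nat_lit 156) (.e (nat_lit 163869) (nat_lit 2) (.e (nat_lit 196660) (nat_lit 12) (.e (nat_lit 57549) (nat_lit 48) (.e (nat_lit 720941) (nat_lit 22) .nil)))))))) (.g (nat_lit 4) .nil .nil))) 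
(.lf (nat_lit 217903) (.g (nat_lit 2290) (.e (nat_lit 90172) (nat_lit 14) (.e (nat_lit 180244) (nat_lit 5) (.e (nat_lit 532502) (nat_lit 1) (.e (nat_lit 57688) (nat_lit 156) (.e (nat_lit 163873) (nat_lit 3) (.e (nat_lit 204815) (nat_lit 17) (.e (nat_lit 2198) (nat_lit 144) (.e (nat_lit 720941) (nat_lit 22) .nil)))))))) (.g (nat_lit 4) .nil .nil)))) (.nd (nat_lit 5) 
(.lf (nat_lit 217887) (.g (nat_lit 3313) (.e (nat_lit 90172) (nat_lit 14) (.e (nat_lit 180244) (nat_lit 5) (.e (nat_lit 532501) (nat_lit 1) (.e (nat_lit 57692) (nat_lit 156) (.e (nat_lit 163871) (nat_lit 2) (.e (nat_lit 196677) (nat_lit 16) (.e (nat_lit 122970) (nat_lit 48) (.e (nat_lit 720941) (nat_lit 22) .nil)))))))) (.g (nat_lit 5) .nil .nil))) 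
(.lf (nat_lit 217919) (.g (nat_lit 2137) (.e (nat_lit 90172) (nat_lit 14) (.e (nat_lit 180244) (nat_lit 5) (.e (nat_lit 532502) (nat_lit 1) (.e (nat_lit 57692) (nat_lit 156) (.e (nat_lit 163869) (nat_lit 2) (.e (nat_lit 196677) (nat_lit 16) (.e (nat_lit 122970) (nat_lit 48) (.e (nat_lit 720937) (nat_lit 22) .nil)))))))) (.g (nat_lit 4) .nil .nil)))))))))

noncomputable def tv2864 : DT := (.nd (nat_lit 0) (.nd (nat_lit 1) (.nd (nat_lit 2) (.nd (nat_lit 3) (.nd (nat_lit 4) (.nd (nat_lit 5) 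
(.lf (nat_lit 217920) (.g (nat_lit 2101) (.e (nat_lit 90172) (nat_lit 14) (.e (nat_lit 180244) (nat_lit 5) (.e (nat_lit 532502) (nat_lit 1) (.e (nat_lit 57692) (nat_lit 156) (.e (nat_lit 163871) (nat_lit 2) (.e (nat_lit 196677) (nat_lit 16) (.e (nat_lit 122970) (nat_lit 48) (.e (nat_lit 720937) (nat_lit 22) .nil)))))))) (.g (nat_lit 4) .nil .nil))) 
(.lf (nat_lit 217952) (.g (nat_lit 2974) (.e (nat_lit 90172) (nat_lit 14) (.e (nat_lit 180244) (nat_lit 5) (.e (nat_lit 532503) (nat_lit 1) (.e (nat_lit 57688) (nat_lit 156) (.e (nat_lit 163867) (nat_lit 2) (.e (nat_lit 196628) (nat_lit 9) (.e (nat_lit 968) (nat_lit 81) (.e (nat_lit 2198) (nat_lit 144) (.e (nat_lit 720941) (nat_lit 22) .nil))))))))) (.g (nat_lit 4) .nil .nil)))) (.nd (nat_lit 5) 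
(.lf (nat_lit 217936) (.g (nat_lit 2977) (.e (nat_lit 90172) (nat_lit 14) (.e (nat_lit 180244) (nat_lit 5) (.e (nat_lit 532503) (nat_lit 1) (.e (nat_lit 57685) (nat_lit 156) (.e (nat_lit 163871) (nat_lit 2) (.e (nat_lit 196660) (nat_lit 12) (.e (nat_lit 57550) (nat_lit 48) (.e (nat_lit 720937) (nat_lit 22) .nil)))))))) (.g (nat_lit 5) .nil .nil))) 
(.lf (nat_lit 217968) (.g (nat_lit 2787) (.e (nat_lit 90172) (nat_lit 14) (.e (nat_lit 180244) (nat_lit 5) (.e (nat_lit 532503) (nat_lit 1) (.e (nat_lit 57688) (nat_lit 156) (.e (nat_lit 163867) (nat_lit 2) (.e (nat_lit 196677) (nat_lit 16) (.e (nat_lit 122969) (nat_lit 48) (.e (nat_lit 720937) (nat_lit 22) .nil)))))))) (.g (nat_lit 4) .nil .nil))))) (.nd (nat_lit 4) (.nd (nat_lit 5) 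
(.lf (nat_lit 217928) (.g (nat_lit 3043) (.e (nat_lit 90172) (nat_lit 14) (.e (nat_lit 180244) (nat_lit 5) (.e (nat_lit 532502) (nat_lit 1) (.e (nat_lit 57692) (nat_lit 156) (.e (nat_lit 163875) (nat_lit 3) (.e (nat_lit 204817) (nat_lit 17) (.e (nat_lit 2198) (nat_lit 144) (.e (nat_lit 720941) (nat_lit 22) .nil)))))))) (.g (nat_lit 5) .nil .nil))) 
(.lf (nat_lit 217960) (.g (nat_lit 2655) (.e (nat_lit 90172) (nat_lit 14) (.e (nat_lit 180244) (nat_lit 5) (.e (nat_lit 532503) (nat_lit 1) (.e (nat_lit 57688) (nat_lit 156) (.e (nat_lit 163867) (nat_lit 2) (.e (nat_lit 196643) (nat_lit 9) (.e (nat_lit 1280) (nat_lit 94) (.e (nat_lit 114716) (nat_lit 22) .nil)))))))) (.g (nat_lit 4) .nil .nil)))) (.nd (nat_lit 5) 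
(.lf (nat_lit 217944) (.g (nat_lit 2881) (.e (nat_lit 90172) (nat_lit 14) (.e (nat_lit 180244) (nat_lit 5) (.e (nat_lit 532503) (nat_lit 1) (.e (nat_lit 57685) (nat_lit 156) (.e (nat_lit 163875) (nat_lit 3) (.e (nat_lit 204815) (nat_lit 17) (.e (nat_lit 2203) (nat_lit 144) (.e (nat_lit 720941) (nat_lit 22) .nil)))))))) (.g (nat_lit 5) .nil .nil))) 
(.lf (nat_lit 217976) (.g (nat_lit 2741) (.e (nat_lit 90172) (nat_lit 14) (.e (nat_lit 180244) (nat_lit 5) (.e (nat_lit 532503) (nat_lit 1) (.e (nat_lit 57688) (nat_lit 156) (.e (nat_lit 163869) (nat_lit 2) (.e (nat_lit 196628) (nat_lit 9) (.e (nat_lit 1275) (nat_lit 94) (.e (nat_lit 114714) (nat_lit 22) .nil)))))))) (.g (nat_lit 4) .nil .nil)))))) 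
(.nd (nat_lit 3) (.nd (nat_lit 4) (.nd (nat_lit 5) 
(.lf (nat_lit 217924) (.g (nat_lit 2131) (.e (nat_lit 90172) (nat_lit 14) (.e (nat_lit 180244) (nat_lit 5) (.e (nat_lit 532502) (nat_lit 1) (.e (nat_lit 57692) (nat_lit 156) (.e (nat_lit 163874) (nat_lit 3) (.e (nat_lit 204817) (nat_lit 17) (.e (nat_lit 2203) (nat_lit 144) (.e (nat_lit 720941) (nat_lit 22) .nil)))))))) (.g (nat_lit 4) .nil .nil))) 
(.lf (nat_lit 217956) (.g (nat_lit 3819) (.e (nat_lit 90172) (nat_lit 14) (.e (nat_lit 180244) (nat_lit 5) (.e (nat_lit 532503) (nat_lit 1) (.e (nat_lit 57688) (nat_lit 156) (.e (nat_lit 163867) (nat_lit 2) (.e (nat_lit 196633) (nat_lit 9) (.e (nat_lit 1279) (nat_lit 94) (.e (nat_lit 114714) (nat_lit 22) .nil)))))))) (.g (nat_lit 5) .nil .nil)))) (.nd (nat_lit 5) 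
(.lf (nat_lit 217940) (.g (nat_lit 3126) (.e (nat_lit 90172) (nat_lit 14) (.e (nat_lit 180244) (nat_lit 5) (.e (nat_lit 532503) (nat_lit 1) (.e (nat_lit 57685) (nat_lit 156) (.e (nat_lit 163871) (nat_lit 2) (.e (nat_lit 196677) (nat_lit 16) (.e (nat_lit 122970) (nat_lit 48) (.e (nat_lit 720938) (nat_lit 22) .nil)))))))) (.g (nat_lit 5) .nil .nil))) 
(.lf (nat_lit 217972) (.g (nat_lit 3775) (.e (nat_lit 90172) (nat_lit 14) (.e (nat_lit 180244) (nat_lit 5) (.e (nat_lit 532503) (nat_lit 1) (.e (nat_lit 57688) (nat_lit 156) (.e (nat_lit 163867) (nat_lit 2) (.e (nat_lit 196678) (nat_lit 16) (.e (nat_lit 122971) (nat_lit 48) (.e (nat_lit 720937) (nat_lit 22) .nil)))))))) (.g (nat_lit 5) .nil .nil))))) (.nd (nat_lit 4) (.nd (nat_lit 5) 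
(.lf (nat_lit 217932) (.g (nat_lit 1599) (.e (nat_lit 90172) (nat_lit 14) (.e (nat_lit 180244) (nat_lit 5) (.e (nat_lit 532503) (nat_lit 1) (.e (nat_lit 57682) (nat_lit 155) .nil)))) .nil)) 
(.lf (nat_lit 217964) (.g (nat_lit 2626) (.e (nat_lit 90172) (nat_lit 14) (.e (nat_lit 180244) (nat_lit 5) (.e (nat_lit 532503) (nat_lit 1) (.e (nat_lit 57688) (nat_lit 156) (.e (nat_lit 163867) (nat_lit 2) (.e (nat_lit 196660) (nat_lit 12) (.e (nat_lit 57549) (nat_lit 48) (.e (nat_lit 720941) (nat_lit 22) .nil)))))))) (.g (nat_lit 4) .nil .nil)))) (.nd (nat_lit 5) 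
(.lf (nat_lit 217948) (.g (nat_lit 2645) (.e (nat_lit 90172) (nat_lit 14) (.e (nat_lit 180244) (nat_lit 5) (.e (nat_lit 532503) (nat_lit 1) (.e (nat_lit 57687) (nat_lit 156) (.e (nat_lit 163874) (nat_lit 3) (.e (nat_lit 204817) (nat_lit 17) (.e (nat_lit 2198) (nat_lit 144) (.e (nat_lit 720941) (nat_lit 22) .nil)))))))) (.g (nat_lit 4) .nil .nil))) 
(.lf (nat_lit 217980) (.g (nat_lit 2790) (.e (nat_lit 90172) (nat_lit 14) (.e (nat_lit 180244) (nat_lit 5) (.e (nat_lit 532503) (nat_lit 1) (.e (nat_lit 57688) (nat_lit 156) (.e (nat_lit 163869) (nat_lit 2) (.e (nat_lit 196677) (nat_lit 16) (.e (nat_lit 122969) (nat_lit 48) (.e (nat_lit 720937) (nat_lit 22) .nil)))))))) (.g (nat_lit 4) .nil .nil))))))) 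
(.nd (nat_lit 2) (.nd (nat_lit 3) (.nd (nat_lit 4) (.nd (nat_lit 5) 
(.lf (nat_lit 217922) (.g (nat_lit 3237) (.e (nat_lit 90172) (nat_lit 14) (.e (nat_lit 180244) (nat_lit 5) (.e (nat_lit 532502) (nat_lit 1) (.e (nat_lit 57692) (nat_lit 156) (.e (nat_lit 163874) (nat_lit 3) (.e (nat_lit 204815) (nat_lit 17) (.e (nat_lit 2203) (nat_lit 144) (.e (nat_lit 720941) (nat_lit 22) .nil)))))))) (.g (nat_lit 5) .nil .nil))) 
(.lf (nat_lit 217954) (.g (nat_lit 3751) (.e (nat_lit 90172) (nat_lit 14) (.e (nat_lit 180244) (nat_lit 5) (.e (nat_lit 532503) (nat_lit 1) (.e (nat_lit 57688) (nat_lit 156) (.e (nat_lit 163867) (nat_lit 2) (.e (nat_lit 196629) (nat_lit 9) (.e (nat_lit 1275) (nat_lit 94) (.e (nat_lit 114714) (nat_lit 22) .nil)))))))) (.g (nat_lit 5) .nil .nil)))) (.nd (nat_lit 5) 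
(.lf (nat_lit 217938) (.g (nat_lit 2968) (.e (nat_lit 90172) (nat_lit 14) (.e (nat_lit 180244) (nat_lit 5) (.e (nat_lit 532503) (nat_lit 1) (.e (nat_lit 57685) (nat_lit 156) (.e (nat_lit 163871) (nat_lit 2) (.e (nat_lit 196660) (nat_lit 12) (.e (nat_lit 57550) (nat_lit 48) (.e (nat_lit 720941) (nat_lit 22) .nil)))))))) (.g (nat_lit 5) .nil .nil))) 
(.lf (nat_lit 217970) (.g (nat_lit 2740) (.e (nat_lit 90172) (nat_lit 14) (.e (nat_lit 180244) (nat_lit 5) (.e (nat_lit 532503) (nat_lit 1) (.e (nat_lit 57688) (nat_lit 156) (.e (nat_lit 163867) (nat_lit 2) (.e (nat_lit 196677) (nat_lit 16) (.e (nat_lit 122969) (nat_lit 48) (.e (nat_lit 720941) (nat_lit 22) .nil)))))))) (.g (nat_lit 4) .nil .nil))))) (.nd (nat_lit 4) (.nd (nat_lit 5) 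
(.lf (nat_lit 217930) (.g (nat_lit 3260) (.e (nat_lit 90172) (nat_lit 14) (.e (nat_lit 180244) (nat_lit 5) (.e (nat_lit 532503) (nat_lit 1) (.e (nat_lit 57681) (nat_lit 155) (.e (nat_lit 122891) (nat_lit 2) (.e (nat_lit 90165) (nat_lit 12) (.e (nat_lit 171776) (nat_lit 48) (.e (nat_lit 720941) (nat_lit 22) .nil)))))))) (.g (nat_lit 4) .nil .nil))) 
(.lf (nat_lit 217962) (.g (nat_lit 2729) (.e (nat_lit 90172) (nat_lit 14) (.e (nat_lit 180244) (nat_lit 5) (.e (nat_lit 532503) (nat_lit 1) (.e (nat_lit 57688) (nat_lit 156) (.e (nat_lit 163867) (nat_lit 2) (.e (nat_lit 196658) (nat_lit 12) (.e (nat_lit 57551) (nat_lit 48) (.e (nat_lit 720937) (nat_lit 22) .nil)))))))) (.g (nat_lit 4) .nil .nil)))) (.nd (nat_lit 5) 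
(.lf (nat_lit 217946) (.g (nat_lit 1817) (.e (nat_lit 90172) (nat_lit 14) (.e (nat_lit 180244) (nat_lit 5) (.e (nat_lit 532503) (nat_lit 1) (.e (nat_lit 57686) (nat_lit 156) (.e (nat_lit 163871) (nat_lit 2) .nil))))) .nil)) 
(.lf (nat_lit 217978) (.g (nat_lit 2674) (.e (nat_lit 90172) (nat_lit 14) (.e (nat_lit 180244) (nat_lit 5) (.e (nat_lit 532503) (nat_lit 1) (.e (nat_lit 57688) (nat_lit 156) (.e (nat_lit 163869) (nat_lit 2) (.e (nat_lit 196661) (nat_lit 12) (.e (nat_lit 57549) (nat_lit 48) (.e (nat_lit 720937) (nat_lit 22) .nil)))))))) (.g (nat_lit 4) .nil .nil)))))) 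
(.nd (nat_lit 3) (.nd (nat_lit 4) (.nd (nat_lit 5) 
(.lf (nat_lit 217926) (.g (nat_lit 2957) (.e (nat_lit 90172) (nat_lit 14) (.e (nat_lit 180244) (nat_lit 5) (.e (nat_lit 532502) (nat_lit 1) (.e (nat_lit 57692) (nat_lit 156) (.e (nat_lit 163874) (nat_lit 3) (.e (nat_lit 204836) (nat_lit 20) (.e (nat_lit 114714) (nat_lit 22) .nil))))))) (.g (nat_lit 5) .nil .nil))) 
(.lf (nat_lit 217958) (.g (nat_lit 2713) (.e (nat_lit 90172) (nat_lit 14) (.e (nat_lit 180244) (nat_lit 5) (.e (nat_lit 532503) (nat_lit 1) (.e (nat_lit 57688) (nat_lit 156) (.e (nat_lit 163867) (nat_lit 2) (.e (nat_lit 196636) (nat_lit 9) (.e (nat_lit 1280) (nat_lit 94) (.e (nat_lit 114716) (nat_lit 22) .nil)))))))) (.g (nat_lit 4) .nil .nil)))) (.nd (nat_lit 5) 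
(.lf (nat_lit 217942) (.g (nat_lit 2875) (.e (nat_lit 90172) (nat_lit 14) (.e (nat_lit 180244) (nat_lit 5) (.e (nat_lit 532503) (nat_lit 1) (.e (nat_lit 57685) (nat_lit 156) (.e (nat_lit 163874) (nat_lit 3) (.e (nat_lit 204817) (nat_lit 17) (.e (nat_lit 2198) (nat_lit 144) (.e (nat_lit 720941) (nat_lit 22) .nil)))))))) (.g (nat_lit 5) .nil .nil))) 
(.lf (nat_lit 217974) (.g (nat_lit 2163) (.e (nat_lit 90172) (nat_lit 14) (.e (nat_lit 180244) (nat_lit 5) (.e (nat_lit 532503) (nat_lit 1) (.e (nat_lit 57688) (nat_lit 156) (.e (nat_lit 163868) (nat_lit 2) .nil))))) .nil)))) (.nd (nat_lit 4) (.nd (nat_lit 5) 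
(.lf (nat_lit 217934) (.g (nat_lit 3155) (.e (nat_lit 90172) (nat_lit 14) (.e (nat_lit 180244) (nat_lit 5) (.e (nat_lit 532503) (nat_lit 1) (.e (nat_lit 57685) (nat_lit 156) (.e (nat_lit 163867) (nat_lit 2) (.e (nat_lit 196635) (nat_lit 9) (.e (nat_lit 1280) (nat_lit 94) (.e (nat_lit 114716) (nat_lit 22) .nil)))))))) (.g (nat_lit 5) .nil .nil))) 
(.lf (nat_lit 217966) (.g (nat_lit 3520) (.e (nat_lit 90172) (nat_lit 14) (.e (nat_lit 180244) (nat_lit 5) (.e (nat_lit 532503) (nat_lit 1) (.e (nat_lit 57688) (nat_lit 156) (.e (nat_lit 163867) (nat_lit 2) (.e (nat_lit 196660) (nat_lit 12) (.e (nat_lit 57550) (nat_lit 48) (.e (nat_lit 720938) (nat_lit 22) .nil)))))))) (.g (nat_lit 5) .nil .nil)))) (.nd (nat_lit 5) 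
(.lf (nat_lit 217950) (.g (nat_lit 2091) (.e (nat_lit 90172) (nat_lit 14) (.e (nat_lit 180244) (nat_lit 5) (.e (nat_lit 532503) (nat_lit 1) (.e (nat_lit 57688) (nat_lit 156) (.e (nat_lit 163867) (nat_lit 2) .nil))))) .nil)) 
(.lf (nat_lit 217982) (.g (nat_lit 2741) (.e (nat_lit 90172) (nat_lit 14) (.e (nat_lit 180244) (nat_lit 5) (.e (nat_lit 532503) (nat_lit 1) (.e (nat_lit 57688) (nat_lit 156) (.e (nat_lit 163869) (nat_lit 2) (.e (nat_lit 196677) (nat_lit 16) (.e (nat_lit 122969) (nat_lit 48) (.e (nat_lit 720941) (nat_lit 22) .nil)))))))) (.g (nat_lit 4) .nil .nil)))))))) 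
(.nd (nat_lit 1) (.nd (nat_lit 2) (.nd (nat_lit 3) (.nd (nat_lit 4) (.nd (nat_lit 5) 
(.lf (nat_lit 217921) (.g (nat_lit 2634) (.e (nat_lit 90172) (nat_lit 14) (.e (nat_lit 180244) (nat_lit 5) (.e (nat_lit 532502) (nat_lit 1) (.e (nat_lit 57692) (nat_lit 156) (.e (nat_lit 163874) (nat_lit 3) (.e (nat_lit 204815) (nat_lit 17) (.e (nat_lit 2198) (nat_lit 144) (.e (nat_lit 720941) (nat_lit 22) .nil)))))))) (.g (nat_lit 5) .nil .nil))) 
(.lf (nat_lit 217953) (.g (nat_lit 2817) (.e (nat_lit 90172) (nat_lit 14) (.e (nat_lit 180244) (nat_lit 5) (.e (nat_lit 532503) (nat_lit 1) (.e (nat_lit 57688) (nat_lit 156) (.e (nat_lit 163867) (nat_lit 2) (.e (nat_lit 196628) (nat_lit 9) (.e (nat_lit 7936) (nat_lit 94) (.e (nat_lit 114714) (nat_lit 22) .nil)))))))) (.g (nat_lit 4) .nil .nil)))) (.nd (nat_lit 5) 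
(.lf (nat_lit 217937) (.g (nat_lit 3010) (.e (nat_lit 90172) (nat_lit 14) (.e (nat_lit 180244) (nat_lit 5) (.e (nat_lit 532503) (nat_lit 1) (.e (nat_lit 57685) (nat_lit 156) (.e (nat_lit 163871) (nat_lit 2) (.e (nat_lit 196660) (nat_lit 12) (.e (nat_lit 57550) (nat_lit 48) (.e (nat_lit 720938) (nat_lit 22) .nil)))))))) (.g (nat_lit 5) .nil .nil))) 
(.lf (nat_lit 217969) (.g (nat_lit 2819) (.e (nat_lit 90172) (nat_lit 14) (.e (nat_lit 180244) (nat_lit 5) (.e (nat_lit 532503) (nat_lit 1) (.e (nat_lit 57688) (nat_lit 156) (.e (nat_lit 163867) (nat_lit 2) (.e (nat_lit 196677) (nat_lit 16) (.e (nat_lit 122969) (nat_lit 48) (.e (nat_lit 720938) (nat_lit 22) .nil)))))))) (.g (nat_lit 4) .nil .nil))))) (.nd (nat_lit 4) (.nd (nat_lit 5) 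
(.lf (nat_lit 217929) (.g (nat_lit 2160) (.e (nat_lit 90172) (nat_lit 14) (.e (nat_lit 180244) (nat_lit 5) (.e (nat_lit 532503) (nat_lit 1) (.e (nat_lit 57655) (nat_lit 152) (.e (nat_lit 2714) (nat_lit 171) .nil))))) .nil)) 
(.lf (nat_lit 217961) (.g (nat_lit 2498) (.e (nat_lit 90172) (nat_lit 14) (.e (nat_lit 180244) (nat_lit 5) (.e (nat_lit 532503) (nat_lit 1) (.e (nat_lit 57688) (nat_lit 156) (.e (nat_lit 163867) (nat_lit 2) (.e (nat_lit 196658) (nat_lit 12) (.e (nat_lit 57550) (nat_lit 48) (.e (nat_lit 720939) (nat_lit 22) .nil)))))))) (.g (nat_lit 4) .nil .nil)))) (.nd (nat_lit 5) 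
(.lf (nat_lit 217945) (.g (nat_lit 2928) (.e (nat_lit 90172) (nat_lit 14) (.e (nat_lit 180244) (nat_lit 5) (.e (nat_lit 532503) (nat_lit 1) (.e (nat_lit 57685) (nat_lit 156) (.e (nat_lit 163875) (nat_lit 3) (.e (nat_lit 204817) (nat_lit 17) (.e (nat_lit 2203) (nat_lit 144) (.e (nat_lit 720941) (nat_lit 22) .nil)))))))) (.g (nat_lit 5) .nil .nil))) 
(.lf (nat_lit 217977) (.g (nat_lit 2607) (.e (nat_lit 90172) (nat_lit 14) (.e (nat_lit 180244) (nat_lit 5) (.e (nat_lit 532503) (nat_lit 1) (.e (nat_lit 57688) (nat_lit 156) (.e (nat_lit 163869) (nat_lit 2) (.e (nat_lit 196658) (nat_lit 12) (.e (nat_lit 57551) (nat_lit 48) (.e (nat_lit 720941) (nat_lit 22) .nil)))))))) (.g (nat_lit 4) .nil .nil)))))) 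
(.nd (nat_lit 3) (.nd (nat_lit 4) (.nd (nat_lit 5) 
(.lf (nat_lit 217925) (.g (nat_lit 3042) (.e (nat_lit 90172) (nat_lit 14) (.e (nat_lit 180244) (nat_lit 5) (.e (nat_lit 532502) (nat_lit 1) (.e (nat_lit 57692) (nat_lit 156) (.e (nat_lit 163874) (nat_lit 3) (.e (nat_lit 204818) (nat_lit 17) (.e (nat_lit 2203) (nat_lit 144) (.e (nat_lit 720941) (nat_lit 22) .nil)))))))) (.g (nat_lit 5) .nil .nil))) 
(.lf (nat_lit 217957) (.g (nat_lit 2761) (.e (nat_lit 90172) (nat_lit 14) (.e (nat_lit 180244) (nat_lit 5) (.e (nat_lit 532503) (nat_lit 1) (.e (nat_lit 57688) (nat_lit 156) (.e (nat_lit 163867) (nat_lit 2) (.e (nat_lit 196633) (nat_lit 9) (.e (nat_lit 1280) (nat_lit 94) (.e (nat_lit 114716) (nat_lit 22) .nil)))))))) (.g (nat_lit 4) .nil .nil)))) (.nd (nat_lit 5) 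
(.lf (nat_lit 217941) (.g (nat_lit 3288) (.e (nat_lit 90172) (nat_lit 14) (.e (nat_lit 180244) (nat_lit 5) (.e (nat_lit 532503) (nat_lit 1) (.e (nat_lit 57685) (nat_lit 156) (.e (nat_lit 163873) (nat_lit 3) (.e (nat_lit 204815) (nat_lit 17) (.e (nat_lit 2203) (nat_lit 144) (.e (nat_lit 720941) (nat_lit 22) .nil)))))))) (.g (nat_lit 5) .nil .nil))) 
(.lf (nat_lit 217973) (.g (nat_lit 2720) (.e (nat_lit 90172) (nat_lit 14) (.e (nat_lit 180244) (nat_lit 5) (.e (nat_lit 532503) (nat_lit 1) (.e (nat_lit 57688) (nat_lit 156) (.e (nat_lit 163867) (nat_lit 2) (.e (nat_lit 196678) (nat_lit 16) (.e (nat_lit 122971) (nat_lit 48) (.e (nat_lit 720941) (nat_lit 22) .nil)))))))) (.g (nat_lit 4) .nil .nil))))) (.nd (nat_lit 4) (.nd (nat_lit 5) 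
(.lf (nat_lit 217933) (.g (nat_lit 1599) (.e (nat_lit 90172) (nat_lit 14) (.e (nat_lit 180244) (nat_lit 5) (.e (nat_lit 532503) (nat_lit 1) (.e (nat_lit 57684) (nat_lit 155) .nil)))) .nil)) 
(.lf (nat_lit 217965) (.g (nat_lit 3487) (.e (nat_lit 90172) (nat_lit 14) (.e (nat_lit 180244) (nat_lit 5) (.e (nat_lit 532503) (nat_lit 1) (.e (nat_lit 57688) (nat_lit 156) (.e (nat_lit 163867) (nat_lit 2) (.e (nat_lit 196660) (nat_lit 12) (.e (nat_lit 57550) (nat_lit 48) (.e (nat_lit 720937) (nat_lit 22) .nil)))))))) (.g (nat_lit 5) .nil .nil)))) (.nd (nat_lit 5) 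
(.lf (nat_lit 217949) (.g (nat_lit 2166) (.e (nat_lit 90172) (nat_lit 14) (.e (nat_lit 180244) (nat_lit 5) (.e (nat_lit 532503) (nat_lit 1) (.e (nat_lit 57688) (nat_lit 156) (.e (nat_lit 163845) (nat_lit 0) .nil))))) .nil)) 
(.lf (nat_lit 217981) (.g (nat_lit 2822) (.e (nat_lit 90172) (nat_lit 14) (.e (nat_lit 180244) (nat_lit 5) (.e (nat_lit 532503) (nat_lit 1) (.e (nat_lit 57688) (nat_lit 156) (.e (nat_lit 163869) (nat_lit 2) (.e (nat_lit 196677) (nat_lit 16) (.e (nat_lit 122969) (nat_lit 48) (.e (nat_lit 720938) (nat_lit 22) .nil)))))))) (.g (nat_lit 4) .nil .nil))))))) 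
(.nd (nat_lit 2) (.nd (nat_lit 3) (.nd (nat_lit 4) (.nd (nat_lit 5) 
(.lf (nat_lit 217923) (.g (nat_lit 3101) (.e (nat_lit 90172) (nat_lit 14) (.e (nat_lit 180244) (nat_lit 5) (.e (nat_lit 532502) (nat_lit 1) (.e (nat_lit 57692) (nat_lit 156) (.e (nat_lit 163874) (nat_lit 3) (.e (nat_lit 204817) (nat_lit 17) (.e (nat_lit 2198) (nat_lit 144) (.e (nat_lit 720941) (nat_lit 22) .nil)))))))) (.g (nat_lit 5) .nil .nil))) 
(.lf (nat_lit 217955) (.g (nat_lit 2649) (.e (nat_lit 90172) (nat_lit 14) (.e (nat_lit 180244) (nat_lit 5) (.e (nat_lit 532503) (nat_lit 1) (.e (nat_lit 57688) (nat_lit 156) (.e (nat_lit 163867) (nat_lit 2) (.e (nat_lit 196631) (nat_lit 9) (.e (nat_lit 1280) (nat_lit 94) (.e (nat_lit 114716) (nat_lit 22) .nil)))))))) (.g (nat_lit 4) .nil .nil)))) (.nd (nat_lit 5) 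
(.lf (nat_lit 217939) (.g (nat_lit 2895) (.e (nat_lit 90172) (nat_lit 14) (.e (nat_lit 180244) (nat_lit 5) (.e (nat_lit 532503) (nat_lit 1) (.e (nat_lit 57685) (nat_lit 156) (.e (nat_lit 163871) (nat_lit 2) (.e (nat_lit 196677) (nat_lit 16) (.e (nat_lit 122969) (nat_lit 48) (.e (nat_lit 720939) (nat_lit 22) .nil)))))))) (.g (nat_lit 5) .nil .nil))) 
(.lf (nat_lit 217971) (.g (nat_lit 2653) (.e (nat_lit 90172) (nat_lit 14) (.e (nat_lit 180244) (nat_lit 5) (.e (nat_lit 532503) (nat_lit 1) (.e (nat_lit 57688) (nat_lit 156) (.e (nat_lit 163867) (nat_lit 2) (.e (nat_lit 196677) (nat_lit 16) (.e (nat_lit 130816) (nat_lit 48) (.e (nat_lit 720941) (nat_lit 22) .nil)))))))) (.g (nat_lit 4) .nil .nil))))) (.nd (nat_lit 4) (.nd (nat_lit 5) 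
(.lf (nat_lit 217931) (.g (nat_lit 3221) (.e (nat_lit 90172) (nat_lit 14) (.e (nat_lit 180244) (nat_lit 5) (.e (nat_lit 532503) (nat_lit 1) (.e (nat_lit 57681) (nat_lit 155) (.e (nat_lit 122893) (nat_lit 3) (.e (nat_lit 98321) (nat_lit 17) (.e (nat_lit 7936) (nat_lit 220) (.e (nat_lit 720937) (nat_lit 22) .nil)))))))) (.g (nat_lit 4) .nil .nil))) 
(.lf (nat_lit 217963) (.g (nat_lit 2637) (.e (nat_lit 90172) (nat_lit 14) (.e (nat_lit 180244) (nat_lit 5) (.e (nat_lit 532503) (nat_lit 1) (.e (nat_lit 57688) (nat_lit 156) (.e (nat_lit 163867) (nat_lit 2) (.e (nat_lit 196660) (nat_lit 12) (.e (nat_lit 57549) (nat_lit 48) (.e (nat_lit 720937) (nat_lit 22) .nil)))))))) (.g (nat_lit 4) .nil .nil)))) (.nd (nat_lit 5) 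
(.lf (nat_lit 217947) (.g (nat_lit 1890) (.e (nat_lit 90172) (nat_lit 14) (.e (nat_lit 180244) (nat_lit 5) (.e (nat_lit 532503) (nat_lit 1) (.e (nat_lit 57687) (nat_lit 156) (.e (nat_lit 163867) (nat_lit 2) .nil))))) .nil)) 
(.lf (nat_lit 217979) (.g (nat_lit 2652) (.e (nat_lit 90172) (nat_lit 14) (.e (nat_lit 180244) (nat_lit 5) (.e (nat_lit 532503) (nat_lit 1) (.e (nat_lit 57688) (nat_lit 156) (.e (nat_lit 163869) (nat_lit 2) (.e (nat_lit 196661) (nat_lit 12) (.e (nat_lit 57549) (nat_lit 48) (.e (nat_lit 720941) (nat_lit 22) .nil)))))))) (.g (nat_lit 4) .nil .nil)))))) 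
(.nd (nat_lit 3) (.nd (nat_lit 4) (.nd (nat_lit 5) 
(.lf (nat_lit 217927) (.g (nat_lit 3435) (.e (nat_lit 90172) (nat_lit 14) (.e (nat_lit 180244) (nat_lit 5) (.e (nat_lit 532502) (nat_lit 1) (.e (nat_lit 57692) (nat_lit 156) (.e (nat_lit 163874) (nat_lit 3) (.e (nat_lit 204838) (nat_lit 20) (.e (nat_lit 114716) (nat_lit 22) .nil))))))) (.g (nat_lit 6) .nil .nil))) 
(.lf (nat_lit 217959) (.g (nat_lit 2820) (.e (nat_lit 90172) (nat_lit 14) (.e (nat_lit 180244) (nat_lit 5) (.e (nat_lit 532503) (nat_lit 1) (.e (nat_lit 57688) (nat_lit 156) (.e (nat_lit 163867) (nat_lit 2) (.e (nat_lit 196638) (nat_lit 9) (.e (nat_lit 1281) (nat_lit 94) (.e (nat_lit 114716) (nat_lit 22) .nil)))))))) (.g (nat_lit 4) .nil .nil)))) (.nd (nat_lit 5) 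
(.lf (nat_lit 217943) (.g (nat_lit 2354) (.e (nat_lit 90172) (nat_lit 14) (.e (nat_lit 180244) (nat_lit 5) (.e (nat_lit 532503) (nat_lit 1) (.e (nat_lit 57685) (nat_lit 156) (.e (nat_lit 163875) (nat_lit 3) (.e (nat_lit 204814) (nat_lit 17) (.e (nat_lit 2203) (nat_lit 144) (.e (nat_lit 720941) (nat_lit 22) .nil)))))))) (.g (nat_lit 4) .nil .nil))) 
(.lf (nat_lit 217975) (.g (nat_lit 2174) (.e (nat_lit 90172) (nat_lit 14) (.e (nat_lit 180244) (nat_lit 5) (.e (nat_lit 532503) (nat_lit 1) (.e (nat_lit 57688) (nat_lit 156) (.e (nat_lit 163869) (nat_lit 2) .nil))))) .nil)))) (.nd (nat_lit 4) (.nd (nat_lit 5) 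
(.lf (nat_lit 217935) (.g (nat_lit 3139) (.e (nat_lit 90172) (nat_lit 14) (.e (nat_lit 180244) (nat_lit 5) (.e (nat_lit 532503) (nat_lit 1) (.e (nat_lit 57685) (nat_lit 156) (.e (nat_lit 163867) (nat_lit 2) (.e (nat_lit 196635) (nat_lit 9) (.e (nat_lit 1281) (nat_lit 94) (.e (nat_lit 114716) (nat_lit 22) .nil)))))))) (.g (nat_lit 5) .nil .nil))) 
(.lf (nat_lit 217967) (.g (nat_lit 2677) (.e (nat_lit 90172) (nat_lit 14) (.e (nat_lit 180244) (nat_lit 5) (.e (nat_lit 532503) (nat_lit 1) (.e (nat_lit 57688) (nat_lit 156) (.e (nat_lit 163867) (nat_lit 2) (.e (nat_lit 196676) (nat_lit 16) (.e (nat_lit 122971) (nat_lit 48) (.e (nat_lit 720937) (nat_lit 22) .nil)))))))) (.g (nat_lit 4) .nil .nil)))) (.nd (nat_lit 5) 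
(.lf (nat_lit 217951) (.g (nat_lit 3801) (.e (nat_lit 90172) (nat_lit 14) (.e (nat_lit 180244) (nat_lit 5) (.e (nat_lit 532503) (nat_lit 1) (.e (nat_lit 57688) (nat_lit 156) (.e (nat_lit 163867) (nat_lit 2) (.e (nat_lit 196617) (nat_lit 9) (.e (nat_lit 1281) (nat_lit 94) (.e (nat_lit 114716) (nat_lit 22) .nil)))))))) (.g (nat_lit 5) .nil .nil))) 
(.lf (nat_lit 217983) (.g (nat_lit 2660) (.e (nat_lit 90172) (nat_lit 14) (.e (nat_lit 180244) (nat_lit 5) (.e (nat_lit 532503) (nat_lit 1) (.e (nat_lit 57688) (nat_lit 156) (.e (nat_lit 163869) (nat_lit 2) (.e (nat_lit 196677) (nat_lit 16) (.e (nat_lit 122970) (nat_lit 48) (.e (nat_lit 720941) (nat_lit 22) .nil)))))))) (.g (nat_lit 4) .nil .nil)))))))))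

noncomputable def tv2865 : DT := (.nd (nat_lit 0) (.nd (nat_lit 1) (.nd (nat_lit 2) (.nd (nat_lit 3) (.nd (nat_lit 4) (.nd (nat_lit 5) 
(.lf (nat_lit 217984) (.g (nat_lit 2693) (.e (nat_lit 90172) (nat_lit 14) (.e (nat_lit 180244) (nat_lit 5) (.e (nat_lit 532503) (nat_lit 1) (.e (nat_lit 57688) (nat_lit 156) (.e (nat_lit 163869) (nat_lit 2) (.e (nat_lit 196677) (nat_lit 16) (.e (nat_lit 130816) (nat_lit 48) (.e (nat_lit 720938) (nat_lit 22) .nil)))))))) (.g (nat_lit 4) .nil .nil))) 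
(.lf (nat_lit 218016) (.g (nat_lit 2800) (.e (nat_lit 90172) (nat_lit 14) (.e (nat_lit 180244) (nat_lit 5) (.e (nat_lit 532503) (nat_lit 1) (.e (nat_lit 57691) (nat_lit 156) (.e (nat_lit 163871) (nat_lit 2) (.e (nat_lit 196677) (nat_lit 16) (.e (nat_lit 122969) (nat_lit 48) (.e (nat_lit 720937) (nat_lit 22) .nil)))))))) (.g (nat_lit 4) .nil .nil)))) (.nd (nat_lit 5) 
(.lf (nat_lit 218000) (.g (nat_lit 2576) (.e (nat_lit 90172) (nat_lit 14) (.e (nat_lit 180244) (nat_lit 5) (.e (nat_lit 532503) (nat_lit 1) (.e (nat_lit 57688) (nat_lit 156) (.e (nat_lit 163873) (nat_lit 3) (.e (nat_lit 204818) (nat_lit 17) (.e (nat_lit 2202) (nat_lit 144) (.e (nat_lit 720938) (nat_lit 22) .nil)))))))) (.g (nat_lit 4) .nil .nil))) 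
(.lf (nat_lit 218032) (.g (nat_lit 1204) (.e (nat_lit 90172) (nat_lit 14) (.e (nat_lit 180244) (nat_lit 5) (.e (nat_lit 532504) (nat_lit 1) (.e (nat_lit 57691) (nat_lit 156) .nil)))) .nil)))) (.nd (nat_lit 4) (.nd (nat_lit 5) 
(.lf (nat_lit 217992) (.g (nat_lit 2879) (.e (nat_lit 90172) (nat_lit 14) (.e (nat_lit 180244) (nat_lit 5) (.e (nat_lit 532503) (nat_lit 1) (.e (nat_lit 57688) (nat_lit 156) (.e (nat_lit 163871) (nat_lit 2) (.e (nat_lit 196677) (nat_lit 16) (.e (nat_lit 122970) (nat_lit 48) (.e (nat_lit 720937) (nat_lit 22) .nil)))))))) (.g (nat_lit 4) .nil .nil))) 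
(.lf (nat_lit 218024) (.g (nat_lit 3020) (.e (nat_lit 90172) (nat_lit 14) (.e (nat_lit 180244) (nat_lit 5) (.e (nat_lit 532503) (nat_lit 1) (.e (nat_lit 57692) (nat_lit 156) (.e (nat_lit 163874) (nat_lit 3) (.e (nat_lit 204818) (nat_lit 17) (.e (nat_lit 2203) (nat_lit 144) (.e (nat_lit 720941) (nat_lit 22) .nil)))))))) (.g (nat_lit 4) .nil .nil)))) (.nd (nat_lit 5) 
(.lf (nat_lit 218008) (.g (nat_lit 3819) (.e (nat_lit 90172) (nat_lit 14) (.e (nat_lit 180244) (nat_lit 5) (.e (nat_lit 532503) (nat_lit 1) (.e (nat_lit 57688) (nat_lit 156) (.e (nat_lit 163874) (nat_lit 3) (.e (nat_lit 204818) (nat_lit 17) (.e (nat_lit 2203) (nat_lit 144) (.e (nat_lit 720941) (nat_lit 22) .nil)))))))) (.g (nat_lit 5) .nil .nil))) 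
(.lf (nat_lit 218040) (.g (nat_lit 3490) (.e (nat_lit 90172) (nat_lit 14) (.e (nat_lit 180244) (nat_lit 5) (.e (nat_lit 532504) (nat_lit 1) (.e (nat_lit 57691) (nat_lit 156) (.e (nat_lit 163871) (nat_lit 2) (.e (nat_lit 196677) (nat_lit 16) (.e (nat_lit 122969) (nat_lit 48) (.e (nat_lit 720937) (nat_lit 22) .nil)))))))) (.g (nat_lit 5) .nil .nil)))))) 
(.nd (nat_lit 3) (.nd (nat_lit 4) (.nd (nat_lit 5) 
(.lf (nat_lit 217988) (.g (nat_lit 2548) (.e (nat_lit 90172) (nat_lit 14) (.e (nat_lit 180244) (nat_lit 5) (.e (nat_lit 532503) (nat_lit 1) (.e (nat_lit 57688) (nat_lit 156) (.e (nat_lit 163871) (nat_lit 2) (.e (nat_lit 196660) (nat_lit 12) (.e (nat_lit 57550) (nat_lit 48) (.e (nat_lit 720937) (nat_lit 22) .nil)))))))) (.g (nat_lit 4) .nil .nil))) 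
(.lf (nat_lit 218020) (.g (nat_lit 3973) (.e (nat_lit 90172) (nat_lit 14) (.e (nat_lit 180244) (nat_lit 5) (.e (nat_lit 532503) (nat_lit 1) (.e (nat_lit 57691) (nat_lit 156) (.e (nat_lit 163875) (nat_lit 3) (.e (nat_lit 204838) (nat_lit 20) (.e (nat_lit 114716) (nat_lit 22) .nil))))))) (.g (nat_lit 5) .nil .nil)))) (.nd (nat_lit 5) 
(.lf (nat_lit 218004) (.g (nat_lit 4070) (.e (nat_lit 90172) (nat_lit 14) (.e (nat_lit 180244) (nat_lit 5) (.e (nat_lit 532503) (nat_lit 1) (.e (nat_lit 57688) (nat_lit 156) (.e (nat_lit 163874) (nat_lit 3) (.e (nat_lit 204815) (nat_lit 17) (.e (nat_lit 2203) (nat_lit 144) (.e (nat_lit 720941) (nat_lit 22) .nil)))))))) (.g (nat_lit 5) .nil .nil))) 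
(.lf (nat_lit 218036) (.g (nat_lit 2770) (.e (nat_lit 90172) (nat_lit 14) (.e (nat_lit 180244) (nat_lit 5) (.e (nat_lit 532504) (nat_lit 1) (.e (nat_lit 57691) (nat_lit 156) (.e (nat_lit 163871) (nat_lit 2) (.e (nat_lit 196624) (nat_lit 9) (.e (nat_lit 1277) (nat_lit 94) (.e (nat_lit 114716) (nat_lit 22) .nil)))))))) (.g (nat_lit 4) .nil .nil))))) (.nd (nat_lit 4) (.nd (nat_lit 5) 
(.lf (nat_lit 217996) (.g (nat_lit 2504) (.e (nat_lit 90172) (nat_lit 14) (.e (nat_lit 180244) (nat_lit 5) (.e (nat_lit 532503) (nat_lit 1) (.e (nat_lit 57688) (nat_lit 156) (.e (nat_lit 163873) (nat_lit 3) (.e (nat_lit 204815) (nat_lit 17) (.e (nat_lit 2202) (nat_lit 144) (.e (nat_lit 720937) (nat_lit 22) .nil)))))))) (.g (nat_lit 4) .nil .nil))) 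
(.lf (nat_lit 218028) (.g (nat_lit 1881) (.e (nat_lit 90172) (nat_lit 14) (.e (nat_lit 180244) (nat_lit 5) (.e (nat_lit 532504) (nat_lit 1) (.e (nat_lit 57689) (nat_lit 156) .nil)))) .nil))) (.nd (nat_lit 5) 
(.lf (nat_lit 218012) (.g (nat_lit 2954) (.e (nat_lit 90172) (nat_lit 14) (.e (nat_lit 180244) (nat_lit 5) (.e (nat_lit 532503) (nat_lit 1) (.e (nat_lit 57688) (nat_lit 156) (.e (nat_lit 163875) (nat_lit 3) (.e (nat_lit 204817) (nat_lit 17) (.e (nat_lit 2198) (nat_lit 144) (.e (nat_lit 720941) (nat_lit 22) .nil)))))))) (.g (nat_lit 4) .nil .nil))) 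
(.lf (nat_lit 218044) (.g (nat_lit 3699) (.e (nat_lit 90172) (nat_lit 14) (.e (nat_lit 180244) (nat_lit 5) (.e (nat_lit 532504) (nat_lit 1) (.e (nat_lit 57691) (nat_lit 156) (.e (nat_lit 163874) (nat_lit 3) (.e (nat_lit 204838) (nat_lit 20) (.e (nat_lit 114716) (nat_lit 22) .nil))))))) (.g (nat_lit 5) .nil .nil))))))) (.nd (nat_lit 2) (.nd (nat_lit 3) (.nd (nat_lit 4) (.nd (nat_lit 5) 
(.lf (nat_lit 217986) (.g (nat_lit 2174) (.e (nat_lit 90172) (nat_lit 14) (.e (nat_lit 180244) (nat_lit 5) (.e (nat_lit 532503) (nat_lit 1) (.e (nat_lit 57688) (nat_lit 156) (.e (nat_lit 163871) (nat_lit 2) .nil))))) .nil)) 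
(.lf (nat_lit 218018) (.g (nat_lit 2812) (.e (nat_lit 90172) (nat_lit 14) (.e (nat_lit 180244) (nat_lit 5) (.e (nat_lit 532503) (nat_lit 1) (.e (nat_lit 57691) (nat_lit 156) (.e (nat_lit 163874) (nat_lit 3) (.e (nat_lit 204837) (nat_lit 20) (.e (nat_lit 114716) (nat_lit 22) .nil))))))) (.g (nat_lit 4) .nil .nil)))) (.nd (nat_lit 5) 
(.lf (nat_lit 218002) (.g (nat_lit 3768) (.e (nat_lit 90172) (nat_lit 14) (.e (nat_lit 180244) (nat_lit 5) (.e (nat_lit 532503) (nat_lit 1) (.e (nat_lit 57688) (nat_lit 156) (.e (nat_lit 163873) (nat_lit 3) (.e (nat_lit 204818) (nat_lit 17) (.e (nat_lit 2203) (nat_lit 144) (.e (nat_lit 720941) (nat_lit 22) .nil)))))))) (.g (nat_lit 5) .nil .nil))) 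
(.lf (nat_lit 218034) (.g (nat_lit 2767) (.e (nat_lit 90172) (nat_lit 14) (.e (nat_lit 180244) (nat_lit 5) (.e (nat_lit 532504) (nat_lit 1) (.e (nat_lit 57691) (nat_lit 156) (.e (nat_lit 163870) (nat_lit 2) (.e (nat_lit 196661) (nat_lit 12) (.e (nat_lit 57549) (nat_lit 48) (.e (nat_lit 720941) (nat_lit 22) .nil)))))))) (.g (nat_lit 4) .nil .nil))))) (.nd (nat_lit 4) (.nd (nat_lit 5) 
(.lf (nat_lit 217994) (.g (nat_lit 1945) (.e (nat_lit 90172) (nat_lit 14) (.e (nat_lit 180244) (nat_lit 5) (.e (nat_lit 532503) (nat_lit 1) (.e (nat_lit 57688) (nat_lit 156) (.e (nat_lit 163873) (nat_lit 3) .nil))))) .nil)) 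
(.lf (nat_lit 218026) (.g (nat_lit 1389) (.e (nat_lit 90172) (nat_lit 14) (.e (nat_lit 180244) (nat_lit 5) (.e (nat_lit 532504) (nat_lit 1) (.e (nat_lit 57680) (nat_lit 155) .nil)))) .nil))) (.nd (nat_lit 5) 
(.lf (nat_lit 218010) (.g (nat_lit 3822) (.e (nat_lit 90172) (nat_lit 14) (.e (nat_lit 180244) (nat_lit 5) (.e (nat_lit 532503) (nat_lit 1) (.e (nat_lit 57688) (nat_lit 156) (.e (nat_lit 163874) (nat_lit 3) (.e (nat_lit 204836) (nat_lit 20) (.e (nat_lit 114716) (nat_lit 22) .nil))))))) (.g (nat_lit 5) .nil .nil))) 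
(.lf (nat_lit 218042) (.g (nat_lit 2710) (.e (nat_lit 90172) (nat_lit 14) (.e (nat_lit 180244) (nat_lit 5) (.e (nat_lit 532504) (nat_lit 1) (.e (nat_lit 57691) (nat_lit 156) (.e (nat_lit 163871) (nat_lit 2) (.e (nat_lit 196677) (nat_lit 16) (.e (nat_lit 122970) (nat_lit 48) (.e (nat_lit 720938) (nat_lit 22) .nil)))))))) (.g (nat_lit 4) .nil .nil)))))) 
(.nd (nat_lit 3) (.nd (nat_lit 4) (.nd (nat_lit 5) 
(.lf (nat_lit 217990) (.g (nat_lit 3488) (.e (nat_lit 90172) (nat_lit 14) (.e (nat_lit 180244) (nat_lit 5) (.e (nat_lit 532503) (nat_lit 1) (.e (nat_lit 57688) (nat_lit 156) (.e (nat_lit 163871) (nat_lit 2) (.e (nat_lit 196677) (nat_lit 16) (.e (nat_lit 122969) (nat_lit 48) (.e (nat_lit 720937) (nat_lit 22) .nil)))))))) (.g (nat_lit 5) .nil .nil))) 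
(.lf (nat_lit 218022) (.g (nat_lit 2216) (.e (nat_lit 90172) (nat_lit 14) (.e (nat_lit 180244) (nat_lit 5) (.e (nat_lit 532503) (nat_lit 1) (.e (nat_lit 57692) (nat_lit 156) (.e (nat_lit 163869) (nat_lit 2) .nil))))) .nil))) (.nd (nat_lit 5) 
(.lf (nat_lit 218006) (.g (nat_lit 2838) (.e (nat_lit 90172) (nat_lit 14) (.e (nat_lit 180244) (nat_lit 5) (.e (nat_lit 532503) (nat_lit 1) (.e (nat_lit 57688) (nat_lit 156) (.e (nat_lit 163874) (nat_lit 3) (.e (nat_lit 204818) (nat_lit 17) (.e (nat_lit 2202) (nat_lit 144) (.e (nat_lit 720941) (nat_lit 22) .nil)))))))) (.g (nat_lit 4) .nil .nil))) 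
(.lf (nat_lit 218038) (.g (nat_lit 2910) (.e (nat_lit 90172) (nat_lit 14) (.e (nat_lit 180244) (nat_lit 5) (.e (nat_lit 532504) (nat_lit 1) (.e (nat_lit 57691) (nat_lit 156) (.e (nat_lit 163871) (nat_lit 2) (.e (nat_lit 196660) (nat_lit 12) (.e (nat_lit 57550) (nat_lit 48) (.e (nat_lit 720938) (nat_lit 22) .nil)))))))) (.g (nat_lit 4) .nil .nil))))) (.nd (nat_lit 4) (.nd (nat_lit 5) 
(.lf (nat_lit 217998) (.g (nat_lit 2604) (.e (nat_lit 90172) (nat_lit 14) (.e (nat_lit 180244) (nat_lit 5) (.e (nat_lit 532503) (nat_lit 1) (.e (nat_lit 57688) (nat_lit 156) (.e (nat_lit 163873) (nat_lit 3) (.e (nat_lit 204817) (nat_lit 17) (.e (nat_lit 2203) (nat_lit 144) (.e (nat_lit 720938) (nat_lit 22) .nil)))))))) (.g (nat_lit 4) .nil .nil))) 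
(.lf (nat_lit 218030) (.g (nat_lit 2313) (.e (nat_lit 90172) (nat_lit 14) (.e (nat_lit 180244) (nat_lit 5) (.e (nat_lit 532504) (nat_lit 1) (.e (nat_lit 57690) (nat_lit 156) (.e (nat_lit 163871) (nat_lit 2) .nil))))) .nil))) (.nd (nat_lit 5) 
(.lf (nat_lit 218014) (.g (nat_lit 2200) (.e (nat_lit 90172) (nat_lit 14) (.e (nat_lit 180244) (nat_lit 5) (.e (nat_lit 532503) (nat_lit 1) (.e (nat_lit 57691) (nat_lit 156) (.e (nat_lit 163869) (nat_lit 2) .nil))))) .nil)) 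
(.lf (nat_lit 218046) (.g (nat_lit 4278) (.e (nat_lit 90172) (nat_lit 14) (.e (nat_lit 180244) (nat_lit 5) (.e (nat_lit 532504) (nat_lit 1) (.e (nat_lit 57691) (nat_lit 156) (.e (nat_lit 163875) (nat_lit 3) (.e (nat_lit 204815) (nat_lit 17) (.e (nat_lit 2203) (nat_lit 144) (.e (nat_lit 720941) (nat_lit 22) .nil)))))))) (.g (nat_lit 5) .nil .nil)))))))) 
(.nd (nat_lit 1) (.nd (nat_lit 2) (.nd (nat_lit 3) (.nd (nat_lit 4) (.nd (nat_lit 5) 
(.lf (nat_lit 217985) (.g (nat_lit 2856) (.e (nat_lit 90172) (nat_lit 14) (.e (nat_lit 180244) (nat_lit 5) (.e (nat_lit 532503) (nat_lit 1) (.e (nat_lit 57688) (nat_lit 156) (.e (nat_lit 163869) (nat_lit 2) (.e (nat_lit 196677) (nat_lit 16) (.e (nat_lit 130816) (nat_lit 48) (.e (nat_lit 720941) (nat_lit 22) .nil)))))))) (.g (nat_lit 4) .nil .nil))) 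
(.lf (nat_lit 218017) (.g (nat_lit 2832) (.e (nat_lit 90172) (nat_lit 14) (.e (nat_lit 180244) (nat_lit 5) (.e (nat_lit 532503) (nat_lit 1) (.e (nat_lit 57691) (nat_lit 156) (.e (nat_lit 163871) (nat_lit 2) (.e (nat_lit 196677) (nat_lit 16) (.e (nat_lit 122969) (nat_lit 48) (.e (nat_lit 720938) (nat_lit 22) .nil)))))))) (.g (nat_lit 4) .nil .nil)))) (.nd (nat_lit 5) 
(.lf (nat_lit 218001) (.g (nat_lit 2787) (.e (nat_lit 90172) (nat_lit 14) (.e (nat_lit 180244) (nat_lit 5) (.e (nat_lit 532503) (nat_lit 1) (.e (nat_lit 57688) (nat_lit 156) (.e (nat_lit 163873) (nat_lit 3) (.e (nat_lit 204818) (nat_lit 17) (.e (nat_lit 2202) (nat_lit 144) (.e (nat_lit 720941) (nat_lit 22) .nil)))))))) (.g (nat_lit 4) .nil .nil))) 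
(.lf (nat_lit 218033) (.g (nat_lit 2777) (.e (nat_lit 90172) (nat_lit 14) (.e (nat_lit 180244) (nat_lit 5) (.e (nat_lit 532504) (nat_lit 1) (.e (nat_lit 57691) (nat_lit 156) (.e (nat_lit 163870) (nat_lit 2) (.e (nat_lit 196661) (nat_lit 12) (.e (nat_lit 57549) (nat_lit 48) (.e (nat_lit 720937) (nat_lit 22) .nil)))))))) (.g (nat_lit 4) .nil .nil))))) (.nd (nat_lit 4) (.nd (nat_lit 5) 
(.lf (nat_lit 217993) (.g (nat_lit 2697) (.e (nat_lit 90172) (nat_lit 14) (.e (nat_lit 180244) (nat_lit 5) (.e (nat_lit 532503) (nat_lit 1) (.e (nat_lit 57688) (nat_lit 156) (.e (nat_lit 163871) (nat_lit 2) (.e (nat_lit 196677) (nat_lit 16) (.e (nat_lit 122970) (nat_lit 48) (.e (nat_lit 720938) (nat_lit 22) .nil)))))))) (.g (nat_lit 4) .nil .nil))) 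
(.lf (nat_lit 218025) (.g (nat_lit 2862) (.e (nat_lit 90172) (nat_lit 14) (.e (nat_lit 180244) (nat_lit 5) (.e (nat_lit 532503) (nat_lit 1) (.e (nat_lit 57692) (nat_lit 156) (.e (nat_lit 163875) (nat_lit 3) (.e (nat_lit 204817) (nat_lit 17) (.e (nat_lit 2198) (nat_lit 144) (.e (nat_lit 720941) (nat_lit 22) .nil)))))))) (.g (nat_lit 4) .nil .nil)))) (.nd (nat_lit 5) 
(.lf (nat_lit 218009) (.g (nat_lit 4041) (.e (nat_lit 90172) (nat_lit 14) (.e (nat_lit 180244) (nat_lit 5) (.e (nat_lit 532503) (nat_lit 1) (.e (nat_lit 57688) (nat_lit 156) (.e (nat_lit 163874) (nat_lit 3) (.e (nat_lit 204836) (nat_lit 20) (.e (nat_lit 114714) (nat_lit 22) .nil))))))) (.g (nat_lit 5) .nil .nil))) 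
(.lf (nat_lit 218041) (.g (nat_lit 2881) (.e (nat_lit 90172) (nat_lit 14) (.e (nat_lit 180244) (nat_lit 5) (.e (nat_lit 532504) (nat_lit 1) (.e (nat_lit 57691) (nat_lit 156) (.e (nat_lit 163871) (nat_lit 2) (.e (nat_lit 196677) (nat_lit 16) (.e (nat_lit 122970) (nat_lit 48) (.e (nat_lit 720937) (nat_lit 22) .nil)))))))) (.g (nat_lit 4) .nil .nil)))))) 
(.nd (nat_lit 3) (.nd (nat_lit 4) (.nd (nat_lit 5) 
(.lf (nat_lit 217989) (.g (nat_lit 2581) (.e (nat_lit 90172) (nat_lit 14) (.e (nat_lit 180244) (nat_lit 5) (.e (nat_lit 532503) (nat_lit 1) (.e (nat_lit 57688) (nat_lit 156) (.e (nat_lit 163871) (nat_lit 2) (.e (nat_lit 196660) (nat_lit 12) (.e (nat_lit 57550) (nat_lit 48) (.e (nat_lit 720938) (nat_lit 22) .nil)))))))) (.g (nat_lit 4) .nil .nil))) 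
(.lf (nat_lit 218021) (.g (nat_lit 1515) (.e (nat_lit 90172) (nat_lit 14) (.e (nat_lit 180244) (nat_lit 5) (.e (nat_lit 532503) (nat_lit 1) (.e (nat_lit 57692) (nat_lit 156) .nil)))) .nil))) (.nd (nat_lit 5) 
(.lf (nat_lit 218005) (.g (nat_lit 4262) (.e (nat_lit 90172) (nat_lit 14) (.e (nat_lit 180244) (nat_lit 5) (.e (nat_lit 532503) (nat_lit 1) (.e (nat_lit 57688) (nat_lit 156) (.e (nat_lit 163874) (nat_lit 3) (.e (nat_lit 204817) (nat_lit 17) (.e (nat_lit 2198) (nat_lit 144) (.e (nat_lit 720941) (nat_lit 22) .nil)))))))) (.g (nat_lit 5) .nil .nil))) 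
(.lf (nat_lit 218037) (.g (nat_lit 2866) (.e (nat_lit 90172) (nat_lit 14) (.e (nat_lit 180244) (nat_lit 5) (.e (nat_lit 532504) (nat_lit 1) (.e (nat_lit 57691) (nat_lit 156) (.e (nat_lit 163871) (nat_lit 2) (.e (nat_lit 196660) (nat_lit 12) (.e (nat_lit 57550) (nat_lit 48) (.e (nat_lit 720937) (nat_lit 22) .nil)))))))) (.g (nat_lit 4) .nil .nil))))) (.nd (nat_lit 4) (.nd (nat_lit 5) 
(.lf (nat_lit 217997) (.g (nat_lit 3853) (.e (nat_lit 90172) (nat_lit 14) (.e (nat_lit 180244) (nat_lit 5) (.e (nat_lit 532503) (nat_lit 1) (.e (nat_lit 57688) (nat_lit 156) (.e (nat_lit 163873) (nat_lit 3) (.e (nat_lit 204815) (nat_lit 17) (.e (nat_lit 2203) (nat_lit 144) (.e (nat_lit 720938) (nat_lit 22) .nil)))))))) (.g (nat_lit 5) .nil .nil))) 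
(.lf (nat_lit 218029) (.g (nat_lit 1709) (.e (nat_lit 90172) (nat_lit 14) (.e (nat_lit 180244) (nat_lit 5) (.e (nat_lit 532504) (nat_lit 1) (.e (nat_lit 57690) (nat_lit 156) .nil)))) .nil))) (.nd (nat_lit 5) 
(.lf (nat_lit 218013) (.g (nat_lit 3635) (.e (nat_lit 90172) (nat_lit 14) (.e (nat_lit 180244) (nat_lit 5) (.e (nat_lit 532503) (nat_lit 1) (.e (nat_lit 57689) (nat_lit 156) (.e (nat_lit 163875) (nat_lit 3) (.e (nat_lit 204817) (nat_lit 17) (.e (nat_lit 2198) (nat_lit 144) (.e (nat_lit 720941) (nat_lit 22) .nil)))))))) (.g (nat_lit 5) .nil .nil))) 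
(.lf (nat_lit 218045) (.g (nat_lit 3751) (.e (nat_lit 90172) (nat_lit 14) (.e (nat_lit 180244) (nat_lit 5) (.e (nat_lit 532504) (nat_lit 1) (.e (nat_lit 57691) (nat_lit 156) (.e (nat_lit 163875) (nat_lit 3) (.e (nat_lit 204814) (nat_lit 17) (.e (nat_lit 2203) (nat_lit 144) (.e (nat_lit 720941) (nat_lit 22) .nil)))))))) (.g (nat_lit 5) .nil .nil))))))) 
(.nd (nat_lit 2) (.nd (nat_lit 3) (.nd (nat_lit 4) (.nd (nat_lit 5) 
(.lf (nat_lit 217987) (.g (nat_lit 2667) (.e (nat_lit 90172) (nat_lit 14) (.e (nat_lit 180244) (nat_lit 5) (.e (nat_lit 532503) (nat_lit 1) (.e (nat_lit 57688) (nat_lit 156) (.e (nat_lit 163871) (nat_lit 2) (.e (nat_lit 196624) (nat_lit 9) (.e (nat_lit 1277) (nat_lit 94) (.e (nat_lit 114716) (nat_lit 22) .nil)))))))) (.g (nat_lit 4) .nil .nil))) 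
(.lf (nat_lit 218019) (.g (nat_lit 3817) (.e (nat_lit 90172) (nat_lit 14) (.e (nat_lit 180244) (nat_lit 5) (.e (nat_lit 532503) (nat_lit 1) (.e (nat_lit 57691) (nat_lit 156) (.e (nat_lit 163875) (nat_lit 3) (.e (nat_lit 204837) (nat_lit 20) (.e (nat_lit 114716) (nat_lit 22) .nil))))))) (.g (nat_lit 5) .nil .nil)))) (.nd (nat_lit 5) 
(.lf (nat_lit 218003) (.g (nat_lit 2174) (.e (nat_lit 90172) (nat_lit 14) (.e (nat_lit 180244) (nat_lit 5) (.e (nat_lit 532503) (nat_lit 1) (.e (nat_lit 57688) (nat_lit 156) (.e (nat_lit 163874) (nat_lit 3) .nil))))) .nil)) 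
(.lf (nat_lit 218035) (.g (nat_lit 2118) (.e (nat_lit 90172) (nat_lit 14) (.e (nat_lit 180244) (nat_lit 5) (.e (nat_lit 532504) (nat_lit 1) (.e (nat_lit 57691) (nat_lit 156) (.e (nat_lit 163871) (nat_lit 2) .nil))))) .nil)))) (.nd (nat_lit 4) (.nd (nat_lit 5) 
(.lf (nat_lit 217995) (.g (nat_lit 2690) (.e (nat_lit 90172) (nat_lit 14) (.e (nat_lit 180244) (nat_lit 5) (.e (nat_lit 532503) (nat_lit 1) (.e (nat_lit 57688) (nat_lit 156) (.e (nat_lit 163873) (nat_lit 3) (.e (nat_lit 204815) (nat_lit 17) (.e (nat_lit 2197) (nat_lit 144) (.e (nat_lit 720941) (nat_lit 22) .nil)))))))) (.g (nat_lit 4) .nil .nil))) 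
(.lf (nat_lit 218027) (.g (nat_lit 1643) (.e (nat_lit 90172) (nat_lit 14) (.e (nat_lit 180244) (nat_lit 5) (.e (nat_lit 532504) (nat_lit 1) (.e (nat_lit 57685) (nat_lit 156) .nil)))) .nil))) (.nd (nat_lit 5) 
(.lf (nat_lit 218011) (.g (nat_lit 4387) (.e (nat_lit 90172) (nat_lit 14) (.e (nat_lit 180244) (nat_lit 5) (.e (nat_lit 532503) (nat_lit 1) (.e (nat_lit 57688) (nat_lit 156) (.e (nat_lit 163874) (nat_lit 3) (.e (nat_lit 204837) (nat_lit 20) (.e (nat_lit 114716) (nat_lit 22) .nil))))))) (.g (nat_lit 6) .nil .nil))) 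
(.lf (nat_lit 218043) (.g (nat_lit 2897) (.e (nat_lit 90172) (nat_lit 14) (.e (nat_lit 180244) (nat_lit 5) (.e (nat_lit 532504) (nat_lit 1) (.e (nat_lit 57691) (nat_lit 156) (.e (nat_lit 163874) (nat_lit 3) (.e (nat_lit 204815) (nat_lit 17) (.e (nat_lit 2203) (nat_lit 144) (.e (nat_lit 720941) (nat_lit 22) .nil)))))))) (.g (nat_lit 4) .nil .nil)))))) 
(.nd (nat_lit 3) (.nd (nat_lit 4) (.nd (nat_lit 5) 
(.lf (nat_lit 217991) (.g (nat_lit 2466) (.e (nat_lit 90172) (nat_lit 14) (.e (nat_lit 180244) (nat_lit 5) (.e (nat_lit 532503) (nat_lit 1) (.e (nat_lit 57688) (nat_lit 156) (.e (nat_lit 163871) (nat_lit 2) (.e (nat_lit 196677) (nat_lit 16) (.e (nat_lit 122969) (nat_lit 48) (.e (nat_lit 720939) (nat_lit 22) .nil)))))))) (.g (nat_lit 4) .nil .nil))) 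
(.lf (nat_lit 218023) (.g (nat_lit 3079) (.e (nat_lit 90172) (nat_lit 14) (.e (nat_lit 180244) (nat_lit 5) (.e (nat_lit 532503) (nat_lit 1) (.e (nat_lit 57692) (nat_lit 156) (.e (nat_lit 163874) (nat_lit 3) (.e (nat_lit 204817) (nat_lit 17) (.e (nat_lit 2198) (nat_lit 144) (.e (nat_lit 720941) (nat_lit 22) .nil)))))))) (.g (nat_lit 4) .nil .nil)))) (.nd (nat_lit 5) 
(.lf (nat_lit 218007) (.g (nat_lit 2926) (.e (nat_lit 90172) (nat_lit 14) (.e (nat_lit 180244) (nat_lit 5) (.e (nat_lit 532503) (nat_lit 1) (.e (nat_lit 57688) (nat_lit 156) (.e (nat_lit 163874) (nat_lit 3) (.e (nat_lit 204818) (nat_lit 17) (.e (nat_lit 2203) (nat_lit 144) (.e (nat_lit 720938) (nat_lit 22) .nil)))))))) (.g (nat_lit 4) .nil .nil))) 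
(.lf (nat_lit 218039) (.g (nat_lit 2867) (.e (nat_lit 90172) (nat_lit 14) (.e (nat_lit 180244) (nat_lit 5) (.e (nat_lit 532504) (nat_lit 1) (.e (nat_lit 57691) (nat_lit 156) (.e (nat_lit 163871) (nat_lit 2) (.e (nat_lit 196660) (nat_lit 12) (.e (nat_lit 57550) (nat_lit 48) (.e (nat_lit 720941) (nat_lit 22) .nil)))))))) (.g (nat_lit 4) .nil .nil))))) (.nd (nat_lit 4) (.nd (nat_lit 5) 
(.lf (nat_lit 217999) (.g (nat_lit 3497) (.e (nat_lit 90172) (nat_lit 14) (.e (nat_lit 180244) (nat_lit 5) (.e (nat_lit 532503) (nat_lit 1) (.e (nat_lit 57688) (nat_lit 156) (.e (nat_lit 163873) (nat_lit 3) (.e (nat_lit 204817) (nat_lit 17) (.e (nat_lit 2203) (nat_lit 144) (.e (nat_lit 720941) (nat_lit 22) .nil)))))))) (.g (nat_lit 5) .nil .nil))) 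
(.lf (nat_lit 218031) (.g (nat_lit 2974) (.e (nat_lit 90172) (nat_lit 14) (.e (nat_lit 180244) (nat_lit 5) (.e (nat_lit 532504) (nat_lit 1) (.e (nat_lit 57690) (nat_lit 156) (.e (nat_lit 163874) (nat_lit 3) (.e (nat_lit 204838) (nat_lit 20) (.e (nat_lit 114716) (nat_lit 22) .nil))))))) (.g (nat_lit 4) .nil .nil)))) (.nd (nat_lit 5) 
(.lf (nat_lit 218015) (.g (nat_lit 2242) (.e (nat_lit 90172) (nat_lit 14) (.e (nat_lit 180244) (nat_lit 5) (.e (nat_lit 532503) (nat_lit 1) (.e (nat_lit 57691) (nat_lit 156) (.e (nat_lit 163871) (nat_lit 2) .nil))))) .nil)) 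
(.lf (nat_lit 218047) (.g (nat_lit 3745) (.e (nat_lit 90172) (nat_lit 14) (.e (nat_lit 180244) (nat_lit 5) (.e (nat_lit 532504) (nat_lit 1) (.e (nat_lit 57691) (nat_lit 156) (.e (nat_lit 163875) (nat_lit 3) (.e (nat_lit 204817) (nat_lit 17) (.e (nat_lit 2198) (nat_lit 144) (.e (nat_lit 720941) (nat_lit 22) .nil)))))))) (.g (nat_lit 5) .nil .nil)))))))))

noncomputable def tv2866 : DT := (.nd (nat_lit 0) (.nd (nat_lit 1) (.nd (nat_lit 2) (.nd (nat_lit 3) (.nd (nat_lit 4) (.nd (nat_lit 5) 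
(.lf (nat_lit 218048) (.g (nat_lit 2731) (.e (nat_lit 90172) (nat_lit 14) (.e (nat_lit 180244) (nat_lit 5) (.e (nat_lit 532504) (nat_lit 1) (.e (nat_lit 57691) (nat_lit 156) (.e (nat_lit 163875) (nat_lit 3) (.e (nat_lit 204817) (nat_lit 17) (.e (nat_lit 2203) (nat_lit 144) (.e (nat_lit 720941) (nat_lit 22) .nil)))))))) (.g (nat_lit 4) .nil .nil))) 
(.lf (nat_lit 218080) (.g (nat_lit 2410) (.e (nat_lit 90172) (nat_lit 14) (.e (nat_lit 180244) (nat_lit 5) (.e (nat_lit 532504) (nat_lit 1) (.e (nat_lit 57692) (nat_lit 156) (.e (nat_lit 163871) (nat_lit 2) (.e (nat_lit 196660) (nat_lit 12) (.e (nat_lit 57549) (nat_lit 48) (.e (nat_lit 720937) (nat_lit 22) .nil)))))))) (.g (nat_lit 4) .nil .nil)))) (.nd (nat_lit 5) 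
(.lf (nat_lit 218064) (.g (nat_lit 3433) (.e (nat_lit 90172) (nat_lit 14) (.e (nat_lit 180244) (nat_lit 5) (.e (nat_lit 532504) (nat_lit 1) (.e (nat_lit 57692) (nat_lit 156) (.e (nat_lit 163869) (nat_lit 2) (.e (nat_lit 196659) (nat_lit 12) (.e (nat_lit 57550) (nat_lit 48) (.e (nat_lit 720937) (nat_lit 22) .nil)))))))) (.g (nat_lit 5) .nil .nil))) 
(.lf (nat_lit 218096) (.g (nat_lit 3235) (.e (nat_lit 90172) (nat_lit 14) (.e (nat_lit 180244) (nat_lit 5) (.e (nat_lit 532504) (nat_lit 1) (.e (nat_lit 57692) (nat_lit 156) (.e (nat_lit 163875) (nat_lit 3) (.e (nat_lit 204836) (nat_lit 20) (.e (nat_lit 114716) (nat_lit 22) .nil))))))) (.g (nat_lit 5) .nil .nil))))) (.nd (nat_lit 4) (.nd (nat_lit 5) 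
(.lf (nat_lit 218056) (.g (nat_lit 2428) (.e (nat_lit 90172) (nat_lit 14) (.e (nat_lit 180244) (nat_lit 5) (.e (nat_lit 532504) (nat_lit 1) (.e (nat_lit 57692) (nat_lit 156) (.e (nat_lit 163869) (nat_lit 2) (.e (nat_lit 196638) (nat_lit 9) (.e (nat_lit 1281) (nat_lit 94) (.e (nat_lit 114716) (nat_lit 22) .nil)))))))) (.g (nat_lit 4) .nil .nil))) 
(.lf (nat_lit 218088) (.g (nat_lit 2779) (.e (nat_lit 90172) (nat_lit 14) (.e (nat_lit 180244) (nat_lit 5) (.e (nat_lit 532504) (nat_lit 1) (.e (nat_lit 57692) (nat_lit 156) (.e (nat_lit 163874) (nat_lit 3) (.e (nat_lit 204817) (nat_lit 17) (.e (nat_lit 2203) (nat_lit 144) (.e (nat_lit 720941) (nat_lit 22) .nil)))))))) (.g (nat_lit 5) .nil .nil)))) (.nd (nat_lit 5) 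
(.lf (nat_lit 218072) (.g (nat_lit 3382) (.e (nat_lit 90172) (nat_lit 14) (.e (nat_lit 180244) (nat_lit 5) (.e (nat_lit 532504) (nat_lit 1) (.e (nat_lit 57692) (nat_lit 156) (.e (nat_lit 163869) (nat_lit 2) (.e (nat_lit 196661) (nat_lit 12) (.e (nat_lit 57549) (nat_lit 48) (.e (nat_lit 720938) (nat_lit 22) .nil)))))))) (.g (nat_lit 5) .nil .nil))) 
(.lf (nat_lit 218104) (.g (nat_lit 419) (.e (nat_lit 90172) (nat_lit 14) (.e (nat_lit 180244) (nat_lit 5) (.e (nat_lit 532513) (nat_lit 3) .nil))) .nil))))) (.nd (nat_lit 3) (.nd (nat_lit 4) (.nd (nat_lit 5) 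
(.lf (nat_lit 218052) (.g (nat_lit 3255) (.e (nat_lit 90172) (nat_lit 14) (.e (nat_lit 180244) (nat_lit 5) (.e (nat_lit 532504) (nat_lit 1) (.e (nat_lit 57692) (nat_lit 156) (.e (nat_lit 163869) (nat_lit 2) (.e (nat_lit 196624) (nat_lit 9) (.e (nat_lit 1277) (nat_lit 94) (.e (nat_lit 114716) (nat_lit 22) .nil)))))))) (.g (nat_lit 5) .nil .nil))) 
(.lf (nat_lit 218084) (.g (nat_lit 3358) (.e (nat_lit 90172) (nat_lit 14) (.e (nat_lit 180244) (nat_lit 5) (.e (nat_lit 532504) (nat_lit 1) (.e (nat_lit 57692) (nat_lit 156) (.e (nat_lit 163871) (nat_lit 2) (.e (nat_lit 196677) (nat_lit 16) (.e (nat_lit 122970) (nat_lit 48) (.e (nat_lit 720937) (nat_lit 22) .nil)))))))) (.g (nat_lit 5) .nil .nil)))) (.nd (nat_lit 5) 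
(.lf (nat_lit 218068) (.g (nat_lit 3409) (.e (nat_lit 90172) (nat_lit 14) (.e (nat_lit 180244) (nat_lit 5) (.e (nat_lit 532504) (nat_lit 1) (.e (nat_lit 57692) (nat_lit 156) (.e (nat_lit 163869) (nat_lit 2) (.e (nat_lit 196660) (nat_lit 12) (.e (nat_lit 57550) (nat_lit 48) (.e (nat_lit 720937) (nat_lit 22) .nil)))))))) (.g (nat_lit 5) .nil .nil))) 
(.lf (nat_lit 218100) (.g (nat_lit 483) (.e (nat_lit 90172) (nat_lit 14) (.e (nat_lit 180244) (nat_lit 5) (.e (nat_lit 532507) (nat_lit 2) .nil))) .nil)))) (.nd (nat_lit 4) (.nd (nat_lit 5) 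
(.lf (nat_lit 218060) (.g (nat_lit 3371) (.e (nat_lit 90172) (nat_lit 14) (.e (nat_lit 180244) (nat_lit 5) (.e (nat_lit 532504) (nat_lit 1) (.e (nat_lit 57692) (nat_lit 156) (.e (nat_lit 163869) (nat_lit 2) (.e (nat_lit 196658) (nat_lit 12) (.e (nat_lit 57550) (nat_lit 48) (.e (nat_lit 720941) (nat_lit 22) .nil)))))))) (.g (nat_lit 5) .nil .nil))) 
(.lf (nat_lit 218092) (.g (nat_lit 3201) (.e (nat_lit 90172) (nat_lit 14) (.e (nat_lit 180244) (nat_lit 5) (.e (nat_lit 532504) (nat_lit 1) (.e (nat_lit 57692) (nat_lit 156) (.e (nat_lit 163874) (nat_lit 3) (.e (nat_lit 204822) (nat_lit 17) (.e (nat_lit 2184) (nat_lit 144) (.e (nat_lit 720941) (nat_lit 22) .nil)))))))) (.g (nat_lit 5) .nil .nil)))) (.nd (nat_lit 5) 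
(.lf (nat_lit 218076) (.g (nat_lit 3147) (.e (nat_lit 90172) (nat_lit 14) (.e (nat_lit 180244) (nat_lit 5) (.e (nat_lit 532504) (nat_lit 1) (.e (nat_lit 57692) (nat_lit 156) (.e (nat_lit 163870) (nat_lit 2) (.e (nat_lit 196661) (nat_lit 12) (.e (nat_lit 57549) (nat_lit 48) (.e (nat_lit 720937) (nat_lit 22) .nil)))))))) (.g (nat_lit 5) .nil .nil))) 
(.lf (nat_lit 218108) (.g (nat_lit 1095) (.e (nat_lit 90172) (nat_lit 14) (.e (nat_lit 180244) (nat_lit 5) (.e (nat_lit 532513) (nat_lit 3) (.e (nat_lit 114714) (nat_lit 22) .nil)))) .nil)))))) (.nd (nat_lit 2) (.nd (nat_lit 3) (.nd (nat_lit 4) (.nd (nat_lit 5) 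
(.lf (nat_lit 218050) (.g (nat_lit 3564) (.e (nat_lit 90172) (nat_lit 14) (.e (nat_lit 180244) (nat_lit 5) (.e (nat_lit 532504) (nat_lit 1) (.e (nat_lit 57691) (nat_lit 156) (.e (nat_lit 163875) (nat_lit 3) (.e (nat_lit 204836) (nat_lit 20) (.e (nat_lit 114716) (nat_lit 22) .nil))))))) (.g (nat_lit 5) .nil .nil))) 
(.lf (nat_lit 218082) (.g (nat_lit 3260) (.e (nat_lit 90172) (nat_lit 14) (.e (nat_lit 180244) (nat_lit 5) (.e (nat_lit 532504) (nat_lit 1) (.e (nat_lit 57692) (nat_lit 156) (.e (nat_lit 163871) (nat_lit 2) (.e (nat_lit 196660) (nat_lit 12) (.e (nat_lit 57550) (nat_lit 48) (.e (nat_lit 720937) (nat_lit 22) .nil)))))))) (.g (nat_lit 5) .nil .nil)))) (.nd (nat_lit 5) 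
(.lf (nat_lit 218066) (.g (nat_lit 3466) (.e (nat_lit 90172) (nat_lit 14) (.e (nat_lit 180244) (nat_lit 5) (.e (nat_lit 532504) (nat_lit 1) (.e (nat_lit 57692) (nat_lit 156) (.e (nat_lit 163869) (nat_lit 2) (.e (nat_lit 196659) (nat_lit 12) (.e (nat_lit 57550) (nat_lit 48) (.e (nat_lit 720941) (nat_lit 22) .nil)))))))) (.g (nat_lit 5) .nil .nil))) 
(.lf (nat_lit 218098) (.g (nat_lit 492) (.e (nat_lit 90172) (nat_lit 14) (.e (nat_lit 180244) (nat_lit 5) (.e (nat_lit 532506) (nat_lit 2) .nil))) .nil)))) (.nd (nat_lit 4) (.nd (nat_lit 5) 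
(.lf (nat_lit 218058) (.g (nat_lit 3341) (.e (nat_lit 90172) (nat_lit 14) (.e (nat_lit 180244) (nat_lit 5) (.e (nat_lit 532504) (nat_lit 1) (.e (nat_lit 57692) (nat_lit 156) (.e (nat_lit 163869) (nat_lit 2) (.e (nat_lit 196658) (nat_lit 12) (.e (nat_lit 57550) (nat_lit 48) (.e (nat_lit 720937) (nat_lit 22) .nil)))))))) (.g (nat_lit 5) .nil .nil))) 
(.lf (nat_lit 218090) (.g (nat_lit 3149) (.e (nat_lit 90172) (nat_lit 14) (.e (nat_lit 180244) (nat_lit 5) (.e (nat_lit 532504) (nat_lit 1) (.e (nat_lit 57692) (nat_lit 156) (.e (nat_lit 163874) (nat_lit 3) (.e (nat_lit 204821) (nat_lit 17) (.e (nat_lit 7936) (nat_lit 144) (.e (nat_lit 720941) (nat_lit 22) .nil)))))))) (.g (nat_lit 5) .nil .nil)))) (.nd (nat_lit 5) 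
(.lf (nat_lit 218074) (.g (nat_lit 3210) (.e (nat_lit 90172) (nat_lit 14) (.e (nat_lit 180244) (nat_lit 5) (.e (nat_lit 532504) (nat_lit 1) (.e (nat_lit 57692) (nat_lit 156) (.e (nat_lit 163869) (nat_lit 2) (.e (nat_lit 196677) (nat_lit 16) (.e (nat_lit 122970) (nat_lit 48) (.e (nat_lit 720937) (nat_lit 22) .nil)))))))) (.g (nat_lit 5) .nil .nil))) 
(.lf (nat_lit 218106) (.g (nat_lit 2440) (.e (nat_lit 90172) (nat_lit 14) (.e (nat_lit 180244) (nat_lit 5) (.e (nat_lit 532513) (nat_lit 3) (.e (nat_lit 122624) (nat_lit 2) (.e (nat_lit 196656) (nat_lit 11) (.e (nat_lit 24320) (nat_lit 17) .nil)))))) (.g (nat_lit 5) .nil .nil)))))) (.nd (nat_lit 3) (.nd (nat_lit 4) (.nd (nat_lit 5) 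
(.lf (nat_lit 218054) (.g (nat_lit 2549) (.e (nat_lit 90172) (nat_lit 14) (.e (nat_lit 180244) (nat_lit 5) (.e (nat_lit 532504) (nat_lit 1) (.e (nat_lit 57692) (nat_lit 156) (.e (nat_lit 163869) (nat_lit 2) (.e (nat_lit 196628) (nat_lit 9) (.e (nat_lit 968) (nat_lit 81) (.e (nat_lit 2203) (nat_lit 144) (.e (nat_lit 720938) (nat_lit 22) .nil))))))))) (.g (nat_lit 4) .nil .nil))) 
(.lf (nat_lit 218086) (.g (nat_lit 3306) (.e (nat_lit 90172) (nat_lit 14) (.e (nat_lit 180244) (nat_lit 5) (.e (nat_lit 532504) (nat_lit 1) (.e (nat_lit 57692) (nat_lit 156) (.e (nat_lit 163874) (nat_lit 3) (.e (nat_lit 204815) (nat_lit 17) (.e (nat_lit 2198) (nat_lit 144) (.e (nat_lit 720941) (nat_lit 22) .nil)))))))) (.g (nat_lit 5) .nil .nil)))) (.nd (nat_lit 5) 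
(.lf (nat_lit 218070) (.g (nat_lit 3405) (.e (nat_lit 90172) (nat_lit 14) (.e (nat_lit 180244) (nat_lit 5) (.e (nat_lit 532504) (nat_lit 1) (.e (nat_lit 57692) (nat_lit 156) (.e (nat_lit 163869) (nat_lit 2) (.e (nat_lit 196660) (nat_lit 12) (.e (nat_lit 57550) (nat_lit 48) (.e (nat_lit 720941) (nat_lit 22) .nil)))))))) (.g (nat_lit 5) .nil .nil))) 
(.lf (nat_lit 218102) (.g (nat_lit 484) (.e (nat_lit 90172) (nat_lit 14) (.e (nat_lit 180244) (nat_lit 5) (.e (nat_lit 532511) (nat_lit 2) .nil))) .nil)))) (.nd (nat_lit 4) (.nd (nat_lit 5) 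
(.lf (nat_lit 218062) (.g (nat_lit 3413) (.e (nat_lit 90172) (nat_lit 14) (.e (nat_lit 180244) (nat_lit 5) (.e (nat_lit 532504) (nat_lit 1) (.e (nat_lit 57692) (nat_lit 156) (.e (nat_lit 163869) (nat_lit 2) (.e (nat_lit 196658) (nat_lit 12) (.e (nat_lit 57551) (nat_lit 48) (.e (nat_lit 720938) (nat_lit 22) .nil)))))))) (.g (nat_lit 5) .nil .nil))) 
(.lf (nat_lit 218094) (.g (nat_lit 2482) (.e (nat_lit 90172) (nat_lit 14) (.e (nat_lit 180244) (nat_lit 5) (.e (nat_lit 532504) (nat_lit 1) (.e (nat_lit 57692) (nat_lit 156) (.e (nat_lit 163875) (nat_lit 3) (.e (nat_lit 204815) (nat_lit 17) (.e (nat_lit 2203) (nat_lit 144) (.e (nat_lit 720941) (nat_lit 22) .nil)))))))) (.g (nat_lit 4) .nil .nil)))) (.nd (nat_lit 5) 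
(.lf (nat_lit 218078) (.g (nat_lit 2555) (.e (nat_lit 90172) (nat_lit 14) (.e (nat_lit 180244) (nat_lit 5) (.e (nat_lit 532504) (nat_lit 1) (.e (nat_lit 57692) (nat_lit 156) (.e (nat_lit 163871) (nat_lit 2) (.e (nat_lit 196624) (nat_lit 9) (.e (nat_lit 1276) (nat_lit 94) (.e (nat_lit 114716) (nat_lit 22) .nil)))))))) (.g (nat_lit 4) .nil .nil))) 
(.lf (nat_lit 218110) (.g (nat_lit 2146) (.e (nat_lit 90172) (nat_lit 14) (.e (nat_lit 180244) (nat_lit 5) (.e (nat_lit 532513) (nat_lit 3) (.e (nat_lit 114714) (nat_lit 22) (.e (nat_lit 90130) (nat_lit 9) .nil))))) .nil))))))) (.nd (nat_lit 1) (.nd (nat_lit 2) (.nd (nat_lit 3) (.nd (nat_lit 4) (.nd (nat_lit 5) 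
(.lf (nat_lit 218049) (.g (nat_lit 4046) (.e (nat_lit 90172) (nat_lit 14) (.e (nat_lit 180244) (nat_lit 5) (.e (nat_lit 532504) (nat_lit 1) (.e (nat_lit 57691) (nat_lit 156) (.e (nat_lit 163875) (nat_lit 3) (.e (nat_lit 204818) (nat_lit 17) (.e (nat_lit 2203) (nat_lit 144) (.e (nat_lit 720941) (nat_lit 22) .nil)))))))) (.g (nat_lit 5) .nil .nil))) 
(.lf (nat_lit 218081) (.g (nat_lit 2409) (.e (nat_lit 90172) (nat_lit 14) (.e (nat_lit 180244) (nat_lit 5) (.e (nat_lit 532504) (nat_lit 1) (.e (nat_lit 57692) (nat_lit 156) (.e (nat_lit 163871) (nat_lit 2) (.e (nat_lit 196660) (nat_lit 12) (.e (nat_lit 57549) (nat_lit 48) (.e (nat_lit 720941) (nat_lit 22) .nil)))))))) (.g (nat_lit 4) .nil .nil)))) (.nd (nat_lit 5) 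
(.lf (nat_lit 218065) (.g (nat_lit 3519) (.e (nat_lit 90172) (nat_lit 14) (.e (nat_lit 180244) (nat_lit 5) (.e (nat_lit 532504) (nat_lit 1) (.e (nat_lit 57692) (nat_lit 156) (.e (nat_lit 163869) (nat_lit 2) (.e (nat_lit 196659) (nat_lit 12) (.e (nat_lit 57550) (nat_lit 48) (.e (nat_lit 720938) (nat_lit 22) .nil)))))))) (.g (nat_lit 5) .nil .nil))) 
(.lf (nat_lit 218097) (.g (nat_lit 3875) (.e (nat_lit 90172) (nat_lit 14) (.e (nat_lit 180244) (nat_lit 5) (.e (nat_lit 532504) (nat_lit 1) (.e (nat_lit 57692) (nat_lit 156) (.e (nat_lit 163875) (nat_lit 3) (.e (nat_lit 204837) (nat_lit 20) (.e (nat_lit 114716) (nat_lit 22) .nil))))))) (.g (nat_lit 6) .nil .nil))))) (.nd (nat_lit 4) (.nd (nat_lit 5) 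
(.lf (nat_lit 218057) (.g (nat_lit 2503) (.e (nat_lit 90172) (nat_lit 14) (.e (nat_lit 180244) (nat_lit 5) (.e (nat_lit 532504) (nat_lit 1) (.e (nat_lit 57692) (nat_lit 156) (.e (nat_lit 163869) (nat_lit 2) (.e (nat_lit 196658) (nat_lit 12) (.e (nat_lit 57549) (nat_lit 48) (.e (nat_lit 720938) (nat_lit 22) .nil)))))))) (.g (nat_lit 4) .nil .nil))) 
(.lf (nat_lit 218089) (.g (nat_lit 3446) (.e (nat_lit 90172) (nat_lit 14) (.e (nat_lit 180244) (nat_lit 5) (.e (nat_lit 532504) (nat_lit 1) (.e (nat_lit 57692) (nat_lit 156) (.e (nat_lit 163874) (nat_lit 3) (.e (nat_lit 204820) (nat_lit 17) (.e (nat_lit 2203) (nat_lit 144) (.e (nat_lit 720941) (nat_lit 22) .nil)))))))) (.g (nat_lit 5) .nil .nil)))) (.nd (nat_lit 5) 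
(.lf (nat_lit 218073) (.g (nat_lit 3599) (.e (nat_lit 90172) (nat_lit 14) (.e (nat_lit 180244) (nat_lit 5) (.e (nat_lit 532504) (nat_lit 1) (.e (nat_lit 57692) (nat_lit 156) (.e (nat_lit 163869) (nat_lit 2) (.e (nat_lit 196661) (nat_lit 12) (.e (nat_lit 57549) (nat_lit 48) (.e (nat_lit 720941) (nat_lit 22) .nil)))))))) (.g (nat_lit 5) .nil .nil))) 
(.lf (nat_lit 218105) (.g (nat_lit 2407) (.e (nat_lit 90172) (nat_lit 14) (.e (nat_lit 180244) (nat_lit 5) (.e (nat_lit 532513) (nat_lit 3) (.e (nat_lit 122624) (nat_lit 2) (.e (nat_lit 196654) (nat_lit 11) (.e (nat_lit 24320) (nat_lit 17) .nil)))))) (.g (nat_lit 5) .nil .nil)))))) (.nd (nat_lit 3) (.nd (nat_lit 4) (.nd (nat_lit 5) 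
(.lf (nat_lit 218053) (.g (nat_lit 2299) (.e (nat_lit 90172) (nat_lit 14) (.e (nat_lit 180244) (nat_lit 5) (.e (nat_lit 532504) (nat_lit 1) (.e (nat_lit 57692) (nat_lit 156) (.e (nat_lit 163869) (nat_lit 2) (.e (nat_lit 196626) (nat_lit 9) (.e (nat_lit 1016) (nat_lit 81) (.e (nat_lit 2203) (nat_lit 144) (.e (nat_lit 720941) (nat_lit 22) .nil))))))))) (.g (nat_lit 4) .nil .nil))) 
(.lf (nat_lit 218085) (.g (nat_lit 3420) (.e (nat_lit 90172) (nat_lit 14) (.e (nat_lit 180244) (nat_lit 5) (.e (nat_lit 532504) (nat_lit 1) (.e (nat_lit 57692) (nat_lit 156) (.e (nat_lit 163874) (nat_lit 3) (.e (nat_lit 204814) (nat_lit 17) (.e (nat_lit 2203) (nat_lit 144) (.e (nat_lit 720941) (nat_lit 22) .nil)))))))) (.g (nat_lit 5) .nil .nil)))) (.nd (nat_lit 5) 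
(.lf (nat_lit 218069) (.g (nat_lit 3450) (.e (nat_lit 90172) (nat_lit 14) (.e (nat_lit 180244) (nat_lit 5) (.e (nat_lit 532504) (nat_lit 1) (.e (nat_lit 57692) (nat_lit 156) (.e (nat_lit 163869) (nat_lit 2) (.e (nat_lit 196660) (nat_lit 12) (.e (nat_lit 57550) (nat_lit 48) (.e (nat_lit 720938) (nat_lit 22) .nil)))))))) (.g (nat_lit 5) .nil .nil))) 
(.lf (nat_lit 218101) (.g (nat_lit 513) (.e (nat_lit 90172) (nat_lit 14) (.e (nat_lit 180244) (nat_lit 5) (.e (nat_lit 532508) (nat_lit 2) .nil))) .nil)))) (.nd (nat_lit 4) (.nd (nat_lit 5) 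
(.lf (nat_lit 218061) (.g (nat_lit 3074) (.e (nat_lit 90172) (nat_lit 14) (.e (nat_lit 180244) (nat_lit 5) (.e (nat_lit 532504) (nat_lit 1) (.e (nat_lit 57692) (nat_lit 156) (.e (nat_lit 163869) (nat_lit 2) (.e (nat_lit 196658) (nat_lit 12) (.e (nat_lit 57551) (nat_lit 48) (.e (nat_lit 720937) (nat_lit 22) .nil)))))))) (.g (nat_lit 5) .nil .nil))) 
(.lf (nat_lit 218093) (.g (nat_lit 3892) (.e (nat_lit 90172) (nat_lit 14) (.e (nat_lit 180244) (nat_lit 5) (.e (nat_lit 532504) (nat_lit 1) (.e (nat_lit 57692) (nat_lit 156) (.e (nat_lit 163874) (nat_lit 3) (.e (nat_lit 204837) (nat_lit 20) (.e (nat_lit 114716) (nat_lit 22) .nil))))))) (.g (nat_lit 6) .nil .nil)))) (.nd (nat_lit 5) 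
(.lf (nat_lit 218077) (.g (nat_lit 1854) (.e (nat_lit 90172) (nat_lit 14) (.e (nat_lit 180244) (nat_lit 5) (.e (nat_lit 532504) (nat_lit 1) (.e (nat_lit 57692) (nat_lit 156) (.e (nat_lit 163871) (nat_lit 2) .nil))))) .nil)) 
(.lf (nat_lit 218109) (.g (nat_lit 2134) (.e (nat_lit 90172) (nat_lit 14) (.e (nat_lit 180244) (nat_lit 5) (.e (nat_lit 532513) (nat_lit 3) (.e (nat_lit 114714) (nat_lit 22) (.e (nat_lit 90121) (nat_lit 9) .nil))))) .nil)))))) (.nd (nat_lit 2) (.nd (nat_lit 3) (.nd (nat_lit 4) (.nd (nat_lit 5) 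
(.lf (nat_lit 218051) (.g (nat_lit 982) (.e (nat_lit 90172) (nat_lit 14) (.e (nat_lit 180244) (nat_lit 5) (.e (nat_lit 532504) (nat_lit 1) (.e (nat_lit 57692) (nat_lit 156) .nil)))) .nil)) 
(.lf (nat_lit 218083) (.g (nat_lit 3304) (.e (nat_lit 90172) (nat_lit 14) (.e (nat_lit 180244) (nat_lit 5) (.e (nat_lit 532504) (nat_lit 1) (.e (nat_lit 57692) (nat_lit 156) (.e (nat_lit 163871) (nat_lit 2) (.e (nat_lit 196660) (nat_lit 12) (.e (nat_lit 57550) (nat_lit 48) (.e (nat_lit 720938) (nat_lit 22) .nil)))))))) (.g (nat_lit 5) .nil .nil)))) (.nd (nat_lit 5) 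
(.lf (nat_lit 218067) (.g (nat_lit 2460) (.e (nat_lit 90172) (nat_lit 14) (.e (nat_lit 180244) (nat_lit 5) (.e (nat_lit 532504) (nat_lit 1) (.e (nat_lit 57692) (nat_lit 156) (.e (nat_lit 163869) (nat_lit 2) (.e (nat_lit 196660) (nat_lit 12) (.e (nat_lit 57549) (nat_lit 48) (.e (nat_lit 720938) (nat_lit 22) .nil)))))))) (.g (nat_lit 4) .nil .nil))) 
(.lf (nat_lit 218099) (.g (nat_lit 791) (.e (nat_lit 90172) (nat_lit 14) (.e (nat_lit 180244) (nat_lit 5) (.e (nat_lit 532506) (nat_lit 2) (.e (nat_lit 106556) (nat_lit 15) .nil)))) .nil)))) (.nd (nat_lit 4) (.nd (nat_lit 5) 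
(.lf (nat_lit 218059) (.g (nat_lit 3426) (.e (nat_lit 90172) (nat_lit 14) (.e (nat_lit 180244) (nat_lit 5) (.e (nat_lit 532504) (nat_lit 1) (.e (nat_lit 57692) (nat_lit 156) (.e (nat_lit 163869) (nat_lit 2) (.e (nat_lit 196658) (nat_lit 12) (.e (nat_lit 57550) (nat_lit 48) (.e (nat_lit 720938) (nat_lit 22) .nil)))))))) (.g (nat_lit 5) .nil .nil))) 
(.lf (nat_lit 218091) (.g (nat_lit 2451) (.e (nat_lit 90172) (nat_lit 14) (.e (nat_lit 180244) (nat_lit 5) (.e (nat_lit 532504) (nat_lit 1) (.e (nat_lit 57692) (nat_lit 156) (.e (nat_lit 163874) (nat_lit 3) (.e (nat_lit 204822) (nat_lit 17) (.e (nat_lit 2184) (nat_lit 144) (.e (nat_lit 720938) (nat_lit 22) .nil)))))))) (.g (nat_lit 4) .nil .nil)))) (.nd (nat_lit 5) 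
(.lf (nat_lit 218075) (.g (nat_lit 2650) (.e (nat_lit 90172) (nat_lit 14) (.e (nat_lit 180244) (nat_lit 5) (.e (nat_lit 532504) (nat_lit 1) (.e (nat_lit 57692) (nat_lit 156) (.e (nat_lit 163869) (nat_lit 2) (.e (nat_lit 196677) (nat_lit 16) (.e (nat_lit 130816) (nat_lit 48) (.e (nat_lit 720937) (nat_lit 22) .nil)))))))) (.g (nat_lit 4) .nil .nil))) 
(.lf (nat_lit 218107) (.g (nat_lit 1178) (.e (nat_lit 90172) (nat_lit 14) (.e (nat_lit 180244) (nat_lit 5) (.e (nat_lit 532513) (nat_lit 3) (.e (nat_lit 122624) (nat_lit 3) .nil)))) .nil))))) (.nd (nat_lit 3) (.nd (nat_lit 4) (.nd (nat_lit 5) 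
(.lf (nat_lit 218055) (.g (nat_lit 3441) (.e (nat_lit 90172) (nat_lit 14) (.e (nat_lit 180244) (nat_lit 5) (.e (nat_lit 532504) (nat_lit 1) (.e (nat_lit 57692) (nat_lit 156) (.e (nat_lit 163869) (nat_lit 2) (.e (nat_lit 196628) (nat_lit 9) (.e (nat_lit 968) (nat_lit 81) (.e (nat_lit 2203) (nat_lit 144) (.e (nat_lit 720941) (nat_lit 22) .nil))))))))) (.g (nat_lit 5) .nil .nil))) 
(.lf (nat_lit 218087) (.g (nat_lit 3017) (.e (nat_lit 90172) (nat_lit 14) (.e (nat_lit 180244) (nat_lit 5) (.e (nat_lit 532504) (nat_lit 1) (.e (nat_lit 57692) (nat_lit 156) (.e (nat_lit 163874) (nat_lit 3) (.e (nat_lit 204815) (nat_lit 17) (.e (nat_lit 2203) (nat_lit 144) (.e (nat_lit 720938) (nat_lit 22) .nil)))))))) (.g (nat_lit 5) .nil .nil)))) (.nd (nat_lit 5) 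
(.lf (nat_lit 218071) (.g (nat_lit 3611) (.e (nat_lit 90172) (nat_lit 14) (.e (nat_lit 180244) (nat_lit 5) (.e (nat_lit 532504) (nat_lit 1) (.e (nat_lit 57692) (nat_lit 156) (.e (nat_lit 163869) (nat_lit 2) (.e (nat_lit 196661) (nat_lit 12) (.e (nat_lit 57549) (nat_lit 48) (.e (nat_lit 720937) (nat_lit 22) .nil)))))))) (.g (nat_lit 5) .nil .nil))) 
(.lf (nat_lit 218103) (.g (nat_lit 892) (.e (nat_lit 90172) (nat_lit 14) (.e (nat_lit 180244) (nat_lit 5) (.e (nat_lit 532511) (nat_lit 2) (.e (nat_lit 114432) (nat_lit 0) .nil)))) .nil)))) (.nd (nat_lit 4) (.nd (nat_lit 5) 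
(.lf (nat_lit 218063) (.g (nat_lit 2320) (.e (nat_lit 90172) (nat_lit 14) (.e (nat_lit 180244) (nat_lit 5) (.e (nat_lit 532504) (nat_lit 1) (.e (nat_lit 57692) (nat_lit 156) (.e (nat_lit 163869) (nat_lit 2) (.e (nat_lit 196659) (nat_lit 12) (.e (nat_lit 57549) (nat_lit 48) (.e (nat_lit 720937) (nat_lit 22) .nil)))))))) (.g (nat_lit 4) .nil .nil))) 
(.lf (nat_lit 218095) (.g (nat_lit 3295) (.e (nat_lit 90172) (nat_lit 14) (.e (nat_lit 180244) (nat_lit 5) (.e (nat_lit 532504) (nat_lit 1) (.e (nat_lit 57692) (nat_lit 156) (.e (nat_lit 163875) (nat_lit 3) (.e (nat_lit 204836) (nat_lit 20) (.e (nat_lit 114714) (nat_lit 22) .nil))))))) (.g (nat_lit 5) .nil .nil)))) (.nd (nat_lit 5) 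
(.lf (nat_lit 218079) (.g (nat_lit 2692) (.e (nat_lit 90172) (nat_lit 14) (.e (nat_lit 180244) (nat_lit 5) (.e (nat_lit 532504) (nat_lit 1) (.e (nat_lit 57692) (nat_lit 156) (.e (nat_lit 163871) (nat_lit 2) (.e (nat_lit 196658) (nat_lit 12) (.e (nat_lit 57551) (nat_lit 48) (.e (nat_lit 720941) (nat_lit 22) .nil)))))))) (.g (nat_lit 4) .nil .nil))) 
(.lf (nat_lit 218111) (.g (nat_lit 2748) (.e (nat_lit 90172) (nat_lit 14) (.e (nat_lit 180244) (nat_lit 5) (.e (nat_lit 532513) (nat_lit 3) (.e (nat_lit 114714) (nat_lit 22) (.e (nat_lit 90130) (nat_lit 9) (.e (nat_lit 2612) (nat_lit 163) (.e (nat_lit 164396) (nat_lit 256) (.e (nat_lit 57371) (nat_lit 2) .nil)))))))) (.g (nat_lit 4) .nil .nil)))))))))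

noncomputable def tv2867 : DT := (.nd (nat_lit 0) (.nd (nat_lit 1) (.nd (nat_lit 2) (.nd (nat_lit 3) (.nd (nat_lit 4) (.nd (nat_lit 5) 
(.lf (nat_lit 218112) (.g (nat_lit 2729) (.e (nat_lit 90172) (nat_lit 14) (.e (nat_lit 180244) (nat_lit 5) (.e (nat_lit 532513) (nat_lit 3) (.e (nat_lit 114714) (nat_lit 22) (.e (nat_lit 90130) (nat_lit 9) (.e (nat_lit 2612) (nat_lit 163) (.e (nat_lit 164402) (nat_lit 256) (.e (nat_lit 57371) (nat_lit 2) .nil)))))))) (.g (nat_lit 4) .nil .nil))) 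
(.lf (nat_lit 218144) (.g (nat_lit 5012) (.e (nat_lit 90172) (nat_lit 14) (.e (nat_lit 180244) (nat_lit 5) (.e (nat_lit 532513) (nat_lit 3) (.e (nat_lit 114718) (nat_lit 23) (.e (nat_lit 98333) (nat_lit 18) (.e (nat_lit 164399) (nat_lit 256) (.e (nat_lit 57373) (nat_lit 2) .nil))))))) (.g (nat_lit 0) .nil .nil)))) (.nd (nat_lit 5) 
(.lf (nat_lit 218128) (.g (nat_lit 1993) (.e (nat_lit 90172) (nat_lit 14) (.e (nat_lit 180244) (nat_lit 5) (.e (nat_lit 532513) (nat_lit 3) (.e (nat_lit 114714) (nat_lit 22) (.e (nat_lit 90181) (nat_lit 16) .nil))))) .nil)) 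
(.lf (nat_lit 218160) (.g (nat_lit 3006) (.e (nat_lit 90172) (nat_lit 14) (.e (nat_lit 180244) (nat_lit 5) (.e (nat_lit 532513) (nat_lit 3) (.e (nat_lit 114719) (nat_lit 23) (.e (nat_lit 98332) (nat_lit 18) (.e (nat_lit 164398) (nat_lit 256) (.e (nat_lit 57375) (nat_lit 2) .nil))))))) (.g (nat_lit 4) .nil .nil))))) (.nd (nat_lit 4) (.nd (nat_lit 5) 
(.lf (nat_lit 218120) (.g (nat_lit 2134) (.e (nat_lit 90172) (nat_lit 14) (.e (nat_lit 180244) (nat_lit 5) (.e (nat_lit 532513) (nat_lit 3) (.e (nat_lit 114714) (nat_lit 22) (.e (nat_lit 90163) (nat_lit 12) .nil))))) .nil)) 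
(.lf (nat_lit 218152) (.g (nat_lit 2170) (.e (nat_lit 90172) (nat_lit 14) (.e (nat_lit 180244) (nat_lit 5) (.e (nat_lit 532513) (nat_lit 3) (.e (nat_lit 114718) (nat_lit 23) (.e (nat_lit 98343) (nat_lit 21) .nil))))) .nil))) (.nd (nat_lit 5) 
(.lf (nat_lit 218136) (.g (nat_lit 2527) (.e (nat_lit 90172) (nat_lit 14) (.e (nat_lit 180244) (nat_lit 5) (.e (nat_lit 532513) (nat_lit 3) (.e (nat_lit 114717) (nat_lit 23) (.e (nat_lit 98334) (nat_lit 18) (.e (nat_lit 164399) (nat_lit 256) (.e (nat_lit 57370) (nat_lit 2) .nil))))))) (.g (nat_lit 5) .nil .nil))) 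
(.lf (nat_lit 218168) (.g (nat_lit 2484) (.e (nat_lit 90172) (nat_lit 14) (.e (nat_lit 180244) (nat_lit 5) (.e (nat_lit 532513) (nat_lit 3) (.e (nat_lit 114719) (nat_lit 23) (.e (nat_lit 98334) (nat_lit 18) (.e (nat_lit 164401) (nat_lit 256) (.e (nat_lit 57370) (nat_lit 2) .nil))))))) (.g (nat_lit 4) .nil .nil)))))) (.nd (nat_lit 3) (.nd (nat_lit 4) (.nd (nat_lit 5) 
(.lf (nat_lit 218116) (.g (nat_lit 2854) (.e (nat_lit 90172) (nat_lit 14) (.e (nat_lit 180244) (nat_lit 5) (.e (nat_lit 532513) (nat_lit 3) (.e (nat_lit 114714) (nat_lit 22) (.e (nat_lit 90162) (nat_lit 12) (.e (nat_lit 164007) (nat_lit 41) (.e (nat_lit 663559) (nat_lit 0) (.e (nat_lit 1238) (nat_lit 91) .nil)))))))) (.g (nat_lit 4) .nil .nil))) 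
(.lf (nat_lit 218148) (.g (nat_lit 3639) (.e (nat_lit 90172) (nat_lit 14) (.e (nat_lit 180244) (nat_lit 5) (.e (nat_lit 532513) (nat_lit 3) (.e (nat_lit 114718) (nat_lit 23) (.e (nat_lit 98334) (nat_lit 18) (.e (nat_lit 164401) (nat_lit 256) (.e (nat_lit 57371) (nat_lit 2) .nil))))))) (.g (nat_lit 5) .nil .nil)))) (.nd (nat_lit 5) 
(.lf (nat_lit 218132) (.g (nat_lit 2692) (.e (nat_lit 90172) (nat_lit 14) (.e (nat_lit 180244) (nat_lit 5) (.e (nat_lit 532513) (nat_lit 3) (.e (nat_lit 114714) (nat_lit 22) (.e (nat_lit 90182) (nat_lit 16) (.e (nat_lit 229379) (nat_lit 0) (.e (nat_lit 5939) (nat_lit 322) (.e (nat_lit 57375) (nat_lit 2) .nil)))))))) (.g (nat_lit 4) .nil .nil))) 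
(.lf (nat_lit 218164) (.g (nat_lit 3535) (.e (nat_lit 90172) (nat_lit 14) (.e (nat_lit 180244) (nat_lit 5) (.e (nat_lit 532513) (nat_lit 3) (.e (nat_lit 114719) (nat_lit 23) (.e (nat_lit 98333) (nat_lit 18) (.e (nat_lit 164396) (nat_lit 256) (.e (nat_lit 57371) (nat_lit 2) .nil))))))) (.g (nat_lit 5) .nil .nil))))) (.nd (nat_lit 4) (.nd (nat_lit 5) 
(.lf (nat_lit 218124) (.g (nat_lit 2033) (.e (nat_lit 90172) (nat_lit 14) (.e (nat_lit 180244) (nat_lit 5) (.e (nat_lit 532513) (nat_lit 3) (.e (nat_lit 114714) (nat_lit 22) (.e (nat_lit 90165) (nat_lit 12) .nil))))) .nil)) 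
(.lf (nat_lit 218156) (.g (nat_lit 2996) (.e (nat_lit 90172) (nat_lit 14) (.e (nat_lit 180244) (nat_lit 5) (.e (nat_lit 532513) (nat_lit 3) (.e (nat_lit 114719) (nat_lit 23) (.e (nat_lit 98325) (nat_lit 17) (.e (nat_lit 2458) (nat_lit 157) (.e (nat_lit 5939) (nat_lit 322) (.e (nat_lit 57372) (nat_lit 2) .nil)))))))) (.g (nat_lit 4) .nil .nil)))) (.nd (nat_lit 5) 
(.lf (nat_lit 218140) (.g (nat_lit 2877) (.e (nat_lit 90172) (nat_lit 14) (.e (nat_lit 180244) (nat_lit 5) (.e (nat_lit 532513) (nat_lit 3) (.e (nat_lit 114718) (nat_lit 23) (.e (nat_lit 98332) (nat_lit 18) (.e (nat_lit 164399) (nat_lit 256) (.e (nat_lit 57372) (nat_lit 2) .nil))))))) (.g (nat_lit 4) .nil .nil))) 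
(.lf (nat_lit 218172) (.g (nat_lit 2315) (.e (nat_lit 90172) (nat_lit 14) (.e (nat_lit 180244) (nat_lit 5) (.e (nat_lit 532513) (nat_lit 3) (.e (nat_lit 114719) (nat_lit 23) (.e (nat_lit 98343) (nat_lit 21) .nil))))) .nil)))))) (.nd (nat_lit 2) (.nd (nat_lit 3) (.nd (nat_lit 4) (.nd (nat_lit 5) 
(.lf (nat_lit 218114) (.g (nat_lit 2134) (.e (nat_lit 90172) (nat_lit 14) (.e (nat_lit 180244) (nat_lit 5) (.e (nat_lit 532513) (nat_lit 3) (.e (nat_lit 114714) (nat_lit 22) (.e (nat_lit 90140) (nat_lit 9) .nil))))) .nil)) 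
(.lf (nat_lit 218146) (.g (nat_lit 3650) (.e (nat_lit 90172) (nat_lit 14) (.e (nat_lit 180244) (nat_lit 5) (.e (nat_lit 532513) (nat_lit 3) (.e (nat_lit 114718) (nat_lit 23) (.e (nat_lit 98333) (nat_lit 18) (.e (nat_lit 164403) (nat_lit 256) (.e (nat_lit 57370) (nat_lit 2) .nil))))))) (.g (nat_lit 5) .nil .nil)))) (.nd (nat_lit 5) 
(.lf (nat_lit 218130) (.g (nat_lit 2623) (.e (nat_lit 90172) (nat_lit 14) (.e (nat_lit 180244) (nat_lit 5) (.e (nat_lit 532513) (nat_lit 3) (.e (nat_lit 114714) (nat_lit 22) (.e (nat_lit 90181) (nat_lit 16) (.e (nat_lit 229378) (nat_lit 0) (.e (nat_lit 5938) (nat_lit 322) (.e (nat_lit 57375) (nat_lit 2) .nil)))))))) (.g (nat_lit 4) .nil .nil))) 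
(.lf (nat_lit 218162) (.g (nat_lit 2528) (.e (nat_lit 90172) (nat_lit 14) (.e (nat_lit 180244) (nat_lit 5) (.e (nat_lit 532513) (nat_lit 3) (.e (nat_lit 114719) (nat_lit 23) (.e (nat_lit 98332) (nat_lit 18) (.e (nat_lit 164401) (nat_lit 256) (.e (nat_lit 57373) (nat_lit 2) .nil))))))) (.g (nat_lit 4) .nil .nil))))) (.nd (nat_lit 4) (.nd (nat_lit 5) 
(.lf (nat_lit 218122) (.g (nat_lit 2050) (.e (nat_lit 90172) (nat_lit 14) (.e (nat_lit 180244) (nat_lit 5) (.e (nat_lit 532513) (nat_lit 3) (.e (nat_lit 114714) (nat_lit 22) (.e (nat_lit 90164) (nat_lit 12) .nil))))) .nil)) 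
(.lf (nat_lit 218154) (.g (nat_lit 2327) (.e (nat_lit 90172) (nat_lit 14) (.e (nat_lit 180244) (nat_lit 5) (.e (nat_lit 532513) (nat_lit 3) (.e (nat_lit 114719) (nat_lit 23) (.e (nat_lit 98325) (nat_lit 17) .nil))))) .nil))) (.nd (nat_lit 5) 
(.lf (nat_lit 218138) (.g (nat_lit 2095) (.e (nat_lit 90172) (nat_lit 14) (.e (nat_lit 180244) (nat_lit 5) (.e (nat_lit 532513) (nat_lit 3) (.e (nat_lit 114718) (nat_lit 23) (.e (nat_lit 98325) (nat_lit 17) .nil))))) .nil)) 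
(.lf (nat_lit 218170) (.g (nat_lit 3678) (.e (nat_lit 90172) (nat_lit 14) (.e (nat_lit 180244) (nat_lit 5) (.e (nat_lit 532513) (nat_lit 3) (.e (nat_lit 114719) (nat_lit 23) (.e (nat_lit 98334) (nat_lit 18) (.e (nat_lit 164402) (nat_lit 256) (.e (nat_lit 57373) (nat_lit 2) .nil))))))) (.g (nat_lit 5) .nil .nil)))))) (.nd (nat_lit 3) (.nd (nat_lit 4) (.nd (nat_lit 5) 
(.lf (nat_lit 218118) (.g (nat_lit 2507) (.e (nat_lit 90172) (nat_lit 14) (.e (nat_lit 180244) (nat_lit 5) (.e (nat_lit 532513) (nat_lit 3) (.e (nat_lit 114714) (nat_lit 22) (.e (nat_lit 90162) (nat_lit 12) (.e (nat_lit 164007) (nat_lit 41) (.e (nat_lit 671488) (nat_lit 0) (.e (nat_lit 1227) (nat_lit 91) .nil)))))))) (.g (nat_lit 4) .nil .nil))) 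
(.lf (nat_lit 218150) (.g (nat_lit 3734) (.e (nat_lit 90172) (nat_lit 14) (.e (nat_lit 180244) (nat_lit 5) (.e (nat_lit 532513) (nat_lit 3) (.e (nat_lit 114718) (nat_lit 23) (.e (nat_lit 98334) (nat_lit 18) (.e (nat_lit 164402) (nat_lit 256) (.e (nat_lit 57373) (nat_lit 2) .nil))))))) (.g (nat_lit 5) .nil .nil)))) (.nd (nat_lit 5) 
(.lf (nat_lit 218134) (.g (nat_lit 2038) (.e (nat_lit 90172) (nat_lit 14) (.e (nat_lit 180244) (nat_lit 5) (.e (nat_lit 532513) (nat_lit 3) (.e (nat_lit 114714) (nat_lit 22) (.e (nat_lit 90203) (nat_lit 21) .nil))))) .nil)) 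
(.lf (nat_lit 218166) (.g (nat_lit 3517) (.e (nat_lit 90172) (nat_lit 14) (.e (nat_lit 180244) (nat_lit 5) (.e (nat_lit 532513) (nat_lit 3) (.e (nat_lit 114719) (nat_lit 23) (.e (nat_lit 98333) (nat_lit 18) (.e (nat_lit 164403) (nat_lit 256) (.e (nat_lit 57370) (nat_lit 2) .nil))))))) (.g (nat_lit 5) .nil .nil))))) (.nd (nat_lit 4) (.nd (nat_lit 5) 
(.lf (nat_lit 218126) (.g (nat_lit 2523) (.e (nat_lit 90172) (nat_lit 14) (.e (nat_lit 180244) (nat_lit 5) (.e (nat_lit 532513) (nat_lit 3) (.e (nat_lit 114714) (nat_lit 22) (.e (nat_lit 90165) (nat_lit 12) (.e (nat_lit 171776) (nat_lit 0) (.e (nat_lit 5943) (nat_lit 322) (.e (nat_lit 57375) (nat_lit 2) .nil)))))))) (.g (nat_lit 4) .nil .nil))) 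
(.lf (nat_lit 218158) (.g (nat_lit 2047) (.e (nat_lit 90172) (nat_lit 14) (.e (nat_lit 180244) (nat_lit 5) (.e (nat_lit 532513) (nat_lit 3) (.e (nat_lit 114719) (nat_lit 23) (.e (nat_lit 98331) (nat_lit 17) .nil))))) .nil))) (.nd (nat_lit 5) 
(.lf (nat_lit 218142) (.g (nat_lit 3705) (.e (nat_lit 90172) (nat_lit 14) (.e (nat_lit 180244) (nat_lit 5) (.e (nat_lit 532513) (nat_lit 3) (.e (nat_lit 114718) (nat_lit 23) (.e (nat_lit 98333) (nat_lit 18) (.e (nat_lit 164396) (nat_lit 256) (.e (nat_lit 57371) (nat_lit 2) .nil))))))) (.g (nat_lit 5) .nil .nil))) 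
(.lf (nat_lit 218174) (.g (nat_lit 483) (.e (nat_lit 90172) (nat_lit 14) (.e (nat_lit 180244) (nat_lit 5) (.e (nat_lit 532514) (nat_lit 3) .nil))) .nil))))))) (.nd (nat_lit 1) (.nd (nat_lit 2) (.nd (nat_lit 3) (.nd (nat_lit 4) (.nd (nat_lit 5) 
(.lf (nat_lit 218113) (.g (nat_lit 2774) (.e (nat_lit 90172) (nat_lit 14) (.e (nat_lit 180244) (nat_lit 5) (.e (nat_lit 532513) (nat_lit 3) (.e (nat_lit 114714) (nat_lit 22) (.e (nat_lit 90134) (nat_lit 9) (.e (nat_lit 2717) (nat_lit 171) (.e (nat_lit 229707) (nat_lit 256) (.e (nat_lit 57375) (nat_lit 2) .nil)))))))) (.g (nat_lit 4) .nil .nil))) 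
(.lf (nat_lit 218145) (.g (nat_lit 3748) (.e (nat_lit 90172) (nat_lit 14) (.e (nat_lit 180244) (nat_lit 5) (.e (nat_lit 532513) (nat_lit 3) (.e (nat_lit 114718) (nat_lit 23) (.e (nat_lit 98333) (nat_lit 18) (.e (nat_lit 164402) (nat_lit 256) (.e (nat_lit 57371) (nat_lit 2) .nil))))))) (.g (nat_lit 5) .nil .nil)))) (.nd (nat_lit 5) 
(.lf (nat_lit 218129) (.g (nat_lit 2559) (.e (nat_lit 90172) (nat_lit 14) (.e (nat_lit 180244) (nat_lit 5) (.e (nat_lit 532513) (nat_lit 3) (.e (nat_lit 114714) (nat_lit 22) (.e (nat_lit 90181) (nat_lit 16) (.e (nat_lit 229378) (nat_lit 0) (.e (nat_lit 5938) (nat_lit 322) (.e (nat_lit 57372) (nat_lit 2) .nil)))))))) (.g (nat_lit 4) .nil .nil))) 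
(.lf (nat_lit 218161) (.g (nat_lit 2421) (.e (nat_lit 90172) (nat_lit 14) (.e (nat_lit 180244) (nat_lit 5) (.e (nat_lit 532513) (nat_lit 3) (.e (nat_lit 114719) (nat_lit 23) (.e (nat_lit 98332) (nat_lit 18) (.e (nat_lit 164399) (nat_lit 256) (.e (nat_lit 57370) (nat_lit 2) .nil))))))) (.g (nat_lit 4) .nil .nil))))) (.nd (nat_lit 4) (.nd (nat_lit 5) 
(.lf (nat_lit 218121) (.g (nat_lit 2808) (.e (nat_lit 90172) (nat_lit 14) (.e (nat_lit 180244) (nat_lit 5) (.e (nat_lit 532513) (nat_lit 3) (.e (nat_lit 114714) (nat_lit 22) (.e (nat_lit 90163) (nat_lit 12) (.e (nat_lit 163850) (nat_lit 0) (.e (nat_lit 5939) (nat_lit 322) (.e (nat_lit 57375) (nat_lit 2) .nil)))))))) (.g (nat_lit 4) .nil .nil))) 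
(.lf (nat_lit 218153) (.g (nat_lit 1116) (.e (nat_lit 90172) (nat_lit 14) (.e (nat_lit 180244) (nat_lit 5) (.e (nat_lit 532513) (nat_lit 3) (.e (nat_lit 114719) (nat_lit 23) .nil)))) .nil))) (.nd (nat_lit 5) 
(.lf (nat_lit 218137) (.g (nat_lit 1168) (.e (nat_lit 90172) (nat_lit 14) (.e (nat_lit 180244) (nat_lit 5) (.e (nat_lit 532513) (nat_lit 3) (.e (nat_lit 114718) (nat_lit 23) .nil)))) .nil)) 
(.lf (nat_lit 218169) (.g (nat_lit 4668) (.e (nat_lit 90172) (nat_lit 14) (.e (nat_lit 180244) (nat_lit 5) (.e (nat_lit 532513) (nat_lit 3) (.e (nat_lit 114719) (nat_lit 23) (.e (nat_lit 98334) (nat_lit 18) (.e (nat_lit 164401) (nat_lit 256) (.e (nat_lit 57373) (nat_lit 2) .nil))))))) (.g (nat_lit 0) .nil .nil)))))) (.nd (nat_lit 3) (.nd (nat_lit 4) (.nd (nat_lit 5) 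
(.lf (nat_lit 218117) (.g (nat_lit 2675) (.e (nat_lit 90172) (nat_lit 14) (.e (nat_lit 180244) (nat_lit 5) (.e (nat_lit 532513) (nat_lit 3) (.e (nat_lit 114714) (nat_lit 22) (.e (nat_lit 90162) (nat_lit 12) (.e (nat_lit 164007) (nat_lit 41) (.e (nat_lit 663560) (nat_lit 0) (.e (nat_lit 1228) (nat_lit 91) .nil)))))))) (.g (nat_lit 4) .nil .nil))) 
(.lf (nat_lit 218149) (.g (nat_lit 4012) (.e (nat_lit 90172) (nat_lit 14) (.e (nat_lit 180244) (nat_lit 5) (.e (nat_lit 532513) (nat_lit 3) (.e (nat_lit 114718) (nat_lit 23) (.e (nat_lit 98334) (nat_lit 18) (.e (nat_lit 164402) (nat_lit 256) (.e (nat_lit 57371) (nat_lit 2) .nil))))))) (.g (nat_lit 5) .nil .nil)))) (.nd (nat_lit 5) 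
(.lf (nat_lit 218133) (.g (nat_lit 2007) (.e (nat_lit 90172) (nat_lit 14) (.e (nat_lit 180244) (nat_lit 5) (.e (nat_lit 532513) (nat_lit 3) (.e (nat_lit 114714) (nat_lit 22) (.e (nat_lit 90196) (nat_lit 18) .nil))))) .nil)) 
(.lf (nat_lit 218165) (.g (nat_lit 3578) (.e (nat_lit 90172) (nat_lit 14) (.e (nat_lit 180244) (nat_lit 5) (.e (nat_lit 532513) (nat_lit 3) (.e (nat_lit 114719) (nat_lit 23) (.e (nat_lit 98333) (nat_lit 18) (.e (nat_lit 164402) (nat_lit 256) (.e (nat_lit 57371) (nat_lit 2) .nil))))))) (.g (nat_lit 5) .nil .nil))))) (.nd (nat_lit 4) (.nd (nat_lit 5) 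
(.lf (nat_lit 218125) (.g (nat_lit 2328) (.e (nat_lit 90172) (nat_lit 14) (.e (nat_lit 180244) (nat_lit 5) (.e (nat_lit 532513) (nat_lit 3) (.e (nat_lit 114714) (nat_lit 22) (.e (nat_lit 90165) (nat_lit 12) (.e (nat_lit 171776) (nat_lit 0) (.e (nat_lit 5943) (nat_lit 322) (.e (nat_lit 57372) (nat_lit 2) .nil)))))))) (.g (nat_lit 4) .nil .nil))) 
(.lf (nat_lit 218157) (.g (nat_lit 2666) (.e (nat_lit 90172) (nat_lit 14) (.e (nat_lit 180244) (nat_lit 5) (.e (nat_lit 532513) (nat_lit 3) (.e (nat_lit 114719) (nat_lit 23) (.e (nat_lit 98325) (nat_lit 17) (.e (nat_lit 2478) (nat_lit 157) (.e (nat_lit 5934) (nat_lit 322) (.e (nat_lit 57375) (nat_lit 2) .nil)))))))) (.g (nat_lit 4) .nil .nil)))) (.nd (nat_lit 5) 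
(.lf (nat_lit 218141) (.g (nat_lit 2692) (.e (nat_lit 90172) (nat_lit 14) (.e (nat_lit 180244) (nat_lit 5) (.e (nat_lit 532513) (nat_lit 3) (.e (nat_lit 114718) (nat_lit 23) (.e (nat_lit 98332) (nat_lit 18) (.e (nat_lit 164403) (nat_lit 256) (.e (nat_lit 57371) (nat_lit 2) .nil))))))) (.g (nat_lit 4) .nil .nil))) 
(.lf (nat_lit 218173) (.g (nat_lit 2971) (.e (nat_lit 90172) (nat_lit 14) (.e (nat_lit 180244) (nat_lit 5) (.e (nat_lit 532513) (nat_lit 3) (.e (nat_lit 114719) (nat_lit 23) (.e (nat_lit 98343) (nat_lit 21) (.e (nat_lit 229707) (nat_lit 256) (.e (nat_lit 57371) (nat_lit 2) .nil))))))) (.g (nat_lit 4) .nil .nil))))))) (.nd (nat_lit 2) (.nd (nat_lit 3) (.nd (nat_lit 4) (.nd (nat_lit 5) 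
(.lf (nat_lit 218115) (.g (nat_lit 2105) (.e (nat_lit 90172) (nat_lit 14) (.e (nat_lit 180244) (nat_lit 5) (.e (nat_lit 532513) (nat_lit 3) (.e (nat_lit 114714) (nat_lit 22) (.e (nat_lit 90162) (nat_lit 12) .nil))))) .nil)) 
(.lf (nat_lit 218147) (.g (nat_lit 2685) (.e (nat_lit 90172) (nat_lit 14) (.e (nat_lit 180244) (nat_lit 5) (.e (nat_lit 532513) (nat_lit 3) (.e (nat_lit 114718) (nat_lit 23) (.e (nat_lit 98334) (nat_lit 18) (.e (nat_lit 164401) (nat_lit 256) (.e (nat_lit 57370) (nat_lit 2) .nil))))))) (.g (nat_lit 4) .nil .nil)))) (.nd (nat_lit 5) 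
(.lf (nat_lit 218131) (.g (nat_lit 2598) (.e (nat_lit 90172) (nat_lit 14) (.e (nat_lit 180244) (nat_lit 5) (.e (nat_lit 532513) (nat_lit 3) (.e (nat_lit 114714) (nat_lit 22) (.e (nat_lit 90181) (nat_lit 16) (.e (nat_lit 229380) (nat_lit 0) (.e (nat_lit 5934) (nat_lit 322) (.e (nat_lit 57375) (nat_lit 2) .nil)))))))) (.g (nat_lit 4) .nil .nil))) 
(.lf (nat_lit 218163) (.g (nat_lit 2966) (.e (nat_lit 90172) (nat_lit 14) (.e (nat_lit 180244) (nat_lit 5) (.e (nat_lit 532513) (nat_lit 3) (.e (nat_lit 114719) (nat_lit 23) (.e (nat_lit 98332) (nat_lit 18) (.e (nat_lit 164402) (nat_lit 256) (.e (nat_lit 57371) (nat_lit 2) .nil))))))) (.g (nat_lit 4) .nil .nil))))) (.nd (nat_lit 4) (.nd (nat_lit 5) 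
(.lf (nat_lit 218123) (.g (nat_lit 2493) (.e (nat_lit 90172) (nat_lit 14) (.e (nat_lit 180244) (nat_lit 5) (.e (nat_lit 532513) (nat_lit 3) (.e (nat_lit 114714) (nat_lit 22) (.e (nat_lit 90164) (nat_lit 12) (.e (nat_lit 164006) (nat_lit 41) (.e (nat_lit 671488) (nat_lit 0) (.e (nat_lit 1228) (nat_lit 91) .nil)))))))) (.g (nat_lit 4) .nil .nil))) 
(.lf (nat_lit 218155) (.g (nat_lit 2867) (.e (nat_lit 90172) (nat_lit 14) (.e (nat_lit 180244) (nat_lit 5) (.e (nat_lit 532513) (nat_lit 3) (.e (nat_lit 114719) (nat_lit 23) (.e (nat_lit 98325) (nat_lit 17) (.e (nat_lit 2458) (nat_lit 157) (.e (nat_lit 5935) (nat_lit 322) (.e (nat_lit 57375) (nat_lit 2) .nil)))))))) (.g (nat_lit 4) .nil .nil)))) (.nd (nat_lit 5) 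
(.lf (nat_lit 218139) (.g (nat_lit 2535) (.e (nat_lit 90172) (nat_lit 14) (.e (nat_lit 180244) (nat_lit 5) (.e (nat_lit 532513) (nat_lit 3) (.e (nat_lit 114718) (nat_lit 23) (.e (nat_lit 98332) (nat_lit 18) (.e (nat_lit 164398) (nat_lit 256) (.e (nat_lit 57373) (nat_lit 2) .nil))))))) (.g (nat_lit 4) .nil .nil))) 
(.lf (nat_lit 218171) (.g (nat_lit 2835) (.e (nat_lit 90172) (nat_lit 14) (.e (nat_lit 180244) (nat_lit 5) (.e (nat_lit 532513) (nat_lit 3) (.e (nat_lit 114719) (nat_lit 23) (.e (nat_lit 98335) (nat_lit 18) (.e (nat_lit 164396) (nat_lit 256) (.e (nat_lit 57375) (nat_lit 2) .nil))))))) (.g (nat_lit 4) .nil .nil)))))) (.nd (nat_lit 3) (.nd (nat_lit 4) (.nd (nat_lit 5) 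
(.lf (nat_lit 218119) (.g (nat_lit 2522) (.e (nat_lit 90172) (nat_lit 14) (.e (nat_lit 180244) (nat_lit 5) (.e (nat_lit 532513) (nat_lit 3) (.e (nat_lit 114714) (nat_lit 22) (.e (nat_lit 90162) (nat_lit 12) (.e (nat_lit 164007) (nat_lit 41) (.e (nat_lit 671488) (nat_lit 0) (.e (nat_lit 1228) (nat_lit 91) .nil)))))))) (.g (nat_lit 4) .nil .nil))) 
(.lf (nat_lit 218151) (.g (nat_lit 4141) (.e (nat_lit 90172) (nat_lit 14) (.e (nat_lit 180244) (nat_lit 5) (.e (nat_lit 532513) (nat_lit 3) (.e (nat_lit 114718) (nat_lit 23) (.e (nat_lit 98335) (nat_lit 18) (.e (nat_lit 164403) (nat_lit 256) (.e (nat_lit 57370) (nat_lit 2) .nil))))))) (.g (nat_lit 6) .nil .nil)))) (.nd (nat_lit 5) 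
(.lf (nat_lit 218135) (.g (nat_lit 1345) (.e (nat_lit 90172) (nat_lit 14) (.e (nat_lit 180244) (nat_lit 5) (.e (nat_lit 532513) (nat_lit 3) (.e (nat_lit 114716) (nat_lit 22) .nil)))) .nil)) 
(.lf (nat_lit 218167) (.g (nat_lit 4092) (.e (nat_lit 90172) (nat_lit 14) (.e (nat_lit 180244) (nat_lit 5) (.e (nat_lit 532513) (nat_lit 3) (.e (nat_lit 114719) (nat_lit 23) (.e (nat_lit 98334) (nat_lit 18) (.e (nat_lit 164399) (nat_lit 256) (.e (nat_lit 57370) (nat_lit 2) .nil))))))) (.g (nat_lit 6) .nil .nil))))) (.nd (nat_lit 4) (.nd (nat_lit 5) 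
(.lf (nat_lit 218127) (.g (nat_lit 2633) (.e (nat_lit 90172) (nat_lit 14) (.e (nat_lit 180244) (nat_lit 5) (.e (nat_lit 532513) (nat_lit 3) (.e (nat_lit 114714) (nat_lit 22) (.e (nat_lit 90180) (nat_lit 16) (.e (nat_lit 229379) (nat_lit 0) (.e (nat_lit 5939) (nat_lit 322) (.e (nat_lit 57375) (nat_lit 2) .nil)))))))) (.g (nat_lit 4) .nil .nil))) 
(.lf (nat_lit 218159) (.g (nat_lit 3001) (.e (nat_lit 90172) (nat_lit 14) (.e (nat_lit 180244) (nat_lit 5) (.e (nat_lit 532513) (nat_lit 3) (.e (nat_lit 114719) (nat_lit 23) (.e (nat_lit 98332) (nat_lit 18) (.e (nat_lit 164396) (nat_lit 256) (.e (nat_lit 57371) (nat_lit 2) .nil))))))) (.g (nat_lit 4) .nil .nil)))) (.nd (nat_lit 5) 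
(.lf (nat_lit 218143) (.g (nat_lit 4354) (.e (nat_lit 90172) (nat_lit 14) (.e (nat_lit 180244) (nat_lit 5) (.e (nat_lit 532513) (nat_lit 3) (.e (nat_lit 114718) (nat_lit 23) (.e (nat_lit 98333) (nat_lit 18) (.e (nat_lit 164399) (nat_lit 256) (.e (nat_lit 57370) (nat_lit 2) .nil))))))) (.g (nat_lit 6) .nil .nil))) 
(.lf (nat_lit 218175) (.g (nat_lit 2921) (.e (nat_lit 90172) (nat_lit 14) (.e (nat_lit 180244) (nat_lit 5) (.e (nat_lit 532514) (nat_lit 3) (.e (nat_lit 114718) (nat_lit 23) (.e (nat_lit 98334) (nat_lit 18) (.e (nat_lit 164399) (nat_lit 256) (.e (nat_lit 57372) (nat_lit 2) .nil))))))) (.g (nat_lit 5) .nil .nil)))))))))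

noncomputable def tv2868 : DT := (.nd (nat_lit 0) (.nd (nat_lit 1) (.nd (nat_lit 2) (.nd (nat_lit 3) (.nd (nat_lit 4) (.nd (nat_lit 5) 
(.lf (nat_lit 218176) (.g (nat_lit 2550) (.e (nat_lit 90172) (nat_lit 14) (.e (nat_lit 180244) (nat_lit 5) (.e (nat_lit 532514) (nat_lit 3) (.e (nat_lit 114718) (nat_lit 23) (.e (nat_lit 98335) (nat_lit 18) (.e (nat_lit 164403) (nat_lit 256) (.e (nat_lit 57371) (nat_lit 2) .nil))))))) (.g (nat_lit 4) .nil .nil))) 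
(.lf (nat_lit 218208) (.g (nat_lit 2715) (.e (nat_lit 90172) (nat_lit 14) (.e (nat_lit 180244) (nat_lit 5) (.e (nat_lit 532515) (nat_lit 3) (.e (nat_lit 114719) (nat_lit 23) (.e (nat_lit 98321) (nat_lit 17) (.e (nat_lit 2464) (nat_lit 157) (.e (nat_lit 5939) (nat_lit 322) (.e (nat_lit 57375) (nat_lit 2) .nil)))))))) (.g (nat_lit 4) .nil .nil)))) (.nd (nat_lit 5) 
(.lf (nat_lit 218192) (.g (nat_lit 3692) (.e (nat_lit 90172) (nat_lit 14) (.e (nat_lit 180244) (nat_lit 5) (.e (nat_lit 532515) (nat_lit 3) (.e (nat_lit 114717) (nat_lit 23) (.e (nat_lit 98334) (nat_lit 18) (.e (nat_lit 164401) (nat_lit 256) (.e (nat_lit 57373) (nat_lit 2) .nil))))))) (.g (nat_lit 0) .nil .nil))) 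
(.lf (nat_lit 218224) (.g (nat_lit 2682) (.e (nat_lit 90172) (nat_lit 14) (.e (nat_lit 180244) (nat_lit 5) (.e (nat_lit 532515) (nat_lit 3) (.e (nat_lit 114719) (nat_lit 23) (.e (nat_lit 98331) (nat_lit 17) (.e (nat_lit 2479) (nat_lit 157) (.e (nat_lit 5953) (nat_lit 322) (.e (nat_lit 57371) (nat_lit 2) .nil)))))))) (.g (nat_lit 4) .nil .nil))))) (.nd (nat_lit 4) (.nd (nat_lit 5) 
(.lf (nat_lit 218184) (.g (nat_lit 2190) (.e (nat_lit 90172) (nat_lit 14) (.e (nat_lit 180244) (nat_lit 5) (.e (nat_lit 532515) (nat_lit 3) (.e (nat_lit 114716) (nat_lit 22) (.e (nat_lit 90165) (nat_lit 12) (.e (nat_lit 163857) (nat_lit 0) (.e (nat_lit 5934) (nat_lit 322) (.e (nat_lit 57375) (nat_lit 2) .nil)))))))) (.g (nat_lit 4) .nil .nil))) 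
(.lf (nat_lit 218216) (.g (nat_lit 1996) (.e (nat_lit 90172) (nat_lit 14) (.e (nat_lit 180244) (nat_lit 5) (.e (nat_lit 532515) (nat_lit 3) (.e (nat_lit 114719) (nat_lit 23) (.e (nat_lit 98331) (nat_lit 17) .nil))))) .nil))) (.nd (nat_lit 5) 
(.lf (nat_lit 218200) (.g (nat_lit 2379) (.e (nat_lit 90172) (nat_lit 14) (.e (nat_lit 180244) (nat_lit 5) (.e (nat_lit 532515) (nat_lit 3) (.e (nat_lit 114718) (nat_lit 23) (.e (nat_lit 98335) (nat_lit 18) (.e (nat_lit 164396) (nat_lit 256) (.e (nat_lit 57371) (nat_lit 2) .nil))))))) (.g (nat_lit 4) .nil .nil))) 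
(.lf (nat_lit 218232) (.g (nat_lit 5222) (.e (nat_lit 90172) (nat_lit 14) (.e (nat_lit 180244) (nat_lit 5) (.e (nat_lit 532515) (nat_lit 3) (.e (nat_lit 114719) (nat_lit 23) (.e (nat_lit 98334) (nat_lit 18) (.e (nat_lit 164403) (nat_lit 256) (.e (nat_lit 57373) (nat_lit 2) .nil))))))) (.g (nat_lit 0) .nil .nil)))))) (.nd (nat_lit 3) (.nd (nat_lit 4) (.nd (nat_lit 5) 
(.lf (nat_lit 218180) (.g (nat_lit 949) (.e (nat_lit 90172) (nat_lit 14) (.e (nat_lit 180244) (nat_lit 5) (.e (nat_lit 532515) (nat_lit 3) (.e (nat_lit 122624) (nat_lit 3) .nil)))) .nil)) 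
(.lf (nat_lit 218212) (.g (nat_lit 2230) (.e (nat_lit 90172) (nat_lit 14) (.e (nat_lit 180244) (nat_lit 5) (.e (nat_lit 532515) (nat_lit 3) (.e (nat_lit 114719) (nat_lit 23) (.e (nat_lit 98325) (nat_lit 17) (.e (nat_lit 2458) (nat_lit 157) (.e (nat_lit 5938) (nat_lit 322) (.e (nat_lit 57375) (nat_lit 2) .nil)))))))) (.g (nat_lit 4) .nil .nil)))) (.nd (nat_lit 5) 
(.lf (nat_lit 218196) (.g (nat_lit 2925) (.e (nat_lit 90172) (nat_lit 14) (.e (nat_lit 180244) (nat_lit 5) (.e (nat_lit 532515) (nat_lit 3) (.e (nat_lit 114718) (nat_lit 23) (.e (nat_lit 98333) (nat_lit 18) (.e (nat_lit 164403) (nat_lit 256) (.e (nat_lit 57370) (nat_lit 2) .nil))))))) (.g (nat_lit 5) .nil .nil))) 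
(.lf (nat_lit 218228) (.g (nat_lit 3088) (.e (nat_lit 90172) (nat_lit 14) (.e (nat_lit 180244) (nat_lit 5) (.e (nat_lit 532515) (nat_lit 3) (.e (nat_lit 114719) (nat_lit 23) (.e (nat_lit 98333) (nat_lit 18) (.e (nat_lit 164403) (nat_lit 256) (.e (nat_lit 57370) (nat_lit 2) .nil))))))) (.g (nat_lit 5) .nil .nil))))) (.nd (nat_lit 4) (.nd (nat_lit 5) 
(.lf (nat_lit 218188) (.g (nat_lit 2275) (.e (nat_lit 90172) (nat_lit 14) (.e (nat_lit 180244) (nat_lit 5) (.e (nat_lit 532515) (nat_lit 3) (.e (nat_lit 114716) (nat_lit 22) (.e (nat_lit 90182) (nat_lit 16) (.e (nat_lit 229379) (nat_lit 0) (.e (nat_lit 5938) (nat_lit 322) (.e (nat_lit 57375) (nat_lit 2) .nil)))))))) (.g (nat_lit 4) .nil .nil))) 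
(.lf (nat_lit 218220) (.g (nat_lit 2549) (.e (nat_lit 90172) (nat_lit 14) (.e (nat_lit 180244) (nat_lit 5) (.e (nat_lit 532515) (nat_lit 3) (.e (nat_lit 114719) (nat_lit 23) (.e (nat_lit 98331) (nat_lit 17) (.e (nat_lit 2444) (nat_lit 157) (.e (nat_lit 5934) (nat_lit 322) (.e (nat_lit 57372) (nat_lit 2) .nil)))))))) (.g (nat_lit 4) .nil .nil)))) (.nd (nat_lit 5) 
(.lf (nat_lit 218204) (.g (nat_lit 2363) (.e (nat_lit 90172) (nat_lit 14) (.e (nat_lit 180244) (nat_lit 5) (.e (nat_lit 532515) (nat_lit 3) (.e (nat_lit 114719) (nat_lit 23) (.e (nat_lit 98321) (nat_lit 17) .nil))))) .nil)) 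
(.lf (nat_lit 218236) (.g (nat_lit 426) (.e (nat_lit 90172) (nat_lit 14) (.e (nat_lit 180244) (nat_lit 5) (.e (nat_lit 532579) (nat_lit 26) .nil))) .nil)))))) (.nd (nat_lit 2) (.nd (nat_lit 3) (.nd (nat_lit 4) (.nd (nat_lit 5) 
(.lf (nat_lit 218178) (.g (nat_lit 2111) (.e (nat_lit 90172) (nat_lit 14) (.e (nat_lit 180244) (nat_lit 5) (.e (nat_lit 532514) (nat_lit 3) (.e (nat_lit 114719) (nat_lit 23) (.e (nat_lit 98333) (nat_lit 18) (.e (nat_lit 164399) (nat_lit 256) (.e (nat_lit 57370) (nat_lit 2) .nil))))))) (.g (nat_lit 4) .nil .nil))) 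
(.lf (nat_lit 218210) (.g (nat_lit 1592) (.e (nat_lit 90172) (nat_lit 14) (.e (nat_lit 180244) (nat_lit 5) (.e (nat_lit 532515) (nat_lit 3) (.e (nat_lit 114719) (nat_lit 23) (.e (nat_lit 98325) (nat_lit 17) .nil))))) .nil))) (.nd (nat_lit 5) 
(.lf (nat_lit 218194) (.g (nat_lit 3675) (.e (nat_lit 90172) (nat_lit 14) (.e (nat_lit 180244) (nat_lit 5) (.e (nat_lit 532515) (nat_lit 3) (.e (nat_lit 114718) (nat_lit 23) (.e (nat_lit 98333) (nat_lit 18) (.e (nat_lit 164399) (nat_lit 256) (.e (nat_lit 57370) (nat_lit 2) .nil))))))) (.g (nat_lit 6) .nil .nil))) 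
(.lf (nat_lit 218226) (.g (nat_lit 2184) (.e (nat_lit 90172) (nat_lit 14) (.e (nat_lit 180244) (nat_lit 5) (.e (nat_lit 532515) (nat_lit 3) (.e (nat_lit 114719) (nat_lit 23) (.e (nat_lit 98333) (nat_lit 18) (.e (nat_lit 164399) (nat_lit 256) (.e (nat_lit 57374) (nat_lit 2) .nil))))))) (.g (nat_lit 4) .nil .nil))))) (.nd (nat_lit 4) (.nd (nat_lit 5) 
(.lf (nat_lit 218186) (.g (nat_lit 2211) (.e (nat_lit 90172) (nat_lit 14) (.e (nat_lit 180244) (nat_lit 5) (.e (nat_lit 532515) (nat_lit 3) (.e (nat_lit 114716) (nat_lit 22) (.e (nat_lit 90180) (nat_lit 16) (.e (nat_lit 229379) (nat_lit 0) (.e (nat_lit 5938) (nat_lit 322) (.e (nat_lit 57375) (nat_lit 2) .nil)))))))) (.g (nat_lit 4) .nil .nil))) 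
(.lf (nat_lit 218218) (.g (nat_lit 2526) (.e (nat_lit 90172) (nat_lit 14) (.e (nat_lit 180244) (nat_lit 5) (.e (nat_lit 532515) (nat_lit 3) (.e (nat_lit 114719) (nat_lit 23) (.e (nat_lit 98331) (nat_lit 17) (.e (nat_lit 2442) (nat_lit 157) (.e (nat_lit 5934) (nat_lit 322) (.e (nat_lit 57375) (nat_lit 2) .nil)))))))) (.g (nat_lit 4) .nil .nil)))) (.nd (nat_lit 5) 
(.lf (nat_lit 218202) (.g (nat_lit 4800) (.e (nat_lit 90172) (nat_lit 14) (.e (nat_lit 180244) (nat_lit 5) (.e (nat_lit 532515) (nat_lit 3) (.e (nat_lit 114718) (nat_lit 23) (.e (nat_lit 98335) (nat_lit 18) (.e (nat_lit 164403) (nat_lit 256) (.e (nat_lit 57373) (nat_lit 2) .nil))))))) (.g (nat_lit 7) .nil .nil))) 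
(.lf (nat_lit 218234) (.g (nat_lit 2632) (.e (nat_lit 90172) (nat_lit 14) (.e (nat_lit 180244) (nat_lit 5) (.e (nat_lit 532515) (nat_lit 3) (.e (nat_lit 114719) (nat_lit 23) (.e (nat_lit 98344) (nat_lit 21) (.e (nat_lit 229707) (nat_lit 256) (.e (nat_lit 57371) (nat_lit 2) .nil))))))) (.g (nat_lit 4) .nil .nil)))))) (.nd (nat_lit 3) (.nd (nat_lit 4) (.nd (nat_lit 5) 
(.lf (nat_lit 218182) (.g (nat_lit 1764) (.e (nat_lit 90172) (nat_lit 14) (.e (nat_lit 180244) (nat_lit 5) (.e (nat_lit 532515) (nat_lit 3) (.e (nat_lit 114716) (nat_lit 22) (.e (nat_lit 90162) (nat_lit 12) (.e (nat_lit 164007) (nat_lit 41) (.e (nat_lit 663560) (nat_lit 0) (.e (nat_lit 1228) (nat_lit 91) .nil)))))))) (.g (nat_lit 4) .nil .nil))) 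
(.lf (nat_lit 218214) (.g (nat_lit 2363) (.e (nat_lit 90172) (nat_lit 14) (.e (nat_lit 180244) (nat_lit 5) (.e (nat_lit 532515) (nat_lit 3) (.e (nat_lit 114719) (nat_lit 23) (.e (nat_lit 98329) (nat_lit 17) .nil))))) .nil))) (.nd (nat_lit 5) 
(.lf (nat_lit 218198) (.g (nat_lit 3345) (.e (nat_lit 90172) (nat_lit 14) (.e (nat_lit 180244) (nat_lit 5) (.e (nat_lit 532515) (nat_lit 3) (.e (nat_lit 114718) (nat_lit 23) (.e (nat_lit 98334) (nat_lit 18) (.e (nat_lit 164402) (nat_lit 256) (.e (nat_lit 57371) (nat_lit 2) .nil))))))) (.g (nat_lit 5) .nil .nil))) 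
(.lf (nat_lit 218230) (.g (nat_lit 2102) (.e (nat_lit 90172) (nat_lit 14) (.e (nat_lit 180244) (nat_lit 5) (.e (nat_lit 532515) (nat_lit 3) (.e (nat_lit 114719) (nat_lit 23) (.e (nat_lit 98334) (nat_lit 18) (.e (nat_lit 164401) (nat_lit 256) (.e (nat_lit 57370) (nat_lit 2) .nil))))))) (.g (nat_lit 4) .nil .nil))))) (.nd (nat_lit 4) (.nd (nat_lit 5) 
(.lf (nat_lit 218190) (.g (nat_lit 1656) (.e (nat_lit 90172) (nat_lit 14) (.e (nat_lit 180244) (nat_lit 5) (.e (nat_lit 532515) (nat_lit 3) (.e (nat_lit 114716) (nat_lit 22) (.e (nat_lit 98048) (nat_lit 21) (.e (nat_lit 164358) (nat_lit 246) (.e (nat_lit 100) (nat_lit 2) .nil))))))) (.g (nat_lit 4) .nil .nil))) 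
(.lf (nat_lit 218222) (.g (nat_lit 2512) (.e (nat_lit 90172) (nat_lit 14) (.e (nat_lit 180244) (nat_lit 5) (.e (nat_lit 532515) (nat_lit 3) (.e (nat_lit 114719) (nat_lit 23) (.e (nat_lit 98331) (nat_lit 17) (.e (nat_lit 2445) (nat_lit 157) (.e (nat_lit 5934) (nat_lit 322) (.e (nat_lit 57375) (nat_lit 2) .nil)))))))) (.g (nat_lit 4) .nil .nil)))) (.nd (nat_lit 5) 
(.lf (nat_lit 218206) (.g (nat_lit 2760) (.e (nat_lit 90172) (nat_lit 14) (.e (nat_lit 180244) (nat_lit 5) (.e (nat_lit 532515) (nat_lit 3) (.e (nat_lit 114719) (nat_lit 23) (.e (nat_lit 98321) (nat_lit 17) (.e (nat_lit 2464) (nat_lit 157) (.e (nat_lit 5935) (nat_lit 322) (.e (nat_lit 57375) (nat_lit 2) .nil)))))))) (.g (nat_lit 4) .nil .nil))) 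
(.lf (nat_lit 218238) (.g (nat_lit 1156) (.e (nat_lit 90172) (nat_lit 14) (.e (nat_lit 180244) (nat_lit 5) (.e (nat_lit 532579) (nat_lit 26) (.e (nat_lit 426114) (nat_lit 2) .nil)))) .nil))))))) (.nd (nat_lit 1) (.nd (nat_lit 2) (.nd (nat_lit 3) (.nd (nat_lit 4) (.nd (nat_lit 5) 
(.lf (nat_lit 218177) (.g (nat_lit 1972) (.e (nat_lit 90172) (nat_lit 14) (.e (nat_lit 180244) (nat_lit 5) (.e (nat_lit 532514) (nat_lit 3) (.e (nat_lit 114719) (nat_lit 23) (.e (nat_lit 98325) (nat_lit 17) .nil))))) .nil)) 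
(.lf (nat_lit 218209) (.g (nat_lit 2491) (.e (nat_lit 90172) (nat_lit 14) (.e (nat_lit 180244) (nat_lit 5) (.e (nat_lit 532515) (nat_lit 3) (.e (nat_lit 114719) (nat_lit 23) (.e (nat_lit 98321) (nat_lit 17) (.e (nat_lit 2464) (nat_lit 157) (.e (nat_lit 5946) (nat_lit 322) (.e (nat_lit 57373) (nat_lit 2) .nil)))))))) (.g (nat_lit 4) .nil .nil)))) (.nd (nat_lit 5) 
(.lf (nat_lit 218193) (.g (nat_lit 3012) (.e (nat_lit 90172) (nat_lit 14) (.e (nat_lit 180244) (nat_lit 5) (.e (nat_lit 532515) (nat_lit 3) (.e (nat_lit 114718) (nat_lit 23) (.e (nat_lit 98333) (nat_lit 18) (.e (nat_lit 164396) (nat_lit 256) (.e (nat_lit 57371) (nat_lit 2) .nil))))))) (.g (nat_lit 5) .nil .nil))) 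
(.lf (nat_lit 218225) (.g (nat_lit 3136) (.e (nat_lit 90172) (nat_lit 14) (.e (nat_lit 180244) (nat_lit 5) (.e (nat_lit 532515) (nat_lit 3) (.e (nat_lit 114719) (nat_lit 23) (.e (nat_lit 98333) (nat_lit 18) (.e (nat_lit 164396) (nat_lit 256) (.e (nat_lit 57371) (nat_lit 2) .nil))))))) (.g (nat_lit 5) .nil .nil))))) (.nd (nat_lit 4) (.nd (nat_lit 5) 
(.lf (nat_lit 218185) (.g (nat_lit 2397) (.e (nat_lit 90172) (nat_lit 14) (.e (nat_lit 180244) (nat_lit 5) (.e (nat_lit 532515) (nat_lit 3) (.e (nat_lit 114716) (nat_lit 22) (.e (nat_lit 90165) (nat_lit 12) (.e (nat_lit 163857) (nat_lit 0) (.e (nat_lit 5947) (nat_lit 322) (.e (nat_lit 57371) (nat_lit 2) .nil)))))))) (.g (nat_lit 4) .nil .nil))) 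
(.lf (nat_lit 218217) (.g (nat_lit 2290) (.e (nat_lit 90172) (nat_lit 14) (.e (nat_lit 180244) (nat_lit 5) (.e (nat_lit 532515) (nat_lit 3) (.e (nat_lit 114719) (nat_lit 23) (.e (nat_lit 98331) (nat_lit 17) (.e (nat_lit 2442) (nat_lit 157) (.e (nat_lit 5934) (nat_lit 322) (.e (nat_lit 57372) (nat_lit 2) .nil)))))))) (.g (nat_lit 4) .nil .nil)))) (.nd (nat_lit 5) 
(.lf (nat_lit 218201) (.g (nat_lit 3144) (.e (nat_lit 90172) (nat_lit 14) (.e (nat_lit 180244) (nat_lit 5) (.e (nat_lit 532515) (nat_lit 3) (.e (nat_lit 114718) (nat_lit 23) (.e (nat_lit 98335) (nat_lit 18) (.e (nat_lit 164403) (nat_lit 256) (.e (nat_lit 57370) (nat_lit 2) .nil))))))) (.g (nat_lit 5) .nil .nil))) 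
(.lf (nat_lit 218233) (.g (nat_lit 3651) (.e (nat_lit 90172) (nat_lit 14) (.e (nat_lit 180244) (nat_lit 5) (.e (nat_lit 532515) (nat_lit 3) (.e (nat_lit 114719) (nat_lit 23) (.e (nat_lit 98335) (nat_lit 18) (.e (nat_lit 164403) (nat_lit 256) (.e (nat_lit 57370) (nat_lit 2) .nil))))))) (.g (nat_lit 6) .nil .nil)))))) (.nd (nat_lit 3) (.nd (nat_lit 4) (.nd (nat_lit 5) 
(.lf (nat_lit 218181) (.g (nat_lit 704) (.e (nat_lit 90172) (nat_lit 14) (.e (nat_lit 180244) (nat_lit 5) (.e (nat_lit 532515) (nat_lit 3) (.e (nat_lit 114716) (nat_lit 22) .nil)))) .nil)) 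
(.lf (nat_lit 218213) (.g (nat_lit 2160) (.e (nat_lit 90172) (nat_lit 14) (.e (nat_lit 180244) (nat_lit 5) (.e (nat_lit 532515) (nat_lit 3) (.e (nat_lit 114719) (nat_lit 23) (.e (nat_lit 98325) (nat_lit 17) (.e (nat_lit 2478) (nat_lit 157) (.e (nat_lit 5934) (nat_lit 322) (.e (nat_lit 57372) (nat_lit 2) .nil)))))))) (.g (nat_lit 4) .nil .nil)))) (.nd (nat_lit 5) 
(.lf (nat_lit 218197) (.g (nat_lit 3446) (.e (nat_lit 90172) (nat_lit 14) (.e (nat_lit 180244) (nat_lit 5) (.e (nat_lit 532515) (nat_lit 3) (.e (nat_lit 114718) (nat_lit 23) (.e (nat_lit 98334) (nat_lit 18) (.e (nat_lit 164399) (nat_lit 256) (.e (nat_lit 57370) (nat_lit 2) .nil))))))) (.g (nat_lit 6) .nil .nil))) 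
(.lf (nat_lit 218229) (.g (nat_lit 3601) (.e (nat_lit 90172) (nat_lit 14) (.e (nat_lit 180244) (nat_lit 5) (.e (nat_lit 532515) (nat_lit 3) (.e (nat_lit 114719) (nat_lit 23) (.e (nat_lit 98334) (nat_lit 18) (.e (nat_lit 164399) (nat_lit 256) (.e (nat_lit 57370) (nat_lit 2) .nil))))))) (.g (nat_lit 6) .nil .nil))))) (.nd (nat_lit 4) (.nd (nat_lit 5) 
(.lf (nat_lit 218189) (.g (nat_lit 2493) (.e (nat_lit 90172) (nat_lit 14) (.e (nat_lit 180244) (nat_lit 5) (.e (nat_lit 532515) (nat_lit 3) (.e (nat_lit 114716) (nat_lit 22) (.e (nat_lit 90196) (nat_lit 18) (.e (nat_lit 2798) (nat_lit 180) (.e (nat_lit 311040) (nat_lit 17) .nil))))))) (.g (nat_lit 6) .nil .nil))) 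
(.lf (nat_lit 218221) (.g (nat_lit 2276) (.e (nat_lit 90172) (nat_lit 14) (.e (nat_lit 180244) (nat_lit 5) (.e (nat_lit 532515) (nat_lit 3) (.e (nat_lit 114719) (nat_lit 23) (.e (nat_lit 98331) (nat_lit 17) (.e (nat_lit 2445) (nat_lit 157) (.e (nat_lit 5934) (nat_lit 322) (.e (nat_lit 57372) (nat_lit 2) .nil)))))))) (.g (nat_lit 4) .nil .nil)))) (.nd (nat_lit 5) 
(.lf (nat_lit 218205) (.g (nat_lit 2495) (.e (nat_lit 90172) (nat_lit 14) (.e (nat_lit 180244) (nat_lit 5) (.e (nat_lit 532515) (nat_lit 3) (.e (nat_lit 114719) (nat_lit 23) (.e (nat_lit 98321) (nat_lit 17) (.e (nat_lit 2464) (nat_lit 157) (.e (nat_lit 5934) (nat_lit 322) (.e (nat_lit 57375) (nat_lit 2) .nil)))))))) (.g (nat_lit 4) .nil .nil))) 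
(.lf (nat_lit 218237) (.g (nat_lit 1781) (.e (nat_lit 90172) (nat_lit 14) (.e (nat_lit 180244) (nat_lit 5) (.e (nat_lit 532579) (nat_lit 26) (.e (nat_lit 426012) (nat_lit 0) (.e (nat_lit 3211) (nat_lit 195) .nil))))) .nil)))))) (.nd (nat_lit 2) (.nd (nat_lit 3) (.nd (nat_lit 4) (.nd (nat_lit 5) 
(.lf (nat_lit 218179) (.g (nat_lit 328) (.e (nat_lit 90172) (nat_lit 14) (.e (nat_lit 180244) (nat_lit 5) (.e (nat_lit 532515) (nat_lit 3) .nil))) .nil)) 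
(.lf (nat_lit 218211) (.g (nat_lit 2201) (.e (nat_lit 90172) (nat_lit 14) (.e (nat_lit 180244) (nat_lit 5) (.e (nat_lit 532515) (nat_lit 3) (.e (nat_lit 114719) (nat_lit 23) (.e (nat_lit 98325) (nat_lit 17) (.e (nat_lit 2458) (nat_lit 157) (.e (nat_lit 5938) (nat_lit 322) (.e (nat_lit 57372) (nat_lit 2) .nil)))))))) (.g (nat_lit 4) .nil .nil)))) (.nd (nat_lit 5) 
(.lf (nat_lit 218195) (.g (nat_lit 3055) (.e (nat_lit 90172) (nat_lit 14) (.e (nat_lit 180244) (nat_lit 5) (.e (nat_lit 532515) (nat_lit 3) (.e (nat_lit 114718) (nat_lit 23) (.e (nat_lit 98333) (nat_lit 18) (.e (nat_lit 164402) (nat_lit 256) (.e (nat_lit 57371) (nat_lit 2) .nil))))))) (.g (nat_lit 5) .nil .nil))) 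
(.lf (nat_lit 218227) (.g (nat_lit 3279) (.e (nat_lit 90172) (nat_lit 14) (.e (nat_lit 180244) (nat_lit 5) (.e (nat_lit 532515) (nat_lit 3) (.e (nat_lit 114719) (nat_lit 23) (.e (nat_lit 98333) (nat_lit 18) (.e (nat_lit 164402) (nat_lit 256) (.e (nat_lit 57371) (nat_lit 2) .nil))))))) (.g (nat_lit 5) .nil .nil))))) (.nd (nat_lit 4) (.nd (nat_lit 5) 
(.lf (nat_lit 218187) (.g (nat_lit 2246) (.e (nat_lit 90172) (nat_lit 14) (.e (nat_lit 180244) (nat_lit 5) (.e (nat_lit 532515) (nat_lit 3) (.e (nat_lit 114716) (nat_lit 22) (.e (nat_lit 90182) (nat_lit 16) (.e (nat_lit 229379) (nat_lit 0) (.e (nat_lit 5938) (nat_lit 322) (.e (nat_lit 57372) (nat_lit 2) .nil)))))))) (.g (nat_lit 4) .nil .nil))) 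
(.lf (nat_lit 218219) (.g (nat_lit 2231) (.e (nat_lit 90172) (nat_lit 14) (.e (nat_lit 180244) (nat_lit 5) (.e (nat_lit 532515) (nat_lit 3) (.e (nat_lit 114719) (nat_lit 23) (.e (nat_lit 98331) (nat_lit 17) (.e (nat_lit 2443) (nat_lit 157) (.e (nat_lit 5934) (nat_lit 322) (.e (nat_lit 57375) (nat_lit 2) .nil)))))))) (.g (nat_lit 4) .nil .nil)))) (.nd (nat_lit 5) 
(.lf (nat_lit 218203) (.g (nat_lit 2363) (.e (nat_lit 90172) (nat_lit 14) (.e (nat_lit 180244) (nat_lit 5) (.e (nat_lit 532515) (nat_lit 3) (.e (nat_lit 114719) (nat_lit 23) (.e (nat_lit 98319) (nat_lit 17) .nil))))) .nil)) 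
(.lf (nat_lit 218235) (.g (nat_lit 2894) (.e (nat_lit 90172) (nat_lit 14) (.e (nat_lit 180244) (nat_lit 5) (.e (nat_lit 532575) (nat_lit 17) (.e (nat_lit 7098) (nat_lit 380) (.e (nat_lit 164096) (nat_lit 86) (.e (nat_lit 532481) (nat_lit 0) (.e (nat_lit 2198) (nat_lit 144) (.e (nat_lit 720941) (nat_lit 22) .nil)))))))) (.g (nat_lit 6) .nil .nil)))))) 
(.nd (nat_lit 3) (.nd (nat_lit 4) (.nd (nat_lit 5) 
(.lf (nat_lit 218183) (.g (nat_lit 1627) (.e (nat_lit 90172) (nat_lit 14) (.e (nat_lit 180244) (nat_lit 5) (.e (nat_lit 532515) (nat_lit 3) (.e (nat_lit 114716) (nat_lit 22) (.e (nat_lit 90164) (nat_lit 12) (.e (nat_lit 163850) (nat_lit 0) (.e (nat_lit 7936) (nat_lit 322) (.e (nat_lit 57373) (nat_lit 2) .nil)))))))) (.g (nat_lit 4) .nil .nil))) 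
(.lf (nat_lit 218215) (.g (nat_lit 2531) (.e (nat_lit 90172) (nat_lit 14) (.e (nat_lit 180244) (nat_lit 5) (.e (nat_lit 532515) (nat_lit 3) (.e (nat_lit 114719) (nat_lit 23) (.e (nat_lit 98329) (nat_lit 17) (.e (nat_lit 2471) (nat_lit 157) (.e (nat_lit 5939) (nat_lit 322) (.e (nat_lit 57375) (nat_lit 2) .nil)))))))) (.g (nat_lit 4) .nil .nil)))) (.nd (nat_lit 5) 
(.lf (nat_lit 218199) (.g (nat_lit 5097) (.e (nat_lit 90172) (nat_lit 14) (.e (nat_lit 180244) (nat_lit 5) (.e (nat_lit 532515) (nat_lit 3) (.e (nat_lit 114718) (nat_lit 23) (.e (nat_lit 98334) (nat_lit 18) (.e (nat_lit 164403) (nat_lit 256) (.e (nat_lit 57373) (nat_lit 2) .nil))))))) (.g (nat_lit 0) .nil .nil))) 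
(.lf (nat_lit 218231) (.g (nat_lit 4371) (.e (nat_lit 90172) (nat_lit 14) (.e (nat_lit 180244) (nat_lit 5) (.e (nat_lit 532515) (nat_lit 3) (.e (nat_lit 114719) (nat_lit 23) (.e (nat_lit 98334) (nat_lit 18) (.e (nat_lit 164401) (nat_lit 256) (.e (nat_lit 57373) (nat_lit 2) .nil))))))) (.g (nat_lit 0) .nil .nil))))) (.nd (nat_lit 4) (.nd (nat_lit 5) 
(.lf (nat_lit 218191) (.g (nat_lit 3201) (.e (nat_lit 90172) (nat_lit 14) (.e (nat_lit 180244) (nat_lit 5) (.e (nat_lit 532515) (nat_lit 3) (.e (nat_lit 114717) (nat_lit 23) (.e (nat_lit 98333) (nat_lit 18) (.e (nat_lit 164399) (nat_lit 256) (.e (nat_lit 57370) (nat_lit 2) .nil))))))) (.g (nat_lit 6) .nil .nil))) 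
(.lf (nat_lit 218223) (.g (nat_lit 2243) (.e (nat_lit 90172) (nat_lit 14) (.e (nat_lit 180244) (nat_lit 5) (.e (nat_lit 532515) (nat_lit 3) (.e (nat_lit 114719) (nat_lit 23) (.e (nat_lit 98331) (nat_lit 17) (.e (nat_lit 2477) (nat_lit 157) (.e (nat_lit 5953) (nat_lit 322) (.e (nat_lit 57373) (nat_lit 2) .nil)))))))) (.g (nat_lit 4) .nil .nil)))) (.nd (nat_lit 5) 
(.lf (nat_lit 218207) (.g (nat_lit 2668) (.e (nat_lit 90172) (nat_lit 14) (.e (nat_lit 180244) (nat_lit 5) (.e (nat_lit 532515) (nat_lit 3) (.e (nat_lit 114719) (nat_lit 23) (.e (nat_lit 98321) (nat_lit 17) (.e (nat_lit 2464) (nat_lit 157) (.e (nat_lit 5939) (nat_lit 322) (.e (nat_lit 57372) (nat_lit 2) .nil)))))))) (.g (nat_lit 4) .nil .nil))) 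
(.lf (nat_lit 218239) (.g (nat_lit 1089) (.e (nat_lit 90172) (nat_lit 14) (.e (nat_lit 180244) (nat_lit 5) (.e (nat_lit 532579) (nat_lit 26) (.e (nat_lit 426123) (nat_lit 2) .nil)))) .nil))))))))

noncomputable def tv2869 : DT := (.nd (nat_lit 0) (.nd (nat_lit 1) (.nd (nat_lit 2) (.nd (nat_lit 3) (.nd (nat_lit 4) (.nd (nat_lit 5) (.nd (nat_lit 6) 
(.lf (nat_lit 218240) (.g (nat_lit 2517) (.e (nat_lit 90172) (nat_lit 14) (.e (nat_lit 180244) (nat_lit 5) (.e (nat_lit 532579) (nat_lit 26) (.e (nat_lit 426123) (nat_lit 2) (.e (nat_lit 196686) (nat_lit 18) .nil))))) .nil)) 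
(.lf (nat_lit 218304) (.g (nat_lit 1371) (.e (nat_lit 90172) (nat_lit 14) (.e (nat_lit 180250) (nat_lit 10) (.e (nat_lit 573484) (nat_lit 13) (.e (nat_lit 65569) (nat_lit 3) .nil)))) .nil))) (.nd (nat_lit 6) 
(.lf (nat_lit 218272) (.g (nat_lit 2101) (.e (nat_lit 90172) (nat_lit 14) (.e (nat_lit 180244) (nat_lit 5) (.e (nat_lit 532579) (nat_lit 26) (.e (nat_lit 426124) (nat_lit 2) (.e (nat_lit 204544) (nat_lit 19) (.e (nat_lit 57610) (nat_lit 109) (.e (nat_lit 720939) (nat_lit 22) .nil))))))) (.g (nat_lit 4) .nil .nil))) 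
(.lf (nat_lit 218336) (.g (nat_lit 1898) (.e (nat_lit 90172) (nat_lit 14) (.e (nat_lit 180250) (nat_lit 10) (.e (nat_lit 573487) (nat_lit 14) (.e (nat_lit 73750) (nat_lit 6) .nil)))) .nil)))) (.nd (nat_lit 5) (.nd (nat_lit 6) 
(.lf (nat_lit 218256) (.g (nat_lit 2441) (.e (nat_lit 90172) (nat_lit 14) (.e (nat_lit 180244) (nat_lit 5) (.e (nat_lit 532579) (nat_lit 26) (.e (nat_lit 426124) (nat_lit 2) (.e (nat_lit 196691) (nat_lit 18) (.e (nat_lit 992) (nat_lit 81) (.e (nat_lit 811) (nat_lit 68) (.e (nat_lit 720941) (nat_lit 22) .nil)))))))) (.g (nat_lit 4) .nil .nil))) 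
(.lf (nat_lit 218320) (.g (nat_lit 2317) (.e (nat_lit 90172) (nat_lit 14) (.e (nat_lit 180250) (nat_lit 10) (.e (nat_lit 573485) (nat_lit 13) (.e (nat_lit 65577) (nat_lit 5) (.e (nat_lit 139276) (nat_lit 2) (.e (nat_lit 24320) (nat_lit 17) .nil)))))) (.g (nat_lit 5) .nil .nil)))) (.nd (nat_lit 6) 
(.lf (nat_lit 218288) (.g (nat_lit 1617) (.e (nat_lit 90172) (nat_lit 14) (.e (nat_lit 180250) (nat_lit 10) (.e (nat_lit 573481) (nat_lit 13) (.e (nat_lit 65568) (nat_lit 2) (.e (nat_lit 98048) (nat_lit 2) .nil))))) .nil)) 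
(.lf (nat_lit 218352) (.g (nat_lit 4036) (.e (nat_lit 90172) (nat_lit 14) (.e (nat_lit 180250) (nat_lit 10) (.e (nat_lit 573487) (nat_lit 14) (.e (nat_lit 73753) (nat_lit 8) (.e (nat_lit 557091) (nat_lit 12) (.e (nat_lit 164006) (nat_lit 41) (.e (nat_lit 671488) (nat_lit 0) (.e (nat_lit 1228) (nat_lit 91) .nil)))))))) (.g (nat_lit 5) .nil .nil)))))) 
(.nd (nat_lit 4) (.nd (nat_lit 5) (.nd (nat_lit 6) 
(.lf (nat_lit 218248) (.g (nat_lit 2517) (.e (nat_lit 90172) (nat_lit 14) (.e (nat_lit 180244) (nat_lit 5) (.e (nat_lit 532579) (nat_lit 26) (.e (nat_lit 426123) (nat_lit 2) (.e (nat_lit 196699) (nat_lit 20) .nil))))) .nil)) 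
(.lf (nat_lit 218312) (.g (nat_lit 2876) (.e (nat_lit 90172) (nat_lit 14) (.e (nat_lit 180250) (nat_lit 10) (.e (nat_lit 573485) (nat_lit 13) (.e (nat_lit 65568) (nat_lit 2) (.e (nat_lit 90165) (nat_lit 12) (.e (nat_lit 163849) (nat_lit 0) (.e (nat_lit 6828) (nat_lit 367) (.e (nat_lit 57372) (nat_lit 2) .nil)))))))) (.g (nat_lit 4) .nil .nil)))) (.nd (nat_lit 6) 
(.lf (nat_lit 218280) (.g (nat_lit 3787) (.e (nat_lit 90172) (nat_lit 14) (.e (nat_lit 180244) (nat_lit 5) (.e (nat_lit 532579) (nat_lit 26) (.e (nat_lit 426139) (nat_lit 3) (.e (nat_lit 204829) (nat_lit 18) (.e (nat_lit 65280) (nat_lit 166) (.e (nat_lit 57371) (nat_lit 2) .nil))))))) (.g (nat_lit 5) .nil .nil))) 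
(.lf (nat_lit 218344) (.g (nat_lit 4357) (.e (nat_lit 90172) (nat_lit 14) (.e (nat_lit 180250) (nat_lit 10) (.e (nat_lit 573487) (nat_lit 14) (.e (nat_lit 73753) (nat_lit 8) (.e (nat_lit 557089) (nat_lit 12) (.e (nat_lit 164010) (nat_lit 41) (.e (nat_lit 671488) (nat_lit 0) (.e (nat_lit 1238) (nat_lit 91) .nil)))))))) (.g (nat_lit 5) .nil .nil))))) (.nd (nat_lit 5) (.nd (nat_lit 6) 
(.lf (nat_lit 218264) (.g (nat_lit 2638) (.e (nat_lit 90172) (nat_lit 14) (.e (nat_lit 180244) (nat_lit 5) (.e (nat_lit 532579) (nat_lit 26) (.e (nat_lit 426124) (nat_lit 2) (.e (nat_lit 196691) (nat_lit 18) (.e (nat_lit 1014) (nat_lit 81) (.e (nat_lit 815) (nat_lit 68) (.e (nat_lit 720941) (nat_lit 22) .nil)))))))) (.g (nat_lit 4) .nil .nil))) 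
(.lf (nat_lit 218328) (.g (nat_lit 1486) (.e (nat_lit 90172) (nat_lit 14) (.e (nat_lit 180250) (nat_lit 10) (.e (nat_lit 573487) (nat_lit 14) (.e (nat_lit 73747) (nat_lit 3) .nil)))) .nil))) (.nd (nat_lit 6) 
(.lf (nat_lit 218296) (.g (nat_lit 3806) (.e (nat_lit 90172) (nat_lit 14) (.e (nat_lit 180250) (nat_lit 10) (.e (nat_lit 573482) (nat_lit 13) (.e (nat_lit 65571) (nat_lit 3) (.e (nat_lit 98319) (nat_lit 17) (.e (nat_lit 2399) (nat_lit 157) (.e (nat_lit 6828) (nat_lit 367) (.e (nat_lit 57372) (nat_lit 2) .nil)))))))) (.g (nat_lit 4) .nil .nil))) 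
(.lf (nat_lit 218360) (.g (nat_lit 1275) (.e (nat_lit 90172) (nat_lit 14) (.e (nat_lit 180250) (nat_lit 10) (.e (nat_lit 573488) (nat_lit 14) (.e (nat_lit 81664) (nat_lit 5) .nil)))) .nil)))))) (.nd (nat_lit 3) (.nd (nat_lit 4) (.nd (nat_lit 5) (.nd (nat_lit 6) 
(.lf (nat_lit 218244) (.g (nat_lit 3123) (.e (nat_lit 90172) (nat_lit 14) (.e (nat_lit 180244) (nat_lit 5) (.e (nat_lit 532579) (nat_lit 26) (.e (nat_lit 426123) (nat_lit 2) (.e (nat_lit 196697) (nat_lit 19) (.e (nat_lit 65280) (nat_lit 109) (.e (nat_lit 720938) (nat_lit 22) .nil))))))) (.g (nat_lit 4) .nil .nil))) 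
(.lf (nat_lit 218308) (.g (nat_lit 3388) (.e (nat_lit 90172) (nat_lit 14) (.e (nat_lit 180250) (nat_lit 10) (.e (nat_lit 573484) (nat_lit 13) (.e (nat_lit 65571) (nat_lit 3) (.e (nat_lit 98334) (nat_lit 18) (.e (nat_lit 171776) (nat_lit 160) (.e (nat_lit 57373) (nat_lit 2) .nil))))))) (.g (nat_lit 4) .nil .nil)))) (.nd (nat_lit 6) 
(.lf (nat_lit 218276) (.g (nat_lit 2223) (.e (nat_lit 90172) (nat_lit 14) (.e (nat_lit 180244) (nat_lit 5) (.e (nat_lit 532579) (nat_lit 26) (.e (nat_lit 426139) (nat_lit 3) (.e (nat_lit 204821) (nat_lit 17) (.e (nat_lit 1086) (nat_lit 81) (.e (nat_lit 7936) (nat_lit 412) (.e (nat_lit 57373) (nat_lit 2) .nil)))))))) (.g (nat_lit 4) .nil .nil))) 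
(.lf (nat_lit 218340) (.g (nat_lit 3806) (.e (nat_lit 90172) (nat_lit 14) (.e (nat_lit 180250) (nat_lit 10) (.e (nat_lit 573487) (nat_lit 14) (.e (nat_lit 73753) (nat_lit 8) (.e (nat_lit 557089) (nat_lit 12) (.e (nat_lit 164006) (nat_lit 41) (.e (nat_lit 671488) (nat_lit 0) (.e (nat_lit 1228) (nat_lit 91) .nil)))))))) (.g (nat_lit 5) .nil .nil))))) (.nd (nat_lit 5) (.nd (nat_lit 6) 
(.lf (nat_lit 218260) (.g (nat_lit 2331) (.e (nat_lit 90172) (nat_lit 14) (.e (nat_lit 180244) (nat_lit 5) (.e (nat_lit 532579) (nat_lit 26) (.e (nat_lit 426124) (nat_lit 2) (.e (nat_lit 196691) (nat_lit 18) (.e (nat_lit 993) (nat_lit 81) (.e (nat_lit 815) (nat_lit 68) (.e (nat_lit 720941) (nat_lit 22) .nil)))))))) (.g (nat_lit 4) .nil .nil))) 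
(.lf (nat_lit 218324) (.g (nat_lit 3343) (.e (nat_lit 90172) (nat_lit 14) (.e (nat_lit 180250) (nat_lit 10) (.e (nat_lit 573487) (nat_lit 14) (.e (nat_lit 73746) (nat_lit 3) (.e (nat_lit 516100) (nat_lit 0) (.e (nat_lit 2430) (nat_lit 157) (.e (nat_lit 6828) (nat_lit 367) (.e (nat_lit 57375) (nat_lit 2) .nil)))))))) (.g (nat_lit 4) .nil .nil)))) (.nd (nat_lit 6) 
(.lf (nat_lit 218292) (.g (nat_lit 2356) (.e (nat_lit 90172) (nat_lit 14) (.e (nat_lit 180250) (nat_lit 10) (.e (nat_lit 573482) (nat_lit 13) (.e (nat_lit 65568) (nat_lit 2) (.e (nat_lit 90165) (nat_lit 12) .nil))))) .nil)) 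
(.lf (nat_lit 218356) (.g (nat_lit 2575) (.e (nat_lit 90172) (nat_lit 14) (.e (nat_lit 180250) (nat_lit 10) (.e (nat_lit 573487) (nat_lit 14) (.e (nat_lit 73753) (nat_lit 8) (.e (nat_lit 557111) (nat_lit 16) .nil))))) .nil))))) (.nd (nat_lit 4) (.nd (nat_lit 5) (.nd (nat_lit 6) 
(.lf (nat_lit 218252) (.g (nat_lit 2233) (.e (nat_lit 90172) (nat_lit 14) (.e (nat_lit 180244) (nat_lit 5) (.e (nat_lit 532579) (nat_lit 26) (.e (nat_lit 426124) (nat_lit 2) (.e (nat_lit 196691) (nat_lit 18) .nil))))) .nil)) 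
(.lf (nat_lit 218316) (.g (nat_lit 3118) (.e (nat_lit 90172) (nat_lit 14) (.e (nat_lit 180250) (nat_lit 10) (.e (nat_lit 573485) (nat_lit 13) (.e (nat_lit 65571) (nat_lit 3) (.e (nat_lit 98319) (nat_lit 17) (.e (nat_lit 2399) (nat_lit 157) (.e (nat_lit 6828) (nat_lit 367) (.e (nat_lit 57372) (nat_lit 2) .nil)))))))) (.g (nat_lit 4) .nil .nil)))) (.nd (nat_lit 6) 
(.lf (nat_lit 218284) (.g (nat_lit 2395) (.e (nat_lit 90172) (nat_lit 14) (.e (nat_lit 180250) (nat_lit 10) (.e (nat_lit 573475) (nat_lit 12) (.e (nat_lit 57507) (nat_lit 39) (.e (nat_lit 647200) (nat_lit 12) .nil))))) .nil)) 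
(.lf (nat_lit 218348) (.g (nat_lit 3617) (.e (nat_lit 90172) (nat_lit 14) (.e (nat_lit 180250) (nat_lit 10) (.e (nat_lit 573487) (nat_lit 14) (.e (nat_lit 73753) (nat_lit 8) (.e (nat_lit 557090) (nat_lit 12) (.e (nat_lit 164007) (nat_lit 41) (.e (nat_lit 663560) (nat_lit 0) (.e (nat_lit 1238) (nat_lit 91) .nil)))))))) (.g (nat_lit 5) .nil .nil))))) (.nd (nat_lit 5) (.nd (nat_lit 6) 
(.lf (nat_lit 218268) (.g (nat_lit 2494) (.e (nat_lit 90172) (nat_lit 14) (.e (nat_lit 180244) (nat_lit 5) (.e (nat_lit 532579) (nat_lit 26) (.e (nat_lit 426124) (nat_lit 2) (.e (nat_lit 196691) (nat_lit 18) (.e (nat_lit 1039) (nat_lit 81) (.e (nat_lit 811) (nat_lit 68) (.e (nat_lit 720941) (nat_lit 22) .nil)))))))) (.g (nat_lit 4) .nil .nil))) 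
(.lf (nat_lit 218332) (.g (nat_lit 3466) (.e (nat_lit 90172) (nat_lit 14) (.e (nat_lit 180250) (nat_lit 10) (.e (nat_lit 573487) (nat_lit 14) (.e (nat_lit 73747) (nat_lit 3) (.e (nat_lit 516117) (nat_lit 1) (.e (nat_lit 171776) (nat_lit 160) (.e (nat_lit 57372) (nat_lit 2) .nil))))))) (.g (nat_lit 4) .nil .nil)))) (.nd (nat_lit 6) 
(.lf (nat_lit 218300) (.g (nat_lit 1237) (.e (nat_lit 90172) (nat_lit 14) (.e (nat_lit 180250) (nat_lit 10) (.e (nat_lit 573482) (nat_lit 13) (.e (nat_lit 65644) (nat_lit 22) .nil)))) .nil)) 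
(.lf (nat_lit 218364) (.g (nat_lit 2641) (.e (nat_lit 90172) (nat_lit 14) (.e (nat_lit 180250) (nat_lit 10) (.e (nat_lit 573488) (nat_lit 14) (.e (nat_lit 73755) (nat_lit 8) (.e (nat_lit 557090) (nat_lit 12) .nil))))) .nil))))))) (.nd (nat_lit 2) (.nd (nat_lit 3) (.nd (nat_lit 4) (.nd (nat_lit 5) (.nd (nat_lit 6) 
(.lf (nat_lit 218242) (.g (nat_lit 2587) (.e (nat_lit 90172) (nat_lit 14) (.e (nat_lit 180244) (nat_lit 5) (.e (nat_lit 532579) (nat_lit 26) (.e (nat_lit 426123) (nat_lit 2) (.e (nat_lit 196697) (nat_lit 19) (.e (nat_lit 57610) (nat_lit 109) (.e (nat_lit 720939) (nat_lit 22) .nil))))))) (.g (nat_lit 4) .nil .nil))) 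
(.lf (nat_lit 218306) (.g (nat_lit 4159) (.e (nat_lit 90172) (nat_lit 14) (.e (nat_lit 180250) (nat_lit 10) (.e (nat_lit 573484) (nat_lit 13) (.e (nat_lit 65569) (nat_lit 3) (.e (nat_lit 98334) (nat_lit 18) (.e (nat_lit 171776) (nat_lit 160) (.e (nat_lit 57375) (nat_lit 2) .nil))))))) (.g (nat_lit 5) .nil .nil)))) (.nd (nat_lit 6) 
(.lf (nat_lit 218274) (.g (nat_lit 2269) (.e (nat_lit 90172) (nat_lit 14) (.e (nat_lit 180244) (nat_lit 5) (.e (nat_lit 532579) (nat_lit 26) (.e (nat_lit 426139) (nat_lit 3) (.e (nat_lit 204815) (nat_lit 17) .nil))))) .nil)) 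
(.lf (nat_lit 218338) (.g (nat_lit 1340) (.e (nat_lit 90172) (nat_lit 14) (.e (nat_lit 180250) (nat_lit 10) (.e (nat_lit 573487) (nat_lit 14) (.e (nat_lit 73753) (nat_lit 8) .nil)))) .nil)))) (.nd (nat_lit 5) (.nd (nat_lit 6) 
(.lf (nat_lit 218258) (.g (nat_lit 2754) (.e (nat_lit 90172) (nat_lit 14) (.e (nat_lit 180244) (nat_lit 5) (.e (nat_lit 532579) (nat_lit 26) (.e (nat_lit 426124) (nat_lit 2) (.e (nat_lit 196691) (nat_lit 18) (.e (nat_lit 993) (nat_lit 81) (.e (nat_lit 813) (nat_lit 68) (.e (nat_lit 720941) (nat_lit 22) .nil)))))))) (.g (nat_lit 4) .nil .nil))) 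
(.lf (nat_lit 218322) (.g (nat_lit 1953) (.e (nat_lit 90172) (nat_lit 14) (.e (nat_lit 180250) (nat_lit 10) (.e (nat_lit 573487) (nat_lit 14) (.e (nat_lit 73745) (nat_lit 3) .nil)))) .nil))) (.nd (nat_lit 6) 
(.lf (nat_lit 218290) (.g (nat_lit 2062) (.e (nat_lit 90172) (nat_lit 14) (.e (nat_lit 180250) (nat_lit 10) (.e (nat_lit 573482) (nat_lit 13) (.e (nat_lit 65568) (nat_lit 2) (.e (nat_lit 98048) (nat_lit 0) .nil))))) .nil)) 
(.lf (nat_lit 218354) (.g (nat_lit 4183) (.e (nat_lit 90172) (nat_lit 14) (.e (nat_lit 180250) (nat_lit 10) (.e (nat_lit 573487) (nat_lit 14) (.e (nat_lit 73753) (nat_lit 8) (.e (nat_lit 557091) (nat_lit 12) (.e (nat_lit 164008) (nat_lit 41) (.e (nat_lit 671488) (nat_lit 0) (.e (nat_lit 1238) (nat_lit 91) .nil)))))))) (.g (nat_lit 5) .nil .nil)))))) 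
(.nd (nat_lit 4) (.nd (nat_lit 5) (.nd (nat_lit 6) 
(.lf (nat_lit 218250) (.g (nat_lit 2047) (.e (nat_lit 90172) (nat_lit 14) (.e (nat_lit 180244) (nat_lit 5) (.e (nat_lit 532579) (nat_lit 26) (.e (nat_lit 426123) (nat_lit 2) (.e (nat_lit 204544) (nat_lit 20) .nil))))) .nil)) 
(.lf (nat_lit 218314) (.g (nat_lit 3275) (.e (nat_lit 90172) (nat_lit 14) (.e (nat_lit 180250) (nat_lit 10) (.e (nat_lit 573485) (nat_lit 13) (.e (nat_lit 65570) (nat_lit 3) (.e (nat_lit 98333) (nat_lit 18) (.e (nat_lit 171776) (nat_lit 160) (.e (nat_lit 57373) (nat_lit 2) .nil))))))) (.g (nat_lit 5) .nil .nil)))) (.nd (nat_lit 6) 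
(.lf (nat_lit 218282) (.g (nat_lit 3775) (.e (nat_lit 90172) (nat_lit 14) (.e (nat_lit 180250) (nat_lit 10) (.e (nat_lit 573475) (nat_lit 12) (.e (nat_lit 57354) (nat_lit 0) (.e (nat_lit 5194) (nat_lit 294) (.e (nat_lit 57374) (nat_lit 2) (.e (nat_lit 90165) (nat_lit 12) (.e (nat_lit 171776) (nat_lit 48) (.e (nat_lit 720941) (nat_lit 22) .nil))))))))) (.g (nat_lit 4) .nil .nil))) 
(.lf (nat_lit 218346) (.g (nat_lit 3433) (.e (nat_lit 90172) (nat_lit 14) (.e (nat_lit 180250) (nat_lit 10) (.e (nat_lit 573487) (nat_lit 14) (.e (nat_lit 73753) (nat_lit 8) (.e (nat_lit 557090) (nat_lit 12) (.e (nat_lit 164006) (nat_lit 41) (.e (nat_lit 671488) (nat_lit 0) (.e (nat_lit 1227) (nat_lit 91) .nil)))))))) (.g (nat_lit 5) .nil .nil))))) (.nd (nat_lit 5) (.nd (nat_lit 6) 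
(.lf (nat_lit 218266) (.g (nat_lit 2544) (.e (nat_lit 90172) (nat_lit 14) (.e (nat_lit 180244) (nat_lit 5) (.e (nat_lit 532579) (nat_lit 26) (.e (nat_lit 426124) (nat_lit 2) (.e (nat_lit 196691) (nat_lit 18) (.e (nat_lit 1015) (nat_lit 81) (.e (nat_lit 818) (nat_lit 68) (.e (nat_lit 720937) (nat_lit 22) .nil)))))))) (.g (nat_lit 4) .nil .nil))) 
(.lf (nat_lit 218330) (.g (nat_lit 4569) (.e (nat_lit 90172) (nat_lit 14) (.e (nat_lit 180250) (nat_lit 10) (.e (nat_lit 573487) (nat_lit 14) (.e (nat_lit 73747) (nat_lit 3) (.e (nat_lit 516115) (nat_lit 1) (.e (nat_lit 171776) (nat_lit 160) (.e (nat_lit 57371) (nat_lit 2) .nil))))))) (.g (nat_lit 5) .nil .nil)))) (.nd (nat_lit 6) 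
(.lf (nat_lit 218298) (.g (nat_lit 2912) (.e (nat_lit 90172) (nat_lit 14) (.e (nat_lit 180250) (nat_lit 10) (.e (nat_lit 573482) (nat_lit 13) (.e (nat_lit 65571) (nat_lit 3) (.e (nat_lit 98334) (nat_lit 18) (.e (nat_lit 171776) (nat_lit 160) (.e (nat_lit 57373) (nat_lit 2) .nil))))))) (.g (nat_lit 4) .nil .nil))) 
(.lf (nat_lit 218362) (.g (nat_lit 3628) (.e (nat_lit 90172) (nat_lit 14) (.e (nat_lit 180250) (nat_lit 10) (.e (nat_lit 573488) (nat_lit 14) (.e (nat_lit 73755) (nat_lit 8) (.e (nat_lit 557089) (nat_lit 12) (.e (nat_lit 164006) (nat_lit 41) (.e (nat_lit 671488) (nat_lit 0) (.e (nat_lit 1238) (nat_lit 91) .nil)))))))) (.g (nat_lit 4) .nil .nil))))))) 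
(.nd (nat_lit 3) (.nd (nat_lit 4) (.nd (nat_lit 5) (.nd (nat_lit 6) 
(.lf (nat_lit 218246) (.g (nat_lit 2889) (.e (nat_lit 90172) (nat_lit 14) (.e (nat_lit 180244) (nat_lit 5) (.e (nat_lit 532579) (nat_lit 26) (.e (nat_lit 426123) (nat_lit 2) (.e (nat_lit 196698) (nat_lit 19) (.e (nat_lit 57609) (nat_lit 109) (.e (nat_lit 720941) (nat_lit 22) .nil))))))) (.g (nat_lit 4) .nil .nil))) 
(.lf (nat_lit 218310) (.g (nat_lit 2638) (.e (nat_lit 90172) (nat_lit 14) (.e (nat_lit 180250) (nat_lit 10) (.e (nat_lit 573485) (nat_lit 13) (.e (nat_lit 65568) (nat_lit 2) (.e (nat_lit 98048) (nat_lit 2) (.e (nat_lit 24320) (nat_lit 17) .nil)))))) (.g (nat_lit 4) .nil .nil)))) (.nd (nat_lit 6) 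
(.lf (nat_lit 218278) (.g (nat_lit 2799) (.e (nat_lit 90172) (nat_lit 14) (.e (nat_lit 180244) (nat_lit 5) (.e (nat_lit 532579) (nat_lit 26) (.e (nat_lit 426139) (nat_lit 3) (.e (nat_lit 204825) (nat_lit 17) (.e (nat_lit 1006) (nat_lit 81) (.e (nat_lit 7695) (nat_lit 412) (.e (nat_lit 57375) (nat_lit 2) .nil)))))))) (.g (nat_lit 4) .nil .nil))) 
(.lf (nat_lit 218342) (.g (nat_lit 3123) (.e (nat_lit 90172) (nat_lit 14) (.e (nat_lit 180250) (nat_lit 10) (.e (nat_lit 573487) (nat_lit 14) (.e (nat_lit 73753) (nat_lit 8) (.e (nat_lit 557089) (nat_lit 12) (.e (nat_lit 164007) (nat_lit 41) (.e (nat_lit 671488) (nat_lit 0) (.e (nat_lit 1227) (nat_lit 91) .nil)))))))) (.g (nat_lit 4) .nil .nil))))) (.nd (nat_lit 5) (.nd (nat_lit 6) 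
(.lf (nat_lit 218262) (.g (nat_lit 2620) (.e (nat_lit 90172) (nat_lit 14) (.e (nat_lit 180244) (nat_lit 5) (.e (nat_lit 532579) (nat_lit 26) (.e (nat_lit 426124) (nat_lit 2) (.e (nat_lit 196691) (nat_lit 18) (.e (nat_lit 1014) (nat_lit 81) (.e (nat_lit 811) (nat_lit 68) (.e (nat_lit 720941) (nat_lit 22) .nil)))))))) (.g (nat_lit 4) .nil .nil))) 
(.lf (nat_lit 218326) (.g (nat_lit 4123) (.e (nat_lit 90172) (nat_lit 14) (.e (nat_lit 180250) (nat_lit 10) (.e (nat_lit 573487) (nat_lit 14) (.e (nat_lit 73746) (nat_lit 3) (.e (nat_lit 516119) (nat_lit 1) (.e (nat_lit 171776) (nat_lit 160) (.e (nat_lit 57373) (nat_lit 2) .nil))))))) (.g (nat_lit 5) .nil .nil)))) (.nd (nat_lit 6) 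
(.lf (nat_lit 218294) (.g (nat_lit 3709) (.e (nat_lit 90172) (nat_lit 14) (.e (nat_lit 180250) (nat_lit 10) (.e (nat_lit 573482) (nat_lit 13) (.e (nat_lit 65569) (nat_lit 3) (.e (nat_lit 98334) (nat_lit 18) (.e (nat_lit 171776) (nat_lit 160) (.e (nat_lit 57373) (nat_lit 2) .nil))))))) (.g (nat_lit 5) .nil .nil))) 
(.lf (nat_lit 218358) (.g (nat_lit 1275) (.e (nat_lit 90172) (nat_lit 14) (.e (nat_lit 180250) (nat_lit 10) (.e (nat_lit 573488) (nat_lit 14) (.e (nat_lit 81664) (nat_lit 1) .nil)))) .nil))))) (.nd (nat_lit 4) (.nd (nat_lit 5) (.nd (nat_lit 6) 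
(.lf (nat_lit 218254) (.g (nat_lit 2470) (.e (nat_lit 90172) (nat_lit 14) (.e (nat_lit 180244) (nat_lit 5) (.e (nat_lit 532579) (nat_lit 26) (.e (nat_lit 426124) (nat_lit 2) (.e (nat_lit 196691) (nat_lit 18) (.e (nat_lit 988) (nat_lit 81) (.e (nat_lit 811) (nat_lit 68) (.e (nat_lit 720941) (nat_lit 22) .nil)))))))) (.g (nat_lit 4) .nil .nil))) 
(.lf (nat_lit 218318) (.g (nat_lit 3004) (.e (nat_lit 90172) (nat_lit 14) (.e (nat_lit 180250) (nat_lit 10) (.e (nat_lit 573485) (nat_lit 13) (.e (nat_lit 65571) (nat_lit 3) (.e (nat_lit 98334) (nat_lit 18) (.e (nat_lit 171776) (nat_lit 160) (.e (nat_lit 57373) (nat_lit 2) .nil))))))) (.g (nat_lit 4) .nil .nil)))) (.nd (nat_lit 6) 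
(.lf (nat_lit 218286) (.g (nat_lit 2666) (.e (nat_lit 90172) (nat_lit 14) (.e (nat_lit 180250) (nat_lit 10) (.e (nat_lit 573480) (nat_lit 13) (.e (nat_lit 65571) (nat_lit 3) (.e (nat_lit 98334) (nat_lit 18) (.e (nat_lit 171776) (nat_lit 160) (.e (nat_lit 57373) (nat_lit 2) .nil))))))) (.g (nat_lit 4) .nil .nil))) 
(.lf (nat_lit 218350) (.g (nat_lit 3658) (.e (nat_lit 90172) (nat_lit 14) (.e (nat_lit 180250) (nat_lit 10) (.e (nat_lit 573487) (nat_lit 14) (.e (nat_lit 73753) (nat_lit 8) (.e (nat_lit 557090) (nat_lit 12) (.e (nat_lit 164008) (nat_lit 41) (.e (nat_lit 671488) (nat_lit 0) (.e (nat_lit 1238) (nat_lit 91) .nil)))))))) (.g (nat_lit 5) .nil .nil))))) (.nd (nat_lit 5) (.nd (nat_lit 6) 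
(.lf (nat_lit 218270) (.g (nat_lit 2628) (.e (nat_lit 90172) (nat_lit 14) (.e (nat_lit 180244) (nat_lit 5) (.e (nat_lit 532579) (nat_lit 26) (.e (nat_lit 426124) (nat_lit 2) (.e (nat_lit 196691) (nat_lit 18) (.e (nat_lit 1074) (nat_lit 81) (.e (nat_lit 811) (nat_lit 68) (.e (nat_lit 720941) (nat_lit 22) .nil)))))))) (.g (nat_lit 4) .nil .nil))) 
(.lf (nat_lit 218334) (.g (nat_lit 3454) (.e (nat_lit 90172) (nat_lit 14) (.e (nat_lit 180250) (nat_lit 10) (.e (nat_lit 573487) (nat_lit 14) (.e (nat_lit 73747) (nat_lit 3) (.e (nat_lit 516120) (nat_lit 1) (.e (nat_lit 171776) (nat_lit 160) (.e (nat_lit 57373) (nat_lit 2) .nil))))))) (.g (nat_lit 4) .nil .nil)))) (.nd (nat_lit 6) 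
(.lf (nat_lit 218302) (.g (nat_lit 2190) (.e (nat_lit 90172) (nat_lit 14) (.e (nat_lit 180250) (nat_lit 10) (.e (nat_lit 573484) (nat_lit 13) (.e (nat_lit 65566) (nat_lit 2) (.e (nat_lit 98048) (nat_lit 2) .nil))))) .nil)) 
(.lf (nat_lit 218366) (.g (nat_lit 3508) (.e (nat_lit 90172) (nat_lit 14) (.e (nat_lit 180250) (nat_lit 10) (.e (nat_lit 573488) (nat_lit 14) (.e (nat_lit 73755) (nat_lit 8) (.e (nat_lit 557090) (nat_lit 12) (.e (nat_lit 164005) (nat_lit 41) (.e (nat_lit 671488) (nat_lit 0) (.e (nat_lit 1238) (nat_lit 91) .nil)))))))) (.g (nat_lit 4) .nil .nil))))))))) 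
(.nd (nat_lit 1) (.nd (nat_lit 2) (.nd (nat_lit 3) (.nd (nat_lit 4) (.nd (nat_lit 5) 
(.nd (nat_lit 6) 
(.lf (nat_lit 218241) (.g (nat_lit 2517) (.e (nat_lit 90172) (nat_lit 14) (.e (nat_lit 180244) (nat_lit 5) (.e (nat_lit 532579) (nat_lit 26) (.e (nat_lit 426123) (nat_lit 2) (.e (nat_lit 196697) (nat_lit 19) .nil))))) .nil)) 
(.lf (nat_lit 218305) (.g (nat_lit 4223) (.e (nat_lit 90172) (nat_lit 14) (.e (nat_lit 180250) (nat_lit 10) (.e (nat_lit 573484) (nat_lit 13) (.e (nat_lit 65569) (nat_lit 3) (.e (nat_lit 98334) (nat_lit 18) (.e (nat_lit 171776) (nat_lit 160) (.e (nat_lit 57371) (nat_lit 2) .nil))))))) (.g (nat_lit 5) .nil .nil)))) (.nd (nat_lit 6) 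
(.lf (nat_lit 218273) (.g (nat_lit 2180) (.e (nat_lit 90172) (nat_lit 14) (.e (nat_lit 180244) (nat_lit 5) (.e (nat_lit 532579) (nat_lit 26) (.e (nat_lit 426124) (nat_lit 2) (.e (nat_lit 204544) (nat_lit 19) (.e (nat_lit 57610) (nat_lit 109) (.e (nat_lit 720941) (nat_lit 22) .nil))))))) (.g (nat_lit 4) .nil .nil))) 
(.lf (nat_lit 218337) (.g (nat_lit 1953) (.e (nat_lit 90172) (nat_lit 14) (.e (nat_lit 180250) (nat_lit 10) (.e (nat_lit 573487) (nat_lit 14) (.e (nat_lit 73752) (nat_lit 8) .nil)))) .nil)))) (.nd (nat_lit 5) (.nd (nat_lit 6) 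
(.lf (nat_lit 218257) (.g (nat_lit 2241) (.e (nat_lit 90172) (nat_lit 14) (.e (nat_lit 180244) (nat_lit 5) (.e (nat_lit 532579) (nat_lit 26) (.e (nat_lit 426124) (nat_lit 2) (.e (nat_lit 196691) (nat_lit 18) (.e (nat_lit 992) (nat_lit 81) (.e (nat_lit 815) (nat_lit 68) (.e (nat_lit 720941) (nat_lit 22) .nil)))))))) (.g (nat_lit 4) .nil .nil))) 
(.lf (nat_lit 218321) (.g (nat_lit 1918) (.e (nat_lit 90172) (nat_lit 14) (.e (nat_lit 180250) (nat_lit 10) (.e (nat_lit 573487) (nat_lit 14) (.e (nat_lit 73729) (nat_lit 0) .nil)))) .nil))) (.nd (nat_lit 6) 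
(.lf (nat_lit 218289) (.g (nat_lit 2400) (.e (nat_lit 90172) (nat_lit 14) (.e (nat_lit 180250) (nat_lit 10) (.e (nat_lit 573481) (nat_lit 13) (.e (nat_lit 65571) (nat_lit 3) (.e (nat_lit 98319) (nat_lit 17) .nil))))) .nil)) 
(.lf (nat_lit 218353) (.g (nat_lit 4084) (.e (nat_lit 90172) (nat_lit 14) (.e (nat_lit 180250) (nat_lit 10) (.e (nat_lit 573487) (nat_lit 14) (.e (nat_lit 73753) (nat_lit 8) (.e (nat_lit 557091) (nat_lit 12) (.e (nat_lit 164007) (nat_lit 41) (.e (nat_lit 671488) (nat_lit 0) (.e (nat_lit 1238) (nat_lit 91) .nil)))))))) (.g (nat_lit 5) .nil .nil)))))) 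
(.nd (nat_lit 4) (.nd (nat_lit 5) (.nd (nat_lit 6) 
(.lf (nat_lit 218249) (.g (nat_lit 2976) (.e (nat_lit 90172) (nat_lit 14) (.e (nat_lit 180244) (nat_lit 5) (.e (nat_lit 532579) (nat_lit 26) (.e (nat_lit 426123) (nat_lit 2) (.e (nat_lit 196699) (nat_lit 20) (.e (nat_lit 123008) (nat_lit 109) (.e (nat_lit 720941) (nat_lit 22) .nil))))))) (.g (nat_lit 4) .nil .nil))) 
(.lf (nat_lit 218313) (.g (nat_lit 3663) (.e (nat_lit 90172) (nat_lit 14) (.e (nat_lit 180250) (nat_lit 10) (.e (nat_lit 573485) (nat_lit 13) (.e (nat_lit 65569) (nat_lit 3) (.e (nat_lit 98334) (nat_lit 18) (.e (nat_lit 171776) (nat_lit 160) (.e (nat_lit 57373) (nat_lit 2) .nil))))))) (.g (nat_lit 5) .nil .nil)))) (.nd (nat_lit 6) 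
(.lf (nat_lit 218281) (.g (nat_lit 705) (.e (nat_lit 90172) (nat_lit 14) (.e (nat_lit 180249) (nat_lit 10) (.e (nat_lit 573489) (nat_lit 14) (.e (nat_lit 73755) (nat_lit 8) .nil)))) .nil)) 
(.lf (nat_lit 218345) (.g (nat_lit 3895) (.e (nat_lit 90172) (nat_lit 14) (.e (nat_lit 180250) (nat_lit 10) (.e (nat_lit 573487) (nat_lit 14) (.e (nat_lit 73753) (nat_lit 8) (.e (nat_lit 557090) (nat_lit 12) (.e (nat_lit 164005) (nat_lit 41) (.e (nat_lit 671488) (nat_lit 0) (.e (nat_lit 1238) (nat_lit 91) .nil)))))))) (.g (nat_lit 5) .nil .nil))))) (.nd (nat_lit 5) (.nd (nat_lit 6) 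
(.lf (nat_lit 218265) (.g (nat_lit 2403) (.e (nat_lit 90172) (nat_lit 14) (.e (nat_lit 180244) (nat_lit 5) (.e (nat_lit 532579) (nat_lit 26) (.e (nat_lit 426124) (nat_lit 2) (.e (nat_lit 196691) (nat_lit 18) (.e (nat_lit 1015) (nat_lit 81) (.e (nat_lit 811) (nat_lit 68) (.e (nat_lit 720941) (nat_lit 22) .nil)))))))) (.g (nat_lit 4) .nil .nil))) 
(.lf (nat_lit 218329) (.g (nat_lit 2281) (.e (nat_lit 90172) (nat_lit 14) (.e (nat_lit 180250) (nat_lit 10) (.e (nat_lit 573487) (nat_lit 14) (.e (nat_lit 73747) (nat_lit 3) (.e (nat_lit 516100) (nat_lit 0) .nil))))) .nil))) (.nd (nat_lit 6) 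
(.lf (nat_lit 218297) (.g (nat_lit 2677) (.e (nat_lit 90172) (nat_lit 14) (.e (nat_lit 180250) (nat_lit 10) (.e (nat_lit 573482) (nat_lit 13) (.e (nat_lit 65571) (nat_lit 3) (.e (nat_lit 98320) (nat_lit 17) .nil))))) .nil)) 
(.lf (nat_lit 218361) (.g (nat_lit 1551) (.e (nat_lit 90172) (nat_lit 14) (.e (nat_lit 180250) (nat_lit 10) (.e (nat_lit 573488) (nat_lit 14) (.e (nat_lit 73755) (nat_lit 8) .nil)))) .nil)))))) (.nd (nat_lit 3) (.nd (nat_lit 4) (.nd (nat_lit 5) (.nd (nat_lit 6) 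
(.lf (nat_lit 218245) (.g (nat_lit 3184) (.e (nat_lit 90172) (nat_lit 14) (.e (nat_lit 180244) (nat_lit 5) (.e (nat_lit 532579) (nat_lit 26) (.e (nat_lit 426123) (nat_lit 2) (.e (nat_lit 196697) (nat_lit 19) (.e (nat_lit 65280) (nat_lit 109) (.e (nat_lit 720941) (nat_lit 22) .nil))))))) (.g (nat_lit 4) .nil .nil))) 
(.lf (nat_lit 218309) (.g (nat_lit 1950) (.e (nat_lit 90172) (nat_lit 14) (.e (nat_lit 180250) (nat_lit 10) (.e (nat_lit 573484) (nat_lit 13) (.e (nat_lit 65577) (nat_lit 5) (.e (nat_lit 139276) (nat_lit 2) .nil))))) .nil))) (.nd (nat_lit 6) 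
(.lf (nat_lit 218277) (.g (nat_lit 2279) (.e (nat_lit 90172) (nat_lit 14) (.e (nat_lit 180244) (nat_lit 5) (.e (nat_lit 532579) (nat_lit 26) (.e (nat_lit 426139) (nat_lit 3) (.e (nat_lit 204822) (nat_lit 17) .nil))))) .nil)) 
(.lf (nat_lit 218341) (.g (nat_lit 3176) (.e (nat_lit 90172) (nat_lit 14) (.e (nat_lit 180250) (nat_lit 10) (.e (nat_lit 573487) (nat_lit 14) (.e (nat_lit 73753) (nat_lit 8) (.e (nat_lit 557089) (nat_lit 12) (.e (nat_lit 164007) (nat_lit 41) (.e (nat_lit 663560) (nat_lit 0) (.e (nat_lit 1228) (nat_lit 91) .nil)))))))) (.g (nat_lit 4) .nil .nil))))) (.nd (nat_lit 5) (.nd (nat_lit 6) 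
(.lf (nat_lit 218261) (.g (nat_lit 2479) (.e (nat_lit 90172) (nat_lit 14) (.e (nat_lit 180244) (nat_lit 5) (.e (nat_lit 532579) (nat_lit 26) (.e (nat_lit 426124) (nat_lit 2) (.e (nat_lit 196691) (nat_lit 18) (.e (nat_lit 1003) (nat_lit 81) (.e (nat_lit 808) (nat_lit 68) (.e (nat_lit 720941) (nat_lit 22) .nil)))))))) (.g (nat_lit 4) .nil .nil))) 
(.lf (nat_lit 218325) (.g (nat_lit 3343) (.e (nat_lit 90172) (nat_lit 14) (.e (nat_lit 180250) (nat_lit 10) (.e (nat_lit 573487) (nat_lit 14) (.e (nat_lit 73746) (nat_lit 3) (.e (nat_lit 516117) (nat_lit 1) (.e (nat_lit 164195) (nat_lit 158) (.e (nat_lit 1039) (nat_lit 81) (.e (nat_lit 1238) (nat_lit 91) .nil)))))))) (.g (nat_lit 4) .nil .nil)))) (.nd (nat_lit 6) 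
(.lf (nat_lit 218293) (.g (nat_lit 3197) (.e (nat_lit 90172) (nat_lit 14) (.e (nat_lit 180250) (nat_lit 10) (.e (nat_lit 573482) (nat_lit 13) (.e (nat_lit 65568) (nat_lit 2) (.e (nat_lit 90165) (nat_lit 12) (.e (nat_lit 163849) (nat_lit 0) (.e (nat_lit 6828) (nat_lit 367) (.e (nat_lit 57372) (nat_lit 2) .nil)))))))) (.g (nat_lit 4) .nil .nil))) 
(.lf (nat_lit 218357) (.g (nat_lit 1953) (.e (nat_lit 90172) (nat_lit 14) (.e (nat_lit 180250) (nat_lit 10) (.e (nat_lit 573487) (nat_lit 14) (.e (nat_lit 73755) (nat_lit 8) .nil)))) .nil))))) (.nd (nat_lit 4) (.nd (nat_lit 5) (.nd (nat_lit 6) 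
(.lf (nat_lit 218253) (.g (nat_lit 2658) (.e (nat_lit 90172) (nat_lit 14) (.e (nat_lit 180244) (nat_lit 5) (.e (nat_lit 532579) (nat_lit 26) (.e (nat_lit 426124) (nat_lit 2) (.e (nat_lit 196691) (nat_lit 18) (.e (nat_lit 982) (nat_lit 81) (.e (nat_lit 818) (nat_lit 68) (.e (nat_lit 720937) (nat_lit 22) .nil)))))))) (.g (nat_lit 4) .nil .nil))) 
(.lf (nat_lit 218317) (.g (nat_lit 3289) (.e (nat_lit 90172) (nat_lit 14) (.e (nat_lit 180250) (nat_lit 10) (.e (nat_lit 573485) (nat_lit 13) (.e (nat_lit 65571) (nat_lit 3) (.e (nat_lit 98319) (nat_lit 17) (.e (nat_lit 2399) (nat_lit 157) (.e (nat_lit 6828) (nat_lit 367) (.e (nat_lit 57375) (nat_lit 2) .nil)))))))) (.g (nat_lit 4) .nil .nil)))) (.nd (nat_lit 6) 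
(.lf (nat_lit 218285) (.g (nat_lit 2450) (.e (nat_lit 90172) (nat_lit 14) (.e (nat_lit 180250) (nat_lit 10) (.e (nat_lit 573480) (nat_lit 13) (.e (nat_lit 65568) (nat_lit 2) (.e (nat_lit 98048) (nat_lit 2) (.e (nat_lit 24320) (nat_lit 17) .nil)))))) (.g (nat_lit 4) .nil .nil))) 
(.lf (nat_lit 218349) (.g (nat_lit 3854) (.e (nat_lit 90172) (nat_lit 14) (.e (nat_lit 180250) (nat_lit 10) (.e (nat_lit 573487) (nat_lit 14) (.e (nat_lit 73753) (nat_lit 8) (.e (nat_lit 557090) (nat_lit 12) (.e (nat_lit 164007) (nat_lit 41) (.e (nat_lit 671488) (nat_lit 0) (.e (nat_lit 1238) (nat_lit 91) .nil)))))))) (.g (nat_lit 5) .nil .nil))))) (.nd (nat_lit 5) (.nd (nat_lit 6) 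
(.lf (nat_lit 218269) (.g (nat_lit 2451) (.e (nat_lit 90172) (nat_lit 14) (.e (nat_lit 180244) (nat_lit 5) (.e (nat_lit 532579) (nat_lit 26) (.e (nat_lit 426124) (nat_lit 2) (.e (nat_lit 196691) (nat_lit 18) (.e (nat_lit 1040) (nat_lit 81) (.e (nat_lit 811) (nat_lit 68) (.e (nat_lit 720941) (nat_lit 22) .nil)))))))) (.g (nat_lit 4) .nil .nil))) 
(.lf (nat_lit 218333) (.g (nat_lit 4246) (.e (nat_lit 90172) (nat_lit 14) (.e (nat_lit 180250) (nat_lit 10) (.e (nat_lit 573487) (nat_lit 14) (.e (nat_lit 73747) (nat_lit 3) (.e (nat_lit 516119) (nat_lit 1) (.e (nat_lit 171776) (nat_lit 160) (.e (nat_lit 57375) (nat_lit 2) .nil))))))) (.g (nat_lit 5) .nil .nil)))) (.nd (nat_lit 6) 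
(.lf (nat_lit 218301) (.g (nat_lit 2559) (.e (nat_lit 90172) (nat_lit 14) (.e (nat_lit 180250) (nat_lit 10) (.e (nat_lit 573482) (nat_lit 13) (.e (nat_lit 65644) (nat_lit 22) (.e (nat_lit 245776) (nat_lit 4) (.e (nat_lit 179968) (nat_lit 17) .nil)))))) (.g (nat_lit 4) .nil .nil))) 
(.lf (nat_lit 218365) (.g (nat_lit 3485) (.e (nat_lit 90172) (nat_lit 14) (.e (nat_lit 180250) (nat_lit 10) (.e (nat_lit 573488) (nat_lit 14) (.e (nat_lit 73755) (nat_lit 8) (.e (nat_lit 557090) (nat_lit 12) (.e (nat_lit 164004) (nat_lit 41) (.e (nat_lit 671488) (nat_lit 0) (.e (nat_lit 1238) (nat_lit 91) .nil)))))))) (.g (nat_lit 4) .nil .nil)))))))) 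
(.nd (nat_lit 2) (.nd (nat_lit 3) (.nd (nat_lit 4) (.nd (nat_lit 5) (.nd (nat_lit 6) 
(.lf (nat_lit 218243) (.g (nat_lit 2666) (.e (nat_lit 90172) (nat_lit 14) (.e (nat_lit 180244) (nat_lit 5) (.e (nat_lit 532579) (nat_lit 26) (.e (nat_lit 426123) (nat_lit 2) (.e (nat_lit 196697) (nat_lit 19) (.e (nat_lit 57610) (nat_lit 109) (.e (nat_lit 720941) (nat_lit 22) .nil))))))) (.g (nat_lit 4) .nil .nil))) 
(.lf (nat_lit 218307) (.g (nat_lit 3604) (.e (nat_lit 90172) (nat_lit 14) (.e (nat_lit 180250) (nat_lit 10) (.e (nat_lit 573484) (nat_lit 13) (.e (nat_lit 65571) (nat_lit 3) (.e (nat_lit 98319) (nat_lit 17) (.e (nat_lit 2399) (nat_lit 157) (.e (nat_lit 6828) (nat_lit 367) (.e (nat_lit 57375) (nat_lit 2) .nil)))))))) (.g (nat_lit 4) .nil .nil)))) (.nd (nat_lit 6) 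
(.lf (nat_lit 218275) (.g (nat_lit 2288) (.e (nat_lit 90172) (nat_lit 14) (.e (nat_lit 180244) (nat_lit 5) (.e (nat_lit 532579) (nat_lit 26) (.e (nat_lit 426139) (nat_lit 3) (.e (nat_lit 204817) (nat_lit 17) .nil))))) .nil)) 
(.lf (nat_lit 218339) (.g (nat_lit 3105) (.e (nat_lit 90172) (nat_lit 14) (.e (nat_lit 180250) (nat_lit 10) (.e (nat_lit 573487) (nat_lit 14) (.e (nat_lit 73753) (nat_lit 8) (.e (nat_lit 557089) (nat_lit 12) (.e (nat_lit 164006) (nat_lit 41) (.e (nat_lit 671488) (nat_lit 0) (.e (nat_lit 1227) (nat_lit 91) .nil)))))))) (.g (nat_lit 4) .nil .nil))))) (.nd (nat_lit 5) (.nd (nat_lit 6) 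
(.lf (nat_lit 218259) (.g (nat_lit 2247) (.e (nat_lit 90172) (nat_lit 14) (.e (nat_lit 180244) (nat_lit 5) (.e (nat_lit 532579) (nat_lit 26) (.e (nat_lit 426124) (nat_lit 2) (.e (nat_lit 196691) (nat_lit 18) (.e (nat_lit 993) (nat_lit 81) (.e (nat_lit 815) (nat_lit 68) (.e (nat_lit 720938) (nat_lit 22) .nil)))))))) (.g (nat_lit 4) .nil .nil))) 
(.lf (nat_lit 218323) (.g (nat_lit 2470) (.e (nat_lit 90172) (nat_lit 14) (.e (nat_lit 180250) (nat_lit 10) (.e (nat_lit 573487) (nat_lit 14) (.e (nat_lit 73746) (nat_lit 3) (.e (nat_lit 516100) (nat_lit 0) .nil))))) .nil))) (.nd (nat_lit 6) 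
(.lf (nat_lit 218291) (.g (nat_lit 3001) (.e (nat_lit 90172) (nat_lit 14) (.e (nat_lit 180250) (nat_lit 10) (.e (nat_lit 573482) (nat_lit 13) (.e (nat_lit 65568) (nat_lit 2) (.e (nat_lit 98048) (nat_lit 2) (.e (nat_lit 24320) (nat_lit 17) .nil)))))) (.g (nat_lit 4) .nil .nil))) 
(.lf (nat_lit 218355) (.g (nat_lit 3447) (.e (nat_lit 90172) (nat_lit 14) (.e (nat_lit 180250) (nat_lit 10) (.e (nat_lit 573487) (nat_lit 14) (.e (nat_lit 73753) (nat_lit 8) (.e (nat_lit 557094) (nat_lit 12) (.e (nat_lit 164010) (nat_lit 41) (.e (nat_lit 671488) (nat_lit 0) (.e (nat_lit 1238) (nat_lit 91) .nil)))))))) (.g (nat_lit 4) .nil .nil)))))) 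
(.nd (nat_lit 4) (.nd (nat_lit 5) (.nd (nat_lit 6) 
(.lf (nat_lit 218251) (.g (nat_lit 906) (.e (nat_lit 90172) (nat_lit 14) (.e (nat_lit 180244) (nat_lit 5) (.e (nat_lit 532579) (nat_lit 26) (.e (nat_lit 426124) (nat_lit 2) .nil)))) .nil)) 
(.lf (nat_lit 218315) (.g (nat_lit 2278) (.e (nat_lit 90172) (nat_lit 14) (.e (nat_lit 180250) (nat_lit 10) (.e (nat_lit 573485) (nat_lit 13) (.e (nat_lit 65571) (nat_lit 3) (.e (nat_lit 98319) (nat_lit 17) .nil))))) .nil))) (.nd (nat_lit 6) 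
(.lf (nat_lit 218283) (.g (nat_lit 2819) (.e (nat_lit 90172) (nat_lit 14) (.e (nat_lit 180250) (nat_lit 10) (.e (nat_lit 573475) (nat_lit 12) (.e (nat_lit 57503) (nat_lit 38) (.e (nat_lit 638984) (nat_lit 5) .nil))))) .nil)) 
(.lf (nat_lit 218347) (.g (nat_lit 4134) (.e (nat_lit 90172) (nat_lit 14) (.e (nat_lit 180250) (nat_lit 10) (.e (nat_lit 573487) (nat_lit 14) (.e (nat_lit 73753) (nat_lit 8) (.e (nat_lit 557090) (nat_lit 12) (.e (nat_lit 164006) (nat_lit 41) (.e (nat_lit 671488) (nat_lit 0) (.e (nat_lit 1228) (nat_lit 91) .nil)))))))) (.g (nat_lit 5) .nil .nil))))) (.nd (nat_lit 5) (.nd (nat_lit 6) 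
(.lf (nat_lit 218267) (.g (nat_lit 2415) (.e (nat_lit 90172) (nat_lit 14) (.e (nat_lit 180244) (nat_lit 5) (.e (nat_lit 532579) (nat_lit 26) (.e (nat_lit 426124) (nat_lit 2) (.e (nat_lit 196691) (nat_lit 18) (.e (nat_lit 1023) (nat_lit 81) (.e (nat_lit 811) (nat_lit 68) (.e (nat_lit 720941) (nat_lit 22) .nil)))))))) (.g (nat_lit 4) .nil .nil))) 
(.lf (nat_lit 218331) (.g (nat_lit 3446) (.e (nat_lit 90172) (nat_lit 14) (.e (nat_lit 180250) (nat_lit 10) (.e (nat_lit 573487) (nat_lit 14) (.e (nat_lit 73747) (nat_lit 3) (.e (nat_lit 516117) (nat_lit 1) (.e (nat_lit 171776) (nat_lit 160) (.e (nat_lit 57371) (nat_lit 2) .nil))))))) (.g (nat_lit 4) .nil .nil)))) (.nd (nat_lit 6) 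
(.lf (nat_lit 218299) (.g (nat_lit 1165) (.e (nat_lit 90172) (nat_lit 14) (.e (nat_lit 180250) (nat_lit 10) (.e (nat_lit 573482) (nat_lit 13) (.e (nat_lit 73472) (nat_lit 18) .nil)))) .nil)) 
(.lf (nat_lit 218363) (.g (nat_lit 3247) (.e (nat_lit 90172) (nat_lit 14) (.e (nat_lit 180250) (nat_lit 10) (.e (nat_lit 573488) (nat_lit 14) (.e (nat_lit 73755) (nat_lit 8) (.e (nat_lit 557089) (nat_lit 12) (.e (nat_lit 164007) (nat_lit 41) (.e (nat_lit 671488) (nat_lit 0) (.e (nat_lit 1238) (nat_lit 91) .nil)))))))) (.g (nat_lit 4) .nil .nil))))))) 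
(.nd (nat_lit 3) (.nd (nat_lit 4) (.nd (nat_lit 5) (.nd (nat_lit 6) 
(.lf (nat_lit 218247) (.g (nat_lit 2964) (.e (nat_lit 90172) (nat_lit 14) (.e (nat_lit 180244) (nat_lit 5) (.e (nat_lit 532579) (nat_lit 26) (.e (nat_lit 426123) (nat_lit 2) (.e (nat_lit 196698) (nat_lit 19) (.e (nat_lit 65280) (nat_lit 109) (.e (nat_lit 720937) (nat_lit 22) .nil))))))) (.g (nat_lit 4) .nil .nil))) 
(.lf (nat_lit 218311) (.g (nat_lit 1657) (.e (nat_lit 90172) (nat_lit 14) (.e (nat_lit 180250) (nat_lit 10) (.e (nat_lit 573485) (nat_lit 13) (.e (nat_lit 65568) (nat_lit 2) (.e (nat_lit 90165) (nat_lit 12) .nil))))) .nil))) (.nd (nat_lit 6) 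
(.lf (nat_lit 218279) (.g (nat_lit 2775) (.e (nat_lit 90172) (nat_lit 14) (.e (nat_lit 180244) (nat_lit 5) (.e (nat_lit 532579) (nat_lit 26) (.e (nat_lit 426139) (nat_lit 3) (.e (nat_lit 204827) (nat_lit 17) (.e (nat_lit 1008) (nat_lit 81) (.e (nat_lit 7695) (nat_lit 412) (.e (nat_lit 57375) (nat_lit 2) .nil)))))))) (.g (nat_lit 4) .nil .nil))) 
(.lf (nat_lit 218343) (.g (nat_lit 3172) (.e (nat_lit 90172) (nat_lit 14) (.e (nat_lit 180250) (nat_lit 10) (.e (nat_lit 573487) (nat_lit 14) (.e (nat_lit 73753) (nat_lit 8) (.e (nat_lit 557089) (nat_lit 12) (.e (nat_lit 164007) (nat_lit 41) (.e (nat_lit 671488) (nat_lit 0) (.e (nat_lit 1228) (nat_lit 91) .nil)))))))) (.g (nat_lit 4) .nil .nil))))) (.nd (nat_lit 5) (.nd (nat_lit 6) 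
(.lf (nat_lit 218263) (.g (nat_lit 2554) (.e (nat_lit 90172) (nat_lit 14) (.e (nat_lit 180244) (nat_lit 5) (.e (nat_lit 532579) (nat_lit 26) (.e (nat_lit 426124) (nat_lit 2) (.e (nat_lit 196691) (nat_lit 18) (.e (nat_lit 1014) (nat_lit 81) (.e (nat_lit 815) (nat_lit 68) (.e (nat_lit 720938) (nat_lit 22) .nil)))))))) (.g (nat_lit 4) .nil .nil))) 
(.lf (nat_lit 218327) (.g (nat_lit 4267) (.e (nat_lit 90172) (nat_lit 14) (.e (nat_lit 180250) (nat_lit 10) (.e (nat_lit 573487) (nat_lit 14) (.e (nat_lit 73746) (nat_lit 3) (.e (nat_lit 516120) (nat_lit 1) (.e (nat_lit 171776) (nat_lit 160) (.e (nat_lit 57373) (nat_lit 2) .nil))))))) (.g (nat_lit 5) .nil .nil)))) (.nd (nat_lit 6) 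
(.lf (nat_lit 218295) (.g (nat_lit 2729) (.e (nat_lit 90172) (nat_lit 14) (.e (nat_lit 180250) (nat_lit 10) (.e (nat_lit 573482) (nat_lit 13) (.e (nat_lit 65571) (nat_lit 3) (.e (nat_lit 98319) (nat_lit 17) .nil))))) .nil)) 
(.lf (nat_lit 218359) (.g (nat_lit 3162) (.e (nat_lit 90172) (nat_lit 14) (.e (nat_lit 180250) (nat_lit 10) (.e (nat_lit 573488) (nat_lit 14) (.e (nat_lit 73747) (nat_lit 3) (.e (nat_lit 516115) (nat_lit 1) (.e (nat_lit 171776) (nat_lit 160) (.e (nat_lit 57375) (nat_lit 2) .nil))))))) (.g (nat_lit 4) .nil .nil)))))) (.nd (nat_lit 4) (.nd (nat_lit 5) (.nd (nat_lit 6) 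
(.lf (nat_lit 218255) (.g (nat_lit 2578) (.e (nat_lit 90172) (nat_lit 14) (.e (nat_lit 180244) (nat_lit 5) (.e (nat_lit 532579) (nat_lit 26) (.e (nat_lit 426124) (nat_lit 2) (.e (nat_lit 196691) (nat_lit 18) (.e (nat_lit 989) (nat_lit 81) (.e (nat_lit 809) (nat_lit 68) (.e (nat_lit 720941) (nat_lit 22) .nil)))))))) (.g (nat_lit 4) .nil .nil))) 
(.lf (nat_lit 218319) (.g (nat_lit 2195) (.e (nat_lit 90172) (nat_lit 14) (.e (nat_lit 180250) (nat_lit 10) (.e (nat_lit 573485) (nat_lit 13) (.e (nat_lit 65575) (nat_lit 5) (.e (nat_lit 139276) (nat_lit 2) (.e (nat_lit 24320) (nat_lit 17) .nil)))))) (.g (nat_lit 4) .nil .nil)))) (.nd (nat_lit 6) 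
(.lf (nat_lit 218287) (.g (nat_lit 883) (.e (nat_lit 90172) (nat_lit 14) (.e (nat_lit 180250) (nat_lit 10) (.e (nat_lit 573480) (nat_lit 13) (.e (nat_lit 73472) (nat_lit 18) .nil)))) .nil)) 
(.lf (nat_lit 218351) (.g (nat_lit 3335) (.e (nat_lit 90172) (nat_lit 14) (.e (nat_lit 180250) (nat_lit 10) (.e (nat_lit 573487) (nat_lit 14) (.e (nat_lit 73753) (nat_lit 8) (.e (nat_lit 557091) (nat_lit 12) (.e (nat_lit 164006) (nat_lit 41) (.e (nat_lit 671488) (nat_lit 0) (.e (nat_lit 1227) (nat_lit 91) .nil)))))))) (.g (nat_lit 4) .nil .nil))))) (.nd (nat_lit 5) (.nd (nat_lit 6) 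
(.lf (nat_lit 218271) (.g (nat_lit 2321) (.e (nat_lit 90172) (nat_lit 14) (.e (nat_lit 180244) (nat_lit 5) (.e (nat_lit 532579) (nat_lit 26) (.e (nat_lit 426124) (nat_lit 2) (.e (nat_lit 196691) (nat_lit 18) (.e (nat_lit 1086) (nat_lit 81) (.e (nat_lit 811) (nat_lit 68) (.e (nat_lit 720941) (nat_lit 22) .nil)))))))) (.g (nat_lit 4) .nil .nil))) 
(.lf (nat_lit 218335) (.g (nat_lit 1613) (.e (nat_lit 90172) (nat_lit 14) (.e (nat_lit 180250) (nat_lit 10) (.e (nat_lit 573487) (nat_lit 14) (.e (nat_lit 81664) (nat_lit 5) .nil)))) .nil))) (.nd (nat_lit 6) 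
(.lf (nat_lit 218303) (.g (nat_lit 2554) (.e (nat_lit 90172) (nat_lit 14) (.e (nat_lit 180250) (nat_lit 10) (.e (nat_lit 573484) (nat_lit 13) (.e (nat_lit 65568) (nat_lit 2) (.e (nat_lit 98048) (nat_lit 2) (.e (nat_lit 24320) (nat_lit 17) .nil)))))) (.g (nat_lit 4) .nil .nil))) 
(.lf (nat_lit 218367) (.g (nat_lit 3633) (.e (nat_lit 90172) (nat_lit 14) (.e (nat_lit 180250) (nat_lit 10) (.e (nat_lit 573488) (nat_lit 14) (.e (nat_lit 73755) (nat_lit 8) (.e (nat_lit 557090) (nat_lit 12) (.e (nat_lit 164006) (nat_lit 41) (.e (nat_lit 671488) (nat_lit 0) (.e (nat_lit 1238) (nat_lit 91) .nil)))))))) (.g (nat_lit 4) .nil .nil))))))))))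

noncomputable def tv2870 : DT := (.nd (nat_lit 0) (.nd (nat_lit 1) (.nd (nat_lit 2) (.nd (nat_lit 3) (.nd (nat_lit 4) (.nd (nat_lit 5) 
(.lf (nat_lit 218368) (.g (nat_lit 3248) (.e (nat_lit 90172) (nat_lit 14) (.e (nat_lit 180250) (nat_lit 10) (.e (nat_lit 573488) (nat_lit 14) (.e (nat_lit 73755) (nat_lit 8) (.e (nat_lit 557090) (nat_lit 12) (.e (nat_lit 164007) (nat_lit 41) (.e (nat_lit 671488) (nat_lit 0) (.e (nat_lit 1238) (nat_lit 91) .nil)))))))) (.g (nat_lit 4) .nil .nil))) 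
(.lf (nat_lit 218400) (.g (nat_lit 1692) (.e (nat_lit 90172) (nat_lit 14) (.e (nat_lit 188160) (nat_lit 19) (.e (nat_lit 647200) (nat_lit 12) (.e (nat_lit 57480) (nat_lit 28) (.e (nat_lit 564992) (nat_lit 0) (.e (nat_lit 1615) (nat_lit 113) (.e (nat_lit 376865) (nat_lit 22) .nil))))))) (.g (nat_lit 4) .nil .nil)))) (.nd (nat_lit 5) 
(.lf (nat_lit 218384) (.g (nat_lit 4478) (.e (nat_lit 90172) (nat_lit 14) (.e (nat_lit 180250) (nat_lit 10) (.e (nat_lit 573489) (nat_lit 14) (.e (nat_lit 73755) (nat_lit 8) (.e (nat_lit 557090) (nat_lit 12) (.e (nat_lit 164006) (nat_lit 41) (.e (nat_lit 671488) (nat_lit 0) (.e (nat_lit 1238) (nat_lit 91) .nil)))))))) (.g (nat_lit 4) .nil .nil))) 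
(.lf (nat_lit 218416) (.g (nat_lit 2295) (.e (nat_lit 90172) (nat_lit 14) (.e (nat_lit 180278) (nat_lit 32) (.e (nat_lit 1234) (nat_lit 91) (.e (nat_lit 90185) (nat_lit 17) (.e (nat_lit 237625) (nat_lit 14) .nil))))) .nil)))) (.nd (nat_lit 4) (.nd (nat_lit 5) 
(.lf (nat_lit 218376) (.g (nat_lit 4040) (.e (nat_lit 90172) (nat_lit 14) (.e (nat_lit 180250) (nat_lit 10) (.e (nat_lit 573489) (nat_lit 14) (.e (nat_lit 73755) (nat_lit 8) (.e (nat_lit 557089) (nat_lit 12) (.e (nat_lit 164006) (nat_lit 41) (.e (nat_lit 671488) (nat_lit 0) (.e (nat_lit 1238) (nat_lit 91) .nil)))))))) (.g (nat_lit 5) .nil .nil))) 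
(.lf (nat_lit 218408) (.g (nat_lit 553) (.e (nat_lit 90172) (nat_lit 14) (.e (nat_lit 180278) (nat_lit 32) (.e (nat_lit 444) (nat_lit 33) .nil))) .nil))) (.nd (nat_lit 5) 
(.lf (nat_lit 218392) (.g (nat_lit 3504) (.e (nat_lit 90172) (nat_lit 14) (.e (nat_lit 180250) (nat_lit 10) (.e (nat_lit 573489) (nat_lit 14) (.e (nat_lit 73755) (nat_lit 8) (.e (nat_lit 557091) (nat_lit 12) (.e (nat_lit 164008) (nat_lit 41) (.e (nat_lit 671488) (nat_lit 0) (.e (nat_lit 1238) (nat_lit 91) .nil)))))))) (.g (nat_lit 4) .nil .nil))) 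
(.lf (nat_lit 218424) (.g (nat_lit 2959) (.e (nat_lit 90172) (nat_lit 14) (.e (nat_lit 180278) (nat_lit 32) (.e (nat_lit 1235) (nat_lit 91) (.e (nat_lit 90174) (nat_lit 14) (.e (nat_lit 180277) (nat_lit 32) (.e (nat_lit 1235) (nat_lit 91) .nil)))))) (.g (nat_lit 0) .nil .nil)))))) (.nd (nat_lit 3) (.nd (nat_lit 4) (.nd (nat_lit 5) 
(.lf (nat_lit 218372) (.g (nat_lit 3305) (.e (nat_lit 90172) (nat_lit 14) (.e (nat_lit 180250) (nat_lit 10) (.e (nat_lit 573488) (nat_lit 14) (.e (nat_lit 73755) (nat_lit 8) (.e (nat_lit 557091) (nat_lit 12) (.e (nat_lit 164008) (nat_lit 41) (.e (nat_lit 671488) (nat_lit 0) (.e (nat_lit 1238) (nat_lit 91) .nil)))))))) (.g (nat_lit 4) .nil .nil))) 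
(.lf (nat_lit 218404) (.g (nat_lit 2274) (.e (nat_lit 90172) (nat_lit 14) (.e (nat_lit 180277) (nat_lit 32) (.e (nat_lit 1234) (nat_lit 91) (.e (nat_lit 90172) (nat_lit 14) (.e (nat_lit 180278) (nat_lit 32) .nil))))) .nil))) (.nd (nat_lit 5) 
(.lf (nat_lit 218388) (.g (nat_lit 3894) (.e (nat_lit 90172) (nat_lit 14) (.e (nat_lit 180250) (nat_lit 10) (.e (nat_lit 573489) (nat_lit 14) (.e (nat_lit 73755) (nat_lit 8) (.e (nat_lit 557090) (nat_lit 12) (.e (nat_lit 164010) (nat_lit 41) (.e (nat_lit 671488) (nat_lit 0) (.e (nat_lit 1238) (nat_lit 91) .nil)))))))) (.g (nat_lit 4) .nil .nil))) 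
(.lf (nat_lit 218420) (.g (nat_lit 1749) (.e (nat_lit 90172) (nat_lit 14) (.e (nat_lit 180278) (nat_lit 32) (.e (nat_lit 1235) (nat_lit 91) (.e (nat_lit 90170) (nat_lit 13) (.e (nat_lit 172037) (nat_lit 0) .nil))))) .nil)))) (.nd (nat_lit 4) (.nd (nat_lit 5) 
(.lf (nat_lit 218380) (.g (nat_lit 3434) (.e (nat_lit 90172) (nat_lit 14) (.e (nat_lit 180250) (nat_lit 10) (.e (nat_lit 573489) (nat_lit 14) (.e (nat_lit 73755) (nat_lit 8) (.e (nat_lit 557090) (nat_lit 12) (.e (nat_lit 164005) (nat_lit 41) (.e (nat_lit 663560) (nat_lit 0) (.e (nat_lit 1238) (nat_lit 91) .nil)))))))) (.g (nat_lit 4) .nil .nil))) 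
(.lf (nat_lit 218412) (.g (nat_lit 2408) (.e (nat_lit 90172) (nat_lit 14) (.e (nat_lit 180278) (nat_lit 32) (.e (nat_lit 1234) (nat_lit 91) (.e (nat_lit 90172) (nat_lit 14) (.e (nat_lit 188160) (nat_lit 32) (.e (nat_lit 1227) (nat_lit 91) .nil)))))) (.g (nat_lit 4) .nil .nil)))) (.nd (nat_lit 5) 
(.lf (nat_lit 218396) (.g (nat_lit 3234) (.e (nat_lit 90172) (nat_lit 14) (.e (nat_lit 180251) (nat_lit 10) (.e (nat_lit 573489) (nat_lit 14) (.e (nat_lit 73755) (nat_lit 8) (.e (nat_lit 557090) (nat_lit 12) .nil))))) .nil)) 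
(.lf (nat_lit 218428) (.g (nat_lit 2112) (.e (nat_lit 90172) (nat_lit 14) (.e (nat_lit 180278) (nat_lit 32) (.e (nat_lit 1235) (nat_lit 91) (.e (nat_lit 90185) (nat_lit 17) (.e (nat_lit 237573) (nat_lit 0) .nil))))) .nil)))))) (.nd (nat_lit 2) (.nd (nat_lit 3) (.nd (nat_lit 4) (.nd (nat_lit 5) 
(.lf (nat_lit 218370) (.g (nat_lit 2823) (.e (nat_lit 90172) (nat_lit 14) (.e (nat_lit 180250) (nat_lit 10) (.e (nat_lit 573488) (nat_lit 14) (.e (nat_lit 73755) (nat_lit 8) (.e (nat_lit 557091) (nat_lit 12) .nil))))) .nil)) 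
(.lf (nat_lit 218402) (.g (nat_lit 287) (.e (nat_lit 90172) (nat_lit 14) (.e (nat_lit 180261) (nat_lit 20) (.e (nat_lit 655379) (nat_lit 5) .nil))) .nil))) (.nd (nat_lit 5) 
(.lf (nat_lit 218386) (.g (nat_lit 4091) (.e (nat_lit 90172) (nat_lit 14) (.e (nat_lit 180250) (nat_lit 10) (.e (nat_lit 573489) (nat_lit 14) (.e (nat_lit 73755) (nat_lit 8) (.e (nat_lit 557090) (nat_lit 12) (.e (nat_lit 164007) (nat_lit 41) (.e (nat_lit 671488) (nat_lit 0) (.e (nat_lit 1238) (nat_lit 91) .nil)))))))) (.g (nat_lit 4) .nil .nil))) 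
(.lf (nat_lit 218418) (.g (nat_lit 2234) (.e (nat_lit 90172) (nat_lit 14) (.e (nat_lit 180278) (nat_lit 32) (.e (nat_lit 1235) (nat_lit 91) (.e (nat_lit 90134) (nat_lit 9) (.e (nat_lit 140) (nat_lit 8) (.e (nat_lit 147494) (nat_lit 11) (.e (nat_lit 24602) (nat_lit 2) .nil))))))) (.g (nat_lit 4) .nil .nil))))) (.nd (nat_lit 4) (.nd (nat_lit 5) 
(.lf (nat_lit 218378) (.g (nat_lit 3343) (.e (nat_lit 90172) (nat_lit 14) (.e (nat_lit 180250) (nat_lit 10) (.e (nat_lit 573489) (nat_lit 14) (.e (nat_lit 73755) (nat_lit 8) (.e (nat_lit 557090) (nat_lit 12) .nil))))) .nil)) 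
(.lf (nat_lit 218410) (.g (nat_lit 1878) (.e (nat_lit 90172) (nat_lit 14) (.e (nat_lit 180278) (nat_lit 32) (.e (nat_lit 1234) (nat_lit 91) (.e (nat_lit 90170) (nat_lit 13) (.e (nat_lit 172037) (nat_lit 0) .nil))))) .nil))) (.nd (nat_lit 5) 
(.lf (nat_lit 218394) (.g (nat_lit 2472) (.e (nat_lit 90172) (nat_lit 14) (.e (nat_lit 180250) (nat_lit 10) (.e (nat_lit 573489) (nat_lit 14) (.e (nat_lit 73755) (nat_lit 8) (.e (nat_lit 557119) (nat_lit 18) .nil))))) .nil)) 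
(.lf (nat_lit 218426) (.g (nat_lit 1929) (.e (nat_lit 90172) (nat_lit 14) (.e (nat_lit 180278) (nat_lit 32) (.e (nat_lit 1235) (nat_lit 91) (.e (nat_lit 90174) (nat_lit 14) (.e (nat_lit 188160) (nat_lit 32) (.e (nat_lit 1227) (nat_lit 91) .nil)))))) (.g (nat_lit 4) .nil .nil)))))) (.nd (nat_lit 3) (.nd (nat_lit 4) (.nd (nat_lit 5) 
(.lf (nat_lit 218374) (.g (nat_lit 1619) (.e (nat_lit 90172) (nat_lit 14) (.e (nat_lit 180250) (nat_lit 10) (.e (nat_lit 573489) (nat_lit 14) (.e (nat_lit 73754) (nat_lit 8) .nil)))) .nil)) 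
(.lf (nat_lit 218406) (.g (nat_lit 1562) (.e (nat_lit 90172) (nat_lit 14) (.e (nat_lit 180277) (nat_lit 32) (.e (nat_lit 1235) (nat_lit 91) (.e (nat_lit 90174) (nat_lit 14) (.e (nat_lit 180277) (nat_lit 32) .nil))))) .nil))) (.nd (nat_lit 5) 
(.lf (nat_lit 218390) (.g (nat_lit 3413) (.e (nat_lit 90172) (nat_lit 14) (.e (nat_lit 180250) (nat_lit 10) (.e (nat_lit 573489) (nat_lit 14) (.e (nat_lit 73755) (nat_lit 8) (.e (nat_lit 557091) (nat_lit 12) (.e (nat_lit 164005) (nat_lit 41) (.e (nat_lit 671488) (nat_lit 0) (.e (nat_lit 1238) (nat_lit 91) .nil)))))))) (.g (nat_lit 4) .nil .nil))) 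
(.lf (nat_lit 218422) (.g (nat_lit 4099) (.e (nat_lit 90172) (nat_lit 14) (.e (nat_lit 180278) (nat_lit 32) (.e (nat_lit 1235) (nat_lit 91) (.e (nat_lit 90170) (nat_lit 13) (.e (nat_lit 172126) (nat_lit 14) (.e (nat_lit 491537) (nat_lit 2) .nil)))))) (.g (nat_lit 0) .nil .nil))))) (.nd (nat_lit 4) (.nd (nat_lit 5) 
(.lf (nat_lit 218382) (.g (nat_lit 3485) (.e (nat_lit 90172) (nat_lit 14) (.e (nat_lit 180250) (nat_lit 10) (.e (nat_lit 573489) (nat_lit 14) (.e (nat_lit 73755) (nat_lit 8) (.e (nat_lit 557090) (nat_lit 12) (.e (nat_lit 164006) (nat_lit 41) (.e (nat_lit 663559) (nat_lit 0) (.e (nat_lit 1238) (nat_lit 91) .nil)))))))) (.g (nat_lit 4) .nil .nil))) 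
(.lf (nat_lit 218414) (.g (nat_lit 2657) (.e (nat_lit 90172) (nat_lit 14) (.e (nat_lit 180278) (nat_lit 32) (.e (nat_lit 1234) (nat_lit 91) (.e (nat_lit 90172) (nat_lit 14) (.e (nat_lit 188160) (nat_lit 32) (.e (nat_lit 1238) (nat_lit 91) .nil)))))) (.g (nat_lit 4) .nil .nil)))) (.nd (nat_lit 5) 
(.lf (nat_lit 218398) (.g (nat_lit 3008) (.e (nat_lit 90172) (nat_lit 14) (.e (nat_lit 180251) (nat_lit 10) (.e (nat_lit 573489) (nat_lit 14) (.e (nat_lit 73755) (nat_lit 8) (.e (nat_lit 557091) (nat_lit 12) (.e (nat_lit 164006) (nat_lit 41) (.e (nat_lit 671488) (nat_lit 0) (.e (nat_lit 1238) (nat_lit 91) .nil)))))))) (.g (nat_lit 5) .nil .nil))) 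
(.lf (nat_lit 218430) (.g (nat_lit 377) (.e (nat_lit 90172) (nat_lit 14) (.e (nat_lit 180278) (nat_lit 32) (.e (nat_lit 1252) (nat_lit 92) .nil))) .nil))))))) (.nd (nat_lit 1) (.nd (nat_lit 2) (.nd (nat_lit 3) (.nd (nat_lit 4) (.nd (nat_lit 5) 
(.lf (nat_lit 218369) (.g (nat_lit 3700) (.e (nat_lit 90172) (nat_lit 14) (.e (nat_lit 180250) (nat_lit 10) (.e (nat_lit 573488) (nat_lit 14) (.e (nat_lit 73755) (nat_lit 8) (.e (nat_lit 557090) (nat_lit 12) (.e (nat_lit 164008) (nat_lit 41) (.e (nat_lit 671488) (nat_lit 0) (.e (nat_lit 1238) (nat_lit 91) .nil)))))))) (.g (nat_lit 4) .nil .nil))) 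
(.lf (nat_lit 218401) (.g (nat_lit 2072) (.e (nat_lit 90172) (nat_lit 14) (.e (nat_lit 180261) (nat_lit 20) (.e (nat_lit 655378) (nat_lit 4) (.e (nat_lit 172076) (nat_lit 6) (.e (nat_lit 254002) (nat_lit 13) (.e (nat_lit 122971) (nat_lit 48) (.e (nat_lit 720937) (nat_lit 22) .nil))))))) (.g (nat_lit 4) .nil .nil)))) (.nd (nat_lit 5) 
(.lf (nat_lit 218385) (.g (nat_lit 3804) (.e (nat_lit 90172) (nat_lit 14) (.e (nat_lit 180250) (nat_lit 10) (.e (nat_lit 573489) (nat_lit 14) (.e (nat_lit 73755) (nat_lit 8) (.e (nat_lit 557090) (nat_lit 12) (.e (nat_lit 164007) (nat_lit 41) (.e (nat_lit 663560) (nat_lit 0) (.e (nat_lit 1238) (nat_lit 91) .nil)))))))) (.g (nat_lit 4) .nil .nil))) 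
(.lf (nat_lit 218417) (.g (nat_lit 387) (.e (nat_lit 90172) (nat_lit 14) (.e (nat_lit 180278) (nat_lit 32) (.e (nat_lit 1235) (nat_lit 91) .nil))) .nil)))) (.nd (nat_lit 4) (.nd (nat_lit 5) 
(.lf (nat_lit 218377) (.g (nat_lit 3242) (.e (nat_lit 90172) (nat_lit 14) (.e (nat_lit 180250) (nat_lit 10) (.e (nat_lit 573489) (nat_lit 14) (.e (nat_lit 73755) (nat_lit 8) (.e (nat_lit 557089) (nat_lit 12) (.e (nat_lit 164007) (nat_lit 41) (.e (nat_lit 663560) (nat_lit 0) (.e (nat_lit 1238) (nat_lit 91) .nil)))))))) (.g (nat_lit 4) .nil .nil))) 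
(.lf (nat_lit 218409) (.g (nat_lit 407) (.e (nat_lit 90172) (nat_lit 14) (.e (nat_lit 180278) (nat_lit 32) (.e (nat_lit 1234) (nat_lit 91) .nil))) .nil))) (.nd (nat_lit 5) 
(.lf (nat_lit 218393) (.g (nat_lit 3472) (.e (nat_lit 90172) (nat_lit 14) (.e (nat_lit 180250) (nat_lit 10) (.e (nat_lit 573489) (nat_lit 14) (.e (nat_lit 73755) (nat_lit 8) (.e (nat_lit 557111) (nat_lit 16) .nil))))) .nil)) 
(.lf (nat_lit 218425) (.g (nat_lit 1537) (.e (nat_lit 90172) (nat_lit 14) (.e (nat_lit 180278) (nat_lit 32) (.e (nat_lit 1235) (nat_lit 91) (.e (nat_lit 90174) (nat_lit 14) (.e (nat_lit 188160) (nat_lit 32) .nil))))) .nil))))) (.nd (nat_lit 3) (.nd (nat_lit 4) (.nd (nat_lit 5) 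
(.lf (nat_lit 218373) (.g (nat_lit 2971) (.e (nat_lit 90172) (nat_lit 14) (.e (nat_lit 180250) (nat_lit 10) (.e (nat_lit 573488) (nat_lit 14) (.e (nat_lit 73755) (nat_lit 8) (.e (nat_lit 557111) (nat_lit 16) .nil))))) .nil)) 
(.lf (nat_lit 218405) (.g (nat_lit 497) (.e (nat_lit 90172) (nat_lit 14) (.e (nat_lit 180277) (nat_lit 32) (.e (nat_lit 1235) (nat_lit 91) .nil))) .nil))) (.nd (nat_lit 5) 
(.lf (nat_lit 218389) (.g (nat_lit 2298) (.e (nat_lit 90172) (nat_lit 14) (.e (nat_lit 180250) (nat_lit 10) (.e (nat_lit 573489) (nat_lit 14) (.e (nat_lit 73755) (nat_lit 8) (.e (nat_lit 557091) (nat_lit 12) .nil))))) .nil)) 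
(.lf (nat_lit 218421) (.g (nat_lit 3667) (.e (nat_lit 90172) (nat_lit 14) (.e (nat_lit 180278) (nat_lit 32) (.e (nat_lit 1235) (nat_lit 91) (.e (nat_lit 90170) (nat_lit 13) (.e (nat_lit 172124) (nat_lit 14) (.e (nat_lit 491537) (nat_lit 2) .nil)))))) (.g (nat_lit 0) .nil .nil))))) (.nd (nat_lit 4) (.nd (nat_lit 5) 
(.lf (nat_lit 218381) (.g (nat_lit 4248) (.e (nat_lit 90172) (nat_lit 14) (.e (nat_lit 180250) (nat_lit 10) (.e (nat_lit 573489) (nat_lit 14) (.e (nat_lit 73755) (nat_lit 8) (.e (nat_lit 557090) (nat_lit 12) (.e (nat_lit 164005) (nat_lit 41) (.e (nat_lit 671488) (nat_lit 0) (.e (nat_lit 1238) (nat_lit 91) .nil)))))))) (.g (nat_lit 4) .nil .nil))) 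
(.lf (nat_lit 218413) (.g (nat_lit 2499) (.e (nat_lit 90172) (nat_lit 14) (.e (nat_lit 180278) (nat_lit 32) (.e (nat_lit 1234) (nat_lit 91) (.e (nat_lit 90172) (nat_lit 14) (.e (nat_lit 188160) (nat_lit 32) (.e (nat_lit 1228) (nat_lit 91) .nil)))))) (.g (nat_lit 4) .nil .nil)))) (.nd (nat_lit 5) 
(.lf (nat_lit 218397) (.g (nat_lit 1785) (.e (nat_lit 90172) (nat_lit 14) (.e (nat_lit 180251) (nat_lit 10) (.e (nat_lit 573489) (nat_lit 14) (.e (nat_lit 73755) (nat_lit 8) (.e (nat_lit 557091) (nat_lit 12) .nil))))) .nil)) 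
(.lf (nat_lit 218429) (.g (nat_lit 1806) (.e (nat_lit 90172) (nat_lit 14) (.e (nat_lit 180278) (nat_lit 32) (.e (nat_lit 1235) (nat_lit 91) (.e (nat_lit 90185) (nat_lit 17) (.e (nat_lit 237625) (nat_lit 14) .nil))))) .nil)))))) (.nd (nat_lit 2) (.nd (nat_lit 3) (.nd (nat_lit 4) (.nd (nat_lit 5) 
(.lf (nat_lit 218371) (.g (nat_lit 3660) (.e (nat_lit 90172) (nat_lit 14) (.e (nat_lit 180250) (nat_lit 10) (.e (nat_lit 573488) (nat_lit 14) (.e (nat_lit 73755) (nat_lit 8) (.e (nat_lit 557091) (nat_lit 12) (.e (nat_lit 164006) (nat_lit 41) (.e (nat_lit 671488) (nat_lit 0) (.e (nat_lit 1238) (nat_lit 91) .nil)))))))) (.g (nat_lit 4) .nil .nil))) 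
(.lf (nat_lit 218403) (.g (nat_lit 736) (.e (nat_lit 90172) (nat_lit 14) (.e (nat_lit 180276) (nat_lit 32) (.e (nat_lit 1074) (nat_lit 81) (.e (nat_lit 1796) (nat_lit 119) (.e (nat_lit 516172) (nat_lit 13) .nil))))) .nil))) (.nd (nat_lit 5) 
(.lf (nat_lit 218387) (.g (nat_lit 4457) (.e (nat_lit 90172) (nat_lit 14) (.e (nat_lit 180250) (nat_lit 10) (.e (nat_lit 573489) (nat_lit 14) (.e (nat_lit 73755) (nat_lit 8) (.e (nat_lit 557090) (nat_lit 12) (.e (nat_lit 164008) (nat_lit 41) (.e (nat_lit 671488) (nat_lit 0) (.e (nat_lit 1238) (nat_lit 91) .nil)))))))) (.g (nat_lit 4) .nil .nil))) 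
(.lf (nat_lit 218419) (.g (nat_lit 1555) (.e (nat_lit 90172) (nat_lit 14) (.e (nat_lit 180278) (nat_lit 32) (.e (nat_lit 1235) (nat_lit 91) (.e (nat_lit 90134) (nat_lit 9) (.e (nat_lit 2873) (nat_lit 184) .nil))))) .nil)))) (.nd (nat_lit 4) (.nd (nat_lit 5) 
(.lf (nat_lit 218379) (.g (nat_lit 4243) (.e (nat_lit 90172) (nat_lit 14) (.e (nat_lit 180250) (nat_lit 10) (.e (nat_lit 573489) (nat_lit 14) (.e (nat_lit 73755) (nat_lit 8) (.e (nat_lit 557090) (nat_lit 12) (.e (nat_lit 164004) (nat_lit 41) (.e (nat_lit 671488) (nat_lit 0) (.e (nat_lit 1238) (nat_lit 91) .nil)))))))) (.g (nat_lit 4) .nil .nil))) 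
(.lf (nat_lit 218411) (.g (nat_lit 2379) (.e (nat_lit 90172) (nat_lit 14) (.e (nat_lit 180278) (nat_lit 32) (.e (nat_lit 1234) (nat_lit 91) (.e (nat_lit 90172) (nat_lit 14) (.e (nat_lit 188160) (nat_lit 32) .nil))))) .nil))) (.nd (nat_lit 5) 
(.lf (nat_lit 218395) (.g (nat_lit 2650) (.e (nat_lit 90172) (nat_lit 14) (.e (nat_lit 180251) (nat_lit 10) (.e (nat_lit 573489) (nat_lit 14) (.e (nat_lit 73755) (nat_lit 8) (.e (nat_lit 557089) (nat_lit 12) (.e (nat_lit 164010) (nat_lit 41) (.e (nat_lit 671488) (nat_lit 0) (.e (nat_lit 1238) (nat_lit 91) .nil)))))))) (.g (nat_lit 4) .nil .nil))) 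
(.lf (nat_lit 218427) (.g (nat_lit 2020) (.e (nat_lit 90172) (nat_lit 14) (.e (nat_lit 180278) (nat_lit 32) (.e (nat_lit 1235) (nat_lit 91) (.e (nat_lit 90174) (nat_lit 14) (.e (nat_lit 188160) (nat_lit 32) (.e (nat_lit 1228) (nat_lit 91) .nil)))))) (.g (nat_lit 4) .nil .nil)))))) (.nd (nat_lit 3) (.nd (nat_lit 4) (.nd (nat_lit 5) 
(.lf (nat_lit 218375) (.g (nat_lit 1378) (.e (nat_lit 90172) (nat_lit 14) (.e (nat_lit 180250) (nat_lit 10) (.e (nat_lit 573489) (nat_lit 14) (.e (nat_lit 73755) (nat_lit 8) .nil)))) .nil)) 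
(.lf (nat_lit 218407) (.g (nat_lit 497) (.e (nat_lit 90172) (nat_lit 14) (.e (nat_lit 180277) (nat_lit 32) (.e (nat_lit 1253) (nat_lit 92) .nil))) .nil))) (.nd (nat_lit 5) 
(.lf (nat_lit 218391) (.g (nat_lit 3225) (.e (nat_lit 90172) (nat_lit 14) (.e (nat_lit 180250) (nat_lit 10) (.e (nat_lit 573489) (nat_lit 14) (.e (nat_lit 73755) (nat_lit 8) (.e (nat_lit 557091) (nat_lit 12) (.e (nat_lit 164007) (nat_lit 41) (.e (nat_lit 671488) (nat_lit 0) (.e (nat_lit 1238) (nat_lit 91) .nil)))))))) (.g (nat_lit 4) .nil .nil))) 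
(.lf (nat_lit 218423) (.g (nat_lit 3042) (.e (nat_lit 90172) (nat_lit 14) (.e (nat_lit 180278) (nat_lit 32) (.e (nat_lit 1235) (nat_lit 91) (.e (nat_lit 90172) (nat_lit 14) (.e (nat_lit 180278) (nat_lit 32) (.e (nat_lit 1235) (nat_lit 91) .nil)))))) (.g (nat_lit 0) .nil .nil))))) (.nd (nat_lit 4) (.nd (nat_lit 5) 
(.lf (nat_lit 218383) (.g (nat_lit 3347) (.e (nat_lit 90172) (nat_lit 14) (.e (nat_lit 180250) (nat_lit 10) (.e (nat_lit 573489) (nat_lit 14) (.e (nat_lit 73755) (nat_lit 8) (.e (nat_lit 557090) (nat_lit 12) (.e (nat_lit 164006) (nat_lit 41) (.e (nat_lit 671488) (nat_lit 0) (.e (nat_lit 1228) (nat_lit 91) .nil)))))))) (.g (nat_lit 4) .nil .nil))) 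
(.lf (nat_lit 218415) (.g (nat_lit 2579) (.e (nat_lit 90172) (nat_lit 14) (.e (nat_lit 180278) (nat_lit 32) (.e (nat_lit 1234) (nat_lit 91) (.e (nat_lit 90174) (nat_lit 14) (.e (nat_lit 180277) (nat_lit 32) .nil))))) .nil))) (.nd (nat_lit 5) 
(.lf (nat_lit 218399) (.g (nat_lit 2071) (.e (nat_lit 90172) (nat_lit 14) (.e (nat_lit 180252) (nat_lit 10) (.e (nat_lit 573489) (nat_lit 14) (.e (nat_lit 73755) (nat_lit 8) (.e (nat_lit 557090) (nat_lit 12) .nil))))) .nil)) 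
(.lf (nat_lit 218431) (.g (nat_lit 1539) (.e (nat_lit 90172) (nat_lit 14) (.e (nat_lit 180278) (nat_lit 32) (.e (nat_lit 1252) (nat_lit 92) (.e (nat_lit 98359) (nat_lit 26) (.e (nat_lit 426338) (nat_lit 14) .nil))))) .nil))))))))

noncomputable def tv2871 : DT := (.nd (nat_lit 0) (.nd (nat_lit 1) (.nd (nat_lit 2) (.nd (nat_lit 3) (.nd (nat_lit 4) (.nd (nat_lit 5) 
(.lf (nat_lit 218432) (.g (nat_lit 1528) (.e (nat_lit 90172) (nat_lit 14) (.e (nat_lit 180278) (nat_lit 32) (.e (nat_lit 1252) (nat_lit 92) (.e (nat_lit 98368) (nat_lit 27) (.e (nat_lit 442112) (nat_lit 0) (.e (nat_lit 1228) (nat_lit 91) .nil)))))) (.g (nat_lit 4) .nil .nil))) 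
(.lf (nat_lit 218464) (.g (nat_lit 1108) (.e (nat_lit 90172) (nat_lit 14) (.e (nat_lit 180285) (nat_lit 45) (.e (nat_lit 2570) (nat_lit 160) (.e (nat_lit 32807) (nat_lit 18) (.e (nat_lit 172035) (nat_lit 0) (.e (nat_lit 7936) (nat_lit 402) (.e (nat_lit 1227) (nat_lit 91) .nil))))))) (.g (nat_lit 5) .nil .nil)))) (.nd (nat_lit 5) 
(.lf (nat_lit 218448) (.g (nat_lit 921) (.e (nat_lit 90172) (nat_lit 14) (.e (nat_lit 180285) (nat_lit 45) (.e (nat_lit 2569) (nat_lit 160) (.e (nat_lit 32807) (nat_lit 18) (.e (nat_lit 172034) (nat_lit 0) (.e (nat_lit 7936) (nat_lit 402) (.e (nat_lit 1227) (nat_lit 91) .nil))))))) (.g (nat_lit 4) .nil .nil))) 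
(.lf (nat_lit 218480) (.g (nat_lit 858) (.e (nat_lit 90172) (nat_lit 14) (.e (nat_lit 180285) (nat_lit 45) (.e (nat_lit 2571) (nat_lit 160) (.e (nat_lit 32807) (nat_lit 18) (.e (nat_lit 172038) (nat_lit 0) (.e (nat_lit 7936) (nat_lit 402) (.e (nat_lit 1238) (nat_lit 91) .nil))))))) (.g (nat_lit 4) .nil .nil))))) (.nd (nat_lit 4) (.nd (nat_lit 5) 
(.lf (nat_lit 218440) (.g (nat_lit 1894) (.e (nat_lit 90172) (nat_lit 14) (.e (nat_lit 188160) (nat_lit 33) (.e (nat_lit 8228) (nat_lit 15) (.e (nat_lit 532504) (nat_lit 1) (.e (nat_lit 57730) (nat_lit 181) (.e (nat_lit 1294) (nat_lit 96) (.e (nat_lit 131092) (nat_lit 2) .nil))))))) (.g (nat_lit 4) .nil .nil))) 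
(.lf (nat_lit 218472) (.g (nat_lit 1152) (.e (nat_lit 90172) (nat_lit 14) (.e (nat_lit 180285) (nat_lit 45) (.e (nat_lit 2570) (nat_lit 160) (.e (nat_lit 32807) (nat_lit 18) (.e (nat_lit 172049) (nat_lit 0) (.e (nat_lit 7936) (nat_lit 402) (.e (nat_lit 1227) (nat_lit 91) .nil))))))) (.g (nat_lit 5) .nil .nil)))) (.nd (nat_lit 5) 
(.lf (nat_lit 218456) (.g (nat_lit 864) (.e (nat_lit 90172) (nat_lit 14) (.e (nat_lit 180285) (nat_lit 45) (.e (nat_lit 2569) (nat_lit 160) (.e (nat_lit 32807) (nat_lit 18) (.e (nat_lit 172039) (nat_lit 0) (.e (nat_lit 7936) (nat_lit 402) (.e (nat_lit 1238) (nat_lit 91) .nil))))))) (.g (nat_lit 4) .nil .nil))) 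
(.lf (nat_lit 218488) (.g (nat_lit 583) (.e (nat_lit 90172) (nat_lit 14) (.e (nat_lit 180285) (nat_lit 45) (.e (nat_lit 2571) (nat_lit 160) (.e (nat_lit 32807) (nat_lit 18) (.e (nat_lit 172054) (nat_lit 0) .nil))))) .nil))))) (.nd (nat_lit 3) (.nd (nat_lit 4) (.nd (nat_lit 5) 
(.lf (nat_lit 218436) (.g (nat_lit 855) (.e (nat_lit 90172) (nat_lit 14) (.e (nat_lit 180278) (nat_lit 32) (.e (nat_lit 1253) (nat_lit 92) (.e (nat_lit 98376) (nat_lit 30) .nil)))) .nil)) 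
(.lf (nat_lit 218468) (.g (nat_lit 860) (.e (nat_lit 90172) (nat_lit 14) (.e (nat_lit 180285) (nat_lit 45) (.e (nat_lit 2570) (nat_lit 160) (.e (nat_lit 32807) (nat_lit 18) (.e (nat_lit 172039) (nat_lit 0) (.e (nat_lit 7936) (nat_lit 402) (.e (nat_lit 1228) (nat_lit 91) .nil))))))) (.g (nat_lit 4) .nil .nil)))) (.nd (nat_lit 5) 
(.lf (nat_lit 218452) (.g (nat_lit 968) (.e (nat_lit 90172) (nat_lit 14) (.e (nat_lit 180285) (nat_lit 45) (.e (nat_lit 2569) (nat_lit 160) (.e (nat_lit 32807) (nat_lit 18) (.e (nat_lit 172038) (nat_lit 0) (.e (nat_lit 7936) (nat_lit 402) (.e (nat_lit 1228) (nat_lit 91) .nil))))))) (.g (nat_lit 4) .nil .nil))) 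
(.lf (nat_lit 218484) (.g (nat_lit 835) (.e (nat_lit 90172) (nat_lit 14) (.e (nat_lit 180285) (nat_lit 45) (.e (nat_lit 2571) (nat_lit 160) (.e (nat_lit 32807) (nat_lit 18) (.e (nat_lit 172045) (nat_lit 0) (.e (nat_lit 7936) (nat_lit 402) (.e (nat_lit 1228) (nat_lit 91) .nil))))))) (.g (nat_lit 4) .nil .nil))))) (.nd (nat_lit 4) (.nd (nat_lit 5) 
(.lf (nat_lit 218444) (.g (nat_lit 1474) (.e (nat_lit 90172) (nat_lit 14) (.e (nat_lit 188160) (nat_lit 35) (.e (nat_lit 57464) (nat_lit 23) (.e (nat_lit 516160) (nat_lit 10) (.e (nat_lit 442112) (nat_lit 0) (.e (nat_lit 1228) (nat_lit 91) .nil)))))) (.g (nat_lit 4) .nil .nil))) 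
(.lf (nat_lit 218476) (.g (nat_lit 1114) (.e (nat_lit 90172) (nat_lit 14) (.e (nat_lit 180285) (nat_lit 45) (.e (nat_lit 2571) (nat_lit 160) (.e (nat_lit 32807) (nat_lit 18) (.e (nat_lit 172035) (nat_lit 0) (.e (nat_lit 7936) (nat_lit 402) (.e (nat_lit 1227) (nat_lit 91) .nil))))))) (.g (nat_lit 5) .nil .nil)))) (.nd (nat_lit 5) 
(.lf (nat_lit 218460) (.g (nat_lit 1233) (.e (nat_lit 90172) (nat_lit 14) (.e (nat_lit 180285) (nat_lit 45) (.e (nat_lit 2569) (nat_lit 160) (.e (nat_lit 32807) (nat_lit 18) (.e (nat_lit 172049) (nat_lit 0) (.e (nat_lit 7936) (nat_lit 402) (.e (nat_lit 1227) (nat_lit 91) .nil))))))) (.g (nat_lit 5) .nil .nil))) 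
(.lf (nat_lit 218492) (.g (nat_lit 1750) (.e (nat_lit 90173) (nat_lit 14) (.e (nat_lit 180243) (nat_lit 5) (.e (nat_lit 532499) (nat_lit 1) (.e (nat_lit 57692) (nat_lit 156) .nil)))) .nil)))))) (.nd (nat_lit 2) (.nd (nat_lit 3) (.nd (nat_lit 4) (.nd (nat_lit 5) 
(.lf (nat_lit 218434) (.g (nat_lit 1879) (.e (nat_lit 90172) (nat_lit 14) (.e (nat_lit 180278) (nat_lit 32) (.e (nat_lit 1253) (nat_lit 92) (.e (nat_lit 98358) (nat_lit 26) (.e (nat_lit 425988) (nat_lit 0) .nil))))) .nil)) 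
(.lf (nat_lit 218466) (.g (nat_lit 911) (.e (nat_lit 90172) (nat_lit 14) (.e (nat_lit 180285) (nat_lit 45) (.e (nat_lit 2570) (nat_lit 160) (.e (nat_lit 32807) (nat_lit 18) (.e (nat_lit 172038) (nat_lit 0) (.e (nat_lit 7936) (nat_lit 402) (.e (nat_lit 1228) (nat_lit 91) .nil))))))) (.g (nat_lit 4) .nil .nil)))) (.nd (nat_lit 5) 
(.lf (nat_lit 218450) (.g (nat_lit 1131) (.e (nat_lit 90172) (nat_lit 14) (.e (nat_lit 180285) (nat_lit 45) (.e (nat_lit 2569) (nat_lit 160) (.e (nat_lit 32807) (nat_lit 18) (.e (nat_lit 172036) (nat_lit 0) (.e (nat_lit 7936) (nat_lit 402) (.e (nat_lit 1227) (nat_lit 91) .nil))))))) (.g (nat_lit 5) .nil .nil))) 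
(.lf (nat_lit 218482) (.g (nat_lit 867) (.e (nat_lit 90172) (nat_lit 14) (.e (nat_lit 180285) (nat_lit 45) (.e (nat_lit 2571) (nat_lit 160) (.e (nat_lit 32807) (nat_lit 18) (.e (nat_lit 172039) (nat_lit 0) (.e (nat_lit 7936) (nat_lit 402) (.e (nat_lit 1228) (nat_lit 91) .nil))))))) (.g (nat_lit 4) .nil .nil))))) (.nd (nat_lit 4) (.nd (nat_lit 5) 
(.lf (nat_lit 218442) (.g (nat_lit 2032) (.e (nat_lit 90172) (nat_lit 14) (.e (nat_lit 188160) (nat_lit 34) (.e (nat_lit 16388) (nat_lit 0) (.e (nat_lit 3499) (nat_lit 218) (.e (nat_lit 704738) (nat_lit 11) (.e (nat_lit 24320) (nat_lit 17) .nil)))))) (.g (nat_lit 5) .nil .nil))) 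
(.lf (nat_lit 218474) (.g (nat_lit 151) (.e (nat_lit 90172) (nat_lit 14) (.e (nat_lit 180285) (nat_lit 45) (.e (nat_lit 2571) (nat_lit 160) .nil))) .nil))) (.nd (nat_lit 5) 
(.lf (nat_lit 218458) (.g (nat_lit 885) (.e (nat_lit 90172) (nat_lit 14) (.e (nat_lit 180285) (nat_lit 45) (.e (nat_lit 2569) (nat_lit 160) (.e (nat_lit 32807) (nat_lit 18) (.e (nat_lit 172045) (nat_lit 0) (.e (nat_lit 7936) (nat_lit 402) (.e (nat_lit 1228) (nat_lit 91) .nil))))))) (.g (nat_lit 4) .nil .nil))) 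
(.lf (nat_lit 218490) (.g (nat_lit 2018) (.e (nat_lit 90173) (nat_lit 14) (.e (nat_lit 180242) (nat_lit 5) (.e (nat_lit 532503) (nat_lit 1) (.e (nat_lit 57688) (nat_lit 156) (.e (nat_lit 163843) (nat_lit 0) .nil))))) .nil))))) (.nd (nat_lit 3) (.nd (nat_lit 4) (.nd (nat_lit 5) 
(.lf (nat_lit 218438) (.g (nat_lit 1757) (.e (nat_lit 90172) (nat_lit 14) (.e (nat_lit 188160) (nat_lit 33) (.e (nat_lit 8228) (nat_lit 15) (.e (nat_lit 532501) (nat_lit 1) (.e (nat_lit 57730) (nat_lit 181) (.e (nat_lit 1294) (nat_lit 96) (.e (nat_lit 131092) (nat_lit 2) .nil))))))) (.g (nat_lit 4) .nil .nil))) 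
(.lf (nat_lit 218470) (.g (nat_lit 828) (.e (nat_lit 90172) (nat_lit 14) (.e (nat_lit 180285) (nat_lit 45) (.e (nat_lit 2570) (nat_lit 160) (.e (nat_lit 32807) (nat_lit 18) (.e (nat_lit 172045) (nat_lit 0) (.e (nat_lit 7936) (nat_lit 402) (.e (nat_lit 1228) (nat_lit 91) .nil))))))) (.g (nat_lit 4) .nil .nil)))) (.nd (nat_lit 5) 
(.lf (nat_lit 218454) (.g (nat_lit 690) (.e (nat_lit 90172) (nat_lit 14) (.e (nat_lit 180285) (nat_lit 45) (.e (nat_lit 2569) (nat_lit 160) (.e (nat_lit 32807) (nat_lit 18) (.e (nat_lit 172039) (nat_lit 0) (.e (nat_lit 7936) (nat_lit 402) (.e (nat_lit 1227) (nat_lit 91) .nil))))))) (.g (nat_lit 4) .nil .nil))) 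
(.lf (nat_lit 218486) (.g (nat_lit 1172) (.e (nat_lit 90172) (nat_lit 14) (.e (nat_lit 180285) (nat_lit 45) (.e (nat_lit 2571) (nat_lit 160) (.e (nat_lit 32807) (nat_lit 18) (.e (nat_lit 172049) (nat_lit 0) (.e (nat_lit 7936) (nat_lit 402) (.e (nat_lit 1227) (nat_lit 91) .nil))))))) (.g (nat_lit 5) .nil .nil))))) (.nd (nat_lit 4) (.nd (nat_lit 5) 
(.lf (nat_lit 218446) (.g (nat_lit 2303) (.e (nat_lit 90172) (nat_lit 14) (.e (nat_lit 188160) (nat_lit 40) (.e (nat_lit 2685) (nat_lit 168) (.e (nat_lit 204846) (nat_lit 24) (.e (nat_lit 319511) (nat_lit 10) (.e (nat_lit 5293) (nat_lit 298) (.e (nat_lit 1232) (nat_lit 91) .nil))))))) (.g (nat_lit 5) .nil .nil))) 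
(.lf (nat_lit 218478) (.g (nat_lit 677) (.e (nat_lit 90172) (nat_lit 14) (.e (nat_lit 180285) (nat_lit 45) (.e (nat_lit 2571) (nat_lit 160) (.e (nat_lit 32807) (nat_lit 18) (.e (nat_lit 172038) (nat_lit 0) (.e (nat_lit 7936) (nat_lit 402) (.e (nat_lit 1227) (nat_lit 91) .nil))))))) (.g (nat_lit 4) .nil .nil)))) (.nd (nat_lit 5) 
(.lf (nat_lit 218462) (.g (nat_lit 147) (.e (nat_lit 90172) (nat_lit 14) (.e (nat_lit 180285) (nat_lit 45) (.e (nat_lit 2570) (nat_lit 160) .nil))) .nil)) 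
(.lf (nat_lit 218494) (.g (nat_lit 2381) (.e (nat_lit 90173) (nat_lit 14) (.e (nat_lit 180243) (nat_lit 5) (.e (nat_lit 532503) (nat_lit 1) (.e (nat_lit 57688) (nat_lit 156) (.e (nat_lit 163873) (nat_lit 3) .nil))))) .nil))))))) (.nd (nat_lit 1) (.nd (nat_lit 2) (.nd (nat_lit 3) (.nd (nat_lit 4) (.nd (nat_lit 5) 
(.lf (nat_lit 218433) (.g (nat_lit 386) (.e (nat_lit 90172) (nat_lit 14) (.e (nat_lit 180278) (nat_lit 32) (.e (nat_lit 1253) (nat_lit 92) .nil))) .nil)) 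
(.lf (nat_lit 218465) (.g (nat_lit 671) (.e (nat_lit 90172) (nat_lit 14) (.e (nat_lit 180285) (nat_lit 45) (.e (nat_lit 2570) (nat_lit 160) (.e (nat_lit 32807) (nat_lit 18) (.e (nat_lit 172038) (nat_lit 0) (.e (nat_lit 7936) (nat_lit 402) (.e (nat_lit 1227) (nat_lit 91) .nil))))))) (.g (nat_lit 4) .nil .nil)))) (.nd (nat_lit 5) 
(.lf (nat_lit 218449) (.g (nat_lit 1175) (.e (nat_lit 90172) (nat_lit 14) (.e (nat_lit 180285) (nat_lit 45) (.e (nat_lit 2569) (nat_lit 160) (.e (nat_lit 32807) (nat_lit 18) (.e (nat_lit 172035) (nat_lit 0) (.e (nat_lit 7936) (nat_lit 402) (.e (nat_lit 1227) (nat_lit 91) .nil))))))) (.g (nat_lit 5) .nil .nil))) 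
(.lf (nat_lit 218481) (.g (nat_lit 629) (.e (nat_lit 90172) (nat_lit 14) (.e (nat_lit 180285) (nat_lit 45) (.e (nat_lit 2571) (nat_lit 160) (.e (nat_lit 32807) (nat_lit 18) (.e (nat_lit 172039) (nat_lit 0) (.e (nat_lit 7936) (nat_lit 402) (.e (nat_lit 1227) (nat_lit 91) .nil))))))) (.g (nat_lit 4) .nil .nil))))) (.nd (nat_lit 4) (.nd (nat_lit 5) 
(.lf (nat_lit 218441) (.g (nat_lit 1303) (.e (nat_lit 90172) (nat_lit 14) (.e (nat_lit 188160) (nat_lit 34) (.e (nat_lit 16388) (nat_lit 0) (.e (nat_lit 3499) (nat_lit 218) (.e (nat_lit 704735) (nat_lit 11) (.e (nat_lit 24320) (nat_lit 17) .nil)))))) (.g (nat_lit 5) .nil .nil))) 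
(.lf (nat_lit 218473) (.g (nat_lit 794) (.e (nat_lit 90172) (nat_lit 14) (.e (nat_lit 180285) (nat_lit 45) (.e (nat_lit 2570) (nat_lit 160) (.e (nat_lit 32807) (nat_lit 18) (.e (nat_lit 172052) (nat_lit 0) (.e (nat_lit 7936) (nat_lit 402) (.e (nat_lit 1227) (nat_lit 91) .nil))))))) (.g (nat_lit 4) .nil .nil)))) (.nd (nat_lit 5) 
(.lf (nat_lit 218457) (.g (nat_lit 655) (.e (nat_lit 90172) (nat_lit 14) (.e (nat_lit 180285) (nat_lit 45) (.e (nat_lit 2569) (nat_lit 160) (.e (nat_lit 32807) (nat_lit 18) (.e (nat_lit 172045) (nat_lit 0) (.e (nat_lit 7936) (nat_lit 402) (.e (nat_lit 1227) (nat_lit 91) .nil))))))) (.g (nat_lit 4) .nil .nil))) 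
(.lf (nat_lit 218489) (.g (nat_lit 1395) (.e (nat_lit 90173) (nat_lit 14) (.e (nat_lit 188160) (nat_lit 1) (.e (nat_lit 499900) (nat_lit 7) (.e (nat_lit 24604) (nat_lit 2) (.e (nat_lit 98048) (nat_lit 0) (.e (nat_lit 1281) (nat_lit 94) (.e (nat_lit 114716) (nat_lit 22) .nil))))))) (.g (nat_lit 4) .nil .nil)))))) (.nd (nat_lit 3) (.nd (nat_lit 4) (.nd (nat_lit 5) 
(.lf (nat_lit 218437) (.g (nat_lit 1999) (.e (nat_lit 90172) (nat_lit 14) (.e (nat_lit 188160) (nat_lit 33) (.e (nat_lit 8226) (nat_lit 15) (.e (nat_lit 532499) (nat_lit 1) (.e (nat_lit 57724) (nat_lit 181) (.e (nat_lit 1296) (nat_lit 96) (.e (nat_lit 131094) (nat_lit 2) .nil))))))) (.g (nat_lit 4) .nil .nil))) 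
(.lf (nat_lit 218469) (.g (nat_lit 802) (.e (nat_lit 90172) (nat_lit 14) (.e (nat_lit 180285) (nat_lit 45) (.e (nat_lit 2570) (nat_lit 160) (.e (nat_lit 32807) (nat_lit 18) (.e (nat_lit 172039) (nat_lit 0) (.e (nat_lit 7936) (nat_lit 402) (.e (nat_lit 1238) (nat_lit 91) .nil))))))) (.g (nat_lit 4) .nil .nil)))) (.nd (nat_lit 5) 
(.lf (nat_lit 218453) (.g (nat_lit 911) (.e (nat_lit 90172) (nat_lit 14) (.e (nat_lit 180285) (nat_lit 45) (.e (nat_lit 2569) (nat_lit 160) (.e (nat_lit 32807) (nat_lit 18) (.e (nat_lit 172038) (nat_lit 0) (.e (nat_lit 7936) (nat_lit 402) (.e (nat_lit 1238) (nat_lit 91) .nil))))))) (.g (nat_lit 4) .nil .nil))) 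
(.lf (nat_lit 218485) (.g (nat_lit 775) (.e (nat_lit 90172) (nat_lit 14) (.e (nat_lit 180285) (nat_lit 45) (.e (nat_lit 2571) (nat_lit 160) (.e (nat_lit 32807) (nat_lit 18) (.e (nat_lit 172045) (nat_lit 0) (.e (nat_lit 7936) (nat_lit 402) (.e (nat_lit 1238) (nat_lit 91) .nil))))))) (.g (nat_lit 4) .nil .nil))))) (.nd (nat_lit 4) (.nd (nat_lit 5) 
(.lf (nat_lit 218445) (.g (nat_lit 1210) (.e (nat_lit 90172) (nat_lit 14) (.e (nat_lit 188160) (nat_lit 38) (.e (nat_lit 122936) (nat_lit 23) (.e (nat_lit 516169) (nat_lit 13) (.e (nat_lit 466688) (nat_lit 0) (.e (nat_lit 1227) (nat_lit 91) .nil)))))) (.g (nat_lit 4) .nil .nil))) 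
(.lf (nat_lit 218477) (.g (nat_lit 1062) (.e (nat_lit 90172) (nat_lit 14) (.e (nat_lit 180285) (nat_lit 45) (.e (nat_lit 2571) (nat_lit 160) (.e (nat_lit 32807) (nat_lit 18) (.e (nat_lit 172036) (nat_lit 0) (.e (nat_lit 7936) (nat_lit 402) (.e (nat_lit 1227) (nat_lit 91) .nil))))))) (.g (nat_lit 5) .nil .nil)))) (.nd (nat_lit 5) 
(.lf (nat_lit 218461) (.g (nat_lit 861) (.e (nat_lit 90172) (nat_lit 14) (.e (nat_lit 180285) (nat_lit 45) (.e (nat_lit 2569) (nat_lit 160) (.e (nat_lit 32807) (nat_lit 18) (.e (nat_lit 172052) (nat_lit 0) (.e (nat_lit 7936) (nat_lit 402) (.e (nat_lit 1227) (nat_lit 91) .nil))))))) (.g (nat_lit 4) .nil .nil))) 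
(.lf (nat_lit 218493) (.g (nat_lit 431) (.e (nat_lit 90173) (nat_lit 14) (.e (nat_lit 180243) (nat_lit 5) (.e (nat_lit 532501) (nat_lit 1) .nil))) .nil)))))) (.nd (nat_lit 2) (.nd (nat_lit 3) (.nd (nat_lit 4) (.nd (nat_lit 5) 
(.lf (nat_lit 218435) (.g (nat_lit 1394) (.e (nat_lit 90172) (nat_lit 14) (.e (nat_lit 180278) (nat_lit 32) (.e (nat_lit 1253) (nat_lit 92) (.e (nat_lit 98366) (nat_lit 27) (.e (nat_lit 442112) (nat_lit 0) .nil))))) .nil)) 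
(.lf (nat_lit 218467) (.g (nat_lit 849) (.e (nat_lit 90172) (nat_lit 14) (.e (nat_lit 180285) (nat_lit 45) (.e (nat_lit 2570) (nat_lit 160) (.e (nat_lit 32807) (nat_lit 18) (.e (nat_lit 172038) (nat_lit 0) (.e (nat_lit 7936) (nat_lit 402) (.e (nat_lit 1238) (nat_lit 91) .nil))))))) (.g (nat_lit 4) .nil .nil)))) (.nd (nat_lit 5) 
(.lf (nat_lit 218451) (.g (nat_lit 738) (.e (nat_lit 90172) (nat_lit 14) (.e (nat_lit 180285) (nat_lit 45) (.e (nat_lit 2569) (nat_lit 160) (.e (nat_lit 32807) (nat_lit 18) (.e (nat_lit 172038) (nat_lit 0) (.e (nat_lit 7936) (nat_lit 402) (.e (nat_lit 1227) (nat_lit 91) .nil))))))) (.g (nat_lit 4) .nil .nil))) 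
(.lf (nat_lit 218483) (.g (nat_lit 811) (.e (nat_lit 90172) (nat_lit 14) (.e (nat_lit 180285) (nat_lit 45) (.e (nat_lit 2571) (nat_lit 160) (.e (nat_lit 32807) (nat_lit 18) (.e (nat_lit 172039) (nat_lit 0) (.e (nat_lit 7936) (nat_lit 402) (.e (nat_lit 1238) (nat_lit 91) .nil))))))) (.g (nat_lit 4) .nil .nil))))) (.nd (nat_lit 4) (.nd (nat_lit 5) 
(.lf (nat_lit 218443) (.g (nat_lit 1432) (.e (nat_lit 90172) (nat_lit 14) (.e (nat_lit 188160) (nat_lit 35) (.e (nat_lit 57464) (nat_lit 23) (.e (nat_lit 516160) (nat_lit 10) (.e (nat_lit 442112) (nat_lit 0) (.e (nat_lit 1227) (nat_lit 91) .nil)))))) (.g (nat_lit 4) .nil .nil))) 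
(.lf (nat_lit 218475) (.g (nat_lit 860) (.e (nat_lit 90172) (nat_lit 14) (.e (nat_lit 180285) (nat_lit 45) (.e (nat_lit 2571) (nat_lit 160) (.e (nat_lit 32807) (nat_lit 18) (.e (nat_lit 172034) (nat_lit 0) (.e (nat_lit 7936) (nat_lit 402) (.e (nat_lit 1227) (nat_lit 91) .nil))))))) (.g (nat_lit 4) .nil .nil)))) (.nd (nat_lit 5) 
(.lf (nat_lit 218459) (.g (nat_lit 828) (.e (nat_lit 90172) (nat_lit 14) (.e (nat_lit 180285) (nat_lit 45) (.e (nat_lit 2569) (nat_lit 160) (.e (nat_lit 32807) (nat_lit 18) (.e (nat_lit 172045) (nat_lit 0) (.e (nat_lit 7936) (nat_lit 402) (.e (nat_lit 1238) (nat_lit 91) .nil))))))) (.g (nat_lit 4) .nil .nil))) 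
(.lf (nat_lit 218491) (.g (nat_lit 1790) (.e (nat_lit 90173) (nat_lit 14) (.e (nat_lit 180243) (nat_lit 5) (.e (nat_lit 532499) (nat_lit 1) (.e (nat_lit 57688) (nat_lit 156) .nil)))) .nil))))) (.nd (nat_lit 3) (.nd (nat_lit 4) (.nd (nat_lit 5) 
(.lf (nat_lit 218439) (.g (nat_lit 1452) (.e (nat_lit 90172) (nat_lit 14) (.e (nat_lit 188160) (nat_lit 33) (.e (nat_lit 8228) (nat_lit 15) (.e (nat_lit 532501) (nat_lit 1) (.e (nat_lit 57730) (nat_lit 181) (.e (nat_lit 1297) (nat_lit 96) (.e (nat_lit 131093) (nat_lit 2) .nil))))))) (.g (nat_lit 4) .nil .nil))) 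
(.lf (nat_lit 218471) (.g (nat_lit 766) (.e (nat_lit 90172) (nat_lit 14) (.e (nat_lit 180285) (nat_lit 45) (.e (nat_lit 2570) (nat_lit 160) (.e (nat_lit 32807) (nat_lit 18) (.e (nat_lit 172045) (nat_lit 0) (.e (nat_lit 7936) (nat_lit 402) (.e (nat_lit 1238) (nat_lit 91) .nil))))))) (.g (nat_lit 4) .nil .nil)))) (.nd (nat_lit 5) 
(.lf (nat_lit 218455) (.g (nat_lit 917) (.e (nat_lit 90172) (nat_lit 14) (.e (nat_lit 180285) (nat_lit 45) (.e (nat_lit 2569) (nat_lit 160) (.e (nat_lit 32807) (nat_lit 18) (.e (nat_lit 172039) (nat_lit 0) (.e (nat_lit 7936) (nat_lit 402) (.e (nat_lit 1228) (nat_lit 91) .nil))))))) (.g (nat_lit 4) .nil .nil))) 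
(.lf (nat_lit 218487) (.g (nat_lit 800) (.e (nat_lit 90172) (nat_lit 14) (.e (nat_lit 180285) (nat_lit 45) (.e (nat_lit 2571) (nat_lit 160) (.e (nat_lit 32807) (nat_lit 18) (.e (nat_lit 172052) (nat_lit 0) (.e (nat_lit 7936) (nat_lit 402) (.e (nat_lit 1227) (nat_lit 91) .nil))))))) (.g (nat_lit 4) .nil .nil))))) (.nd (nat_lit 4) (.nd (nat_lit 5) 
(.lf (nat_lit 218447) (.g (nat_lit 190) (.e (nat_lit 90172) (nat_lit 14) (.e (nat_lit 180285) (nat_lit 45) (.e (nat_lit 2569) (nat_lit 160) .nil))) .nil)) 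
(.lf (nat_lit 218479) (.g (nat_lit 918) (.e (nat_lit 90172) (nat_lit 14) (.e (nat_lit 180285) (nat_lit 45) (.e (nat_lit 2571) (nat_lit 160) (.e (nat_lit 32807) (nat_lit 18) (.e (nat_lit 172038) (nat_lit 0) (.e (nat_lit 7936) (nat_lit 402) (.e (nat_lit 1228) (nat_lit 91) .nil))))))) (.g (nat_lit 4) .nil .nil)))) (.nd (nat_lit 5) 
(.lf (nat_lit 218463) (.g (nat_lit 854) (.e (nat_lit 90172) (nat_lit 14) (.e (nat_lit 180285) (nat_lit 45) (.e (nat_lit 2570) (nat_lit 160) (.e (nat_lit 32807) (nat_lit 18) (.e (nat_lit 172034) (nat_lit 0) (.e (nat_lit 7936) (nat_lit 402) (.e (nat_lit 1227) (nat_lit 91) .nil))))))) (.g (nat_lit 4) .nil .nil))) 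
(.lf (nat_lit 218495) (.g (nat_lit 2483) (.e (nat_lit 90173) (nat_lit 14) (.e (nat_lit 180243) (nat_lit 5) (.e (nat_lit 532504) (nat_lit 1) (.e (nat_lit 57691) (nat_lit 156) (.e (nat_lit 163875) (nat_lit 3) .nil))))) .nil))))))))

noncomputable def tv2872 : DT := (.nd (nat_lit 0) (.nd (nat_lit 1) (.nd (nat_lit 2) (.nd (nat_lit 3) (.nd (nat_lit 4) (.nd (nat_lit 5) (.nd (nat_lit 6) 
(.lf (nat_lit 218496) (.g (nat_lit 1584) (.e (nat_lit 90173) (nat_lit 14) (.e (nat_lit 180243) (nat_lit 5) (.e (nat_lit 532504) (nat_lit 1) (.e (nat_lit 57692) (nat_lit 156) .nil)))) .nil)) 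
(.lf (nat_lit 218560) (.g (nat_lit 556) (.e (nat_lit 90173) (nat_lit 14) (.e (nat_lit 180252) (nat_lit 10) (.e (nat_lit 573487) (nat_lit 14) .nil))) .nil))) (.nd (nat_lit 6) 
(.lf (nat_lit 218528) (.g (nat_lit 1588) (.e (nat_lit 90173) (nat_lit 14) (.e (nat_lit 180251) (nat_lit 10) (.e (nat_lit 573489) (nat_lit 14) (.e (nat_lit 73748) (nat_lit 3) .nil)))) .nil)) 
(.lf (nat_lit 218592) (.g (nat_lit 2945) (.e (nat_lit 90173) (nat_lit 14) (.e (nat_lit 180252) (nat_lit 10) (.e (nat_lit 573489) (nat_lit 14) (.e (nat_lit 73755) (nat_lit 8) (.e (nat_lit 557111) (nat_lit 16) .nil))))) .nil)))) (.nd (nat_lit 5) (.nd (nat_lit 6) 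
(.lf (nat_lit 218512) (.g (nat_lit 1735) (.e (nat_lit 90173) (nat_lit 14) (.e (nat_lit 180244) (nat_lit 5) (.e (nat_lit 532503) (nat_lit 1) (.e (nat_lit 57685) (nat_lit 156) (.e (nat_lit 163875) (nat_lit 3) .nil))))) .nil)) 
(.lf (nat_lit 218576) (.g (nat_lit 2354) (.e (nat_lit 90173) (nat_lit 14) (.e (nat_lit 180252) (nat_lit 10) (.e (nat_lit 573489) (nat_lit 14) (.e (nat_lit 73755) (nat_lit 8) (.e (nat_lit 557067) (nat_lit 9) .nil))))) .nil))) (.nd (nat_lit 6) 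
(.lf (nat_lit 218544) (.g (nat_lit 1198) (.e (nat_lit 90173) (nat_lit 14) (.e (nat_lit 180252) (nat_lit 10) (.e (nat_lit 573481) (nat_lit 13) (.e (nat_lit 65568) (nat_lit 2) .nil)))) .nil)) 
(.lf (nat_lit 218608) (.g (nat_lit 1333) (.e (nat_lit 90174) (nat_lit 14) (.e (nat_lit 180225) (nat_lit 0) (.e (nat_lit 5537) (nat_lit 306) (.e (nat_lit 1077) (nat_lit 81) .nil)))) .nil))))) (.nd (nat_lit 4) (.nd (nat_lit 5) (.nd (nat_lit 6) 
(.lf (nat_lit 218504) (.g (nat_lit 3231) (.e (nat_lit 90173) (nat_lit 14) (.e (nat_lit 180244) (nat_lit 5) (.e (nat_lit 532499) (nat_lit 1) (.e (nat_lit 57688) (nat_lit 156) (.e (nat_lit 163875) (nat_lit 3) (.e (nat_lit 204838) (nat_lit 20) (.e (nat_lit 114716) (nat_lit 22) .nil))))))) (.g (nat_lit 4) .nil .nil))) 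
(.lf (nat_lit 218568) (.g (nat_lit 3754) (.e (nat_lit 90173) (nat_lit 14) (.e (nat_lit 180252) (nat_lit 10) (.e (nat_lit 573488) (nat_lit 14) (.e (nat_lit 73747) (nat_lit 3) (.e (nat_lit 516115) (nat_lit 1) (.e (nat_lit 171776) (nat_lit 160) (.e (nat_lit 57373) (nat_lit 2) .nil))))))) (.g (nat_lit 5) .nil .nil)))) (.nd (nat_lit 6) 
(.lf (nat_lit 218536) (.g (nat_lit 1732) (.e (nat_lit 90173) (nat_lit 14) (.e (nat_lit 180251) (nat_lit 10) (.e (nat_lit 573489) (nat_lit 14) (.e (nat_lit 73755) (nat_lit 8) (.e (nat_lit 557091) (nat_lit 12) .nil))))) .nil)) 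
(.lf (nat_lit 218600) (.g (nat_lit 1483) (.e (nat_lit 90173) (nat_lit 14) (.e (nat_lit 180277) (nat_lit 32) (.e (nat_lit 1253) (nat_lit 92) (.e (nat_lit 98349) (nat_lit 24) (.e (nat_lit 417536) (nat_lit 6) .nil))))) .nil)))) (.nd (nat_lit 5) (.nd (nat_lit 6) 
(.lf (nat_lit 218520) (.g (nat_lit 1448) (.e (nat_lit 90173) (nat_lit 14) (.e (nat_lit 180244) (nat_lit 5) (.e (nat_lit 532504) (nat_lit 1) (.e (nat_lit 57692) (nat_lit 156) .nil)))) .nil)) 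
(.lf (nat_lit 218584) (.g (nat_lit 2153) (.e (nat_lit 90173) (nat_lit 14) (.e (nat_lit 180252) (nat_lit 10) (.e (nat_lit 573489) (nat_lit 14) (.e (nat_lit 73755) (nat_lit 8) (.e (nat_lit 557090) (nat_lit 12) (.e (nat_lit 164007) (nat_lit 41) (.e (nat_lit 663552) (nat_lit 0) (.e (nat_lit 1230) (nat_lit 91) .nil)))))))) (.g (nat_lit 4) .nil .nil)))) (.nd (nat_lit 6) 
(.lf (nat_lit 218552) (.g (nat_lit 1875) (.e (nat_lit 90173) (nat_lit 14) (.e (nat_lit 180252) (nat_lit 10) (.e (nat_lit 573482) (nat_lit 13) (.e (nat_lit 65570) (nat_lit 3) .nil)))) .nil)) 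
(.lf (nat_lit 218616) (.g (nat_lit 1752) (.e (nat_lit 90174) (nat_lit 14) (.e (nat_lit 180243) (nat_lit 5) (.e (nat_lit 532499) (nat_lit 1) (.e (nat_lit 57653) (nat_lit 152) .nil)))) .nil)))))) (.nd (nat_lit 3) (.nd (nat_lit 4) (.nd (nat_lit 5) (.nd (nat_lit 6) 
(.lf (nat_lit 218500) (.g (nat_lit 3003) (.e (nat_lit 90173) (nat_lit 14) (.e (nat_lit 180244) (nat_lit 5) (.e (nat_lit 532499) (nat_lit 1) (.e (nat_lit 57688) (nat_lit 156) (.e (nat_lit 163873) (nat_lit 3) (.e (nat_lit 204838) (nat_lit 20) (.e (nat_lit 114716) (nat_lit 22) .nil))))))) (.g (nat_lit 4) .nil .nil))) 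
(.lf (nat_lit 218564) (.g (nat_lit 2953) (.e (nat_lit 90173) (nat_lit 14) (.e (nat_lit 180252) (nat_lit 10) (.e (nat_lit 573487) (nat_lit 14) (.e (nat_lit 73747) (nat_lit 3) (.e (nat_lit 516119) (nat_lit 1) (.e (nat_lit 171776) (nat_lit 160) (.e (nat_lit 57373) (nat_lit 2) .nil))))))) (.g (nat_lit 4) .nil .nil)))) (.nd (nat_lit 6) 
(.lf (nat_lit 218532) (.g (nat_lit 2437) (.e (nat_lit 90173) (nat_lit 14) (.e (nat_lit 180251) (nat_lit 10) (.e (nat_lit 573489) (nat_lit 14) (.e (nat_lit 73755) (nat_lit 8) (.e (nat_lit 557089) (nat_lit 12) (.e (nat_lit 164006) (nat_lit 41) (.e (nat_lit 663559) (nat_lit 0) (.e (nat_lit 1234) (nat_lit 91) .nil)))))))) (.g (nat_lit 4) .nil .nil))) 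
(.lf (nat_lit 218596) (.g (nat_lit 1283) (.e (nat_lit 90173) (nat_lit 14) (.e (nat_lit 180277) (nat_lit 32) (.e (nat_lit 1235) (nat_lit 91) (.e (nat_lit 90165) (nat_lit 12) (.e (nat_lit 164217) (nat_lit 178) (.e (nat_lit 123205) (nat_lit 270) (.e (nat_lit 1232) (nat_lit 91) .nil))))))) (.g (nat_lit 4) .nil .nil))))) (.nd (nat_lit 5) (.nd (nat_lit 6) 
(.lf (nat_lit 218516) (.g (nat_lit 2898) (.e (nat_lit 90173) (nat_lit 14) (.e (nat_lit 180244) (nat_lit 5) (.e (nat_lit 532503) (nat_lit 1) (.e (nat_lit 57688) (nat_lit 156) (.e (nat_lit 163874) (nat_lit 3) (.e (nat_lit 204838) (nat_lit 20) (.e (nat_lit 114716) (nat_lit 22) .nil))))))) (.g (nat_lit 4) .nil .nil))) 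
(.lf (nat_lit 218580) (.g (nat_lit 3008) (.e (nat_lit 90173) (nat_lit 14) (.e (nat_lit 180252) (nat_lit 10) (.e (nat_lit 573489) (nat_lit 14) (.e (nat_lit 73755) (nat_lit 8) (.e (nat_lit 557090) (nat_lit 12) (.e (nat_lit 164005) (nat_lit 41) (.e (nat_lit 663560) (nat_lit 0) (.e (nat_lit 1238) (nat_lit 91) .nil)))))))) (.g (nat_lit 5) .nil .nil)))) (.nd (nat_lit 6) 
(.lf (nat_lit 218548) (.g (nat_lit 1689) (.e (nat_lit 90173) (nat_lit 14) (.e (nat_lit 180252) (nat_lit 10) (.e (nat_lit 573482) (nat_lit 13) (.e (nat_lit 65568) (nat_lit 2) .nil)))) .nil)) 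
(.lf (nat_lit 218612) (.g (nat_lit 1832) (.e (nat_lit 90174) (nat_lit 14) (.e (nat_lit 180225) (nat_lit 0) (.e (nat_lit 5968) (nat_lit 324) (.e (nat_lit 163871) (nat_lit 2) (.e (nat_lit 196651) (nat_lit 10) .nil))))) .nil))))) (.nd (nat_lit 4) (.nd (nat_lit 5) (.nd (nat_lit 6) 
(.lf (nat_lit 218508) (.g (nat_lit 2627) (.e (nat_lit 90173) (nat_lit 14) (.e (nat_lit 180244) (nat_lit 5) (.e (nat_lit 532499) (nat_lit 1) (.e (nat_lit 57691) (nat_lit 156) (.e (nat_lit 163875) (nat_lit 3) (.e (nat_lit 204838) (nat_lit 20) (.e (nat_lit 114716) (nat_lit 22) .nil))))))) (.g (nat_lit 4) .nil .nil))) 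
(.lf (nat_lit 218572) (.g (nat_lit 1493) (.e (nat_lit 90173) (nat_lit 14) (.e (nat_lit 180252) (nat_lit 10) (.e (nat_lit 573488) (nat_lit 14) (.e (nat_lit 73755) (nat_lit 8) .nil)))) .nil))) (.nd (nat_lit 6) 
(.lf (nat_lit 218540) (.g (nat_lit 2168) (.e (nat_lit 90173) (nat_lit 14) (.e (nat_lit 180252) (nat_lit 10) (.e (nat_lit 573473) (nat_lit 12) (.e (nat_lit 57516) (nat_lit 42) (.e (nat_lit 671748) (nat_lit 0) .nil))))) .nil)) 
(.lf (nat_lit 218604) (.g (nat_lit 3368) (.e (nat_lit 90173) (nat_lit 14) (.e (nat_lit 180278) (nat_lit 32) (.e (nat_lit 1253) (nat_lit 92) (.e (nat_lit 98350) (nat_lit 24) (.e (nat_lit 409602) (nat_lit 0) (.e (nat_lit 5293) (nat_lit 298) (.e (nat_lit 1232) (nat_lit 91) .nil))))))) (.g (nat_lit 6) .nil .nil))))) (.nd (nat_lit 5) (.nd (nat_lit 6) 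
(.lf (nat_lit 218524) (.g (nat_lit 2461) (.e (nat_lit 90173) (nat_lit 14) (.e (nat_lit 180251) (nat_lit 10) (.e (nat_lit 573475) (nat_lit 12) (.e (nat_lit 57516) (nat_lit 42) (.e (nat_lit 671748) (nat_lit 0) .nil))))) .nil)) 
(.lf (nat_lit 218588) (.g (nat_lit 2324) (.e (nat_lit 90173) (nat_lit 14) (.e (nat_lit 180252) (nat_lit 10) (.e (nat_lit 573489) (nat_lit 14) (.e (nat_lit 73755) (nat_lit 8) (.e (nat_lit 557090) (nat_lit 12) (.e (nat_lit 164008) (nat_lit 41) (.e (nat_lit 671488) (nat_lit 0) (.e (nat_lit 1228) (nat_lit 91) .nil)))))))) (.g (nat_lit 4) .nil .nil)))) (.nd (nat_lit 6) 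
(.lf (nat_lit 218556) (.g (nat_lit 2103) (.e (nat_lit 90173) (nat_lit 14) (.e (nat_lit 180252) (nat_lit 10) (.e (nat_lit 573482) (nat_lit 13) (.e (nat_lit 65631) (nat_lit 15) .nil)))) .nil)) 
(.lf (nat_lit 218620) (.g (nat_lit 2449) (.e (nat_lit 90174) (nat_lit 14) (.e (nat_lit 180243) (nat_lit 5) (.e (nat_lit 532499) (nat_lit 1) (.e (nat_lit 57686) (nat_lit 156) (.e (nat_lit 163867) (nat_lit 2) (.e (nat_lit 196624) (nat_lit 9) (.e (nat_lit 1277) (nat_lit 94) (.e (nat_lit 114715) (nat_lit 22) .nil)))))))) (.g (nat_lit 4) .nil .nil)))))))) 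
(.nd (nat_lit 2) (.nd (nat_lit 3) (.nd (nat_lit 4) (.nd (nat_lit 5) (.nd (nat_lit 6) 
(.lf (nat_lit 218498) (.g (nat_lit 1881) (.e (nat_lit 90173) (nat_lit 14) (.e (nat_lit 180244) (nat_lit 5) (.e (nat_lit 532499) (nat_lit 1) (.e (nat_lit 57688) (nat_lit 156) .nil)))) .nil)) 
(.lf (nat_lit 218562) (.g (nat_lit 1932) (.e (nat_lit 90173) (nat_lit 14) (.e (nat_lit 180252) (nat_lit 10) (.e (nat_lit 573487) (nat_lit 14) (.e (nat_lit 73746) (nat_lit 3) .nil)))) .nil))) (.nd (nat_lit 6) 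
(.lf (nat_lit 218530) (.g (nat_lit 2731) (.e (nat_lit 90173) (nat_lit 14) (.e (nat_lit 180251) (nat_lit 10) (.e (nat_lit 573489) (nat_lit 14) (.e (nat_lit 73755) (nat_lit 8) (.e (nat_lit 557065) (nat_lit 9) .nil))))) .nil)) 
(.lf (nat_lit 218594) (.g (nat_lit 2448) (.e (nat_lit 90173) (nat_lit 14) (.e (nat_lit 180277) (nat_lit 32) (.e (nat_lit 1234) (nat_lit 91) (.e (nat_lit 90172) (nat_lit 14) (.e (nat_lit 188160) (nat_lit 32) (.e (nat_lit 1239) (nat_lit 91) .nil)))))) (.g (nat_lit 4) .nil .nil))))) (.nd (nat_lit 5) (.nd (nat_lit 6) 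
(.lf (nat_lit 218514) (.g (nat_lit 1665) (.e (nat_lit 90173) (nat_lit 14) (.e (nat_lit 180244) (nat_lit 5) (.e (nat_lit 532503) (nat_lit 1) (.e (nat_lit 57688) (nat_lit 156) .nil)))) .nil)) 
(.lf (nat_lit 218578) (.g (nat_lit 2327) (.e (nat_lit 90173) (nat_lit 14) (.e (nat_lit 180252) (nat_lit 10) (.e (nat_lit 573489) (nat_lit 14) (.e (nat_lit 73755) (nat_lit 8) (.e (nat_lit 557090) (nat_lit 12) (.e (nat_lit 164005) (nat_lit 41) (.e (nat_lit 663554) (nat_lit 0) (.e (nat_lit 1233) (nat_lit 91) .nil)))))))) (.g (nat_lit 4) .nil .nil)))) (.nd (nat_lit 6) 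
(.lf (nat_lit 218546) (.g (nat_lit 1916) (.e (nat_lit 90173) (nat_lit 14) (.e (nat_lit 180252) (nat_lit 10) (.e (nat_lit 573482) (nat_lit 13) (.e (nat_lit 65566) (nat_lit 2) .nil)))) .nil)) 
(.lf (nat_lit 218610) (.g (nat_lit 2529) (.e (nat_lit 90174) (nat_lit 14) (.e (nat_lit 180225) (nat_lit 0) (.e (nat_lit 5968) (nat_lit 324) (.e (nat_lit 163868) (nat_lit 2) (.e (nat_lit 196611) (nat_lit 0) .nil))))) .nil))))) (.nd (nat_lit 4) (.nd (nat_lit 5) (.nd (nat_lit 6) 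
(.lf (nat_lit 218506) (.g (nat_lit 2232) (.e (nat_lit 90173) (nat_lit 14) (.e (nat_lit 180244) (nat_lit 5) (.e (nat_lit 532499) (nat_lit 1) (.e (nat_lit 57691) (nat_lit 156) (.e (nat_lit 163874) (nat_lit 3) .nil))))) .nil)) 
(.lf (nat_lit 218570) (.g (nat_lit 3120) (.e (nat_lit 90173) (nat_lit 14) (.e (nat_lit 180252) (nat_lit 10) (.e (nat_lit 573488) (nat_lit 14) (.e (nat_lit 73747) (nat_lit 3) (.e (nat_lit 516119) (nat_lit 1) (.e (nat_lit 171776) (nat_lit 160) (.e (nat_lit 57373) (nat_lit 2) .nil))))))) (.g (nat_lit 5) .nil .nil)))) (.nd (nat_lit 6) 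
(.lf (nat_lit 218538) (.g (nat_lit 2400) (.e (nat_lit 90173) (nat_lit 14) (.e (nat_lit 180252) (nat_lit 10) (.e (nat_lit 573449) (nat_lit 9) (.e (nat_lit 1183) (nat_lit 87) (.e (nat_lit 57848) (nat_lit 252) (.e (nat_lit 57374) (nat_lit 2) (.e (nat_lit 90165) (nat_lit 12) (.e (nat_lit 171776) (nat_lit 48) (.e (nat_lit 720941) (nat_lit 22) .nil))))))))) (.g (nat_lit 4) .nil .nil))) 
(.lf (nat_lit 218602) (.g (nat_lit 509) (.e (nat_lit 90173) (nat_lit 14) (.e (nat_lit 180278) (nat_lit 32) (.e (nat_lit 1235) (nat_lit 91) .nil))) .nil)))) (.nd (nat_lit 5) (.nd (nat_lit 6) 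
(.lf (nat_lit 218522) (.g (nat_lit 2130) (.e (nat_lit 90173) (nat_lit 14) (.e (nat_lit 180250) (nat_lit 10) (.e (nat_lit 573474) (nat_lit 12) (.e (nat_lit 57516) (nat_lit 42) .nil)))) .nil)) 
(.lf (nat_lit 218586) (.g (nat_lit 2554) (.e (nat_lit 90173) (nat_lit 14) (.e (nat_lit 180252) (nat_lit 10) (.e (nat_lit 573489) (nat_lit 14) (.e (nat_lit 73755) (nat_lit 8) (.e (nat_lit 557090) (nat_lit 12) (.e (nat_lit 164007) (nat_lit 41) (.e (nat_lit 663560) (nat_lit 0) (.e (nat_lit 1228) (nat_lit 91) .nil)))))))) (.g (nat_lit 5) .nil .nil)))) (.nd (nat_lit 6) 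
(.lf (nat_lit 218554) (.g (nat_lit 1761) (.e (nat_lit 90173) (nat_lit 14) (.e (nat_lit 180252) (nat_lit 10) (.e (nat_lit 573482) (nat_lit 13) (.e (nat_lit 65575) (nat_lit 5) .nil)))) .nil)) 
(.lf (nat_lit 218618) (.g (nat_lit 1890) (.e (nat_lit 90174) (nat_lit 14) (.e (nat_lit 180243) (nat_lit 5) (.e (nat_lit 532499) (nat_lit 1) (.e (nat_lit 57685) (nat_lit 156) .nil)))) .nil)))))) (.nd (nat_lit 3) (.nd (nat_lit 4) (.nd (nat_lit 5) (.nd (nat_lit 6) 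
(.lf (nat_lit 218502) (.g (nat_lit 3446) (.e (nat_lit 90173) (nat_lit 14) (.e (nat_lit 180244) (nat_lit 5) (.e (nat_lit 532499) (nat_lit 1) (.e (nat_lit 57688) (nat_lit 156) (.e (nat_lit 163874) (nat_lit 3) (.e (nat_lit 204838) (nat_lit 20) (.e (nat_lit 114716) (nat_lit 22) .nil))))))) (.g (nat_lit 4) .nil .nil))) 
(.lf (nat_lit 218566) (.g (nat_lit 1447) (.e (nat_lit 90173) (nat_lit 14) (.e (nat_lit 180252) (nat_lit 10) (.e (nat_lit 573488) (nat_lit 14) (.e (nat_lit 73747) (nat_lit 3) .nil)))) .nil))) (.nd (nat_lit 6) 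
(.lf (nat_lit 218534) (.g (nat_lit 2427) (.e (nat_lit 90173) (nat_lit 14) (.e (nat_lit 180251) (nat_lit 10) (.e (nat_lit 573489) (nat_lit 14) (.e (nat_lit 73755) (nat_lit 8) (.e (nat_lit 557089) (nat_lit 12) (.e (nat_lit 164010) (nat_lit 41) (.e (nat_lit 671488) (nat_lit 0) (.e (nat_lit 1238) (nat_lit 91) .nil)))))))) (.g (nat_lit 4) .nil .nil))) 
(.lf (nat_lit 218598) (.g (nat_lit 1810) (.e (nat_lit 90173) (nat_lit 14) (.e (nat_lit 180277) (nat_lit 32) (.e (nat_lit 1235) (nat_lit 91) (.e (nat_lit 90172) (nat_lit 14) (.e (nat_lit 188160) (nat_lit 32) (.e (nat_lit 1239) (nat_lit 91) .nil)))))) (.g (nat_lit 4) .nil .nil))))) (.nd (nat_lit 5) (.nd (nat_lit 6) 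
(.lf (nat_lit 218518) (.g (nat_lit 1615) (.e (nat_lit 90173) (nat_lit 14) (.e (nat_lit 180244) (nat_lit 5) (.e (nat_lit 532503) (nat_lit 1) (.e (nat_lit 57689) (nat_lit 156) .nil)))) .nil)) 
(.lf (nat_lit 218582) (.g (nat_lit 3377) (.e (nat_lit 90173) (nat_lit 14) (.e (nat_lit 180252) (nat_lit 10) (.e (nat_lit 573489) (nat_lit 14) (.e (nat_lit 73755) (nat_lit 8) (.e (nat_lit 557090) (nat_lit 12) (.e (nat_lit 164006) (nat_lit 41) (.e (nat_lit 663554) (nat_lit 0) (.e (nat_lit 1233) (nat_lit 91) .nil)))))))) (.g (nat_lit 5) .nil .nil)))) (.nd (nat_lit 6) 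
(.lf (nat_lit 218550) (.g (nat_lit 2680) (.e (nat_lit 90173) (nat_lit 14) (.e (nat_lit 180252) (nat_lit 10) (.e (nat_lit 573482) (nat_lit 13) (.e (nat_lit 65568) (nat_lit 2) (.e (nat_lit 90165) (nat_lit 12) .nil))))) .nil)) 
(.lf (nat_lit 218614) (.g (nat_lit 1393) (.e (nat_lit 90174) (nat_lit 14) (.e (nat_lit 180228) (nat_lit 0) (.e (nat_lit 5190) (nat_lit 294) (.e (nat_lit 57371) (nat_lit 2) (.e (nat_lit 98048) (nat_lit 6) .nil))))) .nil))))) (.nd (nat_lit 4) (.nd (nat_lit 5) (.nd (nat_lit 6) 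
(.lf (nat_lit 218510) (.g (nat_lit 2487) (.e (nat_lit 90173) (nat_lit 14) (.e (nat_lit 180244) (nat_lit 5) (.e (nat_lit 532499) (nat_lit 1) (.e (nat_lit 57692) (nat_lit 156) (.e (nat_lit 163875) (nat_lit 3) .nil))))) .nil)) 
(.lf (nat_lit 218574) (.g (nat_lit 2401) (.e (nat_lit 90173) (nat_lit 14) (.e (nat_lit 180252) (nat_lit 10) (.e (nat_lit 573489) (nat_lit 14) (.e (nat_lit 73754) (nat_lit 8) (.e (nat_lit 557093) (nat_lit 12) .nil))))) .nil))) (.nd (nat_lit 6) 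
(.lf (nat_lit 218542) (.g (nat_lit 1586) (.e (nat_lit 90173) (nat_lit 14) (.e (nat_lit 180252) (nat_lit 10) (.e (nat_lit 573475) (nat_lit 12) (.e (nat_lit 57516) (nat_lit 42) .nil)))) .nil)) 
(.lf (nat_lit 218606) (.g (nat_lit 1049) (.e (nat_lit 90174) (nat_lit 14) (.e (nat_lit 180225) (nat_lit 0) (.e (nat_lit 4778) (nat_lit 281) (.e (nat_lit 2445) (nat_lit 157) .nil)))) .nil)))) (.nd (nat_lit 5) (.nd (nat_lit 6) 
(.lf (nat_lit 218526) (.g (nat_lit 2894) (.e (nat_lit 90173) (nat_lit 14) (.e (nat_lit 180251) (nat_lit 10) (.e (nat_lit 573484) (nat_lit 13) (.e (nat_lit 65569) (nat_lit 3) (.e (nat_lit 98334) (nat_lit 18) .nil))))) .nil)) 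
(.lf (nat_lit 218590) (.g (nat_lit 3349) (.e (nat_lit 90173) (nat_lit 14) (.e (nat_lit 180252) (nat_lit 10) (.e (nat_lit 573489) (nat_lit 14) (.e (nat_lit 73755) (nat_lit 8) (.e (nat_lit 557090) (nat_lit 12) (.e (nat_lit 164010) (nat_lit 41) (.e (nat_lit 671488) (nat_lit 0) (.e (nat_lit 1238) (nat_lit 91) .nil)))))))) (.g (nat_lit 5) .nil .nil)))) (.nd (nat_lit 6) 
(.lf (nat_lit 218558) (.g (nat_lit 1693) (.e (nat_lit 90173) (nat_lit 14) (.e (nat_lit 180252) (nat_lit 10) (.e (nat_lit 573482) (nat_lit 13) (.e (nat_lit 65644) (nat_lit 22) .nil)))) .nil)) 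
(.lf (nat_lit 218622) (.g (nat_lit 2497) (.e (nat_lit 90174) (nat_lit 14) (.e (nat_lit 180243) (nat_lit 5) (.e (nat_lit 532499) (nat_lit 1) (.e (nat_lit 57686) (nat_lit 156) (.e (nat_lit 163871) (nat_lit 2) (.e (nat_lit 196677) (nat_lit 16) (.e (nat_lit 122970) (nat_lit 48) (.e (nat_lit 720941) (nat_lit 22) .nil)))))))) (.g (nat_lit 4) .nil .nil))))))))) 
(.nd (nat_lit 1) (.nd (nat_lit 2) (.nd (nat_lit 3) (.nd (nat_lit 4) (.nd (nat_lit 5) 
(.nd (nat_lit 6) 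
(.lf (nat_lit 218497) (.g (nat_lit 1811) (.e (nat_lit 90173) (nat_lit 14) (.e (nat_lit 180244) (nat_lit 5) (.e (nat_lit 532499) (nat_lit 1) (.e (nat_lit 57686) (nat_lit 156) .nil)))) .nil)) 
(.lf (nat_lit 218561) (.g (nat_lit 1574) (.e (nat_lit 90173) (nat_lit 14) (.e (nat_lit 180252) (nat_lit 10) (.e (nat_lit 573487) (nat_lit 14) (.e (nat_lit 81664) (nat_lit 1) .nil)))) .nil))) (.nd (nat_lit 6) 
(.lf (nat_lit 218529) (.g (nat_lit 2129) (.e (nat_lit 90173) (nat_lit 14) (.e (nat_lit 180251) (nat_lit 10) (.e (nat_lit 573489) (nat_lit 14) (.e (nat_lit 73754) (nat_lit 8) (.e (nat_lit 557093) (nat_lit 12) .nil))))) .nil)) 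
(.lf (nat_lit 218593) (.g (nat_lit 2297) (.e (nat_lit 90173) (nat_lit 14) (.e (nat_lit 180277) (nat_lit 32) (.e (nat_lit 1234) (nat_lit 91) (.e (nat_lit 90172) (nat_lit 14) (.e (nat_lit 188160) (nat_lit 32) (.e (nat_lit 1232) (nat_lit 91) .nil)))))) (.g (nat_lit 4) .nil .nil))))) (.nd (nat_lit 5) (.nd (nat_lit 6) 
(.lf (nat_lit 218513) (.g (nat_lit 2155) (.e (nat_lit 90173) (nat_lit 14) (.e (nat_lit 180244) (nat_lit 5) (.e (nat_lit 532503) (nat_lit 1) (.e (nat_lit 57687) (nat_lit 156) (.e (nat_lit 163844) (nat_lit 0) .nil))))) .nil)) 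
(.lf (nat_lit 218577) (.g (nat_lit 2859) (.e (nat_lit 90173) (nat_lit 14) (.e (nat_lit 180252) (nat_lit 10) (.e (nat_lit 573489) (nat_lit 14) (.e (nat_lit 73755) (nat_lit 8) (.e (nat_lit 557068) (nat_lit 9) .nil))))) .nil))) (.nd (nat_lit 6) 
(.lf (nat_lit 218545) (.g (nat_lit 1543) (.e (nat_lit 90173) (nat_lit 14) (.e (nat_lit 180252) (nat_lit 10) (.e (nat_lit 573481) (nat_lit 13) (.e (nat_lit 65569) (nat_lit 3) .nil)))) .nil)) 
(.lf (nat_lit 218609) (.g (nat_lit 744) (.e (nat_lit 90174) (nat_lit 14) (.e (nat_lit 180225) (nat_lit 0) (.e (nat_lit 5539) (nat_lit 306) .nil))) .nil))))) (.nd (nat_lit 4) (.nd (nat_lit 5) (.nd (nat_lit 6) 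
(.lf (nat_lit 218505) (.g (nat_lit 1653) (.e (nat_lit 90173) (nat_lit 14) (.e (nat_lit 180244) (nat_lit 5) (.e (nat_lit 532499) (nat_lit 1) (.e (nat_lit 57691) (nat_lit 156) .nil)))) .nil)) 
(.lf (nat_lit 218569) (.g (nat_lit 2407) (.e (nat_lit 90173) (nat_lit 14) (.e (nat_lit 180252) (nat_lit 10) (.e (nat_lit 573488) (nat_lit 14) (.e (nat_lit 73747) (nat_lit 3) (.e (nat_lit 516117) (nat_lit 1) .nil))))) .nil))) (.nd (nat_lit 6) 
(.lf (nat_lit 218537) (.g (nat_lit 2156) (.e (nat_lit 90173) (nat_lit 14) (.e (nat_lit 180251) (nat_lit 10) (.e (nat_lit 573489) (nat_lit 14) (.e (nat_lit 73755) (nat_lit 8) (.e (nat_lit 557119) (nat_lit 18) .nil))))) .nil)) 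
(.lf (nat_lit 218601) (.g (nat_lit 1919) (.e (nat_lit 90173) (nat_lit 14) (.e (nat_lit 180277) (nat_lit 32) (.e (nat_lit 1253) (nat_lit 92) (.e (nat_lit 98350) (nat_lit 24) (.e (nat_lit 409603) (nat_lit 0) .nil))))) .nil)))) (.nd (nat_lit 5) (.nd (nat_lit 6) 
(.lf (nat_lit 218521) (.g (nat_lit 983) (.e (nat_lit 90173) (nat_lit 14) (.e (nat_lit 180245) (nat_lit 5) (.e (nat_lit 532515) (nat_lit 3) (.e (nat_lit 114718) (nat_lit 23) .nil)))) .nil)) 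
(.lf (nat_lit 218585) (.g (nat_lit 3135) (.e (nat_lit 90173) (nat_lit 14) (.e (nat_lit 180252) (nat_lit 10) (.e (nat_lit 573489) (nat_lit 14) (.e (nat_lit 73755) (nat_lit 8) (.e (nat_lit 557090) (nat_lit 12) (.e (nat_lit 164007) (nat_lit 41) (.e (nat_lit 663554) (nat_lit 0) (.e (nat_lit 1233) (nat_lit 91) .nil)))))))) (.g (nat_lit 6) .nil .nil)))) (.nd (nat_lit 6) 
(.lf (nat_lit 218553) (.g (nat_lit 1721) (.e (nat_lit 90173) (nat_lit 14) (.e (nat_lit 180252) (nat_lit 10) (.e (nat_lit 573482) (nat_lit 13) (.e (nat_lit 65571) (nat_lit 3) .nil)))) .nil)) 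
(.lf (nat_lit 218617) (.g (nat_lit 2300) (.e (nat_lit 90174) (nat_lit 14) (.e (nat_lit 180243) (nat_lit 5) (.e (nat_lit 532499) (nat_lit 1) (.e (nat_lit 57655) (nat_lit 152) (.e (nat_lit 2399) (nat_lit 157) .nil))))) .nil)))))) (.nd (nat_lit 3) (.nd (nat_lit 4) (.nd (nat_lit 5) (.nd (nat_lit 6) 
(.lf (nat_lit 218501) (.g (nat_lit 3195) (.e (nat_lit 90173) (nat_lit 14) (.e (nat_lit 180244) (nat_lit 5) (.e (nat_lit 532499) (nat_lit 1) (.e (nat_lit 57688) (nat_lit 156) (.e (nat_lit 163874) (nat_lit 3) .nil))))) .nil)) 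
(.lf (nat_lit 218565) (.g (nat_lit 1412) (.e (nat_lit 90173) (nat_lit 14) (.e (nat_lit 180252) (nat_lit 10) (.e (nat_lit 573487) (nat_lit 14) (.e (nat_lit 73753) (nat_lit 8) .nil)))) .nil))) (.nd (nat_lit 6) 
(.lf (nat_lit 218533) (.g (nat_lit 2157) (.e (nat_lit 90173) (nat_lit 14) (.e (nat_lit 180251) (nat_lit 10) (.e (nat_lit 573489) (nat_lit 14) (.e (nat_lit 73755) (nat_lit 8) (.e (nat_lit 557089) (nat_lit 12) (.e (nat_lit 164007) (nat_lit 41) (.e (nat_lit 663560) (nat_lit 0) (.e (nat_lit 1238) (nat_lit 91) .nil)))))))) (.g (nat_lit 4) .nil .nil))) 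
(.lf (nat_lit 218597) (.g (nat_lit 1659) (.e (nat_lit 90173) (nat_lit 14) (.e (nat_lit 180277) (nat_lit 32) (.e (nat_lit 1235) (nat_lit 91) (.e (nat_lit 90172) (nat_lit 14) (.e (nat_lit 188160) (nat_lit 32) (.e (nat_lit 1232) (nat_lit 91) .nil)))))) (.g (nat_lit 4) .nil .nil))))) (.nd (nat_lit 5) (.nd (nat_lit 6) 
(.lf (nat_lit 218517) (.g (nat_lit 2686) (.e (nat_lit 90173) (nat_lit 14) (.e (nat_lit 180244) (nat_lit 5) (.e (nat_lit 532503) (nat_lit 1) (.e (nat_lit 57688) (nat_lit 156) (.e (nat_lit 163875) (nat_lit 3) .nil))))) .nil)) 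
(.lf (nat_lit 218581) (.g (nat_lit 2152) (.e (nat_lit 90173) (nat_lit 14) (.e (nat_lit 180252) (nat_lit 10) (.e (nat_lit 573489) (nat_lit 14) (.e (nat_lit 73755) (nat_lit 8) (.e (nat_lit 557090) (nat_lit 12) (.e (nat_lit 164005) (nat_lit 41) (.e (nat_lit 671488) (nat_lit 0) (.e (nat_lit 1228) (nat_lit 91) .nil)))))))) (.g (nat_lit 4) .nil .nil)))) (.nd (nat_lit 6) 
(.lf (nat_lit 218549) (.g (nat_lit 2584) (.e (nat_lit 90173) (nat_lit 14) (.e (nat_lit 180252) (nat_lit 10) (.e (nat_lit 573482) (nat_lit 13) (.e (nat_lit 65568) (nat_lit 2) (.e (nat_lit 98048) (nat_lit 2) .nil))))) .nil)) 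
(.lf (nat_lit 218613) (.g (nat_lit 961) (.e (nat_lit 90174) (nat_lit 14) (.e (nat_lit 180228) (nat_lit 0) (.e (nat_lit 5046) (nat_lit 292) (.e (nat_lit 974) (nat_lit 81) .nil)))) .nil))))) (.nd (nat_lit 4) (.nd (nat_lit 5) (.nd (nat_lit 6) 
(.lf (nat_lit 218509) (.g (nat_lit 1858) (.e (nat_lit 90173) (nat_lit 14) (.e (nat_lit 180244) (nat_lit 5) (.e (nat_lit 532499) (nat_lit 1) (.e (nat_lit 57692) (nat_lit 156) .nil)))) .nil)) 
(.lf (nat_lit 218573) (.g (nat_lit 514) (.e (nat_lit 90173) (nat_lit 14) (.e (nat_lit 180252) (nat_lit 10) (.e (nat_lit 573489) (nat_lit 14) .nil))) .nil))) (.nd (nat_lit 6) 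
(.lf (nat_lit 218541) (.g (nat_lit 3404) (.e (nat_lit 90173) (nat_lit 14) (.e (nat_lit 180252) (nat_lit 10) (.e (nat_lit 573474) (nat_lit 12) (.e (nat_lit 57516) (nat_lit 42) (.e (nat_lit 671748) (nat_lit 0) (.e (nat_lit 1256) (nat_lit 92) (.e (nat_lit 106240) (nat_lit 3) (.e (nat_lit 114716) (nat_lit 22) .nil)))))))) (.g (nat_lit 5) .nil .nil))) 
(.lf (nat_lit 218605) (.g (nat_lit 2151) (.e (nat_lit 90173) (nat_lit 14) (.e (nat_lit 180278) (nat_lit 32) (.e (nat_lit 1253) (nat_lit 92) (.e (nat_lit 98350) (nat_lit 24) (.e (nat_lit 409603) (nat_lit 0) .nil))))) .nil)))) (.nd (nat_lit 5) (.nd (nat_lit 6) 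
(.lf (nat_lit 218525) (.g (nat_lit 1595) (.e (nat_lit 90173) (nat_lit 14) (.e (nat_lit 180251) (nat_lit 10) (.e (nat_lit 573484) (nat_lit 13) (.e (nat_lit 65568) (nat_lit 2) .nil)))) .nil)) 
(.lf (nat_lit 218589) (.g (nat_lit 2380) (.e (nat_lit 90173) (nat_lit 14) (.e (nat_lit 180252) (nat_lit 10) (.e (nat_lit 573489) (nat_lit 14) (.e (nat_lit 73755) (nat_lit 8) (.e (nat_lit 557090) (nat_lit 12) (.e (nat_lit 164010) (nat_lit 41) (.e (nat_lit 663555) (nat_lit 0) (.e (nat_lit 1226) (nat_lit 91) .nil)))))))) (.g (nat_lit 4) .nil .nil)))) (.nd (nat_lit 6) 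
(.lf (nat_lit 218557) (.g (nat_lit 1727) (.e (nat_lit 90173) (nat_lit 14) (.e (nat_lit 180252) (nat_lit 10) (.e (nat_lit 573482) (nat_lit 13) (.e (nat_lit 73472) (nat_lit 18) .nil)))) .nil)) 
(.lf (nat_lit 218621) (.g (nat_lit 1694) (.e (nat_lit 90174) (nat_lit 14) (.e (nat_lit 180243) (nat_lit 5) (.e (nat_lit 532499) (nat_lit 1) (.e (nat_lit 57686) (nat_lit 156) (.e (nat_lit 163871) (nat_lit 2) .nil))))) .nil))))))) (.nd (nat_lit 2) (.nd (nat_lit 3) (.nd (nat_lit 4) (.nd (nat_lit 5) (.nd (nat_lit 6) 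
(.lf (nat_lit 218499) (.g (nat_lit 2966) (.e (nat_lit 90173) (nat_lit 14) (.e (nat_lit 180244) (nat_lit 5) (.e (nat_lit 532499) (nat_lit 1) (.e (nat_lit 57688) (nat_lit 156) (.e (nat_lit 163873) (nat_lit 3) .nil))))) .nil)) 
(.lf (nat_lit 218563) (.g (nat_lit 2102) (.e (nat_lit 90173) (nat_lit 14) (.e (nat_lit 180252) (nat_lit 10) (.e (nat_lit 573487) (nat_lit 14) (.e (nat_lit 73747) (nat_lit 3) (.e (nat_lit 516115) (nat_lit 1) .nil))))) .nil))) (.nd (nat_lit 6) 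
(.lf (nat_lit 218531) (.g (nat_lit 2748) (.e (nat_lit 90173) (nat_lit 14) (.e (nat_lit 180251) (nat_lit 10) (.e (nat_lit 573489) (nat_lit 14) (.e (nat_lit 73755) (nat_lit 8) (.e (nat_lit 557074) (nat_lit 9) .nil))))) .nil)) 
(.lf (nat_lit 218595) (.g (nat_lit 412) (.e (nat_lit 90173) (nat_lit 14) (.e (nat_lit 180277) (nat_lit 32) (.e (nat_lit 1235) (nat_lit 91) .nil))) .nil)))) (.nd (nat_lit 5) (.nd (nat_lit 6) 
(.lf (nat_lit 218515) (.g (nat_lit 2658) (.e (nat_lit 90173) (nat_lit 14) (.e (nat_lit 180244) (nat_lit 5) (.e (nat_lit 532503) (nat_lit 1) (.e (nat_lit 57688) (nat_lit 156) (.e (nat_lit 163874) (nat_lit 3) .nil))))) .nil)) 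
(.lf (nat_lit 218579) (.g (nat_lit 2088) (.e (nat_lit 90173) (nat_lit 14) (.e (nat_lit 180252) (nat_lit 10) (.e (nat_lit 573489) (nat_lit 14) (.e (nat_lit 73755) (nat_lit 8) (.e (nat_lit 557090) (nat_lit 12) (.e (nat_lit 164005) (nat_lit 41) (.e (nat_lit 663560) (nat_lit 0) (.e (nat_lit 1228) (nat_lit 91) .nil)))))))) (.g (nat_lit 4) .nil .nil)))) (.nd (nat_lit 6) 
(.lf (nat_lit 218547) (.g (nat_lit 1754) (.e (nat_lit 90173) (nat_lit 14) (.e (nat_lit 180252) (nat_lit 10) (.e (nat_lit 573482) (nat_lit 13) (.e (nat_lit 65567) (nat_lit 2) .nil)))) .nil)) 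
(.lf (nat_lit 218611) (.g (nat_lit 2290) (.e (nat_lit 90174) (nat_lit 14) (.e (nat_lit 180225) (nat_lit 0) (.e (nat_lit 5968) (nat_lit 324) (.e (nat_lit 163868) (nat_lit 2) (.e (nat_lit 196651) (nat_lit 10) .nil))))) .nil))))) (.nd (nat_lit 4) (.nd (nat_lit 5) (.nd (nat_lit 6) 
(.lf (nat_lit 218507) (.g (nat_lit 2187) (.e (nat_lit 90173) (nat_lit 14) (.e (nat_lit 180244) (nat_lit 5) (.e (nat_lit 532499) (nat_lit 1) (.e (nat_lit 57691) (nat_lit 156) (.e (nat_lit 163875) (nat_lit 3) .nil))))) .nil)) 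
(.lf (nat_lit 218571) (.g (nat_lit 1637) (.e (nat_lit 90173) (nat_lit 14) (.e (nat_lit 180252) (nat_lit 10) (.e (nat_lit 573488) (nat_lit 14) (.e (nat_lit 81664) (nat_lit 5) .nil)))) .nil))) (.nd (nat_lit 6) 
(.lf (nat_lit 218539) (.g (nat_lit 479) (.e (nat_lit 90173) (nat_lit 14) (.e (nat_lit 180252) (nat_lit 10) (.e (nat_lit 573451) (nat_lit 9) .nil))) .nil)) 
(.lf (nat_lit 218603) (.g (nat_lit 1424) (.e (nat_lit 90173) (nat_lit 14) (.e (nat_lit 180278) (nat_lit 32) (.e (nat_lit 1253) (nat_lit 92) (.e (nat_lit 98323) (nat_lit 17) (.e (nat_lit 6989) (nat_lit 377) .nil))))) .nil)))) (.nd (nat_lit 5) (.nd (nat_lit 6) 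
(.lf (nat_lit 218523) (.g (nat_lit 2090) (.e (nat_lit 90173) (nat_lit 14) (.e (nat_lit 180250) (nat_lit 10) (.e (nat_lit 573475) (nat_lit 12) (.e (nat_lit 57516) (nat_lit 42) .nil)))) .nil)) 
(.lf (nat_lit 218587) (.g (nat_lit 2503) (.e (nat_lit 90173) (nat_lit 14) (.e (nat_lit 180252) (nat_lit 10) (.e (nat_lit 573489) (nat_lit 14) (.e (nat_lit 73755) (nat_lit 8) (.e (nat_lit 557090) (nat_lit 12) (.e (nat_lit 164007) (nat_lit 41) (.e (nat_lit 671488) (nat_lit 0) (.e (nat_lit 1227) (nat_lit 91) .nil)))))))) (.g (nat_lit 5) .nil .nil)))) (.nd (nat_lit 6) 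
(.lf (nat_lit 218555) (.g (nat_lit 2095) (.e (nat_lit 90173) (nat_lit 14) (.e (nat_lit 180252) (nat_lit 10) (.e (nat_lit 573482) (nat_lit 13) (.e (nat_lit 65577) (nat_lit 5) .nil)))) .nil)) 
(.lf (nat_lit 218619) (.g (nat_lit 1123) (.e (nat_lit 90174) (nat_lit 14) (.e (nat_lit 180243) (nat_lit 5) (.e (nat_lit 532499) (nat_lit 1) (.e (nat_lit 57686) (nat_lit 156) .nil)))) .nil)))))) (.nd (nat_lit 3) (.nd (nat_lit 4) (.nd (nat_lit 5) (.nd (nat_lit 6) 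
(.lf (nat_lit 218503) (.g (nat_lit 3209) (.e (nat_lit 90173) (nat_lit 14) (.e (nat_lit 180244) (nat_lit 5) (.e (nat_lit 532499) (nat_lit 1) (.e (nat_lit 57688) (nat_lit 156) (.e (nat_lit 163875) (nat_lit 3) .nil))))) .nil)) 
(.lf (nat_lit 218567) (.g (nat_lit 2359) (.e (nat_lit 90173) (nat_lit 14) (.e (nat_lit 180252) (nat_lit 10) (.e (nat_lit 573488) (nat_lit 14) (.e (nat_lit 73747) (nat_lit 3) (.e (nat_lit 516115) (nat_lit 1) .nil))))) .nil))) (.nd (nat_lit 6) 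
(.lf (nat_lit 218535) (.g (nat_lit 3182) (.e (nat_lit 90173) (nat_lit 14) (.e (nat_lit 180251) (nat_lit 10) (.e (nat_lit 573489) (nat_lit 14) (.e (nat_lit 73755) (nat_lit 8) (.e (nat_lit 557090) (nat_lit 12) .nil))))) .nil)) 
(.lf (nat_lit 218599) (.g (nat_lit 1552) (.e (nat_lit 90173) (nat_lit 14) (.e (nat_lit 180277) (nat_lit 32) (.e (nat_lit 1235) (nat_lit 91) (.e (nat_lit 90174) (nat_lit 14) (.e (nat_lit 188160) (nat_lit 32) .nil))))) .nil)))) (.nd (nat_lit 5) (.nd (nat_lit 6) 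
(.lf (nat_lit 218519) (.g (nat_lit 1546) (.e (nat_lit 90173) (nat_lit 14) (.e (nat_lit 180244) (nat_lit 5) (.e (nat_lit 532504) (nat_lit 1) (.e (nat_lit 57691) (nat_lit 156) .nil)))) .nil)) 
(.lf (nat_lit 218583) (.g (nat_lit 3057) (.e (nat_lit 90173) (nat_lit 14) (.e (nat_lit 180252) (nat_lit 10) (.e (nat_lit 573489) (nat_lit 14) (.e (nat_lit 73755) (nat_lit 8) (.e (nat_lit 557090) (nat_lit 12) (.e (nat_lit 164006) (nat_lit 41) (.e (nat_lit 663559) (nat_lit 0) (.e (nat_lit 1238) (nat_lit 91) .nil)))))))) (.g (nat_lit 5) .nil .nil)))) (.nd (nat_lit 6) 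
(.lf (nat_lit 218551) (.g (nat_lit 1944) (.e (nat_lit 90173) (nat_lit 14) (.e (nat_lit 180252) (nat_lit 10) (.e (nat_lit 573482) (nat_lit 13) (.e (nat_lit 65569) (nat_lit 3) .nil)))) .nil)) 
(.lf (nat_lit 218615) (.g (nat_lit 555) (.e (nat_lit 90174) (nat_lit 14) (.e (nat_lit 180228) (nat_lit 0) (.e (nat_lit 5224) (nat_lit 296) .nil))) .nil))))) (.nd (nat_lit 4) (.nd (nat_lit 5) (.nd (nat_lit 6) 
(.lf (nat_lit 218511) (.g (nat_lit 504) (.e (nat_lit 90173) (nat_lit 14) (.e (nat_lit 180244) (nat_lit 5) (.e (nat_lit 532503) (nat_lit 1) .nil))) .nil)) 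
(.lf (nat_lit 218575) (.g (nat_lit 1401) (.e (nat_lit 90173) (nat_lit 14) (.e (nat_lit 180252) (nat_lit 10) (.e (nat_lit 573489) (nat_lit 14) (.e (nat_lit 73755) (nat_lit 8) .nil)))) .nil))) (.nd (nat_lit 6) 
(.lf (nat_lit 218543) (.g (nat_lit 1190) (.e (nat_lit 90173) (nat_lit 14) (.e (nat_lit 180252) (nat_lit 10) (.e (nat_lit 573480) (nat_lit 13) (.e (nat_lit 73472) (nat_lit 18) .nil)))) .nil)) 
(.lf (nat_lit 218607) (.g (nat_lit 744) (.e (nat_lit 90174) (nat_lit 14) (.e (nat_lit 180225) (nat_lit 0) (.e (nat_lit 5529) (nat_lit 306) .nil))) .nil)))) (.nd (nat_lit 5) (.nd (nat_lit 6) 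
(.lf (nat_lit 218527) (.g (nat_lit 1220) (.e (nat_lit 90173) (nat_lit 14) (.e (nat_lit 180251) (nat_lit 10) (.e (nat_lit 573485) (nat_lit 13) (.e (nat_lit 65569) (nat_lit 3) .nil)))) .nil)) 
(.lf (nat_lit 218591) (.g (nat_lit 2251) (.e (nat_lit 90173) (nat_lit 14) (.e (nat_lit 180252) (nat_lit 10) (.e (nat_lit 573489) (nat_lit 14) (.e (nat_lit 73755) (nat_lit 8) (.e (nat_lit 557090) (nat_lit 12) (.e (nat_lit 164012) (nat_lit 42) (.e (nat_lit 679680) (nat_lit 0) (.e (nat_lit 1238) (nat_lit 91) .nil)))))))) (.g (nat_lit 4) .nil .nil)))) (.nd (nat_lit 6) 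
(.lf (nat_lit 218559) (.g (nat_lit 1727) (.e (nat_lit 90173) (nat_lit 14) (.e (nat_lit 180252) (nat_lit 10) (.e (nat_lit 573482) (nat_lit 13) (.e (nat_lit 73472) (nat_lit 22) .nil)))) .nil)) 
(.lf (nat_lit 218623) (.g (nat_lit 2950) (.e (nat_lit 90174) (nat_lit 14) (.e (nat_lit 180243) (nat_lit 5) (.e (nat_lit 532499) (nat_lit 1) (.e (nat_lit 57686) (nat_lit 156) (.e (nat_lit 163871) (nat_lit 2) (.e (nat_lit 196677) (nat_lit 16) (.e (nat_lit 130816) (nat_lit 48) (.e (nat_lit 720941) (nat_lit 22) .nil)))))))) (.g (nat_lit 5) .nil .nil))))))))))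

noncomputable def tv2873 : DT := (.nd (nat_lit 0) (.nd (nat_lit 1) (.nd (nat_lit 2) (.nd (nat_lit 3) (.nd (nat_lit 4) (.nd (nat_lit 5) 
(.lf (nat_lit 218624) (.g (nat_lit 1588) (.e (nat_lit 90174) (nat_lit 14) (.e (nat_lit 180243) (nat_lit 5) (.e (nat_lit 532499) (nat_lit 1) (.e (nat_lit 57687) (nat_lit 156) .nil)))) .nil)) 
(.lf (nat_lit 218656) (.g (nat_lit 2997) (.e (nat_lit 90174) (nat_lit 14) (.e (nat_lit 180243) (nat_lit 5) (.e (nat_lit 532499) (nat_lit 1) (.e (nat_lit 57688) (nat_lit 156) (.e (nat_lit 163869) (nat_lit 2) (.e (nat_lit 196677) (nat_lit 16) (.e (nat_lit 122969) (nat_lit 48) (.e (nat_lit 720941) (nat_lit 22) .nil)))))))) (.g (nat_lit 4) .nil .nil)))) (.nd (nat_lit 5) 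
(.lf (nat_lit 218640) (.g (nat_lit 3468) (.e (nat_lit 90174) (nat_lit 14) (.e (nat_lit 180243) (nat_lit 5) (.e (nat_lit 532499) (nat_lit 1) (.e (nat_lit 57688) (nat_lit 156) (.e (nat_lit 163867) (nat_lit 2) (.e (nat_lit 196638) (nat_lit 9) (.e (nat_lit 1281) (nat_lit 94) (.e (nat_lit 114716) (nat_lit 22) .nil)))))))) (.g (nat_lit 5) .nil .nil))) 
(.lf (nat_lit 218672) (.g (nat_lit 4028) (.e (nat_lit 90174) (nat_lit 14) (.e (nat_lit 180243) (nat_lit 5) (.e (nat_lit 532499) (nat_lit 1) (.e (nat_lit 57688) (nat_lit 156) (.e (nat_lit 163874) (nat_lit 3) (.e (nat_lit 204815) (nat_lit 17) (.e (nat_lit 2203) (nat_lit 144) (.e (nat_lit 720941) (nat_lit 22) .nil)))))))) (.g (nat_lit 5) .nil .nil))))) (.nd (nat_lit 4) (.nd (nat_lit 5) 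
(.lf (nat_lit 218632) (.g (nat_lit 3658) (.e (nat_lit 90174) (nat_lit 14) (.e (nat_lit 180243) (nat_lit 5) (.e (nat_lit 532499) (nat_lit 1) (.e (nat_lit 57688) (nat_lit 156) (.e (nat_lit 163867) (nat_lit 2) (.e (nat_lit 196628) (nat_lit 9) (.e (nat_lit 968) (nat_lit 81) (.e (nat_lit 2203) (nat_lit 144) (.e (nat_lit 720941) (nat_lit 22) .nil))))))))) (.g (nat_lit 5) .nil .nil))) 
(.lf (nat_lit 218664) (.g (nat_lit 3644) (.e (nat_lit 90174) (nat_lit 14) (.e (nat_lit 180243) (nat_lit 5) (.e (nat_lit 532499) (nat_lit 1) (.e (nat_lit 57688) (nat_lit 156) (.e (nat_lit 163873) (nat_lit 3) (.e (nat_lit 204815) (nat_lit 17) (.e (nat_lit 2198) (nat_lit 144) (.e (nat_lit 720941) (nat_lit 22) .nil)))))))) (.g (nat_lit 5) .nil .nil)))) (.nd (nat_lit 5) 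
(.lf (nat_lit 218648) (.g (nat_lit 2630) (.e (nat_lit 90174) (nat_lit 14) (.e (nat_lit 180243) (nat_lit 5) (.e (nat_lit 532499) (nat_lit 1) (.e (nat_lit 57688) (nat_lit 156) (.e (nat_lit 163868) (nat_lit 2) .nil))))) .nil)) 
(.lf (nat_lit 218680) (.g (nat_lit 1872) (.e (nat_lit 90174) (nat_lit 14) (.e (nat_lit 180243) (nat_lit 5) (.e (nat_lit 532499) (nat_lit 1) (.e (nat_lit 57691) (nat_lit 156) (.e (nat_lit 163869) (nat_lit 2) .nil))))) .nil))))) (.nd (nat_lit 3) (.nd (nat_lit 4) (.nd (nat_lit 5) 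
(.lf (nat_lit 218628) (.g (nat_lit 2826) (.e (nat_lit 90174) (nat_lit 14) (.e (nat_lit 180243) (nat_lit 5) (.e (nat_lit 532499) (nat_lit 1) (.e (nat_lit 57688) (nat_lit 156) (.e (nat_lit 163867) (nat_lit 2) (.e (nat_lit 196618) (nat_lit 9) (.e (nat_lit 1275) (nat_lit 94) (.e (nat_lit 114714) (nat_lit 22) .nil)))))))) (.g (nat_lit 4) .nil .nil))) 
(.lf (nat_lit 218660) (.g (nat_lit 3372) (.e (nat_lit 90174) (nat_lit 14) (.e (nat_lit 180243) (nat_lit 5) (.e (nat_lit 532499) (nat_lit 1) (.e (nat_lit 57688) (nat_lit 156) (.e (nat_lit 163871) (nat_lit 2) (.e (nat_lit 196624) (nat_lit 9) (.e (nat_lit 1277) (nat_lit 94) (.e (nat_lit 114715) (nat_lit 22) .nil)))))))) (.g (nat_lit 4) .nil .nil)))) (.nd (nat_lit 5) 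
(.lf (nat_lit 218644) (.g (nat_lit 2762) (.e (nat_lit 90174) (nat_lit 14) (.e (nat_lit 180243) (nat_lit 5) (.e (nat_lit 532499) (nat_lit 1) (.e (nat_lit 57688) (nat_lit 156) (.e (nat_lit 163867) (nat_lit 2) (.e (nat_lit 196658) (nat_lit 12) (.e (nat_lit 57550) (nat_lit 48) (.e (nat_lit 720939) (nat_lit 22) .nil)))))))) (.g (nat_lit 4) .nil .nil))) 
(.lf (nat_lit 218676) (.g (nat_lit 3076) (.e (nat_lit 90174) (nat_lit 14) (.e (nat_lit 180243) (nat_lit 5) (.e (nat_lit 532499) (nat_lit 1) (.e (nat_lit 57688) (nat_lit 156) (.e (nat_lit 163875) (nat_lit 3) (.e (nat_lit 204836) (nat_lit 20) (.e (nat_lit 114714) (nat_lit 22) .nil))))))) (.g (nat_lit 4) .nil .nil))))) (.nd (nat_lit 4) (.nd (nat_lit 5) 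
(.lf (nat_lit 218636) (.g (nat_lit 2815) (.e (nat_lit 90174) (nat_lit 14) (.e (nat_lit 180243) (nat_lit 5) (.e (nat_lit 532499) (nat_lit 1) (.e (nat_lit 57688) (nat_lit 156) (.e (nat_lit 163867) (nat_lit 2) (.e (nat_lit 196633) (nat_lit 9) (.e (nat_lit 1279) (nat_lit 94) (.e (nat_lit 114716) (nat_lit 22) .nil)))))))) (.g (nat_lit 4) .nil .nil))) 
(.lf (nat_lit 218668) (.g (nat_lit 3264) (.e (nat_lit 90174) (nat_lit 14) (.e (nat_lit 180243) (nat_lit 5) (.e (nat_lit 532499) (nat_lit 1) (.e (nat_lit 57688) (nat_lit 156) (.e (nat_lit 163873) (nat_lit 3) (.e (nat_lit 204818) (nat_lit 17) (.e (nat_lit 2203) (nat_lit 144) (.e (nat_lit 720941) (nat_lit 22) .nil)))))))) (.g (nat_lit 4) .nil .nil)))) (.nd (nat_lit 5) 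
(.lf (nat_lit 218652) (.g (nat_lit 3075) (.e (nat_lit 90174) (nat_lit 14) (.e (nat_lit 180243) (nat_lit 5) (.e (nat_lit 532499) (nat_lit 1) (.e (nat_lit 57688) (nat_lit 156) (.e (nat_lit 163869) (nat_lit 2) (.e (nat_lit 196624) (nat_lit 9) (.e (nat_lit 1277) (nat_lit 94) (.e (nat_lit 114715) (nat_lit 22) .nil)))))))) (.g (nat_lit 4) .nil .nil))) 
(.lf (nat_lit 218684) (.g (nat_lit 2513) (.e (nat_lit 90174) (nat_lit 14) (.e (nat_lit 180243) (nat_lit 5) (.e (nat_lit 532499) (nat_lit 1) (.e (nat_lit 57691) (nat_lit 156) (.e (nat_lit 163870) (nat_lit 2) (.e (nat_lit 196661) (nat_lit 12) (.e (nat_lit 57549) (nat_lit 48) (.e (nat_lit 720941) (nat_lit 22) .nil)))))))) (.g (nat_lit 4) .nil .nil))))))) 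
(.nd (nat_lit 2) (.nd (nat_lit 3) (.nd (nat_lit 4) (.nd (nat_lit 5) 
(.lf (nat_lit 218626) (.g (nat_lit 2333) (.e (nat_lit 90174) (nat_lit 14) (.e (nat_lit 180243) (nat_lit 5) (.e (nat_lit 532499) (nat_lit 1) (.e (nat_lit 57688) (nat_lit 156) (.e (nat_lit 163867) (nat_lit 2) .nil))))) .nil)) 
(.lf (nat_lit 218658) (.g (nat_lit 2741) (.e (nat_lit 90174) (nat_lit 14) (.e (nat_lit 180243) (nat_lit 5) (.e (nat_lit 532499) (nat_lit 1) (.e (nat_lit 57688) (nat_lit 156) (.e (nat_lit 163871) (nat_lit 2) .nil))))) .nil))) (.nd (nat_lit 5) 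
(.lf (nat_lit 218642) (.g (nat_lit 2824) (.e (nat_lit 90174) (nat_lit 14) (.e (nat_lit 180243) (nat_lit 5) (.e (nat_lit 532499) (nat_lit 1) (.e (nat_lit 57688) (nat_lit 156) (.e (nat_lit 163867) (nat_lit 2) (.e (nat_lit 196639) (nat_lit 9) (.e (nat_lit 1281) (nat_lit 94) (.e (nat_lit 114716) (nat_lit 22) .nil)))))))) (.g (nat_lit 4) .nil .nil))) 
(.lf (nat_lit 218674) (.g (nat_lit 3068) (.e (nat_lit 90174) (nat_lit 14) (.e (nat_lit 180243) (nat_lit 5) (.e (nat_lit 532499) (nat_lit 1) (.e (nat_lit 57688) (nat_lit 156) (.e (nat_lit 163874) (nat_lit 3) (.e (nat_lit 204817) (nat_lit 17) (.e (nat_lit 2203) (nat_lit 144) (.e (nat_lit 720941) (nat_lit 22) .nil)))))))) (.g (nat_lit 4) .nil .nil))))) (.nd (nat_lit 4) (.nd (nat_lit 5) 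
(.lf (nat_lit 218634) (.g (nat_lit 3017) (.e (nat_lit 90174) (nat_lit 14) (.e (nat_lit 180243) (nat_lit 5) (.e (nat_lit 532499) (nat_lit 1) (.e (nat_lit 57688) (nat_lit 156) (.e (nat_lit 163867) (nat_lit 2) (.e (nat_lit 196632) (nat_lit 9) (.e (nat_lit 1280) (nat_lit 94) (.e (nat_lit 114714) (nat_lit 22) .nil)))))))) (.g (nat_lit 4) .nil .nil))) 
(.lf (nat_lit 218666) (.g (nat_lit 3972) (.e (nat_lit 90174) (nat_lit 14) (.e (nat_lit 180243) (nat_lit 5) (.e (nat_lit 532499) (nat_lit 1) (.e (nat_lit 57688) (nat_lit 156) (.e (nat_lit 163873) (nat_lit 3) (.e (nat_lit 204817) (nat_lit 17) (.e (nat_lit 2198) (nat_lit 144) (.e (nat_lit 720941) (nat_lit 22) .nil)))))))) (.g (nat_lit 5) .nil .nil)))) (.nd (nat_lit 5) 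
(.lf (nat_lit 218650) (.g (nat_lit 2687) (.e (nat_lit 90174) (nat_lit 14) (.e (nat_lit 180243) (nat_lit 5) (.e (nat_lit 532499) (nat_lit 1) (.e (nat_lit 57688) (nat_lit 156) (.e (nat_lit 163869) (nat_lit 2) .nil))))) .nil)) 
(.lf (nat_lit 218682) (.g (nat_lit 3024) (.e (nat_lit 90174) (nat_lit 14) (.e (nat_lit 180243) (nat_lit 5) (.e (nat_lit 532499) (nat_lit 1) (.e (nat_lit 57691) (nat_lit 156) (.e (nat_lit 163869) (nat_lit 2) (.e (nat_lit 196624) (nat_lit 9) (.e (nat_lit 1277) (nat_lit 94) (.e (nat_lit 114716) (nat_lit 22) .nil)))))))) (.g (nat_lit 5) .nil .nil)))))) 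
(.nd (nat_lit 3) (.nd (nat_lit 4) (.nd (nat_lit 5) 
(.lf (nat_lit 218630) (.g (nat_lit 4197) (.e (nat_lit 90174) (nat_lit 14) (.e (nat_lit 180243) (nat_lit 5) (.e (nat_lit 532499) (nat_lit 1) (.e (nat_lit 57688) (nat_lit 156) (.e (nat_lit 163867) (nat_lit 2) (.e (nat_lit 196624) (nat_lit 9) (.e (nat_lit 1277) (nat_lit 94) (.e (nat_lit 114716) (nat_lit 22) .nil)))))))) (.g (nat_lit 6) .nil .nil))) 
(.lf (nat_lit 218662) (.g (nat_lit 3596) (.e (nat_lit 90174) (nat_lit 14) (.e (nat_lit 180243) (nat_lit 5) (.e (nat_lit 532499) (nat_lit 1) (.e (nat_lit 57688) (nat_lit 156) (.e (nat_lit 163871) (nat_lit 2) (.e (nat_lit 196677) (nat_lit 16) (.e (nat_lit 122970) (nat_lit 48) (.e (nat_lit 720941) (nat_lit 22) .nil)))))))) (.g (nat_lit 4) .nil .nil)))) (.nd (nat_lit 5) 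
(.lf (nat_lit 218646) (.g (nat_lit 3265) (.e (nat_lit 90174) (nat_lit 14) (.e (nat_lit 180243) (nat_lit 5) (.e (nat_lit 532499) (nat_lit 1) (.e (nat_lit 57688) (nat_lit 156) (.e (nat_lit 163867) (nat_lit 2) (.e (nat_lit 196660) (nat_lit 12) (.e (nat_lit 57550) (nat_lit 48) (.e (nat_lit 720939) (nat_lit 22) .nil)))))))) (.g (nat_lit 4) .nil .nil))) 
(.lf (nat_lit 218678) (.g (nat_lit 1890) (.e (nat_lit 90174) (nat_lit 14) (.e (nat_lit 180243) (nat_lit 5) (.e (nat_lit 532499) (nat_lit 1) (.e (nat_lit 57690) (nat_lit 156) .nil)))) .nil)))) (.nd (nat_lit 4) (.nd (nat_lit 5) 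
(.lf (nat_lit 218638) (.g (nat_lit 3787) (.e (nat_lit 90174) (nat_lit 14) (.e (nat_lit 180243) (nat_lit 5) (.e (nat_lit 532499) (nat_lit 1) (.e (nat_lit 57688) (nat_lit 156) (.e (nat_lit 163867) (nat_lit 2) (.e (nat_lit 196636) (nat_lit 9) (.e (nat_lit 1281) (nat_lit 94) (.e (nat_lit 114716) (nat_lit 22) .nil)))))))) (.g (nat_lit 5) .nil .nil))) 
(.lf (nat_lit 218670) (.g (nat_lit 2600) (.e (nat_lit 90174) (nat_lit 14) (.e (nat_lit 180243) (nat_lit 5) (.e (nat_lit 532499) (nat_lit 1) (.e (nat_lit 57688) (nat_lit 156) (.e (nat_lit 163874) (nat_lit 3) .nil))))) .nil))) (.nd (nat_lit 5) 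
(.lf (nat_lit 218654) (.g (nat_lit 3124) (.e (nat_lit 90174) (nat_lit 14) (.e (nat_lit 180243) (nat_lit 5) (.e (nat_lit 532499) (nat_lit 1) (.e (nat_lit 57688) (nat_lit 156) (.e (nat_lit 163869) (nat_lit 2) (.e (nat_lit 196626) (nat_lit 9) (.e (nat_lit 1284) (nat_lit 94) (.e (nat_lit 114714) (nat_lit 22) .nil)))))))) (.g (nat_lit 4) .nil .nil))) 
(.lf (nat_lit 218686) (.g (nat_lit 2696) (.e (nat_lit 90174) (nat_lit 14) (.e (nat_lit 180243) (nat_lit 5) (.e (nat_lit 532499) (nat_lit 1) (.e (nat_lit 57691) (nat_lit 156) (.e (nat_lit 163871) (nat_lit 2) (.e (nat_lit 196624) (nat_lit 9) (.e (nat_lit 1277) (nat_lit 94) (.e (nat_lit 114715) (nat_lit 22) .nil)))))))) (.g (nat_lit 4) .nil .nil)))))))) 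
(.nd (nat_lit 1) (.nd (nat_lit 2) (.nd (nat_lit 3) (.nd (nat_lit 4) (.nd (nat_lit 5) 
(.lf (nat_lit 218625) (.g (nat_lit 2779) (.e (nat_lit 90174) (nat_lit 14) (.e (nat_lit 180243) (nat_lit 5) (.e (nat_lit 532499) (nat_lit 1) (.e (nat_lit 57688) (nat_lit 156) (.e (nat_lit 163866) (nat_lit 2) .nil))))) .nil)) 
(.lf (nat_lit 218657) (.g (nat_lit 3227) (.e (nat_lit 90174) (nat_lit 14) (.e (nat_lit 180243) (nat_lit 5) (.e (nat_lit 532499) (nat_lit 1) (.e (nat_lit 57688) (nat_lit 156) (.e (nat_lit 163869) (nat_lit 2) (.e (nat_lit 196677) (nat_lit 16) (.e (nat_lit 130816) (nat_lit 48) (.e (nat_lit 720941) (nat_lit 22) .nil)))))))) (.g (nat_lit 4) .nil .nil)))) (.nd (nat_lit 5) 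
(.lf (nat_lit 218641) (.g (nat_lit 2766) (.e (nat_lit 90174) (nat_lit 14) (.e (nat_lit 180243) (nat_lit 5) (.e (nat_lit 532499) (nat_lit 1) (.e (nat_lit 57688) (nat_lit 156) (.e (nat_lit 163867) (nat_lit 2) (.e (nat_lit 196639) (nat_lit 9) (.e (nat_lit 1280) (nat_lit 94) (.e (nat_lit 114716) (nat_lit 22) .nil)))))))) (.g (nat_lit 4) .nil .nil))) 
(.lf (nat_lit 218673) (.g (nat_lit 4235) (.e (nat_lit 90174) (nat_lit 14) (.e (nat_lit 180243) (nat_lit 5) (.e (nat_lit 532499) (nat_lit 1) (.e (nat_lit 57688) (nat_lit 156) (.e (nat_lit 163874) (nat_lit 3) (.e (nat_lit 204817) (nat_lit 17) (.e (nat_lit 2198) (nat_lit 144) (.e (nat_lit 720941) (nat_lit 22) .nil)))))))) (.g (nat_lit 5) .nil .nil))))) (.nd (nat_lit 4) (.nd (nat_lit 5) 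
(.lf (nat_lit 218633) (.g (nat_lit 3921) (.e (nat_lit 90174) (nat_lit 14) (.e (nat_lit 180243) (nat_lit 5) (.e (nat_lit 532499) (nat_lit 1) (.e (nat_lit 57688) (nat_lit 156) (.e (nat_lit 163867) (nat_lit 2) (.e (nat_lit 196629) (nat_lit 9) (.e (nat_lit 1275) (nat_lit 94) (.e (nat_lit 114714) (nat_lit 22) .nil)))))))) (.g (nat_lit 5) .nil .nil))) 
(.lf (nat_lit 218665) (.g (nat_lit 4242) (.e (nat_lit 90174) (nat_lit 14) (.e (nat_lit 180243) (nat_lit 5) (.e (nat_lit 532499) (nat_lit 1) (.e (nat_lit 57688) (nat_lit 156) (.e (nat_lit 163873) (nat_lit 3) (.e (nat_lit 204815) (nat_lit 17) (.e (nat_lit 2203) (nat_lit 144) (.e (nat_lit 720941) (nat_lit 22) .nil)))))))) (.g (nat_lit 5) .nil .nil)))) (.nd (nat_lit 5) 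
(.lf (nat_lit 218649) (.g (nat_lit 3181) (.e (nat_lit 90174) (nat_lit 14) (.e (nat_lit 180243) (nat_lit 5) (.e (nat_lit 532499) (nat_lit 1) (.e (nat_lit 57688) (nat_lit 156) (.e (nat_lit 163868) (nat_lit 2) (.e (nat_lit 196624) (nat_lit 9) (.e (nat_lit 1276) (nat_lit 94) (.e (nat_lit 114716) (nat_lit 22) .nil)))))))) (.g (nat_lit 4) .nil .nil))) 
(.lf (nat_lit 218681) (.g (nat_lit 2406) (.e (nat_lit 90174) (nat_lit 14) (.e (nat_lit 180243) (nat_lit 5) (.e (nat_lit 532499) (nat_lit 1) (.e (nat_lit 57691) (nat_lit 156) (.e (nat_lit 163869) (nat_lit 2) (.e (nat_lit 196624) (nat_lit 9) (.e (nat_lit 1277) (nat_lit 94) (.e (nat_lit 114715) (nat_lit 22) .nil)))))))) (.g (nat_lit 4) .nil .nil)))))) 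
(.nd (nat_lit 3) (.nd (nat_lit 4) (.nd (nat_lit 5) 
(.lf (nat_lit 218629) (.g (nat_lit 3579) (.e (nat_lit 90174) (nat_lit 14) (.e (nat_lit 180243) (nat_lit 5) (.e (nat_lit 532499) (nat_lit 1) (.e (nat_lit 57688) (nat_lit 156) (.e (nat_lit 163867) (nat_lit 2) (.e (nat_lit 196624) (nat_lit 9) (.e (nat_lit 1277) (nat_lit 94) (.e (nat_lit 114715) (nat_lit 22) .nil)))))))) (.g (nat_lit 5) .nil .nil))) 
(.lf (nat_lit 218661) (.g (nat_lit 3301) (.e (nat_lit 90174) (nat_lit 14) (.e (nat_lit 180243) (nat_lit 5) (.e (nat_lit 532499) (nat_lit 1) (.e (nat_lit 57688) (nat_lit 156) (.e (nat_lit 163871) (nat_lit 2) (.e (nat_lit 196660) (nat_lit 12) (.e (nat_lit 57550) (nat_lit 48) (.e (nat_lit 720939) (nat_lit 22) .nil)))))))) (.g (nat_lit 4) .nil .nil)))) (.nd (nat_lit 5) 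
(.lf (nat_lit 218645) (.g (nat_lit 2809) (.e (nat_lit 90174) (nat_lit 14) (.e (nat_lit 180243) (nat_lit 5) (.e (nat_lit 532499) (nat_lit 1) (.e (nat_lit 57688) (nat_lit 156) (.e (nat_lit 163867) (nat_lit 2) (.e (nat_lit 196658) (nat_lit 12) (.e (nat_lit 57551) (nat_lit 48) (.e (nat_lit 720941) (nat_lit 22) .nil)))))))) (.g (nat_lit 4) .nil .nil))) 
(.lf (nat_lit 218677) (.g (nat_lit 1890) (.e (nat_lit 90174) (nat_lit 14) (.e (nat_lit 180243) (nat_lit 5) (.e (nat_lit 532499) (nat_lit 1) (.e (nat_lit 57689) (nat_lit 156) .nil)))) .nil)))) (.nd (nat_lit 4) (.nd (nat_lit 5) 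
(.lf (nat_lit 218637) (.g (nat_lit 3011) (.e (nat_lit 90174) (nat_lit 14) (.e (nat_lit 180243) (nat_lit 5) (.e (nat_lit 532499) (nat_lit 1) (.e (nat_lit 57688) (nat_lit 156) (.e (nat_lit 163867) (nat_lit 2) (.e (nat_lit 196636) (nat_lit 9) (.e (nat_lit 1279) (nat_lit 94) (.e (nat_lit 114714) (nat_lit 22) .nil)))))))) (.g (nat_lit 4) .nil .nil))) 
(.lf (nat_lit 218669) (.g (nat_lit 2824) (.e (nat_lit 90174) (nat_lit 14) (.e (nat_lit 180243) (nat_lit 5) (.e (nat_lit 532499) (nat_lit 1) (.e (nat_lit 57688) (nat_lit 156) (.e (nat_lit 163873) (nat_lit 3) (.e (nat_lit 204836) (nat_lit 20) (.e (nat_lit 114714) (nat_lit 22) .nil))))))) (.g (nat_lit 4) .nil .nil)))) (.nd (nat_lit 5) 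
(.lf (nat_lit 218653) (.g (nat_lit 2938) (.e (nat_lit 90174) (nat_lit 14) (.e (nat_lit 180243) (nat_lit 5) (.e (nat_lit 532499) (nat_lit 1) (.e (nat_lit 57688) (nat_lit 156) (.e (nat_lit 163869) (nat_lit 2) (.e (nat_lit 196626) (nat_lit 9) (.e (nat_lit 1278) (nat_lit 94) (.e (nat_lit 114714) (nat_lit 22) .nil)))))))) (.g (nat_lit 4) .nil .nil))) 
(.lf (nat_lit 218685) (.g (nat_lit 1957) (.e (nat_lit 90174) (nat_lit 14) (.e (nat_lit 180243) (nat_lit 5) (.e (nat_lit 532499) (nat_lit 1) (.e (nat_lit 57691) (nat_lit 156) (.e (nat_lit 163871) (nat_lit 2) .nil))))) .nil)))))) (.nd (nat_lit 2) (.nd (nat_lit 3) (.nd (nat_lit 4) (.nd (nat_lit 5) 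
(.lf (nat_lit 218627) (.g (nat_lit 2718) (.e (nat_lit 90174) (nat_lit 14) (.e (nat_lit 180243) (nat_lit 5) (.e (nat_lit 532499) (nat_lit 1) (.e (nat_lit 57688) (nat_lit 156) (.e (nat_lit 163867) (nat_lit 2) (.e (nat_lit 196617) (nat_lit 9) (.e (nat_lit 1275) (nat_lit 94) (.e (nat_lit 114716) (nat_lit 22) .nil)))))))) (.g (nat_lit 4) .nil .nil))) 
(.lf (nat_lit 218659) (.g (nat_lit 3095) (.e (nat_lit 90174) (nat_lit 14) (.e (nat_lit 180243) (nat_lit 5) (.e (nat_lit 532499) (nat_lit 1) (.e (nat_lit 57688) (nat_lit 156) (.e (nat_lit 163871) (nat_lit 2) (.e (nat_lit 196624) (nat_lit 9) (.e (nat_lit 1276) (nat_lit 94) (.e (nat_lit 114716) (nat_lit 22) .nil)))))))) (.g (nat_lit 4) .nil .nil)))) (.nd (nat_lit 5) 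
(.lf (nat_lit 218643) (.g (nat_lit 2918) (.e (nat_lit 90174) (nat_lit 14) (.e (nat_lit 180243) (nat_lit 5) (.e (nat_lit 532499) (nat_lit 1) (.e (nat_lit 57688) (nat_lit 156) (.e (nat_lit 163867) (nat_lit 2) (.e (nat_lit 196643) (nat_lit 9) (.e (nat_lit 1279) (nat_lit 94) (.e (nat_lit 114714) (nat_lit 22) .nil)))))))) (.g (nat_lit 4) .nil .nil))) 
(.lf (nat_lit 218675) (.g (nat_lit 3261) (.e (nat_lit 90174) (nat_lit 14) (.e (nat_lit 180243) (nat_lit 5) (.e (nat_lit 532499) (nat_lit 1) (.e (nat_lit 57688) (nat_lit 156) (.e (nat_lit 163875) (nat_lit 3) (.e (nat_lit 204817) (nat_lit 17) (.e (nat_lit 2198) (nat_lit 144) (.e (nat_lit 720941) (nat_lit 22) .nil)))))))) (.g (nat_lit 4) .nil .nil))))) (.nd (nat_lit 4) (.nd (nat_lit 5) 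
(.lf (nat_lit 218635) (.g (nat_lit 3582) (.e (nat_lit 90174) (nat_lit 14) (.e (nat_lit 180243) (nat_lit 5) (.e (nat_lit 532499) (nat_lit 1) (.e (nat_lit 57688) (nat_lit 156) (.e (nat_lit 163867) (nat_lit 2) (.e (nat_lit 196632) (nat_lit 9) (.e (nat_lit 1280) (nat_lit 94) (.e (nat_lit 114716) (nat_lit 22) .nil)))))))) (.g (nat_lit 5) .nil .nil))) 
(.lf (nat_lit 218667) (.g (nat_lit 2714) (.e (nat_lit 90174) (nat_lit 14) (.e (nat_lit 180243) (nat_lit 5) (.e (nat_lit 532499) (nat_lit 1) (.e (nat_lit 57688) (nat_lit 156) (.e (nat_lit 163873) (nat_lit 3) (.e (nat_lit 204817) (nat_lit 17) (.e (nat_lit 2203) (nat_lit 144) (.e (nat_lit 720941) (nat_lit 22) .nil)))))))) (.g (nat_lit 4) .nil .nil)))) (.nd (nat_lit 5) 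
(.lf (nat_lit 218651) (.g (nat_lit 2785) (.e (nat_lit 90174) (nat_lit 14) (.e (nat_lit 180243) (nat_lit 5) (.e (nat_lit 532499) (nat_lit 1) (.e (nat_lit 57688) (nat_lit 156) (.e (nat_lit 163869) (nat_lit 2) (.e (nat_lit 196624) (nat_lit 9) (.e (nat_lit 1276) (nat_lit 94) (.e (nat_lit 114716) (nat_lit 22) .nil)))))))) (.g (nat_lit 4) .nil .nil))) 
(.lf (nat_lit 218683) (.g (nat_lit 2558) (.e (nat_lit 90174) (nat_lit 14) (.e (nat_lit 180243) (nat_lit 5) (.e (nat_lit 532499) (nat_lit 1) (.e (nat_lit 57691) (nat_lit 156) (.e (nat_lit 163869) (nat_lit 2) (.e (nat_lit 196677) (nat_lit 16) (.e (nat_lit 130816) (nat_lit 48) (.e (nat_lit 720941) (nat_lit 22) .nil)))))))) (.g (nat_lit 4) .nil .nil)))))) 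
(.nd (nat_lit 3) (.nd (nat_lit 4) (.nd (nat_lit 5) 
(.lf (nat_lit 218631) (.g (nat_lit 2923) (.e (nat_lit 90174) (nat_lit 14) (.e (nat_lit 180243) (nat_lit 5) (.e (nat_lit 532499) (nat_lit 1) (.e (nat_lit 57688) (nat_lit 156) (.e (nat_lit 163867) (nat_lit 2) (.e (nat_lit 196626) (nat_lit 9) (.e (nat_lit 1284) (nat_lit 94) (.e (nat_lit 114714) (nat_lit 22) .nil)))))))) (.g (nat_lit 4) .nil .nil))) 
(.lf (nat_lit 218663) (.g (nat_lit 2641) (.e (nat_lit 90174) (nat_lit 14) (.e (nat_lit 180243) (nat_lit 5) (.e (nat_lit 532499) (nat_lit 1) (.e (nat_lit 57688) (nat_lit 156) (.e (nat_lit 163872) (nat_lit 3) .nil))))) .nil))) (.nd (nat_lit 5) 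
(.lf (nat_lit 218647) (.g (nat_lit 2995) (.e (nat_lit 90174) (nat_lit 14) (.e (nat_lit 180243) (nat_lit 5) (.e (nat_lit 532499) (nat_lit 1) (.e (nat_lit 57688) (nat_lit 156) (.e (nat_lit 163867) (nat_lit 2) (.e (nat_lit 196660) (nat_lit 12) (.e (nat_lit 57550) (nat_lit 48) (.e (nat_lit 720941) (nat_lit 22) .nil)))))))) (.g (nat_lit 4) .nil .nil))) 
(.lf (nat_lit 218679) (.g (nat_lit 1143) (.e (nat_lit 90174) (nat_lit 14) (.e (nat_lit 180243) (nat_lit 5) (.e (nat_lit 532499) (nat_lit 1) (.e (nat_lit 57691) (nat_lit 156) .nil)))) .nil)))) (.nd (nat_lit 4) (.nd (nat_lit 5) 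
(.lf (nat_lit 218639) (.g (nat_lit 2996) (.e (nat_lit 90174) (nat_lit 14) (.e (nat_lit 180243) (nat_lit 5) (.e (nat_lit 532499) (nat_lit 1) (.e (nat_lit 57688) (nat_lit 156) (.e (nat_lit 163867) (nat_lit 2) (.e (nat_lit 196638) (nat_lit 9) (.e (nat_lit 1279) (nat_lit 94) (.e (nat_lit 114714) (nat_lit 22) .nil)))))))) (.g (nat_lit 4) .nil .nil))) 
(.lf (nat_lit 218671) (.g (nat_lit 3385) (.e (nat_lit 90174) (nat_lit 14) (.e (nat_lit 180243) (nat_lit 5) (.e (nat_lit 532499) (nat_lit 1) (.e (nat_lit 57688) (nat_lit 156) (.e (nat_lit 163874) (nat_lit 3) (.e (nat_lit 204815) (nat_lit 17) (.e (nat_lit 2198) (nat_lit 144) (.e (nat_lit 720941) (nat_lit 22) .nil)))))))) (.g (nat_lit 4) .nil .nil)))) (.nd (nat_lit 5) 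
(.lf (nat_lit 218655) (.g (nat_lit 2799) (.e (nat_lit 90174) (nat_lit 14) (.e (nat_lit 180243) (nat_lit 5) (.e (nat_lit 532499) (nat_lit 1) (.e (nat_lit 57688) (nat_lit 156) (.e (nat_lit 163869) (nat_lit 2) (.e (nat_lit 196677) (nat_lit 16) (.e (nat_lit 122969) (nat_lit 48) (.e (nat_lit 720939) (nat_lit 22) .nil)))))))) (.g (nat_lit 4) .nil .nil))) 
(.lf (nat_lit 218687) (.g (nat_lit 2596) (.e (nat_lit 90174) (nat_lit 14) (.e (nat_lit 180243) (nat_lit 5) (.e (nat_lit 532499) (nat_lit 1) (.e (nat_lit 57691) (nat_lit 156) (.e (nat_lit 163871) (nat_lit 2) (.e (nat_lit 196660) (nat_lit 12) (.e (nat_lit 57550) (nat_lit 48) (.e (nat_lit 720941) (nat_lit 22) .nil)))))))) (.g (nat_lit 4) .nil .nil)))))))))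

noncomputable def tv2874 : DT := (.nd (nat_lit 0) (.nd (nat_lit 1) (.nd (nat_lit 2) (.nd (nat_lit 3) (.nd (nat_lit 4) (.nd (nat_lit 5) 
(.lf (nat_lit 218688) (.g (nat_lit 3279) (.e (nat_lit 90174) (nat_lit 14) (.e (nat_lit 180243) (nat_lit 5) (.e (nat_lit 532499) (nat_lit 1) (.e (nat_lit 57691) (nat_lit 156) (.e (nat_lit 163871) (nat_lit 2) (.e (nat_lit 196677) (nat_lit 16) (.e (nat_lit 130816) (nat_lit 48) (.e (nat_lit 720941) (nat_lit 22) .nil)))))))) (.g (nat_lit 5) .nil .nil))) 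
(.lf (nat_lit 218720) (.g (nat_lit 3008) (.e (nat_lit 90174) (nat_lit 14) (.e (nat_lit 180243) (nat_lit 5) (.e (nat_lit 532499) (nat_lit 1) (.e (nat_lit 57692) (nat_lit 156) (.e (nat_lit 163871) (nat_lit 2) (.e (nat_lit 196660) (nat_lit 12) (.e (nat_lit 57550) (nat_lit 48) (.e (nat_lit 720941) (nat_lit 22) .nil)))))))) (.g (nat_lit 4) .nil .nil)))) (.nd (nat_lit 5) 
(.lf (nat_lit 218704) (.g (nat_lit 2462) (.e (nat_lit 90174) (nat_lit 14) (.e (nat_lit 180243) (nat_lit 5) (.e (nat_lit 532499) (nat_lit 1) (.e (nat_lit 57692) (nat_lit 156) (.e (nat_lit 163869) (nat_lit 2) (.e (nat_lit 196658) (nat_lit 12) (.e (nat_lit 57549) (nat_lit 48) (.e (nat_lit 720941) (nat_lit 22) .nil)))))))) (.g (nat_lit 4) .nil .nil))) 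
(.lf (nat_lit 218736) (.g (nat_lit 3506) (.e (nat_lit 90174) (nat_lit 14) (.e (nat_lit 180243) (nat_lit 5) (.e (nat_lit 532499) (nat_lit 1) (.e (nat_lit 57692) (nat_lit 156) (.e (nat_lit 163875) (nat_lit 3) (.e (nat_lit 204836) (nat_lit 20) (.e (nat_lit 114714) (nat_lit 22) .nil))))))) (.g (nat_lit 5) .nil .nil))))) (.nd (nat_lit 4) (.nd (nat_lit 5) 
(.lf (nat_lit 218696) (.g (nat_lit 3285) (.e (nat_lit 90174) (nat_lit 14) (.e (nat_lit 180243) (nat_lit 5) (.e (nat_lit 532499) (nat_lit 1) (.e (nat_lit 57692) (nat_lit 156) (.e (nat_lit 163869) (nat_lit 2) (.e (nat_lit 196624) (nat_lit 9) (.e (nat_lit 1277) (nat_lit 94) (.e (nat_lit 114715) (nat_lit 22) .nil)))))))) (.g (nat_lit 5) .nil .nil))) 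
(.lf (nat_lit 218728) (.g (nat_lit 3323) (.e (nat_lit 90174) (nat_lit 14) (.e (nat_lit 180243) (nat_lit 5) (.e (nat_lit 532499) (nat_lit 1) (.e (nat_lit 57692) (nat_lit 156) (.e (nat_lit 163874) (nat_lit 3) (.e (nat_lit 204815) (nat_lit 17) (.e (nat_lit 2198) (nat_lit 144) (.e (nat_lit 720941) (nat_lit 22) .nil)))))))) (.g (nat_lit 5) .nil .nil)))) (.nd (nat_lit 5) 
(.lf (nat_lit 218712) (.g (nat_lit 3227) (.e (nat_lit 90174) (nat_lit 14) (.e (nat_lit 180243) (nat_lit 5) (.e (nat_lit 532499) (nat_lit 1) (.e (nat_lit 57692) (nat_lit 156) (.e (nat_lit 163869) (nat_lit 2) (.e (nat_lit 196677) (nat_lit 16) (.e (nat_lit 122969) (nat_lit 48) (.e (nat_lit 720939) (nat_lit 22) .nil)))))))) (.g (nat_lit 5) .nil .nil))) 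
(.lf (nat_lit 218744) (.g (nat_lit 1437) (.e (nat_lit 90174) (nat_lit 14) (.e (nat_lit 180243) (nat_lit 5) (.e (nat_lit 532501) (nat_lit 1) (.e (nat_lit 57689) (nat_lit 156) .nil)))) .nil))))) (.nd (nat_lit 3) (.nd (nat_lit 4) (.nd (nat_lit 5) 
(.lf (nat_lit 218692) (.g (nat_lit 3631) (.e (nat_lit 90174) (nat_lit 14) (.e (nat_lit 180243) (nat_lit 5) (.e (nat_lit 532499) (nat_lit 1) (.e (nat_lit 57691) (nat_lit 156) (.e (nat_lit 163875) (nat_lit 3) (.e (nat_lit 204818) (nat_lit 17) (.e (nat_lit 2203) (nat_lit 144) (.e (nat_lit 720941) (nat_lit 22) .nil)))))))) (.g (nat_lit 5) .nil .nil))) 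
(.lf (nat_lit 218724) (.g (nat_lit 2502) (.e (nat_lit 90174) (nat_lit 14) (.e (nat_lit 180243) (nat_lit 5) (.e (nat_lit 532499) (nat_lit 1) (.e (nat_lit 57692) (nat_lit 156) (.e (nat_lit 163871) (nat_lit 2) (.e (nat_lit 196677) (nat_lit 16) (.e (nat_lit 122970) (nat_lit 48) (.e (nat_lit 720939) (nat_lit 22) .nil)))))))) (.g (nat_lit 4) .nil .nil)))) (.nd (nat_lit 5) 
(.lf (nat_lit 218708) (.g (nat_lit 3544) (.e (nat_lit 90174) (nat_lit 14) (.e (nat_lit 180243) (nat_lit 5) (.e (nat_lit 532499) (nat_lit 1) (.e (nat_lit 57692) (nat_lit 156) (.e (nat_lit 163869) (nat_lit 2) (.e (nat_lit 196659) (nat_lit 12) (.e (nat_lit 57550) (nat_lit 48) (.e (nat_lit 720939) (nat_lit 22) .nil)))))))) (.g (nat_lit 5) .nil .nil))) 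
(.lf (nat_lit 218740) (.g (nat_lit 2092) (.e (nat_lit 90174) (nat_lit 14) (.e (nat_lit 180243) (nat_lit 5) (.e (nat_lit 532500) (nat_lit 1) (.e (nat_lit 57692) (nat_lit 156) (.e (nat_lit 163869) (nat_lit 2) .nil))))) .nil)))) (.nd (nat_lit 4) (.nd (nat_lit 5) 
(.lf (nat_lit 218700) (.g (nat_lit 2407) (.e (nat_lit 90174) (nat_lit 14) (.e (nat_lit 180243) (nat_lit 5) (.e (nat_lit 532499) (nat_lit 1) (.e (nat_lit 57692) (nat_lit 156) (.e (nat_lit 163869) (nat_lit 2) (.e (nat_lit 196632) (nat_lit 9) (.e (nat_lit 1280) (nat_lit 94) (.e (nat_lit 114716) (nat_lit 22) .nil)))))))) (.g (nat_lit 4) .nil .nil))) 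
(.lf (nat_lit 218732) (.g (nat_lit 2717) (.e (nat_lit 90174) (nat_lit 14) (.e (nat_lit 180243) (nat_lit 5) (.e (nat_lit 532499) (nat_lit 1) (.e (nat_lit 57692) (nat_lit 156) (.e (nat_lit 163874) (nat_lit 3) (.e (nat_lit 204818) (nat_lit 17) (.e (nat_lit 2202) (nat_lit 144) (.e (nat_lit 720941) (nat_lit 22) .nil)))))))) (.g (nat_lit 4) .nil .nil)))) (.nd (nat_lit 5) 
(.lf (nat_lit 218716) (.g (nat_lit 2092) (.e (nat_lit 90174) (nat_lit 14) (.e (nat_lit 180243) (nat_lit 5) (.e (nat_lit 532499) (nat_lit 1) (.e (nat_lit 57692) (nat_lit 156) (.e (nat_lit 163870) (nat_lit 2) .nil))))) .nil)) 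
(.lf (nat_lit 218748) (.g (nat_lit 2785) (.e (nat_lit 90174) (nat_lit 14) (.e (nat_lit 180243) (nat_lit 5) (.e (nat_lit 532501) (nat_lit 1) (.e (nat_lit 57690) (nat_lit 156) (.e (nat_lit 163871) (nat_lit 2) (.e (nat_lit 196660) (nat_lit 12) (.e (nat_lit 57550) (nat_lit 48) (.e (nat_lit 720939) (nat_lit 22) .nil)))))))) (.g (nat_lit 5) .nil .nil))))))) 
(.nd (nat_lit 2) (.nd (nat_lit 3) (.nd (nat_lit 4) (.nd (nat_lit 5) 
(.lf (nat_lit 218690) (.g (nat_lit 3863) (.e (nat_lit 90174) (nat_lit 14) (.e (nat_lit 180243) (nat_lit 5) (.e (nat_lit 532499) (nat_lit 1) (.e (nat_lit 57691) (nat_lit 156) (.e (nat_lit 163875) (nat_lit 3) (.e (nat_lit 204815) (nat_lit 17) (.e (nat_lit 2203) (nat_lit 144) (.e (nat_lit 720941) (nat_lit 22) .nil)))))))) (.g (nat_lit 5) .nil .nil))) 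
(.lf (nat_lit 218722) (.g (nat_lit 3464) (.e (nat_lit 90174) (nat_lit 14) (.e (nat_lit 180243) (nat_lit 5) (.e (nat_lit 532499) (nat_lit 1) (.e (nat_lit 57692) (nat_lit 156) (.e (nat_lit 163871) (nat_lit 2) (.e (nat_lit 196677) (nat_lit 16) (.e (nat_lit 122969) (nat_lit 48) (.e (nat_lit 720939) (nat_lit 22) .nil)))))))) (.g (nat_lit 5) .nil .nil)))) (.nd (nat_lit 5) 
(.lf (nat_lit 218706) (.g (nat_lit 2746) (.e (nat_lit 90174) (nat_lit 14) (.e (nat_lit 180243) (nat_lit 5) (.e (nat_lit 532499) (nat_lit 1) (.e (nat_lit 57692) (nat_lit 156) (.e (nat_lit 163869) (nat_lit 2) (.e (nat_lit 196658) (nat_lit 12) (.e (nat_lit 57551) (nat_lit 48) (.e (nat_lit 720939) (nat_lit 22) .nil)))))))) (.g (nat_lit 4) .nil .nil))) 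
(.lf (nat_lit 218738) (.g (nat_lit 2846) (.e (nat_lit 90174) (nat_lit 14) (.e (nat_lit 180243) (nat_lit 5) (.e (nat_lit 532500) (nat_lit 1) (.e (nat_lit 57691) (nat_lit 156) (.e (nat_lit 163875) (nat_lit 3) (.e (nat_lit 204838) (nat_lit 20) (.e (nat_lit 114714) (nat_lit 22) .nil))))))) (.g (nat_lit 4) .nil .nil))))) (.nd (nat_lit 4) (.nd (nat_lit 5) 
(.lf (nat_lit 218698) (.g (nat_lit 3252) (.e (nat_lit 90174) (nat_lit 14) (.e (nat_lit 180243) (nat_lit 5) (.e (nat_lit 532499) (nat_lit 1) (.e (nat_lit 57692) (nat_lit 156) (.e (nat_lit 163869) (nat_lit 2) (.e (nat_lit 196626) (nat_lit 9) (.e (nat_lit 1278) (nat_lit 94) (.e (nat_lit 114716) (nat_lit 22) .nil)))))))) (.g (nat_lit 5) .nil .nil))) 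
(.lf (nat_lit 218730) (.g (nat_lit 3461) (.e (nat_lit 90174) (nat_lit 14) (.e (nat_lit 180243) (nat_lit 5) (.e (nat_lit 532499) (nat_lit 1) (.e (nat_lit 57692) (nat_lit 156) (.e (nat_lit 163874) (nat_lit 3) (.e (nat_lit 204817) (nat_lit 17) (.e (nat_lit 2198) (nat_lit 144) (.e (nat_lit 720941) (nat_lit 22) .nil)))))))) (.g (nat_lit 5) .nil .nil)))) (.nd (nat_lit 5) 
(.lf (nat_lit 218714) (.g (nat_lit 2422) (.e (nat_lit 90174) (nat_lit 14) (.e (nat_lit 180243) (nat_lit 5) (.e (nat_lit 532499) (nat_lit 1) (.e (nat_lit 57692) (nat_lit 156) (.e (nat_lit 163869) (nat_lit 2) (.e (nat_lit 196677) (nat_lit 16) (.e (nat_lit 122970) (nat_lit 48) (.e (nat_lit 720939) (nat_lit 22) .nil)))))))) (.g (nat_lit 4) .nil .nil))) 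
(.lf (nat_lit 218746) (.g (nat_lit 3134) (.e (nat_lit 90174) (nat_lit 14) (.e (nat_lit 180243) (nat_lit 5) (.e (nat_lit 532501) (nat_lit 1) (.e (nat_lit 57689) (nat_lit 156) (.e (nat_lit 163875) (nat_lit 3) (.e (nat_lit 204836) (nat_lit 20) (.e (nat_lit 114714) (nat_lit 22) .nil))))))) (.g (nat_lit 5) .nil .nil)))))) (.nd (nat_lit 3) (.nd (nat_lit 4) (.nd (nat_lit 5) 
(.lf (nat_lit 218694) (.g (nat_lit 1180) (.e (nat_lit 90174) (nat_lit 14) (.e (nat_lit 180243) (nat_lit 5) (.e (nat_lit 532499) (nat_lit 1) (.e (nat_lit 57692) (nat_lit 156) .nil)))) .nil)) 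
(.lf (nat_lit 218726) (.g (nat_lit 1954) (.e (nat_lit 90174) (nat_lit 14) (.e (nat_lit 180243) (nat_lit 5) (.e (nat_lit 532499) (nat_lit 1) (.e (nat_lit 57692) (nat_lit 156) (.e (nat_lit 163872) (nat_lit 3) .nil))))) .nil))) (.nd (nat_lit 5) 
(.lf (nat_lit 218710) (.g (nat_lit 2618) (.e (nat_lit 90174) (nat_lit 14) (.e (nat_lit 180243) (nat_lit 5) (.e (nat_lit 532499) (nat_lit 1) (.e (nat_lit 57692) (nat_lit 156) (.e (nat_lit 163869) (nat_lit 2) (.e (nat_lit 196661) (nat_lit 12) (.e (nat_lit 57549) (nat_lit 48) (.e (nat_lit 720939) (nat_lit 22) .nil)))))))) (.g (nat_lit 4) .nil .nil))) 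
(.lf (nat_lit 218742) (.g (nat_lit 2450) (.e (nat_lit 90174) (nat_lit 14) (.e (nat_lit 180243) (nat_lit 5) (.e (nat_lit 532501) (nat_lit 1) (.e (nat_lit 57663) (nat_lit 152) (.e (nat_lit 2461) (nat_lit 157) (.e (nat_lit 2684) (nat_lit 168) (.e (nat_lit 204817) (nat_lit 17) (.e (nat_lit 2198) (nat_lit 144) (.e (nat_lit 720941) (nat_lit 22) .nil))))))))) (.g (nat_lit 4) .nil .nil))))) 
(.nd (nat_lit 4) (.nd (nat_lit 5) 
(.lf (nat_lit 218702) (.g (nat_lit 3343) (.e (nat_lit 90174) (nat_lit 14) (.e (nat_lit 180243) (nat_lit 5) (.e (nat_lit 532499) (nat_lit 1) (.e (nat_lit 57692) (nat_lit 156) (.e (nat_lit 163869) (nat_lit 2) (.e (nat_lit 196638) (nat_lit 9) (.e (nat_lit 1281) (nat_lit 94) (.e (nat_lit 114716) (nat_lit 22) .nil)))))))) (.g (nat_lit 5) .nil .nil))) 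
(.lf (nat_lit 218734) (.g (nat_lit 2709) (.e (nat_lit 90174) (nat_lit 14) (.e (nat_lit 180243) (nat_lit 5) (.e (nat_lit 532499) (nat_lit 1) (.e (nat_lit 57692) (nat_lit 156) (.e (nat_lit 163874) (nat_lit 3) (.e (nat_lit 204822) (nat_lit 17) (.e (nat_lit 2184) (nat_lit 144) (.e (nat_lit 720941) (nat_lit 22) .nil)))))))) (.g (nat_lit 4) .nil .nil)))) (.nd (nat_lit 5) 
(.lf (nat_lit 218718) (.g (nat_lit 2851) (.e (nat_lit 90174) (nat_lit 14) (.e (nat_lit 180243) (nat_lit 5) (.e (nat_lit 532499) (nat_lit 1) (.e (nat_lit 57692) (nat_lit 156) (.e (nat_lit 163870) (nat_lit 2) (.e (nat_lit 196661) (nat_lit 12) (.e (nat_lit 57549) (nat_lit 48) (.e (nat_lit 720941) (nat_lit 22) .nil)))))))) (.g (nat_lit 4) .nil .nil))) 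
(.lf (nat_lit 218750) (.g (nat_lit 2819) (.e (nat_lit 90174) (nat_lit 14) (.e (nat_lit 180243) (nat_lit 5) (.e (nat_lit 532501) (nat_lit 1) (.e (nat_lit 57690) (nat_lit 156) (.e (nat_lit 163875) (nat_lit 3) (.e (nat_lit 204817) (nat_lit 17) (.e (nat_lit 2198) (nat_lit 144) (.e (nat_lit 720941) (nat_lit 22) .nil)))))))) (.g (nat_lit 5) .nil .nil)))))))) 
(.nd (nat_lit 1) (.nd (nat_lit 2) (.nd (nat_lit 3) (.nd (nat_lit 4) (.nd (nat_lit 5) 
(.lf (nat_lit 218689) (.g (nat_lit 2542) (.e (nat_lit 90174) (nat_lit 14) (.e (nat_lit 180243) (nat_lit 5) (.e (nat_lit 532499) (nat_lit 1) (.e (nat_lit 57691) (nat_lit 156) (.e (nat_lit 163874) (nat_lit 3) (.e (nat_lit 204815) (nat_lit 17) (.e (nat_lit 2203) (nat_lit 144) (.e (nat_lit 720941) (nat_lit 22) .nil)))))))) (.g (nat_lit 4) .nil .nil))) 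
(.lf (nat_lit 218721) (.g (nat_lit 2498) (.e (nat_lit 90174) (nat_lit 14) (.e (nat_lit 180243) (nat_lit 5) (.e (nat_lit 532499) (nat_lit 1) (.e (nat_lit 57692) (nat_lit 156) (.e (nat_lit 163871) (nat_lit 2) (.e (nat_lit 196677) (nat_lit 16) (.e (nat_lit 122969) (nat_lit 48) (.e (nat_lit 720938) (nat_lit 22) .nil)))))))) (.g (nat_lit 4) .nil .nil)))) (.nd (nat_lit 5) 
(.lf (nat_lit 218705) (.g (nat_lit 3436) (.e (nat_lit 90174) (nat_lit 14) (.e (nat_lit 180243) (nat_lit 5) (.e (nat_lit 532499) (nat_lit 1) (.e (nat_lit 57692) (nat_lit 156) (.e (nat_lit 163869) (nat_lit 2) (.e (nat_lit 196658) (nat_lit 12) (.e (nat_lit 57550) (nat_lit 48) (.e (nat_lit 720939) (nat_lit 22) .nil)))))))) (.g (nat_lit 5) .nil .nil))) 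
(.lf (nat_lit 218737) (.g (nat_lit 1890) (.e (nat_lit 90174) (nat_lit 14) (.e (nat_lit 180243) (nat_lit 5) (.e (nat_lit 532499) (nat_lit 1) (.e (nat_lit 57757) (nat_lit 209) .nil)))) .nil)))) (.nd (nat_lit 4) (.nd (nat_lit 5) 
(.lf (nat_lit 218697) (.g (nat_lit 3903) (.e (nat_lit 90174) (nat_lit 14) (.e (nat_lit 180243) (nat_lit 5) (.e (nat_lit 532499) (nat_lit 1) (.e (nat_lit 57692) (nat_lit 156) (.e (nat_lit 163869) (nat_lit 2) (.e (nat_lit 196624) (nat_lit 9) (.e (nat_lit 1277) (nat_lit 94) (.e (nat_lit 114716) (nat_lit 22) .nil)))))))) (.g (nat_lit 6) .nil .nil))) 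
(.lf (nat_lit 218729) (.g (nat_lit 3805) (.e (nat_lit 90174) (nat_lit 14) (.e (nat_lit 180243) (nat_lit 5) (.e (nat_lit 532499) (nat_lit 1) (.e (nat_lit 57692) (nat_lit 156) (.e (nat_lit 163874) (nat_lit 3) (.e (nat_lit 204815) (nat_lit 17) (.e (nat_lit 2203) (nat_lit 144) (.e (nat_lit 720941) (nat_lit 22) .nil)))))))) (.g (nat_lit 5) .nil .nil)))) (.nd (nat_lit 5) 
(.lf (nat_lit 218713) (.g (nat_lit 3425) (.e (nat_lit 90174) (nat_lit 14) (.e (nat_lit 180243) (nat_lit 5) (.e (nat_lit 532499) (nat_lit 1) (.e (nat_lit 57692) (nat_lit 156) (.e (nat_lit 163869) (nat_lit 2) (.e (nat_lit 196677) (nat_lit 16) (.e (nat_lit 122969) (nat_lit 48) (.e (nat_lit 720941) (nat_lit 22) .nil)))))))) (.g (nat_lit 5) .nil .nil))) 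
(.lf (nat_lit 218745) (.g (nat_lit 3398) (.e (nat_lit 90174) (nat_lit 14) (.e (nat_lit 180243) (nat_lit 5) (.e (nat_lit 532501) (nat_lit 1) (.e (nat_lit 57689) (nat_lit 156) (.e (nat_lit 163875) (nat_lit 3) (.e (nat_lit 204817) (nat_lit 17) (.e (nat_lit 2198) (nat_lit 144) (.e (nat_lit 720941) (nat_lit 22) .nil)))))))) (.g (nat_lit 5) .nil .nil)))))) 
(.nd (nat_lit 3) (.nd (nat_lit 4) (.nd (nat_lit 5) 
(.lf (nat_lit 218693) (.g (nat_lit 4529) (.e (nat_lit 90174) (nat_lit 14) (.e (nat_lit 180243) (nat_lit 5) (.e (nat_lit 532499) (nat_lit 1) (.e (nat_lit 57691) (nat_lit 156) (.e (nat_lit 163875) (nat_lit 3) (.e (nat_lit 204838) (nat_lit 20) (.e (nat_lit 114716) (nat_lit 22) .nil))))))) (.g (nat_lit 7) .nil .nil))) 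
(.lf (nat_lit 218725) (.g (nat_lit 3782) (.e (nat_lit 90174) (nat_lit 14) (.e (nat_lit 180243) (nat_lit 5) (.e (nat_lit 532499) (nat_lit 1) (.e (nat_lit 57692) (nat_lit 156) (.e (nat_lit 163871) (nat_lit 2) (.e (nat_lit 196677) (nat_lit 16) (.e (nat_lit 130816) (nat_lit 48) (.e (nat_lit 720941) (nat_lit 22) .nil)))))))) (.g (nat_lit 5) .nil .nil)))) (.nd (nat_lit 5) 
(.lf (nat_lit 218709) (.g (nat_lit 3493) (.e (nat_lit 90174) (nat_lit 14) (.e (nat_lit 180243) (nat_lit 5) (.e (nat_lit 532499) (nat_lit 1) (.e (nat_lit 57692) (nat_lit 156) (.e (nat_lit 163869) (nat_lit 2) (.e (nat_lit 196660) (nat_lit 12) (.e (nat_lit 57550) (nat_lit 48) (.e (nat_lit 720939) (nat_lit 22) .nil)))))))) (.g (nat_lit 5) .nil .nil))) 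
(.lf (nat_lit 218741) (.g (nat_lit 2065) (.e (nat_lit 90174) (nat_lit 14) (.e (nat_lit 180243) (nat_lit 5) (.e (nat_lit 532500) (nat_lit 1) (.e (nat_lit 57692) (nat_lit 156) (.e (nat_lit 163875) (nat_lit 3) .nil))))) .nil)))) (.nd (nat_lit 4) (.nd (nat_lit 5) 
(.lf (nat_lit 218701) (.g (nat_lit 3109) (.e (nat_lit 90174) (nat_lit 14) (.e (nat_lit 180243) (nat_lit 5) (.e (nat_lit 532499) (nat_lit 1) (.e (nat_lit 57692) (nat_lit 156) (.e (nat_lit 163869) (nat_lit 2) (.e (nat_lit 196634) (nat_lit 9) (.e (nat_lit 1281) (nat_lit 94) (.e (nat_lit 114716) (nat_lit 22) .nil)))))))) (.g (nat_lit 5) .nil .nil))) 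
(.lf (nat_lit 218733) (.g (nat_lit 3610) (.e (nat_lit 90174) (nat_lit 14) (.e (nat_lit 180243) (nat_lit 5) (.e (nat_lit 532499) (nat_lit 1) (.e (nat_lit 57692) (nat_lit 156) (.e (nat_lit 163874) (nat_lit 3) (.e (nat_lit 204818) (nat_lit 17) (.e (nat_lit 2203) (nat_lit 144) (.e (nat_lit 720941) (nat_lit 22) .nil)))))))) (.g (nat_lit 5) .nil .nil)))) (.nd (nat_lit 5) 
(.lf (nat_lit 218717) (.g (nat_lit 2632) (.e (nat_lit 90174) (nat_lit 14) (.e (nat_lit 180243) (nat_lit 5) (.e (nat_lit 532499) (nat_lit 1) (.e (nat_lit 57692) (nat_lit 156) (.e (nat_lit 163870) (nat_lit 2) (.e (nat_lit 196637) (nat_lit 9) (.e (nat_lit 1281) (nat_lit 94) (.e (nat_lit 114716) (nat_lit 22) .nil)))))))) (.g (nat_lit 4) .nil .nil))) 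
(.lf (nat_lit 218749) (.g (nat_lit 3080) (.e (nat_lit 90174) (nat_lit 14) (.e (nat_lit 180243) (nat_lit 5) (.e (nat_lit 532501) (nat_lit 1) (.e (nat_lit 57690) (nat_lit 156) (.e (nat_lit 163871) (nat_lit 2) (.e (nat_lit 196677) (nat_lit 16) (.e (nat_lit 122970) (nat_lit 48) (.e (nat_lit 720941) (nat_lit 22) .nil)))))))) (.g (nat_lit 5) .nil .nil))))))) 
(.nd (nat_lit 2) (.nd (nat_lit 3) (.nd (nat_lit 4) (.nd (nat_lit 5) 
(.lf (nat_lit 218691) (.g (nat_lit 3278) (.e (nat_lit 90174) (nat_lit 14) (.e (nat_lit 180243) (nat_lit 5) (.e (nat_lit 532499) (nat_lit 1) (.e (nat_lit 57691) (nat_lit 156) (.e (nat_lit 163875) (nat_lit 3) (.e (nat_lit 204817) (nat_lit 17) (.e (nat_lit 2198) (nat_lit 144) (.e (nat_lit 720941) (nat_lit 22) .nil)))))))) (.g (nat_lit 5) .nil .nil))) 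
(.lf (nat_lit 218723) (.g (nat_lit 3665) (.e (nat_lit 90174) (nat_lit 14) (.e (nat_lit 180243) (nat_lit 5) (.e (nat_lit 532499) (nat_lit 1) (.e (nat_lit 57692) (nat_lit 156) (.e (nat_lit 163871) (nat_lit 2) (.e (nat_lit 196677) (nat_lit 16) (.e (nat_lit 122969) (nat_lit 48) (.e (nat_lit 720941) (nat_lit 22) .nil)))))))) (.g (nat_lit 5) .nil .nil)))) (.nd (nat_lit 5) 
(.lf (nat_lit 218707) (.g (nat_lit 3483) (.e (nat_lit 90174) (nat_lit 14) (.e (nat_lit 180243) (nat_lit 5) (.e (nat_lit 532499) (nat_lit 1) (.e (nat_lit 57692) (nat_lit 156) (.e (nat_lit 163869) (nat_lit 2) (.e (nat_lit 196658) (nat_lit 12) (.e (nat_lit 57551) (nat_lit 48) (.e (nat_lit 720941) (nat_lit 22) .nil)))))))) (.g (nat_lit 5) .nil .nil))) 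
(.lf (nat_lit 218739) (.g (nat_lit 1133) (.e (nat_lit 90174) (nat_lit 14) (.e (nat_lit 180243) (nat_lit 5) (.e (nat_lit 532500) (nat_lit 1) (.e (nat_lit 57692) (nat_lit 156) .nil)))) .nil)))) (.nd (nat_lit 4) (.nd (nat_lit 5) 
(.lf (nat_lit 218699) (.g (nat_lit 3214) (.e (nat_lit 90174) (nat_lit 14) (.e (nat_lit 180243) (nat_lit 5) (.e (nat_lit 532499) (nat_lit 1) (.e (nat_lit 57692) (nat_lit 156) (.e (nat_lit 163869) (nat_lit 2) (.e (nat_lit 196628) (nat_lit 9) (.e (nat_lit 968) (nat_lit 81) (.e (nat_lit 2203) (nat_lit 144) (.e (nat_lit 720941) (nat_lit 22) .nil))))))))) (.g (nat_lit 5) .nil .nil))) 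
(.lf (nat_lit 218731) (.g (nat_lit 2554) (.e (nat_lit 90174) (nat_lit 14) (.e (nat_lit 180243) (nat_lit 5) (.e (nat_lit 532499) (nat_lit 1) (.e (nat_lit 57692) (nat_lit 156) (.e (nat_lit 163874) (nat_lit 3) (.e (nat_lit 204818) (nat_lit 17) (.e (nat_lit 2202) (nat_lit 144) (.e (nat_lit 720939) (nat_lit 22) .nil)))))))) (.g (nat_lit 4) .nil .nil)))) (.nd (nat_lit 5) 
(.lf (nat_lit 218715) (.g (nat_lit 3713) (.e (nat_lit 90174) (nat_lit 14) (.e (nat_lit 180243) (nat_lit 5) (.e (nat_lit 532499) (nat_lit 1) (.e (nat_lit 57692) (nat_lit 156) (.e (nat_lit 163869) (nat_lit 2) (.e (nat_lit 196677) (nat_lit 16) (.e (nat_lit 130816) (nat_lit 48) (.e (nat_lit 720941) (nat_lit 22) .nil)))))))) (.g (nat_lit 5) .nil .nil))) 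
(.lf (nat_lit 218747) (.g (nat_lit 1605) (.e (nat_lit 90174) (nat_lit 14) (.e (nat_lit 180243) (nat_lit 5) (.e (nat_lit 532501) (nat_lit 1) (.e (nat_lit 57690) (nat_lit 156) (.e (nat_lit 163871) (nat_lit 2) .nil))))) .nil))))) (.nd (nat_lit 3) (.nd (nat_lit 4) (.nd (nat_lit 5) 
(.lf (nat_lit 218695) (.g (nat_lit 1962) (.e (nat_lit 90174) (nat_lit 14) (.e (nat_lit 180243) (nat_lit 5) (.e (nat_lit 532499) (nat_lit 1) (.e (nat_lit 57692) (nat_lit 156) (.e (nat_lit 163869) (nat_lit 2) .nil))))) .nil)) 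
(.lf (nat_lit 218727) (.g (nat_lit 1812) (.e (nat_lit 90174) (nat_lit 14) (.e (nat_lit 180243) (nat_lit 5) (.e (nat_lit 532499) (nat_lit 1) (.e (nat_lit 57692) (nat_lit 156) (.e (nat_lit 163874) (nat_lit 3) .nil))))) .nil))) (.nd (nat_lit 5) 
(.lf (nat_lit 218711) (.g (nat_lit 3324) (.e (nat_lit 90174) (nat_lit 14) (.e (nat_lit 180243) (nat_lit 5) (.e (nat_lit 532499) (nat_lit 1) (.e (nat_lit 57692) (nat_lit 156) (.e (nat_lit 163869) (nat_lit 2) (.e (nat_lit 196661) (nat_lit 12) (.e (nat_lit 57549) (nat_lit 48) (.e (nat_lit 720941) (nat_lit 22) .nil)))))))) (.g (nat_lit 5) .nil .nil))) 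
(.lf (nat_lit 218743) (.g (nat_lit 1784) (.e (nat_lit 90174) (nat_lit 14) (.e (nat_lit 180243) (nat_lit 5) (.e (nat_lit 532501) (nat_lit 1) (.e (nat_lit 57664) (nat_lit 152) (.e (nat_lit 2461) (nat_lit 157) .nil))))) .nil)))) (.nd (nat_lit 4) (.nd (nat_lit 5) 
(.lf (nat_lit 218703) (.g (nat_lit 2515) (.e (nat_lit 90174) (nat_lit 14) (.e (nat_lit 180243) (nat_lit 5) (.e (nat_lit 532499) (nat_lit 1) (.e (nat_lit 57692) (nat_lit 156) (.e (nat_lit 163869) (nat_lit 2) (.e (nat_lit 196642) (nat_lit 9) (.e (nat_lit 1280) (nat_lit 94) (.e (nat_lit 114716) (nat_lit 22) .nil)))))))) (.g (nat_lit 4) .nil .nil))) 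
(.lf (nat_lit 218735) (.g (nat_lit 3691) (.e (nat_lit 90174) (nat_lit 14) (.e (nat_lit 180243) (nat_lit 5) (.e (nat_lit 532499) (nat_lit 1) (.e (nat_lit 57692) (nat_lit 156) (.e (nat_lit 163875) (nat_lit 3) (.e (nat_lit 204817) (nat_lit 17) (.e (nat_lit 2198) (nat_lit 144) (.e (nat_lit 720941) (nat_lit 22) .nil)))))))) (.g (nat_lit 5) .nil .nil)))) (.nd (nat_lit 5) 
(.lf (nat_lit 218719) (.g (nat_lit 2140) (.e (nat_lit 90174) (nat_lit 14) (.e (nat_lit 180243) (nat_lit 5) (.e (nat_lit 532499) (nat_lit 1) (.e (nat_lit 57692) (nat_lit 156) (.e (nat_lit 163871) (nat_lit 2) .nil))))) .nil)) 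
(.lf (nat_lit 218751) (.g (nat_lit 1080) (.e (nat_lit 90174) (nat_lit 14) (.e (nat_lit 180243) (nat_lit 5) (.e (nat_lit 532501) (nat_lit 1) (.e (nat_lit 57691) (nat_lit 156) .nil)))) .nil))))))))

noncomputable def tv2875 : DT := (.nd (nat_lit 0) (.nd (nat_lit 1) (.nd (nat_lit 2) (.nd (nat_lit 3) (.nd (nat_lit 4) (.nd (nat_lit 5) 
(.lf (nat_lit 218752) (.g (nat_lit 1958) (.e (nat_lit 90174) (nat_lit 14) (.e (nat_lit 180243) (nat_lit 5) (.e (nat_lit 532501) (nat_lit 1) (.e (nat_lit 57691) (nat_lit 156) (.e (nat_lit 163869) (nat_lit 2) .nil))))) .nil)) 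
(.lf (nat_lit 218784) (.g (nat_lit 2904) (.e (nat_lit 90174) (nat_lit 14) (.e (nat_lit 180243) (nat_lit 5) (.e (nat_lit 532501) (nat_lit 1) (.e (nat_lit 57692) (nat_lit 156) (.e (nat_lit 163871) (nat_lit 2) (.e (nat_lit 196624) (nat_lit 9) (.e (nat_lit 1277) (nat_lit 94) (.e (nat_lit 114715) (nat_lit 22) .nil)))))))) (.g (nat_lit 4) .nil .nil)))) (.nd (nat_lit 5) 
(.lf (nat_lit 218768) (.g (nat_lit 2576) (.e (nat_lit 90174) (nat_lit 14) (.e (nat_lit 180243) (nat_lit 5) (.e (nat_lit 532501) (nat_lit 1) (.e (nat_lit 57692) (nat_lit 156) (.e (nat_lit 163869) (nat_lit 2) (.e (nat_lit 196630) (nat_lit 9) (.e (nat_lit 1278) (nat_lit 94) (.e (nat_lit 114716) (nat_lit 22) .nil)))))))) (.g (nat_lit 4) .nil .nil))) 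
(.lf (nat_lit 218800) (.g (nat_lit 2196) (.e (nat_lit 90174) (nat_lit 14) (.e (nat_lit 180243) (nat_lit 5) (.e (nat_lit 532502) (nat_lit 1) (.e (nat_lit 57688) (nat_lit 156) (.e (nat_lit 163867) (nat_lit 2) (.e (nat_lit 196624) (nat_lit 9) (.e (nat_lit 1277) (nat_lit 94) (.e (nat_lit 114715) (nat_lit 22) .nil)))))))) (.g (nat_lit 4) .nil .nil))))) (.nd (nat_lit 4) (.nd (nat_lit 5) 
(.lf (nat_lit 218760) (.g (nat_lit 3685) (.e (nat_lit 90174) (nat_lit 14) (.e (nat_lit 180243) (nat_lit 5) (.e (nat_lit 532501) (nat_lit 1) (.e (nat_lit 57691) (nat_lit 156) (.e (nat_lit 163875) (nat_lit 3) (.e (nat_lit 204815) (nat_lit 17) (.e (nat_lit 2203) (nat_lit 144) (.e (nat_lit 720941) (nat_lit 22) .nil)))))))) (.g (nat_lit 5) .nil .nil))) 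
(.lf (nat_lit 218792) (.g (nat_lit 2641) (.e (nat_lit 90174) (nat_lit 14) (.e (nat_lit 180243) (nat_lit 5) (.e (nat_lit 532501) (nat_lit 1) (.e (nat_lit 57692) (nat_lit 156) (.e (nat_lit 163874) (nat_lit 3) (.e (nat_lit 204820) (nat_lit 17) (.e (nat_lit 2203) (nat_lit 144) (.e (nat_lit 720941) (nat_lit 22) .nil)))))))) (.g (nat_lit 4) .nil .nil)))) (.nd (nat_lit 5) 
(.lf (nat_lit 218776) (.g (nat_lit 3331) (.e (nat_lit 90174) (nat_lit 14) (.e (nat_lit 180243) (nat_lit 5) (.e (nat_lit 532501) (nat_lit 1) (.e (nat_lit 57692) (nat_lit 156) (.e (nat_lit 163869) (nat_lit 2) (.e (nat_lit 196659) (nat_lit 12) (.e (nat_lit 57550) (nat_lit 48) (.e (nat_lit 720939) (nat_lit 22) .nil)))))))) (.g (nat_lit 5) .nil .nil))) 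
(.lf (nat_lit 218808) (.g (nat_lit 2237) (.e (nat_lit 90174) (nat_lit 14) (.e (nat_lit 180243) (nat_lit 5) (.e (nat_lit 532502) (nat_lit 1) (.e (nat_lit 57692) (nat_lit 156) (.e (nat_lit 163871) (nat_lit 2) (.e (nat_lit 196677) (nat_lit 16) (.e (nat_lit 122969) (nat_lit 48) (.e (nat_lit 720941) (nat_lit 22) .nil)))))))) (.g (nat_lit 4) .nil .nil)))))) 
(.nd (nat_lit 3) (.nd (nat_lit 4) (.nd (nat_lit 5) 
(.lf (nat_lit 218756) (.g (nat_lit 2670) (.e (nat_lit 90174) (nat_lit 14) (.e (nat_lit 180243) (nat_lit 5) (.e (nat_lit 532501) (nat_lit 1) (.e (nat_lit 57691) (nat_lit 156) (.e (nat_lit 163871) (nat_lit 2) (.e (nat_lit 196677) (nat_lit 16) (.e (nat_lit 122969) (nat_lit 48) (.e (nat_lit 720939) (nat_lit 22) .nil)))))))) (.g (nat_lit 4) .nil .nil))) 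
(.lf (nat_lit 218788) (.g (nat_lit 2615) (.e (nat_lit 90174) (nat_lit 14) (.e (nat_lit 180243) (nat_lit 5) (.e (nat_lit 532501) (nat_lit 1) (.e (nat_lit 57692) (nat_lit 156) (.e (nat_lit 163874) (nat_lit 3) (.e (nat_lit 204814) (nat_lit 17) (.e (nat_lit 2203) (nat_lit 144) (.e (nat_lit 720941) (nat_lit 22) .nil)))))))) (.g (nat_lit 4) .nil .nil)))) (.nd (nat_lit 5) 
(.lf (nat_lit 218772) (.g (nat_lit 2562) (.e (nat_lit 90174) (nat_lit 14) (.e (nat_lit 180243) (nat_lit 5) (.e (nat_lit 532501) (nat_lit 1) (.e (nat_lit 57692) (nat_lit 156) (.e (nat_lit 163869) (nat_lit 2) (.e (nat_lit 196643) (nat_lit 9) (.e (nat_lit 1280) (nat_lit 94) (.e (nat_lit 114716) (nat_lit 22) .nil)))))))) (.g (nat_lit 4) .nil .nil))) 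
(.lf (nat_lit 218804) (.g (nat_lit 2112) (.e (nat_lit 90174) (nat_lit 14) (.e (nat_lit 180243) (nat_lit 5) (.e (nat_lit 532502) (nat_lit 1) (.e (nat_lit 57692) (nat_lit 156) (.e (nat_lit 163869) (nat_lit 2) (.e (nat_lit 196658) (nat_lit 12) (.e (nat_lit 57550) (nat_lit 48) (.e (nat_lit 720939) (nat_lit 22) .nil)))))))) (.g (nat_lit 4) .nil .nil))))) (.nd (nat_lit 4) (.nd (nat_lit 5) 
(.lf (nat_lit 218764) (.g (nat_lit 1169) (.e (nat_lit 90174) (nat_lit 14) (.e (nat_lit 180243) (nat_lit 5) (.e (nat_lit 532501) (nat_lit 1) (.e (nat_lit 57692) (nat_lit 156) .nil)))) .nil)) 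
(.lf (nat_lit 218796) (.g (nat_lit 4006) (.e (nat_lit 90174) (nat_lit 14) (.e (nat_lit 180243) (nat_lit 5) (.e (nat_lit 532501) (nat_lit 1) (.e (nat_lit 57692) (nat_lit 156) (.e (nat_lit 163875) (nat_lit 3) (.e (nat_lit 204837) (nat_lit 20) (.e (nat_lit 114716) (nat_lit 22) .nil))))))) (.g (nat_lit 6) .nil .nil)))) (.nd (nat_lit 5) 
(.lf (nat_lit 218780) (.g (nat_lit 2109) (.e (nat_lit 90174) (nat_lit 14) (.e (nat_lit 180243) (nat_lit 5) (.e (nat_lit 532501) (nat_lit 1) (.e (nat_lit 57692) (nat_lit 156) (.e (nat_lit 163870) (nat_lit 2) .nil))))) .nil)) 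
(.lf (nat_lit 218812) (.g (nat_lit 2730) (.e (nat_lit 90174) (nat_lit 14) (.e (nat_lit 180243) (nat_lit 5) (.e (nat_lit 532502) (nat_lit 1) (.e (nat_lit 57692) (nat_lit 156) (.e (nat_lit 163874) (nat_lit 3) (.e (nat_lit 204817) (nat_lit 17) (.e (nat_lit 2198) (nat_lit 144) (.e (nat_lit 720941) (nat_lit 22) .nil)))))))) (.g (nat_lit 5) .nil .nil))))))) 
(.nd (nat_lit 2) (.nd (nat_lit 3) (.nd (nat_lit 4) (.nd (nat_lit 5) 
(.lf (nat_lit 218754) (.g (nat_lit 2401) (.e (nat_lit 90174) (nat_lit 14) (.e (nat_lit 180243) (nat_lit 5) (.e (nat_lit 532501) (nat_lit 1) (.e (nat_lit 57691) (nat_lit 156) (.e (nat_lit 163871) (nat_lit 2) (.e (nat_lit 196624) (nat_lit 9) (.e (nat_lit 1277) (nat_lit 94) (.e (nat_lit 114715) (nat_lit 22) .nil)))))))) (.g (nat_lit 4) .nil .nil))) 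
(.lf (nat_lit 218786) (.g (nat_lit 3430) (.e (nat_lit 90174) (nat_lit 14) (.e (nat_lit 180243) (nat_lit 5) (.e (nat_lit 532501) (nat_lit 1) (.e (nat_lit 57692) (nat_lit 156) (.e (nat_lit 163871) (nat_lit 2) (.e (nat_lit 196677) (nat_lit 16) (.e (nat_lit 122969) (nat_lit 48) (.e (nat_lit 720941) (nat_lit 22) .nil)))))))) (.g (nat_lit 5) .nil .nil)))) (.nd (nat_lit 5) 
(.lf (nat_lit 218770) (.g (nat_lit 2499) (.e (nat_lit 90174) (nat_lit 14) (.e (nat_lit 180243) (nat_lit 5) (.e (nat_lit 532501) (nat_lit 1) (.e (nat_lit 57692) (nat_lit 156) (.e (nat_lit 163869) (nat_lit 2) (.e (nat_lit 196638) (nat_lit 9) (.e (nat_lit 1280) (nat_lit 94) (.e (nat_lit 114716) (nat_lit 22) .nil)))))))) (.g (nat_lit 4) .nil .nil))) 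
(.lf (nat_lit 218802) (.g (nat_lit 1573) (.e (nat_lit 90174) (nat_lit 14) (.e (nat_lit 180243) (nat_lit 5) (.e (nat_lit 532502) (nat_lit 1) (.e (nat_lit 57692) (nat_lit 156) (.e (nat_lit 163869) (nat_lit 2) .nil))))) .nil)))) (.nd (nat_lit 4) (.nd (nat_lit 5) 
(.lf (nat_lit 218762) (.g (nat_lit 3453) (.e (nat_lit 90174) (nat_lit 14) (.e (nat_lit 180243) (nat_lit 5) (.e (nat_lit 532501) (nat_lit 1) (.e (nat_lit 57691) (nat_lit 156) (.e (nat_lit 163875) (nat_lit 3) (.e (nat_lit 204818) (nat_lit 17) (.e (nat_lit 2203) (nat_lit 144) (.e (nat_lit 720941) (nat_lit 22) .nil)))))))) (.g (nat_lit 5) .nil .nil))) 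
(.lf (nat_lit 218794) (.g (nat_lit 3304) (.e (nat_lit 90174) (nat_lit 14) (.e (nat_lit 180243) (nat_lit 5) (.e (nat_lit 532501) (nat_lit 1) (.e (nat_lit 57692) (nat_lit 156) (.e (nat_lit 163875) (nat_lit 3) (.e (nat_lit 204817) (nat_lit 17) (.e (nat_lit 2198) (nat_lit 144) (.e (nat_lit 720941) (nat_lit 22) .nil)))))))) (.g (nat_lit 5) .nil .nil)))) (.nd (nat_lit 5) 
(.lf (nat_lit 218778) (.g (nat_lit 2388) (.e (nat_lit 90174) (nat_lit 14) (.e (nat_lit 180243) (nat_lit 5) (.e (nat_lit 532501) (nat_lit 1) (.e (nat_lit 57692) (nat_lit 156) (.e (nat_lit 163869) (nat_lit 2) (.e (nat_lit 196661) (nat_lit 12) (.e (nat_lit 57549) (nat_lit 48) (.e (nat_lit 720939) (nat_lit 22) .nil)))))))) (.g (nat_lit 4) .nil .nil))) 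
(.lf (nat_lit 218810) (.g (nat_lit 2256) (.e (nat_lit 90174) (nat_lit 14) (.e (nat_lit 180243) (nat_lit 5) (.e (nat_lit 532502) (nat_lit 1) (.e (nat_lit 57692) (nat_lit 156) (.e (nat_lit 163874) (nat_lit 3) (.e (nat_lit 204815) (nat_lit 17) (.e (nat_lit 2198) (nat_lit 144) (.e (nat_lit 720941) (nat_lit 22) .nil)))))))) (.g (nat_lit 4) .nil .nil)))))) 
(.nd (nat_lit 3) (.nd (nat_lit 4) (.nd (nat_lit 5) 
(.lf (nat_lit 218758) (.g (nat_lit 2545) (.e (nat_lit 90174) (nat_lit 14) (.e (nat_lit 180243) (nat_lit 5) (.e (nat_lit 532501) (nat_lit 1) (.e (nat_lit 57691) (nat_lit 156) (.e (nat_lit 163871) (nat_lit 2) (.e (nat_lit 196677) (nat_lit 16) (.e (nat_lit 122970) (nat_lit 48) (.e (nat_lit 720941) (nat_lit 22) .nil)))))))) (.g (nat_lit 4) .nil .nil))) 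
(.lf (nat_lit 218790) (.g (nat_lit 3260) (.e (nat_lit 90174) (nat_lit 14) (.e (nat_lit 180243) (nat_lit 5) (.e (nat_lit 532501) (nat_lit 1) (.e (nat_lit 57692) (nat_lit 156) (.e (nat_lit 163874) (nat_lit 3) (.e (nat_lit 204817) (nat_lit 17) (.e (nat_lit 2198) (nat_lit 144) (.e (nat_lit 720941) (nat_lit 22) .nil)))))))) (.g (nat_lit 5) .nil .nil)))) (.nd (nat_lit 5) 
(.lf (nat_lit 218774) (.g (nat_lit 2973) (.e (nat_lit 90174) (nat_lit 14) (.e (nat_lit 180243) (nat_lit 5) (.e (nat_lit 532501) (nat_lit 1) (.e (nat_lit 57692) (nat_lit 156) (.e (nat_lit 163869) (nat_lit 2) (.e (nat_lit 196658) (nat_lit 12) (.e (nat_lit 57550) (nat_lit 48) (.e (nat_lit 720941) (nat_lit 22) .nil)))))))) (.g (nat_lit 4) .nil .nil))) 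
(.lf (nat_lit 218806) (.g (nat_lit 2180) (.e (nat_lit 90174) (nat_lit 14) (.e (nat_lit 180243) (nat_lit 5) (.e (nat_lit 532502) (nat_lit 1) (.e (nat_lit 57692) (nat_lit 156) (.e (nat_lit 163869) (nat_lit 2) (.e (nat_lit 196660) (nat_lit 12) (.e (nat_lit 57550) (nat_lit 48) (.e (nat_lit 720939) (nat_lit 22) .nil)))))))) (.g (nat_lit 4) .nil .nil))))) (.nd (nat_lit 4) (.nd (nat_lit 5) 
(.lf (nat_lit 218766) (.g (nat_lit 2980) (.e (nat_lit 90174) (nat_lit 14) (.e (nat_lit 180243) (nat_lit 5) (.e (nat_lit 532501) (nat_lit 1) (.e (nat_lit 57692) (nat_lit 156) (.e (nat_lit 163869) (nat_lit 2) (.e (nat_lit 196628) (nat_lit 9) (.e (nat_lit 968) (nat_lit 81) (.e (nat_lit 2203) (nat_lit 144) (.e (nat_lit 720941) (nat_lit 22) .nil))))))))) (.g (nat_lit 4) .nil .nil))) 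
(.lf (nat_lit 218798) (.g (nat_lit 1786) (.e (nat_lit 90174) (nat_lit 14) (.e (nat_lit 180243) (nat_lit 5) (.e (nat_lit 532502) (nat_lit 1) (.e (nat_lit 57688) (nat_lit 156) (.e (nat_lit 163867) (nat_lit 2) .nil))))) .nil))) (.nd (nat_lit 5) 
(.lf (nat_lit 218782) (.g (nat_lit 2102) (.e (nat_lit 90174) (nat_lit 14) (.e (nat_lit 180243) (nat_lit 5) (.e (nat_lit 532501) (nat_lit 1) (.e (nat_lit 57692) (nat_lit 156) (.e (nat_lit 163871) (nat_lit 2) .nil))))) .nil)) 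
(.lf (nat_lit 218814) (.g (nat_lit 3446) (.e (nat_lit 90174) (nat_lit 14) (.e (nat_lit 180243) (nat_lit 5) (.e (nat_lit 532502) (nat_lit 1) (.e (nat_lit 57692) (nat_lit 156) (.e (nat_lit 163875) (nat_lit 3) (.e (nat_lit 204837) (nat_lit 20) (.e (nat_lit 114716) (nat_lit 22) .nil))))))) (.g (nat_lit 6) .nil .nil)))))))) 
(.nd (nat_lit 1) (.nd (nat_lit 2) (.nd (nat_lit 3) (.nd (nat_lit 4) (.nd (nat_lit 5) 
(.lf (nat_lit 218753) (.g (nat_lit 2475) (.e (nat_lit 90174) (nat_lit 14) (.e (nat_lit 180243) (nat_lit 5) (.e (nat_lit 532501) (nat_lit 1) (.e (nat_lit 57691) (nat_lit 156) (.e (nat_lit 163869) (nat_lit 2) (.e (nat_lit 196624) (nat_lit 9) (.e (nat_lit 1277) (nat_lit 94) (.e (nat_lit 114716) (nat_lit 22) .nil)))))))) (.g (nat_lit 4) .nil .nil))) 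
(.lf (nat_lit 218785) (.g (nat_lit 2772) (.e (nat_lit 90174) (nat_lit 14) (.e (nat_lit 180243) (nat_lit 5) (.e (nat_lit 532501) (nat_lit 1) (.e (nat_lit 57692) (nat_lit 156) (.e (nat_lit 163871) (nat_lit 2) (.e (nat_lit 196660) (nat_lit 12) (.e (nat_lit 57550) (nat_lit 48) (.e (nat_lit 720941) (nat_lit 22) .nil)))))))) (.g (nat_lit 4) .nil .nil)))) (.nd (nat_lit 5) 
(.lf (nat_lit 218769) (.g (nat_lit 2426) (.e (nat_lit 90174) (nat_lit 14) (.e (nat_lit 180243) (nat_lit 5) (.e (nat_lit 532501) (nat_lit 1) (.e (nat_lit 57692) (nat_lit 156) (.e (nat_lit 163869) (nat_lit 2) (.e (nat_lit 196637) (nat_lit 9) (.e (nat_lit 1281) (nat_lit 94) (.e (nat_lit 114716) (nat_lit 22) .nil)))))))) (.g (nat_lit 4) .nil .nil))) 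
(.lf (nat_lit 218801) (.g (nat_lit 2870) (.e (nat_lit 90174) (nat_lit 14) (.e (nat_lit 180243) (nat_lit 5) (.e (nat_lit 532502) (nat_lit 1) (.e (nat_lit 57688) (nat_lit 156) (.e (nat_lit 163867) (nat_lit 2) (.e (nat_lit 196635) (nat_lit 9) (.e (nat_lit 1281) (nat_lit 94) (.e (nat_lit 114716) (nat_lit 22) .nil)))))))) (.g (nat_lit 5) .nil .nil))))) (.nd (nat_lit 4) (.nd (nat_lit 5) 
(.lf (nat_lit 218761) (.g (nat_lit 3410) (.e (nat_lit 90174) (nat_lit 14) (.e (nat_lit 180243) (nat_lit 5) (.e (nat_lit 532501) (nat_lit 1) (.e (nat_lit 57691) (nat_lit 156) (.e (nat_lit 163875) (nat_lit 3) (.e (nat_lit 204817) (nat_lit 17) (.e (nat_lit 2198) (nat_lit 144) (.e (nat_lit 720941) (nat_lit 22) .nil)))))))) (.g (nat_lit 5) .nil .nil))) 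
(.lf (nat_lit 218793) (.g (nat_lit 2518) (.e (nat_lit 90174) (nat_lit 14) (.e (nat_lit 180243) (nat_lit 5) (.e (nat_lit 532501) (nat_lit 1) (.e (nat_lit 57692) (nat_lit 156) (.e (nat_lit 163874) (nat_lit 3) (.e (nat_lit 204821) (nat_lit 17) (.e (nat_lit 7936) (nat_lit 144) (.e (nat_lit 720941) (nat_lit 22) .nil)))))))) (.g (nat_lit 4) .nil .nil)))) (.nd (nat_lit 5) 
(.lf (nat_lit 218777) (.g (nat_lit 3289) (.e (nat_lit 90174) (nat_lit 14) (.e (nat_lit 180243) (nat_lit 5) (.e (nat_lit 532501) (nat_lit 1) (.e (nat_lit 57692) (nat_lit 156) (.e (nat_lit 163869) (nat_lit 2) (.e (nat_lit 196660) (nat_lit 12) (.e (nat_lit 57550) (nat_lit 48) (.e (nat_lit 720939) (nat_lit 22) .nil)))))))) (.g (nat_lit 5) .nil .nil))) 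
(.lf (nat_lit 218809) (.g (nat_lit 2354) (.e (nat_lit 90174) (nat_lit 14) (.e (nat_lit 180243) (nat_lit 5) (.e (nat_lit 532502) (nat_lit 1) (.e (nat_lit 57692) (nat_lit 156) (.e (nat_lit 163871) (nat_lit 2) (.e (nat_lit 196677) (nat_lit 16) (.e (nat_lit 130816) (nat_lit 48) (.e (nat_lit 720941) (nat_lit 22) .nil)))))))) (.g (nat_lit 4) .nil .nil)))))) 
(.nd (nat_lit 3) (.nd (nat_lit 4) (.nd (nat_lit 5) 
(.lf (nat_lit 218757) (.g (nat_lit 2871) (.e (nat_lit 90174) (nat_lit 14) (.e (nat_lit 180243) (nat_lit 5) (.e (nat_lit 532501) (nat_lit 1) (.e (nat_lit 57691) (nat_lit 156) (.e (nat_lit 163871) (nat_lit 2) (.e (nat_lit 196677) (nat_lit 16) (.e (nat_lit 122969) (nat_lit 48) (.e (nat_lit 720941) (nat_lit 22) .nil)))))))) (.g (nat_lit 4) .nil .nil))) 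
(.lf (nat_lit 218789) (.g (nat_lit 3408) (.e (nat_lit 90174) (nat_lit 14) (.e (nat_lit 180243) (nat_lit 5) (.e (nat_lit 532501) (nat_lit 1) (.e (nat_lit 57692) (nat_lit 156) (.e (nat_lit 163874) (nat_lit 3) (.e (nat_lit 204815) (nat_lit 17) (.e (nat_lit 2203) (nat_lit 144) (.e (nat_lit 720941) (nat_lit 22) .nil)))))))) (.g (nat_lit 5) .nil .nil)))) (.nd (nat_lit 5) 
(.lf (nat_lit 218773) (.g (nat_lit 2615) (.e (nat_lit 90174) (nat_lit 14) (.e (nat_lit 180243) (nat_lit 5) (.e (nat_lit 532501) (nat_lit 1) (.e (nat_lit 57692) (nat_lit 156) (.e (nat_lit 163869) (nat_lit 2) (.e (nat_lit 196643) (nat_lit 9) (.e (nat_lit 1281) (nat_lit 94) (.e (nat_lit 114716) (nat_lit 22) .nil)))))))) (.g (nat_lit 4) .nil .nil))) 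
(.lf (nat_lit 218805) (.g (nat_lit 2222) (.e (nat_lit 90174) (nat_lit 14) (.e (nat_lit 180243) (nat_lit 5) (.e (nat_lit 532502) (nat_lit 1) (.e (nat_lit 57692) (nat_lit 156) (.e (nat_lit 163869) (nat_lit 2) (.e (nat_lit 196659) (nat_lit 12) (.e (nat_lit 57550) (nat_lit 48) (.e (nat_lit 720939) (nat_lit 22) .nil)))))))) (.g (nat_lit 4) .nil .nil))))) (.nd (nat_lit 4) (.nd (nat_lit 5) 
(.lf (nat_lit 218765) (.g (nat_lit 2056) (.e (nat_lit 90174) (nat_lit 14) (.e (nat_lit 180243) (nat_lit 5) (.e (nat_lit 532501) (nat_lit 1) (.e (nat_lit 57692) (nat_lit 156) (.e (nat_lit 163869) (nat_lit 2) .nil))))) .nil)) 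
(.lf (nat_lit 218797) (.g (nat_lit 1698) (.e (nat_lit 90174) (nat_lit 14) (.e (nat_lit 180243) (nat_lit 5) (.e (nat_lit 532501) (nat_lit 1) (.e (nat_lit 57696) (nat_lit 158) .nil)))) .nil))) (.nd (nat_lit 5) 
(.lf (nat_lit 218781) (.g (nat_lit 2655) (.e (nat_lit 90174) (nat_lit 14) (.e (nat_lit 180243) (nat_lit 5) (.e (nat_lit 532501) (nat_lit 1) (.e (nat_lit 57692) (nat_lit 156) (.e (nat_lit 163870) (nat_lit 2) (.e (nat_lit 196661) (nat_lit 12) (.e (nat_lit 57549) (nat_lit 48) (.e (nat_lit 720941) (nat_lit 22) .nil)))))))) (.g (nat_lit 4) .nil .nil))) 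
(.lf (nat_lit 218813) (.g (nat_lit 2913) (.e (nat_lit 90174) (nat_lit 14) (.e (nat_lit 180243) (nat_lit 5) (.e (nat_lit 532502) (nat_lit 1) (.e (nat_lit 57692) (nat_lit 156) (.e (nat_lit 163875) (nat_lit 3) (.e (nat_lit 204836) (nat_lit 20) (.e (nat_lit 114716) (nat_lit 22) .nil))))))) (.g (nat_lit 5) .nil .nil))))))) (.nd (nat_lit 2) (.nd (nat_lit 3) (.nd (nat_lit 4) (.nd (nat_lit 5) 
(.lf (nat_lit 218755) (.g (nat_lit 2566) (.e (nat_lit 90174) (nat_lit 14) (.e (nat_lit 180243) (nat_lit 5) (.e (nat_lit 532501) (nat_lit 1) (.e (nat_lit 57691) (nat_lit 156) (.e (nat_lit 163871) (nat_lit 2) (.e (nat_lit 196660) (nat_lit 12) (.e (nat_lit 57550) (nat_lit 48) (.e (nat_lit 720939) (nat_lit 22) .nil)))))))) (.g (nat_lit 4) .nil .nil))) 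
(.lf (nat_lit 218787) (.g (nat_lit 3547) (.e (nat_lit 90174) (nat_lit 14) (.e (nat_lit 180243) (nat_lit 5) (.e (nat_lit 532501) (nat_lit 1) (.e (nat_lit 57692) (nat_lit 156) (.e (nat_lit 163871) (nat_lit 2) (.e (nat_lit 196677) (nat_lit 16) (.e (nat_lit 130816) (nat_lit 48) (.e (nat_lit 720941) (nat_lit 22) .nil)))))))) (.g (nat_lit 5) .nil .nil)))) (.nd (nat_lit 5) 
(.lf (nat_lit 218771) (.g (nat_lit 2496) (.e (nat_lit 90174) (nat_lit 14) (.e (nat_lit 180243) (nat_lit 5) (.e (nat_lit 532501) (nat_lit 1) (.e (nat_lit 57692) (nat_lit 156) (.e (nat_lit 163869) (nat_lit 2) (.e (nat_lit 196642) (nat_lit 9) (.e (nat_lit 1281) (nat_lit 94) (.e (nat_lit 114716) (nat_lit 22) .nil)))))))) (.g (nat_lit 4) .nil .nil))) 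
(.lf (nat_lit 218803) (.g (nat_lit 1974) (.e (nat_lit 90174) (nat_lit 14) (.e (nat_lit 180243) (nat_lit 5) (.e (nat_lit 532502) (nat_lit 1) (.e (nat_lit 57692) (nat_lit 156) (.e (nat_lit 163869) (nat_lit 2) (.e (nat_lit 196638) (nat_lit 9) (.e (nat_lit 1281) (nat_lit 94) (.e (nat_lit 114716) (nat_lit 22) .nil)))))))) (.g (nat_lit 4) .nil .nil))))) (.nd (nat_lit 4) (.nd (nat_lit 5) 
(.lf (nat_lit 218763) (.g (nat_lit 3729) (.e (nat_lit 90174) (nat_lit 14) (.e (nat_lit 180243) (nat_lit 5) (.e (nat_lit 532501) (nat_lit 1) (.e (nat_lit 57691) (nat_lit 156) (.e (nat_lit 163875) (nat_lit 3) (.e (nat_lit 204836) (nat_lit 20) (.e (nat_lit 114714) (nat_lit 22) .nil))))))) (.g (nat_lit 5) .nil .nil))) 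
(.lf (nat_lit 218795) (.g (nat_lit 3473) (.e (nat_lit 90174) (nat_lit 14) (.e (nat_lit 180243) (nat_lit 5) (.e (nat_lit 532501) (nat_lit 1) (.e (nat_lit 57692) (nat_lit 156) (.e (nat_lit 163875) (nat_lit 3) (.e (nat_lit 204836) (nat_lit 20) (.e (nat_lit 114716) (nat_lit 22) .nil))))))) (.g (nat_lit 5) .nil .nil)))) (.nd (nat_lit 5) 
(.lf (nat_lit 218779) (.g (nat_lit 3510) (.e (nat_lit 90174) (nat_lit 14) (.e (nat_lit 180243) (nat_lit 5) (.e (nat_lit 532501) (nat_lit 1) (.e (nat_lit 57692) (nat_lit 156) (.e (nat_lit 163869) (nat_lit 2) (.e (nat_lit 196677) (nat_lit 16) (.e (nat_lit 130816) (nat_lit 48) (.e (nat_lit 720941) (nat_lit 22) .nil)))))))) (.g (nat_lit 5) .nil .nil))) 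
(.lf (nat_lit 218811) (.g (nat_lit 2738) (.e (nat_lit 90174) (nat_lit 14) (.e (nat_lit 180243) (nat_lit 5) (.e (nat_lit 532502) (nat_lit 1) (.e (nat_lit 57692) (nat_lit 156) (.e (nat_lit 163874) (nat_lit 3) (.e (nat_lit 204815) (nat_lit 17) (.e (nat_lit 2203) (nat_lit 144) (.e (nat_lit 720941) (nat_lit 22) .nil)))))))) (.g (nat_lit 5) .nil .nil)))))) 
(.nd (nat_lit 3) (.nd (nat_lit 4) (.nd (nat_lit 5) 
(.lf (nat_lit 218759) (.g (nat_lit 2588) (.e (nat_lit 90174) (nat_lit 14) (.e (nat_lit 180243) (nat_lit 5) (.e (nat_lit 532501) (nat_lit 1) (.e (nat_lit 57691) (nat_lit 156) (.e (nat_lit 163874) (nat_lit 3) (.e (nat_lit 204817) (nat_lit 17) (.e (nat_lit 2198) (nat_lit 144) (.e (nat_lit 720941) (nat_lit 22) .nil)))))))) (.g (nat_lit 4) .nil .nil))) 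
(.lf (nat_lit 218791) (.g (nat_lit 3213) (.e (nat_lit 90174) (nat_lit 14) (.e (nat_lit 180243) (nat_lit 5) (.e (nat_lit 532501) (nat_lit 1) (.e (nat_lit 57692) (nat_lit 156) (.e (nat_lit 163874) (nat_lit 3) (.e (nat_lit 204818) (nat_lit 17) (.e (nat_lit 2203) (nat_lit 144) (.e (nat_lit 720941) (nat_lit 22) .nil)))))))) (.g (nat_lit 5) .nil .nil)))) (.nd (nat_lit 5) 
(.lf (nat_lit 218775) (.g (nat_lit 2531) (.e (nat_lit 90174) (nat_lit 14) (.e (nat_lit 180243) (nat_lit 5) (.e (nat_lit 532501) (nat_lit 1) (.e (nat_lit 57692) (nat_lit 156) (.e (nat_lit 163869) (nat_lit 2) (.e (nat_lit 196658) (nat_lit 12) (.e (nat_lit 57551) (nat_lit 48) (.e (nat_lit 720939) (nat_lit 22) .nil)))))))) (.g (nat_lit 4) .nil .nil))) 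
(.lf (nat_lit 218807) (.g (nat_lit 2401) (.e (nat_lit 90174) (nat_lit 14) (.e (nat_lit 180243) (nat_lit 5) (.e (nat_lit 532502) (nat_lit 1) (.e (nat_lit 57692) (nat_lit 156) (.e (nat_lit 163869) (nat_lit 2) (.e (nat_lit 196677) (nat_lit 16) (.e (nat_lit 130816) (nat_lit 48) (.e (nat_lit 720941) (nat_lit 22) .nil)))))))) (.g (nat_lit 4) .nil .nil))))) (.nd (nat_lit 4) (.nd (nat_lit 5) 
(.lf (nat_lit 218767) (.g (nat_lit 2507) (.e (nat_lit 90174) (nat_lit 14) (.e (nat_lit 180243) (nat_lit 5) (.e (nat_lit 532501) (nat_lit 1) (.e (nat_lit 57692) (nat_lit 156) (.e (nat_lit 163869) (nat_lit 2) (.e (nat_lit 196628) (nat_lit 9) (.e (nat_lit 1275) (nat_lit 94) (.e (nat_lit 114716) (nat_lit 22) .nil)))))))) (.g (nat_lit 4) .nil .nil))) 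
(.lf (nat_lit 218799) (.g (nat_lit 2876) (.e (nat_lit 90174) (nat_lit 14) (.e (nat_lit 180243) (nat_lit 5) (.e (nat_lit 532502) (nat_lit 1) (.e (nat_lit 57688) (nat_lit 156) (.e (nat_lit 163867) (nat_lit 2) (.e (nat_lit 196617) (nat_lit 9) (.e (nat_lit 1281) (nat_lit 94) (.e (nat_lit 114716) (nat_lit 22) .nil)))))))) (.g (nat_lit 5) .nil .nil)))) (.nd (nat_lit 5) 
(.lf (nat_lit 218783) (.g (nat_lit 2724) (.e (nat_lit 90174) (nat_lit 14) (.e (nat_lit 180243) (nat_lit 5) (.e (nat_lit 532501) (nat_lit 1) (.e (nat_lit 57692) (nat_lit 156) (.e (nat_lit 163871) (nat_lit 2) (.e (nat_lit 196624) (nat_lit 9) (.e (nat_lit 1276) (nat_lit 94) (.e (nat_lit 114716) (nat_lit 22) .nil)))))))) (.g (nat_lit 4) .nil .nil))) 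
(.lf (nat_lit 218815) (.g (nat_lit 2217) (.e (nat_lit 90174) (nat_lit 14) (.e (nat_lit 180243) (nat_lit 5) (.e (nat_lit 532503) (nat_lit 1) (.e (nat_lit 57655) (nat_lit 152) (.e (nat_lit 974) (nat_lit 81) .nil))))) .nil))))))))

noncomputable def tv2876 : DT := (.nd (nat_lit 0) (.nd (nat_lit 1) (.nd (nat_lit 2) (.nd (nat_lit 3) (.nd (nat_lit 4) (.nd (nat_lit 5) 
(.lf (nat_lit 218816) (.g (nat_lit 2460) (.e (nat_lit 90174) (nat_lit 14) (.e (nat_lit 180243) (nat_lit 5) (.e (nat_lit 532503) (nat_lit 1) (.e (nat_lit 57681) (nat_lit 155) (.e (nat_lit 122891) (nat_lit 2) .nil))))) .nil)) 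
(.lf (nat_lit 218848) (.g (nat_lit 2497) (.e (nat_lit 90174) (nat_lit 14) (.e (nat_lit 180243) (nat_lit 5) (.e (nat_lit 532503) (nat_lit 1) (.e (nat_lit 57688) (nat_lit 156) (.e (nat_lit 163873) (nat_lit 3) (.e (nat_lit 204817) (nat_lit 17) (.e (nat_lit 2203) (nat_lit 144) (.e (nat_lit 720941) (nat_lit 22) .nil)))))))) (.g (nat_lit 4) .nil .nil)))) (.nd (nat_lit 5) 
(.lf (nat_lit 218832) (.g (nat_lit 2611) (.e (nat_lit 90174) (nat_lit 14) (.e (nat_lit 180243) (nat_lit 5) (.e (nat_lit 532503) (nat_lit 1) (.e (nat_lit 57688) (nat_lit 156) (.e (nat_lit 163867) (nat_lit 2) (.e (nat_lit 196633) (nat_lit 9) (.e (nat_lit 1280) (nat_lit 94) (.e (nat_lit 114716) (nat_lit 22) .nil)))))))) (.g (nat_lit 4) .nil .nil))) 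
(.lf (nat_lit 218864) (.g (nat_lit 2298) (.e (nat_lit 90174) (nat_lit 14) (.e (nat_lit 180243) (nat_lit 5) (.e (nat_lit 532503) (nat_lit 1) (.e (nat_lit 57692) (nat_lit 156) (.e (nat_lit 163872) (nat_lit 3) .nil))))) .nil)))) (.nd (nat_lit 4) (.nd (nat_lit 5) 
(.lf (nat_lit 218824) (.g (nat_lit 1322) (.e (nat_lit 90174) (nat_lit 14) (.e (nat_lit 180243) (nat_lit 5) (.e (nat_lit 532503) (nat_lit 1) (.e (nat_lit 57686) (nat_lit 156) .nil)))) .nil)) 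
(.lf (nat_lit 218856) (.g (nat_lit 1445) (.e (nat_lit 90174) (nat_lit 14) (.e (nat_lit 180243) (nat_lit 5) (.e (nat_lit 532503) (nat_lit 1) (.e (nat_lit 57691) (nat_lit 156) .nil)))) .nil))) (.nd (nat_lit 5) 
(.lf (nat_lit 218840) (.g (nat_lit 2789) (.e (nat_lit 90174) (nat_lit 14) (.e (nat_lit 180243) (nat_lit 5) (.e (nat_lit 532503) (nat_lit 1) (.e (nat_lit 57688) (nat_lit 156) (.e (nat_lit 163868) (nat_lit 2) (.e (nat_lit 196624) (nat_lit 9) (.e (nat_lit 1277) (nat_lit 94) (.e (nat_lit 114715) (nat_lit 22) .nil)))))))) (.g (nat_lit 4) .nil .nil))) 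
(.lf (nat_lit 218872) (.g (nat_lit 1679) (.e (nat_lit 90174) (nat_lit 14) (.e (nat_lit 180243) (nat_lit 5) (.e (nat_lit 532504) (nat_lit 1) (.e (nat_lit 57690) (nat_lit 156) (.e (nat_lit 163871) (nat_lit 2) .nil))))) .nil))))) (.nd (nat_lit 3) (.nd (nat_lit 4) (.nd (nat_lit 5) 
(.lf (nat_lit 218820) (.g (nat_lit 2355) (.e (nat_lit 90174) (nat_lit 14) (.e (nat_lit 180243) (nat_lit 5) (.e (nat_lit 532503) (nat_lit 1) (.e (nat_lit 57685) (nat_lit 156) (.e (nat_lit 163868) (nat_lit 2) (.e (nat_lit 196624) (nat_lit 9) (.e (nat_lit 1277) (nat_lit 94) (.e (nat_lit 114715) (nat_lit 22) .nil)))))))) (.g (nat_lit 4) .nil .nil))) 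
(.lf (nat_lit 218852) (.g (nat_lit 4007) (.e (nat_lit 90174) (nat_lit 14) (.e (nat_lit 180243) (nat_lit 5) (.e (nat_lit 532503) (nat_lit 1) (.e (nat_lit 57688) (nat_lit 156) (.e (nat_lit 163875) (nat_lit 3) (.e (nat_lit 204838) (nat_lit 20) (.e (nat_lit 114716) (nat_lit 22) .nil))))))) (.g (nat_lit 6) .nil .nil)))) (.nd (nat_lit 5) 
(.lf (nat_lit 218836) (.g (nat_lit 2499) (.e (nat_lit 90174) (nat_lit 14) (.e (nat_lit 180243) (nat_lit 5) (.e (nat_lit 532503) (nat_lit 1) (.e (nat_lit 57688) (nat_lit 156) (.e (nat_lit 163867) (nat_lit 2) (.e (nat_lit 196643) (nat_lit 9) (.e (nat_lit 1281) (nat_lit 94) (.e (nat_lit 114716) (nat_lit 22) .nil)))))))) (.g (nat_lit 4) .nil .nil))) 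
(.lf (nat_lit 218868) (.g (nat_lit 1158) (.e (nat_lit 90174) (nat_lit 14) (.e (nat_lit 180243) (nat_lit 5) (.e (nat_lit 532504) (nat_lit 1) (.e (nat_lit 57680) (nat_lit 155) .nil)))) .nil)))) (.nd (nat_lit 4) (.nd (nat_lit 5) 
(.lf (nat_lit 218828) (.g (nat_lit 1153) (.e (nat_lit 90174) (nat_lit 14) (.e (nat_lit 180243) (nat_lit 5) (.e (nat_lit 532503) (nat_lit 1) (.e (nat_lit 57688) (nat_lit 156) .nil)))) .nil)) 
(.lf (nat_lit 218860) (.g (nat_lit 3769) (.e (nat_lit 90174) (nat_lit 14) (.e (nat_lit 180243) (nat_lit 5) (.e (nat_lit 532503) (nat_lit 1) (.e (nat_lit 57691) (nat_lit 156) (.e (nat_lit 163875) (nat_lit 3) (.e (nat_lit 204837) (nat_lit 20) (.e (nat_lit 114716) (nat_lit 22) .nil))))))) (.g (nat_lit 5) .nil .nil)))) (.nd (nat_lit 5) 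
(.lf (nat_lit 218844) (.g (nat_lit 2140) (.e (nat_lit 90174) (nat_lit 14) (.e (nat_lit 180243) (nat_lit 5) (.e (nat_lit 532503) (nat_lit 1) (.e (nat_lit 57688) (nat_lit 156) (.e (nat_lit 163871) (nat_lit 2) .nil))))) .nil)) 
(.lf (nat_lit 218876) (.g (nat_lit 1254) (.e (nat_lit 90174) (nat_lit 14) (.e (nat_lit 180243) (nat_lit 5) (.e (nat_lit 532504) (nat_lit 1) (.e (nat_lit 57691) (nat_lit 156) .nil)))) .nil)))))) (.nd (nat_lit 2) (.nd (nat_lit 3) (.nd (nat_lit 4) (.nd (nat_lit 5) 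
(.lf (nat_lit 218818) (.g (nat_lit 2822) (.e (nat_lit 90174) (nat_lit 14) (.e (nat_lit 180243) (nat_lit 5) (.e (nat_lit 532503) (nat_lit 1) (.e (nat_lit 57685) (nat_lit 156) (.e (nat_lit 163867) (nat_lit 2) (.e (nat_lit 196624) (nat_lit 9) (.e (nat_lit 1277) (nat_lit 94) (.e (nat_lit 114715) (nat_lit 22) .nil)))))))) (.g (nat_lit 5) .nil .nil))) 
(.lf (nat_lit 218850) (.g (nat_lit 2804) (.e (nat_lit 90174) (nat_lit 14) (.e (nat_lit 180243) (nat_lit 5) (.e (nat_lit 532503) (nat_lit 1) (.e (nat_lit 57688) (nat_lit 156) (.e (nat_lit 163874) (nat_lit 3) (.e (nat_lit 204818) (nat_lit 17) (.e (nat_lit 2203) (nat_lit 144) (.e (nat_lit 720941) (nat_lit 22) .nil)))))))) (.g (nat_lit 4) .nil .nil)))) (.nd (nat_lit 5) 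
(.lf (nat_lit 218834) (.g (nat_lit 3185) (.e (nat_lit 90174) (nat_lit 14) (.e (nat_lit 180243) (nat_lit 5) (.e (nat_lit 532503) (nat_lit 1) (.e (nat_lit 57688) (nat_lit 156) (.e (nat_lit 163867) (nat_lit 2) (.e (nat_lit 196636) (nat_lit 9) (.e (nat_lit 1281) (nat_lit 94) (.e (nat_lit 114716) (nat_lit 22) .nil)))))))) (.g (nat_lit 5) .nil .nil))) 
(.lf (nat_lit 218866) (.g (nat_lit 2903) (.e (nat_lit 90174) (nat_lit 14) (.e (nat_lit 180243) (nat_lit 5) (.e (nat_lit 532503) (nat_lit 1) (.e (nat_lit 57692) (nat_lit 156) (.e (nat_lit 163875) (nat_lit 3) (.e (nat_lit 204838) (nat_lit 20) (.e (nat_lit 114716) (nat_lit 22) .nil))))))) (.g (nat_lit 4) .nil .nil))))) (.nd (nat_lit 4) (.nd (nat_lit 5) 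
(.lf (nat_lit 218826) (.g (nat_lit 2492) (.e (nat_lit 90174) (nat_lit 14) (.e (nat_lit 180243) (nat_lit 5) (.e (nat_lit 532503) (nat_lit 1) (.e (nat_lit 57687) (nat_lit 156) (.e (nat_lit 163867) (nat_lit 2) (.e (nat_lit 196624) (nat_lit 9) (.e (nat_lit 1277) (nat_lit 94) (.e (nat_lit 114715) (nat_lit 22) .nil)))))))) (.g (nat_lit 4) .nil .nil))) 
(.lf (nat_lit 218858) (.g (nat_lit 2248) (.e (nat_lit 90174) (nat_lit 14) (.e (nat_lit 180243) (nat_lit 5) (.e (nat_lit 532503) (nat_lit 1) (.e (nat_lit 57691) (nat_lit 156) (.e (nat_lit 163872) (nat_lit 3) .nil))))) .nil))) (.nd (nat_lit 5) 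
(.lf (nat_lit 218842) (.g (nat_lit 2140) (.e (nat_lit 90174) (nat_lit 14) (.e (nat_lit 180243) (nat_lit 5) (.e (nat_lit 532503) (nat_lit 1) (.e (nat_lit 57688) (nat_lit 156) (.e (nat_lit 163869) (nat_lit 2) .nil))))) .nil)) 
(.lf (nat_lit 218874) (.g (nat_lit 3161) (.e (nat_lit 90174) (nat_lit 14) (.e (nat_lit 180243) (nat_lit 5) (.e (nat_lit 532504) (nat_lit 1) (.e (nat_lit 57690) (nat_lit 156) (.e (nat_lit 163871) (nat_lit 2) (.e (nat_lit 196677) (nat_lit 16) (.e (nat_lit 122970) (nat_lit 48) (.e (nat_lit 720941) (nat_lit 22) .nil)))))))) (.g (nat_lit 5) .nil .nil)))))) 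
(.nd (nat_lit 3) (.nd (nat_lit 4) (.nd (nat_lit 5) 
(.lf (nat_lit 218822) (.g (nat_lit 2412) (.e (nat_lit 90174) (nat_lit 14) (.e (nat_lit 180243) (nat_lit 5) (.e (nat_lit 532503) (nat_lit 1) (.e (nat_lit 57685) (nat_lit 156) (.e (nat_lit 163871) (nat_lit 2) (.e (nat_lit 196677) (nat_lit 16) (.e (nat_lit 122969) (nat_lit 48) (.e (nat_lit 720939) (nat_lit 22) .nil)))))))) (.g (nat_lit 4) .nil .nil))) 
(.lf (nat_lit 218854) (.g (nat_lit 3105) (.e (nat_lit 90174) (nat_lit 14) (.e (nat_lit 180243) (nat_lit 5) (.e (nat_lit 532503) (nat_lit 1) (.e (nat_lit 57689) (nat_lit 156) (.e (nat_lit 163874) (nat_lit 3) (.e (nat_lit 204837) (nat_lit 20) (.e (nat_lit 114716) (nat_lit 22) .nil))))))) (.g (nat_lit 5) .nil .nil)))) (.nd (nat_lit 5) 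
(.lf (nat_lit 218838) (.g (nat_lit 2531) (.e (nat_lit 90174) (nat_lit 14) (.e (nat_lit 180243) (nat_lit 5) (.e (nat_lit 532503) (nat_lit 1) (.e (nat_lit 57688) (nat_lit 156) (.e (nat_lit 163867) (nat_lit 2) (.e (nat_lit 196660) (nat_lit 12) (.e (nat_lit 57550) (nat_lit 48) (.e (nat_lit 720941) (nat_lit 22) .nil)))))))) (.g (nat_lit 4) .nil .nil))) 
(.lf (nat_lit 218870) (.g (nat_lit 1616) (.e (nat_lit 90174) (nat_lit 14) (.e (nat_lit 180243) (nat_lit 5) (.e (nat_lit 532504) (nat_lit 1) (.e (nat_lit 57689) (nat_lit 156) .nil)))) .nil)))) (.nd (nat_lit 4) (.nd (nat_lit 5) 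
(.lf (nat_lit 218830) (.g (nat_lit 2623) (.e (nat_lit 90174) (nat_lit 14) (.e (nat_lit 180243) (nat_lit 5) (.e (nat_lit 532503) (nat_lit 1) (.e (nat_lit 57688) (nat_lit 156) (.e (nat_lit 163867) (nat_lit 2) (.e (nat_lit 196628) (nat_lit 9) (.e (nat_lit 1275) (nat_lit 94) (.e (nat_lit 114716) (nat_lit 22) .nil)))))))) (.g (nat_lit 4) .nil .nil))) 
(.lf (nat_lit 218862) (.g (nat_lit 1506) (.e (nat_lit 90174) (nat_lit 14) (.e (nat_lit 180243) (nat_lit 5) (.e (nat_lit 532503) (nat_lit 1) (.e (nat_lit 57692) (nat_lit 156) .nil)))) .nil))) (.nd (nat_lit 5) 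
(.lf (nat_lit 218846) (.g (nat_lit 2612) (.e (nat_lit 90174) (nat_lit 14) (.e (nat_lit 180243) (nat_lit 5) (.e (nat_lit 532503) (nat_lit 1) (.e (nat_lit 57688) (nat_lit 156) (.e (nat_lit 163871) (nat_lit 2) (.e (nat_lit 196677) (nat_lit 16) (.e (nat_lit 130816) (nat_lit 48) (.e (nat_lit 720941) (nat_lit 22) .nil)))))))) (.g (nat_lit 4) .nil .nil))) 
(.lf (nat_lit 218878) (.g (nat_lit 2434) (.e (nat_lit 90174) (nat_lit 14) (.e (nat_lit 180243) (nat_lit 5) (.e (nat_lit 532504) (nat_lit 1) (.e (nat_lit 57691) (nat_lit 156) (.e (nat_lit 163869) (nat_lit 2) (.e (nat_lit 196624) (nat_lit 9) (.e (nat_lit 1277) (nat_lit 94) (.e (nat_lit 114715) (nat_lit 22) .nil)))))))) (.g (nat_lit 4) .nil .nil)))))))) 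
(.nd (nat_lit 1) (.nd (nat_lit 2) (.nd (nat_lit 3) (.nd (nat_lit 4) (.nd (nat_lit 5) 
(.lf (nat_lit 218817) (.g (nat_lit 3059) (.e (nat_lit 90174) (nat_lit 14) (.e (nat_lit 180243) (nat_lit 5) (.e (nat_lit 532503) (nat_lit 1) (.e (nat_lit 57681) (nat_lit 155) (.e (nat_lit 122893) (nat_lit 3) (.e (nat_lit 98325) (nat_lit 17) (.e (nat_lit 7936) (nat_lit 220) (.e (nat_lit 720941) (nat_lit 22) .nil)))))))) (.g (nat_lit 4) .nil .nil))) 
(.lf (nat_lit 218849) (.g (nat_lit 2768) (.e (nat_lit 90174) (nat_lit 14) (.e (nat_lit 180243) (nat_lit 5) (.e (nat_lit 532503) (nat_lit 1) (.e (nat_lit 57688) (nat_lit 156) (.e (nat_lit 163873) (nat_lit 3) (.e (nat_lit 204818) (nat_lit 17) (.e (nat_lit 2203) (nat_lit 144) (.e (nat_lit 720941) (nat_lit 22) .nil)))))))) (.g (nat_lit 4) .nil .nil)))) (.nd (nat_lit 5) 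
(.lf (nat_lit 218833) (.g (nat_lit 2563) (.e (nat_lit 90174) (nat_lit 14) (.e (nat_lit 180243) (nat_lit 5) (.e (nat_lit 532503) (nat_lit 1) (.e (nat_lit 57688) (nat_lit 156) (.e (nat_lit 163867) (nat_lit 2) (.e (nat_lit 196636) (nat_lit 9) (.e (nat_lit 1280) (nat_lit 94) (.e (nat_lit 114716) (nat_lit 22) .nil)))))))) (.g (nat_lit 4) .nil .nil))) 
(.lf (nat_lit 218865) (.g (nat_lit 2748) (.e (nat_lit 90174) (nat_lit 14) (.e (nat_lit 180243) (nat_lit 5) (.e (nat_lit 532503) (nat_lit 1) (.e (nat_lit 57692) (nat_lit 156) (.e (nat_lit 163875) (nat_lit 3) (.e (nat_lit 204837) (nat_lit 20) (.e (nat_lit 114716) (nat_lit 22) .nil))))))) (.g (nat_lit 4) .nil .nil))))) (.nd (nat_lit 4) (.nd (nat_lit 5) 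
(.lf (nat_lit 218825) (.g (nat_lit 2964) (.e (nat_lit 90174) (nat_lit 14) (.e (nat_lit 180243) (nat_lit 5) (.e (nat_lit 532503) (nat_lit 1) (.e (nat_lit 57686) (nat_lit 156) (.e (nat_lit 163875) (nat_lit 3) (.e (nat_lit 204837) (nat_lit 20) (.e (nat_lit 114716) (nat_lit 22) .nil))))))) (.g (nat_lit 5) .nil .nil))) 
(.lf (nat_lit 218857) (.g (nat_lit 2277) (.e (nat_lit 90174) (nat_lit 14) (.e (nat_lit 180243) (nat_lit 5) (.e (nat_lit 532503) (nat_lit 1) (.e (nat_lit 57691) (nat_lit 156) (.e (nat_lit 163871) (nat_lit 2) .nil))))) .nil))) (.nd (nat_lit 5) 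
(.lf (nat_lit 218841) (.g (nat_lit 3338) (.e (nat_lit 90174) (nat_lit 14) (.e (nat_lit 180243) (nat_lit 5) (.e (nat_lit 532503) (nat_lit 1) (.e (nat_lit 57688) (nat_lit 156) (.e (nat_lit 163868) (nat_lit 2) (.e (nat_lit 196624) (nat_lit 9) (.e (nat_lit 1277) (nat_lit 94) (.e (nat_lit 114716) (nat_lit 22) .nil)))))))) (.g (nat_lit 5) .nil .nil))) 
(.lf (nat_lit 218873) (.g (nat_lit 2875) (.e (nat_lit 90174) (nat_lit 14) (.e (nat_lit 180243) (nat_lit 5) (.e (nat_lit 532504) (nat_lit 1) (.e (nat_lit 57690) (nat_lit 156) (.e (nat_lit 163871) (nat_lit 2) (.e (nat_lit 196660) (nat_lit 12) (.e (nat_lit 57550) (nat_lit 48) (.e (nat_lit 720939) (nat_lit 22) .nil)))))))) (.g (nat_lit 5) .nil .nil)))))) 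
(.nd (nat_lit 3) (.nd (nat_lit 4) (.nd (nat_lit 5) 
(.lf (nat_lit 218821) (.g (nat_lit 2904) (.e (nat_lit 90174) (nat_lit 14) (.e (nat_lit 180243) (nat_lit 5) (.e (nat_lit 532503) (nat_lit 1) (.e (nat_lit 57685) (nat_lit 156) (.e (nat_lit 163868) (nat_lit 2) (.e (nat_lit 196624) (nat_lit 9) (.e (nat_lit 1277) (nat_lit 94) (.e (nat_lit 114716) (nat_lit 22) .nil)))))))) (.g (nat_lit 5) .nil .nil))) 
(.lf (nat_lit 218853) (.g (nat_lit 1388) (.e (nat_lit 90174) (nat_lit 14) (.e (nat_lit 180243) (nat_lit 5) (.e (nat_lit 532503) (nat_lit 1) (.e (nat_lit 57689) (nat_lit 156) .nil)))) .nil))) (.nd (nat_lit 5) 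
(.lf (nat_lit 218837) (.g (nat_lit 2801) (.e (nat_lit 90174) (nat_lit 14) (.e (nat_lit 180243) (nat_lit 5) (.e (nat_lit 532503) (nat_lit 1) (.e (nat_lit 57688) (nat_lit 156) (.e (nat_lit 163867) (nat_lit 2) (.e (nat_lit 196660) (nat_lit 12) (.e (nat_lit 57550) (nat_lit 48) (.e (nat_lit 720939) (nat_lit 22) .nil)))))))) (.g (nat_lit 4) .nil .nil))) 
(.lf (nat_lit 218869) (.g (nat_lit 1489) (.e (nat_lit 90174) (nat_lit 14) (.e (nat_lit 180243) (nat_lit 5) (.e (nat_lit 532504) (nat_lit 1) (.e (nat_lit 57685) (nat_lit 156) .nil)))) .nil)))) (.nd (nat_lit 4) (.nd (nat_lit 5) 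
(.lf (nat_lit 218829) (.g (nat_lit 2056) (.e (nat_lit 90174) (nat_lit 14) (.e (nat_lit 180243) (nat_lit 5) (.e (nat_lit 532503) (nat_lit 1) (.e (nat_lit 57688) (nat_lit 156) (.e (nat_lit 163867) (nat_lit 2) .nil))))) .nil)) 
(.lf (nat_lit 218861) (.g (nat_lit 3881) (.e (nat_lit 90174) (nat_lit 14) (.e (nat_lit 180243) (nat_lit 5) (.e (nat_lit 532503) (nat_lit 1) (.e (nat_lit 57691) (nat_lit 156) (.e (nat_lit 163875) (nat_lit 3) (.e (nat_lit 204838) (nat_lit 20) (.e (nat_lit 114716) (nat_lit 22) .nil))))))) (.g (nat_lit 5) .nil .nil)))) (.nd (nat_lit 5) 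
(.lf (nat_lit 218845) (.g (nat_lit 2513) (.e (nat_lit 90174) (nat_lit 14) (.e (nat_lit 180243) (nat_lit 5) (.e (nat_lit 532503) (nat_lit 1) (.e (nat_lit 57688) (nat_lit 156) (.e (nat_lit 163871) (nat_lit 2) (.e (nat_lit 196624) (nat_lit 9) (.e (nat_lit 1277) (nat_lit 94) (.e (nat_lit 114716) (nat_lit 22) .nil)))))))) (.g (nat_lit 4) .nil .nil))) 
(.lf (nat_lit 218877) (.g (nat_lit 2154) (.e (nat_lit 90174) (nat_lit 14) (.e (nat_lit 180243) (nat_lit 5) (.e (nat_lit 532504) (nat_lit 1) (.e (nat_lit 57691) (nat_lit 156) (.e (nat_lit 163869) (nat_lit 2) .nil))))) .nil)))))) (.nd (nat_lit 2) (.nd (nat_lit 3) (.nd (nat_lit 4) (.nd (nat_lit 5) 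
(.lf (nat_lit 218819) (.g (nat_lit 2869) (.e (nat_lit 90174) (nat_lit 14) (.e (nat_lit 180243) (nat_lit 5) (.e (nat_lit 532503) (nat_lit 1) (.e (nat_lit 57685) (nat_lit 156) (.e (nat_lit 163867) (nat_lit 2) (.e (nat_lit 196635) (nat_lit 9) (.e (nat_lit 1281) (nat_lit 94) (.e (nat_lit 114716) (nat_lit 22) .nil)))))))) (.g (nat_lit 5) .nil .nil))) 
(.lf (nat_lit 218851) (.g (nat_lit 2168) (.e (nat_lit 90174) (nat_lit 14) (.e (nat_lit 180243) (nat_lit 5) (.e (nat_lit 532503) (nat_lit 1) (.e (nat_lit 57688) (nat_lit 156) (.e (nat_lit 163875) (nat_lit 3) .nil))))) .nil))) (.nd (nat_lit 5) 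
(.lf (nat_lit 218835) (.g (nat_lit 2505) (.e (nat_lit 90174) (nat_lit 14) (.e (nat_lit 180243) (nat_lit 5) (.e (nat_lit 532503) (nat_lit 1) (.e (nat_lit 57688) (nat_lit 156) (.e (nat_lit 163867) (nat_lit 2) (.e (nat_lit 196643) (nat_lit 9) (.e (nat_lit 1280) (nat_lit 94) (.e (nat_lit 114716) (nat_lit 22) .nil)))))))) (.g (nat_lit 4) .nil .nil))) 
(.lf (nat_lit 218867) (.g (nat_lit 1473) (.e (nat_lit 90174) (nat_lit 14) (.e (nat_lit 180243) (nat_lit 5) (.e (nat_lit 532504) (nat_lit 1) (.e (nat_lit 57661) (nat_lit 152) .nil)))) .nil)))) (.nd (nat_lit 4) (.nd (nat_lit 5) 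
(.lf (nat_lit 218827) (.g (nat_lit 1917) (.e (nat_lit 90174) (nat_lit 14) (.e (nat_lit 180243) (nat_lit 5) (.e (nat_lit 532503) (nat_lit 1) (.e (nat_lit 57687) (nat_lit 156) (.e (nat_lit 163874) (nat_lit 3) .nil))))) .nil)) 
(.lf (nat_lit 218859) (.g (nat_lit 2209) (.e (nat_lit 90174) (nat_lit 14) (.e (nat_lit 180243) (nat_lit 5) (.e (nat_lit 532503) (nat_lit 1) (.e (nat_lit 57691) (nat_lit 156) (.e (nat_lit 163875) (nat_lit 3) .nil))))) .nil))) (.nd (nat_lit 5) 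
(.lf (nat_lit 218843) (.g (nat_lit 2402) (.e (nat_lit 90174) (nat_lit 14) (.e (nat_lit 180243) (nat_lit 5) (.e (nat_lit 532503) (nat_lit 1) (.e (nat_lit 57688) (nat_lit 156) (.e (nat_lit 163869) (nat_lit 2) (.e (nat_lit 196624) (nat_lit 9) (.e (nat_lit 1277) (nat_lit 94) (.e (nat_lit 114716) (nat_lit 22) .nil)))))))) (.g (nat_lit 4) .nil .nil))) 
(.lf (nat_lit 218875) (.g (nat_lit 2913) (.e (nat_lit 90174) (nat_lit 14) (.e (nat_lit 180243) (nat_lit 5) (.e (nat_lit 532504) (nat_lit 1) (.e (nat_lit 57690) (nat_lit 156) (.e (nat_lit 163875) (nat_lit 3) (.e (nat_lit 204817) (nat_lit 17) (.e (nat_lit 2198) (nat_lit 144) (.e (nat_lit 720941) (nat_lit 22) .nil)))))))) (.g (nat_lit 5) .nil .nil)))))) 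
(.nd (nat_lit 3) (.nd (nat_lit 4) (.nd (nat_lit 5) 
(.lf (nat_lit 218823) (.g (nat_lit 2938) (.e (nat_lit 90174) (nat_lit 14) (.e (nat_lit 180243) (nat_lit 5) (.e (nat_lit 532503) (nat_lit 1) (.e (nat_lit 57685) (nat_lit 156) (.e (nat_lit 163875) (nat_lit 3) (.e (nat_lit 204817) (nat_lit 17) (.e (nat_lit 2198) (nat_lit 144) (.e (nat_lit 720941) (nat_lit 22) .nil)))))))) (.g (nat_lit 5) .nil .nil))) 
(.lf (nat_lit 218855) (.g (nat_lit 2986) (.e (nat_lit 90174) (nat_lit 14) (.e (nat_lit 180243) (nat_lit 5) (.e (nat_lit 532503) (nat_lit 1) (.e (nat_lit 57689) (nat_lit 156) (.e (nat_lit 163875) (nat_lit 3) (.e (nat_lit 204836) (nat_lit 20) (.e (nat_lit 114716) (nat_lit 22) .nil))))))) (.g (nat_lit 5) .nil .nil)))) (.nd (nat_lit 5) 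
(.lf (nat_lit 218839) (.g (nat_lit 2129) (.e (nat_lit 90174) (nat_lit 14) (.e (nat_lit 180243) (nat_lit 5) (.e (nat_lit 532503) (nat_lit 1) (.e (nat_lit 57688) (nat_lit 156) (.e (nat_lit 163868) (nat_lit 2) .nil))))) .nil)) 
(.lf (nat_lit 218871) (.g (nat_lit 1337) (.e (nat_lit 90174) (nat_lit 14) (.e (nat_lit 180243) (nat_lit 5) (.e (nat_lit 532504) (nat_lit 1) (.e (nat_lit 57690) (nat_lit 156) .nil)))) .nil)))) (.nd (nat_lit 4) (.nd (nat_lit 5) 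
(.lf (nat_lit 218831) (.g (nat_lit 2511) (.e (nat_lit 90174) (nat_lit 14) (.e (nat_lit 180243) (nat_lit 5) (.e (nat_lit 532503) (nat_lit 1) (.e (nat_lit 57688) (nat_lit 156) (.e (nat_lit 163867) (nat_lit 2) (.e (nat_lit 196631) (nat_lit 9) (.e (nat_lit 1280) (nat_lit 94) (.e (nat_lit 114716) (nat_lit 22) .nil)))))))) (.g (nat_lit 4) .nil .nil))) 
(.lf (nat_lit 218863) (.g (nat_lit 2300) (.e (nat_lit 90174) (nat_lit 14) (.e (nat_lit 180243) (nat_lit 5) (.e (nat_lit 532503) (nat_lit 1) (.e (nat_lit 57692) (nat_lit 156) (.e (nat_lit 163869) (nat_lit 2) .nil))))) .nil))) (.nd (nat_lit 5) 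
(.lf (nat_lit 218847) (.g (nat_lit 3746) (.e (nat_lit 90174) (nat_lit 14) (.e (nat_lit 180243) (nat_lit 5) (.e (nat_lit 532503) (nat_lit 1) (.e (nat_lit 57688) (nat_lit 156) (.e (nat_lit 163873) (nat_lit 3) (.e (nat_lit 204815) (nat_lit 17) (.e (nat_lit 2203) (nat_lit 144) (.e (nat_lit 720941) (nat_lit 22) .nil)))))))) (.g (nat_lit 5) .nil .nil))) 
(.lf (nat_lit 218879) (.g (nat_lit 2580) (.e (nat_lit 90174) (nat_lit 14) (.e (nat_lit 180243) (nat_lit 5) (.e (nat_lit 532504) (nat_lit 1) (.e (nat_lit 57691) (nat_lit 156) (.e (nat_lit 163869) (nat_lit 2) (.e (nat_lit 196677) (nat_lit 16) (.e (nat_lit 130816) (nat_lit 48) (.e (nat_lit 720941) (nat_lit 22) .nil)))))))) (.g (nat_lit 4) .nil .nil)))))))))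

noncomputable def tv2877 : DT := (.nd (nat_lit 0) (.nd (nat_lit 1) (.nd (nat_lit 2) (.nd (nat_lit 3) (.nd (nat_lit 4) (.nd (nat_lit 5) 
(.lf (nat_lit 218880) (.g (nat_lit 2154) (.e (nat_lit 90174) (nat_lit 14) (.e (nat_lit 180243) (nat_lit 5) (.e (nat_lit 532504) (nat_lit 1) (.e (nat_lit 57691) (nat_lit 156) (.e (nat_lit 163870) (nat_lit 2) .nil))))) .nil)) 
(.lf (nat_lit 218912) (.g (nat_lit 2542) (.e (nat_lit 90174) (nat_lit 14) (.e (nat_lit 180243) (nat_lit 5) (.e (nat_lit 532504) (nat_lit 1) (.e (nat_lit 57692) (nat_lit 156) (.e (nat_lit 163870) (nat_lit 2) (.e (nat_lit 196637) (nat_lit 9) (.e (nat_lit 1281) (nat_lit 94) (.e (nat_lit 114716) (nat_lit 22) .nil)))))))) (.g (nat_lit 4) .nil .nil)))) (.nd (nat_lit 5) 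
(.lf (nat_lit 218896) (.g (nat_lit 3279) (.e (nat_lit 90174) (nat_lit 14) (.e (nat_lit 180243) (nat_lit 5) (.e (nat_lit 532504) (nat_lit 1) (.e (nat_lit 57692) (nat_lit 156) (.e (nat_lit 163869) (nat_lit 2) (.e (nat_lit 196638) (nat_lit 9) (.e (nat_lit 1281) (nat_lit 94) (.e (nat_lit 114716) (nat_lit 22) .nil)))))))) (.g (nat_lit 5) .nil .nil))) 
(.lf (nat_lit 218928) (.g (nat_lit 2479) (.e (nat_lit 90174) (nat_lit 14) (.e (nat_lit 180243) (nat_lit 5) (.e (nat_lit 532504) (nat_lit 1) (.e (nat_lit 57692) (nat_lit 156) (.e (nat_lit 163874) (nat_lit 3) (.e (nat_lit 204818) (nat_lit 17) (.e (nat_lit 2202) (nat_lit 144) (.e (nat_lit 720941) (nat_lit 22) .nil)))))))) (.g (nat_lit 4) .nil .nil))))) (.nd (nat_lit 4) (.nd (nat_lit 5) 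
(.lf (nat_lit 218888) (.g (nat_lit 3659) (.e (nat_lit 90174) (nat_lit 14) (.e (nat_lit 180243) (nat_lit 5) (.e (nat_lit 532504) (nat_lit 1) (.e (nat_lit 57691) (nat_lit 156) (.e (nat_lit 163875) (nat_lit 3) (.e (nat_lit 204817) (nat_lit 17) (.e (nat_lit 2198) (nat_lit 144) (.e (nat_lit 720941) (nat_lit 22) .nil)))))))) (.g (nat_lit 5) .nil .nil))) 
(.lf (nat_lit 218920) (.g (nat_lit 2559) (.e (nat_lit 90174) (nat_lit 14) (.e (nat_lit 180243) (nat_lit 5) (.e (nat_lit 532504) (nat_lit 1) (.e (nat_lit 57692) (nat_lit 156) (.e (nat_lit 163871) (nat_lit 2) (.e (nat_lit 196677) (nat_lit 16) (.e (nat_lit 122970) (nat_lit 48) (.e (nat_lit 720939) (nat_lit 22) .nil)))))))) (.g (nat_lit 4) .nil .nil)))) (.nd (nat_lit 5) 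
(.lf (nat_lit 218904) (.g (nat_lit 2437) (.e (nat_lit 90174) (nat_lit 14) (.e (nat_lit 180243) (nat_lit 5) (.e (nat_lit 532504) (nat_lit 1) (.e (nat_lit 57692) (nat_lit 156) (.e (nat_lit 163869) (nat_lit 2) (.e (nat_lit 196660) (nat_lit 12) (.e (nat_lit 57549) (nat_lit 48) (.e (nat_lit 720941) (nat_lit 22) .nil)))))))) (.g (nat_lit 4) .nil .nil))) 
(.lf (nat_lit 218936) (.g (nat_lit 513) (.e (nat_lit 90174) (nat_lit 14) (.e (nat_lit 180243) (nat_lit 5) (.e (nat_lit 532508) (nat_lit 2) .nil))) .nil))))) (.nd (nat_lit 3) (.nd (nat_lit 4) (.nd (nat_lit 5) 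
(.lf (nat_lit 218884) (.g (nat_lit 2880) (.e (nat_lit 90174) (nat_lit 14) (.e (nat_lit 180243) (nat_lit 5) (.e (nat_lit 532504) (nat_lit 1) (.e (nat_lit 57691) (nat_lit 156) (.e (nat_lit 163871) (nat_lit 2) (.e (nat_lit 196624) (nat_lit 9) (.e (nat_lit 1277) (nat_lit 94) (.e (nat_lit 114715) (nat_lit 22) .nil)))))))) (.g (nat_lit 4) .nil .nil))) 
(.lf (nat_lit 218916) (.g (nat_lit 3334) (.e (nat_lit 90174) (nat_lit 14) (.e (nat_lit 180243) (nat_lit 5) (.e (nat_lit 532504) (nat_lit 1) (.e (nat_lit 57692) (nat_lit 156) (.e (nat_lit 163871) (nat_lit 2) (.e (nat_lit 196660) (nat_lit 12) (.e (nat_lit 57550) (nat_lit 48) (.e (nat_lit 720939) (nat_lit 22) .nil)))))))) (.g (nat_lit 5) .nil .nil)))) (.nd (nat_lit 5) 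
(.lf (nat_lit 218900) (.g (nat_lit 2773) (.e (nat_lit 90174) (nat_lit 14) (.e (nat_lit 180243) (nat_lit 5) (.e (nat_lit 532504) (nat_lit 1) (.e (nat_lit 57692) (nat_lit 156) (.e (nat_lit 163869) (nat_lit 2) (.e (nat_lit 196658) (nat_lit 12) (.e (nat_lit 57551) (nat_lit 48) (.e (nat_lit 720939) (nat_lit 22) .nil)))))))) (.g (nat_lit 4) .nil .nil))) 
(.lf (nat_lit 218932) (.g (nat_lit 2350) (.e (nat_lit 90174) (nat_lit 14) (.e (nat_lit 180243) (nat_lit 5) (.e (nat_lit 532504) (nat_lit 1) (.e (nat_lit 57692) (nat_lit 156) (.e (nat_lit 163875) (nat_lit 3) (.e (nat_lit 204817) (nat_lit 17) (.e (nat_lit 2203) (nat_lit 144) (.e (nat_lit 720941) (nat_lit 22) .nil)))))))) (.g (nat_lit 4) .nil .nil))))) (.nd (nat_lit 4) (.nd (nat_lit 5) 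
(.lf (nat_lit 218892) (.g (nat_lit 2003) (.e (nat_lit 90174) (nat_lit 14) (.e (nat_lit 180243) (nat_lit 5) (.e (nat_lit 532504) (nat_lit 1) (.e (nat_lit 57692) (nat_lit 156) (.e (nat_lit 163869) (nat_lit 2) .nil))))) .nil)) 
(.lf (nat_lit 218924) (.g (nat_lit 3548) (.e (nat_lit 90174) (nat_lit 14) (.e (nat_lit 180243) (nat_lit 5) (.e (nat_lit 532504) (nat_lit 1) (.e (nat_lit 57692) (nat_lit 156) (.e (nat_lit 163874) (nat_lit 3) (.e (nat_lit 204815) (nat_lit 17) (.e (nat_lit 2203) (nat_lit 144) (.e (nat_lit 720941) (nat_lit 22) .nil)))))))) (.g (nat_lit 5) .nil .nil)))) (.nd (nat_lit 5) 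
(.lf (nat_lit 218908) (.g (nat_lit 3264) (.e (nat_lit 90174) (nat_lit 14) (.e (nat_lit 180243) (nat_lit 5) (.e (nat_lit 532504) (nat_lit 1) (.e (nat_lit 57692) (nat_lit 156) (.e (nat_lit 163869) (nat_lit 2) (.e (nat_lit 196677) (nat_lit 16) (.e (nat_lit 122969) (nat_lit 48) (.e (nat_lit 720939) (nat_lit 22) .nil)))))))) (.g (nat_lit 5) .nil .nil))) 
(.lf (nat_lit 218940) (.g (nat_lit 2740) (.e (nat_lit 90174) (nat_lit 14) (.e (nat_lit 180243) (nat_lit 5) (.e (nat_lit 532508) (nat_lit 2) (.e (nat_lit 106538) (nat_lit 12) (.e (nat_lit 57478) (nat_lit 28) (.e (nat_lit 557093) (nat_lit 12) (.e (nat_lit 164058) (nat_lit 56) (.e (nat_lit 786455) (nat_lit 17) .nil)))))))) (.g (nat_lit 5) .nil .nil))))))) 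
(.nd (nat_lit 2) (.nd (nat_lit 3) (.nd (nat_lit 4) (.nd (nat_lit 5) 
(.lf (nat_lit 218882) (.g (nat_lit 2197) (.e (nat_lit 90174) (nat_lit 14) (.e (nat_lit 180243) (nat_lit 5) (.e (nat_lit 532504) (nat_lit 1) (.e (nat_lit 57691) (nat_lit 156) (.e (nat_lit 163871) (nat_lit 2) .nil))))) .nil)) 
(.lf (nat_lit 218914) (.g (nat_lit 2085) (.e (nat_lit 90174) (nat_lit 14) (.e (nat_lit 180243) (nat_lit 5) (.e (nat_lit 532504) (nat_lit 1) (.e (nat_lit 57692) (nat_lit 156) (.e (nat_lit 163871) (nat_lit 2) .nil))))) .nil))) (.nd (nat_lit 5) 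
(.lf (nat_lit 218898) (.g (nat_lit 2480) (.e (nat_lit 90174) (nat_lit 14) (.e (nat_lit 180243) (nat_lit 5) (.e (nat_lit 532504) (nat_lit 1) (.e (nat_lit 57692) (nat_lit 156) (.e (nat_lit 163869) (nat_lit 2) (.e (nat_lit 196658) (nat_lit 12) (.e (nat_lit 57549) (nat_lit 48) (.e (nat_lit 720941) (nat_lit 22) .nil)))))))) (.g (nat_lit 4) .nil .nil))) 
(.lf (nat_lit 218930) (.g (nat_lit 2456) (.e (nat_lit 90174) (nat_lit 14) (.e (nat_lit 180243) (nat_lit 5) (.e (nat_lit 532504) (nat_lit 1) (.e (nat_lit 57692) (nat_lit 156) (.e (nat_lit 163874) (nat_lit 3) (.e (nat_lit 204822) (nat_lit 17) (.e (nat_lit 2201) (nat_lit 144) (.e (nat_lit 720941) (nat_lit 22) .nil)))))))) (.g (nat_lit 4) .nil .nil))))) (.nd (nat_lit 4) (.nd (nat_lit 5) 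
(.lf (nat_lit 218890) (.g (nat_lit 3899) (.e (nat_lit 90174) (nat_lit 14) (.e (nat_lit 180243) (nat_lit 5) (.e (nat_lit 532504) (nat_lit 1) (.e (nat_lit 57691) (nat_lit 156) (.e (nat_lit 163875) (nat_lit 3) (.e (nat_lit 204836) (nat_lit 20) (.e (nat_lit 114714) (nat_lit 22) .nil))))))) (.g (nat_lit 5) .nil .nil))) 
(.lf (nat_lit 218922) (.g (nat_lit 2026) (.e (nat_lit 90174) (nat_lit 14) (.e (nat_lit 180243) (nat_lit 5) (.e (nat_lit 532504) (nat_lit 1) (.e (nat_lit 57692) (nat_lit 156) (.e (nat_lit 163872) (nat_lit 3) .nil))))) .nil))) (.nd (nat_lit 5) 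
(.lf (nat_lit 218906) (.g (nat_lit 2630) (.e (nat_lit 90174) (nat_lit 14) (.e (nat_lit 180243) (nat_lit 5) (.e (nat_lit 532504) (nat_lit 1) (.e (nat_lit 57692) (nat_lit 156) (.e (nat_lit 163869) (nat_lit 2) (.e (nat_lit 196661) (nat_lit 12) (.e (nat_lit 57549) (nat_lit 48) (.e (nat_lit 720939) (nat_lit 22) .nil)))))))) (.g (nat_lit 4) .nil .nil))) 
(.lf (nat_lit 218938) (.g (nat_lit 3319) (.e (nat_lit 90174) (nat_lit 14) (.e (nat_lit 180243) (nat_lit 5) (.e (nat_lit 532508) (nat_lit 2) (.e (nat_lit 106537) (nat_lit 12) (.e (nat_lit 57479) (nat_lit 28) (.e (nat_lit 557093) (nat_lit 12) (.e (nat_lit 164058) (nat_lit 56) (.e (nat_lit 786455) (nat_lit 17) .nil)))))))) (.g (nat_lit 6) .nil .nil)))))) 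
(.nd (nat_lit 3) (.nd (nat_lit 4) (.nd (nat_lit 5) 
(.lf (nat_lit 218886) (.g (nat_lit 2710) (.e (nat_lit 90174) (nat_lit 14) (.e (nat_lit 180243) (nat_lit 5) (.e (nat_lit 532504) (nat_lit 1) (.e (nat_lit 57691) (nat_lit 156) (.e (nat_lit 163874) (nat_lit 3) (.e (nat_lit 204815) (nat_lit 17) (.e (nat_lit 2203) (nat_lit 144) (.e (nat_lit 720941) (nat_lit 22) .nil)))))))) (.g (nat_lit 4) .nil .nil))) 
(.lf (nat_lit 218918) (.g (nat_lit 3521) (.e (nat_lit 90174) (nat_lit 14) (.e (nat_lit 180243) (nat_lit 5) (.e (nat_lit 532504) (nat_lit 1) (.e (nat_lit 57692) (nat_lit 156) (.e (nat_lit 163871) (nat_lit 2) (.e (nat_lit 196677) (nat_lit 16) (.e (nat_lit 122969) (nat_lit 48) (.e (nat_lit 720939) (nat_lit 22) .nil)))))))) (.g (nat_lit 5) .nil .nil)))) (.nd (nat_lit 5) 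
(.lf (nat_lit 218902) (.g (nat_lit 3573) (.e (nat_lit 90174) (nat_lit 14) (.e (nat_lit 180243) (nat_lit 5) (.e (nat_lit 532504) (nat_lit 1) (.e (nat_lit 57692) (nat_lit 156) (.e (nat_lit 163869) (nat_lit 2) (.e (nat_lit 196659) (nat_lit 12) (.e (nat_lit 57550) (nat_lit 48) (.e (nat_lit 720939) (nat_lit 22) .nil)))))))) (.g (nat_lit 5) .nil .nil))) 
(.lf (nat_lit 218934) (.g (nat_lit 2037) (.e (nat_lit 90174) (nat_lit 14) (.e (nat_lit 180243) (nat_lit 5) (.e (nat_lit 532504) (nat_lit 1) (.e (nat_lit 57754) (nat_lit 209) (.e (nat_lit 1182) (nat_lit 87) .nil))))) .nil)))) (.nd (nat_lit 4) (.nd (nat_lit 5) 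
(.lf (nat_lit 218894) (.g (nat_lit 3213) (.e (nat_lit 90174) (nat_lit 14) (.e (nat_lit 180243) (nat_lit 5) (.e (nat_lit 532504) (nat_lit 1) (.e (nat_lit 57692) (nat_lit 156) (.e (nat_lit 163869) (nat_lit 2) (.e (nat_lit 196628) (nat_lit 9) (.e (nat_lit 968) (nat_lit 81) (.e (nat_lit 2203) (nat_lit 144) (.e (nat_lit 720941) (nat_lit 22) .nil))))))))) (.g (nat_lit 5) .nil .nil))) 
(.lf (nat_lit 218926) (.g (nat_lit 2418) (.e (nat_lit 90174) (nat_lit 14) (.e (nat_lit 180243) (nat_lit 5) (.e (nat_lit 532504) (nat_lit 1) (.e (nat_lit 57692) (nat_lit 156) (.e (nat_lit 163874) (nat_lit 3) (.e (nat_lit 204817) (nat_lit 17) (.e (nat_lit 2203) (nat_lit 144) (.e (nat_lit 720941) (nat_lit 22) .nil)))))))) (.g (nat_lit 4) .nil .nil)))) (.nd (nat_lit 5) 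
(.lf (nat_lit 218910) (.g (nat_lit 2459) (.e (nat_lit 90174) (nat_lit 14) (.e (nat_lit 180243) (nat_lit 5) (.e (nat_lit 532504) (nat_lit 1) (.e (nat_lit 57692) (nat_lit 156) (.e (nat_lit 163869) (nat_lit 2) (.e (nat_lit 196677) (nat_lit 16) (.e (nat_lit 122970) (nat_lit 48) (.e (nat_lit 720939) (nat_lit 22) .nil)))))))) (.g (nat_lit 4) .nil .nil))) 
(.lf (nat_lit 218942) (.g (nat_lit 2096) (.e (nat_lit 90174) (nat_lit 14) (.e (nat_lit 180243) (nat_lit 5) (.e (nat_lit 532508) (nat_lit 2) (.e (nat_lit 106539) (nat_lit 12) (.e (nat_lit 57478) (nat_lit 28) (.e (nat_lit 557093) (nat_lit 12) (.e (nat_lit 164058) (nat_lit 56) (.e (nat_lit 786455) (nat_lit 17) .nil)))))))) (.g (nat_lit 5) .nil .nil)))))))) 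
(.nd (nat_lit 1) (.nd (nat_lit 2) (.nd (nat_lit 3) (.nd (nat_lit 4) (.nd (nat_lit 5) 
(.lf (nat_lit 218881) (.g (nat_lit 2536) (.e (nat_lit 90174) (nat_lit 14) (.e (nat_lit 180243) (nat_lit 5) (.e (nat_lit 532504) (nat_lit 1) (.e (nat_lit 57691) (nat_lit 156) (.e (nat_lit 163870) (nat_lit 2) (.e (nat_lit 196661) (nat_lit 12) (.e (nat_lit 57549) (nat_lit 48) (.e (nat_lit 720941) (nat_lit 22) .nil)))))))) (.g (nat_lit 4) .nil .nil))) 
(.lf (nat_lit 218913) (.g (nat_lit 2874) (.e (nat_lit 90174) (nat_lit 14) (.e (nat_lit 180243) (nat_lit 5) (.e (nat_lit 532504) (nat_lit 1) (.e (nat_lit 57692) (nat_lit 156) (.e (nat_lit 163870) (nat_lit 2) (.e (nat_lit 196661) (nat_lit 12) (.e (nat_lit 57549) (nat_lit 48) (.e (nat_lit 720941) (nat_lit 22) .nil)))))))) (.g (nat_lit 4) .nil .nil)))) (.nd (nat_lit 5) 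
(.lf (nat_lit 218897) (.g (nat_lit 2451) (.e (nat_lit 90174) (nat_lit 14) (.e (nat_lit 180243) (nat_lit 5) (.e (nat_lit 532504) (nat_lit 1) (.e (nat_lit 57692) (nat_lit 156) (.e (nat_lit 163869) (nat_lit 2) (.e (nat_lit 196642) (nat_lit 9) (.e (nat_lit 1280) (nat_lit 94) (.e (nat_lit 114716) (nat_lit 22) .nil)))))))) (.g (nat_lit 4) .nil .nil))) 
(.lf (nat_lit 218929) (.g (nat_lit 3372) (.e (nat_lit 90174) (nat_lit 14) (.e (nat_lit 180243) (nat_lit 5) (.e (nat_lit 532504) (nat_lit 1) (.e (nat_lit 57692) (nat_lit 156) (.e (nat_lit 163874) (nat_lit 3) (.e (nat_lit 204818) (nat_lit 17) (.e (nat_lit 2203) (nat_lit 144) (.e (nat_lit 720941) (nat_lit 22) .nil)))))))) (.g (nat_lit 5) .nil .nil))))) (.nd (nat_lit 4) (.nd (nat_lit 5) 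
(.lf (nat_lit 218889) (.g (nat_lit 3832) (.e (nat_lit 90174) (nat_lit 14) (.e (nat_lit 180243) (nat_lit 5) (.e (nat_lit 532504) (nat_lit 1) (.e (nat_lit 57691) (nat_lit 156) (.e (nat_lit 163875) (nat_lit 3) (.e (nat_lit 204818) (nat_lit 17) (.e (nat_lit 2203) (nat_lit 144) (.e (nat_lit 720941) (nat_lit 22) .nil)))))))) (.g (nat_lit 5) .nil .nil))) 
(.lf (nat_lit 218921) (.g (nat_lit 3387) (.e (nat_lit 90174) (nat_lit 14) (.e (nat_lit 180243) (nat_lit 5) (.e (nat_lit 532504) (nat_lit 1) (.e (nat_lit 57692) (nat_lit 156) (.e (nat_lit 163871) (nat_lit 2) (.e (nat_lit 196677) (nat_lit 16) (.e (nat_lit 122970) (nat_lit 48) (.e (nat_lit 720941) (nat_lit 22) .nil)))))))) (.g (nat_lit 5) .nil .nil)))) (.nd (nat_lit 5) 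
(.lf (nat_lit 218905) (.g (nat_lit 3531) (.e (nat_lit 90174) (nat_lit 14) (.e (nat_lit 180243) (nat_lit 5) (.e (nat_lit 532504) (nat_lit 1) (.e (nat_lit 57692) (nat_lit 156) (.e (nat_lit 163869) (nat_lit 2) (.e (nat_lit 196660) (nat_lit 12) (.e (nat_lit 57550) (nat_lit 48) (.e (nat_lit 720939) (nat_lit 22) .nil)))))))) (.g (nat_lit 5) .nil .nil))) 
(.lf (nat_lit 218937) (.g (nat_lit 2446) (.e (nat_lit 90174) (nat_lit 14) (.e (nat_lit 180243) (nat_lit 5) (.e (nat_lit 532508) (nat_lit 2) (.e (nat_lit 114432) (nat_lit 3) (.e (nat_lit 163962) (nat_lit 25) (.e (nat_lit 532500) (nat_lit 1) (.e (nat_lit 65280) (nat_lit 266) (.e (nat_lit 57373) (nat_lit 2) .nil)))))))) (.g (nat_lit 6) .nil .nil)))))) 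
(.nd (nat_lit 3) (.nd (nat_lit 4) (.nd (nat_lit 5) 
(.lf (nat_lit 218885) (.g (nat_lit 2999) (.e (nat_lit 90174) (nat_lit 14) (.e (nat_lit 180243) (nat_lit 5) (.e (nat_lit 532504) (nat_lit 1) (.e (nat_lit 57691) (nat_lit 156) (.e (nat_lit 163871) (nat_lit 2) (.e (nat_lit 196677) (nat_lit 16) (.e (nat_lit 122970) (nat_lit 48) (.e (nat_lit 720941) (nat_lit 22) .nil)))))))) (.g (nat_lit 4) .nil .nil))) 
(.lf (nat_lit 218917) (.g (nat_lit 2555) (.e (nat_lit 90174) (nat_lit 14) (.e (nat_lit 180243) (nat_lit 5) (.e (nat_lit 532504) (nat_lit 1) (.e (nat_lit 57692) (nat_lit 156) (.e (nat_lit 163871) (nat_lit 2) (.e (nat_lit 196677) (nat_lit 16) (.e (nat_lit 122969) (nat_lit 48) (.e (nat_lit 720938) (nat_lit 22) .nil)))))))) (.g (nat_lit 4) .nil .nil)))) (.nd (nat_lit 5) 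
(.lf (nat_lit 218901) (.g (nat_lit 3501) (.e (nat_lit 90174) (nat_lit 14) (.e (nat_lit 180243) (nat_lit 5) (.e (nat_lit 532504) (nat_lit 1) (.e (nat_lit 57692) (nat_lit 156) (.e (nat_lit 163869) (nat_lit 2) (.e (nat_lit 196658) (nat_lit 12) (.e (nat_lit 57551) (nat_lit 48) (.e (nat_lit 720941) (nat_lit 22) .nil)))))))) (.g (nat_lit 5) .nil .nil))) 
(.lf (nat_lit 218933) (.g (nat_lit 1881) (.e (nat_lit 90174) (nat_lit 14) (.e (nat_lit 180243) (nat_lit 5) (.e (nat_lit 532504) (nat_lit 1) (.e (nat_lit 57754) (nat_lit 209) .nil)))) .nil)))) (.nd (nat_lit 4) (.nd (nat_lit 5) 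
(.lf (nat_lit 218893) (.g (nat_lit 3324) (.e (nat_lit 90174) (nat_lit 14) (.e (nat_lit 180243) (nat_lit 5) (.e (nat_lit 532504) (nat_lit 1) (.e (nat_lit 57692) (nat_lit 156) (.e (nat_lit 163869) (nat_lit 2) (.e (nat_lit 196624) (nat_lit 9) (.e (nat_lit 1277) (nat_lit 94) (.e (nat_lit 114715) (nat_lit 22) .nil)))))))) (.g (nat_lit 5) .nil .nil))) 
(.lf (nat_lit 218925) (.g (nat_lit 3516) (.e (nat_lit 90174) (nat_lit 14) (.e (nat_lit 180243) (nat_lit 5) (.e (nat_lit 532504) (nat_lit 1) (.e (nat_lit 57692) (nat_lit 156) (.e (nat_lit 163874) (nat_lit 3) (.e (nat_lit 204817) (nat_lit 17) (.e (nat_lit 2198) (nat_lit 144) (.e (nat_lit 720941) (nat_lit 22) .nil)))))))) (.g (nat_lit 5) .nil .nil)))) (.nd (nat_lit 5) 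
(.lf (nat_lit 218909) (.g (nat_lit 3453) (.e (nat_lit 90174) (nat_lit 14) (.e (nat_lit 180243) (nat_lit 5) (.e (nat_lit 532504) (nat_lit 1) (.e (nat_lit 57692) (nat_lit 156) (.e (nat_lit 163869) (nat_lit 2) (.e (nat_lit 196677) (nat_lit 16) (.e (nat_lit 122969) (nat_lit 48) (.e (nat_lit 720941) (nat_lit 22) .nil)))))))) (.g (nat_lit 5) .nil .nil))) 
(.lf (nat_lit 218941) (.g (nat_lit 2985) (.e (nat_lit 90174) (nat_lit 14) (.e (nat_lit 180243) (nat_lit 5) (.e (nat_lit 532508) (nat_lit 2) (.e (nat_lit 106538) (nat_lit 12) (.e (nat_lit 57480) (nat_lit 28) (.e (nat_lit 557091) (nat_lit 12) (.e (nat_lit 164056) (nat_lit 56) (.e (nat_lit 786455) (nat_lit 17) .nil)))))))) (.g (nat_lit 5) .nil .nil))))))) 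
(.nd (nat_lit 2) (.nd (nat_lit 3) (.nd (nat_lit 4) (.nd (nat_lit 5) 
(.lf (nat_lit 218883) (.g (nat_lit 2713) (.e (nat_lit 90174) (nat_lit 14) (.e (nat_lit 180243) (nat_lit 5) (.e (nat_lit 532504) (nat_lit 1) (.e (nat_lit 57691) (nat_lit 156) (.e (nat_lit 163871) (nat_lit 2) (.e (nat_lit 196624) (nat_lit 9) (.e (nat_lit 1276) (nat_lit 94) (.e (nat_lit 114716) (nat_lit 22) .nil)))))))) (.g (nat_lit 4) .nil .nil))) 
(.lf (nat_lit 218915) (.g (nat_lit 3212) (.e (nat_lit 90174) (nat_lit 14) (.e (nat_lit 180243) (nat_lit 5) (.e (nat_lit 532504) (nat_lit 1) (.e (nat_lit 57692) (nat_lit 156) (.e (nat_lit 163871) (nat_lit 2) (.e (nat_lit 196624) (nat_lit 9) (.e (nat_lit 1277) (nat_lit 94) (.e (nat_lit 114715) (nat_lit 22) .nil)))))))) (.g (nat_lit 5) .nil .nil)))) (.nd (nat_lit 5) 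
(.lf (nat_lit 218899) (.g (nat_lit 3463) (.e (nat_lit 90174) (nat_lit 14) (.e (nat_lit 180243) (nat_lit 5) (.e (nat_lit 532504) (nat_lit 1) (.e (nat_lit 57692) (nat_lit 156) (.e (nat_lit 163869) (nat_lit 2) (.e (nat_lit 196658) (nat_lit 12) (.e (nat_lit 57550) (nat_lit 48) (.e (nat_lit 720939) (nat_lit 22) .nil)))))))) (.g (nat_lit 5) .nil .nil))) 
(.lf (nat_lit 218931) (.g (nat_lit 3757) (.e (nat_lit 90174) (nat_lit 14) (.e (nat_lit 180243) (nat_lit 5) (.e (nat_lit 532504) (nat_lit 1) (.e (nat_lit 57692) (nat_lit 156) (.e (nat_lit 163875) (nat_lit 3) (.e (nat_lit 204817) (nat_lit 17) (.e (nat_lit 2198) (nat_lit 144) (.e (nat_lit 720941) (nat_lit 22) .nil)))))))) (.g (nat_lit 5) .nil .nil))))) (.nd (nat_lit 4) (.nd (nat_lit 5) 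
(.lf (nat_lit 218891) (.g (nat_lit 1113) (.e (nat_lit 90174) (nat_lit 14) (.e (nat_lit 180243) (nat_lit 5) (.e (nat_lit 532504) (nat_lit 1) (.e (nat_lit 57692) (nat_lit 156) .nil)))) .nil)) 
(.lf (nat_lit 218923) (.g (nat_lit 3066) (.e (nat_lit 90174) (nat_lit 14) (.e (nat_lit 180243) (nat_lit 5) (.e (nat_lit 532504) (nat_lit 1) (.e (nat_lit 57692) (nat_lit 156) (.e (nat_lit 163874) (nat_lit 3) (.e (nat_lit 204815) (nat_lit 17) (.e (nat_lit 2198) (nat_lit 144) (.e (nat_lit 720941) (nat_lit 22) .nil)))))))) (.g (nat_lit 5) .nil .nil)))) (.nd (nat_lit 5) 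
(.lf (nat_lit 218907) (.g (nat_lit 3327) (.e (nat_lit 90174) (nat_lit 14) (.e (nat_lit 180243) (nat_lit 5) (.e (nat_lit 532504) (nat_lit 1) (.e (nat_lit 57692) (nat_lit 156) (.e (nat_lit 163869) (nat_lit 2) (.e (nat_lit 196661) (nat_lit 12) (.e (nat_lit 57549) (nat_lit 48) (.e (nat_lit 720941) (nat_lit 22) .nil)))))))) (.g (nat_lit 5) .nil .nil))) 
(.lf (nat_lit 218939) (.g (nat_lit 2711) (.e (nat_lit 90174) (nat_lit 14) (.e (nat_lit 180243) (nat_lit 5) (.e (nat_lit 532508) (nat_lit 2) (.e (nat_lit 106537) (nat_lit 12) (.e (nat_lit 57479) (nat_lit 28) (.e (nat_lit 557094) (nat_lit 12) (.e (nat_lit 164056) (nat_lit 56) (.e (nat_lit 786455) (nat_lit 17) .nil)))))))) (.g (nat_lit 5) .nil .nil)))))) 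
(.nd (nat_lit 3) (.nd (nat_lit 4) (.nd (nat_lit 5) 
(.lf (nat_lit 218887) (.g (nat_lit 4064) (.e (nat_lit 90174) (nat_lit 14) (.e (nat_lit 180243) (nat_lit 5) (.e (nat_lit 532504) (nat_lit 1) (.e (nat_lit 57691) (nat_lit 156) (.e (nat_lit 163875) (nat_lit 3) (.e (nat_lit 204815) (nat_lit 17) (.e (nat_lit 2203) (nat_lit 144) (.e (nat_lit 720941) (nat_lit 22) .nil)))))))) (.g (nat_lit 5) .nil .nil))) 
(.lf (nat_lit 218919) (.g (nat_lit 3713) (.e (nat_lit 90174) (nat_lit 14) (.e (nat_lit 180243) (nat_lit 5) (.e (nat_lit 532504) (nat_lit 1) (.e (nat_lit 57692) (nat_lit 156) (.e (nat_lit 163871) (nat_lit 2) (.e (nat_lit 196677) (nat_lit 16) (.e (nat_lit 122969) (nat_lit 48) (.e (nat_lit 720941) (nat_lit 22) .nil)))))))) (.g (nat_lit 5) .nil .nil)))) (.nd (nat_lit 5) 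
(.lf (nat_lit 218903) (.g (nat_lit 3301) (.e (nat_lit 90174) (nat_lit 14) (.e (nat_lit 180243) (nat_lit 5) (.e (nat_lit 532504) (nat_lit 1) (.e (nat_lit 57692) (nat_lit 156) (.e (nat_lit 163869) (nat_lit 2) (.e (nat_lit 196659) (nat_lit 12) (.e (nat_lit 57550) (nat_lit 48) (.e (nat_lit 720941) (nat_lit 22) .nil)))))))) (.g (nat_lit 5) .nil .nil))) 
(.lf (nat_lit 218935) (.g (nat_lit 428) (.e (nat_lit 90174) (nat_lit 14) (.e (nat_lit 180243) (nat_lit 5) (.e (nat_lit 532506) (nat_lit 2) .nil))) .nil)))) (.nd (nat_lit 4) (.nd (nat_lit 5) 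
(.lf (nat_lit 218895) (.g (nat_lit 2540) (.e (nat_lit 90174) (nat_lit 14) (.e (nat_lit 180243) (nat_lit 5) (.e (nat_lit 532504) (nat_lit 1) (.e (nat_lit 57692) (nat_lit 156) (.e (nat_lit 163869) (nat_lit 2) (.e (nat_lit 196634) (nat_lit 9) (.e (nat_lit 1280) (nat_lit 94) (.e (nat_lit 114716) (nat_lit 22) .nil)))))))) (.g (nat_lit 4) .nil .nil))) 
(.lf (nat_lit 218927) (.g (nat_lit 2325) (.e (nat_lit 90174) (nat_lit 14) (.e (nat_lit 180243) (nat_lit 5) (.e (nat_lit 532504) (nat_lit 1) (.e (nat_lit 57692) (nat_lit 156) (.e (nat_lit 163874) (nat_lit 3) (.e (nat_lit 204818) (nat_lit 17) (.e (nat_lit 2202) (nat_lit 144) (.e (nat_lit 720939) (nat_lit 22) .nil)))))))) (.g (nat_lit 4) .nil .nil)))) (.nd (nat_lit 5) 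
(.lf (nat_lit 218911) (.g (nat_lit 2081) (.e (nat_lit 90174) (nat_lit 14) (.e (nat_lit 180243) (nat_lit 5) (.e (nat_lit 532504) (nat_lit 1) (.e (nat_lit 57692) (nat_lit 156) (.e (nat_lit 163870) (nat_lit 2) .nil))))) .nil)) 
(.lf (nat_lit 218943) (.g (nat_lit 3095) (.e (nat_lit 90174) (nat_lit 14) (.e (nat_lit 180243) (nat_lit 5) (.e (nat_lit 532508) (nat_lit 2) (.e (nat_lit 106539) (nat_lit 12) (.e (nat_lit 57479) (nat_lit 28) (.e (nat_lit 557094) (nat_lit 12) (.e (nat_lit 164056) (nat_lit 56) (.e (nat_lit 786455) (nat_lit 17) .nil)))))))) (.g (nat_lit 5) .nil .nil)))))))))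

noncomputable def tv2878 : DT := (.nd (nat_lit 0) (.nd (nat_lit 1) (.nd (nat_lit 2) (.nd (nat_lit 3) (.nd (nat_lit 4) (.nd (nat_lit 5) 
(.lf (nat_lit 218944) (.g (nat_lit 3844) (.e (nat_lit 90174) (nat_lit 14) (.e (nat_lit 180243) (nat_lit 5) (.e (nat_lit 532508) (nat_lit 2) (.e (nat_lit 106539) (nat_lit 12) (.e (nat_lit 57480) (nat_lit 28) (.e (nat_lit 557091) (nat_lit 12) (.e (nat_lit 164053) (nat_lit 56) (.e (nat_lit 786455) (nat_lit 17) .nil)))))))) (.g (nat_lit 6) .nil .nil))) 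
(.lf (nat_lit 218976) (.g (nat_lit 1959) (.e (nat_lit 90174) (nat_lit 14) (.e (nat_lit 180243) (nat_lit 5) (.e (nat_lit 532513) (nat_lit 3) (.e (nat_lit 114714) (nat_lit 22) (.e (nat_lit 90200) (nat_lit 18) .nil))))) .nil))) (.nd (nat_lit 5) 
(.lf (nat_lit 218960) (.g (nat_lit 386) (.e (nat_lit 90174) (nat_lit 14) (.e (nat_lit 180243) (nat_lit 5) (.e (nat_lit 532513) (nat_lit 3) .nil))) .nil)) 
(.lf (nat_lit 218992) (.g (nat_lit 2036) (.e (nat_lit 90174) (nat_lit 14) (.e (nat_lit 180243) (nat_lit 5) (.e (nat_lit 532513) (nat_lit 3) (.e (nat_lit 114718) (nat_lit 23) (.e (nat_lit 98334) (nat_lit 18) .nil))))) .nil)))) (.nd (nat_lit 4) (.nd (nat_lit 5) 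
(.lf (nat_lit 218952) (.g (nat_lit 3083) (.e (nat_lit 90174) (nat_lit 14) (.e (nat_lit 180243) (nat_lit 5) (.e (nat_lit 532510) (nat_lit 2) (.e (nat_lit 106539) (nat_lit 12) (.e (nat_lit 57479) (nat_lit 28) (.e (nat_lit 557094) (nat_lit 12) (.e (nat_lit 164056) (nat_lit 56) (.e (nat_lit 786455) (nat_lit 17) .nil)))))))) (.g (nat_lit 5) .nil .nil))) 
(.lf (nat_lit 218984) (.g (nat_lit 2650) (.e (nat_lit 90174) (nat_lit 14) (.e (nat_lit 180243) (nat_lit 5) (.e (nat_lit 532513) (nat_lit 3) (.e (nat_lit 114717) (nat_lit 23) (.e (nat_lit 98334) (nat_lit 18) (.e (nat_lit 164399) (nat_lit 256) (.e (nat_lit 57375) (nat_lit 2) .nil))))))) (.g (nat_lit 5) .nil .nil)))) (.nd (nat_lit 5) 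
(.lf (nat_lit 218968) (.g (nat_lit 2213) (.e (nat_lit 90174) (nat_lit 14) (.e (nat_lit 180243) (nat_lit 5) (.e (nat_lit 532513) (nat_lit 3) (.e (nat_lit 114711) (nat_lit 21) (.e (nat_lit 65280) (nat_lit 144) .nil))))) .nil)) 
(.lf (nat_lit 219000) (.g (nat_lit 2454) (.e (nat_lit 90174) (nat_lit 14) (.e (nat_lit 180243) (nat_lit 5) (.e (nat_lit 532513) (nat_lit 3) (.e (nat_lit 114719) (nat_lit 23) (.e (nat_lit 98325) (nat_lit 17) .nil))))) .nil))))) (.nd (nat_lit 3) (.nd (nat_lit 4) (.nd (nat_lit 5) 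
(.lf (nat_lit 218948) (.g (nat_lit 3560) (.e (nat_lit 90174) (nat_lit 14) (.e (nat_lit 180243) (nat_lit 5) (.e (nat_lit 532510) (nat_lit 2) (.e (nat_lit 106537) (nat_lit 12) (.e (nat_lit 57480) (nat_lit 28) (.e (nat_lit 557091) (nat_lit 12) (.e (nat_lit 164053) (nat_lit 56) (.e (nat_lit 786455) (nat_lit 17) .nil)))))))) (.g (nat_lit 6) .nil .nil))) 
(.lf (nat_lit 218980) (.g (nat_lit 1398) (.e (nat_lit 90174) (nat_lit 14) (.e (nat_lit 180243) (nat_lit 5) (.e (nat_lit 532513) (nat_lit 3) (.e (nat_lit 114716) (nat_lit 22) .nil)))) .nil))) (.nd (nat_lit 5) 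
(.lf (nat_lit 218964) (.g (nat_lit 1356) (.e (nat_lit 90174) (nat_lit 14) (.e (nat_lit 180243) (nat_lit 5) (.e (nat_lit 532513) (nat_lit 3) (.e (nat_lit 114700) (nat_lit 20) .nil)))) .nil)) 
(.lf (nat_lit 218996) (.g (nat_lit 3941) (.e (nat_lit 90174) (nat_lit 14) (.e (nat_lit 180243) (nat_lit 5) (.e (nat_lit 532513) (nat_lit 3) (.e (nat_lit 114718) (nat_lit 23) (.e (nat_lit 98334) (nat_lit 18) (.e (nat_lit 164402) (nat_lit 256) (.e (nat_lit 57373) (nat_lit 2) .nil))))))) (.g (nat_lit 5) .nil .nil))))) (.nd (nat_lit 4) (.nd (nat_lit 5) 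
(.lf (nat_lit 218956) (.g (nat_lit 2335) (.e (nat_lit 90174) (nat_lit 14) (.e (nat_lit 180243) (nat_lit 5) (.e (nat_lit 532511) (nat_lit 2) (.e (nat_lit 106538) (nat_lit 12) (.e (nat_lit 57478) (nat_lit 28) (.e (nat_lit 557093) (nat_lit 12) (.e (nat_lit 164058) (nat_lit 56) (.e (nat_lit 786455) (nat_lit 17) .nil)))))))) (.g (nat_lit 5) .nil .nil))) 
(.lf (nat_lit 218988) (.g (nat_lit 2963) (.e (nat_lit 90174) (nat_lit 14) (.e (nat_lit 180243) (nat_lit 5) (.e (nat_lit 532513) (nat_lit 3) (.e (nat_lit 114718) (nat_lit 23) (.e (nat_lit 98332) (nat_lit 18) (.e (nat_lit 164403) (nat_lit 256) (.e (nat_lit 57371) (nat_lit 2) .nil))))))) (.g (nat_lit 4) .nil .nil)))) (.nd (nat_lit 5) 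
(.lf (nat_lit 218972) (.g (nat_lit 1809) (.e (nat_lit 90174) (nat_lit 14) (.e (nat_lit 180243) (nat_lit 5) (.e (nat_lit 532513) (nat_lit 3) (.e (nat_lit 114714) (nat_lit 22) (.e (nat_lit 90165) (nat_lit 12) .nil))))) .nil)) 
(.lf (nat_lit 219004) (.g (nat_lit 2800) (.e (nat_lit 90174) (nat_lit 14) (.e (nat_lit 180243) (nat_lit 5) (.e (nat_lit 532513) (nat_lit 3) (.e (nat_lit 114719) (nat_lit 23) (.e (nat_lit 98332) (nat_lit 18) (.e (nat_lit 164401) (nat_lit 256) (.e (nat_lit 57373) (nat_lit 2) .nil))))))) (.g (nat_lit 4) .nil .nil))))))) (.nd (nat_lit 2) (.nd (nat_lit 3) (.nd (nat_lit 4) (.nd (nat_lit 5) 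
(.lf (nat_lit 218946) (.g (nat_lit 3323) (.e (nat_lit 90174) (nat_lit 14) (.e (nat_lit 180243) (nat_lit 5) (.e (nat_lit 532510) (nat_lit 2) (.e (nat_lit 106537) (nat_lit 12) (.e (nat_lit 57479) (nat_lit 28) (.e (nat_lit 557093) (nat_lit 12) (.e (nat_lit 164058) (nat_lit 56) (.e (nat_lit 786455) (nat_lit 17) .nil)))))))) (.g (nat_lit 6) .nil .nil))) 
(.lf (nat_lit 218978) (.g (nat_lit 2211) (.e (nat_lit 90174) (nat_lit 14) (.e (nat_lit 180243) (nat_lit 5) (.e (nat_lit 532513) (nat_lit 3) (.e (nat_lit 114714) (nat_lit 22) (.e (nat_lit 98048) (nat_lit 21) (.e (nat_lit 164354) (nat_lit 246) (.e (nat_lit 100) (nat_lit 2) .nil))))))) (.g (nat_lit 4) .nil .nil)))) (.nd (nat_lit 5) 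
(.lf (nat_lit 218962) (.g (nat_lit 2433) (.e (nat_lit 90174) (nat_lit 14) (.e (nat_lit 180243) (nat_lit 5) (.e (nat_lit 532513) (nat_lit 3) (.e (nat_lit 122624) (nat_lit 2) (.e (nat_lit 196656) (nat_lit 11) (.e (nat_lit 24320) (nat_lit 17) .nil)))))) (.g (nat_lit 5) .nil .nil))) 
(.lf (nat_lit 218994) (.g (nat_lit 3788) (.e (nat_lit 90174) (nat_lit 14) (.e (nat_lit 180243) (nat_lit 5) (.e (nat_lit 532513) (nat_lit 3) (.e (nat_lit 114718) (nat_lit 23) (.e (nat_lit 98334) (nat_lit 18) (.e (nat_lit 164401) (nat_lit 256) (.e (nat_lit 57371) (nat_lit 2) .nil))))))) (.g (nat_lit 5) .nil .nil))))) (.nd (nat_lit 4) (.nd (nat_lit 5) 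
(.lf (nat_lit 218954) (.g (nat_lit 506) (.e (nat_lit 90174) (nat_lit 14) (.e (nat_lit 180243) (nat_lit 5) (.e (nat_lit 532511) (nat_lit 2) .nil))) .nil)) 
(.lf (nat_lit 218986) (.g (nat_lit 2124) (.e (nat_lit 90174) (nat_lit 14) (.e (nat_lit 180243) (nat_lit 5) (.e (nat_lit 532513) (nat_lit 3) (.e (nat_lit 114718) (nat_lit 23) (.e (nat_lit 98325) (nat_lit 17) .nil))))) .nil))) (.nd (nat_lit 5) 
(.lf (nat_lit 218970) (.g (nat_lit 1870) (.e (nat_lit 90174) (nat_lit 14) (.e (nat_lit 180243) (nat_lit 5) (.e (nat_lit 532513) (nat_lit 3) (.e (nat_lit 114714) (nat_lit 22) (.e (nat_lit 90162) (nat_lit 12) .nil))))) .nil)) 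
(.lf (nat_lit 219002) (.g (nat_lit 2465) (.e (nat_lit 90174) (nat_lit 14) (.e (nat_lit 180243) (nat_lit 5) (.e (nat_lit 532513) (nat_lit 3) (.e (nat_lit 114719) (nat_lit 23) (.e (nat_lit 98332) (nat_lit 18) (.e (nat_lit 164399) (nat_lit 256) (.e (nat_lit 57375) (nat_lit 2) .nil))))))) (.g (nat_lit 4) .nil .nil)))))) (.nd (nat_lit 3) (.nd (nat_lit 4) (.nd (nat_lit 5) 
(.lf (nat_lit 218950) (.g (nat_lit 2822) (.e (nat_lit 90174) (nat_lit 14) (.e (nat_lit 180243) (nat_lit 5) (.e (nat_lit 532510) (nat_lit 2) (.e (nat_lit 106538) (nat_lit 12) (.e (nat_lit 57480) (nat_lit 28) (.e (nat_lit 557091) (nat_lit 12) (.e (nat_lit 164053) (nat_lit 56) (.e (nat_lit 786455) (nat_lit 17) .nil)))))))) (.g (nat_lit 5) .nil .nil))) 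
(.lf (nat_lit 218982) (.g (nat_lit 3114) (.e (nat_lit 90174) (nat_lit 14) (.e (nat_lit 180243) (nat_lit 5) (.e (nat_lit 532513) (nat_lit 3) (.e (nat_lit 114717) (nat_lit 23) (.e (nat_lit 98333) (nat_lit 18) (.e (nat_lit 164399) (nat_lit 256) (.e (nat_lit 57375) (nat_lit 2) .nil))))))) (.g (nat_lit 6) .nil .nil)))) (.nd (nat_lit 5) 
(.lf (nat_lit 218966) (.g (nat_lit 2046) (.e (nat_lit 90174) (nat_lit 14) (.e (nat_lit 180243) (nat_lit 5) (.e (nat_lit 532513) (nat_lit 3) (.e (nat_lit 114708) (nat_lit 20) (.e (nat_lit 1856) (nat_lit 124) (.e (nat_lit 557093) (nat_lit 12) (.e (nat_lit 164058) (nat_lit 56) (.e (nat_lit 786455) (nat_lit 17) .nil)))))))) (.g (nat_lit 4) .nil .nil))) 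
(.lf (nat_lit 218998) (.g (nat_lit 5809) (.e (nat_lit 90174) (nat_lit 14) (.e (nat_lit 180243) (nat_lit 5) (.e (nat_lit 532513) (nat_lit 3) (.e (nat_lit 114718) (nat_lit 23) (.e (nat_lit 98334) (nat_lit 18) (.e (nat_lit 164403) (nat_lit 256) (.e (nat_lit 57373) (nat_lit 2) .nil))))))) (.g (nat_lit 0) .nil .nil))))) (.nd (nat_lit 4) (.nd (nat_lit 5) 
(.lf (nat_lit 218958) (.g (nat_lit 3107) (.e (nat_lit 90174) (nat_lit 14) (.e (nat_lit 180243) (nat_lit 5) (.e (nat_lit 532511) (nat_lit 2) (.e (nat_lit 106539) (nat_lit 12) (.e (nat_lit 57479) (nat_lit 28) (.e (nat_lit 557094) (nat_lit 12) (.e (nat_lit 164056) (nat_lit 56) (.e (nat_lit 786455) (nat_lit 17) .nil)))))))) (.g (nat_lit 5) .nil .nil))) 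
(.lf (nat_lit 218990) (.g (nat_lit 4012) (.e (nat_lit 90174) (nat_lit 14) (.e (nat_lit 180243) (nat_lit 5) (.e (nat_lit 532513) (nat_lit 3) (.e (nat_lit 114718) (nat_lit 23) (.e (nat_lit 98333) (nat_lit 18) (.e (nat_lit 164399) (nat_lit 256) (.e (nat_lit 57370) (nat_lit 2) .nil))))))) (.g (nat_lit 6) .nil .nil)))) (.nd (nat_lit 5) 
(.lf (nat_lit 218974) (.g (nat_lit 1818) (.e (nat_lit 90174) (nat_lit 14) (.e (nat_lit 180243) (nat_lit 5) (.e (nat_lit 532513) (nat_lit 3) (.e (nat_lit 114714) (nat_lit 22) (.e (nat_lit 90181) (nat_lit 16) .nil))))) .nil)) 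
(.lf (nat_lit 219006) (.g (nat_lit 2559) (.e (nat_lit 90174) (nat_lit 14) (.e (nat_lit 180243) (nat_lit 5) (.e (nat_lit 532513) (nat_lit 3) (.e (nat_lit 114719) (nat_lit 23) (.e (nat_lit 98333) (nat_lit 18) (.e (nat_lit 164398) (nat_lit 256) (.e (nat_lit 57374) (nat_lit 2) .nil))))))) (.g (nat_lit 4) .nil .nil)))))))) 
(.nd (nat_lit 1) (.nd (nat_lit 2) (.nd (nat_lit 3) (.nd (nat_lit 4) (.nd (nat_lit 5) 
(.lf (nat_lit 218945) (.g (nat_lit 493) (.e (nat_lit 90174) (nat_lit 14) (.e (nat_lit 180243) (nat_lit 5) (.e (nat_lit 532510) (nat_lit 2) .nil))) .nil)) 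
(.lf (nat_lit 218977) (.g (nat_lit 1959) (.e (nat_lit 90174) (nat_lit 14) (.e (nat_lit 180243) (nat_lit 5) (.e (nat_lit 532513) (nat_lit 3) (.e (nat_lit 114714) (nat_lit 22) (.e (nat_lit 90202) (nat_lit 21) .nil))))) .nil))) (.nd (nat_lit 5) 
(.lf (nat_lit 218961) (.g (nat_lit 2400) (.e (nat_lit 90174) (nat_lit 14) (.e (nat_lit 180243) (nat_lit 5) (.e (nat_lit 532513) (nat_lit 3) (.e (nat_lit 122624) (nat_lit 2) (.e (nat_lit 196654) (nat_lit 11) (.e (nat_lit 24320) (nat_lit 17) .nil)))))) (.g (nat_lit 5) .nil .nil))) 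
(.lf (nat_lit 218993) (.g (nat_lit 3783) (.e (nat_lit 90174) (nat_lit 14) (.e (nat_lit 180243) (nat_lit 5) (.e (nat_lit 532513) (nat_lit 3) (.e (nat_lit 114718) (nat_lit 23) (.e (nat_lit 98334) (nat_lit 18) (.e (nat_lit 164399) (nat_lit 256) (.e (nat_lit 57370) (nat_lit 2) .nil))))))) (.g (nat_lit 5) .nil .nil))))) (.nd (nat_lit 4) (.nd (nat_lit 5) 
(.lf (nat_lit 218953) (.g (nat_lit 3817) (.e (nat_lit 90174) (nat_lit 14) (.e (nat_lit 180243) (nat_lit 5) (.e (nat_lit 532510) (nat_lit 2) (.e (nat_lit 106539) (nat_lit 12) (.e (nat_lit 57480) (nat_lit 28) (.e (nat_lit 557091) (nat_lit 12) (.e (nat_lit 164053) (nat_lit 56) (.e (nat_lit 786455) (nat_lit 17) .nil)))))))) (.g (nat_lit 6) .nil .nil))) 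
(.lf (nat_lit 218985) (.g (nat_lit 1122) (.e (nat_lit 90174) (nat_lit 14) (.e (nat_lit 180243) (nat_lit 5) (.e (nat_lit 532513) (nat_lit 3) (.e (nat_lit 114718) (nat_lit 23) .nil)))) .nil))) (.nd (nat_lit 5) 
(.lf (nat_lit 218969) (.g (nat_lit 1012) (.e (nat_lit 90174) (nat_lit 14) (.e (nat_lit 180243) (nat_lit 5) (.e (nat_lit 532513) (nat_lit 3) (.e (nat_lit 114714) (nat_lit 22) .nil)))) .nil)) 
(.lf (nat_lit 219001) (.g (nat_lit 2550) (.e (nat_lit 90174) (nat_lit 14) (.e (nat_lit 180243) (nat_lit 5) (.e (nat_lit 532513) (nat_lit 3) (.e (nat_lit 114719) (nat_lit 23) (.e (nat_lit 98332) (nat_lit 18) (.e (nat_lit 164398) (nat_lit 256) (.e (nat_lit 57375) (nat_lit 2) .nil))))))) (.g (nat_lit 4) .nil .nil)))))) (.nd (nat_lit 3) (.nd (nat_lit 4) (.nd (nat_lit 5) 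
(.lf (nat_lit 218949) (.g (nat_lit 2004) (.e (nat_lit 90174) (nat_lit 14) (.e (nat_lit 180243) (nat_lit 5) (.e (nat_lit 532510) (nat_lit 2) (.e (nat_lit 106538) (nat_lit 12) (.e (nat_lit 57478) (nat_lit 28) (.e (nat_lit 557093) (nat_lit 12) (.e (nat_lit 164058) (nat_lit 56) (.e (nat_lit 786455) (nat_lit 17) .nil)))))))) (.g (nat_lit 4) .nil .nil))) 
(.lf (nat_lit 218981) (.g (nat_lit 2124) (.e (nat_lit 90174) (nat_lit 14) (.e (nat_lit 180243) (nat_lit 5) (.e (nat_lit 532513) (nat_lit 3) (.e (nat_lit 114716) (nat_lit 22) (.e (nat_lit 90140) (nat_lit 9) .nil))))) .nil))) (.nd (nat_lit 5) 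
(.lf (nat_lit 218965) (.g (nat_lit 1398) (.e (nat_lit 90174) (nat_lit 14) (.e (nat_lit 180243) (nat_lit 5) (.e (nat_lit 532513) (nat_lit 3) (.e (nat_lit 114701) (nat_lit 20) .nil)))) .nil)) 
(.lf (nat_lit 218997) (.g (nat_lit 2670) (.e (nat_lit 90174) (nat_lit 14) (.e (nat_lit 180243) (nat_lit 5) (.e (nat_lit 532513) (nat_lit 3) (.e (nat_lit 114718) (nat_lit 23) (.e (nat_lit 98334) (nat_lit 18) (.e (nat_lit 164403) (nat_lit 256) (.e (nat_lit 57370) (nat_lit 2) .nil))))))) (.g (nat_lit 4) .nil .nil))))) (.nd (nat_lit 4) (.nd (nat_lit 5) 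
(.lf (nat_lit 218957) (.g (nat_lit 2146) (.e (nat_lit 90174) (nat_lit 14) (.e (nat_lit 180243) (nat_lit 5) (.e (nat_lit 532511) (nat_lit 2) (.e (nat_lit 106539) (nat_lit 12) (.e (nat_lit 57478) (nat_lit 28) (.e (nat_lit 557093) (nat_lit 12) (.e (nat_lit 164058) (nat_lit 56) (.e (nat_lit 786455) (nat_lit 17) .nil)))))))) (.g (nat_lit 5) .nil .nil))) 
(.lf (nat_lit 218989) (.g (nat_lit 2747) (.e (nat_lit 90174) (nat_lit 14) (.e (nat_lit 180243) (nat_lit 5) (.e (nat_lit 532513) (nat_lit 3) (.e (nat_lit 114718) (nat_lit 23) (.e (nat_lit 98333) (nat_lit 18) (.e (nat_lit 164398) (nat_lit 256) (.e (nat_lit 57374) (nat_lit 2) .nil))))))) (.g (nat_lit 4) .nil .nil)))) (.nd (nat_lit 5) 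
(.lf (nat_lit 218973) (.g (nat_lit 2116) (.e (nat_lit 90174) (nat_lit 14) (.e (nat_lit 180243) (nat_lit 5) (.e (nat_lit 532513) (nat_lit 3) (.e (nat_lit 114714) (nat_lit 22) (.e (nat_lit 90165) (nat_lit 12) (.e (nat_lit 163853) (nat_lit 0) (.e (nat_lit 7936) (nat_lit 322) (.e (nat_lit 57373) (nat_lit 2) .nil)))))))) (.g (nat_lit 4) .nil .nil))) 
(.lf (nat_lit 219005) (.g (nat_lit 3143) (.e (nat_lit 90174) (nat_lit 14) (.e (nat_lit 180243) (nat_lit 5) (.e (nat_lit 532513) (nat_lit 3) (.e (nat_lit 114719) (nat_lit 23) (.e (nat_lit 98332) (nat_lit 18) (.e (nat_lit 164402) (nat_lit 256) (.e (nat_lit 57371) (nat_lit 2) .nil))))))) (.g (nat_lit 4) .nil .nil))))))) (.nd (nat_lit 2) (.nd (nat_lit 3) (.nd (nat_lit 4) (.nd (nat_lit 5) 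
(.lf (nat_lit 218947) (.g (nat_lit 2715) (.e (nat_lit 90174) (nat_lit 14) (.e (nat_lit 180243) (nat_lit 5) (.e (nat_lit 532510) (nat_lit 2) (.e (nat_lit 106537) (nat_lit 12) (.e (nat_lit 57479) (nat_lit 28) (.e (nat_lit 557094) (nat_lit 12) (.e (nat_lit 164056) (nat_lit 56) (.e (nat_lit 786455) (nat_lit 17) .nil)))))))) (.g (nat_lit 5) .nil .nil))) 
(.lf (nat_lit 218979) (.g (nat_lit 1398) (.e (nat_lit 90174) (nat_lit 14) (.e (nat_lit 180243) (nat_lit 5) (.e (nat_lit 532513) (nat_lit 3) (.e (nat_lit 114715) (nat_lit 22) .nil)))) .nil))) (.nd (nat_lit 5) 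
(.lf (nat_lit 218963) (.g (nat_lit 1203) (.e (nat_lit 90174) (nat_lit 14) (.e (nat_lit 180243) (nat_lit 5) (.e (nat_lit 532513) (nat_lit 3) (.e (nat_lit 122624) (nat_lit 3) .nil)))) .nil)) 
(.lf (nat_lit 218995) (.g (nat_lit 4222) (.e (nat_lit 90174) (nat_lit 14) (.e (nat_lit 180243) (nat_lit 5) (.e (nat_lit 532513) (nat_lit 3) (.e (nat_lit 114718) (nat_lit 23) (.e (nat_lit 98334) (nat_lit 18) (.e (nat_lit 164402) (nat_lit 256) (.e (nat_lit 57371) (nat_lit 2) .nil))))))) (.g (nat_lit 5) .nil .nil))))) (.nd (nat_lit 4) (.nd (nat_lit 5) 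
(.lf (nat_lit 218955) (.g (nat_lit 2457) (.e (nat_lit 90174) (nat_lit 14) (.e (nat_lit 180243) (nat_lit 5) (.e (nat_lit 532511) (nat_lit 2) (.e (nat_lit 106537) (nat_lit 12) (.e (nat_lit 57479) (nat_lit 28) (.e (nat_lit 557094) (nat_lit 12) (.e (nat_lit 164056) (nat_lit 56) (.e (nat_lit 786455) (nat_lit 17) .nil)))))))) (.g (nat_lit 5) .nil .nil))) 
(.lf (nat_lit 218987) (.g (nat_lit 2814) (.e (nat_lit 90174) (nat_lit 14) (.e (nat_lit 180243) (nat_lit 5) (.e (nat_lit 532513) (nat_lit 3) (.e (nat_lit 114718) (nat_lit 23) (.e (nat_lit 98332) (nat_lit 18) (.e (nat_lit 164396) (nat_lit 256) (.e (nat_lit 57371) (nat_lit 2) .nil))))))) (.g (nat_lit 4) .nil .nil)))) (.nd (nat_lit 5) 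
(.lf (nat_lit 218971) (.g (nat_lit 1872) (.e (nat_lit 90174) (nat_lit 14) (.e (nat_lit 180243) (nat_lit 5) (.e (nat_lit 532513) (nat_lit 3) (.e (nat_lit 114714) (nat_lit 22) (.e (nat_lit 90164) (nat_lit 12) .nil))))) .nil)) 
(.lf (nat_lit 219003) (.g (nat_lit 2843) (.e (nat_lit 90174) (nat_lit 14) (.e (nat_lit 180243) (nat_lit 5) (.e (nat_lit 532513) (nat_lit 3) (.e (nat_lit 114719) (nat_lit 23) (.e (nat_lit 98332) (nat_lit 18) (.e (nat_lit 164400) (nat_lit 256) (.e (nat_lit 57375) (nat_lit 2) .nil))))))) (.g (nat_lit 4) .nil .nil)))))) (.nd (nat_lit 3) (.nd (nat_lit 4) (.nd (nat_lit 5) 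
(.lf (nat_lit 218951) (.g (nat_lit 2069) (.e (nat_lit 90174) (nat_lit 14) (.e (nat_lit 180243) (nat_lit 5) (.e (nat_lit 532510) (nat_lit 2) (.e (nat_lit 106539) (nat_lit 12) (.e (nat_lit 57478) (nat_lit 28) (.e (nat_lit 557093) (nat_lit 12) (.e (nat_lit 164058) (nat_lit 56) (.e (nat_lit 786455) (nat_lit 17) .nil)))))))) (.g (nat_lit 5) .nil .nil))) 
(.lf (nat_lit 218983) (.g (nat_lit 3550) (.e (nat_lit 90174) (nat_lit 14) (.e (nat_lit 180243) (nat_lit 5) (.e (nat_lit 532513) (nat_lit 3) (.e (nat_lit 114717) (nat_lit 23) (.e (nat_lit 98334) (nat_lit 18) (.e (nat_lit 164398) (nat_lit 256) (.e (nat_lit 57375) (nat_lit 2) .nil))))))) (.g (nat_lit 6) .nil .nil)))) (.nd (nat_lit 5) 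
(.lf (nat_lit 218967) (.g (nat_lit 2099) (.e (nat_lit 90174) (nat_lit 14) (.e (nat_lit 180243) (nat_lit 5) (.e (nat_lit 532513) (nat_lit 3) (.e (nat_lit 114710) (nat_lit 21) (.e (nat_lit 65280) (nat_lit 144) .nil))))) .nil)) 
(.lf (nat_lit 218999) (.g (nat_lit 1143) (.e (nat_lit 90174) (nat_lit 14) (.e (nat_lit 180243) (nat_lit 5) (.e (nat_lit 532513) (nat_lit 3) (.e (nat_lit 114719) (nat_lit 23) .nil)))) .nil)))) (.nd (nat_lit 4) (.nd (nat_lit 5) 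
(.lf (nat_lit 218959) (.g (nat_lit 3894) (.e (nat_lit 90174) (nat_lit 14) (.e (nat_lit 180243) (nat_lit 5) (.e (nat_lit 532511) (nat_lit 2) (.e (nat_lit 106539) (nat_lit 12) (.e (nat_lit 57480) (nat_lit 28) (.e (nat_lit 557091) (nat_lit 12) (.e (nat_lit 164053) (nat_lit 56) (.e (nat_lit 786455) (nat_lit 17) .nil)))))))) (.g (nat_lit 6) .nil .nil))) 
(.lf (nat_lit 218991) (.g (nat_lit 3992) (.e (nat_lit 90174) (nat_lit 14) (.e (nat_lit 180243) (nat_lit 5) (.e (nat_lit 532513) (nat_lit 3) (.e (nat_lit 114718) (nat_lit 23) (.e (nat_lit 98333) (nat_lit 18) (.e (nat_lit 164402) (nat_lit 256) (.e (nat_lit 57371) (nat_lit 2) .nil))))))) (.g (nat_lit 5) .nil .nil)))) (.nd (nat_lit 5) 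
(.lf (nat_lit 218975) (.g (nat_lit 1959) (.e (nat_lit 90174) (nat_lit 14) (.e (nat_lit 180243) (nat_lit 5) (.e (nat_lit 532513) (nat_lit 3) (.e (nat_lit 114714) (nat_lit 22) (.e (nat_lit 90198) (nat_lit 18) .nil))))) .nil)) 
(.lf (nat_lit 219007) (.g (nat_lit 3771) (.e (nat_lit 90174) (nat_lit 14) (.e (nat_lit 180243) (nat_lit 5) (.e (nat_lit 532513) (nat_lit 3) (.e (nat_lit 114719) (nat_lit 23) (.e (nat_lit 98333) (nat_lit 18) (.e (nat_lit 164399) (nat_lit 256) (.e (nat_lit 57370) (nat_lit 2) .nil))))))) (.g (nat_lit 6) .nil .nil)))))))))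

noncomputable def tv2879 : DT := (.nd (nat_lit 0) (.nd (nat_lit 1) (.nd (nat_lit 2) (.nd (nat_lit 3) (.nd (nat_lit 4) (.nd (nat_lit 5) (.nd (nat_lit 6) 
(.lf (nat_lit 219008) (.g (nat_lit 3720) (.e (nat_lit 90174) (nat_lit 14) (.e (nat_lit 180243) (nat_lit 5) (.e (nat_lit 532513) (nat_lit 3) (.e (nat_lit 114719) (nat_lit 23) (.e (nat_lit 98333) (nat_lit 18) (.e (nat_lit 164402) (nat_lit 256) (.e (nat_lit 57371) (nat_lit 2) .nil))))))) (.g (nat_lit 5) .nil .nil))) 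
(.lf (nat_lit 219072) (.g (nat_lit 1573) (.e (nat_lit 90174) (nat_lit 14) (.e (nat_lit 180250) (nat_lit 10) (.e (nat_lit 573482) (nat_lit 13) (.e (nat_lit 65575) (nat_lit 5) .nil)))) .nil))) (.nd (nat_lit 6) 
(.lf (nat_lit 219040) (.g (nat_lit 1740) (.e (nat_lit 90174) (nat_lit 14) (.e (nat_lit 180243) (nat_lit 5) (.e (nat_lit 532515) (nat_lit 3) (.e (nat_lit 114719) (nat_lit 23) (.e (nat_lit 98325) (nat_lit 17) .nil))))) .nil)) 
(.lf (nat_lit 219104) (.g (nat_lit 2572) (.e (nat_lit 90174) (nat_lit 14) (.e (nat_lit 180250) (nat_lit 10) (.e (nat_lit 573487) (nat_lit 14) (.e (nat_lit 81664) (nat_lit 5) (.e (nat_lit 532482) (nat_lit 0) (.e (nat_lit 2360) (nat_lit 152) (.e (nat_lit 786455) (nat_lit 17) .nil))))))) (.g (nat_lit 5) .nil .nil))))) (.nd (nat_lit 5) (.nd (nat_lit 6) 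
(.lf (nat_lit 219024) (.g (nat_lit 2115) (.e (nat_lit 90174) (nat_lit 14) (.e (nat_lit 180243) (nat_lit 5) (.e (nat_lit 532515) (nat_lit 3) (.e (nat_lit 114716) (nat_lit 22) (.e (nat_lit 90164) (nat_lit 12) (.e (nat_lit 164006) (nat_lit 41) (.e (nat_lit 671488) (nat_lit 0) (.e (nat_lit 1238) (nat_lit 91) .nil)))))))) (.g (nat_lit 4) .nil .nil))) 
(.lf (nat_lit 219088) (.g (nat_lit 436) (.e (nat_lit 90174) (nat_lit 14) (.e (nat_lit 180250) (nat_lit 10) (.e (nat_lit 573485) (nat_lit 13) .nil))) .nil))) (.nd (nat_lit 6) 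
(.lf (nat_lit 219056) (.g (nat_lit 1365) (.e (nat_lit 90174) (nat_lit 14) (.e (nat_lit 180250) (nat_lit 10) (.e (nat_lit 573473) (nat_lit 12) (.e (nat_lit 57354) (nat_lit 0) .nil)))) .nil)) 
(.lf (nat_lit 219120) (.g (nat_lit 2335) (.e (nat_lit 90174) (nat_lit 14) (.e (nat_lit 180250) (nat_lit 10) (.e (nat_lit 573488) (nat_lit 14) (.e (nat_lit 73731) (nat_lit 0) (.e (nat_lit 7936) (nat_lit 255) .nil))))) .nil))))) (.nd (nat_lit 4) (.nd (nat_lit 5) (.nd (nat_lit 6) 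
(.lf (nat_lit 219016) (.g (nat_lit 1365) (.e (nat_lit 90174) (nat_lit 14) (.e (nat_lit 180243) (nat_lit 5) (.e (nat_lit 532515) (nat_lit 3) (.e (nat_lit 114712) (nat_lit 21) (.e (nat_lit 65280) (nat_lit 144) .nil))))) .nil)) 
(.lf (nat_lit 219080) (.g (nat_lit 2247) (.e (nat_lit 90174) (nat_lit 14) (.e (nat_lit 180250) (nat_lit 10) (.e (nat_lit 573484) (nat_lit 13) (.e (nat_lit 65543) (nat_lit 0) .nil)))) .nil))) (.nd (nat_lit 6) 
(.lf (nat_lit 219048) (.g (nat_lit 2105) (.e (nat_lit 90174) (nat_lit 14) (.e (nat_lit 180243) (nat_lit 5) (.e (nat_lit 532515) (nat_lit 3) (.e (nat_lit 114719) (nat_lit 23) (.e (nat_lit 98334) (nat_lit 18) (.e (nat_lit 164403) (nat_lit 256) (.e (nat_lit 57370) (nat_lit 2) .nil))))))) (.g (nat_lit 4) .nil .nil))) 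
(.lf (nat_lit 219112) (.g (nat_lit 3189) (.e (nat_lit 90174) (nat_lit 14) (.e (nat_lit 180250) (nat_lit 10) (.e (nat_lit 573487) (nat_lit 14) (.e (nat_lit 73753) (nat_lit 8) (.e (nat_lit 557090) (nat_lit 12) (.e (nat_lit 164006) (nat_lit 41) (.e (nat_lit 663559) (nat_lit 0) (.e (nat_lit 1238) (nat_lit 91) .nil)))))))) (.g (nat_lit 5) .nil .nil))))) (.nd (nat_lit 5) (.nd (nat_lit 6) 
(.lf (nat_lit 219032) (.g (nat_lit 3397) (.e (nat_lit 90174) (nat_lit 14) (.e (nat_lit 180243) (nat_lit 5) (.e (nat_lit 532515) (nat_lit 3) (.e (nat_lit 114718) (nat_lit 23) (.e (nat_lit 98333) (nat_lit 18) (.e (nat_lit 164396) (nat_lit 256) (.e (nat_lit 57371) (nat_lit 2) .nil))))))) (.g (nat_lit 5) .nil .nil))) 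
(.lf (nat_lit 219096) (.g (nat_lit 1371) (.e (nat_lit 90174) (nat_lit 14) (.e (nat_lit 180250) (nat_lit 10) (.e (nat_lit 573487) (nat_lit 14) (.e (nat_lit 81664) (nat_lit 0) .nil)))) .nil))) (.nd (nat_lit 6) 
(.lf (nat_lit 219064) (.g (nat_lit 2240) (.e (nat_lit 90174) (nat_lit 14) (.e (nat_lit 180250) (nat_lit 10) (.e (nat_lit 573480) (nat_lit 13) (.e (nat_lit 65571) (nat_lit 3) (.e (nat_lit 98319) (nat_lit 17) .nil))))) .nil)) 
(.lf (nat_lit 219128) (.g (nat_lit 1752) (.e (nat_lit 90174) (nat_lit 14) (.e (nat_lit 180250) (nat_lit 10) (.e (nat_lit 573489) (nat_lit 14) (.e (nat_lit 73750) (nat_lit 6) .nil)))) .nil)))))) (.nd (nat_lit 3) (.nd (nat_lit 4) (.nd (nat_lit 5) (.nd (nat_lit 6) 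
(.lf (nat_lit 219012) (.g (nat_lit 3809) (.e (nat_lit 90174) (nat_lit 14) (.e (nat_lit 180243) (nat_lit 5) (.e (nat_lit 532513) (nat_lit 3) (.e (nat_lit 114719) (nat_lit 23) (.e (nat_lit 98334) (nat_lit 18) (.e (nat_lit 164402) (nat_lit 256) (.e (nat_lit 57373) (nat_lit 2) .nil))))))) (.g (nat_lit 5) .nil .nil))) 
(.lf (nat_lit 219076) (.g (nat_lit 1407) (.e (nat_lit 90174) (nat_lit 14) (.e (nat_lit 180250) (nat_lit 10) (.e (nat_lit 573482) (nat_lit 13) (.e (nat_lit 65644) (nat_lit 22) .nil)))) .nil))) (.nd (nat_lit 6) 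
(.lf (nat_lit 219044) (.g (nat_lit 3438) (.e (nat_lit 90174) (nat_lit 14) (.e (nat_lit 180243) (nat_lit 5) (.e (nat_lit 532515) (nat_lit 3) (.e (nat_lit 114719) (nat_lit 23) (.e (nat_lit 98333) (nat_lit 18) (.e (nat_lit 164402) (nat_lit 256) (.e (nat_lit 57371) (nat_lit 2) .nil))))))) (.g (nat_lit 5) .nil .nil))) 
(.lf (nat_lit 219108) (.g (nat_lit 2604) (.e (nat_lit 90174) (nat_lit 14) (.e (nat_lit 180250) (nat_lit 10) (.e (nat_lit 573487) (nat_lit 14) (.e (nat_lit 73753) (nat_lit 8) (.e (nat_lit 557089) (nat_lit 12) (.e (nat_lit 164006) (nat_lit 41) (.e (nat_lit 663559) (nat_lit 0) (.e (nat_lit 1238) (nat_lit 91) .nil)))))))) (.g (nat_lit 4) .nil .nil))))) (.nd (nat_lit 5) (.nd (nat_lit 6) 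
(.lf (nat_lit 219028) (.g (nat_lit 2035) (.e (nat_lit 90174) (nat_lit 14) (.e (nat_lit 180243) (nat_lit 5) (.e (nat_lit 532515) (nat_lit 3) (.e (nat_lit 114716) (nat_lit 22) (.e (nat_lit 90197) (nat_lit 18) .nil))))) .nil)) 
(.lf (nat_lit 219092) (.g (nat_lit 374) (.e (nat_lit 90174) (nat_lit 14) (.e (nat_lit 180250) (nat_lit 10) (.e (nat_lit 573487) (nat_lit 14) .nil))) .nil))) (.nd (nat_lit 6) 
(.lf (nat_lit 219060) (.g (nat_lit 2185) (.e (nat_lit 90174) (nat_lit 14) (.e (nat_lit 180250) (nat_lit 10) (.e (nat_lit 573474) (nat_lit 12) (.e (nat_lit 65280) (nat_lit 201) .nil)))) .nil)) 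
(.lf (nat_lit 219124) (.g (nat_lit 2917) (.e (nat_lit 90174) (nat_lit 14) (.e (nat_lit 180250) (nat_lit 10) (.e (nat_lit 573488) (nat_lit 14) (.e (nat_lit 73755) (nat_lit 8) (.e (nat_lit 557067) (nat_lit 9) .nil))))) .nil))))) (.nd (nat_lit 4) (.nd (nat_lit 5) (.nd (nat_lit 6) 
(.lf (nat_lit 219020) (.g (nat_lit 2035) (.e (nat_lit 90174) (nat_lit 14) (.e (nat_lit 180243) (nat_lit 5) (.e (nat_lit 532515) (nat_lit 3) (.e (nat_lit 114716) (nat_lit 22) (.e (nat_lit 90143) (nat_lit 9) .nil))))) .nil)) 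
(.lf (nat_lit 219084) (.g (nat_lit 1708) (.e (nat_lit 90174) (nat_lit 14) (.e (nat_lit 180250) (nat_lit 10) (.e (nat_lit 573484) (nat_lit 13) (.e (nat_lit 65577) (nat_lit 5) .nil)))) .nil))) (.nd (nat_lit 6) 
(.lf (nat_lit 219052) (.g (nat_lit 1313) (.e (nat_lit 90174) (nat_lit 14) (.e (nat_lit 180243) (nat_lit 5) (.e (nat_lit 532575) (nat_lit 17) (.e (nat_lit 7096) (nat_lit 380) (.e (nat_lit 171776) (nat_lit 86) .nil))))) .nil)) 
(.lf (nat_lit 219116) (.g (nat_lit 3439) (.e (nat_lit 90174) (nat_lit 14) (.e (nat_lit 180250) (nat_lit 10) (.e (nat_lit 573487) (nat_lit 14) (.e (nat_lit 73753) (nat_lit 8) (.e (nat_lit 557091) (nat_lit 12) (.e (nat_lit 164005) (nat_lit 41) (.e (nat_lit 671488) (nat_lit 0) (.e (nat_lit 1238) (nat_lit 91) .nil)))))))) (.g (nat_lit 5) .nil .nil))))) (.nd (nat_lit 5) (.nd (nat_lit 6) 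
(.lf (nat_lit 219036) (.g (nat_lit 3155) (.e (nat_lit 90174) (nat_lit 14) (.e (nat_lit 180243) (nat_lit 5) (.e (nat_lit 532515) (nat_lit 3) (.e (nat_lit 114718) (nat_lit 23) (.e (nat_lit 98334) (nat_lit 18) (.e (nat_lit 164402) (nat_lit 256) (.e (nat_lit 57373) (nat_lit 2) .nil))))))) (.g (nat_lit 5) .nil .nil))) 
(.lf (nat_lit 219100) (.g (nat_lit 2644) (.e (nat_lit 90174) (nat_lit 14) (.e (nat_lit 180250) (nat_lit 10) (.e (nat_lit 573487) (nat_lit 14) (.e (nat_lit 73746) (nat_lit 3) (.e (nat_lit 516100) (nat_lit 0) .nil))))) .nil))) (.nd (nat_lit 6) 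
(.lf (nat_lit 219068) (.g (nat_lit 2005) (.e (nat_lit 90174) (nat_lit 14) (.e (nat_lit 180250) (nat_lit 10) (.e (nat_lit 573481) (nat_lit 13) (.e (nat_lit 65568) (nat_lit 2) (.e (nat_lit 98048) (nat_lit 0) .nil))))) .nil)) 
(.lf (nat_lit 219132) (.g (nat_lit 2272) (.e (nat_lit 90174) (nat_lit 14) (.e (nat_lit 180250) (nat_lit 10) (.e (nat_lit 573489) (nat_lit 14) (.e (nat_lit 73755) (nat_lit 8) (.e (nat_lit 557065) (nat_lit 9) .nil))))) .nil))))))) (.nd (nat_lit 2) (.nd (nat_lit 3) (.nd (nat_lit 4) (.nd (nat_lit 5) (.nd (nat_lit 6) 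
(.lf (nat_lit 219010) (.g (nat_lit 2829) (.e (nat_lit 90174) (nat_lit 14) (.e (nat_lit 180243) (nat_lit 5) (.e (nat_lit 532513) (nat_lit 3) (.e (nat_lit 114719) (nat_lit 23) (.e (nat_lit 98334) (nat_lit 18) (.e (nat_lit 164399) (nat_lit 256) (.e (nat_lit 57374) (nat_lit 2) .nil))))))) (.g (nat_lit 4) .nil .nil))) 
(.lf (nat_lit 219074) (.g (nat_lit 2001) (.e (nat_lit 90174) (nat_lit 14) (.e (nat_lit 180250) (nat_lit 10) (.e (nat_lit 573482) (nat_lit 13) (.e (nat_lit 65637) (nat_lit 15) (.e (nat_lit 7936) (nat_lit 195) .nil))))) .nil))) (.nd (nat_lit 6) 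
(.lf (nat_lit 219042) (.g (nat_lit 2223) (.e (nat_lit 90174) (nat_lit 14) (.e (nat_lit 180243) (nat_lit 5) (.e (nat_lit 532515) (nat_lit 3) (.e (nat_lit 114719) (nat_lit 23) (.e (nat_lit 98332) (nat_lit 18) (.e (nat_lit 164399) (nat_lit 256) (.e (nat_lit 57370) (nat_lit 2) .nil))))))) (.g (nat_lit 4) .nil .nil))) 
(.lf (nat_lit 219106) (.g (nat_lit 1197) (.e (nat_lit 90174) (nat_lit 14) (.e (nat_lit 180250) (nat_lit 10) (.e (nat_lit 573487) (nat_lit 14) (.e (nat_lit 73753) (nat_lit 8) .nil)))) .nil)))) (.nd (nat_lit 5) (.nd (nat_lit 6) 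
(.lf (nat_lit 219026) (.g (nat_lit 2035) (.e (nat_lit 90174) (nat_lit 14) (.e (nat_lit 180243) (nat_lit 5) (.e (nat_lit 532515) (nat_lit 3) (.e (nat_lit 114716) (nat_lit 22) (.e (nat_lit 90182) (nat_lit 16) .nil))))) .nil)) 
(.lf (nat_lit 219090) (.g (nat_lit 2505) (.e (nat_lit 90174) (nat_lit 14) (.e (nat_lit 180250) (nat_lit 10) (.e (nat_lit 573485) (nat_lit 13) (.e (nat_lit 65571) (nat_lit 3) (.e (nat_lit 98319) (nat_lit 17) .nil))))) .nil))) (.nd (nat_lit 6) 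
(.lf (nat_lit 219058) (.g (nat_lit 2131) (.e (nat_lit 90174) (nat_lit 14) (.e (nat_lit 180250) (nat_lit 10) (.e (nat_lit 573474) (nat_lit 12) (.e (nat_lit 57516) (nat_lit 42) .nil)))) .nil)) 
(.lf (nat_lit 219122) (.g (nat_lit 1534) (.e (nat_lit 90174) (nat_lit 14) (.e (nat_lit 180250) (nat_lit 10) (.e (nat_lit 573488) (nat_lit 14) (.e (nat_lit 81664) (nat_lit 5) .nil)))) .nil))))) (.nd (nat_lit 4) (.nd (nat_lit 5) (.nd (nat_lit 6) 
(.lf (nat_lit 219018) (.g (nat_lit 855) (.e (nat_lit 90174) (nat_lit 14) (.e (nat_lit 180243) (nat_lit 5) (.e (nat_lit 532515) (nat_lit 3) (.e (nat_lit 114716) (nat_lit 22) .nil)))) .nil)) 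
(.lf (nat_lit 219082) (.g (nat_lit 1918) (.e (nat_lit 90174) (nat_lit 14) (.e (nat_lit 180250) (nat_lit 10) (.e (nat_lit 573484) (nat_lit 13) (.e (nat_lit 65569) (nat_lit 3) .nil)))) .nil))) (.nd (nat_lit 6) 
(.lf (nat_lit 219050) (.g (nat_lit 3148) (.e (nat_lit 90174) (nat_lit 14) (.e (nat_lit 180243) (nat_lit 5) (.e (nat_lit 532515) (nat_lit 3) (.e (nat_lit 114719) (nat_lit 23) (.e (nat_lit 98335) (nat_lit 18) (.e (nat_lit 164403) (nat_lit 256) (.e (nat_lit 57370) (nat_lit 2) .nil))))))) (.g (nat_lit 5) .nil .nil))) 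
(.lf (nat_lit 219114) (.g (nat_lit 4053) (.e (nat_lit 90174) (nat_lit 14) (.e (nat_lit 180250) (nat_lit 10) (.e (nat_lit 573487) (nat_lit 14) (.e (nat_lit 73753) (nat_lit 8) (.e (nat_lit 557090) (nat_lit 12) (.e (nat_lit 164006) (nat_lit 41) (.e (nat_lit 671488) (nat_lit 0) (.e (nat_lit 1238) (nat_lit 91) .nil)))))))) (.g (nat_lit 6) .nil .nil))))) (.nd (nat_lit 5) (.nd (nat_lit 6) 
(.lf (nat_lit 219034) (.g (nat_lit 2995) (.e (nat_lit 90174) (nat_lit 14) (.e (nat_lit 180243) (nat_lit 5) (.e (nat_lit 532515) (nat_lit 3) (.e (nat_lit 114718) (nat_lit 23) (.e (nat_lit 98334) (nat_lit 18) (.e (nat_lit 164399) (nat_lit 256) (.e (nat_lit 57370) (nat_lit 2) .nil))))))) (.g (nat_lit 5) .nil .nil))) 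
(.lf (nat_lit 219098) (.g (nat_lit 1769) (.e (nat_lit 90174) (nat_lit 14) (.e (nat_lit 180250) (nat_lit 10) (.e (nat_lit 573487) (nat_lit 14) (.e (nat_lit 73745) (nat_lit 3) .nil)))) .nil))) (.nd (nat_lit 6) 
(.lf (nat_lit 219066) (.g (nat_lit 1032) (.e (nat_lit 90174) (nat_lit 14) (.e (nat_lit 180250) (nat_lit 10) (.e (nat_lit 573480) (nat_lit 13) (.e (nat_lit 73472) (nat_lit 18) .nil)))) .nil)) 
(.lf (nat_lit 219130) (.g (nat_lit 2811) (.e (nat_lit 90174) (nat_lit 14) (.e (nat_lit 180250) (nat_lit 10) (.e (nat_lit 573489) (nat_lit 14) (.e (nat_lit 73754) (nat_lit 8) (.e (nat_lit 557093) (nat_lit 12) (.e (nat_lit 164010) (nat_lit 41) (.e (nat_lit 671488) (nat_lit 0) (.e (nat_lit 1238) (nat_lit 91) .nil)))))))) (.g (nat_lit 4) .nil .nil))))))) 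
(.nd (nat_lit 3) (.nd (nat_lit 4) (.nd (nat_lit 5) (.nd (nat_lit 6) 
(.lf (nat_lit 219014) (.g (nat_lit 536) (.e (nat_lit 90174) (nat_lit 14) (.e (nat_lit 180243) (nat_lit 5) (.e (nat_lit 532514) (nat_lit 3) .nil))) .nil)) 
(.lf (nat_lit 219078) (.g (nat_lit 1521) (.e (nat_lit 90174) (nat_lit 14) (.e (nat_lit 180250) (nat_lit 10) (.e (nat_lit 573482) (nat_lit 13) (.e (nat_lit 73472) (nat_lit 22) .nil)))) .nil))) (.nd (nat_lit 6) 
(.lf (nat_lit 219046) (.g (nat_lit 2383) (.e (nat_lit 90174) (nat_lit 14) (.e (nat_lit 180243) (nat_lit 5) (.e (nat_lit 532515) (nat_lit 3) (.e (nat_lit 114719) (nat_lit 23) (.e (nat_lit 98334) (nat_lit 18) (.e (nat_lit 164399) (nat_lit 256) (.e (nat_lit 57374) (nat_lit 2) .nil))))))) (.g (nat_lit 4) .nil .nil))) 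
(.lf (nat_lit 219110) (.g (nat_lit 3657) (.e (nat_lit 90174) (nat_lit 14) (.e (nat_lit 180250) (nat_lit 10) (.e (nat_lit 573487) (nat_lit 14) (.e (nat_lit 73753) (nat_lit 8) (.e (nat_lit 557089) (nat_lit 12) (.e (nat_lit 164007) (nat_lit 41) (.e (nat_lit 671488) (nat_lit 0) (.e (nat_lit 1238) (nat_lit 91) .nil)))))))) (.g (nat_lit 5) .nil .nil))))) (.nd (nat_lit 5) (.nd (nat_lit 6) 
(.lf (nat_lit 219030) (.g (nat_lit 2320) (.e (nat_lit 90174) (nat_lit 14) (.e (nat_lit 180243) (nat_lit 5) (.e (nat_lit 532515) (nat_lit 3) (.e (nat_lit 114716) (nat_lit 22) (.e (nat_lit 90200) (nat_lit 18) (.e (nat_lit 2505) (nat_lit 157) (.e (nat_lit 5629) (nat_lit 312) (.e (nat_lit 100) (nat_lit 2) .nil)))))))) (.g (nat_lit 4) .nil .nil))) 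
(.lf (nat_lit 219094) (.g (nat_lit 1559) (.e (nat_lit 90174) (nat_lit 14) (.e (nat_lit 180250) (nat_lit 10) (.e (nat_lit 573487) (nat_lit 14) (.e (nat_lit 73729) (nat_lit 0) .nil)))) .nil))) (.nd (nat_lit 6) 
(.lf (nat_lit 219062) (.g (nat_lit 2382) (.e (nat_lit 90174) (nat_lit 14) (.e (nat_lit 180250) (nat_lit 10) (.e (nat_lit 573477) (nat_lit 12) (.e (nat_lit 57750) (nat_lit 201) (.e (nat_lit 7936) (nat_lit 3) (.e (nat_lit 98358) (nat_lit 26) (.e (nat_lit 426428) (nat_lit 17) .nil))))))) (.g (nat_lit 4) .nil .nil))) 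
(.lf (nat_lit 219126) (.g (nat_lit 1544) (.e (nat_lit 90174) (nat_lit 14) (.e (nat_lit 180250) (nat_lit 10) (.e (nat_lit 573489) (nat_lit 14) (.e (nat_lit 73728) (nat_lit 0) .nil)))) .nil))))) (.nd (nat_lit 4) (.nd (nat_lit 5) (.nd (nat_lit 6) 
(.lf (nat_lit 219022) (.g (nat_lit 1495) (.e (nat_lit 90174) (nat_lit 14) (.e (nat_lit 180243) (nat_lit 5) (.e (nat_lit 532515) (nat_lit 3) (.e (nat_lit 114716) (nat_lit 22) (.e (nat_lit 90163) (nat_lit 12) .nil))))) .nil)) 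
(.lf (nat_lit 219086) (.g (nat_lit 2004) (.e (nat_lit 90174) (nat_lit 14) (.e (nat_lit 180250) (nat_lit 10) (.e (nat_lit 573484) (nat_lit 13) (.e (nat_lit 73472) (nat_lit 17) .nil)))) .nil))) (.nd (nat_lit 6) 
(.lf (nat_lit 219054) (.g (nat_lit 3321) (.e (nat_lit 90174) (nat_lit 14) (.e (nat_lit 180250) (nat_lit 10) (.e (nat_lit 573449) (nat_lit 9) (.e (nat_lit 1183) (nat_lit 87) (.e (nat_lit 57848) (nat_lit 252) (.e (nat_lit 57374) (nat_lit 2) (.e (nat_lit 90165) (nat_lit 12) (.e (nat_lit 171776) (nat_lit 48) (.e (nat_lit 720941) (nat_lit 22) .nil))))))))) (.g (nat_lit 4) .nil .nil))) 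
(.lf (nat_lit 219118) (.g (nat_lit 2368) (.e (nat_lit 90174) (nat_lit 14) (.e (nat_lit 180250) (nat_lit 10) (.e (nat_lit 573487) (nat_lit 14) (.e (nat_lit 73753) (nat_lit 8) (.e (nat_lit 564992) (nat_lit 21) (.e (nat_lit 164358) (nat_lit 246) (.e (nat_lit 100) (nat_lit 2) .nil))))))) (.g (nat_lit 4) .nil .nil))))) (.nd (nat_lit 5) (.nd (nat_lit 6) 
(.lf (nat_lit 219038) (.g (nat_lit 2727) (.e (nat_lit 90174) (nat_lit 14) (.e (nat_lit 180243) (nat_lit 5) (.e (nat_lit 532515) (nat_lit 3) (.e (nat_lit 114718) (nat_lit 23) (.e (nat_lit 98335) (nat_lit 18) (.e (nat_lit 164403) (nat_lit 256) (.e (nat_lit 57370) (nat_lit 2) .nil))))))) (.g (nat_lit 4) .nil .nil))) 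
(.lf (nat_lit 219102) (.g (nat_lit 1371) (.e (nat_lit 90174) (nat_lit 14) (.e (nat_lit 180250) (nat_lit 10) (.e (nat_lit 573487) (nat_lit 14) (.e (nat_lit 81664) (nat_lit 5) .nil)))) .nil))) (.nd (nat_lit 6) 
(.lf (nat_lit 219070) (.g (nat_lit 2485) (.e (nat_lit 90174) (nat_lit 14) (.e (nat_lit 180250) (nat_lit 10) (.e (nat_lit 573482) (nat_lit 13) (.e (nat_lit 65568) (nat_lit 2) (.e (nat_lit 98048) (nat_lit 2) (.e (nat_lit 24320) (nat_lit 17) .nil)))))) (.g (nat_lit 4) .nil .nil))) 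
(.lf (nat_lit 219134) (.g (nat_lit 2698) (.e (nat_lit 90174) (nat_lit 14) (.e (nat_lit 180250) (nat_lit 10) (.e (nat_lit 573489) (nat_lit 14) (.e (nat_lit 73755) (nat_lit 8) (.e (nat_lit 557068) (nat_lit 9) .nil))))) .nil)))))))) (.nd (nat_lit 1) (.nd (nat_lit 2) (.nd (nat_lit 3) (.nd (nat_lit 4) (.nd (nat_lit 5) (.nd (nat_lit 6) 
(.lf (nat_lit 219009) (.g (nat_lit 3640) (.e (nat_lit 90174) (nat_lit 14) (.e (nat_lit 180243) (nat_lit 5) (.e (nat_lit 532513) (nat_lit 3) (.e (nat_lit 114719) (nat_lit 23) (.e (nat_lit 98334) (nat_lit 18) (.e (nat_lit 164399) (nat_lit 256) (.e (nat_lit 57370) (nat_lit 2) .nil))))))) (.g (nat_lit 5) .nil .nil))) 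
(.lf (nat_lit 219073) (.g (nat_lit 1649) (.e (nat_lit 90174) (nat_lit 14) (.e (nat_lit 180250) (nat_lit 10) (.e (nat_lit 573482) (nat_lit 13) (.e (nat_lit 65577) (nat_lit 5) .nil)))) .nil))) (.nd (nat_lit 6) 
(.lf (nat_lit 219041) (.g (nat_lit 2219) (.e (nat_lit 90174) (nat_lit 14) (.e (nat_lit 180243) (nat_lit 5) (.e (nat_lit 532515) (nat_lit 3) (.e (nat_lit 114719) (nat_lit 23) (.e (nat_lit 98331) (nat_lit 17) .nil))))) .nil)) 
(.lf (nat_lit 219105) (.g (nat_lit 1699) (.e (nat_lit 90174) (nat_lit 14) (.e (nat_lit 180250) (nat_lit 10) (.e (nat_lit 573487) (nat_lit 14) (.e (nat_lit 73750) (nat_lit 6) .nil)))) .nil)))) (.nd (nat_lit 5) (.nd (nat_lit 6) 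
(.lf (nat_lit 219025) (.g (nat_lit 1446) (.e (nat_lit 90174) (nat_lit 14) (.e (nat_lit 180243) (nat_lit 5) (.e (nat_lit 532515) (nat_lit 3) (.e (nat_lit 114716) (nat_lit 22) (.e (nat_lit 90181) (nat_lit 16) .nil))))) .nil)) 
(.lf (nat_lit 219089) (.g (nat_lit 1875) (.e (nat_lit 90174) (nat_lit 14) (.e (nat_lit 180250) (nat_lit 10) (.e (nat_lit 573485) (nat_lit 13) (.e (nat_lit 65568) (nat_lit 2) (.e (nat_lit 90165) (nat_lit 12) .nil))))) .nil))) (.nd (nat_lit 6) 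
(.lf (nat_lit 219057) (.g (nat_lit 2464) (.e (nat_lit 90174) (nat_lit 14) (.e (nat_lit 180250) (nat_lit 10) (.e (nat_lit 573474) (nat_lit 12) (.e (nat_lit 57354) (nat_lit 0) .nil)))) .nil)) 
(.lf (nat_lit 219121) (.g (nat_lit 2526) (.e (nat_lit 90174) (nat_lit 14) (.e (nat_lit 180250) (nat_lit 10) (.e (nat_lit 573488) (nat_lit 14) (.e (nat_lit 73747) (nat_lit 3) (.e (nat_lit 516115) (nat_lit 1) .nil))))) .nil))))) (.nd (nat_lit 4) (.nd (nat_lit 5) (.nd (nat_lit 6) 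
(.lf (nat_lit 219017) (.g (nat_lit 851) (.e (nat_lit 90174) (nat_lit 14) (.e (nat_lit 180243) (nat_lit 5) (.e (nat_lit 532515) (nat_lit 3) (.e (nat_lit 114715) (nat_lit 22) .nil)))) .nil)) 
(.lf (nat_lit 219081) (.g (nat_lit 2073) (.e (nat_lit 90174) (nat_lit 14) (.e (nat_lit 180250) (nat_lit 10) (.e (nat_lit 573484) (nat_lit 13) (.e (nat_lit 65566) (nat_lit 2) .nil)))) .nil))) (.nd (nat_lit 6) 
(.lf (nat_lit 219049) (.g (nat_lit 5205) (.e (nat_lit 90174) (nat_lit 14) (.e (nat_lit 180243) (nat_lit 5) (.e (nat_lit 532515) (nat_lit 3) (.e (nat_lit 114719) (nat_lit 23) (.e (nat_lit 98334) (nat_lit 18) (.e (nat_lit 164403) (nat_lit 256) (.e (nat_lit 57373) (nat_lit 2) .nil))))))) (.g (nat_lit 0) .nil .nil))) 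
(.lf (nat_lit 219113) (.g (nat_lit 3165) (.e (nat_lit 90174) (nat_lit 14) (.e (nat_lit 180250) (nat_lit 10) (.e (nat_lit 573487) (nat_lit 14) (.e (nat_lit 73753) (nat_lit 8) (.e (nat_lit 557090) (nat_lit 12) (.e (nat_lit 164006) (nat_lit 41) (.e (nat_lit 671488) (nat_lit 0) (.e (nat_lit 1228) (nat_lit 91) .nil)))))))) (.g (nat_lit 5) .nil .nil))))) (.nd (nat_lit 5) (.nd (nat_lit 6) 
(.lf (nat_lit 219033) (.g (nat_lit 3167) (.e (nat_lit 90174) (nat_lit 14) (.e (nat_lit 180243) (nat_lit 5) (.e (nat_lit 532515) (nat_lit 3) (.e (nat_lit 114718) (nat_lit 23) (.e (nat_lit 98333) (nat_lit 18) (.e (nat_lit 164402) (nat_lit 256) (.e (nat_lit 57371) (nat_lit 2) .nil))))))) (.g (nat_lit 5) .nil .nil))) 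
(.lf (nat_lit 219097) (.g (nat_lit 1772) (.e (nat_lit 90174) (nat_lit 14) (.e (nat_lit 180250) (nat_lit 10) (.e (nat_lit 573487) (nat_lit 14) (.e (nat_lit 73739) (nat_lit 1) .nil)))) .nil))) (.nd (nat_lit 6) 
(.lf (nat_lit 219065) (.g (nat_lit 1041) (.e (nat_lit 90174) (nat_lit 14) (.e (nat_lit 180250) (nat_lit 10) (.e (nat_lit 573480) (nat_lit 13) (.e (nat_lit 65577) (nat_lit 5) .nil)))) .nil)) 
(.lf (nat_lit 219129) (.g (nat_lit 1393) (.e (nat_lit 90174) (nat_lit 14) (.e (nat_lit 180250) (nat_lit 10) (.e (nat_lit 573489) (nat_lit 14) (.e (nat_lit 73754) (nat_lit 8) .nil)))) .nil)))))) (.nd (nat_lit 3) (.nd (nat_lit 4) (.nd (nat_lit 5) (.nd (nat_lit 6) 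
(.lf (nat_lit 219013) (.g (nat_lit 3008) (.e (nat_lit 90174) (nat_lit 14) (.e (nat_lit 180243) (nat_lit 5) (.e (nat_lit 532513) (nat_lit 3) (.e (nat_lit 114719) (nat_lit 23) (.e (nat_lit 98343) (nat_lit 21) (.e (nat_lit 229707) (nat_lit 256) (.e (nat_lit 57371) (nat_lit 2) .nil))))))) (.g (nat_lit 4) .nil .nil))) 
(.lf (nat_lit 219077) (.g (nat_lit 1810) (.e (nat_lit 90174) (nat_lit 14) (.e (nat_lit 180250) (nat_lit 10) (.e (nat_lit 573482) (nat_lit 13) (.e (nat_lit 65644) (nat_lit 22) (.e (nat_lit 245776) (nat_lit 4) .nil))))) .nil))) (.nd (nat_lit 6) 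
(.lf (nat_lit 219045) (.g (nat_lit 3194) (.e (nat_lit 90174) (nat_lit 14) (.e (nat_lit 180243) (nat_lit 5) (.e (nat_lit 532515) (nat_lit 3) (.e (nat_lit 114719) (nat_lit 23) (.e (nat_lit 98334) (nat_lit 18) (.e (nat_lit 164399) (nat_lit 256) (.e (nat_lit 57370) (nat_lit 2) .nil))))))) (.g (nat_lit 5) .nil .nil))) 
(.lf (nat_lit 219109) (.g (nat_lit 2837) (.e (nat_lit 90174) (nat_lit 14) (.e (nat_lit 180250) (nat_lit 10) (.e (nat_lit 573487) (nat_lit 14) (.e (nat_lit 73753) (nat_lit 8) (.e (nat_lit 557089) (nat_lit 12) (.e (nat_lit 164006) (nat_lit 41) (.e (nat_lit 671488) (nat_lit 0) (.e (nat_lit 1228) (nat_lit 91) .nil)))))))) (.g (nat_lit 4) .nil .nil))))) (.nd (nat_lit 5) (.nd (nat_lit 6) 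
(.lf (nat_lit 219029) (.g (nat_lit 2035) (.e (nat_lit 90174) (nat_lit 14) (.e (nat_lit 180243) (nat_lit 5) (.e (nat_lit 532515) (nat_lit 3) (.e (nat_lit 114716) (nat_lit 22) (.e (nat_lit 90198) (nat_lit 18) .nil))))) .nil)) 
(.lf (nat_lit 219093) (.g (nat_lit 1769) (.e (nat_lit 90174) (nat_lit 14) (.e (nat_lit 180250) (nat_lit 10) (.e (nat_lit 573487) (nat_lit 14) (.e (nat_lit 73728) (nat_lit 0) .nil)))) .nil))) (.nd (nat_lit 6) 
(.lf (nat_lit 219061) (.g (nat_lit 2185) (.e (nat_lit 90174) (nat_lit 14) (.e (nat_lit 180250) (nat_lit 10) (.e (nat_lit 573474) (nat_lit 12) (.e (nat_lit 65280) (nat_lit 202) .nil)))) .nil)) 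
(.lf (nat_lit 219125) (.g (nat_lit 2975) (.e (nat_lit 90174) (nat_lit 14) (.e (nat_lit 180250) (nat_lit 10) (.e (nat_lit 573488) (nat_lit 14) (.e (nat_lit 73755) (nat_lit 8) (.e (nat_lit 557090) (nat_lit 12) .nil))))) .nil))))) (.nd (nat_lit 4) (.nd (nat_lit 5) (.nd (nat_lit 6) 
(.lf (nat_lit 219021) (.g (nat_lit 1431) (.e (nat_lit 90174) (nat_lit 14) (.e (nat_lit 180243) (nat_lit 5) (.e (nat_lit 532515) (nat_lit 3) (.e (nat_lit 114716) (nat_lit 22) (.e (nat_lit 90162) (nat_lit 12) .nil))))) .nil)) 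
(.lf (nat_lit 219085) (.g (nat_lit 2205) (.e (nat_lit 90174) (nat_lit 14) (.e (nat_lit 180250) (nat_lit 10) (.e (nat_lit 573484) (nat_lit 13) (.e (nat_lit 65642) (nat_lit 15) (.e (nat_lit 7936) (nat_lit 195) .nil))))) .nil))) (.nd (nat_lit 6) 
(.lf (nat_lit 219053) (.g (nat_lit 2381) (.e (nat_lit 90174) (nat_lit 14) (.e (nat_lit 180245) (nat_lit 5) (.e (nat_lit 532515) (nat_lit 3) (.e (nat_lit 114719) (nat_lit 23) (.e (nat_lit 98334) (nat_lit 18) (.e (nat_lit 164396) (nat_lit 256) (.e (nat_lit 57371) (nat_lit 2) .nil))))))) (.g (nat_lit 4) .nil .nil))) 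
(.lf (nat_lit 219117) (.g (nat_lit 2679) (.e (nat_lit 90174) (nat_lit 14) (.e (nat_lit 180250) (nat_lit 10) (.e (nat_lit 573487) (nat_lit 14) (.e (nat_lit 73753) (nat_lit 8) (.e (nat_lit 557091) (nat_lit 12) (.e (nat_lit 164007) (nat_lit 41) (.e (nat_lit 663560) (nat_lit 0) (.e (nat_lit 1238) (nat_lit 91) .nil)))))))) (.g (nat_lit 4) .nil .nil))))) (.nd (nat_lit 5) (.nd (nat_lit 6) 
(.lf (nat_lit 219037) (.g (nat_lit 5036) (.e (nat_lit 90174) (nat_lit 14) (.e (nat_lit 180243) (nat_lit 5) (.e (nat_lit 532515) (nat_lit 3) (.e (nat_lit 114718) (nat_lit 23) (.e (nat_lit 98334) (nat_lit 18) (.e (nat_lit 164403) (nat_lit 256) (.e (nat_lit 57373) (nat_lit 2) .nil))))))) (.g (nat_lit 0) .nil .nil))) 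
(.lf (nat_lit 219101) (.g (nat_lit 1120) (.e (nat_lit 90174) (nat_lit 14) (.e (nat_lit 180250) (nat_lit 10) (.e (nat_lit 573487) (nat_lit 14) (.e (nat_lit 73747) (nat_lit 3) .nil)))) .nil))) (.nd (nat_lit 6) 
(.lf (nat_lit 219069) (.g (nat_lit 2343) (.e (nat_lit 90174) (nat_lit 14) (.e (nat_lit 180250) (nat_lit 10) (.e (nat_lit 573482) (nat_lit 13) (.e (nat_lit 65568) (nat_lit 2) (.e (nat_lit 98048) (nat_lit 0) .nil))))) .nil)) 
(.lf (nat_lit 219133) (.g (nat_lit 2050) (.e (nat_lit 90174) (nat_lit 14) (.e (nat_lit 180250) (nat_lit 10) (.e (nat_lit 573489) (nat_lit 14) (.e (nat_lit 73755) (nat_lit 8) (.e (nat_lit 557067) (nat_lit 9) .nil))))) .nil))))))) (.nd (nat_lit 2) (.nd (nat_lit 3) (.nd (nat_lit 4) (.nd (nat_lit 5) (.nd (nat_lit 6) 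
(.lf (nat_lit 219011) (.g (nat_lit 4090) (.e (nat_lit 90174) (nat_lit 14) (.e (nat_lit 180243) (nat_lit 5) (.e (nat_lit 532513) (nat_lit 3) (.e (nat_lit 114719) (nat_lit 23) (.e (nat_lit 98334) (nat_lit 18) (.e (nat_lit 164402) (nat_lit 256) (.e (nat_lit 57371) (nat_lit 2) .nil))))))) (.g (nat_lit 5) .nil .nil))) 
(.lf (nat_lit 219075) (.g (nat_lit 1521) (.e (nat_lit 90174) (nat_lit 14) (.e (nat_lit 180250) (nat_lit 10) (.e (nat_lit 573482) (nat_lit 13) (.e (nat_lit 73472) (nat_lit 18) .nil)))) .nil))) (.nd (nat_lit 6) 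
(.lf (nat_lit 219043) (.g (nat_lit 3435) (.e (nat_lit 90174) (nat_lit 14) (.e (nat_lit 180243) (nat_lit 5) (.e (nat_lit 532515) (nat_lit 3) (.e (nat_lit 114719) (nat_lit 23) (.e (nat_lit 98333) (nat_lit 18) (.e (nat_lit 164399) (nat_lit 256) (.e (nat_lit 57370) (nat_lit 2) .nil))))))) (.g (nat_lit 6) .nil .nil))) 
(.lf (nat_lit 219107) (.g (nat_lit 2035) (.e (nat_lit 90174) (nat_lit 14) (.e (nat_lit 180250) (nat_lit 10) (.e (nat_lit 573487) (nat_lit 14) (.e (nat_lit 73753) (nat_lit 8) (.e (nat_lit 557089) (nat_lit 12) .nil))))) .nil)))) (.nd (nat_lit 5) (.nd (nat_lit 6) 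
(.lf (nat_lit 219027) (.g (nat_lit 1477) (.e (nat_lit 90174) (nat_lit 14) (.e (nat_lit 180243) (nat_lit 5) (.e (nat_lit 532515) (nat_lit 3) (.e (nat_lit 114716) (nat_lit 22) (.e (nat_lit 90196) (nat_lit 18) .nil))))) .nil)) 
(.lf (nat_lit 219091) (.g (nat_lit 1406) (.e (nat_lit 90174) (nat_lit 14) (.e (nat_lit 180250) (nat_lit 10) (.e (nat_lit 573485) (nat_lit 13) (.e (nat_lit 65577) (nat_lit 5) (.e (nat_lit 139265) (nat_lit 0) .nil))))) .nil))) (.nd (nat_lit 6) 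
(.lf (nat_lit 219059) (.g (nat_lit 2524) (.e (nat_lit 90174) (nat_lit 14) (.e (nat_lit 180250) (nat_lit 10) (.e (nat_lit 573474) (nat_lit 12) (.e (nat_lit 57750) (nat_lit 201) .nil)))) .nil)) 
(.lf (nat_lit 219123) (.g (nat_lit 1822) (.e (nat_lit 90174) (nat_lit 14) (.e (nat_lit 180250) (nat_lit 10) (.e (nat_lit 573488) (nat_lit 14) (.e (nat_lit 73755) (nat_lit 8) .nil)))) .nil))))) (.nd (nat_lit 4) (.nd (nat_lit 5) (.nd (nat_lit 6) 
(.lf (nat_lit 219019) (.g (nat_lit 1708) (.e (nat_lit 90174) (nat_lit 14) (.e (nat_lit 180243) (nat_lit 5) (.e (nat_lit 532515) (nat_lit 3) (.e (nat_lit 114716) (nat_lit 22) (.e (nat_lit 90133) (nat_lit 9) .nil))))) .nil)) 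
(.lf (nat_lit 219083) (.g (nat_lit 2265) (.e (nat_lit 90174) (nat_lit 14) (.e (nat_lit 180250) (nat_lit 10) (.e (nat_lit 573484) (nat_lit 13) (.e (nat_lit 65575) (nat_lit 5) .nil)))) .nil))) (.nd (nat_lit 6) 
(.lf (nat_lit 219051) (.g (nat_lit 2887) (.e (nat_lit 90174) (nat_lit 14) (.e (nat_lit 180243) (nat_lit 5) (.e (nat_lit 532515) (nat_lit 3) (.e (nat_lit 114719) (nat_lit 23) (.e (nat_lit 98344) (nat_lit 21) (.e (nat_lit 229707) (nat_lit 256) (.e (nat_lit 57371) (nat_lit 2) .nil))))))) (.g (nat_lit 4) .nil .nil))) 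
(.lf (nat_lit 219115) (.g (nat_lit 3359) (.e (nat_lit 90174) (nat_lit 14) (.e (nat_lit 180250) (nat_lit 10) (.e (nat_lit 573487) (nat_lit 14) (.e (nat_lit 73753) (nat_lit 8) (.e (nat_lit 557090) (nat_lit 12) (.e (nat_lit 164007) (nat_lit 41) (.e (nat_lit 663559) (nat_lit 0) (.e (nat_lit 1234) (nat_lit 91) .nil)))))))) (.g (nat_lit 5) .nil .nil))))) (.nd (nat_lit 5) (.nd (nat_lit 6) 
(.lf (nat_lit 219035) (.g (nat_lit 3454) (.e (nat_lit 90174) (nat_lit 14) (.e (nat_lit 180243) (nat_lit 5) (.e (nat_lit 532515) (nat_lit 3) (.e (nat_lit 114718) (nat_lit 23) (.e (nat_lit 98334) (nat_lit 18) (.e (nat_lit 164402) (nat_lit 256) (.e (nat_lit 57371) (nat_lit 2) .nil))))))) (.g (nat_lit 5) .nil .nil))) 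
(.lf (nat_lit 219099) (.g (nat_lit 1486) (.e (nat_lit 90174) (nat_lit 14) (.e (nat_lit 180250) (nat_lit 10) (.e (nat_lit 573487) (nat_lit 14) (.e (nat_lit 73746) (nat_lit 3) .nil)))) .nil))) (.nd (nat_lit 6) 
(.lf (nat_lit 219067) (.g (nat_lit 667) (.e (nat_lit 90174) (nat_lit 14) (.e (nat_lit 180250) (nat_lit 10) (.e (nat_lit 573481) (nat_lit 13) .nil))) .nil)) 
(.lf (nat_lit 219131) (.g (nat_lit 959) (.e (nat_lit 90174) (nat_lit 14) (.e (nat_lit 180250) (nat_lit 10) (.e (nat_lit 573489) (nat_lit 14) (.e (nat_lit 73755) (nat_lit 8) .nil)))) .nil)))))) (.nd (nat_lit 3) (.nd (nat_lit 4) (.nd (nat_lit 5) (.nd (nat_lit 6) 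
(.lf (nat_lit 219015) (.g (nat_lit 412) (.e (nat_lit 90174) (nat_lit 14) (.e (nat_lit 180243) (nat_lit 5) (.e (nat_lit 532515) (nat_lit 3) .nil))) .nil)) 
(.lf (nat_lit 219079) (.g (nat_lit 2309) (.e (nat_lit 90174) (nat_lit 14) (.e (nat_lit 180250) (nat_lit 10) (.e (nat_lit 573484) (nat_lit 13) (.e (nat_lit 65539) (nat_lit 0) (.e (nat_lit 1879) (nat_lit 126) .nil))))) .nil))) (.nd (nat_lit 6) 
(.lf (nat_lit 219047) (.g (nat_lit 3916) (.e (nat_lit 90174) (nat_lit 14) (.e (nat_lit 180243) (nat_lit 5) (.e (nat_lit 532515) (nat_lit 3) (.e (nat_lit 114719) (nat_lit 23) (.e (nat_lit 98334) (nat_lit 18) (.e (nat_lit 164402) (nat_lit 256) (.e (nat_lit 57371) (nat_lit 2) .nil))))))) (.g (nat_lit 5) .nil .nil))) 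
(.lf (nat_lit 219111) (.g (nat_lit 2310) (.e (nat_lit 90174) (nat_lit 14) (.e (nat_lit 180250) (nat_lit 10) (.e (nat_lit 573487) (nat_lit 14) (.e (nat_lit 73753) (nat_lit 8) (.e (nat_lit 557089) (nat_lit 12) (.e (nat_lit 164010) (nat_lit 41) (.e (nat_lit 663555) (nat_lit 0) (.e (nat_lit 1236) (nat_lit 91) .nil)))))))) (.g (nat_lit 4) .nil .nil))))) (.nd (nat_lit 5) (.nd (nat_lit 6) 
(.lf (nat_lit 219031) (.g (nat_lit 2908) (.e (nat_lit 90174) (nat_lit 14) (.e (nat_lit 180243) (nat_lit 5) (.e (nat_lit 532515) (nat_lit 3) (.e (nat_lit 114717) (nat_lit 23) (.e (nat_lit 98334) (nat_lit 18) (.e (nat_lit 164397) (nat_lit 256) (.e (nat_lit 57371) (nat_lit 2) .nil))))))) (.g (nat_lit 5) .nil .nil))) 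
(.lf (nat_lit 219095) (.g (nat_lit 2338) (.e (nat_lit 90174) (nat_lit 14) (.e (nat_lit 180250) (nat_lit 10) (.e (nat_lit 573487) (nat_lit 14) (.e (nat_lit 73729) (nat_lit 0) (.e (nat_lit 4134) (nat_lit 246) .nil))))) .nil))) (.nd (nat_lit 6) 
(.lf (nat_lit 219063) (.g (nat_lit 967) (.e (nat_lit 90174) (nat_lit 14) (.e (nat_lit 180250) (nat_lit 10) (.e (nat_lit 573479) (nat_lit 13) (.e (nat_lit 65631) (nat_lit 15) .nil)))) .nil)) 
(.lf (nat_lit 219127) (.g (nat_lit 1544) (.e (nat_lit 90174) (nat_lit 14) (.e (nat_lit 180250) (nat_lit 10) (.e (nat_lit 573489) (nat_lit 14) (.e (nat_lit 81664) (nat_lit 5) .nil)))) .nil))))) (.nd (nat_lit 4) (.nd (nat_lit 5) (.nd (nat_lit 6) 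
(.lf (nat_lit 219023) (.g (nat_lit 1424) (.e (nat_lit 90174) (nat_lit 14) (.e (nat_lit 180243) (nat_lit 5) (.e (nat_lit 532515) (nat_lit 3) (.e (nat_lit 114716) (nat_lit 22) (.e (nat_lit 90164) (nat_lit 12) .nil))))) .nil)) 
(.lf (nat_lit 219087) (.g (nat_lit 2004) (.e (nat_lit 90174) (nat_lit 14) (.e (nat_lit 180250) (nat_lit 10) (.e (nat_lit 573484) (nat_lit 13) (.e (nat_lit 73472) (nat_lit 22) .nil)))) .nil))) (.nd (nat_lit 6) 
(.lf (nat_lit 219055) (.g (nat_lit 2053) (.e (nat_lit 90174) (nat_lit 14) (.e (nat_lit 180250) (nat_lit 10) (.e (nat_lit 573451) (nat_lit 9) (.e (nat_lit 1634) (nat_lit 114) .nil)))) .nil)) 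
(.lf (nat_lit 219119) (.g (nat_lit 1769) (.e (nat_lit 90174) (nat_lit 14) (.e (nat_lit 180250) (nat_lit 10) (.e (nat_lit 573487) (nat_lit 14) (.e (nat_lit 73754) (nat_lit 8) .nil)))) .nil)))) (.nd (nat_lit 5) (.nd (nat_lit 6) 
(.lf (nat_lit 219039) (.g (nat_lit 4867) (.e (nat_lit 90174) (nat_lit 14) (.e (nat_lit 180243) (nat_lit 5) (.e (nat_lit 532515) (nat_lit 3) (.e (nat_lit 114718) (nat_lit 23) (.e (nat_lit 98335) (nat_lit 18) (.e (nat_lit 164403) (nat_lit 256) (.e (nat_lit 57373) (nat_lit 2) .nil))))))) (.g (nat_lit 7) .nil .nil))) 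
(.lf (nat_lit 219103) (.g (nat_lit 2507) (.e (nat_lit 90174) (nat_lit 14) (.e (nat_lit 180250) (nat_lit 10) (.e (nat_lit 573487) (nat_lit 14) (.e (nat_lit 81664) (nat_lit 5) (.e (nat_lit 532482) (nat_lit 0) (.e (nat_lit 2356) (nat_lit 152) (.e (nat_lit 786455) (nat_lit 17) .nil))))))) (.g (nat_lit 5) .nil .nil)))) (.nd (nat_lit 6) 
(.lf (nat_lit 219071) (.g (nat_lit 2833) (.e (nat_lit 90174) (nat_lit 14) (.e (nat_lit 180250) (nat_lit 10) (.e (nat_lit 573482) (nat_lit 13) (.e (nat_lit 65571) (nat_lit 3) (.e (nat_lit 98333) (nat_lit 18) .nil))))) .nil)) 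
(.lf (nat_lit 219135) (.g (nat_lit 3490) (.e (nat_lit 90174) (nat_lit 14) (.e (nat_lit 180250) (nat_lit 10) (.e (nat_lit 573489) (nat_lit 14) (.e (nat_lit 73755) (nat_lit 8) (.e (nat_lit 557068) (nat_lit 9) (.e (nat_lit 2719) (nat_lit 171) (.e (nat_lit 229707) (nat_lit 256) (.e (nat_lit 57371) (nat_lit 2) .nil)))))))) (.g (nat_lit 4) .nil .nil))))))))))

noncomputable def tv2880 : DT := (.nd (nat_lit 0) (.nd (nat_lit 1) (.nd (nat_lit 2) (.nd (nat_lit 3) (.nd (nat_lit 4) (.nd (nat_lit 5) (.nd (nat_lit 6) 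
(.lf (nat_lit 219136) (.g (nat_lit 2052) (.e (nat_lit 90174) (nat_lit 14) (.e (nat_lit 180250) (nat_lit 10) (.e (nat_lit 573489) (nat_lit 14) (.e (nat_lit 73755) (nat_lit 8) (.e (nat_lit 557089) (nat_lit 12) .nil))))) .nil)) 
(.lf (nat_lit 219200) (.g (nat_lit 2215) (.e (nat_lit 90174) (nat_lit 14) (.e (nat_lit 180251) (nat_lit 10) (.e (nat_lit 573484) (nat_lit 13) (.e (nat_lit 65568) (nat_lit 2) (.e (nat_lit 98048) (nat_lit 2) .nil))))) .nil))) (.nd (nat_lit 6) 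
(.lf (nat_lit 219168) (.g (nat_lit 2669) (.e (nat_lit 90174) (nat_lit 14) (.e (nat_lit 180250) (nat_lit 10) (.e (nat_lit 573489) (nat_lit 14) (.e (nat_lit 73755) (nat_lit 8) (.e (nat_lit 557090) (nat_lit 12) (.e (nat_lit 164007) (nat_lit 41) (.e (nat_lit 663559) (nat_lit 0) (.e (nat_lit 1236) (nat_lit 91) .nil)))))))) (.g (nat_lit 4) .nil .nil))) 
(.lf (nat_lit 219232) (.g (nat_lit 2374) (.e (nat_lit 90174) (nat_lit 14) (.e (nat_lit 180251) (nat_lit 10) (.e (nat_lit 573489) (nat_lit 14) (.e (nat_lit 73755) (nat_lit 8) (.e (nat_lit 557089) (nat_lit 12) (.e (nat_lit 164006) (nat_lit 41) (.e (nat_lit 663554) (nat_lit 0) (.e (nat_lit 1225) (nat_lit 91) .nil)))))))) (.g (nat_lit 4) .nil .nil))))) (.nd (nat_lit 5) (.nd (nat_lit 6) 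
(.lf (nat_lit 219152) (.g (nat_lit 3232) (.e (nat_lit 90174) (nat_lit 14) (.e (nat_lit 180250) (nat_lit 10) (.e (nat_lit 573489) (nat_lit 14) (.e (nat_lit 73755) (nat_lit 8) (.e (nat_lit 557089) (nat_lit 12) (.e (nat_lit 164010) (nat_lit 41) (.e (nat_lit 663555) (nat_lit 0) (.e (nat_lit 1236) (nat_lit 91) .nil)))))))) (.g (nat_lit 5) .nil .nil))) 
(.lf (nat_lit 219216) (.g (nat_lit 2883) (.e (nat_lit 90174) (nat_lit 14) (.e (nat_lit 180251) (nat_lit 10) (.e (nat_lit 573489) (nat_lit 14) (.e (nat_lit 73747) (nat_lit 3) (.e (nat_lit 516115) (nat_lit 1) .nil))))) .nil))) (.nd (nat_lit 6) 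
(.lf (nat_lit 219184) (.g (nat_lit 3635) (.e (nat_lit 90174) (nat_lit 14) (.e (nat_lit 180250) (nat_lit 10) (.e (nat_lit 573489) (nat_lit 14) (.e (nat_lit 73755) (nat_lit 8) (.e (nat_lit 557091) (nat_lit 12) (.e (nat_lit 164007) (nat_lit 41) (.e (nat_lit 671488) (nat_lit 0) (.e (nat_lit 1238) (nat_lit 91) .nil)))))))) (.g (nat_lit 5) .nil .nil))) 
(.lf (nat_lit 219248) (.g (nat_lit 2410) (.e (nat_lit 90174) (nat_lit 14) (.e (nat_lit 180251) (nat_lit 10) (.e (nat_lit 573489) (nat_lit 14) (.e (nat_lit 73755) (nat_lit 8) (.e (nat_lit 557089) (nat_lit 12) (.e (nat_lit 164007) (nat_lit 41) (.e (nat_lit 671488) (nat_lit 0) (.e (nat_lit 1237) (nat_lit 91) .nil)))))))) (.g (nat_lit 4) .nil .nil)))))) 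
(.nd (nat_lit 4) (.nd (nat_lit 5) (.nd (nat_lit 6) 
(.lf (nat_lit 219144) (.g (nat_lit 2739) (.e (nat_lit 90174) (nat_lit 14) (.e (nat_lit 180250) (nat_lit 10) (.e (nat_lit 573489) (nat_lit 14) (.e (nat_lit 73755) (nat_lit 8) (.e (nat_lit 557089) (nat_lit 12) (.e (nat_lit 164007) (nat_lit 41) (.e (nat_lit 663554) (nat_lit 0) (.e (nat_lit 1233) (nat_lit 91) .nil)))))))) (.g (nat_lit 4) .nil .nil))) 
(.lf (nat_lit 219208) (.g (nat_lit 1256) (.e (nat_lit 90174) (nat_lit 14) (.e (nat_lit 180251) (nat_lit 10) (.e (nat_lit 573485) (nat_lit 13) (.e (nat_lit 65575) (nat_lit 5) .nil)))) .nil))) (.nd (nat_lit 6) 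
(.lf (nat_lit 219176) (.g (nat_lit 2263) (.e (nat_lit 90174) (nat_lit 14) (.e (nat_lit 180250) (nat_lit 10) (.e (nat_lit 573489) (nat_lit 14) (.e (nat_lit 73755) (nat_lit 8) (.e (nat_lit 557091) (nat_lit 12) .nil))))) .nil)) 
(.lf (nat_lit 219240) (.g (nat_lit 2873) (.e (nat_lit 90174) (nat_lit 14) (.e (nat_lit 180251) (nat_lit 10) (.e (nat_lit 573489) (nat_lit 14) (.e (nat_lit 73755) (nat_lit 8) (.e (nat_lit 557089) (nat_lit 12) (.e (nat_lit 164007) (nat_lit 41) (.e (nat_lit 663554) (nat_lit 0) (.e (nat_lit 1225) (nat_lit 91) .nil)))))))) (.g (nat_lit 4) .nil .nil))))) (.nd (nat_lit 5) (.nd (nat_lit 6) 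
(.lf (nat_lit 219160) (.g (nat_lit 3064) (.e (nat_lit 90174) (nat_lit 14) (.e (nat_lit 180250) (nat_lit 10) (.e (nat_lit 573489) (nat_lit 14) (.e (nat_lit 73755) (nat_lit 8) (.e (nat_lit 557090) (nat_lit 12) (.e (nat_lit 164006) (nat_lit 41) (.e (nat_lit 663559) (nat_lit 0) (.e (nat_lit 1236) (nat_lit 91) .nil)))))))) (.g (nat_lit 4) .nil .nil))) 
(.lf (nat_lit 219224) (.g (nat_lit 2522) (.e (nat_lit 90174) (nat_lit 14) (.e (nat_lit 180251) (nat_lit 10) (.e (nat_lit 573489) (nat_lit 14) (.e (nat_lit 73755) (nat_lit 8) (.e (nat_lit 557065) (nat_lit 9) .nil))))) .nil))) (.nd (nat_lit 6) 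
(.lf (nat_lit 219192) (.g (nat_lit 2097) (.e (nat_lit 90174) (nat_lit 14) (.e (nat_lit 180251) (nat_lit 10) (.e (nat_lit 573475) (nat_lit 12) (.e (nat_lit 57750) (nat_lit 201) .nil)))) .nil)) 
(.lf (nat_lit 219256) (.g (nat_lit 3339) (.e (nat_lit 90174) (nat_lit 14) (.e (nat_lit 180251) (nat_lit 10) (.e (nat_lit 573489) (nat_lit 14) (.e (nat_lit 73755) (nat_lit 8) (.e (nat_lit 557090) (nat_lit 12) (.e (nat_lit 164005) (nat_lit 41) (.e (nat_lit 663560) (nat_lit 0) (.e (nat_lit 1234) (nat_lit 91) .nil)))))))) (.g (nat_lit 4) .nil .nil))))))) 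
(.nd (nat_lit 3) (.nd (nat_lit 4) (.nd (nat_lit 5) (.nd (nat_lit 6) 
(.lf (nat_lit 219140) (.g (nat_lit 2728) (.e (nat_lit 90174) (nat_lit 14) (.e (nat_lit 180250) (nat_lit 10) (.e (nat_lit 573489) (nat_lit 14) (.e (nat_lit 73755) (nat_lit 8) (.e (nat_lit 557089) (nat_lit 12) (.e (nat_lit 164006) (nat_lit 41) (.e (nat_lit 671488) (nat_lit 0) (.e (nat_lit 1227) (nat_lit 91) .nil)))))))) (.g (nat_lit 4) .nil .nil))) 
(.lf (nat_lit 219204) (.g (nat_lit 1812) (.e (nat_lit 90174) (nat_lit 14) (.e (nat_lit 180251) (nat_lit 10) (.e (nat_lit 573484) (nat_lit 13) (.e (nat_lit 65571) (nat_lit 3) .nil)))) .nil))) (.nd (nat_lit 6) 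
(.lf (nat_lit 219172) (.g (nat_lit 3191) (.e (nat_lit 90174) (nat_lit 14) (.e (nat_lit 180250) (nat_lit 10) (.e (nat_lit 573489) (nat_lit 14) (.e (nat_lit 73755) (nat_lit 8) (.e (nat_lit 557090) (nat_lit 12) (.e (nat_lit 164008) (nat_lit 41) (.e (nat_lit 663556) (nat_lit 0) (.e (nat_lit 1236) (nat_lit 91) .nil)))))))) (.g (nat_lit 4) .nil .nil))) 
(.lf (nat_lit 219236) (.g (nat_lit 4298) (.e (nat_lit 90174) (nat_lit 14) (.e (nat_lit 180251) (nat_lit 10) (.e (nat_lit 573489) (nat_lit 14) (.e (nat_lit 73755) (nat_lit 8) (.e (nat_lit 557089) (nat_lit 12) (.e (nat_lit 164006) (nat_lit 41) (.e (nat_lit 671488) (nat_lit 0) (.e (nat_lit 1228) (nat_lit 91) .nil)))))))) (.g (nat_lit 6) .nil .nil))))) (.nd (nat_lit 5) (.nd (nat_lit 6) 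
(.lf (nat_lit 219156) (.g (nat_lit 2817) (.e (nat_lit 90174) (nat_lit 14) (.e (nat_lit 180250) (nat_lit 10) (.e (nat_lit 573489) (nat_lit 14) (.e (nat_lit 73755) (nat_lit 8) (.e (nat_lit 557090) (nat_lit 12) (.e (nat_lit 163843) (nat_lit 0) (.e (nat_lit 5809) (nat_lit 320) (.e (nat_lit 1027) (nat_lit 81) (.e (nat_lit 1238) (nat_lit 91) .nil))))))))) (.g (nat_lit 4) .nil .nil))) 
(.lf (nat_lit 219220) (.g (nat_lit 1998) (.e (nat_lit 90174) (nat_lit 14) (.e (nat_lit 180251) (nat_lit 10) (.e (nat_lit 573489) (nat_lit 14) (.e (nat_lit 73754) (nat_lit 8) (.e (nat_lit 557093) (nat_lit 12) .nil))))) .nil))) (.nd (nat_lit 6) 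
(.lf (nat_lit 219188) (.g (nat_lit 3272) (.e (nat_lit 90174) (nat_lit 14) (.e (nat_lit 180250) (nat_lit 10) (.e (nat_lit 573489) (nat_lit 14) (.e (nat_lit 73755) (nat_lit 8) (.e (nat_lit 557121) (nat_lit 18) (.e (nat_lit 2505) (nat_lit 157) (.e (nat_lit 5629) (nat_lit 312) (.e (nat_lit 100) (nat_lit 2) .nil)))))))) (.g (nat_lit 4) .nil .nil))) 
(.lf (nat_lit 219252) (.g (nat_lit 2647) (.e (nat_lit 90174) (nat_lit 14) (.e (nat_lit 180251) (nat_lit 10) (.e (nat_lit 573489) (nat_lit 14) (.e (nat_lit 73755) (nat_lit 8) (.e (nat_lit 557089) (nat_lit 12) (.e (nat_lit 164010) (nat_lit 41) (.e (nat_lit 671488) (nat_lit 0) (.e (nat_lit 1228) (nat_lit 91) .nil)))))))) (.g (nat_lit 4) .nil .nil)))))) 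
(.nd (nat_lit 4) (.nd (nat_lit 5) (.nd (nat_lit 6) 
(.lf (nat_lit 219148) (.g (nat_lit 2763) (.e (nat_lit 90174) (nat_lit 14) (.e (nat_lit 180250) (nat_lit 10) (.e (nat_lit 573489) (nat_lit 14) (.e (nat_lit 73755) (nat_lit 8) (.e (nat_lit 557089) (nat_lit 12) (.e (nat_lit 164007) (nat_lit 41) (.e (nat_lit 671488) (nat_lit 0) (.e (nat_lit 1228) (nat_lit 91) .nil)))))))) (.g (nat_lit 4) .nil .nil))) 
(.lf (nat_lit 219212) (.g (nat_lit 2360) (.e (nat_lit 90174) (nat_lit 14) (.e (nat_lit 180251) (nat_lit 10) (.e (nat_lit 573487) (nat_lit 14) (.e (nat_lit 73746) (nat_lit 3) (.e (nat_lit 516117) (nat_lit 1) .nil))))) .nil))) (.nd (nat_lit 6) 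
(.lf (nat_lit 219180) (.g (nat_lit 2511) (.e (nat_lit 90174) (nat_lit 14) (.e (nat_lit 180250) (nat_lit 10) (.e (nat_lit 573489) (nat_lit 14) (.e (nat_lit 73755) (nat_lit 8) (.e (nat_lit 557091) (nat_lit 12) (.e (nat_lit 164006) (nat_lit 41) (.e (nat_lit 671488) (nat_lit 0) (.e (nat_lit 1227) (nat_lit 91) .nil)))))))) (.g (nat_lit 4) .nil .nil))) 
(.lf (nat_lit 219244) (.g (nat_lit 3306) (.e (nat_lit 90174) (nat_lit 14) (.e (nat_lit 180251) (nat_lit 10) (.e (nat_lit 573489) (nat_lit 14) (.e (nat_lit 73755) (nat_lit 8) (.e (nat_lit 557089) (nat_lit 12) (.e (nat_lit 164007) (nat_lit 41) (.e (nat_lit 663560) (nat_lit 0) (.e (nat_lit 1228) (nat_lit 91) .nil)))))))) (.g (nat_lit 5) .nil .nil))))) (.nd (nat_lit 5) (.nd (nat_lit 6) 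
(.lf (nat_lit 219164) (.g (nat_lit 2449) (.e (nat_lit 90174) (nat_lit 14) (.e (nat_lit 180250) (nat_lit 10) (.e (nat_lit 573489) (nat_lit 14) (.e (nat_lit 73755) (nat_lit 8) (.e (nat_lit 557090) (nat_lit 12) (.e (nat_lit 164007) (nat_lit 41) (.e (nat_lit 663552) (nat_lit 0) (.e (nat_lit 1236) (nat_lit 91) .nil)))))))) (.g (nat_lit 4) .nil .nil))) 
(.lf (nat_lit 219228) (.g (nat_lit 3318) (.e (nat_lit 90174) (nat_lit 14) (.e (nat_lit 180251) (nat_lit 10) (.e (nat_lit 573489) (nat_lit 14) (.e (nat_lit 73755) (nat_lit 8) (.e (nat_lit 557069) (nat_lit 9) .nil))))) .nil))) (.nd (nat_lit 6) 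
(.lf (nat_lit 219196) (.g (nat_lit 535) (.e (nat_lit 90174) (nat_lit 14) (.e (nat_lit 180251) (nat_lit 10) (.e (nat_lit 573479) (nat_lit 13) .nil))) .nil)) 
(.lf (nat_lit 219260) (.g (nat_lit 3221) (.e (nat_lit 90174) (nat_lit 14) (.e (nat_lit 180251) (nat_lit 10) (.e (nat_lit 573489) (nat_lit 14) (.e (nat_lit 73755) (nat_lit 8) (.e (nat_lit 557090) (nat_lit 12) (.e (nat_lit 164006) (nat_lit 41) (.e (nat_lit 671488) (nat_lit 0) (.e (nat_lit 1227) (nat_lit 91) .nil)))))))) (.g (nat_lit 4) .nil .nil)))))))) 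
(.nd (nat_lit 2) (.nd (nat_lit 3) (.nd (nat_lit 4) (.nd (nat_lit 5) (.nd (nat_lit 6) 
(.lf (nat_lit 219138) (.g (nat_lit 2240) (.e (nat_lit 90174) (nat_lit 14) (.e (nat_lit 180250) (nat_lit 10) (.e (nat_lit 573489) (nat_lit 14) (.e (nat_lit 73755) (nat_lit 8) (.e (nat_lit 557089) (nat_lit 12) (.e (nat_lit 164006) (nat_lit 41) (.e (nat_lit 663554) (nat_lit 0) (.e (nat_lit 1233) (nat_lit 91) .nil)))))))) (.g (nat_lit 4) .nil .nil))) 
(.lf (nat_lit 219202) (.g (nat_lit 3016) (.e (nat_lit 90174) (nat_lit 14) (.e (nat_lit 180251) (nat_lit 10) (.e (nat_lit 573484) (nat_lit 13) (.e (nat_lit 65569) (nat_lit 3) (.e (nat_lit 98319) (nat_lit 17) .nil))))) .nil))) (.nd (nat_lit 6) 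
(.lf (nat_lit 219170) (.g (nat_lit 2865) (.e (nat_lit 90174) (nat_lit 14) (.e (nat_lit 180250) (nat_lit 10) (.e (nat_lit 573489) (nat_lit 14) (.e (nat_lit 73755) (nat_lit 8) (.e (nat_lit 557090) (nat_lit 12) (.e (nat_lit 164007) (nat_lit 41) (.e (nat_lit 671488) (nat_lit 0) (.e (nat_lit 1227) (nat_lit 91) .nil)))))))) (.g (nat_lit 4) .nil .nil))) 
(.lf (nat_lit 219234) (.g (nat_lit 2987) (.e (nat_lit 90174) (nat_lit 14) (.e (nat_lit 180251) (nat_lit 10) (.e (nat_lit 573489) (nat_lit 14) (.e (nat_lit 73755) (nat_lit 8) (.e (nat_lit 557089) (nat_lit 12) (.e (nat_lit 164006) (nat_lit 41) (.e (nat_lit 663559) (nat_lit 0) (.e (nat_lit 1236) (nat_lit 91) .nil)))))))) (.g (nat_lit 5) .nil .nil))))) (.nd (nat_lit 5) (.nd (nat_lit 6) 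
(.lf (nat_lit 219154) (.g (nat_lit 2797) (.e (nat_lit 90174) (nat_lit 14) (.e (nat_lit 180250) (nat_lit 10) (.e (nat_lit 573489) (nat_lit 14) (.e (nat_lit 73755) (nat_lit 8) (.e (nat_lit 557090) (nat_lit 12) (.e (nat_lit 163843) (nat_lit 0) (.e (nat_lit 5807) (nat_lit 320) (.e (nat_lit 1027) (nat_lit 81) (.e (nat_lit 1238) (nat_lit 91) .nil))))))))) (.g (nat_lit 4) .nil .nil))) 
(.lf (nat_lit 219218) (.g (nat_lit 1093) (.e (nat_lit 90174) (nat_lit 14) (.e (nat_lit 180251) (nat_lit 10) (.e (nat_lit 573489) (nat_lit 14) (.e (nat_lit 73754) (nat_lit 8) .nil)))) .nil))) (.nd (nat_lit 6) 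
(.lf (nat_lit 219186) (.g (nat_lit 3618) (.e (nat_lit 90174) (nat_lit 14) (.e (nat_lit 180250) (nat_lit 10) (.e (nat_lit 573489) (nat_lit 14) (.e (nat_lit 73755) (nat_lit 8) (.e (nat_lit 557119) (nat_lit 18) (.e (nat_lit 2448) (nat_lit 157) (.e (nat_lit 5639) (nat_lit 312) (.e (nat_lit 100) (nat_lit 2) .nil)))))))) (.g (nat_lit 5) .nil .nil))) 
(.lf (nat_lit 219250) (.g (nat_lit 2913) (.e (nat_lit 90174) (nat_lit 14) (.e (nat_lit 180251) (nat_lit 10) (.e (nat_lit 573489) (nat_lit 14) (.e (nat_lit 73755) (nat_lit 8) (.e (nat_lit 557089) (nat_lit 12) (.e (nat_lit 164010) (nat_lit 41) (.e (nat_lit 663555) (nat_lit 0) (.e (nat_lit 1225) (nat_lit 91) .nil)))))))) (.g (nat_lit 4) .nil .nil)))))) 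
(.nd (nat_lit 4) (.nd (nat_lit 5) (.nd (nat_lit 6) 
(.lf (nat_lit 219146) (.g (nat_lit 2383) (.e (nat_lit 90174) (nat_lit 14) (.e (nat_lit 180250) (nat_lit 10) (.e (nat_lit 573489) (nat_lit 14) (.e (nat_lit 73755) (nat_lit 8) (.e (nat_lit 557089) (nat_lit 12) (.e (nat_lit 164007) (nat_lit 41) (.e (nat_lit 663560) (nat_lit 0) (.e (nat_lit 1236) (nat_lit 91) .nil)))))))) (.g (nat_lit 4) .nil .nil))) 
(.lf (nat_lit 219210) (.g (nat_lit 374) (.e (nat_lit 90174) (nat_lit 14) (.e (nat_lit 180251) (nat_lit 10) (.e (nat_lit 573487) (nat_lit 14) .nil))) .nil))) (.nd (nat_lit 6) 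
(.lf (nat_lit 219178) (.g (nat_lit 2874) (.e (nat_lit 90174) (nat_lit 14) (.e (nat_lit 180250) (nat_lit 10) (.e (nat_lit 573489) (nat_lit 14) (.e (nat_lit 73755) (nat_lit 8) (.e (nat_lit 557091) (nat_lit 12) (.e (nat_lit 164005) (nat_lit 41) (.e (nat_lit 663560) (nat_lit 0) (.e (nat_lit 1238) (nat_lit 91) .nil)))))))) (.g (nat_lit 4) .nil .nil))) 
(.lf (nat_lit 219242) (.g (nat_lit 2154) (.e (nat_lit 90174) (nat_lit 14) (.e (nat_lit 180251) (nat_lit 10) (.e (nat_lit 573489) (nat_lit 14) (.e (nat_lit 73755) (nat_lit 8) (.e (nat_lit 557089) (nat_lit 12) (.e (nat_lit 164007) (nat_lit 41) (.e (nat_lit 663555) (nat_lit 0) (.e (nat_lit 1236) (nat_lit 91) .nil)))))))) (.g (nat_lit 4) .nil .nil))))) (.nd (nat_lit 5) (.nd (nat_lit 6) 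
(.lf (nat_lit 219162) (.g (nat_lit 4135) (.e (nat_lit 90174) (nat_lit 14) (.e (nat_lit 180250) (nat_lit 10) (.e (nat_lit 573489) (nat_lit 14) (.e (nat_lit 73755) (nat_lit 8) (.e (nat_lit 557090) (nat_lit 12) (.e (nat_lit 164006) (nat_lit 41) (.e (nat_lit 671488) (nat_lit 0) (.e (nat_lit 1228) (nat_lit 91) .nil)))))))) (.g (nat_lit 5) .nil .nil))) 
(.lf (nat_lit 219226) (.g (nat_lit 2458) (.e (nat_lit 90174) (nat_lit 14) (.e (nat_lit 180251) (nat_lit 10) (.e (nat_lit 573489) (nat_lit 14) (.e (nat_lit 73755) (nat_lit 8) (.e (nat_lit 557067) (nat_lit 9) .nil))))) .nil))) (.nd (nat_lit 6) 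
(.lf (nat_lit 219194) (.g (nat_lit 1925) (.e (nat_lit 90174) (nat_lit 14) (.e (nat_lit 180251) (nat_lit 10) (.e (nat_lit 573477) (nat_lit 12) (.e (nat_lit 57750) (nat_lit 201) (.e (nat_lit 7936) (nat_lit 3) .nil))))) .nil)) 
(.lf (nat_lit 219258) (.g (nat_lit 3656) (.e (nat_lit 90174) (nat_lit 14) (.e (nat_lit 180251) (nat_lit 10) (.e (nat_lit 573489) (nat_lit 14) (.e (nat_lit 73755) (nat_lit 8) (.e (nat_lit 557090) (nat_lit 12) (.e (nat_lit 164006) (nat_lit 41) (.e (nat_lit 663554) (nat_lit 0) (.e (nat_lit 1233) (nat_lit 91) .nil)))))))) (.g (nat_lit 4) .nil .nil))))))) 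
(.nd (nat_lit 3) (.nd (nat_lit 4) (.nd (nat_lit 5) (.nd (nat_lit 6) 
(.lf (nat_lit 219142) (.g (nat_lit 2060) (.e (nat_lit 90174) (nat_lit 14) (.e (nat_lit 180250) (nat_lit 10) (.e (nat_lit 573489) (nat_lit 14) (.e (nat_lit 73755) (nat_lit 8) (.e (nat_lit 557089) (nat_lit 12) (.e (nat_lit 164006) (nat_lit 41) (.e (nat_lit 671488) (nat_lit 0) (.e (nat_lit 1237) (nat_lit 91) .nil)))))))) (.g (nat_lit 4) .nil .nil))) 
(.lf (nat_lit 219206) (.g (nat_lit 2590) (.e (nat_lit 90174) (nat_lit 14) (.e (nat_lit 180251) (nat_lit 10) (.e (nat_lit 573484) (nat_lit 13) (.e (nat_lit 65642) (nat_lit 15) (.e (nat_lit 7936) (nat_lit 195) .nil))))) .nil))) (.nd (nat_lit 6) 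
(.lf (nat_lit 219174) (.g (nat_lit 3099) (.e (nat_lit 90174) (nat_lit 14) (.e (nat_lit 180250) (nat_lit 10) (.e (nat_lit 573489) (nat_lit 14) (.e (nat_lit 73755) (nat_lit 8) (.e (nat_lit 557090) (nat_lit 12) (.e (nat_lit 164010) (nat_lit 41) (.e (nat_lit 663555) (nat_lit 0) (.e (nat_lit 1226) (nat_lit 91) .nil)))))))) (.g (nat_lit 4) .nil .nil))) 
(.lf (nat_lit 219238) (.g (nat_lit 2181) (.e (nat_lit 90174) (nat_lit 14) (.e (nat_lit 180251) (nat_lit 10) (.e (nat_lit 573489) (nat_lit 14) (.e (nat_lit 73755) (nat_lit 8) (.e (nat_lit 557089) (nat_lit 12) (.e (nat_lit 164007) (nat_lit 41) (.e (nat_lit 663552) (nat_lit 0) (.e (nat_lit 1233) (nat_lit 91) .nil)))))))) (.g (nat_lit 4) .nil .nil))))) (.nd (nat_lit 5) (.nd (nat_lit 6) 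
(.lf (nat_lit 219158) (.g (nat_lit 3067) (.e (nat_lit 90174) (nat_lit 14) (.e (nat_lit 180250) (nat_lit 10) (.e (nat_lit 573489) (nat_lit 14) (.e (nat_lit 73755) (nat_lit 8) (.e (nat_lit 557090) (nat_lit 12) (.e (nat_lit 164006) (nat_lit 41) (.e (nat_lit 663554) (nat_lit 0) (.e (nat_lit 1225) (nat_lit 91) .nil)))))))) (.g (nat_lit 4) .nil .nil))) 
(.lf (nat_lit 219222) (.g (nat_lit 984) (.e (nat_lit 90174) (nat_lit 14) (.e (nat_lit 180251) (nat_lit 10) (.e (nat_lit 573489) (nat_lit 14) (.e (nat_lit 73755) (nat_lit 8) .nil)))) .nil))) (.nd (nat_lit 6) 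
(.lf (nat_lit 219190) (.g (nat_lit 1606) (.e (nat_lit 90174) (nat_lit 14) (.e (nat_lit 180250) (nat_lit 10) (.e (nat_lit 573489) (nat_lit 14) (.e (nat_lit 73757) (nat_lit 11) .nil)))) .nil)) 
(.lf (nat_lit 219254) (.g (nat_lit 3007) (.e (nat_lit 90174) (nat_lit 14) (.e (nat_lit 180251) (nat_lit 10) (.e (nat_lit 573489) (nat_lit 14) (.e (nat_lit 73755) (nat_lit 8) (.e (nat_lit 557090) (nat_lit 12) (.e (nat_lit 163843) (nat_lit 0) (.e (nat_lit 5807) (nat_lit 320) (.e (nat_lit 999) (nat_lit 81) (.e (nat_lit 1239) (nat_lit 91) .nil))))))))) (.g (nat_lit 4) .nil .nil)))))) 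
(.nd (nat_lit 4) (.nd (nat_lit 5) (.nd (nat_lit 6) 
(.lf (nat_lit 219150) (.g (nat_lit 2245) (.e (nat_lit 90174) (nat_lit 14) (.e (nat_lit 180250) (nat_lit 10) (.e (nat_lit 573489) (nat_lit 14) (.e (nat_lit 73755) (nat_lit 8) (.e (nat_lit 557089) (nat_lit 12) (.e (nat_lit 164010) (nat_lit 41) (.e (nat_lit 663555) (nat_lit 0) (.e (nat_lit 1225) (nat_lit 91) .nil)))))))) (.g (nat_lit 4) .nil .nil))) 
(.lf (nat_lit 219214) (.g (nat_lit 1599) (.e (nat_lit 90174) (nat_lit 14) (.e (nat_lit 180251) (nat_lit 10) (.e (nat_lit 573489) (nat_lit 14) (.e (nat_lit 73730) (nat_lit 0) .nil)))) .nil))) (.nd (nat_lit 6) 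
(.lf (nat_lit 219182) (.g (nat_lit 2632) (.e (nat_lit 90174) (nat_lit 14) (.e (nat_lit 180250) (nat_lit 10) (.e (nat_lit 573489) (nat_lit 14) (.e (nat_lit 73755) (nat_lit 8) (.e (nat_lit 557091) (nat_lit 12) (.e (nat_lit 164007) (nat_lit 41) (.e (nat_lit 663559) (nat_lit 0) (.e (nat_lit 1238) (nat_lit 91) .nil)))))))) (.g (nat_lit 4) .nil .nil))) 
(.lf (nat_lit 219246) (.g (nat_lit 3114) (.e (nat_lit 90174) (nat_lit 14) (.e (nat_lit 180251) (nat_lit 10) (.e (nat_lit 573489) (nat_lit 14) (.e (nat_lit 73755) (nat_lit 8) (.e (nat_lit 557089) (nat_lit 12) (.e (nat_lit 164007) (nat_lit 41) (.e (nat_lit 671488) (nat_lit 0) (.e (nat_lit 1227) (nat_lit 91) .nil)))))))) (.g (nat_lit 5) .nil .nil))))) (.nd (nat_lit 5) (.nd (nat_lit 6) 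
(.lf (nat_lit 219166) (.g (nat_lit 2825) (.e (nat_lit 90174) (nat_lit 14) (.e (nat_lit 180250) (nat_lit 10) (.e (nat_lit 573489) (nat_lit 14) (.e (nat_lit 73755) (nat_lit 8) (.e (nat_lit 557090) (nat_lit 12) (.e (nat_lit 164007) (nat_lit 41) (.e (nat_lit 663554) (nat_lit 0) (.e (nat_lit 1225) (nat_lit 91) .nil)))))))) (.g (nat_lit 4) .nil .nil))) 
(.lf (nat_lit 219230) (.g (nat_lit 2773) (.e (nat_lit 90174) (nat_lit 14) (.e (nat_lit 180251) (nat_lit 10) (.e (nat_lit 573489) (nat_lit 14) (.e (nat_lit 73755) (nat_lit 8) (.e (nat_lit 557089) (nat_lit 12) (.e (nat_lit 164005) (nat_lit 41) (.e (nat_lit 663560) (nat_lit 0) (.e (nat_lit 1238) (nat_lit 91) .nil)))))))) (.g (nat_lit 4) .nil .nil)))) (.nd (nat_lit 6) 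
(.lf (nat_lit 219198) (.g (nat_lit 2087) (.e (nat_lit 90174) (nat_lit 14) (.e (nat_lit 180251) (nat_lit 10) (.e (nat_lit 573484) (nat_lit 13) (.e (nat_lit 65566) (nat_lit 2) .nil)))) .nil)) 
(.lf (nat_lit 219262) (.g (nat_lit 3387) (.e (nat_lit 90174) (nat_lit 14) (.e (nat_lit 180251) (nat_lit 10) (.e (nat_lit 573489) (nat_lit 14) (.e (nat_lit 73755) (nat_lit 8) (.e (nat_lit 557090) (nat_lit 12) (.e (nat_lit 164007) (nat_lit 41) (.e (nat_lit 663559) (nat_lit 0) (.e (nat_lit 1238) (nat_lit 91) .nil)))))))) (.g (nat_lit 4) .nil .nil))))))))) 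
(.nd (nat_lit 1) (.nd (nat_lit 2) (.nd (nat_lit 3) (.nd (nat_lit 4) (.nd (nat_lit 5) 
(.nd (nat_lit 6) 
(.lf (nat_lit 219137) (.g (nat_lit 2444) (.e (nat_lit 90174) (nat_lit 14) (.e (nat_lit 180250) (nat_lit 10) (.e (nat_lit 573489) (nat_lit 14) (.e (nat_lit 73755) (nat_lit 8) (.e (nat_lit 557089) (nat_lit 12) (.e (nat_lit 164005) (nat_lit 41) (.e (nat_lit 663560) (nat_lit 0) (.e (nat_lit 1238) (nat_lit 91) .nil)))))))) (.g (nat_lit 4) .nil .nil))) 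
(.lf (nat_lit 219201) (.g (nat_lit 2039) (.e (nat_lit 90174) (nat_lit 14) (.e (nat_lit 180251) (nat_lit 10) (.e (nat_lit 573484) (nat_lit 13) (.e (nat_lit 65569) (nat_lit 3) .nil)))) .nil))) (.nd (nat_lit 6) 
(.lf (nat_lit 219169) (.g (nat_lit 2925) (.e (nat_lit 90174) (nat_lit 14) (.e (nat_lit 180250) (nat_lit 10) (.e (nat_lit 573489) (nat_lit 14) (.e (nat_lit 73755) (nat_lit 8) (.e (nat_lit 557090) (nat_lit 12) (.e (nat_lit 164007) (nat_lit 41) (.e (nat_lit 663560) (nat_lit 0) (.e (nat_lit 1236) (nat_lit 91) .nil)))))))) (.g (nat_lit 4) .nil .nil))) 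
(.lf (nat_lit 219233) (.g (nat_lit 2908) (.e (nat_lit 90174) (nat_lit 14) (.e (nat_lit 180251) (nat_lit 10) (.e (nat_lit 573489) (nat_lit 14) (.e (nat_lit 73755) (nat_lit 8) (.e (nat_lit 557089) (nat_lit 12) (.e (nat_lit 164006) (nat_lit 41) (.e (nat_lit 663554) (nat_lit 0) (.e (nat_lit 1233) (nat_lit 91) .nil)))))))) (.g (nat_lit 4) .nil .nil))))) (.nd (nat_lit 5) (.nd (nat_lit 6) 
(.lf (nat_lit 219153) (.g (nat_lit 2306) (.e (nat_lit 90174) (nat_lit 14) (.e (nat_lit 180250) (nat_lit 10) (.e (nat_lit 573489) (nat_lit 14) (.e (nat_lit 73755) (nat_lit 8) (.e (nat_lit 557090) (nat_lit 12) .nil))))) .nil)) 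
(.lf (nat_lit 219217) (.g (nat_lit 1607) (.e (nat_lit 90174) (nat_lit 14) (.e (nat_lit 180251) (nat_lit 10) (.e (nat_lit 573489) (nat_lit 14) (.e (nat_lit 81664) (nat_lit 5) .nil)))) .nil))) (.nd (nat_lit 6) 
(.lf (nat_lit 219185) (.g (nat_lit 2251) (.e (nat_lit 90174) (nat_lit 14) (.e (nat_lit 180250) (nat_lit 10) (.e (nat_lit 573489) (nat_lit 14) (.e (nat_lit 73755) (nat_lit 8) (.e (nat_lit 557119) (nat_lit 18) .nil))))) .nil)) 
(.lf (nat_lit 219249) (.g (nat_lit 2618) (.e (nat_lit 90174) (nat_lit 14) (.e (nat_lit 180251) (nat_lit 10) (.e (nat_lit 573489) (nat_lit 14) (.e (nat_lit 73755) (nat_lit 8) (.e (nat_lit 557089) (nat_lit 12) (.e (nat_lit 164008) (nat_lit 41) (.e (nat_lit 671488) (nat_lit 0) (.e (nat_lit 1238) (nat_lit 91) .nil)))))))) (.g (nat_lit 4) .nil .nil)))))) 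
(.nd (nat_lit 4) (.nd (nat_lit 5) (.nd (nat_lit 6) 
(.lf (nat_lit 219145) (.g (nat_lit 2738) (.e (nat_lit 90174) (nat_lit 14) (.e (nat_lit 180250) (nat_lit 10) (.e (nat_lit 573489) (nat_lit 14) (.e (nat_lit 73755) (nat_lit 8) (.e (nat_lit 557089) (nat_lit 12) (.e (nat_lit 164007) (nat_lit 41) (.e (nat_lit 663560) (nat_lit 0) (.e (nat_lit 1228) (nat_lit 91) .nil)))))))) (.g (nat_lit 4) .nil .nil))) 
(.lf (nat_lit 219209) (.g (nat_lit 1250) (.e (nat_lit 90174) (nat_lit 14) (.e (nat_lit 180251) (nat_lit 10) (.e (nat_lit 573485) (nat_lit 13) (.e (nat_lit 65577) (nat_lit 5) .nil)))) .nil))) (.nd (nat_lit 6) 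
(.lf (nat_lit 219177) (.g (nat_lit 2871) (.e (nat_lit 90174) (nat_lit 14) (.e (nat_lit 180250) (nat_lit 10) (.e (nat_lit 573489) (nat_lit 14) (.e (nat_lit 73755) (nat_lit 8) (.e (nat_lit 557091) (nat_lit 12) (.e (nat_lit 164004) (nat_lit 41) (.e (nat_lit 671488) (nat_lit 0) (.e (nat_lit 1238) (nat_lit 91) .nil)))))))) (.g (nat_lit 4) .nil .nil))) 
(.lf (nat_lit 219241) (.g (nat_lit 3407) (.e (nat_lit 90174) (nat_lit 14) (.e (nat_lit 180251) (nat_lit 10) (.e (nat_lit 573489) (nat_lit 14) (.e (nat_lit 73755) (nat_lit 8) (.e (nat_lit 557089) (nat_lit 12) (.e (nat_lit 164007) (nat_lit 41) (.e (nat_lit 663554) (nat_lit 0) (.e (nat_lit 1233) (nat_lit 91) .nil)))))))) (.g (nat_lit 5) .nil .nil))))) (.nd (nat_lit 5) (.nd (nat_lit 6) 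
(.lf (nat_lit 219161) (.g (nat_lit 3166) (.e (nat_lit 90174) (nat_lit 14) (.e (nat_lit 180250) (nat_lit 10) (.e (nat_lit 573489) (nat_lit 14) (.e (nat_lit 73755) (nat_lit 8) (.e (nat_lit 557090) (nat_lit 12) (.e (nat_lit 164006) (nat_lit 41) (.e (nat_lit 671488) (nat_lit 0) (.e (nat_lit 1227) (nat_lit 91) .nil)))))))) (.g (nat_lit 4) .nil .nil))) 
(.lf (nat_lit 219225) (.g (nat_lit 2777) (.e (nat_lit 90174) (nat_lit 14) (.e (nat_lit 180251) (nat_lit 10) (.e (nat_lit 573489) (nat_lit 14) (.e (nat_lit 73755) (nat_lit 8) (.e (nat_lit 557065) (nat_lit 9) (.e (nat_lit 2717) (nat_lit 171) (.e (nat_lit 229707) (nat_lit 256) (.e (nat_lit 57371) (nat_lit 2) .nil)))))))) (.g (nat_lit 4) .nil .nil)))) (.nd (nat_lit 6) 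
(.lf (nat_lit 219193) (.g (nat_lit 1630) (.e (nat_lit 90174) (nat_lit 14) (.e (nat_lit 180251) (nat_lit 10) (.e (nat_lit 573475) (nat_lit 12) (.e (nat_lit 65280) (nat_lit 201) .nil)))) .nil)) 
(.lf (nat_lit 219257) (.g (nat_lit 3649) (.e (nat_lit 90174) (nat_lit 14) (.e (nat_lit 180251) (nat_lit 10) (.e (nat_lit 573489) (nat_lit 14) (.e (nat_lit 73755) (nat_lit 8) (.e (nat_lit 557090) (nat_lit 12) (.e (nat_lit 164005) (nat_lit 41) (.e (nat_lit 663560) (nat_lit 0) (.e (nat_lit 1238) (nat_lit 91) .nil)))))))) (.g (nat_lit 4) .nil .nil))))))) 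
(.nd (nat_lit 3) (.nd (nat_lit 4) (.nd (nat_lit 5) (.nd (nat_lit 6) 
(.lf (nat_lit 219141) (.g (nat_lit 3697) (.e (nat_lit 90174) (nat_lit 14) (.e (nat_lit 180250) (nat_lit 10) (.e (nat_lit 573489) (nat_lit 14) (.e (nat_lit 73755) (nat_lit 8) (.e (nat_lit 557089) (nat_lit 12) (.e (nat_lit 164006) (nat_lit 41) (.e (nat_lit 671488) (nat_lit 0) (.e (nat_lit 1228) (nat_lit 91) .nil)))))))) (.g (nat_lit 5) .nil .nil))) 
(.lf (nat_lit 219205) (.g (nat_lit 2411) (.e (nat_lit 90174) (nat_lit 14) (.e (nat_lit 180251) (nat_lit 10) (.e (nat_lit 573484) (nat_lit 13) (.e (nat_lit 65638) (nat_lit 15) .nil)))) .nil))) (.nd (nat_lit 6) 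
(.lf (nat_lit 219173) (.g (nat_lit 4435) (.e (nat_lit 90174) (nat_lit 14) (.e (nat_lit 180250) (nat_lit 10) (.e (nat_lit 573489) (nat_lit 14) (.e (nat_lit 73755) (nat_lit 8) (.e (nat_lit 557090) (nat_lit 12) (.e (nat_lit 164009) (nat_lit 41) (.e (nat_lit 663557) (nat_lit 0) (.e (nat_lit 1234) (nat_lit 91) .nil)))))))) (.g (nat_lit 5) .nil .nil))) 
(.lf (nat_lit 219237) (.g (nat_lit 2739) (.e (nat_lit 90174) (nat_lit 14) (.e (nat_lit 180251) (nat_lit 10) (.e (nat_lit 573489) (nat_lit 14) (.e (nat_lit 73755) (nat_lit 8) (.e (nat_lit 557089) (nat_lit 12) (.e (nat_lit 164006) (nat_lit 41) (.e (nat_lit 671488) (nat_lit 0) (.e (nat_lit 1237) (nat_lit 91) .nil)))))))) (.g (nat_lit 4) .nil .nil))))) (.nd (nat_lit 5) (.nd (nat_lit 6) 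
(.lf (nat_lit 219157) (.g (nat_lit 3933) (.e (nat_lit 90174) (nat_lit 14) (.e (nat_lit 180250) (nat_lit 10) (.e (nat_lit 573489) (nat_lit 14) (.e (nat_lit 73755) (nat_lit 8) (.e (nat_lit 557090) (nat_lit 12) (.e (nat_lit 164005) (nat_lit 41) (.e (nat_lit 663560) (nat_lit 0) (.e (nat_lit 1238) (nat_lit 91) .nil)))))))) (.g (nat_lit 5) .nil .nil))) 
(.lf (nat_lit 219221) (.g (nat_lit 2285) (.e (nat_lit 90174) (nat_lit 14) (.e (nat_lit 180251) (nat_lit 10) (.e (nat_lit 573489) (nat_lit 14) (.e (nat_lit 73754) (nat_lit 8) (.e (nat_lit 557093) (nat_lit 12) (.e (nat_lit 164010) (nat_lit 41) (.e (nat_lit 663555) (nat_lit 0) (.e (nat_lit 1236) (nat_lit 91) .nil)))))))) (.g (nat_lit 4) .nil .nil)))) (.nd (nat_lit 6) 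
(.lf (nat_lit 219189) (.g (nat_lit 3488) (.e (nat_lit 90174) (nat_lit 14) (.e (nat_lit 180250) (nat_lit 10) (.e (nat_lit 573489) (nat_lit 14) (.e (nat_lit 73755) (nat_lit 8) (.e (nat_lit 557121) (nat_lit 18) (.e (nat_lit 7936) (nat_lit 157) (.e (nat_lit 5629) (nat_lit 312) (.e (nat_lit 100) (nat_lit 2) .nil)))))))) (.g (nat_lit 4) .nil .nil))) 
(.lf (nat_lit 219253) (.g (nat_lit 2972) (.e (nat_lit 90174) (nat_lit 14) (.e (nat_lit 180251) (nat_lit 10) (.e (nat_lit 573489) (nat_lit 14) (.e (nat_lit 73755) (nat_lit 8) (.e (nat_lit 557090) (nat_lit 12) .nil))))) .nil))))) (.nd (nat_lit 4) (.nd (nat_lit 5) (.nd (nat_lit 6) 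
(.lf (nat_lit 219149) (.g (nat_lit 2361) (.e (nat_lit 90174) (nat_lit 14) (.e (nat_lit 180250) (nat_lit 10) (.e (nat_lit 573489) (nat_lit 14) (.e (nat_lit 73755) (nat_lit 8) (.e (nat_lit 557089) (nat_lit 12) (.e (nat_lit 164008) (nat_lit 41) (.e (nat_lit 671488) (nat_lit 0) (.e (nat_lit 1238) (nat_lit 91) .nil)))))))) (.g (nat_lit 4) .nil .nil))) 
(.lf (nat_lit 219213) (.g (nat_lit 2318) (.e (nat_lit 90174) (nat_lit 14) (.e (nat_lit 180251) (nat_lit 10) (.e (nat_lit 573487) (nat_lit 14) (.e (nat_lit 73746) (nat_lit 3) (.e (nat_lit 516119) (nat_lit 1) .nil))))) .nil))) (.nd (nat_lit 6) 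
(.lf (nat_lit 219181) (.g (nat_lit 3480) (.e (nat_lit 90174) (nat_lit 14) (.e (nat_lit 180250) (nat_lit 10) (.e (nat_lit 573489) (nat_lit 14) (.e (nat_lit 73755) (nat_lit 8) (.e (nat_lit 557091) (nat_lit 12) (.e (nat_lit 164006) (nat_lit 41) (.e (nat_lit 671488) (nat_lit 0) (.e (nat_lit 1228) (nat_lit 91) .nil)))))))) (.g (nat_lit 5) .nil .nil))) 
(.lf (nat_lit 219245) (.g (nat_lit 3051) (.e (nat_lit 90174) (nat_lit 14) (.e (nat_lit 180251) (nat_lit 10) (.e (nat_lit 573489) (nat_lit 14) (.e (nat_lit 73755) (nat_lit 8) (.e (nat_lit 557089) (nat_lit 12) (.e (nat_lit 164007) (nat_lit 41) (.e (nat_lit 663560) (nat_lit 0) (.e (nat_lit 1236) (nat_lit 91) .nil)))))))) (.g (nat_lit 5) .nil .nil))))) (.nd (nat_lit 5) (.nd (nat_lit 6) 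
(.lf (nat_lit 219165) (.g (nat_lit 2645) (.e (nat_lit 90174) (nat_lit 14) (.e (nat_lit 180250) (nat_lit 10) (.e (nat_lit 573489) (nat_lit 14) (.e (nat_lit 73755) (nat_lit 8) (.e (nat_lit 557090) (nat_lit 12) (.e (nat_lit 164007) (nat_lit 41) (.e (nat_lit 663552) (nat_lit 0) (.e (nat_lit 1238) (nat_lit 91) .nil)))))))) (.g (nat_lit 4) .nil .nil))) 
(.lf (nat_lit 219229) (.g (nat_lit 1938) (.e (nat_lit 90174) (nat_lit 14) (.e (nat_lit 180251) (nat_lit 10) (.e (nat_lit 573489) (nat_lit 14) (.e (nat_lit 73755) (nat_lit 8) (.e (nat_lit 557089) (nat_lit 12) .nil))))) .nil))) (.nd (nat_lit 6) 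
(.lf (nat_lit 219197) (.g (nat_lit 2138) (.e (nat_lit 90174) (nat_lit 14) (.e (nat_lit 180251) (nat_lit 10) (.e (nat_lit 573484) (nat_lit 13) (.e (nat_lit 65553) (nat_lit 0) .nil)))) .nil)) 
(.lf (nat_lit 219261) (.g (nat_lit 3414) (.e (nat_lit 90174) (nat_lit 14) (.e (nat_lit 180251) (nat_lit 10) (.e (nat_lit 573489) (nat_lit 14) (.e (nat_lit 73755) (nat_lit 8) (.e (nat_lit 557090) (nat_lit 12) (.e (nat_lit 164007) (nat_lit 41) (.e (nat_lit 663554) (nat_lit 0) (.e (nat_lit 1233) (nat_lit 91) .nil)))))))) (.g (nat_lit 4) .nil .nil)))))))) 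
(.nd (nat_lit 2) (.nd (nat_lit 3) (.nd (nat_lit 4) (.nd (nat_lit 5) (.nd (nat_lit 6) 
(.lf (nat_lit 219139) (.g (nat_lit 2319) (.e (nat_lit 90174) (nat_lit 14) (.e (nat_lit 180250) (nat_lit 10) (.e (nat_lit 573489) (nat_lit 14) (.e (nat_lit 73755) (nat_lit 8) (.e (nat_lit 557089) (nat_lit 12) (.e (nat_lit 164006) (nat_lit 41) (.e (nat_lit 663559) (nat_lit 0) (.e (nat_lit 1236) (nat_lit 91) .nil)))))))) (.g (nat_lit 4) .nil .nil))) 
(.lf (nat_lit 219203) (.g (nat_lit 2874) (.e (nat_lit 90174) (nat_lit 14) (.e (nat_lit 180251) (nat_lit 10) (.e (nat_lit 573484) (nat_lit 13) (.e (nat_lit 65569) (nat_lit 3) (.e (nat_lit 98334) (nat_lit 18) .nil))))) .nil))) (.nd (nat_lit 6) 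
(.lf (nat_lit 219171) (.g (nat_lit 3182) (.e (nat_lit 90174) (nat_lit 14) (.e (nat_lit 180250) (nat_lit 10) (.e (nat_lit 573489) (nat_lit 14) (.e (nat_lit 73755) (nat_lit 8) (.e (nat_lit 557090) (nat_lit 12) (.e (nat_lit 164007) (nat_lit 41) (.e (nat_lit 671488) (nat_lit 0) (.e (nat_lit 1228) (nat_lit 91) .nil)))))))) (.g (nat_lit 4) .nil .nil))) 
(.lf (nat_lit 219235) (.g (nat_lit 3396) (.e (nat_lit 90174) (nat_lit 14) (.e (nat_lit 180251) (nat_lit 10) (.e (nat_lit 573489) (nat_lit 14) (.e (nat_lit 73755) (nat_lit 8) (.e (nat_lit 557089) (nat_lit 12) (.e (nat_lit 164006) (nat_lit 41) (.e (nat_lit 671488) (nat_lit 0) (.e (nat_lit 1227) (nat_lit 91) .nil)))))))) (.g (nat_lit 5) .nil .nil))))) (.nd (nat_lit 5) (.nd (nat_lit 6) 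
(.lf (nat_lit 219155) (.g (nat_lit 2985) (.e (nat_lit 90174) (nat_lit 14) (.e (nat_lit 180250) (nat_lit 10) (.e (nat_lit 573489) (nat_lit 14) (.e (nat_lit 73755) (nat_lit 8) (.e (nat_lit 557090) (nat_lit 12) (.e (nat_lit 163843) (nat_lit 0) (.e (nat_lit 5809) (nat_lit 320) (.e (nat_lit 999) (nat_lit 81) (.e (nat_lit 1239) (nat_lit 91) .nil))))))))) (.g (nat_lit 4) .nil .nil))) 
(.lf (nat_lit 219219) (.g (nat_lit 2070) (.e (nat_lit 90174) (nat_lit 14) (.e (nat_lit 180251) (nat_lit 10) (.e (nat_lit 573489) (nat_lit 14) (.e (nat_lit 73754) (nat_lit 8) (.e (nat_lit 557091) (nat_lit 12) .nil))))) .nil))) (.nd (nat_lit 6) 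
(.lf (nat_lit 219187) (.g (nat_lit 3780) (.e (nat_lit 90174) (nat_lit 14) (.e (nat_lit 180250) (nat_lit 10) (.e (nat_lit 573489) (nat_lit 14) (.e (nat_lit 73755) (nat_lit 8) (.e (nat_lit 557119) (nat_lit 18) (.e (nat_lit 2449) (nat_lit 157) (.e (nat_lit 5630) (nat_lit 312) (.e (nat_lit 100) (nat_lit 2) .nil)))))))) (.g (nat_lit 5) .nil .nil))) 
(.lf (nat_lit 219251) (.g (nat_lit 3463) (.e (nat_lit 90174) (nat_lit 14) (.e (nat_lit 180251) (nat_lit 10) (.e (nat_lit 573489) (nat_lit 14) (.e (nat_lit 73755) (nat_lit 8) (.e (nat_lit 557089) (nat_lit 12) (.e (nat_lit 164010) (nat_lit 41) (.e (nat_lit 663555) (nat_lit 0) (.e (nat_lit 1226) (nat_lit 91) .nil)))))))) (.g (nat_lit 5) .nil .nil)))))) 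
(.nd (nat_lit 4) (.nd (nat_lit 5) (.nd (nat_lit 6) 
(.lf (nat_lit 219147) (.g (nat_lit 2446) (.e (nat_lit 90174) (nat_lit 14) (.e (nat_lit 180250) (nat_lit 10) (.e (nat_lit 573489) (nat_lit 14) (.e (nat_lit 73755) (nat_lit 8) (.e (nat_lit 557089) (nat_lit 12) (.e (nat_lit 164007) (nat_lit 41) (.e (nat_lit 671488) (nat_lit 0) (.e (nat_lit 1227) (nat_lit 91) .nil)))))))) (.g (nat_lit 4) .nil .nil))) 
(.lf (nat_lit 219211) (.g (nat_lit 2574) (.e (nat_lit 90174) (nat_lit 14) (.e (nat_lit 180251) (nat_lit 10) (.e (nat_lit 573487) (nat_lit 14) (.e (nat_lit 73746) (nat_lit 3) (.e (nat_lit 516115) (nat_lit 1) (.e (nat_lit 171776) (nat_lit 160) (.e (nat_lit 57371) (nat_lit 2) .nil))))))) (.g (nat_lit 4) .nil .nil)))) (.nd (nat_lit 6) 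
(.lf (nat_lit 219179) (.g (nat_lit 3823) (.e (nat_lit 90174) (nat_lit 14) (.e (nat_lit 180250) (nat_lit 10) (.e (nat_lit 573489) (nat_lit 14) (.e (nat_lit 73755) (nat_lit 8) (.e (nat_lit 557091) (nat_lit 12) (.e (nat_lit 164005) (nat_lit 41) (.e (nat_lit 671488) (nat_lit 0) (.e (nat_lit 1238) (nat_lit 91) .nil)))))))) (.g (nat_lit 5) .nil .nil))) 
(.lf (nat_lit 219243) (.g (nat_lit 2630) (.e (nat_lit 90174) (nat_lit 14) (.e (nat_lit 180251) (nat_lit 10) (.e (nat_lit 573489) (nat_lit 14) (.e (nat_lit 73755) (nat_lit 8) (.e (nat_lit 557089) (nat_lit 12) (.e (nat_lit 164007) (nat_lit 41) (.e (nat_lit 663559) (nat_lit 0) (.e (nat_lit 1236) (nat_lit 91) .nil)))))))) (.g (nat_lit 4) .nil .nil))))) (.nd (nat_lit 5) (.nd (nat_lit 6) 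
(.lf (nat_lit 219163) (.g (nat_lit 2968) (.e (nat_lit 90174) (nat_lit 14) (.e (nat_lit 180250) (nat_lit 10) (.e (nat_lit 573489) (nat_lit 14) (.e (nat_lit 73755) (nat_lit 8) (.e (nat_lit 557090) (nat_lit 12) (.e (nat_lit 164007) (nat_lit 41) (.e (nat_lit 663552) (nat_lit 0) (.e (nat_lit 1234) (nat_lit 91) .nil)))))))) (.g (nat_lit 4) .nil .nil))) 
(.lf (nat_lit 219227) (.g (nat_lit 2296) (.e (nat_lit 90174) (nat_lit 14) (.e (nat_lit 180251) (nat_lit 10) (.e (nat_lit 573489) (nat_lit 14) (.e (nat_lit 73755) (nat_lit 8) (.e (nat_lit 557068) (nat_lit 9) .nil))))) .nil))) (.nd (nat_lit 6) 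
(.lf (nat_lit 219195) (.g (nat_lit 1668) (.e (nat_lit 90174) (nat_lit 14) (.e (nat_lit 180251) (nat_lit 10) (.e (nat_lit 573478) (nat_lit 12) (.e (nat_lit 57750) (nat_lit 201) (.e (nat_lit 7936) (nat_lit 3) .nil))))) .nil)) 
(.lf (nat_lit 219259) (.g (nat_lit 3793) (.e (nat_lit 90174) (nat_lit 14) (.e (nat_lit 180251) (nat_lit 10) (.e (nat_lit 573489) (nat_lit 14) (.e (nat_lit 73755) (nat_lit 8) (.e (nat_lit 557090) (nat_lit 12) (.e (nat_lit 164006) (nat_lit 41) (.e (nat_lit 663559) (nat_lit 0) (.e (nat_lit 1238) (nat_lit 91) .nil)))))))) (.g (nat_lit 4) .nil .nil))))))) 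
(.nd (nat_lit 3) (.nd (nat_lit 4) (.nd (nat_lit 5) (.nd (nat_lit 6) 
(.lf (nat_lit 219143) (.g (nat_lit 2205) (.e (nat_lit 90174) (nat_lit 14) (.e (nat_lit 180250) (nat_lit 10) (.e (nat_lit 573489) (nat_lit 14) (.e (nat_lit 73755) (nat_lit 8) (.e (nat_lit 557089) (nat_lit 12) (.e (nat_lit 164007) (nat_lit 41) (.e (nat_lit 663554) (nat_lit 0) (.e (nat_lit 1225) (nat_lit 91) .nil)))))))) (.g (nat_lit 4) .nil .nil))) 
(.lf (nat_lit 219207) (.g (nat_lit 1951) (.e (nat_lit 90174) (nat_lit 14) (.e (nat_lit 180251) (nat_lit 10) (.e (nat_lit 573485) (nat_lit 13) (.e (nat_lit 65568) (nat_lit 2) (.e (nat_lit 98048) (nat_lit 2) .nil))))) .nil))) (.nd (nat_lit 6) 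
(.lf (nat_lit 219175) (.g (nat_lit 3536) (.e (nat_lit 90174) (nat_lit 14) (.e (nat_lit 180250) (nat_lit 10) (.e (nat_lit 573489) (nat_lit 14) (.e (nat_lit 73755) (nat_lit 8) (.e (nat_lit 557090) (nat_lit 12) (.e (nat_lit 164010) (nat_lit 41) (.e (nat_lit 663555) (nat_lit 0) (.e (nat_lit 1236) (nat_lit 91) .nil)))))))) (.g (nat_lit 5) .nil .nil))) 
(.lf (nat_lit 219239) (.g (nat_lit 2433) (.e (nat_lit 90174) (nat_lit 14) (.e (nat_lit 180251) (nat_lit 10) (.e (nat_lit 573489) (nat_lit 14) (.e (nat_lit 73755) (nat_lit 8) (.e (nat_lit 557089) (nat_lit 12) (.e (nat_lit 164007) (nat_lit 41) (.e (nat_lit 663552) (nat_lit 0) (.e (nat_lit 1236) (nat_lit 91) .nil)))))))) (.g (nat_lit 4) .nil .nil))))) (.nd (nat_lit 5) (.nd (nat_lit 6) 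
(.lf (nat_lit 219159) (.g (nat_lit 3601) (.e (nat_lit 90174) (nat_lit 14) (.e (nat_lit 180250) (nat_lit 10) (.e (nat_lit 573489) (nat_lit 14) (.e (nat_lit 73755) (nat_lit 8) (.e (nat_lit 557090) (nat_lit 12) (.e (nat_lit 164006) (nat_lit 41) (.e (nat_lit 663554) (nat_lit 0) (.e (nat_lit 1233) (nat_lit 91) .nil)))))))) (.g (nat_lit 5) .nil .nil))) 
(.lf (nat_lit 219223) (.g (nat_lit 3330) (.e (nat_lit 90174) (nat_lit 14) (.e (nat_lit 180251) (nat_lit 10) (.e (nat_lit 573489) (nat_lit 14) (.e (nat_lit 73755) (nat_lit 8) (.e (nat_lit 557064) (nat_lit 9) .nil))))) .nil))) (.nd (nat_lit 6) 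
(.lf (nat_lit 219191) (.g (nat_lit 2132) (.e (nat_lit 90174) (nat_lit 14) (.e (nat_lit 180250) (nat_lit 10) (.e (nat_lit 573489) (nat_lit 14) (.e (nat_lit 73757) (nat_lit 11) (.e (nat_lit 581636) (nat_lit 0) .nil))))) .nil)) 
(.lf (nat_lit 219255) (.g (nat_lit 3040) (.e (nat_lit 90174) (nat_lit 14) (.e (nat_lit 180251) (nat_lit 10) (.e (nat_lit 573489) (nat_lit 14) (.e (nat_lit 73755) (nat_lit 8) (.e (nat_lit 557090) (nat_lit 12) (.e (nat_lit 163843) (nat_lit 0) (.e (nat_lit 5809) (nat_lit 320) (.e (nat_lit 999) (nat_lit 81) (.e (nat_lit 1239) (nat_lit 91) .nil))))))))) (.g (nat_lit 4) .nil .nil)))))) 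
(.nd (nat_lit 4) (.nd (nat_lit 5) (.nd (nat_lit 6) 
(.lf (nat_lit 219151) (.g (nat_lit 2795) (.e (nat_lit 90174) (nat_lit 14) (.e (nat_lit 180250) (nat_lit 10) (.e (nat_lit 573489) (nat_lit 14) (.e (nat_lit 73755) (nat_lit 8) (.e (nat_lit 557089) (nat_lit 12) (.e (nat_lit 164010) (nat_lit 41) (.e (nat_lit 663555) (nat_lit 0) (.e (nat_lit 1226) (nat_lit 91) .nil)))))))) (.g (nat_lit 4) .nil .nil))) 
(.lf (nat_lit 219215) (.g (nat_lit 2143) (.e (nat_lit 90174) (nat_lit 14) (.e (nat_lit 180251) (nat_lit 10) (.e (nat_lit 573489) (nat_lit 14) (.e (nat_lit 73731) (nat_lit 0) (.e (nat_lit 7936) (nat_lit 255) .nil))))) .nil))) (.nd (nat_lit 6) 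
(.lf (nat_lit 219183) (.g (nat_lit 2966) (.e (nat_lit 90174) (nat_lit 14) (.e (nat_lit 180250) (nat_lit 10) (.e (nat_lit 573489) (nat_lit 14) (.e (nat_lit 73755) (nat_lit 8) (.e (nat_lit 557091) (nat_lit 12) (.e (nat_lit 164007) (nat_lit 41) (.e (nat_lit 663560) (nat_lit 0) (.e (nat_lit 1234) (nat_lit 91) .nil)))))))) (.g (nat_lit 4) .nil .nil))) 
(.lf (nat_lit 219247) (.g (nat_lit 3364) (.e (nat_lit 90174) (nat_lit 14) (.e (nat_lit 180251) (nat_lit 10) (.e (nat_lit 573489) (nat_lit 14) (.e (nat_lit 73755) (nat_lit 8) (.e (nat_lit 557089) (nat_lit 12) (.e (nat_lit 164007) (nat_lit 41) (.e (nat_lit 671488) (nat_lit 0) (.e (nat_lit 1228) (nat_lit 91) .nil)))))))) (.g (nat_lit 5) .nil .nil))))) (.nd (nat_lit 5) (.nd (nat_lit 6) 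
(.lf (nat_lit 219167) (.g (nat_lit 3359) (.e (nat_lit 90174) (nat_lit 14) (.e (nat_lit 180250) (nat_lit 10) (.e (nat_lit 573489) (nat_lit 14) (.e (nat_lit 73755) (nat_lit 8) (.e (nat_lit 557090) (nat_lit 12) (.e (nat_lit 164007) (nat_lit 41) (.e (nat_lit 663554) (nat_lit 0) (.e (nat_lit 1233) (nat_lit 91) .nil)))))))) (.g (nat_lit 5) .nil .nil))) 
(.lf (nat_lit 219231) (.g (nat_lit 3587) (.e (nat_lit 90174) (nat_lit 14) (.e (nat_lit 180251) (nat_lit 10) (.e (nat_lit 573489) (nat_lit 14) (.e (nat_lit 73755) (nat_lit 8) (.e (nat_lit 557089) (nat_lit 12) (.e (nat_lit 164005) (nat_lit 41) (.e (nat_lit 671488) (nat_lit 0) (.e (nat_lit 1238) (nat_lit 91) .nil)))))))) (.g (nat_lit 5) .nil .nil)))) (.nd (nat_lit 6) 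
(.lf (nat_lit 219199) (.g (nat_lit 1635) (.e (nat_lit 90174) (nat_lit 14) (.e (nat_lit 180251) (nat_lit 10) (.e (nat_lit 573484) (nat_lit 13) (.e (nat_lit 65568) (nat_lit 2) .nil)))) .nil)) 
(.lf (nat_lit 219263) (.g (nat_lit 3235) (.e (nat_lit 90174) (nat_lit 14) (.e (nat_lit 180251) (nat_lit 10) (.e (nat_lit 573489) (nat_lit 14) (.e (nat_lit 73755) (nat_lit 8) (.e (nat_lit 557090) (nat_lit 12) (.e (nat_lit 164007) (nat_lit 41) (.e (nat_lit 663560) (nat_lit 0) (.e (nat_lit 1228) (nat_lit 91) .nil)))))))) (.g (nat_lit 4) .nil .nil))))))))))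

noncomputable def tv2881 : DT := (.nd (nat_lit 0) (.nd (nat_lit 1) (.nd (nat_lit 2) (.nd (nat_lit 3) (.nd (nat_lit 4) (.nd (nat_lit 5) 
(.lf (nat_lit 219264) (.g (nat_lit 3805) (.e (nat_lit 90174) (nat_lit 14) (.e (nat_lit 180251) (nat_lit 10) (.e (nat_lit 573489) (nat_lit 14) (.e (nat_lit 73755) (nat_lit 8) (.e (nat_lit 557090) (nat_lit 12) (.e (nat_lit 164007) (nat_lit 41) (.e (nat_lit 663560) (nat_lit 0) (.e (nat_lit 1234) (nat_lit 91) .nil)))))))) (.g (nat_lit 4) .nil .nil))) 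
(.lf (nat_lit 219296) (.g (nat_lit 3186) (.e (nat_lit 90174) (nat_lit 14) (.e (nat_lit 180251) (nat_lit 10) (.e (nat_lit 573489) (nat_lit 14) (.e (nat_lit 73755) (nat_lit 8) (.e (nat_lit 564992) (nat_lit 21) (.e (nat_lit 164353) (nat_lit 246) (.e (nat_lit 100) (nat_lit 2) .nil))))))) (.g (nat_lit 4) .nil .nil)))) (.nd (nat_lit 5) 
(.lf (nat_lit 219280) (.g (nat_lit 3301) (.e (nat_lit 90174) (nat_lit 14) (.e (nat_lit 180251) (nat_lit 10) (.e (nat_lit 573489) (nat_lit 14) (.e (nat_lit 73755) (nat_lit 8) (.e (nat_lit 557091) (nat_lit 12) (.e (nat_lit 164006) (nat_lit 41) (.e (nat_lit 671488) (nat_lit 0) (.e (nat_lit 1227) (nat_lit 91) .nil)))))))) (.g (nat_lit 5) .nil .nil))) 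
(.lf (nat_lit 219312) (.g (nat_lit 1728) (.e (nat_lit 90174) (nat_lit 14) (.e (nat_lit 180252) (nat_lit 10) (.e (nat_lit 573489) (nat_lit 14) (.e (nat_lit 73731) (nat_lit 0) .nil)))) .nil)))) (.nd (nat_lit 4) (.nd (nat_lit 5) 
(.lf (nat_lit 219272) (.g (nat_lit 2060) (.e (nat_lit 90174) (nat_lit 14) (.e (nat_lit 180251) (nat_lit 10) (.e (nat_lit 573489) (nat_lit 14) (.e (nat_lit 73755) (nat_lit 8) (.e (nat_lit 557091) (nat_lit 12) (.e (nat_lit 164005) (nat_lit 41) (.e (nat_lit 663559) (nat_lit 0) (.e (nat_lit 1236) (nat_lit 91) .nil)))))))) (.g (nat_lit 4) .nil .nil))) 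
(.lf (nat_lit 219304) (.g (nat_lit 2352) (.e (nat_lit 90174) (nat_lit 14) (.e (nat_lit 180252) (nat_lit 10) (.e (nat_lit 573474) (nat_lit 12) (.e (nat_lit 65280) (nat_lit 202) .nil)))) .nil))) (.nd (nat_lit 5) 
(.lf (nat_lit 219288) (.g (nat_lit 2726) (.e (nat_lit 90174) (nat_lit 14) (.e (nat_lit 180251) (nat_lit 10) (.e (nat_lit 573489) (nat_lit 14) (.e (nat_lit 73755) (nat_lit 8) (.e (nat_lit 557091) (nat_lit 12) (.e (nat_lit 164008) (nat_lit 41) (.e (nat_lit 663556) (nat_lit 0) (.e (nat_lit 1236) (nat_lit 91) .nil)))))))) (.g (nat_lit 5) .nil .nil))) 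
(.lf (nat_lit 219320) (.g (nat_lit 2079) (.e (nat_lit 90174) (nat_lit 14) (.e (nat_lit 180277) (nat_lit 32) (.e (nat_lit 1234) (nat_lit 91) (.e (nat_lit 90172) (nat_lit 14) (.e (nat_lit 188160) (nat_lit 32) .nil))))) .nil))))) (.nd (nat_lit 3) (.nd (nat_lit 4) (.nd (nat_lit 5) 
(.lf (nat_lit 219268) (.g (nat_lit 3591) (.e (nat_lit 90174) (nat_lit 14) (.e (nat_lit 180251) (nat_lit 10) (.e (nat_lit 573489) (nat_lit 14) (.e (nat_lit 73755) (nat_lit 8) (.e (nat_lit 557090) (nat_lit 12) (.e (nat_lit 164010) (nat_lit 41) (.e (nat_lit 663555) (nat_lit 0) (.e (nat_lit 1236) (nat_lit 91) .nil)))))))) (.g (nat_lit 4) .nil .nil))) 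
(.lf (nat_lit 219300) (.g (nat_lit 1607) (.e (nat_lit 90174) (nat_lit 14) (.e (nat_lit 180251) (nat_lit 10) (.e (nat_lit 573489) (nat_lit 14) (.e (nat_lit 81664) (nat_lit 10) .nil)))) .nil))) (.nd (nat_lit 5) 
(.lf (nat_lit 219284) (.g (nat_lit 3053) (.e (nat_lit 90174) (nat_lit 14) (.e (nat_lit 180251) (nat_lit 10) (.e (nat_lit 573489) (nat_lit 14) (.e (nat_lit 73755) (nat_lit 8) (.e (nat_lit 557091) (nat_lit 12) (.e (nat_lit 164007) (nat_lit 41) (.e (nat_lit 663560) (nat_lit 0) (.e (nat_lit 1228) (nat_lit 91) .nil)))))))) (.g (nat_lit 5) .nil .nil))) 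
(.lf (nat_lit 219316) (.g (nat_lit 3753) (.e (nat_lit 90174) (nat_lit 14) (.e (nat_lit 180252) (nat_lit 10) (.e (nat_lit 573489) (nat_lit 14) (.e (nat_lit 73755) (nat_lit 8) (.e (nat_lit 557090) (nat_lit 12) (.e (nat_lit 164005) (nat_lit 41) (.e (nat_lit 671488) (nat_lit 0) (.e (nat_lit 1238) (nat_lit 91) .nil)))))))) (.g (nat_lit 5) .nil .nil))))) (.nd (nat_lit 4) (.nd (nat_lit 5) 
(.lf (nat_lit 219276) (.g (nat_lit 2733) (.e (nat_lit 90174) (nat_lit 14) (.e (nat_lit 180251) (nat_lit 10) (.e (nat_lit 573489) (nat_lit 14) (.e (nat_lit 73755) (nat_lit 8) (.e (nat_lit 557091) (nat_lit 12) (.e (nat_lit 164005) (nat_lit 41) (.e (nat_lit 671488) (nat_lit 0) (.e (nat_lit 1228) (nat_lit 91) .nil)))))))) (.g (nat_lit 5) .nil .nil))) 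
(.lf (nat_lit 219308) (.g (nat_lit 2630) (.e (nat_lit 90174) (nat_lit 14) (.e (nat_lit 180252) (nat_lit 10) (.e (nat_lit 573482) (nat_lit 13) (.e (nat_lit 65568) (nat_lit 2) (.e (nat_lit 98048) (nat_lit 0) .nil))))) .nil))) (.nd (nat_lit 5) 
(.lf (nat_lit 219292) (.g (nat_lit 3628) (.e (nat_lit 90174) (nat_lit 14) (.e (nat_lit 180251) (nat_lit 10) (.e (nat_lit 573489) (nat_lit 14) (.e (nat_lit 73755) (nat_lit 8) (.e (nat_lit 557119) (nat_lit 18) (.e (nat_lit 2448) (nat_lit 157) (.e (nat_lit 5639) (nat_lit 312) (.e (nat_lit 100) (nat_lit 2) .nil)))))))) (.g (nat_lit 5) .nil .nil))) 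
(.lf (nat_lit 219324) (.g (nat_lit 896) (.e (nat_lit 90174) (nat_lit 14) (.e (nat_lit 180277) (nat_lit 32) (.e (nat_lit 1235) (nat_lit 91) (.e (nat_lit 90171) (nat_lit 14) .nil)))) .nil)))))) (.nd (nat_lit 2) (.nd (nat_lit 3) (.nd (nat_lit 4) (.nd (nat_lit 5) 
(.lf (nat_lit 219266) (.g (nat_lit 3170) (.e (nat_lit 90174) (nat_lit 14) (.e (nat_lit 180251) (nat_lit 10) (.e (nat_lit 573489) (nat_lit 14) (.e (nat_lit 73755) (nat_lit 8) (.e (nat_lit 557090) (nat_lit 12) (.e (nat_lit 164007) (nat_lit 41) (.e (nat_lit 671488) (nat_lit 0) (.e (nat_lit 1228) (nat_lit 91) .nil)))))))) (.g (nat_lit 4) .nil .nil))) 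
(.lf (nat_lit 219298) (.g (nat_lit 3533) (.e (nat_lit 90174) (nat_lit 14) (.e (nat_lit 180251) (nat_lit 10) (.e (nat_lit 573489) (nat_lit 14) (.e (nat_lit 73755) (nat_lit 8) (.e (nat_lit 564992) (nat_lit 21) (.e (nat_lit 164356) (nat_lit 246) (.e (nat_lit 100) (nat_lit 2) .nil))))))) (.g (nat_lit 4) .nil .nil)))) (.nd (nat_lit 5) 
(.lf (nat_lit 219282) (.g (nat_lit 3081) (.e (nat_lit 90174) (nat_lit 14) (.e (nat_lit 180251) (nat_lit 10) (.e (nat_lit 573489) (nat_lit 14) (.e (nat_lit 73755) (nat_lit 8) (.e (nat_lit 557091) (nat_lit 12) (.e (nat_lit 164007) (nat_lit 41) (.e (nat_lit 663554) (nat_lit 0) (.e (nat_lit 1233) (nat_lit 91) .nil)))))))) (.g (nat_lit 5) .nil .nil))) 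
(.lf (nat_lit 219314) (.g (nat_lit 2044) (.e (nat_lit 90174) (nat_lit 14) (.e (nat_lit 180252) (nat_lit 10) (.e (nat_lit 573489) (nat_lit 14) (.e (nat_lit 73755) (nat_lit 8) (.e (nat_lit 557090) (nat_lit 12) .nil))))) .nil)))) (.nd (nat_lit 4) (.nd (nat_lit 5) 
(.lf (nat_lit 219274) (.g (nat_lit 2184) (.e (nat_lit 90174) (nat_lit 14) (.e (nat_lit 180251) (nat_lit 10) (.e (nat_lit 573489) (nat_lit 14) (.e (nat_lit 73755) (nat_lit 8) (.e (nat_lit 557091) (nat_lit 12) (.e (nat_lit 164005) (nat_lit 41) (.e (nat_lit 663560) (nat_lit 0) (.e (nat_lit 1236) (nat_lit 91) .nil)))))))) (.g (nat_lit 4) .nil .nil))) 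
(.lf (nat_lit 219306) (.g (nat_lit 804) (.e (nat_lit 90174) (nat_lit 14) (.e (nat_lit 180252) (nat_lit 10) (.e (nat_lit 573481) (nat_lit 13) .nil))) .nil))) (.nd (nat_lit 5) 
(.lf (nat_lit 219290) (.g (nat_lit 3090) (.e (nat_lit 90174) (nat_lit 14) (.e (nat_lit 180251) (nat_lit 10) (.e (nat_lit 573489) (nat_lit 14) (.e (nat_lit 73755) (nat_lit 8) (.e (nat_lit 557111) (nat_lit 16) .nil))))) .nil)) 
(.lf (nat_lit 219322) (.g (nat_lit 2049) (.e (nat_lit 90174) (nat_lit 14) (.e (nat_lit 180277) (nat_lit 32) (.e (nat_lit 1235) (nat_lit 91) (.e (nat_lit 90134) (nat_lit 9) (.e (nat_lit 140) (nat_lit 8) (.e (nat_lit 147494) (nat_lit 11) (.e (nat_lit 24603) (nat_lit 2) .nil))))))) (.g (nat_lit 4) .nil .nil)))))) (.nd (nat_lit 3) (.nd (nat_lit 4) (.nd (nat_lit 5) 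
(.lf (nat_lit 219270) (.g (nat_lit 3250) (.e (nat_lit 90174) (nat_lit 14) (.e (nat_lit 180251) (nat_lit 10) (.e (nat_lit 573489) (nat_lit 14) (.e (nat_lit 73755) (nat_lit 8) (.e (nat_lit 557091) (nat_lit 12) (.e (nat_lit 164004) (nat_lit 41) (.e (nat_lit 671488) (nat_lit 0) (.e (nat_lit 1238) (nat_lit 91) .nil)))))))) (.g (nat_lit 5) .nil .nil))) 
(.lf (nat_lit 219302) (.g (nat_lit 775) (.e (nat_lit 90174) (nat_lit 14) (.e (nat_lit 180252) (nat_lit 10) (.e (nat_lit 573474) (nat_lit 12) .nil))) .nil))) (.nd (nat_lit 5) 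
(.lf (nat_lit 219286) (.g (nat_lit 2789) (.e (nat_lit 90174) (nat_lit 14) (.e (nat_lit 180251) (nat_lit 10) (.e (nat_lit 573489) (nat_lit 14) (.e (nat_lit 73755) (nat_lit 8) (.e (nat_lit 557091) (nat_lit 12) (.e (nat_lit 164007) (nat_lit 41) (.e (nat_lit 671488) (nat_lit 0) (.e (nat_lit 1227) (nat_lit 91) .nil)))))))) (.g (nat_lit 5) .nil .nil))) 
(.lf (nat_lit 219318) (.g (nat_lit 3108) (.e (nat_lit 90174) (nat_lit 14) (.e (nat_lit 180252) (nat_lit 10) (.e (nat_lit 573489) (nat_lit 14) (.e (nat_lit 73755) (nat_lit 8) (.e (nat_lit 557111) (nat_lit 16) .nil))))) .nil)))) (.nd (nat_lit 4) (.nd (nat_lit 5) 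
(.lf (nat_lit 219278) (.g (nat_lit 2890) (.e (nat_lit 90174) (nat_lit 14) (.e (nat_lit 180251) (nat_lit 10) (.e (nat_lit 573489) (nat_lit 14) (.e (nat_lit 73755) (nat_lit 8) (.e (nat_lit 557091) (nat_lit 12) (.e (nat_lit 164006) (nat_lit 41) (.e (nat_lit 663554) (nat_lit 0) (.e (nat_lit 1233) (nat_lit 91) .nil)))))))) (.g (nat_lit 5) .nil .nil))) 
(.lf (nat_lit 219310) (.g (nat_lit 1761) (.e (nat_lit 90174) (nat_lit 14) (.e (nat_lit 180252) (nat_lit 10) (.e (nat_lit 573482) (nat_lit 13) (.e (nat_lit 73472) (nat_lit 18) .nil)))) .nil))) (.nd (nat_lit 5) 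
(.lf (nat_lit 219294) (.g (nat_lit 3544) (.e (nat_lit 90174) (nat_lit 14) (.e (nat_lit 180251) (nat_lit 10) (.e (nat_lit 573489) (nat_lit 14) (.e (nat_lit 73755) (nat_lit 8) (.e (nat_lit 557121) (nat_lit 18) (.e (nat_lit 2505) (nat_lit 157) (.e (nat_lit 5629) (nat_lit 312) (.e (nat_lit 100) (nat_lit 2) .nil)))))))) (.g (nat_lit 4) .nil .nil))) 
(.lf (nat_lit 219326) (.g (nat_lit 409) (.e (nat_lit 90174) (nat_lit 14) (.e (nat_lit 180277) (nat_lit 32) (.e (nat_lit 1252) (nat_lit 92) .nil))) .nil))))))) (.nd (nat_lit 1) (.nd (nat_lit 2) (.nd (nat_lit 3) (.nd (nat_lit 4) (.nd (nat_lit 5) 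
(.lf (nat_lit 219265) (.g (nat_lit 2980) (.e (nat_lit 90174) (nat_lit 14) (.e (nat_lit 180251) (nat_lit 10) (.e (nat_lit 573489) (nat_lit 14) (.e (nat_lit 73755) (nat_lit 8) (.e (nat_lit 557090) (nat_lit 12) (.e (nat_lit 164007) (nat_lit 41) (.e (nat_lit 663560) (nat_lit 0) (.e (nat_lit 1236) (nat_lit 91) .nil)))))))) (.g (nat_lit 4) .nil .nil))) 
(.lf (nat_lit 219297) (.g (nat_lit 3015) (.e (nat_lit 90174) (nat_lit 14) (.e (nat_lit 180251) (nat_lit 10) (.e (nat_lit 573489) (nat_lit 14) (.e (nat_lit 73755) (nat_lit 8) (.e (nat_lit 564992) (nat_lit 21) (.e (nat_lit 164354) (nat_lit 246) (.e (nat_lit 100) (nat_lit 2) .nil))))))) (.g (nat_lit 4) .nil .nil)))) (.nd (nat_lit 5) 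
(.lf (nat_lit 219281) (.g (nat_lit 2171) (.e (nat_lit 90174) (nat_lit 14) (.e (nat_lit 180251) (nat_lit 10) (.e (nat_lit 573489) (nat_lit 14) (.e (nat_lit 73755) (nat_lit 8) (.e (nat_lit 557091) (nat_lit 12) (.e (nat_lit 164007) (nat_lit 41) (.e (nat_lit 663552) (nat_lit 0) (.e (nat_lit 1236) (nat_lit 91) .nil)))))))) (.g (nat_lit 4) .nil .nil))) 
(.lf (nat_lit 219313) (.g (nat_lit 1684) (.e (nat_lit 90174) (nat_lit 14) (.e (nat_lit 180252) (nat_lit 10) (.e (nat_lit 573489) (nat_lit 14) (.e (nat_lit 73754) (nat_lit 8) .nil)))) .nil)))) (.nd (nat_lit 4) (.nd (nat_lit 5) 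
(.lf (nat_lit 219273) (.g (nat_lit 2439) (.e (nat_lit 90174) (nat_lit 14) (.e (nat_lit 180251) (nat_lit 10) (.e (nat_lit 573489) (nat_lit 14) (.e (nat_lit 73755) (nat_lit 8) (.e (nat_lit 557091) (nat_lit 12) (.e (nat_lit 164005) (nat_lit 41) (.e (nat_lit 663560) (nat_lit 0) (.e (nat_lit 1228) (nat_lit 91) .nil)))))))) (.g (nat_lit 4) .nil .nil))) 
(.lf (nat_lit 219305) (.g (nat_lit 842) (.e (nat_lit 90174) (nat_lit 14) (.e (nat_lit 180252) (nat_lit 10) (.e (nat_lit 573480) (nat_lit 13) .nil))) .nil))) (.nd (nat_lit 5) 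
(.lf (nat_lit 219289) (.g (nat_lit 2787) (.e (nat_lit 90174) (nat_lit 14) (.e (nat_lit 180251) (nat_lit 10) (.e (nat_lit 573489) (nat_lit 14) (.e (nat_lit 73755) (nat_lit 8) (.e (nat_lit 557091) (nat_lit 12) (.e (nat_lit 164008) (nat_lit 41) (.e (nat_lit 671488) (nat_lit 0) (.e (nat_lit 1228) (nat_lit 91) .nil)))))))) (.g (nat_lit 5) .nil .nil))) 
(.lf (nat_lit 219321) (.g (nat_lit 320) (.e (nat_lit 90174) (nat_lit 14) (.e (nat_lit 180277) (nat_lit 32) (.e (nat_lit 1235) (nat_lit 91) .nil))) .nil))))) (.nd (nat_lit 3) (.nd (nat_lit 4) (.nd (nat_lit 5) 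
(.lf (nat_lit 219269) (.g (nat_lit 1523) (.e (nat_lit 90174) (nat_lit 14) (.e (nat_lit 180251) (nat_lit 10) (.e (nat_lit 573489) (nat_lit 14) (.e (nat_lit 73755) (nat_lit 8) (.e (nat_lit 557091) (nat_lit 12) .nil))))) .nil)) 
(.lf (nat_lit 219301) (.g (nat_lit 2168) (.e (nat_lit 90174) (nat_lit 14) (.e (nat_lit 180251) (nat_lit 10) (.e (nat_lit 573489) (nat_lit 14) (.e (nat_lit 73757) (nat_lit 11) (.e (nat_lit 581636) (nat_lit 0) .nil))))) .nil))) (.nd (nat_lit 5) 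
(.lf (nat_lit 219285) (.g (nat_lit 2798) (.e (nat_lit 90174) (nat_lit 14) (.e (nat_lit 180251) (nat_lit 10) (.e (nat_lit 573489) (nat_lit 14) (.e (nat_lit 73755) (nat_lit 8) (.e (nat_lit 557091) (nat_lit 12) (.e (nat_lit 164007) (nat_lit 41) (.e (nat_lit 663560) (nat_lit 0) (.e (nat_lit 1236) (nat_lit 91) .nil)))))))) (.g (nat_lit 5) .nil .nil))) 
(.lf (nat_lit 219317) (.g (nat_lit 3962) (.e (nat_lit 90174) (nat_lit 14) (.e (nat_lit 180252) (nat_lit 10) (.e (nat_lit 573489) (nat_lit 14) (.e (nat_lit 73755) (nat_lit 8) (.e (nat_lit 557090) (nat_lit 12) (.e (nat_lit 164008) (nat_lit 41) (.e (nat_lit 671488) (nat_lit 0) (.e (nat_lit 1238) (nat_lit 91) .nil)))))))) (.g (nat_lit 5) .nil .nil))))) (.nd (nat_lit 4) (.nd (nat_lit 5) 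
(.lf (nat_lit 219277) (.g (nat_lit 2356) (.e (nat_lit 90174) (nat_lit 14) (.e (nat_lit 180251) (nat_lit 10) (.e (nat_lit 573489) (nat_lit 14) (.e (nat_lit 73755) (nat_lit 8) (.e (nat_lit 557091) (nat_lit 12) (.e (nat_lit 164006) (nat_lit 41) (.e (nat_lit 663554) (nat_lit 0) (.e (nat_lit 1225) (nat_lit 91) .nil)))))))) (.g (nat_lit 4) .nil .nil))) 
(.lf (nat_lit 219309) (.g (nat_lit 2727) (.e (nat_lit 90174) (nat_lit 14) (.e (nat_lit 180252) (nat_lit 10) (.e (nat_lit 573482) (nat_lit 13) (.e (nat_lit 65568) (nat_lit 2) (.e (nat_lit 90165) (nat_lit 12) .nil))))) .nil))) (.nd (nat_lit 5) 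
(.lf (nat_lit 219293) (.g (nat_lit 3790) (.e (nat_lit 90174) (nat_lit 14) (.e (nat_lit 180251) (nat_lit 10) (.e (nat_lit 573489) (nat_lit 14) (.e (nat_lit 73755) (nat_lit 8) (.e (nat_lit 557119) (nat_lit 18) (.e (nat_lit 2449) (nat_lit 157) (.e (nat_lit 5630) (nat_lit 312) (.e (nat_lit 100) (nat_lit 2) .nil)))))))) (.g (nat_lit 5) .nil .nil))) 
(.lf (nat_lit 219325) (.g (nat_lit 2852) (.e (nat_lit 90174) (nat_lit 14) (.e (nat_lit 180277) (nat_lit 32) (.e (nat_lit 1235) (nat_lit 91) (.e (nat_lit 90174) (nat_lit 14) (.e (nat_lit 180277) (nat_lit 32) (.e (nat_lit 1235) (nat_lit 91) .nil)))))) (.g (nat_lit 0) .nil .nil))))))) (.nd (nat_lit 2) (.nd (nat_lit 3) (.nd (nat_lit 4) (.nd (nat_lit 5) 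
(.lf (nat_lit 219267) (.g (nat_lit 3523) (.e (nat_lit 90174) (nat_lit 14) (.e (nat_lit 180251) (nat_lit 10) (.e (nat_lit 573489) (nat_lit 14) (.e (nat_lit 73755) (nat_lit 8) (.e (nat_lit 557090) (nat_lit 12) (.e (nat_lit 164008) (nat_lit 41) (.e (nat_lit 663556) (nat_lit 0) (.e (nat_lit 1234) (nat_lit 91) .nil)))))))) (.g (nat_lit 4) .nil .nil))) 
(.lf (nat_lit 219299) (.g (nat_lit 3456) (.e (nat_lit 90174) (nat_lit 14) (.e (nat_lit 180251) (nat_lit 10) (.e (nat_lit 573489) (nat_lit 14) (.e (nat_lit 73755) (nat_lit 8) (.e (nat_lit 564992) (nat_lit 21) (.e (nat_lit 164358) (nat_lit 246) (.e (nat_lit 100) (nat_lit 2) .nil))))))) (.g (nat_lit 4) .nil .nil)))) (.nd (nat_lit 5) 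
(.lf (nat_lit 219283) (.g (nat_lit 2399) (.e (nat_lit 90174) (nat_lit 14) (.e (nat_lit 180251) (nat_lit 10) (.e (nat_lit 573489) (nat_lit 14) (.e (nat_lit 73755) (nat_lit 8) (.e (nat_lit 557091) (nat_lit 12) (.e (nat_lit 164007) (nat_lit 41) (.e (nat_lit 663559) (nat_lit 0) (.e (nat_lit 1236) (nat_lit 91) .nil)))))))) (.g (nat_lit 4) .nil .nil))) 
(.lf (nat_lit 219315) (.g (nat_lit 3748) (.e (nat_lit 90174) (nat_lit 14) (.e (nat_lit 180252) (nat_lit 10) (.e (nat_lit 573489) (nat_lit 14) (.e (nat_lit 73755) (nat_lit 8) (.e (nat_lit 557090) (nat_lit 12) (.e (nat_lit 164004) (nat_lit 41) (.e (nat_lit 671488) (nat_lit 0) (.e (nat_lit 1238) (nat_lit 91) .nil)))))))) (.g (nat_lit 5) .nil .nil))))) (.nd (nat_lit 4) (.nd (nat_lit 5) 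
(.lf (nat_lit 219275) (.g (nat_lit 3325) (.e (nat_lit 90174) (nat_lit 14) (.e (nat_lit 180251) (nat_lit 10) (.e (nat_lit 573489) (nat_lit 14) (.e (nat_lit 73755) (nat_lit 8) (.e (nat_lit 557091) (nat_lit 12) (.e (nat_lit 164005) (nat_lit 41) (.e (nat_lit 663560) (nat_lit 0) (.e (nat_lit 1238) (nat_lit 91) .nil)))))))) (.g (nat_lit 5) .nil .nil))) 
(.lf (nat_lit 219307) (.g (nat_lit 1391) (.e (nat_lit 90174) (nat_lit 14) (.e (nat_lit 180252) (nat_lit 10) (.e (nat_lit 573481) (nat_lit 13) (.e (nat_lit 65568) (nat_lit 2) .nil)))) .nil))) (.nd (nat_lit 5) 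
(.lf (nat_lit 219291) (.g (nat_lit 1946) (.e (nat_lit 90174) (nat_lit 14) (.e (nat_lit 180251) (nat_lit 10) (.e (nat_lit 573489) (nat_lit 14) (.e (nat_lit 73755) (nat_lit 8) (.e (nat_lit 557119) (nat_lit 18) .nil))))) .nil)) 
(.lf (nat_lit 219323) (.g (nat_lit 1587) (.e (nat_lit 90174) (nat_lit 14) (.e (nat_lit 180277) (nat_lit 32) (.e (nat_lit 1235) (nat_lit 91) (.e (nat_lit 90134) (nat_lit 9) (.e (nat_lit 2842) (nat_lit 184) .nil))))) .nil))))) (.nd (nat_lit 3) (.nd (nat_lit 4) (.nd (nat_lit 5) 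
(.lf (nat_lit 219271) (.g (nat_lit 2265) (.e (nat_lit 90174) (nat_lit 14) (.e (nat_lit 180251) (nat_lit 10) (.e (nat_lit 573489) (nat_lit 14) (.e (nat_lit 73755) (nat_lit 8) (.e (nat_lit 557091) (nat_lit 12) (.e (nat_lit 164005) (nat_lit 41) (.e (nat_lit 663554) (nat_lit 0) (.e (nat_lit 1233) (nat_lit 91) .nil)))))))) (.g (nat_lit 4) .nil .nil))) 
(.lf (nat_lit 219303) (.g (nat_lit 2312) (.e (nat_lit 90174) (nat_lit 14) (.e (nat_lit 180252) (nat_lit 10) (.e (nat_lit 573474) (nat_lit 12) (.e (nat_lit 57516) (nat_lit 42) (.e (nat_lit 671748) (nat_lit 0) .nil))))) .nil))) (.nd (nat_lit 5) 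
(.lf (nat_lit 219287) (.g (nat_lit 3039) (.e (nat_lit 90174) (nat_lit 14) (.e (nat_lit 180251) (nat_lit 10) (.e (nat_lit 573489) (nat_lit 14) (.e (nat_lit 73755) (nat_lit 8) (.e (nat_lit 557091) (nat_lit 12) (.e (nat_lit 164007) (nat_lit 41) (.e (nat_lit 671488) (nat_lit 0) (.e (nat_lit 1228) (nat_lit 91) .nil)))))))) (.g (nat_lit 5) .nil .nil))) 
(.lf (nat_lit 219319) (.g (nat_lit 148) (.e (nat_lit 90174) (nat_lit 14) (.e (nat_lit 180263) (nat_lit 21) (.e (nat_lit 663584) (nat_lit 12) .nil))) .nil)))) (.nd (nat_lit 4) (.nd (nat_lit 5) 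
(.lf (nat_lit 219279) (.g (nat_lit 2984) (.e (nat_lit 90174) (nat_lit 14) (.e (nat_lit 180251) (nat_lit 10) (.e (nat_lit 573489) (nat_lit 14) (.e (nat_lit 73755) (nat_lit 8) (.e (nat_lit 557091) (nat_lit 12) (.e (nat_lit 164006) (nat_lit 41) (.e (nat_lit 663559) (nat_lit 0) (.e (nat_lit 1236) (nat_lit 91) .nil)))))))) (.g (nat_lit 5) .nil .nil))) 
(.lf (nat_lit 219311) (.g (nat_lit 1696) (.e (nat_lit 90174) (nat_lit 14) (.e (nat_lit 180252) (nat_lit 10) (.e (nat_lit 573487) (nat_lit 14) (.e (nat_lit 73753) (nat_lit 8) .nil)))) .nil))) (.nd (nat_lit 5) 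
(.lf (nat_lit 219295) (.g (nat_lit 3760) (.e (nat_lit 90174) (nat_lit 14) (.e (nat_lit 180251) (nat_lit 10) (.e (nat_lit 573489) (nat_lit 14) (.e (nat_lit 73755) (nat_lit 8) (.e (nat_lit 557121) (nat_lit 18) (.e (nat_lit 7936) (nat_lit 157) (.e (nat_lit 5629) (nat_lit 312) (.e (nat_lit 100) (nat_lit 2) .nil)))))))) (.g (nat_lit 4) .nil .nil))) 
(.lf (nat_lit 219327) (.g (nat_lit 1676) (.e (nat_lit 90174) (nat_lit 14) (.e (nat_lit 180277) (nat_lit 32) (.e (nat_lit 1252) (nat_lit 92) (.e (nat_lit 98350) (nat_lit 24) (.e (nat_lit 417536) (nat_lit 6) .nil))))) .nil))))))))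

noncomputable def tv2882 : DT := (.nd (nat_lit 0) (.nd (nat_lit 1) (.nd (nat_lit 2) (.nd (nat_lit 3) (.nd (nat_lit 4) (.nd (nat_lit 5) 
(.lf (nat_lit 219328) (.g (nat_lit 698) (.e (nat_lit 90174) (nat_lit 14) (.e (nat_lit 180277) (nat_lit 32) (.e (nat_lit 1252) (nat_lit 92) (.e (nat_lit 98351) (nat_lit 25) .nil)))) .nil)) 
(.lf (nat_lit 219360) (.g (nat_lit 1700) (.e (nat_lit 90176) (nat_lit 15) (.e (nat_lit 188420) (nat_lit 0) (.e (nat_lit 1856) (nat_lit 124) (.e (nat_lit 557104) (nat_lit 14) (.e (nat_lit 188160) (nat_lit 32) .nil))))) .nil))) (.nd (nat_lit 5) 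
(.lf (nat_lit 219344) (.g (nat_lit 1576) (.e (nat_lit 90175) (nat_lit 15) (.e (nat_lit 188452) (nat_lit 23) (.e (nat_lit 204884) (nat_lit 33) (.e (nat_lit 401460) (nat_lit 14) .nil)))) .nil)) 
(.lf (nat_lit 219376) (.g (nat_lit 2100) (.e (nat_lit 90176) (nat_lit 15) (.e (nat_lit 188423) (nat_lit 11) (.e (nat_lit 335996) (nat_lit 1) (.e (nat_lit 57692) (nat_lit 156) (.e (nat_lit 163906) (nat_lit 12) .nil))))) .nil)))) (.nd (nat_lit 4) (.nd (nat_lit 5) 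
(.lf (nat_lit 219336) (.g (nat_lit 2821) (.e (nat_lit 90175) (nat_lit 15) (.e (nat_lit 188440) (nat_lit 20) (.e (nat_lit 3307) (nat_lit 202) (.e (nat_lit 573477) (nat_lit 12) (.e (nat_lit 57574) (nat_lit 55) .nil))))) .nil)) 
(.lf (nat_lit 219368) (.g (nat_lit 244) (.e (nat_lit 90176) (nat_lit 15) (.e (nat_lit 188421) (nat_lit 11) (.e (nat_lit 336387) (nat_lit 27) .nil))) .nil))) (.nd (nat_lit 5) 
(.lf (nat_lit 219352) (.g (nat_lit 2565) (.e (nat_lit 90176) (nat_lit 15) (.e (nat_lit 188420) (nat_lit 0) (.e (nat_lit 1800) (nat_lit 119) (.e (nat_lit 516131) (nat_lit 3) (.e (nat_lit 221194) (nat_lit 11) (.e (nat_lit 336012) (nat_lit 2) .nil)))))) (.g (nat_lit 0) .nil .nil))) 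
(.lf (nat_lit 219384) (.g (nat_lit 104) (.e (nat_lit 90176) (nat_lit 15) (.e (nat_lit 188423) (nat_lit 11) (.e (nat_lit 336387) (nat_lit 27) .nil))) .nil))))) (.nd (nat_lit 3) (.nd (nat_lit 4) (.nd (nat_lit 5) 
(.lf (nat_lit 219332) (.g (nat_lit 1497) (.e (nat_lit 90174) (nat_lit 14) (.e (nat_lit 188160) (nat_lit 33) (.e (nat_lit 8228) (nat_lit 15) (.e (nat_lit 532501) (nat_lit 1) (.e (nat_lit 57730) (nat_lit 181) (.e (nat_lit 1297) (nat_lit 96) (.e (nat_lit 131094) (nat_lit 2) .nil))))))) (.g (nat_lit 4) .nil .nil))) 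
(.lf (nat_lit 219364) (.g (nat_lit 797) (.e (nat_lit 90176) (nat_lit 15) (.e (nat_lit 196352) (nat_lit 9) (.e (nat_lit 319521) (nat_lit 13) (.e (nat_lit 49188) (nat_lit 11) (.e (nat_lit 24320) (nat_lit 17) .nil))))) (.g (nat_lit 4) .nil .nil)))) (.nd (nat_lit 5) 
(.lf (nat_lit 219348) (.g (nat_lit 331) (.e (nat_lit 90176) (nat_lit 15) (.e (nat_lit 188418) (nat_lit 0) (.e (nat_lit 1798) (nat_lit 119) .nil))) .nil)) 
(.lf (nat_lit 219380) (.g (nat_lit 1564) (.e (nat_lit 90176) (nat_lit 15) (.e (nat_lit 188423) (nat_lit 11) (.e (nat_lit 336288) (nat_lit 15) (.e (nat_lit 7098) (nat_lit 380) (.e (nat_lit 164352) (nat_lit 246) (.e (nat_lit 98) (nat_lit 2) .nil)))))) (.g (nat_lit 4) .nil .nil))))) (.nd (nat_lit 4) (.nd (nat_lit 5) 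
(.lf (nat_lit 219340) (.g (nat_lit 1023) (.e (nat_lit 90175) (nat_lit 15) (.e (nat_lit 188449) (nat_lit 22) (.e (nat_lit 196670) (nat_lit 14) .nil))) .nil)) 
(.lf (nat_lit 219372) (.g (nat_lit 1895) (.e (nat_lit 90176) (nat_lit 15) (.e (nat_lit 188423) (nat_lit 11) (.e (nat_lit 335988) (nat_lit 1) (.e (nat_lit 57692) (nat_lit 156) (.e (nat_lit 163907) (nat_lit 12) .nil))))) .nil))) (.nd (nat_lit 5) 
(.lf (nat_lit 219356) (.g (nat_lit 3444) (.e (nat_lit 90176) (nat_lit 15) (.e (nat_lit 188420) (nat_lit 0) (.e (nat_lit 1856) (nat_lit 124) (.e (nat_lit 557100) (nat_lit 13) (.e (nat_lit 172124) (nat_lit 14) (.e (nat_lit 491537) (nat_lit 2) .nil)))))) (.g (nat_lit 0) .nil .nil))) 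
(.lf (nat_lit 219388) (.g (nat_lit 2447) (.e (nat_lit 90176) (nat_lit 15) (.e (nat_lit 188423) (nat_lit 11) (.e (nat_lit 336387) (nat_lit 27) (.e (nat_lit 426100) (nat_lit 1) (.e (nat_lit 164400) (nat_lit 256) (.e (nat_lit 57372) (nat_lit 2) .nil)))))) (.g (nat_lit 0) .nil .nil))))))) (.nd (nat_lit 2) (.nd (nat_lit 3) (.nd (nat_lit 4) (.nd (nat_lit 5) 
(.lf (nat_lit 219330) (.g (nat_lit 2014) (.e (nat_lit 90174) (nat_lit 14) (.e (nat_lit 180277) (nat_lit 32) (.e (nat_lit 1253) (nat_lit 92) (.e (nat_lit 98350) (nat_lit 24) (.e (nat_lit 409603) (nat_lit 0) (.e (nat_lit 5293) (nat_lit 298) (.e (nat_lit 1232) (nat_lit 91) .nil))))))) (.g (nat_lit 4) .nil .nil))) 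
(.lf (nat_lit 219362) (.g (nat_lit 3067) (.e (nat_lit 90176) (nat_lit 15) (.e (nat_lit 188420) (nat_lit 0) (.e (nat_lit 1856) (nat_lit 124) (.e (nat_lit 557105) (nat_lit 14) (.e (nat_lit 180278) (nat_lit 32) (.e (nat_lit 1234) (nat_lit 91) .nil)))))) (.g (nat_lit 6) .nil .nil)))) (.nd (nat_lit 5) 
(.lf (nat_lit 219346) (.g (nat_lit 578) (.e (nat_lit 90175) (nat_lit 15) (.e (nat_lit 188461) (nat_lit 26) (.e (nat_lit 261888) (nat_lit 4) .nil))) .nil)) 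
(.lf (nat_lit 219378) (.g (nat_lit 2563) (.e (nat_lit 90176) (nat_lit 15) (.e (nat_lit 188423) (nat_lit 11) (.e (nat_lit 336288) (nat_lit 15) (.e (nat_lit 7096) (nat_lit 380) (.e (nat_lit 164358) (nat_lit 246) (.e (nat_lit 100) (nat_lit 2) .nil)))))) (.g (nat_lit 6) .nil .nil))))) (.nd (nat_lit 4) (.nd (nat_lit 5) 
(.lf (nat_lit 219338) (.g (nat_lit 1088) (.e (nat_lit 90175) (nat_lit 15) (.e (nat_lit 188449) (nat_lit 22) (.e (nat_lit 196617) (nat_lit 9) .nil))) .nil)) 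
(.lf (nat_lit 219370) (.g (nat_lit 1218) (.e (nat_lit 90176) (nat_lit 15) (.e (nat_lit 188423) (nat_lit 11) (.e (nat_lit 335986) (nat_lit 1) (.e (nat_lit 57692) (nat_lit 156) (.e (nat_lit 163906) (nat_lit 12) .nil))))) .nil))) (.nd (nat_lit 5) 
(.lf (nat_lit 219354) (.g (nat_lit 1423) (.e (nat_lit 90176) (nat_lit 15) (.e (nat_lit 188420) (nat_lit 0) (.e (nat_lit 1855) (nat_lit 124) (.e (nat_lit 557105) (nat_lit 14) (.e (nat_lit 188160) (nat_lit 32) .nil))))) .nil)) 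
(.lf (nat_lit 219386) (.g (nat_lit 2320) (.e (nat_lit 90176) (nat_lit 15) (.e (nat_lit 188423) (nat_lit 11) (.e (nat_lit 336387) (nat_lit 27) (.e (nat_lit 426098) (nat_lit 1) (.e (nat_lit 164400) (nat_lit 256) (.e (nat_lit 57372) (nat_lit 2) .nil)))))) (.g (nat_lit 0) .nil .nil)))))) (.nd (nat_lit 3) (.nd (nat_lit 4) (.nd (nat_lit 5) 
(.lf (nat_lit 219334) (.g (nat_lit 1429) (.e (nat_lit 90175) (nat_lit 15) (.e (nat_lit 188440) (nat_lit 20) (.e (nat_lit 3307) (nat_lit 202) (.e (nat_lit 573449) (nat_lit 9) .nil)))) .nil)) 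
(.lf (nat_lit 219366) (.g (nat_lit 2025) (.e (nat_lit 90176) (nat_lit 15) (.e (nat_lit 188421) (nat_lit 11) (.e (nat_lit 336288) (nat_lit 15) (.e (nat_lit 7096) (nat_lit 380) (.e (nat_lit 164358) (nat_lit 246) (.e (nat_lit 100) (nat_lit 2) .nil)))))) (.g (nat_lit 4) .nil .nil)))) (.nd (nat_lit 5) 
(.lf (nat_lit 219350) (.g (nat_lit 1415) (.e (nat_lit 90176) (nat_lit 15) (.e (nat_lit 188420) (nat_lit 0) (.e (nat_lit 1800) (nat_lit 119) (.e (nat_lit 516100) (nat_lit 0) (.e (nat_lit 3771) (nat_lit 229) .nil))))) .nil)) 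
(.lf (nat_lit 219382) (.g (nat_lit 2548) (.e (nat_lit 90176) (nat_lit 15) (.e (nat_lit 188423) (nat_lit 11) (.e (nat_lit 336288) (nat_lit 15) (.e (nat_lit 7098) (nat_lit 380) (.e (nat_lit 164356) (nat_lit 246) (.e (nat_lit 100) (nat_lit 2) .nil)))))) (.g (nat_lit 6) .nil .nil))))) (.nd (nat_lit 4) (.nd (nat_lit 5) 
(.lf (nat_lit 219342) (.g (nat_lit 3211) (.e (nat_lit 90175) (nat_lit 15) (.e (nat_lit 188452) (nat_lit 23) (.e (nat_lit 204846) (nat_lit 24) (.e (nat_lit 319536) (nat_lit 17) .nil)))) .nil)) 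
(.lf (nat_lit 219374) (.g (nat_lit 1767) (.e (nat_lit 90176) (nat_lit 15) (.e (nat_lit 188423) (nat_lit 11) (.e (nat_lit 335995) (nat_lit 1) (.e (nat_lit 57688) (nat_lit 156) (.e (nat_lit 163901) (nat_lit 12) .nil))))) .nil))) (.nd (nat_lit 5) 
(.lf (nat_lit 219358) (.g (nat_lit 2995) (.e (nat_lit 90176) (nat_lit 15) (.e (nat_lit 188420) (nat_lit 0) (.e (nat_lit 1856) (nat_lit 124) (.e (nat_lit 557103) (nat_lit 14) (.e (nat_lit 180278) (nat_lit 32) (.e (nat_lit 1235) (nat_lit 91) .nil)))))) (.g (nat_lit 0) .nil .nil))) 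
(.lf (nat_lit 219390) (.g (nat_lit 2434) (.e (nat_lit 90176) (nat_lit 15) (.e (nat_lit 188423) (nat_lit 11) (.e (nat_lit 336387) (nat_lit 27) (.e (nat_lit 426107) (nat_lit 1) (.e (nat_lit 164396) (nat_lit 256) (.e (nat_lit 57375) (nat_lit 2) .nil)))))) (.g (nat_lit 0) .nil .nil)))))))) (.nd (nat_lit 1) (.nd (nat_lit 2) (.nd (nat_lit 3) (.nd (nat_lit 4) (.nd (nat_lit 5) 
(.lf (nat_lit 219329) (.g (nat_lit 304) (.e (nat_lit 90174) (nat_lit 14) (.e (nat_lit 180277) (nat_lit 32) (.e (nat_lit 1253) (nat_lit 92) .nil))) .nil)) 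
(.lf (nat_lit 219361) (.g (nat_lit 1712) (.e (nat_lit 90176) (nat_lit 15) (.e (nat_lit 188420) (nat_lit 0) (.e (nat_lit 1856) (nat_lit 124) (.e (nat_lit 557104) (nat_lit 14) (.e (nat_lit 188160) (nat_lit 32) (.e (nat_lit 1238) (nat_lit 91) .nil)))))) (.g (nat_lit 4) .nil .nil)))) (.nd (nat_lit 5) 
(.lf (nat_lit 219345) (.g (nat_lit 1700) (.e (nat_lit 90175) (nat_lit 15) (.e (nat_lit 188452) (nat_lit 23) (.e (nat_lit 204885) (nat_lit 33) (.e (nat_lit 401414) (nat_lit 0) .nil)))) .nil)) 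
(.lf (nat_lit 219377) (.g (nat_lit 1377) (.e (nat_lit 90176) (nat_lit 15) (.e (nat_lit 188423) (nat_lit 11) (.e (nat_lit 336288) (nat_lit 15) (.e (nat_lit 6988) (nat_lit 377) (.e (nat_lit 1109) (nat_lit 82) .nil))))) .nil)))) (.nd (nat_lit 4) (.nd (nat_lit 5) 
(.lf (nat_lit 219337) (.g (nat_lit 536) (.e (nat_lit 90175) (nat_lit 15) (.e (nat_lit 188441) (nat_lit 20) (.e (nat_lit 3205) (nat_lit 194) .nil))) .nil)) 
(.lf (nat_lit 219369) (.g (nat_lit 1837) (.e (nat_lit 90176) (nat_lit 15) (.e (nat_lit 188421) (nat_lit 11) (.e (nat_lit 336387) (nat_lit 27) (.e (nat_lit 426100) (nat_lit 1) (.e (nat_lit 164396) (nat_lit 256) (.e (nat_lit 57371) (nat_lit 2) .nil)))))) (.g (nat_lit 4) .nil .nil)))) (.nd (nat_lit 5) 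
(.lf (nat_lit 219353) (.g (nat_lit 2444) (.e (nat_lit 90176) (nat_lit 15) (.e (nat_lit 188420) (nat_lit 0) (.e (nat_lit 1855) (nat_lit 124) (.e (nat_lit 557103) (nat_lit 14) (.e (nat_lit 180278) (nat_lit 32) (.e (nat_lit 1234) (nat_lit 91) .nil)))))) (.g (nat_lit 4) .nil .nil))) 
(.lf (nat_lit 219385) (.g (nat_lit 2499) (.e (nat_lit 90176) (nat_lit 15) (.e (nat_lit 188423) (nat_lit 11) (.e (nat_lit 336387) (nat_lit 27) (.e (nat_lit 426098) (nat_lit 1) (.e (nat_lit 164396) (nat_lit 256) (.e (nat_lit 57372) (nat_lit 2) .nil)))))) (.g (nat_lit 0) .nil .nil)))))) (.nd (nat_lit 3) (.nd (nat_lit 4) (.nd (nat_lit 5) 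
(.lf (nat_lit 219333) (.g (nat_lit 2045) (.e (nat_lit 90174) (nat_lit 14) (.e (nat_lit 188160) (nat_lit 35) (.e (nat_lit 57464) (nat_lit 23) (.e (nat_lit 516139) (nat_lit 7) (.e (nat_lit 409603) (nat_lit 0) (.e (nat_lit 5293) (nat_lit 298) (.e (nat_lit 1232) (nat_lit 91) .nil))))))) (.g (nat_lit 4) .nil .nil))) 
(.lf (nat_lit 219365) (.g (nat_lit 979) (.e (nat_lit 90176) (nat_lit 15) (.e (nat_lit 188421) (nat_lit 11) (.e (nat_lit 335996) (nat_lit 1) (.e (nat_lit 57692) (nat_lit 156) .nil)))) .nil))) (.nd (nat_lit 5) 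
(.lf (nat_lit 219349) (.g (nat_lit 1133) (.e (nat_lit 90176) (nat_lit 15) (.e (nat_lit 188420) (nat_lit 0) (.e (nat_lit 1798) (nat_lit 119) (.e (nat_lit 516129) (nat_lit 3) (.e (nat_lit 229120) (nat_lit 11) .nil))))) .nil)) 
(.lf (nat_lit 219381) (.g (nat_lit 1652) (.e (nat_lit 90176) (nat_lit 15) (.e (nat_lit 188423) (nat_lit 11) (.e (nat_lit 336288) (nat_lit 15) (.e (nat_lit 7098) (nat_lit 380) (.e (nat_lit 164355) (nat_lit 246) (.e (nat_lit 98) (nat_lit 2) .nil)))))) (.g (nat_lit 4) .nil .nil))))) (.nd (nat_lit 4) (.nd (nat_lit 5) 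
(.lf (nat_lit 219341) (.g (nat_lit 1200) (.e (nat_lit 90175) (nat_lit 15) (.e (nat_lit 188449) (nat_lit 22) (.e (nat_lit 196677) (nat_lit 16) .nil))) .nil)) 
(.lf (nat_lit 219373) (.g (nat_lit 1740) (.e (nat_lit 90176) (nat_lit 15) (.e (nat_lit 188423) (nat_lit 11) (.e (nat_lit 335988) (nat_lit 1) (.e (nat_lit 57692) (nat_lit 156) (.e (nat_lit 171776) (nat_lit 12) .nil))))) .nil))) (.nd (nat_lit 5) 
(.lf (nat_lit 219357) (.g (nat_lit 3977) (.e (nat_lit 90176) (nat_lit 15) (.e (nat_lit 188420) (nat_lit 0) (.e (nat_lit 1856) (nat_lit 124) (.e (nat_lit 557100) (nat_lit 13) (.e (nat_lit 172126) (nat_lit 14) (.e (nat_lit 491537) (nat_lit 2) .nil)))))) (.g (nat_lit 0) .nil .nil))) 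
(.lf (nat_lit 219389) (.g (nat_lit 2386) (.e (nat_lit 90176) (nat_lit 15) (.e (nat_lit 188423) (nat_lit 11) (.e (nat_lit 336387) (nat_lit 27) (.e (nat_lit 426107) (nat_lit 1) (.e (nat_lit 164396) (nat_lit 256) (.e (nat_lit 57372) (nat_lit 2) .nil)))))) (.g (nat_lit 0) .nil .nil))))))) (.nd (nat_lit 2) (.nd (nat_lit 3) (.nd (nat_lit 4) (.nd (nat_lit 5) 
(.lf (nat_lit 219331) (.g (nat_lit 1476) (.e (nat_lit 90174) (nat_lit 14) (.e (nat_lit 188160) (nat_lit 33) (.e (nat_lit 8228) (nat_lit 15) (.e (nat_lit 532501) (nat_lit 1) (.e (nat_lit 57730) (nat_lit 181) (.e (nat_lit 1294) (nat_lit 96) (.e (nat_lit 131094) (nat_lit 2) .nil))))))) (.g (nat_lit 4) .nil .nil))) 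
(.lf (nat_lit 219363) (.g (nat_lit 1917) (.e (nat_lit 90176) (nat_lit 15) (.e (nat_lit 188420) (nat_lit 0) (.e (nat_lit 1856) (nat_lit 124) (.e (nat_lit 557105) (nat_lit 14) (.e (nat_lit 188160) (nat_lit 32) (.e (nat_lit 1234) (nat_lit 91) .nil)))))) (.g (nat_lit 4) .nil .nil)))) (.nd (nat_lit 5) 
(.lf (nat_lit 219347) (.g (nat_lit 578) (.e (nat_lit 90175) (nat_lit 15) (.e (nat_lit 188461) (nat_lit 26) (.e (nat_lit 261888) (nat_lit 5) .nil))) .nil)) 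
(.lf (nat_lit 219379) (.g (nat_lit 1886) (.e (nat_lit 90176) (nat_lit 15) (.e (nat_lit 188423) (nat_lit 11) (.e (nat_lit 336288) (nat_lit 15) (.e (nat_lit 7098) (nat_lit 380) (.e (nat_lit 164351) (nat_lit 246) (.e (nat_lit 98) (nat_lit 2) .nil)))))) (.g (nat_lit 5) .nil .nil))))) (.nd (nat_lit 4) (.nd (nat_lit 5) 
(.lf (nat_lit 219339) (.g (nat_lit 952) (.e (nat_lit 90175) (nat_lit 15) (.e (nat_lit 188449) (nat_lit 22) (.e (nat_lit 196626) (nat_lit 9) .nil))) .nil)) 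
(.lf (nat_lit 219371) (.g (nat_lit 2085) (.e (nat_lit 90176) (nat_lit 15) (.e (nat_lit 188423) (nat_lit 11) (.e (nat_lit 335988) (nat_lit 1) (.e (nat_lit 57691) (nat_lit 156) (.e (nat_lit 163907) (nat_lit 12) .nil))))) .nil))) (.nd (nat_lit 5) 
(.lf (nat_lit 219355) (.g (nat_lit 1459) (.e (nat_lit 90176) (nat_lit 15) (.e (nat_lit 188420) (nat_lit 0) (.e (nat_lit 1856) (nat_lit 124) (.e (nat_lit 557068) (nat_lit 9) (.e (nat_lit 140) (nat_lit 8) .nil))))) .nil)) 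
(.lf (nat_lit 219387) (.g (nat_lit 3019) (.e (nat_lit 90176) (nat_lit 15) (.e (nat_lit 188423) (nat_lit 11) (.e (nat_lit 336387) (nat_lit 27) (.e (nat_lit 426100) (nat_lit 1) (.e (nat_lit 164398) (nat_lit 256) (.e (nat_lit 57372) (nat_lit 2) .nil)))))) (.g (nat_lit 0) .nil .nil)))))) (.nd (nat_lit 3) (.nd (nat_lit 4) (.nd (nat_lit 5) 
(.lf (nat_lit 219335) (.g (nat_lit 2149) (.e (nat_lit 90175) (nat_lit 15) (.e (nat_lit 188440) (nat_lit 20) (.e (nat_lit 3307) (nat_lit 202) (.e (nat_lit 573456) (nat_lit 9) (.e (nat_lit 1312) (nat_lit 98) .nil))))) .nil)) 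
(.lf (nat_lit 219367) (.g (nat_lit 1499) (.e (nat_lit 90176) (nat_lit 15) (.e (nat_lit 188421) (nat_lit 11) (.e (nat_lit 336385) (nat_lit 27) (.e (nat_lit 426100) (nat_lit 1) (.e (nat_lit 164398) (nat_lit 256) .nil))))) .nil))) (.nd (nat_lit 5) 
(.lf (nat_lit 219351) (.g (nat_lit 2846) (.e (nat_lit 90176) (nat_lit 15) (.e (nat_lit 188420) (nat_lit 0) (.e (nat_lit 1800) (nat_lit 119) (.e (nat_lit 516129) (nat_lit 3) (.e (nat_lit 221194) (nat_lit 11) (.e (nat_lit 336012) (nat_lit 2) .nil)))))) (.g (nat_lit 0) .nil .nil))) 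
(.lf (nat_lit 219383) (.g (nat_lit 1530) (.e (nat_lit 90176) (nat_lit 15) (.e (nat_lit 188423) (nat_lit 11) (.e (nat_lit 336385) (nat_lit 27) (.e (nat_lit 426100) (nat_lit 1) (.e (nat_lit 164400) (nat_lit 256) .nil))))) .nil)))) (.nd (nat_lit 4) (.nd (nat_lit 5) 
(.lf (nat_lit 219343) (.g (nat_lit 1755) (.e (nat_lit 90175) (nat_lit 15) (.e (nat_lit 188452) (nat_lit 23) (.e (nat_lit 204849) (nat_lit 25) (.e (nat_lit 327717) (nat_lit 17) .nil)))) .nil)) 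
(.lf (nat_lit 219375) (.g (nat_lit 1283) (.e (nat_lit 90176) (nat_lit 15) (.e (nat_lit 188423) (nat_lit 11) (.e (nat_lit 335996) (nat_lit 1) (.e (nat_lit 57691) (nat_lit 156) .nil)))) .nil))) (.nd (nat_lit 5) 
(.lf (nat_lit 219359) (.g (nat_lit 1764) (.e (nat_lit 90176) (nat_lit 15) (.e (nat_lit 188420) (nat_lit 0) (.e (nat_lit 1856) (nat_lit 124) (.e (nat_lit 557104) (nat_lit 14) (.e (nat_lit 180277) (nat_lit 32) .nil))))) .nil)) 
(.lf (nat_lit 219391) (.g (nat_lit 2510) (.e (nat_lit 90176) (nat_lit 15) (.e (nat_lit 188423) (nat_lit 11) (.e (nat_lit 336387) (nat_lit 27) (.e (nat_lit 426107) (nat_lit 1) (.e (nat_lit 164401) (nat_lit 256) (.e (nat_lit 57371) (nat_lit 2) .nil)))))) (.g (nat_lit 0) .nil .nil)))))))))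

noncomputable def tv2883 : DT := (.nd (nat_lit 0) (.nd (nat_lit 1) (.nd (nat_lit 2) (.nd (nat_lit 3) (.nd (nat_lit 4) (.nd (nat_lit 5) (.nd (nat_lit 6) 
(.lf (nat_lit 219392) (.g (nat_lit 3181) (.e (nat_lit 90176) (nat_lit 15) (.e (nat_lit 188423) (nat_lit 11) (.e (nat_lit 336387) (nat_lit 27) (.e (nat_lit 426107) (nat_lit 1) (.e (nat_lit 164402) (nat_lit 256) (.e (nat_lit 57371) (nat_lit 2) .nil)))))) (.g (nat_lit 0) .nil .nil))) 
(.lf (nat_lit 219456) (.g (nat_lit 2810) (.e (nat_lit 90176) (nat_lit 15) (.e (nat_lit 188440) (nat_lit 20) (.e (nat_lit 3307) (nat_lit 202) (.e (nat_lit 573475) (nat_lit 12) (.e (nat_lit 65280) (nat_lit 57) (.e (nat_lit 794637) (nat_lit 11) (.e (nat_lit 336012) (nat_lit 2) .nil))))))) (.g (nat_lit 4) .nil .nil)))) (.nd (nat_lit 6) 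
(.lf (nat_lit 219424) (.g (nat_lit 2065) (.e (nat_lit 90176) (nat_lit 15) (.e (nat_lit 188439) (nat_lit 20) (.e (nat_lit 3271) (nat_lit 199) (.e (nat_lit 548914) (nat_lit 19) (.e (nat_lit 180277) (nat_lit 32) (.e (nat_lit 1235) (nat_lit 91) .nil)))))) (.g (nat_lit 0) .nil .nil))) 
(.lf (nat_lit 219488) (.g (nat_lit 1286) (.e (nat_lit 90176) (nat_lit 15) (.e (nat_lit 188447) (nat_lit 22) (.e (nat_lit 196666) (nat_lit 13) (.e (nat_lit 65546) (nat_lit 0) .nil)))) .nil)))) (.nd (nat_lit 5) (.nd (nat_lit 6) 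
(.lf (nat_lit 219408) (.g (nat_lit 2501) (.e (nat_lit 90176) (nat_lit 15) (.e (nat_lit 188439) (nat_lit 20) (.e (nat_lit 3270) (nat_lit 199) (.e (nat_lit 548913) (nat_lit 18) (.e (nat_lit 172041) (nat_lit 0) (.e (nat_lit 7540) (nat_lit 402) (.e (nat_lit 1228) (nat_lit 91) .nil))))))) (.g (nat_lit 6) .nil .nil))) 
(.lf (nat_lit 219472) (.g (nat_lit 758) (.e (nat_lit 90176) (nat_lit 15) (.e (nat_lit 188447) (nat_lit 22) (.e (nat_lit 196661) (nat_lit 12) (.e (nat_lit 57721) (nat_lit 177) .nil)))) .nil))) (.nd (nat_lit 6) 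
(.lf (nat_lit 219440) (.g (nat_lit 2931) (.e (nat_lit 90176) (nat_lit 15) (.e (nat_lit 188439) (nat_lit 20) (.e (nat_lit 3272) (nat_lit 199) (.e (nat_lit 548913) (nat_lit 18) (.e (nat_lit 172041) (nat_lit 0) (.e (nat_lit 7540) (nat_lit 402) (.e (nat_lit 1227) (nat_lit 91) .nil))))))) (.g (nat_lit 6) .nil .nil))) 
(.lf (nat_lit 219504) (.g (nat_lit 1290) (.e (nat_lit 90176) (nat_lit 15) (.e (nat_lit 188447) (nat_lit 22) (.e (nat_lit 196669) (nat_lit 14) (.e (nat_lit 73731) (nat_lit 0) (.e (nat_lit 7936) (nat_lit 283) .nil))))) .nil))))) (.nd (nat_lit 4) (.nd (nat_lit 5) (.nd (nat_lit 6) 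
(.lf (nat_lit 219400) (.g (nat_lit 1225) (.e (nat_lit 90176) (nat_lit 15) (.e (nat_lit 188439) (nat_lit 20) (.e (nat_lit 3270) (nat_lit 199) (.e (nat_lit 548913) (nat_lit 18) (.e (nat_lit 172034) (nat_lit 0) (.e (nat_lit 7545) (nat_lit 402) (.e (nat_lit 1227) (nat_lit 91) .nil))))))) (.g (nat_lit 4) .nil .nil))) 
(.lf (nat_lit 219464) (.g (nat_lit 1778) (.e (nat_lit 90176) (nat_lit 15) (.e (nat_lit 188444) (nat_lit 21) (.e (nat_lit 164196) (nat_lit 158) (.e (nat_lit 1211) (nat_lit 89) (.e (nat_lit 73728) (nat_lit 0) .nil))))) .nil))) (.nd (nat_lit 6) 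
(.lf (nat_lit 219432) (.g (nat_lit 1838) (.e (nat_lit 90176) (nat_lit 15) (.e (nat_lit 188439) (nat_lit 20) (.e (nat_lit 3272) (nat_lit 199) (.e (nat_lit 548913) (nat_lit 18) (.e (nat_lit 172032) (nat_lit 0) (.e (nat_lit 7545) (nat_lit 402) (.e (nat_lit 1227) (nat_lit 91) .nil))))))) (.g (nat_lit 4) .nil .nil))) 
(.lf (nat_lit 219496) (.g (nat_lit 1812) (.e (nat_lit 90176) (nat_lit 15) (.e (nat_lit 188447) (nat_lit 22) (.e (nat_lit 196666) (nat_lit 13) (.e (nat_lit 65563) (nat_lit 1) (.e (nat_lit 57783) (nat_lit 239) .nil))))) .nil)))) (.nd (nat_lit 5) (.nd (nat_lit 6) 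
(.lf (nat_lit 219416) (.g (nat_lit 1317) (.e (nat_lit 90176) (nat_lit 15) (.e (nat_lit 188439) (nat_lit 20) (.e (nat_lit 3271) (nat_lit 199) (.e (nat_lit 548913) (nat_lit 18) (.e (nat_lit 172034) (nat_lit 0) (.e (nat_lit 7936) (nat_lit 402) (.e (nat_lit 1228) (nat_lit 91) .nil))))))) (.g (nat_lit 4) .nil .nil))) 
(.lf (nat_lit 219480) (.g (nat_lit 394) (.e (nat_lit 90176) (nat_lit 15) (.e (nat_lit 188447) (nat_lit 22) (.e (nat_lit 196666) (nat_lit 13) .nil))) .nil))) (.nd (nat_lit 6) 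
(.lf (nat_lit 219448) (.g (nat_lit 866) (.e (nat_lit 90176) (nat_lit 15) (.e (nat_lit 188439) (nat_lit 20) (.e (nat_lit 3579) (nat_lit 223) (.e (nat_lit 745476) (nat_lit 0) .nil)))) .nil)) 
(.lf (nat_lit 219512) (.g (nat_lit 1454) (.e (nat_lit 90176) (nat_lit 15) (.e (nat_lit 188448) (nat_lit 22) (.e (nat_lit 196681) (nat_lit 17) (.e (nat_lit 131089) (nat_lit 1) .nil)))) .nil)))))) (.nd (nat_lit 3) (.nd (nat_lit 4) (.nd (nat_lit 5) (.nd (nat_lit 6) 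
(.lf (nat_lit 219396) (.g (nat_lit 409) (.e (nat_lit 90176) (nat_lit 15) (.e (nat_lit 188431) (nat_lit 20) (.e (nat_lit 3547) (nat_lit 219) .nil))) .nil)) 
(.lf (nat_lit 219460) (.g (nat_lit 1441) (.e (nat_lit 90176) (nat_lit 15) (.e (nat_lit 188444) (nat_lit 21) (.e (nat_lit 164178) (nat_lit 154) (.e (nat_lit 57390) (nat_lit 5) (.e (nat_lit 122624) (nat_lit 11) .nil))))) .nil))) (.nd (nat_lit 6) 
(.lf (nat_lit 219428) (.g (nat_lit 1636) (.e (nat_lit 90176) (nat_lit 15) (.e (nat_lit 188439) (nat_lit 20) (.e (nat_lit 3272) (nat_lit 199) (.e (nat_lit 548898) (nat_lit 14) (.e (nat_lit 2980) (nat_lit 185) .nil))))) .nil)) 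
(.lf (nat_lit 219492) (.g (nat_lit 1295) (.e (nat_lit 90176) (nat_lit 15) (.e (nat_lit 188447) (nat_lit 22) (.e (nat_lit 196666) (nat_lit 13) (.e (nat_lit 65553) (nat_lit 0) .nil)))) .nil)))) (.nd (nat_lit 5) (.nd (nat_lit 6) 
(.lf (nat_lit 219412) (.g (nat_lit 1427) (.e (nat_lit 90176) (nat_lit 15) (.e (nat_lit 188439) (nat_lit 20) (.e (nat_lit 3270) (nat_lit 199) (.e (nat_lit 548913) (nat_lit 18) (.e (nat_lit 172070) (nat_lit 4) (.e (nat_lit 237312) (nat_lit 262) (.e (nat_lit 57373) (nat_lit 2) .nil))))))) (.g (nat_lit 4) .nil .nil))) 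
(.lf (nat_lit 219476) (.g (nat_lit 2822) (.e (nat_lit 90176) (nat_lit 15) (.e (nat_lit 188447) (nat_lit 22) (.e (nat_lit 196661) (nat_lit 12) (.e (nat_lit 57721) (nat_lit 177) (.e (nat_lit 57891) (nat_lit 270) (.e (nat_lit 1235) (nat_lit 91) .nil)))))) (.g (nat_lit 0) .nil .nil)))) (.nd (nat_lit 6) 
(.lf (nat_lit 219444) (.g (nat_lit 1589) (.e (nat_lit 90176) (nat_lit 15) (.e (nat_lit 188439) (nat_lit 20) (.e (nat_lit 3272) (nat_lit 199) (.e (nat_lit 548913) (nat_lit 18) (.e (nat_lit 172052) (nat_lit 0) (.e (nat_lit 7936) (nat_lit 402) (.e (nat_lit 1238) (nat_lit 91) .nil))))))) (.g (nat_lit 4) .nil .nil))) 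
(.lf (nat_lit 219508) (.g (nat_lit 697) (.e (nat_lit 90176) (nat_lit 15) (.e (nat_lit 188447) (nat_lit 22) (.e (nat_lit 196677) (nat_lit 16) (.e (nat_lit 123080) (nat_lit 177) .nil)))) .nil))))) (.nd (nat_lit 4) (.nd (nat_lit 5) (.nd (nat_lit 6) 
(.lf (nat_lit 219404) (.g (nat_lit 1324) (.e (nat_lit 90176) (nat_lit 15) (.e (nat_lit 188439) (nat_lit 20) (.e (nat_lit 3270) (nat_lit 199) (.e (nat_lit 548913) (nat_lit 18) (.e (nat_lit 172036) (nat_lit 0) (.e (nat_lit 7936) (nat_lit 402) (.e (nat_lit 1227) (nat_lit 91) .nil))))))) (.g (nat_lit 4) .nil .nil))) 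
(.lf (nat_lit 219468) (.g (nat_lit 433) (.e (nat_lit 90176) (nat_lit 15) (.e (nat_lit 188447) (nat_lit 22) (.e (nat_lit 196661) (nat_lit 12) .nil))) .nil))) (.nd (nat_lit 6) 
(.lf (nat_lit 219436) (.g (nat_lit 2387) (.e (nat_lit 90176) (nat_lit 15) (.e (nat_lit 188439) (nat_lit 20) (.e (nat_lit 3272) (nat_lit 199) (.e (nat_lit 548913) (nat_lit 18) (.e (nat_lit 172034) (nat_lit 0) (.e (nat_lit 7541) (nat_lit 402) (.e (nat_lit 1238) (nat_lit 91) .nil))))))) (.g (nat_lit 6) .nil .nil))) 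
(.lf (nat_lit 219500) (.g (nat_lit 2231) (.e (nat_lit 90176) (nat_lit 15) (.e (nat_lit 188447) (nat_lit 22) (.e (nat_lit 196668) (nat_lit 14) (.e (nat_lit 73729) (nat_lit 0) (.e (nat_lit 4780) (nat_lit 281) .nil))))) .nil)))) (.nd (nat_lit 5) (.nd (nat_lit 6) 
(.lf (nat_lit 219420) (.g (nat_lit 1062) (.e (nat_lit 90176) (nat_lit 15) (.e (nat_lit 188439) (nat_lit 20) (.e (nat_lit 3271) (nat_lit 199) (.e (nat_lit 548913) (nat_lit 18) (.e (nat_lit 172038) (nat_lit 0) (.e (nat_lit 7936) (nat_lit 402) (.e (nat_lit 1228) (nat_lit 91) .nil))))))) (.g (nat_lit 4) .nil .nil))) 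
(.lf (nat_lit 219484) (.g (nat_lit 1736) (.e (nat_lit 90176) (nat_lit 15) (.e (nat_lit 188447) (nat_lit 22) (.e (nat_lit 196666) (nat_lit 13) (.e (nat_lit 65539) (nat_lit 0) .nil)))) .nil))) (.nd (nat_lit 6) 
(.lf (nat_lit 219452) (.g (nat_lit 2007) (.e (nat_lit 90176) (nat_lit 15) (.e (nat_lit 188440) (nat_lit 20) (.e (nat_lit 3307) (nat_lit 202) (.e (nat_lit 573449) (nat_lit 9) (.e (nat_lit 1312) (nat_lit 98) .nil))))) .nil)) 
(.lf (nat_lit 219516) (.g (nat_lit 1781) (.e (nat_lit 90176) (nat_lit 15) (.e (nat_lit 188449) (nat_lit 22) (.e (nat_lit 196630) (nat_lit 9) (.e (nat_lit 1398) (nat_lit 106) .nil)))) .nil))))))) (.nd (nat_lit 2) (.nd (nat_lit 3) (.nd (nat_lit 4) (.nd (nat_lit 5) (.nd (nat_lit 6) 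
(.lf (nat_lit 219394) (.g (nat_lit 2773) (.e (nat_lit 90176) (nat_lit 15) (.e (nat_lit 188423) (nat_lit 11) (.e (nat_lit 336387) (nat_lit 27) (.e (nat_lit 426108) (nat_lit 1) (.e (nat_lit 164401) (nat_lit 256) (.e (nat_lit 57371) (nat_lit 2) .nil)))))) (.g (nat_lit 0) .nil .nil))) 
(.lf (nat_lit 219458) (.g (nat_lit 618) (.e (nat_lit 90176) (nat_lit 15) (.e (nat_lit 188441) (nat_lit 20) (.e (nat_lit 3272) (nat_lit 199) .nil))) .nil))) (.nd (nat_lit 6) 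
(.lf (nat_lit 219426) (.g (nat_lit 2106) (.e (nat_lit 90176) (nat_lit 15) (.e (nat_lit 188439) (nat_lit 20) (.e (nat_lit 3271) (nat_lit 199) (.e (nat_lit 548914) (nat_lit 19) (.e (nat_lit 180278) (nat_lit 32) (.e (nat_lit 1235) (nat_lit 91) .nil)))))) (.g (nat_lit 0) .nil .nil))) 
(.lf (nat_lit 219490) (.g (nat_lit 2564) (.e (nat_lit 90176) (nat_lit 15) (.e (nat_lit 188447) (nat_lit 22) (.e (nat_lit 196666) (nat_lit 13) (.e (nat_lit 65549) (nat_lit 0) .nil)))) .nil)))) (.nd (nat_lit 5) (.nd (nat_lit 6) 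
(.lf (nat_lit 219410) (.g (nat_lit 1389) (.e (nat_lit 90176) (nat_lit 15) (.e (nat_lit 188439) (nat_lit 20) (.e (nat_lit 3270) (nat_lit 199) (.e (nat_lit 548913) (nat_lit 18) (.e (nat_lit 172049) (nat_lit 0) (.e (nat_lit 7936) (nat_lit 402) (.e (nat_lit 1227) (nat_lit 91) .nil))))))) (.g (nat_lit 4) .nil .nil))) 
(.lf (nat_lit 219474) (.g (nat_lit 1928) (.e (nat_lit 90176) (nat_lit 15) (.e (nat_lit 188447) (nat_lit 22) (.e (nat_lit 196661) (nat_lit 12) (.e (nat_lit 57721) (nat_lit 177) (.e (nat_lit 57883) (nat_lit 270) (.e (nat_lit 7936) (nat_lit 91) .nil)))))) (.g (nat_lit 5) .nil .nil)))) (.nd (nat_lit 6) 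
(.lf (nat_lit 219442) (.g (nat_lit 2136) (.e (nat_lit 90176) (nat_lit 15) (.e (nat_lit 188439) (nat_lit 20) (.e (nat_lit 3272) (nat_lit 199) (.e (nat_lit 548913) (nat_lit 18) (.e (nat_lit 172041) (nat_lit 0) (.e (nat_lit 7936) (nat_lit 402) (.e (nat_lit 1228) (nat_lit 91) .nil))))))) (.g (nat_lit 5) .nil .nil))) 
(.lf (nat_lit 219506) (.g (nat_lit 1384) (.e (nat_lit 90176) (nat_lit 15) (.e (nat_lit 188447) (nat_lit 22) (.e (nat_lit 196670) (nat_lit 14) (.e (nat_lit 73728) (nat_lit 0) .nil)))) .nil))))) (.nd (nat_lit 4) (.nd (nat_lit 5) (.nd (nat_lit 6) 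
(.lf (nat_lit 219402) (.g (nat_lit 2065) (.e (nat_lit 90176) (nat_lit 15) (.e (nat_lit 188439) (nat_lit 20) (.e (nat_lit 3270) (nat_lit 199) (.e (nat_lit 548913) (nat_lit 18) (.e (nat_lit 172035) (nat_lit 0) (.e (nat_lit 7936) (nat_lit 402) (.e (nat_lit 1227) (nat_lit 91) .nil))))))) (.g (nat_lit 5) .nil .nil))) 
(.lf (nat_lit 219466) (.g (nat_lit 430) (.e (nat_lit 90176) (nat_lit 15) (.e (nat_lit 188447) (nat_lit 22) (.e (nat_lit 196628) (nat_lit 9) .nil))) .nil))) (.nd (nat_lit 6) 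
(.lf (nat_lit 219434) (.g (nat_lit 1597) (.e (nat_lit 90176) (nat_lit 15) (.e (nat_lit 188439) (nat_lit 20) (.e (nat_lit 3272) (nat_lit 199) (.e (nat_lit 548913) (nat_lit 18) (.e (nat_lit 172034) (nat_lit 0) (.e (nat_lit 7541) (nat_lit 402) (.e (nat_lit 1227) (nat_lit 91) .nil))))))) (.g (nat_lit 4) .nil .nil))) 
(.lf (nat_lit 219498) (.g (nat_lit 1611) (.e (nat_lit 90176) (nat_lit 15) (.e (nat_lit 188447) (nat_lit 22) (.e (nat_lit 196666) (nat_lit 13) (.e (nat_lit 65639) (nat_lit 15) .nil)))) .nil)))) (.nd (nat_lit 5) (.nd (nat_lit 6) 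
(.lf (nat_lit 219418) (.g (nat_lit 1253) (.e (nat_lit 90176) (nat_lit 15) (.e (nat_lit 188439) (nat_lit 20) (.e (nat_lit 3271) (nat_lit 199) (.e (nat_lit 548913) (nat_lit 18) (.e (nat_lit 172036) (nat_lit 0) (.e (nat_lit 7936) (nat_lit 402) (.e (nat_lit 1228) (nat_lit 91) .nil))))))) (.g (nat_lit 4) .nil .nil))) 
(.lf (nat_lit 219482) (.g (nat_lit 2118) (.e (nat_lit 90176) (nat_lit 15) (.e (nat_lit 188447) (nat_lit 22) (.e (nat_lit 196666) (nat_lit 13) (.e (nat_lit 65537) (nat_lit 0) .nil)))) .nil))) (.nd (nat_lit 6) 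
(.lf (nat_lit 219450) (.g (nat_lit 1038) (.e (nat_lit 90176) (nat_lit 15) (.e (nat_lit 188440) (nat_lit 20) (.e (nat_lit 3304) (nat_lit 202) (.e (nat_lit 581376) (nat_lit 11) .nil)))) .nil)) 
(.lf (nat_lit 219514) (.g (nat_lit 1053) (.e (nat_lit 90176) (nat_lit 15) (.e (nat_lit 188449) (nat_lit 22) (.e (nat_lit 196628) (nat_lit 9) (.e (nat_lit 970) (nat_lit 81) .nil)))) .nil)))))) (.nd (nat_lit 3) (.nd (nat_lit 4) (.nd (nat_lit 5) (.nd (nat_lit 6) 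
(.lf (nat_lit 219398) (.g (nat_lit 1981) (.e (nat_lit 90176) (nat_lit 15) (.e (nat_lit 188439) (nat_lit 20) (.e (nat_lit 3270) (nat_lit 199) (.e (nat_lit 548913) (nat_lit 18) (.e (nat_lit 172033) (nat_lit 0) (.e (nat_lit 7936) (nat_lit 402) (.e (nat_lit 1227) (nat_lit 91) .nil))))))) (.g (nat_lit 5) .nil .nil))) 
(.lf (nat_lit 219462) (.g (nat_lit 1900) (.e (nat_lit 90176) (nat_lit 15) (.e (nat_lit 188444) (nat_lit 21) (.e (nat_lit 164182) (nat_lit 154) (.e (nat_lit 57386) (nat_lit 4) (.e (nat_lit 106536) (nat_lit 11) (.e (nat_lit 24320) (nat_lit 17) .nil)))))) (.g (nat_lit 4) .nil .nil)))) (.nd (nat_lit 6) 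
(.lf (nat_lit 219430) (.g (nat_lit 1777) (.e (nat_lit 90176) (nat_lit 15) (.e (nat_lit 188439) (nat_lit 20) (.e (nat_lit 3272) (nat_lit 199) (.e (nat_lit 548898) (nat_lit 14) (.e (nat_lit 2980) (nat_lit 185) (.e (nat_lit 442112) (nat_lit 0) (.e (nat_lit 1238) (nat_lit 91) .nil))))))) (.g (nat_lit 4) .nil .nil))) 
(.lf (nat_lit 219494) (.g (nat_lit 2564) (.e (nat_lit 90176) (nat_lit 15) (.e (nat_lit 188447) (nat_lit 22) (.e (nat_lit 196666) (nat_lit 13) (.e (nat_lit 65556) (nat_lit 0) .nil)))) .nil)))) (.nd (nat_lit 5) (.nd (nat_lit 6) 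
(.lf (nat_lit 219414) (.g (nat_lit 1676) (.e (nat_lit 90176) (nat_lit 15) (.e (nat_lit 188439) (nat_lit 20) (.e (nat_lit 3271) (nat_lit 199) (.e (nat_lit 548913) (nat_lit 18) (.e (nat_lit 172033) (nat_lit 0) (.e (nat_lit 7936) (nat_lit 402) (.e (nat_lit 1228) (nat_lit 91) .nil))))))) (.g (nat_lit 5) .nil .nil))) 
(.lf (nat_lit 219478) (.g (nat_lit 1650) (.e (nat_lit 90176) (nat_lit 15) (.e (nat_lit 188447) (nat_lit 22) (.e (nat_lit 196661) (nat_lit 12) (.e (nat_lit 57722) (nat_lit 178) (.e (nat_lit 130816) (nat_lit 270) (.e (nat_lit 1227) (nat_lit 91) .nil)))))) (.g (nat_lit 4) .nil .nil)))) (.nd (nat_lit 6) 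
(.lf (nat_lit 219446) (.g (nat_lit 3034) (.e (nat_lit 90176) (nat_lit 15) (.e (nat_lit 188439) (nat_lit 20) (.e (nat_lit 3297) (nat_lit 202) (.e (nat_lit 573471) (nat_lit 11) (.e (nat_lit 16388) (nat_lit 0) (.e (nat_lit 7545) (nat_lit 402) (.e (nat_lit 1228) (nat_lit 91) .nil))))))) (.g (nat_lit 5) .nil .nil))) 
(.lf (nat_lit 219510) (.g (nat_lit 2124) (.e (nat_lit 90176) (nat_lit 15) (.e (nat_lit 188447) (nat_lit 22) (.e (nat_lit 196681) (nat_lit 17) (.e (nat_lit 131099) (nat_lit 4) .nil)))) .nil))))) (.nd (nat_lit 4) (.nd (nat_lit 5) (.nd (nat_lit 6) 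
(.lf (nat_lit 219406) (.g (nat_lit 1454) (.e (nat_lit 90176) (nat_lit 15) (.e (nat_lit 188439) (nat_lit 20) (.e (nat_lit 3270) (nat_lit 199) (.e (nat_lit 548913) (nat_lit 18) (.e (nat_lit 172036) (nat_lit 0) (.e (nat_lit 7936) (nat_lit 402) (.e (nat_lit 1238) (nat_lit 91) .nil))))))) (.g (nat_lit 4) .nil .nil))) 
(.lf (nat_lit 219470) (.g (nat_lit 3302) (.e (nat_lit 90176) (nat_lit 15) (.e (nat_lit 188447) (nat_lit 22) (.e (nat_lit 196661) (nat_lit 12) (.e (nat_lit 57712) (nat_lit 176) (.e (nat_lit 1370) (nat_lit 103) (.e (nat_lit 294928) (nat_lit 2) .nil)))))) (.g (nat_lit 0) .nil .nil)))) (.nd (nat_lit 6) 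
(.lf (nat_lit 219438) (.g (nat_lit 1793) (.e (nat_lit 90176) (nat_lit 15) (.e (nat_lit 188439) (nat_lit 20) (.e (nat_lit 3272) (nat_lit 199) (.e (nat_lit 548913) (nat_lit 18) (.e (nat_lit 172036) (nat_lit 0) (.e (nat_lit 7554) (nat_lit 402) (.e (nat_lit 1235) (nat_lit 91) .nil))))))) (.g (nat_lit 4) .nil .nil))) 
(.lf (nat_lit 219502) (.g (nat_lit 949) (.e (nat_lit 90176) (nat_lit 15) (.e (nat_lit 188447) (nat_lit 22) (.e (nat_lit 196668) (nat_lit 14) (.e (nat_lit 81664) (nat_lit 0) .nil)))) .nil)))) (.nd (nat_lit 5) (.nd (nat_lit 6) 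
(.lf (nat_lit 219422) (.g (nat_lit 2195) (.e (nat_lit 90176) (nat_lit 15) (.e (nat_lit 188439) (nat_lit 20) (.e (nat_lit 3271) (nat_lit 199) (.e (nat_lit 548913) (nat_lit 18) (.e (nat_lit 172041) (nat_lit 0) (.e (nat_lit 7540) (nat_lit 402) (.e (nat_lit 1227) (nat_lit 91) .nil))))))) (.g (nat_lit 6) .nil .nil))) 
(.lf (nat_lit 219486) (.g (nat_lit 2563) (.e (nat_lit 90176) (nat_lit 15) (.e (nat_lit 188447) (nat_lit 22) (.e (nat_lit 196666) (nat_lit 13) (.e (nat_lit 65544) (nat_lit 0) .nil)))) .nil))) (.nd (nat_lit 6) 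
(.lf (nat_lit 219454) (.g (nat_lit 1577) (.e (nat_lit 90176) (nat_lit 15) (.e (nat_lit 188440) (nat_lit 20) (.e (nat_lit 3307) (nat_lit 202) (.e (nat_lit 573456) (nat_lit 9) .nil)))) .nil)) 
(.lf (nat_lit 219518) (.g (nat_lit 693) (.e (nat_lit 90176) (nat_lit 15) (.e (nat_lit 188449) (nat_lit 22) (.e (nat_lit 204544) (nat_lit 9) .nil))) .nil)))))))) (.nd (nat_lit 1) (.nd (nat_lit 2) (.nd (nat_lit 3) (.nd (nat_lit 4) (.nd (nat_lit 5) (.nd (nat_lit 6) 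
(.lf (nat_lit 219393) (.g (nat_lit 2583) (.e (nat_lit 90176) (nat_lit 15) (.e (nat_lit 188423) (nat_lit 11) (.e (nat_lit 336387) (nat_lit 27) (.e (nat_lit 426108) (nat_lit 1) (.e (nat_lit 164396) (nat_lit 256) (.e (nat_lit 57372) (nat_lit 2) .nil)))))) (.g (nat_lit 0) .nil .nil))) 
(.lf (nat_lit 219457) (.g (nat_lit 3043) (.e (nat_lit 90176) (nat_lit 15) (.e (nat_lit 188440) (nat_lit 20) (.e (nat_lit 3307) (nat_lit 202) (.e (nat_lit 573477) (nat_lit 12) (.e (nat_lit 65280) (nat_lit 55) .nil))))) .nil))) (.nd (nat_lit 6) 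
(.lf (nat_lit 219425) (.g (nat_lit 2521) (.e (nat_lit 90176) (nat_lit 15) (.e (nat_lit 188439) (nat_lit 20) (.e (nat_lit 3271) (nat_lit 199) (.e (nat_lit 548914) (nat_lit 19) (.e (nat_lit 180278) (nat_lit 32) (.e (nat_lit 1234) (nat_lit 91) .nil)))))) (.g (nat_lit 0) .nil .nil))) 
(.lf (nat_lit 219489) (.g (nat_lit 2564) (.e (nat_lit 90176) (nat_lit 15) (.e (nat_lit 188447) (nat_lit 22) (.e (nat_lit 196666) (nat_lit 13) (.e (nat_lit 65547) (nat_lit 0) .nil)))) .nil)))) (.nd (nat_lit 5) (.nd (nat_lit 6) 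
(.lf (nat_lit 219409) (.g (nat_lit 1453) (.e (nat_lit 90176) (nat_lit 15) (.e (nat_lit 188439) (nat_lit 20) (.e (nat_lit 3270) (nat_lit 199) (.e (nat_lit 548913) (nat_lit 18) (.e (nat_lit 172041) (nat_lit 0) (.e (nat_lit 7936) (nat_lit 402) (.e (nat_lit 1227) (nat_lit 91) .nil))))))) (.g (nat_lit 4) .nil .nil))) 
(.lf (nat_lit 219473) (.g (nat_lit 1899) (.e (nat_lit 90176) (nat_lit 15) (.e (nat_lit 188447) (nat_lit 22) (.e (nat_lit 196661) (nat_lit 12) (.e (nat_lit 57721) (nat_lit 177) (.e (nat_lit 57881) (nat_lit 270) (.e (nat_lit 7936) (nat_lit 91) .nil)))))) (.g (nat_lit 5) .nil .nil)))) (.nd (nat_lit 6) 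
(.lf (nat_lit 219441) (.g (nat_lit 2190) (.e (nat_lit 90176) (nat_lit 15) (.e (nat_lit 188439) (nat_lit 20) (.e (nat_lit 3272) (nat_lit 199) (.e (nat_lit 548913) (nat_lit 18) (.e (nat_lit 172041) (nat_lit 0) (.e (nat_lit 7936) (nat_lit 402) (.e (nat_lit 1227) (nat_lit 91) .nil))))))) (.g (nat_lit 5) .nil .nil))) 
(.lf (nat_lit 219505) (.g (nat_lit 481) (.e (nat_lit 90176) (nat_lit 15) (.e (nat_lit 188447) (nat_lit 22) (.e (nat_lit 196670) (nat_lit 14) .nil))) .nil))))) (.nd (nat_lit 4) (.nd (nat_lit 5) (.nd (nat_lit 6) 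
(.lf (nat_lit 219401) (.g (nat_lit 1452) (.e (nat_lit 90176) (nat_lit 15) (.e (nat_lit 188439) (nat_lit 20) (.e (nat_lit 3270) (nat_lit 199) (.e (nat_lit 548913) (nat_lit 18) (.e (nat_lit 172034) (nat_lit 0) (.e (nat_lit 7936) (nat_lit 402) (.e (nat_lit 1228) (nat_lit 91) .nil))))))) (.g (nat_lit 4) .nil .nil))) 
(.lf (nat_lit 219465) (.g (nat_lit 460) (.e (nat_lit 90176) (nat_lit 15) (.e (nat_lit 188447) (nat_lit 22) (.e (nat_lit 196625) (nat_lit 9) .nil))) .nil))) (.nd (nat_lit 6) 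
(.lf (nat_lit 219433) (.g (nat_lit 2202) (.e (nat_lit 90176) (nat_lit 15) (.e (nat_lit 188439) (nat_lit 20) (.e (nat_lit 3272) (nat_lit 199) (.e (nat_lit 548913) (nat_lit 18) (.e (nat_lit 172033) (nat_lit 0) (.e (nat_lit 7936) (nat_lit 402) (.e (nat_lit 1228) (nat_lit 91) .nil))))))) (.g (nat_lit 5) .nil .nil))) 
(.lf (nat_lit 219497) (.g (nat_lit 2916) (.e (nat_lit 90176) (nat_lit 15) (.e (nat_lit 188447) (nat_lit 22) (.e (nat_lit 196666) (nat_lit 13) (.e (nat_lit 65565) (nat_lit 1) (.e (nat_lit 65280) (nat_lit 241) (.e (nat_lit 57373) (nat_lit 2) .nil)))))) (.g (nat_lit 4) .nil .nil))))) (.nd (nat_lit 5) (.nd (nat_lit 6) 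
(.lf (nat_lit 219417) (.g (nat_lit 1331) (.e (nat_lit 90176) (nat_lit 15) (.e (nat_lit 188439) (nat_lit 20) (.e (nat_lit 3271) (nat_lit 199) (.e (nat_lit 548913) (nat_lit 18) (.e (nat_lit 172036) (nat_lit 0) (.e (nat_lit 7936) (nat_lit 402) (.e (nat_lit 1227) (nat_lit 91) .nil))))))) (.g (nat_lit 4) .nil .nil))) 
(.lf (nat_lit 219481) (.g (nat_lit 1990) (.e (nat_lit 90176) (nat_lit 15) (.e (nat_lit 188447) (nat_lit 22) (.e (nat_lit 196666) (nat_lit 13) (.e (nat_lit 65536) (nat_lit 0) .nil)))) .nil))) (.nd (nat_lit 6) 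
(.lf (nat_lit 219449) (.g (nat_lit 1057) (.e (nat_lit 90176) (nat_lit 15) (.e (nat_lit 188439) (nat_lit 20) (.e (nat_lit 3579) (nat_lit 223) (.e (nat_lit 745492) (nat_lit 5) .nil)))) .nil)) 
(.lf (nat_lit 219513) (.g (nat_lit 1031) (.e (nat_lit 90176) (nat_lit 15) (.e (nat_lit 188449) (nat_lit 22) (.e (nat_lit 196628) (nat_lit 9) (.e (nat_lit 968) (nat_lit 81) .nil)))) .nil)))))) (.nd (nat_lit 3) (.nd (nat_lit 4) (.nd (nat_lit 5) (.nd (nat_lit 6) 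
(.lf (nat_lit 219397) (.g (nat_lit 1359) (.e (nat_lit 90176) (nat_lit 15) (.e (nat_lit 188439) (nat_lit 20) (.e (nat_lit 3270) (nat_lit 199) (.e (nat_lit 548913) (nat_lit 18) (.e (nat_lit 172032) (nat_lit 0) (.e (nat_lit 7545) (nat_lit 402) (.e (nat_lit 1238) (nat_lit 91) .nil))))))) (.g (nat_lit 4) .nil .nil))) 
(.lf (nat_lit 219461) (.g (nat_lit 1639) (.e (nat_lit 90176) (nat_lit 15) (.e (nat_lit 188444) (nat_lit 21) (.e (nat_lit 164179) (nat_lit 154) (.e (nat_lit 57388) (nat_lit 5) .nil)))) .nil))) (.nd (nat_lit 6) 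
(.lf (nat_lit 219429) (.g (nat_lit 1690) (.e (nat_lit 90176) (nat_lit 15) (.e (nat_lit 188439) (nat_lit 20) (.e (nat_lit 3272) (nat_lit 199) (.e (nat_lit 548898) (nat_lit 14) (.e (nat_lit 2980) (nat_lit 185) (.e (nat_lit 442112) (nat_lit 0) (.e (nat_lit 1227) (nat_lit 91) .nil))))))) (.g (nat_lit 4) .nil .nil))) 
(.lf (nat_lit 219493) (.g (nat_lit 2563) (.e (nat_lit 90176) (nat_lit 15) (.e (nat_lit 188447) (nat_lit 22) (.e (nat_lit 196666) (nat_lit 13) (.e (nat_lit 65555) (nat_lit 0) .nil)))) .nil)))) (.nd (nat_lit 5) (.nd (nat_lit 6) 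
(.lf (nat_lit 219413) (.g (nat_lit 1330) (.e (nat_lit 90176) (nat_lit 15) (.e (nat_lit 188439) (nat_lit 20) (.e (nat_lit 3271) (nat_lit 199) (.e (nat_lit 548913) (nat_lit 18) (.e (nat_lit 172032) (nat_lit 0) (.e (nat_lit 7545) (nat_lit 402) (.e (nat_lit 1238) (nat_lit 91) .nil))))))) (.g (nat_lit 4) .nil .nil))) 
(.lf (nat_lit 219477) (.g (nat_lit 1675) (.e (nat_lit 90176) (nat_lit 15) (.e (nat_lit 188447) (nat_lit 22) (.e (nat_lit 196661) (nat_lit 12) (.e (nat_lit 57722) (nat_lit 178) (.e (nat_lit 123203) (nat_lit 270) (.e (nat_lit 7936) (nat_lit 91) .nil)))))) (.g (nat_lit 4) .nil .nil)))) (.nd (nat_lit 6) 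
(.lf (nat_lit 219445) (.g (nat_lit 2421) (.e (nat_lit 90176) (nat_lit 15) (.e (nat_lit 188439) (nat_lit 20) (.e (nat_lit 3272) (nat_lit 199) (.e (nat_lit 548914) (nat_lit 19) (.e (nat_lit 180277) (nat_lit 32) (.e (nat_lit 1235) (nat_lit 91) .nil)))))) (.g (nat_lit 0) .nil .nil))) 
(.lf (nat_lit 219509) (.g (nat_lit 3127) (.e (nat_lit 90176) (nat_lit 15) (.e (nat_lit 188447) (nat_lit 22) (.e (nat_lit 196681) (nat_lit 17) (.e (nat_lit 131089) (nat_lit 1) (.e (nat_lit 57931) (nat_lit 282) (.e (nat_lit 171776) (nat_lit 63) .nil)))))) (.g (nat_lit 5) .nil .nil)))))) (.nd (nat_lit 4) (.nd (nat_lit 5) (.nd (nat_lit 6) 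
(.lf (nat_lit 219405) (.g (nat_lit 1236) (.e (nat_lit 90176) (nat_lit 15) (.e (nat_lit 188439) (nat_lit 20) (.e (nat_lit 3270) (nat_lit 199) (.e (nat_lit 548913) (nat_lit 18) (.e (nat_lit 172036) (nat_lit 0) (.e (nat_lit 7936) (nat_lit 402) (.e (nat_lit 1228) (nat_lit 91) .nil))))))) (.g (nat_lit 4) .nil .nil))) 
(.lf (nat_lit 219469) (.g (nat_lit 3096) (.e (nat_lit 90176) (nat_lit 15) (.e (nat_lit 188447) (nat_lit 22) (.e (nat_lit 196661) (nat_lit 12) (.e (nat_lit 57711) (nat_lit 176) (.e (nat_lit 1367) (nat_lit 103) (.e (nat_lit 294928) (nat_lit 2) .nil)))))) (.g (nat_lit 0) .nil .nil)))) (.nd (nat_lit 6) 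
(.lf (nat_lit 219437) (.g (nat_lit 1944) (.e (nat_lit 90176) (nat_lit 15) (.e (nat_lit 188439) (nat_lit 20) (.e (nat_lit 3272) (nat_lit 199) (.e (nat_lit 548913) (nat_lit 18) (.e (nat_lit 172036) (nat_lit 0) (.e (nat_lit 7554) (nat_lit 402) (.e (nat_lit 1234) (nat_lit 91) .nil))))))) (.g (nat_lit 4) .nil .nil))) 
(.lf (nat_lit 219501) (.g (nat_lit 1407) (.e (nat_lit 90176) (nat_lit 15) (.e (nat_lit 188447) (nat_lit 22) (.e (nat_lit 196668) (nat_lit 14) (.e (nat_lit 73733) (nat_lit 0) .nil)))) .nil)))) (.nd (nat_lit 5) (.nd (nat_lit 6) 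
(.lf (nat_lit 219421) (.g (nat_lit 1218) (.e (nat_lit 90176) (nat_lit 15) (.e (nat_lit 188439) (nat_lit 20) (.e (nat_lit 3271) (nat_lit 199) (.e (nat_lit 548913) (nat_lit 18) (.e (nat_lit 172038) (nat_lit 0) (.e (nat_lit 7936) (nat_lit 402) (.e (nat_lit 1238) (nat_lit 91) .nil))))))) (.g (nat_lit 4) .nil .nil))) 
(.lf (nat_lit 219485) (.g (nat_lit 1899) (.e (nat_lit 90176) (nat_lit 15) (.e (nat_lit 188447) (nat_lit 22) (.e (nat_lit 196666) (nat_lit 13) (.e (nat_lit 65543) (nat_lit 0) .nil)))) .nil))) (.nd (nat_lit 6) 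
(.lf (nat_lit 219453) (.g (nat_lit 3928) (.e (nat_lit 90176) (nat_lit 15) (.e (nat_lit 188440) (nat_lit 20) (.e (nat_lit 3307) (nat_lit 202) (.e (nat_lit 573454) (nat_lit 9) (.e (nat_lit 1315) (nat_lit 98) (.e (nat_lit 147496) (nat_lit 11) (.e (nat_lit 24603) (nat_lit 2) .nil))))))) (.g (nat_lit 6) .nil .nil))) 
(.lf (nat_lit 219517) (.g (nat_lit 2099) (.e (nat_lit 90176) (nat_lit 15) (.e (nat_lit 188449) (nat_lit 22) (.e (nat_lit 196630) (nat_lit 9) (.e (nat_lit 1401) (nat_lit 106) (.e (nat_lit 319534) (nat_lit 16) .nil))))) .nil))))))) (.nd (nat_lit 2) (.nd (nat_lit 3) (.nd (nat_lit 4) (.nd (nat_lit 5) (.nd (nat_lit 6) 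
(.lf (nat_lit 219395) (.g (nat_lit 1727) (.e (nat_lit 90176) (nat_lit 15) (.e (nat_lit 196352) (nat_lit 18) (.e (nat_lit 393251) (nat_lit 18) (.e (nat_lit 164399) (nat_lit 256) (.e (nat_lit 57370) (nat_lit 2) .nil))))) (.g (nat_lit 4) .nil .nil))) 
(.lf (nat_lit 219459) (.g (nat_lit 1311) (.e (nat_lit 90176) (nat_lit 15) (.e (nat_lit 188444) (nat_lit 21) (.e (nat_lit 164177) (nat_lit 154) (.e (nat_lit 57388) (nat_lit 5) (.e (nat_lit 114696) (nat_lit 11) .nil))))) .nil))) (.nd (nat_lit 6) 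
(.lf (nat_lit 219427) (.g (nat_lit 574) (.e (nat_lit 90176) (nat_lit 15) (.e (nat_lit 188439) (nat_lit 20) (.e (nat_lit 3272) (nat_lit 199) (.e (nat_lit 548898) (nat_lit 14) .nil)))) .nil)) 
(.lf (nat_lit 219491) (.g (nat_lit 1714) (.e (nat_lit 90176) (nat_lit 15) (.e (nat_lit 188447) (nat_lit 22) (.e (nat_lit 196666) (nat_lit 13) (.e (nat_lit 65550) (nat_lit 0) .nil)))) .nil)))) (.nd (nat_lit 5) (.nd (nat_lit 6) 
(.lf (nat_lit 219411) (.g (nat_lit 1332) (.e (nat_lit 90176) (nat_lit 15) (.e (nat_lit 188439) (nat_lit 20) (.e (nat_lit 3270) (nat_lit 199) (.e (nat_lit 548913) (nat_lit 18) (.e (nat_lit 172049) (nat_lit 0) (.e (nat_lit 7936) (nat_lit 402) (.e (nat_lit 1228) (nat_lit 91) .nil))))))) (.g (nat_lit 4) .nil .nil))) 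
(.lf (nat_lit 219475) (.g (nat_lit 1732) (.e (nat_lit 90176) (nat_lit 15) (.e (nat_lit 188447) (nat_lit 22) (.e (nat_lit 196661) (nat_lit 12) (.e (nat_lit 57721) (nat_lit 177) (.e (nat_lit 57888) (nat_lit 270) (.e (nat_lit 1225) (nat_lit 91) .nil)))))) (.g (nat_lit 4) .nil .nil)))) (.nd (nat_lit 6) 
(.lf (nat_lit 219443) (.g (nat_lit 2277) (.e (nat_lit 90176) (nat_lit 15) (.e (nat_lit 188439) (nat_lit 20) (.e (nat_lit 3272) (nat_lit 199) (.e (nat_lit 548913) (nat_lit 18) (.e (nat_lit 172041) (nat_lit 0) (.e (nat_lit 7936) (nat_lit 402) (.e (nat_lit 1238) (nat_lit 91) .nil))))))) (.g (nat_lit 5) .nil .nil))) 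
(.lf (nat_lit 219507) (.g (nat_lit 3128) (.e (nat_lit 90176) (nat_lit 15) (.e (nat_lit 188447) (nat_lit 22) (.e (nat_lit 196670) (nat_lit 14) (.e (nat_lit 73732) (nat_lit 0) (.e (nat_lit 7936) (nat_lit 283) (.e (nat_lit 57373) (nat_lit 2) .nil)))))) (.g (nat_lit 4) .nil .nil)))))) (.nd (nat_lit 4) (.nd (nat_lit 5) (.nd (nat_lit 6) 
(.lf (nat_lit 219403) (.g (nat_lit 2010) (.e (nat_lit 90176) (nat_lit 15) (.e (nat_lit 188439) (nat_lit 20) (.e (nat_lit 3270) (nat_lit 199) (.e (nat_lit 548913) (nat_lit 18) (.e (nat_lit 172035) (nat_lit 0) (.e (nat_lit 7936) (nat_lit 402) (.e (nat_lit 1228) (nat_lit 91) .nil))))))) (.g (nat_lit 5) .nil .nil))) 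
(.lf (nat_lit 219467) (.g (nat_lit 399) (.e (nat_lit 90176) (nat_lit 15) (.e (nat_lit 188447) (nat_lit 22) (.e (nat_lit 196630) (nat_lit 9) .nil))) .nil))) (.nd (nat_lit 6) 
(.lf (nat_lit 219435) (.g (nat_lit 2312) (.e (nat_lit 90176) (nat_lit 15) (.e (nat_lit 188439) (nat_lit 20) (.e (nat_lit 3272) (nat_lit 199) (.e (nat_lit 548913) (nat_lit 18) (.e (nat_lit 172034) (nat_lit 0) (.e (nat_lit 7541) (nat_lit 402) (.e (nat_lit 1228) (nat_lit 91) .nil))))))) (.g (nat_lit 6) .nil .nil))) 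
(.lf (nat_lit 219499) (.g (nat_lit 494) (.e (nat_lit 90176) (nat_lit 15) (.e (nat_lit 188447) (nat_lit 22) (.e (nat_lit 196668) (nat_lit 14) .nil))) .nil)))) (.nd (nat_lit 5) (.nd (nat_lit 6) 
(.lf (nat_lit 219419) (.g (nat_lit 1098) (.e (nat_lit 90176) (nat_lit 15) (.e (nat_lit 188439) (nat_lit 20) (.e (nat_lit 3271) (nat_lit 199) (.e (nat_lit 548913) (nat_lit 18) (.e (nat_lit 172038) (nat_lit 0) (.e (nat_lit 7936) (nat_lit 402) (.e (nat_lit 1227) (nat_lit 91) .nil))))))) (.g (nat_lit 4) .nil .nil))) 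
(.lf (nat_lit 219483) (.g (nat_lit 2264) (.e (nat_lit 90176) (nat_lit 15) (.e (nat_lit 188447) (nat_lit 22) (.e (nat_lit 196666) (nat_lit 13) (.e (nat_lit 65538) (nat_lit 0) .nil)))) .nil))) (.nd (nat_lit 6) 
(.lf (nat_lit 219451) (.g (nat_lit 467) (.e (nat_lit 90176) (nat_lit 15) (.e (nat_lit 188440) (nat_lit 20) (.e (nat_lit 3307) (nat_lit 202) .nil))) .nil)) 
(.lf (nat_lit 219515) (.g (nat_lit 1194) (.e (nat_lit 90176) (nat_lit 15) (.e (nat_lit 188449) (nat_lit 22) (.e (nat_lit 196628) (nat_lit 9) (.e (nat_lit 7936) (nat_lit 106) .nil)))) .nil)))))) (.nd (nat_lit 3) (.nd (nat_lit 4) (.nd (nat_lit 5) (.nd (nat_lit 6) 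
(.lf (nat_lit 219399) (.g (nat_lit 1935) (.e (nat_lit 90176) (nat_lit 15) (.e (nat_lit 188439) (nat_lit 20) (.e (nat_lit 3270) (nat_lit 199) (.e (nat_lit 548913) (nat_lit 18) (.e (nat_lit 172033) (nat_lit 0) (.e (nat_lit 7936) (nat_lit 402) (.e (nat_lit 1228) (nat_lit 91) .nil))))))) (.g (nat_lit 5) .nil .nil))) 
(.lf (nat_lit 219463) (.g (nat_lit 504) (.e (nat_lit 90176) (nat_lit 15) (.e (nat_lit 188444) (nat_lit 21) (.e (nat_lit 164183) (nat_lit 154) .nil))) .nil))) (.nd (nat_lit 6) 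
(.lf (nat_lit 219431) (.g (nat_lit 1673) (.e (nat_lit 90176) (nat_lit 15) (.e (nat_lit 188439) (nat_lit 20) (.e (nat_lit 3272) (nat_lit 199) (.e (nat_lit 548898) (nat_lit 14) (.e (nat_lit 3063) (nat_lit 190) .nil))))) .nil)) 
(.lf (nat_lit 219495) (.g (nat_lit 2564) (.e (nat_lit 90176) (nat_lit 15) (.e (nat_lit 188447) (nat_lit 22) (.e (nat_lit 196666) (nat_lit 13) (.e (nat_lit 65558) (nat_lit 0) .nil)))) .nil)))) (.nd (nat_lit 5) (.nd (nat_lit 6) 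
(.lf (nat_lit 219415) (.g (nat_lit 1080) (.e (nat_lit 90176) (nat_lit 15) (.e (nat_lit 188439) (nat_lit 20) (.e (nat_lit 3271) (nat_lit 199) (.e (nat_lit 548913) (nat_lit 18) (.e (nat_lit 172034) (nat_lit 0) (.e (nat_lit 7545) (nat_lit 402) (.e (nat_lit 1227) (nat_lit 91) .nil))))))) (.g (nat_lit 4) .nil .nil))) 
(.lf (nat_lit 219479) (.g (nat_lit 1034) (.e (nat_lit 90176) (nat_lit 15) (.e (nat_lit 188447) (nat_lit 22) (.e (nat_lit 196663) (nat_lit 13) (.e (nat_lit 65574) (nat_lit 4) (.e (nat_lit 130816) (nat_lit 241) .nil))))) .nil))) (.nd (nat_lit 6) 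
(.lf (nat_lit 219447) (.g (nat_lit 1996) (.e (nat_lit 90176) (nat_lit 15) (.e (nat_lit 188439) (nat_lit 20) (.e (nat_lit 3307) (nat_lit 202) (.e (nat_lit 573477) (nat_lit 12) (.e (nat_lit 65280) (nat_lit 57) .nil))))) .nil)) 
(.lf (nat_lit 219511) (.g (nat_lit 1964) (.e (nat_lit 90176) (nat_lit 15) (.e (nat_lit 188448) (nat_lit 22) (.e (nat_lit 196670) (nat_lit 14) (.e (nat_lit 73729) (nat_lit 0) (.e (nat_lit 7936) (nat_lit 283) .nil))))) .nil))))) (.nd (nat_lit 4) (.nd (nat_lit 5) (.nd (nat_lit 6) 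
(.lf (nat_lit 219407) (.g (nat_lit 1247) (.e (nat_lit 90176) (nat_lit 15) (.e (nat_lit 188439) (nat_lit 20) (.e (nat_lit 3270) (nat_lit 199) (.e (nat_lit 548913) (nat_lit 18) (.e (nat_lit 172038) (nat_lit 0) (.e (nat_lit 7936) (nat_lit 402) (.e (nat_lit 1238) (nat_lit 91) .nil))))))) (.g (nat_lit 4) .nil .nil))) 
(.lf (nat_lit 219471) (.g (nat_lit 2871) (.e (nat_lit 90176) (nat_lit 15) (.e (nat_lit 188447) (nat_lit 22) (.e (nat_lit 196661) (nat_lit 12) (.e (nat_lit 57714) (nat_lit 176) (.e (nat_lit 1368) (nat_lit 103) (.e (nat_lit 294928) (nat_lit 2) .nil)))))) (.g (nat_lit 0) .nil .nil)))) (.nd (nat_lit 6) 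
(.lf (nat_lit 219439) (.g (nat_lit 1972) (.e (nat_lit 90176) (nat_lit 15) (.e (nat_lit 188439) (nat_lit 20) (.e (nat_lit 3272) (nat_lit 199) (.e (nat_lit 548913) (nat_lit 18) (.e (nat_lit 172037) (nat_lit 0) (.e (nat_lit 7557) (nat_lit 402) (.e (nat_lit 1234) (nat_lit 91) .nil))))))) (.g (nat_lit 4) .nil .nil))) 
(.lf (nat_lit 219503) (.g (nat_lit 1668) (.e (nat_lit 90176) (nat_lit 15) (.e (nat_lit 188447) (nat_lit 22) (.e (nat_lit 196668) (nat_lit 14) (.e (nat_lit 73762) (nat_lit 16) .nil)))) .nil)))) (.nd (nat_lit 5) (.nd (nat_lit 6) 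
(.lf (nat_lit 219423) (.g (nat_lit 1349) (.e (nat_lit 90176) (nat_lit 15) (.e (nat_lit 188439) (nat_lit 20) (.e (nat_lit 3271) (nat_lit 199) (.e (nat_lit 548913) (nat_lit 18) (.e (nat_lit 172049) (nat_lit 0) (.e (nat_lit 7936) (nat_lit 402) (.e (nat_lit 1228) (nat_lit 91) .nil))))))) (.g (nat_lit 4) .nil .nil))) 
(.lf (nat_lit 219487) (.g (nat_lit 2361) (.e (nat_lit 90176) (nat_lit 15) (.e (nat_lit 188447) (nat_lit 22) (.e (nat_lit 196666) (nat_lit 13) (.e (nat_lit 65545) (nat_lit 0) .nil)))) .nil))) (.nd (nat_lit 6) 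
(.lf (nat_lit 219455) (.g (nat_lit 2229) (.e (nat_lit 90176) (nat_lit 15) (.e (nat_lit 188440) (nat_lit 20) (.e (nat_lit 3307) (nat_lit 202) (.e (nat_lit 573456) (nat_lit 9) (.e (nat_lit 1312) (nat_lit 98) .nil))))) .nil)) 
(.lf (nat_lit 219519) (.g (nat_lit 1131) (.e (nat_lit 90176) (nat_lit 15) (.e (nat_lit 188449) (nat_lit 22) (.e (nat_lit 196661) (nat_lit 12) (.e (nat_lit 57711) (nat_lit 176) .nil)))) .nil)))))))))

noncomputable def tv2884 : DT := (.nd (nat_lit 0) (.nd (nat_lit 1) (.nd (nat_lit 2) (.nd (nat_lit 3) (.nd (nat_lit 4) (.nd (nat_lit 5) (.nd (nat_lit 6) 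
(.lf (nat_lit 219520) (.g (nat_lit 627) (.e (nat_lit 90176) (nat_lit 15) (.e (nat_lit 188449) (nat_lit 22) (.e (nat_lit 196666) (nat_lit 13) .nil))) .nil)) 
(.lf (nat_lit 219584) (.g (nat_lit 396) (.e (nat_lit 90176) (nat_lit 15) (.e (nat_lit 188450) (nat_lit 23) (.e (nat_lit 204830) (nat_lit 18) .nil))) .nil))) (.nd (nat_lit 6) 
(.lf (nat_lit 219552) (.g (nat_lit 2440) (.e (nat_lit 90176) (nat_lit 15) (.e (nat_lit 188450) (nat_lit 23) (.e (nat_lit 204819) (nat_lit 17) (.e (nat_lit 6218) (nat_lit 333) (.e (nat_lit 57881) (nat_lit 270) (.e (nat_lit 7936) (nat_lit 91) .nil)))))) (.g (nat_lit 5) .nil .nil))) 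
(.lf (nat_lit 219616) (.g (nat_lit 2699) (.e (nat_lit 90176) (nat_lit 15) (.e (nat_lit 188450) (nat_lit 23) (.e (nat_lit 204846) (nat_lit 24) (.e (nat_lit 319505) (nat_lit 10) (.e (nat_lit 13) (nat_lit 0) .nil))))) .nil)))) (.nd (nat_lit 5) (.nd (nat_lit 6) 
(.lf (nat_lit 219536) (.g (nat_lit 2222) (.e (nat_lit 90176) (nat_lit 15) (.e (nat_lit 188450) (nat_lit 23) (.e (nat_lit 204816) (nat_lit 17) (.e (nat_lit 6220) (nat_lit 333) (.e (nat_lit 57884) (nat_lit 270) (.e (nat_lit 1225) (nat_lit 91) .nil)))))) (.g (nat_lit 5) .nil .nil))) 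
(.lf (nat_lit 219600) (.g (nat_lit 1393) (.e (nat_lit 90176) (nat_lit 15) (.e (nat_lit 188450) (nat_lit 23) (.e (nat_lit 204845) (nat_lit 24) (.e (nat_lit 319536) (nat_lit 17) .nil)))) .nil))) (.nd (nat_lit 6) 
(.lf (nat_lit 219568) (.g (nat_lit 1973) (.e (nat_lit 90176) (nat_lit 15) (.e (nat_lit 188450) (nat_lit 23) (.e (nat_lit 204821) (nat_lit 17) (.e (nat_lit 6114) (nat_lit 332) (.e (nat_lit 970) (nat_lit 81) (.e (nat_lit 7936) (nat_lit 298) (.e (nat_lit 1238) (nat_lit 91) .nil))))))) (.g (nat_lit 4) .nil .nil))) 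
(.lf (nat_lit 219632) (.g (nat_lit 1584) (.e (nat_lit 90176) (nat_lit 15) (.e (nat_lit 188450) (nat_lit 23) (.e (nat_lit 204848) (nat_lit 25) (.e (nat_lit 327705) (nat_lit 10) (.e (nat_lit 5289) (nat_lit 298) (.e (nat_lit 1225) (nat_lit 91) .nil)))))) (.g (nat_lit 4) .nil .nil)))))) (.nd (nat_lit 4) (.nd (nat_lit 5) (.nd (nat_lit 6) 
(.lf (nat_lit 219528) (.g (nat_lit 929) (.e (nat_lit 90176) (nat_lit 15) (.e (nat_lit 188450) (nat_lit 23) (.e (nat_lit 204803) (nat_lit 0) (.e (nat_lit 2479) (nat_lit 157) .nil)))) .nil)) 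
(.lf (nat_lit 219592) (.g (nat_lit 1427) (.e (nat_lit 90176) (nat_lit 15) (.e (nat_lit 188450) (nat_lit 23) (.e (nat_lit 204845) (nat_lit 24) (.e (nat_lit 319502) (nat_lit 10) .nil)))) .nil))) (.nd (nat_lit 6) 
(.lf (nat_lit 219560) (.g (nat_lit 2004) (.e (nat_lit 90176) (nat_lit 15) (.e (nat_lit 188450) (nat_lit 23) (.e (nat_lit 204819) (nat_lit 17) (.e (nat_lit 6218) (nat_lit 333) (.e (nat_lit 65280) (nat_lit 270) (.e (nat_lit 1238) (nat_lit 91) .nil)))))) (.g (nat_lit 4) .nil .nil))) 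
(.lf (nat_lit 219624) (.g (nat_lit 2864) (.e (nat_lit 90176) (nat_lit 15) (.e (nat_lit 188450) (nat_lit 23) (.e (nat_lit 204846) (nat_lit 24) (.e (nat_lit 319510) (nat_lit 10) .nil)))) .nil)))) (.nd (nat_lit 5) (.nd (nat_lit 6) 
(.lf (nat_lit 219544) (.g (nat_lit 1947) (.e (nat_lit 90176) (nat_lit 15) (.e (nat_lit 188450) (nat_lit 23) (.e (nat_lit 204819) (nat_lit 17) (.e (nat_lit 6109) (nat_lit 332) (.e (nat_lit 1004) (nat_lit 81) (.e (nat_lit 7936) (nat_lit 298) (.e (nat_lit 1227) (nat_lit 91) .nil))))))) (.g (nat_lit 4) .nil .nil))) 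
(.lf (nat_lit 219608) (.g (nat_lit 2373) (.e (nat_lit 90176) (nat_lit 15) (.e (nat_lit 188450) (nat_lit 23) (.e (nat_lit 204846) (nat_lit 24) (.e (nat_lit 319502) (nat_lit 10) (.e (nat_lit 7936) (nat_lit 298) (.e (nat_lit 1227) (nat_lit 91) .nil)))))) (.g (nat_lit 4) .nil .nil)))) (.nd (nat_lit 6) 
(.lf (nat_lit 219576) (.g (nat_lit 1378) (.e (nat_lit 90176) (nat_lit 15) (.e (nat_lit 188450) (nat_lit 23) (.e (nat_lit 204821) (nat_lit 17) (.e (nat_lit 6223) (nat_lit 334) (.e (nat_lit 123203) (nat_lit 270) (.e (nat_lit 7936) (nat_lit 91) .nil)))))) (.g (nat_lit 4) .nil .nil))) 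
(.lf (nat_lit 219640) (.g (nat_lit 2634) (.e (nat_lit 90176) (nat_lit 15) (.e (nat_lit 188450) (nat_lit 23) (.e (nat_lit 204849) (nat_lit 25) (.e (nat_lit 327708) (nat_lit 10) (.e (nat_lit 5293) (nat_lit 298) (.e (nat_lit 1232) (nat_lit 91) .nil)))))) (.g (nat_lit 5) .nil .nil))))))) (.nd (nat_lit 3) (.nd (nat_lit 4) (.nd (nat_lit 5) (.nd (nat_lit 6) 
(.lf (nat_lit 219524) (.g (nat_lit 2853) (.e (nat_lit 90176) (nat_lit 15) (.e (nat_lit 188449) (nat_lit 22) (.e (nat_lit 196670) (nat_lit 14) (.e (nat_lit 73729) (nat_lit 0) (.e (nat_lit 7936) (nat_lit 283) .nil))))) .nil)) 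
(.lf (nat_lit 219588) (.g (nat_lit 503) (.e (nat_lit 90176) (nat_lit 15) (.e (nat_lit 188450) (nat_lit 23) (.e (nat_lit 204845) (nat_lit 24) .nil))) .nil))) (.nd (nat_lit 6) 
(.lf (nat_lit 219556) (.g (nat_lit 1885) (.e (nat_lit 90176) (nat_lit 15) (.e (nat_lit 188450) (nat_lit 23) (.e (nat_lit 204819) (nat_lit 17) (.e (nat_lit 6218) (nat_lit 333) (.e (nat_lit 57888) (nat_lit 270) (.e (nat_lit 1225) (nat_lit 91) .nil)))))) (.g (nat_lit 4) .nil .nil))) 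
(.lf (nat_lit 219620) (.g (nat_lit 1889) (.e (nat_lit 90176) (nat_lit 15) (.e (nat_lit 188450) (nat_lit 23) (.e (nat_lit 204846) (nat_lit 24) (.e (nat_lit 319506) (nat_lit 10) (.e (nat_lit 5295) (nat_lit 298) (.e (nat_lit 1225) (nat_lit 91) .nil)))))) (.g (nat_lit 4) .nil .nil))))) (.nd (nat_lit 5) (.nd (nat_lit 6) 
(.lf (nat_lit 219540) (.g (nat_lit 350) (.e (nat_lit 90176) (nat_lit 15) (.e (nat_lit 188450) (nat_lit 23) (.e (nat_lit 204817) (nat_lit 17) .nil))) .nil)) 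
(.lf (nat_lit 219604) (.g (nat_lit 2163) (.e (nat_lit 90176) (nat_lit 15) (.e (nat_lit 188450) (nat_lit 23) (.e (nat_lit 204846) (nat_lit 24) (.e (nat_lit 319498) (nat_lit 10) .nil)))) .nil))) (.nd (nat_lit 6) 
(.lf (nat_lit 219572) (.g (nat_lit 2862) (.e (nat_lit 90176) (nat_lit 15) (.e (nat_lit 188450) (nat_lit 23) (.e (nat_lit 204821) (nat_lit 17) (.e (nat_lit 6136) (nat_lit 332) (.e (nat_lit 1368) (nat_lit 103) (.e (nat_lit 294928) (nat_lit 2) .nil)))))) (.g (nat_lit 0) .nil .nil))) 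
(.lf (nat_lit 219636) (.g (nat_lit 1785) (.e (nat_lit 90176) (nat_lit 15) (.e (nat_lit 188450) (nat_lit 23) (.e (nat_lit 204849) (nat_lit 25) (.e (nat_lit 327703) (nat_lit 10) (.e (nat_lit 5291) (nat_lit 298) .nil))))) .nil))))) (.nd (nat_lit 4) (.nd (nat_lit 5) (.nd (nat_lit 6) 
(.lf (nat_lit 219532) (.g (nat_lit 429) (.e (nat_lit 90176) (nat_lit 15) (.e (nat_lit 188450) (nat_lit 23) (.e (nat_lit 212736) (nat_lit 4) .nil))) .nil)) 
(.lf (nat_lit 219596) (.g (nat_lit 2104) (.e (nat_lit 90176) (nat_lit 15) (.e (nat_lit 188450) (nat_lit 23) (.e (nat_lit 204845) (nat_lit 24) (.e (nat_lit 319530) (nat_lit 16) (.e (nat_lit 294656) (nat_lit 2) .nil))))) .nil))) (.nd (nat_lit 6) 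
(.lf (nat_lit 219564) (.g (nat_lit 1997) (.e (nat_lit 90176) (nat_lit 15) (.e (nat_lit 188450) (nat_lit 23) (.e (nat_lit 204821) (nat_lit 17) (.e (nat_lit 6114) (nat_lit 332) (.e (nat_lit 968) (nat_lit 81) (.e (nat_lit 5345) (nat_lit 298) (.e (nat_lit 1228) (nat_lit 91) .nil))))))) (.g (nat_lit 4) .nil .nil))) 
(.lf (nat_lit 219628) (.g (nat_lit 1799) (.e (nat_lit 90176) (nat_lit 15) (.e (nat_lit 188450) (nat_lit 23) (.e (nat_lit 204846) (nat_lit 24) (.e (nat_lit 319530) (nat_lit 16) (.e (nat_lit 294656) (nat_lit 2) .nil))))) .nil)))) (.nd (nat_lit 5) (.nd (nat_lit 6) 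
(.lf (nat_lit 219548) (.g (nat_lit 1800) (.e (nat_lit 90176) (nat_lit 15) (.e (nat_lit 188450) (nat_lit 23) (.e (nat_lit 204819) (nat_lit 17) (.e (nat_lit 6113) (nat_lit 332) (.e (nat_lit 1361) (nat_lit 102) (.e (nat_lit 294656) (nat_lit 2) .nil)))))) (.g (nat_lit 4) .nil .nil))) 
(.lf (nat_lit 219612) (.g (nat_lit 3090) (.e (nat_lit 90176) (nat_lit 15) (.e (nat_lit 188450) (nat_lit 23) (.e (nat_lit 204846) (nat_lit 24) (.e (nat_lit 319504) (nat_lit 10) (.e (nat_lit 5291) (nat_lit 298) (.e (nat_lit 1225) (nat_lit 91) .nil)))))) (.g (nat_lit 4) .nil .nil)))) (.nd (nat_lit 6) 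
(.lf (nat_lit 219580) (.g (nat_lit 661) (.e (nat_lit 90176) (nat_lit 15) (.e (nat_lit 188450) (nat_lit 23) (.e (nat_lit 204826) (nat_lit 17) .nil))) .nil)) 
(.lf (nat_lit 219644) (.g (nat_lit 1691) (.e (nat_lit 90176) (nat_lit 15) (.e (nat_lit 188450) (nat_lit 23) (.e (nat_lit 204852) (nat_lit 26) (.e (nat_lit 335999) (nat_lit 1) .nil)))) .nil))))))) (.nd (nat_lit 2) (.nd (nat_lit 3) (.nd (nat_lit 4) (.nd (nat_lit 5) (.nd (nat_lit 6) 
(.lf (nat_lit 219522) (.g (nat_lit 2008) (.e (nat_lit 90176) (nat_lit 15) (.e (nat_lit 188449) (nat_lit 22) (.e (nat_lit 196666) (nat_lit 13) (.e (nat_lit 65546) (nat_lit 0) .nil)))) .nil)) 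
(.lf (nat_lit 219586) (.g (nat_lit 1583) (.e (nat_lit 90176) (nat_lit 15) (.e (nat_lit 188450) (nat_lit 23) (.e (nat_lit 204831) (nat_lit 18) (.e (nat_lit 57778) (nat_lit 233) .nil)))) .nil))) (.nd (nat_lit 6) 
(.lf (nat_lit 219554) (.g (nat_lit 2068) (.e (nat_lit 90176) (nat_lit 15) (.e (nat_lit 188450) (nat_lit 23) (.e (nat_lit 204819) (nat_lit 17) (.e (nat_lit 6218) (nat_lit 333) (.e (nat_lit 57886) (nat_lit 270) (.e (nat_lit 1225) (nat_lit 91) .nil)))))) (.g (nat_lit 4) .nil .nil))) 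
(.lf (nat_lit 219618) (.g (nat_lit 3359) (.e (nat_lit 90176) (nat_lit 15) (.e (nat_lit 188450) (nat_lit 23) (.e (nat_lit 204846) (nat_lit 24) (.e (nat_lit 319505) (nat_lit 10) (.e (nat_lit 7936) (nat_lit 298) (.e (nat_lit 1228) (nat_lit 91) .nil)))))) (.g (nat_lit 4) .nil .nil))))) (.nd (nat_lit 5) (.nd (nat_lit 6) 
(.lf (nat_lit 219538) (.g (nat_lit 1339) (.e (nat_lit 90176) (nat_lit 15) (.e (nat_lit 188450) (nat_lit 23) (.e (nat_lit 204816) (nat_lit 17) (.e (nat_lit 6221) (nat_lit 333) (.e (nat_lit 57885) (nat_lit 270) .nil))))) .nil)) 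
(.lf (nat_lit 219602) (.g (nat_lit 1970) (.e (nat_lit 90176) (nat_lit 15) (.e (nat_lit 188450) (nat_lit 23) (.e (nat_lit 204846) (nat_lit 24) (.e (nat_lit 319496) (nat_lit 10) .nil)))) .nil))) (.nd (nat_lit 6) 
(.lf (nat_lit 219570) (.g (nat_lit 3544) (.e (nat_lit 90176) (nat_lit 15) (.e (nat_lit 188450) (nat_lit 23) (.e (nat_lit 204821) (nat_lit 17) (.e (nat_lit 6114) (nat_lit 332) (.e (nat_lit 1370) (nat_lit 103) (.e (nat_lit 294928) (nat_lit 2) .nil)))))) (.g (nat_lit 0) .nil .nil))) 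
(.lf (nat_lit 219634) (.g (nat_lit 1557) (.e (nat_lit 90176) (nat_lit 15) (.e (nat_lit 188450) (nat_lit 23) (.e (nat_lit 204848) (nat_lit 25) (.e (nat_lit 327717) (nat_lit 17) (.e (nat_lit 294926) (nat_lit 2) .nil))))) .nil))))) (.nd (nat_lit 4) (.nd (nat_lit 5) (.nd (nat_lit 6) 
(.lf (nat_lit 219530) (.g (nat_lit 429) (.e (nat_lit 90176) (nat_lit 15) (.e (nat_lit 188450) (nat_lit 23) (.e (nat_lit 212736) (nat_lit 0) .nil))) .nil)) 
(.lf (nat_lit 219594) (.g (nat_lit 2138) (.e (nat_lit 90176) (nat_lit 15) (.e (nat_lit 188450) (nat_lit 23) (.e (nat_lit 204845) (nat_lit 24) (.e (nat_lit 319506) (nat_lit 10) (.e (nat_lit 5371) (nat_lit 298) .nil))))) .nil))) (.nd (nat_lit 6) 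
(.lf (nat_lit 219562) (.g (nat_lit 311) (.e (nat_lit 90176) (nat_lit 15) (.e (nat_lit 188450) (nat_lit 23) (.e (nat_lit 204821) (nat_lit 17) .nil))) .nil)) 
(.lf (nat_lit 219626) (.g (nat_lit 1313) (.e (nat_lit 90176) (nat_lit 15) (.e (nat_lit 188450) (nat_lit 23) (.e (nat_lit 204846) (nat_lit 24) (.e (nat_lit 327424) (nat_lit 10) .nil)))) .nil)))) (.nd (nat_lit 5) (.nd (nat_lit 6) 
(.lf (nat_lit 219546) (.g (nat_lit 921) (.e (nat_lit 90176) (nat_lit 15) (.e (nat_lit 188450) (nat_lit 23) (.e (nat_lit 204819) (nat_lit 17) (.e (nat_lit 6113) (nat_lit 332) .nil)))) .nil)) 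
(.lf (nat_lit 219610) (.g (nat_lit 2929) (.e (nat_lit 90176) (nat_lit 15) (.e (nat_lit 188450) (nat_lit 23) (.e (nat_lit 204846) (nat_lit 24) (.e (nat_lit 319504) (nat_lit 10) (.e (nat_lit 13) (nat_lit 0) .nil))))) .nil))) (.nd (nat_lit 6) 
(.lf (nat_lit 219578) (.g (nat_lit 1438) (.e (nat_lit 90176) (nat_lit 15) (.e (nat_lit 188450) (nat_lit 23) (.e (nat_lit 204821) (nat_lit 17) (.e (nat_lit 6223) (nat_lit 334) (.e (nat_lit 130816) (nat_lit 270) (.e (nat_lit 1227) (nat_lit 91) .nil)))))) (.g (nat_lit 4) .nil .nil))) 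
(.lf (nat_lit 219642) (.g (nat_lit 1780) (.e (nat_lit 90176) (nat_lit 15) (.e (nat_lit 188450) (nat_lit 23) (.e (nat_lit 204852) (nat_lit 26) (.e (nat_lit 335878) (nat_lit 0) .nil)))) .nil)))))) (.nd (nat_lit 3) (.nd (nat_lit 4) (.nd (nat_lit 5) (.nd (nat_lit 6) 
(.lf (nat_lit 219526) (.g (nat_lit 661) (.e (nat_lit 90176) (nat_lit 15) (.e (nat_lit 188450) (nat_lit 23) (.e (nat_lit 204801) (nat_lit 0) .nil))) .nil)) 
(.lf (nat_lit 219590) (.g (nat_lit 1741) (.e (nat_lit 90176) (nat_lit 15) (.e (nat_lit 188450) (nat_lit 23) (.e (nat_lit 204845) (nat_lit 24) (.e (nat_lit 319500) (nat_lit 10) .nil)))) .nil))) (.nd (nat_lit 6) 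
(.lf (nat_lit 219558) (.g (nat_lit 1892) (.e (nat_lit 90176) (nat_lit 15) (.e (nat_lit 188450) (nat_lit 23) (.e (nat_lit 204819) (nat_lit 17) (.e (nat_lit 6218) (nat_lit 333) (.e (nat_lit 65280) (nat_lit 270) (.e (nat_lit 1227) (nat_lit 91) .nil)))))) (.g (nat_lit 4) .nil .nil))) 
(.lf (nat_lit 219622) (.g (nat_lit 1724) (.e (nat_lit 90176) (nat_lit 15) (.e (nat_lit 188450) (nat_lit 23) (.e (nat_lit 204846) (nat_lit 24) (.e (nat_lit 319506) (nat_lit 10) (.e (nat_lit 5359) (nat_lit 298) .nil))))) .nil)))) (.nd (nat_lit 5) (.nd (nat_lit 6) 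
(.lf (nat_lit 219542) (.g (nat_lit 358) (.e (nat_lit 90176) (nat_lit 15) (.e (nat_lit 188450) (nat_lit 23) (.e (nat_lit 204819) (nat_lit 17) .nil))) .nil)) 
(.lf (nat_lit 219606) (.g (nat_lit 2721) (.e (nat_lit 90176) (nat_lit 15) (.e (nat_lit 188450) (nat_lit 23) (.e (nat_lit 204846) (nat_lit 24) (.e (nat_lit 319500) (nat_lit 10) .nil)))) .nil))) (.nd (nat_lit 6) 
(.lf (nat_lit 219574) (.g (nat_lit 1788) (.e (nat_lit 90176) (nat_lit 15) (.e (nat_lit 188450) (nat_lit 23) (.e (nat_lit 204821) (nat_lit 17) (.e (nat_lit 6206) (nat_lit 333) (.e (nat_lit 57883) (nat_lit 270) (.e (nat_lit 7936) (nat_lit 91) .nil)))))) (.g (nat_lit 5) .nil .nil))) 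
(.lf (nat_lit 219638) (.g (nat_lit 1564) (.e (nat_lit 90176) (nat_lit 15) (.e (nat_lit 188450) (nat_lit 23) (.e (nat_lit 204849) (nat_lit 25) (.e (nat_lit 327705) (nat_lit 10) (.e (nat_lit 5247) (nat_lit 298) (.e (nat_lit 7936) (nat_lit 91) .nil)))))) (.g (nat_lit 4) .nil .nil)))))) (.nd (nat_lit 4) (.nd (nat_lit 5) (.nd (nat_lit 6) 
(.lf (nat_lit 219534) (.g (nat_lit 304) (.e (nat_lit 90176) (nat_lit 15) (.e (nat_lit 188450) (nat_lit 23) (.e (nat_lit 204815) (nat_lit 17) .nil))) .nil)) 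
(.lf (nat_lit 219598) (.g (nat_lit 2579) (.e (nat_lit 90176) (nat_lit 15) (.e (nat_lit 188450) (nat_lit 23) (.e (nat_lit 204845) (nat_lit 24) (.e (nat_lit 319533) (nat_lit 16) (.e (nat_lit 286733) (nat_lit 2) .nil))))) .nil))) (.nd (nat_lit 6) 
(.lf (nat_lit 219566) (.g (nat_lit 1792) (.e (nat_lit 90176) (nat_lit 15) (.e (nat_lit 188450) (nat_lit 23) (.e (nat_lit 204821) (nat_lit 17) (.e (nat_lit 6114) (nat_lit 332) (.e (nat_lit 970) (nat_lit 81) (.e (nat_lit 7936) (nat_lit 298) (.e (nat_lit 1227) (nat_lit 91) .nil))))))) (.g (nat_lit 4) .nil .nil))) 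
(.lf (nat_lit 219630) (.g (nat_lit 824) (.e (nat_lit 90176) (nat_lit 15) (.e (nat_lit 188450) (nat_lit 23) (.e (nat_lit 204848) (nat_lit 25) (.e (nat_lit 327692) (nat_lit 1) (.e (nat_lit 16128) (nat_lit 128) .nil))))) .nil)))) (.nd (nat_lit 5) (.nd (nat_lit 6) 
(.lf (nat_lit 219550) (.g (nat_lit 1565) (.e (nat_lit 90176) (nat_lit 15) (.e (nat_lit 188450) (nat_lit 23) (.e (nat_lit 204819) (nat_lit 17) (.e (nat_lit 6210) (nat_lit 333) (.e (nat_lit 57879) (nat_lit 270) (.e (nat_lit 7936) (nat_lit 91) .nil)))))) (.g (nat_lit 4) .nil .nil))) 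
(.lf (nat_lit 219614) (.g (nat_lit 4201) (.e (nat_lit 90176) (nat_lit 15) (.e (nat_lit 188450) (nat_lit 23) (.e (nat_lit 204846) (nat_lit 24) (.e (nat_lit 319504) (nat_lit 10) (.e (nat_lit 5351) (nat_lit 298) (.e (nat_lit 1235) (nat_lit 91) .nil)))))) (.g (nat_lit 4) .nil .nil)))) (.nd (nat_lit 6) 
(.lf (nat_lit 219582) (.g (nat_lit 409) (.e (nat_lit 90176) (nat_lit 15) (.e (nat_lit 188450) (nat_lit 23) (.e (nat_lit 204829) (nat_lit 18) .nil))) .nil)) 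
(.lf (nat_lit 219646) (.g (nat_lit 1571) (.e (nat_lit 90176) (nat_lit 15) (.e (nat_lit 188450) (nat_lit 23) (.e (nat_lit 204852) (nat_lit 26) (.e (nat_lit 336036) (nat_lit 4) .nil)))) .nil)))))))) (.nd (nat_lit 1) (.nd (nat_lit 2) (.nd (nat_lit 3) (.nd (nat_lit 4) (.nd (nat_lit 5) (.nd (nat_lit 6) 
(.lf (nat_lit 219521) (.g (nat_lit 2617) (.e (nat_lit 90176) (nat_lit 15) (.e (nat_lit 188449) (nat_lit 22) (.e (nat_lit 196666) (nat_lit 13) (.e (nat_lit 65538) (nat_lit 0) .nil)))) .nil)) 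
(.lf (nat_lit 219585) (.g (nat_lit 866) (.e (nat_lit 90176) (nat_lit 15) (.e (nat_lit 188450) (nat_lit 23) (.e (nat_lit 204830) (nat_lit 18) (.e (nat_lit 65280) (nat_lit 221) .nil)))) .nil))) (.nd (nat_lit 6) 
(.lf (nat_lit 219553) (.g (nat_lit 2305) (.e (nat_lit 90176) (nat_lit 15) (.e (nat_lit 188450) (nat_lit 23) (.e (nat_lit 204819) (nat_lit 17) (.e (nat_lit 6218) (nat_lit 333) (.e (nat_lit 57883) (nat_lit 270) (.e (nat_lit 7936) (nat_lit 91) .nil)))))) (.g (nat_lit 5) .nil .nil))) 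
(.lf (nat_lit 219617) (.g (nat_lit 3795) (.e (nat_lit 90176) (nat_lit 15) (.e (nat_lit 188450) (nat_lit 23) (.e (nat_lit 204846) (nat_lit 24) (.e (nat_lit 319505) (nat_lit 10) (.e (nat_lit 5351) (nat_lit 298) (.e (nat_lit 1235) (nat_lit 91) .nil)))))) (.g (nat_lit 4) .nil .nil))))) (.nd (nat_lit 5) (.nd (nat_lit 6) 
(.lf (nat_lit 219537) (.g (nat_lit 1874) (.e (nat_lit 90176) (nat_lit 15) (.e (nat_lit 188450) (nat_lit 23) (.e (nat_lit 204816) (nat_lit 17) (.e (nat_lit 6220) (nat_lit 333) (.e (nat_lit 57885) (nat_lit 270) (.e (nat_lit 1225) (nat_lit 91) .nil)))))) (.g (nat_lit 4) .nil .nil))) 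
(.lf (nat_lit 219601) (.g (nat_lit 1395) (.e (nat_lit 90176) (nat_lit 15) (.e (nat_lit 188450) (nat_lit 23) (.e (nat_lit 204845) (nat_lit 24) (.e (nat_lit 327424) (nat_lit 17) .nil)))) .nil))) (.nd (nat_lit 6) 
(.lf (nat_lit 219569) (.g (nat_lit 3001) (.e (nat_lit 90176) (nat_lit 15) (.e (nat_lit 188450) (nat_lit 23) (.e (nat_lit 204821) (nat_lit 17) (.e (nat_lit 6114) (nat_lit 332) (.e (nat_lit 1370) (nat_lit 103) (.e (nat_lit 294927) (nat_lit 2) .nil)))))) (.g (nat_lit 6) .nil .nil))) 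
(.lf (nat_lit 219633) (.g (nat_lit 611) (.e (nat_lit 90176) (nat_lit 15) (.e (nat_lit 188450) (nat_lit 23) (.e (nat_lit 204848) (nat_lit 25) (.e (nat_lit 335616) (nat_lit 16) .nil)))) .nil))))) (.nd (nat_lit 4) (.nd (nat_lit 5) (.nd (nat_lit 6) 
(.lf (nat_lit 219529) (.g (nat_lit 615) (.e (nat_lit 90176) (nat_lit 15) (.e (nat_lit 188450) (nat_lit 23) (.e (nat_lit 204807) (nat_lit 0) .nil))) .nil)) 
(.lf (nat_lit 219593) (.g (nat_lit 2136) (.e (nat_lit 90176) (nat_lit 15) (.e (nat_lit 188450) (nat_lit 23) (.e (nat_lit 204845) (nat_lit 24) (.e (nat_lit 319506) (nat_lit 10) (.e (nat_lit 5296) (nat_lit 298) .nil))))) .nil))) (.nd (nat_lit 6) 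
(.lf (nat_lit 219561) (.g (nat_lit 1662) (.e (nat_lit 90176) (nat_lit 15) (.e (nat_lit 188450) (nat_lit 23) (.e (nat_lit 204819) (nat_lit 17) (.e (nat_lit 6225) (nat_lit 334) (.e (nat_lit 123203) (nat_lit 270) (.e (nat_lit 7936) (nat_lit 91) .nil)))))) (.g (nat_lit 4) .nil .nil))) 
(.lf (nat_lit 219625) (.g (nat_lit 3719) (.e (nat_lit 90176) (nat_lit 15) (.e (nat_lit 188450) (nat_lit 23) (.e (nat_lit 204846) (nat_lit 24) (.e (nat_lit 319511) (nat_lit 10) (.e (nat_lit 5293) (nat_lit 298) (.e (nat_lit 1232) (nat_lit 91) .nil)))))) (.g (nat_lit 6) .nil .nil))))) (.nd (nat_lit 5) (.nd (nat_lit 6) 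
(.lf (nat_lit 219545) (.g (nat_lit 1237) (.e (nat_lit 90176) (nat_lit 15) (.e (nat_lit 188450) (nat_lit 23) (.e (nat_lit 204819) (nat_lit 17) (.e (nat_lit 6109) (nat_lit 332) (.e (nat_lit 1016) (nat_lit 81) .nil))))) .nil)) 
(.lf (nat_lit 219609) (.g (nat_lit 2757) (.e (nat_lit 90176) (nat_lit 15) (.e (nat_lit 188450) (nat_lit 23) (.e (nat_lit 204846) (nat_lit 24) (.e (nat_lit 319503) (nat_lit 10) .nil)))) .nil))) (.nd (nat_lit 6) 
(.lf (nat_lit 219577) (.g (nat_lit 1968) (.e (nat_lit 90176) (nat_lit 15) (.e (nat_lit 188450) (nat_lit 23) (.e (nat_lit 204821) (nat_lit 17) (.e (nat_lit 6223) (nat_lit 334) (.e (nat_lit 123206) (nat_lit 270) (.e (nat_lit 1225) (nat_lit 91) .nil)))))) (.g (nat_lit 4) .nil .nil))) 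
(.lf (nat_lit 219641) (.g (nat_lit 618) (.e (nat_lit 90176) (nat_lit 15) (.e (nat_lit 188450) (nat_lit 23) (.e (nat_lit 204851) (nat_lit 26) (.e (nat_lit 336029) (nat_lit 4) .nil)))) .nil)))))) (.nd (nat_lit 3) (.nd (nat_lit 4) (.nd (nat_lit 5) (.nd (nat_lit 6) 
(.lf (nat_lit 219525) (.g (nat_lit 1840) (.e (nat_lit 90176) (nat_lit 15) (.e (nat_lit 188449) (nat_lit 22) (.e (nat_lit 196670) (nat_lit 14) (.e (nat_lit 73732) (nat_lit 0) .nil)))) .nil)) 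
(.lf (nat_lit 219589) (.g (nat_lit 1551) (.e (nat_lit 90176) (nat_lit 15) (.e (nat_lit 188450) (nat_lit 23) (.e (nat_lit 204845) (nat_lit 24) (.e (nat_lit 319498) (nat_lit 10) .nil)))) .nil))) (.nd (nat_lit 6) 
(.lf (nat_lit 219557) (.g (nat_lit 1685) (.e (nat_lit 90176) (nat_lit 15) (.e (nat_lit 188450) (nat_lit 23) (.e (nat_lit 204819) (nat_lit 17) (.e (nat_lit 6218) (nat_lit 333) (.e (nat_lit 57889) (nat_lit 270) (.e (nat_lit 7936) (nat_lit 91) .nil)))))) (.g (nat_lit 4) .nil .nil))) 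
(.lf (nat_lit 219621) (.g (nat_lit 2594) (.e (nat_lit 90176) (nat_lit 15) (.e (nat_lit 188450) (nat_lit 23) (.e (nat_lit 204846) (nat_lit 24) (.e (nat_lit 319506) (nat_lit 10) (.e (nat_lit 5296) (nat_lit 298) (.e (nat_lit 1232) (nat_lit 91) .nil)))))) (.g (nat_lit 4) .nil .nil))))) (.nd (nat_lit 5) (.nd (nat_lit 6) 
(.lf (nat_lit 219541) (.g (nat_lit 579) (.e (nat_lit 90176) (nat_lit 15) (.e (nat_lit 188450) (nat_lit 23) (.e (nat_lit 204818) (nat_lit 17) .nil))) .nil)) 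
(.lf (nat_lit 219605) (.g (nat_lit 2445) (.e (nat_lit 90176) (nat_lit 15) (.e (nat_lit 188450) (nat_lit 23) (.e (nat_lit 204846) (nat_lit 24) (.e (nat_lit 319499) (nat_lit 10) .nil)))) .nil))) (.nd (nat_lit 6) 
(.lf (nat_lit 219573) (.g (nat_lit 1737) (.e (nat_lit 90176) (nat_lit 15) (.e (nat_lit 188450) (nat_lit 23) (.e (nat_lit 204821) (nat_lit 17) (.e (nat_lit 6206) (nat_lit 333) (.e (nat_lit 57881) (nat_lit 270) (.e (nat_lit 7936) (nat_lit 91) .nil)))))) (.g (nat_lit 5) .nil .nil))) 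
(.lf (nat_lit 219637) (.g (nat_lit 859) (.e (nat_lit 90176) (nat_lit 15) (.e (nat_lit 188450) (nat_lit 23) (.e (nat_lit 204849) (nat_lit 25) (.e (nat_lit 327705) (nat_lit 10) .nil)))) .nil))))) (.nd (nat_lit 4) (.nd (nat_lit 5) (.nd (nat_lit 6) 
(.lf (nat_lit 219533) (.g (nat_lit 655) (.e (nat_lit 90176) (nat_lit 15) (.e (nat_lit 188450) (nat_lit 23) (.e (nat_lit 204814) (nat_lit 17) .nil))) .nil)) 
(.lf (nat_lit 219597) (.g (nat_lit 2583) (.e (nat_lit 90176) (nat_lit 15) (.e (nat_lit 188450) (nat_lit 23) (.e (nat_lit 204845) (nat_lit 24) (.e (nat_lit 319531) (nat_lit 16) (.e (nat_lit 294656) (nat_lit 2) .nil))))) .nil))) (.nd (nat_lit 6) 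
(.lf (nat_lit 219565) (.g (nat_lit 1686) (.e (nat_lit 90176) (nat_lit 15) (.e (nat_lit 188450) (nat_lit 23) (.e (nat_lit 204821) (nat_lit 17) (.e (nat_lit 6114) (nat_lit 332) (.e (nat_lit 968) (nat_lit 81) (.e (nat_lit 5346) (nat_lit 298) (.e (nat_lit 1238) (nat_lit 91) .nil))))))) (.g (nat_lit 4) .nil .nil))) 
(.lf (nat_lit 219629) (.g (nat_lit 374) (.e (nat_lit 90176) (nat_lit 15) (.e (nat_lit 188450) (nat_lit 23) (.e (nat_lit 204848) (nat_lit 25) .nil))) .nil)))) (.nd (nat_lit 5) (.nd (nat_lit 6) 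
(.lf (nat_lit 219549) (.g (nat_lit 4055) (.e (nat_lit 90176) (nat_lit 15) (.e (nat_lit 188450) (nat_lit 23) (.e (nat_lit 204819) (nat_lit 17) (.e (nat_lit 6113) (nat_lit 332) (.e (nat_lit 1370) (nat_lit 103) (.e (nat_lit 294928) (nat_lit 2) .nil)))))) (.g (nat_lit 0) .nil .nil))) 
(.lf (nat_lit 219613) (.g (nat_lit 2871) (.e (nat_lit 90176) (nat_lit 15) (.e (nat_lit 188450) (nat_lit 23) (.e (nat_lit 204846) (nat_lit 24) (.e (nat_lit 319504) (nat_lit 10) (.e (nat_lit 5301) (nat_lit 298) (.e (nat_lit 1225) (nat_lit 91) .nil)))))) (.g (nat_lit 4) .nil .nil)))) (.nd (nat_lit 6) 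
(.lf (nat_lit 219581) (.g (nat_lit 429) (.e (nat_lit 90176) (nat_lit 15) (.e (nat_lit 188450) (nat_lit 23) (.e (nat_lit 212736) (nat_lit 17) .nil))) .nil)) 
(.lf (nat_lit 219645) (.g (nat_lit 1045) (.e (nat_lit 90176) (nat_lit 15) (.e (nat_lit 188450) (nat_lit 23) (.e (nat_lit 204852) (nat_lit 26) (.e (nat_lit 343808) (nat_lit 1) .nil)))) .nil))))))) (.nd (nat_lit 2) (.nd (nat_lit 3) (.nd (nat_lit 4) (.nd (nat_lit 5) (.nd (nat_lit 6) 
(.lf (nat_lit 219523) (.g (nat_lit 1113) (.e (nat_lit 90176) (nat_lit 15) (.e (nat_lit 188449) (nat_lit 22) (.e (nat_lit 196668) (nat_lit 14) .nil))) .nil)) 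
(.lf (nat_lit 219587) (.g (nat_lit 458) (.e (nat_lit 90176) (nat_lit 15) (.e (nat_lit 188450) (nat_lit 23) (.e (nat_lit 204840) (nat_lit 21) .nil))) .nil))) (.nd (nat_lit 6) 
(.lf (nat_lit 219555) (.g (nat_lit 2394) (.e (nat_lit 90176) (nat_lit 15) (.e (nat_lit 188450) (nat_lit 23) (.e (nat_lit 204819) (nat_lit 17) (.e (nat_lit 6218) (nat_lit 333) (.e (nat_lit 57887) (nat_lit 270) (.e (nat_lit 1232) (nat_lit 91) .nil)))))) (.g (nat_lit 4) .nil .nil))) 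
(.lf (nat_lit 219619) (.g (nat_lit 3424) (.e (nat_lit 90176) (nat_lit 15) (.e (nat_lit 188450) (nat_lit 23) (.e (nat_lit 204846) (nat_lit 24) (.e (nat_lit 319505) (nat_lit 10) (.e (nat_lit 7936) (nat_lit 298) (.e (nat_lit 1238) (nat_lit 91) .nil)))))) (.g (nat_lit 4) .nil .nil))))) (.nd (nat_lit 5) (.nd (nat_lit 6) 
(.lf (nat_lit 219539) (.g (nat_lit 781) (.e (nat_lit 90176) (nat_lit 15) (.e (nat_lit 188450) (nat_lit 23) (.e (nat_lit 204816) (nat_lit 17) (.e (nat_lit 6714) (nat_lit 360) .nil)))) .nil)) 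
(.lf (nat_lit 219603) (.g (nat_lit 2340) (.e (nat_lit 90176) (nat_lit 15) (.e (nat_lit 188450) (nat_lit 23) (.e (nat_lit 204846) (nat_lit 24) (.e (nat_lit 319497) (nat_lit 10) .nil)))) .nil))) (.nd (nat_lit 6) 
(.lf (nat_lit 219571) (.g (nat_lit 1733) (.e (nat_lit 90176) (nat_lit 15) (.e (nat_lit 188450) (nat_lit 23) (.e (nat_lit 204821) (nat_lit 17) (.e (nat_lit 6136) (nat_lit 332) (.e (nat_lit 989) (nat_lit 81) (.e (nat_lit 5349) (nat_lit 298) (.e (nat_lit 1227) (nat_lit 91) .nil))))))) (.g (nat_lit 5) .nil .nil))) 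
(.lf (nat_lit 219635) (.g (nat_lit 380) (.e (nat_lit 90176) (nat_lit 15) (.e (nat_lit 188450) (nat_lit 23) (.e (nat_lit 204849) (nat_lit 25) .nil))) .nil))))) (.nd (nat_lit 4) (.nd (nat_lit 5) (.nd (nat_lit 6) 
(.lf (nat_lit 219531) (.g (nat_lit 429) (.e (nat_lit 90176) (nat_lit 15) (.e (nat_lit 188450) (nat_lit 23) (.e (nat_lit 212736) (nat_lit 1) .nil))) .nil)) 
(.lf (nat_lit 219595) (.g (nat_lit 1706) (.e (nat_lit 90176) (nat_lit 15) (.e (nat_lit 188450) (nat_lit 23) (.e (nat_lit 204845) (nat_lit 24) (.e (nat_lit 319511) (nat_lit 10) .nil)))) .nil))) (.nd (nat_lit 6) 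
(.lf (nat_lit 219563) (.g (nat_lit 673) (.e (nat_lit 90176) (nat_lit 15) (.e (nat_lit 188450) (nat_lit 23) (.e (nat_lit 204821) (nat_lit 17) (.e (nat_lit 6114) (nat_lit 332) .nil)))) .nil)) 
(.lf (nat_lit 219627) (.g (nat_lit 2864) (.e (nat_lit 90176) (nat_lit 15) (.e (nat_lit 188450) (nat_lit 23) (.e (nat_lit 204846) (nat_lit 24) (.e (nat_lit 319514) (nat_lit 11) .nil)))) .nil)))) (.nd (nat_lit 5) (.nd (nat_lit 6) 
(.lf (nat_lit 219547) (.g (nat_lit 2186) (.e (nat_lit 90176) (nat_lit 15) (.e (nat_lit 188450) (nat_lit 23) (.e (nat_lit 204819) (nat_lit 17) (.e (nat_lit 6113) (nat_lit 332) (.e (nat_lit 968) (nat_lit 81) (.e (nat_lit 5345) (nat_lit 298) (.e (nat_lit 1238) (nat_lit 91) .nil))))))) (.g (nat_lit 4) .nil .nil))) 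
(.lf (nat_lit 219611) (.g (nat_lit 3218) (.e (nat_lit 90176) (nat_lit 15) (.e (nat_lit 188450) (nat_lit 23) (.e (nat_lit 204846) (nat_lit 24) (.e (nat_lit 319504) (nat_lit 10) (.e (nat_lit 5272) (nat_lit 298) (.e (nat_lit 1225) (nat_lit 91) .nil)))))) (.g (nat_lit 4) .nil .nil)))) (.nd (nat_lit 6) 
(.lf (nat_lit 219579) (.g (nat_lit 1578) (.e (nat_lit 90176) (nat_lit 15) (.e (nat_lit 188450) (nat_lit 23) (.e (nat_lit 204821) (nat_lit 17) (.e (nat_lit 6223) (nat_lit 334) (.e (nat_lit 130816) (nat_lit 270) (.e (nat_lit 1228) (nat_lit 91) .nil)))))) (.g (nat_lit 4) .nil .nil))) 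
(.lf (nat_lit 219643) (.g (nat_lit 1495) (.e (nat_lit 90176) (nat_lit 15) (.e (nat_lit 188450) (nat_lit 23) (.e (nat_lit 204852) (nat_lit 26) (.e (nat_lit 335980) (nat_lit 0) .nil)))) .nil)))))) (.nd (nat_lit 3) (.nd (nat_lit 4) (.nd (nat_lit 5) (.nd (nat_lit 6) 
(.lf (nat_lit 219527) (.g (nat_lit 661) (.e (nat_lit 90176) (nat_lit 15) (.e (nat_lit 188450) (nat_lit 23) (.e (nat_lit 204803) (nat_lit 0) .nil))) .nil)) 
(.lf (nat_lit 219591) (.g (nat_lit 2276) (.e (nat_lit 90176) (nat_lit 15) (.e (nat_lit 188450) (nat_lit 23) (.e (nat_lit 204845) (nat_lit 24) (.e (nat_lit 319500) (nat_lit 10) (.e (nat_lit 5351) (nat_lit 298) .nil))))) .nil))) (.nd (nat_lit 6) 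
(.lf (nat_lit 219559) (.g (nat_lit 1943) (.e (nat_lit 90176) (nat_lit 15) (.e (nat_lit 188450) (nat_lit 23) (.e (nat_lit 204819) (nat_lit 17) (.e (nat_lit 6218) (nat_lit 333) (.e (nat_lit 65280) (nat_lit 270) (.e (nat_lit 1228) (nat_lit 91) .nil)))))) (.g (nat_lit 4) .nil .nil))) 
(.lf (nat_lit 219623) (.g (nat_lit 2357) (.e (nat_lit 90176) (nat_lit 15) (.e (nat_lit 188450) (nat_lit 23) (.e (nat_lit 204846) (nat_lit 24) (.e (nat_lit 319506) (nat_lit 10) (.e (nat_lit 5367) (nat_lit 298) (.e (nat_lit 1235) (nat_lit 91) .nil)))))) (.g (nat_lit 4) .nil .nil))))) (.nd (nat_lit 5) (.nd (nat_lit 6) 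
(.lf (nat_lit 219543) (.g (nat_lit 892) (.e (nat_lit 90176) (nat_lit 15) (.e (nat_lit 188450) (nat_lit 23) (.e (nat_lit 204819) (nat_lit 17) (.e (nat_lit 973) (nat_lit 81) .nil)))) .nil)) 
(.lf (nat_lit 219607) (.g (nat_lit 3314) (.e (nat_lit 90176) (nat_lit 15) (.e (nat_lit 188450) (nat_lit 23) (.e (nat_lit 204846) (nat_lit 24) (.e (nat_lit 319500) (nat_lit 10) (.e (nat_lit 5351) (nat_lit 298) .nil))))) .nil))) (.nd (nat_lit 6) 
(.lf (nat_lit 219575) (.g (nat_lit 1453) (.e (nat_lit 90176) (nat_lit 15) (.e (nat_lit 188450) (nat_lit 23) (.e (nat_lit 204821) (nat_lit 17) (.e (nat_lit 6206) (nat_lit 333) (.e (nat_lit 65280) (nat_lit 270) (.e (nat_lit 1227) (nat_lit 91) .nil)))))) (.g (nat_lit 4) .nil .nil))) 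
(.lf (nat_lit 219639) (.g (nat_lit 2405) (.e (nat_lit 90176) (nat_lit 15) (.e (nat_lit 188450) (nat_lit 23) (.e (nat_lit 204849) (nat_lit 25) (.e (nat_lit 327708) (nat_lit 10) (.e (nat_lit 5293) (nat_lit 298) (.e (nat_lit 1225) (nat_lit 91) .nil)))))) (.g (nat_lit 5) .nil .nil)))))) (.nd (nat_lit 4) (.nd (nat_lit 5) (.nd (nat_lit 6) 
(.lf (nat_lit 219535) (.g (nat_lit 313) (.e (nat_lit 90176) (nat_lit 15) (.e (nat_lit 188450) (nat_lit 23) (.e (nat_lit 204816) (nat_lit 17) .nil))) .nil)) 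
(.lf (nat_lit 219599) (.g (nat_lit 3604) (.e (nat_lit 90176) (nat_lit 15) (.e (nat_lit 188450) (nat_lit 23) (.e (nat_lit 204845) (nat_lit 24) (.e (nat_lit 319534) (nat_lit 16) (.e (nat_lit 286733) (nat_lit 2) .nil))))) (.g (nat_lit 0) .nil .nil)))) (.nd (nat_lit 6) 
(.lf (nat_lit 219567) (.g (nat_lit 1932) (.e (nat_lit 90176) (nat_lit 15) (.e (nat_lit 188450) (nat_lit 23) (.e (nat_lit 204821) (nat_lit 17) (.e (nat_lit 6114) (nat_lit 332) (.e (nat_lit 970) (nat_lit 81) (.e (nat_lit 7936) (nat_lit 298) (.e (nat_lit 1228) (nat_lit 91) .nil))))))) (.g (nat_lit 4) .nil .nil))) 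
(.lf (nat_lit 219631) (.g (nat_lit 1952) (.e (nat_lit 90176) (nat_lit 15) (.e (nat_lit 188450) (nat_lit 23) (.e (nat_lit 204848) (nat_lit 25) (.e (nat_lit 327705) (nat_lit 10) (.e (nat_lit 5279) (nat_lit 298) (.e (nat_lit 1225) (nat_lit 91) .nil)))))) (.g (nat_lit 5) .nil .nil))))) (.nd (nat_lit 5) (.nd (nat_lit 6) 
(.lf (nat_lit 219551) (.g (nat_lit 2213) (.e (nat_lit 90176) (nat_lit 15) (.e (nat_lit 188450) (nat_lit 23) (.e (nat_lit 204819) (nat_lit 17) (.e (nat_lit 6212) (nat_lit 333) (.e (nat_lit 57878) (nat_lit 270) (.e (nat_lit 7936) (nat_lit 91) .nil)))))) (.g (nat_lit 5) .nil .nil))) 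
(.lf (nat_lit 219615) (.g (nat_lit 3468) (.e (nat_lit 90176) (nat_lit 15) (.e (nat_lit 188450) (nat_lit 23) (.e (nat_lit 204846) (nat_lit 24) (.e (nat_lit 319504) (nat_lit 10) (.e (nat_lit 7936) (nat_lit 298) (.e (nat_lit 1236) (nat_lit 91) .nil)))))) (.g (nat_lit 4) .nil .nil)))) (.nd (nat_lit 6) 
(.lf (nat_lit 219583) (.g (nat_lit 1104) (.e (nat_lit 90176) (nat_lit 15) (.e (nat_lit 188450) (nat_lit 23) (.e (nat_lit 204829) (nat_lit 18) (.e (nat_lit 65280) (nat_lit 223) .nil)))) .nil)) 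
(.lf (nat_lit 219647) (.g (nat_lit 1691) (.e (nat_lit 90176) (nat_lit 15) (.e (nat_lit 188450) (nat_lit 23) (.e (nat_lit 204852) (nat_lit 26) (.e (nat_lit 336238) (nat_lit 15) .nil)))) .nil)))))))))


end

end Pool.Agent.Lib.MP_5854e1_co.Cz
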